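import Pool.Agent.YM.BG.G6

set_option linter.unusedVariables false
set_option maxRecDepth 100000

open YMEng

namespace YMBG

def rowsG0_26 : List (ℕ × List ℤ) := [(540, [417907, -317378, 274517]),
  (540, [0, 350085, -62810]),
  (540, [0, 0, 727503]),
  (18417061716840, [1, 0, 0]),
  (18417061716840, [0, 1, 0]),
  (18417061716840, [0, 0, 1])]

def MG0_26 : List (List ℤ) := [[112726042467300, -143245246873680, 123900381992520],
  [138992744855700, -117843654898080],
  [347042320691760]]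

def uG0_26 : List ℤ := [149922282538840320, 299844565077680640, -92833360333531200, 289005364449941760, 135435838931832960, 565258349236786560, -96583905622344960, 330226440315327360, -96583905622344960, -162053376235308000, 144502682224970880, -180905349478757760, -863009046074174400, -46416680166765600, 408769767763624800, 29677381225830720, -286379719907207040, 299844565077680640, 408769767763624800, -671278288613035680, 131254260424705440, 131254260424705440, -165113220157663680, -165113220157663680, -243656547605961120, 262508520849410880, -487313095211922240, -270167183851849920, -495339660472991040, 85054003628148000, 144875858433517440, 96583905622344960, 149922282538840320, 56188017471719520, 408769767763624800, 262508520849410880, -96583905622344960, -299844565077680640, 112376034943439040, -318696538321130400, -263319915918813120, 447742394776056960, -165113220157663680, 48291952811172480, 67717919465916480]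

def gG0_26 : List ℤ := [0, 0, 0, 0, 0, 0, 0, 0, 0, 0, 0, 0, 0, 149922282538840320, 299844565077680640, 0, 0, 0, 0, 0, 0, 0, 0, 0, 0, 0, 0, 0, 0, 0, 0, 0, 0, 0, 0, 0, 0, 0, 0, 0, 0, 0, 0, 0, 0, 0, 0, 0, 0, 0, 0, 0, 0, 0, 0, 0, 0, -92833360333531200, 289005364449941760, 0, 0, 0, 0, 0, 0, 0, 0, 0, 0, 0, 0, 0, 0, 0, 0, 0, 0, 0, 0, 0, 0, 0, 0, 0, 0, 0, 0, 0, 0, 0, 0, 0, 0, 0, 135435838931832960, 565258349236786560, -96583905622344960, 330226440315327360, -96583905622344960, 0, 0, 0, 0, 0, 0, 0, 0, 0, 0, -162053376235308000, 144502682224970880, -180905349478757760, -863009046074174400, 0, 0, 0, 0, 0, 0, -46416680166765600, 408769767763624800, 0, 0, 0, 0, 29677381225830720, -286379719907207040, 0, 0, 0, 0, 0, 299844565077680640, 408769767763624800, 0, 0, 0, 0, 0, 0, 0, 0, 0, 0, -671278288613035680, 0, 0, 0, 0, 0, 0, 0, 0, 0, 0, 0, 0, 0, 0, 0, 0, 0, 0, 0, 0, 0, 0, 0, 0, 0, 0, 0, 0, 0, 0, 0, 0, 0, 0, 0, 0, 0, 0, 0, 0, 0, 0, 0, 0, 0, 0, 0, 0, 0, 0, 0, 0, 0, 0, 0,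 0, 0, 0, 0, 131254260424705440, 0, 131254260424705440, 0, 0, 0, 0, 0, 0, 0, 0, 0, -165113220157663680, -165113220157663680, -243656547605961120, 262508520849410880, -487313095211922240, -270167183851849920, -495339660472991040, 85054003628148000, 144875858433517440, 96583905622344960, 0, 0, 0, 0, 0, 0, 0, 0, 0, 0, 0, 0, 0, 0, 0, 0, 0, 0, 0, 0, 0, 0, 0, 0, 0, 0, 149922282538840320, 56188017471719520, 0, 0, 0, 0, 0, 0, 0, 0, 0, 0, 0, 0, 0, 408769767763624800, 262508520849410880, -96583905622344960, 0, 0, 0, 0, 0, 0, 0, 0, 0, 0, 0, 0, 0, 0, -299844565077680640, 112376034943439040, -318696538321130400, -263319915918813120, 447742394776056960, 0, 0, 0, 0, 0, 0, 0, 0, 0, 0, 0, 0, 0, -165113220157663680, 48291952811172480, 0, 0, 0, 0, 0, 0, 0, 0, 0, 0, 0, 0, 0, 0, 0, 0, 0, 0, 0, 0, 0, 0, 0, 0, 0, 0, 0, 0, 0, 0, 0, 0, 0, 0, 0, 0, 0, 0, 0, 0, 0, 0, 0, 0, 0, 0, 0, 0, 0, 0, 0, 0, 0, 0, 0, 0, 0, 0, 0, 0, 0, 0, 0, 0, 0, 0, 0, 0, 0, 0, 0, 0, 0, 0, 0, 0, 0, 0, 0, 0, 0,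 0, 0, 0, 0, 0, 0, 0, 0, 0, 0, 0, 0, 0, 0, 0, 0, 0, 0, 0, 0, 0, 0, 0, 0, 0, 0, 0, 0, 0, 0, 0, 0, 0, 0, 0, 0, 0, 0, 0, 0, 0, 0, 0, 0, 0, 67717919465916480]

theorem grG0_26 : eqM (gramT rowsG0_26) MG0_26 = true := by
  decide +kernel

theorem mvG0_26 : eqZ (mval MG0_26 tab26) uG0_26 = true := by
  decide +kernel

theorem nnG0_26 {κ ι : Type*} [Fintype κ] [Fintype ι] [Inhabited κ] [Inhabited ι] (E : Env κ ι) : 0 ≤ dot (ek E keys) gG0_26 0 :=
  to_global E keys lk26 kl26 tr26 uG0_26 (blockG_nonneg _ _ _ (tri26 E) rowsG0_26 MG0_26 grG0_26 uG0_26 mvG0_26) 451 gG0_26 (by decide +kernel)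

end YMBG
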