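import Pool.Agent.YM.BG.Ga0

set_option linter.unusedVariables false
set_option maxRecDepth 100000

open YMEng

namespace YMBG

def lk5 : List Key := [
  (1, 5, [(0, [0], [0, 1]), (0, [0], [0, 1]), (1, [], [2, 3]), (1, [], [2, 4]), (4, [], [4]), (4, [], [3])]),
  (1, 5, [(0, [0], [0, 1]), (0, [0], [0, 2]), (4, [], [2]), (4, [], [1]), (1, [], [3, 4]), (1, [], [3, 4])]),
  (2, 7, [(0, [0], [0, 1]), (0, [1], [0, 2]), (0, [1], [3, 4]), (0, [0], [5, 6]), (1, [], [5, 6]), (1, [], [3, 4]), (4, [], [2]), (4, [], [1])]),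
  (3, 7, [(0, [0], [0, 1]), (0, [0], [0, 1]), (0, [1], [2, 3]), (0, [2], [2, 4]), (0, [2], [5, 6]), (0, [1], [5, 6]), (4, [], [4]), (4, [], [3])]),
  (1, 5, [(0, [0], [0, 1]), (1, [], [2, 3]), (2, [0], [0, 1, 4]), (3, [], [2, 3, 4])]),
  (1, 6, [(0, [0], [0, 1]), (0, [0], [0, 1]), (1, [], [2, 3]), (1, [], [4, 5]), (3, [], [2, 4, 5]), (4, [], [3])]),
  (1, 6, [(0, [0], [0, 1]), (0, [0], [2, 3]), (1, [], [2, 3]), (1, [], [4, 5]), (3, [], [0, 4, 5]), (4, [], [1])]),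
  (1, 6, [(0, [0], [0, 1]), (1, [], [2, 3]), (2, [0], [0, 1, 2]), (4, [], [3]), (1, [], [4, 5]), (1, [], [4, 5])]),
  (1, 7, [(0, [0], [0, 1]), (0, [0], [0, 1]), (1, [], [2, 3]), (1, [], [2, 3]), (1, [], [4, 5]), (1, [], [4, 6]), (4, [], [6]), (4, [], [5])]),
  (1, 7, [(0, [0], [0, 1]), (0, [0], [2, 3]), (1, [], [0, 4]), (1, [], [2, 3]), (4, [], [1]), (4, [], [4]), (1, [], [5, 6]), (1, [], [5, 6])]),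
  (2, 6, [(0, [0], [0, 1]), (0, [0], [2, 3]), (0, [1], [4, 5]), (1, [], [2, 3]), (2, [1], [0, 4, 5]), (4, [], [1])]),
  (2, 7, [(0, [0], [0, 1]), (0, [0], [0, 1]), (0, [1], [2, 3]), (0, [1], [4, 5]), (1, [], [2, 6]), (1, [], [4, 5]), (4, [], [3]), (4, [], [6])]),
  (1, 5, [(1, [], [0, 1]), (1, [], [0, 1]), (2, [0], [2, 3, 4]), (2, [0], [2, 3, 4])]),
  (1, 6, [(0, [0], [0, 1]), (1, [], [2, 3]), (2, [0], [0, 2, 3]), (4, [], [1]), (1, [], [4, 5]), (1, [], [4, 5])]),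
  (1, 7, [(0, [0], [0, 1]), (0, [0], [0, 2]), (4, [], [2]), (4, [], [1]), (1, [], [3, 4]), (1, [], [3, 4]), (1, [], [5, 6]), (1, [], [5, 6])]),
  (1, 5, [(0, [0], [0, 1]), (0, [0], [0, 1]), (3, [], [2, 3, 4]), (3, [], [2, 3, 4])]),
  (2, 6, [(0, [0], [0, 1]), (0, [0], [0, 1]), (0, [1], [2, 3]), (0, [1], [4, 5]), (3, [], [2, 4, 5]), (4, [], [3])]),
  (1, 5, [(0, [0], [0, 1]), (0, [0], [2, 3]), (1, [], [0, 4]), (1, [], [2, 3]), (4, [], [1]), (4, [], [4])]),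
  (1, 5, [(0, [0], [0, 1]), (0, [0], [0, 1]), (1, [], [2, 3]), (1, [], [2, 3]), (4, [], [4]), (4, [], [4])]),
  (2, 6, [(0, [0], [0, 1]), (0, [0], [2, 3]), (0, [1], [4, 5]), (1, [], [0, 1]), (2, [1], [2, 3, 4]), (4, [], [5])]),
  (2, 6, [(0, [0], [0, 1]), (0, [0], [2, 3]), (0, [1], [4, 5]), (1, [], [4, 5]), (2, [1], [0, 2, 3]), (4, [], [1])]),
  (2, 6, [(0, [0], [0, 1]), (0, [0], [2, 3]), (0, [1], [4, 5]), (1, [], [0, 4]), (2, [1], [2, 3, 5]), (4, [], [1])]),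
  (2, 7, [(0, [0], [0, 1]), (0, [0], [2, 3]), (0, [1], [4, 5]), (0, [1], [4, 6]), (1, [], [0, 5]), (1, [], [2, 3]), (4, [], [1]), (4, [], [6])]),
  (2, 6, [(0, [0], [0, 1]), (0, [0], [2, 3]), (0, [1], [4, 5]), (1, [], [0, 4]), (2, [1], [1, 2, 3]), (4, [], [5])]),
  (2, 7, [(0, [0], [0, 1]), (0, [1], [0, 2]), (0, [0], [3, 4]), (0, [1], [5, 6]), (1, [], [1, 3]), (1, [], [5, 6]), (4, [], [2]), (4, [], [4])]),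
  (2, 6, [(0, [0], [0, 1]), (0, [0], [2, 3]), (0, [1], [0, 4]), (1, [], [1, 5]), (2, [1], [2, 3, 4]), (4, [], [5])]),
  (2, 7, [(0, [0], [0, 1]), (0, [0], [2, 3]), (0, [1], [0, 4]), (0, [1], [4, 5]), (1, [], [1, 6]), (1, [], [2, 3]), (4, [], [5]), (4, [], [6])]),
  (2, 6, [(0, [0], [0, 1]), (0, [0], [2, 3]), (0, [1], [0, 4]), (1, [], [4, 5]), (2, [1], [1, 2, 3]), (4, [], [5])]),
  (2, 7, [(0, [0], [0, 1]), (0, [1], [0, 2]), (0, [1], [1, 3]), (0, [0], [4, 5]), (1, [], [2, 6]), (1, [], [4, 5]), (4, [], [3]), (4, [], [6])]),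
  (3, 7, [(0, [0], [0, 1]), (0, [1], [0, 2]), (0, [0], [2, 3]), (0, [2], [1, 4]), (0, [1], [5, 6]), (0, [2], [5, 6]), (4, [], [3]), (4, [], [4])]),
  (3, 7, [(0, [0], [0, 1]), (0, [1], [0, 2]), (0, [0], [3, 4]), (0, [1], [3, 4]), (0, [2], [1, 5]), (0, [2], [5, 6]), (4, [], [2]), (4, [], [6])]),
  (2, 6, [(0, [0], [0, 1]), (0, [0], [0, 1]), (0, [1], [2, 3]), (0, [1], [2, 4]), (1, [], [3, 5]), (4, [], [4]), (4, [], [5])]),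
  (1, 5, [(0, [0], [0, 1]), (0, [0], [0, 2]), (1, [], [3, 4]), (3, [], [1, 3, 4]), (4, [], [2])]),
  (1, 5, [(0, [0], [0, 1]), (0, [0], [0, 1]), (1, [], [2, 3]), (3, [], [2, 3, 4]), (4, [], [4])]),
  (1, 5, [(0, [0], [0, 1]), (1, [], [2, 3]), (1, [], [2, 4]), (2, [0], [0, 1, 3]), (4, [], [4])]),
  (1, 6, [(0, [0], [0, 1]), (0, [0], [0, 1]), (1, [], [2, 3]), (1, [], [2, 4]), (1, [], [3, 5]), (4, [], [5]), (4, [], [4])]),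
  (1, 6, [(0, [0], [0, 1]), (0, [0], [2, 3]), (1, [], [0, 4]), (1, [], [4, 5]), (1, [], [2, 3]), (4, [], [1]), (4, [], [5])]),
  (1, 5, [(0, [0], [0, 1]), (2, [0], [0, 1, 2]), (4, [], [2]), (1, [], [3, 4]), (1, [], [3, 4])]),
  (1, 6, [(0, [0], [0, 1]), (0, [0], [0, 1]), (1, [], [2, 3]), (1, [], [2, 3]), (1, [], [4, 5]), (4, [], [4]), (4, [], [5])]),
  (1, 6, [(0, [0], [0, 1]), (0, [0], [2, 3]), (1, [], [2, 3]), (4, [], [0]), (4, [], [1]), (1, [], [4, 5]), (1, [], [4, 5])]),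
  (1, 6, [(0, [0], [0, 1]), (0, [0], [0, 2]), (1, [], [1, 3]), (4, [], [2]), (4, [], [3]), (1, [], [4, 5]), (1, [], [4, 5])]),
  (2, 6, [(0, [0], [0, 1]), (0, [0], [2, 3]), (0, [1], [0, 4]), (0, [1], [4, 5]), (1, [], [2, 3]), (4, [], [1]), (4, [], [5])]),
  (2, 6, [(0, [0], [0, 1]), (0, [0], [0, 1]), (0, [1], [2, 3]), (0, [1], [4, 5]), (1, [], [4, 5]), (4, [], [2]), (4, [], [3])]),
  (1, 6, [(0, [0], [0, 1]), (0, [0], [2, 3]), (1, [], [0, 2]), (4, [], [3]), (4, [], [1]), (1, [], [4, 5]), (1, [], [4, 5])]),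
  (2, 6, [(0, [0], [0, 1]), (0, [0], [0, 1]), (0, [1], [2, 3]), (0, [1], [4, 5]), (1, [], [2, 4]), (4, [], [5]), (4, [], [3])]),
  (2, 6, [(0, [0], [0, 1]), (0, [1], [0, 2]), (0, [1], [1, 3]), (0, [0], [4, 5]), (1, [], [4, 5]), (4, [], [3]), (4, [], [2])]),
  (2, 6, [(0, [0], [0, 1]), (0, [1], [0, 2]), (0, [1], [1, 3]), (0, [0], [4, 5]), (1, [], [2, 4]), (4, [], [3]), (4, [], [5])]),
  (2, 6, [(0, [0], [0, 1]), (0, [0], [2, 3]), (0, [1], [0, 4]), (0, [1], [4, 5]), (1, [], [2, 5]), (4, [], [1]), (4, [], [3])]),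
  (2, 6, [(0, [0], [0, 1]), (0, [1], [2, 3]), (0, [0], [2, 4]), (0, [1], [0, 5]), (1, [], [1, 3]), (4, [], [5]), (4, [], [4])]),
  (2, 6, [(0, [0], [0, 1]), (0, [0], [2, 3]), (0, [1], [2, 4]), (0, [1], [0, 5]), (1, [], [1, 3]), (4, [], [5]), (4, [], [4])]),
  (2, 6, [(0, [0], [0, 1]), (0, [1], [0, 2]), (0, [0], [2, 3]), (0, [1], [1, 4]), (1, [], [3, 5]), (4, [], [4]), (4, [], [5])]),
  (2, 6, [(0, [0], [0, 1]), (0, [0], [2, 3]), (0, [1], [0, 4]), (0, [1], [4, 5]), (1, [], [1, 2]), (4, [], [3]), (4, [], [5])]),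
  (2, 6, [(0, [0], [0, 1]), (0, [0], [2, 3]), (0, [1], [0, 4]), (0, [1], [2, 4]), (1, [], [1, 5]), (4, [], [3]), (4, [], [5])]),
  (1, 5, [(0, [0], [0, 1]), (0, [0], [0, 2]), (1, [], [1, 3]), (1, [], [3, 4]), (4, [], [2]), (4, [], [4])]),
  (3, 7, [(0, [0], [0, 1]), (0, [0], [0, 2]), (0, [1], [1, 2]), (4, [], [3]), (0, [2], [4, 5]), (0, [2], [4, 6]), (0, [1], [5, 6]), (4, [], [3])]),
  (3, 7, [(0, [0], [0, 1]), (0, [0], [0, 2]), (0, [1], [1, 2]), (4, [], [3]), (0, [2], [4, 5]), (0, [2], [4, 6]), (0, [1], [3, 6]), (4, [], [5])]),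
  (3, 7, [(0, [0], [0, 1]), (0, [0], [0, 2]), (0, [1], [1, 2]), (4, [], [3]), (0, [2], [4, 5]), (0, [2], [4, 5]), (0, [1], [3, 6]), (4, [], [6])]),
  (3, 7, [(0, [0], [0, 1]), (0, [0], [0, 2]), (0, [1], [1, 2]), (4, [], [3]), (0, [2], [4, 5]), (0, [2], [3, 6]), (0, [1], [4, 6]), (4, [], [5])]),
  (3, 7, [(0, [0], [0, 1]), (0, [0], [0, 2]), (0, [1], [1, 2]), (4, [], [3]), (0, [2], [4, 5]), (0, [2], [3, 6]), (0, [1], [4, 5]), (4, [], [6])]),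
  (2, 7, [(0, [0], [0, 1]), (0, [0], [0, 2]), (0, [1], [1, 2]), (4, [], [3]), (0, [1], [4, 5]), (1, [], [4, 6]), (1, [], [3, 5]), (4, [], [6])]),
  (2, 7, [(0, [0], [0, 1]), (0, [0], [0, 2]), (0, [1], [1, 2]), (4, [], [3]), (0, [1], [4, 5]), (1, [], [4, 5]), (1, [], [3, 6]), (4, [], [6])]),
  (2, 6, [(0, [0], [0, 1]), (0, [0], [0, 2]), (0, [1], [1, 2]), (4, [], [3]), (0, [1], [4, 5]), (1, [], [4, 5]), (4, [], [3])]),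
  (2, 6, [(0, [0], [0, 1]), (0, [0], [0, 2]), (0, [1], [1, 2]), (4, [], [3]), (0, [1], [4, 5]), (1, [], [3, 4]), (4, [], [5])]),
  (2, 6, [(0, [0], [0, 1]), (0, [0], [0, 2]), (0, [1], [1, 2]), (4, [], [3]), (0, [1], [4, 5]), (3, [], [3, 4, 5])]),
  (3, 7, [(0, [0], [0, 1]), (0, [0], [0, 2]), (0, [1], [3, 2]), (4, [], [1]), (0, [2], [4, 5]), (0, [2], [4, 6]), (0, [1], [3, 6]), (4, [], [5])]),
  (3, 7, [(0, [0], [0, 1]), (0, [0], [0, 2]), (0, [1], [3, 2]), (4, [], [1]), (0, [2], [4, 5]), (0, [2], [4, 5]), (0, [1], [3, 6]), (4, [], [6])]),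
  (3, 7, [(0, [0], [0, 1]), (0, [0], [0, 2]), (0, [1], [3, 2]), (4, [], [1]), (0, [2], [4, 5]), (0, [2], [3, 6]), (0, [1], [4, 6]), (4, [], [5])]),
  (3, 7, [(0, [0], [0, 1]), (0, [0], [0, 2]), (0, [1], [3, 2]), (4, [], [1]), (0, [2], [4, 5]), (0, [2], [3, 4]), (0, [1], [5, 6]), (4, [], [6])]),
  (2, 7, [(0, [0], [0, 1]), (0, [0], [0, 2]), (0, [1], [3, 2]), (4, [], [1]), (0, [1], [4, 5]), (1, [], [4, 6]), (1, [], [3, 5]), (4, [], [6])]),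
  (2, 6, [(0, [0], [0, 1]), (0, [0], [0, 2]), (0, [1], [3, 2]), (4, [], [1]), (0, [1], [4, 5]), (3, [], [3, 4, 5])]),
  (2, 6, [(0, [0], [0, 1]), (0, [0], [0, 2]), (0, [1], [3, 2]), (4, [], [1]), (0, [1], [3, 4]), (1, [], [4, 5]), (4, [], [5])]),
  (3, 7, [(0, [0], [0, 1]), (0, [0], [0, 1]), (0, [1], [2, 3]), (4, [], [3]), (0, [2], [4, 5]), (0, [2], [2, 6]), (0, [1], [4, 6]), (4, [], [5])]),
  (3, 7, [(0, [0], [0, 1]), (0, [0], [0, 1]), (0, [1], [2, 3]), (4, [], [3]), (0, [2], [4, 5]), (0, [2], [2, 4]), (0, [1], [5, 6]), (4, [], [6])]),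
  (2, 7, [(0, [0], [0, 1]), (0, [0], [0, 1]), (0, [1], [2, 3]), (4, [], [3]), (0, [1], [4, 5]), (1, [], [4, 6]), (1, [], [2, 5]), (4, [], [6])]),
  (3, 7, [(0, [0], [0, 1]), (0, [0], [2, 3]), (0, [1], [0, 3]), (4, [], [1]), (0, [2], [4, 5]), (0, [2], [2, 6]), (0, [1], [4, 6]), (4, [], [5])]),
  (3, 7, [(0, [0], [0, 1]), (0, [0], [2, 3]), (0, [1], [0, 3]), (4, [], [1]), (0, [2], [4, 5]), (0, [2], [2, 4]), (0, [1], [5, 6]), (4, [], [6])]),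
  (2, 7, [(0, [0], [0, 1]), (0, [0], [2, 3]), (0, [1], [0, 3]), (4, [], [1]), (0, [1], [4, 5]), (1, [], [4, 6]), (1, [], [2, 5]), (4, [], [6])]),
  (2, 6, [(0, [0], [0, 1]), (0, [0], [2, 3]), (0, [1], [0, 3]), (4, [], [1]), (0, [1], [4, 5]), (3, [], [2, 4, 5])]),
  (3, 7, [(0, [0], [0, 1]), (0, [0], [2, 3]), (0, [1], [0, 1]), (4, [], [3]), (0, [2], [4, 5]), (0, [2], [2, 6]), (0, [1], [4, 5]), (4, [], [6])]),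
  (3, 7, [(0, [0], [0, 1]), (0, [0], [2, 3]), (0, [1], [0, 1]), (4, [], [3]), (0, [2], [4, 5]), (0, [2], [2, 4]), (0, [1], [5, 6]), (4, [], [6])]),
  (2, 7, [(0, [0], [0, 1]), (0, [0], [2, 3]), (0, [1], [0, 1]), (4, [], [3]), (0, [1], [4, 5]), (1, [], [4, 6]), (1, [], [2, 5]), (4, [], [6])]),
  (2, 7, [(0, [0], [0, 1]), (0, [0], [2, 3]), (0, [1], [0, 1]), (4, [], [3]), (0, [1], [4, 5]), (1, [], [4, 5]), (1, [], [2, 6]), (4, [], [6])]),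
  (2, 6, [(0, [0], [0, 1]), (0, [0], [2, 3]), (0, [1], [0, 1]), (4, [], [3]), (0, [1], [4, 5]), (1, [], [4, 5]), (4, [], [2])]),
  (2, 6, [(0, [0], [0, 1]), (0, [0], [2, 3]), (0, [1], [0, 1]), (4, [], [3]), (0, [1], [4, 5]), (1, [], [2, 4]), (4, [], [5])]),
  (2, 6, [(0, [0], [0, 1]), (0, [0], [2, 3]), (0, [1], [0, 1]), (4, [], [3]), (0, [1], [4, 5]), (3, [], [2, 4, 5])]),
  (2, 6, [(0, [0], [0, 1]), (0, [0], [2, 3]), (0, [1], [0, 1]), (4, [], [3]), (0, [1], [2, 4]), (1, [], [4, 5]), (4, [], [5])]),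
  (3, 7, [(0, [0], [0, 1]), (0, [0], [2, 0]), (0, [1], [1, 3]), (4, [], [3]), (0, [2], [4, 5]), (0, [2], [2, 4]), (0, [1], [5, 6]), (4, [], [6])]),
  (2, 7, [(0, [0], [0, 1]), (0, [0], [2, 0]), (0, [1], [1, 3]), (4, [], [3]), (0, [1], [4, 5]), (1, [], [4, 6]), (1, [], [2, 5]), (4, [], [6])]),
  (2, 7, [(0, [0], [0, 1]), (0, [0], [2, 0]), (0, [1], [1, 3]), (4, [], [3]), (0, [1], [4, 5]), (1, [], [4, 5]), (1, [], [2, 6]), (4, [], [6])]),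
  (2, 6, [(0, [0], [0, 1]), (0, [0], [2, 0]), (0, [1], [1, 3]), (4, [], [3]), (0, [1], [4, 5]), (3, [], [2, 4, 5])]),
  (1, 7, [(0, [0], [0, 1]), (1, [], [0, 2]), (1, [], [1, 2]), (4, [], [3]), (0, [0], [4, 5]), (1, [], [4, 6]), (1, [], [5, 6]), (4, [], [3])]),
  (1, 7, [(0, [0], [0, 1]), (1, [], [0, 2]), (1, [], [1, 2]), (4, [], [3]), (0, [0], [4, 5]), (1, [], [4, 6]), (1, [], [3, 6]), (4, [], [5])]),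
  (1, 7, [(0, [0], [0, 1]), (1, [], [0, 2]), (1, [], [1, 2]), (4, [], [3]), (0, [0], [4, 5]), (1, [], [4, 6]), (1, [], [3, 5]), (4, [], [6])]),
  (1, 7, [(0, [0], [0, 1]), (1, [], [0, 2]), (1, [], [1, 2]), (4, [], [3]), (0, [0], [4, 5]), (1, [], [4, 5]), (1, [], [3, 6]), (4, [], [6])]),
  (1, 6, [(0, [0], [0, 1]), (1, [], [0, 2]), (1, [], [1, 2]), (4, [], [3]), (0, [0], [4, 5]), (1, [], [4, 5]), (4, [], [3])]),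
  (1, 6, [(0, [0], [0, 1]), (1, [], [0, 2]), (1, [], [1, 2]), (4, [], [3]), (0, [0], [4, 5]), (1, [], [3, 4]), (4, [], [5])]),
  (1, 7, [(0, [0], [0, 1]), (1, [], [0, 2]), (1, [], [1, 2]), (4, [], [3]), (0, [0], [3, 4]), (1, [], [5, 6]), (1, [], [5, 6]), (4, [], [4])]),
  (1, 6, [(0, [0], [0, 1]), (1, [], [0, 2]), (1, [], [1, 2]), (4, [], [3]), (1, [], [4, 5]), (2, [0], [3, 4, 5])]),
  (1, 7, [(0, [0], [0, 1]), (1, [], [0, 2]), (1, [], [3, 2]), (4, [], [1]), (0, [0], [4, 5]), (1, [], [4, 6]), (1, [], [3, 6]), (4, [], [5])]),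
  (1, 7, [(0, [0], [0, 1]), (1, [], [0, 2]), (1, [], [3, 2]), (4, [], [1]), (0, [0], [4, 5]), (1, [], [4, 6]), (1, [], [3, 5]), (4, [], [6])]),
  (1, 7, [(0, [0], [0, 1]), (1, [], [0, 2]), (1, [], [3, 2]), (4, [], [1]), (0, [0], [4, 5]), (1, [], [4, 5]), (1, [], [3, 6]), (4, [], [6])]),
  (1, 6, [(0, [0], [0, 1]), (1, [], [0, 2]), (1, [], [3, 2]), (4, [], [1]), (0, [0], [4, 5]), (1, [], [3, 4]), (4, [], [5])]),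
  (1, 7, [(0, [0], [0, 1]), (1, [], [0, 2]), (1, [], [3, 2]), (4, [], [1]), (0, [0], [3, 4]), (1, [], [5, 6]), (1, [], [5, 6]), (4, [], [4])]),
  (1, 7, [(0, [0], [0, 1]), (1, [], [0, 2]), (1, [], [3, 2]), (4, [], [1]), (0, [0], [3, 4]), (1, [], [5, 6]), (1, [], [4, 5]), (4, [], [6])]),
  (1, 6, [(0, [0], [0, 1]), (1, [], [0, 2]), (1, [], [3, 2]), (4, [], [1]), (0, [0], [3, 4]), (1, [], [4, 5]), (4, [], [5])]),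
  (1, 5, [(0, [0], [0, 1]), (1, [], [0, 2]), (1, [], [3, 2]), (4, [], [1]), (0, [0], [3, 4]), (4, [], [4])]),
  (1, 6, [(0, [0], [0, 1]), (1, [], [0, 2]), (1, [], [3, 2]), (4, [], [1]), (1, [], [4, 5]), (2, [0], [3, 4, 5])]),
  (1, 7, [(0, [0], [0, 1]), (1, [], [0, 2]), (1, [], [3, 1]), (4, [], [2]), (0, [0], [4, 5]), (1, [], [4, 6]), (1, [], [3, 5]), (4, [], [6])]),
  (1, 7, [(0, [0], [0, 1]), (1, [], [0, 2]), (1, [], [3, 1]), (4, [], [2]), (0, [0], [4, 5]), (1, [], [4, 5]), (1, [], [3, 6]), (4, [], [6])]),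
  (1, 6, [(0, [0], [0, 1]), (1, [], [0, 2]), (1, [], [3, 1]), (4, [], [2]), (0, [0], [4, 5]), (1, [], [4, 5]), (4, [], [3])]),
  (1, 6, [(0, [0], [0, 1]), (1, [], [0, 2]), (1, [], [3, 1]), (4, [], [2]), (0, [0], [4, 5]), (3, [], [3, 4, 5])]),
  (1, 7, [(0, [0], [0, 1]), (1, [], [0, 2]), (1, [], [3, 1]), (4, [], [2]), (0, [0], [3, 4]), (1, [], [5, 6]), (1, [], [5, 6]), (4, [], [4])]),
  (1, 7, [(0, [0], [0, 1]), (1, [], [0, 2]), (1, [], [3, 1]), (4, [], [2]), (0, [0], [3, 4]), (1, [], [5, 6]), (1, [], [4, 5]), (4, [], [6])]),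
  (1, 6, [(0, [0], [0, 1]), (1, [], [0, 2]), (1, [], [3, 1]), (4, [], [2]), (0, [0], [3, 4]), (1, [], [4, 5]), (4, [], [5])]),
  (1, 6, [(0, [0], [0, 1]), (1, [], [0, 2]), (1, [], [3, 1]), (4, [], [2]), (1, [], [4, 5]), (2, [0], [3, 4, 5])]),
  (1, 7, [(0, [0], [0, 1]), (1, [], [0, 1]), (1, [], [2, 3]), (4, [], [3]), (0, [0], [4, 5]), (1, [], [4, 5]), (1, [], [2, 6]), (4, [], [6])]),
  (1, 6, [(0, [0], [0, 1]), (1, [], [0, 1]), (1, [], [2, 3]), (4, [], [3]), (0, [0], [4, 5]), (1, [], [4, 5]), (4, [], [2])]),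
  (1, 6, [(0, [0], [0, 1]), (1, [], [0, 1]), (1, [], [2, 3]), (4, [], [3]), (0, [0], [4, 5]), (3, [], [2, 4, 5])]),
  (1, 6, [(0, [0], [0, 1]), (1, [], [0, 1]), (1, [], [2, 3]), (4, [], [3]), (1, [], [4, 5]), (2, [0], [2, 4, 5])]),
  (1, 5, [(0, [0], [0, 1]), (1, [], [0, 1]), (4, [], [2]), (0, [0], [3, 4]), (1, [], [3, 4]), (4, [], [2])]),
  (1, 5, [(0, [0], [0, 1]), (1, [], [0, 1]), (4, [], [2]), (0, [0], [3, 4]), (3, [], [2, 3, 4])]),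
  (1, 5, [(0, [0], [0, 1]), (1, [], [0, 1]), (4, [], [2]), (1, [], [3, 4]), (2, [0], [2, 3, 4])]),
  (1, 5, [(0, [0], [0, 1]), (1, [], [2, 0]), (4, [], [1]), (0, [0], [3, 4]), (3, [], [2, 3, 4])]),
  (1, 6, [(0, [0], [0, 1]), (1, [], [2, 0]), (4, [], [1]), (0, [0], [2, 3]), (1, [], [4, 5]), (1, [], [3, 4]), (4, [], [5])]),
  (1, 5, [(0, [0], [0, 1]), (3, [], [2, 0, 1]), (0, [0], [3, 4]), (3, [], [2, 3, 4])]),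
  (1, 7, [(0, [0], [0, 1]), (1, [], [2, 3]), (1, [], [2, 3]), (4, [], [1]), (0, [0], [0, 4]), (1, [], [5, 6]), (1, [], [4, 5]), (4, [], [6])]),
  (1, 7, [(0, [0], [0, 1]), (1, [], [2, 3]), (1, [], [1, 2]), (4, [], [3]), (0, [0], [0, 4]), (1, [], [5, 6]), (1, [], [4, 5]), (4, [], [6])]),
  (1, 6, [(0, [0], [0, 1]), (1, [], [2, 3]), (1, [], [1, 2]), (4, [], [3]), (0, [0], [0, 4]), (1, [], [4, 5]), (4, [], [5])]),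
  (1, 6, [(0, [0], [0, 1]), (1, [], [2, 3]), (1, [], [1, 2]), (4, [], [3]), (1, [], [4, 5]), (2, [0], [0, 4, 5])]),
  (1, 5, [(0, [0], [0, 1]), (1, [], [1, 2]), (4, [], [2]), (0, [0], [0, 3]), (1, [], [3, 4]), (4, [], [4])]),
  (1, 5, [(0, [0], [0, 1]), (1, [], [1, 2]), (4, [], [2]), (1, [], [3, 4]), (2, [0], [0, 3, 4])]),
  (1, 5, [(1, [], [0, 1]), (2, [0], [2, 0, 1]), (1, [], [3, 4]), (2, [0], [2, 3, 4])]),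
  (3, 7, [(0, [0], [0, 1]), (0, [0], [0, 1]), (0, [1], [2, 3]), (4, [], [4]), (0, [2], [5, 6]), (0, [2], [2, 5]), (0, [1], [3, 6]), (4, [], [4])]),
  (2, 7, [(0, [0], [0, 1]), (0, [0], [0, 1]), (0, [1], [2, 3]), (4, [], [4]), (0, [1], [2, 5]), (1, [], [5, 6]), (1, [], [3, 4]), (4, [], [6])]),
  (2, 7, [(0, [0], [0, 1]), (0, [0], [0, 1]), (0, [1], [2, 3]), (4, [], [4]), (0, [1], [2, 5]), (1, [], [4, 6]), (1, [], [3, 5]), (4, [], [6])]),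
  (2, 6, [(0, [0], [0, 1]), (0, [0], [0, 1]), (0, [1], [2, 3]), (4, [], [4]), (0, [1], [2, 5]), (1, [], [3, 5]), (4, [], [4])]),
  (2, 6, [(0, [0], [0, 1]), (0, [0], [0, 1]), (0, [1], [2, 3]), (4, [], [4]), (0, [1], [2, 5]), (3, [], [3, 4, 5])]),
  (3, 7, [(0, [0], [0, 1]), (0, [0], [2, 0]), (0, [1], [3, 1]), (4, [], [4]), (0, [2], [5, 6]), (0, [2], [2, 5]), (0, [1], [3, 6]), (4, [], [4])]),
  (3, 7, [(0, [0], [0, 1]), (0, [0], [2, 0]), (0, [1], [3, 1]), (4, [], [4]), (0, [2], [5, 6]), (0, [2], [3, 5]), (0, [1], [2, 6]), (4, [], [4])]),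
  (3, 7, [(0, [0], [0, 1]), (0, [0], [2, 0]), (0, [1], [3, 1]), (4, [], [4]), (0, [2], [5, 6]), (0, [2], [4, 5]), (0, [1], [2, 3]), (4, [], [6])]),
  (3, 7, [(0, [0], [0, 1]), (0, [0], [2, 0]), (0, [1], [3, 1]), (4, [], [4]), (0, [2], [5, 6]), (0, [2], [2, 3]), (0, [1], [5, 6]), (4, [], [4])]),
  (3, 7, [(0, [0], [0, 1]), (0, [0], [2, 0]), (0, [1], [3, 1]), (4, [], [4]), (0, [2], [5, 6]), (0, [2], [2, 3]), (0, [1], [4, 5]), (4, [], [6])]),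
  (3, 7, [(0, [0], [0, 1]), (0, [0], [2, 0]), (0, [1], [3, 1]), (4, [], [4]), (0, [2], [5, 6]), (0, [2], [3, 4]), (0, [1], [2, 5]), (4, [], [6])]),
  (3, 7, [(0, [0], [0, 1]), (0, [0], [2, 0]), (0, [1], [3, 1]), (4, [], [4]), (0, [2], [2, 5]), (0, [2], [3, 6]), (0, [1], [5, 6]), (4, [], [4])]),
  (3, 7, [(0, [0], [0, 1]), (0, [0], [2, 0]), (0, [1], [3, 1]), (4, [], [4]), (0, [2], [3, 5]), (0, [2], [2, 6]), (0, [1], [4, 6]), (4, [], [5])]),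
  (3, 7, [(0, [0], [0, 1]), (0, [0], [2, 0]), (0, [1], [3, 1]), (4, [], [4]), (0, [2], [4, 5]), (0, [2], [2, 6]), (0, [1], [3, 6]), (4, [], [5])]),
  (3, 7, [(0, [0], [0, 1]), (0, [0], [2, 0]), (0, [1], [3, 1]), (4, [], [4]), (0, [2], [4, 5]), (0, [2], [3, 6]), (0, [1], [2, 6]), (4, [], [5])]),
  (2, 7, [(0, [0], [0, 1]), (0, [0], [2, 0]), (0, [1], [3, 1]), (4, [], [4]), (0, [1], [5, 6]), (1, [], [5, 6]), (1, [], [2, 3]), (4, [], [4])]),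
  (2, 7, [(0, [0], [0, 1]), (0, [0], [2, 0]), (0, [1], [3, 1]), (4, [], [4]), (0, [1], [5, 6]), (1, [], [2, 5]), (1, [], [3, 6]), (4, [], [4])]),
  (2, 7, [(0, [0], [0, 1]), (0, [0], [2, 0]), (0, [1], [3, 1]), (4, [], [4]), (0, [1], [5, 6]), (1, [], [2, 5]), (1, [], [3, 4]), (4, [], [6])]),
  (2, 7, [(0, [0], [0, 1]), (0, [0], [2, 0]), (0, [1], [3, 1]), (4, [], [4]), (0, [1], [5, 6]), (1, [], [3, 5]), (1, [], [2, 4]), (4, [], [6])]),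
  (2, 7, [(0, [0], [0, 1]), (0, [0], [2, 0]), (0, [1], [3, 1]), (4, [], [4]), (0, [1], [5, 6]), (1, [], [4, 5]), (1, [], [2, 3]), (4, [], [6])]),
  (2, 7, [(0, [0], [0, 1]), (0, [0], [2, 0]), (0, [1], [3, 1]), (4, [], [4]), (0, [1], [2, 5]), (1, [], [5, 6]), (1, [], [3, 4]), (4, [], [6])]),
  (2, 7, [(0, [0], [0, 1]), (0, [0], [2, 0]), (0, [1], [3, 1]), (4, [], [4]), (0, [1], [3, 5]), (1, [], [5, 6]), (1, [], [2, 4]), (4, [], [6])]),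
  (2, 7, [(0, [0], [0, 1]), (0, [0], [2, 0]), (0, [1], [3, 1]), (4, [], [4]), (0, [1], [2, 5]), (1, [], [4, 6]), (1, [], [3, 5]), (4, [], [6])]),
  (2, 7, [(0, [0], [0, 1]), (0, [0], [2, 0]), (0, [1], [3, 1]), (4, [], [4]), (0, [1], [3, 5]), (1, [], [4, 6]), (1, [], [2, 5]), (4, [], [6])]),
  (2, 6, [(0, [0], [0, 1]), (0, [0], [2, 0]), (0, [1], [3, 1]), (4, [], [4]), (0, [1], [2, 5]), (1, [], [3, 5]), (4, [], [4])]),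
  (2, 6, [(0, [0], [0, 1]), (0, [0], [2, 0]), (0, [1], [3, 1]), (4, [], [4]), (0, [1], [3, 5]), (1, [], [2, 5]), (4, [], [4])]),
  (2, 6, [(0, [0], [0, 1]), (0, [0], [2, 0]), (0, [1], [3, 1]), (4, [], [4]), (0, [1], [4, 5]), (1, [], [2, 3]), (4, [], [5])]),
  (2, 6, [(0, [0], [0, 1]), (0, [0], [2, 0]), (0, [1], [3, 1]), (4, [], [4]), (0, [1], [2, 5]), (3, [], [3, 4, 5])]),
  (2, 6, [(0, [0], [0, 1]), (0, [0], [2, 0]), (0, [1], [3, 1]), (4, [], [4]), (0, [1], [3, 5]), (3, [], [2, 4, 5])]),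
  (2, 6, [(0, [0], [0, 1]), (0, [0], [2, 0]), (0, [1], [3, 1]), (4, [], [4]), (0, [1], [4, 5]), (3, [], [2, 3, 5])]),
  (3, 7, [(0, [0], [0, 1]), (0, [0], [2, 0]), (0, [1], [3, 4]), (4, [], [1]), (0, [2], [5, 6]), (0, [2], [3, 4]), (0, [1], [5, 6]), (4, [], [2])]),
  (3, 7, [(0, [0], [0, 1]), (0, [0], [2, 0]), (0, [1], [3, 4]), (4, [], [1]), (0, [2], [3, 5]), (0, [2], [4, 6]), (0, [1], [5, 6]), (4, [], [2])]),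
  (2, 7, [(0, [0], [0, 1]), (0, [0], [2, 0]), (0, [1], [3, 4]), (4, [], [1]), (0, [1], [5, 6]), (1, [], [5, 6]), (1, [], [3, 4]), (4, [], [2])]),
  (2, 7, [(0, [0], [0, 1]), (0, [0], [2, 0]), (0, [1], [3, 4]), (4, [], [1]), (0, [1], [5, 6]), (1, [], [2, 5]), (1, [], [3, 6]), (4, [], [4])]),
  (2, 7, [(0, [0], [0, 1]), (0, [0], [2, 0]), (0, [1], [3, 4]), (4, [], [1]), (0, [1], [5, 6]), (1, [], [3, 5]), (1, [], [4, 6]), (4, [], [2])]),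
  (2, 7, [(0, [0], [0, 1]), (0, [0], [2, 0]), (0, [1], [3, 4]), (4, [], [1]), (0, [1], [3, 5]), (1, [], [5, 6]), (1, [], [2, 4]), (4, [], [6])]),
  (2, 7, [(0, [0], [0, 1]), (0, [0], [2, 0]), (0, [1], [3, 4]), (4, [], [1]), (0, [1], [3, 5]), (1, [], [2, 6]), (1, [], [4, 5]), (4, [], [6])]),
  (2, 6, [(0, [0], [0, 1]), (0, [0], [2, 0]), (0, [1], [3, 4]), (4, [], [1]), (0, [1], [3, 5]), (1, [], [2, 5]), (4, [], [4])]),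
  (2, 6, [(0, [0], [0, 1]), (0, [0], [2, 0]), (0, [1], [3, 4]), (4, [], [1]), (0, [1], [3, 5]), (1, [], [4, 5]), (4, [], [2])]),
  (2, 6, [(0, [0], [0, 1]), (0, [0], [2, 0]), (0, [1], [3, 4]), (4, [], [1]), (0, [1], [3, 5]), (3, [], [2, 4, 5])]),
  (3, 7, [(0, [0], [0, 1]), (0, [0], [2, 3]), (0, [1], [0, 1]), (4, [], [4]), (0, [2], [5, 6]), (0, [2], [2, 4]), (0, [1], [3, 5]), (4, [], [6])]),
  (3, 7, [(0, [0], [0, 1]), (0, [0], [2, 3]), (0, [1], [0, 1]), (4, [], [4]), (0, [2], [2, 5]), (0, [2], [3, 6]), (0, [1], [5, 6]), (4, [], [4])]),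
  (3, 7, [(0, [0], [0, 1]), (0, [0], [2, 3]), (0, [1], [0, 1]), (4, [], [4]), (0, [2], [4, 5]), (0, [2], [2, 6]), (0, [1], [3, 6]), (4, [], [5])]),
  (2, 7, [(0, [0], [0, 1]), (0, [0], [2, 3]), (0, [1], [0, 1]), (4, [], [4]), (0, [1], [2, 5]), (1, [], [5, 6]), (1, [], [3, 4]), (4, [], [6])]),
  (2, 7, [(0, [0], [0, 1]), (0, [0], [2, 3]), (0, [1], [0, 1]), (4, [], [4]), (0, [1], [2, 5]), (1, [], [4, 6]), (1, [], [3, 5]), (4, [], [6])]),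
  (2, 6, [(0, [0], [0, 1]), (0, [0], [2, 3]), (0, [1], [0, 1]), (4, [], [4]), (0, [1], [2, 5]), (1, [], [3, 5]), (4, [], [4])]),
  (2, 6, [(0, [0], [0, 1]), (0, [0], [2, 3]), (0, [1], [0, 1]), (4, [], [4]), (0, [1], [2, 5]), (3, [], [3, 4, 5])]),
  (3, 7, [(0, [0], [0, 1]), (0, [0], [2, 3]), (0, [1], [4, 0]), (4, [], [1]), (0, [2], [5, 6]), (0, [2], [2, 4]), (0, [1], [3, 5]), (4, [], [6])]),
  (3, 7, [(0, [0], [0, 1]), (0, [0], [2, 3]), (0, [1], [4, 0]), (4, [], [1]), (0, [2], [2, 5]), (0, [2], [3, 6]), (0, [1], [5, 6]), (4, [], [4])]),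
  (3, 7, [(0, [0], [0, 1]), (0, [0], [2, 3]), (0, [1], [4, 0]), (4, [], [1]), (0, [2], [2, 5]), (0, [2], [4, 6]), (0, [1], [5, 6]), (4, [], [3])]),
  (3, 7, [(0, [0], [0, 1]), (0, [0], [2, 3]), (0, [1], [4, 0]), (4, [], [1]), (0, [2], [2, 5]), (0, [2], [4, 6]), (0, [1], [3, 6]), (4, [], [5])]),
  (3, 7, [(0, [0], [0, 1]), (0, [0], [2, 3]), (0, [1], [4, 0]), (4, [], [1]), (0, [2], [4, 5]), (0, [2], [2, 6]), (0, [1], [3, 6]), (4, [], [5])]),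
  (2, 7, [(0, [0], [0, 1]), (0, [0], [2, 3]), (0, [1], [4, 0]), (4, [], [1]), (0, [1], [5, 6]), (1, [], [5, 6]), (1, [], [2, 4]), (4, [], [3])]),
  (2, 7, [(0, [0], [0, 1]), (0, [0], [2, 3]), (0, [1], [4, 0]), (4, [], [1]), (0, [1], [5, 6]), (1, [], [2, 5]), (1, [], [3, 6]), (4, [], [4])]),
  (2, 7, [(0, [0], [0, 1]), (0, [0], [2, 3]), (0, [1], [4, 0]), (4, [], [1]), (0, [1], [5, 6]), (1, [], [2, 5]), (1, [], [4, 6]), (4, [], [3])]),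
  (2, 7, [(0, [0], [0, 1]), (0, [0], [2, 3]), (0, [1], [4, 0]), (4, [], [1]), (0, [1], [5, 6]), (1, [], [2, 5]), (1, [], [3, 4]), (4, [], [6])]),
  (2, 7, [(0, [0], [0, 1]), (0, [0], [2, 3]), (0, [1], [4, 0]), (4, [], [1]), (0, [1], [2, 5]), (1, [], [5, 6]), (1, [], [3, 4]), (4, [], [6])]),
  (2, 7, [(0, [0], [0, 1]), (0, [0], [2, 3]), (0, [1], [4, 0]), (4, [], [1]), (0, [1], [2, 5]), (1, [], [3, 6]), (1, [], [4, 5]), (4, [], [6])]),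
  (2, 7, [(0, [0], [0, 1]), (0, [0], [2, 3]), (0, [1], [4, 0]), (4, [], [1]), (0, [1], [2, 5]), (1, [], [4, 6]), (1, [], [3, 5]), (4, [], [6])]),
  (2, 6, [(0, [0], [0, 1]), (0, [0], [2, 3]), (0, [1], [4, 0]), (4, [], [1]), (0, [1], [2, 5]), (1, [], [3, 5]), (4, [], [4])]),
  (2, 6, [(0, [0], [0, 1]), (0, [0], [2, 3]), (0, [1], [4, 0]), (4, [], [1]), (0, [1], [2, 5]), (3, [], [3, 4, 5])]),
  (3, 7, [(0, [0], [0, 1]), (0, [0], [2, 3]), (0, [1], [1, 3]), (4, [], [4]), (0, [2], [0, 5]), (0, [2], [2, 6]), (0, [1], [5, 6]), (4, [], [4])]),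
  (3, 7, [(0, [0], [0, 1]), (0, [0], [2, 3]), (0, [1], [1, 3]), (4, [], [4]), (0, [2], [4, 5]), (0, [2], [0, 6]), (0, [1], [2, 6]), (4, [], [5])]),
  (2, 7, [(0, [0], [0, 1]), (0, [0], [2, 3]), (0, [1], [1, 3]), (4, [], [4]), (0, [1], [5, 6]), (1, [], [5, 6]), (1, [], [0, 2]), (4, [], [4])]),
  (2, 7, [(0, [0], [0, 1]), (0, [0], [2, 3]), (0, [1], [1, 3]), (4, [], [4]), (0, [1], [5, 6]), (1, [], [0, 5]), (1, [], [2, 6]), (4, [], [4])]),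
  (2, 7, [(0, [0], [0, 1]), (0, [0], [2, 3]), (0, [1], [1, 3]), (4, [], [4]), (0, [1], [5, 6]), (1, [], [0, 5]), (1, [], [2, 4]), (4, [], [6])]),
  (2, 7, [(0, [0], [0, 1]), (0, [0], [2, 3]), (0, [1], [1, 3]), (4, [], [4]), (0, [1], [5, 6]), (1, [], [4, 5]), (1, [], [0, 2]), (4, [], [6])]),
  (2, 7, [(0, [0], [0, 1]), (0, [0], [2, 3]), (0, [1], [1, 3]), (4, [], [4]), (0, [1], [0, 5]), (1, [], [5, 6]), (1, [], [2, 4]), (4, [], [6])]),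
  (2, 7, [(0, [0], [0, 1]), (0, [0], [2, 3]), (0, [1], [1, 3]), (4, [], [4]), (0, [1], [0, 5]), (1, [], [4, 6]), (1, [], [2, 5]), (4, [], [6])]),
  (2, 6, [(0, [0], [0, 1]), (0, [0], [2, 3]), (0, [1], [1, 3]), (4, [], [4]), (0, [1], [0, 5]), (1, [], [2, 5]), (4, [], [4])]),
  (2, 6, [(0, [0], [0, 1]), (0, [0], [2, 3]), (0, [1], [1, 3]), (4, [], [4]), (0, [1], [4, 5]), (1, [], [0, 2]), (4, [], [5])]),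
  (2, 6, [(0, [0], [0, 1]), (0, [0], [2, 3]), (0, [1], [1, 3]), (4, [], [4]), (0, [1], [0, 5]), (3, [], [2, 4, 5])]),
  (2, 6, [(0, [0], [0, 1]), (0, [0], [2, 3]), (0, [1], [1, 3]), (4, [], [4]), (0, [1], [4, 5]), (3, [], [0, 2, 5])]),
  (2, 7, [(0, [0], [0, 1]), (0, [0], [2, 3]), (0, [1], [4, 3]), (4, [], [1]), (0, [1], [5, 6]), (1, [], [5, 6]), (1, [], [2, 4]), (4, [], [0])]),
  (2, 7, [(0, [0], [0, 1]), (0, [0], [2, 3]), (0, [1], [4, 3]), (4, [], [1]), (0, [1], [5, 6]), (1, [], [2, 5]), (1, [], [4, 6]), (4, [], [0])]),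
  (2, 7, [(0, [0], [0, 1]), (0, [0], [2, 3]), (0, [1], [4, 3]), (4, [], [1]), (0, [1], [5, 6]), (1, [], [0, 5]), (1, [], [2, 4]), (4, [], [6])]),
  (2, 7, [(0, [0], [0, 1]), (0, [0], [2, 3]), (0, [1], [4, 3]), (4, [], [1]), (0, [1], [5, 6]), (1, [], [2, 5]), (1, [], [0, 4]), (4, [], [6])]),
  (2, 7, [(0, [0], [0, 1]), (0, [0], [2, 3]), (0, [1], [4, 3]), (4, [], [1]), (0, [1], [5, 6]), (1, [], [4, 5]), (1, [], [0, 2]), (4, [], [6])]),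
  (2, 7, [(0, [0], [0, 1]), (0, [0], [2, 1]), (0, [1], [3, 4]), (4, [], [4]), (0, [1], [5, 6]), (1, [], [5, 6]), (1, [], [0, 2]), (4, [], [3])]),
  (2, 7, [(0, [0], [0, 1]), (0, [0], [2, 1]), (0, [1], [3, 4]), (4, [], [4]), (0, [1], [5, 6]), (1, [], [0, 5]), (1, [], [2, 6]), (4, [], [3])]),
  (2, 7, [(0, [0], [0, 1]), (0, [0], [2, 1]), (0, [1], [3, 4]), (4, [], [4]), (0, [1], [5, 6]), (1, [], [0, 5]), (1, [], [2, 3]), (4, [], [6])]),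
  (2, 7, [(0, [0], [0, 1]), (0, [0], [2, 1]), (0, [1], [3, 4]), (4, [], [4]), (0, [1], [5, 6]), (1, [], [3, 5]), (1, [], [0, 2]), (4, [], [6])]),
  (1, 6, [(0, [0], [0, 1]), (1, [], [0, 1]), (1, [], [2, 3]), (4, [], [4]), (0, [0], [2, 5]), (3, [], [3, 4, 5])]),
  (1, 7, [(0, [0], [0, 1]), (1, [], [2, 0]), (1, [], [3, 1]), (4, [], [4]), (0, [0], [5, 6]), (1, [], [2, 5]), (1, [], [3, 6]), (4, [], [4])]),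
  (1, 7, [(0, [0], [0, 1]), (1, [], [2, 0]), (1, [], [3, 1]), (4, [], [4]), (0, [0], [5, 6]), (1, [], [4, 5]), (1, [], [2, 3]), (4, [], [6])]),
  (1, 7, [(0, [0], [0, 1]), (1, [], [2, 0]), (1, [], [3, 1]), (4, [], [4]), (0, [0], [2, 5]), (1, [], [5, 6]), (1, [], [3, 6]), (4, [], [4])]),
  (1, 7, [(0, [0], [0, 1]), (1, [], [2, 0]), (1, [], [3, 1]), (4, [], [4]), (0, [0], [2, 5]), (1, [], [3, 6]), (1, [], [4, 6]), (4, [], [5])]),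
  (1, 7, [(0, [0], [0, 1]), (1, [], [2, 0]), (1, [], [3, 1]), (4, [], [4]), (0, [0], [4, 5]), (1, [], [2, 6]), (1, [], [3, 6]), (4, [], [5])]),
  (1, 7, [(0, [0], [0, 1]), (1, [], [2, 0]), (1, [], [3, 1]), (4, [], [4]), (0, [0], [2, 5]), (1, [], [4, 6]), (1, [], [3, 5]), (4, [], [6])]),
  (1, 6, [(0, [0], [0, 1]), (1, [], [2, 0]), (1, [], [3, 1]), (4, [], [4]), (0, [0], [2, 5]), (1, [], [3, 5]), (4, [], [4])]),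
  (1, 6, [(0, [0], [0, 1]), (1, [], [2, 0]), (1, [], [3, 1]), (4, [], [4]), (0, [0], [4, 5]), (1, [], [2, 3]), (4, [], [5])]),
  (1, 6, [(0, [0], [0, 1]), (1, [], [2, 0]), (1, [], [3, 1]), (4, [], [4]), (0, [0], [2, 5]), (3, [], [3, 4, 5])]),
  (1, 6, [(0, [0], [0, 1]), (1, [], [2, 0]), (1, [], [3, 1]), (4, [], [4]), (0, [0], [4, 5]), (3, [], [2, 3, 5])]),
  (1, 7, [(0, [0], [0, 1]), (1, [], [2, 0]), (1, [], [3, 1]), (4, [], [4]), (0, [0], [2, 3]), (1, [], [5, 6]), (1, [], [5, 6]), (4, [], [4])]),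
  (1, 7, [(0, [0], [0, 1]), (1, [], [2, 0]), (1, [], [3, 1]), (4, [], [4]), (0, [0], [2, 3]), (1, [], [5, 6]), (1, [], [4, 5]), (4, [], [6])]),
  (1, 6, [(0, [0], [0, 1]), (1, [], [2, 0]), (1, [], [3, 1]), (4, [], [4]), (1, [], [2, 5]), (2, [0], [3, 4, 5])]),
  (1, 6, [(0, [0], [0, 1]), (1, [], [2, 0]), (1, [], [3, 4]), (4, [], [1]), (0, [0], [2, 5]), (3, [], [3, 4, 5])]),
  (1, 6, [(0, [0], [0, 1]), (1, [], [2, 0]), (1, [], [3, 4]), (4, [], [1]), (0, [0], [3, 5]), (3, [], [2, 4, 5])]),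
  (1, 7, [(0, [0], [0, 1]), (1, [], [1, 2]), (1, [], [3, 2]), (4, [], [4]), (0, [0], [0, 5]), (1, [], [5, 6]), (1, [], [3, 6]), (4, [], [4])]),
  (1, 7, [(0, [0], [0, 1]), (1, [], [1, 2]), (1, [], [3, 2]), (4, [], [4]), (0, [0], [0, 5]), (1, [], [5, 6]), (1, [], [3, 4]), (4, [], [6])]),
  (1, 7, [(0, [0], [0, 1]), (1, [], [1, 2]), (1, [], [3, 2]), (4, [], [4]), (0, [0], [0, 5]), (1, [], [3, 6]), (1, [], [4, 6]), (4, [], [5])]),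
  (1, 7, [(0, [0], [0, 1]), (1, [], [1, 2]), (1, [], [3, 2]), (4, [], [4]), (0, [0], [0, 5]), (1, [], [4, 6]), (1, [], [3, 5]), (4, [], [6])]),
  (1, 6, [(0, [0], [0, 1]), (1, [], [1, 2]), (1, [], [3, 2]), (4, [], [4]), (0, [0], [0, 5]), (1, [], [3, 5]), (4, [], [4])]),
  (1, 6, [(0, [0], [0, 1]), (1, [], [1, 2]), (1, [], [3, 2]), (4, [], [4]), (0, [0], [0, 5]), (1, [], [3, 4]), (4, [], [5])]),
  (1, 7, [(0, [0], [0, 1]), (1, [], [1, 2]), (1, [], [3, 2]), (4, [], [4]), (0, [0], [0, 3]), (1, [], [5, 6]), (1, [], [5, 6]), (4, [], [4])]),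
  (1, 7, [(0, [0], [0, 1]), (1, [], [1, 2]), (1, [], [3, 2]), (4, [], [4]), (0, [0], [0, 3]), (1, [], [5, 6]), (1, [], [4, 5]), (4, [], [6])]),
  (1, 6, [(0, [0], [0, 1]), (1, [], [1, 2]), (1, [], [3, 2]), (4, [], [4]), (0, [0], [0, 3]), (1, [], [4, 5]), (4, [], [5])]),
  (1, 5, [(0, [0], [0, 1]), (1, [], [1, 2]), (1, [], [3, 2]), (4, [], [4]), (0, [0], [0, 3]), (4, [], [4])]),
  (1, 6, [(0, [0], [0, 1]), (1, [], [1, 2]), (1, [], [3, 2]), (4, [], [4]), (1, [], [3, 5]), (2, [0], [0, 4, 5])]),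
  (1, 6, [(0, [0], [0, 1]), (1, [], [1, 2]), (1, [], [3, 2]), (4, [], [4]), (1, [], [4, 5]), (2, [0], [0, 3, 5])]),
  (1, 5, [(0, [0], [0, 1]), (1, [], [1, 2]), (1, [], [3, 2]), (4, [], [4]), (2, [0], [0, 3, 4])]),
  (1, 7, [(0, [0], [0, 1]), (1, [], [1, 2]), (1, [], [3, 4]), (4, [], [2]), (0, [0], [0, 5]), (1, [], [5, 6]), (1, [], [3, 4]), (4, [], [6])]),
  (1, 6, [(0, [0], [0, 1]), (1, [], [1, 2]), (1, [], [3, 4]), (4, [], [2]), (0, [0], [0, 5]), (3, [], [3, 4, 5])]),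
  (1, 7, [(0, [0], [0, 1]), (1, [], [2, 3]), (1, [], [4, 3]), (4, [], [1]), (0, [0], [0, 5]), (1, [], [2, 6]), (1, [], [4, 6]), (4, [], [5])]),
  (1, 6, [(0, [0], [0, 1]), (1, [], [2, 3]), (1, [], [4, 3]), (4, [], [1]), (1, [], [2, 5]), (2, [0], [0, 4, 5])]),
  (1, 6, [(0, [0], [0, 1]), (1, [], [2, 3]), (1, [], [4, 1]), (4, [], [3]), (0, [0], [0, 5]), (3, [], [2, 4, 5])]),
  (1, 7, [(0, [0], [0, 1]), (1, [], [2, 3]), (1, [], [4, 1]), (4, [], [3]), (0, [0], [0, 4]), (1, [], [5, 6]), (1, [], [5, 6]), (4, [], [2])]),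
  (1, 7, [(0, [0], [0, 1]), (1, [], [2, 3]), (1, [], [4, 1]), (4, [], [3]), (0, [0], [0, 4]), (1, [], [5, 6]), (1, [], [2, 5]), (4, [], [6])]),
  (1, 6, [(0, [0], [0, 1]), (1, [], [2, 3]), (1, [], [4, 1]), (4, [], [3]), (0, [0], [0, 4]), (1, [], [2, 5]), (4, [], [5])]),
  (1, 6, [(0, [0], [0, 1]), (1, [], [2, 3]), (1, [], [4, 1]), (4, [], [3]), (1, [], [2, 5]), (2, [0], [0, 4, 5])]),
  (1, 5, [(0, [0], [0, 1]), (1, [], [2, 1]), (4, [], [3]), (0, [0], [0, 4]), (3, [], [2, 3, 4])]),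
  (1, 6, [(0, [0], [0, 1]), (1, [], [2, 1]), (4, [], [3]), (0, [0], [0, 2]), (1, [], [4, 5]), (1, [], [4, 5]), (4, [], [3])]),
  (1, 5, [(0, [0], [0, 1]), (3, [], [2, 3, 1]), (0, [0], [0, 4]), (3, [], [2, 3, 4])]),
  (1, 6, [(0, [0], [0, 1]), (1, [], [2, 3]), (1, [], [2, 3]), (4, [], [4]), (1, [], [0, 5]), (2, [0], [1, 4, 5])]),
  (1, 7, [(0, [0], [0, 1]), (1, [], [2, 3]), (1, [], [4, 2]), (4, [], [3]), (0, [0], [0, 1]), (1, [], [5, 6]), (1, [], [4, 5]), (4, [], [6])]),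
  (1, 6, [(0, [0], [0, 1]), (1, [], [2, 3]), (1, [], [4, 2]), (4, [], [3]), (1, [], [4, 5]), (2, [0], [0, 1, 5])]),
  (1, 5, [(1, [], [0, 1]), (2, [0], [2, 3, 1]), (1, [], [0, 4]), (2, [0], [2, 3, 4])]),
  (2, 7, [(0, [0], [0, 1]), (0, [0], [2, 1]), (0, [1], [3, 4]), (4, [], [5]), (0, [1], [3, 6]), (1, [], [0, 6]), (1, [], [2, 4]), (4, [], [5])]),
  (2, 7, [(0, [0], [0, 1]), (0, [0], [2, 1]), (0, [1], [3, 4]), (4, [], [5]), (0, [1], [3, 6]), (1, [], [4, 6]), (1, [], [0, 2]), (4, [], [5])]),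
  (2, 6, [(0, [0], [0, 1]), (0, [0], [2, 1]), (0, [1], [3, 4]), (4, [], [5]), (1, [], [0, 2]), (2, [1], [3, 4, 5])]),
  (2, 6, [(0, [0], [0, 1]), (0, [0], [2, 1]), (0, [1], [3, 4]), (4, [], [5]), (1, [], [0, 3]), (2, [1], [2, 4, 5])]),
  (2, 6, [(0, [0], [0, 1]), (0, [0], [2, 1]), (0, [1], [3, 4]), (4, [], [5]), (1, [], [0, 5]), (2, [1], [2, 3, 4])]),
  (2, 6, [(0, [0], [0, 1]), (0, [0], [2, 1]), (0, [1], [3, 4]), (4, [], [5]), (1, [], [3, 4]), (2, [1], [0, 2, 5])]),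
  (2, 6, [(0, [0], [0, 1]), (0, [0], [2, 1]), (0, [1], [3, 4]), (4, [], [5]), (1, [], [3, 5]), (2, [1], [0, 2, 4])]),
  (3, 7, [(0, [0], [0, 1]), (0, [0], [2, 3]), (0, [1], [4, 1]), (4, [], [5]), (0, [2], [0, 6]), (0, [2], [2, 4]), (0, [1], [3, 6]), (4, [], [5])]),
  (3, 7, [(0, [0], [0, 1]), (0, [0], [2, 3]), (0, [1], [4, 1]), (4, [], [5]), (0, [2], [2, 6]), (0, [2], [0, 4]), (0, [1], [3, 6]), (4, [], [5])]),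
  (2, 7, [(0, [0], [0, 1]), (0, [0], [2, 3]), (0, [1], [4, 1]), (4, [], [5]), (0, [1], [2, 6]), (1, [], [0, 6]), (1, [], [3, 4]), (4, [], [5])]),
  (2, 7, [(0, [0], [0, 1]), (0, [0], [2, 3]), (0, [1], [4, 1]), (4, [], [5]), (0, [1], [2, 6]), (1, [], [3, 6]), (1, [], [0, 4]), (4, [], [5])]),
  (2, 7, [(0, [0], [0, 1]), (0, [0], [2, 3]), (0, [1], [4, 1]), (4, [], [5]), (0, [1], [2, 6]), (1, [], [4, 6]), (1, [], [0, 3]), (4, [], [5])]),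
  (2, 6, [(0, [0], [0, 1]), (0, [0], [2, 3]), (0, [1], [4, 1]), (4, [], [5]), (1, [], [0, 2]), (2, [1], [3, 4, 5])]),
  (2, 6, [(0, [0], [0, 1]), (0, [0], [2, 3]), (0, [1], [4, 1]), (4, [], [5]), (1, [], [0, 4]), (2, [1], [2, 3, 5])]),
  (2, 6, [(0, [0], [0, 1]), (0, [0], [2, 3]), (0, [1], [4, 1]), (4, [], [5]), (1, [], [2, 3]), (2, [1], [0, 4, 5])]),
  (2, 6, [(0, [0], [0, 1]), (0, [0], [2, 3]), (0, [1], [4, 1]), (4, [], [5]), (1, [], [2, 4]), (2, [1], [0, 3, 5])]),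
  (2, 6, [(0, [0], [0, 1]), (0, [0], [2, 3]), (0, [1], [4, 1]), (4, [], [5]), (1, [], [2, 5]), (2, [1], [0, 3, 4])]),
  (2, 6, [(0, [0], [0, 1]), (0, [0], [2, 3]), (0, [1], [4, 5]), (4, [], [1]), (1, [], [0, 2]), (2, [1], [3, 4, 5])]),
  (2, 6, [(0, [0], [0, 1]), (0, [0], [2, 3]), (0, [1], [4, 5]), (4, [], [1]), (1, [], [2, 4]), (2, [1], [0, 3, 5])]),
  (2, 6, [(0, [0], [0, 1]), (0, [0], [2, 3]), (0, [1], [4, 5]), (4, [], [5]), (1, [], [0, 2]), (2, [1], [1, 3, 4])]),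
  (1, 6, [(0, [0], [0, 1]), (1, [], [2, 1]), (1, [], [3, 4]), (4, [], [5]), (0, [0], [0, 2]), (3, [], [3, 4, 5])]),
  (1, 6, [(0, [0], [0, 1]), (1, [], [2, 1]), (1, [], [3, 4]), (4, [], [5]), (0, [0], [0, 3]), (3, [], [2, 4, 5])]),
  (1, 6, [(0, [0], [0, 1]), (1, [], [2, 1]), (1, [], [3, 4]), (4, [], [5]), (0, [0], [0, 5]), (3, [], [2, 3, 4])]),
  (1, 5, [(0, [0], [0, 1]), (3, [], [2, 3, 4]), (1, [], [0, 1]), (2, [0], [2, 3, 4])]),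
  (1, 5, [(0, [0], [0, 1]), (3, [], [2, 3, 4]), (1, [], [0, 2]), (2, [0], [1, 3, 4])])]

def kl5 : List ℕ := [3, 4, 10, 14, 15, 16, 17, 18, 19, 20, 21, 22, 23, 24, 25, 28, 29, 31, 36, 38, 40, 41, 42, 43, 45, 48, 50, 53, 55, 57, 58, 64, 66, 67, 68, 69, 70, 71, 72, 73, 74, 75, 76, 77, 78, 83, 84, 85, 86, 87, 88, 89, 90, 92, 94, 95, 96, 97, 98, 101, 102, 103, 104, 105, 109, 110, 111, 112, 115, 116, 118, 119, 120, 123, 125, 126, 129, 130, 132, 133, 136, 137, 138, 139, 140, 142, 144, 146, 147, 148, 152, 153, 154, 155, 156, 157, 159, 161, 162, 163, 164, 165, 167, 168, 169, 170, 171, 172, 173, 174, 175, 176, 177, 178, 180, 181, 182, 183, 184, 185, 186, 187, 188, 189, 191, 196, 197, 198, 199, 200, 201, 202, 204, 210, 211, 212, 213, 216, 217, 218, 219, 220, 221, 222, 223, 224, 225, 226, 227, 228, 229,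 230, 233, 234, 236, 237, 238, 239, 240, 241, 242, 243, 252, 253, 254, 255, 256, 259, 260, 261, 262, 263, 267, 268, 269, 273, 274, 275, 276, 284, 285, 286, 287, 288, 289, 290, 291, 292, 295, 297, 298, 299, 300, 302, 303, 304, 305, 306, 307, 309, 311, 312, 313, 314, 315, 323, 324, 325, 326, 327, 332, 333, 334, 335, 343, 345, 346, 347, 348, 349, 350, 351, 352, 353, 354, 355, 356, 359, 363, 364, 366, 367, 368, 369, 370, 371, 375, 376, 377, 378, 379, 380, 381, 382, 384, 387, 390, 392, 394, 395, 396, 398, 400, 403, 406, 416, 417, 418, 419, 422, 423, 424, 425, 426, 427, 428, 429, 430, 431, 432, 433, 434, 435, 436, 437, 438, 439, 440, 441, 442, 443, 444, 445, 446]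

def m5_0 : Base := (1, 1, [(0, [1], [0, 5]), (0, [1], [1, 5]), (0, [0], [2, 3]), (4, [], [4])])

def l5_0 : Cov := [(144, 1, 1, [(0, [1], [0, 5]), (0, [1], [1, 5]), (0, [0], [2, 3]), (4, [], [4])]),
  (48, 1, 1, [(0, [1], [0, 5]), (0, [1], [1, 5]), (0, [0], [2, 4]), (4, [], [3])]),
  (48, 1, 1, [(0, [1], [0, 5]), (0, [1], [1, 5]), (0, [0], [3, 4]), (4, [], [2])]),
  (144, 1, 1, [(0, [1], [0, 5]), (0, [1], [2, 5]), (0, [0], [1, 3]), (4, [], [4])]),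
  (48, 1, 1, [(0, [1], [0, 5]), (0, [1], [2, 5]), (0, [0], [1, 4]), (4, [], [3])]),
  (48, 1, 1, [(0, [1], [0, 5]), (0, [1], [2, 5]), (0, [0], [3, 4]), (4, [], [1])]),
  (144, 1, 1, [(0, [1], [0, 5]), (0, [1], [3, 5]), (0, [0], [1, 2]), (4, [], [4])]),
  (48, 1, 1, [(0, [1], [0, 5]), (0, [1], [3, 5]), (0, [0], [1, 4]), (4, [], [2])]),
  (48, 1, 1, [(0, [1], [0, 5]), (0, [1], [3, 5]), (0, [0], [2, 4]), (4, [], [1])]),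
  (96, 1, 1, [(0, [1], [1, 5]), (0, [1], [2, 5]), (0, [0], [0, 3]), (4, [], [4])]),
  (-96, 1, 1, [(0, [1], [1, 5]), (0, [1], [2, 5]), (0, [0], [3, 4]), (4, [], [0])]),
  (96, 1, 1, [(0, [1], [1, 5]), (0, [1], [3, 5]), (0, [0], [0, 2]), (4, [], [4])]),
  (-96, 1, 1, [(0, [1], [1, 5]), (0, [1], [3, 5]), (0, [0], [2, 4]), (4, [], [0])]),
  (-144, 1, 1, [(0, [1], [1, 5]), (0, [1], [4, 5]), (0, [0], [2, 3]), (4, [], [0])]),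
  (96, 1, 1, [(0, [1], [2, 5]), (0, [1], [3, 5]), (0, [0], [0, 1]), (4, [], [4])]),
  (-96, 1, 1, [(0, [1], [2, 5]), (0, [1], [3, 5]), (0, [0], [1, 4]), (4, [], [0])]),
  (-144, 1, 1, [(0, [1], [2, 5]), (0, [1], [4, 5]), (0, [0], [1, 3]), (4, [], [0])]),
  (-144, 1, 1, [(0, [1], [3, 5]), (0, [1], [4, 5]), (0, [0], [1, 2]), (4, [], [0])]),
  (-48, 1, 1, [(0, [1], [4, 5]), (0, [1], [1, 5]), (0, [0], [0, 2]), (4, [], [3])]),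
  (-48, 1, 1, [(0, [1], [4, 5]), (0, [1], [1, 5]), (0, [0], [0, 3]), (4, [], [2])]),
  (-48, 1, 1, [(0, [1], [4, 5]), (0, [1], [2, 5]), (0, [0], [0, 1]), (4, [], [3])]),
  (-48, 1, 1, [(0, [1], [4, 5]), (0, [1], [2, 5]), (0, [0], [0, 3]), (4, [], [1])]),
  (-48, 1, 1, [(0, [1], [4, 5]), (0, [1], [3, 5]), (0, [0], [0, 1]), (4, [], [2])]),
  (-48, 1, 1, [(0, [1], [4, 5]), (0, [1], [3, 5]), (0, [0], [0, 2]), (4, [], [1])])]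

def z5_0 : Cov := [(0, 1, 1, [(0, [1], [0, 5]), (0, [1], [4, 5]), (0, [0], [1, 2]), (4, [], [3])]),
  (0, 1, 1, [(0, [1], [0, 5]), (0, [1], [4, 5]), (0, [0], [1, 3]), (4, [], [2])]),
  (0, 1, 1, [(0, [1], [0, 5]), (0, [1], [4, 5]), (0, [0], [2, 3]), (4, [], [1])])]

def w5_0 : List (List Wit) := [[(0, 0, 0, 0, 0), (1, 0, 0, 0, 0), (0, 0, 0, 0, 0), (2, 0, 0, 0, 0), (1, 0, 0, 0, 0), (2, 0, 0, 0, 0), (3, 0, 0, 0, 0), (4, 0, 0, 0, 0), (3, 0, 0, 0, 0), (5, 0, 0, 0, 0), (4, 0, 0, 0, 0), (5, 0, 0, 0, 0), (6, 0, 0, 0, 0), (7, 0, 0, 0, 0), (6, 0, 0, 0, 0), (8, 0, 0, 0, 0), (7, 0, 0, 0, 0), (8, 0, 0, 0, 0), (24, 0, 0, 0, 0), (25, 0, 0, 0, 0), (24, 0, 0, 0, 0), (26, 0, 0, 0, 0), (25, 0, 0, 0, 0), (26, 0, 0, 0, 0), (0, 0, 0, 0, 0), (0, 0, 0, 0, 0), (9, 0, 0, 0, 0), (9, 0, 0, 0, 0), (10, 0, 0, 0, 0), (10,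 0, 0, 0, 0), (11, 0, 0, 0, 0), (11, 0, 0, 0, 0), (12, 0, 0, 0, 0), (12, 0, 0, 0, 0), (13, 0, 0, 0, 0), (13, 0, 0, 0, 0), (3, 0, 0, 0, 0), (3, 0, 0, 0, 0), (9, 0, 0, 0, 0), (9, 0, 0, 0, 0), (10, 0, 0, 0, 0), (10, 0, 0, 0, 0), (14, 0, 0, 0, 0), (14, 0, 0, 0, 0), (15, 0, 0, 0, 0), (15, 0, 0, 0, 0), (16, 0, 0, 0, 0), (16, 0, 0, 0, 0), (6, 0, 0, 0, 0), (6, 0, 0, 0, 0), (11, 0, 0, 0, 0), (11, 0, 0, 0, 0), (12, 0, 0, 0, 0), (12, 0, 0, 0, 0), (14, 0, 0, 0, 0), (14, 0, 0, 0, 0), (15, 0, 0, 0, 0), (15, 0, 0, 0, 0), (17, 0, 0, 0, 0), (17, 0, 0, 0, 0), (24, 0, 0, 0, 0), (25, 0, 0, 0, 0), (24, 0, 0, 0, 0), (26, 0, 0, 0, 0), (25, 0, 0, 0, 0), (26, 0, 0, 0, 0), (18, 0, 0, 0, 0), (19, 0, 0, 0, 0), (18, 0, 0, 0, 0), (13, 0, 0, 0, 0), (19, 0, 0, 0, 0), (13, 0, 0, 0, 0), (20, 0, 0, 0, 0), (21, 0, 0, 0, 0), (20,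 0, 0, 0, 0), (16, 0, 0, 0, 0), (21, 0, 0, 0, 0), (16, 0, 0, 0, 0), (22, 0, 0, 0, 0), (23, 0, 0, 0, 0), (22, 0, 0, 0, 0), (17, 0, 0, 0, 0), (23, 0, 0, 0, 0), (17, 0, 0, 0, 0)]]

def m5_1 : Base := (1, 1, [(0, [1], [0, 5]), (0, [1], [1, 5]), (0, [0], [2, 4]), (4, [], [3])])

def l5_1 : Cov := [(96, 1, 1, [(0, [1], [0, 5]), (0, [1], [1, 5]), (0, [0], [2, 4]), (4, [], [3])]),
  (48, 1, 1, [(0, [1], [0, 5]), (0, [1], [1, 5]), (0, [0], [2, 3]), (4, [], [4])]),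
  (96, 1, 1, [(0, [1], [0, 5]), (0, [1], [1, 5]), (0, [0], [3, 4]), (4, [], [2])]),
  (96, 1, 1, [(0, [1], [0, 5]), (0, [1], [2, 5]), (0, [0], [1, 4]), (4, [], [3])]),
  (48, 1, 1, [(0, [1], [0, 5]), (0, [1], [2, 5]), (0, [0], [1, 3]), (4, [], [4])]),
  (96, 1, 1, [(0, [1], [0, 5]), (0, [1], [2, 5]), (0, [0], [3, 4]), (4, [], [1])]),
  (96, 1, 1, [(0, [1], [0, 5]), (0, [1], [3, 5]), (0, [0], [1, 4]), (4, [], [2])]),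
  (48, 1, 1, [(0, [1], [0, 5]), (0, [1], [3, 5]), (0, [0], [1, 2]), (4, [], [4])]),
  (96, 1, 1, [(0, [1], [0, 5]), (0, [1], [3, 5]), (0, [0], [2, 4]), (4, [], [1])]),
  (48, 1, 1, [(0, [1], [1, 5]), (0, [1], [2, 5]), (0, [0], [3, 4]), (4, [], [0])]),
  (-48, 1, 1, [(0, [1], [1, 5]), (0, [1], [2, 5]), (0, [0], [3, 0]), (4, [], [4])]),
  (48, 1, 1, [(0, [1], [1, 5]), (0, [1], [3, 5]), (0, [0], [2, 4]), (4, [], [0])]),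
  (-48, 1, 1, [(0, [1], [1, 5]), (0, [1], [3, 5]), (0, [0], [2, 0]), (4, [], [4])]),
  (-96, 1, 1, [(0, [1], [1, 5]), (0, [1], [4, 5]), (0, [0], [2, 0]), (4, [], [3])]),
  (-96, 1, 1, [(0, [1], [1, 5]), (0, [1], [4, 5]), (0, [0], [3, 0]), (4, [], [2])]),
  (48, 1, 1, [(0, [1], [2, 5]), (0, [1], [3, 5]), (0, [0], [1, 4]), (4, [], [0])]),
  (-48, 1, 1, [(0, [1], [2, 5]), (0, [1], [3, 5]), (0, [0], [1, 0]), (4, [], [4])]),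
  (-96, 1, 1, [(0, [1], [2, 5]), (0, [1], [4, 5]), (0, [0], [1, 0]), (4, [], [3])]),
  (-96, 1, 1, [(0, [1], [2, 5]), (0, [1], [4, 5]), (0, [0], [3, 0]), (4, [], [1])]),
  (-96, 1, 1, [(0, [1], [3, 5]), (0, [1], [4, 5]), (0, [0], [1, 0]), (4, [], [2])]),
  (-96, 1, 1, [(0, [1], [3, 5]), (0, [1], [4, 5]), (0, [0], [2, 0]), (4, [], [1])]),
  (-48, 1, 1, [(0, [1], [4, 5]), (0, [1], [1, 5]), (0, [0], [2, 3]), (4, [], [0])]),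
  (-48, 1, 1, [(0, [1], [4, 5]), (0, [1], [2, 5]), (0, [0], [1, 3]), (4, [], [0])]),
  (-48, 1, 1, [(0, [1], [4, 5]), (0, [1], [3, 5]), (0, [0], [1, 2]), (4, [], [0])])]

def z5_1 : Cov := [(0, 1, 1, [(0, [1], [0, 5]), (0, [1], [4, 5]), (0, [0], [1, 3]), (4, [], [2])]),
  (0, 1, 1, [(0, [1], [0, 5]), (0, [1], [4, 5]), (0, [0], [1, 2]), (4, [], [3])]),
  (0, 1, 1, [(0, [1], [0, 5]), (0, [1], [4, 5]), (0, [0], [2, 3]), (4, [], [1])]),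
  (0, 1, 1, [(0, [1], [1, 5]), (0, [1], [2, 5]), (0, [0], [0, 4]), (4, [], [3])]),
  (0, 1, 1, [(0, [1], [1, 5]), (0, [1], [3, 5]), (0, [0], [0, 4]), (4, [], [2])]),
  (0, 1, 1, [(0, [1], [2, 5]), (0, [1], [3, 5]), (0, [0], [0, 4]), (4, [], [1])])]

def w5_1 : List (List Wit) := [[(0, 0, 0, 0, 0), (1, 0, 0, 0, 0), (2, 0, 0, 0, 0), (1, 0, 0, 0, 0), (2, 0, 0, 0, 0), (0, 0, 0, 0, 0), (3, 0, 0, 0, 0), (4, 0, 0, 0, 0), (5, 0, 0, 0, 0), (4, 0, 0, 0, 0), (5, 0, 0, 0, 0), (3, 0, 0, 0, 0), (6, 0, 0, 0, 0), (7, 0, 0, 0, 0), (8, 0, 0, 0, 0), (7, 0, 0, 0, 0), (8, 0, 0, 0, 0), (6, 0, 0, 0, 0), (24, 0, 0, 0, 0), (25, 0, 0, 0, 0), (26, 0, 0, 0, 0), (25, 0, 0, 0, 0), (26, 0, 0, 0, 0), (24, 0, 0, 0, 0), (0, 0, 0, 0, 0), (2, 0, 0, 0, 0), (27, 0, 0, 0, 0), (9, 0, 0, 0, 0), (10, 0, 0, 0, 0), (27, 0, 0, 0, 0), (28,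 0, 0, 0, 0), (11, 0, 0, 0, 0), (12, 0, 0, 0, 0), (28, 0, 0, 0, 0), (13, 0, 0, 0, 0), (14, 0, 0, 0, 0), (3, 0, 0, 0, 0), (5, 0, 0, 0, 0), (27, 0, 0, 0, 0), (9, 0, 0, 0, 0), (10, 0, 0, 0, 0), (27, 0, 0, 0, 0), (29, 0, 0, 0, 0), (15, 0, 0, 0, 0), (16, 0, 0, 0, 0), (29, 0, 0, 0, 0), (17, 0, 0, 0, 0), (18, 0, 0, 0, 0), (6, 0, 0, 0, 0), (8, 0, 0, 0, 0), (28, 0, 0, 0, 0), (11, 0, 0, 0, 0), (12, 0, 0, 0, 0), (28, 0, 0, 0, 0), (29, 0, 0, 0, 0), (15, 0, 0, 0, 0), (16, 0, 0, 0, 0), (29, 0, 0, 0, 0), (19, 0, 0, 0, 0), (20, 0, 0, 0, 0), (24, 0, 0, 0, 0), (25, 0, 0, 0, 0), (26, 0, 0, 0, 0), (25, 0, 0, 0, 0), (26, 0, 0, 0, 0), (24, 0, 0, 0, 0), (14, 0, 0, 0, 0), (13, 0, 0, 0, 0), (21, 0, 0, 0, 0), (13, 0, 0, 0, 0), (21, 0, 0, 0, 0), (14, 0, 0, 0, 0), (18, 0, 0, 0, 0), (17, 0, 0, 0, 0), (22, 0, 0, 0, 0), (17,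 0, 0, 0, 0), (22, 0, 0, 0, 0), (18, 0, 0, 0, 0), (20, 0, 0, 0, 0), (19, 0, 0, 0, 0), (23, 0, 0, 0, 0), (19, 0, 0, 0, 0), (23, 0, 0, 0, 0), (20, 0, 0, 0, 0)]]

def m5_2 : Base := (1, 1, [(0, [1], [0, 5]), (0, [1], [1, 2]), (0, [0], [3, 5]), (4, [], [4])])

def l5_2 : Cov := [(96, 1, 1, [(0, [1], [0, 5]), (0, [1], [1, 2]), (0, [0], [3, 5]), (4, [], [4])]),
  (48, 1, 1, [(0, [1], [0, 5]), (0, [1], [1, 2]), (0, [0], [4, 5]), (4, [], [3])]),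
  (96, 1, 1, [(0, [1], [0, 5]), (0, [1], [1, 3]), (0, [0], [2, 5]), (4, [], [4])]),
  (48, 1, 1, [(0, [1], [0, 5]), (0, [1], [1, 3]), (0, [0], [4, 5]), (4, [], [2])]),
  (48, 1, 1, [(0, [1], [0, 5]), (0, [1], [1, 4]), (0, [0], [2, 5]), (4, [], [3])]),
  (48, 1, 1, [(0, [1], [0, 5]), (0, [1], [1, 4]), (0, [0], [3, 5]), (4, [], [2])]),
  (96, 1, 1, [(0, [1], [0, 5]), (0, [1], [2, 3]), (0, [0], [1, 5]), (4, [], [4])]),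
  (48, 1, 1, [(0, [1], [0, 5]), (0, [1], [2, 3]), (0, [0], [4, 5]), (4, [], [1])]),
  (48, 1, 1, [(0, [1], [0, 5]), (0, [1], [2, 4]), (0, [0], [1, 5]), (4, [], [3])]),
  (48, 1, 1, [(0, [1], [0, 5]), (0, [1], [2, 4]), (0, [0], [3, 5]), (4, [], [1])]),
  (48, 1, 1, [(0, [1], [0, 5]), (0, [1], [3, 4]), (0, [0], [1, 5]), (4, [], [2])]),
  (48, 1, 1, [(0, [1], [0, 5]), (0, [1], [3, 4]), (0, [0], [2, 5]), (4, [], [1])]),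
  (48, 1, 1, [(0, [1], [1, 5]), (0, [1], [0, 2]), (0, [0], [3, 5]), (4, [], [4])]),
  (48, 1, 1, [(0, [1], [1, 5]), (0, [1], [0, 3]), (0, [0], [2, 5]), (4, [], [4])]),
  (48, 1, 1, [(0, [1], [1, 5]), (0, [1], [2, 3]), (0, [0], [0, 5]), (4, [], [4])]),
  (-48, 1, 1, [(0, [1], [1, 5]), (0, [1], [2, 3]), (0, [0], [4, 5]), (4, [], [0])]),
  (-48, 1, 1, [(0, [1], [1, 5]), (0, [1], [2, 4]), (0, [0], [3, 5]), (4, [], [0])]),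
  (-48, 1, 1, [(0, [1], [1, 5]), (0, [1], [3, 4]), (0, [0], [2, 5]), (4, [], [0])]),
  (48, 1, 1, [(0, [1], [2, 5]), (0, [1], [0, 1]), (0, [0], [3, 5]), (4, [], [4])]),
  (48, 1, 1, [(0, [1], [2, 5]), (0, [1], [0, 3]), (0, [0], [1, 5]), (4, [], [4])]),
  (48, 1, 1, [(0, [1], [2, 5]), (0, [1], [1, 3]), (0, [0], [0, 5]), (4, [], [4])]),
  (-48, 1, 1, [(0, [1], [2, 5]), (0, [1], [1, 3]), (0, [0], [4, 5]), (4, [], [0])]),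
  (-48, 1, 1, [(0, [1], [2, 5]), (0, [1], [1, 4]), (0, [0], [3, 5]), (4, [], [0])]),
  (-48, 1, 1, [(0, [1], [2, 5]), (0, [1], [3, 4]), (0, [0], [1, 5]), (4, [], [0])]),
  (48, 1, 1, [(0, [1], [3, 5]), (0, [1], [0, 1]), (0, [0], [2, 5]), (4, [], [4])]),
  (48, 1, 1, [(0, [1], [3, 5]), (0, [1], [0, 2]), (0, [0], [1, 5]), (4, [], [4])]),
  (48, 1, 1, [(0, [1], [3, 5]), (0, [1], [1, 2]), (0, [0], [0, 5]), (4, [], [4])]),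
  (-48, 1, 1, [(0, [1], [3, 5]), (0, [1], [1, 2]), (0, [0], [4, 5]), (4, [], [0])]),
  (-48, 1, 1, [(0, [1], [3, 5]), (0, [1], [1, 4]), (0, [0], [2, 5]), (4, [], [0])]),
  (-48, 1, 1, [(0, [1], [3, 5]), (0, [1], [2, 4]), (0, [0], [1, 5]), (4, [], [0])]),
  (-48, 1, 1, [(0, [1], [4, 5]), (0, [1], [0, 1]), (0, [0], [2, 5]), (4, [], [3])]),
  (-48, 1, 1, [(0, [1], [4, 5]), (0, [1], [0, 1]), (0, [0], [3, 5]), (4, [], [2])]),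
  (-48, 1, 1, [(0, [1], [4, 5]), (0, [1], [0, 2]), (0, [0], [1, 5]), (4, [], [3])]),
  (-48, 1, 1, [(0, [1], [4, 5]), (0, [1], [0, 2]), (0, [0], [3, 5]), (4, [], [1])]),
  (-48, 1, 1, [(0, [1], [4, 5]), (0, [1], [0, 3]), (0, [0], [1, 5]), (4, [], [2])]),
  (-48, 1, 1, [(0, [1], [4, 5]), (0, [1], [0, 3]), (0, [0], [2, 5]), (4, [], [1])]),
  (-48, 1, 1, [(0, [1], [4, 5]), (0, [1], [1, 2]), (0, [0], [0, 5]), (4, [], [3])]),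
  (-96, 1, 1, [(0, [1], [4, 5]), (0, [1], [1, 2]), (0, [0], [3, 5]), (4, [], [0])]),
  (-48, 1, 1, [(0, [1], [4, 5]), (0, [1], [1, 3]), (0, [0], [0, 5]), (4, [], [2])]),
  (-96, 1, 1, [(0, [1], [4, 5]), (0, [1], [1, 3]), (0, [0], [2, 5]), (4, [], [0])]),
  (-48, 1, 1, [(0, [1], [4, 5]), (0, [1], [2, 3]), (0, [0], [0, 5]), (4, [], [1])]),
  (-96, 1, 1, [(0, [1], [4, 5]), (0, [1], [2, 3]), (0, [0], [1, 5]), (4, [], [0])])]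

def z5_2 : Cov := []

def w5_2 : List (List Wit) := [[(0, 0, 0, 0, 0), (1, 0, 0, 0, 0), (2, 0, 0, 0, 0), (3, 0, 0, 0, 0), (4, 0, 0, 0, 0), (5, 0, 0, 0, 0), (0, 0, 0, 0, 0), (1, 0, 0, 0, 0), (6, 0, 0, 0, 0), (7, 0, 0, 0, 0), (8, 0, 0, 0, 0), (9, 0, 0, 0, 0), (2, 0, 0, 0, 0), (3, 0, 0, 0, 0), (6, 0, 0, 0, 0), (7, 0, 0, 0, 0), (10, 0, 0, 0, 0), (11, 0, 0, 0, 0), (4, 0, 0, 0, 0), (5, 0, 0, 0, 0), (8, 0, 0, 0, 0), (9, 0, 0, 0, 0), (10, 0, 0, 0, 0), (11, 0, 0, 0, 0), (12, 0, 0, 0, 0), (13, 0, 0, 0, 0), (12, 0, 0, 0, 0), (14, 0, 0, 0, 0), (15, 0, 0, 0, 0), (16, 0, 0, 0, 0), (13, 0, 0, 0, 0), (14, 0, 0, 0, 0), (15, 0, 0, 0, 0), (17, 0, 0, 0, 0), (16, 0, 0, 0, 0), (17, 0, 0, 0, 0), (18, 0, 0, 0, 0), (19, 0, 0, 0, 0), (18, 0, 0, 0, 0), (20, 0, 0, 0, 0), (21, 0, 0, 0, 0), (22, 0, 0, 0, 0), (19, 0, 0,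 0, 0), (20, 0, 0, 0, 0), (21, 0, 0, 0, 0), (23, 0, 0, 0, 0), (22, 0, 0, 0, 0), (23, 0, 0, 0, 0), (24, 0, 0, 0, 0), (25, 0, 0, 0, 0), (24, 0, 0, 0, 0), (26, 0, 0, 0, 0), (27, 0, 0, 0, 0), (28, 0, 0, 0, 0), (25, 0, 0, 0, 0), (26, 0, 0, 0, 0), (27, 0, 0, 0, 0), (29, 0, 0, 0, 0), (28, 0, 0, 0, 0), (29, 0, 0, 0, 0), (30, 0, 0, 0, 0), (31, 0, 0, 0, 0), (32, 0, 0, 0, 0), (33, 0, 0, 0, 0), (34, 0, 0, 0, 0), (35, 0, 0, 0, 0), (30, 0, 0, 0, 0), (31, 0, 0, 0, 0), (36, 0, 0, 0, 0), (37, 0, 0, 0, 0), (38, 0, 0, 0, 0), (39, 0, 0, 0, 0), (32, 0, 0, 0, 0), (33, 0, 0, 0, 0), (36, 0, 0, 0, 0), (37, 0, 0, 0, 0), (40, 0, 0, 0, 0), (41, 0, 0, 0, 0), (34, 0, 0, 0, 0), (35, 0, 0, 0, 0), (38, 0, 0, 0, 0), (39, 0, 0, 0, 0), (40, 0, 0, 0, 0), (41, 0, 0, 0, 0)]]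

def m5_3 : Base := (1, 1, [(0, [1], [0, 5]), (0, [1], [1, 2]), (0, [0], [3, 4]), (4, [], [5])])

def l5_3 : Cov := [(144, 1, 1, [(0, [1], [0, 5]), (0, [1], [1, 2]), (0, [0], [3, 4]), (4, [], [5])]),
  (144, 1, 1, [(0, [1], [0, 5]), (0, [1], [1, 3]), (0, [0], [2, 4]), (4, [], [5])]),
  (96, 1, 1, [(0, [1], [0, 5]), (0, [1], [1, 4]), (0, [0], [2, 3]), (4, [], [5])]),
  (144, 1, 1, [(0, [1], [0, 5]), (0, [1], [2, 3]), (0, [0], [1, 4]), (4, [], [5])]),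
  (96, 1, 1, [(0, [1], [0, 5]), (0, [1], [2, 4]), (0, [0], [1, 3]), (4, [], [5])]),
  (96, 1, 1, [(0, [1], [0, 5]), (0, [1], [3, 4]), (0, [0], [1, 2]), (4, [], [5])]),
  (48, 1, 1, [(0, [1], [1, 5]), (0, [1], [0, 2]), (0, [0], [3, 4]), (4, [], [5])]),
  (48, 1, 1, [(0, [1], [1, 5]), (0, [1], [0, 3]), (0, [0], [2, 4]), (4, [], [5])]),
  (-48, 1, 1, [(0, [1], [1, 5]), (0, [1], [2, 4]), (0, [0], [3, 0]), (4, [], [5])]),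
  (-48, 1, 1, [(0, [1], [1, 5]), (0, [1], [3, 4]), (0, [0], [2, 0]), (4, [], [5])]),
  (48, 1, 1, [(0, [1], [2, 5]), (0, [1], [0, 1]), (0, [0], [3, 4]), (4, [], [5])]),
  (48, 1, 1, [(0, [1], [2, 5]), (0, [1], [0, 3]), (0, [0], [1, 4]), (4, [], [5])]),
  (-48, 1, 1, [(0, [1], [2, 5]), (0, [1], [1, 4]), (0, [0], [3, 0]), (4, [], [5])]),
  (-48, 1, 1, [(0, [1], [2, 5]), (0, [1], [3, 4]), (0, [0], [1, 0]), (4, [], [5])]),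
  (48, 1, 1, [(0, [1], [3, 5]), (0, [1], [0, 1]), (0, [0], [2, 4]), (4, [], [5])]),
  (48, 1, 1, [(0, [1], [3, 5]), (0, [1], [0, 2]), (0, [0], [1, 4]), (4, [], [5])]),
  (-48, 1, 1, [(0, [1], [3, 5]), (0, [1], [1, 4]), (0, [0], [2, 0]), (4, [], [5])]),
  (-48, 1, 1, [(0, [1], [3, 5]), (0, [1], [2, 4]), (0, [0], [1, 0]), (4, [], [5])]),
  (-96, 1, 1, [(0, [1], [4, 5]), (0, [1], [0, 1]), (0, [0], [2, 3]), (4, [], [5])]),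
  (-96, 1, 1, [(0, [1], [4, 5]), (0, [1], [0, 2]), (0, [0], [1, 3]), (4, [], [5])]),
  (-96, 1, 1, [(0, [1], [4, 5]), (0, [1], [0, 3]), (0, [0], [1, 2]), (4, [], [5])]),
  (-144, 1, 1, [(0, [1], [4, 5]), (0, [1], [1, 2]), (0, [0], [0, 3]), (4, [], [5])]),
  (-144, 1, 1, [(0, [1], [4, 5]), (0, [1], [1, 3]), (0, [0], [0, 2]), (4, [], [5])]),
  (-144, 1, 1, [(0, [1], [4, 5]), (0, [1], [2, 3]), (0, [0], [0, 1]), (4, [], [5])])]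

def z5_3 : Cov := [(0, 1, 1, [(0, [1], [1, 5]), (0, [1], [2, 3]), (0, [0], [0, 4]), (4, [], [5])]),
  (0, 1, 1, [(0, [1], [2, 5]), (0, [1], [1, 3]), (0, [0], [0, 4]), (4, [], [5])]),
  (0, 1, 1, [(0, [1], [3, 5]), (0, [1], [1, 2]), (0, [0], [0, 4]), (4, [], [5])])]

def w5_3 : List (List Wit) := [[(0, 0, 0, 0, 0), (0, 0, 0, 0, 0), (1, 0, 0, 0, 0), (1, 0, 0, 0, 0), (2, 0, 0, 0, 0), (2, 0, 0, 0, 0), (0, 0, 0, 0, 0), (0, 0, 0, 0, 0), (3, 0, 0, 0, 0), (3, 0, 0, 0, 0), (4, 0, 0, 0, 0), (4, 0, 0, 0, 0), (1, 0, 0, 0, 0), (1, 0, 0, 0, 0), (3, 0, 0, 0, 0), (3, 0, 0, 0, 0), (5, 0, 0, 0, 0), (5, 0, 0, 0, 0), (2, 0, 0, 0, 0), (2, 0, 0, 0, 0), (4, 0, 0, 0, 0), (4, 0, 0, 0, 0), (5, 0, 0, 0, 0), (5, 0, 0, 0, 0), (6, 0, 0, 0, 0), (7, 0, 0, 0, 0), (6, 0, 0, 0, 0), (24, 0, 0, 0, 0), (24, 0, 0, 0, 0), (8, 0,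 0, 0, 0), (7, 0, 0, 0, 0), (24, 0, 0, 0, 0), (24, 0, 0, 0, 0), (9, 0, 0, 0, 0), (8, 0, 0, 0, 0), (9, 0, 0, 0, 0), (10, 0, 0, 0, 0), (11, 0, 0, 0, 0), (10, 0, 0, 0, 0), (25, 0, 0, 0, 0), (25, 0, 0, 0, 0), (12, 0, 0, 0, 0), (11, 0, 0, 0, 0), (25, 0, 0, 0, 0), (25, 0, 0, 0, 0), (13, 0, 0, 0, 0), (12, 0, 0, 0, 0), (13, 0, 0, 0, 0), (14, 0, 0, 0, 0), (15, 0, 0, 0, 0), (14, 0, 0, 0, 0), (26, 0, 0, 0, 0), (26, 0, 0, 0, 0), (16, 0, 0, 0, 0), (15, 0, 0, 0, 0), (26, 0, 0, 0, 0), (26, 0, 0, 0, 0), (17, 0, 0, 0, 0), (16, 0, 0, 0, 0), (17, 0, 0, 0, 0), (18, 0, 0, 0, 0), (18, 0, 0, 0, 0), (19, 0, 0, 0, 0), (19, 0, 0, 0, 0), (20, 0, 0, 0, 0), (20, 0, 0, 0, 0), (18, 0, 0, 0, 0), (18, 0, 0, 0, 0), (21, 0, 0, 0, 0), (21, 0, 0, 0, 0), (22, 0, 0, 0, 0), (22, 0, 0, 0, 0), (19, 0, 0, 0, 0), (19, 0, 0, 0, 0), (21,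 0, 0, 0, 0), (21, 0, 0, 0, 0), (23, 0, 0, 0, 0), (23, 0, 0, 0, 0), (20, 0, 0, 0, 0), (20, 0, 0, 0, 0), (22, 0, 0, 0, 0), (22, 0, 0, 0, 0), (23, 0, 0, 0, 0), (23, 0, 0, 0, 0)]]

def m5_4 : Base := (1, 1, [(0, [1], [0, 5]), (0, [1], [1, 2]), (0, [0], [4, 5]), (4, [], [3])])

def l5_4 : Cov := [(96, 1, 1, [(0, [1], [0, 5]), (0, [1], [1, 2]), (0, [0], [4, 5]), (4, [], [3])]),
  (48, 1, 1, [(0, [1], [0, 5]), (0, [1], [1, 2]), (0, [0], [3, 5]), (4, [], [4])]),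
  (96, 1, 1, [(0, [1], [0, 5]), (0, [1], [1, 3]), (0, [0], [4, 5]), (4, [], [2])]),
  (48, 1, 1, [(0, [1], [0, 5]), (0, [1], [1, 3]), (0, [0], [2, 5]), (4, [], [4])]),
  (48, 1, 1, [(0, [1], [0, 5]), (0, [1], [1, 4]), (0, [0], [3, 5]), (4, [], [2])]),
  (48, 1, 1, [(0, [1], [0, 5]), (0, [1], [1, 4]), (0, [0], [2, 5]), (4, [], [3])]),
  (96, 1, 1, [(0, [1], [0, 5]), (0, [1], [2, 3]), (0, [0], [4, 5]), (4, [], [1])]),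
  (48, 1, 1, [(0, [1], [0, 5]), (0, [1], [2, 3]), (0, [0], [1, 5]), (4, [], [4])]),
  (48, 1, 1, [(0, [1], [0, 5]), (0, [1], [2, 4]), (0, [0], [3, 5]), (4, [], [1])]),
  (48, 1, 1, [(0, [1], [0, 5]), (0, [1], [2, 4]), (0, [0], [1, 5]), (4, [], [3])]),
  (48, 1, 1, [(0, [1], [0, 5]), (0, [1], [3, 4]), (0, [0], [2, 5]), (4, [], [1])]),
  (48, 1, 1, [(0, [1], [0, 5]), (0, [1], [3, 4]), (0, [0], [1, 5]), (4, [], [2])]),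
  (48, 1, 1, [(0, [1], [1, 5]), (0, [1], [0, 2]), (0, [0], [4, 5]), (4, [], [3])]),
  (48, 1, 1, [(0, [1], [1, 5]), (0, [1], [0, 3]), (0, [0], [4, 5]), (4, [], [2])]),
  (48, 1, 1, [(0, [1], [1, 5]), (0, [1], [2, 3]), (0, [0], [4, 5]), (4, [], [0])]),
  (-48, 1, 1, [(0, [1], [1, 5]), (0, [1], [2, 3]), (0, [0], [0, 5]), (4, [], [4])]),
  (-48, 1, 1, [(0, [1], [1, 5]), (0, [1], [2, 4]), (0, [0], [0, 5]), (4, [], [3])]),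
  (-48, 1, 1, [(0, [1], [1, 5]), (0, [1], [3, 4]), (0, [0], [0, 5]), (4, [], [2])]),
  (48, 1, 1, [(0, [1], [2, 5]), (0, [1], [0, 1]), (0, [0], [4, 5]), (4, [], [3])]),
  (48, 1, 1, [(0, [1], [2, 5]), (0, [1], [0, 3]), (0, [0], [4, 5]), (4, [], [1])]),
  (48, 1, 1, [(0, [1], [2, 5]), (0, [1], [1, 3]), (0, [0], [4, 5]), (4, [], [0])]),
  (-48, 1, 1, [(0, [1], [2, 5]), (0, [1], [1, 3]), (0, [0], [0, 5]), (4, [], [4])]),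
  (-48, 1, 1, [(0, [1], [2, 5]), (0, [1], [1, 4]), (0, [0], [0, 5]), (4, [], [3])]),
  (-48, 1, 1, [(0, [1], [2, 5]), (0, [1], [3, 4]), (0, [0], [0, 5]), (4, [], [1])]),
  (48, 1, 1, [(0, [1], [3, 5]), (0, [1], [0, 1]), (0, [0], [4, 5]), (4, [], [2])]),
  (48, 1, 1, [(0, [1], [3, 5]), (0, [1], [0, 2]), (0, [0], [4, 5]), (4, [], [1])]),
  (48, 1, 1, [(0, [1], [3, 5]), (0, [1], [1, 2]), (0, [0], [4, 5]), (4, [], [0])]),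
  (-48, 1, 1, [(0, [1], [3, 5]), (0, [1], [1, 2]), (0, [0], [0, 5]), (4, [], [4])]),
  (-48, 1, 1, [(0, [1], [3, 5]), (0, [1], [1, 4]), (0, [0], [0, 5]), (4, [], [2])]),
  (-48, 1, 1, [(0, [1], [3, 5]), (0, [1], [2, 4]), (0, [0], [0, 5]), (4, [], [1])]),
  (-48, 1, 1, [(0, [1], [4, 5]), (0, [1], [0, 1]), (0, [0], [3, 5]), (4, [], [2])]),
  (-48, 1, 1, [(0, [1], [4, 5]), (0, [1], [0, 1]), (0, [0], [2, 5]), (4, [], [3])]),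
  (-48, 1, 1, [(0, [1], [4, 5]), (0, [1], [0, 2]), (0, [0], [3, 5]), (4, [], [1])]),
  (-48, 1, 1, [(0, [1], [4, 5]), (0, [1], [0, 2]), (0, [0], [1, 5]), (4, [], [3])]),
  (-48, 1, 1, [(0, [1], [4, 5]), (0, [1], [0, 3]), (0, [0], [2, 5]), (4, [], [1])]),
  (-48, 1, 1, [(0, [1], [4, 5]), (0, [1], [0, 3]), (0, [0], [1, 5]), (4, [], [2])]),
  (-48, 1, 1, [(0, [1], [4, 5]), (0, [1], [1, 2]), (0, [0], [3, 5]), (4, [], [0])]),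
  (-96, 1, 1, [(0, [1], [4, 5]), (0, [1], [1, 2]), (0, [0], [0, 5]), (4, [], [3])]),
  (-48, 1, 1, [(0, [1], [4, 5]), (0, [1], [1, 3]), (0, [0], [2, 5]), (4, [], [0])]),
  (-96, 1, 1, [(0, [1], [4, 5]), (0, [1], [1, 3]), (0, [0], [0, 5]), (4, [], [2])]),
  (-48, 1, 1, [(0, [1], [4, 5]), (0, [1], [2, 3]), (0, [0], [1, 5]), (4, [], [0])]),
  (-96, 1, 1, [(0, [1], [4, 5]), (0, [1], [2, 3]), (0, [0], [0, 5]), (4, [], [1])])]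

def z5_4 : Cov := []

def w5_4 : List (List Wit) := [[(0, 0, 0, 0, 0), (1, 0, 0, 0, 0), (2, 0, 0, 0, 0), (3, 0, 0, 0, 0), (4, 0, 0, 0, 0), (5, 0, 0, 0, 0), (0, 0, 0, 0, 0), (1, 0, 0, 0, 0), (6, 0, 0, 0, 0), (7, 0, 0, 0, 0), (8, 0, 0, 0, 0), (9, 0, 0, 0, 0), (2, 0, 0, 0, 0), (3, 0, 0, 0, 0), (6, 0, 0, 0, 0), (7, 0, 0, 0, 0), (10, 0, 0, 0, 0), (11, 0, 0, 0, 0), (4, 0, 0, 0, 0), (5, 0, 0, 0, 0), (8, 0, 0, 0, 0), (9, 0, 0, 0, 0), (10, 0, 0, 0, 0), (11, 0, 0, 0, 0), (12, 0, 0, 0, 0), (13, 0, 0, 0, 0), (12, 0, 0, 0, 0), (14, 0, 0, 0, 0), (15, 0, 0, 0, 0), (16, 0, 0, 0, 0), (13, 0, 0, 0, 0), (14, 0, 0, 0, 0), (15, 0, 0, 0, 0), (17, 0, 0, 0, 0), (16, 0, 0, 0, 0), (17, 0, 0, 0, 0), (18, 0, 0, 0, 0), (19, 0, 0, 0, 0), (18, 0, 0, 0, 0), (20, 0, 0, 0, 0), (21, 0, 0, 0, 0), (22, 0, 0, 0, 0), (19, 0, 0,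 0, 0), (20, 0, 0, 0, 0), (21, 0, 0, 0, 0), (23, 0, 0, 0, 0), (22, 0, 0, 0, 0), (23, 0, 0, 0, 0), (24, 0, 0, 0, 0), (25, 0, 0, 0, 0), (24, 0, 0, 0, 0), (26, 0, 0, 0, 0), (27, 0, 0, 0, 0), (28, 0, 0, 0, 0), (25, 0, 0, 0, 0), (26, 0, 0, 0, 0), (27, 0, 0, 0, 0), (29, 0, 0, 0, 0), (28, 0, 0, 0, 0), (29, 0, 0, 0, 0), (30, 0, 0, 0, 0), (31, 0, 0, 0, 0), (32, 0, 0, 0, 0), (33, 0, 0, 0, 0), (34, 0, 0, 0, 0), (35, 0, 0, 0, 0), (30, 0, 0, 0, 0), (31, 0, 0, 0, 0), (36, 0, 0, 0, 0), (37, 0, 0, 0, 0), (38, 0, 0, 0, 0), (39, 0, 0, 0, 0), (32, 0, 0, 0, 0), (33, 0, 0, 0, 0), (36, 0, 0, 0, 0), (37, 0, 0, 0, 0), (40, 0, 0, 0, 0), (41, 0, 0, 0, 0), (34, 0, 0, 0, 0), (35, 0, 0, 0, 0), (38, 0, 0, 0, 0), (39, 0, 0, 0, 0), (40, 0, 0, 0, 0), (41, 0, 0, 0, 0)]]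

def m5_5 : Base := (1, 1, [(0, [1], [0, 5]), (0, [1], [1, 4]), (0, [0], [2, 5]), (4, [], [3])])

def l5_5 : Cov := [(72, 1, 1, [(0, [1], [0, 5]), (0, [1], [1, 4]), (0, [0], [2, 5]), (4, [], [3])]),
  (48, 1, 1, [(0, [1], [0, 5]), (0, [1], [1, 3]), (0, [0], [2, 5]), (4, [], [4])]),
  (72, 1, 1, [(0, [1], [0, 5]), (0, [1], [1, 4]), (0, [0], [3, 5]), (4, [], [2])]),
  (48, 1, 1, [(0, [1], [0, 5]), (0, [1], [1, 2]), (0, [0], [3, 5]), (4, [], [4])]),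
  (48, 1, 1, [(0, [1], [0, 5]), (0, [1], [1, 3]), (0, [0], [4, 5]), (4, [], [2])]),
  (48, 1, 1, [(0, [1], [0, 5]), (0, [1], [1, 2]), (0, [0], [4, 5]), (4, [], [3])]),
  (72, 1, 1, [(0, [1], [0, 5]), (0, [1], [2, 4]), (0, [0], [1, 5]), (4, [], [3])]),
  (48, 1, 1, [(0, [1], [0, 5]), (0, [1], [2, 3]), (0, [0], [1, 5]), (4, [], [4])]),
  (72, 1, 1, [(0, [1], [0, 5]), (0, [1], [2, 4]), (0, [0], [3, 5]), (4, [], [1])]),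
  (48, 1, 1, [(0, [1], [0, 5]), (0, [1], [2, 3]), (0, [0], [4, 5]), (4, [], [1])]),
  (72, 1, 1, [(0, [1], [0, 5]), (0, [1], [3, 4]), (0, [0], [1, 5]), (4, [], [2])]),
  (72, 1, 1, [(0, [1], [0, 5]), (0, [1], [3, 4]), (0, [0], [2, 5]), (4, [], [1])]),
  (24, 1, 1, [(0, [1], [1, 5]), (0, [1], [2, 4]), (0, [0], [0, 5]), (4, [], [3])]),
  (24, 1, 1, [(0, [1], [1, 5]), (0, [1], [2, 4]), (0, [0], [3, 5]), (4, [], [0])]),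
  (-24, 1, 1, [(0, [1], [1, 5]), (0, [1], [2, 0]), (0, [0], [3, 5]), (4, [], [4])]),
  (-24, 1, 1, [(0, [1], [1, 5]), (0, [1], [2, 0]), (0, [0], [4, 5]), (4, [], [3])]),
  (24, 1, 1, [(0, [1], [1, 5]), (0, [1], [3, 4]), (0, [0], [0, 5]), (4, [], [2])]),
  (24, 1, 1, [(0, [1], [1, 5]), (0, [1], [3, 4]), (0, [0], [2, 5]), (4, [], [0])]),
  (-24, 1, 1, [(0, [1], [1, 5]), (0, [1], [3, 0]), (0, [0], [2, 5]), (4, [], [4])]),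
  (-24, 1, 1, [(0, [1], [1, 5]), (0, [1], [3, 0]), (0, [0], [4, 5]), (4, [], [2])]),
  (24, 1, 1, [(0, [1], [2, 5]), (0, [1], [1, 4]), (0, [0], [0, 5]), (4, [], [3])]),
  (24, 1, 1, [(0, [1], [2, 5]), (0, [1], [1, 4]), (0, [0], [3, 5]), (4, [], [0])]),
  (-24, 1, 1, [(0, [1], [2, 5]), (0, [1], [1, 0]), (0, [0], [3, 5]), (4, [], [4])]),
  (-24, 1, 1, [(0, [1], [2, 5]), (0, [1], [1, 0]), (0, [0], [4, 5]), (4, [], [3])]),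
  (24, 1, 1, [(0, [1], [2, 5]), (0, [1], [3, 4]), (0, [0], [0, 5]), (4, [], [1])]),
  (24, 1, 1, [(0, [1], [2, 5]), (0, [1], [3, 4]), (0, [0], [1, 5]), (4, [], [0])]),
  (-24, 1, 1, [(0, [1], [2, 5]), (0, [1], [3, 0]), (0, [0], [1, 5]), (4, [], [4])]),
  (-24, 1, 1, [(0, [1], [2, 5]), (0, [1], [3, 0]), (0, [0], [4, 5]), (4, [], [1])]),
  (24, 1, 1, [(0, [1], [3, 5]), (0, [1], [1, 4]), (0, [0], [0, 5]), (4, [], [2])]),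
  (24, 1, 1, [(0, [1], [3, 5]), (0, [1], [1, 4]), (0, [0], [2, 5]), (4, [], [0])]),
  (-24, 1, 1, [(0, [1], [3, 5]), (0, [1], [1, 0]), (0, [0], [2, 5]), (4, [], [4])]),
  (-24, 1, 1, [(0, [1], [3, 5]), (0, [1], [1, 0]), (0, [0], [4, 5]), (4, [], [2])]),
  (24, 1, 1, [(0, [1], [3, 5]), (0, [1], [2, 4]), (0, [0], [0, 5]), (4, [], [1])]),
  (24, 1, 1, [(0, [1], [3, 5]), (0, [1], [2, 4]), (0, [0], [1, 5]), (4, [], [0])]),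
  (-24, 1, 1, [(0, [1], [3, 5]), (0, [1], [2, 0]), (0, [0], [1, 5]), (4, [], [4])]),
  (-24, 1, 1, [(0, [1], [3, 5]), (0, [1], [2, 0]), (0, [0], [4, 5]), (4, [], [1])]),
  (-72, 1, 1, [(0, [1], [4, 5]), (0, [1], [0, 3]), (0, [0], [1, 5]), (4, [], [2])]),
  (-72, 1, 1, [(0, [1], [4, 5]), (0, [1], [0, 2]), (0, [0], [1, 5]), (4, [], [3])]),
  (-72, 1, 1, [(0, [1], [4, 5]), (0, [1], [0, 3]), (0, [0], [2, 5]), (4, [], [1])]),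
  (-72, 1, 1, [(0, [1], [4, 5]), (0, [1], [0, 1]), (0, [0], [2, 5]), (4, [], [3])]),
  (-72, 1, 1, [(0, [1], [4, 5]), (0, [1], [0, 2]), (0, [0], [3, 5]), (4, [], [1])]),
  (-72, 1, 1, [(0, [1], [4, 5]), (0, [1], [0, 1]), (0, [0], [3, 5]), (4, [], [2])]),
  (-48, 1, 1, [(0, [1], [4, 5]), (0, [1], [1, 3]), (0, [0], [0, 5]), (4, [], [2])]),
  (-48, 1, 1, [(0, [1], [4, 5]), (0, [1], [1, 2]), (0, [0], [0, 5]), (4, [], [3])]),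
  (-48, 1, 1, [(0, [1], [4, 5]), (0, [1], [1, 3]), (0, [0], [2, 5]), (4, [], [0])]),
  (-48, 1, 1, [(0, [1], [4, 5]), (0, [1], [1, 2]), (0, [0], [3, 5]), (4, [], [0])]),
  (-48, 1, 1, [(0, [1], [4, 5]), (0, [1], [2, 3]), (0, [0], [0, 5]), (4, [], [1])]),
  (-48, 1, 1, [(0, [1], [4, 5]), (0, [1], [2, 3]), (0, [0], [1, 5]), (4, [], [0])])]

def z5_5 : Cov := [(0, 1, 1, [(0, [1], [1, 5]), (0, [1], [0, 4]), (0, [0], [2, 5]), (4, [], [3])]),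
  (0, 1, 1, [(0, [1], [1, 5]), (0, [1], [0, 4]), (0, [0], [3, 5]), (4, [], [2])]),
  (0, 1, 1, [(0, [1], [2, 5]), (0, [1], [0, 4]), (0, [0], [1, 5]), (4, [], [3])]),
  (0, 1, 1, [(0, [1], [2, 5]), (0, [1], [0, 4]), (0, [0], [3, 5]), (4, [], [1])]),
  (0, 1, 1, [(0, [1], [3, 5]), (0, [1], [0, 4]), (0, [0], [1, 5]), (4, [], [2])]),
  (0, 1, 1, [(0, [1], [3, 5]), (0, [1], [0, 4]), (0, [0], [2, 5]), (4, [], [1])])]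

def w5_5 : List (List Wit) := [[(0, 0, 0, 0, 0), (1, 0, 0, 0, 0), (2, 0, 0, 0, 0), (3, 0, 0, 0, 0), (4, 0, 0, 0, 0), (5, 0, 0, 0, 0), (6, 0, 0, 0, 0), (7, 0, 0, 0, 0), (8, 0, 0, 0, 0), (3, 0, 0, 0, 0), (9, 0, 0, 0, 0), (5, 0, 0, 0, 0), (10, 0, 0, 0, 0), (7, 0, 0, 0, 0), (11, 0, 0, 0, 0), (1, 0, 0, 0, 0), (9, 0, 0, 0, 0), (4, 0, 0, 0, 0), (10, 0, 0, 0, 0), (6, 0, 0, 0, 0), (11, 0, 0, 0, 0), (0, 0, 0, 0, 0), (8, 0, 0, 0, 0), (2, 0, 0, 0, 0), (48, 0, 0, 0, 0), (49, 0, 0, 0, 0), (12, 0, 0, 0, 0), (13, 0, 0, 0, 0), (14, 0, 0, 0, 0), (15, 0, 0, 0, 0), (16, 0, 0, 0, 0), (17, 0, 0, 0, 0), (18, 0, 0, 0, 0), (19, 0, 0, 0, 0), (48, 0, 0, 0, 0), (49, 0, 0, 0, 0), (50, 0, 0, 0, 0), (51, 0, 0, 0, 0), (20, 0, 0, 0, 0), (21, 0, 0, 0, 0), (22, 0, 0, 0, 0), (23, 0, 0, 0, 0), (24, 0, 0, 0, 0), (25, 0, 0, 0, 0),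 (26, 0, 0, 0, 0), (27, 0, 0, 0, 0), (50, 0, 0, 0, 0), (51, 0, 0, 0, 0), (52, 0, 0, 0, 0), (53, 0, 0, 0, 0), (28, 0, 0, 0, 0), (29, 0, 0, 0, 0), (30, 0, 0, 0, 0), (31, 0, 0, 0, 0), (32, 0, 0, 0, 0), (33, 0, 0, 0, 0), (34, 0, 0, 0, 0), (35, 0, 0, 0, 0), (52, 0, 0, 0, 0), (53, 0, 0, 0, 0), (36, 0, 0, 0, 0), (37, 0, 0, 0, 0), (38, 0, 0, 0, 0), (39, 0, 0, 0, 0), (40, 0, 0, 0, 0), (41, 0, 0, 0, 0), (42, 0, 0, 0, 0), (43, 0, 0, 0, 0), (44, 0, 0, 0, 0), (39, 0, 0, 0, 0), (45, 0, 0, 0, 0), (41, 0, 0, 0, 0), (46, 0, 0, 0, 0), (43, 0, 0, 0, 0), (47, 0, 0, 0, 0), (37, 0, 0, 0, 0), (45, 0, 0, 0, 0), (40, 0, 0, 0, 0), (46, 0, 0, 0, 0), (42, 0, 0, 0, 0), (47, 0, 0, 0, 0), (36, 0, 0, 0, 0), (44, 0, 0, 0, 0), (38, 0, 0, 0, 0)]]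

def m5_6 : Base := (1, 1, [(0, [1], [0, 5]), (0, [1], [1, 4]), (0, [0], [2, 3]), (4, [], [5])])

def l5_6 : Cov := [(144, 1, 1, [(0, [1], [0, 5]), (0, [1], [1, 4]), (0, [0], [2, 3]), (4, [], [5])]),
  (96, 1, 1, [(0, [1], [0, 5]), (0, [1], [1, 3]), (0, [0], [2, 4]), (4, [], [5])]),
  (96, 1, 1, [(0, [1], [0, 5]), (0, [1], [1, 2]), (0, [0], [3, 4]), (4, [], [5])]),
  (144, 1, 1, [(0, [1], [0, 5]), (0, [1], [2, 4]), (0, [0], [1, 3]), (4, [], [5])]),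
  (96, 1, 1, [(0, [1], [0, 5]), (0, [1], [2, 3]), (0, [0], [1, 4]), (4, [], [5])]),
  (144, 1, 1, [(0, [1], [0, 5]), (0, [1], [3, 4]), (0, [0], [1, 2]), (4, [], [5])]),
  (48, 1, 1, [(0, [1], [1, 5]), (0, [1], [2, 4]), (0, [0], [0, 3]), (4, [], [5])]),
  (-48, 1, 1, [(0, [1], [1, 5]), (0, [1], [2, 0]), (0, [0], [3, 4]), (4, [], [5])]),
  (48, 1, 1, [(0, [1], [1, 5]), (0, [1], [3, 4]), (0, [0], [0, 2]), (4, [], [5])]),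
  (-48, 1, 1, [(0, [1], [1, 5]), (0, [1], [3, 0]), (0, [0], [2, 4]), (4, [], [5])]),
  (48, 1, 1, [(0, [1], [2, 5]), (0, [1], [1, 4]), (0, [0], [0, 3]), (4, [], [5])]),
  (-48, 1, 1, [(0, [1], [2, 5]), (0, [1], [1, 0]), (0, [0], [3, 4]), (4, [], [5])]),
  (48, 1, 1, [(0, [1], [2, 5]), (0, [1], [3, 4]), (0, [0], [0, 1]), (4, [], [5])]),
  (-48, 1, 1, [(0, [1], [2, 5]), (0, [1], [3, 0]), (0, [0], [1, 4]), (4, [], [5])]),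
  (48, 1, 1, [(0, [1], [3, 5]), (0, [1], [1, 4]), (0, [0], [0, 2]), (4, [], [5])]),
  (-48, 1, 1, [(0, [1], [3, 5]), (0, [1], [1, 0]), (0, [0], [2, 4]), (4, [], [5])]),
  (48, 1, 1, [(0, [1], [3, 5]), (0, [1], [2, 4]), (0, [0], [0, 1]), (4, [], [5])]),
  (-48, 1, 1, [(0, [1], [3, 5]), (0, [1], [2, 0]), (0, [0], [1, 4]), (4, [], [5])]),
  (-144, 1, 1, [(0, [1], [4, 5]), (0, [1], [0, 3]), (0, [0], [1, 2]), (4, [], [5])]),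
  (-144, 1, 1, [(0, [1], [4, 5]), (0, [1], [0, 2]), (0, [0], [1, 3]), (4, [], [5])]),
  (-144, 1, 1, [(0, [1], [4, 5]), (0, [1], [0, 1]), (0, [0], [2, 3]), (4, [], [5])]),
  (-96, 1, 1, [(0, [1], [4, 5]), (0, [1], [1, 3]), (0, [0], [0, 2]), (4, [], [5])]),
  (-96, 1, 1, [(0, [1], [4, 5]), (0, [1], [1, 2]), (0, [0], [0, 3]), (4, [], [5])]),
  (-96, 1, 1, [(0, [1], [4, 5]), (0, [1], [2, 3]), (0, [0], [0, 1]), (4, [], [5])])]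

def z5_6 : Cov := [(0, 1, 1, [(0, [1], [1, 5]), (0, [1], [0, 4]), (0, [0], [2, 3]), (4, [], [5])]),
  (0, 1, 1, [(0, [1], [2, 5]), (0, [1], [0, 4]), (0, [0], [1, 3]), (4, [], [5])]),
  (0, 1, 1, [(0, [1], [3, 5]), (0, [1], [0, 4]), (0, [0], [1, 2]), (4, [], [5])])]

def w5_6 : List (List Wit) := [[(0, 0, 0, 0, 0), (1, 0, 0, 0, 0), (0, 0, 0, 0, 0), (2, 0, 0, 0, 0), (1, 0, 0, 0, 0), (2, 0, 0, 0, 0), (3, 0, 0, 0, 0), (4, 0, 0, 0, 0), (3, 0, 0, 0, 0), (2, 0, 0, 0, 0), (4, 0, 0, 0, 0), (2, 0, 0, 0, 0), (5, 0, 0, 0, 0), (4, 0, 0, 0, 0), (5, 0, 0, 0, 0), (1, 0, 0, 0, 0), (4, 0, 0, 0, 0), (1, 0, 0, 0, 0), (5, 0, 0, 0, 0), (3, 0, 0, 0, 0), (5, 0, 0, 0, 0), (0, 0, 0, 0, 0), (3, 0, 0, 0, 0), (0, 0, 0, 0, 0), (24, 0, 0, 0, 0), (24, 0, 0, 0, 0), (6, 0, 0, 0, 0), (6, 0, 0, 0, 0), (7, 0, 0, 0, 0), (7, 0,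 0, 0, 0), (8, 0, 0, 0, 0), (8, 0, 0, 0, 0), (9, 0, 0, 0, 0), (9, 0, 0, 0, 0), (24, 0, 0, 0, 0), (24, 0, 0, 0, 0), (25, 0, 0, 0, 0), (25, 0, 0, 0, 0), (10, 0, 0, 0, 0), (10, 0, 0, 0, 0), (11, 0, 0, 0, 0), (11, 0, 0, 0, 0), (12, 0, 0, 0, 0), (12, 0, 0, 0, 0), (13, 0, 0, 0, 0), (13, 0, 0, 0, 0), (25, 0, 0, 0, 0), (25, 0, 0, 0, 0), (26, 0, 0, 0, 0), (26, 0, 0, 0, 0), (14, 0, 0, 0, 0), (14, 0, 0, 0, 0), (15, 0, 0, 0, 0), (15, 0, 0, 0, 0), (16, 0, 0, 0, 0), (16, 0, 0, 0, 0), (17, 0, 0, 0, 0), (17, 0, 0, 0, 0), (26, 0, 0, 0, 0), (26, 0, 0, 0, 0), (18, 0, 0, 0, 0), (19, 0, 0, 0, 0), (18, 0, 0, 0, 0), (20, 0, 0, 0, 0), (19, 0, 0, 0, 0), (20, 0, 0, 0, 0), (21, 0, 0, 0, 0), (22, 0, 0, 0, 0), (21, 0, 0, 0, 0), (20, 0, 0, 0, 0), (22, 0, 0, 0, 0), (20, 0, 0, 0, 0), (23, 0, 0, 0, 0), (22, 0, 0, 0, 0), (23,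 0, 0, 0, 0), (19, 0, 0, 0, 0), (22, 0, 0, 0, 0), (19, 0, 0, 0, 0), (23, 0, 0, 0, 0), (21, 0, 0, 0, 0), (23, 0, 0, 0, 0), (18, 0, 0, 0, 0), (21, 0, 0, 0, 0), (18, 0, 0, 0, 0)]]

def m5_7 : Base := (1, 1, [(0, [1], [0, 1]), (0, [1], [2, 3]), (0, [0], [4, 5]), (4, [], [5])])

def l5_7 : Cov := [(240, 1, 1, [(0, [1], [0, 1]), (0, [1], [2, 3]), (0, [0], [4, 5]), (4, [], [5])]),
  (240, 1, 1, [(0, [1], [0, 2]), (0, [1], [1, 3]), (0, [0], [4, 5]), (4, [], [5])]),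
  (240, 1, 1, [(0, [1], [0, 3]), (0, [1], [1, 2]), (0, [0], [4, 5]), (4, [], [5])]),
  (-240, 1, 1, [(0, [1], [1, 2]), (0, [1], [3, 4]), (0, [0], [0, 5]), (4, [], [5])]),
  (-240, 1, 1, [(0, [1], [1, 3]), (0, [1], [2, 4]), (0, [0], [0, 5]), (4, [], [5])]),
  (-240, 1, 1, [(0, [1], [1, 4]), (0, [1], [2, 3]), (0, [0], [0, 5]), (4, [], [5])])]

def z5_7 : Cov := [(0, 1, 1, [(0, [1], [0, 1]), (0, [1], [2, 4]), (0, [0], [3, 5]), (4, [], [5])]),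
  (0, 1, 1, [(0, [1], [0, 1]), (0, [1], [3, 4]), (0, [0], [2, 5]), (4, [], [5])]),
  (0, 1, 1, [(0, [1], [0, 2]), (0, [1], [1, 4]), (0, [0], [3, 5]), (4, [], [5])]),
  (0, 1, 1, [(0, [1], [0, 2]), (0, [1], [3, 4]), (0, [0], [1, 5]), (4, [], [5])]),
  (0, 1, 1, [(0, [1], [0, 3]), (0, [1], [1, 4]), (0, [0], [2, 5]), (4, [], [5])]),
  (0, 1, 1, [(0, [1], [0, 3]), (0, [1], [2, 4]), (0, [0], [1, 5]), (4, [], [5])]),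
  (0, 1, 1, [(0, [1], [0, 4]), (0, [1], [1, 2]), (0, [0], [3, 5]), (4, [], [5])]),
  (0, 1, 1, [(0, [1], [0, 4]), (0, [1], [1, 3]), (0, [0], [2, 5]), (4, [], [5])]),
  (0, 1, 1, [(0, [1], [0, 4]), (0, [1], [2, 3]), (0, [0], [1, 5]), (4, [], [5])])]

def w5_7 : List (List Wit) := [[(0, 0, 0, 0, 0), (6, 0, 0, 0, 0), (0, 0, 0, 0, 0), (7, 0, 0, 0, 0), (6, 0, 0, 0, 0), (7, 0, 0, 0, 0), (1, 0, 0, 0, 0), (8, 0, 0, 0, 0), (1, 0, 0, 0, 0), (9, 0, 0, 0, 0), (8, 0, 0, 0, 0), (9, 0, 0, 0, 0), (2, 0, 0, 0, 0), (10, 0, 0, 0, 0), (2, 0, 0, 0, 0), (11, 0, 0, 0, 0), (10, 0, 0, 0, 0), (11, 0, 0, 0, 0), (12, 0, 0, 0, 0), (13, 0, 0, 0, 0), (12, 0, 0, 0, 0), (14, 0, 0, 0, 0), (13, 0, 0, 0, 0), (14, 0, 0, 0, 0), (0, 0, 0, 0, 0), (0, 0, 0, 0, 0), (2, 0, 0, 0, 0), (2, 0, 0, 0, 0), (3, 0, 0, 0, 0), (3, 0, 0, 0, 0),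 (1, 0, 0, 0, 0), (1, 0, 0, 0, 0), (4, 0, 0, 0, 0), (4, 0, 0, 0, 0), (5, 0, 0, 0, 0), (5, 0, 0, 0, 0), (1, 0, 0, 0, 0), (1, 0, 0, 0, 0), (2, 0, 0, 0, 0), (2, 0, 0, 0, 0), (3, 0, 0, 0, 0), (3, 0, 0, 0, 0), (0, 0, 0, 0, 0), (0, 0, 0, 0, 0), (5, 0, 0, 0, 0), (5, 0, 0, 0, 0), (4, 0, 0, 0, 0), (4, 0, 0, 0, 0), (2, 0, 0, 0, 0), (2, 0, 0, 0, 0), (1, 0, 0, 0, 0), (1, 0, 0, 0, 0), (4, 0, 0, 0, 0), (4, 0, 0, 0, 0), (0, 0, 0, 0, 0), (0, 0, 0, 0, 0), (5, 0, 0, 0, 0), (5, 0, 0, 0, 0), (3, 0, 0, 0, 0), (3, 0, 0, 0, 0), (12, 0, 0, 0, 0), (13, 0, 0, 0, 0), (12, 0, 0, 0, 0), (14, 0, 0, 0, 0), (13, 0, 0, 0, 0), (14, 0, 0, 0, 0), (8, 0, 0, 0, 0), (10, 0, 0, 0, 0), (8, 0, 0, 0, 0), (5, 0, 0, 0, 0), (10, 0, 0, 0, 0), (5, 0, 0, 0, 0), (6, 0, 0, 0, 0), (11, 0, 0, 0, 0), (6, 0, 0, 0, 0), (4, 0, 0, 0, 0), (11, 0, 0,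 0, 0), (4, 0, 0, 0, 0), (7, 0, 0, 0, 0), (9, 0, 0, 0, 0), (7, 0, 0, 0, 0), (3, 0, 0, 0, 0), (9, 0, 0, 0, 0), (3, 0, 0, 0, 0)]]

def m5_8 : Base := (0, 1, [(0, [0], [0, 5]), (1, [], [1, 5]), (1, [], [2, 3]), (4, [], [4])])

def l5_8 : Cov := [(96, 0, 1, [(0, [0], [0, 5]), (1, [], [1, 5]), (1, [], [2, 3]), (4, [], [4])]),
  (48, 0, 1, [(0, [0], [0, 5]), (1, [], [1, 5]), (1, [], [2, 4]), (4, [], [3])]),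
  (48, 0, 1, [(0, [0], [0, 5]), (1, [], [1, 5]), (1, [], [3, 4]), (4, [], [2])]),
  (96, 0, 1, [(0, [0], [0, 5]), (1, [], [2, 5]), (1, [], [1, 3]), (4, [], [4])]),
  (48, 0, 1, [(0, [0], [0, 5]), (1, [], [2, 5]), (1, [], [1, 4]), (4, [], [3])]),
  (48, 0, 1, [(0, [0], [0, 5]), (1, [], [2, 5]), (1, [], [3, 4]), (4, [], [1])]),
  (96, 0, 1, [(0, [0], [0, 5]), (1, [], [3, 5]), (1, [], [1, 2]), (4, [], [4])]),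
  (48, 0, 1, [(0, [0], [0, 5]), (1, [], [3, 5]), (1, [], [1, 4]), (4, [], [2])]),
  (48, 0, 1, [(0, [0], [0, 5]), (1, [], [3, 5]), (1, [], [2, 4]), (4, [], [1])]),
  (48, 0, 1, [(0, [0], [0, 5]), (1, [], [4, 5]), (1, [], [1, 2]), (4, [], [3])]),
  (48, 0, 1, [(0, [0], [0, 5]), (1, [], [4, 5]), (1, [], [1, 3]), (4, [], [2])]),
  (48, 0, 1, [(0, [0], [0, 5]), (1, [], [4, 5]), (1, [], [2, 3]), (4, [], [1])]),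
  (48, 0, 1, [(0, [0], [1, 5]), (1, [], [0, 5]), (1, [], [2, 3]), (4, [], [4])]),
  (48, 0, 1, [(0, [0], [1, 5]), (1, [], [2, 5]), (1, [], [0, 3]), (4, [], [4])]),
  (-48, 0, 1, [(0, [0], [1, 5]), (1, [], [2, 5]), (1, [], [3, 4]), (4, [], [0])]),
  (48, 0, 1, [(0, [0], [1, 5]), (1, [], [3, 5]), (1, [], [0, 2]), (4, [], [4])]),
  (-48, 0, 1, [(0, [0], [1, 5]), (1, [], [3, 5]), (1, [], [2, 4]), (4, [], [0])]),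
  (-48, 0, 1, [(0, [0], [1, 5]), (1, [], [4, 5]), (1, [], [2, 3]), (4, [], [0])]),
  (48, 0, 1, [(0, [0], [2, 5]), (1, [], [0, 5]), (1, [], [1, 3]), (4, [], [4])]),
  (48, 0, 1, [(0, [0], [2, 5]), (1, [], [1, 5]), (1, [], [0, 3]), (4, [], [4])]),
  (-48, 0, 1, [(0, [0], [2, 5]), (1, [], [1, 5]), (1, [], [3, 4]), (4, [], [0])]),
  (48, 0, 1, [(0, [0], [2, 5]), (1, [], [3, 5]), (1, [], [0, 1]), (4, [], [4])]),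
  (-48, 0, 1, [(0, [0], [2, 5]), (1, [], [3, 5]), (1, [], [1, 4]), (4, [], [0])]),
  (-48, 0, 1, [(0, [0], [2, 5]), (1, [], [4, 5]), (1, [], [1, 3]), (4, [], [0])]),
  (48, 0, 1, [(0, [0], [3, 5]), (1, [], [0, 5]), (1, [], [1, 2]), (4, [], [4])]),
  (48, 0, 1, [(0, [0], [3, 5]), (1, [], [1, 5]), (1, [], [0, 2]), (4, [], [4])]),
  (-48, 0, 1, [(0, [0], [3, 5]), (1, [], [1, 5]), (1, [], [2, 4]), (4, [], [0])]),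
  (48, 0, 1, [(0, [0], [3, 5]), (1, [], [2, 5]), (1, [], [0, 1]), (4, [], [4])]),
  (-48, 0, 1, [(0, [0], [3, 5]), (1, [], [2, 5]), (1, [], [1, 4]), (4, [], [0])]),
  (-48, 0, 1, [(0, [0], [3, 5]), (1, [], [4, 5]), (1, [], [1, 2]), (4, [], [0])]),
  (-48, 0, 1, [(0, [0], [4, 5]), (1, [], [0, 5]), (1, [], [1, 2]), (4, [], [3])]),
  (-48, 0, 1, [(0, [0], [4, 5]), (1, [], [0, 5]), (1, [], [1, 3]), (4, [], [2])]),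
  (-48, 0, 1, [(0, [0], [4, 5]), (1, [], [0, 5]), (1, [], [2, 3]), (4, [], [1])]),
  (-48, 0, 1, [(0, [0], [4, 5]), (1, [], [1, 5]), (1, [], [0, 2]), (4, [], [3])]),
  (-48, 0, 1, [(0, [0], [4, 5]), (1, [], [1, 5]), (1, [], [0, 3]), (4, [], [2])]),
  (-96, 0, 1, [(0, [0], [4, 5]), (1, [], [1, 5]), (1, [], [2, 3]), (4, [], [0])]),
  (-48, 0, 1, [(0, [0], [4, 5]), (1, [], [2, 5]), (1, [], [0, 1]), (4, [], [3])]),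
  (-48, 0, 1, [(0, [0], [4, 5]), (1, [], [2, 5]), (1, [], [0, 3]), (4, [], [1])]),
  (-96, 0, 1, [(0, [0], [4, 5]), (1, [], [2, 5]), (1, [], [1, 3]), (4, [], [0])]),
  (-48, 0, 1, [(0, [0], [4, 5]), (1, [], [3, 5]), (1, [], [0, 1]), (4, [], [2])]),
  (-48, 0, 1, [(0, [0], [4, 5]), (1, [], [3, 5]), (1, [], [0, 2]), (4, [], [1])]),
  (-96, 0, 1, [(0, [0], [4, 5]), (1, [], [3, 5]), (1, [], [1, 2]), (4, [], [0])])]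

def z5_8 : Cov := []

def w5_8 : List (List Wit) := [[(0, 0, 0, 0, 0), (1, 0, 0, 0, 0), (0, 0, 0, 0, 0), (2, 0, 0, 0, 0), (1, 0, 0, 0, 0), (2, 0, 0, 0, 0), (3, 0, 0, 0, 0), (4, 0, 0, 0, 0), (3, 0, 0, 0, 0), (5, 0, 0, 0, 0), (4, 0, 0, 0, 0), (5, 0, 0, 0, 0), (6, 0, 0, 0, 0), (7, 0, 0, 0, 0), (6, 0, 0, 0, 0), (8, 0, 0, 0, 0), (7, 0, 0, 0, 0), (8, 0, 0, 0, 0), (9, 0, 0, 0, 0), (10, 0, 0, 0, 0), (9, 0, 0, 0, 0), (11, 0, 0, 0, 0), (10, 0, 0, 0, 0), (11, 0, 0, 0, 0), (12, 0, 0, 0, 0), (12, 0, 0, 0, 0), (13, 0, 0, 0, 0), (13, 0, 0, 0, 0), (14, 0, 0, 0, 0), (14, 0, 0, 0, 0), (15, 0, 0, 0, 0), (15, 0, 0, 0, 0), (16, 0, 0, 0, 0), (16, 0, 0, 0, 0), (17, 0, 0, 0, 0), (17, 0, 0, 0, 0), (18, 0, 0, 0, 0), (18, 0, 0, 0, 0), (19, 0, 0, 0, 0), (19, 0, 0, 0, 0), (20, 0, 0, 0, 0), (20, 0, 0, 0, 0), (21, 0, 0,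 0, 0), (21, 0, 0, 0, 0), (22, 0, 0, 0, 0), (22, 0, 0, 0, 0), (23, 0, 0, 0, 0), (23, 0, 0, 0, 0), (24, 0, 0, 0, 0), (24, 0, 0, 0, 0), (25, 0, 0, 0, 0), (25, 0, 0, 0, 0), (26, 0, 0, 0, 0), (26, 0, 0, 0, 0), (27, 0, 0, 0, 0), (27, 0, 0, 0, 0), (28, 0, 0, 0, 0), (28, 0, 0, 0, 0), (29, 0, 0, 0, 0), (29, 0, 0, 0, 0), (30, 0, 0, 0, 0), (31, 0, 0, 0, 0), (30, 0, 0, 0, 0), (32, 0, 0, 0, 0), (31, 0, 0, 0, 0), (32, 0, 0, 0, 0), (33, 0, 0, 0, 0), (34, 0, 0, 0, 0), (33, 0, 0, 0, 0), (35, 0, 0, 0, 0), (34, 0, 0, 0, 0), (35, 0, 0, 0, 0), (36, 0, 0, 0, 0), (37, 0, 0, 0, 0), (36, 0, 0, 0, 0), (38, 0, 0, 0, 0), (37, 0, 0, 0, 0), (38, 0, 0, 0, 0), (39, 0, 0, 0, 0), (40, 0, 0, 0, 0), (39, 0, 0, 0, 0), (41, 0, 0, 0, 0), (40, 0, 0, 0, 0), (41, 0, 0, 0, 0)]]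

def m5_9 : Base := (0, 1, [(0, [0], [0, 5]), (1, [], [1, 5]), (1, [], [2, 4]), (4, [], [3])])

def l5_9 : Cov := [(72, 0, 1, [(0, [0], [0, 5]), (1, [], [1, 5]), (1, [], [2, 4]), (4, [], [3])]),
  (48, 0, 1, [(0, [0], [0, 5]), (1, [], [1, 5]), (1, [], [2, 3]), (4, [], [4])]),
  (72, 0, 1, [(0, [0], [0, 5]), (1, [], [1, 5]), (1, [], [3, 4]), (4, [], [2])]),
  (72, 0, 1, [(0, [0], [0, 5]), (1, [], [2, 5]), (1, [], [1, 4]), (4, [], [3])]),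
  (48, 0, 1, [(0, [0], [0, 5]), (1, [], [2, 5]), (1, [], [1, 3]), (4, [], [4])]),
  (72, 0, 1, [(0, [0], [0, 5]), (1, [], [2, 5]), (1, [], [3, 4]), (4, [], [1])]),
  (72, 0, 1, [(0, [0], [0, 5]), (1, [], [3, 5]), (1, [], [1, 4]), (4, [], [2])]),
  (48, 0, 1, [(0, [0], [0, 5]), (1, [], [3, 5]), (1, [], [1, 2]), (4, [], [4])]),
  (72, 0, 1, [(0, [0], [0, 5]), (1, [], [3, 5]), (1, [], [2, 4]), (4, [], [1])]),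
  (48, 0, 1, [(0, [0], [0, 5]), (1, [], [4, 5]), (1, [], [1, 3]), (4, [], [2])]),
  (48, 0, 1, [(0, [0], [0, 5]), (1, [], [4, 5]), (1, [], [1, 2]), (4, [], [3])]),
  (48, 0, 1, [(0, [0], [0, 5]), (1, [], [4, 5]), (1, [], [2, 3]), (4, [], [1])]),
  (24, 0, 1, [(0, [0], [1, 5]), (1, [], [0, 5]), (1, [], [2, 4]), (4, [], [3])]),
  (24, 0, 1, [(0, [0], [1, 5]), (1, [], [0, 5]), (1, [], [3, 4]), (4, [], [2])]),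
  (24, 0, 1, [(0, [0], [1, 5]), (1, [], [2, 5]), (1, [], [3, 4]), (4, [], [0])]),
  (-24, 0, 1, [(0, [0], [1, 5]), (1, [], [2, 5]), (1, [], [3, 0]), (4, [], [4])]),
  (24, 0, 1, [(0, [0], [1, 5]), (1, [], [3, 5]), (1, [], [2, 4]), (4, [], [0])]),
  (-24, 0, 1, [(0, [0], [1, 5]), (1, [], [3, 5]), (1, [], [2, 0]), (4, [], [4])]),
  (-24, 0, 1, [(0, [0], [1, 5]), (1, [], [4, 5]), (1, [], [2, 0]), (4, [], [3])]),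
  (-24, 0, 1, [(0, [0], [1, 5]), (1, [], [4, 5]), (1, [], [3, 0]), (4, [], [2])]),
  (24, 0, 1, [(0, [0], [2, 5]), (1, [], [0, 5]), (1, [], [1, 4]), (4, [], [3])]),
  (24, 0, 1, [(0, [0], [2, 5]), (1, [], [0, 5]), (1, [], [3, 4]), (4, [], [1])]),
  (24, 0, 1, [(0, [0], [2, 5]), (1, [], [1, 5]), (1, [], [3, 4]), (4, [], [0])]),
  (-24, 0, 1, [(0, [0], [2, 5]), (1, [], [1, 5]), (1, [], [3, 0]), (4, [], [4])]),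
  (24, 0, 1, [(0, [0], [2, 5]), (1, [], [3, 5]), (1, [], [1, 4]), (4, [], [0])]),
  (-24, 0, 1, [(0, [0], [2, 5]), (1, [], [3, 5]), (1, [], [1, 0]), (4, [], [4])]),
  (-24, 0, 1, [(0, [0], [2, 5]), (1, [], [4, 5]), (1, [], [1, 0]), (4, [], [3])]),
  (-24, 0, 1, [(0, [0], [2, 5]), (1, [], [4, 5]), (1, [], [3, 0]), (4, [], [1])]),
  (24, 0, 1, [(0, [0], [3, 5]), (1, [], [0, 5]), (1, [], [1, 4]), (4, [], [2])]),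
  (24, 0, 1, [(0, [0], [3, 5]), (1, [], [0, 5]), (1, [], [2, 4]), (4, [], [1])]),
  (24, 0, 1, [(0, [0], [3, 5]), (1, [], [1, 5]), (1, [], [2, 4]), (4, [], [0])]),
  (-24, 0, 1, [(0, [0], [3, 5]), (1, [], [1, 5]), (1, [], [2, 0]), (4, [], [4])]),
  (24, 0, 1, [(0, [0], [3, 5]), (1, [], [2, 5]), (1, [], [1, 4]), (4, [], [0])]),
  (-24, 0, 1, [(0, [0], [3, 5]), (1, [], [2, 5]), (1, [], [1, 0]), (4, [], [4])]),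
  (-24, 0, 1, [(0, [0], [3, 5]), (1, [], [4, 5]), (1, [], [1, 0]), (4, [], [2])]),
  (-24, 0, 1, [(0, [0], [3, 5]), (1, [], [4, 5]), (1, [], [2, 0]), (4, [], [1])]),
  (-48, 0, 1, [(0, [0], [4, 5]), (1, [], [0, 5]), (1, [], [1, 3]), (4, [], [2])]),
  (-48, 0, 1, [(0, [0], [4, 5]), (1, [], [0, 5]), (1, [], [1, 2]), (4, [], [3])]),
  (-48, 0, 1, [(0, [0], [4, 5]), (1, [], [0, 5]), (1, [], [2, 3]), (4, [], [1])]),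
  (-72, 0, 1, [(0, [0], [4, 5]), (1, [], [1, 5]), (1, [], [0, 3]), (4, [], [2])]),
  (-72, 0, 1, [(0, [0], [4, 5]), (1, [], [1, 5]), (1, [], [0, 2]), (4, [], [3])]),
  (-48, 0, 1, [(0, [0], [4, 5]), (1, [], [1, 5]), (1, [], [2, 3]), (4, [], [0])]),
  (-72, 0, 1, [(0, [0], [4, 5]), (1, [], [2, 5]), (1, [], [0, 3]), (4, [], [1])]),
  (-72, 0, 1, [(0, [0], [4, 5]), (1, [], [2, 5]), (1, [], [0, 1]), (4, [], [3])]),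
  (-48, 0, 1, [(0, [0], [4, 5]), (1, [], [2, 5]), (1, [], [1, 3]), (4, [], [0])]),
  (-72, 0, 1, [(0, [0], [4, 5]), (1, [], [3, 5]), (1, [], [0, 2]), (4, [], [1])]),
  (-72, 0, 1, [(0, [0], [4, 5]), (1, [], [3, 5]), (1, [], [0, 1]), (4, [], [2])]),
  (-48, 0, 1, [(0, [0], [4, 5]), (1, [], [3, 5]), (1, [], [1, 2]), (4, [], [0])])]

def z5_9 : Cov := [(0, 0, 1, [(0, [0], [1, 5]), (1, [], [2, 5]), (1, [], [0, 4]), (4, [], [3])]),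
  (0, 0, 1, [(0, [0], [1, 5]), (1, [], [3, 5]), (1, [], [0, 4]), (4, [], [2])]),
  (0, 0, 1, [(0, [0], [2, 5]), (1, [], [1, 5]), (1, [], [0, 4]), (4, [], [3])]),
  (0, 0, 1, [(0, [0], [2, 5]), (1, [], [3, 5]), (1, [], [0, 4]), (4, [], [1])]),
  (0, 0, 1, [(0, [0], [3, 5]), (1, [], [1, 5]), (1, [], [0, 4]), (4, [], [2])]),
  (0, 0, 1, [(0, [0], [3, 5]), (1, [], [2, 5]), (1, [], [0, 4]), (4, [], [1])])]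

def w5_9 : List (List Wit) := [[(0, 0, 0, 0, 0), (1, 0, 0, 0, 0), (2, 0, 0, 0, 0), (1, 0, 0, 0, 0), (2, 0, 0, 0, 0), (0, 0, 0, 0, 0), (3, 0, 0, 0, 0), (4, 0, 0, 0, 0), (5, 0, 0, 0, 0), (4, 0, 0, 0, 0), (5, 0, 0, 0, 0), (3, 0, 0, 0, 0), (6, 0, 0, 0, 0), (7, 0, 0, 0, 0), (8, 0, 0, 0, 0), (7, 0, 0, 0, 0), (8, 0, 0, 0, 0), (6, 0, 0, 0, 0), (9, 0, 0, 0, 0), (10, 0, 0, 0, 0), (11, 0, 0, 0, 0), (10, 0, 0, 0, 0), (11, 0, 0, 0, 0), (9, 0, 0, 0, 0), (12, 0, 0, 0, 0), (13, 0, 0, 0, 0), (48, 0, 0, 0, 0), (14, 0, 0, 0, 0), (15, 0, 0, 0, 0), (48, 0, 0, 0, 0), (49, 0, 0, 0, 0), (16, 0, 0, 0, 0), (17, 0, 0, 0, 0), (49, 0, 0, 0, 0), (18, 0, 0, 0, 0), (19, 0, 0, 0, 0), (20, 0, 0, 0, 0), (21, 0, 0, 0, 0), (50, 0, 0, 0, 0), (22, 0, 0, 0, 0), (23, 0, 0, 0, 0), (50, 0, 0, 0, 0), (51, 0, 0, 0, 0), (24, 0, 0, 0, 0),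 (25, 0, 0, 0, 0), (51, 0, 0, 0, 0), (26, 0, 0, 0, 0), (27, 0, 0, 0, 0), (28, 0, 0, 0, 0), (29, 0, 0, 0, 0), (52, 0, 0, 0, 0), (30, 0, 0, 0, 0), (31, 0, 0, 0, 0), (52, 0, 0, 0, 0), (53, 0, 0, 0, 0), (32, 0, 0, 0, 0), (33, 0, 0, 0, 0), (53, 0, 0, 0, 0), (34, 0, 0, 0, 0), (35, 0, 0, 0, 0), (36, 0, 0, 0, 0), (37, 0, 0, 0, 0), (38, 0, 0, 0, 0), (37, 0, 0, 0, 0), (38, 0, 0, 0, 0), (36, 0, 0, 0, 0), (39, 0, 0, 0, 0), (40, 0, 0, 0, 0), (41, 0, 0, 0, 0), (40, 0, 0, 0, 0), (41, 0, 0, 0, 0), (39, 0, 0, 0, 0), (42, 0, 0, 0, 0), (43, 0, 0, 0, 0), (44, 0, 0, 0, 0), (43, 0, 0, 0, 0), (44, 0, 0, 0, 0), (42, 0, 0, 0, 0), (45, 0, 0, 0, 0), (46, 0, 0, 0, 0), (47, 0, 0, 0, 0), (46, 0, 0, 0, 0), (47, 0, 0, 0, 0), (45, 0, 0, 0, 0)]]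

def m5_10 : Base := (0, 1, [(0, [0], [0, 5]), (1, [], [1, 2]), (1, [], [3, 4]), (4, [], [5])])

def l5_10 : Cov := [(240, 0, 1, [(0, [0], [0, 5]), (1, [], [1, 2]), (1, [], [3, 4]), (4, [], [5])]),
  (240, 0, 1, [(0, [0], [0, 5]), (1, [], [1, 3]), (1, [], [2, 4]), (4, [], [5])]),
  (240, 0, 1, [(0, [0], [0, 5]), (1, [], [1, 4]), (1, [], [2, 3]), (4, [], [5])]),
  (-240, 0, 1, [(0, [0], [4, 5]), (1, [], [0, 1]), (1, [], [2, 3]), (4, [], [5])]),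
  (-240, 0, 1, [(0, [0], [4, 5]), (1, [], [0, 2]), (1, [], [1, 3]), (4, [], [5])]),
  (-240, 0, 1, [(0, [0], [4, 5]), (1, [], [0, 3]), (1, [], [1, 2]), (4, [], [5])])]

def z5_10 : Cov := [(0, 0, 1, [(0, [0], [1, 5]), (1, [], [0, 2]), (1, [], [3, 4]), (4, [], [5])]),
  (0, 0, 1, [(0, [0], [1, 5]), (1, [], [0, 3]), (1, [], [2, 4]), (4, [], [5])]),
  (0, 0, 1, [(0, [0], [1, 5]), (1, [], [2, 3]), (1, [], [0, 4]), (4, [], [5])]),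
  (0, 0, 1, [(0, [0], [2, 5]), (1, [], [0, 1]), (1, [], [3, 4]), (4, [], [5])]),
  (0, 0, 1, [(0, [0], [2, 5]), (1, [], [0, 3]), (1, [], [1, 4]), (4, [], [5])]),
  (0, 0, 1, [(0, [0], [2, 5]), (1, [], [1, 3]), (1, [], [0, 4]), (4, [], [5])]),
  (0, 0, 1, [(0, [0], [3, 5]), (1, [], [0, 1]), (1, [], [2, 4]), (4, [], [5])]),
  (0, 0, 1, [(0, [0], [3, 5]), (1, [], [0, 2]), (1, [], [1, 4]), (4, [], [5])]),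
  (0, 0, 1, [(0, [0], [3, 5]), (1, [], [1, 2]), (1, [], [0, 4]), (4, [], [5])])]

def w5_10 : List (List Wit) := [[(0, 0, 0, 0, 0), (0, 0, 0, 0, 0), (1, 0, 0, 0, 0), (1, 0, 0, 0, 0), (2, 0, 0, 0, 0), (2, 0, 0, 0, 0), (0, 0, 0, 0, 0), (0, 0, 0, 0, 0), (2, 0, 0, 0, 0), (2, 0, 0, 0, 0), (1, 0, 0, 0, 0), (1, 0, 0, 0, 0), (1, 0, 0, 0, 0), (1, 0, 0, 0, 0), (2, 0, 0, 0, 0), (2, 0, 0, 0, 0), (0, 0, 0, 0, 0), (0, 0, 0, 0, 0), (2, 0, 0, 0, 0), (2, 0, 0, 0, 0), (1, 0, 0, 0, 0), (1, 0, 0, 0, 0), (0, 0, 0, 0, 0), (0, 0, 0, 0, 0), (6, 0, 0, 0, 0), (7, 0, 0, 0, 0), (6, 0, 0, 0, 0), (8, 0, 0, 0, 0), (8, 0, 0, 0, 0), (7, 0, 0, 0, 0), (7, 0, 0, 0, 0), (8, 0, 0, 0, 0), (8, 0, 0, 0, 0), (6, 0, 0, 0, 0), (7, 0, 0, 0, 0), (6, 0, 0, 0, 0), (9, 0, 0, 0, 0), (10, 0, 0, 0, 0), (9, 0, 0, 0, 0), (11, 0, 0, 0, 0), (11,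 0, 0, 0, 0), (10, 0, 0, 0, 0), (10, 0, 0, 0, 0), (11, 0, 0, 0, 0), (11, 0, 0, 0, 0), (9, 0, 0, 0, 0), (10, 0, 0, 0, 0), (9, 0, 0, 0, 0), (12, 0, 0, 0, 0), (13, 0, 0, 0, 0), (12, 0, 0, 0, 0), (14, 0, 0, 0, 0), (14, 0, 0, 0, 0), (13, 0, 0, 0, 0), (13, 0, 0, 0, 0), (14, 0, 0, 0, 0), (14, 0, 0, 0, 0), (12, 0, 0, 0, 0), (13, 0, 0, 0, 0), (12, 0, 0, 0, 0), (3, 0, 0, 0, 0), (3, 0, 0, 0, 0), (4, 0, 0, 0, 0), (4, 0, 0, 0, 0), (5, 0, 0, 0, 0), (5, 0, 0, 0, 0), (3, 0, 0, 0, 0), (3, 0, 0, 0, 0), (5, 0, 0, 0, 0), (5, 0, 0, 0, 0), (4, 0, 0, 0, 0), (4, 0, 0, 0, 0), (4, 0, 0, 0, 0), (4, 0, 0, 0, 0), (5, 0, 0, 0, 0), (5, 0, 0, 0, 0), (3, 0, 0, 0, 0), (3, 0, 0, 0, 0), (5, 0, 0, 0, 0), (5, 0, 0, 0, 0), (4, 0, 0, 0, 0), (4, 0, 0, 0, 0), (3, 0, 0, 0, 0), (3, 0, 0, 0, 0)]]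

def m5_11 : Base := (0, 1, [(0, [0], [0, 5]), (1, [], [1, 2]), (1, [], [4, 5]), (4, [], [3])])

def l5_11 : Cov := [(96, 0, 1, [(0, [0], [0, 5]), (1, [], [1, 2]), (1, [], [4, 5]), (4, [], [3])]),
  (48, 0, 1, [(0, [0], [0, 5]), (1, [], [1, 2]), (1, [], [3, 5]), (4, [], [4])]),
  (96, 0, 1, [(0, [0], [0, 5]), (1, [], [1, 3]), (1, [], [4, 5]), (4, [], [2])]),
  (48, 0, 1, [(0, [0], [0, 5]), (1, [], [1, 3]), (1, [], [2, 5]), (4, [], [4])]),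
  (48, 0, 1, [(0, [0], [0, 5]), (1, [], [1, 4]), (1, [], [3, 5]), (4, [], [2])]),
  (48, 0, 1, [(0, [0], [0, 5]), (1, [], [1, 4]), (1, [], [2, 5]), (4, [], [3])]),
  (96, 0, 1, [(0, [0], [0, 5]), (1, [], [2, 3]), (1, [], [4, 5]), (4, [], [1])]),
  (48, 0, 1, [(0, [0], [0, 5]), (1, [], [2, 3]), (1, [], [1, 5]), (4, [], [4])]),
  (48, 0, 1, [(0, [0], [0, 5]), (1, [], [2, 4]), (1, [], [3, 5]), (4, [], [1])]),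
  (48, 0, 1, [(0, [0], [0, 5]), (1, [], [2, 4]), (1, [], [1, 5]), (4, [], [3])]),
  (48, 0, 1, [(0, [0], [0, 5]), (1, [], [3, 4]), (1, [], [2, 5]), (4, [], [1])]),
  (48, 0, 1, [(0, [0], [0, 5]), (1, [], [3, 4]), (1, [], [1, 5]), (4, [], [2])]),
  (48, 0, 1, [(0, [0], [1, 5]), (1, [], [0, 2]), (1, [], [4, 5]), (4, [], [3])]),
  (48, 0, 1, [(0, [0], [1, 5]), (1, [], [0, 3]), (1, [], [4, 5]), (4, [], [2])]),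
  (48, 0, 1, [(0, [0], [1, 5]), (1, [], [2, 3]), (1, [], [4, 5]), (4, [], [0])]),
  (-48, 0, 1, [(0, [0], [1, 5]), (1, [], [2, 3]), (1, [], [0, 5]), (4, [], [4])]),
  (-48, 0, 1, [(0, [0], [1, 5]), (1, [], [2, 4]), (1, [], [0, 5]), (4, [], [3])]),
  (-48, 0, 1, [(0, [0], [1, 5]), (1, [], [3, 4]), (1, [], [0, 5]), (4, [], [2])]),
  (48, 0, 1, [(0, [0], [2, 5]), (1, [], [0, 1]), (1, [], [4, 5]), (4, [], [3])]),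
  (48, 0, 1, [(0, [0], [2, 5]), (1, [], [0, 3]), (1, [], [4, 5]), (4, [], [1])]),
  (48, 0, 1, [(0, [0], [2, 5]), (1, [], [1, 3]), (1, [], [4, 5]), (4, [], [0])]),
  (-48, 0, 1, [(0, [0], [2, 5]), (1, [], [1, 3]), (1, [], [0, 5]), (4, [], [4])]),
  (-48, 0, 1, [(0, [0], [2, 5]), (1, [], [1, 4]), (1, [], [0, 5]), (4, [], [3])]),
  (-48, 0, 1, [(0, [0], [2, 5]), (1, [], [3, 4]), (1, [], [0, 5]), (4, [], [1])]),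
  (48, 0, 1, [(0, [0], [3, 5]), (1, [], [0, 1]), (1, [], [4, 5]), (4, [], [2])]),
  (48, 0, 1, [(0, [0], [3, 5]), (1, [], [0, 2]), (1, [], [4, 5]), (4, [], [1])]),
  (48, 0, 1, [(0, [0], [3, 5]), (1, [], [1, 2]), (1, [], [4, 5]), (4, [], [0])]),
  (-48, 0, 1, [(0, [0], [3, 5]), (1, [], [1, 2]), (1, [], [0, 5]), (4, [], [4])]),
  (-48, 0, 1, [(0, [0], [3, 5]), (1, [], [1, 4]), (1, [], [0, 5]), (4, [], [2])]),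
  (-48, 0, 1, [(0, [0], [3, 5]), (1, [], [2, 4]), (1, [], [0, 5]), (4, [], [1])]),
  (-48, 0, 1, [(0, [0], [4, 5]), (1, [], [0, 1]), (1, [], [3, 5]), (4, [], [2])]),
  (-48, 0, 1, [(0, [0], [4, 5]), (1, [], [0, 1]), (1, [], [2, 5]), (4, [], [3])]),
  (-48, 0, 1, [(0, [0], [4, 5]), (1, [], [0, 2]), (1, [], [3, 5]), (4, [], [1])]),
  (-48, 0, 1, [(0, [0], [4, 5]), (1, [], [0, 2]), (1, [], [1, 5]), (4, [], [3])]),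
  (-48, 0, 1, [(0, [0], [4, 5]), (1, [], [0, 3]), (1, [], [2, 5]), (4, [], [1])]),
  (-48, 0, 1, [(0, [0], [4, 5]), (1, [], [0, 3]), (1, [], [1, 5]), (4, [], [2])]),
  (-48, 0, 1, [(0, [0], [4, 5]), (1, [], [1, 2]), (1, [], [3, 5]), (4, [], [0])]),
  (-96, 0, 1, [(0, [0], [4, 5]), (1, [], [1, 2]), (1, [], [0, 5]), (4, [], [3])]),
  (-48, 0, 1, [(0, [0], [4, 5]), (1, [], [1, 3]), (1, [], [2, 5]), (4, [], [0])]),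
  (-96, 0, 1, [(0, [0], [4, 5]), (1, [], [1, 3]), (1, [], [0, 5]), (4, [], [2])]),
  (-48, 0, 1, [(0, [0], [4, 5]), (1, [], [2, 3]), (1, [], [1, 5]), (4, [], [0])]),
  (-96, 0, 1, [(0, [0], [4, 5]), (1, [], [2, 3]), (1, [], [0, 5]), (4, [], [1])])]

def z5_11 : Cov := []

def w5_11 : List (List Wit) := [[(0, 0, 0, 0, 0), (1, 0, 0, 0, 0), (2, 0, 0, 0, 0), (3, 0, 0, 0, 0), (4, 0, 0, 0, 0), (5, 0, 0, 0, 0), (0, 0, 0, 0, 0), (1, 0, 0, 0, 0), (6, 0, 0, 0, 0), (7, 0, 0, 0, 0), (8, 0, 0, 0, 0), (9, 0, 0, 0, 0), (2, 0, 0, 0, 0), (3, 0, 0, 0, 0), (6, 0, 0, 0, 0), (7, 0, 0, 0, 0), (10, 0, 0, 0, 0), (11, 0, 0, 0, 0), (4, 0, 0, 0, 0), (5, 0, 0, 0, 0), (8, 0, 0, 0, 0), (9, 0, 0, 0, 0), (10, 0, 0, 0, 0), (11, 0, 0, 0, 0), (12, 0, 0, 0, 0), (13, 0, 0, 0, 0), (12, 0, 0, 0, 0), (14, 0, 0, 0, 0), (15, 0, 0, 0,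 0), (16, 0, 0, 0, 0), (13, 0, 0, 0, 0), (14, 0, 0, 0, 0), (15, 0, 0, 0, 0), (17, 0, 0, 0, 0), (16, 0, 0, 0, 0), (17, 0, 0, 0, 0), (18, 0, 0, 0, 0), (19, 0, 0, 0, 0), (18, 0, 0, 0, 0), (20, 0, 0, 0, 0), (21, 0, 0, 0, 0), (22, 0, 0, 0, 0), (19, 0, 0, 0, 0), (20, 0, 0, 0, 0), (21, 0, 0, 0, 0), (23, 0, 0, 0, 0), (22, 0, 0, 0, 0), (23, 0, 0, 0, 0), (24, 0, 0, 0, 0), (25, 0, 0, 0, 0), (24, 0, 0, 0, 0), (26, 0, 0, 0, 0), (27, 0, 0, 0, 0), (28, 0, 0, 0, 0), (25, 0, 0, 0, 0), (26, 0, 0, 0, 0), (27, 0, 0, 0, 0), (29, 0, 0, 0, 0), (28, 0, 0, 0, 0), (29, 0, 0, 0, 0), (30, 0, 0, 0, 0), (31, 0, 0, 0, 0), (32, 0, 0, 0, 0), (33, 0, 0, 0, 0), (34, 0, 0, 0, 0), (35, 0, 0, 0, 0), (30, 0, 0, 0, 0), (31, 0, 0, 0, 0), (36, 0, 0, 0, 0), (37, 0, 0, 0, 0), (38, 0, 0, 0, 0), (39, 0, 0, 0, 0), (32, 0, 0, 0, 0), (33, 0,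 0, 0, 0), (36, 0, 0, 0, 0), (37, 0, 0, 0, 0), (40, 0, 0, 0, 0), (41, 0, 0, 0, 0), (34, 0, 0, 0, 0), (35, 0, 0, 0, 0), (38, 0, 0, 0, 0), (39, 0, 0, 0, 0), (40, 0, 0, 0, 0), (41, 0, 0, 0, 0)]]

def m5_12 : Base := (0, 1, [(0, [0], [0, 1]), (1, [], [2, 5]), (1, [], [3, 4]), (4, [], [5])])

def l5_12 : Cov := [(96, 0, 1, [(0, [0], [0, 1]), (1, [], [2, 5]), (1, [], [3, 4]), (4, [], [5])]),
  (96, 0, 1, [(0, [0], [0, 1]), (1, [], [3, 5]), (1, [], [2, 4]), (4, [], [5])]),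
  (48, 0, 1, [(0, [0], [0, 1]), (1, [], [4, 5]), (1, [], [2, 3]), (4, [], [5])]),
  (96, 0, 1, [(0, [0], [0, 2]), (1, [], [1, 5]), (1, [], [3, 4]), (4, [], [5])]),
  (96, 0, 1, [(0, [0], [0, 2]), (1, [], [3, 5]), (1, [], [1, 4]), (4, [], [5])]),
  (48, 0, 1, [(0, [0], [0, 2]), (1, [], [4, 5]), (1, [], [1, 3]), (4, [], [5])]),
  (96, 0, 1, [(0, [0], [0, 3]), (1, [], [1, 5]), (1, [], [2, 4]), (4, [], [5])]),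
  (96, 0, 1, [(0, [0], [0, 3]), (1, [], [2, 5]), (1, [], [1, 4]), (4, [], [5])]),
  (48, 0, 1, [(0, [0], [0, 3]), (1, [], [4, 5]), (1, [], [1, 2]), (4, [], [5])]),
  (48, 0, 1, [(0, [0], [1, 2]), (1, [], [0, 5]), (1, [], [3, 4]), (4, [], [5])]),
  (-48, 0, 1, [(0, [0], [1, 2]), (1, [], [4, 5]), (1, [], [3, 0]), (4, [], [5])]),
  (48, 0, 1, [(0, [0], [1, 3]), (1, [], [0, 5]), (1, [], [2, 4]), (4, [], [5])]),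
  (-48, 0, 1, [(0, [0], [1, 3]), (1, [], [4, 5]), (1, [], [2, 0]), (4, [], [5])]),
  (-96, 0, 1, [(0, [0], [1, 4]), (1, [], [2, 5]), (1, [], [3, 0]), (4, [], [5])]),
  (-96, 0, 1, [(0, [0], [1, 4]), (1, [], [3, 5]), (1, [], [2, 0]), (4, [], [5])]),
  (48, 0, 1, [(0, [0], [2, 3]), (1, [], [0, 5]), (1, [], [1, 4]), (4, [], [5])]),
  (-48, 0, 1, [(0, [0], [2, 3]), (1, [], [4, 5]), (1, [], [1, 0]), (4, [], [5])]),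
  (-96, 0, 1, [(0, [0], [2, 4]), (1, [], [1, 5]), (1, [], [3, 0]), (4, [], [5])]),
  (-96, 0, 1, [(0, [0], [2, 4]), (1, [], [3, 5]), (1, [], [1, 0]), (4, [], [5])]),
  (-96, 0, 1, [(0, [0], [3, 4]), (1, [], [1, 5]), (1, [], [2, 0]), (4, [], [5])]),
  (-96, 0, 1, [(0, [0], [3, 4]), (1, [], [2, 5]), (1, [], [1, 0]), (4, [], [5])]),
  (-48, 0, 1, [(0, [0], [4, 1]), (1, [], [0, 5]), (1, [], [2, 3]), (4, [], [5])]),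
  (-48, 0, 1, [(0, [0], [4, 2]), (1, [], [0, 5]), (1, [], [1, 3]), (4, [], [5])]),
  (-48, 0, 1, [(0, [0], [4, 3]), (1, [], [0, 5]), (1, [], [1, 2]), (4, [], [5])])]

def z5_12 : Cov := [(0, 0, 1, [(0, [0], [0, 4]), (1, [], [1, 5]), (1, [], [2, 3]), (4, [], [5])]),
  (0, 0, 1, [(0, [0], [0, 4]), (1, [], [2, 5]), (1, [], [1, 3]), (4, [], [5])]),
  (0, 0, 1, [(0, [0], [0, 4]), (1, [], [3, 5]), (1, [], [1, 2]), (4, [], [5])]),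
  (0, 0, 1, [(0, [0], [1, 2]), (1, [], [3, 5]), (1, [], [0, 4]), (4, [], [5])]),
  (0, 0, 1, [(0, [0], [1, 3]), (1, [], [2, 5]), (1, [], [0, 4]), (4, [], [5])]),
  (0, 0, 1, [(0, [0], [2, 3]), (1, [], [1, 5]), (1, [], [0, 4]), (4, [], [5])])]

def w5_12 : List (List Wit) := [[(0, 0, 0, 0, 0), (0, 0, 0, 0, 0), (1, 0, 0, 0, 0), (1, 0, 0, 0, 0), (2, 0, 0, 0, 0), (2, 0, 0, 0, 0), (3, 0, 0, 0, 0), (3, 0, 0, 0, 0), (4, 0, 0, 0, 0), (4, 0, 0, 0, 0), (5, 0, 0, 0, 0), (5, 0, 0, 0, 0), (6, 0, 0, 0, 0), (6, 0, 0, 0, 0), (7, 0, 0, 0, 0), (7, 0, 0, 0, 0), (8, 0, 0, 0, 0), (8, 0, 0, 0, 0), (24, 0, 0, 0, 0), (24, 0, 0, 0, 0), (25, 0, 0, 0, 0), (25, 0, 0, 0, 0), (26, 0, 0, 0, 0), (26, 0, 0, 0, 0), (0, 0, 0, 0, 0), (1, 0, 0, 0, 0), (9, 0, 0, 0, 0), (27, 0, 0, 0, 0), (27, 0, 0, 0, 0), (10, 0, 0, 0, 0), (11, 0,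 0, 0, 0), (28, 0, 0, 0, 0), (28, 0, 0, 0, 0), (12, 0, 0, 0, 0), (13, 0, 0, 0, 0), (14, 0, 0, 0, 0), (3, 0, 0, 0, 0), (4, 0, 0, 0, 0), (9, 0, 0, 0, 0), (27, 0, 0, 0, 0), (27, 0, 0, 0, 0), (10, 0, 0, 0, 0), (15, 0, 0, 0, 0), (29, 0, 0, 0, 0), (29, 0, 0, 0, 0), (16, 0, 0, 0, 0), (17, 0, 0, 0, 0), (18, 0, 0, 0, 0), (6, 0, 0, 0, 0), (7, 0, 0, 0, 0), (11, 0, 0, 0, 0), (28, 0, 0, 0, 0), (28, 0, 0, 0, 0), (12, 0, 0, 0, 0), (15, 0, 0, 0, 0), (29, 0, 0, 0, 0), (29, 0, 0, 0, 0), (16, 0, 0, 0, 0), (19, 0, 0, 0, 0), (20, 0, 0, 0, 0), (24, 0, 0, 0, 0), (24, 0, 0, 0, 0), (25, 0, 0, 0, 0), (25, 0, 0, 0, 0), (26, 0, 0, 0, 0), (26, 0, 0, 0, 0), (21, 0, 0, 0, 0), (21, 0, 0, 0, 0), (13, 0, 0, 0, 0), (13, 0, 0, 0, 0), (14, 0, 0, 0, 0), (14, 0, 0, 0, 0), (22, 0, 0, 0, 0), (22, 0, 0, 0, 0), (17, 0, 0, 0, 0), (17,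 0, 0, 0, 0), (18, 0, 0, 0, 0), (18, 0, 0, 0, 0), (23, 0, 0, 0, 0), (23, 0, 0, 0, 0), (19, 0, 0, 0, 0), (19, 0, 0, 0, 0), (20, 0, 0, 0, 0), (20, 0, 0, 0, 0)]]

def m5_13 : Base := (0, 1, [(0, [0], [0, 1]), (1, [], [2, 3]), (1, [], [4, 5]), (4, [], [5])])

def l5_13 : Cov := [(144, 0, 1, [(0, [0], [0, 1]), (1, [], [2, 3]), (1, [], [4, 5]), (4, [], [5])]),
  (48, 0, 1, [(0, [0], [0, 1]), (1, [], [2, 4]), (1, [], [3, 5]), (4, [], [5])]),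
  (48, 0, 1, [(0, [0], [0, 1]), (1, [], [3, 4]), (1, [], [2, 5]), (4, [], [5])]),
  (144, 0, 1, [(0, [0], [0, 2]), (1, [], [1, 3]), (1, [], [4, 5]), (4, [], [5])]),
  (48, 0, 1, [(0, [0], [0, 2]), (1, [], [1, 4]), (1, [], [3, 5]), (4, [], [5])]),
  (48, 0, 1, [(0, [0], [0, 2]), (1, [], [3, 4]), (1, [], [1, 5]), (4, [], [5])]),
  (144, 0, 1, [(0, [0], [0, 3]), (1, [], [1, 2]), (1, [], [4, 5]), (4, [], [5])]),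
  (48, 0, 1, [(0, [0], [0, 3]), (1, [], [1, 4]), (1, [], [2, 5]), (4, [], [5])]),
  (48, 0, 1, [(0, [0], [0, 3]), (1, [], [2, 4]), (1, [], [1, 5]), (4, [], [5])]),
  (96, 0, 1, [(0, [0], [1, 2]), (1, [], [0, 3]), (1, [], [4, 5]), (4, [], [5])]),
  (-96, 0, 1, [(0, [0], [1, 2]), (1, [], [3, 4]), (1, [], [0, 5]), (4, [], [5])]),
  (96, 0, 1, [(0, [0], [1, 3]), (1, [], [0, 2]), (1, [], [4, 5]), (4, [], [5])]),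
  (-96, 0, 1, [(0, [0], [1, 3]), (1, [], [2, 4]), (1, [], [0, 5]), (4, [], [5])]),
  (-144, 0, 1, [(0, [0], [1, 4]), (1, [], [2, 3]), (1, [], [0, 5]), (4, [], [5])]),
  (96, 0, 1, [(0, [0], [2, 3]), (1, [], [0, 1]), (1, [], [4, 5]), (4, [], [5])]),
  (-96, 0, 1, [(0, [0], [2, 3]), (1, [], [1, 4]), (1, [], [0, 5]), (4, [], [5])]),
  (-144, 0, 1, [(0, [0], [2, 4]), (1, [], [1, 3]), (1, [], [0, 5]), (4, [], [5])]),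
  (-144, 0, 1, [(0, [0], [3, 4]), (1, [], [1, 2]), (1, [], [0, 5]), (4, [], [5])]),
  (-48, 0, 1, [(0, [0], [4, 1]), (1, [], [0, 2]), (1, [], [3, 5]), (4, [], [5])]),
  (-48, 0, 1, [(0, [0], [4, 1]), (1, [], [0, 3]), (1, [], [2, 5]), (4, [], [5])]),
  (-48, 0, 1, [(0, [0], [4, 2]), (1, [], [0, 1]), (1, [], [3, 5]), (4, [], [5])]),
  (-48, 0, 1, [(0, [0], [4, 2]), (1, [], [0, 3]), (1, [], [1, 5]), (4, [], [5])]),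
  (-48, 0, 1, [(0, [0], [4, 3]), (1, [], [0, 1]), (1, [], [2, 5]), (4, [], [5])]),
  (-48, 0, 1, [(0, [0], [4, 3]), (1, [], [0, 2]), (1, [], [1, 5]), (4, [], [5])])]

def z5_13 : Cov := [(0, 0, 1, [(0, [0], [0, 4]), (1, [], [1, 2]), (1, [], [3, 5]), (4, [], [5])]),
  (0, 0, 1, [(0, [0], [0, 4]), (1, [], [1, 3]), (1, [], [2, 5]), (4, [], [5])]),
  (0, 0, 1, [(0, [0], [0, 4]), (1, [], [2, 3]), (1, [], [1, 5]), (4, [], [5])])]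

def w5_13 : List (List Wit) := [[(0, 0, 0, 0, 0), (1, 0, 0, 0, 0), (0, 0, 0, 0, 0), (2, 0, 0, 0, 0), (1, 0, 0, 0, 0), (2, 0, 0, 0, 0), (3, 0, 0, 0, 0), (4, 0, 0, 0, 0), (3, 0, 0, 0, 0), (5, 0, 0, 0, 0), (4, 0, 0, 0, 0), (5, 0, 0, 0, 0), (6, 0, 0, 0, 0), (7, 0, 0, 0, 0), (6, 0, 0, 0, 0), (8, 0, 0, 0, 0), (7, 0, 0, 0, 0), (8, 0, 0, 0, 0), (24, 0, 0, 0, 0), (25, 0, 0, 0, 0), (24, 0, 0, 0, 0), (26, 0, 0, 0, 0), (25, 0, 0, 0, 0), (26, 0, 0, 0, 0), (0, 0, 0, 0, 0), (0, 0, 0, 0, 0), (9, 0, 0, 0, 0), (9, 0, 0, 0, 0), (10, 0, 0, 0, 0), (10, 0, 0, 0, 0), (11, 0, 0, 0, 0), (11, 0, 0, 0, 0), (12, 0, 0, 0, 0), (12, 0, 0, 0, 0), (13, 0, 0, 0, 0), (13, 0, 0, 0, 0), (3, 0, 0, 0, 0), (3, 0, 0, 0, 0), (9, 0, 0, 0, 0), (9, 0, 0, 0, 0), (10, 0, 0, 0, 0), (10, 0, 0, 0, 0), (14, 0, 0, 0, 0), (14, 0, 0, 0, 0), (15,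 0, 0, 0, 0), (15, 0, 0, 0, 0), (16, 0, 0, 0, 0), (16, 0, 0, 0, 0), (6, 0, 0, 0, 0), (6, 0, 0, 0, 0), (11, 0, 0, 0, 0), (11, 0, 0, 0, 0), (12, 0, 0, 0, 0), (12, 0, 0, 0, 0), (14, 0, 0, 0, 0), (14, 0, 0, 0, 0), (15, 0, 0, 0, 0), (15, 0, 0, 0, 0), (17, 0, 0, 0, 0), (17, 0, 0, 0, 0), (24, 0, 0, 0, 0), (25, 0, 0, 0, 0), (24, 0, 0, 0, 0), (26, 0, 0, 0, 0), (25, 0, 0, 0, 0), (26, 0, 0, 0, 0), (18, 0, 0, 0, 0), (19, 0, 0, 0, 0), (18, 0, 0, 0, 0), (13, 0, 0, 0, 0), (19, 0, 0, 0, 0), (13, 0, 0, 0, 0), (20, 0, 0, 0, 0), (21, 0, 0, 0, 0), (20, 0, 0, 0, 0), (16, 0, 0, 0, 0), (21, 0, 0, 0, 0), (16, 0, 0, 0, 0), (22, 0, 0, 0, 0), (23, 0, 0, 0, 0), (22, 0, 0, 0, 0), (17, 0, 0, 0, 0), (23, 0, 0, 0, 0), (17, 0, 0, 0, 0)]]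

def m5_14 : Base := (0, 0, [(0, [0], [0, 1]), (1, [], [2, 3]), (4, [], [4])])

def l5_14 : Cov := [(144, 0, 0, [(0, [0], [0, 1]), (1, [], [2, 3]), (4, [], [4])]),
  (48, 0, 0, [(0, [0], [0, 1]), (1, [], [2, 4]), (4, [], [3])]),
  (48, 0, 0, [(0, [0], [0, 1]), (1, [], [3, 4]), (4, [], [2])]),
  (144, 0, 0, [(0, [0], [0, 2]), (1, [], [1, 3]), (4, [], [4])]),
  (48, 0, 0, [(0, [0], [0, 2]), (1, [], [1, 4]), (4, [], [3])]),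
  (48, 0, 0, [(0, [0], [0, 2]), (1, [], [3, 4]), (4, [], [1])]),
  (144, 0, 0, [(0, [0], [0, 3]), (1, [], [1, 2]), (4, [], [4])]),
  (48, 0, 0, [(0, [0], [0, 3]), (1, [], [1, 4]), (4, [], [2])]),
  (48, 0, 0, [(0, [0], [0, 3]), (1, [], [2, 4]), (4, [], [1])]),
  (96, 0, 0, [(0, [0], [1, 2]), (1, [], [0, 3]), (4, [], [4])]),
  (-96, 0, 0, [(0, [0], [1, 2]), (1, [], [3, 4]), (4, [], [0])]),
  (96, 0, 0, [(0, [0], [1, 3]), (1, [], [0, 2]), (4, [], [4])]),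
  (-96, 0, 0, [(0, [0], [1, 3]), (1, [], [2, 4]), (4, [], [0])]),
  (-144, 0, 0, [(0, [0], [1, 4]), (1, [], [2, 3]), (4, [], [0])]),
  (96, 0, 0, [(0, [0], [2, 3]), (1, [], [0, 1]), (4, [], [4])]),
  (-96, 0, 0, [(0, [0], [2, 3]), (1, [], [1, 4]), (4, [], [0])]),
  (-144, 0, 0, [(0, [0], [2, 4]), (1, [], [1, 3]), (4, [], [0])]),
  (-144, 0, 0, [(0, [0], [3, 4]), (1, [], [1, 2]), (4, [], [0])]),
  (-48, 0, 0, [(0, [0], [4, 1]), (1, [], [0, 2]), (4, [], [3])]),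
  (-48, 0, 0, [(0, [0], [4, 1]), (1, [], [0, 3]), (4, [], [2])]),
  (-48, 0, 0, [(0, [0], [4, 2]), (1, [], [0, 1]), (4, [], [3])]),
  (-48, 0, 0, [(0, [0], [4, 2]), (1, [], [0, 3]), (4, [], [1])]),
  (-48, 0, 0, [(0, [0], [4, 3]), (1, [], [0, 1]), (4, [], [2])]),
  (-48, 0, 0, [(0, [0], [4, 3]), (1, [], [0, 2]), (4, [], [1])])]

def z5_14 : Cov := [(0, 0, 0, [(0, [0], [0, 4]), (1, [], [1, 2]), (4, [], [3])]),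
  (0, 0, 0, [(0, [0], [0, 4]), (1, [], [1, 3]), (4, [], [2])]),
  (0, 0, 0, [(0, [0], [0, 4]), (1, [], [2, 3]), (4, [], [1])])]

def w5_14 : List (List Wit) := [[(0, 0, 0, 0, 0), (1, 0, 0, 0, 0), (0, 0, 0, 0, 0), (2, 0, 0, 0, 0), (1, 0, 0, 0, 0), (2, 0, 0, 0, 0), (3, 0, 0, 0, 0), (4, 0, 0, 0, 0), (3, 0, 0, 0, 0), (5, 0, 0, 0, 0), (4, 0, 0, 0, 0), (5, 0, 0, 0, 0), (6, 0, 0, 0, 0), (7, 0, 0, 0, 0), (6, 0, 0, 0, 0), (8, 0, 0, 0, 0), (7, 0, 0, 0, 0), (8, 0, 0, 0, 0), (24, 0, 0, 0, 0), (25, 0, 0, 0, 0), (24, 0, 0, 0, 0), (26, 0, 0, 0, 0), (25, 0, 0, 0, 0), (26, 0, 0, 0, 0), (0, 0, 0, 0, 0), (0, 0, 0, 0, 0), (9, 0, 0, 0, 0), (9, 0, 0, 0, 0), (10, 0, 0, 0, 0), (10, 0, 0, 0, 0), (11, 0, 0, 0, 0), (11, 0, 0, 0, 0), (12, 0, 0, 0, 0), (12, 0, 0, 0, 0), (13, 0, 0, 0, 0), (13, 0, 0, 0, 0), (3, 0, 0, 0, 0),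 (3, 0, 0, 0, 0), (9, 0, 0, 0, 0), (9, 0, 0, 0, 0), (10, 0, 0, 0, 0), (10, 0, 0, 0, 0), (14, 0, 0, 0, 0), (14, 0, 0, 0, 0), (15, 0, 0, 0, 0), (15, 0, 0, 0, 0), (16, 0, 0, 0, 0), (16, 0, 0, 0, 0), (6, 0, 0, 0, 0), (6, 0, 0, 0, 0), (11, 0, 0, 0, 0), (11, 0, 0, 0, 0), (12, 0, 0, 0, 0), (12, 0, 0, 0, 0), (14, 0, 0, 0, 0), (14, 0, 0, 0, 0), (15, 0, 0, 0, 0), (15, 0, 0, 0, 0), (17, 0, 0, 0, 0), (17, 0, 0, 0, 0), (24, 0, 0, 0, 0), (25, 0, 0, 0, 0), (24, 0, 0, 0, 0), (26, 0, 0, 0, 0), (25, 0, 0, 0, 0), (26, 0, 0, 0, 0), (18, 0, 0, 0, 0), (19, 0, 0, 0, 0), (18, 0, 0, 0, 0), (13, 0, 0, 0, 0), (19, 0, 0, 0, 0), (13, 0, 0, 0, 0), (20, 0, 0, 0, 0), (21, 0, 0, 0, 0), (20, 0, 0, 0, 0), (16, 0, 0, 0, 0), (21, 0, 0, 0, 0), (16, 0, 0, 0, 0), (22, 0, 0, 0, 0), (23, 0, 0, 0, 0), (22, 0, 0, 0, 0), (17, 0, 0, 0, 0),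 (23, 0, 0, 0, 0), (17, 0, 0, 0, 0)]]

def m5_15 : Base := (0, 0, [(0, [0], [0, 1]), (1, [], [2, 4]), (4, [], [3])])

def l5_15 : Cov := [(96, 0, 0, [(0, [0], [0, 1]), (1, [], [2, 4]), (4, [], [3])]),
  (48, 0, 0, [(0, [0], [0, 1]), (1, [], [2, 3]), (4, [], [4])]),
  (96, 0, 0, [(0, [0], [0, 1]), (1, [], [3, 4]), (4, [], [2])]),
  (96, 0, 0, [(0, [0], [0, 2]), (1, [], [1, 4]), (4, [], [3])]),
  (48, 0, 0, [(0, [0], [0, 2]), (1, [], [1, 3]), (4, [], [4])]),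
  (96, 0, 0, [(0, [0], [0, 2]), (1, [], [3, 4]), (4, [], [1])]),
  (96, 0, 0, [(0, [0], [0, 3]), (1, [], [1, 4]), (4, [], [2])]),
  (48, 0, 0, [(0, [0], [0, 3]), (1, [], [1, 2]), (4, [], [4])]),
  (96, 0, 0, [(0, [0], [0, 3]), (1, [], [2, 4]), (4, [], [1])]),
  (48, 0, 0, [(0, [0], [1, 2]), (1, [], [3, 4]), (4, [], [0])]),
  (-48, 0, 0, [(0, [0], [1, 2]), (1, [], [3, 0]), (4, [], [4])]),
  (48, 0, 0, [(0, [0], [1, 3]), (1, [], [2, 4]), (4, [], [0])]),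
  (-48, 0, 0, [(0, [0], [1, 3]), (1, [], [2, 0]), (4, [], [4])]),
  (-96, 0, 0, [(0, [0], [1, 4]), (1, [], [2, 0]), (4, [], [3])]),
  (-96, 0, 0, [(0, [0], [1, 4]), (1, [], [3, 0]), (4, [], [2])]),
  (48, 0, 0, [(0, [0], [2, 3]), (1, [], [1, 4]), (4, [], [0])]),
  (-48, 0, 0, [(0, [0], [2, 3]), (1, [], [1, 0]), (4, [], [4])]),
  (-96, 0, 0, [(0, [0], [2, 4]), (1, [], [1, 0]), (4, [], [3])]),
  (-96, 0, 0, [(0, [0], [2, 4]), (1, [], [3, 0]), (4, [], [1])]),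
  (-96, 0, 0, [(0, [0], [3, 4]), (1, [], [1, 0]), (4, [], [2])]),
  (-96, 0, 0, [(0, [0], [3, 4]), (1, [], [2, 0]), (4, [], [1])]),
  (-48, 0, 0, [(0, [0], [4, 1]), (1, [], [2, 3]), (4, [], [0])]),
  (-48, 0, 0, [(0, [0], [4, 2]), (1, [], [1, 3]), (4, [], [0])]),
  (-48, 0, 0, [(0, [0], [4, 3]), (1, [], [1, 2]), (4, [], [0])])]

def z5_15 : Cov := [(0, 0, 0, [(0, [0], [0, 4]), (1, [], [1, 3]), (4, [], [2])]),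
  (0, 0, 0, [(0, [0], [0, 4]), (1, [], [1, 2]), (4, [], [3])]),
  (0, 0, 0, [(0, [0], [0, 4]), (1, [], [2, 3]), (4, [], [1])]),
  (0, 0, 0, [(0, [0], [1, 2]), (1, [], [0, 4]), (4, [], [3])]),
  (0, 0, 0, [(0, [0], [1, 3]), (1, [], [0, 4]), (4, [], [2])]),
  (0, 0, 0, [(0, [0], [2, 3]), (1, [], [0, 4]), (4, [], [1])])]

def w5_15 : List (List Wit) := [[(0, 0, 0, 0, 0), (1, 0, 0, 0, 0), (2, 0, 0, 0, 0), (1, 0, 0, 0, 0), (2, 0, 0, 0, 0), (0, 0, 0, 0, 0), (3, 0, 0, 0, 0), (4, 0, 0, 0, 0), (5, 0, 0, 0, 0), (4, 0, 0, 0, 0), (5, 0, 0, 0, 0), (3, 0, 0, 0, 0), (6, 0, 0, 0, 0), (7, 0, 0, 0, 0), (8, 0, 0, 0, 0), (7, 0, 0, 0, 0), (8, 0, 0, 0, 0), (6, 0, 0, 0, 0), (24, 0, 0, 0, 0), (25, 0, 0, 0, 0), (26, 0, 0, 0, 0), (25, 0, 0, 0, 0), (26, 0, 0, 0, 0), (24, 0, 0, 0, 0), (0, 0, 0, 0, 0), (2, 0, 0, 0, 0),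 (27, 0, 0, 0, 0), (9, 0, 0, 0, 0), (10, 0, 0, 0, 0), (27, 0, 0, 0, 0), (28, 0, 0, 0, 0), (11, 0, 0, 0, 0), (12, 0, 0, 0, 0), (28, 0, 0, 0, 0), (13, 0, 0, 0, 0), (14, 0, 0, 0, 0), (3, 0, 0, 0, 0), (5, 0, 0, 0, 0), (27, 0, 0, 0, 0), (9, 0, 0, 0, 0), (10, 0, 0, 0, 0), (27, 0, 0, 0, 0), (29, 0, 0, 0, 0), (15, 0, 0, 0, 0), (16, 0, 0, 0, 0), (29, 0, 0, 0, 0), (17, 0, 0, 0, 0), (18, 0, 0, 0, 0), (6, 0, 0, 0, 0), (8, 0, 0, 0, 0), (28, 0, 0, 0, 0), (11, 0, 0, 0, 0), (12, 0, 0, 0, 0), (28, 0, 0, 0, 0), (29, 0, 0, 0, 0), (15, 0, 0, 0, 0), (16, 0, 0, 0, 0), (29, 0, 0, 0, 0), (19, 0, 0, 0, 0), (20, 0, 0, 0, 0), (24, 0, 0, 0, 0), (25, 0, 0, 0, 0), (26, 0, 0, 0, 0), (25, 0, 0, 0, 0), (26, 0, 0, 0, 0), (24, 0, 0, 0, 0), (14, 0, 0, 0, 0), (13, 0, 0, 0, 0), (21, 0, 0, 0, 0), (13, 0, 0, 0, 0), (21, 0, 0, 0, 0),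 (14, 0, 0, 0, 0), (18, 0, 0, 0, 0), (17, 0, 0, 0, 0), (22, 0, 0, 0, 0), (17, 0, 0, 0, 0), (22, 0, 0, 0, 0), (18, 0, 0, 0, 0), (20, 0, 0, 0, 0), (19, 0, 0, 0, 0), (23, 0, 0, 0, 0), (19, 0, 0, 0, 0), (23, 0, 0, 0, 0), (20, 0, 0, 0, 0)]]

def m5_16 : Base := (0, 0, [(0, [0], [0, 1]), (3, [], [2, 3, 4])])

def l5_16 : Cov := [(240, 0, 0, [(0, [0], [0, 1]), (3, [], [2, 3, 4])]),
  (240, 0, 0, [(0, [0], [0, 2]), (3, [], [1, 3, 4])]),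
  (240, 0, 0, [(0, [0], [0, 3]), (3, [], [1, 2, 4])]),
  (-240, 0, 0, [(0, [0], [1, 4]), (3, [], [2, 3, 0])]),
  (-240, 0, 0, [(0, [0], [2, 4]), (3, [], [1, 3, 0])]),
  (-240, 0, 0, [(0, [0], [3, 4]), (3, [], [1, 2, 0])])]

def z5_16 : Cov := [(0, 0, 0, [(0, [0], [0, 4]), (3, [], [1, 2, 3])]),
  (0, 0, 0, [(0, [0], [1, 2]), (3, [], [0, 3, 4])]),
  (0, 0, 0, [(0, [0], [1, 3]), (3, [], [0, 2, 4])]),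
  (0, 0, 0, [(0, [0], [2, 3]), (3, [], [0, 1, 4])])]

def w5_16 : List (List Wit) := [[(0, 0, 0, 0, 0), (0, 0, 0, 0, 0), (0, 0, 0, 0, 0), (0, 0, 0, 0, 0), (0, 0, 0, 0, 0), (0, 0, 0, 0, 0), (1, 0, 0, 0, 0), (1, 0, 0, 0, 0), (1, 0, 0, 0, 0), (1, 0, 0, 0, 0), (1, 0, 0, 0, 0), (1, 0, 0, 0, 0), (2, 0, 0, 0, 0), (2, 0, 0, 0, 0), (2, 0, 0, 0, 0), (2, 0, 0, 0, 0), (2, 0, 0, 0, 0), (2, 0, 0, 0, 0), (6, 0, 0, 0, 0), (6, 0, 0, 0, 0), (6, 0, 0, 0, 0), (6, 0, 0, 0, 0), (6, 0, 0, 0, 0), (6, 0, 0, 0, 0), (0, 0, 0, 0, 0), (0, 0, 0, 0, 0), (7, 0, 0, 0, 0), (7, 0, 0, 0, 0), (7, 0, 0, 0, 0), (7, 0, 0, 0, 0), (8, 0, 0, 0, 0), (8, 0, 0, 0, 0), (8, 0, 0, 0, 0), (8, 0, 0, 0, 0), (3, 0, 0, 0, 0), (3, 0, 0, 0, 0), (1, 0, 0, 0, 0), (1, 0, 0, 0, 0), (7, 0, 0, 0, 0), (7, 0, 0, 0, 0), (7, 0, 0, 0, 0), (7, 0, 0, 0, 0), (9,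 0, 0, 0, 0), (9, 0, 0, 0, 0), (9, 0, 0, 0, 0), (9, 0, 0, 0, 0), (4, 0, 0, 0, 0), (4, 0, 0, 0, 0), (2, 0, 0, 0, 0), (2, 0, 0, 0, 0), (8, 0, 0, 0, 0), (8, 0, 0, 0, 0), (8, 0, 0, 0, 0), (8, 0, 0, 0, 0), (9, 0, 0, 0, 0), (9, 0, 0, 0, 0), (9, 0, 0, 0, 0), (9, 0, 0, 0, 0), (5, 0, 0, 0, 0), (5, 0, 0, 0, 0), (6, 0, 0, 0, 0), (6, 0, 0, 0, 0), (6, 0, 0, 0, 0), (6, 0, 0, 0, 0), (6, 0, 0, 0, 0), (6, 0, 0, 0, 0), (3, 0, 0, 0, 0), (3, 0, 0, 0, 0), (3, 0, 0, 0, 0), (3, 0, 0, 0, 0), (3, 0, 0, 0, 0), (3, 0, 0, 0, 0), (4, 0, 0, 0, 0), (4, 0, 0, 0, 0), (4, 0, 0, 0, 0), (4, 0, 0, 0, 0), (4, 0, 0, 0, 0), (4, 0, 0, 0, 0), (5, 0, 0, 0, 0), (5, 0, 0, 0, 0), (5, 0, 0, 0, 0), (5, 0, 0, 0, 0), (5, 0, 0, 0, 0), (5, 0, 0, 0, 0)]]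

def m5_17 : Base := (0, 0, [(1, [], [0, 1]), (2, [0], [2, 3, 4])])

def l5_17 : Cov := [(240, 0, 0, [(1, [], [0, 1]), (2, [0], [2, 3, 4])]),
  (240, 0, 0, [(1, [], [0, 2]), (2, [0], [1, 3, 4])]),
  (240, 0, 0, [(1, [], [0, 3]), (2, [0], [1, 2, 4])]),
  (-240, 0, 0, [(1, [], [1, 4]), (2, [0], [2, 3, 0])]),
  (-240, 0, 0, [(1, [], [2, 4]), (2, [0], [1, 3, 0])]),
  (-240, 0, 0, [(1, [], [3, 4]), (2, [0], [1, 2, 0])])]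

def z5_17 : Cov := [(0, 0, 0, [(1, [], [0, 4]), (2, [0], [1, 2, 3])]),
  (0, 0, 0, [(1, [], [1, 2]), (2, [0], [0, 3, 4])]),
  (0, 0, 0, [(1, [], [1, 3]), (2, [0], [0, 2, 4])]),
  (0, 0, 0, [(1, [], [2, 3]), (2, [0], [0, 1, 4])])]

def w5_17 : List (List Wit) := [[(0, 0, 0, 0, 0), (0, 0, 0, 0, 0), (0, 0, 0, 0, 0), (0, 0, 0, 0, 0), (0, 0, 0, 0, 0), (0, 0, 0, 0, 0), (1, 0, 0, 0, 0), (1, 0, 0, 0, 0), (1, 0, 0, 0, 0), (1, 0, 0, 0, 0), (1, 0, 0, 0, 0), (1, 0, 0, 0, 0), (2, 0, 0, 0, 0), (2, 0, 0, 0, 0), (2, 0, 0, 0, 0), (2, 0, 0, 0, 0), (2, 0, 0, 0, 0), (2, 0, 0, 0, 0), (6, 0, 0, 0, 0), (6, 0, 0, 0, 0), (6, 0, 0, 0, 0), (6, 0, 0, 0, 0), (6, 0, 0, 0, 0), (6, 0, 0, 0, 0), (0, 0, 0, 0, 0), (0, 0, 0, 0, 0), (7, 0, 0, 0, 0), (7, 0, 0, 0, 0), (7, 0, 0, 0, 0), (7, 0, 0, 0, 0), (8, 0, 0, 0, 0), (8, 0, 0,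 0, 0), (8, 0, 0, 0, 0), (8, 0, 0, 0, 0), (3, 0, 0, 0, 0), (3, 0, 0, 0, 0), (1, 0, 0, 0, 0), (1, 0, 0, 0, 0), (7, 0, 0, 0, 0), (7, 0, 0, 0, 0), (7, 0, 0, 0, 0), (7, 0, 0, 0, 0), (9, 0, 0, 0, 0), (9, 0, 0, 0, 0), (9, 0, 0, 0, 0), (9, 0, 0, 0, 0), (4, 0, 0, 0, 0), (4, 0, 0, 0, 0), (2, 0, 0, 0, 0), (2, 0, 0, 0, 0), (8, 0, 0, 0, 0), (8, 0, 0, 0, 0), (8, 0, 0, 0, 0), (8, 0, 0, 0, 0), (9, 0, 0, 0, 0), (9, 0, 0, 0, 0), (9, 0, 0, 0, 0), (9, 0, 0, 0, 0), (5, 0, 0, 0, 0), (5, 0, 0, 0, 0), (6, 0, 0, 0, 0), (6, 0, 0, 0, 0), (6, 0, 0, 0, 0), (6, 0, 0, 0, 0), (6, 0, 0, 0, 0), (6, 0, 0, 0, 0), (3, 0, 0, 0, 0), (3, 0, 0, 0, 0), (3, 0, 0, 0, 0), (3, 0, 0, 0, 0), (3, 0, 0, 0, 0), (3, 0, 0, 0, 0), (4, 0, 0, 0, 0), (4, 0, 0, 0, 0), (4, 0, 0, 0, 0), (4, 0, 0, 0, 0), (4, 0, 0, 0, 0), (4, 0, 0, 0, 0), (5, 0, 0, 0,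 0), (5, 0, 0, 0, 0), (5, 0, 0, 0, 0), (5, 0, 0, 0, 0), (5, 0, 0, 0, 0), (5, 0, 0, 0, 0)]]

end YMBG
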