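import Pool.Agent.YM.BG.CG0_G0
import Pool.Agent.YM.BG.CG0_G1
import Pool.Agent.YM.BG.CG0_H5
import Pool.Agent.YM.BG.CG0_H6
import Pool.Agent.YM.BG.CG0_G2
import Pool.Agent.YM.BG.CG0_G3
import Pool.Agent.YM.BG.CG0_G4
import Pool.Agent.YM.BG.CG0_G5
import Pool.Agent.YM.BG.CG0_G6
import Pool.Agent.YM.BG.CG0_G7
import Pool.Agent.YM.BG.CG0_G8
import Pool.Agent.YM.BG.CG0_G9
import Pool.Agent.YM.BG.CG0_G10
import Pool.Agent.YM.BG.CG0_G11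
import Pool.Agent.YM.BG.CG0_G12
import Pool.Agent.YM.BG.CG0_G13
import Pool.Agent.YM.BG.CG0_G14
import Pool.Agent.YM.BG.CG0_G15
import Pool.Agent.YM.BG.CG0_G16
import Pool.Agent.YM.BG.CG0_G17
import Pool.Agent.YM.BG.CG0_G18
import Pool.Agent.YM.BG.CG0_G19
import Pool.Agent.YM.BG.CG0_G20
import Pool.Agent.YM.BG.RG0

set_option linter.unusedVariables false
set_option maxRecDepth 100000

open YMEng

namespace YMBG

variable {κ ι : Type*} [Fintype κ] [Fintype ι] [Inhabited κ] [Inhabited ι]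

theorem U1_chkG0 : eqZ (vsum [gG0_67, gG0_68, gG0_69, gG0_70, gG0_71, gG0_72, gG0_73, gG0_74, gG0_75, gG0_76, gG0_77, gG0_78, gG0_79, gG0_80, gG0_81, gG0_82, gG0_83, gG0_84, gG0_85, gG0_86, gG0_87, gG0_88, gG0_89, gG0_90, gG0_91, gG0_92, gG0_93, gG0_94, gG0_95, gG0_96]) (vadd (lS U1G0) (List.replicate 406 0)) = true := by
  decide +kernel

theorem fin_chkG0 : eqZ (vadd (vsc ((90000000000000000 : ℕ) : ℤ) targetG0) (lS rrG0)) (vadd (vsum [gG0_0, gG0_1, gG0_2, gG0_3, gG0_4, gG0_5, gG0_6, gG0_7, gG0_8, gG0_9, gG0_10, gG0_11, gG0_12, gG0_13, gG0_14, gG0_15, gG0_16, gG0_17, gG0_18, gG0_19, gG0_20, gG0_21, gG0_22, gG0_23, gG0_24, gG0_25, gG0_26, gG0_27, gG0_28, gG0_29, gG0_30, gG0_31, gG0_32, gG0_33, gG0_34, gG0_35, gG0_36, gG0_37, gG0_38, gG0_39, gG0_40, gG0_41, gG0_42, gG0_43, gG0_44, gG0_45, gG0_46, gG0_47, gG0_48, gG0_49, gG0_50,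 gG0_51, gG0_52, gG0_53, gG0_54, gG0_55, gG0_56, gG0_57, gG0_58, gG0_59, gG0_60, gG0_61, gG0_62, gG0_63, gG0_64, gG0_65, gG0_66, List.replicate 451 0]) (lS U1G0)) = true := by
  decide +kernel

/-- the certificate: `sval E = |m|² + |B|²` -/
theorem finalG0 (E : Env κ ι) (hs : sval E ≤ 1) : 0 ≤ dot (ek E keys) targetG0 0 := by
  have h1 : 0 ≤ dot (ek E keys) (lS U1G0) 0 := by
    have h2 : 0 ≤ dot (ek E keys) (vadd (lS U1G0) (List.replicate 406 0)) 0 := by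
      rw [← eqZ_eq _ _ U1_chkG0]
      refine vsum_nonneg _ _ ?_
      simp only [List.forall_mem_cons]
      exact ⟨nnG0_67 E, nnG0_68 E, nnG0_69 E, nnG0_70 E, nnG0_71 E, nnG0_72 E, nnG0_73 E, nnG0_74 E, nnG0_75 E, nnG0_76 E, nnG0_77 E, nnG0_78 E, nnG0_79 E, nnG0_80 E, nnG0_81 E, nnG0_82 E, nnG0_83 E, nnG0_84 E, nnG0_85 E, nnG0_86 E, nnG0_87 E, nnG0_88 E, nnG0_89 E, nnG0_90 E, nnG0_91 E, nnG0_92 E, nnG0_93 E, nnG0_94 E, nnG0_95 E, nnG0_96 E, fun _ h => by simp at h⟩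
    rw [dot_vadd, dot_replicate, add_zero] at h2
    exact h2
  have h0 : 0 ≤ dot (ek E keys) (vsum [gG0_0, gG0_1, gG0_2, gG0_3, gG0_4, gG0_5, gG0_6, gG0_7, gG0_8, gG0_9, gG0_10, gG0_11, gG0_12, gG0_13, gG0_14, gG0_15, gG0_16, gG0_17, gG0_18, gG0_19, gG0_20, gG0_21, gG0_22, gG0_23, gG0_24, gG0_25, gG0_26, gG0_27, gG0_28, gG0_29, gG0_30, gG0_31, gG0_32, gG0_33, gG0_34, gG0_35, gG0_36, gG0_37, gG0_38, gG0_39, gG0_40, gG0_41, gG0_42, gG0_43, gG0_44, gG0_45, gG0_46, gG0_47, gG0_48, gG0_49, gG0_50, gG0_51, gG0_52, gG0_53, gG0_54, gG0_55, gG0_56, gG0_57, gG0_58, gG0_59, gG0_60, gG0_61, gG0_62, gG0_63, gG0_64, gG0_65, gG0_66, List.replicate 451 0]) 0 := by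
    refine vsum_nonneg _ _ ?_
    simp only [List.forall_mem_cons]
    exact ⟨nnG0_0 E, nnG0_1 E, nnG0_2 E, nnG0_3 E, nnG0_4 E, nnG0_5 E, nnG0_6 E, nnG0_7 E, nnG0_8 E, nnG0_9 E, nnG0_10 E, nnG0_11 E, nnG0_12 E, nnG0_13 E, nnG0_14 E, nnG0_15 E, nnG0_16 E, nnG0_17 E, nnG0_18 E, nnG0_19 E, nnG0_20 E, nnG0_21 E, nnG0_22 E, nnG0_23 E, nnG0_24 E, nnG0_25 E, nnG0_26 E, nnG0_27 E, nnG0_28 E, nnG0_29 E, nnG0_30 E, nnG0_31 E, nnG0_32 E, nnG0_33 E, nnG0_34 E, nnG0_35 E, nnG0_36 E, nnG0_37 E, nnG0_38 E, nnG0_39 E, nnG0_40 E, nnG0_41 E, nnG0_42 E, nnG0_43 E, nnG0_44 E, nnG0_45 E, nnG0_46 E, nnG0_47 E, nnG0_48 E, nnG0_49 E, nnG0_50 E, nnG0_51 E, nnG0_52 E, nnG0_53 E, nnG0_54 E, nnG0_55 E, nnG0_56 E, nnG0_57 E, nnG0_58 E, nnG0_59 E, nnG0_60 E, nnG0_61 E, nnG0_62 E, nnG0_63 E, nnG0_64 E, nnG0_65 E, nnG0_66 E, dot_replicate_nonneg _ _ _, fun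 _ h => by simp at h⟩
  exact final_mult _ 90000000000000000 (by norm_num) targetG0 _ U1G0 rrG0 (sval E) hs h0 h1
    (mult_step E keys U1G0 rrG0 (hRG0 E)) fin_chkG0

end YMBG
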