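import Pool.Agent.YM.BG.CG1_G0
import Pool.Agent.YM.BG.CG1_G1
import Pool.Agent.YM.BG.CG1_H5
import Pool.Agent.YM.BG.CG1_H6
import Pool.Agent.YM.BG.CG1_G2
import Pool.Agent.YM.BG.CG1_G3
import Pool.Agent.YM.BG.CG1_G4
import Pool.Agent.YM.BG.CG1_G5
import Pool.Agent.YM.BG.CG1_G6
import Pool.Agent.YM.BG.CG1_G7
import Pool.Agent.YM.BG.CG1_G8
import Pool.Agent.YM.BG.CG1_G9
import Pool.Agent.YM.BG.CG1_G10
import Pool.Agent.YM.BG.CG1_G11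
import Pool.Agent.YM.BG.CG1_G12
import Pool.Agent.YM.BG.CG1_G13
import Pool.Agent.YM.BG.CG1_G14
import Pool.Agent.YM.BG.CG1_G15
import Pool.Agent.YM.BG.CG1_G16
import Pool.Agent.YM.BG.CG1_G17
import Pool.Agent.YM.BG.CG1_G18
import Pool.Agent.YM.BG.CG1_G19
import Pool.Agent.YM.BG.CG1_G20
import Pool.Agent.YM.BG.RG1

set_option linter.unusedVariables false
set_option maxRecDepth 100000

open YMEng

namespace YMBG

variable {κ ι : Type*} [Fintype κ] [Fintype ι] [Inhabited κ] [Inhabited ι]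

theorem U1_chkG1 : eqZ (vsum [gG1_67, gG1_68, gG1_69, gG1_70, gG1_71, gG1_72, gG1_73, gG1_74, gG1_75, gG1_76, gG1_77, gG1_78, gG1_79, gG1_80, gG1_81, gG1_82, gG1_83, gG1_84, gG1_85, gG1_86, gG1_87, gG1_88, gG1_89, gG1_90, gG1_91, gG1_92, gG1_93, gG1_94, gG1_95, gG1_96]) (vadd (lS U1G1) (List.replicate 406 0)) = true := by
  decide +kernel

theorem fin_chkG1 : eqZ (vadd (vsc ((90000000000000000 : ℕ) : ℤ) targetG1) (lS rrG1)) (vadd (vsum [gG1_0, gG1_1, gG1_2, gG1_3, gG1_4, gG1_5, gG1_6, gG1_7, gG1_8, gG1_9, gG1_10, gG1_11, gG1_12, gG1_13, gG1_14, gG1_15, gG1_16, gG1_17, gG1_18, gG1_19, gG1_20, gG1_21, gG1_22, gG1_23, gG1_24, gG1_25, gG1_26, gG1_27, gG1_28, gG1_29, gG1_30, gG1_31, gG1_32, gG1_33, gG1_34, gG1_35, gG1_36, gG1_37, gG1_38, gG1_39, gG1_40, gG1_41, gG1_42, gG1_43, gG1_44, gG1_45, gG1_46, gG1_47, gG1_48, gG1_49, gG1_50,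 gG1_51, gG1_52, gG1_53, gG1_54, gG1_55, gG1_56, gG1_57, gG1_58, gG1_59, gG1_60, gG1_61, gG1_62, gG1_63, gG1_64, gG1_65, gG1_66, List.replicate 451 0]) (lS U1G1)) = true := by
  decide +kernel

/-- the certificate: `sval E = |m|² + |B|²` -/
theorem finalG1 (E : Env κ ι) (hs : sval E ≤ 1) : 0 ≤ dot (ek E keys) targetG1 0 := by
  have h1 : 0 ≤ dot (ek E keys) (lS U1G1) 0 := by
    have h2 : 0 ≤ dot (ek E keys) (vadd (lS U1G1) (List.replicate 406 0)) 0 := by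
      rw [← eqZ_eq _ _ U1_chkG1]
      refine vsum_nonneg _ _ ?_
      simp only [List.forall_mem_cons]
      exact ⟨nnG1_67 E, nnG1_68 E, nnG1_69 E, nnG1_70 E, nnG1_71 E, nnG1_72 E, nnG1_73 E, nnG1_74 E, nnG1_75 E, nnG1_76 E, nnG1_77 E, nnG1_78 E, nnG1_79 E, nnG1_80 E, nnG1_81 E, nnG1_82 E, nnG1_83 E, nnG1_84 E, nnG1_85 E, nnG1_86 E, nnG1_87 E, nnG1_88 E, nnG1_89 E, nnG1_90 E, nnG1_91 E, nnG1_92 E, nnG1_93 E, nnG1_94 E, nnG1_95 E, nnG1_96 E, fun _ h => by simp at h⟩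
    rw [dot_vadd, dot_replicate, add_zero] at h2
    exact h2
  have h0 : 0 ≤ dot (ek E keys) (vsum [gG1_0, gG1_1, gG1_2, gG1_3, gG1_4, gG1_5, gG1_6, gG1_7, gG1_8, gG1_9, gG1_10, gG1_11, gG1_12, gG1_13, gG1_14, gG1_15, gG1_16, gG1_17, gG1_18, gG1_19, gG1_20, gG1_21, gG1_22, gG1_23, gG1_24, gG1_25, gG1_26, gG1_27, gG1_28, gG1_29, gG1_30, gG1_31, gG1_32, gG1_33, gG1_34, gG1_35, gG1_36, gG1_37, gG1_38, gG1_39, gG1_40, gG1_41, gG1_42, gG1_43, gG1_44, gG1_45, gG1_46, gG1_47, gG1_48, gG1_49, gG1_50, gG1_51, gG1_52, gG1_53, gG1_54, gG1_55, gG1_56, gG1_57, gG1_58, gG1_59, gG1_60, gG1_61, gG1_62, gG1_63, gG1_64, gG1_65, gG1_66, List.replicate 451 0]) 0 := by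
    refine vsum_nonneg _ _ ?_
    simp only [List.forall_mem_cons]
    exact ⟨nnG1_0 E, nnG1_1 E, nnG1_2 E, nnG1_3 E, nnG1_4 E, nnG1_5 E, nnG1_6 E, nnG1_7 E, nnG1_8 E, nnG1_9 E, nnG1_10 E, nnG1_11 E, nnG1_12 E, nnG1_13 E, nnG1_14 E, nnG1_15 E, nnG1_16 E, nnG1_17 E, nnG1_18 E, nnG1_19 E, nnG1_20 E, nnG1_21 E, nnG1_22 E, nnG1_23 E, nnG1_24 E, nnG1_25 E, nnG1_26 E, nnG1_27 E, nnG1_28 E, nnG1_29 E, nnG1_30 E, nnG1_31 E, nnG1_32 E, nnG1_33 E, nnG1_34 E, nnG1_35 E, nnG1_36 E, nnG1_37 E, nnG1_38 E, nnG1_39 E, nnG1_40 E, nnG1_41 E, nnG1_42 E, nnG1_43 E, nnG1_44 E, nnG1_45 E, nnG1_46 E, nnG1_47 E, nnG1_48 E, nnG1_49 E, nnG1_50 E, nnG1_51 E, nnG1_52 E, nnG1_53 E, nnG1_54 E, nnG1_55 E, nnG1_56 E, nnG1_57 E, nnG1_58 E, nnG1_59 E, nnG1_60 E, nnG1_61 E, nnG1_62 E, nnG1_63 E, nnG1_64 E, nnG1_65 E, nnG1_66 E, dot_replicate_nonneg _ _ _, fun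 _ h => by simp at h⟩
  exact final_mult _ 90000000000000000 (by norm_num) targetG1 _ U1G1 rrG1 (sval E) hs h0 h1
    (mult_step E keys U1G1 rrG1 (hRG1 E)) fin_chkG1

end YMBG
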