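import Pool.Agent.YM.BG.CG2_G0
import Pool.Agent.YM.BG.CG2_G1
import Pool.Agent.YM.BG.CG2_H5
import Pool.Agent.YM.BG.CG2_H6
import Pool.Agent.YM.BG.CG2_G2
import Pool.Agent.YM.BG.CG2_G3
import Pool.Agent.YM.BG.CG2_G4
import Pool.Agent.YM.BG.CG2_G5
import Pool.Agent.YM.BG.CG2_G6
import Pool.Agent.YM.BG.CG2_G7
import Pool.Agent.YM.BG.CG2_G8
import Pool.Agent.YM.BG.CG2_G9
import Pool.Agent.YM.BG.CG2_G10
import Pool.Agent.YM.BG.CG2_G11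
import Pool.Agent.YM.BG.CG2_G12
import Pool.Agent.YM.BG.CG2_G13
import Pool.Agent.YM.BG.CG2_G14
import Pool.Agent.YM.BG.CG2_G15
import Pool.Agent.YM.BG.CG2_G16
import Pool.Agent.YM.BG.CG2_G17
import Pool.Agent.YM.BG.CG2_G18
import Pool.Agent.YM.BG.CG2_G19
import Pool.Agent.YM.BG.CG2_G20
import Pool.Agent.YM.BG.RG2

set_option linter.unusedVariables false
set_option maxRecDepth 100000

open YMEng

namespace YMBG

variable {κ ι : Type*} [Fintype κ] [Fintype ι] [Inhabited κ] [Inhabited ι]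

theorem U1_chkG2 : eqZ (vsum [gG2_67, gG2_68, gG2_69, gG2_70, gG2_71, gG2_72, gG2_73, gG2_74, gG2_75, gG2_76, gG2_77, gG2_78, gG2_79, gG2_80, gG2_81, gG2_82, gG2_83, gG2_84, gG2_85, gG2_86, gG2_87, gG2_88, gG2_89, gG2_90, gG2_91, gG2_92, gG2_93, gG2_94, gG2_95, gG2_96]) (vadd (lS U1G2) (List.replicate 406 0)) = true := by
  decide +kernel

theorem fin_chkG2 : eqZ (vadd (vsc ((30000000000000000 : ℕ) : ℤ) targetG2) (lS rrG2)) (vadd (vsum [gG2_0, gG2_1, gG2_2, gG2_3, gG2_4, gG2_5, gG2_6, gG2_7, gG2_8, gG2_9, gG2_10, gG2_11, gG2_12, gG2_13, gG2_14, gG2_15, gG2_16, gG2_17, gG2_18, gG2_19, gG2_20, gG2_21, gG2_22, gG2_23, gG2_24, gG2_25, gG2_26, gG2_27, gG2_28, gG2_29, gG2_30, gG2_31, gG2_32, gG2_33, gG2_34, gG2_35, gG2_36, gG2_37, gG2_38, gG2_39, gG2_40, gG2_41, gG2_42, gG2_43, gG2_44, gG2_45, gG2_46, gG2_47, gG2_48, gG2_49, gG2_50,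 gG2_51, gG2_52, gG2_53, gG2_54, gG2_55, gG2_56, gG2_57, gG2_58, gG2_59, gG2_60, gG2_61, gG2_62, gG2_63, gG2_64, gG2_65, gG2_66, List.replicate 451 0]) (lS U1G2)) = true := by
  decide +kernel

/-- the certificate: `sval E = |m|² + |B|²` -/
theorem finalG2 (E : Env κ ι) (hs : sval E ≤ 1) : 0 ≤ dot (ek E keys) targetG2 0 := by
  have h1 : 0 ≤ dot (ek E keys) (lS U1G2) 0 := by
    have h2 : 0 ≤ dot (ek E keys) (vadd (lS U1G2) (List.replicate 406 0)) 0 := by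
      rw [← eqZ_eq _ _ U1_chkG2]
      refine vsum_nonneg _ _ ?_
      simp only [List.forall_mem_cons]
      exact ⟨nnG2_67 E, nnG2_68 E, nnG2_69 E, nnG2_70 E, nnG2_71 E, nnG2_72 E, nnG2_73 E, nnG2_74 E, nnG2_75 E, nnG2_76 E, nnG2_77 E, nnG2_78 E, nnG2_79 E, nnG2_80 E, nnG2_81 E, nnG2_82 E, nnG2_83 E, nnG2_84 E, nnG2_85 E, nnG2_86 E, nnG2_87 E, nnG2_88 E, nnG2_89 E, nnG2_90 E, nnG2_91 E, nnG2_92 E, nnG2_93 E, nnG2_94 E, nnG2_95 E, nnG2_96 E, fun _ h => by simp at h⟩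
    rw [dot_vadd, dot_replicate, add_zero] at h2
    exact h2
  have h0 : 0 ≤ dot (ek E keys) (vsum [gG2_0, gG2_1, gG2_2, gG2_3, gG2_4, gG2_5, gG2_6, gG2_7, gG2_8, gG2_9, gG2_10, gG2_11, gG2_12, gG2_13, gG2_14, gG2_15, gG2_16, gG2_17, gG2_18, gG2_19, gG2_20, gG2_21, gG2_22, gG2_23, gG2_24, gG2_25, gG2_26, gG2_27, gG2_28, gG2_29, gG2_30, gG2_31, gG2_32, gG2_33, gG2_34, gG2_35, gG2_36, gG2_37, gG2_38, gG2_39, gG2_40, gG2_41, gG2_42, gG2_43, gG2_44, gG2_45, gG2_46, gG2_47, gG2_48, gG2_49, gG2_50, gG2_51, gG2_52, gG2_53, gG2_54, gG2_55, gG2_56, gG2_57, gG2_58, gG2_59, gG2_60, gG2_61, gG2_62, gG2_63, gG2_64, gG2_65, gG2_66, List.replicate 451 0]) 0 := by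
    refine vsum_nonneg _ _ ?_
    simp only [List.forall_mem_cons]
    exact ⟨nnG2_0 E, nnG2_1 E, nnG2_2 E, nnG2_3 E, nnG2_4 E, nnG2_5 E, nnG2_6 E, nnG2_7 E, nnG2_8 E, nnG2_9 E, nnG2_10 E, nnG2_11 E, nnG2_12 E, nnG2_13 E, nnG2_14 E, nnG2_15 E, nnG2_16 E, nnG2_17 E, nnG2_18 E, nnG2_19 E, nnG2_20 E, nnG2_21 E, nnG2_22 E, nnG2_23 E, nnG2_24 E, nnG2_25 E, nnG2_26 E, nnG2_27 E, nnG2_28 E, nnG2_29 E, nnG2_30 E, nnG2_31 E, nnG2_32 E, nnG2_33 E, nnG2_34 E, nnG2_35 E, nnG2_36 E, nnG2_37 E, nnG2_38 E, nnG2_39 E, nnG2_40 E, nnG2_41 E, nnG2_42 E, nnG2_43 E, nnG2_44 E, nnG2_45 E, nnG2_46 E, nnG2_47 E, nnG2_48 E, nnG2_49 E, nnG2_50 E, nnG2_51 E, nnG2_52 E, nnG2_53 E, nnG2_54 E, nnG2_55 E, nnG2_56 E, nnG2_57 E, nnG2_58 E, nnG2_59 E, nnG2_60 E, nnG2_61 E, nnG2_62 E, nnG2_63 E, nnG2_64 E, nnG2_65 E, nnG2_66 E, dot_replicate_nonneg _ _ _, fun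 _ h => by simp at h⟩
  exact final_mult _ 30000000000000000 (by norm_num) targetG2 _ U1G2 rrG2 (sval E) hs h0 h1
    (mult_step E keys U1G2 rrG2 (hRG2 E)) fin_chkG2

end YMBG
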