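import Pool.Agent.YM.BG.CG3_G0
import Pool.Agent.YM.BG.CG3_G1
import Pool.Agent.YM.BG.CG3_H5
import Pool.Agent.YM.BG.CG3_H6
import Pool.Agent.YM.BG.CG3_G2
import Pool.Agent.YM.BG.CG3_G3
import Pool.Agent.YM.BG.CG3_G4
import Pool.Agent.YM.BG.CG3_G5
import Pool.Agent.YM.BG.CG3_G6
import Pool.Agent.YM.BG.CG3_G7
import Pool.Agent.YM.BG.CG3_G8
import Pool.Agent.YM.BG.CG3_G9
import Pool.Agent.YM.BG.CG3_G10
import Pool.Agent.YM.BG.CG3_G11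
import Pool.Agent.YM.BG.CG3_G12
import Pool.Agent.YM.BG.CG3_G13
import Pool.Agent.YM.BG.CG3_G14
import Pool.Agent.YM.BG.CG3_G15
import Pool.Agent.YM.BG.CG3_G16
import Pool.Agent.YM.BG.CG3_G17
import Pool.Agent.YM.BG.CG3_G18
import Pool.Agent.YM.BG.CG3_G19
import Pool.Agent.YM.BG.CG3_G20
import Pool.Agent.YM.BG.RG3

set_option linter.unusedVariables false
set_option maxRecDepth 100000

open YMEng

namespace YMBG

variable {κ ι : Type*} [Fintype κ] [Fintype ι] [Inhabited κ] [Inhabited ι]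

theorem U1_chkG3 : eqZ (vsum [gG3_67, gG3_68, gG3_69, gG3_70, gG3_71, gG3_72, gG3_73, gG3_74, gG3_75, gG3_76, gG3_77, gG3_78, gG3_79, gG3_80, gG3_81, gG3_82, gG3_83, gG3_84, gG3_85, gG3_86, gG3_87, gG3_88, gG3_89, gG3_90, gG3_91, gG3_92, gG3_93, gG3_94, gG3_95, gG3_96]) (vadd (lS U1G3) (List.replicate 406 0)) = true := by
  decide +kernel

theorem fin_chkG3 : eqZ (vadd (vsc ((90000000000000000 : ℕ) : ℤ) targetG3) (lS rrG3)) (vadd (vsum [gG3_0, gG3_1, gG3_2, gG3_3, gG3_4, gG3_5, gG3_6, gG3_7, gG3_8, gG3_9, gG3_10, gG3_11, gG3_12, gG3_13, gG3_14, gG3_15, gG3_16, gG3_17, gG3_18, gG3_19, gG3_20, gG3_21, gG3_22, gG3_23, gG3_24, gG3_25, gG3_26, gG3_27, gG3_28, gG3_29, gG3_30, gG3_31, gG3_32, gG3_33, gG3_34, gG3_35, gG3_36, gG3_37, gG3_38, gG3_39, gG3_40, gG3_41, gG3_42, gG3_43, gG3_44, gG3_45, gG3_46, gG3_47, gG3_48, gG3_49, gG3_50,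 gG3_51, gG3_52, gG3_53, gG3_54, gG3_55, gG3_56, gG3_57, gG3_58, gG3_59, gG3_60, gG3_61, gG3_62, gG3_63, gG3_64, gG3_65, gG3_66, List.replicate 451 0]) (lS U1G3)) = true := by
  decide +kernel

/-- the certificate: `sval E = |m|² + |B|²` -/
theorem finalG3 (E : Env κ ι) (hs : sval E ≤ 1) : 0 ≤ dot (ek E keys) targetG3 0 := by
  have h1 : 0 ≤ dot (ek E keys) (lS U1G3) 0 := by
    have h2 : 0 ≤ dot (ek E keys) (vadd (lS U1G3) (List.replicate 406 0)) 0 := by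
      rw [← eqZ_eq _ _ U1_chkG3]
      refine vsum_nonneg _ _ ?_
      simp only [List.forall_mem_cons]
      exact ⟨nnG3_67 E, nnG3_68 E, nnG3_69 E, nnG3_70 E, nnG3_71 E, nnG3_72 E, nnG3_73 E, nnG3_74 E, nnG3_75 E, nnG3_76 E, nnG3_77 E, nnG3_78 E, nnG3_79 E, nnG3_80 E, nnG3_81 E, nnG3_82 E, nnG3_83 E, nnG3_84 E, nnG3_85 E, nnG3_86 E, nnG3_87 E, nnG3_88 E, nnG3_89 E, nnG3_90 E, nnG3_91 E, nnG3_92 E, nnG3_93 E, nnG3_94 E, nnG3_95 E, nnG3_96 E, fun _ h => by simp at h⟩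
    rw [dot_vadd, dot_replicate, add_zero] at h2
    exact h2
  have h0 : 0 ≤ dot (ek E keys) (vsum [gG3_0, gG3_1, gG3_2, gG3_3, gG3_4, gG3_5, gG3_6, gG3_7, gG3_8, gG3_9, gG3_10, gG3_11, gG3_12, gG3_13, gG3_14, gG3_15, gG3_16, gG3_17, gG3_18, gG3_19, gG3_20, gG3_21, gG3_22, gG3_23, gG3_24, gG3_25, gG3_26, gG3_27, gG3_28, gG3_29, gG3_30, gG3_31, gG3_32, gG3_33, gG3_34, gG3_35, gG3_36, gG3_37, gG3_38, gG3_39, gG3_40, gG3_41, gG3_42, gG3_43, gG3_44, gG3_45, gG3_46, gG3_47, gG3_48, gG3_49, gG3_50, gG3_51, gG3_52, gG3_53, gG3_54, gG3_55, gG3_56, gG3_57, gG3_58, gG3_59, gG3_60, gG3_61, gG3_62, gG3_63, gG3_64, gG3_65, gG3_66, List.replicate 451 0]) 0 := by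
    refine vsum_nonneg _ _ ?_
    simp only [List.forall_mem_cons]
    exact ⟨nnG3_0 E, nnG3_1 E, nnG3_2 E, nnG3_3 E, nnG3_4 E, nnG3_5 E, nnG3_6 E, nnG3_7 E, nnG3_8 E, nnG3_9 E, nnG3_10 E, nnG3_11 E, nnG3_12 E, nnG3_13 E, nnG3_14 E, nnG3_15 E, nnG3_16 E, nnG3_17 E, nnG3_18 E, nnG3_19 E, nnG3_20 E, nnG3_21 E, nnG3_22 E, nnG3_23 E, nnG3_24 E, nnG3_25 E, nnG3_26 E, nnG3_27 E, nnG3_28 E, nnG3_29 E, nnG3_30 E, nnG3_31 E, nnG3_32 E, nnG3_33 E, nnG3_34 E, nnG3_35 E, nnG3_36 E, nnG3_37 E, nnG3_38 E, nnG3_39 E, nnG3_40 E, nnG3_41 E, nnG3_42 E, nnG3_43 E, nnG3_44 E, nnG3_45 E, nnG3_46 E, nnG3_47 E, nnG3_48 E, nnG3_49 E, nnG3_50 E, nnG3_51 E, nnG3_52 E, nnG3_53 E, nnG3_54 E, nnG3_55 E, nnG3_56 E, nnG3_57 E, nnG3_58 E, nnG3_59 E, nnG3_60 E, nnG3_61 E, nnG3_62 E, nnG3_63 E, nnG3_64 E, nnG3_65 E, nnG3_66 E, dot_replicate_nonneg _ _ _, fun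 _ h => by simp at h⟩
  exact final_mult _ 90000000000000000 (by norm_num) targetG3 _ U1G3 rrG3 (sval E) hs h0 h1
    (mult_step E keys U1G3 rrG3 (hRG3 E)) fin_chkG3

end YMBG
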