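import Pool.Agent.YM.BG.CG4_G0
import Pool.Agent.YM.BG.CG4_G1
import Pool.Agent.YM.BG.CG4_H5
import Pool.Agent.YM.BG.CG4_H6
import Pool.Agent.YM.BG.CG4_G2
import Pool.Agent.YM.BG.CG4_G3
import Pool.Agent.YM.BG.CG4_G4
import Pool.Agent.YM.BG.CG4_G5
import Pool.Agent.YM.BG.CG4_G6
import Pool.Agent.YM.BG.CG4_G7
import Pool.Agent.YM.BG.CG4_G8
import Pool.Agent.YM.BG.CG4_G9
import Pool.Agent.YM.BG.CG4_G10
import Pool.Agent.YM.BG.CG4_G11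
import Pool.Agent.YM.BG.CG4_G12
import Pool.Agent.YM.BG.CG4_G13
import Pool.Agent.YM.BG.CG4_G14
import Pool.Agent.YM.BG.CG4_G15
import Pool.Agent.YM.BG.CG4_G16
import Pool.Agent.YM.BG.CG4_G17
import Pool.Agent.YM.BG.CG4_G18
import Pool.Agent.YM.BG.CG4_G19
import Pool.Agent.YM.BG.CG4_G20
import Pool.Agent.YM.BG.RG4

set_option linter.unusedVariables false
set_option maxRecDepth 100000

open YMEng

namespace YMBG

variable {κ ι : Type*} [Fintype κ] [Fintype ι] [Inhabited κ] [Inhabited ι]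

theorem U1_chkG4 : eqZ (vsum [gG4_67, gG4_68, gG4_69, gG4_70, gG4_71, gG4_72, gG4_73, gG4_74, gG4_75, gG4_76, gG4_77, gG4_78, gG4_79, gG4_80, gG4_81, gG4_82, gG4_83, gG4_84, gG4_85, gG4_86, gG4_87, gG4_88, gG4_89, gG4_90, gG4_91, gG4_92, gG4_93, gG4_94, gG4_95, gG4_96]) (vadd (lS U1G4) (List.replicate 406 0)) = true := by
  decide +kernel

theorem fin_chkG4 : eqZ (vadd (vsc ((90000000000000000 : ℕ) : ℤ) targetG4) (lS rrG4)) (vadd (vsum [gG4_0, gG4_1, gG4_2, gG4_3, gG4_4, gG4_5, gG4_6, gG4_7, gG4_8, gG4_9, gG4_10, gG4_11, gG4_12, gG4_13, gG4_14, gG4_15, gG4_16, gG4_17, gG4_18, gG4_19, gG4_20, gG4_21, gG4_22, gG4_23, gG4_24, gG4_25, gG4_26, gG4_27, gG4_28, gG4_29, gG4_30, gG4_31, gG4_32, gG4_33, gG4_34, gG4_35, gG4_36, gG4_37, gG4_38, gG4_39, gG4_40, gG4_41, gG4_42, gG4_43, gG4_44, gG4_45, gG4_46, gG4_47, gG4_48, gG4_49, gG4_50,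 gG4_51, gG4_52, gG4_53, gG4_54, gG4_55, gG4_56, gG4_57, gG4_58, gG4_59, gG4_60, gG4_61, gG4_62, gG4_63, gG4_64, gG4_65, gG4_66, List.replicate 451 0]) (lS U1G4)) = true := by
  decide +kernel

/-- the certificate: `sval E = |m|² + |B|²` -/
theorem finalG4 (E : Env κ ι) (hs : sval E ≤ 1) : 0 ≤ dot (ek E keys) targetG4 0 := by
  have h1 : 0 ≤ dot (ek E keys) (lS U1G4) 0 := by
    have h2 : 0 ≤ dot (ek E keys) (vadd (lS U1G4) (List.replicate 406 0)) 0 := by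
      rw [← eqZ_eq _ _ U1_chkG4]
      refine vsum_nonneg _ _ ?_
      simp only [List.forall_mem_cons]
      exact ⟨nnG4_67 E, nnG4_68 E, nnG4_69 E, nnG4_70 E, nnG4_71 E, nnG4_72 E, nnG4_73 E, nnG4_74 E, nnG4_75 E, nnG4_76 E, nnG4_77 E, nnG4_78 E, nnG4_79 E, nnG4_80 E, nnG4_81 E, nnG4_82 E, nnG4_83 E, nnG4_84 E, nnG4_85 E, nnG4_86 E, nnG4_87 E, nnG4_88 E, nnG4_89 E, nnG4_90 E, nnG4_91 E, nnG4_92 E, nnG4_93 E, nnG4_94 E, nnG4_95 E, nnG4_96 E, fun _ h => by simp at h⟩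
    rw [dot_vadd, dot_replicate, add_zero] at h2
    exact h2
  have h0 : 0 ≤ dot (ek E keys) (vsum [gG4_0, gG4_1, gG4_2, gG4_3, gG4_4, gG4_5, gG4_6, gG4_7, gG4_8, gG4_9, gG4_10, gG4_11, gG4_12, gG4_13, gG4_14, gG4_15, gG4_16, gG4_17, gG4_18, gG4_19, gG4_20, gG4_21, gG4_22, gG4_23, gG4_24, gG4_25, gG4_26, gG4_27, gG4_28, gG4_29, gG4_30, gG4_31, gG4_32, gG4_33, gG4_34, gG4_35, gG4_36, gG4_37, gG4_38, gG4_39, gG4_40, gG4_41, gG4_42, gG4_43, gG4_44, gG4_45, gG4_46, gG4_47, gG4_48, gG4_49, gG4_50, gG4_51, gG4_52, gG4_53, gG4_54, gG4_55, gG4_56, gG4_57, gG4_58, gG4_59, gG4_60, gG4_61, gG4_62, gG4_63, gG4_64, gG4_65, gG4_66, List.replicate 451 0]) 0 := by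
    refine vsum_nonneg _ _ ?_
    simp only [List.forall_mem_cons]
    exact ⟨nnG4_0 E, nnG4_1 E, nnG4_2 E, nnG4_3 E, nnG4_4 E, nnG4_5 E, nnG4_6 E, nnG4_7 E, nnG4_8 E, nnG4_9 E, nnG4_10 E, nnG4_11 E, nnG4_12 E, nnG4_13 E, nnG4_14 E, nnG4_15 E, nnG4_16 E, nnG4_17 E, nnG4_18 E, nnG4_19 E, nnG4_20 E, nnG4_21 E, nnG4_22 E, nnG4_23 E, nnG4_24 E, nnG4_25 E, nnG4_26 E, nnG4_27 E, nnG4_28 E, nnG4_29 E, nnG4_30 E, nnG4_31 E, nnG4_32 E, nnG4_33 E, nnG4_34 E, nnG4_35 E, nnG4_36 E, nnG4_37 E, nnG4_38 E, nnG4_39 E, nnG4_40 E, nnG4_41 E, nnG4_42 E, nnG4_43 E, nnG4_44 E, nnG4_45 E, nnG4_46 E, nnG4_47 E, nnG4_48 E, nnG4_49 E, nnG4_50 E, nnG4_51 E, nnG4_52 E, nnG4_53 E, nnG4_54 E, nnG4_55 E, nnG4_56 E, nnG4_57 E, nnG4_58 E, nnG4_59 E, nnG4_60 E, nnG4_61 E, nnG4_62 E, nnG4_63 E, nnG4_64 E, nnG4_65 E, nnG4_66 E, dot_replicate_nonneg _ _ _, fun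 _ h => by simp at h⟩
  exact final_mult _ 90000000000000000 (by norm_num) targetG4 _ U1G4 rrG4 (sval E) hs h0 h1
    (mult_step E keys U1G4 rrG4 (hRG4 E)) fin_chkG4

end YMBG
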