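import Pool.Agent.YM.BG.Ga0

set_option linter.unusedVariables false
set_option maxRecDepth 100000

open YMEng

namespace YMBG

def lk0 : List Key := [
  (1, 3, [(0, [0], [0, 1]), (0, [0], [0, 2]), (4, [], [2]), (4, [], [1])]),
  (1, 5, [(0, [0], [0, 1]), (0, [0], [0, 2]), (4, [], [2]), (4, [], [1]), (1, [], [3, 4]), (1, [], [3, 4])]),
  (2, 5, [(0, [0], [0, 1]), (0, [0], [0, 1]), (0, [1], [2, 3]), (0, [1], [2, 4]), (4, [], [4]), (4, [], [3])]),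
  (2, 5, [(0, [0], [0, 1]), (0, [1], [0, 2]), (0, [1], [3, 4]), (0, [0], [3, 4]), (4, [], [2]), (4, [], [1])]),
  (2, 7, [(0, [0], [0, 1]), (0, [0], [0, 1]), (0, [1], [2, 3]), (0, [1], [2, 4]), (4, [], [4]), (4, [], [3]), (1, [], [5, 6]), (1, [], [5, 6])]),
  (3, 7, [(0, [0], [0, 1]), (0, [0], [0, 1]), (0, [1], [2, 3]), (0, [1], [2, 3]), (0, [2], [4, 5]), (0, [2], [4, 6]), (4, [], [6]), (4, [], [5])]),
  (3, 7, [(0, [0], [0, 1]), (0, [0], [0, 1]), (0, [1], [2, 3]), (0, [2], [2, 4]), (0, [2], [5, 6]), (0, [1], [5, 6]), (4, [], [4]), (4, [], [3])]),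
  (1, 7, [(0, [0], [0, 1]), (0, [0], [2, 3]), (1, [], [0, 4]), (1, [], [2, 3]), (4, [], [1]), (4, [], [4]), (1, [], [5, 6]), (1, [], [5, 6])]),
  (2, 7, [(0, [0], [0, 1]), (0, [0], [0, 1]), (0, [1], [2, 3]), (0, [1], [4, 5]), (1, [], [2, 6]), (1, [], [4, 5]), (4, [], [3]), (4, [], [6])]),
  (1, 6, [(0, [0], [0, 1]), (1, [], [2, 3]), (2, [0], [0, 2, 3]), (4, [], [1]), (1, [], [4, 5]), (1, [], [4, 5])]),
  (1, 7, [(0, [0], [0, 1]), (0, [0], [0, 2]), (4, [], [2]), (4, [], [1]), (1, [], [3, 4]), (1, [], [3, 4]), (1, [], [5, 6]), (1, [], [5, 6])]),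
  (2, 7, [(0, [0], [0, 1]), (0, [1], [0, 2]), (0, [1], [3, 4]), (0, [0], [3, 4]), (4, [], [2]), (4, [], [1]), (1, [], [5, 6]), (1, [], [5, 6])]),
  (1, 6, [(0, [0], [0, 1]), (0, [0], [2, 3]), (3, [], [0, 2, 3]), (4, [], [1]), (1, [], [4, 5]), (1, [], [4, 5])]),
  (2, 6, [(0, [0], [0, 1]), (0, [0], [0, 1]), (0, [1], [2, 3]), (0, [1], [4, 5]), (3, [], [2, 4, 5]), (4, [], [3])]),
  (2, 6, [(0, [0], [0, 1]), (0, [0], [0, 1]), (0, [1], [2, 3]), (1, [], [4, 5]), (2, [1], [2, 4, 5]), (4, [], [3])]),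
  (1, 5, [(0, [0], [0, 1]), (0, [0], [2, 3]), (1, [], [0, 4]), (1, [], [2, 3]), (4, [], [1]), (4, [], [4])]),
  (1, 4, [(0, [0], [0, 1]), (1, [], [2, 3]), (2, [0], [0, 2, 3]), (4, [], [1])]),
  (2, 5, [(0, [0], [0, 1]), (0, [1], [0, 2]), (0, [1], [2, 3]), (0, [0], [1, 4]), (4, [], [4]), (4, [], [3])]),
  (2, 5, [(0, [0], [0, 1]), (0, [1], [0, 2]), (0, [0], [2, 3]), (0, [1], [1, 4]), (4, [], [4]), (4, [], [3])]),
  (2, 6, [(0, [0], [0, 1]), (0, [1], [0, 2]), (0, [0], [1, 3]), (1, [], [4, 5]), (2, [1], [2, 4, 5]), (4, [], [3])]),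
  (2, 7, [(0, [0], [0, 1]), (0, [0], [2, 3]), (0, [1], [0, 4]), (0, [1], [4, 5]), (1, [], [1, 6]), (1, [], [2, 3]), (4, [], [5]), (4, [], [6])]),
  (2, 7, [(0, [0], [0, 1]), (0, [1], [0, 2]), (0, [1], [2, 3]), (0, [0], [1, 4]), (4, [], [4]), (4, [], [3]), (1, [], [5, 6]), (1, [], [5, 6])]),
  (2, 6, [(0, [0], [0, 1]), (0, [0], [2, 3]), (0, [1], [0, 2]), (1, [], [4, 5]), (2, [1], [1, 4, 5]), (4, [], [3])]),
  (2, 7, [(0, [0], [0, 1]), (0, [1], [0, 2]), (0, [1], [1, 3]), (0, [0], [4, 5]), (1, [], [2, 6]), (1, [], [4, 5]), (4, [], [3]), (4, [], [6])]),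
  (2, 7, [(0, [0], [0, 1]), (0, [1], [0, 2]), (0, [0], [2, 3]), (0, [1], [1, 4]), (4, [], [4]), (4, [], [3]), (1, [], [5, 6]), (1, [], [5, 6])]),
  (3, 7, [(0, [0], [0, 1]), (0, [1], [0, 2]), (0, [0], [2, 3]), (0, [2], [1, 4]), (0, [1], [5, 6]), (0, [2], [5, 6]), (4, [], [3]), (4, [], [4])]),
  (3, 7, [(0, [0], [0, 1]), (0, [1], [0, 2]), (0, [0], [3, 4]), (0, [1], [3, 4]), (0, [2], [1, 5]), (0, [2], [5, 6]), (4, [], [2]), (4, [], [6])]),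
  (1, 4, [(0, [0], [0, 1]), (0, [0], [0, 2]), (1, [], [1, 3]), (4, [], [2]), (4, [], [3])]),
  (2, 6, [(0, [0], [0, 1]), (0, [0], [0, 1]), (0, [1], [2, 3]), (0, [1], [2, 4]), (1, [], [3, 5]), (4, [], [4]), (4, [], [5])]),
  (1, 6, [(0, [0], [0, 1]), (0, [0], [2, 3]), (1, [], [0, 4]), (1, [], [4, 5]), (1, [], [2, 3]), (4, [], [1]), (4, [], [5])]),
  (1, 6, [(0, [0], [0, 1]), (0, [0], [2, 3]), (1, [], [2, 3]), (4, [], [0]), (4, [], [1]), (1, [], [4, 5]), (1, [], [4, 5])]),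
  (1, 6, [(0, [0], [0, 1]), (0, [0], [0, 2]), (1, [], [1, 3]), (4, [], [2]), (4, [], [3]), (1, [], [4, 5]), (1, [], [4, 5])]),
  (2, 6, [(0, [0], [0, 1]), (0, [0], [2, 3]), (0, [1], [0, 4]), (0, [1], [4, 5]), (1, [], [2, 3]), (4, [], [1]), (4, [], [5])]),
  (2, 6, [(0, [0], [0, 1]), (0, [0], [0, 1]), (0, [1], [2, 3]), (0, [1], [4, 5]), (1, [], [4, 5]), (4, [], [2]), (4, [], [3])]),
  (1, 6, [(0, [0], [0, 1]), (0, [0], [2, 3]), (1, [], [0, 2]), (4, [], [3]), (4, [], [1]), (1, [], [4, 5]), (1, [], [4, 5])]),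
  (2, 6, [(0, [0], [0, 1]), (0, [0], [0, 1]), (0, [1], [2, 3]), (0, [1], [4, 5]), (1, [], [2, 4]), (4, [], [5]), (4, [], [3])]),
  (1, 4, [(0, [0], [0, 1]), (0, [0], [2, 3]), (1, [], [2, 3]), (4, [], [0]), (4, [], [1])]),
  (1, 4, [(0, [0], [0, 1]), (0, [0], [2, 3]), (1, [], [0, 2]), (4, [], [3]), (4, [], [1])]),
  (2, 6, [(0, [0], [0, 1]), (0, [1], [0, 2]), (0, [1], [1, 3]), (0, [0], [4, 5]), (1, [], [4, 5]), (4, [], [3]), (4, [], [2])]),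
  (2, 6, [(0, [0], [0, 1]), (0, [1], [0, 2]), (0, [1], [1, 3]), (0, [0], [4, 5]), (1, [], [2, 4]), (4, [], [3]), (4, [], [5])]),
  (2, 6, [(0, [0], [0, 1]), (0, [0], [2, 3]), (0, [1], [0, 4]), (0, [1], [4, 5]), (1, [], [2, 5]), (4, [], [1]), (4, [], [3])]),
  (2, 6, [(0, [0], [0, 1]), (0, [1], [0, 2]), (0, [0], [2, 3]), (0, [1], [1, 4]), (1, [], [3, 5]), (4, [], [4]), (4, [], [5])]),
  (2, 6, [(0, [0], [0, 1]), (0, [0], [2, 3]), (0, [1], [0, 4]), (0, [1], [4, 5]), (1, [], [1, 2]), (4, [], [3]), (4, [], [5])]),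
  (2, 6, [(0, [0], [0, 1]), (0, [0], [2, 3]), (0, [1], [0, 4]), (0, [1], [2, 4]), (1, [], [1, 5]), (4, [], [3]), (4, [], [5])]),
  (1, 5, [(0, [0], [0, 1]), (0, [0], [0, 2]), (1, [], [1, 3]), (1, [], [3, 4]), (4, [], [2]), (4, [], [4])]),
  (2, 5, [(0, [0], [0, 1]), (0, [0], [2, 3]), (0, [1], [2, 4]), (0, [1], [0, 4]), (4, [], [3]), (4, [], [1])]),
  (3, 7, [(0, [0], [0, 1]), (0, [0], [0, 2]), (0, [1], [1, 2]), (4, [], [3]), (0, [2], [4, 5]), (0, [2], [4, 6]), (0, [1], [5, 6]), (4, [], [3])]),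
  (3, 7, [(0, [0], [0, 1]), (0, [0], [0, 2]), (0, [1], [1, 2]), (4, [], [3]), (0, [2], [4, 5]), (0, [2], [4, 6]), (0, [1], [3, 6]), (4, [], [5])]),
  (3, 7, [(0, [0], [0, 1]), (0, [0], [0, 2]), (0, [1], [1, 2]), (4, [], [3]), (0, [2], [4, 5]), (0, [2], [4, 5]), (0, [1], [3, 6]), (4, [], [6])]),
  (3, 7, [(0, [0], [0, 1]), (0, [0], [0, 2]), (0, [1], [1, 2]), (4, [], [3]), (0, [2], [4, 5]), (0, [2], [3, 6]), (0, [1], [4, 6]), (4, [], [5])]),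
  (3, 7, [(0, [0], [0, 1]), (0, [0], [0, 2]), (0, [1], [1, 2]), (4, [], [3]), (0, [2], [4, 5]), (0, [2], [3, 6]), (0, [1], [4, 5]), (4, [], [6])]),
  (2, 7, [(0, [0], [0, 1]), (0, [0], [0, 2]), (0, [1], [1, 2]), (4, [], [3]), (0, [1], [4, 5]), (1, [], [4, 6]), (1, [], [5, 6]), (4, [], [3])]),
  (2, 7, [(0, [0], [0, 1]), (0, [0], [0, 2]), (0, [1], [1, 2]), (4, [], [3]), (0, [1], [4, 5]), (1, [], [4, 6]), (1, [], [3, 6]), (4, [], [5])]),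
  (2, 7, [(0, [0], [0, 1]), (0, [0], [0, 2]), (0, [1], [1, 2]), (4, [], [3]), (0, [1], [4, 5]), (1, [], [4, 6]), (1, [], [3, 5]), (4, [], [6])]),
  (2, 7, [(0, [0], [0, 1]), (0, [0], [0, 2]), (0, [1], [1, 2]), (4, [], [3]), (0, [1], [4, 5]), (1, [], [4, 5]), (1, [], [3, 6]), (4, [], [6])]),
  (2, 6, [(0, [0], [0, 1]), (0, [0], [0, 2]), (0, [1], [1, 2]), (4, [], [3]), (0, [1], [4, 5]), (1, [], [4, 5]), (4, [], [3])]),
  (2, 6, [(0, [0], [0, 1]), (0, [0], [0, 2]), (0, [1], [1, 2]), (4, [], [3]), (0, [1], [4, 5]), (1, [], [3, 4]), (4, [], [5])]),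
  (2, 6, [(0, [0], [0, 1]), (0, [0], [0, 2]), (0, [1], [1, 2]), (4, [], [3]), (0, [1], [4, 5]), (3, [], [3, 4, 5])]),
  (2, 7, [(0, [0], [0, 1]), (0, [0], [0, 2]), (0, [1], [1, 2]), (4, [], [3]), (0, [1], [3, 4]), (1, [], [5, 6]), (1, [], [5, 6]), (4, [], [4])]),
  (2, 5, [(0, [0], [0, 1]), (0, [0], [0, 2]), (0, [1], [1, 2]), (4, [], [3]), (0, [1], [3, 4]), (4, [], [4])]),
  (2, 6, [(0, [0], [0, 1]), (0, [0], [0, 2]), (0, [1], [1, 2]), (4, [], [3]), (1, [], [4, 5]), (2, [1], [3, 4, 5])]),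
  (3, 7, [(0, [0], [0, 1]), (0, [0], [0, 2]), (0, [1], [3, 2]), (4, [], [1]), (0, [2], [4, 5]), (0, [2], [4, 6]), (0, [1], [3, 6]), (4, [], [5])]),
  (3, 7, [(0, [0], [0, 1]), (0, [0], [0, 2]), (0, [1], [3, 2]), (4, [], [1]), (0, [2], [4, 5]), (0, [2], [4, 5]), (0, [1], [3, 6]), (4, [], [6])]),
  (3, 7, [(0, [0], [0, 1]), (0, [0], [0, 2]), (0, [1], [3, 2]), (4, [], [1]), (0, [2], [4, 5]), (0, [2], [3, 6]), (0, [1], [4, 6]), (4, [], [5])]),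
  (3, 7, [(0, [0], [0, 1]), (0, [0], [0, 2]), (0, [1], [3, 2]), (4, [], [1]), (0, [2], [4, 5]), (0, [2], [3, 4]), (0, [1], [5, 6]), (4, [], [6])]),
  (2, 7, [(0, [0], [0, 1]), (0, [0], [0, 2]), (0, [1], [3, 2]), (4, [], [1]), (0, [1], [4, 5]), (1, [], [4, 6]), (1, [], [5, 6]), (4, [], [3])]),
  (2, 7, [(0, [0], [0, 1]), (0, [0], [0, 2]), (0, [1], [3, 2]), (4, [], [1]), (0, [1], [4, 5]), (1, [], [4, 6]), (1, [], [3, 6]), (4, [], [5])]),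
  (2, 7, [(0, [0], [0, 1]), (0, [0], [0, 2]), (0, [1], [3, 2]), (4, [], [1]), (0, [1], [4, 5]), (1, [], [4, 6]), (1, [], [3, 5]), (4, [], [6])]),
  (2, 6, [(0, [0], [0, 1]), (0, [0], [0, 2]), (0, [1], [3, 2]), (4, [], [1]), (0, [1], [4, 5]), (3, [], [3, 4, 5])]),
  (2, 7, [(0, [0], [0, 1]), (0, [0], [0, 2]), (0, [1], [3, 2]), (4, [], [1]), (0, [1], [3, 4]), (1, [], [5, 6]), (1, [], [4, 5]), (4, [], [6])]),
  (2, 6, [(0, [0], [0, 1]), (0, [0], [0, 2]), (0, [1], [3, 2]), (4, [], [1]), (0, [1], [3, 4]), (1, [], [4, 5]), (4, [], [5])]),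
  (3, 7, [(0, [0], [0, 1]), (0, [0], [0, 1]), (0, [1], [2, 3]), (4, [], [3]), (0, [2], [4, 5]), (0, [2], [2, 6]), (0, [1], [4, 6]), (4, [], [5])]),
  (3, 7, [(0, [0], [0, 1]), (0, [0], [0, 1]), (0, [1], [2, 3]), (4, [], [3]), (0, [2], [4, 5]), (0, [2], [2, 4]), (0, [1], [5, 6]), (4, [], [6])]),
  (2, 7, [(0, [0], [0, 1]), (0, [0], [0, 1]), (0, [1], [2, 3]), (4, [], [3]), (0, [1], [4, 5]), (1, [], [4, 6]), (1, [], [5, 6]), (4, [], [2])]),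
  (2, 7, [(0, [0], [0, 1]), (0, [0], [0, 1]), (0, [1], [2, 3]), (4, [], [3]), (0, [1], [4, 5]), (1, [], [4, 6]), (1, [], [2, 6]), (4, [], [5])]),
  (2, 7, [(0, [0], [0, 1]), (0, [0], [0, 1]), (0, [1], [2, 3]), (4, [], [3]), (0, [1], [4, 5]), (1, [], [4, 6]), (1, [], [2, 5]), (4, [], [6])]),
  (2, 7, [(0, [0], [0, 1]), (0, [0], [0, 1]), (0, [1], [2, 3]), (4, [], [3]), (0, [1], [2, 4]), (1, [], [5, 6]), (1, [], [4, 5]), (4, [], [6])]),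
  (3, 7, [(0, [0], [0, 1]), (0, [0], [2, 3]), (0, [1], [0, 3]), (4, [], [1]), (0, [2], [4, 5]), (0, [2], [2, 6]), (0, [1], [4, 6]), (4, [], [5])]),
  (3, 7, [(0, [0], [0, 1]), (0, [0], [2, 3]), (0, [1], [0, 3]), (4, [], [1]), (0, [2], [4, 5]), (0, [2], [2, 4]), (0, [1], [5, 6]), (4, [], [6])]),
  (2, 7, [(0, [0], [0, 1]), (0, [0], [2, 3]), (0, [1], [0, 3]), (4, [], [1]), (0, [1], [4, 5]), (1, [], [4, 6]), (1, [], [5, 6]), (4, [], [2])]),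
  (2, 7, [(0, [0], [0, 1]), (0, [0], [2, 3]), (0, [1], [0, 3]), (4, [], [1]), (0, [1], [4, 5]), (1, [], [4, 6]), (1, [], [2, 6]), (4, [], [5])]),
  (2, 7, [(0, [0], [0, 1]), (0, [0], [2, 3]), (0, [1], [0, 3]), (4, [], [1]), (0, [1], [4, 5]), (1, [], [4, 6]), (1, [], [2, 5]), (4, [], [6])]),
  (2, 6, [(0, [0], [0, 1]), (0, [0], [2, 3]), (0, [1], [0, 3]), (4, [], [1]), (0, [1], [4, 5]), (3, [], [2, 4, 5])]),
  (2, 7, [(0, [0], [0, 1]), (0, [0], [2, 3]), (0, [1], [0, 3]), (4, [], [1]), (0, [1], [2, 4]), (1, [], [5, 6]), (1, [], [4, 5]), (4, [], [6])]),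
  (3, 7, [(0, [0], [0, 1]), (0, [0], [2, 3]), (0, [1], [0, 1]), (4, [], [3]), (0, [2], [4, 5]), (0, [2], [2, 6]), (0, [1], [4, 5]), (4, [], [6])]),
  (3, 7, [(0, [0], [0, 1]), (0, [0], [2, 3]), (0, [1], [0, 1]), (4, [], [3]), (0, [2], [4, 5]), (0, [2], [2, 4]), (0, [1], [5, 6]), (4, [], [6])]),
  (2, 7, [(0, [0], [0, 1]), (0, [0], [2, 3]), (0, [1], [0, 1]), (4, [], [3]), (0, [1], [4, 5]), (1, [], [4, 6]), (1, [], [5, 6]), (4, [], [2])]),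
  (2, 7, [(0, [0], [0, 1]), (0, [0], [2, 3]), (0, [1], [0, 1]), (4, [], [3]), (0, [1], [4, 5]), (1, [], [4, 6]), (1, [], [2, 6]), (4, [], [5])]),
  (2, 7, [(0, [0], [0, 1]), (0, [0], [2, 3]), (0, [1], [0, 1]), (4, [], [3]), (0, [1], [4, 5]), (1, [], [4, 6]), (1, [], [2, 5]), (4, [], [6])]),
  (2, 7, [(0, [0], [0, 1]), (0, [0], [2, 3]), (0, [1], [0, 1]), (4, [], [3]), (0, [1], [4, 5]), (1, [], [4, 5]), (1, [], [2, 6]), (4, [], [6])]),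
  (2, 6, [(0, [0], [0, 1]), (0, [0], [2, 3]), (0, [1], [0, 1]), (4, [], [3]), (0, [1], [4, 5]), (1, [], [4, 5]), (4, [], [2])]),
  (2, 6, [(0, [0], [0, 1]), (0, [0], [2, 3]), (0, [1], [0, 1]), (4, [], [3]), (0, [1], [4, 5]), (1, [], [2, 4]), (4, [], [5])]),
  (2, 6, [(0, [0], [0, 1]), (0, [0], [2, 3]), (0, [1], [0, 1]), (4, [], [3]), (0, [1], [4, 5]), (3, [], [2, 4, 5])]),
  (2, 7, [(0, [0], [0, 1]), (0, [0], [2, 3]), (0, [1], [0, 1]), (4, [], [3]), (0, [1], [2, 4]), (1, [], [5, 6]), (1, [], [4, 5]), (4, [], [6])]),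
  (2, 6, [(0, [0], [0, 1]), (0, [0], [2, 3]), (0, [1], [0, 1]), (4, [], [3]), (0, [1], [2, 4]), (1, [], [4, 5]), (4, [], [5])]),
  (2, 6, [(0, [0], [0, 1]), (0, [0], [2, 3]), (0, [1], [0, 1]), (4, [], [3]), (1, [], [4, 5]), (2, [1], [2, 4, 5])]),
  (3, 7, [(0, [0], [0, 1]), (0, [0], [2, 0]), (0, [1], [1, 3]), (4, [], [3]), (0, [2], [4, 5]), (0, [2], [2, 4]), (0, [1], [5, 6]), (4, [], [6])]),
  (2, 7, [(0, [0], [0, 1]), (0, [0], [2, 0]), (0, [1], [1, 3]), (4, [], [3]), (0, [1], [4, 5]), (1, [], [4, 6]), (1, [], [2, 6]), (4, [], [5])]),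
  (2, 7, [(0, [0], [0, 1]), (0, [0], [2, 0]), (0, [1], [1, 3]), (4, [], [3]), (0, [1], [4, 5]), (1, [], [4, 6]), (1, [], [2, 5]), (4, [], [6])]),
  (2, 7, [(0, [0], [0, 1]), (0, [0], [2, 0]), (0, [1], [1, 3]), (4, [], [3]), (0, [1], [4, 5]), (1, [], [4, 5]), (1, [], [2, 6]), (4, [], [6])]),
  (2, 6, [(0, [0], [0, 1]), (0, [0], [2, 0]), (0, [1], [1, 3]), (4, [], [3]), (0, [1], [4, 5]), (3, [], [2, 4, 5])]),
  (2, 7, [(0, [0], [0, 1]), (0, [0], [2, 0]), (0, [1], [1, 3]), (4, [], [3]), (0, [1], [2, 4]), (1, [], [5, 6]), (1, [], [5, 6]), (4, [], [4])]),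
  (2, 7, [(0, [0], [0, 1]), (0, [0], [2, 0]), (0, [1], [1, 3]), (4, [], [3]), (0, [1], [2, 4]), (1, [], [5, 6]), (1, [], [4, 5]), (4, [], [6])]),
  (2, 6, [(0, [0], [0, 1]), (0, [0], [2, 0]), (0, [1], [1, 3]), (4, [], [3]), (1, [], [4, 5]), (2, [1], [2, 4, 5])]),
  (1, 7, [(0, [0], [0, 1]), (1, [], [0, 2]), (1, [], [1, 2]), (4, [], [3]), (0, [0], [4, 5]), (1, [], [4, 6]), (1, [], [5, 6]), (4, [], [3])]),
  (1, 7, [(0, [0], [0, 1]), (1, [], [0, 2]), (1, [], [1, 2]), (4, [], [3]), (0, [0], [4, 5]), (1, [], [4, 6]), (1, [], [3, 6]), (4, [], [5])]),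
  (1, 7, [(0, [0], [0, 1]), (1, [], [0, 2]), (1, [], [1, 2]), (4, [], [3]), (0, [0], [4, 5]), (1, [], [4, 6]), (1, [], [3, 5]), (4, [], [6])]),
  (1, 7, [(0, [0], [0, 1]), (1, [], [0, 2]), (1, [], [1, 2]), (4, [], [3]), (0, [0], [4, 5]), (1, [], [4, 5]), (1, [], [3, 6]), (4, [], [6])]),
  (1, 6, [(0, [0], [0, 1]), (1, [], [0, 2]), (1, [], [1, 2]), (4, [], [3]), (0, [0], [4, 5]), (1, [], [4, 5]), (4, [], [3])]),
  (1, 6, [(0, [0], [0, 1]), (1, [], [0, 2]), (1, [], [1, 2]), (4, [], [3]), (0, [0], [4, 5]), (1, [], [3, 4]), (4, [], [5])]),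
  (1, 6, [(0, [0], [0, 1]), (1, [], [0, 2]), (1, [], [1, 2]), (4, [], [3]), (0, [0], [4, 5]), (3, [], [3, 4, 5])]),
  (1, 7, [(0, [0], [0, 1]), (1, [], [0, 2]), (1, [], [1, 2]), (4, [], [3]), (0, [0], [3, 4]), (1, [], [5, 6]), (1, [], [5, 6]), (4, [], [4])]),
  (1, 5, [(0, [0], [0, 1]), (1, [], [0, 2]), (1, [], [1, 2]), (4, [], [3]), (0, [0], [3, 4]), (4, [], [4])]),
  (1, 6, [(0, [0], [0, 1]), (1, [], [0, 2]), (1, [], [1, 2]), (4, [], [3]), (1, [], [4, 5]), (2, [0], [3, 4, 5])]),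
  (1, 7, [(0, [0], [0, 1]), (1, [], [0, 2]), (1, [], [3, 2]), (4, [], [1]), (0, [0], [4, 5]), (1, [], [4, 6]), (1, [], [3, 6]), (4, [], [5])]),
  (1, 7, [(0, [0], [0, 1]), (1, [], [0, 2]), (1, [], [3, 2]), (4, [], [1]), (0, [0], [4, 5]), (1, [], [4, 6]), (1, [], [3, 5]), (4, [], [6])]),
  (1, 7, [(0, [0], [0, 1]), (1, [], [0, 2]), (1, [], [3, 2]), (4, [], [1]), (0, [0], [4, 5]), (1, [], [4, 5]), (1, [], [3, 6]), (4, [], [6])]),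
  (1, 6, [(0, [0], [0, 1]), (1, [], [0, 2]), (1, [], [3, 2]), (4, [], [1]), (0, [0], [4, 5]), (1, [], [3, 4]), (4, [], [5])]),
  (1, 6, [(0, [0], [0, 1]), (1, [], [0, 2]), (1, [], [3, 2]), (4, [], [1]), (0, [0], [4, 5]), (3, [], [3, 4, 5])]),
  (1, 7, [(0, [0], [0, 1]), (1, [], [0, 2]), (1, [], [3, 2]), (4, [], [1]), (0, [0], [3, 4]), (1, [], [5, 6]), (1, [], [5, 6]), (4, [], [4])]),
  (1, 7, [(0, [0], [0, 1]), (1, [], [0, 2]), (1, [], [3, 2]), (4, [], [1]), (0, [0], [3, 4]), (1, [], [5, 6]), (1, [], [4, 5]), (4, [], [6])]),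
  (1, 6, [(0, [0], [0, 1]), (1, [], [0, 2]), (1, [], [3, 2]), (4, [], [1]), (0, [0], [3, 4]), (1, [], [4, 5]), (4, [], [5])]),
  (1, 5, [(0, [0], [0, 1]), (1, [], [0, 2]), (1, [], [3, 2]), (4, [], [1]), (0, [0], [3, 4]), (4, [], [4])]),
  (1, 6, [(0, [0], [0, 1]), (1, [], [0, 2]), (1, [], [3, 2]), (4, [], [1]), (1, [], [4, 5]), (2, [0], [3, 4, 5])]),
  (1, 7, [(0, [0], [0, 1]), (1, [], [0, 2]), (1, [], [3, 1]), (4, [], [2]), (0, [0], [4, 5]), (1, [], [4, 6]), (1, [], [3, 5]), (4, [], [6])]),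
  (1, 7, [(0, [0], [0, 1]), (1, [], [0, 2]), (1, [], [3, 1]), (4, [], [2]), (0, [0], [4, 5]), (1, [], [4, 5]), (1, [], [3, 6]), (4, [], [6])]),
  (1, 6, [(0, [0], [0, 1]), (1, [], [0, 2]), (1, [], [3, 1]), (4, [], [2]), (0, [0], [4, 5]), (1, [], [4, 5]), (4, [], [3])]),
  (1, 6, [(0, [0], [0, 1]), (1, [], [0, 2]), (1, [], [3, 1]), (4, [], [2]), (0, [0], [4, 5]), (3, [], [3, 4, 5])]),
  (1, 7, [(0, [0], [0, 1]), (1, [], [0, 2]), (1, [], [3, 1]), (4, [], [2]), (0, [0], [3, 4]), (1, [], [5, 6]), (1, [], [5, 6]), (4, [], [4])]),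
  (1, 7, [(0, [0], [0, 1]), (1, [], [0, 2]), (1, [], [3, 1]), (4, [], [2]), (0, [0], [3, 4]), (1, [], [5, 6]), (1, [], [4, 5]), (4, [], [6])]),
  (1, 6, [(0, [0], [0, 1]), (1, [], [0, 2]), (1, [], [3, 1]), (4, [], [2]), (0, [0], [3, 4]), (1, [], [4, 5]), (4, [], [5])]),
  (1, 5, [(0, [0], [0, 1]), (1, [], [0, 2]), (1, [], [3, 1]), (4, [], [2]), (0, [0], [3, 4]), (4, [], [4])]),
  (1, 6, [(0, [0], [0, 1]), (1, [], [0, 2]), (1, [], [3, 1]), (4, [], [2]), (1, [], [4, 5]), (2, [0], [3, 4, 5])]),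
  (1, 7, [(0, [0], [0, 1]), (1, [], [0, 1]), (1, [], [2, 3]), (4, [], [3]), (0, [0], [4, 5]), (1, [], [4, 5]), (1, [], [2, 6]), (4, [], [6])]),
  (1, 6, [(0, [0], [0, 1]), (1, [], [0, 1]), (1, [], [2, 3]), (4, [], [3]), (0, [0], [4, 5]), (1, [], [4, 5]), (4, [], [2])]),
  (1, 6, [(0, [0], [0, 1]), (1, [], [0, 1]), (1, [], [2, 3]), (4, [], [3]), (0, [0], [4, 5]), (3, [], [2, 4, 5])]),
  (1, 6, [(0, [0], [0, 1]), (1, [], [0, 1]), (1, [], [2, 3]), (4, [], [3]), (1, [], [4, 5]), (2, [0], [2, 4, 5])]),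
  (1, 5, [(0, [0], [0, 1]), (1, [], [0, 1]), (4, [], [2]), (0, [0], [3, 4]), (1, [], [3, 4]), (4, [], [2])]),
  (1, 5, [(0, [0], [0, 1]), (1, [], [0, 1]), (4, [], [2]), (0, [0], [3, 4]), (3, [], [2, 3, 4])]),
  (1, 5, [(0, [0], [0, 1]), (1, [], [0, 1]), (4, [], [2]), (1, [], [3, 4]), (2, [0], [2, 3, 4])]),
  (1, 5, [(0, [0], [0, 1]), (1, [], [2, 0]), (4, [], [1]), (0, [0], [3, 4]), (3, [], [2, 3, 4])]),
  (1, 6, [(0, [0], [0, 1]), (1, [], [2, 0]), (4, [], [1]), (0, [0], [2, 3]), (1, [], [4, 5]), (1, [], [3, 4]), (4, [], [5])]),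
  (1, 5, [(0, [0], [0, 1]), (1, [], [2, 0]), (4, [], [1]), (1, [], [3, 4]), (2, [0], [2, 3, 4])]),
  (1, 5, [(0, [0], [0, 1]), (3, [], [2, 0, 1]), (0, [0], [3, 4]), (3, [], [2, 3, 4])]),
  (1, 6, [(0, [0], [0, 1]), (3, [], [2, 0, 1]), (0, [0], [2, 3]), (1, [], [4, 5]), (1, [], [3, 4]), (4, [], [5])]),
  (1, 5, [(0, [0], [0, 1]), (3, [], [2, 0, 1]), (0, [0], [2, 3]), (1, [], [3, 4]), (4, [], [4])]),
  (1, 4, [(0, [0], [0, 1]), (3, [], [2, 0, 1]), (0, [0], [2, 3]), (4, [], [3])]),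
  (1, 5, [(0, [0], [0, 1]), (3, [], [2, 0, 1]), (1, [], [3, 4]), (2, [0], [2, 3, 4])]),
  (1, 7, [(0, [0], [0, 1]), (1, [], [2, 3]), (1, [], [2, 3]), (4, [], [1]), (0, [0], [0, 4]), (1, [], [5, 6]), (1, [], [4, 5]), (4, [], [6])]),
  (1, 7, [(0, [0], [0, 1]), (1, [], [2, 3]), (1, [], [1, 2]), (4, [], [3]), (0, [0], [0, 4]), (1, [], [5, 6]), (1, [], [4, 5]), (4, [], [6])]),
  (1, 6, [(0, [0], [0, 1]), (1, [], [2, 3]), (1, [], [1, 2]), (4, [], [3]), (0, [0], [0, 4]), (1, [], [4, 5]), (4, [], [5])]),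
  (1, 6, [(0, [0], [0, 1]), (1, [], [2, 3]), (1, [], [1, 2]), (4, [], [3]), (1, [], [4, 5]), (2, [0], [0, 4, 5])]),
  (1, 5, [(0, [0], [0, 1]), (1, [], [1, 2]), (4, [], [2]), (0, [0], [0, 3]), (1, [], [3, 4]), (4, [], [4])]),
  (1, 5, [(0, [0], [0, 1]), (1, [], [1, 2]), (4, [], [2]), (1, [], [3, 4]), (2, [0], [0, 3, 4])]),
  (1, 5, [(1, [], [0, 1]), (2, [0], [2, 0, 1]), (1, [], [3, 4]), (2, [0], [2, 3, 4])])]

def kl0 : List ℕ := [1, 4, 5, 6, 12, 13, 14, 20, 22, 24, 25, 26, 27, 29, 30, 31, 32, 33, 34, 49, 50, 51, 54, 55, 56, 57, 58, 60, 64, 70, 73, 74, 75, 76, 77, 78, 79, 80, 83, 84, 85, 88, 89, 90, 92, 93, 94, 95, 96, 97, 98, 99, 100, 101, 102, 103, 104, 105, 106, 107, 108, 109, 110, 111, 112, 113, 114, 115, 116, 117, 118, 119, 120, 121, 122, 123, 124, 125, 126, 127, 128, 129, 130, 131, 132, 133, 134, 135, 136, 137, 138, 139, 140, 141,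 142, 143, 144, 145, 146, 147, 148, 149, 150, 151, 152, 153, 154, 155, 156, 157, 158, 159, 160, 161, 162, 163, 164, 165, 166, 167, 168, 169, 170, 171, 172, 173, 174, 175, 176, 177, 178, 179, 180, 181, 182, 183, 184, 185, 186, 187, 188, 189, 190, 191, 192, 193, 194, 195, 196, 197, 198, 199, 200, 201, 202]

def m0_0 : Base := (1, 3, [(0, [1], [1, 2]), (0, [1], [1, 3]), (0, [0], [2, 3]), (4, [], [0])])

def l0_0 : Cov := [(1, 1, 3, [(0, [1], [1, 2]), (0, [1], [1, 3]), (0, [0], [2, 3]), (4, [], [0])])]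

def z0_0 : Cov := []

def w0_0 : List (List Wit) := [[(0, 0, 0, 528, 528)]]

def m0_1 : Base := (1, 3, [(0, [1], [1, 2]), (0, [1], [1, 3]), (0, [0], [0, 3]), (4, [], [2])])

def l0_1 : Cov := [(1, 1, 3, [(0, [1], [1, 2]), (0, [1], [1, 3]), (0, [0], [0, 3]), (4, [], [2])])]

def z0_1 : Cov := []

def w0_1 : List (List Wit) := [[(0, 0, 0, 528, 528)]]

def m0_2 : Base := (1, 3, [(0, [1], [1, 2]), (0, [1], [1, 2]), (0, [0], [0, 3]), (4, [], [3])])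

def l0_2 : Cov := [(1, 1, 3, [(0, [1], [1, 2]), (0, [1], [1, 2]), (0, [0], [0, 3]), (4, [], [3])])]

def z0_2 : Cov := []

def w0_2 : List (List Wit) := [[(0, 0, 0, 528, 528)]]

def m0_3 : Base := (1, 3, [(0, [1], [1, 2]), (0, [1], [0, 3]), (0, [0], [1, 3]), (4, [], [2])])

def l0_3 : Cov := [(1, 1, 3, [(0, [1], [1, 2]), (0, [1], [0, 3]), (0, [0], [1, 3]), (4, [], [2])])]

def z0_3 : Cov := []

def w0_3 : List (List Wit) := [[(0, 0, 0, 528, 528)]]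

def m0_4 : Base := (1, 3, [(0, [1], [1, 2]), (0, [1], [0, 3]), (0, [0], [1, 2]), (4, [], [3])])

def l0_4 : Cov := [(1, 1, 3, [(0, [1], [1, 2]), (0, [1], [0, 3]), (0, [0], [1, 2]), (4, [], [3])])]

def z0_4 : Cov := []

def w0_4 : List (List Wit) := [[(0, 0, 0, 528, 528)]]

def m0_5 : Base := (1, 3, [(0, [1], [1, 2]), (0, [1], [0, 1]), (0, [0], [2, 3]), (4, [], [3])])

def l0_5 : Cov := [(1, 1, 3, [(0, [1], [1, 2]), (0, [1], [0, 1]), (0, [0], [2, 3]), (4, [], [3])])]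

def z0_5 : Cov := []

def w0_5 : List (List Wit) := [[(0, 0, 0, 528, 528)]]

def m0_6 : Base := (0, 3, [(0, [0], [1, 2]), (1, [], [1, 3]), (1, [], [2, 3]), (4, [], [0])])

def l0_6 : Cov := [(1, 0, 3, [(0, [0], [1, 2]), (1, [], [1, 3]), (1, [], [2, 3]), (4, [], [0])])]

def z0_6 : Cov := []

def w0_6 : List (List Wit) := [[(0, 0, 0, 528, 528)]]

def m0_7 : Base := (0, 3, [(0, [0], [1, 2]), (1, [], [1, 3]), (1, [], [0, 3]), (4, [], [2])])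

def l0_7 : Cov := [(1, 0, 3, [(0, [0], [1, 2]), (1, [], [1, 3]), (1, [], [0, 3]), (4, [], [2])])]

def z0_7 : Cov := []

def w0_7 : List (List Wit) := [[(0, 0, 0, 528, 528)]]

def m0_8 : Base := (0, 3, [(0, [0], [1, 2]), (1, [], [1, 3]), (1, [], [0, 2]), (4, [], [3])])

def l0_8 : Cov := [(1, 0, 3, [(0, [0], [1, 2]), (1, [], [1, 3]), (1, [], [0, 2]), (4, [], [3])])]

def z0_8 : Cov := []

def w0_8 : List (List Wit) := [[(0, 0, 0, 528, 528)]]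

def m0_9 : Base := (0, 3, [(0, [0], [1, 2]), (1, [], [1, 2]), (1, [], [0, 3]), (4, [], [3])])

def l0_9 : Cov := [(1, 0, 3, [(0, [0], [1, 2]), (1, [], [1, 2]), (1, [], [0, 3]), (4, [], [3])])]

def z0_9 : Cov := []

def w0_9 : List (List Wit) := [[(0, 0, 0, 528, 528)]]

def m0_10 : Base := (0, 2, [(0, [0], [1, 2]), (1, [], [1, 2]), (4, [], [0])])

def l0_10 : Cov := [(1, 0, 2, [(0, [0], [1, 2]), (1, [], [1, 2]), (4, [], [0])])]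

def z0_10 : Cov := []

def w0_10 : List (List Wit) := [[(0, 0, 0, 16, 16)]]

def m0_11 : Base := (0, 2, [(0, [0], [1, 2]), (1, [], [0, 1]), (4, [], [2])])

def l0_11 : Cov := [(1, 0, 2, [(0, [0], [1, 2]), (1, [], [0, 1]), (4, [], [2])])]

def z0_11 : Cov := []

def w0_11 : List (List Wit) := [[(0, 0, 0, 16, 16)]]

def m0_12 : Base := (0, 2, [(0, [0], [1, 2]), (3, [], [0, 1, 2])])

def l0_12 : Cov := [(1, 0, 2, [(0, [0], [1, 2]), (3, [], [0, 1, 2])])]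

def z0_12 : Cov := []

def w0_12 : List (List Wit) := [[(0, 0, 0, 16, 16)]]

def m0_13 : Base := (0, 3, [(0, [0], [0, 1]), (1, [], [2, 3]), (1, [], [2, 3]), (4, [], [1])])

def l0_13 : Cov := [(1, 0, 3, [(0, [0], [0, 1]), (1, [], [2, 3]), (1, [], [2, 3]), (4, [], [1])])]

def z0_13 : Cov := []

def w0_13 : List (List Wit) := [[(0, 0, 0, 528, 528)]]

def m0_14 : Base := (0, 3, [(0, [0], [0, 1]), (1, [], [2, 3]), (1, [], [1, 2]), (4, [], [3])])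

def l0_14 : Cov := [(1, 0, 3, [(0, [0], [0, 1]), (1, [], [2, 3]), (1, [], [1, 2]), (4, [], [3])])]

def z0_14 : Cov := []

def w0_14 : List (List Wit) := [[(0, 0, 0, 528, 528)]]

def m0_15 : Base := (0, 2, [(0, [0], [0, 1]), (1, [], [1, 2]), (4, [], [2])])

def l0_15 : Cov := [(1, 0, 2, [(0, [0], [0, 1]), (1, [], [1, 2]), (4, [], [2])])]

def z0_15 : Cov := []

def w0_15 : List (List Wit) := [[(0, 0, 0, 16, 16)]]

def m0_16 : Base := (0, 1, [(0, [0], [0, 1]), (4, [], [1])])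

def l0_16 : Cov := [(1, 0, 1, [(0, [0], [0, 1]), (4, [], [1])])]

def z0_16 : Cov := []

def w0_16 : List (List Wit) := [[(0, 0, 0, 0, 0)]]

def m0_17 : Base := (0, 2, [(1, [], [1, 2]), (2, [0], [0, 1, 2])])

def l0_17 : Cov := [(1, 0, 2, [(1, [], [1, 2]), (2, [0], [0, 1, 2])])]

def z0_17 : Cov := []

def w0_17 : List (List Wit) := [[(0, 0, 0, 16, 16)]]

theorem tr0 : trK keys lk0 kl0 = true := by
  decide +kernel

theorem x0_0 : expB 1 1 dg0 dg0 m0_0 (l0_0 ++ z0_0) w0_0 = true := by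
  decide +kernel

theorem x0_1 : expB 1 1 dg0 dg0 m0_1 (l0_1 ++ z0_1) w0_1 = true := by
  decide +kernel

theorem x0_2 : expB 1 1 dg0 dg0 m0_2 (l0_2 ++ z0_2) w0_2 = true := by
  decide +kernel

theorem x0_3 : expB 1 1 dg0 dg0 m0_3 (l0_3 ++ z0_3) w0_3 = true := by
  decide +kernel

theorem x0_4 : expB 1 1 dg0 dg0 m0_4 (l0_4 ++ z0_4) w0_4 = true := by
  decide +kernel

theorem x0_5 : expB 1 1 dg0 dg0 m0_5 (l0_5 ++ z0_5) w0_5 = true := by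
  decide +kernel

theorem x0_6 : expB 1 1 dg0 dg0 m0_6 (l0_6 ++ z0_6) w0_6 = true := by
  decide +kernel

theorem x0_7 : expB 1 1 dg0 dg0 m0_7 (l0_7 ++ z0_7) w0_7 = true := by
  decide +kernel

theorem x0_8 : expB 1 1 dg0 dg0 m0_8 (l0_8 ++ z0_8) w0_8 = true := by
  decide +kernel

theorem x0_9 : expB 1 1 dg0 dg0 m0_9 (l0_9 ++ z0_9) w0_9 = true := by
  decide +kernel

theorem x0_10 : expB 1 1 dg0 dg0 m0_10 (l0_10 ++ z0_10) w0_10 = true := by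
  decide +kernel

theorem x0_11 : expB 1 1 dg0 dg0 m0_11 (l0_11 ++ z0_11) w0_11 = true := by
  decide +kernel

theorem x0_12 : expB 1 1 dg0 dg0 m0_12 (l0_12 ++ z0_12) w0_12 = true := by
  decide +kernel

theorem x0_13 : expB 1 1 dg0 dg0 m0_13 (l0_13 ++ z0_13) w0_13 = true := by
  decide +kernel

theorem x0_14 : expB 1 1 dg0 dg0 m0_14 (l0_14 ++ z0_14) w0_14 = true := by
  decide +kernel

theorem x0_15 : expB 1 1 dg0 dg0 m0_15 (l0_15 ++ z0_15) w0_15 = true := by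
  decide +kernel

theorem x0_16 : expB 1 1 dg0 dg0 m0_16 (l0_16 ++ z0_16) w0_16 = true := by
  decide +kernel

theorem x0_17 : expB 1 1 dg0 dg0 m0_17 (l0_17 ++ z0_17) w0_17 = true := by
  decide +kernel

theorem t0_0_0 : chkS lk0 1 1 [(1, m0_0)] l0_0
  [(46, 513, 513, 106176771, 106169121)]
  [(46, 1)] = true := by
  decide +kernel

theorem t0_0_1 : chkS lk0 1 1 [(1, m0_0)] l0_1
  [(47, 513, 513, 106176771, 106169121)]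
  [(47, 1)] = true := by
  decide +kernel

theorem t0_0_2 : chkS lk0 1 1 [(1, m0_0)] l0_2
  [(48, 513, 513, 106176771, 106169121)]
  [(48, 1)] = true := by
  decide +kernel

theorem t0_0_3 : chkS lk0 1 1 [(1, m0_0)] l0_3
  [(49, 513, 513, 106176771, 106169121)]
  [(49, 1)] = true := by
  decide +kernel

theorem t0_0_4 : chkS lk0 1 1 [(1, m0_0)] l0_4
  [(50, 513, 513, 106176771, 106169121)]
  [(50, 1)] = true := by
  decide +kernel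

theorem t0_0_5 : chkS lk0 1 1 [(1, m0_0)] l0_5
  [(47, 513, 513, 56893701, 84173601)]
  [(47, 1)] = true := by
  decide +kernel

theorem t0_0_6 : chkS lk0 1 1 [(1, m0_0)] l0_6
  [(51, 1, 1, 106176771, 106169121)]
  [(51, 1)] = true := by
  decide +kernel

theorem t0_0_7 : chkS lk0 1 1 [(1, m0_0)] l0_7
  [(52, 1, 1, 106176771, 106169121)]
  [(52, 1)] = true := by
  decide +kernel

theorem t0_0_8 : chkS lk0 1 1 [(1, m0_0)] l0_8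
  [(53, 1, 1, 106176771, 106169121)]
  [(53, 1)] = true := by
  decide +kernel

theorem t0_0_9 : chkS lk0 1 1 [(1, m0_0)] l0_9
  [(54, 1, 1, 106176771, 106169121)]
  [(54, 1)] = true := by
  decide +kernel

theorem t0_0_10 : chkS lk0 1 1 [(1, m0_0)] l0_10
  [(55, 1, 1, 5513475, 5505825)]
  [(55, 1)] = true := by
  decide +kernel

theorem t0_0_11 : chkS lk0 1 1 [(1, m0_0)] l0_11
  [(56, 1, 1, 5513475, 5505825)]
  [(56, 1)] = true := by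
  decide +kernel

theorem t0_0_12 : chkS lk0 1 1 [(1, m0_0)] l0_12
  [(57, 1, 1, 5513475, 5505825)]
  [(57, 1)] = true := by
  decide +kernel

theorem t0_0_13 : chkS lk0 1 1 [(1, m0_0)] l0_13
  [(58, 1, 1, 106176771, 106169121)]
  [(58, 1)] = true := by
  decide +kernel

theorem t0_0_14 : chkS lk0 1 1 [(1, m0_0)] l0_14
  [(52, 1, 1, 56893701, 84173601)]
  [(52, 1)] = true := by
  decide +kernel

theorem t0_0_15 : chkS lk0 1 1 [(1, m0_0)] l0_15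
  [(56, 1, 1, 3416325, 283425)]
  [(56, 1)] = true := by
  decide +kernel

theorem t0_0_16 : chkS lk0 1 1 [(1, m0_0)] l0_16
  [(59, 1, 1, 270595, 262945)]
  [(59, 1)] = true := by
  decide +kernel

theorem t0_0_17 : chkS lk0 1 1 [(1, m0_0)] l0_17
  [(60, 1, 1, 5513475, 5505825)]
  [(60, 1)] = true := by
  decide +kernel

theorem t0_1_1 : chkS lk0 1 1 [(1, m0_1)] l0_1
  [(61, 513, 513, 106176771, 106169121)]
  [(61, 1)] = true := by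
  decide +kernel

theorem t0_1_2 : chkS lk0 1 1 [(1, m0_1)] l0_2
  [(62, 513, 513, 106176771, 106169121)]
  [(62, 1)] = true := by
  decide +kernel

theorem t0_1_3 : chkS lk0 1 1 [(1, m0_1)] l0_3
  [(63, 513, 513, 106176771, 106169121)]
  [(63, 1)] = true := by
  decide +kernel

theorem t0_1_4 : chkS lk0 1 1 [(1, m0_1)] l0_4
  [(26, 288, 288, 37951056, 34948656)]
  [(26, 1)] = true := by
  decide +kernel

theorem t0_1_5 : chkS lk0 1 1 [(1, m0_1)] l0_5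
  [(64, 513, 513, 106176771, 106169121)]
  [(64, 1)] = true := by
  decide +kernel

theorem t0_1_6 : chkS lk0 1 1 [(1, m0_1)] l0_6
  [(65, 1, 1, 106176771, 106169121)]
  [(65, 1)] = true := by
  decide +kernel

theorem t0_1_7 : chkS lk0 1 1 [(1, m0_1)] l0_7
  [(66, 1, 1, 106176771, 106169121)]
  [(66, 1)] = true := by
  decide +kernel

theorem t0_1_8 : chkS lk0 1 1 [(1, m0_1)] l0_8
  [(67, 1, 1, 106176771, 106169121)]
  [(67, 1)] = true := by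
  decide +kernel

theorem t0_1_9 : chkS lk0 1 1 [(1, m0_1)] l0_9
  [(20, 16, 16, 103941441, 102847491)]
  [(20, 1)] = true := by
  decide +kernel

theorem t0_1_10 : chkS lk0 1 1 [(1, m0_1)] l0_10
  [(32, 16, 16, 3278145, 2184195)]
  [(32, 1)] = true := by
  decide +kernel

theorem t0_1_11 : chkS lk0 1 1 [(1, m0_1)] l0_11
  [(42, 16, 16, 3278145, 2184195)]
  [(42, 1)] = true := by
  decide +kernel

theorem t0_1_12 : chkS lk0 1 1 [(1, m0_1)] l0_12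
  [(68, 1, 1, 5513475, 5505825)]
  [(68, 1)] = true := by
  decide +kernel

theorem t0_1_13 : chkS lk0 1 1 [(1, m0_1)] l0_13
  [(21, 1, 1, 106103826, 106053651)]
  [(21, 1)] = true := by
  decide +kernel

theorem t0_1_14 : chkS lk0 1 1 [(1, m0_1)] l0_14
  [(69, 1, 1, 106176771, 106169121)]
  [(69, 1)] = true := by
  decide +kernel

theorem t0_1_15 : chkS lk0 1 1 [(1, m0_1)] l0_15
  [(70, 1, 1, 5513475, 5505825)]
  [(70, 1)] = true := by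
  decide +kernel

theorem t0_1_16 : chkS lk0 1 1 [(1, m0_1)] l0_16
  [(17, 1, 1, 197650, 147475)]
  [(17, 1)] = true := by
  decide +kernel

theorem t0_1_17 : chkS lk0 1 1 [(1, m0_1)] l0_17
  [(19, 1, 1, 5505810, 5513235)]
  [(19, 1)] = true := by
  decide +kernel

theorem t0_2_2 : chkS lk0 1 1 [(1, m0_2)] l0_2
  [(5, 258, 33, 103960836, 103830561)]
  [(5, 1)] = true := by
  decide +kernel

theorem t0_2_3 : chkS lk0 1 1 [(1, m0_2)] l0_3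
  [(71, 513, 513, 106180866, 106180641)]
  [(71, 1)] = true := by
  decide +kernel

theorem t0_2_4 : chkS lk0 1 1 [(1, m0_2)] l0_4
  [(6, 513, 513, 73740546, 88485921)]
  [(6, 1)] = true := by
  decide +kernel

theorem t0_2_5 : chkS lk0 1 1 [(1, m0_2)] l0_5
  [(72, 513, 513, 106180866, 106180641)]
  [(72, 1)] = true := by
  decide +kernel

theorem t0_2_6 : chkS lk0 1 1 [(1, m0_2)] l0_6
  [(73, 1, 1, 106180866, 106180641)]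
  [(73, 1)] = true := by
  decide +kernel

theorem t0_2_7 : chkS lk0 1 1 [(1, m0_2)] l0_7
  [(74, 1, 1, 106180866, 106180641)]
  [(74, 1)] = true := by
  decide +kernel

theorem t0_2_8 : chkS lk0 1 1 [(1, m0_2)] l0_8
  [(75, 1, 1, 106180866, 106180641)]
  [(75, 1)] = true := by
  decide +kernel

theorem t0_2_9 : chkS lk0 1 1 [(1, m0_2)] l0_9
  [(8, 1, 1, 106180866, 106180641)]
  [(8, 1)] = true := by
  decide +kernel

theorem t0_2_10 : chkS lk0 1 1 [(1, m0_2)] l0_10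
  [(33, 1, 1, 5517570, 5517345)]
  [(33, 1)] = true := by
  decide +kernel

theorem t0_2_11 : chkS lk0 1 1 [(1, m0_2)] l0_11
  [(35, 1, 1, 5517570, 5517345)]
  [(35, 1)] = true := by
  decide +kernel

theorem t0_2_12 : chkS lk0 1 1 [(1, m0_2)] l0_12
  [(13, 1, 1, 5517570, 5517345)]
  [(13, 1)] = true := by
  decide +kernel

theorem t0_2_13 : chkS lk0 1 1 [(1, m0_2)] l0_13
  [(4, 1, 1, 106180866, 106180641)]
  [(4, 1)] = true := by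
  decide +kernel

theorem t0_2_14 : chkS lk0 1 1 [(1, m0_2)] l0_14
  [(76, 1, 1, 106180866, 106180641)]
  [(76, 1)] = true := by
  decide +kernel

theorem t0_2_15 : chkS lk0 1 1 [(1, m0_2)] l0_15
  [(28, 1, 1, 5456130, 5455905)]
  [(28, 1)] = true := by
  decide +kernel

theorem t0_2_16 : chkS lk0 1 1 [(1, m0_2)] l0_16
  [(2, 1, 1, 274690, 274465)]
  [(2, 1)] = true := by
  decide +kernel

theorem t0_2_17 : chkS lk0 1 1 [(1, m0_2)] l0_17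
  [(14, 1, 1, 5517570, 5517345)]
  [(14, 1)] = true := by
  decide +kernel

theorem t0_3_3 : chkS lk0 1 1 [(1, m0_3)] l0_3
  [(77, 513, 513, 106180866, 106180641)]
  [(77, 1)] = true := by
  decide +kernel

theorem t0_3_4 : chkS lk0 1 1 [(1, m0_3)] l0_4
  [(25, 513, 513, 73728801, 88482051)]
  [(25, 1)] = true := by
  decide +kernel

theorem t0_3_5 : chkS lk0 1 1 [(1, m0_3)] l0_5
  [(78, 513, 513, 106180866, 106180641)]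
  [(78, 1)] = true := by
  decide +kernel

theorem t0_3_6 : chkS lk0 1 1 [(1, m0_3)] l0_6
  [(79, 1, 1, 106180866, 106180641)]
  [(79, 1)] = true := by
  decide +kernel

theorem t0_3_7 : chkS lk0 1 1 [(1, m0_3)] l0_7
  [(80, 1, 1, 106180866, 106180641)]
  [(80, 1)] = true := by
  decide +kernel

theorem t0_3_8 : chkS lk0 1 1 [(1, m0_3)] l0_8
  [(81, 1, 1, 106180866, 106180641)]
  [(81, 1)] = true := by
  decide +kernel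

theorem t0_3_9 : chkS lk0 1 1 [(1, m0_3)] l0_9
  [(23, 16, 16, 106169106, 106176531)]
  [(23, 1)] = true := by
  decide +kernel

theorem t0_3_10 : chkS lk0 1 1 [(1, m0_3)] l0_10
  [(38, 16, 16, 5509635, 5505585)]
  [(38, 1)] = true := by
  decide +kernel

theorem t0_3_11 : chkS lk0 1 1 [(1, m0_3)] l0_11
  [(39, 16, 16, 5505810, 5513235)]
  [(39, 1)] = true := by
  decide +kernel

theorem t0_3_12 : chkS lk0 1 1 [(1, m0_3)] l0_12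
  [(82, 1, 1, 5517570, 5517345)]
  [(82, 1)] = true := by
  decide +kernel

theorem t0_3_13 : chkS lk0 1 1 [(1, m0_3)] l0_13
  [(24, 1, 1, 106169121, 106176771)]
  [(24, 1)] = true := by
  decide +kernel

theorem t0_3_14 : chkS lk0 1 1 [(1, m0_3)] l0_14
  [(83, 1, 1, 106180866, 106180641)]
  [(83, 1)] = true := by
  decide +kernel

theorem t0_3_15 : chkS lk0 1 1 [(1, m0_3)] l0_15
  [(41, 16, 16, 5440530, 5390355)]
  [(41, 1)] = true := by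
  decide +kernel

theorem t0_3_16 : chkS lk0 1 1 [(1, m0_3)] l0_16
  [(18, 1, 1, 262945, 270595)]
  [(18, 1)] = true := by
  decide +kernel

theorem t0_3_17 : chkS lk0 1 1 [(1, m0_3)] l0_17
  [(22, 1, 1, 4522785, 4530435)]
  [(22, 1)] = true := by
  decide +kernel

theorem t0_4_4 : chkS lk0 1 1 [(1, m0_4)] l0_4
  [(84, 513, 513, 106180866, 106180641)]
  [(84, 1)] = true := by
  decide +kernel

theorem t0_4_5 : chkS lk0 1 1 [(1, m0_4)] l0_5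
  [(85, 513, 513, 106180866, 106180641)]
  [(85, 1)] = true := by
  decide +kernel

theorem t0_4_6 : chkS lk0 1 1 [(1, m0_4)] l0_6
  [(86, 1, 1, 106180866, 106180641)]
  [(86, 1)] = true := by
  decide +kernel

theorem t0_4_7 : chkS lk0 1 1 [(1, m0_4)] l0_7
  [(87, 1, 1, 106180866, 106180641)]
  [(87, 1)] = true := by
  decide +kernel

theorem t0_4_8 : chkS lk0 1 1 [(1, m0_4)] l0_8
  [(88, 1, 1, 106180866, 106180641)]
  [(88, 1)] = true := by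
  decide +kernel

theorem t0_4_9 : chkS lk0 1 1 [(1, m0_4)] l0_9
  [(89, 1, 1, 106180866, 106180641)]
  [(89, 1)] = true := by
  decide +kernel

theorem t0_4_10 : chkS lk0 1 1 [(1, m0_4)] l0_10
  [(90, 1, 1, 5517570, 5517345)]
  [(90, 1)] = true := by
  decide +kernel

theorem t0_4_11 : chkS lk0 1 1 [(1, m0_4)] l0_11
  [(91, 1, 1, 5517570, 5517345)]
  [(91, 1)] = true := by
  decide +kernel

theorem t0_4_12 : chkS lk0 1 1 [(1, m0_4)] l0_12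
  [(92, 1, 1, 5517570, 5517345)]
  [(92, 1)] = true := by
  decide +kernel

theorem t0_4_13 : chkS lk0 1 1 [(1, m0_4)] l0_13
  [(11, 1, 1, 106042416, 106042416)]
  [(11, 1)] = true := by
  decide +kernel

theorem t0_4_14 : chkS lk0 1 1 [(1, m0_4)] l0_14
  [(93, 1, 1, 106180866, 106180641)]
  [(93, 1)] = true := by
  decide +kernel

theorem t0_4_15 : chkS lk0 1 1 [(1, m0_4)] l0_15
  [(94, 1, 1, 5517570, 5517345)]
  [(94, 1)] = true := by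
  decide +kernel

theorem t0_4_16 : chkS lk0 1 1 [(1, m0_4)] l0_16
  [(3, 1, 1, 136240, 136240)]
  [(3, 1)] = true := by
  decide +kernel

theorem t0_4_17 : chkS lk0 1 1 [(1, m0_4)] l0_17
  [(95, 1, 1, 5517570, 5517345)]
  [(95, 1)] = true := by
  decide +kernel

theorem t0_5_5 : chkS lk0 1 1 [(1, m0_5)] l0_5
  [(96, 513, 513, 106180866, 106180641)]
  [(96, 1)] = true := by
  decide +kernel

theorem t0_5_6 : chkS lk0 1 1 [(1, m0_5)] l0_6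
  [(65, 1, 1, 106181121, 106181121)]
  [(65, 1)] = true := by
  decide +kernel

theorem t0_5_7 : chkS lk0 1 1 [(1, m0_5)] l0_7
  [(97, 1, 1, 106180866, 106180641)]
  [(97, 1)] = true := by
  decide +kernel

theorem t0_5_8 : chkS lk0 1 1 [(1, m0_5)] l0_8
  [(98, 1, 1, 106180866, 106180641)]
  [(98, 1)] = true := by
  decide +kernel

theorem t0_5_9 : chkS lk0 1 1 [(1, m0_5)] l0_9
  [(99, 1, 1, 106180866, 106180641)]
  [(99, 1)] = true := by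
  decide +kernel

theorem t0_5_10 : chkS lk0 1 1 [(1, m0_5)] l0_10
  [(32, 16, 16, 3280965, 87090)]
  [(32, 1)] = true := by
  decide +kernel

theorem t0_5_11 : chkS lk0 1 1 [(1, m0_5)] l0_11
  [(40, 16, 16, 3280965, 87090)]
  [(40, 1)] = true := by
  decide +kernel

theorem t0_5_12 : chkS lk0 1 1 [(1, m0_5)] l0_12
  [(100, 1, 1, 5517570, 5517345)]
  [(100, 1)] = true := by
  decide +kernel

theorem t0_5_13 : chkS lk0 1 1 [(1, m0_5)] l0_13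
  [(101, 1, 1, 106180866, 106180641)]
  [(101, 1)] = true := by
  decide +kernel

theorem t0_5_14 : chkS lk0 1 1 [(1, m0_5)] l0_14
  [(102, 1, 1, 106180866, 106180641)]
  [(102, 1)] = true := by
  decide +kernel

theorem t0_5_15 : chkS lk0 1 1 [(1, m0_5)] l0_15
  [(43, 16, 16, 5321280, 5321280)]
  [(43, 1)] = true := by
  decide +kernel

theorem t0_5_16 : chkS lk0 1 1 [(1, m0_5)] l0_16
  [(45, 16, 16, 200770, 81970)]
  [(45, 1)] = true := by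
  decide +kernel

theorem t0_5_17 : chkS lk0 1 1 [(1, m0_5)] l0_17
  [(103, 1, 1, 5517570, 5517345)]
  [(103, 1)] = true := by
  decide +kernel

theorem t0_6_6 : chkS lk0 1 1 [(1, m0_6)] l0_6
  [(104, 0, 0, 106176771, 106169121)]
  [(104, 1)] = true := by
  decide +kernel

theorem t0_6_7 : chkS lk0 1 1 [(1, m0_6)] l0_7
  [(105, 0, 0, 106176771, 106169121)]
  [(105, 1)] = true := by
  decide +kernel

theorem t0_6_8 : chkS lk0 1 1 [(1, m0_6)] l0_8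
  [(106, 0, 0, 106176771, 106169121)]
  [(106, 1)] = true := by
  decide +kernel

theorem t0_6_9 : chkS lk0 1 1 [(1, m0_6)] l0_9
  [(107, 0, 0, 106176771, 106169121)]
  [(107, 1)] = true := by
  decide +kernel

theorem t0_6_10 : chkS lk0 1 1 [(1, m0_6)] l0_10
  [(108, 0, 0, 5513475, 5505825)]
  [(108, 1)] = true := by
  decide +kernel

theorem t0_6_11 : chkS lk0 1 1 [(1, m0_6)] l0_11
  [(109, 0, 0, 5513475, 5505825)]
  [(109, 1)] = true := by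
  decide +kernel

theorem t0_6_12 : chkS lk0 1 1 [(1, m0_6)] l0_12
  [(110, 0, 0, 5513475, 5505825)]
  [(110, 1)] = true := by
  decide +kernel

theorem t0_6_13 : chkS lk0 1 1 [(1, m0_6)] l0_13
  [(111, 0, 0, 106176771, 106169121)]
  [(111, 1)] = true := by
  decide +kernel

theorem t0_6_14 : chkS lk0 1 1 [(1, m0_6)] l0_14
  [(105, 0, 0, 56893701, 84173601)]
  [(105, 1)] = true := by
  decide +kernel

theorem t0_6_15 : chkS lk0 1 1 [(1, m0_6)] l0_15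
  [(109, 0, 0, 3416325, 283425)]
  [(109, 1)] = true := by
  decide +kernel

theorem t0_6_16 : chkS lk0 1 1 [(1, m0_6)] l0_16
  [(112, 0, 0, 270595, 262945)]
  [(112, 1)] = true := by
  decide +kernel

theorem t0_6_17 : chkS lk0 1 1 [(1, m0_6)] l0_17
  [(113, 0, 0, 5513475, 5505825)]
  [(113, 1)] = true := by
  decide +kernel

theorem t0_7_7 : chkS lk0 1 1 [(1, m0_7)] l0_7
  [(114, 0, 0, 106176771, 106169121)]
  [(114, 1)] = true := by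
  decide +kernel

theorem t0_7_8 : chkS lk0 1 1 [(1, m0_7)] l0_8
  [(115, 0, 0, 106176771, 106169121)]
  [(115, 1)] = true := by
  decide +kernel

theorem t0_7_9 : chkS lk0 1 1 [(1, m0_7)] l0_9
  [(116, 0, 0, 106176771, 106169121)]
  [(116, 1)] = true := by
  decide +kernel

theorem t0_7_10 : chkS lk0 1 1 [(1, m0_7)] l0_10
  [(29, 0, 0, 3293445, 218145)]
  [(29, 1)] = true := by
  decide +kernel

theorem t0_7_11 : chkS lk0 1 1 [(1, m0_7)] l0_11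
  [(117, 0, 0, 5513475, 5505825)]
  [(117, 1)] = true := by
  decide +kernel

theorem t0_7_12 : chkS lk0 1 1 [(1, m0_7)] l0_12
  [(118, 0, 0, 5513475, 5505825)]
  [(118, 1)] = true := by
  decide +kernel

theorem t0_7_13 : chkS lk0 1 1 [(1, m0_7)] l0_13
  [(119, 0, 0, 106176771, 106169121)]
  [(119, 1)] = true := by
  decide +kernel

theorem t0_7_14 : chkS lk0 1 1 [(1, m0_7)] l0_14
  [(120, 0, 0, 106176771, 106169121)]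
  [(120, 1)] = true := by
  decide +kernel

theorem t0_7_15 : chkS lk0 1 1 [(1, m0_7)] l0_15
  [(121, 0, 0, 5513475, 5505825)]
  [(121, 1)] = true := by
  decide +kernel

theorem t0_7_16 : chkS lk0 1 1 [(1, m0_7)] l0_16
  [(122, 0, 0, 270595, 262945)]
  [(122, 1)] = true := by
  decide +kernel

theorem t0_7_17 : chkS lk0 1 1 [(1, m0_7)] l0_17
  [(123, 0, 0, 5513475, 5505825)]
  [(123, 1)] = true := by
  decide +kernel

theorem t0_8_8 : chkS lk0 1 1 [(1, m0_8)] l0_8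
  [(124, 0, 0, 106176771, 106169121)]
  [(124, 1)] = true := by
  decide +kernel

theorem t0_8_9 : chkS lk0 1 1 [(1, m0_8)] l0_9
  [(125, 0, 0, 106176771, 106169121)]
  [(125, 1)] = true := by
  decide +kernel

theorem t0_8_10 : chkS lk0 1 1 [(1, m0_8)] l0_10
  [(126, 0, 0, 5513475, 5505825)]
  [(126, 1)] = true := by
  decide +kernel

theorem t0_8_11 : chkS lk0 1 1 [(1, m0_8)] l0_11
  [(121, 0, 0, 1069890, 3219540)]
  [(121, 1)] = true := by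
  decide +kernel

theorem t0_8_12 : chkS lk0 1 1 [(1, m0_8)] l0_12
  [(127, 0, 0, 5513475, 5505825)]
  [(127, 1)] = true := by
  decide +kernel

theorem t0_8_13 : chkS lk0 1 1 [(1, m0_8)] l0_13
  [(128, 0, 0, 106176771, 106169121)]
  [(128, 1)] = true := by
  decide +kernel

theorem t0_8_14 : chkS lk0 1 1 [(1, m0_8)] l0_14
  [(129, 0, 0, 106176771, 106169121)]
  [(129, 1)] = true := by
  decide +kernel

theorem t0_8_15 : chkS lk0 1 1 [(1, m0_8)] l0_15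
  [(130, 0, 0, 5513475, 5505825)]
  [(130, 1)] = true := by
  decide +kernel

theorem t0_8_16 : chkS lk0 1 1 [(1, m0_8)] l0_16
  [(131, 0, 0, 270595, 262945)]
  [(131, 1)] = true := by
  decide +kernel

theorem t0_8_17 : chkS lk0 1 1 [(1, m0_8)] l0_17
  [(132, 0, 0, 5513475, 5505825)]
  [(132, 1)] = true := by
  decide +kernel

theorem t0_9_9 : chkS lk0 1 1 [(1, m0_9)] l0_9
  [(133, 0, 0, 106180866, 106180641)]
  [(133, 1)] = true := by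
  decide +kernel

theorem t0_9_10 : chkS lk0 1 1 [(1, m0_9)] l0_10
  [(134, 0, 0, 5517570, 5517345)]
  [(134, 1)] = true := by
  decide +kernel

theorem t0_9_11 : chkS lk0 1 1 [(1, m0_9)] l0_11
  [(29, 0, 0, 1069860, 3154260)]
  [(29, 1)] = true := by
  decide +kernel

theorem t0_9_12 : chkS lk0 1 1 [(1, m0_9)] l0_12
  [(135, 0, 0, 5517570, 5517345)]
  [(135, 1)] = true := by
  decide +kernel

theorem t0_9_13 : chkS lk0 1 1 [(1, m0_9)] l0_13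
  [(7, 0, 0, 105988896, 106111296)]
  [(7, 1)] = true := by
  decide +kernel

theorem t0_9_14 : chkS lk0 1 1 [(1, m0_9)] l0_14
  [(125, 0, 0, 103884096, 102847296)]
  [(125, 1)] = true := by
  decide +kernel

theorem t0_9_15 : chkS lk0 1 1 [(1, m0_9)] l0_15
  [(126, 0, 0, 3220800, 2184000)]
  [(126, 1)] = true := by
  decide +kernel

theorem t0_9_16 : chkS lk0 1 1 [(1, m0_9)] l0_16
  [(15, 0, 0, 82720, 205120)]
  [(15, 1)] = true := by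
  decide +kernel

theorem t0_9_17 : chkS lk0 1 1 [(1, m0_9)] l0_17
  [(136, 0, 0, 5517570, 5517345)]
  [(136, 1)] = true := by
  decide +kernel

theorem t0_10_10 : chkS lk0 1 1 [(1, m0_10)] l0_10
  [(137, 0, 0, 274690, 274465)]
  [(137, 1)] = true := by
  decide +kernel

theorem t0_10_11 : chkS lk0 1 1 [(1, m0_10)] l0_11
  [(15, 0, 0, 66340, 8515)]
  [(15, 1)] = true := by
  decide +kernel

theorem t0_10_12 : chkS lk0 1 1 [(1, m0_10)] l0_12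
  [(138, 0, 0, 274690, 274465)]
  [(138, 1)] = true := by
  decide +kernel

theorem t0_10_13 : chkS lk0 1 1 [(1, m0_10)] l0_13
  [(30, 0, 0, 5509920, 5513520)]
  [(30, 1)] = true := by
  decide +kernel

theorem t0_10_14 : chkS lk0 1 1 [(1, m0_10)] l0_14
  [(29, 0, 0, 5505825, 5513475)]
  [(29, 1)] = true := by
  decide +kernel

theorem t0_10_15 : chkS lk0 1 1 [(1, m0_10)] l0_15
  [(15, 0, 0, 262945, 270595)]
  [(15, 1)] = true := by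
  decide +kernel

theorem t0_10_16 : chkS lk0 1 1 [(1, m0_10)] l0_16
  [(36, 0, 0, 4896, 8496)]
  [(36, 1)] = true := by
  decide +kernel

theorem t0_10_17 : chkS lk0 1 1 [(1, m0_10)] l0_17
  [(139, 0, 0, 274690, 274465)]
  [(139, 1)] = true := by
  decide +kernel

theorem t0_11_11 : chkS lk0 1 1 [(1, m0_11)] l0_11
  [(122, 0, 0, 274690, 274465)]
  [(122, 1)] = true := by
  decide +kernel

theorem t0_11_12 : chkS lk0 1 1 [(1, m0_11)] l0_12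
  [(140, 0, 0, 274690, 274465)]
  [(140, 1)] = true := by
  decide +kernel

theorem t0_11_13 : chkS lk0 1 1 [(1, m0_11)] l0_13
  [(34, 0, 0, 5517570, 5517345)]
  [(34, 1)] = true := by
  decide +kernel

theorem t0_11_14 : chkS lk0 1 1 [(1, m0_11)] l0_14
  [(141, 0, 0, 5517570, 5517345)]
  [(141, 1)] = true := by
  decide +kernel

theorem t0_11_15 : chkS lk0 1 1 [(1, m0_11)] l0_15
  [(131, 0, 0, 132145, 136195)]
  [(131, 1)] = true := by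
  decide +kernel

theorem t0_11_16 : chkS lk0 1 1 [(1, m0_11)] l0_16
  [(37, 0, 0, 12546, 12321)]
  [(37, 1)] = true := by
  decide +kernel

theorem t0_11_17 : chkS lk0 1 1 [(1, m0_11)] l0_17
  [(142, 0, 0, 274690, 274465)]
  [(142, 1)] = true := by
  decide +kernel

theorem t0_12_12 : chkS lk0 1 1 [(1, m0_12)] l0_12
  [(143, 0, 0, 274690, 274465)]
  [(143, 1)] = true := by
  decide +kernel

theorem t0_12_13 : chkS lk0 1 1 [(1, m0_12)] l0_13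
  [(12, 0, 0, 5509920, 5513520)]
  [(12, 1)] = true := by
  decide +kernel

theorem t0_12_14 : chkS lk0 1 1 [(1, m0_12)] l0_14
  [(144, 0, 0, 5517570, 5517345)]
  [(144, 1)] = true := by
  decide +kernel

theorem t0_12_15 : chkS lk0 1 1 [(1, m0_12)] l0_15
  [(145, 0, 0, 274690, 274465)]
  [(145, 1)] = true := by
  decide +kernel

theorem t0_12_16 : chkS lk0 1 1 [(1, m0_12)] l0_16
  [(146, 0, 0, 12546, 12321)]
  [(146, 1)] = true := by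
  decide +kernel

theorem t0_12_17 : chkS lk0 1 1 [(1, m0_12)] l0_17
  [(147, 0, 0, 274690, 274465)]
  [(147, 1)] = true := by
  decide +kernel

theorem t0_13_13 : chkS lk0 1 1 [(1, m0_13)] l0_13
  [(10, 0, 0, 106054416, 106112016)]
  [(10, 1)] = true := by
  decide +kernel

theorem t0_13_14 : chkS lk0 1 1 [(1, m0_13)] l0_14
  [(148, 0, 0, 106181136, 106181136)]
  [(148, 1)] = true := by
  decide +kernel

theorem t0_13_15 : chkS lk0 1 1 [(1, m0_13)] l0_15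
  [(31, 0, 0, 3232800, 3297600)]
  [(31, 1)] = true := by
  decide +kernel

theorem t0_13_16 : chkS lk0 1 1 [(1, m0_13)] l0_16
  [(1, 0, 0, 148240, 205840)]
  [(1, 1)] = true := by
  decide +kernel

theorem t0_13_17 : chkS lk0 1 1 [(1, m0_13)] l0_17
  [(9, 0, 0, 3298320, 3298320)]
  [(9, 1)] = true := by
  decide +kernel

theorem t0_14_14 : chkS lk0 1 1 [(1, m0_14)] l0_14
  [(149, 0, 0, 106181136, 106181136)]
  [(149, 1)] = true := by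
  decide +kernel

theorem t0_14_15 : chkS lk0 1 1 [(1, m0_14)] l0_15
  [(150, 0, 0, 5517840, 5517840)]
  [(150, 1)] = true := by
  decide +kernel

theorem t0_14_16 : chkS lk0 1 1 [(1, m0_14)] l0_16
  [(44, 0, 0, 148240, 205840)]
  [(44, 1)] = true := by
  decide +kernel

theorem t0_14_17 : chkS lk0 1 1 [(1, m0_14)] l0_17
  [(151, 0, 0, 5517840, 5517840)]
  [(151, 1)] = true := by
  decide +kernel

theorem t0_15_15 : chkS lk0 1 1 [(1, m0_15)] l0_15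
  [(152, 0, 0, 274960, 274960)]
  [(152, 1)] = true := by
  decide +kernel

theorem t0_15_16 : chkS lk0 1 1 [(1, m0_15)] l0_16
  [(27, 0, 0, 8976, 8976)]
  [(27, 1)] = true := by
  decide +kernel

theorem t0_15_17 : chkS lk0 1 1 [(1, m0_15)] l0_17
  [(153, 0, 0, 274960, 274960)]
  [(153, 1)] = true := by
  decide +kernel

theorem t0_16_16 : chkS lk0 1 1 [(1, m0_16)] l0_16
  [(0, 0, 0, 528, 528)]
  [(0, 1)] = true := by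
  decide +kernel

theorem t0_16_17 : chkS lk0 1 1 [(1, m0_16)] l0_17
  [(16, 0, 0, 12816, 12816)]
  [(16, 1)] = true := by
  decide +kernel

theorem t0_17_17 : chkS lk0 1 1 [(1, m0_17)] l0_17
  [(154, 0, 0, 274690, 274465)]
  [(154, 1)] = true := by
  decide +kernel

section

variable {κ ι : Type*} [Fintype κ] [Fintype ι] [Inhabited κ] [Inhabited ι]

noncomputable def F0_0 (E : Env κ ι) : (Fin 1 → κ) → (Fin 1 → ι) → ℝ := op2 (P0 κ) (P0 ι) (fB E 1 1 m0_0)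

noncomputable def F0_1 (E : Env κ ι) : (Fin 1 → κ) → (Fin 1 → ι) → ℝ := op2 (P0 κ) (P0 ι) (fB E 1 1 m0_1)

noncomputable def F0_2 (E : Env κ ι) : (Fin 1 → κ) → (Fin 1 → ι) → ℝ := op2 (P0 κ) (P0 ι) (fB E 1 1 m0_2)

noncomputable def F0_3 (E : Env κ ι) : (Fin 1 → κ) → (Fin 1 → ι) → ℝ := op2 (P0 κ) (P0 ι) (fB E 1 1 m0_3)

noncomputable def F0_4 (E : Env κ ι) : (Fin 1 → κ) → (Fin 1 → ι) → ℝ := op2 (P0 κ) (P0 ι) (fB E 1 1 m0_4)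

noncomputable def F0_5 (E : Env κ ι) : (Fin 1 → κ) → (Fin 1 → ι) → ℝ := op2 (P0 κ) (P0 ι) (fB E 1 1 m0_5)

noncomputable def F0_6 (E : Env κ ι) : (Fin 1 → κ) → (Fin 1 → ι) → ℝ := op2 (P0 κ) (P0 ι) (fB E 1 1 m0_6)

noncomputable def F0_7 (E : Env κ ι) : (Fin 1 → κ) → (Fin 1 → ι) → ℝ := op2 (P0 κ) (P0 ι) (fB E 1 1 m0_7)

noncomputable def F0_8 (E : Env κ ι) : (Fin 1 → κ) → (Fin 1 → ι) → ℝ := op2 (P0 κ) (P0 ι) (fB E 1 1 m0_8)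

noncomputable def F0_9 (E : Env κ ι) : (Fin 1 → κ) → (Fin 1 → ι) → ℝ := op2 (P0 κ) (P0 ι) (fB E 1 1 m0_9)

noncomputable def F0_10 (E : Env κ ι) : (Fin 1 → κ) → (Fin 1 → ι) → ℝ := op2 (P0 κ) (P0 ι) (fB E 1 1 m0_10)

noncomputable def F0_11 (E : Env κ ι) : (Fin 1 → κ) → (Fin 1 → ι) → ℝ := op2 (P0 κ) (P0 ι) (fB E 1 1 m0_11)

noncomputable def F0_12 (E : Env κ ι) : (Fin 1 → κ) → (Fin 1 → ι) → ℝ := op2 (P0 κ) (P0 ι) (fB E 1 1 m0_12)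

noncomputable def F0_13 (E : Env κ ι) : (Fin 1 → κ) → (Fin 1 → ι) → ℝ := op2 (P0 κ) (P0 ι) (fB E 1 1 m0_13)

noncomputable def F0_14 (E : Env κ ι) : (Fin 1 → κ) → (Fin 1 → ι) → ℝ := op2 (P0 κ) (P0 ι) (fB E 1 1 m0_14)

noncomputable def F0_15 (E : Env κ ι) : (Fin 1 → κ) → (Fin 1 → ι) → ℝ := op2 (P0 κ) (P0 ι) (fB E 1 1 m0_15)

noncomputable def F0_16 (E : Env κ ι) : (Fin 1 → κ) → (Fin 1 → ι) → ℝ := op2 (P0 κ) (P0 ι) (fB E 1 1 m0_16)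

noncomputable def F0_17 (E : Env κ ι) : (Fin 1 → κ) → (Fin 1 → ι) → ℝ := op2 (P0 κ) (P0 ι) (fB E 1 1 m0_17)

def r0_0_0 : List (ℕ × ℤ) := [(46, 1)]

theorem h0_0_0 (E : Env κ ι) : ip (F0_0 E) (F0_0 E) = dotS (ek E lk0) r0_0_0 :=
  op_entryZ E lk0 1 1 _ _ _ _ (pg0 κ) (pg0 ι) m0_0 m0_0 l0_0 z0_0 w0_0 x0_0 (by decide) _ (chkS_sound E lk0 1 1 _ _ _ _ t0_0_0)

def r0_0_1 : List (ℕ × ℤ) := [(47, 1)]

theorem h0_0_1 (E : Env κ ι) : ip (F0_0 E) (F0_1 E) = dotS (ek E lk0) r0_0_1 :=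
  op_entryZ E lk0 1 1 _ _ _ _ (pg0 κ) (pg0 ι) m0_0 m0_1 l0_1 z0_1 w0_1 x0_1 (by decide) _ (chkS_sound E lk0 1 1 _ _ _ _ t0_0_1)

def r0_0_2 : List (ℕ × ℤ) := [(48, 1)]

theorem h0_0_2 (E : Env κ ι) : ip (F0_0 E) (F0_2 E) = dotS (ek E lk0) r0_0_2 :=
  op_entryZ E lk0 1 1 _ _ _ _ (pg0 κ) (pg0 ι) m0_0 m0_2 l0_2 z0_2 w0_2 x0_2 (by decide) _ (chkS_sound E lk0 1 1 _ _ _ _ t0_0_2)

def r0_0_3 : List (ℕ × ℤ) := [(49, 1)]

theorem h0_0_3 (E : Env κ ι) : ip (F0_0 E) (F0_3 E) = dotS (ek E lk0) r0_0_3 :=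
  op_entryZ E lk0 1 1 _ _ _ _ (pg0 κ) (pg0 ι) m0_0 m0_3 l0_3 z0_3 w0_3 x0_3 (by decide) _ (chkS_sound E lk0 1 1 _ _ _ _ t0_0_3)

def r0_0_4 : List (ℕ × ℤ) := [(50, 1)]

theorem h0_0_4 (E : Env κ ι) : ip (F0_0 E) (F0_4 E) = dotS (ek E lk0) r0_0_4 :=
  op_entryZ E lk0 1 1 _ _ _ _ (pg0 κ) (pg0 ι) m0_0 m0_4 l0_4 z0_4 w0_4 x0_4 (by decide) _ (chkS_sound E lk0 1 1 _ _ _ _ t0_0_4)

def r0_0_5 : List (ℕ × ℤ) := [(47, 1)]

theorem h0_0_5 (E : Env κ ι) : ip (F0_0 E) (F0_5 E) = dotS (ek E lk0) r0_0_5 :=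
  op_entryZ E lk0 1 1 _ _ _ _ (pg0 κ) (pg0 ι) m0_0 m0_5 l0_5 z0_5 w0_5 x0_5 (by decide) _ (chkS_sound E lk0 1 1 _ _ _ _ t0_0_5)

def r0_0_6 : List (ℕ × ℤ) := [(51, 1)]

theorem h0_0_6 (E : Env κ ι) : ip (F0_0 E) (F0_6 E) = dotS (ek E lk0) r0_0_6 :=
  op_entryZ E lk0 1 1 _ _ _ _ (pg0 κ) (pg0 ι) m0_0 m0_6 l0_6 z0_6 w0_6 x0_6 (by decide) _ (chkS_sound E lk0 1 1 _ _ _ _ t0_0_6)

def r0_0_7 : List (ℕ × ℤ) := [(52, 1)]

theorem h0_0_7 (E : Env κ ι) : ip (F0_0 E) (F0_7 E) = dotS (ek E lk0) r0_0_7 :=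
  op_entryZ E lk0 1 1 _ _ _ _ (pg0 κ) (pg0 ι) m0_0 m0_7 l0_7 z0_7 w0_7 x0_7 (by decide) _ (chkS_sound E lk0 1 1 _ _ _ _ t0_0_7)

def r0_0_8 : List (ℕ × ℤ) := [(53, 1)]

theorem h0_0_8 (E : Env κ ι) : ip (F0_0 E) (F0_8 E) = dotS (ek E lk0) r0_0_8 :=
  op_entryZ E lk0 1 1 _ _ _ _ (pg0 κ) (pg0 ι) m0_0 m0_8 l0_8 z0_8 w0_8 x0_8 (by decide) _ (chkS_sound E lk0 1 1 _ _ _ _ t0_0_8)

def r0_0_9 : List (ℕ × ℤ) := [(54, 1)]

theorem h0_0_9 (E : Env κ ι) : ip (F0_0 E) (F0_9 E) = dotS (ek E lk0) r0_0_9 :=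
  op_entryZ E lk0 1 1 _ _ _ _ (pg0 κ) (pg0 ι) m0_0 m0_9 l0_9 z0_9 w0_9 x0_9 (by decide) _ (chkS_sound E lk0 1 1 _ _ _ _ t0_0_9)

def r0_0_10 : List (ℕ × ℤ) := [(55, 1)]

theorem h0_0_10 (E : Env κ ι) : ip (F0_0 E) (F0_10 E) = dotS (ek E lk0) r0_0_10 :=
  op_entryZ E lk0 1 1 _ _ _ _ (pg0 κ) (pg0 ι) m0_0 m0_10 l0_10 z0_10 w0_10 x0_10 (by decide) _ (chkS_sound E lk0 1 1 _ _ _ _ t0_0_10)

def r0_0_11 : List (ℕ × ℤ) := [(56, 1)]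

theorem h0_0_11 (E : Env κ ι) : ip (F0_0 E) (F0_11 E) = dotS (ek E lk0) r0_0_11 :=
  op_entryZ E lk0 1 1 _ _ _ _ (pg0 κ) (pg0 ι) m0_0 m0_11 l0_11 z0_11 w0_11 x0_11 (by decide) _ (chkS_sound E lk0 1 1 _ _ _ _ t0_0_11)

def r0_0_12 : List (ℕ × ℤ) := [(57, 1)]

theorem h0_0_12 (E : Env κ ι) : ip (F0_0 E) (F0_12 E) = dotS (ek E lk0) r0_0_12 :=
  op_entryZ E lk0 1 1 _ _ _ _ (pg0 κ) (pg0 ι) m0_0 m0_12 l0_12 z0_12 w0_12 x0_12 (by decide) _ (chkS_sound E lk0 1 1 _ _ _ _ t0_0_12)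

def r0_0_13 : List (ℕ × ℤ) := [(58, 1)]

theorem h0_0_13 (E : Env κ ι) : ip (F0_0 E) (F0_13 E) = dotS (ek E lk0) r0_0_13 :=
  op_entryZ E lk0 1 1 _ _ _ _ (pg0 κ) (pg0 ι) m0_0 m0_13 l0_13 z0_13 w0_13 x0_13 (by decide) _ (chkS_sound E lk0 1 1 _ _ _ _ t0_0_13)

def r0_0_14 : List (ℕ × ℤ) := [(52, 1)]

theorem h0_0_14 (E : Env κ ι) : ip (F0_0 E) (F0_14 E) = dotS (ek E lk0) r0_0_14 :=
  op_entryZ E lk0 1 1 _ _ _ _ (pg0 κ) (pg0 ι) m0_0 m0_14 l0_14 z0_14 w0_14 x0_14 (by decide) _ (chkS_sound E lk0 1 1 _ _ _ _ t0_0_14)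

def r0_0_15 : List (ℕ × ℤ) := [(56, 1)]

theorem h0_0_15 (E : Env κ ι) : ip (F0_0 E) (F0_15 E) = dotS (ek E lk0) r0_0_15 :=
  op_entryZ E lk0 1 1 _ _ _ _ (pg0 κ) (pg0 ι) m0_0 m0_15 l0_15 z0_15 w0_15 x0_15 (by decide) _ (chkS_sound E lk0 1 1 _ _ _ _ t0_0_15)

def r0_0_16 : List (ℕ × ℤ) := [(59, 1)]

theorem h0_0_16 (E : Env κ ι) : ip (F0_0 E) (F0_16 E) = dotS (ek E lk0) r0_0_16 :=
  op_entryZ E lk0 1 1 _ _ _ _ (pg0 κ) (pg0 ι) m0_0 m0_16 l0_16 z0_16 w0_16 x0_16 (by decide) _ (chkS_sound E lk0 1 1 _ _ _ _ t0_0_16)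

def r0_0_17 : List (ℕ × ℤ) := [(60, 1)]

theorem h0_0_17 (E : Env κ ι) : ip (F0_0 E) (F0_17 E) = dotS (ek E lk0) r0_0_17 :=
  op_entryZ E lk0 1 1 _ _ _ _ (pg0 κ) (pg0 ι) m0_0 m0_17 l0_17 z0_17 w0_17 x0_17 (by decide) _ (chkS_sound E lk0 1 1 _ _ _ _ t0_0_17)

def r0_1_1 : List (ℕ × ℤ) := [(61, 1)]

theorem h0_1_1 (E : Env κ ι) : ip (F0_1 E) (F0_1 E) = dotS (ek E lk0) r0_1_1 :=
  op_entryZ E lk0 1 1 _ _ _ _ (pg0 κ) (pg0 ι) m0_1 m0_1 l0_1 z0_1 w0_1 x0_1 (by decide) _ (chkS_sound E lk0 1 1 _ _ _ _ t0_1_1)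

def r0_1_2 : List (ℕ × ℤ) := [(62, 1)]

theorem h0_1_2 (E : Env κ ι) : ip (F0_1 E) (F0_2 E) = dotS (ek E lk0) r0_1_2 :=
  op_entryZ E lk0 1 1 _ _ _ _ (pg0 κ) (pg0 ι) m0_1 m0_2 l0_2 z0_2 w0_2 x0_2 (by decide) _ (chkS_sound E lk0 1 1 _ _ _ _ t0_1_2)

def r0_1_3 : List (ℕ × ℤ) := [(63, 1)]

theorem h0_1_3 (E : Env κ ι) : ip (F0_1 E) (F0_3 E) = dotS (ek E lk0) r0_1_3 :=
  op_entryZ E lk0 1 1 _ _ _ _ (pg0 κ) (pg0 ι) m0_1 m0_3 l0_3 z0_3 w0_3 x0_3 (by decide) _ (chkS_sound E lk0 1 1 _ _ _ _ t0_1_3)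

def r0_1_4 : List (ℕ × ℤ) := [(26, 1)]

theorem h0_1_4 (E : Env κ ι) : ip (F0_1 E) (F0_4 E) = dotS (ek E lk0) r0_1_4 :=
  op_entryZ E lk0 1 1 _ _ _ _ (pg0 κ) (pg0 ι) m0_1 m0_4 l0_4 z0_4 w0_4 x0_4 (by decide) _ (chkS_sound E lk0 1 1 _ _ _ _ t0_1_4)

def r0_1_5 : List (ℕ × ℤ) := [(64, 1)]

theorem h0_1_5 (E : Env κ ι) : ip (F0_1 E) (F0_5 E) = dotS (ek E lk0) r0_1_5 :=
  op_entryZ E lk0 1 1 _ _ _ _ (pg0 κ) (pg0 ι) m0_1 m0_5 l0_5 z0_5 w0_5 x0_5 (by decide) _ (chkS_sound E lk0 1 1 _ _ _ _ t0_1_5)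

def r0_1_6 : List (ℕ × ℤ) := [(65, 1)]

theorem h0_1_6 (E : Env κ ι) : ip (F0_1 E) (F0_6 E) = dotS (ek E lk0) r0_1_6 :=
  op_entryZ E lk0 1 1 _ _ _ _ (pg0 κ) (pg0 ι) m0_1 m0_6 l0_6 z0_6 w0_6 x0_6 (by decide) _ (chkS_sound E lk0 1 1 _ _ _ _ t0_1_6)

def r0_1_7 : List (ℕ × ℤ) := [(66, 1)]

theorem h0_1_7 (E : Env κ ι) : ip (F0_1 E) (F0_7 E) = dotS (ek E lk0) r0_1_7 :=
  op_entryZ E lk0 1 1 _ _ _ _ (pg0 κ) (pg0 ι) m0_1 m0_7 l0_7 z0_7 w0_7 x0_7 (by decide) _ (chkS_sound E lk0 1 1 _ _ _ _ t0_1_7)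

def r0_1_8 : List (ℕ × ℤ) := [(67, 1)]

theorem h0_1_8 (E : Env κ ι) : ip (F0_1 E) (F0_8 E) = dotS (ek E lk0) r0_1_8 :=
  op_entryZ E lk0 1 1 _ _ _ _ (pg0 κ) (pg0 ι) m0_1 m0_8 l0_8 z0_8 w0_8 x0_8 (by decide) _ (chkS_sound E lk0 1 1 _ _ _ _ t0_1_8)

def r0_1_9 : List (ℕ × ℤ) := [(20, 1)]

theorem h0_1_9 (E : Env κ ι) : ip (F0_1 E) (F0_9 E) = dotS (ek E lk0) r0_1_9 :=
  op_entryZ E lk0 1 1 _ _ _ _ (pg0 κ) (pg0 ι) m0_1 m0_9 l0_9 z0_9 w0_9 x0_9 (by decide) _ (chkS_sound E lk0 1 1 _ _ _ _ t0_1_9)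

def r0_1_10 : List (ℕ × ℤ) := [(32, 1)]

theorem h0_1_10 (E : Env κ ι) : ip (F0_1 E) (F0_10 E) = dotS (ek E lk0) r0_1_10 :=
  op_entryZ E lk0 1 1 _ _ _ _ (pg0 κ) (pg0 ι) m0_1 m0_10 l0_10 z0_10 w0_10 x0_10 (by decide) _ (chkS_sound E lk0 1 1 _ _ _ _ t0_1_10)

def r0_1_11 : List (ℕ × ℤ) := [(42, 1)]

theorem h0_1_11 (E : Env κ ι) : ip (F0_1 E) (F0_11 E) = dotS (ek E lk0) r0_1_11 :=
  op_entryZ E lk0 1 1 _ _ _ _ (pg0 κ) (pg0 ι) m0_1 m0_11 l0_11 z0_11 w0_11 x0_11 (by decide) _ (chkS_sound E lk0 1 1 _ _ _ _ t0_1_11)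

def r0_1_12 : List (ℕ × ℤ) := [(68, 1)]

theorem h0_1_12 (E : Env κ ι) : ip (F0_1 E) (F0_12 E) = dotS (ek E lk0) r0_1_12 :=
  op_entryZ E lk0 1 1 _ _ _ _ (pg0 κ) (pg0 ι) m0_1 m0_12 l0_12 z0_12 w0_12 x0_12 (by decide) _ (chkS_sound E lk0 1 1 _ _ _ _ t0_1_12)

def r0_1_13 : List (ℕ × ℤ) := [(21, 1)]

theorem h0_1_13 (E : Env κ ι) : ip (F0_1 E) (F0_13 E) = dotS (ek E lk0) r0_1_13 :=
  op_entryZ E lk0 1 1 _ _ _ _ (pg0 κ) (pg0 ι) m0_1 m0_13 l0_13 z0_13 w0_13 x0_13 (by decide) _ (chkS_sound E lk0 1 1 _ _ _ _ t0_1_13)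

def r0_1_14 : List (ℕ × ℤ) := [(69, 1)]

theorem h0_1_14 (E : Env κ ι) : ip (F0_1 E) (F0_14 E) = dotS (ek E lk0) r0_1_14 :=
  op_entryZ E lk0 1 1 _ _ _ _ (pg0 κ) (pg0 ι) m0_1 m0_14 l0_14 z0_14 w0_14 x0_14 (by decide) _ (chkS_sound E lk0 1 1 _ _ _ _ t0_1_14)

def r0_1_15 : List (ℕ × ℤ) := [(70, 1)]

theorem h0_1_15 (E : Env κ ι) : ip (F0_1 E) (F0_15 E) = dotS (ek E lk0) r0_1_15 :=
  op_entryZ E lk0 1 1 _ _ _ _ (pg0 κ) (pg0 ι) m0_1 m0_15 l0_15 z0_15 w0_15 x0_15 (by decide) _ (chkS_sound E lk0 1 1 _ _ _ _ t0_1_15)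

def r0_1_16 : List (ℕ × ℤ) := [(17, 1)]

theorem h0_1_16 (E : Env κ ι) : ip (F0_1 E) (F0_16 E) = dotS (ek E lk0) r0_1_16 :=
  op_entryZ E lk0 1 1 _ _ _ _ (pg0 κ) (pg0 ι) m0_1 m0_16 l0_16 z0_16 w0_16 x0_16 (by decide) _ (chkS_sound E lk0 1 1 _ _ _ _ t0_1_16)

def r0_1_17 : List (ℕ × ℤ) := [(19, 1)]

theorem h0_1_17 (E : Env κ ι) : ip (F0_1 E) (F0_17 E) = dotS (ek E lk0) r0_1_17 :=
  op_entryZ E lk0 1 1 _ _ _ _ (pg0 κ) (pg0 ι) m0_1 m0_17 l0_17 z0_17 w0_17 x0_17 (by decide) _ (chkS_sound E lk0 1 1 _ _ _ _ t0_1_17)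

def r0_2_2 : List (ℕ × ℤ) := [(5, 1)]

theorem h0_2_2 (E : Env κ ι) : ip (F0_2 E) (F0_2 E) = dotS (ek E lk0) r0_2_2 :=
  op_entryZ E lk0 1 1 _ _ _ _ (pg0 κ) (pg0 ι) m0_2 m0_2 l0_2 z0_2 w0_2 x0_2 (by decide) _ (chkS_sound E lk0 1 1 _ _ _ _ t0_2_2)

def r0_2_3 : List (ℕ × ℤ) := [(71, 1)]

theorem h0_2_3 (E : Env κ ι) : ip (F0_2 E) (F0_3 E) = dotS (ek E lk0) r0_2_3 :=
  op_entryZ E lk0 1 1 _ _ _ _ (pg0 κ) (pg0 ι) m0_2 m0_3 l0_3 z0_3 w0_3 x0_3 (by decide) _ (chkS_sound E lk0 1 1 _ _ _ _ t0_2_3)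

def r0_2_4 : List (ℕ × ℤ) := [(6, 1)]

theorem h0_2_4 (E : Env κ ι) : ip (F0_2 E) (F0_4 E) = dotS (ek E lk0) r0_2_4 :=
  op_entryZ E lk0 1 1 _ _ _ _ (pg0 κ) (pg0 ι) m0_2 m0_4 l0_4 z0_4 w0_4 x0_4 (by decide) _ (chkS_sound E lk0 1 1 _ _ _ _ t0_2_4)

def r0_2_5 : List (ℕ × ℤ) := [(72, 1)]

theorem h0_2_5 (E : Env κ ι) : ip (F0_2 E) (F0_5 E) = dotS (ek E lk0) r0_2_5 :=
  op_entryZ E lk0 1 1 _ _ _ _ (pg0 κ) (pg0 ι) m0_2 m0_5 l0_5 z0_5 w0_5 x0_5 (by decide) _ (chkS_sound E lk0 1 1 _ _ _ _ t0_2_5)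

def r0_2_6 : List (ℕ × ℤ) := [(73, 1)]

theorem h0_2_6 (E : Env κ ι) : ip (F0_2 E) (F0_6 E) = dotS (ek E lk0) r0_2_6 :=
  op_entryZ E lk0 1 1 _ _ _ _ (pg0 κ) (pg0 ι) m0_2 m0_6 l0_6 z0_6 w0_6 x0_6 (by decide) _ (chkS_sound E lk0 1 1 _ _ _ _ t0_2_6)

def r0_2_7 : List (ℕ × ℤ) := [(74, 1)]

theorem h0_2_7 (E : Env κ ι) : ip (F0_2 E) (F0_7 E) = dotS (ek E lk0) r0_2_7 :=
  op_entryZ E lk0 1 1 _ _ _ _ (pg0 κ) (pg0 ι) m0_2 m0_7 l0_7 z0_7 w0_7 x0_7 (by decide) _ (chkS_sound E lk0 1 1 _ _ _ _ t0_2_7)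

def r0_2_8 : List (ℕ × ℤ) := [(75, 1)]

theorem h0_2_8 (E : Env κ ι) : ip (F0_2 E) (F0_8 E) = dotS (ek E lk0) r0_2_8 :=
  op_entryZ E lk0 1 1 _ _ _ _ (pg0 κ) (pg0 ι) m0_2 m0_8 l0_8 z0_8 w0_8 x0_8 (by decide) _ (chkS_sound E lk0 1 1 _ _ _ _ t0_2_8)

def r0_2_9 : List (ℕ × ℤ) := [(8, 1)]

theorem h0_2_9 (E : Env κ ι) : ip (F0_2 E) (F0_9 E) = dotS (ek E lk0) r0_2_9 :=
  op_entryZ E lk0 1 1 _ _ _ _ (pg0 κ) (pg0 ι) m0_2 m0_9 l0_9 z0_9 w0_9 x0_9 (by decide) _ (chkS_sound E lk0 1 1 _ _ _ _ t0_2_9)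

def r0_2_10 : List (ℕ × ℤ) := [(33, 1)]

theorem h0_2_10 (E : Env κ ι) : ip (F0_2 E) (F0_10 E) = dotS (ek E lk0) r0_2_10 :=
  op_entryZ E lk0 1 1 _ _ _ _ (pg0 κ) (pg0 ι) m0_2 m0_10 l0_10 z0_10 w0_10 x0_10 (by decide) _ (chkS_sound E lk0 1 1 _ _ _ _ t0_2_10)

def r0_2_11 : List (ℕ × ℤ) := [(35, 1)]

theorem h0_2_11 (E : Env κ ι) : ip (F0_2 E) (F0_11 E) = dotS (ek E lk0) r0_2_11 :=
  op_entryZ E lk0 1 1 _ _ _ _ (pg0 κ) (pg0 ι) m0_2 m0_11 l0_11 z0_11 w0_11 x0_11 (by decide) _ (chkS_sound E lk0 1 1 _ _ _ _ t0_2_11)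

def r0_2_12 : List (ℕ × ℤ) := [(13, 1)]

theorem h0_2_12 (E : Env κ ι) : ip (F0_2 E) (F0_12 E) = dotS (ek E lk0) r0_2_12 :=
  op_entryZ E lk0 1 1 _ _ _ _ (pg0 κ) (pg0 ι) m0_2 m0_12 l0_12 z0_12 w0_12 x0_12 (by decide) _ (chkS_sound E lk0 1 1 _ _ _ _ t0_2_12)

def r0_2_13 : List (ℕ × ℤ) := [(4, 1)]

theorem h0_2_13 (E : Env κ ι) : ip (F0_2 E) (F0_13 E) = dotS (ek E lk0) r0_2_13 :=
  op_entryZ E lk0 1 1 _ _ _ _ (pg0 κ) (pg0 ι) m0_2 m0_13 l0_13 z0_13 w0_13 x0_13 (by decide) _ (chkS_sound E lk0 1 1 _ _ _ _ t0_2_13)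

def r0_2_14 : List (ℕ × ℤ) := [(76, 1)]

theorem h0_2_14 (E : Env κ ι) : ip (F0_2 E) (F0_14 E) = dotS (ek E lk0) r0_2_14 :=
  op_entryZ E lk0 1 1 _ _ _ _ (pg0 κ) (pg0 ι) m0_2 m0_14 l0_14 z0_14 w0_14 x0_14 (by decide) _ (chkS_sound E lk0 1 1 _ _ _ _ t0_2_14)

def r0_2_15 : List (ℕ × ℤ) := [(28, 1)]

theorem h0_2_15 (E : Env κ ι) : ip (F0_2 E) (F0_15 E) = dotS (ek E lk0) r0_2_15 :=
  op_entryZ E lk0 1 1 _ _ _ _ (pg0 κ) (pg0 ι) m0_2 m0_15 l0_15 z0_15 w0_15 x0_15 (by decide) _ (chkS_sound E lk0 1 1 _ _ _ _ t0_2_15)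

def r0_2_16 : List (ℕ × ℤ) := [(2, 1)]

theorem h0_2_16 (E : Env κ ι) : ip (F0_2 E) (F0_16 E) = dotS (ek E lk0) r0_2_16 :=
  op_entryZ E lk0 1 1 _ _ _ _ (pg0 κ) (pg0 ι) m0_2 m0_16 l0_16 z0_16 w0_16 x0_16 (by decide) _ (chkS_sound E lk0 1 1 _ _ _ _ t0_2_16)

def r0_2_17 : List (ℕ × ℤ) := [(14, 1)]

theorem h0_2_17 (E : Env κ ι) : ip (F0_2 E) (F0_17 E) = dotS (ek E lk0) r0_2_17 :=
  op_entryZ E lk0 1 1 _ _ _ _ (pg0 κ) (pg0 ι) m0_2 m0_17 l0_17 z0_17 w0_17 x0_17 (by decide) _ (chkS_sound E lk0 1 1 _ _ _ _ t0_2_17)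

def r0_3_3 : List (ℕ × ℤ) := [(77, 1)]

theorem h0_3_3 (E : Env κ ι) : ip (F0_3 E) (F0_3 E) = dotS (ek E lk0) r0_3_3 :=
  op_entryZ E lk0 1 1 _ _ _ _ (pg0 κ) (pg0 ι) m0_3 m0_3 l0_3 z0_3 w0_3 x0_3 (by decide) _ (chkS_sound E lk0 1 1 _ _ _ _ t0_3_3)

def r0_3_4 : List (ℕ × ℤ) := [(25, 1)]

theorem h0_3_4 (E : Env κ ι) : ip (F0_3 E) (F0_4 E) = dotS (ek E lk0) r0_3_4 :=
  op_entryZ E lk0 1 1 _ _ _ _ (pg0 κ) (pg0 ι) m0_3 m0_4 l0_4 z0_4 w0_4 x0_4 (by decide) _ (chkS_sound E lk0 1 1 _ _ _ _ t0_3_4)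

def r0_3_5 : List (ℕ × ℤ) := [(78, 1)]

theorem h0_3_5 (E : Env κ ι) : ip (F0_3 E) (F0_5 E) = dotS (ek E lk0) r0_3_5 :=
  op_entryZ E lk0 1 1 _ _ _ _ (pg0 κ) (pg0 ι) m0_3 m0_5 l0_5 z0_5 w0_5 x0_5 (by decide) _ (chkS_sound E lk0 1 1 _ _ _ _ t0_3_5)

def r0_3_6 : List (ℕ × ℤ) := [(79, 1)]

theorem h0_3_6 (E : Env κ ι) : ip (F0_3 E) (F0_6 E) = dotS (ek E lk0) r0_3_6 :=
  op_entryZ E lk0 1 1 _ _ _ _ (pg0 κ) (pg0 ι) m0_3 m0_6 l0_6 z0_6 w0_6 x0_6 (by decide) _ (chkS_sound E lk0 1 1 _ _ _ _ t0_3_6)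

def r0_3_7 : List (ℕ × ℤ) := [(80, 1)]

theorem h0_3_7 (E : Env κ ι) : ip (F0_3 E) (F0_7 E) = dotS (ek E lk0) r0_3_7 :=
  op_entryZ E lk0 1 1 _ _ _ _ (pg0 κ) (pg0 ι) m0_3 m0_7 l0_7 z0_7 w0_7 x0_7 (by decide) _ (chkS_sound E lk0 1 1 _ _ _ _ t0_3_7)

def r0_3_8 : List (ℕ × ℤ) := [(81, 1)]

theorem h0_3_8 (E : Env κ ι) : ip (F0_3 E) (F0_8 E) = dotS (ek E lk0) r0_3_8 :=
  op_entryZ E lk0 1 1 _ _ _ _ (pg0 κ) (pg0 ι) m0_3 m0_8 l0_8 z0_8 w0_8 x0_8 (by decide) _ (chkS_sound E lk0 1 1 _ _ _ _ t0_3_8)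

def r0_3_9 : List (ℕ × ℤ) := [(23, 1)]

theorem h0_3_9 (E : Env κ ι) : ip (F0_3 E) (F0_9 E) = dotS (ek E lk0) r0_3_9 :=
  op_entryZ E lk0 1 1 _ _ _ _ (pg0 κ) (pg0 ι) m0_3 m0_9 l0_9 z0_9 w0_9 x0_9 (by decide) _ (chkS_sound E lk0 1 1 _ _ _ _ t0_3_9)

def r0_3_10 : List (ℕ × ℤ) := [(38, 1)]

theorem h0_3_10 (E : Env κ ι) : ip (F0_3 E) (F0_10 E) = dotS (ek E lk0) r0_3_10 :=
  op_entryZ E lk0 1 1 _ _ _ _ (pg0 κ) (pg0 ι) m0_3 m0_10 l0_10 z0_10 w0_10 x0_10 (by decide) _ (chkS_sound E lk0 1 1 _ _ _ _ t0_3_10)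

def r0_3_11 : List (ℕ × ℤ) := [(39, 1)]

theorem h0_3_11 (E : Env κ ι) : ip (F0_3 E) (F0_11 E) = dotS (ek E lk0) r0_3_11 :=
  op_entryZ E lk0 1 1 _ _ _ _ (pg0 κ) (pg0 ι) m0_3 m0_11 l0_11 z0_11 w0_11 x0_11 (by decide) _ (chkS_sound E lk0 1 1 _ _ _ _ t0_3_11)

def r0_3_12 : List (ℕ × ℤ) := [(82, 1)]

theorem h0_3_12 (E : Env κ ι) : ip (F0_3 E) (F0_12 E) = dotS (ek E lk0) r0_3_12 :=
  op_entryZ E lk0 1 1 _ _ _ _ (pg0 κ) (pg0 ι) m0_3 m0_12 l0_12 z0_12 w0_12 x0_12 (by decide) _ (chkS_sound E lk0 1 1 _ _ _ _ t0_3_12)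

def r0_3_13 : List (ℕ × ℤ) := [(24, 1)]

theorem h0_3_13 (E : Env κ ι) : ip (F0_3 E) (F0_13 E) = dotS (ek E lk0) r0_3_13 :=
  op_entryZ E lk0 1 1 _ _ _ _ (pg0 κ) (pg0 ι) m0_3 m0_13 l0_13 z0_13 w0_13 x0_13 (by decide) _ (chkS_sound E lk0 1 1 _ _ _ _ t0_3_13)

def r0_3_14 : List (ℕ × ℤ) := [(83, 1)]

theorem h0_3_14 (E : Env κ ι) : ip (F0_3 E) (F0_14 E) = dotS (ek E lk0) r0_3_14 :=
  op_entryZ E lk0 1 1 _ _ _ _ (pg0 κ) (pg0 ι) m0_3 m0_14 l0_14 z0_14 w0_14 x0_14 (by decide) _ (chkS_sound E lk0 1 1 _ _ _ _ t0_3_14)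

def r0_3_15 : List (ℕ × ℤ) := [(41, 1)]

theorem h0_3_15 (E : Env κ ι) : ip (F0_3 E) (F0_15 E) = dotS (ek E lk0) r0_3_15 :=
  op_entryZ E lk0 1 1 _ _ _ _ (pg0 κ) (pg0 ι) m0_3 m0_15 l0_15 z0_15 w0_15 x0_15 (by decide) _ (chkS_sound E lk0 1 1 _ _ _ _ t0_3_15)

def r0_3_16 : List (ℕ × ℤ) := [(18, 1)]

theorem h0_3_16 (E : Env κ ι) : ip (F0_3 E) (F0_16 E) = dotS (ek E lk0) r0_3_16 :=
  op_entryZ E lk0 1 1 _ _ _ _ (pg0 κ) (pg0 ι) m0_3 m0_16 l0_16 z0_16 w0_16 x0_16 (by decide) _ (chkS_sound E lk0 1 1 _ _ _ _ t0_3_16)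

def r0_3_17 : List (ℕ × ℤ) := [(22, 1)]

theorem h0_3_17 (E : Env κ ι) : ip (F0_3 E) (F0_17 E) = dotS (ek E lk0) r0_3_17 :=
  op_entryZ E lk0 1 1 _ _ _ _ (pg0 κ) (pg0 ι) m0_3 m0_17 l0_17 z0_17 w0_17 x0_17 (by decide) _ (chkS_sound E lk0 1 1 _ _ _ _ t0_3_17)

def r0_4_4 : List (ℕ × ℤ) := [(84, 1)]

theorem h0_4_4 (E : Env κ ι) : ip (F0_4 E) (F0_4 E) = dotS (ek E lk0) r0_4_4 :=
  op_entryZ E lk0 1 1 _ _ _ _ (pg0 κ) (pg0 ι) m0_4 m0_4 l0_4 z0_4 w0_4 x0_4 (by decide) _ (chkS_sound E lk0 1 1 _ _ _ _ t0_4_4)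

def r0_4_5 : List (ℕ × ℤ) := [(85, 1)]

theorem h0_4_5 (E : Env κ ι) : ip (F0_4 E) (F0_5 E) = dotS (ek E lk0) r0_4_5 :=
  op_entryZ E lk0 1 1 _ _ _ _ (pg0 κ) (pg0 ι) m0_4 m0_5 l0_5 z0_5 w0_5 x0_5 (by decide) _ (chkS_sound E lk0 1 1 _ _ _ _ t0_4_5)

def r0_4_6 : List (ℕ × ℤ) := [(86, 1)]

theorem h0_4_6 (E : Env κ ι) : ip (F0_4 E) (F0_6 E) = dotS (ek E lk0) r0_4_6 :=
  op_entryZ E lk0 1 1 _ _ _ _ (pg0 κ) (pg0 ι) m0_4 m0_6 l0_6 z0_6 w0_6 x0_6 (by decide) _ (chkS_sound E lk0 1 1 _ _ _ _ t0_4_6)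

def r0_4_7 : List (ℕ × ℤ) := [(87, 1)]

theorem h0_4_7 (E : Env κ ι) : ip (F0_4 E) (F0_7 E) = dotS (ek E lk0) r0_4_7 :=
  op_entryZ E lk0 1 1 _ _ _ _ (pg0 κ) (pg0 ι) m0_4 m0_7 l0_7 z0_7 w0_7 x0_7 (by decide) _ (chkS_sound E lk0 1 1 _ _ _ _ t0_4_7)

def r0_4_8 : List (ℕ × ℤ) := [(88, 1)]

theorem h0_4_8 (E : Env κ ι) : ip (F0_4 E) (F0_8 E) = dotS (ek E lk0) r0_4_8 :=
  op_entryZ E lk0 1 1 _ _ _ _ (pg0 κ) (pg0 ι) m0_4 m0_8 l0_8 z0_8 w0_8 x0_8 (by decide) _ (chkS_sound E lk0 1 1 _ _ _ _ t0_4_8)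

def r0_4_9 : List (ℕ × ℤ) := [(89, 1)]

theorem h0_4_9 (E : Env κ ι) : ip (F0_4 E) (F0_9 E) = dotS (ek E lk0) r0_4_9 :=
  op_entryZ E lk0 1 1 _ _ _ _ (pg0 κ) (pg0 ι) m0_4 m0_9 l0_9 z0_9 w0_9 x0_9 (by decide) _ (chkS_sound E lk0 1 1 _ _ _ _ t0_4_9)

def r0_4_10 : List (ℕ × ℤ) := [(90, 1)]

theorem h0_4_10 (E : Env κ ι) : ip (F0_4 E) (F0_10 E) = dotS (ek E lk0) r0_4_10 :=
  op_entryZ E lk0 1 1 _ _ _ _ (pg0 κ) (pg0 ι) m0_4 m0_10 l0_10 z0_10 w0_10 x0_10 (by decide) _ (chkS_sound E lk0 1 1 _ _ _ _ t0_4_10)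

def r0_4_11 : List (ℕ × ℤ) := [(91, 1)]

theorem h0_4_11 (E : Env κ ι) : ip (F0_4 E) (F0_11 E) = dotS (ek E lk0) r0_4_11 :=
  op_entryZ E lk0 1 1 _ _ _ _ (pg0 κ) (pg0 ι) m0_4 m0_11 l0_11 z0_11 w0_11 x0_11 (by decide) _ (chkS_sound E lk0 1 1 _ _ _ _ t0_4_11)

def r0_4_12 : List (ℕ × ℤ) := [(92, 1)]

theorem h0_4_12 (E : Env κ ι) : ip (F0_4 E) (F0_12 E) = dotS (ek E lk0) r0_4_12 :=
  op_entryZ E lk0 1 1 _ _ _ _ (pg0 κ) (pg0 ι) m0_4 m0_12 l0_12 z0_12 w0_12 x0_12 (by decide) _ (chkS_sound E lk0 1 1 _ _ _ _ t0_4_12)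

def r0_4_13 : List (ℕ × ℤ) := [(11, 1)]

theorem h0_4_13 (E : Env κ ι) : ip (F0_4 E) (F0_13 E) = dotS (ek E lk0) r0_4_13 :=
  op_entryZ E lk0 1 1 _ _ _ _ (pg0 κ) (pg0 ι) m0_4 m0_13 l0_13 z0_13 w0_13 x0_13 (by decide) _ (chkS_sound E lk0 1 1 _ _ _ _ t0_4_13)

def r0_4_14 : List (ℕ × ℤ) := [(93, 1)]

theorem h0_4_14 (E : Env κ ι) : ip (F0_4 E) (F0_14 E) = dotS (ek E lk0) r0_4_14 :=
  op_entryZ E lk0 1 1 _ _ _ _ (pg0 κ) (pg0 ι) m0_4 m0_14 l0_14 z0_14 w0_14 x0_14 (by decide) _ (chkS_sound E lk0 1 1 _ _ _ _ t0_4_14)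

def r0_4_15 : List (ℕ × ℤ) := [(94, 1)]

theorem h0_4_15 (E : Env κ ι) : ip (F0_4 E) (F0_15 E) = dotS (ek E lk0) r0_4_15 :=
  op_entryZ E lk0 1 1 _ _ _ _ (pg0 κ) (pg0 ι) m0_4 m0_15 l0_15 z0_15 w0_15 x0_15 (by decide) _ (chkS_sound E lk0 1 1 _ _ _ _ t0_4_15)

def r0_4_16 : List (ℕ × ℤ) := [(3, 1)]

theorem h0_4_16 (E : Env κ ι) : ip (F0_4 E) (F0_16 E) = dotS (ek E lk0) r0_4_16 :=
  op_entryZ E lk0 1 1 _ _ _ _ (pg0 κ) (pg0 ι) m0_4 m0_16 l0_16 z0_16 w0_16 x0_16 (by decide) _ (chkS_sound E lk0 1 1 _ _ _ _ t0_4_16)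

def r0_4_17 : List (ℕ × ℤ) := [(95, 1)]

theorem h0_4_17 (E : Env κ ι) : ip (F0_4 E) (F0_17 E) = dotS (ek E lk0) r0_4_17 :=
  op_entryZ E lk0 1 1 _ _ _ _ (pg0 κ) (pg0 ι) m0_4 m0_17 l0_17 z0_17 w0_17 x0_17 (by decide) _ (chkS_sound E lk0 1 1 _ _ _ _ t0_4_17)

def r0_5_5 : List (ℕ × ℤ) := [(96, 1)]

theorem h0_5_5 (E : Env κ ι) : ip (F0_5 E) (F0_5 E) = dotS (ek E lk0) r0_5_5 :=
  op_entryZ E lk0 1 1 _ _ _ _ (pg0 κ) (pg0 ι) m0_5 m0_5 l0_5 z0_5 w0_5 x0_5 (by decide) _ (chkS_sound E lk0 1 1 _ _ _ _ t0_5_5)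

def r0_5_6 : List (ℕ × ℤ) := [(65, 1)]

theorem h0_5_6 (E : Env κ ι) : ip (F0_5 E) (F0_6 E) = dotS (ek E lk0) r0_5_6 :=
  op_entryZ E lk0 1 1 _ _ _ _ (pg0 κ) (pg0 ι) m0_5 m0_6 l0_6 z0_6 w0_6 x0_6 (by decide) _ (chkS_sound E lk0 1 1 _ _ _ _ t0_5_6)

def r0_5_7 : List (ℕ × ℤ) := [(97, 1)]

theorem h0_5_7 (E : Env κ ι) : ip (F0_5 E) (F0_7 E) = dotS (ek E lk0) r0_5_7 :=
  op_entryZ E lk0 1 1 _ _ _ _ (pg0 κ) (pg0 ι) m0_5 m0_7 l0_7 z0_7 w0_7 x0_7 (by decide) _ (chkS_sound E lk0 1 1 _ _ _ _ t0_5_7)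

def r0_5_8 : List (ℕ × ℤ) := [(98, 1)]

theorem h0_5_8 (E : Env κ ι) : ip (F0_5 E) (F0_8 E) = dotS (ek E lk0) r0_5_8 :=
  op_entryZ E lk0 1 1 _ _ _ _ (pg0 κ) (pg0 ι) m0_5 m0_8 l0_8 z0_8 w0_8 x0_8 (by decide) _ (chkS_sound E lk0 1 1 _ _ _ _ t0_5_8)

def r0_5_9 : List (ℕ × ℤ) := [(99, 1)]

theorem h0_5_9 (E : Env κ ι) : ip (F0_5 E) (F0_9 E) = dotS (ek E lk0) r0_5_9 :=
  op_entryZ E lk0 1 1 _ _ _ _ (pg0 κ) (pg0 ι) m0_5 m0_9 l0_9 z0_9 w0_9 x0_9 (by decide) _ (chkS_sound E lk0 1 1 _ _ _ _ t0_5_9)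

def r0_5_10 : List (ℕ × ℤ) := [(32, 1)]

theorem h0_5_10 (E : Env κ ι) : ip (F0_5 E) (F0_10 E) = dotS (ek E lk0) r0_5_10 :=
  op_entryZ E lk0 1 1 _ _ _ _ (pg0 κ) (pg0 ι) m0_5 m0_10 l0_10 z0_10 w0_10 x0_10 (by decide) _ (chkS_sound E lk0 1 1 _ _ _ _ t0_5_10)

def r0_5_11 : List (ℕ × ℤ) := [(40, 1)]

theorem h0_5_11 (E : Env κ ι) : ip (F0_5 E) (F0_11 E) = dotS (ek E lk0) r0_5_11 :=
  op_entryZ E lk0 1 1 _ _ _ _ (pg0 κ) (pg0 ι) m0_5 m0_11 l0_11 z0_11 w0_11 x0_11 (by decide) _ (chkS_sound E lk0 1 1 _ _ _ _ t0_5_11)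

def r0_5_12 : List (ℕ × ℤ) := [(100, 1)]

theorem h0_5_12 (E : Env κ ι) : ip (F0_5 E) (F0_12 E) = dotS (ek E lk0) r0_5_12 :=
  op_entryZ E lk0 1 1 _ _ _ _ (pg0 κ) (pg0 ι) m0_5 m0_12 l0_12 z0_12 w0_12 x0_12 (by decide) _ (chkS_sound E lk0 1 1 _ _ _ _ t0_5_12)

def r0_5_13 : List (ℕ × ℤ) := [(101, 1)]

theorem h0_5_13 (E : Env κ ι) : ip (F0_5 E) (F0_13 E) = dotS (ek E lk0) r0_5_13 :=
  op_entryZ E lk0 1 1 _ _ _ _ (pg0 κ) (pg0 ι) m0_5 m0_13 l0_13 z0_13 w0_13 x0_13 (by decide) _ (chkS_sound E lk0 1 1 _ _ _ _ t0_5_13)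

def r0_5_14 : List (ℕ × ℤ) := [(102, 1)]

theorem h0_5_14 (E : Env κ ι) : ip (F0_5 E) (F0_14 E) = dotS (ek E lk0) r0_5_14 :=
  op_entryZ E lk0 1 1 _ _ _ _ (pg0 κ) (pg0 ι) m0_5 m0_14 l0_14 z0_14 w0_14 x0_14 (by decide) _ (chkS_sound E lk0 1 1 _ _ _ _ t0_5_14)

def r0_5_15 : List (ℕ × ℤ) := [(43, 1)]

theorem h0_5_15 (E : Env κ ι) : ip (F0_5 E) (F0_15 E) = dotS (ek E lk0) r0_5_15 :=
  op_entryZ E lk0 1 1 _ _ _ _ (pg0 κ) (pg0 ι) m0_5 m0_15 l0_15 z0_15 w0_15 x0_15 (by decide) _ (chkS_sound E lk0 1 1 _ _ _ _ t0_5_15)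

def r0_5_16 : List (ℕ × ℤ) := [(45, 1)]

theorem h0_5_16 (E : Env κ ι) : ip (F0_5 E) (F0_16 E) = dotS (ek E lk0) r0_5_16 :=
  op_entryZ E lk0 1 1 _ _ _ _ (pg0 κ) (pg0 ι) m0_5 m0_16 l0_16 z0_16 w0_16 x0_16 (by decide) _ (chkS_sound E lk0 1 1 _ _ _ _ t0_5_16)

def r0_5_17 : List (ℕ × ℤ) := [(103, 1)]

theorem h0_5_17 (E : Env κ ι) : ip (F0_5 E) (F0_17 E) = dotS (ek E lk0) r0_5_17 :=
  op_entryZ E lk0 1 1 _ _ _ _ (pg0 κ) (pg0 ι) m0_5 m0_17 l0_17 z0_17 w0_17 x0_17 (by decide) _ (chkS_sound E lk0 1 1 _ _ _ _ t0_5_17)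

def r0_6_6 : List (ℕ × ℤ) := [(104, 1)]

theorem h0_6_6 (E : Env κ ι) : ip (F0_6 E) (F0_6 E) = dotS (ek E lk0) r0_6_6 :=
  op_entryZ E lk0 1 1 _ _ _ _ (pg0 κ) (pg0 ι) m0_6 m0_6 l0_6 z0_6 w0_6 x0_6 (by decide) _ (chkS_sound E lk0 1 1 _ _ _ _ t0_6_6)

def r0_6_7 : List (ℕ × ℤ) := [(105, 1)]

theorem h0_6_7 (E : Env κ ι) : ip (F0_6 E) (F0_7 E) = dotS (ek E lk0) r0_6_7 :=
  op_entryZ E lk0 1 1 _ _ _ _ (pg0 κ) (pg0 ι) m0_6 m0_7 l0_7 z0_7 w0_7 x0_7 (by decide) _ (chkS_sound E lk0 1 1 _ _ _ _ t0_6_7)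

def r0_6_8 : List (ℕ × ℤ) := [(106, 1)]

theorem h0_6_8 (E : Env κ ι) : ip (F0_6 E) (F0_8 E) = dotS (ek E lk0) r0_6_8 :=
  op_entryZ E lk0 1 1 _ _ _ _ (pg0 κ) (pg0 ι) m0_6 m0_8 l0_8 z0_8 w0_8 x0_8 (by decide) _ (chkS_sound E lk0 1 1 _ _ _ _ t0_6_8)

def r0_6_9 : List (ℕ × ℤ) := [(107, 1)]

theorem h0_6_9 (E : Env κ ι) : ip (F0_6 E) (F0_9 E) = dotS (ek E lk0) r0_6_9 :=
  op_entryZ E lk0 1 1 _ _ _ _ (pg0 κ) (pg0 ι) m0_6 m0_9 l0_9 z0_9 w0_9 x0_9 (by decide) _ (chkS_sound E lk0 1 1 _ _ _ _ t0_6_9)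

def r0_6_10 : List (ℕ × ℤ) := [(108, 1)]

theorem h0_6_10 (E : Env κ ι) : ip (F0_6 E) (F0_10 E) = dotS (ek E lk0) r0_6_10 :=
  op_entryZ E lk0 1 1 _ _ _ _ (pg0 κ) (pg0 ι) m0_6 m0_10 l0_10 z0_10 w0_10 x0_10 (by decide) _ (chkS_sound E lk0 1 1 _ _ _ _ t0_6_10)

def r0_6_11 : List (ℕ × ℤ) := [(109, 1)]

theorem h0_6_11 (E : Env κ ι) : ip (F0_6 E) (F0_11 E) = dotS (ek E lk0) r0_6_11 :=
  op_entryZ E lk0 1 1 _ _ _ _ (pg0 κ) (pg0 ι) m0_6 m0_11 l0_11 z0_11 w0_11 x0_11 (by decide) _ (chkS_sound E lk0 1 1 _ _ _ _ t0_6_11)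

def r0_6_12 : List (ℕ × ℤ) := [(110, 1)]

theorem h0_6_12 (E : Env κ ι) : ip (F0_6 E) (F0_12 E) = dotS (ek E lk0) r0_6_12 :=
  op_entryZ E lk0 1 1 _ _ _ _ (pg0 κ) (pg0 ι) m0_6 m0_12 l0_12 z0_12 w0_12 x0_12 (by decide) _ (chkS_sound E lk0 1 1 _ _ _ _ t0_6_12)

def r0_6_13 : List (ℕ × ℤ) := [(111, 1)]

theorem h0_6_13 (E : Env κ ι) : ip (F0_6 E) (F0_13 E) = dotS (ek E lk0) r0_6_13 :=
  op_entryZ E lk0 1 1 _ _ _ _ (pg0 κ) (pg0 ι) m0_6 m0_13 l0_13 z0_13 w0_13 x0_13 (by decide) _ (chkS_sound E lk0 1 1 _ _ _ _ t0_6_13)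

def r0_6_14 : List (ℕ × ℤ) := [(105, 1)]

theorem h0_6_14 (E : Env κ ι) : ip (F0_6 E) (F0_14 E) = dotS (ek E lk0) r0_6_14 :=
  op_entryZ E lk0 1 1 _ _ _ _ (pg0 κ) (pg0 ι) m0_6 m0_14 l0_14 z0_14 w0_14 x0_14 (by decide) _ (chkS_sound E lk0 1 1 _ _ _ _ t0_6_14)

def r0_6_15 : List (ℕ × ℤ) := [(109, 1)]

theorem h0_6_15 (E : Env κ ι) : ip (F0_6 E) (F0_15 E) = dotS (ek E lk0) r0_6_15 :=
  op_entryZ E lk0 1 1 _ _ _ _ (pg0 κ) (pg0 ι) m0_6 m0_15 l0_15 z0_15 w0_15 x0_15 (by decide) _ (chkS_sound E lk0 1 1 _ _ _ _ t0_6_15)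

def r0_6_16 : List (ℕ × ℤ) := [(112, 1)]

theorem h0_6_16 (E : Env κ ι) : ip (F0_6 E) (F0_16 E) = dotS (ek E lk0) r0_6_16 :=
  op_entryZ E lk0 1 1 _ _ _ _ (pg0 κ) (pg0 ι) m0_6 m0_16 l0_16 z0_16 w0_16 x0_16 (by decide) _ (chkS_sound E lk0 1 1 _ _ _ _ t0_6_16)

def r0_6_17 : List (ℕ × ℤ) := [(113, 1)]

theorem h0_6_17 (E : Env κ ι) : ip (F0_6 E) (F0_17 E) = dotS (ek E lk0) r0_6_17 :=
  op_entryZ E lk0 1 1 _ _ _ _ (pg0 κ) (pg0 ι) m0_6 m0_17 l0_17 z0_17 w0_17 x0_17 (by decide) _ (chkS_sound E lk0 1 1 _ _ _ _ t0_6_17)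

def r0_7_7 : List (ℕ × ℤ) := [(114, 1)]

theorem h0_7_7 (E : Env κ ι) : ip (F0_7 E) (F0_7 E) = dotS (ek E lk0) r0_7_7 :=
  op_entryZ E lk0 1 1 _ _ _ _ (pg0 κ) (pg0 ι) m0_7 m0_7 l0_7 z0_7 w0_7 x0_7 (by decide) _ (chkS_sound E lk0 1 1 _ _ _ _ t0_7_7)

def r0_7_8 : List (ℕ × ℤ) := [(115, 1)]

theorem h0_7_8 (E : Env κ ι) : ip (F0_7 E) (F0_8 E) = dotS (ek E lk0) r0_7_8 :=
  op_entryZ E lk0 1 1 _ _ _ _ (pg0 κ) (pg0 ι) m0_7 m0_8 l0_8 z0_8 w0_8 x0_8 (by decide) _ (chkS_sound E lk0 1 1 _ _ _ _ t0_7_8)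

def r0_7_9 : List (ℕ × ℤ) := [(116, 1)]

theorem h0_7_9 (E : Env κ ι) : ip (F0_7 E) (F0_9 E) = dotS (ek E lk0) r0_7_9 :=
  op_entryZ E lk0 1 1 _ _ _ _ (pg0 κ) (pg0 ι) m0_7 m0_9 l0_9 z0_9 w0_9 x0_9 (by decide) _ (chkS_sound E lk0 1 1 _ _ _ _ t0_7_9)

def r0_7_10 : List (ℕ × ℤ) := [(29, 1)]

theorem h0_7_10 (E : Env κ ι) : ip (F0_7 E) (F0_10 E) = dotS (ek E lk0) r0_7_10 :=
  op_entryZ E lk0 1 1 _ _ _ _ (pg0 κ) (pg0 ι) m0_7 m0_10 l0_10 z0_10 w0_10 x0_10 (by decide) _ (chkS_sound E lk0 1 1 _ _ _ _ t0_7_10)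

def r0_7_11 : List (ℕ × ℤ) := [(117, 1)]

theorem h0_7_11 (E : Env κ ι) : ip (F0_7 E) (F0_11 E) = dotS (ek E lk0) r0_7_11 :=
  op_entryZ E lk0 1 1 _ _ _ _ (pg0 κ) (pg0 ι) m0_7 m0_11 l0_11 z0_11 w0_11 x0_11 (by decide) _ (chkS_sound E lk0 1 1 _ _ _ _ t0_7_11)

def r0_7_12 : List (ℕ × ℤ) := [(118, 1)]

theorem h0_7_12 (E : Env κ ι) : ip (F0_7 E) (F0_12 E) = dotS (ek E lk0) r0_7_12 :=
  op_entryZ E lk0 1 1 _ _ _ _ (pg0 κ) (pg0 ι) m0_7 m0_12 l0_12 z0_12 w0_12 x0_12 (by decide) _ (chkS_sound E lk0 1 1 _ _ _ _ t0_7_12)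

def r0_7_13 : List (ℕ × ℤ) := [(119, 1)]

theorem h0_7_13 (E : Env κ ι) : ip (F0_7 E) (F0_13 E) = dotS (ek E lk0) r0_7_13 :=
  op_entryZ E lk0 1 1 _ _ _ _ (pg0 κ) (pg0 ι) m0_7 m0_13 l0_13 z0_13 w0_13 x0_13 (by decide) _ (chkS_sound E lk0 1 1 _ _ _ _ t0_7_13)

def r0_7_14 : List (ℕ × ℤ) := [(120, 1)]

theorem h0_7_14 (E : Env κ ι) : ip (F0_7 E) (F0_14 E) = dotS (ek E lk0) r0_7_14 :=
  op_entryZ E lk0 1 1 _ _ _ _ (pg0 κ) (pg0 ι) m0_7 m0_14 l0_14 z0_14 w0_14 x0_14 (by decide) _ (chkS_sound E lk0 1 1 _ _ _ _ t0_7_14)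

def r0_7_15 : List (ℕ × ℤ) := [(121, 1)]

theorem h0_7_15 (E : Env κ ι) : ip (F0_7 E) (F0_15 E) = dotS (ek E lk0) r0_7_15 :=
  op_entryZ E lk0 1 1 _ _ _ _ (pg0 κ) (pg0 ι) m0_7 m0_15 l0_15 z0_15 w0_15 x0_15 (by decide) _ (chkS_sound E lk0 1 1 _ _ _ _ t0_7_15)

def r0_7_16 : List (ℕ × ℤ) := [(122, 1)]

theorem h0_7_16 (E : Env κ ι) : ip (F0_7 E) (F0_16 E) = dotS (ek E lk0) r0_7_16 :=
  op_entryZ E lk0 1 1 _ _ _ _ (pg0 κ) (pg0 ι) m0_7 m0_16 l0_16 z0_16 w0_16 x0_16 (by decide) _ (chkS_sound E lk0 1 1 _ _ _ _ t0_7_16)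

def r0_7_17 : List (ℕ × ℤ) := [(123, 1)]

theorem h0_7_17 (E : Env κ ι) : ip (F0_7 E) (F0_17 E) = dotS (ek E lk0) r0_7_17 :=
  op_entryZ E lk0 1 1 _ _ _ _ (pg0 κ) (pg0 ι) m0_7 m0_17 l0_17 z0_17 w0_17 x0_17 (by decide) _ (chkS_sound E lk0 1 1 _ _ _ _ t0_7_17)

def r0_8_8 : List (ℕ × ℤ) := [(124, 1)]

theorem h0_8_8 (E : Env κ ι) : ip (F0_8 E) (F0_8 E) = dotS (ek E lk0) r0_8_8 :=
  op_entryZ E lk0 1 1 _ _ _ _ (pg0 κ) (pg0 ι) m0_8 m0_8 l0_8 z0_8 w0_8 x0_8 (by decide) _ (chkS_sound E lk0 1 1 _ _ _ _ t0_8_8)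

def r0_8_9 : List (ℕ × ℤ) := [(125, 1)]

theorem h0_8_9 (E : Env κ ι) : ip (F0_8 E) (F0_9 E) = dotS (ek E lk0) r0_8_9 :=
  op_entryZ E lk0 1 1 _ _ _ _ (pg0 κ) (pg0 ι) m0_8 m0_9 l0_9 z0_9 w0_9 x0_9 (by decide) _ (chkS_sound E lk0 1 1 _ _ _ _ t0_8_9)

def r0_8_10 : List (ℕ × ℤ) := [(126, 1)]

theorem h0_8_10 (E : Env κ ι) : ip (F0_8 E) (F0_10 E) = dotS (ek E lk0) r0_8_10 :=
  op_entryZ E lk0 1 1 _ _ _ _ (pg0 κ) (pg0 ι) m0_8 m0_10 l0_10 z0_10 w0_10 x0_10 (by decide) _ (chkS_sound E lk0 1 1 _ _ _ _ t0_8_10)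

def r0_8_11 : List (ℕ × ℤ) := [(121, 1)]

theorem h0_8_11 (E : Env κ ι) : ip (F0_8 E) (F0_11 E) = dotS (ek E lk0) r0_8_11 :=
  op_entryZ E lk0 1 1 _ _ _ _ (pg0 κ) (pg0 ι) m0_8 m0_11 l0_11 z0_11 w0_11 x0_11 (by decide) _ (chkS_sound E lk0 1 1 _ _ _ _ t0_8_11)

def r0_8_12 : List (ℕ × ℤ) := [(127, 1)]

theorem h0_8_12 (E : Env κ ι) : ip (F0_8 E) (F0_12 E) = dotS (ek E lk0) r0_8_12 :=
  op_entryZ E lk0 1 1 _ _ _ _ (pg0 κ) (pg0 ι) m0_8 m0_12 l0_12 z0_12 w0_12 x0_12 (by decide) _ (chkS_sound E lk0 1 1 _ _ _ _ t0_8_12)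

def r0_8_13 : List (ℕ × ℤ) := [(128, 1)]

theorem h0_8_13 (E : Env κ ι) : ip (F0_8 E) (F0_13 E) = dotS (ek E lk0) r0_8_13 :=
  op_entryZ E lk0 1 1 _ _ _ _ (pg0 κ) (pg0 ι) m0_8 m0_13 l0_13 z0_13 w0_13 x0_13 (by decide) _ (chkS_sound E lk0 1 1 _ _ _ _ t0_8_13)

def r0_8_14 : List (ℕ × ℤ) := [(129, 1)]

theorem h0_8_14 (E : Env κ ι) : ip (F0_8 E) (F0_14 E) = dotS (ek E lk0) r0_8_14 :=
  op_entryZ E lk0 1 1 _ _ _ _ (pg0 κ) (pg0 ι) m0_8 m0_14 l0_14 z0_14 w0_14 x0_14 (by decide) _ (chkS_sound E lk0 1 1 _ _ _ _ t0_8_14)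

def r0_8_15 : List (ℕ × ℤ) := [(130, 1)]

theorem h0_8_15 (E : Env κ ι) : ip (F0_8 E) (F0_15 E) = dotS (ek E lk0) r0_8_15 :=
  op_entryZ E lk0 1 1 _ _ _ _ (pg0 κ) (pg0 ι) m0_8 m0_15 l0_15 z0_15 w0_15 x0_15 (by decide) _ (chkS_sound E lk0 1 1 _ _ _ _ t0_8_15)

def r0_8_16 : List (ℕ × ℤ) := [(131, 1)]

theorem h0_8_16 (E : Env κ ι) : ip (F0_8 E) (F0_16 E) = dotS (ek E lk0) r0_8_16 :=
  op_entryZ E lk0 1 1 _ _ _ _ (pg0 κ) (pg0 ι) m0_8 m0_16 l0_16 z0_16 w0_16 x0_16 (by decide) _ (chkS_sound E lk0 1 1 _ _ _ _ t0_8_16)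

def r0_8_17 : List (ℕ × ℤ) := [(132, 1)]

theorem h0_8_17 (E : Env κ ι) : ip (F0_8 E) (F0_17 E) = dotS (ek E lk0) r0_8_17 :=
  op_entryZ E lk0 1 1 _ _ _ _ (pg0 κ) (pg0 ι) m0_8 m0_17 l0_17 z0_17 w0_17 x0_17 (by decide) _ (chkS_sound E lk0 1 1 _ _ _ _ t0_8_17)

def r0_9_9 : List (ℕ × ℤ) := [(133, 1)]

theorem h0_9_9 (E : Env κ ι) : ip (F0_9 E) (F0_9 E) = dotS (ek E lk0) r0_9_9 :=
  op_entryZ E lk0 1 1 _ _ _ _ (pg0 κ) (pg0 ι) m0_9 m0_9 l0_9 z0_9 w0_9 x0_9 (by decide) _ (chkS_sound E lk0 1 1 _ _ _ _ t0_9_9)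

def r0_9_10 : List (ℕ × ℤ) := [(134, 1)]

theorem h0_9_10 (E : Env κ ι) : ip (F0_9 E) (F0_10 E) = dotS (ek E lk0) r0_9_10 :=
  op_entryZ E lk0 1 1 _ _ _ _ (pg0 κ) (pg0 ι) m0_9 m0_10 l0_10 z0_10 w0_10 x0_10 (by decide) _ (chkS_sound E lk0 1 1 _ _ _ _ t0_9_10)

def r0_9_11 : List (ℕ × ℤ) := [(29, 1)]

theorem h0_9_11 (E : Env κ ι) : ip (F0_9 E) (F0_11 E) = dotS (ek E lk0) r0_9_11 :=
  op_entryZ E lk0 1 1 _ _ _ _ (pg0 κ) (pg0 ι) m0_9 m0_11 l0_11 z0_11 w0_11 x0_11 (by decide) _ (chkS_sound E lk0 1 1 _ _ _ _ t0_9_11)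

def r0_9_12 : List (ℕ × ℤ) := [(135, 1)]

theorem h0_9_12 (E : Env κ ι) : ip (F0_9 E) (F0_12 E) = dotS (ek E lk0) r0_9_12 :=
  op_entryZ E lk0 1 1 _ _ _ _ (pg0 κ) (pg0 ι) m0_9 m0_12 l0_12 z0_12 w0_12 x0_12 (by decide) _ (chkS_sound E lk0 1 1 _ _ _ _ t0_9_12)

def r0_9_13 : List (ℕ × ℤ) := [(7, 1)]

theorem h0_9_13 (E : Env κ ι) : ip (F0_9 E) (F0_13 E) = dotS (ek E lk0) r0_9_13 :=
  op_entryZ E lk0 1 1 _ _ _ _ (pg0 κ) (pg0 ι) m0_9 m0_13 l0_13 z0_13 w0_13 x0_13 (by decide) _ (chkS_sound E lk0 1 1 _ _ _ _ t0_9_13)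

def r0_9_14 : List (ℕ × ℤ) := [(125, 1)]

theorem h0_9_14 (E : Env κ ι) : ip (F0_9 E) (F0_14 E) = dotS (ek E lk0) r0_9_14 :=
  op_entryZ E lk0 1 1 _ _ _ _ (pg0 κ) (pg0 ι) m0_9 m0_14 l0_14 z0_14 w0_14 x0_14 (by decide) _ (chkS_sound E lk0 1 1 _ _ _ _ t0_9_14)

def r0_9_15 : List (ℕ × ℤ) := [(126, 1)]

theorem h0_9_15 (E : Env κ ι) : ip (F0_9 E) (F0_15 E) = dotS (ek E lk0) r0_9_15 :=
  op_entryZ E lk0 1 1 _ _ _ _ (pg0 κ) (pg0 ι) m0_9 m0_15 l0_15 z0_15 w0_15 x0_15 (by decide) _ (chkS_sound E lk0 1 1 _ _ _ _ t0_9_15)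

def r0_9_16 : List (ℕ × ℤ) := [(15, 1)]

theorem h0_9_16 (E : Env κ ι) : ip (F0_9 E) (F0_16 E) = dotS (ek E lk0) r0_9_16 :=
  op_entryZ E lk0 1 1 _ _ _ _ (pg0 κ) (pg0 ι) m0_9 m0_16 l0_16 z0_16 w0_16 x0_16 (by decide) _ (chkS_sound E lk0 1 1 _ _ _ _ t0_9_16)

def r0_9_17 : List (ℕ × ℤ) := [(136, 1)]

theorem h0_9_17 (E : Env κ ι) : ip (F0_9 E) (F0_17 E) = dotS (ek E lk0) r0_9_17 :=
  op_entryZ E lk0 1 1 _ _ _ _ (pg0 κ) (pg0 ι) m0_9 m0_17 l0_17 z0_17 w0_17 x0_17 (by decide) _ (chkS_sound E lk0 1 1 _ _ _ _ t0_9_17)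

def r0_10_10 : List (ℕ × ℤ) := [(137, 1)]

theorem h0_10_10 (E : Env κ ι) : ip (F0_10 E) (F0_10 E) = dotS (ek E lk0) r0_10_10 :=
  op_entryZ E lk0 1 1 _ _ _ _ (pg0 κ) (pg0 ι) m0_10 m0_10 l0_10 z0_10 w0_10 x0_10 (by decide) _ (chkS_sound E lk0 1 1 _ _ _ _ t0_10_10)

def r0_10_11 : List (ℕ × ℤ) := [(15, 1)]

theorem h0_10_11 (E : Env κ ι) : ip (F0_10 E) (F0_11 E) = dotS (ek E lk0) r0_10_11 :=
  op_entryZ E lk0 1 1 _ _ _ _ (pg0 κ) (pg0 ι) m0_10 m0_11 l0_11 z0_11 w0_11 x0_11 (by decide) _ (chkS_sound E lk0 1 1 _ _ _ _ t0_10_11)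

def r0_10_12 : List (ℕ × ℤ) := [(138, 1)]

theorem h0_10_12 (E : Env κ ι) : ip (F0_10 E) (F0_12 E) = dotS (ek E lk0) r0_10_12 :=
  op_entryZ E lk0 1 1 _ _ _ _ (pg0 κ) (pg0 ι) m0_10 m0_12 l0_12 z0_12 w0_12 x0_12 (by decide) _ (chkS_sound E lk0 1 1 _ _ _ _ t0_10_12)

def r0_10_13 : List (ℕ × ℤ) := [(30, 1)]

theorem h0_10_13 (E : Env κ ι) : ip (F0_10 E) (F0_13 E) = dotS (ek E lk0) r0_10_13 :=
  op_entryZ E lk0 1 1 _ _ _ _ (pg0 κ) (pg0 ι) m0_10 m0_13 l0_13 z0_13 w0_13 x0_13 (by decide) _ (chkS_sound E lk0 1 1 _ _ _ _ t0_10_13)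

def r0_10_14 : List (ℕ × ℤ) := [(29, 1)]

theorem h0_10_14 (E : Env κ ι) : ip (F0_10 E) (F0_14 E) = dotS (ek E lk0) r0_10_14 :=
  op_entryZ E lk0 1 1 _ _ _ _ (pg0 κ) (pg0 ι) m0_10 m0_14 l0_14 z0_14 w0_14 x0_14 (by decide) _ (chkS_sound E lk0 1 1 _ _ _ _ t0_10_14)

def r0_10_15 : List (ℕ × ℤ) := [(15, 1)]

theorem h0_10_15 (E : Env κ ι) : ip (F0_10 E) (F0_15 E) = dotS (ek E lk0) r0_10_15 :=
  op_entryZ E lk0 1 1 _ _ _ _ (pg0 κ) (pg0 ι) m0_10 m0_15 l0_15 z0_15 w0_15 x0_15 (by decide) _ (chkS_sound E lk0 1 1 _ _ _ _ t0_10_15)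

def r0_10_16 : List (ℕ × ℤ) := [(36, 1)]

theorem h0_10_16 (E : Env κ ι) : ip (F0_10 E) (F0_16 E) = dotS (ek E lk0) r0_10_16 :=
  op_entryZ E lk0 1 1 _ _ _ _ (pg0 κ) (pg0 ι) m0_10 m0_16 l0_16 z0_16 w0_16 x0_16 (by decide) _ (chkS_sound E lk0 1 1 _ _ _ _ t0_10_16)

def r0_10_17 : List (ℕ × ℤ) := [(139, 1)]

theorem h0_10_17 (E : Env κ ι) : ip (F0_10 E) (F0_17 E) = dotS (ek E lk0) r0_10_17 :=
  op_entryZ E lk0 1 1 _ _ _ _ (pg0 κ) (pg0 ι) m0_10 m0_17 l0_17 z0_17 w0_17 x0_17 (by decide) _ (chkS_sound E lk0 1 1 _ _ _ _ t0_10_17)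

def r0_11_11 : List (ℕ × ℤ) := [(122, 1)]

theorem h0_11_11 (E : Env κ ι) : ip (F0_11 E) (F0_11 E) = dotS (ek E lk0) r0_11_11 :=
  op_entryZ E lk0 1 1 _ _ _ _ (pg0 κ) (pg0 ι) m0_11 m0_11 l0_11 z0_11 w0_11 x0_11 (by decide) _ (chkS_sound E lk0 1 1 _ _ _ _ t0_11_11)

def r0_11_12 : List (ℕ × ℤ) := [(140, 1)]

theorem h0_11_12 (E : Env κ ι) : ip (F0_11 E) (F0_12 E) = dotS (ek E lk0) r0_11_12 :=
  op_entryZ E lk0 1 1 _ _ _ _ (pg0 κ) (pg0 ι) m0_11 m0_12 l0_12 z0_12 w0_12 x0_12 (by decide) _ (chkS_sound E lk0 1 1 _ _ _ _ t0_11_12)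

def r0_11_13 : List (ℕ × ℤ) := [(34, 1)]

theorem h0_11_13 (E : Env κ ι) : ip (F0_11 E) (F0_13 E) = dotS (ek E lk0) r0_11_13 :=
  op_entryZ E lk0 1 1 _ _ _ _ (pg0 κ) (pg0 ι) m0_11 m0_13 l0_13 z0_13 w0_13 x0_13 (by decide) _ (chkS_sound E lk0 1 1 _ _ _ _ t0_11_13)

def r0_11_14 : List (ℕ × ℤ) := [(141, 1)]

theorem h0_11_14 (E : Env κ ι) : ip (F0_11 E) (F0_14 E) = dotS (ek E lk0) r0_11_14 :=
  op_entryZ E lk0 1 1 _ _ _ _ (pg0 κ) (pg0 ι) m0_11 m0_14 l0_14 z0_14 w0_14 x0_14 (by decide) _ (chkS_sound E lk0 1 1 _ _ _ _ t0_11_14)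

def r0_11_15 : List (ℕ × ℤ) := [(131, 1)]

theorem h0_11_15 (E : Env κ ι) : ip (F0_11 E) (F0_15 E) = dotS (ek E lk0) r0_11_15 :=
  op_entryZ E lk0 1 1 _ _ _ _ (pg0 κ) (pg0 ι) m0_11 m0_15 l0_15 z0_15 w0_15 x0_15 (by decide) _ (chkS_sound E lk0 1 1 _ _ _ _ t0_11_15)

def r0_11_16 : List (ℕ × ℤ) := [(37, 1)]

theorem h0_11_16 (E : Env κ ι) : ip (F0_11 E) (F0_16 E) = dotS (ek E lk0) r0_11_16 :=
  op_entryZ E lk0 1 1 _ _ _ _ (pg0 κ) (pg0 ι) m0_11 m0_16 l0_16 z0_16 w0_16 x0_16 (by decide) _ (chkS_sound E lk0 1 1 _ _ _ _ t0_11_16)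

def r0_11_17 : List (ℕ × ℤ) := [(142, 1)]

theorem h0_11_17 (E : Env κ ι) : ip (F0_11 E) (F0_17 E) = dotS (ek E lk0) r0_11_17 :=
  op_entryZ E lk0 1 1 _ _ _ _ (pg0 κ) (pg0 ι) m0_11 m0_17 l0_17 z0_17 w0_17 x0_17 (by decide) _ (chkS_sound E lk0 1 1 _ _ _ _ t0_11_17)

def r0_12_12 : List (ℕ × ℤ) := [(143, 1)]

theorem h0_12_12 (E : Env κ ι) : ip (F0_12 E) (F0_12 E) = dotS (ek E lk0) r0_12_12 :=
  op_entryZ E lk0 1 1 _ _ _ _ (pg0 κ) (pg0 ι) m0_12 m0_12 l0_12 z0_12 w0_12 x0_12 (by decide) _ (chkS_sound E lk0 1 1 _ _ _ _ t0_12_12)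

def r0_12_13 : List (ℕ × ℤ) := [(12, 1)]

theorem h0_12_13 (E : Env κ ι) : ip (F0_12 E) (F0_13 E) = dotS (ek E lk0) r0_12_13 :=
  op_entryZ E lk0 1 1 _ _ _ _ (pg0 κ) (pg0 ι) m0_12 m0_13 l0_13 z0_13 w0_13 x0_13 (by decide) _ (chkS_sound E lk0 1 1 _ _ _ _ t0_12_13)

def r0_12_14 : List (ℕ × ℤ) := [(144, 1)]

theorem h0_12_14 (E : Env κ ι) : ip (F0_12 E) (F0_14 E) = dotS (ek E lk0) r0_12_14 :=
  op_entryZ E lk0 1 1 _ _ _ _ (pg0 κ) (pg0 ι) m0_12 m0_14 l0_14 z0_14 w0_14 x0_14 (by decide) _ (chkS_sound E lk0 1 1 _ _ _ _ t0_12_14)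

def r0_12_15 : List (ℕ × ℤ) := [(145, 1)]

theorem h0_12_15 (E : Env κ ι) : ip (F0_12 E) (F0_15 E) = dotS (ek E lk0) r0_12_15 :=
  op_entryZ E lk0 1 1 _ _ _ _ (pg0 κ) (pg0 ι) m0_12 m0_15 l0_15 z0_15 w0_15 x0_15 (by decide) _ (chkS_sound E lk0 1 1 _ _ _ _ t0_12_15)

def r0_12_16 : List (ℕ × ℤ) := [(146, 1)]

theorem h0_12_16 (E : Env κ ι) : ip (F0_12 E) (F0_16 E) = dotS (ek E lk0) r0_12_16 :=
  op_entryZ E lk0 1 1 _ _ _ _ (pg0 κ) (pg0 ι) m0_12 m0_16 l0_16 z0_16 w0_16 x0_16 (by decide) _ (chkS_sound E lk0 1 1 _ _ _ _ t0_12_16)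

def r0_12_17 : List (ℕ × ℤ) := [(147, 1)]

theorem h0_12_17 (E : Env κ ι) : ip (F0_12 E) (F0_17 E) = dotS (ek E lk0) r0_12_17 :=
  op_entryZ E lk0 1 1 _ _ _ _ (pg0 κ) (pg0 ι) m0_12 m0_17 l0_17 z0_17 w0_17 x0_17 (by decide) _ (chkS_sound E lk0 1 1 _ _ _ _ t0_12_17)

def r0_13_13 : List (ℕ × ℤ) := [(10, 1)]

theorem h0_13_13 (E : Env κ ι) : ip (F0_13 E) (F0_13 E) = dotS (ek E lk0) r0_13_13 :=
  op_entryZ E lk0 1 1 _ _ _ _ (pg0 κ) (pg0 ι) m0_13 m0_13 l0_13 z0_13 w0_13 x0_13 (by decide) _ (chkS_sound E lk0 1 1 _ _ _ _ t0_13_13)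

def r0_13_14 : List (ℕ × ℤ) := [(148, 1)]

theorem h0_13_14 (E : Env κ ι) : ip (F0_13 E) (F0_14 E) = dotS (ek E lk0) r0_13_14 :=
  op_entryZ E lk0 1 1 _ _ _ _ (pg0 κ) (pg0 ι) m0_13 m0_14 l0_14 z0_14 w0_14 x0_14 (by decide) _ (chkS_sound E lk0 1 1 _ _ _ _ t0_13_14)

def r0_13_15 : List (ℕ × ℤ) := [(31, 1)]

theorem h0_13_15 (E : Env κ ι) : ip (F0_13 E) (F0_15 E) = dotS (ek E lk0) r0_13_15 :=
  op_entryZ E lk0 1 1 _ _ _ _ (pg0 κ) (pg0 ι) m0_13 m0_15 l0_15 z0_15 w0_15 x0_15 (by decide) _ (chkS_sound E lk0 1 1 _ _ _ _ t0_13_15)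

def r0_13_16 : List (ℕ × ℤ) := [(1, 1)]

theorem h0_13_16 (E : Env κ ι) : ip (F0_13 E) (F0_16 E) = dotS (ek E lk0) r0_13_16 :=
  op_entryZ E lk0 1 1 _ _ _ _ (pg0 κ) (pg0 ι) m0_13 m0_16 l0_16 z0_16 w0_16 x0_16 (by decide) _ (chkS_sound E lk0 1 1 _ _ _ _ t0_13_16)

def r0_13_17 : List (ℕ × ℤ) := [(9, 1)]

theorem h0_13_17 (E : Env κ ι) : ip (F0_13 E) (F0_17 E) = dotS (ek E lk0) r0_13_17 :=
  op_entryZ E lk0 1 1 _ _ _ _ (pg0 κ) (pg0 ι) m0_13 m0_17 l0_17 z0_17 w0_17 x0_17 (by decide) _ (chkS_sound E lk0 1 1 _ _ _ _ t0_13_17)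

def r0_14_14 : List (ℕ × ℤ) := [(149, 1)]

theorem h0_14_14 (E : Env κ ι) : ip (F0_14 E) (F0_14 E) = dotS (ek E lk0) r0_14_14 :=
  op_entryZ E lk0 1 1 _ _ _ _ (pg0 κ) (pg0 ι) m0_14 m0_14 l0_14 z0_14 w0_14 x0_14 (by decide) _ (chkS_sound E lk0 1 1 _ _ _ _ t0_14_14)

def r0_14_15 : List (ℕ × ℤ) := [(150, 1)]

theorem h0_14_15 (E : Env κ ι) : ip (F0_14 E) (F0_15 E) = dotS (ek E lk0) r0_14_15 :=
  op_entryZ E lk0 1 1 _ _ _ _ (pg0 κ) (pg0 ι) m0_14 m0_15 l0_15 z0_15 w0_15 x0_15 (by decide) _ (chkS_sound E lk0 1 1 _ _ _ _ t0_14_15)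

def r0_14_16 : List (ℕ × ℤ) := [(44, 1)]

theorem h0_14_16 (E : Env κ ι) : ip (F0_14 E) (F0_16 E) = dotS (ek E lk0) r0_14_16 :=
  op_entryZ E lk0 1 1 _ _ _ _ (pg0 κ) (pg0 ι) m0_14 m0_16 l0_16 z0_16 w0_16 x0_16 (by decide) _ (chkS_sound E lk0 1 1 _ _ _ _ t0_14_16)

def r0_14_17 : List (ℕ × ℤ) := [(151, 1)]

theorem h0_14_17 (E : Env κ ι) : ip (F0_14 E) (F0_17 E) = dotS (ek E lk0) r0_14_17 :=
  op_entryZ E lk0 1 1 _ _ _ _ (pg0 κ) (pg0 ι) m0_14 m0_17 l0_17 z0_17 w0_17 x0_17 (by decide) _ (chkS_sound E lk0 1 1 _ _ _ _ t0_14_17)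

def r0_15_15 : List (ℕ × ℤ) := [(152, 1)]

theorem h0_15_15 (E : Env κ ι) : ip (F0_15 E) (F0_15 E) = dotS (ek E lk0) r0_15_15 :=
  op_entryZ E lk0 1 1 _ _ _ _ (pg0 κ) (pg0 ι) m0_15 m0_15 l0_15 z0_15 w0_15 x0_15 (by decide) _ (chkS_sound E lk0 1 1 _ _ _ _ t0_15_15)

def r0_15_16 : List (ℕ × ℤ) := [(27, 1)]

theorem h0_15_16 (E : Env κ ι) : ip (F0_15 E) (F0_16 E) = dotS (ek E lk0) r0_15_16 :=
  op_entryZ E lk0 1 1 _ _ _ _ (pg0 κ) (pg0 ι) m0_15 m0_16 l0_16 z0_16 w0_16 x0_16 (by decide) _ (chkS_sound E lk0 1 1 _ _ _ _ t0_15_16)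

def r0_15_17 : List (ℕ × ℤ) := [(153, 1)]

theorem h0_15_17 (E : Env κ ι) : ip (F0_15 E) (F0_17 E) = dotS (ek E lk0) r0_15_17 :=
  op_entryZ E lk0 1 1 _ _ _ _ (pg0 κ) (pg0 ι) m0_15 m0_17 l0_17 z0_17 w0_17 x0_17 (by decide) _ (chkS_sound E lk0 1 1 _ _ _ _ t0_15_17)

def r0_16_16 : List (ℕ × ℤ) := [(0, 1)]

theorem h0_16_16 (E : Env κ ι) : ip (F0_16 E) (F0_16 E) = dotS (ek E lk0) r0_16_16 :=
  op_entryZ E lk0 1 1 _ _ _ _ (pg0 κ) (pg0 ι) m0_16 m0_16 l0_16 z0_16 w0_16 x0_16 (by decide) _ (chkS_sound E lk0 1 1 _ _ _ _ t0_16_16)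

def r0_16_17 : List (ℕ × ℤ) := [(16, 1)]

theorem h0_16_17 (E : Env κ ι) : ip (F0_16 E) (F0_17 E) = dotS (ek E lk0) r0_16_17 :=
  op_entryZ E lk0 1 1 _ _ _ _ (pg0 κ) (pg0 ι) m0_16 m0_17 l0_17 z0_17 w0_17 x0_17 (by decide) _ (chkS_sound E lk0 1 1 _ _ _ _ t0_16_17)

def r0_17_17 : List (ℕ × ℤ) := [(154, 1)]

theorem h0_17_17 (E : Env κ ι) : ip (F0_17 E) (F0_17 E) = dotS (ek E lk0) r0_17_17 :=
  op_entryZ E lk0 1 1 _ _ _ _ (pg0 κ) (pg0 ι) m0_17 m0_17 l0_17 z0_17 w0_17 x0_17 (by decide) _ (chkS_sound E lk0 1 1 _ _ _ _ t0_17_17)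

theorem row0_0 (E : Env κ ι) : RowG (ek E lk0) (F0_0 E) [F0_0 E, F0_1 E, F0_2 E, F0_3 E, F0_4 E, F0_5 E, F0_6 E, F0_7 E, F0_8 E, F0_9 E, F0_10 E, F0_11 E, F0_12 E, F0_13 E, F0_14 E, F0_15 E, F0_16 E, F0_17 E] [r0_0_0, r0_0_1, r0_0_2, r0_0_3, r0_0_4, r0_0_5, r0_0_6, r0_0_7, r0_0_8, r0_0_9, r0_0_10, r0_0_11, r0_0_12, r0_0_13, r0_0_14, r0_0_15, r0_0_16, r0_0_17] :=
  rowG_cons _ _ _ _ _ _ (h0_0_0 E) (rowG_cons _ _ _ _ _ _ (h0_0_1 E) (rowG_cons _ _ _ _ _ _ (h0_0_2 E) (rowG_cons _ _ _ _ _ _ (h0_0_3 E) (rowG_cons _ _ _ _ _ _ (h0_0_4 E) (rowG_cons _ _ _ _ _ _ (h0_0_5 E) (rowG_cons _ _ _ _ _ _ (h0_0_6 E) (rowG_cons _ _ _ _ _ _ (h0_0_7 E) (rowG_cons _ _ _ _ _ _ (h0_0_8 E) (rowG_cons _ _ _ _ _ _ (h0_0_9 E) (rowG_cons _ _ _ _ _ _ (h0_0_10 E) (rowG_cons _ _ _ _ _ _ (h0_0_11 E) (rowG_cons _ _ _ _ _ _ (h0_0_12 E) (rowG_cons _ _ _ _ _ _ (h0_0_13 E)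 (rowG_cons _ _ _ _ _ _ (h0_0_14 E) (rowG_cons _ _ _ _ _ _ (h0_0_15 E) (rowG_cons _ _ _ _ _ _ (h0_0_16 E) (rowG_cons _ _ _ _ _ _ (h0_0_17 E) (rowG_nil _ _))))))))))))))))))

theorem row0_1 (E : Env κ ι) : RowG (ek E lk0) (F0_1 E) [F0_1 E, F0_2 E, F0_3 E, F0_4 E, F0_5 E, F0_6 E, F0_7 E, F0_8 E, F0_9 E, F0_10 E, F0_11 E, F0_12 E, F0_13 E, F0_14 E, F0_15 E, F0_16 E, F0_17 E] [r0_1_1, r0_1_2, r0_1_3, r0_1_4, r0_1_5, r0_1_6, r0_1_7, r0_1_8, r0_1_9, r0_1_10, r0_1_11, r0_1_12, r0_1_13, r0_1_14, r0_1_15, r0_1_16, r0_1_17] :=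
  rowG_cons _ _ _ _ _ _ (h0_1_1 E) (rowG_cons _ _ _ _ _ _ (h0_1_2 E) (rowG_cons _ _ _ _ _ _ (h0_1_3 E) (rowG_cons _ _ _ _ _ _ (h0_1_4 E) (rowG_cons _ _ _ _ _ _ (h0_1_5 E) (rowG_cons _ _ _ _ _ _ (h0_1_6 E) (rowG_cons _ _ _ _ _ _ (h0_1_7 E) (rowG_cons _ _ _ _ _ _ (h0_1_8 E) (rowG_cons _ _ _ _ _ _ (h0_1_9 E) (rowG_cons _ _ _ _ _ _ (h0_1_10 E) (rowG_cons _ _ _ _ _ _ (h0_1_11 E) (rowG_cons _ _ _ _ _ _ (h0_1_12 E) (rowG_cons _ _ _ _ _ _ (h0_1_13 E) (rowG_cons _ _ _ _ _ _ (h0_1_14 E) (rowG_cons _ _ _ _ _ _ (h0_1_15 E) (rowG_cons _ _ _ _ _ _ (h0_1_16 E) (rowG_cons _ _ _ _ _ _ (h0_1_17 E) (rowG_nil _ _)))))))))))))))))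

theorem row0_2 (E : Env κ ι) : RowG (ek E lk0) (F0_2 E) [F0_2 E, F0_3 E, F0_4 E, F0_5 E, F0_6 E, F0_7 E, F0_8 E, F0_9 E, F0_10 E, F0_11 E, F0_12 E, F0_13 E, F0_14 E, F0_15 E, F0_16 E, F0_17 E] [r0_2_2, r0_2_3, r0_2_4, r0_2_5, r0_2_6, r0_2_7, r0_2_8, r0_2_9, r0_2_10, r0_2_11, r0_2_12, r0_2_13, r0_2_14, r0_2_15, r0_2_16, r0_2_17] :=
  rowG_cons _ _ _ _ _ _ (h0_2_2 E) (rowG_cons _ _ _ _ _ _ (h0_2_3 E) (rowG_cons _ _ _ _ _ _ (h0_2_4 E) (rowG_cons _ _ _ _ _ _ (h0_2_5 E) (rowG_cons _ _ _ _ _ _ (h0_2_6 E) (rowG_cons _ _ _ _ _ _ (h0_2_7 E) (rowG_cons _ _ _ _ _ _ (h0_2_8 E) (rowG_cons _ _ _ _ _ _ (h0_2_9 E) (rowG_cons _ _ _ _ _ _ (h0_2_10 E) (rowG_cons _ _ _ _ _ _ (h0_2_11 E) (rowG_cons _ _ _ _ _ _ (h0_2_12 E) (rowG_cons _ _ _ _ _ _ (h0_2_13 E) (rowG_cons _ _ _ _ _ _ (h0_2_14 E) (rowG_cons _ _ _ _ _ _ (h0_2_15 E) (rowG_cons _ _ _ _ _ _ (h0_2_16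 E) (rowG_cons _ _ _ _ _ _ (h0_2_17 E) (rowG_nil _ _))))))))))))))))

theorem row0_3 (E : Env κ ι) : RowG (ek E lk0) (F0_3 E) [F0_3 E, F0_4 E, F0_5 E, F0_6 E, F0_7 E, F0_8 E, F0_9 E, F0_10 E, F0_11 E, F0_12 E, F0_13 E, F0_14 E, F0_15 E, F0_16 E, F0_17 E] [r0_3_3, r0_3_4, r0_3_5, r0_3_6, r0_3_7, r0_3_8, r0_3_9, r0_3_10, r0_3_11, r0_3_12, r0_3_13, r0_3_14, r0_3_15, r0_3_16, r0_3_17] :=
  rowG_cons _ _ _ _ _ _ (h0_3_3 E) (rowG_cons _ _ _ _ _ _ (h0_3_4 E) (rowG_cons _ _ _ _ _ _ (h0_3_5 E) (rowG_cons _ _ _ _ _ _ (h0_3_6 E) (rowG_cons _ _ _ _ _ _ (h0_3_7 E) (rowG_cons _ _ _ _ _ _ (h0_3_8 E) (rowG_cons _ _ _ _ _ _ (h0_3_9 E) (rowG_cons _ _ _ _ _ _ (h0_3_10 E) (rowG_cons _ _ _ _ _ _ (h0_3_11 E) (rowG_cons _ _ _ _ _ _ (h0_3_12 E) (rowG_cons _ _ _ _ _ _ (h0_3_13 E) (rowG_cons _ _ _ _ _ _ (h0_3_14 E) (rowG_cons _ _ _ _ _ _ (h0_3_15 E) (rowG_cons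 _ _ _ _ _ _ (h0_3_16 E) (rowG_cons _ _ _ _ _ _ (h0_3_17 E) (rowG_nil _ _)))))))))))))))

theorem row0_4 (E : Env κ ι) : RowG (ek E lk0) (F0_4 E) [F0_4 E, F0_5 E, F0_6 E, F0_7 E, F0_8 E, F0_9 E, F0_10 E, F0_11 E, F0_12 E, F0_13 E, F0_14 E, F0_15 E, F0_16 E, F0_17 E] [r0_4_4, r0_4_5, r0_4_6, r0_4_7, r0_4_8, r0_4_9, r0_4_10, r0_4_11, r0_4_12, r0_4_13, r0_4_14, r0_4_15, r0_4_16, r0_4_17] :=
  rowG_cons _ _ _ _ _ _ (h0_4_4 E) (rowG_cons _ _ _ _ _ _ (h0_4_5 E) (rowG_cons _ _ _ _ _ _ (h0_4_6 E) (rowG_cons _ _ _ _ _ _ (h0_4_7 E) (rowG_cons _ _ _ _ _ _ (h0_4_8 E) (rowG_cons _ _ _ _ _ _ (h0_4_9 E) (rowG_cons _ _ _ _ _ _ (h0_4_10 E) (rowG_cons _ _ _ _ _ _ (h0_4_11 E) (rowG_cons _ _ _ _ _ _ (h0_4_12 E) (rowG_cons _ _ _ _ _ _ (h0_4_13 E) (rowG_cons _ _ _ _ _ _ (h0_4_14 E) (rowG_cons _ _ _ _ _ _ (h0_4_15 E) (rowG_cons _ _ _ _ _ _ (h0_4_16 E) (rowG_cons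 _ _ _ _ _ _ (h0_4_17 E) (rowG_nil _ _))))))))))))))

theorem row0_5 (E : Env κ ι) : RowG (ek E lk0) (F0_5 E) [F0_5 E, F0_6 E, F0_7 E, F0_8 E, F0_9 E, F0_10 E, F0_11 E, F0_12 E, F0_13 E, F0_14 E, F0_15 E, F0_16 E, F0_17 E] [r0_5_5, r0_5_6, r0_5_7, r0_5_8, r0_5_9, r0_5_10, r0_5_11, r0_5_12, r0_5_13, r0_5_14, r0_5_15, r0_5_16, r0_5_17] :=
  rowG_cons _ _ _ _ _ _ (h0_5_5 E) (rowG_cons _ _ _ _ _ _ (h0_5_6 E) (rowG_cons _ _ _ _ _ _ (h0_5_7 E) (rowG_cons _ _ _ _ _ _ (h0_5_8 E) (rowG_cons _ _ _ _ _ _ (h0_5_9 E) (rowG_cons _ _ _ _ _ _ (h0_5_10 E) (rowG_cons _ _ _ _ _ _ (h0_5_11 E) (rowG_cons _ _ _ _ _ _ (h0_5_12 E) (rowG_cons _ _ _ _ _ _ (h0_5_13 E) (rowG_cons _ _ _ _ _ _ (h0_5_14 E) (rowG_cons _ _ _ _ _ _ (h0_5_15 E) (rowG_cons _ _ _ _ _ _ (h0_5_16 E) (rowG_cons _ _ _ _ _ _ (h0_5_17 E) (rowG_nil _ _)))))))))))))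

theorem row0_6 (E : Env κ ι) : RowG (ek E lk0) (F0_6 E) [F0_6 E, F0_7 E, F0_8 E, F0_9 E, F0_10 E, F0_11 E, F0_12 E, F0_13 E, F0_14 E, F0_15 E, F0_16 E, F0_17 E] [r0_6_6, r0_6_7, r0_6_8, r0_6_9, r0_6_10, r0_6_11, r0_6_12, r0_6_13, r0_6_14, r0_6_15, r0_6_16, r0_6_17] :=
  rowG_cons _ _ _ _ _ _ (h0_6_6 E) (rowG_cons _ _ _ _ _ _ (h0_6_7 E) (rowG_cons _ _ _ _ _ _ (h0_6_8 E) (rowG_cons _ _ _ _ _ _ (h0_6_9 E) (rowG_cons _ _ _ _ _ _ (h0_6_10 E) (rowG_cons _ _ _ _ _ _ (h0_6_11 E) (rowG_cons _ _ _ _ _ _ (h0_6_12 E) (rowG_cons _ _ _ _ _ _ (h0_6_13 E) (rowG_cons _ _ _ _ _ _ (h0_6_14 E) (rowG_cons _ _ _ _ _ _ (h0_6_15 E) (rowG_cons _ _ _ _ _ _ (h0_6_16 E) (rowG_cons _ _ _ _ _ _ (h0_6_17 E) (rowG_nil _ _))))))))))))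

theorem row0_7 (E : Env κ ι) : RowG (ek E lk0) (F0_7 E) [F0_7 E, F0_8 E, F0_9 E, F0_10 E, F0_11 E, F0_12 E, F0_13 E, F0_14 E, F0_15 E, F0_16 E, F0_17 E] [r0_7_7, r0_7_8, r0_7_9, r0_7_10, r0_7_11, r0_7_12, r0_7_13, r0_7_14, r0_7_15, r0_7_16, r0_7_17] :=
  rowG_cons _ _ _ _ _ _ (h0_7_7 E) (rowG_cons _ _ _ _ _ _ (h0_7_8 E) (rowG_cons _ _ _ _ _ _ (h0_7_9 E) (rowG_cons _ _ _ _ _ _ (h0_7_10 E) (rowG_cons _ _ _ _ _ _ (h0_7_11 E) (rowG_cons _ _ _ _ _ _ (h0_7_12 E) (rowG_cons _ _ _ _ _ _ (h0_7_13 E) (rowG_cons _ _ _ _ _ _ (h0_7_14 E) (rowG_cons _ _ _ _ _ _ (h0_7_15 E) (rowG_cons _ _ _ _ _ _ (h0_7_16 E) (rowG_cons _ _ _ _ _ _ (h0_7_17 E) (rowG_nil _ _)))))))))))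

theorem row0_8 (E : Env κ ι) : RowG (ek E lk0) (F0_8 E) [F0_8 E, F0_9 E, F0_10 E, F0_11 E, F0_12 E, F0_13 E, F0_14 E, F0_15 E, F0_16 E, F0_17 E] [r0_8_8, r0_8_9, r0_8_10, r0_8_11, r0_8_12, r0_8_13, r0_8_14, r0_8_15, r0_8_16, r0_8_17] :=
  rowG_cons _ _ _ _ _ _ (h0_8_8 E) (rowG_cons _ _ _ _ _ _ (h0_8_9 E) (rowG_cons _ _ _ _ _ _ (h0_8_10 E) (rowG_cons _ _ _ _ _ _ (h0_8_11 E) (rowG_cons _ _ _ _ _ _ (h0_8_12 E) (rowG_cons _ _ _ _ _ _ (h0_8_13 E) (rowG_cons _ _ _ _ _ _ (h0_8_14 E) (rowG_cons _ _ _ _ _ _ (h0_8_15 E) (rowG_cons _ _ _ _ _ _ (h0_8_16 E) (rowG_cons _ _ _ _ _ _ (h0_8_17 E) (rowG_nil _ _))))))))))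

theorem row0_9 (E : Env κ ι) : RowG (ek E lk0) (F0_9 E) [F0_9 E, F0_10 E, F0_11 E, F0_12 E, F0_13 E, F0_14 E, F0_15 E, F0_16 E, F0_17 E] [r0_9_9, r0_9_10, r0_9_11, r0_9_12, r0_9_13, r0_9_14, r0_9_15, r0_9_16, r0_9_17] :=
  rowG_cons _ _ _ _ _ _ (h0_9_9 E) (rowG_cons _ _ _ _ _ _ (h0_9_10 E) (rowG_cons _ _ _ _ _ _ (h0_9_11 E) (rowG_cons _ _ _ _ _ _ (h0_9_12 E) (rowG_cons _ _ _ _ _ _ (h0_9_13 E) (rowG_cons _ _ _ _ _ _ (h0_9_14 E) (rowG_cons _ _ _ _ _ _ (h0_9_15 E) (rowG_cons _ _ _ _ _ _ (h0_9_16 E) (rowG_cons _ _ _ _ _ _ (h0_9_17 E) (rowG_nil _ _)))))))))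

theorem row0_10 (E : Env κ ι) : RowG (ek E lk0) (F0_10 E) [F0_10 E, F0_11 E, F0_12 E, F0_13 E, F0_14 E, F0_15 E, F0_16 E, F0_17 E] [r0_10_10, r0_10_11, r0_10_12, r0_10_13, r0_10_14, r0_10_15, r0_10_16, r0_10_17] :=
  rowG_cons _ _ _ _ _ _ (h0_10_10 E) (rowG_cons _ _ _ _ _ _ (h0_10_11 E) (rowG_cons _ _ _ _ _ _ (h0_10_12 E) (rowG_cons _ _ _ _ _ _ (h0_10_13 E) (rowG_cons _ _ _ _ _ _ (h0_10_14 E) (rowG_cons _ _ _ _ _ _ (h0_10_15 E) (rowG_cons _ _ _ _ _ _ (h0_10_16 E) (rowG_cons _ _ _ _ _ _ (h0_10_17 E) (rowG_nil _ _))))))))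

theorem row0_11 (E : Env κ ι) : RowG (ek E lk0) (F0_11 E) [F0_11 E, F0_12 E, F0_13 E, F0_14 E, F0_15 E, F0_16 E, F0_17 E] [r0_11_11, r0_11_12, r0_11_13, r0_11_14, r0_11_15, r0_11_16, r0_11_17] :=
  rowG_cons _ _ _ _ _ _ (h0_11_11 E) (rowG_cons _ _ _ _ _ _ (h0_11_12 E) (rowG_cons _ _ _ _ _ _ (h0_11_13 E) (rowG_cons _ _ _ _ _ _ (h0_11_14 E) (rowG_cons _ _ _ _ _ _ (h0_11_15 E) (rowG_cons _ _ _ _ _ _ (h0_11_16 E) (rowG_cons _ _ _ _ _ _ (h0_11_17 E) (rowG_nil _ _)))))))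

theorem row0_12 (E : Env κ ι) : RowG (ek E lk0) (F0_12 E) [F0_12 E, F0_13 E, F0_14 E, F0_15 E, F0_16 E, F0_17 E] [r0_12_12, r0_12_13, r0_12_14, r0_12_15, r0_12_16, r0_12_17] :=
  rowG_cons _ _ _ _ _ _ (h0_12_12 E) (rowG_cons _ _ _ _ _ _ (h0_12_13 E) (rowG_cons _ _ _ _ _ _ (h0_12_14 E) (rowG_cons _ _ _ _ _ _ (h0_12_15 E) (rowG_cons _ _ _ _ _ _ (h0_12_16 E) (rowG_cons _ _ _ _ _ _ (h0_12_17 E) (rowG_nil _ _))))))

theorem row0_13 (E : Env κ ι) : RowG (ek E lk0) (F0_13 E) [F0_13 E, F0_14 E, F0_15 E, F0_16 E, F0_17 E] [r0_13_13, r0_13_14, r0_13_15, r0_13_16, r0_13_17] :=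
  rowG_cons _ _ _ _ _ _ (h0_13_13 E) (rowG_cons _ _ _ _ _ _ (h0_13_14 E) (rowG_cons _ _ _ _ _ _ (h0_13_15 E) (rowG_cons _ _ _ _ _ _ (h0_13_16 E) (rowG_cons _ _ _ _ _ _ (h0_13_17 E) (rowG_nil _ _)))))

theorem row0_14 (E : Env κ ι) : RowG (ek E lk0) (F0_14 E) [F0_14 E, F0_15 E, F0_16 E, F0_17 E] [r0_14_14, r0_14_15, r0_14_16, r0_14_17] :=
  rowG_cons _ _ _ _ _ _ (h0_14_14 E) (rowG_cons _ _ _ _ _ _ (h0_14_15 E) (rowG_cons _ _ _ _ _ _ (h0_14_16 E) (rowG_cons _ _ _ _ _ _ (h0_14_17 E) (rowG_nil _ _))))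

theorem row0_15 (E : Env κ ι) : RowG (ek E lk0) (F0_15 E) [F0_15 E, F0_16 E, F0_17 E] [r0_15_15, r0_15_16, r0_15_17] :=
  rowG_cons _ _ _ _ _ _ (h0_15_15 E) (rowG_cons _ _ _ _ _ _ (h0_15_16 E) (rowG_cons _ _ _ _ _ _ (h0_15_17 E) (rowG_nil _ _)))

theorem row0_16 (E : Env κ ι) : RowG (ek E lk0) (F0_16 E) [F0_16 E, F0_17 E] [r0_16_16, r0_16_17] :=
  rowG_cons _ _ _ _ _ _ (h0_16_16 E) (rowG_cons _ _ _ _ _ _ (h0_16_17 E) (rowG_nil _ _))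

theorem row0_17 (E : Env κ ι) : RowG (ek E lk0) (F0_17 E) [F0_17 E] [r0_17_17] :=
  rowG_cons _ _ _ _ _ _ (h0_17_17 E) (rowG_nil _ _)

def tab0 : List (List (List (ℕ × ℤ))) := [[r0_0_0, r0_0_1, r0_0_2, r0_0_3, r0_0_4, r0_0_5, r0_0_6, r0_0_7, r0_0_8, r0_0_9, r0_0_10, r0_0_11, r0_0_12, r0_0_13, r0_0_14, r0_0_15, r0_0_16, r0_0_17], [r0_1_1, r0_1_2, r0_1_3, r0_1_4, r0_1_5, r0_1_6, r0_1_7, r0_1_8, r0_1_9, r0_1_10, r0_1_11, r0_1_12, r0_1_13, r0_1_14, r0_1_15, r0_1_16, r0_1_17], [r0_2_2, r0_2_3, r0_2_4, r0_2_5, r0_2_6, r0_2_7, r0_2_8, r0_2_9, r0_2_10, r0_2_11, r0_2_12, r0_2_13, r0_2_14, r0_2_15, r0_2_16, r0_2_17], [r0_3_3, r0_3_4, r0_3_5, r0_3_6, r0_3_7, r0_3_8, r0_3_9, r0_3_10, r0_3_11, r0_3_12, r0_3_13, r0_3_14, r0_3_15, r0_3_16, r0_3_17], [r0_4_4, r0_4_5, r0_4_6, r0_4_7, r0_4_8, r0_4_9, r0_4_10, r0_4_11, r0_4_12, r0_4_13, r0_4_14, r0_4_15,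 r0_4_16, r0_4_17], [r0_5_5, r0_5_6, r0_5_7, r0_5_8, r0_5_9, r0_5_10, r0_5_11, r0_5_12, r0_5_13, r0_5_14, r0_5_15, r0_5_16, r0_5_17], [r0_6_6, r0_6_7, r0_6_8, r0_6_9, r0_6_10, r0_6_11, r0_6_12, r0_6_13, r0_6_14, r0_6_15, r0_6_16, r0_6_17], [r0_7_7, r0_7_8, r0_7_9, r0_7_10, r0_7_11, r0_7_12, r0_7_13, r0_7_14, r0_7_15, r0_7_16, r0_7_17], [r0_8_8, r0_8_9, r0_8_10, r0_8_11, r0_8_12, r0_8_13, r0_8_14, r0_8_15, r0_8_16, r0_8_17], [r0_9_9, r0_9_10, r0_9_11, r0_9_12, r0_9_13, r0_9_14, r0_9_15, r0_9_16, r0_9_17], [r0_10_10, r0_10_11, r0_10_12, r0_10_13, r0_10_14, r0_10_15, r0_10_16, r0_10_17], [r0_11_11, r0_11_12, r0_11_13, r0_11_14, r0_11_15, r0_11_16, r0_11_17], [r0_12_12, r0_12_13, r0_12_14, r0_12_15, r0_12_16, r0_12_17], [r0_13_13, r0_13_14, r0_13_15, r0_13_16, r0_13_17], [r0_14_14, r0_14_15, r0_14_16, r0_14_17], [r0_15_15, r0_15_16, r0_15_17],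 [r0_16_16, r0_16_17], [r0_17_17]]

theorem tri0 (E : Env κ ι) : TriG (ek E lk0) [F0_0 E, F0_1 E, F0_2 E, F0_3 E, F0_4 E, F0_5 E, F0_6 E, F0_7 E, F0_8 E, F0_9 E, F0_10 E, F0_11 E, F0_12 E, F0_13 E, F0_14 E, F0_15 E, F0_16 E, F0_17 E] tab0 := by
  refine triG_cons _ _ _ _ _ (row0_0 E) ?_
  refine triG_cons _ _ _ _ _ (row0_1 E) ?_
  refine triG_cons _ _ _ _ _ (row0_2 E) ?_
  refine triG_cons _ _ _ _ _ (row0_3 E) ?_
  refine triG_cons _ _ _ _ _ (row0_4 E) ?_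
  refine triG_cons _ _ _ _ _ (row0_5 E) ?_
  refine triG_cons _ _ _ _ _ (row0_6 E) ?_
  refine triG_cons _ _ _ _ _ (row0_7 E) ?_
  refine triG_cons _ _ _ _ _ (row0_8 E) ?_
  refine triG_cons _ _ _ _ _ (row0_9 E) ?_
  refine triG_cons _ _ _ _ _ (row0_10 E) ?_
  refine triG_cons _ _ _ _ _ (row0_11 E) ?_
  refine triG_cons _ _ _ _ _ (row0_12 E) ?_
  refine triG_cons _ _ _ _ _ (row0_13 E) ?_
  refine triG_cons _ _ _ _ _ (row0_14 E) ?_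
  refine triG_cons _ _ _ _ _ (row0_15 E) ?_
  refine triG_cons _ _ _ _ _ (row0_16 E) ?_
  refine triG_cons _ _ _ _ _ (row0_17 E) ?_
  exact triG_nil _

end

def lk1 : List Key := [
  (1, 3, [(2, [0], [0, 1, 2]), (2, [0], [0, 1, 2])]),
  (1, 3, [(0, [0], [0, 1]), (0, [0], [0, 2]), (4, [], [2]), (4, [], [1])]),
  (1, 4, [(0, [0], [0, 1]), (1, [], [2, 3]), (2, [0], [0, 1, 2]), (4, [], [3])]),
  (1, 5, [(0, [0], [0, 1]), (0, [0], [0, 1]), (1, [], [2, 3]), (1, [], [2, 4]), (4, [], [4]), (4, [], [3])]),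
  (1, 5, [(0, [0], [0, 1]), (0, [0], [0, 2]), (4, [], [2]), (4, [], [1]), (1, [], [3, 4]), (1, [], [3, 4])]),
  (2, 5, [(0, [0], [0, 1]), (0, [0], [0, 1]), (0, [1], [2, 3]), (0, [1], [2, 4]), (4, [], [4]), (4, [], [3])]),
  (2, 5, [(0, [0], [0, 1]), (0, [1], [0, 2]), (0, [1], [3, 4]), (0, [0], [3, 4]), (4, [], [2]), (4, [], [1])]),
  (2, 6, [(0, [0], [0, 1]), (0, [0], [0, 1]), (0, [1], [2, 3]), (1, [], [4, 5]), (2, [1], [2, 3, 4]), (4, [], [5])]),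
  (2, 7, [(0, [0], [0, 1]), (0, [0], [0, 1]), (0, [1], [2, 3]), (0, [1], [2, 3]), (1, [], [4, 5]), (1, [], [4, 6]), (4, [], [6]), (4, [], [5])]),
  (2, 7, [(0, [0], [0, 1]), (0, [1], [0, 2]), (0, [1], [3, 4]), (0, [0], [5, 6]), (1, [], [5, 6]), (1, [], [3, 4]), (4, [], [2]), (4, [], [1])]),
  (2, 7, [(0, [0], [0, 1]), (0, [0], [0, 1]), (0, [1], [2, 3]), (0, [1], [2, 4]), (4, [], [4]), (4, [], [3]), (1, [], [5, 6]), (1, [], [5, 6])]),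
  (3, 7, [(0, [0], [0, 1]), (0, [0], [0, 1]), (0, [1], [2, 3]), (0, [1], [2, 3]), (0, [2], [4, 5]), (0, [2], [4, 6]), (4, [], [6]), (4, [], [5])]),
  (3, 7, [(0, [0], [0, 1]), (0, [0], [0, 1]), (0, [1], [2, 3]), (0, [2], [2, 4]), (0, [2], [5, 6]), (0, [1], [5, 6]), (4, [], [4]), (4, [], [3])]),
  (1, 6, [(0, [0], [0, 1]), (0, [0], [2, 3]), (1, [], [2, 3]), (1, [], [4, 5]), (3, [], [0, 4, 5]), (4, [], [1])]),
  (1, 6, [(0, [0], [0, 1]), (1, [], [2, 3]), (2, [0], [0, 1, 2]), (4, [], [3]), (1, [], [4, 5]), (1, [], [4, 5])]),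
  (1, 7, [(0, [0], [0, 1]), (0, [0], [0, 1]), (1, [], [2, 3]), (1, [], [2, 3]), (1, [], [4, 5]), (1, [], [4, 6]), (4, [], [6]), (4, [], [5])]),
  (1, 7, [(0, [0], [0, 1]), (0, [0], [2, 3]), (1, [], [0, 4]), (1, [], [2, 3]), (4, [], [1]), (4, [], [4]), (1, [], [5, 6]), (1, [], [5, 6])]),
  (2, 7, [(0, [0], [0, 1]), (0, [0], [0, 1]), (0, [1], [2, 3]), (0, [1], [4, 5]), (1, [], [2, 6]), (1, [], [4, 5]), (4, [], [3]), (4, [], [6])]),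
  (1, 7, [(0, [0], [0, 1]), (0, [0], [0, 2]), (4, [], [2]), (4, [], [1]), (1, [], [3, 4]), (1, [], [3, 4]), (1, [], [5, 6]), (1, [], [5, 6])]),
  (2, 7, [(0, [0], [0, 1]), (0, [1], [0, 2]), (0, [1], [3, 4]), (0, [0], [3, 4]), (4, [], [2]), (4, [], [1]), (1, [], [5, 6]), (1, [], [5, 6])]),
  (1, 6, [(0, [0], [0, 1]), (0, [0], [2, 3]), (3, [], [0, 2, 3]), (4, [], [1]), (1, [], [4, 5]), (1, [], [4, 5])]),
  (2, 6, [(0, [0], [0, 1]), (0, [0], [0, 1]), (0, [1], [2, 3]), (0, [1], [4, 5]), (3, [], [2, 4, 5]), (4, [], [3])]),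
  (1, 5, [(0, [0], [0, 1]), (0, [0], [2, 3]), (1, [], [0, 4]), (1, [], [2, 3]), (4, [], [1]), (4, [], [4])]),
  (1, 4, [(0, [0], [0, 1]), (1, [], [2, 3]), (2, [0], [0, 2, 3]), (4, [], [1])]),
  (2, 5, [(0, [0], [0, 1]), (0, [1], [0, 2]), (0, [1], [2, 3]), (0, [0], [1, 4]), (4, [], [4]), (4, [], [3])]),
  (2, 5, [(0, [0], [0, 1]), (0, [1], [0, 2]), (0, [0], [2, 3]), (0, [1], [1, 4]), (4, [], [4]), (4, [], [3])]),
  (1, 3, [(0, [0], [0, 1]), (0, [0], [0, 1]), (4, [], [2]), (4, [], [2])]),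
  (1, 5, [(0, [0], [0, 1]), (0, [0], [0, 1]), (1, [], [2, 3]), (1, [], [2, 3]), (4, [], [4]), (4, [], [4])]),
  (2, 7, [(0, [0], [0, 1]), (0, [0], [2, 3]), (0, [1], [4, 5]), (0, [1], [4, 6]), (1, [], [0, 5]), (1, [], [2, 3]), (4, [], [1]), (4, [], [6])]),
  (2, 6, [(0, [0], [0, 1]), (0, [0], [2, 3]), (0, [1], [0, 4]), (1, [], [4, 5]), (2, [1], [2, 3, 5]), (4, [], [1])]),
  (2, 7, [(0, [0], [0, 1]), (0, [1], [0, 2]), (0, [0], [3, 4]), (0, [1], [5, 6]), (1, [], [1, 3]), (1, [], [5, 6]), (4, [], [2]), (4, [], [4])]),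
  (2, 6, [(0, [0], [0, 1]), (0, [0], [2, 3]), (0, [1], [0, 4]), (1, [], [1, 5]), (2, [1], [2, 3, 5]), (4, [], [4])]),
  (2, 7, [(0, [0], [0, 1]), (0, [0], [2, 3]), (0, [1], [0, 4]), (0, [1], [4, 5]), (1, [], [1, 6]), (1, [], [2, 3]), (4, [], [5]), (4, [], [6])]),
  (2, 7, [(0, [0], [0, 1]), (0, [1], [0, 2]), (0, [1], [2, 3]), (0, [0], [1, 4]), (4, [], [4]), (4, [], [3]), (1, [], [5, 6]), (1, [], [5, 6])]),
  (2, 7, [(0, [0], [0, 1]), (0, [1], [0, 2]), (0, [1], [1, 3]), (0, [0], [4, 5]), (1, [], [2, 6]), (1, [], [4, 5]), (4, [], [3]), (4, [], [6])]),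
  (2, 7, [(0, [0], [0, 1]), (0, [1], [0, 2]), (0, [0], [2, 3]), (0, [1], [1, 4]), (4, [], [4]), (4, [], [3]), (1, [], [5, 6]), (1, [], [5, 6])]),
  (3, 7, [(0, [0], [0, 1]), (0, [1], [0, 2]), (0, [0], [2, 3]), (0, [2], [1, 4]), (0, [1], [5, 6]), (0, [2], [5, 6]), (4, [], [3]), (4, [], [4])]),
  (3, 7, [(0, [0], [0, 1]), (0, [1], [0, 2]), (0, [0], [3, 4]), (0, [1], [3, 4]), (0, [2], [1, 5]), (0, [2], [5, 6]), (4, [], [2]), (4, [], [6])]),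
  (1, 3, [(0, [0], [0, 1]), (2, [0], [0, 1, 2]), (4, [], [2])]),
  (1, 4, [(0, [0], [0, 1]), (0, [0], [0, 2]), (1, [], [1, 3]), (4, [], [2]), (4, [], [3])]),
  (1, 4, [(0, [0], [0, 1]), (0, [0], [0, 1]), (1, [], [2, 3]), (4, [], [2]), (4, [], [3])]),
  (2, 5, [(0, [0], [0, 1]), (0, [0], [0, 2]), (0, [1], [3, 4]), (2, [1], [1, 3, 4]), (4, [], [2])]),
  (2, 5, [(0, [0], [0, 1]), (0, [0], [0, 1]), (0, [1], [2, 3]), (2, [1], [2, 3, 4]), (4, [], [4])]),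
  (2, 6, [(0, [0], [0, 1]), (0, [0], [0, 1]), (0, [1], [2, 3]), (0, [1], [2, 4]), (1, [], [3, 5]), (4, [], [4]), (4, [], [5])]),
  (2, 6, [(0, [0], [0, 1]), (0, [0], [0, 1]), (0, [1], [2, 3]), (0, [1], [2, 3]), (1, [], [4, 5]), (4, [], [4]), (4, [], [5])]),
  (1, 5, [(0, [0], [0, 1]), (0, [0], [0, 2]), (1, [], [3, 4]), (3, [], [1, 3, 4]), (4, [], [2])]),
  (1, 5, [(0, [0], [0, 1]), (1, [], [2, 3]), (1, [], [2, 4]), (2, [0], [0, 1, 3]), (4, [], [4])]),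
  (1, 6, [(0, [0], [0, 1]), (0, [0], [0, 1]), (1, [], [2, 3]), (1, [], [2, 4]), (1, [], [3, 5]), (4, [], [5]), (4, [], [4])]),
  (1, 6, [(0, [0], [0, 1]), (0, [0], [2, 3]), (1, [], [0, 4]), (1, [], [4, 5]), (1, [], [2, 3]), (4, [], [1]), (4, [], [5])]),
  (1, 5, [(0, [0], [0, 1]), (2, [0], [0, 1, 2]), (4, [], [2]), (1, [], [3, 4]), (1, [], [3, 4])]),
  (1, 6, [(0, [0], [0, 1]), (0, [0], [0, 1]), (1, [], [2, 3]), (1, [], [2, 3]), (1, [], [4, 5]), (4, [], [4]), (4, [], [5])]),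
  (1, 6, [(0, [0], [0, 1]), (0, [0], [2, 3]), (1, [], [2, 3]), (4, [], [0]), (4, [], [1]), (1, [], [4, 5]), (1, [], [4, 5])]),
  (1, 6, [(0, [0], [0, 1]), (0, [0], [0, 2]), (1, [], [1, 3]), (4, [], [2]), (4, [], [3]), (1, [], [4, 5]), (1, [], [4, 5])]),
  (2, 6, [(0, [0], [0, 1]), (0, [0], [2, 3]), (0, [1], [0, 4]), (0, [1], [4, 5]), (1, [], [2, 3]), (4, [], [1]), (4, [], [5])]),
  (2, 6, [(0, [0], [0, 1]), (0, [0], [0, 1]), (0, [1], [2, 3]), (0, [1], [4, 5]), (1, [], [4, 5]), (4, [], [2]), (4, [], [3])]),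
  (1, 6, [(0, [0], [0, 1]), (0, [0], [2, 3]), (1, [], [0, 2]), (4, [], [3]), (4, [], [1]), (1, [], [4, 5]), (1, [], [4, 5])]),
  (2, 6, [(0, [0], [0, 1]), (0, [0], [0, 1]), (0, [1], [2, 3]), (0, [1], [4, 5]), (1, [], [2, 4]), (4, [], [5]), (4, [], [3])]),
  (1, 4, [(0, [0], [0, 1]), (0, [0], [2, 3]), (1, [], [2, 3]), (4, [], [0]), (4, [], [1])]),
  (1, 4, [(0, [0], [0, 1]), (0, [0], [2, 3]), (1, [], [0, 2]), (4, [], [3]), (4, [], [1])]),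
  (2, 5, [(0, [0], [0, 1]), (0, [0], [2, 3]), (0, [1], [0, 4]), (2, [1], [1, 2, 3]), (4, [], [4])]),
  (2, 5, [(0, [0], [0, 1]), (0, [0], [2, 3]), (0, [1], [0, 4]), (2, [1], [2, 3, 4]), (4, [], [1])]),
  (2, 6, [(0, [0], [0, 1]), (0, [1], [0, 2]), (0, [1], [1, 3]), (0, [0], [4, 5]), (1, [], [4, 5]), (4, [], [3]), (4, [], [2])]),
  (2, 6, [(0, [0], [0, 1]), (0, [1], [0, 2]), (0, [1], [1, 3]), (0, [0], [4, 5]), (1, [], [2, 4]), (4, [], [3]), (4, [], [5])]),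
  (2, 6, [(0, [0], [0, 1]), (0, [0], [2, 3]), (0, [1], [0, 4]), (0, [1], [4, 5]), (1, [], [2, 5]), (4, [], [1]), (4, [], [3])]),
  (2, 6, [(0, [0], [0, 1]), (0, [1], [2, 3]), (0, [0], [2, 4]), (0, [1], [0, 5]), (1, [], [1, 3]), (4, [], [5]), (4, [], [4])]),
  (2, 6, [(0, [0], [0, 1]), (0, [0], [2, 3]), (0, [1], [2, 4]), (0, [1], [0, 5]), (1, [], [1, 3]), (4, [], [5]), (4, [], [4])]),
  (2, 6, [(0, [0], [0, 1]), (0, [1], [0, 2]), (0, [0], [2, 3]), (0, [1], [1, 4]), (1, [], [3, 5]), (4, [], [4]), (4, [], [5])]),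
  (2, 6, [(0, [0], [0, 1]), (0, [0], [2, 3]), (0, [1], [0, 4]), (0, [1], [4, 5]), (1, [], [1, 2]), (4, [], [3]), (4, [], [5])]),
  (2, 6, [(0, [0], [0, 1]), (0, [0], [2, 3]), (0, [1], [0, 4]), (0, [1], [2, 4]), (1, [], [1, 5]), (4, [], [3]), (4, [], [5])]),
  (2, 5, [(0, [0], [0, 1]), (0, [0], [0, 1]), (0, [1], [2, 3]), (0, [1], [2, 3]), (4, [], [4]), (4, [], [4])]),
  (1, 5, [(0, [0], [0, 1]), (0, [0], [0, 2]), (1, [], [1, 3]), (1, [], [3, 4]), (4, [], [2]), (4, [], [4])]),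
  (2, 5, [(0, [0], [0, 1]), (0, [0], [2, 3]), (0, [1], [2, 4]), (0, [1], [0, 4]), (4, [], [3]), (4, [], [1])]),
  (3, 7, [(0, [0], [0, 1]), (0, [0], [0, 2]), (0, [1], [1, 2]), (4, [], [3]), (0, [2], [4, 5]), (0, [2], [4, 6]), (0, [1], [3, 6]), (4, [], [5])]),
  (3, 7, [(0, [0], [0, 1]), (0, [0], [0, 2]), (0, [1], [1, 2]), (4, [], [3]), (0, [2], [4, 5]), (0, [2], [4, 5]), (0, [1], [3, 6]), (4, [], [6])]),
  (3, 7, [(0, [0], [0, 1]), (0, [0], [0, 2]), (0, [1], [1, 2]), (4, [], [3]), (0, [2], [4, 5]), (0, [2], [3, 6]), (0, [1], [4, 6]), (4, [], [5])]),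
  (3, 7, [(0, [0], [0, 1]), (0, [0], [0, 2]), (0, [1], [1, 2]), (4, [], [3]), (0, [2], [4, 5]), (0, [2], [3, 6]), (0, [1], [4, 5]), (4, [], [6])]),
  (2, 7, [(0, [0], [0, 1]), (0, [0], [0, 2]), (0, [1], [1, 2]), (4, [], [3]), (0, [1], [4, 5]), (1, [], [4, 6]), (1, [], [3, 6]), (4, [], [5])]),
  (2, 6, [(0, [0], [0, 1]), (0, [0], [0, 2]), (0, [1], [1, 2]), (4, [], [3]), (0, [1], [4, 5]), (1, [], [3, 4]), (4, [], [5])]),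
  (2, 7, [(0, [0], [0, 1]), (0, [0], [0, 2]), (0, [1], [1, 2]), (4, [], [3]), (0, [1], [3, 4]), (1, [], [5, 6]), (1, [], [5, 6]), (4, [], [4])]),
  (2, 5, [(0, [0], [0, 1]), (0, [0], [0, 2]), (0, [1], [1, 2]), (4, [], [3]), (0, [1], [3, 4]), (4, [], [4])]),
  (3, 7, [(0, [0], [0, 1]), (0, [0], [0, 2]), (0, [1], [3, 2]), (4, [], [1]), (0, [2], [4, 5]), (0, [2], [4, 6]), (0, [1], [3, 6]), (4, [], [5])]),
  (3, 7, [(0, [0], [0, 1]), (0, [0], [0, 2]), (0, [1], [3, 2]), (4, [], [1]), (0, [2], [4, 5]), (0, [2], [4, 5]), (0, [1], [3, 6]), (4, [], [6])]),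
  (3, 7, [(0, [0], [0, 1]), (0, [0], [0, 2]), (0, [1], [3, 2]), (4, [], [1]), (0, [2], [4, 5]), (0, [2], [3, 6]), (0, [1], [4, 6]), (4, [], [5])]),
  (3, 7, [(0, [0], [0, 1]), (0, [0], [0, 2]), (0, [1], [3, 2]), (4, [], [1]), (0, [2], [4, 5]), (0, [2], [3, 4]), (0, [1], [5, 6]), (4, [], [6])]),
  (2, 7, [(0, [0], [0, 1]), (0, [0], [0, 2]), (0, [1], [3, 2]), (4, [], [1]), (0, [1], [4, 5]), (1, [], [4, 6]), (1, [], [5, 6]), (4, [], [3])]),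
  (2, 7, [(0, [0], [0, 1]), (0, [0], [0, 2]), (0, [1], [3, 2]), (4, [], [1]), (0, [1], [4, 5]), (1, [], [4, 6]), (1, [], [3, 6]), (4, [], [5])]),
  (2, 7, [(0, [0], [0, 1]), (0, [0], [0, 2]), (0, [1], [3, 2]), (4, [], [1]), (0, [1], [4, 5]), (1, [], [4, 6]), (1, [], [3, 5]), (4, [], [6])]),
  (2, 6, [(0, [0], [0, 1]), (0, [0], [0, 2]), (0, [1], [3, 2]), (4, [], [1]), (0, [1], [4, 5]), (3, [], [3, 4, 5])]),
  (2, 7, [(0, [0], [0, 1]), (0, [0], [0, 2]), (0, [1], [3, 2]), (4, [], [1]), (0, [1], [3, 4]), (1, [], [5, 6]), (1, [], [4, 5]), (4, [], [6])]),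
  (2, 6, [(0, [0], [0, 1]), (0, [0], [0, 2]), (0, [1], [3, 2]), (4, [], [1]), (0, [1], [3, 4]), (1, [], [4, 5]), (4, [], [5])]),
  (3, 7, [(0, [0], [0, 1]), (0, [0], [0, 1]), (0, [1], [2, 3]), (4, [], [3]), (0, [2], [4, 5]), (0, [2], [2, 6]), (0, [1], [4, 6]), (4, [], [5])]),
  (3, 7, [(0, [0], [0, 1]), (0, [0], [0, 1]), (0, [1], [2, 3]), (4, [], [3]), (0, [2], [4, 5]), (0, [2], [2, 4]), (0, [1], [5, 6]), (4, [], [6])]),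
  (2, 7, [(0, [0], [0, 1]), (0, [0], [0, 1]), (0, [1], [2, 3]), (4, [], [3]), (0, [1], [4, 5]), (1, [], [4, 6]), (1, [], [5, 6]), (4, [], [2])]),
  (2, 7, [(0, [0], [0, 1]), (0, [0], [0, 1]), (0, [1], [2, 3]), (4, [], [3]), (0, [1], [4, 5]), (1, [], [4, 6]), (1, [], [2, 6]), (4, [], [5])]),
  (2, 7, [(0, [0], [0, 1]), (0, [0], [0, 1]), (0, [1], [2, 3]), (4, [], [3]), (0, [1], [4, 5]), (1, [], [4, 6]), (1, [], [2, 5]), (4, [], [6])]),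
  (2, 7, [(0, [0], [0, 1]), (0, [0], [0, 1]), (0, [1], [2, 3]), (4, [], [3]), (0, [1], [2, 4]), (1, [], [5, 6]), (1, [], [4, 5]), (4, [], [6])]),
  (3, 7, [(0, [0], [0, 1]), (0, [0], [2, 3]), (0, [1], [0, 3]), (4, [], [1]), (0, [2], [4, 5]), (0, [2], [2, 6]), (0, [1], [4, 6]), (4, [], [5])]),
  (3, 7, [(0, [0], [0, 1]), (0, [0], [2, 3]), (0, [1], [0, 3]), (4, [], [1]), (0, [2], [4, 5]), (0, [2], [2, 4]), (0, [1], [5, 6]), (4, [], [6])]),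
  (2, 7, [(0, [0], [0, 1]), (0, [0], [2, 3]), (0, [1], [0, 3]), (4, [], [1]), (0, [1], [4, 5]), (1, [], [4, 6]), (1, [], [5, 6]), (4, [], [2])]),
  (2, 7, [(0, [0], [0, 1]), (0, [0], [2, 3]), (0, [1], [0, 3]), (4, [], [1]), (0, [1], [4, 5]), (1, [], [4, 6]), (1, [], [2, 6]), (4, [], [5])]),
  (2, 7, [(0, [0], [0, 1]), (0, [0], [2, 3]), (0, [1], [0, 3]), (4, [], [1]), (0, [1], [4, 5]), (1, [], [4, 6]), (1, [], [2, 5]), (4, [], [6])]),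
  (2, 6, [(0, [0], [0, 1]), (0, [0], [2, 3]), (0, [1], [0, 3]), (4, [], [1]), (0, [1], [4, 5]), (3, [], [2, 4, 5])]),
  (2, 7, [(0, [0], [0, 1]), (0, [0], [2, 3]), (0, [1], [0, 3]), (4, [], [1]), (0, [1], [2, 4]), (1, [], [5, 6]), (1, [], [4, 5]), (4, [], [6])]),
  (3, 7, [(0, [0], [0, 1]), (0, [0], [2, 3]), (0, [1], [0, 1]), (4, [], [3]), (0, [2], [4, 5]), (0, [2], [2, 6]), (0, [1], [4, 5]), (4, [], [6])]),
  (3, 7, [(0, [0], [0, 1]), (0, [0], [2, 3]), (0, [1], [0, 1]), (4, [], [3]), (0, [2], [4, 5]), (0, [2], [2, 4]), (0, [1], [5, 6]), (4, [], [6])]),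
  (2, 7, [(0, [0], [0, 1]), (0, [0], [2, 3]), (0, [1], [0, 1]), (4, [], [3]), (0, [1], [4, 5]), (1, [], [4, 6]), (1, [], [5, 6]), (4, [], [2])]),
  (2, 7, [(0, [0], [0, 1]), (0, [0], [2, 3]), (0, [1], [0, 1]), (4, [], [3]), (0, [1], [4, 5]), (1, [], [4, 6]), (1, [], [2, 6]), (4, [], [5])]),
  (2, 7, [(0, [0], [0, 1]), (0, [0], [2, 3]), (0, [1], [0, 1]), (4, [], [3]), (0, [1], [4, 5]), (1, [], [4, 6]), (1, [], [2, 5]), (4, [], [6])]),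
  (2, 7, [(0, [0], [0, 1]), (0, [0], [2, 3]), (0, [1], [0, 1]), (4, [], [3]), (0, [1], [4, 5]), (1, [], [4, 5]), (1, [], [2, 6]), (4, [], [6])]),
  (2, 6, [(0, [0], [0, 1]), (0, [0], [2, 3]), (0, [1], [0, 1]), (4, [], [3]), (0, [1], [4, 5]), (1, [], [4, 5]), (4, [], [2])]),
  (2, 6, [(0, [0], [0, 1]), (0, [0], [2, 3]), (0, [1], [0, 1]), (4, [], [3]), (0, [1], [4, 5]), (1, [], [2, 4]), (4, [], [5])]),
  (2, 6, [(0, [0], [0, 1]), (0, [0], [2, 3]), (0, [1], [0, 1]), (4, [], [3]), (0, [1], [4, 5]), (3, [], [2, 4, 5])]),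
  (2, 7, [(0, [0], [0, 1]), (0, [0], [2, 3]), (0, [1], [0, 1]), (4, [], [3]), (0, [1], [2, 4]), (1, [], [5, 6]), (1, [], [4, 5]), (4, [], [6])]),
  (2, 6, [(0, [0], [0, 1]), (0, [0], [2, 3]), (0, [1], [0, 1]), (4, [], [3]), (0, [1], [2, 4]), (1, [], [4, 5]), (4, [], [5])]),
  (3, 7, [(0, [0], [0, 1]), (0, [0], [2, 0]), (0, [1], [1, 3]), (4, [], [3]), (0, [2], [4, 5]), (0, [2], [2, 4]), (0, [1], [5, 6]), (4, [], [6])]),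
  (2, 7, [(0, [0], [0, 1]), (0, [0], [2, 0]), (0, [1], [1, 3]), (4, [], [3]), (0, [1], [4, 5]), (1, [], [4, 6]), (1, [], [2, 6]), (4, [], [5])]),
  (2, 7, [(0, [0], [0, 1]), (0, [0], [2, 0]), (0, [1], [1, 3]), (4, [], [3]), (0, [1], [4, 5]), (1, [], [4, 6]), (1, [], [2, 5]), (4, [], [6])]),
  (2, 7, [(0, [0], [0, 1]), (0, [0], [2, 0]), (0, [1], [1, 3]), (4, [], [3]), (0, [1], [4, 5]), (1, [], [4, 5]), (1, [], [2, 6]), (4, [], [6])]),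
  (2, 6, [(0, [0], [0, 1]), (0, [0], [2, 0]), (0, [1], [1, 3]), (4, [], [3]), (0, [1], [4, 5]), (3, [], [2, 4, 5])]),
  (2, 7, [(0, [0], [0, 1]), (0, [0], [2, 0]), (0, [1], [1, 3]), (4, [], [3]), (0, [1], [2, 4]), (1, [], [5, 6]), (1, [], [5, 6]), (4, [], [4])]),
  (2, 7, [(0, [0], [0, 1]), (0, [0], [2, 0]), (0, [1], [1, 3]), (4, [], [3]), (0, [1], [2, 4]), (1, [], [5, 6]), (1, [], [4, 5]), (4, [], [6])]),
  (1, 7, [(0, [0], [0, 1]), (1, [], [0, 2]), (1, [], [1, 2]), (4, [], [3]), (0, [0], [4, 5]), (1, [], [4, 6]), (1, [], [3, 6]), (4, [], [5])]),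
  (1, 7, [(0, [0], [0, 1]), (1, [], [0, 2]), (1, [], [1, 2]), (4, [], [3]), (0, [0], [4, 5]), (1, [], [4, 6]), (1, [], [3, 5]), (4, [], [6])]),
  (1, 7, [(0, [0], [0, 1]), (1, [], [0, 2]), (1, [], [1, 2]), (4, [], [3]), (0, [0], [4, 5]), (1, [], [4, 5]), (1, [], [3, 6]), (4, [], [6])]),
  (1, 6, [(0, [0], [0, 1]), (1, [], [0, 2]), (1, [], [1, 2]), (4, [], [3]), (0, [0], [4, 5]), (1, [], [4, 5]), (4, [], [3])]),
  (1, 6, [(0, [0], [0, 1]), (1, [], [0, 2]), (1, [], [1, 2]), (4, [], [3]), (0, [0], [4, 5]), (1, [], [3, 4]), (4, [], [5])]),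
  (1, 7, [(0, [0], [0, 1]), (1, [], [0, 2]), (1, [], [1, 2]), (4, [], [3]), (0, [0], [3, 4]), (1, [], [5, 6]), (1, [], [5, 6]), (4, [], [4])]),
  (1, 5, [(0, [0], [0, 1]), (1, [], [0, 2]), (1, [], [1, 2]), (4, [], [3]), (0, [0], [3, 4]), (4, [], [4])]),
  (1, 7, [(0, [0], [0, 1]), (1, [], [0, 2]), (1, [], [3, 2]), (4, [], [1]), (0, [0], [4, 5]), (1, [], [4, 6]), (1, [], [3, 6]), (4, [], [5])]),
  (1, 7, [(0, [0], [0, 1]), (1, [], [0, 2]), (1, [], [3, 2]), (4, [], [1]), (0, [0], [4, 5]), (1, [], [4, 6]), (1, [], [3, 5]), (4, [], [6])]),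
  (1, 7, [(0, [0], [0, 1]), (1, [], [0, 2]), (1, [], [3, 2]), (4, [], [1]), (0, [0], [4, 5]), (1, [], [4, 5]), (1, [], [3, 6]), (4, [], [6])]),
  (1, 6, [(0, [0], [0, 1]), (1, [], [0, 2]), (1, [], [3, 2]), (4, [], [1]), (0, [0], [4, 5]), (1, [], [3, 4]), (4, [], [5])]),
  (1, 7, [(0, [0], [0, 1]), (1, [], [0, 2]), (1, [], [3, 2]), (4, [], [1]), (0, [0], [3, 4]), (1, [], [5, 6]), (1, [], [5, 6]), (4, [], [4])]),
  (1, 7, [(0, [0], [0, 1]), (1, [], [0, 2]), (1, [], [3, 2]), (4, [], [1]), (0, [0], [3, 4]), (1, [], [5, 6]), (1, [], [4, 5]), (4, [], [6])]),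
  (1, 6, [(0, [0], [0, 1]), (1, [], [0, 2]), (1, [], [3, 2]), (4, [], [1]), (0, [0], [3, 4]), (1, [], [4, 5]), (4, [], [5])]),
  (1, 5, [(0, [0], [0, 1]), (1, [], [0, 2]), (1, [], [3, 2]), (4, [], [1]), (0, [0], [3, 4]), (4, [], [4])]),
  (1, 6, [(0, [0], [0, 1]), (1, [], [0, 2]), (1, [], [3, 2]), (4, [], [1]), (1, [], [4, 5]), (2, [0], [3, 4, 5])]),
  (1, 7, [(0, [0], [0, 1]), (1, [], [0, 2]), (1, [], [3, 1]), (4, [], [2]), (0, [0], [4, 5]), (1, [], [4, 6]), (1, [], [3, 5]), (4, [], [6])]),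
  (1, 7, [(0, [0], [0, 1]), (1, [], [0, 2]), (1, [], [3, 1]), (4, [], [2]), (0, [0], [4, 5]), (1, [], [4, 5]), (1, [], [3, 6]), (4, [], [6])]),
  (1, 6, [(0, [0], [0, 1]), (1, [], [0, 2]), (1, [], [3, 1]), (4, [], [2]), (0, [0], [4, 5]), (1, [], [4, 5]), (4, [], [3])]),
  (1, 7, [(0, [0], [0, 1]), (1, [], [0, 2]), (1, [], [3, 1]), (4, [], [2]), (0, [0], [3, 4]), (1, [], [5, 6]), (1, [], [5, 6]), (4, [], [4])]),
  (1, 7, [(0, [0], [0, 1]), (1, [], [0, 2]), (1, [], [3, 1]), (4, [], [2]), (0, [0], [3, 4]), (1, [], [5, 6]), (1, [], [4, 5]), (4, [], [6])]),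
  (1, 6, [(0, [0], [0, 1]), (1, [], [0, 2]), (1, [], [3, 1]), (4, [], [2]), (0, [0], [3, 4]), (1, [], [4, 5]), (4, [], [5])]),
  (1, 5, [(0, [0], [0, 1]), (1, [], [0, 2]), (1, [], [3, 1]), (4, [], [2]), (0, [0], [3, 4]), (4, [], [4])]),
  (1, 6, [(0, [0], [0, 1]), (1, [], [0, 2]), (1, [], [3, 1]), (4, [], [2]), (1, [], [4, 5]), (2, [0], [3, 4, 5])]),
  (1, 7, [(0, [0], [0, 1]), (1, [], [0, 1]), (1, [], [2, 3]), (4, [], [3]), (0, [0], [4, 5]), (1, [], [4, 5]), (1, [], [2, 6]), (4, [], [6])]),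
  (1, 6, [(0, [0], [0, 1]), (1, [], [0, 1]), (1, [], [2, 3]), (4, [], [3]), (0, [0], [4, 5]), (1, [], [4, 5]), (4, [], [2])]),
  (1, 6, [(0, [0], [0, 1]), (1, [], [0, 1]), (1, [], [2, 3]), (4, [], [3]), (1, [], [4, 5]), (2, [0], [2, 4, 5])]),
  (1, 5, [(0, [0], [0, 1]), (1, [], [0, 1]), (4, [], [2]), (0, [0], [3, 4]), (1, [], [3, 4]), (4, [], [2])]),
  (1, 5, [(0, [0], [0, 1]), (1, [], [0, 1]), (4, [], [2]), (1, [], [3, 4]), (2, [0], [2, 3, 4])]),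
  (1, 6, [(0, [0], [0, 1]), (1, [], [2, 0]), (4, [], [1]), (0, [0], [2, 3]), (1, [], [4, 5]), (1, [], [3, 4]), (4, [], [5])]),
  (1, 5, [(0, [0], [0, 1]), (1, [], [2, 0]), (4, [], [1]), (1, [], [3, 4]), (2, [0], [2, 3, 4])]),
  (1, 6, [(0, [0], [0, 1]), (3, [], [2, 0, 1]), (0, [0], [2, 3]), (1, [], [4, 5]), (1, [], [3, 4]), (4, [], [5])]),
  (1, 5, [(0, [0], [0, 1]), (3, [], [2, 0, 1]), (0, [0], [2, 3]), (1, [], [3, 4]), (4, [], [4])]),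
  (1, 4, [(0, [0], [0, 1]), (3, [], [2, 0, 1]), (0, [0], [2, 3]), (4, [], [3])]),
  (1, 7, [(0, [0], [0, 1]), (1, [], [2, 3]), (1, [], [2, 3]), (4, [], [1]), (0, [0], [0, 4]), (1, [], [5, 6]), (1, [], [4, 5]), (4, [], [6])]),
  (1, 7, [(0, [0], [0, 1]), (1, [], [2, 3]), (1, [], [1, 2]), (4, [], [3]), (0, [0], [0, 4]), (1, [], [5, 6]), (1, [], [4, 5]), (4, [], [6])]),
  (1, 6, [(0, [0], [0, 1]), (1, [], [2, 3]), (1, [], [1, 2]), (4, [], [3]), (0, [0], [0, 4]), (1, [], [4, 5]), (4, [], [5])]),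
  (1, 5, [(0, [0], [0, 1]), (1, [], [1, 2]), (4, [], [2]), (0, [0], [0, 3]), (1, [], [3, 4]), (4, [], [4])]),
  (1, 5, [(0, [0], [0, 1]), (1, [], [1, 2]), (4, [], [2]), (1, [], [3, 4]), (2, [0], [0, 3, 4])]),
  (3, 7, [(0, [0], [0, 1]), (0, [0], [0, 1]), (0, [1], [2, 3]), (4, [], [4]), (0, [2], [5, 6]), (0, [2], [5, 6]), (0, [1], [2, 3]), (4, [], [4])]),
  (3, 7, [(0, [0], [0, 1]), (0, [0], [0, 1]), (0, [1], [2, 3]), (4, [], [4]), (0, [2], [5, 6]), (0, [2], [2, 5]), (0, [1], [3, 6]), (4, [], [4])]),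
  (3, 7, [(0, [0], [0, 1]), (0, [0], [0, 1]), (0, [1], [2, 3]), (4, [], [4]), (0, [2], [5, 6]), (0, [2], [2, 3]), (0, [1], [5, 6]), (4, [], [4])]),
  (3, 7, [(0, [0], [0, 1]), (0, [0], [0, 1]), (0, [1], [2, 3]), (4, [], [4]), (0, [2], [2, 5]), (0, [2], [3, 6]), (0, [1], [5, 6]), (4, [], [4])]),
  (2, 7, [(0, [0], [0, 1]), (0, [0], [0, 1]), (0, [1], [2, 3]), (4, [], [4]), (0, [1], [5, 6]), (1, [], [5, 6]), (1, [], [2, 3]), (4, [], [4])]),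
  (2, 7, [(0, [0], [0, 1]), (0, [0], [0, 1]), (0, [1], [2, 3]), (4, [], [4]), (0, [1], [5, 6]), (1, [], [2, 5]), (1, [], [3, 6]), (4, [], [4])]),
  (2, 7, [(0, [0], [0, 1]), (0, [0], [0, 1]), (0, [1], [2, 3]), (4, [], [4]), (0, [1], [2, 5]), (1, [], [5, 6]), (1, [], [3, 6]), (4, [], [4])]),
  (2, 7, [(0, [0], [0, 1]), (0, [0], [0, 1]), (0, [1], [2, 3]), (4, [], [4]), (0, [1], [2, 5]), (1, [], [5, 6]), (1, [], [3, 4]), (4, [], [6])]),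
  (2, 7, [(0, [0], [0, 1]), (0, [0], [0, 1]), (0, [1], [2, 3]), (4, [], [4]), (0, [1], [2, 5]), (1, [], [4, 6]), (1, [], [3, 5]), (4, [], [6])]),
  (2, 6, [(0, [0], [0, 1]), (0, [0], [0, 1]), (0, [1], [2, 3]), (4, [], [4]), (0, [1], [2, 5]), (1, [], [3, 5]), (4, [], [4])]),
  (2, 6, [(0, [0], [0, 1]), (0, [0], [0, 1]), (0, [1], [2, 3]), (4, [], [4]), (0, [1], [2, 5]), (3, [], [3, 4, 5])]),
  (2, 7, [(0, [0], [0, 1]), (0, [0], [0, 1]), (0, [1], [2, 3]), (4, [], [4]), (0, [1], [2, 3]), (1, [], [5, 6]), (1, [], [5, 6]), (4, [], [4])]),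
  (2, 6, [(0, [0], [0, 1]), (0, [0], [0, 1]), (0, [1], [2, 3]), (4, [], [4]), (1, [], [2, 5]), (2, [1], [3, 4, 5])]),
  (3, 7, [(0, [0], [0, 1]), (0, [0], [2, 0]), (0, [1], [3, 1]), (4, [], [4]), (0, [2], [5, 6]), (0, [2], [2, 5]), (0, [1], [3, 6]), (4, [], [4])]),
  (3, 7, [(0, [0], [0, 1]), (0, [0], [2, 0]), (0, [1], [3, 1]), (4, [], [4]), (0, [2], [5, 6]), (0, [2], [3, 5]), (0, [1], [2, 6]), (4, [], [4])]),
  (3, 7, [(0, [0], [0, 1]), (0, [0], [2, 0]), (0, [1], [3, 1]), (4, [], [4]), (0, [2], [5, 6]), (0, [2], [4, 5]), (0, [1], [2, 3]), (4, [], [6])]),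
  (3, 7, [(0, [0], [0, 1]), (0, [0], [2, 0]), (0, [1], [3, 1]), (4, [], [4]), (0, [2], [5, 6]), (0, [2], [2, 3]), (0, [1], [5, 6]), (4, [], [4])]),
  (3, 7, [(0, [0], [0, 1]), (0, [0], [2, 0]), (0, [1], [3, 1]), (4, [], [4]), (0, [2], [5, 6]), (0, [2], [2, 3]), (0, [1], [4, 5]), (4, [], [6])]),
  (3, 7, [(0, [0], [0, 1]), (0, [0], [2, 0]), (0, [1], [3, 1]), (4, [], [4]), (0, [2], [5, 6]), (0, [2], [3, 4]), (0, [1], [2, 5]), (4, [], [6])]),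
  (3, 7, [(0, [0], [0, 1]), (0, [0], [2, 0]), (0, [1], [3, 1]), (4, [], [4]), (0, [2], [2, 5]), (0, [2], [3, 6]), (0, [1], [5, 6]), (4, [], [4])]),
  (3, 7, [(0, [0], [0, 1]), (0, [0], [2, 0]), (0, [1], [3, 1]), (4, [], [4]), (0, [2], [3, 5]), (0, [2], [2, 6]), (0, [1], [4, 6]), (4, [], [5])]),
  (3, 7, [(0, [0], [0, 1]), (0, [0], [2, 0]), (0, [1], [3, 1]), (4, [], [4]), (0, [2], [4, 5]), (0, [2], [2, 6]), (0, [1], [3, 6]), (4, [], [5])]),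
  (3, 7, [(0, [0], [0, 1]), (0, [0], [2, 0]), (0, [1], [3, 1]), (4, [], [4]), (0, [2], [4, 5]), (0, [2], [3, 6]), (0, [1], [2, 6]), (4, [], [5])]),
  (2, 7, [(0, [0], [0, 1]), (0, [0], [2, 0]), (0, [1], [3, 1]), (4, [], [4]), (0, [1], [5, 6]), (1, [], [5, 6]), (1, [], [2, 3]), (4, [], [4])]),
  (2, 7, [(0, [0], [0, 1]), (0, [0], [2, 0]), (0, [1], [3, 1]), (4, [], [4]), (0, [1], [5, 6]), (1, [], [2, 5]), (1, [], [3, 6]), (4, [], [4])]),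
  (2, 7, [(0, [0], [0, 1]), (0, [0], [2, 0]), (0, [1], [3, 1]), (4, [], [4]), (0, [1], [5, 6]), (1, [], [2, 5]), (1, [], [3, 4]), (4, [], [6])]),
  (2, 7, [(0, [0], [0, 1]), (0, [0], [2, 0]), (0, [1], [3, 1]), (4, [], [4]), (0, [1], [5, 6]), (1, [], [3, 5]), (1, [], [2, 4]), (4, [], [6])]),
  (2, 7, [(0, [0], [0, 1]), (0, [0], [2, 0]), (0, [1], [3, 1]), (4, [], [4]), (0, [1], [5, 6]), (1, [], [4, 5]), (1, [], [2, 3]), (4, [], [6])]),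
  (2, 7, [(0, [0], [0, 1]), (0, [0], [2, 0]), (0, [1], [3, 1]), (4, [], [4]), (0, [1], [2, 5]), (1, [], [5, 6]), (1, [], [3, 6]), (4, [], [4])]),
  (2, 7, [(0, [0], [0, 1]), (0, [0], [2, 0]), (0, [1], [3, 1]), (4, [], [4]), (0, [1], [3, 5]), (1, [], [5, 6]), (1, [], [2, 6]), (4, [], [4])]),
  (2, 7, [(0, [0], [0, 1]), (0, [0], [2, 0]), (0, [1], [3, 1]), (4, [], [4]), (0, [1], [2, 5]), (1, [], [5, 6]), (1, [], [3, 4]), (4, [], [6])]),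
  (2, 7, [(0, [0], [0, 1]), (0, [0], [2, 0]), (0, [1], [3, 1]), (4, [], [4]), (0, [1], [3, 5]), (1, [], [5, 6]), (1, [], [2, 4]), (4, [], [6])]),
  (2, 7, [(0, [0], [0, 1]), (0, [0], [2, 0]), (0, [1], [3, 1]), (4, [], [4]), (0, [1], [4, 5]), (1, [], [2, 6]), (1, [], [3, 6]), (4, [], [5])]),
  (2, 7, [(0, [0], [0, 1]), (0, [0], [2, 0]), (0, [1], [3, 1]), (4, [], [4]), (0, [1], [2, 5]), (1, [], [4, 6]), (1, [], [3, 5]), (4, [], [6])]),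
  (2, 7, [(0, [0], [0, 1]), (0, [0], [2, 0]), (0, [1], [3, 1]), (4, [], [4]), (0, [1], [3, 5]), (1, [], [4, 6]), (1, [], [2, 5]), (4, [], [6])]),
  (2, 6, [(0, [0], [0, 1]), (0, [0], [2, 0]), (0, [1], [3, 1]), (4, [], [4]), (0, [1], [2, 5]), (1, [], [3, 5]), (4, [], [4])]),
  (2, 6, [(0, [0], [0, 1]), (0, [0], [2, 0]), (0, [1], [3, 1]), (4, [], [4]), (0, [1], [3, 5]), (1, [], [2, 5]), (4, [], [4])]),
  (2, 6, [(0, [0], [0, 1]), (0, [0], [2, 0]), (0, [1], [3, 1]), (4, [], [4]), (0, [1], [4, 5]), (1, [], [2, 3]), (4, [], [5])]),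
  (2, 6, [(0, [0], [0, 1]), (0, [0], [2, 0]), (0, [1], [3, 1]), (4, [], [4]), (0, [1], [2, 5]), (3, [], [3, 4, 5])]),
  (2, 6, [(0, [0], [0, 1]), (0, [0], [2, 0]), (0, [1], [3, 1]), (4, [], [4]), (0, [1], [3, 5]), (3, [], [2, 4, 5])]),
  (2, 6, [(0, [0], [0, 1]), (0, [0], [2, 0]), (0, [1], [3, 1]), (4, [], [4]), (0, [1], [4, 5]), (3, [], [2, 3, 5])]),
  (2, 7, [(0, [0], [0, 1]), (0, [0], [2, 0]), (0, [1], [3, 1]), (4, [], [4]), (0, [1], [2, 3]), (1, [], [5, 6]), (1, [], [5, 6]), (4, [], [4])]),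
  (2, 7, [(0, [0], [0, 1]), (0, [0], [2, 0]), (0, [1], [3, 1]), (4, [], [4]), (0, [1], [2, 3]), (1, [], [5, 6]), (1, [], [4, 5]), (4, [], [6])]),
  (2, 6, [(0, [0], [0, 1]), (0, [0], [2, 0]), (0, [1], [3, 1]), (4, [], [4]), (0, [1], [2, 3]), (1, [], [4, 5]), (4, [], [5])]),
  (2, 5, [(0, [0], [0, 1]), (0, [0], [2, 0]), (0, [1], [3, 1]), (4, [], [4]), (0, [1], [2, 3]), (4, [], [4])]),
  (2, 6, [(0, [0], [0, 1]), (0, [0], [2, 0]), (0, [1], [3, 1]), (4, [], [4]), (1, [], [2, 5]), (2, [1], [3, 4, 5])]),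
  (2, 6, [(0, [0], [0, 1]), (0, [0], [2, 0]), (0, [1], [3, 1]), (4, [], [4]), (1, [], [3, 5]), (2, [1], [2, 4, 5])]),
  (2, 6, [(0, [0], [0, 1]), (0, [0], [2, 0]), (0, [1], [3, 1]), (4, [], [4]), (1, [], [4, 5]), (2, [1], [2, 3, 5])]),
  (2, 5, [(0, [0], [0, 1]), (0, [0], [2, 0]), (0, [1], [3, 1]), (4, [], [4]), (2, [1], [2, 3, 4])]),
  (3, 7, [(0, [0], [0, 1]), (0, [0], [2, 0]), (0, [1], [3, 4]), (4, [], [1]), (0, [2], [5, 6]), (0, [2], [3, 4]), (0, [1], [5, 6]), (4, [], [2])]),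
  (3, 7, [(0, [0], [0, 1]), (0, [0], [2, 0]), (0, [1], [3, 4]), (4, [], [1]), (0, [2], [3, 5]), (0, [2], [4, 6]), (0, [1], [5, 6]), (4, [], [2])]),
  (2, 7, [(0, [0], [0, 1]), (0, [0], [2, 0]), (0, [1], [3, 4]), (4, [], [1]), (0, [1], [5, 6]), (1, [], [5, 6]), (1, [], [3, 4]), (4, [], [2])]),
  (2, 7, [(0, [0], [0, 1]), (0, [0], [2, 0]), (0, [1], [3, 4]), (4, [], [1]), (0, [1], [5, 6]), (1, [], [2, 5]), (1, [], [3, 6]), (4, [], [4])]),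
  (2, 7, [(0, [0], [0, 1]), (0, [0], [2, 0]), (0, [1], [3, 4]), (4, [], [1]), (0, [1], [5, 6]), (1, [], [3, 5]), (1, [], [4, 6]), (4, [], [2])]),
  (2, 7, [(0, [0], [0, 1]), (0, [0], [2, 0]), (0, [1], [3, 4]), (4, [], [1]), (0, [1], [3, 5]), (1, [], [5, 6]), (1, [], [2, 6]), (4, [], [4])]),
  (2, 7, [(0, [0], [0, 1]), (0, [0], [2, 0]), (0, [1], [3, 4]), (4, [], [1]), (0, [1], [3, 5]), (1, [], [5, 6]), (1, [], [4, 6]), (4, [], [2])]),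
  (2, 7, [(0, [0], [0, 1]), (0, [0], [2, 0]), (0, [1], [3, 4]), (4, [], [1]), (0, [1], [3, 5]), (1, [], [5, 6]), (1, [], [2, 4]), (4, [], [6])]),
  (2, 7, [(0, [0], [0, 1]), (0, [0], [2, 0]), (0, [1], [3, 4]), (4, [], [1]), (0, [1], [3, 5]), (1, [], [2, 6]), (1, [], [4, 5]), (4, [], [6])]),
  (2, 6, [(0, [0], [0, 1]), (0, [0], [2, 0]), (0, [1], [3, 4]), (4, [], [1]), (0, [1], [3, 5]), (1, [], [2, 5]), (4, [], [4])]),
  (2, 6, [(0, [0], [0, 1]), (0, [0], [2, 0]), (0, [1], [3, 4]), (4, [], [1]), (0, [1], [3, 5]), (1, [], [4, 5]), (4, [], [2])]),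
  (2, 6, [(0, [0], [0, 1]), (0, [0], [2, 0]), (0, [1], [3, 4]), (4, [], [1]), (0, [1], [3, 5]), (3, [], [2, 4, 5])]),
  (2, 6, [(0, [0], [0, 1]), (0, [0], [2, 0]), (0, [1], [3, 4]), (4, [], [1]), (1, [], [2, 5]), (2, [1], [3, 4, 5])]),
  (2, 6, [(0, [0], [0, 1]), (0, [0], [2, 0]), (0, [1], [3, 4]), (4, [], [1]), (1, [], [3, 5]), (2, [1], [2, 4, 5])]),
  (3, 7, [(0, [0], [0, 1]), (0, [0], [2, 3]), (0, [1], [0, 1]), (4, [], [4]), (0, [2], [5, 6]), (0, [2], [2, 3]), (0, [1], [5, 6]), (4, [], [4])]),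
  (3, 7, [(0, [0], [0, 1]), (0, [0], [2, 3]), (0, [1], [0, 1]), (4, [], [4]), (0, [2], [5, 6]), (0, [2], [2, 4]), (0, [1], [3, 5]), (4, [], [6])]),
  (3, 7, [(0, [0], [0, 1]), (0, [0], [2, 3]), (0, [1], [0, 1]), (4, [], [4]), (0, [2], [2, 5]), (0, [2], [3, 6]), (0, [1], [5, 6]), (4, [], [4])]),
  (3, 7, [(0, [0], [0, 1]), (0, [0], [2, 3]), (0, [1], [0, 1]), (4, [], [4]), (0, [2], [4, 5]), (0, [2], [2, 6]), (0, [1], [3, 6]), (4, [], [5])]),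
  (2, 7, [(0, [0], [0, 1]), (0, [0], [2, 3]), (0, [1], [0, 1]), (4, [], [4]), (0, [1], [5, 6]), (1, [], [5, 6]), (1, [], [2, 3]), (4, [], [4])]),
  (2, 7, [(0, [0], [0, 1]), (0, [0], [2, 3]), (0, [1], [0, 1]), (4, [], [4]), (0, [1], [5, 6]), (1, [], [2, 5]), (1, [], [3, 6]), (4, [], [4])]),
  (2, 7, [(0, [0], [0, 1]), (0, [0], [2, 3]), (0, [1], [0, 1]), (4, [], [4]), (0, [1], [2, 5]), (1, [], [5, 6]), (1, [], [3, 6]), (4, [], [4])]),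
  (2, 7, [(0, [0], [0, 1]), (0, [0], [2, 3]), (0, [1], [0, 1]), (4, [], [4]), (0, [1], [2, 5]), (1, [], [5, 6]), (1, [], [3, 4]), (4, [], [6])]),
  (2, 7, [(0, [0], [0, 1]), (0, [0], [2, 3]), (0, [1], [0, 1]), (4, [], [4]), (0, [1], [2, 5]), (1, [], [4, 6]), (1, [], [3, 5]), (4, [], [6])]),
  (2, 6, [(0, [0], [0, 1]), (0, [0], [2, 3]), (0, [1], [0, 1]), (4, [], [4]), (0, [1], [2, 5]), (1, [], [3, 5]), (4, [], [4])]),
  (2, 6, [(0, [0], [0, 1]), (0, [0], [2, 3]), (0, [1], [0, 1]), (4, [], [4]), (0, [1], [2, 5]), (3, [], [3, 4, 5])]),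
  (2, 7, [(0, [0], [0, 1]), (0, [0], [2, 3]), (0, [1], [0, 1]), (4, [], [4]), (0, [1], [2, 3]), (1, [], [5, 6]), (1, [], [5, 6]), (4, [], [4])]),
  (2, 7, [(0, [0], [0, 1]), (0, [0], [2, 3]), (0, [1], [0, 1]), (4, [], [4]), (0, [1], [2, 3]), (1, [], [5, 6]), (1, [], [4, 5]), (4, [], [6])]),
  (2, 6, [(0, [0], [0, 1]), (0, [0], [2, 3]), (0, [1], [0, 1]), (4, [], [4]), (0, [1], [2, 3]), (1, [], [4, 5]), (4, [], [5])]),
  (2, 5, [(0, [0], [0, 1]), (0, [0], [2, 3]), (0, [1], [0, 1]), (4, [], [4]), (0, [1], [2, 3]), (4, [], [4])]),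
  (2, 6, [(0, [0], [0, 1]), (0, [0], [2, 3]), (0, [1], [0, 1]), (4, [], [4]), (1, [], [2, 5]), (2, [1], [3, 4, 5])]),
  (2, 6, [(0, [0], [0, 1]), (0, [0], [2, 3]), (0, [1], [0, 1]), (4, [], [4]), (1, [], [4, 5]), (2, [1], [2, 3, 5])]),
  (2, 5, [(0, [0], [0, 1]), (0, [0], [2, 3]), (0, [1], [0, 1]), (4, [], [4]), (2, [1], [2, 3, 4])]),
  (3, 7, [(0, [0], [0, 1]), (0, [0], [2, 3]), (0, [1], [4, 0]), (4, [], [1]), (0, [2], [5, 6]), (0, [2], [2, 4]), (0, [1], [3, 5]), (4, [], [6])]),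
  (3, 7, [(0, [0], [0, 1]), (0, [0], [2, 3]), (0, [1], [4, 0]), (4, [], [1]), (0, [2], [2, 5]), (0, [2], [3, 6]), (0, [1], [5, 6]), (4, [], [4])]),
  (3, 7, [(0, [0], [0, 1]), (0, [0], [2, 3]), (0, [1], [4, 0]), (4, [], [1]), (0, [2], [2, 5]), (0, [2], [4, 6]), (0, [1], [5, 6]), (4, [], [3])]),
  (3, 7, [(0, [0], [0, 1]), (0, [0], [2, 3]), (0, [1], [4, 0]), (4, [], [1]), (0, [2], [2, 5]), (0, [2], [4, 6]), (0, [1], [3, 6]), (4, [], [5])]),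
  (3, 7, [(0, [0], [0, 1]), (0, [0], [2, 3]), (0, [1], [4, 0]), (4, [], [1]), (0, [2], [4, 5]), (0, [2], [2, 6]), (0, [1], [3, 6]), (4, [], [5])]),
  (2, 7, [(0, [0], [0, 1]), (0, [0], [2, 3]), (0, [1], [4, 0]), (4, [], [1]), (0, [1], [5, 6]), (1, [], [5, 6]), (1, [], [2, 4]), (4, [], [3])]),
  (2, 7, [(0, [0], [0, 1]), (0, [0], [2, 3]), (0, [1], [4, 0]), (4, [], [1]), (0, [1], [5, 6]), (1, [], [2, 5]), (1, [], [3, 6]), (4, [], [4])]),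
  (2, 7, [(0, [0], [0, 1]), (0, [0], [2, 3]), (0, [1], [4, 0]), (4, [], [1]), (0, [1], [5, 6]), (1, [], [2, 5]), (1, [], [4, 6]), (4, [], [3])]),
  (2, 7, [(0, [0], [0, 1]), (0, [0], [2, 3]), (0, [1], [4, 0]), (4, [], [1]), (0, [1], [5, 6]), (1, [], [2, 5]), (1, [], [3, 4]), (4, [], [6])]),
  (2, 7, [(0, [0], [0, 1]), (0, [0], [2, 3]), (0, [1], [4, 0]), (4, [], [1]), (0, [1], [2, 5]), (1, [], [5, 6]), (1, [], [3, 6]), (4, [], [4])]),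
  (2, 7, [(0, [0], [0, 1]), (0, [0], [2, 3]), (0, [1], [4, 0]), (4, [], [1]), (0, [1], [2, 5]), (1, [], [5, 6]), (1, [], [4, 6]), (4, [], [3])]),
  (2, 7, [(0, [0], [0, 1]), (0, [0], [2, 3]), (0, [1], [4, 0]), (4, [], [1]), (0, [1], [2, 5]), (1, [], [5, 6]), (1, [], [3, 4]), (4, [], [6])]),
  (2, 7, [(0, [0], [0, 1]), (0, [0], [2, 3]), (0, [1], [4, 0]), (4, [], [1]), (0, [1], [2, 5]), (1, [], [3, 6]), (1, [], [4, 6]), (4, [], [5])]),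
  (2, 7, [(0, [0], [0, 1]), (0, [0], [2, 3]), (0, [1], [4, 0]), (4, [], [1]), (0, [1], [2, 5]), (1, [], [3, 6]), (1, [], [4, 5]), (4, [], [6])]),
  (2, 7, [(0, [0], [0, 1]), (0, [0], [2, 3]), (0, [1], [4, 0]), (4, [], [1]), (0, [1], [2, 5]), (1, [], [4, 6]), (1, [], [3, 5]), (4, [], [6])]),
  (2, 6, [(0, [0], [0, 1]), (0, [0], [2, 3]), (0, [1], [4, 0]), (4, [], [1]), (0, [1], [2, 5]), (1, [], [3, 5]), (4, [], [4])]),
  (2, 6, [(0, [0], [0, 1]), (0, [0], [2, 3]), (0, [1], [4, 0]), (4, [], [1]), (0, [1], [2, 5]), (3, [], [3, 4, 5])]),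
  (2, 6, [(0, [0], [0, 1]), (0, [0], [2, 3]), (0, [1], [4, 0]), (4, [], [1]), (1, [], [2, 5]), (2, [1], [3, 4, 5])]),
  (3, 7, [(0, [0], [0, 1]), (0, [0], [2, 3]), (0, [1], [1, 3]), (4, [], [4]), (0, [2], [0, 5]), (0, [2], [2, 6]), (0, [1], [5, 6]), (4, [], [4])]),
  (3, 7, [(0, [0], [0, 1]), (0, [0], [2, 3]), (0, [1], [1, 3]), (4, [], [4]), (0, [2], [4, 5]), (0, [2], [0, 6]), (0, [1], [2, 6]), (4, [], [5])]),
  (2, 7, [(0, [0], [0, 1]), (0, [0], [2, 3]), (0, [1], [1, 3]), (4, [], [4]), (0, [1], [5, 6]), (1, [], [5, 6]), (1, [], [0, 2]), (4, [], [4])]),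
  (2, 7, [(0, [0], [0, 1]), (0, [0], [2, 3]), (0, [1], [1, 3]), (4, [], [4]), (0, [1], [5, 6]), (1, [], [0, 5]), (1, [], [2, 6]), (4, [], [4])]),
  (2, 7, [(0, [0], [0, 1]), (0, [0], [2, 3]), (0, [1], [1, 3]), (4, [], [4]), (0, [1], [5, 6]), (1, [], [0, 5]), (1, [], [2, 4]), (4, [], [6])]),
  (2, 7, [(0, [0], [0, 1]), (0, [0], [2, 3]), (0, [1], [1, 3]), (4, [], [4]), (0, [1], [5, 6]), (1, [], [4, 5]), (1, [], [0, 2]), (4, [], [6])]),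
  (2, 7, [(0, [0], [0, 1]), (0, [0], [2, 3]), (0, [1], [1, 3]), (4, [], [4]), (0, [1], [0, 5]), (1, [], [5, 6]), (1, [], [2, 6]), (4, [], [4])]),
  (2, 7, [(0, [0], [0, 1]), (0, [0], [2, 3]), (0, [1], [1, 3]), (4, [], [4]), (0, [1], [0, 5]), (1, [], [5, 6]), (1, [], [2, 4]), (4, [], [6])]),
  (2, 7, [(0, [0], [0, 1]), (0, [0], [2, 3]), (0, [1], [1, 3]), (4, [], [4]), (0, [1], [4, 5]), (1, [], [0, 6]), (1, [], [2, 6]), (4, [], [5])]),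
  (2, 7, [(0, [0], [0, 1]), (0, [0], [2, 3]), (0, [1], [1, 3]), (4, [], [4]), (0, [1], [0, 5]), (1, [], [4, 6]), (1, [], [2, 5]), (4, [], [6])]),
  (2, 6, [(0, [0], [0, 1]), (0, [0], [2, 3]), (0, [1], [1, 3]), (4, [], [4]), (0, [1], [0, 5]), (1, [], [2, 5]), (4, [], [4])]),
  (2, 6, [(0, [0], [0, 1]), (0, [0], [2, 3]), (0, [1], [1, 3]), (4, [], [4]), (0, [1], [4, 5]), (1, [], [0, 2]), (4, [], [5])]),
  (2, 6, [(0, [0], [0, 1]), (0, [0], [2, 3]), (0, [1], [1, 3]), (4, [], [4]), (0, [1], [0, 5]), (3, [], [2, 4, 5])]),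
  (2, 6, [(0, [0], [0, 1]), (0, [0], [2, 3]), (0, [1], [1, 3]), (4, [], [4]), (0, [1], [4, 5]), (3, [], [0, 2, 5])]),
  (2, 7, [(0, [0], [0, 1]), (0, [0], [2, 3]), (0, [1], [1, 3]), (4, [], [4]), (0, [1], [0, 2]), (1, [], [5, 6]), (1, [], [5, 6]), (4, [], [4])]),
  (2, 7, [(0, [0], [0, 1]), (0, [0], [2, 3]), (0, [1], [1, 3]), (4, [], [4]), (0, [1], [0, 2]), (1, [], [5, 6]), (1, [], [4, 5]), (4, [], [6])]),
  (2, 6, [(0, [0], [0, 1]), (0, [0], [2, 3]), (0, [1], [1, 3]), (4, [], [4]), (0, [1], [0, 2]), (1, [], [4, 5]), (4, [], [5])]),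
  (2, 5, [(0, [0], [0, 1]), (0, [0], [2, 3]), (0, [1], [1, 3]), (4, [], [4]), (0, [1], [0, 2]), (4, [], [4])]),
  (2, 6, [(0, [0], [0, 1]), (0, [0], [2, 3]), (0, [1], [1, 3]), (4, [], [4]), (1, [], [0, 5]), (2, [1], [2, 4, 5])]),
  (2, 6, [(0, [0], [0, 1]), (0, [0], [2, 3]), (0, [1], [1, 3]), (4, [], [4]), (1, [], [4, 5]), (2, [1], [0, 2, 5])]),
  (2, 5, [(0, [0], [0, 1]), (0, [0], [2, 3]), (0, [1], [1, 3]), (4, [], [4]), (2, [1], [0, 2, 4])]),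
  (2, 7, [(0, [0], [0, 1]), (0, [0], [2, 3]), (0, [1], [4, 3]), (4, [], [1]), (0, [1], [5, 6]), (1, [], [5, 6]), (1, [], [2, 4]), (4, [], [0])]),
  (2, 7, [(0, [0], [0, 1]), (0, [0], [2, 3]), (0, [1], [4, 3]), (4, [], [1]), (0, [1], [5, 6]), (1, [], [2, 5]), (1, [], [4, 6]), (4, [], [0])]),
  (2, 7, [(0, [0], [0, 1]), (0, [0], [2, 3]), (0, [1], [4, 3]), (4, [], [1]), (0, [1], [5, 6]), (1, [], [0, 5]), (1, [], [2, 4]), (4, [], [6])]),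
  (2, 7, [(0, [0], [0, 1]), (0, [0], [2, 3]), (0, [1], [4, 3]), (4, [], [1]), (0, [1], [5, 6]), (1, [], [2, 5]), (1, [], [0, 4]), (4, [], [6])]),
  (2, 7, [(0, [0], [0, 1]), (0, [0], [2, 3]), (0, [1], [4, 3]), (4, [], [1]), (0, [1], [5, 6]), (1, [], [4, 5]), (1, [], [0, 2]), (4, [], [6])]),
  (2, 6, [(0, [0], [0, 1]), (0, [0], [2, 3]), (0, [1], [4, 3]), (4, [], [1]), (1, [], [0, 5]), (2, [1], [2, 4, 5])]),
  (2, 6, [(0, [0], [0, 1]), (0, [0], [2, 3]), (0, [1], [4, 3]), (4, [], [1]), (1, [], [2, 5]), (2, [1], [0, 4, 5])]),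
  (2, 6, [(0, [0], [0, 1]), (0, [0], [2, 3]), (0, [1], [4, 3]), (4, [], [1]), (1, [], [4, 5]), (2, [1], [0, 2, 5])]),
  (2, 5, [(0, [0], [0, 1]), (0, [0], [2, 3]), (0, [1], [4, 3]), (4, [], [1]), (2, [1], [0, 2, 4])]),
  (2, 7, [(0, [0], [0, 1]), (0, [0], [2, 1]), (0, [1], [3, 4]), (4, [], [4]), (0, [1], [5, 6]), (1, [], [5, 6]), (1, [], [0, 2]), (4, [], [3])]),
  (2, 7, [(0, [0], [0, 1]), (0, [0], [2, 1]), (0, [1], [3, 4]), (4, [], [4]), (0, [1], [5, 6]), (1, [], [0, 5]), (1, [], [2, 6]), (4, [], [3])]),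
  (2, 7, [(0, [0], [0, 1]), (0, [0], [2, 1]), (0, [1], [3, 4]), (4, [], [4]), (0, [1], [5, 6]), (1, [], [0, 5]), (1, [], [2, 3]), (4, [], [6])]),
  (2, 7, [(0, [0], [0, 1]), (0, [0], [2, 1]), (0, [1], [3, 4]), (4, [], [4]), (0, [1], [5, 6]), (1, [], [3, 5]), (1, [], [0, 2]), (4, [], [6])]),
  (2, 6, [(0, [0], [0, 1]), (0, [0], [2, 1]), (0, [1], [3, 4]), (4, [], [4]), (1, [], [0, 5]), (2, [1], [2, 3, 5])]),
  (2, 6, [(0, [0], [0, 1]), (0, [0], [2, 1]), (0, [1], [3, 4]), (4, [], [4]), (1, [], [3, 5]), (2, [1], [0, 2, 5])]),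
  (2, 5, [(0, [0], [0, 1]), (0, [0], [2, 1]), (0, [1], [3, 4]), (4, [], [4]), (2, [1], [0, 2, 3])]),
  (2, 6, [(0, [0], [0, 1]), (0, [0], [2, 3]), (0, [1], [1, 4]), (4, [], [4]), (1, [], [2, 5]), (2, [1], [0, 3, 5])]),
  (1, 7, [(0, [0], [0, 1]), (1, [], [0, 1]), (1, [], [2, 3]), (4, [], [4]), (0, [0], [5, 6]), (1, [], [5, 6]), (1, [], [2, 3]), (4, [], [4])]),
  (1, 7, [(0, [0], [0, 1]), (1, [], [0, 1]), (1, [], [2, 3]), (4, [], [4]), (0, [0], [5, 6]), (1, [], [2, 5]), (1, [], [3, 6]), (4, [], [4])]),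
  (1, 7, [(0, [0], [0, 1]), (1, [], [0, 1]), (1, [], [2, 3]), (4, [], [4]), (0, [0], [4, 5]), (1, [], [2, 6]), (1, [], [3, 6]), (4, [], [5])]),
  (1, 6, [(0, [0], [0, 1]), (1, [], [0, 1]), (1, [], [2, 3]), (4, [], [4]), (0, [0], [2, 5]), (3, [], [3, 4, 5])]),
  (1, 6, [(0, [0], [0, 1]), (1, [], [0, 1]), (1, [], [2, 3]), (4, [], [4]), (1, [], [2, 5]), (2, [0], [3, 4, 5])]),
  (1, 7, [(0, [0], [0, 1]), (1, [], [2, 0]), (1, [], [3, 1]), (4, [], [4]), (0, [0], [5, 6]), (1, [], [2, 5]), (1, [], [3, 6]), (4, [], [4])]),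
  (1, 7, [(0, [0], [0, 1]), (1, [], [2, 0]), (1, [], [3, 1]), (4, [], [4]), (0, [0], [5, 6]), (1, [], [4, 5]), (1, [], [2, 3]), (4, [], [6])]),
  (1, 7, [(0, [0], [0, 1]), (1, [], [2, 0]), (1, [], [3, 1]), (4, [], [4]), (0, [0], [2, 5]), (1, [], [5, 6]), (1, [], [3, 6]), (4, [], [4])]),
  (1, 7, [(0, [0], [0, 1]), (1, [], [2, 0]), (1, [], [3, 1]), (4, [], [4]), (0, [0], [2, 5]), (1, [], [3, 6]), (1, [], [4, 6]), (4, [], [5])]),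
  (1, 7, [(0, [0], [0, 1]), (1, [], [2, 0]), (1, [], [3, 1]), (4, [], [4]), (0, [0], [4, 5]), (1, [], [2, 6]), (1, [], [3, 6]), (4, [], [5])]),
  (1, 7, [(0, [0], [0, 1]), (1, [], [2, 0]), (1, [], [3, 1]), (4, [], [4]), (0, [0], [2, 5]), (1, [], [4, 6]), (1, [], [3, 5]), (4, [], [6])]),
  (1, 6, [(0, [0], [0, 1]), (1, [], [2, 0]), (1, [], [3, 1]), (4, [], [4]), (0, [0], [2, 5]), (1, [], [3, 5]), (4, [], [4])]),
  (1, 6, [(0, [0], [0, 1]), (1, [], [2, 0]), (1, [], [3, 1]), (4, [], [4]), (0, [0], [4, 5]), (1, [], [2, 3]), (4, [], [5])]),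
  (1, 6, [(0, [0], [0, 1]), (1, [], [2, 0]), (1, [], [3, 1]), (4, [], [4]), (0, [0], [2, 5]), (3, [], [3, 4, 5])]),
  (1, 6, [(0, [0], [0, 1]), (1, [], [2, 0]), (1, [], [3, 1]), (4, [], [4]), (0, [0], [4, 5]), (3, [], [2, 3, 5])]),
  (1, 7, [(0, [0], [0, 1]), (1, [], [2, 0]), (1, [], [3, 1]), (4, [], [4]), (0, [0], [2, 3]), (1, [], [5, 6]), (1, [], [5, 6]), (4, [], [4])]),
  (1, 7, [(0, [0], [0, 1]), (1, [], [2, 0]), (1, [], [3, 1]), (4, [], [4]), (0, [0], [2, 3]), (1, [], [5, 6]), (1, [], [4, 5]), (4, [], [6])]),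
  (1, 6, [(0, [0], [0, 1]), (1, [], [2, 0]), (1, [], [3, 1]), (4, [], [4]), (0, [0], [2, 3]), (1, [], [4, 5]), (4, [], [5])]),
  (1, 5, [(0, [0], [0, 1]), (1, [], [2, 0]), (1, [], [3, 1]), (4, [], [4]), (0, [0], [2, 3]), (4, [], [4])]),
  (1, 6, [(0, [0], [0, 1]), (1, [], [2, 0]), (1, [], [3, 1]), (4, [], [4]), (1, [], [2, 5]), (2, [0], [3, 4, 5])]),
  (1, 6, [(0, [0], [0, 1]), (1, [], [2, 0]), (1, [], [3, 1]), (4, [], [4]), (1, [], [4, 5]), (2, [0], [2, 3, 5])]),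
  (1, 5, [(0, [0], [0, 1]), (1, [], [2, 0]), (1, [], [3, 1]), (4, [], [4]), (2, [0], [2, 3, 4])]),
  (1, 7, [(0, [0], [0, 1]), (1, [], [2, 0]), (1, [], [3, 4]), (4, [], [1]), (0, [0], [2, 5]), (1, [], [3, 6]), (1, [], [4, 6]), (4, [], [5])]),
  (1, 6, [(0, [0], [0, 1]), (1, [], [2, 0]), (1, [], [3, 4]), (4, [], [1]), (0, [0], [2, 5]), (3, [], [3, 4, 5])]),
  (1, 6, [(0, [0], [0, 1]), (1, [], [2, 0]), (1, [], [3, 4]), (4, [], [1]), (0, [0], [3, 5]), (3, [], [2, 4, 5])]),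
  (1, 6, [(0, [0], [0, 1]), (1, [], [2, 0]), (1, [], [3, 4]), (4, [], [1]), (1, [], [3, 5]), (2, [0], [2, 4, 5])]),
  (1, 7, [(0, [0], [0, 1]), (1, [], [1, 2]), (1, [], [3, 2]), (4, [], [4]), (0, [0], [0, 5]), (1, [], [5, 6]), (1, [], [3, 6]), (4, [], [4])]),
  (1, 7, [(0, [0], [0, 1]), (1, [], [1, 2]), (1, [], [3, 2]), (4, [], [4]), (0, [0], [0, 5]), (1, [], [5, 6]), (1, [], [3, 4]), (4, [], [6])]),
  (1, 7, [(0, [0], [0, 1]), (1, [], [1, 2]), (1, [], [3, 2]), (4, [], [4]), (0, [0], [0, 5]), (1, [], [3, 6]), (1, [], [4, 6]), (4, [], [5])]),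
  (1, 7, [(0, [0], [0, 1]), (1, [], [1, 2]), (1, [], [3, 2]), (4, [], [4]), (0, [0], [0, 5]), (1, [], [4, 6]), (1, [], [3, 5]), (4, [], [6])]),
  (1, 6, [(0, [0], [0, 1]), (1, [], [1, 2]), (1, [], [3, 2]), (4, [], [4]), (0, [0], [0, 5]), (1, [], [3, 5]), (4, [], [4])]),
  (1, 6, [(0, [0], [0, 1]), (1, [], [1, 2]), (1, [], [3, 2]), (4, [], [4]), (0, [0], [0, 5]), (1, [], [3, 4]), (4, [], [5])]),
  (1, 6, [(0, [0], [0, 1]), (1, [], [1, 2]), (1, [], [3, 2]), (4, [], [4]), (0, [0], [0, 5]), (3, [], [3, 4, 5])]),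
  (1, 6, [(0, [0], [0, 1]), (1, [], [1, 2]), (1, [], [3, 2]), (4, [], [4]), (0, [0], [3, 5]), (3, [], [0, 4, 5])]),
  (1, 6, [(0, [0], [0, 1]), (1, [], [1, 2]), (1, [], [3, 2]), (4, [], [4]), (0, [0], [4, 5]), (3, [], [0, 3, 5])]),
  (1, 7, [(0, [0], [0, 1]), (1, [], [1, 2]), (1, [], [3, 2]), (4, [], [4]), (0, [0], [0, 3]), (1, [], [5, 6]), (1, [], [5, 6]), (4, [], [4])]),
  (1, 7, [(0, [0], [0, 1]), (1, [], [1, 2]), (1, [], [3, 2]), (4, [], [4]), (0, [0], [0, 3]), (1, [], [5, 6]), (1, [], [4, 5]), (4, [], [6])]),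
  (1, 6, [(0, [0], [0, 1]), (1, [], [1, 2]), (1, [], [3, 2]), (4, [], [4]), (0, [0], [0, 3]), (1, [], [4, 5]), (4, [], [5])]),
  (1, 5, [(0, [0], [0, 1]), (1, [], [1, 2]), (1, [], [3, 2]), (4, [], [4]), (0, [0], [0, 3]), (4, [], [4])]),
  (1, 6, [(0, [0], [0, 1]), (1, [], [1, 2]), (1, [], [3, 2]), (4, [], [4]), (1, [], [3, 5]), (2, [0], [0, 4, 5])]),
  (1, 6, [(0, [0], [0, 1]), (1, [], [1, 2]), (1, [], [3, 2]), (4, [], [4]), (1, [], [4, 5]), (2, [0], [0, 3, 5])]),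
  (1, 5, [(0, [0], [0, 1]), (1, [], [1, 2]), (1, [], [3, 2]), (4, [], [4]), (2, [0], [0, 3, 4])]),
  (1, 7, [(0, [0], [0, 1]), (1, [], [1, 2]), (1, [], [3, 4]), (4, [], [2]), (0, [0], [0, 5]), (1, [], [5, 6]), (1, [], [3, 4]), (4, [], [6])]),
  (1, 7, [(0, [0], [0, 1]), (1, [], [1, 2]), (1, [], [3, 4]), (4, [], [2]), (0, [0], [0, 5]), (1, [], [3, 6]), (1, [], [4, 6]), (4, [], [5])]),
  (1, 6, [(0, [0], [0, 1]), (1, [], [1, 2]), (1, [], [3, 4]), (4, [], [2]), (0, [0], [0, 5]), (3, [], [3, 4, 5])]),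
  (1, 6, [(0, [0], [0, 1]), (1, [], [1, 2]), (1, [], [3, 4]), (4, [], [2]), (0, [0], [3, 5]), (3, [], [0, 4, 5])]),
  (1, 6, [(0, [0], [0, 1]), (1, [], [1, 2]), (1, [], [3, 4]), (4, [], [2]), (1, [], [3, 5]), (2, [0], [0, 4, 5])]),
  (1, 7, [(0, [0], [0, 1]), (1, [], [2, 3]), (1, [], [4, 3]), (4, [], [1]), (0, [0], [0, 5]), (1, [], [2, 6]), (1, [], [4, 6]), (4, [], [5])]),
  (1, 6, [(0, [0], [0, 1]), (1, [], [2, 3]), (1, [], [4, 3]), (4, [], [1]), (0, [0], [0, 5]), (1, [], [2, 4]), (4, [], [5])]),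
  (1, 6, [(0, [0], [0, 1]), (1, [], [2, 3]), (1, [], [4, 3]), (4, [], [1]), (0, [0], [0, 5]), (3, [], [2, 4, 5])]),
  (1, 6, [(0, [0], [0, 1]), (1, [], [2, 3]), (1, [], [4, 3]), (4, [], [1]), (1, [], [2, 5]), (2, [0], [0, 4, 5])]),
  (1, 5, [(0, [0], [0, 1]), (1, [], [2, 3]), (1, [], [4, 3]), (4, [], [1]), (2, [0], [0, 2, 4])]),
  (1, 6, [(0, [0], [0, 1]), (1, [], [2, 3]), (1, [], [4, 1]), (4, [], [3]), (0, [0], [0, 5]), (3, [], [2, 4, 5])]),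
  (1, 6, [(0, [0], [0, 1]), (1, [], [2, 3]), (1, [], [4, 1]), (4, [], [3]), (0, [0], [4, 5]), (3, [], [0, 2, 5])]),
  (1, 7, [(0, [0], [0, 1]), (1, [], [2, 3]), (1, [], [4, 1]), (4, [], [3]), (0, [0], [0, 4]), (1, [], [5, 6]), (1, [], [5, 6]), (4, [], [2])]),
  (1, 7, [(0, [0], [0, 1]), (1, [], [2, 3]), (1, [], [4, 1]), (4, [], [3]), (0, [0], [0, 4]), (1, [], [5, 6]), (1, [], [2, 5]), (4, [], [6])]),
  (1, 6, [(0, [0], [0, 1]), (1, [], [2, 3]), (1, [], [4, 1]), (4, [], [3]), (0, [0], [0, 4]), (1, [], [2, 5]), (4, [], [5])]),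
  (1, 5, [(0, [0], [0, 1]), (1, [], [2, 3]), (1, [], [4, 1]), (4, [], [3]), (0, [0], [0, 4]), (4, [], [2])]),
  (1, 6, [(0, [0], [0, 1]), (1, [], [2, 3]), (1, [], [4, 1]), (4, [], [3]), (1, [], [2, 5]), (2, [0], [0, 4, 5])]),
  (1, 5, [(0, [0], [0, 1]), (1, [], [2, 3]), (1, [], [4, 1]), (4, [], [3]), (2, [0], [0, 2, 4])]),
  (1, 5, [(0, [0], [0, 1]), (1, [], [2, 1]), (4, [], [3]), (0, [0], [0, 4]), (3, [], [2, 3, 4])]),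
  (1, 5, [(0, [0], [0, 1]), (1, [], [2, 1]), (4, [], [3]), (0, [0], [2, 4]), (3, [], [0, 3, 4])]),
  (1, 5, [(0, [0], [0, 1]), (1, [], [2, 1]), (4, [], [3]), (0, [0], [3, 4]), (3, [], [0, 2, 4])]),
  (1, 6, [(0, [0], [0, 1]), (1, [], [2, 1]), (4, [], [3]), (0, [0], [0, 2]), (1, [], [4, 5]), (1, [], [4, 5]), (4, [], [3])]),
  (1, 4, [(0, [0], [0, 1]), (1, [], [2, 1]), (4, [], [3]), (0, [0], [0, 2]), (4, [], [3])]),
  (1, 4, [(0, [0], [0, 1]), (1, [], [2, 1]), (4, [], [3]), (2, [0], [0, 2, 3])]),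
  (1, 5, [(0, [0], [0, 1]), (3, [], [2, 3, 1]), (0, [0], [0, 4]), (3, [], [2, 3, 4])]),
  (1, 5, [(0, [0], [0, 1]), (3, [], [2, 3, 1]), (0, [0], [2, 4]), (3, [], [0, 3, 4])]),
  (1, 6, [(0, [0], [0, 1]), (3, [], [2, 3, 1]), (0, [0], [0, 2]), (1, [], [4, 5]), (1, [], [4, 5]), (4, [], [3])]),
  (1, 6, [(0, [0], [0, 1]), (3, [], [2, 3, 1]), (0, [0], [0, 2]), (1, [], [4, 5]), (1, [], [3, 4]), (4, [], [5])]),
  (1, 5, [(0, [0], [0, 1]), (3, [], [2, 3, 1]), (0, [0], [0, 2]), (1, [], [3, 4]), (4, [], [4])]),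
  (1, 4, [(0, [0], [0, 1]), (3, [], [2, 3, 1]), (0, [0], [0, 2]), (4, [], [3])]),
  (1, 5, [(0, [0], [0, 1]), (3, [], [2, 3, 1]), (1, [], [0, 4]), (2, [0], [2, 3, 4])]),
  (1, 5, [(0, [0], [0, 1]), (3, [], [2, 3, 1]), (1, [], [2, 4]), (2, [0], [0, 3, 4])]),
  (1, 4, [(0, [0], [0, 1]), (3, [], [2, 3, 1]), (2, [0], [0, 2, 3])]),
  (1, 7, [(0, [0], [0, 1]), (1, [], [2, 3]), (1, [], [2, 3]), (4, [], [4]), (0, [0], [0, 1]), (1, [], [5, 6]), (1, [], [5, 6]), (4, [], [4])]),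
  (1, 6, [(0, [0], [0, 1]), (1, [], [2, 3]), (1, [], [2, 3]), (4, [], [4]), (1, [], [0, 5]), (2, [0], [1, 4, 5])]),
  (1, 7, [(0, [0], [0, 1]), (1, [], [2, 3]), (1, [], [4, 2]), (4, [], [3]), (0, [0], [0, 1]), (1, [], [5, 6]), (1, [], [4, 5]), (4, [], [6])]),
  (1, 6, [(0, [0], [0, 1]), (1, [], [2, 3]), (1, [], [4, 2]), (4, [], [3]), (1, [], [4, 5]), (2, [0], [0, 1, 5])]),
  (1, 5, [(1, [], [0, 1]), (2, [0], [2, 3, 1]), (1, [], [0, 4]), (2, [0], [2, 3, 4])]),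
  (1, 5, [(1, [], [0, 1]), (2, [0], [2, 3, 1]), (1, [], [2, 4]), (2, [0], [0, 3, 4])]),
  (1, 4, [(1, [], [0, 1]), (2, [0], [2, 3, 1]), (2, [0], [0, 2, 3])])]

def kl1 : List ℕ := [0, 1, 2, 3, 4, 5, 6, 8, 9, 10, 12, 13, 14, 17, 18, 19, 20, 22, 25, 26, 27, 29, 31, 32, 33, 34, 35, 36, 42, 44, 45, 46, 50, 51, 55, 56, 57, 58, 59, 60, 61, 62, 63, 64, 65, 66, 68, 69, 70, 71, 72, 73, 74, 75, 76, 77, 78, 79, 80, 81, 82, 83, 84, 85, 86, 87, 88, 89, 90, 91, 92, 93, 95, 96, 97, 98, 100, 104, 106, 107, 109, 110, 111, 112, 113, 114, 115, 116, 117, 118, 119, 120, 121, 122, 123, 124, 125, 126, 127, 128, 129, 130, 131, 132, 133, 134, 135, 136, 137, 138, 139, 140, 141, 142, 144, 145, 146, 147, 148, 149, 150, 153, 154, 155, 156, 157, 159, 160, 162, 163, 164, 165, 167, 168, 169, 170, 171, 172, 173, 174, 176, 177, 178, 179, 180, 181, 182, 184, 185, 187,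 189, 190, 192, 193, 194, 196, 197, 198, 200, 201, 203, 204, 205, 206, 207, 208, 209, 210, 211, 212, 213, 214, 215, 216, 217, 218, 219, 220, 221, 222, 223, 224, 225, 226, 227, 228, 229, 230, 231, 232, 233, 234, 235, 236, 237, 238, 239, 240, 241, 242, 243, 244, 245, 246, 247, 248, 249, 250, 251, 252, 253, 254, 255, 256, 257, 258, 259, 260, 261, 262, 263, 264, 265, 266, 267, 268, 269, 270, 271, 272, 273, 274, 275, 276, 277, 278, 279, 280, 281, 282, 283, 284, 285, 286, 287, 288, 289, 290, 291, 292, 293, 294, 295, 296, 297, 298, 299, 300, 301, 302, 303, 304, 305, 306, 307, 308, 309, 310, 311, 312, 313, 314, 315, 316, 317, 318, 319, 320, 321, 322, 323, 324, 325, 326, 327, 328, 329, 330, 331, 332, 333, 334, 335, 336, 337, 338, 339, 340, 341, 342, 343, 344, 345, 346, 347, 348, 349, 350, 351, 352, 353, 354, 355, 356, 357, 358, 359, 360, 361, 362,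 363, 364, 365, 366, 367, 368, 369, 370, 371, 372, 373, 374, 375, 376, 377, 378, 379, 380, 381, 382, 383, 384, 385, 386, 387, 388, 389, 390, 391, 392, 393, 394, 395, 396, 397, 398, 399, 400, 401, 402, 403, 404, 405, 406, 407, 408, 409, 410, 411, 412, 413, 414, 415, 416, 417, 418, 419, 420, 421]

def m1_0 : Base := (1, 2, [(0, [1], [3, 4]), (0, [1], [3, 4]), (0, [0], [0, 1]), (4, [], [2])])

def l1_0 : Cov := [(12, 1, 2, [(0, [1], [3, 4]), (0, [1], [3, 4]), (0, [0], [0, 1]), (4, [], [2])]),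
  (12, 1, 2, [(0, [1], [3, 4]), (0, [1], [3, 4]), (0, [0], [0, 2]), (4, [], [1])]),
  (12, 1, 2, [(0, [1], [3, 4]), (0, [1], [3, 4]), (0, [0], [1, 2]), (4, [], [0])])]

def z1_0 : Cov := []

def w1_0 : List (List Wit) := [[(0, 0, 0, 16, 16), (1, 0, 0, 16, 16), (0, 0, 0, 16, 16), (2, 0, 0, 16, 16), (1, 0, 0, 16, 16), (2, 0, 0, 16, 16)]]

def m1_1 : Base := (1, 2, [(0, [1], [3, 4]), (0, [1], [0, 3]), (0, [0], [1, 4]), (4, [], [2])])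

def l1_1 : Cov := [(6, 1, 2, [(0, [1], [3, 4]), (0, [1], [0, 3]), (0, [0], [1, 4]), (4, [], [2])]),
  (6, 1, 2, [(0, [1], [3, 4]), (0, [1], [0, 3]), (0, [0], [2, 4]), (4, [], [1])]),
  (6, 1, 2, [(0, [1], [3, 4]), (0, [1], [1, 3]), (0, [0], [0, 4]), (4, [], [2])]),
  (6, 1, 2, [(0, [1], [3, 4]), (0, [1], [1, 3]), (0, [0], [2, 4]), (4, [], [0])]),
  (6, 1, 2, [(0, [1], [3, 4]), (0, [1], [2, 3]), (0, [0], [0, 4]), (4, [], [1])]),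
  (6, 1, 2, [(0, [1], [3, 4]), (0, [1], [2, 3]), (0, [0], [1, 4]), (4, [], [0])])]

def z1_1 : Cov := []

def w1_1 : List (List Wit) := [[(0, 0, 0, 16, 16), (1, 0, 0, 16, 16), (2, 0, 0, 16, 16), (3, 0, 0, 16, 16), (4, 0, 0, 16, 16), (5, 0, 0, 16, 16)]]

def m1_2 : Base := (1, 2, [(0, [1], [3, 4]), (0, [1], [0, 3]), (0, [0], [1, 2]), (4, [], [4])])

def l1_2 : Cov := [(12, 1, 2, [(0, [1], [3, 4]), (0, [1], [0, 3]), (0, [0], [1, 2]), (4, [], [4])]),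
  (12, 1, 2, [(0, [1], [3, 4]), (0, [1], [1, 3]), (0, [0], [0, 2]), (4, [], [4])]),
  (12, 1, 2, [(0, [1], [3, 4]), (0, [1], [2, 3]), (0, [0], [0, 1]), (4, [], [4])])]

def z1_2 : Cov := []

def w1_2 : List (List Wit) := [[(0, 0, 0, 16, 16), (0, 0, 0, 16, 16), (1, 0, 0, 16, 16), (1, 0, 0, 16, 16), (2, 0, 0, 16, 16), (2, 0, 0, 16, 16)]]

def m1_3 : Base := (1, 2, [(0, [1], [3, 4]), (0, [1], [0, 1]), (0, [0], [3, 4]), (4, [], [2])])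

def l1_3 : Cov := [(12, 1, 2, [(0, [1], [3, 4]), (0, [1], [0, 1]), (0, [0], [3, 4]), (4, [], [2])]),
  (12, 1, 2, [(0, [1], [3, 4]), (0, [1], [0, 2]), (0, [0], [3, 4]), (4, [], [1])]),
  (12, 1, 2, [(0, [1], [3, 4]), (0, [1], [1, 2]), (0, [0], [3, 4]), (4, [], [0])])]

def z1_3 : Cov := []

def w1_3 : List (List Wit) := [[(0, 0, 0, 16, 16), (1, 0, 0, 16, 16), (0, 0, 0, 16, 16), (2, 0, 0, 16, 16), (1, 0, 0, 16, 16), (2, 0, 0, 16, 16)]]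

def m1_4 : Base := (1, 2, [(0, [1], [3, 4]), (0, [1], [0, 1]), (0, [0], [2, 3]), (4, [], [4])])

def l1_4 : Cov := [(12, 1, 2, [(0, [1], [3, 4]), (0, [1], [0, 1]), (0, [0], [2, 3]), (4, [], [4])]),
  (12, 1, 2, [(0, [1], [3, 4]), (0, [1], [0, 2]), (0, [0], [1, 3]), (4, [], [4])]),
  (12, 1, 2, [(0, [1], [3, 4]), (0, [1], [1, 2]), (0, [0], [0, 3]), (4, [], [4])])]

def z1_4 : Cov := []

def w1_4 : List (List Wit) := [[(0, 0, 0, 16, 16), (1, 0, 0, 16, 16), (0, 0, 0, 16, 16), (2, 0, 0, 16, 16), (1, 0, 0, 16, 16), (2, 0, 0, 16, 16)]]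

def m1_5 : Base := (1, 2, [(0, [1], [0, 3]), (0, [1], [1, 4]), (0, [0], [3, 4]), (4, [], [2])])

def l1_5 : Cov := [(12, 1, 2, [(0, [1], [0, 3]), (0, [1], [1, 4]), (0, [0], [3, 4]), (4, [], [2])]),
  (12, 1, 2, [(0, [1], [0, 3]), (0, [1], [2, 4]), (0, [0], [3, 4]), (4, [], [1])]),
  (12, 1, 2, [(0, [1], [1, 3]), (0, [1], [2, 4]), (0, [0], [3, 4]), (4, [], [0])])]

def z1_5 : Cov := []

def w1_5 : List (List Wit) := [[(0, 0, 0, 16, 16), (1, 0, 0, 16, 16), (0, 0, 0, 1, 1), (2, 0, 0, 16, 16), (1, 0, 0, 1, 1), (2, 0, 0, 1, 1)]]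

def m1_6 : Base := (1, 2, [(0, [1], [0, 3]), (0, [1], [1, 4]), (0, [0], [2, 4]), (4, [], [3])])

def l1_6 : Cov := [(6, 1, 2, [(0, [1], [0, 3]), (0, [1], [1, 4]), (0, [0], [2, 4]), (4, [], [3])]),
  (6, 1, 2, [(0, [1], [0, 3]), (0, [1], [2, 4]), (0, [0], [1, 4]), (4, [], [3])]),
  (6, 1, 2, [(0, [1], [1, 3]), (0, [1], [0, 4]), (0, [0], [2, 4]), (4, [], [3])]),
  (6, 1, 2, [(0, [1], [1, 3]), (0, [1], [2, 4]), (0, [0], [0, 4]), (4, [], [3])]),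
  (6, 1, 2, [(0, [1], [2, 3]), (0, [1], [0, 4]), (0, [0], [1, 4]), (4, [], [3])]),
  (6, 1, 2, [(0, [1], [2, 3]), (0, [1], [1, 4]), (0, [0], [0, 4]), (4, [], [3])])]

def z1_6 : Cov := []

def w1_6 : List (List Wit) := [[(0, 0, 0, 16, 16), (1, 0, 0, 16, 16), (2, 0, 0, 16, 16), (3, 0, 0, 16, 16), (4, 0, 0, 16, 16), (5, 0, 0, 16, 16)]]

def m1_7 : Base := (1, 2, [(0, [1], [0, 3]), (0, [1], [1, 3]), (0, [0], [2, 4]), (4, [], [4])])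

def l1_7 : Cov := [(12, 1, 2, [(0, [1], [0, 3]), (0, [1], [1, 3]), (0, [0], [2, 4]), (4, [], [4])]),
  (12, 1, 2, [(0, [1], [0, 3]), (0, [1], [2, 3]), (0, [0], [1, 4]), (4, [], [4])]),
  (12, 1, 2, [(0, [1], [1, 3]), (0, [1], [2, 3]), (0, [0], [0, 4]), (4, [], [4])])]

def z1_7 : Cov := []

def w1_7 : List (List Wit) := [[(0, 0, 0, 16, 16), (1, 0, 0, 16, 16), (0, 0, 0, 16, 16), (2, 0, 0, 16, 16), (1, 0, 0, 16, 16), (2, 0, 0, 16, 16)]]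

def m1_8 : Base := (1, 2, [(0, [1], [0, 3]), (0, [1], [1, 2]), (0, [0], [3, 4]), (4, [], [4])])

def l1_8 : Cov := [(12, 1, 2, [(0, [1], [0, 3]), (0, [1], [1, 2]), (0, [0], [3, 4]), (4, [], [4])]),
  (12, 1, 2, [(0, [1], [1, 3]), (0, [1], [0, 2]), (0, [0], [3, 4]), (4, [], [4])]),
  (12, 1, 2, [(0, [1], [2, 3]), (0, [1], [0, 1]), (0, [0], [3, 4]), (4, [], [4])])]

def z1_8 : Cov := []

def w1_8 : List (List Wit) := [[(0, 0, 0, 16, 16), (0, 0, 0, 16, 16), (1, 0, 0, 16, 16), (1, 0, 0, 16, 16), (2, 0, 0, 16, 16), (2, 0, 0, 16, 16)]]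

def m1_9 : Base := (0, 2, [(0, [0], [3, 4]), (1, [], [3, 4]), (1, [], [0, 1]), (4, [], [2])])

def l1_9 : Cov := [(12, 0, 2, [(0, [0], [3, 4]), (1, [], [3, 4]), (1, [], [0, 1]), (4, [], [2])]),
  (12, 0, 2, [(0, [0], [3, 4]), (1, [], [3, 4]), (1, [], [0, 2]), (4, [], [1])]),
  (12, 0, 2, [(0, [0], [3, 4]), (1, [], [3, 4]), (1, [], [1, 2]), (4, [], [0])])]

def z1_9 : Cov := []

def w1_9 : List (List Wit) := [[(0, 0, 0, 16, 16), (1, 0, 0, 16, 16), (0, 0, 0, 16, 16), (2, 0, 0, 16, 16), (1, 0, 0, 16, 16), (2, 0, 0, 16, 16)]]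

def m1_10 : Base := (0, 2, [(0, [0], [3, 4]), (1, [], [0, 3]), (1, [], [1, 4]), (4, [], [2])])

def l1_10 : Cov := [(12, 0, 2, [(0, [0], [3, 4]), (1, [], [0, 3]), (1, [], [1, 4]), (4, [], [2])]),
  (12, 0, 2, [(0, [0], [3, 4]), (1, [], [0, 3]), (1, [], [2, 4]), (4, [], [1])]),
  (12, 0, 2, [(0, [0], [3, 4]), (1, [], [1, 3]), (1, [], [2, 4]), (4, [], [0])])]

def z1_10 : Cov := []

def w1_10 : List (List Wit) := [[(0, 0, 0, 16, 16), (1, 0, 0, 16, 16), (0, 0, 0, 1, 1), (2, 0, 0, 16, 16), (1, 0, 0, 1, 1), (2, 0, 0, 1, 1)]]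

def m1_11 : Base := (0, 2, [(0, [0], [3, 4]), (1, [], [0, 3]), (1, [], [1, 2]), (4, [], [4])])

def l1_11 : Cov := [(12, 0, 2, [(0, [0], [3, 4]), (1, [], [0, 3]), (1, [], [1, 2]), (4, [], [4])]),
  (12, 0, 2, [(0, [0], [3, 4]), (1, [], [1, 3]), (1, [], [0, 2]), (4, [], [4])]),
  (12, 0, 2, [(0, [0], [3, 4]), (1, [], [2, 3]), (1, [], [0, 1]), (4, [], [4])])]

def z1_11 : Cov := []

def w1_11 : List (List Wit) := [[(0, 0, 0, 16, 16), (0, 0, 0, 16, 16), (1, 0, 0, 16, 16), (1, 0, 0, 16, 16), (2, 0, 0, 16, 16), (2, 0, 0, 16, 16)]]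

def m1_12 : Base := (0, 2, [(0, [0], [0, 3]), (1, [], [3, 4]), (1, [], [1, 4]), (4, [], [2])])

def l1_12 : Cov := [(6, 0, 2, [(0, [0], [0, 3]), (1, [], [3, 4]), (1, [], [1, 4]), (4, [], [2])]),
  (6, 0, 2, [(0, [0], [0, 3]), (1, [], [3, 4]), (1, [], [2, 4]), (4, [], [1])]),
  (6, 0, 2, [(0, [0], [1, 3]), (1, [], [3, 4]), (1, [], [0, 4]), (4, [], [2])]),
  (6, 0, 2, [(0, [0], [1, 3]), (1, [], [3, 4]), (1, [], [2, 4]), (4, [], [0])]),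
  (6, 0, 2, [(0, [0], [2, 3]), (1, [], [3, 4]), (1, [], [0, 4]), (4, [], [1])]),
  (6, 0, 2, [(0, [0], [2, 3]), (1, [], [3, 4]), (1, [], [1, 4]), (4, [], [0])])]

def z1_12 : Cov := []

def w1_12 : List (List Wit) := [[(0, 0, 0, 16, 16), (1, 0, 0, 16, 16), (2, 0, 0, 16, 16), (3, 0, 0, 16, 16), (4, 0, 0, 16, 16), (5, 0, 0, 16, 16)]]

def m1_13 : Base := (0, 2, [(0, [0], [0, 3]), (1, [], [3, 4]), (1, [], [1, 2]), (4, [], [4])])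

def l1_13 : Cov := [(12, 0, 2, [(0, [0], [0, 3]), (1, [], [3, 4]), (1, [], [1, 2]), (4, [], [4])]),
  (12, 0, 2, [(0, [0], [1, 3]), (1, [], [3, 4]), (1, [], [0, 2]), (4, [], [4])]),
  (12, 0, 2, [(0, [0], [2, 3]), (1, [], [3, 4]), (1, [], [0, 1]), (4, [], [4])])]

def z1_13 : Cov := []

def w1_13 : List (List Wit) := [[(0, 0, 0, 16, 16), (0, 0, 0, 16, 16), (1, 0, 0, 16, 16), (1, 0, 0, 16, 16), (2, 0, 0, 16, 16), (2, 0, 0, 16, 16)]]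

def m1_14 : Base := (0, 2, [(0, [0], [0, 3]), (1, [], [1, 4]), (1, [], [2, 4]), (4, [], [3])])

def l1_14 : Cov := [(12, 0, 2, [(0, [0], [0, 3]), (1, [], [1, 4]), (1, [], [2, 4]), (4, [], [3])]),
  (12, 0, 2, [(0, [0], [1, 3]), (1, [], [0, 4]), (1, [], [2, 4]), (4, [], [3])]),
  (12, 0, 2, [(0, [0], [2, 3]), (1, [], [0, 4]), (1, [], [1, 4]), (4, [], [3])])]

def z1_14 : Cov := []

def w1_14 : List (List Wit) := [[(0, 0, 0, 16, 16), (0, 0, 0, 16, 16), (1, 0, 0, 16, 16), (1, 0, 0, 16, 16), (2, 0, 0, 16, 16), (2, 0, 0, 16, 16)]]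

def m1_15 : Base := (0, 2, [(0, [0], [0, 3]), (1, [], [1, 4]), (1, [], [2, 3]), (4, [], [4])])

def l1_15 : Cov := [(6, 0, 2, [(0, [0], [0, 3]), (1, [], [1, 4]), (1, [], [2, 3]), (4, [], [4])]),
  (6, 0, 2, [(0, [0], [0, 3]), (1, [], [2, 4]), (1, [], [1, 3]), (4, [], [4])]),
  (6, 0, 2, [(0, [0], [1, 3]), (1, [], [0, 4]), (1, [], [2, 3]), (4, [], [4])]),
  (6, 0, 2, [(0, [0], [1, 3]), (1, [], [2, 4]), (1, [], [0, 3]), (4, [], [4])]),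
  (6, 0, 2, [(0, [0], [2, 3]), (1, [], [0, 4]), (1, [], [1, 3]), (4, [], [4])]),
  (6, 0, 2, [(0, [0], [2, 3]), (1, [], [1, 4]), (1, [], [0, 3]), (4, [], [4])])]

def z1_15 : Cov := []

def w1_15 : List (List Wit) := [[(0, 0, 0, 16, 16), (1, 0, 0, 16, 16), (2, 0, 0, 16, 16), (3, 0, 0, 16, 16), (4, 0, 0, 16, 16), (5, 0, 0, 16, 16)]]

def m1_16 : Base := (0, 1, [(0, [0], [0, 3]), (1, [], [1, 3]), (4, [], [2])])

def l1_16 : Cov := [(6, 0, 1, [(0, [0], [0, 3]), (1, [], [1, 3]), (4, [], [2])]),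
  (6, 0, 1, [(0, [0], [0, 3]), (1, [], [2, 3]), (4, [], [1])]),
  (6, 0, 1, [(0, [0], [1, 3]), (1, [], [0, 3]), (4, [], [2])]),
  (6, 0, 1, [(0, [0], [1, 3]), (1, [], [2, 3]), (4, [], [0])]),
  (6, 0, 1, [(0, [0], [2, 3]), (1, [], [0, 3]), (4, [], [1])]),
  (6, 0, 1, [(0, [0], [2, 3]), (1, [], [1, 3]), (4, [], [0])])]

def z1_16 : Cov := []

def w1_16 : List (List Wit) := [[(0, 0, 0, 0, 0), (1, 0, 0, 0, 0), (2, 0, 0, 0, 0), (3, 0, 0, 0, 0), (4, 0, 0, 0, 0), (5, 0, 0, 0, 0)]]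

def m1_17 : Base := (0, 1, [(0, [0], [0, 3]), (1, [], [1, 2]), (4, [], [3])])

def l1_17 : Cov := [(12, 0, 1, [(0, [0], [0, 3]), (1, [], [1, 2]), (4, [], [3])]),
  (12, 0, 1, [(0, [0], [1, 3]), (1, [], [0, 2]), (4, [], [3])]),
  (12, 0, 1, [(0, [0], [2, 3]), (1, [], [0, 1]), (4, [], [3])])]

def z1_17 : Cov := []

def w1_17 : List (List Wit) := [[(0, 0, 0, 0, 0), (0, 0, 0, 0, 0), (1, 0, 0, 0, 0), (1, 0, 0, 0, 0), (2, 0, 0, 0, 0), (2, 0, 0, 0, 0)]]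

def m1_18 : Base := (0, 1, [(0, [0], [0, 3]), (3, [], [1, 2, 3])])

def l1_18 : Cov := [(12, 0, 1, [(0, [0], [0, 3]), (3, [], [1, 2, 3])]),
  (12, 0, 1, [(0, [0], [1, 3]), (3, [], [0, 2, 3])]),
  (12, 0, 1, [(0, [0], [2, 3]), (3, [], [0, 1, 3])])]

def z1_18 : Cov := []

def w1_18 : List (List Wit) := [[(0, 0, 0, 0, 0), (0, 0, 0, 0, 0), (1, 0, 0, 0, 0), (1, 0, 0, 0, 0), (2, 0, 0, 0, 0), (2, 0, 0, 0, 0)]]

def m1_19 : Base := (0, 2, [(0, [0], [0, 1]), (1, [], [3, 4]), (1, [], [3, 4]), (4, [], [2])])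

def l1_19 : Cov := [(12, 0, 2, [(0, [0], [0, 1]), (1, [], [3, 4]), (1, [], [3, 4]), (4, [], [2])]),
  (12, 0, 2, [(0, [0], [0, 2]), (1, [], [3, 4]), (1, [], [3, 4]), (4, [], [1])]),
  (12, 0, 2, [(0, [0], [1, 2]), (1, [], [3, 4]), (1, [], [3, 4]), (4, [], [0])])]

def z1_19 : Cov := []

def w1_19 : List (List Wit) := [[(0, 0, 0, 16, 16), (1, 0, 0, 16, 16), (0, 0, 0, 16, 16), (2, 0, 0, 16, 16), (1, 0, 0, 16, 16), (2, 0, 0, 16, 16)]]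

def m1_20 : Base := (0, 2, [(0, [0], [0, 1]), (1, [], [3, 4]), (1, [], [2, 3]), (4, [], [4])])

def l1_20 : Cov := [(12, 0, 2, [(0, [0], [0, 1]), (1, [], [3, 4]), (1, [], [2, 3]), (4, [], [4])]),
  (12, 0, 2, [(0, [0], [0, 2]), (1, [], [3, 4]), (1, [], [1, 3]), (4, [], [4])]),
  (12, 0, 2, [(0, [0], [1, 2]), (1, [], [3, 4]), (1, [], [0, 3]), (4, [], [4])])]

def z1_20 : Cov := []

def w1_20 : List (List Wit) := [[(0, 0, 0, 16, 16), (1, 0, 0, 16, 16), (0, 0, 0, 16, 16), (2, 0, 0, 16, 16), (1, 0, 0, 16, 16), (2, 0, 0, 16, 16)]]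

def m1_21 : Base := (0, 1, [(0, [0], [0, 1]), (1, [], [2, 3]), (4, [], [3])])

def l1_21 : Cov := [(12, 0, 1, [(0, [0], [0, 1]), (1, [], [2, 3]), (4, [], [3])]),
  (12, 0, 1, [(0, [0], [0, 2]), (1, [], [1, 3]), (4, [], [3])]),
  (12, 0, 1, [(0, [0], [1, 2]), (1, [], [0, 3]), (4, [], [3])])]

def z1_21 : Cov := []

def w1_21 : List (List Wit) := [[(0, 0, 0, 0, 0), (1, 0, 0, 0, 0), (0, 0, 0, 0, 0), (2, 0, 0, 0, 0), (1, 0, 0, 0, 0), (2, 0, 0, 0, 0)]]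

def m1_22 : Base := (0, 0, [(0, [0], [0, 1]), (4, [], [2])])

def l1_22 : Cov := [(12, 0, 0, [(0, [0], [0, 1]), (4, [], [2])]),
  (12, 0, 0, [(0, [0], [0, 2]), (4, [], [1])]),
  (12, 0, 0, [(0, [0], [1, 2]), (4, [], [0])])]

def z1_22 : Cov := []

def w1_22 : List (List Wit) := [[(0, 0, 0, 0, 0), (1, 0, 0, 0, 0), (0, 0, 0, 0, 0), (2, 0, 0, 0, 0), (1, 0, 0, 0, 0), (2, 0, 0, 0, 0)]]

def m1_23 : Base := (0, 1, [(1, [], [0, 3]), (2, [0], [1, 2, 3])])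

def l1_23 : Cov := [(12, 0, 1, [(1, [], [0, 3]), (2, [0], [1, 2, 3])]),
  (12, 0, 1, [(1, [], [1, 3]), (2, [0], [0, 2, 3])]),
  (12, 0, 1, [(1, [], [2, 3]), (2, [0], [0, 1, 3])])]

def z1_23 : Cov := []

def w1_23 : List (List Wit) := [[(0, 0, 0, 0, 0), (0, 0, 0, 0, 0), (1, 0, 0, 0, 0), (1, 0, 0, 0, 0), (2, 0, 0, 0, 0), (2, 0, 0, 0, 0)]]

def m1_24 : Base := (0, 0, [(2, [0], [0, 1, 2])])

def l1_24 : Cov := [(36, 0, 0, [(2, [0], [0, 1, 2])])]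

def z1_24 : Cov := []

def w1_24 : List (List Wit) := [[(0, 0, 0, 0, 0), (0, 0, 0, 0, 0), (0, 0, 0, 0, 0), (0, 0, 0, 0, 0), (0, 0, 0, 0, 0), (0, 0, 0, 0, 0)]]

theorem tr1 : trK keys lk1 kl1 = true := by
  decide +kernel

theorem x1_0 : expB 1 3 dg0 dg1 m1_0 (l1_0 ++ z1_0) w1_0 = true := by
  decide +kernel

theorem x1_1 : expB 1 3 dg0 dg1 m1_1 (l1_1 ++ z1_1) w1_1 = true := by
  decide +kernel

theorem x1_2 : expB 1 3 dg0 dg1 m1_2 (l1_2 ++ z1_2) w1_2 = true := by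
  decide +kernel

theorem x1_3 : expB 1 3 dg0 dg1 m1_3 (l1_3 ++ z1_3) w1_3 = true := by
  decide +kernel

theorem x1_4 : expB 1 3 dg0 dg1 m1_4 (l1_4 ++ z1_4) w1_4 = true := by
  decide +kernel

theorem x1_5 : expB 1 3 dg0 dg1 m1_5 (l1_5 ++ z1_5) w1_5 = true := by
  decide +kernel

theorem x1_6 : expB 1 3 dg0 dg1 m1_6 (l1_6 ++ z1_6) w1_6 = true := by
  decide +kernel

theorem x1_7 : expB 1 3 dg0 dg1 m1_7 (l1_7 ++ z1_7) w1_7 = true := by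
  decide +kernel

theorem x1_8 : expB 1 3 dg0 dg1 m1_8 (l1_8 ++ z1_8) w1_8 = true := by
  decide +kernel

theorem x1_9 : expB 1 3 dg0 dg1 m1_9 (l1_9 ++ z1_9) w1_9 = true := by
  decide +kernel

theorem x1_10 : expB 1 3 dg0 dg1 m1_10 (l1_10 ++ z1_10) w1_10 = true := by
  decide +kernel

theorem x1_11 : expB 1 3 dg0 dg1 m1_11 (l1_11 ++ z1_11) w1_11 = true := by
  decide +kernel

theorem x1_12 : expB 1 3 dg0 dg1 m1_12 (l1_12 ++ z1_12) w1_12 = true := by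
  decide +kernel

theorem x1_13 : expB 1 3 dg0 dg1 m1_13 (l1_13 ++ z1_13) w1_13 = true := by
  decide +kernel

theorem x1_14 : expB 1 3 dg0 dg1 m1_14 (l1_14 ++ z1_14) w1_14 = true := by
  decide +kernel

theorem x1_15 : expB 1 3 dg0 dg1 m1_15 (l1_15 ++ z1_15) w1_15 = true := by
  decide +kernel

theorem x1_16 : expB 1 3 dg0 dg1 m1_16 (l1_16 ++ z1_16) w1_16 = true := by
  decide +kernel

theorem x1_17 : expB 1 3 dg0 dg1 m1_17 (l1_17 ++ z1_17) w1_17 = true := by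
  decide +kernel

theorem x1_18 : expB 1 3 dg0 dg1 m1_18 (l1_18 ++ z1_18) w1_18 = true := by
  decide +kernel

theorem x1_19 : expB 1 3 dg0 dg1 m1_19 (l1_19 ++ z1_19) w1_19 = true := by
  decide +kernel

theorem x1_20 : expB 1 3 dg0 dg1 m1_20 (l1_20 ++ z1_20) w1_20 = true := by
  decide +kernel

theorem x1_21 : expB 1 3 dg0 dg1 m1_21 (l1_21 ++ z1_21) w1_21 = true := by
  decide +kernel

theorem x1_22 : expB 1 3 dg0 dg1 m1_22 (l1_22 ++ z1_22) w1_22 = true := by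
  decide +kernel

theorem x1_23 : expB 1 3 dg0 dg1 m1_23 (l1_23 ++ z1_23) w1_23 = true := by
  decide +kernel

theorem x1_24 : expB 1 3 dg0 dg1 m1_24 (l1_24 ++ z1_24) w1_24 = true := by
  decide +kernel

theorem t1_0_0 : chkS lk1 1 3 [(1, m1_0)] l1_0
  [(160, 513, 513, 105972786, 106041411), (11, 258, 33, 52495956, 34628931), (11, 258, 33, 52495941, 33645891)]
  [(11, 24), (160, 12)] = true := by
  decide +kernel

theorem t1_0_1 : chkS lk1 1 3 [(1, m1_0)] l1_1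
  [(161, 513, 513, 105972786, 106041411), (91, 513, 513, 88147506, 40177731), (161, 513, 513, 105972771, 106037571), (91, 513, 513, 88147491, 40173891), (81, 288, 288, 37045776, 37967376), (81, 288, 288, 37045761, 37967361)]
  [(81, 12), (91, 12), (161, 12)] = true := by
  decide +kernel

theorem t1_0_2 : chkS lk1 1 3 [(1, m1_0)] l1_2
  [(81, 33, 258, 17122866, 37949541), (81, 33, 258, 17122851, 37945701), (11, 513, 513, 88147506, 40177731)]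
  [(11, 12), (81, 24)] = true := by
  decide +kernel

theorem t1_0_3 : chkS lk1 1 3 [(1, m1_0)] l1_3
  [(162, 513, 513, 105972786, 106041411), (12, 513, 513, 105972786, 106041411), (12, 513, 513, 105972771, 106037571)]
  [(12, 24), (162, 12)] = true := by
  decide +kernel

theorem t1_0_4 : chkS lk1 1 3 [(1, m1_0)] l1_4
  [(12, 258, 33, 52495461, 16934211), (91, 258, 33, 52495941, 33645891), (91, 258, 33, 52495956, 34628931)]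
  [(12, 12), (91, 24)] = true := by
  decide +kernel

theorem t1_0_5 : chkS lk1 1 3 [(1, m1_0)] l1_5
  [(163, 513, 513, 105972786, 106041411), (90, 513, 513, 73467186, 86380611), (90, 513, 513, 73467171, 86376771)]
  [(90, 24), (163, 12)] = true := by
  decide +kernel

theorem t1_0_6 : chkS lk1 1 3 [(1, m1_0)] l1_6
  [(90, 258, 33, 70321506, 19288131), (91, 258, 33, 87098946, 39931971), (90, 258, 33, 70321446, 2511171), (91, 258, 33, 87098916, 39866691), (73, 288, 288, 37045761, 37967361), (73, 288, 288, 37045776, 37967376)]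
  [(73, 12), (90, 12), (91, 12)] = true := by
  decide +kernel

theorem t1_0_7 : chkS lk1 1 3 [(1, m1_0)] l1_7
  [(73, 33, 258, 50677281, 37970181), (81, 33, 258, 101007666, 105058341), (81, 33, 258, 101007651, 105054501)]
  [(73, 12), (81, 24)] = true := by
  decide +kernel

theorem t1_0_8 : chkS lk1 1 3 [(1, m1_0)] l1_8
  [(90, 258, 33, 88146726, 6627651), (90, 258, 33, 88146786, 23404611), (12, 258, 33, 69272421, 17179971)]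
  [(12, 12), (90, 24)] = true := by
  decide +kernel

theorem t1_0_9 : chkS lk1 1 3 [(1, m1_0)] l1_9
  [(164, 1, 1, 105972786, 106041411), (17, 1, 1, 88147506, 40177731), (17, 1, 1, 88147491, 40173891)]
  [(17, 24), (164, 12)] = true := by
  decide +kernel

theorem t1_0_10 : chkS lk1 1 3 [(1, m1_0)] l1_10
  [(165, 1, 1, 105972786, 106041411), (94, 1, 1, 72418866, 39194691), (94, 1, 1, 72418851, 39190851)]
  [(94, 24), (165, 12)] = true := by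
  decide +kernel

theorem t1_0_11 : chkS lk1 1 3 [(1, m1_0)] l1_11
  [(94, 1, 1, 52495941, 33645891), (94, 1, 1, 52495956, 34628931), (17, 1, 1, 52495956, 34628931)]
  [(17, 12), (94, 24)] = true := by
  decide +kernel

theorem t1_0_12 : chkS lk1 1 3 [(1, m1_0)] l1_12
  [(166, 1, 1, 105972786, 106041411), (95, 1, 1, 88147506, 40177731), (166, 1, 1, 105972771, 106037571), (95, 1, 1, 88147491, 40173891), (93, 1, 1, 104924466, 103092291), (93, 1, 1, 104924451, 103088451)]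
  [(93, 12), (95, 12), (166, 12)] = true := by
  decide +kernel

theorem t1_0_13 : chkS lk1 1 3 [(1, m1_0)] l1_13
  [(167, 1, 1, 105972786, 106041411), (167, 1, 1, 105972771, 106037571), (17, 1, 1, 102826836, 101721411)]
  [(17, 12), (167, 24)] = true := by
  decide +kernel

theorem t1_0_14 : chkS lk1 1 3 [(1, m1_0)] l1_14
  [(95, 1, 1, 87098946, 39931971), (95, 1, 1, 87098916, 39866691), (92, 1, 1, 103875156, 101732931)]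
  [(92, 12), (95, 24)] = true := by
  decide +kernel

theorem t1_0_15 : chkS lk1 1 3 [(1, m1_0)] l1_15
  [(167, 1, 1, 72418866, 39194691), (168, 1, 1, 105972786, 106041411), (167, 1, 1, 72418851, 39190851), (168, 1, 1, 105972771, 106037571), (94, 1, 1, 102826836, 101721411), (94, 1, 1, 102826821, 100738371)]
  [(94, 12), (167, 12), (168, 12)] = true := by
  decide +kernel

theorem t1_0_16 : chkS lk1 1 3 [(1, m1_0)] l1_16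
  [(169, 1, 1, 5309490, 5378115), (43, 1, 1, 3212610, 2183235), (169, 1, 1, 5309475, 5374275), (43, 1, 1, 3212580, 2117955), (56, 1, 1, 4261170, 2428995), (56, 1, 1, 4261155, 2425155)]
  [(43, 12), (56, 12), (169, 12)] = true := by
  decide +kernel

theorem t1_0_17 : chkS lk1 1 3 [(1, m1_0)] l1_17
  [(43, 1, 1, 4261170, 2428995), (43, 1, 1, 4261155, 2425155), (54, 1, 1, 3211860, 1069635)]
  [(43, 24), (54, 12)] = true := by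
  decide +kernel

theorem t1_0_18 : chkS lk1 1 3 [(1, m1_0)] l1_18
  [(170, 1, 1, 5309490, 5378115), (170, 1, 1, 5309475, 5374275), (21, 1, 1, 2163540, 1058115)]
  [(21, 12), (170, 24)] = true := by
  decide +kernel

theorem t1_0_19 : chkS lk1 1 3 [(1, m1_0)] l1_19
  [(171, 1, 1, 105972786, 106041411), (10, 1, 1, 105972786, 106041411), (10, 1, 1, 105972771, 106037571)]
  [(10, 24), (171, 12)] = true := by
  decide +kernel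

theorem t1_0_20 : chkS lk1 1 3 [(1, m1_0)] l1_20
  [(8, 1, 1, 88147506, 40177731), (95, 1, 1, 105972546, 105979971), (95, 1, 1, 105972516, 105914691)]
  [(8, 12), (95, 24)] = true := by
  decide +kernel

theorem t1_0_21 : chkS lk1 1 3 [(1, m1_0)] l1_21
  [(44, 1, 1, 5309490, 5378115), (43, 1, 1, 5309490, 5378115), (43, 1, 1, 5309475, 5374275)]
  [(43, 24), (44, 12)] = true := by
  decide +kernel

theorem t1_0_22 : chkS lk1 1 3 [(1, m1_0)] l1_22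
  [(69, 1, 1, 66610, 135235), (5, 1, 1, 66610, 135235), (5, 1, 1, 66595, 131395)]
  [(5, 24), (69, 12)] = true := by
  decide +kernel

theorem t1_0_23 : chkS lk1 1 3 [(1, m1_0)] l1_23
  [(172, 1, 1, 5309490, 5378115), (172, 1, 1, 5309475, 5374275), (7, 1, 1, 4261170, 2428995)]
  [(7, 12), (172, 24)] = true := by
  decide +kernel

theorem t1_0_24 : chkS lk1 1 3 [(1, m1_0)] l1_24
  [(42, 1, 1, 66610, 135235)]
  [(42, 36)] = true := by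
  decide +kernel

theorem t1_1_1 : chkS lk1 1 3 [(1, m1_1)] l1_1
  [(173, 513, 513, 105972786, 106041411), (114, 513, 513, 88147506, 40177731), (174, 513, 513, 105972786, 106041411), (83, 513, 513, 88213041, 40178691), (83, 33, 258, 33898851, 21169701), (80, 513, 513, 104990001, 103093251)]
  [(80, 6), (83, 12), (114, 6), (173, 6), (174, 6)] = true := by
  decide +kernel

theorem t1_1_2 : chkS lk1 1 3 [(1, m1_1)] l1_2
  [(80, 18, 18, 17184066, 69283941), (83, 33, 258, 16991781, 33767781), (175, 513, 513, 105972786, 106041411)]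
  [(80, 12), (83, 12), (175, 12)] = true := by
  decide +kernel

theorem t1_1_3 : chkS lk1 1 3 [(1, m1_1)] l1_3
  [(176, 513, 513, 105972786, 106041411), (104, 33, 258, 17122146, 21176421), (37, 288, 288, 70341126, 3560001)]
  [(37, 12), (104, 12), (176, 12)] = true := by
  decide +kernel

theorem t1_1_4 : chkS lk1 1 3 [(1, m1_1)] l1_4
  [(177, 513, 513, 105972786, 106041411), (114, 258, 33, 106038081, 105980931), (178, 513, 513, 105972786, 106041411)]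
  [(114, 12), (177, 12), (178, 12)] = true := by
  decide +kernel

theorem t1_1_5 : chkS lk1 1 3 [(1, m1_1)] l1_5
  [(179, 513, 513, 105972786, 106041411), (97, 33, 258, 3490146, 21188646), (82, 513, 513, 73532721, 86381571)]
  [(82, 12), (97, 12), (179, 12)] = true := by
  decide +kernel

theorem t1_1_6 : chkS lk1 1 3 [(1, m1_1)] l1_6
  [(97, 288, 288, 6439221, 84087846), (114, 258, 33, 87164481, 39932931), (180, 513, 513, 105972786, 106041411), (178, 513, 513, 88147506, 40177731), (181, 513, 513, 105972786, 106041411), (182, 513, 513, 105972786, 106041411)]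
  [(97, 6), (114, 6), (178, 6), (180, 6), (181, 6), (182, 6)] = true := by
  decide +kernel

theorem t1_1_7 : chkS lk1 1 3 [(1, m1_1)] l1_7
  [(181, 258, 33, 87164001, 23221251), (80, 18, 18, 84291906, 73478181), (83, 33, 258, 100876581, 100876581)]
  [(80, 12), (83, 12), (181, 12)] = true := by
  decide +kernel

theorem t1_1_8 : chkS lk1 1 3 [(1, m1_1)] l1_8
  [(180, 513, 513, 73467186, 86380611), (97, 288, 288, 16926261, 33756261), (177, 513, 513, 72418866, 39194691)]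
  [(97, 12), (177, 12), (180, 12)] = true := by
  decide +kernel

theorem t1_1_9 : chkS lk1 1 3 [(1, m1_1)] l1_9
  [(183, 1, 1, 105972786, 106041411), (117, 1, 1, 88147506, 40177731), (32, 16, 16, 52446741, 33776916)]
  [(32, 12), (117, 12), (183, 12)] = true := by
  decide +kernel

theorem t1_1_10 : chkS lk1 1 3 [(1, m1_1)] l1_10
  [(184, 1, 1, 105972786, 106041411), (116, 1, 1, 72418866, 39194691), (86, 1, 1, 72484401, 39195651)]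
  [(86, 12), (116, 12), (184, 12)] = true := by
  decide +kernel

theorem t1_1_11 : chkS lk1 1 3 [(1, m1_1)] l1_11
  [(185, 1, 1, 105972786, 106041411), (186, 1, 1, 105972786, 106041411), (187, 1, 1, 105972786, 106041411)]
  [(185, 12), (186, 12), (187, 12)] = true := by
  decide +kernel

theorem t1_1_12 : chkS lk1 1 3 [(1, m1_1)] l1_12
  [(188, 1, 1, 105972786, 106041411), (120, 1, 1, 88147506, 40177731), (189, 1, 1, 105972786, 106041411), (88, 1, 1, 88213041, 40178691), (115, 1, 1, 104924466, 103092291), (85, 1, 1, 104990001, 103093251)]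
  [(85, 6), (88, 6), (115, 6), (120, 6), (188, 6), (189, 6)] = true := by
  decide +kernel

theorem t1_1_13 : chkS lk1 1 3 [(1, m1_1)] l1_13
  [(190, 1, 1, 105972786, 106041411), (191, 1, 1, 105972786, 106041411), (187, 1, 1, 72418866, 39194691)]
  [(187, 12), (190, 12), (191, 12)] = true := by
  decide +kernel

theorem t1_1_14 : chkS lk1 1 3 [(1, m1_1)] l1_14
  [(120, 1, 1, 87164481, 39932931), (88, 16, 16, 85079556, 39859281), (192, 1, 1, 105972786, 106041411)]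
  [(88, 12), (120, 12), (192, 12)] = true := by
  decide +kernel

theorem t1_1_15 : chkS lk1 1 3 [(1, m1_1)] l1_15
  [(190, 1, 1, 72418866, 39194691), (193, 1, 1, 105972786, 106041411), (191, 1, 1, 72418866, 39194691), (194, 1, 1, 105972786, 106041411), (186, 1, 1, 72418866, 39194691), (185, 1, 1, 72418866, 39194691)]
  [(185, 6), (186, 6), (190, 6), (191, 6), (193, 6), (194, 6)] = true := by
  decide +kernel

theorem t1_1_16 : chkS lk1 1 3 [(1, m1_1)] l1_16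
  [(195, 1, 1, 5309490, 5378115), (68, 16, 16, 1197360, 2298960), (196, 1, 1, 5309490, 5378115), (89, 1, 1, 4326705, 2429955), (63, 16, 16, 2114325, 206100), (67, 16, 16, 2114325, 206100)]
  [(63, 6), (67, 6), (68, 6), (89, 6), (195, 6), (196, 6)] = true := by
  decide +kernel

theorem t1_1_17 : chkS lk1 1 3 [(1, m1_1)] l1_17
  [(68, 16, 16, 3163410, 2314260), (89, 16, 16, 1193220, 2110545), (197, 1, 1, 5309490, 5378115)]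
  [(68, 12), (89, 12), (197, 12)] = true := by
  decide +kernel

theorem t1_1_18 : chkS lk1 1 3 [(1, m1_1)] l1_18
  [(198, 1, 1, 5309490, 5378115), (199, 1, 1, 5309490, 5378115), (200, 1, 1, 5309490, 5378115)]
  [(198, 12), (199, 12), (200, 12)] = true := by
  decide +kernel

theorem t1_1_19 : chkS lk1 1 3 [(1, m1_1)] l1_19
  [(201, 1, 1, 105972786, 106041411), (119, 1, 1, 105972786, 106041411), (33, 1, 1, 105911076, 105914676)]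
  [(33, 12), (119, 12), (201, 12)] = true := by
  decide +kernel

theorem t1_1_20 : chkS lk1 1 3 [(1, m1_1)] l1_20
  [(202, 1, 1, 105972786, 106041411), (120, 1, 1, 106038081, 105980931), (88, 16, 16, 106049796, 105919521)]
  [(88, 12), (120, 12), (202, 12)] = true := by
  decide +kernel

theorem t1_1_21 : chkS lk1 1 3 [(1, m1_1)] l1_21
  [(203, 1, 1, 5309490, 5378115), (68, 16, 16, 5260050, 5447700), (89, 16, 16, 5386500, 5256225)]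
  [(68, 12), (89, 12), (203, 12)] = true := by
  decide +kernel

theorem t1_1_22 : chkS lk1 1 3 [(1, m1_1)] l1_22
  [(204, 1, 1, 66610, 135235), (71, 16, 16, 17170, 204820), (24, 1, 1, 4900, 8500)]
  [(24, 12), (71, 12), (204, 12)] = true := by
  decide +kernel

theorem t1_1_23 : chkS lk1 1 3 [(1, m1_1)] l1_23
  [(205, 1, 1, 5309490, 5378115), (206, 1, 1, 5309490, 5378115), (207, 1, 1, 5309490, 5378115)]
  [(205, 12), (206, 12), (207, 12)] = true := by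
  decide +kernel

theorem t1_1_24 : chkS lk1 1 3 [(1, m1_1)] l1_24
  [(208, 1, 1, 66610, 135235)]
  [(208, 36)] = true := by
  decide +kernel

theorem t1_2_2 : chkS lk1 1 3 [(1, m1_2)] l1_2
  [(81, 258, 33, 103875906, 102846531), (80, 513, 513, 88146786, 23404611), (80, 513, 513, 88147506, 40177731)]
  [(80, 24), (81, 12)] = true := by
  decide +kernel

theorem t1_2_3 : chkS lk1 1 3 [(1, m1_2)] l1_3
  [(37, 33, 258, 70668801, 70668801), (37, 33, 258, 70668321, 70668546), (209, 513, 513, 105972786, 106041411)]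
  [(37, 24), (209, 12)] = true := by
  decide +kernel

theorem t1_2_4 : chkS lk1 1 3 [(1, m1_2)] l1_4
  [(83, 258, 33, 105972786, 106041411), (83, 258, 33, 105972546, 105979971), (37, 288, 288, 33969201, 70391301)]
  [(37, 12), (83, 24)] = true := by
  decide +kernel

theorem t1_2_5 : chkS lk1 1 3 [(1, m1_2)] l1_5
  [(82, 258, 33, 103875906, 102846531), (82, 258, 33, 103875666, 101863491), (210, 513, 513, 105972786, 106041411)]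
  [(82, 24), (210, 12)] = true := by
  decide +kernel

theorem t1_2_6 : chkS lk1 1 3 [(1, m1_2)] l1_6
  [(72, 288, 288, 37044246, 4412946), (72, 288, 288, 37044486, 4412961), (83, 258, 33, 56689746, 85090371), (82, 513, 513, 55641666, 38887491), (83, 258, 33, 56689986, 86073411), (82, 513, 513, 55641186, 22175811)]
  [(72, 12), (82, 12), (83, 12)] = true := by
  decide +kernel

theorem t1_2_7 : chkS lk1 1 3 [(1, m1_2)] l1_7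
  [(80, 258, 33, 87098466, 23220291), (80, 258, 33, 87098946, 39931971), (72, 33, 258, 50676246, 4416021)]
  [(72, 12), (80, 24)] = true := by
  decide +kernel

theorem t1_2_8 : chkS lk1 1 3 [(1, m1_2)] l1_8
  [(37, 33, 258, 33969201, 70391301), (82, 258, 33, 88146786, 23404611), (82, 258, 33, 88147506, 40177731)]
  [(37, 12), (82, 24)] = true := by
  decide +kernel

theorem t1_2_9 : chkS lk1 1 3 [(1, m1_2)] l1_9
  [(28, 16, 16, 52838661, 67331361), (28, 16, 16, 52838421, 67331346), (211, 1, 1, 105972786, 106041411)]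
  [(28, 24), (211, 12)] = true := by
  decide +kernel

theorem t1_2_10 : chkS lk1 1 3 [(1, m1_2)] l1_10
  [(212, 1, 1, 105972786, 106041411), (212, 1, 1, 105972546, 105979971), (213, 1, 1, 105972786, 106041411)]
  [(212, 24), (213, 12)] = true := by
  decide +kernel

theorem t1_2_11 : chkS lk1 1 3 [(1, m1_2)] l1_11
  [(28, 16, 16, 17187621, 67314021), (212, 1, 1, 70321506, 19288131), (212, 1, 1, 70321746, 35016771)]
  [(28, 12), (212, 24)] = true := by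
  decide +kernel

theorem t1_2_12 : chkS lk1 1 3 [(1, m1_2)] l1_12
  [(85, 1, 1, 103875906, 102846531), (85, 1, 1, 103875666, 101863491), (214, 1, 1, 105972786, 106041411), (215, 1, 1, 105972786, 106041411), (214, 1, 1, 105972546, 105979971), (215, 1, 1, 105972546, 105979971)]
  [(85, 12), (214, 12), (215, 12)] = true := by
  decide +kernel

theorem t1_2_13 : chkS lk1 1 3 [(1, m1_2)] l1_13
  [(32, 16, 16, 102056736, 105062736), (216, 1, 1, 105972786, 106041411), (216, 1, 1, 105972546, 105979971)]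
  [(32, 12), (216, 24)] = true := by
  decide +kernel

theorem t1_2_14 : chkS lk1 1 3 [(1, m1_2)] l1_14
  [(84, 1, 1, 103875906, 102846531), (214, 1, 1, 104924466, 103092291), (214, 1, 1, 104923986, 102047811)]
  [(84, 12), (214, 24)] = true := by
  decide +kernel

theorem t1_2_15 : chkS lk1 1 3 [(1, m1_2)] l1_15
  [(86, 1, 1, 103875906, 102846531), (86, 1, 1, 103875666, 101863491), (217, 1, 1, 105972786, 106041411), (216, 1, 1, 104924466, 103092291), (217, 1, 1, 105972546, 105979971), (216, 1, 1, 104923986, 102047811)]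
  [(86, 12), (216, 12), (217, 12)] = true := by
  decide +kernel

theorem t1_2_16 : chkS lk1 1 3 [(1, m1_2)] l1_16
  [(67, 16, 16, 1393440, 4399440), (67, 16, 16, 1393200, 4395600), (218, 1, 1, 5309490, 5378115), (219, 1, 1, 5309490, 5378115), (218, 1, 1, 5309250, 5316675), (219, 1, 1, 5309250, 5316675)]
  [(67, 12), (218, 12), (219, 12)] = true := by
  decide +kernel

theorem t1_2_17 : chkS lk1 1 3 [(1, m1_2)] l1_17
  [(53, 16, 16, 1393440, 4399440), (218, 1, 1, 4261170, 2428995), (218, 1, 1, 4260690, 1384515)]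
  [(53, 12), (218, 24)] = true := by
  decide +kernel

theorem t1_2_18 : chkS lk1 1 3 [(1, m1_2)] l1_18
  [(87, 1, 1, 3212610, 2183235), (220, 1, 1, 5309490, 5378115), (220, 1, 1, 5309250, 5316675)]
  [(87, 12), (220, 24)] = true := by
  decide +kernel

theorem t1_2_19 : chkS lk1 1 3 [(1, m1_2)] l1_19
  [(33, 1, 1, 106173216, 106176816), (33, 1, 1, 106172976, 106172976), (10, 16, 16, 106111236, 105923361)]
  [(10, 12), (33, 24)] = true := by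
  decide +kernel

theorem t1_2_20 : chkS lk1 1 3 [(1, m1_2)] l1_20
  [(88, 1, 1, 105972786, 106041411), (88, 1, 1, 105972546, 105979971), (95, 16, 16, 106111236, 105923361)]
  [(88, 24), (95, 12)] = true := by
  decide +kernel

theorem t1_2_21 : chkS lk1 1 3 [(1, m1_2)] l1_21
  [(89, 1, 1, 5309490, 5378115), (89, 1, 1, 5309250, 5316675), (43, 16, 16, 5513475, 5505825)]
  [(43, 12), (89, 24)] = true := by
  decide +kernel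

theorem t1_2_22 : chkS lk1 1 3 [(1, m1_2)] l1_22
  [(24, 1, 1, 267040, 270640), (24, 1, 1, 266800, 266800), (5, 16, 16, 205060, 17185)]
  [(5, 12), (24, 24)] = true := by
  decide +kernel

theorem t1_2_23 : chkS lk1 1 3 [(1, m1_2)] l1_23
  [(221, 1, 1, 5309490, 5378115), (222, 1, 1, 5309490, 5378115), (222, 1, 1, 5309250, 5316675)]
  [(221, 12), (222, 24)] = true := by
  decide +kernel

theorem t1_2_24 : chkS lk1 1 3 [(1, m1_2)] l1_24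
  [(41, 1, 1, 132145, 136195)]
  [(41, 36)] = true := by
  decide +kernel

theorem t1_3_3 : chkS lk1 1 3 [(1, m1_3)] l1_3
  [(223, 513, 513, 105972786, 106041411), (103, 513, 513, 88147506, 40177731), (103, 513, 513, 88147491, 40173891)]
  [(103, 24), (223, 12)] = true := by
  decide +kernel

theorem t1_3_4 : chkS lk1 1 3 [(1, m1_3)] l1_4
  [(103, 528, 528, 102826836, 101721411), (224, 513, 513, 105972786, 106041411), (224, 513, 513, 105972771, 106037571)]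
  [(103, 12), (224, 24)] = true := by
  decide +kernel

theorem t1_3_5 : chkS lk1 1 3 [(1, m1_3)] l1_5
  [(225, 513, 513, 105972786, 106041411), (36, 33, 258, 33968961, 70329861), (36, 33, 258, 33968916, 70264341)]
  [(36, 24), (225, 12)] = true := by
  decide +kernel

theorem t1_3_6 : chkS lk1 1 3 [(1, m1_3)] l1_6
  [(36, 18, 18, 20337666, 70406241), (224, 513, 513, 88147506, 40177731), (36, 18, 18, 20337696, 70406496), (224, 513, 513, 88147491, 40173891), (226, 513, 513, 105972786, 106041411), (226, 513, 513, 105972771, 106037571)]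
  [(36, 12), (224, 12), (226, 12)] = true := by
  decide +kernel

theorem t1_3_7 : chkS lk1 1 3 [(1, m1_3)] l1_7
  [(75, 18, 18, 50677281, 37970181), (37, 513, 513, 39073281, 39073281), (37, 513, 513, 39073296, 39073296)]
  [(37, 24), (75, 12)] = true := by
  decide +kernel

theorem t1_3_8 : chkS lk1 1 3 [(1, m1_3)] l1_8
  [(36, 18, 18, 68571936, 70656336), (36, 18, 18, 68571906, 70656081), (103, 528, 528, 52495956, 34628931)]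
  [(36, 24), (103, 12)] = true := by
  decide +kernel

theorem t1_3_9 : chkS lk1 1 3 [(1, m1_3)] l1_9
  [(227, 1, 1, 105972786, 106041411), (108, 1, 1, 88147506, 40177731), (108, 1, 1, 88147491, 40173891)]
  [(108, 24), (227, 12)] = true := by
  decide +kernel

theorem t1_3_10 : chkS lk1 1 3 [(1, m1_3)] l1_10
  [(228, 1, 1, 105972786, 106041411), (107, 1, 1, 72418866, 39194691), (107, 1, 1, 72418851, 39190851)]
  [(107, 24), (228, 12)] = true := by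
  decide +kernel

theorem t1_3_11 : chkS lk1 1 3 [(1, m1_3)] l1_11
  [(107, 16, 16, 52495941, 33645891), (107, 16, 16, 52495956, 34628931), (108, 16, 16, 52495956, 34628931)]
  [(107, 24), (108, 12)] = true := by
  decide +kernel

theorem t1_3_12 : chkS lk1 1 3 [(1, m1_3)] l1_12
  [(229, 1, 1, 105972786, 106041411), (112, 1, 1, 88147506, 40177731), (229, 1, 1, 105972771, 106037571), (112, 1, 1, 88147491, 40173891), (106, 1, 1, 104924466, 103092291), (106, 1, 1, 104924451, 103088451)]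
  [(106, 12), (112, 12), (229, 12)] = true := by
  decide +kernel

theorem t1_3_13 : chkS lk1 1 3 [(1, m1_3)] l1_13
  [(230, 1, 1, 105972786, 106041411), (230, 1, 1, 105972771, 106037571), (108, 16, 16, 102826836, 101721411)]
  [(108, 12), (230, 24)] = true := by
  decide +kernel

theorem t1_3_14 : chkS lk1 1 3 [(1, m1_3)] l1_14
  [(112, 16, 16, 87098946, 39931971), (112, 16, 16, 87098916, 39866691), (105, 16, 16, 103875156, 101732931)]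
  [(105, 12), (112, 24)] = true := by
  decide +kernel

theorem t1_3_15 : chkS lk1 1 3 [(1, m1_3)] l1_15
  [(230, 1, 1, 72418866, 39194691), (231, 1, 1, 105972786, 106041411), (230, 1, 1, 72418851, 39190851), (231, 1, 1, 105972771, 106037571), (107, 16, 16, 102826836, 101721411), (107, 16, 16, 102826821, 100738371)]
  [(107, 12), (230, 12), (231, 12)] = true := by
  decide +kernel

theorem t1_3_16 : chkS lk1 1 3 [(1, m1_3)] l1_16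
  [(232, 1, 1, 5309490, 5378115), (113, 1, 1, 4261170, 2428995), (232, 1, 1, 5309475, 5374275), (113, 1, 1, 4261155, 2425155), (110, 1, 1, 4261170, 2428995), (110, 1, 1, 4261155, 2425155)]
  [(110, 12), (113, 12), (232, 12)] = true := by
  decide +kernel

theorem t1_3_17 : chkS lk1 1 3 [(1, m1_3)] l1_17
  [(113, 16, 16, 3212610, 2183235), (113, 16, 16, 3212580, 2117955), (109, 16, 16, 3211860, 1069635)]
  [(109, 12), (113, 24)] = true := by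
  decide +kernel

theorem t1_3_18 : chkS lk1 1 3 [(1, m1_3)] l1_18
  [(233, 1, 1, 5309490, 5378115), (233, 1, 1, 5309475, 5374275), (111, 16, 16, 2163540, 1058115)]
  [(111, 12), (233, 24)] = true := by
  decide +kernel

theorem t1_3_19 : chkS lk1 1 3 [(1, m1_3)] l1_19
  [(234, 1, 1, 105972786, 106041411), (19, 1, 1, 106181136, 106181136), (19, 1, 1, 106181121, 106181121)]
  [(19, 24), (234, 12)] = true := by
  decide +kernel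

theorem t1_3_20 : chkS lk1 1 3 [(1, m1_3)] l1_20
  [(235, 1, 1, 105972786, 106041411), (112, 16, 16, 105972546, 105979971), (112, 16, 16, 105972516, 105914691)]
  [(112, 24), (235, 12)] = true := by
  decide +kernel

theorem t1_3_21 : chkS lk1 1 3 [(1, m1_3)] l1_21
  [(236, 1, 1, 5309490, 5378115), (113, 16, 16, 5309250, 5316675), (113, 16, 16, 5309220, 5251395)]
  [(113, 24), (236, 12)] = true := by
  decide +kernel

theorem t1_3_22 : chkS lk1 1 3 [(1, m1_3)] l1_22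
  [(237, 1, 1, 66610, 135235), (6, 1, 1, 274960, 274960), (6, 1, 1, 274945, 274945)]
  [(6, 24), (237, 12)] = true := by
  decide +kernel

theorem t1_3_23 : chkS lk1 1 3 [(1, m1_3)] l1_23
  [(238, 1, 1, 5309490, 5378115), (238, 1, 1, 5309475, 5374275), (239, 1, 1, 5309490, 5378115)]
  [(238, 24), (239, 12)] = true := by
  decide +kernel

theorem t1_3_24 : chkS lk1 1 3 [(1, m1_3)] l1_24
  [(240, 1, 1, 66610, 135235)]
  [(240, 36)] = true := by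
  decide +kernel

theorem t1_4_4 : chkS lk1 1 3 [(1, m1_4)] l1_4
  [(104, 258, 33, 106112016, 106054416), (241, 513, 513, 105972786, 106041411), (241, 513, 513, 105972771, 106037571)]
  [(104, 12), (241, 24)] = true := by
  decide +kernel

theorem t1_4_5 : chkS lk1 1 3 [(1, m1_4)] l1_5
  [(242, 513, 513, 105972786, 106041411), (243, 513, 513, 105972786, 106041411), (243, 513, 513, 105972771, 106037571)]
  [(242, 12), (243, 24)] = true := by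
  decide +kernel

theorem t1_4_6 : chkS lk1 1 3 [(1, m1_4)] l1_6
  [(97, 18, 18, 35017776, 70391376), (244, 513, 513, 105972786, 106041411), (97, 18, 18, 35017731, 70387281), (244, 513, 513, 105972771, 106037571), (245, 513, 513, 105972786, 106041411), (245, 513, 513, 105972771, 106037571)]
  [(97, 12), (244, 12), (245, 12)] = true := by
  decide +kernel

theorem t1_4_7 : chkS lk1 1 3 [(1, m1_4)] l1_7
  [(72, 18, 18, 84108321, 56770821), (180, 18, 18, 84173361, 56889861), (180, 18, 18, 84173331, 56885781)]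
  [(72, 12), (180, 24)] = true := by
  decide +kernel

theorem t1_4_8 : chkS lk1 1 3 [(1, m1_4)] l1_8
  [(244, 288, 288, 17113956, 20980581), (244, 288, 288, 17113926, 4268901), (36, 288, 288, 52695141, 17065266)]
  [(36, 12), (244, 24)] = true := by
  decide +kernel

theorem t1_4_9 : chkS lk1 1 3 [(1, m1_4)] l1_9
  [(9, 1, 1, 70320741, 17191491), (246, 1, 1, 105972786, 106041411), (246, 1, 1, 105972771, 106037571)]
  [(9, 12), (246, 24)] = true := by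
  decide +kernel

theorem t1_4_10 : chkS lk1 1 3 [(1, m1_4)] l1_10
  [(247, 1, 1, 105972786, 106041411), (248, 1, 1, 105972786, 106041411), (248, 1, 1, 105972771, 106037571)]
  [(247, 12), (248, 24)] = true := by
  decide +kernel

theorem t1_4_11 : chkS lk1 1 3 [(1, m1_4)] l1_11
  [(249, 1, 1, 105972786, 106041411), (249, 1, 1, 105972771, 106037571), (30, 16, 16, 70386021, 17191971)]
  [(30, 12), (249, 24)] = true := by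
  decide +kernel

theorem t1_4_12 : chkS lk1 1 3 [(1, m1_4)] l1_12
  [(250, 1, 1, 105972786, 106041411), (251, 1, 1, 105972786, 106041411), (250, 1, 1, 105972771, 106037571), (251, 1, 1, 105972771, 106037571), (115, 16, 16, 102961236, 101729586), (115, 16, 16, 102961221, 100746546)]
  [(115, 12), (250, 12), (251, 12)] = true := by
  decide +kernel

theorem t1_4_13 : chkS lk1 1 3 [(1, m1_4)] l1_13
  [(252, 1, 1, 105972786, 106041411), (252, 1, 1, 105972771, 106037571), (117, 16, 16, 102961236, 101729586)]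
  [(117, 12), (252, 24)] = true := by
  decide +kernel

theorem t1_4_14 : chkS lk1 1 3 [(1, m1_4)] l1_14
  [(253, 1, 1, 105972786, 106041411), (253, 1, 1, 105972771, 106037571), (84, 16, 16, 101916756, 101729106)]
  [(84, 12), (253, 24)] = true := by
  decide +kernel

theorem t1_4_15 : chkS lk1 1 3 [(1, m1_4)] l1_15
  [(254, 1, 1, 105972786, 106041411), (255, 1, 1, 105972786, 106041411), (254, 1, 1, 105972771, 106037571), (255, 1, 1, 105972771, 106037571), (116, 16, 16, 102961236, 101729586), (116, 16, 16, 102961221, 100746546)]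
  [(116, 12), (254, 12), (255, 12)] = true := by
  decide +kernel

theorem t1_4_16 : chkS lk1 1 3 [(1, m1_4)] l1_16
  [(256, 1, 1, 5309490, 5378115), (65, 16, 16, 3473730, 4280355), (256, 1, 1, 5309475, 5374275), (65, 16, 16, 3473700, 4215075), (63, 1, 1, 5309490, 5378115), (63, 1, 1, 5309475, 5374275)]
  [(63, 12), (65, 12), (256, 12)] = true := by
  decide +kernel

theorem t1_4_17 : chkS lk1 1 3 [(1, m1_4)] l1_17
  [(64, 1, 1, 5514000, 5514000), (64, 1, 1, 5513985, 5513985), (53, 1, 1, 5309490, 5378115)]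
  [(53, 12), (64, 24)] = true := by
  decide +kernel

theorem t1_4_18 : chkS lk1 1 3 [(1, m1_4)] l1_18
  [(257, 1, 1, 5309490, 5378115), (257, 1, 1, 5309475, 5374275), (118, 16, 16, 2297940, 1066290)]
  [(118, 12), (257, 24)] = true := by
  decide +kernel

theorem t1_4_19 : chkS lk1 1 3 [(1, m1_4)] l1_19
  [(19, 1, 1, 105972291, 105972291), (119, 16, 16, 106106946, 105988146), (119, 16, 16, 106106916, 105922866)]
  [(19, 12), (119, 24)] = true := by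
  decide +kernel

theorem t1_4_20 : chkS lk1 1 3 [(1, m1_4)] l1_20
  [(112, 1, 1, 106112016, 106054416), (120, 16, 16, 106106946, 105988146), (120, 16, 16, 106106916, 105922866)]
  [(112, 12), (120, 24)] = true := by
  decide +kernel

theorem t1_4_21 : chkS lk1 1 3 [(1, m1_4)] l1_21
  [(113, 1, 1, 5448720, 5391120), (68, 1, 1, 5448720, 5391120), (68, 1, 1, 5448705, 5391105)]
  [(68, 24), (113, 12)] = true := by
  decide +kernel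

theorem t1_4_22 : chkS lk1 1 3 [(1, m1_4)] l1_22
  [(6, 1, 1, 66115, 66115), (71, 1, 1, 66610, 135235), (71, 1, 1, 66595, 131395)]
  [(6, 12), (71, 24)] = true := by
  decide +kernel

theorem t1_4_23 : chkS lk1 1 3 [(1, m1_4)] l1_23
  [(258, 1, 1, 5309490, 5378115), (258, 1, 1, 5309475, 5374275), (29, 1, 1, 5309490, 5378115)]
  [(29, 12), (258, 24)] = true := by
  decide +kernel

theorem t1_4_24 : chkS lk1 1 3 [(1, m1_4)] l1_24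
  [(60, 1, 1, 66610, 135235)]
  [(60, 36)] = true := by
  decide +kernel

theorem t1_5_5 : chkS lk1 1 3 [(1, m1_5)] l1_5
  [(259, 513, 513, 106107936, 106053936), (96, 513, 513, 73413906, 86388756), (96, 513, 513, 73598241, 86393091)]
  [(96, 24), (259, 12)] = true := by
  decide +kernel

theorem t1_5_6 : chkS lk1 1 3 [(1, m1_5)] l1_6
  [(244, 18, 18, 35013936, 69408336), (243, 18, 18, 35013456, 68363856), (244, 18, 18, 34891011, 52692561), (243, 18, 18, 34890501, 50603601), (260, 513, 513, 106107936, 106053936), (260, 513, 513, 105985026, 106049601)]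
  [(243, 12), (244, 12), (260, 12)] = true := by
  decide +kernel

theorem t1_5_7 : chkS lk1 1 3 [(1, m1_5)] l1_7
  [(182, 18, 18, 84292641, 73543941), (82, 18, 18, 84291906, 73478181), (82, 18, 18, 84107556, 56639781)]
  [(82, 24), (182, 12)] = true := by
  decide +kernel

theorem t1_5_8 : chkS lk1 1 3 [(1, m1_5)] l1_8
  [(244, 18, 18, 86270211, 56886561), (244, 18, 18, 86393136, 73602336), (242, 33, 258, 67522866, 70651941)]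
  [(242, 12), (244, 24)] = true := by
  decide +kernel

theorem t1_5_9 : chkS lk1 1 3 [(1, m1_5)] l1_9
  [(261, 1, 1, 106107936, 106053936), (34, 16, 16, 88147506, 40177731), (34, 16, 16, 88086051, 40173876)]
  [(34, 24), (261, 12)] = true := by
  decide +kernel

theorem t1_5_10 : chkS lk1 1 3 [(1, m1_5)] l1_10
  [(262, 1, 1, 106107936, 106053936), (100, 1, 1, 72365586, 39202836), (100, 1, 1, 72549921, 39207171)]
  [(100, 24), (262, 12)] = true := by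
  decide +kernel

theorem t1_5_11 : chkS lk1 1 3 [(1, m1_5)] l1_11
  [(263, 1, 1, 106107936, 106053936), (263, 1, 1, 105985026, 106049601), (264, 1, 1, 106107936, 106053936)]
  [(263, 24), (264, 12)] = true := by
  decide +kernel

theorem t1_5_12 : chkS lk1 1 3 [(1, m1_5)] l1_12
  [(265, 1, 1, 106107936, 106053936), (102, 1, 1, 88094226, 40185876), (265, 1, 1, 105985026, 106049601), (102, 1, 1, 88278561, 40190211), (99, 1, 1, 104871186, 103100436), (99, 1, 1, 105055521, 103104771)]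
  [(99, 12), (102, 12), (265, 12)] = true := by
  decide +kernel

theorem t1_5_13 : chkS lk1 1 3 [(1, m1_5)] l1_13
  [(266, 1, 1, 106107936, 106053936), (266, 1, 1, 105985026, 106049601), (264, 1, 1, 72554016, 39207216)]
  [(264, 12), (266, 24)] = true := by
  decide +kernel

theorem t1_5_14 : chkS lk1 1 3 [(1, m1_5)] l1_14
  [(102, 16, 16, 85079616, 39924816), (102, 16, 16, 85140996, 39863121), (267, 1, 1, 106107936, 106053936)]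
  [(102, 24), (267, 12)] = true := by
  decide +kernel

theorem t1_5_15 : chkS lk1 1 3 [(1, m1_5)] l1_15
  [(266, 1, 1, 72554016, 39207216), (268, 1, 1, 106107936, 106053936), (266, 1, 1, 72431106, 39202881), (268, 1, 1, 105985026, 106049601), (263, 1, 1, 72431106, 39202881), (263, 1, 1, 72554016, 39207216)]
  [(263, 12), (266, 12), (268, 12)] = true := by
  decide +kernel

theorem t1_5_16 : chkS lk1 1 3 [(1, m1_5)] l1_16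
  [(269, 1, 1, 5444640, 5390640), (66, 16, 16, 3212610, 2183235), (269, 1, 1, 5321730, 5386305), (66, 16, 16, 3151140, 2117940), (62, 16, 16, 4261170, 2428995), (62, 16, 16, 4199715, 2425140)]
  [(62, 12), (66, 12), (269, 12)] = true := by
  decide +kernel

theorem t1_5_17 : chkS lk1 1 3 [(1, m1_5)] l1_17
  [(66, 1, 1, 4326705, 2429955), (66, 1, 1, 4203795, 2425620), (270, 1, 1, 5444640, 5390640)]
  [(66, 24), (270, 12)] = true := by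
  decide +kernel

theorem t1_5_18 : chkS lk1 1 3 [(1, m1_5)] l1_18
  [(271, 1, 1, 5444640, 5390640), (271, 1, 1, 5321730, 5386305), (272, 1, 1, 5444640, 5390640)]
  [(271, 24), (272, 12)] = true := by
  decide +kernel

theorem t1_5_19 : chkS lk1 1 3 [(1, m1_5)] l1_19
  [(273, 1, 1, 106107936, 106053936), (35, 1, 1, 106038321, 106042371), (35, 1, 1, 105915411, 106038036)]
  [(35, 24), (273, 12)] = true := by
  decide +kernel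

theorem t1_5_20 : chkS lk1 1 3 [(1, m1_5)] l1_20
  [(274, 1, 1, 106107936, 106053936), (102, 16, 16, 106049856, 105985056), (102, 16, 16, 106111236, 105923361)]
  [(102, 24), (274, 12)] = true := by
  decide +kernel

theorem t1_5_21 : chkS lk1 1 3 [(1, m1_5)] l1_21
  [(275, 1, 1, 5444640, 5390640), (66, 1, 1, 5375025, 5379075), (66, 1, 1, 5252115, 5374740)]
  [(66, 24), (275, 12)] = true := by
  decide +kernel

theorem t1_5_22 : chkS lk1 1 3 [(1, m1_5)] l1_22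
  [(276, 1, 1, 201760, 147760), (25, 1, 1, 132145, 136195), (25, 1, 1, 9235, 131860)]
  [(25, 24), (276, 12)] = true := by
  decide +kernel

theorem t1_5_23 : chkS lk1 1 3 [(1, m1_5)] l1_23
  [(277, 1, 1, 5444640, 5390640), (277, 1, 1, 5321730, 5386305), (278, 1, 1, 5444640, 5390640)]
  [(277, 24), (278, 12)] = true := by
  decide +kernel

theorem t1_5_24 : chkS lk1 1 3 [(1, m1_5)] l1_24
  [(279, 1, 1, 201760, 147760)]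
  [(279, 36)] = true := by
  decide +kernel

theorem t1_6_6 : chkS lk1 1 3 [(1, m1_6)] l1_6
  [(177, 528, 528, 39927861, 84088386), (242, 258, 33, 88282656, 40190256), (180, 528, 528, 38879286, 5445186), (244, 513, 513, 72554016, 39207216), (244, 33, 258, 51662946, 20209746), (241, 513, 513, 73602336, 86393136)]
  [(177, 6), (180, 6), (241, 6), (242, 6), (244, 12)] = true := by
  decide +kernel

theorem t1_6_7 : chkS lk1 1 3 [(1, m1_6)] l1_7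
  [(83, 528, 528, 21127221, 50664546), (97, 528, 528, 21193221, 50676321), (177, 18, 18, 100876821, 100876821)]
  [(83, 12), (97, 12), (177, 12)] = true := by
  decide +kernel

theorem t1_6_8 : chkS lk1 1 3 [(1, m1_6)] l1_8
  [(245, 258, 33, 88217136, 40178736), (241, 258, 33, 106042416, 106042416), (96, 258, 33, 88217136, 40178736)]
  [(96, 12), (241, 12), (245, 12)] = true := by
  decide +kernel

theorem t1_6_9 : chkS lk1 1 3 [(1, m1_6)] l1_9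
  [(30, 1, 1, 105923091, 106103316), (246, 1, 1, 105919506, 106049556), (280, 1, 1, 106107936, 106053936)]
  [(30, 12), (246, 12), (280, 12)] = true := by
  decide +kernel

theorem t1_6_10 : chkS lk1 1 3 [(1, m1_6)] l1_10
  [(249, 16, 16, 52453701, 50423076), (248, 1, 1, 105919506, 106049556), (281, 1, 1, 106107936, 106053936)]
  [(248, 12), (249, 12), (281, 12)] = true := by
  decide +kernel

theorem t1_6_11 : chkS lk1 1 3 [(1, m1_6)] l1_11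
  [(282, 1, 1, 106107936, 106053936), (283, 1, 1, 106107936, 106053936), (284, 1, 1, 106107936, 106053936)]
  [(282, 12), (283, 12), (284, 12)] = true := by
  decide +kernel

theorem t1_6_12 : chkS lk1 1 3 [(1, m1_6)] l1_12
  [(253, 1, 1, 104994096, 103093296), (251, 1, 1, 104994096, 103093296), (99, 16, 16, 102781236, 103814436), (267, 16, 16, 102846516, 103814466), (115, 16, 16, 102846516, 103814466), (192, 16, 16, 102846516, 103814466)]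
  [(99, 6), (115, 6), (192, 6), (251, 6), (253, 6), (267, 6)] = true := by
  decide +kernel

theorem t1_6_13 : chkS lk1 1 3 [(1, m1_6)] l1_13
  [(255, 1, 1, 104994096, 103093296), (263, 16, 16, 69296181, 50730306), (186, 16, 16, 69296181, 50730306)]
  [(186, 12), (255, 12), (263, 12)] = true := by
  decide +kernel

theorem t1_6_14 : chkS lk1 1 3 [(1, m1_6)] l1_14
  [(250, 1, 1, 104994096, 103093296), (99, 16, 16, 101929476, 103826001), (85, 16, 16, 101863476, 103814226)]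
  [(85, 12), (99, 12), (250, 12)] = true := by
  decide +kernel

theorem t1_6_15 : chkS lk1 1 3 [(1, m1_6)] l1_15
  [(254, 1, 1, 104994096, 103093296), (252, 1, 1, 104994096, 103093296), (264, 16, 16, 69296181, 50730306), (263, 16, 16, 67330581, 50741781), (187, 16, 16, 69296181, 50730306), (185, 16, 16, 69296181, 50730306)]
  [(185, 6), (187, 6), (252, 6), (254, 6), (263, 6), (264, 6)] = true := by
  decide +kernel

theorem t1_6_16 : chkS lk1 1 3 [(1, m1_6)] l1_16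
  [(64, 1, 1, 3163410, 2314260), (65, 16, 16, 3162450, 1265700), (62, 1, 1, 2183940, 3155265), (270, 16, 16, 2183220, 3151170), (63, 1, 1, 5256210, 5386260), (197, 16, 16, 2183220, 3151170)]
  [(62, 6), (63, 6), (64, 6), (65, 6), (197, 6), (270, 6)] = true := by
  decide +kernel

theorem t1_6_17 : chkS lk1 1 3 [(1, m1_6)] l1_17
  [(256, 1, 1, 4330800, 2430000), (62, 1, 1, 3166740, 3166740), (67, 1, 1, 5256210, 5386260)]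
  [(62, 12), (67, 12), (256, 12)] = true := by
  decide +kernel

theorem t1_6_18 : chkS lk1 1 3 [(1, m1_6)] l1_18
  [(257, 1, 1, 4330800, 2430000), (272, 16, 16, 2179125, 202050), (200, 16, 16, 2179125, 202050)]
  [(200, 12), (257, 12), (272, 12)] = true := by
  decide +kernel

theorem t1_6_19 : chkS lk1 1 3 [(1, m1_6)] l1_19
  [(35, 1, 1, 105985026, 106049601), (119, 16, 16, 105988146, 106106946), (78, 16, 16, 105988131, 106103106)]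
  [(35, 12), (78, 12), (119, 12)] = true := by
  decide +kernel

theorem t1_6_20 : chkS lk1 1 3 [(1, m1_6)] l1_20
  [(102, 1, 1, 106042416, 106042416), (120, 16, 16, 106049601, 105985026), (76, 16, 16, 56709156, 87056706)]
  [(76, 12), (102, 12), (120, 12)] = true := by
  decide +kernel

theorem t1_6_21 : chkS lk1 1 3 [(1, m1_6)] l1_21
  [(66, 16, 16, 5391105, 5448705), (68, 1, 1, 5256210, 5386260), (77, 16, 16, 3231780, 3166530)]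
  [(66, 12), (68, 12), (77, 12)] = true := by
  decide +kernel

theorem t1_6_22 : chkS lk1 1 3 [(1, m1_6)] l1_22
  [(25, 1, 1, 78850, 143425), (71, 1, 1, 136240, 136240), (79, 16, 16, 81955, 196930)]
  [(25, 12), (71, 12), (79, 12)] = true := by
  decide +kernel

theorem t1_6_23 : chkS lk1 1 3 [(1, m1_6)] l1_23
  [(285, 1, 1, 5444640, 5390640), (286, 1, 1, 5444640, 5390640), (287, 1, 1, 5444640, 5390640)]
  [(285, 12), (286, 12), (287, 12)] = true := by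
  decide +kernel

theorem t1_6_24 : chkS lk1 1 3 [(1, m1_6)] l1_24
  [(288, 1, 1, 201760, 147760)]
  [(288, 36)] = true := by
  decide +kernel

theorem t1_7_7 : chkS lk1 1 3 [(1, m1_7)] l1_7
  [(175, 258, 33, 104072481, 103043331), (114, 513, 513, 54920466, 69558291), (114, 513, 513, 54920481, 69558531)]
  [(114, 24), (175, 12)] = true := by
  decide +kernel

theorem t1_7_8 : chkS lk1 1 3 [(1, m1_7)] l1_8
  [(178, 258, 33, 70649121, 69619971), (178, 258, 33, 106169121, 106176771), (74, 258, 33, 56951841, 88236291)]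
  [(74, 12), (178, 24)] = true := by
  decide +kernel

theorem t1_7_9 : chkS lk1 1 3 [(1, m1_7)] l1_9
  [(289, 1, 1, 106173216, 106176816), (28, 16, 16, 52510821, 16999746), (28, 16, 16, 52510806, 1271106)]
  [(28, 24), (289, 12)] = true := by
  decide +kernel

theorem t1_7_10 : chkS lk1 1 3 [(1, m1_7)] l1_10
  [(290, 1, 1, 106173216, 106176816), (212, 1, 1, 106169106, 106176531), (212, 1, 1, 106169121, 106176771)]
  [(212, 24), (290, 12)] = true := by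
  decide +kernel

theorem t1_7_11 : chkS lk1 1 3 [(1, m1_7)] l1_11
  [(291, 1, 1, 106173216, 106176816), (291, 1, 1, 70653216, 69620016), (292, 1, 1, 106173216, 106176816)]
  [(291, 24), (292, 12)] = true := by
  decide +kernel

theorem t1_7_12 : chkS lk1 1 3 [(1, m1_7)] l1_12
  [(192, 1, 1, 104137761, 105009411), (85, 1, 1, 104137746, 105009171), (192, 1, 1, 104137746, 105009171), (85, 1, 1, 104137761, 105009411), (214, 1, 1, 106169106, 106176531), (214, 1, 1, 106169121, 106176771)]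
  [(85, 12), (192, 12), (214, 12)] = true := by
  decide +kernel

theorem t1_7_13 : chkS lk1 1 3 [(1, m1_7)] l1_13
  [(185, 1, 1, 70649121, 69619971), (185, 1, 1, 70649106, 69619731), (217, 16, 16, 102838356, 101725506)]
  [(185, 24), (217, 12)] = true := by
  decide +kernel

theorem t1_7_14 : chkS lk1 1 3 [(1, m1_7)] l1_14
  [(115, 1, 1, 104137761, 105009411), (115, 1, 1, 104137746, 105009171), (215, 16, 16, 102838356, 101725506)]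
  [(115, 24), (215, 12)] = true := by
  decide +kernel

theorem t1_7_15 : chkS lk1 1 3 [(1, m1_7)] l1_15
  [(186, 1, 1, 70649121, 69619971), (187, 1, 1, 70649121, 69619971), (186, 1, 1, 70649106, 69619731), (187, 1, 1, 70649106, 69619731), (216, 16, 16, 102838341, 100742466), (216, 16, 16, 102838356, 101725506)]
  [(186, 12), (187, 12), (216, 12)] = true := by
  decide +kernel

theorem t1_7_16 : chkS lk1 1 3 [(1, m1_7)] l1_16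
  [(197, 1, 1, 3474465, 4346115), (67, 16, 16, 1262160, 1262160), (197, 1, 1, 3474450, 4345875), (67, 16, 16, 1262085, 213585), (218, 1, 1, 5505810, 5513235), (218, 1, 1, 5505825, 5513475)]
  [(67, 12), (197, 12), (218, 12)] = true := by
  decide +kernel

theorem t1_7_17 : chkS lk1 1 3 [(1, m1_7)] l1_17
  [(63, 16, 16, 1262160, 1262160), (63, 16, 16, 1262085, 213585), (219, 16, 16, 2175060, 1062210)]
  [(63, 24), (219, 12)] = true := by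
  decide +kernel

theorem t1_7_18 : chkS lk1 1 3 [(1, m1_7)] l1_18
  [(200, 1, 1, 3409185, 2380035), (200, 1, 1, 3409170, 2379795), (220, 16, 16, 2175045, 79170)]
  [(200, 24), (220, 12)] = true := by
  decide +kernel

theorem t1_7_19 : chkS lk1 1 3 [(1, m1_7)] l1_19
  [(78, 1, 1, 106169121, 106176771), (33, 1, 1, 106107456, 105988656), (33, 1, 1, 106107396, 105923121)]
  [(33, 24), (78, 12)] = true := by
  decide +kernel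

theorem t1_7_20 : chkS lk1 1 3 [(1, m1_7)] l1_20
  [(76, 1, 1, 56951841, 88236291), (88, 16, 16, 105984066, 105984066), (88, 16, 16, 105984036, 105918786)]
  [(76, 12), (88, 24)] = true := by
  decide +kernel

theorem t1_7_21 : chkS lk1 1 3 [(1, m1_7)] l1_21
  [(77, 1, 1, 3474465, 4346115), (89, 16, 16, 5320770, 5320770), (89, 16, 16, 5320740, 5255490)]
  [(77, 12), (89, 24)] = true := by
  decide +kernel

theorem t1_7_22 : chkS lk1 1 3 [(1, m1_7)] l1_22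
  [(79, 1, 1, 262945, 270595), (24, 1, 1, 201280, 82480), (24, 1, 1, 201220, 16945)]
  [(24, 24), (79, 12)] = true := by
  decide +kernel

theorem t1_7_23 : chkS lk1 1 3 [(1, m1_7)] l1_23
  [(293, 1, 1, 5509920, 5513520), (293, 1, 1, 5509890, 5513265), (294, 1, 1, 5509920, 5513520)]
  [(293, 24), (294, 12)] = true := by
  decide +kernel

theorem t1_7_24 : chkS lk1 1 3 [(1, m1_7)] l1_24
  [(295, 1, 1, 267040, 270640)]
  [(295, 36)] = true := by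
  decide +kernel

theorem t1_8_8 : chkS lk1 1 3 [(1, m1_8)] l1_8
  [(224, 258, 33, 106176771, 106169121), (243, 528, 528, 52495956, 34628931), (243, 528, 528, 52495716, 18900291)]
  [(224, 12), (243, 24)] = true := by
  decide +kernel

theorem t1_8_9 : chkS lk1 1 3 [(1, m1_8)] l1_9
  [(30, 1, 1, 106038321, 106042371), (30, 1, 1, 106038081, 105980931), (9, 1, 1, 70387281, 35017731)]
  [(9, 12), (30, 24)] = true := by
  decide +kernel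

theorem t1_8_10 : chkS lk1 1 3 [(1, m1_8)] l1_10
  [(249, 16, 16, 36767316, 34625091), (249, 16, 16, 36767076, 18896451), (247, 1, 1, 106169121, 106176771)]
  [(247, 12), (249, 24)] = true := by
  decide +kernel

theorem t1_8_11 : chkS lk1 1 3 [(1, m1_8)] l1_11
  [(246, 16, 16, 52495956, 34628931), (248, 16, 16, 52495956, 34628931), (248, 16, 16, 52495716, 18900291)]
  [(246, 12), (248, 24)] = true := by
  decide +kernel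

theorem t1_8_12 : chkS lk1 1 3 [(1, m1_8)] l1_12
  [(99, 16, 16, 102827331, 102827331), (99, 16, 16, 102827091, 101844291), (253, 1, 1, 105193731, 105186081), (250, 1, 1, 106169121, 106176771), (253, 1, 1, 105193491, 105186066), (250, 1, 1, 106168881, 106172931)]
  [(99, 12), (250, 12), (253, 12)] = true := by
  decide +kernel

theorem t1_8_13 : chkS lk1 1 3 [(1, m1_8)] l1_13
  [(34, 1, 1, 102962496, 102843696), (254, 16, 16, 103875876, 102781251), (254, 16, 16, 103875156, 101732931)]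
  [(34, 12), (254, 24)] = true := by
  decide +kernel

theorem t1_8_14 : chkS lk1 1 3 [(1, m1_8)] l1_14
  [(98, 16, 16, 102827331, 102827331), (251, 16, 16, 103875876, 102781251), (251, 16, 16, 103875156, 101732931)]
  [(98, 12), (251, 24)] = true := by
  decide +kernel

theorem t1_8_15 : chkS lk1 1 3 [(1, m1_8)] l1_15
  [(100, 16, 16, 102827331, 102827331), (100, 16, 16, 102827091, 101844291), (255, 16, 16, 103875876, 102781251), (252, 16, 16, 103875876, 102781251), (255, 16, 16, 103875156, 101732931), (252, 16, 16, 103875156, 101732931)]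
  [(100, 12), (252, 12), (255, 12)] = true := by
  decide +kernel

theorem t1_8_16 : chkS lk1 1 3 [(1, m1_8)] l1_16
  [(62, 1, 1, 2299200, 2180400), (62, 1, 1, 2298960, 1197360), (64, 1, 1, 3474465, 4346115), (256, 1, 1, 5505825, 5513475), (64, 1, 1, 3473985, 4280835), (256, 1, 1, 5505585, 5509635)]
  [(62, 12), (64, 12), (256, 12)] = true := by
  decide +kernel

theorem t1_8_17 : chkS lk1 1 3 [(1, m1_8)] l1_17
  [(61, 1, 1, 2299200, 2180400), (65, 1, 1, 4522785, 4530435), (65, 1, 1, 4522545, 4526595)]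
  [(61, 12), (65, 24)] = true := by
  decide +kernel

theorem t1_8_18 : chkS lk1 1 3 [(1, m1_8)] l1_18
  [(101, 16, 16, 2164035, 2164035), (257, 16, 16, 3212580, 2117955), (257, 16, 16, 3211860, 1069635)]
  [(101, 12), (257, 24)] = true := by
  decide +kernel

theorem t1_8_19 : chkS lk1 1 3 [(1, m1_8)] l1_19
  [(35, 1, 1, 106173216, 106176816), (35, 1, 1, 106172976, 106172976), (19, 1, 1, 106038321, 106042371)]
  [(19, 12), (35, 24)] = true := by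
  decide +kernel

theorem t1_8_20 : chkS lk1 1 3 [(1, m1_8)] l1_20
  [(102, 16, 16, 105972771, 106037571), (102, 16, 16, 105972291, 105972291), (112, 16, 16, 106111236, 105923361)]
  [(102, 24), (112, 12)] = true := by
  decide +kernel

theorem t1_8_21 : chkS lk1 1 3 [(1, m1_8)] l1_21
  [(66, 1, 1, 5509920, 5513520), (66, 1, 1, 5509680, 5509680), (113, 16, 16, 5447940, 5260065)]
  [(66, 24), (113, 12)] = true := by
  decide +kernel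

theorem t1_8_22 : chkS lk1 1 3 [(1, m1_8)] l1_22
  [(25, 1, 1, 267040, 270640), (25, 1, 1, 266800, 266800), (6, 1, 1, 132145, 136195)]
  [(6, 12), (25, 24)] = true := by
  decide +kernel

theorem t1_8_23 : chkS lk1 1 3 [(1, m1_8)] l1_23
  [(31, 1, 1, 5505825, 5513475), (296, 1, 1, 5509920, 5513520), (296, 1, 1, 5509680, 5509680)]
  [(31, 12), (296, 24)] = true := by
  decide +kernel

theorem t1_8_24 : chkS lk1 1 3 [(1, m1_8)] l1_24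
  [(59, 1, 1, 262945, 270595)]
  [(59, 36)] = true := by
  decide +kernel

theorem t1_9_9 : chkS lk1 1 3 [(1, m1_9)] l1_9
  [(297, 0, 0, 105972786, 106041411), (145, 0, 0, 88147506, 40177731), (145, 0, 0, 88147491, 40173891)]
  [(145, 24), (297, 12)] = true := by
  decide +kernel

theorem t1_9_10 : chkS lk1 1 3 [(1, m1_9)] l1_10
  [(298, 0, 0, 105972786, 106041411), (138, 0, 0, 1393251, 21168726), (138, 0, 0, 1393206, 4395606)]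
  [(138, 24), (298, 12)] = true := by
  decide +kernel

theorem t1_9_11 : chkS lk1 1 3 [(1, m1_9)] l1_11
  [(130, 0, 0, 17122866, 37949541), (130, 0, 0, 17122851, 37945701), (16, 0, 0, 16983141, 16925541)]
  [(16, 12), (130, 24)] = true := by
  decide +kernel

theorem t1_9_12 : chkS lk1 1 3 [(1, m1_9)] l1_12
  [(298, 0, 0, 56689701, 84042051), (138, 0, 0, 51725856, 37970256), (298, 0, 0, 56689746, 85090371), (138, 0, 0, 51725826, 37970001), (130, 0, 0, 33898851, 21169701), (130, 0, 0, 33898806, 4396581)]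
  [(130, 12), (138, 12), (298, 12)] = true := by
  decide +kernel

theorem t1_9_13 : chkS lk1 1 3 [(1, m1_9)] l1_13
  [(138, 0, 0, 33900081, 37950981), (138, 0, 0, 33900051, 37946901), (16, 0, 0, 67314021, 17187621)]
  [(16, 12), (138, 24)] = true := by
  decide +kernel

theorem t1_9_14 : chkS lk1 1 3 [(1, m1_9)] l1_14
  [(130, 0, 0, 51725856, 37970256), (130, 0, 0, 51725826, 37970001), (299, 0, 0, 105972786, 106041411)]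
  [(130, 24), (299, 12)] = true := by
  decide +kernel

theorem t1_9_15 : chkS lk1 1 3 [(1, m1_9)] l1_15
  [(138, 0, 0, 101007921, 105058821), (123, 0, 0, 102056736, 105062736), (138, 0, 0, 101007891, 105054741), (123, 0, 0, 102056706, 105062481), (130, 0, 0, 101007651, 105054501), (130, 0, 0, 101007666, 105058341)]
  [(123, 12), (130, 12), (138, 12)] = true := by
  decide +kernel

theorem t1_9_16 : chkS lk1 1 3 [(1, m1_9)] l1_16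
  [(124, 0, 0, 1393440, 4399440), (139, 0, 0, 1393440, 4399440), (124, 0, 0, 1393410, 4399185), (139, 0, 0, 1393410, 4399185), (48, 0, 0, 205140, 1065765), (48, 0, 0, 205125, 82725)]
  [(48, 12), (124, 12), (139, 12)] = true := by
  decide +kernel

theorem t1_9_17 : chkS lk1 1 3 [(1, m1_9)] l1_17
  [(48, 0, 0, 1254720, 2179920), (48, 0, 0, 1254660, 2114385), (51, 0, 0, 1253460, 1065810)]
  [(48, 24), (51, 12)] = true := by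
  decide +kernel

theorem t1_9_18 : chkS lk1 1 3 [(1, m1_9)] l1_18
  [(300, 0, 0, 5309490, 5378115), (300, 0, 0, 5309475, 5374275), (13, 0, 0, 205140, 1065765)]
  [(13, 12), (300, 24)] = true := by
  decide +kernel

theorem t1_9_19 : chkS lk1 1 3 [(1, m1_9)] l1_19
  [(297, 0, 0, 52495461, 16934211), (16, 0, 0, 106111296, 105988896), (16, 0, 0, 106111236, 105923361)]
  [(16, 24), (297, 12)] = true := by
  decide +kernel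

theorem t1_9_20 : chkS lk1 1 3 [(1, m1_9)] l1_20
  [(145, 0, 0, 52495956, 34628931), (130, 0, 0, 104153376, 105074976), (130, 0, 0, 104153346, 105074721)]
  [(130, 24), (145, 12)] = true := by
  decide +kernel

theorem t1_9_21 : chkS lk1 1 3 [(1, m1_9)] l1_21
  [(146, 0, 0, 3211860, 1069635), (48, 0, 0, 5448000, 5325600), (48, 0, 0, 5447940, 5260065)]
  [(48, 24), (146, 12)] = true := by
  decide +kernel

theorem t1_9_22 : chkS lk1 1 3 [(1, m1_9)] l1_22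
  [(148, 0, 0, 66115, 66115), (22, 0, 0, 205120, 82720), (22, 0, 0, 205060, 17185)]
  [(22, 24), (148, 12)] = true := by
  decide +kernel

theorem t1_9_23 : chkS lk1 1 3 [(1, m1_9)] l1_23
  [(301, 0, 0, 5309490, 5378115), (301, 0, 0, 5309475, 5374275), (147, 0, 0, 2163525, 75075)]
  [(147, 12), (301, 24)] = true := by
  decide +kernel

theorem t1_9_24 : chkS lk1 1 3 [(1, m1_9)] l1_24
  [(149, 0, 0, 66100, 4675)]
  [(149, 36)] = true := by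
  decide +kernel

theorem t1_10_10 : chkS lk1 1 3 [(1, m1_10)] l1_10
  [(302, 0, 0, 105972786, 106041411), (137, 0, 0, 72357411, 39190836), (137, 0, 0, 72418866, 39194691)]
  [(137, 24), (302, 12)] = true := by
  decide +kernel

theorem t1_10_11 : chkS lk1 1 3 [(1, m1_10)] l1_11
  [(133, 0, 0, 17053266, 34877541), (133, 0, 0, 16991781, 33767781), (303, 0, 0, 105972786, 106041411)]
  [(133, 24), (303, 12)] = true := by
  decide +kernel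

theorem t1_10_12 : chkS lk1 1 3 [(1, m1_10)] l1_12
  [(304, 0, 0, 105972786, 106041411), (141, 0, 0, 88086051, 40173876), (304, 0, 0, 105911331, 106037556), (141, 0, 0, 88147506, 40177731), (129, 0, 0, 33837411, 20186661), (129, 0, 0, 33898806, 4396581)]
  [(129, 12), (141, 12), (304, 12)] = true := by
  decide +kernel

theorem t1_10_13 : chkS lk1 1 3 [(1, m1_10)] l1_13
  [(141, 0, 0, 33830481, 34878981), (141, 0, 0, 33768981, 33768981), (303, 0, 0, 72418866, 39194691)]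
  [(141, 24), (303, 12)] = true := by
  decide +kernel

theorem t1_10_14 : chkS lk1 1 3 [(1, m1_10)] l1_14
  [(305, 0, 0, 105972786, 106041411), (305, 0, 0, 105911331, 106037556), (306, 0, 0, 105972786, 106041411)]
  [(305, 24), (306, 12)] = true := by
  decide +kernel

theorem t1_10_15 : chkS lk1 1 3 [(1, m1_10)] l1_15
  [(141, 0, 0, 100938321, 101986821), (307, 0, 0, 105972786, 106041411), (141, 0, 0, 100876821, 100876821), (307, 0, 0, 105911331, 106037556), (133, 0, 0, 100876581, 100876581), (133, 0, 0, 100938066, 101986341)]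
  [(133, 12), (141, 12), (307, 12)] = true := by
  decide +kernel

theorem t1_10_16 : chkS lk1 1 3 [(1, m1_10)] l1_16
  [(308, 0, 0, 5309490, 5378115), (142, 0, 0, 4199715, 2425140), (308, 0, 0, 5248035, 5374260), (142, 0, 0, 4261170, 2428995), (134, 0, 0, 274770, 1323045), (134, 0, 0, 213285, 213285)]
  [(134, 12), (142, 12), (308, 12)] = true := by
  decide +kernel

theorem t1_10_17 : chkS lk1 1 3 [(1, m1_10)] l1_17
  [(150, 0, 0, 1254720, 2179920), (150, 0, 0, 1193220, 2110545), (309, 0, 0, 5309490, 5378115)]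
  [(150, 24), (309, 12)] = true := by
  decide +kernel

theorem t1_10_18 : chkS lk1 1 3 [(1, m1_10)] l1_18
  [(310, 0, 0, 5309490, 5378115), (310, 0, 0, 5248035, 5374260), (311, 0, 0, 5309490, 5378115)]
  [(310, 24), (311, 12)] = true := by
  decide +kernel

theorem t1_10_19 : chkS lk1 1 3 [(1, m1_10)] l1_19
  [(312, 0, 0, 105972786, 106041411), (140, 0, 0, 105911331, 106037556), (140, 0, 0, 105972786, 106041411)]
  [(140, 24), (312, 12)] = true := by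
  decide +kernel

theorem t1_10_20 : chkS lk1 1 3 [(1, m1_10)] l1_20
  [(313, 0, 0, 105972786, 106041411), (305, 0, 0, 73467186, 86380611), (305, 0, 0, 73405731, 86376756)]
  [(305, 24), (313, 12)] = true := by
  decide +kernel

theorem t1_10_21 : chkS lk1 1 3 [(1, m1_10)] l1_21
  [(314, 0, 0, 5309490, 5378115), (150, 0, 0, 5448000, 5325600), (150, 0, 0, 5386500, 5256225)]
  [(150, 24), (314, 12)] = true := by
  decide +kernel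

theorem t1_10_22 : chkS lk1 1 3 [(1, m1_10)] l1_22
  [(315, 0, 0, 66610, 135235), (143, 0, 0, 5155, 131380), (143, 0, 0, 66610, 135235)]
  [(143, 24), (315, 12)] = true := by
  decide +kernel

theorem t1_10_23 : chkS lk1 1 3 [(1, m1_10)] l1_23
  [(316, 0, 0, 5309490, 5378115), (316, 0, 0, 5248035, 5374260), (317, 0, 0, 5309490, 5378115)]
  [(316, 24), (317, 12)] = true := by
  decide +kernel

theorem t1_10_24 : chkS lk1 1 3 [(1, m1_10)] l1_24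
  [(318, 0, 0, 66610, 135235)]
  [(318, 36)] = true := by
  decide +kernel

theorem t1_11_11 : chkS lk1 1 3 [(1, m1_11)] l1_11
  [(132, 0, 0, 70321746, 35016771), (128, 0, 0, 88146786, 23404611), (128, 0, 0, 88147506, 40177731)]
  [(128, 24), (132, 12)] = true := by
  decide +kernel

theorem t1_11_12 : chkS lk1 1 3 [(1, m1_11)] l1_12
  [(305, 0, 0, 51717216, 21128016), (305, 0, 0, 51717696, 37839696), (129, 0, 0, 55641666, 38887491), (303, 0, 0, 51794436, 70279761), (129, 0, 0, 55641186, 22175811), (303, 0, 0, 51793956, 70279506)]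
  [(129, 12), (303, 12), (305, 12)] = true := by
  decide +kernel

theorem t1_11_13 : chkS lk1 1 3 [(1, m1_11)] l1_13
  [(140, 0, 0, 33830481, 34878981), (129, 0, 0, 104923986, 102047811), (129, 0, 0, 104924466, 103092291)]
  [(129, 24), (140, 12)] = true := by
  decide +kernel

theorem t1_11_14 : chkS lk1 1 3 [(1, m1_11)] l1_14
  [(319, 0, 0, 105972786, 106041411), (128, 0, 0, 55641666, 38887491), (128, 0, 0, 55641186, 22175811)]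
  [(128, 24), (319, 12)] = true := by
  decide +kernel

theorem t1_11_15 : chkS lk1 1 3 [(1, m1_11)] l1_15
  [(305, 0, 0, 68494176, 21373776), (305, 0, 0, 68494896, 38146896), (121, 0, 0, 51724806, 4416081), (133, 0, 0, 103875906, 102846531), (121, 0, 0, 51724326, 4415826), (133, 0, 0, 103875666, 101863491)]
  [(121, 12), (133, 12), (305, 12)] = true := by
  decide +kernel

theorem t1_11_16 : chkS lk1 1 3 [(1, m1_11)] l1_16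
  [(150, 0, 0, 3212610, 2183235), (150, 0, 0, 3212370, 1200195), (134, 0, 0, 3212610, 2183235), (125, 0, 0, 1393155, 4391505), (134, 0, 0, 3212370, 1200195), (125, 0, 0, 1392675, 4391250)]
  [(125, 12), (134, 12), (150, 12)] = true := by
  decide +kernel

theorem t1_11_17 : chkS lk1 1 3 [(1, m1_11)] l1_17
  [(55, 0, 0, 3212610, 2183235), (131, 0, 0, 5309250, 5316675), (131, 0, 0, 5309490, 5378115)]
  [(55, 12), (131, 24)] = true := by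
  decide +kernel

theorem t1_11_18 : chkS lk1 1 3 [(1, m1_11)] l1_18
  [(320, 0, 0, 5309490, 5378115), (321, 0, 0, 5309490, 5378115), (321, 0, 0, 5309250, 5316675)]
  [(320, 12), (321, 24)] = true := by
  decide +kernel

theorem t1_11_19 : chkS lk1 1 3 [(1, m1_11)] l1_19
  [(140, 0, 0, 106181121, 106181121), (140, 0, 0, 106180641, 106180866), (16, 0, 0, 105972516, 105914691)]
  [(16, 12), (140, 24)] = true := by
  decide +kernel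

theorem t1_11_20 : chkS lk1 1 3 [(1, m1_11)] l1_20
  [(305, 0, 0, 73736976, 88482576), (305, 0, 0, 73736496, 88478496), (130, 0, 0, 103875906, 102846531)]
  [(130, 12), (305, 24)] = true := by
  decide +kernel

theorem t1_11_21 : chkS lk1 1 3 [(1, m1_11)] l1_21
  [(150, 0, 0, 5309490, 5378115), (150, 0, 0, 5309250, 5316675), (48, 0, 0, 5309220, 5251395)]
  [(48, 12), (150, 24)] = true := by
  decide +kernel

theorem t1_11_22 : chkS lk1 1 3 [(1, m1_11)] l1_22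
  [(143, 0, 0, 274945, 274945), (143, 0, 0, 274465, 274690), (22, 0, 0, 66340, 8515)]
  [(22, 12), (143, 24)] = true := by
  decide +kernel

theorem t1_11_23 : chkS lk1 1 3 [(1, m1_11)] l1_23
  [(136, 0, 0, 3212610, 2183235), (322, 0, 0, 5309490, 5378115), (322, 0, 0, 5309250, 5316675)]
  [(136, 12), (322, 24)] = true := by
  decide +kernel

theorem t1_11_24 : chkS lk1 1 3 [(1, m1_11)] l1_24
  [(151, 0, 0, 66610, 135235)]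
  [(151, 36)] = true := by
  decide +kernel

theorem t1_12_12 : chkS lk1 1 3 [(1, m1_12)] l1_12
  [(323, 0, 0, 106042416, 106042416), (156, 0, 0, 88217136, 40178736), (302, 0, 0, 38999136, 22169136), (133, 0, 0, 88213041, 40178691), (133, 0, 0, 33898851, 21169701), (128, 0, 0, 104990001, 103093251)]
  [(128, 6), (133, 12), (156, 6), (302, 6), (323, 6)] = true := by
  decide +kernel

theorem t1_12_13 : chkS lk1 1 3 [(1, m1_12)] l1_13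
  [(324, 0, 0, 106042416, 106042416), (137, 0, 0, 105058896, 102056496), (303, 0, 0, 72554016, 39207216)]
  [(137, 12), (303, 12), (324, 12)] = true := by
  decide +kernel

theorem t1_12_14 : chkS lk1 1 3 [(1, m1_12)] l1_14
  [(325, 0, 0, 106042416, 106042416), (133, 0, 0, 85079556, 39859281), (306, 0, 0, 38999136, 22169136)]
  [(133, 12), (306, 12), (325, 12)] = true := by
  decide +kernel

theorem t1_12_15 : chkS lk1 1 3 [(1, m1_12)] l1_15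
  [(324, 0, 0, 72488496, 39195696), (326, 0, 0, 106042416, 106042416), (137, 0, 0, 37951056, 34948656), (307, 0, 0, 102962256, 101860656), (129, 0, 0, 100880676, 103825701), (305, 0, 0, 69408096, 19285296)]
  [(129, 6), (137, 6), (305, 6), (307, 6), (324, 6), (326, 6)] = true := by
  decide +kernel

theorem t1_12_16 : chkS lk1 1 3 [(1, m1_12)] l1_16
  [(327, 0, 0, 5379120, 5379120), (157, 0, 0, 4330800, 2430000), (308, 0, 0, 2298960, 1197360), (134, 0, 0, 4326705, 2429955), (150, 0, 0, 274770, 1323045), (131, 0, 0, 4326705, 2429955)]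
  [(131, 6), (134, 6), (150, 6), (157, 6), (308, 6), (327, 6)] = true := by
  decide +kernel

theorem t1_12_17 : chkS lk1 1 3 [(1, m1_12)] l1_17
  [(328, 0, 0, 5379120, 5379120), (134, 0, 0, 1193220, 2110545), (309, 0, 0, 5444640, 5390640)]
  [(134, 12), (309, 12), (328, 12)] = true := by
  decide +kernel

theorem t1_12_18 : chkS lk1 1 3 [(1, m1_12)] l1_18
  [(329, 0, 0, 5379120, 5379120), (330, 0, 0, 5379120, 5379120), (331, 0, 0, 5379120, 5379120)]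
  [(329, 12), (330, 12), (331, 12)] = true := by
  decide +kernel

theorem t1_12_19 : chkS lk1 1 3 [(1, m1_12)] l1_19
  [(332, 0, 0, 106042416, 106042416), (155, 0, 0, 52773216, 21194016), (132, 0, 0, 106038321, 106042371)]
  [(132, 12), (155, 12), (332, 12)] = true := by
  decide +kernel

theorem t1_12_20 : chkS lk1 1 3 [(1, m1_12)] l1_20
  [(333, 0, 0, 106042416, 106042416), (325, 0, 0, 73536816, 86381616), (133, 0, 0, 106049796, 105919521)]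
  [(133, 12), (325, 12), (333, 12)] = true := by
  decide +kernel

theorem t1_12_21 : chkS lk1 1 3 [(1, m1_12)] l1_21
  [(334, 0, 0, 5379120, 5379120), (328, 0, 0, 4330800, 2430000), (134, 0, 0, 5386500, 5256225)]
  [(134, 12), (328, 12), (334, 12)] = true := by
  decide +kernel

theorem t1_12_22 : chkS lk1 1 3 [(1, m1_12)] l1_22
  [(335, 0, 0, 136240, 136240), (70, 0, 0, 201280, 82480), (135, 0, 0, 132145, 136195)]
  [(70, 12), (135, 12), (335, 12)] = true := by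
  decide +kernel

theorem t1_12_23 : chkS lk1 1 3 [(1, m1_12)] l1_23
  [(316, 0, 0, 3277905, 1201155), (336, 0, 0, 5379120, 5379120), (337, 0, 0, 5379120, 5379120)]
  [(316, 12), (336, 12), (337, 12)] = true := by
  decide +kernel

theorem t1_12_24 : chkS lk1 1 3 [(1, m1_12)] l1_24
  [(338, 0, 0, 136240, 136240)]
  [(338, 36)] = true := by
  decide +kernel

theorem t1_13_13 : chkS lk1 1 3 [(1, m1_13)] l1_13
  [(339, 0, 0, 106042416, 106042416), (137, 0, 0, 104989521, 102048771), (137, 0, 0, 104990001, 103093251)]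
  [(137, 24), (339, 12)] = true := by
  decide +kernel

theorem t1_13_14 : chkS lk1 1 3 [(1, m1_13)] l1_14
  [(340, 0, 0, 106042416, 106042416), (129, 0, 0, 51790341, 67330641), (129, 0, 0, 51789861, 67330386)]
  [(129, 24), (340, 12)] = true := by
  decide +kernel

theorem t1_13_15 : chkS lk1 1 3 [(1, m1_13)] l1_15
  [(324, 0, 0, 68571696, 70652496), (324, 0, 0, 68571936, 70656336), (122, 0, 0, 101929476, 103826001), (141, 0, 0, 103941441, 102847491), (122, 0, 0, 101928996, 103825746), (141, 0, 0, 103941201, 101864451)]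
  [(122, 12), (141, 12), (324, 12)] = true := by
  decide +kernel

theorem t1_13_16 : chkS lk1 1 3 [(1, m1_13)] l1_16
  [(157, 0, 0, 1393440, 4399440), (157, 0, 0, 1393200, 4395600), (142, 0, 0, 3278145, 2184195), (125, 0, 0, 1262085, 213585), (142, 0, 0, 3277905, 1201155), (125, 0, 0, 1261605, 213330)]
  [(125, 12), (142, 12), (157, 12)] = true := by
  decide +kernel

theorem t1_13_17 : chkS lk1 1 3 [(1, m1_13)] l1_17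
  [(52, 0, 0, 2299200, 2180400), (134, 0, 0, 1393155, 4391505), (134, 0, 0, 1392675, 4391250)]
  [(52, 12), (134, 24)] = true := by
  decide +kernel

theorem t1_13_18 : chkS lk1 1 3 [(1, m1_13)] l1_18
  [(341, 0, 0, 5379120, 5379120), (342, 0, 0, 5379120, 5379120), (342, 0, 0, 5378880, 5317680)]
  [(341, 12), (342, 24)] = true := by
  decide +kernel

theorem t1_13_19 : chkS lk1 1 3 [(1, m1_13)] l1_19
  [(339, 0, 0, 70391376, 35017776), (339, 0, 0, 70391136, 19289136), (16, 0, 0, 106169121, 106176771)]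
  [(16, 12), (339, 24)] = true := by
  decide +kernel

theorem t1_13_20 : chkS lk1 1 3 [(1, m1_13)] l1_20
  [(324, 0, 0, 70668816, 70668816), (324, 0, 0, 70668576, 70668576), (138, 0, 0, 103941441, 102847491)]
  [(138, 12), (324, 24)] = true := by
  decide +kernel

theorem t1_13_21 : chkS lk1 1 3 [(1, m1_13)] l1_21
  [(157, 0, 0, 3490320, 4411920), (157, 0, 0, 3490080, 4411680), (139, 0, 0, 2299200, 2180400)]
  [(139, 12), (157, 24)] = true := by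
  decide +kernel

theorem t1_13_22 : chkS lk1 1 3 [(1, m1_13)] l1_22
  [(158, 0, 0, 136240, 136240), (158, 0, 0, 136000, 74800), (22, 0, 0, 262945, 270595)]
  [(22, 12), (158, 24)] = true := by
  decide +kernel

theorem t1_13_23 : chkS lk1 1 3 [(1, m1_13)] l1_23
  [(144, 0, 0, 3278145, 2184195), (343, 0, 0, 5379120, 5379120), (343, 0, 0, 5378880, 5317680)]
  [(144, 12), (343, 24)] = true := by
  decide +kernel

theorem t1_13_24 : chkS lk1 1 3 [(1, m1_13)] l1_24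
  [(159, 0, 0, 136240, 136240)]
  [(159, 36)] = true := by
  decide +kernel

theorem t1_14_14 : chkS lk1 1 3 [(1, m1_14)] l1_14
  [(344, 0, 0, 106107936, 106053936), (128, 0, 0, 39195456, 72427056), (128, 0, 0, 39195696, 72488496)]
  [(128, 24), (344, 12)] = true := by
  decide +kernel

theorem t1_14_15 : chkS lk1 1 3 [(1, m1_14)] l1_15
  [(325, 0, 0, 68375136, 20333136), (325, 0, 0, 68376096, 37110096), (303, 0, 0, 68313861, 50734161), (305, 0, 0, 67327506, 37109781), (303, 0, 0, 68313141, 50730066), (305, 0, 0, 67326306, 20332581)]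
  [(303, 12), (305, 12), (325, 12)] = true := by
  decide +kernel

theorem t1_14_16 : chkS lk1 1 3 [(1, m1_14)] l1_16
  [(328, 0, 0, 1266720, 3293520), (328, 0, 0, 1266240, 3228240), (150, 0, 0, 2364720, 2364720), (309, 0, 0, 1200900, 3155025), (150, 0, 0, 2364240, 1320240), (309, 0, 0, 1200180, 3150930)]
  [(150, 12), (309, 12), (328, 12)] = true := by
  decide +kernel

theorem t1_14_17 : chkS lk1 1 3 [(1, m1_14)] l1_17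
  [(345, 0, 0, 5444640, 5390640), (131, 0, 0, 5444160, 5325360), (131, 0, 0, 5444640, 5390640)]
  [(131, 24), (345, 12)] = true := by
  decide +kernel

theorem t1_14_18 : chkS lk1 1 3 [(1, m1_14)] l1_18
  [(346, 0, 0, 5444640, 5390640), (331, 0, 0, 148245, 205845), (331, 0, 0, 147765, 201765)]
  [(331, 24), (346, 12)] = true := by
  decide +kernel

theorem t1_14_19 : chkS lk1 1 3 [(1, m1_14)] l1_19
  [(155, 0, 0, 52762176, 37840176), (155, 0, 0, 52761696, 21128496), (126, 0, 0, 106053891, 106103841)]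
  [(126, 12), (155, 24)] = true := by
  decide +kernel

theorem t1_14_20 : chkS lk1 1 3 [(1, m1_14)] l1_20
  [(325, 0, 0, 73552656, 87434256), (325, 0, 0, 73552176, 87430176), (121, 0, 0, 56774916, 87057441)]
  [(121, 12), (325, 24)] = true := by
  decide +kernel

theorem t1_14_21 : chkS lk1 1 3 [(1, m1_14)] l1_21
  [(328, 0, 0, 4346640, 3482640), (328, 0, 0, 4346160, 3478560), (125, 0, 0, 3297540, 3167265)]
  [(125, 12), (328, 24)] = true := by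
  decide +kernel

theorem t1_14_22 : chkS lk1 1 3 [(1, m1_14)] l1_22
  [(70, 0, 0, 205840, 148240), (70, 0, 0, 205120, 82720), (127, 0, 0, 147715, 197665)]
  [(70, 24), (127, 12)] = true := by
  decide +kernel

theorem t1_14_23 : chkS lk1 1 3 [(1, m1_14)] l1_23
  [(322, 0, 0, 2298960, 1197360), (347, 0, 0, 5444640, 5390640), (347, 0, 0, 5444160, 5325360)]
  [(322, 12), (347, 24)] = true := by
  decide +kernel

theorem t1_14_24 : chkS lk1 1 3 [(1, m1_14)] l1_24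
  [(348, 0, 0, 201760, 147760)]
  [(348, 36)] = true := by
  decide +kernel

theorem t1_15_15 : chkS lk1 1 3 [(1, m1_15)] l1_15
  [(333, 0, 0, 104075856, 101995056), (156, 0, 0, 54923856, 68510256), (137, 0, 0, 39195456, 72427056), (141, 0, 0, 101860611, 102958161), (141, 0, 0, 38146896, 68494896), (313, 0, 0, 103027536, 101983536)]
  [(137, 6), (141, 12), (156, 6), (313, 6), (333, 6)] = true := by
  decide +kernel

theorem t1_15_16 : chkS lk1 1 3 [(1, m1_15)] l1_16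
  [(157, 0, 0, 1262880, 2310480), (334, 0, 0, 3412560, 1331760), (142, 0, 0, 3473985, 4280835), (134, 0, 0, 3473985, 4280835), (314, 0, 0, 2364240, 1320240), (150, 0, 0, 3473985, 4280835)]
  [(134, 6), (142, 6), (150, 6), (157, 6), (314, 6), (334, 6)] = true := by
  decide +kernel

theorem t1_15_17 : chkS lk1 1 3 [(1, m1_15)] l1_17
  [(328, 0, 0, 5509680, 5509680), (125, 0, 0, 5444160, 5325360), (150, 0, 0, 1384515, 4260690)]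
  [(125, 12), (150, 12), (328, 12)] = true := by
  decide +kernel

theorem t1_15_18 : chkS lk1 1 3 [(1, m1_15)] l1_18
  [(349, 0, 0, 5444640, 5390640), (342, 0, 0, 144405, 144405), (350, 0, 0, 5444640, 5390640)]
  [(342, 12), (349, 12), (350, 12)] = true := by
  decide +kernel

theorem t1_15_19 : chkS lk1 1 3 [(1, m1_15)] l1_19
  [(339, 0, 0, 70652496, 68571696), (351, 0, 0, 106107936, 106053936), (140, 0, 0, 106049796, 105919521)]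
  [(140, 12), (339, 12), (351, 12)] = true := by
  decide +kernel

theorem t1_15_20 : chkS lk1 1 3 [(1, m1_15)] l1_20
  [(324, 0, 0, 70652496, 68571696), (352, 0, 0, 106107936, 106053936), (141, 0, 0, 106049796, 105919521)]
  [(141, 12), (324, 12), (352, 12)] = true := by
  decide +kernel

theorem t1_15_21 : chkS lk1 1 3 [(1, m1_15)] l1_21
  [(157, 0, 0, 3478080, 4280880), (353, 0, 0, 5444640, 5390640), (142, 0, 0, 2429760, 4269360)]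
  [(142, 12), (157, 12), (353, 12)] = true := by
  decide +kernel

theorem t1_15_22 : chkS lk1 1 3 [(1, m1_15)] l1_22
  [(158, 0, 0, 266800, 266800), (354, 0, 0, 201760, 147760), (143, 0, 0, 143620, 13345)]
  [(143, 12), (158, 12), (354, 12)] = true := by
  decide +kernel

theorem t1_15_23 : chkS lk1 1 3 [(1, m1_15)] l1_23
  [(317, 0, 0, 2364240, 1320240), (355, 0, 0, 5444640, 5390640), (337, 0, 0, 3412560, 1331760)]
  [(317, 12), (337, 12), (355, 12)] = true := by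
  decide +kernel

theorem t1_15_24 : chkS lk1 1 3 [(1, m1_15)] l1_24
  [(356, 0, 0, 201760, 147760)]
  [(356, 36)] = true := by
  decide +kernel

theorem t1_16_16 : chkS lk1 1 3 [(1, m1_16)] l1_16
  [(335, 0, 0, 201760, 147760), (158, 0, 0, 201760, 147760), (315, 0, 0, 136240, 136240), (143, 0, 0, 12820, 12820), (143, 0, 0, 197665, 147715), (135, 0, 0, 197665, 147715)]
  [(135, 6), (143, 12), (158, 6), (315, 6), (335, 6)] = true := by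
  decide +kernel

theorem t1_16_17 : chkS lk1 1 3 [(1, m1_16)] l1_17
  [(70, 0, 0, 136240, 136240), (143, 0, 0, 266800, 266800), (127, 0, 0, 267040, 270640)]
  [(70, 12), (127, 12), (143, 12)] = true := by
  decide +kernel

theorem t1_16_18 : chkS lk1 1 3 [(1, m1_16)] l1_18
  [(357, 0, 0, 267040, 270640), (358, 0, 0, 267040, 270640), (359, 0, 0, 267040, 270640)]
  [(357, 12), (358, 12), (359, 12)] = true := by
  decide +kernel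

theorem t1_16_19 : chkS lk1 1 3 [(1, m1_16)] l1_19
  [(360, 0, 0, 5509920, 5513520), (52, 0, 0, 5509680, 5509680), (55, 0, 0, 5505825, 5513475)]
  [(52, 12), (55, 12), (360, 12)] = true := by
  decide +kernel

theorem t1_16_20 : chkS lk1 1 3 [(1, m1_16)] l1_20
  [(353, 0, 0, 3282240, 2184240), (328, 0, 0, 4396320, 2441520), (150, 0, 0, 5513475, 5505825)]
  [(150, 12), (328, 12), (353, 12)] = true := by
  decide +kernel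

theorem t1_16_21 : chkS lk1 1 3 [(1, m1_16)] l1_21
  [(354, 0, 0, 201280, 82480), (70, 0, 0, 266800, 266800), (143, 0, 0, 136240, 136240)]
  [(70, 12), (143, 12), (354, 12)] = true := by
  decide +kernel

theorem t1_16_22 : chkS lk1 1 3 [(1, m1_16)] l1_22
  [(361, 0, 0, 4896, 8496), (39, 0, 0, 4656, 4656), (58, 0, 0, 801, 8451)]
  [(39, 12), (58, 12), (361, 12)] = true := by
  decide +kernel

theorem t1_16_23 : chkS lk1 1 3 [(1, m1_16)] l1_23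
  [(318, 0, 0, 136240, 136240), (338, 0, 0, 201760, 147760), (356, 0, 0, 136000, 74800)]
  [(318, 12), (338, 12), (356, 12)] = true := by
  decide +kernel

theorem t1_16_24 : chkS lk1 1 3 [(1, m1_16)] l1_24
  [(362, 0, 0, 4896, 8496)]
  [(362, 36)] = true := by
  decide +kernel

theorem t1_17_17 : chkS lk1 1 3 [(1, m1_17)] l1_17
  [(4, 0, 0, 136240, 136240), (135, 0, 0, 266800, 266800), (135, 0, 0, 267040, 270640)]
  [(4, 12), (135, 24)] = true := by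
  decide +kernel

theorem t1_17_18 : chkS lk1 1 3 [(1, m1_17)] l1_18
  [(45, 0, 0, 74560, 74560), (359, 0, 0, 12820, 12820), (359, 0, 0, 12580, 12580)]
  [(45, 12), (359, 24)] = true := by
  decide +kernel

theorem t1_17_19 : chkS lk1 1 3 [(1, m1_17)] l1_19
  [(52, 0, 0, 5514000, 5514000), (52, 0, 0, 5513520, 5509920), (51, 0, 0, 5509920, 5513520)]
  [(51, 12), (52, 24)] = true := by
  decide +kernel

theorem t1_17_20 : chkS lk1 1 3 [(1, m1_17)] l1_20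
  [(328, 0, 0, 4411920, 3490320), (328, 0, 0, 4411680, 3490080), (48, 0, 0, 5509920, 5513520)]
  [(48, 12), (328, 24)] = true := by
  decide +kernel

theorem t1_17_21 : chkS lk1 1 3 [(1, m1_17)] l1_21
  [(70, 0, 0, 271120, 271120), (70, 0, 0, 270640, 267040), (22, 0, 0, 267040, 270640)]
  [(22, 12), (70, 24)] = true := by
  decide +kernel

theorem t1_17_22 : chkS lk1 1 3 [(1, m1_17)] l1_22
  [(39, 0, 0, 8976, 8976), (39, 0, 0, 8496, 4896), (57, 0, 0, 4896, 8496)]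
  [(39, 24), (57, 12)] = true := by
  decide +kernel

theorem t1_17_23 : chkS lk1 1 3 [(1, m1_17)] l1_23
  [(151, 0, 0, 136000, 74800), (348, 0, 0, 266800, 266800), (348, 0, 0, 267040, 270640)]
  [(151, 12), (348, 24)] = true := by
  decide +kernel

theorem t1_17_24 : chkS lk1 1 3 [(1, m1_17)] l1_24
  [(23, 0, 0, 4896, 8496)]
  [(23, 36)] = true := by
  decide +kernel

theorem t1_18_18 : chkS lk1 1 3 [(1, m1_18)] l1_18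
  [(363, 0, 0, 267040, 270640), (364, 0, 0, 267040, 270640), (364, 0, 0, 266800, 266800)]
  [(363, 12), (364, 24)] = true := by
  decide +kernel

theorem t1_18_19 : chkS lk1 1 3 [(1, m1_18)] l1_19
  [(365, 0, 0, 5509920, 5513520), (365, 0, 0, 5509680, 5509680), (20, 0, 0, 5505825, 5513475)]
  [(20, 12), (365, 24)] = true := by
  decide +kernel

theorem t1_18_20 : chkS lk1 1 3 [(1, m1_18)] l1_20
  [(366, 0, 0, 5509920, 5513520), (366, 0, 0, 5509680, 5509680), (152, 0, 0, 5513475, 5505825)]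
  [(152, 12), (366, 24)] = true := by
  decide +kernel

theorem t1_18_21 : chkS lk1 1 3 [(1, m1_18)] l1_21
  [(367, 0, 0, 267040, 270640), (367, 0, 0, 266800, 266800), (153, 0, 0, 270595, 262945)]
  [(153, 12), (367, 24)] = true := by
  decide +kernel

theorem t1_18_22 : chkS lk1 1 3 [(1, m1_18)] l1_22
  [(368, 0, 0, 4896, 8496), (368, 0, 0, 4656, 4656), (154, 0, 0, 8451, 801)]
  [(154, 12), (368, 24)] = true := by
  decide +kernel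

theorem t1_18_23 : chkS lk1 1 3 [(1, m1_18)] l1_23
  [(369, 0, 0, 267040, 270640), (370, 0, 0, 267040, 270640), (370, 0, 0, 266800, 266800)]
  [(369, 12), (370, 24)] = true := by
  decide +kernel

theorem t1_18_24 : chkS lk1 1 3 [(1, m1_18)] l1_24
  [(371, 0, 0, 4896, 8496)]
  [(371, 36)] = true := by
  decide +kernel

theorem t1_19_19 : chkS lk1 1 3 [(1, m1_19)] l1_19
  [(372, 0, 0, 106112016, 106054416), (18, 0, 0, 106181136, 106181136), (18, 0, 0, 106181121, 106181121)]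
  [(18, 24), (372, 12)] = true := by
  decide +kernel

theorem t1_19_20 : chkS lk1 1 3 [(1, m1_19)] l1_20
  [(15, 0, 0, 88286736, 40190736), (155, 0, 0, 106111296, 105988896), (155, 0, 0, 106111236, 105923361)]
  [(15, 12), (155, 24)] = true := by
  decide +kernel

theorem t1_19_21 : chkS lk1 1 3 [(1, m1_19)] l1_21
  [(50, 0, 0, 5448720, 5391120), (52, 0, 0, 3490320, 4411920), (52, 0, 0, 3490305, 4411905)]
  [(50, 12), (52, 24)] = true := by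
  decide +kernel

theorem t1_19_22 : chkS lk1 1 3 [(1, m1_19)] l1_22
  [(27, 0, 0, 205840, 148240), (4, 0, 0, 274960, 274960), (4, 0, 0, 274945, 274945)]
  [(4, 24), (27, 12)] = true := by
  decide +kernel

theorem t1_19_23 : chkS lk1 1 3 [(1, m1_19)] l1_23
  [(373, 0, 0, 5448720, 5391120), (373, 0, 0, 5448705, 5391105), (14, 0, 0, 2442000, 4400400)]
  [(14, 12), (373, 24)] = true := by
  decide +kernel

theorem t1_19_24 : chkS lk1 1 3 [(1, m1_19)] l1_24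
  [(49, 0, 0, 274960, 274960)]
  [(49, 36)] = true := by
  decide +kernel

theorem t1_20_20 : chkS lk1 1 3 [(1, m1_20)] l1_20
  [(374, 0, 0, 106112016, 106054416), (156, 0, 0, 52843536, 70411536), (156, 0, 0, 52843521, 70411521)]
  [(156, 24), (374, 12)] = true := by
  decide +kernel

theorem t1_20_21 : chkS lk1 1 3 [(1, m1_20)] l1_21
  [(47, 0, 0, 4534800, 4534800), (157, 0, 0, 5448000, 5325600), (157, 0, 0, 5447940, 5260065)]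
  [(47, 12), (157, 24)] = true := by
  decide +kernel

theorem t1_20_22 : chkS lk1 1 3 [(1, m1_20)] l1_22
  [(3, 0, 0, 205840, 148240), (70, 0, 0, 274720, 274720), (70, 0, 0, 274690, 274465)]
  [(3, 12), (70, 24)] = true := by
  decide +kernel

theorem t1_20_23 : chkS lk1 1 3 [(1, m1_20)] l1_23
  [(355, 0, 0, 4400385, 2441985), (355, 0, 0, 4400400, 2442000), (375, 0, 0, 5448720, 5391120)]
  [(355, 24), (375, 12)] = true := by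
  decide +kernel

theorem t1_20_24 : chkS lk1 1 3 [(1, m1_20)] l1_24
  [(46, 0, 0, 271120, 271120)]
  [(46, 36)] = true := by
  decide +kernel

theorem t1_21_21 : chkS lk1 1 3 [(1, m1_21)] l1_21
  [(3, 0, 0, 274960, 274960), (158, 0, 0, 148240, 205840), (158, 0, 0, 148225, 205825)]
  [(3, 12), (158, 24)] = true := by
  decide +kernel

theorem t1_21_22 : chkS lk1 1 3 [(1, m1_21)] l1_22
  [(40, 0, 0, 12816, 12816), (39, 0, 0, 12576, 12576), (39, 0, 0, 12546, 12321)]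
  [(39, 24), (40, 12)] = true := by
  decide +kernel

theorem t1_21_23 : chkS lk1 1 3 [(1, m1_21)] l1_23
  [(356, 0, 0, 274945, 274945), (356, 0, 0, 274960, 274960), (46, 0, 0, 213520, 213520)]
  [(46, 12), (356, 24)] = true := by
  decide +kernel

theorem t1_21_24 : chkS lk1 1 3 [(1, m1_21)] l1_24
  [(2, 0, 0, 12816, 12816)]
  [(2, 36)] = true := by
  decide +kernel

theorem t1_22_22 : chkS lk1 1 3 [(1, m1_22)] l1_22
  [(26, 0, 0, 528, 528), (1, 0, 0, 528, 528), (1, 0, 0, 513, 513)]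
  [(1, 24), (26, 12)] = true := by
  decide +kernel

theorem t1_22_23 : chkS lk1 1 3 [(1, m1_22)] l1_23
  [(362, 0, 0, 8961, 8961), (362, 0, 0, 8976, 8976), (2, 0, 0, 8976, 8976)]
  [(2, 12), (362, 24)] = true := by
  decide +kernel

theorem t1_22_24 : chkS lk1 1 3 [(1, m1_22)] l1_24
  [(38, 0, 0, 528, 528)]
  [(38, 36)] = true := by
  decide +kernel

theorem t1_23_23 : chkS lk1 1 3 [(1, m1_23)] l1_23
  [(376, 0, 0, 267040, 270640), (377, 0, 0, 267040, 270640), (377, 0, 0, 266800, 266800)]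
  [(376, 12), (377, 24)] = true := by
  decide +kernel

theorem t1_23_24 : chkS lk1 1 3 [(1, m1_23)] l1_24
  [(378, 0, 0, 4896, 8496)]
  [(378, 36)] = true := by
  decide +kernel

theorem t1_24_24 : chkS lk1 1 3 [(1, m1_24)] l1_24
  [(0, 0, 0, 528, 528)]
  [(0, 36)] = true := by
  decide +kernel

section

variable {κ ι : Type*} [Fintype κ] [Fintype ι] [Inhabited κ] [Inhabited ι]

noncomputable def F1_0 (E : Env κ ι) : (Fin 1 → κ) → (Fin 3 → ι) → ℝ := op2 (P0 κ) (P1 ι) (fB E 1 3 m1_0)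

noncomputable def F1_1 (E : Env κ ι) : (Fin 1 → κ) → (Fin 3 → ι) → ℝ := op2 (P0 κ) (P1 ι) (fB E 1 3 m1_1)

noncomputable def F1_2 (E : Env κ ι) : (Fin 1 → κ) → (Fin 3 → ι) → ℝ := op2 (P0 κ) (P1 ι) (fB E 1 3 m1_2)

noncomputable def F1_3 (E : Env κ ι) : (Fin 1 → κ) → (Fin 3 → ι) → ℝ := op2 (P0 κ) (P1 ι) (fB E 1 3 m1_3)

noncomputable def F1_4 (E : Env κ ι) : (Fin 1 → κ) → (Fin 3 → ι) → ℝ := op2 (P0 κ) (P1 ι) (fB E 1 3 m1_4)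

noncomputable def F1_5 (E : Env κ ι) : (Fin 1 → κ) → (Fin 3 → ι) → ℝ := op2 (P0 κ) (P1 ι) (fB E 1 3 m1_5)

noncomputable def F1_6 (E : Env κ ι) : (Fin 1 → κ) → (Fin 3 → ι) → ℝ := op2 (P0 κ) (P1 ι) (fB E 1 3 m1_6)

noncomputable def F1_7 (E : Env κ ι) : (Fin 1 → κ) → (Fin 3 → ι) → ℝ := op2 (P0 κ) (P1 ι) (fB E 1 3 m1_7)

noncomputable def F1_8 (E : Env κ ι) : (Fin 1 → κ) → (Fin 3 → ι) → ℝ := op2 (P0 κ) (P1 ι) (fB E 1 3 m1_8)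

noncomputable def F1_9 (E : Env κ ι) : (Fin 1 → κ) → (Fin 3 → ι) → ℝ := op2 (P0 κ) (P1 ι) (fB E 1 3 m1_9)

noncomputable def F1_10 (E : Env κ ι) : (Fin 1 → κ) → (Fin 3 → ι) → ℝ := op2 (P0 κ) (P1 ι) (fB E 1 3 m1_10)

noncomputable def F1_11 (E : Env κ ι) : (Fin 1 → κ) → (Fin 3 → ι) → ℝ := op2 (P0 κ) (P1 ι) (fB E 1 3 m1_11)

noncomputable def F1_12 (E : Env κ ι) : (Fin 1 → κ) → (Fin 3 → ι) → ℝ := op2 (P0 κ) (P1 ι) (fB E 1 3 m1_12)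

noncomputable def F1_13 (E : Env κ ι) : (Fin 1 → κ) → (Fin 3 → ι) → ℝ := op2 (P0 κ) (P1 ι) (fB E 1 3 m1_13)

noncomputable def F1_14 (E : Env κ ι) : (Fin 1 → κ) → (Fin 3 → ι) → ℝ := op2 (P0 κ) (P1 ι) (fB E 1 3 m1_14)

noncomputable def F1_15 (E : Env κ ι) : (Fin 1 → κ) → (Fin 3 → ι) → ℝ := op2 (P0 κ) (P1 ι) (fB E 1 3 m1_15)

noncomputable def F1_16 (E : Env κ ι) : (Fin 1 → κ) → (Fin 3 → ι) → ℝ := op2 (P0 κ) (P1 ι) (fB E 1 3 m1_16)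

noncomputable def F1_17 (E : Env κ ι) : (Fin 1 → κ) → (Fin 3 → ι) → ℝ := op2 (P0 κ) (P1 ι) (fB E 1 3 m1_17)

noncomputable def F1_18 (E : Env κ ι) : (Fin 1 → κ) → (Fin 3 → ι) → ℝ := op2 (P0 κ) (P1 ι) (fB E 1 3 m1_18)

noncomputable def F1_19 (E : Env κ ι) : (Fin 1 → κ) → (Fin 3 → ι) → ℝ := op2 (P0 κ) (P1 ι) (fB E 1 3 m1_19)

noncomputable def F1_20 (E : Env κ ι) : (Fin 1 → κ) → (Fin 3 → ι) → ℝ := op2 (P0 κ) (P1 ι) (fB E 1 3 m1_20)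

noncomputable def F1_21 (E : Env κ ι) : (Fin 1 → κ) → (Fin 3 → ι) → ℝ := op2 (P0 κ) (P1 ι) (fB E 1 3 m1_21)

noncomputable def F1_22 (E : Env κ ι) : (Fin 1 → κ) → (Fin 3 → ι) → ℝ := op2 (P0 κ) (P1 ι) (fB E 1 3 m1_22)

noncomputable def F1_23 (E : Env κ ι) : (Fin 1 → κ) → (Fin 3 → ι) → ℝ := op2 (P0 κ) (P1 ι) (fB E 1 3 m1_23)

noncomputable def F1_24 (E : Env κ ι) : (Fin 1 → κ) → (Fin 3 → ι) → ℝ := op2 (P0 κ) (P1 ι) (fB E 1 3 m1_24)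

def r1_0_0 : List (ℕ × ℤ) := [(11, 24), (160, 12)]

theorem h1_0_0 (E : Env κ ι) : ip (F1_0 E) (F1_0 E) = dotS (ek E lk1) r1_0_0 :=
  op_entryZ E lk1 1 3 _ _ _ _ (pg0 κ) (pg1 ι) m1_0 m1_0 l1_0 z1_0 w1_0 x1_0 (by decide) _ (chkS_sound E lk1 1 3 _ _ _ _ t1_0_0)

def r1_0_1 : List (ℕ × ℤ) := [(81, 12), (91, 12), (161, 12)]

theorem h1_0_1 (E : Env κ ι) : ip (F1_0 E) (F1_1 E) = dotS (ek E lk1) r1_0_1 :=
  op_entryZ E lk1 1 3 _ _ _ _ (pg0 κ) (pg1 ι) m1_0 m1_1 l1_1 z1_1 w1_1 x1_1 (by decide) _ (chkS_sound E lk1 1 3 _ _ _ _ t1_0_1)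

def r1_0_2 : List (ℕ × ℤ) := [(11, 12), (81, 24)]

theorem h1_0_2 (E : Env κ ι) : ip (F1_0 E) (F1_2 E) = dotS (ek E lk1) r1_0_2 :=
  op_entryZ E lk1 1 3 _ _ _ _ (pg0 κ) (pg1 ι) m1_0 m1_2 l1_2 z1_2 w1_2 x1_2 (by decide) _ (chkS_sound E lk1 1 3 _ _ _ _ t1_0_2)

def r1_0_3 : List (ℕ × ℤ) := [(12, 24), (162, 12)]

theorem h1_0_3 (E : Env κ ι) : ip (F1_0 E) (F1_3 E) = dotS (ek E lk1) r1_0_3 :=
  op_entryZ E lk1 1 3 _ _ _ _ (pg0 κ) (pg1 ι) m1_0 m1_3 l1_3 z1_3 w1_3 x1_3 (by decide) _ (chkS_sound E lk1 1 3 _ _ _ _ t1_0_3)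

def r1_0_4 : List (ℕ × ℤ) := [(12, 12), (91, 24)]

theorem h1_0_4 (E : Env κ ι) : ip (F1_0 E) (F1_4 E) = dotS (ek E lk1) r1_0_4 :=
  op_entryZ E lk1 1 3 _ _ _ _ (pg0 κ) (pg1 ι) m1_0 m1_4 l1_4 z1_4 w1_4 x1_4 (by decide) _ (chkS_sound E lk1 1 3 _ _ _ _ t1_0_4)

def r1_0_5 : List (ℕ × ℤ) := [(90, 24), (163, 12)]

theorem h1_0_5 (E : Env κ ι) : ip (F1_0 E) (F1_5 E) = dotS (ek E lk1) r1_0_5 :=
  op_entryZ E lk1 1 3 _ _ _ _ (pg0 κ) (pg1 ι) m1_0 m1_5 l1_5 z1_5 w1_5 x1_5 (by decide) _ (chkS_sound E lk1 1 3 _ _ _ _ t1_0_5)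

def r1_0_6 : List (ℕ × ℤ) := [(73, 12), (90, 12), (91, 12)]

theorem h1_0_6 (E : Env κ ι) : ip (F1_0 E) (F1_6 E) = dotS (ek E lk1) r1_0_6 :=
  op_entryZ E lk1 1 3 _ _ _ _ (pg0 κ) (pg1 ι) m1_0 m1_6 l1_6 z1_6 w1_6 x1_6 (by decide) _ (chkS_sound E lk1 1 3 _ _ _ _ t1_0_6)

def r1_0_7 : List (ℕ × ℤ) := [(73, 12), (81, 24)]

theorem h1_0_7 (E : Env κ ι) : ip (F1_0 E) (F1_7 E) = dotS (ek E lk1) r1_0_7 :=
  op_entryZ E lk1 1 3 _ _ _ _ (pg0 κ) (pg1 ι) m1_0 m1_7 l1_7 z1_7 w1_7 x1_7 (by decide) _ (chkS_sound E lk1 1 3 _ _ _ _ t1_0_7)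

def r1_0_8 : List (ℕ × ℤ) := [(12, 12), (90, 24)]

theorem h1_0_8 (E : Env κ ι) : ip (F1_0 E) (F1_8 E) = dotS (ek E lk1) r1_0_8 :=
  op_entryZ E lk1 1 3 _ _ _ _ (pg0 κ) (pg1 ι) m1_0 m1_8 l1_8 z1_8 w1_8 x1_8 (by decide) _ (chkS_sound E lk1 1 3 _ _ _ _ t1_0_8)

def r1_0_9 : List (ℕ × ℤ) := [(17, 24), (164, 12)]

theorem h1_0_9 (E : Env κ ι) : ip (F1_0 E) (F1_9 E) = dotS (ek E lk1) r1_0_9 :=
  op_entryZ E lk1 1 3 _ _ _ _ (pg0 κ) (pg1 ι) m1_0 m1_9 l1_9 z1_9 w1_9 x1_9 (by decide) _ (chkS_sound E lk1 1 3 _ _ _ _ t1_0_9)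

def r1_0_10 : List (ℕ × ℤ) := [(94, 24), (165, 12)]

theorem h1_0_10 (E : Env κ ι) : ip (F1_0 E) (F1_10 E) = dotS (ek E lk1) r1_0_10 :=
  op_entryZ E lk1 1 3 _ _ _ _ (pg0 κ) (pg1 ι) m1_0 m1_10 l1_10 z1_10 w1_10 x1_10 (by decide) _ (chkS_sound E lk1 1 3 _ _ _ _ t1_0_10)

def r1_0_11 : List (ℕ × ℤ) := [(17, 12), (94, 24)]

theorem h1_0_11 (E : Env κ ι) : ip (F1_0 E) (F1_11 E) = dotS (ek E lk1) r1_0_11 :=
  op_entryZ E lk1 1 3 _ _ _ _ (pg0 κ) (pg1 ι) m1_0 m1_11 l1_11 z1_11 w1_11 x1_11 (by decide) _ (chkS_sound E lk1 1 3 _ _ _ _ t1_0_11)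

def r1_0_12 : List (ℕ × ℤ) := [(93, 12), (95, 12), (166, 12)]

theorem h1_0_12 (E : Env κ ι) : ip (F1_0 E) (F1_12 E) = dotS (ek E lk1) r1_0_12 :=
  op_entryZ E lk1 1 3 _ _ _ _ (pg0 κ) (pg1 ι) m1_0 m1_12 l1_12 z1_12 w1_12 x1_12 (by decide) _ (chkS_sound E lk1 1 3 _ _ _ _ t1_0_12)

def r1_0_13 : List (ℕ × ℤ) := [(17, 12), (167, 24)]

theorem h1_0_13 (E : Env κ ι) : ip (F1_0 E) (F1_13 E) = dotS (ek E lk1) r1_0_13 :=
  op_entryZ E lk1 1 3 _ _ _ _ (pg0 κ) (pg1 ι) m1_0 m1_13 l1_13 z1_13 w1_13 x1_13 (by decide) _ (chkS_sound E lk1 1 3 _ _ _ _ t1_0_13)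

def r1_0_14 : List (ℕ × ℤ) := [(92, 12), (95, 24)]

theorem h1_0_14 (E : Env κ ι) : ip (F1_0 E) (F1_14 E) = dotS (ek E lk1) r1_0_14 :=
  op_entryZ E lk1 1 3 _ _ _ _ (pg0 κ) (pg1 ι) m1_0 m1_14 l1_14 z1_14 w1_14 x1_14 (by decide) _ (chkS_sound E lk1 1 3 _ _ _ _ t1_0_14)

def r1_0_15 : List (ℕ × ℤ) := [(94, 12), (167, 12), (168, 12)]

theorem h1_0_15 (E : Env κ ι) : ip (F1_0 E) (F1_15 E) = dotS (ek E lk1) r1_0_15 :=
  op_entryZ E lk1 1 3 _ _ _ _ (pg0 κ) (pg1 ι) m1_0 m1_15 l1_15 z1_15 w1_15 x1_15 (by decide) _ (chkS_sound E lk1 1 3 _ _ _ _ t1_0_15)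

def r1_0_16 : List (ℕ × ℤ) := [(43, 12), (56, 12), (169, 12)]

theorem h1_0_16 (E : Env κ ι) : ip (F1_0 E) (F1_16 E) = dotS (ek E lk1) r1_0_16 :=
  op_entryZ E lk1 1 3 _ _ _ _ (pg0 κ) (pg1 ι) m1_0 m1_16 l1_16 z1_16 w1_16 x1_16 (by decide) _ (chkS_sound E lk1 1 3 _ _ _ _ t1_0_16)

def r1_0_17 : List (ℕ × ℤ) := [(43, 24), (54, 12)]

theorem h1_0_17 (E : Env κ ι) : ip (F1_0 E) (F1_17 E) = dotS (ek E lk1) r1_0_17 :=
  op_entryZ E lk1 1 3 _ _ _ _ (pg0 κ) (pg1 ι) m1_0 m1_17 l1_17 z1_17 w1_17 x1_17 (by decide) _ (chkS_sound E lk1 1 3 _ _ _ _ t1_0_17)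

def r1_0_18 : List (ℕ × ℤ) := [(21, 12), (170, 24)]

theorem h1_0_18 (E : Env κ ι) : ip (F1_0 E) (F1_18 E) = dotS (ek E lk1) r1_0_18 :=
  op_entryZ E lk1 1 3 _ _ _ _ (pg0 κ) (pg1 ι) m1_0 m1_18 l1_18 z1_18 w1_18 x1_18 (by decide) _ (chkS_sound E lk1 1 3 _ _ _ _ t1_0_18)

def r1_0_19 : List (ℕ × ℤ) := [(10, 24), (171, 12)]

theorem h1_0_19 (E : Env κ ι) : ip (F1_0 E) (F1_19 E) = dotS (ek E lk1) r1_0_19 :=
  op_entryZ E lk1 1 3 _ _ _ _ (pg0 κ) (pg1 ι) m1_0 m1_19 l1_19 z1_19 w1_19 x1_19 (by decide) _ (chkS_sound E lk1 1 3 _ _ _ _ t1_0_19)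

def r1_0_20 : List (ℕ × ℤ) := [(8, 12), (95, 24)]

theorem h1_0_20 (E : Env κ ι) : ip (F1_0 E) (F1_20 E) = dotS (ek E lk1) r1_0_20 :=
  op_entryZ E lk1 1 3 _ _ _ _ (pg0 κ) (pg1 ι) m1_0 m1_20 l1_20 z1_20 w1_20 x1_20 (by decide) _ (chkS_sound E lk1 1 3 _ _ _ _ t1_0_20)

def r1_0_21 : List (ℕ × ℤ) := [(43, 24), (44, 12)]

theorem h1_0_21 (E : Env κ ι) : ip (F1_0 E) (F1_21 E) = dotS (ek E lk1) r1_0_21 :=
  op_entryZ E lk1 1 3 _ _ _ _ (pg0 κ) (pg1 ι) m1_0 m1_21 l1_21 z1_21 w1_21 x1_21 (by decide) _ (chkS_sound E lk1 1 3 _ _ _ _ t1_0_21)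

def r1_0_22 : List (ℕ × ℤ) := [(5, 24), (69, 12)]

theorem h1_0_22 (E : Env κ ι) : ip (F1_0 E) (F1_22 E) = dotS (ek E lk1) r1_0_22 :=
  op_entryZ E lk1 1 3 _ _ _ _ (pg0 κ) (pg1 ι) m1_0 m1_22 l1_22 z1_22 w1_22 x1_22 (by decide) _ (chkS_sound E lk1 1 3 _ _ _ _ t1_0_22)

def r1_0_23 : List (ℕ × ℤ) := [(7, 12), (172, 24)]

theorem h1_0_23 (E : Env κ ι) : ip (F1_0 E) (F1_23 E) = dotS (ek E lk1) r1_0_23 :=
  op_entryZ E lk1 1 3 _ _ _ _ (pg0 κ) (pg1 ι) m1_0 m1_23 l1_23 z1_23 w1_23 x1_23 (by decide) _ (chkS_sound E lk1 1 3 _ _ _ _ t1_0_23)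

def r1_0_24 : List (ℕ × ℤ) := [(42, 36)]

theorem h1_0_24 (E : Env κ ι) : ip (F1_0 E) (F1_24 E) = dotS (ek E lk1) r1_0_24 :=
  op_entryZ E lk1 1 3 _ _ _ _ (pg0 κ) (pg1 ι) m1_0 m1_24 l1_24 z1_24 w1_24 x1_24 (by decide) _ (chkS_sound E lk1 1 3 _ _ _ _ t1_0_24)

def r1_1_1 : List (ℕ × ℤ) := [(80, 6), (83, 12), (114, 6), (173, 6), (174, 6)]

theorem h1_1_1 (E : Env κ ι) : ip (F1_1 E) (F1_1 E) = dotS (ek E lk1) r1_1_1 :=
  op_entryZ E lk1 1 3 _ _ _ _ (pg0 κ) (pg1 ι) m1_1 m1_1 l1_1 z1_1 w1_1 x1_1 (by decide) _ (chkS_sound E lk1 1 3 _ _ _ _ t1_1_1)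

def r1_1_2 : List (ℕ × ℤ) := [(80, 12), (83, 12), (175, 12)]

theorem h1_1_2 (E : Env κ ι) : ip (F1_1 E) (F1_2 E) = dotS (ek E lk1) r1_1_2 :=
  op_entryZ E lk1 1 3 _ _ _ _ (pg0 κ) (pg1 ι) m1_1 m1_2 l1_2 z1_2 w1_2 x1_2 (by decide) _ (chkS_sound E lk1 1 3 _ _ _ _ t1_1_2)

def r1_1_3 : List (ℕ × ℤ) := [(37, 12), (104, 12), (176, 12)]

theorem h1_1_3 (E : Env κ ι) : ip (F1_1 E) (F1_3 E) = dotS (ek E lk1) r1_1_3 :=
  op_entryZ E lk1 1 3 _ _ _ _ (pg0 κ) (pg1 ι) m1_1 m1_3 l1_3 z1_3 w1_3 x1_3 (by decide) _ (chkS_sound E lk1 1 3 _ _ _ _ t1_1_3)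

def r1_1_4 : List (ℕ × ℤ) := [(114, 12), (177, 12), (178, 12)]

theorem h1_1_4 (E : Env κ ι) : ip (F1_1 E) (F1_4 E) = dotS (ek E lk1) r1_1_4 :=
  op_entryZ E lk1 1 3 _ _ _ _ (pg0 κ) (pg1 ι) m1_1 m1_4 l1_4 z1_4 w1_4 x1_4 (by decide) _ (chkS_sound E lk1 1 3 _ _ _ _ t1_1_4)

def r1_1_5 : List (ℕ × ℤ) := [(82, 12), (97, 12), (179, 12)]

theorem h1_1_5 (E : Env κ ι) : ip (F1_1 E) (F1_5 E) = dotS (ek E lk1) r1_1_5 :=
  op_entryZ E lk1 1 3 _ _ _ _ (pg0 κ) (pg1 ι) m1_1 m1_5 l1_5 z1_5 w1_5 x1_5 (by decide) _ (chkS_sound E lk1 1 3 _ _ _ _ t1_1_5)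

def r1_1_6 : List (ℕ × ℤ) := [(97, 6), (114, 6), (178, 6), (180, 6), (181, 6), (182, 6)]

theorem h1_1_6 (E : Env κ ι) : ip (F1_1 E) (F1_6 E) = dotS (ek E lk1) r1_1_6 :=
  op_entryZ E lk1 1 3 _ _ _ _ (pg0 κ) (pg1 ι) m1_1 m1_6 l1_6 z1_6 w1_6 x1_6 (by decide) _ (chkS_sound E lk1 1 3 _ _ _ _ t1_1_6)

def r1_1_7 : List (ℕ × ℤ) := [(80, 12), (83, 12), (181, 12)]

theorem h1_1_7 (E : Env κ ι) : ip (F1_1 E) (F1_7 E) = dotS (ek E lk1) r1_1_7 :=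
  op_entryZ E lk1 1 3 _ _ _ _ (pg0 κ) (pg1 ι) m1_1 m1_7 l1_7 z1_7 w1_7 x1_7 (by decide) _ (chkS_sound E lk1 1 3 _ _ _ _ t1_1_7)

def r1_1_8 : List (ℕ × ℤ) := [(97, 12), (177, 12), (180, 12)]

theorem h1_1_8 (E : Env κ ι) : ip (F1_1 E) (F1_8 E) = dotS (ek E lk1) r1_1_8 :=
  op_entryZ E lk1 1 3 _ _ _ _ (pg0 κ) (pg1 ι) m1_1 m1_8 l1_8 z1_8 w1_8 x1_8 (by decide) _ (chkS_sound E lk1 1 3 _ _ _ _ t1_1_8)

def r1_1_9 : List (ℕ × ℤ) := [(32, 12), (117, 12), (183, 12)]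

theorem h1_1_9 (E : Env κ ι) : ip (F1_1 E) (F1_9 E) = dotS (ek E lk1) r1_1_9 :=
  op_entryZ E lk1 1 3 _ _ _ _ (pg0 κ) (pg1 ι) m1_1 m1_9 l1_9 z1_9 w1_9 x1_9 (by decide) _ (chkS_sound E lk1 1 3 _ _ _ _ t1_1_9)

def r1_1_10 : List (ℕ × ℤ) := [(86, 12), (116, 12), (184, 12)]

theorem h1_1_10 (E : Env κ ι) : ip (F1_1 E) (F1_10 E) = dotS (ek E lk1) r1_1_10 :=
  op_entryZ E lk1 1 3 _ _ _ _ (pg0 κ) (pg1 ι) m1_1 m1_10 l1_10 z1_10 w1_10 x1_10 (by decide) _ (chkS_sound E lk1 1 3 _ _ _ _ t1_1_10)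

def r1_1_11 : List (ℕ × ℤ) := [(185, 12), (186, 12), (187, 12)]

theorem h1_1_11 (E : Env κ ι) : ip (F1_1 E) (F1_11 E) = dotS (ek E lk1) r1_1_11 :=
  op_entryZ E lk1 1 3 _ _ _ _ (pg0 κ) (pg1 ι) m1_1 m1_11 l1_11 z1_11 w1_11 x1_11 (by decide) _ (chkS_sound E lk1 1 3 _ _ _ _ t1_1_11)

def r1_1_12 : List (ℕ × ℤ) := [(85, 6), (88, 6), (115, 6), (120, 6), (188, 6), (189, 6)]

theorem h1_1_12 (E : Env κ ι) : ip (F1_1 E) (F1_12 E) = dotS (ek E lk1) r1_1_12 :=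
  op_entryZ E lk1 1 3 _ _ _ _ (pg0 κ) (pg1 ι) m1_1 m1_12 l1_12 z1_12 w1_12 x1_12 (by decide) _ (chkS_sound E lk1 1 3 _ _ _ _ t1_1_12)

def r1_1_13 : List (ℕ × ℤ) := [(187, 12), (190, 12), (191, 12)]

theorem h1_1_13 (E : Env κ ι) : ip (F1_1 E) (F1_13 E) = dotS (ek E lk1) r1_1_13 :=
  op_entryZ E lk1 1 3 _ _ _ _ (pg0 κ) (pg1 ι) m1_1 m1_13 l1_13 z1_13 w1_13 x1_13 (by decide) _ (chkS_sound E lk1 1 3 _ _ _ _ t1_1_13)

def r1_1_14 : List (ℕ × ℤ) := [(88, 12), (120, 12), (192, 12)]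

theorem h1_1_14 (E : Env κ ι) : ip (F1_1 E) (F1_14 E) = dotS (ek E lk1) r1_1_14 :=
  op_entryZ E lk1 1 3 _ _ _ _ (pg0 κ) (pg1 ι) m1_1 m1_14 l1_14 z1_14 w1_14 x1_14 (by decide) _ (chkS_sound E lk1 1 3 _ _ _ _ t1_1_14)

def r1_1_15 : List (ℕ × ℤ) := [(185, 6), (186, 6), (190, 6), (191, 6), (193, 6), (194, 6)]

theorem h1_1_15 (E : Env κ ι) : ip (F1_1 E) (F1_15 E) = dotS (ek E lk1) r1_1_15 :=
  op_entryZ E lk1 1 3 _ _ _ _ (pg0 κ) (pg1 ι) m1_1 m1_15 l1_15 z1_15 w1_15 x1_15 (by decide) _ (chkS_sound E lk1 1 3 _ _ _ _ t1_1_15)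

def r1_1_16 : List (ℕ × ℤ) := [(63, 6), (67, 6), (68, 6), (89, 6), (195, 6), (196, 6)]

theorem h1_1_16 (E : Env κ ι) : ip (F1_1 E) (F1_16 E) = dotS (ek E lk1) r1_1_16 :=
  op_entryZ E lk1 1 3 _ _ _ _ (pg0 κ) (pg1 ι) m1_1 m1_16 l1_16 z1_16 w1_16 x1_16 (by decide) _ (chkS_sound E lk1 1 3 _ _ _ _ t1_1_16)

def r1_1_17 : List (ℕ × ℤ) := [(68, 12), (89, 12), (197, 12)]

theorem h1_1_17 (E : Env κ ι) : ip (F1_1 E) (F1_17 E) = dotS (ek E lk1) r1_1_17 :=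
  op_entryZ E lk1 1 3 _ _ _ _ (pg0 κ) (pg1 ι) m1_1 m1_17 l1_17 z1_17 w1_17 x1_17 (by decide) _ (chkS_sound E lk1 1 3 _ _ _ _ t1_1_17)

def r1_1_18 : List (ℕ × ℤ) := [(198, 12), (199, 12), (200, 12)]

theorem h1_1_18 (E : Env κ ι) : ip (F1_1 E) (F1_18 E) = dotS (ek E lk1) r1_1_18 :=
  op_entryZ E lk1 1 3 _ _ _ _ (pg0 κ) (pg1 ι) m1_1 m1_18 l1_18 z1_18 w1_18 x1_18 (by decide) _ (chkS_sound E lk1 1 3 _ _ _ _ t1_1_18)

def r1_1_19 : List (ℕ × ℤ) := [(33, 12), (119, 12), (201, 12)]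

theorem h1_1_19 (E : Env κ ι) : ip (F1_1 E) (F1_19 E) = dotS (ek E lk1) r1_1_19 :=
  op_entryZ E lk1 1 3 _ _ _ _ (pg0 κ) (pg1 ι) m1_1 m1_19 l1_19 z1_19 w1_19 x1_19 (by decide) _ (chkS_sound E lk1 1 3 _ _ _ _ t1_1_19)

def r1_1_20 : List (ℕ × ℤ) := [(88, 12), (120, 12), (202, 12)]

theorem h1_1_20 (E : Env κ ι) : ip (F1_1 E) (F1_20 E) = dotS (ek E lk1) r1_1_20 :=
  op_entryZ E lk1 1 3 _ _ _ _ (pg0 κ) (pg1 ι) m1_1 m1_20 l1_20 z1_20 w1_20 x1_20 (by decide) _ (chkS_sound E lk1 1 3 _ _ _ _ t1_1_20)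

def r1_1_21 : List (ℕ × ℤ) := [(68, 12), (89, 12), (203, 12)]

theorem h1_1_21 (E : Env κ ι) : ip (F1_1 E) (F1_21 E) = dotS (ek E lk1) r1_1_21 :=
  op_entryZ E lk1 1 3 _ _ _ _ (pg0 κ) (pg1 ι) m1_1 m1_21 l1_21 z1_21 w1_21 x1_21 (by decide) _ (chkS_sound E lk1 1 3 _ _ _ _ t1_1_21)

def r1_1_22 : List (ℕ × ℤ) := [(24, 12), (71, 12), (204, 12)]

theorem h1_1_22 (E : Env κ ι) : ip (F1_1 E) (F1_22 E) = dotS (ek E lk1) r1_1_22 :=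
  op_entryZ E lk1 1 3 _ _ _ _ (pg0 κ) (pg1 ι) m1_1 m1_22 l1_22 z1_22 w1_22 x1_22 (by decide) _ (chkS_sound E lk1 1 3 _ _ _ _ t1_1_22)

def r1_1_23 : List (ℕ × ℤ) := [(205, 12), (206, 12), (207, 12)]

theorem h1_1_23 (E : Env κ ι) : ip (F1_1 E) (F1_23 E) = dotS (ek E lk1) r1_1_23 :=
  op_entryZ E lk1 1 3 _ _ _ _ (pg0 κ) (pg1 ι) m1_1 m1_23 l1_23 z1_23 w1_23 x1_23 (by decide) _ (chkS_sound E lk1 1 3 _ _ _ _ t1_1_23)

def r1_1_24 : List (ℕ × ℤ) := [(208, 36)]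

theorem h1_1_24 (E : Env κ ι) : ip (F1_1 E) (F1_24 E) = dotS (ek E lk1) r1_1_24 :=
  op_entryZ E lk1 1 3 _ _ _ _ (pg0 κ) (pg1 ι) m1_1 m1_24 l1_24 z1_24 w1_24 x1_24 (by decide) _ (chkS_sound E lk1 1 3 _ _ _ _ t1_1_24)

def r1_2_2 : List (ℕ × ℤ) := [(80, 24), (81, 12)]

theorem h1_2_2 (E : Env κ ι) : ip (F1_2 E) (F1_2 E) = dotS (ek E lk1) r1_2_2 :=
  op_entryZ E lk1 1 3 _ _ _ _ (pg0 κ) (pg1 ι) m1_2 m1_2 l1_2 z1_2 w1_2 x1_2 (by decide) _ (chkS_sound E lk1 1 3 _ _ _ _ t1_2_2)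

def r1_2_3 : List (ℕ × ℤ) := [(37, 24), (209, 12)]

theorem h1_2_3 (E : Env κ ι) : ip (F1_2 E) (F1_3 E) = dotS (ek E lk1) r1_2_3 :=
  op_entryZ E lk1 1 3 _ _ _ _ (pg0 κ) (pg1 ι) m1_2 m1_3 l1_3 z1_3 w1_3 x1_3 (by decide) _ (chkS_sound E lk1 1 3 _ _ _ _ t1_2_3)

def r1_2_4 : List (ℕ × ℤ) := [(37, 12), (83, 24)]

theorem h1_2_4 (E : Env κ ι) : ip (F1_2 E) (F1_4 E) = dotS (ek E lk1) r1_2_4 :=
  op_entryZ E lk1 1 3 _ _ _ _ (pg0 κ) (pg1 ι) m1_2 m1_4 l1_4 z1_4 w1_4 x1_4 (by decide) _ (chkS_sound E lk1 1 3 _ _ _ _ t1_2_4)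

def r1_2_5 : List (ℕ × ℤ) := [(82, 24), (210, 12)]

theorem h1_2_5 (E : Env κ ι) : ip (F1_2 E) (F1_5 E) = dotS (ek E lk1) r1_2_5 :=
  op_entryZ E lk1 1 3 _ _ _ _ (pg0 κ) (pg1 ι) m1_2 m1_5 l1_5 z1_5 w1_5 x1_5 (by decide) _ (chkS_sound E lk1 1 3 _ _ _ _ t1_2_5)

def r1_2_6 : List (ℕ × ℤ) := [(72, 12), (82, 12), (83, 12)]

theorem h1_2_6 (E : Env κ ι) : ip (F1_2 E) (F1_6 E) = dotS (ek E lk1) r1_2_6 :=
  op_entryZ E lk1 1 3 _ _ _ _ (pg0 κ) (pg1 ι) m1_2 m1_6 l1_6 z1_6 w1_6 x1_6 (by decide) _ (chkS_sound E lk1 1 3 _ _ _ _ t1_2_6)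

def r1_2_7 : List (ℕ × ℤ) := [(72, 12), (80, 24)]

theorem h1_2_7 (E : Env κ ι) : ip (F1_2 E) (F1_7 E) = dotS (ek E lk1) r1_2_7 :=
  op_entryZ E lk1 1 3 _ _ _ _ (pg0 κ) (pg1 ι) m1_2 m1_7 l1_7 z1_7 w1_7 x1_7 (by decide) _ (chkS_sound E lk1 1 3 _ _ _ _ t1_2_7)

def r1_2_8 : List (ℕ × ℤ) := [(37, 12), (82, 24)]

theorem h1_2_8 (E : Env κ ι) : ip (F1_2 E) (F1_8 E) = dotS (ek E lk1) r1_2_8 :=
  op_entryZ E lk1 1 3 _ _ _ _ (pg0 κ) (pg1 ι) m1_2 m1_8 l1_8 z1_8 w1_8 x1_8 (by decide) _ (chkS_sound E lk1 1 3 _ _ _ _ t1_2_8)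

def r1_2_9 : List (ℕ × ℤ) := [(28, 24), (211, 12)]

theorem h1_2_9 (E : Env κ ι) : ip (F1_2 E) (F1_9 E) = dotS (ek E lk1) r1_2_9 :=
  op_entryZ E lk1 1 3 _ _ _ _ (pg0 κ) (pg1 ι) m1_2 m1_9 l1_9 z1_9 w1_9 x1_9 (by decide) _ (chkS_sound E lk1 1 3 _ _ _ _ t1_2_9)

def r1_2_10 : List (ℕ × ℤ) := [(212, 24), (213, 12)]

theorem h1_2_10 (E : Env κ ι) : ip (F1_2 E) (F1_10 E) = dotS (ek E lk1) r1_2_10 :=
  op_entryZ E lk1 1 3 _ _ _ _ (pg0 κ) (pg1 ι) m1_2 m1_10 l1_10 z1_10 w1_10 x1_10 (by decide) _ (chkS_sound E lk1 1 3 _ _ _ _ t1_2_10)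

def r1_2_11 : List (ℕ × ℤ) := [(28, 12), (212, 24)]

theorem h1_2_11 (E : Env κ ι) : ip (F1_2 E) (F1_11 E) = dotS (ek E lk1) r1_2_11 :=
  op_entryZ E lk1 1 3 _ _ _ _ (pg0 κ) (pg1 ι) m1_2 m1_11 l1_11 z1_11 w1_11 x1_11 (by decide) _ (chkS_sound E lk1 1 3 _ _ _ _ t1_2_11)

def r1_2_12 : List (ℕ × ℤ) := [(85, 12), (214, 12), (215, 12)]

theorem h1_2_12 (E : Env κ ι) : ip (F1_2 E) (F1_12 E) = dotS (ek E lk1) r1_2_12 :=
  op_entryZ E lk1 1 3 _ _ _ _ (pg0 κ) (pg1 ι) m1_2 m1_12 l1_12 z1_12 w1_12 x1_12 (by decide) _ (chkS_sound E lk1 1 3 _ _ _ _ t1_2_12)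

def r1_2_13 : List (ℕ × ℤ) := [(32, 12), (216, 24)]

theorem h1_2_13 (E : Env κ ι) : ip (F1_2 E) (F1_13 E) = dotS (ek E lk1) r1_2_13 :=
  op_entryZ E lk1 1 3 _ _ _ _ (pg0 κ) (pg1 ι) m1_2 m1_13 l1_13 z1_13 w1_13 x1_13 (by decide) _ (chkS_sound E lk1 1 3 _ _ _ _ t1_2_13)

def r1_2_14 : List (ℕ × ℤ) := [(84, 12), (214, 24)]

theorem h1_2_14 (E : Env κ ι) : ip (F1_2 E) (F1_14 E) = dotS (ek E lk1) r1_2_14 :=
  op_entryZ E lk1 1 3 _ _ _ _ (pg0 κ) (pg1 ι) m1_2 m1_14 l1_14 z1_14 w1_14 x1_14 (by decide) _ (chkS_sound E lk1 1 3 _ _ _ _ t1_2_14)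

def r1_2_15 : List (ℕ × ℤ) := [(86, 12), (216, 12), (217, 12)]

theorem h1_2_15 (E : Env κ ι) : ip (F1_2 E) (F1_15 E) = dotS (ek E lk1) r1_2_15 :=
  op_entryZ E lk1 1 3 _ _ _ _ (pg0 κ) (pg1 ι) m1_2 m1_15 l1_15 z1_15 w1_15 x1_15 (by decide) _ (chkS_sound E lk1 1 3 _ _ _ _ t1_2_15)

def r1_2_16 : List (ℕ × ℤ) := [(67, 12), (218, 12), (219, 12)]

theorem h1_2_16 (E : Env κ ι) : ip (F1_2 E) (F1_16 E) = dotS (ek E lk1) r1_2_16 :=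
  op_entryZ E lk1 1 3 _ _ _ _ (pg0 κ) (pg1 ι) m1_2 m1_16 l1_16 z1_16 w1_16 x1_16 (by decide) _ (chkS_sound E lk1 1 3 _ _ _ _ t1_2_16)

def r1_2_17 : List (ℕ × ℤ) := [(53, 12), (218, 24)]

theorem h1_2_17 (E : Env κ ι) : ip (F1_2 E) (F1_17 E) = dotS (ek E lk1) r1_2_17 :=
  op_entryZ E lk1 1 3 _ _ _ _ (pg0 κ) (pg1 ι) m1_2 m1_17 l1_17 z1_17 w1_17 x1_17 (by decide) _ (chkS_sound E lk1 1 3 _ _ _ _ t1_2_17)

def r1_2_18 : List (ℕ × ℤ) := [(87, 12), (220, 24)]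

theorem h1_2_18 (E : Env κ ι) : ip (F1_2 E) (F1_18 E) = dotS (ek E lk1) r1_2_18 :=
  op_entryZ E lk1 1 3 _ _ _ _ (pg0 κ) (pg1 ι) m1_2 m1_18 l1_18 z1_18 w1_18 x1_18 (by decide) _ (chkS_sound E lk1 1 3 _ _ _ _ t1_2_18)

def r1_2_19 : List (ℕ × ℤ) := [(10, 12), (33, 24)]

theorem h1_2_19 (E : Env κ ι) : ip (F1_2 E) (F1_19 E) = dotS (ek E lk1) r1_2_19 :=
  op_entryZ E lk1 1 3 _ _ _ _ (pg0 κ) (pg1 ι) m1_2 m1_19 l1_19 z1_19 w1_19 x1_19 (by decide) _ (chkS_sound E lk1 1 3 _ _ _ _ t1_2_19)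

def r1_2_20 : List (ℕ × ℤ) := [(88, 24), (95, 12)]

theorem h1_2_20 (E : Env κ ι) : ip (F1_2 E) (F1_20 E) = dotS (ek E lk1) r1_2_20 :=
  op_entryZ E lk1 1 3 _ _ _ _ (pg0 κ) (pg1 ι) m1_2 m1_20 l1_20 z1_20 w1_20 x1_20 (by decide) _ (chkS_sound E lk1 1 3 _ _ _ _ t1_2_20)

def r1_2_21 : List (ℕ × ℤ) := [(43, 12), (89, 24)]

theorem h1_2_21 (E : Env κ ι) : ip (F1_2 E) (F1_21 E) = dotS (ek E lk1) r1_2_21 :=
  op_entryZ E lk1 1 3 _ _ _ _ (pg0 κ) (pg1 ι) m1_2 m1_21 l1_21 z1_21 w1_21 x1_21 (by decide) _ (chkS_sound E lk1 1 3 _ _ _ _ t1_2_21)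

def r1_2_22 : List (ℕ × ℤ) := [(5, 12), (24, 24)]

theorem h1_2_22 (E : Env κ ι) : ip (F1_2 E) (F1_22 E) = dotS (ek E lk1) r1_2_22 :=
  op_entryZ E lk1 1 3 _ _ _ _ (pg0 κ) (pg1 ι) m1_2 m1_22 l1_22 z1_22 w1_22 x1_22 (by decide) _ (chkS_sound E lk1 1 3 _ _ _ _ t1_2_22)

def r1_2_23 : List (ℕ × ℤ) := [(221, 12), (222, 24)]

theorem h1_2_23 (E : Env κ ι) : ip (F1_2 E) (F1_23 E) = dotS (ek E lk1) r1_2_23 :=
  op_entryZ E lk1 1 3 _ _ _ _ (pg0 κ) (pg1 ι) m1_2 m1_23 l1_23 z1_23 w1_23 x1_23 (by decide) _ (chkS_sound E lk1 1 3 _ _ _ _ t1_2_23)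

def r1_2_24 : List (ℕ × ℤ) := [(41, 36)]

theorem h1_2_24 (E : Env κ ι) : ip (F1_2 E) (F1_24 E) = dotS (ek E lk1) r1_2_24 :=
  op_entryZ E lk1 1 3 _ _ _ _ (pg0 κ) (pg1 ι) m1_2 m1_24 l1_24 z1_24 w1_24 x1_24 (by decide) _ (chkS_sound E lk1 1 3 _ _ _ _ t1_2_24)

def r1_3_3 : List (ℕ × ℤ) := [(103, 24), (223, 12)]

theorem h1_3_3 (E : Env κ ι) : ip (F1_3 E) (F1_3 E) = dotS (ek E lk1) r1_3_3 :=
  op_entryZ E lk1 1 3 _ _ _ _ (pg0 κ) (pg1 ι) m1_3 m1_3 l1_3 z1_3 w1_3 x1_3 (by decide) _ (chkS_sound E lk1 1 3 _ _ _ _ t1_3_3)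

def r1_3_4 : List (ℕ × ℤ) := [(103, 12), (224, 24)]

theorem h1_3_4 (E : Env κ ι) : ip (F1_3 E) (F1_4 E) = dotS (ek E lk1) r1_3_4 :=
  op_entryZ E lk1 1 3 _ _ _ _ (pg0 κ) (pg1 ι) m1_3 m1_4 l1_4 z1_4 w1_4 x1_4 (by decide) _ (chkS_sound E lk1 1 3 _ _ _ _ t1_3_4)

def r1_3_5 : List (ℕ × ℤ) := [(36, 24), (225, 12)]

theorem h1_3_5 (E : Env κ ι) : ip (F1_3 E) (F1_5 E) = dotS (ek E lk1) r1_3_5 :=
  op_entryZ E lk1 1 3 _ _ _ _ (pg0 κ) (pg1 ι) m1_3 m1_5 l1_5 z1_5 w1_5 x1_5 (by decide) _ (chkS_sound E lk1 1 3 _ _ _ _ t1_3_5)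

def r1_3_6 : List (ℕ × ℤ) := [(36, 12), (224, 12), (226, 12)]

theorem h1_3_6 (E : Env κ ι) : ip (F1_3 E) (F1_6 E) = dotS (ek E lk1) r1_3_6 :=
  op_entryZ E lk1 1 3 _ _ _ _ (pg0 κ) (pg1 ι) m1_3 m1_6 l1_6 z1_6 w1_6 x1_6 (by decide) _ (chkS_sound E lk1 1 3 _ _ _ _ t1_3_6)

def r1_3_7 : List (ℕ × ℤ) := [(37, 24), (75, 12)]

theorem h1_3_7 (E : Env κ ι) : ip (F1_3 E) (F1_7 E) = dotS (ek E lk1) r1_3_7 :=
  op_entryZ E lk1 1 3 _ _ _ _ (pg0 κ) (pg1 ι) m1_3 m1_7 l1_7 z1_7 w1_7 x1_7 (by decide) _ (chkS_sound E lk1 1 3 _ _ _ _ t1_3_7)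

def r1_3_8 : List (ℕ × ℤ) := [(36, 24), (103, 12)]

theorem h1_3_8 (E : Env κ ι) : ip (F1_3 E) (F1_8 E) = dotS (ek E lk1) r1_3_8 :=
  op_entryZ E lk1 1 3 _ _ _ _ (pg0 κ) (pg1 ι) m1_3 m1_8 l1_8 z1_8 w1_8 x1_8 (by decide) _ (chkS_sound E lk1 1 3 _ _ _ _ t1_3_8)

def r1_3_9 : List (ℕ × ℤ) := [(108, 24), (227, 12)]

theorem h1_3_9 (E : Env κ ι) : ip (F1_3 E) (F1_9 E) = dotS (ek E lk1) r1_3_9 :=
  op_entryZ E lk1 1 3 _ _ _ _ (pg0 κ) (pg1 ι) m1_3 m1_9 l1_9 z1_9 w1_9 x1_9 (by decide) _ (chkS_sound E lk1 1 3 _ _ _ _ t1_3_9)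

def r1_3_10 : List (ℕ × ℤ) := [(107, 24), (228, 12)]

theorem h1_3_10 (E : Env κ ι) : ip (F1_3 E) (F1_10 E) = dotS (ek E lk1) r1_3_10 :=
  op_entryZ E lk1 1 3 _ _ _ _ (pg0 κ) (pg1 ι) m1_3 m1_10 l1_10 z1_10 w1_10 x1_10 (by decide) _ (chkS_sound E lk1 1 3 _ _ _ _ t1_3_10)

def r1_3_11 : List (ℕ × ℤ) := [(107, 24), (108, 12)]

theorem h1_3_11 (E : Env κ ι) : ip (F1_3 E) (F1_11 E) = dotS (ek E lk1) r1_3_11 :=
  op_entryZ E lk1 1 3 _ _ _ _ (pg0 κ) (pg1 ι) m1_3 m1_11 l1_11 z1_11 w1_11 x1_11 (by decide) _ (chkS_sound E lk1 1 3 _ _ _ _ t1_3_11)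

def r1_3_12 : List (ℕ × ℤ) := [(106, 12), (112, 12), (229, 12)]

theorem h1_3_12 (E : Env κ ι) : ip (F1_3 E) (F1_12 E) = dotS (ek E lk1) r1_3_12 :=
  op_entryZ E lk1 1 3 _ _ _ _ (pg0 κ) (pg1 ι) m1_3 m1_12 l1_12 z1_12 w1_12 x1_12 (by decide) _ (chkS_sound E lk1 1 3 _ _ _ _ t1_3_12)

def r1_3_13 : List (ℕ × ℤ) := [(108, 12), (230, 24)]

theorem h1_3_13 (E : Env κ ι) : ip (F1_3 E) (F1_13 E) = dotS (ek E lk1) r1_3_13 :=
  op_entryZ E lk1 1 3 _ _ _ _ (pg0 κ) (pg1 ι) m1_3 m1_13 l1_13 z1_13 w1_13 x1_13 (by decide) _ (chkS_sound E lk1 1 3 _ _ _ _ t1_3_13)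

def r1_3_14 : List (ℕ × ℤ) := [(105, 12), (112, 24)]

theorem h1_3_14 (E : Env κ ι) : ip (F1_3 E) (F1_14 E) = dotS (ek E lk1) r1_3_14 :=
  op_entryZ E lk1 1 3 _ _ _ _ (pg0 κ) (pg1 ι) m1_3 m1_14 l1_14 z1_14 w1_14 x1_14 (by decide) _ (chkS_sound E lk1 1 3 _ _ _ _ t1_3_14)

def r1_3_15 : List (ℕ × ℤ) := [(107, 12), (230, 12), (231, 12)]

theorem h1_3_15 (E : Env κ ι) : ip (F1_3 E) (F1_15 E) = dotS (ek E lk1) r1_3_15 :=
  op_entryZ E lk1 1 3 _ _ _ _ (pg0 κ) (pg1 ι) m1_3 m1_15 l1_15 z1_15 w1_15 x1_15 (by decide) _ (chkS_sound E lk1 1 3 _ _ _ _ t1_3_15)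

def r1_3_16 : List (ℕ × ℤ) := [(110, 12), (113, 12), (232, 12)]

theorem h1_3_16 (E : Env κ ι) : ip (F1_3 E) (F1_16 E) = dotS (ek E lk1) r1_3_16 :=
  op_entryZ E lk1 1 3 _ _ _ _ (pg0 κ) (pg1 ι) m1_3 m1_16 l1_16 z1_16 w1_16 x1_16 (by decide) _ (chkS_sound E lk1 1 3 _ _ _ _ t1_3_16)

def r1_3_17 : List (ℕ × ℤ) := [(109, 12), (113, 24)]

theorem h1_3_17 (E : Env κ ι) : ip (F1_3 E) (F1_17 E) = dotS (ek E lk1) r1_3_17 :=
  op_entryZ E lk1 1 3 _ _ _ _ (pg0 κ) (pg1 ι) m1_3 m1_17 l1_17 z1_17 w1_17 x1_17 (by decide) _ (chkS_sound E lk1 1 3 _ _ _ _ t1_3_17)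

def r1_3_18 : List (ℕ × ℤ) := [(111, 12), (233, 24)]

theorem h1_3_18 (E : Env κ ι) : ip (F1_3 E) (F1_18 E) = dotS (ek E lk1) r1_3_18 :=
  op_entryZ E lk1 1 3 _ _ _ _ (pg0 κ) (pg1 ι) m1_3 m1_18 l1_18 z1_18 w1_18 x1_18 (by decide) _ (chkS_sound E lk1 1 3 _ _ _ _ t1_3_18)

def r1_3_19 : List (ℕ × ℤ) := [(19, 24), (234, 12)]

theorem h1_3_19 (E : Env κ ι) : ip (F1_3 E) (F1_19 E) = dotS (ek E lk1) r1_3_19 :=
  op_entryZ E lk1 1 3 _ _ _ _ (pg0 κ) (pg1 ι) m1_3 m1_19 l1_19 z1_19 w1_19 x1_19 (by decide) _ (chkS_sound E lk1 1 3 _ _ _ _ t1_3_19)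

def r1_3_20 : List (ℕ × ℤ) := [(112, 24), (235, 12)]

theorem h1_3_20 (E : Env κ ι) : ip (F1_3 E) (F1_20 E) = dotS (ek E lk1) r1_3_20 :=
  op_entryZ E lk1 1 3 _ _ _ _ (pg0 κ) (pg1 ι) m1_3 m1_20 l1_20 z1_20 w1_20 x1_20 (by decide) _ (chkS_sound E lk1 1 3 _ _ _ _ t1_3_20)

def r1_3_21 : List (ℕ × ℤ) := [(113, 24), (236, 12)]

theorem h1_3_21 (E : Env κ ι) : ip (F1_3 E) (F1_21 E) = dotS (ek E lk1) r1_3_21 :=
  op_entryZ E lk1 1 3 _ _ _ _ (pg0 κ) (pg1 ι) m1_3 m1_21 l1_21 z1_21 w1_21 x1_21 (by decide) _ (chkS_sound E lk1 1 3 _ _ _ _ t1_3_21)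

def r1_3_22 : List (ℕ × ℤ) := [(6, 24), (237, 12)]

theorem h1_3_22 (E : Env κ ι) : ip (F1_3 E) (F1_22 E) = dotS (ek E lk1) r1_3_22 :=
  op_entryZ E lk1 1 3 _ _ _ _ (pg0 κ) (pg1 ι) m1_3 m1_22 l1_22 z1_22 w1_22 x1_22 (by decide) _ (chkS_sound E lk1 1 3 _ _ _ _ t1_3_22)

def r1_3_23 : List (ℕ × ℤ) := [(238, 24), (239, 12)]

theorem h1_3_23 (E : Env κ ι) : ip (F1_3 E) (F1_23 E) = dotS (ek E lk1) r1_3_23 :=
  op_entryZ E lk1 1 3 _ _ _ _ (pg0 κ) (pg1 ι) m1_3 m1_23 l1_23 z1_23 w1_23 x1_23 (by decide) _ (chkS_sound E lk1 1 3 _ _ _ _ t1_3_23)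

def r1_3_24 : List (ℕ × ℤ) := [(240, 36)]

theorem h1_3_24 (E : Env κ ι) : ip (F1_3 E) (F1_24 E) = dotS (ek E lk1) r1_3_24 :=
  op_entryZ E lk1 1 3 _ _ _ _ (pg0 κ) (pg1 ι) m1_3 m1_24 l1_24 z1_24 w1_24 x1_24 (by decide) _ (chkS_sound E lk1 1 3 _ _ _ _ t1_3_24)

def r1_4_4 : List (ℕ × ℤ) := [(104, 12), (241, 24)]

theorem h1_4_4 (E : Env κ ι) : ip (F1_4 E) (F1_4 E) = dotS (ek E lk1) r1_4_4 :=
  op_entryZ E lk1 1 3 _ _ _ _ (pg0 κ) (pg1 ι) m1_4 m1_4 l1_4 z1_4 w1_4 x1_4 (by decide) _ (chkS_sound E lk1 1 3 _ _ _ _ t1_4_4)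

def r1_4_5 : List (ℕ × ℤ) := [(242, 12), (243, 24)]

theorem h1_4_5 (E : Env κ ι) : ip (F1_4 E) (F1_5 E) = dotS (ek E lk1) r1_4_5 :=
  op_entryZ E lk1 1 3 _ _ _ _ (pg0 κ) (pg1 ι) m1_4 m1_5 l1_5 z1_5 w1_5 x1_5 (by decide) _ (chkS_sound E lk1 1 3 _ _ _ _ t1_4_5)

def r1_4_6 : List (ℕ × ℤ) := [(97, 12), (244, 12), (245, 12)]

theorem h1_4_6 (E : Env κ ι) : ip (F1_4 E) (F1_6 E) = dotS (ek E lk1) r1_4_6 :=
  op_entryZ E lk1 1 3 _ _ _ _ (pg0 κ) (pg1 ι) m1_4 m1_6 l1_6 z1_6 w1_6 x1_6 (by decide) _ (chkS_sound E lk1 1 3 _ _ _ _ t1_4_6)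

def r1_4_7 : List (ℕ × ℤ) := [(72, 12), (180, 24)]

theorem h1_4_7 (E : Env κ ι) : ip (F1_4 E) (F1_7 E) = dotS (ek E lk1) r1_4_7 :=
  op_entryZ E lk1 1 3 _ _ _ _ (pg0 κ) (pg1 ι) m1_4 m1_7 l1_7 z1_7 w1_7 x1_7 (by decide) _ (chkS_sound E lk1 1 3 _ _ _ _ t1_4_7)

def r1_4_8 : List (ℕ × ℤ) := [(36, 12), (244, 24)]

theorem h1_4_8 (E : Env κ ι) : ip (F1_4 E) (F1_8 E) = dotS (ek E lk1) r1_4_8 :=
  op_entryZ E lk1 1 3 _ _ _ _ (pg0 κ) (pg1 ι) m1_4 m1_8 l1_8 z1_8 w1_8 x1_8 (by decide) _ (chkS_sound E lk1 1 3 _ _ _ _ t1_4_8)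

def r1_4_9 : List (ℕ × ℤ) := [(9, 12), (246, 24)]

theorem h1_4_9 (E : Env κ ι) : ip (F1_4 E) (F1_9 E) = dotS (ek E lk1) r1_4_9 :=
  op_entryZ E lk1 1 3 _ _ _ _ (pg0 κ) (pg1 ι) m1_4 m1_9 l1_9 z1_9 w1_9 x1_9 (by decide) _ (chkS_sound E lk1 1 3 _ _ _ _ t1_4_9)

def r1_4_10 : List (ℕ × ℤ) := [(247, 12), (248, 24)]

theorem h1_4_10 (E : Env κ ι) : ip (F1_4 E) (F1_10 E) = dotS (ek E lk1) r1_4_10 :=
  op_entryZ E lk1 1 3 _ _ _ _ (pg0 κ) (pg1 ι) m1_4 m1_10 l1_10 z1_10 w1_10 x1_10 (by decide) _ (chkS_sound E lk1 1 3 _ _ _ _ t1_4_10)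

def r1_4_11 : List (ℕ × ℤ) := [(30, 12), (249, 24)]

theorem h1_4_11 (E : Env κ ι) : ip (F1_4 E) (F1_11 E) = dotS (ek E lk1) r1_4_11 :=
  op_entryZ E lk1 1 3 _ _ _ _ (pg0 κ) (pg1 ι) m1_4 m1_11 l1_11 z1_11 w1_11 x1_11 (by decide) _ (chkS_sound E lk1 1 3 _ _ _ _ t1_4_11)

def r1_4_12 : List (ℕ × ℤ) := [(115, 12), (250, 12), (251, 12)]

theorem h1_4_12 (E : Env κ ι) : ip (F1_4 E) (F1_12 E) = dotS (ek E lk1) r1_4_12 :=
  op_entryZ E lk1 1 3 _ _ _ _ (pg0 κ) (pg1 ι) m1_4 m1_12 l1_12 z1_12 w1_12 x1_12 (by decide) _ (chkS_sound E lk1 1 3 _ _ _ _ t1_4_12)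

def r1_4_13 : List (ℕ × ℤ) := [(117, 12), (252, 24)]

theorem h1_4_13 (E : Env κ ι) : ip (F1_4 E) (F1_13 E) = dotS (ek E lk1) r1_4_13 :=
  op_entryZ E lk1 1 3 _ _ _ _ (pg0 κ) (pg1 ι) m1_4 m1_13 l1_13 z1_13 w1_13 x1_13 (by decide) _ (chkS_sound E lk1 1 3 _ _ _ _ t1_4_13)

def r1_4_14 : List (ℕ × ℤ) := [(84, 12), (253, 24)]

theorem h1_4_14 (E : Env κ ι) : ip (F1_4 E) (F1_14 E) = dotS (ek E lk1) r1_4_14 :=
  op_entryZ E lk1 1 3 _ _ _ _ (pg0 κ) (pg1 ι) m1_4 m1_14 l1_14 z1_14 w1_14 x1_14 (by decide) _ (chkS_sound E lk1 1 3 _ _ _ _ t1_4_14)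

def r1_4_15 : List (ℕ × ℤ) := [(116, 12), (254, 12), (255, 12)]

theorem h1_4_15 (E : Env κ ι) : ip (F1_4 E) (F1_15 E) = dotS (ek E lk1) r1_4_15 :=
  op_entryZ E lk1 1 3 _ _ _ _ (pg0 κ) (pg1 ι) m1_4 m1_15 l1_15 z1_15 w1_15 x1_15 (by decide) _ (chkS_sound E lk1 1 3 _ _ _ _ t1_4_15)

def r1_4_16 : List (ℕ × ℤ) := [(63, 12), (65, 12), (256, 12)]

theorem h1_4_16 (E : Env κ ι) : ip (F1_4 E) (F1_16 E) = dotS (ek E lk1) r1_4_16 :=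
  op_entryZ E lk1 1 3 _ _ _ _ (pg0 κ) (pg1 ι) m1_4 m1_16 l1_16 z1_16 w1_16 x1_16 (by decide) _ (chkS_sound E lk1 1 3 _ _ _ _ t1_4_16)

def r1_4_17 : List (ℕ × ℤ) := [(53, 12), (64, 24)]

theorem h1_4_17 (E : Env κ ι) : ip (F1_4 E) (F1_17 E) = dotS (ek E lk1) r1_4_17 :=
  op_entryZ E lk1 1 3 _ _ _ _ (pg0 κ) (pg1 ι) m1_4 m1_17 l1_17 z1_17 w1_17 x1_17 (by decide) _ (chkS_sound E lk1 1 3 _ _ _ _ t1_4_17)

def r1_4_18 : List (ℕ × ℤ) := [(118, 12), (257, 24)]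

theorem h1_4_18 (E : Env κ ι) : ip (F1_4 E) (F1_18 E) = dotS (ek E lk1) r1_4_18 :=
  op_entryZ E lk1 1 3 _ _ _ _ (pg0 κ) (pg1 ι) m1_4 m1_18 l1_18 z1_18 w1_18 x1_18 (by decide) _ (chkS_sound E lk1 1 3 _ _ _ _ t1_4_18)

def r1_4_19 : List (ℕ × ℤ) := [(19, 12), (119, 24)]

theorem h1_4_19 (E : Env κ ι) : ip (F1_4 E) (F1_19 E) = dotS (ek E lk1) r1_4_19 :=
  op_entryZ E lk1 1 3 _ _ _ _ (pg0 κ) (pg1 ι) m1_4 m1_19 l1_19 z1_19 w1_19 x1_19 (by decide) _ (chkS_sound E lk1 1 3 _ _ _ _ t1_4_19)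

def r1_4_20 : List (ℕ × ℤ) := [(112, 12), (120, 24)]

theorem h1_4_20 (E : Env κ ι) : ip (F1_4 E) (F1_20 E) = dotS (ek E lk1) r1_4_20 :=
  op_entryZ E lk1 1 3 _ _ _ _ (pg0 κ) (pg1 ι) m1_4 m1_20 l1_20 z1_20 w1_20 x1_20 (by decide) _ (chkS_sound E lk1 1 3 _ _ _ _ t1_4_20)

def r1_4_21 : List (ℕ × ℤ) := [(68, 24), (113, 12)]

theorem h1_4_21 (E : Env κ ι) : ip (F1_4 E) (F1_21 E) = dotS (ek E lk1) r1_4_21 :=
  op_entryZ E lk1 1 3 _ _ _ _ (pg0 κ) (pg1 ι) m1_4 m1_21 l1_21 z1_21 w1_21 x1_21 (by decide) _ (chkS_sound E lk1 1 3 _ _ _ _ t1_4_21)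

def r1_4_22 : List (ℕ × ℤ) := [(6, 12), (71, 24)]

theorem h1_4_22 (E : Env κ ι) : ip (F1_4 E) (F1_22 E) = dotS (ek E lk1) r1_4_22 :=
  op_entryZ E lk1 1 3 _ _ _ _ (pg0 κ) (pg1 ι) m1_4 m1_22 l1_22 z1_22 w1_22 x1_22 (by decide) _ (chkS_sound E lk1 1 3 _ _ _ _ t1_4_22)

def r1_4_23 : List (ℕ × ℤ) := [(29, 12), (258, 24)]

theorem h1_4_23 (E : Env κ ι) : ip (F1_4 E) (F1_23 E) = dotS (ek E lk1) r1_4_23 :=
  op_entryZ E lk1 1 3 _ _ _ _ (pg0 κ) (pg1 ι) m1_4 m1_23 l1_23 z1_23 w1_23 x1_23 (by decide) _ (chkS_sound E lk1 1 3 _ _ _ _ t1_4_23)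

def r1_4_24 : List (ℕ × ℤ) := [(60, 36)]

theorem h1_4_24 (E : Env κ ι) : ip (F1_4 E) (F1_24 E) = dotS (ek E lk1) r1_4_24 :=
  op_entryZ E lk1 1 3 _ _ _ _ (pg0 κ) (pg1 ι) m1_4 m1_24 l1_24 z1_24 w1_24 x1_24 (by decide) _ (chkS_sound E lk1 1 3 _ _ _ _ t1_4_24)

def r1_5_5 : List (ℕ × ℤ) := [(96, 24), (259, 12)]

theorem h1_5_5 (E : Env κ ι) : ip (F1_5 E) (F1_5 E) = dotS (ek E lk1) r1_5_5 :=
  op_entryZ E lk1 1 3 _ _ _ _ (pg0 κ) (pg1 ι) m1_5 m1_5 l1_5 z1_5 w1_5 x1_5 (by decide) _ (chkS_sound E lk1 1 3 _ _ _ _ t1_5_5)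

def r1_5_6 : List (ℕ × ℤ) := [(243, 12), (244, 12), (260, 12)]

theorem h1_5_6 (E : Env κ ι) : ip (F1_5 E) (F1_6 E) = dotS (ek E lk1) r1_5_6 :=
  op_entryZ E lk1 1 3 _ _ _ _ (pg0 κ) (pg1 ι) m1_5 m1_6 l1_6 z1_6 w1_6 x1_6 (by decide) _ (chkS_sound E lk1 1 3 _ _ _ _ t1_5_6)

def r1_5_7 : List (ℕ × ℤ) := [(82, 24), (182, 12)]

theorem h1_5_7 (E : Env κ ι) : ip (F1_5 E) (F1_7 E) = dotS (ek E lk1) r1_5_7 :=
  op_entryZ E lk1 1 3 _ _ _ _ (pg0 κ) (pg1 ι) m1_5 m1_7 l1_7 z1_7 w1_7 x1_7 (by decide) _ (chkS_sound E lk1 1 3 _ _ _ _ t1_5_7)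

def r1_5_8 : List (ℕ × ℤ) := [(242, 12), (244, 24)]

theorem h1_5_8 (E : Env κ ι) : ip (F1_5 E) (F1_8 E) = dotS (ek E lk1) r1_5_8 :=
  op_entryZ E lk1 1 3 _ _ _ _ (pg0 κ) (pg1 ι) m1_5 m1_8 l1_8 z1_8 w1_8 x1_8 (by decide) _ (chkS_sound E lk1 1 3 _ _ _ _ t1_5_8)

def r1_5_9 : List (ℕ × ℤ) := [(34, 24), (261, 12)]

theorem h1_5_9 (E : Env κ ι) : ip (F1_5 E) (F1_9 E) = dotS (ek E lk1) r1_5_9 :=
  op_entryZ E lk1 1 3 _ _ _ _ (pg0 κ) (pg1 ι) m1_5 m1_9 l1_9 z1_9 w1_9 x1_9 (by decide) _ (chkS_sound E lk1 1 3 _ _ _ _ t1_5_9)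

def r1_5_10 : List (ℕ × ℤ) := [(100, 24), (262, 12)]

theorem h1_5_10 (E : Env κ ι) : ip (F1_5 E) (F1_10 E) = dotS (ek E lk1) r1_5_10 :=
  op_entryZ E lk1 1 3 _ _ _ _ (pg0 κ) (pg1 ι) m1_5 m1_10 l1_10 z1_10 w1_10 x1_10 (by decide) _ (chkS_sound E lk1 1 3 _ _ _ _ t1_5_10)

def r1_5_11 : List (ℕ × ℤ) := [(263, 24), (264, 12)]

theorem h1_5_11 (E : Env κ ι) : ip (F1_5 E) (F1_11 E) = dotS (ek E lk1) r1_5_11 :=
  op_entryZ E lk1 1 3 _ _ _ _ (pg0 κ) (pg1 ι) m1_5 m1_11 l1_11 z1_11 w1_11 x1_11 (by decide) _ (chkS_sound E lk1 1 3 _ _ _ _ t1_5_11)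

def r1_5_12 : List (ℕ × ℤ) := [(99, 12), (102, 12), (265, 12)]

theorem h1_5_12 (E : Env κ ι) : ip (F1_5 E) (F1_12 E) = dotS (ek E lk1) r1_5_12 :=
  op_entryZ E lk1 1 3 _ _ _ _ (pg0 κ) (pg1 ι) m1_5 m1_12 l1_12 z1_12 w1_12 x1_12 (by decide) _ (chkS_sound E lk1 1 3 _ _ _ _ t1_5_12)

def r1_5_13 : List (ℕ × ℤ) := [(264, 12), (266, 24)]

theorem h1_5_13 (E : Env κ ι) : ip (F1_5 E) (F1_13 E) = dotS (ek E lk1) r1_5_13 :=
  op_entryZ E lk1 1 3 _ _ _ _ (pg0 κ) (pg1 ι) m1_5 m1_13 l1_13 z1_13 w1_13 x1_13 (by decide) _ (chkS_sound E lk1 1 3 _ _ _ _ t1_5_13)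

def r1_5_14 : List (ℕ × ℤ) := [(102, 24), (267, 12)]

theorem h1_5_14 (E : Env κ ι) : ip (F1_5 E) (F1_14 E) = dotS (ek E lk1) r1_5_14 :=
  op_entryZ E lk1 1 3 _ _ _ _ (pg0 κ) (pg1 ι) m1_5 m1_14 l1_14 z1_14 w1_14 x1_14 (by decide) _ (chkS_sound E lk1 1 3 _ _ _ _ t1_5_14)

def r1_5_15 : List (ℕ × ℤ) := [(263, 12), (266, 12), (268, 12)]

theorem h1_5_15 (E : Env κ ι) : ip (F1_5 E) (F1_15 E) = dotS (ek E lk1) r1_5_15 :=
  op_entryZ E lk1 1 3 _ _ _ _ (pg0 κ) (pg1 ι) m1_5 m1_15 l1_15 z1_15 w1_15 x1_15 (by decide) _ (chkS_sound E lk1 1 3 _ _ _ _ t1_5_15)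

def r1_5_16 : List (ℕ × ℤ) := [(62, 12), (66, 12), (269, 12)]

theorem h1_5_16 (E : Env κ ι) : ip (F1_5 E) (F1_16 E) = dotS (ek E lk1) r1_5_16 :=
  op_entryZ E lk1 1 3 _ _ _ _ (pg0 κ) (pg1 ι) m1_5 m1_16 l1_16 z1_16 w1_16 x1_16 (by decide) _ (chkS_sound E lk1 1 3 _ _ _ _ t1_5_16)

def r1_5_17 : List (ℕ × ℤ) := [(66, 24), (270, 12)]

theorem h1_5_17 (E : Env κ ι) : ip (F1_5 E) (F1_17 E) = dotS (ek E lk1) r1_5_17 :=
  op_entryZ E lk1 1 3 _ _ _ _ (pg0 κ) (pg1 ι) m1_5 m1_17 l1_17 z1_17 w1_17 x1_17 (by decide) _ (chkS_sound E lk1 1 3 _ _ _ _ t1_5_17)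

def r1_5_18 : List (ℕ × ℤ) := [(271, 24), (272, 12)]

theorem h1_5_18 (E : Env κ ι) : ip (F1_5 E) (F1_18 E) = dotS (ek E lk1) r1_5_18 :=
  op_entryZ E lk1 1 3 _ _ _ _ (pg0 κ) (pg1 ι) m1_5 m1_18 l1_18 z1_18 w1_18 x1_18 (by decide) _ (chkS_sound E lk1 1 3 _ _ _ _ t1_5_18)

def r1_5_19 : List (ℕ × ℤ) := [(35, 24), (273, 12)]

theorem h1_5_19 (E : Env κ ι) : ip (F1_5 E) (F1_19 E) = dotS (ek E lk1) r1_5_19 :=
  op_entryZ E lk1 1 3 _ _ _ _ (pg0 κ) (pg1 ι) m1_5 m1_19 l1_19 z1_19 w1_19 x1_19 (by decide) _ (chkS_sound E lk1 1 3 _ _ _ _ t1_5_19)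

def r1_5_20 : List (ℕ × ℤ) := [(102, 24), (274, 12)]

theorem h1_5_20 (E : Env κ ι) : ip (F1_5 E) (F1_20 E) = dotS (ek E lk1) r1_5_20 :=
  op_entryZ E lk1 1 3 _ _ _ _ (pg0 κ) (pg1 ι) m1_5 m1_20 l1_20 z1_20 w1_20 x1_20 (by decide) _ (chkS_sound E lk1 1 3 _ _ _ _ t1_5_20)

def r1_5_21 : List (ℕ × ℤ) := [(66, 24), (275, 12)]

theorem h1_5_21 (E : Env κ ι) : ip (F1_5 E) (F1_21 E) = dotS (ek E lk1) r1_5_21 :=
  op_entryZ E lk1 1 3 _ _ _ _ (pg0 κ) (pg1 ι) m1_5 m1_21 l1_21 z1_21 w1_21 x1_21 (by decide) _ (chkS_sound E lk1 1 3 _ _ _ _ t1_5_21)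

def r1_5_22 : List (ℕ × ℤ) := [(25, 24), (276, 12)]

theorem h1_5_22 (E : Env κ ι) : ip (F1_5 E) (F1_22 E) = dotS (ek E lk1) r1_5_22 :=
  op_entryZ E lk1 1 3 _ _ _ _ (pg0 κ) (pg1 ι) m1_5 m1_22 l1_22 z1_22 w1_22 x1_22 (by decide) _ (chkS_sound E lk1 1 3 _ _ _ _ t1_5_22)

def r1_5_23 : List (ℕ × ℤ) := [(277, 24), (278, 12)]

theorem h1_5_23 (E : Env κ ι) : ip (F1_5 E) (F1_23 E) = dotS (ek E lk1) r1_5_23 :=
  op_entryZ E lk1 1 3 _ _ _ _ (pg0 κ) (pg1 ι) m1_5 m1_23 l1_23 z1_23 w1_23 x1_23 (by decide) _ (chkS_sound E lk1 1 3 _ _ _ _ t1_5_23)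

def r1_5_24 : List (ℕ × ℤ) := [(279, 36)]

theorem h1_5_24 (E : Env κ ι) : ip (F1_5 E) (F1_24 E) = dotS (ek E lk1) r1_5_24 :=
  op_entryZ E lk1 1 3 _ _ _ _ (pg0 κ) (pg1 ι) m1_5 m1_24 l1_24 z1_24 w1_24 x1_24 (by decide) _ (chkS_sound E lk1 1 3 _ _ _ _ t1_5_24)

def r1_6_6 : List (ℕ × ℤ) := [(177, 6), (180, 6), (241, 6), (242, 6), (244, 12)]

theorem h1_6_6 (E : Env κ ι) : ip (F1_6 E) (F1_6 E) = dotS (ek E lk1) r1_6_6 :=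
  op_entryZ E lk1 1 3 _ _ _ _ (pg0 κ) (pg1 ι) m1_6 m1_6 l1_6 z1_6 w1_6 x1_6 (by decide) _ (chkS_sound E lk1 1 3 _ _ _ _ t1_6_6)

def r1_6_7 : List (ℕ × ℤ) := [(83, 12), (97, 12), (177, 12)]

theorem h1_6_7 (E : Env κ ι) : ip (F1_6 E) (F1_7 E) = dotS (ek E lk1) r1_6_7 :=
  op_entryZ E lk1 1 3 _ _ _ _ (pg0 κ) (pg1 ι) m1_6 m1_7 l1_7 z1_7 w1_7 x1_7 (by decide) _ (chkS_sound E lk1 1 3 _ _ _ _ t1_6_7)

def r1_6_8 : List (ℕ × ℤ) := [(96, 12), (241, 12), (245, 12)]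

theorem h1_6_8 (E : Env κ ι) : ip (F1_6 E) (F1_8 E) = dotS (ek E lk1) r1_6_8 :=
  op_entryZ E lk1 1 3 _ _ _ _ (pg0 κ) (pg1 ι) m1_6 m1_8 l1_8 z1_8 w1_8 x1_8 (by decide) _ (chkS_sound E lk1 1 3 _ _ _ _ t1_6_8)

def r1_6_9 : List (ℕ × ℤ) := [(30, 12), (246, 12), (280, 12)]

theorem h1_6_9 (E : Env κ ι) : ip (F1_6 E) (F1_9 E) = dotS (ek E lk1) r1_6_9 :=
  op_entryZ E lk1 1 3 _ _ _ _ (pg0 κ) (pg1 ι) m1_6 m1_9 l1_9 z1_9 w1_9 x1_9 (by decide) _ (chkS_sound E lk1 1 3 _ _ _ _ t1_6_9)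

def r1_6_10 : List (ℕ × ℤ) := [(248, 12), (249, 12), (281, 12)]

theorem h1_6_10 (E : Env κ ι) : ip (F1_6 E) (F1_10 E) = dotS (ek E lk1) r1_6_10 :=
  op_entryZ E lk1 1 3 _ _ _ _ (pg0 κ) (pg1 ι) m1_6 m1_10 l1_10 z1_10 w1_10 x1_10 (by decide) _ (chkS_sound E lk1 1 3 _ _ _ _ t1_6_10)

def r1_6_11 : List (ℕ × ℤ) := [(282, 12), (283, 12), (284, 12)]

theorem h1_6_11 (E : Env κ ι) : ip (F1_6 E) (F1_11 E) = dotS (ek E lk1) r1_6_11 :=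
  op_entryZ E lk1 1 3 _ _ _ _ (pg0 κ) (pg1 ι) m1_6 m1_11 l1_11 z1_11 w1_11 x1_11 (by decide) _ (chkS_sound E lk1 1 3 _ _ _ _ t1_6_11)

def r1_6_12 : List (ℕ × ℤ) := [(99, 6), (115, 6), (192, 6), (251, 6), (253, 6), (267, 6)]

theorem h1_6_12 (E : Env κ ι) : ip (F1_6 E) (F1_12 E) = dotS (ek E lk1) r1_6_12 :=
  op_entryZ E lk1 1 3 _ _ _ _ (pg0 κ) (pg1 ι) m1_6 m1_12 l1_12 z1_12 w1_12 x1_12 (by decide) _ (chkS_sound E lk1 1 3 _ _ _ _ t1_6_12)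

def r1_6_13 : List (ℕ × ℤ) := [(186, 12), (255, 12), (263, 12)]

theorem h1_6_13 (E : Env κ ι) : ip (F1_6 E) (F1_13 E) = dotS (ek E lk1) r1_6_13 :=
  op_entryZ E lk1 1 3 _ _ _ _ (pg0 κ) (pg1 ι) m1_6 m1_13 l1_13 z1_13 w1_13 x1_13 (by decide) _ (chkS_sound E lk1 1 3 _ _ _ _ t1_6_13)

def r1_6_14 : List (ℕ × ℤ) := [(85, 12), (99, 12), (250, 12)]

theorem h1_6_14 (E : Env κ ι) : ip (F1_6 E) (F1_14 E) = dotS (ek E lk1) r1_6_14 :=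
  op_entryZ E lk1 1 3 _ _ _ _ (pg0 κ) (pg1 ι) m1_6 m1_14 l1_14 z1_14 w1_14 x1_14 (by decide) _ (chkS_sound E lk1 1 3 _ _ _ _ t1_6_14)

def r1_6_15 : List (ℕ × ℤ) := [(185, 6), (187, 6), (252, 6), (254, 6), (263, 6), (264, 6)]

theorem h1_6_15 (E : Env κ ι) : ip (F1_6 E) (F1_15 E) = dotS (ek E lk1) r1_6_15 :=
  op_entryZ E lk1 1 3 _ _ _ _ (pg0 κ) (pg1 ι) m1_6 m1_15 l1_15 z1_15 w1_15 x1_15 (by decide) _ (chkS_sound E lk1 1 3 _ _ _ _ t1_6_15)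

def r1_6_16 : List (ℕ × ℤ) := [(62, 6), (63, 6), (64, 6), (65, 6), (197, 6), (270, 6)]

theorem h1_6_16 (E : Env κ ι) : ip (F1_6 E) (F1_16 E) = dotS (ek E lk1) r1_6_16 :=
  op_entryZ E lk1 1 3 _ _ _ _ (pg0 κ) (pg1 ι) m1_6 m1_16 l1_16 z1_16 w1_16 x1_16 (by decide) _ (chkS_sound E lk1 1 3 _ _ _ _ t1_6_16)

def r1_6_17 : List (ℕ × ℤ) := [(62, 12), (67, 12), (256, 12)]

theorem h1_6_17 (E : Env κ ι) : ip (F1_6 E) (F1_17 E) = dotS (ek E lk1) r1_6_17 :=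
  op_entryZ E lk1 1 3 _ _ _ _ (pg0 κ) (pg1 ι) m1_6 m1_17 l1_17 z1_17 w1_17 x1_17 (by decide) _ (chkS_sound E lk1 1 3 _ _ _ _ t1_6_17)

def r1_6_18 : List (ℕ × ℤ) := [(200, 12), (257, 12), (272, 12)]

theorem h1_6_18 (E : Env κ ι) : ip (F1_6 E) (F1_18 E) = dotS (ek E lk1) r1_6_18 :=
  op_entryZ E lk1 1 3 _ _ _ _ (pg0 κ) (pg1 ι) m1_6 m1_18 l1_18 z1_18 w1_18 x1_18 (by decide) _ (chkS_sound E lk1 1 3 _ _ _ _ t1_6_18)

def r1_6_19 : List (ℕ × ℤ) := [(35, 12), (78, 12), (119, 12)]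

theorem h1_6_19 (E : Env κ ι) : ip (F1_6 E) (F1_19 E) = dotS (ek E lk1) r1_6_19 :=
  op_entryZ E lk1 1 3 _ _ _ _ (pg0 κ) (pg1 ι) m1_6 m1_19 l1_19 z1_19 w1_19 x1_19 (by decide) _ (chkS_sound E lk1 1 3 _ _ _ _ t1_6_19)

def r1_6_20 : List (ℕ × ℤ) := [(76, 12), (102, 12), (120, 12)]

theorem h1_6_20 (E : Env κ ι) : ip (F1_6 E) (F1_20 E) = dotS (ek E lk1) r1_6_20 :=
  op_entryZ E lk1 1 3 _ _ _ _ (pg0 κ) (pg1 ι) m1_6 m1_20 l1_20 z1_20 w1_20 x1_20 (by decide) _ (chkS_sound E lk1 1 3 _ _ _ _ t1_6_20)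

def r1_6_21 : List (ℕ × ℤ) := [(66, 12), (68, 12), (77, 12)]

theorem h1_6_21 (E : Env κ ι) : ip (F1_6 E) (F1_21 E) = dotS (ek E lk1) r1_6_21 :=
  op_entryZ E lk1 1 3 _ _ _ _ (pg0 κ) (pg1 ι) m1_6 m1_21 l1_21 z1_21 w1_21 x1_21 (by decide) _ (chkS_sound E lk1 1 3 _ _ _ _ t1_6_21)

def r1_6_22 : List (ℕ × ℤ) := [(25, 12), (71, 12), (79, 12)]

theorem h1_6_22 (E : Env κ ι) : ip (F1_6 E) (F1_22 E) = dotS (ek E lk1) r1_6_22 :=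
  op_entryZ E lk1 1 3 _ _ _ _ (pg0 κ) (pg1 ι) m1_6 m1_22 l1_22 z1_22 w1_22 x1_22 (by decide) _ (chkS_sound E lk1 1 3 _ _ _ _ t1_6_22)

def r1_6_23 : List (ℕ × ℤ) := [(285, 12), (286, 12), (287, 12)]

theorem h1_6_23 (E : Env κ ι) : ip (F1_6 E) (F1_23 E) = dotS (ek E lk1) r1_6_23 :=
  op_entryZ E lk1 1 3 _ _ _ _ (pg0 κ) (pg1 ι) m1_6 m1_23 l1_23 z1_23 w1_23 x1_23 (by decide) _ (chkS_sound E lk1 1 3 _ _ _ _ t1_6_23)

def r1_6_24 : List (ℕ × ℤ) := [(288, 36)]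

theorem h1_6_24 (E : Env κ ι) : ip (F1_6 E) (F1_24 E) = dotS (ek E lk1) r1_6_24 :=
  op_entryZ E lk1 1 3 _ _ _ _ (pg0 κ) (pg1 ι) m1_6 m1_24 l1_24 z1_24 w1_24 x1_24 (by decide) _ (chkS_sound E lk1 1 3 _ _ _ _ t1_6_24)

def r1_7_7 : List (ℕ × ℤ) := [(114, 24), (175, 12)]

theorem h1_7_7 (E : Env κ ι) : ip (F1_7 E) (F1_7 E) = dotS (ek E lk1) r1_7_7 :=
  op_entryZ E lk1 1 3 _ _ _ _ (pg0 κ) (pg1 ι) m1_7 m1_7 l1_7 z1_7 w1_7 x1_7 (by decide) _ (chkS_sound E lk1 1 3 _ _ _ _ t1_7_7)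

def r1_7_8 : List (ℕ × ℤ) := [(74, 12), (178, 24)]

theorem h1_7_8 (E : Env κ ι) : ip (F1_7 E) (F1_8 E) = dotS (ek E lk1) r1_7_8 :=
  op_entryZ E lk1 1 3 _ _ _ _ (pg0 κ) (pg1 ι) m1_7 m1_8 l1_8 z1_8 w1_8 x1_8 (by decide) _ (chkS_sound E lk1 1 3 _ _ _ _ t1_7_8)

def r1_7_9 : List (ℕ × ℤ) := [(28, 24), (289, 12)]

theorem h1_7_9 (E : Env κ ι) : ip (F1_7 E) (F1_9 E) = dotS (ek E lk1) r1_7_9 :=
  op_entryZ E lk1 1 3 _ _ _ _ (pg0 κ) (pg1 ι) m1_7 m1_9 l1_9 z1_9 w1_9 x1_9 (by decide) _ (chkS_sound E lk1 1 3 _ _ _ _ t1_7_9)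

def r1_7_10 : List (ℕ × ℤ) := [(212, 24), (290, 12)]

theorem h1_7_10 (E : Env κ ι) : ip (F1_7 E) (F1_10 E) = dotS (ek E lk1) r1_7_10 :=
  op_entryZ E lk1 1 3 _ _ _ _ (pg0 κ) (pg1 ι) m1_7 m1_10 l1_10 z1_10 w1_10 x1_10 (by decide) _ (chkS_sound E lk1 1 3 _ _ _ _ t1_7_10)

def r1_7_11 : List (ℕ × ℤ) := [(291, 24), (292, 12)]

theorem h1_7_11 (E : Env κ ι) : ip (F1_7 E) (F1_11 E) = dotS (ek E lk1) r1_7_11 :=
  op_entryZ E lk1 1 3 _ _ _ _ (pg0 κ) (pg1 ι) m1_7 m1_11 l1_11 z1_11 w1_11 x1_11 (by decide) _ (chkS_sound E lk1 1 3 _ _ _ _ t1_7_11)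

def r1_7_12 : List (ℕ × ℤ) := [(85, 12), (192, 12), (214, 12)]

theorem h1_7_12 (E : Env κ ι) : ip (F1_7 E) (F1_12 E) = dotS (ek E lk1) r1_7_12 :=
  op_entryZ E lk1 1 3 _ _ _ _ (pg0 κ) (pg1 ι) m1_7 m1_12 l1_12 z1_12 w1_12 x1_12 (by decide) _ (chkS_sound E lk1 1 3 _ _ _ _ t1_7_12)

def r1_7_13 : List (ℕ × ℤ) := [(185, 24), (217, 12)]

theorem h1_7_13 (E : Env κ ι) : ip (F1_7 E) (F1_13 E) = dotS (ek E lk1) r1_7_13 :=
  op_entryZ E lk1 1 3 _ _ _ _ (pg0 κ) (pg1 ι) m1_7 m1_13 l1_13 z1_13 w1_13 x1_13 (by decide) _ (chkS_sound E lk1 1 3 _ _ _ _ t1_7_13)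

def r1_7_14 : List (ℕ × ℤ) := [(115, 24), (215, 12)]

theorem h1_7_14 (E : Env κ ι) : ip (F1_7 E) (F1_14 E) = dotS (ek E lk1) r1_7_14 :=
  op_entryZ E lk1 1 3 _ _ _ _ (pg0 κ) (pg1 ι) m1_7 m1_14 l1_14 z1_14 w1_14 x1_14 (by decide) _ (chkS_sound E lk1 1 3 _ _ _ _ t1_7_14)

def r1_7_15 : List (ℕ × ℤ) := [(186, 12), (187, 12), (216, 12)]

theorem h1_7_15 (E : Env κ ι) : ip (F1_7 E) (F1_15 E) = dotS (ek E lk1) r1_7_15 :=
  op_entryZ E lk1 1 3 _ _ _ _ (pg0 κ) (pg1 ι) m1_7 m1_15 l1_15 z1_15 w1_15 x1_15 (by decide) _ (chkS_sound E lk1 1 3 _ _ _ _ t1_7_15)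

def r1_7_16 : List (ℕ × ℤ) := [(67, 12), (197, 12), (218, 12)]

theorem h1_7_16 (E : Env κ ι) : ip (F1_7 E) (F1_16 E) = dotS (ek E lk1) r1_7_16 :=
  op_entryZ E lk1 1 3 _ _ _ _ (pg0 κ) (pg1 ι) m1_7 m1_16 l1_16 z1_16 w1_16 x1_16 (by decide) _ (chkS_sound E lk1 1 3 _ _ _ _ t1_7_16)

def r1_7_17 : List (ℕ × ℤ) := [(63, 24), (219, 12)]

theorem h1_7_17 (E : Env κ ι) : ip (F1_7 E) (F1_17 E) = dotS (ek E lk1) r1_7_17 :=
  op_entryZ E lk1 1 3 _ _ _ _ (pg0 κ) (pg1 ι) m1_7 m1_17 l1_17 z1_17 w1_17 x1_17 (by decide) _ (chkS_sound E lk1 1 3 _ _ _ _ t1_7_17)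

def r1_7_18 : List (ℕ × ℤ) := [(200, 24), (220, 12)]

theorem h1_7_18 (E : Env κ ι) : ip (F1_7 E) (F1_18 E) = dotS (ek E lk1) r1_7_18 :=
  op_entryZ E lk1 1 3 _ _ _ _ (pg0 κ) (pg1 ι) m1_7 m1_18 l1_18 z1_18 w1_18 x1_18 (by decide) _ (chkS_sound E lk1 1 3 _ _ _ _ t1_7_18)

def r1_7_19 : List (ℕ × ℤ) := [(33, 24), (78, 12)]

theorem h1_7_19 (E : Env κ ι) : ip (F1_7 E) (F1_19 E) = dotS (ek E lk1) r1_7_19 :=
  op_entryZ E lk1 1 3 _ _ _ _ (pg0 κ) (pg1 ι) m1_7 m1_19 l1_19 z1_19 w1_19 x1_19 (by decide) _ (chkS_sound E lk1 1 3 _ _ _ _ t1_7_19)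

def r1_7_20 : List (ℕ × ℤ) := [(76, 12), (88, 24)]

theorem h1_7_20 (E : Env κ ι) : ip (F1_7 E) (F1_20 E) = dotS (ek E lk1) r1_7_20 :=
  op_entryZ E lk1 1 3 _ _ _ _ (pg0 κ) (pg1 ι) m1_7 m1_20 l1_20 z1_20 w1_20 x1_20 (by decide) _ (chkS_sound E lk1 1 3 _ _ _ _ t1_7_20)

def r1_7_21 : List (ℕ × ℤ) := [(77, 12), (89, 24)]

theorem h1_7_21 (E : Env κ ι) : ip (F1_7 E) (F1_21 E) = dotS (ek E lk1) r1_7_21 :=
  op_entryZ E lk1 1 3 _ _ _ _ (pg0 κ) (pg1 ι) m1_7 m1_21 l1_21 z1_21 w1_21 x1_21 (by decide) _ (chkS_sound E lk1 1 3 _ _ _ _ t1_7_21)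

def r1_7_22 : List (ℕ × ℤ) := [(24, 24), (79, 12)]

theorem h1_7_22 (E : Env κ ι) : ip (F1_7 E) (F1_22 E) = dotS (ek E lk1) r1_7_22 :=
  op_entryZ E lk1 1 3 _ _ _ _ (pg0 κ) (pg1 ι) m1_7 m1_22 l1_22 z1_22 w1_22 x1_22 (by decide) _ (chkS_sound E lk1 1 3 _ _ _ _ t1_7_22)

def r1_7_23 : List (ℕ × ℤ) := [(293, 24), (294, 12)]

theorem h1_7_23 (E : Env κ ι) : ip (F1_7 E) (F1_23 E) = dotS (ek E lk1) r1_7_23 :=
  op_entryZ E lk1 1 3 _ _ _ _ (pg0 κ) (pg1 ι) m1_7 m1_23 l1_23 z1_23 w1_23 x1_23 (by decide) _ (chkS_sound E lk1 1 3 _ _ _ _ t1_7_23)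

def r1_7_24 : List (ℕ × ℤ) := [(295, 36)]

theorem h1_7_24 (E : Env κ ι) : ip (F1_7 E) (F1_24 E) = dotS (ek E lk1) r1_7_24 :=
  op_entryZ E lk1 1 3 _ _ _ _ (pg0 κ) (pg1 ι) m1_7 m1_24 l1_24 z1_24 w1_24 x1_24 (by decide) _ (chkS_sound E lk1 1 3 _ _ _ _ t1_7_24)

def r1_8_8 : List (ℕ × ℤ) := [(224, 12), (243, 24)]

theorem h1_8_8 (E : Env κ ι) : ip (F1_8 E) (F1_8 E) = dotS (ek E lk1) r1_8_8 :=
  op_entryZ E lk1 1 3 _ _ _ _ (pg0 κ) (pg1 ι) m1_8 m1_8 l1_8 z1_8 w1_8 x1_8 (by decide) _ (chkS_sound E lk1 1 3 _ _ _ _ t1_8_8)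

def r1_8_9 : List (ℕ × ℤ) := [(9, 12), (30, 24)]

theorem h1_8_9 (E : Env κ ι) : ip (F1_8 E) (F1_9 E) = dotS (ek E lk1) r1_8_9 :=
  op_entryZ E lk1 1 3 _ _ _ _ (pg0 κ) (pg1 ι) m1_8 m1_9 l1_9 z1_9 w1_9 x1_9 (by decide) _ (chkS_sound E lk1 1 3 _ _ _ _ t1_8_9)

def r1_8_10 : List (ℕ × ℤ) := [(247, 12), (249, 24)]

theorem h1_8_10 (E : Env κ ι) : ip (F1_8 E) (F1_10 E) = dotS (ek E lk1) r1_8_10 :=
  op_entryZ E lk1 1 3 _ _ _ _ (pg0 κ) (pg1 ι) m1_8 m1_10 l1_10 z1_10 w1_10 x1_10 (by decide) _ (chkS_sound E lk1 1 3 _ _ _ _ t1_8_10)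

def r1_8_11 : List (ℕ × ℤ) := [(246, 12), (248, 24)]

theorem h1_8_11 (E : Env κ ι) : ip (F1_8 E) (F1_11 E) = dotS (ek E lk1) r1_8_11 :=
  op_entryZ E lk1 1 3 _ _ _ _ (pg0 κ) (pg1 ι) m1_8 m1_11 l1_11 z1_11 w1_11 x1_11 (by decide) _ (chkS_sound E lk1 1 3 _ _ _ _ t1_8_11)

def r1_8_12 : List (ℕ × ℤ) := [(99, 12), (250, 12), (253, 12)]

theorem h1_8_12 (E : Env κ ι) : ip (F1_8 E) (F1_12 E) = dotS (ek E lk1) r1_8_12 :=
  op_entryZ E lk1 1 3 _ _ _ _ (pg0 κ) (pg1 ι) m1_8 m1_12 l1_12 z1_12 w1_12 x1_12 (by decide) _ (chkS_sound E lk1 1 3 _ _ _ _ t1_8_12)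

def r1_8_13 : List (ℕ × ℤ) := [(34, 12), (254, 24)]

theorem h1_8_13 (E : Env κ ι) : ip (F1_8 E) (F1_13 E) = dotS (ek E lk1) r1_8_13 :=
  op_entryZ E lk1 1 3 _ _ _ _ (pg0 κ) (pg1 ι) m1_8 m1_13 l1_13 z1_13 w1_13 x1_13 (by decide) _ (chkS_sound E lk1 1 3 _ _ _ _ t1_8_13)

def r1_8_14 : List (ℕ × ℤ) := [(98, 12), (251, 24)]

theorem h1_8_14 (E : Env κ ι) : ip (F1_8 E) (F1_14 E) = dotS (ek E lk1) r1_8_14 :=
  op_entryZ E lk1 1 3 _ _ _ _ (pg0 κ) (pg1 ι) m1_8 m1_14 l1_14 z1_14 w1_14 x1_14 (by decide) _ (chkS_sound E lk1 1 3 _ _ _ _ t1_8_14)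

def r1_8_15 : List (ℕ × ℤ) := [(100, 12), (252, 12), (255, 12)]

theorem h1_8_15 (E : Env κ ι) : ip (F1_8 E) (F1_15 E) = dotS (ek E lk1) r1_8_15 :=
  op_entryZ E lk1 1 3 _ _ _ _ (pg0 κ) (pg1 ι) m1_8 m1_15 l1_15 z1_15 w1_15 x1_15 (by decide) _ (chkS_sound E lk1 1 3 _ _ _ _ t1_8_15)

def r1_8_16 : List (ℕ × ℤ) := [(62, 12), (64, 12), (256, 12)]

theorem h1_8_16 (E : Env κ ι) : ip (F1_8 E) (F1_16 E) = dotS (ek E lk1) r1_8_16 :=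
  op_entryZ E lk1 1 3 _ _ _ _ (pg0 κ) (pg1 ι) m1_8 m1_16 l1_16 z1_16 w1_16 x1_16 (by decide) _ (chkS_sound E lk1 1 3 _ _ _ _ t1_8_16)

def r1_8_17 : List (ℕ × ℤ) := [(61, 12), (65, 24)]

theorem h1_8_17 (E : Env κ ι) : ip (F1_8 E) (F1_17 E) = dotS (ek E lk1) r1_8_17 :=
  op_entryZ E lk1 1 3 _ _ _ _ (pg0 κ) (pg1 ι) m1_8 m1_17 l1_17 z1_17 w1_17 x1_17 (by decide) _ (chkS_sound E lk1 1 3 _ _ _ _ t1_8_17)

def r1_8_18 : List (ℕ × ℤ) := [(101, 12), (257, 24)]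

theorem h1_8_18 (E : Env κ ι) : ip (F1_8 E) (F1_18 E) = dotS (ek E lk1) r1_8_18 :=
  op_entryZ E lk1 1 3 _ _ _ _ (pg0 κ) (pg1 ι) m1_8 m1_18 l1_18 z1_18 w1_18 x1_18 (by decide) _ (chkS_sound E lk1 1 3 _ _ _ _ t1_8_18)

def r1_8_19 : List (ℕ × ℤ) := [(19, 12), (35, 24)]

theorem h1_8_19 (E : Env κ ι) : ip (F1_8 E) (F1_19 E) = dotS (ek E lk1) r1_8_19 :=
  op_entryZ E lk1 1 3 _ _ _ _ (pg0 κ) (pg1 ι) m1_8 m1_19 l1_19 z1_19 w1_19 x1_19 (by decide) _ (chkS_sound E lk1 1 3 _ _ _ _ t1_8_19)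

def r1_8_20 : List (ℕ × ℤ) := [(102, 24), (112, 12)]

theorem h1_8_20 (E : Env κ ι) : ip (F1_8 E) (F1_20 E) = dotS (ek E lk1) r1_8_20 :=
  op_entryZ E lk1 1 3 _ _ _ _ (pg0 κ) (pg1 ι) m1_8 m1_20 l1_20 z1_20 w1_20 x1_20 (by decide) _ (chkS_sound E lk1 1 3 _ _ _ _ t1_8_20)

def r1_8_21 : List (ℕ × ℤ) := [(66, 24), (113, 12)]

theorem h1_8_21 (E : Env κ ι) : ip (F1_8 E) (F1_21 E) = dotS (ek E lk1) r1_8_21 :=
  op_entryZ E lk1 1 3 _ _ _ _ (pg0 κ) (pg1 ι) m1_8 m1_21 l1_21 z1_21 w1_21 x1_21 (by decide) _ (chkS_sound E lk1 1 3 _ _ _ _ t1_8_21)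

def r1_8_22 : List (ℕ × ℤ) := [(6, 12), (25, 24)]

theorem h1_8_22 (E : Env κ ι) : ip (F1_8 E) (F1_22 E) = dotS (ek E lk1) r1_8_22 :=
  op_entryZ E lk1 1 3 _ _ _ _ (pg0 κ) (pg1 ι) m1_8 m1_22 l1_22 z1_22 w1_22 x1_22 (by decide) _ (chkS_sound E lk1 1 3 _ _ _ _ t1_8_22)

def r1_8_23 : List (ℕ × ℤ) := [(31, 12), (296, 24)]

theorem h1_8_23 (E : Env κ ι) : ip (F1_8 E) (F1_23 E) = dotS (ek E lk1) r1_8_23 :=
  op_entryZ E lk1 1 3 _ _ _ _ (pg0 κ) (pg1 ι) m1_8 m1_23 l1_23 z1_23 w1_23 x1_23 (by decide) _ (chkS_sound E lk1 1 3 _ _ _ _ t1_8_23)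

def r1_8_24 : List (ℕ × ℤ) := [(59, 36)]

theorem h1_8_24 (E : Env κ ι) : ip (F1_8 E) (F1_24 E) = dotS (ek E lk1) r1_8_24 :=
  op_entryZ E lk1 1 3 _ _ _ _ (pg0 κ) (pg1 ι) m1_8 m1_24 l1_24 z1_24 w1_24 x1_24 (by decide) _ (chkS_sound E lk1 1 3 _ _ _ _ t1_8_24)

def r1_9_9 : List (ℕ × ℤ) := [(145, 24), (297, 12)]

theorem h1_9_9 (E : Env κ ι) : ip (F1_9 E) (F1_9 E) = dotS (ek E lk1) r1_9_9 :=
  op_entryZ E lk1 1 3 _ _ _ _ (pg0 κ) (pg1 ι) m1_9 m1_9 l1_9 z1_9 w1_9 x1_9 (by decide) _ (chkS_sound E lk1 1 3 _ _ _ _ t1_9_9)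

def r1_9_10 : List (ℕ × ℤ) := [(138, 24), (298, 12)]

theorem h1_9_10 (E : Env κ ι) : ip (F1_9 E) (F1_10 E) = dotS (ek E lk1) r1_9_10 :=
  op_entryZ E lk1 1 3 _ _ _ _ (pg0 κ) (pg1 ι) m1_9 m1_10 l1_10 z1_10 w1_10 x1_10 (by decide) _ (chkS_sound E lk1 1 3 _ _ _ _ t1_9_10)

def r1_9_11 : List (ℕ × ℤ) := [(16, 12), (130, 24)]

theorem h1_9_11 (E : Env κ ι) : ip (F1_9 E) (F1_11 E) = dotS (ek E lk1) r1_9_11 :=
  op_entryZ E lk1 1 3 _ _ _ _ (pg0 κ) (pg1 ι) m1_9 m1_11 l1_11 z1_11 w1_11 x1_11 (by decide) _ (chkS_sound E lk1 1 3 _ _ _ _ t1_9_11)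

def r1_9_12 : List (ℕ × ℤ) := [(130, 12), (138, 12), (298, 12)]

theorem h1_9_12 (E : Env κ ι) : ip (F1_9 E) (F1_12 E) = dotS (ek E lk1) r1_9_12 :=
  op_entryZ E lk1 1 3 _ _ _ _ (pg0 κ) (pg1 ι) m1_9 m1_12 l1_12 z1_12 w1_12 x1_12 (by decide) _ (chkS_sound E lk1 1 3 _ _ _ _ t1_9_12)

def r1_9_13 : List (ℕ × ℤ) := [(16, 12), (138, 24)]

theorem h1_9_13 (E : Env κ ι) : ip (F1_9 E) (F1_13 E) = dotS (ek E lk1) r1_9_13 :=
  op_entryZ E lk1 1 3 _ _ _ _ (pg0 κ) (pg1 ι) m1_9 m1_13 l1_13 z1_13 w1_13 x1_13 (by decide) _ (chkS_sound E lk1 1 3 _ _ _ _ t1_9_13)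

def r1_9_14 : List (ℕ × ℤ) := [(130, 24), (299, 12)]

theorem h1_9_14 (E : Env κ ι) : ip (F1_9 E) (F1_14 E) = dotS (ek E lk1) r1_9_14 :=
  op_entryZ E lk1 1 3 _ _ _ _ (pg0 κ) (pg1 ι) m1_9 m1_14 l1_14 z1_14 w1_14 x1_14 (by decide) _ (chkS_sound E lk1 1 3 _ _ _ _ t1_9_14)

def r1_9_15 : List (ℕ × ℤ) := [(123, 12), (130, 12), (138, 12)]

theorem h1_9_15 (E : Env κ ι) : ip (F1_9 E) (F1_15 E) = dotS (ek E lk1) r1_9_15 :=
  op_entryZ E lk1 1 3 _ _ _ _ (pg0 κ) (pg1 ι) m1_9 m1_15 l1_15 z1_15 w1_15 x1_15 (by decide) _ (chkS_sound E lk1 1 3 _ _ _ _ t1_9_15)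

def r1_9_16 : List (ℕ × ℤ) := [(48, 12), (124, 12), (139, 12)]

theorem h1_9_16 (E : Env κ ι) : ip (F1_9 E) (F1_16 E) = dotS (ek E lk1) r1_9_16 :=
  op_entryZ E lk1 1 3 _ _ _ _ (pg0 κ) (pg1 ι) m1_9 m1_16 l1_16 z1_16 w1_16 x1_16 (by decide) _ (chkS_sound E lk1 1 3 _ _ _ _ t1_9_16)

def r1_9_17 : List (ℕ × ℤ) := [(48, 24), (51, 12)]

theorem h1_9_17 (E : Env κ ι) : ip (F1_9 E) (F1_17 E) = dotS (ek E lk1) r1_9_17 :=
  op_entryZ E lk1 1 3 _ _ _ _ (pg0 κ) (pg1 ι) m1_9 m1_17 l1_17 z1_17 w1_17 x1_17 (by decide) _ (chkS_sound E lk1 1 3 _ _ _ _ t1_9_17)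

def r1_9_18 : List (ℕ × ℤ) := [(13, 12), (300, 24)]

theorem h1_9_18 (E : Env κ ι) : ip (F1_9 E) (F1_18 E) = dotS (ek E lk1) r1_9_18 :=
  op_entryZ E lk1 1 3 _ _ _ _ (pg0 κ) (pg1 ι) m1_9 m1_18 l1_18 z1_18 w1_18 x1_18 (by decide) _ (chkS_sound E lk1 1 3 _ _ _ _ t1_9_18)

def r1_9_19 : List (ℕ × ℤ) := [(16, 24), (297, 12)]

theorem h1_9_19 (E : Env κ ι) : ip (F1_9 E) (F1_19 E) = dotS (ek E lk1) r1_9_19 :=
  op_entryZ E lk1 1 3 _ _ _ _ (pg0 κ) (pg1 ι) m1_9 m1_19 l1_19 z1_19 w1_19 x1_19 (by decide) _ (chkS_sound E lk1 1 3 _ _ _ _ t1_9_19)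

def r1_9_20 : List (ℕ × ℤ) := [(130, 24), (145, 12)]

theorem h1_9_20 (E : Env κ ι) : ip (F1_9 E) (F1_20 E) = dotS (ek E lk1) r1_9_20 :=
  op_entryZ E lk1 1 3 _ _ _ _ (pg0 κ) (pg1 ι) m1_9 m1_20 l1_20 z1_20 w1_20 x1_20 (by decide) _ (chkS_sound E lk1 1 3 _ _ _ _ t1_9_20)

def r1_9_21 : List (ℕ × ℤ) := [(48, 24), (146, 12)]

theorem h1_9_21 (E : Env κ ι) : ip (F1_9 E) (F1_21 E) = dotS (ek E lk1) r1_9_21 :=
  op_entryZ E lk1 1 3 _ _ _ _ (pg0 κ) (pg1 ι) m1_9 m1_21 l1_21 z1_21 w1_21 x1_21 (by decide) _ (chkS_sound E lk1 1 3 _ _ _ _ t1_9_21)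

def r1_9_22 : List (ℕ × ℤ) := [(22, 24), (148, 12)]

theorem h1_9_22 (E : Env κ ι) : ip (F1_9 E) (F1_22 E) = dotS (ek E lk1) r1_9_22 :=
  op_entryZ E lk1 1 3 _ _ _ _ (pg0 κ) (pg1 ι) m1_9 m1_22 l1_22 z1_22 w1_22 x1_22 (by decide) _ (chkS_sound E lk1 1 3 _ _ _ _ t1_9_22)

def r1_9_23 : List (ℕ × ℤ) := [(147, 12), (301, 24)]

theorem h1_9_23 (E : Env κ ι) : ip (F1_9 E) (F1_23 E) = dotS (ek E lk1) r1_9_23 :=
  op_entryZ E lk1 1 3 _ _ _ _ (pg0 κ) (pg1 ι) m1_9 m1_23 l1_23 z1_23 w1_23 x1_23 (by decide) _ (chkS_sound E lk1 1 3 _ _ _ _ t1_9_23)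

def r1_9_24 : List (ℕ × ℤ) := [(149, 36)]

theorem h1_9_24 (E : Env κ ι) : ip (F1_9 E) (F1_24 E) = dotS (ek E lk1) r1_9_24 :=
  op_entryZ E lk1 1 3 _ _ _ _ (pg0 κ) (pg1 ι) m1_9 m1_24 l1_24 z1_24 w1_24 x1_24 (by decide) _ (chkS_sound E lk1 1 3 _ _ _ _ t1_9_24)

def r1_10_10 : List (ℕ × ℤ) := [(137, 24), (302, 12)]

theorem h1_10_10 (E : Env κ ι) : ip (F1_10 E) (F1_10 E) = dotS (ek E lk1) r1_10_10 :=
  op_entryZ E lk1 1 3 _ _ _ _ (pg0 κ) (pg1 ι) m1_10 m1_10 l1_10 z1_10 w1_10 x1_10 (by decide) _ (chkS_sound E lk1 1 3 _ _ _ _ t1_10_10)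

def r1_10_11 : List (ℕ × ℤ) := [(133, 24), (303, 12)]

theorem h1_10_11 (E : Env κ ι) : ip (F1_10 E) (F1_11 E) = dotS (ek E lk1) r1_10_11 :=
  op_entryZ E lk1 1 3 _ _ _ _ (pg0 κ) (pg1 ι) m1_10 m1_11 l1_11 z1_11 w1_11 x1_11 (by decide) _ (chkS_sound E lk1 1 3 _ _ _ _ t1_10_11)

def r1_10_12 : List (ℕ × ℤ) := [(129, 12), (141, 12), (304, 12)]

theorem h1_10_12 (E : Env κ ι) : ip (F1_10 E) (F1_12 E) = dotS (ek E lk1) r1_10_12 :=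
  op_entryZ E lk1 1 3 _ _ _ _ (pg0 κ) (pg1 ι) m1_10 m1_12 l1_12 z1_12 w1_12 x1_12 (by decide) _ (chkS_sound E lk1 1 3 _ _ _ _ t1_10_12)

def r1_10_13 : List (ℕ × ℤ) := [(141, 24), (303, 12)]

theorem h1_10_13 (E : Env κ ι) : ip (F1_10 E) (F1_13 E) = dotS (ek E lk1) r1_10_13 :=
  op_entryZ E lk1 1 3 _ _ _ _ (pg0 κ) (pg1 ι) m1_10 m1_13 l1_13 z1_13 w1_13 x1_13 (by decide) _ (chkS_sound E lk1 1 3 _ _ _ _ t1_10_13)

def r1_10_14 : List (ℕ × ℤ) := [(305, 24), (306, 12)]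

theorem h1_10_14 (E : Env κ ι) : ip (F1_10 E) (F1_14 E) = dotS (ek E lk1) r1_10_14 :=
  op_entryZ E lk1 1 3 _ _ _ _ (pg0 κ) (pg1 ι) m1_10 m1_14 l1_14 z1_14 w1_14 x1_14 (by decide) _ (chkS_sound E lk1 1 3 _ _ _ _ t1_10_14)

def r1_10_15 : List (ℕ × ℤ) := [(133, 12), (141, 12), (307, 12)]

theorem h1_10_15 (E : Env κ ι) : ip (F1_10 E) (F1_15 E) = dotS (ek E lk1) r1_10_15 :=
  op_entryZ E lk1 1 3 _ _ _ _ (pg0 κ) (pg1 ι) m1_10 m1_15 l1_15 z1_15 w1_15 x1_15 (by decide) _ (chkS_sound E lk1 1 3 _ _ _ _ t1_10_15)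

def r1_10_16 : List (ℕ × ℤ) := [(134, 12), (142, 12), (308, 12)]

theorem h1_10_16 (E : Env κ ι) : ip (F1_10 E) (F1_16 E) = dotS (ek E lk1) r1_10_16 :=
  op_entryZ E lk1 1 3 _ _ _ _ (pg0 κ) (pg1 ι) m1_10 m1_16 l1_16 z1_16 w1_16 x1_16 (by decide) _ (chkS_sound E lk1 1 3 _ _ _ _ t1_10_16)

def r1_10_17 : List (ℕ × ℤ) := [(150, 24), (309, 12)]

theorem h1_10_17 (E : Env κ ι) : ip (F1_10 E) (F1_17 E) = dotS (ek E lk1) r1_10_17 :=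
  op_entryZ E lk1 1 3 _ _ _ _ (pg0 κ) (pg1 ι) m1_10 m1_17 l1_17 z1_17 w1_17 x1_17 (by decide) _ (chkS_sound E lk1 1 3 _ _ _ _ t1_10_17)

def r1_10_18 : List (ℕ × ℤ) := [(310, 24), (311, 12)]

theorem h1_10_18 (E : Env κ ι) : ip (F1_10 E) (F1_18 E) = dotS (ek E lk1) r1_10_18 :=
  op_entryZ E lk1 1 3 _ _ _ _ (pg0 κ) (pg1 ι) m1_10 m1_18 l1_18 z1_18 w1_18 x1_18 (by decide) _ (chkS_sound E lk1 1 3 _ _ _ _ t1_10_18)

def r1_10_19 : List (ℕ × ℤ) := [(140, 24), (312, 12)]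

theorem h1_10_19 (E : Env κ ι) : ip (F1_10 E) (F1_19 E) = dotS (ek E lk1) r1_10_19 :=
  op_entryZ E lk1 1 3 _ _ _ _ (pg0 κ) (pg1 ι) m1_10 m1_19 l1_19 z1_19 w1_19 x1_19 (by decide) _ (chkS_sound E lk1 1 3 _ _ _ _ t1_10_19)

def r1_10_20 : List (ℕ × ℤ) := [(305, 24), (313, 12)]

theorem h1_10_20 (E : Env κ ι) : ip (F1_10 E) (F1_20 E) = dotS (ek E lk1) r1_10_20 :=
  op_entryZ E lk1 1 3 _ _ _ _ (pg0 κ) (pg1 ι) m1_10 m1_20 l1_20 z1_20 w1_20 x1_20 (by decide) _ (chkS_sound E lk1 1 3 _ _ _ _ t1_10_20)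

def r1_10_21 : List (ℕ × ℤ) := [(150, 24), (314, 12)]

theorem h1_10_21 (E : Env κ ι) : ip (F1_10 E) (F1_21 E) = dotS (ek E lk1) r1_10_21 :=
  op_entryZ E lk1 1 3 _ _ _ _ (pg0 κ) (pg1 ι) m1_10 m1_21 l1_21 z1_21 w1_21 x1_21 (by decide) _ (chkS_sound E lk1 1 3 _ _ _ _ t1_10_21)

def r1_10_22 : List (ℕ × ℤ) := [(143, 24), (315, 12)]

theorem h1_10_22 (E : Env κ ι) : ip (F1_10 E) (F1_22 E) = dotS (ek E lk1) r1_10_22 :=
  op_entryZ E lk1 1 3 _ _ _ _ (pg0 κ) (pg1 ι) m1_10 m1_22 l1_22 z1_22 w1_22 x1_22 (by decide) _ (chkS_sound E lk1 1 3 _ _ _ _ t1_10_22)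

def r1_10_23 : List (ℕ × ℤ) := [(316, 24), (317, 12)]

theorem h1_10_23 (E : Env κ ι) : ip (F1_10 E) (F1_23 E) = dotS (ek E lk1) r1_10_23 :=
  op_entryZ E lk1 1 3 _ _ _ _ (pg0 κ) (pg1 ι) m1_10 m1_23 l1_23 z1_23 w1_23 x1_23 (by decide) _ (chkS_sound E lk1 1 3 _ _ _ _ t1_10_23)

def r1_10_24 : List (ℕ × ℤ) := [(318, 36)]

theorem h1_10_24 (E : Env κ ι) : ip (F1_10 E) (F1_24 E) = dotS (ek E lk1) r1_10_24 :=
  op_entryZ E lk1 1 3 _ _ _ _ (pg0 κ) (pg1 ι) m1_10 m1_24 l1_24 z1_24 w1_24 x1_24 (by decide) _ (chkS_sound E lk1 1 3 _ _ _ _ t1_10_24)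

def r1_11_11 : List (ℕ × ℤ) := [(128, 24), (132, 12)]

theorem h1_11_11 (E : Env κ ι) : ip (F1_11 E) (F1_11 E) = dotS (ek E lk1) r1_11_11 :=
  op_entryZ E lk1 1 3 _ _ _ _ (pg0 κ) (pg1 ι) m1_11 m1_11 l1_11 z1_11 w1_11 x1_11 (by decide) _ (chkS_sound E lk1 1 3 _ _ _ _ t1_11_11)

def r1_11_12 : List (ℕ × ℤ) := [(129, 12), (303, 12), (305, 12)]

theorem h1_11_12 (E : Env κ ι) : ip (F1_11 E) (F1_12 E) = dotS (ek E lk1) r1_11_12 :=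
  op_entryZ E lk1 1 3 _ _ _ _ (pg0 κ) (pg1 ι) m1_11 m1_12 l1_12 z1_12 w1_12 x1_12 (by decide) _ (chkS_sound E lk1 1 3 _ _ _ _ t1_11_12)

def r1_11_13 : List (ℕ × ℤ) := [(129, 24), (140, 12)]

theorem h1_11_13 (E : Env κ ι) : ip (F1_11 E) (F1_13 E) = dotS (ek E lk1) r1_11_13 :=
  op_entryZ E lk1 1 3 _ _ _ _ (pg0 κ) (pg1 ι) m1_11 m1_13 l1_13 z1_13 w1_13 x1_13 (by decide) _ (chkS_sound E lk1 1 3 _ _ _ _ t1_11_13)

def r1_11_14 : List (ℕ × ℤ) := [(128, 24), (319, 12)]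

theorem h1_11_14 (E : Env κ ι) : ip (F1_11 E) (F1_14 E) = dotS (ek E lk1) r1_11_14 :=
  op_entryZ E lk1 1 3 _ _ _ _ (pg0 κ) (pg1 ι) m1_11 m1_14 l1_14 z1_14 w1_14 x1_14 (by decide) _ (chkS_sound E lk1 1 3 _ _ _ _ t1_11_14)

def r1_11_15 : List (ℕ × ℤ) := [(121, 12), (133, 12), (305, 12)]

theorem h1_11_15 (E : Env κ ι) : ip (F1_11 E) (F1_15 E) = dotS (ek E lk1) r1_11_15 :=
  op_entryZ E lk1 1 3 _ _ _ _ (pg0 κ) (pg1 ι) m1_11 m1_15 l1_15 z1_15 w1_15 x1_15 (by decide) _ (chkS_sound E lk1 1 3 _ _ _ _ t1_11_15)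

def r1_11_16 : List (ℕ × ℤ) := [(125, 12), (134, 12), (150, 12)]

theorem h1_11_16 (E : Env κ ι) : ip (F1_11 E) (F1_16 E) = dotS (ek E lk1) r1_11_16 :=
  op_entryZ E lk1 1 3 _ _ _ _ (pg0 κ) (pg1 ι) m1_11 m1_16 l1_16 z1_16 w1_16 x1_16 (by decide) _ (chkS_sound E lk1 1 3 _ _ _ _ t1_11_16)

def r1_11_17 : List (ℕ × ℤ) := [(55, 12), (131, 24)]

theorem h1_11_17 (E : Env κ ι) : ip (F1_11 E) (F1_17 E) = dotS (ek E lk1) r1_11_17 :=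
  op_entryZ E lk1 1 3 _ _ _ _ (pg0 κ) (pg1 ι) m1_11 m1_17 l1_17 z1_17 w1_17 x1_17 (by decide) _ (chkS_sound E lk1 1 3 _ _ _ _ t1_11_17)

def r1_11_18 : List (ℕ × ℤ) := [(320, 12), (321, 24)]

theorem h1_11_18 (E : Env κ ι) : ip (F1_11 E) (F1_18 E) = dotS (ek E lk1) r1_11_18 :=
  op_entryZ E lk1 1 3 _ _ _ _ (pg0 κ) (pg1 ι) m1_11 m1_18 l1_18 z1_18 w1_18 x1_18 (by decide) _ (chkS_sound E lk1 1 3 _ _ _ _ t1_11_18)

def r1_11_19 : List (ℕ × ℤ) := [(16, 12), (140, 24)]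

theorem h1_11_19 (E : Env κ ι) : ip (F1_11 E) (F1_19 E) = dotS (ek E lk1) r1_11_19 :=
  op_entryZ E lk1 1 3 _ _ _ _ (pg0 κ) (pg1 ι) m1_11 m1_19 l1_19 z1_19 w1_19 x1_19 (by decide) _ (chkS_sound E lk1 1 3 _ _ _ _ t1_11_19)

def r1_11_20 : List (ℕ × ℤ) := [(130, 12), (305, 24)]

theorem h1_11_20 (E : Env κ ι) : ip (F1_11 E) (F1_20 E) = dotS (ek E lk1) r1_11_20 :=
  op_entryZ E lk1 1 3 _ _ _ _ (pg0 κ) (pg1 ι) m1_11 m1_20 l1_20 z1_20 w1_20 x1_20 (by decide) _ (chkS_sound E lk1 1 3 _ _ _ _ t1_11_20)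

def r1_11_21 : List (ℕ × ℤ) := [(48, 12), (150, 24)]

theorem h1_11_21 (E : Env κ ι) : ip (F1_11 E) (F1_21 E) = dotS (ek E lk1) r1_11_21 :=
  op_entryZ E lk1 1 3 _ _ _ _ (pg0 κ) (pg1 ι) m1_11 m1_21 l1_21 z1_21 w1_21 x1_21 (by decide) _ (chkS_sound E lk1 1 3 _ _ _ _ t1_11_21)

def r1_11_22 : List (ℕ × ℤ) := [(22, 12), (143, 24)]

theorem h1_11_22 (E : Env κ ι) : ip (F1_11 E) (F1_22 E) = dotS (ek E lk1) r1_11_22 :=
  op_entryZ E lk1 1 3 _ _ _ _ (pg0 κ) (pg1 ι) m1_11 m1_22 l1_22 z1_22 w1_22 x1_22 (by decide) _ (chkS_sound E lk1 1 3 _ _ _ _ t1_11_22)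

def r1_11_23 : List (ℕ × ℤ) := [(136, 12), (322, 24)]

theorem h1_11_23 (E : Env κ ι) : ip (F1_11 E) (F1_23 E) = dotS (ek E lk1) r1_11_23 :=
  op_entryZ E lk1 1 3 _ _ _ _ (pg0 κ) (pg1 ι) m1_11 m1_23 l1_23 z1_23 w1_23 x1_23 (by decide) _ (chkS_sound E lk1 1 3 _ _ _ _ t1_11_23)

def r1_11_24 : List (ℕ × ℤ) := [(151, 36)]

theorem h1_11_24 (E : Env κ ι) : ip (F1_11 E) (F1_24 E) = dotS (ek E lk1) r1_11_24 :=
  op_entryZ E lk1 1 3 _ _ _ _ (pg0 κ) (pg1 ι) m1_11 m1_24 l1_24 z1_24 w1_24 x1_24 (by decide) _ (chkS_sound E lk1 1 3 _ _ _ _ t1_11_24)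

def r1_12_12 : List (ℕ × ℤ) := [(128, 6), (133, 12), (156, 6), (302, 6), (323, 6)]

theorem h1_12_12 (E : Env κ ι) : ip (F1_12 E) (F1_12 E) = dotS (ek E lk1) r1_12_12 :=
  op_entryZ E lk1 1 3 _ _ _ _ (pg0 κ) (pg1 ι) m1_12 m1_12 l1_12 z1_12 w1_12 x1_12 (by decide) _ (chkS_sound E lk1 1 3 _ _ _ _ t1_12_12)

def r1_12_13 : List (ℕ × ℤ) := [(137, 12), (303, 12), (324, 12)]

theorem h1_12_13 (E : Env κ ι) : ip (F1_12 E) (F1_13 E) = dotS (ek E lk1) r1_12_13 :=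
  op_entryZ E lk1 1 3 _ _ _ _ (pg0 κ) (pg1 ι) m1_12 m1_13 l1_13 z1_13 w1_13 x1_13 (by decide) _ (chkS_sound E lk1 1 3 _ _ _ _ t1_12_13)

def r1_12_14 : List (ℕ × ℤ) := [(133, 12), (306, 12), (325, 12)]

theorem h1_12_14 (E : Env κ ι) : ip (F1_12 E) (F1_14 E) = dotS (ek E lk1) r1_12_14 :=
  op_entryZ E lk1 1 3 _ _ _ _ (pg0 κ) (pg1 ι) m1_12 m1_14 l1_14 z1_14 w1_14 x1_14 (by decide) _ (chkS_sound E lk1 1 3 _ _ _ _ t1_12_14)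

def r1_12_15 : List (ℕ × ℤ) := [(129, 6), (137, 6), (305, 6), (307, 6), (324, 6), (326, 6)]

theorem h1_12_15 (E : Env κ ι) : ip (F1_12 E) (F1_15 E) = dotS (ek E lk1) r1_12_15 :=
  op_entryZ E lk1 1 3 _ _ _ _ (pg0 κ) (pg1 ι) m1_12 m1_15 l1_15 z1_15 w1_15 x1_15 (by decide) _ (chkS_sound E lk1 1 3 _ _ _ _ t1_12_15)

def r1_12_16 : List (ℕ × ℤ) := [(131, 6), (134, 6), (150, 6), (157, 6), (308, 6), (327, 6)]

theorem h1_12_16 (E : Env κ ι) : ip (F1_12 E) (F1_16 E) = dotS (ek E lk1) r1_12_16 :=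
  op_entryZ E lk1 1 3 _ _ _ _ (pg0 κ) (pg1 ι) m1_12 m1_16 l1_16 z1_16 w1_16 x1_16 (by decide) _ (chkS_sound E lk1 1 3 _ _ _ _ t1_12_16)

def r1_12_17 : List (ℕ × ℤ) := [(134, 12), (309, 12), (328, 12)]

theorem h1_12_17 (E : Env κ ι) : ip (F1_12 E) (F1_17 E) = dotS (ek E lk1) r1_12_17 :=
  op_entryZ E lk1 1 3 _ _ _ _ (pg0 κ) (pg1 ι) m1_12 m1_17 l1_17 z1_17 w1_17 x1_17 (by decide) _ (chkS_sound E lk1 1 3 _ _ _ _ t1_12_17)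

def r1_12_18 : List (ℕ × ℤ) := [(329, 12), (330, 12), (331, 12)]

theorem h1_12_18 (E : Env κ ι) : ip (F1_12 E) (F1_18 E) = dotS (ek E lk1) r1_12_18 :=
  op_entryZ E lk1 1 3 _ _ _ _ (pg0 κ) (pg1 ι) m1_12 m1_18 l1_18 z1_18 w1_18 x1_18 (by decide) _ (chkS_sound E lk1 1 3 _ _ _ _ t1_12_18)

def r1_12_19 : List (ℕ × ℤ) := [(132, 12), (155, 12), (332, 12)]

theorem h1_12_19 (E : Env κ ι) : ip (F1_12 E) (F1_19 E) = dotS (ek E lk1) r1_12_19 :=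
  op_entryZ E lk1 1 3 _ _ _ _ (pg0 κ) (pg1 ι) m1_12 m1_19 l1_19 z1_19 w1_19 x1_19 (by decide) _ (chkS_sound E lk1 1 3 _ _ _ _ t1_12_19)

def r1_12_20 : List (ℕ × ℤ) := [(133, 12), (325, 12), (333, 12)]

theorem h1_12_20 (E : Env κ ι) : ip (F1_12 E) (F1_20 E) = dotS (ek E lk1) r1_12_20 :=
  op_entryZ E lk1 1 3 _ _ _ _ (pg0 κ) (pg1 ι) m1_12 m1_20 l1_20 z1_20 w1_20 x1_20 (by decide) _ (chkS_sound E lk1 1 3 _ _ _ _ t1_12_20)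

def r1_12_21 : List (ℕ × ℤ) := [(134, 12), (328, 12), (334, 12)]

theorem h1_12_21 (E : Env κ ι) : ip (F1_12 E) (F1_21 E) = dotS (ek E lk1) r1_12_21 :=
  op_entryZ E lk1 1 3 _ _ _ _ (pg0 κ) (pg1 ι) m1_12 m1_21 l1_21 z1_21 w1_21 x1_21 (by decide) _ (chkS_sound E lk1 1 3 _ _ _ _ t1_12_21)

def r1_12_22 : List (ℕ × ℤ) := [(70, 12), (135, 12), (335, 12)]

theorem h1_12_22 (E : Env κ ι) : ip (F1_12 E) (F1_22 E) = dotS (ek E lk1) r1_12_22 :=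
  op_entryZ E lk1 1 3 _ _ _ _ (pg0 κ) (pg1 ι) m1_12 m1_22 l1_22 z1_22 w1_22 x1_22 (by decide) _ (chkS_sound E lk1 1 3 _ _ _ _ t1_12_22)

def r1_12_23 : List (ℕ × ℤ) := [(316, 12), (336, 12), (337, 12)]

theorem h1_12_23 (E : Env κ ι) : ip (F1_12 E) (F1_23 E) = dotS (ek E lk1) r1_12_23 :=
  op_entryZ E lk1 1 3 _ _ _ _ (pg0 κ) (pg1 ι) m1_12 m1_23 l1_23 z1_23 w1_23 x1_23 (by decide) _ (chkS_sound E lk1 1 3 _ _ _ _ t1_12_23)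

def r1_12_24 : List (ℕ × ℤ) := [(338, 36)]

theorem h1_12_24 (E : Env κ ι) : ip (F1_12 E) (F1_24 E) = dotS (ek E lk1) r1_12_24 :=
  op_entryZ E lk1 1 3 _ _ _ _ (pg0 κ) (pg1 ι) m1_12 m1_24 l1_24 z1_24 w1_24 x1_24 (by decide) _ (chkS_sound E lk1 1 3 _ _ _ _ t1_12_24)

def r1_13_13 : List (ℕ × ℤ) := [(137, 24), (339, 12)]

theorem h1_13_13 (E : Env κ ι) : ip (F1_13 E) (F1_13 E) = dotS (ek E lk1) r1_13_13 :=
  op_entryZ E lk1 1 3 _ _ _ _ (pg0 κ) (pg1 ι) m1_13 m1_13 l1_13 z1_13 w1_13 x1_13 (by decide) _ (chkS_sound E lk1 1 3 _ _ _ _ t1_13_13)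

def r1_13_14 : List (ℕ × ℤ) := [(129, 24), (340, 12)]

theorem h1_13_14 (E : Env κ ι) : ip (F1_13 E) (F1_14 E) = dotS (ek E lk1) r1_13_14 :=
  op_entryZ E lk1 1 3 _ _ _ _ (pg0 κ) (pg1 ι) m1_13 m1_14 l1_14 z1_14 w1_14 x1_14 (by decide) _ (chkS_sound E lk1 1 3 _ _ _ _ t1_13_14)

def r1_13_15 : List (ℕ × ℤ) := [(122, 12), (141, 12), (324, 12)]

theorem h1_13_15 (E : Env κ ι) : ip (F1_13 E) (F1_15 E) = dotS (ek E lk1) r1_13_15 :=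
  op_entryZ E lk1 1 3 _ _ _ _ (pg0 κ) (pg1 ι) m1_13 m1_15 l1_15 z1_15 w1_15 x1_15 (by decide) _ (chkS_sound E lk1 1 3 _ _ _ _ t1_13_15)

def r1_13_16 : List (ℕ × ℤ) := [(125, 12), (142, 12), (157, 12)]

theorem h1_13_16 (E : Env κ ι) : ip (F1_13 E) (F1_16 E) = dotS (ek E lk1) r1_13_16 :=
  op_entryZ E lk1 1 3 _ _ _ _ (pg0 κ) (pg1 ι) m1_13 m1_16 l1_16 z1_16 w1_16 x1_16 (by decide) _ (chkS_sound E lk1 1 3 _ _ _ _ t1_13_16)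

def r1_13_17 : List (ℕ × ℤ) := [(52, 12), (134, 24)]

theorem h1_13_17 (E : Env κ ι) : ip (F1_13 E) (F1_17 E) = dotS (ek E lk1) r1_13_17 :=
  op_entryZ E lk1 1 3 _ _ _ _ (pg0 κ) (pg1 ι) m1_13 m1_17 l1_17 z1_17 w1_17 x1_17 (by decide) _ (chkS_sound E lk1 1 3 _ _ _ _ t1_13_17)

def r1_13_18 : List (ℕ × ℤ) := [(341, 12), (342, 24)]

theorem h1_13_18 (E : Env κ ι) : ip (F1_13 E) (F1_18 E) = dotS (ek E lk1) r1_13_18 :=
  op_entryZ E lk1 1 3 _ _ _ _ (pg0 κ) (pg1 ι) m1_13 m1_18 l1_18 z1_18 w1_18 x1_18 (by decide) _ (chkS_sound E lk1 1 3 _ _ _ _ t1_13_18)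

def r1_13_19 : List (ℕ × ℤ) := [(16, 12), (339, 24)]

theorem h1_13_19 (E : Env κ ι) : ip (F1_13 E) (F1_19 E) = dotS (ek E lk1) r1_13_19 :=
  op_entryZ E lk1 1 3 _ _ _ _ (pg0 κ) (pg1 ι) m1_13 m1_19 l1_19 z1_19 w1_19 x1_19 (by decide) _ (chkS_sound E lk1 1 3 _ _ _ _ t1_13_19)

def r1_13_20 : List (ℕ × ℤ) := [(138, 12), (324, 24)]

theorem h1_13_20 (E : Env κ ι) : ip (F1_13 E) (F1_20 E) = dotS (ek E lk1) r1_13_20 :=
  op_entryZ E lk1 1 3 _ _ _ _ (pg0 κ) (pg1 ι) m1_13 m1_20 l1_20 z1_20 w1_20 x1_20 (by decide) _ (chkS_sound E lk1 1 3 _ _ _ _ t1_13_20)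

def r1_13_21 : List (ℕ × ℤ) := [(139, 12), (157, 24)]

theorem h1_13_21 (E : Env κ ι) : ip (F1_13 E) (F1_21 E) = dotS (ek E lk1) r1_13_21 :=
  op_entryZ E lk1 1 3 _ _ _ _ (pg0 κ) (pg1 ι) m1_13 m1_21 l1_21 z1_21 w1_21 x1_21 (by decide) _ (chkS_sound E lk1 1 3 _ _ _ _ t1_13_21)

def r1_13_22 : List (ℕ × ℤ) := [(22, 12), (158, 24)]

theorem h1_13_22 (E : Env κ ι) : ip (F1_13 E) (F1_22 E) = dotS (ek E lk1) r1_13_22 :=
  op_entryZ E lk1 1 3 _ _ _ _ (pg0 κ) (pg1 ι) m1_13 m1_22 l1_22 z1_22 w1_22 x1_22 (by decide) _ (chkS_sound E lk1 1 3 _ _ _ _ t1_13_22)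

def r1_13_23 : List (ℕ × ℤ) := [(144, 12), (343, 24)]

theorem h1_13_23 (E : Env κ ι) : ip (F1_13 E) (F1_23 E) = dotS (ek E lk1) r1_13_23 :=
  op_entryZ E lk1 1 3 _ _ _ _ (pg0 κ) (pg1 ι) m1_13 m1_23 l1_23 z1_23 w1_23 x1_23 (by decide) _ (chkS_sound E lk1 1 3 _ _ _ _ t1_13_23)

def r1_13_24 : List (ℕ × ℤ) := [(159, 36)]

theorem h1_13_24 (E : Env κ ι) : ip (F1_13 E) (F1_24 E) = dotS (ek E lk1) r1_13_24 :=
  op_entryZ E lk1 1 3 _ _ _ _ (pg0 κ) (pg1 ι) m1_13 m1_24 l1_24 z1_24 w1_24 x1_24 (by decide) _ (chkS_sound E lk1 1 3 _ _ _ _ t1_13_24)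

def r1_14_14 : List (ℕ × ℤ) := [(128, 24), (344, 12)]

theorem h1_14_14 (E : Env κ ι) : ip (F1_14 E) (F1_14 E) = dotS (ek E lk1) r1_14_14 :=
  op_entryZ E lk1 1 3 _ _ _ _ (pg0 κ) (pg1 ι) m1_14 m1_14 l1_14 z1_14 w1_14 x1_14 (by decide) _ (chkS_sound E lk1 1 3 _ _ _ _ t1_14_14)

def r1_14_15 : List (ℕ × ℤ) := [(303, 12), (305, 12), (325, 12)]

theorem h1_14_15 (E : Env κ ι) : ip (F1_14 E) (F1_15 E) = dotS (ek E lk1) r1_14_15 :=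
  op_entryZ E lk1 1 3 _ _ _ _ (pg0 κ) (pg1 ι) m1_14 m1_15 l1_15 z1_15 w1_15 x1_15 (by decide) _ (chkS_sound E lk1 1 3 _ _ _ _ t1_14_15)

def r1_14_16 : List (ℕ × ℤ) := [(150, 12), (309, 12), (328, 12)]

theorem h1_14_16 (E : Env κ ι) : ip (F1_14 E) (F1_16 E) = dotS (ek E lk1) r1_14_16 :=
  op_entryZ E lk1 1 3 _ _ _ _ (pg0 κ) (pg1 ι) m1_14 m1_16 l1_16 z1_16 w1_16 x1_16 (by decide) _ (chkS_sound E lk1 1 3 _ _ _ _ t1_14_16)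

def r1_14_17 : List (ℕ × ℤ) := [(131, 24), (345, 12)]

theorem h1_14_17 (E : Env κ ι) : ip (F1_14 E) (F1_17 E) = dotS (ek E lk1) r1_14_17 :=
  op_entryZ E lk1 1 3 _ _ _ _ (pg0 κ) (pg1 ι) m1_14 m1_17 l1_17 z1_17 w1_17 x1_17 (by decide) _ (chkS_sound E lk1 1 3 _ _ _ _ t1_14_17)

def r1_14_18 : List (ℕ × ℤ) := [(331, 24), (346, 12)]

theorem h1_14_18 (E : Env κ ι) : ip (F1_14 E) (F1_18 E) = dotS (ek E lk1) r1_14_18 :=
  op_entryZ E lk1 1 3 _ _ _ _ (pg0 κ) (pg1 ι) m1_14 m1_18 l1_18 z1_18 w1_18 x1_18 (by decide) _ (chkS_sound E lk1 1 3 _ _ _ _ t1_14_18)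

def r1_14_19 : List (ℕ × ℤ) := [(126, 12), (155, 24)]

theorem h1_14_19 (E : Env κ ι) : ip (F1_14 E) (F1_19 E) = dotS (ek E lk1) r1_14_19 :=
  op_entryZ E lk1 1 3 _ _ _ _ (pg0 κ) (pg1 ι) m1_14 m1_19 l1_19 z1_19 w1_19 x1_19 (by decide) _ (chkS_sound E lk1 1 3 _ _ _ _ t1_14_19)

def r1_14_20 : List (ℕ × ℤ) := [(121, 12), (325, 24)]

theorem h1_14_20 (E : Env κ ι) : ip (F1_14 E) (F1_20 E) = dotS (ek E lk1) r1_14_20 :=
  op_entryZ E lk1 1 3 _ _ _ _ (pg0 κ) (pg1 ι) m1_14 m1_20 l1_20 z1_20 w1_20 x1_20 (by decide) _ (chkS_sound E lk1 1 3 _ _ _ _ t1_14_20)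

def r1_14_21 : List (ℕ × ℤ) := [(125, 12), (328, 24)]

theorem h1_14_21 (E : Env κ ι) : ip (F1_14 E) (F1_21 E) = dotS (ek E lk1) r1_14_21 :=
  op_entryZ E lk1 1 3 _ _ _ _ (pg0 κ) (pg1 ι) m1_14 m1_21 l1_21 z1_21 w1_21 x1_21 (by decide) _ (chkS_sound E lk1 1 3 _ _ _ _ t1_14_21)

def r1_14_22 : List (ℕ × ℤ) := [(70, 24), (127, 12)]

theorem h1_14_22 (E : Env κ ι) : ip (F1_14 E) (F1_22 E) = dotS (ek E lk1) r1_14_22 :=
  op_entryZ E lk1 1 3 _ _ _ _ (pg0 κ) (pg1 ι) m1_14 m1_22 l1_22 z1_22 w1_22 x1_22 (by decide) _ (chkS_sound E lk1 1 3 _ _ _ _ t1_14_22)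

def r1_14_23 : List (ℕ × ℤ) := [(322, 12), (347, 24)]

theorem h1_14_23 (E : Env κ ι) : ip (F1_14 E) (F1_23 E) = dotS (ek E lk1) r1_14_23 :=
  op_entryZ E lk1 1 3 _ _ _ _ (pg0 κ) (pg1 ι) m1_14 m1_23 l1_23 z1_23 w1_23 x1_23 (by decide) _ (chkS_sound E lk1 1 3 _ _ _ _ t1_14_23)

def r1_14_24 : List (ℕ × ℤ) := [(348, 36)]

theorem h1_14_24 (E : Env κ ι) : ip (F1_14 E) (F1_24 E) = dotS (ek E lk1) r1_14_24 :=
  op_entryZ E lk1 1 3 _ _ _ _ (pg0 κ) (pg1 ι) m1_14 m1_24 l1_24 z1_24 w1_24 x1_24 (by decide) _ (chkS_sound E lk1 1 3 _ _ _ _ t1_14_24)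

def r1_15_15 : List (ℕ × ℤ) := [(137, 6), (141, 12), (156, 6), (313, 6), (333, 6)]

theorem h1_15_15 (E : Env κ ι) : ip (F1_15 E) (F1_15 E) = dotS (ek E lk1) r1_15_15 :=
  op_entryZ E lk1 1 3 _ _ _ _ (pg0 κ) (pg1 ι) m1_15 m1_15 l1_15 z1_15 w1_15 x1_15 (by decide) _ (chkS_sound E lk1 1 3 _ _ _ _ t1_15_15)

def r1_15_16 : List (ℕ × ℤ) := [(134, 6), (142, 6), (150, 6), (157, 6), (314, 6), (334, 6)]

theorem h1_15_16 (E : Env κ ι) : ip (F1_15 E) (F1_16 E) = dotS (ek E lk1) r1_15_16 :=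
  op_entryZ E lk1 1 3 _ _ _ _ (pg0 κ) (pg1 ι) m1_15 m1_16 l1_16 z1_16 w1_16 x1_16 (by decide) _ (chkS_sound E lk1 1 3 _ _ _ _ t1_15_16)

def r1_15_17 : List (ℕ × ℤ) := [(125, 12), (150, 12), (328, 12)]

theorem h1_15_17 (E : Env κ ι) : ip (F1_15 E) (F1_17 E) = dotS (ek E lk1) r1_15_17 :=
  op_entryZ E lk1 1 3 _ _ _ _ (pg0 κ) (pg1 ι) m1_15 m1_17 l1_17 z1_17 w1_17 x1_17 (by decide) _ (chkS_sound E lk1 1 3 _ _ _ _ t1_15_17)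

def r1_15_18 : List (ℕ × ℤ) := [(342, 12), (349, 12), (350, 12)]

theorem h1_15_18 (E : Env κ ι) : ip (F1_15 E) (F1_18 E) = dotS (ek E lk1) r1_15_18 :=
  op_entryZ E lk1 1 3 _ _ _ _ (pg0 κ) (pg1 ι) m1_15 m1_18 l1_18 z1_18 w1_18 x1_18 (by decide) _ (chkS_sound E lk1 1 3 _ _ _ _ t1_15_18)

def r1_15_19 : List (ℕ × ℤ) := [(140, 12), (339, 12), (351, 12)]

theorem h1_15_19 (E : Env κ ι) : ip (F1_15 E) (F1_19 E) = dotS (ek E lk1) r1_15_19 :=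
  op_entryZ E lk1 1 3 _ _ _ _ (pg0 κ) (pg1 ι) m1_15 m1_19 l1_19 z1_19 w1_19 x1_19 (by decide) _ (chkS_sound E lk1 1 3 _ _ _ _ t1_15_19)

def r1_15_20 : List (ℕ × ℤ) := [(141, 12), (324, 12), (352, 12)]

theorem h1_15_20 (E : Env κ ι) : ip (F1_15 E) (F1_20 E) = dotS (ek E lk1) r1_15_20 :=
  op_entryZ E lk1 1 3 _ _ _ _ (pg0 κ) (pg1 ι) m1_15 m1_20 l1_20 z1_20 w1_20 x1_20 (by decide) _ (chkS_sound E lk1 1 3 _ _ _ _ t1_15_20)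

def r1_15_21 : List (ℕ × ℤ) := [(142, 12), (157, 12), (353, 12)]

theorem h1_15_21 (E : Env κ ι) : ip (F1_15 E) (F1_21 E) = dotS (ek E lk1) r1_15_21 :=
  op_entryZ E lk1 1 3 _ _ _ _ (pg0 κ) (pg1 ι) m1_15 m1_21 l1_21 z1_21 w1_21 x1_21 (by decide) _ (chkS_sound E lk1 1 3 _ _ _ _ t1_15_21)

def r1_15_22 : List (ℕ × ℤ) := [(143, 12), (158, 12), (354, 12)]

theorem h1_15_22 (E : Env κ ι) : ip (F1_15 E) (F1_22 E) = dotS (ek E lk1) r1_15_22 :=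
  op_entryZ E lk1 1 3 _ _ _ _ (pg0 κ) (pg1 ι) m1_15 m1_22 l1_22 z1_22 w1_22 x1_22 (by decide) _ (chkS_sound E lk1 1 3 _ _ _ _ t1_15_22)

def r1_15_23 : List (ℕ × ℤ) := [(317, 12), (337, 12), (355, 12)]

theorem h1_15_23 (E : Env κ ι) : ip (F1_15 E) (F1_23 E) = dotS (ek E lk1) r1_15_23 :=
  op_entryZ E lk1 1 3 _ _ _ _ (pg0 κ) (pg1 ι) m1_15 m1_23 l1_23 z1_23 w1_23 x1_23 (by decide) _ (chkS_sound E lk1 1 3 _ _ _ _ t1_15_23)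

def r1_15_24 : List (ℕ × ℤ) := [(356, 36)]

theorem h1_15_24 (E : Env κ ι) : ip (F1_15 E) (F1_24 E) = dotS (ek E lk1) r1_15_24 :=
  op_entryZ E lk1 1 3 _ _ _ _ (pg0 κ) (pg1 ι) m1_15 m1_24 l1_24 z1_24 w1_24 x1_24 (by decide) _ (chkS_sound E lk1 1 3 _ _ _ _ t1_15_24)

def r1_16_16 : List (ℕ × ℤ) := [(135, 6), (143, 12), (158, 6), (315, 6), (335, 6)]

theorem h1_16_16 (E : Env κ ι) : ip (F1_16 E) (F1_16 E) = dotS (ek E lk1) r1_16_16 :=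
  op_entryZ E lk1 1 3 _ _ _ _ (pg0 κ) (pg1 ι) m1_16 m1_16 l1_16 z1_16 w1_16 x1_16 (by decide) _ (chkS_sound E lk1 1 3 _ _ _ _ t1_16_16)

def r1_16_17 : List (ℕ × ℤ) := [(70, 12), (127, 12), (143, 12)]

theorem h1_16_17 (E : Env κ ι) : ip (F1_16 E) (F1_17 E) = dotS (ek E lk1) r1_16_17 :=
  op_entryZ E lk1 1 3 _ _ _ _ (pg0 κ) (pg1 ι) m1_16 m1_17 l1_17 z1_17 w1_17 x1_17 (by decide) _ (chkS_sound E lk1 1 3 _ _ _ _ t1_16_17)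

def r1_16_18 : List (ℕ × ℤ) := [(357, 12), (358, 12), (359, 12)]

theorem h1_16_18 (E : Env κ ι) : ip (F1_16 E) (F1_18 E) = dotS (ek E lk1) r1_16_18 :=
  op_entryZ E lk1 1 3 _ _ _ _ (pg0 κ) (pg1 ι) m1_16 m1_18 l1_18 z1_18 w1_18 x1_18 (by decide) _ (chkS_sound E lk1 1 3 _ _ _ _ t1_16_18)

def r1_16_19 : List (ℕ × ℤ) := [(52, 12), (55, 12), (360, 12)]

theorem h1_16_19 (E : Env κ ι) : ip (F1_16 E) (F1_19 E) = dotS (ek E lk1) r1_16_19 :=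
  op_entryZ E lk1 1 3 _ _ _ _ (pg0 κ) (pg1 ι) m1_16 m1_19 l1_19 z1_19 w1_19 x1_19 (by decide) _ (chkS_sound E lk1 1 3 _ _ _ _ t1_16_19)

def r1_16_20 : List (ℕ × ℤ) := [(150, 12), (328, 12), (353, 12)]

theorem h1_16_20 (E : Env κ ι) : ip (F1_16 E) (F1_20 E) = dotS (ek E lk1) r1_16_20 :=
  op_entryZ E lk1 1 3 _ _ _ _ (pg0 κ) (pg1 ι) m1_16 m1_20 l1_20 z1_20 w1_20 x1_20 (by decide) _ (chkS_sound E lk1 1 3 _ _ _ _ t1_16_20)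

def r1_16_21 : List (ℕ × ℤ) := [(70, 12), (143, 12), (354, 12)]

theorem h1_16_21 (E : Env κ ι) : ip (F1_16 E) (F1_21 E) = dotS (ek E lk1) r1_16_21 :=
  op_entryZ E lk1 1 3 _ _ _ _ (pg0 κ) (pg1 ι) m1_16 m1_21 l1_21 z1_21 w1_21 x1_21 (by decide) _ (chkS_sound E lk1 1 3 _ _ _ _ t1_16_21)

def r1_16_22 : List (ℕ × ℤ) := [(39, 12), (58, 12), (361, 12)]

theorem h1_16_22 (E : Env κ ι) : ip (F1_16 E) (F1_22 E) = dotS (ek E lk1) r1_16_22 :=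
  op_entryZ E lk1 1 3 _ _ _ _ (pg0 κ) (pg1 ι) m1_16 m1_22 l1_22 z1_22 w1_22 x1_22 (by decide) _ (chkS_sound E lk1 1 3 _ _ _ _ t1_16_22)

def r1_16_23 : List (ℕ × ℤ) := [(318, 12), (338, 12), (356, 12)]

theorem h1_16_23 (E : Env κ ι) : ip (F1_16 E) (F1_23 E) = dotS (ek E lk1) r1_16_23 :=
  op_entryZ E lk1 1 3 _ _ _ _ (pg0 κ) (pg1 ι) m1_16 m1_23 l1_23 z1_23 w1_23 x1_23 (by decide) _ (chkS_sound E lk1 1 3 _ _ _ _ t1_16_23)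

def r1_16_24 : List (ℕ × ℤ) := [(362, 36)]

theorem h1_16_24 (E : Env κ ι) : ip (F1_16 E) (F1_24 E) = dotS (ek E lk1) r1_16_24 :=
  op_entryZ E lk1 1 3 _ _ _ _ (pg0 κ) (pg1 ι) m1_16 m1_24 l1_24 z1_24 w1_24 x1_24 (by decide) _ (chkS_sound E lk1 1 3 _ _ _ _ t1_16_24)

def r1_17_17 : List (ℕ × ℤ) := [(4, 12), (135, 24)]

theorem h1_17_17 (E : Env κ ι) : ip (F1_17 E) (F1_17 E) = dotS (ek E lk1) r1_17_17 :=
  op_entryZ E lk1 1 3 _ _ _ _ (pg0 κ) (pg1 ι) m1_17 m1_17 l1_17 z1_17 w1_17 x1_17 (by decide) _ (chkS_sound E lk1 1 3 _ _ _ _ t1_17_17)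

def r1_17_18 : List (ℕ × ℤ) := [(45, 12), (359, 24)]

theorem h1_17_18 (E : Env κ ι) : ip (F1_17 E) (F1_18 E) = dotS (ek E lk1) r1_17_18 :=
  op_entryZ E lk1 1 3 _ _ _ _ (pg0 κ) (pg1 ι) m1_17 m1_18 l1_18 z1_18 w1_18 x1_18 (by decide) _ (chkS_sound E lk1 1 3 _ _ _ _ t1_17_18)

def r1_17_19 : List (ℕ × ℤ) := [(51, 12), (52, 24)]

theorem h1_17_19 (E : Env κ ι) : ip (F1_17 E) (F1_19 E) = dotS (ek E lk1) r1_17_19 :=
  op_entryZ E lk1 1 3 _ _ _ _ (pg0 κ) (pg1 ι) m1_17 m1_19 l1_19 z1_19 w1_19 x1_19 (by decide) _ (chkS_sound E lk1 1 3 _ _ _ _ t1_17_19)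

def r1_17_20 : List (ℕ × ℤ) := [(48, 12), (328, 24)]

theorem h1_17_20 (E : Env κ ι) : ip (F1_17 E) (F1_20 E) = dotS (ek E lk1) r1_17_20 :=
  op_entryZ E lk1 1 3 _ _ _ _ (pg0 κ) (pg1 ι) m1_17 m1_20 l1_20 z1_20 w1_20 x1_20 (by decide) _ (chkS_sound E lk1 1 3 _ _ _ _ t1_17_20)

def r1_17_21 : List (ℕ × ℤ) := [(22, 12), (70, 24)]

theorem h1_17_21 (E : Env κ ι) : ip (F1_17 E) (F1_21 E) = dotS (ek E lk1) r1_17_21 :=
  op_entryZ E lk1 1 3 _ _ _ _ (pg0 κ) (pg1 ι) m1_17 m1_21 l1_21 z1_21 w1_21 x1_21 (by decide) _ (chkS_sound E lk1 1 3 _ _ _ _ t1_17_21)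

def r1_17_22 : List (ℕ × ℤ) := [(39, 24), (57, 12)]

theorem h1_17_22 (E : Env κ ι) : ip (F1_17 E) (F1_22 E) = dotS (ek E lk1) r1_17_22 :=
  op_entryZ E lk1 1 3 _ _ _ _ (pg0 κ) (pg1 ι) m1_17 m1_22 l1_22 z1_22 w1_22 x1_22 (by decide) _ (chkS_sound E lk1 1 3 _ _ _ _ t1_17_22)

def r1_17_23 : List (ℕ × ℤ) := [(151, 12), (348, 24)]

theorem h1_17_23 (E : Env κ ι) : ip (F1_17 E) (F1_23 E) = dotS (ek E lk1) r1_17_23 :=
  op_entryZ E lk1 1 3 _ _ _ _ (pg0 κ) (pg1 ι) m1_17 m1_23 l1_23 z1_23 w1_23 x1_23 (by decide) _ (chkS_sound E lk1 1 3 _ _ _ _ t1_17_23)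

def r1_17_24 : List (ℕ × ℤ) := [(23, 36)]

theorem h1_17_24 (E : Env κ ι) : ip (F1_17 E) (F1_24 E) = dotS (ek E lk1) r1_17_24 :=
  op_entryZ E lk1 1 3 _ _ _ _ (pg0 κ) (pg1 ι) m1_17 m1_24 l1_24 z1_24 w1_24 x1_24 (by decide) _ (chkS_sound E lk1 1 3 _ _ _ _ t1_17_24)

def r1_18_18 : List (ℕ × ℤ) := [(363, 12), (364, 24)]

theorem h1_18_18 (E : Env κ ι) : ip (F1_18 E) (F1_18 E) = dotS (ek E lk1) r1_18_18 :=
  op_entryZ E lk1 1 3 _ _ _ _ (pg0 κ) (pg1 ι) m1_18 m1_18 l1_18 z1_18 w1_18 x1_18 (by decide) _ (chkS_sound E lk1 1 3 _ _ _ _ t1_18_18)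

def r1_18_19 : List (ℕ × ℤ) := [(20, 12), (365, 24)]

theorem h1_18_19 (E : Env κ ι) : ip (F1_18 E) (F1_19 E) = dotS (ek E lk1) r1_18_19 :=
  op_entryZ E lk1 1 3 _ _ _ _ (pg0 κ) (pg1 ι) m1_18 m1_19 l1_19 z1_19 w1_19 x1_19 (by decide) _ (chkS_sound E lk1 1 3 _ _ _ _ t1_18_19)

def r1_18_20 : List (ℕ × ℤ) := [(152, 12), (366, 24)]

theorem h1_18_20 (E : Env κ ι) : ip (F1_18 E) (F1_20 E) = dotS (ek E lk1) r1_18_20 :=
  op_entryZ E lk1 1 3 _ _ _ _ (pg0 κ) (pg1 ι) m1_18 m1_20 l1_20 z1_20 w1_20 x1_20 (by decide) _ (chkS_sound E lk1 1 3 _ _ _ _ t1_18_20)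

def r1_18_21 : List (ℕ × ℤ) := [(153, 12), (367, 24)]

theorem h1_18_21 (E : Env κ ι) : ip (F1_18 E) (F1_21 E) = dotS (ek E lk1) r1_18_21 :=
  op_entryZ E lk1 1 3 _ _ _ _ (pg0 κ) (pg1 ι) m1_18 m1_21 l1_21 z1_21 w1_21 x1_21 (by decide) _ (chkS_sound E lk1 1 3 _ _ _ _ t1_18_21)

def r1_18_22 : List (ℕ × ℤ) := [(154, 12), (368, 24)]

theorem h1_18_22 (E : Env κ ι) : ip (F1_18 E) (F1_22 E) = dotS (ek E lk1) r1_18_22 :=
  op_entryZ E lk1 1 3 _ _ _ _ (pg0 κ) (pg1 ι) m1_18 m1_22 l1_22 z1_22 w1_22 x1_22 (by decide) _ (chkS_sound E lk1 1 3 _ _ _ _ t1_18_22)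

def r1_18_23 : List (ℕ × ℤ) := [(369, 12), (370, 24)]

theorem h1_18_23 (E : Env κ ι) : ip (F1_18 E) (F1_23 E) = dotS (ek E lk1) r1_18_23 :=
  op_entryZ E lk1 1 3 _ _ _ _ (pg0 κ) (pg1 ι) m1_18 m1_23 l1_23 z1_23 w1_23 x1_23 (by decide) _ (chkS_sound E lk1 1 3 _ _ _ _ t1_18_23)

def r1_18_24 : List (ℕ × ℤ) := [(371, 36)]

theorem h1_18_24 (E : Env κ ι) : ip (F1_18 E) (F1_24 E) = dotS (ek E lk1) r1_18_24 :=
  op_entryZ E lk1 1 3 _ _ _ _ (pg0 κ) (pg1 ι) m1_18 m1_24 l1_24 z1_24 w1_24 x1_24 (by decide) _ (chkS_sound E lk1 1 3 _ _ _ _ t1_18_24)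

def r1_19_19 : List (ℕ × ℤ) := [(18, 24), (372, 12)]

theorem h1_19_19 (E : Env κ ι) : ip (F1_19 E) (F1_19 E) = dotS (ek E lk1) r1_19_19 :=
  op_entryZ E lk1 1 3 _ _ _ _ (pg0 κ) (pg1 ι) m1_19 m1_19 l1_19 z1_19 w1_19 x1_19 (by decide) _ (chkS_sound E lk1 1 3 _ _ _ _ t1_19_19)

def r1_19_20 : List (ℕ × ℤ) := [(15, 12), (155, 24)]

theorem h1_19_20 (E : Env κ ι) : ip (F1_19 E) (F1_20 E) = dotS (ek E lk1) r1_19_20 :=
  op_entryZ E lk1 1 3 _ _ _ _ (pg0 κ) (pg1 ι) m1_19 m1_20 l1_20 z1_20 w1_20 x1_20 (by decide) _ (chkS_sound E lk1 1 3 _ _ _ _ t1_19_20)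

def r1_19_21 : List (ℕ × ℤ) := [(50, 12), (52, 24)]

theorem h1_19_21 (E : Env κ ι) : ip (F1_19 E) (F1_21 E) = dotS (ek E lk1) r1_19_21 :=
  op_entryZ E lk1 1 3 _ _ _ _ (pg0 κ) (pg1 ι) m1_19 m1_21 l1_21 z1_21 w1_21 x1_21 (by decide) _ (chkS_sound E lk1 1 3 _ _ _ _ t1_19_21)

def r1_19_22 : List (ℕ × ℤ) := [(4, 24), (27, 12)]

theorem h1_19_22 (E : Env κ ι) : ip (F1_19 E) (F1_22 E) = dotS (ek E lk1) r1_19_22 :=
  op_entryZ E lk1 1 3 _ _ _ _ (pg0 κ) (pg1 ι) m1_19 m1_22 l1_22 z1_22 w1_22 x1_22 (by decide) _ (chkS_sound E lk1 1 3 _ _ _ _ t1_19_22)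

def r1_19_23 : List (ℕ × ℤ) := [(14, 12), (373, 24)]

theorem h1_19_23 (E : Env κ ι) : ip (F1_19 E) (F1_23 E) = dotS (ek E lk1) r1_19_23 :=
  op_entryZ E lk1 1 3 _ _ _ _ (pg0 κ) (pg1 ι) m1_19 m1_23 l1_23 z1_23 w1_23 x1_23 (by decide) _ (chkS_sound E lk1 1 3 _ _ _ _ t1_19_23)

def r1_19_24 : List (ℕ × ℤ) := [(49, 36)]

theorem h1_19_24 (E : Env κ ι) : ip (F1_19 E) (F1_24 E) = dotS (ek E lk1) r1_19_24 :=
  op_entryZ E lk1 1 3 _ _ _ _ (pg0 κ) (pg1 ι) m1_19 m1_24 l1_24 z1_24 w1_24 x1_24 (by decide) _ (chkS_sound E lk1 1 3 _ _ _ _ t1_19_24)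

def r1_20_20 : List (ℕ × ℤ) := [(156, 24), (374, 12)]

theorem h1_20_20 (E : Env κ ι) : ip (F1_20 E) (F1_20 E) = dotS (ek E lk1) r1_20_20 :=
  op_entryZ E lk1 1 3 _ _ _ _ (pg0 κ) (pg1 ι) m1_20 m1_20 l1_20 z1_20 w1_20 x1_20 (by decide) _ (chkS_sound E lk1 1 3 _ _ _ _ t1_20_20)

def r1_20_21 : List (ℕ × ℤ) := [(47, 12), (157, 24)]

theorem h1_20_21 (E : Env κ ι) : ip (F1_20 E) (F1_21 E) = dotS (ek E lk1) r1_20_21 :=
  op_entryZ E lk1 1 3 _ _ _ _ (pg0 κ) (pg1 ι) m1_20 m1_21 l1_21 z1_21 w1_21 x1_21 (by decide) _ (chkS_sound E lk1 1 3 _ _ _ _ t1_20_21)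

def r1_20_22 : List (ℕ × ℤ) := [(3, 12), (70, 24)]

theorem h1_20_22 (E : Env κ ι) : ip (F1_20 E) (F1_22 E) = dotS (ek E lk1) r1_20_22 :=
  op_entryZ E lk1 1 3 _ _ _ _ (pg0 κ) (pg1 ι) m1_20 m1_22 l1_22 z1_22 w1_22 x1_22 (by decide) _ (chkS_sound E lk1 1 3 _ _ _ _ t1_20_22)

def r1_20_23 : List (ℕ × ℤ) := [(355, 24), (375, 12)]

theorem h1_20_23 (E : Env κ ι) : ip (F1_20 E) (F1_23 E) = dotS (ek E lk1) r1_20_23 :=
  op_entryZ E lk1 1 3 _ _ _ _ (pg0 κ) (pg1 ι) m1_20 m1_23 l1_23 z1_23 w1_23 x1_23 (by decide) _ (chkS_sound E lk1 1 3 _ _ _ _ t1_20_23)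

def r1_20_24 : List (ℕ × ℤ) := [(46, 36)]

theorem h1_20_24 (E : Env κ ι) : ip (F1_20 E) (F1_24 E) = dotS (ek E lk1) r1_20_24 :=
  op_entryZ E lk1 1 3 _ _ _ _ (pg0 κ) (pg1 ι) m1_20 m1_24 l1_24 z1_24 w1_24 x1_24 (by decide) _ (chkS_sound E lk1 1 3 _ _ _ _ t1_20_24)

def r1_21_21 : List (ℕ × ℤ) := [(3, 12), (158, 24)]

theorem h1_21_21 (E : Env κ ι) : ip (F1_21 E) (F1_21 E) = dotS (ek E lk1) r1_21_21 :=
  op_entryZ E lk1 1 3 _ _ _ _ (pg0 κ) (pg1 ι) m1_21 m1_21 l1_21 z1_21 w1_21 x1_21 (by decide) _ (chkS_sound E lk1 1 3 _ _ _ _ t1_21_21)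

def r1_21_22 : List (ℕ × ℤ) := [(39, 24), (40, 12)]

theorem h1_21_22 (E : Env κ ι) : ip (F1_21 E) (F1_22 E) = dotS (ek E lk1) r1_21_22 :=
  op_entryZ E lk1 1 3 _ _ _ _ (pg0 κ) (pg1 ι) m1_21 m1_22 l1_22 z1_22 w1_22 x1_22 (by decide) _ (chkS_sound E lk1 1 3 _ _ _ _ t1_21_22)

def r1_21_23 : List (ℕ × ℤ) := [(46, 12), (356, 24)]

theorem h1_21_23 (E : Env κ ι) : ip (F1_21 E) (F1_23 E) = dotS (ek E lk1) r1_21_23 :=
  op_entryZ E lk1 1 3 _ _ _ _ (pg0 κ) (pg1 ι) m1_21 m1_23 l1_23 z1_23 w1_23 x1_23 (by decide) _ (chkS_sound E lk1 1 3 _ _ _ _ t1_21_23)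

def r1_21_24 : List (ℕ × ℤ) := [(2, 36)]

theorem h1_21_24 (E : Env κ ι) : ip (F1_21 E) (F1_24 E) = dotS (ek E lk1) r1_21_24 :=
  op_entryZ E lk1 1 3 _ _ _ _ (pg0 κ) (pg1 ι) m1_21 m1_24 l1_24 z1_24 w1_24 x1_24 (by decide) _ (chkS_sound E lk1 1 3 _ _ _ _ t1_21_24)

def r1_22_22 : List (ℕ × ℤ) := [(1, 24), (26, 12)]

theorem h1_22_22 (E : Env κ ι) : ip (F1_22 E) (F1_22 E) = dotS (ek E lk1) r1_22_22 :=
  op_entryZ E lk1 1 3 _ _ _ _ (pg0 κ) (pg1 ι) m1_22 m1_22 l1_22 z1_22 w1_22 x1_22 (by decide) _ (chkS_sound E lk1 1 3 _ _ _ _ t1_22_22)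

def r1_22_23 : List (ℕ × ℤ) := [(2, 12), (362, 24)]

theorem h1_22_23 (E : Env κ ι) : ip (F1_22 E) (F1_23 E) = dotS (ek E lk1) r1_22_23 :=
  op_entryZ E lk1 1 3 _ _ _ _ (pg0 κ) (pg1 ι) m1_22 m1_23 l1_23 z1_23 w1_23 x1_23 (by decide) _ (chkS_sound E lk1 1 3 _ _ _ _ t1_22_23)

def r1_22_24 : List (ℕ × ℤ) := [(38, 36)]

theorem h1_22_24 (E : Env κ ι) : ip (F1_22 E) (F1_24 E) = dotS (ek E lk1) r1_22_24 :=
  op_entryZ E lk1 1 3 _ _ _ _ (pg0 κ) (pg1 ι) m1_22 m1_24 l1_24 z1_24 w1_24 x1_24 (by decide) _ (chkS_sound E lk1 1 3 _ _ _ _ t1_22_24)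

def r1_23_23 : List (ℕ × ℤ) := [(376, 12), (377, 24)]

theorem h1_23_23 (E : Env κ ι) : ip (F1_23 E) (F1_23 E) = dotS (ek E lk1) r1_23_23 :=
  op_entryZ E lk1 1 3 _ _ _ _ (pg0 κ) (pg1 ι) m1_23 m1_23 l1_23 z1_23 w1_23 x1_23 (by decide) _ (chkS_sound E lk1 1 3 _ _ _ _ t1_23_23)

def r1_23_24 : List (ℕ × ℤ) := [(378, 36)]

theorem h1_23_24 (E : Env κ ι) : ip (F1_23 E) (F1_24 E) = dotS (ek E lk1) r1_23_24 :=
  op_entryZ E lk1 1 3 _ _ _ _ (pg0 κ) (pg1 ι) m1_23 m1_24 l1_24 z1_24 w1_24 x1_24 (by decide) _ (chkS_sound E lk1 1 3 _ _ _ _ t1_23_24)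

def r1_24_24 : List (ℕ × ℤ) := [(0, 36)]

theorem h1_24_24 (E : Env κ ι) : ip (F1_24 E) (F1_24 E) = dotS (ek E lk1) r1_24_24 :=
  op_entryZ E lk1 1 3 _ _ _ _ (pg0 κ) (pg1 ι) m1_24 m1_24 l1_24 z1_24 w1_24 x1_24 (by decide) _ (chkS_sound E lk1 1 3 _ _ _ _ t1_24_24)

theorem row1_0 (E : Env κ ι) : RowG (ek E lk1) (F1_0 E) [F1_0 E, F1_1 E, F1_2 E, F1_3 E, F1_4 E, F1_5 E, F1_6 E, F1_7 E, F1_8 E, F1_9 E, F1_10 E, F1_11 E, F1_12 E, F1_13 E, F1_14 E, F1_15 E, F1_16 E, F1_17 E, F1_18 E, F1_19 E, F1_20 E, F1_21 E, F1_22 E, F1_23 E, F1_24 E] [r1_0_0, r1_0_1, r1_0_2, r1_0_3, r1_0_4, r1_0_5, r1_0_6, r1_0_7, r1_0_8, r1_0_9, r1_0_10, r1_0_11, r1_0_12, r1_0_13, r1_0_14, r1_0_15, r1_0_16, r1_0_17, r1_0_18, r1_0_19, r1_0_20, r1_0_21, r1_0_22, r1_0_23, r1_0_24] :=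
  rowG_cons _ _ _ _ _ _ (h1_0_0 E) (rowG_cons _ _ _ _ _ _ (h1_0_1 E) (rowG_cons _ _ _ _ _ _ (h1_0_2 E) (rowG_cons _ _ _ _ _ _ (h1_0_3 E) (rowG_cons _ _ _ _ _ _ (h1_0_4 E) (rowG_cons _ _ _ _ _ _ (h1_0_5 E) (rowG_cons _ _ _ _ _ _ (h1_0_6 E) (rowG_cons _ _ _ _ _ _ (h1_0_7 E) (rowG_cons _ _ _ _ _ _ (h1_0_8 E) (rowG_cons _ _ _ _ _ _ (h1_0_9 E) (rowG_cons _ _ _ _ _ _ (h1_0_10 E) (rowG_cons _ _ _ _ _ _ (h1_0_11 E) (rowG_cons _ _ _ _ _ _ (h1_0_12 E) (rowG_cons _ _ _ _ _ _ (h1_0_13 E) (rowG_cons _ _ _ _ _ _ (h1_0_14 E) (rowG_cons _ _ _ _ _ _ (h1_0_15 E) (rowG_cons _ _ _ _ _ _ (h1_0_16 E) (rowG_cons _ _ _ _ _ _ (h1_0_17 E) (rowG_cons _ _ _ _ _ _ (h1_0_18 E) (rowG_cons _ _ _ _ _ _ (h1_0_19 E) (rowG_cons _ _ _ _ _ _ (h1_0_20 E) (rowG_cons _ _ _ _ _ _ (h1_0_21 E) (rowG_cons _ _ _ _ _ _ (h1_0_22 E) (rowG_cons _ _ _ _ _ _ (h1_0_23 E) (rowG_cons _ _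 _ _ _ _ (h1_0_24 E) (rowG_nil _ _)))))))))))))))))))))))))

theorem row1_1 (E : Env κ ι) : RowG (ek E lk1) (F1_1 E) [F1_1 E, F1_2 E, F1_3 E, F1_4 E, F1_5 E, F1_6 E, F1_7 E, F1_8 E, F1_9 E, F1_10 E, F1_11 E, F1_12 E, F1_13 E, F1_14 E, F1_15 E, F1_16 E, F1_17 E, F1_18 E, F1_19 E, F1_20 E, F1_21 E, F1_22 E, F1_23 E, F1_24 E] [r1_1_1, r1_1_2, r1_1_3, r1_1_4, r1_1_5, r1_1_6, r1_1_7, r1_1_8, r1_1_9, r1_1_10, r1_1_11, r1_1_12, r1_1_13, r1_1_14, r1_1_15, r1_1_16, r1_1_17, r1_1_18, r1_1_19, r1_1_20, r1_1_21, r1_1_22, r1_1_23, r1_1_24] :=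
  rowG_cons _ _ _ _ _ _ (h1_1_1 E) (rowG_cons _ _ _ _ _ _ (h1_1_2 E) (rowG_cons _ _ _ _ _ _ (h1_1_3 E) (rowG_cons _ _ _ _ _ _ (h1_1_4 E) (rowG_cons _ _ _ _ _ _ (h1_1_5 E) (rowG_cons _ _ _ _ _ _ (h1_1_6 E) (rowG_cons _ _ _ _ _ _ (h1_1_7 E) (rowG_cons _ _ _ _ _ _ (h1_1_8 E) (rowG_cons _ _ _ _ _ _ (h1_1_9 E) (rowG_cons _ _ _ _ _ _ (h1_1_10 E) (rowG_cons _ _ _ _ _ _ (h1_1_11 E) (rowG_cons _ _ _ _ _ _ (h1_1_12 E) (rowG_cons _ _ _ _ _ _ (h1_1_13 E) (rowG_cons _ _ _ _ _ _ (h1_1_14 E) (rowG_cons _ _ _ _ _ _ (h1_1_15 E) (rowG_cons _ _ _ _ _ _ (h1_1_16 E) (rowG_cons _ _ _ _ _ _ (h1_1_17 E) (rowG_cons _ _ _ _ _ _ (h1_1_18 E) (rowG_cons _ _ _ _ _ _ (h1_1_19 E) (rowG_cons _ _ _ _ _ _ (h1_1_20 E) (rowG_cons _ _ _ _ _ _ (h1_1_21 E) (rowG_cons _ _ _ _ _ _ (h1_1_22 E) (rowG_cons _ _ _ _ _ _ (h1_1_23 E) (rowG_cons _ _ _ _ _ _ (h1_1_24 E) (rowG_nil _ _))))))))))))))))))))))))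

theorem row1_2 (E : Env κ ι) : RowG (ek E lk1) (F1_2 E) [F1_2 E, F1_3 E, F1_4 E, F1_5 E, F1_6 E, F1_7 E, F1_8 E, F1_9 E, F1_10 E, F1_11 E, F1_12 E, F1_13 E, F1_14 E, F1_15 E, F1_16 E, F1_17 E, F1_18 E, F1_19 E, F1_20 E, F1_21 E, F1_22 E, F1_23 E, F1_24 E] [r1_2_2, r1_2_3, r1_2_4, r1_2_5, r1_2_6, r1_2_7, r1_2_8, r1_2_9, r1_2_10, r1_2_11, r1_2_12, r1_2_13, r1_2_14, r1_2_15, r1_2_16, r1_2_17, r1_2_18, r1_2_19, r1_2_20, r1_2_21, r1_2_22, r1_2_23, r1_2_24] :=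
  rowG_cons _ _ _ _ _ _ (h1_2_2 E) (rowG_cons _ _ _ _ _ _ (h1_2_3 E) (rowG_cons _ _ _ _ _ _ (h1_2_4 E) (rowG_cons _ _ _ _ _ _ (h1_2_5 E) (rowG_cons _ _ _ _ _ _ (h1_2_6 E) (rowG_cons _ _ _ _ _ _ (h1_2_7 E) (rowG_cons _ _ _ _ _ _ (h1_2_8 E) (rowG_cons _ _ _ _ _ _ (h1_2_9 E) (rowG_cons _ _ _ _ _ _ (h1_2_10 E) (rowG_cons _ _ _ _ _ _ (h1_2_11 E) (rowG_cons _ _ _ _ _ _ (h1_2_12 E) (rowG_cons _ _ _ _ _ _ (h1_2_13 E) (rowG_cons _ _ _ _ _ _ (h1_2_14 E) (rowG_cons _ _ _ _ _ _ (h1_2_15 E) (rowG_cons _ _ _ _ _ _ (h1_2_16 E) (rowG_cons _ _ _ _ _ _ (h1_2_17 E) (rowG_cons _ _ _ _ _ _ (h1_2_18 E) (rowG_cons _ _ _ _ _ _ (h1_2_19 E) (rowG_cons _ _ _ _ _ _ (h1_2_20 E) (rowG_cons _ _ _ _ _ _ (h1_2_21 E) (rowG_cons _ _ _ _ _ _ (h1_2_22 E) (rowG_cons _ _ _ _ _ _ (h1_2_23 E) (rowG_cons _ _ _ _ _ _ (h1_2_24 E) (rowG_nil _ _)))))))))))))))))))))))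

theorem row1_3 (E : Env κ ι) : RowG (ek E lk1) (F1_3 E) [F1_3 E, F1_4 E, F1_5 E, F1_6 E, F1_7 E, F1_8 E, F1_9 E, F1_10 E, F1_11 E, F1_12 E, F1_13 E, F1_14 E, F1_15 E, F1_16 E, F1_17 E, F1_18 E, F1_19 E, F1_20 E, F1_21 E, F1_22 E, F1_23 E, F1_24 E] [r1_3_3, r1_3_4, r1_3_5, r1_3_6, r1_3_7, r1_3_8, r1_3_9, r1_3_10, r1_3_11, r1_3_12, r1_3_13, r1_3_14, r1_3_15, r1_3_16, r1_3_17, r1_3_18, r1_3_19, r1_3_20, r1_3_21, r1_3_22, r1_3_23, r1_3_24] :=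
  rowG_cons _ _ _ _ _ _ (h1_3_3 E) (rowG_cons _ _ _ _ _ _ (h1_3_4 E) (rowG_cons _ _ _ _ _ _ (h1_3_5 E) (rowG_cons _ _ _ _ _ _ (h1_3_6 E) (rowG_cons _ _ _ _ _ _ (h1_3_7 E) (rowG_cons _ _ _ _ _ _ (h1_3_8 E) (rowG_cons _ _ _ _ _ _ (h1_3_9 E) (rowG_cons _ _ _ _ _ _ (h1_3_10 E) (rowG_cons _ _ _ _ _ _ (h1_3_11 E) (rowG_cons _ _ _ _ _ _ (h1_3_12 E) (rowG_cons _ _ _ _ _ _ (h1_3_13 E) (rowG_cons _ _ _ _ _ _ (h1_3_14 E) (rowG_cons _ _ _ _ _ _ (h1_3_15 E) (rowG_cons _ _ _ _ _ _ (h1_3_16 E) (rowG_cons _ _ _ _ _ _ (h1_3_17 E) (rowG_cons _ _ _ _ _ _ (h1_3_18 E) (rowG_cons _ _ _ _ _ _ (h1_3_19 E) (rowG_cons _ _ _ _ _ _ (h1_3_20 E) (rowG_cons _ _ _ _ _ _ (h1_3_21 E) (rowG_cons _ _ _ _ _ _ (h1_3_22 E) (rowG_cons _ _ _ _ _ _ (h1_3_23 E) (rowG_cons _ _ _ _ _ _ (h1_3_24 E) (rowG_nil _ _))))))))))))))))))))))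

theorem row1_4 (E : Env κ ι) : RowG (ek E lk1) (F1_4 E) [F1_4 E, F1_5 E, F1_6 E, F1_7 E, F1_8 E, F1_9 E, F1_10 E, F1_11 E, F1_12 E, F1_13 E, F1_14 E, F1_15 E, F1_16 E, F1_17 E, F1_18 E, F1_19 E, F1_20 E, F1_21 E, F1_22 E, F1_23 E, F1_24 E] [r1_4_4, r1_4_5, r1_4_6, r1_4_7, r1_4_8, r1_4_9, r1_4_10, r1_4_11, r1_4_12, r1_4_13, r1_4_14, r1_4_15, r1_4_16, r1_4_17, r1_4_18, r1_4_19, r1_4_20, r1_4_21, r1_4_22, r1_4_23, r1_4_24] :=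
  rowG_cons _ _ _ _ _ _ (h1_4_4 E) (rowG_cons _ _ _ _ _ _ (h1_4_5 E) (rowG_cons _ _ _ _ _ _ (h1_4_6 E) (rowG_cons _ _ _ _ _ _ (h1_4_7 E) (rowG_cons _ _ _ _ _ _ (h1_4_8 E) (rowG_cons _ _ _ _ _ _ (h1_4_9 E) (rowG_cons _ _ _ _ _ _ (h1_4_10 E) (rowG_cons _ _ _ _ _ _ (h1_4_11 E) (rowG_cons _ _ _ _ _ _ (h1_4_12 E) (rowG_cons _ _ _ _ _ _ (h1_4_13 E) (rowG_cons _ _ _ _ _ _ (h1_4_14 E) (rowG_cons _ _ _ _ _ _ (h1_4_15 E) (rowG_cons _ _ _ _ _ _ (h1_4_16 E) (rowG_cons _ _ _ _ _ _ (h1_4_17 E) (rowG_cons _ _ _ _ _ _ (h1_4_18 E) (rowG_cons _ _ _ _ _ _ (h1_4_19 E) (rowG_cons _ _ _ _ _ _ (h1_4_20 E) (rowG_cons _ _ _ _ _ _ (h1_4_21 E) (rowG_cons _ _ _ _ _ _ (h1_4_22 E) (rowG_cons _ _ _ _ _ _ (h1_4_23 E) (rowG_cons _ _ _ _ _ _ (h1_4_24 E) (rowG_nil _ _)))))))))))))))))))))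

theorem row1_5 (E : Env κ ι) : RowG (ek E lk1) (F1_5 E) [F1_5 E, F1_6 E, F1_7 E, F1_8 E, F1_9 E, F1_10 E, F1_11 E, F1_12 E, F1_13 E, F1_14 E, F1_15 E, F1_16 E, F1_17 E, F1_18 E, F1_19 E, F1_20 E, F1_21 E, F1_22 E, F1_23 E, F1_24 E] [r1_5_5, r1_5_6, r1_5_7, r1_5_8, r1_5_9, r1_5_10, r1_5_11, r1_5_12, r1_5_13, r1_5_14, r1_5_15, r1_5_16, r1_5_17, r1_5_18, r1_5_19, r1_5_20, r1_5_21, r1_5_22, r1_5_23, r1_5_24] :=
  rowG_cons _ _ _ _ _ _ (h1_5_5 E) (rowG_cons _ _ _ _ _ _ (h1_5_6 E) (rowG_cons _ _ _ _ _ _ (h1_5_7 E) (rowG_cons _ _ _ _ _ _ (h1_5_8 E) (rowG_cons _ _ _ _ _ _ (h1_5_9 E) (rowG_cons _ _ _ _ _ _ (h1_5_10 E) (rowG_cons _ _ _ _ _ _ (h1_5_11 E) (rowG_cons _ _ _ _ _ _ (h1_5_12 E) (rowG_cons _ _ _ _ _ _ (h1_5_13 E) (rowG_cons _ _ _ _ _ _ (h1_5_14 E) (rowG_cons _ _ _ _ _ _ (h1_5_15 E) (rowG_cons _ _ _ _ _ _ (h1_5_16 E) (rowG_cons _ _ _ _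 _ _ (h1_5_17 E) (rowG_cons _ _ _ _ _ _ (h1_5_18 E) (rowG_cons _ _ _ _ _ _ (h1_5_19 E) (rowG_cons _ _ _ _ _ _ (h1_5_20 E) (rowG_cons _ _ _ _ _ _ (h1_5_21 E) (rowG_cons _ _ _ _ _ _ (h1_5_22 E) (rowG_cons _ _ _ _ _ _ (h1_5_23 E) (rowG_cons _ _ _ _ _ _ (h1_5_24 E) (rowG_nil _ _))))))))))))))))))))

theorem row1_6 (E : Env κ ι) : RowG (ek E lk1) (F1_6 E) [F1_6 E, F1_7 E, F1_8 E, F1_9 E, F1_10 E, F1_11 E, F1_12 E, F1_13 E, F1_14 E, F1_15 E, F1_16 E, F1_17 E, F1_18 E, F1_19 E, F1_20 E, F1_21 E, F1_22 E, F1_23 E, F1_24 E] [r1_6_6, r1_6_7, r1_6_8, r1_6_9, r1_6_10, r1_6_11, r1_6_12, r1_6_13, r1_6_14, r1_6_15, r1_6_16, r1_6_17, r1_6_18, r1_6_19, r1_6_20, r1_6_21, r1_6_22, r1_6_23, r1_6_24] :=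
  rowG_cons _ _ _ _ _ _ (h1_6_6 E) (rowG_cons _ _ _ _ _ _ (h1_6_7 E) (rowG_cons _ _ _ _ _ _ (h1_6_8 E) (rowG_cons _ _ _ _ _ _ (h1_6_9 E) (rowG_cons _ _ _ _ _ _ (h1_6_10 E) (rowG_cons _ _ _ _ _ _ (h1_6_11 E) (rowG_cons _ _ _ _ _ _ (h1_6_12 E) (rowG_cons _ _ _ _ _ _ (h1_6_13 E) (rowG_cons _ _ _ _ _ _ (h1_6_14 E) (rowG_cons _ _ _ _ _ _ (h1_6_15 E) (rowG_cons _ _ _ _ _ _ (h1_6_16 E) (rowG_cons _ _ _ _ _ _ (h1_6_17 E) (rowG_cons _ _ _ _ _ _ (h1_6_18 E) (rowG_cons _ _ _ _ _ _ (h1_6_19 E) (rowG_cons _ _ _ _ _ _ (h1_6_20 E) (rowG_cons _ _ _ _ _ _ (h1_6_21 E) (rowG_cons _ _ _ _ _ _ (h1_6_22 E) (rowG_cons _ _ _ _ _ _ (h1_6_23 E) (rowG_cons _ _ _ _ _ _ (h1_6_24 E) (rowG_nil _ _)))))))))))))))))))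

theorem row1_7 (E : Env κ ι) : RowG (ek E lk1) (F1_7 E) [F1_7 E, F1_8 E, F1_9 E, F1_10 E, F1_11 E, F1_12 E, F1_13 E, F1_14 E, F1_15 E, F1_16 E, F1_17 E, F1_18 E, F1_19 E, F1_20 E, F1_21 E, F1_22 E, F1_23 E, F1_24 E] [r1_7_7, r1_7_8, r1_7_9, r1_7_10, r1_7_11, r1_7_12, r1_7_13, r1_7_14, r1_7_15, r1_7_16, r1_7_17, r1_7_18, r1_7_19, r1_7_20, r1_7_21, r1_7_22, r1_7_23, r1_7_24] :=
  rowG_cons _ _ _ _ _ _ (h1_7_7 E) (rowG_cons _ _ _ _ _ _ (h1_7_8 E) (rowG_cons _ _ _ _ _ _ (h1_7_9 E) (rowG_cons _ _ _ _ _ _ (h1_7_10 E) (rowG_cons _ _ _ _ _ _ (h1_7_11 E) (rowG_cons _ _ _ _ _ _ (h1_7_12 E) (rowG_cons _ _ _ _ _ _ (h1_7_13 E) (rowG_cons _ _ _ _ _ _ (h1_7_14 E) (rowG_cons _ _ _ _ _ _ (h1_7_15 E) (rowG_cons _ _ _ _ _ _ (h1_7_16 E) (rowG_cons _ _ _ _ _ _ (h1_7_17 E) (rowG_cons _ _ _ _ _ _ (h1_7_18 E) (rowG_cons _ _ _ _ _ _ (h1_7_19 E) (rowG_cons _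 _ _ _ _ _ (h1_7_20 E) (rowG_cons _ _ _ _ _ _ (h1_7_21 E) (rowG_cons _ _ _ _ _ _ (h1_7_22 E) (rowG_cons _ _ _ _ _ _ (h1_7_23 E) (rowG_cons _ _ _ _ _ _ (h1_7_24 E) (rowG_nil _ _))))))))))))))))))

theorem row1_8 (E : Env κ ι) : RowG (ek E lk1) (F1_8 E) [F1_8 E, F1_9 E, F1_10 E, F1_11 E, F1_12 E, F1_13 E, F1_14 E, F1_15 E, F1_16 E, F1_17 E, F1_18 E, F1_19 E, F1_20 E, F1_21 E, F1_22 E, F1_23 E, F1_24 E] [r1_8_8, r1_8_9, r1_8_10, r1_8_11, r1_8_12, r1_8_13, r1_8_14, r1_8_15, r1_8_16, r1_8_17, r1_8_18, r1_8_19, r1_8_20, r1_8_21, r1_8_22, r1_8_23, r1_8_24] :=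
  rowG_cons _ _ _ _ _ _ (h1_8_8 E) (rowG_cons _ _ _ _ _ _ (h1_8_9 E) (rowG_cons _ _ _ _ _ _ (h1_8_10 E) (rowG_cons _ _ _ _ _ _ (h1_8_11 E) (rowG_cons _ _ _ _ _ _ (h1_8_12 E) (rowG_cons _ _ _ _ _ _ (h1_8_13 E) (rowG_cons _ _ _ _ _ _ (h1_8_14 E) (rowG_cons _ _ _ _ _ _ (h1_8_15 E) (rowG_cons _ _ _ _ _ _ (h1_8_16 E) (rowG_cons _ _ _ _ _ _ (h1_8_17 E) (rowG_cons _ _ _ _ _ _ (h1_8_18 E) (rowG_cons _ _ _ _ _ _ (h1_8_19 E) (rowG_cons _ _ _ _ _ _ (h1_8_20 E) (rowG_cons _ _ _ _ _ _ (h1_8_21 E) (rowG_cons _ _ _ _ _ _ (h1_8_22 E) (rowG_cons _ _ _ _ _ _ (h1_8_23 E) (rowG_cons _ _ _ _ _ _ (h1_8_24 E) (rowG_nil _ _)))))))))))))))))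

theorem row1_9 (E : Env κ ι) : RowG (ek E lk1) (F1_9 E) [F1_9 E, F1_10 E, F1_11 E, F1_12 E, F1_13 E, F1_14 E, F1_15 E, F1_16 E, F1_17 E, F1_18 E, F1_19 E, F1_20 E, F1_21 E, F1_22 E, F1_23 E, F1_24 E] [r1_9_9, r1_9_10, r1_9_11, r1_9_12, r1_9_13, r1_9_14, r1_9_15, r1_9_16, r1_9_17, r1_9_18, r1_9_19, r1_9_20, r1_9_21, r1_9_22, r1_9_23, r1_9_24] :=
  rowG_cons _ _ _ _ _ _ (h1_9_9 E) (rowG_cons _ _ _ _ _ _ (h1_9_10 E) (rowG_cons _ _ _ _ _ _ (h1_9_11 E) (rowG_cons _ _ _ _ _ _ (h1_9_12 E) (rowG_cons _ _ _ _ _ _ (h1_9_13 E) (rowG_cons _ _ _ _ _ _ (h1_9_14 E) (rowG_cons _ _ _ _ _ _ (h1_9_15 E) (rowG_cons _ _ _ _ _ _ (h1_9_16 E) (rowG_cons _ _ _ _ _ _ (h1_9_17 E) (rowG_cons _ _ _ _ _ _ (h1_9_18 E) (rowG_cons _ _ _ _ _ _ (h1_9_19 E) (rowG_cons _ _ _ _ _ _ (h1_9_20 E) (rowG_cons _ _ _ _ _ _ (h1_9_21 E) (rowG_cons _ _ _ _ _ _ (h1_9_22 E) (rowG_cons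 _ _ _ _ _ _ (h1_9_23 E) (rowG_cons _ _ _ _ _ _ (h1_9_24 E) (rowG_nil _ _))))))))))))))))

theorem row1_10 (E : Env κ ι) : RowG (ek E lk1) (F1_10 E) [F1_10 E, F1_11 E, F1_12 E, F1_13 E, F1_14 E, F1_15 E, F1_16 E, F1_17 E, F1_18 E, F1_19 E, F1_20 E, F1_21 E, F1_22 E, F1_23 E, F1_24 E] [r1_10_10, r1_10_11, r1_10_12, r1_10_13, r1_10_14, r1_10_15, r1_10_16, r1_10_17, r1_10_18, r1_10_19, r1_10_20, r1_10_21, r1_10_22, r1_10_23, r1_10_24] :=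
  rowG_cons _ _ _ _ _ _ (h1_10_10 E) (rowG_cons _ _ _ _ _ _ (h1_10_11 E) (rowG_cons _ _ _ _ _ _ (h1_10_12 E) (rowG_cons _ _ _ _ _ _ (h1_10_13 E) (rowG_cons _ _ _ _ _ _ (h1_10_14 E) (rowG_cons _ _ _ _ _ _ (h1_10_15 E) (rowG_cons _ _ _ _ _ _ (h1_10_16 E) (rowG_cons _ _ _ _ _ _ (h1_10_17 E) (rowG_cons _ _ _ _ _ _ (h1_10_18 E) (rowG_cons _ _ _ _ _ _ (h1_10_19 E) (rowG_cons _ _ _ _ _ _ (h1_10_20 E) (rowG_cons _ _ _ _ _ _ (h1_10_21 E) (rowG_cons _ _ _ _ _ _ (h1_10_22 E) (rowG_cons _ _ _ _ _ _ (h1_10_23 E) (rowG_cons _ _ _ _ _ _ (h1_10_24 E) (rowG_nil _ _)))))))))))))))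

theorem row1_11 (E : Env κ ι) : RowG (ek E lk1) (F1_11 E) [F1_11 E, F1_12 E, F1_13 E, F1_14 E, F1_15 E, F1_16 E, F1_17 E, F1_18 E, F1_19 E, F1_20 E, F1_21 E, F1_22 E, F1_23 E, F1_24 E] [r1_11_11, r1_11_12, r1_11_13, r1_11_14, r1_11_15, r1_11_16, r1_11_17, r1_11_18, r1_11_19, r1_11_20, r1_11_21, r1_11_22, r1_11_23, r1_11_24] :=
  rowG_cons _ _ _ _ _ _ (h1_11_11 E) (rowG_cons _ _ _ _ _ _ (h1_11_12 E) (rowG_cons _ _ _ _ _ _ (h1_11_13 E) (rowG_cons _ _ _ _ _ _ (h1_11_14 E) (rowG_cons _ _ _ _ _ _ (h1_11_15 E) (rowG_cons _ _ _ _ _ _ (h1_11_16 E) (rowG_cons _ _ _ _ _ _ (h1_11_17 E) (rowG_cons _ _ _ _ _ _ (h1_11_18 E) (rowG_cons _ _ _ _ _ _ (h1_11_19 E) (rowG_cons _ _ _ _ _ _ (h1_11_20 E) (rowG_cons _ _ _ _ _ _ (h1_11_21 E) (rowG_cons _ _ _ _ _ _ (h1_11_22 E) (rowG_cons _ _ _ _ _ _ (h1_11_23 E) (rowG_cons _ _ _ _ _ _ (h1_11_24 E) (rowG_nil _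 _))))))))))))))

theorem row1_12 (E : Env κ ι) : RowG (ek E lk1) (F1_12 E) [F1_12 E, F1_13 E, F1_14 E, F1_15 E, F1_16 E, F1_17 E, F1_18 E, F1_19 E, F1_20 E, F1_21 E, F1_22 E, F1_23 E, F1_24 E] [r1_12_12, r1_12_13, r1_12_14, r1_12_15, r1_12_16, r1_12_17, r1_12_18, r1_12_19, r1_12_20, r1_12_21, r1_12_22, r1_12_23, r1_12_24] :=
  rowG_cons _ _ _ _ _ _ (h1_12_12 E) (rowG_cons _ _ _ _ _ _ (h1_12_13 E) (rowG_cons _ _ _ _ _ _ (h1_12_14 E) (rowG_cons _ _ _ _ _ _ (h1_12_15 E) (rowG_cons _ _ _ _ _ _ (h1_12_16 E) (rowG_cons _ _ _ _ _ _ (h1_12_17 E) (rowG_cons _ _ _ _ _ _ (h1_12_18 E) (rowG_cons _ _ _ _ _ _ (h1_12_19 E) (rowG_cons _ _ _ _ _ _ (h1_12_20 E) (rowG_cons _ _ _ _ _ _ (h1_12_21 E) (rowG_cons _ _ _ _ _ _ (h1_12_22 E) (rowG_cons _ _ _ _ _ _ (h1_12_23 E) (rowG_cons _ _ _ _ _ _ (h1_12_24 E) (rowG_nil _ _)))))))))))))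

theorem row1_13 (E : Env κ ι) : RowG (ek E lk1) (F1_13 E) [F1_13 E, F1_14 E, F1_15 E, F1_16 E, F1_17 E, F1_18 E, F1_19 E, F1_20 E, F1_21 E, F1_22 E, F1_23 E, F1_24 E] [r1_13_13, r1_13_14, r1_13_15, r1_13_16, r1_13_17, r1_13_18, r1_13_19, r1_13_20, r1_13_21, r1_13_22, r1_13_23, r1_13_24] :=
  rowG_cons _ _ _ _ _ _ (h1_13_13 E) (rowG_cons _ _ _ _ _ _ (h1_13_14 E) (rowG_cons _ _ _ _ _ _ (h1_13_15 E) (rowG_cons _ _ _ _ _ _ (h1_13_16 E) (rowG_cons _ _ _ _ _ _ (h1_13_17 E) (rowG_cons _ _ _ _ _ _ (h1_13_18 E) (rowG_cons _ _ _ _ _ _ (h1_13_19 E) (rowG_cons _ _ _ _ _ _ (h1_13_20 E) (rowG_cons _ _ _ _ _ _ (h1_13_21 E) (rowG_cons _ _ _ _ _ _ (h1_13_22 E) (rowG_cons _ _ _ _ _ _ (h1_13_23 E) (rowG_cons _ _ _ _ _ _ (h1_13_24 E) (rowG_nil _ _))))))))))))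

theorem row1_14 (E : Env κ ι) : RowG (ek E lk1) (F1_14 E) [F1_14 E, F1_15 E, F1_16 E, F1_17 E, F1_18 E, F1_19 E, F1_20 E, F1_21 E, F1_22 E, F1_23 E, F1_24 E] [r1_14_14, r1_14_15, r1_14_16, r1_14_17, r1_14_18, r1_14_19, r1_14_20, r1_14_21, r1_14_22, r1_14_23, r1_14_24] :=
  rowG_cons _ _ _ _ _ _ (h1_14_14 E) (rowG_cons _ _ _ _ _ _ (h1_14_15 E) (rowG_cons _ _ _ _ _ _ (h1_14_16 E) (rowG_cons _ _ _ _ _ _ (h1_14_17 E) (rowG_cons _ _ _ _ _ _ (h1_14_18 E) (rowG_cons _ _ _ _ _ _ (h1_14_19 E) (rowG_cons _ _ _ _ _ _ (h1_14_20 E) (rowG_cons _ _ _ _ _ _ (h1_14_21 E) (rowG_cons _ _ _ _ _ _ (h1_14_22 E) (rowG_cons _ _ _ _ _ _ (h1_14_23 E) (rowG_cons _ _ _ _ _ _ (h1_14_24 E) (rowG_nil _ _)))))))))))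

theorem row1_15 (E : Env κ ι) : RowG (ek E lk1) (F1_15 E) [F1_15 E, F1_16 E, F1_17 E, F1_18 E, F1_19 E, F1_20 E, F1_21 E, F1_22 E, F1_23 E, F1_24 E] [r1_15_15, r1_15_16, r1_15_17, r1_15_18, r1_15_19, r1_15_20, r1_15_21, r1_15_22, r1_15_23, r1_15_24] :=
  rowG_cons _ _ _ _ _ _ (h1_15_15 E) (rowG_cons _ _ _ _ _ _ (h1_15_16 E) (rowG_cons _ _ _ _ _ _ (h1_15_17 E) (rowG_cons _ _ _ _ _ _ (h1_15_18 E) (rowG_cons _ _ _ _ _ _ (h1_15_19 E) (rowG_cons _ _ _ _ _ _ (h1_15_20 E) (rowG_cons _ _ _ _ _ _ (h1_15_21 E) (rowG_cons _ _ _ _ _ _ (h1_15_22 E) (rowG_cons _ _ _ _ _ _ (h1_15_23 E) (rowG_cons _ _ _ _ _ _ (h1_15_24 E) (rowG_nil _ _))))))))))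

theorem row1_16 (E : Env κ ι) : RowG (ek E lk1) (F1_16 E) [F1_16 E, F1_17 E, F1_18 E, F1_19 E, F1_20 E, F1_21 E, F1_22 E, F1_23 E, F1_24 E] [r1_16_16, r1_16_17, r1_16_18, r1_16_19, r1_16_20, r1_16_21, r1_16_22, r1_16_23, r1_16_24] :=
  rowG_cons _ _ _ _ _ _ (h1_16_16 E) (rowG_cons _ _ _ _ _ _ (h1_16_17 E) (rowG_cons _ _ _ _ _ _ (h1_16_18 E) (rowG_cons _ _ _ _ _ _ (h1_16_19 E) (rowG_cons _ _ _ _ _ _ (h1_16_20 E) (rowG_cons _ _ _ _ _ _ (h1_16_21 E) (rowG_cons _ _ _ _ _ _ (h1_16_22 E) (rowG_cons _ _ _ _ _ _ (h1_16_23 E) (rowG_cons _ _ _ _ _ _ (h1_16_24 E) (rowG_nil _ _)))))))))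

theorem row1_17 (E : Env κ ι) : RowG (ek E lk1) (F1_17 E) [F1_17 E, F1_18 E, F1_19 E, F1_20 E, F1_21 E, F1_22 E, F1_23 E, F1_24 E] [r1_17_17, r1_17_18, r1_17_19, r1_17_20, r1_17_21, r1_17_22, r1_17_23, r1_17_24] :=
  rowG_cons _ _ _ _ _ _ (h1_17_17 E) (rowG_cons _ _ _ _ _ _ (h1_17_18 E) (rowG_cons _ _ _ _ _ _ (h1_17_19 E) (rowG_cons _ _ _ _ _ _ (h1_17_20 E) (rowG_cons _ _ _ _ _ _ (h1_17_21 E) (rowG_cons _ _ _ _ _ _ (h1_17_22 E) (rowG_cons _ _ _ _ _ _ (h1_17_23 E) (rowG_cons _ _ _ _ _ _ (h1_17_24 E) (rowG_nil _ _))))))))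

theorem row1_18 (E : Env κ ι) : RowG (ek E lk1) (F1_18 E) [F1_18 E, F1_19 E, F1_20 E, F1_21 E, F1_22 E, F1_23 E, F1_24 E] [r1_18_18, r1_18_19, r1_18_20, r1_18_21, r1_18_22, r1_18_23, r1_18_24] :=
  rowG_cons _ _ _ _ _ _ (h1_18_18 E) (rowG_cons _ _ _ _ _ _ (h1_18_19 E) (rowG_cons _ _ _ _ _ _ (h1_18_20 E) (rowG_cons _ _ _ _ _ _ (h1_18_21 E) (rowG_cons _ _ _ _ _ _ (h1_18_22 E) (rowG_cons _ _ _ _ _ _ (h1_18_23 E) (rowG_cons _ _ _ _ _ _ (h1_18_24 E) (rowG_nil _ _)))))))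

theorem row1_19 (E : Env κ ι) : RowG (ek E lk1) (F1_19 E) [F1_19 E, F1_20 E, F1_21 E, F1_22 E, F1_23 E, F1_24 E] [r1_19_19, r1_19_20, r1_19_21, r1_19_22, r1_19_23, r1_19_24] :=
  rowG_cons _ _ _ _ _ _ (h1_19_19 E) (rowG_cons _ _ _ _ _ _ (h1_19_20 E) (rowG_cons _ _ _ _ _ _ (h1_19_21 E) (rowG_cons _ _ _ _ _ _ (h1_19_22 E) (rowG_cons _ _ _ _ _ _ (h1_19_23 E) (rowG_cons _ _ _ _ _ _ (h1_19_24 E) (rowG_nil _ _))))))

theorem row1_20 (E : Env κ ι) : RowG (ek E lk1) (F1_20 E) [F1_20 E, F1_21 E, F1_22 E, F1_23 E, F1_24 E] [r1_20_20, r1_20_21, r1_20_22, r1_20_23, r1_20_24] :=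
  rowG_cons _ _ _ _ _ _ (h1_20_20 E) (rowG_cons _ _ _ _ _ _ (h1_20_21 E) (rowG_cons _ _ _ _ _ _ (h1_20_22 E) (rowG_cons _ _ _ _ _ _ (h1_20_23 E) (rowG_cons _ _ _ _ _ _ (h1_20_24 E) (rowG_nil _ _)))))

theorem row1_21 (E : Env κ ι) : RowG (ek E lk1) (F1_21 E) [F1_21 E, F1_22 E, F1_23 E, F1_24 E] [r1_21_21, r1_21_22, r1_21_23, r1_21_24] :=
  rowG_cons _ _ _ _ _ _ (h1_21_21 E) (rowG_cons _ _ _ _ _ _ (h1_21_22 E) (rowG_cons _ _ _ _ _ _ (h1_21_23 E) (rowG_cons _ _ _ _ _ _ (h1_21_24 E) (rowG_nil _ _))))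

theorem row1_22 (E : Env κ ι) : RowG (ek E lk1) (F1_22 E) [F1_22 E, F1_23 E, F1_24 E] [r1_22_22, r1_22_23, r1_22_24] :=
  rowG_cons _ _ _ _ _ _ (h1_22_22 E) (rowG_cons _ _ _ _ _ _ (h1_22_23 E) (rowG_cons _ _ _ _ _ _ (h1_22_24 E) (rowG_nil _ _)))

theorem row1_23 (E : Env κ ι) : RowG (ek E lk1) (F1_23 E) [F1_23 E, F1_24 E] [r1_23_23, r1_23_24] :=
  rowG_cons _ _ _ _ _ _ (h1_23_23 E) (rowG_cons _ _ _ _ _ _ (h1_23_24 E) (rowG_nil _ _))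

theorem row1_24 (E : Env κ ι) : RowG (ek E lk1) (F1_24 E) [F1_24 E] [r1_24_24] :=
  rowG_cons _ _ _ _ _ _ (h1_24_24 E) (rowG_nil _ _)

def tab1 : List (List (List (ℕ × ℤ))) := [[r1_0_0, r1_0_1, r1_0_2, r1_0_3, r1_0_4, r1_0_5, r1_0_6, r1_0_7, r1_0_8, r1_0_9, r1_0_10, r1_0_11, r1_0_12, r1_0_13, r1_0_14, r1_0_15, r1_0_16, r1_0_17, r1_0_18, r1_0_19, r1_0_20, r1_0_21, r1_0_22, r1_0_23, r1_0_24], [r1_1_1, r1_1_2, r1_1_3, r1_1_4, r1_1_5, r1_1_6, r1_1_7, r1_1_8, r1_1_9, r1_1_10, r1_1_11, r1_1_12, r1_1_13, r1_1_14, r1_1_15, r1_1_16, r1_1_17, r1_1_18, r1_1_19, r1_1_20, r1_1_21, r1_1_22, r1_1_23, r1_1_24], [r1_2_2, r1_2_3, r1_2_4, r1_2_5, r1_2_6, r1_2_7, r1_2_8, r1_2_9, r1_2_10, r1_2_11, r1_2_12, r1_2_13, r1_2_14, r1_2_15, r1_2_16, r1_2_17, r1_2_18, r1_2_19, r1_2_20, r1_2_21, r1_2_22, r1_2_23, r1_2_24], [r1_3_3, r1_3_4, r1_3_5, r1_3_6, r1_3_7,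 r1_3_8, r1_3_9, r1_3_10, r1_3_11, r1_3_12, r1_3_13, r1_3_14, r1_3_15, r1_3_16, r1_3_17, r1_3_18, r1_3_19, r1_3_20, r1_3_21, r1_3_22, r1_3_23, r1_3_24], [r1_4_4, r1_4_5, r1_4_6, r1_4_7, r1_4_8, r1_4_9, r1_4_10, r1_4_11, r1_4_12, r1_4_13, r1_4_14, r1_4_15, r1_4_16, r1_4_17, r1_4_18, r1_4_19, r1_4_20, r1_4_21, r1_4_22, r1_4_23, r1_4_24], [r1_5_5, r1_5_6, r1_5_7, r1_5_8, r1_5_9, r1_5_10, r1_5_11, r1_5_12, r1_5_13, r1_5_14, r1_5_15, r1_5_16, r1_5_17, r1_5_18, r1_5_19, r1_5_20, r1_5_21, r1_5_22, r1_5_23, r1_5_24], [r1_6_6, r1_6_7, r1_6_8, r1_6_9, r1_6_10, r1_6_11, r1_6_12, r1_6_13, r1_6_14, r1_6_15, r1_6_16, r1_6_17, r1_6_18, r1_6_19, r1_6_20, r1_6_21, r1_6_22, r1_6_23, r1_6_24], [r1_7_7, r1_7_8, r1_7_9, r1_7_10, r1_7_11, r1_7_12, r1_7_13, r1_7_14, r1_7_15, r1_7_16, r1_7_17, r1_7_18, r1_7_19, r1_7_20, r1_7_21, r1_7_22, r1_7_23, r1_7_24], [r1_8_8,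 r1_8_9, r1_8_10, r1_8_11, r1_8_12, r1_8_13, r1_8_14, r1_8_15, r1_8_16, r1_8_17, r1_8_18, r1_8_19, r1_8_20, r1_8_21, r1_8_22, r1_8_23, r1_8_24], [r1_9_9, r1_9_10, r1_9_11, r1_9_12, r1_9_13, r1_9_14, r1_9_15, r1_9_16, r1_9_17, r1_9_18, r1_9_19, r1_9_20, r1_9_21, r1_9_22, r1_9_23, r1_9_24], [r1_10_10, r1_10_11, r1_10_12, r1_10_13, r1_10_14, r1_10_15, r1_10_16, r1_10_17, r1_10_18, r1_10_19, r1_10_20, r1_10_21, r1_10_22, r1_10_23, r1_10_24], [r1_11_11, r1_11_12, r1_11_13, r1_11_14, r1_11_15, r1_11_16, r1_11_17, r1_11_18, r1_11_19, r1_11_20, r1_11_21, r1_11_22, r1_11_23, r1_11_24], [r1_12_12, r1_12_13, r1_12_14, r1_12_15, r1_12_16, r1_12_17, r1_12_18, r1_12_19, r1_12_20, r1_12_21, r1_12_22, r1_12_23, r1_12_24], [r1_13_13, r1_13_14, r1_13_15, r1_13_16, r1_13_17, r1_13_18, r1_13_19, r1_13_20, r1_13_21, r1_13_22, r1_13_23, r1_13_24], [r1_14_14,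 r1_14_15, r1_14_16, r1_14_17, r1_14_18, r1_14_19, r1_14_20, r1_14_21, r1_14_22, r1_14_23, r1_14_24], [r1_15_15, r1_15_16, r1_15_17, r1_15_18, r1_15_19, r1_15_20, r1_15_21, r1_15_22, r1_15_23, r1_15_24], [r1_16_16, r1_16_17, r1_16_18, r1_16_19, r1_16_20, r1_16_21, r1_16_22, r1_16_23, r1_16_24], [r1_17_17, r1_17_18, r1_17_19, r1_17_20, r1_17_21, r1_17_22, r1_17_23, r1_17_24], [r1_18_18, r1_18_19, r1_18_20, r1_18_21, r1_18_22, r1_18_23, r1_18_24], [r1_19_19, r1_19_20, r1_19_21, r1_19_22, r1_19_23, r1_19_24], [r1_20_20, r1_20_21, r1_20_22, r1_20_23, r1_20_24], [r1_21_21, r1_21_22, r1_21_23, r1_21_24], [r1_22_22, r1_22_23, r1_22_24], [r1_23_23, r1_23_24], [r1_24_24]]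

theorem tri1 (E : Env κ ι) : TriG (ek E lk1) [F1_0 E, F1_1 E, F1_2 E, F1_3 E, F1_4 E, F1_5 E, F1_6 E, F1_7 E, F1_8 E, F1_9 E, F1_10 E, F1_11 E, F1_12 E, F1_13 E, F1_14 E, F1_15 E, F1_16 E, F1_17 E, F1_18 E, F1_19 E, F1_20 E, F1_21 E, F1_22 E, F1_23 E, F1_24 E] tab1 := by
  refine triG_cons _ _ _ _ _ (row1_0 E) ?_
  refine triG_cons _ _ _ _ _ (row1_1 E) ?_
  refine triG_cons _ _ _ _ _ (row1_2 E) ?_
  refine triG_cons _ _ _ _ _ (row1_3 E) ?_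
  refine triG_cons _ _ _ _ _ (row1_4 E) ?_
  refine triG_cons _ _ _ _ _ (row1_5 E) ?_
  refine triG_cons _ _ _ _ _ (row1_6 E) ?_
  refine triG_cons _ _ _ _ _ (row1_7 E) ?_
  refine triG_cons _ _ _ _ _ (row1_8 E) ?_
  refine triG_cons _ _ _ _ _ (row1_9 E) ?_
  refine triG_cons _ _ _ _ _ (row1_10 E) ?_
  refine triG_cons _ _ _ _ _ (row1_11 E) ?_
  refine triG_cons _ _ _ _ _ (row1_12 E) ?_
  refine triG_cons _ _ _ _ _ (row1_13 E) ?_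
  refine triG_cons _ _ _ _ _ (row1_14 E) ?_
  refine triG_cons _ _ _ _ _ (row1_15 E) ?_
  refine triG_cons _ _ _ _ _ (row1_16 E) ?_
  refine triG_cons _ _ _ _ _ (row1_17 E) ?_
  refine triG_cons _ _ _ _ _ (row1_18 E) ?_
  refine triG_cons _ _ _ _ _ (row1_19 E) ?_
  refine triG_cons _ _ _ _ _ (row1_20 E) ?_
  refine triG_cons _ _ _ _ _ (row1_21 E) ?_
  refine triG_cons _ _ _ _ _ (row1_22 E) ?_
  refine triG_cons _ _ _ _ _ (row1_23 E) ?_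
  refine triG_cons _ _ _ _ _ (row1_24 E) ?_
  exact triG_nil _

end

def lk2 : List Key := [
  (1, 3, [(0, [0], [0, 1]), (0, [0], [0, 2]), (4, [], [2]), (4, [], [1])]),
  (1, 4, [(0, [0], [0, 1]), (1, [], [2, 3]), (2, [0], [0, 1, 2]), (4, [], [3])]),
  (1, 5, [(0, [0], [0, 1]), (0, [0], [0, 1]), (1, [], [2, 3]), (1, [], [2, 4]), (4, [], [4]), (4, [], [3])]),
  (1, 5, [(0, [0], [0, 1]), (0, [0], [0, 2]), (4, [], [2]), (4, [], [1]), (1, [], [3, 4]), (1, [], [3, 4])]),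
  (2, 5, [(0, [0], [0, 1]), (0, [0], [0, 1]), (0, [1], [2, 3]), (0, [1], [2, 4]), (4, [], [4]), (4, [], [3])]),
  (2, 5, [(0, [0], [0, 1]), (0, [1], [0, 2]), (0, [1], [3, 4]), (0, [0], [3, 4]), (4, [], [2]), (4, [], [1])]),
  (2, 6, [(0, [0], [0, 1]), (0, [0], [0, 1]), (0, [1], [2, 3]), (1, [], [4, 5]), (2, [1], [2, 3, 4]), (4, [], [5])]),
  (2, 7, [(0, [0], [0, 1]), (0, [0], [0, 1]), (0, [1], [2, 3]), (0, [1], [2, 3]), (1, [], [4, 5]), (1, [], [4, 6]), (4, [], [6]), (4, [], [5])]),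
  (2, 7, [(0, [0], [0, 1]), (0, [1], [0, 2]), (0, [1], [3, 4]), (0, [0], [5, 6]), (1, [], [5, 6]), (1, [], [3, 4]), (4, [], [2]), (4, [], [1])]),
  (2, 7, [(0, [0], [0, 1]), (0, [0], [0, 1]), (0, [1], [2, 3]), (0, [1], [2, 4]), (4, [], [4]), (4, [], [3]), (1, [], [5, 6]), (1, [], [5, 6])]),
  (3, 7, [(0, [0], [0, 1]), (0, [0], [0, 1]), (0, [1], [2, 3]), (0, [1], [2, 3]), (0, [2], [4, 5]), (0, [2], [4, 6]), (4, [], [6]), (4, [], [5])]),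
  (3, 7, [(0, [0], [0, 1]), (0, [0], [0, 1]), (0, [1], [2, 3]), (0, [2], [2, 4]), (0, [2], [5, 6]), (0, [1], [5, 6]), (4, [], [4]), (4, [], [3])]),
  (1, 6, [(0, [0], [0, 1]), (0, [0], [2, 3]), (1, [], [2, 3]), (1, [], [4, 5]), (3, [], [0, 4, 5]), (4, [], [1])]),
  (1, 6, [(0, [0], [0, 1]), (1, [], [2, 3]), (2, [0], [0, 1, 2]), (4, [], [3]), (1, [], [4, 5]), (1, [], [4, 5])]),
  (1, 7, [(0, [0], [0, 1]), (0, [0], [0, 1]), (1, [], [2, 3]), (1, [], [2, 3]), (1, [], [4, 5]), (1, [], [4, 6]), (4, [], [6]), (4, [], [5])]),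
  (1, 7, [(0, [0], [0, 1]), (0, [0], [2, 3]), (1, [], [0, 4]), (1, [], [2, 3]), (4, [], [1]), (4, [], [4]), (1, [], [5, 6]), (1, [], [5, 6])]),
  (2, 7, [(0, [0], [0, 1]), (0, [0], [0, 1]), (0, [1], [2, 3]), (0, [1], [4, 5]), (1, [], [2, 6]), (1, [], [4, 5]), (4, [], [3]), (4, [], [6])]),
  (1, 7, [(0, [0], [0, 1]), (0, [0], [0, 2]), (4, [], [2]), (4, [], [1]), (1, [], [3, 4]), (1, [], [3, 4]), (1, [], [5, 6]), (1, [], [5, 6])]),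
  (2, 7, [(0, [0], [0, 1]), (0, [1], [0, 2]), (0, [1], [3, 4]), (0, [0], [3, 4]), (4, [], [2]), (4, [], [1]), (1, [], [5, 6]), (1, [], [5, 6])]),
  (1, 6, [(0, [0], [0, 1]), (0, [0], [2, 3]), (3, [], [0, 2, 3]), (4, [], [1]), (1, [], [4, 5]), (1, [], [4, 5])]),
  (2, 6, [(0, [0], [0, 1]), (0, [0], [0, 1]), (0, [1], [2, 3]), (0, [1], [4, 5]), (3, [], [2, 4, 5]), (4, [], [3])]),
  (1, 5, [(0, [0], [0, 1]), (0, [0], [2, 3]), (1, [], [0, 4]), (1, [], [2, 3]), (4, [], [1]), (4, [], [4])]),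
  (2, 5, [(0, [0], [0, 1]), (0, [1], [0, 2]), (0, [1], [2, 3]), (0, [0], [1, 4]), (4, [], [4]), (4, [], [3])]),
  (2, 5, [(0, [0], [0, 1]), (0, [1], [0, 2]), (0, [0], [2, 3]), (0, [1], [1, 4]), (4, [], [4]), (4, [], [3])]),
  (1, 3, [(0, [0], [0, 1]), (0, [0], [0, 1]), (4, [], [2]), (4, [], [2])]),
  (1, 5, [(0, [0], [0, 1]), (0, [0], [0, 1]), (1, [], [2, 3]), (1, [], [2, 3]), (4, [], [4]), (4, [], [4])]),
  (2, 7, [(0, [0], [0, 1]), (0, [0], [2, 3]), (0, [1], [4, 5]), (0, [1], [4, 6]), (1, [], [0, 5]), (1, [], [2, 3]), (4, [], [1]), (4, [], [6])]),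
  (2, 6, [(0, [0], [0, 1]), (0, [0], [2, 3]), (0, [1], [0, 4]), (1, [], [4, 5]), (2, [1], [2, 3, 5]), (4, [], [1])]),
  (2, 7, [(0, [0], [0, 1]), (0, [1], [0, 2]), (0, [0], [3, 4]), (0, [1], [5, 6]), (1, [], [1, 3]), (1, [], [5, 6]), (4, [], [2]), (4, [], [4])]),
  (2, 6, [(0, [0], [0, 1]), (0, [0], [2, 3]), (0, [1], [0, 4]), (1, [], [1, 5]), (2, [1], [2, 3, 5]), (4, [], [4])]),
  (2, 7, [(0, [0], [0, 1]), (0, [0], [2, 3]), (0, [1], [0, 4]), (0, [1], [4, 5]), (1, [], [1, 6]), (1, [], [2, 3]), (4, [], [5]), (4, [], [6])]),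
  (2, 7, [(0, [0], [0, 1]), (0, [1], [0, 2]), (0, [1], [2, 3]), (0, [0], [1, 4]), (4, [], [4]), (4, [], [3]), (1, [], [5, 6]), (1, [], [5, 6])]),
  (2, 7, [(0, [0], [0, 1]), (0, [1], [0, 2]), (0, [1], [1, 3]), (0, [0], [4, 5]), (1, [], [2, 6]), (1, [], [4, 5]), (4, [], [3]), (4, [], [6])]),
  (2, 7, [(0, [0], [0, 1]), (0, [1], [0, 2]), (0, [0], [2, 3]), (0, [1], [1, 4]), (4, [], [4]), (4, [], [3]), (1, [], [5, 6]), (1, [], [5, 6])]),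
  (3, 7, [(0, [0], [0, 1]), (0, [1], [0, 2]), (0, [0], [2, 3]), (0, [2], [1, 4]), (0, [1], [5, 6]), (0, [2], [5, 6]), (4, [], [3]), (4, [], [4])]),
  (3, 7, [(0, [0], [0, 1]), (0, [1], [0, 2]), (0, [0], [3, 4]), (0, [1], [3, 4]), (0, [2], [1, 5]), (0, [2], [5, 6]), (4, [], [2]), (4, [], [6])]),
  (1, 4, [(0, [0], [0, 1]), (0, [0], [0, 2]), (1, [], [1, 3]), (4, [], [2]), (4, [], [3])]),
  (1, 4, [(0, [0], [0, 1]), (0, [0], [0, 1]), (1, [], [2, 3]), (4, [], [2]), (4, [], [3])]),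
  (2, 6, [(0, [0], [0, 1]), (0, [0], [0, 1]), (0, [1], [2, 3]), (0, [1], [2, 4]), (1, [], [3, 5]), (4, [], [4]), (4, [], [5])]),
  (2, 6, [(0, [0], [0, 1]), (0, [0], [0, 1]), (0, [1], [2, 3]), (0, [1], [2, 3]), (1, [], [4, 5]), (4, [], [4]), (4, [], [5])]),
  (1, 5, [(0, [0], [0, 1]), (0, [0], [0, 2]), (1, [], [3, 4]), (3, [], [1, 3, 4]), (4, [], [2])]),
  (1, 5, [(0, [0], [0, 1]), (1, [], [2, 3]), (1, [], [2, 4]), (2, [0], [0, 1, 3]), (4, [], [4])]),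
  (1, 6, [(0, [0], [0, 1]), (0, [0], [0, 1]), (1, [], [2, 3]), (1, [], [2, 4]), (1, [], [3, 5]), (4, [], [5]), (4, [], [4])]),
  (1, 6, [(0, [0], [0, 1]), (0, [0], [2, 3]), (1, [], [0, 4]), (1, [], [4, 5]), (1, [], [2, 3]), (4, [], [1]), (4, [], [5])]),
  (1, 6, [(0, [0], [0, 1]), (0, [0], [0, 1]), (1, [], [2, 3]), (1, [], [2, 3]), (1, [], [4, 5]), (4, [], [4]), (4, [], [5])]),
  (1, 6, [(0, [0], [0, 1]), (0, [0], [2, 3]), (1, [], [2, 3]), (4, [], [0]), (4, [], [1]), (1, [], [4, 5]), (1, [], [4, 5])]),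
  (1, 6, [(0, [0], [0, 1]), (0, [0], [0, 2]), (1, [], [1, 3]), (4, [], [2]), (4, [], [3]), (1, [], [4, 5]), (1, [], [4, 5])]),
  (2, 6, [(0, [0], [0, 1]), (0, [0], [2, 3]), (0, [1], [0, 4]), (0, [1], [4, 5]), (1, [], [2, 3]), (4, [], [1]), (4, [], [5])]),
  (2, 6, [(0, [0], [0, 1]), (0, [0], [0, 1]), (0, [1], [2, 3]), (0, [1], [4, 5]), (1, [], [4, 5]), (4, [], [2]), (4, [], [3])]),
  (1, 6, [(0, [0], [0, 1]), (0, [0], [2, 3]), (1, [], [0, 2]), (4, [], [3]), (4, [], [1]), (1, [], [4, 5]), (1, [], [4, 5])]),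
  (2, 6, [(0, [0], [0, 1]), (0, [0], [0, 1]), (0, [1], [2, 3]), (0, [1], [4, 5]), (1, [], [2, 4]), (4, [], [5]), (4, [], [3])]),
  (1, 4, [(0, [0], [0, 1]), (0, [0], [2, 3]), (1, [], [2, 3]), (4, [], [0]), (4, [], [1])]),
  (1, 4, [(0, [0], [0, 1]), (0, [0], [2, 3]), (1, [], [0, 2]), (4, [], [3]), (4, [], [1])]),
  (2, 6, [(0, [0], [0, 1]), (0, [1], [0, 2]), (0, [1], [1, 3]), (0, [0], [4, 5]), (1, [], [4, 5]), (4, [], [3]), (4, [], [2])]),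
  (2, 6, [(0, [0], [0, 1]), (0, [1], [0, 2]), (0, [1], [1, 3]), (0, [0], [4, 5]), (1, [], [2, 4]), (4, [], [3]), (4, [], [5])]),
  (2, 6, [(0, [0], [0, 1]), (0, [0], [2, 3]), (0, [1], [0, 4]), (0, [1], [4, 5]), (1, [], [2, 5]), (4, [], [1]), (4, [], [3])]),
  (2, 6, [(0, [0], [0, 1]), (0, [1], [2, 3]), (0, [0], [2, 4]), (0, [1], [0, 5]), (1, [], [1, 3]), (4, [], [5]), (4, [], [4])]),
  (2, 6, [(0, [0], [0, 1]), (0, [0], [2, 3]), (0, [1], [2, 4]), (0, [1], [0, 5]), (1, [], [1, 3]), (4, [], [5]), (4, [], [4])]),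
  (2, 6, [(0, [0], [0, 1]), (0, [1], [0, 2]), (0, [0], [2, 3]), (0, [1], [1, 4]), (1, [], [3, 5]), (4, [], [4]), (4, [], [5])]),
  (2, 6, [(0, [0], [0, 1]), (0, [0], [2, 3]), (0, [1], [0, 4]), (0, [1], [4, 5]), (1, [], [1, 2]), (4, [], [3]), (4, [], [5])]),
  (2, 6, [(0, [0], [0, 1]), (0, [0], [2, 3]), (0, [1], [0, 4]), (0, [1], [2, 4]), (1, [], [1, 5]), (4, [], [3]), (4, [], [5])]),
  (2, 5, [(0, [0], [0, 1]), (0, [0], [0, 1]), (0, [1], [2, 3]), (0, [1], [2, 3]), (4, [], [4]), (4, [], [4])]),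
  (1, 5, [(0, [0], [0, 1]), (0, [0], [0, 2]), (1, [], [1, 3]), (1, [], [3, 4]), (4, [], [2]), (4, [], [4])]),
  (2, 5, [(0, [0], [0, 1]), (0, [0], [2, 3]), (0, [1], [2, 4]), (0, [1], [0, 4]), (4, [], [3]), (4, [], [1])]),
  (3, 7, [(0, [0], [0, 1]), (0, [0], [0, 2]), (0, [1], [1, 2]), (4, [], [3]), (0, [2], [4, 5]), (0, [2], [4, 6]), (0, [1], [3, 6]), (4, [], [5])]),
  (3, 7, [(0, [0], [0, 1]), (0, [0], [0, 2]), (0, [1], [1, 2]), (4, [], [3]), (0, [2], [4, 5]), (0, [2], [4, 5]), (0, [1], [3, 6]), (4, [], [6])]),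
  (3, 7, [(0, [0], [0, 1]), (0, [0], [0, 2]), (0, [1], [1, 2]), (4, [], [3]), (0, [2], [4, 5]), (0, [2], [3, 6]), (0, [1], [4, 6]), (4, [], [5])]),
  (3, 7, [(0, [0], [0, 1]), (0, [0], [0, 2]), (0, [1], [1, 2]), (4, [], [3]), (0, [2], [4, 5]), (0, [2], [3, 6]), (0, [1], [4, 5]), (4, [], [6])]),
  (2, 7, [(0, [0], [0, 1]), (0, [0], [0, 2]), (0, [1], [1, 2]), (4, [], [3]), (0, [1], [4, 5]), (1, [], [4, 6]), (1, [], [3, 6]), (4, [], [5])]),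
  (2, 6, [(0, [0], [0, 1]), (0, [0], [0, 2]), (0, [1], [1, 2]), (4, [], [3]), (0, [1], [4, 5]), (1, [], [3, 4]), (4, [], [5])]),
  (2, 7, [(0, [0], [0, 1]), (0, [0], [0, 2]), (0, [1], [1, 2]), (4, [], [3]), (0, [1], [3, 4]), (1, [], [5, 6]), (1, [], [5, 6]), (4, [], [4])]),
  (2, 5, [(0, [0], [0, 1]), (0, [0], [0, 2]), (0, [1], [1, 2]), (4, [], [3]), (0, [1], [3, 4]), (4, [], [4])]),
  (3, 7, [(0, [0], [0, 1]), (0, [0], [0, 2]), (0, [1], [3, 2]), (4, [], [1]), (0, [2], [4, 5]), (0, [2], [4, 6]), (0, [1], [3, 6]), (4, [], [5])]),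
  (3, 7, [(0, [0], [0, 1]), (0, [0], [0, 2]), (0, [1], [3, 2]), (4, [], [1]), (0, [2], [4, 5]), (0, [2], [4, 5]), (0, [1], [3, 6]), (4, [], [6])]),
  (3, 7, [(0, [0], [0, 1]), (0, [0], [0, 2]), (0, [1], [3, 2]), (4, [], [1]), (0, [2], [4, 5]), (0, [2], [3, 6]), (0, [1], [4, 6]), (4, [], [5])]),
  (3, 7, [(0, [0], [0, 1]), (0, [0], [0, 2]), (0, [1], [3, 2]), (4, [], [1]), (0, [2], [4, 5]), (0, [2], [3, 4]), (0, [1], [5, 6]), (4, [], [6])]),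
  (2, 7, [(0, [0], [0, 1]), (0, [0], [0, 2]), (0, [1], [3, 2]), (4, [], [1]), (0, [1], [4, 5]), (1, [], [4, 6]), (1, [], [5, 6]), (4, [], [3])]),
  (2, 7, [(0, [0], [0, 1]), (0, [0], [0, 2]), (0, [1], [3, 2]), (4, [], [1]), (0, [1], [4, 5]), (1, [], [4, 6]), (1, [], [3, 6]), (4, [], [5])]),
  (2, 7, [(0, [0], [0, 1]), (0, [0], [0, 2]), (0, [1], [3, 2]), (4, [], [1]), (0, [1], [4, 5]), (1, [], [4, 6]), (1, [], [3, 5]), (4, [], [6])]),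
  (2, 6, [(0, [0], [0, 1]), (0, [0], [0, 2]), (0, [1], [3, 2]), (4, [], [1]), (0, [1], [4, 5]), (3, [], [3, 4, 5])]),
  (2, 7, [(0, [0], [0, 1]), (0, [0], [0, 2]), (0, [1], [3, 2]), (4, [], [1]), (0, [1], [3, 4]), (1, [], [5, 6]), (1, [], [4, 5]), (4, [], [6])]),
  (2, 6, [(0, [0], [0, 1]), (0, [0], [0, 2]), (0, [1], [3, 2]), (4, [], [1]), (0, [1], [3, 4]), (1, [], [4, 5]), (4, [], [5])]),
  (3, 7, [(0, [0], [0, 1]), (0, [0], [0, 1]), (0, [1], [2, 3]), (4, [], [3]), (0, [2], [4, 5]), (0, [2], [2, 6]), (0, [1], [4, 6]), (4, [], [5])]),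
  (3, 7, [(0, [0], [0, 1]), (0, [0], [0, 1]), (0, [1], [2, 3]), (4, [], [3]), (0, [2], [4, 5]), (0, [2], [2, 4]), (0, [1], [5, 6]), (4, [], [6])]),
  (2, 7, [(0, [0], [0, 1]), (0, [0], [0, 1]), (0, [1], [2, 3]), (4, [], [3]), (0, [1], [4, 5]), (1, [], [4, 6]), (1, [], [5, 6]), (4, [], [2])]),
  (2, 7, [(0, [0], [0, 1]), (0, [0], [0, 1]), (0, [1], [2, 3]), (4, [], [3]), (0, [1], [4, 5]), (1, [], [4, 6]), (1, [], [2, 6]), (4, [], [5])]),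
  (2, 7, [(0, [0], [0, 1]), (0, [0], [0, 1]), (0, [1], [2, 3]), (4, [], [3]), (0, [1], [4, 5]), (1, [], [4, 6]), (1, [], [2, 5]), (4, [], [6])]),
  (2, 7, [(0, [0], [0, 1]), (0, [0], [0, 1]), (0, [1], [2, 3]), (4, [], [3]), (0, [1], [2, 4]), (1, [], [5, 6]), (1, [], [4, 5]), (4, [], [6])]),
  (3, 7, [(0, [0], [0, 1]), (0, [0], [2, 3]), (0, [1], [0, 3]), (4, [], [1]), (0, [2], [4, 5]), (0, [2], [2, 6]), (0, [1], [4, 6]), (4, [], [5])]),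
  (3, 7, [(0, [0], [0, 1]), (0, [0], [2, 3]), (0, [1], [0, 3]), (4, [], [1]), (0, [2], [4, 5]), (0, [2], [2, 4]), (0, [1], [5, 6]), (4, [], [6])]),
  (2, 7, [(0, [0], [0, 1]), (0, [0], [2, 3]), (0, [1], [0, 3]), (4, [], [1]), (0, [1], [4, 5]), (1, [], [4, 6]), (1, [], [5, 6]), (4, [], [2])]),
  (2, 7, [(0, [0], [0, 1]), (0, [0], [2, 3]), (0, [1], [0, 3]), (4, [], [1]), (0, [1], [4, 5]), (1, [], [4, 6]), (1, [], [2, 6]), (4, [], [5])]),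
  (2, 7, [(0, [0], [0, 1]), (0, [0], [2, 3]), (0, [1], [0, 3]), (4, [], [1]), (0, [1], [4, 5]), (1, [], [4, 6]), (1, [], [2, 5]), (4, [], [6])]),
  (2, 6, [(0, [0], [0, 1]), (0, [0], [2, 3]), (0, [1], [0, 3]), (4, [], [1]), (0, [1], [4, 5]), (3, [], [2, 4, 5])]),
  (2, 7, [(0, [0], [0, 1]), (0, [0], [2, 3]), (0, [1], [0, 3]), (4, [], [1]), (0, [1], [2, 4]), (1, [], [5, 6]), (1, [], [4, 5]), (4, [], [6])]),
  (3, 7, [(0, [0], [0, 1]), (0, [0], [2, 3]), (0, [1], [0, 1]), (4, [], [3]), (0, [2], [4, 5]), (0, [2], [2, 6]), (0, [1], [4, 5]), (4, [], [6])]),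
  (3, 7, [(0, [0], [0, 1]), (0, [0], [2, 3]), (0, [1], [0, 1]), (4, [], [3]), (0, [2], [4, 5]), (0, [2], [2, 4]), (0, [1], [5, 6]), (4, [], [6])]),
  (2, 7, [(0, [0], [0, 1]), (0, [0], [2, 3]), (0, [1], [0, 1]), (4, [], [3]), (0, [1], [4, 5]), (1, [], [4, 6]), (1, [], [5, 6]), (4, [], [2])]),
  (2, 7, [(0, [0], [0, 1]), (0, [0], [2, 3]), (0, [1], [0, 1]), (4, [], [3]), (0, [1], [4, 5]), (1, [], [4, 6]), (1, [], [2, 6]), (4, [], [5])]),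
  (2, 7, [(0, [0], [0, 1]), (0, [0], [2, 3]), (0, [1], [0, 1]), (4, [], [3]), (0, [1], [4, 5]), (1, [], [4, 6]), (1, [], [2, 5]), (4, [], [6])]),
  (2, 7, [(0, [0], [0, 1]), (0, [0], [2, 3]), (0, [1], [0, 1]), (4, [], [3]), (0, [1], [4, 5]), (1, [], [4, 5]), (1, [], [2, 6]), (4, [], [6])]),
  (2, 6, [(0, [0], [0, 1]), (0, [0], [2, 3]), (0, [1], [0, 1]), (4, [], [3]), (0, [1], [4, 5]), (1, [], [4, 5]), (4, [], [2])]),
  (2, 6, [(0, [0], [0, 1]), (0, [0], [2, 3]), (0, [1], [0, 1]), (4, [], [3]), (0, [1], [4, 5]), (1, [], [2, 4]), (4, [], [5])]),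
  (2, 6, [(0, [0], [0, 1]), (0, [0], [2, 3]), (0, [1], [0, 1]), (4, [], [3]), (0, [1], [4, 5]), (3, [], [2, 4, 5])]),
  (2, 7, [(0, [0], [0, 1]), (0, [0], [2, 3]), (0, [1], [0, 1]), (4, [], [3]), (0, [1], [2, 4]), (1, [], [5, 6]), (1, [], [4, 5]), (4, [], [6])]),
  (2, 6, [(0, [0], [0, 1]), (0, [0], [2, 3]), (0, [1], [0, 1]), (4, [], [3]), (0, [1], [2, 4]), (1, [], [4, 5]), (4, [], [5])]),
  (3, 7, [(0, [0], [0, 1]), (0, [0], [2, 0]), (0, [1], [1, 3]), (4, [], [3]), (0, [2], [4, 5]), (0, [2], [2, 4]), (0, [1], [5, 6]), (4, [], [6])]),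
  (2, 7, [(0, [0], [0, 1]), (0, [0], [2, 0]), (0, [1], [1, 3]), (4, [], [3]), (0, [1], [4, 5]), (1, [], [4, 6]), (1, [], [2, 6]), (4, [], [5])]),
  (2, 7, [(0, [0], [0, 1]), (0, [0], [2, 0]), (0, [1], [1, 3]), (4, [], [3]), (0, [1], [4, 5]), (1, [], [4, 6]), (1, [], [2, 5]), (4, [], [6])]),
  (2, 7, [(0, [0], [0, 1]), (0, [0], [2, 0]), (0, [1], [1, 3]), (4, [], [3]), (0, [1], [4, 5]), (1, [], [4, 5]), (1, [], [2, 6]), (4, [], [6])]),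
  (2, 6, [(0, [0], [0, 1]), (0, [0], [2, 0]), (0, [1], [1, 3]), (4, [], [3]), (0, [1], [4, 5]), (3, [], [2, 4, 5])]),
  (2, 7, [(0, [0], [0, 1]), (0, [0], [2, 0]), (0, [1], [1, 3]), (4, [], [3]), (0, [1], [2, 4]), (1, [], [5, 6]), (1, [], [5, 6]), (4, [], [4])]),
  (2, 7, [(0, [0], [0, 1]), (0, [0], [2, 0]), (0, [1], [1, 3]), (4, [], [3]), (0, [1], [2, 4]), (1, [], [5, 6]), (1, [], [4, 5]), (4, [], [6])]),
  (1, 7, [(0, [0], [0, 1]), (1, [], [0, 2]), (1, [], [1, 2]), (4, [], [3]), (0, [0], [4, 5]), (1, [], [4, 6]), (1, [], [3, 6]), (4, [], [5])]),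
  (1, 7, [(0, [0], [0, 1]), (1, [], [0, 2]), (1, [], [1, 2]), (4, [], [3]), (0, [0], [4, 5]), (1, [], [4, 6]), (1, [], [3, 5]), (4, [], [6])]),
  (1, 7, [(0, [0], [0, 1]), (1, [], [0, 2]), (1, [], [1, 2]), (4, [], [3]), (0, [0], [4, 5]), (1, [], [4, 5]), (1, [], [3, 6]), (4, [], [6])]),
  (1, 6, [(0, [0], [0, 1]), (1, [], [0, 2]), (1, [], [1, 2]), (4, [], [3]), (0, [0], [4, 5]), (1, [], [4, 5]), (4, [], [3])]),
  (1, 6, [(0, [0], [0, 1]), (1, [], [0, 2]), (1, [], [1, 2]), (4, [], [3]), (0, [0], [4, 5]), (1, [], [3, 4]), (4, [], [5])]),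
  (1, 7, [(0, [0], [0, 1]), (1, [], [0, 2]), (1, [], [1, 2]), (4, [], [3]), (0, [0], [3, 4]), (1, [], [5, 6]), (1, [], [5, 6]), (4, [], [4])]),
  (1, 5, [(0, [0], [0, 1]), (1, [], [0, 2]), (1, [], [1, 2]), (4, [], [3]), (0, [0], [3, 4]), (4, [], [4])]),
  (1, 7, [(0, [0], [0, 1]), (1, [], [0, 2]), (1, [], [3, 2]), (4, [], [1]), (0, [0], [4, 5]), (1, [], [4, 6]), (1, [], [3, 6]), (4, [], [5])]),
  (1, 7, [(0, [0], [0, 1]), (1, [], [0, 2]), (1, [], [3, 2]), (4, [], [1]), (0, [0], [4, 5]), (1, [], [4, 6]), (1, [], [3, 5]), (4, [], [6])]),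
  (1, 7, [(0, [0], [0, 1]), (1, [], [0, 2]), (1, [], [3, 2]), (4, [], [1]), (0, [0], [4, 5]), (1, [], [4, 5]), (1, [], [3, 6]), (4, [], [6])]),
  (1, 6, [(0, [0], [0, 1]), (1, [], [0, 2]), (1, [], [3, 2]), (4, [], [1]), (0, [0], [4, 5]), (1, [], [3, 4]), (4, [], [5])]),
  (1, 7, [(0, [0], [0, 1]), (1, [], [0, 2]), (1, [], [3, 2]), (4, [], [1]), (0, [0], [3, 4]), (1, [], [5, 6]), (1, [], [5, 6]), (4, [], [4])]),
  (1, 7, [(0, [0], [0, 1]), (1, [], [0, 2]), (1, [], [3, 2]), (4, [], [1]), (0, [0], [3, 4]), (1, [], [5, 6]), (1, [], [4, 5]), (4, [], [6])]),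
  (1, 6, [(0, [0], [0, 1]), (1, [], [0, 2]), (1, [], [3, 2]), (4, [], [1]), (0, [0], [3, 4]), (1, [], [4, 5]), (4, [], [5])]),
  (1, 5, [(0, [0], [0, 1]), (1, [], [0, 2]), (1, [], [3, 2]), (4, [], [1]), (0, [0], [3, 4]), (4, [], [4])]),
  (1, 6, [(0, [0], [0, 1]), (1, [], [0, 2]), (1, [], [3, 2]), (4, [], [1]), (1, [], [4, 5]), (2, [0], [3, 4, 5])]),
  (1, 7, [(0, [0], [0, 1]), (1, [], [0, 2]), (1, [], [3, 1]), (4, [], [2]), (0, [0], [4, 5]), (1, [], [4, 6]), (1, [], [3, 5]), (4, [], [6])]),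
  (1, 7, [(0, [0], [0, 1]), (1, [], [0, 2]), (1, [], [3, 1]), (4, [], [2]), (0, [0], [4, 5]), (1, [], [4, 5]), (1, [], [3, 6]), (4, [], [6])]),
  (1, 6, [(0, [0], [0, 1]), (1, [], [0, 2]), (1, [], [3, 1]), (4, [], [2]), (0, [0], [4, 5]), (1, [], [4, 5]), (4, [], [3])]),
  (1, 7, [(0, [0], [0, 1]), (1, [], [0, 2]), (1, [], [3, 1]), (4, [], [2]), (0, [0], [3, 4]), (1, [], [5, 6]), (1, [], [5, 6]), (4, [], [4])]),
  (1, 7, [(0, [0], [0, 1]), (1, [], [0, 2]), (1, [], [3, 1]), (4, [], [2]), (0, [0], [3, 4]), (1, [], [5, 6]), (1, [], [4, 5]), (4, [], [6])]),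
  (1, 6, [(0, [0], [0, 1]), (1, [], [0, 2]), (1, [], [3, 1]), (4, [], [2]), (0, [0], [3, 4]), (1, [], [4, 5]), (4, [], [5])]),
  (1, 5, [(0, [0], [0, 1]), (1, [], [0, 2]), (1, [], [3, 1]), (4, [], [2]), (0, [0], [3, 4]), (4, [], [4])]),
  (1, 6, [(0, [0], [0, 1]), (1, [], [0, 2]), (1, [], [3, 1]), (4, [], [2]), (1, [], [4, 5]), (2, [0], [3, 4, 5])]),
  (1, 7, [(0, [0], [0, 1]), (1, [], [0, 1]), (1, [], [2, 3]), (4, [], [3]), (0, [0], [4, 5]), (1, [], [4, 5]), (1, [], [2, 6]), (4, [], [6])]),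
  (1, 6, [(0, [0], [0, 1]), (1, [], [0, 1]), (1, [], [2, 3]), (4, [], [3]), (0, [0], [4, 5]), (1, [], [4, 5]), (4, [], [2])]),
  (1, 6, [(0, [0], [0, 1]), (1, [], [0, 1]), (1, [], [2, 3]), (4, [], [3]), (1, [], [4, 5]), (2, [0], [2, 4, 5])]),
  (1, 5, [(0, [0], [0, 1]), (1, [], [0, 1]), (4, [], [2]), (0, [0], [3, 4]), (1, [], [3, 4]), (4, [], [2])]),
  (1, 6, [(0, [0], [0, 1]), (1, [], [2, 0]), (4, [], [1]), (0, [0], [2, 3]), (1, [], [4, 5]), (1, [], [3, 4]), (4, [], [5])]),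
  (1, 5, [(0, [0], [0, 1]), (1, [], [2, 0]), (4, [], [1]), (1, [], [3, 4]), (2, [0], [2, 3, 4])]),
  (1, 6, [(0, [0], [0, 1]), (3, [], [2, 0, 1]), (0, [0], [2, 3]), (1, [], [4, 5]), (1, [], [3, 4]), (4, [], [5])]),
  (1, 5, [(0, [0], [0, 1]), (3, [], [2, 0, 1]), (0, [0], [2, 3]), (1, [], [3, 4]), (4, [], [4])]),
  (1, 4, [(0, [0], [0, 1]), (3, [], [2, 0, 1]), (0, [0], [2, 3]), (4, [], [3])]),
  (1, 7, [(0, [0], [0, 1]), (1, [], [2, 3]), (1, [], [2, 3]), (4, [], [1]), (0, [0], [0, 4]), (1, [], [5, 6]), (1, [], [4, 5]), (4, [], [6])]),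
  (1, 7, [(0, [0], [0, 1]), (1, [], [2, 3]), (1, [], [1, 2]), (4, [], [3]), (0, [0], [0, 4]), (1, [], [5, 6]), (1, [], [4, 5]), (4, [], [6])]),
  (1, 6, [(0, [0], [0, 1]), (1, [], [2, 3]), (1, [], [1, 2]), (4, [], [3]), (0, [0], [0, 4]), (1, [], [4, 5]), (4, [], [5])]),
  (1, 5, [(0, [0], [0, 1]), (1, [], [1, 2]), (4, [], [2]), (0, [0], [0, 3]), (1, [], [3, 4]), (4, [], [4])]),
  (3, 7, [(0, [0], [0, 1]), (0, [0], [0, 1]), (0, [1], [2, 3]), (4, [], [4]), (0, [2], [5, 6]), (0, [2], [5, 6]), (0, [1], [2, 3]), (4, [], [4])]),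
  (3, 7, [(0, [0], [0, 1]), (0, [0], [0, 1]), (0, [1], [2, 3]), (4, [], [4]), (0, [2], [5, 6]), (0, [2], [2, 5]), (0, [1], [3, 6]), (4, [], [4])]),
  (3, 7, [(0, [0], [0, 1]), (0, [0], [0, 1]), (0, [1], [2, 3]), (4, [], [4]), (0, [2], [5, 6]), (0, [2], [2, 3]), (0, [1], [5, 6]), (4, [], [4])]),
  (3, 7, [(0, [0], [0, 1]), (0, [0], [0, 1]), (0, [1], [2, 3]), (4, [], [4]), (0, [2], [2, 5]), (0, [2], [3, 6]), (0, [1], [5, 6]), (4, [], [4])]),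
  (2, 7, [(0, [0], [0, 1]), (0, [0], [0, 1]), (0, [1], [2, 3]), (4, [], [4]), (0, [1], [5, 6]), (1, [], [5, 6]), (1, [], [2, 3]), (4, [], [4])]),
  (2, 7, [(0, [0], [0, 1]), (0, [0], [0, 1]), (0, [1], [2, 3]), (4, [], [4]), (0, [1], [5, 6]), (1, [], [2, 5]), (1, [], [3, 6]), (4, [], [4])]),
  (2, 7, [(0, [0], [0, 1]), (0, [0], [0, 1]), (0, [1], [2, 3]), (4, [], [4]), (0, [1], [2, 5]), (1, [], [5, 6]), (1, [], [3, 6]), (4, [], [4])]),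
  (2, 7, [(0, [0], [0, 1]), (0, [0], [0, 1]), (0, [1], [2, 3]), (4, [], [4]), (0, [1], [2, 5]), (1, [], [5, 6]), (1, [], [3, 4]), (4, [], [6])]),
  (2, 7, [(0, [0], [0, 1]), (0, [0], [0, 1]), (0, [1], [2, 3]), (4, [], [4]), (0, [1], [2, 5]), (1, [], [4, 6]), (1, [], [3, 5]), (4, [], [6])]),
  (2, 6, [(0, [0], [0, 1]), (0, [0], [0, 1]), (0, [1], [2, 3]), (4, [], [4]), (0, [1], [2, 5]), (1, [], [3, 5]), (4, [], [4])]),
  (2, 6, [(0, [0], [0, 1]), (0, [0], [0, 1]), (0, [1], [2, 3]), (4, [], [4]), (0, [1], [2, 5]), (3, [], [3, 4, 5])]),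
  (2, 7, [(0, [0], [0, 1]), (0, [0], [0, 1]), (0, [1], [2, 3]), (4, [], [4]), (0, [1], [2, 3]), (1, [], [5, 6]), (1, [], [5, 6]), (4, [], [4])]),
  (2, 6, [(0, [0], [0, 1]), (0, [0], [0, 1]), (0, [1], [2, 3]), (4, [], [4]), (1, [], [2, 5]), (2, [1], [3, 4, 5])]),
  (3, 7, [(0, [0], [0, 1]), (0, [0], [2, 0]), (0, [1], [3, 1]), (4, [], [4]), (0, [2], [5, 6]), (0, [2], [2, 5]), (0, [1], [3, 6]), (4, [], [4])]),
  (3, 7, [(0, [0], [0, 1]), (0, [0], [2, 0]), (0, [1], [3, 1]), (4, [], [4]), (0, [2], [5, 6]), (0, [2], [3, 5]), (0, [1], [2, 6]), (4, [], [4])]),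
  (3, 7, [(0, [0], [0, 1]), (0, [0], [2, 0]), (0, [1], [3, 1]), (4, [], [4]), (0, [2], [5, 6]), (0, [2], [4, 5]), (0, [1], [2, 3]), (4, [], [6])]),
  (3, 7, [(0, [0], [0, 1]), (0, [0], [2, 0]), (0, [1], [3, 1]), (4, [], [4]), (0, [2], [5, 6]), (0, [2], [2, 3]), (0, [1], [5, 6]), (4, [], [4])]),
  (3, 7, [(0, [0], [0, 1]), (0, [0], [2, 0]), (0, [1], [3, 1]), (4, [], [4]), (0, [2], [5, 6]), (0, [2], [2, 3]), (0, [1], [4, 5]), (4, [], [6])]),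
  (3, 7, [(0, [0], [0, 1]), (0, [0], [2, 0]), (0, [1], [3, 1]), (4, [], [4]), (0, [2], [5, 6]), (0, [2], [3, 4]), (0, [1], [2, 5]), (4, [], [6])]),
  (3, 7, [(0, [0], [0, 1]), (0, [0], [2, 0]), (0, [1], [3, 1]), (4, [], [4]), (0, [2], [2, 5]), (0, [2], [3, 6]), (0, [1], [5, 6]), (4, [], [4])]),
  (3, 7, [(0, [0], [0, 1]), (0, [0], [2, 0]), (0, [1], [3, 1]), (4, [], [4]), (0, [2], [3, 5]), (0, [2], [2, 6]), (0, [1], [4, 6]), (4, [], [5])]),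
  (3, 7, [(0, [0], [0, 1]), (0, [0], [2, 0]), (0, [1], [3, 1]), (4, [], [4]), (0, [2], [4, 5]), (0, [2], [2, 6]), (0, [1], [3, 6]), (4, [], [5])]),
  (3, 7, [(0, [0], [0, 1]), (0, [0], [2, 0]), (0, [1], [3, 1]), (4, [], [4]), (0, [2], [4, 5]), (0, [2], [3, 6]), (0, [1], [2, 6]), (4, [], [5])]),
  (2, 7, [(0, [0], [0, 1]), (0, [0], [2, 0]), (0, [1], [3, 1]), (4, [], [4]), (0, [1], [5, 6]), (1, [], [5, 6]), (1, [], [2, 3]), (4, [], [4])]),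
  (2, 7, [(0, [0], [0, 1]), (0, [0], [2, 0]), (0, [1], [3, 1]), (4, [], [4]), (0, [1], [5, 6]), (1, [], [2, 5]), (1, [], [3, 6]), (4, [], [4])]),
  (2, 7, [(0, [0], [0, 1]), (0, [0], [2, 0]), (0, [1], [3, 1]), (4, [], [4]), (0, [1], [5, 6]), (1, [], [2, 5]), (1, [], [3, 4]), (4, [], [6])]),
  (2, 7, [(0, [0], [0, 1]), (0, [0], [2, 0]), (0, [1], [3, 1]), (4, [], [4]), (0, [1], [5, 6]), (1, [], [3, 5]), (1, [], [2, 4]), (4, [], [6])]),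
  (2, 7, [(0, [0], [0, 1]), (0, [0], [2, 0]), (0, [1], [3, 1]), (4, [], [4]), (0, [1], [5, 6]), (1, [], [4, 5]), (1, [], [2, 3]), (4, [], [6])]),
  (2, 7, [(0, [0], [0, 1]), (0, [0], [2, 0]), (0, [1], [3, 1]), (4, [], [4]), (0, [1], [2, 5]), (1, [], [5, 6]), (1, [], [3, 6]), (4, [], [4])]),
  (2, 7, [(0, [0], [0, 1]), (0, [0], [2, 0]), (0, [1], [3, 1]), (4, [], [4]), (0, [1], [3, 5]), (1, [], [5, 6]), (1, [], [2, 6]), (4, [], [4])]),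
  (2, 7, [(0, [0], [0, 1]), (0, [0], [2, 0]), (0, [1], [3, 1]), (4, [], [4]), (0, [1], [2, 5]), (1, [], [5, 6]), (1, [], [3, 4]), (4, [], [6])]),
  (2, 7, [(0, [0], [0, 1]), (0, [0], [2, 0]), (0, [1], [3, 1]), (4, [], [4]), (0, [1], [3, 5]), (1, [], [5, 6]), (1, [], [2, 4]), (4, [], [6])]),
  (2, 7, [(0, [0], [0, 1]), (0, [0], [2, 0]), (0, [1], [3, 1]), (4, [], [4]), (0, [1], [4, 5]), (1, [], [2, 6]), (1, [], [3, 6]), (4, [], [5])]),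
  (2, 7, [(0, [0], [0, 1]), (0, [0], [2, 0]), (0, [1], [3, 1]), (4, [], [4]), (0, [1], [2, 5]), (1, [], [4, 6]), (1, [], [3, 5]), (4, [], [6])]),
  (2, 7, [(0, [0], [0, 1]), (0, [0], [2, 0]), (0, [1], [3, 1]), (4, [], [4]), (0, [1], [3, 5]), (1, [], [4, 6]), (1, [], [2, 5]), (4, [], [6])]),
  (2, 6, [(0, [0], [0, 1]), (0, [0], [2, 0]), (0, [1], [3, 1]), (4, [], [4]), (0, [1], [2, 5]), (1, [], [3, 5]), (4, [], [4])]),
  (2, 6, [(0, [0], [0, 1]), (0, [0], [2, 0]), (0, [1], [3, 1]), (4, [], [4]), (0, [1], [3, 5]), (1, [], [2, 5]), (4, [], [4])]),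
  (2, 6, [(0, [0], [0, 1]), (0, [0], [2, 0]), (0, [1], [3, 1]), (4, [], [4]), (0, [1], [4, 5]), (1, [], [2, 3]), (4, [], [5])]),
  (2, 6, [(0, [0], [0, 1]), (0, [0], [2, 0]), (0, [1], [3, 1]), (4, [], [4]), (0, [1], [2, 5]), (3, [], [3, 4, 5])]),
  (2, 6, [(0, [0], [0, 1]), (0, [0], [2, 0]), (0, [1], [3, 1]), (4, [], [4]), (0, [1], [3, 5]), (3, [], [2, 4, 5])]),
  (2, 6, [(0, [0], [0, 1]), (0, [0], [2, 0]), (0, [1], [3, 1]), (4, [], [4]), (0, [1], [4, 5]), (3, [], [2, 3, 5])]),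
  (2, 7, [(0, [0], [0, 1]), (0, [0], [2, 0]), (0, [1], [3, 1]), (4, [], [4]), (0, [1], [2, 3]), (1, [], [5, 6]), (1, [], [5, 6]), (4, [], [4])]),
  (2, 7, [(0, [0], [0, 1]), (0, [0], [2, 0]), (0, [1], [3, 1]), (4, [], [4]), (0, [1], [2, 3]), (1, [], [5, 6]), (1, [], [4, 5]), (4, [], [6])]),
  (2, 6, [(0, [0], [0, 1]), (0, [0], [2, 0]), (0, [1], [3, 1]), (4, [], [4]), (0, [1], [2, 3]), (1, [], [4, 5]), (4, [], [5])]),
  (2, 5, [(0, [0], [0, 1]), (0, [0], [2, 0]), (0, [1], [3, 1]), (4, [], [4]), (0, [1], [2, 3]), (4, [], [4])]),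
  (2, 6, [(0, [0], [0, 1]), (0, [0], [2, 0]), (0, [1], [3, 1]), (4, [], [4]), (1, [], [2, 5]), (2, [1], [3, 4, 5])]),
  (2, 6, [(0, [0], [0, 1]), (0, [0], [2, 0]), (0, [1], [3, 1]), (4, [], [4]), (1, [], [3, 5]), (2, [1], [2, 4, 5])]),
  (2, 6, [(0, [0], [0, 1]), (0, [0], [2, 0]), (0, [1], [3, 1]), (4, [], [4]), (1, [], [4, 5]), (2, [1], [2, 3, 5])]),
  (3, 7, [(0, [0], [0, 1]), (0, [0], [2, 0]), (0, [1], [3, 4]), (4, [], [1]), (0, [2], [5, 6]), (0, [2], [3, 4]), (0, [1], [5, 6]), (4, [], [2])]),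
  (3, 7, [(0, [0], [0, 1]), (0, [0], [2, 0]), (0, [1], [3, 4]), (4, [], [1]), (0, [2], [3, 5]), (0, [2], [4, 6]), (0, [1], [5, 6]), (4, [], [2])]),
  (2, 7, [(0, [0], [0, 1]), (0, [0], [2, 0]), (0, [1], [3, 4]), (4, [], [1]), (0, [1], [5, 6]), (1, [], [5, 6]), (1, [], [3, 4]), (4, [], [2])]),
  (2, 7, [(0, [0], [0, 1]), (0, [0], [2, 0]), (0, [1], [3, 4]), (4, [], [1]), (0, [1], [5, 6]), (1, [], [2, 5]), (1, [], [3, 6]), (4, [], [4])]),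
  (2, 7, [(0, [0], [0, 1]), (0, [0], [2, 0]), (0, [1], [3, 4]), (4, [], [1]), (0, [1], [5, 6]), (1, [], [3, 5]), (1, [], [4, 6]), (4, [], [2])]),
  (2, 7, [(0, [0], [0, 1]), (0, [0], [2, 0]), (0, [1], [3, 4]), (4, [], [1]), (0, [1], [3, 5]), (1, [], [5, 6]), (1, [], [2, 6]), (4, [], [4])]),
  (2, 7, [(0, [0], [0, 1]), (0, [0], [2, 0]), (0, [1], [3, 4]), (4, [], [1]), (0, [1], [3, 5]), (1, [], [5, 6]), (1, [], [4, 6]), (4, [], [2])]),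
  (2, 7, [(0, [0], [0, 1]), (0, [0], [2, 0]), (0, [1], [3, 4]), (4, [], [1]), (0, [1], [3, 5]), (1, [], [5, 6]), (1, [], [2, 4]), (4, [], [6])]),
  (2, 7, [(0, [0], [0, 1]), (0, [0], [2, 0]), (0, [1], [3, 4]), (4, [], [1]), (0, [1], [3, 5]), (1, [], [2, 6]), (1, [], [4, 5]), (4, [], [6])]),
  (2, 6, [(0, [0], [0, 1]), (0, [0], [2, 0]), (0, [1], [3, 4]), (4, [], [1]), (0, [1], [3, 5]), (1, [], [2, 5]), (4, [], [4])]),
  (2, 6, [(0, [0], [0, 1]), (0, [0], [2, 0]), (0, [1], [3, 4]), (4, [], [1]), (0, [1], [3, 5]), (1, [], [4, 5]), (4, [], [2])]),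
  (2, 6, [(0, [0], [0, 1]), (0, [0], [2, 0]), (0, [1], [3, 4]), (4, [], [1]), (0, [1], [3, 5]), (3, [], [2, 4, 5])]),
  (2, 6, [(0, [0], [0, 1]), (0, [0], [2, 0]), (0, [1], [3, 4]), (4, [], [1]), (1, [], [2, 5]), (2, [1], [3, 4, 5])]),
  (2, 6, [(0, [0], [0, 1]), (0, [0], [2, 0]), (0, [1], [3, 4]), (4, [], [1]), (1, [], [3, 5]), (2, [1], [2, 4, 5])]),
  (3, 7, [(0, [0], [0, 1]), (0, [0], [2, 3]), (0, [1], [0, 1]), (4, [], [4]), (0, [2], [5, 6]), (0, [2], [2, 3]), (0, [1], [5, 6]), (4, [], [4])]),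
  (3, 7, [(0, [0], [0, 1]), (0, [0], [2, 3]), (0, [1], [0, 1]), (4, [], [4]), (0, [2], [5, 6]), (0, [2], [2, 4]), (0, [1], [3, 5]), (4, [], [6])]),
  (3, 7, [(0, [0], [0, 1]), (0, [0], [2, 3]), (0, [1], [0, 1]), (4, [], [4]), (0, [2], [2, 5]), (0, [2], [3, 6]), (0, [1], [5, 6]), (4, [], [4])]),
  (3, 7, [(0, [0], [0, 1]), (0, [0], [2, 3]), (0, [1], [0, 1]), (4, [], [4]), (0, [2], [4, 5]), (0, [2], [2, 6]), (0, [1], [3, 6]), (4, [], [5])]),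
  (2, 7, [(0, [0], [0, 1]), (0, [0], [2, 3]), (0, [1], [0, 1]), (4, [], [4]), (0, [1], [5, 6]), (1, [], [5, 6]), (1, [], [2, 3]), (4, [], [4])]),
  (2, 7, [(0, [0], [0, 1]), (0, [0], [2, 3]), (0, [1], [0, 1]), (4, [], [4]), (0, [1], [5, 6]), (1, [], [2, 5]), (1, [], [3, 6]), (4, [], [4])]),
  (2, 7, [(0, [0], [0, 1]), (0, [0], [2, 3]), (0, [1], [0, 1]), (4, [], [4]), (0, [1], [2, 5]), (1, [], [5, 6]), (1, [], [3, 6]), (4, [], [4])]),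
  (2, 7, [(0, [0], [0, 1]), (0, [0], [2, 3]), (0, [1], [0, 1]), (4, [], [4]), (0, [1], [2, 5]), (1, [], [5, 6]), (1, [], [3, 4]), (4, [], [6])]),
  (2, 7, [(0, [0], [0, 1]), (0, [0], [2, 3]), (0, [1], [0, 1]), (4, [], [4]), (0, [1], [2, 5]), (1, [], [4, 6]), (1, [], [3, 5]), (4, [], [6])]),
  (2, 6, [(0, [0], [0, 1]), (0, [0], [2, 3]), (0, [1], [0, 1]), (4, [], [4]), (0, [1], [2, 5]), (1, [], [3, 5]), (4, [], [4])]),
  (2, 6, [(0, [0], [0, 1]), (0, [0], [2, 3]), (0, [1], [0, 1]), (4, [], [4]), (0, [1], [2, 5]), (3, [], [3, 4, 5])]),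
  (2, 7, [(0, [0], [0, 1]), (0, [0], [2, 3]), (0, [1], [0, 1]), (4, [], [4]), (0, [1], [2, 3]), (1, [], [5, 6]), (1, [], [5, 6]), (4, [], [4])]),
  (2, 7, [(0, [0], [0, 1]), (0, [0], [2, 3]), (0, [1], [0, 1]), (4, [], [4]), (0, [1], [2, 3]), (1, [], [5, 6]), (1, [], [4, 5]), (4, [], [6])]),
  (2, 6, [(0, [0], [0, 1]), (0, [0], [2, 3]), (0, [1], [0, 1]), (4, [], [4]), (0, [1], [2, 3]), (1, [], [4, 5]), (4, [], [5])]),
  (2, 5, [(0, [0], [0, 1]), (0, [0], [2, 3]), (0, [1], [0, 1]), (4, [], [4]), (0, [1], [2, 3]), (4, [], [4])]),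
  (2, 6, [(0, [0], [0, 1]), (0, [0], [2, 3]), (0, [1], [0, 1]), (4, [], [4]), (1, [], [2, 5]), (2, [1], [3, 4, 5])]),
  (2, 6, [(0, [0], [0, 1]), (0, [0], [2, 3]), (0, [1], [0, 1]), (4, [], [4]), (1, [], [4, 5]), (2, [1], [2, 3, 5])]),
  (3, 7, [(0, [0], [0, 1]), (0, [0], [2, 3]), (0, [1], [4, 0]), (4, [], [1]), (0, [2], [5, 6]), (0, [2], [2, 4]), (0, [1], [3, 5]), (4, [], [6])]),
  (3, 7, [(0, [0], [0, 1]), (0, [0], [2, 3]), (0, [1], [4, 0]), (4, [], [1]), (0, [2], [2, 5]), (0, [2], [3, 6]), (0, [1], [5, 6]), (4, [], [4])]),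
  (3, 7, [(0, [0], [0, 1]), (0, [0], [2, 3]), (0, [1], [4, 0]), (4, [], [1]), (0, [2], [2, 5]), (0, [2], [4, 6]), (0, [1], [5, 6]), (4, [], [3])]),
  (3, 7, [(0, [0], [0, 1]), (0, [0], [2, 3]), (0, [1], [4, 0]), (4, [], [1]), (0, [2], [2, 5]), (0, [2], [4, 6]), (0, [1], [3, 6]), (4, [], [5])]),
  (3, 7, [(0, [0], [0, 1]), (0, [0], [2, 3]), (0, [1], [4, 0]), (4, [], [1]), (0, [2], [4, 5]), (0, [2], [2, 6]), (0, [1], [3, 6]), (4, [], [5])]),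
  (2, 7, [(0, [0], [0, 1]), (0, [0], [2, 3]), (0, [1], [4, 0]), (4, [], [1]), (0, [1], [5, 6]), (1, [], [5, 6]), (1, [], [2, 4]), (4, [], [3])]),
  (2, 7, [(0, [0], [0, 1]), (0, [0], [2, 3]), (0, [1], [4, 0]), (4, [], [1]), (0, [1], [5, 6]), (1, [], [2, 5]), (1, [], [3, 6]), (4, [], [4])]),
  (2, 7, [(0, [0], [0, 1]), (0, [0], [2, 3]), (0, [1], [4, 0]), (4, [], [1]), (0, [1], [5, 6]), (1, [], [2, 5]), (1, [], [4, 6]), (4, [], [3])]),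
  (2, 7, [(0, [0], [0, 1]), (0, [0], [2, 3]), (0, [1], [4, 0]), (4, [], [1]), (0, [1], [5, 6]), (1, [], [2, 5]), (1, [], [3, 4]), (4, [], [6])]),
  (2, 7, [(0, [0], [0, 1]), (0, [0], [2, 3]), (0, [1], [4, 0]), (4, [], [1]), (0, [1], [2, 5]), (1, [], [5, 6]), (1, [], [3, 6]), (4, [], [4])]),
  (2, 7, [(0, [0], [0, 1]), (0, [0], [2, 3]), (0, [1], [4, 0]), (4, [], [1]), (0, [1], [2, 5]), (1, [], [5, 6]), (1, [], [4, 6]), (4, [], [3])]),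
  (2, 7, [(0, [0], [0, 1]), (0, [0], [2, 3]), (0, [1], [4, 0]), (4, [], [1]), (0, [1], [2, 5]), (1, [], [5, 6]), (1, [], [3, 4]), (4, [], [6])]),
  (2, 7, [(0, [0], [0, 1]), (0, [0], [2, 3]), (0, [1], [4, 0]), (4, [], [1]), (0, [1], [2, 5]), (1, [], [3, 6]), (1, [], [4, 6]), (4, [], [5])]),
  (2, 7, [(0, [0], [0, 1]), (0, [0], [2, 3]), (0, [1], [4, 0]), (4, [], [1]), (0, [1], [2, 5]), (1, [], [3, 6]), (1, [], [4, 5]), (4, [], [6])]),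
  (2, 7, [(0, [0], [0, 1]), (0, [0], [2, 3]), (0, [1], [4, 0]), (4, [], [1]), (0, [1], [2, 5]), (1, [], [4, 6]), (1, [], [3, 5]), (4, [], [6])]),
  (2, 6, [(0, [0], [0, 1]), (0, [0], [2, 3]), (0, [1], [4, 0]), (4, [], [1]), (0, [1], [2, 5]), (1, [], [3, 5]), (4, [], [4])]),
  (2, 6, [(0, [0], [0, 1]), (0, [0], [2, 3]), (0, [1], [4, 0]), (4, [], [1]), (0, [1], [2, 5]), (3, [], [3, 4, 5])]),
  (2, 6, [(0, [0], [0, 1]), (0, [0], [2, 3]), (0, [1], [4, 0]), (4, [], [1]), (1, [], [2, 5]), (2, [1], [3, 4, 5])]),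
  (3, 7, [(0, [0], [0, 1]), (0, [0], [2, 3]), (0, [1], [1, 3]), (4, [], [4]), (0, [2], [0, 5]), (0, [2], [2, 6]), (0, [1], [5, 6]), (4, [], [4])]),
  (3, 7, [(0, [0], [0, 1]), (0, [0], [2, 3]), (0, [1], [1, 3]), (4, [], [4]), (0, [2], [4, 5]), (0, [2], [0, 6]), (0, [1], [2, 6]), (4, [], [5])]),
  (2, 7, [(0, [0], [0, 1]), (0, [0], [2, 3]), (0, [1], [1, 3]), (4, [], [4]), (0, [1], [5, 6]), (1, [], [5, 6]), (1, [], [0, 2]), (4, [], [4])]),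
  (2, 7, [(0, [0], [0, 1]), (0, [0], [2, 3]), (0, [1], [1, 3]), (4, [], [4]), (0, [1], [5, 6]), (1, [], [0, 5]), (1, [], [2, 6]), (4, [], [4])]),
  (2, 7, [(0, [0], [0, 1]), (0, [0], [2, 3]), (0, [1], [1, 3]), (4, [], [4]), (0, [1], [5, 6]), (1, [], [0, 5]), (1, [], [2, 4]), (4, [], [6])]),
  (2, 7, [(0, [0], [0, 1]), (0, [0], [2, 3]), (0, [1], [1, 3]), (4, [], [4]), (0, [1], [5, 6]), (1, [], [4, 5]), (1, [], [0, 2]), (4, [], [6])]),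
  (2, 7, [(0, [0], [0, 1]), (0, [0], [2, 3]), (0, [1], [1, 3]), (4, [], [4]), (0, [1], [0, 5]), (1, [], [5, 6]), (1, [], [2, 6]), (4, [], [4])]),
  (2, 7, [(0, [0], [0, 1]), (0, [0], [2, 3]), (0, [1], [1, 3]), (4, [], [4]), (0, [1], [0, 5]), (1, [], [5, 6]), (1, [], [2, 4]), (4, [], [6])]),
  (2, 7, [(0, [0], [0, 1]), (0, [0], [2, 3]), (0, [1], [1, 3]), (4, [], [4]), (0, [1], [4, 5]), (1, [], [0, 6]), (1, [], [2, 6]), (4, [], [5])]),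
  (2, 7, [(0, [0], [0, 1]), (0, [0], [2, 3]), (0, [1], [1, 3]), (4, [], [4]), (0, [1], [0, 5]), (1, [], [4, 6]), (1, [], [2, 5]), (4, [], [6])]),
  (2, 6, [(0, [0], [0, 1]), (0, [0], [2, 3]), (0, [1], [1, 3]), (4, [], [4]), (0, [1], [0, 5]), (1, [], [2, 5]), (4, [], [4])]),
  (2, 6, [(0, [0], [0, 1]), (0, [0], [2, 3]), (0, [1], [1, 3]), (4, [], [4]), (0, [1], [4, 5]), (1, [], [0, 2]), (4, [], [5])]),
  (2, 6, [(0, [0], [0, 1]), (0, [0], [2, 3]), (0, [1], [1, 3]), (4, [], [4]), (0, [1], [0, 5]), (3, [], [2, 4, 5])]),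
  (2, 6, [(0, [0], [0, 1]), (0, [0], [2, 3]), (0, [1], [1, 3]), (4, [], [4]), (0, [1], [4, 5]), (3, [], [0, 2, 5])]),
  (2, 7, [(0, [0], [0, 1]), (0, [0], [2, 3]), (0, [1], [1, 3]), (4, [], [4]), (0, [1], [0, 2]), (1, [], [5, 6]), (1, [], [5, 6]), (4, [], [4])]),
  (2, 7, [(0, [0], [0, 1]), (0, [0], [2, 3]), (0, [1], [1, 3]), (4, [], [4]), (0, [1], [0, 2]), (1, [], [5, 6]), (1, [], [4, 5]), (4, [], [6])]),
  (2, 6, [(0, [0], [0, 1]), (0, [0], [2, 3]), (0, [1], [1, 3]), (4, [], [4]), (0, [1], [0, 2]), (1, [], [4, 5]), (4, [], [5])]),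
  (2, 5, [(0, [0], [0, 1]), (0, [0], [2, 3]), (0, [1], [1, 3]), (4, [], [4]), (0, [1], [0, 2]), (4, [], [4])]),
  (2, 6, [(0, [0], [0, 1]), (0, [0], [2, 3]), (0, [1], [1, 3]), (4, [], [4]), (1, [], [0, 5]), (2, [1], [2, 4, 5])]),
  (2, 6, [(0, [0], [0, 1]), (0, [0], [2, 3]), (0, [1], [1, 3]), (4, [], [4]), (1, [], [4, 5]), (2, [1], [0, 2, 5])]),
  (2, 7, [(0, [0], [0, 1]), (0, [0], [2, 3]), (0, [1], [4, 3]), (4, [], [1]), (0, [1], [5, 6]), (1, [], [5, 6]), (1, [], [2, 4]), (4, [], [0])]),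
  (2, 7, [(0, [0], [0, 1]), (0, [0], [2, 3]), (0, [1], [4, 3]), (4, [], [1]), (0, [1], [5, 6]), (1, [], [2, 5]), (1, [], [4, 6]), (4, [], [0])]),
  (2, 7, [(0, [0], [0, 1]), (0, [0], [2, 3]), (0, [1], [4, 3]), (4, [], [1]), (0, [1], [5, 6]), (1, [], [0, 5]), (1, [], [2, 4]), (4, [], [6])]),
  (2, 7, [(0, [0], [0, 1]), (0, [0], [2, 3]), (0, [1], [4, 3]), (4, [], [1]), (0, [1], [5, 6]), (1, [], [2, 5]), (1, [], [0, 4]), (4, [], [6])]),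
  (2, 7, [(0, [0], [0, 1]), (0, [0], [2, 3]), (0, [1], [4, 3]), (4, [], [1]), (0, [1], [5, 6]), (1, [], [4, 5]), (1, [], [0, 2]), (4, [], [6])]),
  (2, 6, [(0, [0], [0, 1]), (0, [0], [2, 3]), (0, [1], [4, 3]), (4, [], [1]), (1, [], [0, 5]), (2, [1], [2, 4, 5])]),
  (2, 6, [(0, [0], [0, 1]), (0, [0], [2, 3]), (0, [1], [4, 3]), (4, [], [1]), (1, [], [2, 5]), (2, [1], [0, 4, 5])]),
  (2, 6, [(0, [0], [0, 1]), (0, [0], [2, 3]), (0, [1], [4, 3]), (4, [], [1]), (1, [], [4, 5]), (2, [1], [0, 2, 5])]),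
  (2, 7, [(0, [0], [0, 1]), (0, [0], [2, 1]), (0, [1], [3, 4]), (4, [], [4]), (0, [1], [5, 6]), (1, [], [5, 6]), (1, [], [0, 2]), (4, [], [3])]),
  (2, 7, [(0, [0], [0, 1]), (0, [0], [2, 1]), (0, [1], [3, 4]), (4, [], [4]), (0, [1], [5, 6]), (1, [], [0, 5]), (1, [], [2, 6]), (4, [], [3])]),
  (2, 7, [(0, [0], [0, 1]), (0, [0], [2, 1]), (0, [1], [3, 4]), (4, [], [4]), (0, [1], [5, 6]), (1, [], [0, 5]), (1, [], [2, 3]), (4, [], [6])]),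
  (2, 7, [(0, [0], [0, 1]), (0, [0], [2, 1]), (0, [1], [3, 4]), (4, [], [4]), (0, [1], [5, 6]), (1, [], [3, 5]), (1, [], [0, 2]), (4, [], [6])]),
  (2, 6, [(0, [0], [0, 1]), (0, [0], [2, 1]), (0, [1], [3, 4]), (4, [], [4]), (1, [], [0, 5]), (2, [1], [2, 3, 5])]),
  (2, 6, [(0, [0], [0, 1]), (0, [0], [2, 1]), (0, [1], [3, 4]), (4, [], [4]), (1, [], [3, 5]), (2, [1], [0, 2, 5])]),
  (2, 6, [(0, [0], [0, 1]), (0, [0], [2, 3]), (0, [1], [1, 4]), (4, [], [4]), (1, [], [2, 5]), (2, [1], [0, 3, 5])]),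
  (1, 7, [(0, [0], [0, 1]), (1, [], [0, 1]), (1, [], [2, 3]), (4, [], [4]), (0, [0], [5, 6]), (1, [], [5, 6]), (1, [], [2, 3]), (4, [], [4])]),
  (1, 7, [(0, [0], [0, 1]), (1, [], [0, 1]), (1, [], [2, 3]), (4, [], [4]), (0, [0], [5, 6]), (1, [], [2, 5]), (1, [], [3, 6]), (4, [], [4])]),
  (1, 7, [(0, [0], [0, 1]), (1, [], [0, 1]), (1, [], [2, 3]), (4, [], [4]), (0, [0], [4, 5]), (1, [], [2, 6]), (1, [], [3, 6]), (4, [], [5])]),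
  (1, 6, [(0, [0], [0, 1]), (1, [], [0, 1]), (1, [], [2, 3]), (4, [], [4]), (0, [0], [2, 5]), (3, [], [3, 4, 5])]),
  (1, 6, [(0, [0], [0, 1]), (1, [], [0, 1]), (1, [], [2, 3]), (4, [], [4]), (1, [], [2, 5]), (2, [0], [3, 4, 5])]),
  (1, 7, [(0, [0], [0, 1]), (1, [], [2, 0]), (1, [], [3, 1]), (4, [], [4]), (0, [0], [5, 6]), (1, [], [2, 5]), (1, [], [3, 6]), (4, [], [4])]),
  (1, 7, [(0, [0], [0, 1]), (1, [], [2, 0]), (1, [], [3, 1]), (4, [], [4]), (0, [0], [5, 6]), (1, [], [4, 5]), (1, [], [2, 3]), (4, [], [6])]),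
  (1, 7, [(0, [0], [0, 1]), (1, [], [2, 0]), (1, [], [3, 1]), (4, [], [4]), (0, [0], [2, 5]), (1, [], [5, 6]), (1, [], [3, 6]), (4, [], [4])]),
  (1, 7, [(0, [0], [0, 1]), (1, [], [2, 0]), (1, [], [3, 1]), (4, [], [4]), (0, [0], [2, 5]), (1, [], [3, 6]), (1, [], [4, 6]), (4, [], [5])]),
  (1, 7, [(0, [0], [0, 1]), (1, [], [2, 0]), (1, [], [3, 1]), (4, [], [4]), (0, [0], [4, 5]), (1, [], [2, 6]), (1, [], [3, 6]), (4, [], [5])]),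
  (1, 7, [(0, [0], [0, 1]), (1, [], [2, 0]), (1, [], [3, 1]), (4, [], [4]), (0, [0], [2, 5]), (1, [], [4, 6]), (1, [], [3, 5]), (4, [], [6])]),
  (1, 6, [(0, [0], [0, 1]), (1, [], [2, 0]), (1, [], [3, 1]), (4, [], [4]), (0, [0], [2, 5]), (1, [], [3, 5]), (4, [], [4])]),
  (1, 6, [(0, [0], [0, 1]), (1, [], [2, 0]), (1, [], [3, 1]), (4, [], [4]), (0, [0], [4, 5]), (1, [], [2, 3]), (4, [], [5])]),
  (1, 6, [(0, [0], [0, 1]), (1, [], [2, 0]), (1, [], [3, 1]), (4, [], [4]), (0, [0], [2, 5]), (3, [], [3, 4, 5])]),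
  (1, 6, [(0, [0], [0, 1]), (1, [], [2, 0]), (1, [], [3, 1]), (4, [], [4]), (0, [0], [4, 5]), (3, [], [2, 3, 5])]),
  (1, 7, [(0, [0], [0, 1]), (1, [], [2, 0]), (1, [], [3, 1]), (4, [], [4]), (0, [0], [2, 3]), (1, [], [5, 6]), (1, [], [5, 6]), (4, [], [4])]),
  (1, 7, [(0, [0], [0, 1]), (1, [], [2, 0]), (1, [], [3, 1]), (4, [], [4]), (0, [0], [2, 3]), (1, [], [5, 6]), (1, [], [4, 5]), (4, [], [6])]),
  (1, 6, [(0, [0], [0, 1]), (1, [], [2, 0]), (1, [], [3, 1]), (4, [], [4]), (0, [0], [2, 3]), (1, [], [4, 5]), (4, [], [5])]),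
  (1, 5, [(0, [0], [0, 1]), (1, [], [2, 0]), (1, [], [3, 1]), (4, [], [4]), (0, [0], [2, 3]), (4, [], [4])]),
  (1, 6, [(0, [0], [0, 1]), (1, [], [2, 0]), (1, [], [3, 1]), (4, [], [4]), (1, [], [2, 5]), (2, [0], [3, 4, 5])]),
  (1, 6, [(0, [0], [0, 1]), (1, [], [2, 0]), (1, [], [3, 1]), (4, [], [4]), (1, [], [4, 5]), (2, [0], [2, 3, 5])]),
  (1, 5, [(0, [0], [0, 1]), (1, [], [2, 0]), (1, [], [3, 1]), (4, [], [4]), (2, [0], [2, 3, 4])]),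
  (1, 7, [(0, [0], [0, 1]), (1, [], [2, 0]), (1, [], [3, 4]), (4, [], [1]), (0, [0], [2, 5]), (1, [], [3, 6]), (1, [], [4, 6]), (4, [], [5])]),
  (1, 6, [(0, [0], [0, 1]), (1, [], [2, 0]), (1, [], [3, 4]), (4, [], [1]), (0, [0], [2, 5]), (3, [], [3, 4, 5])]),
  (1, 6, [(0, [0], [0, 1]), (1, [], [2, 0]), (1, [], [3, 4]), (4, [], [1]), (0, [0], [3, 5]), (3, [], [2, 4, 5])]),
  (1, 6, [(0, [0], [0, 1]), (1, [], [2, 0]), (1, [], [3, 4]), (4, [], [1]), (1, [], [3, 5]), (2, [0], [2, 4, 5])]),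
  (1, 7, [(0, [0], [0, 1]), (1, [], [1, 2]), (1, [], [3, 2]), (4, [], [4]), (0, [0], [0, 5]), (1, [], [5, 6]), (1, [], [3, 6]), (4, [], [4])]),
  (1, 7, [(0, [0], [0, 1]), (1, [], [1, 2]), (1, [], [3, 2]), (4, [], [4]), (0, [0], [0, 5]), (1, [], [5, 6]), (1, [], [3, 4]), (4, [], [6])]),
  (1, 7, [(0, [0], [0, 1]), (1, [], [1, 2]), (1, [], [3, 2]), (4, [], [4]), (0, [0], [0, 5]), (1, [], [3, 6]), (1, [], [4, 6]), (4, [], [5])]),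
  (1, 7, [(0, [0], [0, 1]), (1, [], [1, 2]), (1, [], [3, 2]), (4, [], [4]), (0, [0], [0, 5]), (1, [], [4, 6]), (1, [], [3, 5]), (4, [], [6])]),
  (1, 6, [(0, [0], [0, 1]), (1, [], [1, 2]), (1, [], [3, 2]), (4, [], [4]), (0, [0], [0, 5]), (1, [], [3, 5]), (4, [], [4])]),
  (1, 6, [(0, [0], [0, 1]), (1, [], [1, 2]), (1, [], [3, 2]), (4, [], [4]), (0, [0], [0, 5]), (1, [], [3, 4]), (4, [], [5])]),
  (1, 6, [(0, [0], [0, 1]), (1, [], [1, 2]), (1, [], [3, 2]), (4, [], [4]), (0, [0], [0, 5]), (3, [], [3, 4, 5])]),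
  (1, 6, [(0, [0], [0, 1]), (1, [], [1, 2]), (1, [], [3, 2]), (4, [], [4]), (0, [0], [3, 5]), (3, [], [0, 4, 5])]),
  (1, 6, [(0, [0], [0, 1]), (1, [], [1, 2]), (1, [], [3, 2]), (4, [], [4]), (0, [0], [4, 5]), (3, [], [0, 3, 5])]),
  (1, 7, [(0, [0], [0, 1]), (1, [], [1, 2]), (1, [], [3, 2]), (4, [], [4]), (0, [0], [0, 3]), (1, [], [5, 6]), (1, [], [5, 6]), (4, [], [4])]),
  (1, 7, [(0, [0], [0, 1]), (1, [], [1, 2]), (1, [], [3, 2]), (4, [], [4]), (0, [0], [0, 3]), (1, [], [5, 6]), (1, [], [4, 5]), (4, [], [6])]),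
  (1, 6, [(0, [0], [0, 1]), (1, [], [1, 2]), (1, [], [3, 2]), (4, [], [4]), (0, [0], [0, 3]), (1, [], [4, 5]), (4, [], [5])]),
  (1, 5, [(0, [0], [0, 1]), (1, [], [1, 2]), (1, [], [3, 2]), (4, [], [4]), (0, [0], [0, 3]), (4, [], [4])]),
  (1, 6, [(0, [0], [0, 1]), (1, [], [1, 2]), (1, [], [3, 2]), (4, [], [4]), (1, [], [3, 5]), (2, [0], [0, 4, 5])]),
  (1, 6, [(0, [0], [0, 1]), (1, [], [1, 2]), (1, [], [3, 2]), (4, [], [4]), (1, [], [4, 5]), (2, [0], [0, 3, 5])]),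
  (1, 5, [(0, [0], [0, 1]), (1, [], [1, 2]), (1, [], [3, 2]), (4, [], [4]), (2, [0], [0, 3, 4])]),
  (1, 7, [(0, [0], [0, 1]), (1, [], [1, 2]), (1, [], [3, 4]), (4, [], [2]), (0, [0], [0, 5]), (1, [], [5, 6]), (1, [], [3, 4]), (4, [], [6])]),
  (1, 7, [(0, [0], [0, 1]), (1, [], [1, 2]), (1, [], [3, 4]), (4, [], [2]), (0, [0], [0, 5]), (1, [], [3, 6]), (1, [], [4, 6]), (4, [], [5])]),
  (1, 6, [(0, [0], [0, 1]), (1, [], [1, 2]), (1, [], [3, 4]), (4, [], [2]), (0, [0], [0, 5]), (3, [], [3, 4, 5])]),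
  (1, 6, [(0, [0], [0, 1]), (1, [], [1, 2]), (1, [], [3, 4]), (4, [], [2]), (0, [0], [3, 5]), (3, [], [0, 4, 5])]),
  (1, 6, [(0, [0], [0, 1]), (1, [], [1, 2]), (1, [], [3, 4]), (4, [], [2]), (1, [], [3, 5]), (2, [0], [0, 4, 5])]),
  (1, 7, [(0, [0], [0, 1]), (1, [], [2, 3]), (1, [], [4, 3]), (4, [], [1]), (0, [0], [0, 5]), (1, [], [2, 6]), (1, [], [4, 6]), (4, [], [5])]),
  (1, 6, [(0, [0], [0, 1]), (1, [], [2, 3]), (1, [], [4, 3]), (4, [], [1]), (0, [0], [0, 5]), (1, [], [2, 4]), (4, [], [5])]),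
  (1, 6, [(0, [0], [0, 1]), (1, [], [2, 3]), (1, [], [4, 3]), (4, [], [1]), (0, [0], [0, 5]), (3, [], [2, 4, 5])]),
  (1, 6, [(0, [0], [0, 1]), (1, [], [2, 3]), (1, [], [4, 3]), (4, [], [1]), (1, [], [2, 5]), (2, [0], [0, 4, 5])]),
  (1, 5, [(0, [0], [0, 1]), (1, [], [2, 3]), (1, [], [4, 3]), (4, [], [1]), (2, [0], [0, 2, 4])]),
  (1, 6, [(0, [0], [0, 1]), (1, [], [2, 3]), (1, [], [4, 1]), (4, [], [3]), (0, [0], [0, 5]), (3, [], [2, 4, 5])]),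
  (1, 6, [(0, [0], [0, 1]), (1, [], [2, 3]), (1, [], [4, 1]), (4, [], [3]), (0, [0], [4, 5]), (3, [], [0, 2, 5])]),
  (1, 7, [(0, [0], [0, 1]), (1, [], [2, 3]), (1, [], [4, 1]), (4, [], [3]), (0, [0], [0, 4]), (1, [], [5, 6]), (1, [], [5, 6]), (4, [], [2])]),
  (1, 7, [(0, [0], [0, 1]), (1, [], [2, 3]), (1, [], [4, 1]), (4, [], [3]), (0, [0], [0, 4]), (1, [], [5, 6]), (1, [], [2, 5]), (4, [], [6])]),
  (1, 6, [(0, [0], [0, 1]), (1, [], [2, 3]), (1, [], [4, 1]), (4, [], [3]), (0, [0], [0, 4]), (1, [], [2, 5]), (4, [], [5])]),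
  (1, 5, [(0, [0], [0, 1]), (1, [], [2, 3]), (1, [], [4, 1]), (4, [], [3]), (0, [0], [0, 4]), (4, [], [2])]),
  (1, 6, [(0, [0], [0, 1]), (1, [], [2, 3]), (1, [], [4, 1]), (4, [], [3]), (1, [], [2, 5]), (2, [0], [0, 4, 5])]),
  (1, 5, [(0, [0], [0, 1]), (1, [], [2, 3]), (1, [], [4, 1]), (4, [], [3]), (2, [0], [0, 2, 4])]),
  (1, 5, [(0, [0], [0, 1]), (1, [], [2, 1]), (4, [], [3]), (0, [0], [0, 4]), (3, [], [2, 3, 4])]),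
  (1, 5, [(0, [0], [0, 1]), (1, [], [2, 1]), (4, [], [3]), (0, [0], [2, 4]), (3, [], [0, 3, 4])]),
  (1, 5, [(0, [0], [0, 1]), (1, [], [2, 1]), (4, [], [3]), (0, [0], [3, 4]), (3, [], [0, 2, 4])]),
  (1, 6, [(0, [0], [0, 1]), (1, [], [2, 1]), (4, [], [3]), (0, [0], [0, 2]), (1, [], [4, 5]), (1, [], [4, 5]), (4, [], [3])]),
  (1, 4, [(0, [0], [0, 1]), (1, [], [2, 1]), (4, [], [3]), (0, [0], [0, 2]), (4, [], [3])]),
  (1, 4, [(0, [0], [0, 1]), (1, [], [2, 1]), (4, [], [3]), (2, [0], [0, 2, 3])]),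
  (1, 5, [(0, [0], [0, 1]), (3, [], [2, 3, 1]), (0, [0], [0, 4]), (3, [], [2, 3, 4])]),
  (1, 5, [(0, [0], [0, 1]), (3, [], [2, 3, 1]), (0, [0], [2, 4]), (3, [], [0, 3, 4])]),
  (1, 6, [(0, [0], [0, 1]), (3, [], [2, 3, 1]), (0, [0], [0, 2]), (1, [], [4, 5]), (1, [], [4, 5]), (4, [], [3])]),
  (1, 6, [(0, [0], [0, 1]), (3, [], [2, 3, 1]), (0, [0], [0, 2]), (1, [], [4, 5]), (1, [], [3, 4]), (4, [], [5])]),
  (1, 5, [(0, [0], [0, 1]), (3, [], [2, 3, 1]), (0, [0], [0, 2]), (1, [], [3, 4]), (4, [], [4])]),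
  (1, 4, [(0, [0], [0, 1]), (3, [], [2, 3, 1]), (0, [0], [0, 2]), (4, [], [3])]),
  (1, 5, [(0, [0], [0, 1]), (3, [], [2, 3, 1]), (1, [], [0, 4]), (2, [0], [2, 3, 4])]),
  (1, 5, [(0, [0], [0, 1]), (3, [], [2, 3, 1]), (1, [], [2, 4]), (2, [0], [0, 3, 4])]),
  (1, 7, [(0, [0], [0, 1]), (1, [], [2, 3]), (1, [], [2, 3]), (4, [], [4]), (0, [0], [0, 1]), (1, [], [5, 6]), (1, [], [5, 6]), (4, [], [4])]),
  (1, 6, [(0, [0], [0, 1]), (1, [], [2, 3]), (1, [], [2, 3]), (4, [], [4]), (1, [], [0, 5]), (2, [0], [1, 4, 5])]),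
  (1, 7, [(0, [0], [0, 1]), (1, [], [2, 3]), (1, [], [4, 2]), (4, [], [3]), (0, [0], [0, 1]), (1, [], [5, 6]), (1, [], [4, 5]), (4, [], [6])]),
  (1, 6, [(0, [0], [0, 1]), (1, [], [2, 3]), (1, [], [4, 2]), (4, [], [3]), (1, [], [4, 5]), (2, [0], [0, 1, 5])]),
  (1, 5, [(1, [], [0, 1]), (2, [0], [2, 3, 1]), (1, [], [0, 4]), (2, [0], [2, 3, 4])]),
  (1, 5, [(1, [], [0, 1]), (2, [0], [2, 3, 1]), (1, [], [2, 4]), (2, [0], [0, 3, 4])])]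

def kl2 : List ℕ := [1, 2, 3, 4, 5, 6, 8, 9, 10, 12, 13, 14, 17, 18, 19, 20, 22, 25, 26, 27, 29, 31, 33, 34, 35, 36, 42, 44, 45, 46, 50, 51, 55, 56, 57, 58, 60, 61, 64, 65, 66, 68, 69, 70, 72, 73, 74, 75, 76, 77, 78, 79, 80, 83, 84, 85, 86, 87, 88, 89, 90, 91, 92, 93, 95, 96, 97, 98, 100, 104, 106, 107, 109, 110, 111, 112, 113, 114, 115, 116, 117, 118, 119, 120, 121, 122, 123, 124, 125, 126, 127, 128, 129, 130, 131, 132, 133, 134, 135, 136, 137, 138, 139, 140, 141, 142, 144, 145, 146, 147, 148, 149, 150, 153, 154, 155, 156, 157, 159, 160, 162, 163, 164, 165, 167, 168, 169, 170, 171, 172, 173, 174, 176, 177, 178, 179, 180, 181, 182, 184, 185, 189, 190, 192, 193, 194, 196, 197, 198, 200, 203, 204, 205, 206, 207, 208, 209, 210, 211, 212, 213, 214, 215, 216, 217, 218, 219, 220, 221, 222, 223, 224, 225, 226, 227, 228, 229, 230, 231, 232,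 233, 234, 235, 236, 237, 238, 239, 240, 241, 242, 243, 244, 245, 246, 247, 248, 249, 250, 252, 253, 254, 255, 256, 257, 258, 259, 260, 261, 262, 263, 264, 265, 266, 267, 268, 269, 270, 271, 272, 273, 274, 275, 276, 277, 278, 279, 280, 281, 282, 284, 285, 286, 287, 288, 289, 290, 291, 292, 293, 294, 295, 296, 297, 298, 299, 300, 301, 302, 303, 304, 305, 306, 307, 308, 309, 310, 311, 312, 313, 314, 315, 316, 317, 318, 319, 320, 321, 323, 324, 325, 326, 327, 328, 329, 330, 332, 333, 334, 335, 336, 337, 339, 340, 341, 342, 343, 344, 345, 346, 347, 348, 349, 350, 351, 352, 353, 354, 355, 356, 357, 358, 359, 360, 361, 362, 363, 364, 365, 366, 367, 368, 369, 370, 371, 372, 373, 374, 375, 376, 377, 378, 379, 380, 381, 382, 383, 384, 385, 386, 387, 388, 389, 390, 391, 392, 393, 394, 395, 396, 397, 398, 399, 400, 401, 402, 403, 404, 405, 406, 407,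 408, 409, 410, 411, 412, 413, 415, 416, 417, 418, 419, 420]

def m2_0 : Base := (1, 2, [(0, [1], [3, 4]), (0, [1], [3, 4]), (0, [0], [0, 1]), (4, [], [2])])

def l2_0 : Cov := [(6, 1, 2, [(0, [1], [3, 4]), (0, [1], [3, 4]), (0, [0], [0, 1]), (4, [], [2])]),
  (-6, 1, 2, [(0, [1], [3, 4]), (0, [1], [3, 4]), (0, [0], [1, 2]), (4, [], [0])])]

def z2_0 : Cov := [(0, 1, 2, [(0, [1], [3, 4]), (0, [1], [3, 4]), (0, [0], [0, 2]), (4, [], [1])])]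

def w2_0 : List (List Wit) := [[(0, 0, 0, 16, 16), (2, 0, 0, 16, 16), (0, 0, 0, 16, 16), (1, 0, 0, 16, 16), (2, 0, 0, 16, 16), (1, 0, 0, 16, 16)]]

def m2_1 : Base := (1, 2, [(0, [1], [3, 4]), (0, [1], [0, 3]), (0, [0], [1, 4]), (4, [], [2])])

def l2_1 : Cov := [(4, 1, 2, [(0, [1], [3, 4]), (0, [1], [0, 3]), (0, [0], [1, 4]), (4, [], [2])]),
  (2, 1, 2, [(0, [1], [3, 4]), (0, [1], [0, 3]), (0, [0], [2, 4]), (4, [], [1])]),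
  (2, 1, 2, [(0, [1], [3, 4]), (0, [1], [1, 3]), (0, [0], [0, 4]), (4, [], [2])]),
  (-2, 1, 2, [(0, [1], [3, 4]), (0, [1], [1, 3]), (0, [0], [2, 4]), (4, [], [0])]),
  (-2, 1, 2, [(0, [1], [3, 4]), (0, [1], [2, 3]), (0, [0], [0, 4]), (4, [], [1])]),
  (-4, 1, 2, [(0, [1], [3, 4]), (0, [1], [2, 3]), (0, [0], [1, 4]), (4, [], [0])])]

def z2_1 : Cov := []

def w2_1 : List (List Wit) := [[(0, 0, 0, 16, 16), (1, 0, 0, 16, 16), (2, 0, 0, 16, 16), (3, 0, 0, 16, 16), (4, 0, 0, 16, 16), (5, 0, 0, 16, 16)]]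

def m2_2 : Base := (1, 2, [(0, [1], [3, 4]), (0, [1], [0, 3]), (0, [0], [1, 2]), (4, [], [4])])

def l2_2 : Cov := [(6, 1, 2, [(0, [1], [3, 4]), (0, [1], [0, 3]), (0, [0], [1, 2]), (4, [], [4])]),
  (-6, 1, 2, [(0, [1], [3, 4]), (0, [1], [2, 3]), (0, [0], [0, 1]), (4, [], [4])])]

def z2_2 : Cov := [(0, 1, 2, [(0, [1], [3, 4]), (0, [1], [1, 3]), (0, [0], [0, 2]), (4, [], [4])])]

def w2_2 : List (List Wit) := [[(0, 0, 0, 16, 16), (0, 0, 0, 16, 16), (2, 0, 0, 16, 16), (2, 0, 0, 16, 16), (1, 0, 0, 16, 16), (1, 0, 0, 16, 16)]]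

def m2_3 : Base := (1, 2, [(0, [1], [3, 4]), (0, [1], [0, 3]), (0, [0], [2, 4]), (4, [], [1])])

def l2_3 : Cov := [(4, 1, 2, [(0, [1], [3, 4]), (0, [1], [0, 3]), (0, [0], [2, 4]), (4, [], [1])]),
  (2, 1, 2, [(0, [1], [3, 4]), (0, [1], [0, 3]), (0, [0], [1, 4]), (4, [], [2])]),
  (2, 1, 2, [(0, [1], [3, 4]), (0, [1], [1, 3]), (0, [0], [2, 4]), (4, [], [0])]),
  (-2, 1, 2, [(0, [1], [3, 4]), (0, [1], [1, 3]), (0, [0], [0, 4]), (4, [], [2])]),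
  (-2, 1, 2, [(0, [1], [3, 4]), (0, [1], [2, 3]), (0, [0], [1, 4]), (4, [], [0])]),
  (-4, 1, 2, [(0, [1], [3, 4]), (0, [1], [2, 3]), (0, [0], [0, 4]), (4, [], [1])])]

def z2_3 : Cov := []

def w2_3 : List (List Wit) := [[(0, 0, 0, 16, 16), (1, 0, 0, 16, 16), (2, 0, 0, 16, 16), (3, 0, 0, 16, 16), (4, 0, 0, 16, 16), (5, 0, 0, 16, 16)]]

def m2_4 : Base := (1, 2, [(0, [1], [3, 4]), (0, [1], [0, 1]), (0, [0], [3, 4]), (4, [], [2])])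

def l2_4 : Cov := [(6, 1, 2, [(0, [1], [3, 4]), (0, [1], [0, 1]), (0, [0], [3, 4]), (4, [], [2])]),
  (-6, 1, 2, [(0, [1], [3, 4]), (0, [1], [1, 2]), (0, [0], [3, 4]), (4, [], [0])])]

def z2_4 : Cov := [(0, 1, 2, [(0, [1], [3, 4]), (0, [1], [0, 2]), (0, [0], [3, 4]), (4, [], [1])])]

def w2_4 : List (List Wit) := [[(0, 0, 0, 16, 16), (2, 0, 0, 16, 16), (0, 0, 0, 16, 16), (1, 0, 0, 16, 16), (2, 0, 0, 16, 16), (1, 0, 0, 16, 16)]]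

def m2_5 : Base := (1, 2, [(0, [1], [3, 4]), (0, [1], [0, 1]), (0, [0], [2, 3]), (4, [], [4])])

def l2_5 : Cov := [(6, 1, 2, [(0, [1], [3, 4]), (0, [1], [0, 1]), (0, [0], [2, 3]), (4, [], [4])]),
  (-6, 1, 2, [(0, [1], [3, 4]), (0, [1], [1, 2]), (0, [0], [0, 3]), (4, [], [4])])]

def z2_5 : Cov := [(0, 1, 2, [(0, [1], [3, 4]), (0, [1], [0, 2]), (0, [0], [1, 3]), (4, [], [4])])]

def w2_5 : List (List Wit) := [[(0, 0, 0, 16, 16), (2, 0, 0, 16, 16), (0, 0, 0, 16, 16), (1, 0, 0, 16, 16), (2, 0, 0, 16, 16), (1, 0, 0, 16, 16)]]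

def m2_6 : Base := (1, 2, [(0, [1], [0, 3]), (0, [1], [1, 4]), (0, [0], [3, 4]), (4, [], [2])])

def l2_6 : Cov := [(6, 1, 2, [(0, [1], [0, 3]), (0, [1], [1, 4]), (0, [0], [3, 4]), (4, [], [2])]),
  (-6, 1, 2, [(0, [1], [1, 3]), (0, [1], [2, 4]), (0, [0], [3, 4]), (4, [], [0])])]

def z2_6 : Cov := [(0, 1, 2, [(0, [1], [0, 3]), (0, [1], [2, 4]), (0, [0], [3, 4]), (4, [], [1])])]

def w2_6 : List (List Wit) := [[(0, 0, 0, 16, 16), (2, 0, 0, 16, 16), (0, 0, 0, 1, 1), (1, 0, 0, 16, 16), (2, 0, 0, 1, 1), (1, 0, 0, 1, 1)]]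

def m2_7 : Base := (1, 2, [(0, [1], [0, 3]), (0, [1], [1, 4]), (0, [0], [2, 4]), (4, [], [3])])

def l2_7 : Cov := [(4, 1, 2, [(0, [1], [0, 3]), (0, [1], [1, 4]), (0, [0], [2, 4]), (4, [], [3])]),
  (2, 1, 2, [(0, [1], [0, 3]), (0, [1], [2, 4]), (0, [0], [1, 4]), (4, [], [3])]),
  (2, 1, 2, [(0, [1], [1, 3]), (0, [1], [0, 4]), (0, [0], [2, 4]), (4, [], [3])]),
  (-2, 1, 2, [(0, [1], [1, 3]), (0, [1], [2, 4]), (0, [0], [0, 4]), (4, [], [3])]),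
  (-2, 1, 2, [(0, [1], [2, 3]), (0, [1], [0, 4]), (0, [0], [1, 4]), (4, [], [3])]),
  (-4, 1, 2, [(0, [1], [2, 3]), (0, [1], [1, 4]), (0, [0], [0, 4]), (4, [], [3])])]

def z2_7 : Cov := []

def w2_7 : List (List Wit) := [[(0, 0, 0, 16, 16), (1, 0, 0, 16, 16), (2, 0, 0, 16, 16), (3, 0, 0, 16, 16), (4, 0, 0, 16, 16), (5, 0, 0, 16, 16)]]

def m2_8 : Base := (1, 2, [(0, [1], [0, 3]), (0, [1], [1, 4]), (0, [0], [2, 3]), (4, [], [4])])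

def l2_8 : Cov := [(4, 1, 2, [(0, [1], [0, 3]), (0, [1], [1, 4]), (0, [0], [2, 3]), (4, [], [4])]),
  (2, 1, 2, [(0, [1], [0, 3]), (0, [1], [2, 4]), (0, [0], [1, 3]), (4, [], [4])]),
  (2, 1, 2, [(0, [1], [1, 3]), (0, [1], [0, 4]), (0, [0], [2, 3]), (4, [], [4])]),
  (-2, 1, 2, [(0, [1], [1, 3]), (0, [1], [2, 4]), (0, [0], [0, 3]), (4, [], [4])]),
  (-2, 1, 2, [(0, [1], [2, 3]), (0, [1], [0, 4]), (0, [0], [1, 3]), (4, [], [4])]),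
  (-4, 1, 2, [(0, [1], [2, 3]), (0, [1], [1, 4]), (0, [0], [0, 3]), (4, [], [4])])]

def z2_8 : Cov := []

def w2_8 : List (List Wit) := [[(0, 0, 0, 16, 16), (1, 0, 0, 16, 16), (2, 0, 0, 16, 16), (3, 0, 0, 16, 16), (4, 0, 0, 16, 16), (5, 0, 0, 16, 16)]]

def m2_9 : Base := (1, 2, [(0, [1], [0, 3]), (0, [1], [1, 3]), (0, [0], [2, 4]), (4, [], [4])])

def l2_9 : Cov := [(6, 1, 2, [(0, [1], [0, 3]), (0, [1], [1, 3]), (0, [0], [2, 4]), (4, [], [4])]),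
  (-6, 1, 2, [(0, [1], [1, 3]), (0, [1], [2, 3]), (0, [0], [0, 4]), (4, [], [4])])]

def z2_9 : Cov := [(0, 1, 2, [(0, [1], [0, 3]), (0, [1], [2, 3]), (0, [0], [1, 4]), (4, [], [4])])]

def w2_9 : List (List Wit) := [[(0, 0, 0, 16, 16), (2, 0, 0, 16, 16), (0, 0, 0, 16, 16), (1, 0, 0, 16, 16), (2, 0, 0, 16, 16), (1, 0, 0, 16, 16)]]

def m2_10 : Base := (1, 2, [(0, [1], [0, 3]), (0, [1], [1, 2]), (0, [0], [3, 4]), (4, [], [4])])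

def l2_10 : Cov := [(6, 1, 2, [(0, [1], [0, 3]), (0, [1], [1, 2]), (0, [0], [3, 4]), (4, [], [4])]),
  (-6, 1, 2, [(0, [1], [2, 3]), (0, [1], [0, 1]), (0, [0], [3, 4]), (4, [], [4])])]

def z2_10 : Cov := [(0, 1, 2, [(0, [1], [1, 3]), (0, [1], [0, 2]), (0, [0], [3, 4]), (4, [], [4])])]

def w2_10 : List (List Wit) := [[(0, 0, 0, 16, 16), (0, 0, 0, 16, 16), (2, 0, 0, 16, 16), (2, 0, 0, 16, 16), (1, 0, 0, 16, 16), (1, 0, 0, 16, 16)]]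

def m2_11 : Base := (0, 2, [(0, [0], [3, 4]), (1, [], [3, 4]), (1, [], [0, 1]), (4, [], [2])])

def l2_11 : Cov := [(6, 0, 2, [(0, [0], [3, 4]), (1, [], [3, 4]), (1, [], [0, 1]), (4, [], [2])]),
  (-6, 0, 2, [(0, [0], [3, 4]), (1, [], [3, 4]), (1, [], [1, 2]), (4, [], [0])])]

def z2_11 : Cov := [(0, 0, 2, [(0, [0], [3, 4]), (1, [], [3, 4]), (1, [], [0, 2]), (4, [], [1])])]

def w2_11 : List (List Wit) := [[(0, 0, 0, 16, 16), (2, 0, 0, 16, 16), (0, 0, 0, 16, 16), (1, 0, 0, 16, 16), (2, 0, 0, 16, 16), (1, 0, 0, 16, 16)]]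

def m2_12 : Base := (0, 2, [(0, [0], [3, 4]), (1, [], [0, 3]), (1, [], [1, 4]), (4, [], [2])])

def l2_12 : Cov := [(6, 0, 2, [(0, [0], [3, 4]), (1, [], [0, 3]), (1, [], [1, 4]), (4, [], [2])]),
  (-6, 0, 2, [(0, [0], [3, 4]), (1, [], [1, 3]), (1, [], [2, 4]), (4, [], [0])])]

def z2_12 : Cov := [(0, 0, 2, [(0, [0], [3, 4]), (1, [], [0, 3]), (1, [], [2, 4]), (4, [], [1])])]

def w2_12 : List (List Wit) := [[(0, 0, 0, 16, 16), (2, 0, 0, 16, 16), (0, 0, 0, 1, 1), (1, 0, 0, 16, 16), (2, 0, 0, 1, 1), (1, 0, 0, 1, 1)]]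

def m2_13 : Base := (0, 2, [(0, [0], [3, 4]), (1, [], [0, 3]), (1, [], [1, 2]), (4, [], [4])])

def l2_13 : Cov := [(6, 0, 2, [(0, [0], [3, 4]), (1, [], [0, 3]), (1, [], [1, 2]), (4, [], [4])]),
  (-6, 0, 2, [(0, [0], [3, 4]), (1, [], [2, 3]), (1, [], [0, 1]), (4, [], [4])])]

def z2_13 : Cov := [(0, 0, 2, [(0, [0], [3, 4]), (1, [], [1, 3]), (1, [], [0, 2]), (4, [], [4])])]

def w2_13 : List (List Wit) := [[(0, 0, 0, 16, 16), (0, 0, 0, 16, 16), (2, 0, 0, 16, 16), (2, 0, 0, 16, 16), (1, 0, 0, 16, 16), (1, 0, 0, 16, 16)]]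

def m2_14 : Base := (0, 2, [(0, [0], [0, 3]), (1, [], [3, 4]), (1, [], [1, 4]), (4, [], [2])])

def l2_14 : Cov := [(4, 0, 2, [(0, [0], [0, 3]), (1, [], [3, 4]), (1, [], [1, 4]), (4, [], [2])]),
  (2, 0, 2, [(0, [0], [0, 3]), (1, [], [3, 4]), (1, [], [2, 4]), (4, [], [1])]),
  (2, 0, 2, [(0, [0], [1, 3]), (1, [], [3, 4]), (1, [], [0, 4]), (4, [], [2])]),
  (-2, 0, 2, [(0, [0], [1, 3]), (1, [], [3, 4]), (1, [], [2, 4]), (4, [], [0])]),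
  (-2, 0, 2, [(0, [0], [2, 3]), (1, [], [3, 4]), (1, [], [0, 4]), (4, [], [1])]),
  (-4, 0, 2, [(0, [0], [2, 3]), (1, [], [3, 4]), (1, [], [1, 4]), (4, [], [0])])]

def z2_14 : Cov := []

def w2_14 : List (List Wit) := [[(0, 0, 0, 16, 16), (1, 0, 0, 16, 16), (2, 0, 0, 16, 16), (3, 0, 0, 16, 16), (4, 0, 0, 16, 16), (5, 0, 0, 16, 16)]]

def m2_15 : Base := (0, 2, [(0, [0], [0, 3]), (1, [], [3, 4]), (1, [], [1, 2]), (4, [], [4])])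

def l2_15 : Cov := [(6, 0, 2, [(0, [0], [0, 3]), (1, [], [3, 4]), (1, [], [1, 2]), (4, [], [4])]),
  (-6, 0, 2, [(0, [0], [2, 3]), (1, [], [3, 4]), (1, [], [0, 1]), (4, [], [4])])]

def z2_15 : Cov := [(0, 0, 2, [(0, [0], [1, 3]), (1, [], [3, 4]), (1, [], [0, 2]), (4, [], [4])])]

def w2_15 : List (List Wit) := [[(0, 0, 0, 16, 16), (0, 0, 0, 16, 16), (2, 0, 0, 16, 16), (2, 0, 0, 16, 16), (1, 0, 0, 16, 16), (1, 0, 0, 16, 16)]]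

def m2_16 : Base := (0, 2, [(0, [0], [0, 3]), (1, [], [3, 4]), (1, [], [2, 4]), (4, [], [1])])

def l2_16 : Cov := [(4, 0, 2, [(0, [0], [0, 3]), (1, [], [3, 4]), (1, [], [2, 4]), (4, [], [1])]),
  (2, 0, 2, [(0, [0], [0, 3]), (1, [], [3, 4]), (1, [], [1, 4]), (4, [], [2])]),
  (2, 0, 2, [(0, [0], [1, 3]), (1, [], [3, 4]), (1, [], [2, 4]), (4, [], [0])]),
  (-2, 0, 2, [(0, [0], [1, 3]), (1, [], [3, 4]), (1, [], [0, 4]), (4, [], [2])]),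
  (-2, 0, 2, [(0, [0], [2, 3]), (1, [], [3, 4]), (1, [], [1, 4]), (4, [], [0])]),
  (-4, 0, 2, [(0, [0], [2, 3]), (1, [], [3, 4]), (1, [], [0, 4]), (4, [], [1])])]

def z2_16 : Cov := []

def w2_16 : List (List Wit) := [[(0, 0, 0, 16, 16), (1, 0, 0, 16, 16), (2, 0, 0, 16, 16), (3, 0, 0, 16, 16), (4, 0, 0, 16, 16), (5, 0, 0, 16, 16)]]

def m2_17 : Base := (0, 2, [(0, [0], [0, 3]), (1, [], [1, 4]), (1, [], [2, 4]), (4, [], [3])])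

def l2_17 : Cov := [(6, 0, 2, [(0, [0], [0, 3]), (1, [], [1, 4]), (1, [], [2, 4]), (4, [], [3])]),
  (-6, 0, 2, [(0, [0], [2, 3]), (1, [], [0, 4]), (1, [], [1, 4]), (4, [], [3])])]

def z2_17 : Cov := [(0, 0, 2, [(0, [0], [1, 3]), (1, [], [0, 4]), (1, [], [2, 4]), (4, [], [3])])]

def w2_17 : List (List Wit) := [[(0, 0, 0, 16, 16), (0, 0, 0, 16, 16), (2, 0, 0, 16, 16), (2, 0, 0, 16, 16), (1, 0, 0, 16, 16), (1, 0, 0, 16, 16)]]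

def m2_18 : Base := (0, 2, [(0, [0], [0, 3]), (1, [], [1, 4]), (1, [], [2, 3]), (4, [], [4])])

def l2_18 : Cov := [(4, 0, 2, [(0, [0], [0, 3]), (1, [], [1, 4]), (1, [], [2, 3]), (4, [], [4])]),
  (2, 0, 2, [(0, [0], [0, 3]), (1, [], [2, 4]), (1, [], [1, 3]), (4, [], [4])]),
  (2, 0, 2, [(0, [0], [1, 3]), (1, [], [0, 4]), (1, [], [2, 3]), (4, [], [4])]),
  (-2, 0, 2, [(0, [0], [1, 3]), (1, [], [2, 4]), (1, [], [0, 3]), (4, [], [4])]),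
  (-2, 0, 2, [(0, [0], [2, 3]), (1, [], [0, 4]), (1, [], [1, 3]), (4, [], [4])]),
  (-4, 0, 2, [(0, [0], [2, 3]), (1, [], [1, 4]), (1, [], [0, 3]), (4, [], [4])])]

def z2_18 : Cov := []

def w2_18 : List (List Wit) := [[(0, 0, 0, 16, 16), (1, 0, 0, 16, 16), (2, 0, 0, 16, 16), (3, 0, 0, 16, 16), (4, 0, 0, 16, 16), (5, 0, 0, 16, 16)]]

def m2_19 : Base := (0, 2, [(0, [0], [0, 3]), (1, [], [1, 3]), (1, [], [2, 4]), (4, [], [4])])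

def l2_19 : Cov := [(4, 0, 2, [(0, [0], [0, 3]), (1, [], [1, 3]), (1, [], [2, 4]), (4, [], [4])]),
  (2, 0, 2, [(0, [0], [0, 3]), (1, [], [2, 3]), (1, [], [1, 4]), (4, [], [4])]),
  (2, 0, 2, [(0, [0], [1, 3]), (1, [], [0, 3]), (1, [], [2, 4]), (4, [], [4])]),
  (-2, 0, 2, [(0, [0], [1, 3]), (1, [], [2, 3]), (1, [], [0, 4]), (4, [], [4])]),
  (-2, 0, 2, [(0, [0], [2, 3]), (1, [], [0, 3]), (1, [], [1, 4]), (4, [], [4])]),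
  (-4, 0, 2, [(0, [0], [2, 3]), (1, [], [1, 3]), (1, [], [0, 4]), (4, [], [4])])]

def z2_19 : Cov := []

def w2_19 : List (List Wit) := [[(0, 0, 0, 16, 16), (1, 0, 0, 16, 16), (2, 0, 0, 16, 16), (3, 0, 0, 16, 16), (4, 0, 0, 16, 16), (5, 0, 0, 16, 16)]]

def m2_20 : Base := (0, 1, [(0, [0], [0, 3]), (1, [], [1, 3]), (4, [], [2])])

def l2_20 : Cov := [(4, 0, 1, [(0, [0], [0, 3]), (1, [], [1, 3]), (4, [], [2])]),
  (2, 0, 1, [(0, [0], [0, 3]), (1, [], [2, 3]), (4, [], [1])]),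
  (2, 0, 1, [(0, [0], [1, 3]), (1, [], [0, 3]), (4, [], [2])]),
  (-2, 0, 1, [(0, [0], [1, 3]), (1, [], [2, 3]), (4, [], [0])]),
  (-2, 0, 1, [(0, [0], [2, 3]), (1, [], [0, 3]), (4, [], [1])]),
  (-4, 0, 1, [(0, [0], [2, 3]), (1, [], [1, 3]), (4, [], [0])])]

def z2_20 : Cov := []

def w2_20 : List (List Wit) := [[(0, 0, 0, 0, 0), (1, 0, 0, 0, 0), (2, 0, 0, 0, 0), (3, 0, 0, 0, 0), (4, 0, 0, 0, 0), (5, 0, 0, 0, 0)]]

def m2_21 : Base := (0, 1, [(0, [0], [0, 3]), (1, [], [1, 2]), (4, [], [3])])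

def l2_21 : Cov := [(6, 0, 1, [(0, [0], [0, 3]), (1, [], [1, 2]), (4, [], [3])]),
  (-6, 0, 1, [(0, [0], [2, 3]), (1, [], [0, 1]), (4, [], [3])])]

def z2_21 : Cov := [(0, 0, 1, [(0, [0], [1, 3]), (1, [], [0, 2]), (4, [], [3])])]

def w2_21 : List (List Wit) := [[(0, 0, 0, 0, 0), (0, 0, 0, 0, 0), (2, 0, 0, 0, 0), (2, 0, 0, 0, 0), (1, 0, 0, 0, 0), (1, 0, 0, 0, 0)]]

def m2_22 : Base := (0, 1, [(0, [0], [0, 3]), (1, [], [2, 3]), (4, [], [1])])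

def l2_22 : Cov := [(4, 0, 1, [(0, [0], [0, 3]), (1, [], [2, 3]), (4, [], [1])]),
  (2, 0, 1, [(0, [0], [0, 3]), (1, [], [1, 3]), (4, [], [2])]),
  (2, 0, 1, [(0, [0], [1, 3]), (1, [], [2, 3]), (4, [], [0])]),
  (-2, 0, 1, [(0, [0], [1, 3]), (1, [], [0, 3]), (4, [], [2])]),
  (-2, 0, 1, [(0, [0], [2, 3]), (1, [], [1, 3]), (4, [], [0])]),
  (-4, 0, 1, [(0, [0], [2, 3]), (1, [], [0, 3]), (4, [], [1])])]

def z2_22 : Cov := []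

def w2_22 : List (List Wit) := [[(0, 0, 0, 0, 0), (1, 0, 0, 0, 0), (2, 0, 0, 0, 0), (3, 0, 0, 0, 0), (4, 0, 0, 0, 0), (5, 0, 0, 0, 0)]]

def m2_23 : Base := (0, 1, [(0, [0], [0, 3]), (3, [], [1, 2, 3])])

def l2_23 : Cov := [(6, 0, 1, [(0, [0], [0, 3]), (3, [], [1, 2, 3])]),
  (-6, 0, 1, [(0, [0], [2, 3]), (3, [], [0, 1, 3])])]

def z2_23 : Cov := [(0, 0, 1, [(0, [0], [1, 3]), (3, [], [0, 2, 3])])]

def w2_23 : List (List Wit) := [[(0, 0, 0, 0, 0), (0, 0, 0, 0, 0), (2, 0, 0, 0, 0), (2, 0, 0, 0, 0), (1, 0, 0, 0, 0), (1, 0, 0, 0, 0)]]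

def m2_24 : Base := (0, 2, [(0, [0], [0, 1]), (1, [], [3, 4]), (1, [], [3, 4]), (4, [], [2])])

def l2_24 : Cov := [(6, 0, 2, [(0, [0], [0, 1]), (1, [], [3, 4]), (1, [], [3, 4]), (4, [], [2])]),
  (-6, 0, 2, [(0, [0], [1, 2]), (1, [], [3, 4]), (1, [], [3, 4]), (4, [], [0])])]

def z2_24 : Cov := [(0, 0, 2, [(0, [0], [0, 2]), (1, [], [3, 4]), (1, [], [3, 4]), (4, [], [1])])]

def w2_24 : List (List Wit) := [[(0, 0, 0, 16, 16), (2, 0, 0, 16, 16), (0, 0, 0, 16, 16), (1, 0, 0, 16, 16), (2, 0, 0, 16, 16), (1, 0, 0, 16, 16)]]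

def m2_25 : Base := (0, 2, [(0, [0], [0, 1]), (1, [], [3, 4]), (1, [], [2, 3]), (4, [], [4])])

def l2_25 : Cov := [(6, 0, 2, [(0, [0], [0, 1]), (1, [], [3, 4]), (1, [], [2, 3]), (4, [], [4])]),
  (-6, 0, 2, [(0, [0], [1, 2]), (1, [], [3, 4]), (1, [], [0, 3]), (4, [], [4])])]

def z2_25 : Cov := [(0, 0, 2, [(0, [0], [0, 2]), (1, [], [3, 4]), (1, [], [1, 3]), (4, [], [4])])]

def w2_25 : List (List Wit) := [[(0, 0, 0, 16, 16), (2, 0, 0, 16, 16), (0, 0, 0, 16, 16), (1, 0, 0, 16, 16), (2, 0, 0, 16, 16), (1, 0, 0, 16, 16)]]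

def m2_26 : Base := (0, 1, [(0, [0], [0, 1]), (1, [], [2, 3]), (4, [], [3])])

def l2_26 : Cov := [(6, 0, 1, [(0, [0], [0, 1]), (1, [], [2, 3]), (4, [], [3])]),
  (-6, 0, 1, [(0, [0], [1, 2]), (1, [], [0, 3]), (4, [], [3])])]

def z2_26 : Cov := [(0, 0, 1, [(0, [0], [0, 2]), (1, [], [1, 3]), (4, [], [3])])]

def w2_26 : List (List Wit) := [[(0, 0, 0, 0, 0), (2, 0, 0, 0, 0), (0, 0, 0, 0, 0), (1, 0, 0, 0, 0), (2, 0, 0, 0, 0), (1, 0, 0, 0, 0)]]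

def m2_27 : Base := (0, 0, [(0, [0], [0, 1]), (4, [], [2])])

def l2_27 : Cov := [(6, 0, 0, [(0, [0], [0, 1]), (4, [], [2])]),
  (-6, 0, 0, [(0, [0], [1, 2]), (4, [], [0])])]

def z2_27 : Cov := [(0, 0, 0, [(0, [0], [0, 2]), (4, [], [1])])]

def w2_27 : List (List Wit) := [[(0, 0, 0, 0, 0), (2, 0, 0, 0, 0), (0, 0, 0, 0, 0), (1, 0, 0, 0, 0), (2, 0, 0, 0, 0), (1, 0, 0, 0, 0)]]

def m2_28 : Base := (0, 1, [(1, [], [0, 3]), (2, [0], [1, 2, 3])])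

def l2_28 : Cov := [(6, 0, 1, [(1, [], [0, 3]), (2, [0], [1, 2, 3])]),
  (-6, 0, 1, [(1, [], [2, 3]), (2, [0], [0, 1, 3])])]

def z2_28 : Cov := [(0, 0, 1, [(1, [], [1, 3]), (2, [0], [0, 2, 3])])]

def w2_28 : List (List Wit) := [[(0, 0, 0, 0, 0), (0, 0, 0, 0, 0), (2, 0, 0, 0, 0), (2, 0, 0, 0, 0), (1, 0, 0, 0, 0), (1, 0, 0, 0, 0)]]

theorem tr2 : trK keys lk2 kl2 = true := by
  decide +kernel

theorem x2_0 : expB 1 3 dg0 dg2 m2_0 (l2_0 ++ z2_0) w2_0 = true := by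
  decide +kernel

theorem x2_1 : expB 1 3 dg0 dg2 m2_1 (l2_1 ++ z2_1) w2_1 = true := by
  decide +kernel

theorem x2_2 : expB 1 3 dg0 dg2 m2_2 (l2_2 ++ z2_2) w2_2 = true := by
  decide +kernel

theorem x2_3 : expB 1 3 dg0 dg2 m2_3 (l2_3 ++ z2_3) w2_3 = true := by
  decide +kernel

theorem x2_4 : expB 1 3 dg0 dg2 m2_4 (l2_4 ++ z2_4) w2_4 = true := by
  decide +kernel

theorem x2_5 : expB 1 3 dg0 dg2 m2_5 (l2_5 ++ z2_5) w2_5 = true := by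
  decide +kernel

theorem x2_6 : expB 1 3 dg0 dg2 m2_6 (l2_6 ++ z2_6) w2_6 = true := by
  decide +kernel

theorem x2_7 : expB 1 3 dg0 dg2 m2_7 (l2_7 ++ z2_7) w2_7 = true := by
  decide +kernel

theorem x2_8 : expB 1 3 dg0 dg2 m2_8 (l2_8 ++ z2_8) w2_8 = true := by
  decide +kernel

theorem x2_9 : expB 1 3 dg0 dg2 m2_9 (l2_9 ++ z2_9) w2_9 = true := by
  decide +kernel

theorem x2_10 : expB 1 3 dg0 dg2 m2_10 (l2_10 ++ z2_10) w2_10 = true := by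
  decide +kernel

theorem x2_11 : expB 1 3 dg0 dg2 m2_11 (l2_11 ++ z2_11) w2_11 = true := by
  decide +kernel

theorem x2_12 : expB 1 3 dg0 dg2 m2_12 (l2_12 ++ z2_12) w2_12 = true := by
  decide +kernel

theorem x2_13 : expB 1 3 dg0 dg2 m2_13 (l2_13 ++ z2_13) w2_13 = true := by
  decide +kernel

theorem x2_14 : expB 1 3 dg0 dg2 m2_14 (l2_14 ++ z2_14) w2_14 = true := by
  decide +kernel

theorem x2_15 : expB 1 3 dg0 dg2 m2_15 (l2_15 ++ z2_15) w2_15 = true := by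
  decide +kernel

theorem x2_16 : expB 1 3 dg0 dg2 m2_16 (l2_16 ++ z2_16) w2_16 = true := by
  decide +kernel

theorem x2_17 : expB 1 3 dg0 dg2 m2_17 (l2_17 ++ z2_17) w2_17 = true := by
  decide +kernel

theorem x2_18 : expB 1 3 dg0 dg2 m2_18 (l2_18 ++ z2_18) w2_18 = true := by
  decide +kernel

theorem x2_19 : expB 1 3 dg0 dg2 m2_19 (l2_19 ++ z2_19) w2_19 = true := by
  decide +kernel

theorem x2_20 : expB 1 3 dg0 dg2 m2_20 (l2_20 ++ z2_20) w2_20 = true := by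
  decide +kernel

theorem x2_21 : expB 1 3 dg0 dg2 m2_21 (l2_21 ++ z2_21) w2_21 = true := by
  decide +kernel

theorem x2_22 : expB 1 3 dg0 dg2 m2_22 (l2_22 ++ z2_22) w2_22 = true := by
  decide +kernel

theorem x2_23 : expB 1 3 dg0 dg2 m2_23 (l2_23 ++ z2_23) w2_23 = true := by
  decide +kernel

theorem x2_24 : expB 1 3 dg0 dg2 m2_24 (l2_24 ++ z2_24) w2_24 = true := by
  decide +kernel

theorem x2_25 : expB 1 3 dg0 dg2 m2_25 (l2_25 ++ z2_25) w2_25 = true := by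
  decide +kernel

theorem x2_26 : expB 1 3 dg0 dg2 m2_26 (l2_26 ++ z2_26) w2_26 = true := by
  decide +kernel

theorem x2_27 : expB 1 3 dg0 dg2 m2_27 (l2_27 ++ z2_27) w2_27 = true := by
  decide +kernel

theorem x2_28 : expB 1 3 dg0 dg2 m2_28 (l2_28 ++ z2_28) w2_28 = true := by
  decide +kernel

theorem t2_0_0 : chkS lk2 1 3 [(1, m2_0)] l2_0
  [(150, 513, 513, 105972786, 106041411), (10, 258, 33, 52495941, 33645891)]
  [(10, -6), (150, 6)] = true := by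
  decide +kernel

theorem t2_0_1 : chkS lk2 1 3 [(1, m2_0)] l2_1
  [(151, 513, 513, 105972786, 106041411), (83, 513, 513, 88147506, 40177731), (151, 513, 513, 105972771, 106037571), (83, 513, 513, 88147491, 40173891), (73, 288, 288, 37045776, 37967376), (73, 288, 288, 37045761, 37967361)]
  [(73, -6), (151, 6)] = true := by
  decide +kernel

theorem t2_0_2 : chkS lk2 1 3 [(1, m2_0)] l2_2
  [(73, 33, 258, 17122866, 37949541), (10, 513, 513, 88147506, 40177731)]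
  [(10, -6), (73, 6)] = true := by
  decide +kernel

theorem t2_0_3 : chkS lk2 1 3 [(1, m2_0)] l2_3
  [(83, 513, 513, 88147506, 40177731), (151, 513, 513, 105972786, 106041411), (83, 513, 513, 88147491, 40173891), (151, 513, 513, 105972771, 106037571), (73, 288, 288, 37045761, 37967361), (73, 288, 288, 37045776, 37967376)]
  [(73, -6), (83, 6), (151, 0)] = true := by
  decide +kernel

theorem t2_0_4 : chkS lk2 1 3 [(1, m2_0)] l2_4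
  [(152, 513, 513, 105972786, 106041411), (11, 513, 513, 105972771, 106037571)]
  [(11, -6), (152, 6)] = true := by
  decide +kernel

theorem t2_0_5 : chkS lk2 1 3 [(1, m2_0)] l2_5
  [(11, 258, 33, 52495461, 16934211), (83, 258, 33, 52495956, 34628931)]
  [(11, 6), (83, -6)] = true := by
  decide +kernel

theorem t2_0_6 : chkS lk2 1 3 [(1, m2_0)] l2_6
  [(153, 513, 513, 105972786, 106041411), (82, 513, 513, 73467171, 86376771)]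
  [(82, -6), (153, 6)] = true := by
  decide +kernel

theorem t2_0_7 : chkS lk2 1 3 [(1, m2_0)] l2_7
  [(82, 258, 33, 70321506, 19288131), (83, 258, 33, 87098946, 39931971), (82, 258, 33, 70321446, 2511171), (83, 258, 33, 87098916, 39866691), (65, 288, 288, 37045761, 37967361), (65, 288, 288, 37045776, 37967376)]
  [(65, -6), (82, 6), (83, 0)] = true := by
  decide +kernel

theorem t2_0_8 : chkS lk2 1 3 [(1, m2_0)] l2_8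
  [(82, 258, 33, 54592806, 2449731), (65, 288, 288, 52774401, 37971201), (82, 258, 33, 54592866, 19226691), (65, 288, 288, 52774416, 37971216), (83, 258, 33, 102826821, 100738371), (83, 258, 33, 102826836, 101721411)]
  [(82, 6), (83, -6)] = true := by
  decide +kernel

theorem t2_0_9 : chkS lk2 1 3 [(1, m2_0)] l2_9
  [(65, 33, 258, 50677281, 37970181), (73, 33, 258, 101007651, 105054501)]
  [(65, 6), (73, -6)] = true := by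
  decide +kernel

theorem t2_0_10 : chkS lk2 1 3 [(1, m2_0)] l2_10
  [(82, 258, 33, 88146726, 6627651), (11, 258, 33, 69272421, 17179971)]
  [(11, -6), (82, 6)] = true := by
  decide +kernel

theorem t2_0_11 : chkS lk2 1 3 [(1, m2_0)] l2_11
  [(154, 1, 1, 105972786, 106041411), (16, 1, 1, 88147491, 40173891)]
  [(16, -6), (154, 6)] = true := by
  decide +kernel

theorem t2_0_12 : chkS lk2 1 3 [(1, m2_0)] l2_12
  [(155, 1, 1, 105972786, 106041411), (86, 1, 1, 72418851, 39190851)]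
  [(86, -6), (155, 6)] = true := by
  decide +kernel

theorem t2_0_13 : chkS lk2 1 3 [(1, m2_0)] l2_13
  [(86, 1, 1, 52495941, 33645891), (16, 1, 1, 52495956, 34628931)]
  [(16, -6), (86, 6)] = true := by
  decide +kernel

theorem t2_0_14 : chkS lk2 1 3 [(1, m2_0)] l2_14
  [(156, 1, 1, 105972786, 106041411), (87, 1, 1, 88147506, 40177731), (156, 1, 1, 105972771, 106037571), (87, 1, 1, 88147491, 40173891), (85, 1, 1, 104924466, 103092291), (85, 1, 1, 104924451, 103088451)]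
  [(85, -6), (156, 6)] = true := by
  decide +kernel

theorem t2_0_15 : chkS lk2 1 3 [(1, m2_0)] l2_15
  [(157, 1, 1, 105972786, 106041411), (16, 1, 1, 102826836, 101721411)]
  [(16, -6), (157, 6)] = true := by
  decide +kernel

theorem t2_0_16 : chkS lk2 1 3 [(1, m2_0)] l2_16
  [(87, 1, 1, 88147506, 40177731), (156, 1, 1, 105972786, 106041411), (87, 1, 1, 88147491, 40173891), (156, 1, 1, 105972771, 106037571), (85, 1, 1, 104924451, 103088451), (85, 1, 1, 104924466, 103092291)]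
  [(85, -6), (87, 6), (156, 0)] = true := by
  decide +kernel

theorem t2_0_17 : chkS lk2 1 3 [(1, m2_0)] l2_17
  [(87, 1, 1, 87098946, 39931971), (84, 1, 1, 103875156, 101732931)]
  [(84, -6), (87, 6)] = true := by
  decide +kernel

theorem t2_0_18 : chkS lk2 1 3 [(1, m2_0)] l2_18
  [(157, 1, 1, 72418866, 39194691), (158, 1, 1, 105972786, 106041411), (157, 1, 1, 72418851, 39190851), (158, 1, 1, 105972771, 106037571), (86, 1, 1, 102826836, 101721411), (86, 1, 1, 102826821, 100738371)]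
  [(86, -6), (157, 6), (158, 0)] = true := by
  decide +kernel

theorem t2_0_19 : chkS lk2 1 3 [(1, m2_0)] l2_19
  [(158, 1, 1, 105972786, 106041411), (157, 1, 1, 72418866, 39194691), (158, 1, 1, 105972771, 106037571), (157, 1, 1, 72418851, 39190851), (86, 1, 1, 102826821, 100738371), (86, 1, 1, 102826836, 101721411)]
  [(86, -6), (158, 6)] = true := by
  decide +kernel

theorem t2_0_20 : chkS lk2 1 3 [(1, m2_0)] l2_20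
  [(159, 1, 1, 5309490, 5378115), (38, 1, 1, 3212610, 2183235), (159, 1, 1, 5309475, 5374275), (38, 1, 1, 3212580, 2117955), (50, 1, 1, 4261170, 2428995), (50, 1, 1, 4261155, 2425155)]
  [(50, -6), (159, 6)] = true := by
  decide +kernel

theorem t2_0_21 : chkS lk2 1 3 [(1, m2_0)] l2_21
  [(38, 1, 1, 4261170, 2428995), (48, 1, 1, 3211860, 1069635)]
  [(38, 6), (48, -6)] = true := by
  decide +kernel

theorem t2_0_22 : chkS lk2 1 3 [(1, m2_0)] l2_22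
  [(38, 1, 1, 3212610, 2183235), (159, 1, 1, 5309490, 5378115), (38, 1, 1, 3212580, 2117955), (159, 1, 1, 5309475, 5374275), (50, 1, 1, 4261155, 2425155), (50, 1, 1, 4261170, 2428995)]
  [(38, 6), (50, -6), (159, 0)] = true := by
  decide +kernel

theorem t2_0_23 : chkS lk2 1 3 [(1, m2_0)] l2_23
  [(160, 1, 1, 5309490, 5378115), (20, 1, 1, 2163540, 1058115)]
  [(20, -6), (160, 6)] = true := by
  decide +kernel

theorem t2_0_24 : chkS lk2 1 3 [(1, m2_0)] l2_24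
  [(161, 1, 1, 105972786, 106041411), (9, 1, 1, 105972771, 106037571)]
  [(9, -6), (161, 6)] = true := by
  decide +kernel

theorem t2_0_25 : chkS lk2 1 3 [(1, m2_0)] l2_25
  [(7, 1, 1, 88147506, 40177731), (87, 1, 1, 105972516, 105914691)]
  [(7, 6), (87, -6)] = true := by
  decide +kernel

theorem t2_0_26 : chkS lk2 1 3 [(1, m2_0)] l2_26
  [(39, 1, 1, 5309490, 5378115), (38, 1, 1, 5309475, 5374275)]
  [(38, -6), (39, 6)] = true := by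
  decide +kernel

theorem t2_0_27 : chkS lk2 1 3 [(1, m2_0)] l2_27
  [(61, 1, 1, 66610, 135235), (4, 1, 1, 66595, 131395)]
  [(4, -6), (61, 6)] = true := by
  decide +kernel

theorem t2_0_28 : chkS lk2 1 3 [(1, m2_0)] l2_28
  [(162, 1, 1, 5309490, 5378115), (6, 1, 1, 4261170, 2428995)]
  [(6, -6), (162, 6)] = true := by
  decide +kernel

theorem t2_1_1 : chkS lk2 1 3 [(1, m2_1)] l2_1
  [(163, 513, 513, 105972786, 106041411), (106, 513, 513, 88147506, 40177731), (164, 513, 513, 105972786, 106041411), (75, 513, 513, 88213041, 40178691), (75, 33, 258, 33898851, 21169701), (72, 513, 513, 104990001, 103093251)]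
  [(72, -4), (75, -4), (106, 2), (163, 4), (164, 2)] = true := by
  decide +kernel

theorem t2_1_2 : chkS lk2 1 3 [(1, m2_1)] l2_2
  [(72, 18, 18, 17184066, 69283941), (165, 513, 513, 105972786, 106041411)]
  [(72, 6), (165, -6)] = true := by
  decide +kernel

theorem t2_1_3 : chkS lk2 1 3 [(1, m2_1)] l2_3
  [(106, 513, 513, 88147506, 40177731), (163, 513, 513, 105972786, 106041411), (75, 513, 513, 88213041, 40178691), (164, 513, 513, 105972786, 106041411), (72, 513, 513, 104990001, 103093251), (75, 33, 258, 33898851, 21169701)]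
  [(72, -2), (75, -2), (106, 4), (163, 2), (164, -2)] = true := by
  decide +kernel

theorem t2_1_4 : chkS lk2 1 3 [(1, m2_1)] l2_4
  [(166, 513, 513, 105972786, 106041411), (35, 288, 288, 70341126, 3560001)]
  [(35, -6), (166, 6)] = true := by
  decide +kernel

theorem t2_1_5 : chkS lk2 1 3 [(1, m2_1)] l2_5
  [(167, 513, 513, 105972786, 106041411), (168, 513, 513, 105972786, 106041411)]
  [(167, 6), (168, -6)] = true := by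
  decide +kernel

theorem t2_1_6 : chkS lk2 1 3 [(1, m2_1)] l2_6
  [(169, 513, 513, 105972786, 106041411), (74, 513, 513, 73532721, 86381571)]
  [(74, -6), (169, 6)] = true := by
  decide +kernel

theorem t2_1_7 : chkS lk2 1 3 [(1, m2_1)] l2_7
  [(89, 288, 288, 6439221, 84087846), (106, 258, 33, 87164481, 39932931), (170, 513, 513, 105972786, 106041411), (168, 513, 513, 88147506, 40177731), (171, 513, 513, 105972786, 106041411), (172, 513, 513, 105972786, 106041411)]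
  [(89, 4), (106, 2), (168, -2), (170, 2), (171, -2), (172, -4)] = true := by
  decide +kernel

theorem t2_1_8 : chkS lk2 1 3 [(1, m2_1)] l2_8
  [(170, 513, 513, 90244146, 90312771), (171, 513, 513, 90244146, 90312771), (89, 288, 288, 100811061, 100865061), (172, 513, 513, 90244146, 90312771), (106, 258, 33, 55707201, 38888451), (168, 513, 513, 72418866, 39194691)]
  [(89, 2), (106, -2), (168, -4), (170, 4), (171, 2), (172, -2)] = true := by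
  decide +kernel

theorem t2_1_9 : chkS lk2 1 3 [(1, m2_1)] l2_9
  [(171, 258, 33, 87164001, 23221251), (75, 33, 258, 100876581, 100876581)]
  [(75, -6), (171, 6)] = true := by
  decide +kernel

theorem t2_1_10 : chkS lk2 1 3 [(1, m2_1)] l2_10
  [(170, 513, 513, 73467186, 86380611), (167, 513, 513, 72418866, 39194691)]
  [(167, -6), (170, 6)] = true := by
  decide +kernel

theorem t2_1_11 : chkS lk2 1 3 [(1, m2_1)] l2_11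
  [(173, 1, 1, 105972786, 106041411), (30, 16, 16, 52446741, 33776916)]
  [(30, -6), (173, 6)] = true := by
  decide +kernel

theorem t2_1_12 : chkS lk2 1 3 [(1, m2_1)] l2_12
  [(174, 1, 1, 105972786, 106041411), (78, 1, 1, 72484401, 39195651)]
  [(78, -6), (174, 6)] = true := by
  decide +kernel

theorem t2_1_13 : chkS lk2 1 3 [(1, m2_1)] l2_13
  [(175, 1, 1, 105972786, 106041411), (177, 1, 1, 105972786, 106041411)]
  [(175, 6), (177, -6)] = true := by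
  decide +kernel

theorem t2_1_14 : chkS lk2 1 3 [(1, m2_1)] l2_14
  [(178, 1, 1, 105972786, 106041411), (112, 1, 1, 88147506, 40177731), (179, 1, 1, 105972786, 106041411), (80, 1, 1, 88213041, 40178691), (107, 1, 1, 104924466, 103092291), (77, 1, 1, 104990001, 103093251)]
  [(77, -4), (80, -2), (107, -2), (112, 2), (178, 4), (179, 2)] = true := by
  decide +kernel

theorem t2_1_15 : chkS lk2 1 3 [(1, m2_1)] l2_15
  [(180, 1, 1, 105972786, 106041411), (177, 1, 1, 72418866, 39194691)]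
  [(177, -6), (180, 6)] = true := by
  decide +kernel

theorem t2_1_16 : chkS lk2 1 3 [(1, m2_1)] l2_16
  [(112, 1, 1, 88147506, 40177731), (178, 1, 1, 105972786, 106041411), (80, 1, 1, 88213041, 40178691), (179, 1, 1, 105972786, 106041411), (77, 1, 1, 104990001, 103093251), (107, 1, 1, 104924466, 103092291)]
  [(77, -2), (80, 2), (107, -4), (112, 4), (178, 2), (179, -2)] = true := by
  decide +kernel

theorem t2_1_17 : chkS lk2 1 3 [(1, m2_1)] l2_17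
  [(112, 1, 1, 87164481, 39932931), (182, 1, 1, 105972786, 106041411)]
  [(112, 6), (182, -6)] = true := by
  decide +kernel

theorem t2_1_18 : chkS lk2 1 3 [(1, m2_1)] l2_18
  [(180, 1, 1, 72418866, 39194691), (183, 1, 1, 105972786, 106041411), (181, 1, 1, 72418866, 39194691), (184, 1, 1, 105972786, 106041411), (176, 1, 1, 72418866, 39194691), (175, 1, 1, 72418866, 39194691)]
  [(175, -4), (176, -2), (180, 4), (181, 2), (183, 2), (184, -2)] = true := by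
  decide +kernel

theorem t2_1_19 : chkS lk2 1 3 [(1, m2_1)] l2_19
  [(183, 1, 1, 105972786, 106041411), (180, 1, 1, 72418866, 39194691), (184, 1, 1, 105972786, 106041411), (181, 1, 1, 72418866, 39194691), (175, 1, 1, 72418866, 39194691), (176, 1, 1, 72418866, 39194691)]
  [(175, -2), (176, -4), (180, 2), (181, -2), (183, 4), (184, 2)] = true := by
  decide +kernel

theorem t2_1_20 : chkS lk2 1 3 [(1, m2_1)] l2_20
  [(185, 1, 1, 5309490, 5378115), (60, 16, 16, 1197360, 2298960), (186, 1, 1, 5309490, 5378115), (81, 1, 1, 4326705, 2429955), (55, 16, 16, 2114325, 206100), (59, 16, 16, 2114325, 206100)]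
  [(55, -2), (59, -4), (60, 2), (81, -2), (185, 4), (186, 2)] = true := by
  decide +kernel

theorem t2_1_21 : chkS lk2 1 3 [(1, m2_1)] l2_21
  [(60, 16, 16, 3163410, 2314260), (187, 1, 1, 5309490, 5378115)]
  [(60, 6), (187, -6)] = true := by
  decide +kernel

theorem t2_1_22 : chkS lk2 1 3 [(1, m2_1)] l2_22
  [(60, 16, 16, 1197360, 2298960), (185, 1, 1, 5309490, 5378115), (81, 1, 1, 4326705, 2429955), (186, 1, 1, 5309490, 5378115), (59, 16, 16, 2114325, 206100), (55, 16, 16, 2114325, 206100)]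
  [(55, -4), (59, -2), (60, 4), (81, 2), (185, 2), (186, -2)] = true := by
  decide +kernel

theorem t2_1_23 : chkS lk2 1 3 [(1, m2_1)] l2_23
  [(188, 1, 1, 5309490, 5378115), (190, 1, 1, 5309490, 5378115)]
  [(188, 6), (190, -6)] = true := by
  decide +kernel

theorem t2_1_24 : chkS lk2 1 3 [(1, m2_1)] l2_24
  [(191, 1, 1, 105972786, 106041411), (31, 1, 1, 105911076, 105914676)]
  [(31, -6), (191, 6)] = true := by
  decide +kernel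

theorem t2_1_25 : chkS lk2 1 3 [(1, m2_1)] l2_25
  [(192, 1, 1, 105972786, 106041411), (80, 16, 16, 106049796, 105919521)]
  [(80, -6), (192, 6)] = true := by
  decide +kernel

theorem t2_1_26 : chkS lk2 1 3 [(1, m2_1)] l2_26
  [(193, 1, 1, 5309490, 5378115), (81, 16, 16, 5386500, 5256225)]
  [(81, -6), (193, 6)] = true := by
  decide +kernel

theorem t2_1_27 : chkS lk2 1 3 [(1, m2_1)] l2_27
  [(194, 1, 1, 66610, 135235), (22, 1, 1, 4900, 8500)]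
  [(22, -6), (194, 6)] = true := by
  decide +kernel

theorem t2_1_28 : chkS lk2 1 3 [(1, m2_1)] l2_28
  [(195, 1, 1, 5309490, 5378115), (197, 1, 1, 5309490, 5378115)]
  [(195, 6), (197, -6)] = true := by
  decide +kernel

theorem t2_2_2 : chkS lk2 1 3 [(1, m2_2)] l2_2
  [(73, 258, 33, 103875906, 102846531), (72, 513, 513, 88147506, 40177731)]
  [(72, -6), (73, 6)] = true := by
  decide +kernel

theorem t2_2_3 : chkS lk2 1 3 [(1, m2_2)] l2_3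
  [(72, 258, 33, 103875666, 101863491), (72, 258, 33, 103875906, 102846531), (165, 288, 288, 36982806, 3429906), (75, 513, 513, 54593106, 34955331), (165, 288, 288, 36983046, 3429921), (75, 513, 513, 54592866, 19226691)]
  [(72, 6), (75, -6), (165, 0)] = true := by
  decide +kernel

theorem t2_2_4 : chkS lk2 1 3 [(1, m2_2)] l2_4
  [(35, 33, 258, 70668801, 70668801), (198, 513, 513, 105972786, 106041411)]
  [(35, 6), (198, -6)] = true := by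
  decide +kernel

theorem t2_2_5 : chkS lk2 1 3 [(1, m2_2)] l2_5
  [(75, 258, 33, 105972786, 106041411), (35, 288, 288, 33969201, 70391301)]
  [(35, -6), (75, 6)] = true := by
  decide +kernel

theorem t2_2_6 : chkS lk2 1 3 [(1, m2_2)] l2_6
  [(74, 258, 33, 103875906, 102846531), (199, 513, 513, 105972786, 106041411)]
  [(74, 6), (199, -6)] = true := by
  decide +kernel

theorem t2_2_7 : chkS lk2 1 3 [(1, m2_2)] l2_7
  [(64, 288, 288, 37044246, 4412946), (64, 288, 288, 37044486, 4412961), (75, 258, 33, 56689746, 85090371), (74, 513, 513, 55641666, 38887491), (75, 258, 33, 56689986, 86073411), (74, 513, 513, 55641186, 22175811)]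
  [(64, 6), (74, -6), (75, 0)] = true := by
  decide +kernel

theorem t2_2_8 : chkS lk2 1 3 [(1, m2_2)] l2_8
  [(75, 258, 33, 103875666, 101863491), (75, 258, 33, 103875906, 102846531), (64, 288, 288, 52772886, 4416786), (74, 513, 513, 87098466, 23220291), (64, 288, 288, 52773126, 4416801), (74, 513, 513, 87098946, 39931971)]
  [(74, -6), (75, 6)] = true := by
  decide +kernel

theorem t2_2_9 : chkS lk2 1 3 [(1, m2_2)] l2_9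
  [(72, 258, 33, 87098466, 23220291), (64, 33, 258, 50676246, 4416021)]
  [(64, -6), (72, 6)] = true := by
  decide +kernel

theorem t2_2_10 : chkS lk2 1 3 [(1, m2_2)] l2_10
  [(35, 33, 258, 33969201, 70391301), (74, 258, 33, 88147506, 40177731)]
  [(35, 6), (74, -6)] = true := by
  decide +kernel

theorem t2_2_11 : chkS lk2 1 3 [(1, m2_2)] l2_11
  [(26, 16, 16, 52838661, 67331361), (200, 1, 1, 105972786, 106041411)]
  [(26, 6), (200, -6)] = true := by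
  decide +kernel

theorem t2_2_12 : chkS lk2 1 3 [(1, m2_2)] l2_12
  [(201, 1, 1, 105972786, 106041411), (202, 1, 1, 105972786, 106041411)]
  [(201, 6), (202, -6)] = true := by
  decide +kernel

theorem t2_2_13 : chkS lk2 1 3 [(1, m2_2)] l2_13
  [(26, 16, 16, 17187621, 67314021), (201, 1, 1, 70321746, 35016771)]
  [(26, 6), (201, -6)] = true := by
  decide +kernel

theorem t2_2_14 : chkS lk2 1 3 [(1, m2_2)] l2_14
  [(77, 1, 1, 103875906, 102846531), (77, 1, 1, 103875666, 101863491), (203, 1, 1, 105972786, 106041411), (204, 1, 1, 105972786, 106041411), (203, 1, 1, 105972546, 105979971), (204, 1, 1, 105972546, 105979971)]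
  [(77, 6), (204, -6)] = true := by
  decide +kernel

theorem t2_2_15 : chkS lk2 1 3 [(1, m2_2)] l2_15
  [(30, 16, 16, 102056736, 105062736), (205, 1, 1, 105972546, 105979971)]
  [(30, 6), (205, -6)] = true := by
  decide +kernel

theorem t2_2_16 : chkS lk2 1 3 [(1, m2_2)] l2_16
  [(77, 1, 1, 103875666, 101863491), (77, 1, 1, 103875906, 102846531), (204, 1, 1, 105972786, 106041411), (203, 1, 1, 105972786, 106041411), (204, 1, 1, 105972546, 105979971), (203, 1, 1, 105972546, 105979971)]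
  [(77, 6), (203, -6), (204, 0)] = true := by
  decide +kernel

theorem t2_2_17 : chkS lk2 1 3 [(1, m2_2)] l2_17
  [(76, 1, 1, 103875906, 102846531), (203, 1, 1, 104923986, 102047811)]
  [(76, 6), (203, -6)] = true := by
  decide +kernel

theorem t2_2_18 : chkS lk2 1 3 [(1, m2_2)] l2_18
  [(78, 1, 1, 103875906, 102846531), (78, 1, 1, 103875666, 101863491), (206, 1, 1, 105972786, 106041411), (205, 1, 1, 104924466, 103092291), (206, 1, 1, 105972546, 105979971), (205, 1, 1, 104923986, 102047811)]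
  [(78, 6), (205, -6), (206, 0)] = true := by
  decide +kernel

theorem t2_2_19 : chkS lk2 1 3 [(1, m2_2)] l2_19
  [(78, 1, 1, 103875666, 101863491), (78, 1, 1, 103875906, 102846531), (205, 1, 1, 104924466, 103092291), (206, 1, 1, 105972786, 106041411), (205, 1, 1, 104923986, 102047811), (206, 1, 1, 105972546, 105979971)]
  [(78, 6), (206, -6)] = true := by
  decide +kernel

theorem t2_2_20 : chkS lk2 1 3 [(1, m2_2)] l2_20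
  [(59, 16, 16, 1393440, 4399440), (59, 16, 16, 1393200, 4395600), (207, 1, 1, 5309490, 5378115), (208, 1, 1, 5309490, 5378115), (207, 1, 1, 5309250, 5316675), (208, 1, 1, 5309250, 5316675)]
  [(59, 6), (208, -6)] = true := by
  decide +kernel

theorem t2_2_21 : chkS lk2 1 3 [(1, m2_2)] l2_21
  [(47, 16, 16, 1393440, 4399440), (207, 1, 1, 4260690, 1384515)]
  [(47, 6), (207, -6)] = true := by
  decide +kernel

theorem t2_2_22 : chkS lk2 1 3 [(1, m2_2)] l2_22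
  [(59, 16, 16, 1393200, 4395600), (59, 16, 16, 1393440, 4399440), (208, 1, 1, 5309490, 5378115), (207, 1, 1, 5309490, 5378115), (208, 1, 1, 5309250, 5316675), (207, 1, 1, 5309250, 5316675)]
  [(59, 6), (207, -6), (208, 0)] = true := by
  decide +kernel

theorem t2_2_23 : chkS lk2 1 3 [(1, m2_2)] l2_23
  [(79, 1, 1, 3212610, 2183235), (209, 1, 1, 5309250, 5316675)]
  [(79, 6), (209, -6)] = true := by
  decide +kernel

theorem t2_2_24 : chkS lk2 1 3 [(1, m2_2)] l2_24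
  [(31, 1, 1, 106173216, 106176816), (9, 16, 16, 106111236, 105923361)]
  [(9, -6), (31, 6)] = true := by
  decide +kernel

theorem t2_2_25 : chkS lk2 1 3 [(1, m2_2)] l2_25
  [(80, 1, 1, 105972786, 106041411), (87, 16, 16, 106111236, 105923361)]
  [(80, 6), (87, -6)] = true := by
  decide +kernel

theorem t2_2_26 : chkS lk2 1 3 [(1, m2_2)] l2_26
  [(81, 1, 1, 5309490, 5378115), (38, 16, 16, 5513475, 5505825)]
  [(38, -6), (81, 6)] = true := by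
  decide +kernel

theorem t2_2_27 : chkS lk2 1 3 [(1, m2_2)] l2_27
  [(22, 1, 1, 267040, 270640), (4, 16, 16, 205060, 17185)]
  [(4, -6), (22, 6)] = true := by
  decide +kernel

theorem t2_2_28 : chkS lk2 1 3 [(1, m2_2)] l2_28
  [(210, 1, 1, 5309490, 5378115), (211, 1, 1, 5309250, 5316675)]
  [(210, 6), (211, -6)] = true := by
  decide +kernel

theorem t2_3_3 : chkS lk2 1 3 [(1, m2_3)] l2_3
  [(163, 513, 513, 105972546, 105979971), (106, 513, 513, 88146786, 23404611), (72, 513, 513, 104989521, 102048771), (75, 33, 258, 33900051, 37946901), (75, 513, 513, 88212321, 23405571), (164, 513, 513, 105972546, 105979971)]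
  [(72, 2), (75, -4), (106, 2), (163, 4), (164, -4)] = true := by
  decide +kernel

theorem t2_3_4 : chkS lk2 1 3 [(1, m2_3)] l2_4
  [(96, 33, 258, 17122866, 37949541), (35, 288, 288, 70340646, 3559746)]
  [(35, -6), (96, 6)] = true := by
  decide +kernel

theorem t2_3_5 : chkS lk2 1 3 [(1, m2_3)] l2_5
  [(106, 258, 33, 106038321, 106042371), (168, 513, 513, 105972546, 105979971)]
  [(106, 6), (168, -6)] = true := by
  decide +kernel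

theorem t2_3_6 : chkS lk2 1 3 [(1, m2_3)] l2_6
  [(89, 33, 258, 3491346, 37965846), (74, 513, 513, 104989521, 102048771)]
  [(74, -6), (89, 6)] = true := by
  decide +kernel

theorem t2_3_7 : chkS lk2 1 3 [(1, m2_3)] l2_7
  [(106, 258, 33, 87164001, 23221251), (89, 288, 288, 6439701, 84091926), (171, 513, 513, 105972546, 105979971), (172, 513, 513, 105972546, 105979971), (170, 513, 513, 105972546, 105979971), (168, 513, 513, 88146786, 23404611)]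
  [(89, 2), (106, 4), (168, -4), (170, -2), (171, 2), (172, -2)] = true := by
  decide +kernel

theorem t2_3_8 : chkS lk2 1 3 [(1, m2_3)] l2_8
  [(171, 513, 513, 90243906, 90251331), (170, 513, 513, 90243906, 90251331), (106, 258, 33, 55706721, 22176771), (168, 513, 513, 72418146, 22421571), (89, 288, 288, 100811541, 100869141), (172, 513, 513, 90243906, 90251331)]
  [(89, -2), (106, 2), (168, -2), (170, 2), (171, 4), (172, -4)] = true := by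
  decide +kernel

theorem t2_3_9 : chkS lk2 1 3 [(1, m2_3)] l2_9
  [(72, 18, 18, 84292626, 73543701), (75, 33, 258, 100876821, 100876821)]
  [(72, 6), (75, -6)] = true := by
  decide +kernel

theorem t2_3_10 : chkS lk2 1 3 [(1, m2_3)] l2_10
  [(170, 513, 513, 73466706, 85336131), (89, 288, 288, 16925541, 16983141)]
  [(89, -6), (170, 6)] = true := by
  decide +kernel

theorem t2_3_11 : chkS lk2 1 3 [(1, m2_3)] l2_11
  [(109, 1, 1, 88146786, 23404611), (30, 16, 16, 52445541, 16999716)]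
  [(30, -6), (109, 6)] = true := by
  decide +kernel

theorem t2_3_12 : chkS lk2 1 3 [(1, m2_3)] l2_12
  [(108, 1, 1, 72418146, 22421571), (78, 1, 1, 88212321, 23405571)]
  [(78, -6), (108, 6)] = true := by
  decide +kernel

theorem t2_3_13 : chkS lk2 1 3 [(1, m2_3)] l2_13
  [(175, 1, 1, 105972546, 105979971), (176, 1, 1, 105972546, 105979971)]
  [(175, 6), (176, -6)] = true := by
  decide +kernel

theorem t2_3_14 : chkS lk2 1 3 [(1, m2_3)] l2_14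
  [(112, 1, 1, 88146786, 23404611), (178, 1, 1, 105972546, 105979971), (107, 1, 1, 104923986, 102047811), (77, 1, 1, 104989521, 102048771), (179, 1, 1, 105972546, 105979971), (80, 1, 1, 88212321, 23405571)]
  [(77, -2), (80, -4), (107, 2), (112, 4), (178, 2), (179, -2)] = true := by
  decide +kernel

theorem t2_3_15 : chkS lk2 1 3 [(1, m2_3)] l2_15
  [(180, 1, 1, 105972546, 105979971), (181, 1, 1, 105972546, 105979971)]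
  [(180, 6), (181, -6)] = true := by
  decide +kernel

theorem t2_3_16 : chkS lk2 1 3 [(1, m2_3)] l2_16
  [(178, 1, 1, 105972546, 105979971), (112, 1, 1, 88146786, 23404611), (77, 1, 1, 104989521, 102048771), (107, 1, 1, 104923986, 102047811), (80, 1, 1, 88212321, 23405571), (179, 1, 1, 105972546, 105979971)]
  [(77, 2), (80, -2), (107, -2), (112, 2), (178, 4), (179, -4)] = true := by
  decide +kernel

theorem t2_3_17 : chkS lk2 1 3 [(1, m2_3)] l2_17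
  [(112, 1, 1, 87164001, 23221251), (80, 16, 16, 85078116, 23082066)]
  [(80, -6), (112, 6)] = true := by
  decide +kernel

theorem t2_3_18 : chkS lk2 1 3 [(1, m2_3)] l2_18
  [(183, 1, 1, 105972546, 105979971), (180, 1, 1, 72418146, 22421571), (176, 1, 1, 72418146, 22421571), (175, 1, 1, 72418146, 22421571), (181, 1, 1, 72418146, 22421571), (184, 1, 1, 105972546, 105979971)]
  [(175, -2), (176, 2), (180, 2), (181, -2), (183, 4), (184, -4)] = true := by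
  decide +kernel

theorem t2_3_19 : chkS lk2 1 3 [(1, m2_3)] l2_19
  [(180, 1, 1, 72418146, 22421571), (183, 1, 1, 105972546, 105979971), (175, 1, 1, 72418146, 22421571), (176, 1, 1, 72418146, 22421571), (184, 1, 1, 105972546, 105979971), (181, 1, 1, 72418146, 22421571)]
  [(175, 2), (176, -2), (180, 4), (181, -4), (183, 2), (184, -2)] = true := by
  decide +kernel

theorem t2_3_20 : chkS lk2 1 3 [(1, m2_3)] l2_20
  [(60, 16, 16, 1196880, 1254480), (185, 1, 1, 5309250, 5316675), (55, 16, 16, 2113845, 202020), (59, 16, 16, 2113845, 202020), (186, 1, 1, 5309250, 5316675), (81, 1, 1, 4326225, 1385475)]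
  [(55, 2), (59, -2), (60, 4), (81, -4), (185, 2), (186, -2)] = true := by
  decide +kernel

theorem t2_3_21 : chkS lk2 1 3 [(1, m2_3)] l2_21
  [(60, 16, 16, 3162450, 1265700), (81, 16, 16, 1192020, 1061970)]
  [(60, 6), (81, -6)] = true := by
  decide +kernel

theorem t2_3_22 : chkS lk2 1 3 [(1, m2_3)] l2_22
  [(185, 1, 1, 5309250, 5316675), (60, 16, 16, 1196880, 1254480), (59, 16, 16, 2113845, 202020), (55, 16, 16, 2113845, 202020), (81, 1, 1, 4326225, 1385475), (186, 1, 1, 5309250, 5316675)]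
  [(55, -2), (59, 2), (60, 2), (81, -2), (185, 4), (186, -4)] = true := by
  decide +kernel

theorem t2_3_23 : chkS lk2 1 3 [(1, m2_3)] l2_23
  [(188, 1, 1, 5309250, 5316675), (189, 1, 1, 5309250, 5316675)]
  [(188, 6), (189, -6)] = true := by
  decide +kernel

theorem t2_3_24 : chkS lk2 1 3 [(1, m2_3)] l2_24
  [(111, 1, 1, 105972546, 105979971), (31, 1, 1, 105910836, 105910836)]
  [(31, -6), (111, 6)] = true := by
  decide +kernel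

theorem t2_3_25 : chkS lk2 1 3 [(1, m2_3)] l2_25
  [(112, 1, 1, 106038321, 106042371), (80, 16, 16, 106049556, 105919506)]
  [(80, -6), (112, 6)] = true := by
  decide +kernel

theorem t2_3_26 : chkS lk2 1 3 [(1, m2_3)] l2_26
  [(60, 16, 16, 5259570, 5443620), (81, 16, 16, 5386260, 5256210)]
  [(60, 6), (81, -6)] = true := by
  decide +kernel

theorem t2_3_27 : chkS lk2 1 3 [(1, m2_3)] l2_27
  [(63, 16, 16, 16690, 200740), (22, 1, 1, 4660, 4660)]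
  [(22, -6), (63, 6)] = true := by
  decide +kernel

theorem t2_3_28 : chkS lk2 1 3 [(1, m2_3)] l2_28
  [(195, 1, 1, 5309250, 5316675), (196, 1, 1, 5309250, 5316675)]
  [(195, 6), (196, -6)] = true := by
  decide +kernel

theorem t2_4_4 : chkS lk2 1 3 [(1, m2_4)] l2_4
  [(212, 513, 513, 105972786, 106041411), (95, 513, 513, 88147491, 40173891)]
  [(95, -6), (212, 6)] = true := by
  decide +kernel

theorem t2_4_5 : chkS lk2 1 3 [(1, m2_4)] l2_5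
  [(95, 528, 528, 102826836, 101721411), (213, 513, 513, 105972771, 106037571)]
  [(95, 6), (213, -6)] = true := by
  decide +kernel

theorem t2_4_6 : chkS lk2 1 3 [(1, m2_4)] l2_6
  [(214, 513, 513, 105972786, 106041411), (34, 33, 258, 33968916, 70264341)]
  [(34, -6), (214, 6)] = true := by
  decide +kernel

theorem t2_4_7 : chkS lk2 1 3 [(1, m2_4)] l2_7
  [(34, 18, 18, 20337666, 70406241), (213, 513, 513, 88147506, 40177731), (34, 18, 18, 20337696, 70406496), (213, 513, 513, 88147491, 40173891), (215, 513, 513, 105972786, 106041411), (215, 513, 513, 105972771, 106037571)]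
  [(34, 6), (215, -6)] = true := by
  decide +kernel

theorem t2_4_8 : chkS lk2 1 3 [(1, m2_4)] l2_8
  [(34, 18, 18, 51794976, 70410576), (215, 513, 513, 90244146, 90312771), (34, 18, 18, 51794946, 70410321), (215, 513, 513, 90244131, 90308931), (213, 513, 513, 72418866, 39194691), (213, 513, 513, 72418851, 39190851)]
  [(34, 6), (213, -6), (215, 0)] = true := by
  decide +kernel

theorem t2_4_9 : chkS lk2 1 3 [(1, m2_4)] l2_9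
  [(67, 18, 18, 50677281, 37970181), (35, 513, 513, 39073296, 39073296)]
  [(35, -6), (67, 6)] = true := by
  decide +kernel

theorem t2_4_10 : chkS lk2 1 3 [(1, m2_4)] l2_10
  [(34, 18, 18, 68571936, 70656336), (95, 528, 528, 52495956, 34628931)]
  [(34, 6), (95, -6)] = true := by
  decide +kernel

theorem t2_4_11 : chkS lk2 1 3 [(1, m2_4)] l2_11
  [(216, 1, 1, 105972786, 106041411), (100, 1, 1, 88147491, 40173891)]
  [(100, -6), (216, 6)] = true := by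
  decide +kernel

theorem t2_4_12 : chkS lk2 1 3 [(1, m2_4)] l2_12
  [(217, 1, 1, 105972786, 106041411), (99, 1, 1, 72418851, 39190851)]
  [(99, -6), (217, 6)] = true := by
  decide +kernel

theorem t2_4_13 : chkS lk2 1 3 [(1, m2_4)] l2_13
  [(99, 16, 16, 52495941, 33645891), (100, 16, 16, 52495956, 34628931)]
  [(99, 6), (100, -6)] = true := by
  decide +kernel

theorem t2_4_14 : chkS lk2 1 3 [(1, m2_4)] l2_14
  [(218, 1, 1, 105972786, 106041411), (104, 1, 1, 88147506, 40177731), (218, 1, 1, 105972771, 106037571), (104, 1, 1, 88147491, 40173891), (98, 1, 1, 104924466, 103092291), (98, 1, 1, 104924451, 103088451)]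
  [(98, -6), (218, 6)] = true := by
  decide +kernel

theorem t2_4_15 : chkS lk2 1 3 [(1, m2_4)] l2_15
  [(219, 1, 1, 105972786, 106041411), (100, 16, 16, 102826836, 101721411)]
  [(100, -6), (219, 6)] = true := by
  decide +kernel

theorem t2_4_16 : chkS lk2 1 3 [(1, m2_4)] l2_16
  [(104, 1, 1, 88147506, 40177731), (218, 1, 1, 105972786, 106041411), (104, 1, 1, 88147491, 40173891), (218, 1, 1, 105972771, 106037571), (98, 1, 1, 104924451, 103088451), (98, 1, 1, 104924466, 103092291)]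
  [(98, -6), (104, 6), (218, 0)] = true := by
  decide +kernel

theorem t2_4_17 : chkS lk2 1 3 [(1, m2_4)] l2_17
  [(104, 16, 16, 87098946, 39931971), (97, 16, 16, 103875156, 101732931)]
  [(97, -6), (104, 6)] = true := by
  decide +kernel

theorem t2_4_18 : chkS lk2 1 3 [(1, m2_4)] l2_18
  [(219, 1, 1, 72418866, 39194691), (220, 1, 1, 105972786, 106041411), (219, 1, 1, 72418851, 39190851), (220, 1, 1, 105972771, 106037571), (99, 16, 16, 102826836, 101721411), (99, 16, 16, 102826821, 100738371)]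
  [(99, -6), (219, 6), (220, 0)] = true := by
  decide +kernel

theorem t2_4_19 : chkS lk2 1 3 [(1, m2_4)] l2_19
  [(220, 1, 1, 105972786, 106041411), (219, 1, 1, 72418866, 39194691), (220, 1, 1, 105972771, 106037571), (219, 1, 1, 72418851, 39190851), (99, 16, 16, 102826821, 100738371), (99, 16, 16, 102826836, 101721411)]
  [(99, -6), (220, 6)] = true := by
  decide +kernel

theorem t2_4_20 : chkS lk2 1 3 [(1, m2_4)] l2_20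
  [(221, 1, 1, 5309490, 5378115), (105, 1, 1, 4261170, 2428995), (221, 1, 1, 5309475, 5374275), (105, 1, 1, 4261155, 2425155), (102, 1, 1, 4261170, 2428995), (102, 1, 1, 4261155, 2425155)]
  [(102, -6), (221, 6)] = true := by
  decide +kernel

theorem t2_4_21 : chkS lk2 1 3 [(1, m2_4)] l2_21
  [(105, 16, 16, 3212610, 2183235), (101, 16, 16, 3211860, 1069635)]
  [(101, -6), (105, 6)] = true := by
  decide +kernel

theorem t2_4_22 : chkS lk2 1 3 [(1, m2_4)] l2_22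
  [(105, 1, 1, 4261170, 2428995), (221, 1, 1, 5309490, 5378115), (105, 1, 1, 4261155, 2425155), (221, 1, 1, 5309475, 5374275), (102, 1, 1, 4261155, 2425155), (102, 1, 1, 4261170, 2428995)]
  [(102, -6), (105, 6), (221, 0)] = true := by
  decide +kernel

theorem t2_4_23 : chkS lk2 1 3 [(1, m2_4)] l2_23
  [(222, 1, 1, 5309490, 5378115), (103, 16, 16, 2163540, 1058115)]
  [(103, -6), (222, 6)] = true := by
  decide +kernel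

theorem t2_4_24 : chkS lk2 1 3 [(1, m2_4)] l2_24
  [(223, 1, 1, 105972786, 106041411), (18, 1, 1, 106181121, 106181121)]
  [(18, -6), (223, 6)] = true := by
  decide +kernel

theorem t2_4_25 : chkS lk2 1 3 [(1, m2_4)] l2_25
  [(224, 1, 1, 105972786, 106041411), (104, 16, 16, 105972516, 105914691)]
  [(104, -6), (224, 6)] = true := by
  decide +kernel

theorem t2_4_26 : chkS lk2 1 3 [(1, m2_4)] l2_26
  [(225, 1, 1, 5309490, 5378115), (105, 16, 16, 5309220, 5251395)]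
  [(105, -6), (225, 6)] = true := by
  decide +kernel

theorem t2_4_27 : chkS lk2 1 3 [(1, m2_4)] l2_27
  [(226, 1, 1, 66610, 135235), (5, 1, 1, 274945, 274945)]
  [(5, -6), (226, 6)] = true := by
  decide +kernel

theorem t2_4_28 : chkS lk2 1 3 [(1, m2_4)] l2_28
  [(227, 1, 1, 5309490, 5378115), (228, 1, 1, 5309490, 5378115)]
  [(227, 6), (228, -6)] = true := by
  decide +kernel

theorem t2_5_5 : chkS lk2 1 3 [(1, m2_5)] l2_5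
  [(96, 258, 33, 106112016, 106054416), (229, 513, 513, 105972771, 106037571)]
  [(96, 6), (229, -6)] = true := by
  decide +kernel

theorem t2_5_6 : chkS lk2 1 3 [(1, m2_5)] l2_6
  [(230, 513, 513, 105972786, 106041411), (231, 513, 513, 105972771, 106037571)]
  [(230, 6), (231, -6)] = true := by
  decide +kernel

theorem t2_5_7 : chkS lk2 1 3 [(1, m2_5)] l2_7
  [(89, 18, 18, 35017776, 70391376), (232, 513, 513, 105972786, 106041411), (89, 18, 18, 35017731, 70387281), (232, 513, 513, 105972771, 106037571), (233, 513, 513, 105972786, 106041411), (233, 513, 513, 105972771, 106037571)]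
  [(89, 6), (233, -6)] = true := by
  decide +kernel

theorem t2_5_8 : chkS lk2 1 3 [(1, m2_5)] l2_8
  [(89, 18, 18, 19289091, 70387041), (233, 513, 513, 90244146, 90312771), (89, 18, 18, 19289136, 70391136), (233, 513, 513, 90244131, 90308931), (232, 513, 513, 90244146, 90312771), (232, 513, 513, 90244131, 90308931)]
  [(89, 6), (232, -6), (233, 0)] = true := by
  decide +kernel

theorem t2_5_9 : chkS lk2 1 3 [(1, m2_5)] l2_9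
  [(64, 18, 18, 84108321, 56770821), (170, 18, 18, 84173331, 56885781)]
  [(64, 6), (170, -6)] = true := by
  decide +kernel

theorem t2_5_10 : chkS lk2 1 3 [(1, m2_5)] l2_10
  [(232, 288, 288, 17113956, 20980581), (34, 288, 288, 52695141, 17065266)]
  [(34, -6), (232, 6)] = true := by
  decide +kernel

theorem t2_5_11 : chkS lk2 1 3 [(1, m2_5)] l2_11
  [(8, 1, 1, 70320741, 17191491), (234, 1, 1, 105972771, 106037571)]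
  [(8, 6), (234, -6)] = true := by
  decide +kernel

theorem t2_5_12 : chkS lk2 1 3 [(1, m2_5)] l2_12
  [(235, 1, 1, 105972786, 106041411), (236, 1, 1, 105972771, 106037571)]
  [(235, 6), (236, -6)] = true := by
  decide +kernel

theorem t2_5_13 : chkS lk2 1 3 [(1, m2_5)] l2_13
  [(237, 1, 1, 105972786, 106041411), (28, 16, 16, 70386021, 17191971)]
  [(28, -6), (237, 6)] = true := by
  decide +kernel

theorem t2_5_14 : chkS lk2 1 3 [(1, m2_5)] l2_14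
  [(238, 1, 1, 105972786, 106041411), (239, 1, 1, 105972786, 106041411), (238, 1, 1, 105972771, 106037571), (239, 1, 1, 105972771, 106037571), (107, 16, 16, 102961236, 101729586), (107, 16, 16, 102961221, 100746546)]
  [(107, -6), (238, 6), (239, 0)] = true := by
  decide +kernel

theorem t2_5_15 : chkS lk2 1 3 [(1, m2_5)] l2_15
  [(240, 1, 1, 105972786, 106041411), (109, 16, 16, 102961236, 101729586)]
  [(109, -6), (240, 6)] = true := by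
  decide +kernel

theorem t2_5_16 : chkS lk2 1 3 [(1, m2_5)] l2_16
  [(239, 1, 1, 105972786, 106041411), (238, 1, 1, 105972786, 106041411), (239, 1, 1, 105972771, 106037571), (238, 1, 1, 105972771, 106037571), (107, 16, 16, 102961221, 100746546), (107, 16, 16, 102961236, 101729586)]
  [(107, -6), (239, 6)] = true := by
  decide +kernel

theorem t2_5_17 : chkS lk2 1 3 [(1, m2_5)] l2_17
  [(241, 1, 1, 105972786, 106041411), (76, 16, 16, 101916756, 101729106)]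
  [(76, -6), (241, 6)] = true := by
  decide +kernel

theorem t2_5_18 : chkS lk2 1 3 [(1, m2_5)] l2_18
  [(242, 1, 1, 105972786, 106041411), (243, 1, 1, 105972786, 106041411), (242, 1, 1, 105972771, 106037571), (243, 1, 1, 105972771, 106037571), (108, 16, 16, 102961236, 101729586), (108, 16, 16, 102961221, 100746546)]
  [(108, -6), (242, 6), (243, 0)] = true := by
  decide +kernel

theorem t2_5_19 : chkS lk2 1 3 [(1, m2_5)] l2_19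
  [(243, 1, 1, 105972786, 106041411), (242, 1, 1, 105972786, 106041411), (243, 1, 1, 105972771, 106037571), (242, 1, 1, 105972771, 106037571), (108, 16, 16, 102961221, 100746546), (108, 16, 16, 102961236, 101729586)]
  [(108, -6), (243, 6)] = true := by
  decide +kernel

theorem t2_5_20 : chkS lk2 1 3 [(1, m2_5)] l2_20
  [(244, 1, 1, 5309490, 5378115), (57, 16, 16, 3473730, 4280355), (244, 1, 1, 5309475, 5374275), (57, 16, 16, 3473700, 4215075), (55, 1, 1, 5309490, 5378115), (55, 1, 1, 5309475, 5374275)]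
  [(55, -6), (244, 6)] = true := by
  decide +kernel

theorem t2_5_21 : chkS lk2 1 3 [(1, m2_5)] l2_21
  [(56, 1, 1, 5514000, 5514000), (47, 1, 1, 5309490, 5378115)]
  [(47, -6), (56, 6)] = true := by
  decide +kernel

theorem t2_5_22 : chkS lk2 1 3 [(1, m2_5)] l2_22
  [(57, 16, 16, 3473730, 4280355), (244, 1, 1, 5309490, 5378115), (57, 16, 16, 3473700, 4215075), (244, 1, 1, 5309475, 5374275), (55, 1, 1, 5309475, 5374275), (55, 1, 1, 5309490, 5378115)]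
  [(55, -6), (57, 6), (244, 0)] = true := by
  decide +kernel

theorem t2_5_23 : chkS lk2 1 3 [(1, m2_5)] l2_23
  [(245, 1, 1, 5309490, 5378115), (110, 16, 16, 2297940, 1066290)]
  [(110, -6), (245, 6)] = true := by
  decide +kernel

theorem t2_5_24 : chkS lk2 1 3 [(1, m2_5)] l2_24
  [(18, 1, 1, 105972291, 105972291), (111, 16, 16, 106106916, 105922866)]
  [(18, 6), (111, -6)] = true := by
  decide +kernel

theorem t2_5_25 : chkS lk2 1 3 [(1, m2_5)] l2_25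
  [(104, 1, 1, 106112016, 106054416), (112, 16, 16, 106106916, 105922866)]
  [(104, 6), (112, -6)] = true := by
  decide +kernel

theorem t2_5_26 : chkS lk2 1 3 [(1, m2_5)] l2_26
  [(105, 1, 1, 5448720, 5391120), (60, 1, 1, 5448705, 5391105)]
  [(60, -6), (105, 6)] = true := by
  decide +kernel

theorem t2_5_27 : chkS lk2 1 3 [(1, m2_5)] l2_27
  [(5, 1, 1, 66115, 66115), (63, 1, 1, 66595, 131395)]
  [(5, 6), (63, -6)] = true := by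
  decide +kernel

theorem t2_5_28 : chkS lk2 1 3 [(1, m2_5)] l2_28
  [(246, 1, 1, 5309490, 5378115), (27, 1, 1, 5309490, 5378115)]
  [(27, -6), (246, 6)] = true := by
  decide +kernel

theorem t2_6_6 : chkS lk2 1 3 [(1, m2_6)] l2_6
  [(247, 513, 513, 106107936, 106053936), (88, 513, 513, 73598241, 86393091)]
  [(88, -6), (247, 6)] = true := by
  decide +kernel

theorem t2_6_7 : chkS lk2 1 3 [(1, m2_6)] l2_7
  [(232, 18, 18, 35013936, 69408336), (231, 18, 18, 35013456, 68363856), (232, 18, 18, 34891011, 52692561), (231, 18, 18, 34890501, 50603601), (248, 513, 513, 106107936, 106053936), (248, 513, 513, 105985026, 106049601)]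
  [(232, 6), (248, -6)] = true := by
  decide +kernel

theorem t2_6_8 : chkS lk2 1 3 [(1, m2_6)] l2_8
  [(232, 18, 18, 19162371, 52692321), (248, 513, 513, 90379296, 90325296), (232, 18, 18, 19285296, 69408096), (248, 513, 513, 90256386, 90320961), (231, 33, 258, 50745666, 70344741), (231, 33, 258, 50684196, 54550821)]
  [(231, -6), (232, 6), (248, 0)] = true := by
  decide +kernel

theorem t2_6_9 : chkS lk2 1 3 [(1, m2_6)] l2_9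
  [(172, 18, 18, 84292641, 73543941), (74, 18, 18, 84107556, 56639781)]
  [(74, -6), (172, 6)] = true := by
  decide +kernel

theorem t2_6_10 : chkS lk2 1 3 [(1, m2_6)] l2_10
  [(232, 18, 18, 86270211, 56886561), (230, 33, 258, 67522866, 70651941)]
  [(230, -6), (232, 6)] = true := by
  decide +kernel

theorem t2_6_11 : chkS lk2 1 3 [(1, m2_6)] l2_11
  [(249, 1, 1, 106107936, 106053936), (32, 16, 16, 88086051, 40173876)]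
  [(32, -6), (249, 6)] = true := by
  decide +kernel

theorem t2_6_12 : chkS lk2 1 3 [(1, m2_6)] l2_12
  [(250, 1, 1, 106107936, 106053936), (92, 1, 1, 72549921, 39207171)]
  [(92, -6), (250, 6)] = true := by
  decide +kernel

theorem t2_6_13 : chkS lk2 1 3 [(1, m2_6)] l2_13
  [(251, 1, 1, 106107936, 106053936), (252, 1, 1, 106107936, 106053936)]
  [(251, 6), (252, -6)] = true := by
  decide +kernel

theorem t2_6_14 : chkS lk2 1 3 [(1, m2_6)] l2_14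
  [(253, 1, 1, 106107936, 106053936), (94, 1, 1, 88094226, 40185876), (253, 1, 1, 105985026, 106049601), (94, 1, 1, 88278561, 40190211), (91, 1, 1, 104871186, 103100436), (91, 1, 1, 105055521, 103104771)]
  [(91, -6), (253, 6)] = true := by
  decide +kernel

theorem t2_6_15 : chkS lk2 1 3 [(1, m2_6)] l2_15
  [(254, 1, 1, 106107936, 106053936), (252, 1, 1, 72554016, 39207216)]
  [(252, -6), (254, 6)] = true := by
  decide +kernel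

theorem t2_6_16 : chkS lk2 1 3 [(1, m2_6)] l2_16
  [(94, 1, 1, 88094226, 40185876), (253, 1, 1, 106107936, 106053936), (94, 1, 1, 88278561, 40190211), (253, 1, 1, 105985026, 106049601), (91, 1, 1, 105055521, 103104771), (91, 1, 1, 104871186, 103100436)]
  [(91, -6), (94, 6), (253, 0)] = true := by
  decide +kernel

theorem t2_6_17 : chkS lk2 1 3 [(1, m2_6)] l2_17
  [(94, 16, 16, 85079616, 39924816), (255, 1, 1, 106107936, 106053936)]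
  [(94, 6), (255, -6)] = true := by
  decide +kernel

theorem t2_6_18 : chkS lk2 1 3 [(1, m2_6)] l2_18
  [(254, 1, 1, 72554016, 39207216), (256, 1, 1, 106107936, 106053936), (254, 1, 1, 72431106, 39202881), (256, 1, 1, 105985026, 106049601), (251, 1, 1, 72431106, 39202881), (251, 1, 1, 72554016, 39207216)]
  [(251, -6), (254, 6), (256, 0)] = true := by
  decide +kernel

theorem t2_6_19 : chkS lk2 1 3 [(1, m2_6)] l2_19
  [(256, 1, 1, 106107936, 106053936), (254, 1, 1, 72554016, 39207216), (256, 1, 1, 105985026, 106049601), (254, 1, 1, 72431106, 39202881), (251, 1, 1, 72554016, 39207216), (251, 1, 1, 72431106, 39202881)]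
  [(251, -6), (256, 6)] = true := by
  decide +kernel

theorem t2_6_20 : chkS lk2 1 3 [(1, m2_6)] l2_20
  [(257, 1, 1, 5444640, 5390640), (58, 16, 16, 3212610, 2183235), (257, 1, 1, 5321730, 5386305), (58, 16, 16, 3151140, 2117940), (54, 16, 16, 4261170, 2428995), (54, 16, 16, 4199715, 2425140)]
  [(54, -6), (257, 6)] = true := by
  decide +kernel

theorem t2_6_21 : chkS lk2 1 3 [(1, m2_6)] l2_21
  [(58, 1, 1, 4326705, 2429955), (258, 1, 1, 5444640, 5390640)]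
  [(58, 6), (258, -6)] = true := by
  decide +kernel

theorem t2_6_22 : chkS lk2 1 3 [(1, m2_6)] l2_22
  [(58, 16, 16, 3212610, 2183235), (257, 1, 1, 5444640, 5390640), (58, 16, 16, 3151140, 2117940), (257, 1, 1, 5321730, 5386305), (54, 16, 16, 4199715, 2425140), (54, 16, 16, 4261170, 2428995)]
  [(54, -6), (58, 6), (257, 0)] = true := by
  decide +kernel

theorem t2_6_23 : chkS lk2 1 3 [(1, m2_6)] l2_23
  [(259, 1, 1, 5444640, 5390640), (260, 1, 1, 5444640, 5390640)]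
  [(259, 6), (260, -6)] = true := by
  decide +kernel

theorem t2_6_24 : chkS lk2 1 3 [(1, m2_6)] l2_24
  [(261, 1, 1, 106107936, 106053936), (33, 1, 1, 105915411, 106038036)]
  [(33, -6), (261, 6)] = true := by
  decide +kernel

theorem t2_6_25 : chkS lk2 1 3 [(1, m2_6)] l2_25
  [(262, 1, 1, 106107936, 106053936), (94, 16, 16, 106111236, 105923361)]
  [(94, -6), (262, 6)] = true := by
  decide +kernel

theorem t2_6_26 : chkS lk2 1 3 [(1, m2_6)] l2_26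
  [(263, 1, 1, 5444640, 5390640), (58, 1, 1, 5252115, 5374740)]
  [(58, -6), (263, 6)] = true := by
  decide +kernel

theorem t2_6_27 : chkS lk2 1 3 [(1, m2_6)] l2_27
  [(264, 1, 1, 201760, 147760), (23, 1, 1, 9235, 131860)]
  [(23, -6), (264, 6)] = true := by
  decide +kernel

theorem t2_6_28 : chkS lk2 1 3 [(1, m2_6)] l2_28
  [(265, 1, 1, 5444640, 5390640), (266, 1, 1, 5444640, 5390640)]
  [(265, 6), (266, -6)] = true := by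
  decide +kernel

theorem t2_7_7 : chkS lk2 1 3 [(1, m2_7)] l2_7
  [(167, 528, 528, 39927861, 84088386), (230, 258, 33, 88282656, 40190256), (170, 528, 528, 38879286, 5445186), (232, 513, 513, 72554016, 39207216), (232, 33, 258, 51662946, 20209746), (229, 513, 513, 73602336, 86393136)]
  [(167, 4), (170, 2), (229, -4), (230, 2), (232, -4)] = true := by
  decide +kernel

theorem t2_7_8 : chkS lk2 1 3 [(1, m2_7)] l2_8
  [(170, 528, 528, 86065206, 6493506), (232, 33, 258, 20205666, 20205666), (167, 528, 528, 102842421, 100865346), (229, 513, 513, 105059616, 103104816), (230, 258, 33, 72554016, 39207216), (232, 513, 513, 88282656, 40190256)]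
  [(167, 2), (170, 4), (229, -2), (230, -2), (232, -2)] = true := by
  decide +kernel

theorem t2_7_9 : chkS lk2 1 3 [(1, m2_7)] l2_9
  [(75, 528, 528, 21127221, 50664546), (167, 18, 18, 100876821, 100876821)]
  [(75, 6), (167, -6)] = true := by
  decide +kernel

theorem t2_7_10 : chkS lk2 1 3 [(1, m2_7)] l2_10
  [(233, 258, 33, 88217136, 40178736), (88, 258, 33, 88217136, 40178736)]
  [(88, -6), (233, 6)] = true := by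
  decide +kernel

theorem t2_7_11 : chkS lk2 1 3 [(1, m2_7)] l2_11
  [(28, 1, 1, 105923091, 106103316), (267, 1, 1, 106107936, 106053936)]
  [(28, 6), (267, -6)] = true := by
  decide +kernel

theorem t2_7_12 : chkS lk2 1 3 [(1, m2_7)] l2_12
  [(237, 16, 16, 52453701, 50423076), (268, 1, 1, 106107936, 106053936)]
  [(237, 6), (268, -6)] = true := by
  decide +kernel

theorem t2_7_13 : chkS lk2 1 3 [(1, m2_7)] l2_13
  [(269, 1, 1, 106107936, 106053936), (271, 1, 1, 106107936, 106053936)]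
  [(269, 6), (271, -6)] = true := by
  decide +kernel

theorem t2_7_14 : chkS lk2 1 3 [(1, m2_7)] l2_14
  [(241, 1, 1, 104994096, 103093296), (239, 1, 1, 104994096, 103093296), (91, 16, 16, 102781236, 103814436), (255, 16, 16, 102846516, 103814466), (107, 16, 16, 102846516, 103814466), (182, 16, 16, 102846516, 103814466)]
  [(91, 2), (107, -2), (182, -4), (239, 2), (241, 4), (255, -2)] = true := by
  decide +kernel

theorem t2_7_15 : chkS lk2 1 3 [(1, m2_7)] l2_15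
  [(243, 1, 1, 104994096, 103093296), (176, 16, 16, 69296181, 50730306)]
  [(176, -6), (243, 6)] = true := by
  decide +kernel

theorem t2_7_16 : chkS lk2 1 3 [(1, m2_7)] l2_16
  [(239, 1, 1, 104994096, 103093296), (241, 1, 1, 104994096, 103093296), (255, 16, 16, 102846516, 103814466), (91, 16, 16, 102781236, 103814436), (182, 16, 16, 102846516, 103814466), (107, 16, 16, 102846516, 103814466)]
  [(91, -2), (107, -4), (182, -2), (239, 4), (241, 2), (255, 2)] = true := by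
  decide +kernel

theorem t2_7_17 : chkS lk2 1 3 [(1, m2_7)] l2_17
  [(238, 1, 1, 104994096, 103093296), (77, 16, 16, 101863476, 103814226)]
  [(77, -6), (238, 6)] = true := by
  decide +kernel

theorem t2_7_18 : chkS lk2 1 3 [(1, m2_7)] l2_18
  [(242, 1, 1, 104994096, 103093296), (240, 1, 1, 104994096, 103093296), (252, 16, 16, 69296181, 50730306), (251, 16, 16, 67330581, 50741781), (177, 16, 16, 69296181, 50730306), (175, 16, 16, 69296181, 50730306)]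
  [(175, -4), (177, -2), (240, 2), (242, 4), (251, -2), (252, 2)] = true := by
  decide +kernel

theorem t2_7_19 : chkS lk2 1 3 [(1, m2_7)] l2_19
  [(240, 1, 1, 104994096, 103093296), (242, 1, 1, 104994096, 103093296), (251, 16, 16, 67330581, 50741781), (252, 16, 16, 69296181, 50730306), (175, 16, 16, 69296181, 50730306), (177, 16, 16, 69296181, 50730306)]
  [(175, -2), (177, -4), (240, 4), (242, 2), (251, 2), (252, -2)] = true := by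
  decide +kernel

theorem t2_7_20 : chkS lk2 1 3 [(1, m2_7)] l2_20
  [(56, 1, 1, 3163410, 2314260), (57, 16, 16, 3162450, 1265700), (54, 1, 1, 2183940, 3155265), (258, 16, 16, 2183220, 3151170), (55, 1, 1, 5256210, 5386260), (187, 16, 16, 2183220, 3151170)]
  [(54, 2), (55, -2), (56, 4), (57, 2), (187, -4), (258, -2)] = true := by
  decide +kernel

theorem t2_7_21 : chkS lk2 1 3 [(1, m2_7)] l2_21
  [(244, 1, 1, 4330800, 2430000), (59, 1, 1, 5256210, 5386260)]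
  [(59, -6), (244, 6)] = true := by
  decide +kernel

theorem t2_7_22 : chkS lk2 1 3 [(1, m2_7)] l2_22
  [(57, 16, 16, 3162450, 1265700), (56, 1, 1, 3163410, 2314260), (258, 16, 16, 2183220, 3151170), (54, 1, 1, 2183940, 3155265), (187, 16, 16, 2183220, 3151170), (55, 1, 1, 5256210, 5386260)]
  [(54, -2), (55, -4), (56, 2), (57, 4), (187, -2), (258, 2)] = true := by
  decide +kernel

theorem t2_7_23 : chkS lk2 1 3 [(1, m2_7)] l2_23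
  [(245, 1, 1, 4330800, 2430000), (190, 16, 16, 2179125, 202050)]
  [(190, -6), (245, 6)] = true := by
  decide +kernel

theorem t2_7_24 : chkS lk2 1 3 [(1, m2_7)] l2_24
  [(33, 1, 1, 105985026, 106049601), (70, 16, 16, 105988131, 106103106)]
  [(33, 6), (70, -6)] = true := by
  decide +kernel

theorem t2_7_25 : chkS lk2 1 3 [(1, m2_7)] l2_25
  [(94, 1, 1, 106042416, 106042416), (68, 16, 16, 56709156, 87056706)]
  [(68, -6), (94, 6)] = true := by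
  decide +kernel

theorem t2_7_26 : chkS lk2 1 3 [(1, m2_7)] l2_26
  [(58, 16, 16, 5391105, 5448705), (69, 16, 16, 3231780, 3166530)]
  [(58, 6), (69, -6)] = true := by
  decide +kernel

theorem t2_7_27 : chkS lk2 1 3 [(1, m2_7)] l2_27
  [(23, 1, 1, 78850, 143425), (71, 16, 16, 81955, 196930)]
  [(23, 6), (71, -6)] = true := by
  decide +kernel

theorem t2_7_28 : chkS lk2 1 3 [(1, m2_7)] l2_28
  [(272, 1, 1, 5444640, 5390640), (274, 1, 1, 5444640, 5390640)]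
  [(272, 6), (274, -6)] = true := by
  decide +kernel

theorem t2_8_8 : chkS lk2 1 3 [(1, m2_8)] l2_8
  [(167, 528, 528, 103026771, 101975346), (229, 513, 513, 104936706, 103100481), (170, 528, 528, 86249571, 23332146), (232, 33, 258, 20267046, 4411746), (232, 513, 513, 88159746, 40185921), (230, 258, 33, 72431106, 39202881)]
  [(167, 4), (170, 2), (229, 2), (230, -4), (232, -4)] = true := by
  decide +kernel

theorem t2_8_9 : chkS lk2 1 3 [(1, m2_8)] l2_9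
  [(75, 528, 528, 21373011, 68485986), (89, 528, 528, 21377616, 68498016)]
  [(75, 6), (89, -6)] = true := by
  decide +kernel

theorem t2_8_10 : chkS lk2 1 3 [(1, m2_8)] l2_10
  [(229, 258, 33, 105980931, 106038081), (88, 258, 33, 88155651, 40174401)]
  [(88, -6), (229, 6)] = true := by
  decide +kernel

theorem t2_8_11 : chkS lk2 1 3 [(1, m2_8)] l2_11
  [(28, 1, 1, 106168881, 106172931), (234, 1, 1, 106103841, 106053891)]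
  [(28, 6), (234, -6)] = true := by
  decide +kernel

theorem t2_8_12 : chkS lk2 1 3 [(1, m2_8)] l2_12
  [(237, 16, 16, 37093716, 68179491), (236, 1, 1, 106103841, 106053891)]
  [(236, -6), (237, 6)] = true := by
  decide +kernel

theorem t2_8_13 : chkS lk2 1 3 [(1, m2_8)] l2_13
  [(270, 1, 1, 105985026, 106049601), (271, 1, 1, 105985026, 106049601)]
  [(270, 6), (271, -6)] = true := by
  decide +kernel

theorem t2_8_14 : chkS lk2 1 3 [(1, m2_8)] l2_14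
  [(91, 16, 16, 103088451, 104924451), (255, 16, 16, 103092291, 104924466), (241, 1, 1, 104932611, 103088961), (239, 1, 1, 106103841, 106053891), (182, 16, 16, 103092291, 104924466), (107, 16, 16, 103092291, 104924466)]
  [(91, 4), (107, -4), (182, -2), (239, -2), (241, 2), (255, 2)] = true := by
  decide +kernel

theorem t2_8_15 : chkS lk2 1 3 [(1, m2_8)] l2_15
  [(251, 16, 16, 69603411, 68551986), (176, 16, 16, 69603411, 68551986)]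
  [(176, -6), (251, 6)] = true := by
  decide +kernel

theorem t2_8_16 : chkS lk2 1 3 [(1, m2_8)] l2_16
  [(255, 16, 16, 103092291, 104924466), (91, 16, 16, 103088451, 104924451), (239, 1, 1, 106103841, 106053891), (241, 1, 1, 104932611, 103088961), (107, 16, 16, 103092291, 104924466), (182, 16, 16, 103092291, 104924466)]
  [(91, 2), (107, -2), (182, -4), (239, 2), (241, -2), (255, 4)] = true := by
  decide +kernel

theorem t2_8_17 : chkS lk2 1 3 [(1, m2_8)] l2_17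
  [(91, 16, 16, 102052416, 104936016), (77, 16, 16, 102047811, 104923986)]
  [(77, -6), (91, 6)] = true := by
  decide +kernel

theorem t2_8_18 : chkS lk2 1 3 [(1, m2_8)] l2_18
  [(252, 16, 16, 69603411, 68551986), (251, 16, 16, 67514961, 68563461), (242, 1, 1, 104932611, 103088961), (240, 1, 1, 104932611, 103088961), (175, 16, 16, 69603411, 68551986), (177, 16, 16, 69603411, 68551986)]
  [(175, -2), (177, -4), (240, -2), (242, 2), (251, 2), (252, 4)] = true := by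
  decide +kernel

theorem t2_8_19 : chkS lk2 1 3 [(1, m2_8)] l2_19
  [(251, 16, 16, 67514961, 68563461), (252, 16, 16, 69603411, 68551986), (240, 1, 1, 104932611, 103088961), (242, 1, 1, 104932611, 103088961), (177, 16, 16, 69603411, 68551986), (175, 16, 16, 69603411, 68551986)]
  [(175, -4), (177, -2), (240, 2), (242, -2), (251, 4), (252, 2)] = true := by
  decide +kernel

theorem t2_8_20 : chkS lk2 1 3 [(1, m2_8)] l2_20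
  [(54, 1, 1, 2429760, 4269360), (258, 16, 16, 2428995, 4261170), (56, 1, 1, 3409185, 2380035), (57, 16, 16, 3408165, 282915), (187, 16, 16, 2428995, 4261170), (55, 1, 1, 5440545, 5390595)]
  [(54, 4), (55, -4), (56, 2), (57, -2), (187, -2), (258, 2)] = true := by
  decide +kernel

theorem t2_8_21 : chkS lk2 1 3 [(1, m2_8)] l2_21
  [(54, 1, 1, 3473985, 4280835), (59, 1, 1, 5440545, 5390595)]
  [(54, 6), (59, -6)] = true := by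
  decide +kernel

theorem t2_8_22 : chkS lk2 1 3 [(1, m2_8)] l2_22
  [(258, 16, 16, 2428995, 4261170), (54, 1, 1, 2429760, 4269360), (57, 16, 16, 3408165, 282915), (56, 1, 1, 3409185, 2380035), (55, 1, 1, 5440545, 5390595), (187, 16, 16, 2428995, 4261170)]
  [(54, 2), (55, -2), (56, -2), (57, 2), (187, -4), (258, 4)] = true := by
  decide +kernel

theorem t2_8_23 : chkS lk2 1 3 [(1, m2_8)] l2_23
  [(260, 16, 16, 2363475, 1312050), (190, 16, 16, 2363475, 1312050)]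
  [(190, -6), (260, 6)] = true := by
  decide +kernel

theorem t2_8_24 : chkS lk2 1 3 [(1, m2_8)] l2_24
  [(33, 1, 1, 106107936, 106053936), (111, 16, 16, 106172451, 106168626)]
  [(33, 6), (111, -6)] = true := by
  decide +kernel

theorem t2_8_25 : chkS lk2 1 3 [(1, m2_8)] l2_25
  [(94, 1, 1, 105980931, 106038081), (112, 16, 16, 106110996, 105923346)]
  [(94, 6), (112, -6)] = true := by
  decide +kernel

theorem t2_8_26 : chkS lk2 1 3 [(1, m2_8)] l2_26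
  [(58, 16, 16, 5514000, 5514000), (60, 1, 1, 5440545, 5390595)]
  [(58, 6), (60, -6)] = true := by
  decide +kernel

theorem t2_8_27 : chkS lk2 1 3 [(1, m2_8)] l2_27
  [(23, 1, 1, 201760, 147760), (63, 1, 1, 197665, 147715)]
  [(23, 6), (63, -6)] = true := by
  decide +kernel

theorem t2_8_28 : chkS lk2 1 3 [(1, m2_8)] l2_28
  [(273, 1, 1, 5321730, 5386305), (274, 1, 1, 5321730, 5386305)]
  [(273, 6), (274, -6)] = true := by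
  decide +kernel

theorem t2_9_9 : chkS lk2 1 3 [(1, m2_9)] l2_9
  [(165, 258, 33, 104072481, 103043331), (106, 513, 513, 54920481, 69558531)]
  [(106, -6), (165, 6)] = true := by
  decide +kernel

theorem t2_9_10 : chkS lk2 1 3 [(1, m2_9)] l2_10
  [(168, 258, 33, 70649121, 69619971), (66, 258, 33, 56951841, 88236291)]
  [(66, -6), (168, 6)] = true := by
  decide +kernel

theorem t2_9_11 : chkS lk2 1 3 [(1, m2_9)] l2_11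
  [(275, 1, 1, 106173216, 106176816), (26, 16, 16, 52510806, 1271106)]
  [(26, -6), (275, 6)] = true := by
  decide +kernel

theorem t2_9_12 : chkS lk2 1 3 [(1, m2_9)] l2_12
  [(276, 1, 1, 106173216, 106176816), (201, 1, 1, 106169121, 106176771)]
  [(201, -6), (276, 6)] = true := by
  decide +kernel

theorem t2_9_13 : chkS lk2 1 3 [(1, m2_9)] l2_13
  [(277, 1, 1, 106173216, 106176816), (278, 1, 1, 106173216, 106176816)]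
  [(277, 6), (278, -6)] = true := by
  decide +kernel

theorem t2_9_14 : chkS lk2 1 3 [(1, m2_9)] l2_14
  [(182, 1, 1, 104137761, 105009411), (77, 1, 1, 104137746, 105009171), (182, 1, 1, 104137746, 105009171), (77, 1, 1, 104137761, 105009411), (203, 1, 1, 106169106, 106176531), (203, 1, 1, 106169121, 106176771)]
  [(182, 6), (203, -6)] = true := by
  decide +kernel

theorem t2_9_15 : chkS lk2 1 3 [(1, m2_9)] l2_15
  [(175, 1, 1, 70649121, 69619971), (206, 16, 16, 102838356, 101725506)]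
  [(175, 6), (206, -6)] = true := by
  decide +kernel

theorem t2_9_16 : chkS lk2 1 3 [(1, m2_9)] l2_16
  [(77, 1, 1, 104137746, 105009171), (182, 1, 1, 104137761, 105009411), (77, 1, 1, 104137761, 105009411), (182, 1, 1, 104137746, 105009171), (203, 1, 1, 106169121, 106176771), (203, 1, 1, 106169106, 106176531)]
  [(77, 6), (203, -6)] = true := by
  decide +kernel

theorem t2_9_17 : chkS lk2 1 3 [(1, m2_9)] l2_17
  [(107, 1, 1, 104137761, 105009411), (204, 16, 16, 102838356, 101725506)]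
  [(107, 6), (204, -6)] = true := by
  decide +kernel

theorem t2_9_18 : chkS lk2 1 3 [(1, m2_9)] l2_18
  [(176, 1, 1, 70649121, 69619971), (177, 1, 1, 70649121, 69619971), (176, 1, 1, 70649106, 69619731), (177, 1, 1, 70649106, 69619731), (205, 16, 16, 102838341, 100742466), (205, 16, 16, 102838356, 101725506)]
  [(176, 6), (205, -6)] = true := by
  decide +kernel

theorem t2_9_19 : chkS lk2 1 3 [(1, m2_9)] l2_19
  [(177, 1, 1, 70649121, 69619971), (176, 1, 1, 70649121, 69619971), (177, 1, 1, 70649106, 69619731), (176, 1, 1, 70649106, 69619731), (205, 16, 16, 102838356, 101725506), (205, 16, 16, 102838341, 100742466)]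
  [(177, 6), (205, -6)] = true := by
  decide +kernel

theorem t2_9_20 : chkS lk2 1 3 [(1, m2_9)] l2_20
  [(187, 1, 1, 3474465, 4346115), (59, 16, 16, 1262160, 1262160), (187, 1, 1, 3474450, 4345875), (59, 16, 16, 1262085, 213585), (207, 1, 1, 5505810, 5513235), (207, 1, 1, 5505825, 5513475)]
  [(187, 6), (207, -6)] = true := by
  decide +kernel

theorem t2_9_21 : chkS lk2 1 3 [(1, m2_9)] l2_21
  [(55, 16, 16, 1262160, 1262160), (208, 16, 16, 2175060, 1062210)]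
  [(55, 6), (208, -6)] = true := by
  decide +kernel

theorem t2_9_22 : chkS lk2 1 3 [(1, m2_9)] l2_22
  [(59, 16, 16, 1262160, 1262160), (187, 1, 1, 3474465, 4346115), (59, 16, 16, 1262085, 213585), (187, 1, 1, 3474450, 4345875), (207, 1, 1, 5505825, 5513475), (207, 1, 1, 5505810, 5513235)]
  [(59, 6), (207, -6)] = true := by
  decide +kernel

theorem t2_9_23 : chkS lk2 1 3 [(1, m2_9)] l2_23
  [(190, 1, 1, 3409185, 2380035), (209, 16, 16, 2175045, 79170)]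
  [(190, 6), (209, -6)] = true := by
  decide +kernel

theorem t2_9_24 : chkS lk2 1 3 [(1, m2_9)] l2_24
  [(70, 1, 1, 106169121, 106176771), (31, 1, 1, 106107396, 105923121)]
  [(31, -6), (70, 6)] = true := by
  decide +kernel

theorem t2_9_25 : chkS lk2 1 3 [(1, m2_9)] l2_25
  [(68, 1, 1, 56951841, 88236291), (80, 16, 16, 105984036, 105918786)]
  [(68, 6), (80, -6)] = true := by
  decide +kernel

theorem t2_9_26 : chkS lk2 1 3 [(1, m2_9)] l2_26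
  [(69, 1, 1, 3474465, 4346115), (81, 16, 16, 5320740, 5255490)]
  [(69, 6), (81, -6)] = true := by
  decide +kernel

theorem t2_9_27 : chkS lk2 1 3 [(1, m2_9)] l2_27
  [(71, 1, 1, 262945, 270595), (22, 1, 1, 201220, 16945)]
  [(22, -6), (71, 6)] = true := by
  decide +kernel

theorem t2_9_28 : chkS lk2 1 3 [(1, m2_9)] l2_28
  [(279, 1, 1, 5509920, 5513520), (280, 1, 1, 5509920, 5513520)]
  [(279, 6), (280, -6)] = true := by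
  decide +kernel

theorem t2_10_10 : chkS lk2 1 3 [(1, m2_10)] l2_10
  [(213, 258, 33, 106176771, 106169121), (231, 528, 528, 52495716, 18900291)]
  [(213, 6), (231, -6)] = true := by
  decide +kernel

theorem t2_10_11 : chkS lk2 1 3 [(1, m2_10)] l2_11
  [(28, 1, 1, 106038321, 106042371), (8, 1, 1, 70387281, 35017731)]
  [(8, -6), (28, 6)] = true := by
  decide +kernel

theorem t2_10_12 : chkS lk2 1 3 [(1, m2_10)] l2_12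
  [(237, 16, 16, 36767316, 34625091), (235, 1, 1, 106169121, 106176771)]
  [(235, -6), (237, 6)] = true := by
  decide +kernel

theorem t2_10_13 : chkS lk2 1 3 [(1, m2_10)] l2_13
  [(234, 16, 16, 52495956, 34628931), (236, 16, 16, 52495716, 18900291)]
  [(234, 6), (236, -6)] = true := by
  decide +kernel

theorem t2_10_14 : chkS lk2 1 3 [(1, m2_10)] l2_14
  [(91, 16, 16, 102827331, 102827331), (91, 16, 16, 102827091, 101844291), (241, 1, 1, 105193731, 105186081), (238, 1, 1, 106169121, 106176771), (241, 1, 1, 105193491, 105186066), (238, 1, 1, 106168881, 106172931)]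
  [(91, 6), (238, -6), (241, 0)] = true := by
  decide +kernel

theorem t2_10_15 : chkS lk2 1 3 [(1, m2_10)] l2_15
  [(32, 1, 1, 102962496, 102843696), (242, 16, 16, 103875156, 101732931)]
  [(32, 6), (242, -6)] = true := by
  decide +kernel

theorem t2_10_16 : chkS lk2 1 3 [(1, m2_10)] l2_16
  [(91, 16, 16, 102827091, 101844291), (91, 16, 16, 102827331, 102827331), (238, 1, 1, 106169121, 106176771), (241, 1, 1, 105193731, 105186081), (238, 1, 1, 106168881, 106172931), (241, 1, 1, 105193491, 105186066)]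
  [(91, 6), (241, -6)] = true := by
  decide +kernel

theorem t2_10_17 : chkS lk2 1 3 [(1, m2_10)] l2_17
  [(90, 16, 16, 102827331, 102827331), (239, 16, 16, 103875156, 101732931)]
  [(90, 6), (239, -6)] = true := by
  decide +kernel

theorem t2_10_18 : chkS lk2 1 3 [(1, m2_10)] l2_18
  [(92, 16, 16, 102827331, 102827331), (92, 16, 16, 102827091, 101844291), (243, 16, 16, 103875876, 102781251), (240, 16, 16, 103875876, 102781251), (243, 16, 16, 103875156, 101732931), (240, 16, 16, 103875156, 101732931)]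
  [(92, 6), (240, -6), (243, 0)] = true := by
  decide +kernel

theorem t2_10_19 : chkS lk2 1 3 [(1, m2_10)] l2_19
  [(92, 16, 16, 102827091, 101844291), (92, 16, 16, 102827331, 102827331), (240, 16, 16, 103875876, 102781251), (243, 16, 16, 103875876, 102781251), (240, 16, 16, 103875156, 101732931), (243, 16, 16, 103875156, 101732931)]
  [(92, 6), (243, -6)] = true := by
  decide +kernel

theorem t2_10_20 : chkS lk2 1 3 [(1, m2_10)] l2_20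
  [(54, 1, 1, 2299200, 2180400), (54, 1, 1, 2298960, 1197360), (56, 1, 1, 3474465, 4346115), (244, 1, 1, 5505825, 5513475), (56, 1, 1, 3473985, 4280835), (244, 1, 1, 5505585, 5509635)]
  [(54, 6), (244, -6)] = true := by
  decide +kernel

theorem t2_10_21 : chkS lk2 1 3 [(1, m2_10)] l2_21
  [(53, 1, 1, 2299200, 2180400), (57, 1, 1, 4522545, 4526595)]
  [(53, 6), (57, -6)] = true := by
  decide +kernel

theorem t2_10_22 : chkS lk2 1 3 [(1, m2_10)] l2_22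
  [(54, 1, 1, 2298960, 1197360), (54, 1, 1, 2299200, 2180400), (244, 1, 1, 5505825, 5513475), (56, 1, 1, 3474465, 4346115), (244, 1, 1, 5505585, 5509635), (56, 1, 1, 3473985, 4280835)]
  [(54, 6), (56, -6), (244, 0)] = true := by
  decide +kernel

theorem t2_10_23 : chkS lk2 1 3 [(1, m2_10)] l2_23
  [(93, 16, 16, 2164035, 2164035), (245, 16, 16, 3211860, 1069635)]
  [(93, 6), (245, -6)] = true := by
  decide +kernel

theorem t2_10_24 : chkS lk2 1 3 [(1, m2_10)] l2_24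
  [(33, 1, 1, 106173216, 106176816), (18, 1, 1, 106038321, 106042371)]
  [(18, -6), (33, 6)] = true := by
  decide +kernel

theorem t2_10_25 : chkS lk2 1 3 [(1, m2_10)] l2_25
  [(94, 16, 16, 105972771, 106037571), (104, 16, 16, 106111236, 105923361)]
  [(94, 6), (104, -6)] = true := by
  decide +kernel

theorem t2_10_26 : chkS lk2 1 3 [(1, m2_10)] l2_26
  [(58, 1, 1, 5509920, 5513520), (105, 16, 16, 5447940, 5260065)]
  [(58, 6), (105, -6)] = true := by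
  decide +kernel

theorem t2_10_27 : chkS lk2 1 3 [(1, m2_10)] l2_27
  [(23, 1, 1, 267040, 270640), (5, 1, 1, 132145, 136195)]
  [(5, -6), (23, 6)] = true := by
  decide +kernel

theorem t2_10_28 : chkS lk2 1 3 [(1, m2_10)] l2_28
  [(29, 1, 1, 5505825, 5513475), (281, 1, 1, 5509680, 5509680)]
  [(29, 6), (281, -6)] = true := by
  decide +kernel

theorem t2_11_11 : chkS lk2 1 3 [(1, m2_11)] l2_11
  [(282, 0, 0, 105972786, 106041411), (137, 0, 0, 88147491, 40173891)]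
  [(137, -6), (282, 6)] = true := by
  decide +kernel

theorem t2_11_12 : chkS lk2 1 3 [(1, m2_11)] l2_12
  [(283, 0, 0, 105972786, 106041411), (130, 0, 0, 1393206, 4395606)]
  [(130, -6), (283, 6)] = true := by
  decide +kernel

theorem t2_11_13 : chkS lk2 1 3 [(1, m2_11)] l2_13
  [(122, 0, 0, 17122866, 37949541), (15, 0, 0, 16983141, 16925541)]
  [(15, -6), (122, 6)] = true := by
  decide +kernel

theorem t2_11_14 : chkS lk2 1 3 [(1, m2_11)] l2_14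
  [(283, 0, 0, 56689701, 84042051), (130, 0, 0, 51725856, 37970256), (283, 0, 0, 56689746, 85090371), (130, 0, 0, 51725826, 37970001), (122, 0, 0, 33898851, 21169701), (122, 0, 0, 33898806, 4396581)]
  [(122, -6), (283, 6)] = true := by
  decide +kernel

theorem t2_11_15 : chkS lk2 1 3 [(1, m2_11)] l2_15
  [(130, 0, 0, 33900081, 37950981), (15, 0, 0, 67314021, 17187621)]
  [(15, -6), (130, 6)] = true := by
  decide +kernel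

theorem t2_11_16 : chkS lk2 1 3 [(1, m2_11)] l2_16
  [(130, 0, 0, 51725856, 37970256), (283, 0, 0, 56689701, 84042051), (130, 0, 0, 51725826, 37970001), (283, 0, 0, 56689746, 85090371), (122, 0, 0, 33898806, 4396581), (122, 0, 0, 33898851, 21169701)]
  [(122, -6), (130, 6), (283, 0)] = true := by
  decide +kernel

theorem t2_11_17 : chkS lk2 1 3 [(1, m2_11)] l2_17
  [(122, 0, 0, 51725856, 37970256), (284, 0, 0, 105972786, 106041411)]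
  [(122, 6), (284, -6)] = true := by
  decide +kernel

theorem t2_11_18 : chkS lk2 1 3 [(1, m2_11)] l2_18
  [(130, 0, 0, 101007921, 105058821), (115, 0, 0, 102056736, 105062736), (130, 0, 0, 101007891, 105054741), (115, 0, 0, 102056706, 105062481), (122, 0, 0, 101007651, 105054501), (122, 0, 0, 101007666, 105058341)]
  [(122, -6), (130, 6)] = true := by
  decide +kernel

theorem t2_11_19 : chkS lk2 1 3 [(1, m2_11)] l2_19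
  [(115, 0, 0, 102056736, 105062736), (130, 0, 0, 101007921, 105058821), (115, 0, 0, 102056706, 105062481), (130, 0, 0, 101007891, 105054741), (122, 0, 0, 101007666, 105058341), (122, 0, 0, 101007651, 105054501)]
  [(115, 6), (122, -6), (130, 0)] = true := by
  decide +kernel

theorem t2_11_20 : chkS lk2 1 3 [(1, m2_11)] l2_20
  [(116, 0, 0, 1393440, 4399440), (131, 0, 0, 1393440, 4399440), (116, 0, 0, 1393410, 4399185), (131, 0, 0, 1393410, 4399185), (43, 0, 0, 205140, 1065765), (43, 0, 0, 205125, 82725)]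
  [(43, -6), (116, 6), (131, 0)] = true := by
  decide +kernel

theorem t2_11_21 : chkS lk2 1 3 [(1, m2_11)] l2_21
  [(43, 0, 0, 1254720, 2179920), (45, 0, 0, 1253460, 1065810)]
  [(43, 6), (45, -6)] = true := by
  decide +kernel

theorem t2_11_22 : chkS lk2 1 3 [(1, m2_11)] l2_22
  [(131, 0, 0, 1393440, 4399440), (116, 0, 0, 1393440, 4399440), (131, 0, 0, 1393410, 4399185), (116, 0, 0, 1393410, 4399185), (43, 0, 0, 205125, 82725), (43, 0, 0, 205140, 1065765)]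
  [(43, -6), (131, 6)] = true := by
  decide +kernel

theorem t2_11_23 : chkS lk2 1 3 [(1, m2_11)] l2_23
  [(285, 0, 0, 5309490, 5378115), (12, 0, 0, 205140, 1065765)]
  [(12, -6), (285, 6)] = true := by
  decide +kernel

theorem t2_11_24 : chkS lk2 1 3 [(1, m2_11)] l2_24
  [(282, 0, 0, 52495461, 16934211), (15, 0, 0, 106111236, 105923361)]
  [(15, -6), (282, 6)] = true := by
  decide +kernel

theorem t2_11_25 : chkS lk2 1 3 [(1, m2_11)] l2_25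
  [(137, 0, 0, 52495956, 34628931), (122, 0, 0, 104153346, 105074721)]
  [(122, -6), (137, 6)] = true := by
  decide +kernel

theorem t2_11_26 : chkS lk2 1 3 [(1, m2_11)] l2_26
  [(138, 0, 0, 3211860, 1069635), (43, 0, 0, 5447940, 5260065)]
  [(43, -6), (138, 6)] = true := by
  decide +kernel

theorem t2_11_27 : chkS lk2 1 3 [(1, m2_11)] l2_27
  [(140, 0, 0, 66115, 66115), (21, 0, 0, 205060, 17185)]
  [(21, -6), (140, 6)] = true := by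
  decide +kernel

theorem t2_11_28 : chkS lk2 1 3 [(1, m2_11)] l2_28
  [(286, 0, 0, 5309490, 5378115), (139, 0, 0, 2163525, 75075)]
  [(139, -6), (286, 6)] = true := by
  decide +kernel

theorem t2_12_12 : chkS lk2 1 3 [(1, m2_12)] l2_12
  [(287, 0, 0, 105972786, 106041411), (129, 0, 0, 72418866, 39194691)]
  [(129, -6), (287, 6)] = true := by
  decide +kernel

theorem t2_12_13 : chkS lk2 1 3 [(1, m2_12)] l2_13
  [(125, 0, 0, 17053266, 34877541), (288, 0, 0, 105972786, 106041411)]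
  [(125, 6), (288, -6)] = true := by
  decide +kernel

theorem t2_12_14 : chkS lk2 1 3 [(1, m2_12)] l2_14
  [(289, 0, 0, 105972786, 106041411), (133, 0, 0, 88086051, 40173876), (289, 0, 0, 105911331, 106037556), (133, 0, 0, 88147506, 40177731), (121, 0, 0, 33837411, 20186661), (121, 0, 0, 33898806, 4396581)]
  [(121, -6), (289, 6)] = true := by
  decide +kernel

theorem t2_12_15 : chkS lk2 1 3 [(1, m2_12)] l2_15
  [(133, 0, 0, 33830481, 34878981), (288, 0, 0, 72418866, 39194691)]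
  [(133, 6), (288, -6)] = true := by
  decide +kernel

theorem t2_12_16 : chkS lk2 1 3 [(1, m2_12)] l2_16
  [(133, 0, 0, 88086051, 40173876), (289, 0, 0, 105972786, 106041411), (133, 0, 0, 88147506, 40177731), (289, 0, 0, 105911331, 106037556), (121, 0, 0, 33898806, 4396581), (121, 0, 0, 33837411, 20186661)]
  [(121, -6), (133, 6), (289, 0)] = true := by
  decide +kernel

theorem t2_12_17 : chkS lk2 1 3 [(1, m2_12)] l2_17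
  [(290, 0, 0, 105972786, 106041411), (291, 0, 0, 105972786, 106041411)]
  [(290, 6), (291, -6)] = true := by
  decide +kernel

theorem t2_12_18 : chkS lk2 1 3 [(1, m2_12)] l2_18
  [(133, 0, 0, 100938321, 101986821), (292, 0, 0, 105972786, 106041411), (133, 0, 0, 100876821, 100876821), (292, 0, 0, 105911331, 106037556), (125, 0, 0, 100876581, 100876581), (125, 0, 0, 100938066, 101986341)]
  [(125, -6), (133, 6), (292, 0)] = true := by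
  decide +kernel

theorem t2_12_19 : chkS lk2 1 3 [(1, m2_12)] l2_19
  [(292, 0, 0, 105972786, 106041411), (133, 0, 0, 100938321, 101986821), (292, 0, 0, 105911331, 106037556), (133, 0, 0, 100876821, 100876821), (125, 0, 0, 100938066, 101986341), (125, 0, 0, 100876581, 100876581)]
  [(125, -6), (292, 6)] = true := by
  decide +kernel

theorem t2_12_20 : chkS lk2 1 3 [(1, m2_12)] l2_20
  [(293, 0, 0, 5309490, 5378115), (134, 0, 0, 4199715, 2425140), (293, 0, 0, 5248035, 5374260), (134, 0, 0, 4261170, 2428995), (126, 0, 0, 274770, 1323045), (126, 0, 0, 213285, 213285)]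
  [(126, -6), (293, 6)] = true := by
  decide +kernel

theorem t2_12_21 : chkS lk2 1 3 [(1, m2_12)] l2_21
  [(141, 0, 0, 1254720, 2179920), (294, 0, 0, 5309490, 5378115)]
  [(141, 6), (294, -6)] = true := by
  decide +kernel

theorem t2_12_22 : chkS lk2 1 3 [(1, m2_12)] l2_22
  [(134, 0, 0, 4199715, 2425140), (293, 0, 0, 5309490, 5378115), (134, 0, 0, 4261170, 2428995), (293, 0, 0, 5248035, 5374260), (126, 0, 0, 213285, 213285), (126, 0, 0, 274770, 1323045)]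
  [(126, -6), (134, 6), (293, 0)] = true := by
  decide +kernel

theorem t2_12_23 : chkS lk2 1 3 [(1, m2_12)] l2_23
  [(295, 0, 0, 5309490, 5378115), (296, 0, 0, 5309490, 5378115)]
  [(295, 6), (296, -6)] = true := by
  decide +kernel

theorem t2_12_24 : chkS lk2 1 3 [(1, m2_12)] l2_24
  [(297, 0, 0, 105972786, 106041411), (132, 0, 0, 105972786, 106041411)]
  [(132, -6), (297, 6)] = true := by
  decide +kernel

theorem t2_12_25 : chkS lk2 1 3 [(1, m2_12)] l2_25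
  [(298, 0, 0, 105972786, 106041411), (290, 0, 0, 73405731, 86376756)]
  [(290, -6), (298, 6)] = true := by
  decide +kernel

theorem t2_12_26 : chkS lk2 1 3 [(1, m2_12)] l2_26
  [(299, 0, 0, 5309490, 5378115), (141, 0, 0, 5386500, 5256225)]
  [(141, -6), (299, 6)] = true := by
  decide +kernel

theorem t2_12_27 : chkS lk2 1 3 [(1, m2_12)] l2_27
  [(300, 0, 0, 66610, 135235), (135, 0, 0, 66610, 135235)]
  [(135, -6), (300, 6)] = true := by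
  decide +kernel

theorem t2_12_28 : chkS lk2 1 3 [(1, m2_12)] l2_28
  [(301, 0, 0, 5309490, 5378115), (302, 0, 0, 5309490, 5378115)]
  [(301, 6), (302, -6)] = true := by
  decide +kernel

theorem t2_13_13 : chkS lk2 1 3 [(1, m2_13)] l2_13
  [(124, 0, 0, 70321746, 35016771), (120, 0, 0, 88147506, 40177731)]
  [(120, -6), (124, 6)] = true := by
  decide +kernel

theorem t2_13_14 : chkS lk2 1 3 [(1, m2_13)] l2_14
  [(290, 0, 0, 51717216, 21128016), (290, 0, 0, 51717696, 37839696), (121, 0, 0, 55641666, 38887491), (288, 0, 0, 51794436, 70279761), (121, 0, 0, 55641186, 22175811), (288, 0, 0, 51793956, 70279506)]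
  [(288, -6), (290, 6)] = true := by
  decide +kernel

theorem t2_13_15 : chkS lk2 1 3 [(1, m2_13)] l2_15
  [(132, 0, 0, 33830481, 34878981), (121, 0, 0, 104924466, 103092291)]
  [(121, -6), (132, 6)] = true := by
  decide +kernel

theorem t2_13_16 : chkS lk2 1 3 [(1, m2_13)] l2_16
  [(290, 0, 0, 51717696, 37839696), (290, 0, 0, 51717216, 21128016), (288, 0, 0, 51794436, 70279761), (121, 0, 0, 55641666, 38887491), (288, 0, 0, 51793956, 70279506), (121, 0, 0, 55641186, 22175811)]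
  [(121, -6), (290, 6)] = true := by
  decide +kernel

theorem t2_13_17 : chkS lk2 1 3 [(1, m2_13)] l2_17
  [(304, 0, 0, 105972786, 106041411), (120, 0, 0, 55641186, 22175811)]
  [(120, -6), (304, 6)] = true := by
  decide +kernel

theorem t2_13_18 : chkS lk2 1 3 [(1, m2_13)] l2_18
  [(290, 0, 0, 68494176, 21373776), (290, 0, 0, 68494896, 38146896), (113, 0, 0, 51724806, 4416081), (125, 0, 0, 103875906, 102846531), (113, 0, 0, 51724326, 4415826), (125, 0, 0, 103875666, 101863491)]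
  [(125, -6), (290, 6)] = true := by
  decide +kernel

theorem t2_13_19 : chkS lk2 1 3 [(1, m2_13)] l2_19
  [(290, 0, 0, 68494896, 38146896), (290, 0, 0, 68494176, 21373776), (125, 0, 0, 103875906, 102846531), (113, 0, 0, 51724806, 4416081), (125, 0, 0, 103875666, 101863491), (113, 0, 0, 51724326, 4415826)]
  [(113, -6), (290, 6)] = true := by
  decide +kernel

theorem t2_13_20 : chkS lk2 1 3 [(1, m2_13)] l2_20
  [(141, 0, 0, 3212610, 2183235), (141, 0, 0, 3212370, 1200195), (126, 0, 0, 3212610, 2183235), (117, 0, 0, 1393155, 4391505), (126, 0, 0, 3212370, 1200195), (117, 0, 0, 1392675, 4391250)]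
  [(117, -6), (141, 6)] = true := by
  decide +kernel

theorem t2_13_21 : chkS lk2 1 3 [(1, m2_13)] l2_21
  [(49, 0, 0, 3212610, 2183235), (123, 0, 0, 5309490, 5378115)]
  [(49, 6), (123, -6)] = true := by
  decide +kernel

theorem t2_13_22 : chkS lk2 1 3 [(1, m2_13)] l2_22
  [(141, 0, 0, 3212370, 1200195), (141, 0, 0, 3212610, 2183235), (117, 0, 0, 1393155, 4391505), (126, 0, 0, 3212610, 2183235), (117, 0, 0, 1392675, 4391250), (126, 0, 0, 3212370, 1200195)]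
  [(126, -6), (141, 6)] = true := by
  decide +kernel

theorem t2_13_23 : chkS lk2 1 3 [(1, m2_13)] l2_23
  [(305, 0, 0, 5309490, 5378115), (306, 0, 0, 5309250, 5316675)]
  [(305, 6), (306, -6)] = true := by
  decide +kernel

theorem t2_13_24 : chkS lk2 1 3 [(1, m2_13)] l2_24
  [(132, 0, 0, 106181121, 106181121), (15, 0, 0, 105972516, 105914691)]
  [(15, -6), (132, 6)] = true := by
  decide +kernel

theorem t2_13_25 : chkS lk2 1 3 [(1, m2_13)] l2_25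
  [(290, 0, 0, 73736976, 88482576), (122, 0, 0, 103875906, 102846531)]
  [(122, -6), (290, 6)] = true := by
  decide +kernel

theorem t2_13_26 : chkS lk2 1 3 [(1, m2_13)] l2_26
  [(141, 0, 0, 5309490, 5378115), (43, 0, 0, 5309220, 5251395)]
  [(43, -6), (141, 6)] = true := by
  decide +kernel

theorem t2_13_27 : chkS lk2 1 3 [(1, m2_13)] l2_27
  [(135, 0, 0, 274945, 274945), (21, 0, 0, 66340, 8515)]
  [(21, -6), (135, 6)] = true := by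
  decide +kernel

theorem t2_13_28 : chkS lk2 1 3 [(1, m2_13)] l2_28
  [(128, 0, 0, 3212610, 2183235), (307, 0, 0, 5309250, 5316675)]
  [(128, 6), (307, -6)] = true := by
  decide +kernel

theorem t2_14_14 : chkS lk2 1 3 [(1, m2_14)] l2_14
  [(308, 0, 0, 106042416, 106042416), (147, 0, 0, 88217136, 40178736), (287, 0, 0, 38999136, 22169136), (125, 0, 0, 88213041, 40178691), (125, 0, 0, 33898851, 21169701), (120, 0, 0, 104990001, 103093251)]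
  [(120, -4), (125, -4), (147, 2), (287, 2), (308, 4)] = true := by
  decide +kernel

theorem t2_14_15 : chkS lk2 1 3 [(1, m2_14)] l2_15
  [(309, 0, 0, 106042416, 106042416), (288, 0, 0, 72554016, 39207216)]
  [(288, -6), (309, 6)] = true := by
  decide +kernel

theorem t2_14_16 : chkS lk2 1 3 [(1, m2_14)] l2_16
  [(147, 0, 0, 88217136, 40178736), (308, 0, 0, 106042416, 106042416), (125, 0, 0, 88213041, 40178691), (287, 0, 0, 38999136, 22169136), (120, 0, 0, 104990001, 103093251), (125, 0, 0, 33898851, 21169701)]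
  [(120, -2), (125, -2), (147, 4), (287, -2), (308, 2)] = true := by
  decide +kernel

theorem t2_14_17 : chkS lk2 1 3 [(1, m2_14)] l2_17
  [(310, 0, 0, 106042416, 106042416), (291, 0, 0, 38999136, 22169136)]
  [(291, -6), (310, 6)] = true := by
  decide +kernel

theorem t2_14_18 : chkS lk2 1 3 [(1, m2_14)] l2_18
  [(309, 0, 0, 72488496, 39195696), (311, 0, 0, 106042416, 106042416), (129, 0, 0, 37951056, 34948656), (292, 0, 0, 102962256, 101860656), (121, 0, 0, 100880676, 103825701), (290, 0, 0, 69408096, 19285296)]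
  [(121, -2), (129, 2), (290, -4), (292, -2), (309, 4), (311, 2)] = true := by
  decide +kernel

theorem t2_14_19 : chkS lk2 1 3 [(1, m2_14)] l2_19
  [(311, 0, 0, 106042416, 106042416), (309, 0, 0, 72488496, 39195696), (292, 0, 0, 102962256, 101860656), (129, 0, 0, 37951056, 34948656), (290, 0, 0, 69408096, 19285296), (121, 0, 0, 100880676, 103825701)]
  [(121, -4), (129, -2), (290, -2), (292, 2), (309, 2), (311, 4)] = true := by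
  decide +kernel

theorem t2_14_20 : chkS lk2 1 3 [(1, m2_14)] l2_20
  [(312, 0, 0, 5379120, 5379120), (148, 0, 0, 4330800, 2430000), (293, 0, 0, 2298960, 1197360), (126, 0, 0, 4326705, 2429955), (141, 0, 0, 274770, 1323045), (123, 0, 0, 4326705, 2429955)]
  [(123, -4), (126, -2), (141, -2), (148, 2), (293, 2), (312, 4)] = true := by
  decide +kernel

theorem t2_14_21 : chkS lk2 1 3 [(1, m2_14)] l2_21
  [(313, 0, 0, 5379120, 5379120), (294, 0, 0, 5444640, 5390640)]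
  [(294, -6), (313, 6)] = true := by
  decide +kernel

theorem t2_14_22 : chkS lk2 1 3 [(1, m2_14)] l2_22
  [(148, 0, 0, 4330800, 2430000), (312, 0, 0, 5379120, 5379120), (126, 0, 0, 4326705, 2429955), (293, 0, 0, 2298960, 1197360), (123, 0, 0, 4326705, 2429955), (141, 0, 0, 274770, 1323045)]
  [(123, -2), (126, 2), (141, -4), (148, 4), (293, -2), (312, 2)] = true := by
  decide +kernel

theorem t2_14_23 : chkS lk2 1 3 [(1, m2_14)] l2_23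
  [(314, 0, 0, 5379120, 5379120), (316, 0, 0, 5379120, 5379120)]
  [(314, 6), (316, -6)] = true := by
  decide +kernel

theorem t2_14_24 : chkS lk2 1 3 [(1, m2_14)] l2_24
  [(317, 0, 0, 106042416, 106042416), (124, 0, 0, 106038321, 106042371)]
  [(124, -6), (317, 6)] = true := by
  decide +kernel

theorem t2_14_25 : chkS lk2 1 3 [(1, m2_14)] l2_25
  [(318, 0, 0, 106042416, 106042416), (125, 0, 0, 106049796, 105919521)]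
  [(125, -6), (318, 6)] = true := by
  decide +kernel

theorem t2_14_26 : chkS lk2 1 3 [(1, m2_14)] l2_26
  [(319, 0, 0, 5379120, 5379120), (126, 0, 0, 5386500, 5256225)]
  [(126, -6), (319, 6)] = true := by
  decide +kernel

theorem t2_14_27 : chkS lk2 1 3 [(1, m2_14)] l2_27
  [(320, 0, 0, 136240, 136240), (127, 0, 0, 132145, 136195)]
  [(127, -6), (320, 6)] = true := by
  decide +kernel

theorem t2_14_28 : chkS lk2 1 3 [(1, m2_14)] l2_28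
  [(301, 0, 0, 3277905, 1201155), (322, 0, 0, 5379120, 5379120)]
  [(301, 6), (322, -6)] = true := by
  decide +kernel

theorem t2_15_15 : chkS lk2 1 3 [(1, m2_15)] l2_15
  [(324, 0, 0, 106042416, 106042416), (129, 0, 0, 104990001, 103093251)]
  [(129, -6), (324, 6)] = true := by
  decide +kernel

theorem t2_15_16 : chkS lk2 1 3 [(1, m2_15)] l2_16
  [(309, 0, 0, 35017536, 70329936), (309, 0, 0, 35017776, 70391376), (288, 0, 0, 51663366, 3433041), (129, 0, 0, 55707201, 38888451), (288, 0, 0, 51662886, 3432786), (129, 0, 0, 55706721, 22176771)]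
  [(129, -6), (309, 6)] = true := by
  decide +kernel

theorem t2_15_17 : chkS lk2 1 3 [(1, m2_15)] l2_17
  [(325, 0, 0, 106042416, 106042416), (121, 0, 0, 51789861, 67330386)]
  [(121, -6), (325, 6)] = true := by
  decide +kernel

theorem t2_15_18 : chkS lk2 1 3 [(1, m2_15)] l2_18
  [(309, 0, 0, 68571696, 70652496), (309, 0, 0, 68571936, 70656336), (114, 0, 0, 101929476, 103826001), (133, 0, 0, 103941441, 102847491), (114, 0, 0, 101928996, 103825746), (133, 0, 0, 103941201, 101864451)]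
  [(133, -6), (309, 6)] = true := by
  decide +kernel

theorem t2_15_19 : chkS lk2 1 3 [(1, m2_15)] l2_19
  [(309, 0, 0, 68571936, 70656336), (309, 0, 0, 68571696, 70652496), (133, 0, 0, 103941441, 102847491), (114, 0, 0, 101929476, 103826001), (133, 0, 0, 103941201, 101864451), (114, 0, 0, 101928996, 103825746)]
  [(114, -6), (309, 6)] = true := by
  decide +kernel

theorem t2_15_20 : chkS lk2 1 3 [(1, m2_15)] l2_20
  [(148, 0, 0, 1393440, 4399440), (148, 0, 0, 1393200, 4395600), (134, 0, 0, 3278145, 2184195), (117, 0, 0, 1262085, 213585), (134, 0, 0, 3277905, 1201155), (117, 0, 0, 1261605, 213330)]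
  [(117, -6), (148, 6)] = true := by
  decide +kernel

theorem t2_15_21 : chkS lk2 1 3 [(1, m2_15)] l2_21
  [(46, 0, 0, 2299200, 2180400), (126, 0, 0, 1392675, 4391250)]
  [(46, 6), (126, -6)] = true := by
  decide +kernel

theorem t2_15_22 : chkS lk2 1 3 [(1, m2_15)] l2_22
  [(148, 0, 0, 1393200, 4395600), (148, 0, 0, 1393440, 4399440), (117, 0, 0, 1262085, 213585), (134, 0, 0, 3278145, 2184195), (117, 0, 0, 1261605, 213330), (134, 0, 0, 3277905, 1201155)]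
  [(134, -6), (148, 6)] = true := by
  decide +kernel

theorem t2_15_23 : chkS lk2 1 3 [(1, m2_15)] l2_23
  [(326, 0, 0, 5379120, 5379120), (327, 0, 0, 5378880, 5317680)]
  [(326, 6), (327, -6)] = true := by
  decide +kernel

theorem t2_15_24 : chkS lk2 1 3 [(1, m2_15)] l2_24
  [(324, 0, 0, 70391376, 35017776), (15, 0, 0, 106169121, 106176771)]
  [(15, -6), (324, 6)] = true := by
  decide +kernel

theorem t2_15_25 : chkS lk2 1 3 [(1, m2_15)] l2_25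
  [(309, 0, 0, 70668816, 70668816), (130, 0, 0, 103941441, 102847491)]
  [(130, -6), (309, 6)] = true := by
  decide +kernel

theorem t2_15_26 : chkS lk2 1 3 [(1, m2_15)] l2_26
  [(148, 0, 0, 3490320, 4411920), (131, 0, 0, 2299200, 2180400)]
  [(131, -6), (148, 6)] = true := by
  decide +kernel

theorem t2_15_27 : chkS lk2 1 3 [(1, m2_15)] l2_27
  [(149, 0, 0, 136240, 136240), (21, 0, 0, 262945, 270595)]
  [(21, -6), (149, 6)] = true := by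
  decide +kernel

theorem t2_15_28 : chkS lk2 1 3 [(1, m2_15)] l2_28
  [(136, 0, 0, 3278145, 2184195), (328, 0, 0, 5378880, 5317680)]
  [(136, 6), (328, -6)] = true := by
  decide +kernel

theorem t2_16_16 : chkS lk2 1 3 [(1, m2_16)] l2_16
  [(308, 0, 0, 106042176, 105980976), (147, 0, 0, 88216416, 23405616), (120, 0, 0, 104989521, 102048771), (125, 0, 0, 33900051, 37946901), (125, 0, 0, 88212321, 23405571), (287, 0, 0, 38999616, 38880816)]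
  [(120, 2), (125, -4), (147, 2), (287, -4), (308, 4)] = true := by
  decide +kernel

theorem t2_16_17 : chkS lk2 1 3 [(1, m2_16)] l2_17
  [(310, 0, 0, 106042176, 105980976), (125, 0, 0, 85078116, 23082066)]
  [(125, -6), (310, 6)] = true := by
  decide +kernel

theorem t2_16_18 : chkS lk2 1 3 [(1, m2_16)] l2_18
  [(311, 0, 0, 106042176, 105980976), (309, 0, 0, 72487776, 22422576), (121, 0, 0, 100880916, 103825941), (290, 0, 0, 69408336, 35013936), (129, 0, 0, 37950816, 19220016), (292, 0, 0, 102962496, 102843696)]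
  [(121, 2), (129, -2), (290, -2), (292, -4), (309, 2), (311, 4)] = true := by
  decide +kernel

theorem t2_16_19 : chkS lk2 1 3 [(1, m2_16)] l2_19
  [(309, 0, 0, 72487776, 22422576), (311, 0, 0, 106042176, 105980976), (290, 0, 0, 69408336, 35013936), (121, 0, 0, 100880916, 103825941), (292, 0, 0, 102962496, 102843696), (129, 0, 0, 37950816, 19220016)]
  [(121, -2), (129, -4), (290, 2), (292, -2), (309, 4), (311, 2)] = true := by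
  decide +kernel

theorem t2_16_20 : chkS lk2 1 3 [(1, m2_16)] l2_20
  [(148, 0, 0, 4330320, 1385520), (312, 0, 0, 5378880, 5317680), (141, 0, 0, 275730, 2371605), (123, 0, 0, 4326225, 1385475), (293, 0, 0, 2299200, 2180400), (126, 0, 0, 4326225, 1385475)]
  [(123, -2), (126, -4), (141, 2), (148, 4), (293, -2), (312, 2)] = true := by
  decide +kernel

theorem t2_16_21 : chkS lk2 1 3 [(1, m2_16)] l2_21
  [(313, 0, 0, 5378880, 5317680), (126, 0, 0, 1192020, 1061970)]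
  [(126, -6), (313, 6)] = true := by
  decide +kernel

theorem t2_16_22 : chkS lk2 1 3 [(1, m2_16)] l2_22
  [(312, 0, 0, 5378880, 5317680), (148, 0, 0, 4330320, 1385520), (123, 0, 0, 4326225, 1385475), (141, 0, 0, 275730, 2371605), (126, 0, 0, 4326225, 1385475), (293, 0, 0, 2299200, 2180400)]
  [(123, 2), (126, -2), (141, -2), (148, 2), (293, -4), (312, 4)] = true := by
  decide +kernel

theorem t2_16_23 : chkS lk2 1 3 [(1, m2_16)] l2_23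
  [(314, 0, 0, 5378880, 5317680), (315, 0, 0, 5378880, 5317680)]
  [(314, 6), (315, -6)] = true := by
  decide +kernel

theorem t2_16_24 : chkS lk2 1 3 [(1, m2_16)] l2_24
  [(146, 0, 0, 52774416, 37971216), (124, 0, 0, 106038081, 105980931)]
  [(124, -6), (146, 6)] = true := by
  decide +kernel

theorem t2_16_25 : chkS lk2 1 3 [(1, m2_16)] l2_25
  [(310, 0, 0, 73536336, 85337136), (125, 0, 0, 106049556, 105919506)]
  [(125, -6), (310, 6)] = true := by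
  decide +kernel

theorem t2_16_26 : chkS lk2 1 3 [(1, m2_16)] l2_26
  [(313, 0, 0, 4330320, 1385520), (126, 0, 0, 5386260, 5256210)]
  [(126, -6), (313, 6)] = true := by
  decide +kernel

theorem t2_16_27 : chkS lk2 1 3 [(1, m2_16)] l2_27
  [(62, 0, 0, 201760, 147760), (127, 0, 0, 131905, 74755)]
  [(62, 6), (127, -6)] = true := by
  decide +kernel

theorem t2_16_28 : chkS lk2 1 3 [(1, m2_16)] l2_28
  [(301, 0, 0, 3278145, 2184195), (321, 0, 0, 5378880, 5317680)]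
  [(301, 6), (321, -6)] = true := by
  decide +kernel

theorem t2_17_17 : chkS lk2 1 3 [(1, m2_17)] l2_17
  [(329, 0, 0, 106107936, 106053936), (120, 0, 0, 39195696, 72488496)]
  [(120, -6), (329, 6)] = true := by
  decide +kernel

theorem t2_17_18 : chkS lk2 1 3 [(1, m2_17)] l2_18
  [(310, 0, 0, 68375136, 20333136), (310, 0, 0, 68376096, 37110096), (288, 0, 0, 68313861, 50734161), (290, 0, 0, 67327506, 37109781), (288, 0, 0, 68313141, 50730066), (290, 0, 0, 67326306, 20332581)]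
  [(290, -6), (310, 6)] = true := by
  decide +kernel

theorem t2_17_19 : chkS lk2 1 3 [(1, m2_17)] l2_19
  [(310, 0, 0, 68376096, 37110096), (310, 0, 0, 68375136, 20333136), (290, 0, 0, 67327506, 37109781), (288, 0, 0, 68313861, 50734161), (290, 0, 0, 67326306, 20332581), (288, 0, 0, 68313141, 50730066)]
  [(288, -6), (310, 6)] = true := by
  decide +kernel

theorem t2_17_20 : chkS lk2 1 3 [(1, m2_17)] l2_20
  [(313, 0, 0, 1266720, 3293520), (313, 0, 0, 1266240, 3228240), (141, 0, 0, 2364720, 2364720), (294, 0, 0, 1200900, 3155025), (141, 0, 0, 2364240, 1320240), (294, 0, 0, 1200180, 3150930)]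
  [(294, -6), (313, 6)] = true := by
  decide +kernel

theorem t2_17_21 : chkS lk2 1 3 [(1, m2_17)] l2_21
  [(330, 0, 0, 5444640, 5390640), (123, 0, 0, 5444640, 5390640)]
  [(123, -6), (330, 6)] = true := by
  decide +kernel

theorem t2_17_22 : chkS lk2 1 3 [(1, m2_17)] l2_22
  [(313, 0, 0, 1266240, 3228240), (313, 0, 0, 1266720, 3293520), (294, 0, 0, 1200900, 3155025), (141, 0, 0, 2364720, 2364720), (294, 0, 0, 1200180, 3150930), (141, 0, 0, 2364240, 1320240)]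
  [(141, -6), (313, 6)] = true := by
  decide +kernel

theorem t2_17_23 : chkS lk2 1 3 [(1, m2_17)] l2_23
  [(331, 0, 0, 5444640, 5390640), (316, 0, 0, 147765, 201765)]
  [(316, -6), (331, 6)] = true := by
  decide +kernel

theorem t2_17_24 : chkS lk2 1 3 [(1, m2_17)] l2_24
  [(146, 0, 0, 52762176, 37840176), (118, 0, 0, 106053891, 106103841)]
  [(118, -6), (146, 6)] = true := by
  decide +kernel

theorem t2_17_25 : chkS lk2 1 3 [(1, m2_17)] l2_25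
  [(310, 0, 0, 73552656, 87434256), (113, 0, 0, 56774916, 87057441)]
  [(113, -6), (310, 6)] = true := by
  decide +kernel

theorem t2_17_26 : chkS lk2 1 3 [(1, m2_17)] l2_26
  [(313, 0, 0, 4346640, 3482640), (117, 0, 0, 3297540, 3167265)]
  [(117, -6), (313, 6)] = true := by
  decide +kernel

theorem t2_17_27 : chkS lk2 1 3 [(1, m2_17)] l2_27
  [(62, 0, 0, 205840, 148240), (119, 0, 0, 147715, 197665)]
  [(62, 6), (119, -6)] = true := by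
  decide +kernel

theorem t2_17_28 : chkS lk2 1 3 [(1, m2_17)] l2_28
  [(307, 0, 0, 2298960, 1197360), (332, 0, 0, 5444160, 5325360)]
  [(307, 6), (332, -6)] = true := by
  decide +kernel

theorem t2_18_18 : chkS lk2 1 3 [(1, m2_18)] l2_18
  [(318, 0, 0, 104075856, 101995056), (147, 0, 0, 54923856, 68510256), (129, 0, 0, 39195456, 72427056), (133, 0, 0, 101860611, 102958161), (133, 0, 0, 38146896, 68494896), (298, 0, 0, 103027536, 101983536)]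
  [(129, 2), (133, -4), (147, 2), (298, -4), (318, 4)] = true := by
  decide +kernel

theorem t2_18_19 : chkS lk2 1 3 [(1, m2_18)] l2_19
  [(147, 0, 0, 54923856, 68510256), (318, 0, 0, 104075856, 101995056), (133, 0, 0, 101860611, 102958161), (129, 0, 0, 39195456, 72427056), (298, 0, 0, 103027536, 101983536), (133, 0, 0, 38146896, 68494896)]
  [(129, -2), (133, -2), (147, 4), (298, -2), (318, 2)] = true := by
  decide +kernel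

theorem t2_18_20 : chkS lk2 1 3 [(1, m2_18)] l2_20
  [(148, 0, 0, 1262880, 2310480), (319, 0, 0, 3412560, 1331760), (134, 0, 0, 3473985, 4280835), (126, 0, 0, 3473985, 4280835), (299, 0, 0, 2364240, 1320240), (141, 0, 0, 3473985, 4280835)]
  [(126, -2), (134, 2), (141, -4), (148, 4), (299, -2), (319, 2)] = true := by
  decide +kernel

theorem t2_18_21 : chkS lk2 1 3 [(1, m2_18)] l2_21
  [(313, 0, 0, 5509680, 5509680), (141, 0, 0, 1384515, 4260690)]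
  [(141, -6), (313, 6)] = true := by
  decide +kernel

theorem t2_18_22 : chkS lk2 1 3 [(1, m2_18)] l2_22
  [(319, 0, 0, 3412560, 1331760), (148, 0, 0, 1262880, 2310480), (126, 0, 0, 3473985, 4280835), (134, 0, 0, 3473985, 4280835), (141, 0, 0, 3473985, 4280835), (299, 0, 0, 2364240, 1320240)]
  [(126, 2), (134, -2), (141, -2), (148, 2), (299, -4), (319, 4)] = true := by
  decide +kernel

theorem t2_18_23 : chkS lk2 1 3 [(1, m2_18)] l2_23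
  [(334, 0, 0, 5444640, 5390640), (335, 0, 0, 5444640, 5390640)]
  [(334, 6), (335, -6)] = true := by
  decide +kernel

theorem t2_18_24 : chkS lk2 1 3 [(1, m2_18)] l2_24
  [(324, 0, 0, 70652496, 68571696), (132, 0, 0, 106049796, 105919521)]
  [(132, -6), (324, 6)] = true := by
  decide +kernel

theorem t2_18_25 : chkS lk2 1 3 [(1, m2_18)] l2_25
  [(309, 0, 0, 70652496, 68571696), (133, 0, 0, 106049796, 105919521)]
  [(133, -6), (309, 6)] = true := by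
  decide +kernel

theorem t2_18_26 : chkS lk2 1 3 [(1, m2_18)] l2_26
  [(148, 0, 0, 3478080, 4280880), (134, 0, 0, 2429760, 4269360)]
  [(134, -6), (148, 6)] = true := by
  decide +kernel

theorem t2_18_27 : chkS lk2 1 3 [(1, m2_18)] l2_27
  [(149, 0, 0, 266800, 266800), (135, 0, 0, 143620, 13345)]
  [(135, -6), (149, 6)] = true := by
  decide +kernel

theorem t2_18_28 : chkS lk2 1 3 [(1, m2_18)] l2_28
  [(302, 0, 0, 2364240, 1320240), (322, 0, 0, 3412560, 1331760)]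
  [(302, 6), (322, -6)] = true := by
  decide +kernel

theorem t2_19_19 : chkS lk2 1 3 [(1, m2_19)] l2_19
  [(318, 0, 0, 104076576, 103043376), (147, 0, 0, 54924576, 69558576), (298, 0, 0, 103028016, 103028016), (133, 0, 0, 38147376, 69539376), (133, 0, 0, 101859411, 101909586), (129, 0, 0, 39195696, 72488496)]
  [(129, -4), (133, -4), (147, 2), (298, 2), (318, 4)] = true := by
  decide +kernel

theorem t2_19_20 : chkS lk2 1 3 [(1, m2_19)] l2_20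
  [(319, 0, 0, 3413280, 2380080), (148, 0, 0, 1262160, 1262160), (299, 0, 0, 2364720, 2364720), (141, 0, 0, 3474465, 4346115), (134, 0, 0, 3474465, 4346115), (126, 0, 0, 3474465, 4346115)]
  [(126, -4), (134, -2), (141, -2), (148, 2), (299, 2), (319, 4)] = true := by
  decide +kernel

theorem t2_19_21 : chkS lk2 1 3 [(1, m2_19)] l2_21
  [(313, 0, 0, 5509920, 5513520), (117, 0, 0, 5444640, 5390640)]
  [(117, -6), (313, 6)] = true := by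
  decide +kernel

theorem t2_19_22 : chkS lk2 1 3 [(1, m2_19)] l2_22
  [(148, 0, 0, 1262160, 1262160), (319, 0, 0, 3413280, 2380080), (141, 0, 0, 3474465, 4346115), (299, 0, 0, 2364720, 2364720), (126, 0, 0, 3474465, 4346115), (134, 0, 0, 3474465, 4346115)]
  [(126, -2), (134, -4), (141, 2), (148, 4), (299, -2), (319, 2)] = true := by
  decide +kernel

theorem t2_19_23 : chkS lk2 1 3 [(1, m2_19)] l2_23
  [(334, 0, 0, 5444160, 5325360), (327, 0, 0, 143685, 78885)]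
  [(327, -6), (334, 6)] = true := by
  decide +kernel

theorem t2_19_24 : chkS lk2 1 3 [(1, m2_19)] l2_24
  [(336, 0, 0, 106107456, 105988656), (132, 0, 0, 106049556, 105919506)]
  [(132, -6), (336, 6)] = true := by
  decide +kernel

theorem t2_19_25 : chkS lk2 1 3 [(1, m2_19)] l2_25
  [(337, 0, 0, 106107456, 105988656), (133, 0, 0, 106049556, 105919506)]
  [(133, -6), (337, 6)] = true := by
  decide +kernel

theorem t2_19_26 : chkS lk2 1 3 [(1, m2_19)] l2_26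
  [(338, 0, 0, 5444160, 5325360), (134, 0, 0, 2430000, 4330800)]
  [(134, -6), (338, 6)] = true := by
  decide +kernel

theorem t2_19_27 : chkS lk2 1 3 [(1, m2_19)] l2_27
  [(339, 0, 0, 201280, 82480), (135, 0, 0, 143380, 13330)]
  [(135, -6), (339, 6)] = true := by
  decide +kernel

theorem t2_19_28 : chkS lk2 1 3 [(1, m2_19)] l2_28
  [(302, 0, 0, 2364720, 2364720), (340, 0, 0, 5444160, 5325360)]
  [(302, 6), (340, -6)] = true := by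
  decide +kernel

theorem t2_20_20 : chkS lk2 1 3 [(1, m2_20)] l2_20
  [(320, 0, 0, 201760, 147760), (149, 0, 0, 201760, 147760), (300, 0, 0, 136240, 136240), (135, 0, 0, 12820, 12820), (135, 0, 0, 197665, 147715), (127, 0, 0, 197665, 147715)]
  [(127, -4), (135, -4), (149, 2), (300, 2), (320, 4)] = true := by
  decide +kernel

theorem t2_20_21 : chkS lk2 1 3 [(1, m2_20)] l2_21
  [(62, 0, 0, 136240, 136240), (119, 0, 0, 267040, 270640)]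
  [(62, 6), (119, -6)] = true := by
  decide +kernel

theorem t2_20_22 : chkS lk2 1 3 [(1, m2_20)] l2_22
  [(149, 0, 0, 201760, 147760), (320, 0, 0, 201760, 147760), (135, 0, 0, 12820, 12820), (300, 0, 0, 136240, 136240), (127, 0, 0, 197665, 147715), (135, 0, 0, 197665, 147715)]
  [(127, -2), (135, -2), (149, 4), (300, -2), (320, 2)] = true := by
  decide +kernel

theorem t2_20_23 : chkS lk2 1 3 [(1, m2_20)] l2_23
  [(342, 0, 0, 267040, 270640), (344, 0, 0, 267040, 270640)]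
  [(342, 6), (344, -6)] = true := by
  decide +kernel

theorem t2_20_24 : chkS lk2 1 3 [(1, m2_20)] l2_24
  [(345, 0, 0, 5509920, 5513520), (49, 0, 0, 5505825, 5513475)]
  [(49, -6), (345, 6)] = true := by
  decide +kernel

theorem t2_20_25 : chkS lk2 1 3 [(1, m2_20)] l2_25
  [(338, 0, 0, 3282240, 2184240), (141, 0, 0, 5513475, 5505825)]
  [(141, -6), (338, 6)] = true := by
  decide +kernel

theorem t2_20_26 : chkS lk2 1 3 [(1, m2_20)] l2_26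
  [(339, 0, 0, 201280, 82480), (135, 0, 0, 136240, 136240)]
  [(135, -6), (339, 6)] = true := by
  decide +kernel

theorem t2_20_27 : chkS lk2 1 3 [(1, m2_20)] l2_27
  [(346, 0, 0, 4896, 8496), (52, 0, 0, 801, 8451)]
  [(52, -6), (346, 6)] = true := by
  decide +kernel

theorem t2_20_28 : chkS lk2 1 3 [(1, m2_20)] l2_28
  [(303, 0, 0, 136240, 136240), (341, 0, 0, 136000, 74800)]
  [(303, 6), (341, -6)] = true := by
  decide +kernel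

theorem t2_21_21 : chkS lk2 1 3 [(1, m2_21)] l2_21
  [(3, 0, 0, 136240, 136240), (127, 0, 0, 267040, 270640)]
  [(3, 6), (127, -6)] = true := by
  decide +kernel

theorem t2_21_22 : chkS lk2 1 3 [(1, m2_21)] l2_22
  [(62, 0, 0, 74560, 74560), (62, 0, 0, 74800, 136000), (119, 0, 0, 82435, 197185), (135, 0, 0, 82435, 197185), (119, 0, 0, 81955, 196930), (135, 0, 0, 81955, 196930)]
  [(62, 6), (135, -6)] = true := by
  decide +kernel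

theorem t2_21_23 : chkS lk2 1 3 [(1, m2_21)] l2_23
  [(40, 0, 0, 74560, 74560), (344, 0, 0, 12580, 12580)]
  [(40, 6), (344, -6)] = true := by
  decide +kernel

theorem t2_21_24 : chkS lk2 1 3 [(1, m2_21)] l2_24
  [(46, 0, 0, 5514000, 5514000), (45, 0, 0, 5509920, 5513520)]
  [(45, -6), (46, 6)] = true := by
  decide +kernel

theorem t2_21_25 : chkS lk2 1 3 [(1, m2_21)] l2_25
  [(313, 0, 0, 4411920, 3490320), (43, 0, 0, 5509920, 5513520)]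
  [(43, -6), (313, 6)] = true := by
  decide +kernel

theorem t2_21_26 : chkS lk2 1 3 [(1, m2_21)] l2_26
  [(62, 0, 0, 271120, 271120), (21, 0, 0, 267040, 270640)]
  [(21, -6), (62, 6)] = true := by
  decide +kernel

theorem t2_21_27 : chkS lk2 1 3 [(1, m2_21)] l2_27
  [(36, 0, 0, 8976, 8976), (51, 0, 0, 4896, 8496)]
  [(36, 6), (51, -6)] = true := by
  decide +kernel

theorem t2_21_28 : chkS lk2 1 3 [(1, m2_21)] l2_28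
  [(142, 0, 0, 136000, 74800), (333, 0, 0, 267040, 270640)]
  [(142, 6), (333, -6)] = true := by
  decide +kernel

theorem t2_22_22 : chkS lk2 1 3 [(1, m2_22)] l2_22
  [(320, 0, 0, 201280, 82480), (149, 0, 0, 201280, 82480), (127, 0, 0, 197185, 82435), (135, 0, 0, 197185, 82435), (135, 0, 0, 12580, 12580), (300, 0, 0, 136000, 74800)]
  [(127, 2), (135, -4), (149, 2), (300, -4), (320, 4)] = true := by
  decide +kernel

theorem t2_22_23 : chkS lk2 1 3 [(1, m2_22)] l2_23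
  [(342, 0, 0, 266800, 266800), (343, 0, 0, 266800, 266800)]
  [(342, 6), (343, -6)] = true := by
  decide +kernel

theorem t2_22_24 : chkS lk2 1 3 [(1, m2_22)] l2_24
  [(46, 0, 0, 5509920, 5513520), (49, 0, 0, 5505585, 5509635)]
  [(46, 6), (49, -6)] = true := by
  decide +kernel

theorem t2_22_25 : chkS lk2 1 3 [(1, m2_22)] l2_25
  [(313, 0, 0, 4395600, 1393200), (141, 0, 0, 5513235, 5505810)]
  [(141, -6), (313, 6)] = true := by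
  decide +kernel

theorem t2_22_26 : chkS lk2 1 3 [(1, m2_22)] l2_26
  [(62, 0, 0, 267040, 270640), (135, 0, 0, 136000, 74800)]
  [(62, 6), (135, -6)] = true := by
  decide +kernel

theorem t2_22_27 : chkS lk2 1 3 [(1, m2_22)] l2_27
  [(36, 0, 0, 4896, 8496), (52, 0, 0, 561, 4611)]
  [(36, 6), (52, -6)] = true := by
  decide +kernel

theorem t2_22_28 : chkS lk2 1 3 [(1, m2_22)] l2_28
  [(303, 0, 0, 136000, 74800), (323, 0, 0, 201280, 82480)]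
  [(303, 6), (323, -6)] = true := by
  decide +kernel

theorem t2_23_23 : chkS lk2 1 3 [(1, m2_23)] l2_23
  [(348, 0, 0, 267040, 270640), (349, 0, 0, 266800, 266800)]
  [(348, 6), (349, -6)] = true := by
  decide +kernel

theorem t2_23_24 : chkS lk2 1 3 [(1, m2_23)] l2_24
  [(350, 0, 0, 5509920, 5513520), (19, 0, 0, 5505825, 5513475)]
  [(19, -6), (350, 6)] = true := by
  decide +kernel

theorem t2_23_25 : chkS lk2 1 3 [(1, m2_23)] l2_25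
  [(351, 0, 0, 5509920, 5513520), (143, 0, 0, 5513475, 5505825)]
  [(143, -6), (351, 6)] = true := by
  decide +kernel

theorem t2_23_26 : chkS lk2 1 3 [(1, m2_23)] l2_26
  [(352, 0, 0, 267040, 270640), (144, 0, 0, 270595, 262945)]
  [(144, -6), (352, 6)] = true := by
  decide +kernel

theorem t2_23_27 : chkS lk2 1 3 [(1, m2_23)] l2_27
  [(353, 0, 0, 4896, 8496), (145, 0, 0, 8451, 801)]
  [(145, -6), (353, 6)] = true := by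
  decide +kernel

theorem t2_23_28 : chkS lk2 1 3 [(1, m2_23)] l2_28
  [(354, 0, 0, 267040, 270640), (355, 0, 0, 266800, 266800)]
  [(354, 6), (355, -6)] = true := by
  decide +kernel

theorem t2_24_24 : chkS lk2 1 3 [(1, m2_24)] l2_24
  [(356, 0, 0, 106112016, 106054416), (17, 0, 0, 106181121, 106181121)]
  [(17, -6), (356, 6)] = true := by
  decide +kernel

theorem t2_24_25 : chkS lk2 1 3 [(1, m2_24)] l2_25
  [(14, 0, 0, 88286736, 40190736), (146, 0, 0, 106111236, 105923361)]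
  [(14, 6), (146, -6)] = true := by
  decide +kernel

theorem t2_24_26 : chkS lk2 1 3 [(1, m2_24)] l2_26
  [(44, 0, 0, 5448720, 5391120), (46, 0, 0, 3490305, 4411905)]
  [(44, 6), (46, -6)] = true := by
  decide +kernel

theorem t2_24_27 : chkS lk2 1 3 [(1, m2_24)] l2_27
  [(25, 0, 0, 205840, 148240), (3, 0, 0, 274945, 274945)]
  [(3, -6), (25, 6)] = true := by
  decide +kernel

theorem t2_24_28 : chkS lk2 1 3 [(1, m2_24)] l2_28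
  [(357, 0, 0, 5448720, 5391120), (13, 0, 0, 2442000, 4400400)]
  [(13, -6), (357, 6)] = true := by
  decide +kernel

theorem t2_25_25 : chkS lk2 1 3 [(1, m2_25)] l2_25
  [(358, 0, 0, 106112016, 106054416), (147, 0, 0, 52843521, 70411521)]
  [(147, -6), (358, 6)] = true := by
  decide +kernel

theorem t2_25_26 : chkS lk2 1 3 [(1, m2_25)] l2_26
  [(42, 0, 0, 4534800, 4534800), (148, 0, 0, 5447940, 5260065)]
  [(42, 6), (148, -6)] = true := by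
  decide +kernel

theorem t2_25_27 : chkS lk2 1 3 [(1, m2_25)] l2_27
  [(2, 0, 0, 205840, 148240), (62, 0, 0, 274690, 274465)]
  [(2, 6), (62, -6)] = true := by
  decide +kernel

theorem t2_25_28 : chkS lk2 1 3 [(1, m2_25)] l2_28
  [(340, 0, 0, 4400385, 2441985), (359, 0, 0, 5448720, 5391120)]
  [(340, 6), (359, -6)] = true := by
  decide +kernel

theorem t2_26_26 : chkS lk2 1 3 [(1, m2_26)] l2_26
  [(2, 0, 0, 274960, 274960), (149, 0, 0, 148225, 205825)]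
  [(2, 6), (149, -6)] = true := by
  decide +kernel

theorem t2_26_27 : chkS lk2 1 3 [(1, m2_26)] l2_27
  [(37, 0, 0, 12816, 12816), (36, 0, 0, 12546, 12321)]
  [(36, -6), (37, 6)] = true := by
  decide +kernel

theorem t2_26_28 : chkS lk2 1 3 [(1, m2_26)] l2_28
  [(341, 0, 0, 274945, 274945), (41, 0, 0, 213520, 213520)]
  [(41, -6), (341, 6)] = true := by
  decide +kernel

theorem t2_27_27 : chkS lk2 1 3 [(1, m2_27)] l2_27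
  [(24, 0, 0, 528, 528), (0, 0, 0, 513, 513)]
  [(0, -6), (24, 6)] = true := by
  decide +kernel

theorem t2_27_28 : chkS lk2 1 3 [(1, m2_27)] l2_28
  [(347, 0, 0, 8961, 8961), (1, 0, 0, 8976, 8976)]
  [(1, -6), (347, 6)] = true := by
  decide +kernel

theorem t2_28_28 : chkS lk2 1 3 [(1, m2_28)] l2_28
  [(360, 0, 0, 267040, 270640), (361, 0, 0, 266800, 266800)]
  [(360, 6), (361, -6)] = true := by
  decide +kernel

section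

variable {κ ι : Type*} [Fintype κ] [Fintype ι] [Inhabited κ] [Inhabited ι]

noncomputable def F2_0 (E : Env κ ι) : (Fin 1 → κ) → (Fin 3 → ι) → ℝ := op2 (P0 κ) (P2 ι) (fB E 1 3 m2_0)

noncomputable def F2_1 (E : Env κ ι) : (Fin 1 → κ) → (Fin 3 → ι) → ℝ := op2 (P0 κ) (P2 ι) (fB E 1 3 m2_1)

noncomputable def F2_2 (E : Env κ ι) : (Fin 1 → κ) → (Fin 3 → ι) → ℝ := op2 (P0 κ) (P2 ι) (fB E 1 3 m2_2)

noncomputable def F2_3 (E : Env κ ι) : (Fin 1 → κ) → (Fin 3 → ι) → ℝ := op2 (P0 κ) (P2 ι) (fB E 1 3 m2_3)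

noncomputable def F2_4 (E : Env κ ι) : (Fin 1 → κ) → (Fin 3 → ι) → ℝ := op2 (P0 κ) (P2 ι) (fB E 1 3 m2_4)

noncomputable def F2_5 (E : Env κ ι) : (Fin 1 → κ) → (Fin 3 → ι) → ℝ := op2 (P0 κ) (P2 ι) (fB E 1 3 m2_5)

noncomputable def F2_6 (E : Env κ ι) : (Fin 1 → κ) → (Fin 3 → ι) → ℝ := op2 (P0 κ) (P2 ι) (fB E 1 3 m2_6)

noncomputable def F2_7 (E : Env κ ι) : (Fin 1 → κ) → (Fin 3 → ι) → ℝ := op2 (P0 κ) (P2 ι) (fB E 1 3 m2_7)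

noncomputable def F2_8 (E : Env κ ι) : (Fin 1 → κ) → (Fin 3 → ι) → ℝ := op2 (P0 κ) (P2 ι) (fB E 1 3 m2_8)

noncomputable def F2_9 (E : Env κ ι) : (Fin 1 → κ) → (Fin 3 → ι) → ℝ := op2 (P0 κ) (P2 ι) (fB E 1 3 m2_9)

noncomputable def F2_10 (E : Env κ ι) : (Fin 1 → κ) → (Fin 3 → ι) → ℝ := op2 (P0 κ) (P2 ι) (fB E 1 3 m2_10)

noncomputable def F2_11 (E : Env κ ι) : (Fin 1 → κ) → (Fin 3 → ι) → ℝ := op2 (P0 κ) (P2 ι) (fB E 1 3 m2_11)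

noncomputable def F2_12 (E : Env κ ι) : (Fin 1 → κ) → (Fin 3 → ι) → ℝ := op2 (P0 κ) (P2 ι) (fB E 1 3 m2_12)

noncomputable def F2_13 (E : Env κ ι) : (Fin 1 → κ) → (Fin 3 → ι) → ℝ := op2 (P0 κ) (P2 ι) (fB E 1 3 m2_13)

noncomputable def F2_14 (E : Env κ ι) : (Fin 1 → κ) → (Fin 3 → ι) → ℝ := op2 (P0 κ) (P2 ι) (fB E 1 3 m2_14)

noncomputable def F2_15 (E : Env κ ι) : (Fin 1 → κ) → (Fin 3 → ι) → ℝ := op2 (P0 κ) (P2 ι) (fB E 1 3 m2_15)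

noncomputable def F2_16 (E : Env κ ι) : (Fin 1 → κ) → (Fin 3 → ι) → ℝ := op2 (P0 κ) (P2 ι) (fB E 1 3 m2_16)

noncomputable def F2_17 (E : Env κ ι) : (Fin 1 → κ) → (Fin 3 → ι) → ℝ := op2 (P0 κ) (P2 ι) (fB E 1 3 m2_17)

noncomputable def F2_18 (E : Env κ ι) : (Fin 1 → κ) → (Fin 3 → ι) → ℝ := op2 (P0 κ) (P2 ι) (fB E 1 3 m2_18)

noncomputable def F2_19 (E : Env κ ι) : (Fin 1 → κ) → (Fin 3 → ι) → ℝ := op2 (P0 κ) (P2 ι) (fB E 1 3 m2_19)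

noncomputable def F2_20 (E : Env κ ι) : (Fin 1 → κ) → (Fin 3 → ι) → ℝ := op2 (P0 κ) (P2 ι) (fB E 1 3 m2_20)

noncomputable def F2_21 (E : Env κ ι) : (Fin 1 → κ) → (Fin 3 → ι) → ℝ := op2 (P0 κ) (P2 ι) (fB E 1 3 m2_21)

noncomputable def F2_22 (E : Env κ ι) : (Fin 1 → κ) → (Fin 3 → ι) → ℝ := op2 (P0 κ) (P2 ι) (fB E 1 3 m2_22)

noncomputable def F2_23 (E : Env κ ι) : (Fin 1 → κ) → (Fin 3 → ι) → ℝ := op2 (P0 κ) (P2 ι) (fB E 1 3 m2_23)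

noncomputable def F2_24 (E : Env κ ι) : (Fin 1 → κ) → (Fin 3 → ι) → ℝ := op2 (P0 κ) (P2 ι) (fB E 1 3 m2_24)

noncomputable def F2_25 (E : Env κ ι) : (Fin 1 → κ) → (Fin 3 → ι) → ℝ := op2 (P0 κ) (P2 ι) (fB E 1 3 m2_25)

noncomputable def F2_26 (E : Env κ ι) : (Fin 1 → κ) → (Fin 3 → ι) → ℝ := op2 (P0 κ) (P2 ι) (fB E 1 3 m2_26)

noncomputable def F2_27 (E : Env κ ι) : (Fin 1 → κ) → (Fin 3 → ι) → ℝ := op2 (P0 κ) (P2 ι) (fB E 1 3 m2_27)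

noncomputable def F2_28 (E : Env κ ι) : (Fin 1 → κ) → (Fin 3 → ι) → ℝ := op2 (P0 κ) (P2 ι) (fB E 1 3 m2_28)

def r2_0_0 : List (ℕ × ℤ) := [(10, -6), (150, 6)]

theorem h2_0_0 (E : Env κ ι) : ip (F2_0 E) (F2_0 E) = dotS (ek E lk2) r2_0_0 :=
  op_entryZ E lk2 1 3 _ _ _ _ (pg0 κ) (pg2 ι) m2_0 m2_0 l2_0 z2_0 w2_0 x2_0 (by decide) _ (chkS_sound E lk2 1 3 _ _ _ _ t2_0_0)

def r2_0_1 : List (ℕ × ℤ) := [(73, -6), (151, 6)]

theorem h2_0_1 (E : Env κ ι) : ip (F2_0 E) (F2_1 E) = dotS (ek E lk2) r2_0_1 :=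
  op_entryZ E lk2 1 3 _ _ _ _ (pg0 κ) (pg2 ι) m2_0 m2_1 l2_1 z2_1 w2_1 x2_1 (by decide) _ (chkS_sound E lk2 1 3 _ _ _ _ t2_0_1)

def r2_0_2 : List (ℕ × ℤ) := [(10, -6), (73, 6)]

theorem h2_0_2 (E : Env κ ι) : ip (F2_0 E) (F2_2 E) = dotS (ek E lk2) r2_0_2 :=
  op_entryZ E lk2 1 3 _ _ _ _ (pg0 κ) (pg2 ι) m2_0 m2_2 l2_2 z2_2 w2_2 x2_2 (by decide) _ (chkS_sound E lk2 1 3 _ _ _ _ t2_0_2)

def r2_0_3 : List (ℕ × ℤ) := [(73, -6), (83, 6), (151, 0)]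

theorem h2_0_3 (E : Env κ ι) : ip (F2_0 E) (F2_3 E) = dotS (ek E lk2) r2_0_3 :=
  op_entryZ E lk2 1 3 _ _ _ _ (pg0 κ) (pg2 ι) m2_0 m2_3 l2_3 z2_3 w2_3 x2_3 (by decide) _ (chkS_sound E lk2 1 3 _ _ _ _ t2_0_3)

def r2_0_4 : List (ℕ × ℤ) := [(11, -6), (152, 6)]

theorem h2_0_4 (E : Env κ ι) : ip (F2_0 E) (F2_4 E) = dotS (ek E lk2) r2_0_4 :=
  op_entryZ E lk2 1 3 _ _ _ _ (pg0 κ) (pg2 ι) m2_0 m2_4 l2_4 z2_4 w2_4 x2_4 (by decide) _ (chkS_sound E lk2 1 3 _ _ _ _ t2_0_4)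

def r2_0_5 : List (ℕ × ℤ) := [(11, 6), (83, -6)]

theorem h2_0_5 (E : Env κ ι) : ip (F2_0 E) (F2_5 E) = dotS (ek E lk2) r2_0_5 :=
  op_entryZ E lk2 1 3 _ _ _ _ (pg0 κ) (pg2 ι) m2_0 m2_5 l2_5 z2_5 w2_5 x2_5 (by decide) _ (chkS_sound E lk2 1 3 _ _ _ _ t2_0_5)

def r2_0_6 : List (ℕ × ℤ) := [(82, -6), (153, 6)]

theorem h2_0_6 (E : Env κ ι) : ip (F2_0 E) (F2_6 E) = dotS (ek E lk2) r2_0_6 :=
  op_entryZ E lk2 1 3 _ _ _ _ (pg0 κ) (pg2 ι) m2_0 m2_6 l2_6 z2_6 w2_6 x2_6 (by decide) _ (chkS_sound E lk2 1 3 _ _ _ _ t2_0_6)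

def r2_0_7 : List (ℕ × ℤ) := [(65, -6), (82, 6), (83, 0)]

theorem h2_0_7 (E : Env κ ι) : ip (F2_0 E) (F2_7 E) = dotS (ek E lk2) r2_0_7 :=
  op_entryZ E lk2 1 3 _ _ _ _ (pg0 κ) (pg2 ι) m2_0 m2_7 l2_7 z2_7 w2_7 x2_7 (by decide) _ (chkS_sound E lk2 1 3 _ _ _ _ t2_0_7)

def r2_0_8 : List (ℕ × ℤ) := [(82, 6), (83, -6)]

theorem h2_0_8 (E : Env κ ι) : ip (F2_0 E) (F2_8 E) = dotS (ek E lk2) r2_0_8 :=
  op_entryZ E lk2 1 3 _ _ _ _ (pg0 κ) (pg2 ι) m2_0 m2_8 l2_8 z2_8 w2_8 x2_8 (by decide) _ (chkS_sound E lk2 1 3 _ _ _ _ t2_0_8)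

def r2_0_9 : List (ℕ × ℤ) := [(65, 6), (73, -6)]

theorem h2_0_9 (E : Env κ ι) : ip (F2_0 E) (F2_9 E) = dotS (ek E lk2) r2_0_9 :=
  op_entryZ E lk2 1 3 _ _ _ _ (pg0 κ) (pg2 ι) m2_0 m2_9 l2_9 z2_9 w2_9 x2_9 (by decide) _ (chkS_sound E lk2 1 3 _ _ _ _ t2_0_9)

def r2_0_10 : List (ℕ × ℤ) := [(11, -6), (82, 6)]

theorem h2_0_10 (E : Env κ ι) : ip (F2_0 E) (F2_10 E) = dotS (ek E lk2) r2_0_10 :=
  op_entryZ E lk2 1 3 _ _ _ _ (pg0 κ) (pg2 ι) m2_0 m2_10 l2_10 z2_10 w2_10 x2_10 (by decide) _ (chkS_sound E lk2 1 3 _ _ _ _ t2_0_10)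

def r2_0_11 : List (ℕ × ℤ) := [(16, -6), (154, 6)]

theorem h2_0_11 (E : Env κ ι) : ip (F2_0 E) (F2_11 E) = dotS (ek E lk2) r2_0_11 :=
  op_entryZ E lk2 1 3 _ _ _ _ (pg0 κ) (pg2 ι) m2_0 m2_11 l2_11 z2_11 w2_11 x2_11 (by decide) _ (chkS_sound E lk2 1 3 _ _ _ _ t2_0_11)

def r2_0_12 : List (ℕ × ℤ) := [(86, -6), (155, 6)]

theorem h2_0_12 (E : Env κ ι) : ip (F2_0 E) (F2_12 E) = dotS (ek E lk2) r2_0_12 :=
  op_entryZ E lk2 1 3 _ _ _ _ (pg0 κ) (pg2 ι) m2_0 m2_12 l2_12 z2_12 w2_12 x2_12 (by decide) _ (chkS_sound E lk2 1 3 _ _ _ _ t2_0_12)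

def r2_0_13 : List (ℕ × ℤ) := [(16, -6), (86, 6)]

theorem h2_0_13 (E : Env κ ι) : ip (F2_0 E) (F2_13 E) = dotS (ek E lk2) r2_0_13 :=
  op_entryZ E lk2 1 3 _ _ _ _ (pg0 κ) (pg2 ι) m2_0 m2_13 l2_13 z2_13 w2_13 x2_13 (by decide) _ (chkS_sound E lk2 1 3 _ _ _ _ t2_0_13)

def r2_0_14 : List (ℕ × ℤ) := [(85, -6), (156, 6)]

theorem h2_0_14 (E : Env κ ι) : ip (F2_0 E) (F2_14 E) = dotS (ek E lk2) r2_0_14 :=
  op_entryZ E lk2 1 3 _ _ _ _ (pg0 κ) (pg2 ι) m2_0 m2_14 l2_14 z2_14 w2_14 x2_14 (by decide) _ (chkS_sound E lk2 1 3 _ _ _ _ t2_0_14)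

def r2_0_15 : List (ℕ × ℤ) := [(16, -6), (157, 6)]

theorem h2_0_15 (E : Env κ ι) : ip (F2_0 E) (F2_15 E) = dotS (ek E lk2) r2_0_15 :=
  op_entryZ E lk2 1 3 _ _ _ _ (pg0 κ) (pg2 ι) m2_0 m2_15 l2_15 z2_15 w2_15 x2_15 (by decide) _ (chkS_sound E lk2 1 3 _ _ _ _ t2_0_15)

def r2_0_16 : List (ℕ × ℤ) := [(85, -6), (87, 6), (156, 0)]

theorem h2_0_16 (E : Env κ ι) : ip (F2_0 E) (F2_16 E) = dotS (ek E lk2) r2_0_16 :=
  op_entryZ E lk2 1 3 _ _ _ _ (pg0 κ) (pg2 ι) m2_0 m2_16 l2_16 z2_16 w2_16 x2_16 (by decide) _ (chkS_sound E lk2 1 3 _ _ _ _ t2_0_16)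

def r2_0_17 : List (ℕ × ℤ) := [(84, -6), (87, 6)]

theorem h2_0_17 (E : Env κ ι) : ip (F2_0 E) (F2_17 E) = dotS (ek E lk2) r2_0_17 :=
  op_entryZ E lk2 1 3 _ _ _ _ (pg0 κ) (pg2 ι) m2_0 m2_17 l2_17 z2_17 w2_17 x2_17 (by decide) _ (chkS_sound E lk2 1 3 _ _ _ _ t2_0_17)

def r2_0_18 : List (ℕ × ℤ) := [(86, -6), (157, 6), (158, 0)]

theorem h2_0_18 (E : Env κ ι) : ip (F2_0 E) (F2_18 E) = dotS (ek E lk2) r2_0_18 :=
  op_entryZ E lk2 1 3 _ _ _ _ (pg0 κ) (pg2 ι) m2_0 m2_18 l2_18 z2_18 w2_18 x2_18 (by decide) _ (chkS_sound E lk2 1 3 _ _ _ _ t2_0_18)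

def r2_0_19 : List (ℕ × ℤ) := [(86, -6), (158, 6)]

theorem h2_0_19 (E : Env κ ι) : ip (F2_0 E) (F2_19 E) = dotS (ek E lk2) r2_0_19 :=
  op_entryZ E lk2 1 3 _ _ _ _ (pg0 κ) (pg2 ι) m2_0 m2_19 l2_19 z2_19 w2_19 x2_19 (by decide) _ (chkS_sound E lk2 1 3 _ _ _ _ t2_0_19)

def r2_0_20 : List (ℕ × ℤ) := [(50, -6), (159, 6)]

theorem h2_0_20 (E : Env κ ι) : ip (F2_0 E) (F2_20 E) = dotS (ek E lk2) r2_0_20 :=
  op_entryZ E lk2 1 3 _ _ _ _ (pg0 κ) (pg2 ι) m2_0 m2_20 l2_20 z2_20 w2_20 x2_20 (by decide) _ (chkS_sound E lk2 1 3 _ _ _ _ t2_0_20)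

def r2_0_21 : List (ℕ × ℤ) := [(38, 6), (48, -6)]

theorem h2_0_21 (E : Env κ ι) : ip (F2_0 E) (F2_21 E) = dotS (ek E lk2) r2_0_21 :=
  op_entryZ E lk2 1 3 _ _ _ _ (pg0 κ) (pg2 ι) m2_0 m2_21 l2_21 z2_21 w2_21 x2_21 (by decide) _ (chkS_sound E lk2 1 3 _ _ _ _ t2_0_21)

def r2_0_22 : List (ℕ × ℤ) := [(38, 6), (50, -6), (159, 0)]

theorem h2_0_22 (E : Env κ ι) : ip (F2_0 E) (F2_22 E) = dotS (ek E lk2) r2_0_22 :=
  op_entryZ E lk2 1 3 _ _ _ _ (pg0 κ) (pg2 ι) m2_0 m2_22 l2_22 z2_22 w2_22 x2_22 (by decide) _ (chkS_sound E lk2 1 3 _ _ _ _ t2_0_22)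

def r2_0_23 : List (ℕ × ℤ) := [(20, -6), (160, 6)]

theorem h2_0_23 (E : Env κ ι) : ip (F2_0 E) (F2_23 E) = dotS (ek E lk2) r2_0_23 :=
  op_entryZ E lk2 1 3 _ _ _ _ (pg0 κ) (pg2 ι) m2_0 m2_23 l2_23 z2_23 w2_23 x2_23 (by decide) _ (chkS_sound E lk2 1 3 _ _ _ _ t2_0_23)

def r2_0_24 : List (ℕ × ℤ) := [(9, -6), (161, 6)]

theorem h2_0_24 (E : Env κ ι) : ip (F2_0 E) (F2_24 E) = dotS (ek E lk2) r2_0_24 :=
  op_entryZ E lk2 1 3 _ _ _ _ (pg0 κ) (pg2 ι) m2_0 m2_24 l2_24 z2_24 w2_24 x2_24 (by decide) _ (chkS_sound E lk2 1 3 _ _ _ _ t2_0_24)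

def r2_0_25 : List (ℕ × ℤ) := [(7, 6), (87, -6)]

theorem h2_0_25 (E : Env κ ι) : ip (F2_0 E) (F2_25 E) = dotS (ek E lk2) r2_0_25 :=
  op_entryZ E lk2 1 3 _ _ _ _ (pg0 κ) (pg2 ι) m2_0 m2_25 l2_25 z2_25 w2_25 x2_25 (by decide) _ (chkS_sound E lk2 1 3 _ _ _ _ t2_0_25)

def r2_0_26 : List (ℕ × ℤ) := [(38, -6), (39, 6)]

theorem h2_0_26 (E : Env κ ι) : ip (F2_0 E) (F2_26 E) = dotS (ek E lk2) r2_0_26 :=
  op_entryZ E lk2 1 3 _ _ _ _ (pg0 κ) (pg2 ι) m2_0 m2_26 l2_26 z2_26 w2_26 x2_26 (by decide) _ (chkS_sound E lk2 1 3 _ _ _ _ t2_0_26)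

def r2_0_27 : List (ℕ × ℤ) := [(4, -6), (61, 6)]

theorem h2_0_27 (E : Env κ ι) : ip (F2_0 E) (F2_27 E) = dotS (ek E lk2) r2_0_27 :=
  op_entryZ E lk2 1 3 _ _ _ _ (pg0 κ) (pg2 ι) m2_0 m2_27 l2_27 z2_27 w2_27 x2_27 (by decide) _ (chkS_sound E lk2 1 3 _ _ _ _ t2_0_27)

def r2_0_28 : List (ℕ × ℤ) := [(6, -6), (162, 6)]

theorem h2_0_28 (E : Env κ ι) : ip (F2_0 E) (F2_28 E) = dotS (ek E lk2) r2_0_28 :=
  op_entryZ E lk2 1 3 _ _ _ _ (pg0 κ) (pg2 ι) m2_0 m2_28 l2_28 z2_28 w2_28 x2_28 (by decide) _ (chkS_sound E lk2 1 3 _ _ _ _ t2_0_28)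

def r2_1_1 : List (ℕ × ℤ) := [(72, -4), (75, -4), (106, 2), (163, 4), (164, 2)]

theorem h2_1_1 (E : Env κ ι) : ip (F2_1 E) (F2_1 E) = dotS (ek E lk2) r2_1_1 :=
  op_entryZ E lk2 1 3 _ _ _ _ (pg0 κ) (pg2 ι) m2_1 m2_1 l2_1 z2_1 w2_1 x2_1 (by decide) _ (chkS_sound E lk2 1 3 _ _ _ _ t2_1_1)

def r2_1_2 : List (ℕ × ℤ) := [(72, 6), (165, -6)]

theorem h2_1_2 (E : Env κ ι) : ip (F2_1 E) (F2_2 E) = dotS (ek E lk2) r2_1_2 :=
  op_entryZ E lk2 1 3 _ _ _ _ (pg0 κ) (pg2 ι) m2_1 m2_2 l2_2 z2_2 w2_2 x2_2 (by decide) _ (chkS_sound E lk2 1 3 _ _ _ _ t2_1_2)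

def r2_1_3 : List (ℕ × ℤ) := [(72, -2), (75, -2), (106, 4), (163, 2), (164, -2)]

theorem h2_1_3 (E : Env κ ι) : ip (F2_1 E) (F2_3 E) = dotS (ek E lk2) r2_1_3 :=
  op_entryZ E lk2 1 3 _ _ _ _ (pg0 κ) (pg2 ι) m2_1 m2_3 l2_3 z2_3 w2_3 x2_3 (by decide) _ (chkS_sound E lk2 1 3 _ _ _ _ t2_1_3)

def r2_1_4 : List (ℕ × ℤ) := [(35, -6), (166, 6)]

theorem h2_1_4 (E : Env κ ι) : ip (F2_1 E) (F2_4 E) = dotS (ek E lk2) r2_1_4 :=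
  op_entryZ E lk2 1 3 _ _ _ _ (pg0 κ) (pg2 ι) m2_1 m2_4 l2_4 z2_4 w2_4 x2_4 (by decide) _ (chkS_sound E lk2 1 3 _ _ _ _ t2_1_4)

def r2_1_5 : List (ℕ × ℤ) := [(167, 6), (168, -6)]

theorem h2_1_5 (E : Env κ ι) : ip (F2_1 E) (F2_5 E) = dotS (ek E lk2) r2_1_5 :=
  op_entryZ E lk2 1 3 _ _ _ _ (pg0 κ) (pg2 ι) m2_1 m2_5 l2_5 z2_5 w2_5 x2_5 (by decide) _ (chkS_sound E lk2 1 3 _ _ _ _ t2_1_5)

def r2_1_6 : List (ℕ × ℤ) := [(74, -6), (169, 6)]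

theorem h2_1_6 (E : Env κ ι) : ip (F2_1 E) (F2_6 E) = dotS (ek E lk2) r2_1_6 :=
  op_entryZ E lk2 1 3 _ _ _ _ (pg0 κ) (pg2 ι) m2_1 m2_6 l2_6 z2_6 w2_6 x2_6 (by decide) _ (chkS_sound E lk2 1 3 _ _ _ _ t2_1_6)

def r2_1_7 : List (ℕ × ℤ) := [(89, 4), (106, 2), (168, -2), (170, 2), (171, -2), (172, -4)]

theorem h2_1_7 (E : Env κ ι) : ip (F2_1 E) (F2_7 E) = dotS (ek E lk2) r2_1_7 :=
  op_entryZ E lk2 1 3 _ _ _ _ (pg0 κ) (pg2 ι) m2_1 m2_7 l2_7 z2_7 w2_7 x2_7 (by decide) _ (chkS_sound E lk2 1 3 _ _ _ _ t2_1_7)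

def r2_1_8 : List (ℕ × ℤ) := [(89, 2), (106, -2), (168, -4), (170, 4), (171, 2), (172, -2)]

theorem h2_1_8 (E : Env κ ι) : ip (F2_1 E) (F2_8 E) = dotS (ek E lk2) r2_1_8 :=
  op_entryZ E lk2 1 3 _ _ _ _ (pg0 κ) (pg2 ι) m2_1 m2_8 l2_8 z2_8 w2_8 x2_8 (by decide) _ (chkS_sound E lk2 1 3 _ _ _ _ t2_1_8)

def r2_1_9 : List (ℕ × ℤ) := [(75, -6), (171, 6)]

theorem h2_1_9 (E : Env κ ι) : ip (F2_1 E) (F2_9 E) = dotS (ek E lk2) r2_1_9 :=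
  op_entryZ E lk2 1 3 _ _ _ _ (pg0 κ) (pg2 ι) m2_1 m2_9 l2_9 z2_9 w2_9 x2_9 (by decide) _ (chkS_sound E lk2 1 3 _ _ _ _ t2_1_9)

def r2_1_10 : List (ℕ × ℤ) := [(167, -6), (170, 6)]

theorem h2_1_10 (E : Env κ ι) : ip (F2_1 E) (F2_10 E) = dotS (ek E lk2) r2_1_10 :=
  op_entryZ E lk2 1 3 _ _ _ _ (pg0 κ) (pg2 ι) m2_1 m2_10 l2_10 z2_10 w2_10 x2_10 (by decide) _ (chkS_sound E lk2 1 3 _ _ _ _ t2_1_10)

def r2_1_11 : List (ℕ × ℤ) := [(30, -6), (173, 6)]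

theorem h2_1_11 (E : Env κ ι) : ip (F2_1 E) (F2_11 E) = dotS (ek E lk2) r2_1_11 :=
  op_entryZ E lk2 1 3 _ _ _ _ (pg0 κ) (pg2 ι) m2_1 m2_11 l2_11 z2_11 w2_11 x2_11 (by decide) _ (chkS_sound E lk2 1 3 _ _ _ _ t2_1_11)

def r2_1_12 : List (ℕ × ℤ) := [(78, -6), (174, 6)]

theorem h2_1_12 (E : Env κ ι) : ip (F2_1 E) (F2_12 E) = dotS (ek E lk2) r2_1_12 :=
  op_entryZ E lk2 1 3 _ _ _ _ (pg0 κ) (pg2 ι) m2_1 m2_12 l2_12 z2_12 w2_12 x2_12 (by decide) _ (chkS_sound E lk2 1 3 _ _ _ _ t2_1_12)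

def r2_1_13 : List (ℕ × ℤ) := [(175, 6), (177, -6)]

theorem h2_1_13 (E : Env κ ι) : ip (F2_1 E) (F2_13 E) = dotS (ek E lk2) r2_1_13 :=
  op_entryZ E lk2 1 3 _ _ _ _ (pg0 κ) (pg2 ι) m2_1 m2_13 l2_13 z2_13 w2_13 x2_13 (by decide) _ (chkS_sound E lk2 1 3 _ _ _ _ t2_1_13)

def r2_1_14 : List (ℕ × ℤ) := [(77, -4), (80, -2), (107, -2), (112, 2), (178, 4), (179, 2)]

theorem h2_1_14 (E : Env κ ι) : ip (F2_1 E) (F2_14 E) = dotS (ek E lk2) r2_1_14 :=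
  op_entryZ E lk2 1 3 _ _ _ _ (pg0 κ) (pg2 ι) m2_1 m2_14 l2_14 z2_14 w2_14 x2_14 (by decide) _ (chkS_sound E lk2 1 3 _ _ _ _ t2_1_14)

def r2_1_15 : List (ℕ × ℤ) := [(177, -6), (180, 6)]

theorem h2_1_15 (E : Env κ ι) : ip (F2_1 E) (F2_15 E) = dotS (ek E lk2) r2_1_15 :=
  op_entryZ E lk2 1 3 _ _ _ _ (pg0 κ) (pg2 ι) m2_1 m2_15 l2_15 z2_15 w2_15 x2_15 (by decide) _ (chkS_sound E lk2 1 3 _ _ _ _ t2_1_15)

def r2_1_16 : List (ℕ × ℤ) := [(77, -2), (80, 2), (107, -4), (112, 4), (178, 2), (179, -2)]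

theorem h2_1_16 (E : Env κ ι) : ip (F2_1 E) (F2_16 E) = dotS (ek E lk2) r2_1_16 :=
  op_entryZ E lk2 1 3 _ _ _ _ (pg0 κ) (pg2 ι) m2_1 m2_16 l2_16 z2_16 w2_16 x2_16 (by decide) _ (chkS_sound E lk2 1 3 _ _ _ _ t2_1_16)

def r2_1_17 : List (ℕ × ℤ) := [(112, 6), (182, -6)]

theorem h2_1_17 (E : Env κ ι) : ip (F2_1 E) (F2_17 E) = dotS (ek E lk2) r2_1_17 :=
  op_entryZ E lk2 1 3 _ _ _ _ (pg0 κ) (pg2 ι) m2_1 m2_17 l2_17 z2_17 w2_17 x2_17 (by decide) _ (chkS_sound E lk2 1 3 _ _ _ _ t2_1_17)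

def r2_1_18 : List (ℕ × ℤ) := [(175, -4), (176, -2), (180, 4), (181, 2), (183, 2), (184, -2)]

theorem h2_1_18 (E : Env κ ι) : ip (F2_1 E) (F2_18 E) = dotS (ek E lk2) r2_1_18 :=
  op_entryZ E lk2 1 3 _ _ _ _ (pg0 κ) (pg2 ι) m2_1 m2_18 l2_18 z2_18 w2_18 x2_18 (by decide) _ (chkS_sound E lk2 1 3 _ _ _ _ t2_1_18)

def r2_1_19 : List (ℕ × ℤ) := [(175, -2), (176, -4), (180, 2), (181, -2), (183, 4), (184, 2)]

theorem h2_1_19 (E : Env κ ι) : ip (F2_1 E) (F2_19 E) = dotS (ek E lk2) r2_1_19 :=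
  op_entryZ E lk2 1 3 _ _ _ _ (pg0 κ) (pg2 ι) m2_1 m2_19 l2_19 z2_19 w2_19 x2_19 (by decide) _ (chkS_sound E lk2 1 3 _ _ _ _ t2_1_19)

def r2_1_20 : List (ℕ × ℤ) := [(55, -2), (59, -4), (60, 2), (81, -2), (185, 4), (186, 2)]

theorem h2_1_20 (E : Env κ ι) : ip (F2_1 E) (F2_20 E) = dotS (ek E lk2) r2_1_20 :=
  op_entryZ E lk2 1 3 _ _ _ _ (pg0 κ) (pg2 ι) m2_1 m2_20 l2_20 z2_20 w2_20 x2_20 (by decide) _ (chkS_sound E lk2 1 3 _ _ _ _ t2_1_20)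

def r2_1_21 : List (ℕ × ℤ) := [(60, 6), (187, -6)]

theorem h2_1_21 (E : Env κ ι) : ip (F2_1 E) (F2_21 E) = dotS (ek E lk2) r2_1_21 :=
  op_entryZ E lk2 1 3 _ _ _ _ (pg0 κ) (pg2 ι) m2_1 m2_21 l2_21 z2_21 w2_21 x2_21 (by decide) _ (chkS_sound E lk2 1 3 _ _ _ _ t2_1_21)

def r2_1_22 : List (ℕ × ℤ) := [(55, -4), (59, -2), (60, 4), (81, 2), (185, 2), (186, -2)]

theorem h2_1_22 (E : Env κ ι) : ip (F2_1 E) (F2_22 E) = dotS (ek E lk2) r2_1_22 :=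
  op_entryZ E lk2 1 3 _ _ _ _ (pg0 κ) (pg2 ι) m2_1 m2_22 l2_22 z2_22 w2_22 x2_22 (by decide) _ (chkS_sound E lk2 1 3 _ _ _ _ t2_1_22)

def r2_1_23 : List (ℕ × ℤ) := [(188, 6), (190, -6)]

theorem h2_1_23 (E : Env κ ι) : ip (F2_1 E) (F2_23 E) = dotS (ek E lk2) r2_1_23 :=
  op_entryZ E lk2 1 3 _ _ _ _ (pg0 κ) (pg2 ι) m2_1 m2_23 l2_23 z2_23 w2_23 x2_23 (by decide) _ (chkS_sound E lk2 1 3 _ _ _ _ t2_1_23)

def r2_1_24 : List (ℕ × ℤ) := [(31, -6), (191, 6)]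

theorem h2_1_24 (E : Env κ ι) : ip (F2_1 E) (F2_24 E) = dotS (ek E lk2) r2_1_24 :=
  op_entryZ E lk2 1 3 _ _ _ _ (pg0 κ) (pg2 ι) m2_1 m2_24 l2_24 z2_24 w2_24 x2_24 (by decide) _ (chkS_sound E lk2 1 3 _ _ _ _ t2_1_24)

def r2_1_25 : List (ℕ × ℤ) := [(80, -6), (192, 6)]

theorem h2_1_25 (E : Env κ ι) : ip (F2_1 E) (F2_25 E) = dotS (ek E lk2) r2_1_25 :=
  op_entryZ E lk2 1 3 _ _ _ _ (pg0 κ) (pg2 ι) m2_1 m2_25 l2_25 z2_25 w2_25 x2_25 (by decide) _ (chkS_sound E lk2 1 3 _ _ _ _ t2_1_25)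

def r2_1_26 : List (ℕ × ℤ) := [(81, -6), (193, 6)]

theorem h2_1_26 (E : Env κ ι) : ip (F2_1 E) (F2_26 E) = dotS (ek E lk2) r2_1_26 :=
  op_entryZ E lk2 1 3 _ _ _ _ (pg0 κ) (pg2 ι) m2_1 m2_26 l2_26 z2_26 w2_26 x2_26 (by decide) _ (chkS_sound E lk2 1 3 _ _ _ _ t2_1_26)

def r2_1_27 : List (ℕ × ℤ) := [(22, -6), (194, 6)]

theorem h2_1_27 (E : Env κ ι) : ip (F2_1 E) (F2_27 E) = dotS (ek E lk2) r2_1_27 :=
  op_entryZ E lk2 1 3 _ _ _ _ (pg0 κ) (pg2 ι) m2_1 m2_27 l2_27 z2_27 w2_27 x2_27 (by decide) _ (chkS_sound E lk2 1 3 _ _ _ _ t2_1_27)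

def r2_1_28 : List (ℕ × ℤ) := [(195, 6), (197, -6)]

theorem h2_1_28 (E : Env κ ι) : ip (F2_1 E) (F2_28 E) = dotS (ek E lk2) r2_1_28 :=
  op_entryZ E lk2 1 3 _ _ _ _ (pg0 κ) (pg2 ι) m2_1 m2_28 l2_28 z2_28 w2_28 x2_28 (by decide) _ (chkS_sound E lk2 1 3 _ _ _ _ t2_1_28)

def r2_2_2 : List (ℕ × ℤ) := [(72, -6), (73, 6)]

theorem h2_2_2 (E : Env κ ι) : ip (F2_2 E) (F2_2 E) = dotS (ek E lk2) r2_2_2 :=
  op_entryZ E lk2 1 3 _ _ _ _ (pg0 κ) (pg2 ι) m2_2 m2_2 l2_2 z2_2 w2_2 x2_2 (by decide) _ (chkS_sound E lk2 1 3 _ _ _ _ t2_2_2)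

def r2_2_3 : List (ℕ × ℤ) := [(72, 6), (75, -6), (165, 0)]

theorem h2_2_3 (E : Env κ ι) : ip (F2_2 E) (F2_3 E) = dotS (ek E lk2) r2_2_3 :=
  op_entryZ E lk2 1 3 _ _ _ _ (pg0 κ) (pg2 ι) m2_2 m2_3 l2_3 z2_3 w2_3 x2_3 (by decide) _ (chkS_sound E lk2 1 3 _ _ _ _ t2_2_3)

def r2_2_4 : List (ℕ × ℤ) := [(35, 6), (198, -6)]

theorem h2_2_4 (E : Env κ ι) : ip (F2_2 E) (F2_4 E) = dotS (ek E lk2) r2_2_4 :=
  op_entryZ E lk2 1 3 _ _ _ _ (pg0 κ) (pg2 ι) m2_2 m2_4 l2_4 z2_4 w2_4 x2_4 (by decide) _ (chkS_sound E lk2 1 3 _ _ _ _ t2_2_4)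

def r2_2_5 : List (ℕ × ℤ) := [(35, -6), (75, 6)]

theorem h2_2_5 (E : Env κ ι) : ip (F2_2 E) (F2_5 E) = dotS (ek E lk2) r2_2_5 :=
  op_entryZ E lk2 1 3 _ _ _ _ (pg0 κ) (pg2 ι) m2_2 m2_5 l2_5 z2_5 w2_5 x2_5 (by decide) _ (chkS_sound E lk2 1 3 _ _ _ _ t2_2_5)

def r2_2_6 : List (ℕ × ℤ) := [(74, 6), (199, -6)]

theorem h2_2_6 (E : Env κ ι) : ip (F2_2 E) (F2_6 E) = dotS (ek E lk2) r2_2_6 :=
  op_entryZ E lk2 1 3 _ _ _ _ (pg0 κ) (pg2 ι) m2_2 m2_6 l2_6 z2_6 w2_6 x2_6 (by decide) _ (chkS_sound E lk2 1 3 _ _ _ _ t2_2_6)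

def r2_2_7 : List (ℕ × ℤ) := [(64, 6), (74, -6), (75, 0)]

theorem h2_2_7 (E : Env κ ι) : ip (F2_2 E) (F2_7 E) = dotS (ek E lk2) r2_2_7 :=
  op_entryZ E lk2 1 3 _ _ _ _ (pg0 κ) (pg2 ι) m2_2 m2_7 l2_7 z2_7 w2_7 x2_7 (by decide) _ (chkS_sound E lk2 1 3 _ _ _ _ t2_2_7)

def r2_2_8 : List (ℕ × ℤ) := [(74, -6), (75, 6)]

theorem h2_2_8 (E : Env κ ι) : ip (F2_2 E) (F2_8 E) = dotS (ek E lk2) r2_2_8 :=
  op_entryZ E lk2 1 3 _ _ _ _ (pg0 κ) (pg2 ι) m2_2 m2_8 l2_8 z2_8 w2_8 x2_8 (by decide) _ (chkS_sound E lk2 1 3 _ _ _ _ t2_2_8)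

def r2_2_9 : List (ℕ × ℤ) := [(64, -6), (72, 6)]

theorem h2_2_9 (E : Env κ ι) : ip (F2_2 E) (F2_9 E) = dotS (ek E lk2) r2_2_9 :=
  op_entryZ E lk2 1 3 _ _ _ _ (pg0 κ) (pg2 ι) m2_2 m2_9 l2_9 z2_9 w2_9 x2_9 (by decide) _ (chkS_sound E lk2 1 3 _ _ _ _ t2_2_9)

def r2_2_10 : List (ℕ × ℤ) := [(35, 6), (74, -6)]

theorem h2_2_10 (E : Env κ ι) : ip (F2_2 E) (F2_10 E) = dotS (ek E lk2) r2_2_10 :=
  op_entryZ E lk2 1 3 _ _ _ _ (pg0 κ) (pg2 ι) m2_2 m2_10 l2_10 z2_10 w2_10 x2_10 (by decide) _ (chkS_sound E lk2 1 3 _ _ _ _ t2_2_10)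

def r2_2_11 : List (ℕ × ℤ) := [(26, 6), (200, -6)]

theorem h2_2_11 (E : Env κ ι) : ip (F2_2 E) (F2_11 E) = dotS (ek E lk2) r2_2_11 :=
  op_entryZ E lk2 1 3 _ _ _ _ (pg0 κ) (pg2 ι) m2_2 m2_11 l2_11 z2_11 w2_11 x2_11 (by decide) _ (chkS_sound E lk2 1 3 _ _ _ _ t2_2_11)

def r2_2_12 : List (ℕ × ℤ) := [(201, 6), (202, -6)]

theorem h2_2_12 (E : Env κ ι) : ip (F2_2 E) (F2_12 E) = dotS (ek E lk2) r2_2_12 :=
  op_entryZ E lk2 1 3 _ _ _ _ (pg0 κ) (pg2 ι) m2_2 m2_12 l2_12 z2_12 w2_12 x2_12 (by decide) _ (chkS_sound E lk2 1 3 _ _ _ _ t2_2_12)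

def r2_2_13 : List (ℕ × ℤ) := [(26, 6), (201, -6)]

theorem h2_2_13 (E : Env κ ι) : ip (F2_2 E) (F2_13 E) = dotS (ek E lk2) r2_2_13 :=
  op_entryZ E lk2 1 3 _ _ _ _ (pg0 κ) (pg2 ι) m2_2 m2_13 l2_13 z2_13 w2_13 x2_13 (by decide) _ (chkS_sound E lk2 1 3 _ _ _ _ t2_2_13)

def r2_2_14 : List (ℕ × ℤ) := [(77, 6), (204, -6)]

theorem h2_2_14 (E : Env κ ι) : ip (F2_2 E) (F2_14 E) = dotS (ek E lk2) r2_2_14 :=
  op_entryZ E lk2 1 3 _ _ _ _ (pg0 κ) (pg2 ι) m2_2 m2_14 l2_14 z2_14 w2_14 x2_14 (by decide) _ (chkS_sound E lk2 1 3 _ _ _ _ t2_2_14)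

def r2_2_15 : List (ℕ × ℤ) := [(30, 6), (205, -6)]

theorem h2_2_15 (E : Env κ ι) : ip (F2_2 E) (F2_15 E) = dotS (ek E lk2) r2_2_15 :=
  op_entryZ E lk2 1 3 _ _ _ _ (pg0 κ) (pg2 ι) m2_2 m2_15 l2_15 z2_15 w2_15 x2_15 (by decide) _ (chkS_sound E lk2 1 3 _ _ _ _ t2_2_15)

def r2_2_16 : List (ℕ × ℤ) := [(77, 6), (203, -6), (204, 0)]

theorem h2_2_16 (E : Env κ ι) : ip (F2_2 E) (F2_16 E) = dotS (ek E lk2) r2_2_16 :=
  op_entryZ E lk2 1 3 _ _ _ _ (pg0 κ) (pg2 ι) m2_2 m2_16 l2_16 z2_16 w2_16 x2_16 (by decide) _ (chkS_sound E lk2 1 3 _ _ _ _ t2_2_16)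

def r2_2_17 : List (ℕ × ℤ) := [(76, 6), (203, -6)]

theorem h2_2_17 (E : Env κ ι) : ip (F2_2 E) (F2_17 E) = dotS (ek E lk2) r2_2_17 :=
  op_entryZ E lk2 1 3 _ _ _ _ (pg0 κ) (pg2 ι) m2_2 m2_17 l2_17 z2_17 w2_17 x2_17 (by decide) _ (chkS_sound E lk2 1 3 _ _ _ _ t2_2_17)

def r2_2_18 : List (ℕ × ℤ) := [(78, 6), (205, -6), (206, 0)]

theorem h2_2_18 (E : Env κ ι) : ip (F2_2 E) (F2_18 E) = dotS (ek E lk2) r2_2_18 :=
  op_entryZ E lk2 1 3 _ _ _ _ (pg0 κ) (pg2 ι) m2_2 m2_18 l2_18 z2_18 w2_18 x2_18 (by decide) _ (chkS_sound E lk2 1 3 _ _ _ _ t2_2_18)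

def r2_2_19 : List (ℕ × ℤ) := [(78, 6), (206, -6)]

theorem h2_2_19 (E : Env κ ι) : ip (F2_2 E) (F2_19 E) = dotS (ek E lk2) r2_2_19 :=
  op_entryZ E lk2 1 3 _ _ _ _ (pg0 κ) (pg2 ι) m2_2 m2_19 l2_19 z2_19 w2_19 x2_19 (by decide) _ (chkS_sound E lk2 1 3 _ _ _ _ t2_2_19)

def r2_2_20 : List (ℕ × ℤ) := [(59, 6), (208, -6)]

theorem h2_2_20 (E : Env κ ι) : ip (F2_2 E) (F2_20 E) = dotS (ek E lk2) r2_2_20 :=
  op_entryZ E lk2 1 3 _ _ _ _ (pg0 κ) (pg2 ι) m2_2 m2_20 l2_20 z2_20 w2_20 x2_20 (by decide) _ (chkS_sound E lk2 1 3 _ _ _ _ t2_2_20)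

def r2_2_21 : List (ℕ × ℤ) := [(47, 6), (207, -6)]

theorem h2_2_21 (E : Env κ ι) : ip (F2_2 E) (F2_21 E) = dotS (ek E lk2) r2_2_21 :=
  op_entryZ E lk2 1 3 _ _ _ _ (pg0 κ) (pg2 ι) m2_2 m2_21 l2_21 z2_21 w2_21 x2_21 (by decide) _ (chkS_sound E lk2 1 3 _ _ _ _ t2_2_21)

def r2_2_22 : List (ℕ × ℤ) := [(59, 6), (207, -6), (208, 0)]

theorem h2_2_22 (E : Env κ ι) : ip (F2_2 E) (F2_22 E) = dotS (ek E lk2) r2_2_22 :=
  op_entryZ E lk2 1 3 _ _ _ _ (pg0 κ) (pg2 ι) m2_2 m2_22 l2_22 z2_22 w2_22 x2_22 (by decide) _ (chkS_sound E lk2 1 3 _ _ _ _ t2_2_22)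

def r2_2_23 : List (ℕ × ℤ) := [(79, 6), (209, -6)]

theorem h2_2_23 (E : Env κ ι) : ip (F2_2 E) (F2_23 E) = dotS (ek E lk2) r2_2_23 :=
  op_entryZ E lk2 1 3 _ _ _ _ (pg0 κ) (pg2 ι) m2_2 m2_23 l2_23 z2_23 w2_23 x2_23 (by decide) _ (chkS_sound E lk2 1 3 _ _ _ _ t2_2_23)

def r2_2_24 : List (ℕ × ℤ) := [(9, -6), (31, 6)]

theorem h2_2_24 (E : Env κ ι) : ip (F2_2 E) (F2_24 E) = dotS (ek E lk2) r2_2_24 :=
  op_entryZ E lk2 1 3 _ _ _ _ (pg0 κ) (pg2 ι) m2_2 m2_24 l2_24 z2_24 w2_24 x2_24 (by decide) _ (chkS_sound E lk2 1 3 _ _ _ _ t2_2_24)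

def r2_2_25 : List (ℕ × ℤ) := [(80, 6), (87, -6)]

theorem h2_2_25 (E : Env κ ι) : ip (F2_2 E) (F2_25 E) = dotS (ek E lk2) r2_2_25 :=
  op_entryZ E lk2 1 3 _ _ _ _ (pg0 κ) (pg2 ι) m2_2 m2_25 l2_25 z2_25 w2_25 x2_25 (by decide) _ (chkS_sound E lk2 1 3 _ _ _ _ t2_2_25)

def r2_2_26 : List (ℕ × ℤ) := [(38, -6), (81, 6)]

theorem h2_2_26 (E : Env κ ι) : ip (F2_2 E) (F2_26 E) = dotS (ek E lk2) r2_2_26 :=
  op_entryZ E lk2 1 3 _ _ _ _ (pg0 κ) (pg2 ι) m2_2 m2_26 l2_26 z2_26 w2_26 x2_26 (by decide) _ (chkS_sound E lk2 1 3 _ _ _ _ t2_2_26)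

def r2_2_27 : List (ℕ × ℤ) := [(4, -6), (22, 6)]

theorem h2_2_27 (E : Env κ ι) : ip (F2_2 E) (F2_27 E) = dotS (ek E lk2) r2_2_27 :=
  op_entryZ E lk2 1 3 _ _ _ _ (pg0 κ) (pg2 ι) m2_2 m2_27 l2_27 z2_27 w2_27 x2_27 (by decide) _ (chkS_sound E lk2 1 3 _ _ _ _ t2_2_27)

def r2_2_28 : List (ℕ × ℤ) := [(210, 6), (211, -6)]

theorem h2_2_28 (E : Env κ ι) : ip (F2_2 E) (F2_28 E) = dotS (ek E lk2) r2_2_28 :=
  op_entryZ E lk2 1 3 _ _ _ _ (pg0 κ) (pg2 ι) m2_2 m2_28 l2_28 z2_28 w2_28 x2_28 (by decide) _ (chkS_sound E lk2 1 3 _ _ _ _ t2_2_28)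

def r2_3_3 : List (ℕ × ℤ) := [(72, 2), (75, -4), (106, 2), (163, 4), (164, -4)]

theorem h2_3_3 (E : Env κ ι) : ip (F2_3 E) (F2_3 E) = dotS (ek E lk2) r2_3_3 :=
  op_entryZ E lk2 1 3 _ _ _ _ (pg0 κ) (pg2 ι) m2_3 m2_3 l2_3 z2_3 w2_3 x2_3 (by decide) _ (chkS_sound E lk2 1 3 _ _ _ _ t2_3_3)

def r2_3_4 : List (ℕ × ℤ) := [(35, -6), (96, 6)]

theorem h2_3_4 (E : Env κ ι) : ip (F2_3 E) (F2_4 E) = dotS (ek E lk2) r2_3_4 :=
  op_entryZ E lk2 1 3 _ _ _ _ (pg0 κ) (pg2 ι) m2_3 m2_4 l2_4 z2_4 w2_4 x2_4 (by decide) _ (chkS_sound E lk2 1 3 _ _ _ _ t2_3_4)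

def r2_3_5 : List (ℕ × ℤ) := [(106, 6), (168, -6)]

theorem h2_3_5 (E : Env κ ι) : ip (F2_3 E) (F2_5 E) = dotS (ek E lk2) r2_3_5 :=
  op_entryZ E lk2 1 3 _ _ _ _ (pg0 κ) (pg2 ι) m2_3 m2_5 l2_5 z2_5 w2_5 x2_5 (by decide) _ (chkS_sound E lk2 1 3 _ _ _ _ t2_3_5)

def r2_3_6 : List (ℕ × ℤ) := [(74, -6), (89, 6)]

theorem h2_3_6 (E : Env κ ι) : ip (F2_3 E) (F2_6 E) = dotS (ek E lk2) r2_3_6 :=
  op_entryZ E lk2 1 3 _ _ _ _ (pg0 κ) (pg2 ι) m2_3 m2_6 l2_6 z2_6 w2_6 x2_6 (by decide) _ (chkS_sound E lk2 1 3 _ _ _ _ t2_3_6)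

def r2_3_7 : List (ℕ × ℤ) := [(89, 2), (106, 4), (168, -4), (170, -2), (171, 2), (172, -2)]

theorem h2_3_7 (E : Env κ ι) : ip (F2_3 E) (F2_7 E) = dotS (ek E lk2) r2_3_7 :=
  op_entryZ E lk2 1 3 _ _ _ _ (pg0 κ) (pg2 ι) m2_3 m2_7 l2_7 z2_7 w2_7 x2_7 (by decide) _ (chkS_sound E lk2 1 3 _ _ _ _ t2_3_7)

def r2_3_8 : List (ℕ × ℤ) := [(89, -2), (106, 2), (168, -2), (170, 2), (171, 4), (172, -4)]

theorem h2_3_8 (E : Env κ ι) : ip (F2_3 E) (F2_8 E) = dotS (ek E lk2) r2_3_8 :=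
  op_entryZ E lk2 1 3 _ _ _ _ (pg0 κ) (pg2 ι) m2_3 m2_8 l2_8 z2_8 w2_8 x2_8 (by decide) _ (chkS_sound E lk2 1 3 _ _ _ _ t2_3_8)

def r2_3_9 : List (ℕ × ℤ) := [(72, 6), (75, -6)]

theorem h2_3_9 (E : Env κ ι) : ip (F2_3 E) (F2_9 E) = dotS (ek E lk2) r2_3_9 :=
  op_entryZ E lk2 1 3 _ _ _ _ (pg0 κ) (pg2 ι) m2_3 m2_9 l2_9 z2_9 w2_9 x2_9 (by decide) _ (chkS_sound E lk2 1 3 _ _ _ _ t2_3_9)

def r2_3_10 : List (ℕ × ℤ) := [(89, -6), (170, 6)]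

theorem h2_3_10 (E : Env κ ι) : ip (F2_3 E) (F2_10 E) = dotS (ek E lk2) r2_3_10 :=
  op_entryZ E lk2 1 3 _ _ _ _ (pg0 κ) (pg2 ι) m2_3 m2_10 l2_10 z2_10 w2_10 x2_10 (by decide) _ (chkS_sound E lk2 1 3 _ _ _ _ t2_3_10)

def r2_3_11 : List (ℕ × ℤ) := [(30, -6), (109, 6)]

theorem h2_3_11 (E : Env κ ι) : ip (F2_3 E) (F2_11 E) = dotS (ek E lk2) r2_3_11 :=
  op_entryZ E lk2 1 3 _ _ _ _ (pg0 κ) (pg2 ι) m2_3 m2_11 l2_11 z2_11 w2_11 x2_11 (by decide) _ (chkS_sound E lk2 1 3 _ _ _ _ t2_3_11)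

def r2_3_12 : List (ℕ × ℤ) := [(78, -6), (108, 6)]

theorem h2_3_12 (E : Env κ ι) : ip (F2_3 E) (F2_12 E) = dotS (ek E lk2) r2_3_12 :=
  op_entryZ E lk2 1 3 _ _ _ _ (pg0 κ) (pg2 ι) m2_3 m2_12 l2_12 z2_12 w2_12 x2_12 (by decide) _ (chkS_sound E lk2 1 3 _ _ _ _ t2_3_12)

def r2_3_13 : List (ℕ × ℤ) := [(175, 6), (176, -6)]

theorem h2_3_13 (E : Env κ ι) : ip (F2_3 E) (F2_13 E) = dotS (ek E lk2) r2_3_13 :=
  op_entryZ E lk2 1 3 _ _ _ _ (pg0 κ) (pg2 ι) m2_3 m2_13 l2_13 z2_13 w2_13 x2_13 (by decide) _ (chkS_sound E lk2 1 3 _ _ _ _ t2_3_13)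

def r2_3_14 : List (ℕ × ℤ) := [(77, -2), (80, -4), (107, 2), (112, 4), (178, 2), (179, -2)]

theorem h2_3_14 (E : Env κ ι) : ip (F2_3 E) (F2_14 E) = dotS (ek E lk2) r2_3_14 :=
  op_entryZ E lk2 1 3 _ _ _ _ (pg0 κ) (pg2 ι) m2_3 m2_14 l2_14 z2_14 w2_14 x2_14 (by decide) _ (chkS_sound E lk2 1 3 _ _ _ _ t2_3_14)

def r2_3_15 : List (ℕ × ℤ) := [(180, 6), (181, -6)]

theorem h2_3_15 (E : Env κ ι) : ip (F2_3 E) (F2_15 E) = dotS (ek E lk2) r2_3_15 :=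
  op_entryZ E lk2 1 3 _ _ _ _ (pg0 κ) (pg2 ι) m2_3 m2_15 l2_15 z2_15 w2_15 x2_15 (by decide) _ (chkS_sound E lk2 1 3 _ _ _ _ t2_3_15)

def r2_3_16 : List (ℕ × ℤ) := [(77, 2), (80, -2), (107, -2), (112, 2), (178, 4), (179, -4)]

theorem h2_3_16 (E : Env κ ι) : ip (F2_3 E) (F2_16 E) = dotS (ek E lk2) r2_3_16 :=
  op_entryZ E lk2 1 3 _ _ _ _ (pg0 κ) (pg2 ι) m2_3 m2_16 l2_16 z2_16 w2_16 x2_16 (by decide) _ (chkS_sound E lk2 1 3 _ _ _ _ t2_3_16)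

def r2_3_17 : List (ℕ × ℤ) := [(80, -6), (112, 6)]

theorem h2_3_17 (E : Env κ ι) : ip (F2_3 E) (F2_17 E) = dotS (ek E lk2) r2_3_17 :=
  op_entryZ E lk2 1 3 _ _ _ _ (pg0 κ) (pg2 ι) m2_3 m2_17 l2_17 z2_17 w2_17 x2_17 (by decide) _ (chkS_sound E lk2 1 3 _ _ _ _ t2_3_17)

def r2_3_18 : List (ℕ × ℤ) := [(175, -2), (176, 2), (180, 2), (181, -2), (183, 4), (184, -4)]

theorem h2_3_18 (E : Env κ ι) : ip (F2_3 E) (F2_18 E) = dotS (ek E lk2) r2_3_18 :=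
  op_entryZ E lk2 1 3 _ _ _ _ (pg0 κ) (pg2 ι) m2_3 m2_18 l2_18 z2_18 w2_18 x2_18 (by decide) _ (chkS_sound E lk2 1 3 _ _ _ _ t2_3_18)

def r2_3_19 : List (ℕ × ℤ) := [(175, 2), (176, -2), (180, 4), (181, -4), (183, 2), (184, -2)]

theorem h2_3_19 (E : Env κ ι) : ip (F2_3 E) (F2_19 E) = dotS (ek E lk2) r2_3_19 :=
  op_entryZ E lk2 1 3 _ _ _ _ (pg0 κ) (pg2 ι) m2_3 m2_19 l2_19 z2_19 w2_19 x2_19 (by decide) _ (chkS_sound E lk2 1 3 _ _ _ _ t2_3_19)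

def r2_3_20 : List (ℕ × ℤ) := [(55, 2), (59, -2), (60, 4), (81, -4), (185, 2), (186, -2)]

theorem h2_3_20 (E : Env κ ι) : ip (F2_3 E) (F2_20 E) = dotS (ek E lk2) r2_3_20 :=
  op_entryZ E lk2 1 3 _ _ _ _ (pg0 κ) (pg2 ι) m2_3 m2_20 l2_20 z2_20 w2_20 x2_20 (by decide) _ (chkS_sound E lk2 1 3 _ _ _ _ t2_3_20)

def r2_3_21 : List (ℕ × ℤ) := [(60, 6), (81, -6)]

theorem h2_3_21 (E : Env κ ι) : ip (F2_3 E) (F2_21 E) = dotS (ek E lk2) r2_3_21 :=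
  op_entryZ E lk2 1 3 _ _ _ _ (pg0 κ) (pg2 ι) m2_3 m2_21 l2_21 z2_21 w2_21 x2_21 (by decide) _ (chkS_sound E lk2 1 3 _ _ _ _ t2_3_21)

def r2_3_22 : List (ℕ × ℤ) := [(55, -2), (59, 2), (60, 2), (81, -2), (185, 4), (186, -4)]

theorem h2_3_22 (E : Env κ ι) : ip (F2_3 E) (F2_22 E) = dotS (ek E lk2) r2_3_22 :=
  op_entryZ E lk2 1 3 _ _ _ _ (pg0 κ) (pg2 ι) m2_3 m2_22 l2_22 z2_22 w2_22 x2_22 (by decide) _ (chkS_sound E lk2 1 3 _ _ _ _ t2_3_22)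

def r2_3_23 : List (ℕ × ℤ) := [(188, 6), (189, -6)]

theorem h2_3_23 (E : Env κ ι) : ip (F2_3 E) (F2_23 E) = dotS (ek E lk2) r2_3_23 :=
  op_entryZ E lk2 1 3 _ _ _ _ (pg0 κ) (pg2 ι) m2_3 m2_23 l2_23 z2_23 w2_23 x2_23 (by decide) _ (chkS_sound E lk2 1 3 _ _ _ _ t2_3_23)

def r2_3_24 : List (ℕ × ℤ) := [(31, -6), (111, 6)]

theorem h2_3_24 (E : Env κ ι) : ip (F2_3 E) (F2_24 E) = dotS (ek E lk2) r2_3_24 :=
  op_entryZ E lk2 1 3 _ _ _ _ (pg0 κ) (pg2 ι) m2_3 m2_24 l2_24 z2_24 w2_24 x2_24 (by decide) _ (chkS_sound E lk2 1 3 _ _ _ _ t2_3_24)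

def r2_3_25 : List (ℕ × ℤ) := [(80, -6), (112, 6)]

theorem h2_3_25 (E : Env κ ι) : ip (F2_3 E) (F2_25 E) = dotS (ek E lk2) r2_3_25 :=
  op_entryZ E lk2 1 3 _ _ _ _ (pg0 κ) (pg2 ι) m2_3 m2_25 l2_25 z2_25 w2_25 x2_25 (by decide) _ (chkS_sound E lk2 1 3 _ _ _ _ t2_3_25)

def r2_3_26 : List (ℕ × ℤ) := [(60, 6), (81, -6)]

theorem h2_3_26 (E : Env κ ι) : ip (F2_3 E) (F2_26 E) = dotS (ek E lk2) r2_3_26 :=
  op_entryZ E lk2 1 3 _ _ _ _ (pg0 κ) (pg2 ι) m2_3 m2_26 l2_26 z2_26 w2_26 x2_26 (by decide) _ (chkS_sound E lk2 1 3 _ _ _ _ t2_3_26)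

def r2_3_27 : List (ℕ × ℤ) := [(22, -6), (63, 6)]

theorem h2_3_27 (E : Env κ ι) : ip (F2_3 E) (F2_27 E) = dotS (ek E lk2) r2_3_27 :=
  op_entryZ E lk2 1 3 _ _ _ _ (pg0 κ) (pg2 ι) m2_3 m2_27 l2_27 z2_27 w2_27 x2_27 (by decide) _ (chkS_sound E lk2 1 3 _ _ _ _ t2_3_27)

def r2_3_28 : List (ℕ × ℤ) := [(195, 6), (196, -6)]

theorem h2_3_28 (E : Env κ ι) : ip (F2_3 E) (F2_28 E) = dotS (ek E lk2) r2_3_28 :=
  op_entryZ E lk2 1 3 _ _ _ _ (pg0 κ) (pg2 ι) m2_3 m2_28 l2_28 z2_28 w2_28 x2_28 (by decide) _ (chkS_sound E lk2 1 3 _ _ _ _ t2_3_28)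

def r2_4_4 : List (ℕ × ℤ) := [(95, -6), (212, 6)]

theorem h2_4_4 (E : Env κ ι) : ip (F2_4 E) (F2_4 E) = dotS (ek E lk2) r2_4_4 :=
  op_entryZ E lk2 1 3 _ _ _ _ (pg0 κ) (pg2 ι) m2_4 m2_4 l2_4 z2_4 w2_4 x2_4 (by decide) _ (chkS_sound E lk2 1 3 _ _ _ _ t2_4_4)

def r2_4_5 : List (ℕ × ℤ) := [(95, 6), (213, -6)]

theorem h2_4_5 (E : Env κ ι) : ip (F2_4 E) (F2_5 E) = dotS (ek E lk2) r2_4_5 :=
  op_entryZ E lk2 1 3 _ _ _ _ (pg0 κ) (pg2 ι) m2_4 m2_5 l2_5 z2_5 w2_5 x2_5 (by decide) _ (chkS_sound E lk2 1 3 _ _ _ _ t2_4_5)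

def r2_4_6 : List (ℕ × ℤ) := [(34, -6), (214, 6)]

theorem h2_4_6 (E : Env κ ι) : ip (F2_4 E) (F2_6 E) = dotS (ek E lk2) r2_4_6 :=
  op_entryZ E lk2 1 3 _ _ _ _ (pg0 κ) (pg2 ι) m2_4 m2_6 l2_6 z2_6 w2_6 x2_6 (by decide) _ (chkS_sound E lk2 1 3 _ _ _ _ t2_4_6)

def r2_4_7 : List (ℕ × ℤ) := [(34, 6), (215, -6)]

theorem h2_4_7 (E : Env κ ι) : ip (F2_4 E) (F2_7 E) = dotS (ek E lk2) r2_4_7 :=
  op_entryZ E lk2 1 3 _ _ _ _ (pg0 κ) (pg2 ι) m2_4 m2_7 l2_7 z2_7 w2_7 x2_7 (by decide) _ (chkS_sound E lk2 1 3 _ _ _ _ t2_4_7)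

def r2_4_8 : List (ℕ × ℤ) := [(34, 6), (213, -6), (215, 0)]

theorem h2_4_8 (E : Env κ ι) : ip (F2_4 E) (F2_8 E) = dotS (ek E lk2) r2_4_8 :=
  op_entryZ E lk2 1 3 _ _ _ _ (pg0 κ) (pg2 ι) m2_4 m2_8 l2_8 z2_8 w2_8 x2_8 (by decide) _ (chkS_sound E lk2 1 3 _ _ _ _ t2_4_8)

def r2_4_9 : List (ℕ × ℤ) := [(35, -6), (67, 6)]

theorem h2_4_9 (E : Env κ ι) : ip (F2_4 E) (F2_9 E) = dotS (ek E lk2) r2_4_9 :=
  op_entryZ E lk2 1 3 _ _ _ _ (pg0 κ) (pg2 ι) m2_4 m2_9 l2_9 z2_9 w2_9 x2_9 (by decide) _ (chkS_sound E lk2 1 3 _ _ _ _ t2_4_9)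

def r2_4_10 : List (ℕ × ℤ) := [(34, 6), (95, -6)]

theorem h2_4_10 (E : Env κ ι) : ip (F2_4 E) (F2_10 E) = dotS (ek E lk2) r2_4_10 :=
  op_entryZ E lk2 1 3 _ _ _ _ (pg0 κ) (pg2 ι) m2_4 m2_10 l2_10 z2_10 w2_10 x2_10 (by decide) _ (chkS_sound E lk2 1 3 _ _ _ _ t2_4_10)

def r2_4_11 : List (ℕ × ℤ) := [(100, -6), (216, 6)]

theorem h2_4_11 (E : Env κ ι) : ip (F2_4 E) (F2_11 E) = dotS (ek E lk2) r2_4_11 :=
  op_entryZ E lk2 1 3 _ _ _ _ (pg0 κ) (pg2 ι) m2_4 m2_11 l2_11 z2_11 w2_11 x2_11 (by decide) _ (chkS_sound E lk2 1 3 _ _ _ _ t2_4_11)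

def r2_4_12 : List (ℕ × ℤ) := [(99, -6), (217, 6)]

theorem h2_4_12 (E : Env κ ι) : ip (F2_4 E) (F2_12 E) = dotS (ek E lk2) r2_4_12 :=
  op_entryZ E lk2 1 3 _ _ _ _ (pg0 κ) (pg2 ι) m2_4 m2_12 l2_12 z2_12 w2_12 x2_12 (by decide) _ (chkS_sound E lk2 1 3 _ _ _ _ t2_4_12)

def r2_4_13 : List (ℕ × ℤ) := [(99, 6), (100, -6)]

theorem h2_4_13 (E : Env κ ι) : ip (F2_4 E) (F2_13 E) = dotS (ek E lk2) r2_4_13 :=
  op_entryZ E lk2 1 3 _ _ _ _ (pg0 κ) (pg2 ι) m2_4 m2_13 l2_13 z2_13 w2_13 x2_13 (by decide) _ (chkS_sound E lk2 1 3 _ _ _ _ t2_4_13)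

def r2_4_14 : List (ℕ × ℤ) := [(98, -6), (218, 6)]

theorem h2_4_14 (E : Env κ ι) : ip (F2_4 E) (F2_14 E) = dotS (ek E lk2) r2_4_14 :=
  op_entryZ E lk2 1 3 _ _ _ _ (pg0 κ) (pg2 ι) m2_4 m2_14 l2_14 z2_14 w2_14 x2_14 (by decide) _ (chkS_sound E lk2 1 3 _ _ _ _ t2_4_14)

def r2_4_15 : List (ℕ × ℤ) := [(100, -6), (219, 6)]

theorem h2_4_15 (E : Env κ ι) : ip (F2_4 E) (F2_15 E) = dotS (ek E lk2) r2_4_15 :=
  op_entryZ E lk2 1 3 _ _ _ _ (pg0 κ) (pg2 ι) m2_4 m2_15 l2_15 z2_15 w2_15 x2_15 (by decide) _ (chkS_sound E lk2 1 3 _ _ _ _ t2_4_15)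

def r2_4_16 : List (ℕ × ℤ) := [(98, -6), (104, 6), (218, 0)]

theorem h2_4_16 (E : Env κ ι) : ip (F2_4 E) (F2_16 E) = dotS (ek E lk2) r2_4_16 :=
  op_entryZ E lk2 1 3 _ _ _ _ (pg0 κ) (pg2 ι) m2_4 m2_16 l2_16 z2_16 w2_16 x2_16 (by decide) _ (chkS_sound E lk2 1 3 _ _ _ _ t2_4_16)

def r2_4_17 : List (ℕ × ℤ) := [(97, -6), (104, 6)]

theorem h2_4_17 (E : Env κ ι) : ip (F2_4 E) (F2_17 E) = dotS (ek E lk2) r2_4_17 :=
  op_entryZ E lk2 1 3 _ _ _ _ (pg0 κ) (pg2 ι) m2_4 m2_17 l2_17 z2_17 w2_17 x2_17 (by decide) _ (chkS_sound E lk2 1 3 _ _ _ _ t2_4_17)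

def r2_4_18 : List (ℕ × ℤ) := [(99, -6), (219, 6), (220, 0)]

theorem h2_4_18 (E : Env κ ι) : ip (F2_4 E) (F2_18 E) = dotS (ek E lk2) r2_4_18 :=
  op_entryZ E lk2 1 3 _ _ _ _ (pg0 κ) (pg2 ι) m2_4 m2_18 l2_18 z2_18 w2_18 x2_18 (by decide) _ (chkS_sound E lk2 1 3 _ _ _ _ t2_4_18)

def r2_4_19 : List (ℕ × ℤ) := [(99, -6), (220, 6)]

theorem h2_4_19 (E : Env κ ι) : ip (F2_4 E) (F2_19 E) = dotS (ek E lk2) r2_4_19 :=
  op_entryZ E lk2 1 3 _ _ _ _ (pg0 κ) (pg2 ι) m2_4 m2_19 l2_19 z2_19 w2_19 x2_19 (by decide) _ (chkS_sound E lk2 1 3 _ _ _ _ t2_4_19)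

def r2_4_20 : List (ℕ × ℤ) := [(102, -6), (221, 6)]

theorem h2_4_20 (E : Env κ ι) : ip (F2_4 E) (F2_20 E) = dotS (ek E lk2) r2_4_20 :=
  op_entryZ E lk2 1 3 _ _ _ _ (pg0 κ) (pg2 ι) m2_4 m2_20 l2_20 z2_20 w2_20 x2_20 (by decide) _ (chkS_sound E lk2 1 3 _ _ _ _ t2_4_20)

def r2_4_21 : List (ℕ × ℤ) := [(101, -6), (105, 6)]

theorem h2_4_21 (E : Env κ ι) : ip (F2_4 E) (F2_21 E) = dotS (ek E lk2) r2_4_21 :=
  op_entryZ E lk2 1 3 _ _ _ _ (pg0 κ) (pg2 ι) m2_4 m2_21 l2_21 z2_21 w2_21 x2_21 (by decide) _ (chkS_sound E lk2 1 3 _ _ _ _ t2_4_21)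

def r2_4_22 : List (ℕ × ℤ) := [(102, -6), (105, 6), (221, 0)]

theorem h2_4_22 (E : Env κ ι) : ip (F2_4 E) (F2_22 E) = dotS (ek E lk2) r2_4_22 :=
  op_entryZ E lk2 1 3 _ _ _ _ (pg0 κ) (pg2 ι) m2_4 m2_22 l2_22 z2_22 w2_22 x2_22 (by decide) _ (chkS_sound E lk2 1 3 _ _ _ _ t2_4_22)

def r2_4_23 : List (ℕ × ℤ) := [(103, -6), (222, 6)]

theorem h2_4_23 (E : Env κ ι) : ip (F2_4 E) (F2_23 E) = dotS (ek E lk2) r2_4_23 :=
  op_entryZ E lk2 1 3 _ _ _ _ (pg0 κ) (pg2 ι) m2_4 m2_23 l2_23 z2_23 w2_23 x2_23 (by decide) _ (chkS_sound E lk2 1 3 _ _ _ _ t2_4_23)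

def r2_4_24 : List (ℕ × ℤ) := [(18, -6), (223, 6)]

theorem h2_4_24 (E : Env κ ι) : ip (F2_4 E) (F2_24 E) = dotS (ek E lk2) r2_4_24 :=
  op_entryZ E lk2 1 3 _ _ _ _ (pg0 κ) (pg2 ι) m2_4 m2_24 l2_24 z2_24 w2_24 x2_24 (by decide) _ (chkS_sound E lk2 1 3 _ _ _ _ t2_4_24)

def r2_4_25 : List (ℕ × ℤ) := [(104, -6), (224, 6)]

theorem h2_4_25 (E : Env κ ι) : ip (F2_4 E) (F2_25 E) = dotS (ek E lk2) r2_4_25 :=
  op_entryZ E lk2 1 3 _ _ _ _ (pg0 κ) (pg2 ι) m2_4 m2_25 l2_25 z2_25 w2_25 x2_25 (by decide) _ (chkS_sound E lk2 1 3 _ _ _ _ t2_4_25)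

def r2_4_26 : List (ℕ × ℤ) := [(105, -6), (225, 6)]

theorem h2_4_26 (E : Env κ ι) : ip (F2_4 E) (F2_26 E) = dotS (ek E lk2) r2_4_26 :=
  op_entryZ E lk2 1 3 _ _ _ _ (pg0 κ) (pg2 ι) m2_4 m2_26 l2_26 z2_26 w2_26 x2_26 (by decide) _ (chkS_sound E lk2 1 3 _ _ _ _ t2_4_26)

def r2_4_27 : List (ℕ × ℤ) := [(5, -6), (226, 6)]

theorem h2_4_27 (E : Env κ ι) : ip (F2_4 E) (F2_27 E) = dotS (ek E lk2) r2_4_27 :=
  op_entryZ E lk2 1 3 _ _ _ _ (pg0 κ) (pg2 ι) m2_4 m2_27 l2_27 z2_27 w2_27 x2_27 (by decide) _ (chkS_sound E lk2 1 3 _ _ _ _ t2_4_27)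

def r2_4_28 : List (ℕ × ℤ) := [(227, 6), (228, -6)]

theorem h2_4_28 (E : Env κ ι) : ip (F2_4 E) (F2_28 E) = dotS (ek E lk2) r2_4_28 :=
  op_entryZ E lk2 1 3 _ _ _ _ (pg0 κ) (pg2 ι) m2_4 m2_28 l2_28 z2_28 w2_28 x2_28 (by decide) _ (chkS_sound E lk2 1 3 _ _ _ _ t2_4_28)

def r2_5_5 : List (ℕ × ℤ) := [(96, 6), (229, -6)]

theorem h2_5_5 (E : Env κ ι) : ip (F2_5 E) (F2_5 E) = dotS (ek E lk2) r2_5_5 :=
  op_entryZ E lk2 1 3 _ _ _ _ (pg0 κ) (pg2 ι) m2_5 m2_5 l2_5 z2_5 w2_5 x2_5 (by decide) _ (chkS_sound E lk2 1 3 _ _ _ _ t2_5_5)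

def r2_5_6 : List (ℕ × ℤ) := [(230, 6), (231, -6)]

theorem h2_5_6 (E : Env κ ι) : ip (F2_5 E) (F2_6 E) = dotS (ek E lk2) r2_5_6 :=
  op_entryZ E lk2 1 3 _ _ _ _ (pg0 κ) (pg2 ι) m2_5 m2_6 l2_6 z2_6 w2_6 x2_6 (by decide) _ (chkS_sound E lk2 1 3 _ _ _ _ t2_5_6)

def r2_5_7 : List (ℕ × ℤ) := [(89, 6), (233, -6)]

theorem h2_5_7 (E : Env κ ι) : ip (F2_5 E) (F2_7 E) = dotS (ek E lk2) r2_5_7 :=
  op_entryZ E lk2 1 3 _ _ _ _ (pg0 κ) (pg2 ι) m2_5 m2_7 l2_7 z2_7 w2_7 x2_7 (by decide) _ (chkS_sound E lk2 1 3 _ _ _ _ t2_5_7)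

def r2_5_8 : List (ℕ × ℤ) := [(89, 6), (232, -6), (233, 0)]

theorem h2_5_8 (E : Env κ ι) : ip (F2_5 E) (F2_8 E) = dotS (ek E lk2) r2_5_8 :=
  op_entryZ E lk2 1 3 _ _ _ _ (pg0 κ) (pg2 ι) m2_5 m2_8 l2_8 z2_8 w2_8 x2_8 (by decide) _ (chkS_sound E lk2 1 3 _ _ _ _ t2_5_8)

def r2_5_9 : List (ℕ × ℤ) := [(64, 6), (170, -6)]

theorem h2_5_9 (E : Env κ ι) : ip (F2_5 E) (F2_9 E) = dotS (ek E lk2) r2_5_9 :=
  op_entryZ E lk2 1 3 _ _ _ _ (pg0 κ) (pg2 ι) m2_5 m2_9 l2_9 z2_9 w2_9 x2_9 (by decide) _ (chkS_sound E lk2 1 3 _ _ _ _ t2_5_9)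

def r2_5_10 : List (ℕ × ℤ) := [(34, -6), (232, 6)]

theorem h2_5_10 (E : Env κ ι) : ip (F2_5 E) (F2_10 E) = dotS (ek E lk2) r2_5_10 :=
  op_entryZ E lk2 1 3 _ _ _ _ (pg0 κ) (pg2 ι) m2_5 m2_10 l2_10 z2_10 w2_10 x2_10 (by decide) _ (chkS_sound E lk2 1 3 _ _ _ _ t2_5_10)

def r2_5_11 : List (ℕ × ℤ) := [(8, 6), (234, -6)]

theorem h2_5_11 (E : Env κ ι) : ip (F2_5 E) (F2_11 E) = dotS (ek E lk2) r2_5_11 :=
  op_entryZ E lk2 1 3 _ _ _ _ (pg0 κ) (pg2 ι) m2_5 m2_11 l2_11 z2_11 w2_11 x2_11 (by decide) _ (chkS_sound E lk2 1 3 _ _ _ _ t2_5_11)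

def r2_5_12 : List (ℕ × ℤ) := [(235, 6), (236, -6)]

theorem h2_5_12 (E : Env κ ι) : ip (F2_5 E) (F2_12 E) = dotS (ek E lk2) r2_5_12 :=
  op_entryZ E lk2 1 3 _ _ _ _ (pg0 κ) (pg2 ι) m2_5 m2_12 l2_12 z2_12 w2_12 x2_12 (by decide) _ (chkS_sound E lk2 1 3 _ _ _ _ t2_5_12)

def r2_5_13 : List (ℕ × ℤ) := [(28, -6), (237, 6)]

theorem h2_5_13 (E : Env κ ι) : ip (F2_5 E) (F2_13 E) = dotS (ek E lk2) r2_5_13 :=
  op_entryZ E lk2 1 3 _ _ _ _ (pg0 κ) (pg2 ι) m2_5 m2_13 l2_13 z2_13 w2_13 x2_13 (by decide) _ (chkS_sound E lk2 1 3 _ _ _ _ t2_5_13)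

def r2_5_14 : List (ℕ × ℤ) := [(107, -6), (238, 6), (239, 0)]

theorem h2_5_14 (E : Env κ ι) : ip (F2_5 E) (F2_14 E) = dotS (ek E lk2) r2_5_14 :=
  op_entryZ E lk2 1 3 _ _ _ _ (pg0 κ) (pg2 ι) m2_5 m2_14 l2_14 z2_14 w2_14 x2_14 (by decide) _ (chkS_sound E lk2 1 3 _ _ _ _ t2_5_14)

def r2_5_15 : List (ℕ × ℤ) := [(109, -6), (240, 6)]

theorem h2_5_15 (E : Env κ ι) : ip (F2_5 E) (F2_15 E) = dotS (ek E lk2) r2_5_15 :=
  op_entryZ E lk2 1 3 _ _ _ _ (pg0 κ) (pg2 ι) m2_5 m2_15 l2_15 z2_15 w2_15 x2_15 (by decide) _ (chkS_sound E lk2 1 3 _ _ _ _ t2_5_15)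

def r2_5_16 : List (ℕ × ℤ) := [(107, -6), (239, 6)]

theorem h2_5_16 (E : Env κ ι) : ip (F2_5 E) (F2_16 E) = dotS (ek E lk2) r2_5_16 :=
  op_entryZ E lk2 1 3 _ _ _ _ (pg0 κ) (pg2 ι) m2_5 m2_16 l2_16 z2_16 w2_16 x2_16 (by decide) _ (chkS_sound E lk2 1 3 _ _ _ _ t2_5_16)

def r2_5_17 : List (ℕ × ℤ) := [(76, -6), (241, 6)]

theorem h2_5_17 (E : Env κ ι) : ip (F2_5 E) (F2_17 E) = dotS (ek E lk2) r2_5_17 :=
  op_entryZ E lk2 1 3 _ _ _ _ (pg0 κ) (pg2 ι) m2_5 m2_17 l2_17 z2_17 w2_17 x2_17 (by decide) _ (chkS_sound E lk2 1 3 _ _ _ _ t2_5_17)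

def r2_5_18 : List (ℕ × ℤ) := [(108, -6), (242, 6), (243, 0)]

theorem h2_5_18 (E : Env κ ι) : ip (F2_5 E) (F2_18 E) = dotS (ek E lk2) r2_5_18 :=
  op_entryZ E lk2 1 3 _ _ _ _ (pg0 κ) (pg2 ι) m2_5 m2_18 l2_18 z2_18 w2_18 x2_18 (by decide) _ (chkS_sound E lk2 1 3 _ _ _ _ t2_5_18)

def r2_5_19 : List (ℕ × ℤ) := [(108, -6), (243, 6)]

theorem h2_5_19 (E : Env κ ι) : ip (F2_5 E) (F2_19 E) = dotS (ek E lk2) r2_5_19 :=
  op_entryZ E lk2 1 3 _ _ _ _ (pg0 κ) (pg2 ι) m2_5 m2_19 l2_19 z2_19 w2_19 x2_19 (by decide) _ (chkS_sound E lk2 1 3 _ _ _ _ t2_5_19)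

def r2_5_20 : List (ℕ × ℤ) := [(55, -6), (244, 6)]

theorem h2_5_20 (E : Env κ ι) : ip (F2_5 E) (F2_20 E) = dotS (ek E lk2) r2_5_20 :=
  op_entryZ E lk2 1 3 _ _ _ _ (pg0 κ) (pg2 ι) m2_5 m2_20 l2_20 z2_20 w2_20 x2_20 (by decide) _ (chkS_sound E lk2 1 3 _ _ _ _ t2_5_20)

def r2_5_21 : List (ℕ × ℤ) := [(47, -6), (56, 6)]

theorem h2_5_21 (E : Env κ ι) : ip (F2_5 E) (F2_21 E) = dotS (ek E lk2) r2_5_21 :=
  op_entryZ E lk2 1 3 _ _ _ _ (pg0 κ) (pg2 ι) m2_5 m2_21 l2_21 z2_21 w2_21 x2_21 (by decide) _ (chkS_sound E lk2 1 3 _ _ _ _ t2_5_21)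

def r2_5_22 : List (ℕ × ℤ) := [(55, -6), (57, 6), (244, 0)]

theorem h2_5_22 (E : Env κ ι) : ip (F2_5 E) (F2_22 E) = dotS (ek E lk2) r2_5_22 :=
  op_entryZ E lk2 1 3 _ _ _ _ (pg0 κ) (pg2 ι) m2_5 m2_22 l2_22 z2_22 w2_22 x2_22 (by decide) _ (chkS_sound E lk2 1 3 _ _ _ _ t2_5_22)

def r2_5_23 : List (ℕ × ℤ) := [(110, -6), (245, 6)]

theorem h2_5_23 (E : Env κ ι) : ip (F2_5 E) (F2_23 E) = dotS (ek E lk2) r2_5_23 :=
  op_entryZ E lk2 1 3 _ _ _ _ (pg0 κ) (pg2 ι) m2_5 m2_23 l2_23 z2_23 w2_23 x2_23 (by decide) _ (chkS_sound E lk2 1 3 _ _ _ _ t2_5_23)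

def r2_5_24 : List (ℕ × ℤ) := [(18, 6), (111, -6)]

theorem h2_5_24 (E : Env κ ι) : ip (F2_5 E) (F2_24 E) = dotS (ek E lk2) r2_5_24 :=
  op_entryZ E lk2 1 3 _ _ _ _ (pg0 κ) (pg2 ι) m2_5 m2_24 l2_24 z2_24 w2_24 x2_24 (by decide) _ (chkS_sound E lk2 1 3 _ _ _ _ t2_5_24)

def r2_5_25 : List (ℕ × ℤ) := [(104, 6), (112, -6)]

theorem h2_5_25 (E : Env κ ι) : ip (F2_5 E) (F2_25 E) = dotS (ek E lk2) r2_5_25 :=
  op_entryZ E lk2 1 3 _ _ _ _ (pg0 κ) (pg2 ι) m2_5 m2_25 l2_25 z2_25 w2_25 x2_25 (by decide) _ (chkS_sound E lk2 1 3 _ _ _ _ t2_5_25)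

def r2_5_26 : List (ℕ × ℤ) := [(60, -6), (105, 6)]

theorem h2_5_26 (E : Env κ ι) : ip (F2_5 E) (F2_26 E) = dotS (ek E lk2) r2_5_26 :=
  op_entryZ E lk2 1 3 _ _ _ _ (pg0 κ) (pg2 ι) m2_5 m2_26 l2_26 z2_26 w2_26 x2_26 (by decide) _ (chkS_sound E lk2 1 3 _ _ _ _ t2_5_26)

def r2_5_27 : List (ℕ × ℤ) := [(5, 6), (63, -6)]

theorem h2_5_27 (E : Env κ ι) : ip (F2_5 E) (F2_27 E) = dotS (ek E lk2) r2_5_27 :=
  op_entryZ E lk2 1 3 _ _ _ _ (pg0 κ) (pg2 ι) m2_5 m2_27 l2_27 z2_27 w2_27 x2_27 (by decide) _ (chkS_sound E lk2 1 3 _ _ _ _ t2_5_27)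

def r2_5_28 : List (ℕ × ℤ) := [(27, -6), (246, 6)]

theorem h2_5_28 (E : Env κ ι) : ip (F2_5 E) (F2_28 E) = dotS (ek E lk2) r2_5_28 :=
  op_entryZ E lk2 1 3 _ _ _ _ (pg0 κ) (pg2 ι) m2_5 m2_28 l2_28 z2_28 w2_28 x2_28 (by decide) _ (chkS_sound E lk2 1 3 _ _ _ _ t2_5_28)

def r2_6_6 : List (ℕ × ℤ) := [(88, -6), (247, 6)]

theorem h2_6_6 (E : Env κ ι) : ip (F2_6 E) (F2_6 E) = dotS (ek E lk2) r2_6_6 :=
  op_entryZ E lk2 1 3 _ _ _ _ (pg0 κ) (pg2 ι) m2_6 m2_6 l2_6 z2_6 w2_6 x2_6 (by decide) _ (chkS_sound E lk2 1 3 _ _ _ _ t2_6_6)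

def r2_6_7 : List (ℕ × ℤ) := [(232, 6), (248, -6)]

theorem h2_6_7 (E : Env κ ι) : ip (F2_6 E) (F2_7 E) = dotS (ek E lk2) r2_6_7 :=
  op_entryZ E lk2 1 3 _ _ _ _ (pg0 κ) (pg2 ι) m2_6 m2_7 l2_7 z2_7 w2_7 x2_7 (by decide) _ (chkS_sound E lk2 1 3 _ _ _ _ t2_6_7)

def r2_6_8 : List (ℕ × ℤ) := [(231, -6), (232, 6), (248, 0)]

theorem h2_6_8 (E : Env κ ι) : ip (F2_6 E) (F2_8 E) = dotS (ek E lk2) r2_6_8 :=
  op_entryZ E lk2 1 3 _ _ _ _ (pg0 κ) (pg2 ι) m2_6 m2_8 l2_8 z2_8 w2_8 x2_8 (by decide) _ (chkS_sound E lk2 1 3 _ _ _ _ t2_6_8)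

def r2_6_9 : List (ℕ × ℤ) := [(74, -6), (172, 6)]

theorem h2_6_9 (E : Env κ ι) : ip (F2_6 E) (F2_9 E) = dotS (ek E lk2) r2_6_9 :=
  op_entryZ E lk2 1 3 _ _ _ _ (pg0 κ) (pg2 ι) m2_6 m2_9 l2_9 z2_9 w2_9 x2_9 (by decide) _ (chkS_sound E lk2 1 3 _ _ _ _ t2_6_9)

def r2_6_10 : List (ℕ × ℤ) := [(230, -6), (232, 6)]

theorem h2_6_10 (E : Env κ ι) : ip (F2_6 E) (F2_10 E) = dotS (ek E lk2) r2_6_10 :=
  op_entryZ E lk2 1 3 _ _ _ _ (pg0 κ) (pg2 ι) m2_6 m2_10 l2_10 z2_10 w2_10 x2_10 (by decide) _ (chkS_sound E lk2 1 3 _ _ _ _ t2_6_10)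

def r2_6_11 : List (ℕ × ℤ) := [(32, -6), (249, 6)]

theorem h2_6_11 (E : Env κ ι) : ip (F2_6 E) (F2_11 E) = dotS (ek E lk2) r2_6_11 :=
  op_entryZ E lk2 1 3 _ _ _ _ (pg0 κ) (pg2 ι) m2_6 m2_11 l2_11 z2_11 w2_11 x2_11 (by decide) _ (chkS_sound E lk2 1 3 _ _ _ _ t2_6_11)

def r2_6_12 : List (ℕ × ℤ) := [(92, -6), (250, 6)]

theorem h2_6_12 (E : Env κ ι) : ip (F2_6 E) (F2_12 E) = dotS (ek E lk2) r2_6_12 :=
  op_entryZ E lk2 1 3 _ _ _ _ (pg0 κ) (pg2 ι) m2_6 m2_12 l2_12 z2_12 w2_12 x2_12 (by decide) _ (chkS_sound E lk2 1 3 _ _ _ _ t2_6_12)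

def r2_6_13 : List (ℕ × ℤ) := [(251, 6), (252, -6)]

theorem h2_6_13 (E : Env κ ι) : ip (F2_6 E) (F2_13 E) = dotS (ek E lk2) r2_6_13 :=
  op_entryZ E lk2 1 3 _ _ _ _ (pg0 κ) (pg2 ι) m2_6 m2_13 l2_13 z2_13 w2_13 x2_13 (by decide) _ (chkS_sound E lk2 1 3 _ _ _ _ t2_6_13)

def r2_6_14 : List (ℕ × ℤ) := [(91, -6), (253, 6)]

theorem h2_6_14 (E : Env κ ι) : ip (F2_6 E) (F2_14 E) = dotS (ek E lk2) r2_6_14 :=
  op_entryZ E lk2 1 3 _ _ _ _ (pg0 κ) (pg2 ι) m2_6 m2_14 l2_14 z2_14 w2_14 x2_14 (by decide) _ (chkS_sound E lk2 1 3 _ _ _ _ t2_6_14)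

def r2_6_15 : List (ℕ × ℤ) := [(252, -6), (254, 6)]

theorem h2_6_15 (E : Env κ ι) : ip (F2_6 E) (F2_15 E) = dotS (ek E lk2) r2_6_15 :=
  op_entryZ E lk2 1 3 _ _ _ _ (pg0 κ) (pg2 ι) m2_6 m2_15 l2_15 z2_15 w2_15 x2_15 (by decide) _ (chkS_sound E lk2 1 3 _ _ _ _ t2_6_15)

def r2_6_16 : List (ℕ × ℤ) := [(91, -6), (94, 6), (253, 0)]

theorem h2_6_16 (E : Env κ ι) : ip (F2_6 E) (F2_16 E) = dotS (ek E lk2) r2_6_16 :=
  op_entryZ E lk2 1 3 _ _ _ _ (pg0 κ) (pg2 ι) m2_6 m2_16 l2_16 z2_16 w2_16 x2_16 (by decide) _ (chkS_sound E lk2 1 3 _ _ _ _ t2_6_16)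

def r2_6_17 : List (ℕ × ℤ) := [(94, 6), (255, -6)]

theorem h2_6_17 (E : Env κ ι) : ip (F2_6 E) (F2_17 E) = dotS (ek E lk2) r2_6_17 :=
  op_entryZ E lk2 1 3 _ _ _ _ (pg0 κ) (pg2 ι) m2_6 m2_17 l2_17 z2_17 w2_17 x2_17 (by decide) _ (chkS_sound E lk2 1 3 _ _ _ _ t2_6_17)

def r2_6_18 : List (ℕ × ℤ) := [(251, -6), (254, 6), (256, 0)]

theorem h2_6_18 (E : Env κ ι) : ip (F2_6 E) (F2_18 E) = dotS (ek E lk2) r2_6_18 :=
  op_entryZ E lk2 1 3 _ _ _ _ (pg0 κ) (pg2 ι) m2_6 m2_18 l2_18 z2_18 w2_18 x2_18 (by decide) _ (chkS_sound E lk2 1 3 _ _ _ _ t2_6_18)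

def r2_6_19 : List (ℕ × ℤ) := [(251, -6), (256, 6)]

theorem h2_6_19 (E : Env κ ι) : ip (F2_6 E) (F2_19 E) = dotS (ek E lk2) r2_6_19 :=
  op_entryZ E lk2 1 3 _ _ _ _ (pg0 κ) (pg2 ι) m2_6 m2_19 l2_19 z2_19 w2_19 x2_19 (by decide) _ (chkS_sound E lk2 1 3 _ _ _ _ t2_6_19)

def r2_6_20 : List (ℕ × ℤ) := [(54, -6), (257, 6)]

theorem h2_6_20 (E : Env κ ι) : ip (F2_6 E) (F2_20 E) = dotS (ek E lk2) r2_6_20 :=
  op_entryZ E lk2 1 3 _ _ _ _ (pg0 κ) (pg2 ι) m2_6 m2_20 l2_20 z2_20 w2_20 x2_20 (by decide) _ (chkS_sound E lk2 1 3 _ _ _ _ t2_6_20)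

def r2_6_21 : List (ℕ × ℤ) := [(58, 6), (258, -6)]

theorem h2_6_21 (E : Env κ ι) : ip (F2_6 E) (F2_21 E) = dotS (ek E lk2) r2_6_21 :=
  op_entryZ E lk2 1 3 _ _ _ _ (pg0 κ) (pg2 ι) m2_6 m2_21 l2_21 z2_21 w2_21 x2_21 (by decide) _ (chkS_sound E lk2 1 3 _ _ _ _ t2_6_21)

def r2_6_22 : List (ℕ × ℤ) := [(54, -6), (58, 6), (257, 0)]

theorem h2_6_22 (E : Env κ ι) : ip (F2_6 E) (F2_22 E) = dotS (ek E lk2) r2_6_22 :=
  op_entryZ E lk2 1 3 _ _ _ _ (pg0 κ) (pg2 ι) m2_6 m2_22 l2_22 z2_22 w2_22 x2_22 (by decide) _ (chkS_sound E lk2 1 3 _ _ _ _ t2_6_22)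

def r2_6_23 : List (ℕ × ℤ) := [(259, 6), (260, -6)]

theorem h2_6_23 (E : Env κ ι) : ip (F2_6 E) (F2_23 E) = dotS (ek E lk2) r2_6_23 :=
  op_entryZ E lk2 1 3 _ _ _ _ (pg0 κ) (pg2 ι) m2_6 m2_23 l2_23 z2_23 w2_23 x2_23 (by decide) _ (chkS_sound E lk2 1 3 _ _ _ _ t2_6_23)

def r2_6_24 : List (ℕ × ℤ) := [(33, -6), (261, 6)]

theorem h2_6_24 (E : Env κ ι) : ip (F2_6 E) (F2_24 E) = dotS (ek E lk2) r2_6_24 :=
  op_entryZ E lk2 1 3 _ _ _ _ (pg0 κ) (pg2 ι) m2_6 m2_24 l2_24 z2_24 w2_24 x2_24 (by decide) _ (chkS_sound E lk2 1 3 _ _ _ _ t2_6_24)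

def r2_6_25 : List (ℕ × ℤ) := [(94, -6), (262, 6)]

theorem h2_6_25 (E : Env κ ι) : ip (F2_6 E) (F2_25 E) = dotS (ek E lk2) r2_6_25 :=
  op_entryZ E lk2 1 3 _ _ _ _ (pg0 κ) (pg2 ι) m2_6 m2_25 l2_25 z2_25 w2_25 x2_25 (by decide) _ (chkS_sound E lk2 1 3 _ _ _ _ t2_6_25)

def r2_6_26 : List (ℕ × ℤ) := [(58, -6), (263, 6)]

theorem h2_6_26 (E : Env κ ι) : ip (F2_6 E) (F2_26 E) = dotS (ek E lk2) r2_6_26 :=
  op_entryZ E lk2 1 3 _ _ _ _ (pg0 κ) (pg2 ι) m2_6 m2_26 l2_26 z2_26 w2_26 x2_26 (by decide) _ (chkS_sound E lk2 1 3 _ _ _ _ t2_6_26)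

def r2_6_27 : List (ℕ × ℤ) := [(23, -6), (264, 6)]

theorem h2_6_27 (E : Env κ ι) : ip (F2_6 E) (F2_27 E) = dotS (ek E lk2) r2_6_27 :=
  op_entryZ E lk2 1 3 _ _ _ _ (pg0 κ) (pg2 ι) m2_6 m2_27 l2_27 z2_27 w2_27 x2_27 (by decide) _ (chkS_sound E lk2 1 3 _ _ _ _ t2_6_27)

def r2_6_28 : List (ℕ × ℤ) := [(265, 6), (266, -6)]

theorem h2_6_28 (E : Env κ ι) : ip (F2_6 E) (F2_28 E) = dotS (ek E lk2) r2_6_28 :=
  op_entryZ E lk2 1 3 _ _ _ _ (pg0 κ) (pg2 ι) m2_6 m2_28 l2_28 z2_28 w2_28 x2_28 (by decide) _ (chkS_sound E lk2 1 3 _ _ _ _ t2_6_28)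

def r2_7_7 : List (ℕ × ℤ) := [(167, 4), (170, 2), (229, -4), (230, 2), (232, -4)]

theorem h2_7_7 (E : Env κ ι) : ip (F2_7 E) (F2_7 E) = dotS (ek E lk2) r2_7_7 :=
  op_entryZ E lk2 1 3 _ _ _ _ (pg0 κ) (pg2 ι) m2_7 m2_7 l2_7 z2_7 w2_7 x2_7 (by decide) _ (chkS_sound E lk2 1 3 _ _ _ _ t2_7_7)

def r2_7_8 : List (ℕ × ℤ) := [(167, 2), (170, 4), (229, -2), (230, -2), (232, -2)]

theorem h2_7_8 (E : Env κ ι) : ip (F2_7 E) (F2_8 E) = dotS (ek E lk2) r2_7_8 :=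
  op_entryZ E lk2 1 3 _ _ _ _ (pg0 κ) (pg2 ι) m2_7 m2_8 l2_8 z2_8 w2_8 x2_8 (by decide) _ (chkS_sound E lk2 1 3 _ _ _ _ t2_7_8)

def r2_7_9 : List (ℕ × ℤ) := [(75, 6), (167, -6)]

theorem h2_7_9 (E : Env κ ι) : ip (F2_7 E) (F2_9 E) = dotS (ek E lk2) r2_7_9 :=
  op_entryZ E lk2 1 3 _ _ _ _ (pg0 κ) (pg2 ι) m2_7 m2_9 l2_9 z2_9 w2_9 x2_9 (by decide) _ (chkS_sound E lk2 1 3 _ _ _ _ t2_7_9)

def r2_7_10 : List (ℕ × ℤ) := [(88, -6), (233, 6)]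

theorem h2_7_10 (E : Env κ ι) : ip (F2_7 E) (F2_10 E) = dotS (ek E lk2) r2_7_10 :=
  op_entryZ E lk2 1 3 _ _ _ _ (pg0 κ) (pg2 ι) m2_7 m2_10 l2_10 z2_10 w2_10 x2_10 (by decide) _ (chkS_sound E lk2 1 3 _ _ _ _ t2_7_10)

def r2_7_11 : List (ℕ × ℤ) := [(28, 6), (267, -6)]

theorem h2_7_11 (E : Env κ ι) : ip (F2_7 E) (F2_11 E) = dotS (ek E lk2) r2_7_11 :=
  op_entryZ E lk2 1 3 _ _ _ _ (pg0 κ) (pg2 ι) m2_7 m2_11 l2_11 z2_11 w2_11 x2_11 (by decide) _ (chkS_sound E lk2 1 3 _ _ _ _ t2_7_11)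

def r2_7_12 : List (ℕ × ℤ) := [(237, 6), (268, -6)]

theorem h2_7_12 (E : Env κ ι) : ip (F2_7 E) (F2_12 E) = dotS (ek E lk2) r2_7_12 :=
  op_entryZ E lk2 1 3 _ _ _ _ (pg0 κ) (pg2 ι) m2_7 m2_12 l2_12 z2_12 w2_12 x2_12 (by decide) _ (chkS_sound E lk2 1 3 _ _ _ _ t2_7_12)

def r2_7_13 : List (ℕ × ℤ) := [(269, 6), (271, -6)]

theorem h2_7_13 (E : Env κ ι) : ip (F2_7 E) (F2_13 E) = dotS (ek E lk2) r2_7_13 :=
  op_entryZ E lk2 1 3 _ _ _ _ (pg0 κ) (pg2 ι) m2_7 m2_13 l2_13 z2_13 w2_13 x2_13 (by decide) _ (chkS_sound E lk2 1 3 _ _ _ _ t2_7_13)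

def r2_7_14 : List (ℕ × ℤ) := [(91, 2), (107, -2), (182, -4), (239, 2), (241, 4), (255, -2)]

theorem h2_7_14 (E : Env κ ι) : ip (F2_7 E) (F2_14 E) = dotS (ek E lk2) r2_7_14 :=
  op_entryZ E lk2 1 3 _ _ _ _ (pg0 κ) (pg2 ι) m2_7 m2_14 l2_14 z2_14 w2_14 x2_14 (by decide) _ (chkS_sound E lk2 1 3 _ _ _ _ t2_7_14)

def r2_7_15 : List (ℕ × ℤ) := [(176, -6), (243, 6)]

theorem h2_7_15 (E : Env κ ι) : ip (F2_7 E) (F2_15 E) = dotS (ek E lk2) r2_7_15 :=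
  op_entryZ E lk2 1 3 _ _ _ _ (pg0 κ) (pg2 ι) m2_7 m2_15 l2_15 z2_15 w2_15 x2_15 (by decide) _ (chkS_sound E lk2 1 3 _ _ _ _ t2_7_15)

def r2_7_16 : List (ℕ × ℤ) := [(91, -2), (107, -4), (182, -2), (239, 4), (241, 2), (255, 2)]

theorem h2_7_16 (E : Env κ ι) : ip (F2_7 E) (F2_16 E) = dotS (ek E lk2) r2_7_16 :=
  op_entryZ E lk2 1 3 _ _ _ _ (pg0 κ) (pg2 ι) m2_7 m2_16 l2_16 z2_16 w2_16 x2_16 (by decide) _ (chkS_sound E lk2 1 3 _ _ _ _ t2_7_16)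

def r2_7_17 : List (ℕ × ℤ) := [(77, -6), (238, 6)]

theorem h2_7_17 (E : Env κ ι) : ip (F2_7 E) (F2_17 E) = dotS (ek E lk2) r2_7_17 :=
  op_entryZ E lk2 1 3 _ _ _ _ (pg0 κ) (pg2 ι) m2_7 m2_17 l2_17 z2_17 w2_17 x2_17 (by decide) _ (chkS_sound E lk2 1 3 _ _ _ _ t2_7_17)

def r2_7_18 : List (ℕ × ℤ) := [(175, -4), (177, -2), (240, 2), (242, 4), (251, -2), (252, 2)]

theorem h2_7_18 (E : Env κ ι) : ip (F2_7 E) (F2_18 E) = dotS (ek E lk2) r2_7_18 :=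
  op_entryZ E lk2 1 3 _ _ _ _ (pg0 κ) (pg2 ι) m2_7 m2_18 l2_18 z2_18 w2_18 x2_18 (by decide) _ (chkS_sound E lk2 1 3 _ _ _ _ t2_7_18)

def r2_7_19 : List (ℕ × ℤ) := [(175, -2), (177, -4), (240, 4), (242, 2), (251, 2), (252, -2)]

theorem h2_7_19 (E : Env κ ι) : ip (F2_7 E) (F2_19 E) = dotS (ek E lk2) r2_7_19 :=
  op_entryZ E lk2 1 3 _ _ _ _ (pg0 κ) (pg2 ι) m2_7 m2_19 l2_19 z2_19 w2_19 x2_19 (by decide) _ (chkS_sound E lk2 1 3 _ _ _ _ t2_7_19)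

def r2_7_20 : List (ℕ × ℤ) := [(54, 2), (55, -2), (56, 4), (57, 2), (187, -4), (258, -2)]

theorem h2_7_20 (E : Env κ ι) : ip (F2_7 E) (F2_20 E) = dotS (ek E lk2) r2_7_20 :=
  op_entryZ E lk2 1 3 _ _ _ _ (pg0 κ) (pg2 ι) m2_7 m2_20 l2_20 z2_20 w2_20 x2_20 (by decide) _ (chkS_sound E lk2 1 3 _ _ _ _ t2_7_20)

def r2_7_21 : List (ℕ × ℤ) := [(59, -6), (244, 6)]

theorem h2_7_21 (E : Env κ ι) : ip (F2_7 E) (F2_21 E) = dotS (ek E lk2) r2_7_21 :=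
  op_entryZ E lk2 1 3 _ _ _ _ (pg0 κ) (pg2 ι) m2_7 m2_21 l2_21 z2_21 w2_21 x2_21 (by decide) _ (chkS_sound E lk2 1 3 _ _ _ _ t2_7_21)

def r2_7_22 : List (ℕ × ℤ) := [(54, -2), (55, -4), (56, 2), (57, 4), (187, -2), (258, 2)]

theorem h2_7_22 (E : Env κ ι) : ip (F2_7 E) (F2_22 E) = dotS (ek E lk2) r2_7_22 :=
  op_entryZ E lk2 1 3 _ _ _ _ (pg0 κ) (pg2 ι) m2_7 m2_22 l2_22 z2_22 w2_22 x2_22 (by decide) _ (chkS_sound E lk2 1 3 _ _ _ _ t2_7_22)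

def r2_7_23 : List (ℕ × ℤ) := [(190, -6), (245, 6)]

theorem h2_7_23 (E : Env κ ι) : ip (F2_7 E) (F2_23 E) = dotS (ek E lk2) r2_7_23 :=
  op_entryZ E lk2 1 3 _ _ _ _ (pg0 κ) (pg2 ι) m2_7 m2_23 l2_23 z2_23 w2_23 x2_23 (by decide) _ (chkS_sound E lk2 1 3 _ _ _ _ t2_7_23)

def r2_7_24 : List (ℕ × ℤ) := [(33, 6), (70, -6)]

theorem h2_7_24 (E : Env κ ι) : ip (F2_7 E) (F2_24 E) = dotS (ek E lk2) r2_7_24 :=
  op_entryZ E lk2 1 3 _ _ _ _ (pg0 κ) (pg2 ι) m2_7 m2_24 l2_24 z2_24 w2_24 x2_24 (by decide) _ (chkS_sound E lk2 1 3 _ _ _ _ t2_7_24)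

def r2_7_25 : List (ℕ × ℤ) := [(68, -6), (94, 6)]

theorem h2_7_25 (E : Env κ ι) : ip (F2_7 E) (F2_25 E) = dotS (ek E lk2) r2_7_25 :=
  op_entryZ E lk2 1 3 _ _ _ _ (pg0 κ) (pg2 ι) m2_7 m2_25 l2_25 z2_25 w2_25 x2_25 (by decide) _ (chkS_sound E lk2 1 3 _ _ _ _ t2_7_25)

def r2_7_26 : List (ℕ × ℤ) := [(58, 6), (69, -6)]

theorem h2_7_26 (E : Env κ ι) : ip (F2_7 E) (F2_26 E) = dotS (ek E lk2) r2_7_26 :=
  op_entryZ E lk2 1 3 _ _ _ _ (pg0 κ) (pg2 ι) m2_7 m2_26 l2_26 z2_26 w2_26 x2_26 (by decide) _ (chkS_sound E lk2 1 3 _ _ _ _ t2_7_26)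

def r2_7_27 : List (ℕ × ℤ) := [(23, 6), (71, -6)]

theorem h2_7_27 (E : Env κ ι) : ip (F2_7 E) (F2_27 E) = dotS (ek E lk2) r2_7_27 :=
  op_entryZ E lk2 1 3 _ _ _ _ (pg0 κ) (pg2 ι) m2_7 m2_27 l2_27 z2_27 w2_27 x2_27 (by decide) _ (chkS_sound E lk2 1 3 _ _ _ _ t2_7_27)

def r2_7_28 : List (ℕ × ℤ) := [(272, 6), (274, -6)]

theorem h2_7_28 (E : Env κ ι) : ip (F2_7 E) (F2_28 E) = dotS (ek E lk2) r2_7_28 :=
  op_entryZ E lk2 1 3 _ _ _ _ (pg0 κ) (pg2 ι) m2_7 m2_28 l2_28 z2_28 w2_28 x2_28 (by decide) _ (chkS_sound E lk2 1 3 _ _ _ _ t2_7_28)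

def r2_8_8 : List (ℕ × ℤ) := [(167, 4), (170, 2), (229, 2), (230, -4), (232, -4)]

theorem h2_8_8 (E : Env κ ι) : ip (F2_8 E) (F2_8 E) = dotS (ek E lk2) r2_8_8 :=
  op_entryZ E lk2 1 3 _ _ _ _ (pg0 κ) (pg2 ι) m2_8 m2_8 l2_8 z2_8 w2_8 x2_8 (by decide) _ (chkS_sound E lk2 1 3 _ _ _ _ t2_8_8)

def r2_8_9 : List (ℕ × ℤ) := [(75, 6), (89, -6)]

theorem h2_8_9 (E : Env κ ι) : ip (F2_8 E) (F2_9 E) = dotS (ek E lk2) r2_8_9 :=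
  op_entryZ E lk2 1 3 _ _ _ _ (pg0 κ) (pg2 ι) m2_8 m2_9 l2_9 z2_9 w2_9 x2_9 (by decide) _ (chkS_sound E lk2 1 3 _ _ _ _ t2_8_9)

def r2_8_10 : List (ℕ × ℤ) := [(88, -6), (229, 6)]

theorem h2_8_10 (E : Env κ ι) : ip (F2_8 E) (F2_10 E) = dotS (ek E lk2) r2_8_10 :=
  op_entryZ E lk2 1 3 _ _ _ _ (pg0 κ) (pg2 ι) m2_8 m2_10 l2_10 z2_10 w2_10 x2_10 (by decide) _ (chkS_sound E lk2 1 3 _ _ _ _ t2_8_10)

def r2_8_11 : List (ℕ × ℤ) := [(28, 6), (234, -6)]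

theorem h2_8_11 (E : Env κ ι) : ip (F2_8 E) (F2_11 E) = dotS (ek E lk2) r2_8_11 :=
  op_entryZ E lk2 1 3 _ _ _ _ (pg0 κ) (pg2 ι) m2_8 m2_11 l2_11 z2_11 w2_11 x2_11 (by decide) _ (chkS_sound E lk2 1 3 _ _ _ _ t2_8_11)

def r2_8_12 : List (ℕ × ℤ) := [(236, -6), (237, 6)]

theorem h2_8_12 (E : Env κ ι) : ip (F2_8 E) (F2_12 E) = dotS (ek E lk2) r2_8_12 :=
  op_entryZ E lk2 1 3 _ _ _ _ (pg0 κ) (pg2 ι) m2_8 m2_12 l2_12 z2_12 w2_12 x2_12 (by decide) _ (chkS_sound E lk2 1 3 _ _ _ _ t2_8_12)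

def r2_8_13 : List (ℕ × ℤ) := [(270, 6), (271, -6)]

theorem h2_8_13 (E : Env κ ι) : ip (F2_8 E) (F2_13 E) = dotS (ek E lk2) r2_8_13 :=
  op_entryZ E lk2 1 3 _ _ _ _ (pg0 κ) (pg2 ι) m2_8 m2_13 l2_13 z2_13 w2_13 x2_13 (by decide) _ (chkS_sound E lk2 1 3 _ _ _ _ t2_8_13)

def r2_8_14 : List (ℕ × ℤ) := [(91, 4), (107, -4), (182, -2), (239, -2), (241, 2), (255, 2)]

theorem h2_8_14 (E : Env κ ι) : ip (F2_8 E) (F2_14 E) = dotS (ek E lk2) r2_8_14 :=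
  op_entryZ E lk2 1 3 _ _ _ _ (pg0 κ) (pg2 ι) m2_8 m2_14 l2_14 z2_14 w2_14 x2_14 (by decide) _ (chkS_sound E lk2 1 3 _ _ _ _ t2_8_14)

def r2_8_15 : List (ℕ × ℤ) := [(176, -6), (251, 6)]

theorem h2_8_15 (E : Env κ ι) : ip (F2_8 E) (F2_15 E) = dotS (ek E lk2) r2_8_15 :=
  op_entryZ E lk2 1 3 _ _ _ _ (pg0 κ) (pg2 ι) m2_8 m2_15 l2_15 z2_15 w2_15 x2_15 (by decide) _ (chkS_sound E lk2 1 3 _ _ _ _ t2_8_15)

def r2_8_16 : List (ℕ × ℤ) := [(91, 2), (107, -2), (182, -4), (239, 2), (241, -2), (255, 4)]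

theorem h2_8_16 (E : Env κ ι) : ip (F2_8 E) (F2_16 E) = dotS (ek E lk2) r2_8_16 :=
  op_entryZ E lk2 1 3 _ _ _ _ (pg0 κ) (pg2 ι) m2_8 m2_16 l2_16 z2_16 w2_16 x2_16 (by decide) _ (chkS_sound E lk2 1 3 _ _ _ _ t2_8_16)

def r2_8_17 : List (ℕ × ℤ) := [(77, -6), (91, 6)]

theorem h2_8_17 (E : Env κ ι) : ip (F2_8 E) (F2_17 E) = dotS (ek E lk2) r2_8_17 :=
  op_entryZ E lk2 1 3 _ _ _ _ (pg0 κ) (pg2 ι) m2_8 m2_17 l2_17 z2_17 w2_17 x2_17 (by decide) _ (chkS_sound E lk2 1 3 _ _ _ _ t2_8_17)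

def r2_8_18 : List (ℕ × ℤ) := [(175, -2), (177, -4), (240, -2), (242, 2), (251, 2), (252, 4)]

theorem h2_8_18 (E : Env κ ι) : ip (F2_8 E) (F2_18 E) = dotS (ek E lk2) r2_8_18 :=
  op_entryZ E lk2 1 3 _ _ _ _ (pg0 κ) (pg2 ι) m2_8 m2_18 l2_18 z2_18 w2_18 x2_18 (by decide) _ (chkS_sound E lk2 1 3 _ _ _ _ t2_8_18)

def r2_8_19 : List (ℕ × ℤ) := [(175, -4), (177, -2), (240, 2), (242, -2), (251, 4), (252, 2)]

theorem h2_8_19 (E : Env κ ι) : ip (F2_8 E) (F2_19 E) = dotS (ek E lk2) r2_8_19 :=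
  op_entryZ E lk2 1 3 _ _ _ _ (pg0 κ) (pg2 ι) m2_8 m2_19 l2_19 z2_19 w2_19 x2_19 (by decide) _ (chkS_sound E lk2 1 3 _ _ _ _ t2_8_19)

def r2_8_20 : List (ℕ × ℤ) := [(54, 4), (55, -4), (56, 2), (57, -2), (187, -2), (258, 2)]

theorem h2_8_20 (E : Env κ ι) : ip (F2_8 E) (F2_20 E) = dotS (ek E lk2) r2_8_20 :=
  op_entryZ E lk2 1 3 _ _ _ _ (pg0 κ) (pg2 ι) m2_8 m2_20 l2_20 z2_20 w2_20 x2_20 (by decide) _ (chkS_sound E lk2 1 3 _ _ _ _ t2_8_20)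

def r2_8_21 : List (ℕ × ℤ) := [(54, 6), (59, -6)]

theorem h2_8_21 (E : Env κ ι) : ip (F2_8 E) (F2_21 E) = dotS (ek E lk2) r2_8_21 :=
  op_entryZ E lk2 1 3 _ _ _ _ (pg0 κ) (pg2 ι) m2_8 m2_21 l2_21 z2_21 w2_21 x2_21 (by decide) _ (chkS_sound E lk2 1 3 _ _ _ _ t2_8_21)

def r2_8_22 : List (ℕ × ℤ) := [(54, 2), (55, -2), (56, -2), (57, 2), (187, -4), (258, 4)]

theorem h2_8_22 (E : Env κ ι) : ip (F2_8 E) (F2_22 E) = dotS (ek E lk2) r2_8_22 :=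
  op_entryZ E lk2 1 3 _ _ _ _ (pg0 κ) (pg2 ι) m2_8 m2_22 l2_22 z2_22 w2_22 x2_22 (by decide) _ (chkS_sound E lk2 1 3 _ _ _ _ t2_8_22)

def r2_8_23 : List (ℕ × ℤ) := [(190, -6), (260, 6)]

theorem h2_8_23 (E : Env κ ι) : ip (F2_8 E) (F2_23 E) = dotS (ek E lk2) r2_8_23 :=
  op_entryZ E lk2 1 3 _ _ _ _ (pg0 κ) (pg2 ι) m2_8 m2_23 l2_23 z2_23 w2_23 x2_23 (by decide) _ (chkS_sound E lk2 1 3 _ _ _ _ t2_8_23)

def r2_8_24 : List (ℕ × ℤ) := [(33, 6), (111, -6)]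

theorem h2_8_24 (E : Env κ ι) : ip (F2_8 E) (F2_24 E) = dotS (ek E lk2) r2_8_24 :=
  op_entryZ E lk2 1 3 _ _ _ _ (pg0 κ) (pg2 ι) m2_8 m2_24 l2_24 z2_24 w2_24 x2_24 (by decide) _ (chkS_sound E lk2 1 3 _ _ _ _ t2_8_24)

def r2_8_25 : List (ℕ × ℤ) := [(94, 6), (112, -6)]

theorem h2_8_25 (E : Env κ ι) : ip (F2_8 E) (F2_25 E) = dotS (ek E lk2) r2_8_25 :=
  op_entryZ E lk2 1 3 _ _ _ _ (pg0 κ) (pg2 ι) m2_8 m2_25 l2_25 z2_25 w2_25 x2_25 (by decide) _ (chkS_sound E lk2 1 3 _ _ _ _ t2_8_25)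

def r2_8_26 : List (ℕ × ℤ) := [(58, 6), (60, -6)]

theorem h2_8_26 (E : Env κ ι) : ip (F2_8 E) (F2_26 E) = dotS (ek E lk2) r2_8_26 :=
  op_entryZ E lk2 1 3 _ _ _ _ (pg0 κ) (pg2 ι) m2_8 m2_26 l2_26 z2_26 w2_26 x2_26 (by decide) _ (chkS_sound E lk2 1 3 _ _ _ _ t2_8_26)

def r2_8_27 : List (ℕ × ℤ) := [(23, 6), (63, -6)]

theorem h2_8_27 (E : Env κ ι) : ip (F2_8 E) (F2_27 E) = dotS (ek E lk2) r2_8_27 :=
  op_entryZ E lk2 1 3 _ _ _ _ (pg0 κ) (pg2 ι) m2_8 m2_27 l2_27 z2_27 w2_27 x2_27 (by decide) _ (chkS_sound E lk2 1 3 _ _ _ _ t2_8_27)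

def r2_8_28 : List (ℕ × ℤ) := [(273, 6), (274, -6)]

theorem h2_8_28 (E : Env κ ι) : ip (F2_8 E) (F2_28 E) = dotS (ek E lk2) r2_8_28 :=
  op_entryZ E lk2 1 3 _ _ _ _ (pg0 κ) (pg2 ι) m2_8 m2_28 l2_28 z2_28 w2_28 x2_28 (by decide) _ (chkS_sound E lk2 1 3 _ _ _ _ t2_8_28)

def r2_9_9 : List (ℕ × ℤ) := [(106, -6), (165, 6)]

theorem h2_9_9 (E : Env κ ι) : ip (F2_9 E) (F2_9 E) = dotS (ek E lk2) r2_9_9 :=
  op_entryZ E lk2 1 3 _ _ _ _ (pg0 κ) (pg2 ι) m2_9 m2_9 l2_9 z2_9 w2_9 x2_9 (by decide) _ (chkS_sound E lk2 1 3 _ _ _ _ t2_9_9)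

def r2_9_10 : List (ℕ × ℤ) := [(66, -6), (168, 6)]

theorem h2_9_10 (E : Env κ ι) : ip (F2_9 E) (F2_10 E) = dotS (ek E lk2) r2_9_10 :=
  op_entryZ E lk2 1 3 _ _ _ _ (pg0 κ) (pg2 ι) m2_9 m2_10 l2_10 z2_10 w2_10 x2_10 (by decide) _ (chkS_sound E lk2 1 3 _ _ _ _ t2_9_10)

def r2_9_11 : List (ℕ × ℤ) := [(26, -6), (275, 6)]

theorem h2_9_11 (E : Env κ ι) : ip (F2_9 E) (F2_11 E) = dotS (ek E lk2) r2_9_11 :=
  op_entryZ E lk2 1 3 _ _ _ _ (pg0 κ) (pg2 ι) m2_9 m2_11 l2_11 z2_11 w2_11 x2_11 (by decide) _ (chkS_sound E lk2 1 3 _ _ _ _ t2_9_11)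

def r2_9_12 : List (ℕ × ℤ) := [(201, -6), (276, 6)]

theorem h2_9_12 (E : Env κ ι) : ip (F2_9 E) (F2_12 E) = dotS (ek E lk2) r2_9_12 :=
  op_entryZ E lk2 1 3 _ _ _ _ (pg0 κ) (pg2 ι) m2_9 m2_12 l2_12 z2_12 w2_12 x2_12 (by decide) _ (chkS_sound E lk2 1 3 _ _ _ _ t2_9_12)

def r2_9_13 : List (ℕ × ℤ) := [(277, 6), (278, -6)]

theorem h2_9_13 (E : Env κ ι) : ip (F2_9 E) (F2_13 E) = dotS (ek E lk2) r2_9_13 :=
  op_entryZ E lk2 1 3 _ _ _ _ (pg0 κ) (pg2 ι) m2_9 m2_13 l2_13 z2_13 w2_13 x2_13 (by decide) _ (chkS_sound E lk2 1 3 _ _ _ _ t2_9_13)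

def r2_9_14 : List (ℕ × ℤ) := [(182, 6), (203, -6)]

theorem h2_9_14 (E : Env κ ι) : ip (F2_9 E) (F2_14 E) = dotS (ek E lk2) r2_9_14 :=
  op_entryZ E lk2 1 3 _ _ _ _ (pg0 κ) (pg2 ι) m2_9 m2_14 l2_14 z2_14 w2_14 x2_14 (by decide) _ (chkS_sound E lk2 1 3 _ _ _ _ t2_9_14)

def r2_9_15 : List (ℕ × ℤ) := [(175, 6), (206, -6)]

theorem h2_9_15 (E : Env κ ι) : ip (F2_9 E) (F2_15 E) = dotS (ek E lk2) r2_9_15 :=
  op_entryZ E lk2 1 3 _ _ _ _ (pg0 κ) (pg2 ι) m2_9 m2_15 l2_15 z2_15 w2_15 x2_15 (by decide) _ (chkS_sound E lk2 1 3 _ _ _ _ t2_9_15)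

def r2_9_16 : List (ℕ × ℤ) := [(77, 6), (203, -6)]

theorem h2_9_16 (E : Env κ ι) : ip (F2_9 E) (F2_16 E) = dotS (ek E lk2) r2_9_16 :=
  op_entryZ E lk2 1 3 _ _ _ _ (pg0 κ) (pg2 ι) m2_9 m2_16 l2_16 z2_16 w2_16 x2_16 (by decide) _ (chkS_sound E lk2 1 3 _ _ _ _ t2_9_16)

def r2_9_17 : List (ℕ × ℤ) := [(107, 6), (204, -6)]

theorem h2_9_17 (E : Env κ ι) : ip (F2_9 E) (F2_17 E) = dotS (ek E lk2) r2_9_17 :=
  op_entryZ E lk2 1 3 _ _ _ _ (pg0 κ) (pg2 ι) m2_9 m2_17 l2_17 z2_17 w2_17 x2_17 (by decide) _ (chkS_sound E lk2 1 3 _ _ _ _ t2_9_17)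

def r2_9_18 : List (ℕ × ℤ) := [(176, 6), (205, -6)]

theorem h2_9_18 (E : Env κ ι) : ip (F2_9 E) (F2_18 E) = dotS (ek E lk2) r2_9_18 :=
  op_entryZ E lk2 1 3 _ _ _ _ (pg0 κ) (pg2 ι) m2_9 m2_18 l2_18 z2_18 w2_18 x2_18 (by decide) _ (chkS_sound E lk2 1 3 _ _ _ _ t2_9_18)

def r2_9_19 : List (ℕ × ℤ) := [(177, 6), (205, -6)]

theorem h2_9_19 (E : Env κ ι) : ip (F2_9 E) (F2_19 E) = dotS (ek E lk2) r2_9_19 :=
  op_entryZ E lk2 1 3 _ _ _ _ (pg0 κ) (pg2 ι) m2_9 m2_19 l2_19 z2_19 w2_19 x2_19 (by decide) _ (chkS_sound E lk2 1 3 _ _ _ _ t2_9_19)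

def r2_9_20 : List (ℕ × ℤ) := [(187, 6), (207, -6)]

theorem h2_9_20 (E : Env κ ι) : ip (F2_9 E) (F2_20 E) = dotS (ek E lk2) r2_9_20 :=
  op_entryZ E lk2 1 3 _ _ _ _ (pg0 κ) (pg2 ι) m2_9 m2_20 l2_20 z2_20 w2_20 x2_20 (by decide) _ (chkS_sound E lk2 1 3 _ _ _ _ t2_9_20)

def r2_9_21 : List (ℕ × ℤ) := [(55, 6), (208, -6)]

theorem h2_9_21 (E : Env κ ι) : ip (F2_9 E) (F2_21 E) = dotS (ek E lk2) r2_9_21 :=
  op_entryZ E lk2 1 3 _ _ _ _ (pg0 κ) (pg2 ι) m2_9 m2_21 l2_21 z2_21 w2_21 x2_21 (by decide) _ (chkS_sound E lk2 1 3 _ _ _ _ t2_9_21)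

def r2_9_22 : List (ℕ × ℤ) := [(59, 6), (207, -6)]

theorem h2_9_22 (E : Env κ ι) : ip (F2_9 E) (F2_22 E) = dotS (ek E lk2) r2_9_22 :=
  op_entryZ E lk2 1 3 _ _ _ _ (pg0 κ) (pg2 ι) m2_9 m2_22 l2_22 z2_22 w2_22 x2_22 (by decide) _ (chkS_sound E lk2 1 3 _ _ _ _ t2_9_22)

def r2_9_23 : List (ℕ × ℤ) := [(190, 6), (209, -6)]

theorem h2_9_23 (E : Env κ ι) : ip (F2_9 E) (F2_23 E) = dotS (ek E lk2) r2_9_23 :=
  op_entryZ E lk2 1 3 _ _ _ _ (pg0 κ) (pg2 ι) m2_9 m2_23 l2_23 z2_23 w2_23 x2_23 (by decide) _ (chkS_sound E lk2 1 3 _ _ _ _ t2_9_23)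

def r2_9_24 : List (ℕ × ℤ) := [(31, -6), (70, 6)]

theorem h2_9_24 (E : Env κ ι) : ip (F2_9 E) (F2_24 E) = dotS (ek E lk2) r2_9_24 :=
  op_entryZ E lk2 1 3 _ _ _ _ (pg0 κ) (pg2 ι) m2_9 m2_24 l2_24 z2_24 w2_24 x2_24 (by decide) _ (chkS_sound E lk2 1 3 _ _ _ _ t2_9_24)

def r2_9_25 : List (ℕ × ℤ) := [(68, 6), (80, -6)]

theorem h2_9_25 (E : Env κ ι) : ip (F2_9 E) (F2_25 E) = dotS (ek E lk2) r2_9_25 :=
  op_entryZ E lk2 1 3 _ _ _ _ (pg0 κ) (pg2 ι) m2_9 m2_25 l2_25 z2_25 w2_25 x2_25 (by decide) _ (chkS_sound E lk2 1 3 _ _ _ _ t2_9_25)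

def r2_9_26 : List (ℕ × ℤ) := [(69, 6), (81, -6)]

theorem h2_9_26 (E : Env κ ι) : ip (F2_9 E) (F2_26 E) = dotS (ek E lk2) r2_9_26 :=
  op_entryZ E lk2 1 3 _ _ _ _ (pg0 κ) (pg2 ι) m2_9 m2_26 l2_26 z2_26 w2_26 x2_26 (by decide) _ (chkS_sound E lk2 1 3 _ _ _ _ t2_9_26)

def r2_9_27 : List (ℕ × ℤ) := [(22, -6), (71, 6)]

theorem h2_9_27 (E : Env κ ι) : ip (F2_9 E) (F2_27 E) = dotS (ek E lk2) r2_9_27 :=
  op_entryZ E lk2 1 3 _ _ _ _ (pg0 κ) (pg2 ι) m2_9 m2_27 l2_27 z2_27 w2_27 x2_27 (by decide) _ (chkS_sound E lk2 1 3 _ _ _ _ t2_9_27)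

def r2_9_28 : List (ℕ × ℤ) := [(279, 6), (280, -6)]

theorem h2_9_28 (E : Env κ ι) : ip (F2_9 E) (F2_28 E) = dotS (ek E lk2) r2_9_28 :=
  op_entryZ E lk2 1 3 _ _ _ _ (pg0 κ) (pg2 ι) m2_9 m2_28 l2_28 z2_28 w2_28 x2_28 (by decide) _ (chkS_sound E lk2 1 3 _ _ _ _ t2_9_28)

def r2_10_10 : List (ℕ × ℤ) := [(213, 6), (231, -6)]

theorem h2_10_10 (E : Env κ ι) : ip (F2_10 E) (F2_10 E) = dotS (ek E lk2) r2_10_10 :=
  op_entryZ E lk2 1 3 _ _ _ _ (pg0 κ) (pg2 ι) m2_10 m2_10 l2_10 z2_10 w2_10 x2_10 (by decide) _ (chkS_sound E lk2 1 3 _ _ _ _ t2_10_10)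

def r2_10_11 : List (ℕ × ℤ) := [(8, -6), (28, 6)]

theorem h2_10_11 (E : Env κ ι) : ip (F2_10 E) (F2_11 E) = dotS (ek E lk2) r2_10_11 :=
  op_entryZ E lk2 1 3 _ _ _ _ (pg0 κ) (pg2 ι) m2_10 m2_11 l2_11 z2_11 w2_11 x2_11 (by decide) _ (chkS_sound E lk2 1 3 _ _ _ _ t2_10_11)

def r2_10_12 : List (ℕ × ℤ) := [(235, -6), (237, 6)]

theorem h2_10_12 (E : Env κ ι) : ip (F2_10 E) (F2_12 E) = dotS (ek E lk2) r2_10_12 :=
  op_entryZ E lk2 1 3 _ _ _ _ (pg0 κ) (pg2 ι) m2_10 m2_12 l2_12 z2_12 w2_12 x2_12 (by decide) _ (chkS_sound E lk2 1 3 _ _ _ _ t2_10_12)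

def r2_10_13 : List (ℕ × ℤ) := [(234, 6), (236, -6)]

theorem h2_10_13 (E : Env κ ι) : ip (F2_10 E) (F2_13 E) = dotS (ek E lk2) r2_10_13 :=
  op_entryZ E lk2 1 3 _ _ _ _ (pg0 κ) (pg2 ι) m2_10 m2_13 l2_13 z2_13 w2_13 x2_13 (by decide) _ (chkS_sound E lk2 1 3 _ _ _ _ t2_10_13)

def r2_10_14 : List (ℕ × ℤ) := [(91, 6), (238, -6), (241, 0)]

theorem h2_10_14 (E : Env κ ι) : ip (F2_10 E) (F2_14 E) = dotS (ek E lk2) r2_10_14 :=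
  op_entryZ E lk2 1 3 _ _ _ _ (pg0 κ) (pg2 ι) m2_10 m2_14 l2_14 z2_14 w2_14 x2_14 (by decide) _ (chkS_sound E lk2 1 3 _ _ _ _ t2_10_14)

def r2_10_15 : List (ℕ × ℤ) := [(32, 6), (242, -6)]

theorem h2_10_15 (E : Env κ ι) : ip (F2_10 E) (F2_15 E) = dotS (ek E lk2) r2_10_15 :=
  op_entryZ E lk2 1 3 _ _ _ _ (pg0 κ) (pg2 ι) m2_10 m2_15 l2_15 z2_15 w2_15 x2_15 (by decide) _ (chkS_sound E lk2 1 3 _ _ _ _ t2_10_15)

def r2_10_16 : List (ℕ × ℤ) := [(91, 6), (241, -6)]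

theorem h2_10_16 (E : Env κ ι) : ip (F2_10 E) (F2_16 E) = dotS (ek E lk2) r2_10_16 :=
  op_entryZ E lk2 1 3 _ _ _ _ (pg0 κ) (pg2 ι) m2_10 m2_16 l2_16 z2_16 w2_16 x2_16 (by decide) _ (chkS_sound E lk2 1 3 _ _ _ _ t2_10_16)

def r2_10_17 : List (ℕ × ℤ) := [(90, 6), (239, -6)]

theorem h2_10_17 (E : Env κ ι) : ip (F2_10 E) (F2_17 E) = dotS (ek E lk2) r2_10_17 :=
  op_entryZ E lk2 1 3 _ _ _ _ (pg0 κ) (pg2 ι) m2_10 m2_17 l2_17 z2_17 w2_17 x2_17 (by decide) _ (chkS_sound E lk2 1 3 _ _ _ _ t2_10_17)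

def r2_10_18 : List (ℕ × ℤ) := [(92, 6), (240, -6), (243, 0)]

theorem h2_10_18 (E : Env κ ι) : ip (F2_10 E) (F2_18 E) = dotS (ek E lk2) r2_10_18 :=
  op_entryZ E lk2 1 3 _ _ _ _ (pg0 κ) (pg2 ι) m2_10 m2_18 l2_18 z2_18 w2_18 x2_18 (by decide) _ (chkS_sound E lk2 1 3 _ _ _ _ t2_10_18)

def r2_10_19 : List (ℕ × ℤ) := [(92, 6), (243, -6)]

theorem h2_10_19 (E : Env κ ι) : ip (F2_10 E) (F2_19 E) = dotS (ek E lk2) r2_10_19 :=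
  op_entryZ E lk2 1 3 _ _ _ _ (pg0 κ) (pg2 ι) m2_10 m2_19 l2_19 z2_19 w2_19 x2_19 (by decide) _ (chkS_sound E lk2 1 3 _ _ _ _ t2_10_19)

def r2_10_20 : List (ℕ × ℤ) := [(54, 6), (244, -6)]

theorem h2_10_20 (E : Env κ ι) : ip (F2_10 E) (F2_20 E) = dotS (ek E lk2) r2_10_20 :=
  op_entryZ E lk2 1 3 _ _ _ _ (pg0 κ) (pg2 ι) m2_10 m2_20 l2_20 z2_20 w2_20 x2_20 (by decide) _ (chkS_sound E lk2 1 3 _ _ _ _ t2_10_20)

def r2_10_21 : List (ℕ × ℤ) := [(53, 6), (57, -6)]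

theorem h2_10_21 (E : Env κ ι) : ip (F2_10 E) (F2_21 E) = dotS (ek E lk2) r2_10_21 :=
  op_entryZ E lk2 1 3 _ _ _ _ (pg0 κ) (pg2 ι) m2_10 m2_21 l2_21 z2_21 w2_21 x2_21 (by decide) _ (chkS_sound E lk2 1 3 _ _ _ _ t2_10_21)

def r2_10_22 : List (ℕ × ℤ) := [(54, 6), (56, -6), (244, 0)]

theorem h2_10_22 (E : Env κ ι) : ip (F2_10 E) (F2_22 E) = dotS (ek E lk2) r2_10_22 :=
  op_entryZ E lk2 1 3 _ _ _ _ (pg0 κ) (pg2 ι) m2_10 m2_22 l2_22 z2_22 w2_22 x2_22 (by decide) _ (chkS_sound E lk2 1 3 _ _ _ _ t2_10_22)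

def r2_10_23 : List (ℕ × ℤ) := [(93, 6), (245, -6)]

theorem h2_10_23 (E : Env κ ι) : ip (F2_10 E) (F2_23 E) = dotS (ek E lk2) r2_10_23 :=
  op_entryZ E lk2 1 3 _ _ _ _ (pg0 κ) (pg2 ι) m2_10 m2_23 l2_23 z2_23 w2_23 x2_23 (by decide) _ (chkS_sound E lk2 1 3 _ _ _ _ t2_10_23)

def r2_10_24 : List (ℕ × ℤ) := [(18, -6), (33, 6)]

theorem h2_10_24 (E : Env κ ι) : ip (F2_10 E) (F2_24 E) = dotS (ek E lk2) r2_10_24 :=
  op_entryZ E lk2 1 3 _ _ _ _ (pg0 κ) (pg2 ι) m2_10 m2_24 l2_24 z2_24 w2_24 x2_24 (by decide) _ (chkS_sound E lk2 1 3 _ _ _ _ t2_10_24)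

def r2_10_25 : List (ℕ × ℤ) := [(94, 6), (104, -6)]

theorem h2_10_25 (E : Env κ ι) : ip (F2_10 E) (F2_25 E) = dotS (ek E lk2) r2_10_25 :=
  op_entryZ E lk2 1 3 _ _ _ _ (pg0 κ) (pg2 ι) m2_10 m2_25 l2_25 z2_25 w2_25 x2_25 (by decide) _ (chkS_sound E lk2 1 3 _ _ _ _ t2_10_25)

def r2_10_26 : List (ℕ × ℤ) := [(58, 6), (105, -6)]

theorem h2_10_26 (E : Env κ ι) : ip (F2_10 E) (F2_26 E) = dotS (ek E lk2) r2_10_26 :=
  op_entryZ E lk2 1 3 _ _ _ _ (pg0 κ) (pg2 ι) m2_10 m2_26 l2_26 z2_26 w2_26 x2_26 (by decide) _ (chkS_sound E lk2 1 3 _ _ _ _ t2_10_26)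

def r2_10_27 : List (ℕ × ℤ) := [(5, -6), (23, 6)]

theorem h2_10_27 (E : Env κ ι) : ip (F2_10 E) (F2_27 E) = dotS (ek E lk2) r2_10_27 :=
  op_entryZ E lk2 1 3 _ _ _ _ (pg0 κ) (pg2 ι) m2_10 m2_27 l2_27 z2_27 w2_27 x2_27 (by decide) _ (chkS_sound E lk2 1 3 _ _ _ _ t2_10_27)

def r2_10_28 : List (ℕ × ℤ) := [(29, 6), (281, -6)]

theorem h2_10_28 (E : Env κ ι) : ip (F2_10 E) (F2_28 E) = dotS (ek E lk2) r2_10_28 :=
  op_entryZ E lk2 1 3 _ _ _ _ (pg0 κ) (pg2 ι) m2_10 m2_28 l2_28 z2_28 w2_28 x2_28 (by decide) _ (chkS_sound E lk2 1 3 _ _ _ _ t2_10_28)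

def r2_11_11 : List (ℕ × ℤ) := [(137, -6), (282, 6)]

theorem h2_11_11 (E : Env κ ι) : ip (F2_11 E) (F2_11 E) = dotS (ek E lk2) r2_11_11 :=
  op_entryZ E lk2 1 3 _ _ _ _ (pg0 κ) (pg2 ι) m2_11 m2_11 l2_11 z2_11 w2_11 x2_11 (by decide) _ (chkS_sound E lk2 1 3 _ _ _ _ t2_11_11)

def r2_11_12 : List (ℕ × ℤ) := [(130, -6), (283, 6)]

theorem h2_11_12 (E : Env κ ι) : ip (F2_11 E) (F2_12 E) = dotS (ek E lk2) r2_11_12 :=
  op_entryZ E lk2 1 3 _ _ _ _ (pg0 κ) (pg2 ι) m2_11 m2_12 l2_12 z2_12 w2_12 x2_12 (by decide) _ (chkS_sound E lk2 1 3 _ _ _ _ t2_11_12)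

def r2_11_13 : List (ℕ × ℤ) := [(15, -6), (122, 6)]

theorem h2_11_13 (E : Env κ ι) : ip (F2_11 E) (F2_13 E) = dotS (ek E lk2) r2_11_13 :=
  op_entryZ E lk2 1 3 _ _ _ _ (pg0 κ) (pg2 ι) m2_11 m2_13 l2_13 z2_13 w2_13 x2_13 (by decide) _ (chkS_sound E lk2 1 3 _ _ _ _ t2_11_13)

def r2_11_14 : List (ℕ × ℤ) := [(122, -6), (283, 6)]

theorem h2_11_14 (E : Env κ ι) : ip (F2_11 E) (F2_14 E) = dotS (ek E lk2) r2_11_14 :=
  op_entryZ E lk2 1 3 _ _ _ _ (pg0 κ) (pg2 ι) m2_11 m2_14 l2_14 z2_14 w2_14 x2_14 (by decide) _ (chkS_sound E lk2 1 3 _ _ _ _ t2_11_14)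

def r2_11_15 : List (ℕ × ℤ) := [(15, -6), (130, 6)]

theorem h2_11_15 (E : Env κ ι) : ip (F2_11 E) (F2_15 E) = dotS (ek E lk2) r2_11_15 :=
  op_entryZ E lk2 1 3 _ _ _ _ (pg0 κ) (pg2 ι) m2_11 m2_15 l2_15 z2_15 w2_15 x2_15 (by decide) _ (chkS_sound E lk2 1 3 _ _ _ _ t2_11_15)

def r2_11_16 : List (ℕ × ℤ) := [(122, -6), (130, 6), (283, 0)]

theorem h2_11_16 (E : Env κ ι) : ip (F2_11 E) (F2_16 E) = dotS (ek E lk2) r2_11_16 :=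
  op_entryZ E lk2 1 3 _ _ _ _ (pg0 κ) (pg2 ι) m2_11 m2_16 l2_16 z2_16 w2_16 x2_16 (by decide) _ (chkS_sound E lk2 1 3 _ _ _ _ t2_11_16)

def r2_11_17 : List (ℕ × ℤ) := [(122, 6), (284, -6)]

theorem h2_11_17 (E : Env κ ι) : ip (F2_11 E) (F2_17 E) = dotS (ek E lk2) r2_11_17 :=
  op_entryZ E lk2 1 3 _ _ _ _ (pg0 κ) (pg2 ι) m2_11 m2_17 l2_17 z2_17 w2_17 x2_17 (by decide) _ (chkS_sound E lk2 1 3 _ _ _ _ t2_11_17)

def r2_11_18 : List (ℕ × ℤ) := [(122, -6), (130, 6)]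

theorem h2_11_18 (E : Env κ ι) : ip (F2_11 E) (F2_18 E) = dotS (ek E lk2) r2_11_18 :=
  op_entryZ E lk2 1 3 _ _ _ _ (pg0 κ) (pg2 ι) m2_11 m2_18 l2_18 z2_18 w2_18 x2_18 (by decide) _ (chkS_sound E lk2 1 3 _ _ _ _ t2_11_18)

def r2_11_19 : List (ℕ × ℤ) := [(115, 6), (122, -6), (130, 0)]

theorem h2_11_19 (E : Env κ ι) : ip (F2_11 E) (F2_19 E) = dotS (ek E lk2) r2_11_19 :=
  op_entryZ E lk2 1 3 _ _ _ _ (pg0 κ) (pg2 ι) m2_11 m2_19 l2_19 z2_19 w2_19 x2_19 (by decide) _ (chkS_sound E lk2 1 3 _ _ _ _ t2_11_19)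

def r2_11_20 : List (ℕ × ℤ) := [(43, -6), (116, 6), (131, 0)]

theorem h2_11_20 (E : Env κ ι) : ip (F2_11 E) (F2_20 E) = dotS (ek E lk2) r2_11_20 :=
  op_entryZ E lk2 1 3 _ _ _ _ (pg0 κ) (pg2 ι) m2_11 m2_20 l2_20 z2_20 w2_20 x2_20 (by decide) _ (chkS_sound E lk2 1 3 _ _ _ _ t2_11_20)

def r2_11_21 : List (ℕ × ℤ) := [(43, 6), (45, -6)]

theorem h2_11_21 (E : Env κ ι) : ip (F2_11 E) (F2_21 E) = dotS (ek E lk2) r2_11_21 :=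
  op_entryZ E lk2 1 3 _ _ _ _ (pg0 κ) (pg2 ι) m2_11 m2_21 l2_21 z2_21 w2_21 x2_21 (by decide) _ (chkS_sound E lk2 1 3 _ _ _ _ t2_11_21)

def r2_11_22 : List (ℕ × ℤ) := [(43, -6), (131, 6)]

theorem h2_11_22 (E : Env κ ι) : ip (F2_11 E) (F2_22 E) = dotS (ek E lk2) r2_11_22 :=
  op_entryZ E lk2 1 3 _ _ _ _ (pg0 κ) (pg2 ι) m2_11 m2_22 l2_22 z2_22 w2_22 x2_22 (by decide) _ (chkS_sound E lk2 1 3 _ _ _ _ t2_11_22)

def r2_11_23 : List (ℕ × ℤ) := [(12, -6), (285, 6)]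

theorem h2_11_23 (E : Env κ ι) : ip (F2_11 E) (F2_23 E) = dotS (ek E lk2) r2_11_23 :=
  op_entryZ E lk2 1 3 _ _ _ _ (pg0 κ) (pg2 ι) m2_11 m2_23 l2_23 z2_23 w2_23 x2_23 (by decide) _ (chkS_sound E lk2 1 3 _ _ _ _ t2_11_23)

def r2_11_24 : List (ℕ × ℤ) := [(15, -6), (282, 6)]

theorem h2_11_24 (E : Env κ ι) : ip (F2_11 E) (F2_24 E) = dotS (ek E lk2) r2_11_24 :=
  op_entryZ E lk2 1 3 _ _ _ _ (pg0 κ) (pg2 ι) m2_11 m2_24 l2_24 z2_24 w2_24 x2_24 (by decide) _ (chkS_sound E lk2 1 3 _ _ _ _ t2_11_24)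

def r2_11_25 : List (ℕ × ℤ) := [(122, -6), (137, 6)]

theorem h2_11_25 (E : Env κ ι) : ip (F2_11 E) (F2_25 E) = dotS (ek E lk2) r2_11_25 :=
  op_entryZ E lk2 1 3 _ _ _ _ (pg0 κ) (pg2 ι) m2_11 m2_25 l2_25 z2_25 w2_25 x2_25 (by decide) _ (chkS_sound E lk2 1 3 _ _ _ _ t2_11_25)

def r2_11_26 : List (ℕ × ℤ) := [(43, -6), (138, 6)]

theorem h2_11_26 (E : Env κ ι) : ip (F2_11 E) (F2_26 E) = dotS (ek E lk2) r2_11_26 :=
  op_entryZ E lk2 1 3 _ _ _ _ (pg0 κ) (pg2 ι) m2_11 m2_26 l2_26 z2_26 w2_26 x2_26 (by decide) _ (chkS_sound E lk2 1 3 _ _ _ _ t2_11_26)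

def r2_11_27 : List (ℕ × ℤ) := [(21, -6), (140, 6)]

theorem h2_11_27 (E : Env κ ι) : ip (F2_11 E) (F2_27 E) = dotS (ek E lk2) r2_11_27 :=
  op_entryZ E lk2 1 3 _ _ _ _ (pg0 κ) (pg2 ι) m2_11 m2_27 l2_27 z2_27 w2_27 x2_27 (by decide) _ (chkS_sound E lk2 1 3 _ _ _ _ t2_11_27)

def r2_11_28 : List (ℕ × ℤ) := [(139, -6), (286, 6)]

theorem h2_11_28 (E : Env κ ι) : ip (F2_11 E) (F2_28 E) = dotS (ek E lk2) r2_11_28 :=
  op_entryZ E lk2 1 3 _ _ _ _ (pg0 κ) (pg2 ι) m2_11 m2_28 l2_28 z2_28 w2_28 x2_28 (by decide) _ (chkS_sound E lk2 1 3 _ _ _ _ t2_11_28)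

def r2_12_12 : List (ℕ × ℤ) := [(129, -6), (287, 6)]

theorem h2_12_12 (E : Env κ ι) : ip (F2_12 E) (F2_12 E) = dotS (ek E lk2) r2_12_12 :=
  op_entryZ E lk2 1 3 _ _ _ _ (pg0 κ) (pg2 ι) m2_12 m2_12 l2_12 z2_12 w2_12 x2_12 (by decide) _ (chkS_sound E lk2 1 3 _ _ _ _ t2_12_12)

def r2_12_13 : List (ℕ × ℤ) := [(125, 6), (288, -6)]

theorem h2_12_13 (E : Env κ ι) : ip (F2_12 E) (F2_13 E) = dotS (ek E lk2) r2_12_13 :=
  op_entryZ E lk2 1 3 _ _ _ _ (pg0 κ) (pg2 ι) m2_12 m2_13 l2_13 z2_13 w2_13 x2_13 (by decide) _ (chkS_sound E lk2 1 3 _ _ _ _ t2_12_13)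

def r2_12_14 : List (ℕ × ℤ) := [(121, -6), (289, 6)]

theorem h2_12_14 (E : Env κ ι) : ip (F2_12 E) (F2_14 E) = dotS (ek E lk2) r2_12_14 :=
  op_entryZ E lk2 1 3 _ _ _ _ (pg0 κ) (pg2 ι) m2_12 m2_14 l2_14 z2_14 w2_14 x2_14 (by decide) _ (chkS_sound E lk2 1 3 _ _ _ _ t2_12_14)

def r2_12_15 : List (ℕ × ℤ) := [(133, 6), (288, -6)]

theorem h2_12_15 (E : Env κ ι) : ip (F2_12 E) (F2_15 E) = dotS (ek E lk2) r2_12_15 :=
  op_entryZ E lk2 1 3 _ _ _ _ (pg0 κ) (pg2 ι) m2_12 m2_15 l2_15 z2_15 w2_15 x2_15 (by decide) _ (chkS_sound E lk2 1 3 _ _ _ _ t2_12_15)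

def r2_12_16 : List (ℕ × ℤ) := [(121, -6), (133, 6), (289, 0)]

theorem h2_12_16 (E : Env κ ι) : ip (F2_12 E) (F2_16 E) = dotS (ek E lk2) r2_12_16 :=
  op_entryZ E lk2 1 3 _ _ _ _ (pg0 κ) (pg2 ι) m2_12 m2_16 l2_16 z2_16 w2_16 x2_16 (by decide) _ (chkS_sound E lk2 1 3 _ _ _ _ t2_12_16)

def r2_12_17 : List (ℕ × ℤ) := [(290, 6), (291, -6)]

theorem h2_12_17 (E : Env κ ι) : ip (F2_12 E) (F2_17 E) = dotS (ek E lk2) r2_12_17 :=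
  op_entryZ E lk2 1 3 _ _ _ _ (pg0 κ) (pg2 ι) m2_12 m2_17 l2_17 z2_17 w2_17 x2_17 (by decide) _ (chkS_sound E lk2 1 3 _ _ _ _ t2_12_17)

def r2_12_18 : List (ℕ × ℤ) := [(125, -6), (133, 6), (292, 0)]

theorem h2_12_18 (E : Env κ ι) : ip (F2_12 E) (F2_18 E) = dotS (ek E lk2) r2_12_18 :=
  op_entryZ E lk2 1 3 _ _ _ _ (pg0 κ) (pg2 ι) m2_12 m2_18 l2_18 z2_18 w2_18 x2_18 (by decide) _ (chkS_sound E lk2 1 3 _ _ _ _ t2_12_18)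

def r2_12_19 : List (ℕ × ℤ) := [(125, -6), (292, 6)]

theorem h2_12_19 (E : Env κ ι) : ip (F2_12 E) (F2_19 E) = dotS (ek E lk2) r2_12_19 :=
  op_entryZ E lk2 1 3 _ _ _ _ (pg0 κ) (pg2 ι) m2_12 m2_19 l2_19 z2_19 w2_19 x2_19 (by decide) _ (chkS_sound E lk2 1 3 _ _ _ _ t2_12_19)

def r2_12_20 : List (ℕ × ℤ) := [(126, -6), (293, 6)]

theorem h2_12_20 (E : Env κ ι) : ip (F2_12 E) (F2_20 E) = dotS (ek E lk2) r2_12_20 :=
  op_entryZ E lk2 1 3 _ _ _ _ (pg0 κ) (pg2 ι) m2_12 m2_20 l2_20 z2_20 w2_20 x2_20 (by decide) _ (chkS_sound E lk2 1 3 _ _ _ _ t2_12_20)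

def r2_12_21 : List (ℕ × ℤ) := [(141, 6), (294, -6)]

theorem h2_12_21 (E : Env κ ι) : ip (F2_12 E) (F2_21 E) = dotS (ek E lk2) r2_12_21 :=
  op_entryZ E lk2 1 3 _ _ _ _ (pg0 κ) (pg2 ι) m2_12 m2_21 l2_21 z2_21 w2_21 x2_21 (by decide) _ (chkS_sound E lk2 1 3 _ _ _ _ t2_12_21)

def r2_12_22 : List (ℕ × ℤ) := [(126, -6), (134, 6), (293, 0)]

theorem h2_12_22 (E : Env κ ι) : ip (F2_12 E) (F2_22 E) = dotS (ek E lk2) r2_12_22 :=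
  op_entryZ E lk2 1 3 _ _ _ _ (pg0 κ) (pg2 ι) m2_12 m2_22 l2_22 z2_22 w2_22 x2_22 (by decide) _ (chkS_sound E lk2 1 3 _ _ _ _ t2_12_22)

def r2_12_23 : List (ℕ × ℤ) := [(295, 6), (296, -6)]

theorem h2_12_23 (E : Env κ ι) : ip (F2_12 E) (F2_23 E) = dotS (ek E lk2) r2_12_23 :=
  op_entryZ E lk2 1 3 _ _ _ _ (pg0 κ) (pg2 ι) m2_12 m2_23 l2_23 z2_23 w2_23 x2_23 (by decide) _ (chkS_sound E lk2 1 3 _ _ _ _ t2_12_23)

def r2_12_24 : List (ℕ × ℤ) := [(132, -6), (297, 6)]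

theorem h2_12_24 (E : Env κ ι) : ip (F2_12 E) (F2_24 E) = dotS (ek E lk2) r2_12_24 :=
  op_entryZ E lk2 1 3 _ _ _ _ (pg0 κ) (pg2 ι) m2_12 m2_24 l2_24 z2_24 w2_24 x2_24 (by decide) _ (chkS_sound E lk2 1 3 _ _ _ _ t2_12_24)

def r2_12_25 : List (ℕ × ℤ) := [(290, -6), (298, 6)]

theorem h2_12_25 (E : Env κ ι) : ip (F2_12 E) (F2_25 E) = dotS (ek E lk2) r2_12_25 :=
  op_entryZ E lk2 1 3 _ _ _ _ (pg0 κ) (pg2 ι) m2_12 m2_25 l2_25 z2_25 w2_25 x2_25 (by decide) _ (chkS_sound E lk2 1 3 _ _ _ _ t2_12_25)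

def r2_12_26 : List (ℕ × ℤ) := [(141, -6), (299, 6)]

theorem h2_12_26 (E : Env κ ι) : ip (F2_12 E) (F2_26 E) = dotS (ek E lk2) r2_12_26 :=
  op_entryZ E lk2 1 3 _ _ _ _ (pg0 κ) (pg2 ι) m2_12 m2_26 l2_26 z2_26 w2_26 x2_26 (by decide) _ (chkS_sound E lk2 1 3 _ _ _ _ t2_12_26)

def r2_12_27 : List (ℕ × ℤ) := [(135, -6), (300, 6)]

theorem h2_12_27 (E : Env κ ι) : ip (F2_12 E) (F2_27 E) = dotS (ek E lk2) r2_12_27 :=
  op_entryZ E lk2 1 3 _ _ _ _ (pg0 κ) (pg2 ι) m2_12 m2_27 l2_27 z2_27 w2_27 x2_27 (by decide) _ (chkS_sound E lk2 1 3 _ _ _ _ t2_12_27)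

def r2_12_28 : List (ℕ × ℤ) := [(301, 6), (302, -6)]

theorem h2_12_28 (E : Env κ ι) : ip (F2_12 E) (F2_28 E) = dotS (ek E lk2) r2_12_28 :=
  op_entryZ E lk2 1 3 _ _ _ _ (pg0 κ) (pg2 ι) m2_12 m2_28 l2_28 z2_28 w2_28 x2_28 (by decide) _ (chkS_sound E lk2 1 3 _ _ _ _ t2_12_28)

def r2_13_13 : List (ℕ × ℤ) := [(120, -6), (124, 6)]

theorem h2_13_13 (E : Env κ ι) : ip (F2_13 E) (F2_13 E) = dotS (ek E lk2) r2_13_13 :=
  op_entryZ E lk2 1 3 _ _ _ _ (pg0 κ) (pg2 ι) m2_13 m2_13 l2_13 z2_13 w2_13 x2_13 (by decide) _ (chkS_sound E lk2 1 3 _ _ _ _ t2_13_13)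

def r2_13_14 : List (ℕ × ℤ) := [(288, -6), (290, 6)]

theorem h2_13_14 (E : Env κ ι) : ip (F2_13 E) (F2_14 E) = dotS (ek E lk2) r2_13_14 :=
  op_entryZ E lk2 1 3 _ _ _ _ (pg0 κ) (pg2 ι) m2_13 m2_14 l2_14 z2_14 w2_14 x2_14 (by decide) _ (chkS_sound E lk2 1 3 _ _ _ _ t2_13_14)

def r2_13_15 : List (ℕ × ℤ) := [(121, -6), (132, 6)]

theorem h2_13_15 (E : Env κ ι) : ip (F2_13 E) (F2_15 E) = dotS (ek E lk2) r2_13_15 :=
  op_entryZ E lk2 1 3 _ _ _ _ (pg0 κ) (pg2 ι) m2_13 m2_15 l2_15 z2_15 w2_15 x2_15 (by decide) _ (chkS_sound E lk2 1 3 _ _ _ _ t2_13_15)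

def r2_13_16 : List (ℕ × ℤ) := [(121, -6), (290, 6)]

theorem h2_13_16 (E : Env κ ι) : ip (F2_13 E) (F2_16 E) = dotS (ek E lk2) r2_13_16 :=
  op_entryZ E lk2 1 3 _ _ _ _ (pg0 κ) (pg2 ι) m2_13 m2_16 l2_16 z2_16 w2_16 x2_16 (by decide) _ (chkS_sound E lk2 1 3 _ _ _ _ t2_13_16)

def r2_13_17 : List (ℕ × ℤ) := [(120, -6), (304, 6)]

theorem h2_13_17 (E : Env κ ι) : ip (F2_13 E) (F2_17 E) = dotS (ek E lk2) r2_13_17 :=
  op_entryZ E lk2 1 3 _ _ _ _ (pg0 κ) (pg2 ι) m2_13 m2_17 l2_17 z2_17 w2_17 x2_17 (by decide) _ (chkS_sound E lk2 1 3 _ _ _ _ t2_13_17)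

def r2_13_18 : List (ℕ × ℤ) := [(125, -6), (290, 6)]

theorem h2_13_18 (E : Env κ ι) : ip (F2_13 E) (F2_18 E) = dotS (ek E lk2) r2_13_18 :=
  op_entryZ E lk2 1 3 _ _ _ _ (pg0 κ) (pg2 ι) m2_13 m2_18 l2_18 z2_18 w2_18 x2_18 (by decide) _ (chkS_sound E lk2 1 3 _ _ _ _ t2_13_18)

def r2_13_19 : List (ℕ × ℤ) := [(113, -6), (290, 6)]

theorem h2_13_19 (E : Env κ ι) : ip (F2_13 E) (F2_19 E) = dotS (ek E lk2) r2_13_19 :=
  op_entryZ E lk2 1 3 _ _ _ _ (pg0 κ) (pg2 ι) m2_13 m2_19 l2_19 z2_19 w2_19 x2_19 (by decide) _ (chkS_sound E lk2 1 3 _ _ _ _ t2_13_19)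

def r2_13_20 : List (ℕ × ℤ) := [(117, -6), (141, 6)]

theorem h2_13_20 (E : Env κ ι) : ip (F2_13 E) (F2_20 E) = dotS (ek E lk2) r2_13_20 :=
  op_entryZ E lk2 1 3 _ _ _ _ (pg0 κ) (pg2 ι) m2_13 m2_20 l2_20 z2_20 w2_20 x2_20 (by decide) _ (chkS_sound E lk2 1 3 _ _ _ _ t2_13_20)

def r2_13_21 : List (ℕ × ℤ) := [(49, 6), (123, -6)]

theorem h2_13_21 (E : Env κ ι) : ip (F2_13 E) (F2_21 E) = dotS (ek E lk2) r2_13_21 :=
  op_entryZ E lk2 1 3 _ _ _ _ (pg0 κ) (pg2 ι) m2_13 m2_21 l2_21 z2_21 w2_21 x2_21 (by decide) _ (chkS_sound E lk2 1 3 _ _ _ _ t2_13_21)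

def r2_13_22 : List (ℕ × ℤ) := [(126, -6), (141, 6)]

theorem h2_13_22 (E : Env κ ι) : ip (F2_13 E) (F2_22 E) = dotS (ek E lk2) r2_13_22 :=
  op_entryZ E lk2 1 3 _ _ _ _ (pg0 κ) (pg2 ι) m2_13 m2_22 l2_22 z2_22 w2_22 x2_22 (by decide) _ (chkS_sound E lk2 1 3 _ _ _ _ t2_13_22)

def r2_13_23 : List (ℕ × ℤ) := [(305, 6), (306, -6)]

theorem h2_13_23 (E : Env κ ι) : ip (F2_13 E) (F2_23 E) = dotS (ek E lk2) r2_13_23 :=
  op_entryZ E lk2 1 3 _ _ _ _ (pg0 κ) (pg2 ι) m2_13 m2_23 l2_23 z2_23 w2_23 x2_23 (by decide) _ (chkS_sound E lk2 1 3 _ _ _ _ t2_13_23)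

def r2_13_24 : List (ℕ × ℤ) := [(15, -6), (132, 6)]

theorem h2_13_24 (E : Env κ ι) : ip (F2_13 E) (F2_24 E) = dotS (ek E lk2) r2_13_24 :=
  op_entryZ E lk2 1 3 _ _ _ _ (pg0 κ) (pg2 ι) m2_13 m2_24 l2_24 z2_24 w2_24 x2_24 (by decide) _ (chkS_sound E lk2 1 3 _ _ _ _ t2_13_24)

def r2_13_25 : List (ℕ × ℤ) := [(122, -6), (290, 6)]

theorem h2_13_25 (E : Env κ ι) : ip (F2_13 E) (F2_25 E) = dotS (ek E lk2) r2_13_25 :=
  op_entryZ E lk2 1 3 _ _ _ _ (pg0 κ) (pg2 ι) m2_13 m2_25 l2_25 z2_25 w2_25 x2_25 (by decide) _ (chkS_sound E lk2 1 3 _ _ _ _ t2_13_25)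

def r2_13_26 : List (ℕ × ℤ) := [(43, -6), (141, 6)]

theorem h2_13_26 (E : Env κ ι) : ip (F2_13 E) (F2_26 E) = dotS (ek E lk2) r2_13_26 :=
  op_entryZ E lk2 1 3 _ _ _ _ (pg0 κ) (pg2 ι) m2_13 m2_26 l2_26 z2_26 w2_26 x2_26 (by decide) _ (chkS_sound E lk2 1 3 _ _ _ _ t2_13_26)

def r2_13_27 : List (ℕ × ℤ) := [(21, -6), (135, 6)]

theorem h2_13_27 (E : Env κ ι) : ip (F2_13 E) (F2_27 E) = dotS (ek E lk2) r2_13_27 :=
  op_entryZ E lk2 1 3 _ _ _ _ (pg0 κ) (pg2 ι) m2_13 m2_27 l2_27 z2_27 w2_27 x2_27 (by decide) _ (chkS_sound E lk2 1 3 _ _ _ _ t2_13_27)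

def r2_13_28 : List (ℕ × ℤ) := [(128, 6), (307, -6)]

theorem h2_13_28 (E : Env κ ι) : ip (F2_13 E) (F2_28 E) = dotS (ek E lk2) r2_13_28 :=
  op_entryZ E lk2 1 3 _ _ _ _ (pg0 κ) (pg2 ι) m2_13 m2_28 l2_28 z2_28 w2_28 x2_28 (by decide) _ (chkS_sound E lk2 1 3 _ _ _ _ t2_13_28)

def r2_14_14 : List (ℕ × ℤ) := [(120, -4), (125, -4), (147, 2), (287, 2), (308, 4)]

theorem h2_14_14 (E : Env κ ι) : ip (F2_14 E) (F2_14 E) = dotS (ek E lk2) r2_14_14 :=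
  op_entryZ E lk2 1 3 _ _ _ _ (pg0 κ) (pg2 ι) m2_14 m2_14 l2_14 z2_14 w2_14 x2_14 (by decide) _ (chkS_sound E lk2 1 3 _ _ _ _ t2_14_14)

def r2_14_15 : List (ℕ × ℤ) := [(288, -6), (309, 6)]

theorem h2_14_15 (E : Env κ ι) : ip (F2_14 E) (F2_15 E) = dotS (ek E lk2) r2_14_15 :=
  op_entryZ E lk2 1 3 _ _ _ _ (pg0 κ) (pg2 ι) m2_14 m2_15 l2_15 z2_15 w2_15 x2_15 (by decide) _ (chkS_sound E lk2 1 3 _ _ _ _ t2_14_15)

def r2_14_16 : List (ℕ × ℤ) := [(120, -2), (125, -2), (147, 4), (287, -2), (308, 2)]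

theorem h2_14_16 (E : Env κ ι) : ip (F2_14 E) (F2_16 E) = dotS (ek E lk2) r2_14_16 :=
  op_entryZ E lk2 1 3 _ _ _ _ (pg0 κ) (pg2 ι) m2_14 m2_16 l2_16 z2_16 w2_16 x2_16 (by decide) _ (chkS_sound E lk2 1 3 _ _ _ _ t2_14_16)

def r2_14_17 : List (ℕ × ℤ) := [(291, -6), (310, 6)]

theorem h2_14_17 (E : Env κ ι) : ip (F2_14 E) (F2_17 E) = dotS (ek E lk2) r2_14_17 :=
  op_entryZ E lk2 1 3 _ _ _ _ (pg0 κ) (pg2 ι) m2_14 m2_17 l2_17 z2_17 w2_17 x2_17 (by decide) _ (chkS_sound E lk2 1 3 _ _ _ _ t2_14_17)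

def r2_14_18 : List (ℕ × ℤ) := [(121, -2), (129, 2), (290, -4), (292, -2), (309, 4), (311, 2)]

theorem h2_14_18 (E : Env κ ι) : ip (F2_14 E) (F2_18 E) = dotS (ek E lk2) r2_14_18 :=
  op_entryZ E lk2 1 3 _ _ _ _ (pg0 κ) (pg2 ι) m2_14 m2_18 l2_18 z2_18 w2_18 x2_18 (by decide) _ (chkS_sound E lk2 1 3 _ _ _ _ t2_14_18)

def r2_14_19 : List (ℕ × ℤ) := [(121, -4), (129, -2), (290, -2), (292, 2), (309, 2), (311, 4)]

theorem h2_14_19 (E : Env κ ι) : ip (F2_14 E) (F2_19 E) = dotS (ek E lk2) r2_14_19 :=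
  op_entryZ E lk2 1 3 _ _ _ _ (pg0 κ) (pg2 ι) m2_14 m2_19 l2_19 z2_19 w2_19 x2_19 (by decide) _ (chkS_sound E lk2 1 3 _ _ _ _ t2_14_19)

def r2_14_20 : List (ℕ × ℤ) := [(123, -4), (126, -2), (141, -2), (148, 2), (293, 2), (312, 4)]

theorem h2_14_20 (E : Env κ ι) : ip (F2_14 E) (F2_20 E) = dotS (ek E lk2) r2_14_20 :=
  op_entryZ E lk2 1 3 _ _ _ _ (pg0 κ) (pg2 ι) m2_14 m2_20 l2_20 z2_20 w2_20 x2_20 (by decide) _ (chkS_sound E lk2 1 3 _ _ _ _ t2_14_20)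

def r2_14_21 : List (ℕ × ℤ) := [(294, -6), (313, 6)]

theorem h2_14_21 (E : Env κ ι) : ip (F2_14 E) (F2_21 E) = dotS (ek E lk2) r2_14_21 :=
  op_entryZ E lk2 1 3 _ _ _ _ (pg0 κ) (pg2 ι) m2_14 m2_21 l2_21 z2_21 w2_21 x2_21 (by decide) _ (chkS_sound E lk2 1 3 _ _ _ _ t2_14_21)

def r2_14_22 : List (ℕ × ℤ) := [(123, -2), (126, 2), (141, -4), (148, 4), (293, -2), (312, 2)]

theorem h2_14_22 (E : Env κ ι) : ip (F2_14 E) (F2_22 E) = dotS (ek E lk2) r2_14_22 :=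
  op_entryZ E lk2 1 3 _ _ _ _ (pg0 κ) (pg2 ι) m2_14 m2_22 l2_22 z2_22 w2_22 x2_22 (by decide) _ (chkS_sound E lk2 1 3 _ _ _ _ t2_14_22)

def r2_14_23 : List (ℕ × ℤ) := [(314, 6), (316, -6)]

theorem h2_14_23 (E : Env κ ι) : ip (F2_14 E) (F2_23 E) = dotS (ek E lk2) r2_14_23 :=
  op_entryZ E lk2 1 3 _ _ _ _ (pg0 κ) (pg2 ι) m2_14 m2_23 l2_23 z2_23 w2_23 x2_23 (by decide) _ (chkS_sound E lk2 1 3 _ _ _ _ t2_14_23)

def r2_14_24 : List (ℕ × ℤ) := [(124, -6), (317, 6)]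

theorem h2_14_24 (E : Env κ ι) : ip (F2_14 E) (F2_24 E) = dotS (ek E lk2) r2_14_24 :=
  op_entryZ E lk2 1 3 _ _ _ _ (pg0 κ) (pg2 ι) m2_14 m2_24 l2_24 z2_24 w2_24 x2_24 (by decide) _ (chkS_sound E lk2 1 3 _ _ _ _ t2_14_24)

def r2_14_25 : List (ℕ × ℤ) := [(125, -6), (318, 6)]

theorem h2_14_25 (E : Env κ ι) : ip (F2_14 E) (F2_25 E) = dotS (ek E lk2) r2_14_25 :=
  op_entryZ E lk2 1 3 _ _ _ _ (pg0 κ) (pg2 ι) m2_14 m2_25 l2_25 z2_25 w2_25 x2_25 (by decide) _ (chkS_sound E lk2 1 3 _ _ _ _ t2_14_25)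

def r2_14_26 : List (ℕ × ℤ) := [(126, -6), (319, 6)]

theorem h2_14_26 (E : Env κ ι) : ip (F2_14 E) (F2_26 E) = dotS (ek E lk2) r2_14_26 :=
  op_entryZ E lk2 1 3 _ _ _ _ (pg0 κ) (pg2 ι) m2_14 m2_26 l2_26 z2_26 w2_26 x2_26 (by decide) _ (chkS_sound E lk2 1 3 _ _ _ _ t2_14_26)

def r2_14_27 : List (ℕ × ℤ) := [(127, -6), (320, 6)]

theorem h2_14_27 (E : Env κ ι) : ip (F2_14 E) (F2_27 E) = dotS (ek E lk2) r2_14_27 :=
  op_entryZ E lk2 1 3 _ _ _ _ (pg0 κ) (pg2 ι) m2_14 m2_27 l2_27 z2_27 w2_27 x2_27 (by decide) _ (chkS_sound E lk2 1 3 _ _ _ _ t2_14_27)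

def r2_14_28 : List (ℕ × ℤ) := [(301, 6), (322, -6)]

theorem h2_14_28 (E : Env κ ι) : ip (F2_14 E) (F2_28 E) = dotS (ek E lk2) r2_14_28 :=
  op_entryZ E lk2 1 3 _ _ _ _ (pg0 κ) (pg2 ι) m2_14 m2_28 l2_28 z2_28 w2_28 x2_28 (by decide) _ (chkS_sound E lk2 1 3 _ _ _ _ t2_14_28)

def r2_15_15 : List (ℕ × ℤ) := [(129, -6), (324, 6)]

theorem h2_15_15 (E : Env κ ι) : ip (F2_15 E) (F2_15 E) = dotS (ek E lk2) r2_15_15 :=
  op_entryZ E lk2 1 3 _ _ _ _ (pg0 κ) (pg2 ι) m2_15 m2_15 l2_15 z2_15 w2_15 x2_15 (by decide) _ (chkS_sound E lk2 1 3 _ _ _ _ t2_15_15)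

def r2_15_16 : List (ℕ × ℤ) := [(129, -6), (309, 6)]

theorem h2_15_16 (E : Env κ ι) : ip (F2_15 E) (F2_16 E) = dotS (ek E lk2) r2_15_16 :=
  op_entryZ E lk2 1 3 _ _ _ _ (pg0 κ) (pg2 ι) m2_15 m2_16 l2_16 z2_16 w2_16 x2_16 (by decide) _ (chkS_sound E lk2 1 3 _ _ _ _ t2_15_16)

def r2_15_17 : List (ℕ × ℤ) := [(121, -6), (325, 6)]

theorem h2_15_17 (E : Env κ ι) : ip (F2_15 E) (F2_17 E) = dotS (ek E lk2) r2_15_17 :=
  op_entryZ E lk2 1 3 _ _ _ _ (pg0 κ) (pg2 ι) m2_15 m2_17 l2_17 z2_17 w2_17 x2_17 (by decide) _ (chkS_sound E lk2 1 3 _ _ _ _ t2_15_17)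

def r2_15_18 : List (ℕ × ℤ) := [(133, -6), (309, 6)]

theorem h2_15_18 (E : Env κ ι) : ip (F2_15 E) (F2_18 E) = dotS (ek E lk2) r2_15_18 :=
  op_entryZ E lk2 1 3 _ _ _ _ (pg0 κ) (pg2 ι) m2_15 m2_18 l2_18 z2_18 w2_18 x2_18 (by decide) _ (chkS_sound E lk2 1 3 _ _ _ _ t2_15_18)

def r2_15_19 : List (ℕ × ℤ) := [(114, -6), (309, 6)]

theorem h2_15_19 (E : Env κ ι) : ip (F2_15 E) (F2_19 E) = dotS (ek E lk2) r2_15_19 :=
  op_entryZ E lk2 1 3 _ _ _ _ (pg0 κ) (pg2 ι) m2_15 m2_19 l2_19 z2_19 w2_19 x2_19 (by decide) _ (chkS_sound E lk2 1 3 _ _ _ _ t2_15_19)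

def r2_15_20 : List (ℕ × ℤ) := [(117, -6), (148, 6)]

theorem h2_15_20 (E : Env κ ι) : ip (F2_15 E) (F2_20 E) = dotS (ek E lk2) r2_15_20 :=
  op_entryZ E lk2 1 3 _ _ _ _ (pg0 κ) (pg2 ι) m2_15 m2_20 l2_20 z2_20 w2_20 x2_20 (by decide) _ (chkS_sound E lk2 1 3 _ _ _ _ t2_15_20)

def r2_15_21 : List (ℕ × ℤ) := [(46, 6), (126, -6)]

theorem h2_15_21 (E : Env κ ι) : ip (F2_15 E) (F2_21 E) = dotS (ek E lk2) r2_15_21 :=
  op_entryZ E lk2 1 3 _ _ _ _ (pg0 κ) (pg2 ι) m2_15 m2_21 l2_21 z2_21 w2_21 x2_21 (by decide) _ (chkS_sound E lk2 1 3 _ _ _ _ t2_15_21)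

def r2_15_22 : List (ℕ × ℤ) := [(134, -6), (148, 6)]

theorem h2_15_22 (E : Env κ ι) : ip (F2_15 E) (F2_22 E) = dotS (ek E lk2) r2_15_22 :=
  op_entryZ E lk2 1 3 _ _ _ _ (pg0 κ) (pg2 ι) m2_15 m2_22 l2_22 z2_22 w2_22 x2_22 (by decide) _ (chkS_sound E lk2 1 3 _ _ _ _ t2_15_22)

def r2_15_23 : List (ℕ × ℤ) := [(326, 6), (327, -6)]

theorem h2_15_23 (E : Env κ ι) : ip (F2_15 E) (F2_23 E) = dotS (ek E lk2) r2_15_23 :=
  op_entryZ E lk2 1 3 _ _ _ _ (pg0 κ) (pg2 ι) m2_15 m2_23 l2_23 z2_23 w2_23 x2_23 (by decide) _ (chkS_sound E lk2 1 3 _ _ _ _ t2_15_23)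

def r2_15_24 : List (ℕ × ℤ) := [(15, -6), (324, 6)]

theorem h2_15_24 (E : Env κ ι) : ip (F2_15 E) (F2_24 E) = dotS (ek E lk2) r2_15_24 :=
  op_entryZ E lk2 1 3 _ _ _ _ (pg0 κ) (pg2 ι) m2_15 m2_24 l2_24 z2_24 w2_24 x2_24 (by decide) _ (chkS_sound E lk2 1 3 _ _ _ _ t2_15_24)

def r2_15_25 : List (ℕ × ℤ) := [(130, -6), (309, 6)]

theorem h2_15_25 (E : Env κ ι) : ip (F2_15 E) (F2_25 E) = dotS (ek E lk2) r2_15_25 :=
  op_entryZ E lk2 1 3 _ _ _ _ (pg0 κ) (pg2 ι) m2_15 m2_25 l2_25 z2_25 w2_25 x2_25 (by decide) _ (chkS_sound E lk2 1 3 _ _ _ _ t2_15_25)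

def r2_15_26 : List (ℕ × ℤ) := [(131, -6), (148, 6)]

theorem h2_15_26 (E : Env κ ι) : ip (F2_15 E) (F2_26 E) = dotS (ek E lk2) r2_15_26 :=
  op_entryZ E lk2 1 3 _ _ _ _ (pg0 κ) (pg2 ι) m2_15 m2_26 l2_26 z2_26 w2_26 x2_26 (by decide) _ (chkS_sound E lk2 1 3 _ _ _ _ t2_15_26)

def r2_15_27 : List (ℕ × ℤ) := [(21, -6), (149, 6)]

theorem h2_15_27 (E : Env κ ι) : ip (F2_15 E) (F2_27 E) = dotS (ek E lk2) r2_15_27 :=
  op_entryZ E lk2 1 3 _ _ _ _ (pg0 κ) (pg2 ι) m2_15 m2_27 l2_27 z2_27 w2_27 x2_27 (by decide) _ (chkS_sound E lk2 1 3 _ _ _ _ t2_15_27)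

def r2_15_28 : List (ℕ × ℤ) := [(136, 6), (328, -6)]

theorem h2_15_28 (E : Env κ ι) : ip (F2_15 E) (F2_28 E) = dotS (ek E lk2) r2_15_28 :=
  op_entryZ E lk2 1 3 _ _ _ _ (pg0 κ) (pg2 ι) m2_15 m2_28 l2_28 z2_28 w2_28 x2_28 (by decide) _ (chkS_sound E lk2 1 3 _ _ _ _ t2_15_28)

def r2_16_16 : List (ℕ × ℤ) := [(120, 2), (125, -4), (147, 2), (287, -4), (308, 4)]

theorem h2_16_16 (E : Env κ ι) : ip (F2_16 E) (F2_16 E) = dotS (ek E lk2) r2_16_16 :=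
  op_entryZ E lk2 1 3 _ _ _ _ (pg0 κ) (pg2 ι) m2_16 m2_16 l2_16 z2_16 w2_16 x2_16 (by decide) _ (chkS_sound E lk2 1 3 _ _ _ _ t2_16_16)

def r2_16_17 : List (ℕ × ℤ) := [(125, -6), (310, 6)]

theorem h2_16_17 (E : Env κ ι) : ip (F2_16 E) (F2_17 E) = dotS (ek E lk2) r2_16_17 :=
  op_entryZ E lk2 1 3 _ _ _ _ (pg0 κ) (pg2 ι) m2_16 m2_17 l2_17 z2_17 w2_17 x2_17 (by decide) _ (chkS_sound E lk2 1 3 _ _ _ _ t2_16_17)

def r2_16_18 : List (ℕ × ℤ) := [(121, 2), (129, -2), (290, -2), (292, -4), (309, 2), (311, 4)]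

theorem h2_16_18 (E : Env κ ι) : ip (F2_16 E) (F2_18 E) = dotS (ek E lk2) r2_16_18 :=
  op_entryZ E lk2 1 3 _ _ _ _ (pg0 κ) (pg2 ι) m2_16 m2_18 l2_18 z2_18 w2_18 x2_18 (by decide) _ (chkS_sound E lk2 1 3 _ _ _ _ t2_16_18)

def r2_16_19 : List (ℕ × ℤ) := [(121, -2), (129, -4), (290, 2), (292, -2), (309, 4), (311, 2)]

theorem h2_16_19 (E : Env κ ι) : ip (F2_16 E) (F2_19 E) = dotS (ek E lk2) r2_16_19 :=
  op_entryZ E lk2 1 3 _ _ _ _ (pg0 κ) (pg2 ι) m2_16 m2_19 l2_19 z2_19 w2_19 x2_19 (by decide) _ (chkS_sound E lk2 1 3 _ _ _ _ t2_16_19)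

def r2_16_20 : List (ℕ × ℤ) := [(123, -2), (126, -4), (141, 2), (148, 4), (293, -2), (312, 2)]

theorem h2_16_20 (E : Env κ ι) : ip (F2_16 E) (F2_20 E) = dotS (ek E lk2) r2_16_20 :=
  op_entryZ E lk2 1 3 _ _ _ _ (pg0 κ) (pg2 ι) m2_16 m2_20 l2_20 z2_20 w2_20 x2_20 (by decide) _ (chkS_sound E lk2 1 3 _ _ _ _ t2_16_20)

def r2_16_21 : List (ℕ × ℤ) := [(126, -6), (313, 6)]

theorem h2_16_21 (E : Env κ ι) : ip (F2_16 E) (F2_21 E) = dotS (ek E lk2) r2_16_21 :=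
  op_entryZ E lk2 1 3 _ _ _ _ (pg0 κ) (pg2 ι) m2_16 m2_21 l2_21 z2_21 w2_21 x2_21 (by decide) _ (chkS_sound E lk2 1 3 _ _ _ _ t2_16_21)

def r2_16_22 : List (ℕ × ℤ) := [(123, 2), (126, -2), (141, -2), (148, 2), (293, -4), (312, 4)]

theorem h2_16_22 (E : Env κ ι) : ip (F2_16 E) (F2_22 E) = dotS (ek E lk2) r2_16_22 :=
  op_entryZ E lk2 1 3 _ _ _ _ (pg0 κ) (pg2 ι) m2_16 m2_22 l2_22 z2_22 w2_22 x2_22 (by decide) _ (chkS_sound E lk2 1 3 _ _ _ _ t2_16_22)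

def r2_16_23 : List (ℕ × ℤ) := [(314, 6), (315, -6)]

theorem h2_16_23 (E : Env κ ι) : ip (F2_16 E) (F2_23 E) = dotS (ek E lk2) r2_16_23 :=
  op_entryZ E lk2 1 3 _ _ _ _ (pg0 κ) (pg2 ι) m2_16 m2_23 l2_23 z2_23 w2_23 x2_23 (by decide) _ (chkS_sound E lk2 1 3 _ _ _ _ t2_16_23)

def r2_16_24 : List (ℕ × ℤ) := [(124, -6), (146, 6)]

theorem h2_16_24 (E : Env κ ι) : ip (F2_16 E) (F2_24 E) = dotS (ek E lk2) r2_16_24 :=
  op_entryZ E lk2 1 3 _ _ _ _ (pg0 κ) (pg2 ι) m2_16 m2_24 l2_24 z2_24 w2_24 x2_24 (by decide) _ (chkS_sound E lk2 1 3 _ _ _ _ t2_16_24)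

def r2_16_25 : List (ℕ × ℤ) := [(125, -6), (310, 6)]

theorem h2_16_25 (E : Env κ ι) : ip (F2_16 E) (F2_25 E) = dotS (ek E lk2) r2_16_25 :=
  op_entryZ E lk2 1 3 _ _ _ _ (pg0 κ) (pg2 ι) m2_16 m2_25 l2_25 z2_25 w2_25 x2_25 (by decide) _ (chkS_sound E lk2 1 3 _ _ _ _ t2_16_25)

def r2_16_26 : List (ℕ × ℤ) := [(126, -6), (313, 6)]

theorem h2_16_26 (E : Env κ ι) : ip (F2_16 E) (F2_26 E) = dotS (ek E lk2) r2_16_26 :=
  op_entryZ E lk2 1 3 _ _ _ _ (pg0 κ) (pg2 ι) m2_16 m2_26 l2_26 z2_26 w2_26 x2_26 (by decide) _ (chkS_sound E lk2 1 3 _ _ _ _ t2_16_26)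

def r2_16_27 : List (ℕ × ℤ) := [(62, 6), (127, -6)]

theorem h2_16_27 (E : Env κ ι) : ip (F2_16 E) (F2_27 E) = dotS (ek E lk2) r2_16_27 :=
  op_entryZ E lk2 1 3 _ _ _ _ (pg0 κ) (pg2 ι) m2_16 m2_27 l2_27 z2_27 w2_27 x2_27 (by decide) _ (chkS_sound E lk2 1 3 _ _ _ _ t2_16_27)

def r2_16_28 : List (ℕ × ℤ) := [(301, 6), (321, -6)]

theorem h2_16_28 (E : Env κ ι) : ip (F2_16 E) (F2_28 E) = dotS (ek E lk2) r2_16_28 :=
  op_entryZ E lk2 1 3 _ _ _ _ (pg0 κ) (pg2 ι) m2_16 m2_28 l2_28 z2_28 w2_28 x2_28 (by decide) _ (chkS_sound E lk2 1 3 _ _ _ _ t2_16_28)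

def r2_17_17 : List (ℕ × ℤ) := [(120, -6), (329, 6)]

theorem h2_17_17 (E : Env κ ι) : ip (F2_17 E) (F2_17 E) = dotS (ek E lk2) r2_17_17 :=
  op_entryZ E lk2 1 3 _ _ _ _ (pg0 κ) (pg2 ι) m2_17 m2_17 l2_17 z2_17 w2_17 x2_17 (by decide) _ (chkS_sound E lk2 1 3 _ _ _ _ t2_17_17)

def r2_17_18 : List (ℕ × ℤ) := [(290, -6), (310, 6)]

theorem h2_17_18 (E : Env κ ι) : ip (F2_17 E) (F2_18 E) = dotS (ek E lk2) r2_17_18 :=
  op_entryZ E lk2 1 3 _ _ _ _ (pg0 κ) (pg2 ι) m2_17 m2_18 l2_18 z2_18 w2_18 x2_18 (by decide) _ (chkS_sound E lk2 1 3 _ _ _ _ t2_17_18)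

def r2_17_19 : List (ℕ × ℤ) := [(288, -6), (310, 6)]

theorem h2_17_19 (E : Env κ ι) : ip (F2_17 E) (F2_19 E) = dotS (ek E lk2) r2_17_19 :=
  op_entryZ E lk2 1 3 _ _ _ _ (pg0 κ) (pg2 ι) m2_17 m2_19 l2_19 z2_19 w2_19 x2_19 (by decide) _ (chkS_sound E lk2 1 3 _ _ _ _ t2_17_19)

def r2_17_20 : List (ℕ × ℤ) := [(294, -6), (313, 6)]

theorem h2_17_20 (E : Env κ ι) : ip (F2_17 E) (F2_20 E) = dotS (ek E lk2) r2_17_20 :=
  op_entryZ E lk2 1 3 _ _ _ _ (pg0 κ) (pg2 ι) m2_17 m2_20 l2_20 z2_20 w2_20 x2_20 (by decide) _ (chkS_sound E lk2 1 3 _ _ _ _ t2_17_20)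

def r2_17_21 : List (ℕ × ℤ) := [(123, -6), (330, 6)]

theorem h2_17_21 (E : Env κ ι) : ip (F2_17 E) (F2_21 E) = dotS (ek E lk2) r2_17_21 :=
  op_entryZ E lk2 1 3 _ _ _ _ (pg0 κ) (pg2 ι) m2_17 m2_21 l2_21 z2_21 w2_21 x2_21 (by decide) _ (chkS_sound E lk2 1 3 _ _ _ _ t2_17_21)

def r2_17_22 : List (ℕ × ℤ) := [(141, -6), (313, 6)]

theorem h2_17_22 (E : Env κ ι) : ip (F2_17 E) (F2_22 E) = dotS (ek E lk2) r2_17_22 :=
  op_entryZ E lk2 1 3 _ _ _ _ (pg0 κ) (pg2 ι) m2_17 m2_22 l2_22 z2_22 w2_22 x2_22 (by decide) _ (chkS_sound E lk2 1 3 _ _ _ _ t2_17_22)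

def r2_17_23 : List (ℕ × ℤ) := [(316, -6), (331, 6)]

theorem h2_17_23 (E : Env κ ι) : ip (F2_17 E) (F2_23 E) = dotS (ek E lk2) r2_17_23 :=
  op_entryZ E lk2 1 3 _ _ _ _ (pg0 κ) (pg2 ι) m2_17 m2_23 l2_23 z2_23 w2_23 x2_23 (by decide) _ (chkS_sound E lk2 1 3 _ _ _ _ t2_17_23)

def r2_17_24 : List (ℕ × ℤ) := [(118, -6), (146, 6)]

theorem h2_17_24 (E : Env κ ι) : ip (F2_17 E) (F2_24 E) = dotS (ek E lk2) r2_17_24 :=
  op_entryZ E lk2 1 3 _ _ _ _ (pg0 κ) (pg2 ι) m2_17 m2_24 l2_24 z2_24 w2_24 x2_24 (by decide) _ (chkS_sound E lk2 1 3 _ _ _ _ t2_17_24)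

def r2_17_25 : List (ℕ × ℤ) := [(113, -6), (310, 6)]

theorem h2_17_25 (E : Env κ ι) : ip (F2_17 E) (F2_25 E) = dotS (ek E lk2) r2_17_25 :=
  op_entryZ E lk2 1 3 _ _ _ _ (pg0 κ) (pg2 ι) m2_17 m2_25 l2_25 z2_25 w2_25 x2_25 (by decide) _ (chkS_sound E lk2 1 3 _ _ _ _ t2_17_25)

def r2_17_26 : List (ℕ × ℤ) := [(117, -6), (313, 6)]

theorem h2_17_26 (E : Env κ ι) : ip (F2_17 E) (F2_26 E) = dotS (ek E lk2) r2_17_26 :=
  op_entryZ E lk2 1 3 _ _ _ _ (pg0 κ) (pg2 ι) m2_17 m2_26 l2_26 z2_26 w2_26 x2_26 (by decide) _ (chkS_sound E lk2 1 3 _ _ _ _ t2_17_26)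

def r2_17_27 : List (ℕ × ℤ) := [(62, 6), (119, -6)]

theorem h2_17_27 (E : Env κ ι) : ip (F2_17 E) (F2_27 E) = dotS (ek E lk2) r2_17_27 :=
  op_entryZ E lk2 1 3 _ _ _ _ (pg0 κ) (pg2 ι) m2_17 m2_27 l2_27 z2_27 w2_27 x2_27 (by decide) _ (chkS_sound E lk2 1 3 _ _ _ _ t2_17_27)

def r2_17_28 : List (ℕ × ℤ) := [(307, 6), (332, -6)]

theorem h2_17_28 (E : Env κ ι) : ip (F2_17 E) (F2_28 E) = dotS (ek E lk2) r2_17_28 :=
  op_entryZ E lk2 1 3 _ _ _ _ (pg0 κ) (pg2 ι) m2_17 m2_28 l2_28 z2_28 w2_28 x2_28 (by decide) _ (chkS_sound E lk2 1 3 _ _ _ _ t2_17_28)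

def r2_18_18 : List (ℕ × ℤ) := [(129, 2), (133, -4), (147, 2), (298, -4), (318, 4)]

theorem h2_18_18 (E : Env κ ι) : ip (F2_18 E) (F2_18 E) = dotS (ek E lk2) r2_18_18 :=
  op_entryZ E lk2 1 3 _ _ _ _ (pg0 κ) (pg2 ι) m2_18 m2_18 l2_18 z2_18 w2_18 x2_18 (by decide) _ (chkS_sound E lk2 1 3 _ _ _ _ t2_18_18)

def r2_18_19 : List (ℕ × ℤ) := [(129, -2), (133, -2), (147, 4), (298, -2), (318, 2)]

theorem h2_18_19 (E : Env κ ι) : ip (F2_18 E) (F2_19 E) = dotS (ek E lk2) r2_18_19 :=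
  op_entryZ E lk2 1 3 _ _ _ _ (pg0 κ) (pg2 ι) m2_18 m2_19 l2_19 z2_19 w2_19 x2_19 (by decide) _ (chkS_sound E lk2 1 3 _ _ _ _ t2_18_19)

def r2_18_20 : List (ℕ × ℤ) := [(126, -2), (134, 2), (141, -4), (148, 4), (299, -2), (319, 2)]

theorem h2_18_20 (E : Env κ ι) : ip (F2_18 E) (F2_20 E) = dotS (ek E lk2) r2_18_20 :=
  op_entryZ E lk2 1 3 _ _ _ _ (pg0 κ) (pg2 ι) m2_18 m2_20 l2_20 z2_20 w2_20 x2_20 (by decide) _ (chkS_sound E lk2 1 3 _ _ _ _ t2_18_20)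

def r2_18_21 : List (ℕ × ℤ) := [(141, -6), (313, 6)]

theorem h2_18_21 (E : Env κ ι) : ip (F2_18 E) (F2_21 E) = dotS (ek E lk2) r2_18_21 :=
  op_entryZ E lk2 1 3 _ _ _ _ (pg0 κ) (pg2 ι) m2_18 m2_21 l2_21 z2_21 w2_21 x2_21 (by decide) _ (chkS_sound E lk2 1 3 _ _ _ _ t2_18_21)

def r2_18_22 : List (ℕ × ℤ) := [(126, 2), (134, -2), (141, -2), (148, 2), (299, -4), (319, 4)]

theorem h2_18_22 (E : Env κ ι) : ip (F2_18 E) (F2_22 E) = dotS (ek E lk2) r2_18_22 :=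
  op_entryZ E lk2 1 3 _ _ _ _ (pg0 κ) (pg2 ι) m2_18 m2_22 l2_22 z2_22 w2_22 x2_22 (by decide) _ (chkS_sound E lk2 1 3 _ _ _ _ t2_18_22)

def r2_18_23 : List (ℕ × ℤ) := [(334, 6), (335, -6)]

theorem h2_18_23 (E : Env κ ι) : ip (F2_18 E) (F2_23 E) = dotS (ek E lk2) r2_18_23 :=
  op_entryZ E lk2 1 3 _ _ _ _ (pg0 κ) (pg2 ι) m2_18 m2_23 l2_23 z2_23 w2_23 x2_23 (by decide) _ (chkS_sound E lk2 1 3 _ _ _ _ t2_18_23)

def r2_18_24 : List (ℕ × ℤ) := [(132, -6), (324, 6)]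

theorem h2_18_24 (E : Env κ ι) : ip (F2_18 E) (F2_24 E) = dotS (ek E lk2) r2_18_24 :=
  op_entryZ E lk2 1 3 _ _ _ _ (pg0 κ) (pg2 ι) m2_18 m2_24 l2_24 z2_24 w2_24 x2_24 (by decide) _ (chkS_sound E lk2 1 3 _ _ _ _ t2_18_24)

def r2_18_25 : List (ℕ × ℤ) := [(133, -6), (309, 6)]

theorem h2_18_25 (E : Env κ ι) : ip (F2_18 E) (F2_25 E) = dotS (ek E lk2) r2_18_25 :=
  op_entryZ E lk2 1 3 _ _ _ _ (pg0 κ) (pg2 ι) m2_18 m2_25 l2_25 z2_25 w2_25 x2_25 (by decide) _ (chkS_sound E lk2 1 3 _ _ _ _ t2_18_25)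

def r2_18_26 : List (ℕ × ℤ) := [(134, -6), (148, 6)]

theorem h2_18_26 (E : Env κ ι) : ip (F2_18 E) (F2_26 E) = dotS (ek E lk2) r2_18_26 :=
  op_entryZ E lk2 1 3 _ _ _ _ (pg0 κ) (pg2 ι) m2_18 m2_26 l2_26 z2_26 w2_26 x2_26 (by decide) _ (chkS_sound E lk2 1 3 _ _ _ _ t2_18_26)

def r2_18_27 : List (ℕ × ℤ) := [(135, -6), (149, 6)]

theorem h2_18_27 (E : Env κ ι) : ip (F2_18 E) (F2_27 E) = dotS (ek E lk2) r2_18_27 :=
  op_entryZ E lk2 1 3 _ _ _ _ (pg0 κ) (pg2 ι) m2_18 m2_27 l2_27 z2_27 w2_27 x2_27 (by decide) _ (chkS_sound E lk2 1 3 _ _ _ _ t2_18_27)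

def r2_18_28 : List (ℕ × ℤ) := [(302, 6), (322, -6)]

theorem h2_18_28 (E : Env κ ι) : ip (F2_18 E) (F2_28 E) = dotS (ek E lk2) r2_18_28 :=
  op_entryZ E lk2 1 3 _ _ _ _ (pg0 κ) (pg2 ι) m2_18 m2_28 l2_28 z2_28 w2_28 x2_28 (by decide) _ (chkS_sound E lk2 1 3 _ _ _ _ t2_18_28)

def r2_19_19 : List (ℕ × ℤ) := [(129, -4), (133, -4), (147, 2), (298, 2), (318, 4)]

theorem h2_19_19 (E : Env κ ι) : ip (F2_19 E) (F2_19 E) = dotS (ek E lk2) r2_19_19 :=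
  op_entryZ E lk2 1 3 _ _ _ _ (pg0 κ) (pg2 ι) m2_19 m2_19 l2_19 z2_19 w2_19 x2_19 (by decide) _ (chkS_sound E lk2 1 3 _ _ _ _ t2_19_19)

def r2_19_20 : List (ℕ × ℤ) := [(126, -4), (134, -2), (141, -2), (148, 2), (299, 2), (319, 4)]

theorem h2_19_20 (E : Env κ ι) : ip (F2_19 E) (F2_20 E) = dotS (ek E lk2) r2_19_20 :=
  op_entryZ E lk2 1 3 _ _ _ _ (pg0 κ) (pg2 ι) m2_19 m2_20 l2_20 z2_20 w2_20 x2_20 (by decide) _ (chkS_sound E lk2 1 3 _ _ _ _ t2_19_20)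

def r2_19_21 : List (ℕ × ℤ) := [(117, -6), (313, 6)]

theorem h2_19_21 (E : Env κ ι) : ip (F2_19 E) (F2_21 E) = dotS (ek E lk2) r2_19_21 :=
  op_entryZ E lk2 1 3 _ _ _ _ (pg0 κ) (pg2 ι) m2_19 m2_21 l2_21 z2_21 w2_21 x2_21 (by decide) _ (chkS_sound E lk2 1 3 _ _ _ _ t2_19_21)

def r2_19_22 : List (ℕ × ℤ) := [(126, -2), (134, -4), (141, 2), (148, 4), (299, -2), (319, 2)]

theorem h2_19_22 (E : Env κ ι) : ip (F2_19 E) (F2_22 E) = dotS (ek E lk2) r2_19_22 :=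
  op_entryZ E lk2 1 3 _ _ _ _ (pg0 κ) (pg2 ι) m2_19 m2_22 l2_22 z2_22 w2_22 x2_22 (by decide) _ (chkS_sound E lk2 1 3 _ _ _ _ t2_19_22)

def r2_19_23 : List (ℕ × ℤ) := [(327, -6), (334, 6)]

theorem h2_19_23 (E : Env κ ι) : ip (F2_19 E) (F2_23 E) = dotS (ek E lk2) r2_19_23 :=
  op_entryZ E lk2 1 3 _ _ _ _ (pg0 κ) (pg2 ι) m2_19 m2_23 l2_23 z2_23 w2_23 x2_23 (by decide) _ (chkS_sound E lk2 1 3 _ _ _ _ t2_19_23)

def r2_19_24 : List (ℕ × ℤ) := [(132, -6), (336, 6)]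

theorem h2_19_24 (E : Env κ ι) : ip (F2_19 E) (F2_24 E) = dotS (ek E lk2) r2_19_24 :=
  op_entryZ E lk2 1 3 _ _ _ _ (pg0 κ) (pg2 ι) m2_19 m2_24 l2_24 z2_24 w2_24 x2_24 (by decide) _ (chkS_sound E lk2 1 3 _ _ _ _ t2_19_24)

def r2_19_25 : List (ℕ × ℤ) := [(133, -6), (337, 6)]

theorem h2_19_25 (E : Env κ ι) : ip (F2_19 E) (F2_25 E) = dotS (ek E lk2) r2_19_25 :=
  op_entryZ E lk2 1 3 _ _ _ _ (pg0 κ) (pg2 ι) m2_19 m2_25 l2_25 z2_25 w2_25 x2_25 (by decide) _ (chkS_sound E lk2 1 3 _ _ _ _ t2_19_25)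

def r2_19_26 : List (ℕ × ℤ) := [(134, -6), (338, 6)]

theorem h2_19_26 (E : Env κ ι) : ip (F2_19 E) (F2_26 E) = dotS (ek E lk2) r2_19_26 :=
  op_entryZ E lk2 1 3 _ _ _ _ (pg0 κ) (pg2 ι) m2_19 m2_26 l2_26 z2_26 w2_26 x2_26 (by decide) _ (chkS_sound E lk2 1 3 _ _ _ _ t2_19_26)

def r2_19_27 : List (ℕ × ℤ) := [(135, -6), (339, 6)]

theorem h2_19_27 (E : Env κ ι) : ip (F2_19 E) (F2_27 E) = dotS (ek E lk2) r2_19_27 :=
  op_entryZ E lk2 1 3 _ _ _ _ (pg0 κ) (pg2 ι) m2_19 m2_27 l2_27 z2_27 w2_27 x2_27 (by decide) _ (chkS_sound E lk2 1 3 _ _ _ _ t2_19_27)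

def r2_19_28 : List (ℕ × ℤ) := [(302, 6), (340, -6)]

theorem h2_19_28 (E : Env κ ι) : ip (F2_19 E) (F2_28 E) = dotS (ek E lk2) r2_19_28 :=
  op_entryZ E lk2 1 3 _ _ _ _ (pg0 κ) (pg2 ι) m2_19 m2_28 l2_28 z2_28 w2_28 x2_28 (by decide) _ (chkS_sound E lk2 1 3 _ _ _ _ t2_19_28)

def r2_20_20 : List (ℕ × ℤ) := [(127, -4), (135, -4), (149, 2), (300, 2), (320, 4)]

theorem h2_20_20 (E : Env κ ι) : ip (F2_20 E) (F2_20 E) = dotS (ek E lk2) r2_20_20 :=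
  op_entryZ E lk2 1 3 _ _ _ _ (pg0 κ) (pg2 ι) m2_20 m2_20 l2_20 z2_20 w2_20 x2_20 (by decide) _ (chkS_sound E lk2 1 3 _ _ _ _ t2_20_20)

def r2_20_21 : List (ℕ × ℤ) := [(62, 6), (119, -6)]

theorem h2_20_21 (E : Env κ ι) : ip (F2_20 E) (F2_21 E) = dotS (ek E lk2) r2_20_21 :=
  op_entryZ E lk2 1 3 _ _ _ _ (pg0 κ) (pg2 ι) m2_20 m2_21 l2_21 z2_21 w2_21 x2_21 (by decide) _ (chkS_sound E lk2 1 3 _ _ _ _ t2_20_21)

def r2_20_22 : List (ℕ × ℤ) := [(127, -2), (135, -2), (149, 4), (300, -2), (320, 2)]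

theorem h2_20_22 (E : Env κ ι) : ip (F2_20 E) (F2_22 E) = dotS (ek E lk2) r2_20_22 :=
  op_entryZ E lk2 1 3 _ _ _ _ (pg0 κ) (pg2 ι) m2_20 m2_22 l2_22 z2_22 w2_22 x2_22 (by decide) _ (chkS_sound E lk2 1 3 _ _ _ _ t2_20_22)

def r2_20_23 : List (ℕ × ℤ) := [(342, 6), (344, -6)]

theorem h2_20_23 (E : Env κ ι) : ip (F2_20 E) (F2_23 E) = dotS (ek E lk2) r2_20_23 :=
  op_entryZ E lk2 1 3 _ _ _ _ (pg0 κ) (pg2 ι) m2_20 m2_23 l2_23 z2_23 w2_23 x2_23 (by decide) _ (chkS_sound E lk2 1 3 _ _ _ _ t2_20_23)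

def r2_20_24 : List (ℕ × ℤ) := [(49, -6), (345, 6)]

theorem h2_20_24 (E : Env κ ι) : ip (F2_20 E) (F2_24 E) = dotS (ek E lk2) r2_20_24 :=
  op_entryZ E lk2 1 3 _ _ _ _ (pg0 κ) (pg2 ι) m2_20 m2_24 l2_24 z2_24 w2_24 x2_24 (by decide) _ (chkS_sound E lk2 1 3 _ _ _ _ t2_20_24)

def r2_20_25 : List (ℕ × ℤ) := [(141, -6), (338, 6)]

theorem h2_20_25 (E : Env κ ι) : ip (F2_20 E) (F2_25 E) = dotS (ek E lk2) r2_20_25 :=
  op_entryZ E lk2 1 3 _ _ _ _ (pg0 κ) (pg2 ι) m2_20 m2_25 l2_25 z2_25 w2_25 x2_25 (by decide) _ (chkS_sound E lk2 1 3 _ _ _ _ t2_20_25)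

def r2_20_26 : List (ℕ × ℤ) := [(135, -6), (339, 6)]

theorem h2_20_26 (E : Env κ ι) : ip (F2_20 E) (F2_26 E) = dotS (ek E lk2) r2_20_26 :=
  op_entryZ E lk2 1 3 _ _ _ _ (pg0 κ) (pg2 ι) m2_20 m2_26 l2_26 z2_26 w2_26 x2_26 (by decide) _ (chkS_sound E lk2 1 3 _ _ _ _ t2_20_26)

def r2_20_27 : List (ℕ × ℤ) := [(52, -6), (346, 6)]

theorem h2_20_27 (E : Env κ ι) : ip (F2_20 E) (F2_27 E) = dotS (ek E lk2) r2_20_27 :=
  op_entryZ E lk2 1 3 _ _ _ _ (pg0 κ) (pg2 ι) m2_20 m2_27 l2_27 z2_27 w2_27 x2_27 (by decide) _ (chkS_sound E lk2 1 3 _ _ _ _ t2_20_27)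

def r2_20_28 : List (ℕ × ℤ) := [(303, 6), (341, -6)]

theorem h2_20_28 (E : Env κ ι) : ip (F2_20 E) (F2_28 E) = dotS (ek E lk2) r2_20_28 :=
  op_entryZ E lk2 1 3 _ _ _ _ (pg0 κ) (pg2 ι) m2_20 m2_28 l2_28 z2_28 w2_28 x2_28 (by decide) _ (chkS_sound E lk2 1 3 _ _ _ _ t2_20_28)

def r2_21_21 : List (ℕ × ℤ) := [(3, 6), (127, -6)]

theorem h2_21_21 (E : Env κ ι) : ip (F2_21 E) (F2_21 E) = dotS (ek E lk2) r2_21_21 :=
  op_entryZ E lk2 1 3 _ _ _ _ (pg0 κ) (pg2 ι) m2_21 m2_21 l2_21 z2_21 w2_21 x2_21 (by decide) _ (chkS_sound E lk2 1 3 _ _ _ _ t2_21_21)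

def r2_21_22 : List (ℕ × ℤ) := [(62, 6), (135, -6)]

theorem h2_21_22 (E : Env κ ι) : ip (F2_21 E) (F2_22 E) = dotS (ek E lk2) r2_21_22 :=
  op_entryZ E lk2 1 3 _ _ _ _ (pg0 κ) (pg2 ι) m2_21 m2_22 l2_22 z2_22 w2_22 x2_22 (by decide) _ (chkS_sound E lk2 1 3 _ _ _ _ t2_21_22)

def r2_21_23 : List (ℕ × ℤ) := [(40, 6), (344, -6)]

theorem h2_21_23 (E : Env κ ι) : ip (F2_21 E) (F2_23 E) = dotS (ek E lk2) r2_21_23 :=
  op_entryZ E lk2 1 3 _ _ _ _ (pg0 κ) (pg2 ι) m2_21 m2_23 l2_23 z2_23 w2_23 x2_23 (by decide) _ (chkS_sound E lk2 1 3 _ _ _ _ t2_21_23)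

def r2_21_24 : List (ℕ × ℤ) := [(45, -6), (46, 6)]

theorem h2_21_24 (E : Env κ ι) : ip (F2_21 E) (F2_24 E) = dotS (ek E lk2) r2_21_24 :=
  op_entryZ E lk2 1 3 _ _ _ _ (pg0 κ) (pg2 ι) m2_21 m2_24 l2_24 z2_24 w2_24 x2_24 (by decide) _ (chkS_sound E lk2 1 3 _ _ _ _ t2_21_24)

def r2_21_25 : List (ℕ × ℤ) := [(43, -6), (313, 6)]

theorem h2_21_25 (E : Env κ ι) : ip (F2_21 E) (F2_25 E) = dotS (ek E lk2) r2_21_25 :=
  op_entryZ E lk2 1 3 _ _ _ _ (pg0 κ) (pg2 ι) m2_21 m2_25 l2_25 z2_25 w2_25 x2_25 (by decide) _ (chkS_sound E lk2 1 3 _ _ _ _ t2_21_25)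

def r2_21_26 : List (ℕ × ℤ) := [(21, -6), (62, 6)]

theorem h2_21_26 (E : Env κ ι) : ip (F2_21 E) (F2_26 E) = dotS (ek E lk2) r2_21_26 :=
  op_entryZ E lk2 1 3 _ _ _ _ (pg0 κ) (pg2 ι) m2_21 m2_26 l2_26 z2_26 w2_26 x2_26 (by decide) _ (chkS_sound E lk2 1 3 _ _ _ _ t2_21_26)

def r2_21_27 : List (ℕ × ℤ) := [(36, 6), (51, -6)]

theorem h2_21_27 (E : Env κ ι) : ip (F2_21 E) (F2_27 E) = dotS (ek E lk2) r2_21_27 :=
  op_entryZ E lk2 1 3 _ _ _ _ (pg0 κ) (pg2 ι) m2_21 m2_27 l2_27 z2_27 w2_27 x2_27 (by decide) _ (chkS_sound E lk2 1 3 _ _ _ _ t2_21_27)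

def r2_21_28 : List (ℕ × ℤ) := [(142, 6), (333, -6)]

theorem h2_21_28 (E : Env κ ι) : ip (F2_21 E) (F2_28 E) = dotS (ek E lk2) r2_21_28 :=
  op_entryZ E lk2 1 3 _ _ _ _ (pg0 κ) (pg2 ι) m2_21 m2_28 l2_28 z2_28 w2_28 x2_28 (by decide) _ (chkS_sound E lk2 1 3 _ _ _ _ t2_21_28)

def r2_22_22 : List (ℕ × ℤ) := [(127, 2), (135, -4), (149, 2), (300, -4), (320, 4)]

theorem h2_22_22 (E : Env κ ι) : ip (F2_22 E) (F2_22 E) = dotS (ek E lk2) r2_22_22 :=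
  op_entryZ E lk2 1 3 _ _ _ _ (pg0 κ) (pg2 ι) m2_22 m2_22 l2_22 z2_22 w2_22 x2_22 (by decide) _ (chkS_sound E lk2 1 3 _ _ _ _ t2_22_22)

def r2_22_23 : List (ℕ × ℤ) := [(342, 6), (343, -6)]

theorem h2_22_23 (E : Env κ ι) : ip (F2_22 E) (F2_23 E) = dotS (ek E lk2) r2_22_23 :=
  op_entryZ E lk2 1 3 _ _ _ _ (pg0 κ) (pg2 ι) m2_22 m2_23 l2_23 z2_23 w2_23 x2_23 (by decide) _ (chkS_sound E lk2 1 3 _ _ _ _ t2_22_23)

def r2_22_24 : List (ℕ × ℤ) := [(46, 6), (49, -6)]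

theorem h2_22_24 (E : Env κ ι) : ip (F2_22 E) (F2_24 E) = dotS (ek E lk2) r2_22_24 :=
  op_entryZ E lk2 1 3 _ _ _ _ (pg0 κ) (pg2 ι) m2_22 m2_24 l2_24 z2_24 w2_24 x2_24 (by decide) _ (chkS_sound E lk2 1 3 _ _ _ _ t2_22_24)

def r2_22_25 : List (ℕ × ℤ) := [(141, -6), (313, 6)]

theorem h2_22_25 (E : Env κ ι) : ip (F2_22 E) (F2_25 E) = dotS (ek E lk2) r2_22_25 :=
  op_entryZ E lk2 1 3 _ _ _ _ (pg0 κ) (pg2 ι) m2_22 m2_25 l2_25 z2_25 w2_25 x2_25 (by decide) _ (chkS_sound E lk2 1 3 _ _ _ _ t2_22_25)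

def r2_22_26 : List (ℕ × ℤ) := [(62, 6), (135, -6)]

theorem h2_22_26 (E : Env κ ι) : ip (F2_22 E) (F2_26 E) = dotS (ek E lk2) r2_22_26 :=
  op_entryZ E lk2 1 3 _ _ _ _ (pg0 κ) (pg2 ι) m2_22 m2_26 l2_26 z2_26 w2_26 x2_26 (by decide) _ (chkS_sound E lk2 1 3 _ _ _ _ t2_22_26)

def r2_22_27 : List (ℕ × ℤ) := [(36, 6), (52, -6)]

theorem h2_22_27 (E : Env κ ι) : ip (F2_22 E) (F2_27 E) = dotS (ek E lk2) r2_22_27 :=
  op_entryZ E lk2 1 3 _ _ _ _ (pg0 κ) (pg2 ι) m2_22 m2_27 l2_27 z2_27 w2_27 x2_27 (by decide) _ (chkS_sound E lk2 1 3 _ _ _ _ t2_22_27)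

def r2_22_28 : List (ℕ × ℤ) := [(303, 6), (323, -6)]

theorem h2_22_28 (E : Env κ ι) : ip (F2_22 E) (F2_28 E) = dotS (ek E lk2) r2_22_28 :=
  op_entryZ E lk2 1 3 _ _ _ _ (pg0 κ) (pg2 ι) m2_22 m2_28 l2_28 z2_28 w2_28 x2_28 (by decide) _ (chkS_sound E lk2 1 3 _ _ _ _ t2_22_28)

def r2_23_23 : List (ℕ × ℤ) := [(348, 6), (349, -6)]

theorem h2_23_23 (E : Env κ ι) : ip (F2_23 E) (F2_23 E) = dotS (ek E lk2) r2_23_23 :=
  op_entryZ E lk2 1 3 _ _ _ _ (pg0 κ) (pg2 ι) m2_23 m2_23 l2_23 z2_23 w2_23 x2_23 (by decide) _ (chkS_sound E lk2 1 3 _ _ _ _ t2_23_23)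

def r2_23_24 : List (ℕ × ℤ) := [(19, -6), (350, 6)]

theorem h2_23_24 (E : Env κ ι) : ip (F2_23 E) (F2_24 E) = dotS (ek E lk2) r2_23_24 :=
  op_entryZ E lk2 1 3 _ _ _ _ (pg0 κ) (pg2 ι) m2_23 m2_24 l2_24 z2_24 w2_24 x2_24 (by decide) _ (chkS_sound E lk2 1 3 _ _ _ _ t2_23_24)

def r2_23_25 : List (ℕ × ℤ) := [(143, -6), (351, 6)]

theorem h2_23_25 (E : Env κ ι) : ip (F2_23 E) (F2_25 E) = dotS (ek E lk2) r2_23_25 :=
  op_entryZ E lk2 1 3 _ _ _ _ (pg0 κ) (pg2 ι) m2_23 m2_25 l2_25 z2_25 w2_25 x2_25 (by decide) _ (chkS_sound E lk2 1 3 _ _ _ _ t2_23_25)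

def r2_23_26 : List (ℕ × ℤ) := [(144, -6), (352, 6)]

theorem h2_23_26 (E : Env κ ι) : ip (F2_23 E) (F2_26 E) = dotS (ek E lk2) r2_23_26 :=
  op_entryZ E lk2 1 3 _ _ _ _ (pg0 κ) (pg2 ι) m2_23 m2_26 l2_26 z2_26 w2_26 x2_26 (by decide) _ (chkS_sound E lk2 1 3 _ _ _ _ t2_23_26)

def r2_23_27 : List (ℕ × ℤ) := [(145, -6), (353, 6)]

theorem h2_23_27 (E : Env κ ι) : ip (F2_23 E) (F2_27 E) = dotS (ek E lk2) r2_23_27 :=
  op_entryZ E lk2 1 3 _ _ _ _ (pg0 κ) (pg2 ι) m2_23 m2_27 l2_27 z2_27 w2_27 x2_27 (by decide) _ (chkS_sound E lk2 1 3 _ _ _ _ t2_23_27)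

def r2_23_28 : List (ℕ × ℤ) := [(354, 6), (355, -6)]

theorem h2_23_28 (E : Env κ ι) : ip (F2_23 E) (F2_28 E) = dotS (ek E lk2) r2_23_28 :=
  op_entryZ E lk2 1 3 _ _ _ _ (pg0 κ) (pg2 ι) m2_23 m2_28 l2_28 z2_28 w2_28 x2_28 (by decide) _ (chkS_sound E lk2 1 3 _ _ _ _ t2_23_28)

def r2_24_24 : List (ℕ × ℤ) := [(17, -6), (356, 6)]

theorem h2_24_24 (E : Env κ ι) : ip (F2_24 E) (F2_24 E) = dotS (ek E lk2) r2_24_24 :=
  op_entryZ E lk2 1 3 _ _ _ _ (pg0 κ) (pg2 ι) m2_24 m2_24 l2_24 z2_24 w2_24 x2_24 (by decide) _ (chkS_sound E lk2 1 3 _ _ _ _ t2_24_24)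

def r2_24_25 : List (ℕ × ℤ) := [(14, 6), (146, -6)]

theorem h2_24_25 (E : Env κ ι) : ip (F2_24 E) (F2_25 E) = dotS (ek E lk2) r2_24_25 :=
  op_entryZ E lk2 1 3 _ _ _ _ (pg0 κ) (pg2 ι) m2_24 m2_25 l2_25 z2_25 w2_25 x2_25 (by decide) _ (chkS_sound E lk2 1 3 _ _ _ _ t2_24_25)

def r2_24_26 : List (ℕ × ℤ) := [(44, 6), (46, -6)]

theorem h2_24_26 (E : Env κ ι) : ip (F2_24 E) (F2_26 E) = dotS (ek E lk2) r2_24_26 :=
  op_entryZ E lk2 1 3 _ _ _ _ (pg0 κ) (pg2 ι) m2_24 m2_26 l2_26 z2_26 w2_26 x2_26 (by decide) _ (chkS_sound E lk2 1 3 _ _ _ _ t2_24_26)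

def r2_24_27 : List (ℕ × ℤ) := [(3, -6), (25, 6)]

theorem h2_24_27 (E : Env κ ι) : ip (F2_24 E) (F2_27 E) = dotS (ek E lk2) r2_24_27 :=
  op_entryZ E lk2 1 3 _ _ _ _ (pg0 κ) (pg2 ι) m2_24 m2_27 l2_27 z2_27 w2_27 x2_27 (by decide) _ (chkS_sound E lk2 1 3 _ _ _ _ t2_24_27)

def r2_24_28 : List (ℕ × ℤ) := [(13, -6), (357, 6)]

theorem h2_24_28 (E : Env κ ι) : ip (F2_24 E) (F2_28 E) = dotS (ek E lk2) r2_24_28 :=
  op_entryZ E lk2 1 3 _ _ _ _ (pg0 κ) (pg2 ι) m2_24 m2_28 l2_28 z2_28 w2_28 x2_28 (by decide) _ (chkS_sound E lk2 1 3 _ _ _ _ t2_24_28)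

def r2_25_25 : List (ℕ × ℤ) := [(147, -6), (358, 6)]

theorem h2_25_25 (E : Env κ ι) : ip (F2_25 E) (F2_25 E) = dotS (ek E lk2) r2_25_25 :=
  op_entryZ E lk2 1 3 _ _ _ _ (pg0 κ) (pg2 ι) m2_25 m2_25 l2_25 z2_25 w2_25 x2_25 (by decide) _ (chkS_sound E lk2 1 3 _ _ _ _ t2_25_25)

def r2_25_26 : List (ℕ × ℤ) := [(42, 6), (148, -6)]

theorem h2_25_26 (E : Env κ ι) : ip (F2_25 E) (F2_26 E) = dotS (ek E lk2) r2_25_26 :=
  op_entryZ E lk2 1 3 _ _ _ _ (pg0 κ) (pg2 ι) m2_25 m2_26 l2_26 z2_26 w2_26 x2_26 (by decide) _ (chkS_sound E lk2 1 3 _ _ _ _ t2_25_26)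

def r2_25_27 : List (ℕ × ℤ) := [(2, 6), (62, -6)]

theorem h2_25_27 (E : Env κ ι) : ip (F2_25 E) (F2_27 E) = dotS (ek E lk2) r2_25_27 :=
  op_entryZ E lk2 1 3 _ _ _ _ (pg0 κ) (pg2 ι) m2_25 m2_27 l2_27 z2_27 w2_27 x2_27 (by decide) _ (chkS_sound E lk2 1 3 _ _ _ _ t2_25_27)

def r2_25_28 : List (ℕ × ℤ) := [(340, 6), (359, -6)]

theorem h2_25_28 (E : Env κ ι) : ip (F2_25 E) (F2_28 E) = dotS (ek E lk2) r2_25_28 :=
  op_entryZ E lk2 1 3 _ _ _ _ (pg0 κ) (pg2 ι) m2_25 m2_28 l2_28 z2_28 w2_28 x2_28 (by decide) _ (chkS_sound E lk2 1 3 _ _ _ _ t2_25_28)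

def r2_26_26 : List (ℕ × ℤ) := [(2, 6), (149, -6)]

theorem h2_26_26 (E : Env κ ι) : ip (F2_26 E) (F2_26 E) = dotS (ek E lk2) r2_26_26 :=
  op_entryZ E lk2 1 3 _ _ _ _ (pg0 κ) (pg2 ι) m2_26 m2_26 l2_26 z2_26 w2_26 x2_26 (by decide) _ (chkS_sound E lk2 1 3 _ _ _ _ t2_26_26)

def r2_26_27 : List (ℕ × ℤ) := [(36, -6), (37, 6)]

theorem h2_26_27 (E : Env κ ι) : ip (F2_26 E) (F2_27 E) = dotS (ek E lk2) r2_26_27 :=
  op_entryZ E lk2 1 3 _ _ _ _ (pg0 κ) (pg2 ι) m2_26 m2_27 l2_27 z2_27 w2_27 x2_27 (by decide) _ (chkS_sound E lk2 1 3 _ _ _ _ t2_26_27)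

def r2_26_28 : List (ℕ × ℤ) := [(41, -6), (341, 6)]

theorem h2_26_28 (E : Env κ ι) : ip (F2_26 E) (F2_28 E) = dotS (ek E lk2) r2_26_28 :=
  op_entryZ E lk2 1 3 _ _ _ _ (pg0 κ) (pg2 ι) m2_26 m2_28 l2_28 z2_28 w2_28 x2_28 (by decide) _ (chkS_sound E lk2 1 3 _ _ _ _ t2_26_28)

def r2_27_27 : List (ℕ × ℤ) := [(0, -6), (24, 6)]

theorem h2_27_27 (E : Env κ ι) : ip (F2_27 E) (F2_27 E) = dotS (ek E lk2) r2_27_27 :=
  op_entryZ E lk2 1 3 _ _ _ _ (pg0 κ) (pg2 ι) m2_27 m2_27 l2_27 z2_27 w2_27 x2_27 (by decide) _ (chkS_sound E lk2 1 3 _ _ _ _ t2_27_27)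

def r2_27_28 : List (ℕ × ℤ) := [(1, -6), (347, 6)]

theorem h2_27_28 (E : Env κ ι) : ip (F2_27 E) (F2_28 E) = dotS (ek E lk2) r2_27_28 :=
  op_entryZ E lk2 1 3 _ _ _ _ (pg0 κ) (pg2 ι) m2_27 m2_28 l2_28 z2_28 w2_28 x2_28 (by decide) _ (chkS_sound E lk2 1 3 _ _ _ _ t2_27_28)

def r2_28_28 : List (ℕ × ℤ) := [(360, 6), (361, -6)]

theorem h2_28_28 (E : Env κ ι) : ip (F2_28 E) (F2_28 E) = dotS (ek E lk2) r2_28_28 :=
  op_entryZ E lk2 1 3 _ _ _ _ (pg0 κ) (pg2 ι) m2_28 m2_28 l2_28 z2_28 w2_28 x2_28 (by decide) _ (chkS_sound E lk2 1 3 _ _ _ _ t2_28_28)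

theorem row2_0 (E : Env κ ι) : RowG (ek E lk2) (F2_0 E) [F2_0 E, F2_1 E, F2_2 E, F2_3 E, F2_4 E, F2_5 E, F2_6 E, F2_7 E, F2_8 E, F2_9 E, F2_10 E, F2_11 E, F2_12 E, F2_13 E, F2_14 E, F2_15 E, F2_16 E, F2_17 E, F2_18 E, F2_19 E, F2_20 E, F2_21 E, F2_22 E, F2_23 E, F2_24 E, F2_25 E, F2_26 E, F2_27 E, F2_28 E] [r2_0_0, r2_0_1, r2_0_2, r2_0_3, r2_0_4, r2_0_5, r2_0_6, r2_0_7, r2_0_8, r2_0_9, r2_0_10, r2_0_11, r2_0_12, r2_0_13, r2_0_14, r2_0_15, r2_0_16, r2_0_17, r2_0_18, r2_0_19, r2_0_20, r2_0_21, r2_0_22, r2_0_23, r2_0_24, r2_0_25, r2_0_26, r2_0_27, r2_0_28] :=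
  rowG_cons _ _ _ _ _ _ (h2_0_0 E) (rowG_cons _ _ _ _ _ _ (h2_0_1 E) (rowG_cons _ _ _ _ _ _ (h2_0_2 E) (rowG_cons _ _ _ _ _ _ (h2_0_3 E) (rowG_cons _ _ _ _ _ _ (h2_0_4 E) (rowG_cons _ _ _ _ _ _ (h2_0_5 E) (rowG_cons _ _ _ _ _ _ (h2_0_6 E) (rowG_cons _ _ _ _ _ _ (h2_0_7 E) (rowG_cons _ _ _ _ _ _ (h2_0_8 E) (rowG_cons _ _ _ _ _ _ (h2_0_9 E) (rowG_cons _ _ _ _ _ _ (h2_0_10 E) (rowG_cons _ _ _ _ _ _ (h2_0_11 E) (rowG_cons _ _ _ _ _ _ (h2_0_12 E) (rowG_cons _ _ _ _ _ _ (h2_0_13 E) (rowG_cons _ _ _ _ _ _ (h2_0_14 E) (rowG_cons _ _ _ _ _ _ (h2_0_15 E) (rowG_cons _ _ _ _ _ _ (h2_0_16 E) (rowG_cons _ _ _ _ _ _ (h2_0_17 E) (rowG_cons _ _ _ _ _ _ (h2_0_18 E) (rowG_cons _ _ _ _ _ _ (h2_0_19 E) (rowG_cons _ _ _ _ _ _ (h2_0_20 E) (rowG_cons _ _ _ _ _ _ (h2_0_21 E) (rowG_cons _ _ _ _ _ _ (h2_0_22 E) (rowG_cons _ _ _ _ _ _ (h2_0_23 E) (rowG_cons _ _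 _ _ _ _ (h2_0_24 E) (rowG_cons _ _ _ _ _ _ (h2_0_25 E) (rowG_cons _ _ _ _ _ _ (h2_0_26 E) (rowG_cons _ _ _ _ _ _ (h2_0_27 E) (rowG_cons _ _ _ _ _ _ (h2_0_28 E) (rowG_nil _ _)))))))))))))))))))))))))))))

theorem row2_1 (E : Env κ ι) : RowG (ek E lk2) (F2_1 E) [F2_1 E, F2_2 E, F2_3 E, F2_4 E, F2_5 E, F2_6 E, F2_7 E, F2_8 E, F2_9 E, F2_10 E, F2_11 E, F2_12 E, F2_13 E, F2_14 E, F2_15 E, F2_16 E, F2_17 E, F2_18 E, F2_19 E, F2_20 E, F2_21 E, F2_22 E, F2_23 E, F2_24 E, F2_25 E, F2_26 E, F2_27 E, F2_28 E] [r2_1_1, r2_1_2, r2_1_3, r2_1_4, r2_1_5, r2_1_6, r2_1_7, r2_1_8, r2_1_9, r2_1_10, r2_1_11, r2_1_12, r2_1_13, r2_1_14, r2_1_15, r2_1_16, r2_1_17, r2_1_18, r2_1_19, r2_1_20, r2_1_21, r2_1_22, r2_1_23, r2_1_24, r2_1_25, r2_1_26, r2_1_27, r2_1_28] :=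
  rowG_cons _ _ _ _ _ _ (h2_1_1 E) (rowG_cons _ _ _ _ _ _ (h2_1_2 E) (rowG_cons _ _ _ _ _ _ (h2_1_3 E) (rowG_cons _ _ _ _ _ _ (h2_1_4 E) (rowG_cons _ _ _ _ _ _ (h2_1_5 E) (rowG_cons _ _ _ _ _ _ (h2_1_6 E) (rowG_cons _ _ _ _ _ _ (h2_1_7 E) (rowG_cons _ _ _ _ _ _ (h2_1_8 E) (rowG_cons _ _ _ _ _ _ (h2_1_9 E) (rowG_cons _ _ _ _ _ _ (h2_1_10 E) (rowG_cons _ _ _ _ _ _ (h2_1_11 E) (rowG_cons _ _ _ _ _ _ (h2_1_12 E) (rowG_cons _ _ _ _ _ _ (h2_1_13 E) (rowG_cons _ _ _ _ _ _ (h2_1_14 E) (rowG_cons _ _ _ _ _ _ (h2_1_15 E) (rowG_cons _ _ _ _ _ _ (h2_1_16 E) (rowG_cons _ _ _ _ _ _ (h2_1_17 E) (rowG_cons _ _ _ _ _ _ (h2_1_18 E) (rowG_cons _ _ _ _ _ _ (h2_1_19 E) (rowG_cons _ _ _ _ _ _ (h2_1_20 E) (rowG_cons _ _ _ _ _ _ (h2_1_21 E) (rowG_cons _ _ _ _ _ _ (h2_1_22 E) (rowG_cons _ _ _ _ _ _ (h2_1_23 E) (rowG_cons _ _ _ _ _ _ (h2_1_24 E) (rowG_cons _ _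 _ _ _ _ (h2_1_25 E) (rowG_cons _ _ _ _ _ _ (h2_1_26 E) (rowG_cons _ _ _ _ _ _ (h2_1_27 E) (rowG_cons _ _ _ _ _ _ (h2_1_28 E) (rowG_nil _ _))))))))))))))))))))))))))))

theorem row2_2 (E : Env κ ι) : RowG (ek E lk2) (F2_2 E) [F2_2 E, F2_3 E, F2_4 E, F2_5 E, F2_6 E, F2_7 E, F2_8 E, F2_9 E, F2_10 E, F2_11 E, F2_12 E, F2_13 E, F2_14 E, F2_15 E, F2_16 E, F2_17 E, F2_18 E, F2_19 E, F2_20 E, F2_21 E, F2_22 E, F2_23 E, F2_24 E, F2_25 E, F2_26 E, F2_27 E, F2_28 E] [r2_2_2, r2_2_3, r2_2_4, r2_2_5, r2_2_6, r2_2_7, r2_2_8, r2_2_9, r2_2_10, r2_2_11, r2_2_12, r2_2_13, r2_2_14, r2_2_15, r2_2_16, r2_2_17, r2_2_18, r2_2_19, r2_2_20, r2_2_21, r2_2_22, r2_2_23, r2_2_24, r2_2_25, r2_2_26, r2_2_27, r2_2_28] :=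
  rowG_cons _ _ _ _ _ _ (h2_2_2 E) (rowG_cons _ _ _ _ _ _ (h2_2_3 E) (rowG_cons _ _ _ _ _ _ (h2_2_4 E) (rowG_cons _ _ _ _ _ _ (h2_2_5 E) (rowG_cons _ _ _ _ _ _ (h2_2_6 E) (rowG_cons _ _ _ _ _ _ (h2_2_7 E) (rowG_cons _ _ _ _ _ _ (h2_2_8 E) (rowG_cons _ _ _ _ _ _ (h2_2_9 E) (rowG_cons _ _ _ _ _ _ (h2_2_10 E) (rowG_cons _ _ _ _ _ _ (h2_2_11 E) (rowG_cons _ _ _ _ _ _ (h2_2_12 E) (rowG_cons _ _ _ _ _ _ (h2_2_13 E) (rowG_cons _ _ _ _ _ _ (h2_2_14 E) (rowG_cons _ _ _ _ _ _ (h2_2_15 E) (rowG_cons _ _ _ _ _ _ (h2_2_16 E) (rowG_cons _ _ _ _ _ _ (h2_2_17 E) (rowG_cons _ _ _ _ _ _ (h2_2_18 E) (rowG_cons _ _ _ _ _ _ (h2_2_19 E) (rowG_cons _ _ _ _ _ _ (h2_2_20 E) (rowG_cons _ _ _ _ _ _ (h2_2_21 E) (rowG_cons _ _ _ _ _ _ (h2_2_22 E) (rowG_cons _ _ _ _ _ _ (h2_2_23 E) (rowG_cons _ _ _ _ _ _ (h2_2_24 E) (rowG_cons _ _ _ _ _ _ (h2_2_25 E) (rowG_cons _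 _ _ _ _ _ (h2_2_26 E) (rowG_cons _ _ _ _ _ _ (h2_2_27 E) (rowG_cons _ _ _ _ _ _ (h2_2_28 E) (rowG_nil _ _)))))))))))))))))))))))))))

theorem row2_3 (E : Env κ ι) : RowG (ek E lk2) (F2_3 E) [F2_3 E, F2_4 E, F2_5 E, F2_6 E, F2_7 E, F2_8 E, F2_9 E, F2_10 E, F2_11 E, F2_12 E, F2_13 E, F2_14 E, F2_15 E, F2_16 E, F2_17 E, F2_18 E, F2_19 E, F2_20 E, F2_21 E, F2_22 E, F2_23 E, F2_24 E, F2_25 E, F2_26 E, F2_27 E, F2_28 E] [r2_3_3, r2_3_4, r2_3_5, r2_3_6, r2_3_7, r2_3_8, r2_3_9, r2_3_10, r2_3_11, r2_3_12, r2_3_13, r2_3_14, r2_3_15, r2_3_16, r2_3_17, r2_3_18, r2_3_19, r2_3_20, r2_3_21, r2_3_22, r2_3_23, r2_3_24, r2_3_25, r2_3_26, r2_3_27, r2_3_28] :=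
  rowG_cons _ _ _ _ _ _ (h2_3_3 E) (rowG_cons _ _ _ _ _ _ (h2_3_4 E) (rowG_cons _ _ _ _ _ _ (h2_3_5 E) (rowG_cons _ _ _ _ _ _ (h2_3_6 E) (rowG_cons _ _ _ _ _ _ (h2_3_7 E) (rowG_cons _ _ _ _ _ _ (h2_3_8 E) (rowG_cons _ _ _ _ _ _ (h2_3_9 E) (rowG_cons _ _ _ _ _ _ (h2_3_10 E) (rowG_cons _ _ _ _ _ _ (h2_3_11 E) (rowG_cons _ _ _ _ _ _ (h2_3_12 E) (rowG_cons _ _ _ _ _ _ (h2_3_13 E) (rowG_cons _ _ _ _ _ _ (h2_3_14 E) (rowG_cons _ _ _ _ _ _ (h2_3_15 E) (rowG_cons _ _ _ _ _ _ (h2_3_16 E) (rowG_cons _ _ _ _ _ _ (h2_3_17 E) (rowG_cons _ _ _ _ _ _ (h2_3_18 E) (rowG_cons _ _ _ _ _ _ (h2_3_19 E) (rowG_cons _ _ _ _ _ _ (h2_3_20 E) (rowG_cons _ _ _ _ _ _ (h2_3_21 E) (rowG_cons _ _ _ _ _ _ (h2_3_22 E) (rowG_cons _ _ _ _ _ _ (h2_3_23 E) (rowG_cons _ _ _ _ _ _ (h2_3_24 E) (rowG_cons _ _ _ _ _ _ (h2_3_25 E) (rowG_cons _ _ _ _ _ _ (h2_3_26 E) (rowG_cons _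 _ _ _ _ _ (h2_3_27 E) (rowG_cons _ _ _ _ _ _ (h2_3_28 E) (rowG_nil _ _))))))))))))))))))))))))))

theorem row2_4 (E : Env κ ι) : RowG (ek E lk2) (F2_4 E) [F2_4 E, F2_5 E, F2_6 E, F2_7 E, F2_8 E, F2_9 E, F2_10 E, F2_11 E, F2_12 E, F2_13 E, F2_14 E, F2_15 E, F2_16 E, F2_17 E, F2_18 E, F2_19 E, F2_20 E, F2_21 E, F2_22 E, F2_23 E, F2_24 E, F2_25 E, F2_26 E, F2_27 E, F2_28 E] [r2_4_4, r2_4_5, r2_4_6, r2_4_7, r2_4_8, r2_4_9, r2_4_10, r2_4_11, r2_4_12, r2_4_13, r2_4_14, r2_4_15, r2_4_16, r2_4_17, r2_4_18, r2_4_19, r2_4_20, r2_4_21, r2_4_22, r2_4_23, r2_4_24, r2_4_25, r2_4_26, r2_4_27, r2_4_28] :=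
  rowG_cons _ _ _ _ _ _ (h2_4_4 E) (rowG_cons _ _ _ _ _ _ (h2_4_5 E) (rowG_cons _ _ _ _ _ _ (h2_4_6 E) (rowG_cons _ _ _ _ _ _ (h2_4_7 E) (rowG_cons _ _ _ _ _ _ (h2_4_8 E) (rowG_cons _ _ _ _ _ _ (h2_4_9 E) (rowG_cons _ _ _ _ _ _ (h2_4_10 E) (rowG_cons _ _ _ _ _ _ (h2_4_11 E) (rowG_cons _ _ _ _ _ _ (h2_4_12 E) (rowG_cons _ _ _ _ _ _ (h2_4_13 E) (rowG_cons _ _ _ _ _ _ (h2_4_14 E) (rowG_cons _ _ _ _ _ _ (h2_4_15 E) (rowG_cons _ _ _ _ _ _ (h2_4_16 E) (rowG_cons _ _ _ _ _ _ (h2_4_17 E) (rowG_cons _ _ _ _ _ _ (h2_4_18 E) (rowG_cons _ _ _ _ _ _ (h2_4_19 E) (rowG_cons _ _ _ _ _ _ (h2_4_20 E) (rowG_cons _ _ _ _ _ _ (h2_4_21 E) (rowG_cons _ _ _ _ _ _ (h2_4_22 E) (rowG_cons _ _ _ _ _ _ (h2_4_23 E) (rowG_cons _ _ _ _ _ _ (h2_4_24 E) (rowG_cons _ _ _ _ _ _ (h2_4_25 E) (rowG_cons _ _ _ _ _ _ (h2_4_26 E) (rowG_cons _ _ _ _ _ _ (h2_4_27 E) (rowG_cons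 _ _ _ _ _ _ (h2_4_28 E) (rowG_nil _ _)))))))))))))))))))))))))

theorem row2_5 (E : Env κ ι) : RowG (ek E lk2) (F2_5 E) [F2_5 E, F2_6 E, F2_7 E, F2_8 E, F2_9 E, F2_10 E, F2_11 E, F2_12 E, F2_13 E, F2_14 E, F2_15 E, F2_16 E, F2_17 E, F2_18 E, F2_19 E, F2_20 E, F2_21 E, F2_22 E, F2_23 E, F2_24 E, F2_25 E, F2_26 E, F2_27 E, F2_28 E] [r2_5_5, r2_5_6, r2_5_7, r2_5_8, r2_5_9, r2_5_10, r2_5_11, r2_5_12, r2_5_13, r2_5_14, r2_5_15, r2_5_16, r2_5_17, r2_5_18, r2_5_19, r2_5_20, r2_5_21, r2_5_22, r2_5_23, r2_5_24, r2_5_25, r2_5_26, r2_5_27, r2_5_28] :=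
  rowG_cons _ _ _ _ _ _ (h2_5_5 E) (rowG_cons _ _ _ _ _ _ (h2_5_6 E) (rowG_cons _ _ _ _ _ _ (h2_5_7 E) (rowG_cons _ _ _ _ _ _ (h2_5_8 E) (rowG_cons _ _ _ _ _ _ (h2_5_9 E) (rowG_cons _ _ _ _ _ _ (h2_5_10 E) (rowG_cons _ _ _ _ _ _ (h2_5_11 E) (rowG_cons _ _ _ _ _ _ (h2_5_12 E) (rowG_cons _ _ _ _ _ _ (h2_5_13 E) (rowG_cons _ _ _ _ _ _ (h2_5_14 E) (rowG_cons _ _ _ _ _ _ (h2_5_15 E) (rowG_cons _ _ _ _ _ _ (h2_5_16 E) (rowG_cons _ _ _ _ _ _ (h2_5_17 E) (rowG_cons _ _ _ _ _ _ (h2_5_18 E) (rowG_cons _ _ _ _ _ _ (h2_5_19 E) (rowG_cons _ _ _ _ _ _ (h2_5_20 E) (rowG_cons _ _ _ _ _ _ (h2_5_21 E) (rowG_cons _ _ _ _ _ _ (h2_5_22 E) (rowG_cons _ _ _ _ _ _ (h2_5_23 E) (rowG_cons _ _ _ _ _ _ (h2_5_24 E) (rowG_cons _ _ _ _ _ _ (h2_5_25 E) (rowG_cons _ _ _ _ _ _ (h2_5_26 E) (rowG_cons _ _ _ _ _ _ (h2_5_27 E) (rowG_cons _ _ _ _ _ _ (h2_5_28 E) (rowG_nil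 _ _))))))))))))))))))))))))

theorem row2_6 (E : Env κ ι) : RowG (ek E lk2) (F2_6 E) [F2_6 E, F2_7 E, F2_8 E, F2_9 E, F2_10 E, F2_11 E, F2_12 E, F2_13 E, F2_14 E, F2_15 E, F2_16 E, F2_17 E, F2_18 E, F2_19 E, F2_20 E, F2_21 E, F2_22 E, F2_23 E, F2_24 E, F2_25 E, F2_26 E, F2_27 E, F2_28 E] [r2_6_6, r2_6_7, r2_6_8, r2_6_9, r2_6_10, r2_6_11, r2_6_12, r2_6_13, r2_6_14, r2_6_15, r2_6_16, r2_6_17, r2_6_18, r2_6_19, r2_6_20, r2_6_21, r2_6_22, r2_6_23, r2_6_24, r2_6_25, r2_6_26, r2_6_27, r2_6_28] :=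
  rowG_cons _ _ _ _ _ _ (h2_6_6 E) (rowG_cons _ _ _ _ _ _ (h2_6_7 E) (rowG_cons _ _ _ _ _ _ (h2_6_8 E) (rowG_cons _ _ _ _ _ _ (h2_6_9 E) (rowG_cons _ _ _ _ _ _ (h2_6_10 E) (rowG_cons _ _ _ _ _ _ (h2_6_11 E) (rowG_cons _ _ _ _ _ _ (h2_6_12 E) (rowG_cons _ _ _ _ _ _ (h2_6_13 E) (rowG_cons _ _ _ _ _ _ (h2_6_14 E) (rowG_cons _ _ _ _ _ _ (h2_6_15 E) (rowG_cons _ _ _ _ _ _ (h2_6_16 E) (rowG_cons _ _ _ _ _ _ (h2_6_17 E) (rowG_cons _ _ _ _ _ _ (h2_6_18 E) (rowG_cons _ _ _ _ _ _ (h2_6_19 E) (rowG_cons _ _ _ _ _ _ (h2_6_20 E) (rowG_cons _ _ _ _ _ _ (h2_6_21 E) (rowG_cons _ _ _ _ _ _ (h2_6_22 E) (rowG_cons _ _ _ _ _ _ (h2_6_23 E) (rowG_cons _ _ _ _ _ _ (h2_6_24 E) (rowG_cons _ _ _ _ _ _ (h2_6_25 E) (rowG_cons _ _ _ _ _ _ (h2_6_26 E) (rowG_cons _ _ _ _ _ _ (h2_6_27 E) (rowG_cons _ _ _ _ _ _ (h2_6_28 E) (rowG_nil _ _)))))))))))))))))))))))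

theorem row2_7 (E : Env κ ι) : RowG (ek E lk2) (F2_7 E) [F2_7 E, F2_8 E, F2_9 E, F2_10 E, F2_11 E, F2_12 E, F2_13 E, F2_14 E, F2_15 E, F2_16 E, F2_17 E, F2_18 E, F2_19 E, F2_20 E, F2_21 E, F2_22 E, F2_23 E, F2_24 E, F2_25 E, F2_26 E, F2_27 E, F2_28 E] [r2_7_7, r2_7_8, r2_7_9, r2_7_10, r2_7_11, r2_7_12, r2_7_13, r2_7_14, r2_7_15, r2_7_16, r2_7_17, r2_7_18, r2_7_19, r2_7_20, r2_7_21, r2_7_22, r2_7_23, r2_7_24, r2_7_25, r2_7_26, r2_7_27, r2_7_28] :=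
  rowG_cons _ _ _ _ _ _ (h2_7_7 E) (rowG_cons _ _ _ _ _ _ (h2_7_8 E) (rowG_cons _ _ _ _ _ _ (h2_7_9 E) (rowG_cons _ _ _ _ _ _ (h2_7_10 E) (rowG_cons _ _ _ _ _ _ (h2_7_11 E) (rowG_cons _ _ _ _ _ _ (h2_7_12 E) (rowG_cons _ _ _ _ _ _ (h2_7_13 E) (rowG_cons _ _ _ _ _ _ (h2_7_14 E) (rowG_cons _ _ _ _ _ _ (h2_7_15 E) (rowG_cons _ _ _ _ _ _ (h2_7_16 E) (rowG_cons _ _ _ _ _ _ (h2_7_17 E) (rowG_cons _ _ _ _ _ _ (h2_7_18 E) (rowG_cons _ _ _ _ _ _ (h2_7_19 E) (rowG_cons _ _ _ _ _ _ (h2_7_20 E) (rowG_cons _ _ _ _ _ _ (h2_7_21 E) (rowG_cons _ _ _ _ _ _ (h2_7_22 E) (rowG_cons _ _ _ _ _ _ (h2_7_23 E) (rowG_cons _ _ _ _ _ _ (h2_7_24 E) (rowG_cons _ _ _ _ _ _ (h2_7_25 E) (rowG_cons _ _ _ _ _ _ (h2_7_26 E) (rowG_cons _ _ _ _ _ _ (h2_7_27 E) (rowG_cons _ _ _ _ _ _ (h2_7_28 E) (rowG_nil _ _))))))))))))))))))))))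

theorem row2_8 (E : Env κ ι) : RowG (ek E lk2) (F2_8 E) [F2_8 E, F2_9 E, F2_10 E, F2_11 E, F2_12 E, F2_13 E, F2_14 E, F2_15 E, F2_16 E, F2_17 E, F2_18 E, F2_19 E, F2_20 E, F2_21 E, F2_22 E, F2_23 E, F2_24 E, F2_25 E, F2_26 E, F2_27 E, F2_28 E] [r2_8_8, r2_8_9, r2_8_10, r2_8_11, r2_8_12, r2_8_13, r2_8_14, r2_8_15, r2_8_16, r2_8_17, r2_8_18, r2_8_19, r2_8_20, r2_8_21, r2_8_22, r2_8_23, r2_8_24, r2_8_25, r2_8_26, r2_8_27, r2_8_28] :=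
  rowG_cons _ _ _ _ _ _ (h2_8_8 E) (rowG_cons _ _ _ _ _ _ (h2_8_9 E) (rowG_cons _ _ _ _ _ _ (h2_8_10 E) (rowG_cons _ _ _ _ _ _ (h2_8_11 E) (rowG_cons _ _ _ _ _ _ (h2_8_12 E) (rowG_cons _ _ _ _ _ _ (h2_8_13 E) (rowG_cons _ _ _ _ _ _ (h2_8_14 E) (rowG_cons _ _ _ _ _ _ (h2_8_15 E) (rowG_cons _ _ _ _ _ _ (h2_8_16 E) (rowG_cons _ _ _ _ _ _ (h2_8_17 E) (rowG_cons _ _ _ _ _ _ (h2_8_18 E) (rowG_cons _ _ _ _ _ _ (h2_8_19 E) (rowG_cons _ _ _ _ _ _ (h2_8_20 E) (rowG_cons _ _ _ _ _ _ (h2_8_21 E) (rowG_cons _ _ _ _ _ _ (h2_8_22 E) (rowG_cons _ _ _ _ _ _ (h2_8_23 E) (rowG_cons _ _ _ _ _ _ (h2_8_24 E) (rowG_cons _ _ _ _ _ _ (h2_8_25 E) (rowG_cons _ _ _ _ _ _ (h2_8_26 E) (rowG_cons _ _ _ _ _ _ (h2_8_27 E) (rowG_cons _ _ _ _ _ _ (h2_8_28 E) (rowG_nil _ _)))))))))))))))))))))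

theorem row2_9 (E : Env κ ι) : RowG (ek E lk2) (F2_9 E) [F2_9 E, F2_10 E, F2_11 E, F2_12 E, F2_13 E, F2_14 E, F2_15 E, F2_16 E, F2_17 E, F2_18 E, F2_19 E, F2_20 E, F2_21 E, F2_22 E, F2_23 E, F2_24 E, F2_25 E, F2_26 E, F2_27 E, F2_28 E] [r2_9_9, r2_9_10, r2_9_11, r2_9_12, r2_9_13, r2_9_14, r2_9_15, r2_9_16, r2_9_17, r2_9_18, r2_9_19, r2_9_20, r2_9_21, r2_9_22, r2_9_23, r2_9_24, r2_9_25, r2_9_26, r2_9_27, r2_9_28] :=
  rowG_cons _ _ _ _ _ _ (h2_9_9 E) (rowG_cons _ _ _ _ _ _ (h2_9_10 E) (rowG_cons _ _ _ _ _ _ (h2_9_11 E) (rowG_cons _ _ _ _ _ _ (h2_9_12 E) (rowG_cons _ _ _ _ _ _ (h2_9_13 E) (rowG_cons _ _ _ _ _ _ (h2_9_14 E) (rowG_cons _ _ _ _ _ _ (h2_9_15 E) (rowG_cons _ _ _ _ _ _ (h2_9_16 E) (rowG_cons _ _ _ _ _ _ (h2_9_17 E) (rowG_cons _ _ _ _ _ _ (h2_9_18 E) (rowG_cons _ _ _ _ _ _ (h2_9_19 E) (rowG_cons _ _ _ _ _ _ (h2_9_20 E) (rowG_cons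 _ _ _ _ _ _ (h2_9_21 E) (rowG_cons _ _ _ _ _ _ (h2_9_22 E) (rowG_cons _ _ _ _ _ _ (h2_9_23 E) (rowG_cons _ _ _ _ _ _ (h2_9_24 E) (rowG_cons _ _ _ _ _ _ (h2_9_25 E) (rowG_cons _ _ _ _ _ _ (h2_9_26 E) (rowG_cons _ _ _ _ _ _ (h2_9_27 E) (rowG_cons _ _ _ _ _ _ (h2_9_28 E) (rowG_nil _ _))))))))))))))))))))

theorem row2_10 (E : Env κ ι) : RowG (ek E lk2) (F2_10 E) [F2_10 E, F2_11 E, F2_12 E, F2_13 E, F2_14 E, F2_15 E, F2_16 E, F2_17 E, F2_18 E, F2_19 E, F2_20 E, F2_21 E, F2_22 E, F2_23 E, F2_24 E, F2_25 E, F2_26 E, F2_27 E, F2_28 E] [r2_10_10, r2_10_11, r2_10_12, r2_10_13, r2_10_14, r2_10_15, r2_10_16, r2_10_17, r2_10_18, r2_10_19, r2_10_20, r2_10_21, r2_10_22, r2_10_23, r2_10_24, r2_10_25, r2_10_26, r2_10_27, r2_10_28] :=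
  rowG_cons _ _ _ _ _ _ (h2_10_10 E) (rowG_cons _ _ _ _ _ _ (h2_10_11 E) (rowG_cons _ _ _ _ _ _ (h2_10_12 E) (rowG_cons _ _ _ _ _ _ (h2_10_13 E) (rowG_cons _ _ _ _ _ _ (h2_10_14 E) (rowG_cons _ _ _ _ _ _ (h2_10_15 E) (rowG_cons _ _ _ _ _ _ (h2_10_16 E) (rowG_cons _ _ _ _ _ _ (h2_10_17 E) (rowG_cons _ _ _ _ _ _ (h2_10_18 E) (rowG_cons _ _ _ _ _ _ (h2_10_19 E) (rowG_cons _ _ _ _ _ _ (h2_10_20 E) (rowG_cons _ _ _ _ _ _ (h2_10_21 E) (rowG_cons _ _ _ _ _ _ (h2_10_22 E) (rowG_cons _ _ _ _ _ _ (h2_10_23 E) (rowG_cons _ _ _ _ _ _ (h2_10_24 E) (rowG_cons _ _ _ _ _ _ (h2_10_25 E) (rowG_cons _ _ _ _ _ _ (h2_10_26 E) (rowG_cons _ _ _ _ _ _ (h2_10_27 E) (rowG_cons _ _ _ _ _ _ (h2_10_28 E) (rowG_nil _ _)))))))))))))))))))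

theorem row2_11 (E : Env κ ι) : RowG (ek E lk2) (F2_11 E) [F2_11 E, F2_12 E, F2_13 E, F2_14 E, F2_15 E, F2_16 E, F2_17 E, F2_18 E, F2_19 E, F2_20 E, F2_21 E, F2_22 E, F2_23 E, F2_24 E, F2_25 E, F2_26 E, F2_27 E, F2_28 E] [r2_11_11, r2_11_12, r2_11_13, r2_11_14, r2_11_15, r2_11_16, r2_11_17, r2_11_18, r2_11_19, r2_11_20, r2_11_21, r2_11_22, r2_11_23, r2_11_24, r2_11_25, r2_11_26, r2_11_27, r2_11_28] :=
  rowG_cons _ _ _ _ _ _ (h2_11_11 E) (rowG_cons _ _ _ _ _ _ (h2_11_12 E) (rowG_cons _ _ _ _ _ _ (h2_11_13 E) (rowG_cons _ _ _ _ _ _ (h2_11_14 E) (rowG_cons _ _ _ _ _ _ (h2_11_15 E) (rowG_cons _ _ _ _ _ _ (h2_11_16 E) (rowG_cons _ _ _ _ _ _ (h2_11_17 E) (rowG_cons _ _ _ _ _ _ (h2_11_18 E) (rowG_cons _ _ _ _ _ _ (h2_11_19 E) (rowG_cons _ _ _ _ _ _ (h2_11_20 E) (rowG_cons _ _ _ _ _ _ (h2_11_21 E) (rowG_cons _ _ _ _ _ _ (h2_11_22 E) (rowG_cons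 _ _ _ _ _ _ (h2_11_23 E) (rowG_cons _ _ _ _ _ _ (h2_11_24 E) (rowG_cons _ _ _ _ _ _ (h2_11_25 E) (rowG_cons _ _ _ _ _ _ (h2_11_26 E) (rowG_cons _ _ _ _ _ _ (h2_11_27 E) (rowG_cons _ _ _ _ _ _ (h2_11_28 E) (rowG_nil _ _))))))))))))))))))

theorem row2_12 (E : Env κ ι) : RowG (ek E lk2) (F2_12 E) [F2_12 E, F2_13 E, F2_14 E, F2_15 E, F2_16 E, F2_17 E, F2_18 E, F2_19 E, F2_20 E, F2_21 E, F2_22 E, F2_23 E, F2_24 E, F2_25 E, F2_26 E, F2_27 E, F2_28 E] [r2_12_12, r2_12_13, r2_12_14, r2_12_15, r2_12_16, r2_12_17, r2_12_18, r2_12_19, r2_12_20, r2_12_21, r2_12_22, r2_12_23, r2_12_24, r2_12_25, r2_12_26, r2_12_27, r2_12_28] :=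
  rowG_cons _ _ _ _ _ _ (h2_12_12 E) (rowG_cons _ _ _ _ _ _ (h2_12_13 E) (rowG_cons _ _ _ _ _ _ (h2_12_14 E) (rowG_cons _ _ _ _ _ _ (h2_12_15 E) (rowG_cons _ _ _ _ _ _ (h2_12_16 E) (rowG_cons _ _ _ _ _ _ (h2_12_17 E) (rowG_cons _ _ _ _ _ _ (h2_12_18 E) (rowG_cons _ _ _ _ _ _ (h2_12_19 E) (rowG_cons _ _ _ _ _ _ (h2_12_20 E) (rowG_cons _ _ _ _ _ _ (h2_12_21 E) (rowG_cons _ _ _ _ _ _ (h2_12_22 E) (rowG_cons _ _ _ _ _ _ (h2_12_23 E) (rowG_cons _ _ _ _ _ _ (h2_12_24 E) (rowG_cons _ _ _ _ _ _ (h2_12_25 E) (rowG_cons _ _ _ _ _ _ (h2_12_26 E) (rowG_cons _ _ _ _ _ _ (h2_12_27 E) (rowG_cons _ _ _ _ _ _ (h2_12_28 E) (rowG_nil _ _)))))))))))))))))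

theorem row2_13 (E : Env κ ι) : RowG (ek E lk2) (F2_13 E) [F2_13 E, F2_14 E, F2_15 E, F2_16 E, F2_17 E, F2_18 E, F2_19 E, F2_20 E, F2_21 E, F2_22 E, F2_23 E, F2_24 E, F2_25 E, F2_26 E, F2_27 E, F2_28 E] [r2_13_13, r2_13_14, r2_13_15, r2_13_16, r2_13_17, r2_13_18, r2_13_19, r2_13_20, r2_13_21, r2_13_22, r2_13_23, r2_13_24, r2_13_25, r2_13_26, r2_13_27, r2_13_28] :=
  rowG_cons _ _ _ _ _ _ (h2_13_13 E) (rowG_cons _ _ _ _ _ _ (h2_13_14 E) (rowG_cons _ _ _ _ _ _ (h2_13_15 E) (rowG_cons _ _ _ _ _ _ (h2_13_16 E) (rowG_cons _ _ _ _ _ _ (h2_13_17 E) (rowG_cons _ _ _ _ _ _ (h2_13_18 E) (rowG_cons _ _ _ _ _ _ (h2_13_19 E) (rowG_cons _ _ _ _ _ _ (h2_13_20 E) (rowG_cons _ _ _ _ _ _ (h2_13_21 E) (rowG_cons _ _ _ _ _ _ (h2_13_22 E) (rowG_cons _ _ _ _ _ _ (h2_13_23 E) (rowG_cons _ _ _ _ _ _ (h2_13_24 E) (rowG_cons _ _ _ _ _ _ (h2_13_25 E) (rowG_cons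 _ _ _ _ _ _ (h2_13_26 E) (rowG_cons _ _ _ _ _ _ (h2_13_27 E) (rowG_cons _ _ _ _ _ _ (h2_13_28 E) (rowG_nil _ _))))))))))))))))

theorem row2_14 (E : Env κ ι) : RowG (ek E lk2) (F2_14 E) [F2_14 E, F2_15 E, F2_16 E, F2_17 E, F2_18 E, F2_19 E, F2_20 E, F2_21 E, F2_22 E, F2_23 E, F2_24 E, F2_25 E, F2_26 E, F2_27 E, F2_28 E] [r2_14_14, r2_14_15, r2_14_16, r2_14_17, r2_14_18, r2_14_19, r2_14_20, r2_14_21, r2_14_22, r2_14_23, r2_14_24, r2_14_25, r2_14_26, r2_14_27, r2_14_28] :=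
  rowG_cons _ _ _ _ _ _ (h2_14_14 E) (rowG_cons _ _ _ _ _ _ (h2_14_15 E) (rowG_cons _ _ _ _ _ _ (h2_14_16 E) (rowG_cons _ _ _ _ _ _ (h2_14_17 E) (rowG_cons _ _ _ _ _ _ (h2_14_18 E) (rowG_cons _ _ _ _ _ _ (h2_14_19 E) (rowG_cons _ _ _ _ _ _ (h2_14_20 E) (rowG_cons _ _ _ _ _ _ (h2_14_21 E) (rowG_cons _ _ _ _ _ _ (h2_14_22 E) (rowG_cons _ _ _ _ _ _ (h2_14_23 E) (rowG_cons _ _ _ _ _ _ (h2_14_24 E) (rowG_cons _ _ _ _ _ _ (h2_14_25 E) (rowG_cons _ _ _ _ _ _ (h2_14_26 E) (rowG_cons _ _ _ _ _ _ (h2_14_27 E) (rowG_cons _ _ _ _ _ _ (h2_14_28 E) (rowG_nil _ _)))))))))))))))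

theorem row2_15 (E : Env κ ι) : RowG (ek E lk2) (F2_15 E) [F2_15 E, F2_16 E, F2_17 E, F2_18 E, F2_19 E, F2_20 E, F2_21 E, F2_22 E, F2_23 E, F2_24 E, F2_25 E, F2_26 E, F2_27 E, F2_28 E] [r2_15_15, r2_15_16, r2_15_17, r2_15_18, r2_15_19, r2_15_20, r2_15_21, r2_15_22, r2_15_23, r2_15_24, r2_15_25, r2_15_26, r2_15_27, r2_15_28] :=
  rowG_cons _ _ _ _ _ _ (h2_15_15 E) (rowG_cons _ _ _ _ _ _ (h2_15_16 E) (rowG_cons _ _ _ _ _ _ (h2_15_17 E) (rowG_cons _ _ _ _ _ _ (h2_15_18 E) (rowG_cons _ _ _ _ _ _ (h2_15_19 E) (rowG_cons _ _ _ _ _ _ (h2_15_20 E) (rowG_cons _ _ _ _ _ _ (h2_15_21 E) (rowG_cons _ _ _ _ _ _ (h2_15_22 E) (rowG_cons _ _ _ _ _ _ (h2_15_23 E) (rowG_cons _ _ _ _ _ _ (h2_15_24 E) (rowG_cons _ _ _ _ _ _ (h2_15_25 E) (rowG_cons _ _ _ _ _ _ (h2_15_26 E) (rowG_cons _ _ _ _ _ _ (h2_15_27 E) (rowG_cons _ _ _ _ _ _ (h2_15_28 E) (rowG_nil _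 _))))))))))))))

theorem row2_16 (E : Env κ ι) : RowG (ek E lk2) (F2_16 E) [F2_16 E, F2_17 E, F2_18 E, F2_19 E, F2_20 E, F2_21 E, F2_22 E, F2_23 E, F2_24 E, F2_25 E, F2_26 E, F2_27 E, F2_28 E] [r2_16_16, r2_16_17, r2_16_18, r2_16_19, r2_16_20, r2_16_21, r2_16_22, r2_16_23, r2_16_24, r2_16_25, r2_16_26, r2_16_27, r2_16_28] :=
  rowG_cons _ _ _ _ _ _ (h2_16_16 E) (rowG_cons _ _ _ _ _ _ (h2_16_17 E) (rowG_cons _ _ _ _ _ _ (h2_16_18 E) (rowG_cons _ _ _ _ _ _ (h2_16_19 E) (rowG_cons _ _ _ _ _ _ (h2_16_20 E) (rowG_cons _ _ _ _ _ _ (h2_16_21 E) (rowG_cons _ _ _ _ _ _ (h2_16_22 E) (rowG_cons _ _ _ _ _ _ (h2_16_23 E) (rowG_cons _ _ _ _ _ _ (h2_16_24 E) (rowG_cons _ _ _ _ _ _ (h2_16_25 E) (rowG_cons _ _ _ _ _ _ (h2_16_26 E) (rowG_cons _ _ _ _ _ _ (h2_16_27 E) (rowG_cons _ _ _ _ _ _ (h2_16_28 E) (rowG_nil _ _)))))))))))))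

theorem row2_17 (E : Env κ ι) : RowG (ek E lk2) (F2_17 E) [F2_17 E, F2_18 E, F2_19 E, F2_20 E, F2_21 E, F2_22 E, F2_23 E, F2_24 E, F2_25 E, F2_26 E, F2_27 E, F2_28 E] [r2_17_17, r2_17_18, r2_17_19, r2_17_20, r2_17_21, r2_17_22, r2_17_23, r2_17_24, r2_17_25, r2_17_26, r2_17_27, r2_17_28] :=
  rowG_cons _ _ _ _ _ _ (h2_17_17 E) (rowG_cons _ _ _ _ _ _ (h2_17_18 E) (rowG_cons _ _ _ _ _ _ (h2_17_19 E) (rowG_cons _ _ _ _ _ _ (h2_17_20 E) (rowG_cons _ _ _ _ _ _ (h2_17_21 E) (rowG_cons _ _ _ _ _ _ (h2_17_22 E) (rowG_cons _ _ _ _ _ _ (h2_17_23 E) (rowG_cons _ _ _ _ _ _ (h2_17_24 E) (rowG_cons _ _ _ _ _ _ (h2_17_25 E) (rowG_cons _ _ _ _ _ _ (h2_17_26 E) (rowG_cons _ _ _ _ _ _ (h2_17_27 E) (rowG_cons _ _ _ _ _ _ (h2_17_28 E) (rowG_nil _ _))))))))))))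

theorem row2_18 (E : Env κ ι) : RowG (ek E lk2) (F2_18 E) [F2_18 E, F2_19 E, F2_20 E, F2_21 E, F2_22 E, F2_23 E, F2_24 E, F2_25 E, F2_26 E, F2_27 E, F2_28 E] [r2_18_18, r2_18_19, r2_18_20, r2_18_21, r2_18_22, r2_18_23, r2_18_24, r2_18_25, r2_18_26, r2_18_27, r2_18_28] :=
  rowG_cons _ _ _ _ _ _ (h2_18_18 E) (rowG_cons _ _ _ _ _ _ (h2_18_19 E) (rowG_cons _ _ _ _ _ _ (h2_18_20 E) (rowG_cons _ _ _ _ _ _ (h2_18_21 E) (rowG_cons _ _ _ _ _ _ (h2_18_22 E) (rowG_cons _ _ _ _ _ _ (h2_18_23 E) (rowG_cons _ _ _ _ _ _ (h2_18_24 E) (rowG_cons _ _ _ _ _ _ (h2_18_25 E) (rowG_cons _ _ _ _ _ _ (h2_18_26 E) (rowG_cons _ _ _ _ _ _ (h2_18_27 E) (rowG_cons _ _ _ _ _ _ (h2_18_28 E) (rowG_nil _ _)))))))))))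

theorem row2_19 (E : Env κ ι) : RowG (ek E lk2) (F2_19 E) [F2_19 E, F2_20 E, F2_21 E, F2_22 E, F2_23 E, F2_24 E, F2_25 E, F2_26 E, F2_27 E, F2_28 E] [r2_19_19, r2_19_20, r2_19_21, r2_19_22, r2_19_23, r2_19_24, r2_19_25, r2_19_26, r2_19_27, r2_19_28] :=
  rowG_cons _ _ _ _ _ _ (h2_19_19 E) (rowG_cons _ _ _ _ _ _ (h2_19_20 E) (rowG_cons _ _ _ _ _ _ (h2_19_21 E) (rowG_cons _ _ _ _ _ _ (h2_19_22 E) (rowG_cons _ _ _ _ _ _ (h2_19_23 E) (rowG_cons _ _ _ _ _ _ (h2_19_24 E) (rowG_cons _ _ _ _ _ _ (h2_19_25 E) (rowG_cons _ _ _ _ _ _ (h2_19_26 E) (rowG_cons _ _ _ _ _ _ (h2_19_27 E) (rowG_cons _ _ _ _ _ _ (h2_19_28 E) (rowG_nil _ _))))))))))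

theorem row2_20 (E : Env κ ι) : RowG (ek E lk2) (F2_20 E) [F2_20 E, F2_21 E, F2_22 E, F2_23 E, F2_24 E, F2_25 E, F2_26 E, F2_27 E, F2_28 E] [r2_20_20, r2_20_21, r2_20_22, r2_20_23, r2_20_24, r2_20_25, r2_20_26, r2_20_27, r2_20_28] :=
  rowG_cons _ _ _ _ _ _ (h2_20_20 E) (rowG_cons _ _ _ _ _ _ (h2_20_21 E) (rowG_cons _ _ _ _ _ _ (h2_20_22 E) (rowG_cons _ _ _ _ _ _ (h2_20_23 E) (rowG_cons _ _ _ _ _ _ (h2_20_24 E) (rowG_cons _ _ _ _ _ _ (h2_20_25 E) (rowG_cons _ _ _ _ _ _ (h2_20_26 E) (rowG_cons _ _ _ _ _ _ (h2_20_27 E) (rowG_cons _ _ _ _ _ _ (h2_20_28 E) (rowG_nil _ _)))))))))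

theorem row2_21 (E : Env κ ι) : RowG (ek E lk2) (F2_21 E) [F2_21 E, F2_22 E, F2_23 E, F2_24 E, F2_25 E, F2_26 E, F2_27 E, F2_28 E] [r2_21_21, r2_21_22, r2_21_23, r2_21_24, r2_21_25, r2_21_26, r2_21_27, r2_21_28] :=
  rowG_cons _ _ _ _ _ _ (h2_21_21 E) (rowG_cons _ _ _ _ _ _ (h2_21_22 E) (rowG_cons _ _ _ _ _ _ (h2_21_23 E) (rowG_cons _ _ _ _ _ _ (h2_21_24 E) (rowG_cons _ _ _ _ _ _ (h2_21_25 E) (rowG_cons _ _ _ _ _ _ (h2_21_26 E) (rowG_cons _ _ _ _ _ _ (h2_21_27 E) (rowG_cons _ _ _ _ _ _ (h2_21_28 E) (rowG_nil _ _))))))))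

theorem row2_22 (E : Env κ ι) : RowG (ek E lk2) (F2_22 E) [F2_22 E, F2_23 E, F2_24 E, F2_25 E, F2_26 E, F2_27 E, F2_28 E] [r2_22_22, r2_22_23, r2_22_24, r2_22_25, r2_22_26, r2_22_27, r2_22_28] :=
  rowG_cons _ _ _ _ _ _ (h2_22_22 E) (rowG_cons _ _ _ _ _ _ (h2_22_23 E) (rowG_cons _ _ _ _ _ _ (h2_22_24 E) (rowG_cons _ _ _ _ _ _ (h2_22_25 E) (rowG_cons _ _ _ _ _ _ (h2_22_26 E) (rowG_cons _ _ _ _ _ _ (h2_22_27 E) (rowG_cons _ _ _ _ _ _ (h2_22_28 E) (rowG_nil _ _)))))))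

theorem row2_23 (E : Env κ ι) : RowG (ek E lk2) (F2_23 E) [F2_23 E, F2_24 E, F2_25 E, F2_26 E, F2_27 E, F2_28 E] [r2_23_23, r2_23_24, r2_23_25, r2_23_26, r2_23_27, r2_23_28] :=
  rowG_cons _ _ _ _ _ _ (h2_23_23 E) (rowG_cons _ _ _ _ _ _ (h2_23_24 E) (rowG_cons _ _ _ _ _ _ (h2_23_25 E) (rowG_cons _ _ _ _ _ _ (h2_23_26 E) (rowG_cons _ _ _ _ _ _ (h2_23_27 E) (rowG_cons _ _ _ _ _ _ (h2_23_28 E) (rowG_nil _ _))))))

theorem row2_24 (E : Env κ ι) : RowG (ek E lk2) (F2_24 E) [F2_24 E, F2_25 E, F2_26 E, F2_27 E, F2_28 E] [r2_24_24, r2_24_25, r2_24_26, r2_24_27, r2_24_28] :=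
  rowG_cons _ _ _ _ _ _ (h2_24_24 E) (rowG_cons _ _ _ _ _ _ (h2_24_25 E) (rowG_cons _ _ _ _ _ _ (h2_24_26 E) (rowG_cons _ _ _ _ _ _ (h2_24_27 E) (rowG_cons _ _ _ _ _ _ (h2_24_28 E) (rowG_nil _ _)))))

theorem row2_25 (E : Env κ ι) : RowG (ek E lk2) (F2_25 E) [F2_25 E, F2_26 E, F2_27 E, F2_28 E] [r2_25_25, r2_25_26, r2_25_27, r2_25_28] :=
  rowG_cons _ _ _ _ _ _ (h2_25_25 E) (rowG_cons _ _ _ _ _ _ (h2_25_26 E) (rowG_cons _ _ _ _ _ _ (h2_25_27 E) (rowG_cons _ _ _ _ _ _ (h2_25_28 E) (rowG_nil _ _))))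

theorem row2_26 (E : Env κ ι) : RowG (ek E lk2) (F2_26 E) [F2_26 E, F2_27 E, F2_28 E] [r2_26_26, r2_26_27, r2_26_28] :=
  rowG_cons _ _ _ _ _ _ (h2_26_26 E) (rowG_cons _ _ _ _ _ _ (h2_26_27 E) (rowG_cons _ _ _ _ _ _ (h2_26_28 E) (rowG_nil _ _)))

theorem row2_27 (E : Env κ ι) : RowG (ek E lk2) (F2_27 E) [F2_27 E, F2_28 E] [r2_27_27, r2_27_28] :=
  rowG_cons _ _ _ _ _ _ (h2_27_27 E) (rowG_cons _ _ _ _ _ _ (h2_27_28 E) (rowG_nil _ _))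

theorem row2_28 (E : Env κ ι) : RowG (ek E lk2) (F2_28 E) [F2_28 E] [r2_28_28] :=
  rowG_cons _ _ _ _ _ _ (h2_28_28 E) (rowG_nil _ _)

def tab2 : List (List (List (ℕ × ℤ))) := [[r2_0_0, r2_0_1, r2_0_2, r2_0_3, r2_0_4, r2_0_5, r2_0_6, r2_0_7, r2_0_8, r2_0_9, r2_0_10, r2_0_11, r2_0_12, r2_0_13, r2_0_14, r2_0_15, r2_0_16, r2_0_17, r2_0_18, r2_0_19, r2_0_20, r2_0_21, r2_0_22, r2_0_23, r2_0_24, r2_0_25, r2_0_26, r2_0_27, r2_0_28], [r2_1_1, r2_1_2, r2_1_3, r2_1_4, r2_1_5, r2_1_6, r2_1_7, r2_1_8, r2_1_9, r2_1_10, r2_1_11, r2_1_12, r2_1_13, r2_1_14, r2_1_15, r2_1_16, r2_1_17, r2_1_18, r2_1_19, r2_1_20, r2_1_21, r2_1_22, r2_1_23, r2_1_24, r2_1_25, r2_1_26, r2_1_27, r2_1_28], [r2_2_2, r2_2_3, r2_2_4, r2_2_5, r2_2_6, r2_2_7, r2_2_8, r2_2_9, r2_2_10, r2_2_11, r2_2_12, r2_2_13, r2_2_14, r2_2_15, r2_2_16, r2_2_17, r2_2_18, r2_2_19, r2_2_20, r2_2_21,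 r2_2_22, r2_2_23, r2_2_24, r2_2_25, r2_2_26, r2_2_27, r2_2_28], [r2_3_3, r2_3_4, r2_3_5, r2_3_6, r2_3_7, r2_3_8, r2_3_9, r2_3_10, r2_3_11, r2_3_12, r2_3_13, r2_3_14, r2_3_15, r2_3_16, r2_3_17, r2_3_18, r2_3_19, r2_3_20, r2_3_21, r2_3_22, r2_3_23, r2_3_24, r2_3_25, r2_3_26, r2_3_27, r2_3_28], [r2_4_4, r2_4_5, r2_4_6, r2_4_7, r2_4_8, r2_4_9, r2_4_10, r2_4_11, r2_4_12, r2_4_13, r2_4_14, r2_4_15, r2_4_16, r2_4_17, r2_4_18, r2_4_19, r2_4_20, r2_4_21, r2_4_22, r2_4_23, r2_4_24, r2_4_25, r2_4_26, r2_4_27, r2_4_28], [r2_5_5, r2_5_6, r2_5_7, r2_5_8, r2_5_9, r2_5_10, r2_5_11, r2_5_12, r2_5_13, r2_5_14, r2_5_15, r2_5_16, r2_5_17, r2_5_18, r2_5_19, r2_5_20, r2_5_21, r2_5_22, r2_5_23, r2_5_24, r2_5_25, r2_5_26, r2_5_27, r2_5_28], [r2_6_6, r2_6_7, r2_6_8, r2_6_9, r2_6_10, r2_6_11, r2_6_12, r2_6_13, r2_6_14, r2_6_15, r2_6_16, r2_6_17, r2_6_18, r2_6_19,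 r2_6_20, r2_6_21, r2_6_22, r2_6_23, r2_6_24, r2_6_25, r2_6_26, r2_6_27, r2_6_28], [r2_7_7, r2_7_8, r2_7_9, r2_7_10, r2_7_11, r2_7_12, r2_7_13, r2_7_14, r2_7_15, r2_7_16, r2_7_17, r2_7_18, r2_7_19, r2_7_20, r2_7_21, r2_7_22, r2_7_23, r2_7_24, r2_7_25, r2_7_26, r2_7_27, r2_7_28], [r2_8_8, r2_8_9, r2_8_10, r2_8_11, r2_8_12, r2_8_13, r2_8_14, r2_8_15, r2_8_16, r2_8_17, r2_8_18, r2_8_19, r2_8_20, r2_8_21, r2_8_22, r2_8_23, r2_8_24, r2_8_25, r2_8_26, r2_8_27, r2_8_28], [r2_9_9, r2_9_10, r2_9_11, r2_9_12, r2_9_13, r2_9_14, r2_9_15, r2_9_16, r2_9_17, r2_9_18, r2_9_19, r2_9_20, r2_9_21, r2_9_22, r2_9_23, r2_9_24, r2_9_25, r2_9_26, r2_9_27, r2_9_28], [r2_10_10, r2_10_11, r2_10_12, r2_10_13, r2_10_14, r2_10_15, r2_10_16, r2_10_17, r2_10_18, r2_10_19, r2_10_20, r2_10_21, r2_10_22, r2_10_23, r2_10_24, r2_10_25, r2_10_26, r2_10_27, r2_10_28], [r2_11_11,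 r2_11_12, r2_11_13, r2_11_14, r2_11_15, r2_11_16, r2_11_17, r2_11_18, r2_11_19, r2_11_20, r2_11_21, r2_11_22, r2_11_23, r2_11_24, r2_11_25, r2_11_26, r2_11_27, r2_11_28], [r2_12_12, r2_12_13, r2_12_14, r2_12_15, r2_12_16, r2_12_17, r2_12_18, r2_12_19, r2_12_20, r2_12_21, r2_12_22, r2_12_23, r2_12_24, r2_12_25, r2_12_26, r2_12_27, r2_12_28], [r2_13_13, r2_13_14, r2_13_15, r2_13_16, r2_13_17, r2_13_18, r2_13_19, r2_13_20, r2_13_21, r2_13_22, r2_13_23, r2_13_24, r2_13_25, r2_13_26, r2_13_27, r2_13_28], [r2_14_14, r2_14_15, r2_14_16, r2_14_17, r2_14_18, r2_14_19, r2_14_20, r2_14_21, r2_14_22, r2_14_23, r2_14_24, r2_14_25, r2_14_26, r2_14_27, r2_14_28], [r2_15_15, r2_15_16, r2_15_17, r2_15_18, r2_15_19, r2_15_20, r2_15_21, r2_15_22, r2_15_23, r2_15_24, r2_15_25, r2_15_26, r2_15_27, r2_15_28], [r2_16_16, r2_16_17, r2_16_18, r2_16_19, r2_16_20,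 r2_16_21, r2_16_22, r2_16_23, r2_16_24, r2_16_25, r2_16_26, r2_16_27, r2_16_28], [r2_17_17, r2_17_18, r2_17_19, r2_17_20, r2_17_21, r2_17_22, r2_17_23, r2_17_24, r2_17_25, r2_17_26, r2_17_27, r2_17_28], [r2_18_18, r2_18_19, r2_18_20, r2_18_21, r2_18_22, r2_18_23, r2_18_24, r2_18_25, r2_18_26, r2_18_27, r2_18_28], [r2_19_19, r2_19_20, r2_19_21, r2_19_22, r2_19_23, r2_19_24, r2_19_25, r2_19_26, r2_19_27, r2_19_28], [r2_20_20, r2_20_21, r2_20_22, r2_20_23, r2_20_24, r2_20_25, r2_20_26, r2_20_27, r2_20_28], [r2_21_21, r2_21_22, r2_21_23, r2_21_24, r2_21_25, r2_21_26, r2_21_27, r2_21_28], [r2_22_22, r2_22_23, r2_22_24, r2_22_25, r2_22_26, r2_22_27, r2_22_28], [r2_23_23, r2_23_24, r2_23_25, r2_23_26, r2_23_27, r2_23_28], [r2_24_24, r2_24_25, r2_24_26, r2_24_27, r2_24_28], [r2_25_25, r2_25_26, r2_25_27, r2_25_28], [r2_26_26, r2_26_27, r2_26_28],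 [r2_27_27, r2_27_28], [r2_28_28]]

theorem tri2 (E : Env κ ι) : TriG (ek E lk2) [F2_0 E, F2_1 E, F2_2 E, F2_3 E, F2_4 E, F2_5 E, F2_6 E, F2_7 E, F2_8 E, F2_9 E, F2_10 E, F2_11 E, F2_12 E, F2_13 E, F2_14 E, F2_15 E, F2_16 E, F2_17 E, F2_18 E, F2_19 E, F2_20 E, F2_21 E, F2_22 E, F2_23 E, F2_24 E, F2_25 E, F2_26 E, F2_27 E, F2_28 E] tab2 := by
  refine triG_cons _ _ _ _ _ (row2_0 E) ?_
  refine triG_cons _ _ _ _ _ (row2_1 E) ?_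
  refine triG_cons _ _ _ _ _ (row2_2 E) ?_
  refine triG_cons _ _ _ _ _ (row2_3 E) ?_
  refine triG_cons _ _ _ _ _ (row2_4 E) ?_
  refine triG_cons _ _ _ _ _ (row2_5 E) ?_
  refine triG_cons _ _ _ _ _ (row2_6 E) ?_
  refine triG_cons _ _ _ _ _ (row2_7 E) ?_
  refine triG_cons _ _ _ _ _ (row2_8 E) ?_
  refine triG_cons _ _ _ _ _ (row2_9 E) ?_
  refine triG_cons _ _ _ _ _ (row2_10 E) ?_
  refine triG_cons _ _ _ _ _ (row2_11 E) ?_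
  refine triG_cons _ _ _ _ _ (row2_12 E) ?_
  refine triG_cons _ _ _ _ _ (row2_13 E) ?_
  refine triG_cons _ _ _ _ _ (row2_14 E) ?_
  refine triG_cons _ _ _ _ _ (row2_15 E) ?_
  refine triG_cons _ _ _ _ _ (row2_16 E) ?_
  refine triG_cons _ _ _ _ _ (row2_17 E) ?_
  refine triG_cons _ _ _ _ _ (row2_18 E) ?_
  refine triG_cons _ _ _ _ _ (row2_19 E) ?_
  refine triG_cons _ _ _ _ _ (row2_20 E) ?_
  refine triG_cons _ _ _ _ _ (row2_21 E) ?_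
  refine triG_cons _ _ _ _ _ (row2_22 E) ?_
  refine triG_cons _ _ _ _ _ (row2_23 E) ?_
  refine triG_cons _ _ _ _ _ (row2_24 E) ?_
  refine triG_cons _ _ _ _ _ (row2_25 E) ?_
  refine triG_cons _ _ _ _ _ (row2_26 E) ?_
  refine triG_cons _ _ _ _ _ (row2_27 E) ?_
  refine triG_cons _ _ _ _ _ (row2_28 E) ?_
  exact triG_nil _

end

def lk3 : List Key := [
  (2, 6, [(0, [0], [0, 1]), (0, [1], [0, 2]), (0, [1], [1, 3]), (0, [0], [4, 5]), (1, [], [2, 4]), (4, [], [3]), (4, [], [5])]),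
  (2, 6, [(0, [0], [0, 1]), (0, [0], [2, 3]), (0, [1], [0, 4]), (0, [1], [4, 5]), (1, [], [2, 5]), (4, [], [1]), (4, [], [3])]),
  (2, 6, [(0, [0], [0, 1]), (0, [1], [2, 3]), (0, [0], [2, 4]), (0, [1], [0, 5]), (1, [], [1, 3]), (4, [], [5]), (4, [], [4])]),
  (2, 6, [(0, [0], [0, 1]), (0, [0], [2, 3]), (0, [1], [2, 4]), (0, [1], [0, 5]), (1, [], [1, 3]), (4, [], [5]), (4, [], [4])]),
  (2, 6, [(0, [0], [0, 1]), (0, [0], [2, 3]), (0, [1], [0, 4]), (0, [1], [4, 5]), (1, [], [1, 2]), (4, [], [3]), (4, [], [5])]),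
  (2, 6, [(0, [0], [0, 1]), (0, [0], [2, 3]), (0, [1], [0, 4]), (0, [1], [2, 4]), (1, [], [1, 5]), (4, [], [3]), (4, [], [5])]),
  (3, 7, [(0, [0], [0, 1]), (0, [0], [0, 2]), (0, [1], [3, 2]), (4, [], [1]), (0, [2], [4, 5]), (0, [2], [4, 6]), (0, [1], [3, 6]), (4, [], [5])]),
  (3, 7, [(0, [0], [0, 1]), (0, [0], [0, 2]), (0, [1], [3, 2]), (4, [], [1]), (0, [2], [4, 5]), (0, [2], [3, 4]), (0, [1], [5, 6]), (4, [], [6])]),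
  (2, 7, [(0, [0], [0, 1]), (0, [0], [0, 2]), (0, [1], [3, 2]), (4, [], [1]), (0, [1], [4, 5]), (1, [], [4, 6]), (1, [], [3, 6]), (4, [], [5])]),
  (2, 7, [(0, [0], [0, 1]), (0, [0], [0, 2]), (0, [1], [3, 2]), (4, [], [1]), (0, [1], [3, 4]), (1, [], [5, 6]), (1, [], [4, 5]), (4, [], [6])]),
  (2, 6, [(0, [0], [0, 1]), (0, [0], [0, 2]), (0, [1], [3, 2]), (4, [], [1]), (0, [1], [3, 4]), (1, [], [4, 5]), (4, [], [5])]),
  (3, 7, [(0, [0], [0, 1]), (0, [0], [2, 3]), (0, [1], [0, 3]), (4, [], [1]), (0, [2], [4, 5]), (0, [2], [2, 4]), (0, [1], [5, 6]), (4, [], [6])]),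
  (2, 7, [(0, [0], [0, 1]), (0, [0], [2, 3]), (0, [1], [0, 3]), (4, [], [1]), (0, [1], [4, 5]), (1, [], [4, 6]), (1, [], [2, 6]), (4, [], [5])]),
  (3, 7, [(0, [0], [0, 1]), (0, [0], [2, 0]), (0, [1], [1, 3]), (4, [], [3]), (0, [2], [4, 5]), (0, [2], [2, 4]), (0, [1], [5, 6]), (4, [], [6])]),
  (2, 7, [(0, [0], [0, 1]), (0, [0], [2, 0]), (0, [1], [1, 3]), (4, [], [3]), (0, [1], [4, 5]), (1, [], [4, 6]), (1, [], [2, 6]), (4, [], [5])]),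
  (2, 7, [(0, [0], [0, 1]), (0, [0], [2, 0]), (0, [1], [1, 3]), (4, [], [3]), (0, [1], [2, 4]), (1, [], [5, 6]), (1, [], [4, 5]), (4, [], [6])]),
  (1, 7, [(0, [0], [0, 1]), (1, [], [0, 2]), (1, [], [3, 2]), (4, [], [1]), (0, [0], [4, 5]), (1, [], [4, 6]), (1, [], [3, 6]), (4, [], [5])]),
  (1, 7, [(0, [0], [0, 1]), (1, [], [0, 2]), (1, [], [3, 2]), (4, [], [1]), (0, [0], [4, 5]), (1, [], [4, 6]), (1, [], [3, 5]), (4, [], [6])]),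
  (1, 6, [(0, [0], [0, 1]), (1, [], [0, 2]), (1, [], [3, 2]), (4, [], [1]), (0, [0], [4, 5]), (1, [], [3, 4]), (4, [], [5])]),
  (1, 7, [(0, [0], [0, 1]), (1, [], [0, 2]), (1, [], [3, 2]), (4, [], [1]), (0, [0], [3, 4]), (1, [], [5, 6]), (1, [], [4, 5]), (4, [], [6])]),
  (1, 6, [(0, [0], [0, 1]), (1, [], [0, 2]), (1, [], [3, 2]), (4, [], [1]), (0, [0], [3, 4]), (1, [], [4, 5]), (4, [], [5])]),
  (1, 5, [(0, [0], [0, 1]), (1, [], [0, 2]), (1, [], [3, 2]), (4, [], [1]), (0, [0], [3, 4]), (4, [], [4])]),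
  (1, 7, [(0, [0], [0, 1]), (1, [], [0, 2]), (1, [], [3, 1]), (4, [], [2]), (0, [0], [4, 5]), (1, [], [4, 6]), (1, [], [3, 5]), (4, [], [6])]),
  (1, 7, [(0, [0], [0, 1]), (1, [], [0, 2]), (1, [], [3, 1]), (4, [], [2]), (0, [0], [3, 4]), (1, [], [5, 6]), (1, [], [4, 5]), (4, [], [6])]),
  (1, 6, [(0, [0], [0, 1]), (1, [], [0, 2]), (1, [], [3, 1]), (4, [], [2]), (0, [0], [3, 4]), (1, [], [4, 5]), (4, [], [5])]),
  (1, 5, [(0, [0], [0, 1]), (1, [], [0, 2]), (1, [], [3, 1]), (4, [], [2]), (0, [0], [3, 4]), (4, [], [4])]),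
  (1, 6, [(0, [0], [0, 1]), (1, [], [2, 0]), (4, [], [1]), (0, [0], [2, 3]), (1, [], [4, 5]), (1, [], [3, 4]), (4, [], [5])]),
  (1, 7, [(0, [0], [0, 1]), (1, [], [2, 3]), (1, [], [1, 2]), (4, [], [3]), (0, [0], [0, 4]), (1, [], [5, 6]), (1, [], [4, 5]), (4, [], [6])]),
  (1, 6, [(0, [0], [0, 1]), (1, [], [2, 3]), (1, [], [1, 2]), (4, [], [3]), (0, [0], [0, 4]), (1, [], [4, 5]), (4, [], [5])]),
  (1, 5, [(0, [0], [0, 1]), (1, [], [1, 2]), (4, [], [2]), (0, [0], [0, 3]), (1, [], [3, 4]), (4, [], [4])]),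
  (3, 7, [(0, [0], [0, 1]), (0, [0], [2, 0]), (0, [1], [3, 1]), (4, [], [4]), (0, [2], [5, 6]), (0, [2], [2, 5]), (0, [1], [3, 6]), (4, [], [4])]),
  (3, 7, [(0, [0], [0, 1]), (0, [0], [2, 0]), (0, [1], [3, 1]), (4, [], [4]), (0, [2], [5, 6]), (0, [2], [3, 5]), (0, [1], [2, 6]), (4, [], [4])]),
  (3, 7, [(0, [0], [0, 1]), (0, [0], [2, 0]), (0, [1], [3, 1]), (4, [], [4]), (0, [2], [5, 6]), (0, [2], [2, 3]), (0, [1], [4, 5]), (4, [], [6])]),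
  (3, 7, [(0, [0], [0, 1]), (0, [0], [2, 0]), (0, [1], [3, 1]), (4, [], [4]), (0, [2], [5, 6]), (0, [2], [3, 4]), (0, [1], [2, 5]), (4, [], [6])]),
  (3, 7, [(0, [0], [0, 1]), (0, [0], [2, 0]), (0, [1], [3, 1]), (4, [], [4]), (0, [2], [3, 5]), (0, [2], [2, 6]), (0, [1], [4, 6]), (4, [], [5])]),
  (3, 7, [(0, [0], [0, 1]), (0, [0], [2, 0]), (0, [1], [3, 1]), (4, [], [4]), (0, [2], [4, 5]), (0, [2], [2, 6]), (0, [1], [3, 6]), (4, [], [5])]),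
  (3, 7, [(0, [0], [0, 1]), (0, [0], [2, 0]), (0, [1], [3, 1]), (4, [], [4]), (0, [2], [4, 5]), (0, [2], [3, 6]), (0, [1], [2, 6]), (4, [], [5])]),
  (2, 7, [(0, [0], [0, 1]), (0, [0], [2, 0]), (0, [1], [3, 1]), (4, [], [4]), (0, [1], [5, 6]), (1, [], [2, 5]), (1, [], [3, 4]), (4, [], [6])]),
  (2, 7, [(0, [0], [0, 1]), (0, [0], [2, 0]), (0, [1], [3, 1]), (4, [], [4]), (0, [1], [5, 6]), (1, [], [3, 5]), (1, [], [2, 4]), (4, [], [6])]),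
  (2, 7, [(0, [0], [0, 1]), (0, [0], [2, 0]), (0, [1], [3, 1]), (4, [], [4]), (0, [1], [5, 6]), (1, [], [4, 5]), (1, [], [2, 3]), (4, [], [6])]),
  (2, 7, [(0, [0], [0, 1]), (0, [0], [2, 0]), (0, [1], [3, 1]), (4, [], [4]), (0, [1], [2, 5]), (1, [], [5, 6]), (1, [], [3, 6]), (4, [], [4])]),
  (2, 7, [(0, [0], [0, 1]), (0, [0], [2, 0]), (0, [1], [3, 1]), (4, [], [4]), (0, [1], [3, 5]), (1, [], [5, 6]), (1, [], [2, 6]), (4, [], [4])]),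
  (2, 7, [(0, [0], [0, 1]), (0, [0], [2, 0]), (0, [1], [3, 1]), (4, [], [4]), (0, [1], [2, 5]), (1, [], [5, 6]), (1, [], [3, 4]), (4, [], [6])]),
  (2, 7, [(0, [0], [0, 1]), (0, [0], [2, 0]), (0, [1], [3, 1]), (4, [], [4]), (0, [1], [3, 5]), (1, [], [5, 6]), (1, [], [2, 4]), (4, [], [6])]),
  (2, 7, [(0, [0], [0, 1]), (0, [0], [2, 0]), (0, [1], [3, 1]), (4, [], [4]), (0, [1], [4, 5]), (1, [], [2, 6]), (1, [], [3, 6]), (4, [], [5])]),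
  (2, 7, [(0, [0], [0, 1]), (0, [0], [2, 0]), (0, [1], [3, 1]), (4, [], [4]), (0, [1], [2, 5]), (1, [], [4, 6]), (1, [], [3, 5]), (4, [], [6])]),
  (2, 7, [(0, [0], [0, 1]), (0, [0], [2, 0]), (0, [1], [3, 1]), (4, [], [4]), (0, [1], [3, 5]), (1, [], [4, 6]), (1, [], [2, 5]), (4, [], [6])]),
  (2, 6, [(0, [0], [0, 1]), (0, [0], [2, 0]), (0, [1], [3, 1]), (4, [], [4]), (0, [1], [2, 5]), (1, [], [3, 5]), (4, [], [4])]),
  (2, 6, [(0, [0], [0, 1]), (0, [0], [2, 0]), (0, [1], [3, 1]), (4, [], [4]), (0, [1], [3, 5]), (1, [], [2, 5]), (4, [], [4])]),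
  (2, 6, [(0, [0], [0, 1]), (0, [0], [2, 0]), (0, [1], [3, 1]), (4, [], [4]), (0, [1], [4, 5]), (1, [], [2, 3]), (4, [], [5])]),
  (3, 7, [(0, [0], [0, 1]), (0, [0], [2, 3]), (0, [1], [4, 0]), (4, [], [1]), (0, [2], [5, 6]), (0, [2], [2, 4]), (0, [1], [3, 5]), (4, [], [6])]),
  (3, 7, [(0, [0], [0, 1]), (0, [0], [2, 3]), (0, [1], [4, 0]), (4, [], [1]), (0, [2], [2, 5]), (0, [2], [3, 6]), (0, [1], [5, 6]), (4, [], [4])]),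
  (3, 7, [(0, [0], [0, 1]), (0, [0], [2, 3]), (0, [1], [4, 0]), (4, [], [1]), (0, [2], [2, 5]), (0, [2], [4, 6]), (0, [1], [3, 6]), (4, [], [5])]),
  (2, 7, [(0, [0], [0, 1]), (0, [0], [2, 3]), (0, [1], [4, 0]), (4, [], [1]), (0, [1], [2, 5]), (1, [], [5, 6]), (1, [], [4, 6]), (4, [], [3])]),
  (2, 7, [(0, [0], [0, 1]), (0, [0], [2, 3]), (0, [1], [4, 0]), (4, [], [1]), (0, [1], [2, 5]), (1, [], [5, 6]), (1, [], [3, 4]), (4, [], [6])]),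
  (2, 7, [(0, [0], [0, 1]), (0, [0], [2, 3]), (0, [1], [4, 0]), (4, [], [1]), (0, [1], [2, 5]), (1, [], [3, 6]), (1, [], [4, 6]), (4, [], [5])]),
  (2, 7, [(0, [0], [0, 1]), (0, [0], [2, 3]), (0, [1], [4, 0]), (4, [], [1]), (0, [1], [2, 5]), (1, [], [3, 6]), (1, [], [4, 5]), (4, [], [6])]),
  (2, 7, [(0, [0], [0, 1]), (0, [0], [2, 3]), (0, [1], [1, 3]), (4, [], [4]), (0, [1], [5, 6]), (1, [], [0, 5]), (1, [], [2, 4]), (4, [], [6])]),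
  (2, 7, [(0, [0], [0, 1]), (0, [0], [2, 3]), (0, [1], [1, 3]), (4, [], [4]), (0, [1], [5, 6]), (1, [], [4, 5]), (1, [], [0, 2]), (4, [], [6])]),
  (2, 7, [(0, [0], [0, 1]), (0, [0], [2, 3]), (0, [1], [1, 3]), (4, [], [4]), (0, [1], [4, 5]), (1, [], [0, 6]), (1, [], [2, 6]), (4, [], [5])]),
  (2, 6, [(0, [0], [0, 1]), (0, [0], [2, 3]), (0, [1], [1, 3]), (4, [], [4]), (0, [1], [4, 5]), (1, [], [0, 2]), (4, [], [5])]),
  (1, 7, [(0, [0], [0, 1]), (1, [], [2, 0]), (1, [], [3, 1]), (4, [], [4]), (0, [0], [5, 6]), (1, [], [2, 5]), (1, [], [3, 6]), (4, [], [4])]),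
  (1, 7, [(0, [0], [0, 1]), (1, [], [2, 0]), (1, [], [3, 1]), (4, [], [4]), (0, [0], [2, 5]), (1, [], [3, 6]), (1, [], [4, 6]), (4, [], [5])]),
  (1, 7, [(0, [0], [0, 1]), (1, [], [2, 0]), (1, [], [3, 1]), (4, [], [4]), (0, [0], [2, 5]), (1, [], [4, 6]), (1, [], [3, 5]), (4, [], [6])]),
  (1, 6, [(0, [0], [0, 1]), (1, [], [2, 0]), (1, [], [3, 1]), (4, [], [4]), (0, [0], [2, 5]), (1, [], [3, 5]), (4, [], [4])]),
  (1, 7, [(0, [0], [0, 1]), (1, [], [2, 0]), (1, [], [3, 1]), (4, [], [4]), (0, [0], [2, 3]), (1, [], [5, 6]), (1, [], [4, 5]), (4, [], [6])]),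
  (1, 6, [(0, [0], [0, 1]), (1, [], [2, 0]), (1, [], [3, 1]), (4, [], [4]), (0, [0], [2, 3]), (1, [], [4, 5]), (4, [], [5])]),
  (1, 5, [(0, [0], [0, 1]), (1, [], [2, 0]), (1, [], [3, 1]), (4, [], [4]), (0, [0], [2, 3]), (4, [], [4])]),
  (1, 7, [(0, [0], [0, 1]), (1, [], [1, 2]), (1, [], [3, 2]), (4, [], [4]), (0, [0], [0, 5]), (1, [], [5, 6]), (1, [], [3, 6]), (4, [], [4])]),
  (1, 7, [(0, [0], [0, 1]), (1, [], [1, 2]), (1, [], [3, 2]), (4, [], [4]), (0, [0], [0, 5]), (1, [], [5, 6]), (1, [], [3, 4]), (4, [], [6])]),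
  (1, 7, [(0, [0], [0, 1]), (1, [], [1, 2]), (1, [], [3, 2]), (4, [], [4]), (0, [0], [0, 5]), (1, [], [4, 6]), (1, [], [3, 5]), (4, [], [6])]),
  (1, 6, [(0, [0], [0, 1]), (1, [], [1, 2]), (1, [], [3, 2]), (4, [], [4]), (0, [0], [0, 5]), (1, [], [3, 5]), (4, [], [4])]),
  (1, 7, [(0, [0], [0, 1]), (1, [], [1, 2]), (1, [], [3, 2]), (4, [], [4]), (0, [0], [0, 3]), (1, [], [5, 6]), (1, [], [4, 5]), (4, [], [6])]),
  (1, 6, [(0, [0], [0, 1]), (1, [], [1, 2]), (1, [], [3, 2]), (4, [], [4]), (0, [0], [0, 3]), (1, [], [4, 5]), (4, [], [5])]),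
  (1, 5, [(0, [0], [0, 1]), (1, [], [1, 2]), (1, [], [3, 2]), (4, [], [4]), (0, [0], [0, 3]), (4, [], [4])])]

def kl3 : List ℕ := [84, 85, 86, 87, 89, 90, 109, 112, 114, 117, 118, 126, 128, 144, 145, 150, 162, 163, 165, 168, 169, 170, 172, 177, 178, 179, 189, 197, 198, 200, 216, 217, 220, 221, 223, 224, 225, 228, 229, 230, 231, 232, 233, 234, 235, 236, 237, 238, 239, 240, 284, 285, 287, 294, 295, 296, 297, 306, 307, 310, 313, 345, 348, 350, 351, 356, 357, 358, 366, 367, 369, 370, 376, 377, 378]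

def m3_0 : Base := (1, 2, [(0, [1], [3, 4]), (0, [1], [0, 3]), (0, [0], [1, 4]), (4, [], [2])])

def l3_0 : Cov := [(6, 1, 2, [(0, [1], [3, 4]), (0, [1], [0, 3]), (0, [0], [1, 4]), (4, [], [2])]),
  (-6, 1, 2, [(0, [1], [3, 4]), (0, [1], [0, 3]), (0, [0], [2, 4]), (4, [], [1])]),
  (-6, 1, 2, [(0, [1], [3, 4]), (0, [1], [1, 3]), (0, [0], [0, 4]), (4, [], [2])]),
  (6, 1, 2, [(0, [1], [3, 4]), (0, [1], [1, 3]), (0, [0], [2, 4]), (4, [], [0])]),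
  (6, 1, 2, [(0, [1], [3, 4]), (0, [1], [2, 3]), (0, [0], [0, 4]), (4, [], [1])]),
  (-6, 1, 2, [(0, [1], [3, 4]), (0, [1], [2, 3]), (0, [0], [1, 4]), (4, [], [0])])]

def z3_0 : Cov := []

def w3_0 : List (List Wit) := [[(0, 0, 0, 16, 16), (1, 0, 0, 16, 16), (2, 0, 0, 16, 16), (3, 0, 0, 16, 16), (4, 0, 0, 16, 16), (5, 0, 0, 16, 16)]]

def m3_1 : Base := (1, 2, [(0, [1], [0, 3]), (0, [1], [1, 4]), (0, [0], [2, 4]), (4, [], [3])])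

def l3_1 : Cov := [(6, 1, 2, [(0, [1], [0, 3]), (0, [1], [1, 4]), (0, [0], [2, 4]), (4, [], [3])]),
  (-6, 1, 2, [(0, [1], [0, 3]), (0, [1], [2, 4]), (0, [0], [1, 4]), (4, [], [3])]),
  (-6, 1, 2, [(0, [1], [1, 3]), (0, [1], [0, 4]), (0, [0], [2, 4]), (4, [], [3])]),
  (6, 1, 2, [(0, [1], [1, 3]), (0, [1], [2, 4]), (0, [0], [0, 4]), (4, [], [3])]),
  (6, 1, 2, [(0, [1], [2, 3]), (0, [1], [0, 4]), (0, [0], [1, 4]), (4, [], [3])]),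
  (-6, 1, 2, [(0, [1], [2, 3]), (0, [1], [1, 4]), (0, [0], [0, 4]), (4, [], [3])])]

def z3_1 : Cov := []

def w3_1 : List (List Wit) := [[(0, 0, 0, 16, 16), (1, 0, 0, 16, 16), (2, 0, 0, 16, 16), (3, 0, 0, 16, 16), (4, 0, 0, 16, 16), (5, 0, 0, 16, 16)]]

def m3_2 : Base := (0, 2, [(0, [0], [0, 3]), (1, [], [3, 4]), (1, [], [1, 4]), (4, [], [2])])

def l3_2 : Cov := [(6, 0, 2, [(0, [0], [0, 3]), (1, [], [3, 4]), (1, [], [1, 4]), (4, [], [2])]),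
  (-6, 0, 2, [(0, [0], [0, 3]), (1, [], [3, 4]), (1, [], [2, 4]), (4, [], [1])]),
  (-6, 0, 2, [(0, [0], [1, 3]), (1, [], [3, 4]), (1, [], [0, 4]), (4, [], [2])]),
  (6, 0, 2, [(0, [0], [1, 3]), (1, [], [3, 4]), (1, [], [2, 4]), (4, [], [0])]),
  (6, 0, 2, [(0, [0], [2, 3]), (1, [], [3, 4]), (1, [], [0, 4]), (4, [], [1])]),
  (-6, 0, 2, [(0, [0], [2, 3]), (1, [], [3, 4]), (1, [], [1, 4]), (4, [], [0])])]

def z3_2 : Cov := []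

def w3_2 : List (List Wit) := [[(0, 0, 0, 16, 16), (1, 0, 0, 16, 16), (2, 0, 0, 16, 16), (3, 0, 0, 16, 16), (4, 0, 0, 16, 16), (5, 0, 0, 16, 16)]]

def m3_3 : Base := (0, 2, [(0, [0], [0, 3]), (1, [], [1, 4]), (1, [], [2, 3]), (4, [], [4])])

def l3_3 : Cov := [(6, 0, 2, [(0, [0], [0, 3]), (1, [], [1, 4]), (1, [], [2, 3]), (4, [], [4])]),
  (-6, 0, 2, [(0, [0], [0, 3]), (1, [], [2, 4]), (1, [], [1, 3]), (4, [], [4])]),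
  (-6, 0, 2, [(0, [0], [1, 3]), (1, [], [0, 4]), (1, [], [2, 3]), (4, [], [4])]),
  (6, 0, 2, [(0, [0], [1, 3]), (1, [], [2, 4]), (1, [], [0, 3]), (4, [], [4])]),
  (6, 0, 2, [(0, [0], [2, 3]), (1, [], [0, 4]), (1, [], [1, 3]), (4, [], [4])]),
  (-6, 0, 2, [(0, [0], [2, 3]), (1, [], [1, 4]), (1, [], [0, 3]), (4, [], [4])])]

def z3_3 : Cov := []

def w3_3 : List (List Wit) := [[(0, 0, 0, 16, 16), (1, 0, 0, 16, 16), (2, 0, 0, 16, 16), (3, 0, 0, 16, 16), (4, 0, 0, 16, 16), (5, 0, 0, 16, 16)]]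

def m3_4 : Base := (0, 1, [(0, [0], [0, 3]), (1, [], [1, 3]), (4, [], [2])])

def l3_4 : Cov := [(6, 0, 1, [(0, [0], [0, 3]), (1, [], [1, 3]), (4, [], [2])]),
  (-6, 0, 1, [(0, [0], [0, 3]), (1, [], [2, 3]), (4, [], [1])]),
  (-6, 0, 1, [(0, [0], [1, 3]), (1, [], [0, 3]), (4, [], [2])]),
  (6, 0, 1, [(0, [0], [1, 3]), (1, [], [2, 3]), (4, [], [0])]),
  (6, 0, 1, [(0, [0], [2, 3]), (1, [], [0, 3]), (4, [], [1])]),
  (-6, 0, 1, [(0, [0], [2, 3]), (1, [], [1, 3]), (4, [], [0])])]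

def z3_4 : Cov := []

def w3_4 : List (List Wit) := [[(0, 0, 0, 0, 0), (1, 0, 0, 0, 0), (2, 0, 0, 0, 0), (3, 0, 0, 0, 0), (4, 0, 0, 0, 0), (5, 0, 0, 0, 0)]]

theorem tr3 : trK keys lk3 kl3 = true := by
  decide +kernel

theorem x3_0 : expB 1 3 dg0 dg3 m3_0 (l3_0 ++ z3_0) w3_0 = true := by
  decide +kernel

theorem x3_1 : expB 1 3 dg0 dg3 m3_1 (l3_1 ++ z3_1) w3_1 = true := by
  decide +kernel

theorem x3_2 : expB 1 3 dg0 dg3 m3_2 (l3_2 ++ z3_2) w3_2 = true := by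
  decide +kernel

theorem x3_3 : expB 1 3 dg0 dg3 m3_3 (l3_3 ++ z3_3) w3_3 = true := by
  decide +kernel

theorem x3_4 : expB 1 3 dg0 dg3 m3_4 (l3_4 ++ z3_4) w3_4 = true := by
  decide +kernel

theorem t3_0_0 : chkS lk3 1 3 [(1, m3_0)] l3_0
  [(30, 513, 513, 105972786, 106041411), (13, 513, 513, 88147506, 40177731), (31, 513, 513, 105972786, 106041411), (7, 513, 513, 88213041, 40178691), (7, 33, 258, 33898851, 21169701), (6, 513, 513, 104990001, 103093251)]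
  [(6, -6), (7, 12), (13, -6), (30, 6), (31, -6)] = true := by
  decide +kernel

theorem t3_0_1 : chkS lk3 1 3 [(1, m3_0)] l3_1
  [(11, 288, 288, 6439221, 84087846), (13, 258, 33, 87164481, 39932931), (34, 513, 513, 105972786, 106041411), (33, 513, 513, 88147506, 40177731), (35, 513, 513, 105972786, 106041411), (36, 513, 513, 105972786, 106041411)]
  [(11, 6), (13, -6), (33, 6), (34, -6), (35, 6), (36, -6)] = true := by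
  decide +kernel

theorem t3_0_2 : chkS lk3 1 3 [(1, m3_0)] l3_2
  [(40, 1, 1, 105972786, 106041411), (15, 1, 1, 88147506, 40177731), (41, 1, 1, 105972786, 106041411), (9, 1, 1, 88213041, 40178691), (14, 1, 1, 104924466, 103092291), (8, 1, 1, 104990001, 103093251)]
  [(8, -6), (9, 6), (14, 6), (15, -6), (40, 6), (41, -6)] = true := by
  decide +kernel

theorem t3_0_3 : chkS lk3 1 3 [(1, m3_0)] l3_3
  [(42, 1, 1, 72418866, 39194691), (45, 1, 1, 105972786, 106041411), (43, 1, 1, 72418866, 39194691), (46, 1, 1, 105972786, 106041411), (38, 1, 1, 72418866, 39194691), (37, 1, 1, 72418866, 39194691)]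
  [(37, -6), (38, 6), (42, 6), (43, -6), (45, -6), (46, 6)] = true := by
  decide +kernel

theorem t3_0_4 : chkS lk3 1 3 [(1, m3_0)] l3_4
  [(47, 1, 1, 5309490, 5378115), (5, 16, 16, 1197360, 2298960), (48, 1, 1, 5309490, 5378115), (10, 1, 1, 4326705, 2429955), (1, 16, 16, 2114325, 206100), (4, 16, 16, 2114325, 206100)]
  [(1, 6), (4, -6), (5, -6), (10, 6), (47, 6), (48, -6)] = true := by
  decide +kernel

theorem t3_1_1 : chkS lk3 1 3 [(1, m3_1)] l3_1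
  [(32, 528, 528, 39927861, 84088386), (51, 258, 33, 88282656, 40190256), (34, 528, 528, 38879286, 5445186), (52, 513, 513, 72554016, 39207216), (52, 33, 258, 51662946, 20209746), (50, 513, 513, 73602336, 86393136)]
  [(32, 6), (34, -6), (50, -6), (51, -6), (52, 12)] = true := by
  decide +kernel

theorem t3_1_2 : chkS lk3 1 3 [(1, m3_1)] l3_2
  [(55, 1, 1, 104994096, 103093296), (53, 1, 1, 104994096, 103093296), (12, 16, 16, 102781236, 103814436), (59, 16, 16, 102846516, 103814466), (14, 16, 16, 102846516, 103814466), (44, 16, 16, 102846516, 103814466)]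
  [(12, -6), (14, 6), (44, -6), (53, -6), (55, 6), (59, 6)] = true := by
  decide +kernel

theorem t3_1_3 : chkS lk3 1 3 [(1, m3_1)] l3_3
  [(56, 1, 1, 104994096, 103093296), (54, 1, 1, 104994096, 103093296), (58, 16, 16, 69296181, 50730306), (57, 16, 16, 67330581, 50741781), (39, 16, 16, 69296181, 50730306), (37, 16, 16, 69296181, 50730306)]
  [(37, -6), (39, 6), (54, -6), (56, 6), (57, 6), (58, -6)] = true := by
  decide +kernel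

theorem t3_1_4 : chkS lk3 1 3 [(1, m3_1)] l3_4
  [(2, 1, 1, 3163410, 2314260), (3, 16, 16, 3162450, 1265700), (0, 1, 1, 2183940, 3155265), (60, 16, 16, 2183220, 3151170), (1, 1, 1, 5256210, 5386260), (49, 16, 16, 2183220, 3151170)]
  [(0, -6), (1, 6), (2, 6), (3, -6), (49, -6), (60, 6)] = true := by
  decide +kernel

theorem t3_2_2 : chkS lk3 1 3 [(1, m3_2)] l3_2
  [(68, 0, 0, 106042416, 106042416), (27, 0, 0, 88217136, 40178736), (61, 0, 0, 38999136, 22169136), (19, 0, 0, 88213041, 40178691), (19, 0, 0, 33898851, 21169701), (16, 0, 0, 104990001, 103093251)]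
  [(16, -6), (19, 12), (27, -6), (61, -6), (68, 6)] = true := by
  decide +kernel

theorem t3_2_3 : chkS lk3 1 3 [(1, m3_2)] l3_3
  [(69, 0, 0, 72488496, 39195696), (70, 0, 0, 106042416, 106042416), (22, 0, 0, 37951056, 34948656), (63, 0, 0, 102962256, 101860656), (17, 0, 0, 100880676, 103825701), (62, 0, 0, 69408096, 19285296)]
  [(17, 6), (22, -6), (62, -6), (63, 6), (69, 6), (70, -6)] = true := by
  decide +kernel

theorem t3_2_4 : chkS lk3 1 3 [(1, m3_2)] l3_4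
  [(71, 0, 0, 5379120, 5379120), (28, 0, 0, 4330800, 2430000), (64, 0, 0, 2298960, 1197360), (20, 0, 0, 4326705, 2429955), (26, 0, 0, 274770, 1323045), (18, 0, 0, 4326705, 2429955)]
  [(18, -6), (20, 6), (26, 6), (28, -6), (64, -6), (71, 6)] = true := by
  decide +kernel

theorem t3_3_3 : chkS lk3 1 3 [(1, m3_3)] l3_3
  [(72, 0, 0, 104075856, 101995056), (27, 0, 0, 54923856, 68510256), (22, 0, 0, 39195456, 72427056), (23, 0, 0, 101860611, 102958161), (23, 0, 0, 38146896, 68494896), (65, 0, 0, 103027536, 101983536)]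
  [(22, -6), (23, 12), (27, -6), (65, -6), (72, 6)] = true := by
  decide +kernel

theorem t3_3_4 : chkS lk3 1 3 [(1, m3_3)] l3_4
  [(28, 0, 0, 1262880, 2310480), (73, 0, 0, 3412560, 1331760), (24, 0, 0, 3473985, 4280835), (20, 0, 0, 3473985, 4280835), (66, 0, 0, 2364240, 1320240), (26, 0, 0, 3473985, 4280835)]
  [(20, 6), (24, -6), (26, -6), (28, 6), (66, 6), (73, -6)] = true := by
  decide +kernel

theorem t3_4_4 : chkS lk3 1 3 [(1, m3_4)] l3_4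
  [(74, 0, 0, 201760, 147760), (29, 0, 0, 201760, 147760), (67, 0, 0, 136240, 136240), (25, 0, 0, 12820, 12820), (25, 0, 0, 197665, 147715), (21, 0, 0, 197665, 147715)]
  [(21, -6), (25, 12), (29, -6), (67, -6), (74, 6)] = true := by
  decide +kernel

section

variable {κ ι : Type*} [Fintype κ] [Fintype ι] [Inhabited κ] [Inhabited ι]

noncomputable def F3_0 (E : Env κ ι) : (Fin 1 → κ) → (Fin 3 → ι) → ℝ := op2 (P0 κ) (P3 ι) (fB E 1 3 m3_0)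

noncomputable def F3_1 (E : Env κ ι) : (Fin 1 → κ) → (Fin 3 → ι) → ℝ := op2 (P0 κ) (P3 ι) (fB E 1 3 m3_1)

noncomputable def F3_2 (E : Env κ ι) : (Fin 1 → κ) → (Fin 3 → ι) → ℝ := op2 (P0 κ) (P3 ι) (fB E 1 3 m3_2)

noncomputable def F3_3 (E : Env κ ι) : (Fin 1 → κ) → (Fin 3 → ι) → ℝ := op2 (P0 κ) (P3 ι) (fB E 1 3 m3_3)

noncomputable def F3_4 (E : Env κ ι) : (Fin 1 → κ) → (Fin 3 → ι) → ℝ := op2 (P0 κ) (P3 ι) (fB E 1 3 m3_4)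

def r3_0_0 : List (ℕ × ℤ) := [(6, -6), (7, 12), (13, -6), (30, 6), (31, -6)]

theorem h3_0_0 (E : Env κ ι) : ip (F3_0 E) (F3_0 E) = dotS (ek E lk3) r3_0_0 :=
  op_entryZ E lk3 1 3 _ _ _ _ (pg0 κ) (pg3 ι) m3_0 m3_0 l3_0 z3_0 w3_0 x3_0 (by decide) _ (chkS_sound E lk3 1 3 _ _ _ _ t3_0_0)

def r3_0_1 : List (ℕ × ℤ) := [(11, 6), (13, -6), (33, 6), (34, -6), (35, 6), (36, -6)]

theorem h3_0_1 (E : Env κ ι) : ip (F3_0 E) (F3_1 E) = dotS (ek E lk3) r3_0_1 :=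
  op_entryZ E lk3 1 3 _ _ _ _ (pg0 κ) (pg3 ι) m3_0 m3_1 l3_1 z3_1 w3_1 x3_1 (by decide) _ (chkS_sound E lk3 1 3 _ _ _ _ t3_0_1)

def r3_0_2 : List (ℕ × ℤ) := [(8, -6), (9, 6), (14, 6), (15, -6), (40, 6), (41, -6)]

theorem h3_0_2 (E : Env κ ι) : ip (F3_0 E) (F3_2 E) = dotS (ek E lk3) r3_0_2 :=
  op_entryZ E lk3 1 3 _ _ _ _ (pg0 κ) (pg3 ι) m3_0 m3_2 l3_2 z3_2 w3_2 x3_2 (by decide) _ (chkS_sound E lk3 1 3 _ _ _ _ t3_0_2)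

def r3_0_3 : List (ℕ × ℤ) := [(37, -6), (38, 6), (42, 6), (43, -6), (45, -6), (46, 6)]

theorem h3_0_3 (E : Env κ ι) : ip (F3_0 E) (F3_3 E) = dotS (ek E lk3) r3_0_3 :=
  op_entryZ E lk3 1 3 _ _ _ _ (pg0 κ) (pg3 ι) m3_0 m3_3 l3_3 z3_3 w3_3 x3_3 (by decide) _ (chkS_sound E lk3 1 3 _ _ _ _ t3_0_3)

def r3_0_4 : List (ℕ × ℤ) := [(1, 6), (4, -6), (5, -6), (10, 6), (47, 6), (48, -6)]

theorem h3_0_4 (E : Env κ ι) : ip (F3_0 E) (F3_4 E) = dotS (ek E lk3) r3_0_4 :=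
  op_entryZ E lk3 1 3 _ _ _ _ (pg0 κ) (pg3 ι) m3_0 m3_4 l3_4 z3_4 w3_4 x3_4 (by decide) _ (chkS_sound E lk3 1 3 _ _ _ _ t3_0_4)

def r3_1_1 : List (ℕ × ℤ) := [(32, 6), (34, -6), (50, -6), (51, -6), (52, 12)]

theorem h3_1_1 (E : Env κ ι) : ip (F3_1 E) (F3_1 E) = dotS (ek E lk3) r3_1_1 :=
  op_entryZ E lk3 1 3 _ _ _ _ (pg0 κ) (pg3 ι) m3_1 m3_1 l3_1 z3_1 w3_1 x3_1 (by decide) _ (chkS_sound E lk3 1 3 _ _ _ _ t3_1_1)

def r3_1_2 : List (ℕ × ℤ) := [(12, -6), (14, 6), (44, -6), (53, -6), (55, 6), (59, 6)]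

theorem h3_1_2 (E : Env κ ι) : ip (F3_1 E) (F3_2 E) = dotS (ek E lk3) r3_1_2 :=
  op_entryZ E lk3 1 3 _ _ _ _ (pg0 κ) (pg3 ι) m3_1 m3_2 l3_2 z3_2 w3_2 x3_2 (by decide) _ (chkS_sound E lk3 1 3 _ _ _ _ t3_1_2)

def r3_1_3 : List (ℕ × ℤ) := [(37, -6), (39, 6), (54, -6), (56, 6), (57, 6), (58, -6)]

theorem h3_1_3 (E : Env κ ι) : ip (F3_1 E) (F3_3 E) = dotS (ek E lk3) r3_1_3 :=
  op_entryZ E lk3 1 3 _ _ _ _ (pg0 κ) (pg3 ι) m3_1 m3_3 l3_3 z3_3 w3_3 x3_3 (by decide) _ (chkS_sound E lk3 1 3 _ _ _ _ t3_1_3)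

def r3_1_4 : List (ℕ × ℤ) := [(0, -6), (1, 6), (2, 6), (3, -6), (49, -6), (60, 6)]

theorem h3_1_4 (E : Env κ ι) : ip (F3_1 E) (F3_4 E) = dotS (ek E lk3) r3_1_4 :=
  op_entryZ E lk3 1 3 _ _ _ _ (pg0 κ) (pg3 ι) m3_1 m3_4 l3_4 z3_4 w3_4 x3_4 (by decide) _ (chkS_sound E lk3 1 3 _ _ _ _ t3_1_4)

def r3_2_2 : List (ℕ × ℤ) := [(16, -6), (19, 12), (27, -6), (61, -6), (68, 6)]

theorem h3_2_2 (E : Env κ ι) : ip (F3_2 E) (F3_2 E) = dotS (ek E lk3) r3_2_2 :=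
  op_entryZ E lk3 1 3 _ _ _ _ (pg0 κ) (pg3 ι) m3_2 m3_2 l3_2 z3_2 w3_2 x3_2 (by decide) _ (chkS_sound E lk3 1 3 _ _ _ _ t3_2_2)

def r3_2_3 : List (ℕ × ℤ) := [(17, 6), (22, -6), (62, -6), (63, 6), (69, 6), (70, -6)]

theorem h3_2_3 (E : Env κ ι) : ip (F3_2 E) (F3_3 E) = dotS (ek E lk3) r3_2_3 :=
  op_entryZ E lk3 1 3 _ _ _ _ (pg0 κ) (pg3 ι) m3_2 m3_3 l3_3 z3_3 w3_3 x3_3 (by decide) _ (chkS_sound E lk3 1 3 _ _ _ _ t3_2_3)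

def r3_2_4 : List (ℕ × ℤ) := [(18, -6), (20, 6), (26, 6), (28, -6), (64, -6), (71, 6)]

theorem h3_2_4 (E : Env κ ι) : ip (F3_2 E) (F3_4 E) = dotS (ek E lk3) r3_2_4 :=
  op_entryZ E lk3 1 3 _ _ _ _ (pg0 κ) (pg3 ι) m3_2 m3_4 l3_4 z3_4 w3_4 x3_4 (by decide) _ (chkS_sound E lk3 1 3 _ _ _ _ t3_2_4)

def r3_3_3 : List (ℕ × ℤ) := [(22, -6), (23, 12), (27, -6), (65, -6), (72, 6)]

theorem h3_3_3 (E : Env κ ι) : ip (F3_3 E) (F3_3 E) = dotS (ek E lk3) r3_3_3 :=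
  op_entryZ E lk3 1 3 _ _ _ _ (pg0 κ) (pg3 ι) m3_3 m3_3 l3_3 z3_3 w3_3 x3_3 (by decide) _ (chkS_sound E lk3 1 3 _ _ _ _ t3_3_3)

def r3_3_4 : List (ℕ × ℤ) := [(20, 6), (24, -6), (26, -6), (28, 6), (66, 6), (73, -6)]

theorem h3_3_4 (E : Env κ ι) : ip (F3_3 E) (F3_4 E) = dotS (ek E lk3) r3_3_4 :=
  op_entryZ E lk3 1 3 _ _ _ _ (pg0 κ) (pg3 ι) m3_3 m3_4 l3_4 z3_4 w3_4 x3_4 (by decide) _ (chkS_sound E lk3 1 3 _ _ _ _ t3_3_4)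

def r3_4_4 : List (ℕ × ℤ) := [(21, -6), (25, 12), (29, -6), (67, -6), (74, 6)]

theorem h3_4_4 (E : Env κ ι) : ip (F3_4 E) (F3_4 E) = dotS (ek E lk3) r3_4_4 :=
  op_entryZ E lk3 1 3 _ _ _ _ (pg0 κ) (pg3 ι) m3_4 m3_4 l3_4 z3_4 w3_4 x3_4 (by decide) _ (chkS_sound E lk3 1 3 _ _ _ _ t3_4_4)

theorem row3_0 (E : Env κ ι) : RowG (ek E lk3) (F3_0 E) [F3_0 E, F3_1 E, F3_2 E, F3_3 E, F3_4 E] [r3_0_0, r3_0_1, r3_0_2, r3_0_3, r3_0_4] :=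
  rowG_cons _ _ _ _ _ _ (h3_0_0 E) (rowG_cons _ _ _ _ _ _ (h3_0_1 E) (rowG_cons _ _ _ _ _ _ (h3_0_2 E) (rowG_cons _ _ _ _ _ _ (h3_0_3 E) (rowG_cons _ _ _ _ _ _ (h3_0_4 E) (rowG_nil _ _)))))

theorem row3_1 (E : Env κ ι) : RowG (ek E lk3) (F3_1 E) [F3_1 E, F3_2 E, F3_3 E, F3_4 E] [r3_1_1, r3_1_2, r3_1_3, r3_1_4] :=
  rowG_cons _ _ _ _ _ _ (h3_1_1 E) (rowG_cons _ _ _ _ _ _ (h3_1_2 E) (rowG_cons _ _ _ _ _ _ (h3_1_3 E) (rowG_cons _ _ _ _ _ _ (h3_1_4 E) (rowG_nil _ _))))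

theorem row3_2 (E : Env κ ι) : RowG (ek E lk3) (F3_2 E) [F3_2 E, F3_3 E, F3_4 E] [r3_2_2, r3_2_3, r3_2_4] :=
  rowG_cons _ _ _ _ _ _ (h3_2_2 E) (rowG_cons _ _ _ _ _ _ (h3_2_3 E) (rowG_cons _ _ _ _ _ _ (h3_2_4 E) (rowG_nil _ _)))

theorem row3_3 (E : Env κ ι) : RowG (ek E lk3) (F3_3 E) [F3_3 E, F3_4 E] [r3_3_3, r3_3_4] :=
  rowG_cons _ _ _ _ _ _ (h3_3_3 E) (rowG_cons _ _ _ _ _ _ (h3_3_4 E) (rowG_nil _ _))

theorem row3_4 (E : Env κ ι) : RowG (ek E lk3) (F3_4 E) [F3_4 E] [r3_4_4] :=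
  rowG_cons _ _ _ _ _ _ (h3_4_4 E) (rowG_nil _ _)

def tab3 : List (List (List (ℕ × ℤ))) := [[r3_0_0, r3_0_1, r3_0_2, r3_0_3, r3_0_4], [r3_1_1, r3_1_2, r3_1_3, r3_1_4], [r3_2_2, r3_2_3, r3_2_4], [r3_3_3, r3_3_4], [r3_4_4]]

theorem tri3 (E : Env κ ι) : TriG (ek E lk3) [F3_0 E, F3_1 E, F3_2 E, F3_3 E, F3_4 E] tab3 := by
  refine triG_cons _ _ _ _ _ (row3_0 E) ?_
  refine triG_cons _ _ _ _ _ (row3_1 E) ?_
  refine triG_cons _ _ _ _ _ (row3_2 E) ?_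
  refine triG_cons _ _ _ _ _ (row3_3 E) ?_
  refine triG_cons _ _ _ _ _ (row3_4 E) ?_
  exact triG_nil _

end

end YMBG
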