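import Pool.Agent.YM.BG.Ga0

set_option linter.unusedVariables false
set_option maxRecDepth 100000

open YMEng

namespace YMBG

def lk4 : List Key := [
  (1, 5, [(0, [0], [0, 1]), (0, [0], [0, 1]), (1, [], [2, 3]), (1, [], [2, 4]), (4, [], [4]), (4, [], [3])]),
  (1, 5, [(0, [0], [0, 1]), (0, [0], [0, 2]), (4, [], [2]), (4, [], [1]), (1, [], [3, 4]), (1, [], [3, 4])]),
  (2, 7, [(0, [0], [0, 1]), (0, [1], [0, 2]), (0, [1], [3, 4]), (0, [0], [5, 6]), (1, [], [5, 6]), (1, [], [3, 4]), (4, [], [2]), (4, [], [1])]),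
  (3, 7, [(0, [0], [0, 1]), (0, [0], [0, 1]), (0, [1], [2, 3]), (0, [2], [2, 4]), (0, [2], [5, 6]), (0, [1], [5, 6]), (4, [], [4]), (4, [], [3])]),
  (1, 5, [(0, [0], [0, 1]), (1, [], [2, 3]), (2, [0], [0, 1, 4]), (3, [], [2, 3, 4])]),
  (1, 6, [(0, [0], [0, 1]), (0, [0], [0, 1]), (1, [], [2, 3]), (1, [], [4, 5]), (3, [], [2, 4, 5]), (4, [], [3])]),
  (1, 6, [(0, [0], [0, 1]), (0, [0], [2, 3]), (1, [], [2, 3]), (1, [], [4, 5]), (3, [], [0, 4, 5]), (4, [], [1])]),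
  (1, 6, [(0, [0], [0, 1]), (1, [], [2, 3]), (2, [0], [0, 1, 2]), (4, [], [3]), (1, [], [4, 5]), (1, [], [4, 5])]),
  (1, 7, [(0, [0], [0, 1]), (0, [0], [0, 1]), (1, [], [2, 3]), (1, [], [2, 3]), (1, [], [4, 5]), (1, [], [4, 6]), (4, [], [6]), (4, [], [5])]),
  (1, 7, [(0, [0], [0, 1]), (0, [0], [2, 3]), (1, [], [0, 4]), (1, [], [2, 3]), (4, [], [1]), (4, [], [4]), (1, [], [5, 6]), (1, [], [5, 6])]),
  (2, 6, [(0, [0], [0, 1]), (0, [0], [2, 3]), (0, [1], [4, 5]), (1, [], [2, 3]), (2, [1], [0, 4, 5]), (4, [], [1])]),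
  (2, 7, [(0, [0], [0, 1]), (0, [0], [0, 1]), (0, [1], [2, 3]), (0, [1], [4, 5]), (1, [], [2, 6]), (1, [], [4, 5]), (4, [], [3]), (4, [], [6])]),
  (1, 5, [(1, [], [0, 1]), (1, [], [0, 1]), (2, [0], [2, 3, 4]), (2, [0], [2, 3, 4])]),
  (1, 6, [(0, [0], [0, 1]), (1, [], [2, 3]), (2, [0], [0, 2, 3]), (4, [], [1]), (1, [], [4, 5]), (1, [], [4, 5])]),
  (1, 7, [(0, [0], [0, 1]), (0, [0], [0, 2]), (4, [], [2]), (4, [], [1]), (1, [], [3, 4]), (1, [], [3, 4]), (1, [], [5, 6]), (1, [], [5, 6])]),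
  (1, 5, [(0, [0], [0, 1]), (0, [0], [0, 1]), (3, [], [2, 3, 4]), (3, [], [2, 3, 4])]),
  (2, 6, [(0, [0], [0, 1]), (0, [0], [0, 1]), (0, [1], [2, 3]), (0, [1], [4, 5]), (3, [], [2, 4, 5]), (4, [], [3])]),
  (1, 5, [(0, [0], [0, 1]), (0, [0], [2, 3]), (1, [], [0, 4]), (1, [], [2, 3]), (4, [], [1]), (4, [], [4])]),
  (1, 5, [(0, [0], [0, 1]), (0, [0], [0, 1]), (1, [], [2, 3]), (1, [], [2, 3]), (4, [], [4]), (4, [], [4])]),
  (2, 6, [(0, [0], [0, 1]), (0, [0], [2, 3]), (0, [1], [4, 5]), (1, [], [0, 1]), (2, [1], [2, 3, 4]), (4, [], [5])]),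
  (2, 6, [(0, [0], [0, 1]), (0, [0], [2, 3]), (0, [1], [4, 5]), (1, [], [4, 5]), (2, [1], [0, 2, 3]), (4, [], [1])]),
  (2, 6, [(0, [0], [0, 1]), (0, [0], [2, 3]), (0, [1], [4, 5]), (1, [], [0, 4]), (2, [1], [2, 3, 5]), (4, [], [1])]),
  (2, 7, [(0, [0], [0, 1]), (0, [0], [2, 3]), (0, [1], [4, 5]), (0, [1], [4, 6]), (1, [], [0, 5]), (1, [], [2, 3]), (4, [], [1]), (4, [], [6])]),
  (2, 6, [(0, [0], [0, 1]), (0, [0], [2, 3]), (0, [1], [4, 5]), (1, [], [0, 4]), (2, [1], [1, 2, 3]), (4, [], [5])]),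
  (2, 7, [(0, [0], [0, 1]), (0, [1], [0, 2]), (0, [0], [3, 4]), (0, [1], [5, 6]), (1, [], [1, 3]), (1, [], [5, 6]), (4, [], [2]), (4, [], [4])]),
  (2, 6, [(0, [0], [0, 1]), (0, [0], [2, 3]), (0, [1], [0, 4]), (1, [], [1, 5]), (2, [1], [2, 3, 4]), (4, [], [5])]),
  (2, 7, [(0, [0], [0, 1]), (0, [0], [2, 3]), (0, [1], [0, 4]), (0, [1], [4, 5]), (1, [], [1, 6]), (1, [], [2, 3]), (4, [], [5]), (4, [], [6])]),
  (2, 6, [(0, [0], [0, 1]), (0, [0], [2, 3]), (0, [1], [0, 4]), (1, [], [4, 5]), (2, [1], [1, 2, 3]), (4, [], [5])]),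
  (2, 7, [(0, [0], [0, 1]), (0, [1], [0, 2]), (0, [1], [1, 3]), (0, [0], [4, 5]), (1, [], [2, 6]), (1, [], [4, 5]), (4, [], [3]), (4, [], [6])]),
  (3, 7, [(0, [0], [0, 1]), (0, [1], [0, 2]), (0, [0], [2, 3]), (0, [2], [1, 4]), (0, [1], [5, 6]), (0, [2], [5, 6]), (4, [], [3]), (4, [], [4])]),
  (3, 7, [(0, [0], [0, 1]), (0, [1], [0, 2]), (0, [0], [3, 4]), (0, [1], [3, 4]), (0, [2], [1, 5]), (0, [2], [5, 6]), (4, [], [2]), (4, [], [6])]),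
  (2, 6, [(0, [0], [0, 1]), (0, [0], [0, 1]), (0, [1], [2, 3]), (0, [1], [2, 4]), (1, [], [3, 5]), (4, [], [4]), (4, [], [5])]),
  (1, 5, [(0, [0], [0, 1]), (0, [0], [0, 2]), (1, [], [3, 4]), (3, [], [1, 3, 4]), (4, [], [2])]),
  (1, 5, [(0, [0], [0, 1]), (0, [0], [0, 1]), (1, [], [2, 3]), (3, [], [2, 3, 4]), (4, [], [4])]),
  (1, 5, [(0, [0], [0, 1]), (1, [], [2, 3]), (1, [], [2, 4]), (2, [0], [0, 1, 3]), (4, [], [4])]),
  (1, 6, [(0, [0], [0, 1]), (0, [0], [0, 1]), (1, [], [2, 3]), (1, [], [2, 4]), (1, [], [3, 5]), (4, [], [5]), (4, [], [4])]),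
  (1, 6, [(0, [0], [0, 1]), (0, [0], [2, 3]), (1, [], [0, 4]), (1, [], [4, 5]), (1, [], [2, 3]), (4, [], [1]), (4, [], [5])]),
  (1, 5, [(0, [0], [0, 1]), (2, [0], [0, 1, 2]), (4, [], [2]), (1, [], [3, 4]), (1, [], [3, 4])]),
  (1, 6, [(0, [0], [0, 1]), (0, [0], [0, 1]), (1, [], [2, 3]), (1, [], [2, 3]), (1, [], [4, 5]), (4, [], [4]), (4, [], [5])]),
  (1, 6, [(0, [0], [0, 1]), (0, [0], [2, 3]), (1, [], [2, 3]), (4, [], [0]), (4, [], [1]), (1, [], [4, 5]), (1, [], [4, 5])]),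
  (1, 6, [(0, [0], [0, 1]), (0, [0], [0, 2]), (1, [], [1, 3]), (4, [], [2]), (4, [], [3]), (1, [], [4, 5]), (1, [], [4, 5])]),
  (2, 6, [(0, [0], [0, 1]), (0, [0], [2, 3]), (0, [1], [0, 4]), (0, [1], [4, 5]), (1, [], [2, 3]), (4, [], [1]), (4, [], [5])]),
  (2, 6, [(0, [0], [0, 1]), (0, [0], [0, 1]), (0, [1], [2, 3]), (0, [1], [4, 5]), (1, [], [4, 5]), (4, [], [2]), (4, [], [3])]),
  (1, 6, [(0, [0], [0, 1]), (0, [0], [2, 3]), (1, [], [0, 2]), (4, [], [3]), (4, [], [1]), (1, [], [4, 5]), (1, [], [4, 5])]),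
  (2, 6, [(0, [0], [0, 1]), (0, [0], [0, 1]), (0, [1], [2, 3]), (0, [1], [4, 5]), (1, [], [2, 4]), (4, [], [5]), (4, [], [3])]),
  (2, 6, [(0, [0], [0, 1]), (0, [1], [0, 2]), (0, [1], [1, 3]), (0, [0], [4, 5]), (1, [], [4, 5]), (4, [], [3]), (4, [], [2])]),
  (2, 6, [(0, [0], [0, 1]), (0, [1], [0, 2]), (0, [1], [1, 3]), (0, [0], [4, 5]), (1, [], [2, 4]), (4, [], [3]), (4, [], [5])]),
  (2, 6, [(0, [0], [0, 1]), (0, [0], [2, 3]), (0, [1], [0, 4]), (0, [1], [4, 5]), (1, [], [2, 5]), (4, [], [1]), (4, [], [3])]),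
  (2, 6, [(0, [0], [0, 1]), (0, [1], [2, 3]), (0, [0], [2, 4]), (0, [1], [0, 5]), (1, [], [1, 3]), (4, [], [5]), (4, [], [4])]),
  (2, 6, [(0, [0], [0, 1]), (0, [0], [2, 3]), (0, [1], [2, 4]), (0, [1], [0, 5]), (1, [], [1, 3]), (4, [], [5]), (4, [], [4])]),
  (2, 6, [(0, [0], [0, 1]), (0, [1], [0, 2]), (0, [0], [2, 3]), (0, [1], [1, 4]), (1, [], [3, 5]), (4, [], [4]), (4, [], [5])]),
  (2, 6, [(0, [0], [0, 1]), (0, [0], [2, 3]), (0, [1], [0, 4]), (0, [1], [4, 5]), (1, [], [1, 2]), (4, [], [3]), (4, [], [5])]),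
  (2, 6, [(0, [0], [0, 1]), (0, [0], [2, 3]), (0, [1], [0, 4]), (0, [1], [2, 4]), (1, [], [1, 5]), (4, [], [3]), (4, [], [5])]),
  (1, 5, [(0, [0], [0, 1]), (0, [0], [0, 2]), (1, [], [1, 3]), (1, [], [3, 4]), (4, [], [2]), (4, [], [4])]),
  (3, 7, [(0, [0], [0, 1]), (0, [0], [0, 2]), (0, [1], [1, 2]), (4, [], [3]), (0, [2], [4, 5]), (0, [2], [4, 6]), (0, [1], [5, 6]), (4, [], [3])]),
  (3, 7, [(0, [0], [0, 1]), (0, [0], [0, 2]), (0, [1], [1, 2]), (4, [], [3]), (0, [2], [4, 5]), (0, [2], [4, 6]), (0, [1], [3, 6]), (4, [], [5])]),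
  (3, 7, [(0, [0], [0, 1]), (0, [0], [0, 2]), (0, [1], [1, 2]), (4, [], [3]), (0, [2], [4, 5]), (0, [2], [4, 5]), (0, [1], [3, 6]), (4, [], [6])]),
  (3, 7, [(0, [0], [0, 1]), (0, [0], [0, 2]), (0, [1], [1, 2]), (4, [], [3]), (0, [2], [4, 5]), (0, [2], [3, 6]), (0, [1], [4, 6]), (4, [], [5])]),
  (3, 7, [(0, [0], [0, 1]), (0, [0], [0, 2]), (0, [1], [1, 2]), (4, [], [3]), (0, [2], [4, 5]), (0, [2], [3, 6]), (0, [1], [4, 5]), (4, [], [6])]),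
  (2, 7, [(0, [0], [0, 1]), (0, [0], [0, 2]), (0, [1], [1, 2]), (4, [], [3]), (0, [1], [4, 5]), (1, [], [4, 6]), (1, [], [3, 5]), (4, [], [6])]),
  (2, 7, [(0, [0], [0, 1]), (0, [0], [0, 2]), (0, [1], [1, 2]), (4, [], [3]), (0, [1], [4, 5]), (1, [], [4, 5]), (1, [], [3, 6]), (4, [], [6])]),
  (2, 6, [(0, [0], [0, 1]), (0, [0], [0, 2]), (0, [1], [1, 2]), (4, [], [3]), (0, [1], [4, 5]), (1, [], [4, 5]), (4, [], [3])]),
  (2, 6, [(0, [0], [0, 1]), (0, [0], [0, 2]), (0, [1], [1, 2]), (4, [], [3]), (0, [1], [4, 5]), (1, [], [3, 4]), (4, [], [5])]),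
  (2, 6, [(0, [0], [0, 1]), (0, [0], [0, 2]), (0, [1], [1, 2]), (4, [], [3]), (0, [1], [4, 5]), (3, [], [3, 4, 5])]),
  (3, 7, [(0, [0], [0, 1]), (0, [0], [0, 2]), (0, [1], [3, 2]), (4, [], [1]), (0, [2], [4, 5]), (0, [2], [4, 6]), (0, [1], [3, 6]), (4, [], [5])]),
  (3, 7, [(0, [0], [0, 1]), (0, [0], [0, 2]), (0, [1], [3, 2]), (4, [], [1]), (0, [2], [4, 5]), (0, [2], [4, 5]), (0, [1], [3, 6]), (4, [], [6])]),
  (3, 7, [(0, [0], [0, 1]), (0, [0], [0, 2]), (0, [1], [3, 2]), (4, [], [1]), (0, [2], [4, 5]), (0, [2], [3, 6]), (0, [1], [4, 6]), (4, [], [5])]),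
  (3, 7, [(0, [0], [0, 1]), (0, [0], [0, 2]), (0, [1], [3, 2]), (4, [], [1]), (0, [2], [4, 5]), (0, [2], [3, 4]), (0, [1], [5, 6]), (4, [], [6])]),
  (2, 7, [(0, [0], [0, 1]), (0, [0], [0, 2]), (0, [1], [3, 2]), (4, [], [1]), (0, [1], [4, 5]), (1, [], [4, 6]), (1, [], [3, 5]), (4, [], [6])]),
  (2, 6, [(0, [0], [0, 1]), (0, [0], [0, 2]), (0, [1], [3, 2]), (4, [], [1]), (0, [1], [4, 5]), (3, [], [3, 4, 5])]),
  (2, 6, [(0, [0], [0, 1]), (0, [0], [0, 2]), (0, [1], [3, 2]), (4, [], [1]), (0, [1], [3, 4]), (1, [], [4, 5]), (4, [], [5])]),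
  (3, 7, [(0, [0], [0, 1]), (0, [0], [0, 1]), (0, [1], [2, 3]), (4, [], [3]), (0, [2], [4, 5]), (0, [2], [2, 6]), (0, [1], [4, 6]), (4, [], [5])]),
  (3, 7, [(0, [0], [0, 1]), (0, [0], [0, 1]), (0, [1], [2, 3]), (4, [], [3]), (0, [2], [4, 5]), (0, [2], [2, 4]), (0, [1], [5, 6]), (4, [], [6])]),
  (2, 7, [(0, [0], [0, 1]), (0, [0], [0, 1]), (0, [1], [2, 3]), (4, [], [3]), (0, [1], [4, 5]), (1, [], [4, 6]), (1, [], [2, 5]), (4, [], [6])]),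
  (3, 7, [(0, [0], [0, 1]), (0, [0], [2, 3]), (0, [1], [0, 3]), (4, [], [1]), (0, [2], [4, 5]), (0, [2], [2, 6]), (0, [1], [4, 6]), (4, [], [5])]),
  (3, 7, [(0, [0], [0, 1]), (0, [0], [2, 3]), (0, [1], [0, 3]), (4, [], [1]), (0, [2], [4, 5]), (0, [2], [2, 4]), (0, [1], [5, 6]), (4, [], [6])]),
  (2, 7, [(0, [0], [0, 1]), (0, [0], [2, 3]), (0, [1], [0, 3]), (4, [], [1]), (0, [1], [4, 5]), (1, [], [4, 6]), (1, [], [2, 5]), (4, [], [6])]),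
  (2, 6, [(0, [0], [0, 1]), (0, [0], [2, 3]), (0, [1], [0, 3]), (4, [], [1]), (0, [1], [4, 5]), (3, [], [2, 4, 5])]),
  (3, 7, [(0, [0], [0, 1]), (0, [0], [2, 3]), (0, [1], [0, 1]), (4, [], [3]), (0, [2], [4, 5]), (0, [2], [2, 6]), (0, [1], [4, 5]), (4, [], [6])]),
  (3, 7, [(0, [0], [0, 1]), (0, [0], [2, 3]), (0, [1], [0, 1]), (4, [], [3]), (0, [2], [4, 5]), (0, [2], [2, 4]), (0, [1], [5, 6]), (4, [], [6])]),
  (2, 7, [(0, [0], [0, 1]), (0, [0], [2, 3]), (0, [1], [0, 1]), (4, [], [3]), (0, [1], [4, 5]), (1, [], [4, 6]), (1, [], [2, 5]), (4, [], [6])]),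
  (2, 7, [(0, [0], [0, 1]), (0, [0], [2, 3]), (0, [1], [0, 1]), (4, [], [3]), (0, [1], [4, 5]), (1, [], [4, 5]), (1, [], [2, 6]), (4, [], [6])]),
  (2, 6, [(0, [0], [0, 1]), (0, [0], [2, 3]), (0, [1], [0, 1]), (4, [], [3]), (0, [1], [4, 5]), (1, [], [4, 5]), (4, [], [2])]),
  (2, 6, [(0, [0], [0, 1]), (0, [0], [2, 3]), (0, [1], [0, 1]), (4, [], [3]), (0, [1], [4, 5]), (1, [], [2, 4]), (4, [], [5])]),
  (2, 6, [(0, [0], [0, 1]), (0, [0], [2, 3]), (0, [1], [0, 1]), (4, [], [3]), (0, [1], [4, 5]), (3, [], [2, 4, 5])]),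
  (2, 6, [(0, [0], [0, 1]), (0, [0], [2, 3]), (0, [1], [0, 1]), (4, [], [3]), (0, [1], [2, 4]), (1, [], [4, 5]), (4, [], [5])]),
  (3, 7, [(0, [0], [0, 1]), (0, [0], [2, 0]), (0, [1], [1, 3]), (4, [], [3]), (0, [2], [4, 5]), (0, [2], [2, 4]), (0, [1], [5, 6]), (4, [], [6])]),
  (2, 7, [(0, [0], [0, 1]), (0, [0], [2, 0]), (0, [1], [1, 3]), (4, [], [3]), (0, [1], [4, 5]), (1, [], [4, 6]), (1, [], [2, 5]), (4, [], [6])]),
  (2, 7, [(0, [0], [0, 1]), (0, [0], [2, 0]), (0, [1], [1, 3]), (4, [], [3]), (0, [1], [4, 5]), (1, [], [4, 5]), (1, [], [2, 6]), (4, [], [6])]),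
  (2, 6, [(0, [0], [0, 1]), (0, [0], [2, 0]), (0, [1], [1, 3]), (4, [], [3]), (0, [1], [4, 5]), (3, [], [2, 4, 5])]),
  (1, 7, [(0, [0], [0, 1]), (1, [], [0, 2]), (1, [], [1, 2]), (4, [], [3]), (0, [0], [4, 5]), (1, [], [4, 6]), (1, [], [5, 6]), (4, [], [3])]),
  (1, 7, [(0, [0], [0, 1]), (1, [], [0, 2]), (1, [], [1, 2]), (4, [], [3]), (0, [0], [4, 5]), (1, [], [4, 6]), (1, [], [3, 6]), (4, [], [5])]),
  (1, 7, [(0, [0], [0, 1]), (1, [], [0, 2]), (1, [], [1, 2]), (4, [], [3]), (0, [0], [4, 5]), (1, [], [4, 6]), (1, [], [3, 5]), (4, [], [6])]),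
  (1, 7, [(0, [0], [0, 1]), (1, [], [0, 2]), (1, [], [1, 2]), (4, [], [3]), (0, [0], [4, 5]), (1, [], [4, 5]), (1, [], [3, 6]), (4, [], [6])]),
  (1, 6, [(0, [0], [0, 1]), (1, [], [0, 2]), (1, [], [1, 2]), (4, [], [3]), (0, [0], [4, 5]), (1, [], [4, 5]), (4, [], [3])]),
  (1, 6, [(0, [0], [0, 1]), (1, [], [0, 2]), (1, [], [1, 2]), (4, [], [3]), (0, [0], [4, 5]), (1, [], [3, 4]), (4, [], [5])]),
  (1, 7, [(0, [0], [0, 1]), (1, [], [0, 2]), (1, [], [1, 2]), (4, [], [3]), (0, [0], [3, 4]), (1, [], [5, 6]), (1, [], [5, 6]), (4, [], [4])]),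
  (1, 6, [(0, [0], [0, 1]), (1, [], [0, 2]), (1, [], [1, 2]), (4, [], [3]), (1, [], [4, 5]), (2, [0], [3, 4, 5])]),
  (1, 7, [(0, [0], [0, 1]), (1, [], [0, 2]), (1, [], [3, 2]), (4, [], [1]), (0, [0], [4, 5]), (1, [], [4, 6]), (1, [], [3, 6]), (4, [], [5])]),
  (1, 7, [(0, [0], [0, 1]), (1, [], [0, 2]), (1, [], [3, 2]), (4, [], [1]), (0, [0], [4, 5]), (1, [], [4, 6]), (1, [], [3, 5]), (4, [], [6])]),
  (1, 7, [(0, [0], [0, 1]), (1, [], [0, 2]), (1, [], [3, 2]), (4, [], [1]), (0, [0], [4, 5]), (1, [], [4, 5]), (1, [], [3, 6]), (4, [], [6])]),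
  (1, 6, [(0, [0], [0, 1]), (1, [], [0, 2]), (1, [], [3, 2]), (4, [], [1]), (0, [0], [4, 5]), (1, [], [3, 4]), (4, [], [5])]),
  (1, 7, [(0, [0], [0, 1]), (1, [], [0, 2]), (1, [], [3, 2]), (4, [], [1]), (0, [0], [3, 4]), (1, [], [5, 6]), (1, [], [5, 6]), (4, [], [4])]),
  (1, 7, [(0, [0], [0, 1]), (1, [], [0, 2]), (1, [], [3, 2]), (4, [], [1]), (0, [0], [3, 4]), (1, [], [5, 6]), (1, [], [4, 5]), (4, [], [6])]),
  (1, 6, [(0, [0], [0, 1]), (1, [], [0, 2]), (1, [], [3, 2]), (4, [], [1]), (0, [0], [3, 4]), (1, [], [4, 5]), (4, [], [5])]),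
  (1, 5, [(0, [0], [0, 1]), (1, [], [0, 2]), (1, [], [3, 2]), (4, [], [1]), (0, [0], [3, 4]), (4, [], [4])]),
  (1, 6, [(0, [0], [0, 1]), (1, [], [0, 2]), (1, [], [3, 2]), (4, [], [1]), (1, [], [4, 5]), (2, [0], [3, 4, 5])]),
  (1, 7, [(0, [0], [0, 1]), (1, [], [0, 2]), (1, [], [3, 1]), (4, [], [2]), (0, [0], [4, 5]), (1, [], [4, 6]), (1, [], [3, 5]), (4, [], [6])]),
  (1, 7, [(0, [0], [0, 1]), (1, [], [0, 2]), (1, [], [3, 1]), (4, [], [2]), (0, [0], [4, 5]), (1, [], [4, 5]), (1, [], [3, 6]), (4, [], [6])]),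
  (1, 6, [(0, [0], [0, 1]), (1, [], [0, 2]), (1, [], [3, 1]), (4, [], [2]), (0, [0], [4, 5]), (1, [], [4, 5]), (4, [], [3])]),
  (1, 6, [(0, [0], [0, 1]), (1, [], [0, 2]), (1, [], [3, 1]), (4, [], [2]), (0, [0], [4, 5]), (3, [], [3, 4, 5])]),
  (1, 7, [(0, [0], [0, 1]), (1, [], [0, 2]), (1, [], [3, 1]), (4, [], [2]), (0, [0], [3, 4]), (1, [], [5, 6]), (1, [], [5, 6]), (4, [], [4])]),
  (1, 7, [(0, [0], [0, 1]), (1, [], [0, 2]), (1, [], [3, 1]), (4, [], [2]), (0, [0], [3, 4]), (1, [], [5, 6]), (1, [], [4, 5]), (4, [], [6])]),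
  (1, 6, [(0, [0], [0, 1]), (1, [], [0, 2]), (1, [], [3, 1]), (4, [], [2]), (0, [0], [3, 4]), (1, [], [4, 5]), (4, [], [5])]),
  (1, 6, [(0, [0], [0, 1]), (1, [], [0, 2]), (1, [], [3, 1]), (4, [], [2]), (1, [], [4, 5]), (2, [0], [3, 4, 5])]),
  (1, 7, [(0, [0], [0, 1]), (1, [], [0, 1]), (1, [], [2, 3]), (4, [], [3]), (0, [0], [4, 5]), (1, [], [4, 5]), (1, [], [2, 6]), (4, [], [6])]),
  (1, 6, [(0, [0], [0, 1]), (1, [], [0, 1]), (1, [], [2, 3]), (4, [], [3]), (0, [0], [4, 5]), (1, [], [4, 5]), (4, [], [2])]),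
  (1, 6, [(0, [0], [0, 1]), (1, [], [0, 1]), (1, [], [2, 3]), (4, [], [3]), (0, [0], [4, 5]), (3, [], [2, 4, 5])]),
  (1, 6, [(0, [0], [0, 1]), (1, [], [0, 1]), (1, [], [2, 3]), (4, [], [3]), (1, [], [4, 5]), (2, [0], [2, 4, 5])]),
  (1, 5, [(0, [0], [0, 1]), (1, [], [0, 1]), (4, [], [2]), (0, [0], [3, 4]), (1, [], [3, 4]), (4, [], [2])]),
  (1, 5, [(0, [0], [0, 1]), (1, [], [0, 1]), (4, [], [2]), (0, [0], [3, 4]), (3, [], [2, 3, 4])]),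
  (1, 5, [(0, [0], [0, 1]), (1, [], [0, 1]), (4, [], [2]), (1, [], [3, 4]), (2, [0], [2, 3, 4])]),
  (1, 5, [(0, [0], [0, 1]), (1, [], [2, 0]), (4, [], [1]), (0, [0], [3, 4]), (3, [], [2, 3, 4])]),
  (1, 6, [(0, [0], [0, 1]), (1, [], [2, 0]), (4, [], [1]), (0, [0], [2, 3]), (1, [], [4, 5]), (1, [], [3, 4]), (4, [], [5])]),
  (1, 5, [(0, [0], [0, 1]), (3, [], [2, 0, 1]), (0, [0], [3, 4]), (3, [], [2, 3, 4])]),
  (1, 7, [(0, [0], [0, 1]), (1, [], [2, 3]), (1, [], [2, 3]), (4, [], [1]), (0, [0], [0, 4]), (1, [], [5, 6]), (1, [], [4, 5]), (4, [], [6])]),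
  (1, 7, [(0, [0], [0, 1]), (1, [], [2, 3]), (1, [], [1, 2]), (4, [], [3]), (0, [0], [0, 4]), (1, [], [5, 6]), (1, [], [4, 5]), (4, [], [6])]),
  (1, 6, [(0, [0], [0, 1]), (1, [], [2, 3]), (1, [], [1, 2]), (4, [], [3]), (0, [0], [0, 4]), (1, [], [4, 5]), (4, [], [5])]),
  (1, 6, [(0, [0], [0, 1]), (1, [], [2, 3]), (1, [], [1, 2]), (4, [], [3]), (1, [], [4, 5]), (2, [0], [0, 4, 5])]),
  (1, 5, [(0, [0], [0, 1]), (1, [], [1, 2]), (4, [], [2]), (0, [0], [0, 3]), (1, [], [3, 4]), (4, [], [4])]),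
  (1, 5, [(0, [0], [0, 1]), (1, [], [1, 2]), (4, [], [2]), (1, [], [3, 4]), (2, [0], [0, 3, 4])]),
  (1, 5, [(1, [], [0, 1]), (2, [0], [2, 0, 1]), (1, [], [3, 4]), (2, [0], [2, 3, 4])]),
  (3, 7, [(0, [0], [0, 1]), (0, [0], [0, 1]), (0, [1], [2, 3]), (4, [], [4]), (0, [2], [5, 6]), (0, [2], [2, 5]), (0, [1], [3, 6]), (4, [], [4])]),
  (2, 7, [(0, [0], [0, 1]), (0, [0], [0, 1]), (0, [1], [2, 3]), (4, [], [4]), (0, [1], [2, 5]), (1, [], [5, 6]), (1, [], [3, 4]), (4, [], [6])]),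
  (2, 7, [(0, [0], [0, 1]), (0, [0], [0, 1]), (0, [1], [2, 3]), (4, [], [4]), (0, [1], [2, 5]), (1, [], [4, 6]), (1, [], [3, 5]), (4, [], [6])]),
  (2, 6, [(0, [0], [0, 1]), (0, [0], [0, 1]), (0, [1], [2, 3]), (4, [], [4]), (0, [1], [2, 5]), (1, [], [3, 5]), (4, [], [4])]),
  (2, 6, [(0, [0], [0, 1]), (0, [0], [0, 1]), (0, [1], [2, 3]), (4, [], [4]), (0, [1], [2, 5]), (3, [], [3, 4, 5])]),
  (3, 7, [(0, [0], [0, 1]), (0, [0], [2, 0]), (0, [1], [3, 1]), (4, [], [4]), (0, [2], [5, 6]), (0, [2], [2, 5]), (0, [1], [3, 6]), (4, [], [4])]),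
  (3, 7, [(0, [0], [0, 1]), (0, [0], [2, 0]), (0, [1], [3, 1]), (4, [], [4]), (0, [2], [5, 6]), (0, [2], [3, 5]), (0, [1], [2, 6]), (4, [], [4])]),
  (3, 7, [(0, [0], [0, 1]), (0, [0], [2, 0]), (0, [1], [3, 1]), (4, [], [4]), (0, [2], [5, 6]), (0, [2], [4, 5]), (0, [1], [2, 3]), (4, [], [6])]),
  (3, 7, [(0, [0], [0, 1]), (0, [0], [2, 0]), (0, [1], [3, 1]), (4, [], [4]), (0, [2], [5, 6]), (0, [2], [2, 3]), (0, [1], [5, 6]), (4, [], [4])]),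
  (3, 7, [(0, [0], [0, 1]), (0, [0], [2, 0]), (0, [1], [3, 1]), (4, [], [4]), (0, [2], [5, 6]), (0, [2], [2, 3]), (0, [1], [4, 5]), (4, [], [6])]),
  (3, 7, [(0, [0], [0, 1]), (0, [0], [2, 0]), (0, [1], [3, 1]), (4, [], [4]), (0, [2], [5, 6]), (0, [2], [3, 4]), (0, [1], [2, 5]), (4, [], [6])]),
  (3, 7, [(0, [0], [0, 1]), (0, [0], [2, 0]), (0, [1], [3, 1]), (4, [], [4]), (0, [2], [2, 5]), (0, [2], [3, 6]), (0, [1], [5, 6]), (4, [], [4])]),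
  (3, 7, [(0, [0], [0, 1]), (0, [0], [2, 0]), (0, [1], [3, 1]), (4, [], [4]), (0, [2], [3, 5]), (0, [2], [2, 6]), (0, [1], [4, 6]), (4, [], [5])]),
  (3, 7, [(0, [0], [0, 1]), (0, [0], [2, 0]), (0, [1], [3, 1]), (4, [], [4]), (0, [2], [4, 5]), (0, [2], [2, 6]), (0, [1], [3, 6]), (4, [], [5])]),
  (3, 7, [(0, [0], [0, 1]), (0, [0], [2, 0]), (0, [1], [3, 1]), (4, [], [4]), (0, [2], [4, 5]), (0, [2], [3, 6]), (0, [1], [2, 6]), (4, [], [5])]),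
  (2, 7, [(0, [0], [0, 1]), (0, [0], [2, 0]), (0, [1], [3, 1]), (4, [], [4]), (0, [1], [5, 6]), (1, [], [5, 6]), (1, [], [2, 3]), (4, [], [4])]),
  (2, 7, [(0, [0], [0, 1]), (0, [0], [2, 0]), (0, [1], [3, 1]), (4, [], [4]), (0, [1], [5, 6]), (1, [], [2, 5]), (1, [], [3, 6]), (4, [], [4])]),
  (2, 7, [(0, [0], [0, 1]), (0, [0], [2, 0]), (0, [1], [3, 1]), (4, [], [4]), (0, [1], [5, 6]), (1, [], [2, 5]), (1, [], [3, 4]), (4, [], [6])]),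
  (2, 7, [(0, [0], [0, 1]), (0, [0], [2, 0]), (0, [1], [3, 1]), (4, [], [4]), (0, [1], [5, 6]), (1, [], [3, 5]), (1, [], [2, 4]), (4, [], [6])]),
  (2, 7, [(0, [0], [0, 1]), (0, [0], [2, 0]), (0, [1], [3, 1]), (4, [], [4]), (0, [1], [5, 6]), (1, [], [4, 5]), (1, [], [2, 3]), (4, [], [6])]),
  (2, 7, [(0, [0], [0, 1]), (0, [0], [2, 0]), (0, [1], [3, 1]), (4, [], [4]), (0, [1], [2, 5]), (1, [], [5, 6]), (1, [], [3, 4]), (4, [], [6])]),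
  (2, 7, [(0, [0], [0, 1]), (0, [0], [2, 0]), (0, [1], [3, 1]), (4, [], [4]), (0, [1], [3, 5]), (1, [], [5, 6]), (1, [], [2, 4]), (4, [], [6])]),
  (2, 7, [(0, [0], [0, 1]), (0, [0], [2, 0]), (0, [1], [3, 1]), (4, [], [4]), (0, [1], [2, 5]), (1, [], [4, 6]), (1, [], [3, 5]), (4, [], [6])]),
  (2, 7, [(0, [0], [0, 1]), (0, [0], [2, 0]), (0, [1], [3, 1]), (4, [], [4]), (0, [1], [3, 5]), (1, [], [4, 6]), (1, [], [2, 5]), (4, [], [6])]),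
  (2, 6, [(0, [0], [0, 1]), (0, [0], [2, 0]), (0, [1], [3, 1]), (4, [], [4]), (0, [1], [2, 5]), (1, [], [3, 5]), (4, [], [4])]),
  (2, 6, [(0, [0], [0, 1]), (0, [0], [2, 0]), (0, [1], [3, 1]), (4, [], [4]), (0, [1], [3, 5]), (1, [], [2, 5]), (4, [], [4])]),
  (2, 6, [(0, [0], [0, 1]), (0, [0], [2, 0]), (0, [1], [3, 1]), (4, [], [4]), (0, [1], [4, 5]), (1, [], [2, 3]), (4, [], [5])]),
  (2, 6, [(0, [0], [0, 1]), (0, [0], [2, 0]), (0, [1], [3, 1]), (4, [], [4]), (0, [1], [2, 5]), (3, [], [3, 4, 5])]),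
  (2, 6, [(0, [0], [0, 1]), (0, [0], [2, 0]), (0, [1], [3, 1]), (4, [], [4]), (0, [1], [3, 5]), (3, [], [2, 4, 5])]),
  (2, 6, [(0, [0], [0, 1]), (0, [0], [2, 0]), (0, [1], [3, 1]), (4, [], [4]), (0, [1], [4, 5]), (3, [], [2, 3, 5])]),
  (3, 7, [(0, [0], [0, 1]), (0, [0], [2, 0]), (0, [1], [3, 4]), (4, [], [1]), (0, [2], [5, 6]), (0, [2], [3, 4]), (0, [1], [5, 6]), (4, [], [2])]),
  (3, 7, [(0, [0], [0, 1]), (0, [0], [2, 0]), (0, [1], [3, 4]), (4, [], [1]), (0, [2], [3, 5]), (0, [2], [4, 6]), (0, [1], [5, 6]), (4, [], [2])]),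
  (2, 7, [(0, [0], [0, 1]), (0, [0], [2, 0]), (0, [1], [3, 4]), (4, [], [1]), (0, [1], [5, 6]), (1, [], [5, 6]), (1, [], [3, 4]), (4, [], [2])]),
  (2, 7, [(0, [0], [0, 1]), (0, [0], [2, 0]), (0, [1], [3, 4]), (4, [], [1]), (0, [1], [5, 6]), (1, [], [2, 5]), (1, [], [3, 6]), (4, [], [4])]),
  (2, 7, [(0, [0], [0, 1]), (0, [0], [2, 0]), (0, [1], [3, 4]), (4, [], [1]), (0, [1], [5, 6]), (1, [], [3, 5]), (1, [], [4, 6]), (4, [], [2])]),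
  (2, 7, [(0, [0], [0, 1]), (0, [0], [2, 0]), (0, [1], [3, 4]), (4, [], [1]), (0, [1], [3, 5]), (1, [], [5, 6]), (1, [], [2, 4]), (4, [], [6])]),
  (2, 7, [(0, [0], [0, 1]), (0, [0], [2, 0]), (0, [1], [3, 4]), (4, [], [1]), (0, [1], [3, 5]), (1, [], [2, 6]), (1, [], [4, 5]), (4, [], [6])]),
  (2, 6, [(0, [0], [0, 1]), (0, [0], [2, 0]), (0, [1], [3, 4]), (4, [], [1]), (0, [1], [3, 5]), (1, [], [2, 5]), (4, [], [4])]),
  (2, 6, [(0, [0], [0, 1]), (0, [0], [2, 0]), (0, [1], [3, 4]), (4, [], [1]), (0, [1], [3, 5]), (1, [], [4, 5]), (4, [], [2])]),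
  (2, 6, [(0, [0], [0, 1]), (0, [0], [2, 0]), (0, [1], [3, 4]), (4, [], [1]), (0, [1], [3, 5]), (3, [], [2, 4, 5])]),
  (3, 7, [(0, [0], [0, 1]), (0, [0], [2, 3]), (0, [1], [0, 1]), (4, [], [4]), (0, [2], [5, 6]), (0, [2], [2, 4]), (0, [1], [3, 5]), (4, [], [6])]),
  (3, 7, [(0, [0], [0, 1]), (0, [0], [2, 3]), (0, [1], [0, 1]), (4, [], [4]), (0, [2], [2, 5]), (0, [2], [3, 6]), (0, [1], [5, 6]), (4, [], [4])]),
  (3, 7, [(0, [0], [0, 1]), (0, [0], [2, 3]), (0, [1], [0, 1]), (4, [], [4]), (0, [2], [4, 5]), (0, [2], [2, 6]), (0, [1], [3, 6]), (4, [], [5])]),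
  (2, 7, [(0, [0], [0, 1]), (0, [0], [2, 3]), (0, [1], [0, 1]), (4, [], [4]), (0, [1], [2, 5]), (1, [], [5, 6]), (1, [], [3, 4]), (4, [], [6])]),
  (2, 7, [(0, [0], [0, 1]), (0, [0], [2, 3]), (0, [1], [0, 1]), (4, [], [4]), (0, [1], [2, 5]), (1, [], [4, 6]), (1, [], [3, 5]), (4, [], [6])]),
  (2, 6, [(0, [0], [0, 1]), (0, [0], [2, 3]), (0, [1], [0, 1]), (4, [], [4]), (0, [1], [2, 5]), (1, [], [3, 5]), (4, [], [4])]),
  (2, 6, [(0, [0], [0, 1]), (0, [0], [2, 3]), (0, [1], [0, 1]), (4, [], [4]), (0, [1], [2, 5]), (3, [], [3, 4, 5])]),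
  (3, 7, [(0, [0], [0, 1]), (0, [0], [2, 3]), (0, [1], [4, 0]), (4, [], [1]), (0, [2], [5, 6]), (0, [2], [2, 4]), (0, [1], [3, 5]), (4, [], [6])]),
  (3, 7, [(0, [0], [0, 1]), (0, [0], [2, 3]), (0, [1], [4, 0]), (4, [], [1]), (0, [2], [2, 5]), (0, [2], [3, 6]), (0, [1], [5, 6]), (4, [], [4])]),
  (3, 7, [(0, [0], [0, 1]), (0, [0], [2, 3]), (0, [1], [4, 0]), (4, [], [1]), (0, [2], [2, 5]), (0, [2], [4, 6]), (0, [1], [5, 6]), (4, [], [3])]),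
  (3, 7, [(0, [0], [0, 1]), (0, [0], [2, 3]), (0, [1], [4, 0]), (4, [], [1]), (0, [2], [2, 5]), (0, [2], [4, 6]), (0, [1], [3, 6]), (4, [], [5])]),
  (3, 7, [(0, [0], [0, 1]), (0, [0], [2, 3]), (0, [1], [4, 0]), (4, [], [1]), (0, [2], [4, 5]), (0, [2], [2, 6]), (0, [1], [3, 6]), (4, [], [5])]),
  (2, 7, [(0, [0], [0, 1]), (0, [0], [2, 3]), (0, [1], [4, 0]), (4, [], [1]), (0, [1], [5, 6]), (1, [], [5, 6]), (1, [], [2, 4]), (4, [], [3])]),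
  (2, 7, [(0, [0], [0, 1]), (0, [0], [2, 3]), (0, [1], [4, 0]), (4, [], [1]), (0, [1], [5, 6]), (1, [], [2, 5]), (1, [], [3, 6]), (4, [], [4])]),
  (2, 7, [(0, [0], [0, 1]), (0, [0], [2, 3]), (0, [1], [4, 0]), (4, [], [1]), (0, [1], [5, 6]), (1, [], [2, 5]), (1, [], [4, 6]), (4, [], [3])]),
  (2, 7, [(0, [0], [0, 1]), (0, [0], [2, 3]), (0, [1], [4, 0]), (4, [], [1]), (0, [1], [5, 6]), (1, [], [2, 5]), (1, [], [3, 4]), (4, [], [6])]),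
  (2, 7, [(0, [0], [0, 1]), (0, [0], [2, 3]), (0, [1], [4, 0]), (4, [], [1]), (0, [1], [2, 5]), (1, [], [5, 6]), (1, [], [3, 4]), (4, [], [6])]),
  (2, 7, [(0, [0], [0, 1]), (0, [0], [2, 3]), (0, [1], [4, 0]), (4, [], [1]), (0, [1], [2, 5]), (1, [], [3, 6]), (1, [], [4, 5]), (4, [], [6])]),
  (2, 7, [(0, [0], [0, 1]), (0, [0], [2, 3]), (0, [1], [4, 0]), (4, [], [1]), (0, [1], [2, 5]), (1, [], [4, 6]), (1, [], [3, 5]), (4, [], [6])]),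
  (2, 6, [(0, [0], [0, 1]), (0, [0], [2, 3]), (0, [1], [4, 0]), (4, [], [1]), (0, [1], [2, 5]), (1, [], [3, 5]), (4, [], [4])]),
  (2, 6, [(0, [0], [0, 1]), (0, [0], [2, 3]), (0, [1], [4, 0]), (4, [], [1]), (0, [1], [2, 5]), (3, [], [3, 4, 5])]),
  (3, 7, [(0, [0], [0, 1]), (0, [0], [2, 3]), (0, [1], [1, 3]), (4, [], [4]), (0, [2], [0, 5]), (0, [2], [2, 6]), (0, [1], [5, 6]), (4, [], [4])]),
  (3, 7, [(0, [0], [0, 1]), (0, [0], [2, 3]), (0, [1], [1, 3]), (4, [], [4]), (0, [2], [4, 5]), (0, [2], [0, 6]), (0, [1], [2, 6]), (4, [], [5])]),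
  (2, 7, [(0, [0], [0, 1]), (0, [0], [2, 3]), (0, [1], [1, 3]), (4, [], [4]), (0, [1], [5, 6]), (1, [], [5, 6]), (1, [], [0, 2]), (4, [], [4])]),
  (2, 7, [(0, [0], [0, 1]), (0, [0], [2, 3]), (0, [1], [1, 3]), (4, [], [4]), (0, [1], [5, 6]), (1, [], [0, 5]), (1, [], [2, 6]), (4, [], [4])]),
  (2, 7, [(0, [0], [0, 1]), (0, [0], [2, 3]), (0, [1], [1, 3]), (4, [], [4]), (0, [1], [5, 6]), (1, [], [0, 5]), (1, [], [2, 4]), (4, [], [6])]),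
  (2, 7, [(0, [0], [0, 1]), (0, [0], [2, 3]), (0, [1], [1, 3]), (4, [], [4]), (0, [1], [5, 6]), (1, [], [4, 5]), (1, [], [0, 2]), (4, [], [6])]),
  (2, 7, [(0, [0], [0, 1]), (0, [0], [2, 3]), (0, [1], [1, 3]), (4, [], [4]), (0, [1], [0, 5]), (1, [], [5, 6]), (1, [], [2, 4]), (4, [], [6])]),
  (2, 7, [(0, [0], [0, 1]), (0, [0], [2, 3]), (0, [1], [1, 3]), (4, [], [4]), (0, [1], [0, 5]), (1, [], [4, 6]), (1, [], [2, 5]), (4, [], [6])]),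
  (2, 6, [(0, [0], [0, 1]), (0, [0], [2, 3]), (0, [1], [1, 3]), (4, [], [4]), (0, [1], [0, 5]), (1, [], [2, 5]), (4, [], [4])]),
  (2, 6, [(0, [0], [0, 1]), (0, [0], [2, 3]), (0, [1], [1, 3]), (4, [], [4]), (0, [1], [4, 5]), (1, [], [0, 2]), (4, [], [5])]),
  (2, 6, [(0, [0], [0, 1]), (0, [0], [2, 3]), (0, [1], [1, 3]), (4, [], [4]), (0, [1], [0, 5]), (3, [], [2, 4, 5])]),
  (2, 6, [(0, [0], [0, 1]), (0, [0], [2, 3]), (0, [1], [1, 3]), (4, [], [4]), (0, [1], [4, 5]), (3, [], [0, 2, 5])]),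
  (2, 7, [(0, [0], [0, 1]), (0, [0], [2, 3]), (0, [1], [4, 3]), (4, [], [1]), (0, [1], [5, 6]), (1, [], [5, 6]), (1, [], [2, 4]), (4, [], [0])]),
  (2, 7, [(0, [0], [0, 1]), (0, [0], [2, 3]), (0, [1], [4, 3]), (4, [], [1]), (0, [1], [5, 6]), (1, [], [2, 5]), (1, [], [4, 6]), (4, [], [0])]),
  (2, 7, [(0, [0], [0, 1]), (0, [0], [2, 3]), (0, [1], [4, 3]), (4, [], [1]), (0, [1], [5, 6]), (1, [], [0, 5]), (1, [], [2, 4]), (4, [], [6])]),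
  (2, 7, [(0, [0], [0, 1]), (0, [0], [2, 3]), (0, [1], [4, 3]), (4, [], [1]), (0, [1], [5, 6]), (1, [], [2, 5]), (1, [], [0, 4]), (4, [], [6])]),
  (2, 7, [(0, [0], [0, 1]), (0, [0], [2, 3]), (0, [1], [4, 3]), (4, [], [1]), (0, [1], [5, 6]), (1, [], [4, 5]), (1, [], [0, 2]), (4, [], [6])]),
  (2, 7, [(0, [0], [0, 1]), (0, [0], [2, 1]), (0, [1], [3, 4]), (4, [], [4]), (0, [1], [5, 6]), (1, [], [5, 6]), (1, [], [0, 2]), (4, [], [3])]),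
  (2, 7, [(0, [0], [0, 1]), (0, [0], [2, 1]), (0, [1], [3, 4]), (4, [], [4]), (0, [1], [5, 6]), (1, [], [0, 5]), (1, [], [2, 6]), (4, [], [3])]),
  (2, 7, [(0, [0], [0, 1]), (0, [0], [2, 1]), (0, [1], [3, 4]), (4, [], [4]), (0, [1], [5, 6]), (1, [], [0, 5]), (1, [], [2, 3]), (4, [], [6])]),
  (2, 7, [(0, [0], [0, 1]), (0, [0], [2, 1]), (0, [1], [3, 4]), (4, [], [4]), (0, [1], [5, 6]), (1, [], [3, 5]), (1, [], [0, 2]), (4, [], [6])]),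
  (1, 6, [(0, [0], [0, 1]), (1, [], [0, 1]), (1, [], [2, 3]), (4, [], [4]), (0, [0], [2, 5]), (3, [], [3, 4, 5])]),
  (1, 7, [(0, [0], [0, 1]), (1, [], [2, 0]), (1, [], [3, 1]), (4, [], [4]), (0, [0], [5, 6]), (1, [], [2, 5]), (1, [], [3, 6]), (4, [], [4])]),
  (1, 7, [(0, [0], [0, 1]), (1, [], [2, 0]), (1, [], [3, 1]), (4, [], [4]), (0, [0], [5, 6]), (1, [], [4, 5]), (1, [], [2, 3]), (4, [], [6])]),
  (1, 7, [(0, [0], [0, 1]), (1, [], [2, 0]), (1, [], [3, 1]), (4, [], [4]), (0, [0], [2, 5]), (1, [], [5, 6]), (1, [], [3, 6]), (4, [], [4])]),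
  (1, 7, [(0, [0], [0, 1]), (1, [], [2, 0]), (1, [], [3, 1]), (4, [], [4]), (0, [0], [2, 5]), (1, [], [3, 6]), (1, [], [4, 6]), (4, [], [5])]),
  (1, 7, [(0, [0], [0, 1]), (1, [], [2, 0]), (1, [], [3, 1]), (4, [], [4]), (0, [0], [4, 5]), (1, [], [2, 6]), (1, [], [3, 6]), (4, [], [5])]),
  (1, 7, [(0, [0], [0, 1]), (1, [], [2, 0]), (1, [], [3, 1]), (4, [], [4]), (0, [0], [2, 5]), (1, [], [4, 6]), (1, [], [3, 5]), (4, [], [6])]),
  (1, 6, [(0, [0], [0, 1]), (1, [], [2, 0]), (1, [], [3, 1]), (4, [], [4]), (0, [0], [2, 5]), (1, [], [3, 5]), (4, [], [4])]),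
  (1, 6, [(0, [0], [0, 1]), (1, [], [2, 0]), (1, [], [3, 1]), (4, [], [4]), (0, [0], [4, 5]), (1, [], [2, 3]), (4, [], [5])]),
  (1, 6, [(0, [0], [0, 1]), (1, [], [2, 0]), (1, [], [3, 1]), (4, [], [4]), (0, [0], [2, 5]), (3, [], [3, 4, 5])]),
  (1, 6, [(0, [0], [0, 1]), (1, [], [2, 0]), (1, [], [3, 1]), (4, [], [4]), (0, [0], [4, 5]), (3, [], [2, 3, 5])]),
  (1, 7, [(0, [0], [0, 1]), (1, [], [2, 0]), (1, [], [3, 1]), (4, [], [4]), (0, [0], [2, 3]), (1, [], [5, 6]), (1, [], [5, 6]), (4, [], [4])]),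
  (1, 7, [(0, [0], [0, 1]), (1, [], [2, 0]), (1, [], [3, 1]), (4, [], [4]), (0, [0], [2, 3]), (1, [], [5, 6]), (1, [], [4, 5]), (4, [], [6])]),
  (1, 6, [(0, [0], [0, 1]), (1, [], [2, 0]), (1, [], [3, 1]), (4, [], [4]), (1, [], [2, 5]), (2, [0], [3, 4, 5])]),
  (1, 6, [(0, [0], [0, 1]), (1, [], [2, 0]), (1, [], [3, 4]), (4, [], [1]), (0, [0], [2, 5]), (3, [], [3, 4, 5])]),
  (1, 6, [(0, [0], [0, 1]), (1, [], [2, 0]), (1, [], [3, 4]), (4, [], [1]), (0, [0], [3, 5]), (3, [], [2, 4, 5])]),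
  (1, 7, [(0, [0], [0, 1]), (1, [], [1, 2]), (1, [], [3, 2]), (4, [], [4]), (0, [0], [0, 5]), (1, [], [5, 6]), (1, [], [3, 6]), (4, [], [4])]),
  (1, 7, [(0, [0], [0, 1]), (1, [], [1, 2]), (1, [], [3, 2]), (4, [], [4]), (0, [0], [0, 5]), (1, [], [5, 6]), (1, [], [3, 4]), (4, [], [6])]),
  (1, 7, [(0, [0], [0, 1]), (1, [], [1, 2]), (1, [], [3, 2]), (4, [], [4]), (0, [0], [0, 5]), (1, [], [3, 6]), (1, [], [4, 6]), (4, [], [5])]),
  (1, 7, [(0, [0], [0, 1]), (1, [], [1, 2]), (1, [], [3, 2]), (4, [], [4]), (0, [0], [0, 5]), (1, [], [4, 6]), (1, [], [3, 5]), (4, [], [6])]),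
  (1, 6, [(0, [0], [0, 1]), (1, [], [1, 2]), (1, [], [3, 2]), (4, [], [4]), (0, [0], [0, 5]), (1, [], [3, 5]), (4, [], [4])]),
  (1, 6, [(0, [0], [0, 1]), (1, [], [1, 2]), (1, [], [3, 2]), (4, [], [4]), (0, [0], [0, 5]), (1, [], [3, 4]), (4, [], [5])]),
  (1, 7, [(0, [0], [0, 1]), (1, [], [1, 2]), (1, [], [3, 2]), (4, [], [4]), (0, [0], [0, 3]), (1, [], [5, 6]), (1, [], [5, 6]), (4, [], [4])]),
  (1, 7, [(0, [0], [0, 1]), (1, [], [1, 2]), (1, [], [3, 2]), (4, [], [4]), (0, [0], [0, 3]), (1, [], [5, 6]), (1, [], [4, 5]), (4, [], [6])]),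
  (1, 6, [(0, [0], [0, 1]), (1, [], [1, 2]), (1, [], [3, 2]), (4, [], [4]), (0, [0], [0, 3]), (1, [], [4, 5]), (4, [], [5])]),
  (1, 5, [(0, [0], [0, 1]), (1, [], [1, 2]), (1, [], [3, 2]), (4, [], [4]), (0, [0], [0, 3]), (4, [], [4])]),
  (1, 6, [(0, [0], [0, 1]), (1, [], [1, 2]), (1, [], [3, 2]), (4, [], [4]), (1, [], [3, 5]), (2, [0], [0, 4, 5])]),
  (1, 6, [(0, [0], [0, 1]), (1, [], [1, 2]), (1, [], [3, 2]), (4, [], [4]), (1, [], [4, 5]), (2, [0], [0, 3, 5])]),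
  (1, 5, [(0, [0], [0, 1]), (1, [], [1, 2]), (1, [], [3, 2]), (4, [], [4]), (2, [0], [0, 3, 4])]),
  (1, 7, [(0, [0], [0, 1]), (1, [], [1, 2]), (1, [], [3, 4]), (4, [], [2]), (0, [0], [0, 5]), (1, [], [5, 6]), (1, [], [3, 4]), (4, [], [6])]),
  (1, 6, [(0, [0], [0, 1]), (1, [], [1, 2]), (1, [], [3, 4]), (4, [], [2]), (0, [0], [0, 5]), (3, [], [3, 4, 5])]),
  (1, 7, [(0, [0], [0, 1]), (1, [], [2, 3]), (1, [], [4, 3]), (4, [], [1]), (0, [0], [0, 5]), (1, [], [2, 6]), (1, [], [4, 6]), (4, [], [5])]),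
  (1, 6, [(0, [0], [0, 1]), (1, [], [2, 3]), (1, [], [4, 3]), (4, [], [1]), (1, [], [2, 5]), (2, [0], [0, 4, 5])]),
  (1, 6, [(0, [0], [0, 1]), (1, [], [2, 3]), (1, [], [4, 1]), (4, [], [3]), (0, [0], [0, 5]), (3, [], [2, 4, 5])]),
  (1, 7, [(0, [0], [0, 1]), (1, [], [2, 3]), (1, [], [4, 1]), (4, [], [3]), (0, [0], [0, 4]), (1, [], [5, 6]), (1, [], [5, 6]), (4, [], [2])]),
  (1, 7, [(0, [0], [0, 1]), (1, [], [2, 3]), (1, [], [4, 1]), (4, [], [3]), (0, [0], [0, 4]), (1, [], [5, 6]), (1, [], [2, 5]), (4, [], [6])]),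
  (1, 6, [(0, [0], [0, 1]), (1, [], [2, 3]), (1, [], [4, 1]), (4, [], [3]), (0, [0], [0, 4]), (1, [], [2, 5]), (4, [], [5])]),
  (1, 6, [(0, [0], [0, 1]), (1, [], [2, 3]), (1, [], [4, 1]), (4, [], [3]), (1, [], [2, 5]), (2, [0], [0, 4, 5])]),
  (1, 5, [(0, [0], [0, 1]), (1, [], [2, 1]), (4, [], [3]), (0, [0], [0, 4]), (3, [], [2, 3, 4])]),
  (1, 6, [(0, [0], [0, 1]), (1, [], [2, 1]), (4, [], [3]), (0, [0], [0, 2]), (1, [], [4, 5]), (1, [], [4, 5]), (4, [], [3])]),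
  (1, 5, [(0, [0], [0, 1]), (3, [], [2, 3, 1]), (0, [0], [0, 4]), (3, [], [2, 3, 4])]),
  (1, 6, [(0, [0], [0, 1]), (1, [], [2, 3]), (1, [], [2, 3]), (4, [], [4]), (1, [], [0, 5]), (2, [0], [1, 4, 5])]),
  (1, 7, [(0, [0], [0, 1]), (1, [], [2, 3]), (1, [], [4, 2]), (4, [], [3]), (0, [0], [0, 1]), (1, [], [5, 6]), (1, [], [4, 5]), (4, [], [6])]),
  (1, 6, [(0, [0], [0, 1]), (1, [], [2, 3]), (1, [], [4, 2]), (4, [], [3]), (1, [], [4, 5]), (2, [0], [0, 1, 5])]),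
  (1, 5, [(1, [], [0, 1]), (2, [0], [2, 3, 1]), (1, [], [0, 4]), (2, [0], [2, 3, 4])]),
  (2, 7, [(0, [0], [0, 1]), (0, [0], [2, 1]), (0, [1], [3, 4]), (4, [], [5]), (0, [1], [3, 6]), (1, [], [0, 6]), (1, [], [2, 4]), (4, [], [5])]),
  (2, 7, [(0, [0], [0, 1]), (0, [0], [2, 1]), (0, [1], [3, 4]), (4, [], [5]), (0, [1], [3, 6]), (1, [], [4, 6]), (1, [], [0, 2]), (4, [], [5])]),
  (2, 6, [(0, [0], [0, 1]), (0, [0], [2, 1]), (0, [1], [3, 4]), (4, [], [5]), (1, [], [0, 2]), (2, [1], [3, 4, 5])]),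
  (2, 6, [(0, [0], [0, 1]), (0, [0], [2, 1]), (0, [1], [3, 4]), (4, [], [5]), (1, [], [0, 3]), (2, [1], [2, 4, 5])]),
  (2, 6, [(0, [0], [0, 1]), (0, [0], [2, 1]), (0, [1], [3, 4]), (4, [], [5]), (1, [], [0, 5]), (2, [1], [2, 3, 4])]),
  (2, 6, [(0, [0], [0, 1]), (0, [0], [2, 1]), (0, [1], [3, 4]), (4, [], [5]), (1, [], [3, 4]), (2, [1], [0, 2, 5])]),
  (2, 6, [(0, [0], [0, 1]), (0, [0], [2, 1]), (0, [1], [3, 4]), (4, [], [5]), (1, [], [3, 5]), (2, [1], [0, 2, 4])]),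
  (3, 7, [(0, [0], [0, 1]), (0, [0], [2, 3]), (0, [1], [4, 1]), (4, [], [5]), (0, [2], [0, 6]), (0, [2], [2, 4]), (0, [1], [3, 6]), (4, [], [5])]),
  (3, 7, [(0, [0], [0, 1]), (0, [0], [2, 3]), (0, [1], [4, 1]), (4, [], [5]), (0, [2], [2, 6]), (0, [2], [0, 4]), (0, [1], [3, 6]), (4, [], [5])]),
  (2, 7, [(0, [0], [0, 1]), (0, [0], [2, 3]), (0, [1], [4, 1]), (4, [], [5]), (0, [1], [2, 6]), (1, [], [0, 6]), (1, [], [3, 4]), (4, [], [5])]),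
  (2, 7, [(0, [0], [0, 1]), (0, [0], [2, 3]), (0, [1], [4, 1]), (4, [], [5]), (0, [1], [2, 6]), (1, [], [3, 6]), (1, [], [0, 4]), (4, [], [5])]),
  (2, 7, [(0, [0], [0, 1]), (0, [0], [2, 3]), (0, [1], [4, 1]), (4, [], [5]), (0, [1], [2, 6]), (1, [], [4, 6]), (1, [], [0, 3]), (4, [], [5])]),
  (2, 6, [(0, [0], [0, 1]), (0, [0], [2, 3]), (0, [1], [4, 1]), (4, [], [5]), (1, [], [0, 2]), (2, [1], [3, 4, 5])]),
  (2, 6, [(0, [0], [0, 1]), (0, [0], [2, 3]), (0, [1], [4, 1]), (4, [], [5]), (1, [], [0, 4]), (2, [1], [2, 3, 5])]),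
  (2, 6, [(0, [0], [0, 1]), (0, [0], [2, 3]), (0, [1], [4, 1]), (4, [], [5]), (1, [], [2, 3]), (2, [1], [0, 4, 5])]),
  (2, 6, [(0, [0], [0, 1]), (0, [0], [2, 3]), (0, [1], [4, 1]), (4, [], [5]), (1, [], [2, 4]), (2, [1], [0, 3, 5])]),
  (2, 6, [(0, [0], [0, 1]), (0, [0], [2, 3]), (0, [1], [4, 1]), (4, [], [5]), (1, [], [2, 5]), (2, [1], [0, 3, 4])]),
  (2, 6, [(0, [0], [0, 1]), (0, [0], [2, 3]), (0, [1], [4, 5]), (4, [], [1]), (1, [], [0, 2]), (2, [1], [3, 4, 5])]),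
  (2, 6, [(0, [0], [0, 1]), (0, [0], [2, 3]), (0, [1], [4, 5]), (4, [], [1]), (1, [], [2, 4]), (2, [1], [0, 3, 5])]),
  (2, 6, [(0, [0], [0, 1]), (0, [0], [2, 3]), (0, [1], [4, 5]), (4, [], [5]), (1, [], [0, 2]), (2, [1], [1, 3, 4])]),
  (1, 6, [(0, [0], [0, 1]), (1, [], [2, 1]), (1, [], [3, 4]), (4, [], [5]), (0, [0], [0, 2]), (3, [], [3, 4, 5])]),
  (1, 6, [(0, [0], [0, 1]), (1, [], [2, 1]), (1, [], [3, 4]), (4, [], [5]), (0, [0], [0, 3]), (3, [], [2, 4, 5])]),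
  (1, 6, [(0, [0], [0, 1]), (1, [], [2, 1]), (1, [], [3, 4]), (4, [], [5]), (0, [0], [0, 5]), (3, [], [2, 3, 4])]),
  (1, 5, [(0, [0], [0, 1]), (3, [], [2, 3, 4]), (1, [], [0, 1]), (2, [0], [2, 3, 4])]),
  (1, 5, [(0, [0], [0, 1]), (3, [], [2, 3, 4]), (1, [], [0, 2]), (2, [0], [1, 3, 4])])]

def kl4 : List ℕ := [3, 4, 10, 14, 15, 16, 17, 18, 19, 20, 21, 22, 23, 24, 25, 28, 29, 31, 36, 38, 40, 41, 42, 43, 45, 48, 50, 53, 55, 57, 58, 64, 66, 67, 68, 69, 70, 71, 72, 73, 74, 75, 76, 77, 78, 83, 84, 85, 86, 87, 88, 89, 90, 92, 94, 95, 96, 97, 98, 101, 102, 103, 104, 105, 109, 110, 111, 112, 115, 116, 118, 119, 120, 123, 125, 126, 129, 130, 132, 133, 136, 137, 138, 139, 140, 142, 144, 146, 147, 148, 152, 153, 154, 155, 156, 157, 159, 161, 162, 163, 164, 165, 167, 168, 169, 170, 171, 172, 173, 174, 175, 176, 177, 178, 180, 181, 182, 183, 184, 185, 186, 187, 188, 189,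 191, 196, 197, 198, 199, 200, 201, 202, 204, 210, 211, 212, 213, 216, 217, 218, 219, 220, 221, 222, 223, 224, 225, 226, 227, 228, 229, 230, 233, 234, 236, 237, 238, 239, 240, 241, 242, 243, 252, 253, 254, 255, 256, 259, 260, 261, 262, 263, 267, 268, 269, 273, 274, 275, 276, 284, 285, 286, 287, 288, 289, 290, 291, 292, 295, 297, 298, 299, 300, 302, 303, 304, 305, 306, 307, 309, 311, 312, 313, 314, 315, 323, 324, 325, 326, 327, 332, 333, 334, 335, 343, 345, 346, 347, 348, 349, 350, 351, 352, 353, 354, 355, 356, 359, 363, 364, 366, 367, 368, 369, 370, 371, 375, 376, 377, 378, 379, 380, 381, 382, 384, 387, 390, 392, 394, 395, 396, 398, 400, 403, 406, 416, 417, 418, 419, 422, 423, 424, 425, 426, 427, 428, 429, 430, 431, 432, 433, 434, 435, 436, 437, 438, 439, 440, 441, 442, 443, 444, 445, 446]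

def m4_0 : Base := (1, 1, [(0, [1], [0, 5]), (0, [1], [1, 5]), (0, [0], [2, 3]), (4, [], [4])])

def l4_0 : Cov := [(480, 1, 1, [(0, [1], [0, 5]), (0, [1], [1, 5]), (0, [0], [2, 3]), (4, [], [4])]),
  (480, 1, 1, [(0, [1], [0, 5]), (0, [1], [1, 5]), (0, [0], [2, 4]), (4, [], [3])]),
  (480, 1, 1, [(0, [1], [0, 5]), (0, [1], [1, 5]), (0, [0], [3, 4]), (4, [], [2])]),
  (480, 1, 1, [(0, [1], [0, 5]), (0, [1], [2, 5]), (0, [0], [1, 3]), (4, [], [4])]),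
  (480, 1, 1, [(0, [1], [0, 5]), (0, [1], [2, 5]), (0, [0], [1, 4]), (4, [], [3])]),
  (480, 1, 1, [(0, [1], [0, 5]), (0, [1], [2, 5]), (0, [0], [3, 4]), (4, [], [1])]),
  (480, 1, 1, [(0, [1], [0, 5]), (0, [1], [3, 5]), (0, [0], [1, 2]), (4, [], [4])]),
  (480, 1, 1, [(0, [1], [0, 5]), (0, [1], [3, 5]), (0, [0], [1, 4]), (4, [], [2])]),
  (480, 1, 1, [(0, [1], [0, 5]), (0, [1], [3, 5]), (0, [0], [2, 4]), (4, [], [1])]),
  (480, 1, 1, [(0, [1], [0, 5]), (0, [1], [4, 5]), (0, [0], [1, 2]), (4, [], [3])]),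
  (480, 1, 1, [(0, [1], [0, 5]), (0, [1], [4, 5]), (0, [0], [1, 3]), (4, [], [2])]),
  (480, 1, 1, [(0, [1], [0, 5]), (0, [1], [4, 5]), (0, [0], [2, 3]), (4, [], [1])]),
  (480, 1, 1, [(0, [1], [1, 5]), (0, [1], [2, 5]), (0, [0], [0, 3]), (4, [], [4])]),
  (480, 1, 1, [(0, [1], [1, 5]), (0, [1], [2, 5]), (0, [0], [0, 4]), (4, [], [3])]),
  (480, 1, 1, [(0, [1], [1, 5]), (0, [1], [2, 5]), (0, [0], [3, 4]), (4, [], [0])]),
  (480, 1, 1, [(0, [1], [1, 5]), (0, [1], [3, 5]), (0, [0], [0, 2]), (4, [], [4])]),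
  (480, 1, 1, [(0, [1], [1, 5]), (0, [1], [3, 5]), (0, [0], [0, 4]), (4, [], [2])]),
  (480, 1, 1, [(0, [1], [1, 5]), (0, [1], [3, 5]), (0, [0], [2, 4]), (4, [], [0])]),
  (480, 1, 1, [(0, [1], [1, 5]), (0, [1], [4, 5]), (0, [0], [0, 2]), (4, [], [3])]),
  (480, 1, 1, [(0, [1], [1, 5]), (0, [1], [4, 5]), (0, [0], [0, 3]), (4, [], [2])]),
  (480, 1, 1, [(0, [1], [1, 5]), (0, [1], [4, 5]), (0, [0], [2, 3]), (4, [], [0])]),
  (480, 1, 1, [(0, [1], [2, 5]), (0, [1], [3, 5]), (0, [0], [0, 1]), (4, [], [4])]),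
  (480, 1, 1, [(0, [1], [2, 5]), (0, [1], [3, 5]), (0, [0], [0, 4]), (4, [], [1])]),
  (480, 1, 1, [(0, [1], [2, 5]), (0, [1], [3, 5]), (0, [0], [1, 4]), (4, [], [0])]),
  (480, 1, 1, [(0, [1], [2, 5]), (0, [1], [4, 5]), (0, [0], [0, 1]), (4, [], [3])]),
  (480, 1, 1, [(0, [1], [2, 5]), (0, [1], [4, 5]), (0, [0], [0, 3]), (4, [], [1])]),
  (480, 1, 1, [(0, [1], [2, 5]), (0, [1], [4, 5]), (0, [0], [1, 3]), (4, [], [0])]),
  (480, 1, 1, [(0, [1], [3, 5]), (0, [1], [4, 5]), (0, [0], [0, 1]), (4, [], [2])]),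
  (480, 1, 1, [(0, [1], [3, 5]), (0, [1], [4, 5]), (0, [0], [0, 2]), (4, [], [1])]),
  (480, 1, 1, [(0, [1], [3, 5]), (0, [1], [4, 5]), (0, [0], [1, 2]), (4, [], [0])])]

def z4_0 : Cov := []

def w4_0 : List (List Wit) := [[(0, 0, 0, 0, 0), (1, 0, 0, 0, 0), (0, 0, 0, 0, 0), (2, 0, 0, 0, 0), (1, 0, 0, 0, 0), (2, 0, 0, 0, 0), (3, 0, 0, 0, 0), (4, 0, 0, 0, 0), (3, 0, 0, 0, 0), (5, 0, 0, 0, 0), (4, 0, 0, 0, 0), (5, 0, 0, 0, 0), (6, 0, 0, 0, 0), (7, 0, 0, 0, 0), (6, 0, 0, 0, 0), (8, 0, 0, 0, 0), (7, 0, 0, 0, 0), (8, 0, 0, 0, 0), (9, 0, 0, 0, 0), (10, 0, 0, 0, 0), (9, 0, 0, 0, 0), (11, 0, 0, 0, 0), (10, 0, 0, 0, 0), (11, 0, 0, 0, 0), (0, 0, 0, 0, 0), (1, 0, 0, 0, 0), (0, 0, 0, 0, 0), (2, 0, 0, 0, 0), (1, 0, 0, 0, 0), (2, 0, 0, 0, 0), (12, 0, 0, 0, 0), (13, 0, 0, 0, 0), (12, 0, 0, 0, 0), (14, 0, 0, 0, 0), (13, 0, 0, 0, 0), (14, 0, 0, 0, 0), (15, 0, 0, 0, 0), (16, 0,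 0, 0, 0), (15, 0, 0, 0, 0), (17, 0, 0, 0, 0), (16, 0, 0, 0, 0), (17, 0, 0, 0, 0), (18, 0, 0, 0, 0), (19, 0, 0, 0, 0), (18, 0, 0, 0, 0), (20, 0, 0, 0, 0), (19, 0, 0, 0, 0), (20, 0, 0, 0, 0), (3, 0, 0, 0, 0), (4, 0, 0, 0, 0), (3, 0, 0, 0, 0), (5, 0, 0, 0, 0), (4, 0, 0, 0, 0), (5, 0, 0, 0, 0), (12, 0, 0, 0, 0), (13, 0, 0, 0, 0), (12, 0, 0, 0, 0), (14, 0, 0, 0, 0), (13, 0, 0, 0, 0), (14, 0, 0, 0, 0), (21, 0, 0, 0, 0), (22, 0, 0, 0, 0), (21, 0, 0, 0, 0), (23, 0, 0, 0, 0), (22, 0, 0, 0, 0), (23, 0, 0, 0, 0), (24, 0, 0, 0, 0), (25, 0, 0, 0, 0), (24, 0, 0, 0, 0), (26, 0, 0, 0, 0), (25, 0, 0, 0, 0), (26, 0, 0, 0, 0), (6, 0, 0, 0, 0), (7, 0, 0, 0, 0), (6, 0, 0, 0, 0), (8, 0, 0, 0, 0), (7, 0, 0, 0, 0), (8, 0, 0, 0, 0), (15, 0, 0, 0, 0), (16, 0, 0, 0, 0), (15, 0, 0, 0, 0), (17, 0, 0, 0, 0), (16, 0, 0, 0, 0), (17, 0, 0, 0, 0), (21, 0, 0, 0, 0), (22, 0, 0, 0, 0), (21, 0, 0,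 0, 0), (23, 0, 0, 0, 0), (22, 0, 0, 0, 0), (23, 0, 0, 0, 0), (27, 0, 0, 0, 0), (28, 0, 0, 0, 0), (27, 0, 0, 0, 0), (29, 0, 0, 0, 0), (28, 0, 0, 0, 0), (29, 0, 0, 0, 0), (9, 0, 0, 0, 0), (10, 0, 0, 0, 0), (9, 0, 0, 0, 0), (11, 0, 0, 0, 0), (10, 0, 0, 0, 0), (11, 0, 0, 0, 0), (18, 0, 0, 0, 0), (19, 0, 0, 0, 0), (18, 0, 0, 0, 0), (20, 0, 0, 0, 0), (19, 0, 0, 0, 0), (20, 0, 0, 0, 0), (24, 0, 0, 0, 0), (25, 0, 0, 0, 0), (24, 0, 0, 0, 0), (26, 0, 0, 0, 0), (25, 0, 0, 0, 0), (26, 0, 0, 0, 0), (27, 0, 0, 0, 0), (28, 0, 0, 0, 0), (27, 0, 0, 0, 0), (29, 0, 0, 0, 0), (28, 0, 0, 0, 0), (29, 0, 0, 0, 0)]]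

def m4_1 : Base := (1, 1, [(0, [1], [0, 5]), (0, [1], [1, 2]), (0, [0], [3, 5]), (4, [], [4])])

def l4_1 : Cov := [(240, 1, 1, [(0, [1], [0, 5]), (0, [1], [1, 2]), (0, [0], [3, 5]), (4, [], [4])]),
  (240, 1, 1, [(0, [1], [0, 5]), (0, [1], [1, 2]), (0, [0], [4, 5]), (4, [], [3])]),
  (240, 1, 1, [(0, [1], [0, 5]), (0, [1], [1, 3]), (0, [0], [2, 5]), (4, [], [4])]),
  (240, 1, 1, [(0, [1], [0, 5]), (0, [1], [1, 3]), (0, [0], [4, 5]), (4, [], [2])]),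
  (240, 1, 1, [(0, [1], [0, 5]), (0, [1], [1, 4]), (0, [0], [2, 5]), (4, [], [3])]),
  (240, 1, 1, [(0, [1], [0, 5]), (0, [1], [1, 4]), (0, [0], [3, 5]), (4, [], [2])]),
  (240, 1, 1, [(0, [1], [0, 5]), (0, [1], [2, 3]), (0, [0], [1, 5]), (4, [], [4])]),
  (240, 1, 1, [(0, [1], [0, 5]), (0, [1], [2, 3]), (0, [0], [4, 5]), (4, [], [1])]),
  (240, 1, 1, [(0, [1], [0, 5]), (0, [1], [2, 4]), (0, [0], [1, 5]), (4, [], [3])]),
  (240, 1, 1, [(0, [1], [0, 5]), (0, [1], [2, 4]), (0, [0], [3, 5]), (4, [], [1])]),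
  (240, 1, 1, [(0, [1], [0, 5]), (0, [1], [3, 4]), (0, [0], [1, 5]), (4, [], [2])]),
  (240, 1, 1, [(0, [1], [0, 5]), (0, [1], [3, 4]), (0, [0], [2, 5]), (4, [], [1])]),
  (240, 1, 1, [(0, [1], [1, 5]), (0, [1], [0, 2]), (0, [0], [3, 5]), (4, [], [4])]),
  (240, 1, 1, [(0, [1], [1, 5]), (0, [1], [0, 2]), (0, [0], [4, 5]), (4, [], [3])]),
  (240, 1, 1, [(0, [1], [1, 5]), (0, [1], [0, 3]), (0, [0], [2, 5]), (4, [], [4])]),
  (240, 1, 1, [(0, [1], [1, 5]), (0, [1], [0, 3]), (0, [0], [4, 5]), (4, [], [2])]),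
  (240, 1, 1, [(0, [1], [1, 5]), (0, [1], [0, 4]), (0, [0], [2, 5]), (4, [], [3])]),
  (240, 1, 1, [(0, [1], [1, 5]), (0, [1], [0, 4]), (0, [0], [3, 5]), (4, [], [2])]),
  (240, 1, 1, [(0, [1], [1, 5]), (0, [1], [2, 3]), (0, [0], [0, 5]), (4, [], [4])]),
  (240, 1, 1, [(0, [1], [1, 5]), (0, [1], [2, 3]), (0, [0], [4, 5]), (4, [], [0])]),
  (240, 1, 1, [(0, [1], [1, 5]), (0, [1], [2, 4]), (0, [0], [0, 5]), (4, [], [3])]),
  (240, 1, 1, [(0, [1], [1, 5]), (0, [1], [2, 4]), (0, [0], [3, 5]), (4, [], [0])]),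
  (240, 1, 1, [(0, [1], [1, 5]), (0, [1], [3, 4]), (0, [0], [0, 5]), (4, [], [2])]),
  (240, 1, 1, [(0, [1], [1, 5]), (0, [1], [3, 4]), (0, [0], [2, 5]), (4, [], [0])]),
  (240, 1, 1, [(0, [1], [2, 5]), (0, [1], [0, 1]), (0, [0], [3, 5]), (4, [], [4])]),
  (240, 1, 1, [(0, [1], [2, 5]), (0, [1], [0, 1]), (0, [0], [4, 5]), (4, [], [3])]),
  (240, 1, 1, [(0, [1], [2, 5]), (0, [1], [0, 3]), (0, [0], [1, 5]), (4, [], [4])]),
  (240, 1, 1, [(0, [1], [2, 5]), (0, [1], [0, 3]), (0, [0], [4, 5]), (4, [], [1])]),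
  (240, 1, 1, [(0, [1], [2, 5]), (0, [1], [0, 4]), (0, [0], [1, 5]), (4, [], [3])]),
  (240, 1, 1, [(0, [1], [2, 5]), (0, [1], [0, 4]), (0, [0], [3, 5]), (4, [], [1])]),
  (240, 1, 1, [(0, [1], [2, 5]), (0, [1], [1, 3]), (0, [0], [0, 5]), (4, [], [4])]),
  (240, 1, 1, [(0, [1], [2, 5]), (0, [1], [1, 3]), (0, [0], [4, 5]), (4, [], [0])]),
  (240, 1, 1, [(0, [1], [2, 5]), (0, [1], [1, 4]), (0, [0], [0, 5]), (4, [], [3])]),
  (240, 1, 1, [(0, [1], [2, 5]), (0, [1], [1, 4]), (0, [0], [3, 5]), (4, [], [0])]),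
  (240, 1, 1, [(0, [1], [2, 5]), (0, [1], [3, 4]), (0, [0], [0, 5]), (4, [], [1])]),
  (240, 1, 1, [(0, [1], [2, 5]), (0, [1], [3, 4]), (0, [0], [1, 5]), (4, [], [0])]),
  (240, 1, 1, [(0, [1], [3, 5]), (0, [1], [0, 1]), (0, [0], [2, 5]), (4, [], [4])]),
  (240, 1, 1, [(0, [1], [3, 5]), (0, [1], [0, 1]), (0, [0], [4, 5]), (4, [], [2])]),
  (240, 1, 1, [(0, [1], [3, 5]), (0, [1], [0, 2]), (0, [0], [1, 5]), (4, [], [4])]),
  (240, 1, 1, [(0, [1], [3, 5]), (0, [1], [0, 2]), (0, [0], [4, 5]), (4, [], [1])]),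
  (240, 1, 1, [(0, [1], [3, 5]), (0, [1], [0, 4]), (0, [0], [1, 5]), (4, [], [2])]),
  (240, 1, 1, [(0, [1], [3, 5]), (0, [1], [0, 4]), (0, [0], [2, 5]), (4, [], [1])]),
  (240, 1, 1, [(0, [1], [3, 5]), (0, [1], [1, 2]), (0, [0], [0, 5]), (4, [], [4])]),
  (240, 1, 1, [(0, [1], [3, 5]), (0, [1], [1, 2]), (0, [0], [4, 5]), (4, [], [0])]),
  (240, 1, 1, [(0, [1], [3, 5]), (0, [1], [1, 4]), (0, [0], [0, 5]), (4, [], [2])]),
  (240, 1, 1, [(0, [1], [3, 5]), (0, [1], [1, 4]), (0, [0], [2, 5]), (4, [], [0])]),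
  (240, 1, 1, [(0, [1], [3, 5]), (0, [1], [2, 4]), (0, [0], [0, 5]), (4, [], [1])]),
  (240, 1, 1, [(0, [1], [3, 5]), (0, [1], [2, 4]), (0, [0], [1, 5]), (4, [], [0])]),
  (240, 1, 1, [(0, [1], [4, 5]), (0, [1], [0, 1]), (0, [0], [2, 5]), (4, [], [3])]),
  (240, 1, 1, [(0, [1], [4, 5]), (0, [1], [0, 1]), (0, [0], [3, 5]), (4, [], [2])]),
  (240, 1, 1, [(0, [1], [4, 5]), (0, [1], [0, 2]), (0, [0], [1, 5]), (4, [], [3])]),
  (240, 1, 1, [(0, [1], [4, 5]), (0, [1], [0, 2]), (0, [0], [3, 5]), (4, [], [1])]),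
  (240, 1, 1, [(0, [1], [4, 5]), (0, [1], [0, 3]), (0, [0], [1, 5]), (4, [], [2])]),
  (240, 1, 1, [(0, [1], [4, 5]), (0, [1], [0, 3]), (0, [0], [2, 5]), (4, [], [1])]),
  (240, 1, 1, [(0, [1], [4, 5]), (0, [1], [1, 2]), (0, [0], [0, 5]), (4, [], [3])]),
  (240, 1, 1, [(0, [1], [4, 5]), (0, [1], [1, 2]), (0, [0], [3, 5]), (4, [], [0])]),
  (240, 1, 1, [(0, [1], [4, 5]), (0, [1], [1, 3]), (0, [0], [0, 5]), (4, [], [2])]),
  (240, 1, 1, [(0, [1], [4, 5]), (0, [1], [1, 3]), (0, [0], [2, 5]), (4, [], [0])]),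
  (240, 1, 1, [(0, [1], [4, 5]), (0, [1], [2, 3]), (0, [0], [0, 5]), (4, [], [1])]),
  (240, 1, 1, [(0, [1], [4, 5]), (0, [1], [2, 3]), (0, [0], [1, 5]), (4, [], [0])])]

def z4_1 : Cov := []

def w4_1 : List (List Wit) := [[(0, 0, 0, 0, 0), (1, 0, 0, 0, 0), (2, 0, 0, 0, 0), (3, 0, 0, 0, 0), (4, 0, 0, 0, 0), (5, 0, 0, 0, 0), (0, 0, 0, 0, 0), (1, 0, 0, 0, 0), (6, 0, 0, 0, 0), (7, 0, 0, 0, 0), (8, 0, 0, 0, 0), (9, 0, 0, 0, 0), (2, 0, 0, 0, 0), (3, 0, 0, 0, 0), (6, 0, 0, 0, 0), (7, 0, 0, 0, 0), (10, 0, 0, 0, 0), (11, 0, 0, 0, 0), (4, 0, 0, 0, 0), (5, 0, 0, 0, 0), (8, 0, 0, 0, 0), (9, 0, 0, 0, 0), (10, 0, 0, 0, 0), (11, 0, 0, 0, 0), (12, 0, 0, 0, 0), (13, 0, 0, 0, 0), (14, 0, 0, 0, 0), (15, 0, 0, 0, 0), (16, 0, 0, 0, 0), (17, 0, 0, 0, 0), (12, 0, 0, 0, 0), (13, 0, 0, 0, 0), (18, 0, 0, 0, 0), (19, 0, 0, 0, 0), (20, 0, 0, 0, 0), (21, 0, 0, 0, 0), (14, 0, 0, 0, 0),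 (15, 0, 0, 0, 0), (18, 0, 0, 0, 0), (19, 0, 0, 0, 0), (22, 0, 0, 0, 0), (23, 0, 0, 0, 0), (16, 0, 0, 0, 0), (17, 0, 0, 0, 0), (20, 0, 0, 0, 0), (21, 0, 0, 0, 0), (22, 0, 0, 0, 0), (23, 0, 0, 0, 0), (24, 0, 0, 0, 0), (25, 0, 0, 0, 0), (26, 0, 0, 0, 0), (27, 0, 0, 0, 0), (28, 0, 0, 0, 0), (29, 0, 0, 0, 0), (24, 0, 0, 0, 0), (25, 0, 0, 0, 0), (30, 0, 0, 0, 0), (31, 0, 0, 0, 0), (32, 0, 0, 0, 0), (33, 0, 0, 0, 0), (26, 0, 0, 0, 0), (27, 0, 0, 0, 0), (30, 0, 0, 0, 0), (31, 0, 0, 0, 0), (34, 0, 0, 0, 0), (35, 0, 0, 0, 0), (28, 0, 0, 0, 0), (29, 0, 0, 0, 0), (32, 0, 0, 0, 0), (33, 0, 0, 0, 0), (34, 0, 0, 0, 0), (35, 0, 0, 0, 0), (36, 0, 0, 0, 0), (37, 0, 0, 0, 0), (38, 0, 0, 0, 0), (39, 0, 0, 0, 0), (40, 0, 0, 0, 0), (41, 0, 0, 0, 0), (36, 0, 0, 0, 0), (37, 0, 0, 0, 0), (42, 0, 0, 0, 0), (43, 0, 0, 0, 0), (44, 0, 0, 0, 0), (45, 0, 0, 0, 0), (38, 0, 0, 0, 0), (39, 0,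 0, 0, 0), (42, 0, 0, 0, 0), (43, 0, 0, 0, 0), (46, 0, 0, 0, 0), (47, 0, 0, 0, 0), (40, 0, 0, 0, 0), (41, 0, 0, 0, 0), (44, 0, 0, 0, 0), (45, 0, 0, 0, 0), (46, 0, 0, 0, 0), (47, 0, 0, 0, 0), (48, 0, 0, 0, 0), (49, 0, 0, 0, 0), (50, 0, 0, 0, 0), (51, 0, 0, 0, 0), (52, 0, 0, 0, 0), (53, 0, 0, 0, 0), (48, 0, 0, 0, 0), (49, 0, 0, 0, 0), (54, 0, 0, 0, 0), (55, 0, 0, 0, 0), (56, 0, 0, 0, 0), (57, 0, 0, 0, 0), (50, 0, 0, 0, 0), (51, 0, 0, 0, 0), (54, 0, 0, 0, 0), (55, 0, 0, 0, 0), (58, 0, 0, 0, 0), (59, 0, 0, 0, 0), (52, 0, 0, 0, 0), (53, 0, 0, 0, 0), (56, 0, 0, 0, 0), (57, 0, 0, 0, 0), (58, 0, 0, 0, 0), (59, 0, 0, 0, 0)]]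

def m4_2 : Base := (1, 1, [(0, [1], [0, 5]), (0, [1], [1, 2]), (0, [0], [3, 4]), (4, [], [5])])

def l4_2 : Cov := [(480, 1, 1, [(0, [1], [0, 5]), (0, [1], [1, 2]), (0, [0], [3, 4]), (4, [], [5])]),
  (480, 1, 1, [(0, [1], [0, 5]), (0, [1], [1, 3]), (0, [0], [2, 4]), (4, [], [5])]),
  (480, 1, 1, [(0, [1], [0, 5]), (0, [1], [1, 4]), (0, [0], [2, 3]), (4, [], [5])]),
  (480, 1, 1, [(0, [1], [0, 5]), (0, [1], [2, 3]), (0, [0], [1, 4]), (4, [], [5])]),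
  (480, 1, 1, [(0, [1], [0, 5]), (0, [1], [2, 4]), (0, [0], [1, 3]), (4, [], [5])]),
  (480, 1, 1, [(0, [1], [0, 5]), (0, [1], [3, 4]), (0, [0], [1, 2]), (4, [], [5])]),
  (480, 1, 1, [(0, [1], [1, 5]), (0, [1], [0, 2]), (0, [0], [3, 4]), (4, [], [5])]),
  (480, 1, 1, [(0, [1], [1, 5]), (0, [1], [0, 3]), (0, [0], [2, 4]), (4, [], [5])]),
  (480, 1, 1, [(0, [1], [1, 5]), (0, [1], [0, 4]), (0, [0], [2, 3]), (4, [], [5])]),
  (480, 1, 1, [(0, [1], [1, 5]), (0, [1], [2, 3]), (0, [0], [0, 4]), (4, [], [5])]),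
  (480, 1, 1, [(0, [1], [1, 5]), (0, [1], [2, 4]), (0, [0], [0, 3]), (4, [], [5])]),
  (480, 1, 1, [(0, [1], [1, 5]), (0, [1], [3, 4]), (0, [0], [0, 2]), (4, [], [5])]),
  (480, 1, 1, [(0, [1], [2, 5]), (0, [1], [0, 1]), (0, [0], [3, 4]), (4, [], [5])]),
  (480, 1, 1, [(0, [1], [2, 5]), (0, [1], [0, 3]), (0, [0], [1, 4]), (4, [], [5])]),
  (480, 1, 1, [(0, [1], [2, 5]), (0, [1], [0, 4]), (0, [0], [1, 3]), (4, [], [5])]),
  (480, 1, 1, [(0, [1], [2, 5]), (0, [1], [1, 3]), (0, [0], [0, 4]), (4, [], [5])]),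
  (480, 1, 1, [(0, [1], [2, 5]), (0, [1], [1, 4]), (0, [0], [0, 3]), (4, [], [5])]),
  (480, 1, 1, [(0, [1], [2, 5]), (0, [1], [3, 4]), (0, [0], [0, 1]), (4, [], [5])]),
  (480, 1, 1, [(0, [1], [3, 5]), (0, [1], [0, 1]), (0, [0], [2, 4]), (4, [], [5])]),
  (480, 1, 1, [(0, [1], [3, 5]), (0, [1], [0, 2]), (0, [0], [1, 4]), (4, [], [5])]),
  (480, 1, 1, [(0, [1], [3, 5]), (0, [1], [0, 4]), (0, [0], [1, 2]), (4, [], [5])]),
  (480, 1, 1, [(0, [1], [3, 5]), (0, [1], [1, 2]), (0, [0], [0, 4]), (4, [], [5])]),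
  (480, 1, 1, [(0, [1], [3, 5]), (0, [1], [1, 4]), (0, [0], [0, 2]), (4, [], [5])]),
  (480, 1, 1, [(0, [1], [3, 5]), (0, [1], [2, 4]), (0, [0], [0, 1]), (4, [], [5])]),
  (480, 1, 1, [(0, [1], [4, 5]), (0, [1], [0, 1]), (0, [0], [2, 3]), (4, [], [5])]),
  (480, 1, 1, [(0, [1], [4, 5]), (0, [1], [0, 2]), (0, [0], [1, 3]), (4, [], [5])]),
  (480, 1, 1, [(0, [1], [4, 5]), (0, [1], [0, 3]), (0, [0], [1, 2]), (4, [], [5])]),
  (480, 1, 1, [(0, [1], [4, 5]), (0, [1], [1, 2]), (0, [0], [0, 3]), (4, [], [5])]),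
  (480, 1, 1, [(0, [1], [4, 5]), (0, [1], [1, 3]), (0, [0], [0, 2]), (4, [], [5])]),
  (480, 1, 1, [(0, [1], [4, 5]), (0, [1], [2, 3]), (0, [0], [0, 1]), (4, [], [5])])]

def z4_2 : Cov := []

def w4_2 : List (List Wit) := [[(0, 0, 0, 0, 0), (0, 0, 0, 0, 0), (1, 0, 0, 0, 0), (1, 0, 0, 0, 0), (2, 0, 0, 0, 0), (2, 0, 0, 0, 0), (0, 0, 0, 0, 0), (0, 0, 0, 0, 0), (3, 0, 0, 0, 0), (3, 0, 0, 0, 0), (4, 0, 0, 0, 0), (4, 0, 0, 0, 0), (1, 0, 0, 0, 0), (1, 0, 0, 0, 0), (3, 0, 0, 0, 0), (3, 0, 0, 0, 0), (5, 0, 0, 0, 0), (5, 0, 0, 0, 0), (2, 0, 0, 0, 0), (2, 0, 0, 0, 0), (4, 0, 0, 0, 0), (4, 0, 0, 0, 0), (5, 0, 0, 0, 0), (5, 0, 0, 0, 0), (6, 0, 0, 0, 0), (6, 0, 0, 0, 0), (7, 0, 0, 0, 0), (7, 0, 0, 0, 0), (8, 0, 0, 0, 0), (8, 0, 0, 0, 0), (6, 0, 0, 0, 0), (6, 0, 0, 0, 0), (9, 0, 0, 0, 0), (9, 0, 0, 0, 0), (10, 0, 0, 0, 0), (10, 0, 0, 0, 0), (7, 0, 0, 0, 0), (7, 0, 0, 0, 0),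 (9, 0, 0, 0, 0), (9, 0, 0, 0, 0), (11, 0, 0, 0, 0), (11, 0, 0, 0, 0), (8, 0, 0, 0, 0), (8, 0, 0, 0, 0), (10, 0, 0, 0, 0), (10, 0, 0, 0, 0), (11, 0, 0, 0, 0), (11, 0, 0, 0, 0), (12, 0, 0, 0, 0), (12, 0, 0, 0, 0), (13, 0, 0, 0, 0), (13, 0, 0, 0, 0), (14, 0, 0, 0, 0), (14, 0, 0, 0, 0), (12, 0, 0, 0, 0), (12, 0, 0, 0, 0), (15, 0, 0, 0, 0), (15, 0, 0, 0, 0), (16, 0, 0, 0, 0), (16, 0, 0, 0, 0), (13, 0, 0, 0, 0), (13, 0, 0, 0, 0), (15, 0, 0, 0, 0), (15, 0, 0, 0, 0), (17, 0, 0, 0, 0), (17, 0, 0, 0, 0), (14, 0, 0, 0, 0), (14, 0, 0, 0, 0), (16, 0, 0, 0, 0), (16, 0, 0, 0, 0), (17, 0, 0, 0, 0), (17, 0, 0, 0, 0), (18, 0, 0, 0, 0), (18, 0, 0, 0, 0), (19, 0, 0, 0, 0), (19, 0, 0, 0, 0), (20, 0, 0, 0, 0), (20, 0, 0, 0, 0), (18, 0, 0, 0, 0), (18, 0, 0, 0, 0), (21, 0, 0, 0, 0), (21, 0, 0, 0, 0), (22, 0, 0, 0, 0), (22, 0, 0, 0, 0), (19, 0, 0, 0, 0), (19, 0, 0, 0, 0), (21, 0, 0,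 0, 0), (21, 0, 0, 0, 0), (23, 0, 0, 0, 0), (23, 0, 0, 0, 0), (20, 0, 0, 0, 0), (20, 0, 0, 0, 0), (22, 0, 0, 0, 0), (22, 0, 0, 0, 0), (23, 0, 0, 0, 0), (23, 0, 0, 0, 0), (24, 0, 0, 0, 0), (24, 0, 0, 0, 0), (25, 0, 0, 0, 0), (25, 0, 0, 0, 0), (26, 0, 0, 0, 0), (26, 0, 0, 0, 0), (24, 0, 0, 0, 0), (24, 0, 0, 0, 0), (27, 0, 0, 0, 0), (27, 0, 0, 0, 0), (28, 0, 0, 0, 0), (28, 0, 0, 0, 0), (25, 0, 0, 0, 0), (25, 0, 0, 0, 0), (27, 0, 0, 0, 0), (27, 0, 0, 0, 0), (29, 0, 0, 0, 0), (29, 0, 0, 0, 0), (26, 0, 0, 0, 0), (26, 0, 0, 0, 0), (28, 0, 0, 0, 0), (28, 0, 0, 0, 0), (29, 0, 0, 0, 0), (29, 0, 0, 0, 0)]]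

def m4_3 : Base := (1, 1, [(0, [1], [0, 1]), (0, [1], [2, 3]), (0, [0], [4, 5]), (4, [], [5])])

def l4_3 : Cov := [(960, 1, 1, [(0, [1], [0, 1]), (0, [1], [2, 3]), (0, [0], [4, 5]), (4, [], [5])]),
  (960, 1, 1, [(0, [1], [0, 1]), (0, [1], [2, 4]), (0, [0], [3, 5]), (4, [], [5])]),
  (960, 1, 1, [(0, [1], [0, 1]), (0, [1], [3, 4]), (0, [0], [2, 5]), (4, [], [5])]),
  (960, 1, 1, [(0, [1], [0, 2]), (0, [1], [1, 3]), (0, [0], [4, 5]), (4, [], [5])]),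
  (960, 1, 1, [(0, [1], [0, 2]), (0, [1], [1, 4]), (0, [0], [3, 5]), (4, [], [5])]),
  (960, 1, 1, [(0, [1], [0, 2]), (0, [1], [3, 4]), (0, [0], [1, 5]), (4, [], [5])]),
  (960, 1, 1, [(0, [1], [0, 3]), (0, [1], [1, 2]), (0, [0], [4, 5]), (4, [], [5])]),
  (960, 1, 1, [(0, [1], [0, 3]), (0, [1], [1, 4]), (0, [0], [2, 5]), (4, [], [5])]),
  (960, 1, 1, [(0, [1], [0, 3]), (0, [1], [2, 4]), (0, [0], [1, 5]), (4, [], [5])]),
  (960, 1, 1, [(0, [1], [0, 4]), (0, [1], [1, 2]), (0, [0], [3, 5]), (4, [], [5])]),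
  (960, 1, 1, [(0, [1], [0, 4]), (0, [1], [1, 3]), (0, [0], [2, 5]), (4, [], [5])]),
  (960, 1, 1, [(0, [1], [0, 4]), (0, [1], [2, 3]), (0, [0], [1, 5]), (4, [], [5])]),
  (960, 1, 1, [(0, [1], [1, 2]), (0, [1], [3, 4]), (0, [0], [0, 5]), (4, [], [5])]),
  (960, 1, 1, [(0, [1], [1, 3]), (0, [1], [2, 4]), (0, [0], [0, 5]), (4, [], [5])]),
  (960, 1, 1, [(0, [1], [1, 4]), (0, [1], [2, 3]), (0, [0], [0, 5]), (4, [], [5])])]

def z4_3 : Cov := []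

def w4_3 : List (List Wit) := [[(0, 0, 0, 0, 0), (1, 0, 0, 0, 0), (0, 0, 0, 0, 0), (2, 0, 0, 0, 0), (1, 0, 0, 0, 0), (2, 0, 0, 0, 0), (3, 0, 0, 0, 0), (4, 0, 0, 0, 0), (3, 0, 0, 0, 0), (5, 0, 0, 0, 0), (4, 0, 0, 0, 0), (5, 0, 0, 0, 0), (6, 0, 0, 0, 0), (7, 0, 0, 0, 0), (6, 0, 0, 0, 0), (8, 0, 0, 0, 0), (7, 0, 0, 0, 0), (8, 0, 0, 0, 0), (9, 0, 0, 0, 0), (10, 0, 0, 0, 0), (9, 0, 0, 0, 0), (11, 0, 0, 0, 0), (10, 0, 0, 0, 0), (11, 0, 0, 0, 0), (0, 0, 0, 0, 0), (1, 0, 0, 0, 0), (0, 0, 0, 0, 0), (2, 0, 0, 0, 0), (1, 0, 0, 0, 0), (2, 0, 0, 0, 0), (6, 0, 0, 0, 0), (9, 0, 0, 0, 0), (6, 0, 0, 0, 0), (12, 0, 0, 0, 0), (9, 0, 0, 0, 0), (12, 0, 0, 0, 0), (3, 0, 0, 0, 0), (10, 0, 0, 0, 0), (3, 0, 0, 0, 0), (13, 0, 0, 0, 0), (10, 0, 0, 0, 0), (13, 0, 0, 0, 0), (4, 0, 0, 0, 0), (7, 0, 0, 0, 0), (4, 0, 0, 0, 0), (14, 0, 0, 0, 0), (7, 0, 0, 0, 0), (14, 0, 0, 0, 0), (3, 0, 0,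 0, 0), (4, 0, 0, 0, 0), (3, 0, 0, 0, 0), (5, 0, 0, 0, 0), (4, 0, 0, 0, 0), (5, 0, 0, 0, 0), (6, 0, 0, 0, 0), (9, 0, 0, 0, 0), (6, 0, 0, 0, 0), (12, 0, 0, 0, 0), (9, 0, 0, 0, 0), (12, 0, 0, 0, 0), (0, 0, 0, 0, 0), (11, 0, 0, 0, 0), (0, 0, 0, 0, 0), (14, 0, 0, 0, 0), (11, 0, 0, 0, 0), (14, 0, 0, 0, 0), (1, 0, 0, 0, 0), (8, 0, 0, 0, 0), (1, 0, 0, 0, 0), (13, 0, 0, 0, 0), (8, 0, 0, 0, 0), (13, 0, 0, 0, 0), (6, 0, 0, 0, 0), (7, 0, 0, 0, 0), (6, 0, 0, 0, 0), (8, 0, 0, 0, 0), (7, 0, 0, 0, 0), (8, 0, 0, 0, 0), (3, 0, 0, 0, 0), (10, 0, 0, 0, 0), (3, 0, 0, 0, 0), (13, 0, 0, 0, 0), (10, 0, 0, 0, 0), (13, 0, 0, 0, 0), (0, 0, 0, 0, 0), (11, 0, 0, 0, 0), (0, 0, 0, 0, 0), (14, 0, 0, 0, 0), (11, 0, 0, 0, 0), (14, 0, 0, 0, 0), (2, 0, 0, 0, 0), (5, 0, 0, 0, 0), (2, 0, 0, 0, 0), (12, 0, 0, 0, 0), (5, 0, 0, 0, 0), (12, 0, 0, 0, 0), (9, 0, 0, 0, 0), (10, 0, 0, 0, 0), (9, 0, 0, 0,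 0), (11, 0, 0, 0, 0), (10, 0, 0, 0, 0), (11, 0, 0, 0, 0), (4, 0, 0, 0, 0), (7, 0, 0, 0, 0), (4, 0, 0, 0, 0), (14, 0, 0, 0, 0), (7, 0, 0, 0, 0), (14, 0, 0, 0, 0), (1, 0, 0, 0, 0), (8, 0, 0, 0, 0), (1, 0, 0, 0, 0), (13, 0, 0, 0, 0), (8, 0, 0, 0, 0), (13, 0, 0, 0, 0), (2, 0, 0, 0, 0), (5, 0, 0, 0, 0), (2, 0, 0, 0, 0), (12, 0, 0, 0, 0), (5, 0, 0, 0, 0), (12, 0, 0, 0, 0)]]

def m4_4 : Base := (0, 1, [(0, [0], [0, 5]), (1, [], [1, 5]), (1, [], [2, 3]), (4, [], [4])])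

def l4_4 : Cov := [(240, 0, 1, [(0, [0], [0, 5]), (1, [], [1, 5]), (1, [], [2, 3]), (4, [], [4])]),
  (240, 0, 1, [(0, [0], [0, 5]), (1, [], [1, 5]), (1, [], [2, 4]), (4, [], [3])]),
  (240, 0, 1, [(0, [0], [0, 5]), (1, [], [1, 5]), (1, [], [3, 4]), (4, [], [2])]),
  (240, 0, 1, [(0, [0], [0, 5]), (1, [], [2, 5]), (1, [], [1, 3]), (4, [], [4])]),
  (240, 0, 1, [(0, [0], [0, 5]), (1, [], [2, 5]), (1, [], [1, 4]), (4, [], [3])]),
  (240, 0, 1, [(0, [0], [0, 5]), (1, [], [2, 5]), (1, [], [3, 4]), (4, [], [1])]),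
  (240, 0, 1, [(0, [0], [0, 5]), (1, [], [3, 5]), (1, [], [1, 2]), (4, [], [4])]),
  (240, 0, 1, [(0, [0], [0, 5]), (1, [], [3, 5]), (1, [], [1, 4]), (4, [], [2])]),
  (240, 0, 1, [(0, [0], [0, 5]), (1, [], [3, 5]), (1, [], [2, 4]), (4, [], [1])]),
  (240, 0, 1, [(0, [0], [0, 5]), (1, [], [4, 5]), (1, [], [1, 2]), (4, [], [3])]),
  (240, 0, 1, [(0, [0], [0, 5]), (1, [], [4, 5]), (1, [], [1, 3]), (4, [], [2])]),
  (240, 0, 1, [(0, [0], [0, 5]), (1, [], [4, 5]), (1, [], [2, 3]), (4, [], [1])]),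
  (240, 0, 1, [(0, [0], [1, 5]), (1, [], [0, 5]), (1, [], [2, 3]), (4, [], [4])]),
  (240, 0, 1, [(0, [0], [1, 5]), (1, [], [0, 5]), (1, [], [2, 4]), (4, [], [3])]),
  (240, 0, 1, [(0, [0], [1, 5]), (1, [], [0, 5]), (1, [], [3, 4]), (4, [], [2])]),
  (240, 0, 1, [(0, [0], [1, 5]), (1, [], [2, 5]), (1, [], [0, 3]), (4, [], [4])]),
  (240, 0, 1, [(0, [0], [1, 5]), (1, [], [2, 5]), (1, [], [0, 4]), (4, [], [3])]),
  (240, 0, 1, [(0, [0], [1, 5]), (1, [], [2, 5]), (1, [], [3, 4]), (4, [], [0])]),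
  (240, 0, 1, [(0, [0], [1, 5]), (1, [], [3, 5]), (1, [], [0, 2]), (4, [], [4])]),
  (240, 0, 1, [(0, [0], [1, 5]), (1, [], [3, 5]), (1, [], [0, 4]), (4, [], [2])]),
  (240, 0, 1, [(0, [0], [1, 5]), (1, [], [3, 5]), (1, [], [2, 4]), (4, [], [0])]),
  (240, 0, 1, [(0, [0], [1, 5]), (1, [], [4, 5]), (1, [], [0, 2]), (4, [], [3])]),
  (240, 0, 1, [(0, [0], [1, 5]), (1, [], [4, 5]), (1, [], [0, 3]), (4, [], [2])]),
  (240, 0, 1, [(0, [0], [1, 5]), (1, [], [4, 5]), (1, [], [2, 3]), (4, [], [0])]),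
  (240, 0, 1, [(0, [0], [2, 5]), (1, [], [0, 5]), (1, [], [1, 3]), (4, [], [4])]),
  (240, 0, 1, [(0, [0], [2, 5]), (1, [], [0, 5]), (1, [], [1, 4]), (4, [], [3])]),
  (240, 0, 1, [(0, [0], [2, 5]), (1, [], [0, 5]), (1, [], [3, 4]), (4, [], [1])]),
  (240, 0, 1, [(0, [0], [2, 5]), (1, [], [1, 5]), (1, [], [0, 3]), (4, [], [4])]),
  (240, 0, 1, [(0, [0], [2, 5]), (1, [], [1, 5]), (1, [], [0, 4]), (4, [], [3])]),
  (240, 0, 1, [(0, [0], [2, 5]), (1, [], [1, 5]), (1, [], [3, 4]), (4, [], [0])]),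
  (240, 0, 1, [(0, [0], [2, 5]), (1, [], [3, 5]), (1, [], [0, 1]), (4, [], [4])]),
  (240, 0, 1, [(0, [0], [2, 5]), (1, [], [3, 5]), (1, [], [0, 4]), (4, [], [1])]),
  (240, 0, 1, [(0, [0], [2, 5]), (1, [], [3, 5]), (1, [], [1, 4]), (4, [], [0])]),
  (240, 0, 1, [(0, [0], [2, 5]), (1, [], [4, 5]), (1, [], [0, 1]), (4, [], [3])]),
  (240, 0, 1, [(0, [0], [2, 5]), (1, [], [4, 5]), (1, [], [0, 3]), (4, [], [1])]),
  (240, 0, 1, [(0, [0], [2, 5]), (1, [], [4, 5]), (1, [], [1, 3]), (4, [], [0])]),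
  (240, 0, 1, [(0, [0], [3, 5]), (1, [], [0, 5]), (1, [], [1, 2]), (4, [], [4])]),
  (240, 0, 1, [(0, [0], [3, 5]), (1, [], [0, 5]), (1, [], [1, 4]), (4, [], [2])]),
  (240, 0, 1, [(0, [0], [3, 5]), (1, [], [0, 5]), (1, [], [2, 4]), (4, [], [1])]),
  (240, 0, 1, [(0, [0], [3, 5]), (1, [], [1, 5]), (1, [], [0, 2]), (4, [], [4])]),
  (240, 0, 1, [(0, [0], [3, 5]), (1, [], [1, 5]), (1, [], [0, 4]), (4, [], [2])]),
  (240, 0, 1, [(0, [0], [3, 5]), (1, [], [1, 5]), (1, [], [2, 4]), (4, [], [0])]),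
  (240, 0, 1, [(0, [0], [3, 5]), (1, [], [2, 5]), (1, [], [0, 1]), (4, [], [4])]),
  (240, 0, 1, [(0, [0], [3, 5]), (1, [], [2, 5]), (1, [], [0, 4]), (4, [], [1])]),
  (240, 0, 1, [(0, [0], [3, 5]), (1, [], [2, 5]), (1, [], [1, 4]), (4, [], [0])]),
  (240, 0, 1, [(0, [0], [3, 5]), (1, [], [4, 5]), (1, [], [0, 1]), (4, [], [2])]),
  (240, 0, 1, [(0, [0], [3, 5]), (1, [], [4, 5]), (1, [], [0, 2]), (4, [], [1])]),
  (240, 0, 1, [(0, [0], [3, 5]), (1, [], [4, 5]), (1, [], [1, 2]), (4, [], [0])]),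
  (240, 0, 1, [(0, [0], [4, 5]), (1, [], [0, 5]), (1, [], [1, 2]), (4, [], [3])]),
  (240, 0, 1, [(0, [0], [4, 5]), (1, [], [0, 5]), (1, [], [1, 3]), (4, [], [2])]),
  (240, 0, 1, [(0, [0], [4, 5]), (1, [], [0, 5]), (1, [], [2, 3]), (4, [], [1])]),
  (240, 0, 1, [(0, [0], [4, 5]), (1, [], [1, 5]), (1, [], [0, 2]), (4, [], [3])]),
  (240, 0, 1, [(0, [0], [4, 5]), (1, [], [1, 5]), (1, [], [0, 3]), (4, [], [2])]),
  (240, 0, 1, [(0, [0], [4, 5]), (1, [], [1, 5]), (1, [], [2, 3]), (4, [], [0])]),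
  (240, 0, 1, [(0, [0], [4, 5]), (1, [], [2, 5]), (1, [], [0, 1]), (4, [], [3])]),
  (240, 0, 1, [(0, [0], [4, 5]), (1, [], [2, 5]), (1, [], [0, 3]), (4, [], [1])]),
  (240, 0, 1, [(0, [0], [4, 5]), (1, [], [2, 5]), (1, [], [1, 3]), (4, [], [0])]),
  (240, 0, 1, [(0, [0], [4, 5]), (1, [], [3, 5]), (1, [], [0, 1]), (4, [], [2])]),
  (240, 0, 1, [(0, [0], [4, 5]), (1, [], [3, 5]), (1, [], [0, 2]), (4, [], [1])]),
  (240, 0, 1, [(0, [0], [4, 5]), (1, [], [3, 5]), (1, [], [1, 2]), (4, [], [0])])]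

def z4_4 : Cov := []

def w4_4 : List (List Wit) := [[(0, 0, 0, 0, 0), (1, 0, 0, 0, 0), (0, 0, 0, 0, 0), (2, 0, 0, 0, 0), (1, 0, 0, 0, 0), (2, 0, 0, 0, 0), (3, 0, 0, 0, 0), (4, 0, 0, 0, 0), (3, 0, 0, 0, 0), (5, 0, 0, 0, 0), (4, 0, 0, 0, 0), (5, 0, 0, 0, 0), (6, 0, 0, 0, 0), (7, 0, 0, 0, 0), (6, 0, 0, 0, 0), (8, 0, 0, 0, 0), (7, 0, 0, 0, 0), (8, 0, 0, 0, 0), (9, 0, 0, 0, 0), (10, 0, 0, 0, 0), (9, 0, 0, 0, 0), (11, 0, 0, 0, 0), (10, 0, 0, 0, 0), (11, 0, 0, 0, 0), (12, 0, 0, 0, 0), (13, 0, 0, 0, 0), (12, 0, 0, 0, 0), (14, 0, 0, 0, 0), (13, 0, 0, 0, 0), (14, 0, 0, 0, 0), (15, 0, 0, 0, 0), (16, 0, 0, 0, 0), (15, 0, 0, 0, 0), (17, 0, 0, 0, 0), (16, 0, 0, 0, 0), (17, 0, 0, 0, 0), (18, 0, 0, 0, 0), (19, 0, 0, 0, 0), (18, 0, 0, 0, 0), (20, 0, 0, 0, 0), (19, 0, 0, 0, 0), (20, 0, 0, 0, 0), (21, 0, 0, 0, 0), (22, 0, 0, 0, 0), (21, 0, 0, 0, 0), (23, 0, 0, 0, 0), (22, 0,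 0, 0, 0), (23, 0, 0, 0, 0), (24, 0, 0, 0, 0), (25, 0, 0, 0, 0), (24, 0, 0, 0, 0), (26, 0, 0, 0, 0), (25, 0, 0, 0, 0), (26, 0, 0, 0, 0), (27, 0, 0, 0, 0), (28, 0, 0, 0, 0), (27, 0, 0, 0, 0), (29, 0, 0, 0, 0), (28, 0, 0, 0, 0), (29, 0, 0, 0, 0), (30, 0, 0, 0, 0), (31, 0, 0, 0, 0), (30, 0, 0, 0, 0), (32, 0, 0, 0, 0), (31, 0, 0, 0, 0), (32, 0, 0, 0, 0), (33, 0, 0, 0, 0), (34, 0, 0, 0, 0), (33, 0, 0, 0, 0), (35, 0, 0, 0, 0), (34, 0, 0, 0, 0), (35, 0, 0, 0, 0), (36, 0, 0, 0, 0), (37, 0, 0, 0, 0), (36, 0, 0, 0, 0), (38, 0, 0, 0, 0), (37, 0, 0, 0, 0), (38, 0, 0, 0, 0), (39, 0, 0, 0, 0), (40, 0, 0, 0, 0), (39, 0, 0, 0, 0), (41, 0, 0, 0, 0), (40, 0, 0, 0, 0), (41, 0, 0, 0, 0), (42, 0, 0, 0, 0), (43, 0, 0, 0, 0), (42, 0, 0, 0, 0), (44, 0, 0, 0, 0), (43, 0, 0, 0, 0), (44, 0, 0, 0, 0), (45, 0, 0, 0, 0), (46, 0, 0, 0, 0), (45, 0, 0, 0, 0), (47, 0, 0, 0, 0), (46, 0, 0, 0, 0),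 (47, 0, 0, 0, 0), (48, 0, 0, 0, 0), (49, 0, 0, 0, 0), (48, 0, 0, 0, 0), (50, 0, 0, 0, 0), (49, 0, 0, 0, 0), (50, 0, 0, 0, 0), (51, 0, 0, 0, 0), (52, 0, 0, 0, 0), (51, 0, 0, 0, 0), (53, 0, 0, 0, 0), (52, 0, 0, 0, 0), (53, 0, 0, 0, 0), (54, 0, 0, 0, 0), (55, 0, 0, 0, 0), (54, 0, 0, 0, 0), (56, 0, 0, 0, 0), (55, 0, 0, 0, 0), (56, 0, 0, 0, 0), (57, 0, 0, 0, 0), (58, 0, 0, 0, 0), (57, 0, 0, 0, 0), (59, 0, 0, 0, 0), (58, 0, 0, 0, 0), (59, 0, 0, 0, 0)]]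

def m4_5 : Base := (0, 1, [(0, [0], [0, 5]), (1, [], [1, 2]), (1, [], [3, 4]), (4, [], [5])])

def l4_5 : Cov := [(960, 0, 1, [(0, [0], [0, 5]), (1, [], [1, 2]), (1, [], [3, 4]), (4, [], [5])]),
  (960, 0, 1, [(0, [0], [0, 5]), (1, [], [1, 3]), (1, [], [2, 4]), (4, [], [5])]),
  (960, 0, 1, [(0, [0], [0, 5]), (1, [], [1, 4]), (1, [], [2, 3]), (4, [], [5])]),
  (960, 0, 1, [(0, [0], [1, 5]), (1, [], [0, 2]), (1, [], [3, 4]), (4, [], [5])]),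
  (960, 0, 1, [(0, [0], [1, 5]), (1, [], [0, 3]), (1, [], [2, 4]), (4, [], [5])]),
  (960, 0, 1, [(0, [0], [1, 5]), (1, [], [0, 4]), (1, [], [2, 3]), (4, [], [5])]),
  (960, 0, 1, [(0, [0], [2, 5]), (1, [], [0, 1]), (1, [], [3, 4]), (4, [], [5])]),
  (960, 0, 1, [(0, [0], [2, 5]), (1, [], [0, 3]), (1, [], [1, 4]), (4, [], [5])]),
  (960, 0, 1, [(0, [0], [2, 5]), (1, [], [0, 4]), (1, [], [1, 3]), (4, [], [5])]),
  (960, 0, 1, [(0, [0], [3, 5]), (1, [], [0, 1]), (1, [], [2, 4]), (4, [], [5])]),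
  (960, 0, 1, [(0, [0], [3, 5]), (1, [], [0, 2]), (1, [], [1, 4]), (4, [], [5])]),
  (960, 0, 1, [(0, [0], [3, 5]), (1, [], [0, 4]), (1, [], [1, 2]), (4, [], [5])]),
  (960, 0, 1, [(0, [0], [4, 5]), (1, [], [0, 1]), (1, [], [2, 3]), (4, [], [5])]),
  (960, 0, 1, [(0, [0], [4, 5]), (1, [], [0, 2]), (1, [], [1, 3]), (4, [], [5])]),
  (960, 0, 1, [(0, [0], [4, 5]), (1, [], [0, 3]), (1, [], [1, 2]), (4, [], [5])])]

def z4_5 : Cov := []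

def w4_5 : List (List Wit) := [[(0, 0, 0, 0, 0), (0, 0, 0, 0, 0), (1, 0, 0, 0, 0), (1, 0, 0, 0, 0), (2, 0, 0, 0, 0), (2, 0, 0, 0, 0), (0, 0, 0, 0, 0), (0, 0, 0, 0, 0), (2, 0, 0, 0, 0), (2, 0, 0, 0, 0), (1, 0, 0, 0, 0), (1, 0, 0, 0, 0), (1, 0, 0, 0, 0), (1, 0, 0, 0, 0), (2, 0, 0, 0, 0), (2, 0, 0, 0, 0), (0, 0, 0, 0, 0), (0, 0, 0, 0, 0), (2, 0, 0, 0, 0), (2, 0, 0, 0, 0), (1, 0, 0, 0, 0), (1, 0, 0, 0, 0), (0, 0, 0, 0, 0), (0, 0, 0, 0, 0), (3, 0, 0, 0, 0), (3, 0, 0, 0, 0), (4, 0, 0, 0, 0), (4, 0, 0, 0, 0), (5, 0, 0, 0, 0), (5, 0, 0, 0, 0), (3, 0, 0, 0, 0), (3, 0, 0, 0, 0), (5, 0, 0, 0, 0), (5, 0, 0, 0, 0), (4, 0, 0, 0, 0), (4, 0, 0, 0, 0), (4, 0, 0, 0, 0), (4, 0, 0, 0, 0), (5, 0, 0, 0, 0), (5, 0, 0, 0, 0), (3, 0, 0, 0, 0), (3, 0, 0, 0, 0), (5, 0, 0, 0, 0), (5, 0, 0, 0, 0), (4, 0, 0, 0, 0), (4, 0, 0, 0, 0), (3, 0, 0, 0, 0), (3, 0, 0, 0, 0), (6, 0, 0, 0, 0), (6, 0,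 0, 0, 0), (7, 0, 0, 0, 0), (7, 0, 0, 0, 0), (8, 0, 0, 0, 0), (8, 0, 0, 0, 0), (6, 0, 0, 0, 0), (6, 0, 0, 0, 0), (8, 0, 0, 0, 0), (8, 0, 0, 0, 0), (7, 0, 0, 0, 0), (7, 0, 0, 0, 0), (7, 0, 0, 0, 0), (7, 0, 0, 0, 0), (8, 0, 0, 0, 0), (8, 0, 0, 0, 0), (6, 0, 0, 0, 0), (6, 0, 0, 0, 0), (8, 0, 0, 0, 0), (8, 0, 0, 0, 0), (7, 0, 0, 0, 0), (7, 0, 0, 0, 0), (6, 0, 0, 0, 0), (6, 0, 0, 0, 0), (9, 0, 0, 0, 0), (9, 0, 0, 0, 0), (10, 0, 0, 0, 0), (10, 0, 0, 0, 0), (11, 0, 0, 0, 0), (11, 0, 0, 0, 0), (9, 0, 0, 0, 0), (9, 0, 0, 0, 0), (11, 0, 0, 0, 0), (11, 0, 0, 0, 0), (10, 0, 0, 0, 0), (10, 0, 0, 0, 0), (10, 0, 0, 0, 0), (10, 0, 0, 0, 0), (11, 0, 0, 0, 0), (11, 0, 0, 0, 0), (9, 0, 0, 0, 0), (9, 0, 0, 0, 0), (11, 0, 0, 0, 0), (11, 0, 0, 0, 0), (10, 0, 0, 0, 0), (10, 0, 0, 0, 0), (9, 0, 0, 0, 0), (9, 0, 0, 0, 0), (12, 0, 0, 0, 0), (12, 0, 0, 0, 0), (13, 0, 0, 0, 0), (13, 0, 0,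 0, 0), (14, 0, 0, 0, 0), (14, 0, 0, 0, 0), (12, 0, 0, 0, 0), (12, 0, 0, 0, 0), (14, 0, 0, 0, 0), (14, 0, 0, 0, 0), (13, 0, 0, 0, 0), (13, 0, 0, 0, 0), (13, 0, 0, 0, 0), (13, 0, 0, 0, 0), (14, 0, 0, 0, 0), (14, 0, 0, 0, 0), (12, 0, 0, 0, 0), (12, 0, 0, 0, 0), (14, 0, 0, 0, 0), (14, 0, 0, 0, 0), (13, 0, 0, 0, 0), (13, 0, 0, 0, 0), (12, 0, 0, 0, 0), (12, 0, 0, 0, 0)]]

def m4_6 : Base := (0, 1, [(0, [0], [0, 1]), (1, [], [2, 5]), (1, [], [3, 4]), (4, [], [5])])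

def l4_6 : Cov := [(480, 0, 1, [(0, [0], [0, 1]), (1, [], [2, 5]), (1, [], [3, 4]), (4, [], [5])]),
  (480, 0, 1, [(0, [0], [0, 1]), (1, [], [3, 5]), (1, [], [2, 4]), (4, [], [5])]),
  (480, 0, 1, [(0, [0], [0, 1]), (1, [], [4, 5]), (1, [], [2, 3]), (4, [], [5])]),
  (480, 0, 1, [(0, [0], [0, 2]), (1, [], [1, 5]), (1, [], [3, 4]), (4, [], [5])]),
  (480, 0, 1, [(0, [0], [0, 2]), (1, [], [3, 5]), (1, [], [1, 4]), (4, [], [5])]),
  (480, 0, 1, [(0, [0], [0, 2]), (1, [], [4, 5]), (1, [], [1, 3]), (4, [], [5])]),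
  (480, 0, 1, [(0, [0], [0, 3]), (1, [], [1, 5]), (1, [], [2, 4]), (4, [], [5])]),
  (480, 0, 1, [(0, [0], [0, 3]), (1, [], [2, 5]), (1, [], [1, 4]), (4, [], [5])]),
  (480, 0, 1, [(0, [0], [0, 3]), (1, [], [4, 5]), (1, [], [1, 2]), (4, [], [5])]),
  (480, 0, 1, [(0, [0], [0, 4]), (1, [], [1, 5]), (1, [], [2, 3]), (4, [], [5])]),
  (480, 0, 1, [(0, [0], [0, 4]), (1, [], [2, 5]), (1, [], [1, 3]), (4, [], [5])]),
  (480, 0, 1, [(0, [0], [0, 4]), (1, [], [3, 5]), (1, [], [1, 2]), (4, [], [5])]),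
  (480, 0, 1, [(0, [0], [1, 2]), (1, [], [0, 5]), (1, [], [3, 4]), (4, [], [5])]),
  (480, 0, 1, [(0, [0], [1, 2]), (1, [], [3, 5]), (1, [], [0, 4]), (4, [], [5])]),
  (480, 0, 1, [(0, [0], [1, 2]), (1, [], [4, 5]), (1, [], [0, 3]), (4, [], [5])]),
  (480, 0, 1, [(0, [0], [1, 3]), (1, [], [0, 5]), (1, [], [2, 4]), (4, [], [5])]),
  (480, 0, 1, [(0, [0], [1, 3]), (1, [], [2, 5]), (1, [], [0, 4]), (4, [], [5])]),
  (480, 0, 1, [(0, [0], [1, 3]), (1, [], [4, 5]), (1, [], [0, 2]), (4, [], [5])]),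
  (480, 0, 1, [(0, [0], [1, 4]), (1, [], [0, 5]), (1, [], [2, 3]), (4, [], [5])]),
  (480, 0, 1, [(0, [0], [1, 4]), (1, [], [2, 5]), (1, [], [0, 3]), (4, [], [5])]),
  (480, 0, 1, [(0, [0], [1, 4]), (1, [], [3, 5]), (1, [], [0, 2]), (4, [], [5])]),
  (480, 0, 1, [(0, [0], [2, 3]), (1, [], [0, 5]), (1, [], [1, 4]), (4, [], [5])]),
  (480, 0, 1, [(0, [0], [2, 3]), (1, [], [1, 5]), (1, [], [0, 4]), (4, [], [5])]),
  (480, 0, 1, [(0, [0], [2, 3]), (1, [], [4, 5]), (1, [], [0, 1]), (4, [], [5])]),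
  (480, 0, 1, [(0, [0], [2, 4]), (1, [], [0, 5]), (1, [], [1, 3]), (4, [], [5])]),
  (480, 0, 1, [(0, [0], [2, 4]), (1, [], [1, 5]), (1, [], [0, 3]), (4, [], [5])]),
  (480, 0, 1, [(0, [0], [2, 4]), (1, [], [3, 5]), (1, [], [0, 1]), (4, [], [5])]),
  (480, 0, 1, [(0, [0], [3, 4]), (1, [], [0, 5]), (1, [], [1, 2]), (4, [], [5])]),
  (480, 0, 1, [(0, [0], [3, 4]), (1, [], [1, 5]), (1, [], [0, 2]), (4, [], [5])]),
  (480, 0, 1, [(0, [0], [3, 4]), (1, [], [2, 5]), (1, [], [0, 1]), (4, [], [5])])]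

def z4_6 : Cov := []

def w4_6 : List (List Wit) := [[(0, 0, 0, 0, 0), (0, 0, 0, 0, 0), (1, 0, 0, 0, 0), (1, 0, 0, 0, 0), (2, 0, 0, 0, 0), (2, 0, 0, 0, 0), (3, 0, 0, 0, 0), (3, 0, 0, 0, 0), (4, 0, 0, 0, 0), (4, 0, 0, 0, 0), (5, 0, 0, 0, 0), (5, 0, 0, 0, 0), (6, 0, 0, 0, 0), (6, 0, 0, 0, 0), (7, 0, 0, 0, 0), (7, 0, 0, 0, 0), (8, 0, 0, 0, 0), (8, 0, 0, 0, 0), (9, 0, 0, 0, 0), (9, 0, 0, 0, 0), (10, 0, 0, 0, 0), (10, 0, 0, 0, 0), (11, 0, 0, 0, 0), (11, 0, 0, 0, 0), (0, 0, 0, 0, 0), (0, 0, 0, 0, 0), (1, 0, 0, 0, 0), (1, 0, 0, 0, 0), (2, 0, 0, 0, 0), (2, 0, 0, 0, 0), (12, 0, 0, 0, 0), (12, 0, 0, 0, 0), (13, 0, 0, 0, 0), (13, 0, 0, 0, 0), (14, 0, 0, 0, 0), (14, 0, 0, 0, 0), (15, 0, 0, 0, 0), (15, 0, 0, 0, 0), (16, 0, 0, 0, 0), (16, 0, 0, 0, 0), (17, 0, 0, 0, 0), (17, 0, 0, 0, 0), (18, 0, 0, 0, 0), (18, 0, 0, 0, 0), (19, 0, 0, 0, 0), (19, 0, 0, 0, 0), (20, 0, 0, 0,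 0), (20, 0, 0, 0, 0), (3, 0, 0, 0, 0), (3, 0, 0, 0, 0), (4, 0, 0, 0, 0), (4, 0, 0, 0, 0), (5, 0, 0, 0, 0), (5, 0, 0, 0, 0), (12, 0, 0, 0, 0), (12, 0, 0, 0, 0), (13, 0, 0, 0, 0), (13, 0, 0, 0, 0), (14, 0, 0, 0, 0), (14, 0, 0, 0, 0), (21, 0, 0, 0, 0), (21, 0, 0, 0, 0), (22, 0, 0, 0, 0), (22, 0, 0, 0, 0), (23, 0, 0, 0, 0), (23, 0, 0, 0, 0), (24, 0, 0, 0, 0), (24, 0, 0, 0, 0), (25, 0, 0, 0, 0), (25, 0, 0, 0, 0), (26, 0, 0, 0, 0), (26, 0, 0, 0, 0), (6, 0, 0, 0, 0), (6, 0, 0, 0, 0), (7, 0, 0, 0, 0), (7, 0, 0, 0, 0), (8, 0, 0, 0, 0), (8, 0, 0, 0, 0), (15, 0, 0, 0, 0), (15, 0, 0, 0, 0), (16, 0, 0, 0, 0), (16, 0, 0, 0, 0), (17, 0, 0, 0, 0), (17, 0, 0, 0, 0), (21, 0, 0, 0, 0), (21, 0, 0, 0, 0), (22, 0, 0, 0, 0), (22, 0, 0, 0, 0), (23, 0, 0, 0, 0), (23, 0, 0, 0, 0), (27, 0, 0, 0, 0), (27, 0, 0, 0, 0), (28, 0, 0, 0, 0), (28, 0, 0, 0, 0), (29, 0, 0, 0, 0), (29, 0, 0, 0, 0),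 (9, 0, 0, 0, 0), (9, 0, 0, 0, 0), (10, 0, 0, 0, 0), (10, 0, 0, 0, 0), (11, 0, 0, 0, 0), (11, 0, 0, 0, 0), (18, 0, 0, 0, 0), (18, 0, 0, 0, 0), (19, 0, 0, 0, 0), (19, 0, 0, 0, 0), (20, 0, 0, 0, 0), (20, 0, 0, 0, 0), (24, 0, 0, 0, 0), (24, 0, 0, 0, 0), (25, 0, 0, 0, 0), (25, 0, 0, 0, 0), (26, 0, 0, 0, 0), (26, 0, 0, 0, 0), (27, 0, 0, 0, 0), (27, 0, 0, 0, 0), (28, 0, 0, 0, 0), (28, 0, 0, 0, 0), (29, 0, 0, 0, 0), (29, 0, 0, 0, 0)]]

def m4_7 : Base := (0, 0, [(0, [0], [0, 1]), (1, [], [2, 3]), (4, [], [4])])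

def l4_7 : Cov := [(480, 0, 0, [(0, [0], [0, 1]), (1, [], [2, 3]), (4, [], [4])]),
  (480, 0, 0, [(0, [0], [0, 1]), (1, [], [2, 4]), (4, [], [3])]),
  (480, 0, 0, [(0, [0], [0, 1]), (1, [], [3, 4]), (4, [], [2])]),
  (480, 0, 0, [(0, [0], [0, 2]), (1, [], [1, 3]), (4, [], [4])]),
  (480, 0, 0, [(0, [0], [0, 2]), (1, [], [1, 4]), (4, [], [3])]),
  (480, 0, 0, [(0, [0], [0, 2]), (1, [], [3, 4]), (4, [], [1])]),
  (480, 0, 0, [(0, [0], [0, 3]), (1, [], [1, 2]), (4, [], [4])]),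
  (480, 0, 0, [(0, [0], [0, 3]), (1, [], [1, 4]), (4, [], [2])]),
  (480, 0, 0, [(0, [0], [0, 3]), (1, [], [2, 4]), (4, [], [1])]),
  (480, 0, 0, [(0, [0], [0, 4]), (1, [], [1, 2]), (4, [], [3])]),
  (480, 0, 0, [(0, [0], [0, 4]), (1, [], [1, 3]), (4, [], [2])]),
  (480, 0, 0, [(0, [0], [0, 4]), (1, [], [2, 3]), (4, [], [1])]),
  (480, 0, 0, [(0, [0], [1, 2]), (1, [], [0, 3]), (4, [], [4])]),
  (480, 0, 0, [(0, [0], [1, 2]), (1, [], [0, 4]), (4, [], [3])]),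
  (480, 0, 0, [(0, [0], [1, 2]), (1, [], [3, 4]), (4, [], [0])]),
  (480, 0, 0, [(0, [0], [1, 3]), (1, [], [0, 2]), (4, [], [4])]),
  (480, 0, 0, [(0, [0], [1, 3]), (1, [], [0, 4]), (4, [], [2])]),
  (480, 0, 0, [(0, [0], [1, 3]), (1, [], [2, 4]), (4, [], [0])]),
  (480, 0, 0, [(0, [0], [1, 4]), (1, [], [0, 2]), (4, [], [3])]),
  (480, 0, 0, [(0, [0], [1, 4]), (1, [], [0, 3]), (4, [], [2])]),
  (480, 0, 0, [(0, [0], [1, 4]), (1, [], [2, 3]), (4, [], [0])]),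
  (480, 0, 0, [(0, [0], [2, 3]), (1, [], [0, 1]), (4, [], [4])]),
  (480, 0, 0, [(0, [0], [2, 3]), (1, [], [0, 4]), (4, [], [1])]),
  (480, 0, 0, [(0, [0], [2, 3]), (1, [], [1, 4]), (4, [], [0])]),
  (480, 0, 0, [(0, [0], [2, 4]), (1, [], [0, 1]), (4, [], [3])]),
  (480, 0, 0, [(0, [0], [2, 4]), (1, [], [0, 3]), (4, [], [1])]),
  (480, 0, 0, [(0, [0], [2, 4]), (1, [], [1, 3]), (4, [], [0])]),
  (480, 0, 0, [(0, [0], [3, 4]), (1, [], [0, 1]), (4, [], [2])]),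
  (480, 0, 0, [(0, [0], [3, 4]), (1, [], [0, 2]), (4, [], [1])]),
  (480, 0, 0, [(0, [0], [3, 4]), (1, [], [1, 2]), (4, [], [0])])]

def z4_7 : Cov := []

def w4_7 : List (List Wit) := [[(0, 0, 0, 0, 0), (1, 0, 0, 0, 0), (0, 0, 0, 0, 0), (2, 0, 0, 0, 0), (1, 0, 0, 0, 0), (2, 0, 0, 0, 0), (3, 0, 0, 0, 0), (4, 0, 0, 0, 0), (3, 0, 0, 0, 0), (5, 0, 0, 0, 0), (4, 0, 0, 0, 0), (5, 0, 0, 0, 0), (6, 0, 0, 0, 0), (7, 0, 0, 0, 0), (6, 0, 0, 0, 0), (8, 0, 0, 0, 0), (7, 0, 0, 0, 0), (8, 0, 0, 0, 0), (9, 0, 0, 0, 0), (10, 0, 0, 0, 0), (9, 0, 0, 0, 0), (11, 0, 0, 0, 0), (10, 0, 0, 0, 0), (11, 0, 0, 0, 0), (0, 0, 0, 0, 0), (1, 0, 0, 0, 0), (0, 0, 0, 0, 0), (2, 0, 0, 0, 0), (1, 0, 0, 0, 0), (2, 0, 0, 0, 0), (12, 0, 0, 0, 0), (13, 0, 0, 0, 0), (12, 0, 0, 0, 0), (14, 0, 0, 0, 0), (13, 0, 0, 0, 0), (14, 0, 0, 0, 0), (15, 0, 0, 0, 0), (16, 0, 0, 0, 0), (15, 0, 0, 0, 0), (17, 0,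 0, 0, 0), (16, 0, 0, 0, 0), (17, 0, 0, 0, 0), (18, 0, 0, 0, 0), (19, 0, 0, 0, 0), (18, 0, 0, 0, 0), (20, 0, 0, 0, 0), (19, 0, 0, 0, 0), (20, 0, 0, 0, 0), (3, 0, 0, 0, 0), (4, 0, 0, 0, 0), (3, 0, 0, 0, 0), (5, 0, 0, 0, 0), (4, 0, 0, 0, 0), (5, 0, 0, 0, 0), (12, 0, 0, 0, 0), (13, 0, 0, 0, 0), (12, 0, 0, 0, 0), (14, 0, 0, 0, 0), (13, 0, 0, 0, 0), (14, 0, 0, 0, 0), (21, 0, 0, 0, 0), (22, 0, 0, 0, 0), (21, 0, 0, 0, 0), (23, 0, 0, 0, 0), (22, 0, 0, 0, 0), (23, 0, 0, 0, 0), (24, 0, 0, 0, 0), (25, 0, 0, 0, 0), (24, 0, 0, 0, 0), (26, 0, 0, 0, 0), (25, 0, 0, 0, 0), (26, 0, 0, 0, 0), (6, 0, 0, 0, 0), (7, 0, 0, 0, 0), (6, 0, 0, 0, 0), (8, 0, 0, 0, 0), (7, 0, 0, 0, 0), (8, 0, 0, 0, 0), (15, 0, 0, 0, 0), (16, 0, 0, 0, 0), (15, 0, 0, 0, 0), (17, 0, 0, 0, 0), (16, 0, 0, 0, 0), (17, 0, 0, 0, 0), (21, 0, 0, 0, 0), (22, 0, 0, 0, 0), (21, 0, 0, 0, 0), (23, 0, 0, 0, 0), (22, 0, 0,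 0, 0), (23, 0, 0, 0, 0), (27, 0, 0, 0, 0), (28, 0, 0, 0, 0), (27, 0, 0, 0, 0), (29, 0, 0, 0, 0), (28, 0, 0, 0, 0), (29, 0, 0, 0, 0), (9, 0, 0, 0, 0), (10, 0, 0, 0, 0), (9, 0, 0, 0, 0), (11, 0, 0, 0, 0), (10, 0, 0, 0, 0), (11, 0, 0, 0, 0), (18, 0, 0, 0, 0), (19, 0, 0, 0, 0), (18, 0, 0, 0, 0), (20, 0, 0, 0, 0), (19, 0, 0, 0, 0), (20, 0, 0, 0, 0), (24, 0, 0, 0, 0), (25, 0, 0, 0, 0), (24, 0, 0, 0, 0), (26, 0, 0, 0, 0), (25, 0, 0, 0, 0), (26, 0, 0, 0, 0), (27, 0, 0, 0, 0), (28, 0, 0, 0, 0), (27, 0, 0, 0, 0), (29, 0, 0, 0, 0), (28, 0, 0, 0, 0), (29, 0, 0, 0, 0)]]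

def m4_8 : Base := (0, 0, [(0, [0], [0, 1]), (3, [], [2, 3, 4])])

def l4_8 : Cov := [(1440, 0, 0, [(0, [0], [0, 1]), (3, [], [2, 3, 4])]),
  (1440, 0, 0, [(0, [0], [0, 2]), (3, [], [1, 3, 4])]),
  (1440, 0, 0, [(0, [0], [0, 3]), (3, [], [1, 2, 4])]),
  (1440, 0, 0, [(0, [0], [0, 4]), (3, [], [1, 2, 3])]),
  (1440, 0, 0, [(0, [0], [1, 2]), (3, [], [0, 3, 4])]),
  (1440, 0, 0, [(0, [0], [1, 3]), (3, [], [0, 2, 4])]),
  (1440, 0, 0, [(0, [0], [1, 4]), (3, [], [0, 2, 3])]),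
  (1440, 0, 0, [(0, [0], [2, 3]), (3, [], [0, 1, 4])]),
  (1440, 0, 0, [(0, [0], [2, 4]), (3, [], [0, 1, 3])]),
  (1440, 0, 0, [(0, [0], [3, 4]), (3, [], [0, 1, 2])])]

def z4_8 : Cov := []

def w4_8 : List (List Wit) := [[(0, 0, 0, 0, 0), (0, 0, 0, 0, 0), (0, 0, 0, 0, 0), (0, 0, 0, 0, 0), (0, 0, 0, 0, 0), (0, 0, 0, 0, 0), (1, 0, 0, 0, 0), (1, 0, 0, 0, 0), (1, 0, 0, 0, 0), (1, 0, 0, 0, 0), (1, 0, 0, 0, 0), (1, 0, 0, 0, 0), (2, 0, 0, 0, 0), (2, 0, 0, 0, 0), (2, 0, 0, 0, 0), (2, 0, 0, 0, 0), (2, 0, 0, 0, 0), (2, 0, 0, 0, 0), (3, 0, 0, 0, 0), (3, 0, 0, 0, 0), (3, 0, 0, 0, 0), (3, 0, 0, 0, 0), (3, 0, 0, 0, 0), (3, 0, 0, 0, 0), (0, 0, 0, 0, 0), (0, 0, 0, 0, 0), (0, 0, 0, 0, 0), (0, 0, 0, 0, 0), (0, 0, 0, 0, 0), (0, 0, 0, 0, 0), (4, 0, 0, 0, 0), (4, 0, 0, 0, 0), (4, 0, 0, 0, 0), (4, 0, 0, 0, 0), (4, 0, 0, 0, 0), (4, 0, 0, 0, 0), (5, 0, 0, 0, 0), (5, 0, 0, 0, 0), (5,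 0, 0, 0, 0), (5, 0, 0, 0, 0), (5, 0, 0, 0, 0), (5, 0, 0, 0, 0), (6, 0, 0, 0, 0), (6, 0, 0, 0, 0), (6, 0, 0, 0, 0), (6, 0, 0, 0, 0), (6, 0, 0, 0, 0), (6, 0, 0, 0, 0), (1, 0, 0, 0, 0), (1, 0, 0, 0, 0), (1, 0, 0, 0, 0), (1, 0, 0, 0, 0), (1, 0, 0, 0, 0), (1, 0, 0, 0, 0), (4, 0, 0, 0, 0), (4, 0, 0, 0, 0), (4, 0, 0, 0, 0), (4, 0, 0, 0, 0), (4, 0, 0, 0, 0), (4, 0, 0, 0, 0), (7, 0, 0, 0, 0), (7, 0, 0, 0, 0), (7, 0, 0, 0, 0), (7, 0, 0, 0, 0), (7, 0, 0, 0, 0), (7, 0, 0, 0, 0), (8, 0, 0, 0, 0), (8, 0, 0, 0, 0), (8, 0, 0, 0, 0), (8, 0, 0, 0, 0), (8, 0, 0, 0, 0), (8, 0, 0, 0, 0), (2, 0, 0, 0, 0), (2, 0, 0, 0, 0), (2, 0, 0, 0, 0), (2, 0, 0, 0, 0), (2, 0, 0, 0, 0), (2, 0, 0, 0, 0), (5, 0, 0, 0, 0), (5, 0, 0, 0, 0), (5, 0, 0, 0, 0), (5, 0, 0, 0, 0), (5, 0, 0, 0, 0), (5, 0, 0, 0, 0), (7, 0, 0, 0, 0), (7, 0, 0, 0, 0), (7, 0, 0, 0, 0), (7, 0, 0, 0, 0), (7, 0, 0, 0, 0), (7, 0, 0,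 0, 0), (9, 0, 0, 0, 0), (9, 0, 0, 0, 0), (9, 0, 0, 0, 0), (9, 0, 0, 0, 0), (9, 0, 0, 0, 0), (9, 0, 0, 0, 0), (3, 0, 0, 0, 0), (3, 0, 0, 0, 0), (3, 0, 0, 0, 0), (3, 0, 0, 0, 0), (3, 0, 0, 0, 0), (3, 0, 0, 0, 0), (6, 0, 0, 0, 0), (6, 0, 0, 0, 0), (6, 0, 0, 0, 0), (6, 0, 0, 0, 0), (6, 0, 0, 0, 0), (6, 0, 0, 0, 0), (8, 0, 0, 0, 0), (8, 0, 0, 0, 0), (8, 0, 0, 0, 0), (8, 0, 0, 0, 0), (8, 0, 0, 0, 0), (8, 0, 0, 0, 0), (9, 0, 0, 0, 0), (9, 0, 0, 0, 0), (9, 0, 0, 0, 0), (9, 0, 0, 0, 0), (9, 0, 0, 0, 0), (9, 0, 0, 0, 0)]]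

def m4_9 : Base := (0, 0, [(1, [], [0, 1]), (2, [0], [2, 3, 4])])

def l4_9 : Cov := [(1440, 0, 0, [(1, [], [0, 1]), (2, [0], [2, 3, 4])]),
  (1440, 0, 0, [(1, [], [0, 2]), (2, [0], [1, 3, 4])]),
  (1440, 0, 0, [(1, [], [0, 3]), (2, [0], [1, 2, 4])]),
  (1440, 0, 0, [(1, [], [0, 4]), (2, [0], [1, 2, 3])]),
  (1440, 0, 0, [(1, [], [1, 2]), (2, [0], [0, 3, 4])]),
  (1440, 0, 0, [(1, [], [1, 3]), (2, [0], [0, 2, 4])]),
  (1440, 0, 0, [(1, [], [1, 4]), (2, [0], [0, 2, 3])]),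
  (1440, 0, 0, [(1, [], [2, 3]), (2, [0], [0, 1, 4])]),
  (1440, 0, 0, [(1, [], [2, 4]), (2, [0], [0, 1, 3])]),
  (1440, 0, 0, [(1, [], [3, 4]), (2, [0], [0, 1, 2])])]

def z4_9 : Cov := []

def w4_9 : List (List Wit) := [[(0, 0, 0, 0, 0), (0, 0, 0, 0, 0), (0, 0, 0, 0, 0), (0, 0, 0, 0, 0), (0, 0, 0, 0, 0), (0, 0, 0, 0, 0), (1, 0, 0, 0, 0), (1, 0, 0, 0, 0), (1, 0, 0, 0, 0), (1, 0, 0, 0, 0), (1, 0, 0, 0, 0), (1, 0, 0, 0, 0), (2, 0, 0, 0, 0), (2, 0, 0, 0, 0), (2, 0, 0, 0, 0), (2, 0, 0, 0, 0), (2, 0, 0, 0, 0), (2, 0, 0, 0, 0), (3, 0, 0, 0, 0), (3, 0, 0, 0, 0), (3, 0, 0, 0, 0), (3, 0, 0, 0, 0), (3, 0, 0, 0, 0), (3, 0, 0, 0, 0), (0, 0, 0, 0, 0), (0, 0, 0, 0, 0), (0, 0, 0, 0, 0), (0, 0, 0, 0, 0), (0, 0, 0, 0, 0), (0, 0, 0, 0, 0), (4, 0, 0, 0, 0), (4, 0, 0, 0, 0), (4, 0, 0, 0, 0), (4, 0, 0, 0, 0), (4, 0, 0, 0, 0), (4, 0, 0, 0, 0), (5, 0, 0, 0, 0), (5, 0, 0, 0, 0), (5,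 0, 0, 0, 0), (5, 0, 0, 0, 0), (5, 0, 0, 0, 0), (5, 0, 0, 0, 0), (6, 0, 0, 0, 0), (6, 0, 0, 0, 0), (6, 0, 0, 0, 0), (6, 0, 0, 0, 0), (6, 0, 0, 0, 0), (6, 0, 0, 0, 0), (1, 0, 0, 0, 0), (1, 0, 0, 0, 0), (1, 0, 0, 0, 0), (1, 0, 0, 0, 0), (1, 0, 0, 0, 0), (1, 0, 0, 0, 0), (4, 0, 0, 0, 0), (4, 0, 0, 0, 0), (4, 0, 0, 0, 0), (4, 0, 0, 0, 0), (4, 0, 0, 0, 0), (4, 0, 0, 0, 0), (7, 0, 0, 0, 0), (7, 0, 0, 0, 0), (7, 0, 0, 0, 0), (7, 0, 0, 0, 0), (7, 0, 0, 0, 0), (7, 0, 0, 0, 0), (8, 0, 0, 0, 0), (8, 0, 0, 0, 0), (8, 0, 0, 0, 0), (8, 0, 0, 0, 0), (8, 0, 0, 0, 0), (8, 0, 0, 0, 0), (2, 0, 0, 0, 0), (2, 0, 0, 0, 0), (2, 0, 0, 0, 0), (2, 0, 0, 0, 0), (2, 0, 0, 0, 0), (2, 0, 0, 0, 0), (5, 0, 0, 0, 0), (5, 0, 0, 0, 0), (5, 0, 0, 0, 0), (5, 0, 0, 0, 0), (5, 0, 0, 0, 0), (5, 0, 0, 0, 0), (7, 0, 0, 0, 0), (7, 0, 0, 0, 0), (7, 0, 0, 0, 0), (7, 0, 0, 0, 0), (7, 0, 0, 0, 0), (7, 0, 0,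 0, 0), (9, 0, 0, 0, 0), (9, 0, 0, 0, 0), (9, 0, 0, 0, 0), (9, 0, 0, 0, 0), (9, 0, 0, 0, 0), (9, 0, 0, 0, 0), (3, 0, 0, 0, 0), (3, 0, 0, 0, 0), (3, 0, 0, 0, 0), (3, 0, 0, 0, 0), (3, 0, 0, 0, 0), (3, 0, 0, 0, 0), (6, 0, 0, 0, 0), (6, 0, 0, 0, 0), (6, 0, 0, 0, 0), (6, 0, 0, 0, 0), (6, 0, 0, 0, 0), (6, 0, 0, 0, 0), (8, 0, 0, 0, 0), (8, 0, 0, 0, 0), (8, 0, 0, 0, 0), (8, 0, 0, 0, 0), (8, 0, 0, 0, 0), (8, 0, 0, 0, 0), (9, 0, 0, 0, 0), (9, 0, 0, 0, 0), (9, 0, 0, 0, 0), (9, 0, 0, 0, 0), (9, 0, 0, 0, 0), (9, 0, 0, 0, 0)]]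

theorem tr4 : trK keys lk4 kl4 = true := by
  decide +kernel

theorem x4_0 : expB 1 5 dg0 dg4 m4_0 (l4_0 ++ z4_0) w4_0 = true := by
  decide +kernel

theorem x4_1 : expB 1 5 dg0 dg4 m4_1 (l4_1 ++ z4_1) w4_1 = true := by
  decide +kernel

theorem x4_2 : expB 1 5 dg0 dg4 m4_2 (l4_2 ++ z4_2) w4_2 = true := by
  decide +kernel

theorem x4_3 : expB 1 5 dg0 dg4 m4_3 (l4_3 ++ z4_3) w4_3 = true := by
  decide +kernel

theorem x4_4 : expB 1 5 dg0 dg4 m4_4 (l4_4 ++ z4_4) w4_4 = true := by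
  decide +kernel

theorem x4_5 : expB 1 5 dg0 dg4 m4_5 (l4_5 ++ z4_5) w4_5 = true := by
  decide +kernel

theorem x4_6 : expB 1 5 dg0 dg4 m4_6 (l4_6 ++ z4_6) w4_6 = true := by
  decide +kernel

theorem x4_7 : expB 1 5 dg0 dg4 m4_7 (l4_7 ++ z4_7) w4_7 = true := by
  decide +kernel

theorem x4_8 : expB 1 5 dg0 dg4 m4_8 (l4_8 ++ z4_8) w4_8 = true := by
  decide +kernel

theorem x4_9 : expB 1 5 dg0 dg4 m4_9 (l4_9 ++ z4_9) w4_9 = true := by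
  decide +kernel

theorem t4_0_0 : chkS lk4 1 5 [(1, m4_0)] l4_0
  [(132, 528, 528, 87298146, 23351346), (139, 258, 33, 50619681, 52715781), (139, 258, 33, 50615841, 36987141), (137, 258, 33, 50615841, 36987141), (86, 513, 513, 67331346, 52838421), (64, 258, 33, 50677266, 37969941), (137, 258, 33, 50619681, 52715781), (86, 513, 513, 67327506, 37109781), (64, 258, 33, 50684946, 54681621), (64, 528, 528, 70586406, 4608306), (64, 528, 528, 70582566, 4608291), (65, 258, 33, 50746386, 70410261), (137, 513, 513, 84162081, 40120581), (86, 513, 513, 67331361, 52838661), (64, 258, 33, 50677281, 37970181), (137, 513, 513, 84173601, 56893701), (86, 513, 513, 67327521, 37110021), (64, 258, 33, 50684961, 54681861), (64, 528, 528, 70586466, 21385266), (64, 528, 528, 70582626, 21385251), (65, 258, 33, 50746401, 70410501), (54, 513, 513, 67331361, 52838661), (55, 33, 258, 4399446,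 1393446), (55, 33, 258, 4399461, 17122086), (55, 513, 513, 67450401, 38154501), (64, 513, 513, 67450386, 38154261), (64, 513, 513, 67450401, 38154501), (55, 513, 513, 67461921, 54927621), (64, 513, 513, 67461906, 54927381), (64, 513, 513, 67461921, 54927621)]
  [(54, 480), (55, 1920), (64, 5760), (65, 960), (86, 1920), (132, 480), (137, 1920), (139, 960)] = true := by
  decide +kernel

theorem t4_0_1 : chkS lk4 1 5 [(1, m4_0)] l4_1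
  [(138, 258, 33, 50615841, 36987141), (142, 258, 33, 50619681, 52715781), (138, 258, 33, 50619681, 52715781), (142, 258, 33, 50615841, 36987141), (67, 288, 288, 38146131, 68486706), (67, 288, 288, 38142291, 68486691), (140, 258, 33, 50619681, 52715781), (30, 33, 258, 5391201, 22225926), (141, 258, 33, 50619681, 52715781), (67, 258, 33, 50742546, 69427221), (141, 258, 33, 50615841, 36987141), (67, 258, 33, 50746386, 70410261), (138, 258, 33, 100946721, 104079621), (142, 258, 33, 84296481, 73605381), (138, 258, 33, 100939041, 103035141), (142, 258, 33, 84292641, 73543941), (67, 288, 288, 38146101, 67442226), (67, 288, 288, 38142261, 67442211), (140, 513, 513, 50619681, 52715781), (30, 33, 258, 5391126, 5448726), (141, 513, 513, 50742561, 69427461), (67, 258, 33, 50742561, 69427461), (141, 513, 513, 50746401, 70410501), (67, 258, 33, 50746401, 70410501), (54, 258,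 33, 100877601, 102973701), (57, 258, 33, 100881441, 103956741), (143, 258, 33, 84162081, 40120581), (66, 258, 33, 67450386, 38154261), (75, 288, 288, 54923301, 67461426), (55, 288, 288, 37945686, 1394211), (143, 513, 513, 50615841, 36987141), (66, 258, 33, 67450401, 38154501), (75, 288, 288, 54923346, 68509746), (55, 288, 288, 37945701, 17122851), (66, 513, 513, 50677266, 37969941), (66, 513, 513, 50677281, 37970181), (54, 258, 33, 100881441, 103956741), (57, 258, 33, 100877601, 102973701), (143, 258, 33, 84173601, 56893701), (66, 258, 33, 67461906, 54927381), (75, 288, 288, 54919461, 67461411), (55, 288, 288, 37949526, 1394226), (143, 513, 513, 50619681, 52715781), (66, 258, 33, 67461921, 54927621), (75, 288, 288, 54919506, 68509731), (55, 288, 288, 37949541, 17122866), (66, 513, 513, 50684946, 54681621), (66, 513, 513, 50684961, 54681861), (55, 258, 33, 100881441,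 103956741), (55, 258, 33, 100877601, 102973701), (144, 258, 33, 100946721, 104079621), (67, 258, 33, 84296466, 73605141), (144, 258, 33, 100939041, 103035141), (67, 258, 33, 84292626, 73543701), (144, 513, 513, 50677281, 37970181), (67, 258, 33, 84296481, 73605381), (144, 513, 513, 50684961, 54681861), (67, 258, 33, 84292641, 73543941), (30, 288, 288, 5391201, 22225926), (30, 288, 288, 5391126, 5448726)]
  [(30, 960), (54, 480), (55, 1440), (57, 480), (66, 1920), (67, 2880), (75, 960), (138, 960), (140, 480), (141, 960), (142, 960), (143, 960), (144, 960)] = true := by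
  decide +kernel

theorem t4_0_2 : chkS lk4 1 5 [(1, m4_0)] l4_2
  [(67, 288, 288, 104923701, 100995651), (67, 288, 288, 104931381, 100995906), (72, 288, 288, 54923346, 68509746), (79, 288, 288, 105058341, 101007666), (86, 258, 33, 50742561, 69427461), (86, 258, 33, 50746401, 70410501), (67, 288, 288, 104923731, 102040131), (67, 288, 288, 104931411, 102040386), (72, 288, 288, 54923301, 67461426), (79, 288, 288, 105058386, 102055986), (86, 258, 33, 50742546, 69427221), (86, 258, 33, 50746386, 70410261), (55, 258, 33, 50677281, 37970181), (75, 33, 258, 21377106, 68497506), (86, 258, 33, 100877601, 102973701), (75, 33, 258, 21377061, 67449186), (86, 258, 33, 100877586, 102973461), (57, 513, 513, 84108321, 56770821), (55, 258, 33, 50684961, 54681861), (75, 33, 258, 21365586, 68493411), (86, 258, 33, 100881441, 103956741), (75, 33, 258, 21365541, 67445091), (86, 258,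 33, 100881426, 103956501), (57, 513, 513, 50684961, 54681861), (56, 258, 33, 50746401, 70410501), (145, 513, 513, 84162066, 40120341), (145, 513, 513, 84173586, 56893461), (145, 513, 513, 84162081, 40120581), (145, 513, 513, 84173601, 56893701), (58, 513, 513, 50746401, 70410501)]
  [(55, 960), (56, 480), (57, 960), (58, 480), (67, 1920), (72, 960), (75, 1920), (79, 960), (86, 3840), (145, 1920)] = true := by
  decide +kernel

theorem t4_0_3 : chkS lk4 1 5 [(1, m4_0)] l4_3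
  [(58, 258, 33, 50746401, 70410501), (55, 258, 33, 84100641, 40059141), (55, 258, 33, 84108321, 56770821), (146, 258, 33, 84173601, 56893701), (67, 288, 288, 21365331, 68485731), (75, 33, 258, 104923986, 102047811), (146, 258, 33, 84162081, 40120581), (67, 288, 288, 21373011, 68485986), (75, 33, 258, 104935506, 102051906), (67, 288, 288, 21365301, 67441251), (67, 288, 288, 21372981, 67441506), (79, 288, 288, 54923301, 67461426), (75, 33, 258, 104923941, 100999491), (75, 33, 258, 104935461, 101003586), (79, 288, 288, 54923346, 68509746)]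
  [(55, 1920), (58, 960), (67, 3840), (75, 3840), (79, 1920), (146, 1920)] = true := by
  decide +kernel

theorem t4_0_4 : chkS lk4 1 5 [(1, m4_0)] l4_4
  [(147, 1, 1, 50619681, 52715781), (151, 1, 1, 50619681, 52715781), (151, 1, 1, 50615841, 36987141), (148, 1, 1, 50615841, 36987141), (150, 1, 1, 50619681, 52715781), (68, 1, 1, 50742546, 69427221), (148, 1, 1, 50619681, 52715781), (150, 1, 1, 50615841, 36987141), (68, 1, 1, 50746386, 70410261), (149, 1, 1, 50619681, 52715781), (149, 1, 1, 50615841, 36987141), (26, 16, 16, 21377616, 68498016), (147, 1, 1, 50619666, 52715541), (151, 1, 1, 50619666, 52715541), (151, 1, 1, 50615826, 36986901), (148, 1, 1, 50615826, 36986901), (150, 1, 1, 50619666, 52715541), (68, 1, 1, 50742561, 69427461), (148, 1, 1, 50619666, 52715541), (150, 1, 1, 50615826, 36986901), (68, 1, 1, 50746401, 70410501), (149, 1, 1, 50619666, 52715541),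 (149, 1, 1, 50615826, 36986901), (26, 16, 16, 21377541, 67449441), (259, 1, 1, 102056736, 105062736), (167, 16, 16, 37097556, 68179506), (167, 1, 1, 67523346, 70656021), (259, 1, 1, 68510496, 54927696), (167, 16, 16, 37097541, 67196466), (167, 1, 1, 67523361, 70656261), (260, 1, 1, 102056736, 105062736), (168, 1, 1, 84296466, 73605141), (168, 1, 1, 84296481, 73605381), (168, 16, 16, 37097556, 68179506), (167, 1, 1, 84296466, 73605141), (167, 1, 1, 84296481, 73605381), (259, 1, 1, 102052896, 105001296), (167, 16, 16, 37093716, 68179491), (167, 1, 1, 67515666, 69611541), (259, 1, 1, 68498976, 38154576), (167, 16, 16, 37093701, 67196451), (167, 1, 1, 67515681, 69611781), (260, 1, 1, 102052896, 105001296), (168, 1, 1, 84292626, 73543701), (168, 1, 1, 84292641, 73543941), (168, 16, 16, 37093716, 68179491), (167, 1, 1, 84292626, 73543701), (167, 1, 1, 84292641, 73543941),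 (212, 1, 1, 85345056, 73605456), (212, 1, 1, 85341216, 73544016), (22, 16, 16, 4272741, 17117766), (212, 1, 1, 51668256, 52715856), (212, 1, 1, 51664416, 36987216), (22, 16, 16, 4272726, 1389126), (213, 1, 1, 85345056, 73605456), (165, 1, 1, 50615826, 36986901), (165, 1, 1, 50615841, 36987141), (213, 1, 1, 85341216, 73544016), (165, 1, 1, 50619666, 52715541), (165, 1, 1, 50619681, 52715781)]
  [(22, 480), (26, 480), (68, 960), (147, 480), (148, 960), (149, 960), (150, 960), (151, 960), (165, 960), (167, 2880), (168, 1440), (212, 960), (213, 480), (259, 960), (260, 480)] = true := by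
  decide +kernel

theorem t4_0_5 : chkS lk4 1 5 [(1, m4_0)] l4_5
  [(87, 1, 1, 50742561, 69427461), (87, 1, 1, 50746401, 70410501), (88, 1, 1, 50746401, 70410501), (87, 1, 1, 50742546, 69427221), (87, 1, 1, 50746386, 70410261), (88, 1, 1, 50746386, 70410261), (168, 16, 16, 20324436, 68178786), (167, 16, 16, 20324436, 68178786), (167, 16, 16, 20324421, 67195746), (168, 16, 16, 20316756, 68178531), (167, 16, 16, 20316756, 68178531), (167, 16, 16, 20316741, 67195491), (210, 1, 1, 68379936, 52838736), (211, 1, 1, 68379936, 52838736), (211, 1, 1, 68376096, 37110096)]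
  [(87, 3840), (88, 1920), (167, 3840), (168, 1920), (210, 960), (211, 1920)] = true := by
  decide +kernel

theorem t4_0_6 : chkS lk4 1 5 [(1, m4_0)] l4_6
  [(59, 1, 1, 100881441, 103956741), (59, 1, 1, 50746401, 70410501), (60, 1, 1, 100881441, 103956741), (153, 1, 1, 67523361, 70656261), (153, 1, 1, 100946721, 104079621), (155, 1, 1, 100946721, 104079621), (153, 1, 1, 67515681, 69611781), (153, 1, 1, 100939041, 103035141), (155, 1, 1, 100939041, 103035141), (88, 1, 1, 100881441, 103956741), (87, 1, 1, 100881441, 103956741), (87, 1, 1, 100877601, 102973701), (153, 1, 1, 67523346, 70656021), (153, 1, 1, 100946706, 104079381), (155, 1, 1, 100946706, 104079381), (153, 1, 1, 67515666, 69611541), (153, 1, 1, 100939026, 103034901), (155, 1, 1, 100939026, 103034901), (88, 1, 1, 100881426, 103956501), (87, 1, 1, 100881426, 103956501), (87, 1, 1, 100877586, 102973461),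 (133, 16, 16, 69603411, 68551986), (133, 16, 16, 103026771, 101975346), (134, 16, 16, 103026771, 101975346), (167, 16, 16, 103882821, 100750146), (167, 16, 16, 103882836, 101733186), (168, 16, 16, 103882836, 101733186), (167, 16, 16, 103875141, 100749891), (167, 16, 16, 103875156, 101732931), (168, 16, 16, 103875156, 101732931)]
  [(59, 960), (60, 480), (87, 1920), (88, 960), (133, 960), (134, 480), (153, 3840), (155, 1920), (167, 1920), (168, 960)] = true := by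
  decide +kernel

theorem t4_0_7 : chkS lk4 1 5 [(1, m4_0)] l4_7
  [(61, 1, 1, 218145, 3293445), (62, 1, 1, 218145, 3293445), (62, 1, 1, 214305, 2310405), (157, 1, 1, 283425, 3416325), (70, 16, 16, 3477570, 4280370), (70, 1, 1, 344850, 4399125), (157, 1, 1, 275745, 2371845), (70, 16, 16, 3473730, 4280355), (70, 1, 1, 341010, 4337685), (47, 16, 16, 4272720, 1389120), (47, 16, 16, 4268880, 1385280), (41, 16, 16, 4272720, 1389120), (157, 1, 1, 283410, 3416085), (70, 16, 16, 3477540, 4215090), (70, 1, 1, 344865, 4399365), (157, 1, 1, 275730, 2371605), (70, 16, 16, 3473700, 4215075), (70, 1, 1, 341025, 4337925), (47, 16, 16, 4272645, 340545), (47, 16, 16, 4268805, 336705), (41, 16, 16, 4272645, 340545), (135, 16, 16, 2363475, 1312050), (31, 16, 16, 2428995, 4261170), (31, 16, 16, 2428980, 4199730), (170, 16, 16, 3280980, 1070130), (169, 1, 1, 283410, 3416085), (169,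 1, 1, 283425, 3416325), (170, 16, 16, 3277140, 1070115), (169, 1, 1, 275730, 2371605), (169, 1, 1, 275745, 2371845)]
  [(31, 960), (41, 960), (47, 1920), (61, 480), (62, 960), (70, 3840), (135, 480), (157, 1920), (169, 1920), (170, 960)] = true := by
  decide +kernel

theorem t4_0_8 : chkS lk4 1 5 [(1, m4_0)] l4_8
  [(63, 1, 1, 218145, 3293445), (160, 1, 1, 283425, 3416325), (160, 1, 1, 275745, 2371845), (89, 1, 1, 218145, 3293445), (160, 1, 1, 283410, 3416085), (160, 1, 1, 275730, 2371605), (89, 1, 1, 218130, 3293205), (136, 16, 16, 2363475, 1312050), (171, 16, 16, 3219525, 86850), (171, 16, 16, 3211845, 86595)]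
  [(63, 1440), (89, 2880), (136, 1440), (160, 5760), (171, 2880)] = true := by
  decide +kernel

theorem t4_0_9 : chkS lk4 1 5 [(1, m4_0)] l4_9
  [(261, 1, 1, 1393440, 4399440), (262, 1, 1, 1393440, 4399440), (262, 1, 1, 1389600, 4338000), (263, 1, 1, 1393440, 4399440), (262, 1, 1, 1393410, 4399185), (262, 1, 1, 1389570, 4337745), (263, 1, 1, 1393410, 4399185), (264, 1, 1, 1393440, 4399440), (265, 1, 1, 1393440, 4399440), (265, 1, 1, 1389600, 4338000)]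
  [(261, 1440), (262, 5760), (263, 2880), (264, 1440), (265, 2880)] = true := by
  decide +kernel

theorem t4_1_1 : chkS lk4 1 5 [(1, m4_1)] l4_1
  [(140, 528, 528, 34866771, 34866771), (172, 258, 33, 86393091, 73598241), (266, 513, 513, 102056736, 105062736), (179, 258, 33, 86393091, 73598241), (179, 528, 528, 33952596, 68167221), (141, 528, 528, 34997331, 68290131), (266, 513, 513, 102056496, 105058896), (179, 258, 33, 86392851, 73598226), (179, 528, 528, 33953076, 69211701), (141, 528, 528, 34997571, 69273171), (179, 513, 513, 70668546, 70668321), (179, 513, 513, 70668306, 70668306), (143, 528, 528, 34866771, 34866771), (181, 528, 528, 33756756, 34620981), (267, 513, 513, 102056736, 105062736), (183, 258, 33, 69558531, 54920481), (183, 528, 528, 33887076, 20981301), (144, 528, 528, 34931811, 21104211), (193, 528, 528, 34866531, 19138131), (182, 288, 288, 2176581,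 33633606), (74, 528, 528, 33887331, 21104181), (75, 18, 18, 38879286, 5445186), (182, 33, 258, 54592806, 2449731), (183, 513, 513, 101008161, 105062661), (143, 528, 528, 34866531, 19138131), (181, 528, 528, 33756516, 18892341), (267, 513, 513, 102056496, 105058896), (183, 258, 33, 69558291, 54920466), (183, 528, 528, 33887796, 37754421), (144, 528, 528, 34932291, 37815891), (193, 528, 528, 34866771, 34866771), (182, 288, 288, 2176101, 16921926), (74, 528, 528, 33887811, 37815861), (75, 18, 18, 38880006, 5449281), (182, 33, 258, 54592086, 1401411), (183, 513, 513, 101007921, 105058821), (193, 258, 33, 100946481, 104075781), (74, 258, 33, 69558531, 54920481), (193, 258, 33, 100946721, 104079621), (74, 258, 33, 69558291, 54920466), (182, 513, 513, 70607106, 54939681), (182, 513, 513, 70606866, 54939666), (173, 258, 33, 87318786, 56905761), (29, 288, 288, 34801236,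 34621011), (180, 258, 33, 87318786, 56905761), (182, 513, 513, 101008161, 105062661), (180, 258, 33, 87318546, 56905746), (182, 513, 513, 101007921, 105058821), (182, 528, 528, 33887076, 20981301), (75, 258, 33, 86393091, 73598241), (182, 528, 528, 33887796, 37754421), (75, 258, 33, 86392851, 73598226), (183, 513, 513, 70607106, 54939681), (183, 513, 513, 70606866, 54939666), (29, 528, 528, 19150416, 34878816), (79, 258, 33, 86393091, 73598241), (182, 33, 258, 6370596, 85995846), (179, 513, 513, 84296481, 73605381), (182, 33, 258, 6369876, 84947526), (179, 513, 513, 84296241, 73601541)]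
  [(29, 480), (74, 960), (75, 960), (79, 240), (140, 240), (141, 480), (143, 480), (144, 480), (172, 240), (173, 240), (179, 1920), (180, 480), (181, 480), (182, 2880), (183, 1920), (193, 960), (266, 480), (267, 480)] = true := by
  decide +kernel

theorem t4_1_2 : chkS lk4 1 5 [(1, m4_1)] l4_2
  [(30, 258, 33, 35017776, 70391376), (179, 18, 18, 21374256, 69538656), (142, 528, 528, 68551251, 68551251), (179, 18, 18, 21373776, 68494176), (142, 528, 528, 68551971, 69599571), (172, 513, 513, 70668546, 70668321), (66, 528, 528, 86050371, 39912771), (183, 18, 18, 23405571, 88212321), (142, 528, 528, 101974611, 101974611), (74, 18, 18, 23405316, 88089441), (57, 528, 528, 85132866, 39927891), (181, 18, 18, 22225926, 5391201), (66, 528, 528, 86049891, 23201091), (183, 18, 18, 23404611, 88146786), (142, 528, 528, 101975331, 103022931), (74, 18, 18, 23404596, 88085346),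 (57, 528, 528, 51709506, 37838931), (181, 18, 18, 22224966, 5325666), (182, 528, 528, 87105606, 6378306), (182, 528, 528, 87106566, 6443841), (172, 513, 513, 104091906, 104091681), (29, 528, 528, 67311186, 35012661), (181, 33, 258, 21169446, 2441571), (181, 33, 258, 21168726, 1393251), (146, 528, 528, 85197411, 23331411), (146, 528, 528, 85198371, 40108371), (174, 513, 513, 87318786, 56905761), (58, 528, 528, 51774786, 69296211), (194, 513, 513, 86270211, 56886561), (194, 513, 513, 86269971, 56886546)]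
  [(29, 480), (30, 480), (57, 960), (58, 480), (66, 960), (74, 960), (142, 1920), (146, 960), (172, 960), (174, 480), (179, 960), (181, 1920), (182, 960), (183, 960), (194, 960)] = true := by
  decide +kernel

theorem t4_1_3 : chkS lk4 1 5 [(1, m4_1)] l4_3
  [(194, 258, 33, 84173361, 56889861), (66, 528, 528, 19203171, 21103971), (182, 528, 528, 20258886, 4281186), (194, 258, 33, 84173601, 56893701), (66, 528, 528, 19203651, 37815651), (182, 528, 528, 20259846, 4346721), (174, 258, 33, 86270211, 56886561), (183, 18, 18, 90252291, 90309441), (183, 18, 18, 90251331, 90243906), (30, 258, 33, 101864496, 103945296), (179, 18, 18, 104932656, 103093056), (179, 18, 18, 104932176, 102048576), (29, 528, 528, 50599506, 34889781), (74, 18, 18, 90251316, 90182466), (74, 18, 18, 90252036, 90186561)]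
  [(29, 960), (30, 960), (66, 1920), (74, 1920), (174, 960), (179, 1920), (182, 1920), (183, 1920), (194, 1920)] = true := by
  decide +kernel

theorem t4_1_4 : chkS lk4 1 5 [(1, m4_1)] l4_4
  [(196, 16, 16, 34866531, 19138131), (76, 16, 16, 33952851, 68290101), (197, 16, 16, 3417681, 34886406), (196, 16, 16, 34866771, 34866771), (76, 16, 16, 33953091, 69273141), (197, 16, 16, 3417441, 19157766), (195, 16, 16, 34866771, 34866771), (198, 16, 16, 34866771, 34866771), (198, 16, 16, 34866531, 19138131), (28, 1, 1, 35009856, 69285456), (197, 16, 16, 34866771, 34866771), (197, 16, 16, 34866531, 19138131), (268, 1, 1, 102056736, 105062736), (188, 16, 16, 50730276, 69230901), (188, 1, 1, 69619971, 70649121), (269, 1, 1, 102056736, 105062736), (190, 16, 16, 50730276, 69230901), (190, 1, 1, 84296481, 73605381), (270, 1, 1, 102056736, 105062736), (189, 1, 1, 69619971, 70649121),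 (189, 1, 1, 84296481, 73605381), (189, 16, 16, 50730276, 69230901), (190, 1, 1, 69619971, 70649121), (188, 1, 1, 84296481, 73605381), (268, 1, 1, 102056496, 105058896), (188, 16, 16, 50729556, 68182581), (188, 1, 1, 69619731, 70649106), (269, 1, 1, 102056496, 105058896), (190, 16, 16, 50729556, 68182581), (190, 1, 1, 84296241, 73601541), (270, 1, 1, 102056496, 105058896), (189, 1, 1, 69619731, 70649106), (189, 1, 1, 84296241, 73601541), (189, 16, 16, 50729556, 68182581), (190, 1, 1, 69619731, 70649106), (188, 1, 1, 84296241, 73601541), (147, 16, 16, 34866771, 34866771), (151, 16, 16, 34866771, 34866771), (151, 16, 16, 34866531, 19138131), (148, 16, 16, 34866771, 34866771), (149, 16, 16, 34866771, 34866771), (87, 16, 16, 34997331, 68290131), (148, 16, 16, 34866531, 19138131), (149, 16, 16, 34866531, 19138131), (87, 16, 16, 34997571, 69273171), (150, 16, 16, 34866771,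 34866771), (150, 16, 16, 34866531, 19138131), (88, 16, 16, 34997571, 69273171), (184, 16, 16, 33756756, 34620981), (208, 1, 1, 87441666, 73617441), (208, 1, 1, 87441426, 73617426), (186, 16, 16, 33756756, 34620981), (207, 1, 1, 87441666, 73617441), (187, 1, 1, 84296481, 73605381), (186, 16, 16, 33756516, 18892341), (207, 1, 1, 87441426, 73617426), (187, 1, 1, 84296241, 73601541), (209, 1, 1, 87441666, 73617441), (209, 1, 1, 87441426, 73617426), (24, 16, 16, 50599506, 34889781)]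
  [(24, 240), (28, 240), (76, 480), (87, 480), (88, 240), (147, 240), (148, 480), (149, 480), (150, 480), (151, 480), (184, 240), (186, 480), (187, 480), (188, 1440), (189, 1440), (190, 1440), (195, 240), (196, 480), (197, 960), (198, 480), (207, 480), (208, 480), (209, 480), (268, 480), (269, 480), (270, 480)] = true := by
  decide +kernel

theorem t4_1_5 : chkS lk4 1 5 [(1, m4_1)] l4_5
  [(28, 1, 1, 50734401, 69296901), (76, 16, 16, 20325456, 68309856), (76, 16, 16, 20325696, 69292896), (189, 16, 16, 19280901, 67253601), (190, 16, 16, 19280901, 67253601), (188, 16, 16, 19280901, 67253601), (189, 16, 16, 19279941, 67188066), (190, 16, 16, 19279941, 67188066), (188, 16, 16, 19279941, 67188066), (68, 16, 16, 19268691, 68289891), (68, 16, 16, 19268931, 69272931), (26, 1, 1, 84296481, 73605381), (206, 16, 16, 19932516, 18895716), (206, 16, 16, 19932756, 34624356),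 (205, 16, 16, 19932756, 34624356)]
  [(26, 960), (28, 960), (68, 1920), (76, 1920), (188, 1920), (189, 1920), (190, 1920), (205, 960), (206, 1920)] = true := by
  decide +kernel

theorem t4_1_6 : chkS lk4 1 5 [(1, m4_1)] l4_6
  [(199, 1, 1, 67523121, 70652421), (199, 1, 1, 100946481, 104075781), (200, 1, 1, 100946481, 104075781), (199, 1, 1, 67523361, 70656261), (199, 1, 1, 100946721, 104079621), (200, 1, 1, 100946721, 104079621), (59, 16, 16, 101909826, 102842451), (59, 16, 16, 51774786, 69296211), (60, 16, 16, 101909826, 102842451), (76, 16, 16, 103884096, 102847296), (76, 16, 16, 103883856, 101864256), (28, 1, 1, 100869441, 102843141), (175, 1, 1, 69619971, 70649121), (175, 1, 1, 103043331, 104072481), (176, 1, 1, 103043331, 104072481), (152, 16, 16, 68551971, 69599571), (152, 16, 16, 101975331, 103022931), (154, 16, 16, 101975331, 103022931), (188, 16, 16,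 102839301, 100808001), (190, 16, 16, 102839301, 100808001), (189, 16, 16, 102839301, 100808001), (152, 16, 16, 68551251, 68551251), (152, 16, 16, 101974611, 101974611), (154, 16, 16, 101974611, 101974611), (188, 16, 16, 102838341, 100742466), (190, 16, 16, 102838341, 100742466), (189, 16, 16, 102838341, 100742466), (26, 1, 1, 101008161, 105062661), (68, 16, 16, 102827331, 102827331), (68, 16, 16, 102827091, 101844291)]
  [(26, 480), (28, 480), (59, 960), (60, 480), (68, 960), (76, 960), (152, 1920), (154, 960), (175, 960), (176, 480), (188, 960), (189, 960), (190, 960), (199, 1920), (200, 960)] = true := by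
  decide +kernel

theorem t4_1_7 : chkS lk4 1 5 [(1, m4_1)] l4_7
  [(201, 1, 1, 283185, 3412485), (50, 1, 1, 1393440, 4399440), (50, 16, 16, 2438160, 4338960), (201, 1, 1, 283425, 3416325), (50, 1, 1, 1393200, 4395600), (50, 16, 16, 2437440, 4273440), (61, 16, 16, 1246530, 2179155), (62, 16, 16, 1246530, 2179155), (62, 16, 16, 1246290, 1196115), (45, 1, 1, 1193280, 2176080), (46, 1, 1, 206145, 2179845), (46, 1, 1, 205905, 1196805), (177, 1, 1, 2380035, 3409185), (85, 16, 16, 2437380, 4207905), (85, 1, 1, 2441475, 4392225), (156, 16, 16, 1312035, 2359635), (52, 1, 1, 344865, 4399365), (52, 1, 1, 2441475, 4392225), (49, 1, 1, 283425, 3416325), (191, 1, 1, 2380035, 3409185), (48, 1, 1, 2437380, 4207905), (156, 16, 16, 1311315, 1311315), (52, 1, 1, 344625, 4395525), (52, 1, 1, 2441235, 4392210), (49, 1, 1, 283185, 3412485), (191, 1, 1, 2379795, 3409170), (48, 1,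 1, 2437140, 4207890), (51, 1, 1, 344865, 4399365), (51, 1, 1, 344625, 4395525), (41, 1, 1, 344865, 4399365)]
  [(41, 480), (45, 480), (46, 960), (48, 960), (49, 960), (50, 1920), (51, 960), (52, 1920), (61, 480), (62, 960), (85, 960), (156, 960), (177, 480), (191, 960), (201, 960)] = true := by
  decide +kernel

theorem t4_1_8 : chkS lk4 1 5 [(1, m4_1)] l4_8
  [(203, 1, 1, 283185, 3412485), (203, 1, 1, 283425, 3416325), (63, 16, 16, 1246530, 2179155), (77, 16, 16, 3220800, 2184000), (178, 1, 1, 2380035, 3409185), (159, 16, 16, 1312035, 2359635), (192, 16, 16, 2176005, 144705), (159, 16, 16, 1311315, 1311315), (192, 16, 16, 2175045, 79170), (69, 16, 16, 2164035, 2164035)]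
  [(63, 1440), (69, 1440), (77, 1440), (159, 2880), (178, 1440), (192, 2880), (203, 2880)] = true := by
  decide +kernel

theorem t4_1_9 : chkS lk4 1 5 [(1, m4_1)] l4_9
  [(271, 1, 1, 1393440, 4399440), (271, 1, 1, 1393200, 4395600), (272, 1, 1, 1393440, 4399440), (25, 1, 1, 344865, 4399365), (273, 1, 1, 1393440, 4399440), (274, 1, 1, 1393440, 4399440), (275, 1, 1, 1393440, 4399440), (274, 1, 1, 1393200, 4395600), (275, 1, 1, 1393200, 4395600), (27, 1, 1, 344865, 4399365)]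
  [(25, 1440), (27, 1440), (271, 2880), (272, 1440), (273, 1440), (274, 2880), (275, 2880)] = true := by
  decide +kernel

theorem t4_2_2 : chkS lk4 1 5 [(1, m4_2)] l4_2
  [(3, 528, 528, 70321746, 35016771), (141, 288, 288, 73404981, 84283956), (141, 288, 288, 73466421, 84283971), (141, 288, 288, 73405221, 84287796), (141, 288, 288, 73466661, 84287811), (78, 513, 513, 104153346, 105074721), (71, 528, 528, 87098946, 39931971), (144, 288, 288, 72356451, 22413876), (144, 288, 288, 72417891, 22413891), (75, 18, 18, 23339781, 84157281), (75, 18, 18, 23216901, 84092001), (29, 513, 513, 70668306, 70668306), (71, 528, 528, 87098466, 23220291), (144, 288, 288, 72357411, 39190836), (144, 288, 288, 72418851, 39190851), (75, 18, 18, 23339061, 84153186), (75, 18, 18, 23216181, 84087906), (29, 513, 513, 70668546, 70668321), (75, 258, 33, 101995056, 104075856), (75, 258, 33,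 101995296, 104079696), (29, 33, 258, 54535761, 34956036), (79, 258, 33, 104091906, 104091681), (74, 513, 513, 85345056, 73605456), (74, 513, 513, 85344816, 73601616), (75, 258, 33, 102056496, 105058896), (75, 258, 33, 102056736, 105062736), (29, 33, 258, 54658641, 34956291), (79, 258, 33, 104153346, 105074721), (74, 513, 513, 85222176, 56893776), (74, 513, 513, 85221936, 56889936)]
  [(3, 480), (29, 1920), (71, 960), (74, 1920), (75, 3840), (78, 480), (79, 960), (141, 1920), (144, 1920)] = true := by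
  decide +kernel

theorem t4_2_3 : chkS lk4 1 5 [(1, m4_2)] l4_3
  [(66, 288, 288, 22029156, 22029156), (66, 288, 288, 22152036, 22029411), (29, 258, 33, 70668546, 70668321), (66, 288, 288, 22029876, 38802276), (66, 288, 288, 22152756, 38802531), (29, 258, 33, 70668306, 70668306), (30, 18, 18, 103093296, 104994096), (182, 258, 33, 85344816, 73601616), (182, 258, 33, 85345056, 73605456), (30, 18, 18, 102847536, 103945536), (182, 258, 33, 85221936, 56889936), (182, 258, 33, 85222176, 56893776), (78, 258, 33, 104153346, 105074721), (180, 513, 513, 68571936, 70656336), (180, 513, 513, 68510496, 54927696)]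
  [(29, 1920), (30, 1920), (66, 3840), (78, 960), (180, 1920), (182, 3840)] = true := by
  decide +kernel

theorem t4_2_4 : chkS lk4 1 5 [(1, m4_2)] l4_4
  [(187, 1, 1, 68571696, 70652496), (187, 1, 1, 68510256, 54923856), (184, 1, 1, 68571936, 70656336), (187, 1, 1, 68571936, 70656336), (187, 1, 1, 68510496, 54927696), (184, 1, 1, 68571696, 70652496), (24, 16, 16, 19150416, 34878816), (186, 1, 1, 68510496, 54927696), (186, 1, 1, 68510256, 54923856), (24, 16, 16, 19088976, 34817376), (186, 1, 1, 68571936, 70656336), (186, 1, 1, 68571696, 70652496), (208, 1, 1, 68571696, 70652496), (208, 1, 1, 68510256, 54923856), (184, 1, 1, 70668546, 70668321), (207, 1, 1, 68571696, 70652496), (207, 1, 1, 68510256, 54923856), (205, 1, 1, 68571696, 70652496), (209, 1, 1, 68571696, 70652496), (186, 1, 1, 70607106, 54939681), (206, 1, 1, 68510256, 54923856), (209, 1, 1, 68510256,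 54923856), (186, 1, 1, 70668546, 70668321), (206, 1, 1, 68571696, 70652496), (208, 1, 1, 68571936, 70656336), (208, 1, 1, 68510496, 54927696), (184, 1, 1, 70668306, 70668306), (207, 1, 1, 68571936, 70656336), (207, 1, 1, 68510496, 54927696), (205, 1, 1, 68571936, 70656336), (209, 1, 1, 68571936, 70656336), (186, 1, 1, 70606866, 54939666), (206, 1, 1, 68510496, 54927696), (209, 1, 1, 68510496, 54927696), (186, 1, 1, 70668306, 70668306), (206, 1, 1, 68571936, 70656336), (22, 1, 1, 85345056, 73605456), (212, 16, 16, 37754451, 34932276), (212, 16, 16, 37754211, 19203636), (165, 16, 16, 37815891, 34932291), (212, 16, 16, 39851061, 84022836), (211, 16, 16, 37754211, 19203636), (165, 16, 16, 37815651, 19203651), (212, 16, 16, 39850821, 83961396), (211, 16, 16, 37754451, 34932276), (213, 16, 16, 37754451, 34932276), (213, 16, 16, 37754211, 19203636), (210, 16, 16, 37754451,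 34932276), (22, 1, 1, 85222176, 56893776), (212, 16, 16, 37815891, 34932291), (212, 16, 16, 37815651, 19203651), (165, 16, 16, 37754451, 34932276), (212, 16, 16, 39912501, 84022851), (211, 16, 16, 37815651, 19203651), (165, 16, 16, 37754211, 19203636), (212, 16, 16, 39912261, 83961411), (211, 16, 16, 37815891, 34932291), (213, 16, 16, 37815891, 34932291), (213, 16, 16, 37815651, 19203651), (210, 16, 16, 37815891, 34932291)]
  [(22, 480), (24, 480), (165, 960), (184, 960), (186, 1920), (187, 960), (205, 480), (206, 960), (207, 960), (208, 960), (209, 960), (210, 480), (211, 960), (212, 1920), (213, 960)] = true := by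
  decide +kernel

theorem t4_2_5 : chkS lk4 1 5 [(1, m4_2)] l4_5
  [(2, 1, 1, 34879056, 34879056), (185, 1, 1, 68571936, 70656336), (185, 1, 1, 68510496, 54927696), (24, 1, 1, 38162691, 70583841), (187, 16, 16, 23274501, 84034401), (187, 16, 16, 23213061, 84030561), (24, 1, 1, 38162451, 70583826), (187, 16, 16, 23273541, 83968866), (187, 16, 16, 23212101, 83965026), (165, 16, 16, 21103971, 19203171), (165, 16, 16, 21104211, 34931811), (22, 1, 1, 102056736, 105062736), (165, 16, 16, 20981091, 19202916), (165, 16, 16, 20981331, 34931556), (22, 1, 1, 101995296, 104079696)]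
  [(2, 960), (22, 1920), (24, 1920), (165, 3840), (185, 1920), (187, 3840)] = true := by
  decide +kernel

theorem t4_2_6 : chkS lk4 1 5 [(1, m4_2)] l4_6
  [(28, 16, 16, 104153601, 105075201), (76, 1, 1, 102056496, 105058896), (76, 1, 1, 101995056, 104075856), (28, 16, 16, 104153121, 105074946), (76, 1, 1, 102056736, 105062736), (76, 1, 1, 101995296, 104079696), (87, 16, 16, 103941441, 102847491), (87, 16, 16, 103941201, 101864451), (88, 16, 16, 103941441, 102847491), (87, 16, 16, 103818561, 102847236), (87, 16, 16, 103818321, 101864196), (88, 16, 16, 103818561, 102847236), (81, 1, 1, 104153346, 105074721), (80, 1, 1, 104153346, 105074721), (80, 1, 1, 104091906, 104091681), (151, 16, 16, 73532181, 84288531), (149, 16, 16, 73532181, 84288531), (150, 16, 16, 73532181, 84288531), (151, 16, 16, 73409301, 84288276), (149, 16, 16, 73409301, 84288276), (150, 16, 16,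 73409301, 84288276), (151, 16, 16, 73531701, 84284451), (149, 16, 16, 73531701, 84284451), (150, 16, 16, 73531701, 84284451), (151, 16, 16, 73408821, 84284196), (149, 16, 16, 73408821, 84284196), (150, 16, 16, 73408821, 84284196), (11, 16, 16, 103875906, 102846531), (73, 16, 16, 103875906, 102846531), (73, 16, 16, 103875666, 101863491)]
  [(11, 480), (28, 960), (73, 960), (76, 1920), (80, 960), (81, 480), (87, 1920), (88, 960), (149, 1920), (150, 1920), (151, 1920)] = true := by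
  decide +kernel

theorem t4_2_7 : chkS lk4 1 5 [(1, m4_2)] l4_7
  [(46, 16, 16, 3490305, 4411905), (46, 16, 16, 3428865, 3428865), (45, 16, 16, 2442000, 4400400), (46, 16, 16, 3489825, 4411650), (46, 16, 16, 3428385, 3428610), (45, 16, 16, 2441520, 4396320), (41, 1, 1, 1393440, 4399440), (47, 1, 1, 1393440, 4399440), (47, 1, 1, 1393200, 4395600), (41, 1, 1, 1332000, 3416400), (47, 1, 1, 1332000, 3416400), (47, 1, 1, 1331760, 3412560), (83, 1, 1, 3490050, 4411425), (83, 1, 1, 3428610, 3428385), (82, 1, 1, 3490050, 4411425), (51, 1, 1, 3490050, 4411425), (47, 1, 1, 3490050, 4411425), (158, 16, 16, 5374740, 5252115), (51, 1, 1, 3428610, 3428385), (47, 1, 1, 3428610, 3428385), (158, 16, 16, 5251860, 5251860), (51, 1, 1, 3489810, 4411410), (47, 1, 1, 3489810, 4411410), (158, 16, 16, 5374260, 5248035), (51, 1, 1, 3428370, 3428370), (47, 1, 1, 3428370, 3428370), (158,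 16, 16, 5251380, 5247780), (44, 16, 16, 3212610, 2183235), (44, 16, 16, 3212370, 1200195), (42, 16, 16, 3212610, 2183235)]
  [(41, 960), (42, 480), (44, 960), (45, 960), (46, 1920), (47, 3840), (51, 1920), (82, 480), (83, 960), (158, 1920)] = true := by
  decide +kernel

theorem t4_2_8 : chkS lk4 1 5 [(1, m4_2)] l4_8
  [(77, 1, 1, 1393200, 4395600), (77, 1, 1, 1393440, 4399440), (89, 16, 16, 3278145, 2184195), (89, 16, 16, 3155265, 2183940), (84, 1, 1, 3490050, 4411425), (161, 16, 16, 4326165, 336915), (161, 16, 16, 4203285, 336660), (161, 16, 16, 4325685, 332835), (161, 16, 16, 4202805, 332580), (16, 16, 16, 3212610, 2183235)]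
  [(16, 1440), (77, 2880), (84, 1440), (89, 2880), (161, 5760)] = true := by
  decide +kernel

theorem t4_2_9 : chkS lk4 1 5 [(1, m4_2)] l4_9
  [(276, 1, 1, 1393440, 4399440), (276, 1, 1, 1393200, 4395600), (21, 1, 1, 1393440, 4399440), (21, 1, 1, 1332000, 3416400), (10, 1, 1, 1393440, 4399440), (277, 1, 1, 1393440, 4399440), (277, 1, 1, 1332000, 3416400), (277, 1, 1, 1393200, 4395600), (277, 1, 1, 1331760, 3412560), (20, 1, 1, 1393440, 4399440)]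
  [(10, 1440), (20, 1440), (21, 2880), (276, 2880), (277, 5760)] = true := by
  decide +kernel

theorem t4_3_3 : chkS lk4 1 5 [(1, m4_3)] l4_3
  [(162, 528, 528, 34628931, 52495956), (172, 258, 33, 73736976, 88482576), (172, 258, 33, 73740816, 88486416), (163, 528, 528, 34628931, 52495956), (181, 288, 288, 51389766, 2188116), (181, 288, 288, 51398181, 33775956), (163, 528, 528, 34625091, 36767316), (181, 288, 288, 51401286, 3236436), (181, 288, 288, 51405861, 50487636), (181, 288, 288, 51389796, 18899796), (181, 288, 288, 51401316, 19948116), (172, 258, 33, 73732131, 88473906), (181, 288, 288, 51398226, 34824276), (181, 288, 288, 51405906, 51535956), (172, 258, 33, 73732146, 88477746)]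
  [(162, 960), (163, 1920), (172, 3840), (181, 7680)] = true := by
  decide +kernel

theorem t4_3_4 : chkS lk4 1 5 [(1, m4_3)] l4_4
  [(205, 16, 16, 34628931, 52495956), (207, 1, 1, 73732131, 88473906), (207, 1, 1, 73728291, 88473891), (206, 16, 16, 34628931, 52495956), (208, 1, 1, 73732131, 88473906), (187, 1, 1, 73736976, 88482576), (206, 16, 16, 34625091, 36767316), (208, 1, 1, 73728291, 88473891), (187, 1, 1, 73740816, 88486416), (209, 1, 1, 73732131, 88473906), (209, 1, 1, 73728291, 88473891), (24, 16, 16, 21194016, 52773216), (205, 16, 16, 34628916, 52434516), (207, 1, 1, 73732146, 88477746), (207, 1, 1, 73728306, 88477731), (206, 16, 16, 34628916, 52434516), (208, 1, 1, 73732146, 88477746), (187, 1, 1, 73736961, 88482561), (206, 16, 16, 34625076, 36705876), (208, 1, 1, 73728306, 88477731), (187, 1, 1, 73740801, 88486401), (209, 1, 1, 73732146, 88477746),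 (209, 1, 1, 73728306, 88477731), (24, 16, 16, 21193986, 52772961), (206, 16, 16, 34620261, 16983636), (187, 1, 1, 73732131, 88473906), (208, 1, 1, 73736976, 88482576), (206, 16, 16, 34620246, 1254996), (187, 1, 1, 73732146, 88477746), (208, 1, 1, 73736961, 88482561), (205, 16, 16, 34620261, 16983636), (207, 1, 1, 73736976, 88482576), (207, 1, 1, 73736961, 88482561), (24, 16, 16, 21176421, 17122146), (209, 1, 1, 73736976, 88482576), (209, 1, 1, 73736961, 88482561), (206, 16, 16, 34616421, 16922196), (187, 1, 1, 73728291, 88473891), (208, 1, 1, 73740816, 88486416), (206, 16, 16, 34616406, 1193556), (187, 1, 1, 73728306, 88477731), (208, 1, 1, 73740801, 88486401), (205, 16, 16, 34616421, 16922196), (207, 1, 1, 73740816, 88486416), (207, 1, 1, 73740801, 88486401), (24, 16, 16, 21168741, 17121891), (209, 1, 1, 73740816, 88486416), (209, 1, 1, 73740801, 88486401),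 (165, 16, 16, 34620261, 16983636), (165, 16, 16, 34616421, 16922196), (22, 1, 1, 90452496, 90452496), (165, 16, 16, 34620246, 1254996), (165, 16, 16, 34616406, 1193556), (22, 1, 1, 90452481, 90452481), (22, 1, 1, 90443826, 90443826), (165, 16, 16, 34628931, 52495956), (165, 16, 16, 34628916, 52434516), (22, 1, 1, 90439986, 90443811), (165, 16, 16, 34625091, 36767316), (165, 16, 16, 34625076, 36705876)]
  [(22, 960), (24, 960), (165, 1920), (187, 1920), (205, 960), (206, 1920), (207, 1920), (208, 1920), (209, 1920)] = true := by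
  decide +kernel

theorem t4_3_5 : chkS lk4 1 5 [(1, m4_3)] l4_5
  [(186, 16, 16, 20076096, 36787296), (186, 16, 16, 20079936, 52515936), (184, 16, 16, 20079936, 52515936), (186, 16, 16, 20076036, 36721761), (186, 16, 16, 20079876, 52450401), (184, 16, 16, 20079876, 52450401), (184, 16, 16, 20070501, 16995426), (186, 16, 16, 20070486, 1266786), (186, 16, 16, 20070501, 16995426), (184, 16, 16, 20055141, 16929891), (186, 16, 16, 20055126, 1201251), (186, 16, 16, 20055141, 16929891), (164, 16, 16, 34628931, 52495956), (166, 16, 16, 34628931, 52495956), (166, 16, 16, 34625091, 36767316)]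
  [(164, 960), (166, 1920), (184, 3840), (186, 7680)] = true := by
  decide +kernel

theorem t4_3_6 : chkS lk4 1 5 [(1, m4_3)] l4_6
  [(80, 16, 16, 103961616, 103961616), (80, 16, 16, 103957776, 102978576), (81, 16, 16, 103961616, 103961616), (197, 1, 1, 73728291, 88473891), (197, 1, 1, 73736961, 88482561), (198, 1, 1, 73736961, 88482561), (197, 1, 1, 73732131, 88473906), (197, 1, 1, 73740801, 88486401), (198, 1, 1, 73740801, 88486401), (26, 1, 1, 106181136, 106181136), (68, 16, 16, 101733426, 103944276), (68, 16, 16, 101729586, 102961236), (197, 1, 1, 73728306, 88477731), (197, 1, 1, 73736976, 88482576), (198, 1, 1, 73736976, 88482576), (197, 1, 1, 73732146, 88477746), (197, 1, 1, 73740816, 88486416), (198, 1, 1, 73740816, 88486416), (26, 1, 1, 106181121, 106181121), (68, 16, 16, 101733411, 103940436), (68, 16, 16, 101729571, 102957396), (80, 16, 16, 103944276,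 101733426), (80, 16, 16, 103944261, 100750386), (81, 16, 16, 103944276, 101733426), (68, 16, 16, 101724756, 101724756), (68, 16, 16, 101724741, 100741716), (26, 1, 1, 106172466, 106172466), (68, 16, 16, 101720916, 101720916), (68, 16, 16, 101720901, 100737876), (26, 1, 1, 106168626, 106172451)]
  [(26, 1920), (68, 3840), (80, 1920), (81, 960), (197, 3840), (198, 1920)] = true := by
  decide +kernel

theorem t4_3_7 : chkS lk4 1 5 [(1, m4_3)] l4_7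
  [(82, 16, 16, 3298320, 3298320), (83, 1, 1, 5517840, 5517840), (83, 1, 1, 5514000, 5514000), (202, 1, 1, 5513985, 5513985), (46, 16, 16, 5517600, 5517600), (46, 16, 16, 5513265, 5509890), (202, 1, 1, 5517825, 5517825), (46, 16, 16, 5509920, 5513520), (46, 16, 16, 5505585, 5509635), (51, 1, 1, 5517840, 5517840), (51, 1, 1, 5514000, 5514000), (41, 1, 1, 5517840, 5517840), (202, 1, 1, 5514000, 5514000), (46, 16, 16, 5517570, 5517345), (46, 16, 16, 5513235, 5505810), (202, 1, 1, 5517840, 5517840), (46, 16, 16, 5509890, 5513265), (46, 16, 16, 5505555, 5505555), (51, 1, 1, 5517825, 5517825), (51, 1, 1, 5513985, 5513985), (41, 1, 1, 5517825, 5517825), (82, 16, 16, 3280980, 1070130), (83, 1, 1, 5509170, 5509170), (83, 1, 1, 5509155, 5505330), (41, 1, 1, 5509170, 5509170), (51, 1, 1, 5509170, 5509170), (51, 1, 1, 5509155, 5505330), (41, 1, 1, 5505330, 5509155), (51,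 1, 1, 5505330, 5509155), (51, 1, 1, 5505315, 5505315)]
  [(41, 1920), (46, 3840), (51, 3840), (82, 960), (83, 1920), (202, 1920)] = true := by
  decide +kernel

theorem t4_3_8 : chkS lk4 1 5 [(1, m4_3)] l4_8
  [(84, 16, 16, 3298320, 3298320), (204, 1, 1, 4530945, 4530945), (204, 1, 1, 4534785, 4534785), (69, 16, 16, 1070130, 3280980), (204, 1, 1, 4530960, 4530960), (204, 1, 1, 4534800, 4534800), (69, 16, 16, 1070115, 3277140), (84, 16, 16, 3280980, 1070130), (69, 16, 16, 1061460, 1061460), (69, 16, 16, 1057620, 1057620)]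
  [(69, 5760), (84, 2880), (204, 5760)] = true := by
  decide +kernel

theorem t4_3_9 : chkS lk4 1 5 [(1, m4_3)] l4_9
  [(19, 1, 1, 5517840, 5517840), (278, 1, 1, 5517840, 5517840), (278, 1, 1, 5514000, 5514000), (23, 1, 1, 5517840, 5517840), (278, 1, 1, 5517825, 5517825), (278, 1, 1, 5513985, 5513985), (23, 1, 1, 5517825, 5517825), (19, 1, 1, 5509170, 5509170), (23, 1, 1, 5509170, 5509170), (23, 1, 1, 5505330, 5509155)]
  [(19, 2880), (23, 5760), (278, 5760)] = true := by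
  decide +kernel

theorem t4_4_4 : chkS lk4 1 5 [(1, m4_4)] l4_4
  [(236, 0, 0, 51668256, 52715856), (237, 0, 0, 51668256, 52715856), (237, 0, 0, 51664416, 36987216), (230, 0, 0, 85210656, 40120656), (126, 0, 0, 68379936, 52838736), (231, 0, 0, 22295136, 22295136), (230, 0, 0, 85222176, 56893776), (126, 0, 0, 68376096, 37110096), (231, 0, 0, 22291296, 22291296), (231, 0, 0, 85345056, 73605456), (231, 0, 0, 85341216, 73544016), (243, 0, 0, 85345056, 73605456), (225, 0, 0, 34891056, 52696656), (226, 0, 0, 34891056, 52696656), (226, 0, 0, 34887216, 36968016), (217, 0, 0, 84162081, 40120581), (112, 0, 0, 68314416, 52827216), (218, 0, 0, 19161861, 50603361), (217, 0, 0, 84173601, 56893701), (112, 0, 0, 68310576, 37098576), (218, 0, 0, 19150341, 33830241), (112, 0, 0, 3302676, 52450326), (112, 0, 0, 3298836, 36721686), (111, 0, 0, 3302676, 52450326), (217, 0, 0, 34891056,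 52696656), (112, 0, 0, 21373011, 68485986), (112, 0, 0, 50746401, 70410501), (215, 0, 0, 101983536, 103027536), (107, 0, 0, 85091376, 56759376), (103, 0, 0, 50746401, 70410501), (90, 0, 0, 85156896, 56770896), (92, 0, 0, 22421556, 72356706), (91, 0, 0, 21176421, 17122146), (92, 0, 0, 85156896, 56770896), (107, 0, 0, 67515681, 69611781), (99, 0, 0, 67515681, 69611781), (217, 0, 0, 34887216, 36968016), (112, 0, 0, 21365331, 68485731), (112, 0, 0, 50742561, 69427461), (215, 0, 0, 101995056, 104075856), (107, 0, 0, 85083696, 40047696), (103, 0, 0, 50742561, 69427461), (90, 0, 0, 85149216, 40059216), (92, 0, 0, 22413876, 72356451), (91, 0, 0, 21168741, 17121891), (92, 0, 0, 85149216, 40059216), (107, 0, 0, 67523361, 70656261), (99, 0, 0, 67523361, 70656261), (218, 0, 0, 34948656, 37951056), (218, 0, 0, 34956336, 54662736), (111, 0, 0, 50619681, 52715781), (103, 0,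 0, 3237156, 52449606), (103, 0, 0, 3233316, 36720966), (102, 0, 0, 50619681, 52715781), (91, 0, 0, 68498976, 38154576), (99, 0, 0, 4272741, 17117766), (98, 0, 0, 67450401, 38154501), (91, 0, 0, 68510496, 54927696), (99, 0, 0, 4268901, 17113926), (98, 0, 0, 67461921, 54927621)]
  [(90, 480), (91, 960), (92, 960), (98, 480), (99, 960), (102, 240), (103, 960), (107, 960), (111, 480), (112, 1920), (126, 480), (215, 480), (217, 960), (218, 960), (225, 240), (226, 480), (230, 480), (231, 960), (236, 240), (237, 480), (243, 240)] = true := by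
  decide +kernel

theorem t4_4_5 : chkS lk4 1 5 [(1, m4_4)] l4_5
  [(232, 0, 0, 85222176, 56893776), (232, 0, 0, 85210656, 40120656), (125, 0, 0, 21377616, 68498016), (218, 0, 0, 84173601, 56893701), (218, 0, 0, 84162081, 40120581), (111, 0, 0, 68314416, 52827216), (91, 0, 0, 85156896, 56770896), (103, 0, 0, 21373011, 68485986), (99, 0, 0, 22421556, 72356706), (91, 0, 0, 85149216, 40059216), (103, 0, 0, 21365331, 68485731), (99, 0, 0, 22413876, 72356451), (96, 0, 0, 68379936, 52838736), (219, 0, 0, 85221936, 56889936), (219, 0, 0, 85206576, 40112976)]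
  [(91, 1920), (96, 960), (99, 1920), (103, 1920), (111, 960), (125, 960), (218, 1920), (219, 1920), (232, 1920)] = true := by
  decide +kernel

theorem t4_4_6 : chkS lk4 1 5 [(1, m4_4)] l4_6
  [(249, 0, 0, 51794496, 70345296), (249, 0, 0, 51782976, 69296976), (248, 0, 0, 51537216, 52520016), (126, 0, 0, 51794976, 70410576), (126, 0, 0, 101930016, 103956816), (233, 0, 0, 101987616, 103035216), (126, 0, 0, 51791136, 69427536), (126, 0, 0, 101926176, 102973776), (233, 0, 0, 101995296, 104079696), (125, 0, 0, 104936016, 102052416), (232, 0, 0, 68498976, 38154576), (232, 0, 0, 68510496, 54927696), (112, 0, 0, 35017776, 70391376), (112, 0, 0, 101864496, 103945296), (220, 0, 0, 100939041, 103035141), (112, 0, 0, 35013936, 69408336), (112, 0, 0, 101860656, 102962256), (220, 0, 0, 100946721, 104079621), (111, 0, 0, 34891056, 52696656), (218, 0, 0, 67450401, 38154501),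 (218, 0, 0, 67461921, 54927621), (108, 0, 0, 35017776, 70391376), (108, 0, 0, 101864496, 103945296), (93, 0, 0, 101930016, 103956816), (99, 0, 0, 105979956, 105911106), (103, 0, 0, 104931411, 102040386), (91, 0, 0, 51733536, 54681936), (99, 0, 0, 105972276, 105910851), (103, 0, 0, 104923731, 102040131), (91, 0, 0, 51725856, 37970256)]
  [(91, 960), (93, 480), (99, 960), (103, 960), (108, 960), (111, 480), (112, 1920), (125, 480), (126, 1920), (218, 960), (220, 960), (232, 960), (233, 960), (248, 480), (249, 960)] = true := by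
  decide +kernel

theorem t4_4_7 : chkS lk4 1 5 [(1, m4_4)] l4_7
  [(253, 0, 0, 1266720, 3293520), (250, 0, 0, 1389120, 4272720), (250, 0, 0, 1385280, 4268880), (234, 0, 0, 1324320, 2371920), (127, 0, 0, 1266720, 3293520), (127, 0, 0, 4399440, 1393440), (234, 0, 0, 1332000, 3416400), (127, 0, 0, 1262880, 2310480), (127, 0, 0, 4395600, 1393200), (235, 0, 0, 1393440, 4399440), (235, 0, 0, 1389600, 4338000), (40, 0, 0, 1201200, 3282000), (221, 0, 0, 275745, 2371845), (113, 0, 0, 1201200, 3282000), (123, 0, 0, 344865, 4399365), (221, 0, 0, 283425, 3416325), (113, 0, 0, 1197360, 2298960), (123, 0, 0, 341025, 4337925), (123, 0, 0, 2184195, 3278145), (123, 0, 0, 2180355, 2295105), (43, 0, 0, 218145, 3293445), (94, 0, 0, 1266720, 3293520), (109, 0, 0, 1201200, 3282000), (36, 0, 0, 340545, 4272645), (95, 0, 0, 1389600, 4338000), (104, 0, 0, 4268115, 1377090), (101, 0,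 0, 341025, 4337925), (95, 0, 0, 1393440, 4399440), (104, 0, 0, 4260435, 1376835), (101, 0, 0, 344865, 4399365)]
  [(36, 480), (40, 480), (43, 480), (94, 480), (95, 960), (101, 960), (104, 960), (109, 480), (113, 960), (123, 1920), (127, 1920), (221, 960), (234, 960), (235, 960), (250, 960), (253, 480)] = true := by
  decide +kernel

theorem t4_4_8 : chkS lk4 1 5 [(1, m4_4)] l4_8
  [(279, 0, 0, 1393440, 4399440), (280, 0, 0, 1393440, 4399440), (280, 0, 0, 1389600, 4338000), (281, 0, 0, 1393440, 4399440), (223, 0, 0, 2371845, 275745), (223, 0, 0, 2364165, 271665), (228, 0, 0, 2176005, 144705), (214, 0, 0, 2363445, 267570), (229, 0, 0, 3219525, 86850), (229, 0, 0, 3211845, 86595)]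
  [(214, 1440), (223, 2880), (228, 1440), (229, 2880), (279, 1440), (280, 2880), (281, 1440)] = true := by
  decide +kernel

theorem t4_4_9 : chkS lk4 1 5 [(1, m4_4)] l4_9
  [(97, 0, 0, 1266720, 3293520), (227, 0, 0, 1331760, 3412560), (227, 0, 0, 1320240, 2364240), (114, 0, 0, 1201200, 3282000), (240, 0, 0, 1332000, 3416400), (240, 0, 0, 1324320, 2371920), (128, 0, 0, 1266720, 3293520), (255, 0, 0, 275025, 1323525), (251, 0, 0, 1266240, 3228240), (251, 0, 0, 1254720, 2179920)]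
  [(97, 1440), (114, 1440), (128, 1440), (227, 2880), (240, 2880), (251, 2880), (255, 1440)] = true := by
  decide +kernel

theorem t4_5_5 : chkS lk4 1 5 [(1, m4_5)] l4_5
  [(14, 0, 0, 35017776, 70391376), (245, 0, 0, 85222176, 56893776), (245, 0, 0, 85345056, 73605456), (102, 0, 0, 68571696, 70652496), (98, 0, 0, 85141056, 39928656), (98, 0, 0, 85079616, 39924816), (102, 0, 0, 68571936, 70656336), (98, 0, 0, 85140576, 23216976), (98, 0, 0, 85079136, 23213136), (98, 0, 0, 85345056, 73605456), (98, 0, 0, 85344816, 73601616), (102, 0, 0, 68302416, 35009616), (98, 0, 0, 85222176, 56893776), (98, 0, 0, 85221936, 56889936), (102, 0, 0, 68363856, 35013456)]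
  [(14, 960), (98, 7680), (102, 3840), (245, 1920)] = true := by
  decide +kernel

theorem t4_5_6 : chkS lk4 1 5 [(1, m4_5)] l4_6
  [(125, 0, 0, 101918016, 102843216), (232, 0, 0, 72573456, 55984656), (232, 0, 0, 72757776, 72757776), (125, 0, 0, 101917776, 101860176), (232, 0, 0, 72573216, 55984416), (232, 0, 0, 72757536, 72757536), (232, 0, 0, 72487776, 22422576), (232, 0, 0, 72488496, 39195696), (125, 0, 0, 102056736, 105062736), (232, 0, 0, 72426336, 22422336), (232, 0, 0, 72427056, 39195456), (125, 0, 0, 101995296, 104079696), (9, 0, 0, 68571936, 70656336), (100, 0, 0, 101856576, 102839376), (100, 0, 0, 101918016, 102843216), (216, 0, 0, 73601541, 84296241), (103, 0, 0, 101856576, 102839376), (103, 0, 0, 102056496, 105058896), (216, 0, 0, 73478661, 84292161), (103, 0, 0, 101918016, 102843216), (103, 0, 0, 101995056, 104075856), (216, 0, 0, 73601061, 84295986),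 (103, 0, 0, 101856336, 101856336), (103, 0, 0, 102056736, 105062736), (216, 0, 0, 73478181, 84291906), (103, 0, 0, 101917776, 101860176), (103, 0, 0, 101995296, 104079696), (9, 0, 0, 68363856, 35013456), (100, 0, 0, 102056496, 105058896), (100, 0, 0, 102056736, 105062736)]
  [(9, 960), (100, 1920), (103, 3840), (125, 1920), (216, 1920), (232, 3840)] = true := by
  decide +kernel

theorem t4_5_7 : chkS lk4 1 5 [(1, m4_5)] l4_7
  [(235, 0, 0, 5517840, 5517840), (235, 0, 0, 5456400, 5456400), (40, 0, 0, 2442000, 4400400), (235, 0, 0, 5517600, 5517600), (235, 0, 0, 5456160, 5456160), (40, 0, 0, 2441520, 4396320), (40, 0, 0, 2299200, 2180400), (235, 0, 0, 5379120, 5379120), (235, 0, 0, 5378880, 5317680), (40, 0, 0, 2176320, 2176320), (235, 0, 0, 5317680, 5378880), (235, 0, 0, 5317440, 5317440), (36, 0, 0, 1393440, 4399440), (36, 0, 0, 1332000, 3416400), (39, 0, 0,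 1393440, 4399440), (104, 0, 0, 1393200, 4395600), (104, 0, 0, 1193280, 2176080), (222, 0, 0, 5444100, 5259825), (104, 0, 0, 1331760, 3412560), (104, 0, 0, 1254720, 2179920), (222, 0, 0, 5321220, 5255745), (104, 0, 0, 1393440, 4399440), (104, 0, 0, 1193040, 1193040), (222, 0, 0, 5443620, 5259570), (104, 0, 0, 1332000, 3416400), (104, 0, 0, 1254480, 1196880), (222, 0, 0, 5320740, 5255490), (36, 0, 0, 1254720, 2179920), (36, 0, 0, 1254480, 1196880), (39, 0, 0, 1254720, 2179920)]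
  [(36, 1920), (39, 960), (40, 1920), (104, 3840), (222, 1920), (235, 3840)] = true := by
  decide +kernel

theorem t4_5_8 : chkS lk4 1 5 [(1, m4_5)] l4_8
  [(281, 0, 0, 5517840, 5517840), (281, 0, 0, 5517600, 5517600), (281, 0, 0, 5378880, 5317680), (281, 0, 0, 5317440, 5317440), (6, 0, 0, 1393440, 4399440), (224, 0, 0, 4395525, 344625), (224, 0, 0, 4272645, 340545), (224, 0, 0, 4395045, 344370), (224, 0, 0, 4272165, 340290), (6, 0, 0, 1254720, 2179920)]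
  [(6, 2880), (224, 5760), (281, 5760)] = true := by
  decide +kernel

theorem t4_5_9 : chkS lk4 1 5 [(1, m4_5)] l4_9
  [(106, 0, 0, 1393440, 4399440), (106, 0, 0, 1393200, 4395600), (106, 0, 0, 1254720, 2179920), (106, 0, 0, 1193280, 2176080), (13, 0, 0, 1254720, 2179920), (246, 0, 0, 1385520, 4330320), (246, 0, 0, 1201200, 3282000), (246, 0, 0, 1385280, 4268880), (246, 0, 0, 1200960, 3220560), (13, 0, 0, 1393440, 4399440)]
  [(13, 2880), (106, 5760), (246, 5760)] = true := by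
  decide +kernel

theorem t4_6_6 : chkS lk4 1 5 [(1, m4_6)] l4_6
  [(8, 0, 0, 106112016, 106054416), (256, 0, 0, 104092176, 104092176), (256, 0, 0, 104153616, 105075216), (243, 0, 0, 40121616, 86259216), (231, 0, 0, 73544976, 86389776), (231, 0, 0, 73606416, 86393616), (231, 0, 0, 104993616, 102048816), (237, 0, 0, 105002256, 103101456), (126, 0, 0, 104153616, 105075216), (231, 0, 0, 104932176, 102048576), (237, 0, 0, 105063696, 103105296), (126, 0, 0, 104092176, 104092176), (243, 0, 0, 40121601, 86259201), (231, 0, 0, 73544961, 86389761), (231, 0, 0, 73606401, 86393601), (231, 0, 0, 104993541, 101000241), (237, 0, 0, 105002241, 103101441), (126, 0, 0, 104153601, 105075201), (231, 0, 0, 104932101, 101000001), (237, 0, 0, 105063681, 103105281), (126, 0, 0, 104092161, 104092161), (107, 0, 0, 40064016, 87180816), (107, 0, 0, 40064001, 87180801), (108, 0, 0, 102961236,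 101729586), (107, 0, 0, 40186896, 88225296), (107, 0, 0, 40186881, 88225281), (108, 0, 0, 102838356, 101725506), (108, 0, 0, 40190736, 88286736), (108, 0, 0, 40190721, 88286721), (115, 0, 0, 104153616, 105075216)]
  [(8, 480), (107, 1920), (108, 1920), (115, 480), (126, 1920), (231, 3840), (237, 1920), (243, 960), (256, 960)] = true := by
  decide +kernel

theorem t4_6_7 : chkS lk4 1 5 [(1, m4_6)] l4_7
  [(35, 0, 0, 4534800, 4534800), (35, 0, 0, 4411920, 3490320), (38, 0, 0, 5448720, 5391120), (127, 0, 0, 5448720, 5391120), (127, 0, 0, 5387280, 5387280), (40, 0, 0, 3490080, 4411680), (127, 0, 0, 3490320, 4411920), (238, 0, 0, 4338960, 2438160), (235, 0, 0, 4330320, 1385520), (127, 0, 0, 3428880, 3428880), (238, 0, 0, 4400400, 2442000), (235, 0, 0, 4268880, 1385280), (127, 0, 0, 5448705, 5391105), (127, 0, 0, 5387265, 5387265), (40, 0, 0, 3490050, 4411425), (127,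 0, 0, 3490305, 4411905), (238, 0, 0, 4338945, 2438145), (235, 0, 0, 4330245, 336945), (127, 0, 0, 3428865, 3428865), (238, 0, 0, 4400385, 2441985), (235, 0, 0, 4268805, 336705), (109, 0, 0, 2297940, 1066290), (104, 0, 0, 5387280, 5387280), (104, 0, 0, 5387265, 5387265), (109, 0, 0, 2175060, 1062210), (104, 0, 0, 5448720, 5391120), (104, 0, 0, 5448705, 5391105), (116, 0, 0, 3490320, 4411920), (36, 0, 0, 5448720, 5391120), (36, 0, 0, 5448705, 5391105)]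
  [(35, 960), (36, 960), (38, 480), (40, 960), (104, 1920), (109, 960), (116, 480), (127, 3840), (235, 1920), (238, 1920)] = true := by
  decide +kernel

theorem t4_6_8 : chkS lk4 1 5 [(1, m4_6)] l4_8
  [(5, 0, 0, 3490320, 4411920), (244, 0, 0, 2310480, 1262880), (247, 0, 0, 3412560, 1331760), (247, 0, 0, 3228240, 1266240), (244, 0, 0, 2310405, 214305), (247, 0, 0, 3412485, 283185), (247, 0, 0, 3228165, 217665), (110, 0, 0, 2297940, 1066290), (110, 0, 0, 2175060, 1062210), (117, 0, 0, 3211860, 1069635)]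
  [(5, 1440), (110, 2880), (117, 1440), (244, 2880), (247, 5760)] = true := by
  decide +kernel

theorem t4_6_9 : chkS lk4 1 5 [(1, m4_6)] l4_9
  [(118, 0, 0, 3490320, 4411920), (128, 0, 0, 3490305, 4411905), (241, 0, 0, 4400385, 2441985), (241, 0, 0, 4338945, 2438145), (128, 0, 0, 3490320, 4411920), (241, 0, 0, 4400400, 2442000), (241, 0, 0, 4338960, 2438160), (257, 0, 0, 3490320, 4411920), (257, 0, 0, 3428880, 3428880), (7, 0, 0, 3490320, 4411920)]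
  [(7, 1440), (118, 1440), (128, 2880), (241, 5760), (257, 2880)] = true := by
  decide +kernel

theorem t4_7_7 : chkS lk4 1 5 [(1, m4_7)] l4_7
  [(18, 0, 0, 274960, 274960), (0, 0, 0, 274960, 274960), (0, 0, 0, 271120, 271120), (239, 0, 0, 271120, 271120), (129, 0, 0, 148240, 205840), (53, 0, 0, 274720, 274720), (239, 0, 0, 274960, 274960), (129, 0, 0, 144400, 144400), (53, 0, 0, 267040, 270640), (53, 0, 0, 148240, 205840), (53, 0, 0, 144400, 144400), (1, 0, 0, 148240, 205840), (239, 0, 0, 271105, 271105), (129, 0, 0, 148225, 205825), (53, 0, 0, 274690, 274465), (239, 0, 0, 274945, 274945), (129, 0, 0, 144385, 144385), (53, 0, 0, 267010, 270385), (53, 0, 0, 148225, 205825), (53, 0, 0, 144385, 144385), (1, 0, 0, 148225, 205825), (119, 0, 0, 148240, 205840), (17, 0, 0, 274960, 274960), (17, 0, 0, 274945, 274945), (17, 0, 0, 81970, 200770), (105, 0, 0, 271120,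 271120), (105, 0, 0, 271105, 271105), (17, 0, 0, 66610, 135235), (105, 0, 0, 274960, 274960), (105, 0, 0, 274945, 274945)]
  [(0, 960), (1, 960), (17, 1920), (18, 480), (53, 3840), (105, 1920), (119, 480), (129, 1920), (239, 1920)] = true := by
  decide +kernel

theorem t4_7_8 : chkS lk4 1 5 [(1, m4_7)] l4_8
  [(33, 0, 0, 274960, 274960), (252, 0, 0, 205120, 82720), (252, 0, 0, 201280, 82480), (32, 0, 0, 148240, 205840), (252, 0, 0, 205060, 17185), (252, 0, 0, 201220, 16945), (32, 0, 0, 148225, 205825), (120, 0, 0, 135235, 66610), (122, 0, 0, 73795, 66370), (122, 0, 0, 66115, 66115)]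
  [(32, 2880), (33, 1440), (120, 1440), (122, 2880), (252, 5760)] = true := by
  decide +kernel

theorem t4_7_9 : chkS lk4 1 5 [(1, m4_7)] l4_9
  [(121, 0, 0, 144400, 144400), (242, 0, 0, 274945, 274945), (242, 0, 0, 271105, 271105), (130, 0, 0, 148225, 205825), (242, 0, 0, 274960, 274960), (242, 0, 0, 271120, 271120), (130, 0, 0, 148240, 205840), (37, 0, 0, 148240, 205840), (34, 0, 0, 274960, 274960), (34, 0, 0, 271120, 271120)]
  [(34, 2880), (37, 1440), (121, 1440), (130, 2880), (242, 5760)] = true := by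
  decide +kernel

theorem t4_8_8 : chkS lk4 1 5 [(1, m4_8)] l4_8
  [(15, 0, 0, 144400, 144400), (254, 0, 0, 144400, 144400), (254, 0, 0, 148240, 205840), (254, 0, 0, 271120, 271120), (254, 0, 0, 144385, 144385), (254, 0, 0, 148225, 205825), (254, 0, 0, 271105, 271105), (124, 0, 0, 148240, 205840), (124, 0, 0, 271120, 271120), (124, 0, 0, 274960, 274960)]
  [(15, 1440), (124, 4320), (254, 8640)] = true := by
  decide +kernel

theorem t4_8_9 : chkS lk4 1 5 [(1, m4_8)] l4_9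
  [(282, 0, 0, 274960, 274960), (283, 0, 0, 274960, 274960), (283, 0, 0, 271120, 271120), (283, 0, 0, 148240, 205840), (283, 0, 0, 274945, 274945), (283, 0, 0, 271105, 271105), (283, 0, 0, 148225, 205825), (4, 0, 0, 274960, 274960), (4, 0, 0, 148240, 205840), (4, 0, 0, 144400, 144400)]
  [(4, 4320), (282, 1440), (283, 8640)] = true := by
  decide +kernel

theorem t4_9_9 : chkS lk4 1 5 [(1, m4_9)] l4_9
  [(12, 0, 0, 144400, 144400), (258, 0, 0, 144400, 144400), (258, 0, 0, 148240, 205840), (258, 0, 0, 271120, 271120), (258, 0, 0, 144385, 144385), (258, 0, 0, 148225, 205825), (258, 0, 0, 271105, 271105), (131, 0, 0, 144400, 144400), (131, 0, 0, 271120, 271120), (131, 0, 0, 274960, 274960)]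
  [(12, 1440), (131, 4320), (258, 8640)] = true := by
  decide +kernel

section

variable {κ ι : Type*} [Fintype κ] [Fintype ι] [Inhabited κ] [Inhabited ι]

noncomputable def F4_0 (E : Env κ ι) : (Fin 1 → κ) → (Fin 5 → ι) → ℝ := op2 (P0 κ) (P4 ι) (fB E 1 5 m4_0)

noncomputable def F4_1 (E : Env κ ι) : (Fin 1 → κ) → (Fin 5 → ι) → ℝ := op2 (P0 κ) (P4 ι) (fB E 1 5 m4_1)

noncomputable def F4_2 (E : Env κ ι) : (Fin 1 → κ) → (Fin 5 → ι) → ℝ := op2 (P0 κ) (P4 ι) (fB E 1 5 m4_2)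

noncomputable def F4_3 (E : Env κ ι) : (Fin 1 → κ) → (Fin 5 → ι) → ℝ := op2 (P0 κ) (P4 ι) (fB E 1 5 m4_3)

noncomputable def F4_4 (E : Env κ ι) : (Fin 1 → κ) → (Fin 5 → ι) → ℝ := op2 (P0 κ) (P4 ι) (fB E 1 5 m4_4)

noncomputable def F4_5 (E : Env κ ι) : (Fin 1 → κ) → (Fin 5 → ι) → ℝ := op2 (P0 κ) (P4 ι) (fB E 1 5 m4_5)

noncomputable def F4_6 (E : Env κ ι) : (Fin 1 → κ) → (Fin 5 → ι) → ℝ := op2 (P0 κ) (P4 ι) (fB E 1 5 m4_6)

noncomputable def F4_7 (E : Env κ ι) : (Fin 1 → κ) → (Fin 5 → ι) → ℝ := op2 (P0 κ) (P4 ι) (fB E 1 5 m4_7)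

noncomputable def F4_8 (E : Env κ ι) : (Fin 1 → κ) → (Fin 5 → ι) → ℝ := op2 (P0 κ) (P4 ι) (fB E 1 5 m4_8)

noncomputable def F4_9 (E : Env κ ι) : (Fin 1 → κ) → (Fin 5 → ι) → ℝ := op2 (P0 κ) (P4 ι) (fB E 1 5 m4_9)

def r4_0_0 : List (ℕ × ℤ) := [(54, 480), (55, 1920), (64, 5760), (65, 960), (86, 1920), (132, 480), (137, 1920), (139, 960)]

theorem h4_0_0 (E : Env κ ι) : ip (F4_0 E) (F4_0 E) = dotS (ek E lk4) r4_0_0 :=
  op_entryZ E lk4 1 5 _ _ _ _ (pg0 κ) (pg4 ι) m4_0 m4_0 l4_0 z4_0 w4_0 x4_0 (by decide) _ (chkS_sound E lk4 1 5 _ _ _ _ t4_0_0)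

def r4_0_1 : List (ℕ × ℤ) := [(30, 960), (54, 480), (55, 1440), (57, 480), (66, 1920), (67, 2880), (75, 960), (138, 960), (140, 480), (141, 960), (142, 960), (143, 960), (144, 960)]

theorem h4_0_1 (E : Env κ ι) : ip (F4_0 E) (F4_1 E) = dotS (ek E lk4) r4_0_1 :=
  op_entryZ E lk4 1 5 _ _ _ _ (pg0 κ) (pg4 ι) m4_0 m4_1 l4_1 z4_1 w4_1 x4_1 (by decide) _ (chkS_sound E lk4 1 5 _ _ _ _ t4_0_1)

def r4_0_2 : List (ℕ × ℤ) := [(55, 960), (56, 480), (57, 960), (58, 480), (67, 1920), (72, 960), (75, 1920), (79, 960), (86, 3840), (145, 1920)]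

theorem h4_0_2 (E : Env κ ι) : ip (F4_0 E) (F4_2 E) = dotS (ek E lk4) r4_0_2 :=
  op_entryZ E lk4 1 5 _ _ _ _ (pg0 κ) (pg4 ι) m4_0 m4_2 l4_2 z4_2 w4_2 x4_2 (by decide) _ (chkS_sound E lk4 1 5 _ _ _ _ t4_0_2)

def r4_0_3 : List (ℕ × ℤ) := [(55, 1920), (58, 960), (67, 3840), (75, 3840), (79, 1920), (146, 1920)]

theorem h4_0_3 (E : Env κ ι) : ip (F4_0 E) (F4_3 E) = dotS (ek E lk4) r4_0_3 :=
  op_entryZ E lk4 1 5 _ _ _ _ (pg0 κ) (pg4 ι) m4_0 m4_3 l4_3 z4_3 w4_3 x4_3 (by decide) _ (chkS_sound E lk4 1 5 _ _ _ _ t4_0_3)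

def r4_0_4 : List (ℕ × ℤ) := [(22, 480), (26, 480), (68, 960), (147, 480), (148, 960), (149, 960), (150, 960), (151, 960), (165, 960), (167, 2880), (168, 1440), (212, 960), (213, 480), (259, 960), (260, 480)]

theorem h4_0_4 (E : Env κ ι) : ip (F4_0 E) (F4_4 E) = dotS (ek E lk4) r4_0_4 :=
  op_entryZ E lk4 1 5 _ _ _ _ (pg0 κ) (pg4 ι) m4_0 m4_4 l4_4 z4_4 w4_4 x4_4 (by decide) _ (chkS_sound E lk4 1 5 _ _ _ _ t4_0_4)

def r4_0_5 : List (ℕ × ℤ) := [(87, 3840), (88, 1920), (167, 3840), (168, 1920), (210, 960), (211, 1920)]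

theorem h4_0_5 (E : Env κ ι) : ip (F4_0 E) (F4_5 E) = dotS (ek E lk4) r4_0_5 :=
  op_entryZ E lk4 1 5 _ _ _ _ (pg0 κ) (pg4 ι) m4_0 m4_5 l4_5 z4_5 w4_5 x4_5 (by decide) _ (chkS_sound E lk4 1 5 _ _ _ _ t4_0_5)

def r4_0_6 : List (ℕ × ℤ) := [(59, 960), (60, 480), (87, 1920), (88, 960), (133, 960), (134, 480), (153, 3840), (155, 1920), (167, 1920), (168, 960)]

theorem h4_0_6 (E : Env κ ι) : ip (F4_0 E) (F4_6 E) = dotS (ek E lk4) r4_0_6 :=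
  op_entryZ E lk4 1 5 _ _ _ _ (pg0 κ) (pg4 ι) m4_0 m4_6 l4_6 z4_6 w4_6 x4_6 (by decide) _ (chkS_sound E lk4 1 5 _ _ _ _ t4_0_6)

def r4_0_7 : List (ℕ × ℤ) := [(31, 960), (41, 960), (47, 1920), (61, 480), (62, 960), (70, 3840), (135, 480), (157, 1920), (169, 1920), (170, 960)]

theorem h4_0_7 (E : Env κ ι) : ip (F4_0 E) (F4_7 E) = dotS (ek E lk4) r4_0_7 :=
  op_entryZ E lk4 1 5 _ _ _ _ (pg0 κ) (pg4 ι) m4_0 m4_7 l4_7 z4_7 w4_7 x4_7 (by decide) _ (chkS_sound E lk4 1 5 _ _ _ _ t4_0_7)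

def r4_0_8 : List (ℕ × ℤ) := [(63, 1440), (89, 2880), (136, 1440), (160, 5760), (171, 2880)]

theorem h4_0_8 (E : Env κ ι) : ip (F4_0 E) (F4_8 E) = dotS (ek E lk4) r4_0_8 :=
  op_entryZ E lk4 1 5 _ _ _ _ (pg0 κ) (pg4 ι) m4_0 m4_8 l4_8 z4_8 w4_8 x4_8 (by decide) _ (chkS_sound E lk4 1 5 _ _ _ _ t4_0_8)

def r4_0_9 : List (ℕ × ℤ) := [(261, 1440), (262, 5760), (263, 2880), (264, 1440), (265, 2880)]

theorem h4_0_9 (E : Env κ ι) : ip (F4_0 E) (F4_9 E) = dotS (ek E lk4) r4_0_9 :=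
  op_entryZ E lk4 1 5 _ _ _ _ (pg0 κ) (pg4 ι) m4_0 m4_9 l4_9 z4_9 w4_9 x4_9 (by decide) _ (chkS_sound E lk4 1 5 _ _ _ _ t4_0_9)

def r4_1_1 : List (ℕ × ℤ) := [(29, 480), (74, 960), (75, 960), (79, 240), (140, 240), (141, 480), (143, 480), (144, 480), (172, 240), (173, 240), (179, 1920), (180, 480), (181, 480), (182, 2880), (183, 1920), (193, 960), (266, 480), (267, 480)]

theorem h4_1_1 (E : Env κ ι) : ip (F4_1 E) (F4_1 E) = dotS (ek E lk4) r4_1_1 :=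
  op_entryZ E lk4 1 5 _ _ _ _ (pg0 κ) (pg4 ι) m4_1 m4_1 l4_1 z4_1 w4_1 x4_1 (by decide) _ (chkS_sound E lk4 1 5 _ _ _ _ t4_1_1)

def r4_1_2 : List (ℕ × ℤ) := [(29, 480), (30, 480), (57, 960), (58, 480), (66, 960), (74, 960), (142, 1920), (146, 960), (172, 960), (174, 480), (179, 960), (181, 1920), (182, 960), (183, 960), (194, 960)]

theorem h4_1_2 (E : Env κ ι) : ip (F4_1 E) (F4_2 E) = dotS (ek E lk4) r4_1_2 :=
  op_entryZ E lk4 1 5 _ _ _ _ (pg0 κ) (pg4 ι) m4_1 m4_2 l4_2 z4_2 w4_2 x4_2 (by decide) _ (chkS_sound E lk4 1 5 _ _ _ _ t4_1_2)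

def r4_1_3 : List (ℕ × ℤ) := [(29, 960), (30, 960), (66, 1920), (74, 1920), (174, 960), (179, 1920), (182, 1920), (183, 1920), (194, 1920)]

theorem h4_1_3 (E : Env κ ι) : ip (F4_1 E) (F4_3 E) = dotS (ek E lk4) r4_1_3 :=
  op_entryZ E lk4 1 5 _ _ _ _ (pg0 κ) (pg4 ι) m4_1 m4_3 l4_3 z4_3 w4_3 x4_3 (by decide) _ (chkS_sound E lk4 1 5 _ _ _ _ t4_1_3)

def r4_1_4 : List (ℕ × ℤ) := [(24, 240), (28, 240), (76, 480), (87, 480), (88, 240), (147, 240), (148, 480), (149, 480), (150, 480), (151, 480), (184, 240), (186, 480), (187, 480), (188, 1440), (189, 1440), (190, 1440), (195, 240), (196, 480), (197, 960), (198, 480), (207, 480), (208, 480), (209, 480), (268, 480), (269, 480), (270, 480)]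

theorem h4_1_4 (E : Env κ ι) : ip (F4_1 E) (F4_4 E) = dotS (ek E lk4) r4_1_4 :=
  op_entryZ E lk4 1 5 _ _ _ _ (pg0 κ) (pg4 ι) m4_1 m4_4 l4_4 z4_4 w4_4 x4_4 (by decide) _ (chkS_sound E lk4 1 5 _ _ _ _ t4_1_4)

def r4_1_5 : List (ℕ × ℤ) := [(26, 960), (28, 960), (68, 1920), (76, 1920), (188, 1920), (189, 1920), (190, 1920), (205, 960), (206, 1920)]

theorem h4_1_5 (E : Env κ ι) : ip (F4_1 E) (F4_5 E) = dotS (ek E lk4) r4_1_5 :=
  op_entryZ E lk4 1 5 _ _ _ _ (pg0 κ) (pg4 ι) m4_1 m4_5 l4_5 z4_5 w4_5 x4_5 (by decide) _ (chkS_sound E lk4 1 5 _ _ _ _ t4_1_5)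

def r4_1_6 : List (ℕ × ℤ) := [(26, 480), (28, 480), (59, 960), (60, 480), (68, 960), (76, 960), (152, 1920), (154, 960), (175, 960), (176, 480), (188, 960), (189, 960), (190, 960), (199, 1920), (200, 960)]

theorem h4_1_6 (E : Env κ ι) : ip (F4_1 E) (F4_6 E) = dotS (ek E lk4) r4_1_6 :=
  op_entryZ E lk4 1 5 _ _ _ _ (pg0 κ) (pg4 ι) m4_1 m4_6 l4_6 z4_6 w4_6 x4_6 (by decide) _ (chkS_sound E lk4 1 5 _ _ _ _ t4_1_6)

def r4_1_7 : List (ℕ × ℤ) := [(41, 480), (45, 480), (46, 960), (48, 960), (49, 960), (50, 1920), (51, 960), (52, 1920), (61, 480), (62, 960), (85, 960), (156, 960), (177, 480), (191, 960), (201, 960)]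

theorem h4_1_7 (E : Env κ ι) : ip (F4_1 E) (F4_7 E) = dotS (ek E lk4) r4_1_7 :=
  op_entryZ E lk4 1 5 _ _ _ _ (pg0 κ) (pg4 ι) m4_1 m4_7 l4_7 z4_7 w4_7 x4_7 (by decide) _ (chkS_sound E lk4 1 5 _ _ _ _ t4_1_7)

def r4_1_8 : List (ℕ × ℤ) := [(63, 1440), (69, 1440), (77, 1440), (159, 2880), (178, 1440), (192, 2880), (203, 2880)]

theorem h4_1_8 (E : Env κ ι) : ip (F4_1 E) (F4_8 E) = dotS (ek E lk4) r4_1_8 :=
  op_entryZ E lk4 1 5 _ _ _ _ (pg0 κ) (pg4 ι) m4_1 m4_8 l4_8 z4_8 w4_8 x4_8 (by decide) _ (chkS_sound E lk4 1 5 _ _ _ _ t4_1_8)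

def r4_1_9 : List (ℕ × ℤ) := [(25, 1440), (27, 1440), (271, 2880), (272, 1440), (273, 1440), (274, 2880), (275, 2880)]

theorem h4_1_9 (E : Env κ ι) : ip (F4_1 E) (F4_9 E) = dotS (ek E lk4) r4_1_9 :=
  op_entryZ E lk4 1 5 _ _ _ _ (pg0 κ) (pg4 ι) m4_1 m4_9 l4_9 z4_9 w4_9 x4_9 (by decide) _ (chkS_sound E lk4 1 5 _ _ _ _ t4_1_9)

def r4_2_2 : List (ℕ × ℤ) := [(3, 480), (29, 1920), (71, 960), (74, 1920), (75, 3840), (78, 480), (79, 960), (141, 1920), (144, 1920)]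

theorem h4_2_2 (E : Env κ ι) : ip (F4_2 E) (F4_2 E) = dotS (ek E lk4) r4_2_2 :=
  op_entryZ E lk4 1 5 _ _ _ _ (pg0 κ) (pg4 ι) m4_2 m4_2 l4_2 z4_2 w4_2 x4_2 (by decide) _ (chkS_sound E lk4 1 5 _ _ _ _ t4_2_2)

def r4_2_3 : List (ℕ × ℤ) := [(29, 1920), (30, 1920), (66, 3840), (78, 960), (180, 1920), (182, 3840)]

theorem h4_2_3 (E : Env κ ι) : ip (F4_2 E) (F4_3 E) = dotS (ek E lk4) r4_2_3 :=
  op_entryZ E lk4 1 5 _ _ _ _ (pg0 κ) (pg4 ι) m4_2 m4_3 l4_3 z4_3 w4_3 x4_3 (by decide) _ (chkS_sound E lk4 1 5 _ _ _ _ t4_2_3)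

def r4_2_4 : List (ℕ × ℤ) := [(22, 480), (24, 480), (165, 960), (184, 960), (186, 1920), (187, 960), (205, 480), (206, 960), (207, 960), (208, 960), (209, 960), (210, 480), (211, 960), (212, 1920), (213, 960)]

theorem h4_2_4 (E : Env κ ι) : ip (F4_2 E) (F4_4 E) = dotS (ek E lk4) r4_2_4 :=
  op_entryZ E lk4 1 5 _ _ _ _ (pg0 κ) (pg4 ι) m4_2 m4_4 l4_4 z4_4 w4_4 x4_4 (by decide) _ (chkS_sound E lk4 1 5 _ _ _ _ t4_2_4)

def r4_2_5 : List (ℕ × ℤ) := [(2, 960), (22, 1920), (24, 1920), (165, 3840), (185, 1920), (187, 3840)]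

theorem h4_2_5 (E : Env κ ι) : ip (F4_2 E) (F4_5 E) = dotS (ek E lk4) r4_2_5 :=
  op_entryZ E lk4 1 5 _ _ _ _ (pg0 κ) (pg4 ι) m4_2 m4_5 l4_5 z4_5 w4_5 x4_5 (by decide) _ (chkS_sound E lk4 1 5 _ _ _ _ t4_2_5)

def r4_2_6 : List (ℕ × ℤ) := [(11, 480), (28, 960), (73, 960), (76, 1920), (80, 960), (81, 480), (87, 1920), (88, 960), (149, 1920), (150, 1920), (151, 1920)]

theorem h4_2_6 (E : Env κ ι) : ip (F4_2 E) (F4_6 E) = dotS (ek E lk4) r4_2_6 :=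
  op_entryZ E lk4 1 5 _ _ _ _ (pg0 κ) (pg4 ι) m4_2 m4_6 l4_6 z4_6 w4_6 x4_6 (by decide) _ (chkS_sound E lk4 1 5 _ _ _ _ t4_2_6)

def r4_2_7 : List (ℕ × ℤ) := [(41, 960), (42, 480), (44, 960), (45, 960), (46, 1920), (47, 3840), (51, 1920), (82, 480), (83, 960), (158, 1920)]

theorem h4_2_7 (E : Env κ ι) : ip (F4_2 E) (F4_7 E) = dotS (ek E lk4) r4_2_7 :=
  op_entryZ E lk4 1 5 _ _ _ _ (pg0 κ) (pg4 ι) m4_2 m4_7 l4_7 z4_7 w4_7 x4_7 (by decide) _ (chkS_sound E lk4 1 5 _ _ _ _ t4_2_7)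

def r4_2_8 : List (ℕ × ℤ) := [(16, 1440), (77, 2880), (84, 1440), (89, 2880), (161, 5760)]

theorem h4_2_8 (E : Env κ ι) : ip (F4_2 E) (F4_8 E) = dotS (ek E lk4) r4_2_8 :=
  op_entryZ E lk4 1 5 _ _ _ _ (pg0 κ) (pg4 ι) m4_2 m4_8 l4_8 z4_8 w4_8 x4_8 (by decide) _ (chkS_sound E lk4 1 5 _ _ _ _ t4_2_8)

def r4_2_9 : List (ℕ × ℤ) := [(10, 1440), (20, 1440), (21, 2880), (276, 2880), (277, 5760)]

theorem h4_2_9 (E : Env κ ι) : ip (F4_2 E) (F4_9 E) = dotS (ek E lk4) r4_2_9 :=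
  op_entryZ E lk4 1 5 _ _ _ _ (pg0 κ) (pg4 ι) m4_2 m4_9 l4_9 z4_9 w4_9 x4_9 (by decide) _ (chkS_sound E lk4 1 5 _ _ _ _ t4_2_9)

def r4_3_3 : List (ℕ × ℤ) := [(162, 960), (163, 1920), (172, 3840), (181, 7680)]

theorem h4_3_3 (E : Env κ ι) : ip (F4_3 E) (F4_3 E) = dotS (ek E lk4) r4_3_3 :=
  op_entryZ E lk4 1 5 _ _ _ _ (pg0 κ) (pg4 ι) m4_3 m4_3 l4_3 z4_3 w4_3 x4_3 (by decide) _ (chkS_sound E lk4 1 5 _ _ _ _ t4_3_3)

def r4_3_4 : List (ℕ × ℤ) := [(22, 960), (24, 960), (165, 1920), (187, 1920), (205, 960), (206, 1920), (207, 1920), (208, 1920), (209, 1920)]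

theorem h4_3_4 (E : Env κ ι) : ip (F4_3 E) (F4_4 E) = dotS (ek E lk4) r4_3_4 :=
  op_entryZ E lk4 1 5 _ _ _ _ (pg0 κ) (pg4 ι) m4_3 m4_4 l4_4 z4_4 w4_4 x4_4 (by decide) _ (chkS_sound E lk4 1 5 _ _ _ _ t4_3_4)

def r4_3_5 : List (ℕ × ℤ) := [(164, 960), (166, 1920), (184, 3840), (186, 7680)]

theorem h4_3_5 (E : Env κ ι) : ip (F4_3 E) (F4_5 E) = dotS (ek E lk4) r4_3_5 :=
  op_entryZ E lk4 1 5 _ _ _ _ (pg0 κ) (pg4 ι) m4_3 m4_5 l4_5 z4_5 w4_5 x4_5 (by decide) _ (chkS_sound E lk4 1 5 _ _ _ _ t4_3_5)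

def r4_3_6 : List (ℕ × ℤ) := [(26, 1920), (68, 3840), (80, 1920), (81, 960), (197, 3840), (198, 1920)]

theorem h4_3_6 (E : Env κ ι) : ip (F4_3 E) (F4_6 E) = dotS (ek E lk4) r4_3_6 :=
  op_entryZ E lk4 1 5 _ _ _ _ (pg0 κ) (pg4 ι) m4_3 m4_6 l4_6 z4_6 w4_6 x4_6 (by decide) _ (chkS_sound E lk4 1 5 _ _ _ _ t4_3_6)

def r4_3_7 : List (ℕ × ℤ) := [(41, 1920), (46, 3840), (51, 3840), (82, 960), (83, 1920), (202, 1920)]

theorem h4_3_7 (E : Env κ ι) : ip (F4_3 E) (F4_7 E) = dotS (ek E lk4) r4_3_7 :=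
  op_entryZ E lk4 1 5 _ _ _ _ (pg0 κ) (pg4 ι) m4_3 m4_7 l4_7 z4_7 w4_7 x4_7 (by decide) _ (chkS_sound E lk4 1 5 _ _ _ _ t4_3_7)

def r4_3_8 : List (ℕ × ℤ) := [(69, 5760), (84, 2880), (204, 5760)]

theorem h4_3_8 (E : Env κ ι) : ip (F4_3 E) (F4_8 E) = dotS (ek E lk4) r4_3_8 :=
  op_entryZ E lk4 1 5 _ _ _ _ (pg0 κ) (pg4 ι) m4_3 m4_8 l4_8 z4_8 w4_8 x4_8 (by decide) _ (chkS_sound E lk4 1 5 _ _ _ _ t4_3_8)

def r4_3_9 : List (ℕ × ℤ) := [(19, 2880), (23, 5760), (278, 5760)]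

theorem h4_3_9 (E : Env κ ι) : ip (F4_3 E) (F4_9 E) = dotS (ek E lk4) r4_3_9 :=
  op_entryZ E lk4 1 5 _ _ _ _ (pg0 κ) (pg4 ι) m4_3 m4_9 l4_9 z4_9 w4_9 x4_9 (by decide) _ (chkS_sound E lk4 1 5 _ _ _ _ t4_3_9)

def r4_4_4 : List (ℕ × ℤ) := [(90, 480), (91, 960), (92, 960), (98, 480), (99, 960), (102, 240), (103, 960), (107, 960), (111, 480), (112, 1920), (126, 480), (215, 480), (217, 960), (218, 960), (225, 240), (226, 480), (230, 480), (231, 960), (236, 240), (237, 480), (243, 240)]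

theorem h4_4_4 (E : Env κ ι) : ip (F4_4 E) (F4_4 E) = dotS (ek E lk4) r4_4_4 :=
  op_entryZ E lk4 1 5 _ _ _ _ (pg0 κ) (pg4 ι) m4_4 m4_4 l4_4 z4_4 w4_4 x4_4 (by decide) _ (chkS_sound E lk4 1 5 _ _ _ _ t4_4_4)

def r4_4_5 : List (ℕ × ℤ) := [(91, 1920), (96, 960), (99, 1920), (103, 1920), (111, 960), (125, 960), (218, 1920), (219, 1920), (232, 1920)]

theorem h4_4_5 (E : Env κ ι) : ip (F4_4 E) (F4_5 E) = dotS (ek E lk4) r4_4_5 :=
  op_entryZ E lk4 1 5 _ _ _ _ (pg0 κ) (pg4 ι) m4_4 m4_5 l4_5 z4_5 w4_5 x4_5 (by decide) _ (chkS_sound E lk4 1 5 _ _ _ _ t4_4_5)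

def r4_4_6 : List (ℕ × ℤ) := [(91, 960), (93, 480), (99, 960), (103, 960), (108, 960), (111, 480), (112, 1920), (125, 480), (126, 1920), (218, 960), (220, 960), (232, 960), (233, 960), (248, 480), (249, 960)]

theorem h4_4_6 (E : Env κ ι) : ip (F4_4 E) (F4_6 E) = dotS (ek E lk4) r4_4_6 :=
  op_entryZ E lk4 1 5 _ _ _ _ (pg0 κ) (pg4 ι) m4_4 m4_6 l4_6 z4_6 w4_6 x4_6 (by decide) _ (chkS_sound E lk4 1 5 _ _ _ _ t4_4_6)

def r4_4_7 : List (ℕ × ℤ) := [(36, 480), (40, 480), (43, 480), (94, 480), (95, 960), (101, 960), (104, 960), (109, 480), (113, 960), (123, 1920), (127, 1920), (221, 960), (234, 960), (235, 960), (250, 960), (253, 480)]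

theorem h4_4_7 (E : Env κ ι) : ip (F4_4 E) (F4_7 E) = dotS (ek E lk4) r4_4_7 :=
  op_entryZ E lk4 1 5 _ _ _ _ (pg0 κ) (pg4 ι) m4_4 m4_7 l4_7 z4_7 w4_7 x4_7 (by decide) _ (chkS_sound E lk4 1 5 _ _ _ _ t4_4_7)

def r4_4_8 : List (ℕ × ℤ) := [(214, 1440), (223, 2880), (228, 1440), (229, 2880), (279, 1440), (280, 2880), (281, 1440)]

theorem h4_4_8 (E : Env κ ι) : ip (F4_4 E) (F4_8 E) = dotS (ek E lk4) r4_4_8 :=
  op_entryZ E lk4 1 5 _ _ _ _ (pg0 κ) (pg4 ι) m4_4 m4_8 l4_8 z4_8 w4_8 x4_8 (by decide) _ (chkS_sound E lk4 1 5 _ _ _ _ t4_4_8)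

def r4_4_9 : List (ℕ × ℤ) := [(97, 1440), (114, 1440), (128, 1440), (227, 2880), (240, 2880), (251, 2880), (255, 1440)]

theorem h4_4_9 (E : Env κ ι) : ip (F4_4 E) (F4_9 E) = dotS (ek E lk4) r4_4_9 :=
  op_entryZ E lk4 1 5 _ _ _ _ (pg0 κ) (pg4 ι) m4_4 m4_9 l4_9 z4_9 w4_9 x4_9 (by decide) _ (chkS_sound E lk4 1 5 _ _ _ _ t4_4_9)

def r4_5_5 : List (ℕ × ℤ) := [(14, 960), (98, 7680), (102, 3840), (245, 1920)]

theorem h4_5_5 (E : Env κ ι) : ip (F4_5 E) (F4_5 E) = dotS (ek E lk4) r4_5_5 :=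
  op_entryZ E lk4 1 5 _ _ _ _ (pg0 κ) (pg4 ι) m4_5 m4_5 l4_5 z4_5 w4_5 x4_5 (by decide) _ (chkS_sound E lk4 1 5 _ _ _ _ t4_5_5)

def r4_5_6 : List (ℕ × ℤ) := [(9, 960), (100, 1920), (103, 3840), (125, 1920), (216, 1920), (232, 3840)]

theorem h4_5_6 (E : Env κ ι) : ip (F4_5 E) (F4_6 E) = dotS (ek E lk4) r4_5_6 :=
  op_entryZ E lk4 1 5 _ _ _ _ (pg0 κ) (pg4 ι) m4_5 m4_6 l4_6 z4_6 w4_6 x4_6 (by decide) _ (chkS_sound E lk4 1 5 _ _ _ _ t4_5_6)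

def r4_5_7 : List (ℕ × ℤ) := [(36, 1920), (39, 960), (40, 1920), (104, 3840), (222, 1920), (235, 3840)]

theorem h4_5_7 (E : Env κ ι) : ip (F4_5 E) (F4_7 E) = dotS (ek E lk4) r4_5_7 :=
  op_entryZ E lk4 1 5 _ _ _ _ (pg0 κ) (pg4 ι) m4_5 m4_7 l4_7 z4_7 w4_7 x4_7 (by decide) _ (chkS_sound E lk4 1 5 _ _ _ _ t4_5_7)

def r4_5_8 : List (ℕ × ℤ) := [(6, 2880), (224, 5760), (281, 5760)]

theorem h4_5_8 (E : Env κ ι) : ip (F4_5 E) (F4_8 E) = dotS (ek E lk4) r4_5_8 :=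
  op_entryZ E lk4 1 5 _ _ _ _ (pg0 κ) (pg4 ι) m4_5 m4_8 l4_8 z4_8 w4_8 x4_8 (by decide) _ (chkS_sound E lk4 1 5 _ _ _ _ t4_5_8)

def r4_5_9 : List (ℕ × ℤ) := [(13, 2880), (106, 5760), (246, 5760)]

theorem h4_5_9 (E : Env κ ι) : ip (F4_5 E) (F4_9 E) = dotS (ek E lk4) r4_5_9 :=
  op_entryZ E lk4 1 5 _ _ _ _ (pg0 κ) (pg4 ι) m4_5 m4_9 l4_9 z4_9 w4_9 x4_9 (by decide) _ (chkS_sound E lk4 1 5 _ _ _ _ t4_5_9)

def r4_6_6 : List (ℕ × ℤ) := [(8, 480), (107, 1920), (108, 1920), (115, 480), (126, 1920), (231, 3840), (237, 1920), (243, 960), (256, 960)]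

theorem h4_6_6 (E : Env κ ι) : ip (F4_6 E) (F4_6 E) = dotS (ek E lk4) r4_6_6 :=
  op_entryZ E lk4 1 5 _ _ _ _ (pg0 κ) (pg4 ι) m4_6 m4_6 l4_6 z4_6 w4_6 x4_6 (by decide) _ (chkS_sound E lk4 1 5 _ _ _ _ t4_6_6)

def r4_6_7 : List (ℕ × ℤ) := [(35, 960), (36, 960), (38, 480), (40, 960), (104, 1920), (109, 960), (116, 480), (127, 3840), (235, 1920), (238, 1920)]

theorem h4_6_7 (E : Env κ ι) : ip (F4_6 E) (F4_7 E) = dotS (ek E lk4) r4_6_7 :=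
  op_entryZ E lk4 1 5 _ _ _ _ (pg0 κ) (pg4 ι) m4_6 m4_7 l4_7 z4_7 w4_7 x4_7 (by decide) _ (chkS_sound E lk4 1 5 _ _ _ _ t4_6_7)

def r4_6_8 : List (ℕ × ℤ) := [(5, 1440), (110, 2880), (117, 1440), (244, 2880), (247, 5760)]

theorem h4_6_8 (E : Env κ ι) : ip (F4_6 E) (F4_8 E) = dotS (ek E lk4) r4_6_8 :=
  op_entryZ E lk4 1 5 _ _ _ _ (pg0 κ) (pg4 ι) m4_6 m4_8 l4_8 z4_8 w4_8 x4_8 (by decide) _ (chkS_sound E lk4 1 5 _ _ _ _ t4_6_8)

def r4_6_9 : List (ℕ × ℤ) := [(7, 1440), (118, 1440), (128, 2880), (241, 5760), (257, 2880)]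

theorem h4_6_9 (E : Env κ ι) : ip (F4_6 E) (F4_9 E) = dotS (ek E lk4) r4_6_9 :=
  op_entryZ E lk4 1 5 _ _ _ _ (pg0 κ) (pg4 ι) m4_6 m4_9 l4_9 z4_9 w4_9 x4_9 (by decide) _ (chkS_sound E lk4 1 5 _ _ _ _ t4_6_9)

def r4_7_7 : List (ℕ × ℤ) := [(0, 960), (1, 960), (17, 1920), (18, 480), (53, 3840), (105, 1920), (119, 480), (129, 1920), (239, 1920)]

theorem h4_7_7 (E : Env κ ι) : ip (F4_7 E) (F4_7 E) = dotS (ek E lk4) r4_7_7 :=
  op_entryZ E lk4 1 5 _ _ _ _ (pg0 κ) (pg4 ι) m4_7 m4_7 l4_7 z4_7 w4_7 x4_7 (by decide) _ (chkS_sound E lk4 1 5 _ _ _ _ t4_7_7)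

def r4_7_8 : List (ℕ × ℤ) := [(32, 2880), (33, 1440), (120, 1440), (122, 2880), (252, 5760)]

theorem h4_7_8 (E : Env κ ι) : ip (F4_7 E) (F4_8 E) = dotS (ek E lk4) r4_7_8 :=
  op_entryZ E lk4 1 5 _ _ _ _ (pg0 κ) (pg4 ι) m4_7 m4_8 l4_8 z4_8 w4_8 x4_8 (by decide) _ (chkS_sound E lk4 1 5 _ _ _ _ t4_7_8)

def r4_7_9 : List (ℕ × ℤ) := [(34, 2880), (37, 1440), (121, 1440), (130, 2880), (242, 5760)]

theorem h4_7_9 (E : Env κ ι) : ip (F4_7 E) (F4_9 E) = dotS (ek E lk4) r4_7_9 :=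
  op_entryZ E lk4 1 5 _ _ _ _ (pg0 κ) (pg4 ι) m4_7 m4_9 l4_9 z4_9 w4_9 x4_9 (by decide) _ (chkS_sound E lk4 1 5 _ _ _ _ t4_7_9)

def r4_8_8 : List (ℕ × ℤ) := [(15, 1440), (124, 4320), (254, 8640)]

theorem h4_8_8 (E : Env κ ι) : ip (F4_8 E) (F4_8 E) = dotS (ek E lk4) r4_8_8 :=
  op_entryZ E lk4 1 5 _ _ _ _ (pg0 κ) (pg4 ι) m4_8 m4_8 l4_8 z4_8 w4_8 x4_8 (by decide) _ (chkS_sound E lk4 1 5 _ _ _ _ t4_8_8)

def r4_8_9 : List (ℕ × ℤ) := [(4, 4320), (282, 1440), (283, 8640)]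

theorem h4_8_9 (E : Env κ ι) : ip (F4_8 E) (F4_9 E) = dotS (ek E lk4) r4_8_9 :=
  op_entryZ E lk4 1 5 _ _ _ _ (pg0 κ) (pg4 ι) m4_8 m4_9 l4_9 z4_9 w4_9 x4_9 (by decide) _ (chkS_sound E lk4 1 5 _ _ _ _ t4_8_9)

def r4_9_9 : List (ℕ × ℤ) := [(12, 1440), (131, 4320), (258, 8640)]

theorem h4_9_9 (E : Env κ ι) : ip (F4_9 E) (F4_9 E) = dotS (ek E lk4) r4_9_9 :=
  op_entryZ E lk4 1 5 _ _ _ _ (pg0 κ) (pg4 ι) m4_9 m4_9 l4_9 z4_9 w4_9 x4_9 (by decide) _ (chkS_sound E lk4 1 5 _ _ _ _ t4_9_9)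

theorem row4_0 (E : Env κ ι) : RowG (ek E lk4) (F4_0 E) [F4_0 E, F4_1 E, F4_2 E, F4_3 E, F4_4 E, F4_5 E, F4_6 E, F4_7 E, F4_8 E, F4_9 E] [r4_0_0, r4_0_1, r4_0_2, r4_0_3, r4_0_4, r4_0_5, r4_0_6, r4_0_7, r4_0_8, r4_0_9] :=
  rowG_cons _ _ _ _ _ _ (h4_0_0 E) (rowG_cons _ _ _ _ _ _ (h4_0_1 E) (rowG_cons _ _ _ _ _ _ (h4_0_2 E) (rowG_cons _ _ _ _ _ _ (h4_0_3 E) (rowG_cons _ _ _ _ _ _ (h4_0_4 E) (rowG_cons _ _ _ _ _ _ (h4_0_5 E) (rowG_cons _ _ _ _ _ _ (h4_0_6 E) (rowG_cons _ _ _ _ _ _ (h4_0_7 E) (rowG_cons _ _ _ _ _ _ (h4_0_8 E) (rowG_cons _ _ _ _ _ _ (h4_0_9 E) (rowG_nil _ _))))))))))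

theorem row4_1 (E : Env κ ι) : RowG (ek E lk4) (F4_1 E) [F4_1 E, F4_2 E, F4_3 E, F4_4 E, F4_5 E, F4_6 E, F4_7 E, F4_8 E, F4_9 E] [r4_1_1, r4_1_2, r4_1_3, r4_1_4, r4_1_5, r4_1_6, r4_1_7, r4_1_8, r4_1_9] :=
  rowG_cons _ _ _ _ _ _ (h4_1_1 E) (rowG_cons _ _ _ _ _ _ (h4_1_2 E) (rowG_cons _ _ _ _ _ _ (h4_1_3 E) (rowG_cons _ _ _ _ _ _ (h4_1_4 E) (rowG_cons _ _ _ _ _ _ (h4_1_5 E) (rowG_cons _ _ _ _ _ _ (h4_1_6 E) (rowG_cons _ _ _ _ _ _ (h4_1_7 E) (rowG_cons _ _ _ _ _ _ (h4_1_8 E) (rowG_cons _ _ _ _ _ _ (h4_1_9 E) (rowG_nil _ _)))))))))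

theorem row4_2 (E : Env κ ι) : RowG (ek E lk4) (F4_2 E) [F4_2 E, F4_3 E, F4_4 E, F4_5 E, F4_6 E, F4_7 E, F4_8 E, F4_9 E] [r4_2_2, r4_2_3, r4_2_4, r4_2_5, r4_2_6, r4_2_7, r4_2_8, r4_2_9] :=
  rowG_cons _ _ _ _ _ _ (h4_2_2 E) (rowG_cons _ _ _ _ _ _ (h4_2_3 E) (rowG_cons _ _ _ _ _ _ (h4_2_4 E) (rowG_cons _ _ _ _ _ _ (h4_2_5 E) (rowG_cons _ _ _ _ _ _ (h4_2_6 E) (rowG_cons _ _ _ _ _ _ (h4_2_7 E) (rowG_cons _ _ _ _ _ _ (h4_2_8 E) (rowG_cons _ _ _ _ _ _ (h4_2_9 E) (rowG_nil _ _))))))))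

theorem row4_3 (E : Env κ ι) : RowG (ek E lk4) (F4_3 E) [F4_3 E, F4_4 E, F4_5 E, F4_6 E, F4_7 E, F4_8 E, F4_9 E] [r4_3_3, r4_3_4, r4_3_5, r4_3_6, r4_3_7, r4_3_8, r4_3_9] :=
  rowG_cons _ _ _ _ _ _ (h4_3_3 E) (rowG_cons _ _ _ _ _ _ (h4_3_4 E) (rowG_cons _ _ _ _ _ _ (h4_3_5 E) (rowG_cons _ _ _ _ _ _ (h4_3_6 E) (rowG_cons _ _ _ _ _ _ (h4_3_7 E) (rowG_cons _ _ _ _ _ _ (h4_3_8 E) (rowG_cons _ _ _ _ _ _ (h4_3_9 E) (rowG_nil _ _)))))))

theorem row4_4 (E : Env κ ι) : RowG (ek E lk4) (F4_4 E) [F4_4 E, F4_5 E, F4_6 E, F4_7 E, F4_8 E, F4_9 E] [r4_4_4, r4_4_5, r4_4_6, r4_4_7, r4_4_8, r4_4_9] :=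
  rowG_cons _ _ _ _ _ _ (h4_4_4 E) (rowG_cons _ _ _ _ _ _ (h4_4_5 E) (rowG_cons _ _ _ _ _ _ (h4_4_6 E) (rowG_cons _ _ _ _ _ _ (h4_4_7 E) (rowG_cons _ _ _ _ _ _ (h4_4_8 E) (rowG_cons _ _ _ _ _ _ (h4_4_9 E) (rowG_nil _ _))))))

theorem row4_5 (E : Env κ ι) : RowG (ek E lk4) (F4_5 E) [F4_5 E, F4_6 E, F4_7 E, F4_8 E, F4_9 E] [r4_5_5, r4_5_6, r4_5_7, r4_5_8, r4_5_9] :=
  rowG_cons _ _ _ _ _ _ (h4_5_5 E) (rowG_cons _ _ _ _ _ _ (h4_5_6 E) (rowG_cons _ _ _ _ _ _ (h4_5_7 E) (rowG_cons _ _ _ _ _ _ (h4_5_8 E) (rowG_cons _ _ _ _ _ _ (h4_5_9 E) (rowG_nil _ _)))))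

theorem row4_6 (E : Env κ ι) : RowG (ek E lk4) (F4_6 E) [F4_6 E, F4_7 E, F4_8 E, F4_9 E] [r4_6_6, r4_6_7, r4_6_8, r4_6_9] :=
  rowG_cons _ _ _ _ _ _ (h4_6_6 E) (rowG_cons _ _ _ _ _ _ (h4_6_7 E) (rowG_cons _ _ _ _ _ _ (h4_6_8 E) (rowG_cons _ _ _ _ _ _ (h4_6_9 E) (rowG_nil _ _))))

theorem row4_7 (E : Env κ ι) : RowG (ek E lk4) (F4_7 E) [F4_7 E, F4_8 E, F4_9 E] [r4_7_7, r4_7_8, r4_7_9] :=
  rowG_cons _ _ _ _ _ _ (h4_7_7 E) (rowG_cons _ _ _ _ _ _ (h4_7_8 E) (rowG_cons _ _ _ _ _ _ (h4_7_9 E) (rowG_nil _ _)))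

theorem row4_8 (E : Env κ ι) : RowG (ek E lk4) (F4_8 E) [F4_8 E, F4_9 E] [r4_8_8, r4_8_9] :=
  rowG_cons _ _ _ _ _ _ (h4_8_8 E) (rowG_cons _ _ _ _ _ _ (h4_8_9 E) (rowG_nil _ _))

theorem row4_9 (E : Env κ ι) : RowG (ek E lk4) (F4_9 E) [F4_9 E] [r4_9_9] :=
  rowG_cons _ _ _ _ _ _ (h4_9_9 E) (rowG_nil _ _)

def tab4 : List (List (List (ℕ × ℤ))) := [[r4_0_0, r4_0_1, r4_0_2, r4_0_3, r4_0_4, r4_0_5, r4_0_6, r4_0_7, r4_0_8, r4_0_9], [r4_1_1, r4_1_2, r4_1_3, r4_1_4, r4_1_5, r4_1_6, r4_1_7, r4_1_8, r4_1_9], [r4_2_2, r4_2_3, r4_2_4, r4_2_5, r4_2_6, r4_2_7, r4_2_8, r4_2_9], [r4_3_3, r4_3_4, r4_3_5, r4_3_6, r4_3_7, r4_3_8, r4_3_9], [r4_4_4, r4_4_5, r4_4_6, r4_4_7, r4_4_8, r4_4_9], [r4_5_5, r4_5_6, r4_5_7, r4_5_8, r4_5_9], [r4_6_6, r4_6_7, r4_6_8, r4_6_9], [r4_7_7, r4_7_8, r4_7_9], [r4_8_8, r4_8_9], [r4_9_9]]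

theorem tri4 (E : Env κ ι) : TriG (ek E lk4) [F4_0 E, F4_1 E, F4_2 E, F4_3 E, F4_4 E, F4_5 E, F4_6 E, F4_7 E, F4_8 E, F4_9 E] tab4 := by
  refine triG_cons _ _ _ _ _ (row4_0 E) ?_
  refine triG_cons _ _ _ _ _ (row4_1 E) ?_
  refine triG_cons _ _ _ _ _ (row4_2 E) ?_
  refine triG_cons _ _ _ _ _ (row4_3 E) ?_
  refine triG_cons _ _ _ _ _ (row4_4 E) ?_
  refine triG_cons _ _ _ _ _ (row4_5 E) ?_
  refine triG_cons _ _ _ _ _ (row4_6 E) ?_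
  refine triG_cons _ _ _ _ _ (row4_7 E) ?_
  refine triG_cons _ _ _ _ _ (row4_8 E) ?_
  refine triG_cons _ _ _ _ _ (row4_9 E) ?_
  exact triG_nil _

end

end YMBG
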