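import Pool.Agent.YM.BG.Keys

set_option linter.unusedVariables false
set_option maxRecDepth 100000

open YMEng

namespace YMBG

def dg9 : List (ℤ × ℕ) := [(Int.ofNat 48, 274960), (Int.negSucc 47, 213520), (Int.negSucc 47, 271120), (Int.ofNat 48, 148240), (Int.ofNat 48, 205840), (Int.negSucc 47, 144400), (Int.ofNat 12, 274720), (Int.negSucc 11, 213280), (Int.negSucc 11, 267040), (Int.ofNat 12, 82720), (Int.ofNat 12, 201760), (Int.negSucc 11, 78880), (Int.negSucc 11, 270640), (Int.ofNat 12, 147760), (Int.ofNat 12, 266800), (Int.negSucc 11, 82480), (Int.negSucc 11, 136240), (Int.ofNat 12, 74800), (Int.ofNat 12, 205120), (Int.negSucc 11, 143680), (Int.negSucc 11, 201280), (Int.ofNat 12, 78400), (Int.ofNat 12, 136000), (Int.negSucc 11, 74560), (Int.ofNat 12, 274945), (Int.negSucc 11, 213505), (Int.negSucc 11, 271105), (Int.ofNat 12, 148225), (Int.ofNat 12, 205825), (Int.negSucc 11, 144385), (Int.negSucc 11, 274465), (Int.ofNat 12,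 213025), (Int.ofNat 12, 262945), (Int.negSucc 11, 17185), (Int.negSucc 11, 197665), (Int.ofNat 12, 13345), (Int.ofNat 12, 270385), (Int.negSucc 11, 147505), (Int.negSucc 11, 262705), (Int.ofNat 12, 16945), (Int.ofNat 12, 132145), (Int.negSucc 11, 9265), (Int.negSucc 11, 204865), (Int.ofNat 12, 143425), (Int.ofNat 12, 197185), (Int.negSucc 11, 12865), (Int.negSucc 11, 131905), (Int.ofNat 12, 9025), (Int.negSucc 11, 274690), (Int.ofNat 12, 213250), (Int.ofNat 12, 267010), (Int.negSucc 11, 82690), (Int.negSucc 11, 201730), (Int.ofNat 12, 78850), (Int.negSucc 47, 274450), (Int.ofNat 48, 213010), (Int.ofNat 48, 262930), (Int.negSucc 47, 17170), (Int.negSucc 47, 197650), (Int.ofNat 48, 13330), (Int.negSucc 11, 266290), (Int.ofNat 12, 81970), (Int.ofNat 12, 262450), (Int.negSucc 11, 16690), (Int.negSucc 11, 66610), (Int.ofNat 12, 5170), (Int.ofNat 12, 200770), (Int.negSucc 11, 77890), (Int.negSucc 11, 196930), (Int.ofNat 12, 12610),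 (Int.ofNat 12, 66370), (Int.negSucc 11, 4930), (Int.ofNat 12, 270595), (Int.negSucc 11, 147715), (Int.negSucc 11, 266755), (Int.ofNat 12, 82435), (Int.ofNat 12, 136195), (Int.negSucc 11, 74755), (Int.ofNat 48, 270355), (Int.negSucc 47, 147475), (Int.negSucc 47, 262675), (Int.ofNat 48, 16915), (Int.ofNat 48, 132115), (Int.negSucc 47, 9235), (Int.ofNat 12, 266275), (Int.negSucc 11, 81955), (Int.negSucc 11, 262435), (Int.ofNat 12, 16675), (Int.ofNat 12, 66595), (Int.negSucc 11, 5155), (Int.negSucc 11, 135235), (Int.ofNat 12, 73795), (Int.ofNat 12, 131395), (Int.negSucc 11, 8515), (Int.negSucc 11, 66115), (Int.ofNat 12, 4675), (Int.negSucc 11, 205060), (Int.ofNat 12, 143620), (Int.ofNat 12, 201220), (Int.negSucc 11, 78340), (Int.negSucc 11, 135940), (Int.ofNat 12, 74500), (Int.negSucc 47, 204820), (Int.ofNat 48, 143380), (Int.ofNat 48, 197140), (Int.negSucc 47, 12820), (Int.negSucc 47, 131860), (Int.ofNat 48, 8980), (Int.negSucc 11,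 200740), (Int.ofNat 12, 77860), (Int.ofNat 12, 196900), (Int.negSucc 11, 12580), (Int.negSucc 11, 66340), (Int.ofNat 12, 4900), (Int.ofNat 12, 135220), (Int.negSucc 11, 73780), (Int.negSucc 11, 131380), (Int.ofNat 12, 8500), (Int.ofNat 12, 66100), (Int.negSucc 11, 4660)]

def R9 : GA := [(Int.ofNat 1, 274960, 274960), (Int.ofNat 1, 274945, 274945)]

def C9 : GA := [(Int.ofNat 1, 274960, 274960), (Int.negSucc 0, 213520, 213520), (Int.negSucc 0, 271120, 271120), (Int.ofNat 1, 148240, 205840), (Int.ofNat 1, 205840, 148240), (Int.negSucc 0, 144400, 144400), (Int.negSucc 0, 274450, 274450), (Int.ofNat 1, 213010, 213010), (Int.ofNat 1, 262930, 270355), (Int.negSucc 0, 17170, 204820), (Int.negSucc 0, 197650, 147475), (Int.ofNat 1, 13330, 143380), (Int.ofNat 1, 270355, 262930), (Int.negSucc 0, 147475, 197650), (Int.negSucc 0, 262675, 262675), (Int.ofNat 1, 16915, 197140), (Int.ofNat 1, 132115, 132115), (Int.negSucc 0, 9235, 131860), (Int.negSucc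 0, 204820, 17170), (Int.ofNat 1, 143380, 13330), (Int.ofNat 1, 197140, 16915), (Int.negSucc 0, 12820, 12820), (Int.negSucc 0, 131860, 9235), (Int.ofNat 1, 8980, 8980)]

def gs9 : List (ℤ × ℕ) := [(1, 274960), (1, 274945)]

def gp9 : List (List (ℤ × ℕ)) := [[(Int.ofNat 1, 274960), (Int.ofNat 1, 274945)],
  [(Int.ofNat 1, 274945), (Int.ofNat 1, 274960)]]

def tl9 : List (ℕ × ℕ) := [(0, 0), (1, 0)]

def e9 : List (ℤ × ℕ) := [(Int.ofNat 1, 274960), (Int.negSucc 0, 213520), (Int.negSucc 0, 271120), (Int.ofNat 1, 148240), (Int.ofNat 1, 205840), (Int.negSucc 0, 144400), (Int.negSucc 0, 274450), (Int.ofNat 1, 213010), (Int.ofNat 1, 262930), (Int.negSucc 0, 17170), (Int.negSucc 0, 197650), (Int.ofNat 1, 13330), (Int.ofNat 1, 270355), (Int.negSucc 0, 147475), (Int.negSucc 0, 262675), (Int.ofNat 1, 16915), (Int.ofNat 1, 132115), (Int.negSucc 0, 9235), (Int.negSucc 0, 204820), (Int.ofNat 1, 143380), (Int.ofNat 1, 197140), (Int.negSucc 0,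 12820), (Int.negSucc 0, 131860), (Int.ofNat 1, 8980), (Int.ofNat 1, 274945), (Int.negSucc 0, 213505), (Int.negSucc 0, 271105), (Int.ofNat 1, 148225), (Int.ofNat 1, 205825), (Int.negSucc 0, 144385), (Int.negSucc 0, 274690), (Int.ofNat 1, 213250), (Int.ofNat 1, 267010), (Int.negSucc 0, 82690), (Int.negSucc 0, 201730), (Int.ofNat 1, 78850), (Int.ofNat 1, 270595), (Int.negSucc 0, 147715), (Int.negSucc 0, 266755), (Int.ofNat 1, 82435), (Int.ofNat 1, 136195), (Int.negSucc 0, 74755), (Int.negSucc 0, 205060), (Int.ofNat 1, 143620), (Int.ofNat 1, 201220), (Int.negSucc 0, 78340), (Int.negSucc 0, 135940), (Int.ofNat 1, 74500)]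

def pl9 : List (ℤ × ℕ) := [(Int.ofNat 2, 274960), (Int.negSucc 1, 213520), (Int.negSucc 1, 271120), (Int.ofNat 2, 148240), (Int.ofNat 2, 205840), (Int.negSucc 1, 144400), (Int.negSucc 1, 274450), (Int.ofNat 2, 213010), (Int.ofNat 2, 262930), (Int.negSucc 1, 17170), (Int.negSucc 1, 197650), (Int.ofNat 2, 13330), (Int.ofNat 2, 270355), (Int.negSucc 1, 147475), (Int.negSucc 1, 262675), (Int.ofNat 2, 16915), (Int.ofNat 2, 132115), (Int.negSucc 1, 9235), (Int.negSucc 1, 204820), (Int.ofNat 2, 143380), (Int.ofNat 2, 197140), (Int.negSucc 1, 12820), (Int.negSucc 1, 131860), (Int.ofNat 2, 8980), (Int.ofNat 2, 274945), (Int.negSucc 1, 213505), (Int.negSucc 1, 271105), (Int.ofNat 2, 148225), (Int.ofNat 2, 205825), (Int.negSucc 1, 144385), (Int.negSucc 1, 274690), (Int.ofNat 2, 213250), (Int.ofNat 2, 267010), (Int.negSucc 1, 82690), (Int.negSucc 1, 201730), (Int.ofNat 2, 78850), (Int.ofNat 2, 270595), (Int.negSucc 1, 147715), (Int.negSucc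 1, 266755), (Int.ofNat 2, 82435), (Int.ofNat 2, 136195), (Int.negSucc 1, 74755), (Int.negSucc 1, 205060), (Int.ofNat 2, 143620), (Int.ofNat 2, 201220), (Int.negSucc 1, 78340), (Int.negSucc 1, 135940), (Int.ofNat 2, 74500), (Int.negSucc 1, 213520), (Int.ofNat 2, 274960), (Int.ofNat 2, 205840), (Int.negSucc 1, 144400), (Int.negSucc 1, 271120), (Int.ofNat 2, 148240), (Int.ofNat 2, 213010), (Int.negSucc 1, 274450), (Int.negSucc 1, 197650), (Int.ofNat 2, 13330), (Int.ofNat 2, 262930), (Int.negSucc 1, 17170), (Int.negSucc 1, 204820), (Int.ofNat 2, 143380), (Int.ofNat 2, 197140), (Int.negSucc 1, 12820), (Int.negSucc 1, 131860), (Int.ofNat 2, 8980), (Int.ofNat 2, 270355), (Int.negSucc 1, 147475), (Int.negSucc 1, 262675), (Int.ofNat 2, 16915), (Int.ofNat 2, 132115), (Int.negSucc 1, 9235), (Int.negSucc 1, 213505), (Int.ofNat 2, 274945), (Int.ofNat 2, 205825), (Int.negSucc 1, 144385), (Int.negSucc 1, 271105), (Int.ofNat 2, 148225), (Int.ofNat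 2, 213250), (Int.negSucc 1, 274690), (Int.negSucc 1, 201730), (Int.ofNat 2, 78850), (Int.ofNat 2, 267010), (Int.negSucc 1, 82690), (Int.negSucc 1, 205060), (Int.ofNat 2, 143620), (Int.ofNat 2, 201220), (Int.negSucc 1, 78340), (Int.negSucc 1, 135940), (Int.ofNat 2, 74500), (Int.ofNat 2, 270595), (Int.negSucc 1, 147715), (Int.negSucc 1, 266755), (Int.ofNat 2, 82435), (Int.ofNat 2, 136195), (Int.negSucc 1, 74755), (Int.negSucc 1, 271120), (Int.ofNat 2, 148240), (Int.ofNat 2, 274960), (Int.negSucc 1, 213520), (Int.negSucc 1, 144400), (Int.ofNat 2, 205840), (Int.ofNat 2, 270355), (Int.negSucc 1, 147475), (Int.negSucc 1, 262675), (Int.ofNat 2, 16915), (Int.ofNat 2, 132115), (Int.negSucc 1, 9235), (Int.negSucc 1, 274450), (Int.ofNat 2, 213010), (Int.ofNat 2, 262930), (Int.negSucc 1, 17170), (Int.negSucc 1, 197650), (Int.ofNat 2, 13330), (Int.ofNat 2, 143380), (Int.negSucc 1, 204820), (Int.negSucc 1, 131860), (Int.ofNat 2, 8980), (Int.ofNat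 2, 197140), (Int.negSucc 1, 12820), (Int.negSucc 1, 271105), (Int.ofNat 2, 148225), (Int.ofNat 2, 274945), (Int.negSucc 1, 213505), (Int.negSucc 1, 144385), (Int.ofNat 2, 205825), (Int.ofNat 2, 270595), (Int.negSucc 1, 147715), (Int.negSucc 1, 266755), (Int.ofNat 2, 82435), (Int.ofNat 2, 136195), (Int.negSucc 1, 74755), (Int.negSucc 1, 274690), (Int.ofNat 2, 213250), (Int.ofNat 2, 267010), (Int.negSucc 1, 82690), (Int.negSucc 1, 201730), (Int.ofNat 2, 78850), (Int.ofNat 2, 143620), (Int.negSucc 1, 205060), (Int.negSucc 1, 135940), (Int.ofNat 2, 74500), (Int.ofNat 2, 201220), (Int.negSucc 1, 78340), (Int.ofNat 2, 205840), (Int.negSucc 1, 144400), (Int.negSucc 1, 213520), (Int.ofNat 2, 274960), (Int.ofNat 2, 148240), (Int.negSucc 1, 271120), (Int.negSucc 1, 204820), (Int.ofNat 2, 143380), (Int.ofNat 2, 197140), (Int.negSucc 1, 12820), (Int.negSucc 1, 131860), (Int.ofNat 2, 8980), (Int.ofNat 2, 213010), (Int.negSucc 1, 274450), (Int.negSucc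 1, 197650), (Int.ofNat 2, 13330), (Int.ofNat 2, 262930), (Int.negSucc 1, 17170), (Int.negSucc 1, 147475), (Int.ofNat 2, 270355), (Int.ofNat 2, 132115), (Int.negSucc 1, 9235), (Int.negSucc 1, 262675), (Int.ofNat 2, 16915), (Int.ofNat 2, 205825), (Int.negSucc 1, 144385), (Int.negSucc 1, 213505), (Int.ofNat 2, 274945), (Int.ofNat 2, 148225), (Int.negSucc 1, 271105), (Int.negSucc 1, 205060), (Int.ofNat 2, 143620), (Int.ofNat 2, 201220), (Int.negSucc 1, 78340), (Int.negSucc 1, 135940), (Int.ofNat 2, 74500), (Int.ofNat 2, 213250), (Int.negSucc 1, 274690), (Int.negSucc 1, 201730), (Int.ofNat 2, 78850), (Int.ofNat 2, 267010), (Int.negSucc 1, 82690), (Int.negSucc 1, 147715), (Int.ofNat 2, 270595), (Int.ofNat 2, 136195), (Int.negSucc 1, 74755), (Int.negSucc 1, 266755), (Int.ofNat 2, 82435), (Int.ofNat 2, 148240), (Int.negSucc 1, 271120), (Int.negSucc 1, 144400), (Int.ofNat 2, 205840), (Int.ofNat 2, 274960), (Int.negSucc 1, 213520), (Int.negSucc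 1, 147475), (Int.ofNat 2, 270355), (Int.ofNat 2, 132115), (Int.negSucc 1, 9235), (Int.negSucc 1, 262675), (Int.ofNat 2, 16915), (Int.ofNat 2, 143380), (Int.negSucc 1, 204820), (Int.negSucc 1, 131860), (Int.ofNat 2, 8980), (Int.ofNat 2, 197140), (Int.negSucc 1, 12820), (Int.negSucc 1, 274450), (Int.ofNat 2, 213010), (Int.ofNat 2, 262930), (Int.negSucc 1, 17170), (Int.negSucc 1, 197650), (Int.ofNat 2, 13330), (Int.ofNat 2, 148225), (Int.negSucc 1, 271105), (Int.negSucc 1, 144385), (Int.ofNat 2, 205825), (Int.ofNat 2, 274945), (Int.negSucc 1, 213505), (Int.negSucc 1, 147715), (Int.ofNat 2, 270595), (Int.ofNat 2, 136195), (Int.negSucc 1, 74755), (Int.negSucc 1, 266755), (Int.ofNat 2, 82435), (Int.ofNat 2, 143620), (Int.negSucc 1, 205060), (Int.negSucc 1, 135940), (Int.ofNat 2, 74500), (Int.ofNat 2, 201220), (Int.negSucc 1, 78340), (Int.negSucc 1, 274690), (Int.ofNat 2, 213250), (Int.ofNat 2, 267010), (Int.negSucc 1, 82690), (Int.negSucc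 1, 201730), (Int.ofNat 2, 78850), (Int.negSucc 1, 144400), (Int.ofNat 2, 205840), (Int.ofNat 2, 148240), (Int.negSucc 1, 271120), (Int.negSucc 1, 213520), (Int.ofNat 2, 274960), (Int.ofNat 2, 143380), (Int.negSucc 1, 204820), (Int.negSucc 1, 131860), (Int.ofNat 2, 8980), (Int.ofNat 2, 197140), (Int.negSucc 1, 12820), (Int.negSucc 1, 147475), (Int.ofNat 2, 270355), (Int.ofNat 2, 132115), (Int.negSucc 1, 9235), (Int.negSucc 1, 262675), (Int.ofNat 2, 16915), (Int.ofNat 2, 213010), (Int.negSucc 1, 274450), (Int.negSucc 1, 197650), (Int.ofNat 2, 13330), (Int.ofNat 2, 262930), (Int.negSucc 1, 17170), (Int.negSucc 1, 144385), (Int.ofNat 2, 205825), (Int.ofNat 2, 148225), (Int.negSucc 1, 271105), (Int.negSucc 1, 213505), (Int.ofNat 2, 274945), (Int.ofNat 2, 143620), (Int.negSucc 1, 205060), (Int.negSucc 1, 135940), (Int.ofNat 2, 74500), (Int.ofNat 2, 201220), (Int.negSucc 1, 78340), (Int.negSucc 1, 147715), (Int.ofNat 2, 270595), (Int.ofNat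 2, 136195), (Int.negSucc 1, 74755), (Int.negSucc 1, 266755), (Int.ofNat 2, 82435), (Int.ofNat 2, 213250), (Int.negSucc 1, 274690), (Int.negSucc 1, 201730), (Int.ofNat 2, 78850), (Int.ofNat 2, 267010), (Int.negSucc 1, 82690), (Int.negSucc 1, 274450), (Int.ofNat 2, 213010), (Int.ofNat 2, 262930), (Int.negSucc 1, 17170), (Int.negSucc 1, 197650), (Int.ofNat 2, 13330), (Int.ofNat 2, 274960), (Int.negSucc 1, 213520), (Int.negSucc 1, 271120), (Int.ofNat 2, 148240), (Int.ofNat 2, 205840), (Int.negSucc 1, 144400), (Int.negSucc 1, 262675), (Int.ofNat 2, 16915), (Int.ofNat 2, 270355), (Int.negSucc 1, 147475), (Int.negSucc 1, 9235), (Int.ofNat 2, 132115), (Int.ofNat 2, 197140), (Int.negSucc 1, 12820), (Int.negSucc 1, 204820), (Int.ofNat 2, 143380), (Int.ofNat 2, 8980), (Int.negSucc 1, 131860), (Int.negSucc 1, 274465), (Int.ofNat 2, 213025), (Int.ofNat 2, 262945), (Int.negSucc 1, 17185), (Int.negSucc 1, 197665), (Int.ofNat 2, 13345), (Int.ofNat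 2, 274720), (Int.negSucc 1, 213280), (Int.negSucc 1, 267040), (Int.ofNat 2, 82720), (Int.ofNat 2, 201760), (Int.negSucc 1, 78880), (Int.negSucc 1, 262435), (Int.ofNat 2, 16675), (Int.ofNat 2, 266275), (Int.negSucc 1, 81955), (Int.negSucc 1, 5155), (Int.ofNat 2, 66595), (Int.ofNat 2, 196900), (Int.negSucc 1, 12580), (Int.negSucc 1, 200740), (Int.ofNat 2, 77860), (Int.ofNat 2, 4900), (Int.negSucc 1, 66340), (Int.ofNat 2, 213010), (Int.negSucc 1, 274450), (Int.negSucc 1, 197650), (Int.ofNat 2, 13330), (Int.ofNat 2, 262930), (Int.negSucc 1, 17170), (Int.negSucc 1, 213520), (Int.ofNat 2, 274960), (Int.ofNat 2, 205840), (Int.negSucc 1, 144400), (Int.negSucc 1, 271120), (Int.ofNat 2, 148240), (Int.ofNat 2, 197140), (Int.negSucc 1, 12820), (Int.negSucc 1, 204820), (Int.ofNat 2, 143380), (Int.ofNat 2, 8980), (Int.negSucc 1, 131860), (Int.negSucc 1, 262675), (Int.ofNat 2, 16915), (Int.ofNat 2, 270355), (Int.negSucc 1, 147475), (Int.negSucc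 1, 9235), (Int.ofNat 2, 132115), (Int.ofNat 2, 213025), (Int.negSucc 1, 274465), (Int.negSucc 1, 197665), (Int.ofNat 2, 13345), (Int.ofNat 2, 262945), (Int.negSucc 1, 17185), (Int.negSucc 1, 213280), (Int.ofNat 2, 274720), (Int.ofNat 2, 201760), (Int.negSucc 1, 78880), (Int.negSucc 1, 267040), (Int.ofNat 2, 82720), (Int.ofNat 2, 196900), (Int.negSucc 1, 12580), (Int.negSucc 1, 200740), (Int.ofNat 2, 77860), (Int.ofNat 2, 4900), (Int.negSucc 1, 66340), (Int.negSucc 1, 262435), (Int.ofNat 2, 16675), (Int.ofNat 2, 266275), (Int.negSucc 1, 81955), (Int.negSucc 1, 5155), (Int.ofNat 2, 66595), (Int.ofNat 2, 270355), (Int.negSucc 1, 147475), (Int.negSucc 1, 262675), (Int.ofNat 2, 16915), (Int.ofNat 2, 132115), (Int.negSucc 1, 9235), (Int.negSucc 1, 271120), (Int.ofNat 2, 148240), (Int.ofNat 2, 274960), (Int.negSucc 1, 213520), (Int.negSucc 1, 144400), (Int.ofNat 2, 205840), (Int.ofNat 2, 262930), (Int.negSucc 1, 17170), (Int.negSucc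 1, 274450), (Int.ofNat 2, 213010), (Int.ofNat 2, 13330), (Int.negSucc 1, 197650), (Int.negSucc 1, 131860), (Int.ofNat 2, 8980), (Int.ofNat 2, 143380), (Int.negSucc 1, 204820), (Int.negSucc 1, 12820), (Int.ofNat 2, 197140), (Int.ofNat 2, 270385), (Int.negSucc 1, 147505), (Int.negSucc 1, 262705), (Int.ofNat 2, 16945), (Int.ofNat 2, 132145), (Int.negSucc 1, 9265), (Int.negSucc 1, 270640), (Int.ofNat 2, 147760), (Int.ofNat 2, 266800), (Int.negSucc 1, 82480), (Int.negSucc 1, 136240), (Int.ofNat 2, 74800), (Int.ofNat 2, 262450), (Int.negSucc 1, 16690), (Int.negSucc 1, 266290), (Int.ofNat 2, 81970), (Int.ofNat 2, 5170), (Int.negSucc 1, 66610), (Int.negSucc 1, 131380), (Int.ofNat 2, 8500), (Int.ofNat 2, 135220), (Int.negSucc 1, 73780), (Int.negSucc 1, 4660), (Int.ofNat 2, 66100), (Int.negSucc 1, 204820), (Int.ofNat 2, 143380), (Int.ofNat 2, 197140), (Int.negSucc 1, 12820), (Int.negSucc 1, 131860), (Int.ofNat 2, 8980), (Int.ofNat 2, 205840),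 (Int.negSucc 1, 144400), (Int.negSucc 1, 213520), (Int.ofNat 2, 274960), (Int.ofNat 2, 148240), (Int.negSucc 1, 271120), (Int.negSucc 1, 197650), (Int.ofNat 2, 13330), (Int.ofNat 2, 213010), (Int.negSucc 1, 274450), (Int.negSucc 1, 17170), (Int.ofNat 2, 262930), (Int.ofNat 2, 132115), (Int.negSucc 1, 9235), (Int.negSucc 1, 147475), (Int.ofNat 2, 270355), (Int.ofNat 2, 16915), (Int.negSucc 1, 262675), (Int.negSucc 1, 204865), (Int.ofNat 2, 143425), (Int.ofNat 2, 197185), (Int.negSucc 1, 12865), (Int.negSucc 1, 131905), (Int.ofNat 2, 9025), (Int.ofNat 2, 205120), (Int.negSucc 1, 143680), (Int.negSucc 1, 201280), (Int.ofNat 2, 78400), (Int.ofNat 2, 136000), (Int.negSucc 1, 74560), (Int.negSucc 1, 196930), (Int.ofNat 2, 12610), (Int.ofNat 2, 200770), (Int.negSucc 1, 77890), (Int.negSucc 1, 4930), (Int.ofNat 2, 66370), (Int.ofNat 2, 131395), (Int.negSucc 1, 8515), (Int.negSucc 1, 135235), (Int.ofNat 2, 73795), (Int.ofNat 2, 4675),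 (Int.negSucc 1, 66115), (Int.negSucc 1, 147475), (Int.ofNat 2, 270355), (Int.ofNat 2, 132115), (Int.negSucc 1, 9235), (Int.negSucc 1, 262675), (Int.ofNat 2, 16915), (Int.ofNat 2, 148240), (Int.negSucc 1, 271120), (Int.negSucc 1, 144400), (Int.ofNat 2, 205840), (Int.ofNat 2, 274960), (Int.negSucc 1, 213520), (Int.negSucc 1, 131860), (Int.ofNat 2, 8980), (Int.ofNat 2, 143380), (Int.negSucc 1, 204820), (Int.negSucc 1, 12820), (Int.ofNat 2, 197140), (Int.ofNat 2, 262930), (Int.negSucc 1, 17170), (Int.negSucc 1, 274450), (Int.ofNat 2, 213010), (Int.ofNat 2, 13330), (Int.negSucc 1, 197650), (Int.negSucc 1, 147505), (Int.ofNat 2, 270385), (Int.ofNat 2, 132145), (Int.negSucc 1, 9265), (Int.negSucc 1, 262705), (Int.ofNat 2, 16945), (Int.ofNat 2, 147760), (Int.negSucc 1, 270640), (Int.negSucc 1, 136240), (Int.ofNat 2, 74800), (Int.ofNat 2, 266800), (Int.negSucc 1, 82480), (Int.negSucc 1, 131380), (Int.ofNat 2, 8500), (Int.ofNat 2, 135220),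 (Int.negSucc 1, 73780), (Int.negSucc 1, 4660), (Int.ofNat 2, 66100), (Int.ofNat 2, 262450), (Int.negSucc 1, 16690), (Int.negSucc 1, 266290), (Int.ofNat 2, 81970), (Int.ofNat 2, 5170), (Int.negSucc 1, 66610), (Int.ofNat 2, 143380), (Int.negSucc 1, 204820), (Int.negSucc 1, 131860), (Int.ofNat 2, 8980), (Int.ofNat 2, 197140), (Int.negSucc 1, 12820), (Int.negSucc 1, 144400), (Int.ofNat 2, 205840), (Int.ofNat 2, 148240), (Int.negSucc 1, 271120), (Int.negSucc 1, 213520), (Int.ofNat 2, 274960), (Int.ofNat 2, 132115), (Int.negSucc 1, 9235), (Int.negSucc 1, 147475), (Int.ofNat 2, 270355), (Int.ofNat 2, 16915), (Int.negSucc 1, 262675), (Int.negSucc 1, 197650), (Int.ofNat 2, 13330), (Int.ofNat 2, 213010), (Int.negSucc 1, 274450), (Int.negSucc 1, 17170), (Int.ofNat 2, 262930), (Int.ofNat 2, 143425), (Int.negSucc 1, 204865), (Int.negSucc 1, 131905), (Int.ofNat 2, 9025), (Int.ofNat 2, 197185), (Int.negSucc 1, 12865), (Int.negSucc 1, 143680),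 (Int.ofNat 2, 205120), (Int.ofNat 2, 136000), (Int.negSucc 1, 74560), (Int.negSucc 1, 201280), (Int.ofNat 2, 78400), (Int.ofNat 2, 131395), (Int.negSucc 1, 8515), (Int.negSucc 1, 135235), (Int.ofNat 2, 73795), (Int.ofNat 2, 4675), (Int.negSucc 1, 66115), (Int.negSucc 1, 196930), (Int.ofNat 2, 12610), (Int.ofNat 2, 200770), (Int.negSucc 1, 77890), (Int.negSucc 1, 4930), (Int.ofNat 2, 66370), (Int.ofNat 2, 262930), (Int.negSucc 1, 17170), (Int.negSucc 1, 274450), (Int.ofNat 2, 213010), (Int.ofNat 2, 13330), (Int.negSucc 1, 197650), (Int.negSucc 1, 262675), (Int.ofNat 2, 16915), (Int.ofNat 2, 270355), (Int.negSucc 1, 147475), (Int.negSucc 1, 9235), (Int.ofNat 2, 132115), (Int.ofNat 2, 274960), (Int.negSucc 1, 213520), (Int.negSucc 1, 271120), (Int.ofNat 2, 148240), (Int.ofNat 2, 205840), (Int.negSucc 1, 144400), (Int.negSucc 1, 12820), (Int.ofNat 2, 197140), (Int.ofNat 2, 8980), (Int.negSucc 1, 131860), (Int.negSucc 1, 204820), (Int.ofNat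 2, 143380), (Int.ofNat 2, 262945), (Int.negSucc 1, 17185), (Int.negSucc 1, 274465), (Int.ofNat 2, 213025), (Int.ofNat 2, 13345), (Int.negSucc 1, 197665), (Int.negSucc 1, 262435), (Int.ofNat 2, 16675), (Int.ofNat 2, 266275), (Int.negSucc 1, 81955), (Int.negSucc 1, 5155), (Int.ofNat 2, 66595), (Int.ofNat 2, 274720), (Int.negSucc 1, 213280), (Int.negSucc 1, 267040), (Int.ofNat 2, 82720), (Int.ofNat 2, 201760), (Int.negSucc 1, 78880), (Int.negSucc 1, 12580), (Int.ofNat 2, 196900), (Int.ofNat 2, 4900), (Int.negSucc 1, 66340), (Int.negSucc 1, 200740), (Int.ofNat 2, 77860), (Int.negSucc 1, 197650), (Int.ofNat 2, 13330), (Int.ofNat 2, 213010), (Int.negSucc 1, 274450), (Int.negSucc 1, 17170), (Int.ofNat 2, 262930), (Int.ofNat 2, 197140), (Int.negSucc 1, 12820), (Int.negSucc 1, 204820), (Int.ofNat 2, 143380), (Int.ofNat 2, 8980), (Int.negSucc 1, 131860), (Int.negSucc 1, 213520), (Int.ofNat 2, 274960), (Int.ofNat 2, 205840), (Int.negSucc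 1, 144400), (Int.negSucc 1, 271120), (Int.ofNat 2, 148240), (Int.ofNat 2, 16915), (Int.negSucc 1, 262675), (Int.negSucc 1, 9235), (Int.ofNat 2, 132115), (Int.ofNat 2, 270355), (Int.negSucc 1, 147475), (Int.negSucc 1, 197665), (Int.ofNat 2, 13345), (Int.ofNat 2, 213025), (Int.negSucc 1, 274465), (Int.negSucc 1, 17185), (Int.ofNat 2, 262945), (Int.ofNat 2, 196900), (Int.negSucc 1, 12580), (Int.negSucc 1, 200740), (Int.ofNat 2, 77860), (Int.ofNat 2, 4900), (Int.negSucc 1, 66340), (Int.negSucc 1, 213280), (Int.ofNat 2, 274720), (Int.ofNat 2, 201760), (Int.negSucc 1, 78880), (Int.negSucc 1, 267040), (Int.ofNat 2, 82720), (Int.ofNat 2, 16675), (Int.negSucc 1, 262435), (Int.negSucc 1, 5155), (Int.ofNat 2, 66595), (Int.ofNat 2, 266275), (Int.negSucc 1, 81955), (Int.negSucc 1, 262675), (Int.ofNat 2, 16915), (Int.ofNat 2, 270355), (Int.negSucc 1, 147475), (Int.negSucc 1, 9235), (Int.ofNat 2, 132115), (Int.ofNat 2, 262930), (Int.negSucc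 1, 17170), (Int.negSucc 1, 274450), (Int.ofNat 2, 213010), (Int.ofNat 2, 13330), (Int.negSucc 1, 197650), (Int.negSucc 1, 271120), (Int.ofNat 2, 148240), (Int.ofNat 2, 274960), (Int.negSucc 1, 213520), (Int.negSucc 1, 144400), (Int.ofNat 2, 205840), (Int.ofNat 2, 8980), (Int.negSucc 1, 131860), (Int.negSucc 1, 12820), (Int.ofNat 2, 197140), (Int.ofNat 2, 143380), (Int.negSucc 1, 204820), (Int.negSucc 1, 262705), (Int.ofNat 2, 16945), (Int.ofNat 2, 270385), (Int.negSucc 1, 147505), (Int.negSucc 1, 9265), (Int.ofNat 2, 132145), (Int.ofNat 2, 262450), (Int.negSucc 1, 16690), (Int.negSucc 1, 266290), (Int.ofNat 2, 81970), (Int.ofNat 2, 5170), (Int.negSucc 1, 66610), (Int.negSucc 1, 270640), (Int.ofNat 2, 147760), (Int.ofNat 2, 266800), (Int.negSucc 1, 82480), (Int.negSucc 1, 136240), (Int.ofNat 2, 74800), (Int.ofNat 2, 8500), (Int.negSucc 1, 131380), (Int.negSucc 1, 4660), (Int.ofNat 2, 66100), (Int.ofNat 2, 135220), (Int.negSucc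 1, 73780), (Int.ofNat 2, 197140), (Int.negSucc 1, 12820), (Int.negSucc 1, 204820), (Int.ofNat 2, 143380), (Int.ofNat 2, 8980), (Int.negSucc 1, 131860), (Int.negSucc 1, 197650), (Int.ofNat 2, 13330), (Int.ofNat 2, 213010), (Int.negSucc 1, 274450), (Int.negSucc 1, 17170), (Int.ofNat 2, 262930), (Int.ofNat 2, 205840), (Int.negSucc 1, 144400), (Int.negSucc 1, 213520), (Int.ofNat 2, 274960), (Int.ofNat 2, 148240), (Int.negSucc 1, 271120), (Int.negSucc 1, 9235), (Int.ofNat 2, 132115), (Int.ofNat 2, 16915), (Int.negSucc 1, 262675), (Int.negSucc 1, 147475), (Int.ofNat 2, 270355), (Int.ofNat 2, 197185), (Int.negSucc 1, 12865), (Int.negSucc 1, 204865), (Int.ofNat 2, 143425), (Int.ofNat 2, 9025), (Int.negSucc 1, 131905), (Int.negSucc 1, 196930), (Int.ofNat 2, 12610), (Int.ofNat 2, 200770), (Int.negSucc 1, 77890), (Int.negSucc 1, 4930), (Int.ofNat 2, 66370), (Int.ofNat 2, 205120), (Int.negSucc 1, 143680), (Int.negSucc 1, 201280), (Int.ofNat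 2, 78400), (Int.ofNat 2, 136000), (Int.negSucc 1, 74560), (Int.negSucc 1, 8515), (Int.ofNat 2, 131395), (Int.ofNat 2, 4675), (Int.negSucc 1, 66115), (Int.negSucc 1, 135235), (Int.ofNat 2, 73795), (Int.ofNat 2, 132115), (Int.negSucc 1, 9235), (Int.negSucc 1, 147475), (Int.ofNat 2, 270355), (Int.ofNat 2, 16915), (Int.negSucc 1, 262675), (Int.negSucc 1, 131860), (Int.ofNat 2, 8980), (Int.ofNat 2, 143380), (Int.negSucc 1, 204820), (Int.negSucc 1, 12820), (Int.ofNat 2, 197140), (Int.ofNat 2, 148240), (Int.negSucc 1, 271120), (Int.negSucc 1, 144400), (Int.ofNat 2, 205840), (Int.ofNat 2, 274960), (Int.negSucc 1, 213520), (Int.negSucc 1, 17170), (Int.ofNat 2, 262930), (Int.ofNat 2, 13330), (Int.negSucc 1, 197650), (Int.negSucc 1, 274450), (Int.ofNat 2, 213010), (Int.ofNat 2, 132145), (Int.negSucc 1, 9265), (Int.negSucc 1, 147505), (Int.ofNat 2, 270385), (Int.ofNat 2, 16945), (Int.negSucc 1, 262705), (Int.negSucc 1, 131380), (Int.ofNat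 2, 8500), (Int.ofNat 2, 135220), (Int.negSucc 1, 73780), (Int.negSucc 1, 4660), (Int.ofNat 2, 66100), (Int.ofNat 2, 147760), (Int.negSucc 1, 270640), (Int.negSucc 1, 136240), (Int.ofNat 2, 74800), (Int.ofNat 2, 266800), (Int.negSucc 1, 82480), (Int.negSucc 1, 16690), (Int.ofNat 2, 262450), (Int.ofNat 2, 5170), (Int.negSucc 1, 66610), (Int.negSucc 1, 266290), (Int.ofNat 2, 81970), (Int.negSucc 1, 131860), (Int.ofNat 2, 8980), (Int.ofNat 2, 143380), (Int.negSucc 1, 204820), (Int.negSucc 1, 12820), (Int.ofNat 2, 197140), (Int.ofNat 2, 132115), (Int.negSucc 1, 9235), (Int.negSucc 1, 147475), (Int.ofNat 2, 270355), (Int.ofNat 2, 16915), (Int.negSucc 1, 262675), (Int.negSucc 1, 144400), (Int.ofNat 2, 205840), (Int.ofNat 2, 148240), (Int.negSucc 1, 271120), (Int.negSucc 1, 213520), (Int.ofNat 2, 274960), (Int.ofNat 2, 13330), (Int.negSucc 1, 197650), (Int.negSucc 1, 17170), (Int.ofNat 2, 262930), (Int.ofNat 2, 213010), (Int.negSucc 1,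 274450), (Int.negSucc 1, 131905), (Int.ofNat 2, 9025), (Int.ofNat 2, 143425), (Int.negSucc 1, 204865), (Int.negSucc 1, 12865), (Int.ofNat 2, 197185), (Int.ofNat 2, 131395), (Int.negSucc 1, 8515), (Int.negSucc 1, 135235), (Int.ofNat 2, 73795), (Int.ofNat 2, 4675), (Int.negSucc 1, 66115), (Int.negSucc 1, 143680), (Int.ofNat 2, 205120), (Int.ofNat 2, 136000), (Int.negSucc 1, 74560), (Int.negSucc 1, 201280), (Int.ofNat 2, 78400), (Int.ofNat 2, 12610), (Int.negSucc 1, 196930), (Int.negSucc 1, 4930), (Int.ofNat 2, 66370), (Int.ofNat 2, 200770), (Int.negSucc 1, 77890), (Int.negSucc 1, 17170), (Int.ofNat 2, 262930), (Int.ofNat 2, 13330), (Int.negSucc 1, 197650), (Int.negSucc 1, 274450), (Int.ofNat 2, 213010), (Int.ofNat 2, 16915), (Int.negSucc 1, 262675), (Int.negSucc 1, 9235), (Int.ofNat 2, 132115), (Int.ofNat 2, 270355), (Int.negSucc 1, 147475), (Int.negSucc 1, 12820), (Int.ofNat 2, 197140), (Int.ofNat 2, 8980), (Int.negSucc 1, 131860),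 (Int.negSucc 1, 204820), (Int.ofNat 2, 143380), (Int.ofNat 2, 274960), (Int.negSucc 1, 213520), (Int.negSucc 1, 271120), (Int.ofNat 2, 148240), (Int.ofNat 2, 205840), (Int.negSucc 1, 144400), (Int.negSucc 1, 17185), (Int.ofNat 2, 262945), (Int.ofNat 2, 13345), (Int.negSucc 1, 197665), (Int.negSucc 1, 274465), (Int.ofNat 2, 213025), (Int.ofNat 2, 16675), (Int.negSucc 1, 262435), (Int.negSucc 1, 5155), (Int.ofNat 2, 66595), (Int.ofNat 2, 266275), (Int.negSucc 1, 81955), (Int.negSucc 1, 12580), (Int.ofNat 2, 196900), (Int.ofNat 2, 4900), (Int.negSucc 1, 66340), (Int.negSucc 1, 200740), (Int.ofNat 2, 77860), (Int.ofNat 2, 274720), (Int.negSucc 1, 213280), (Int.negSucc 1, 267040), (Int.ofNat 2, 82720), (Int.ofNat 2, 201760), (Int.negSucc 1, 78880), (Int.ofNat 2, 13330), (Int.negSucc 1, 197650), (Int.negSucc 1, 17170), (Int.ofNat 2, 262930), (Int.ofNat 2, 213010), (Int.negSucc 1, 274450), (Int.negSucc 1, 12820), (Int.ofNat 2, 197140),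 (Int.ofNat 2, 8980), (Int.negSucc 1, 131860), (Int.negSucc 1, 204820), (Int.ofNat 2, 143380), (Int.ofNat 2, 16915), (Int.negSucc 1, 262675), (Int.negSucc 1, 9235), (Int.ofNat 2, 132115), (Int.ofNat 2, 270355), (Int.negSucc 1, 147475), (Int.negSucc 1, 213520), (Int.ofNat 2, 274960), (Int.ofNat 2, 205840), (Int.negSucc 1, 144400), (Int.negSucc 1, 271120), (Int.ofNat 2, 148240), (Int.ofNat 2, 13345), (Int.negSucc 1, 197665), (Int.negSucc 1, 17185), (Int.ofNat 2, 262945), (Int.ofNat 2, 213025), (Int.negSucc 1, 274465), (Int.negSucc 1, 12580), (Int.ofNat 2, 196900), (Int.ofNat 2, 4900), (Int.negSucc 1, 66340), (Int.negSucc 1, 200740), (Int.ofNat 2, 77860), (Int.ofNat 2, 16675), (Int.negSucc 1, 262435), (Int.negSucc 1, 5155), (Int.ofNat 2, 66595), (Int.ofNat 2, 266275), (Int.negSucc 1, 81955), (Int.negSucc 1, 213280), (Int.ofNat 2, 274720), (Int.ofNat 2, 201760), (Int.negSucc 1, 78880), (Int.negSucc 1, 267040), (Int.ofNat 2, 82720),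 (Int.ofNat 2, 16915), (Int.negSucc 1, 262675), (Int.negSucc 1, 9235), (Int.ofNat 2, 132115), (Int.ofNat 2, 270355), (Int.negSucc 1, 147475), (Int.negSucc 1, 17170), (Int.ofNat 2, 262930), (Int.ofNat 2, 13330), (Int.negSucc 1, 197650), (Int.negSucc 1, 274450), (Int.ofNat 2, 213010), (Int.ofNat 2, 8980), (Int.negSucc 1, 131860), (Int.negSucc 1, 12820), (Int.ofNat 2, 197140), (Int.ofNat 2, 143380), (Int.negSucc 1, 204820), (Int.negSucc 1, 271120), (Int.ofNat 2, 148240), (Int.ofNat 2, 274960), (Int.negSucc 1, 213520), (Int.negSucc 1, 144400), (Int.ofNat 2, 205840), (Int.ofNat 2, 16945), (Int.negSucc 1, 262705), (Int.negSucc 1, 9265), (Int.ofNat 2, 132145), (Int.ofNat 2, 270385), (Int.negSucc 1, 147505), (Int.negSucc 1, 16690), (Int.ofNat 2, 262450), (Int.ofNat 2, 5170), (Int.negSucc 1, 66610), (Int.negSucc 1, 266290), (Int.ofNat 2, 81970), (Int.ofNat 2, 8500), (Int.negSucc 1, 131380), (Int.negSucc 1, 4660), (Int.ofNat 2, 66100), (Int.ofNat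 2, 135220), (Int.negSucc 1, 73780), (Int.negSucc 1, 270640), (Int.ofNat 2, 147760), (Int.ofNat 2, 266800), (Int.negSucc 1, 82480), (Int.negSucc 1, 136240), (Int.ofNat 2, 74800), (Int.negSucc 1, 12820), (Int.ofNat 2, 197140), (Int.ofNat 2, 8980), (Int.negSucc 1, 131860), (Int.negSucc 1, 204820), (Int.ofNat 2, 143380), (Int.ofNat 2, 13330), (Int.negSucc 1, 197650), (Int.negSucc 1, 17170), (Int.ofNat 2, 262930), (Int.ofNat 2, 213010), (Int.negSucc 1, 274450), (Int.negSucc 1, 9235), (Int.ofNat 2, 132115), (Int.ofNat 2, 16915), (Int.negSucc 1, 262675), (Int.negSucc 1, 147475), (Int.ofNat 2, 270355), (Int.ofNat 2, 205840), (Int.negSucc 1, 144400), (Int.negSucc 1, 213520), (Int.ofNat 2, 274960), (Int.ofNat 2, 148240), (Int.negSucc 1, 271120), (Int.negSucc 1, 12865), (Int.ofNat 2, 197185), (Int.ofNat 2, 9025), (Int.negSucc 1, 131905), (Int.negSucc 1, 204865), (Int.ofNat 2, 143425), (Int.ofNat 2, 12610), (Int.negSucc 1, 196930), (Int.negSucc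 1, 4930), (Int.ofNat 2, 66370), (Int.ofNat 2, 200770), (Int.negSucc 1, 77890), (Int.negSucc 1, 8515), (Int.ofNat 2, 131395), (Int.ofNat 2, 4675), (Int.negSucc 1, 66115), (Int.negSucc 1, 135235), (Int.ofNat 2, 73795), (Int.ofNat 2, 205120), (Int.negSucc 1, 143680), (Int.negSucc 1, 201280), (Int.ofNat 2, 78400), (Int.ofNat 2, 136000), (Int.negSucc 1, 74560), (Int.negSucc 1, 9235), (Int.ofNat 2, 132115), (Int.ofNat 2, 16915), (Int.negSucc 1, 262675), (Int.negSucc 1, 147475), (Int.ofNat 2, 270355), (Int.ofNat 2, 8980), (Int.negSucc 1, 131860), (Int.negSucc 1, 12820), (Int.ofNat 2, 197140), (Int.ofNat 2, 143380), (Int.negSucc 1, 204820), (Int.negSucc 1, 17170), (Int.ofNat 2, 262930), (Int.ofNat 2, 13330), (Int.negSucc 1, 197650), (Int.negSucc 1, 274450), (Int.ofNat 2, 213010), (Int.ofNat 2, 148240), (Int.negSucc 1, 271120), (Int.negSucc 1, 144400), (Int.ofNat 2, 205840), (Int.ofNat 2, 274960), (Int.negSucc 1, 213520), (Int.negSucc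 1, 9265), (Int.ofNat 2, 132145), (Int.ofNat 2, 16945), (Int.negSucc 1, 262705), (Int.negSucc 1, 147505), (Int.ofNat 2, 270385), (Int.ofNat 2, 8500), (Int.negSucc 1, 131380), (Int.negSucc 1, 4660), (Int.ofNat 2, 66100), (Int.ofNat 2, 135220), (Int.negSucc 1, 73780), (Int.negSucc 1, 16690), (Int.ofNat 2, 262450), (Int.ofNat 2, 5170), (Int.negSucc 1, 66610), (Int.negSucc 1, 266290), (Int.ofNat 2, 81970), (Int.ofNat 2, 147760), (Int.negSucc 1, 270640), (Int.negSucc 1, 136240), (Int.ofNat 2, 74800), (Int.ofNat 2, 266800), (Int.negSucc 1, 82480), (Int.ofNat 2, 8980), (Int.negSucc 1, 131860), (Int.negSucc 1, 12820), (Int.ofNat 2, 197140), (Int.ofNat 2, 143380), (Int.negSucc 1, 204820), (Int.negSucc 1, 9235), (Int.ofNat 2, 132115), (Int.ofNat 2, 16915), (Int.negSucc 1, 262675), (Int.negSucc 1, 147475), (Int.ofNat 2, 270355), (Int.ofNat 2, 13330), (Int.negSucc 1, 197650), (Int.negSucc 1, 17170), (Int.ofNat 2, 262930), (Int.ofNat 2, 213010),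 (Int.negSucc 1, 274450), (Int.negSucc 1, 144400), (Int.ofNat 2, 205840), (Int.ofNat 2, 148240), (Int.negSucc 1, 271120), (Int.negSucc 1, 213520), (Int.ofNat 2, 274960), (Int.ofNat 2, 9025), (Int.negSucc 1, 131905), (Int.negSucc 1, 12865), (Int.ofNat 2, 197185), (Int.ofNat 2, 143425), (Int.negSucc 1, 204865), (Int.negSucc 1, 8515), (Int.ofNat 2, 131395), (Int.ofNat 2, 4675), (Int.negSucc 1, 66115), (Int.negSucc 1, 135235), (Int.ofNat 2, 73795), (Int.ofNat 2, 12610), (Int.negSucc 1, 196930), (Int.negSucc 1, 4930), (Int.ofNat 2, 66370), (Int.ofNat 2, 200770), (Int.negSucc 1, 77890), (Int.negSucc 1, 143680), (Int.ofNat 2, 205120), (Int.ofNat 2, 136000), (Int.negSucc 1, 74560), (Int.negSucc 1, 201280), (Int.ofNat 2, 78400)]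

noncomputable def P9 (X : Type*) [Inhabited X] [Fintype X] : ((Fin 5 → X) → ℝ) → (Fin 5 → X) → ℝ :=
  fun f => gaF (b := 5) R9 (gaF C9 f)

theorem gr9 : grpB 5 R9 gs9 gp9 274960 tl9 = true := by
  decide +kernel

theorem gy9 : yB 5 R9 C9 e9 pl9 dg9 = true := by
  decide +kernel

theorem pg9 (X : Type*) [Inhabited X] [Fintype X] : IsOp X (P9 X) dg9 :=
  isOp_young R9 C9 gs9 gp9 274960 tl9 gr9 e9 pl9 dg9 gy9

def dg10 : List (ℤ × ℕ) := [(Int.ofNat 1, 0)]

def R10 : GA := [(Int.ofNat 1, 0, 0)]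

def C10 : GA := [(Int.ofNat 1, 0, 0)]

def gs10 : List (ℤ × ℕ) := [(1, 0)]

def gp10 : List (List (ℤ × ℕ)) := [[(Int.ofNat 1, 0)]]

def tl10 : List (ℕ × ℕ) := [(0, 0)]

def e10 : List (ℤ × ℕ) := [(Int.ofNat 1, 0)]

def pl10 : List (ℤ × ℕ) := [(Int.ofNat 1, 0)]

noncomputable def P10 (X : Type*) [Inhabited X] [Fintype X] : ((Fin 0 → X) → ℝ) → (Fin 0 → X) → ℝ :=
  fun f => gaF (b := 0) R10 (gaF C10 f)

theorem gr10 : grpB 0 R10 gs10 gp10 0 tl10 = true := by
  decide +kernel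

theorem gy10 : yB 0 R10 C10 e10 pl10 dg10 = true := by
  decide +kernel

theorem pg10 (X : Type*) [Inhabited X] [Fintype X] : IsOp X (P10 X) dg10 :=
  isOp_young R10 C10 gs10 gp10 0 tl10 gr10 e10 pl10 dg10 gy10

def dg11 : List (ℤ × ℕ) := [(Int.ofNat 2, 16), (Int.ofNat 2, 1)]

def R11 : GA := [(Int.ofNat 1, 16, 16), (Int.ofNat 1, 1, 1)]

def C11 : GA := [(Int.ofNat 1, 16, 16)]

def gs11 : List (ℤ × ℕ) := [(1, 16), (1, 1)]

def gp11 : List (List (ℤ × ℕ)) := [[(Int.ofNat 1, 16), (Int.ofNat 1, 1)],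
  [(Int.ofNat 1, 1), (Int.ofNat 1, 16)]]

def tl11 : List (ℕ × ℕ) := [(0, 0), (1, 0)]

def e11 : List (ℤ × ℕ) := [(Int.ofNat 1, 16), (Int.ofNat 1, 1)]

def pl11 : List (ℤ × ℕ) := [(Int.ofNat 2, 16), (Int.ofNat 2, 1)]

noncomputable def P11 (X : Type*) [Inhabited X] [Fintype X] : ((Fin 2 → X) → ℝ) → (Fin 2 → X) → ℝ :=
  fun f => gaF (b := 2) R11 (gaF C11 f)

theorem gr11 : grpB 2 R11 gs11 gp11 16 tl11 = true := by
  decide +kernel

theorem gy11 : yB 2 R11 C11 e11 pl11 dg11 = true := by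
  decide +kernel

theorem pg11 (X : Type*) [Inhabited X] [Fintype X] : IsOp X (P11 X) dg11 :=
  isOp_young R11 C11 gs11 gp11 16 tl11 gr11 e11 pl11 dg11 gy11

def dg12 : List (ℤ × ℕ) := [(Int.ofNat 2, 16), (Int.negSucc 1, 1)]

def R12 : GA := [(Int.ofNat 1, 16, 16)]

def C12 : GA := [(Int.ofNat 1, 16, 16), (Int.negSucc 0, 1, 1)]

def gs12 : List (ℤ × ℕ) := [(1, 16)]

def gp12 : List (List (ℤ × ℕ)) := [[(Int.ofNat 1, 16)]]

def tl12 : List (ℕ × ℕ) := [(0, 0)]

def e12 : List (ℤ × ℕ) := [(Int.ofNat 1, 16), (Int.negSucc 0, 1)]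

def pl12 : List (ℤ × ℕ) := [(Int.ofNat 1, 16), (Int.negSucc 0, 1), (Int.negSucc 0, 1), (Int.ofNat 1, 16)]

noncomputable def P12 (X : Type*) [Inhabited X] [Fintype X] : ((Fin 2 → X) → ℝ) → (Fin 2 → X) → ℝ :=
  fun f => gaF (b := 2) R12 (gaF C12 f)

theorem gr12 : grpB 2 R12 gs12 gp12 16 tl12 = true := by
  decide +kernel

theorem gy12 : yB 2 R12 C12 e12 pl12 dg12 = true := by
  decide +kernel

theorem pg12 (X : Type*) [Inhabited X] [Fintype X] : IsOp X (P12 X) dg12 :=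
  isOp_young R12 C12 gs12 gp12 16 tl12 gr12 e12 pl12 dg12 gy12

end YMBG
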