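import Pool.Agent.YM.BG.Ga0
import Pool.Agent.YM.BG.Ga1

set_option linter.unusedVariables false
set_option maxRecDepth 100000

open YMEng

namespace YMBG

def lk39 : List Key := [
  (2, 5, [(0, [0], [0, 1]), (0, [1], [0, 2]), (0, [1], [3, 4]), (0, [0], [3, 4]), (4, [], [2]), (4, [], [1])]),
  (2, 7, [(0, [0], [0, 1]), (0, [0], [0, 1]), (0, [1], [2, 3]), (0, [1], [2, 3]), (1, [], [4, 5]), (1, [], [4, 6]), (4, [], [6]), (4, [], [5])]),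
  (2, 7, [(0, [0], [0, 1]), (0, [1], [0, 2]), (0, [1], [3, 4]), (0, [0], [5, 6]), (1, [], [5, 6]), (1, [], [3, 4]), (4, [], [2]), (4, [], [1])]),
  (2, 7, [(0, [0], [0, 1]), (0, [0], [0, 1]), (0, [1], [2, 3]), (0, [1], [2, 4]), (4, [], [4]), (4, [], [3]), (1, [], [5, 6]), (1, [], [5, 6])]),
  (2, 7, [(0, [0], [0, 1]), (0, [0], [0, 1]), (0, [1], [2, 3]), (0, [1], [4, 5]), (1, [], [2, 6]), (1, [], [4, 5]), (4, [], [3]), (4, [], [6])]),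
  (2, 6, [(0, [0], [0, 1]), (0, [0], [0, 1]), (0, [1], [2, 3]), (1, [], [4, 5]), (2, [1], [2, 4, 5]), (4, [], [3])]),
  (2, 5, [(0, [0], [0, 1]), (0, [1], [0, 2]), (0, [1], [2, 3]), (0, [0], [1, 4]), (4, [], [4]), (4, [], [3])]),
  (2, 5, [(0, [0], [0, 1]), (0, [1], [0, 2]), (0, [0], [2, 3]), (0, [1], [1, 4]), (4, [], [4]), (4, [], [3])]),
  (2, 6, [(0, [0], [0, 1]), (0, [0], [2, 3]), (0, [1], [4, 5]), (1, [], [0, 1]), (2, [1], [2, 3, 4]), (4, [], [5])]),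
  (2, 6, [(0, [0], [0, 1]), (0, [0], [2, 3]), (0, [1], [4, 5]), (1, [], [0, 4]), (2, [1], [2, 3, 5]), (4, [], [1])]),
  (2, 7, [(0, [0], [0, 1]), (0, [0], [2, 3]), (0, [1], [4, 5]), (0, [1], [4, 6]), (1, [], [0, 5]), (1, [], [2, 3]), (4, [], [1]), (4, [], [6])]),
  (2, 7, [(0, [0], [0, 1]), (0, [1], [0, 2]), (0, [0], [3, 4]), (0, [1], [5, 6]), (1, [], [1, 3]), (1, [], [5, 6]), (4, [], [2]), (4, [], [4])]),
  (2, 5, [(0, [0], [0, 1]), (0, [1], [0, 2]), (2, [1], [2, 3, 4]), (2, [0], [1, 3, 4])]),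
  (2, 6, [(0, [0], [0, 1]), (0, [0], [2, 3]), (0, [1], [0, 4]), (1, [], [1, 5]), (2, [1], [2, 3, 4]), (4, [], [5])]),
  (2, 6, [(0, [0], [0, 1]), (0, [1], [0, 2]), (0, [0], [1, 3]), (1, [], [4, 5]), (2, [1], [2, 4, 5]), (4, [], [3])]),
  (2, 7, [(0, [0], [0, 1]), (0, [0], [2, 3]), (0, [1], [0, 4]), (0, [1], [4, 5]), (1, [], [1, 6]), (1, [], [2, 3]), (4, [], [5]), (4, [], [6])]),
  (2, 7, [(0, [0], [0, 1]), (0, [1], [0, 2]), (0, [1], [2, 3]), (0, [0], [1, 4]), (4, [], [4]), (4, [], [3]), (1, [], [5, 6]), (1, [], [5, 6])]),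
  (2, 7, [(0, [0], [0, 1]), (0, [1], [0, 2]), (0, [1], [1, 3]), (0, [0], [4, 5]), (1, [], [2, 6]), (1, [], [4, 5]), (4, [], [3]), (4, [], [6])]),
  (2, 6, [(0, [0], [0, 1]), (0, [0], [0, 1]), (0, [1], [2, 3]), (0, [1], [2, 4]), (1, [], [3, 5]), (4, [], [4]), (4, [], [5])]),
  (2, 6, [(0, [0], [0, 1]), (0, [0], [2, 3]), (0, [1], [0, 4]), (0, [1], [4, 5]), (1, [], [2, 3]), (4, [], [1]), (4, [], [5])]),
  (2, 6, [(0, [0], [0, 1]), (0, [0], [0, 1]), (0, [1], [2, 3]), (0, [1], [4, 5]), (1, [], [4, 5]), (4, [], [2]), (4, [], [3])]),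
  (2, 6, [(0, [0], [0, 1]), (0, [0], [0, 1]), (0, [1], [2, 3]), (0, [1], [4, 5]), (1, [], [2, 4]), (4, [], [5]), (4, [], [3])]),
  (2, 5, [(0, [0], [0, 1]), (0, [0], [2, 3]), (0, [1], [0, 4]), (2, [1], [2, 3, 4]), (4, [], [1])]),
  (2, 6, [(0, [0], [0, 1]), (0, [1], [0, 2]), (0, [1], [1, 3]), (0, [0], [4, 5]), (1, [], [4, 5]), (4, [], [3]), (4, [], [2])]),
  (2, 6, [(0, [0], [0, 1]), (0, [1], [0, 2]), (0, [1], [1, 3]), (0, [0], [4, 5]), (1, [], [2, 4]), (4, [], [3]), (4, [], [5])]),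
  (2, 6, [(0, [0], [0, 1]), (0, [0], [2, 3]), (0, [1], [0, 4]), (0, [1], [4, 5]), (1, [], [2, 5]), (4, [], [1]), (4, [], [3])]),
  (2, 6, [(0, [0], [0, 1]), (0, [1], [2, 3]), (0, [0], [2, 4]), (0, [1], [0, 5]), (1, [], [1, 3]), (4, [], [5]), (4, [], [4])]),
  (2, 6, [(0, [0], [0, 1]), (0, [0], [2, 3]), (0, [1], [2, 4]), (0, [1], [0, 5]), (1, [], [1, 3]), (4, [], [5]), (4, [], [4])]),
  (2, 6, [(0, [0], [0, 1]), (0, [1], [0, 2]), (0, [0], [2, 3]), (0, [1], [1, 4]), (1, [], [3, 5]), (4, [], [4]), (4, [], [5])]),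
  (2, 6, [(0, [0], [0, 1]), (0, [0], [2, 3]), (0, [1], [0, 4]), (0, [1], [4, 5]), (1, [], [1, 2]), (4, [], [3]), (4, [], [5])]),
  (2, 6, [(0, [0], [0, 1]), (0, [0], [2, 3]), (0, [1], [0, 4]), (0, [1], [2, 4]), (1, [], [1, 5]), (4, [], [3]), (4, [], [5])]),
  (2, 5, [(0, [0], [0, 1]), (0, [0], [2, 3]), (0, [1], [2, 4]), (0, [1], [0, 4]), (4, [], [3]), (4, [], [1])]),
  (2, 7, [(0, [0], [0, 1]), (0, [0], [0, 2]), (0, [1], [1, 2]), (4, [], [3]), (0, [1], [4, 5]), (1, [], [4, 6]), (1, [], [3, 6]), (4, [], [5])]),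
  (2, 7, [(0, [0], [0, 1]), (0, [0], [0, 2]), (0, [1], [1, 2]), (4, [], [3]), (0, [1], [4, 5]), (1, [], [4, 6]), (1, [], [3, 5]), (4, [], [6])]),
  (2, 7, [(0, [0], [0, 1]), (0, [0], [0, 2]), (0, [1], [1, 2]), (4, [], [3]), (0, [1], [4, 5]), (1, [], [4, 5]), (1, [], [3, 6]), (4, [], [6])]),
  (2, 6, [(0, [0], [0, 1]), (0, [0], [0, 2]), (0, [1], [1, 2]), (4, [], [3]), (0, [1], [4, 5]), (1, [], [4, 5]), (4, [], [3])]),
  (2, 6, [(0, [0], [0, 1]), (0, [0], [0, 2]), (0, [1], [1, 2]), (4, [], [3]), (0, [1], [4, 5]), (1, [], [3, 4]), (4, [], [5])]),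
  (2, 5, [(0, [0], [0, 1]), (0, [0], [0, 2]), (0, [1], [1, 2]), (4, [], [3]), (0, [1], [3, 4]), (4, [], [4])]),
  (2, 7, [(0, [0], [0, 1]), (0, [0], [0, 2]), (0, [1], [3, 2]), (4, [], [1]), (0, [1], [4, 5]), (1, [], [4, 6]), (1, [], [5, 6]), (4, [], [3])]),
  (2, 7, [(0, [0], [0, 1]), (0, [0], [0, 2]), (0, [1], [3, 2]), (4, [], [1]), (0, [1], [4, 5]), (1, [], [4, 6]), (1, [], [3, 6]), (4, [], [5])]),
  (2, 7, [(0, [0], [0, 1]), (0, [0], [0, 2]), (0, [1], [3, 2]), (4, [], [1]), (0, [1], [4, 5]), (1, [], [4, 6]), (1, [], [3, 5]), (4, [], [6])]),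
  (2, 7, [(0, [0], [0, 1]), (0, [0], [0, 2]), (0, [1], [3, 2]), (4, [], [1]), (0, [1], [3, 4]), (1, [], [5, 6]), (1, [], [4, 5]), (4, [], [6])]),
  (2, 6, [(0, [0], [0, 1]), (0, [0], [0, 2]), (0, [1], [3, 2]), (4, [], [1]), (0, [1], [3, 4]), (1, [], [4, 5]), (4, [], [5])]),
  (2, 7, [(0, [0], [0, 1]), (0, [0], [0, 1]), (0, [1], [2, 3]), (4, [], [3]), (0, [1], [4, 5]), (1, [], [4, 6]), (1, [], [5, 6]), (4, [], [2])]),
  (2, 7, [(0, [0], [0, 1]), (0, [0], [0, 1]), (0, [1], [2, 3]), (4, [], [3]), (0, [1], [4, 5]), (1, [], [4, 6]), (1, [], [2, 6]), (4, [], [5])]),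
  (2, 7, [(0, [0], [0, 1]), (0, [0], [0, 1]), (0, [1], [2, 3]), (4, [], [3]), (0, [1], [4, 5]), (1, [], [4, 6]), (1, [], [2, 5]), (4, [], [6])]),
  (2, 7, [(0, [0], [0, 1]), (0, [0], [0, 1]), (0, [1], [2, 3]), (4, [], [3]), (0, [1], [2, 4]), (1, [], [5, 6]), (1, [], [4, 5]), (4, [], [6])]),
  (2, 7, [(0, [0], [0, 1]), (0, [0], [2, 3]), (0, [1], [0, 3]), (4, [], [1]), (0, [1], [4, 5]), (1, [], [4, 6]), (1, [], [2, 6]), (4, [], [5])]),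
  (2, 7, [(0, [0], [0, 1]), (0, [0], [2, 3]), (0, [1], [0, 3]), (4, [], [1]), (0, [1], [4, 5]), (1, [], [4, 6]), (1, [], [2, 5]), (4, [], [6])]),
  (2, 7, [(0, [0], [0, 1]), (0, [0], [2, 3]), (0, [1], [0, 1]), (4, [], [3]), (0, [1], [4, 5]), (1, [], [4, 6]), (1, [], [2, 6]), (4, [], [5])]),
  (2, 7, [(0, [0], [0, 1]), (0, [0], [2, 3]), (0, [1], [0, 1]), (4, [], [3]), (0, [1], [4, 5]), (1, [], [4, 6]), (1, [], [2, 5]), (4, [], [6])]),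
  (2, 7, [(0, [0], [0, 1]), (0, [0], [2, 3]), (0, [1], [0, 1]), (4, [], [3]), (0, [1], [4, 5]), (1, [], [4, 5]), (1, [], [2, 6]), (4, [], [6])]),
  (2, 6, [(0, [0], [0, 1]), (0, [0], [2, 3]), (0, [1], [0, 1]), (4, [], [3]), (0, [1], [4, 5]), (1, [], [4, 5]), (4, [], [2])]),
  (2, 6, [(0, [0], [0, 1]), (0, [0], [2, 3]), (0, [1], [0, 1]), (4, [], [3]), (0, [1], [4, 5]), (1, [], [2, 4]), (4, [], [5])]),
  (2, 6, [(0, [0], [0, 1]), (0, [0], [2, 3]), (0, [1], [0, 1]), (4, [], [3]), (0, [1], [2, 4]), (1, [], [4, 5]), (4, [], [5])]),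
  (2, 7, [(0, [0], [0, 1]), (0, [0], [2, 0]), (0, [1], [1, 3]), (4, [], [3]), (0, [1], [4, 5]), (1, [], [4, 6]), (1, [], [2, 6]), (4, [], [5])]),
  (2, 7, [(0, [0], [0, 1]), (0, [0], [2, 0]), (0, [1], [1, 3]), (4, [], [3]), (0, [1], [4, 5]), (1, [], [4, 6]), (1, [], [2, 5]), (4, [], [6])]),
  (2, 7, [(0, [0], [0, 1]), (0, [0], [2, 0]), (0, [1], [1, 3]), (4, [], [3]), (0, [1], [4, 5]), (1, [], [4, 5]), (1, [], [2, 6]), (4, [], [6])]),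
  (2, 7, [(0, [0], [0, 1]), (0, [0], [2, 0]), (0, [1], [1, 3]), (4, [], [3]), (0, [1], [2, 4]), (1, [], [5, 6]), (1, [], [4, 5]), (4, [], [6])]),
  (2, 7, [(0, [0], [0, 1]), (0, [0], [0, 1]), (0, [1], [2, 3]), (4, [], [4]), (0, [1], [5, 6]), (1, [], [5, 6]), (1, [], [2, 3]), (4, [], [4])]),
  (2, 7, [(0, [0], [0, 1]), (0, [0], [0, 1]), (0, [1], [2, 3]), (4, [], [4]), (0, [1], [5, 6]), (1, [], [2, 5]), (1, [], [3, 6]), (4, [], [4])]),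
  (2, 7, [(0, [0], [0, 1]), (0, [0], [0, 1]), (0, [1], [2, 3]), (4, [], [4]), (0, [1], [2, 5]), (1, [], [5, 6]), (1, [], [3, 6]), (4, [], [4])]),
  (2, 7, [(0, [0], [0, 1]), (0, [0], [0, 1]), (0, [1], [2, 3]), (4, [], [4]), (0, [1], [2, 5]), (1, [], [5, 6]), (1, [], [3, 4]), (4, [], [6])]),
  (2, 7, [(0, [0], [0, 1]), (0, [0], [0, 1]), (0, [1], [2, 3]), (4, [], [4]), (0, [1], [2, 5]), (1, [], [4, 6]), (1, [], [3, 5]), (4, [], [6])]),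
  (2, 6, [(0, [0], [0, 1]), (0, [0], [0, 1]), (0, [1], [2, 3]), (4, [], [4]), (0, [1], [2, 5]), (1, [], [3, 5]), (4, [], [4])]),
  (2, 7, [(0, [0], [0, 1]), (0, [0], [0, 1]), (0, [1], [2, 3]), (4, [], [4]), (0, [1], [2, 3]), (1, [], [5, 6]), (1, [], [5, 6]), (4, [], [4])]),
  (2, 6, [(0, [0], [0, 1]), (0, [0], [0, 1]), (0, [1], [2, 3]), (4, [], [4]), (1, [], [2, 5]), (2, [1], [3, 4, 5])]),
  (2, 7, [(0, [0], [0, 1]), (0, [0], [2, 0]), (0, [1], [3, 1]), (4, [], [4]), (0, [1], [5, 6]), (1, [], [5, 6]), (1, [], [2, 3]), (4, [], [4])]),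
  (2, 7, [(0, [0], [0, 1]), (0, [0], [2, 0]), (0, [1], [3, 1]), (4, [], [4]), (0, [1], [5, 6]), (1, [], [2, 5]), (1, [], [3, 6]), (4, [], [4])]),
  (2, 7, [(0, [0], [0, 1]), (0, [0], [2, 0]), (0, [1], [3, 1]), (4, [], [4]), (0, [1], [5, 6]), (1, [], [2, 5]), (1, [], [3, 4]), (4, [], [6])]),
  (2, 7, [(0, [0], [0, 1]), (0, [0], [2, 0]), (0, [1], [3, 1]), (4, [], [4]), (0, [1], [5, 6]), (1, [], [3, 5]), (1, [], [2, 4]), (4, [], [6])]),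
  (2, 7, [(0, [0], [0, 1]), (0, [0], [2, 0]), (0, [1], [3, 1]), (4, [], [4]), (0, [1], [5, 6]), (1, [], [4, 5]), (1, [], [2, 3]), (4, [], [6])]),
  (2, 7, [(0, [0], [0, 1]), (0, [0], [2, 0]), (0, [1], [3, 1]), (4, [], [4]), (0, [1], [3, 5]), (1, [], [5, 6]), (1, [], [2, 6]), (4, [], [4])]),
  (2, 7, [(0, [0], [0, 1]), (0, [0], [2, 0]), (0, [1], [3, 1]), (4, [], [4]), (0, [1], [2, 5]), (1, [], [5, 6]), (1, [], [3, 4]), (4, [], [6])]),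
  (2, 7, [(0, [0], [0, 1]), (0, [0], [2, 0]), (0, [1], [3, 1]), (4, [], [4]), (0, [1], [3, 5]), (1, [], [5, 6]), (1, [], [2, 4]), (4, [], [6])]),
  (2, 7, [(0, [0], [0, 1]), (0, [0], [2, 0]), (0, [1], [3, 1]), (4, [], [4]), (0, [1], [4, 5]), (1, [], [2, 6]), (1, [], [3, 6]), (4, [], [5])]),
  (2, 7, [(0, [0], [0, 1]), (0, [0], [2, 0]), (0, [1], [3, 1]), (4, [], [4]), (0, [1], [2, 5]), (1, [], [4, 6]), (1, [], [3, 5]), (4, [], [6])]),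
  (2, 7, [(0, [0], [0, 1]), (0, [0], [2, 0]), (0, [1], [3, 1]), (4, [], [4]), (0, [1], [3, 5]), (1, [], [4, 6]), (1, [], [2, 5]), (4, [], [6])]),
  (2, 6, [(0, [0], [0, 1]), (0, [0], [2, 0]), (0, [1], [3, 1]), (4, [], [4]), (0, [1], [2, 5]), (1, [], [3, 5]), (4, [], [4])]),
  (2, 6, [(0, [0], [0, 1]), (0, [0], [2, 0]), (0, [1], [3, 1]), (4, [], [4]), (0, [1], [3, 5]), (1, [], [2, 5]), (4, [], [4])]),
  (2, 6, [(0, [0], [0, 1]), (0, [0], [2, 0]), (0, [1], [3, 1]), (4, [], [4]), (0, [1], [4, 5]), (1, [], [2, 3]), (4, [], [5])]),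
  (2, 7, [(0, [0], [0, 1]), (0, [0], [2, 0]), (0, [1], [3, 1]), (4, [], [4]), (0, [1], [2, 3]), (1, [], [5, 6]), (1, [], [4, 5]), (4, [], [6])]),
  (2, 6, [(0, [0], [0, 1]), (0, [0], [2, 0]), (0, [1], [3, 1]), (4, [], [4]), (0, [1], [2, 3]), (1, [], [4, 5]), (4, [], [5])]),
  (2, 5, [(0, [0], [0, 1]), (0, [0], [2, 0]), (0, [1], [3, 1]), (4, [], [4]), (0, [1], [2, 3]), (4, [], [4])]),
  (2, 6, [(0, [0], [0, 1]), (0, [0], [2, 0]), (0, [1], [3, 1]), (4, [], [4]), (1, [], [2, 5]), (2, [1], [3, 4, 5])]),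
  (2, 6, [(0, [0], [0, 1]), (0, [0], [2, 0]), (0, [1], [3, 1]), (4, [], [4]), (1, [], [4, 5]), (2, [1], [2, 3, 5])]),
  (2, 5, [(0, [0], [0, 1]), (0, [0], [2, 0]), (0, [1], [3, 1]), (4, [], [4]), (2, [1], [2, 3, 4])]),
  (2, 7, [(0, [0], [0, 1]), (0, [0], [2, 0]), (0, [1], [3, 4]), (4, [], [1]), (0, [1], [5, 6]), (1, [], [5, 6]), (1, [], [3, 4]), (4, [], [2])]),
  (2, 7, [(0, [0], [0, 1]), (0, [0], [2, 0]), (0, [1], [3, 4]), (4, [], [1]), (0, [1], [5, 6]), (1, [], [2, 5]), (1, [], [3, 6]), (4, [], [4])]),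
  (2, 7, [(0, [0], [0, 1]), (0, [0], [2, 0]), (0, [1], [3, 4]), (4, [], [1]), (0, [1], [5, 6]), (1, [], [3, 5]), (1, [], [4, 6]), (4, [], [2])]),
  (2, 7, [(0, [0], [0, 1]), (0, [0], [2, 0]), (0, [1], [3, 4]), (4, [], [1]), (0, [1], [3, 5]), (1, [], [5, 6]), (1, [], [2, 6]), (4, [], [4])]),
  (2, 7, [(0, [0], [0, 1]), (0, [0], [2, 0]), (0, [1], [3, 4]), (4, [], [1]), (0, [1], [3, 5]), (1, [], [5, 6]), (1, [], [4, 6]), (4, [], [2])]),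
  (2, 7, [(0, [0], [0, 1]), (0, [0], [2, 0]), (0, [1], [3, 4]), (4, [], [1]), (0, [1], [3, 5]), (1, [], [5, 6]), (1, [], [2, 4]), (4, [], [6])]),
  (2, 7, [(0, [0], [0, 1]), (0, [0], [2, 0]), (0, [1], [3, 4]), (4, [], [1]), (0, [1], [3, 5]), (1, [], [2, 6]), (1, [], [4, 5]), (4, [], [6])]),
  (2, 6, [(0, [0], [0, 1]), (0, [0], [2, 0]), (0, [1], [3, 4]), (4, [], [1]), (0, [1], [3, 5]), (1, [], [2, 5]), (4, [], [4])]),
  (2, 6, [(0, [0], [0, 1]), (0, [0], [2, 0]), (0, [1], [3, 4]), (4, [], [1]), (0, [1], [3, 5]), (1, [], [4, 5]), (4, [], [2])]),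
  (2, 6, [(0, [0], [0, 1]), (0, [0], [2, 0]), (0, [1], [3, 4]), (4, [], [1]), (1, [], [3, 5]), (2, [1], [2, 4, 5])]),
  (2, 7, [(0, [0], [0, 1]), (0, [0], [2, 3]), (0, [1], [0, 1]), (4, [], [4]), (0, [1], [5, 6]), (1, [], [5, 6]), (1, [], [2, 3]), (4, [], [4])]),
  (2, 7, [(0, [0], [0, 1]), (0, [0], [2, 3]), (0, [1], [0, 1]), (4, [], [4]), (0, [1], [2, 5]), (1, [], [5, 6]), (1, [], [3, 4]), (4, [], [6])]),
  (2, 7, [(0, [0], [0, 1]), (0, [0], [2, 3]), (0, [1], [4, 0]), (4, [], [1]), (0, [1], [5, 6]), (1, [], [5, 6]), (1, [], [2, 4]), (4, [], [3])]),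
  (2, 7, [(0, [0], [0, 1]), (0, [0], [2, 3]), (0, [1], [4, 0]), (4, [], [1]), (0, [1], [5, 6]), (1, [], [2, 5]), (1, [], [3, 6]), (4, [], [4])]),
  (2, 7, [(0, [0], [0, 1]), (0, [0], [2, 3]), (0, [1], [4, 0]), (4, [], [1]), (0, [1], [5, 6]), (1, [], [2, 5]), (1, [], [4, 6]), (4, [], [3])]),
  (2, 7, [(0, [0], [0, 1]), (0, [0], [2, 3]), (0, [1], [4, 0]), (4, [], [1]), (0, [1], [5, 6]), (1, [], [2, 5]), (1, [], [3, 4]), (4, [], [6])]),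
  (2, 7, [(0, [0], [0, 1]), (0, [0], [2, 3]), (0, [1], [4, 0]), (4, [], [1]), (0, [1], [2, 5]), (1, [], [5, 6]), (1, [], [3, 6]), (4, [], [4])]),
  (2, 7, [(0, [0], [0, 1]), (0, [0], [2, 3]), (0, [1], [4, 0]), (4, [], [1]), (0, [1], [2, 5]), (1, [], [5, 6]), (1, [], [3, 4]), (4, [], [6])]),
  (2, 7, [(0, [0], [0, 1]), (0, [0], [2, 3]), (0, [1], [4, 0]), (4, [], [1]), (0, [1], [2, 5]), (1, [], [3, 6]), (1, [], [4, 6]), (4, [], [5])]),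
  (2, 7, [(0, [0], [0, 1]), (0, [0], [2, 3]), (0, [1], [4, 0]), (4, [], [1]), (0, [1], [2, 5]), (1, [], [3, 6]), (1, [], [4, 5]), (4, [], [6])]),
  (2, 7, [(0, [0], [0, 1]), (0, [0], [2, 3]), (0, [1], [4, 0]), (4, [], [1]), (0, [1], [2, 5]), (1, [], [4, 6]), (1, [], [3, 5]), (4, [], [6])]),
  (2, 6, [(0, [0], [0, 1]), (0, [0], [2, 3]), (0, [1], [4, 0]), (4, [], [1]), (0, [1], [2, 5]), (1, [], [3, 5]), (4, [], [4])]),
  (2, 6, [(0, [0], [0, 1]), (0, [0], [2, 3]), (0, [1], [4, 0]), (4, [], [1]), (1, [], [2, 5]), (2, [1], [3, 4, 5])]),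
  (2, 7, [(0, [0], [0, 1]), (0, [0], [2, 3]), (0, [1], [1, 3]), (4, [], [4]), (0, [1], [5, 6]), (1, [], [5, 6]), (1, [], [0, 2]), (4, [], [4])]),
  (2, 7, [(0, [0], [0, 1]), (0, [0], [2, 3]), (0, [1], [1, 3]), (4, [], [4]), (0, [1], [5, 6]), (1, [], [0, 5]), (1, [], [2, 4]), (4, [], [6])]),
  (2, 7, [(0, [0], [0, 1]), (0, [0], [2, 3]), (0, [1], [1, 3]), (4, [], [4]), (0, [1], [5, 6]), (1, [], [4, 5]), (1, [], [0, 2]), (4, [], [6])]),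
  (2, 7, [(0, [0], [0, 1]), (0, [0], [2, 3]), (0, [1], [1, 3]), (4, [], [4]), (0, [1], [0, 5]), (1, [], [5, 6]), (1, [], [2, 4]), (4, [], [6])]),
  (2, 6, [(0, [0], [0, 1]), (0, [0], [2, 3]), (0, [1], [1, 3]), (4, [], [4]), (0, [1], [4, 5]), (1, [], [0, 2]), (4, [], [5])]),
  (2, 7, [(0, [0], [0, 1]), (0, [0], [2, 3]), (0, [1], [4, 3]), (4, [], [1]), (0, [1], [5, 6]), (1, [], [5, 6]), (1, [], [2, 4]), (4, [], [0])]),
  (2, 7, [(0, [0], [0, 1]), (0, [0], [2, 3]), (0, [1], [4, 3]), (4, [], [1]), (0, [1], [5, 6]), (1, [], [2, 5]), (1, [], [4, 6]), (4, [], [0])]),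
  (2, 7, [(0, [0], [0, 1]), (0, [0], [2, 3]), (0, [1], [4, 3]), (4, [], [1]), (0, [1], [5, 6]), (1, [], [0, 5]), (1, [], [2, 4]), (4, [], [6])]),
  (2, 7, [(0, [0], [0, 1]), (0, [0], [2, 3]), (0, [1], [4, 3]), (4, [], [1]), (0, [1], [5, 6]), (1, [], [2, 5]), (1, [], [0, 4]), (4, [], [6])]),
  (2, 7, [(0, [0], [0, 1]), (0, [0], [2, 3]), (0, [1], [4, 3]), (4, [], [1]), (0, [1], [5, 6]), (1, [], [4, 5]), (1, [], [0, 2]), (4, [], [6])]),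
  (2, 6, [(0, [0], [0, 1]), (0, [0], [2, 3]), (0, [1], [4, 3]), (4, [], [1]), (1, [], [0, 5]), (2, [1], [2, 4, 5])]),
  (2, 6, [(0, [0], [0, 1]), (0, [0], [2, 3]), (0, [1], [4, 3]), (4, [], [1]), (1, [], [2, 5]), (2, [1], [0, 4, 5])]),
  (2, 5, [(0, [0], [0, 1]), (0, [0], [2, 3]), (0, [1], [4, 3]), (4, [], [1]), (2, [1], [0, 2, 4])]),
  (2, 7, [(0, [0], [0, 1]), (0, [0], [2, 1]), (0, [1], [3, 4]), (4, [], [4]), (0, [1], [5, 6]), (1, [], [0, 5]), (1, [], [2, 6]), (4, [], [3])]),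
  (2, 7, [(0, [0], [0, 1]), (0, [0], [2, 1]), (0, [1], [3, 4]), (4, [], [4]), (0, [1], [5, 6]), (1, [], [0, 5]), (1, [], [2, 3]), (4, [], [6])]),
  (2, 6, [(0, [0], [0, 1]), (0, [0], [2, 1]), (0, [1], [3, 4]), (4, [], [4]), (1, [], [0, 5]), (2, [1], [2, 3, 5])]),
  (2, 5, [(0, [0], [0, 1]), (0, [0], [2, 1]), (0, [1], [3, 4]), (4, [], [4]), (2, [1], [0, 2, 3])]),
  (2, 7, [(0, [0], [0, 1]), (0, [0], [2, 1]), (0, [1], [3, 4]), (4, [], [5]), (0, [1], [3, 6]), (1, [], [0, 6]), (1, [], [2, 4]), (4, [], [5])]),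
  (2, 6, [(0, [0], [0, 1]), (0, [0], [2, 1]), (0, [1], [3, 4]), (4, [], [5]), (1, [], [0, 3]), (2, [1], [2, 4, 5])]),
  (2, 6, [(0, [0], [0, 1]), (0, [0], [2, 1]), (0, [1], [3, 4]), (4, [], [5]), (1, [], [3, 5]), (2, [1], [0, 2, 4])]),
  (2, 7, [(0, [0], [0, 1]), (0, [0], [2, 3]), (0, [1], [4, 1]), (4, [], [5]), (0, [1], [2, 6]), (1, [], [4, 6]), (1, [], [0, 3]), (4, [], [5])]),
  (2, 6, [(0, [0], [0, 1]), (0, [0], [2, 3]), (0, [1], [4, 1]), (4, [], [5]), (1, [], [0, 2]), (2, [1], [3, 4, 5])]),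
  (2, 6, [(0, [0], [0, 1]), (0, [0], [2, 3]), (0, [1], [4, 1]), (4, [], [5]), (1, [], [2, 3]), (2, [1], [0, 4, 5])]),
  (2, 6, [(0, [0], [0, 1]), (0, [0], [2, 3]), (0, [1], [4, 1]), (4, [], [5]), (1, [], [2, 5]), (2, [1], [0, 3, 4])]),
  (2, 6, [(0, [0], [0, 1]), (0, [0], [2, 3]), (0, [1], [4, 5]), (4, [], [1]), (1, [], [2, 4]), (2, [1], [0, 3, 5])]),
  (2, 6, [(0, [0], [0, 1]), (0, [0], [2, 3]), (0, [1], [4, 5]), (4, [], [5]), (1, [], [0, 2]), (2, [1], [1, 3, 4])]),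
  (2, 5, [(0, [0], [0, 1]), (2, [0], [2, 3, 1]), (0, [1], [2, 4]), (2, [1], [0, 3, 4])])]

def kl39 : List ℕ := [6, 9, 10, 12, 22, 30, 33, 34, 38, 41, 42, 45, 47, 48, 49, 50, 51, 55, 64, 75, 76, 78, 82, 83, 84, 85, 86, 87, 88, 89, 90, 93, 100, 101, 102, 103, 104, 107, 113, 114, 115, 117, 118, 121, 122, 123, 124, 128, 129, 135, 136, 137, 138, 139, 142, 145, 146, 147, 150, 207, 208, 209, 210, 211, 212, 214, 215, 226, 227, 228, 229, 230, 232, 233, 234, 235, 236, 237, 238, 239, 240, 245, 246, 247, 248, 250, 251, 254, 255, 256, 257, 258, 259, 260, 261, 262, 265, 270, 273, 289, 290, 291, 292, 293, 295, 296, 297, 298, 299, 301, 304, 306, 307, 309, 313, 323, 324, 325, 326, 327, 328, 329, 331, 333, 334, 336, 338, 422, 425, 428, 433, 434, 436, 438, 440, 441, 447]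

def m39_0 : Base := (1, 2, [(0, [0], [3, 4]), (0, [0], [3, 4]), (1, [], [0, 1]), (4, [], [2])])

def l39_0 : Cov := [(6, 1, 2, [(0, [0], [3, 4]), (0, [0], [3, 4]), (1, [], [0, 1]), (4, [], [2])]),
  (-6, 1, 2, [(0, [0], [3, 4]), (0, [0], [3, 4]), (1, [], [1, 2]), (4, [], [0])])]

def z39_0 : Cov := [(0, 1, 2, [(0, [0], [3, 4]), (0, [0], [3, 4]), (1, [], [0, 2]), (4, [], [1])])]

def w39_0 : List (List Wit) := [[(0, 0, 0, 16, 16), (2, 0, 0, 16, 16), (0, 0, 0, 16, 16), (1, 0, 0, 16, 16), (2, 0, 0, 16, 16), (1, 0, 0, 16, 16)]]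

def m39_1 : Base := (1, 2, [(0, [0], [3, 4]), (0, [0], [0, 3]), (1, [], [1, 4]), (4, [], [2])])

def l39_1 : Cov := [(4, 1, 2, [(0, [0], [3, 4]), (0, [0], [0, 3]), (1, [], [1, 4]), (4, [], [2])]),
  (2, 1, 2, [(0, [0], [3, 4]), (0, [0], [0, 3]), (1, [], [2, 4]), (4, [], [1])]),
  (2, 1, 2, [(0, [0], [3, 4]), (0, [0], [1, 3]), (1, [], [0, 4]), (4, [], [2])]),
  (-2, 1, 2, [(0, [0], [3, 4]), (0, [0], [1, 3]), (1, [], [2, 4]), (4, [], [0])]),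
  (-2, 1, 2, [(0, [0], [3, 4]), (0, [0], [2, 3]), (1, [], [0, 4]), (4, [], [1])]),
  (-4, 1, 2, [(0, [0], [3, 4]), (0, [0], [2, 3]), (1, [], [1, 4]), (4, [], [0])])]

def z39_1 : Cov := []

def w39_1 : List (List Wit) := [[(0, 0, 0, 16, 16), (1, 0, 0, 16, 16), (2, 0, 0, 16, 16), (3, 0, 0, 16, 16), (4, 0, 0, 16, 16), (5, 0, 0, 16, 16)]]

def m39_2 : Base := (1, 2, [(0, [0], [3, 4]), (0, [0], [0, 3]), (1, [], [1, 2]), (4, [], [4])])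

def l39_2 : Cov := [(6, 1, 2, [(0, [0], [3, 4]), (0, [0], [0, 3]), (1, [], [1, 2]), (4, [], [4])]),
  (-6, 1, 2, [(0, [0], [3, 4]), (0, [0], [2, 3]), (1, [], [0, 1]), (4, [], [4])])]

def z39_2 : Cov := [(0, 1, 2, [(0, [0], [3, 4]), (0, [0], [1, 3]), (1, [], [0, 2]), (4, [], [4])])]

def w39_2 : List (List Wit) := [[(0, 0, 0, 16, 16), (0, 0, 0, 16, 16), (2, 0, 0, 16, 16), (2, 0, 0, 16, 16), (1, 0, 0, 16, 16), (1, 0, 0, 16, 16)]]

def m39_3 : Base := (1, 2, [(0, [0], [3, 4]), (0, [0], [0, 3]), (1, [], [2, 4]), (4, [], [1])])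

def l39_3 : Cov := [(4, 1, 2, [(0, [0], [3, 4]), (0, [0], [0, 3]), (1, [], [2, 4]), (4, [], [1])]),
  (2, 1, 2, [(0, [0], [3, 4]), (0, [0], [0, 3]), (1, [], [1, 4]), (4, [], [2])]),
  (2, 1, 2, [(0, [0], [3, 4]), (0, [0], [1, 3]), (1, [], [2, 4]), (4, [], [0])]),
  (-2, 1, 2, [(0, [0], [3, 4]), (0, [0], [1, 3]), (1, [], [0, 4]), (4, [], [2])]),
  (-2, 1, 2, [(0, [0], [3, 4]), (0, [0], [2, 3]), (1, [], [1, 4]), (4, [], [0])]),
  (-4, 1, 2, [(0, [0], [3, 4]), (0, [0], [2, 3]), (1, [], [0, 4]), (4, [], [1])])]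

def z39_3 : Cov := []

def w39_3 : List (List Wit) := [[(0, 0, 0, 16, 16), (1, 0, 0, 16, 16), (2, 0, 0, 16, 16), (3, 0, 0, 16, 16), (4, 0, 0, 16, 16), (5, 0, 0, 16, 16)]]

def m39_4 : Base := (1, 2, [(0, [0], [3, 4]), (0, [0], [0, 1]), (1, [], [3, 4]), (4, [], [2])])

def l39_4 : Cov := [(6, 1, 2, [(0, [0], [3, 4]), (0, [0], [0, 1]), (1, [], [3, 4]), (4, [], [2])]),
  (-6, 1, 2, [(0, [0], [3, 4]), (0, [0], [1, 2]), (1, [], [3, 4]), (4, [], [0])])]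

def z39_4 : Cov := [(0, 1, 2, [(0, [0], [3, 4]), (0, [0], [0, 2]), (1, [], [3, 4]), (4, [], [1])])]

def w39_4 : List (List Wit) := [[(0, 0, 0, 16, 16), (2, 0, 0, 16, 16), (0, 0, 0, 16, 16), (1, 0, 0, 16, 16), (2, 0, 0, 16, 16), (1, 0, 0, 16, 16)]]

def m39_5 : Base := (1, 2, [(0, [0], [3, 4]), (0, [0], [0, 1]), (1, [], [2, 3]), (4, [], [4])])

def l39_5 : Cov := [(6, 1, 2, [(0, [0], [3, 4]), (0, [0], [0, 1]), (1, [], [2, 3]), (4, [], [4])]),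
  (-6, 1, 2, [(0, [0], [3, 4]), (0, [0], [1, 2]), (1, [], [0, 3]), (4, [], [4])])]

def z39_5 : Cov := [(0, 1, 2, [(0, [0], [3, 4]), (0, [0], [0, 2]), (1, [], [1, 3]), (4, [], [4])])]

def w39_5 : List (List Wit) := [[(0, 0, 0, 16, 16), (2, 0, 0, 16, 16), (0, 0, 0, 16, 16), (1, 0, 0, 16, 16), (2, 0, 0, 16, 16), (1, 0, 0, 16, 16)]]

def m39_6 : Base := (1, 2, [(0, [0], [0, 3]), (0, [0], [1, 4]), (1, [], [3, 4]), (4, [], [2])])

def l39_6 : Cov := [(6, 1, 2, [(0, [0], [0, 3]), (0, [0], [1, 4]), (1, [], [3, 4]), (4, [], [2])]),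
  (-6, 1, 2, [(0, [0], [1, 3]), (0, [0], [2, 4]), (1, [], [3, 4]), (4, [], [0])])]

def z39_6 : Cov := [(0, 1, 2, [(0, [0], [0, 3]), (0, [0], [2, 4]), (1, [], [3, 4]), (4, [], [1])])]

def w39_6 : List (List Wit) := [[(0, 0, 0, 16, 16), (2, 0, 0, 16, 16), (0, 0, 0, 1, 1), (1, 0, 0, 16, 16), (2, 0, 0, 1, 1), (1, 0, 0, 1, 1)]]

def m39_7 : Base := (1, 2, [(0, [0], [0, 3]), (0, [0], [1, 4]), (1, [], [2, 4]), (4, [], [3])])

def l39_7 : Cov := [(4, 1, 2, [(0, [0], [0, 3]), (0, [0], [1, 4]), (1, [], [2, 4]), (4, [], [3])]),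
  (2, 1, 2, [(0, [0], [0, 3]), (0, [0], [2, 4]), (1, [], [1, 4]), (4, [], [3])]),
  (2, 1, 2, [(0, [0], [1, 3]), (0, [0], [0, 4]), (1, [], [2, 4]), (4, [], [3])]),
  (-2, 1, 2, [(0, [0], [1, 3]), (0, [0], [2, 4]), (1, [], [0, 4]), (4, [], [3])]),
  (-2, 1, 2, [(0, [0], [2, 3]), (0, [0], [0, 4]), (1, [], [1, 4]), (4, [], [3])]),
  (-4, 1, 2, [(0, [0], [2, 3]), (0, [0], [1, 4]), (1, [], [0, 4]), (4, [], [3])])]

def z39_7 : Cov := []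

def w39_7 : List (List Wit) := [[(0, 0, 0, 16, 16), (1, 0, 0, 16, 16), (2, 0, 0, 16, 16), (3, 0, 0, 16, 16), (4, 0, 0, 16, 16), (5, 0, 0, 16, 16)]]

def m39_8 : Base := (1, 2, [(0, [0], [0, 3]), (0, [0], [1, 4]), (1, [], [2, 3]), (4, [], [4])])

def l39_8 : Cov := [(4, 1, 2, [(0, [0], [0, 3]), (0, [0], [1, 4]), (1, [], [2, 3]), (4, [], [4])]),
  (2, 1, 2, [(0, [0], [0, 3]), (0, [0], [2, 4]), (1, [], [1, 3]), (4, [], [4])]),
  (2, 1, 2, [(0, [0], [1, 3]), (0, [0], [0, 4]), (1, [], [2, 3]), (4, [], [4])]),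
  (-2, 1, 2, [(0, [0], [1, 3]), (0, [0], [2, 4]), (1, [], [0, 3]), (4, [], [4])]),
  (-2, 1, 2, [(0, [0], [2, 3]), (0, [0], [0, 4]), (1, [], [1, 3]), (4, [], [4])]),
  (-4, 1, 2, [(0, [0], [2, 3]), (0, [0], [1, 4]), (1, [], [0, 3]), (4, [], [4])])]

def z39_8 : Cov := []

def w39_8 : List (List Wit) := [[(0, 0, 0, 16, 16), (1, 0, 0, 16, 16), (2, 0, 0, 16, 16), (3, 0, 0, 16, 16), (4, 0, 0, 16, 16), (5, 0, 0, 16, 16)]]

def m39_9 : Base := (1, 2, [(0, [0], [0, 3]), (0, [0], [1, 3]), (1, [], [2, 4]), (4, [], [4])])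

def l39_9 : Cov := [(6, 1, 2, [(0, [0], [0, 3]), (0, [0], [1, 3]), (1, [], [2, 4]), (4, [], [4])]),
  (-6, 1, 2, [(0, [0], [1, 3]), (0, [0], [2, 3]), (1, [], [0, 4]), (4, [], [4])])]

def z39_9 : Cov := [(0, 1, 2, [(0, [0], [0, 3]), (0, [0], [2, 3]), (1, [], [1, 4]), (4, [], [4])])]

def w39_9 : List (List Wit) := [[(0, 0, 0, 16, 16), (2, 0, 0, 16, 16), (0, 0, 0, 16, 16), (1, 0, 0, 16, 16), (2, 0, 0, 16, 16), (1, 0, 0, 16, 16)]]

def m39_10 : Base := (1, 1, [(0, [0], [0, 3]), (0, [0], [1, 3]), (4, [], [2])])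

def l39_10 : Cov := [(6, 1, 1, [(0, [0], [0, 3]), (0, [0], [1, 3]), (4, [], [2])]),
  (-6, 1, 1, [(0, [0], [1, 3]), (0, [0], [2, 3]), (4, [], [0])])]

def z39_10 : Cov := [(0, 1, 1, [(0, [0], [0, 3]), (0, [0], [2, 3]), (4, [], [1])])]

def w39_10 : List (List Wit) := [[(0, 0, 0, 0, 0), (2, 0, 0, 0, 0), (0, 0, 0, 0, 0), (1, 0, 0, 0, 0), (2, 0, 0, 0, 0), (1, 0, 0, 0, 0)]]

def m39_11 : Base := (1, 2, [(0, [0], [0, 3]), (0, [0], [1, 2]), (1, [], [3, 4]), (4, [], [4])])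

def l39_11 : Cov := [(6, 1, 2, [(0, [0], [0, 3]), (0, [0], [1, 2]), (1, [], [3, 4]), (4, [], [4])]),
  (-6, 1, 2, [(0, [0], [2, 3]), (0, [0], [0, 1]), (1, [], [3, 4]), (4, [], [4])])]

def z39_11 : Cov := [(0, 1, 2, [(0, [0], [1, 3]), (0, [0], [0, 2]), (1, [], [3, 4]), (4, [], [4])])]

def w39_11 : List (List Wit) := [[(0, 0, 0, 16, 16), (0, 0, 0, 16, 16), (2, 0, 0, 16, 16), (2, 0, 0, 16, 16), (1, 0, 0, 16, 16), (1, 0, 0, 16, 16)]]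

def m39_12 : Base := (1, 1, [(0, [0], [0, 3]), (0, [0], [1, 2]), (4, [], [3])])

def l39_12 : Cov := [(6, 1, 1, [(0, [0], [0, 3]), (0, [0], [1, 2]), (4, [], [3])]),
  (-6, 1, 1, [(0, [0], [2, 3]), (0, [0], [0, 1]), (4, [], [3])])]

def z39_12 : Cov := [(0, 1, 1, [(0, [0], [1, 3]), (0, [0], [0, 2]), (4, [], [3])])]

def w39_12 : List (List Wit) := [[(0, 0, 0, 0, 0), (0, 0, 0, 0, 0), (2, 0, 0, 0, 0), (2, 0, 0, 0, 0), (1, 0, 0, 0, 0), (1, 0, 0, 0, 0)]]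

def m39_13 : Base := (1, 1, [(0, [0], [0, 3]), (2, [0], [1, 2, 3])])

def l39_13 : Cov := [(6, 1, 1, [(0, [0], [0, 3]), (2, [0], [1, 2, 3])]),
  (-6, 1, 1, [(0, [0], [2, 3]), (2, [0], [0, 1, 3])])]

def z39_13 : Cov := [(0, 1, 1, [(0, [0], [1, 3]), (2, [0], [0, 2, 3])])]

def w39_13 : List (List Wit) := [[(0, 0, 0, 0, 0), (0, 0, 0, 0, 0), (2, 0, 0, 0, 0), (2, 0, 0, 0, 0), (1, 0, 0, 0, 0), (1, 0, 0, 0, 0)]]

theorem tr39 : trK keys lk39 kl39 = true := by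
  decide +kernel

theorem x39_0 : expB 0 3 dg10 dg2 m39_0 (l39_0 ++ z39_0) w39_0 = true := by
  decide +kernel

theorem x39_1 : expB 0 3 dg10 dg2 m39_1 (l39_1 ++ z39_1) w39_1 = true := by
  decide +kernel

theorem x39_2 : expB 0 3 dg10 dg2 m39_2 (l39_2 ++ z39_2) w39_2 = true := by
  decide +kernel

theorem x39_3 : expB 0 3 dg10 dg2 m39_3 (l39_3 ++ z39_3) w39_3 = true := by
  decide +kernel

theorem x39_4 : expB 0 3 dg10 dg2 m39_4 (l39_4 ++ z39_4) w39_4 = true := by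
  decide +kernel

theorem x39_5 : expB 0 3 dg10 dg2 m39_5 (l39_5 ++ z39_5) w39_5 = true := by
  decide +kernel

theorem x39_6 : expB 0 3 dg10 dg2 m39_6 (l39_6 ++ z39_6) w39_6 = true := by
  decide +kernel

theorem x39_7 : expB 0 3 dg10 dg2 m39_7 (l39_7 ++ z39_7) w39_7 = true := by
  decide +kernel

theorem x39_8 : expB 0 3 dg10 dg2 m39_8 (l39_8 ++ z39_8) w39_8 = true := by
  decide +kernel

theorem x39_9 : expB 0 3 dg10 dg2 m39_9 (l39_9 ++ z39_9) w39_9 = true := by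
  decide +kernel

theorem x39_10 : expB 0 3 dg10 dg2 m39_10 (l39_10 ++ z39_10) w39_10 = true := by
  decide +kernel

theorem x39_11 : expB 0 3 dg10 dg2 m39_11 (l39_11 ++ z39_11) w39_11 = true := by
  decide +kernel

theorem x39_12 : expB 0 3 dg10 dg2 m39_12 (l39_12 ++ z39_12) w39_12 = true := by
  decide +kernel

theorem x39_13 : expB 0 3 dg10 dg2 m39_13 (l39_13 ++ z39_13) w39_13 = true := by
  decide +kernel

theorem t39_0_0 : chkS lk39 0 3 [(1, m39_0)] l39_0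
  [(65, 16, 16, 52495461, 16934211), (1, 16, 16, 52495941, 33645891)]
  [(1, -6), (65, 6)] = true := by
  decide +kernel

theorem t39_0_1 : chkS lk39 0 3 [(1, m39_0)] l39_1
  [(61, 16, 16, 52495461, 16934211), (62, 16, 16, 52495461, 16934211), (61, 16, 16, 52495446, 1205571), (62, 16, 16, 52495446, 1205571), (46, 16, 16, 69272421, 17179971), (46, 16, 16, 69272406, 1451331)]
  [(46, -6), (61, 6), (62, 0)] = true := by
  decide +kernel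

theorem t39_0_2 : chkS lk39 0 3 [(1, m39_0)] l39_2
  [(46, 16, 16, 52495956, 34628931), (3, 16, 16, 52495461, 16934211)]
  [(3, -6), (46, 6)] = true := by
  decide +kernel

theorem t39_0_3 : chkS lk39 0 3 [(1, m39_0)] l39_3
  [(62, 16, 16, 52495461, 16934211), (61, 16, 16, 52495461, 16934211), (62, 16, 16, 52495446, 1205571), (61, 16, 16, 52495446, 1205571), (46, 16, 16, 69272406, 1451331), (46, 16, 16, 69272421, 17179971)]
  [(46, -6), (62, 6)] = true := by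
  decide +kernel

theorem t39_0_4 : chkS lk39 0 3 [(1, m39_0)] l39_4
  [(59, 16, 16, 52495461, 16934211), (4, 16, 16, 88146726, 6627651)]
  [(4, -6), (59, 6)] = true := by
  decide +kernel

theorem t39_0_5 : chkS lk39 0 3 [(1, m39_0)] l39_5
  [(4, 16, 16, 52495956, 34628931), (44, 16, 16, 52495686, 2188611)]
  [(4, 6), (44, -6)] = true := by
  decide +kernel

theorem t39_0_6 : chkS lk39 0 3 [(1, m39_0)] l39_6
  [(60, 16, 16, 103875666, 101863491), (45, 16, 16, 38863686, 5318211)]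
  [(45, -6), (60, 6)] = true := by
  decide +kernel

theorem t39_0_7 : chkS lk39 0 3 [(1, m39_0)] l39_7
  [(45, 16, 16, 70321746, 35016771), (44, 16, 16, 70321506, 19288131), (45, 16, 16, 70321701, 33968451), (44, 16, 16, 70321446, 2511171), (43, 16, 16, 87097956, 23089731), (43, 16, 16, 87097926, 6378051)]
  [(43, -6), (45, 6)] = true := by
  decide +kernel

theorem t39_0_8 : chkS lk39 0 3 [(1, m39_0)] l39_8
  [(45, 16, 16, 54593061, 33907011), (43, 16, 16, 55640676, 22045251), (45, 16, 16, 54593106, 34955331), (43, 16, 16, 55640646, 5333571), (44, 16, 16, 86049636, 23078211), (44, 16, 16, 86049606, 6366531)]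
  [(44, -6), (45, 6)] = true := by
  decide +kernel

theorem t39_0_9 : chkS lk39 0 3 [(1, m39_0)] l39_9
  [(63, 16, 16, 102827091, 101844291), (46, 16, 16, 102826821, 100738371)]
  [(46, -6), (63, 6)] = true := by
  decide +kernel

theorem t39_0_10 : chkS lk39 0 3 [(1, m39_0)] l39_10
  [(64, 16, 16, 2163795, 1180995), (18, 16, 16, 2163765, 136515)]
  [(18, -6), (64, 6)] = true := by
  decide +kernel

theorem t39_0_11 : chkS lk39 0 3 [(1, m39_0)] l39_11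
  [(45, 16, 16, 104923941, 100999491), (4, 16, 16, 102826836, 101721411)]
  [(4, -6), (45, 6)] = true := by
  decide +kernel

theorem t39_0_12 : chkS lk39 0 3 [(1, m39_0)] l39_12
  [(21, 16, 16, 3212610, 2183235), (20, 16, 16, 3211860, 1069635)]
  [(20, -6), (21, 6)] = true := by
  decide +kernel

theorem t39_0_13 : chkS lk39 0 3 [(1, m39_0)] l39_13
  [(66, 16, 16, 3212370, 1200195), (5, 16, 16, 2163525, 75075)]
  [(5, -6), (66, 6)] = true := by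
  decide +kernel

theorem t39_1_1 : chkS lk39 0 3 [(1, m39_1)] l39_1
  [(72, 16, 16, 87164001, 23221251), (74, 16, 16, 87164481, 39932931), (127, 16, 16, 70260066, 19288116), (92, 16, 16, 87164481, 39932931), (92, 1, 1, 33894756, 20985381), (90, 16, 16, 87164001, 23221251)]
  [(72, 4), (74, 2), (90, -4), (92, -4), (127, 2)] = true := by
  decide +kernel

theorem t39_1_2 : chkS lk39 0 3 [(1, m39_1)] l39_2
  [(41, 1, 1, 17053266, 34877541), (91, 1, 1, 17052261, 17052261)]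
  [(41, 6), (91, -6)] = true := by
  decide +kernel

theorem t39_1_3 : chkS lk39 0 3 [(1, m39_1)] l39_3
  [(74, 16, 16, 87164481, 39932931), (72, 16, 16, 87164001, 23221251), (92, 16, 16, 87164481, 39932931), (127, 16, 16, 70260066, 19288116), (90, 16, 16, 87164001, 23221251), (92, 1, 1, 33894756, 20985381)]
  [(72, 2), (74, 4), (90, -2), (92, -2), (127, -2)] = true := by
  decide +kernel

theorem t39_1_4 : chkS lk39 0 3 [(1, m39_1)] l39_4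
  [(67, 16, 16, 106038321, 106042371), (10, 1, 1, 52773126, 4416801)]
  [(10, -6), (67, 6)] = true := by
  decide +kernel

theorem t39_1_5 : chkS lk39 0 3 [(1, m39_1)] l39_5
  [(71, 16, 16, 106038321, 106042371), (124, 16, 16, 70260306, 35016756)]
  [(71, 6), (124, -6)] = true := by
  decide +kernel

theorem t39_1_6 : chkS lk39 0 3 [(1, m39_1)] l39_6
  [(68, 16, 16, 103941201, 101864451), (88, 16, 16, 56755281, 85091331)]
  [(68, 6), (88, -6)] = true := by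
  decide +kernel

theorem t39_1_7 : chkS lk39 0 3 [(1, m39_1)] l39_7
  [(56, 16, 16, 70387281, 35017731), (55, 16, 16, 70387041, 19289091), (69, 16, 16, 56755281, 85091331), (124, 16, 16, 56628306, 85090356), (75, 16, 16, 55706721, 22176771), (123, 16, 16, 104862546, 102047796)]
  [(55, 2), (56, 4), (69, 2), (75, -2), (123, -4), (124, -2)] = true := by
  decide +kernel

theorem t39_1_8 : chkS lk39 0 3 [(1, m39_1)] l39_8
  [(69, 16, 16, 103941201, 101864451), (75, 16, 16, 87164001, 23221251), (56, 16, 16, 54658641, 34956291), (123, 16, 16, 73405266, 85336116), (55, 16, 16, 54658401, 19227651), (124, 16, 16, 103814226, 101863476)]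
  [(55, -2), (56, 2), (69, 4), (75, 2), (123, -2), (124, -4)] = true := by
  decide +kernel

theorem t39_1_9 : chkS lk39 0 3 [(1, m39_1)] l39_9
  [(77, 16, 16, 103941201, 101864451), (92, 1, 1, 100938021, 100938021)]
  [(77, 6), (92, -6)] = true := by
  decide +kernel

theorem t39_1_10 : chkS lk39 0 3 [(1, m39_1)] l39_10
  [(79, 16, 16, 3277905, 1201155), (94, 16, 16, 3277905, 1201155)]
  [(79, 6), (94, -6)] = true := by
  decide +kernel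

theorem t39_1_11 : chkS lk39 0 3 [(1, m39_1)] l39_11
  [(69, 16, 16, 70387281, 35017731), (71, 16, 16, 72484401, 39195651)]
  [(69, 6), (71, -6)] = true := by
  decide +kernel

theorem t39_1_12 : chkS lk39 0 3 [(1, m39_1)] l39_12
  [(25, 1, 1, 1393440, 4399440), (80, 16, 16, 5375025, 5379075)]
  [(25, 6), (80, -6)] = true := by
  decide +kernel

theorem t39_1_13 : chkS lk39 0 3 [(1, m39_1)] l39_13
  [(84, 16, 16, 3277905, 1201155), (125, 16, 16, 3150930, 1200180)]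
  [(84, 6), (125, -6)] = true := by
  decide +kernel

theorem t39_2_2 : chkS lk39 0 3 [(1, m39_2)] l39_2
  [(16, 16, 16, 52696656, 34891056), (90, 16, 16, 70321506, 19288131)]
  [(16, 6), (90, -6)] = true := by
  decide +kernel

theorem t39_2_3 : chkS lk39 0 3 [(1, m39_2)] l39_3
  [(41, 16, 16, 70321506, 19288131), (41, 16, 16, 70321746, 35016771), (91, 16, 16, 70321746, 35016771), (92, 16, 16, 70321746, 35016771), (91, 16, 16, 70321506, 19288131), (92, 16, 16, 70321506, 19288131)]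
  [(41, 6), (92, -6)] = true := by
  decide +kernel

theorem t39_2_4 : chkS lk39 0 3 [(1, m39_2)] l39_4
  [(15, 1, 1, 52774416, 37971216), (87, 16, 16, 70321746, 35016771)]
  [(15, 6), (87, -6)] = true := by
  decide +kernel

theorem t39_2_5 : chkS lk39 0 3 [(1, m39_2)] l39_5
  [(39, 16, 16, 88147506, 40177731), (10, 1, 1, 17187621, 67314021)]
  [(10, -6), (39, 6)] = true := by
  decide +kernel

theorem t39_2_6 : chkS lk39 0 3 [(1, m39_2)] l39_6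
  [(40, 16, 16, 87098946, 39931971), (89, 16, 16, 104924466, 103092291)]
  [(40, 6), (89, -6)] = true := by
  decide +kernel

theorem t39_2_7 : chkS lk39 0 3 [(1, m39_2)] l39_7
  [(38, 16, 16, 87098946, 39931971), (38, 16, 16, 87098466, 23220291), (39, 16, 16, 55641666, 38887491), (88, 16, 16, 88147506, 40177731), (39, 16, 16, 55641186, 22175811), (88, 16, 16, 88146786, 23404611)]
  [(38, 6), (88, -6)] = true := by
  decide +kernel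

theorem t39_2_8 : chkS lk39 0 3 [(1, m39_2)] l39_8
  [(39, 16, 16, 87098946, 39931971), (39, 16, 16, 87098466, 23220291), (38, 16, 16, 55641666, 38887491), (88, 16, 16, 72418146, 22421571), (38, 16, 16, 55641186, 22175811), (88, 16, 16, 72418866, 39194691)]
  [(39, 6), (88, -6)] = true := by
  decide +kernel

theorem t39_2_9 : chkS lk39 0 3 [(1, m39_2)] l39_9
  [(41, 16, 16, 103875906, 102846531), (93, 16, 16, 103875906, 102846531)]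
  [(41, 6), (93, -6)] = true := by
  decide +kernel

theorem t39_2_10 : chkS lk39 0 3 [(1, m39_2)] l39_10
  [(42, 16, 16, 3212610, 2183235), (95, 16, 16, 3212610, 2183235)]
  [(42, 6), (95, -6)] = true := by
  decide +kernel

theorem t39_2_11 : chkS lk39 0 3 [(1, m39_2)] l39_11
  [(15, 1, 1, 102056736, 105062736), (40, 16, 16, 104924466, 103092291)]
  [(15, 6), (40, -6)] = true := by
  decide +kernel

theorem t39_2_12 : chkS lk39 0 3 [(1, m39_2)] l39_12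
  [(19, 1, 1, 1393440, 4399440), (29, 1, 1, 3490320, 4411920)]
  [(19, 6), (29, -6)] = true := by
  decide +kernel

theorem t39_2_13 : chkS lk39 0 3 [(1, m39_2)] l39_13
  [(14, 16, 16, 2298960, 1197360), (96, 16, 16, 4260690, 1384515)]
  [(14, 6), (96, -6)] = true := by
  decide +kernel

theorem t39_3_3 : chkS lk39 0 3 [(1, m39_3)] l39_3
  [(72, 16, 16, 87164481, 39932931), (74, 16, 16, 87164001, 23221251), (90, 16, 16, 87164481, 39932931), (92, 1, 1, 33895956, 37762581), (92, 16, 16, 87164001, 23221251), (127, 16, 16, 70260306, 35016756)]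
  [(72, 4), (74, 2), (90, 2), (92, -4), (127, -4)] = true := by
  decide +kernel

theorem t39_3_4 : chkS lk39 0 3 [(1, m39_3)] l39_4
  [(57, 16, 16, 88213041, 40178691), (10, 1, 1, 52772886, 4416786)]
  [(10, -6), (57, 6)] = true := by
  decide +kernel

theorem t39_3_5 : chkS lk39 0 3 [(1, m39_3)] l39_5
  [(55, 16, 16, 88213041, 40178691), (124, 16, 16, 70260066, 19288116)]
  [(55, 6), (124, -6)] = true := by
  decide +kernel

theorem t39_3_6 : chkS lk39 0 3 [(1, m39_3)] l39_6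
  [(70, 16, 16, 87164001, 23221251), (88, 16, 16, 103941441, 102847491)]
  [(70, 6), (88, -6)] = true := by
  decide +kernel

theorem t39_3_7 : chkS lk39 0 3 [(1, m39_3)] l39_7
  [(55, 16, 16, 70387281, 35017731), (56, 16, 16, 70387041, 19289091), (75, 16, 16, 55707201, 38888451), (123, 16, 16, 104863026, 103092276), (69, 16, 16, 56755521, 86074371), (124, 16, 16, 56628546, 86073396)]
  [(55, 4), (56, 2), (69, -2), (75, 2), (123, -2), (124, -4)] = true := by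
  decide +kernel

theorem t39_3_8 : chkS lk39 0 3 [(1, m39_3)] l39_8
  [(75, 16, 16, 87164481, 39932931), (69, 16, 16, 103941441, 102847491), (55, 16, 16, 54658641, 34956291), (124, 16, 16, 103814466, 102846516), (56, 16, 16, 54658401, 19227651), (123, 16, 16, 73405746, 86380596)]
  [(55, 2), (56, -2), (69, 2), (75, 4), (123, -4), (124, -2)] = true := by
  decide +kernel

theorem t39_3_9 : chkS lk39 0 3 [(1, m39_3)] l39_9
  [(41, 1, 1, 100939026, 103034901), (92, 1, 1, 100938261, 100938261)]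
  [(41, 6), (92, -6)] = true := by
  decide +kernel

theorem t39_3_10 : chkS lk39 0 3 [(1, m39_3)] l39_10
  [(42, 1, 1, 275730, 2371605), (94, 16, 16, 3278145, 2184195)]
  [(42, 6), (94, -6)] = true := by
  decide +kernel

theorem t39_3_11 : chkS lk39 0 3 [(1, m39_3)] l39_11
  [(69, 16, 16, 70387041, 19289091), (56, 16, 16, 104990001, 103093251)]
  [(56, -6), (69, 6)] = true := by
  decide +kernel

theorem t39_3_12 : chkS lk39 0 3 [(1, m39_3)] l39_12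
  [(25, 1, 1, 1393200, 4395600), (25, 1, 1, 3490320, 4411920)]
  [(25, 0)] = true := by
  decide +kernel

theorem t39_3_13 : chkS lk39 0 3 [(1, m39_3)] l39_13
  [(84, 16, 16, 3278145, 2184195), (128, 16, 16, 4199250, 1384500)]
  [(84, 6), (128, -6)] = true := by
  decide +kernel

theorem t39_4_4 : chkS lk39 0 3 [(1, m39_4)] l39_4
  [(97, 16, 16, 106112016, 106054416), (2, 16, 16, 70668801, 70668801)]
  [(2, -6), (97, 6)] = true := by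
  decide +kernel

theorem t39_4_5 : chkS lk39 0 3 [(1, m39_4)] l39_5
  [(51, 1, 1, 52774416, 37971216), (99, 1, 1, 52842756, 70280481)]
  [(51, 6), (99, -6)] = true := by
  decide +kernel

theorem t39_4_6 : chkS lk39 0 3 [(1, m39_4)] l39_6
  [(110, 1, 1, 33969201, 70391301), (11, 1, 1, 51794946, 70410321)]
  [(11, -6), (110, 6)] = true := by
  decide +kernel

theorem t39_4_7 : chkS lk39 0 3 [(1, m39_4)] l39_7
  [(17, 16, 16, 37045761, 37967361), (99, 1, 1, 35017536, 70329936), (17, 16, 16, 37045776, 37967376), (99, 1, 1, 35017476, 70264401), (115, 1, 1, 35016771, 70321746), (115, 1, 1, 35016756, 70260306)]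
  [(17, 6), (115, -6)] = true := by
  decide +kernel

theorem t39_4_8 : chkS lk39 0 3 [(1, m39_4)] l39_8
  [(17, 16, 16, 52774416, 37971216), (115, 1, 1, 19288131, 70321506), (17, 16, 16, 52774401, 37971201), (115, 1, 1, 19288116, 70260066), (99, 1, 1, 19288896, 70329696), (99, 1, 1, 19288836, 70264161)]
  [(17, 6), (99, -6), (115, 0)] = true := by
  decide +kernel

theorem t39_4_9 : chkS lk39 0 3 [(1, m39_4)] l39_9
  [(34, 1, 1, 101008161, 105062661), (15, 16, 16, 105063681, 103105281)]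
  [(15, -6), (34, 6)] = true := by
  decide +kernel

theorem t39_4_10 : chkS lk39 0 3 [(1, m39_4)] l39_10
  [(35, 1, 1, 344865, 4399365), (19, 16, 16, 4400385, 2441985)]
  [(19, -6), (35, 6)] = true := by
  decide +kernel

theorem t39_4_11 : chkS lk39 0 3 [(1, m39_4)] l39_11
  [(17, 16, 16, 103105296, 105063696), (51, 1, 1, 103105296, 105063696)]
  [(17, 6), (51, -6)] = true := by
  decide +kernel

theorem t39_4_12 : chkS lk39 0 3 [(1, m39_4)] l39_12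
  [(23, 16, 16, 2442000, 4400400), (52, 1, 1, 3490320, 4411920)]
  [(23, 6), (52, -6)] = true := by
  decide +kernel

theorem t39_4_13 : chkS lk39 0 3 [(1, m39_4)] l39_13
  [(132, 16, 16, 4400385, 2441985), (8, 16, 16, 4261170, 2428995)]
  [(8, -6), (132, 6)] = true := by
  decide +kernel

theorem t39_5_5 : chkS lk39 0 3 [(1, m39_5)] l39_5
  [(49, 16, 16, 88286736, 40190736), (118, 16, 16, 105972786, 106041411)]
  [(49, 6), (118, -6)] = true := by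
  decide +kernel

theorem t39_5_6 : chkS lk39 0 3 [(1, m39_5)] l39_6
  [(112, 1, 1, 33969201, 70391301), (101, 16, 16, 105063681, 103105281)]
  [(101, -6), (112, 6)] = true := by
  decide +kernel

theorem t39_5_7 : chkS lk39 0 3 [(1, m39_5)] l39_7
  [(47, 1, 1, 34948656, 37951056), (102, 1, 1, 51794496, 70345296), (47, 1, 1, 34948611, 37946961), (102, 1, 1, 51794436, 70279761), (117, 16, 16, 73467171, 86376771), (117, 16, 16, 73467186, 86380611)]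
  [(47, 6), (117, -6)] = true := by
  decide +kernel

theorem t39_5_8 : chkS lk39 0 3 [(1, m39_5)] l39_8
  [(47, 1, 1, 19219971, 37946721), (117, 16, 16, 104924451, 103088451), (47, 1, 1, 19220016, 37950816), (117, 16, 16, 104924466, 103092291), (102, 1, 1, 20337216, 70341216), (102, 1, 1, 20337156, 70275681)]
  [(47, 6), (102, -6), (117, 0)] = true := by
  decide +kernel

theorem t39_5_9 : chkS lk39 0 3 [(1, m39_5)] l39_9
  [(32, 1, 1, 50677281, 37970181), (69, 1, 1, 67523091, 70648341)]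
  [(32, 6), (69, -6)] = true := by
  decide +kernel

theorem t39_5_10 : chkS lk39 0 3 [(1, m39_5)] l39_10
  [(36, 1, 1, 344865, 4399365), (25, 16, 16, 4400385, 2441985)]
  [(25, -6), (36, 6)] = true := by
  decide +kernel

theorem t39_5_11 : chkS lk39 0 3 [(1, m39_5)] l39_11
  [(111, 1, 1, 69619731, 70649106), (50, 16, 16, 105063696, 103105296)]
  [(50, -6), (111, 6)] = true := by
  decide +kernel

theorem t39_5_12 : chkS lk39 0 3 [(1, m39_5)] l39_12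
  [(24, 16, 16, 3490305, 4411905), (53, 16, 16, 5448720, 5391120)]
  [(24, 6), (53, -6)] = true := by
  decide +kernel

theorem t39_5_13 : chkS lk39 0 3 [(1, m39_5)] l39_13
  [(120, 16, 16, 4261155, 2425155), (9, 16, 16, 5309490, 5378115)]
  [(9, -6), (120, 6)] = true := by
  decide +kernel

theorem t39_6_6 : chkS lk39 0 3 [(1, m39_6)] l39_6
  [(130, 16, 16, 105055521, 103104771), (119, 16, 16, 88213041, 40178691)]
  [(119, -6), (130, 6)] = true := by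
  decide +kernel

theorem t39_6_7 : chkS lk39 0 3 [(1, m39_6)] l39_7
  [(106, 1, 1, 51725856, 37970256), (101, 1, 1, 35013456, 68363856), (106, 1, 1, 51664386, 36986961), (101, 1, 1, 34890501, 50603601), (116, 1, 1, 35012691, 68355666), (116, 1, 1, 34889781, 50599506)]
  [(106, 6), (116, -6)] = true := by
  decide +kernel

theorem t39_6_8 : chkS lk39 0 3 [(1, m39_6)] l39_8
  [(106, 1, 1, 20207106, 36982881), (116, 1, 1, 19284051, 68355426), (106, 1, 1, 20268576, 37966176), (116, 1, 1, 19161141, 50599266), (101, 1, 1, 19284816, 68363616), (101, 1, 1, 19161861, 50603361)]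
  [(101, -6), (106, 6), (116, 0)] = true := by
  decide +kernel

theorem t39_6_9 : chkS lk39 0 3 [(1, m39_6)] l39_9
  [(76, 1, 1, 101004321, 105001221), (40, 1, 1, 100880676, 103825701)]
  [(40, -6), (76, 6)] = true := by
  decide +kernel

theorem t39_6_10 : chkS lk39 0 3 [(1, m39_6)] l39_10
  [(78, 1, 1, 341025, 4337925), (29, 16, 16, 4269315, 2425665)]
  [(29, -6), (78, 6)] = true := by
  decide +kernel

theorem t39_6_11 : chkS lk39 0 3 [(1, m39_6)] l39_11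
  [(106, 1, 1, 104091906, 104091681), (112, 16, 16, 72484401, 39195651)]
  [(106, 6), (112, -6)] = true := by
  decide +kernel

theorem t39_6_12 : chkS lk39 0 3 [(1, m39_6)] l39_12
  [(27, 16, 16, 5444640, 5390640), (114, 16, 16, 5375025, 5379075)]
  [(27, 6), (114, -6)] = true := by
  decide +kernel

theorem t39_6_13 : chkS lk39 0 3 [(1, m39_6)] l39_13
  [(131, 16, 16, 4326705, 2429955), (135, 16, 16, 4326705, 2429955)]
  [(131, 6), (135, -6)] = true := by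
  decide +kernel

theorem t39_7_7 : chkS lk39 0 3 [(1, m39_7)] l39_7
  [(103, 16, 16, 88282656, 40190256), (100, 16, 16, 88282656, 40190256), (105, 16, 16, 72554016, 39207216), (102, 1, 1, 34890501, 50603601), (102, 16, 16, 73536816, 86381616), (118, 16, 16, 73536816, 86381616)]
  [(100, 2), (102, -4), (103, 4), (105, 2), (118, -4)] = true := by
  decide +kernel

theorem t39_7_8 : chkS lk39 0 3 [(1, m39_7)] l39_8
  [(105, 16, 16, 88282656, 40190256), (102, 16, 16, 104994096, 103093296), (103, 16, 16, 72554016, 39207216), (118, 16, 16, 104994096, 103093296), (100, 16, 16, 72554016, 39207216), (102, 1, 1, 19161861, 50603361)]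
  [(100, -2), (102, -2), (103, 2), (105, 4), (118, -2)] = true := by
  decide +kernel

theorem t39_7_9 : chkS lk39 0 3 [(1, m39_7)] l39_9
  [(58, 1, 1, 100939041, 103035141), (71, 1, 1, 67330581, 50741781)]
  [(58, 6), (71, -6)] = true := by
  decide +kernel

theorem t39_7_10 : chkS lk39 0 3 [(1, m39_7)] l39_10
  [(30, 16, 16, 4273410, 2437185), (80, 1, 1, 217620, 3162645)]
  [(30, 6), (80, -6)] = true := by
  decide +kernel

theorem t39_7_11 : chkS lk39 0 3 [(1, m39_7)] l39_11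
  [(107, 16, 16, 105059616, 103104816), (48, 16, 16, 104994096, 103093296)]
  [(48, -6), (107, 6)] = true := by
  decide +kernel

theorem t39_7_12 : chkS lk39 0 3 [(1, m39_7)] l39_12
  [(108, 16, 16, 4396320, 2441520), (24, 1, 1, 5387265, 5387265)]
  [(24, -6), (108, 6)] = true := by
  decide +kernel

theorem t39_7_13 : chkS lk39 0 3 [(1, m39_7)] l39_13
  [(109, 16, 16, 4330800, 2430000), (134, 16, 16, 5379120, 5379120)]
  [(109, 6), (134, -6)] = true := by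
  decide +kernel

theorem t39_8_8 : chkS lk39 0 3 [(1, m39_8)] l39_8
  [(103, 16, 16, 72431106, 39202881), (118, 16, 16, 104932611, 103088961), (105, 16, 16, 88159746, 40185921), (102, 16, 16, 104932611, 103088961), (102, 1, 1, 19284816, 68363616), (100, 16, 16, 72431106, 39202881)]
  [(100, -4), (102, -4), (103, 4), (105, 2), (118, 2)] = true := by
  decide +kernel

theorem t39_8_9 : chkS lk39 0 3 [(1, m39_8)] l39_9
  [(58, 1, 1, 100877586, 102973461), (56, 1, 1, 100880916, 103825941)]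
  [(56, -6), (58, 6)] = true := by
  decide +kernel

theorem t39_8_10 : chkS lk39 0 3 [(1, m39_8)] l39_10
  [(30, 16, 16, 4396320, 2441520), (25, 16, 16, 4269315, 2425665)]
  [(25, -6), (30, 6)] = true := by
  decide +kernel

theorem t39_8_11 : chkS lk39 0 3 [(1, m39_8)] l39_11
  [(104, 16, 16, 105985026, 106049601), (48, 16, 16, 104932611, 103088961)]
  [(48, -6), (104, 6)] = true := by
  decide +kernel

theorem t39_8_12 : chkS lk39 0 3 [(1, m39_8)] l39_12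
  [(26, 16, 16, 5509920, 5513520), (24, 1, 1, 5448720, 5391120)]
  [(24, -6), (26, 6)] = true := by
  decide +kernel

theorem t39_8_13 : chkS lk39 0 3 [(1, m39_8)] l39_13
  [(121, 16, 16, 4269315, 2425665), (134, 16, 16, 5317635, 5374785)]
  [(121, 6), (134, -6)] = true := by
  decide +kernel

theorem t39_9_9 : chkS lk39 0 3 [(1, m39_9)] l39_9
  [(81, 16, 16, 104072481, 103043331), (74, 16, 16, 70649106, 69619731)]
  [(74, -6), (81, 6)] = true := by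
  decide +kernel

theorem t39_9_10 : chkS lk39 0 3 [(1, m39_9)] l39_10
  [(82, 16, 16, 3409185, 2380035), (42, 16, 16, 3474465, 4346115)]
  [(42, -6), (82, 6)] = true := by
  decide +kernel

theorem t39_9_11 : chkS lk39 0 3 [(1, m39_9)] l39_11
  [(73, 16, 16, 70649121, 69619971), (33, 16, 16, 55968801, 72507651)]
  [(33, -6), (73, 6)] = true := by
  decide +kernel

theorem t39_9_12 : chkS lk39 0 3 [(1, m39_9)] l39_12
  [(30, 1, 1, 3490050, 4411425), (36, 16, 16, 5440545, 5390595)]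
  [(30, 6), (36, -6)] = true := by
  decide +kernel

theorem t39_9_13 : chkS lk39 0 3 [(1, m39_9)] l39_13
  [(85, 16, 16, 3409185, 2380035), (129, 16, 16, 4526880, 4530480)]
  [(85, 6), (129, -6)] = true := by
  decide +kernel

theorem t39_10_10 : chkS lk39 0 3 [(1, m39_10)] l39_10
  [(83, 16, 16, 197665, 147715), (6, 16, 16, 135940, 9265)]
  [(6, -6), (83, 6)] = true := by
  decide +kernel

theorem t39_10_11 : chkS lk39 0 3 [(1, m39_10)] l39_11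
  [(30, 1, 1, 5325600, 5448000), (36, 16, 16, 3409185, 2380035)]
  [(30, 6), (36, -6)] = true := by
  decide +kernel

theorem t39_10_12 : chkS lk39 0 3 [(1, m39_10)] l39_12
  [(31, 1, 1, 82720, 205120), (37, 16, 16, 262945, 270595)]
  [(31, 6), (37, -6)] = true := by
  decide +kernel

theorem t39_10_13 : chkS lk39 0 3 [(1, m39_10)] l39_13
  [(86, 16, 16, 197665, 147715), (126, 16, 16, 201760, 147760)]
  [(86, 6), (126, -6)] = true := by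
  decide +kernel

theorem t39_11_11 : chkS lk39 0 3 [(1, m39_11)] l39_11
  [(98, 16, 16, 106180866, 106180641), (113, 16, 16, 106176531, 106169106)]
  [(98, 6), (113, -6)] = true := by
  decide +kernel

theorem t39_11_12 : chkS lk39 0 3 [(1, m39_11)] l39_12
  [(54, 1, 1, 3490050, 4411425), (28, 16, 16, 4534530, 4534305)]
  [(28, -6), (54, 6)] = true := by
  decide +kernel

theorem t39_11_13 : chkS lk39 0 3 [(1, m39_11)] l39_13
  [(13, 16, 16, 4526880, 4530480), (133, 16, 16, 4530435, 4522785)]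
  [(13, 6), (133, -6)] = true := by
  decide +kernel

theorem t39_12_12 : chkS lk39 0 3 [(1, m39_12)] l39_12
  [(0, 16, 16, 136240, 136240), (7, 16, 16, 274690, 274465)]
  [(0, 6), (7, -6)] = true := by
  decide +kernel

theorem t39_12_13 : chkS lk39 0 3 [(1, m39_12)] l39_13
  [(22, 16, 16, 267040, 270640), (122, 16, 16, 267040, 270640)]
  [(22, 6), (122, -6)] = true := by
  decide +kernel

theorem t39_13_13 : chkS lk39 0 3 [(1, m39_13)] l39_13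
  [(12, 16, 16, 136000, 74800), (136, 16, 16, 266800, 266800)]
  [(12, 6), (136, -6)] = true := by
  decide +kernel

section

variable {κ ι : Type*} [Fintype κ] [Fintype ι] [Inhabited κ] [Inhabited ι]

noncomputable def F39_0 (E : Env κ ι) : (Fin 0 → κ) → (Fin 3 → ι) → ℝ := op2 (P10 κ) (P2 ι) (fB E 0 3 m39_0)

noncomputable def F39_1 (E : Env κ ι) : (Fin 0 → κ) → (Fin 3 → ι) → ℝ := op2 (P10 κ) (P2 ι) (fB E 0 3 m39_1)

noncomputable def F39_2 (E : Env κ ι) : (Fin 0 → κ) → (Fin 3 → ι) → ℝ := op2 (P10 κ) (P2 ι) (fB E 0 3 m39_2)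

noncomputable def F39_3 (E : Env κ ι) : (Fin 0 → κ) → (Fin 3 → ι) → ℝ := op2 (P10 κ) (P2 ι) (fB E 0 3 m39_3)

noncomputable def F39_4 (E : Env κ ι) : (Fin 0 → κ) → (Fin 3 → ι) → ℝ := op2 (P10 κ) (P2 ι) (fB E 0 3 m39_4)

noncomputable def F39_5 (E : Env κ ι) : (Fin 0 → κ) → (Fin 3 → ι) → ℝ := op2 (P10 κ) (P2 ι) (fB E 0 3 m39_5)

noncomputable def F39_6 (E : Env κ ι) : (Fin 0 → κ) → (Fin 3 → ι) → ℝ := op2 (P10 κ) (P2 ι) (fB E 0 3 m39_6)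

noncomputable def F39_7 (E : Env κ ι) : (Fin 0 → κ) → (Fin 3 → ι) → ℝ := op2 (P10 κ) (P2 ι) (fB E 0 3 m39_7)

noncomputable def F39_8 (E : Env κ ι) : (Fin 0 → κ) → (Fin 3 → ι) → ℝ := op2 (P10 κ) (P2 ι) (fB E 0 3 m39_8)

noncomputable def F39_9 (E : Env κ ι) : (Fin 0 → κ) → (Fin 3 → ι) → ℝ := op2 (P10 κ) (P2 ι) (fB E 0 3 m39_9)

noncomputable def F39_10 (E : Env κ ι) : (Fin 0 → κ) → (Fin 3 → ι) → ℝ := op2 (P10 κ) (P2 ι) (fB E 0 3 m39_10)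

noncomputable def F39_11 (E : Env κ ι) : (Fin 0 → κ) → (Fin 3 → ι) → ℝ := op2 (P10 κ) (P2 ι) (fB E 0 3 m39_11)

noncomputable def F39_12 (E : Env κ ι) : (Fin 0 → κ) → (Fin 3 → ι) → ℝ := op2 (P10 κ) (P2 ι) (fB E 0 3 m39_12)

noncomputable def F39_13 (E : Env κ ι) : (Fin 0 → κ) → (Fin 3 → ι) → ℝ := op2 (P10 κ) (P2 ι) (fB E 0 3 m39_13)

def r39_0_0 : List (ℕ × ℤ) := [(1, -6), (65, 6)]

theorem h39_0_0 (E : Env κ ι) : ip (F39_0 E) (F39_0 E) = dotS (ek E lk39) r39_0_0 :=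
  op_entryZ E lk39 0 3 _ _ _ _ (pg10 κ) (pg2 ι) m39_0 m39_0 l39_0 z39_0 w39_0 x39_0 (by decide) _ (chkS_sound E lk39 0 3 _ _ _ _ t39_0_0)

def r39_0_1 : List (ℕ × ℤ) := [(46, -6), (61, 6), (62, 0)]

theorem h39_0_1 (E : Env κ ι) : ip (F39_0 E) (F39_1 E) = dotS (ek E lk39) r39_0_1 :=
  op_entryZ E lk39 0 3 _ _ _ _ (pg10 κ) (pg2 ι) m39_0 m39_1 l39_1 z39_1 w39_1 x39_1 (by decide) _ (chkS_sound E lk39 0 3 _ _ _ _ t39_0_1)

def r39_0_2 : List (ℕ × ℤ) := [(3, -6), (46, 6)]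

theorem h39_0_2 (E : Env κ ι) : ip (F39_0 E) (F39_2 E) = dotS (ek E lk39) r39_0_2 :=
  op_entryZ E lk39 0 3 _ _ _ _ (pg10 κ) (pg2 ι) m39_0 m39_2 l39_2 z39_2 w39_2 x39_2 (by decide) _ (chkS_sound E lk39 0 3 _ _ _ _ t39_0_2)

def r39_0_3 : List (ℕ × ℤ) := [(46, -6), (62, 6)]

theorem h39_0_3 (E : Env κ ι) : ip (F39_0 E) (F39_3 E) = dotS (ek E lk39) r39_0_3 :=
  op_entryZ E lk39 0 3 _ _ _ _ (pg10 κ) (pg2 ι) m39_0 m39_3 l39_3 z39_3 w39_3 x39_3 (by decide) _ (chkS_sound E lk39 0 3 _ _ _ _ t39_0_3)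

def r39_0_4 : List (ℕ × ℤ) := [(4, -6), (59, 6)]

theorem h39_0_4 (E : Env κ ι) : ip (F39_0 E) (F39_4 E) = dotS (ek E lk39) r39_0_4 :=
  op_entryZ E lk39 0 3 _ _ _ _ (pg10 κ) (pg2 ι) m39_0 m39_4 l39_4 z39_4 w39_4 x39_4 (by decide) _ (chkS_sound E lk39 0 3 _ _ _ _ t39_0_4)

def r39_0_5 : List (ℕ × ℤ) := [(4, 6), (44, -6)]

theorem h39_0_5 (E : Env κ ι) : ip (F39_0 E) (F39_5 E) = dotS (ek E lk39) r39_0_5 :=
  op_entryZ E lk39 0 3 _ _ _ _ (pg10 κ) (pg2 ι) m39_0 m39_5 l39_5 z39_5 w39_5 x39_5 (by decide) _ (chkS_sound E lk39 0 3 _ _ _ _ t39_0_5)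

def r39_0_6 : List (ℕ × ℤ) := [(45, -6), (60, 6)]

theorem h39_0_6 (E : Env κ ι) : ip (F39_0 E) (F39_6 E) = dotS (ek E lk39) r39_0_6 :=
  op_entryZ E lk39 0 3 _ _ _ _ (pg10 κ) (pg2 ι) m39_0 m39_6 l39_6 z39_6 w39_6 x39_6 (by decide) _ (chkS_sound E lk39 0 3 _ _ _ _ t39_0_6)

def r39_0_7 : List (ℕ × ℤ) := [(43, -6), (45, 6)]

theorem h39_0_7 (E : Env κ ι) : ip (F39_0 E) (F39_7 E) = dotS (ek E lk39) r39_0_7 :=
  op_entryZ E lk39 0 3 _ _ _ _ (pg10 κ) (pg2 ι) m39_0 m39_7 l39_7 z39_7 w39_7 x39_7 (by decide) _ (chkS_sound E lk39 0 3 _ _ _ _ t39_0_7)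

def r39_0_8 : List (ℕ × ℤ) := [(44, -6), (45, 6)]

theorem h39_0_8 (E : Env κ ι) : ip (F39_0 E) (F39_8 E) = dotS (ek E lk39) r39_0_8 :=
  op_entryZ E lk39 0 3 _ _ _ _ (pg10 κ) (pg2 ι) m39_0 m39_8 l39_8 z39_8 w39_8 x39_8 (by decide) _ (chkS_sound E lk39 0 3 _ _ _ _ t39_0_8)

def r39_0_9 : List (ℕ × ℤ) := [(46, -6), (63, 6)]

theorem h39_0_9 (E : Env κ ι) : ip (F39_0 E) (F39_9 E) = dotS (ek E lk39) r39_0_9 :=
  op_entryZ E lk39 0 3 _ _ _ _ (pg10 κ) (pg2 ι) m39_0 m39_9 l39_9 z39_9 w39_9 x39_9 (by decide) _ (chkS_sound E lk39 0 3 _ _ _ _ t39_0_9)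

def r39_0_10 : List (ℕ × ℤ) := [(18, -6), (64, 6)]

theorem h39_0_10 (E : Env κ ι) : ip (F39_0 E) (F39_10 E) = dotS (ek E lk39) r39_0_10 :=
  op_entryZ E lk39 0 3 _ _ _ _ (pg10 κ) (pg2 ι) m39_0 m39_10 l39_10 z39_10 w39_10 x39_10 (by decide) _ (chkS_sound E lk39 0 3 _ _ _ _ t39_0_10)

def r39_0_11 : List (ℕ × ℤ) := [(4, -6), (45, 6)]

theorem h39_0_11 (E : Env κ ι) : ip (F39_0 E) (F39_11 E) = dotS (ek E lk39) r39_0_11 :=
  op_entryZ E lk39 0 3 _ _ _ _ (pg10 κ) (pg2 ι) m39_0 m39_11 l39_11 z39_11 w39_11 x39_11 (by decide) _ (chkS_sound E lk39 0 3 _ _ _ _ t39_0_11)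

def r39_0_12 : List (ℕ × ℤ) := [(20, -6), (21, 6)]

theorem h39_0_12 (E : Env κ ι) : ip (F39_0 E) (F39_12 E) = dotS (ek E lk39) r39_0_12 :=
  op_entryZ E lk39 0 3 _ _ _ _ (pg10 κ) (pg2 ι) m39_0 m39_12 l39_12 z39_12 w39_12 x39_12 (by decide) _ (chkS_sound E lk39 0 3 _ _ _ _ t39_0_12)

def r39_0_13 : List (ℕ × ℤ) := [(5, -6), (66, 6)]

theorem h39_0_13 (E : Env κ ι) : ip (F39_0 E) (F39_13 E) = dotS (ek E lk39) r39_0_13 :=
  op_entryZ E lk39 0 3 _ _ _ _ (pg10 κ) (pg2 ι) m39_0 m39_13 l39_13 z39_13 w39_13 x39_13 (by decide) _ (chkS_sound E lk39 0 3 _ _ _ _ t39_0_13)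

def r39_1_1 : List (ℕ × ℤ) := [(72, 4), (74, 2), (90, -4), (92, -4), (127, 2)]

theorem h39_1_1 (E : Env κ ι) : ip (F39_1 E) (F39_1 E) = dotS (ek E lk39) r39_1_1 :=
  op_entryZ E lk39 0 3 _ _ _ _ (pg10 κ) (pg2 ι) m39_1 m39_1 l39_1 z39_1 w39_1 x39_1 (by decide) _ (chkS_sound E lk39 0 3 _ _ _ _ t39_1_1)

def r39_1_2 : List (ℕ × ℤ) := [(41, 6), (91, -6)]

theorem h39_1_2 (E : Env κ ι) : ip (F39_1 E) (F39_2 E) = dotS (ek E lk39) r39_1_2 :=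
  op_entryZ E lk39 0 3 _ _ _ _ (pg10 κ) (pg2 ι) m39_1 m39_2 l39_2 z39_2 w39_2 x39_2 (by decide) _ (chkS_sound E lk39 0 3 _ _ _ _ t39_1_2)

def r39_1_3 : List (ℕ × ℤ) := [(72, 2), (74, 4), (90, -2), (92, -2), (127, -2)]

theorem h39_1_3 (E : Env κ ι) : ip (F39_1 E) (F39_3 E) = dotS (ek E lk39) r39_1_3 :=
  op_entryZ E lk39 0 3 _ _ _ _ (pg10 κ) (pg2 ι) m39_1 m39_3 l39_3 z39_3 w39_3 x39_3 (by decide) _ (chkS_sound E lk39 0 3 _ _ _ _ t39_1_3)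

def r39_1_4 : List (ℕ × ℤ) := [(10, -6), (67, 6)]

theorem h39_1_4 (E : Env κ ι) : ip (F39_1 E) (F39_4 E) = dotS (ek E lk39) r39_1_4 :=
  op_entryZ E lk39 0 3 _ _ _ _ (pg10 κ) (pg2 ι) m39_1 m39_4 l39_4 z39_4 w39_4 x39_4 (by decide) _ (chkS_sound E lk39 0 3 _ _ _ _ t39_1_4)

def r39_1_5 : List (ℕ × ℤ) := [(71, 6), (124, -6)]

theorem h39_1_5 (E : Env κ ι) : ip (F39_1 E) (F39_5 E) = dotS (ek E lk39) r39_1_5 :=
  op_entryZ E lk39 0 3 _ _ _ _ (pg10 κ) (pg2 ι) m39_1 m39_5 l39_5 z39_5 w39_5 x39_5 (by decide) _ (chkS_sound E lk39 0 3 _ _ _ _ t39_1_5)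

def r39_1_6 : List (ℕ × ℤ) := [(68, 6), (88, -6)]

theorem h39_1_6 (E : Env κ ι) : ip (F39_1 E) (F39_6 E) = dotS (ek E lk39) r39_1_6 :=
  op_entryZ E lk39 0 3 _ _ _ _ (pg10 κ) (pg2 ι) m39_1 m39_6 l39_6 z39_6 w39_6 x39_6 (by decide) _ (chkS_sound E lk39 0 3 _ _ _ _ t39_1_6)

def r39_1_7 : List (ℕ × ℤ) := [(55, 2), (56, 4), (69, 2), (75, -2), (123, -4), (124, -2)]

theorem h39_1_7 (E : Env κ ι) : ip (F39_1 E) (F39_7 E) = dotS (ek E lk39) r39_1_7 :=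
  op_entryZ E lk39 0 3 _ _ _ _ (pg10 κ) (pg2 ι) m39_1 m39_7 l39_7 z39_7 w39_7 x39_7 (by decide) _ (chkS_sound E lk39 0 3 _ _ _ _ t39_1_7)

def r39_1_8 : List (ℕ × ℤ) := [(55, -2), (56, 2), (69, 4), (75, 2), (123, -2), (124, -4)]

theorem h39_1_8 (E : Env κ ι) : ip (F39_1 E) (F39_8 E) = dotS (ek E lk39) r39_1_8 :=
  op_entryZ E lk39 0 3 _ _ _ _ (pg10 κ) (pg2 ι) m39_1 m39_8 l39_8 z39_8 w39_8 x39_8 (by decide) _ (chkS_sound E lk39 0 3 _ _ _ _ t39_1_8)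

def r39_1_9 : List (ℕ × ℤ) := [(77, 6), (92, -6)]

theorem h39_1_9 (E : Env κ ι) : ip (F39_1 E) (F39_9 E) = dotS (ek E lk39) r39_1_9 :=
  op_entryZ E lk39 0 3 _ _ _ _ (pg10 κ) (pg2 ι) m39_1 m39_9 l39_9 z39_9 w39_9 x39_9 (by decide) _ (chkS_sound E lk39 0 3 _ _ _ _ t39_1_9)

def r39_1_10 : List (ℕ × ℤ) := [(79, 6), (94, -6)]

theorem h39_1_10 (E : Env κ ι) : ip (F39_1 E) (F39_10 E) = dotS (ek E lk39) r39_1_10 :=
  op_entryZ E lk39 0 3 _ _ _ _ (pg10 κ) (pg2 ι) m39_1 m39_10 l39_10 z39_10 w39_10 x39_10 (by decide) _ (chkS_sound E lk39 0 3 _ _ _ _ t39_1_10)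

def r39_1_11 : List (ℕ × ℤ) := [(69, 6), (71, -6)]

theorem h39_1_11 (E : Env κ ι) : ip (F39_1 E) (F39_11 E) = dotS (ek E lk39) r39_1_11 :=
  op_entryZ E lk39 0 3 _ _ _ _ (pg10 κ) (pg2 ι) m39_1 m39_11 l39_11 z39_11 w39_11 x39_11 (by decide) _ (chkS_sound E lk39 0 3 _ _ _ _ t39_1_11)

def r39_1_12 : List (ℕ × ℤ) := [(25, 6), (80, -6)]

theorem h39_1_12 (E : Env κ ι) : ip (F39_1 E) (F39_12 E) = dotS (ek E lk39) r39_1_12 :=
  op_entryZ E lk39 0 3 _ _ _ _ (pg10 κ) (pg2 ι) m39_1 m39_12 l39_12 z39_12 w39_12 x39_12 (by decide) _ (chkS_sound E lk39 0 3 _ _ _ _ t39_1_12)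

def r39_1_13 : List (ℕ × ℤ) := [(84, 6), (125, -6)]

theorem h39_1_13 (E : Env κ ι) : ip (F39_1 E) (F39_13 E) = dotS (ek E lk39) r39_1_13 :=
  op_entryZ E lk39 0 3 _ _ _ _ (pg10 κ) (pg2 ι) m39_1 m39_13 l39_13 z39_13 w39_13 x39_13 (by decide) _ (chkS_sound E lk39 0 3 _ _ _ _ t39_1_13)

def r39_2_2 : List (ℕ × ℤ) := [(16, 6), (90, -6)]

theorem h39_2_2 (E : Env κ ι) : ip (F39_2 E) (F39_2 E) = dotS (ek E lk39) r39_2_2 :=
  op_entryZ E lk39 0 3 _ _ _ _ (pg10 κ) (pg2 ι) m39_2 m39_2 l39_2 z39_2 w39_2 x39_2 (by decide) _ (chkS_sound E lk39 0 3 _ _ _ _ t39_2_2)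

def r39_2_3 : List (ℕ × ℤ) := [(41, 6), (92, -6)]

theorem h39_2_3 (E : Env κ ι) : ip (F39_2 E) (F39_3 E) = dotS (ek E lk39) r39_2_3 :=
  op_entryZ E lk39 0 3 _ _ _ _ (pg10 κ) (pg2 ι) m39_2 m39_3 l39_3 z39_3 w39_3 x39_3 (by decide) _ (chkS_sound E lk39 0 3 _ _ _ _ t39_2_3)

def r39_2_4 : List (ℕ × ℤ) := [(15, 6), (87, -6)]

theorem h39_2_4 (E : Env κ ι) : ip (F39_2 E) (F39_4 E) = dotS (ek E lk39) r39_2_4 :=
  op_entryZ E lk39 0 3 _ _ _ _ (pg10 κ) (pg2 ι) m39_2 m39_4 l39_4 z39_4 w39_4 x39_4 (by decide) _ (chkS_sound E lk39 0 3 _ _ _ _ t39_2_4)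

def r39_2_5 : List (ℕ × ℤ) := [(10, -6), (39, 6)]

theorem h39_2_5 (E : Env κ ι) : ip (F39_2 E) (F39_5 E) = dotS (ek E lk39) r39_2_5 :=
  op_entryZ E lk39 0 3 _ _ _ _ (pg10 κ) (pg2 ι) m39_2 m39_5 l39_5 z39_5 w39_5 x39_5 (by decide) _ (chkS_sound E lk39 0 3 _ _ _ _ t39_2_5)

def r39_2_6 : List (ℕ × ℤ) := [(40, 6), (89, -6)]

theorem h39_2_6 (E : Env κ ι) : ip (F39_2 E) (F39_6 E) = dotS (ek E lk39) r39_2_6 :=
  op_entryZ E lk39 0 3 _ _ _ _ (pg10 κ) (pg2 ι) m39_2 m39_6 l39_6 z39_6 w39_6 x39_6 (by decide) _ (chkS_sound E lk39 0 3 _ _ _ _ t39_2_6)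

def r39_2_7 : List (ℕ × ℤ) := [(38, 6), (88, -6)]

theorem h39_2_7 (E : Env κ ι) : ip (F39_2 E) (F39_7 E) = dotS (ek E lk39) r39_2_7 :=
  op_entryZ E lk39 0 3 _ _ _ _ (pg10 κ) (pg2 ι) m39_2 m39_7 l39_7 z39_7 w39_7 x39_7 (by decide) _ (chkS_sound E lk39 0 3 _ _ _ _ t39_2_7)

def r39_2_8 : List (ℕ × ℤ) := [(39, 6), (88, -6)]

theorem h39_2_8 (E : Env κ ι) : ip (F39_2 E) (F39_8 E) = dotS (ek E lk39) r39_2_8 :=
  op_entryZ E lk39 0 3 _ _ _ _ (pg10 κ) (pg2 ι) m39_2 m39_8 l39_8 z39_8 w39_8 x39_8 (by decide) _ (chkS_sound E lk39 0 3 _ _ _ _ t39_2_8)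

def r39_2_9 : List (ℕ × ℤ) := [(41, 6), (93, -6)]

theorem h39_2_9 (E : Env κ ι) : ip (F39_2 E) (F39_9 E) = dotS (ek E lk39) r39_2_9 :=
  op_entryZ E lk39 0 3 _ _ _ _ (pg10 κ) (pg2 ι) m39_2 m39_9 l39_9 z39_9 w39_9 x39_9 (by decide) _ (chkS_sound E lk39 0 3 _ _ _ _ t39_2_9)

def r39_2_10 : List (ℕ × ℤ) := [(42, 6), (95, -6)]

theorem h39_2_10 (E : Env κ ι) : ip (F39_2 E) (F39_10 E) = dotS (ek E lk39) r39_2_10 :=
  op_entryZ E lk39 0 3 _ _ _ _ (pg10 κ) (pg2 ι) m39_2 m39_10 l39_10 z39_10 w39_10 x39_10 (by decide) _ (chkS_sound E lk39 0 3 _ _ _ _ t39_2_10)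

def r39_2_11 : List (ℕ × ℤ) := [(15, 6), (40, -6)]

theorem h39_2_11 (E : Env κ ι) : ip (F39_2 E) (F39_11 E) = dotS (ek E lk39) r39_2_11 :=
  op_entryZ E lk39 0 3 _ _ _ _ (pg10 κ) (pg2 ι) m39_2 m39_11 l39_11 z39_11 w39_11 x39_11 (by decide) _ (chkS_sound E lk39 0 3 _ _ _ _ t39_2_11)

def r39_2_12 : List (ℕ × ℤ) := [(19, 6), (29, -6)]

theorem h39_2_12 (E : Env κ ι) : ip (F39_2 E) (F39_12 E) = dotS (ek E lk39) r39_2_12 :=
  op_entryZ E lk39 0 3 _ _ _ _ (pg10 κ) (pg2 ι) m39_2 m39_12 l39_12 z39_12 w39_12 x39_12 (by decide) _ (chkS_sound E lk39 0 3 _ _ _ _ t39_2_12)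

def r39_2_13 : List (ℕ × ℤ) := [(14, 6), (96, -6)]

theorem h39_2_13 (E : Env κ ι) : ip (F39_2 E) (F39_13 E) = dotS (ek E lk39) r39_2_13 :=
  op_entryZ E lk39 0 3 _ _ _ _ (pg10 κ) (pg2 ι) m39_2 m39_13 l39_13 z39_13 w39_13 x39_13 (by decide) _ (chkS_sound E lk39 0 3 _ _ _ _ t39_2_13)

def r39_3_3 : List (ℕ × ℤ) := [(72, 4), (74, 2), (90, 2), (92, -4), (127, -4)]

theorem h39_3_3 (E : Env κ ι) : ip (F39_3 E) (F39_3 E) = dotS (ek E lk39) r39_3_3 :=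
  op_entryZ E lk39 0 3 _ _ _ _ (pg10 κ) (pg2 ι) m39_3 m39_3 l39_3 z39_3 w39_3 x39_3 (by decide) _ (chkS_sound E lk39 0 3 _ _ _ _ t39_3_3)

def r39_3_4 : List (ℕ × ℤ) := [(10, -6), (57, 6)]

theorem h39_3_4 (E : Env κ ι) : ip (F39_3 E) (F39_4 E) = dotS (ek E lk39) r39_3_4 :=
  op_entryZ E lk39 0 3 _ _ _ _ (pg10 κ) (pg2 ι) m39_3 m39_4 l39_4 z39_4 w39_4 x39_4 (by decide) _ (chkS_sound E lk39 0 3 _ _ _ _ t39_3_4)

def r39_3_5 : List (ℕ × ℤ) := [(55, 6), (124, -6)]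

theorem h39_3_5 (E : Env κ ι) : ip (F39_3 E) (F39_5 E) = dotS (ek E lk39) r39_3_5 :=
  op_entryZ E lk39 0 3 _ _ _ _ (pg10 κ) (pg2 ι) m39_3 m39_5 l39_5 z39_5 w39_5 x39_5 (by decide) _ (chkS_sound E lk39 0 3 _ _ _ _ t39_3_5)

def r39_3_6 : List (ℕ × ℤ) := [(70, 6), (88, -6)]

theorem h39_3_6 (E : Env κ ι) : ip (F39_3 E) (F39_6 E) = dotS (ek E lk39) r39_3_6 :=
  op_entryZ E lk39 0 3 _ _ _ _ (pg10 κ) (pg2 ι) m39_3 m39_6 l39_6 z39_6 w39_6 x39_6 (by decide) _ (chkS_sound E lk39 0 3 _ _ _ _ t39_3_6)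

def r39_3_7 : List (ℕ × ℤ) := [(55, 4), (56, 2), (69, -2), (75, 2), (123, -2), (124, -4)]

theorem h39_3_7 (E : Env κ ι) : ip (F39_3 E) (F39_7 E) = dotS (ek E lk39) r39_3_7 :=
  op_entryZ E lk39 0 3 _ _ _ _ (pg10 κ) (pg2 ι) m39_3 m39_7 l39_7 z39_7 w39_7 x39_7 (by decide) _ (chkS_sound E lk39 0 3 _ _ _ _ t39_3_7)

def r39_3_8 : List (ℕ × ℤ) := [(55, 2), (56, -2), (69, 2), (75, 4), (123, -4), (124, -2)]

theorem h39_3_8 (E : Env κ ι) : ip (F39_3 E) (F39_8 E) = dotS (ek E lk39) r39_3_8 :=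
  op_entryZ E lk39 0 3 _ _ _ _ (pg10 κ) (pg2 ι) m39_3 m39_8 l39_8 z39_8 w39_8 x39_8 (by decide) _ (chkS_sound E lk39 0 3 _ _ _ _ t39_3_8)

def r39_3_9 : List (ℕ × ℤ) := [(41, 6), (92, -6)]

theorem h39_3_9 (E : Env κ ι) : ip (F39_3 E) (F39_9 E) = dotS (ek E lk39) r39_3_9 :=
  op_entryZ E lk39 0 3 _ _ _ _ (pg10 κ) (pg2 ι) m39_3 m39_9 l39_9 z39_9 w39_9 x39_9 (by decide) _ (chkS_sound E lk39 0 3 _ _ _ _ t39_3_9)

def r39_3_10 : List (ℕ × ℤ) := [(42, 6), (94, -6)]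

theorem h39_3_10 (E : Env κ ι) : ip (F39_3 E) (F39_10 E) = dotS (ek E lk39) r39_3_10 :=
  op_entryZ E lk39 0 3 _ _ _ _ (pg10 κ) (pg2 ι) m39_3 m39_10 l39_10 z39_10 w39_10 x39_10 (by decide) _ (chkS_sound E lk39 0 3 _ _ _ _ t39_3_10)

def r39_3_11 : List (ℕ × ℤ) := [(56, -6), (69, 6)]

theorem h39_3_11 (E : Env κ ι) : ip (F39_3 E) (F39_11 E) = dotS (ek E lk39) r39_3_11 :=
  op_entryZ E lk39 0 3 _ _ _ _ (pg10 κ) (pg2 ι) m39_3 m39_11 l39_11 z39_11 w39_11 x39_11 (by decide) _ (chkS_sound E lk39 0 3 _ _ _ _ t39_3_11)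

def r39_3_12 : List (ℕ × ℤ) := [(25, 0)]

theorem h39_3_12 (E : Env κ ι) : ip (F39_3 E) (F39_12 E) = dotS (ek E lk39) r39_3_12 :=
  op_entryZ E lk39 0 3 _ _ _ _ (pg10 κ) (pg2 ι) m39_3 m39_12 l39_12 z39_12 w39_12 x39_12 (by decide) _ (chkS_sound E lk39 0 3 _ _ _ _ t39_3_12)

def r39_3_13 : List (ℕ × ℤ) := [(84, 6), (128, -6)]

theorem h39_3_13 (E : Env κ ι) : ip (F39_3 E) (F39_13 E) = dotS (ek E lk39) r39_3_13 :=
  op_entryZ E lk39 0 3 _ _ _ _ (pg10 κ) (pg2 ι) m39_3 m39_13 l39_13 z39_13 w39_13 x39_13 (by decide) _ (chkS_sound E lk39 0 3 _ _ _ _ t39_3_13)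

def r39_4_4 : List (ℕ × ℤ) := [(2, -6), (97, 6)]

theorem h39_4_4 (E : Env κ ι) : ip (F39_4 E) (F39_4 E) = dotS (ek E lk39) r39_4_4 :=
  op_entryZ E lk39 0 3 _ _ _ _ (pg10 κ) (pg2 ι) m39_4 m39_4 l39_4 z39_4 w39_4 x39_4 (by decide) _ (chkS_sound E lk39 0 3 _ _ _ _ t39_4_4)

def r39_4_5 : List (ℕ × ℤ) := [(51, 6), (99, -6)]

theorem h39_4_5 (E : Env κ ι) : ip (F39_4 E) (F39_5 E) = dotS (ek E lk39) r39_4_5 :=
  op_entryZ E lk39 0 3 _ _ _ _ (pg10 κ) (pg2 ι) m39_4 m39_5 l39_5 z39_5 w39_5 x39_5 (by decide) _ (chkS_sound E lk39 0 3 _ _ _ _ t39_4_5)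

def r39_4_6 : List (ℕ × ℤ) := [(11, -6), (110, 6)]

theorem h39_4_6 (E : Env κ ι) : ip (F39_4 E) (F39_6 E) = dotS (ek E lk39) r39_4_6 :=
  op_entryZ E lk39 0 3 _ _ _ _ (pg10 κ) (pg2 ι) m39_4 m39_6 l39_6 z39_6 w39_6 x39_6 (by decide) _ (chkS_sound E lk39 0 3 _ _ _ _ t39_4_6)

def r39_4_7 : List (ℕ × ℤ) := [(17, 6), (115, -6)]

theorem h39_4_7 (E : Env κ ι) : ip (F39_4 E) (F39_7 E) = dotS (ek E lk39) r39_4_7 :=
  op_entryZ E lk39 0 3 _ _ _ _ (pg10 κ) (pg2 ι) m39_4 m39_7 l39_7 z39_7 w39_7 x39_7 (by decide) _ (chkS_sound E lk39 0 3 _ _ _ _ t39_4_7)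

def r39_4_8 : List (ℕ × ℤ) := [(17, 6), (99, -6), (115, 0)]

theorem h39_4_8 (E : Env κ ι) : ip (F39_4 E) (F39_8 E) = dotS (ek E lk39) r39_4_8 :=
  op_entryZ E lk39 0 3 _ _ _ _ (pg10 κ) (pg2 ι) m39_4 m39_8 l39_8 z39_8 w39_8 x39_8 (by decide) _ (chkS_sound E lk39 0 3 _ _ _ _ t39_4_8)

def r39_4_9 : List (ℕ × ℤ) := [(15, -6), (34, 6)]

theorem h39_4_9 (E : Env κ ι) : ip (F39_4 E) (F39_9 E) = dotS (ek E lk39) r39_4_9 :=
  op_entryZ E lk39 0 3 _ _ _ _ (pg10 κ) (pg2 ι) m39_4 m39_9 l39_9 z39_9 w39_9 x39_9 (by decide) _ (chkS_sound E lk39 0 3 _ _ _ _ t39_4_9)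

def r39_4_10 : List (ℕ × ℤ) := [(19, -6), (35, 6)]

theorem h39_4_10 (E : Env κ ι) : ip (F39_4 E) (F39_10 E) = dotS (ek E lk39) r39_4_10 :=
  op_entryZ E lk39 0 3 _ _ _ _ (pg10 κ) (pg2 ι) m39_4 m39_10 l39_10 z39_10 w39_10 x39_10 (by decide) _ (chkS_sound E lk39 0 3 _ _ _ _ t39_4_10)

def r39_4_11 : List (ℕ × ℤ) := [(17, 6), (51, -6)]

theorem h39_4_11 (E : Env κ ι) : ip (F39_4 E) (F39_11 E) = dotS (ek E lk39) r39_4_11 :=
  op_entryZ E lk39 0 3 _ _ _ _ (pg10 κ) (pg2 ι) m39_4 m39_11 l39_11 z39_11 w39_11 x39_11 (by decide) _ (chkS_sound E lk39 0 3 _ _ _ _ t39_4_11)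

def r39_4_12 : List (ℕ × ℤ) := [(23, 6), (52, -6)]

theorem h39_4_12 (E : Env κ ι) : ip (F39_4 E) (F39_12 E) = dotS (ek E lk39) r39_4_12 :=
  op_entryZ E lk39 0 3 _ _ _ _ (pg10 κ) (pg2 ι) m39_4 m39_12 l39_12 z39_12 w39_12 x39_12 (by decide) _ (chkS_sound E lk39 0 3 _ _ _ _ t39_4_12)

def r39_4_13 : List (ℕ × ℤ) := [(8, -6), (132, 6)]

theorem h39_4_13 (E : Env κ ι) : ip (F39_4 E) (F39_13 E) = dotS (ek E lk39) r39_4_13 :=
  op_entryZ E lk39 0 3 _ _ _ _ (pg10 κ) (pg2 ι) m39_4 m39_13 l39_13 z39_13 w39_13 x39_13 (by decide) _ (chkS_sound E lk39 0 3 _ _ _ _ t39_4_13)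

def r39_5_5 : List (ℕ × ℤ) := [(49, 6), (118, -6)]

theorem h39_5_5 (E : Env κ ι) : ip (F39_5 E) (F39_5 E) = dotS (ek E lk39) r39_5_5 :=
  op_entryZ E lk39 0 3 _ _ _ _ (pg10 κ) (pg2 ι) m39_5 m39_5 l39_5 z39_5 w39_5 x39_5 (by decide) _ (chkS_sound E lk39 0 3 _ _ _ _ t39_5_5)

def r39_5_6 : List (ℕ × ℤ) := [(101, -6), (112, 6)]

theorem h39_5_6 (E : Env κ ι) : ip (F39_5 E) (F39_6 E) = dotS (ek E lk39) r39_5_6 :=
  op_entryZ E lk39 0 3 _ _ _ _ (pg10 κ) (pg2 ι) m39_5 m39_6 l39_6 z39_6 w39_6 x39_6 (by decide) _ (chkS_sound E lk39 0 3 _ _ _ _ t39_5_6)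

def r39_5_7 : List (ℕ × ℤ) := [(47, 6), (117, -6)]

theorem h39_5_7 (E : Env κ ι) : ip (F39_5 E) (F39_7 E) = dotS (ek E lk39) r39_5_7 :=
  op_entryZ E lk39 0 3 _ _ _ _ (pg10 κ) (pg2 ι) m39_5 m39_7 l39_7 z39_7 w39_7 x39_7 (by decide) _ (chkS_sound E lk39 0 3 _ _ _ _ t39_5_7)

def r39_5_8 : List (ℕ × ℤ) := [(47, 6), (102, -6), (117, 0)]

theorem h39_5_8 (E : Env κ ι) : ip (F39_5 E) (F39_8 E) = dotS (ek E lk39) r39_5_8 :=
  op_entryZ E lk39 0 3 _ _ _ _ (pg10 κ) (pg2 ι) m39_5 m39_8 l39_8 z39_8 w39_8 x39_8 (by decide) _ (chkS_sound E lk39 0 3 _ _ _ _ t39_5_8)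

def r39_5_9 : List (ℕ × ℤ) := [(32, 6), (69, -6)]

theorem h39_5_9 (E : Env κ ι) : ip (F39_5 E) (F39_9 E) = dotS (ek E lk39) r39_5_9 :=
  op_entryZ E lk39 0 3 _ _ _ _ (pg10 κ) (pg2 ι) m39_5 m39_9 l39_9 z39_9 w39_9 x39_9 (by decide) _ (chkS_sound E lk39 0 3 _ _ _ _ t39_5_9)

def r39_5_10 : List (ℕ × ℤ) := [(25, -6), (36, 6)]

theorem h39_5_10 (E : Env κ ι) : ip (F39_5 E) (F39_10 E) = dotS (ek E lk39) r39_5_10 :=
  op_entryZ E lk39 0 3 _ _ _ _ (pg10 κ) (pg2 ι) m39_5 m39_10 l39_10 z39_10 w39_10 x39_10 (by decide) _ (chkS_sound E lk39 0 3 _ _ _ _ t39_5_10)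

def r39_5_11 : List (ℕ × ℤ) := [(50, -6), (111, 6)]

theorem h39_5_11 (E : Env κ ι) : ip (F39_5 E) (F39_11 E) = dotS (ek E lk39) r39_5_11 :=
  op_entryZ E lk39 0 3 _ _ _ _ (pg10 κ) (pg2 ι) m39_5 m39_11 l39_11 z39_11 w39_11 x39_11 (by decide) _ (chkS_sound E lk39 0 3 _ _ _ _ t39_5_11)

def r39_5_12 : List (ℕ × ℤ) := [(24, 6), (53, -6)]

theorem h39_5_12 (E : Env κ ι) : ip (F39_5 E) (F39_12 E) = dotS (ek E lk39) r39_5_12 :=
  op_entryZ E lk39 0 3 _ _ _ _ (pg10 κ) (pg2 ι) m39_5 m39_12 l39_12 z39_12 w39_12 x39_12 (by decide) _ (chkS_sound E lk39 0 3 _ _ _ _ t39_5_12)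

def r39_5_13 : List (ℕ × ℤ) := [(9, -6), (120, 6)]

theorem h39_5_13 (E : Env κ ι) : ip (F39_5 E) (F39_13 E) = dotS (ek E lk39) r39_5_13 :=
  op_entryZ E lk39 0 3 _ _ _ _ (pg10 κ) (pg2 ι) m39_5 m39_13 l39_13 z39_13 w39_13 x39_13 (by decide) _ (chkS_sound E lk39 0 3 _ _ _ _ t39_5_13)

def r39_6_6 : List (ℕ × ℤ) := [(119, -6), (130, 6)]

theorem h39_6_6 (E : Env κ ι) : ip (F39_6 E) (F39_6 E) = dotS (ek E lk39) r39_6_6 :=
  op_entryZ E lk39 0 3 _ _ _ _ (pg10 κ) (pg2 ι) m39_6 m39_6 l39_6 z39_6 w39_6 x39_6 (by decide) _ (chkS_sound E lk39 0 3 _ _ _ _ t39_6_6)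

def r39_6_7 : List (ℕ × ℤ) := [(106, 6), (116, -6)]

theorem h39_6_7 (E : Env κ ι) : ip (F39_6 E) (F39_7 E) = dotS (ek E lk39) r39_6_7 :=
  op_entryZ E lk39 0 3 _ _ _ _ (pg10 κ) (pg2 ι) m39_6 m39_7 l39_7 z39_7 w39_7 x39_7 (by decide) _ (chkS_sound E lk39 0 3 _ _ _ _ t39_6_7)

def r39_6_8 : List (ℕ × ℤ) := [(101, -6), (106, 6), (116, 0)]

theorem h39_6_8 (E : Env κ ι) : ip (F39_6 E) (F39_8 E) = dotS (ek E lk39) r39_6_8 :=
  op_entryZ E lk39 0 3 _ _ _ _ (pg10 κ) (pg2 ι) m39_6 m39_8 l39_8 z39_8 w39_8 x39_8 (by decide) _ (chkS_sound E lk39 0 3 _ _ _ _ t39_6_8)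

def r39_6_9 : List (ℕ × ℤ) := [(40, -6), (76, 6)]

theorem h39_6_9 (E : Env κ ι) : ip (F39_6 E) (F39_9 E) = dotS (ek E lk39) r39_6_9 :=
  op_entryZ E lk39 0 3 _ _ _ _ (pg10 κ) (pg2 ι) m39_6 m39_9 l39_9 z39_9 w39_9 x39_9 (by decide) _ (chkS_sound E lk39 0 3 _ _ _ _ t39_6_9)

def r39_6_10 : List (ℕ × ℤ) := [(29, -6), (78, 6)]

theorem h39_6_10 (E : Env κ ι) : ip (F39_6 E) (F39_10 E) = dotS (ek E lk39) r39_6_10 :=
  op_entryZ E lk39 0 3 _ _ _ _ (pg10 κ) (pg2 ι) m39_6 m39_10 l39_10 z39_10 w39_10 x39_10 (by decide) _ (chkS_sound E lk39 0 3 _ _ _ _ t39_6_10)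

def r39_6_11 : List (ℕ × ℤ) := [(106, 6), (112, -6)]

theorem h39_6_11 (E : Env κ ι) : ip (F39_6 E) (F39_11 E) = dotS (ek E lk39) r39_6_11 :=
  op_entryZ E lk39 0 3 _ _ _ _ (pg10 κ) (pg2 ι) m39_6 m39_11 l39_11 z39_11 w39_11 x39_11 (by decide) _ (chkS_sound E lk39 0 3 _ _ _ _ t39_6_11)

def r39_6_12 : List (ℕ × ℤ) := [(27, 6), (114, -6)]

theorem h39_6_12 (E : Env κ ι) : ip (F39_6 E) (F39_12 E) = dotS (ek E lk39) r39_6_12 :=
  op_entryZ E lk39 0 3 _ _ _ _ (pg10 κ) (pg2 ι) m39_6 m39_12 l39_12 z39_12 w39_12 x39_12 (by decide) _ (chkS_sound E lk39 0 3 _ _ _ _ t39_6_12)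

def r39_6_13 : List (ℕ × ℤ) := [(131, 6), (135, -6)]

theorem h39_6_13 (E : Env κ ι) : ip (F39_6 E) (F39_13 E) = dotS (ek E lk39) r39_6_13 :=
  op_entryZ E lk39 0 3 _ _ _ _ (pg10 κ) (pg2 ι) m39_6 m39_13 l39_13 z39_13 w39_13 x39_13 (by decide) _ (chkS_sound E lk39 0 3 _ _ _ _ t39_6_13)

def r39_7_7 : List (ℕ × ℤ) := [(100, 2), (102, -4), (103, 4), (105, 2), (118, -4)]

theorem h39_7_7 (E : Env κ ι) : ip (F39_7 E) (F39_7 E) = dotS (ek E lk39) r39_7_7 :=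
  op_entryZ E lk39 0 3 _ _ _ _ (pg10 κ) (pg2 ι) m39_7 m39_7 l39_7 z39_7 w39_7 x39_7 (by decide) _ (chkS_sound E lk39 0 3 _ _ _ _ t39_7_7)

def r39_7_8 : List (ℕ × ℤ) := [(100, -2), (102, -2), (103, 2), (105, 4), (118, -2)]

theorem h39_7_8 (E : Env κ ι) : ip (F39_7 E) (F39_8 E) = dotS (ek E lk39) r39_7_8 :=
  op_entryZ E lk39 0 3 _ _ _ _ (pg10 κ) (pg2 ι) m39_7 m39_8 l39_8 z39_8 w39_8 x39_8 (by decide) _ (chkS_sound E lk39 0 3 _ _ _ _ t39_7_8)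

def r39_7_9 : List (ℕ × ℤ) := [(58, 6), (71, -6)]

theorem h39_7_9 (E : Env κ ι) : ip (F39_7 E) (F39_9 E) = dotS (ek E lk39) r39_7_9 :=
  op_entryZ E lk39 0 3 _ _ _ _ (pg10 κ) (pg2 ι) m39_7 m39_9 l39_9 z39_9 w39_9 x39_9 (by decide) _ (chkS_sound E lk39 0 3 _ _ _ _ t39_7_9)

def r39_7_10 : List (ℕ × ℤ) := [(30, 6), (80, -6)]

theorem h39_7_10 (E : Env κ ι) : ip (F39_7 E) (F39_10 E) = dotS (ek E lk39) r39_7_10 :=
  op_entryZ E lk39 0 3 _ _ _ _ (pg10 κ) (pg2 ι) m39_7 m39_10 l39_10 z39_10 w39_10 x39_10 (by decide) _ (chkS_sound E lk39 0 3 _ _ _ _ t39_7_10)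

def r39_7_11 : List (ℕ × ℤ) := [(48, -6), (107, 6)]

theorem h39_7_11 (E : Env κ ι) : ip (F39_7 E) (F39_11 E) = dotS (ek E lk39) r39_7_11 :=
  op_entryZ E lk39 0 3 _ _ _ _ (pg10 κ) (pg2 ι) m39_7 m39_11 l39_11 z39_11 w39_11 x39_11 (by decide) _ (chkS_sound E lk39 0 3 _ _ _ _ t39_7_11)

def r39_7_12 : List (ℕ × ℤ) := [(24, -6), (108, 6)]

theorem h39_7_12 (E : Env κ ι) : ip (F39_7 E) (F39_12 E) = dotS (ek E lk39) r39_7_12 :=
  op_entryZ E lk39 0 3 _ _ _ _ (pg10 κ) (pg2 ι) m39_7 m39_12 l39_12 z39_12 w39_12 x39_12 (by decide) _ (chkS_sound E lk39 0 3 _ _ _ _ t39_7_12)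

def r39_7_13 : List (ℕ × ℤ) := [(109, 6), (134, -6)]

theorem h39_7_13 (E : Env κ ι) : ip (F39_7 E) (F39_13 E) = dotS (ek E lk39) r39_7_13 :=
  op_entryZ E lk39 0 3 _ _ _ _ (pg10 κ) (pg2 ι) m39_7 m39_13 l39_13 z39_13 w39_13 x39_13 (by decide) _ (chkS_sound E lk39 0 3 _ _ _ _ t39_7_13)

def r39_8_8 : List (ℕ × ℤ) := [(100, -4), (102, -4), (103, 4), (105, 2), (118, 2)]

theorem h39_8_8 (E : Env κ ι) : ip (F39_8 E) (F39_8 E) = dotS (ek E lk39) r39_8_8 :=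
  op_entryZ E lk39 0 3 _ _ _ _ (pg10 κ) (pg2 ι) m39_8 m39_8 l39_8 z39_8 w39_8 x39_8 (by decide) _ (chkS_sound E lk39 0 3 _ _ _ _ t39_8_8)

def r39_8_9 : List (ℕ × ℤ) := [(56, -6), (58, 6)]

theorem h39_8_9 (E : Env κ ι) : ip (F39_8 E) (F39_9 E) = dotS (ek E lk39) r39_8_9 :=
  op_entryZ E lk39 0 3 _ _ _ _ (pg10 κ) (pg2 ι) m39_8 m39_9 l39_9 z39_9 w39_9 x39_9 (by decide) _ (chkS_sound E lk39 0 3 _ _ _ _ t39_8_9)

def r39_8_10 : List (ℕ × ℤ) := [(25, -6), (30, 6)]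

theorem h39_8_10 (E : Env κ ι) : ip (F39_8 E) (F39_10 E) = dotS (ek E lk39) r39_8_10 :=
  op_entryZ E lk39 0 3 _ _ _ _ (pg10 κ) (pg2 ι) m39_8 m39_10 l39_10 z39_10 w39_10 x39_10 (by decide) _ (chkS_sound E lk39 0 3 _ _ _ _ t39_8_10)

def r39_8_11 : List (ℕ × ℤ) := [(48, -6), (104, 6)]

theorem h39_8_11 (E : Env κ ι) : ip (F39_8 E) (F39_11 E) = dotS (ek E lk39) r39_8_11 :=
  op_entryZ E lk39 0 3 _ _ _ _ (pg10 κ) (pg2 ι) m39_8 m39_11 l39_11 z39_11 w39_11 x39_11 (by decide) _ (chkS_sound E lk39 0 3 _ _ _ _ t39_8_11)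

def r39_8_12 : List (ℕ × ℤ) := [(24, -6), (26, 6)]

theorem h39_8_12 (E : Env κ ι) : ip (F39_8 E) (F39_12 E) = dotS (ek E lk39) r39_8_12 :=
  op_entryZ E lk39 0 3 _ _ _ _ (pg10 κ) (pg2 ι) m39_8 m39_12 l39_12 z39_12 w39_12 x39_12 (by decide) _ (chkS_sound E lk39 0 3 _ _ _ _ t39_8_12)

def r39_8_13 : List (ℕ × ℤ) := [(121, 6), (134, -6)]

theorem h39_8_13 (E : Env κ ι) : ip (F39_8 E) (F39_13 E) = dotS (ek E lk39) r39_8_13 :=
  op_entryZ E lk39 0 3 _ _ _ _ (pg10 κ) (pg2 ι) m39_8 m39_13 l39_13 z39_13 w39_13 x39_13 (by decide) _ (chkS_sound E lk39 0 3 _ _ _ _ t39_8_13)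

def r39_9_9 : List (ℕ × ℤ) := [(74, -6), (81, 6)]

theorem h39_9_9 (E : Env κ ι) : ip (F39_9 E) (F39_9 E) = dotS (ek E lk39) r39_9_9 :=
  op_entryZ E lk39 0 3 _ _ _ _ (pg10 κ) (pg2 ι) m39_9 m39_9 l39_9 z39_9 w39_9 x39_9 (by decide) _ (chkS_sound E lk39 0 3 _ _ _ _ t39_9_9)

def r39_9_10 : List (ℕ × ℤ) := [(42, -6), (82, 6)]

theorem h39_9_10 (E : Env κ ι) : ip (F39_9 E) (F39_10 E) = dotS (ek E lk39) r39_9_10 :=
  op_entryZ E lk39 0 3 _ _ _ _ (pg10 κ) (pg2 ι) m39_9 m39_10 l39_10 z39_10 w39_10 x39_10 (by decide) _ (chkS_sound E lk39 0 3 _ _ _ _ t39_9_10)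

def r39_9_11 : List (ℕ × ℤ) := [(33, -6), (73, 6)]

theorem h39_9_11 (E : Env κ ι) : ip (F39_9 E) (F39_11 E) = dotS (ek E lk39) r39_9_11 :=
  op_entryZ E lk39 0 3 _ _ _ _ (pg10 κ) (pg2 ι) m39_9 m39_11 l39_11 z39_11 w39_11 x39_11 (by decide) _ (chkS_sound E lk39 0 3 _ _ _ _ t39_9_11)

def r39_9_12 : List (ℕ × ℤ) := [(30, 6), (36, -6)]

theorem h39_9_12 (E : Env κ ι) : ip (F39_9 E) (F39_12 E) = dotS (ek E lk39) r39_9_12 :=
  op_entryZ E lk39 0 3 _ _ _ _ (pg10 κ) (pg2 ι) m39_9 m39_12 l39_12 z39_12 w39_12 x39_12 (by decide) _ (chkS_sound E lk39 0 3 _ _ _ _ t39_9_12)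

def r39_9_13 : List (ℕ × ℤ) := [(85, 6), (129, -6)]

theorem h39_9_13 (E : Env κ ι) : ip (F39_9 E) (F39_13 E) = dotS (ek E lk39) r39_9_13 :=
  op_entryZ E lk39 0 3 _ _ _ _ (pg10 κ) (pg2 ι) m39_9 m39_13 l39_13 z39_13 w39_13 x39_13 (by decide) _ (chkS_sound E lk39 0 3 _ _ _ _ t39_9_13)

def r39_10_10 : List (ℕ × ℤ) := [(6, -6), (83, 6)]

theorem h39_10_10 (E : Env κ ι) : ip (F39_10 E) (F39_10 E) = dotS (ek E lk39) r39_10_10 :=
  op_entryZ E lk39 0 3 _ _ _ _ (pg10 κ) (pg2 ι) m39_10 m39_10 l39_10 z39_10 w39_10 x39_10 (by decide) _ (chkS_sound E lk39 0 3 _ _ _ _ t39_10_10)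

def r39_10_11 : List (ℕ × ℤ) := [(30, 6), (36, -6)]

theorem h39_10_11 (E : Env κ ι) : ip (F39_10 E) (F39_11 E) = dotS (ek E lk39) r39_10_11 :=
  op_entryZ E lk39 0 3 _ _ _ _ (pg10 κ) (pg2 ι) m39_10 m39_11 l39_11 z39_11 w39_11 x39_11 (by decide) _ (chkS_sound E lk39 0 3 _ _ _ _ t39_10_11)

def r39_10_12 : List (ℕ × ℤ) := [(31, 6), (37, -6)]

theorem h39_10_12 (E : Env κ ι) : ip (F39_10 E) (F39_12 E) = dotS (ek E lk39) r39_10_12 :=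
  op_entryZ E lk39 0 3 _ _ _ _ (pg10 κ) (pg2 ι) m39_10 m39_12 l39_12 z39_12 w39_12 x39_12 (by decide) _ (chkS_sound E lk39 0 3 _ _ _ _ t39_10_12)

def r39_10_13 : List (ℕ × ℤ) := [(86, 6), (126, -6)]

theorem h39_10_13 (E : Env κ ι) : ip (F39_10 E) (F39_13 E) = dotS (ek E lk39) r39_10_13 :=
  op_entryZ E lk39 0 3 _ _ _ _ (pg10 κ) (pg2 ι) m39_10 m39_13 l39_13 z39_13 w39_13 x39_13 (by decide) _ (chkS_sound E lk39 0 3 _ _ _ _ t39_10_13)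

def r39_11_11 : List (ℕ × ℤ) := [(98, 6), (113, -6)]

theorem h39_11_11 (E : Env κ ι) : ip (F39_11 E) (F39_11 E) = dotS (ek E lk39) r39_11_11 :=
  op_entryZ E lk39 0 3 _ _ _ _ (pg10 κ) (pg2 ι) m39_11 m39_11 l39_11 z39_11 w39_11 x39_11 (by decide) _ (chkS_sound E lk39 0 3 _ _ _ _ t39_11_11)

def r39_11_12 : List (ℕ × ℤ) := [(28, -6), (54, 6)]

theorem h39_11_12 (E : Env κ ι) : ip (F39_11 E) (F39_12 E) = dotS (ek E lk39) r39_11_12 :=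
  op_entryZ E lk39 0 3 _ _ _ _ (pg10 κ) (pg2 ι) m39_11 m39_12 l39_12 z39_12 w39_12 x39_12 (by decide) _ (chkS_sound E lk39 0 3 _ _ _ _ t39_11_12)

def r39_11_13 : List (ℕ × ℤ) := [(13, 6), (133, -6)]

theorem h39_11_13 (E : Env κ ι) : ip (F39_11 E) (F39_13 E) = dotS (ek E lk39) r39_11_13 :=
  op_entryZ E lk39 0 3 _ _ _ _ (pg10 κ) (pg2 ι) m39_11 m39_13 l39_13 z39_13 w39_13 x39_13 (by decide) _ (chkS_sound E lk39 0 3 _ _ _ _ t39_11_13)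

def r39_12_12 : List (ℕ × ℤ) := [(0, 6), (7, -6)]

theorem h39_12_12 (E : Env κ ι) : ip (F39_12 E) (F39_12 E) = dotS (ek E lk39) r39_12_12 :=
  op_entryZ E lk39 0 3 _ _ _ _ (pg10 κ) (pg2 ι) m39_12 m39_12 l39_12 z39_12 w39_12 x39_12 (by decide) _ (chkS_sound E lk39 0 3 _ _ _ _ t39_12_12)

def r39_12_13 : List (ℕ × ℤ) := [(22, 6), (122, -6)]

theorem h39_12_13 (E : Env κ ι) : ip (F39_12 E) (F39_13 E) = dotS (ek E lk39) r39_12_13 :=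
  op_entryZ E lk39 0 3 _ _ _ _ (pg10 κ) (pg2 ι) m39_12 m39_13 l39_13 z39_13 w39_13 x39_13 (by decide) _ (chkS_sound E lk39 0 3 _ _ _ _ t39_12_13)

def r39_13_13 : List (ℕ × ℤ) := [(12, 6), (136, -6)]

theorem h39_13_13 (E : Env κ ι) : ip (F39_13 E) (F39_13 E) = dotS (ek E lk39) r39_13_13 :=
  op_entryZ E lk39 0 3 _ _ _ _ (pg10 κ) (pg2 ι) m39_13 m39_13 l39_13 z39_13 w39_13 x39_13 (by decide) _ (chkS_sound E lk39 0 3 _ _ _ _ t39_13_13)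

theorem row39_0 (E : Env κ ι) : RowG (ek E lk39) (F39_0 E) [F39_0 E, F39_1 E, F39_2 E, F39_3 E, F39_4 E, F39_5 E, F39_6 E, F39_7 E, F39_8 E, F39_9 E, F39_10 E, F39_11 E, F39_12 E, F39_13 E] [r39_0_0, r39_0_1, r39_0_2, r39_0_3, r39_0_4, r39_0_5, r39_0_6, r39_0_7, r39_0_8, r39_0_9, r39_0_10, r39_0_11, r39_0_12, r39_0_13] :=
  rowG_cons _ _ _ _ _ _ (h39_0_0 E) (rowG_cons _ _ _ _ _ _ (h39_0_1 E) (rowG_cons _ _ _ _ _ _ (h39_0_2 E) (rowG_cons _ _ _ _ _ _ (h39_0_3 E) (rowG_cons _ _ _ _ _ _ (h39_0_4 E) (rowG_cons _ _ _ _ _ _ (h39_0_5 E) (rowG_cons _ _ _ _ _ _ (h39_0_6 E) (rowG_cons _ _ _ _ _ _ (h39_0_7 E) (rowG_cons _ _ _ _ _ _ (h39_0_8 E) (rowG_cons _ _ _ _ _ _ (h39_0_9 E) (rowG_cons _ _ _ _ _ _ (h39_0_10 E) (rowG_cons _ _ _ _ _ _ (h39_0_11 E) (rowG_cons _ _ _ _ _ _ (h39_0_12 E) (rowG_cons _ _ _ _ _ _ (h39_0_13 E) (rowG_nil _ _))))))))))))))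

theorem row39_1 (E : Env κ ι) : RowG (ek E lk39) (F39_1 E) [F39_1 E, F39_2 E, F39_3 E, F39_4 E, F39_5 E, F39_6 E, F39_7 E, F39_8 E, F39_9 E, F39_10 E, F39_11 E, F39_12 E, F39_13 E] [r39_1_1, r39_1_2, r39_1_3, r39_1_4, r39_1_5, r39_1_6, r39_1_7, r39_1_8, r39_1_9, r39_1_10, r39_1_11, r39_1_12, r39_1_13] :=
  rowG_cons _ _ _ _ _ _ (h39_1_1 E) (rowG_cons _ _ _ _ _ _ (h39_1_2 E) (rowG_cons _ _ _ _ _ _ (h39_1_3 E) (rowG_cons _ _ _ _ _ _ (h39_1_4 E) (rowG_cons _ _ _ _ _ _ (h39_1_5 E) (rowG_cons _ _ _ _ _ _ (h39_1_6 E) (rowG_cons _ _ _ _ _ _ (h39_1_7 E) (rowG_cons _ _ _ _ _ _ (h39_1_8 E) (rowG_cons _ _ _ _ _ _ (h39_1_9 E) (rowG_cons _ _ _ _ _ _ (h39_1_10 E) (rowG_cons _ _ _ _ _ _ (h39_1_11 E) (rowG_cons _ _ _ _ _ _ (h39_1_12 E) (rowG_cons _ _ _ _ _ _ (h39_1_13 E) (rowG_nil _ _)))))))))))))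

theorem row39_2 (E : Env κ ι) : RowG (ek E lk39) (F39_2 E) [F39_2 E, F39_3 E, F39_4 E, F39_5 E, F39_6 E, F39_7 E, F39_8 E, F39_9 E, F39_10 E, F39_11 E, F39_12 E, F39_13 E] [r39_2_2, r39_2_3, r39_2_4, r39_2_5, r39_2_6, r39_2_7, r39_2_8, r39_2_9, r39_2_10, r39_2_11, r39_2_12, r39_2_13] :=
  rowG_cons _ _ _ _ _ _ (h39_2_2 E) (rowG_cons _ _ _ _ _ _ (h39_2_3 E) (rowG_cons _ _ _ _ _ _ (h39_2_4 E) (rowG_cons _ _ _ _ _ _ (h39_2_5 E) (rowG_cons _ _ _ _ _ _ (h39_2_6 E) (rowG_cons _ _ _ _ _ _ (h39_2_7 E) (rowG_cons _ _ _ _ _ _ (h39_2_8 E) (rowG_cons _ _ _ _ _ _ (h39_2_9 E) (rowG_cons _ _ _ _ _ _ (h39_2_10 E) (rowG_cons _ _ _ _ _ _ (h39_2_11 E) (rowG_cons _ _ _ _ _ _ (h39_2_12 E) (rowG_cons _ _ _ _ _ _ (h39_2_13 E) (rowG_nil _ _))))))))))))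

theorem row39_3 (E : Env κ ι) : RowG (ek E lk39) (F39_3 E) [F39_3 E, F39_4 E, F39_5 E, F39_6 E, F39_7 E, F39_8 E, F39_9 E, F39_10 E, F39_11 E, F39_12 E, F39_13 E] [r39_3_3, r39_3_4, r39_3_5, r39_3_6, r39_3_7, r39_3_8, r39_3_9, r39_3_10, r39_3_11, r39_3_12, r39_3_13] :=
  rowG_cons _ _ _ _ _ _ (h39_3_3 E) (rowG_cons _ _ _ _ _ _ (h39_3_4 E) (rowG_cons _ _ _ _ _ _ (h39_3_5 E) (rowG_cons _ _ _ _ _ _ (h39_3_6 E) (rowG_cons _ _ _ _ _ _ (h39_3_7 E) (rowG_cons _ _ _ _ _ _ (h39_3_8 E) (rowG_cons _ _ _ _ _ _ (h39_3_9 E) (rowG_cons _ _ _ _ _ _ (h39_3_10 E) (rowG_cons _ _ _ _ _ _ (h39_3_11 E) (rowG_cons _ _ _ _ _ _ (h39_3_12 E) (rowG_cons _ _ _ _ _ _ (h39_3_13 E) (rowG_nil _ _)))))))))))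

theorem row39_4 (E : Env κ ι) : RowG (ek E lk39) (F39_4 E) [F39_4 E, F39_5 E, F39_6 E, F39_7 E, F39_8 E, F39_9 E, F39_10 E, F39_11 E, F39_12 E, F39_13 E] [r39_4_4, r39_4_5, r39_4_6, r39_4_7, r39_4_8, r39_4_9, r39_4_10, r39_4_11, r39_4_12, r39_4_13] :=
  rowG_cons _ _ _ _ _ _ (h39_4_4 E) (rowG_cons _ _ _ _ _ _ (h39_4_5 E) (rowG_cons _ _ _ _ _ _ (h39_4_6 E) (rowG_cons _ _ _ _ _ _ (h39_4_7 E) (rowG_cons _ _ _ _ _ _ (h39_4_8 E) (rowG_cons _ _ _ _ _ _ (h39_4_9 E) (rowG_cons _ _ _ _ _ _ (h39_4_10 E) (rowG_cons _ _ _ _ _ _ (h39_4_11 E) (rowG_cons _ _ _ _ _ _ (h39_4_12 E) (rowG_cons _ _ _ _ _ _ (h39_4_13 E) (rowG_nil _ _))))))))))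

theorem row39_5 (E : Env κ ι) : RowG (ek E lk39) (F39_5 E) [F39_5 E, F39_6 E, F39_7 E, F39_8 E, F39_9 E, F39_10 E, F39_11 E, F39_12 E, F39_13 E] [r39_5_5, r39_5_6, r39_5_7, r39_5_8, r39_5_9, r39_5_10, r39_5_11, r39_5_12, r39_5_13] :=
  rowG_cons _ _ _ _ _ _ (h39_5_5 E) (rowG_cons _ _ _ _ _ _ (h39_5_6 E) (rowG_cons _ _ _ _ _ _ (h39_5_7 E) (rowG_cons _ _ _ _ _ _ (h39_5_8 E) (rowG_cons _ _ _ _ _ _ (h39_5_9 E) (rowG_cons _ _ _ _ _ _ (h39_5_10 E) (rowG_cons _ _ _ _ _ _ (h39_5_11 E) (rowG_cons _ _ _ _ _ _ (h39_5_12 E) (rowG_cons _ _ _ _ _ _ (h39_5_13 E) (rowG_nil _ _)))))))))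

theorem row39_6 (E : Env κ ι) : RowG (ek E lk39) (F39_6 E) [F39_6 E, F39_7 E, F39_8 E, F39_9 E, F39_10 E, F39_11 E, F39_12 E, F39_13 E] [r39_6_6, r39_6_7, r39_6_8, r39_6_9, r39_6_10, r39_6_11, r39_6_12, r39_6_13] :=
  rowG_cons _ _ _ _ _ _ (h39_6_6 E) (rowG_cons _ _ _ _ _ _ (h39_6_7 E) (rowG_cons _ _ _ _ _ _ (h39_6_8 E) (rowG_cons _ _ _ _ _ _ (h39_6_9 E) (rowG_cons _ _ _ _ _ _ (h39_6_10 E) (rowG_cons _ _ _ _ _ _ (h39_6_11 E) (rowG_cons _ _ _ _ _ _ (h39_6_12 E) (rowG_cons _ _ _ _ _ _ (h39_6_13 E) (rowG_nil _ _))))))))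

theorem row39_7 (E : Env κ ι) : RowG (ek E lk39) (F39_7 E) [F39_7 E, F39_8 E, F39_9 E, F39_10 E, F39_11 E, F39_12 E, F39_13 E] [r39_7_7, r39_7_8, r39_7_9, r39_7_10, r39_7_11, r39_7_12, r39_7_13] :=
  rowG_cons _ _ _ _ _ _ (h39_7_7 E) (rowG_cons _ _ _ _ _ _ (h39_7_8 E) (rowG_cons _ _ _ _ _ _ (h39_7_9 E) (rowG_cons _ _ _ _ _ _ (h39_7_10 E) (rowG_cons _ _ _ _ _ _ (h39_7_11 E) (rowG_cons _ _ _ _ _ _ (h39_7_12 E) (rowG_cons _ _ _ _ _ _ (h39_7_13 E) (rowG_nil _ _)))))))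

theorem row39_8 (E : Env κ ι) : RowG (ek E lk39) (F39_8 E) [F39_8 E, F39_9 E, F39_10 E, F39_11 E, F39_12 E, F39_13 E] [r39_8_8, r39_8_9, r39_8_10, r39_8_11, r39_8_12, r39_8_13] :=
  rowG_cons _ _ _ _ _ _ (h39_8_8 E) (rowG_cons _ _ _ _ _ _ (h39_8_9 E) (rowG_cons _ _ _ _ _ _ (h39_8_10 E) (rowG_cons _ _ _ _ _ _ (h39_8_11 E) (rowG_cons _ _ _ _ _ _ (h39_8_12 E) (rowG_cons _ _ _ _ _ _ (h39_8_13 E) (rowG_nil _ _))))))

theorem row39_9 (E : Env κ ι) : RowG (ek E lk39) (F39_9 E) [F39_9 E, F39_10 E, F39_11 E, F39_12 E, F39_13 E] [r39_9_9, r39_9_10, r39_9_11, r39_9_12, r39_9_13] :=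
  rowG_cons _ _ _ _ _ _ (h39_9_9 E) (rowG_cons _ _ _ _ _ _ (h39_9_10 E) (rowG_cons _ _ _ _ _ _ (h39_9_11 E) (rowG_cons _ _ _ _ _ _ (h39_9_12 E) (rowG_cons _ _ _ _ _ _ (h39_9_13 E) (rowG_nil _ _)))))

theorem row39_10 (E : Env κ ι) : RowG (ek E lk39) (F39_10 E) [F39_10 E, F39_11 E, F39_12 E, F39_13 E] [r39_10_10, r39_10_11, r39_10_12, r39_10_13] :=
  rowG_cons _ _ _ _ _ _ (h39_10_10 E) (rowG_cons _ _ _ _ _ _ (h39_10_11 E) (rowG_cons _ _ _ _ _ _ (h39_10_12 E) (rowG_cons _ _ _ _ _ _ (h39_10_13 E) (rowG_nil _ _))))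

theorem row39_11 (E : Env κ ι) : RowG (ek E lk39) (F39_11 E) [F39_11 E, F39_12 E, F39_13 E] [r39_11_11, r39_11_12, r39_11_13] :=
  rowG_cons _ _ _ _ _ _ (h39_11_11 E) (rowG_cons _ _ _ _ _ _ (h39_11_12 E) (rowG_cons _ _ _ _ _ _ (h39_11_13 E) (rowG_nil _ _)))

theorem row39_12 (E : Env κ ι) : RowG (ek E lk39) (F39_12 E) [F39_12 E, F39_13 E] [r39_12_12, r39_12_13] :=
  rowG_cons _ _ _ _ _ _ (h39_12_12 E) (rowG_cons _ _ _ _ _ _ (h39_12_13 E) (rowG_nil _ _))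

theorem row39_13 (E : Env κ ι) : RowG (ek E lk39) (F39_13 E) [F39_13 E] [r39_13_13] :=
  rowG_cons _ _ _ _ _ _ (h39_13_13 E) (rowG_nil _ _)

def tab39 : List (List (List (ℕ × ℤ))) := [[r39_0_0, r39_0_1, r39_0_2, r39_0_3, r39_0_4, r39_0_5, r39_0_6, r39_0_7, r39_0_8, r39_0_9, r39_0_10, r39_0_11, r39_0_12, r39_0_13], [r39_1_1, r39_1_2, r39_1_3, r39_1_4, r39_1_5, r39_1_6, r39_1_7, r39_1_8, r39_1_9, r39_1_10, r39_1_11, r39_1_12, r39_1_13], [r39_2_2, r39_2_3, r39_2_4, r39_2_5, r39_2_6, r39_2_7, r39_2_8, r39_2_9, r39_2_10, r39_2_11, r39_2_12, r39_2_13], [r39_3_3, r39_3_4, r39_3_5, r39_3_6, r39_3_7, r39_3_8, r39_3_9, r39_3_10, r39_3_11, r39_3_12, r39_3_13], [r39_4_4, r39_4_5, r39_4_6, r39_4_7, r39_4_8, r39_4_9, r39_4_10, r39_4_11, r39_4_12, r39_4_13], [r39_5_5, r39_5_6, r39_5_7, r39_5_8, r39_5_9, r39_5_10, r39_5_11, r39_5_12, r39_5_13], [r39_6_6, r39_6_7, r39_6_8,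 r39_6_9, r39_6_10, r39_6_11, r39_6_12, r39_6_13], [r39_7_7, r39_7_8, r39_7_9, r39_7_10, r39_7_11, r39_7_12, r39_7_13], [r39_8_8, r39_8_9, r39_8_10, r39_8_11, r39_8_12, r39_8_13], [r39_9_9, r39_9_10, r39_9_11, r39_9_12, r39_9_13], [r39_10_10, r39_10_11, r39_10_12, r39_10_13], [r39_11_11, r39_11_12, r39_11_13], [r39_12_12, r39_12_13], [r39_13_13]]

theorem tri39 (E : Env κ ι) : TriG (ek E lk39) [F39_0 E, F39_1 E, F39_2 E, F39_3 E, F39_4 E, F39_5 E, F39_6 E, F39_7 E, F39_8 E, F39_9 E, F39_10 E, F39_11 E, F39_12 E, F39_13 E] tab39 := by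
  refine triG_cons _ _ _ _ _ (row39_0 E) ?_
  refine triG_cons _ _ _ _ _ (row39_1 E) ?_
  refine triG_cons _ _ _ _ _ (row39_2 E) ?_
  refine triG_cons _ _ _ _ _ (row39_3 E) ?_
  refine triG_cons _ _ _ _ _ (row39_4 E) ?_
  refine triG_cons _ _ _ _ _ (row39_5 E) ?_
  refine triG_cons _ _ _ _ _ (row39_6 E) ?_
  refine triG_cons _ _ _ _ _ (row39_7 E) ?_
  refine triG_cons _ _ _ _ _ (row39_8 E) ?_
  refine triG_cons _ _ _ _ _ (row39_9 E) ?_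
  refine triG_cons _ _ _ _ _ (row39_10 E) ?_
  refine triG_cons _ _ _ _ _ (row39_11 E) ?_
  refine triG_cons _ _ _ _ _ (row39_12 E) ?_
  refine triG_cons _ _ _ _ _ (row39_13 E) ?_
  exact triG_nil _

end

def lk40 : List Key := [
  (2, 7, [(0, [0], [0, 1]), (0, [0], [2, 0]), (0, [1], [1, 3]), (4, [], [3]), (0, [1], [4, 5]), (1, [], [4, 6]), (1, [], [2, 6]), (4, [], [5])]),
  (2, 7, [(0, [0], [0, 1]), (0, [0], [2, 0]), (0, [1], [1, 3]), (4, [], [3]), (0, [1], [4, 5]), (1, [], [4, 6]), (1, [], [2, 5]), (4, [], [6])]),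
  (2, 7, [(0, [0], [0, 1]), (0, [0], [2, 0]), (0, [1], [3, 1]), (4, [], [4]), (0, [1], [5, 6]), (1, [], [2, 5]), (1, [], [3, 4]), (4, [], [6])]),
  (2, 7, [(0, [0], [0, 1]), (0, [0], [2, 0]), (0, [1], [3, 1]), (4, [], [4]), (0, [1], [3, 5]), (1, [], [5, 6]), (1, [], [2, 6]), (4, [], [4])]),
  (2, 7, [(0, [0], [0, 1]), (0, [0], [2, 0]), (0, [1], [3, 1]), (4, [], [4]), (0, [1], [3, 5]), (1, [], [5, 6]), (1, [], [2, 4]), (4, [], [6])]),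
  (2, 7, [(0, [0], [0, 1]), (0, [0], [2, 0]), (0, [1], [3, 1]), (4, [], [4]), (0, [1], [4, 5]), (1, [], [2, 6]), (1, [], [3, 6]), (4, [], [5])]),
  (2, 7, [(0, [0], [0, 1]), (0, [0], [2, 0]), (0, [1], [3, 4]), (4, [], [1]), (0, [1], [3, 5]), (1, [], [5, 6]), (1, [], [2, 6]), (4, [], [4])]),
  (2, 7, [(0, [0], [0, 1]), (0, [0], [2, 0]), (0, [1], [3, 4]), (4, [], [1]), (0, [1], [3, 5]), (1, [], [5, 6]), (1, [], [2, 4]), (4, [], [6])]),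
  (2, 7, [(0, [0], [0, 1]), (0, [0], [2, 3]), (0, [1], [4, 0]), (4, [], [1]), (0, [1], [5, 6]), (1, [], [2, 5]), (1, [], [3, 6]), (4, [], [4])]),
  (2, 7, [(0, [0], [0, 1]), (0, [0], [2, 3]), (0, [1], [4, 0]), (4, [], [1]), (0, [1], [5, 6]), (1, [], [2, 5]), (1, [], [3, 4]), (4, [], [6])]),
  (2, 7, [(0, [0], [0, 1]), (0, [0], [2, 3]), (0, [1], [4, 0]), (4, [], [1]), (0, [1], [2, 5]), (1, [], [5, 6]), (1, [], [3, 6]), (4, [], [4])]),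
  (2, 7, [(0, [0], [0, 1]), (0, [0], [2, 3]), (0, [1], [4, 0]), (4, [], [1]), (0, [1], [2, 5]), (1, [], [3, 6]), (1, [], [4, 6]), (4, [], [5])]),
  (2, 7, [(0, [0], [0, 1]), (0, [0], [2, 3]), (0, [1], [4, 3]), (4, [], [1]), (0, [1], [5, 6]), (1, [], [2, 5]), (1, [], [0, 4]), (4, [], [6])]),
  (2, 7, [(0, [0], [0, 1]), (0, [0], [2, 1]), (0, [1], [3, 4]), (4, [], [4]), (0, [1], [5, 6]), (1, [], [0, 5]), (1, [], [2, 6]), (4, [], [3])]),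
  (2, 7, [(0, [0], [0, 1]), (0, [0], [2, 1]), (0, [1], [3, 4]), (4, [], [4]), (0, [1], [5, 6]), (1, [], [0, 5]), (1, [], [2, 3]), (4, [], [6])]),
  (2, 7, [(0, [0], [0, 1]), (0, [0], [2, 1]), (0, [1], [3, 4]), (4, [], [5]), (0, [1], [3, 6]), (1, [], [0, 6]), (1, [], [2, 4]), (4, [], [5])])]

def kl40 : List ℕ := [145, 146, 228, 232, 234, 235, 257, 259, 290, 292, 293, 296, 326, 333, 334, 422]

def m40_0 : Base := (1, 2, [(0, [0], [3, 4]), (0, [0], [0, 3]), (1, [], [1, 4]), (4, [], [2])])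

def l40_0 : Cov := [(6, 1, 2, [(0, [0], [3, 4]), (0, [0], [0, 3]), (1, [], [1, 4]), (4, [], [2])]),
  (-6, 1, 2, [(0, [0], [3, 4]), (0, [0], [0, 3]), (1, [], [2, 4]), (4, [], [1])]),
  (-6, 1, 2, [(0, [0], [3, 4]), (0, [0], [1, 3]), (1, [], [0, 4]), (4, [], [2])]),
  (6, 1, 2, [(0, [0], [3, 4]), (0, [0], [1, 3]), (1, [], [2, 4]), (4, [], [0])]),
  (6, 1, 2, [(0, [0], [3, 4]), (0, [0], [2, 3]), (1, [], [0, 4]), (4, [], [1])]),
  (-6, 1, 2, [(0, [0], [3, 4]), (0, [0], [2, 3]), (1, [], [1, 4]), (4, [], [0])])]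

def z40_0 : Cov := []

def w40_0 : List (List Wit) := [[(0, 0, 0, 16, 16), (1, 0, 0, 16, 16), (2, 0, 0, 16, 16), (3, 0, 0, 16, 16), (4, 0, 0, 16, 16), (5, 0, 0, 16, 16)]]

def m40_1 : Base := (1, 2, [(0, [0], [0, 3]), (0, [0], [1, 4]), (1, [], [2, 4]), (4, [], [3])])

def l40_1 : Cov := [(6, 1, 2, [(0, [0], [0, 3]), (0, [0], [1, 4]), (1, [], [2, 4]), (4, [], [3])]),
  (-6, 1, 2, [(0, [0], [0, 3]), (0, [0], [2, 4]), (1, [], [1, 4]), (4, [], [3])]),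
  (-6, 1, 2, [(0, [0], [1, 3]), (0, [0], [0, 4]), (1, [], [2, 4]), (4, [], [3])]),
  (6, 1, 2, [(0, [0], [1, 3]), (0, [0], [2, 4]), (1, [], [0, 4]), (4, [], [3])]),
  (6, 1, 2, [(0, [0], [2, 3]), (0, [0], [0, 4]), (1, [], [1, 4]), (4, [], [3])]),
  (-6, 1, 2, [(0, [0], [2, 3]), (0, [0], [1, 4]), (1, [], [0, 4]), (4, [], [3])])]

def z40_1 : Cov := []

def w40_1 : List (List Wit) := [[(0, 0, 0, 16, 16), (1, 0, 0, 16, 16), (2, 0, 0, 16, 16), (3, 0, 0, 16, 16), (4, 0, 0, 16, 16), (5, 0, 0, 16, 16)]]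

theorem tr40 : trK keys lk40 kl40 = true := by
  decide +kernel

theorem x40_0 : expB 0 3 dg10 dg3 m40_0 (l40_0 ++ z40_0) w40_0 = true := by
  decide +kernel

theorem x40_1 : expB 0 3 dg10 dg3 m40_1 (l40_1 ++ z40_1) w40_1 = true := by
  decide +kernel

theorem t40_0_0 : chkS lk40 0 3 [(1, m40_0)] l40_0
  [(3, 16, 16, 87164001, 23221251), (4, 16, 16, 87164481, 39932931), (15, 16, 16, 70260066, 19288116), (7, 16, 16, 87164481, 39932931), (7, 1, 1, 33894756, 20985381), (6, 16, 16, 87164001, 23221251)]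
  [(3, 6), (4, -6), (6, -6), (7, 12), (15, -6)] = true := by
  decide +kernel

theorem t40_0_1 : chkS lk40 0 3 [(1, m40_0)] l40_1
  [(1, 16, 16, 70387281, 35017731), (0, 16, 16, 70387041, 19289091), (2, 16, 16, 56755281, 85091331), (14, 16, 16, 56628306, 85090356), (5, 16, 16, 55706721, 22176771), (13, 16, 16, 104862546, 102047796)]
  [(0, -6), (1, 6), (2, -6), (5, 6), (13, -6), (14, 6)] = true := by
  decide +kernel

theorem t40_1_1 : chkS lk40 0 3 [(1, m40_1)] l40_1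
  [(10, 16, 16, 88282656, 40190256), (8, 16, 16, 88282656, 40190256), (11, 16, 16, 72554016, 39207216), (9, 1, 1, 34890501, 50603601), (9, 16, 16, 73536816, 86381616), (12, 16, 16, 73536816, 86381616)]
  [(8, -6), (9, 12), (10, 6), (11, -6), (12, -6)] = true := by
  decide +kernel

section

variable {κ ι : Type*} [Fintype κ] [Fintype ι] [Inhabited κ] [Inhabited ι]

noncomputable def F40_0 (E : Env κ ι) : (Fin 0 → κ) → (Fin 3 → ι) → ℝ := op2 (P10 κ) (P3 ι) (fB E 0 3 m40_0)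

noncomputable def F40_1 (E : Env κ ι) : (Fin 0 → κ) → (Fin 3 → ι) → ℝ := op2 (P10 κ) (P3 ι) (fB E 0 3 m40_1)

def r40_0_0 : List (ℕ × ℤ) := [(3, 6), (4, -6), (6, -6), (7, 12), (15, -6)]

theorem h40_0_0 (E : Env κ ι) : ip (F40_0 E) (F40_0 E) = dotS (ek E lk40) r40_0_0 :=
  op_entryZ E lk40 0 3 _ _ _ _ (pg10 κ) (pg3 ι) m40_0 m40_0 l40_0 z40_0 w40_0 x40_0 (by decide) _ (chkS_sound E lk40 0 3 _ _ _ _ t40_0_0)

def r40_0_1 : List (ℕ × ℤ) := [(0, -6), (1, 6), (2, -6), (5, 6), (13, -6), (14, 6)]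

theorem h40_0_1 (E : Env κ ι) : ip (F40_0 E) (F40_1 E) = dotS (ek E lk40) r40_0_1 :=
  op_entryZ E lk40 0 3 _ _ _ _ (pg10 κ) (pg3 ι) m40_0 m40_1 l40_1 z40_1 w40_1 x40_1 (by decide) _ (chkS_sound E lk40 0 3 _ _ _ _ t40_0_1)

def r40_1_1 : List (ℕ × ℤ) := [(8, -6), (9, 12), (10, 6), (11, -6), (12, -6)]

theorem h40_1_1 (E : Env κ ι) : ip (F40_1 E) (F40_1 E) = dotS (ek E lk40) r40_1_1 :=
  op_entryZ E lk40 0 3 _ _ _ _ (pg10 κ) (pg3 ι) m40_1 m40_1 l40_1 z40_1 w40_1 x40_1 (by decide) _ (chkS_sound E lk40 0 3 _ _ _ _ t40_1_1)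

theorem row40_0 (E : Env κ ι) : RowG (ek E lk40) (F40_0 E) [F40_0 E, F40_1 E] [r40_0_0, r40_0_1] :=
  rowG_cons _ _ _ _ _ _ (h40_0_0 E) (rowG_cons _ _ _ _ _ _ (h40_0_1 E) (rowG_nil _ _))

theorem row40_1 (E : Env κ ι) : RowG (ek E lk40) (F40_1 E) [F40_1 E] [r40_1_1] :=
  rowG_cons _ _ _ _ _ _ (h40_1_1 E) (rowG_nil _ _)

def tab40 : List (List (List (ℕ × ℤ))) := [[r40_0_0, r40_0_1], [r40_1_1]]

theorem tri40 (E : Env κ ι) : TriG (ek E lk40) [F40_0 E, F40_1 E] tab40 := by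
  refine triG_cons _ _ _ _ _ (row40_0 E) ?_
  refine triG_cons _ _ _ _ _ (row40_1 E) ?_
  exact triG_nil _

end

def lk41 : List Key := [
  (2, 5, [(0, [0], [0, 1]), (0, [1], [0, 2]), (0, [1], [3, 4]), (0, [0], [3, 4]), (4, [], [2]), (4, [], [1])]),
  (2, 7, [(0, [0], [0, 1]), (0, [1], [0, 2]), (0, [1], [3, 4]), (0, [0], [5, 6]), (1, [], [5, 6]), (1, [], [3, 4]), (4, [], [2]), (4, [], [1])]),
  (2, 7, [(0, [0], [0, 1]), (0, [1], [0, 2]), (0, [1], [3, 4]), (0, [0], [3, 4]), (4, [], [2]), (4, [], [1]), (1, [], [5, 6]), (1, [], [5, 6])]),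
  (2, 5, [(0, [0], [0, 1]), (0, [1], [0, 2]), (0, [0], [2, 3]), (0, [1], [1, 4]), (4, [], [4]), (4, [], [3])]),
  (2, 5, [(0, [0], [0, 1]), (0, [1], [2, 3]), (2, [0], [2, 3, 4]), (2, [1], [0, 1, 4])]),
  (2, 6, [(0, [0], [0, 1]), (0, [0], [2, 3]), (0, [1], [4, 5]), (1, [], [4, 5]), (2, [1], [0, 2, 3]), (4, [], [1])]),
  (2, 7, [(0, [0], [0, 1]), (0, [0], [2, 3]), (0, [1], [4, 5]), (0, [1], [4, 6]), (1, [], [0, 5]), (1, [], [2, 3]), (4, [], [1]), (4, [], [6])]),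
  (2, 6, [(0, [0], [0, 1]), (0, [0], [2, 3]), (0, [1], [4, 5]), (1, [], [0, 4]), (2, [1], [1, 2, 3]), (4, [], [5])]),
  (2, 6, [(0, [0], [0, 1]), (0, [0], [2, 3]), (0, [1], [0, 4]), (1, [], [4, 5]), (2, [1], [2, 3, 5]), (4, [], [1])]),
  (2, 7, [(0, [0], [0, 1]), (0, [1], [0, 2]), (0, [0], [3, 4]), (0, [1], [5, 6]), (1, [], [1, 3]), (1, [], [5, 6]), (4, [], [2]), (4, [], [4])]),
  (2, 6, [(0, [0], [0, 1]), (0, [0], [2, 3]), (0, [1], [0, 4]), (1, [], [1, 5]), (2, [1], [2, 3, 5]), (4, [], [4])]),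
  (2, 7, [(0, [0], [0, 1]), (0, [0], [2, 3]), (0, [1], [0, 4]), (0, [1], [4, 5]), (1, [], [1, 6]), (1, [], [2, 3]), (4, [], [5]), (4, [], [6])]),
  (2, 7, [(0, [0], [0, 1]), (0, [1], [0, 2]), (0, [1], [2, 3]), (0, [0], [1, 4]), (4, [], [4]), (4, [], [3]), (1, [], [5, 6]), (1, [], [5, 6])]),
  (2, 5, [(0, [0], [0, 1]), (0, [1], [0, 2]), (2, [0], [2, 3, 4]), (2, [1], [1, 3, 4])]),
  (2, 6, [(0, [0], [0, 1]), (0, [0], [2, 3]), (0, [1], [0, 4]), (1, [], [4, 5]), (2, [1], [1, 2, 3]), (4, [], [5])]),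
  (2, 6, [(0, [0], [0, 1]), (0, [0], [2, 3]), (0, [1], [0, 2]), (1, [], [4, 5]), (2, [1], [1, 4, 5]), (4, [], [3])]),
  (2, 7, [(0, [0], [0, 1]), (0, [1], [0, 2]), (0, [1], [1, 3]), (0, [0], [4, 5]), (1, [], [2, 6]), (1, [], [4, 5]), (4, [], [3]), (4, [], [6])]),
  (2, 7, [(0, [0], [0, 1]), (0, [1], [0, 2]), (0, [0], [2, 3]), (0, [1], [1, 4]), (4, [], [4]), (4, [], [3]), (1, [], [5, 6]), (1, [], [5, 6])]),
  (2, 6, [(0, [0], [0, 1]), (0, [0], [2, 3]), (0, [1], [0, 4]), (0, [1], [4, 5]), (1, [], [2, 3]), (4, [], [1]), (4, [], [5])]),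
  (2, 5, [(0, [0], [0, 1]), (0, [0], [2, 3]), (0, [1], [0, 4]), (2, [1], [1, 2, 3]), (4, [], [4])]),
  (2, 6, [(0, [0], [0, 1]), (0, [1], [0, 2]), (0, [1], [1, 3]), (0, [0], [4, 5]), (1, [], [4, 5]), (4, [], [3]), (4, [], [2])]),
  (2, 6, [(0, [0], [0, 1]), (0, [1], [0, 2]), (0, [1], [1, 3]), (0, [0], [4, 5]), (1, [], [2, 4]), (4, [], [3]), (4, [], [5])]),
  (2, 6, [(0, [0], [0, 1]), (0, [1], [2, 3]), (0, [0], [2, 4]), (0, [1], [0, 5]), (1, [], [1, 3]), (4, [], [5]), (4, [], [4])]),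
  (2, 6, [(0, [0], [0, 1]), (0, [0], [2, 3]), (0, [1], [2, 4]), (0, [1], [0, 5]), (1, [], [1, 3]), (4, [], [5]), (4, [], [4])]),
  (2, 6, [(0, [0], [0, 1]), (0, [1], [0, 2]), (0, [0], [2, 3]), (0, [1], [1, 4]), (1, [], [3, 5]), (4, [], [4]), (4, [], [5])]),
  (2, 6, [(0, [0], [0, 1]), (0, [0], [2, 3]), (0, [1], [0, 4]), (0, [1], [4, 5]), (1, [], [1, 2]), (4, [], [3]), (4, [], [5])]),
  (2, 6, [(0, [0], [0, 1]), (0, [0], [2, 3]), (0, [1], [0, 4]), (0, [1], [2, 4]), (1, [], [1, 5]), (4, [], [3]), (4, [], [5])]),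
  (2, 7, [(0, [0], [0, 1]), (0, [0], [0, 2]), (0, [1], [1, 2]), (4, [], [3]), (0, [1], [4, 5]), (1, [], [4, 6]), (1, [], [5, 6]), (4, [], [3])]),
  (2, 7, [(0, [0], [0, 1]), (0, [0], [0, 2]), (0, [1], [1, 2]), (4, [], [3]), (0, [1], [4, 5]), (1, [], [4, 6]), (1, [], [3, 6]), (4, [], [5])]),
  (2, 7, [(0, [0], [0, 1]), (0, [0], [0, 2]), (0, [1], [1, 2]), (4, [], [3]), (0, [1], [4, 5]), (1, [], [4, 6]), (1, [], [3, 5]), (4, [], [6])]),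
  (2, 7, [(0, [0], [0, 1]), (0, [0], [0, 2]), (0, [1], [1, 2]), (4, [], [3]), (0, [1], [4, 5]), (1, [], [4, 5]), (1, [], [3, 6]), (4, [], [6])]),
  (2, 6, [(0, [0], [0, 1]), (0, [0], [0, 2]), (0, [1], [1, 2]), (4, [], [3]), (0, [1], [4, 5]), (1, [], [4, 5]), (4, [], [3])]),
  (2, 6, [(0, [0], [0, 1]), (0, [0], [0, 2]), (0, [1], [1, 2]), (4, [], [3]), (0, [1], [4, 5]), (1, [], [3, 4]), (4, [], [5])]),
  (2, 7, [(0, [0], [0, 1]), (0, [0], [0, 2]), (0, [1], [1, 2]), (4, [], [3]), (0, [1], [3, 4]), (1, [], [5, 6]), (1, [], [5, 6]), (4, [], [4])]),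
  (2, 6, [(0, [0], [0, 1]), (0, [0], [0, 2]), (0, [1], [1, 2]), (4, [], [3]), (1, [], [4, 5]), (2, [1], [3, 4, 5])]),
  (2, 7, [(0, [0], [0, 1]), (0, [0], [0, 2]), (0, [1], [3, 2]), (4, [], [1]), (0, [1], [4, 5]), (1, [], [4, 6]), (1, [], [5, 6]), (4, [], [3])]),
  (2, 7, [(0, [0], [0, 1]), (0, [0], [0, 2]), (0, [1], [3, 2]), (4, [], [1]), (0, [1], [4, 5]), (1, [], [4, 6]), (1, [], [3, 6]), (4, [], [5])]),
  (2, 7, [(0, [0], [0, 1]), (0, [0], [0, 2]), (0, [1], [3, 2]), (4, [], [1]), (0, [1], [4, 5]), (1, [], [4, 6]), (1, [], [3, 5]), (4, [], [6])]),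
  (2, 7, [(0, [0], [0, 1]), (0, [0], [0, 2]), (0, [1], [3, 2]), (4, [], [1]), (0, [1], [3, 4]), (1, [], [5, 6]), (1, [], [4, 5]), (4, [], [6])]),
  (2, 7, [(0, [0], [0, 1]), (0, [0], [2, 3]), (0, [1], [0, 3]), (4, [], [1]), (0, [1], [4, 5]), (1, [], [4, 6]), (1, [], [5, 6]), (4, [], [2])]),
  (2, 7, [(0, [0], [0, 1]), (0, [0], [2, 3]), (0, [1], [0, 3]), (4, [], [1]), (0, [1], [4, 5]), (1, [], [4, 6]), (1, [], [2, 6]), (4, [], [5])]),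
  (2, 7, [(0, [0], [0, 1]), (0, [0], [2, 3]), (0, [1], [0, 3]), (4, [], [1]), (0, [1], [4, 5]), (1, [], [4, 6]), (1, [], [2, 5]), (4, [], [6])]),
  (2, 7, [(0, [0], [0, 1]), (0, [0], [2, 3]), (0, [1], [0, 3]), (4, [], [1]), (0, [1], [2, 4]), (1, [], [5, 6]), (1, [], [4, 5]), (4, [], [6])]),
  (2, 7, [(0, [0], [0, 1]), (0, [0], [2, 3]), (0, [1], [0, 1]), (4, [], [3]), (0, [1], [4, 5]), (1, [], [4, 6]), (1, [], [5, 6]), (4, [], [2])]),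
  (2, 7, [(0, [0], [0, 1]), (0, [0], [2, 3]), (0, [1], [0, 1]), (4, [], [3]), (0, [1], [4, 5]), (1, [], [4, 6]), (1, [], [2, 6]), (4, [], [5])]),
  (2, 7, [(0, [0], [0, 1]), (0, [0], [2, 3]), (0, [1], [0, 1]), (4, [], [3]), (0, [1], [4, 5]), (1, [], [4, 6]), (1, [], [2, 5]), (4, [], [6])]),
  (2, 7, [(0, [0], [0, 1]), (0, [0], [2, 3]), (0, [1], [0, 1]), (4, [], [3]), (0, [1], [4, 5]), (1, [], [4, 5]), (1, [], [2, 6]), (4, [], [6])]),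
  (2, 6, [(0, [0], [0, 1]), (0, [0], [2, 3]), (0, [1], [0, 1]), (4, [], [3]), (0, [1], [4, 5]), (1, [], [4, 5]), (4, [], [2])]),
  (2, 6, [(0, [0], [0, 1]), (0, [0], [2, 3]), (0, [1], [0, 1]), (4, [], [3]), (0, [1], [4, 5]), (1, [], [2, 4]), (4, [], [5])]),
  (2, 7, [(0, [0], [0, 1]), (0, [0], [2, 3]), (0, [1], [0, 1]), (4, [], [3]), (0, [1], [2, 4]), (1, [], [5, 6]), (1, [], [4, 5]), (4, [], [6])]),
  (2, 6, [(0, [0], [0, 1]), (0, [0], [2, 3]), (0, [1], [0, 1]), (4, [], [3]), (0, [1], [2, 4]), (1, [], [4, 5]), (4, [], [5])]),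
  (2, 6, [(0, [0], [0, 1]), (0, [0], [2, 3]), (0, [1], [0, 1]), (4, [], [3]), (1, [], [4, 5]), (2, [1], [2, 4, 5])]),
  (2, 7, [(0, [0], [0, 1]), (0, [0], [2, 0]), (0, [1], [1, 3]), (4, [], [3]), (0, [1], [4, 5]), (1, [], [4, 6]), (1, [], [2, 6]), (4, [], [5])]),
  (2, 7, [(0, [0], [0, 1]), (0, [0], [2, 0]), (0, [1], [1, 3]), (4, [], [3]), (0, [1], [4, 5]), (1, [], [4, 6]), (1, [], [2, 5]), (4, [], [6])]),
  (2, 7, [(0, [0], [0, 1]), (0, [0], [2, 0]), (0, [1], [1, 3]), (4, [], [3]), (0, [1], [4, 5]), (1, [], [4, 5]), (1, [], [2, 6]), (4, [], [6])]),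
  (2, 7, [(0, [0], [0, 1]), (0, [0], [2, 0]), (0, [1], [1, 3]), (4, [], [3]), (0, [1], [2, 4]), (1, [], [5, 6]), (1, [], [5, 6]), (4, [], [4])]),
  (2, 7, [(0, [0], [0, 1]), (0, [0], [2, 0]), (0, [1], [1, 3]), (4, [], [3]), (0, [1], [2, 4]), (1, [], [5, 6]), (1, [], [4, 5]), (4, [], [6])]),
  (2, 6, [(0, [0], [0, 1]), (0, [0], [2, 0]), (0, [1], [1, 3]), (4, [], [3]), (1, [], [4, 5]), (2, [1], [2, 4, 5])]),
  (2, 7, [(0, [0], [0, 1]), (0, [0], [2, 0]), (0, [1], [3, 1]), (4, [], [4]), (0, [1], [5, 6]), (1, [], [5, 6]), (1, [], [2, 3]), (4, [], [4])]),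
  (2, 7, [(0, [0], [0, 1]), (0, [0], [2, 0]), (0, [1], [3, 1]), (4, [], [4]), (0, [1], [5, 6]), (1, [], [2, 5]), (1, [], [3, 6]), (4, [], [4])]),
  (2, 7, [(0, [0], [0, 1]), (0, [0], [2, 0]), (0, [1], [3, 1]), (4, [], [4]), (0, [1], [5, 6]), (1, [], [2, 5]), (1, [], [3, 4]), (4, [], [6])]),
  (2, 7, [(0, [0], [0, 1]), (0, [0], [2, 0]), (0, [1], [3, 1]), (4, [], [4]), (0, [1], [5, 6]), (1, [], [3, 5]), (1, [], [2, 4]), (4, [], [6])]),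
  (2, 7, [(0, [0], [0, 1]), (0, [0], [2, 0]), (0, [1], [3, 1]), (4, [], [4]), (0, [1], [5, 6]), (1, [], [4, 5]), (1, [], [2, 3]), (4, [], [6])]),
  (2, 7, [(0, [0], [0, 1]), (0, [0], [2, 0]), (0, [1], [3, 1]), (4, [], [4]), (0, [1], [2, 5]), (1, [], [5, 6]), (1, [], [3, 6]), (4, [], [4])]),
  (2, 7, [(0, [0], [0, 1]), (0, [0], [2, 0]), (0, [1], [3, 1]), (4, [], [4]), (0, [1], [3, 5]), (1, [], [5, 6]), (1, [], [2, 6]), (4, [], [4])]),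
  (2, 7, [(0, [0], [0, 1]), (0, [0], [2, 0]), (0, [1], [3, 1]), (4, [], [4]), (0, [1], [2, 5]), (1, [], [5, 6]), (1, [], [3, 4]), (4, [], [6])]),
  (2, 7, [(0, [0], [0, 1]), (0, [0], [2, 0]), (0, [1], [3, 1]), (4, [], [4]), (0, [1], [3, 5]), (1, [], [5, 6]), (1, [], [2, 4]), (4, [], [6])]),
  (2, 7, [(0, [0], [0, 1]), (0, [0], [2, 0]), (0, [1], [3, 1]), (4, [], [4]), (0, [1], [4, 5]), (1, [], [2, 6]), (1, [], [3, 6]), (4, [], [5])]),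
  (2, 7, [(0, [0], [0, 1]), (0, [0], [2, 0]), (0, [1], [3, 1]), (4, [], [4]), (0, [1], [2, 5]), (1, [], [4, 6]), (1, [], [3, 5]), (4, [], [6])]),
  (2, 6, [(0, [0], [0, 1]), (0, [0], [2, 0]), (0, [1], [3, 1]), (4, [], [4]), (0, [1], [2, 5]), (1, [], [3, 5]), (4, [], [4])]),
  (2, 7, [(0, [0], [0, 1]), (0, [0], [2, 0]), (0, [1], [3, 1]), (4, [], [4]), (0, [1], [2, 3]), (1, [], [5, 6]), (1, [], [5, 6]), (4, [], [4])]),
  (2, 7, [(0, [0], [0, 1]), (0, [0], [2, 0]), (0, [1], [3, 1]), (4, [], [4]), (0, [1], [2, 3]), (1, [], [5, 6]), (1, [], [4, 5]), (4, [], [6])]),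
  (2, 6, [(0, [0], [0, 1]), (0, [0], [2, 0]), (0, [1], [3, 1]), (4, [], [4]), (1, [], [3, 5]), (2, [1], [2, 4, 5])]),
  (2, 7, [(0, [0], [0, 1]), (0, [0], [2, 0]), (0, [1], [3, 4]), (4, [], [1]), (0, [1], [5, 6]), (1, [], [2, 5]), (1, [], [3, 6]), (4, [], [4])]),
  (2, 7, [(0, [0], [0, 1]), (0, [0], [2, 0]), (0, [1], [3, 4]), (4, [], [1]), (0, [1], [3, 5]), (1, [], [5, 6]), (1, [], [2, 6]), (4, [], [4])]),
  (2, 7, [(0, [0], [0, 1]), (0, [0], [2, 0]), (0, [1], [3, 4]), (4, [], [1]), (0, [1], [3, 5]), (1, [], [2, 6]), (1, [], [4, 5]), (4, [], [6])]),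
  (2, 7, [(0, [0], [0, 1]), (0, [0], [2, 3]), (0, [1], [0, 1]), (4, [], [4]), (0, [1], [5, 6]), (1, [], [2, 5]), (1, [], [3, 6]), (4, [], [4])]),
  (2, 7, [(0, [0], [0, 1]), (0, [0], [2, 3]), (0, [1], [0, 1]), (4, [], [4]), (0, [1], [2, 5]), (1, [], [5, 6]), (1, [], [3, 6]), (4, [], [4])]),
  (2, 7, [(0, [0], [0, 1]), (0, [0], [2, 3]), (0, [1], [0, 1]), (4, [], [4]), (0, [1], [2, 5]), (1, [], [5, 6]), (1, [], [3, 4]), (4, [], [6])]),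
  (2, 7, [(0, [0], [0, 1]), (0, [0], [2, 3]), (0, [1], [0, 1]), (4, [], [4]), (0, [1], [2, 5]), (1, [], [4, 6]), (1, [], [3, 5]), (4, [], [6])]),
  (2, 6, [(0, [0], [0, 1]), (0, [0], [2, 3]), (0, [1], [0, 1]), (4, [], [4]), (0, [1], [2, 5]), (1, [], [3, 5]), (4, [], [4])]),
  (2, 7, [(0, [0], [0, 1]), (0, [0], [2, 3]), (0, [1], [0, 1]), (4, [], [4]), (0, [1], [2, 3]), (1, [], [5, 6]), (1, [], [4, 5]), (4, [], [6])]),
  (2, 6, [(0, [0], [0, 1]), (0, [0], [2, 3]), (0, [1], [0, 1]), (4, [], [4]), (0, [1], [2, 3]), (1, [], [4, 5]), (4, [], [5])]),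
  (2, 5, [(0, [0], [0, 1]), (0, [0], [2, 3]), (0, [1], [0, 1]), (4, [], [4]), (0, [1], [2, 3]), (4, [], [4])]),
  (2, 6, [(0, [0], [0, 1]), (0, [0], [2, 3]), (0, [1], [0, 1]), (4, [], [4]), (1, [], [2, 5]), (2, [1], [3, 4, 5])]),
  (2, 6, [(0, [0], [0, 1]), (0, [0], [2, 3]), (0, [1], [0, 1]), (4, [], [4]), (1, [], [4, 5]), (2, [1], [2, 3, 5])]),
  (2, 5, [(0, [0], [0, 1]), (0, [0], [2, 3]), (0, [1], [0, 1]), (4, [], [4]), (2, [1], [2, 3, 4])]),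
  (2, 7, [(0, [0], [0, 1]), (0, [0], [2, 3]), (0, [1], [4, 0]), (4, [], [1]), (0, [1], [5, 6]), (1, [], [5, 6]), (1, [], [2, 4]), (4, [], [3])]),
  (2, 7, [(0, [0], [0, 1]), (0, [0], [2, 3]), (0, [1], [4, 0]), (4, [], [1]), (0, [1], [5, 6]), (1, [], [2, 5]), (1, [], [3, 6]), (4, [], [4])]),
  (2, 7, [(0, [0], [0, 1]), (0, [0], [2, 3]), (0, [1], [4, 0]), (4, [], [1]), (0, [1], [5, 6]), (1, [], [2, 5]), (1, [], [4, 6]), (4, [], [3])]),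
  (2, 7, [(0, [0], [0, 1]), (0, [0], [2, 3]), (0, [1], [4, 0]), (4, [], [1]), (0, [1], [5, 6]), (1, [], [2, 5]), (1, [], [3, 4]), (4, [], [6])]),
  (2, 7, [(0, [0], [0, 1]), (0, [0], [2, 3]), (0, [1], [4, 0]), (4, [], [1]), (0, [1], [2, 5]), (1, [], [5, 6]), (1, [], [3, 6]), (4, [], [4])]),
  (2, 7, [(0, [0], [0, 1]), (0, [0], [2, 3]), (0, [1], [4, 0]), (4, [], [1]), (0, [1], [2, 5]), (1, [], [5, 6]), (1, [], [4, 6]), (4, [], [3])]),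
  (2, 7, [(0, [0], [0, 1]), (0, [0], [2, 3]), (0, [1], [4, 0]), (4, [], [1]), (0, [1], [2, 5]), (1, [], [5, 6]), (1, [], [3, 4]), (4, [], [6])]),
  (2, 7, [(0, [0], [0, 1]), (0, [0], [2, 3]), (0, [1], [4, 0]), (4, [], [1]), (0, [1], [2, 5]), (1, [], [3, 6]), (1, [], [4, 6]), (4, [], [5])]),
  (2, 7, [(0, [0], [0, 1]), (0, [0], [2, 3]), (0, [1], [4, 0]), (4, [], [1]), (0, [1], [2, 5]), (1, [], [3, 6]), (1, [], [4, 5]), (4, [], [6])]),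
  (2, 7, [(0, [0], [0, 1]), (0, [0], [2, 3]), (0, [1], [4, 0]), (4, [], [1]), (0, [1], [2, 5]), (1, [], [4, 6]), (1, [], [3, 5]), (4, [], [6])]),
  (2, 6, [(0, [0], [0, 1]), (0, [0], [2, 3]), (0, [1], [4, 0]), (4, [], [1]), (0, [1], [2, 5]), (1, [], [3, 5]), (4, [], [4])]),
  (2, 7, [(0, [0], [0, 1]), (0, [0], [2, 3]), (0, [1], [1, 3]), (4, [], [4]), (0, [1], [5, 6]), (1, [], [0, 5]), (1, [], [2, 6]), (4, [], [4])]),
  (2, 7, [(0, [0], [0, 1]), (0, [0], [2, 3]), (0, [1], [1, 3]), (4, [], [4]), (0, [1], [5, 6]), (1, [], [0, 5]), (1, [], [2, 4]), (4, [], [6])]),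
  (2, 7, [(0, [0], [0, 1]), (0, [0], [2, 3]), (0, [1], [1, 3]), (4, [], [4]), (0, [1], [5, 6]), (1, [], [4, 5]), (1, [], [0, 2]), (4, [], [6])]),
  (2, 7, [(0, [0], [0, 1]), (0, [0], [2, 3]), (0, [1], [1, 3]), (4, [], [4]), (0, [1], [0, 5]), (1, [], [5, 6]), (1, [], [2, 6]), (4, [], [4])]),
  (2, 7, [(0, [0], [0, 1]), (0, [0], [2, 3]), (0, [1], [1, 3]), (4, [], [4]), (0, [1], [0, 5]), (1, [], [5, 6]), (1, [], [2, 4]), (4, [], [6])]),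
  (2, 7, [(0, [0], [0, 1]), (0, [0], [2, 3]), (0, [1], [1, 3]), (4, [], [4]), (0, [1], [4, 5]), (1, [], [0, 6]), (1, [], [2, 6]), (4, [], [5])]),
  (2, 7, [(0, [0], [0, 1]), (0, [0], [2, 3]), (0, [1], [1, 3]), (4, [], [4]), (0, [1], [0, 5]), (1, [], [4, 6]), (1, [], [2, 5]), (4, [], [6])]),
  (2, 6, [(0, [0], [0, 1]), (0, [0], [2, 3]), (0, [1], [1, 3]), (4, [], [4]), (0, [1], [0, 5]), (1, [], [2, 5]), (4, [], [4])]),
  (2, 6, [(0, [0], [0, 1]), (0, [0], [2, 3]), (0, [1], [1, 3]), (4, [], [4]), (0, [1], [4, 5]), (1, [], [0, 2]), (4, [], [5])]),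
  (2, 7, [(0, [0], [0, 1]), (0, [0], [2, 3]), (0, [1], [1, 3]), (4, [], [4]), (0, [1], [0, 2]), (1, [], [5, 6]), (1, [], [4, 5]), (4, [], [6])]),
  (2, 6, [(0, [0], [0, 1]), (0, [0], [2, 3]), (0, [1], [1, 3]), (4, [], [4]), (0, [1], [0, 2]), (1, [], [4, 5]), (4, [], [5])]),
  (2, 5, [(0, [0], [0, 1]), (0, [0], [2, 3]), (0, [1], [1, 3]), (4, [], [4]), (0, [1], [0, 2]), (4, [], [4])]),
  (2, 6, [(0, [0], [0, 1]), (0, [0], [2, 3]), (0, [1], [1, 3]), (4, [], [4]), (1, [], [0, 5]), (2, [1], [2, 4, 5])]),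
  (2, 6, [(0, [0], [0, 1]), (0, [0], [2, 3]), (0, [1], [1, 3]), (4, [], [4]), (1, [], [4, 5]), (2, [1], [0, 2, 5])]),
  (2, 5, [(0, [0], [0, 1]), (0, [0], [2, 3]), (0, [1], [1, 3]), (4, [], [4]), (2, [1], [0, 2, 4])]),
  (2, 7, [(0, [0], [0, 1]), (0, [0], [2, 3]), (0, [1], [4, 3]), (4, [], [1]), (0, [1], [5, 6]), (1, [], [5, 6]), (1, [], [2, 4]), (4, [], [0])]),
  (2, 7, [(0, [0], [0, 1]), (0, [0], [2, 3]), (0, [1], [4, 3]), (4, [], [1]), (0, [1], [5, 6]), (1, [], [2, 5]), (1, [], [4, 6]), (4, [], [0])]),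
  (2, 7, [(0, [0], [0, 1]), (0, [0], [2, 3]), (0, [1], [4, 3]), (4, [], [1]), (0, [1], [5, 6]), (1, [], [0, 5]), (1, [], [2, 4]), (4, [], [6])]),
  (2, 7, [(0, [0], [0, 1]), (0, [0], [2, 3]), (0, [1], [4, 3]), (4, [], [1]), (0, [1], [5, 6]), (1, [], [2, 5]), (1, [], [0, 4]), (4, [], [6])]),
  (2, 7, [(0, [0], [0, 1]), (0, [0], [2, 3]), (0, [1], [4, 3]), (4, [], [1]), (0, [1], [5, 6]), (1, [], [4, 5]), (1, [], [0, 2]), (4, [], [6])]),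
  (2, 6, [(0, [0], [0, 1]), (0, [0], [2, 3]), (0, [1], [4, 3]), (4, [], [1]), (1, [], [4, 5]), (2, [1], [0, 2, 5])]),
  (2, 7, [(0, [0], [0, 1]), (0, [0], [2, 1]), (0, [1], [3, 4]), (4, [], [4]), (0, [1], [5, 6]), (1, [], [5, 6]), (1, [], [0, 2]), (4, [], [3])]),
  (2, 7, [(0, [0], [0, 1]), (0, [0], [2, 1]), (0, [1], [3, 4]), (4, [], [4]), (0, [1], [5, 6]), (1, [], [3, 5]), (1, [], [0, 2]), (4, [], [6])]),
  (2, 6, [(0, [0], [0, 1]), (0, [0], [2, 1]), (0, [1], [3, 4]), (4, [], [4]), (1, [], [3, 5]), (2, [1], [0, 2, 5])]),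
  (2, 6, [(0, [0], [0, 1]), (0, [0], [2, 3]), (0, [1], [1, 4]), (4, [], [4]), (1, [], [2, 5]), (2, [1], [0, 3, 5])]),
  (2, 7, [(0, [0], [0, 1]), (0, [0], [2, 1]), (0, [1], [3, 4]), (4, [], [5]), (0, [1], [3, 6]), (1, [], [4, 6]), (1, [], [0, 2]), (4, [], [5])]),
  (2, 6, [(0, [0], [0, 1]), (0, [0], [2, 1]), (0, [1], [3, 4]), (4, [], [5]), (1, [], [3, 4]), (2, [1], [0, 2, 5])]),
  (2, 7, [(0, [0], [0, 1]), (0, [0], [2, 3]), (0, [1], [4, 1]), (4, [], [5]), (0, [1], [2, 6]), (1, [], [0, 6]), (1, [], [3, 4]), (4, [], [5])]),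
  (2, 7, [(0, [0], [0, 1]), (0, [0], [2, 3]), (0, [1], [4, 1]), (4, [], [5]), (0, [1], [2, 6]), (1, [], [3, 6]), (1, [], [0, 4]), (4, [], [5])]),
  (2, 6, [(0, [0], [0, 1]), (0, [0], [2, 3]), (0, [1], [4, 1]), (4, [], [5]), (1, [], [0, 4]), (2, [1], [2, 3, 5])]),
  (2, 6, [(0, [0], [0, 1]), (0, [0], [2, 3]), (0, [1], [4, 1]), (4, [], [5]), (1, [], [2, 4]), (2, [1], [0, 3, 5])]),
  (2, 5, [(0, [0], [0, 1]), (2, [0], [2, 3, 4]), (0, [1], [0, 1]), (2, [1], [2, 3, 4])])]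

def kl41 : List ℕ := [6, 10, 26, 34, 39, 40, 42, 43, 44, 45, 46, 50, 51, 52, 53, 54, 55, 56, 75, 81, 83, 84, 86, 87, 88, 89, 90, 99, 100, 101, 102, 103, 104, 106, 108, 113, 114, 115, 117, 127, 128, 129, 131, 134, 135, 136, 137, 138, 139, 141, 142, 143, 145, 146, 147, 149, 150, 151, 226, 227, 228, 229, 230, 231, 232, 233, 234, 235, 236, 238, 244, 245, 249, 255, 257, 260, 271, 272, 273, 274, 275, 278, 279, 280, 281, 282, 283, 289, 290, 291, 292, 293, 294, 295, 296, 297, 298, 299, 305, 306, 307, 308, 309, 310, 311, 312, 313, 317, 318, 319, 320, 321, 322, 323, 324, 325, 326, 327, 330, 332, 335, 337, 339, 423, 427, 431, 432, 435, 437, 448]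

def m41_0 : Base := (1, 1, [(0, [0], [0, 5]), (0, [0], [1, 5]), (1, [], [2, 3]), (4, [], [4])])

def l41_0 : Cov := [(480, 1, 1, [(0, [0], [0, 5]), (0, [0], [1, 5]), (1, [], [2, 3]), (4, [], [4])]),
  (480, 1, 1, [(0, [0], [0, 5]), (0, [0], [1, 5]), (1, [], [2, 4]), (4, [], [3])]),
  (480, 1, 1, [(0, [0], [0, 5]), (0, [0], [1, 5]), (1, [], [3, 4]), (4, [], [2])]),
  (480, 1, 1, [(0, [0], [0, 5]), (0, [0], [2, 5]), (1, [], [1, 3]), (4, [], [4])]),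
  (480, 1, 1, [(0, [0], [0, 5]), (0, [0], [2, 5]), (1, [], [1, 4]), (4, [], [3])]),
  (480, 1, 1, [(0, [0], [0, 5]), (0, [0], [2, 5]), (1, [], [3, 4]), (4, [], [1])]),
  (480, 1, 1, [(0, [0], [0, 5]), (0, [0], [3, 5]), (1, [], [1, 2]), (4, [], [4])]),
  (480, 1, 1, [(0, [0], [0, 5]), (0, [0], [3, 5]), (1, [], [1, 4]), (4, [], [2])]),
  (480, 1, 1, [(0, [0], [0, 5]), (0, [0], [3, 5]), (1, [], [2, 4]), (4, [], [1])]),
  (480, 1, 1, [(0, [0], [0, 5]), (0, [0], [4, 5]), (1, [], [1, 2]), (4, [], [3])]),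
  (480, 1, 1, [(0, [0], [0, 5]), (0, [0], [4, 5]), (1, [], [1, 3]), (4, [], [2])]),
  (480, 1, 1, [(0, [0], [0, 5]), (0, [0], [4, 5]), (1, [], [2, 3]), (4, [], [1])]),
  (480, 1, 1, [(0, [0], [1, 5]), (0, [0], [2, 5]), (1, [], [0, 3]), (4, [], [4])]),
  (480, 1, 1, [(0, [0], [1, 5]), (0, [0], [2, 5]), (1, [], [0, 4]), (4, [], [3])]),
  (480, 1, 1, [(0, [0], [1, 5]), (0, [0], [2, 5]), (1, [], [3, 4]), (4, [], [0])]),
  (480, 1, 1, [(0, [0], [1, 5]), (0, [0], [3, 5]), (1, [], [0, 2]), (4, [], [4])]),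
  (480, 1, 1, [(0, [0], [1, 5]), (0, [0], [3, 5]), (1, [], [0, 4]), (4, [], [2])]),
  (480, 1, 1, [(0, [0], [1, 5]), (0, [0], [3, 5]), (1, [], [2, 4]), (4, [], [0])]),
  (480, 1, 1, [(0, [0], [1, 5]), (0, [0], [4, 5]), (1, [], [0, 2]), (4, [], [3])]),
  (480, 1, 1, [(0, [0], [1, 5]), (0, [0], [4, 5]), (1, [], [0, 3]), (4, [], [2])]),
  (480, 1, 1, [(0, [0], [1, 5]), (0, [0], [4, 5]), (1, [], [2, 3]), (4, [], [0])]),
  (480, 1, 1, [(0, [0], [2, 5]), (0, [0], [3, 5]), (1, [], [0, 1]), (4, [], [4])]),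
  (480, 1, 1, [(0, [0], [2, 5]), (0, [0], [3, 5]), (1, [], [0, 4]), (4, [], [1])]),
  (480, 1, 1, [(0, [0], [2, 5]), (0, [0], [3, 5]), (1, [], [1, 4]), (4, [], [0])]),
  (480, 1, 1, [(0, [0], [2, 5]), (0, [0], [4, 5]), (1, [], [0, 1]), (4, [], [3])]),
  (480, 1, 1, [(0, [0], [2, 5]), (0, [0], [4, 5]), (1, [], [0, 3]), (4, [], [1])]),
  (480, 1, 1, [(0, [0], [2, 5]), (0, [0], [4, 5]), (1, [], [1, 3]), (4, [], [0])]),
  (480, 1, 1, [(0, [0], [3, 5]), (0, [0], [4, 5]), (1, [], [0, 1]), (4, [], [2])]),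
  (480, 1, 1, [(0, [0], [3, 5]), (0, [0], [4, 5]), (1, [], [0, 2]), (4, [], [1])]),
  (480, 1, 1, [(0, [0], [3, 5]), (0, [0], [4, 5]), (1, [], [1, 2]), (4, [], [0])])]

def z41_0 : Cov := []

def w41_0 : List (List Wit) := [[(0, 0, 0, 0, 0), (1, 0, 0, 0, 0), (0, 0, 0, 0, 0), (2, 0, 0, 0, 0), (1, 0, 0, 0, 0), (2, 0, 0, 0, 0), (3, 0, 0, 0, 0), (4, 0, 0, 0, 0), (3, 0, 0, 0, 0), (5, 0, 0, 0, 0), (4, 0, 0, 0, 0), (5, 0, 0, 0, 0), (6, 0, 0, 0, 0), (7, 0, 0, 0, 0), (6, 0, 0, 0, 0), (8, 0, 0, 0, 0), (7, 0, 0, 0, 0), (8, 0, 0, 0, 0), (9, 0, 0, 0, 0), (10, 0, 0, 0, 0), (9, 0, 0, 0, 0), (11, 0, 0, 0, 0), (10, 0, 0, 0, 0), (11, 0, 0, 0, 0), (0, 0, 0, 0, 0), (1, 0, 0, 0, 0), (0, 0, 0, 0, 0), (2, 0, 0, 0, 0), (1, 0, 0, 0, 0), (2, 0, 0, 0, 0), (12, 0, 0, 0, 0), (13, 0, 0, 0, 0), (12, 0, 0, 0, 0), (14, 0, 0, 0, 0), (13, 0, 0, 0, 0), (14, 0, 0, 0, 0), (15, 0, 0, 0, 0), (16,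 0, 0, 0, 0), (15, 0, 0, 0, 0), (17, 0, 0, 0, 0), (16, 0, 0, 0, 0), (17, 0, 0, 0, 0), (18, 0, 0, 0, 0), (19, 0, 0, 0, 0), (18, 0, 0, 0, 0), (20, 0, 0, 0, 0), (19, 0, 0, 0, 0), (20, 0, 0, 0, 0), (3, 0, 0, 0, 0), (4, 0, 0, 0, 0), (3, 0, 0, 0, 0), (5, 0, 0, 0, 0), (4, 0, 0, 0, 0), (5, 0, 0, 0, 0), (12, 0, 0, 0, 0), (13, 0, 0, 0, 0), (12, 0, 0, 0, 0), (14, 0, 0, 0, 0), (13, 0, 0, 0, 0), (14, 0, 0, 0, 0), (21, 0, 0, 0, 0), (22, 0, 0, 0, 0), (21, 0, 0, 0, 0), (23, 0, 0, 0, 0), (22, 0, 0, 0, 0), (23, 0, 0, 0, 0), (24, 0, 0, 0, 0), (25, 0, 0, 0, 0), (24, 0, 0, 0, 0), (26, 0, 0, 0, 0), (25, 0, 0, 0, 0), (26, 0, 0, 0, 0), (6, 0, 0, 0, 0), (7, 0, 0, 0, 0), (6, 0, 0, 0, 0), (8, 0, 0, 0, 0), (7, 0, 0, 0, 0), (8, 0, 0, 0, 0), (15, 0, 0, 0, 0), (16, 0, 0, 0, 0), (15, 0, 0, 0, 0), (17, 0, 0, 0, 0), (16, 0, 0, 0, 0), (17, 0, 0, 0, 0), (21, 0, 0, 0, 0), (22, 0, 0, 0, 0), (21,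 0, 0, 0, 0), (23, 0, 0, 0, 0), (22, 0, 0, 0, 0), (23, 0, 0, 0, 0), (27, 0, 0, 0, 0), (28, 0, 0, 0, 0), (27, 0, 0, 0, 0), (29, 0, 0, 0, 0), (28, 0, 0, 0, 0), (29, 0, 0, 0, 0), (9, 0, 0, 0, 0), (10, 0, 0, 0, 0), (9, 0, 0, 0, 0), (11, 0, 0, 0, 0), (10, 0, 0, 0, 0), (11, 0, 0, 0, 0), (18, 0, 0, 0, 0), (19, 0, 0, 0, 0), (18, 0, 0, 0, 0), (20, 0, 0, 0, 0), (19, 0, 0, 0, 0), (20, 0, 0, 0, 0), (24, 0, 0, 0, 0), (25, 0, 0, 0, 0), (24, 0, 0, 0, 0), (26, 0, 0, 0, 0), (25, 0, 0, 0, 0), (26, 0, 0, 0, 0), (27, 0, 0, 0, 0), (28, 0, 0, 0, 0), (27, 0, 0, 0, 0), (29, 0, 0, 0, 0), (28, 0, 0, 0, 0), (29, 0, 0, 0, 0)]]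

def m41_1 : Base := (1, 1, [(0, [0], [0, 5]), (0, [0], [1, 2]), (1, [], [3, 5]), (4, [], [4])])

def l41_1 : Cov := [(240, 1, 1, [(0, [0], [0, 5]), (0, [0], [1, 2]), (1, [], [3, 5]), (4, [], [4])]),
  (240, 1, 1, [(0, [0], [0, 5]), (0, [0], [1, 2]), (1, [], [4, 5]), (4, [], [3])]),
  (240, 1, 1, [(0, [0], [0, 5]), (0, [0], [1, 3]), (1, [], [2, 5]), (4, [], [4])]),
  (240, 1, 1, [(0, [0], [0, 5]), (0, [0], [1, 3]), (1, [], [4, 5]), (4, [], [2])]),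
  (240, 1, 1, [(0, [0], [0, 5]), (0, [0], [1, 4]), (1, [], [2, 5]), (4, [], [3])]),
  (240, 1, 1, [(0, [0], [0, 5]), (0, [0], [1, 4]), (1, [], [3, 5]), (4, [], [2])]),
  (240, 1, 1, [(0, [0], [0, 5]), (0, [0], [2, 3]), (1, [], [1, 5]), (4, [], [4])]),
  (240, 1, 1, [(0, [0], [0, 5]), (0, [0], [2, 3]), (1, [], [4, 5]), (4, [], [1])]),
  (240, 1, 1, [(0, [0], [0, 5]), (0, [0], [2, 4]), (1, [], [1, 5]), (4, [], [3])]),
  (240, 1, 1, [(0, [0], [0, 5]), (0, [0], [2, 4]), (1, [], [3, 5]), (4, [], [1])]),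
  (240, 1, 1, [(0, [0], [0, 5]), (0, [0], [3, 4]), (1, [], [1, 5]), (4, [], [2])]),
  (240, 1, 1, [(0, [0], [0, 5]), (0, [0], [3, 4]), (1, [], [2, 5]), (4, [], [1])]),
  (240, 1, 1, [(0, [0], [1, 5]), (0, [0], [0, 2]), (1, [], [3, 5]), (4, [], [4])]),
  (240, 1, 1, [(0, [0], [1, 5]), (0, [0], [0, 2]), (1, [], [4, 5]), (4, [], [3])]),
  (240, 1, 1, [(0, [0], [1, 5]), (0, [0], [0, 3]), (1, [], [2, 5]), (4, [], [4])]),
  (240, 1, 1, [(0, [0], [1, 5]), (0, [0], [0, 3]), (1, [], [4, 5]), (4, [], [2])]),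
  (240, 1, 1, [(0, [0], [1, 5]), (0, [0], [0, 4]), (1, [], [2, 5]), (4, [], [3])]),
  (240, 1, 1, [(0, [0], [1, 5]), (0, [0], [0, 4]), (1, [], [3, 5]), (4, [], [2])]),
  (240, 1, 1, [(0, [0], [1, 5]), (0, [0], [2, 3]), (1, [], [0, 5]), (4, [], [4])]),
  (240, 1, 1, [(0, [0], [1, 5]), (0, [0], [2, 3]), (1, [], [4, 5]), (4, [], [0])]),
  (240, 1, 1, [(0, [0], [1, 5]), (0, [0], [2, 4]), (1, [], [0, 5]), (4, [], [3])]),
  (240, 1, 1, [(0, [0], [1, 5]), (0, [0], [2, 4]), (1, [], [3, 5]), (4, [], [0])]),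
  (240, 1, 1, [(0, [0], [1, 5]), (0, [0], [3, 4]), (1, [], [0, 5]), (4, [], [2])]),
  (240, 1, 1, [(0, [0], [1, 5]), (0, [0], [3, 4]), (1, [], [2, 5]), (4, [], [0])]),
  (240, 1, 1, [(0, [0], [2, 5]), (0, [0], [0, 1]), (1, [], [3, 5]), (4, [], [4])]),
  (240, 1, 1, [(0, [0], [2, 5]), (0, [0], [0, 1]), (1, [], [4, 5]), (4, [], [3])]),
  (240, 1, 1, [(0, [0], [2, 5]), (0, [0], [0, 3]), (1, [], [1, 5]), (4, [], [4])]),
  (240, 1, 1, [(0, [0], [2, 5]), (0, [0], [0, 3]), (1, [], [4, 5]), (4, [], [1])]),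
  (240, 1, 1, [(0, [0], [2, 5]), (0, [0], [0, 4]), (1, [], [1, 5]), (4, [], [3])]),
  (240, 1, 1, [(0, [0], [2, 5]), (0, [0], [0, 4]), (1, [], [3, 5]), (4, [], [1])]),
  (240, 1, 1, [(0, [0], [2, 5]), (0, [0], [1, 3]), (1, [], [0, 5]), (4, [], [4])]),
  (240, 1, 1, [(0, [0], [2, 5]), (0, [0], [1, 3]), (1, [], [4, 5]), (4, [], [0])]),
  (240, 1, 1, [(0, [0], [2, 5]), (0, [0], [1, 4]), (1, [], [0, 5]), (4, [], [3])]),
  (240, 1, 1, [(0, [0], [2, 5]), (0, [0], [1, 4]), (1, [], [3, 5]), (4, [], [0])]),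
  (240, 1, 1, [(0, [0], [2, 5]), (0, [0], [3, 4]), (1, [], [0, 5]), (4, [], [1])]),
  (240, 1, 1, [(0, [0], [2, 5]), (0, [0], [3, 4]), (1, [], [1, 5]), (4, [], [0])]),
  (240, 1, 1, [(0, [0], [3, 5]), (0, [0], [0, 1]), (1, [], [2, 5]), (4, [], [4])]),
  (240, 1, 1, [(0, [0], [3, 5]), (0, [0], [0, 1]), (1, [], [4, 5]), (4, [], [2])]),
  (240, 1, 1, [(0, [0], [3, 5]), (0, [0], [0, 2]), (1, [], [1, 5]), (4, [], [4])]),
  (240, 1, 1, [(0, [0], [3, 5]), (0, [0], [0, 2]), (1, [], [4, 5]), (4, [], [1])]),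
  (240, 1, 1, [(0, [0], [3, 5]), (0, [0], [0, 4]), (1, [], [1, 5]), (4, [], [2])]),
  (240, 1, 1, [(0, [0], [3, 5]), (0, [0], [0, 4]), (1, [], [2, 5]), (4, [], [1])]),
  (240, 1, 1, [(0, [0], [3, 5]), (0, [0], [1, 2]), (1, [], [0, 5]), (4, [], [4])]),
  (240, 1, 1, [(0, [0], [3, 5]), (0, [0], [1, 2]), (1, [], [4, 5]), (4, [], [0])]),
  (240, 1, 1, [(0, [0], [3, 5]), (0, [0], [1, 4]), (1, [], [0, 5]), (4, [], [2])]),
  (240, 1, 1, [(0, [0], [3, 5]), (0, [0], [1, 4]), (1, [], [2, 5]), (4, [], [0])]),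
  (240, 1, 1, [(0, [0], [3, 5]), (0, [0], [2, 4]), (1, [], [0, 5]), (4, [], [1])]),
  (240, 1, 1, [(0, [0], [3, 5]), (0, [0], [2, 4]), (1, [], [1, 5]), (4, [], [0])]),
  (240, 1, 1, [(0, [0], [4, 5]), (0, [0], [0, 1]), (1, [], [2, 5]), (4, [], [3])]),
  (240, 1, 1, [(0, [0], [4, 5]), (0, [0], [0, 1]), (1, [], [3, 5]), (4, [], [2])]),
  (240, 1, 1, [(0, [0], [4, 5]), (0, [0], [0, 2]), (1, [], [1, 5]), (4, [], [3])]),
  (240, 1, 1, [(0, [0], [4, 5]), (0, [0], [0, 2]), (1, [], [3, 5]), (4, [], [1])]),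
  (240, 1, 1, [(0, [0], [4, 5]), (0, [0], [0, 3]), (1, [], [1, 5]), (4, [], [2])]),
  (240, 1, 1, [(0, [0], [4, 5]), (0, [0], [0, 3]), (1, [], [2, 5]), (4, [], [1])]),
  (240, 1, 1, [(0, [0], [4, 5]), (0, [0], [1, 2]), (1, [], [0, 5]), (4, [], [3])]),
  (240, 1, 1, [(0, [0], [4, 5]), (0, [0], [1, 2]), (1, [], [3, 5]), (4, [], [0])]),
  (240, 1, 1, [(0, [0], [4, 5]), (0, [0], [1, 3]), (1, [], [0, 5]), (4, [], [2])]),
  (240, 1, 1, [(0, [0], [4, 5]), (0, [0], [1, 3]), (1, [], [2, 5]), (4, [], [0])]),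
  (240, 1, 1, [(0, [0], [4, 5]), (0, [0], [2, 3]), (1, [], [0, 5]), (4, [], [1])]),
  (240, 1, 1, [(0, [0], [4, 5]), (0, [0], [2, 3]), (1, [], [1, 5]), (4, [], [0])])]

def z41_1 : Cov := []

def w41_1 : List (List Wit) := [[(0, 0, 0, 0, 0), (1, 0, 0, 0, 0), (2, 0, 0, 0, 0), (3, 0, 0, 0, 0), (4, 0, 0, 0, 0), (5, 0, 0, 0, 0), (0, 0, 0, 0, 0), (1, 0, 0, 0, 0), (6, 0, 0, 0, 0), (7, 0, 0, 0, 0), (8, 0, 0, 0, 0), (9, 0, 0, 0, 0), (2, 0, 0, 0, 0), (3, 0, 0, 0, 0), (6, 0, 0, 0, 0), (7, 0, 0, 0, 0), (10, 0, 0, 0, 0), (11, 0, 0, 0, 0), (4, 0, 0, 0, 0), (5, 0, 0, 0, 0), (8, 0, 0, 0, 0), (9, 0, 0, 0, 0), (10, 0, 0, 0, 0), (11, 0, 0, 0, 0), (12, 0, 0, 0, 0), (13, 0, 0, 0, 0), (14, 0, 0, 0, 0), (15, 0, 0, 0, 0), (16, 0, 0, 0, 0), (17, 0, 0, 0, 0), (12, 0, 0, 0, 0), (13, 0, 0, 0, 0), (18, 0, 0, 0, 0), (19, 0, 0, 0, 0), (20, 0, 0, 0, 0), (21, 0, 0, 0, 0), (14, 0, 0, 0, 0),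 (15, 0, 0, 0, 0), (18, 0, 0, 0, 0), (19, 0, 0, 0, 0), (22, 0, 0, 0, 0), (23, 0, 0, 0, 0), (16, 0, 0, 0, 0), (17, 0, 0, 0, 0), (20, 0, 0, 0, 0), (21, 0, 0, 0, 0), (22, 0, 0, 0, 0), (23, 0, 0, 0, 0), (24, 0, 0, 0, 0), (25, 0, 0, 0, 0), (26, 0, 0, 0, 0), (27, 0, 0, 0, 0), (28, 0, 0, 0, 0), (29, 0, 0, 0, 0), (24, 0, 0, 0, 0), (25, 0, 0, 0, 0), (30, 0, 0, 0, 0), (31, 0, 0, 0, 0), (32, 0, 0, 0, 0), (33, 0, 0, 0, 0), (26, 0, 0, 0, 0), (27, 0, 0, 0, 0), (30, 0, 0, 0, 0), (31, 0, 0, 0, 0), (34, 0, 0, 0, 0), (35, 0, 0, 0, 0), (28, 0, 0, 0, 0), (29, 0, 0, 0, 0), (32, 0, 0, 0, 0), (33, 0, 0, 0, 0), (34, 0, 0, 0, 0), (35, 0, 0, 0, 0), (36, 0, 0, 0, 0), (37, 0, 0, 0, 0), (38, 0, 0, 0, 0), (39, 0, 0, 0, 0), (40, 0, 0, 0, 0), (41, 0, 0, 0, 0), (36, 0, 0, 0, 0), (37, 0, 0, 0, 0), (42, 0, 0, 0, 0), (43, 0, 0, 0, 0), (44, 0, 0, 0, 0), (45, 0, 0, 0, 0), (38, 0, 0, 0, 0), (39,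 0, 0, 0, 0), (42, 0, 0, 0, 0), (43, 0, 0, 0, 0), (46, 0, 0, 0, 0), (47, 0, 0, 0, 0), (40, 0, 0, 0, 0), (41, 0, 0, 0, 0), (44, 0, 0, 0, 0), (45, 0, 0, 0, 0), (46, 0, 0, 0, 0), (47, 0, 0, 0, 0), (48, 0, 0, 0, 0), (49, 0, 0, 0, 0), (50, 0, 0, 0, 0), (51, 0, 0, 0, 0), (52, 0, 0, 0, 0), (53, 0, 0, 0, 0), (48, 0, 0, 0, 0), (49, 0, 0, 0, 0), (54, 0, 0, 0, 0), (55, 0, 0, 0, 0), (56, 0, 0, 0, 0), (57, 0, 0, 0, 0), (50, 0, 0, 0, 0), (51, 0, 0, 0, 0), (54, 0, 0, 0, 0), (55, 0, 0, 0, 0), (58, 0, 0, 0, 0), (59, 0, 0, 0, 0), (52, 0, 0, 0, 0), (53, 0, 0, 0, 0), (56, 0, 0, 0, 0), (57, 0, 0, 0, 0), (58, 0, 0, 0, 0), (59, 0, 0, 0, 0)]]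

def m41_2 : Base := (1, 1, [(0, [0], [0, 5]), (0, [0], [1, 2]), (1, [], [3, 4]), (4, [], [5])])

def l41_2 : Cov := [(480, 1, 1, [(0, [0], [0, 5]), (0, [0], [1, 2]), (1, [], [3, 4]), (4, [], [5])]),
  (480, 1, 1, [(0, [0], [0, 5]), (0, [0], [1, 3]), (1, [], [2, 4]), (4, [], [5])]),
  (480, 1, 1, [(0, [0], [0, 5]), (0, [0], [1, 4]), (1, [], [2, 3]), (4, [], [5])]),
  (480, 1, 1, [(0, [0], [0, 5]), (0, [0], [2, 3]), (1, [], [1, 4]), (4, [], [5])]),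
  (480, 1, 1, [(0, [0], [0, 5]), (0, [0], [2, 4]), (1, [], [1, 3]), (4, [], [5])]),
  (480, 1, 1, [(0, [0], [0, 5]), (0, [0], [3, 4]), (1, [], [1, 2]), (4, [], [5])]),
  (480, 1, 1, [(0, [0], [1, 5]), (0, [0], [0, 2]), (1, [], [3, 4]), (4, [], [5])]),
  (480, 1, 1, [(0, [0], [1, 5]), (0, [0], [0, 3]), (1, [], [2, 4]), (4, [], [5])]),
  (480, 1, 1, [(0, [0], [1, 5]), (0, [0], [0, 4]), (1, [], [2, 3]), (4, [], [5])]),
  (480, 1, 1, [(0, [0], [1, 5]), (0, [0], [2, 3]), (1, [], [0, 4]), (4, [], [5])]),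
  (480, 1, 1, [(0, [0], [1, 5]), (0, [0], [2, 4]), (1, [], [0, 3]), (4, [], [5])]),
  (480, 1, 1, [(0, [0], [1, 5]), (0, [0], [3, 4]), (1, [], [0, 2]), (4, [], [5])]),
  (480, 1, 1, [(0, [0], [2, 5]), (0, [0], [0, 1]), (1, [], [3, 4]), (4, [], [5])]),
  (480, 1, 1, [(0, [0], [2, 5]), (0, [0], [0, 3]), (1, [], [1, 4]), (4, [], [5])]),
  (480, 1, 1, [(0, [0], [2, 5]), (0, [0], [0, 4]), (1, [], [1, 3]), (4, [], [5])]),
  (480, 1, 1, [(0, [0], [2, 5]), (0, [0], [1, 3]), (1, [], [0, 4]), (4, [], [5])]),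
  (480, 1, 1, [(0, [0], [2, 5]), (0, [0], [1, 4]), (1, [], [0, 3]), (4, [], [5])]),
  (480, 1, 1, [(0, [0], [2, 5]), (0, [0], [3, 4]), (1, [], [0, 1]), (4, [], [5])]),
  (480, 1, 1, [(0, [0], [3, 5]), (0, [0], [0, 1]), (1, [], [2, 4]), (4, [], [5])]),
  (480, 1, 1, [(0, [0], [3, 5]), (0, [0], [0, 2]), (1, [], [1, 4]), (4, [], [5])]),
  (480, 1, 1, [(0, [0], [3, 5]), (0, [0], [0, 4]), (1, [], [1, 2]), (4, [], [5])]),
  (480, 1, 1, [(0, [0], [3, 5]), (0, [0], [1, 2]), (1, [], [0, 4]), (4, [], [5])]),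
  (480, 1, 1, [(0, [0], [3, 5]), (0, [0], [1, 4]), (1, [], [0, 2]), (4, [], [5])]),
  (480, 1, 1, [(0, [0], [3, 5]), (0, [0], [2, 4]), (1, [], [0, 1]), (4, [], [5])]),
  (480, 1, 1, [(0, [0], [4, 5]), (0, [0], [0, 1]), (1, [], [2, 3]), (4, [], [5])]),
  (480, 1, 1, [(0, [0], [4, 5]), (0, [0], [0, 2]), (1, [], [1, 3]), (4, [], [5])]),
  (480, 1, 1, [(0, [0], [4, 5]), (0, [0], [0, 3]), (1, [], [1, 2]), (4, [], [5])]),
  (480, 1, 1, [(0, [0], [4, 5]), (0, [0], [1, 2]), (1, [], [0, 3]), (4, [], [5])]),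
  (480, 1, 1, [(0, [0], [4, 5]), (0, [0], [1, 3]), (1, [], [0, 2]), (4, [], [5])]),
  (480, 1, 1, [(0, [0], [4, 5]), (0, [0], [2, 3]), (1, [], [0, 1]), (4, [], [5])])]

def z41_2 : Cov := []

def w41_2 : List (List Wit) := [[(0, 0, 0, 0, 0), (0, 0, 0, 0, 0), (1, 0, 0, 0, 0), (1, 0, 0, 0, 0), (2, 0, 0, 0, 0), (2, 0, 0, 0, 0), (0, 0, 0, 0, 0), (0, 0, 0, 0, 0), (3, 0, 0, 0, 0), (3, 0, 0, 0, 0), (4, 0, 0, 0, 0), (4, 0, 0, 0, 0), (1, 0, 0, 0, 0), (1, 0, 0, 0, 0), (3, 0, 0, 0, 0), (3, 0, 0, 0, 0), (5, 0, 0, 0, 0), (5, 0, 0, 0, 0), (2, 0, 0, 0, 0), (2, 0, 0, 0, 0), (4, 0, 0, 0, 0), (4, 0, 0, 0, 0), (5, 0, 0, 0, 0), (5, 0, 0, 0, 0), (6, 0, 0, 0, 0), (6, 0, 0, 0, 0), (7, 0, 0, 0, 0), (7, 0, 0, 0, 0), (8, 0, 0, 0, 0), (8, 0, 0, 0, 0), (6, 0, 0, 0, 0), (6, 0, 0, 0, 0), (9, 0, 0, 0, 0), (9, 0, 0, 0, 0), (10, 0, 0, 0, 0), (10, 0, 0, 0, 0), (7, 0, 0, 0, 0), (7, 0, 0, 0,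 0), (9, 0, 0, 0, 0), (9, 0, 0, 0, 0), (11, 0, 0, 0, 0), (11, 0, 0, 0, 0), (8, 0, 0, 0, 0), (8, 0, 0, 0, 0), (10, 0, 0, 0, 0), (10, 0, 0, 0, 0), (11, 0, 0, 0, 0), (11, 0, 0, 0, 0), (12, 0, 0, 0, 0), (12, 0, 0, 0, 0), (13, 0, 0, 0, 0), (13, 0, 0, 0, 0), (14, 0, 0, 0, 0), (14, 0, 0, 0, 0), (12, 0, 0, 0, 0), (12, 0, 0, 0, 0), (15, 0, 0, 0, 0), (15, 0, 0, 0, 0), (16, 0, 0, 0, 0), (16, 0, 0, 0, 0), (13, 0, 0, 0, 0), (13, 0, 0, 0, 0), (15, 0, 0, 0, 0), (15, 0, 0, 0, 0), (17, 0, 0, 0, 0), (17, 0, 0, 0, 0), (14, 0, 0, 0, 0), (14, 0, 0, 0, 0), (16, 0, 0, 0, 0), (16, 0, 0, 0, 0), (17, 0, 0, 0, 0), (17, 0, 0, 0, 0), (18, 0, 0, 0, 0), (18, 0, 0, 0, 0), (19, 0, 0, 0, 0), (19, 0, 0, 0, 0), (20, 0, 0, 0, 0), (20, 0, 0, 0, 0), (18, 0, 0, 0, 0), (18, 0, 0, 0, 0), (21, 0, 0, 0, 0), (21, 0, 0, 0, 0), (22, 0, 0, 0, 0), (22, 0, 0, 0, 0), (19, 0, 0, 0, 0), (19, 0, 0, 0, 0), (21,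 0, 0, 0, 0), (21, 0, 0, 0, 0), (23, 0, 0, 0, 0), (23, 0, 0, 0, 0), (20, 0, 0, 0, 0), (20, 0, 0, 0, 0), (22, 0, 0, 0, 0), (22, 0, 0, 0, 0), (23, 0, 0, 0, 0), (23, 0, 0, 0, 0), (24, 0, 0, 0, 0), (24, 0, 0, 0, 0), (25, 0, 0, 0, 0), (25, 0, 0, 0, 0), (26, 0, 0, 0, 0), (26, 0, 0, 0, 0), (24, 0, 0, 0, 0), (24, 0, 0, 0, 0), (27, 0, 0, 0, 0), (27, 0, 0, 0, 0), (28, 0, 0, 0, 0), (28, 0, 0, 0, 0), (25, 0, 0, 0, 0), (25, 0, 0, 0, 0), (27, 0, 0, 0, 0), (27, 0, 0, 0, 0), (29, 0, 0, 0, 0), (29, 0, 0, 0, 0), (26, 0, 0, 0, 0), (26, 0, 0, 0, 0), (28, 0, 0, 0, 0), (28, 0, 0, 0, 0), (29, 0, 0, 0, 0), (29, 0, 0, 0, 0)]]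

def m41_3 : Base := (1, 1, [(0, [0], [0, 1]), (0, [0], [2, 3]), (1, [], [4, 5]), (4, [], [5])])

def l41_3 : Cov := [(960, 1, 1, [(0, [0], [0, 1]), (0, [0], [2, 3]), (1, [], [4, 5]), (4, [], [5])]),
  (960, 1, 1, [(0, [0], [0, 1]), (0, [0], [2, 4]), (1, [], [3, 5]), (4, [], [5])]),
  (960, 1, 1, [(0, [0], [0, 1]), (0, [0], [3, 4]), (1, [], [2, 5]), (4, [], [5])]),
  (960, 1, 1, [(0, [0], [0, 2]), (0, [0], [1, 3]), (1, [], [4, 5]), (4, [], [5])]),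
  (960, 1, 1, [(0, [0], [0, 2]), (0, [0], [1, 4]), (1, [], [3, 5]), (4, [], [5])]),
  (960, 1, 1, [(0, [0], [0, 2]), (0, [0], [3, 4]), (1, [], [1, 5]), (4, [], [5])]),
  (960, 1, 1, [(0, [0], [0, 3]), (0, [0], [1, 2]), (1, [], [4, 5]), (4, [], [5])]),
  (960, 1, 1, [(0, [0], [0, 3]), (0, [0], [1, 4]), (1, [], [2, 5]), (4, [], [5])]),
  (960, 1, 1, [(0, [0], [0, 3]), (0, [0], [2, 4]), (1, [], [1, 5]), (4, [], [5])]),
  (960, 1, 1, [(0, [0], [0, 4]), (0, [0], [1, 2]), (1, [], [3, 5]), (4, [], [5])]),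
  (960, 1, 1, [(0, [0], [0, 4]), (0, [0], [1, 3]), (1, [], [2, 5]), (4, [], [5])]),
  (960, 1, 1, [(0, [0], [0, 4]), (0, [0], [2, 3]), (1, [], [1, 5]), (4, [], [5])]),
  (960, 1, 1, [(0, [0], [1, 2]), (0, [0], [3, 4]), (1, [], [0, 5]), (4, [], [5])]),
  (960, 1, 1, [(0, [0], [1, 3]), (0, [0], [2, 4]), (1, [], [0, 5]), (4, [], [5])]),
  (960, 1, 1, [(0, [0], [1, 4]), (0, [0], [2, 3]), (1, [], [0, 5]), (4, [], [5])])]

def z41_3 : Cov := []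

def w41_3 : List (List Wit) := [[(0, 0, 0, 0, 0), (1, 0, 0, 0, 0), (0, 0, 0, 0, 0), (2, 0, 0, 0, 0), (1, 0, 0, 0, 0), (2, 0, 0, 0, 0), (3, 0, 0, 0, 0), (4, 0, 0, 0, 0), (3, 0, 0, 0, 0), (5, 0, 0, 0, 0), (4, 0, 0, 0, 0), (5, 0, 0, 0, 0), (6, 0, 0, 0, 0), (7, 0, 0, 0, 0), (6, 0, 0, 0, 0), (8, 0, 0, 0, 0), (7, 0, 0, 0, 0), (8, 0, 0, 0, 0), (9, 0, 0, 0, 0), (10, 0, 0, 0, 0), (9, 0, 0, 0, 0), (11, 0, 0, 0, 0), (10, 0, 0, 0, 0), (11, 0, 0, 0, 0), (0, 0, 0, 0, 0), (1, 0, 0, 0, 0), (0, 0, 0, 0, 0), (2, 0, 0, 0, 0), (1, 0, 0, 0, 0), (2, 0, 0, 0, 0), (6, 0, 0, 0, 0), (9, 0, 0, 0, 0), (6, 0, 0, 0, 0), (12, 0, 0, 0, 0), (9, 0, 0, 0, 0), (12, 0, 0, 0, 0), (3, 0, 0, 0, 0), (10, 0, 0, 0, 0), (3, 0, 0, 0, 0), (13, 0, 0, 0, 0), (10, 0, 0, 0, 0), (13, 0, 0, 0, 0), (4, 0, 0, 0, 0), (7, 0, 0, 0, 0), (4, 0, 0, 0, 0), (14, 0, 0, 0, 0), (7, 0, 0, 0, 0), (14, 0, 0, 0, 0), (3, 0,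 0, 0, 0), (4, 0, 0, 0, 0), (3, 0, 0, 0, 0), (5, 0, 0, 0, 0), (4, 0, 0, 0, 0), (5, 0, 0, 0, 0), (6, 0, 0, 0, 0), (9, 0, 0, 0, 0), (6, 0, 0, 0, 0), (12, 0, 0, 0, 0), (9, 0, 0, 0, 0), (12, 0, 0, 0, 0), (0, 0, 0, 0, 0), (11, 0, 0, 0, 0), (0, 0, 0, 0, 0), (14, 0, 0, 0, 0), (11, 0, 0, 0, 0), (14, 0, 0, 0, 0), (1, 0, 0, 0, 0), (8, 0, 0, 0, 0), (1, 0, 0, 0, 0), (13, 0, 0, 0, 0), (8, 0, 0, 0, 0), (13, 0, 0, 0, 0), (6, 0, 0, 0, 0), (7, 0, 0, 0, 0), (6, 0, 0, 0, 0), (8, 0, 0, 0, 0), (7, 0, 0, 0, 0), (8, 0, 0, 0, 0), (3, 0, 0, 0, 0), (10, 0, 0, 0, 0), (3, 0, 0, 0, 0), (13, 0, 0, 0, 0), (10, 0, 0, 0, 0), (13, 0, 0, 0, 0), (0, 0, 0, 0, 0), (11, 0, 0, 0, 0), (0, 0, 0, 0, 0), (14, 0, 0, 0, 0), (11, 0, 0, 0, 0), (14, 0, 0, 0, 0), (2, 0, 0, 0, 0), (5, 0, 0, 0, 0), (2, 0, 0, 0, 0), (12, 0, 0, 0, 0), (5, 0, 0, 0, 0), (12, 0, 0, 0, 0), (9, 0, 0, 0, 0), (10, 0, 0, 0, 0), (9, 0,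 0, 0, 0), (11, 0, 0, 0, 0), (10, 0, 0, 0, 0), (11, 0, 0, 0, 0), (4, 0, 0, 0, 0), (7, 0, 0, 0, 0), (4, 0, 0, 0, 0), (14, 0, 0, 0, 0), (7, 0, 0, 0, 0), (14, 0, 0, 0, 0), (1, 0, 0, 0, 0), (8, 0, 0, 0, 0), (1, 0, 0, 0, 0), (13, 0, 0, 0, 0), (8, 0, 0, 0, 0), (13, 0, 0, 0, 0), (2, 0, 0, 0, 0), (5, 0, 0, 0, 0), (2, 0, 0, 0, 0), (12, 0, 0, 0, 0), (5, 0, 0, 0, 0), (12, 0, 0, 0, 0)]]

def m41_4 : Base := (1, 0, [(0, [0], [0, 1]), (0, [0], [2, 3]), (4, [], [4])])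

def l41_4 : Cov := [(960, 1, 0, [(0, [0], [0, 1]), (0, [0], [2, 3]), (4, [], [4])]),
  (960, 1, 0, [(0, [0], [0, 1]), (0, [0], [2, 4]), (4, [], [3])]),
  (960, 1, 0, [(0, [0], [0, 1]), (0, [0], [3, 4]), (4, [], [2])]),
  (960, 1, 0, [(0, [0], [0, 2]), (0, [0], [1, 3]), (4, [], [4])]),
  (960, 1, 0, [(0, [0], [0, 2]), (0, [0], [1, 4]), (4, [], [3])]),
  (960, 1, 0, [(0, [0], [0, 2]), (0, [0], [3, 4]), (4, [], [1])]),
  (960, 1, 0, [(0, [0], [0, 3]), (0, [0], [1, 2]), (4, [], [4])]),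
  (960, 1, 0, [(0, [0], [0, 3]), (0, [0], [1, 4]), (4, [], [2])]),
  (960, 1, 0, [(0, [0], [0, 3]), (0, [0], [2, 4]), (4, [], [1])]),
  (960, 1, 0, [(0, [0], [0, 4]), (0, [0], [1, 2]), (4, [], [3])]),
  (960, 1, 0, [(0, [0], [0, 4]), (0, [0], [1, 3]), (4, [], [2])]),
  (960, 1, 0, [(0, [0], [0, 4]), (0, [0], [2, 3]), (4, [], [1])]),
  (960, 1, 0, [(0, [0], [1, 2]), (0, [0], [3, 4]), (4, [], [0])]),
  (960, 1, 0, [(0, [0], [1, 3]), (0, [0], [2, 4]), (4, [], [0])]),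
  (960, 1, 0, [(0, [0], [1, 4]), (0, [0], [2, 3]), (4, [], [0])])]

def z41_4 : Cov := []

def w41_4 : List (List Wit) := [[(0, 0, 0, 0, 0), (1, 0, 0, 0, 0), (0, 0, 0, 0, 0), (2, 0, 0, 0, 0), (1, 0, 0, 0, 0), (2, 0, 0, 0, 0), (3, 0, 0, 0, 0), (4, 0, 0, 0, 0), (3, 0, 0, 0, 0), (5, 0, 0, 0, 0), (4, 0, 0, 0, 0), (5, 0, 0, 0, 0), (6, 0, 0, 0, 0), (7, 0, 0, 0, 0), (6, 0, 0, 0, 0), (8, 0, 0, 0, 0), (7, 0, 0, 0, 0), (8, 0, 0, 0, 0), (9, 0, 0, 0, 0), (10, 0, 0, 0, 0), (9, 0, 0, 0, 0), (11, 0, 0, 0, 0), (10, 0, 0, 0, 0), (11, 0, 0, 0, 0), (0, 0, 0, 0, 0), (1, 0, 0, 0, 0), (0, 0, 0, 0, 0), (2, 0, 0, 0, 0), (1, 0, 0, 0, 0), (2, 0, 0, 0, 0), (6, 0, 0, 0, 0), (9, 0, 0, 0, 0), (6, 0, 0, 0, 0), (12, 0, 0, 0, 0), (9, 0, 0, 0, 0), (12, 0, 0, 0, 0), (3, 0, 0, 0, 0), (10, 0, 0, 0, 0), (3, 0, 0, 0, 0), (13, 0, 0, 0, 0), (10, 0, 0, 0, 0), (13, 0, 0, 0, 0), (4, 0, 0, 0, 0), (7,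 0, 0, 0, 0), (4, 0, 0, 0, 0), (14, 0, 0, 0, 0), (7, 0, 0, 0, 0), (14, 0, 0, 0, 0), (3, 0, 0, 0, 0), (4, 0, 0, 0, 0), (3, 0, 0, 0, 0), (5, 0, 0, 0, 0), (4, 0, 0, 0, 0), (5, 0, 0, 0, 0), (6, 0, 0, 0, 0), (9, 0, 0, 0, 0), (6, 0, 0, 0, 0), (12, 0, 0, 0, 0), (9, 0, 0, 0, 0), (12, 0, 0, 0, 0), (0, 0, 0, 0, 0), (11, 0, 0, 0, 0), (0, 0, 0, 0, 0), (14, 0, 0, 0, 0), (11, 0, 0, 0, 0), (14, 0, 0, 0, 0), (1, 0, 0, 0, 0), (8, 0, 0, 0, 0), (1, 0, 0, 0, 0), (13, 0, 0, 0, 0), (8, 0, 0, 0, 0), (13, 0, 0, 0, 0), (6, 0, 0, 0, 0), (7, 0, 0, 0, 0), (6, 0, 0, 0, 0), (8, 0, 0, 0, 0), (7, 0, 0, 0, 0), (8, 0, 0, 0, 0), (3, 0, 0, 0, 0), (10, 0, 0, 0, 0), (3, 0, 0, 0, 0), (13, 0, 0, 0, 0), (10, 0, 0, 0, 0), (13, 0, 0, 0, 0), (0, 0, 0, 0, 0), (11, 0, 0, 0, 0), (0, 0, 0, 0, 0), (14, 0, 0, 0, 0), (11, 0, 0, 0, 0), (14, 0, 0, 0, 0), (2, 0, 0, 0, 0), (5, 0, 0, 0, 0), (2, 0, 0, 0, 0), (12,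 0, 0, 0, 0), (5, 0, 0, 0, 0), (12, 0, 0, 0, 0), (9, 0, 0, 0, 0), (10, 0, 0, 0, 0), (9, 0, 0, 0, 0), (11, 0, 0, 0, 0), (10, 0, 0, 0, 0), (11, 0, 0, 0, 0), (4, 0, 0, 0, 0), (7, 0, 0, 0, 0), (4, 0, 0, 0, 0), (14, 0, 0, 0, 0), (7, 0, 0, 0, 0), (14, 0, 0, 0, 0), (1, 0, 0, 0, 0), (8, 0, 0, 0, 0), (1, 0, 0, 0, 0), (13, 0, 0, 0, 0), (8, 0, 0, 0, 0), (13, 0, 0, 0, 0), (2, 0, 0, 0, 0), (5, 0, 0, 0, 0), (2, 0, 0, 0, 0), (12, 0, 0, 0, 0), (5, 0, 0, 0, 0), (12, 0, 0, 0, 0)]]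

def m41_5 : Base := (1, 0, [(0, [0], [0, 1]), (2, [0], [2, 3, 4])])

def l41_5 : Cov := [(1440, 1, 0, [(0, [0], [0, 1]), (2, [0], [2, 3, 4])]),
  (1440, 1, 0, [(0, [0], [0, 2]), (2, [0], [1, 3, 4])]),
  (1440, 1, 0, [(0, [0], [0, 3]), (2, [0], [1, 2, 4])]),
  (1440, 1, 0, [(0, [0], [0, 4]), (2, [0], [1, 2, 3])]),
  (1440, 1, 0, [(0, [0], [1, 2]), (2, [0], [0, 3, 4])]),
  (1440, 1, 0, [(0, [0], [1, 3]), (2, [0], [0, 2, 4])]),
  (1440, 1, 0, [(0, [0], [1, 4]), (2, [0], [0, 2, 3])]),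
  (1440, 1, 0, [(0, [0], [2, 3]), (2, [0], [0, 1, 4])]),
  (1440, 1, 0, [(0, [0], [2, 4]), (2, [0], [0, 1, 3])]),
  (1440, 1, 0, [(0, [0], [3, 4]), (2, [0], [0, 1, 2])])]

def z41_5 : Cov := []

def w41_5 : List (List Wit) := [[(0, 0, 0, 0, 0), (0, 0, 0, 0, 0), (0, 0, 0, 0, 0), (0, 0, 0, 0, 0), (0, 0, 0, 0, 0), (0, 0, 0, 0, 0), (1, 0, 0, 0, 0), (1, 0, 0, 0, 0), (1, 0, 0, 0, 0), (1, 0, 0, 0, 0), (1, 0, 0, 0, 0), (1, 0, 0, 0, 0), (2, 0, 0, 0, 0), (2, 0, 0, 0, 0), (2, 0, 0, 0, 0), (2, 0, 0, 0, 0), (2, 0, 0, 0, 0), (2, 0, 0, 0, 0), (3, 0, 0, 0, 0), (3, 0, 0, 0, 0), (3, 0, 0, 0, 0), (3, 0, 0, 0, 0), (3, 0, 0, 0, 0), (3, 0, 0, 0, 0), (0, 0, 0, 0, 0), (0, 0, 0, 0, 0), (0, 0, 0, 0, 0), (0, 0, 0, 0, 0), (0, 0, 0, 0, 0), (0, 0, 0, 0, 0), (4, 0, 0, 0, 0), (4, 0, 0, 0, 0), (4, 0, 0, 0, 0), (4, 0, 0, 0, 0), (4, 0, 0, 0, 0), (4, 0, 0, 0, 0), (5, 0, 0, 0, 0), (5, 0, 0, 0,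 0), (5, 0, 0, 0, 0), (5, 0, 0, 0, 0), (5, 0, 0, 0, 0), (5, 0, 0, 0, 0), (6, 0, 0, 0, 0), (6, 0, 0, 0, 0), (6, 0, 0, 0, 0), (6, 0, 0, 0, 0), (6, 0, 0, 0, 0), (6, 0, 0, 0, 0), (1, 0, 0, 0, 0), (1, 0, 0, 0, 0), (1, 0, 0, 0, 0), (1, 0, 0, 0, 0), (1, 0, 0, 0, 0), (1, 0, 0, 0, 0), (4, 0, 0, 0, 0), (4, 0, 0, 0, 0), (4, 0, 0, 0, 0), (4, 0, 0, 0, 0), (4, 0, 0, 0, 0), (4, 0, 0, 0, 0), (7, 0, 0, 0, 0), (7, 0, 0, 0, 0), (7, 0, 0, 0, 0), (7, 0, 0, 0, 0), (7, 0, 0, 0, 0), (7, 0, 0, 0, 0), (8, 0, 0, 0, 0), (8, 0, 0, 0, 0), (8, 0, 0, 0, 0), (8, 0, 0, 0, 0), (8, 0, 0, 0, 0), (8, 0, 0, 0, 0), (2, 0, 0, 0, 0), (2, 0, 0, 0, 0), (2, 0, 0, 0, 0), (2, 0, 0, 0, 0), (2, 0, 0, 0, 0), (2, 0, 0, 0, 0), (5, 0, 0, 0, 0), (5, 0, 0, 0, 0), (5, 0, 0, 0, 0), (5, 0, 0, 0, 0), (5, 0, 0, 0, 0), (5, 0, 0, 0, 0), (7, 0, 0, 0, 0), (7, 0, 0, 0, 0), (7, 0, 0, 0, 0), (7, 0, 0, 0, 0), (7, 0, 0, 0, 0),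 (7, 0, 0, 0, 0), (9, 0, 0, 0, 0), (9, 0, 0, 0, 0), (9, 0, 0, 0, 0), (9, 0, 0, 0, 0), (9, 0, 0, 0, 0), (9, 0, 0, 0, 0), (3, 0, 0, 0, 0), (3, 0, 0, 0, 0), (3, 0, 0, 0, 0), (3, 0, 0, 0, 0), (3, 0, 0, 0, 0), (3, 0, 0, 0, 0), (6, 0, 0, 0, 0), (6, 0, 0, 0, 0), (6, 0, 0, 0, 0), (6, 0, 0, 0, 0), (6, 0, 0, 0, 0), (6, 0, 0, 0, 0), (8, 0, 0, 0, 0), (8, 0, 0, 0, 0), (8, 0, 0, 0, 0), (8, 0, 0, 0, 0), (8, 0, 0, 0, 0), (8, 0, 0, 0, 0), (9, 0, 0, 0, 0), (9, 0, 0, 0, 0), (9, 0, 0, 0, 0), (9, 0, 0, 0, 0), (9, 0, 0, 0, 0), (9, 0, 0, 0, 0)]]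

theorem tr41 : trK keys lk41 kl41 = true := by
  decide +kernel

theorem x41_0 : expB 0 5 dg10 dg4 m41_0 (l41_0 ++ z41_0) w41_0 = true := by
  decide +kernel

theorem x41_1 : expB 0 5 dg10 dg4 m41_1 (l41_1 ++ z41_1) w41_1 = true := by
  decide +kernel

theorem x41_2 : expB 0 5 dg10 dg4 m41_2 (l41_2 ++ z41_2) w41_2 = true := by
  decide +kernel

theorem x41_3 : expB 0 5 dg10 dg4 m41_3 (l41_3 ++ z41_3) w41_3 = true := by
  decide +kernel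

theorem x41_4 : expB 0 5 dg10 dg4 m41_4 (l41_4 ++ z41_4) w41_4 = true := by
  decide +kernel

theorem x41_5 : expB 0 5 dg10 dg4 m41_5 (l41_5 ++ z41_5) w41_5 = true := by
  decide +kernel

theorem t41_0_0 : chkS lk41 0 5 [(1, m41_0)] l41_0
  [(70, 16, 16, 50619681, 52715781), (71, 16, 16, 50619681, 52715781), (71, 16, 16, 50615841, 36987141), (64, 16, 16, 50619681, 52715781), (66, 16, 16, 50619681, 52715781), (38, 16, 16, 50746386, 70410261), (64, 16, 16, 50615841, 36987141), (66, 16, 16, 50615841, 36987141), (38, 16, 16, 50742546, 69427221), (38, 1, 1, 3237186, 52514886), (38, 1, 1, 3233346, 36786246), (12, 16, 16, 34825536, 52512336), (64, 16, 16, 50619666, 52715541), (66, 16, 16, 50619666, 52715541), (38, 16, 16, 50746401, 70410501), (64, 16, 16, 50615826, 36986901), (66, 16, 16, 50615826, 36986901), (38, 16, 16, 50742561, 69427461), (38, 1, 1, 3237156,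 52449606), (38, 1, 1, 3233316, 36720966), (12, 16, 16, 34825476, 52446801), (123, 16, 16, 51733536, 54681936), (75, 16, 16, 50746386, 70410261), (75, 16, 16, 50746401, 70410501), (75, 1, 1, 3236436, 51401286), (74, 16, 16, 50619666, 52715541), (74, 16, 16, 50619681, 52715781), (75, 1, 1, 3221076, 34624326), (74, 16, 16, 50615826, 36986901), (74, 16, 16, 50615841, 36987141)]
  [(12, 960), (38, 3840), (64, 1920), (66, 1920), (70, 480), (71, 960), (74, 1920), (75, 1920), (123, 480)] = true := by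
  decide +kernel

theorem t41_0_1 : chkS lk41 0 5 [(1, m41_0)] l41_1
  [(63, 16, 16, 50619681, 52715781), (65, 16, 16, 50619681, 52715781), (63, 16, 16, 50615841, 36987141), (65, 16, 16, 50615841, 36987141), (56, 16, 16, 67331346, 52838421), (56, 16, 16, 67327506, 37109781), (58, 16, 16, 50619681, 52715781), (11, 1, 1, 21377616, 68498016), (62, 16, 16, 50742561, 69427461), (36, 16, 16, 50684946, 54681621), (62, 16, 16, 50746401, 70410501), (36, 16, 16, 50677266, 37969941), (63, 16, 16, 84173601, 56893701), (65, 16, 16, 84296481, 73605381), (63, 16, 16, 84162081, 40120581), (65, 16, 16, 84292641, 73543941), (56, 16, 16, 67331361, 52838661), (56, 16, 16, 67327521, 37110021), (58, 16, 16, 50619666, 52715541), (11, 1, 1, 21377541, 67449441), (62, 16, 16, 50742546, 69427221), (36, 16, 16, 50684961, 54681861), (62, 16, 16, 50746386, 70410261), (36, 16, 16, 50677281,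 37970181), (27, 16, 16, 84108321, 56770821), (29, 16, 16, 84108321, 56770821), (59, 16, 16, 84162081, 40120581), (37, 16, 16, 67515666, 69611541), (53, 16, 16, 84108321, 56770821), (35, 16, 16, 84108306, 56770581), (59, 16, 16, 84162066, 40120341), (37, 16, 16, 67515681, 69611781), (53, 16, 16, 84108306, 56770581), (35, 16, 16, 84108321, 56770821), (73, 16, 16, 84162066, 40120341), (73, 16, 16, 84162081, 40120581), (27, 16, 16, 84100641, 40059141), (29, 16, 16, 84100641, 40059141), (59, 16, 16, 84173601, 56893701), (37, 16, 16, 67523346, 70656021), (53, 16, 16, 84100641, 40059141), (35, 16, 16, 84100626, 40058901), (59, 16, 16, 84173586, 56893461), (37, 16, 16, 67523361, 70656261), (53, 16, 16, 84100626, 40058901), (35, 16, 16, 84100641, 40059141), (73, 16, 16, 84173586, 56893461), (73, 16, 16, 84173601, 56893701), (28, 16, 16, 67450401, 38154501), (28, 16,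 16, 67461921, 54927621), (60, 16, 16, 84296481, 73605381), (36, 16, 16, 67461906, 54927381), (60, 16, 16, 84292641, 73543941), (36, 16, 16, 67450386, 38154261), (60, 16, 16, 84296466, 73605141), (36, 16, 16, 67461921, 54927621), (60, 16, 16, 84292626, 73543701), (36, 16, 16, 67450401, 38154501), (6, 1, 1, 4272741, 17117766), (6, 1, 1, 4272726, 1389126)]
  [(6, 480), (11, 480), (27, 480), (28, 480), (29, 480), (35, 960), (36, 1920), (37, 960), (53, 960), (56, 960), (58, 480), (59, 960), (60, 960), (62, 960), (63, 960), (65, 960), (73, 960)] = true := by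
  decide +kernel

theorem t41_0_2 : chkS lk41 0 5 [(1, m41_0)] l41_2
  [(56, 16, 16, 50746401, 70410501), (56, 16, 16, 50742561, 69427461), (55, 16, 16, 50619681, 52715781), (54, 16, 16, 50746401, 70410501), (52, 16, 16, 50684961, 54681861), (52, 16, 16, 50677281, 37970181), (56, 16, 16, 50746386, 70410261), (56, 16, 16, 50742546, 69427221), (55, 16, 16, 67331361, 52838661), (54, 16, 16, 50746386, 70410261), (52, 16, 16, 50684946, 54681621), (52, 16, 16, 50677266, 37969941), (28, 16, 16, 84108321, 56770821), (61, 16, 16, 100939041, 103035141), (52, 16, 16, 84108321, 56770821), (61, 16, 16, 100939026, 103034901), (52, 16, 16, 84108306, 56770581), (120, 16, 16, 68571936, 70656336), (28, 16, 16, 84100641, 40059141), (61, 16, 16, 100946721, 104079621), (52, 16, 16, 84100641, 40059141), (61, 16, 16, 100946706, 104079381), (52, 16, 16, 84100626, 40058901), (120,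 16, 16, 68564256, 69611856), (33, 16, 16, 67331361, 52838661), (67, 16, 16, 84173601, 56893701), (67, 16, 16, 84162081, 40120581), (67, 16, 16, 84173586, 56893461), (67, 16, 16, 84162066, 40120341), (119, 16, 16, 68379936, 52838736)]
  [(28, 960), (33, 480), (52, 3840), (54, 960), (55, 960), (56, 1920), (61, 1920), (67, 1920), (119, 480), (120, 960)] = true := by
  decide +kernel

theorem t41_0_3 : chkS lk41 0 5 [(1, m41_0)] l41_3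
  [(30, 16, 16, 100881441, 103956741), (28, 16, 16, 50684961, 54681861), (28, 16, 16, 50677281, 37970181), (68, 16, 16, 100946721, 104079621), (56, 16, 16, 100881426, 103956501), (61, 16, 16, 67523361, 70656261), (68, 16, 16, 100939041, 103035141), (56, 16, 16, 100877586, 102973461), (61, 16, 16, 67515681, 69611781), (56, 16, 16, 100881441, 103956741), (56, 16, 16, 100877601, 102973701), (54, 16, 16, 100881441, 103956741), (61, 16, 16, 67523346, 70656021), (61, 16, 16, 67515666, 69611541), (54, 16, 16, 100881426, 103956501)]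
  [(28, 1920), (30, 960), (54, 1920), (56, 3840), (61, 3840), (68, 1920)] = true := by
  decide +kernel

theorem t41_0_4 : chkS lk41 0 5 [(1, m41_0)] l41_4
  [(31, 16, 16, 218145, 3293445), (32, 16, 16, 341025, 4337925), (32, 16, 16, 344865, 4399365), (69, 16, 16, 283425, 3416325), (26, 1, 1, 4411680, 3490080), (25, 1, 1, 4399440, 1393440), (69, 16, 16, 275745, 2371845), (26, 1, 1, 4396320, 2441520), (25, 1, 1, 4395600, 1393200), (26, 1, 1, 4411650, 3489825), (26, 1, 1, 4396290, 2441265), (18, 1, 1, 4272720, 1389120), (25, 1, 1, 4399365, 344865), (25, 1, 1, 4395525, 344625), (18, 1, 1, 4272645, 340545)]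
  [(18, 1920), (25, 3840), (26, 3840), (31, 960), (32, 1920), (69, 1920)] = true := by
  decide +kernel

theorem t41_0_5 : chkS lk41 0 5 [(1, m41_0)] l41_5
  [(34, 16, 16, 218145, 3293445), (72, 16, 16, 283425, 3416325), (72, 16, 16, 275745, 2371845), (57, 16, 16, 218145, 3293445), (72, 16, 16, 283410, 3416085), (72, 16, 16, 275730, 2371605), (57, 16, 16, 218130, 3293205), (124, 16, 16, 1393440, 4399440), (121, 16, 16, 1332000, 3416400), (121, 16, 16, 1324320, 2371920)]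
  [(34, 1440), (57, 2880), (72, 5760), (121, 2880), (124, 1440)] = true := by
  decide +kernel

theorem t41_1_1 : chkS lk41 0 5 [(1, m41_1)] l41_1
  [(77, 16, 16, 87318786, 56905761), (78, 16, 16, 87441666, 73617441), (125, 16, 16, 67461921, 54927621), (93, 16, 16, 87441666, 73617441), (93, 1, 1, 55665666, 55730241), (91, 16, 16, 87318786, 56905761), (125, 16, 16, 67461681, 54923781), (93, 16, 16, 87441426, 73617426), (93, 1, 1, 55664706, 55664706), (91, 16, 16, 87318546, 56905746), (116, 16, 16, 69619971, 70649121), (116, 16, 16, 69619731, 70649106), (101, 16, 16, 86270211, 56886561), (102, 16, 16, 86393091, 73598241), (126, 16, 16, 101008161, 105062661), (96, 16, 16, 70668546, 70668321), (96, 1, 1, 54617376, 52781376), (94, 16, 16, 70607106, 54939681), (98, 1, 1, 6562581, 84157206), (99, 1, 1, 39059766, 5510691), (41, 1, 1, 37838901, 50665026), (40, 1, 1,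 37838901, 50665026), (90, 16, 16, 69619971, 70649121), (115, 16, 16, 67523121, 70652421), (101, 16, 16, 86269971, 56886546), (102, 16, 16, 86392851, 73598226), (126, 16, 16, 101007921, 105058821), (96, 16, 16, 70668306, 70668306), (96, 1, 1, 54616656, 51733056), (94, 16, 16, 70606866, 54939666), (98, 1, 1, 6562101, 84153126), (99, 1, 1, 39060246, 5514771), (41, 1, 1, 37839621, 50669121), (40, 1, 1, 37839621, 50669121), (90, 16, 16, 69619731, 70649106), (115, 16, 16, 67523361, 70656261), (98, 16, 16, 100946481, 104075781), (41, 16, 16, 69619971, 70649121), (98, 16, 16, 100946721, 104079621), (41, 16, 16, 69619731, 70649106), (90, 1, 1, 37828176, 34944576), (90, 1, 1, 37827936, 19215936), (76, 16, 16, 87318786, 56905761), (45, 16, 16, 69619971, 70649121), (88, 16, 16, 87318786, 56905761), (90, 1, 1, 55649286, 5399361), (88, 16, 16, 87318546, 56905746), (90, 1,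 1, 55648326, 5333826), (99, 16, 16, 86392851, 73598226), (40, 16, 16, 69558531, 54920481), (99, 16, 16, 86393091, 73598241), (40, 16, 16, 69558291, 54920466), (115, 16, 16, 86393091, 73598241), (115, 16, 16, 86392851, 73598226), (45, 1, 1, 37970181, 50677281), (44, 16, 16, 69558531, 54920481), (90, 16, 16, 87441666, 73617441), (116, 16, 16, 84296241, 73601541), (90, 16, 16, 87441426, 73617426), (116, 16, 16, 84296481, 73605381)]
  [(40, 960), (41, 960), (44, 240), (45, 480), (76, 240), (77, 240), (78, 240), (88, 480), (90, 1920), (91, 480), (93, 960), (94, 480), (96, 960), (98, 960), (99, 960), (101, 480), (102, 480), (115, 960), (116, 960), (125, 480), (126, 480)] = true := by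
  decide +kernel

theorem t41_1_2 : chkS lk41 0 5 [(1, m41_1)] l41_2
  [(49, 1, 1, 54939906, 70606881), (93, 1, 1, 21378336, 69546336), (92, 1, 1, 21194016, 52773216), (93, 1, 1, 21377616, 68498016), (92, 1, 1, 21193296, 51724896), (87, 1, 1, 21177936, 34947936), (42, 1, 1, 21385986, 70590561), (96, 1, 1, 22426626, 72495201), (92, 1, 1, 22242306, 55722081), (41, 1, 1, 22422276, 72360801), (39, 1, 1, 22176516, 55583841), (89, 1, 1, 22225926, 5391201), (42, 1, 1, 21385266, 70586466), (96, 1, 1, 22425666, 72429666), (92, 1, 1, 22241346, 55656546), (41, 1, 1, 22421556, 72356706), (39, 1, 1, 22175796, 55579746), (89, 1, 1, 22224966, 5325666), (99, 16, 16, 100946481, 104075781), (99, 16, 16, 100946721, 104079621), (87, 1, 1, 54601296, 34956096), (45, 1, 1, 55976196, 72377121), (89, 1, 1, 55649286, 5399361), (89, 1, 1, 55648326, 5333826), (103, 16, 16, 84173361, 56889861),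 (103, 16, 16, 84173601, 56893701), (113, 1, 1, 20981331, 34931556), (43, 1, 1, 55730436, 55600161), (114, 1, 1, 22029366, 5378916), (114, 1, 1, 22029126, 5317476)]
  [(39, 960), (41, 960), (42, 960), (43, 480), (45, 480), (49, 480), (87, 960), (89, 1920), (92, 1920), (93, 960), (96, 960), (99, 960), (103, 960), (113, 480), (114, 960)] = true := by
  decide +kernel

theorem t41_1_3 : chkS lk41 0 5 [(1, m41_1)] l41_3
  [(104, 16, 16, 103043091, 104072466), (42, 1, 1, 104943666, 104140866), (99, 16, 16, 67523121, 70652421), (104, 16, 16, 103043331, 104072481), (42, 1, 1, 104944386, 104144961), (99, 16, 16, 67523361, 70656261), (79, 16, 16, 104091906, 104091681), (96, 1, 1, 105985026, 106049601), (96, 1, 1, 105984066, 105984066), (49, 1, 1, 105074946, 104153121), (93, 1, 1, 104936736, 103100736), (93, 1, 1, 104936016, 102052416), (45, 1, 1, 106111236, 105923361),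 (41, 1, 1, 105979956, 105911106), (41, 1, 1, 105980676, 105915201)]
  [(41, 1920), (42, 1920), (45, 960), (49, 960), (79, 960), (93, 1920), (96, 1920), (99, 1920), (104, 1920)] = true := by
  decide +kernel

theorem t41_1_4 : chkS lk41 0 5 [(1, m41_1)] l41_4
  [(105, 16, 16, 2379795, 3409170), (24, 16, 16, 3428610, 3428385), (21, 1, 1, 2442000, 4400400), (105, 16, 16, 2380035, 3409185), (24, 16, 16, 3428370, 3428370), (21, 1, 1, 2441520, 4396320), (80, 16, 16, 3428610, 3428385), (97, 16, 16, 3428610, 3428385), (97, 16, 16, 3428370, 3428370), (50, 1, 1, 4411650, 3489825), (22, 16, 16, 1389600, 4338000), (22, 16, 16, 1389120, 4272720), (48, 16, 16, 2441475, 4392225), (21, 16, 16, 4399365, 344865), (21, 16, 16, 4399125, 344850)]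
  [(21, 3840), (22, 1920), (24, 1920), (48, 960), (50, 960), (80, 960), (97, 1920), (105, 1920)] = true := by
  decide +kernel

theorem t41_1_5 : chkS lk41 0 5 [(1, m41_1)] l41_5
  [(110, 16, 16, 283185, 3412485), (110, 16, 16, 283425, 3416325), (127, 16, 16, 344865, 4399365), (10, 16, 16, 1332000, 3416400), (84, 16, 16, 2380035, 3409185), (128, 16, 16, 2441235, 4392210), (122, 16, 16, 2379795, 3409170), (128, 16, 16, 2441475, 4392225), (122, 16, 16, 2380035, 3409185), (7, 16, 16, 344865, 4399365)]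
  [(7, 1440), (10, 1440), (84, 1440), (110, 2880), (122, 2880), (127, 1440), (128, 2880)] = true := by
  decide +kernel

theorem t41_2_2 : chkS lk41 0 5 [(1, m41_2)] l41_2
  [(2, 16, 16, 35017776, 70391376), (91, 16, 16, 68571936, 70656336), (91, 16, 16, 68510496, 54927696), (91, 16, 16, 68571696, 70652496), (91, 16, 16, 68510256, 54923856), (1, 16, 16, 34879056, 34879056), (17, 16, 16, 70668306, 70668306), (94, 16, 16, 85345056, 73605456), (94, 16, 16, 85222176, 56893776), (40, 1, 1, 22422276, 72360801), (40, 1, 1, 22176516, 55583841), (9, 16, 16, 38162691, 70583841), (17, 16, 16, 70668546, 70668321), (94, 16, 16, 85344816, 73601616), (94, 16, 16, 85221936, 56889936), (40, 1, 1, 22421556, 72356706), (40, 1, 1, 22175796, 55579746), (9, 16, 16, 38162451, 70583826), (40, 16, 16, 85344816, 73601616), (40, 16, 16, 85345056, 73605456), (9, 1, 1, 69285456, 35009856),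 (44, 16, 16, 87441666, 73617441), (117, 16, 16, 101995056, 104075856), (117, 16, 16, 101995296, 104079696), (40, 16, 16, 85221936, 56889936), (40, 16, 16, 85222176, 56893776), (9, 1, 1, 69408336, 35013936), (44, 16, 16, 87318786, 56905761), (117, 16, 16, 102056496, 105058896), (117, 16, 16, 102056736, 105062736)]
  [(1, 480), (2, 480), (9, 1920), (17, 960), (40, 3840), (44, 960), (91, 1920), (94, 1920), (117, 1920)] = true := by
  decide +kernel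

theorem t41_2_3 : chkS lk41 0 5 [(1, m41_2)] l41_3
  [(42, 16, 16, 102056496, 105058896), (42, 16, 16, 101995056, 104075856), (16, 1, 1, 104153601, 105075201), (42, 16, 16, 102056736, 105062736), (42, 16, 16, 101995296, 104079696), (16, 1, 1, 104153121, 105074946), (49, 16, 16, 104153346, 105074721), (95, 16, 16, 102056736, 105062736), (95, 16, 16, 102056496, 105058896), (49, 16, 16, 104091906, 104091681), (95, 16, 16, 101995296, 104079696), (95, 16, 16, 101995056, 104075856), (46, 16, 16, 104153346, 105074721), (100, 1, 1, 73532181, 84288531), (100, 1, 1, 73409301, 84288276)]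
  [(16, 1920), (42, 3840), (46, 960), (49, 1920), (95, 3840), (100, 1920)] = true := by
  decide +kernel

theorem t41_2_4 : chkS lk41 0 5 [(1, m41_2)] l41_4
  [(24, 1, 1, 4534785, 4534785), (24, 1, 1, 4411905, 3490305), (20, 1, 1, 2442000, 4400400), (24, 1, 1, 4534305, 4534530), (24, 1, 1, 4411425, 3490050), (20, 1, 1, 2441520, 4396320), (50, 16, 16, 3490050, 4411425), (23, 1, 1, 5444640, 5390640), (23, 1, 1, 5444160, 5325360), (50, 16, 16, 3428610, 3428385), (23, 1, 1, 5321760, 5386560), (23, 1, 1, 5321280, 5321280), (47, 16, 16, 3490050, 4411425), (106, 1, 1, 5374740, 5252115), (106, 1, 1, 5251860, 5251860)]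
  [(20, 1920), (23, 3840), (24, 3840), (47, 960), (50, 1920), (106, 1920)] = true := by
  decide +kernel

theorem t41_2_5 : chkS lk41 0 5 [(1, m41_2)] l41_5
  [(15, 16, 16, 3428610, 3428385), (15, 16, 16, 3428370, 3428370), (8, 16, 16, 1393440, 4399440), (8, 16, 16, 1332000, 3416400), (51, 16, 16, 3490050, 4411425), (118, 16, 16, 1393200, 4395600), (118, 16, 16, 1331760, 3412560), (118, 16, 16, 1393440, 4399440), (118, 16, 16, 1332000, 3416400), (5, 16, 16, 1393440, 4399440)]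
  [(5, 1440), (8, 2880), (15, 2880), (51, 1440), (118, 5760)] = true := by
  decide +kernel

theorem t41_3_3 : chkS lk41 0 5 [(1, m41_3)] l41_3
  [(81, 16, 16, 105198096, 105198096), (78, 16, 16, 73740816, 88486416), (78, 16, 16, 73736976, 88482576), (107, 16, 16, 105198096, 105198096), (102, 16, 16, 73736961, 88482561), (102, 16, 16, 73728291, 88473891), (107, 16, 16, 105194256, 105194256), (102, 16, 16, 73740801, 88486401), (102, 16, 16, 73732131, 88473906), (102, 16, 16, 73736976, 88482576), (102, 16, 16, 73740816, 88486416), (78, 16, 16, 73732146, 88477746), (102, 16, 16, 73728306, 88477731), (102, 16, 16, 73732146, 88477746), (78, 16, 16, 73732131, 88473906)]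
  [(78, 3840), (81, 960), (102, 7680), (107, 1920)] = true := by
  decide +kernel

theorem t41_3_4 : chkS lk41 0 5 [(1, m41_3)] l41_4
  [(82, 16, 16, 4534800, 4534800), (50, 16, 16, 5517840, 5517840), (50, 16, 16, 5514000, 5514000), (108, 16, 16, 4534800, 4534800), (24, 1, 1, 5456160, 5456160), (24, 1, 1, 5447745, 5325570), (108, 16, 16, 4530960, 4530960), (24, 1, 1, 5444640, 5390640), (24, 1, 1, 5440065, 5325315), (24, 1, 1, 5456130, 5455905), (24, 1, 1, 5444610, 5390385), (50, 16, 16, 5509170, 5509170), (24, 1, 1, 5447700, 5260050), (24, 1, 1, 5440020, 5259795), (50, 16, 16, 5509155, 5505330)]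
  [(24, 7680), (50, 3840), (82, 960), (108, 1920)] = true := by
  decide +kernel

theorem t41_3_5 : chkS lk41 0 5 [(1, m41_3)] l41_5
  [(85, 16, 16, 4534800, 4534800), (111, 16, 16, 4530945, 4530945), (111, 16, 16, 4534785, 4534785), (14, 16, 16, 5517840, 5517840), (111, 16, 16, 4530960, 4530960), (111, 16, 16, 4534800, 4534800), (14, 16, 16, 5517825, 5517825), (85, 16, 16, 4526130, 4526130), (14, 16, 16, 5509170, 5509170), (14, 16, 16, 5505330, 5509155)]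
  [(14, 5760), (85, 2880), (111, 5760)] = true := by
  decide +kernel

theorem t41_4_4 : chkS lk41 0 5 [(1, m41_4)] l41_4
  [(83, 16, 16, 274960, 274960), (0, 16, 16, 135235, 66610), (0, 16, 16, 131395, 66595), (109, 16, 16, 274960, 274960), (3, 16, 16, 274960, 274960), (3, 16, 16, 266290, 266290), (109, 16, 16, 271120, 271120), (3, 16, 16, 271120, 271120), (3, 16, 16, 262450, 266275), (3, 16, 16, 274945, 274945), (3, 16, 16, 271105, 271105), (0, 16, 16, 148240, 205840), (3, 16, 16, 266275, 262450), (3, 16, 16, 262435, 262435), (0, 16, 16, 148225, 205825)]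
  [(0, 3840), (3, 7680), (83, 960), (109, 1920)] = true := by
  decide +kernel

theorem t41_4_5 : chkS lk41 0 5 [(1, m41_4)] l41_5
  [(86, 16, 16, 274960, 274960), (112, 16, 16, 271105, 271105), (112, 16, 16, 274945, 274945), (19, 16, 16, 274960, 274960), (112, 16, 16, 271120, 271120), (112, 16, 16, 274960, 274960), (19, 16, 16, 274945, 274945), (86, 16, 16, 266290, 266290), (19, 16, 16, 266290, 266290), (19, 16, 16, 262450, 266275)]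
  [(19, 5760), (86, 2880), (112, 5760)] = true := by
  decide +kernel

theorem t41_5_5 : chkS lk41 0 5 [(1, m41_5)] l41_5
  [(129, 16, 16, 274960, 274960), (13, 16, 16, 274960, 274960), (13, 16, 16, 271120, 271120), (13, 16, 16, 144400, 144400), (13, 16, 16, 274945, 274945), (13, 16, 16, 271105, 271105), (13, 16, 16, 144385, 144385), (4, 16, 16, 274960, 274960), (4, 16, 16, 148240, 205840), (4, 16, 16, 144400, 144400)]
  [(4, 4320), (13, 8640), (129, 1440)] = true := by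
  decide +kernel

section

variable {κ ι : Type*} [Fintype κ] [Fintype ι] [Inhabited κ] [Inhabited ι]

noncomputable def F41_0 (E : Env κ ι) : (Fin 0 → κ) → (Fin 5 → ι) → ℝ := op2 (P10 κ) (P4 ι) (fB E 0 5 m41_0)

noncomputable def F41_1 (E : Env κ ι) : (Fin 0 → κ) → (Fin 5 → ι) → ℝ := op2 (P10 κ) (P4 ι) (fB E 0 5 m41_1)

noncomputable def F41_2 (E : Env κ ι) : (Fin 0 → κ) → (Fin 5 → ι) → ℝ := op2 (P10 κ) (P4 ι) (fB E 0 5 m41_2)

noncomputable def F41_3 (E : Env κ ι) : (Fin 0 → κ) → (Fin 5 → ι) → ℝ := op2 (P10 κ) (P4 ι) (fB E 0 5 m41_3)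

noncomputable def F41_4 (E : Env κ ι) : (Fin 0 → κ) → (Fin 5 → ι) → ℝ := op2 (P10 κ) (P4 ι) (fB E 0 5 m41_4)

noncomputable def F41_5 (E : Env κ ι) : (Fin 0 → κ) → (Fin 5 → ι) → ℝ := op2 (P10 κ) (P4 ι) (fB E 0 5 m41_5)

def r41_0_0 : List (ℕ × ℤ) := [(12, 960), (38, 3840), (64, 1920), (66, 1920), (70, 480), (71, 960), (74, 1920), (75, 1920), (123, 480)]

theorem h41_0_0 (E : Env κ ι) : ip (F41_0 E) (F41_0 E) = dotS (ek E lk41) r41_0_0 :=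
  op_entryZ E lk41 0 5 _ _ _ _ (pg10 κ) (pg4 ι) m41_0 m41_0 l41_0 z41_0 w41_0 x41_0 (by decide) _ (chkS_sound E lk41 0 5 _ _ _ _ t41_0_0)

def r41_0_1 : List (ℕ × ℤ) := [(6, 480), (11, 480), (27, 480), (28, 480), (29, 480), (35, 960), (36, 1920), (37, 960), (53, 960), (56, 960), (58, 480), (59, 960), (60, 960), (62, 960), (63, 960), (65, 960), (73, 960)]

theorem h41_0_1 (E : Env κ ι) : ip (F41_0 E) (F41_1 E) = dotS (ek E lk41) r41_0_1 :=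
  op_entryZ E lk41 0 5 _ _ _ _ (pg10 κ) (pg4 ι) m41_0 m41_1 l41_1 z41_1 w41_1 x41_1 (by decide) _ (chkS_sound E lk41 0 5 _ _ _ _ t41_0_1)

def r41_0_2 : List (ℕ × ℤ) := [(28, 960), (33, 480), (52, 3840), (54, 960), (55, 960), (56, 1920), (61, 1920), (67, 1920), (119, 480), (120, 960)]

theorem h41_0_2 (E : Env κ ι) : ip (F41_0 E) (F41_2 E) = dotS (ek E lk41) r41_0_2 :=
  op_entryZ E lk41 0 5 _ _ _ _ (pg10 κ) (pg4 ι) m41_0 m41_2 l41_2 z41_2 w41_2 x41_2 (by decide) _ (chkS_sound E lk41 0 5 _ _ _ _ t41_0_2)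

def r41_0_3 : List (ℕ × ℤ) := [(28, 1920), (30, 960), (54, 1920), (56, 3840), (61, 3840), (68, 1920)]

theorem h41_0_3 (E : Env κ ι) : ip (F41_0 E) (F41_3 E) = dotS (ek E lk41) r41_0_3 :=
  op_entryZ E lk41 0 5 _ _ _ _ (pg10 κ) (pg4 ι) m41_0 m41_3 l41_3 z41_3 w41_3 x41_3 (by decide) _ (chkS_sound E lk41 0 5 _ _ _ _ t41_0_3)

def r41_0_4 : List (ℕ × ℤ) := [(18, 1920), (25, 3840), (26, 3840), (31, 960), (32, 1920), (69, 1920)]

theorem h41_0_4 (E : Env κ ι) : ip (F41_0 E) (F41_4 E) = dotS (ek E lk41) r41_0_4 :=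
  op_entryZ E lk41 0 5 _ _ _ _ (pg10 κ) (pg4 ι) m41_0 m41_4 l41_4 z41_4 w41_4 x41_4 (by decide) _ (chkS_sound E lk41 0 5 _ _ _ _ t41_0_4)

def r41_0_5 : List (ℕ × ℤ) := [(34, 1440), (57, 2880), (72, 5760), (121, 2880), (124, 1440)]

theorem h41_0_5 (E : Env κ ι) : ip (F41_0 E) (F41_5 E) = dotS (ek E lk41) r41_0_5 :=
  op_entryZ E lk41 0 5 _ _ _ _ (pg10 κ) (pg4 ι) m41_0 m41_5 l41_5 z41_5 w41_5 x41_5 (by decide) _ (chkS_sound E lk41 0 5 _ _ _ _ t41_0_5)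

def r41_1_1 : List (ℕ × ℤ) := [(40, 960), (41, 960), (44, 240), (45, 480), (76, 240), (77, 240), (78, 240), (88, 480), (90, 1920), (91, 480), (93, 960), (94, 480), (96, 960), (98, 960), (99, 960), (101, 480), (102, 480), (115, 960), (116, 960), (125, 480), (126, 480)]

theorem h41_1_1 (E : Env κ ι) : ip (F41_1 E) (F41_1 E) = dotS (ek E lk41) r41_1_1 :=
  op_entryZ E lk41 0 5 _ _ _ _ (pg10 κ) (pg4 ι) m41_1 m41_1 l41_1 z41_1 w41_1 x41_1 (by decide) _ (chkS_sound E lk41 0 5 _ _ _ _ t41_1_1)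

def r41_1_2 : List (ℕ × ℤ) := [(39, 960), (41, 960), (42, 960), (43, 480), (45, 480), (49, 480), (87, 960), (89, 1920), (92, 1920), (93, 960), (96, 960), (99, 960), (103, 960), (113, 480), (114, 960)]

theorem h41_1_2 (E : Env κ ι) : ip (F41_1 E) (F41_2 E) = dotS (ek E lk41) r41_1_2 :=
  op_entryZ E lk41 0 5 _ _ _ _ (pg10 κ) (pg4 ι) m41_1 m41_2 l41_2 z41_2 w41_2 x41_2 (by decide) _ (chkS_sound E lk41 0 5 _ _ _ _ t41_1_2)

def r41_1_3 : List (ℕ × ℤ) := [(41, 1920), (42, 1920), (45, 960), (49, 960), (79, 960), (93, 1920), (96, 1920), (99, 1920), (104, 1920)]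

theorem h41_1_3 (E : Env κ ι) : ip (F41_1 E) (F41_3 E) = dotS (ek E lk41) r41_1_3 :=
  op_entryZ E lk41 0 5 _ _ _ _ (pg10 κ) (pg4 ι) m41_1 m41_3 l41_3 z41_3 w41_3 x41_3 (by decide) _ (chkS_sound E lk41 0 5 _ _ _ _ t41_1_3)

def r41_1_4 : List (ℕ × ℤ) := [(21, 3840), (22, 1920), (24, 1920), (48, 960), (50, 960), (80, 960), (97, 1920), (105, 1920)]

theorem h41_1_4 (E : Env κ ι) : ip (F41_1 E) (F41_4 E) = dotS (ek E lk41) r41_1_4 :=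
  op_entryZ E lk41 0 5 _ _ _ _ (pg10 κ) (pg4 ι) m41_1 m41_4 l41_4 z41_4 w41_4 x41_4 (by decide) _ (chkS_sound E lk41 0 5 _ _ _ _ t41_1_4)

def r41_1_5 : List (ℕ × ℤ) := [(7, 1440), (10, 1440), (84, 1440), (110, 2880), (122, 2880), (127, 1440), (128, 2880)]

theorem h41_1_5 (E : Env κ ι) : ip (F41_1 E) (F41_5 E) = dotS (ek E lk41) r41_1_5 :=
  op_entryZ E lk41 0 5 _ _ _ _ (pg10 κ) (pg4 ι) m41_1 m41_5 l41_5 z41_5 w41_5 x41_5 (by decide) _ (chkS_sound E lk41 0 5 _ _ _ _ t41_1_5)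

def r41_2_2 : List (ℕ × ℤ) := [(1, 480), (2, 480), (9, 1920), (17, 960), (40, 3840), (44, 960), (91, 1920), (94, 1920), (117, 1920)]

theorem h41_2_2 (E : Env κ ι) : ip (F41_2 E) (F41_2 E) = dotS (ek E lk41) r41_2_2 :=
  op_entryZ E lk41 0 5 _ _ _ _ (pg10 κ) (pg4 ι) m41_2 m41_2 l41_2 z41_2 w41_2 x41_2 (by decide) _ (chkS_sound E lk41 0 5 _ _ _ _ t41_2_2)

def r41_2_3 : List (ℕ × ℤ) := [(16, 1920), (42, 3840), (46, 960), (49, 1920), (95, 3840), (100, 1920)]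

theorem h41_2_3 (E : Env κ ι) : ip (F41_2 E) (F41_3 E) = dotS (ek E lk41) r41_2_3 :=
  op_entryZ E lk41 0 5 _ _ _ _ (pg10 κ) (pg4 ι) m41_2 m41_3 l41_3 z41_3 w41_3 x41_3 (by decide) _ (chkS_sound E lk41 0 5 _ _ _ _ t41_2_3)

def r41_2_4 : List (ℕ × ℤ) := [(20, 1920), (23, 3840), (24, 3840), (47, 960), (50, 1920), (106, 1920)]

theorem h41_2_4 (E : Env κ ι) : ip (F41_2 E) (F41_4 E) = dotS (ek E lk41) r41_2_4 :=
  op_entryZ E lk41 0 5 _ _ _ _ (pg10 κ) (pg4 ι) m41_2 m41_4 l41_4 z41_4 w41_4 x41_4 (by decide) _ (chkS_sound E lk41 0 5 _ _ _ _ t41_2_4)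

def r41_2_5 : List (ℕ × ℤ) := [(5, 1440), (8, 2880), (15, 2880), (51, 1440), (118, 5760)]

theorem h41_2_5 (E : Env κ ι) : ip (F41_2 E) (F41_5 E) = dotS (ek E lk41) r41_2_5 :=
  op_entryZ E lk41 0 5 _ _ _ _ (pg10 κ) (pg4 ι) m41_2 m41_5 l41_5 z41_5 w41_5 x41_5 (by decide) _ (chkS_sound E lk41 0 5 _ _ _ _ t41_2_5)

def r41_3_3 : List (ℕ × ℤ) := [(78, 3840), (81, 960), (102, 7680), (107, 1920)]

theorem h41_3_3 (E : Env κ ι) : ip (F41_3 E) (F41_3 E) = dotS (ek E lk41) r41_3_3 :=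
  op_entryZ E lk41 0 5 _ _ _ _ (pg10 κ) (pg4 ι) m41_3 m41_3 l41_3 z41_3 w41_3 x41_3 (by decide) _ (chkS_sound E lk41 0 5 _ _ _ _ t41_3_3)

def r41_3_4 : List (ℕ × ℤ) := [(24, 7680), (50, 3840), (82, 960), (108, 1920)]

theorem h41_3_4 (E : Env κ ι) : ip (F41_3 E) (F41_4 E) = dotS (ek E lk41) r41_3_4 :=
  op_entryZ E lk41 0 5 _ _ _ _ (pg10 κ) (pg4 ι) m41_3 m41_4 l41_4 z41_4 w41_4 x41_4 (by decide) _ (chkS_sound E lk41 0 5 _ _ _ _ t41_3_4)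

def r41_3_5 : List (ℕ × ℤ) := [(14, 5760), (85, 2880), (111, 5760)]

theorem h41_3_5 (E : Env κ ι) : ip (F41_3 E) (F41_5 E) = dotS (ek E lk41) r41_3_5 :=
  op_entryZ E lk41 0 5 _ _ _ _ (pg10 κ) (pg4 ι) m41_3 m41_5 l41_5 z41_5 w41_5 x41_5 (by decide) _ (chkS_sound E lk41 0 5 _ _ _ _ t41_3_5)

def r41_4_4 : List (ℕ × ℤ) := [(0, 3840), (3, 7680), (83, 960), (109, 1920)]

theorem h41_4_4 (E : Env κ ι) : ip (F41_4 E) (F41_4 E) = dotS (ek E lk41) r41_4_4 :=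
  op_entryZ E lk41 0 5 _ _ _ _ (pg10 κ) (pg4 ι) m41_4 m41_4 l41_4 z41_4 w41_4 x41_4 (by decide) _ (chkS_sound E lk41 0 5 _ _ _ _ t41_4_4)

def r41_4_5 : List (ℕ × ℤ) := [(19, 5760), (86, 2880), (112, 5760)]

theorem h41_4_5 (E : Env κ ι) : ip (F41_4 E) (F41_5 E) = dotS (ek E lk41) r41_4_5 :=
  op_entryZ E lk41 0 5 _ _ _ _ (pg10 κ) (pg4 ι) m41_4 m41_5 l41_5 z41_5 w41_5 x41_5 (by decide) _ (chkS_sound E lk41 0 5 _ _ _ _ t41_4_5)

def r41_5_5 : List (ℕ × ℤ) := [(4, 4320), (13, 8640), (129, 1440)]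

theorem h41_5_5 (E : Env κ ι) : ip (F41_5 E) (F41_5 E) = dotS (ek E lk41) r41_5_5 :=
  op_entryZ E lk41 0 5 _ _ _ _ (pg10 κ) (pg4 ι) m41_5 m41_5 l41_5 z41_5 w41_5 x41_5 (by decide) _ (chkS_sound E lk41 0 5 _ _ _ _ t41_5_5)

theorem row41_0 (E : Env κ ι) : RowG (ek E lk41) (F41_0 E) [F41_0 E, F41_1 E, F41_2 E, F41_3 E, F41_4 E, F41_5 E] [r41_0_0, r41_0_1, r41_0_2, r41_0_3, r41_0_4, r41_0_5] :=
  rowG_cons _ _ _ _ _ _ (h41_0_0 E) (rowG_cons _ _ _ _ _ _ (h41_0_1 E) (rowG_cons _ _ _ _ _ _ (h41_0_2 E) (rowG_cons _ _ _ _ _ _ (h41_0_3 E) (rowG_cons _ _ _ _ _ _ (h41_0_4 E) (rowG_cons _ _ _ _ _ _ (h41_0_5 E) (rowG_nil _ _))))))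

theorem row41_1 (E : Env κ ι) : RowG (ek E lk41) (F41_1 E) [F41_1 E, F41_2 E, F41_3 E, F41_4 E, F41_5 E] [r41_1_1, r41_1_2, r41_1_3, r41_1_4, r41_1_5] :=
  rowG_cons _ _ _ _ _ _ (h41_1_1 E) (rowG_cons _ _ _ _ _ _ (h41_1_2 E) (rowG_cons _ _ _ _ _ _ (h41_1_3 E) (rowG_cons _ _ _ _ _ _ (h41_1_4 E) (rowG_cons _ _ _ _ _ _ (h41_1_5 E) (rowG_nil _ _)))))

theorem row41_2 (E : Env κ ι) : RowG (ek E lk41) (F41_2 E) [F41_2 E, F41_3 E, F41_4 E, F41_5 E] [r41_2_2, r41_2_3, r41_2_4, r41_2_5] :=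
  rowG_cons _ _ _ _ _ _ (h41_2_2 E) (rowG_cons _ _ _ _ _ _ (h41_2_3 E) (rowG_cons _ _ _ _ _ _ (h41_2_4 E) (rowG_cons _ _ _ _ _ _ (h41_2_5 E) (rowG_nil _ _))))

theorem row41_3 (E : Env κ ι) : RowG (ek E lk41) (F41_3 E) [F41_3 E, F41_4 E, F41_5 E] [r41_3_3, r41_3_4, r41_3_5] :=
  rowG_cons _ _ _ _ _ _ (h41_3_3 E) (rowG_cons _ _ _ _ _ _ (h41_3_4 E) (rowG_cons _ _ _ _ _ _ (h41_3_5 E) (rowG_nil _ _)))

theorem row41_4 (E : Env κ ι) : RowG (ek E lk41) (F41_4 E) [F41_4 E, F41_5 E] [r41_4_4, r41_4_5] :=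
  rowG_cons _ _ _ _ _ _ (h41_4_4 E) (rowG_cons _ _ _ _ _ _ (h41_4_5 E) (rowG_nil _ _))

theorem row41_5 (E : Env κ ι) : RowG (ek E lk41) (F41_5 E) [F41_5 E] [r41_5_5] :=
  rowG_cons _ _ _ _ _ _ (h41_5_5 E) (rowG_nil _ _)

def tab41 : List (List (List (ℕ × ℤ))) := [[r41_0_0, r41_0_1, r41_0_2, r41_0_3, r41_0_4, r41_0_5], [r41_1_1, r41_1_2, r41_1_3, r41_1_4, r41_1_5], [r41_2_2, r41_2_3, r41_2_4, r41_2_5], [r41_3_3, r41_3_4, r41_3_5], [r41_4_4, r41_4_5], [r41_5_5]]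

theorem tri41 (E : Env κ ι) : TriG (ek E lk41) [F41_0 E, F41_1 E, F41_2 E, F41_3 E, F41_4 E, F41_5 E] tab41 := by
  refine triG_cons _ _ _ _ _ (row41_0 E) ?_
  refine triG_cons _ _ _ _ _ (row41_1 E) ?_
  refine triG_cons _ _ _ _ _ (row41_2 E) ?_
  refine triG_cons _ _ _ _ _ (row41_3 E) ?_
  refine triG_cons _ _ _ _ _ (row41_4 E) ?_
  refine triG_cons _ _ _ _ _ (row41_5 E) ?_
  exact triG_nil _

end

def lk42 : List Key := [
  (2, 5, [(0, [0], [0, 1]), (0, [1], [0, 2]), (0, [1], [3, 4]), (0, [0], [3, 4]), (4, [], [2]), (4, [], [1])]),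
  (2, 7, [(0, [0], [0, 1]), (0, [1], [0, 2]), (0, [1], [3, 4]), (0, [0], [5, 6]), (1, [], [5, 6]), (1, [], [3, 4]), (4, [], [2]), (4, [], [1])]),
  (2, 7, [(0, [0], [0, 1]), (0, [1], [0, 2]), (0, [1], [3, 4]), (0, [0], [3, 4]), (4, [], [2]), (4, [], [1]), (1, [], [5, 6]), (1, [], [5, 6])]),
  (2, 5, [(0, [0], [0, 1]), (0, [1], [0, 2]), (0, [0], [2, 3]), (0, [1], [1, 4]), (4, [], [4]), (4, [], [3])]),
  (2, 5, [(0, [0], [0, 1]), (0, [1], [2, 3]), (2, [0], [2, 3, 4]), (2, [1], [0, 1, 4])]),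
  (2, 6, [(0, [0], [0, 1]), (0, [0], [2, 3]), (0, [1], [4, 5]), (1, [], [4, 5]), (2, [1], [0, 2, 3]), (4, [], [1])]),
  (2, 7, [(0, [0], [0, 1]), (0, [0], [2, 3]), (0, [1], [4, 5]), (0, [1], [4, 6]), (1, [], [0, 5]), (1, [], [2, 3]), (4, [], [1]), (4, [], [6])]),
  (2, 6, [(0, [0], [0, 1]), (0, [0], [2, 3]), (0, [1], [4, 5]), (1, [], [0, 4]), (2, [1], [1, 2, 3]), (4, [], [5])]),
  (2, 6, [(0, [0], [0, 1]), (0, [0], [2, 3]), (0, [1], [0, 4]), (1, [], [4, 5]), (2, [1], [2, 3, 5]), (4, [], [1])]),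
  (2, 7, [(0, [0], [0, 1]), (0, [1], [0, 2]), (0, [0], [3, 4]), (0, [1], [5, 6]), (1, [], [1, 3]), (1, [], [5, 6]), (4, [], [2]), (4, [], [4])]),
  (2, 6, [(0, [0], [0, 1]), (0, [0], [2, 3]), (0, [1], [0, 4]), (1, [], [1, 5]), (2, [1], [2, 3, 5]), (4, [], [4])]),
  (2, 7, [(0, [0], [0, 1]), (0, [0], [2, 3]), (0, [1], [0, 4]), (0, [1], [4, 5]), (1, [], [1, 6]), (1, [], [2, 3]), (4, [], [5]), (4, [], [6])]),
  (2, 7, [(0, [0], [0, 1]), (0, [1], [0, 2]), (0, [1], [2, 3]), (0, [0], [1, 4]), (4, [], [4]), (4, [], [3]), (1, [], [5, 6]), (1, [], [5, 6])]),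
  (2, 5, [(0, [0], [0, 1]), (0, [1], [0, 2]), (2, [0], [2, 3, 4]), (2, [1], [1, 3, 4])]),
  (2, 6, [(0, [0], [0, 1]), (0, [0], [2, 3]), (0, [1], [0, 4]), (1, [], [4, 5]), (2, [1], [1, 2, 3]), (4, [], [5])]),
  (2, 6, [(0, [0], [0, 1]), (0, [0], [2, 3]), (0, [1], [0, 2]), (1, [], [4, 5]), (2, [1], [1, 4, 5]), (4, [], [3])]),
  (2, 7, [(0, [0], [0, 1]), (0, [1], [0, 2]), (0, [1], [1, 3]), (0, [0], [4, 5]), (1, [], [2, 6]), (1, [], [4, 5]), (4, [], [3]), (4, [], [6])]),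
  (2, 7, [(0, [0], [0, 1]), (0, [1], [0, 2]), (0, [0], [2, 3]), (0, [1], [1, 4]), (4, [], [4]), (4, [], [3]), (1, [], [5, 6]), (1, [], [5, 6])]),
  (2, 6, [(0, [0], [0, 1]), (0, [0], [2, 3]), (0, [1], [0, 4]), (0, [1], [4, 5]), (1, [], [2, 3]), (4, [], [1]), (4, [], [5])]),
  (2, 5, [(0, [0], [0, 1]), (0, [0], [2, 3]), (0, [1], [0, 4]), (2, [1], [1, 2, 3]), (4, [], [4])]),
  (2, 6, [(0, [0], [0, 1]), (0, [1], [0, 2]), (0, [1], [1, 3]), (0, [0], [4, 5]), (1, [], [4, 5]), (4, [], [3]), (4, [], [2])]),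
  (2, 6, [(0, [0], [0, 1]), (0, [1], [0, 2]), (0, [1], [1, 3]), (0, [0], [4, 5]), (1, [], [2, 4]), (4, [], [3]), (4, [], [5])]),
  (2, 6, [(0, [0], [0, 1]), (0, [1], [2, 3]), (0, [0], [2, 4]), (0, [1], [0, 5]), (1, [], [1, 3]), (4, [], [5]), (4, [], [4])]),
  (2, 6, [(0, [0], [0, 1]), (0, [0], [2, 3]), (0, [1], [2, 4]), (0, [1], [0, 5]), (1, [], [1, 3]), (4, [], [5]), (4, [], [4])]),
  (2, 6, [(0, [0], [0, 1]), (0, [1], [0, 2]), (0, [0], [2, 3]), (0, [1], [1, 4]), (1, [], [3, 5]), (4, [], [4]), (4, [], [5])]),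
  (2, 6, [(0, [0], [0, 1]), (0, [0], [2, 3]), (0, [1], [0, 4]), (0, [1], [4, 5]), (1, [], [1, 2]), (4, [], [3]), (4, [], [5])]),
  (2, 6, [(0, [0], [0, 1]), (0, [0], [2, 3]), (0, [1], [0, 4]), (0, [1], [2, 4]), (1, [], [1, 5]), (4, [], [3]), (4, [], [5])]),
  (2, 7, [(0, [0], [0, 1]), (0, [0], [0, 2]), (0, [1], [1, 2]), (4, [], [3]), (0, [1], [4, 5]), (1, [], [4, 6]), (1, [], [5, 6]), (4, [], [3])]),
  (2, 7, [(0, [0], [0, 1]), (0, [0], [0, 2]), (0, [1], [1, 2]), (4, [], [3]), (0, [1], [4, 5]), (1, [], [4, 6]), (1, [], [3, 6]), (4, [], [5])]),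
  (2, 7, [(0, [0], [0, 1]), (0, [0], [0, 2]), (0, [1], [1, 2]), (4, [], [3]), (0, [1], [4, 5]), (1, [], [4, 6]), (1, [], [3, 5]), (4, [], [6])]),
  (2, 7, [(0, [0], [0, 1]), (0, [0], [0, 2]), (0, [1], [1, 2]), (4, [], [3]), (0, [1], [4, 5]), (1, [], [4, 5]), (1, [], [3, 6]), (4, [], [6])]),
  (2, 6, [(0, [0], [0, 1]), (0, [0], [0, 2]), (0, [1], [1, 2]), (4, [], [3]), (0, [1], [4, 5]), (1, [], [4, 5]), (4, [], [3])]),
  (2, 6, [(0, [0], [0, 1]), (0, [0], [0, 2]), (0, [1], [1, 2]), (4, [], [3]), (0, [1], [4, 5]), (1, [], [3, 4]), (4, [], [5])]),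
  (2, 7, [(0, [0], [0, 1]), (0, [0], [0, 2]), (0, [1], [1, 2]), (4, [], [3]), (0, [1], [3, 4]), (1, [], [5, 6]), (1, [], [5, 6]), (4, [], [4])]),
  (2, 6, [(0, [0], [0, 1]), (0, [0], [0, 2]), (0, [1], [1, 2]), (4, [], [3]), (1, [], [4, 5]), (2, [1], [3, 4, 5])]),
  (2, 7, [(0, [0], [0, 1]), (0, [0], [0, 2]), (0, [1], [3, 2]), (4, [], [1]), (0, [1], [4, 5]), (1, [], [4, 6]), (1, [], [5, 6]), (4, [], [3])]),
  (2, 7, [(0, [0], [0, 1]), (0, [0], [0, 2]), (0, [1], [3, 2]), (4, [], [1]), (0, [1], [4, 5]), (1, [], [4, 6]), (1, [], [3, 6]), (4, [], [5])]),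
  (2, 7, [(0, [0], [0, 1]), (0, [0], [0, 2]), (0, [1], [3, 2]), (4, [], [1]), (0, [1], [4, 5]), (1, [], [4, 6]), (1, [], [3, 5]), (4, [], [6])]),
  (2, 7, [(0, [0], [0, 1]), (0, [0], [0, 2]), (0, [1], [3, 2]), (4, [], [1]), (0, [1], [3, 4]), (1, [], [5, 6]), (1, [], [4, 5]), (4, [], [6])]),
  (2, 7, [(0, [0], [0, 1]), (0, [0], [2, 3]), (0, [1], [0, 3]), (4, [], [1]), (0, [1], [4, 5]), (1, [], [4, 6]), (1, [], [5, 6]), (4, [], [2])]),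
  (2, 7, [(0, [0], [0, 1]), (0, [0], [2, 3]), (0, [1], [0, 3]), (4, [], [1]), (0, [1], [4, 5]), (1, [], [4, 6]), (1, [], [2, 6]), (4, [], [5])]),
  (2, 7, [(0, [0], [0, 1]), (0, [0], [2, 3]), (0, [1], [0, 3]), (4, [], [1]), (0, [1], [4, 5]), (1, [], [4, 6]), (1, [], [2, 5]), (4, [], [6])]),
  (2, 7, [(0, [0], [0, 1]), (0, [0], [2, 3]), (0, [1], [0, 3]), (4, [], [1]), (0, [1], [2, 4]), (1, [], [5, 6]), (1, [], [4, 5]), (4, [], [6])]),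
  (2, 7, [(0, [0], [0, 1]), (0, [0], [2, 3]), (0, [1], [0, 1]), (4, [], [3]), (0, [1], [4, 5]), (1, [], [4, 6]), (1, [], [5, 6]), (4, [], [2])]),
  (2, 7, [(0, [0], [0, 1]), (0, [0], [2, 3]), (0, [1], [0, 1]), (4, [], [3]), (0, [1], [4, 5]), (1, [], [4, 6]), (1, [], [2, 6]), (4, [], [5])]),
  (2, 7, [(0, [0], [0, 1]), (0, [0], [2, 3]), (0, [1], [0, 1]), (4, [], [3]), (0, [1], [4, 5]), (1, [], [4, 6]), (1, [], [2, 5]), (4, [], [6])]),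
  (2, 7, [(0, [0], [0, 1]), (0, [0], [2, 3]), (0, [1], [0, 1]), (4, [], [3]), (0, [1], [4, 5]), (1, [], [4, 5]), (1, [], [2, 6]), (4, [], [6])]),
  (2, 6, [(0, [0], [0, 1]), (0, [0], [2, 3]), (0, [1], [0, 1]), (4, [], [3]), (0, [1], [4, 5]), (1, [], [4, 5]), (4, [], [2])]),
  (2, 6, [(0, [0], [0, 1]), (0, [0], [2, 3]), (0, [1], [0, 1]), (4, [], [3]), (0, [1], [4, 5]), (1, [], [2, 4]), (4, [], [5])]),
  (2, 7, [(0, [0], [0, 1]), (0, [0], [2, 3]), (0, [1], [0, 1]), (4, [], [3]), (0, [1], [2, 4]), (1, [], [5, 6]), (1, [], [4, 5]), (4, [], [6])]),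
  (2, 6, [(0, [0], [0, 1]), (0, [0], [2, 3]), (0, [1], [0, 1]), (4, [], [3]), (0, [1], [2, 4]), (1, [], [4, 5]), (4, [], [5])]),
  (2, 6, [(0, [0], [0, 1]), (0, [0], [2, 3]), (0, [1], [0, 1]), (4, [], [3]), (1, [], [4, 5]), (2, [1], [2, 4, 5])]),
  (2, 7, [(0, [0], [0, 1]), (0, [0], [2, 0]), (0, [1], [1, 3]), (4, [], [3]), (0, [1], [4, 5]), (1, [], [4, 6]), (1, [], [2, 6]), (4, [], [5])]),
  (2, 7, [(0, [0], [0, 1]), (0, [0], [2, 0]), (0, [1], [1, 3]), (4, [], [3]), (0, [1], [4, 5]), (1, [], [4, 6]), (1, [], [2, 5]), (4, [], [6])]),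
  (2, 7, [(0, [0], [0, 1]), (0, [0], [2, 0]), (0, [1], [1, 3]), (4, [], [3]), (0, [1], [4, 5]), (1, [], [4, 5]), (1, [], [2, 6]), (4, [], [6])]),
  (2, 7, [(0, [0], [0, 1]), (0, [0], [2, 0]), (0, [1], [1, 3]), (4, [], [3]), (0, [1], [2, 4]), (1, [], [5, 6]), (1, [], [5, 6]), (4, [], [4])]),
  (2, 7, [(0, [0], [0, 1]), (0, [0], [2, 0]), (0, [1], [1, 3]), (4, [], [3]), (0, [1], [2, 4]), (1, [], [5, 6]), (1, [], [4, 5]), (4, [], [6])]),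
  (2, 6, [(0, [0], [0, 1]), (0, [0], [2, 0]), (0, [1], [1, 3]), (4, [], [3]), (1, [], [4, 5]), (2, [1], [2, 4, 5])]),
  (2, 7, [(0, [0], [0, 1]), (0, [0], [2, 0]), (0, [1], [3, 1]), (4, [], [4]), (0, [1], [5, 6]), (1, [], [5, 6]), (1, [], [2, 3]), (4, [], [4])]),
  (2, 7, [(0, [0], [0, 1]), (0, [0], [2, 0]), (0, [1], [3, 1]), (4, [], [4]), (0, [1], [5, 6]), (1, [], [2, 5]), (1, [], [3, 6]), (4, [], [4])]),
  (2, 7, [(0, [0], [0, 1]), (0, [0], [2, 0]), (0, [1], [3, 1]), (4, [], [4]), (0, [1], [5, 6]), (1, [], [2, 5]), (1, [], [3, 4]), (4, [], [6])]),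
  (2, 7, [(0, [0], [0, 1]), (0, [0], [2, 0]), (0, [1], [3, 1]), (4, [], [4]), (0, [1], [5, 6]), (1, [], [3, 5]), (1, [], [2, 4]), (4, [], [6])]),
  (2, 7, [(0, [0], [0, 1]), (0, [0], [2, 0]), (0, [1], [3, 1]), (4, [], [4]), (0, [1], [5, 6]), (1, [], [4, 5]), (1, [], [2, 3]), (4, [], [6])]),
  (2, 7, [(0, [0], [0, 1]), (0, [0], [2, 0]), (0, [1], [3, 1]), (4, [], [4]), (0, [1], [2, 5]), (1, [], [5, 6]), (1, [], [3, 6]), (4, [], [4])]),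
  (2, 7, [(0, [0], [0, 1]), (0, [0], [2, 0]), (0, [1], [3, 1]), (4, [], [4]), (0, [1], [3, 5]), (1, [], [5, 6]), (1, [], [2, 6]), (4, [], [4])]),
  (2, 7, [(0, [0], [0, 1]), (0, [0], [2, 0]), (0, [1], [3, 1]), (4, [], [4]), (0, [1], [2, 5]), (1, [], [5, 6]), (1, [], [3, 4]), (4, [], [6])]),
  (2, 7, [(0, [0], [0, 1]), (0, [0], [2, 0]), (0, [1], [3, 1]), (4, [], [4]), (0, [1], [3, 5]), (1, [], [5, 6]), (1, [], [2, 4]), (4, [], [6])]),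
  (2, 7, [(0, [0], [0, 1]), (0, [0], [2, 0]), (0, [1], [3, 1]), (4, [], [4]), (0, [1], [4, 5]), (1, [], [2, 6]), (1, [], [3, 6]), (4, [], [5])]),
  (2, 7, [(0, [0], [0, 1]), (0, [0], [2, 0]), (0, [1], [3, 1]), (4, [], [4]), (0, [1], [2, 5]), (1, [], [4, 6]), (1, [], [3, 5]), (4, [], [6])]),
  (2, 6, [(0, [0], [0, 1]), (0, [0], [2, 0]), (0, [1], [3, 1]), (4, [], [4]), (0, [1], [2, 5]), (1, [], [3, 5]), (4, [], [4])]),
  (2, 7, [(0, [0], [0, 1]), (0, [0], [2, 0]), (0, [1], [3, 1]), (4, [], [4]), (0, [1], [2, 3]), (1, [], [5, 6]), (1, [], [5, 6]), (4, [], [4])]),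
  (2, 7, [(0, [0], [0, 1]), (0, [0], [2, 0]), (0, [1], [3, 1]), (4, [], [4]), (0, [1], [2, 3]), (1, [], [5, 6]), (1, [], [4, 5]), (4, [], [6])]),
  (2, 6, [(0, [0], [0, 1]), (0, [0], [2, 0]), (0, [1], [3, 1]), (4, [], [4]), (1, [], [3, 5]), (2, [1], [2, 4, 5])]),
  (2, 7, [(0, [0], [0, 1]), (0, [0], [2, 0]), (0, [1], [3, 4]), (4, [], [1]), (0, [1], [5, 6]), (1, [], [2, 5]), (1, [], [3, 6]), (4, [], [4])]),
  (2, 7, [(0, [0], [0, 1]), (0, [0], [2, 0]), (0, [1], [3, 4]), (4, [], [1]), (0, [1], [3, 5]), (1, [], [5, 6]), (1, [], [2, 6]), (4, [], [4])]),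
  (2, 7, [(0, [0], [0, 1]), (0, [0], [2, 0]), (0, [1], [3, 4]), (4, [], [1]), (0, [1], [3, 5]), (1, [], [2, 6]), (1, [], [4, 5]), (4, [], [6])]),
  (2, 7, [(0, [0], [0, 1]), (0, [0], [2, 3]), (0, [1], [0, 1]), (4, [], [4]), (0, [1], [5, 6]), (1, [], [2, 5]), (1, [], [3, 6]), (4, [], [4])]),
  (2, 7, [(0, [0], [0, 1]), (0, [0], [2, 3]), (0, [1], [0, 1]), (4, [], [4]), (0, [1], [2, 5]), (1, [], [5, 6]), (1, [], [3, 6]), (4, [], [4])]),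
  (2, 7, [(0, [0], [0, 1]), (0, [0], [2, 3]), (0, [1], [0, 1]), (4, [], [4]), (0, [1], [2, 5]), (1, [], [5, 6]), (1, [], [3, 4]), (4, [], [6])]),
  (2, 7, [(0, [0], [0, 1]), (0, [0], [2, 3]), (0, [1], [0, 1]), (4, [], [4]), (0, [1], [2, 5]), (1, [], [4, 6]), (1, [], [3, 5]), (4, [], [6])]),
  (2, 6, [(0, [0], [0, 1]), (0, [0], [2, 3]), (0, [1], [0, 1]), (4, [], [4]), (0, [1], [2, 5]), (1, [], [3, 5]), (4, [], [4])]),
  (2, 7, [(0, [0], [0, 1]), (0, [0], [2, 3]), (0, [1], [0, 1]), (4, [], [4]), (0, [1], [2, 3]), (1, [], [5, 6]), (1, [], [4, 5]), (4, [], [6])]),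
  (2, 6, [(0, [0], [0, 1]), (0, [0], [2, 3]), (0, [1], [0, 1]), (4, [], [4]), (0, [1], [2, 3]), (1, [], [4, 5]), (4, [], [5])]),
  (2, 5, [(0, [0], [0, 1]), (0, [0], [2, 3]), (0, [1], [0, 1]), (4, [], [4]), (0, [1], [2, 3]), (4, [], [4])]),
  (2, 6, [(0, [0], [0, 1]), (0, [0], [2, 3]), (0, [1], [0, 1]), (4, [], [4]), (1, [], [2, 5]), (2, [1], [3, 4, 5])]),
  (2, 6, [(0, [0], [0, 1]), (0, [0], [2, 3]), (0, [1], [0, 1]), (4, [], [4]), (1, [], [4, 5]), (2, [1], [2, 3, 5])]),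
  (2, 5, [(0, [0], [0, 1]), (0, [0], [2, 3]), (0, [1], [0, 1]), (4, [], [4]), (2, [1], [2, 3, 4])]),
  (2, 7, [(0, [0], [0, 1]), (0, [0], [2, 3]), (0, [1], [4, 0]), (4, [], [1]), (0, [1], [5, 6]), (1, [], [5, 6]), (1, [], [2, 4]), (4, [], [3])]),
  (2, 7, [(0, [0], [0, 1]), (0, [0], [2, 3]), (0, [1], [4, 0]), (4, [], [1]), (0, [1], [5, 6]), (1, [], [2, 5]), (1, [], [3, 6]), (4, [], [4])]),
  (2, 7, [(0, [0], [0, 1]), (0, [0], [2, 3]), (0, [1], [4, 0]), (4, [], [1]), (0, [1], [5, 6]), (1, [], [2, 5]), (1, [], [4, 6]), (4, [], [3])]),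
  (2, 7, [(0, [0], [0, 1]), (0, [0], [2, 3]), (0, [1], [4, 0]), (4, [], [1]), (0, [1], [5, 6]), (1, [], [2, 5]), (1, [], [3, 4]), (4, [], [6])]),
  (2, 7, [(0, [0], [0, 1]), (0, [0], [2, 3]), (0, [1], [4, 0]), (4, [], [1]), (0, [1], [2, 5]), (1, [], [5, 6]), (1, [], [3, 6]), (4, [], [4])]),
  (2, 7, [(0, [0], [0, 1]), (0, [0], [2, 3]), (0, [1], [4, 0]), (4, [], [1]), (0, [1], [2, 5]), (1, [], [5, 6]), (1, [], [4, 6]), (4, [], [3])]),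
  (2, 7, [(0, [0], [0, 1]), (0, [0], [2, 3]), (0, [1], [4, 0]), (4, [], [1]), (0, [1], [2, 5]), (1, [], [5, 6]), (1, [], [3, 4]), (4, [], [6])]),
  (2, 7, [(0, [0], [0, 1]), (0, [0], [2, 3]), (0, [1], [4, 0]), (4, [], [1]), (0, [1], [2, 5]), (1, [], [3, 6]), (1, [], [4, 6]), (4, [], [5])]),
  (2, 7, [(0, [0], [0, 1]), (0, [0], [2, 3]), (0, [1], [4, 0]), (4, [], [1]), (0, [1], [2, 5]), (1, [], [3, 6]), (1, [], [4, 5]), (4, [], [6])]),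
  (2, 7, [(0, [0], [0, 1]), (0, [0], [2, 3]), (0, [1], [4, 0]), (4, [], [1]), (0, [1], [2, 5]), (1, [], [4, 6]), (1, [], [3, 5]), (4, [], [6])]),
  (2, 6, [(0, [0], [0, 1]), (0, [0], [2, 3]), (0, [1], [4, 0]), (4, [], [1]), (0, [1], [2, 5]), (1, [], [3, 5]), (4, [], [4])]),
  (2, 7, [(0, [0], [0, 1]), (0, [0], [2, 3]), (0, [1], [1, 3]), (4, [], [4]), (0, [1], [5, 6]), (1, [], [0, 5]), (1, [], [2, 6]), (4, [], [4])]),
  (2, 7, [(0, [0], [0, 1]), (0, [0], [2, 3]), (0, [1], [1, 3]), (4, [], [4]), (0, [1], [5, 6]), (1, [], [0, 5]), (1, [], [2, 4]), (4, [], [6])]),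
  (2, 7, [(0, [0], [0, 1]), (0, [0], [2, 3]), (0, [1], [1, 3]), (4, [], [4]), (0, [1], [5, 6]), (1, [], [4, 5]), (1, [], [0, 2]), (4, [], [6])]),
  (2, 7, [(0, [0], [0, 1]), (0, [0], [2, 3]), (0, [1], [1, 3]), (4, [], [4]), (0, [1], [0, 5]), (1, [], [5, 6]), (1, [], [2, 6]), (4, [], [4])]),
  (2, 7, [(0, [0], [0, 1]), (0, [0], [2, 3]), (0, [1], [1, 3]), (4, [], [4]), (0, [1], [0, 5]), (1, [], [5, 6]), (1, [], [2, 4]), (4, [], [6])]),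
  (2, 7, [(0, [0], [0, 1]), (0, [0], [2, 3]), (0, [1], [1, 3]), (4, [], [4]), (0, [1], [4, 5]), (1, [], [0, 6]), (1, [], [2, 6]), (4, [], [5])]),
  (2, 7, [(0, [0], [0, 1]), (0, [0], [2, 3]), (0, [1], [1, 3]), (4, [], [4]), (0, [1], [0, 5]), (1, [], [4, 6]), (1, [], [2, 5]), (4, [], [6])]),
  (2, 6, [(0, [0], [0, 1]), (0, [0], [2, 3]), (0, [1], [1, 3]), (4, [], [4]), (0, [1], [0, 5]), (1, [], [2, 5]), (4, [], [4])]),
  (2, 6, [(0, [0], [0, 1]), (0, [0], [2, 3]), (0, [1], [1, 3]), (4, [], [4]), (0, [1], [4, 5]), (1, [], [0, 2]), (4, [], [5])]),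
  (2, 7, [(0, [0], [0, 1]), (0, [0], [2, 3]), (0, [1], [1, 3]), (4, [], [4]), (0, [1], [0, 2]), (1, [], [5, 6]), (1, [], [4, 5]), (4, [], [6])]),
  (2, 6, [(0, [0], [0, 1]), (0, [0], [2, 3]), (0, [1], [1, 3]), (4, [], [4]), (0, [1], [0, 2]), (1, [], [4, 5]), (4, [], [5])]),
  (2, 5, [(0, [0], [0, 1]), (0, [0], [2, 3]), (0, [1], [1, 3]), (4, [], [4]), (0, [1], [0, 2]), (4, [], [4])]),
  (2, 6, [(0, [0], [0, 1]), (0, [0], [2, 3]), (0, [1], [1, 3]), (4, [], [4]), (1, [], [0, 5]), (2, [1], [2, 4, 5])]),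
  (2, 6, [(0, [0], [0, 1]), (0, [0], [2, 3]), (0, [1], [1, 3]), (4, [], [4]), (1, [], [4, 5]), (2, [1], [0, 2, 5])]),
  (2, 5, [(0, [0], [0, 1]), (0, [0], [2, 3]), (0, [1], [1, 3]), (4, [], [4]), (2, [1], [0, 2, 4])]),
  (2, 7, [(0, [0], [0, 1]), (0, [0], [2, 3]), (0, [1], [4, 3]), (4, [], [1]), (0, [1], [5, 6]), (1, [], [5, 6]), (1, [], [2, 4]), (4, [], [0])]),
  (2, 7, [(0, [0], [0, 1]), (0, [0], [2, 3]), (0, [1], [4, 3]), (4, [], [1]), (0, [1], [5, 6]), (1, [], [2, 5]), (1, [], [4, 6]), (4, [], [0])]),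
  (2, 7, [(0, [0], [0, 1]), (0, [0], [2, 3]), (0, [1], [4, 3]), (4, [], [1]), (0, [1], [5, 6]), (1, [], [0, 5]), (1, [], [2, 4]), (4, [], [6])]),
  (2, 7, [(0, [0], [0, 1]), (0, [0], [2, 3]), (0, [1], [4, 3]), (4, [], [1]), (0, [1], [5, 6]), (1, [], [2, 5]), (1, [], [0, 4]), (4, [], [6])]),
  (2, 7, [(0, [0], [0, 1]), (0, [0], [2, 3]), (0, [1], [4, 3]), (4, [], [1]), (0, [1], [5, 6]), (1, [], [4, 5]), (1, [], [0, 2]), (4, [], [6])]),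
  (2, 6, [(0, [0], [0, 1]), (0, [0], [2, 3]), (0, [1], [4, 3]), (4, [], [1]), (1, [], [4, 5]), (2, [1], [0, 2, 5])]),
  (2, 7, [(0, [0], [0, 1]), (0, [0], [2, 1]), (0, [1], [3, 4]), (4, [], [4]), (0, [1], [5, 6]), (1, [], [5, 6]), (1, [], [0, 2]), (4, [], [3])]),
  (2, 7, [(0, [0], [0, 1]), (0, [0], [2, 1]), (0, [1], [3, 4]), (4, [], [4]), (0, [1], [5, 6]), (1, [], [3, 5]), (1, [], [0, 2]), (4, [], [6])]),
  (2, 6, [(0, [0], [0, 1]), (0, [0], [2, 1]), (0, [1], [3, 4]), (4, [], [4]), (1, [], [3, 5]), (2, [1], [0, 2, 5])]),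
  (2, 6, [(0, [0], [0, 1]), (0, [0], [2, 3]), (0, [1], [1, 4]), (4, [], [4]), (1, [], [2, 5]), (2, [1], [0, 3, 5])]),
  (2, 7, [(0, [0], [0, 1]), (0, [0], [2, 1]), (0, [1], [3, 4]), (4, [], [5]), (0, [1], [3, 6]), (1, [], [4, 6]), (1, [], [0, 2]), (4, [], [5])]),
  (2, 6, [(0, [0], [0, 1]), (0, [0], [2, 1]), (0, [1], [3, 4]), (4, [], [5]), (1, [], [3, 4]), (2, [1], [0, 2, 5])]),
  (2, 7, [(0, [0], [0, 1]), (0, [0], [2, 3]), (0, [1], [4, 1]), (4, [], [5]), (0, [1], [2, 6]), (1, [], [0, 6]), (1, [], [3, 4]), (4, [], [5])]),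
  (2, 7, [(0, [0], [0, 1]), (0, [0], [2, 3]), (0, [1], [4, 1]), (4, [], [5]), (0, [1], [2, 6]), (1, [], [3, 6]), (1, [], [0, 4]), (4, [], [5])]),
  (2, 6, [(0, [0], [0, 1]), (0, [0], [2, 3]), (0, [1], [4, 1]), (4, [], [5]), (1, [], [0, 4]), (2, [1], [2, 3, 5])]),
  (2, 6, [(0, [0], [0, 1]), (0, [0], [2, 3]), (0, [1], [4, 1]), (4, [], [5]), (1, [], [2, 4]), (2, [1], [0, 3, 5])]),
  (2, 5, [(0, [0], [0, 1]), (2, [0], [2, 3, 4]), (0, [1], [0, 1]), (2, [1], [2, 3, 4])])]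

def kl42 : List ℕ := [6, 10, 26, 34, 39, 40, 42, 43, 44, 45, 46, 50, 51, 52, 53, 54, 55, 56, 75, 81, 83, 84, 86, 87, 88, 89, 90, 99, 100, 101, 102, 103, 104, 106, 108, 113, 114, 115, 117, 127, 128, 129, 131, 134, 135, 136, 137, 138, 139, 141, 142, 143, 145, 146, 147, 149, 150, 151, 226, 227, 228, 229, 230, 231, 232, 233, 234, 235, 236, 238, 244, 245, 249, 255, 257, 260, 271, 272, 273, 274, 275, 278, 279, 280, 281, 282, 283, 289, 290, 291, 292, 293, 294, 295, 296, 297, 298, 299, 305, 306, 307, 308, 309, 310, 311, 312, 313, 317, 318, 319, 320, 321, 322, 323, 324, 325, 326, 327, 330, 332, 335, 337, 339, 423, 427, 431, 432, 435, 437, 448]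

def m42_0 : Base := (1, 1, [(0, [0], [0, 5]), (0, [0], [1, 5]), (1, [], [2, 3]), (4, [], [4])])

def l42_0 : Cov := [(144, 1, 1, [(0, [0], [0, 5]), (0, [0], [1, 5]), (1, [], [2, 3]), (4, [], [4])]),
  (48, 1, 1, [(0, [0], [0, 5]), (0, [0], [1, 5]), (1, [], [2, 4]), (4, [], [3])]),
  (48, 1, 1, [(0, [0], [0, 5]), (0, [0], [1, 5]), (1, [], [3, 4]), (4, [], [2])]),
  (144, 1, 1, [(0, [0], [0, 5]), (0, [0], [2, 5]), (1, [], [1, 3]), (4, [], [4])]),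
  (48, 1, 1, [(0, [0], [0, 5]), (0, [0], [2, 5]), (1, [], [1, 4]), (4, [], [3])]),
  (48, 1, 1, [(0, [0], [0, 5]), (0, [0], [2, 5]), (1, [], [3, 4]), (4, [], [1])]),
  (144, 1, 1, [(0, [0], [0, 5]), (0, [0], [3, 5]), (1, [], [1, 2]), (4, [], [4])]),
  (48, 1, 1, [(0, [0], [0, 5]), (0, [0], [3, 5]), (1, [], [1, 4]), (4, [], [2])]),
  (48, 1, 1, [(0, [0], [0, 5]), (0, [0], [3, 5]), (1, [], [2, 4]), (4, [], [1])]),
  (96, 1, 1, [(0, [0], [1, 5]), (0, [0], [2, 5]), (1, [], [0, 3]), (4, [], [4])]),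
  (-96, 1, 1, [(0, [0], [1, 5]), (0, [0], [2, 5]), (1, [], [3, 4]), (4, [], [0])]),
  (96, 1, 1, [(0, [0], [1, 5]), (0, [0], [3, 5]), (1, [], [0, 2]), (4, [], [4])]),
  (-96, 1, 1, [(0, [0], [1, 5]), (0, [0], [3, 5]), (1, [], [2, 4]), (4, [], [0])]),
  (-144, 1, 1, [(0, [0], [1, 5]), (0, [0], [4, 5]), (1, [], [2, 3]), (4, [], [0])]),
  (96, 1, 1, [(0, [0], [2, 5]), (0, [0], [3, 5]), (1, [], [0, 1]), (4, [], [4])]),
  (-96, 1, 1, [(0, [0], [2, 5]), (0, [0], [3, 5]), (1, [], [1, 4]), (4, [], [0])]),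
  (-144, 1, 1, [(0, [0], [2, 5]), (0, [0], [4, 5]), (1, [], [1, 3]), (4, [], [0])]),
  (-144, 1, 1, [(0, [0], [3, 5]), (0, [0], [4, 5]), (1, [], [1, 2]), (4, [], [0])]),
  (-48, 1, 1, [(0, [0], [4, 5]), (0, [0], [1, 5]), (1, [], [0, 2]), (4, [], [3])]),
  (-48, 1, 1, [(0, [0], [4, 5]), (0, [0], [1, 5]), (1, [], [0, 3]), (4, [], [2])]),
  (-48, 1, 1, [(0, [0], [4, 5]), (0, [0], [2, 5]), (1, [], [0, 1]), (4, [], [3])]),
  (-48, 1, 1, [(0, [0], [4, 5]), (0, [0], [2, 5]), (1, [], [0, 3]), (4, [], [1])]),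
  (-48, 1, 1, [(0, [0], [4, 5]), (0, [0], [3, 5]), (1, [], [0, 1]), (4, [], [2])]),
  (-48, 1, 1, [(0, [0], [4, 5]), (0, [0], [3, 5]), (1, [], [0, 2]), (4, [], [1])])]

def z42_0 : Cov := [(0, 1, 1, [(0, [0], [0, 5]), (0, [0], [4, 5]), (1, [], [1, 2]), (4, [], [3])]),
  (0, 1, 1, [(0, [0], [0, 5]), (0, [0], [4, 5]), (1, [], [1, 3]), (4, [], [2])]),
  (0, 1, 1, [(0, [0], [0, 5]), (0, [0], [4, 5]), (1, [], [2, 3]), (4, [], [1])])]

def w42_0 : List (List Wit) := [[(0, 0, 0, 0, 0), (1, 0, 0, 0, 0), (0, 0, 0, 0, 0), (2, 0, 0, 0, 0), (1, 0, 0, 0, 0), (2, 0, 0, 0, 0), (3, 0, 0, 0, 0), (4, 0, 0, 0, 0), (3, 0, 0, 0, 0), (5, 0, 0, 0, 0), (4, 0, 0, 0, 0), (5, 0, 0, 0, 0), (6, 0, 0, 0, 0), (7, 0, 0, 0, 0), (6, 0, 0, 0, 0), (8, 0, 0, 0, 0), (7, 0, 0, 0, 0), (8, 0, 0, 0, 0), (24, 0, 0, 0, 0), (25, 0, 0, 0, 0), (24, 0, 0, 0, 0), (26, 0, 0, 0, 0), (25, 0, 0, 0, 0), (26, 0,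 0, 0, 0), (0, 0, 0, 0, 0), (0, 0, 0, 0, 0), (9, 0, 0, 0, 0), (9, 0, 0, 0, 0), (10, 0, 0, 0, 0), (10, 0, 0, 0, 0), (11, 0, 0, 0, 0), (11, 0, 0, 0, 0), (12, 0, 0, 0, 0), (12, 0, 0, 0, 0), (13, 0, 0, 0, 0), (13, 0, 0, 0, 0), (3, 0, 0, 0, 0), (3, 0, 0, 0, 0), (9, 0, 0, 0, 0), (9, 0, 0, 0, 0), (10, 0, 0, 0, 0), (10, 0, 0, 0, 0), (14, 0, 0, 0, 0), (14, 0, 0, 0, 0), (15, 0, 0, 0, 0), (15, 0, 0, 0, 0), (16, 0, 0, 0, 0), (16, 0, 0, 0, 0), (6, 0, 0, 0, 0), (6, 0, 0, 0, 0), (11, 0, 0, 0, 0), (11, 0, 0, 0, 0), (12, 0, 0, 0, 0), (12, 0, 0, 0, 0), (14, 0, 0, 0, 0), (14, 0, 0, 0, 0), (15, 0, 0, 0, 0), (15, 0, 0, 0, 0), (17, 0, 0, 0, 0), (17, 0, 0, 0, 0), (24, 0, 0, 0, 0), (25, 0, 0, 0, 0), (24, 0, 0, 0, 0), (26, 0, 0, 0, 0), (25, 0, 0, 0, 0), (26, 0, 0, 0, 0), (18, 0, 0, 0, 0), (19, 0, 0, 0, 0), (18, 0, 0, 0, 0), (13, 0, 0, 0, 0), (19, 0, 0, 0, 0), (13, 0, 0, 0, 0), (20,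 0, 0, 0, 0), (21, 0, 0, 0, 0), (20, 0, 0, 0, 0), (16, 0, 0, 0, 0), (21, 0, 0, 0, 0), (16, 0, 0, 0, 0), (22, 0, 0, 0, 0), (23, 0, 0, 0, 0), (22, 0, 0, 0, 0), (17, 0, 0, 0, 0), (23, 0, 0, 0, 0), (17, 0, 0, 0, 0)]]

def m42_1 : Base := (1, 1, [(0, [0], [0, 5]), (0, [0], [1, 5]), (1, [], [2, 4]), (4, [], [3])])

def l42_1 : Cov := [(96, 1, 1, [(0, [0], [0, 5]), (0, [0], [1, 5]), (1, [], [2, 4]), (4, [], [3])]),
  (48, 1, 1, [(0, [0], [0, 5]), (0, [0], [1, 5]), (1, [], [2, 3]), (4, [], [4])]),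
  (96, 1, 1, [(0, [0], [0, 5]), (0, [0], [1, 5]), (1, [], [3, 4]), (4, [], [2])]),
  (96, 1, 1, [(0, [0], [0, 5]), (0, [0], [2, 5]), (1, [], [1, 4]), (4, [], [3])]),
  (48, 1, 1, [(0, [0], [0, 5]), (0, [0], [2, 5]), (1, [], [1, 3]), (4, [], [4])]),
  (96, 1, 1, [(0, [0], [0, 5]), (0, [0], [2, 5]), (1, [], [3, 4]), (4, [], [1])]),
  (96, 1, 1, [(0, [0], [0, 5]), (0, [0], [3, 5]), (1, [], [1, 4]), (4, [], [2])]),
  (48, 1, 1, [(0, [0], [0, 5]), (0, [0], [3, 5]), (1, [], [1, 2]), (4, [], [4])]),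
  (96, 1, 1, [(0, [0], [0, 5]), (0, [0], [3, 5]), (1, [], [2, 4]), (4, [], [1])]),
  (48, 1, 1, [(0, [0], [1, 5]), (0, [0], [2, 5]), (1, [], [3, 4]), (4, [], [0])]),
  (-48, 1, 1, [(0, [0], [1, 5]), (0, [0], [2, 5]), (1, [], [3, 0]), (4, [], [4])]),
  (48, 1, 1, [(0, [0], [1, 5]), (0, [0], [3, 5]), (1, [], [2, 4]), (4, [], [0])]),
  (-48, 1, 1, [(0, [0], [1, 5]), (0, [0], [3, 5]), (1, [], [2, 0]), (4, [], [4])]),
  (-96, 1, 1, [(0, [0], [1, 5]), (0, [0], [4, 5]), (1, [], [2, 0]), (4, [], [3])]),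
  (-96, 1, 1, [(0, [0], [1, 5]), (0, [0], [4, 5]), (1, [], [3, 0]), (4, [], [2])]),
  (48, 1, 1, [(0, [0], [2, 5]), (0, [0], [3, 5]), (1, [], [1, 4]), (4, [], [0])]),
  (-48, 1, 1, [(0, [0], [2, 5]), (0, [0], [3, 5]), (1, [], [1, 0]), (4, [], [4])]),
  (-96, 1, 1, [(0, [0], [2, 5]), (0, [0], [4, 5]), (1, [], [1, 0]), (4, [], [3])]),
  (-96, 1, 1, [(0, [0], [2, 5]), (0, [0], [4, 5]), (1, [], [3, 0]), (4, [], [1])]),
  (-96, 1, 1, [(0, [0], [3, 5]), (0, [0], [4, 5]), (1, [], [1, 0]), (4, [], [2])]),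
  (-96, 1, 1, [(0, [0], [3, 5]), (0, [0], [4, 5]), (1, [], [2, 0]), (4, [], [1])]),
  (-48, 1, 1, [(0, [0], [4, 5]), (0, [0], [1, 5]), (1, [], [2, 3]), (4, [], [0])]),
  (-48, 1, 1, [(0, [0], [4, 5]), (0, [0], [2, 5]), (1, [], [1, 3]), (4, [], [0])]),
  (-48, 1, 1, [(0, [0], [4, 5]), (0, [0], [3, 5]), (1, [], [1, 2]), (4, [], [0])])]

def z42_1 : Cov := [(0, 1, 1, [(0, [0], [0, 5]), (0, [0], [4, 5]), (1, [], [1, 3]), (4, [], [2])]),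
  (0, 1, 1, [(0, [0], [0, 5]), (0, [0], [4, 5]), (1, [], [1, 2]), (4, [], [3])]),
  (0, 1, 1, [(0, [0], [0, 5]), (0, [0], [4, 5]), (1, [], [2, 3]), (4, [], [1])]),
  (0, 1, 1, [(0, [0], [1, 5]), (0, [0], [2, 5]), (1, [], [0, 4]), (4, [], [3])]),
  (0, 1, 1, [(0, [0], [1, 5]), (0, [0], [3, 5]), (1, [], [0, 4]), (4, [], [2])]),
  (0, 1, 1, [(0, [0], [2, 5]), (0, [0], [3, 5]), (1, [], [0, 4]), (4, [], [1])])]

def w42_1 : List (List Wit) := [[(0, 0, 0, 0, 0), (1, 0, 0, 0, 0), (2, 0, 0, 0, 0), (1, 0, 0, 0, 0), (2, 0, 0, 0, 0), (0, 0, 0, 0, 0), (3, 0, 0, 0, 0), (4, 0, 0, 0, 0), (5, 0, 0, 0, 0), (4, 0, 0, 0, 0), (5, 0, 0, 0, 0), (3, 0, 0, 0, 0), (6, 0, 0, 0, 0), (7, 0, 0, 0, 0), (8, 0, 0, 0, 0), (7, 0, 0, 0, 0), (8, 0, 0, 0, 0), (6, 0, 0, 0, 0), (24, 0, 0, 0, 0), (25, 0, 0, 0, 0), (26, 0, 0, 0, 0), (25, 0, 0, 0, 0), (26, 0, 0, 0, 0), (24, 0, 0, 0, 0), (0, 0, 0, 0,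 0), (2, 0, 0, 0, 0), (27, 0, 0, 0, 0), (9, 0, 0, 0, 0), (10, 0, 0, 0, 0), (27, 0, 0, 0, 0), (28, 0, 0, 0, 0), (11, 0, 0, 0, 0), (12, 0, 0, 0, 0), (28, 0, 0, 0, 0), (13, 0, 0, 0, 0), (14, 0, 0, 0, 0), (3, 0, 0, 0, 0), (5, 0, 0, 0, 0), (27, 0, 0, 0, 0), (9, 0, 0, 0, 0), (10, 0, 0, 0, 0), (27, 0, 0, 0, 0), (29, 0, 0, 0, 0), (15, 0, 0, 0, 0), (16, 0, 0, 0, 0), (29, 0, 0, 0, 0), (17, 0, 0, 0, 0), (18, 0, 0, 0, 0), (6, 0, 0, 0, 0), (8, 0, 0, 0, 0), (28, 0, 0, 0, 0), (11, 0, 0, 0, 0), (12, 0, 0, 0, 0), (28, 0, 0, 0, 0), (29, 0, 0, 0, 0), (15, 0, 0, 0, 0), (16, 0, 0, 0, 0), (29, 0, 0, 0, 0), (19, 0, 0, 0, 0), (20, 0, 0, 0, 0), (24, 0, 0, 0, 0), (25, 0, 0, 0, 0), (26, 0, 0, 0, 0), (25, 0, 0, 0, 0), (26, 0, 0, 0, 0), (24, 0, 0, 0, 0), (14, 0, 0, 0, 0), (13, 0, 0, 0, 0), (21, 0, 0, 0, 0), (13, 0, 0, 0, 0), (21, 0, 0, 0, 0), (14, 0, 0, 0, 0), (18, 0, 0, 0, 0), (17, 0,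 0, 0, 0), (22, 0, 0, 0, 0), (17, 0, 0, 0, 0), (22, 0, 0, 0, 0), (18, 0, 0, 0, 0), (20, 0, 0, 0, 0), (19, 0, 0, 0, 0), (23, 0, 0, 0, 0), (19, 0, 0, 0, 0), (23, 0, 0, 0, 0), (20, 0, 0, 0, 0)]]

def m42_2 : Base := (1, 1, [(0, [0], [0, 5]), (0, [0], [1, 2]), (1, [], [3, 5]), (4, [], [4])])

def l42_2 : Cov := [(96, 1, 1, [(0, [0], [0, 5]), (0, [0], [1, 2]), (1, [], [3, 5]), (4, [], [4])]),
  (48, 1, 1, [(0, [0], [0, 5]), (0, [0], [1, 2]), (1, [], [4, 5]), (4, [], [3])]),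
  (96, 1, 1, [(0, [0], [0, 5]), (0, [0], [1, 3]), (1, [], [2, 5]), (4, [], [4])]),
  (48, 1, 1, [(0, [0], [0, 5]), (0, [0], [1, 3]), (1, [], [4, 5]), (4, [], [2])]),
  (48, 1, 1, [(0, [0], [0, 5]), (0, [0], [1, 4]), (1, [], [2, 5]), (4, [], [3])]),
  (48, 1, 1, [(0, [0], [0, 5]), (0, [0], [1, 4]), (1, [], [3, 5]), (4, [], [2])]),
  (96, 1, 1, [(0, [0], [0, 5]), (0, [0], [2, 3]), (1, [], [1, 5]), (4, [], [4])]),
  (48, 1, 1, [(0, [0], [0, 5]), (0, [0], [2, 3]), (1, [], [4, 5]), (4, [], [1])]),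
  (48, 1, 1, [(0, [0], [0, 5]), (0, [0], [2, 4]), (1, [], [1, 5]), (4, [], [3])]),
  (48, 1, 1, [(0, [0], [0, 5]), (0, [0], [2, 4]), (1, [], [3, 5]), (4, [], [1])]),
  (48, 1, 1, [(0, [0], [0, 5]), (0, [0], [3, 4]), (1, [], [1, 5]), (4, [], [2])]),
  (48, 1, 1, [(0, [0], [0, 5]), (0, [0], [3, 4]), (1, [], [2, 5]), (4, [], [1])]),
  (48, 1, 1, [(0, [0], [1, 5]), (0, [0], [0, 2]), (1, [], [3, 5]), (4, [], [4])]),
  (48, 1, 1, [(0, [0], [1, 5]), (0, [0], [0, 3]), (1, [], [2, 5]), (4, [], [4])]),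
  (48, 1, 1, [(0, [0], [1, 5]), (0, [0], [2, 3]), (1, [], [0, 5]), (4, [], [4])]),
  (-48, 1, 1, [(0, [0], [1, 5]), (0, [0], [2, 3]), (1, [], [4, 5]), (4, [], [0])]),
  (-48, 1, 1, [(0, [0], [1, 5]), (0, [0], [2, 4]), (1, [], [3, 5]), (4, [], [0])]),
  (-48, 1, 1, [(0, [0], [1, 5]), (0, [0], [3, 4]), (1, [], [2, 5]), (4, [], [0])]),
  (48, 1, 1, [(0, [0], [2, 5]), (0, [0], [0, 1]), (1, [], [3, 5]), (4, [], [4])]),
  (48, 1, 1, [(0, [0], [2, 5]), (0, [0], [0, 3]), (1, [], [1, 5]), (4, [], [4])]),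
  (48, 1, 1, [(0, [0], [2, 5]), (0, [0], [1, 3]), (1, [], [0, 5]), (4, [], [4])]),
  (-48, 1, 1, [(0, [0], [2, 5]), (0, [0], [1, 3]), (1, [], [4, 5]), (4, [], [0])]),
  (-48, 1, 1, [(0, [0], [2, 5]), (0, [0], [1, 4]), (1, [], [3, 5]), (4, [], [0])]),
  (-48, 1, 1, [(0, [0], [2, 5]), (0, [0], [3, 4]), (1, [], [1, 5]), (4, [], [0])]),
  (48, 1, 1, [(0, [0], [3, 5]), (0, [0], [0, 1]), (1, [], [2, 5]), (4, [], [4])]),
  (48, 1, 1, [(0, [0], [3, 5]), (0, [0], [0, 2]), (1, [], [1, 5]), (4, [], [4])]),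
  (48, 1, 1, [(0, [0], [3, 5]), (0, [0], [1, 2]), (1, [], [0, 5]), (4, [], [4])]),
  (-48, 1, 1, [(0, [0], [3, 5]), (0, [0], [1, 2]), (1, [], [4, 5]), (4, [], [0])]),
  (-48, 1, 1, [(0, [0], [3, 5]), (0, [0], [1, 4]), (1, [], [2, 5]), (4, [], [0])]),
  (-48, 1, 1, [(0, [0], [3, 5]), (0, [0], [2, 4]), (1, [], [1, 5]), (4, [], [0])]),
  (-48, 1, 1, [(0, [0], [4, 5]), (0, [0], [0, 1]), (1, [], [2, 5]), (4, [], [3])]),
  (-48, 1, 1, [(0, [0], [4, 5]), (0, [0], [0, 1]), (1, [], [3, 5]), (4, [], [2])]),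
  (-48, 1, 1, [(0, [0], [4, 5]), (0, [0], [0, 2]), (1, [], [1, 5]), (4, [], [3])]),
  (-48, 1, 1, [(0, [0], [4, 5]), (0, [0], [0, 2]), (1, [], [3, 5]), (4, [], [1])]),
  (-48, 1, 1, [(0, [0], [4, 5]), (0, [0], [0, 3]), (1, [], [1, 5]), (4, [], [2])]),
  (-48, 1, 1, [(0, [0], [4, 5]), (0, [0], [0, 3]), (1, [], [2, 5]), (4, [], [1])]),
  (-48, 1, 1, [(0, [0], [4, 5]), (0, [0], [1, 2]), (1, [], [0, 5]), (4, [], [3])]),
  (-96, 1, 1, [(0, [0], [4, 5]), (0, [0], [1, 2]), (1, [], [3, 5]), (4, [], [0])]),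
  (-48, 1, 1, [(0, [0], [4, 5]), (0, [0], [1, 3]), (1, [], [0, 5]), (4, [], [2])]),
  (-96, 1, 1, [(0, [0], [4, 5]), (0, [0], [1, 3]), (1, [], [2, 5]), (4, [], [0])]),
  (-48, 1, 1, [(0, [0], [4, 5]), (0, [0], [2, 3]), (1, [], [0, 5]), (4, [], [1])]),
  (-96, 1, 1, [(0, [0], [4, 5]), (0, [0], [2, 3]), (1, [], [1, 5]), (4, [], [0])])]

def z42_2 : Cov := []

def w42_2 : List (List Wit) := [[(0, 0, 0, 0, 0), (1, 0, 0, 0, 0), (2, 0, 0, 0, 0), (3, 0, 0, 0, 0), (4, 0, 0, 0, 0), (5, 0, 0, 0, 0), (0, 0, 0, 0, 0), (1, 0, 0, 0, 0), (6, 0, 0, 0, 0), (7, 0, 0, 0, 0), (8, 0, 0, 0, 0), (9, 0, 0, 0, 0), (2, 0, 0, 0, 0), (3, 0, 0, 0, 0), (6, 0, 0, 0, 0), (7, 0, 0, 0, 0), (10, 0, 0, 0, 0), (11, 0, 0, 0, 0), (4, 0, 0, 0, 0), (5, 0, 0, 0, 0), (8, 0, 0, 0, 0), (9, 0, 0, 0, 0), (10, 0, 0, 0, 0), (11, 0, 0, 0, 0), (12, 0, 0, 0, 0), (13, 0, 0, 0, 0), (12, 0, 0, 0, 0), (14, 0, 0,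 0, 0), (15, 0, 0, 0, 0), (16, 0, 0, 0, 0), (13, 0, 0, 0, 0), (14, 0, 0, 0, 0), (15, 0, 0, 0, 0), (17, 0, 0, 0, 0), (16, 0, 0, 0, 0), (17, 0, 0, 0, 0), (18, 0, 0, 0, 0), (19, 0, 0, 0, 0), (18, 0, 0, 0, 0), (20, 0, 0, 0, 0), (21, 0, 0, 0, 0), (22, 0, 0, 0, 0), (19, 0, 0, 0, 0), (20, 0, 0, 0, 0), (21, 0, 0, 0, 0), (23, 0, 0, 0, 0), (22, 0, 0, 0, 0), (23, 0, 0, 0, 0), (24, 0, 0, 0, 0), (25, 0, 0, 0, 0), (24, 0, 0, 0, 0), (26, 0, 0, 0, 0), (27, 0, 0, 0, 0), (28, 0, 0, 0, 0), (25, 0, 0, 0, 0), (26, 0, 0, 0, 0), (27, 0, 0, 0, 0), (29, 0, 0, 0, 0), (28, 0, 0, 0, 0), (29, 0, 0, 0, 0), (30, 0, 0, 0, 0), (31, 0, 0, 0, 0), (32, 0, 0, 0, 0), (33, 0, 0, 0, 0), (34, 0, 0, 0, 0), (35, 0, 0, 0, 0), (30, 0, 0, 0, 0), (31, 0, 0, 0, 0), (36, 0, 0, 0, 0), (37, 0, 0, 0, 0), (38, 0, 0, 0, 0), (39, 0, 0, 0, 0), (32, 0, 0, 0, 0), (33, 0, 0, 0, 0), (36, 0, 0, 0, 0), (37, 0, 0, 0, 0),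 (40, 0, 0, 0, 0), (41, 0, 0, 0, 0), (34, 0, 0, 0, 0), (35, 0, 0, 0, 0), (38, 0, 0, 0, 0), (39, 0, 0, 0, 0), (40, 0, 0, 0, 0), (41, 0, 0, 0, 0)]]

def m42_3 : Base := (1, 1, [(0, [0], [0, 5]), (0, [0], [1, 2]), (1, [], [3, 4]), (4, [], [5])])

def l42_3 : Cov := [(144, 1, 1, [(0, [0], [0, 5]), (0, [0], [1, 2]), (1, [], [3, 4]), (4, [], [5])]),
  (144, 1, 1, [(0, [0], [0, 5]), (0, [0], [1, 3]), (1, [], [2, 4]), (4, [], [5])]),
  (96, 1, 1, [(0, [0], [0, 5]), (0, [0], [1, 4]), (1, [], [2, 3]), (4, [], [5])]),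
  (144, 1, 1, [(0, [0], [0, 5]), (0, [0], [2, 3]), (1, [], [1, 4]), (4, [], [5])]),
  (96, 1, 1, [(0, [0], [0, 5]), (0, [0], [2, 4]), (1, [], [1, 3]), (4, [], [5])]),
  (96, 1, 1, [(0, [0], [0, 5]), (0, [0], [3, 4]), (1, [], [1, 2]), (4, [], [5])]),
  (48, 1, 1, [(0, [0], [1, 5]), (0, [0], [0, 2]), (1, [], [3, 4]), (4, [], [5])]),
  (48, 1, 1, [(0, [0], [1, 5]), (0, [0], [0, 3]), (1, [], [2, 4]), (4, [], [5])]),
  (-48, 1, 1, [(0, [0], [1, 5]), (0, [0], [2, 4]), (1, [], [3, 0]), (4, [], [5])]),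
  (-48, 1, 1, [(0, [0], [1, 5]), (0, [0], [3, 4]), (1, [], [2, 0]), (4, [], [5])]),
  (48, 1, 1, [(0, [0], [2, 5]), (0, [0], [0, 1]), (1, [], [3, 4]), (4, [], [5])]),
  (48, 1, 1, [(0, [0], [2, 5]), (0, [0], [0, 3]), (1, [], [1, 4]), (4, [], [5])]),
  (-48, 1, 1, [(0, [0], [2, 5]), (0, [0], [1, 4]), (1, [], [3, 0]), (4, [], [5])]),
  (-48, 1, 1, [(0, [0], [2, 5]), (0, [0], [3, 4]), (1, [], [1, 0]), (4, [], [5])]),
  (48, 1, 1, [(0, [0], [3, 5]), (0, [0], [0, 1]), (1, [], [2, 4]), (4, [], [5])]),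
  (48, 1, 1, [(0, [0], [3, 5]), (0, [0], [0, 2]), (1, [], [1, 4]), (4, [], [5])]),
  (-48, 1, 1, [(0, [0], [3, 5]), (0, [0], [1, 4]), (1, [], [2, 0]), (4, [], [5])]),
  (-48, 1, 1, [(0, [0], [3, 5]), (0, [0], [2, 4]), (1, [], [1, 0]), (4, [], [5])]),
  (-96, 1, 1, [(0, [0], [4, 5]), (0, [0], [0, 1]), (1, [], [2, 3]), (4, [], [5])]),
  (-96, 1, 1, [(0, [0], [4, 5]), (0, [0], [0, 2]), (1, [], [1, 3]), (4, [], [5])]),
  (-96, 1, 1, [(0, [0], [4, 5]), (0, [0], [0, 3]), (1, [], [1, 2]), (4, [], [5])]),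
  (-144, 1, 1, [(0, [0], [4, 5]), (0, [0], [1, 2]), (1, [], [0, 3]), (4, [], [5])]),
  (-144, 1, 1, [(0, [0], [4, 5]), (0, [0], [1, 3]), (1, [], [0, 2]), (4, [], [5])]),
  (-144, 1, 1, [(0, [0], [4, 5]), (0, [0], [2, 3]), (1, [], [0, 1]), (4, [], [5])])]

def z42_3 : Cov := [(0, 1, 1, [(0, [0], [1, 5]), (0, [0], [2, 3]), (1, [], [0, 4]), (4, [], [5])]),
  (0, 1, 1, [(0, [0], [2, 5]), (0, [0], [1, 3]), (1, [], [0, 4]), (4, [], [5])]),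
  (0, 1, 1, [(0, [0], [3, 5]), (0, [0], [1, 2]), (1, [], [0, 4]), (4, [], [5])])]

def w42_3 : List (List Wit) := [[(0, 0, 0, 0, 0), (0, 0, 0, 0, 0), (1, 0, 0, 0, 0), (1, 0, 0, 0, 0), (2, 0, 0, 0, 0), (2, 0, 0, 0, 0), (0, 0, 0, 0, 0), (0, 0, 0, 0, 0), (3, 0, 0, 0, 0), (3, 0, 0, 0, 0), (4, 0, 0, 0, 0), (4, 0, 0, 0, 0), (1, 0, 0, 0, 0), (1, 0, 0, 0, 0), (3, 0, 0, 0, 0), (3, 0, 0, 0, 0), (5, 0, 0, 0, 0), (5, 0, 0, 0, 0), (2, 0, 0, 0, 0), (2, 0, 0, 0, 0), (4, 0, 0, 0, 0), (4, 0, 0, 0, 0), (5, 0, 0, 0, 0), (5, 0, 0, 0, 0), (6, 0, 0, 0, 0), (7, 0, 0, 0, 0), (6, 0, 0, 0, 0), (24, 0, 0, 0, 0), (24, 0, 0, 0, 0), (8, 0, 0, 0, 0), (7, 0, 0, 0, 0), (24, 0, 0, 0, 0), (24, 0, 0, 0, 0), (9, 0, 0, 0, 0), (8, 0, 0, 0, 0), (9, 0, 0, 0, 0), (10, 0, 0, 0, 0), (11, 0, 0, 0, 0), (10, 0, 0, 0, 0), (25, 0, 0, 0, 0), (25, 0, 0, 0, 0), (12, 0, 0, 0, 0), (11, 0, 0, 0, 0), (25, 0, 0,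 0, 0), (25, 0, 0, 0, 0), (13, 0, 0, 0, 0), (12, 0, 0, 0, 0), (13, 0, 0, 0, 0), (14, 0, 0, 0, 0), (15, 0, 0, 0, 0), (14, 0, 0, 0, 0), (26, 0, 0, 0, 0), (26, 0, 0, 0, 0), (16, 0, 0, 0, 0), (15, 0, 0, 0, 0), (26, 0, 0, 0, 0), (26, 0, 0, 0, 0), (17, 0, 0, 0, 0), (16, 0, 0, 0, 0), (17, 0, 0, 0, 0), (18, 0, 0, 0, 0), (18, 0, 0, 0, 0), (19, 0, 0, 0, 0), (19, 0, 0, 0, 0), (20, 0, 0, 0, 0), (20, 0, 0, 0, 0), (18, 0, 0, 0, 0), (18, 0, 0, 0, 0), (21, 0, 0, 0, 0), (21, 0, 0, 0, 0), (22, 0, 0, 0, 0), (22, 0, 0, 0, 0), (19, 0, 0, 0, 0), (19, 0, 0, 0, 0), (21, 0, 0, 0, 0), (21, 0, 0, 0, 0), (23, 0, 0, 0, 0), (23, 0, 0, 0, 0), (20, 0, 0, 0, 0), (20, 0, 0, 0, 0), (22, 0, 0, 0, 0), (22, 0, 0, 0, 0), (23, 0, 0, 0, 0), (23, 0, 0, 0, 0)]]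

def m42_4 : Base := (1, 1, [(0, [0], [0, 5]), (0, [0], [1, 2]), (1, [], [4, 5]), (4, [], [3])])

def l42_4 : Cov := [(96, 1, 1, [(0, [0], [0, 5]), (0, [0], [1, 2]), (1, [], [4, 5]), (4, [], [3])]),
  (48, 1, 1, [(0, [0], [0, 5]), (0, [0], [1, 2]), (1, [], [3, 5]), (4, [], [4])]),
  (96, 1, 1, [(0, [0], [0, 5]), (0, [0], [1, 3]), (1, [], [4, 5]), (4, [], [2])]),
  (48, 1, 1, [(0, [0], [0, 5]), (0, [0], [1, 3]), (1, [], [2, 5]), (4, [], [4])]),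
  (48, 1, 1, [(0, [0], [0, 5]), (0, [0], [1, 4]), (1, [], [3, 5]), (4, [], [2])]),
  (48, 1, 1, [(0, [0], [0, 5]), (0, [0], [1, 4]), (1, [], [2, 5]), (4, [], [3])]),
  (96, 1, 1, [(0, [0], [0, 5]), (0, [0], [2, 3]), (1, [], [4, 5]), (4, [], [1])]),
  (48, 1, 1, [(0, [0], [0, 5]), (0, [0], [2, 3]), (1, [], [1, 5]), (4, [], [4])]),
  (48, 1, 1, [(0, [0], [0, 5]), (0, [0], [2, 4]), (1, [], [3, 5]), (4, [], [1])]),
  (48, 1, 1, [(0, [0], [0, 5]), (0, [0], [2, 4]), (1, [], [1, 5]), (4, [], [3])]),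
  (48, 1, 1, [(0, [0], [0, 5]), (0, [0], [3, 4]), (1, [], [2, 5]), (4, [], [1])]),
  (48, 1, 1, [(0, [0], [0, 5]), (0, [0], [3, 4]), (1, [], [1, 5]), (4, [], [2])]),
  (48, 1, 1, [(0, [0], [1, 5]), (0, [0], [0, 2]), (1, [], [4, 5]), (4, [], [3])]),
  (48, 1, 1, [(0, [0], [1, 5]), (0, [0], [0, 3]), (1, [], [4, 5]), (4, [], [2])]),
  (48, 1, 1, [(0, [0], [1, 5]), (0, [0], [2, 3]), (1, [], [4, 5]), (4, [], [0])]),
  (-48, 1, 1, [(0, [0], [1, 5]), (0, [0], [2, 3]), (1, [], [0, 5]), (4, [], [4])]),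
  (-48, 1, 1, [(0, [0], [1, 5]), (0, [0], [2, 4]), (1, [], [0, 5]), (4, [], [3])]),
  (-48, 1, 1, [(0, [0], [1, 5]), (0, [0], [3, 4]), (1, [], [0, 5]), (4, [], [2])]),
  (48, 1, 1, [(0, [0], [2, 5]), (0, [0], [0, 1]), (1, [], [4, 5]), (4, [], [3])]),
  (48, 1, 1, [(0, [0], [2, 5]), (0, [0], [0, 3]), (1, [], [4, 5]), (4, [], [1])]),
  (48, 1, 1, [(0, [0], [2, 5]), (0, [0], [1, 3]), (1, [], [4, 5]), (4, [], [0])]),
  (-48, 1, 1, [(0, [0], [2, 5]), (0, [0], [1, 3]), (1, [], [0, 5]), (4, [], [4])]),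
  (-48, 1, 1, [(0, [0], [2, 5]), (0, [0], [1, 4]), (1, [], [0, 5]), (4, [], [3])]),
  (-48, 1, 1, [(0, [0], [2, 5]), (0, [0], [3, 4]), (1, [], [0, 5]), (4, [], [1])]),
  (48, 1, 1, [(0, [0], [3, 5]), (0, [0], [0, 1]), (1, [], [4, 5]), (4, [], [2])]),
  (48, 1, 1, [(0, [0], [3, 5]), (0, [0], [0, 2]), (1, [], [4, 5]), (4, [], [1])]),
  (48, 1, 1, [(0, [0], [3, 5]), (0, [0], [1, 2]), (1, [], [4, 5]), (4, [], [0])]),
  (-48, 1, 1, [(0, [0], [3, 5]), (0, [0], [1, 2]), (1, [], [0, 5]), (4, [], [4])]),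
  (-48, 1, 1, [(0, [0], [3, 5]), (0, [0], [1, 4]), (1, [], [0, 5]), (4, [], [2])]),
  (-48, 1, 1, [(0, [0], [3, 5]), (0, [0], [2, 4]), (1, [], [0, 5]), (4, [], [1])]),
  (-48, 1, 1, [(0, [0], [4, 5]), (0, [0], [0, 1]), (1, [], [3, 5]), (4, [], [2])]),
  (-48, 1, 1, [(0, [0], [4, 5]), (0, [0], [0, 1]), (1, [], [2, 5]), (4, [], [3])]),
  (-48, 1, 1, [(0, [0], [4, 5]), (0, [0], [0, 2]), (1, [], [3, 5]), (4, [], [1])]),
  (-48, 1, 1, [(0, [0], [4, 5]), (0, [0], [0, 2]), (1, [], [1, 5]), (4, [], [3])]),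
  (-48, 1, 1, [(0, [0], [4, 5]), (0, [0], [0, 3]), (1, [], [2, 5]), (4, [], [1])]),
  (-48, 1, 1, [(0, [0], [4, 5]), (0, [0], [0, 3]), (1, [], [1, 5]), (4, [], [2])]),
  (-48, 1, 1, [(0, [0], [4, 5]), (0, [0], [1, 2]), (1, [], [3, 5]), (4, [], [0])]),
  (-96, 1, 1, [(0, [0], [4, 5]), (0, [0], [1, 2]), (1, [], [0, 5]), (4, [], [3])]),
  (-48, 1, 1, [(0, [0], [4, 5]), (0, [0], [1, 3]), (1, [], [2, 5]), (4, [], [0])]),
  (-96, 1, 1, [(0, [0], [4, 5]), (0, [0], [1, 3]), (1, [], [0, 5]), (4, [], [2])]),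
  (-48, 1, 1, [(0, [0], [4, 5]), (0, [0], [2, 3]), (1, [], [1, 5]), (4, [], [0])]),
  (-96, 1, 1, [(0, [0], [4, 5]), (0, [0], [2, 3]), (1, [], [0, 5]), (4, [], [1])])]

def z42_4 : Cov := []

def w42_4 : List (List Wit) := [[(0, 0, 0, 0, 0), (1, 0, 0, 0, 0), (2, 0, 0, 0, 0), (3, 0, 0, 0, 0), (4, 0, 0, 0, 0), (5, 0, 0, 0, 0), (0, 0, 0, 0, 0), (1, 0, 0, 0, 0), (6, 0, 0, 0, 0), (7, 0, 0, 0, 0), (8, 0, 0, 0, 0), (9, 0, 0, 0, 0), (2, 0, 0, 0, 0), (3, 0, 0, 0, 0), (6, 0, 0, 0, 0), (7, 0, 0, 0, 0), (10, 0, 0, 0, 0), (11, 0, 0, 0, 0), (4, 0, 0, 0, 0), (5, 0, 0, 0, 0), (8, 0, 0, 0, 0), (9, 0, 0, 0, 0), (10, 0, 0, 0, 0), (11, 0, 0, 0, 0), (12, 0, 0, 0, 0), (13, 0, 0, 0, 0), (12, 0, 0, 0, 0), (14, 0, 0, 0, 0), (15, 0, 0, 0, 0), (16, 0, 0, 0, 0), (13, 0, 0, 0, 0), (14, 0, 0, 0, 0), (15, 0, 0, 0, 0), (17, 0, 0, 0, 0), (16, 0, 0, 0, 0), (17, 0, 0, 0, 0), (18, 0, 0, 0, 0),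 (19, 0, 0, 0, 0), (18, 0, 0, 0, 0), (20, 0, 0, 0, 0), (21, 0, 0, 0, 0), (22, 0, 0, 0, 0), (19, 0, 0, 0, 0), (20, 0, 0, 0, 0), (21, 0, 0, 0, 0), (23, 0, 0, 0, 0), (22, 0, 0, 0, 0), (23, 0, 0, 0, 0), (24, 0, 0, 0, 0), (25, 0, 0, 0, 0), (24, 0, 0, 0, 0), (26, 0, 0, 0, 0), (27, 0, 0, 0, 0), (28, 0, 0, 0, 0), (25, 0, 0, 0, 0), (26, 0, 0, 0, 0), (27, 0, 0, 0, 0), (29, 0, 0, 0, 0), (28, 0, 0, 0, 0), (29, 0, 0, 0, 0), (30, 0, 0, 0, 0), (31, 0, 0, 0, 0), (32, 0, 0, 0, 0), (33, 0, 0, 0, 0), (34, 0, 0, 0, 0), (35, 0, 0, 0, 0), (30, 0, 0, 0, 0), (31, 0, 0, 0, 0), (36, 0, 0, 0, 0), (37, 0, 0, 0, 0), (38, 0, 0, 0, 0), (39, 0, 0, 0, 0), (32, 0, 0, 0, 0), (33, 0, 0, 0, 0), (36, 0, 0, 0, 0), (37, 0, 0, 0, 0), (40, 0, 0, 0, 0), (41, 0, 0, 0, 0), (34, 0, 0, 0, 0), (35, 0, 0, 0, 0), (38, 0, 0, 0, 0), (39, 0, 0, 0, 0), (40, 0, 0, 0, 0), (41, 0, 0, 0, 0)]]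

def m42_5 : Base := (1, 1, [(0, [0], [0, 5]), (0, [0], [1, 4]), (1, [], [2, 5]), (4, [], [3])])

def l42_5 : Cov := [(72, 1, 1, [(0, [0], [0, 5]), (0, [0], [1, 4]), (1, [], [2, 5]), (4, [], [3])]),
  (48, 1, 1, [(0, [0], [0, 5]), (0, [0], [1, 3]), (1, [], [2, 5]), (4, [], [4])]),
  (72, 1, 1, [(0, [0], [0, 5]), (0, [0], [1, 4]), (1, [], [3, 5]), (4, [], [2])]),
  (48, 1, 1, [(0, [0], [0, 5]), (0, [0], [1, 2]), (1, [], [3, 5]), (4, [], [4])]),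
  (48, 1, 1, [(0, [0], [0, 5]), (0, [0], [1, 3]), (1, [], [4, 5]), (4, [], [2])]),
  (48, 1, 1, [(0, [0], [0, 5]), (0, [0], [1, 2]), (1, [], [4, 5]), (4, [], [3])]),
  (72, 1, 1, [(0, [0], [0, 5]), (0, [0], [2, 4]), (1, [], [1, 5]), (4, [], [3])]),
  (48, 1, 1, [(0, [0], [0, 5]), (0, [0], [2, 3]), (1, [], [1, 5]), (4, [], [4])]),
  (72, 1, 1, [(0, [0], [0, 5]), (0, [0], [2, 4]), (1, [], [3, 5]), (4, [], [1])]),
  (48, 1, 1, [(0, [0], [0, 5]), (0, [0], [2, 3]), (1, [], [4, 5]), (4, [], [1])]),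
  (72, 1, 1, [(0, [0], [0, 5]), (0, [0], [3, 4]), (1, [], [1, 5]), (4, [], [2])]),
  (72, 1, 1, [(0, [0], [0, 5]), (0, [0], [3, 4]), (1, [], [2, 5]), (4, [], [1])]),
  (24, 1, 1, [(0, [0], [1, 5]), (0, [0], [2, 4]), (1, [], [0, 5]), (4, [], [3])]),
  (24, 1, 1, [(0, [0], [1, 5]), (0, [0], [2, 4]), (1, [], [3, 5]), (4, [], [0])]),
  (-24, 1, 1, [(0, [0], [1, 5]), (0, [0], [2, 0]), (1, [], [3, 5]), (4, [], [4])]),
  (-24, 1, 1, [(0, [0], [1, 5]), (0, [0], [2, 0]), (1, [], [4, 5]), (4, [], [3])]),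
  (24, 1, 1, [(0, [0], [1, 5]), (0, [0], [3, 4]), (1, [], [0, 5]), (4, [], [2])]),
  (24, 1, 1, [(0, [0], [1, 5]), (0, [0], [3, 4]), (1, [], [2, 5]), (4, [], [0])]),
  (-24, 1, 1, [(0, [0], [1, 5]), (0, [0], [3, 0]), (1, [], [2, 5]), (4, [], [4])]),
  (-24, 1, 1, [(0, [0], [1, 5]), (0, [0], [3, 0]), (1, [], [4, 5]), (4, [], [2])]),
  (24, 1, 1, [(0, [0], [2, 5]), (0, [0], [1, 4]), (1, [], [0, 5]), (4, [], [3])]),
  (24, 1, 1, [(0, [0], [2, 5]), (0, [0], [1, 4]), (1, [], [3, 5]), (4, [], [0])]),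
  (-24, 1, 1, [(0, [0], [2, 5]), (0, [0], [1, 0]), (1, [], [3, 5]), (4, [], [4])]),
  (-24, 1, 1, [(0, [0], [2, 5]), (0, [0], [1, 0]), (1, [], [4, 5]), (4, [], [3])]),
  (24, 1, 1, [(0, [0], [2, 5]), (0, [0], [3, 4]), (1, [], [0, 5]), (4, [], [1])]),
  (24, 1, 1, [(0, [0], [2, 5]), (0, [0], [3, 4]), (1, [], [1, 5]), (4, [], [0])]),
  (-24, 1, 1, [(0, [0], [2, 5]), (0, [0], [3, 0]), (1, [], [1, 5]), (4, [], [4])]),
  (-24, 1, 1, [(0, [0], [2, 5]), (0, [0], [3, 0]), (1, [], [4, 5]), (4, [], [1])]),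
  (24, 1, 1, [(0, [0], [3, 5]), (0, [0], [1, 4]), (1, [], [0, 5]), (4, [], [2])]),
  (24, 1, 1, [(0, [0], [3, 5]), (0, [0], [1, 4]), (1, [], [2, 5]), (4, [], [0])]),
  (-24, 1, 1, [(0, [0], [3, 5]), (0, [0], [1, 0]), (1, [], [2, 5]), (4, [], [4])]),
  (-24, 1, 1, [(0, [0], [3, 5]), (0, [0], [1, 0]), (1, [], [4, 5]), (4, [], [2])]),
  (24, 1, 1, [(0, [0], [3, 5]), (0, [0], [2, 4]), (1, [], [0, 5]), (4, [], [1])]),
  (24, 1, 1, [(0, [0], [3, 5]), (0, [0], [2, 4]), (1, [], [1, 5]), (4, [], [0])]),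
  (-24, 1, 1, [(0, [0], [3, 5]), (0, [0], [2, 0]), (1, [], [1, 5]), (4, [], [4])]),
  (-24, 1, 1, [(0, [0], [3, 5]), (0, [0], [2, 0]), (1, [], [4, 5]), (4, [], [1])]),
  (-72, 1, 1, [(0, [0], [4, 5]), (0, [0], [0, 3]), (1, [], [1, 5]), (4, [], [2])]),
  (-72, 1, 1, [(0, [0], [4, 5]), (0, [0], [0, 2]), (1, [], [1, 5]), (4, [], [3])]),
  (-72, 1, 1, [(0, [0], [4, 5]), (0, [0], [0, 3]), (1, [], [2, 5]), (4, [], [1])]),
  (-72, 1, 1, [(0, [0], [4, 5]), (0, [0], [0, 1]), (1, [], [2, 5]), (4, [], [3])]),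
  (-72, 1, 1, [(0, [0], [4, 5]), (0, [0], [0, 2]), (1, [], [3, 5]), (4, [], [1])]),
  (-72, 1, 1, [(0, [0], [4, 5]), (0, [0], [0, 1]), (1, [], [3, 5]), (4, [], [2])]),
  (-48, 1, 1, [(0, [0], [4, 5]), (0, [0], [1, 3]), (1, [], [0, 5]), (4, [], [2])]),
  (-48, 1, 1, [(0, [0], [4, 5]), (0, [0], [1, 2]), (1, [], [0, 5]), (4, [], [3])]),
  (-48, 1, 1, [(0, [0], [4, 5]), (0, [0], [1, 3]), (1, [], [2, 5]), (4, [], [0])]),
  (-48, 1, 1, [(0, [0], [4, 5]), (0, [0], [1, 2]), (1, [], [3, 5]), (4, [], [0])]),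
  (-48, 1, 1, [(0, [0], [4, 5]), (0, [0], [2, 3]), (1, [], [0, 5]), (4, [], [1])]),
  (-48, 1, 1, [(0, [0], [4, 5]), (0, [0], [2, 3]), (1, [], [1, 5]), (4, [], [0])])]

def z42_5 : Cov := [(0, 1, 1, [(0, [0], [1, 5]), (0, [0], [0, 4]), (1, [], [2, 5]), (4, [], [3])]),
  (0, 1, 1, [(0, [0], [1, 5]), (0, [0], [0, 4]), (1, [], [3, 5]), (4, [], [2])]),
  (0, 1, 1, [(0, [0], [2, 5]), (0, [0], [0, 4]), (1, [], [1, 5]), (4, [], [3])]),
  (0, 1, 1, [(0, [0], [2, 5]), (0, [0], [0, 4]), (1, [], [3, 5]), (4, [], [1])]),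
  (0, 1, 1, [(0, [0], [3, 5]), (0, [0], [0, 4]), (1, [], [1, 5]), (4, [], [2])]),
  (0, 1, 1, [(0, [0], [3, 5]), (0, [0], [0, 4]), (1, [], [2, 5]), (4, [], [1])])]

def w42_5 : List (List Wit) := [[(0, 0, 0, 0, 0), (1, 0, 0, 0, 0), (2, 0, 0, 0, 0), (3, 0, 0, 0, 0), (4, 0, 0, 0, 0), (5, 0, 0, 0, 0), (6, 0, 0, 0, 0), (7, 0, 0, 0, 0), (8, 0, 0, 0, 0), (3, 0, 0, 0, 0), (9, 0, 0, 0, 0), (5, 0, 0, 0, 0), (10, 0, 0, 0, 0), (7, 0, 0, 0, 0), (11, 0, 0, 0, 0), (1, 0, 0, 0, 0), (9, 0, 0, 0, 0), (4, 0, 0, 0, 0), (10, 0, 0, 0, 0), (6, 0, 0, 0, 0), (11, 0, 0, 0, 0), (0, 0, 0, 0, 0), (8, 0, 0, 0, 0), (2, 0, 0, 0, 0), (48, 0, 0, 0, 0), (49, 0, 0, 0, 0), (12, 0, 0, 0, 0), (13, 0, 0, 0, 0), (14, 0, 0, 0, 0), (15, 0, 0, 0, 0), (16, 0, 0, 0, 0), (17, 0, 0, 0, 0), (18, 0, 0, 0, 0), (19, 0, 0, 0, 0), (48, 0, 0, 0, 0), (49, 0, 0, 0, 0), (50, 0, 0, 0, 0), (51, 0, 0, 0, 0), (20, 0,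 0, 0, 0), (21, 0, 0, 0, 0), (22, 0, 0, 0, 0), (23, 0, 0, 0, 0), (24, 0, 0, 0, 0), (25, 0, 0, 0, 0), (26, 0, 0, 0, 0), (27, 0, 0, 0, 0), (50, 0, 0, 0, 0), (51, 0, 0, 0, 0), (52, 0, 0, 0, 0), (53, 0, 0, 0, 0), (28, 0, 0, 0, 0), (29, 0, 0, 0, 0), (30, 0, 0, 0, 0), (31, 0, 0, 0, 0), (32, 0, 0, 0, 0), (33, 0, 0, 0, 0), (34, 0, 0, 0, 0), (35, 0, 0, 0, 0), (52, 0, 0, 0, 0), (53, 0, 0, 0, 0), (36, 0, 0, 0, 0), (37, 0, 0, 0, 0), (38, 0, 0, 0, 0), (39, 0, 0, 0, 0), (40, 0, 0, 0, 0), (41, 0, 0, 0, 0), (42, 0, 0, 0, 0), (43, 0, 0, 0, 0), (44, 0, 0, 0, 0), (39, 0, 0, 0, 0), (45, 0, 0, 0, 0), (41, 0, 0, 0, 0), (46, 0, 0, 0, 0), (43, 0, 0, 0, 0), (47, 0, 0, 0, 0), (37, 0, 0, 0, 0), (45, 0, 0, 0, 0), (40, 0, 0, 0, 0), (46, 0, 0, 0, 0), (42, 0, 0, 0, 0), (47, 0, 0, 0, 0), (36, 0, 0, 0, 0), (44, 0, 0, 0, 0), (38, 0, 0, 0, 0)]]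

def m42_6 : Base := (1, 1, [(0, [0], [0, 5]), (0, [0], [1, 4]), (1, [], [2, 3]), (4, [], [5])])

def l42_6 : Cov := [(144, 1, 1, [(0, [0], [0, 5]), (0, [0], [1, 4]), (1, [], [2, 3]), (4, [], [5])]),
  (96, 1, 1, [(0, [0], [0, 5]), (0, [0], [1, 3]), (1, [], [2, 4]), (4, [], [5])]),
  (96, 1, 1, [(0, [0], [0, 5]), (0, [0], [1, 2]), (1, [], [3, 4]), (4, [], [5])]),
  (144, 1, 1, [(0, [0], [0, 5]), (0, [0], [2, 4]), (1, [], [1, 3]), (4, [], [5])]),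
  (96, 1, 1, [(0, [0], [0, 5]), (0, [0], [2, 3]), (1, [], [1, 4]), (4, [], [5])]),
  (144, 1, 1, [(0, [0], [0, 5]), (0, [0], [3, 4]), (1, [], [1, 2]), (4, [], [5])]),
  (48, 1, 1, [(0, [0], [1, 5]), (0, [0], [2, 4]), (1, [], [0, 3]), (4, [], [5])]),
  (-48, 1, 1, [(0, [0], [1, 5]), (0, [0], [2, 0]), (1, [], [3, 4]), (4, [], [5])]),
  (48, 1, 1, [(0, [0], [1, 5]), (0, [0], [3, 4]), (1, [], [0, 2]), (4, [], [5])]),
  (-48, 1, 1, [(0, [0], [1, 5]), (0, [0], [3, 0]), (1, [], [2, 4]), (4, [], [5])]),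
  (48, 1, 1, [(0, [0], [2, 5]), (0, [0], [1, 4]), (1, [], [0, 3]), (4, [], [5])]),
  (-48, 1, 1, [(0, [0], [2, 5]), (0, [0], [1, 0]), (1, [], [3, 4]), (4, [], [5])]),
  (48, 1, 1, [(0, [0], [2, 5]), (0, [0], [3, 4]), (1, [], [0, 1]), (4, [], [5])]),
  (-48, 1, 1, [(0, [0], [2, 5]), (0, [0], [3, 0]), (1, [], [1, 4]), (4, [], [5])]),
  (48, 1, 1, [(0, [0], [3, 5]), (0, [0], [1, 4]), (1, [], [0, 2]), (4, [], [5])]),
  (-48, 1, 1, [(0, [0], [3, 5]), (0, [0], [1, 0]), (1, [], [2, 4]), (4, [], [5])]),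
  (48, 1, 1, [(0, [0], [3, 5]), (0, [0], [2, 4]), (1, [], [0, 1]), (4, [], [5])]),
  (-48, 1, 1, [(0, [0], [3, 5]), (0, [0], [2, 0]), (1, [], [1, 4]), (4, [], [5])]),
  (-144, 1, 1, [(0, [0], [4, 5]), (0, [0], [0, 3]), (1, [], [1, 2]), (4, [], [5])]),
  (-144, 1, 1, [(0, [0], [4, 5]), (0, [0], [0, 2]), (1, [], [1, 3]), (4, [], [5])]),
  (-144, 1, 1, [(0, [0], [4, 5]), (0, [0], [0, 1]), (1, [], [2, 3]), (4, [], [5])]),
  (-96, 1, 1, [(0, [0], [4, 5]), (0, [0], [1, 3]), (1, [], [0, 2]), (4, [], [5])]),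
  (-96, 1, 1, [(0, [0], [4, 5]), (0, [0], [1, 2]), (1, [], [0, 3]), (4, [], [5])]),
  (-96, 1, 1, [(0, [0], [4, 5]), (0, [0], [2, 3]), (1, [], [0, 1]), (4, [], [5])])]

def z42_6 : Cov := [(0, 1, 1, [(0, [0], [1, 5]), (0, [0], [0, 4]), (1, [], [2, 3]), (4, [], [5])]),
  (0, 1, 1, [(0, [0], [2, 5]), (0, [0], [0, 4]), (1, [], [1, 3]), (4, [], [5])]),
  (0, 1, 1, [(0, [0], [3, 5]), (0, [0], [0, 4]), (1, [], [1, 2]), (4, [], [5])])]

def w42_6 : List (List Wit) := [[(0, 0, 0, 0, 0), (1, 0, 0, 0, 0), (0, 0, 0, 0, 0), (2, 0, 0, 0, 0), (1, 0, 0, 0, 0), (2, 0, 0, 0, 0), (3, 0, 0, 0, 0), (4, 0, 0, 0, 0), (3, 0, 0, 0, 0), (2, 0, 0, 0, 0), (4, 0, 0, 0, 0), (2, 0, 0, 0, 0), (5, 0, 0, 0, 0), (4, 0, 0, 0, 0), (5, 0, 0, 0, 0), (1, 0, 0, 0, 0), (4, 0, 0, 0, 0), (1, 0, 0, 0, 0), (5, 0, 0, 0, 0), (3, 0, 0, 0, 0), (5, 0, 0, 0, 0), (0, 0, 0, 0, 0), (3, 0, 0, 0, 0), (0, 0, 0, 0,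 0), (24, 0, 0, 0, 0), (24, 0, 0, 0, 0), (6, 0, 0, 0, 0), (6, 0, 0, 0, 0), (7, 0, 0, 0, 0), (7, 0, 0, 0, 0), (8, 0, 0, 0, 0), (8, 0, 0, 0, 0), (9, 0, 0, 0, 0), (9, 0, 0, 0, 0), (24, 0, 0, 0, 0), (24, 0, 0, 0, 0), (25, 0, 0, 0, 0), (25, 0, 0, 0, 0), (10, 0, 0, 0, 0), (10, 0, 0, 0, 0), (11, 0, 0, 0, 0), (11, 0, 0, 0, 0), (12, 0, 0, 0, 0), (12, 0, 0, 0, 0), (13, 0, 0, 0, 0), (13, 0, 0, 0, 0), (25, 0, 0, 0, 0), (25, 0, 0, 0, 0), (26, 0, 0, 0, 0), (26, 0, 0, 0, 0), (14, 0, 0, 0, 0), (14, 0, 0, 0, 0), (15, 0, 0, 0, 0), (15, 0, 0, 0, 0), (16, 0, 0, 0, 0), (16, 0, 0, 0, 0), (17, 0, 0, 0, 0), (17, 0, 0, 0, 0), (26, 0, 0, 0, 0), (26, 0, 0, 0, 0), (18, 0, 0, 0, 0), (19, 0, 0, 0, 0), (18, 0, 0, 0, 0), (20, 0, 0, 0, 0), (19, 0, 0, 0, 0), (20, 0, 0, 0, 0), (21, 0, 0, 0, 0), (22, 0, 0, 0, 0), (21, 0, 0, 0, 0), (20, 0, 0, 0, 0), (22, 0, 0, 0, 0), (20, 0, 0, 0, 0), (23, 0, 0,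 0, 0), (22, 0, 0, 0, 0), (23, 0, 0, 0, 0), (19, 0, 0, 0, 0), (22, 0, 0, 0, 0), (19, 0, 0, 0, 0), (23, 0, 0, 0, 0), (21, 0, 0, 0, 0), (23, 0, 0, 0, 0), (18, 0, 0, 0, 0), (21, 0, 0, 0, 0), (18, 0, 0, 0, 0)]]

def m42_7 : Base := (1, 1, [(0, [0], [0, 1]), (0, [0], [2, 3]), (1, [], [4, 5]), (4, [], [5])])

def l42_7 : Cov := [(240, 1, 1, [(0, [0], [0, 1]), (0, [0], [2, 3]), (1, [], [4, 5]), (4, [], [5])]),
  (240, 1, 1, [(0, [0], [0, 2]), (0, [0], [1, 3]), (1, [], [4, 5]), (4, [], [5])]),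
  (240, 1, 1, [(0, [0], [0, 3]), (0, [0], [1, 2]), (1, [], [4, 5]), (4, [], [5])]),
  (-240, 1, 1, [(0, [0], [1, 2]), (0, [0], [3, 4]), (1, [], [0, 5]), (4, [], [5])]),
  (-240, 1, 1, [(0, [0], [1, 3]), (0, [0], [2, 4]), (1, [], [0, 5]), (4, [], [5])]),
  (-240, 1, 1, [(0, [0], [1, 4]), (0, [0], [2, 3]), (1, [], [0, 5]), (4, [], [5])])]

def z42_7 : Cov := [(0, 1, 1, [(0, [0], [0, 1]), (0, [0], [2, 4]), (1, [], [3, 5]), (4, [], [5])]),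
  (0, 1, 1, [(0, [0], [0, 1]), (0, [0], [3, 4]), (1, [], [2, 5]), (4, [], [5])]),
  (0, 1, 1, [(0, [0], [0, 2]), (0, [0], [1, 4]), (1, [], [3, 5]), (4, [], [5])]),
  (0, 1, 1, [(0, [0], [0, 2]), (0, [0], [3, 4]), (1, [], [1, 5]), (4, [], [5])]),
  (0, 1, 1, [(0, [0], [0, 3]), (0, [0], [1, 4]), (1, [], [2, 5]), (4, [], [5])]),
  (0, 1, 1, [(0, [0], [0, 3]), (0, [0], [2, 4]), (1, [], [1, 5]), (4, [], [5])]),
  (0, 1, 1, [(0, [0], [0, 4]), (0, [0], [1, 2]), (1, [], [3, 5]), (4, [], [5])]),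
  (0, 1, 1, [(0, [0], [0, 4]), (0, [0], [1, 3]), (1, [], [2, 5]), (4, [], [5])]),
  (0, 1, 1, [(0, [0], [0, 4]), (0, [0], [2, 3]), (1, [], [1, 5]), (4, [], [5])])]

def w42_7 : List (List Wit) := [[(0, 0, 0, 0, 0), (6, 0, 0, 0, 0), (0, 0, 0, 0, 0), (7, 0, 0, 0, 0), (6, 0, 0, 0, 0), (7, 0, 0, 0, 0), (1, 0, 0, 0, 0), (8, 0, 0, 0, 0), (1, 0, 0, 0, 0), (9, 0, 0, 0, 0), (8, 0, 0, 0, 0), (9, 0, 0, 0, 0), (2, 0, 0, 0, 0), (10, 0, 0, 0, 0), (2, 0, 0, 0, 0), (11, 0, 0, 0, 0), (10, 0, 0, 0, 0), (11, 0, 0, 0, 0), (12, 0, 0, 0, 0), (13, 0, 0, 0, 0), (12, 0, 0, 0, 0), (14, 0, 0, 0, 0), (13, 0, 0, 0, 0), (14, 0, 0, 0, 0), (0, 0, 0, 0, 0), (0, 0, 0, 0, 0), (2, 0, 0, 0, 0), (2, 0, 0, 0, 0), (3, 0, 0, 0, 0), (3, 0, 0, 0, 0), (1, 0, 0, 0, 0), (1, 0, 0, 0, 0), (4, 0, 0, 0, 0), (4, 0, 0, 0, 0), (5, 0, 0, 0, 0), (5, 0, 0, 0, 0), (1, 0, 0, 0, 0), (1, 0, 0, 0, 0), (2, 0, 0, 0, 0),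 (2, 0, 0, 0, 0), (3, 0, 0, 0, 0), (3, 0, 0, 0, 0), (0, 0, 0, 0, 0), (0, 0, 0, 0, 0), (5, 0, 0, 0, 0), (5, 0, 0, 0, 0), (4, 0, 0, 0, 0), (4, 0, 0, 0, 0), (2, 0, 0, 0, 0), (2, 0, 0, 0, 0), (1, 0, 0, 0, 0), (1, 0, 0, 0, 0), (4, 0, 0, 0, 0), (4, 0, 0, 0, 0), (0, 0, 0, 0, 0), (0, 0, 0, 0, 0), (5, 0, 0, 0, 0), (5, 0, 0, 0, 0), (3, 0, 0, 0, 0), (3, 0, 0, 0, 0), (12, 0, 0, 0, 0), (13, 0, 0, 0, 0), (12, 0, 0, 0, 0), (14, 0, 0, 0, 0), (13, 0, 0, 0, 0), (14, 0, 0, 0, 0), (8, 0, 0, 0, 0), (10, 0, 0, 0, 0), (8, 0, 0, 0, 0), (5, 0, 0, 0, 0), (10, 0, 0, 0, 0), (5, 0, 0, 0, 0), (6, 0, 0, 0, 0), (11, 0, 0, 0, 0), (6, 0, 0, 0, 0), (4, 0, 0, 0, 0), (11, 0, 0, 0, 0), (4, 0, 0, 0, 0), (7, 0, 0, 0, 0), (9, 0, 0, 0, 0), (7, 0, 0, 0, 0), (3, 0, 0, 0, 0), (9, 0, 0, 0, 0), (3, 0, 0, 0, 0)]]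

def m42_8 : Base := (1, 0, [(0, [0], [0, 1]), (0, [0], [2, 3]), (4, [], [4])])

def l42_8 : Cov := [(240, 1, 0, [(0, [0], [0, 1]), (0, [0], [2, 3]), (4, [], [4])]),
  (240, 1, 0, [(0, [0], [0, 2]), (0, [0], [1, 3]), (4, [], [4])]),
  (240, 1, 0, [(0, [0], [0, 3]), (0, [0], [1, 2]), (4, [], [4])]),
  (-240, 1, 0, [(0, [0], [1, 2]), (0, [0], [3, 4]), (4, [], [0])]),
  (-240, 1, 0, [(0, [0], [1, 3]), (0, [0], [2, 4]), (4, [], [0])]),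
  (-240, 1, 0, [(0, [0], [1, 4]), (0, [0], [2, 3]), (4, [], [0])])]

def z42_8 : Cov := [(0, 1, 0, [(0, [0], [0, 1]), (0, [0], [2, 4]), (4, [], [3])]),
  (0, 1, 0, [(0, [0], [0, 1]), (0, [0], [3, 4]), (4, [], [2])]),
  (0, 1, 0, [(0, [0], [0, 2]), (0, [0], [1, 4]), (4, [], [3])]),
  (0, 1, 0, [(0, [0], [0, 2]), (0, [0], [3, 4]), (4, [], [1])]),
  (0, 1, 0, [(0, [0], [0, 3]), (0, [0], [1, 4]), (4, [], [2])]),
  (0, 1, 0, [(0, [0], [0, 3]), (0, [0], [2, 4]), (4, [], [1])]),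
  (0, 1, 0, [(0, [0], [0, 4]), (0, [0], [1, 2]), (4, [], [3])]),
  (0, 1, 0, [(0, [0], [0, 4]), (0, [0], [1, 3]), (4, [], [2])]),
  (0, 1, 0, [(0, [0], [0, 4]), (0, [0], [2, 3]), (4, [], [1])])]

def w42_8 : List (List Wit) := [[(0, 0, 0, 0, 0), (6, 0, 0, 0, 0), (0, 0, 0, 0, 0), (7, 0, 0, 0, 0), (6, 0, 0, 0, 0), (7, 0, 0, 0, 0), (1, 0, 0, 0, 0), (8, 0, 0, 0, 0), (1, 0, 0, 0, 0), (9, 0, 0, 0, 0), (8, 0, 0, 0, 0), (9, 0, 0, 0, 0), (2, 0, 0, 0, 0), (10, 0, 0, 0, 0), (2, 0, 0, 0, 0), (11, 0, 0, 0, 0), (10, 0, 0, 0, 0), (11, 0, 0, 0, 0), (12, 0, 0, 0, 0), (13, 0, 0, 0, 0), (12, 0, 0, 0, 0), (14, 0, 0, 0, 0), (13, 0, 0, 0, 0), (14, 0, 0, 0, 0), (0, 0, 0, 0, 0), (0, 0, 0, 0, 0), (2, 0, 0, 0, 0), (2, 0, 0, 0, 0), (3, 0, 0, 0, 0), (3, 0, 0, 0, 0), (1, 0, 0, 0, 0), (1, 0, 0, 0, 0), (4, 0, 0, 0, 0), (4, 0, 0, 0, 0), (5, 0, 0, 0, 0), (5, 0, 0, 0, 0), (1, 0, 0, 0, 0), (1,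 0, 0, 0, 0), (2, 0, 0, 0, 0), (2, 0, 0, 0, 0), (3, 0, 0, 0, 0), (3, 0, 0, 0, 0), (0, 0, 0, 0, 0), (0, 0, 0, 0, 0), (5, 0, 0, 0, 0), (5, 0, 0, 0, 0), (4, 0, 0, 0, 0), (4, 0, 0, 0, 0), (2, 0, 0, 0, 0), (2, 0, 0, 0, 0), (1, 0, 0, 0, 0), (1, 0, 0, 0, 0), (4, 0, 0, 0, 0), (4, 0, 0, 0, 0), (0, 0, 0, 0, 0), (0, 0, 0, 0, 0), (5, 0, 0, 0, 0), (5, 0, 0, 0, 0), (3, 0, 0, 0, 0), (3, 0, 0, 0, 0), (12, 0, 0, 0, 0), (13, 0, 0, 0, 0), (12, 0, 0, 0, 0), (14, 0, 0, 0, 0), (13, 0, 0, 0, 0), (14, 0, 0, 0, 0), (8, 0, 0, 0, 0), (10, 0, 0, 0, 0), (8, 0, 0, 0, 0), (5, 0, 0, 0, 0), (10, 0, 0, 0, 0), (5, 0, 0, 0, 0), (6, 0, 0, 0, 0), (11, 0, 0, 0, 0), (6, 0, 0, 0, 0), (4, 0, 0, 0, 0), (11, 0, 0, 0, 0), (4, 0, 0, 0, 0), (7, 0, 0, 0, 0), (9, 0, 0, 0, 0), (7, 0, 0, 0, 0), (3, 0, 0, 0, 0), (9, 0, 0, 0, 0), (3, 0, 0, 0, 0)]]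

def m42_9 : Base := (1, 0, [(0, [0], [0, 1]), (2, [0], [2, 3, 4])])

def l42_9 : Cov := [(240, 1, 0, [(0, [0], [0, 1]), (2, [0], [2, 3, 4])]),
  (240, 1, 0, [(0, [0], [0, 2]), (2, [0], [1, 3, 4])]),
  (240, 1, 0, [(0, [0], [0, 3]), (2, [0], [1, 2, 4])]),
  (-240, 1, 0, [(0, [0], [1, 4]), (2, [0], [2, 3, 0])]),
  (-240, 1, 0, [(0, [0], [2, 4]), (2, [0], [1, 3, 0])]),
  (-240, 1, 0, [(0, [0], [3, 4]), (2, [0], [1, 2, 0])])]

def z42_9 : Cov := [(0, 1, 0, [(0, [0], [0, 4]), (2, [0], [1, 2, 3])]),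
  (0, 1, 0, [(0, [0], [1, 2]), (2, [0], [0, 3, 4])]),
  (0, 1, 0, [(0, [0], [1, 3]), (2, [0], [0, 2, 4])]),
  (0, 1, 0, [(0, [0], [2, 3]), (2, [0], [0, 1, 4])])]

def w42_9 : List (List Wit) := [[(0, 0, 0, 0, 0), (0, 0, 0, 0, 0), (0, 0, 0, 0, 0), (0, 0, 0, 0, 0), (0, 0, 0, 0, 0), (0, 0, 0, 0, 0), (1, 0, 0, 0, 0), (1, 0, 0, 0, 0), (1, 0, 0, 0, 0), (1, 0, 0, 0, 0), (1, 0, 0, 0, 0), (1, 0, 0, 0, 0), (2, 0, 0, 0, 0), (2, 0, 0, 0, 0), (2, 0, 0, 0, 0), (2, 0, 0, 0, 0), (2, 0, 0, 0, 0), (2, 0, 0, 0, 0), (6, 0, 0, 0, 0), (6, 0, 0, 0, 0), (6, 0, 0, 0, 0), (6, 0, 0, 0, 0), (6, 0, 0, 0, 0), (6, 0, 0, 0, 0), (0, 0, 0, 0, 0), (0, 0, 0, 0, 0), (7, 0, 0, 0, 0), (7, 0, 0, 0, 0), (7, 0, 0, 0, 0), (7, 0, 0, 0, 0), (8, 0, 0, 0, 0), (8, 0, 0, 0, 0), (8, 0, 0, 0, 0), (8, 0, 0, 0, 0), (3, 0, 0, 0, 0), (3, 0, 0, 0, 0), (1, 0, 0, 0, 0), (1, 0, 0, 0, 0), (7, 0, 0, 0, 0), (7, 0, 0,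 0, 0), (7, 0, 0, 0, 0), (7, 0, 0, 0, 0), (9, 0, 0, 0, 0), (9, 0, 0, 0, 0), (9, 0, 0, 0, 0), (9, 0, 0, 0, 0), (4, 0, 0, 0, 0), (4, 0, 0, 0, 0), (2, 0, 0, 0, 0), (2, 0, 0, 0, 0), (8, 0, 0, 0, 0), (8, 0, 0, 0, 0), (8, 0, 0, 0, 0), (8, 0, 0, 0, 0), (9, 0, 0, 0, 0), (9, 0, 0, 0, 0), (9, 0, 0, 0, 0), (9, 0, 0, 0, 0), (5, 0, 0, 0, 0), (5, 0, 0, 0, 0), (6, 0, 0, 0, 0), (6, 0, 0, 0, 0), (6, 0, 0, 0, 0), (6, 0, 0, 0, 0), (6, 0, 0, 0, 0), (6, 0, 0, 0, 0), (3, 0, 0, 0, 0), (3, 0, 0, 0, 0), (3, 0, 0, 0, 0), (3, 0, 0, 0, 0), (3, 0, 0, 0, 0), (3, 0, 0, 0, 0), (4, 0, 0, 0, 0), (4, 0, 0, 0, 0), (4, 0, 0, 0, 0), (4, 0, 0, 0, 0), (4, 0, 0, 0, 0), (4, 0, 0, 0, 0), (5, 0, 0, 0, 0), (5, 0, 0, 0, 0), (5, 0, 0, 0, 0), (5, 0, 0, 0, 0), (5, 0, 0, 0, 0), (5, 0, 0, 0, 0)]]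

theorem tr42 : trK keys lk42 kl42 = true := by
  decide +kernel

theorem x42_0 : expB 0 5 dg10 dg5 m42_0 (l42_0 ++ z42_0) w42_0 = true := by
  decide +kernel

theorem x42_1 : expB 0 5 dg10 dg5 m42_1 (l42_1 ++ z42_1) w42_1 = true := by
  decide +kernel

theorem x42_2 : expB 0 5 dg10 dg5 m42_2 (l42_2 ++ z42_2) w42_2 = true := by
  decide +kernel

theorem x42_3 : expB 0 5 dg10 dg5 m42_3 (l42_3 ++ z42_3) w42_3 = true := by
  decide +kernel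

theorem x42_4 : expB 0 5 dg10 dg5 m42_4 (l42_4 ++ z42_4) w42_4 = true := by
  decide +kernel

theorem x42_5 : expB 0 5 dg10 dg5 m42_5 (l42_5 ++ z42_5) w42_5 = true := by
  decide +kernel

theorem x42_6 : expB 0 5 dg10 dg5 m42_6 (l42_6 ++ z42_6) w42_6 = true := by
  decide +kernel

theorem x42_7 : expB 0 5 dg10 dg5 m42_7 (l42_7 ++ z42_7) w42_7 = true := by
  decide +kernel

theorem x42_8 : expB 0 5 dg10 dg5 m42_8 (l42_8 ++ z42_8) w42_8 = true := by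
  decide +kernel

theorem x42_9 : expB 0 5 dg10 dg5 m42_9 (l42_9 ++ z42_9) w42_9 = true := by
  decide +kernel

theorem t42_0_0 : chkS lk42 0 5 [(1, m42_0)] l42_0
  [(70, 16, 16, 50619681, 52715781), (71, 16, 16, 50619681, 52715781), (71, 16, 16, 50615841, 36987141), (64, 16, 16, 50619681, 52715781), (66, 16, 16, 50619681, 52715781), (38, 16, 16, 50746386, 70410261), (64, 16, 16, 50615841, 36987141), (66, 16, 16, 50615841, 36987141), (38, 16, 16, 50742546, 69427221), (64, 16, 16, 50619666, 52715541), (38, 16, 16, 50746401, 70410501), (64, 16, 16, 50615826, 36986901), (38, 16, 16, 50742561, 69427461), (12, 16, 16, 34825476, 52446801), (123, 16, 16, 51733536, 54681936), (75, 16, 16, 50746401, 70410501), (74, 16, 16, 50619681, 52715781), (74, 16, 16, 50615841, 36987141), (38, 1, 1, 3237156, 52449606), (38, 1, 1, 3233316, 36720966), (75, 1, 1, 3236436, 51401286),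 (74, 16, 16, 50619666, 52715541), (75, 1, 1, 3221076, 34624326), (74, 16, 16, 50615826, 36986901)]
  [(12, -144), (38, -192), (64, 480), (66, 96), (70, 144), (71, 96), (74, -384), (75, -192), (123, 96)] = true := by
  decide +kernel

theorem t42_0_1 : chkS lk42 0 5 [(1, m42_0)] l42_1
  [(71, 16, 16, 50619681, 52715781), (70, 16, 16, 50619681, 52715781), (71, 16, 16, 50615841, 36987141), (66, 16, 16, 50619681, 52715781), (64, 16, 16, 50619681, 52715781), (38, 16, 16, 50746386, 70410261), (66, 16, 16, 50615841, 36987141), (64, 16, 16, 50615841, 36987141), (38, 16, 16, 50742546, 69427221), (38, 16, 16, 50746401, 70410501), (64, 16, 16, 50619666, 52715541), (38, 16, 16, 50742561, 69427461), (64, 16, 16, 50615826, 36986901), (38, 1, 1, 3237156, 52449606), (38, 1, 1, 3233316, 36720966), (75, 16, 16, 50746401, 70410501), (123, 16, 16, 51733536, 54681936), (75, 1,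 1, 3236436, 51401286), (74, 16, 16, 50619666, 52715541), (75, 1, 1, 3221076, 34624326), (74, 16, 16, 50615826, 36986901), (12, 16, 16, 34825476, 52446801), (74, 16, 16, 50619681, 52715781), (74, 16, 16, 50615841, 36987141)]
  [(12, -48), (38, 96), (66, 192), (70, 48), (71, 192), (74, -288), (75, -144), (123, -48)] = true := by
  decide +kernel

theorem t42_0_2 : chkS lk42 0 5 [(1, m42_0)] l42_2
  [(63, 16, 16, 50619681, 52715781), (65, 16, 16, 50619681, 52715781), (63, 16, 16, 50615841, 36987141), (65, 16, 16, 50615841, 36987141), (56, 16, 16, 67331346, 52838421), (56, 16, 16, 67327506, 37109781), (58, 16, 16, 50619681, 52715781), (11, 1, 1, 21377616, 68498016), (62, 16, 16, 50742561, 69427461), (36, 16, 16, 50684946, 54681621), (62, 16, 16, 50746401, 70410501), (36, 16, 16, 50677266, 37969941), (63, 16, 16, 84173601, 56893701), (63, 16, 16, 84162081, 40120581),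 (58, 16, 16, 50619666, 52715541), (11, 1, 1, 21377541, 67449441), (36, 16, 16, 50684961, 54681861), (36, 16, 16, 50677281, 37970181), (27, 16, 16, 84108321, 56770821), (59, 16, 16, 84162081, 40120581), (59, 16, 16, 84162066, 40120341), (37, 16, 16, 67515681, 69611781), (35, 16, 16, 84108321, 56770821), (73, 16, 16, 84162081, 40120581), (27, 16, 16, 84100641, 40059141), (59, 16, 16, 84173601, 56893701), (59, 16, 16, 84173586, 56893461), (37, 16, 16, 67523361, 70656261), (35, 16, 16, 84100641, 40059141), (73, 16, 16, 84173601, 56893701), (28, 16, 16, 67450401, 38154501), (28, 16, 16, 67461921, 54927621), (60, 16, 16, 84296481, 73605381), (36, 16, 16, 67461906, 54927381), (60, 16, 16, 84292641, 73543941), (36, 16, 16, 67450386, 38154261), (60, 16, 16, 84296466, 73605141), (36, 16, 16, 67461921, 54927621), (60, 16, 16, 84292626, 73543701), (36, 16, 16, 67450401,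 38154501), (6, 1, 1, 4272741, 17117766), (6, 1, 1, 4272726, 1389126)]
  [(6, -144), (27, 96), (28, -96), (35, -96), (36, -288), (37, -96), (56, 96), (58, 144), (59, 192), (60, -192), (62, 96), (63, 288), (65, 96), (73, -96)] = true := by
  decide +kernel

theorem t42_0_3 : chkS lk42 0 5 [(1, m42_0)] l42_3
  [(56, 16, 16, 50746401, 70410501), (56, 16, 16, 50742561, 69427461), (55, 16, 16, 50619681, 52715781), (54, 16, 16, 50746401, 70410501), (52, 16, 16, 50684961, 54681861), (52, 16, 16, 50677281, 37970181), (56, 16, 16, 50746386, 70410261), (56, 16, 16, 50742546, 69427221), (52, 16, 16, 50684946, 54681621), (52, 16, 16, 50677266, 37969941), (28, 16, 16, 84108321, 56770821), (61, 16, 16, 100939041, 103035141), (52, 16, 16, 84108306, 56770581), (120, 16, 16, 68571936, 70656336), (28, 16, 16, 84100641, 40059141), (61, 16, 16, 100946721, 104079621), (52, 16, 16,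 84100626, 40058901), (120, 16, 16, 68564256, 69611856), (33, 16, 16, 67331361, 52838661), (67, 16, 16, 84173601, 56893701), (67, 16, 16, 84162081, 40120581), (67, 16, 16, 84173586, 56893461), (67, 16, 16, 84162066, 40120341), (119, 16, 16, 68379936, 52838736)]
  [(28, 96), (33, -96), (54, 144), (55, 96), (56, 384), (61, 96), (67, -480), (119, -144), (120, -96)] = true := by
  decide +kernel

theorem t42_0_4 : chkS lk42 0 5 [(1, m42_0)] l42_4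
  [(65, 16, 16, 50619681, 52715781), (63, 16, 16, 50619681, 52715781), (65, 16, 16, 50615841, 36987141), (63, 16, 16, 50615841, 36987141), (56, 16, 16, 67327506, 37109781), (56, 16, 16, 67331346, 52838421), (11, 1, 1, 21377616, 68498016), (58, 16, 16, 50619681, 52715781), (36, 16, 16, 50684946, 54681621), (62, 16, 16, 50742561, 69427461), (36, 16, 16, 50677266, 37969941), (62, 16, 16, 50746401, 70410501), (65, 16, 16, 84296481, 73605381), (65, 16, 16, 84292641, 73543941), (11, 1, 1, 21377541, 67449441), (58, 16, 16, 50619666, 52715541), (62, 16, 16, 50742546, 69427221), (62, 16, 16, 50746386, 70410261), (29, 16, 16, 84108321, 56770821), (37, 16, 16, 67515666, 69611541), (37, 16, 16, 67515681, 69611781), (59, 16, 16, 84162066, 40120341), (53, 16, 16, 84108306, 56770581), (73, 16, 16, 84162066, 40120341), (29, 16, 16, 84100641, 40059141), (37, 16, 16, 67523346,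 70656021), (37, 16, 16, 67523361, 70656261), (59, 16, 16, 84173586, 56893461), (53, 16, 16, 84100626, 40058901), (73, 16, 16, 84173586, 56893461), (28, 16, 16, 67461921, 54927621), (28, 16, 16, 67450401, 38154501), (36, 16, 16, 67461906, 54927381), (60, 16, 16, 84296481, 73605381), (36, 16, 16, 67450386, 38154261), (60, 16, 16, 84292641, 73543941), (36, 16, 16, 67461921, 54927621), (60, 16, 16, 84296466, 73605141), (36, 16, 16, 67450401, 38154501), (60, 16, 16, 84292626, 73543701), (6, 1, 1, 4272726, 1389126), (6, 1, 1, 4272741, 17117766)]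
  [(6, -144), (11, 144), (28, -96), (29, 96), (36, -96), (37, 192), (53, -96), (56, 96), (59, -96), (60, -288), (63, 96), (65, 288), (73, -96)] = true := by
  decide +kernel

theorem t42_0_5 : chkS lk42 0 5 [(1, m42_0)] l42_5
  [(56, 16, 16, 67331346, 52838421), (63, 16, 16, 50615841, 36987141), (56, 16, 16, 67327506, 37109781), (63, 16, 16, 50619681, 52715781), (65, 16, 16, 50615841, 36987141), (65, 16, 16, 50619681, 52715781), (62, 16, 16, 50742561, 69427461), (58, 16, 16, 50619681, 52715781), (36, 16, 16, 50684946, 54681621), (11, 1, 1, 21377616, 68498016), (62, 16, 16, 50746401, 70410501), (36, 16, 16, 50677266, 37969941), (62, 16, 16, 50742546, 69427221), (36, 16, 16, 50684961, 54681861), (63, 16, 16, 84173601, 56893701), (65, 16, 16, 84296481, 73605381), (62, 16, 16, 50746386, 70410261), (36, 16, 16, 50677281, 37970181), (63, 16, 16, 84162081, 40120581),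 (65, 16, 16, 84292641, 73543941), (53, 16, 16, 84108306, 56770581), (35, 16, 16, 84108321, 56770821), (27, 16, 16, 84108321, 56770821), (29, 16, 16, 84108321, 56770821), (73, 16, 16, 84162066, 40120341), (73, 16, 16, 84162081, 40120581), (59, 16, 16, 84162081, 40120581), (37, 16, 16, 67515666, 69611541), (53, 16, 16, 84100626, 40058901), (35, 16, 16, 84100641, 40059141), (27, 16, 16, 84100641, 40059141), (29, 16, 16, 84100641, 40059141), (73, 16, 16, 84173586, 56893461), (73, 16, 16, 84173601, 56893701), (59, 16, 16, 84173601, 56893701), (37, 16, 16, 67523346, 70656021), (60, 16, 16, 84292641, 73543941), (60, 16, 16, 84296481, 73605381), (36, 16, 16, 67450386, 38154261), (28, 16, 16, 67450401, 38154501), (36, 16, 16, 67461906, 54927381), (28, 16, 16, 67461921, 54927621), (60, 16, 16, 84292626, 73543701), (60, 16, 16, 84296466, 73605141), (36, 16, 16, 67450401,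 38154501), (36, 16, 16, 67461921, 54927621), (6, 1, 1, 4272741, 17117766), (6, 1, 1, 4272726, 1389126)]
  [(6, -96), (11, 48), (27, -48), (28, -144), (29, -48), (35, 48), (36, -48), (37, -48), (53, 48), (56, 144), (58, 48), (59, -48), (60, -240), (62, 192), (63, 48), (65, 48), (73, 96)] = true := by
  decide +kernel

theorem t42_0_6 : chkS lk42 0 5 [(1, m42_0)] l42_6
  [(55, 16, 16, 50619681, 52715781), (56, 16, 16, 50742561, 69427461), (56, 16, 16, 50746401, 70410501), (52, 16, 16, 50684961, 54681861), (54, 16, 16, 50746401, 70410501), (52, 16, 16, 50677281, 37970181), (52, 16, 16, 50684946, 54681621), (56, 16, 16, 50746386, 70410261), (52, 16, 16, 50677266, 37969941), (56, 16, 16, 50742546, 69427221), (52, 16, 16, 84108306, 56770581), (28, 16, 16, 84108321, 56770821), (120, 16, 16, 68571936, 70656336), (61, 16, 16, 100939041, 103035141), (52, 16, 16, 84100626,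 40058901), (28, 16, 16, 84100641, 40059141), (120, 16, 16, 68564256, 69611856), (61, 16, 16, 100946721, 104079621), (67, 16, 16, 84162081, 40120581), (67, 16, 16, 84173601, 56893701), (33, 16, 16, 67331361, 52838661), (67, 16, 16, 84162066, 40120341), (67, 16, 16, 84173586, 56893461), (119, 16, 16, 68379936, 52838736)]
  [(28, -96), (33, -144), (52, 480), (54, 96), (55, 144), (56, 96), (61, -96), (67, -480), (119, -96), (120, 96)] = true := by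
  decide +kernel

theorem t42_0_7 : chkS lk42 0 5 [(1, m42_0)] l42_7
  [(30, 16, 16, 100881441, 103956741), (68, 16, 16, 100946721, 104079621), (68, 16, 16, 100939041, 103035141), (61, 16, 16, 67523346, 70656021), (61, 16, 16, 67515666, 69611541), (54, 16, 16, 100881426, 103956501)]
  [(30, 240), (54, -240), (61, -480), (68, 480)] = true := by
  decide +kernel

theorem t42_0_8 : chkS lk42 0 5 [(1, m42_0)] l42_8
  [(31, 16, 16, 218145, 3293445), (69, 16, 16, 283425, 3416325), (69, 16, 16, 275745, 2371845), (25, 1, 1, 4399365, 344865), (25, 1, 1, 4395525, 344625), (18, 1, 1, 4272645, 340545)]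
  [(18, -240), (25, -480), (31, 240), (69, 480)] = true := by
  decide +kernel

theorem t42_0_9 : chkS lk42 0 5 [(1, m42_0)] l42_9
  [(34, 16, 16, 218145, 3293445), (72, 16, 16, 283425, 3416325), (72, 16, 16, 275745, 2371845), (57, 16, 16, 214290, 2310165), (121, 16, 16, 1332000, 3416400), (121, 16, 16, 1324320, 2371920)]
  [(34, 240), (57, -240), (72, 480), (121, -480)] = true := by
  decide +kernel

theorem t42_1_1 : chkS lk42 0 5 [(1, m42_1)] l42_1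
  [(70, 16, 16, 50742561, 69427461), (71, 16, 16, 50742561, 69427461), (71, 16, 16, 50677281, 37970181), (64, 16, 16, 50742561, 69427461), (66, 16, 16, 50742561, 69427461), (38, 16, 16, 50684946, 54681621), (38, 1, 1, 3479106, 37834806), (38, 1, 1, 3544386, 69292086), (12, 16, 16, 35009856, 69285456), (38, 16, 16, 50684961, 54681861), (66, 16, 16, 50742546, 69427221), (12, 16, 16, 35009796, 69219921), (38, 1, 1, 3544356, 69226806), (64, 16, 16, 50677266, 37969941), (66, 16, 16, 50677266, 37969941), (74, 16, 16, 50742561, 69427461), (75, 1, 1, 3543636, 68178486), (123, 16, 16, 51794976, 70410576), (75, 16, 16, 50684946, 54681621), (75, 1, 1, 3282516, 34624566), (74, 16, 16, 50677266, 37969941), (38, 16, 16, 50619681, 52715781), (75, 16, 16, 50619681, 52715781), (74, 16, 16, 50677281, 37970181)]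
  [(12, 144), (38, 192), (66, -96), (70, 96), (71, 144), (74, -96), (75, -288), (123, -96)] = true := by
  decide +kernel

theorem t42_1_2 : chkS lk42 0 5 [(1, m42_1)] l42_2
  [(65, 16, 16, 50742561, 69427461), (63, 16, 16, 50742561, 69427461), (56, 16, 16, 67515666, 69611541), (56, 16, 16, 67450386, 38154261), (63, 16, 16, 50677281, 37970181), (65, 16, 16, 50677281, 37970181), (62, 16, 16, 50619681, 52715781), (36, 16, 16, 50746386, 70410261), (58, 16, 16, 50742561, 69427461), (11, 1, 1, 21193296, 51724896), (62, 16, 16, 50684961, 54681861), (36, 16, 16, 50615826, 36986901), (65, 16, 16, 84173601, 56893701), (56, 16, 16, 67515681, 69611781), (62, 16, 16, 50619666, 52715541), (36, 16, 16, 50746401, 70410501), (11, 1, 1, 21193221, 50676321), (36, 16, 16, 50615841, 36987141), (29, 16, 16, 84292641, 73543941), (53, 16, 16, 84292641, 73543941), (53, 16, 16, 84292626,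 73543701), (35, 16, 16, 84292641, 73543941), (37, 16, 16, 67331361, 52838661), (73, 16, 16, 84100641, 40059141), (28, 16, 16, 67327521, 37110021), (60, 16, 16, 84173601, 56893701), (60, 16, 16, 84173586, 56893461), (36, 16, 16, 67523361, 70656261), (36, 16, 16, 67327521, 37110021), (6, 1, 1, 4395606, 1393206), (27, 16, 16, 84162081, 40120581), (29, 16, 16, 84162081, 40120581), (59, 16, 16, 84296481, 73605381), (37, 16, 16, 67461906, 54927381), (53, 16, 16, 84162081, 40120581), (35, 16, 16, 84162066, 40120341), (59, 16, 16, 84296466, 73605141), (37, 16, 16, 67461921, 54927621), (53, 16, 16, 84162066, 40120341), (35, 16, 16, 84162081, 40120581), (73, 16, 16, 84296466, 73605141), (73, 16, 16, 84296481, 73605381)]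
  [(6, -48), (27, -48), (28, 48), (35, -192), (36, -96), (37, -192), (56, 192), (58, 48), (59, -96), (60, 96), (62, 192), (63, 96), (65, 192), (73, -192)] = true := by
  decide +kernel

theorem t42_1_3 : chkS lk42 0 5 [(1, m42_1)] l42_3
  [(56, 16, 16, 50684961, 54681861), (55, 16, 16, 50742561, 69427461), (56, 16, 16, 50619681, 52715781), (52, 16, 16, 50746401, 70410501), (54, 16, 16, 50684961, 54681861), (52, 16, 16, 50615841, 36987141), (56, 16, 16, 50684946, 54681621), (55, 16, 16, 67515681, 69611781), (54, 16, 16, 50684946, 54681621), (52, 16, 16, 50615826, 36986901), (28, 16, 16, 84292641, 73543941), (52, 16, 16, 84292641, 73543941), (61, 16, 16, 100877586, 102973461), (120, 16, 16, 68510496, 54927696), (33, 16, 16, 67515681, 69611781), (67, 16, 16, 84296481, 73605381), (67, 16, 16, 84100626, 40058901), (119, 16, 16, 68564256, 69611856), (28, 16, 16,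 84162081, 40120581), (61, 16, 16, 101008161, 105062661), (52, 16, 16, 84162081, 40120581), (61, 16, 16, 101008146, 105062421), (52, 16, 16, 84162066, 40120341), (120, 16, 16, 68379936, 52838736)]
  [(28, -48), (33, 48), (54, 48), (55, 192), (56, 288), (61, -288), (119, -48), (120, -192)] = true := by
  decide +kernel

theorem t42_1_4 : chkS lk42 0 5 [(1, m42_1)] l42_4
  [(63, 16, 16, 50742561, 69427461), (65, 16, 16, 50742561, 69427461), (56, 16, 16, 67450386, 38154261), (56, 16, 16, 67515666, 69611541), (65, 16, 16, 50677281, 37970181), (63, 16, 16, 50677281, 37970181), (36, 16, 16, 50746386, 70410261), (62, 16, 16, 50619681, 52715781), (11, 1, 1, 21193296, 51724896), (58, 16, 16, 50742561, 69427461), (36, 16, 16, 50615826, 36986901), (62, 16, 16, 50684961, 54681861), (63, 16, 16, 84296481, 73605381), (56, 16, 16, 67450401, 38154501), (36, 16, 16, 50746401,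 70410501), (62, 16, 16, 50619666, 52715541), (58, 16, 16, 50742546, 69427221), (62, 16, 16, 50684946, 54681621), (27, 16, 16, 84292641, 73543941), (35, 16, 16, 84292626, 73543701), (35, 16, 16, 84292641, 73543941), (53, 16, 16, 84292626, 73543701), (59, 16, 16, 84100626, 40058901), (73, 16, 16, 84100626, 40058901), (28, 16, 16, 67523361, 70656261), (36, 16, 16, 67523346, 70656021), (36, 16, 16, 67523361, 70656261), (60, 16, 16, 84173586, 56893461), (60, 16, 16, 84108306, 56770581), (6, 1, 1, 4395621, 17121846), (29, 16, 16, 84162081, 40120581), (27, 16, 16, 84162081, 40120581), (37, 16, 16, 67461906, 54927381), (59, 16, 16, 84296481, 73605381), (35, 16, 16, 84162066, 40120341), (53, 16, 16, 84162081, 40120581), (37, 16, 16, 67461921, 54927621), (59, 16, 16, 84296466, 73605141), (35, 16, 16, 84162081, 40120581), (53, 16, 16, 84162066, 40120341), (73, 16, 16,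 84296481, 73605381), (73, 16, 16, 84296466, 73605141)]
  [(6, -48), (11, 48), (28, 48), (29, -48), (36, 288), (37, -96), (53, -192), (56, 192), (59, -192), (60, -96), (63, 192), (65, 96), (73, -192)] = true := by
  decide +kernel

theorem t42_1_5 : chkS lk42 0 5 [(1, m42_1)] l42_5
  [(63, 16, 16, 50677281, 37970181), (56, 16, 16, 67515666, 69611541), (65, 16, 16, 50677281, 37970181), (65, 16, 16, 50742561, 69427461), (56, 16, 16, 67450386, 38154261), (63, 16, 16, 50742561, 69427461), (58, 16, 16, 50742561, 69427461), (62, 16, 16, 50619681, 52715781), (11, 1, 1, 21193296, 51724896), (36, 16, 16, 50746386, 70410261), (62, 16, 16, 50684961, 54681861), (36, 16, 16, 50615826, 36986901), (58, 16, 16, 50742546, 69427221), (11, 1, 1, 21193221, 50676321), (65, 16, 16, 84173601, 56893701), (63, 16, 16, 84296481, 73605381), (62, 16, 16, 50684946, 54681621), (36, 16, 16,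 50615841, 36987141), (56, 16, 16, 67515681, 69611781), (56, 16, 16, 67450401, 38154501), (59, 16, 16, 84100626, 40058901), (37, 16, 16, 67331361, 52838661), (29, 16, 16, 84292641, 73543941), (27, 16, 16, 84292641, 73543941), (73, 16, 16, 84100626, 40058901), (73, 16, 16, 84100641, 40059141), (53, 16, 16, 84292641, 73543941), (35, 16, 16, 84292626, 73543701), (60, 16, 16, 84108306, 56770581), (36, 16, 16, 67327521, 37110021), (28, 16, 16, 67327521, 37110021), (28, 16, 16, 67523361, 70656261), (6, 1, 1, 4395621, 17121846), (6, 1, 1, 4395606, 1393206), (60, 16, 16, 84173601, 56893701), (36, 16, 16, 67523346, 70656021), (53, 16, 16, 84162081, 40120581), (59, 16, 16, 84296481, 73605381), (35, 16, 16, 84162066, 40120341), (27, 16, 16, 84162081, 40120581), (37, 16, 16, 67461906, 54927381), (29, 16, 16, 84162081, 40120581), (53, 16, 16, 84162066, 40120341), (59, 16,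 16, 84296466, 73605141), (35, 16, 16, 84162081, 40120581), (37, 16, 16, 67461921, 54927621), (73, 16, 16, 84296466, 73605141), (73, 16, 16, 84296481, 73605381)]
  [(6, 48), (11, 96), (27, -96), (28, -48), (29, -96), (35, -144), (36, 144), (37, -96), (53, -144), (56, 48), (58, 96), (59, -96), (62, 144), (63, 96), (65, 96), (73, -48)] = true := by
  decide +kernel

theorem t42_1_6 : chkS lk42 0 5 [(1, m42_1)] l42_6
  [(56, 16, 16, 50619681, 52715781), (55, 16, 16, 50742561, 69427461), (56, 16, 16, 50684961, 54681861), (54, 16, 16, 50684961, 54681861), (52, 16, 16, 50746401, 70410501), (52, 16, 16, 50615841, 36987141), (54, 16, 16, 50684946, 54681621), (56, 16, 16, 50684946, 54681621), (52, 16, 16, 50615826, 36986901), (55, 16, 16, 67515681, 69611781), (61, 16, 16, 100877586, 102973461), (28, 16, 16, 84292641, 73543941), (120, 16, 16, 68510496, 54927696), (52,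 16, 16, 84292641, 73543941), (67, 16, 16, 84100626, 40058901), (33, 16, 16, 67515681, 69611781), (119, 16, 16, 68564256, 69611856), (67, 16, 16, 84296481, 73605381), (52, 16, 16, 84162081, 40120581), (61, 16, 16, 101008161, 105062661), (28, 16, 16, 84162081, 40120581), (52, 16, 16, 84162066, 40120341), (61, 16, 16, 101008146, 105062421), (120, 16, 16, 68379936, 52838736)]
  [(28, -192), (33, -48), (54, 192), (55, 48), (56, 192), (61, -192), (119, 48), (120, -48)] = true := by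
  decide +kernel

theorem t42_1_7 : chkS lk42 0 5 [(1, m42_1)] l42_7
  [(28, 16, 16, 50746401, 70410501), (56, 16, 16, 101004306, 105000981), (56, 16, 16, 101004321, 105001221), (61, 16, 16, 67461906, 54927381), (54, 16, 16, 101004306, 105000981), (61, 16, 16, 67331346, 52838421)]
  [(28, 240), (54, -240), (56, 480), (61, -480)] = true := by
  decide +kernel

theorem t42_1_8 : chkS lk42 0 5 [(1, m42_1)] l42_8
  [(32, 16, 16, 218145, 3293445), (26, 1, 1, 4534560, 4534560), (26, 1, 1, 4534530, 4534305), (25, 1, 1, 4337925, 341025), (18, 1, 1, 4395525, 344625), (25, 1, 1, 4272645, 340545)]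
  [(18, -240), (25, -480), (26, 480), (32, 240)] = true := by
  decide +kernel

theorem t42_1_9 : chkS lk42 0 5 [(1, m42_1)] l42_9
  [(34, 16, 16, 341025, 4337925), (72, 16, 16, 344865, 4399365), (57, 16, 16, 341025, 4337925), (72, 16, 16, 214290, 2310165), (124, 16, 16, 1332000, 3416400), (121, 16, 16, 1262880, 2310480)]
  [(34, 240), (57, 240), (121, -240), (124, -240)] = true := by
  decide +kernel

theorem t42_2_2 : chkS lk42 0 5 [(1, m42_2)] l42_2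
  [(77, 16, 16, 87318786, 56905761), (78, 16, 16, 87441666, 73617441), (125, 16, 16, 67461921, 54927621), (93, 16, 16, 87441666, 73617441), (93, 1, 1, 55665666, 55730241), (91, 16, 16, 87318786, 56905761), (125, 16, 16, 67461681, 54923781), (93, 16, 16, 87441426, 73617426), (93, 1, 1, 55664706, 55664706), (91, 16, 16, 87318546, 56905746), (116, 16, 16, 69619971, 70649121), (116, 16, 16, 69619731, 70649106), (101, 16, 16, 86270211, 56886561), (126, 16, 16, 101008161, 105062661), (98, 1, 1, 6562581, 84157206), (99, 1, 1, 39059766, 5510691), (40, 1, 1, 37838901, 50665026), (115, 16, 16, 67523121, 70652421), (101, 16, 16, 86269971, 56886546), (126, 16, 16, 101007921, 105058821), (98, 1, 1, 6562101, 84153126), (99, 1, 1, 39060246, 5514771), (40, 1, 1, 37839621, 50669121), (115, 16, 16, 67523361, 70656261), (98, 16, 16, 100946481, 104075781), (98, 16, 16, 100946721,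 104079621), (76, 16, 16, 87318786, 56905761), (45, 16, 16, 69619971, 70649121), (90, 1, 1, 55649286, 5399361), (90, 1, 1, 55648326, 5333826), (99, 16, 16, 86392851, 73598226), (40, 16, 16, 69558531, 54920481), (99, 16, 16, 86393091, 73598241), (40, 16, 16, 69558291, 54920466), (115, 16, 16, 86393091, 73598241), (115, 16, 16, 86392851, 73598226), (45, 1, 1, 37970181, 50677281), (44, 16, 16, 69558531, 54920481), (90, 16, 16, 87441666, 73617441), (116, 16, 16, 84296241, 73601541), (90, 16, 16, 87441426, 73617426), (116, 16, 16, 84296481, 73605381)]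
  [(40, -192), (44, -96), (45, -96), (76, 48), (77, 96), (78, 48), (90, -192), (91, 96), (93, 192), (98, 192), (99, -192), (101, 96), (115, -192), (116, -96), (125, 192), (126, 96)] = true := by
  decide +kernel

theorem t42_2_3 : chkS lk42 0 5 [(1, m42_2)] l42_3
  [(49, 1, 1, 54939906, 70606881), (93, 1, 1, 21378336, 69546336), (92, 1, 1, 21194016, 52773216), (93, 1, 1, 21377616, 68498016), (92, 1, 1, 21193296, 51724896), (87, 1, 1, 21177936, 34947936), (42, 1, 1, 21385986, 70590561), (96, 1, 1, 22426626, 72495201), (39, 1, 1, 22176516, 55583841), (89, 1, 1, 22225926, 5391201), (42, 1, 1, 21385266, 70586466), (96, 1, 1, 22425666, 72429666), (39, 1, 1, 22175796, 55579746), (89, 1, 1, 22224966, 5325666), (99, 16, 16, 100946481, 104075781), (99, 16, 16, 100946721, 104079621), (89, 1, 1, 55649286, 5399361), (89, 1, 1, 55648326, 5333826), (103, 16, 16, 84173361,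 56889861), (103, 16, 16, 84173601, 56893701), (113, 1, 1, 20981331, 34931556), (43, 1, 1, 55730436, 55600161), (114, 1, 1, 22029366, 5378916), (114, 1, 1, 22029126, 5317476)]
  [(39, -96), (42, 96), (43, -144), (49, 144), (87, 96), (89, -192), (92, 192), (93, 288), (96, 96), (99, 96), (103, -192), (113, -96), (114, -288)] = true := by
  decide +kernel

theorem t42_2_4 : chkS lk42 0 5 [(1, m42_2)] l42_4
  [(78, 16, 16, 87441666, 73617441), (77, 16, 16, 87318786, 56905761), (93, 16, 16, 87441666, 73617441), (125, 16, 16, 67461921, 54927621), (91, 16, 16, 87318786, 56905761), (93, 1, 1, 55665666, 55730241), (93, 16, 16, 87441426, 73617426), (125, 16, 16, 67461681, 54923781), (91, 16, 16, 87318546, 56905746), (93, 1, 1, 55664706, 55664706), (116, 16, 16, 69619731, 70649106), (116, 16, 16, 69619971, 70649121), (102, 16, 16, 86393091, 73598241), (96, 16, 16, 70668546,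 70668321), (99, 1, 1, 39059766, 5510691), (98, 1, 1, 6562581, 84157206), (41, 1, 1, 37838901, 50665026), (90, 16, 16, 69619971, 70649121), (102, 16, 16, 86392851, 73598226), (96, 16, 16, 70668306, 70668306), (99, 1, 1, 39060246, 5514771), (98, 1, 1, 6562101, 84153126), (41, 1, 1, 37839621, 50669121), (90, 16, 16, 69619731, 70649106), (41, 16, 16, 69619971, 70649121), (41, 16, 16, 69619731, 70649106), (45, 16, 16, 69619971, 70649121), (76, 16, 16, 87318786, 56905761), (88, 16, 16, 87318786, 56905761), (88, 16, 16, 87318546, 56905746), (40, 16, 16, 69558531, 54920481), (99, 16, 16, 86392851, 73598226), (40, 16, 16, 69558291, 54920466), (99, 16, 16, 86393091, 73598241), (115, 16, 16, 86392851, 73598226), (115, 16, 16, 86393091, 73598241), (44, 16, 16, 69558531, 54920481), (45, 1, 1, 37970181, 50677281), (116, 16, 16, 84296241, 73601541), (90, 16, 16, 87441666,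 73617441), (116, 16, 16, 84296481, 73605381), (90, 16, 16, 87441426, 73617426)]
  [(40, -96), (44, -48), (45, -48), (76, -48), (77, 48), (78, 96), (88, -96), (90, -288), (91, 96), (93, 288), (96, 96), (98, -96), (102, 96), (115, -96), (125, 96)] = true := by
  decide +kernel

theorem t42_2_5 : chkS lk42 0 5 [(1, m42_2)] l42_5
  [(93, 1, 1, 55665666, 55730241), (125, 16, 16, 67461921, 54927621), (91, 16, 16, 87318786, 56905761), (77, 16, 16, 87318786, 56905761), (93, 16, 16, 87441666, 73617441), (78, 16, 16, 87441666, 73617441), (93, 1, 1, 55664706, 55664706), (125, 16, 16, 67461681, 54923781), (91, 16, 16, 87318546, 56905746), (93, 16, 16, 87441426, 73617426), (116, 16, 16, 69619971, 70649121), (116, 16, 16, 69619731, 70649106), (41, 1, 1, 37838901, 50665026), (40, 1, 1, 37838901, 50665026), (101, 16, 16, 86270211, 56886561), (102, 16, 16, 86393091, 73598241),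 (90, 16, 16, 69619971, 70649121), (115, 16, 16, 67523121, 70652421), (126, 16, 16, 101008161, 105062661), (96, 16, 16, 70668546, 70668321), (41, 1, 1, 37839621, 50669121), (40, 1, 1, 37839621, 50669121), (101, 16, 16, 86269971, 56886546), (102, 16, 16, 86392851, 73598226), (90, 16, 16, 69619731, 70649106), (115, 16, 16, 67523361, 70656261), (126, 16, 16, 101007921, 105058821), (96, 16, 16, 70668306, 70668306), (88, 16, 16, 87318786, 56905761), (90, 1, 1, 55649286, 5399361), (98, 16, 16, 100946481, 104075781), (41, 16, 16, 69619971, 70649121), (88, 16, 16, 87318546, 56905746), (90, 1, 1, 55648326, 5333826), (98, 16, 16, 100946721, 104079621), (41, 16, 16, 69619731, 70649106), (115, 16, 16, 86393091, 73598241), (99, 16, 16, 86393091, 73598241), (115, 16, 16, 86392851, 73598226), (99, 16, 16, 86392851, 73598226), (40, 16, 16, 69558291, 54920466), (40, 16, 16,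 69558531, 54920481), (90, 16, 16, 87441666, 73617441), (45, 1, 1, 37970181, 50677281), (116, 16, 16, 84296241, 73601541), (44, 16, 16, 69558531, 54920481), (90, 16, 16, 87441426, 73617426), (116, 16, 16, 84296481, 73605381)]
  [(40, -96), (44, -48), (45, -48), (77, 48), (78, 48), (88, 48), (91, 144), (93, 240), (96, -48), (98, -48), (99, -144), (101, -48), (102, -48), (115, -96), (116, 48), (125, 96), (126, -48)] = true := by
  decide +kernel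

theorem t42_2_6 : chkS lk42 0 5 [(1, m42_2)] l42_6
  [(92, 1, 1, 21194016, 52773216), (93, 1, 1, 21378336, 69546336), (49, 1, 1, 54939906, 70606881), (92, 1, 1, 21193296, 51724896), (93, 1, 1, 21377616, 68498016), (87, 1, 1, 21177936, 34947936), (39, 1, 1, 22176516, 55583841), (42, 1, 1, 21385986, 70590561), (89, 1, 1, 22225926, 5391201), (96, 1, 1, 22426626, 72495201), (39, 1, 1, 22175796, 55579746), (42, 1, 1, 21385266, 70586466), (89, 1, 1, 22224966, 5325666), (96, 1, 1, 22425666, 72429666), (89, 1, 1, 55649286, 5399361), (99, 16, 16, 100946481, 104075781), (89, 1, 1, 55648326, 5333826), (99, 16, 16, 100946721, 104079621), (113, 1, 1, 20981331, 34931556), (103, 16, 16, 84173601, 56893701), (103, 16, 16, 84173361, 56889861), (114, 1, 1, 22029366, 5378916), (43, 1, 1, 55730436, 55600161), (114, 1, 1, 22029126, 5317476)]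
  [(39, 96), (42, -96), (43, -96), (49, 96), (87, 144), (89, 192), (92, 288), (93, 192), (96, -96), (99, -96), (103, -288), (113, -144), (114, -192)] = true := by
  decide +kernel

theorem t42_2_7 : chkS lk42 0 5 [(1, m42_2)] l42_7
  [(104, 16, 16, 103043091, 104072466), (104, 16, 16, 103043331, 104072481), (79, 16, 16, 104091906, 104091681), (45, 1, 1, 106111236, 105923361), (41, 1, 1, 105979956, 105911106), (41, 1, 1, 105980676, 105915201)]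
  [(41, -480), (45, -240), (79, 240), (104, 480)] = true := by
  decide +kernel

theorem t42_2_8 : chkS lk42 0 5 [(1, m42_2)] l42_8
  [(105, 16, 16, 2379795, 3409170), (105, 16, 16, 2380035, 3409185), (80, 16, 16, 3428610, 3428385), (48, 16, 16, 2441475, 4392225), (21, 16, 16, 4399365, 344865), (21, 16, 16, 4399125, 344850)]
  [(21, -480), (48, -240), (80, 240), (105, 480)] = true := by
  decide +kernel

theorem t42_2_9 : chkS lk42 0 5 [(1, m42_2)] l42_9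
  [(110, 16, 16, 283185, 3412485), (110, 16, 16, 283425, 3416325), (127, 16, 16, 344865, 4399365), (122, 16, 16, 2379795, 3409170), (122, 16, 16, 2380035, 3409185), (7, 16, 16, 344865, 4399365)]
  [(7, -240), (110, 480), (122, -480), (127, 240)] = true := by
  decide +kernel

theorem t42_3_3 : chkS lk42 0 5 [(1, m42_3)] l42_3
  [(2, 16, 16, 35017776, 70391376), (91, 16, 16, 68571936, 70656336), (91, 16, 16, 68510496, 54927696), (91, 16, 16, 68571696, 70652496), (91, 16, 16, 68510256, 54923856), (1, 16, 16, 34879056, 34879056), (17, 16, 16, 70668306, 70668306), (94, 16, 16, 85345056, 73605456), (40, 1, 1, 22176516, 55583841), (9, 16, 16, 38162691, 70583841), (17, 16, 16, 70668546, 70668321), (94, 16, 16, 85344816, 73601616), (40, 1, 1, 22175796, 55579746), (9, 16, 16, 38162451, 70583826), (40, 16, 16, 85344816, 73601616), (40, 16, 16, 85345056, 73605456), (117,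 16, 16, 101995056, 104075856), (117, 16, 16, 101995296, 104079696), (40, 16, 16, 85221936, 56889936), (40, 16, 16, 85222176, 56893776), (9, 1, 1, 69408336, 35013936), (44, 16, 16, 87318786, 56905761), (117, 16, 16, 102056496, 105058896), (117, 16, 16, 102056736, 105062736)]
  [(1, 96), (2, 144), (9, -192), (17, 96), (40, -192), (44, -144), (91, 480), (94, 96), (117, -384)] = true := by
  decide +kernel

theorem t42_3_4 : chkS lk42 0 5 [(1, m42_3)] l42_4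
  [(49, 16, 16, 70607106, 54939681), (49, 16, 16, 70668546, 70668321), (92, 16, 16, 68571936, 70656336), (93, 16, 16, 68571936, 70656336), (92, 16, 16, 68510496, 54927696), (93, 16, 16, 68510496, 54927696), (92, 16, 16, 68571696, 70652496), (93, 16, 16, 68571696, 70652496), (92, 16, 16, 68510256, 54923856), (93, 16, 16, 68510256, 54923856), (87, 16, 16, 68571696, 70652496), (87, 16, 16, 68571936, 70656336), (42, 16, 16, 68510496, 54927696), (92, 16, 16, 85345056, 73605456), (103, 1, 1, 5645076, 72360726), (99, 1, 1, 6562581, 84157206), (99, 1, 1, 6439701, 84091926), (87, 16, 16, 70668546, 70668321), (42, 16, 16, 68510256, 54923856), (92, 16, 16, 85344816, 73601616), (103, 1, 1, 5644596, 72356646), (99, 1, 1, 6562101, 84153126), (99, 1, 1, 6439221, 84087846), (87, 16, 16, 70668306, 70668306), (39, 16, 16, 85344816, 73601616), (39, 16, 16, 85345056, 73605456),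 (43, 16, 16, 87441666, 73617441), (45, 16, 16, 87441666, 73617441), (89, 16, 16, 87318786, 56905761), (89, 16, 16, 87318546, 56905746), (39, 16, 16, 85221936, 56889936), (41, 16, 16, 85221936, 56889936), (39, 16, 16, 85222176, 56893776), (41, 16, 16, 85222176, 56893776), (89, 16, 16, 85344816, 73601616), (89, 16, 16, 85345056, 73605456), (43, 16, 16, 87318786, 56905761), (45, 16, 16, 87318786, 56905761), (114, 16, 16, 85344816, 73601616), (89, 16, 16, 87441666, 73617441), (114, 16, 16, 85345056, 73605456), (89, 16, 16, 87441426, 73617426)]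
  [(41, -96), (42, 96), (45, -144), (49, 144), (89, -384), (92, 384), (93, 192), (99, -192), (103, 96), (114, -96)] = true := by
  decide +kernel

theorem t42_3_5 : chkS lk42 0 5 [(1, m42_3)] l42_5
  [(93, 16, 16, 68510496, 54927696), (93, 16, 16, 68571936, 70656336), (92, 16, 16, 68510496, 54927696), (49, 16, 16, 70668546, 70668321), (92, 16, 16, 68571936, 70656336), (49, 16, 16, 70607106, 54939681), (93, 16, 16, 68510256, 54923856), (93, 16, 16, 68571696, 70652496), (92, 16, 16, 68510256, 54923856), (92, 16, 16, 68571696, 70652496), (87, 16, 16, 68571936, 70656336), (87, 16, 16, 68571696, 70652496), (99, 1, 1, 6439701, 84091926), (103, 1, 1, 5399316, 55583766), (42, 16, 16, 68571936, 70656336), (42, 16, 16, 68510496, 54927696), (87, 16, 16, 70668546, 70668321), (113, 16, 16, 68571696, 70652496), (96, 16, 16, 85345056, 73605456), (92, 16, 16, 85345056, 73605456),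 (99, 1, 1, 6439221, 84087846), (103, 1, 1, 5398836, 55579686), (42, 16, 16, 68571696, 70652496), (42, 16, 16, 68510256, 54923856), (87, 16, 16, 70668306, 70668306), (113, 16, 16, 68571936, 70656336), (96, 16, 16, 85344816, 73601616), (92, 16, 16, 85344816, 73601616), (89, 16, 16, 87318786, 56905761), (114, 16, 16, 85221936, 56889936), (41, 16, 16, 85344816, 73601616), (39, 16, 16, 85344816, 73601616), (89, 16, 16, 87318546, 56905746), (114, 16, 16, 85222176, 56893776), (41, 16, 16, 85345056, 73605456), (39, 16, 16, 85345056, 73605456), (89, 16, 16, 85345056, 73605456), (41, 16, 16, 85222176, 56893776), (89, 16, 16, 85344816, 73601616), (41, 16, 16, 85221936, 56889936), (39, 16, 16, 85222176, 56893776), (39, 16, 16, 85221936, 56889936), (89, 16, 16, 87441666, 73617441), (45, 16, 16, 87318786, 56905761), (114, 16, 16, 85344816, 73601616), (43, 16, 16, 87318786,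 56905761), (89, 16, 16, 87441426, 73617426), (114, 16, 16, 85345056, 73605456)]
  [(39, -192), (41, -192), (42, -96), (43, -48), (45, -48), (49, 96), (87, 192), (89, -192), (92, 192), (93, 240), (96, -48), (99, 48), (103, 48), (113, 48), (114, -48)] = true := by
  decide +kernel

theorem t42_3_6 : chkS lk42 0 5 [(1, m42_3)] l42_6
  [(91, 16, 16, 68510496, 54927696), (91, 16, 16, 68571936, 70656336), (2, 16, 16, 35017776, 70391376), (91, 16, 16, 68510256, 54923856), (91, 16, 16, 68571696, 70652496), (1, 16, 16, 34879056, 34879056), (40, 1, 1, 22176516, 55583841), (17, 16, 16, 70668306, 70668306), (9, 16, 16, 38162691, 70583841), (94, 16, 16, 85345056, 73605456), (40, 1, 1, 22175796, 55579746), (17, 16, 16, 70668546, 70668321), (9, 16, 16, 38162451, 70583826), (94, 16, 16, 85344816, 73601616), (117, 16, 16, 101995056, 104075856), (40, 16, 16, 85344816, 73601616),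 (117, 16, 16, 101995296, 104079696), (40, 16, 16, 85345056, 73605456), (9, 1, 1, 69408336, 35013936), (40, 16, 16, 85222176, 56893776), (40, 16, 16, 85221936, 56889936), (117, 16, 16, 102056496, 105058896), (44, 16, 16, 87318786, 56905761), (117, 16, 16, 102056736, 105062736)]
  [(1, 144), (2, 96), (9, -48), (17, -96), (40, -288), (44, -96), (91, 480), (94, -96), (117, -96)] = true := by
  decide +kernel

theorem t42_3_7 : chkS lk42 0 5 [(1, m42_3)] l42_7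
  [(42, 16, 16, 102056496, 105058896), (42, 16, 16, 102056736, 105062736), (49, 16, 16, 104153346, 105074721), (46, 16, 16, 104153346, 105074721), (100, 1, 1, 73532181, 84288531), (100, 1, 1, 73409301, 84288276)]
  [(42, 480), (46, -240), (49, 240), (100, -480)] = true := by
  decide +kernel

theorem t42_3_8 : chkS lk42 0 5 [(1, m42_3)] l42_8
  [(24, 1, 1, 4534785, 4534785), (24, 1, 1, 4534305, 4534530), (50, 16, 16, 3490050, 4411425), (47, 16, 16, 3490050, 4411425), (106, 1, 1, 5374740, 5252115), (106, 1, 1, 5251860, 5251860)]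
  [(24, 480), (47, -240), (50, 240), (106, -480)] = true := by
  decide +kernel

theorem t42_3_9 : chkS lk42 0 5 [(1, m42_3)] l42_9
  [(15, 16, 16, 3428610, 3428385), (15, 16, 16, 3428370, 3428370), (8, 16, 16, 1393440, 4399440), (118, 16, 16, 1331760, 3412560), (118, 16, 16, 1332000, 3416400), (5, 16, 16, 1393440, 4399440)]
  [(5, -240), (8, 240), (15, 480), (118, -480)] = true := by
  decide +kernel

theorem t42_4_4 : chkS lk42 0 5 [(1, m42_4)] l42_4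
  [(77, 16, 16, 87441666, 73617441), (78, 16, 16, 87318786, 56905761), (91, 16, 16, 87441666, 73617441), (93, 1, 1, 55972866, 72507441), (93, 16, 16, 87318786, 56905761), (125, 16, 16, 67523361, 70656261), (91, 16, 16, 87441426, 73617426), (93, 1, 1, 55971906, 72441906), (93, 16, 16, 87318546, 56905746), (125, 16, 16, 67523121, 70652421), (116, 16, 16, 69558291, 54920466), (116, 16, 16, 69558531, 54920481), (101, 16, 16, 86393091, 73598241), (94, 16, 16, 70668546, 70668321), (40, 1, 1, 38146101, 67442226), (41, 1, 1, 38146101, 67442226), (98, 1, 1, 6439701, 84091926), (90, 16, 16, 69558531, 54920481), (101, 16, 16, 86392851, 73598226), (94, 16, 16, 70668306, 70668306), (40, 1, 1, 38146821, 67446321), (41, 1, 1, 38146821, 67446321), (98, 1, 1, 6439221, 84087846), (90, 16, 16, 69558291, 54920466), (40, 16, 16, 69619971, 70649121), (40, 16, 16, 69619731, 70649106),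 (44, 16, 16, 69619971, 70649121), (45, 1, 1, 38154501, 67450401), (90, 16, 16, 87318786, 56905761), (90, 16, 16, 87318546, 56905746), (41, 16, 16, 69558531, 54920481), (98, 16, 16, 101007921, 105058821), (41, 16, 16, 69558291, 54920466), (98, 16, 16, 101008161, 105062661), (90, 1, 1, 37950816, 19220016), (90, 1, 1, 37951056, 34948656), (45, 16, 16, 69558531, 54920481), (76, 16, 16, 87441666, 73617441), (90, 1, 1, 55710726, 5399601), (88, 16, 16, 87441666, 73617441), (90, 1, 1, 55709766, 5334066), (88, 16, 16, 87441426, 73617426)]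
  [(40, 192), (41, -192), (44, 48), (45, -96), (76, -96), (77, 96), (78, 48), (88, -192), (90, -384), (91, 192), (93, 192), (94, 96), (98, -192), (101, 96), (116, 96), (125, 96)] = true := by
  decide +kernel

theorem t42_4_5 : chkS lk42 0 5 [(1, m42_4)] l42_5
  [(125, 16, 16, 67523361, 70656261), (93, 1, 1, 55972866, 72507441), (93, 16, 16, 87318786, 56905761), (78, 16, 16, 87318786, 56905761), (91, 16, 16, 87441666, 73617441), (77, 16, 16, 87441666, 73617441), (125, 16, 16, 67523121, 70652421), (93, 1, 1, 55971906, 72441906), (93, 16, 16, 87318546, 56905746), (91, 16, 16, 87441426, 73617426), (116, 16, 16, 69558531, 54920481), (116, 16, 16, 69558291, 54920466), (98, 1, 1, 6439701, 84091926), (99, 1, 1, 38814006, 5445156), (102, 16, 16, 86270211, 56886561), (101, 16, 16, 86393091, 73598241), (90, 16, 16, 69558531, 54920481), (115, 16, 16, 67461681, 54923781),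 (96, 1, 1, 54924576, 69558576), (94, 16, 16, 70668546, 70668321), (98, 1, 1, 6439221, 84087846), (99, 1, 1, 38814486, 5449236), (102, 16, 16, 86269971, 56886546), (101, 16, 16, 86392851, 73598226), (90, 16, 16, 69558291, 54920466), (115, 16, 16, 67461921, 54927621), (96, 1, 1, 54923856, 68510256), (94, 16, 16, 70668306, 70668306), (90, 16, 16, 87318786, 56905761), (116, 16, 16, 84173361, 56889861), (99, 16, 16, 86269971, 56886546), (40, 16, 16, 69619971, 70649121), (90, 16, 16, 87318546, 56905746), (116, 16, 16, 84173601, 56893701), (99, 16, 16, 86270211, 56886561), (40, 16, 16, 69619731, 70649106), (90, 1, 1, 37951056, 34948656), (98, 16, 16, 101008161, 105062661), (90, 1, 1, 37950816, 19220016), (98, 16, 16, 101007921, 105058821), (41, 16, 16, 69558291, 54920466), (41, 16, 16, 69558531, 54920481), (88, 16, 16, 87441666, 73617441), (76, 16, 16, 87441666, 73617441),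 (90, 1, 1, 55710726, 5399601), (45, 16, 16, 69558531, 54920481), (88, 16, 16, 87441426, 73617426), (90, 1, 1, 55709766, 5334066)]
  [(40, -48), (41, -144), (45, -48), (76, -48), (77, 48), (78, 48), (88, -96), (90, -144), (91, 96), (93, 240), (94, -48), (96, -48), (98, -96), (101, -48), (102, -48), (115, 48), (116, 192), (125, 144)] = true := by
  decide +kernel

theorem t42_4_6 : chkS lk42 0 5 [(1, m42_4)] l42_6
  [(93, 1, 1, 21194016, 52773216), (92, 1, 1, 21378336, 69546336), (49, 1, 1, 54878466, 54878241), (93, 1, 1, 21193296, 51724896), (92, 1, 1, 21377616, 68498016), (87, 1, 1, 21116496, 34944096), (41, 1, 1, 22176516, 55583841), (42, 1, 1, 21324546, 54861921), (89, 1, 1, 22164486, 5387361), (92, 1, 1, 22426626, 72495201), (41, 1, 1, 22175796, 55579746), (42, 1, 1, 21323826, 54857826), (89, 1, 1, 22163526, 5321826), (92, 1, 1, 22425666, 72429666), (114,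 1, 1, 22152246, 5379171), (103, 16, 16, 84296241, 73601541), (114, 1, 1, 22152006, 5317731), (103, 16, 16, 84296481, 73605381), (87, 1, 1, 54662736, 34956336), (99, 16, 16, 101008161, 105062661), (99, 16, 16, 101007921, 105058821), (89, 1, 1, 55710726, 5399601), (45, 1, 1, 55730436, 55600161), (89, 1, 1, 55709766, 5334066)]
  [(41, 96), (42, -96), (45, -96), (49, 96), (89, -96), (92, 96), (93, 288), (99, -288), (103, -96), (114, 96)] = true := by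
  decide +kernel

theorem t42_4_7 : chkS lk42 0 5 [(1, m42_4)] l42_7
  [(42, 1, 1, 105189426, 105189426), (42, 1, 1, 105190146, 105193521), (49, 1, 1, 105197826, 105197601), (45, 1, 1, 106049796, 105919521), (41, 1, 1, 106042116, 105915441), (41, 1, 1, 106041396, 105911346)]
  [(41, -480), (42, 480), (45, -240), (49, 240)] = true := by
  decide +kernel

theorem t42_4_8 : chkS lk42 0 5 [(1, m42_4)] l42_8
  [(24, 16, 16, 3490050, 4411425), (24, 16, 16, 3489810, 4411410), (50, 1, 1, 4534530, 4534305), (48, 16, 16, 2380035, 3409185), (21, 16, 16, 4337685, 341010), (21, 16, 16, 4337925, 341025)]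
  [(21, -480), (24, 480), (48, -240), (50, 240)] = true := by
  decide +kernel

theorem t42_4_9 : chkS lk42 0 5 [(1, m42_4)] l42_9
  [(110, 16, 16, 344625, 4395525), (110, 16, 16, 344865, 4399365), (10, 16, 16, 1393440, 4399440), (128, 16, 16, 2379795, 3409170), (128, 16, 16, 2380035, 3409185), (7, 16, 16, 283425, 3416325)]
  [(7, -240), (10, 240), (110, 480), (128, -480)] = true := by
  decide +kernel

theorem t42_5_5 : chkS lk42 0 5 [(1, m42_5)] l42_5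
  [(77, 16, 16, 87115266, 40063041), (91, 16, 16, 87115266, 40063041), (78, 16, 16, 87122946, 56774721), (93, 16, 16, 87122946, 56774721), (93, 1, 1, 55842306, 39084081), (125, 16, 16, 67327521, 37110021), (125, 16, 16, 67262001, 37098501), (116, 16, 16, 69297411, 52823361), (93, 16, 16, 87057426, 56774676), (116, 16, 16, 69231891, 52823316), (93, 1, 1, 55580226, 38887476), (91, 16, 16, 87049746, 40062996), (98, 1, 1, 6504981, 84099606), (99, 1, 1, 38879286, 5445186), (96, 16, 16, 70345986, 52842561), (126, 16, 16, 100881441, 103956741), (41, 1, 1, 37754421, 33887796), (40, 1, 1, 37754421, 33887796), (94, 16, 16, 70342146, 37113921), (96, 1, 1, 54859296, 38101296), (76, 16, 16, 87115266, 40063041), (45, 16, 16, 69297411, 52823361), (41, 16, 16, 69297411, 52823361), (98, 16, 16, 100812081, 102962181), (88, 16, 16, 87049746, 40062996), (90, 1, 1, 55579206, 5333556),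 (90, 1, 1, 38146896, 68494896), (90, 1, 1, 38081376, 21308976), (45, 1, 1, 37828101, 33896001), (44, 16, 16, 69293571, 37094721), (40, 16, 16, 69293571, 37094721), (99, 16, 16, 86008851, 56755476), (90, 16, 16, 87057426, 56774676), (116, 16, 16, 84108321, 56770821), (115, 16, 16, 86074371, 56755521), (115, 16, 16, 86008851, 56755476), (96, 1, 1, 54662736, 34956336), (126, 16, 16, 100815921, 103945221), (94, 16, 16, 70276626, 37113876), (101, 16, 16, 86001171, 40043796), (96, 16, 16, 70280466, 52842516), (102, 16, 16, 86008851, 56755476), (41, 1, 1, 37950981, 33900081), (98, 1, 1, 6373941, 84087366), (40, 1, 1, 37950981, 33900081), (99, 1, 1, 39010326, 5457426), (90, 16, 16, 69231891, 52823316), (115, 16, 16, 67331361, 52838661)]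
  [(40, -48), (41, -48), (44, 24), (45, 48), (76, 24), (77, 72), (78, 72), (88, 24), (90, -48), (91, 120), (93, 240), (94, -96), (96, -192), (98, -48), (99, -48), (101, -72), (102, -72), (115, -96), (116, 120), (125, 120), (126, -96)] = true := by
  decide +kernel

theorem t42_5_6 : chkS lk42 0 5 [(1, m42_5)] l42_6
  [(49, 1, 1, 54617346, 52781121), (92, 1, 1, 21313056, 38089056), (93, 1, 1, 21324576, 54862176), (93, 1, 1, 21128016, 51717216), (87, 1, 1, 21377616, 68498016), (92, 1, 1, 21116496, 34944096), (41, 1, 1, 22241796, 55591521), (96, 1, 1, 22307586, 55844961), (39, 1, 1, 22226436, 38814561), (92, 1, 1, 22296066, 39071841), (45, 1, 1, 55665156, 55599681), (99, 16, 16, 100812081, 102962181), (89, 1, 1, 55579206, 5333556), (87, 1, 1, 54923856, 68510256), (43, 1, 1, 55649796, 38822721), (103, 16, 16, 84035121, 40047621), (114, 1, 1, 22217286, 5325411),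 (113, 1, 1, 21365331, 68485731), (92, 1, 1, 22033986, 38875236), (96, 1, 1, 22045506, 55648356), (42, 1, 1, 20997426, 52760676), (39, 1, 1, 22029876, 38802276), (41, 1, 1, 22045236, 55579236), (89, 1, 1, 22032966, 5321316)]
  [(39, -48), (41, -48), (42, -144), (43, 48), (45, 48), (49, 144), (87, 48), (89, -48), (92, 48), (93, 240), (96, -192), (99, -48), (103, -48), (113, -48), (114, 48)] = true := by
  decide +kernel

theorem t42_5_7 : chkS lk42 0 5 [(1, m42_5)] l42_7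
  [(99, 16, 16, 67265841, 52827141), (96, 1, 1, 106173186, 106176561), (93, 1, 1, 105190176, 105193776), (41, 1, 1, 105910836, 105910836), (41, 1, 1, 106107396, 105923121), (45, 1, 1, 105984516, 105919041)]
  [(41, -480), (45, -240), (93, 240), (96, 240), (99, 240)] = true := by
  decide +kernel

theorem t42_5_8 : chkS lk42 0 5 [(1, m42_5)] l42_8
  [(21, 1, 1, 2315280, 3294480), (97, 16, 16, 3228930, 2314305), (22, 16, 16, 1332000, 3416400), (21, 16, 16, 4272645, 340545), (21, 16, 16, 4207125, 340500), (48, 16, 16, 2184195, 3278145)]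
  [(21, -240), (22, 240), (48, -240), (97, 240)] = true := by
  decide +kernel

theorem t42_5_9 : chkS lk42 0 5 [(1, m42_5)] l42_9
  [(110, 16, 16, 148785, 2298885), (127, 16, 16, 218145, 3293445), (10, 16, 16, 1262880, 2310480), (84, 16, 16, 2180355, 2295105), (128, 16, 16, 2184195, 3278145), (122, 16, 16, 2180355, 2295105)]
  [(10, 240), (84, -240), (110, 240), (122, -240), (127, 240), (128, -240)] = true := by
  decide +kernel

theorem t42_6_6 : chkS lk42 0 5 [(1, m42_6)] l42_6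
  [(2, 16, 16, 34891056, 52696656), (91, 16, 16, 68376096, 37110096), (91, 16, 16, 68379936, 52838736), (91, 16, 16, 68314416, 52827216), (1, 16, 16, 35013456, 68363856), (91, 16, 16, 68310576, 37098576), (40, 1, 1, 22241796, 55591521), (94, 16, 16, 85156896, 56770896), (40, 1, 1, 22226436, 38814561), (94, 16, 16, 85149216, 40059216), (44, 16, 16, 87122946, 56774721), (40, 16, 16, 85091376, 56759376), (117, 16, 16, 101926176, 102973776), (9, 1, 1, 69604176, 68560176), (44, 16, 16, 87115266, 40063041), (40, 16, 16, 85083696, 40047696), (117, 16, 16, 101930016, 103956816), (9, 1, 1, 69611856, 68564256), (94, 16, 16, 85083696, 40047696), (94, 16, 16, 85091376, 56759376), (17, 16, 16, 70345986, 52842561), (40, 1, 1, 22029876, 38802276), (40, 1, 1, 22045236, 55579236), (9, 16, 16, 37774611, 52758036)]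
  [(1, 96), (2, 144), (9, -192), (17, -144), (40, -192), (44, 96), (91, 480), (94, -384), (117, 96)] = true := by
  decide +kernel

theorem t42_6_7 : chkS lk42 0 5 [(1, m42_6)] l42_7
  [(16, 1, 1, 103961601, 103961601), (95, 16, 16, 101930016, 103956816), (95, 16, 16, 101926176, 102973776), (100, 1, 1, 73605141, 84296466), (100, 1, 1, 73597461, 84296211), (46, 16, 16, 103896066, 103960641)]
  [(16, 240), (46, -240), (95, 480), (100, -480)] = true := by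
  decide +kernel

theorem t42_6_8 : chkS lk42 0 5 [(1, m42_6)] l42_8
  [(20, 1, 1, 2315280, 3294480), (23, 1, 1, 5517600, 5517600), (23, 1, 1, 5509920, 5513520), (106, 1, 1, 5447700, 5260050), (106, 1, 1, 5440020, 5259795), (47, 16, 16, 3232770, 3297345)]
  [(20, 240), (23, 480), (47, -240), (106, -480)] = true := by
  decide +kernel

theorem t42_6_9 : chkS lk42 0 5 [(1, m42_6)] l42_9
  [(15, 16, 16, 3232770, 3297345), (8, 16, 16, 1266720, 3293520), (8, 16, 16, 1262880, 2310480), (51, 16, 16, 3228930, 2314305), (118, 16, 16, 1266720, 3293520), (118, 16, 16, 1262880, 2310480)]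
  [(8, 480), (15, 240), (51, -240), (118, -480)] = true := by
  decide +kernel

theorem t42_7_7 : chkS lk42 0 5 [(1, m42_7)] l42_7
  [(81, 16, 16, 105198096, 105198096), (107, 16, 16, 105198096, 105198096), (107, 16, 16, 105194256, 105194256), (102, 16, 16, 73728306, 88477731), (102, 16, 16, 73732146, 88477746), (78, 16, 16, 73732131, 88473906)]
  [(78, -240), (81, 240), (102, -480), (107, 480)] = true := by
  decide +kernel

theorem t42_7_8 : chkS lk42 0 5 [(1, m42_7)] l42_8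
  [(82, 16, 16, 4534800, 4534800), (108, 16, 16, 4534800, 4534800), (108, 16, 16, 4530960, 4530960), (24, 1, 1, 5447700, 5260050), (24, 1, 1, 5440020, 5259795), (50, 16, 16, 5509155, 5505330)]
  [(24, -480), (50, -240), (82, 240), (108, 480)] = true := by
  decide +kernel

theorem t42_7_9 : chkS lk42 0 5 [(1, m42_7)] l42_9
  [(85, 16, 16, 4534800, 4534800), (111, 16, 16, 4530945, 4530945), (111, 16, 16, 4534785, 4534785), (14, 16, 16, 5517825, 5517825), (14, 16, 16, 5509170, 5509170), (14, 16, 16, 5505330, 5509155)]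
  [(14, -720), (85, 240), (111, 480)] = true := by
  decide +kernel

theorem t42_8_8 : chkS lk42 0 5 [(1, m42_8)] l42_8
  [(83, 16, 16, 274960, 274960), (109, 16, 16, 274960, 274960), (109, 16, 16, 271120, 271120), (3, 16, 16, 266275, 262450), (3, 16, 16, 262435, 262435), (0, 16, 16, 148225, 205825)]
  [(0, -240), (3, -480), (83, 240), (109, 480)] = true := by
  decide +kernel

theorem t42_8_9 : chkS lk42 0 5 [(1, m42_8)] l42_9
  [(86, 16, 16, 274960, 274960), (112, 16, 16, 271105, 271105), (112, 16, 16, 274945, 274945), (19, 16, 16, 274945, 274945), (19, 16, 16, 266290, 266290), (19, 16, 16, 262450, 266275)]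
  [(19, -720), (86, 240), (112, 480)] = true := by
  decide +kernel

theorem t42_9_9 : chkS lk42 0 5 [(1, m42_9)] l42_9
  [(129, 16, 16, 274960, 274960), (13, 16, 16, 274960, 274960), (13, 16, 16, 271120, 271120), (13, 16, 16, 144385, 144385), (4, 16, 16, 148240, 205840), (4, 16, 16, 144400, 144400)]
  [(4, -480), (13, 240), (129, 240)] = true := by
  decide +kernel

section

variable {κ ι : Type*} [Fintype κ] [Fintype ι] [Inhabited κ] [Inhabited ι]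

noncomputable def F42_0 (E : Env κ ι) : (Fin 0 → κ) → (Fin 5 → ι) → ℝ := op2 (P10 κ) (P5 ι) (fB E 0 5 m42_0)

noncomputable def F42_1 (E : Env κ ι) : (Fin 0 → κ) → (Fin 5 → ι) → ℝ := op2 (P10 κ) (P5 ι) (fB E 0 5 m42_1)

noncomputable def F42_2 (E : Env κ ι) : (Fin 0 → κ) → (Fin 5 → ι) → ℝ := op2 (P10 κ) (P5 ι) (fB E 0 5 m42_2)

noncomputable def F42_3 (E : Env κ ι) : (Fin 0 → κ) → (Fin 5 → ι) → ℝ := op2 (P10 κ) (P5 ι) (fB E 0 5 m42_3)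

noncomputable def F42_4 (E : Env κ ι) : (Fin 0 → κ) → (Fin 5 → ι) → ℝ := op2 (P10 κ) (P5 ι) (fB E 0 5 m42_4)

noncomputable def F42_5 (E : Env κ ι) : (Fin 0 → κ) → (Fin 5 → ι) → ℝ := op2 (P10 κ) (P5 ι) (fB E 0 5 m42_5)

noncomputable def F42_6 (E : Env κ ι) : (Fin 0 → κ) → (Fin 5 → ι) → ℝ := op2 (P10 κ) (P5 ι) (fB E 0 5 m42_6)

noncomputable def F42_7 (E : Env κ ι) : (Fin 0 → κ) → (Fin 5 → ι) → ℝ := op2 (P10 κ) (P5 ι) (fB E 0 5 m42_7)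

noncomputable def F42_8 (E : Env κ ι) : (Fin 0 → κ) → (Fin 5 → ι) → ℝ := op2 (P10 κ) (P5 ι) (fB E 0 5 m42_8)

noncomputable def F42_9 (E : Env κ ι) : (Fin 0 → κ) → (Fin 5 → ι) → ℝ := op2 (P10 κ) (P5 ι) (fB E 0 5 m42_9)

def r42_0_0 : List (ℕ × ℤ) := [(12, -144), (38, -192), (64, 480), (66, 96), (70, 144), (71, 96), (74, -384), (75, -192), (123, 96)]

theorem h42_0_0 (E : Env κ ι) : ip (F42_0 E) (F42_0 E) = dotS (ek E lk42) r42_0_0 :=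
  op_entryZ E lk42 0 5 _ _ _ _ (pg10 κ) (pg5 ι) m42_0 m42_0 l42_0 z42_0 w42_0 x42_0 (by decide) _ (chkS_sound E lk42 0 5 _ _ _ _ t42_0_0)

def r42_0_1 : List (ℕ × ℤ) := [(12, -48), (38, 96), (66, 192), (70, 48), (71, 192), (74, -288), (75, -144), (123, -48)]

theorem h42_0_1 (E : Env κ ι) : ip (F42_0 E) (F42_1 E) = dotS (ek E lk42) r42_0_1 :=
  op_entryZ E lk42 0 5 _ _ _ _ (pg10 κ) (pg5 ι) m42_0 m42_1 l42_1 z42_1 w42_1 x42_1 (by decide) _ (chkS_sound E lk42 0 5 _ _ _ _ t42_0_1)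

def r42_0_2 : List (ℕ × ℤ) := [(6, -144), (27, 96), (28, -96), (35, -96), (36, -288), (37, -96), (56, 96), (58, 144), (59, 192), (60, -192), (62, 96), (63, 288), (65, 96), (73, -96)]

theorem h42_0_2 (E : Env κ ι) : ip (F42_0 E) (F42_2 E) = dotS (ek E lk42) r42_0_2 :=
  op_entryZ E lk42 0 5 _ _ _ _ (pg10 κ) (pg5 ι) m42_0 m42_2 l42_2 z42_2 w42_2 x42_2 (by decide) _ (chkS_sound E lk42 0 5 _ _ _ _ t42_0_2)

def r42_0_3 : List (ℕ × ℤ) := [(28, 96), (33, -96), (54, 144), (55, 96), (56, 384), (61, 96), (67, -480), (119, -144), (120, -96)]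

theorem h42_0_3 (E : Env κ ι) : ip (F42_0 E) (F42_3 E) = dotS (ek E lk42) r42_0_3 :=
  op_entryZ E lk42 0 5 _ _ _ _ (pg10 κ) (pg5 ι) m42_0 m42_3 l42_3 z42_3 w42_3 x42_3 (by decide) _ (chkS_sound E lk42 0 5 _ _ _ _ t42_0_3)

def r42_0_4 : List (ℕ × ℤ) := [(6, -144), (11, 144), (28, -96), (29, 96), (36, -96), (37, 192), (53, -96), (56, 96), (59, -96), (60, -288), (63, 96), (65, 288), (73, -96)]

theorem h42_0_4 (E : Env κ ι) : ip (F42_0 E) (F42_4 E) = dotS (ek E lk42) r42_0_4 :=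
  op_entryZ E lk42 0 5 _ _ _ _ (pg10 κ) (pg5 ι) m42_0 m42_4 l42_4 z42_4 w42_4 x42_4 (by decide) _ (chkS_sound E lk42 0 5 _ _ _ _ t42_0_4)

def r42_0_5 : List (ℕ × ℤ) := [(6, -96), (11, 48), (27, -48), (28, -144), (29, -48), (35, 48), (36, -48), (37, -48), (53, 48), (56, 144), (58, 48), (59, -48), (60, -240), (62, 192), (63, 48), (65, 48), (73, 96)]

theorem h42_0_5 (E : Env κ ι) : ip (F42_0 E) (F42_5 E) = dotS (ek E lk42) r42_0_5 :=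
  op_entryZ E lk42 0 5 _ _ _ _ (pg10 κ) (pg5 ι) m42_0 m42_5 l42_5 z42_5 w42_5 x42_5 (by decide) _ (chkS_sound E lk42 0 5 _ _ _ _ t42_0_5)

def r42_0_6 : List (ℕ × ℤ) := [(28, -96), (33, -144), (52, 480), (54, 96), (55, 144), (56, 96), (61, -96), (67, -480), (119, -96), (120, 96)]

theorem h42_0_6 (E : Env κ ι) : ip (F42_0 E) (F42_6 E) = dotS (ek E lk42) r42_0_6 :=
  op_entryZ E lk42 0 5 _ _ _ _ (pg10 κ) (pg5 ι) m42_0 m42_6 l42_6 z42_6 w42_6 x42_6 (by decide) _ (chkS_sound E lk42 0 5 _ _ _ _ t42_0_6)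

def r42_0_7 : List (ℕ × ℤ) := [(30, 240), (54, -240), (61, -480), (68, 480)]

theorem h42_0_7 (E : Env κ ι) : ip (F42_0 E) (F42_7 E) = dotS (ek E lk42) r42_0_7 :=
  op_entryZ E lk42 0 5 _ _ _ _ (pg10 κ) (pg5 ι) m42_0 m42_7 l42_7 z42_7 w42_7 x42_7 (by decide) _ (chkS_sound E lk42 0 5 _ _ _ _ t42_0_7)

def r42_0_8 : List (ℕ × ℤ) := [(18, -240), (25, -480), (31, 240), (69, 480)]

theorem h42_0_8 (E : Env κ ι) : ip (F42_0 E) (F42_8 E) = dotS (ek E lk42) r42_0_8 :=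
  op_entryZ E lk42 0 5 _ _ _ _ (pg10 κ) (pg5 ι) m42_0 m42_8 l42_8 z42_8 w42_8 x42_8 (by decide) _ (chkS_sound E lk42 0 5 _ _ _ _ t42_0_8)

def r42_0_9 : List (ℕ × ℤ) := [(34, 240), (57, -240), (72, 480), (121, -480)]

theorem h42_0_9 (E : Env κ ι) : ip (F42_0 E) (F42_9 E) = dotS (ek E lk42) r42_0_9 :=
  op_entryZ E lk42 0 5 _ _ _ _ (pg10 κ) (pg5 ι) m42_0 m42_9 l42_9 z42_9 w42_9 x42_9 (by decide) _ (chkS_sound E lk42 0 5 _ _ _ _ t42_0_9)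

def r42_1_1 : List (ℕ × ℤ) := [(12, 144), (38, 192), (66, -96), (70, 96), (71, 144), (74, -96), (75, -288), (123, -96)]

theorem h42_1_1 (E : Env κ ι) : ip (F42_1 E) (F42_1 E) = dotS (ek E lk42) r42_1_1 :=
  op_entryZ E lk42 0 5 _ _ _ _ (pg10 κ) (pg5 ι) m42_1 m42_1 l42_1 z42_1 w42_1 x42_1 (by decide) _ (chkS_sound E lk42 0 5 _ _ _ _ t42_1_1)

def r42_1_2 : List (ℕ × ℤ) := [(6, -48), (27, -48), (28, 48), (35, -192), (36, -96), (37, -192), (56, 192), (58, 48), (59, -96), (60, 96), (62, 192), (63, 96), (65, 192), (73, -192)]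

theorem h42_1_2 (E : Env κ ι) : ip (F42_1 E) (F42_2 E) = dotS (ek E lk42) r42_1_2 :=
  op_entryZ E lk42 0 5 _ _ _ _ (pg10 κ) (pg5 ι) m42_1 m42_2 l42_2 z42_2 w42_2 x42_2 (by decide) _ (chkS_sound E lk42 0 5 _ _ _ _ t42_1_2)

def r42_1_3 : List (ℕ × ℤ) := [(28, -48), (33, 48), (54, 48), (55, 192), (56, 288), (61, -288), (119, -48), (120, -192)]

theorem h42_1_3 (E : Env κ ι) : ip (F42_1 E) (F42_3 E) = dotS (ek E lk42) r42_1_3 :=
  op_entryZ E lk42 0 5 _ _ _ _ (pg10 κ) (pg5 ι) m42_1 m42_3 l42_3 z42_3 w42_3 x42_3 (by decide) _ (chkS_sound E lk42 0 5 _ _ _ _ t42_1_3)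

def r42_1_4 : List (ℕ × ℤ) := [(6, -48), (11, 48), (28, 48), (29, -48), (36, 288), (37, -96), (53, -192), (56, 192), (59, -192), (60, -96), (63, 192), (65, 96), (73, -192)]

theorem h42_1_4 (E : Env κ ι) : ip (F42_1 E) (F42_4 E) = dotS (ek E lk42) r42_1_4 :=
  op_entryZ E lk42 0 5 _ _ _ _ (pg10 κ) (pg5 ι) m42_1 m42_4 l42_4 z42_4 w42_4 x42_4 (by decide) _ (chkS_sound E lk42 0 5 _ _ _ _ t42_1_4)

def r42_1_5 : List (ℕ × ℤ) := [(6, 48), (11, 96), (27, -96), (28, -48), (29, -96), (35, -144), (36, 144), (37, -96), (53, -144), (56, 48), (58, 96), (59, -96), (62, 144), (63, 96), (65, 96), (73, -48)]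

theorem h42_1_5 (E : Env κ ι) : ip (F42_1 E) (F42_5 E) = dotS (ek E lk42) r42_1_5 :=
  op_entryZ E lk42 0 5 _ _ _ _ (pg10 κ) (pg5 ι) m42_1 m42_5 l42_5 z42_5 w42_5 x42_5 (by decide) _ (chkS_sound E lk42 0 5 _ _ _ _ t42_1_5)

def r42_1_6 : List (ℕ × ℤ) := [(28, -192), (33, -48), (54, 192), (55, 48), (56, 192), (61, -192), (119, 48), (120, -48)]

theorem h42_1_6 (E : Env κ ι) : ip (F42_1 E) (F42_6 E) = dotS (ek E lk42) r42_1_6 :=
  op_entryZ E lk42 0 5 _ _ _ _ (pg10 κ) (pg5 ι) m42_1 m42_6 l42_6 z42_6 w42_6 x42_6 (by decide) _ (chkS_sound E lk42 0 5 _ _ _ _ t42_1_6)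

def r42_1_7 : List (ℕ × ℤ) := [(28, 240), (54, -240), (56, 480), (61, -480)]

theorem h42_1_7 (E : Env κ ι) : ip (F42_1 E) (F42_7 E) = dotS (ek E lk42) r42_1_7 :=
  op_entryZ E lk42 0 5 _ _ _ _ (pg10 κ) (pg5 ι) m42_1 m42_7 l42_7 z42_7 w42_7 x42_7 (by decide) _ (chkS_sound E lk42 0 5 _ _ _ _ t42_1_7)

def r42_1_8 : List (ℕ × ℤ) := [(18, -240), (25, -480), (26, 480), (32, 240)]

theorem h42_1_8 (E : Env κ ι) : ip (F42_1 E) (F42_8 E) = dotS (ek E lk42) r42_1_8 :=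
  op_entryZ E lk42 0 5 _ _ _ _ (pg10 κ) (pg5 ι) m42_1 m42_8 l42_8 z42_8 w42_8 x42_8 (by decide) _ (chkS_sound E lk42 0 5 _ _ _ _ t42_1_8)

def r42_1_9 : List (ℕ × ℤ) := [(34, 240), (57, 240), (121, -240), (124, -240)]

theorem h42_1_9 (E : Env κ ι) : ip (F42_1 E) (F42_9 E) = dotS (ek E lk42) r42_1_9 :=
  op_entryZ E lk42 0 5 _ _ _ _ (pg10 κ) (pg5 ι) m42_1 m42_9 l42_9 z42_9 w42_9 x42_9 (by decide) _ (chkS_sound E lk42 0 5 _ _ _ _ t42_1_9)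

def r42_2_2 : List (ℕ × ℤ) := [(40, -192), (44, -96), (45, -96), (76, 48), (77, 96), (78, 48), (90, -192), (91, 96), (93, 192), (98, 192), (99, -192), (101, 96), (115, -192), (116, -96), (125, 192), (126, 96)]

theorem h42_2_2 (E : Env κ ι) : ip (F42_2 E) (F42_2 E) = dotS (ek E lk42) r42_2_2 :=
  op_entryZ E lk42 0 5 _ _ _ _ (pg10 κ) (pg5 ι) m42_2 m42_2 l42_2 z42_2 w42_2 x42_2 (by decide) _ (chkS_sound E lk42 0 5 _ _ _ _ t42_2_2)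

def r42_2_3 : List (ℕ × ℤ) := [(39, -96), (42, 96), (43, -144), (49, 144), (87, 96), (89, -192), (92, 192), (93, 288), (96, 96), (99, 96), (103, -192), (113, -96), (114, -288)]

theorem h42_2_3 (E : Env κ ι) : ip (F42_2 E) (F42_3 E) = dotS (ek E lk42) r42_2_3 :=
  op_entryZ E lk42 0 5 _ _ _ _ (pg10 κ) (pg5 ι) m42_2 m42_3 l42_3 z42_3 w42_3 x42_3 (by decide) _ (chkS_sound E lk42 0 5 _ _ _ _ t42_2_3)

def r42_2_4 : List (ℕ × ℤ) := [(40, -96), (44, -48), (45, -48), (76, -48), (77, 48), (78, 96), (88, -96), (90, -288), (91, 96), (93, 288), (96, 96), (98, -96), (102, 96), (115, -96), (125, 96)]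

theorem h42_2_4 (E : Env κ ι) : ip (F42_2 E) (F42_4 E) = dotS (ek E lk42) r42_2_4 :=
  op_entryZ E lk42 0 5 _ _ _ _ (pg10 κ) (pg5 ι) m42_2 m42_4 l42_4 z42_4 w42_4 x42_4 (by decide) _ (chkS_sound E lk42 0 5 _ _ _ _ t42_2_4)

def r42_2_5 : List (ℕ × ℤ) := [(40, -96), (44, -48), (45, -48), (77, 48), (78, 48), (88, 48), (91, 144), (93, 240), (96, -48), (98, -48), (99, -144), (101, -48), (102, -48), (115, -96), (116, 48), (125, 96), (126, -48)]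

theorem h42_2_5 (E : Env κ ι) : ip (F42_2 E) (F42_5 E) = dotS (ek E lk42) r42_2_5 :=
  op_entryZ E lk42 0 5 _ _ _ _ (pg10 κ) (pg5 ι) m42_2 m42_5 l42_5 z42_5 w42_5 x42_5 (by decide) _ (chkS_sound E lk42 0 5 _ _ _ _ t42_2_5)

def r42_2_6 : List (ℕ × ℤ) := [(39, 96), (42, -96), (43, -96), (49, 96), (87, 144), (89, 192), (92, 288), (93, 192), (96, -96), (99, -96), (103, -288), (113, -144), (114, -192)]

theorem h42_2_6 (E : Env κ ι) : ip (F42_2 E) (F42_6 E) = dotS (ek E lk42) r42_2_6 :=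
  op_entryZ E lk42 0 5 _ _ _ _ (pg10 κ) (pg5 ι) m42_2 m42_6 l42_6 z42_6 w42_6 x42_6 (by decide) _ (chkS_sound E lk42 0 5 _ _ _ _ t42_2_6)

def r42_2_7 : List (ℕ × ℤ) := [(41, -480), (45, -240), (79, 240), (104, 480)]

theorem h42_2_7 (E : Env κ ι) : ip (F42_2 E) (F42_7 E) = dotS (ek E lk42) r42_2_7 :=
  op_entryZ E lk42 0 5 _ _ _ _ (pg10 κ) (pg5 ι) m42_2 m42_7 l42_7 z42_7 w42_7 x42_7 (by decide) _ (chkS_sound E lk42 0 5 _ _ _ _ t42_2_7)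

def r42_2_8 : List (ℕ × ℤ) := [(21, -480), (48, -240), (80, 240), (105, 480)]

theorem h42_2_8 (E : Env κ ι) : ip (F42_2 E) (F42_8 E) = dotS (ek E lk42) r42_2_8 :=
  op_entryZ E lk42 0 5 _ _ _ _ (pg10 κ) (pg5 ι) m42_2 m42_8 l42_8 z42_8 w42_8 x42_8 (by decide) _ (chkS_sound E lk42 0 5 _ _ _ _ t42_2_8)

def r42_2_9 : List (ℕ × ℤ) := [(7, -240), (110, 480), (122, -480), (127, 240)]

theorem h42_2_9 (E : Env κ ι) : ip (F42_2 E) (F42_9 E) = dotS (ek E lk42) r42_2_9 :=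
  op_entryZ E lk42 0 5 _ _ _ _ (pg10 κ) (pg5 ι) m42_2 m42_9 l42_9 z42_9 w42_9 x42_9 (by decide) _ (chkS_sound E lk42 0 5 _ _ _ _ t42_2_9)

def r42_3_3 : List (ℕ × ℤ) := [(1, 96), (2, 144), (9, -192), (17, 96), (40, -192), (44, -144), (91, 480), (94, 96), (117, -384)]

theorem h42_3_3 (E : Env κ ι) : ip (F42_3 E) (F42_3 E) = dotS (ek E lk42) r42_3_3 :=
  op_entryZ E lk42 0 5 _ _ _ _ (pg10 κ) (pg5 ι) m42_3 m42_3 l42_3 z42_3 w42_3 x42_3 (by decide) _ (chkS_sound E lk42 0 5 _ _ _ _ t42_3_3)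

def r42_3_4 : List (ℕ × ℤ) := [(41, -96), (42, 96), (45, -144), (49, 144), (89, -384), (92, 384), (93, 192), (99, -192), (103, 96), (114, -96)]

theorem h42_3_4 (E : Env κ ι) : ip (F42_3 E) (F42_4 E) = dotS (ek E lk42) r42_3_4 :=
  op_entryZ E lk42 0 5 _ _ _ _ (pg10 κ) (pg5 ι) m42_3 m42_4 l42_4 z42_4 w42_4 x42_4 (by decide) _ (chkS_sound E lk42 0 5 _ _ _ _ t42_3_4)

def r42_3_5 : List (ℕ × ℤ) := [(39, -192), (41, -192), (42, -96), (43, -48), (45, -48), (49, 96), (87, 192), (89, -192), (92, 192), (93, 240), (96, -48), (99, 48), (103, 48), (113, 48), (114, -48)]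

theorem h42_3_5 (E : Env κ ι) : ip (F42_3 E) (F42_5 E) = dotS (ek E lk42) r42_3_5 :=
  op_entryZ E lk42 0 5 _ _ _ _ (pg10 κ) (pg5 ι) m42_3 m42_5 l42_5 z42_5 w42_5 x42_5 (by decide) _ (chkS_sound E lk42 0 5 _ _ _ _ t42_3_5)

def r42_3_6 : List (ℕ × ℤ) := [(1, 144), (2, 96), (9, -48), (17, -96), (40, -288), (44, -96), (91, 480), (94, -96), (117, -96)]

theorem h42_3_6 (E : Env κ ι) : ip (F42_3 E) (F42_6 E) = dotS (ek E lk42) r42_3_6 :=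
  op_entryZ E lk42 0 5 _ _ _ _ (pg10 κ) (pg5 ι) m42_3 m42_6 l42_6 z42_6 w42_6 x42_6 (by decide) _ (chkS_sound E lk42 0 5 _ _ _ _ t42_3_6)

def r42_3_7 : List (ℕ × ℤ) := [(42, 480), (46, -240), (49, 240), (100, -480)]

theorem h42_3_7 (E : Env κ ι) : ip (F42_3 E) (F42_7 E) = dotS (ek E lk42) r42_3_7 :=
  op_entryZ E lk42 0 5 _ _ _ _ (pg10 κ) (pg5 ι) m42_3 m42_7 l42_7 z42_7 w42_7 x42_7 (by decide) _ (chkS_sound E lk42 0 5 _ _ _ _ t42_3_7)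

def r42_3_8 : List (ℕ × ℤ) := [(24, 480), (47, -240), (50, 240), (106, -480)]

theorem h42_3_8 (E : Env κ ι) : ip (F42_3 E) (F42_8 E) = dotS (ek E lk42) r42_3_8 :=
  op_entryZ E lk42 0 5 _ _ _ _ (pg10 κ) (pg5 ι) m42_3 m42_8 l42_8 z42_8 w42_8 x42_8 (by decide) _ (chkS_sound E lk42 0 5 _ _ _ _ t42_3_8)

def r42_3_9 : List (ℕ × ℤ) := [(5, -240), (8, 240), (15, 480), (118, -480)]

theorem h42_3_9 (E : Env κ ι) : ip (F42_3 E) (F42_9 E) = dotS (ek E lk42) r42_3_9 :=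
  op_entryZ E lk42 0 5 _ _ _ _ (pg10 κ) (pg5 ι) m42_3 m42_9 l42_9 z42_9 w42_9 x42_9 (by decide) _ (chkS_sound E lk42 0 5 _ _ _ _ t42_3_9)

def r42_4_4 : List (ℕ × ℤ) := [(40, 192), (41, -192), (44, 48), (45, -96), (76, -96), (77, 96), (78, 48), (88, -192), (90, -384), (91, 192), (93, 192), (94, 96), (98, -192), (101, 96), (116, 96), (125, 96)]

theorem h42_4_4 (E : Env κ ι) : ip (F42_4 E) (F42_4 E) = dotS (ek E lk42) r42_4_4 :=
  op_entryZ E lk42 0 5 _ _ _ _ (pg10 κ) (pg5 ι) m42_4 m42_4 l42_4 z42_4 w42_4 x42_4 (by decide) _ (chkS_sound E lk42 0 5 _ _ _ _ t42_4_4)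

def r42_4_5 : List (ℕ × ℤ) := [(40, -48), (41, -144), (45, -48), (76, -48), (77, 48), (78, 48), (88, -96), (90, -144), (91, 96), (93, 240), (94, -48), (96, -48), (98, -96), (101, -48), (102, -48), (115, 48), (116, 192), (125, 144)]

theorem h42_4_5 (E : Env κ ι) : ip (F42_4 E) (F42_5 E) = dotS (ek E lk42) r42_4_5 :=
  op_entryZ E lk42 0 5 _ _ _ _ (pg10 κ) (pg5 ι) m42_4 m42_5 l42_5 z42_5 w42_5 x42_5 (by decide) _ (chkS_sound E lk42 0 5 _ _ _ _ t42_4_5)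

def r42_4_6 : List (ℕ × ℤ) := [(41, 96), (42, -96), (45, -96), (49, 96), (89, -96), (92, 96), (93, 288), (99, -288), (103, -96), (114, 96)]

theorem h42_4_6 (E : Env κ ι) : ip (F42_4 E) (F42_6 E) = dotS (ek E lk42) r42_4_6 :=
  op_entryZ E lk42 0 5 _ _ _ _ (pg10 κ) (pg5 ι) m42_4 m42_6 l42_6 z42_6 w42_6 x42_6 (by decide) _ (chkS_sound E lk42 0 5 _ _ _ _ t42_4_6)

def r42_4_7 : List (ℕ × ℤ) := [(41, -480), (42, 480), (45, -240), (49, 240)]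

theorem h42_4_7 (E : Env κ ι) : ip (F42_4 E) (F42_7 E) = dotS (ek E lk42) r42_4_7 :=
  op_entryZ E lk42 0 5 _ _ _ _ (pg10 κ) (pg5 ι) m42_4 m42_7 l42_7 z42_7 w42_7 x42_7 (by decide) _ (chkS_sound E lk42 0 5 _ _ _ _ t42_4_7)

def r42_4_8 : List (ℕ × ℤ) := [(21, -480), (24, 480), (48, -240), (50, 240)]

theorem h42_4_8 (E : Env κ ι) : ip (F42_4 E) (F42_8 E) = dotS (ek E lk42) r42_4_8 :=
  op_entryZ E lk42 0 5 _ _ _ _ (pg10 κ) (pg5 ι) m42_4 m42_8 l42_8 z42_8 w42_8 x42_8 (by decide) _ (chkS_sound E lk42 0 5 _ _ _ _ t42_4_8)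

def r42_4_9 : List (ℕ × ℤ) := [(7, -240), (10, 240), (110, 480), (128, -480)]

theorem h42_4_9 (E : Env κ ι) : ip (F42_4 E) (F42_9 E) = dotS (ek E lk42) r42_4_9 :=
  op_entryZ E lk42 0 5 _ _ _ _ (pg10 κ) (pg5 ι) m42_4 m42_9 l42_9 z42_9 w42_9 x42_9 (by decide) _ (chkS_sound E lk42 0 5 _ _ _ _ t42_4_9)

def r42_5_5 : List (ℕ × ℤ) := [(40, -48), (41, -48), (44, 24), (45, 48), (76, 24), (77, 72), (78, 72), (88, 24), (90, -48), (91, 120), (93, 240), (94, -96), (96, -192), (98, -48), (99, -48), (101, -72), (102, -72), (115, -96), (116, 120), (125, 120), (126, -96)]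

theorem h42_5_5 (E : Env κ ι) : ip (F42_5 E) (F42_5 E) = dotS (ek E lk42) r42_5_5 :=
  op_entryZ E lk42 0 5 _ _ _ _ (pg10 κ) (pg5 ι) m42_5 m42_5 l42_5 z42_5 w42_5 x42_5 (by decide) _ (chkS_sound E lk42 0 5 _ _ _ _ t42_5_5)

def r42_5_6 : List (ℕ × ℤ) := [(39, -48), (41, -48), (42, -144), (43, 48), (45, 48), (49, 144), (87, 48), (89, -48), (92, 48), (93, 240), (96, -192), (99, -48), (103, -48), (113, -48), (114, 48)]

theorem h42_5_6 (E : Env κ ι) : ip (F42_5 E) (F42_6 E) = dotS (ek E lk42) r42_5_6 :=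
  op_entryZ E lk42 0 5 _ _ _ _ (pg10 κ) (pg5 ι) m42_5 m42_6 l42_6 z42_6 w42_6 x42_6 (by decide) _ (chkS_sound E lk42 0 5 _ _ _ _ t42_5_6)

def r42_5_7 : List (ℕ × ℤ) := [(41, -480), (45, -240), (93, 240), (96, 240), (99, 240)]

theorem h42_5_7 (E : Env κ ι) : ip (F42_5 E) (F42_7 E) = dotS (ek E lk42) r42_5_7 :=
  op_entryZ E lk42 0 5 _ _ _ _ (pg10 κ) (pg5 ι) m42_5 m42_7 l42_7 z42_7 w42_7 x42_7 (by decide) _ (chkS_sound E lk42 0 5 _ _ _ _ t42_5_7)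

def r42_5_8 : List (ℕ × ℤ) := [(21, -240), (22, 240), (48, -240), (97, 240)]

theorem h42_5_8 (E : Env κ ι) : ip (F42_5 E) (F42_8 E) = dotS (ek E lk42) r42_5_8 :=
  op_entryZ E lk42 0 5 _ _ _ _ (pg10 κ) (pg5 ι) m42_5 m42_8 l42_8 z42_8 w42_8 x42_8 (by decide) _ (chkS_sound E lk42 0 5 _ _ _ _ t42_5_8)

def r42_5_9 : List (ℕ × ℤ) := [(10, 240), (84, -240), (110, 240), (122, -240), (127, 240), (128, -240)]

theorem h42_5_9 (E : Env κ ι) : ip (F42_5 E) (F42_9 E) = dotS (ek E lk42) r42_5_9 :=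
  op_entryZ E lk42 0 5 _ _ _ _ (pg10 κ) (pg5 ι) m42_5 m42_9 l42_9 z42_9 w42_9 x42_9 (by decide) _ (chkS_sound E lk42 0 5 _ _ _ _ t42_5_9)

def r42_6_6 : List (ℕ × ℤ) := [(1, 96), (2, 144), (9, -192), (17, -144), (40, -192), (44, 96), (91, 480), (94, -384), (117, 96)]

theorem h42_6_6 (E : Env κ ι) : ip (F42_6 E) (F42_6 E) = dotS (ek E lk42) r42_6_6 :=
  op_entryZ E lk42 0 5 _ _ _ _ (pg10 κ) (pg5 ι) m42_6 m42_6 l42_6 z42_6 w42_6 x42_6 (by decide) _ (chkS_sound E lk42 0 5 _ _ _ _ t42_6_6)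

def r42_6_7 : List (ℕ × ℤ) := [(16, 240), (46, -240), (95, 480), (100, -480)]

theorem h42_6_7 (E : Env κ ι) : ip (F42_6 E) (F42_7 E) = dotS (ek E lk42) r42_6_7 :=
  op_entryZ E lk42 0 5 _ _ _ _ (pg10 κ) (pg5 ι) m42_6 m42_7 l42_7 z42_7 w42_7 x42_7 (by decide) _ (chkS_sound E lk42 0 5 _ _ _ _ t42_6_7)

def r42_6_8 : List (ℕ × ℤ) := [(20, 240), (23, 480), (47, -240), (106, -480)]

theorem h42_6_8 (E : Env κ ι) : ip (F42_6 E) (F42_8 E) = dotS (ek E lk42) r42_6_8 :=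
  op_entryZ E lk42 0 5 _ _ _ _ (pg10 κ) (pg5 ι) m42_6 m42_8 l42_8 z42_8 w42_8 x42_8 (by decide) _ (chkS_sound E lk42 0 5 _ _ _ _ t42_6_8)

def r42_6_9 : List (ℕ × ℤ) := [(8, 480), (15, 240), (51, -240), (118, -480)]

theorem h42_6_9 (E : Env κ ι) : ip (F42_6 E) (F42_9 E) = dotS (ek E lk42) r42_6_9 :=
  op_entryZ E lk42 0 5 _ _ _ _ (pg10 κ) (pg5 ι) m42_6 m42_9 l42_9 z42_9 w42_9 x42_9 (by decide) _ (chkS_sound E lk42 0 5 _ _ _ _ t42_6_9)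

def r42_7_7 : List (ℕ × ℤ) := [(78, -240), (81, 240), (102, -480), (107, 480)]

theorem h42_7_7 (E : Env κ ι) : ip (F42_7 E) (F42_7 E) = dotS (ek E lk42) r42_7_7 :=
  op_entryZ E lk42 0 5 _ _ _ _ (pg10 κ) (pg5 ι) m42_7 m42_7 l42_7 z42_7 w42_7 x42_7 (by decide) _ (chkS_sound E lk42 0 5 _ _ _ _ t42_7_7)

def r42_7_8 : List (ℕ × ℤ) := [(24, -480), (50, -240), (82, 240), (108, 480)]

theorem h42_7_8 (E : Env κ ι) : ip (F42_7 E) (F42_8 E) = dotS (ek E lk42) r42_7_8 :=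
  op_entryZ E lk42 0 5 _ _ _ _ (pg10 κ) (pg5 ι) m42_7 m42_8 l42_8 z42_8 w42_8 x42_8 (by decide) _ (chkS_sound E lk42 0 5 _ _ _ _ t42_7_8)

def r42_7_9 : List (ℕ × ℤ) := [(14, -720), (85, 240), (111, 480)]

theorem h42_7_9 (E : Env κ ι) : ip (F42_7 E) (F42_9 E) = dotS (ek E lk42) r42_7_9 :=
  op_entryZ E lk42 0 5 _ _ _ _ (pg10 κ) (pg5 ι) m42_7 m42_9 l42_9 z42_9 w42_9 x42_9 (by decide) _ (chkS_sound E lk42 0 5 _ _ _ _ t42_7_9)

def r42_8_8 : List (ℕ × ℤ) := [(0, -240), (3, -480), (83, 240), (109, 480)]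

theorem h42_8_8 (E : Env κ ι) : ip (F42_8 E) (F42_8 E) = dotS (ek E lk42) r42_8_8 :=
  op_entryZ E lk42 0 5 _ _ _ _ (pg10 κ) (pg5 ι) m42_8 m42_8 l42_8 z42_8 w42_8 x42_8 (by decide) _ (chkS_sound E lk42 0 5 _ _ _ _ t42_8_8)

def r42_8_9 : List (ℕ × ℤ) := [(19, -720), (86, 240), (112, 480)]

theorem h42_8_9 (E : Env κ ι) : ip (F42_8 E) (F42_9 E) = dotS (ek E lk42) r42_8_9 :=
  op_entryZ E lk42 0 5 _ _ _ _ (pg10 κ) (pg5 ι) m42_8 m42_9 l42_9 z42_9 w42_9 x42_9 (by decide) _ (chkS_sound E lk42 0 5 _ _ _ _ t42_8_9)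

def r42_9_9 : List (ℕ × ℤ) := [(4, -480), (13, 240), (129, 240)]

theorem h42_9_9 (E : Env κ ι) : ip (F42_9 E) (F42_9 E) = dotS (ek E lk42) r42_9_9 :=
  op_entryZ E lk42 0 5 _ _ _ _ (pg10 κ) (pg5 ι) m42_9 m42_9 l42_9 z42_9 w42_9 x42_9 (by decide) _ (chkS_sound E lk42 0 5 _ _ _ _ t42_9_9)

theorem row42_0 (E : Env κ ι) : RowG (ek E lk42) (F42_0 E) [F42_0 E, F42_1 E, F42_2 E, F42_3 E, F42_4 E, F42_5 E, F42_6 E, F42_7 E, F42_8 E, F42_9 E] [r42_0_0, r42_0_1, r42_0_2, r42_0_3, r42_0_4, r42_0_5, r42_0_6, r42_0_7, r42_0_8, r42_0_9] :=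
  rowG_cons _ _ _ _ _ _ (h42_0_0 E) (rowG_cons _ _ _ _ _ _ (h42_0_1 E) (rowG_cons _ _ _ _ _ _ (h42_0_2 E) (rowG_cons _ _ _ _ _ _ (h42_0_3 E) (rowG_cons _ _ _ _ _ _ (h42_0_4 E) (rowG_cons _ _ _ _ _ _ (h42_0_5 E) (rowG_cons _ _ _ _ _ _ (h42_0_6 E) (rowG_cons _ _ _ _ _ _ (h42_0_7 E) (rowG_cons _ _ _ _ _ _ (h42_0_8 E) (rowG_cons _ _ _ _ _ _ (h42_0_9 E) (rowG_nil _ _))))))))))

theorem row42_1 (E : Env κ ι) : RowG (ek E lk42) (F42_1 E) [F42_1 E, F42_2 E, F42_3 E, F42_4 E, F42_5 E, F42_6 E, F42_7 E, F42_8 E, F42_9 E] [r42_1_1, r42_1_2, r42_1_3, r42_1_4, r42_1_5, r42_1_6, r42_1_7, r42_1_8, r42_1_9] :=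
  rowG_cons _ _ _ _ _ _ (h42_1_1 E) (rowG_cons _ _ _ _ _ _ (h42_1_2 E) (rowG_cons _ _ _ _ _ _ (h42_1_3 E) (rowG_cons _ _ _ _ _ _ (h42_1_4 E) (rowG_cons _ _ _ _ _ _ (h42_1_5 E) (rowG_cons _ _ _ _ _ _ (h42_1_6 E) (rowG_cons _ _ _ _ _ _ (h42_1_7 E) (rowG_cons _ _ _ _ _ _ (h42_1_8 E) (rowG_cons _ _ _ _ _ _ (h42_1_9 E) (rowG_nil _ _)))))))))

theorem row42_2 (E : Env κ ι) : RowG (ek E lk42) (F42_2 E) [F42_2 E, F42_3 E, F42_4 E, F42_5 E, F42_6 E, F42_7 E, F42_8 E, F42_9 E] [r42_2_2, r42_2_3, r42_2_4, r42_2_5, r42_2_6, r42_2_7, r42_2_8, r42_2_9] :=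
  rowG_cons _ _ _ _ _ _ (h42_2_2 E) (rowG_cons _ _ _ _ _ _ (h42_2_3 E) (rowG_cons _ _ _ _ _ _ (h42_2_4 E) (rowG_cons _ _ _ _ _ _ (h42_2_5 E) (rowG_cons _ _ _ _ _ _ (h42_2_6 E) (rowG_cons _ _ _ _ _ _ (h42_2_7 E) (rowG_cons _ _ _ _ _ _ (h42_2_8 E) (rowG_cons _ _ _ _ _ _ (h42_2_9 E) (rowG_nil _ _))))))))

theorem row42_3 (E : Env κ ι) : RowG (ek E lk42) (F42_3 E) [F42_3 E, F42_4 E, F42_5 E, F42_6 E, F42_7 E, F42_8 E, F42_9 E] [r42_3_3, r42_3_4, r42_3_5, r42_3_6, r42_3_7, r42_3_8, r42_3_9] :=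
  rowG_cons _ _ _ _ _ _ (h42_3_3 E) (rowG_cons _ _ _ _ _ _ (h42_3_4 E) (rowG_cons _ _ _ _ _ _ (h42_3_5 E) (rowG_cons _ _ _ _ _ _ (h42_3_6 E) (rowG_cons _ _ _ _ _ _ (h42_3_7 E) (rowG_cons _ _ _ _ _ _ (h42_3_8 E) (rowG_cons _ _ _ _ _ _ (h42_3_9 E) (rowG_nil _ _)))))))

theorem row42_4 (E : Env κ ι) : RowG (ek E lk42) (F42_4 E) [F42_4 E, F42_5 E, F42_6 E, F42_7 E, F42_8 E, F42_9 E] [r42_4_4, r42_4_5, r42_4_6, r42_4_7, r42_4_8, r42_4_9] :=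
  rowG_cons _ _ _ _ _ _ (h42_4_4 E) (rowG_cons _ _ _ _ _ _ (h42_4_5 E) (rowG_cons _ _ _ _ _ _ (h42_4_6 E) (rowG_cons _ _ _ _ _ _ (h42_4_7 E) (rowG_cons _ _ _ _ _ _ (h42_4_8 E) (rowG_cons _ _ _ _ _ _ (h42_4_9 E) (rowG_nil _ _))))))

theorem row42_5 (E : Env κ ι) : RowG (ek E lk42) (F42_5 E) [F42_5 E, F42_6 E, F42_7 E, F42_8 E, F42_9 E] [r42_5_5, r42_5_6, r42_5_7, r42_5_8, r42_5_9] :=
  rowG_cons _ _ _ _ _ _ (h42_5_5 E) (rowG_cons _ _ _ _ _ _ (h42_5_6 E) (rowG_cons _ _ _ _ _ _ (h42_5_7 E) (rowG_cons _ _ _ _ _ _ (h42_5_8 E) (rowG_cons _ _ _ _ _ _ (h42_5_9 E) (rowG_nil _ _)))))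

theorem row42_6 (E : Env κ ι) : RowG (ek E lk42) (F42_6 E) [F42_6 E, F42_7 E, F42_8 E, F42_9 E] [r42_6_6, r42_6_7, r42_6_8, r42_6_9] :=
  rowG_cons _ _ _ _ _ _ (h42_6_6 E) (rowG_cons _ _ _ _ _ _ (h42_6_7 E) (rowG_cons _ _ _ _ _ _ (h42_6_8 E) (rowG_cons _ _ _ _ _ _ (h42_6_9 E) (rowG_nil _ _))))

theorem row42_7 (E : Env κ ι) : RowG (ek E lk42) (F42_7 E) [F42_7 E, F42_8 E, F42_9 E] [r42_7_7, r42_7_8, r42_7_9] :=
  rowG_cons _ _ _ _ _ _ (h42_7_7 E) (rowG_cons _ _ _ _ _ _ (h42_7_8 E) (rowG_cons _ _ _ _ _ _ (h42_7_9 E) (rowG_nil _ _)))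

theorem row42_8 (E : Env κ ι) : RowG (ek E lk42) (F42_8 E) [F42_8 E, F42_9 E] [r42_8_8, r42_8_9] :=
  rowG_cons _ _ _ _ _ _ (h42_8_8 E) (rowG_cons _ _ _ _ _ _ (h42_8_9 E) (rowG_nil _ _))

theorem row42_9 (E : Env κ ι) : RowG (ek E lk42) (F42_9 E) [F42_9 E] [r42_9_9] :=
  rowG_cons _ _ _ _ _ _ (h42_9_9 E) (rowG_nil _ _)

def tab42 : List (List (List (ℕ × ℤ))) := [[r42_0_0, r42_0_1, r42_0_2, r42_0_3, r42_0_4, r42_0_5, r42_0_6, r42_0_7, r42_0_8, r42_0_9], [r42_1_1, r42_1_2, r42_1_3, r42_1_4, r42_1_5, r42_1_6, r42_1_7, r42_1_8, r42_1_9], [r42_2_2, r42_2_3, r42_2_4, r42_2_5, r42_2_6, r42_2_7, r42_2_8, r42_2_9], [r42_3_3, r42_3_4, r42_3_5, r42_3_6, r42_3_7, r42_3_8, r42_3_9], [r42_4_4, r42_4_5, r42_4_6, r42_4_7, r42_4_8, r42_4_9], [r42_5_5, r42_5_6, r42_5_7, r42_5_8, r42_5_9], [r42_6_6, r42_6_7, r42_6_8, r42_6_9], [r42_7_7, r42_7_8, r42_7_9], [r42_8_8, r42_8_9],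 [r42_9_9]]

theorem tri42 (E : Env κ ι) : TriG (ek E lk42) [F42_0 E, F42_1 E, F42_2 E, F42_3 E, F42_4 E, F42_5 E, F42_6 E, F42_7 E, F42_8 E, F42_9 E] tab42 := by
  refine triG_cons _ _ _ _ _ (row42_0 E) ?_
  refine triG_cons _ _ _ _ _ (row42_1 E) ?_
  refine triG_cons _ _ _ _ _ (row42_2 E) ?_
  refine triG_cons _ _ _ _ _ (row42_3 E) ?_
  refine triG_cons _ _ _ _ _ (row42_4 E) ?_
  refine triG_cons _ _ _ _ _ (row42_5 E) ?_
  refine triG_cons _ _ _ _ _ (row42_6 E) ?_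
  refine triG_cons _ _ _ _ _ (row42_7 E) ?_
  refine triG_cons _ _ _ _ _ (row42_8 E) ?_
  refine triG_cons _ _ _ _ _ (row42_9 E) ?_
  exact triG_nil _

end

end YMBG
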