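import Pool.Agent.YM.BG.Ga0
import Pool.Agent.YM.BG.Ga1

set_option linter.unusedVariables false
set_option maxRecDepth 100000

open YMEng

namespace YMBG

def lk43 : List Key := [
  (2, 5, [(0, [0], [0, 1]), (0, [1], [0, 2]), (0, [1], [3, 4]), (0, [0], [3, 4]), (4, [], [2]), (4, [], [1])]),
  (2, 7, [(0, [0], [0, 1]), (0, [1], [0, 2]), (0, [1], [3, 4]), (0, [0], [5, 6]), (1, [], [5, 6]), (1, [], [3, 4]), (4, [], [2]), (4, [], [1])]),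
  (2, 7, [(0, [0], [0, 1]), (0, [1], [0, 2]), (0, [1], [3, 4]), (0, [0], [3, 4]), (4, [], [2]), (4, [], [1]), (1, [], [5, 6]), (1, [], [5, 6])]),
  (2, 5, [(0, [0], [0, 1]), (0, [1], [0, 2]), (0, [0], [2, 3]), (0, [1], [1, 4]), (4, [], [4]), (4, [], [3])]),
  (2, 5, [(0, [0], [0, 1]), (0, [1], [2, 3]), (2, [0], [2, 3, 4]), (2, [1], [0, 1, 4])]),
  (2, 6, [(0, [0], [0, 1]), (0, [0], [2, 3]), (0, [1], [4, 5]), (1, [], [4, 5]), (2, [1], [0, 2, 3]), (4, [], [1])]),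
  (2, 7, [(0, [0], [0, 1]), (0, [0], [2, 3]), (0, [1], [4, 5]), (0, [1], [4, 6]), (1, [], [0, 5]), (1, [], [2, 3]), (4, [], [1]), (4, [], [6])]),
  (2, 6, [(0, [0], [0, 1]), (0, [0], [2, 3]), (0, [1], [4, 5]), (1, [], [0, 4]), (2, [1], [1, 2, 3]), (4, [], [5])]),
  (2, 6, [(0, [0], [0, 1]), (0, [0], [2, 3]), (0, [1], [0, 4]), (1, [], [4, 5]), (2, [1], [2, 3, 5]), (4, [], [1])]),
  (2, 7, [(0, [0], [0, 1]), (0, [1], [0, 2]), (0, [0], [3, 4]), (0, [1], [5, 6]), (1, [], [1, 3]), (1, [], [5, 6]), (4, [], [2]), (4, [], [4])]),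
  (2, 6, [(0, [0], [0, 1]), (0, [0], [2, 3]), (0, [1], [0, 4]), (1, [], [1, 5]), (2, [1], [2, 3, 5]), (4, [], [4])]),
  (2, 7, [(0, [0], [0, 1]), (0, [0], [2, 3]), (0, [1], [0, 4]), (0, [1], [4, 5]), (1, [], [1, 6]), (1, [], [2, 3]), (4, [], [5]), (4, [], [6])]),
  (2, 7, [(0, [0], [0, 1]), (0, [1], [0, 2]), (0, [1], [2, 3]), (0, [0], [1, 4]), (4, [], [4]), (4, [], [3]), (1, [], [5, 6]), (1, [], [5, 6])]),
  (2, 5, [(0, [0], [0, 1]), (0, [1], [0, 2]), (2, [0], [2, 3, 4]), (2, [1], [1, 3, 4])]),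
  (2, 6, [(0, [0], [0, 1]), (0, [0], [2, 3]), (0, [1], [0, 4]), (1, [], [4, 5]), (2, [1], [1, 2, 3]), (4, [], [5])]),
  (2, 6, [(0, [0], [0, 1]), (0, [0], [2, 3]), (0, [1], [0, 2]), (1, [], [4, 5]), (2, [1], [1, 4, 5]), (4, [], [3])]),
  (2, 7, [(0, [0], [0, 1]), (0, [1], [0, 2]), (0, [1], [1, 3]), (0, [0], [4, 5]), (1, [], [2, 6]), (1, [], [4, 5]), (4, [], [3]), (4, [], [6])]),
  (2, 7, [(0, [0], [0, 1]), (0, [1], [0, 2]), (0, [0], [2, 3]), (0, [1], [1, 4]), (4, [], [4]), (4, [], [3]), (1, [], [5, 6]), (1, [], [5, 6])]),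
  (2, 6, [(0, [0], [0, 1]), (0, [0], [2, 3]), (0, [1], [0, 4]), (0, [1], [4, 5]), (1, [], [2, 3]), (4, [], [1]), (4, [], [5])]),
  (2, 5, [(0, [0], [0, 1]), (0, [0], [2, 3]), (0, [1], [0, 4]), (2, [1], [1, 2, 3]), (4, [], [4])]),
  (2, 6, [(0, [0], [0, 1]), (0, [1], [0, 2]), (0, [1], [1, 3]), (0, [0], [4, 5]), (1, [], [4, 5]), (4, [], [3]), (4, [], [2])]),
  (2, 6, [(0, [0], [0, 1]), (0, [1], [0, 2]), (0, [1], [1, 3]), (0, [0], [4, 5]), (1, [], [2, 4]), (4, [], [3]), (4, [], [5])]),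
  (2, 6, [(0, [0], [0, 1]), (0, [1], [2, 3]), (0, [0], [2, 4]), (0, [1], [0, 5]), (1, [], [1, 3]), (4, [], [5]), (4, [], [4])]),
  (2, 6, [(0, [0], [0, 1]), (0, [0], [2, 3]), (0, [1], [2, 4]), (0, [1], [0, 5]), (1, [], [1, 3]), (4, [], [5]), (4, [], [4])]),
  (2, 6, [(0, [0], [0, 1]), (0, [1], [0, 2]), (0, [0], [2, 3]), (0, [1], [1, 4]), (1, [], [3, 5]), (4, [], [4]), (4, [], [5])]),
  (2, 6, [(0, [0], [0, 1]), (0, [0], [2, 3]), (0, [1], [0, 4]), (0, [1], [4, 5]), (1, [], [1, 2]), (4, [], [3]), (4, [], [5])]),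
  (2, 6, [(0, [0], [0, 1]), (0, [0], [2, 3]), (0, [1], [0, 4]), (0, [1], [2, 4]), (1, [], [1, 5]), (4, [], [3]), (4, [], [5])]),
  (2, 7, [(0, [0], [0, 1]), (0, [0], [0, 2]), (0, [1], [1, 2]), (4, [], [3]), (0, [1], [4, 5]), (1, [], [4, 6]), (1, [], [5, 6]), (4, [], [3])]),
  (2, 7, [(0, [0], [0, 1]), (0, [0], [0, 2]), (0, [1], [1, 2]), (4, [], [3]), (0, [1], [4, 5]), (1, [], [4, 6]), (1, [], [3, 6]), (4, [], [5])]),
  (2, 7, [(0, [0], [0, 1]), (0, [0], [0, 2]), (0, [1], [1, 2]), (4, [], [3]), (0, [1], [4, 5]), (1, [], [4, 6]), (1, [], [3, 5]), (4, [], [6])]),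
  (2, 7, [(0, [0], [0, 1]), (0, [0], [0, 2]), (0, [1], [1, 2]), (4, [], [3]), (0, [1], [4, 5]), (1, [], [4, 5]), (1, [], [3, 6]), (4, [], [6])]),
  (2, 6, [(0, [0], [0, 1]), (0, [0], [0, 2]), (0, [1], [1, 2]), (4, [], [3]), (0, [1], [4, 5]), (1, [], [4, 5]), (4, [], [3])]),
  (2, 6, [(0, [0], [0, 1]), (0, [0], [0, 2]), (0, [1], [1, 2]), (4, [], [3]), (0, [1], [4, 5]), (1, [], [3, 4]), (4, [], [5])]),
  (2, 7, [(0, [0], [0, 1]), (0, [0], [0, 2]), (0, [1], [1, 2]), (4, [], [3]), (0, [1], [3, 4]), (1, [], [5, 6]), (1, [], [5, 6]), (4, [], [4])]),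
  (2, 6, [(0, [0], [0, 1]), (0, [0], [0, 2]), (0, [1], [1, 2]), (4, [], [3]), (1, [], [4, 5]), (2, [1], [3, 4, 5])]),
  (2, 7, [(0, [0], [0, 1]), (0, [0], [0, 2]), (0, [1], [3, 2]), (4, [], [1]), (0, [1], [4, 5]), (1, [], [4, 6]), (1, [], [5, 6]), (4, [], [3])]),
  (2, 7, [(0, [0], [0, 1]), (0, [0], [0, 2]), (0, [1], [3, 2]), (4, [], [1]), (0, [1], [4, 5]), (1, [], [4, 6]), (1, [], [3, 6]), (4, [], [5])]),
  (2, 7, [(0, [0], [0, 1]), (0, [0], [0, 2]), (0, [1], [3, 2]), (4, [], [1]), (0, [1], [4, 5]), (1, [], [4, 6]), (1, [], [3, 5]), (4, [], [6])]),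
  (2, 7, [(0, [0], [0, 1]), (0, [0], [0, 2]), (0, [1], [3, 2]), (4, [], [1]), (0, [1], [3, 4]), (1, [], [5, 6]), (1, [], [4, 5]), (4, [], [6])]),
  (2, 7, [(0, [0], [0, 1]), (0, [0], [2, 3]), (0, [1], [0, 3]), (4, [], [1]), (0, [1], [4, 5]), (1, [], [4, 6]), (1, [], [5, 6]), (4, [], [2])]),
  (2, 7, [(0, [0], [0, 1]), (0, [0], [2, 3]), (0, [1], [0, 3]), (4, [], [1]), (0, [1], [4, 5]), (1, [], [4, 6]), (1, [], [2, 6]), (4, [], [5])]),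
  (2, 7, [(0, [0], [0, 1]), (0, [0], [2, 3]), (0, [1], [0, 3]), (4, [], [1]), (0, [1], [4, 5]), (1, [], [4, 6]), (1, [], [2, 5]), (4, [], [6])]),
  (2, 7, [(0, [0], [0, 1]), (0, [0], [2, 3]), (0, [1], [0, 3]), (4, [], [1]), (0, [1], [2, 4]), (1, [], [5, 6]), (1, [], [4, 5]), (4, [], [6])]),
  (2, 7, [(0, [0], [0, 1]), (0, [0], [2, 3]), (0, [1], [0, 1]), (4, [], [3]), (0, [1], [4, 5]), (1, [], [4, 6]), (1, [], [5, 6]), (4, [], [2])]),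
  (2, 7, [(0, [0], [0, 1]), (0, [0], [2, 3]), (0, [1], [0, 1]), (4, [], [3]), (0, [1], [4, 5]), (1, [], [4, 6]), (1, [], [2, 6]), (4, [], [5])]),
  (2, 7, [(0, [0], [0, 1]), (0, [0], [2, 3]), (0, [1], [0, 1]), (4, [], [3]), (0, [1], [4, 5]), (1, [], [4, 6]), (1, [], [2, 5]), (4, [], [6])]),
  (2, 7, [(0, [0], [0, 1]), (0, [0], [2, 3]), (0, [1], [0, 1]), (4, [], [3]), (0, [1], [4, 5]), (1, [], [4, 5]), (1, [], [2, 6]), (4, [], [6])]),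
  (2, 6, [(0, [0], [0, 1]), (0, [0], [2, 3]), (0, [1], [0, 1]), (4, [], [3]), (0, [1], [4, 5]), (1, [], [4, 5]), (4, [], [2])]),
  (2, 6, [(0, [0], [0, 1]), (0, [0], [2, 3]), (0, [1], [0, 1]), (4, [], [3]), (0, [1], [4, 5]), (1, [], [2, 4]), (4, [], [5])]),
  (2, 7, [(0, [0], [0, 1]), (0, [0], [2, 3]), (0, [1], [0, 1]), (4, [], [3]), (0, [1], [2, 4]), (1, [], [5, 6]), (1, [], [4, 5]), (4, [], [6])]),
  (2, 6, [(0, [0], [0, 1]), (0, [0], [2, 3]), (0, [1], [0, 1]), (4, [], [3]), (0, [1], [2, 4]), (1, [], [4, 5]), (4, [], [5])]),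
  (2, 6, [(0, [0], [0, 1]), (0, [0], [2, 3]), (0, [1], [0, 1]), (4, [], [3]), (1, [], [4, 5]), (2, [1], [2, 4, 5])]),
  (2, 7, [(0, [0], [0, 1]), (0, [0], [2, 0]), (0, [1], [1, 3]), (4, [], [3]), (0, [1], [4, 5]), (1, [], [4, 6]), (1, [], [2, 6]), (4, [], [5])]),
  (2, 7, [(0, [0], [0, 1]), (0, [0], [2, 0]), (0, [1], [1, 3]), (4, [], [3]), (0, [1], [4, 5]), (1, [], [4, 6]), (1, [], [2, 5]), (4, [], [6])]),
  (2, 7, [(0, [0], [0, 1]), (0, [0], [2, 0]), (0, [1], [1, 3]), (4, [], [3]), (0, [1], [4, 5]), (1, [], [4, 5]), (1, [], [2, 6]), (4, [], [6])]),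
  (2, 7, [(0, [0], [0, 1]), (0, [0], [2, 0]), (0, [1], [1, 3]), (4, [], [3]), (0, [1], [2, 4]), (1, [], [5, 6]), (1, [], [5, 6]), (4, [], [4])]),
  (2, 7, [(0, [0], [0, 1]), (0, [0], [2, 0]), (0, [1], [1, 3]), (4, [], [3]), (0, [1], [2, 4]), (1, [], [5, 6]), (1, [], [4, 5]), (4, [], [6])]),
  (2, 6, [(0, [0], [0, 1]), (0, [0], [2, 0]), (0, [1], [1, 3]), (4, [], [3]), (1, [], [4, 5]), (2, [1], [2, 4, 5])]),
  (2, 7, [(0, [0], [0, 1]), (0, [0], [2, 0]), (0, [1], [3, 1]), (4, [], [4]), (0, [1], [5, 6]), (1, [], [5, 6]), (1, [], [2, 3]), (4, [], [4])]),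
  (2, 7, [(0, [0], [0, 1]), (0, [0], [2, 0]), (0, [1], [3, 1]), (4, [], [4]), (0, [1], [5, 6]), (1, [], [2, 5]), (1, [], [3, 6]), (4, [], [4])]),
  (2, 7, [(0, [0], [0, 1]), (0, [0], [2, 0]), (0, [1], [3, 1]), (4, [], [4]), (0, [1], [5, 6]), (1, [], [2, 5]), (1, [], [3, 4]), (4, [], [6])]),
  (2, 7, [(0, [0], [0, 1]), (0, [0], [2, 0]), (0, [1], [3, 1]), (4, [], [4]), (0, [1], [5, 6]), (1, [], [3, 5]), (1, [], [2, 4]), (4, [], [6])]),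
  (2, 7, [(0, [0], [0, 1]), (0, [0], [2, 0]), (0, [1], [3, 1]), (4, [], [4]), (0, [1], [5, 6]), (1, [], [4, 5]), (1, [], [2, 3]), (4, [], [6])]),
  (2, 7, [(0, [0], [0, 1]), (0, [0], [2, 0]), (0, [1], [3, 1]), (4, [], [4]), (0, [1], [2, 5]), (1, [], [5, 6]), (1, [], [3, 6]), (4, [], [4])]),
  (2, 7, [(0, [0], [0, 1]), (0, [0], [2, 0]), (0, [1], [3, 1]), (4, [], [4]), (0, [1], [3, 5]), (1, [], [5, 6]), (1, [], [2, 6]), (4, [], [4])]),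
  (2, 7, [(0, [0], [0, 1]), (0, [0], [2, 0]), (0, [1], [3, 1]), (4, [], [4]), (0, [1], [2, 5]), (1, [], [5, 6]), (1, [], [3, 4]), (4, [], [6])]),
  (2, 7, [(0, [0], [0, 1]), (0, [0], [2, 0]), (0, [1], [3, 1]), (4, [], [4]), (0, [1], [3, 5]), (1, [], [5, 6]), (1, [], [2, 4]), (4, [], [6])]),
  (2, 7, [(0, [0], [0, 1]), (0, [0], [2, 0]), (0, [1], [3, 1]), (4, [], [4]), (0, [1], [4, 5]), (1, [], [2, 6]), (1, [], [3, 6]), (4, [], [5])]),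
  (2, 7, [(0, [0], [0, 1]), (0, [0], [2, 0]), (0, [1], [3, 1]), (4, [], [4]), (0, [1], [2, 5]), (1, [], [4, 6]), (1, [], [3, 5]), (4, [], [6])]),
  (2, 6, [(0, [0], [0, 1]), (0, [0], [2, 0]), (0, [1], [3, 1]), (4, [], [4]), (0, [1], [2, 5]), (1, [], [3, 5]), (4, [], [4])]),
  (2, 7, [(0, [0], [0, 1]), (0, [0], [2, 0]), (0, [1], [3, 1]), (4, [], [4]), (0, [1], [2, 3]), (1, [], [5, 6]), (1, [], [5, 6]), (4, [], [4])]),
  (2, 7, [(0, [0], [0, 1]), (0, [0], [2, 0]), (0, [1], [3, 1]), (4, [], [4]), (0, [1], [2, 3]), (1, [], [5, 6]), (1, [], [4, 5]), (4, [], [6])]),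
  (2, 6, [(0, [0], [0, 1]), (0, [0], [2, 0]), (0, [1], [3, 1]), (4, [], [4]), (1, [], [3, 5]), (2, [1], [2, 4, 5])]),
  (2, 7, [(0, [0], [0, 1]), (0, [0], [2, 0]), (0, [1], [3, 4]), (4, [], [1]), (0, [1], [5, 6]), (1, [], [2, 5]), (1, [], [3, 6]), (4, [], [4])]),
  (2, 7, [(0, [0], [0, 1]), (0, [0], [2, 0]), (0, [1], [3, 4]), (4, [], [1]), (0, [1], [3, 5]), (1, [], [5, 6]), (1, [], [2, 6]), (4, [], [4])]),
  (2, 7, [(0, [0], [0, 1]), (0, [0], [2, 0]), (0, [1], [3, 4]), (4, [], [1]), (0, [1], [3, 5]), (1, [], [2, 6]), (1, [], [4, 5]), (4, [], [6])]),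
  (2, 7, [(0, [0], [0, 1]), (0, [0], [2, 3]), (0, [1], [0, 1]), (4, [], [4]), (0, [1], [5, 6]), (1, [], [2, 5]), (1, [], [3, 6]), (4, [], [4])]),
  (2, 7, [(0, [0], [0, 1]), (0, [0], [2, 3]), (0, [1], [0, 1]), (4, [], [4]), (0, [1], [2, 5]), (1, [], [5, 6]), (1, [], [3, 6]), (4, [], [4])]),
  (2, 7, [(0, [0], [0, 1]), (0, [0], [2, 3]), (0, [1], [0, 1]), (4, [], [4]), (0, [1], [2, 5]), (1, [], [5, 6]), (1, [], [3, 4]), (4, [], [6])]),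
  (2, 7, [(0, [0], [0, 1]), (0, [0], [2, 3]), (0, [1], [0, 1]), (4, [], [4]), (0, [1], [2, 5]), (1, [], [4, 6]), (1, [], [3, 5]), (4, [], [6])]),
  (2, 6, [(0, [0], [0, 1]), (0, [0], [2, 3]), (0, [1], [0, 1]), (4, [], [4]), (0, [1], [2, 5]), (1, [], [3, 5]), (4, [], [4])]),
  (2, 7, [(0, [0], [0, 1]), (0, [0], [2, 3]), (0, [1], [0, 1]), (4, [], [4]), (0, [1], [2, 3]), (1, [], [5, 6]), (1, [], [4, 5]), (4, [], [6])]),
  (2, 6, [(0, [0], [0, 1]), (0, [0], [2, 3]), (0, [1], [0, 1]), (4, [], [4]), (0, [1], [2, 3]), (1, [], [4, 5]), (4, [], [5])]),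
  (2, 5, [(0, [0], [0, 1]), (0, [0], [2, 3]), (0, [1], [0, 1]), (4, [], [4]), (0, [1], [2, 3]), (4, [], [4])]),
  (2, 6, [(0, [0], [0, 1]), (0, [0], [2, 3]), (0, [1], [0, 1]), (4, [], [4]), (1, [], [2, 5]), (2, [1], [3, 4, 5])]),
  (2, 6, [(0, [0], [0, 1]), (0, [0], [2, 3]), (0, [1], [0, 1]), (4, [], [4]), (1, [], [4, 5]), (2, [1], [2, 3, 5])]),
  (2, 5, [(0, [0], [0, 1]), (0, [0], [2, 3]), (0, [1], [0, 1]), (4, [], [4]), (2, [1], [2, 3, 4])]),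
  (2, 7, [(0, [0], [0, 1]), (0, [0], [2, 3]), (0, [1], [4, 0]), (4, [], [1]), (0, [1], [5, 6]), (1, [], [5, 6]), (1, [], [2, 4]), (4, [], [3])]),
  (2, 7, [(0, [0], [0, 1]), (0, [0], [2, 3]), (0, [1], [4, 0]), (4, [], [1]), (0, [1], [5, 6]), (1, [], [2, 5]), (1, [], [3, 6]), (4, [], [4])]),
  (2, 7, [(0, [0], [0, 1]), (0, [0], [2, 3]), (0, [1], [4, 0]), (4, [], [1]), (0, [1], [5, 6]), (1, [], [2, 5]), (1, [], [4, 6]), (4, [], [3])]),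
  (2, 7, [(0, [0], [0, 1]), (0, [0], [2, 3]), (0, [1], [4, 0]), (4, [], [1]), (0, [1], [5, 6]), (1, [], [2, 5]), (1, [], [3, 4]), (4, [], [6])]),
  (2, 7, [(0, [0], [0, 1]), (0, [0], [2, 3]), (0, [1], [4, 0]), (4, [], [1]), (0, [1], [2, 5]), (1, [], [5, 6]), (1, [], [3, 6]), (4, [], [4])]),
  (2, 7, [(0, [0], [0, 1]), (0, [0], [2, 3]), (0, [1], [4, 0]), (4, [], [1]), (0, [1], [2, 5]), (1, [], [5, 6]), (1, [], [4, 6]), (4, [], [3])]),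
  (2, 7, [(0, [0], [0, 1]), (0, [0], [2, 3]), (0, [1], [4, 0]), (4, [], [1]), (0, [1], [2, 5]), (1, [], [5, 6]), (1, [], [3, 4]), (4, [], [6])]),
  (2, 7, [(0, [0], [0, 1]), (0, [0], [2, 3]), (0, [1], [4, 0]), (4, [], [1]), (0, [1], [2, 5]), (1, [], [3, 6]), (1, [], [4, 6]), (4, [], [5])]),
  (2, 7, [(0, [0], [0, 1]), (0, [0], [2, 3]), (0, [1], [4, 0]), (4, [], [1]), (0, [1], [2, 5]), (1, [], [3, 6]), (1, [], [4, 5]), (4, [], [6])]),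
  (2, 7, [(0, [0], [0, 1]), (0, [0], [2, 3]), (0, [1], [4, 0]), (4, [], [1]), (0, [1], [2, 5]), (1, [], [4, 6]), (1, [], [3, 5]), (4, [], [6])]),
  (2, 6, [(0, [0], [0, 1]), (0, [0], [2, 3]), (0, [1], [4, 0]), (4, [], [1]), (0, [1], [2, 5]), (1, [], [3, 5]), (4, [], [4])]),
  (2, 7, [(0, [0], [0, 1]), (0, [0], [2, 3]), (0, [1], [1, 3]), (4, [], [4]), (0, [1], [5, 6]), (1, [], [0, 5]), (1, [], [2, 6]), (4, [], [4])]),
  (2, 7, [(0, [0], [0, 1]), (0, [0], [2, 3]), (0, [1], [1, 3]), (4, [], [4]), (0, [1], [5, 6]), (1, [], [0, 5]), (1, [], [2, 4]), (4, [], [6])]),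
  (2, 7, [(0, [0], [0, 1]), (0, [0], [2, 3]), (0, [1], [1, 3]), (4, [], [4]), (0, [1], [5, 6]), (1, [], [4, 5]), (1, [], [0, 2]), (4, [], [6])]),
  (2, 7, [(0, [0], [0, 1]), (0, [0], [2, 3]), (0, [1], [1, 3]), (4, [], [4]), (0, [1], [0, 5]), (1, [], [5, 6]), (1, [], [2, 6]), (4, [], [4])]),
  (2, 7, [(0, [0], [0, 1]), (0, [0], [2, 3]), (0, [1], [1, 3]), (4, [], [4]), (0, [1], [0, 5]), (1, [], [5, 6]), (1, [], [2, 4]), (4, [], [6])]),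
  (2, 7, [(0, [0], [0, 1]), (0, [0], [2, 3]), (0, [1], [1, 3]), (4, [], [4]), (0, [1], [4, 5]), (1, [], [0, 6]), (1, [], [2, 6]), (4, [], [5])]),
  (2, 7, [(0, [0], [0, 1]), (0, [0], [2, 3]), (0, [1], [1, 3]), (4, [], [4]), (0, [1], [0, 5]), (1, [], [4, 6]), (1, [], [2, 5]), (4, [], [6])]),
  (2, 6, [(0, [0], [0, 1]), (0, [0], [2, 3]), (0, [1], [1, 3]), (4, [], [4]), (0, [1], [0, 5]), (1, [], [2, 5]), (4, [], [4])]),
  (2, 6, [(0, [0], [0, 1]), (0, [0], [2, 3]), (0, [1], [1, 3]), (4, [], [4]), (0, [1], [4, 5]), (1, [], [0, 2]), (4, [], [5])]),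
  (2, 7, [(0, [0], [0, 1]), (0, [0], [2, 3]), (0, [1], [1, 3]), (4, [], [4]), (0, [1], [0, 2]), (1, [], [5, 6]), (1, [], [4, 5]), (4, [], [6])]),
  (2, 6, [(0, [0], [0, 1]), (0, [0], [2, 3]), (0, [1], [1, 3]), (4, [], [4]), (0, [1], [0, 2]), (1, [], [4, 5]), (4, [], [5])]),
  (2, 5, [(0, [0], [0, 1]), (0, [0], [2, 3]), (0, [1], [1, 3]), (4, [], [4]), (0, [1], [0, 2]), (4, [], [4])]),
  (2, 6, [(0, [0], [0, 1]), (0, [0], [2, 3]), (0, [1], [1, 3]), (4, [], [4]), (1, [], [0, 5]), (2, [1], [2, 4, 5])]),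
  (2, 6, [(0, [0], [0, 1]), (0, [0], [2, 3]), (0, [1], [1, 3]), (4, [], [4]), (1, [], [4, 5]), (2, [1], [0, 2, 5])]),
  (2, 5, [(0, [0], [0, 1]), (0, [0], [2, 3]), (0, [1], [1, 3]), (4, [], [4]), (2, [1], [0, 2, 4])]),
  (2, 7, [(0, [0], [0, 1]), (0, [0], [2, 3]), (0, [1], [4, 3]), (4, [], [1]), (0, [1], [5, 6]), (1, [], [5, 6]), (1, [], [2, 4]), (4, [], [0])]),
  (2, 7, [(0, [0], [0, 1]), (0, [0], [2, 3]), (0, [1], [4, 3]), (4, [], [1]), (0, [1], [5, 6]), (1, [], [2, 5]), (1, [], [4, 6]), (4, [], [0])]),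
  (2, 7, [(0, [0], [0, 1]), (0, [0], [2, 3]), (0, [1], [4, 3]), (4, [], [1]), (0, [1], [5, 6]), (1, [], [0, 5]), (1, [], [2, 4]), (4, [], [6])]),
  (2, 7, [(0, [0], [0, 1]), (0, [0], [2, 3]), (0, [1], [4, 3]), (4, [], [1]), (0, [1], [5, 6]), (1, [], [2, 5]), (1, [], [0, 4]), (4, [], [6])]),
  (2, 7, [(0, [0], [0, 1]), (0, [0], [2, 3]), (0, [1], [4, 3]), (4, [], [1]), (0, [1], [5, 6]), (1, [], [4, 5]), (1, [], [0, 2]), (4, [], [6])]),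
  (2, 6, [(0, [0], [0, 1]), (0, [0], [2, 3]), (0, [1], [4, 3]), (4, [], [1]), (1, [], [4, 5]), (2, [1], [0, 2, 5])]),
  (2, 7, [(0, [0], [0, 1]), (0, [0], [2, 1]), (0, [1], [3, 4]), (4, [], [4]), (0, [1], [5, 6]), (1, [], [5, 6]), (1, [], [0, 2]), (4, [], [3])]),
  (2, 7, [(0, [0], [0, 1]), (0, [0], [2, 1]), (0, [1], [3, 4]), (4, [], [4]), (0, [1], [5, 6]), (1, [], [3, 5]), (1, [], [0, 2]), (4, [], [6])]),
  (2, 6, [(0, [0], [0, 1]), (0, [0], [2, 1]), (0, [1], [3, 4]), (4, [], [4]), (1, [], [3, 5]), (2, [1], [0, 2, 5])]),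
  (2, 6, [(0, [0], [0, 1]), (0, [0], [2, 3]), (0, [1], [1, 4]), (4, [], [4]), (1, [], [2, 5]), (2, [1], [0, 3, 5])]),
  (2, 7, [(0, [0], [0, 1]), (0, [0], [2, 1]), (0, [1], [3, 4]), (4, [], [5]), (0, [1], [3, 6]), (1, [], [4, 6]), (1, [], [0, 2]), (4, [], [5])]),
  (2, 6, [(0, [0], [0, 1]), (0, [0], [2, 1]), (0, [1], [3, 4]), (4, [], [5]), (1, [], [3, 4]), (2, [1], [0, 2, 5])]),
  (2, 7, [(0, [0], [0, 1]), (0, [0], [2, 3]), (0, [1], [4, 1]), (4, [], [5]), (0, [1], [2, 6]), (1, [], [0, 6]), (1, [], [3, 4]), (4, [], [5])]),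
  (2, 7, [(0, [0], [0, 1]), (0, [0], [2, 3]), (0, [1], [4, 1]), (4, [], [5]), (0, [1], [2, 6]), (1, [], [3, 6]), (1, [], [0, 4]), (4, [], [5])]),
  (2, 6, [(0, [0], [0, 1]), (0, [0], [2, 3]), (0, [1], [4, 1]), (4, [], [5]), (1, [], [0, 4]), (2, [1], [2, 3, 5])]),
  (2, 6, [(0, [0], [0, 1]), (0, [0], [2, 3]), (0, [1], [4, 1]), (4, [], [5]), (1, [], [2, 4]), (2, [1], [0, 3, 5])]),
  (2, 5, [(0, [0], [0, 1]), (2, [0], [2, 3, 4]), (0, [1], [0, 1]), (2, [1], [2, 3, 4])])]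

def kl43 : List ℕ := [6, 10, 26, 34, 39, 40, 42, 43, 44, 45, 46, 50, 51, 52, 53, 54, 55, 56, 75, 81, 83, 84, 86, 87, 88, 89, 90, 99, 100, 101, 102, 103, 104, 106, 108, 113, 114, 115, 117, 127, 128, 129, 131, 134, 135, 136, 137, 138, 139, 141, 142, 143, 145, 146, 147, 149, 150, 151, 226, 227, 228, 229, 230, 231, 232, 233, 234, 235, 236, 238, 244, 245, 249, 255, 257, 260, 271, 272, 273, 274, 275, 278, 279, 280, 281, 282, 283, 289, 290, 291, 292, 293, 294, 295, 296, 297, 298, 299, 305, 306, 307, 308, 309, 310, 311, 312, 313, 317, 318, 319, 320, 321, 322, 323, 324, 325, 326, 327, 330, 332, 335, 337, 339, 423, 427, 431, 432, 435, 437, 448]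

def m43_0 : Base := (1, 1, [(0, [0], [0, 5]), (0, [0], [1, 5]), (1, [], [2, 3]), (4, [], [4])])

def l43_0 : Cov := [(108, 1, 1, [(0, [0], [0, 5]), (0, [0], [1, 5]), (1, [], [2, 3]), (4, [], [4])]),
  (108, 1, 1, [(0, [0], [0, 5]), (0, [0], [1, 5]), (1, [], [2, 4]), (4, [], [3])]),
  (72, 1, 1, [(0, [0], [0, 5]), (0, [0], [1, 5]), (1, [], [3, 4]), (4, [], [2])]),
  (36, 1, 1, [(0, [0], [0, 5]), (0, [0], [2, 5]), (1, [], [1, 3]), (4, [], [4])]),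
  (-36, 1, 1, [(0, [0], [0, 5]), (0, [0], [2, 5]), (1, [], [3, 4]), (4, [], [1])]),
  (-108, 1, 1, [(0, [0], [0, 5]), (0, [0], [4, 5]), (1, [], [1, 2]), (4, [], [3])]),
  (-72, 1, 1, [(0, [0], [0, 5]), (0, [0], [4, 5]), (1, [], [1, 3]), (4, [], [2])]),
  (-108, 1, 1, [(0, [0], [0, 5]), (0, [0], [4, 5]), (1, [], [2, 3]), (4, [], [1])]),
  (36, 1, 1, [(0, [0], [1, 5]), (0, [0], [2, 5]), (1, [], [0, 4]), (4, [], [3])]),
  (-36, 1, 1, [(0, [0], [1, 5]), (0, [0], [2, 5]), (1, [], [3, 4]), (4, [], [0])]),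
  (-108, 1, 1, [(0, [0], [1, 5]), (0, [0], [3, 5]), (1, [], [0, 2]), (4, [], [4])]),
  (-72, 1, 1, [(0, [0], [1, 5]), (0, [0], [3, 5]), (1, [], [0, 4]), (4, [], [2])]),
  (-108, 1, 1, [(0, [0], [1, 5]), (0, [0], [3, 5]), (1, [], [2, 4]), (4, [], [0])]),
  (-36, 1, 1, [(0, [0], [2, 5]), (0, [0], [3, 5]), (1, [], [0, 1]), (4, [], [4])]),
  (36, 1, 1, [(0, [0], [2, 5]), (0, [0], [3, 5]), (1, [], [0, 4]), (4, [], [1])]),
  (-36, 1, 1, [(0, [0], [2, 5]), (0, [0], [4, 5]), (1, [], [0, 1]), (4, [], [3])]),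
  (36, 1, 1, [(0, [0], [2, 5]), (0, [0], [4, 5]), (1, [], [1, 3]), (4, [], [0])]),
  (72, 1, 1, [(0, [0], [3, 5]), (0, [0], [4, 5]), (1, [], [0, 1]), (4, [], [2])]),
  (108, 1, 1, [(0, [0], [3, 5]), (0, [0], [4, 5]), (1, [], [0, 2]), (4, [], [1])]),
  (108, 1, 1, [(0, [0], [3, 5]), (0, [0], [4, 5]), (1, [], [1, 2]), (4, [], [0])])]

def z43_0 : Cov := [(0, 1, 1, [(0, [0], [0, 5]), (0, [0], [2, 5]), (1, [], [1, 4]), (4, [], [3])]),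
  (0, 1, 1, [(0, [0], [0, 5]), (0, [0], [3, 5]), (1, [], [1, 2]), (4, [], [4])]),
  (0, 1, 1, [(0, [0], [0, 5]), (0, [0], [3, 5]), (1, [], [1, 4]), (4, [], [2])]),
  (0, 1, 1, [(0, [0], [0, 5]), (0, [0], [3, 5]), (1, [], [2, 4]), (4, [], [1])]),
  (0, 1, 1, [(0, [0], [1, 5]), (0, [0], [2, 5]), (1, [], [0, 3]), (4, [], [4])]),
  (0, 1, 1, [(0, [0], [1, 5]), (0, [0], [4, 5]), (1, [], [0, 2]), (4, [], [3])]),
  (0, 1, 1, [(0, [0], [1, 5]), (0, [0], [4, 5]), (1, [], [0, 3]), (4, [], [2])]),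
  (0, 1, 1, [(0, [0], [1, 5]), (0, [0], [4, 5]), (1, [], [2, 3]), (4, [], [0])]),
  (0, 1, 1, [(0, [0], [2, 5]), (0, [0], [3, 5]), (1, [], [1, 4]), (4, [], [0])]),
  (0, 1, 1, [(0, [0], [2, 5]), (0, [0], [4, 5]), (1, [], [0, 3]), (4, [], [1])])]

def w43_0 : List (List Wit) := [[(0, 0, 0, 0, 0), (1, 0, 0, 0, 0), (0, 0, 0, 0, 0), (2, 0, 0, 0, 0), (1, 0, 0, 0, 0), (2, 0, 0, 0, 0), (3, 0, 0, 0, 0), (20, 0, 0, 0, 0), (3, 0, 0, 0, 0), (4, 0, 0, 0, 0), (20, 0, 0, 0, 0), (4, 0, 0, 0, 0), (21, 0, 0, 0, 0), (22, 0, 0, 0, 0), (21, 0, 0, 0, 0), (23, 0, 0, 0, 0), (22, 0, 0, 0, 0), (23, 0, 0, 0, 0), (5, 0, 0, 0, 0), (6, 0, 0, 0, 0), (5, 0, 0, 0, 0), (7, 0, 0, 0, 0), (6, 0, 0, 0, 0), (7, 0, 0, 0, 0), (0, 0, 0, 0, 0), (1, 0, 0, 0, 0), (0, 0, 0, 0, 0), (2, 0, 0, 0, 0), (1, 0, 0, 0, 0), (2, 0, 0, 0, 0), (24, 0, 0, 0, 0), (8, 0, 0, 0, 0), (24, 0, 0, 0, 0), (9, 0, 0,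 0, 0), (8, 0, 0, 0, 0), (9, 0, 0, 0, 0), (10, 0, 0, 0, 0), (11, 0, 0, 0, 0), (10, 0, 0, 0, 0), (12, 0, 0, 0, 0), (11, 0, 0, 0, 0), (12, 0, 0, 0, 0), (25, 0, 0, 0, 0), (26, 0, 0, 0, 0), (25, 0, 0, 0, 0), (27, 0, 0, 0, 0), (26, 0, 0, 0, 0), (27, 0, 0, 0, 0), (3, 0, 0, 0, 0), (20, 0, 0, 0, 0), (3, 0, 0, 0, 0), (4, 0, 0, 0, 0), (20, 0, 0, 0, 0), (4, 0, 0, 0, 0), (24, 0, 0, 0, 0), (8, 0, 0, 0, 0), (24, 0, 0, 0, 0), (9, 0, 0, 0, 0), (8, 0, 0, 0, 0), (9, 0, 0, 0, 0), (13, 0, 0, 0, 0), (14, 0, 0, 0, 0), (13, 0, 0, 0, 0), (28, 0, 0, 0, 0), (14, 0, 0, 0, 0), (28, 0, 0, 0, 0), (15, 0, 0, 0, 0), (29, 0, 0, 0, 0), (15, 0, 0, 0, 0), (16, 0, 0, 0, 0), (29, 0, 0, 0, 0), (16, 0, 0, 0, 0), (21, 0, 0, 0, 0), (22, 0, 0, 0, 0), (21, 0, 0, 0, 0), (23, 0, 0, 0, 0), (22, 0, 0, 0, 0), (23, 0, 0, 0, 0), (10, 0, 0, 0, 0), (11, 0, 0, 0, 0), (10, 0, 0, 0, 0), (12, 0, 0, 0, 0),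 (11, 0, 0, 0, 0), (12, 0, 0, 0, 0), (13, 0, 0, 0, 0), (14, 0, 0, 0, 0), (13, 0, 0, 0, 0), (28, 0, 0, 0, 0), (14, 0, 0, 0, 0), (28, 0, 0, 0, 0), (17, 0, 0, 0, 0), (18, 0, 0, 0, 0), (17, 0, 0, 0, 0), (19, 0, 0, 0, 0), (18, 0, 0, 0, 0), (19, 0, 0, 0, 0), (5, 0, 0, 0, 0), (6, 0, 0, 0, 0), (5, 0, 0, 0, 0), (7, 0, 0, 0, 0), (6, 0, 0, 0, 0), (7, 0, 0, 0, 0), (25, 0, 0, 0, 0), (26, 0, 0, 0, 0), (25, 0, 0, 0, 0), (27, 0, 0, 0, 0), (26, 0, 0, 0, 0), (27, 0, 0, 0, 0), (15, 0, 0, 0, 0), (29, 0, 0, 0, 0), (15, 0, 0, 0, 0), (16, 0, 0, 0, 0), (29, 0, 0, 0, 0), (16, 0, 0, 0, 0), (17, 0, 0, 0, 0), (18, 0, 0, 0, 0), (17, 0, 0, 0, 0), (19, 0, 0, 0, 0), (18, 0, 0, 0, 0), (19, 0, 0, 0, 0)]]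

def m43_1 : Base := (1, 1, [(0, [0], [0, 5]), (0, [0], [1, 5]), (1, [], [3, 4]), (4, [], [2])])

def l43_1 : Cov := [(144, 1, 1, [(0, [0], [0, 5]), (0, [0], [1, 5]), (1, [], [3, 4]), (4, [], [2])]),
  (72, 1, 1, [(0, [0], [0, 5]), (0, [0], [1, 5]), (1, [], [2, 4]), (4, [], [3])]),
  (72, 1, 1, [(0, [0], [0, 5]), (0, [0], [1, 5]), (1, [], [2, 3]), (4, [], [4])]),
  (72, 1, 1, [(0, [0], [0, 5]), (0, [0], [2, 5]), (1, [], [3, 4]), (4, [], [1])]),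
  (-72, 1, 1, [(0, [0], [0, 5]), (0, [0], [2, 5]), (1, [], [1, 3]), (4, [], [4])]),
  (-72, 1, 1, [(0, [0], [0, 5]), (0, [0], [4, 5]), (1, [], [2, 3]), (4, [], [1])]),
  (-144, 1, 1, [(0, [0], [0, 5]), (0, [0], [4, 5]), (1, [], [1, 3]), (4, [], [2])]),
  (-72, 1, 1, [(0, [0], [0, 5]), (0, [0], [4, 5]), (1, [], [1, 2]), (4, [], [3])]),
  (72, 1, 1, [(0, [0], [1, 5]), (0, [0], [2, 5]), (1, [], [3, 4]), (4, [], [0])]),
  (-72, 1, 1, [(0, [0], [1, 5]), (0, [0], [2, 5]), (1, [], [0, 4]), (4, [], [3])]),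
  (-72, 1, 1, [(0, [0], [1, 5]), (0, [0], [3, 5]), (1, [], [2, 4]), (4, [], [0])]),
  (-144, 1, 1, [(0, [0], [1, 5]), (0, [0], [3, 5]), (1, [], [0, 4]), (4, [], [2])]),
  (-72, 1, 1, [(0, [0], [1, 5]), (0, [0], [3, 5]), (1, [], [0, 2]), (4, [], [4])]),
  (-72, 1, 1, [(0, [0], [2, 5]), (0, [0], [3, 5]), (1, [], [0, 4]), (4, [], [1])]),
  (72, 1, 1, [(0, [0], [2, 5]), (0, [0], [3, 5]), (1, [], [0, 1]), (4, [], [4])]),
  (-72, 1, 1, [(0, [0], [2, 5]), (0, [0], [4, 5]), (1, [], [1, 3]), (4, [], [0])]),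
  (72, 1, 1, [(0, [0], [2, 5]), (0, [0], [4, 5]), (1, [], [0, 1]), (4, [], [3])]),
  (72, 1, 1, [(0, [0], [3, 5]), (0, [0], [4, 5]), (1, [], [1, 2]), (4, [], [0])]),
  (72, 1, 1, [(0, [0], [3, 5]), (0, [0], [4, 5]), (1, [], [0, 2]), (4, [], [1])]),
  (144, 1, 1, [(0, [0], [3, 5]), (0, [0], [4, 5]), (1, [], [0, 1]), (4, [], [2])])]

def z43_1 : Cov := [(0, 1, 1, [(0, [0], [0, 5]), (0, [0], [2, 5]), (1, [], [1, 4]), (4, [], [3])]),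
  (0, 1, 1, [(0, [0], [0, 5]), (0, [0], [3, 5]), (1, [], [2, 4]), (4, [], [1])]),
  (0, 1, 1, [(0, [0], [0, 5]), (0, [0], [3, 5]), (1, [], [1, 4]), (4, [], [2])]),
  (0, 1, 1, [(0, [0], [0, 5]), (0, [0], [3, 5]), (1, [], [1, 2]), (4, [], [4])]),
  (0, 1, 1, [(0, [0], [1, 5]), (0, [0], [2, 5]), (1, [], [0, 3]), (4, [], [4])]),
  (0, 1, 1, [(0, [0], [1, 5]), (0, [0], [4, 5]), (1, [], [2, 3]), (4, [], [0])]),
  (0, 1, 1, [(0, [0], [1, 5]), (0, [0], [4, 5]), (1, [], [0, 3]), (4, [], [2])]),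
  (0, 1, 1, [(0, [0], [1, 5]), (0, [0], [4, 5]), (1, [], [0, 2]), (4, [], [3])]),
  (0, 1, 1, [(0, [0], [2, 5]), (0, [0], [3, 5]), (1, [], [1, 4]), (4, [], [0])]),
  (0, 1, 1, [(0, [0], [2, 5]), (0, [0], [4, 5]), (1, [], [0, 3]), (4, [], [1])])]

def w43_1 : List (List Wit) := [[(0, 0, 0, 0, 0), (0, 0, 0, 0, 0), (1, 0, 0, 0, 0), (1, 0, 0, 0, 0), (2, 0, 0, 0, 0), (2, 0, 0, 0, 0), (3, 0, 0, 0, 0), (3, 0, 0, 0, 0), (20, 0, 0, 0, 0), (20, 0, 0, 0, 0), (4, 0, 0, 0, 0), (4, 0, 0, 0, 0), (21, 0, 0, 0, 0), (21, 0, 0, 0, 0), (22, 0, 0, 0, 0), (22, 0, 0, 0, 0), (23, 0, 0, 0, 0), (23, 0, 0, 0, 0), (5, 0, 0, 0, 0), (5, 0, 0, 0, 0), (6, 0, 0, 0, 0), (6, 0, 0, 0, 0), (7, 0, 0, 0, 0), (7, 0, 0, 0, 0), (0, 0, 0, 0, 0), (0, 0, 0, 0, 0), (1, 0, 0, 0, 0), (1, 0, 0, 0, 0), (2, 0, 0, 0, 0), (2, 0, 0, 0, 0), (8, 0, 0, 0, 0), (8, 0, 0, 0, 0), (9, 0, 0, 0, 0), (9, 0, 0,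 0, 0), (24, 0, 0, 0, 0), (24, 0, 0, 0, 0), (10, 0, 0, 0, 0), (10, 0, 0, 0, 0), (11, 0, 0, 0, 0), (11, 0, 0, 0, 0), (12, 0, 0, 0, 0), (12, 0, 0, 0, 0), (25, 0, 0, 0, 0), (25, 0, 0, 0, 0), (26, 0, 0, 0, 0), (26, 0, 0, 0, 0), (27, 0, 0, 0, 0), (27, 0, 0, 0, 0), (3, 0, 0, 0, 0), (3, 0, 0, 0, 0), (20, 0, 0, 0, 0), (20, 0, 0, 0, 0), (4, 0, 0, 0, 0), (4, 0, 0, 0, 0), (8, 0, 0, 0, 0), (8, 0, 0, 0, 0), (9, 0, 0, 0, 0), (9, 0, 0, 0, 0), (24, 0, 0, 0, 0), (24, 0, 0, 0, 0), (28, 0, 0, 0, 0), (28, 0, 0, 0, 0), (13, 0, 0, 0, 0), (13, 0, 0, 0, 0), (14, 0, 0, 0, 0), (14, 0, 0, 0, 0), (15, 0, 0, 0, 0), (15, 0, 0, 0, 0), (29, 0, 0, 0, 0), (29, 0, 0, 0, 0), (16, 0, 0, 0, 0), (16, 0, 0, 0, 0), (21, 0, 0, 0, 0), (21, 0, 0, 0, 0), (22, 0, 0, 0, 0), (22, 0, 0, 0, 0), (23, 0, 0, 0, 0), (23, 0, 0, 0, 0), (10, 0, 0, 0, 0), (10, 0, 0, 0, 0), (11, 0, 0, 0, 0), (11, 0, 0, 0,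 0), (12, 0, 0, 0, 0), (12, 0, 0, 0, 0), (28, 0, 0, 0, 0), (28, 0, 0, 0, 0), (13, 0, 0, 0, 0), (13, 0, 0, 0, 0), (14, 0, 0, 0, 0), (14, 0, 0, 0, 0), (17, 0, 0, 0, 0), (17, 0, 0, 0, 0), (18, 0, 0, 0, 0), (18, 0, 0, 0, 0), (19, 0, 0, 0, 0), (19, 0, 0, 0, 0), (5, 0, 0, 0, 0), (5, 0, 0, 0, 0), (6, 0, 0, 0, 0), (6, 0, 0, 0, 0), (7, 0, 0, 0, 0), (7, 0, 0, 0, 0), (25, 0, 0, 0, 0), (25, 0, 0, 0, 0), (26, 0, 0, 0, 0), (26, 0, 0, 0, 0), (27, 0, 0, 0, 0), (27, 0, 0, 0, 0), (15, 0, 0, 0, 0), (15, 0, 0, 0, 0), (29, 0, 0, 0, 0), (29, 0, 0, 0, 0), (16, 0, 0, 0, 0), (16, 0, 0, 0, 0), (17, 0, 0, 0, 0), (17, 0, 0, 0, 0), (18, 0, 0, 0, 0), (18, 0, 0, 0, 0), (19, 0, 0, 0, 0), (19, 0, 0, 0, 0)]]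

def m43_2 : Base := (1, 1, [(0, [0], [0, 5]), (0, [0], [1, 2]), (1, [], [3, 5]), (4, [], [4])])

def l43_2 : Cov := [(72, 1, 1, [(0, [0], [0, 5]), (0, [0], [1, 2]), (1, [], [3, 5]), (4, [], [4])]),
  (36, 1, 1, [(0, [0], [0, 5]), (0, [0], [1, 2]), (1, [], [4, 5]), (4, [], [3])]),
  (36, 1, 1, [(0, [0], [0, 5]), (0, [0], [1, 3]), (1, [], [2, 5]), (4, [], [4])]),
  (36, 1, 1, [(0, [0], [0, 5]), (0, [0], [2, 3]), (1, [], [1, 5]), (4, [], [4])]),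
  (-36, 1, 1, [(0, [0], [0, 5]), (0, [0], [2, 3]), (1, [], [4, 5]), (4, [], [1])]),
  (-36, 1, 1, [(0, [0], [0, 5]), (0, [0], [2, 4]), (1, [], [1, 5]), (4, [], [3])]),
  (-72, 1, 1, [(0, [0], [0, 5]), (0, [0], [2, 4]), (1, [], [3, 5]), (4, [], [1])]),
  (-36, 1, 1, [(0, [0], [0, 5]), (0, [0], [3, 4]), (1, [], [2, 5]), (4, [], [1])]),
  (36, 1, 1, [(0, [0], [1, 5]), (0, [0], [0, 2]), (1, [], [3, 5]), (4, [], [4])]),
  (72, 1, 1, [(0, [0], [1, 5]), (0, [0], [0, 2]), (1, [], [4, 5]), (4, [], [3])]),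
  (36, 1, 1, [(0, [0], [1, 5]), (0, [0], [0, 4]), (1, [], [2, 5]), (4, [], [3])]),
  (-36, 1, 1, [(0, [0], [1, 5]), (0, [0], [2, 3]), (1, [], [0, 5]), (4, [], [4])]),
  (-72, 1, 1, [(0, [0], [1, 5]), (0, [0], [2, 3]), (1, [], [4, 5]), (4, [], [0])]),
  (36, 1, 1, [(0, [0], [1, 5]), (0, [0], [2, 4]), (1, [], [0, 5]), (4, [], [3])]),
  (-36, 1, 1, [(0, [0], [1, 5]), (0, [0], [2, 4]), (1, [], [3, 5]), (4, [], [0])]),
  (-36, 1, 1, [(0, [0], [1, 5]), (0, [0], [3, 4]), (1, [], [2, 5]), (4, [], [0])]),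
  (36, 1, 1, [(0, [0], [2, 5]), (0, [0], [0, 1]), (1, [], [3, 5]), (4, [], [4])]),
  (36, 1, 1, [(0, [0], [2, 5]), (0, [0], [0, 1]), (1, [], [4, 5]), (4, [], [3])]),
  (-36, 1, 1, [(0, [0], [2, 5]), (0, [0], [0, 4]), (1, [], [1, 5]), (4, [], [3])]),
  (-36, 1, 1, [(0, [0], [2, 5]), (0, [0], [0, 4]), (1, [], [3, 5]), (4, [], [1])]),
  (-36, 1, 1, [(0, [0], [2, 5]), (0, [0], [1, 3]), (1, [], [0, 5]), (4, [], [4])]),
  (-36, 1, 1, [(0, [0], [2, 5]), (0, [0], [1, 3]), (1, [], [4, 5]), (4, [], [0])]),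
  (36, 1, 1, [(0, [0], [2, 5]), (0, [0], [3, 4]), (1, [], [0, 5]), (4, [], [1])]),
  (36, 1, 1, [(0, [0], [2, 5]), (0, [0], [3, 4]), (1, [], [1, 5]), (4, [], [0])]),
  (-36, 1, 1, [(0, [0], [3, 5]), (0, [0], [0, 1]), (1, [], [2, 5]), (4, [], [4])]),
  (-36, 1, 1, [(0, [0], [3, 5]), (0, [0], [0, 2]), (1, [], [1, 5]), (4, [], [4])]),
  (36, 1, 1, [(0, [0], [3, 5]), (0, [0], [0, 2]), (1, [], [4, 5]), (4, [], [1])]),
  (36, 1, 1, [(0, [0], [3, 5]), (0, [0], [0, 4]), (1, [], [2, 5]), (4, [], [1])]),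
  (-72, 1, 1, [(0, [0], [3, 5]), (0, [0], [1, 2]), (1, [], [0, 5]), (4, [], [4])]),
  (-36, 1, 1, [(0, [0], [3, 5]), (0, [0], [1, 2]), (1, [], [4, 5]), (4, [], [0])]),
  (72, 1, 1, [(0, [0], [3, 5]), (0, [0], [2, 4]), (1, [], [0, 5]), (4, [], [1])]),
  (36, 1, 1, [(0, [0], [3, 5]), (0, [0], [2, 4]), (1, [], [1, 5]), (4, [], [0])]),
  (-36, 1, 1, [(0, [0], [4, 5]), (0, [0], [0, 1]), (1, [], [2, 5]), (4, [], [3])]),
  (-72, 1, 1, [(0, [0], [4, 5]), (0, [0], [0, 2]), (1, [], [1, 5]), (4, [], [3])]),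
  (-36, 1, 1, [(0, [0], [4, 5]), (0, [0], [0, 2]), (1, [], [3, 5]), (4, [], [1])]),
  (-36, 1, 1, [(0, [0], [4, 5]), (0, [0], [1, 2]), (1, [], [0, 5]), (4, [], [3])]),
  (36, 1, 1, [(0, [0], [4, 5]), (0, [0], [1, 2]), (1, [], [3, 5]), (4, [], [0])]),
  (36, 1, 1, [(0, [0], [4, 5]), (0, [0], [1, 3]), (1, [], [2, 5]), (4, [], [0])]),
  (36, 1, 1, [(0, [0], [4, 5]), (0, [0], [2, 3]), (1, [], [0, 5]), (4, [], [1])]),
  (72, 1, 1, [(0, [0], [4, 5]), (0, [0], [2, 3]), (1, [], [1, 5]), (4, [], [0])])]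

def z43_2 : Cov := [(0, 1, 1, [(0, [0], [0, 5]), (0, [0], [1, 3]), (1, [], [4, 5]), (4, [], [2])]),
  (0, 1, 1, [(0, [0], [0, 5]), (0, [0], [1, 4]), (1, [], [2, 5]), (4, [], [3])]),
  (0, 1, 1, [(0, [0], [0, 5]), (0, [0], [1, 4]), (1, [], [3, 5]), (4, [], [2])]),
  (0, 1, 1, [(0, [0], [0, 5]), (0, [0], [3, 4]), (1, [], [1, 5]), (4, [], [2])]),
  (0, 1, 1, [(0, [0], [1, 5]), (0, [0], [0, 3]), (1, [], [2, 5]), (4, [], [4])]),
  (0, 1, 1, [(0, [0], [1, 5]), (0, [0], [0, 3]), (1, [], [4, 5]), (4, [], [2])]),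
  (0, 1, 1, [(0, [0], [1, 5]), (0, [0], [0, 4]), (1, [], [3, 5]), (4, [], [2])]),
  (0, 1, 1, [(0, [0], [1, 5]), (0, [0], [3, 4]), (1, [], [0, 5]), (4, [], [2])]),
  (0, 1, 1, [(0, [0], [2, 5]), (0, [0], [0, 3]), (1, [], [1, 5]), (4, [], [4])]),
  (0, 1, 1, [(0, [0], [2, 5]), (0, [0], [0, 3]), (1, [], [4, 5]), (4, [], [1])]),
  (0, 1, 1, [(0, [0], [2, 5]), (0, [0], [1, 4]), (1, [], [0, 5]), (4, [], [3])]),
  (0, 1, 1, [(0, [0], [2, 5]), (0, [0], [1, 4]), (1, [], [3, 5]), (4, [], [0])]),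
  (0, 1, 1, [(0, [0], [3, 5]), (0, [0], [0, 1]), (1, [], [4, 5]), (4, [], [2])]),
  (0, 1, 1, [(0, [0], [3, 5]), (0, [0], [0, 4]), (1, [], [1, 5]), (4, [], [2])]),
  (0, 1, 1, [(0, [0], [3, 5]), (0, [0], [1, 4]), (1, [], [0, 5]), (4, [], [2])]),
  (0, 1, 1, [(0, [0], [3, 5]), (0, [0], [1, 4]), (1, [], [2, 5]), (4, [], [0])]),
  (0, 1, 1, [(0, [0], [4, 5]), (0, [0], [0, 1]), (1, [], [3, 5]), (4, [], [2])]),
  (0, 1, 1, [(0, [0], [4, 5]), (0, [0], [0, 3]), (1, [], [1, 5]), (4, [], [2])]),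
  (0, 1, 1, [(0, [0], [4, 5]), (0, [0], [0, 3]), (1, [], [2, 5]), (4, [], [1])]),
  (0, 1, 1, [(0, [0], [4, 5]), (0, [0], [1, 3]), (1, [], [0, 5]), (4, [], [2])])]

def w43_2 : List (List Wit) := [[(0, 0, 0, 0, 0), (1, 0, 0, 0, 0), (2, 0, 0, 0, 0), (40, 0, 0, 0, 0), (41, 0, 0, 0, 0), (42, 0, 0, 0, 0), (0, 0, 0, 0, 0), (1, 0, 0, 0, 0), (3, 0, 0, 0, 0), (4, 0, 0, 0, 0), (5, 0, 0, 0, 0), (6, 0, 0, 0, 0), (2, 0, 0, 0, 0), (40, 0, 0, 0, 0), (3, 0, 0, 0, 0), (4, 0, 0, 0, 0), (43, 0, 0, 0, 0), (7, 0, 0, 0, 0), (41, 0, 0, 0, 0), (42, 0, 0, 0, 0), (5, 0, 0, 0, 0), (6, 0, 0, 0, 0), (43, 0, 0, 0, 0), (7, 0, 0, 0, 0), (8, 0, 0, 0, 0), (9, 0, 0, 0, 0), (44, 0, 0, 0, 0), (45, 0, 0, 0, 0), (10, 0, 0, 0, 0), (46, 0, 0, 0, 0), (8, 0, 0, 0, 0), (9, 0, 0, 0, 0), (11, 0, 0, 0, 0), (12, 0, 0, 0, 0), (13, 0, 0, 0, 0), (14, 0, 0, 0, 0), (44, 0, 0, 0, 0), (45, 0, 0, 0, 0),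 (11, 0, 0, 0, 0), (12, 0, 0, 0, 0), (47, 0, 0, 0, 0), (15, 0, 0, 0, 0), (10, 0, 0, 0, 0), (46, 0, 0, 0, 0), (13, 0, 0, 0, 0), (14, 0, 0, 0, 0), (47, 0, 0, 0, 0), (15, 0, 0, 0, 0), (16, 0, 0, 0, 0), (17, 0, 0, 0, 0), (48, 0, 0, 0, 0), (49, 0, 0, 0, 0), (18, 0, 0, 0, 0), (19, 0, 0, 0, 0), (16, 0, 0, 0, 0), (17, 0, 0, 0, 0), (20, 0, 0, 0, 0), (21, 0, 0, 0, 0), (50, 0, 0, 0, 0), (51, 0, 0, 0, 0), (48, 0, 0, 0, 0), (49, 0, 0, 0, 0), (20, 0, 0, 0, 0), (21, 0, 0, 0, 0), (22, 0, 0, 0, 0), (23, 0, 0, 0, 0), (18, 0, 0, 0, 0), (19, 0, 0, 0, 0), (50, 0, 0, 0, 0), (51, 0, 0, 0, 0), (22, 0, 0, 0, 0), (23, 0, 0, 0, 0), (24, 0, 0, 0, 0), (52, 0, 0, 0, 0), (25, 0, 0, 0, 0), (26, 0, 0, 0, 0), (53, 0, 0, 0, 0), (27, 0, 0, 0, 0), (24, 0, 0, 0, 0), (52, 0, 0, 0, 0), (28, 0, 0, 0, 0), (29, 0, 0, 0, 0), (54, 0, 0, 0, 0), (55, 0, 0, 0, 0), (25, 0, 0, 0, 0), (26, 0, 0, 0,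 0), (28, 0, 0, 0, 0), (29, 0, 0, 0, 0), (30, 0, 0, 0, 0), (31, 0, 0, 0, 0), (53, 0, 0, 0, 0), (27, 0, 0, 0, 0), (54, 0, 0, 0, 0), (55, 0, 0, 0, 0), (30, 0, 0, 0, 0), (31, 0, 0, 0, 0), (32, 0, 0, 0, 0), (56, 0, 0, 0, 0), (33, 0, 0, 0, 0), (34, 0, 0, 0, 0), (57, 0, 0, 0, 0), (58, 0, 0, 0, 0), (32, 0, 0, 0, 0), (56, 0, 0, 0, 0), (35, 0, 0, 0, 0), (36, 0, 0, 0, 0), (59, 0, 0, 0, 0), (37, 0, 0, 0, 0), (33, 0, 0, 0, 0), (34, 0, 0, 0, 0), (35, 0, 0, 0, 0), (36, 0, 0, 0, 0), (38, 0, 0, 0, 0), (39, 0, 0, 0, 0), (57, 0, 0, 0, 0), (58, 0, 0, 0, 0), (59, 0, 0, 0, 0), (37, 0, 0, 0, 0), (38, 0, 0, 0, 0), (39, 0, 0, 0, 0)]]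

def m43_3 : Base := (1, 1, [(0, [0], [0, 5]), (0, [0], [1, 2]), (1, [], [3, 4]), (4, [], [5])])

def l43_3 : Cov := [(108, 1, 1, [(0, [0], [0, 5]), (0, [0], [1, 2]), (1, [], [3, 4]), (4, [], [5])]),
  (36, 1, 1, [(0, [0], [0, 5]), (0, [0], [1, 3]), (1, [], [2, 4]), (4, [], [5])]),
  (-108, 1, 1, [(0, [0], [0, 5]), (0, [0], [2, 4]), (1, [], [1, 3]), (4, [], [5])]),
  (-36, 1, 1, [(0, [0], [0, 5]), (0, [0], [3, 4]), (1, [], [1, 2]), (4, [], [5])]),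
  (108, 1, 1, [(0, [0], [1, 5]), (0, [0], [0, 2]), (1, [], [3, 4]), (4, [], [5])]),
  (36, 1, 1, [(0, [0], [1, 5]), (0, [0], [0, 4]), (1, [], [2, 3]), (4, [], [5])]),
  (-108, 1, 1, [(0, [0], [1, 5]), (0, [0], [2, 3]), (1, [], [0, 4]), (4, [], [5])]),
  (-36, 1, 1, [(0, [0], [1, 5]), (0, [0], [3, 4]), (1, [], [0, 2]), (4, [], [5])]),
  (72, 1, 1, [(0, [0], [2, 5]), (0, [0], [0, 1]), (1, [], [3, 4]), (4, [], [5])]),
  (-72, 1, 1, [(0, [0], [2, 5]), (0, [0], [0, 4]), (1, [], [1, 3]), (4, [], [5])]),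
  (-72, 1, 1, [(0, [0], [2, 5]), (0, [0], [1, 3]), (1, [], [0, 4]), (4, [], [5])]),
  (72, 1, 1, [(0, [0], [2, 5]), (0, [0], [3, 4]), (1, [], [0, 1]), (4, [], [5])]),
  (-36, 1, 1, [(0, [0], [3, 5]), (0, [0], [0, 1]), (1, [], [2, 4]), (4, [], [5])]),
  (36, 1, 1, [(0, [0], [3, 5]), (0, [0], [0, 4]), (1, [], [1, 2]), (4, [], [5])]),
  (-108, 1, 1, [(0, [0], [3, 5]), (0, [0], [1, 2]), (1, [], [0, 4]), (4, [], [5])]),
  (108, 1, 1, [(0, [0], [3, 5]), (0, [0], [2, 4]), (1, [], [0, 1]), (4, [], [5])]),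
  (-36, 1, 1, [(0, [0], [4, 5]), (0, [0], [0, 1]), (1, [], [2, 3]), (4, [], [5])]),
  (-108, 1, 1, [(0, [0], [4, 5]), (0, [0], [0, 2]), (1, [], [1, 3]), (4, [], [5])]),
  (36, 1, 1, [(0, [0], [4, 5]), (0, [0], [1, 3]), (1, [], [0, 2]), (4, [], [5])]),
  (108, 1, 1, [(0, [0], [4, 5]), (0, [0], [2, 3]), (1, [], [0, 1]), (4, [], [5])])]

def z43_3 : Cov := [(0, 1, 1, [(0, [0], [0, 5]), (0, [0], [1, 4]), (1, [], [2, 3]), (4, [], [5])]),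
  (0, 1, 1, [(0, [0], [0, 5]), (0, [0], [2, 3]), (1, [], [1, 4]), (4, [], [5])]),
  (0, 1, 1, [(0, [0], [1, 5]), (0, [0], [0, 3]), (1, [], [2, 4]), (4, [], [5])]),
  (0, 1, 1, [(0, [0], [1, 5]), (0, [0], [2, 4]), (1, [], [0, 3]), (4, [], [5])]),
  (0, 1, 1, [(0, [0], [2, 5]), (0, [0], [0, 3]), (1, [], [1, 4]), (4, [], [5])]),
  (0, 1, 1, [(0, [0], [2, 5]), (0, [0], [1, 4]), (1, [], [0, 3]), (4, [], [5])]),
  (0, 1, 1, [(0, [0], [3, 5]), (0, [0], [0, 2]), (1, [], [1, 4]), (4, [], [5])]),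
  (0, 1, 1, [(0, [0], [3, 5]), (0, [0], [1, 4]), (1, [], [0, 2]), (4, [], [5])]),
  (0, 1, 1, [(0, [0], [4, 5]), (0, [0], [0, 3]), (1, [], [1, 2]), (4, [], [5])]),
  (0, 1, 1, [(0, [0], [4, 5]), (0, [0], [1, 2]), (1, [], [0, 3]), (4, [], [5])])]

def w43_3 : List (List Wit) := [[(0, 0, 0, 0, 0), (0, 0, 0, 0, 0), (1, 0, 0, 0, 0), (1, 0, 0, 0, 0), (20, 0, 0, 0, 0), (20, 0, 0, 0, 0), (0, 0, 0, 0, 0), (0, 0, 0, 0, 0), (21, 0, 0, 0, 0), (21, 0, 0, 0, 0), (2, 0, 0, 0, 0), (2, 0, 0, 0, 0), (1, 0, 0, 0, 0), (1, 0, 0, 0, 0), (21, 0, 0, 0, 0), (21, 0, 0, 0, 0), (3, 0, 0, 0, 0), (3, 0, 0, 0, 0), (20, 0, 0, 0, 0), (20, 0, 0, 0, 0), (2, 0, 0, 0, 0), (2, 0, 0, 0, 0), (3, 0, 0, 0, 0), (3, 0, 0, 0, 0), (4, 0, 0, 0, 0), (4, 0, 0, 0, 0), (22, 0, 0, 0, 0), (22, 0, 0, 0, 0), (5, 0, 0, 0, 0), (5, 0, 0, 0, 0), (4, 0, 0, 0, 0), (4, 0, 0, 0, 0), (6, 0, 0, 0, 0), (6, 0, 0,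 0, 0), (23, 0, 0, 0, 0), (23, 0, 0, 0, 0), (22, 0, 0, 0, 0), (22, 0, 0, 0, 0), (6, 0, 0, 0, 0), (6, 0, 0, 0, 0), (7, 0, 0, 0, 0), (7, 0, 0, 0, 0), (5, 0, 0, 0, 0), (5, 0, 0, 0, 0), (23, 0, 0, 0, 0), (23, 0, 0, 0, 0), (7, 0, 0, 0, 0), (7, 0, 0, 0, 0), (8, 0, 0, 0, 0), (8, 0, 0, 0, 0), (24, 0, 0, 0, 0), (24, 0, 0, 0, 0), (9, 0, 0, 0, 0), (9, 0, 0, 0, 0), (8, 0, 0, 0, 0), (8, 0, 0, 0, 0), (10, 0, 0, 0, 0), (10, 0, 0, 0, 0), (25, 0, 0, 0, 0), (25, 0, 0, 0, 0), (24, 0, 0, 0, 0), (24, 0, 0, 0, 0), (10, 0, 0, 0, 0), (10, 0, 0, 0, 0), (11, 0, 0, 0, 0), (11, 0, 0, 0, 0), (9, 0, 0, 0, 0), (9, 0, 0, 0, 0), (25, 0, 0, 0, 0), (25, 0, 0, 0, 0), (11, 0, 0, 0, 0), (11, 0, 0, 0, 0), (12, 0, 0, 0, 0), (12, 0, 0, 0, 0), (26, 0, 0, 0, 0), (26, 0, 0, 0, 0), (13, 0, 0, 0, 0), (13, 0, 0, 0, 0), (12, 0, 0, 0, 0), (12, 0, 0, 0, 0), (14, 0, 0, 0, 0), (14, 0, 0, 0, 0), (27,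 0, 0, 0, 0), (27, 0, 0, 0, 0), (26, 0, 0, 0, 0), (26, 0, 0, 0, 0), (14, 0, 0, 0, 0), (14, 0, 0, 0, 0), (15, 0, 0, 0, 0), (15, 0, 0, 0, 0), (13, 0, 0, 0, 0), (13, 0, 0, 0, 0), (27, 0, 0, 0, 0), (27, 0, 0, 0, 0), (15, 0, 0, 0, 0), (15, 0, 0, 0, 0), (16, 0, 0, 0, 0), (16, 0, 0, 0, 0), (17, 0, 0, 0, 0), (17, 0, 0, 0, 0), (28, 0, 0, 0, 0), (28, 0, 0, 0, 0), (16, 0, 0, 0, 0), (16, 0, 0, 0, 0), (29, 0, 0, 0, 0), (29, 0, 0, 0, 0), (18, 0, 0, 0, 0), (18, 0, 0, 0, 0), (17, 0, 0, 0, 0), (17, 0, 0, 0, 0), (29, 0, 0, 0, 0), (29, 0, 0, 0, 0), (19, 0, 0, 0, 0), (19, 0, 0, 0, 0), (28, 0, 0, 0, 0), (28, 0, 0, 0, 0), (18, 0, 0, 0, 0), (18, 0, 0, 0, 0), (19, 0, 0, 0, 0), (19, 0, 0, 0, 0)]]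

def m43_4 : Base := (1, 1, [(0, [0], [0, 5]), (0, [0], [1, 2]), (1, [], [4, 5]), (4, [], [3])])

def l43_4 : Cov := [(72, 1, 1, [(0, [0], [0, 5]), (0, [0], [1, 2]), (1, [], [4, 5]), (4, [], [3])]),
  (36, 1, 1, [(0, [0], [0, 5]), (0, [0], [1, 2]), (1, [], [3, 5]), (4, [], [4])]),
  (36, 1, 1, [(0, [0], [0, 5]), (0, [0], [1, 3]), (1, [], [4, 5]), (4, [], [2])]),
  (36, 1, 1, [(0, [0], [0, 5]), (0, [0], [2, 3]), (1, [], [4, 5]), (4, [], [1])]),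
  (-36, 1, 1, [(0, [0], [0, 5]), (0, [0], [2, 3]), (1, [], [1, 5]), (4, [], [4])]),
  (-36, 1, 1, [(0, [0], [0, 5]), (0, [0], [2, 4]), (1, [], [3, 5]), (4, [], [1])]),
  (-72, 1, 1, [(0, [0], [0, 5]), (0, [0], [2, 4]), (1, [], [1, 5]), (4, [], [3])]),
  (-36, 1, 1, [(0, [0], [0, 5]), (0, [0], [3, 4]), (1, [], [1, 5]), (4, [], [2])]),
  (36, 1, 1, [(0, [0], [1, 5]), (0, [0], [0, 2]), (1, [], [4, 5]), (4, [], [3])]),
  (72, 1, 1, [(0, [0], [1, 5]), (0, [0], [0, 2]), (1, [], [3, 5]), (4, [], [4])]),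
  (36, 1, 1, [(0, [0], [1, 5]), (0, [0], [0, 4]), (1, [], [3, 5]), (4, [], [2])]),
  (-36, 1, 1, [(0, [0], [1, 5]), (0, [0], [2, 3]), (1, [], [4, 5]), (4, [], [0])]),
  (-72, 1, 1, [(0, [0], [1, 5]), (0, [0], [2, 3]), (1, [], [0, 5]), (4, [], [4])]),
  (36, 1, 1, [(0, [0], [1, 5]), (0, [0], [2, 4]), (1, [], [3, 5]), (4, [], [0])]),
  (-36, 1, 1, [(0, [0], [1, 5]), (0, [0], [2, 4]), (1, [], [0, 5]), (4, [], [3])]),
  (-36, 1, 1, [(0, [0], [1, 5]), (0, [0], [3, 4]), (1, [], [0, 5]), (4, [], [2])]),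
  (36, 1, 1, [(0, [0], [2, 5]), (0, [0], [0, 1]), (1, [], [4, 5]), (4, [], [3])]),
  (36, 1, 1, [(0, [0], [2, 5]), (0, [0], [0, 1]), (1, [], [3, 5]), (4, [], [4])]),
  (-36, 1, 1, [(0, [0], [2, 5]), (0, [0], [0, 4]), (1, [], [3, 5]), (4, [], [1])]),
  (-36, 1, 1, [(0, [0], [2, 5]), (0, [0], [0, 4]), (1, [], [1, 5]), (4, [], [3])]),
  (-36, 1, 1, [(0, [0], [2, 5]), (0, [0], [1, 3]), (1, [], [4, 5]), (4, [], [0])]),
  (-36, 1, 1, [(0, [0], [2, 5]), (0, [0], [1, 3]), (1, [], [0, 5]), (4, [], [4])]),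
  (36, 1, 1, [(0, [0], [2, 5]), (0, [0], [3, 4]), (1, [], [1, 5]), (4, [], [0])]),
  (36, 1, 1, [(0, [0], [2, 5]), (0, [0], [3, 4]), (1, [], [0, 5]), (4, [], [1])]),
  (-36, 1, 1, [(0, [0], [3, 5]), (0, [0], [0, 1]), (1, [], [4, 5]), (4, [], [2])]),
  (-36, 1, 1, [(0, [0], [3, 5]), (0, [0], [0, 2]), (1, [], [4, 5]), (4, [], [1])]),
  (36, 1, 1, [(0, [0], [3, 5]), (0, [0], [0, 2]), (1, [], [1, 5]), (4, [], [4])]),
  (36, 1, 1, [(0, [0], [3, 5]), (0, [0], [0, 4]), (1, [], [1, 5]), (4, [], [2])]),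
  (-72, 1, 1, [(0, [0], [3, 5]), (0, [0], [1, 2]), (1, [], [4, 5]), (4, [], [0])]),
  (-36, 1, 1, [(0, [0], [3, 5]), (0, [0], [1, 2]), (1, [], [0, 5]), (4, [], [4])]),
  (72, 1, 1, [(0, [0], [3, 5]), (0, [0], [2, 4]), (1, [], [1, 5]), (4, [], [0])]),
  (36, 1, 1, [(0, [0], [3, 5]), (0, [0], [2, 4]), (1, [], [0, 5]), (4, [], [1])]),
  (-36, 1, 1, [(0, [0], [4, 5]), (0, [0], [0, 1]), (1, [], [3, 5]), (4, [], [2])]),
  (-72, 1, 1, [(0, [0], [4, 5]), (0, [0], [0, 2]), (1, [], [3, 5]), (4, [], [1])]),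
  (-36, 1, 1, [(0, [0], [4, 5]), (0, [0], [0, 2]), (1, [], [1, 5]), (4, [], [3])]),
  (-36, 1, 1, [(0, [0], [4, 5]), (0, [0], [1, 2]), (1, [], [3, 5]), (4, [], [0])]),
  (36, 1, 1, [(0, [0], [4, 5]), (0, [0], [1, 2]), (1, [], [0, 5]), (4, [], [3])]),
  (36, 1, 1, [(0, [0], [4, 5]), (0, [0], [1, 3]), (1, [], [0, 5]), (4, [], [2])]),
  (36, 1, 1, [(0, [0], [4, 5]), (0, [0], [2, 3]), (1, [], [1, 5]), (4, [], [0])]),
  (72, 1, 1, [(0, [0], [4, 5]), (0, [0], [2, 3]), (1, [], [0, 5]), (4, [], [1])])]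

def z43_4 : Cov := [(0, 1, 1, [(0, [0], [0, 5]), (0, [0], [1, 3]), (1, [], [2, 5]), (4, [], [4])]),
  (0, 1, 1, [(0, [0], [0, 5]), (0, [0], [1, 4]), (1, [], [3, 5]), (4, [], [2])]),
  (0, 1, 1, [(0, [0], [0, 5]), (0, [0], [1, 4]), (1, [], [2, 5]), (4, [], [3])]),
  (0, 1, 1, [(0, [0], [0, 5]), (0, [0], [3, 4]), (1, [], [2, 5]), (4, [], [1])]),
  (0, 1, 1, [(0, [0], [1, 5]), (0, [0], [0, 3]), (1, [], [4, 5]), (4, [], [2])]),
  (0, 1, 1, [(0, [0], [1, 5]), (0, [0], [0, 3]), (1, [], [2, 5]), (4, [], [4])]),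
  (0, 1, 1, [(0, [0], [1, 5]), (0, [0], [0, 4]), (1, [], [2, 5]), (4, [], [3])]),
  (0, 1, 1, [(0, [0], [1, 5]), (0, [0], [3, 4]), (1, [], [2, 5]), (4, [], [0])]),
  (0, 1, 1, [(0, [0], [2, 5]), (0, [0], [0, 3]), (1, [], [4, 5]), (4, [], [1])]),
  (0, 1, 1, [(0, [0], [2, 5]), (0, [0], [0, 3]), (1, [], [1, 5]), (4, [], [4])]),
  (0, 1, 1, [(0, [0], [2, 5]), (0, [0], [1, 4]), (1, [], [3, 5]), (4, [], [0])]),
  (0, 1, 1, [(0, [0], [2, 5]), (0, [0], [1, 4]), (1, [], [0, 5]), (4, [], [3])]),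
  (0, 1, 1, [(0, [0], [3, 5]), (0, [0], [0, 1]), (1, [], [2, 5]), (4, [], [4])]),
  (0, 1, 1, [(0, [0], [3, 5]), (0, [0], [0, 4]), (1, [], [2, 5]), (4, [], [1])]),
  (0, 1, 1, [(0, [0], [3, 5]), (0, [0], [1, 4]), (1, [], [2, 5]), (4, [], [0])]),
  (0, 1, 1, [(0, [0], [3, 5]), (0, [0], [1, 4]), (1, [], [0, 5]), (4, [], [2])]),
  (0, 1, 1, [(0, [0], [4, 5]), (0, [0], [0, 1]), (1, [], [2, 5]), (4, [], [3])]),
  (0, 1, 1, [(0, [0], [4, 5]), (0, [0], [0, 3]), (1, [], [2, 5]), (4, [], [1])]),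
  (0, 1, 1, [(0, [0], [4, 5]), (0, [0], [0, 3]), (1, [], [1, 5]), (4, [], [2])]),
  (0, 1, 1, [(0, [0], [4, 5]), (0, [0], [1, 3]), (1, [], [2, 5]), (4, [], [0])])]

def w43_4 : List (List Wit) := [[(0, 0, 0, 0, 0), (1, 0, 0, 0, 0), (2, 0, 0, 0, 0), (40, 0, 0, 0, 0), (41, 0, 0, 0, 0), (42, 0, 0, 0, 0), (0, 0, 0, 0, 0), (1, 0, 0, 0, 0), (3, 0, 0, 0, 0), (4, 0, 0, 0, 0), (5, 0, 0, 0, 0), (6, 0, 0, 0, 0), (2, 0, 0, 0, 0), (40, 0, 0, 0, 0), (3, 0, 0, 0, 0), (4, 0, 0, 0, 0), (43, 0, 0, 0, 0), (7, 0, 0, 0, 0), (41, 0, 0, 0, 0), (42, 0, 0, 0, 0), (5, 0, 0, 0, 0), (6, 0, 0, 0, 0), (43, 0, 0, 0, 0), (7, 0, 0, 0, 0), (8, 0, 0, 0, 0), (9, 0, 0, 0, 0), (44, 0, 0, 0, 0), (45, 0, 0, 0, 0), (10, 0, 0, 0, 0), (46, 0, 0, 0, 0), (8, 0, 0, 0, 0), (9, 0, 0, 0, 0), (11, 0, 0, 0, 0), (12, 0, 0, 0, 0), (13, 0, 0, 0, 0), (14, 0, 0, 0, 0), (44, 0, 0, 0, 0), (45, 0, 0, 0, 0),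 (11, 0, 0, 0, 0), (12, 0, 0, 0, 0), (47, 0, 0, 0, 0), (15, 0, 0, 0, 0), (10, 0, 0, 0, 0), (46, 0, 0, 0, 0), (13, 0, 0, 0, 0), (14, 0, 0, 0, 0), (47, 0, 0, 0, 0), (15, 0, 0, 0, 0), (16, 0, 0, 0, 0), (17, 0, 0, 0, 0), (48, 0, 0, 0, 0), (49, 0, 0, 0, 0), (18, 0, 0, 0, 0), (19, 0, 0, 0, 0), (16, 0, 0, 0, 0), (17, 0, 0, 0, 0), (20, 0, 0, 0, 0), (21, 0, 0, 0, 0), (50, 0, 0, 0, 0), (51, 0, 0, 0, 0), (48, 0, 0, 0, 0), (49, 0, 0, 0, 0), (20, 0, 0, 0, 0), (21, 0, 0, 0, 0), (22, 0, 0, 0, 0), (23, 0, 0, 0, 0), (18, 0, 0, 0, 0), (19, 0, 0, 0, 0), (50, 0, 0, 0, 0), (51, 0, 0, 0, 0), (22, 0, 0, 0, 0), (23, 0, 0, 0, 0), (24, 0, 0, 0, 0), (52, 0, 0, 0, 0), (25, 0, 0, 0, 0), (26, 0, 0, 0, 0), (53, 0, 0, 0, 0), (27, 0, 0, 0, 0), (24, 0, 0, 0, 0), (52, 0, 0, 0, 0), (28, 0, 0, 0, 0), (29, 0, 0, 0, 0), (54, 0, 0, 0, 0), (55, 0, 0, 0, 0), (25, 0, 0, 0, 0), (26, 0, 0, 0,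 0), (28, 0, 0, 0, 0), (29, 0, 0, 0, 0), (30, 0, 0, 0, 0), (31, 0, 0, 0, 0), (53, 0, 0, 0, 0), (27, 0, 0, 0, 0), (54, 0, 0, 0, 0), (55, 0, 0, 0, 0), (30, 0, 0, 0, 0), (31, 0, 0, 0, 0), (32, 0, 0, 0, 0), (56, 0, 0, 0, 0), (33, 0, 0, 0, 0), (34, 0, 0, 0, 0), (57, 0, 0, 0, 0), (58, 0, 0, 0, 0), (32, 0, 0, 0, 0), (56, 0, 0, 0, 0), (35, 0, 0, 0, 0), (36, 0, 0, 0, 0), (59, 0, 0, 0, 0), (37, 0, 0, 0, 0), (33, 0, 0, 0, 0), (34, 0, 0, 0, 0), (35, 0, 0, 0, 0), (36, 0, 0, 0, 0), (38, 0, 0, 0, 0), (39, 0, 0, 0, 0), (57, 0, 0, 0, 0), (58, 0, 0, 0, 0), (59, 0, 0, 0, 0), (37, 0, 0, 0, 0), (38, 0, 0, 0, 0), (39, 0, 0, 0, 0)]]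

def m43_5 : Base := (1, 1, [(0, [0], [0, 5]), (0, [0], [1, 3]), (1, [], [2, 5]), (4, [], [4])])

def l43_5 : Cov := [(72, 1, 1, [(0, [0], [0, 5]), (0, [0], [1, 3]), (1, [], [2, 5]), (4, [], [4])]),
  (36, 1, 1, [(0, [0], [0, 5]), (0, [0], [1, 2]), (1, [], [3, 5]), (4, [], [4])]),
  (36, 1, 1, [(0, [0], [0, 5]), (0, [0], [1, 3]), (1, [], [4, 5]), (4, [], [2])]),
  (36, 1, 1, [(0, [0], [0, 5]), (0, [0], [2, 3]), (1, [], [1, 5]), (4, [], [4])]),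
  (-36, 1, 1, [(0, [0], [0, 5]), (0, [0], [2, 4]), (1, [], [3, 5]), (4, [], [1])]),
  (-36, 1, 1, [(0, [0], [0, 5]), (0, [0], [2, 3]), (1, [], [4, 5]), (4, [], [1])]),
  (-36, 1, 1, [(0, [0], [0, 5]), (0, [0], [3, 4]), (1, [], [1, 5]), (4, [], [2])]),
  (-72, 1, 1, [(0, [0], [0, 5]), (0, [0], [3, 4]), (1, [], [2, 5]), (4, [], [1])]),
  (72, 1, 1, [(0, [0], [1, 5]), (0, [0], [0, 4]), (1, [], [2, 5]), (4, [], [3])]),
  (36, 1, 1, [(0, [0], [1, 5]), (0, [0], [0, 4]), (1, [], [3, 5]), (4, [], [2])]),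
  (36, 1, 1, [(0, [0], [1, 5]), (0, [0], [0, 2]), (1, [], [4, 5]), (4, [], [3])]),
  (36, 1, 1, [(0, [0], [1, 5]), (0, [0], [2, 4]), (1, [], [0, 5]), (4, [], [3])]),
  (-36, 1, 1, [(0, [0], [1, 5]), (0, [0], [2, 4]), (1, [], [3, 5]), (4, [], [0])]),
  (-36, 1, 1, [(0, [0], [1, 5]), (0, [0], [2, 3]), (1, [], [4, 5]), (4, [], [0])]),
  (-36, 1, 1, [(0, [0], [1, 5]), (0, [0], [3, 4]), (1, [], [0, 5]), (4, [], [2])]),
  (-72, 1, 1, [(0, [0], [1, 5]), (0, [0], [3, 4]), (1, [], [2, 5]), (4, [], [0])]),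
  (36, 1, 1, [(0, [0], [2, 5]), (0, [0], [0, 4]), (1, [], [1, 5]), (4, [], [3])]),
  (-36, 1, 1, [(0, [0], [2, 5]), (0, [0], [0, 1]), (1, [], [3, 5]), (4, [], [4])]),
  (36, 1, 1, [(0, [0], [2, 5]), (0, [0], [0, 4]), (1, [], [3, 5]), (4, [], [1])]),
  (-36, 1, 1, [(0, [0], [2, 5]), (0, [0], [0, 1]), (1, [], [4, 5]), (4, [], [3])]),
  (36, 1, 1, [(0, [0], [2, 5]), (0, [0], [1, 3]), (1, [], [0, 5]), (4, [], [4])]),
  (36, 1, 1, [(0, [0], [2, 5]), (0, [0], [1, 3]), (1, [], [4, 5]), (4, [], [0])]),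
  (-36, 1, 1, [(0, [0], [2, 5]), (0, [0], [3, 4]), (1, [], [0, 5]), (4, [], [1])]),
  (-36, 1, 1, [(0, [0], [2, 5]), (0, [0], [3, 4]), (1, [], [1, 5]), (4, [], [0])]),
  (-36, 1, 1, [(0, [0], [3, 5]), (0, [0], [0, 2]), (1, [], [1, 5]), (4, [], [4])]),
  (36, 1, 1, [(0, [0], [3, 5]), (0, [0], [0, 4]), (1, [], [1, 5]), (4, [], [2])]),
  (-72, 1, 1, [(0, [0], [3, 5]), (0, [0], [0, 1]), (1, [], [2, 5]), (4, [], [4])]),
  (72, 1, 1, [(0, [0], [3, 5]), (0, [0], [0, 4]), (1, [], [2, 5]), (4, [], [1])]),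
  (-36, 1, 1, [(0, [0], [3, 5]), (0, [0], [0, 1]), (1, [], [4, 5]), (4, [], [2])]),
  (36, 1, 1, [(0, [0], [3, 5]), (0, [0], [0, 2]), (1, [], [4, 5]), (4, [], [1])]),
  (-36, 1, 1, [(0, [0], [3, 5]), (0, [0], [1, 2]), (1, [], [0, 5]), (4, [], [4])]),
  (36, 1, 1, [(0, [0], [3, 5]), (0, [0], [2, 4]), (1, [], [0, 5]), (4, [], [1])]),
  (-36, 1, 1, [(0, [0], [4, 5]), (0, [0], [0, 2]), (1, [], [1, 5]), (4, [], [3])]),
  (-72, 1, 1, [(0, [0], [4, 5]), (0, [0], [0, 1]), (1, [], [2, 5]), (4, [], [3])]),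
  (-36, 1, 1, [(0, [0], [4, 5]), (0, [0], [0, 1]), (1, [], [3, 5]), (4, [], [2])]),
  (-36, 1, 1, [(0, [0], [4, 5]), (0, [0], [1, 2]), (1, [], [0, 5]), (4, [], [3])]),
  (36, 1, 1, [(0, [0], [4, 5]), (0, [0], [1, 3]), (1, [], [0, 5]), (4, [], [2])]),
  (72, 1, 1, [(0, [0], [4, 5]), (0, [0], [1, 3]), (1, [], [2, 5]), (4, [], [0])]),
  (36, 1, 1, [(0, [0], [4, 5]), (0, [0], [1, 2]), (1, [], [3, 5]), (4, [], [0])]),
  (36, 1, 1, [(0, [0], [4, 5]), (0, [0], [2, 3]), (1, [], [1, 5]), (4, [], [0])])]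

def z43_5 : Cov := [(0, 1, 1, [(0, [0], [0, 5]), (0, [0], [1, 4]), (1, [], [2, 5]), (4, [], [3])]),
  (0, 1, 1, [(0, [0], [0, 5]), (0, [0], [1, 4]), (1, [], [3, 5]), (4, [], [2])]),
  (0, 1, 1, [(0, [0], [0, 5]), (0, [0], [1, 2]), (1, [], [4, 5]), (4, [], [3])]),
  (0, 1, 1, [(0, [0], [0, 5]), (0, [0], [2, 4]), (1, [], [1, 5]), (4, [], [3])]),
  (0, 1, 1, [(0, [0], [1, 5]), (0, [0], [0, 3]), (1, [], [2, 5]), (4, [], [4])]),
  (0, 1, 1, [(0, [0], [1, 5]), (0, [0], [0, 2]), (1, [], [3, 5]), (4, [], [4])]),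
  (0, 1, 1, [(0, [0], [1, 5]), (0, [0], [0, 3]), (1, [], [4, 5]), (4, [], [2])]),
  (0, 1, 1, [(0, [0], [1, 5]), (0, [0], [2, 3]), (1, [], [0, 5]), (4, [], [4])]),
  (0, 1, 1, [(0, [0], [2, 5]), (0, [0], [0, 3]), (1, [], [1, 5]), (4, [], [4])]),
  (0, 1, 1, [(0, [0], [2, 5]), (0, [0], [0, 3]), (1, [], [4, 5]), (4, [], [1])]),
  (0, 1, 1, [(0, [0], [2, 5]), (0, [0], [1, 4]), (1, [], [0, 5]), (4, [], [3])]),
  (0, 1, 1, [(0, [0], [2, 5]), (0, [0], [1, 4]), (1, [], [3, 5]), (4, [], [0])]),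
  (0, 1, 1, [(0, [0], [3, 5]), (0, [0], [1, 4]), (1, [], [0, 5]), (4, [], [2])]),
  (0, 1, 1, [(0, [0], [3, 5]), (0, [0], [1, 4]), (1, [], [2, 5]), (4, [], [0])]),
  (0, 1, 1, [(0, [0], [3, 5]), (0, [0], [1, 2]), (1, [], [4, 5]), (4, [], [0])]),
  (0, 1, 1, [(0, [0], [3, 5]), (0, [0], [2, 4]), (1, [], [1, 5]), (4, [], [0])]),
  (0, 1, 1, [(0, [0], [4, 5]), (0, [0], [0, 3]), (1, [], [1, 5]), (4, [], [2])]),
  (0, 1, 1, [(0, [0], [4, 5]), (0, [0], [0, 3]), (1, [], [2, 5]), (4, [], [1])]),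
  (0, 1, 1, [(0, [0], [4, 5]), (0, [0], [0, 2]), (1, [], [3, 5]), (4, [], [1])]),
  (0, 1, 1, [(0, [0], [4, 5]), (0, [0], [2, 3]), (1, [], [0, 5]), (4, [], [1])])]

def w43_5 : List (List Wit) := [[(0, 0, 0, 0, 0), (40, 0, 0, 0, 0), (1, 0, 0, 0, 0), (41, 0, 0, 0, 0), (42, 0, 0, 0, 0), (2, 0, 0, 0, 0), (3, 0, 0, 0, 0), (43, 0, 0, 0, 0), (1, 0, 0, 0, 0), (4, 0, 0, 0, 0), (42, 0, 0, 0, 0), (5, 0, 0, 0, 0), (3, 0, 0, 0, 0), (6, 0, 0, 0, 0), (0, 0, 0, 0, 0), (7, 0, 0, 0, 0), (2, 0, 0, 0, 0), (5, 0, 0, 0, 0), (43, 0, 0, 0, 0), (6, 0, 0, 0, 0), (40, 0, 0, 0, 0), (7, 0, 0, 0, 0), (41, 0, 0, 0, 0), (4, 0, 0, 0, 0), (44, 0, 0, 0, 0), (8, 0, 0, 0, 0), (45, 0, 0, 0, 0), (9, 0, 0, 0, 0), (10, 0, 0, 0, 0), (46, 0, 0, 0, 0), (47, 0, 0, 0, 0), (11, 0, 0, 0, 0), (45, 0, 0, 0, 0), (12, 0, 0, 0, 0), (10, 0, 0, 0, 0), (13, 0, 0, 0, 0), (47, 0, 0, 0, 0), (14, 0, 0, 0,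 0), (44, 0, 0, 0, 0), (15, 0, 0, 0, 0), (46, 0, 0, 0, 0), (13, 0, 0, 0, 0), (11, 0, 0, 0, 0), (14, 0, 0, 0, 0), (8, 0, 0, 0, 0), (15, 0, 0, 0, 0), (9, 0, 0, 0, 0), (12, 0, 0, 0, 0), (48, 0, 0, 0, 0), (16, 0, 0, 0, 0), (17, 0, 0, 0, 0), (18, 0, 0, 0, 0), (19, 0, 0, 0, 0), (49, 0, 0, 0, 0), (20, 0, 0, 0, 0), (50, 0, 0, 0, 0), (17, 0, 0, 0, 0), (51, 0, 0, 0, 0), (19, 0, 0, 0, 0), (21, 0, 0, 0, 0), (20, 0, 0, 0, 0), (22, 0, 0, 0, 0), (48, 0, 0, 0, 0), (23, 0, 0, 0, 0), (49, 0, 0, 0, 0), (21, 0, 0, 0, 0), (50, 0, 0, 0, 0), (22, 0, 0, 0, 0), (16, 0, 0, 0, 0), (23, 0, 0, 0, 0), (18, 0, 0, 0, 0), (51, 0, 0, 0, 0), (24, 0, 0, 0, 0), (25, 0, 0, 0, 0), (26, 0, 0, 0, 0), (27, 0, 0, 0, 0), (28, 0, 0, 0, 0), (29, 0, 0, 0, 0), (30, 0, 0, 0, 0), (52, 0, 0, 0, 0), (26, 0, 0, 0, 0), (53, 0, 0, 0, 0), (28, 0, 0, 0, 0), (54, 0, 0, 0, 0), (30, 0, 0, 0, 0), (31, 0, 0,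 0, 0), (24, 0, 0, 0, 0), (55, 0, 0, 0, 0), (29, 0, 0, 0, 0), (54, 0, 0, 0, 0), (52, 0, 0, 0, 0), (31, 0, 0, 0, 0), (25, 0, 0, 0, 0), (55, 0, 0, 0, 0), (27, 0, 0, 0, 0), (53, 0, 0, 0, 0), (32, 0, 0, 0, 0), (56, 0, 0, 0, 0), (33, 0, 0, 0, 0), (57, 0, 0, 0, 0), (34, 0, 0, 0, 0), (58, 0, 0, 0, 0), (35, 0, 0, 0, 0), (36, 0, 0, 0, 0), (33, 0, 0, 0, 0), (37, 0, 0, 0, 0), (34, 0, 0, 0, 0), (38, 0, 0, 0, 0), (35, 0, 0, 0, 0), (59, 0, 0, 0, 0), (32, 0, 0, 0, 0), (39, 0, 0, 0, 0), (58, 0, 0, 0, 0), (38, 0, 0, 0, 0), (36, 0, 0, 0, 0), (59, 0, 0, 0, 0), (56, 0, 0, 0, 0), (39, 0, 0, 0, 0), (57, 0, 0, 0, 0), (37, 0, 0, 0, 0)]]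

def m43_6 : Base := (1, 1, [(0, [0], [0, 5]), (0, [0], [1, 3]), (1, [], [2, 4]), (4, [], [5])])

def l43_6 : Cov := [(108, 1, 1, [(0, [0], [0, 5]), (0, [0], [1, 3]), (1, [], [2, 4]), (4, [], [5])]),
  (36, 1, 1, [(0, [0], [0, 5]), (0, [0], [1, 2]), (1, [], [3, 4]), (4, [], [5])]),
  (-36, 1, 1, [(0, [0], [0, 5]), (0, [0], [2, 4]), (1, [], [1, 3]), (4, [], [5])]),
  (-108, 1, 1, [(0, [0], [0, 5]), (0, [0], [3, 4]), (1, [], [1, 2]), (4, [], [5])]),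
  (108, 1, 1, [(0, [0], [1, 5]), (0, [0], [0, 4]), (1, [], [2, 3]), (4, [], [5])]),
  (36, 1, 1, [(0, [0], [1, 5]), (0, [0], [0, 2]), (1, [], [3, 4]), (4, [], [5])]),
  (-36, 1, 1, [(0, [0], [1, 5]), (0, [0], [2, 3]), (1, [], [0, 4]), (4, [], [5])]),
  (-108, 1, 1, [(0, [0], [1, 5]), (0, [0], [3, 4]), (1, [], [0, 2]), (4, [], [5])]),
  (72, 1, 1, [(0, [0], [2, 5]), (0, [0], [0, 4]), (1, [], [1, 3]), (4, [], [5])]),
  (-72, 1, 1, [(0, [0], [2, 5]), (0, [0], [0, 1]), (1, [], [3, 4]), (4, [], [5])]),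
  (72, 1, 1, [(0, [0], [2, 5]), (0, [0], [1, 3]), (1, [], [0, 4]), (4, [], [5])]),
  (-72, 1, 1, [(0, [0], [2, 5]), (0, [0], [3, 4]), (1, [], [0, 1]), (4, [], [5])]),
  (108, 1, 1, [(0, [0], [3, 5]), (0, [0], [0, 4]), (1, [], [1, 2]), (4, [], [5])]),
  (-108, 1, 1, [(0, [0], [3, 5]), (0, [0], [0, 1]), (1, [], [2, 4]), (4, [], [5])]),
  (-36, 1, 1, [(0, [0], [3, 5]), (0, [0], [1, 2]), (1, [], [0, 4]), (4, [], [5])]),
  (36, 1, 1, [(0, [0], [3, 5]), (0, [0], [2, 4]), (1, [], [0, 1]), (4, [], [5])]),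
  (-36, 1, 1, [(0, [0], [4, 5]), (0, [0], [0, 2]), (1, [], [1, 3]), (4, [], [5])]),
  (-108, 1, 1, [(0, [0], [4, 5]), (0, [0], [0, 1]), (1, [], [2, 3]), (4, [], [5])]),
  (108, 1, 1, [(0, [0], [4, 5]), (0, [0], [1, 3]), (1, [], [0, 2]), (4, [], [5])]),
  (36, 1, 1, [(0, [0], [4, 5]), (0, [0], [2, 3]), (1, [], [0, 1]), (4, [], [5])])]

def z43_6 : Cov := [(0, 1, 1, [(0, [0], [0, 5]), (0, [0], [1, 4]), (1, [], [2, 3]), (4, [], [5])]),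
  (0, 1, 1, [(0, [0], [0, 5]), (0, [0], [2, 3]), (1, [], [1, 4]), (4, [], [5])]),
  (0, 1, 1, [(0, [0], [1, 5]), (0, [0], [0, 3]), (1, [], [2, 4]), (4, [], [5])]),
  (0, 1, 1, [(0, [0], [1, 5]), (0, [0], [2, 4]), (1, [], [0, 3]), (4, [], [5])]),
  (0, 1, 1, [(0, [0], [2, 5]), (0, [0], [0, 3]), (1, [], [1, 4]), (4, [], [5])]),
  (0, 1, 1, [(0, [0], [2, 5]), (0, [0], [1, 4]), (1, [], [0, 3]), (4, [], [5])]),
  (0, 1, 1, [(0, [0], [3, 5]), (0, [0], [0, 2]), (1, [], [1, 4]), (4, [], [5])]),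
  (0, 1, 1, [(0, [0], [3, 5]), (0, [0], [1, 4]), (1, [], [0, 2]), (4, [], [5])]),
  (0, 1, 1, [(0, [0], [4, 5]), (0, [0], [0, 3]), (1, [], [1, 2]), (4, [], [5])]),
  (0, 1, 1, [(0, [0], [4, 5]), (0, [0], [1, 2]), (1, [], [0, 3]), (4, [], [5])])]

def w43_6 : List (List Wit) := [[(0, 0, 0, 0, 0), (20, 0, 0, 0, 0), (1, 0, 0, 0, 0), (20, 0, 0, 0, 0), (1, 0, 0, 0, 0), (0, 0, 0, 0, 0), (21, 0, 0, 0, 0), (2, 0, 0, 0, 0), (1, 0, 0, 0, 0), (2, 0, 0, 0, 0), (1, 0, 0, 0, 0), (21, 0, 0, 0, 0), (21, 0, 0, 0, 0), (3, 0, 0, 0, 0), (0, 0, 0, 0, 0), (3, 0, 0, 0, 0), (0, 0, 0, 0, 0), (21, 0, 0, 0, 0), (2, 0, 0, 0, 0), (3, 0, 0, 0, 0), (20, 0, 0, 0, 0), (3, 0, 0, 0, 0), (20, 0, 0, 0, 0), (2, 0, 0, 0, 0), (22, 0, 0, 0, 0), (4, 0, 0, 0, 0), (5, 0, 0, 0, 0), (4, 0, 0, 0, 0), (5, 0, 0, 0, 0), (22, 0, 0, 0, 0), (6, 0, 0, 0, 0), (23, 0, 0, 0, 0), (5, 0, 0, 0, 0), (23, 0,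 0, 0, 0), (5, 0, 0, 0, 0), (6, 0, 0, 0, 0), (6, 0, 0, 0, 0), (7, 0, 0, 0, 0), (22, 0, 0, 0, 0), (7, 0, 0, 0, 0), (22, 0, 0, 0, 0), (6, 0, 0, 0, 0), (23, 0, 0, 0, 0), (7, 0, 0, 0, 0), (4, 0, 0, 0, 0), (7, 0, 0, 0, 0), (4, 0, 0, 0, 0), (23, 0, 0, 0, 0), (24, 0, 0, 0, 0), (8, 0, 0, 0, 0), (9, 0, 0, 0, 0), (8, 0, 0, 0, 0), (9, 0, 0, 0, 0), (24, 0, 0, 0, 0), (10, 0, 0, 0, 0), (25, 0, 0, 0, 0), (9, 0, 0, 0, 0), (25, 0, 0, 0, 0), (9, 0, 0, 0, 0), (10, 0, 0, 0, 0), (10, 0, 0, 0, 0), (11, 0, 0, 0, 0), (24, 0, 0, 0, 0), (11, 0, 0, 0, 0), (24, 0, 0, 0, 0), (10, 0, 0, 0, 0), (25, 0, 0, 0, 0), (11, 0, 0, 0, 0), (8, 0, 0, 0, 0), (11, 0, 0, 0, 0), (8, 0, 0, 0, 0), (25, 0, 0, 0, 0), (26, 0, 0, 0, 0), (12, 0, 0, 0, 0), (13, 0, 0, 0, 0), (12, 0, 0, 0, 0), (13, 0, 0, 0, 0), (26, 0, 0, 0, 0), (14, 0, 0, 0, 0), (27, 0, 0, 0, 0), (13, 0, 0, 0, 0), (27, 0, 0, 0, 0), (13,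 0, 0, 0, 0), (14, 0, 0, 0, 0), (14, 0, 0, 0, 0), (15, 0, 0, 0, 0), (26, 0, 0, 0, 0), (15, 0, 0, 0, 0), (26, 0, 0, 0, 0), (14, 0, 0, 0, 0), (27, 0, 0, 0, 0), (15, 0, 0, 0, 0), (12, 0, 0, 0, 0), (15, 0, 0, 0, 0), (12, 0, 0, 0, 0), (27, 0, 0, 0, 0), (16, 0, 0, 0, 0), (28, 0, 0, 0, 0), (17, 0, 0, 0, 0), (28, 0, 0, 0, 0), (17, 0, 0, 0, 0), (16, 0, 0, 0, 0), (29, 0, 0, 0, 0), (18, 0, 0, 0, 0), (17, 0, 0, 0, 0), (18, 0, 0, 0, 0), (17, 0, 0, 0, 0), (29, 0, 0, 0, 0), (29, 0, 0, 0, 0), (19, 0, 0, 0, 0), (16, 0, 0, 0, 0), (19, 0, 0, 0, 0), (16, 0, 0, 0, 0), (29, 0, 0, 0, 0), (18, 0, 0, 0, 0), (19, 0, 0, 0, 0), (28, 0, 0, 0, 0), (19, 0, 0, 0, 0), (28, 0, 0, 0, 0), (18, 0, 0, 0, 0)]]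

def m43_7 : Base := (1, 1, [(0, [0], [0, 1]), (0, [0], [2, 3]), (1, [], [4, 5]), (4, [], [5])])

def l43_7 : Cov := [(72, 1, 1, [(0, [0], [0, 1]), (0, [0], [2, 3]), (1, [], [4, 5]), (4, [], [5])]),
  (72, 1, 1, [(0, [0], [0, 1]), (0, [0], [2, 4]), (1, [], [3, 5]), (4, [], [5])]),
  (144, 1, 1, [(0, [0], [0, 1]), (0, [0], [3, 4]), (1, [], [2, 5]), (4, [], [5])]),
  (-72, 1, 1, [(0, [0], [0, 2]), (0, [0], [1, 3]), (1, [], [4, 5]), (4, [], [5])]),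
  (72, 1, 1, [(0, [0], [0, 2]), (0, [0], [3, 4]), (1, [], [1, 5]), (4, [], [5])]),
  (-72, 1, 1, [(0, [0], [0, 4]), (0, [0], [1, 2]), (1, [], [3, 5]), (4, [], [5])]),
  (-144, 1, 1, [(0, [0], [0, 4]), (0, [0], [1, 3]), (1, [], [2, 5]), (4, [], [5])]),
  (-72, 1, 1, [(0, [0], [0, 4]), (0, [0], [2, 3]), (1, [], [1, 5]), (4, [], [5])]),
  (72, 1, 1, [(0, [0], [1, 2]), (0, [0], [3, 4]), (1, [], [0, 5]), (4, [], [5])]),
  (-72, 1, 1, [(0, [0], [1, 3]), (0, [0], [2, 4]), (1, [], [0, 5]), (4, [], [5])])]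

def z43_7 : Cov := [(0, 1, 1, [(0, [0], [0, 2]), (0, [0], [1, 4]), (1, [], [3, 5]), (4, [], [5])]),
  (0, 1, 1, [(0, [0], [0, 3]), (0, [0], [1, 2]), (1, [], [4, 5]), (4, [], [5])]),
  (0, 1, 1, [(0, [0], [0, 3]), (0, [0], [1, 4]), (1, [], [2, 5]), (4, [], [5])]),
  (0, 1, 1, [(0, [0], [0, 3]), (0, [0], [2, 4]), (1, [], [1, 5]), (4, [], [5])]),
  (0, 1, 1, [(0, [0], [1, 4]), (0, [0], [2, 3]), (1, [], [0, 5]), (4, [], [5])])]

def w43_7 : List (List Wit) := [[(0, 0, 0, 0, 0), (1, 0, 0, 0, 0), (0, 0, 0, 0, 0), (2, 0, 0, 0, 0), (1, 0, 0, 0, 0), (2, 0, 0, 0, 0), (3, 0, 0, 0, 0), (10, 0, 0, 0, 0), (3, 0, 0, 0, 0), (4, 0, 0, 0, 0), (10, 0, 0, 0, 0), (4, 0, 0, 0, 0), (11, 0, 0, 0, 0), (12, 0, 0, 0, 0), (11, 0, 0, 0, 0), (13, 0, 0, 0, 0), (12, 0, 0, 0, 0), (13, 0, 0, 0, 0), (5, 0, 0, 0, 0), (6, 0, 0, 0, 0), (5, 0, 0, 0, 0), (7, 0, 0, 0, 0), (6, 0, 0, 0, 0),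 (7, 0, 0, 0, 0), (0, 0, 0, 0, 0), (1, 0, 0, 0, 0), (0, 0, 0, 0, 0), (2, 0, 0, 0, 0), (1, 0, 0, 0, 0), (2, 0, 0, 0, 0), (11, 0, 0, 0, 0), (5, 0, 0, 0, 0), (11, 0, 0, 0, 0), (8, 0, 0, 0, 0), (5, 0, 0, 0, 0), (8, 0, 0, 0, 0), (3, 0, 0, 0, 0), (6, 0, 0, 0, 0), (3, 0, 0, 0, 0), (9, 0, 0, 0, 0), (6, 0, 0, 0, 0), (9, 0, 0, 0, 0), (10, 0, 0, 0, 0), (12, 0, 0, 0, 0), (10, 0, 0, 0, 0), (14, 0, 0, 0, 0), (12, 0, 0, 0, 0), (14, 0, 0, 0, 0), (3, 0, 0, 0, 0), (10, 0, 0, 0, 0), (3, 0, 0, 0, 0), (4, 0, 0, 0, 0), (10, 0, 0, 0, 0), (4, 0, 0, 0, 0), (11, 0, 0, 0, 0), (5, 0, 0, 0, 0), (11, 0, 0, 0, 0), (8, 0, 0, 0, 0), (5, 0, 0, 0, 0), (8, 0, 0, 0, 0), (0, 0, 0, 0, 0), (7, 0, 0, 0, 0), (0, 0, 0, 0, 0), (14, 0, 0, 0, 0), (7, 0, 0, 0, 0), (14, 0, 0, 0, 0), (1, 0, 0, 0, 0), (13, 0, 0, 0, 0), (1, 0, 0, 0, 0), (9, 0, 0, 0, 0), (13, 0, 0, 0, 0), (9, 0, 0, 0, 0), (11, 0, 0,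 0, 0), (12, 0, 0, 0, 0), (11, 0, 0, 0, 0), (13, 0, 0, 0, 0), (12, 0, 0, 0, 0), (13, 0, 0, 0, 0), (3, 0, 0, 0, 0), (6, 0, 0, 0, 0), (3, 0, 0, 0, 0), (9, 0, 0, 0, 0), (6, 0, 0, 0, 0), (9, 0, 0, 0, 0), (0, 0, 0, 0, 0), (7, 0, 0, 0, 0), (0, 0, 0, 0, 0), (14, 0, 0, 0, 0), (7, 0, 0, 0, 0), (14, 0, 0, 0, 0), (2, 0, 0, 0, 0), (4, 0, 0, 0, 0), (2, 0, 0, 0, 0), (8, 0, 0, 0, 0), (4, 0, 0, 0, 0), (8, 0, 0, 0, 0), (5, 0, 0, 0, 0), (6, 0, 0, 0, 0), (5, 0, 0, 0, 0), (7, 0, 0, 0, 0), (6, 0, 0, 0, 0), (7, 0, 0, 0, 0), (10, 0, 0, 0, 0), (12, 0, 0, 0, 0), (10, 0, 0, 0, 0), (14, 0, 0, 0, 0), (12, 0, 0, 0, 0), (14, 0, 0, 0, 0), (1, 0, 0, 0, 0), (13, 0, 0, 0, 0), (1, 0, 0, 0, 0), (9, 0, 0, 0, 0), (13, 0, 0, 0, 0), (9, 0, 0, 0, 0), (2, 0, 0, 0, 0), (4, 0, 0, 0, 0), (2, 0, 0, 0, 0), (8, 0, 0, 0, 0), (4, 0, 0, 0, 0), (8, 0, 0, 0, 0)]]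

def m43_8 : Base := (1, 0, [(0, [0], [0, 1]), (0, [0], [2, 3]), (4, [], [4])])

def l43_8 : Cov := [(72, 1, 0, [(0, [0], [0, 1]), (0, [0], [2, 3]), (4, [], [4])]),
  (72, 1, 0, [(0, [0], [0, 1]), (0, [0], [2, 4]), (4, [], [3])]),
  (144, 1, 0, [(0, [0], [0, 1]), (0, [0], [3, 4]), (4, [], [2])]),
  (-72, 1, 0, [(0, [0], [0, 2]), (0, [0], [1, 3]), (4, [], [4])]),
  (72, 1, 0, [(0, [0], [0, 2]), (0, [0], [3, 4]), (4, [], [1])]),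
  (-72, 1, 0, [(0, [0], [0, 4]), (0, [0], [1, 2]), (4, [], [3])]),
  (-144, 1, 0, [(0, [0], [0, 4]), (0, [0], [1, 3]), (4, [], [2])]),
  (-72, 1, 0, [(0, [0], [0, 4]), (0, [0], [2, 3]), (4, [], [1])]),
  (72, 1, 0, [(0, [0], [1, 2]), (0, [0], [3, 4]), (4, [], [0])]),
  (-72, 1, 0, [(0, [0], [1, 3]), (0, [0], [2, 4]), (4, [], [0])])]

def z43_8 : Cov := [(0, 1, 0, [(0, [0], [0, 2]), (0, [0], [1, 4]), (4, [], [3])]),
  (0, 1, 0, [(0, [0], [0, 3]), (0, [0], [1, 2]), (4, [], [4])]),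
  (0, 1, 0, [(0, [0], [0, 3]), (0, [0], [1, 4]), (4, [], [2])]),
  (0, 1, 0, [(0, [0], [0, 3]), (0, [0], [2, 4]), (4, [], [1])]),
  (0, 1, 0, [(0, [0], [1, 4]), (0, [0], [2, 3]), (4, [], [0])])]

def w43_8 : List (List Wit) := [[(0, 0, 0, 0, 0), (1, 0, 0, 0, 0), (0, 0, 0, 0, 0), (2, 0, 0, 0, 0), (1, 0, 0, 0, 0), (2, 0, 0, 0, 0), (3, 0, 0, 0, 0), (10, 0, 0, 0, 0), (3, 0, 0, 0, 0), (4, 0, 0, 0, 0), (10, 0, 0, 0, 0), (4, 0, 0, 0, 0), (11, 0, 0, 0, 0), (12, 0, 0, 0, 0), (11, 0, 0, 0, 0), (13, 0, 0, 0, 0), (12, 0, 0, 0, 0), (13, 0, 0, 0, 0), (5, 0, 0, 0, 0), (6, 0, 0, 0, 0), (5, 0, 0, 0, 0), (7, 0, 0, 0, 0), (6, 0, 0, 0, 0), (7, 0, 0, 0, 0), (0, 0, 0, 0, 0), (1, 0, 0, 0, 0), (0, 0, 0, 0, 0), (2, 0, 0, 0, 0), (1, 0, 0, 0, 0), (2, 0, 0, 0, 0), (11, 0, 0, 0, 0), (5, 0, 0, 0, 0), (11, 0, 0, 0, 0), (8, 0, 0, 0, 0), (5, 0, 0, 0, 0), (8, 0, 0, 0, 0), (3, 0, 0,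 0, 0), (6, 0, 0, 0, 0), (3, 0, 0, 0, 0), (9, 0, 0, 0, 0), (6, 0, 0, 0, 0), (9, 0, 0, 0, 0), (10, 0, 0, 0, 0), (12, 0, 0, 0, 0), (10, 0, 0, 0, 0), (14, 0, 0, 0, 0), (12, 0, 0, 0, 0), (14, 0, 0, 0, 0), (3, 0, 0, 0, 0), (10, 0, 0, 0, 0), (3, 0, 0, 0, 0), (4, 0, 0, 0, 0), (10, 0, 0, 0, 0), (4, 0, 0, 0, 0), (11, 0, 0, 0, 0), (5, 0, 0, 0, 0), (11, 0, 0, 0, 0), (8, 0, 0, 0, 0), (5, 0, 0, 0, 0), (8, 0, 0, 0, 0), (0, 0, 0, 0, 0), (7, 0, 0, 0, 0), (0, 0, 0, 0, 0), (14, 0, 0, 0, 0), (7, 0, 0, 0, 0), (14, 0, 0, 0, 0), (1, 0, 0, 0, 0), (13, 0, 0, 0, 0), (1, 0, 0, 0, 0), (9, 0, 0, 0, 0), (13, 0, 0, 0, 0), (9, 0, 0, 0, 0), (11, 0, 0, 0, 0), (12, 0, 0, 0, 0), (11, 0, 0, 0, 0), (13, 0, 0, 0, 0), (12, 0, 0, 0, 0), (13, 0, 0, 0, 0), (3, 0, 0, 0, 0), (6, 0, 0, 0, 0), (3, 0, 0, 0, 0), (9, 0, 0, 0, 0), (6, 0, 0, 0, 0), (9, 0, 0, 0, 0), (0, 0, 0, 0, 0), (7, 0, 0, 0, 0),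 (0, 0, 0, 0, 0), (14, 0, 0, 0, 0), (7, 0, 0, 0, 0), (14, 0, 0, 0, 0), (2, 0, 0, 0, 0), (4, 0, 0, 0, 0), (2, 0, 0, 0, 0), (8, 0, 0, 0, 0), (4, 0, 0, 0, 0), (8, 0, 0, 0, 0), (5, 0, 0, 0, 0), (6, 0, 0, 0, 0), (5, 0, 0, 0, 0), (7, 0, 0, 0, 0), (6, 0, 0, 0, 0), (7, 0, 0, 0, 0), (10, 0, 0, 0, 0), (12, 0, 0, 0, 0), (10, 0, 0, 0, 0), (14, 0, 0, 0, 0), (12, 0, 0, 0, 0), (14, 0, 0, 0, 0), (1, 0, 0, 0, 0), (13, 0, 0, 0, 0), (1, 0, 0, 0, 0), (9, 0, 0, 0, 0), (13, 0, 0, 0, 0), (9, 0, 0, 0, 0), (2, 0, 0, 0, 0), (4, 0, 0, 0, 0), (2, 0, 0, 0, 0), (8, 0, 0, 0, 0), (4, 0, 0, 0, 0), (8, 0, 0, 0, 0)]]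

def m43_9 : Base := (1, 0, [(0, [0], [0, 1]), (2, [0], [2, 3, 4])])

def l43_9 : Cov := [(288, 1, 0, [(0, [0], [0, 1]), (2, [0], [2, 3, 4])]),
  (-288, 1, 0, [(0, [0], [0, 4]), (2, [0], [1, 2, 3])]),
  (-288, 1, 0, [(0, [0], [1, 3]), (2, [0], [0, 2, 4])]),
  (288, 1, 0, [(0, [0], [3, 4]), (2, [0], [0, 1, 2])])]

def z43_9 : Cov := [(0, 1, 0, [(0, [0], [0, 2]), (2, [0], [1, 3, 4])]),
  (0, 1, 0, [(0, [0], [0, 3]), (2, [0], [1, 2, 4])]),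
  (0, 1, 0, [(0, [0], [1, 2]), (2, [0], [0, 3, 4])]),
  (0, 1, 0, [(0, [0], [1, 4]), (2, [0], [0, 2, 3])]),
  (0, 1, 0, [(0, [0], [2, 3]), (2, [0], [0, 1, 4])]),
  (0, 1, 0, [(0, [0], [2, 4]), (2, [0], [0, 1, 3])])]

def w43_9 : List (List Wit) := [[(0, 0, 0, 0, 0), (0, 0, 0, 0, 0), (0, 0, 0, 0, 0), (0, 0, 0, 0, 0), (0, 0, 0, 0, 0), (0, 0, 0, 0, 0), (4, 0, 0, 0, 0), (4, 0, 0, 0, 0), (4, 0, 0, 0, 0), (4, 0, 0, 0, 0), (4, 0, 0, 0, 0), (4, 0, 0, 0, 0), (5, 0, 0, 0, 0), (5, 0, 0, 0, 0), (5, 0, 0, 0, 0), (5, 0, 0, 0, 0), (5, 0, 0, 0, 0), (5, 0, 0, 0, 0), (1, 0, 0, 0, 0), (1, 0, 0, 0, 0), (1, 0, 0, 0, 0), (1, 0, 0, 0, 0), (1, 0, 0, 0, 0), (1, 0, 0, 0, 0), (0, 0, 0, 0, 0), (0, 0, 0, 0, 0), (0, 0, 0, 0, 0), (0, 0, 0, 0, 0), (0, 0, 0, 0, 0), (0, 0, 0, 0, 0), (6, 0, 0, 0, 0), (6, 0, 0, 0, 0), (6, 0, 0, 0, 0), (6, 0, 0, 0, 0), (6, 0, 0, 0, 0), (6, 0, 0, 0, 0),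 (2, 0, 0, 0, 0), (2, 0, 0, 0, 0), (2, 0, 0, 0, 0), (2, 0, 0, 0, 0), (2, 0, 0, 0, 0), (2, 0, 0, 0, 0), (7, 0, 0, 0, 0), (7, 0, 0, 0, 0), (7, 0, 0, 0, 0), (7, 0, 0, 0, 0), (7, 0, 0, 0, 0), (7, 0, 0, 0, 0), (4, 0, 0, 0, 0), (4, 0, 0, 0, 0), (4, 0, 0, 0, 0), (4, 0, 0, 0, 0), (4, 0, 0, 0, 0), (4, 0, 0, 0, 0), (6, 0, 0, 0, 0), (6, 0, 0, 0, 0), (6, 0, 0, 0, 0), (6, 0, 0, 0, 0), (6, 0, 0, 0, 0), (6, 0, 0, 0, 0), (8, 0, 0, 0, 0), (8, 0, 0, 0, 0), (8, 0, 0, 0, 0), (8, 0, 0, 0, 0), (8, 0, 0, 0, 0), (8, 0, 0, 0, 0), (9, 0, 0, 0, 0), (9, 0, 0, 0, 0), (9, 0, 0, 0, 0), (9, 0, 0, 0, 0), (9, 0, 0, 0, 0), (9, 0, 0, 0, 0), (5, 0, 0, 0, 0), (5, 0, 0, 0, 0), (5, 0, 0, 0, 0), (5, 0, 0, 0, 0), (5, 0, 0, 0, 0), (5, 0, 0, 0, 0), (2, 0, 0, 0, 0), (2, 0, 0, 0, 0), (2, 0, 0, 0, 0), (2, 0, 0, 0, 0), (2, 0, 0, 0, 0), (2, 0, 0, 0, 0), (8, 0, 0, 0, 0), (8, 0, 0, 0, 0), (8, 0, 0,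 0, 0), (8, 0, 0, 0, 0), (8, 0, 0, 0, 0), (8, 0, 0, 0, 0), (3, 0, 0, 0, 0), (3, 0, 0, 0, 0), (3, 0, 0, 0, 0), (3, 0, 0, 0, 0), (3, 0, 0, 0, 0), (3, 0, 0, 0, 0), (1, 0, 0, 0, 0), (1, 0, 0, 0, 0), (1, 0, 0, 0, 0), (1, 0, 0, 0, 0), (1, 0, 0, 0, 0), (1, 0, 0, 0, 0), (7, 0, 0, 0, 0), (7, 0, 0, 0, 0), (7, 0, 0, 0, 0), (7, 0, 0, 0, 0), (7, 0, 0, 0, 0), (7, 0, 0, 0, 0), (9, 0, 0, 0, 0), (9, 0, 0, 0, 0), (9, 0, 0, 0, 0), (9, 0, 0, 0, 0), (9, 0, 0, 0, 0), (9, 0, 0, 0, 0), (3, 0, 0, 0, 0), (3, 0, 0, 0, 0), (3, 0, 0, 0, 0), (3, 0, 0, 0, 0), (3, 0, 0, 0, 0), (3, 0, 0, 0, 0)]]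

theorem tr43 : trK keys lk43 kl43 = true := by
  decide +kernel

theorem x43_0 : expB 0 5 dg10 dg6 m43_0 (l43_0 ++ z43_0) w43_0 = true := by
  decide +kernel

theorem x43_1 : expB 0 5 dg10 dg6 m43_1 (l43_1 ++ z43_1) w43_1 = true := by
  decide +kernel

theorem x43_2 : expB 0 5 dg10 dg6 m43_2 (l43_2 ++ z43_2) w43_2 = true := by
  decide +kernel

theorem x43_3 : expB 0 5 dg10 dg6 m43_3 (l43_3 ++ z43_3) w43_3 = true := by
  decide +kernel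

theorem x43_4 : expB 0 5 dg10 dg6 m43_4 (l43_4 ++ z43_4) w43_4 = true := by
  decide +kernel

theorem x43_5 : expB 0 5 dg10 dg6 m43_5 (l43_5 ++ z43_5) w43_5 = true := by
  decide +kernel

theorem x43_6 : expB 0 5 dg10 dg6 m43_6 (l43_6 ++ z43_6) w43_6 = true := by
  decide +kernel

theorem x43_7 : expB 0 5 dg10 dg6 m43_7 (l43_7 ++ z43_7) w43_7 = true := by
  decide +kernel

theorem x43_8 : expB 0 5 dg10 dg6 m43_8 (l43_8 ++ z43_8) w43_8 = true := by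
  decide +kernel

theorem x43_9 : expB 0 5 dg10 dg6 m43_9 (l43_9 ++ z43_9) w43_9 = true := by
  decide +kernel

theorem t43_0_0 : chkS lk43 0 5 [(1, m43_0)] l43_0
  [(70, 16, 16, 50619681, 52715781), (71, 16, 16, 50619681, 52715781), (71, 16, 16, 50615841, 36987141), (64, 16, 16, 50619681, 52715781), (38, 16, 16, 50746386, 70410261), (38, 1, 1, 3237186, 52514886), (38, 1, 1, 3233346, 36786246), (12, 16, 16, 34825536, 52512336), (66, 16, 16, 50619666, 52715541), (38, 16, 16, 50746401, 70410501), (64, 16, 16, 50615826, 36986901), (66, 16, 16, 50615826, 36986901), (38, 16, 16, 50742561, 69427461), (123, 16, 16, 51733536, 54681936), (75, 16, 16, 50746386, 70410261), (75, 1, 1, 3236436, 51401286), (74, 16, 16, 50619681, 52715781), (75, 1, 1, 3221076, 34624326), (74, 16, 16, 50615826, 36986901), (74, 16, 16, 50615841, 36987141)]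
  [(12, -108), (38, -360), (64, -72), (66, -36), (70, 108), (71, 180), (74, 252), (75, 72), (123, -36)] = true := by
  decide +kernel

theorem t43_0_1 : chkS lk43 0 5 [(1, m43_0)] l43_1
  [(71, 16, 16, 50615841, 36987141), (71, 16, 16, 50619681, 52715781), (70, 16, 16, 50619681, 52715781), (38, 16, 16, 50746386, 70410261), (64, 16, 16, 50619681, 52715781), (12, 16, 16, 34825536, 52512336), (38, 1, 1, 3233346, 36786246), (38, 1, 1, 3237186, 52514886), (38, 16, 16, 50746401, 70410501), (66, 16, 16, 50619666, 52715541), (38, 16, 16, 50742561, 69427461), (66, 16, 16, 50615826, 36986901), (64, 16, 16, 50615826, 36986901), (75, 16, 16, 50746386, 70410261), (123, 16, 16, 51733536, 54681936), (74, 16, 16, 50619681, 52715781), (75, 1, 1, 3236436, 51401286), (74, 16, 16, 50615841, 36987141), (74, 16, 16, 50615826, 36986901), (75, 1, 1, 3221076, 34624326)]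
  [(12, -72), (38, -144), (64, -144), (66, -216), (70, 72), (71, 216), (74, 72), (75, 144), (123, 72)] = true := by
  decide +kernel

theorem t43_0_2 : chkS lk43 0 5 [(1, m43_0)] l43_2
  [(63, 16, 16, 50619681, 52715781), (65, 16, 16, 50619681, 52715781), (63, 16, 16, 50615841, 36987141), (58, 16, 16, 50619681, 52715781), (11, 1, 1, 21377616, 68498016), (62, 16, 16, 50742561, 69427461), (36, 16, 16, 50684946, 54681621), (36, 16, 16, 50677266, 37969941), (63, 16, 16, 84173601, 56893701), (65, 16, 16, 84296481, 73605381), (56, 16, 16, 67331361, 52838661), (58, 16, 16, 50619666, 52715541), (11, 1, 1, 21377541, 67449441), (62, 16, 16, 50742546, 69427221), (36, 16, 16, 50684961, 54681861), (36, 16, 16, 50677281, 37970181), (27, 16, 16, 84108321, 56770821), (29, 16, 16, 84108321, 56770821), (53, 16, 16, 84108321, 56770821), (35, 16, 16, 84108306, 56770581),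 (59, 16, 16, 84162066, 40120341), (37, 16, 16, 67515681, 69611781), (73, 16, 16, 84162066, 40120341), (73, 16, 16, 84162081, 40120581), (27, 16, 16, 84100641, 40059141), (59, 16, 16, 84173601, 56893701), (37, 16, 16, 67523346, 70656021), (35, 16, 16, 84100626, 40058901), (59, 16, 16, 84173586, 56893461), (37, 16, 16, 67523361, 70656261), (73, 16, 16, 84173586, 56893461), (73, 16, 16, 84173601, 56893701), (28, 16, 16, 67450401, 38154501), (60, 16, 16, 84296481, 73605381), (36, 16, 16, 67461906, 54927381), (60, 16, 16, 84296466, 73605141), (36, 16, 16, 67461921, 54927621), (36, 16, 16, 67450401, 38154501), (6, 1, 1, 4272741, 17117766), (6, 1, 1, 4272726, 1389126)]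
  [(6, 108), (11, -108), (28, -36), (29, 36), (36, -144), (37, -36), (53, -36), (56, 36), (59, -144), (60, -108), (63, 144), (65, 108), (73, 180)] = true := by
  decide +kernel

theorem t43_0_3 : chkS lk43 0 5 [(1, m43_0)] l43_3
  [(56, 16, 16, 50746401, 70410501), (56, 16, 16, 50742561, 69427461), (52, 16, 16, 50684961, 54681861), (52, 16, 16, 50677281, 37970181), (56, 16, 16, 50746386, 70410261), (55, 16, 16, 67331361, 52838661), (54, 16, 16, 50746386, 70410261), (52, 16, 16, 50677266, 37969941), (28, 16, 16, 84108321, 56770821), (52, 16, 16, 84108321, 56770821), (61, 16, 16, 100939026, 103034901), (120, 16, 16, 68571936, 70656336), (28, 16, 16, 84100641, 40059141), (52, 16, 16, 84100641, 40059141), (61, 16, 16, 100946706, 104079381), (120, 16, 16, 68564256, 69611856), (33, 16, 16, 67331361, 52838661), (67, 16, 16, 84173601, 56893701), (67, 16,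 16, 84162066, 40120341), (119, 16, 16, 68379936, 52838736)]
  [(28, 36), (33, -36), (52, -216), (54, -108), (55, 36), (56, 252), (61, -180), (67, -72), (119, 108), (120, 180)] = true := by
  decide +kernel

theorem t43_0_4 : chkS lk43 0 5 [(1, m43_0)] l43_4
  [(65, 16, 16, 50619681, 52715781), (63, 16, 16, 50619681, 52715781), (65, 16, 16, 50615841, 36987141), (11, 1, 1, 21377616, 68498016), (58, 16, 16, 50619681, 52715781), (36, 16, 16, 50684946, 54681621), (62, 16, 16, 50742561, 69427461), (62, 16, 16, 50746401, 70410501), (65, 16, 16, 84296481, 73605381), (63, 16, 16, 84173601, 56893701), (56, 16, 16, 67327521, 37110021), (11, 1, 1, 21377541, 67449441), (58, 16, 16, 50619666, 52715541), (36, 16, 16, 50684961, 54681861), (62, 16, 16, 50742546, 69427221), (62, 16, 16, 50746386, 70410261), (29, 16, 16, 84108321, 56770821), (27, 16, 16, 84108321, 56770821),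 (35, 16, 16, 84108306, 56770581), (53, 16, 16, 84108321, 56770821), (37, 16, 16, 67515681, 69611781), (59, 16, 16, 84162066, 40120341), (73, 16, 16, 84162081, 40120581), (73, 16, 16, 84162066, 40120341), (29, 16, 16, 84100641, 40059141), (37, 16, 16, 67523346, 70656021), (59, 16, 16, 84173601, 56893701), (53, 16, 16, 84100641, 40059141), (37, 16, 16, 67523361, 70656261), (59, 16, 16, 84173586, 56893461), (73, 16, 16, 84173601, 56893701), (73, 16, 16, 84173586, 56893461), (28, 16, 16, 67461921, 54927621), (36, 16, 16, 67461906, 54927381), (60, 16, 16, 84296481, 73605381), (36, 16, 16, 67461921, 54927621), (60, 16, 16, 84296466, 73605141), (60, 16, 16, 84292626, 73543701), (6, 1, 1, 4272726, 1389126), (6, 1, 1, 4272741, 17117766)]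
  [(6, 108), (27, 36), (28, -36), (35, -36), (36, -108), (37, -144), (56, 36), (58, -108), (59, -36), (60, 36), (62, -180), (63, 108), (65, 144), (73, 180)] = true := by
  decide +kernel

theorem t43_0_5 : chkS lk43 0 5 [(1, m43_0)] l43_5
  [(63, 16, 16, 50615841, 36987141), (63, 16, 16, 50619681, 52715781), (65, 16, 16, 50615841, 36987141), (58, 16, 16, 50619681, 52715781), (36, 16, 16, 50684946, 54681621), (11, 1, 1, 21377616, 68498016), (62, 16, 16, 50746401, 70410501), (36, 16, 16, 50677266, 37969941), (56, 16, 16, 67331361, 52838661), (56, 16, 16, 67327521, 37110021), (65, 16, 16, 84296481, 73605381), (62, 16, 16, 50742546, 69427221), (36, 16, 16, 50684961, 54681861), (11, 1, 1, 21377541, 67449441), (62, 16, 16, 50746386, 70410261), (36, 16, 16, 50677281, 37970181), (53, 16, 16, 84108321, 56770821), (27, 16, 16, 84108321, 56770821), (35, 16,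 16, 84108306, 56770581), (29, 16, 16, 84108321, 56770821), (59, 16, 16, 84162066, 40120341), (37, 16, 16, 67515681, 69611781), (73, 16, 16, 84162066, 40120341), (73, 16, 16, 84162081, 40120581), (59, 16, 16, 84173601, 56893701), (53, 16, 16, 84100641, 40059141), (27, 16, 16, 84100641, 40059141), (35, 16, 16, 84100626, 40058901), (29, 16, 16, 84100641, 40059141), (37, 16, 16, 67523346, 70656021), (59, 16, 16, 84173586, 56893461), (73, 16, 16, 84173586, 56893461), (60, 16, 16, 84296481, 73605381), (28, 16, 16, 67450401, 38154501), (28, 16, 16, 67461921, 54927621), (60, 16, 16, 84296466, 73605141), (60, 16, 16, 84292626, 73543701), (36, 16, 16, 67450401, 38154501), (36, 16, 16, 67461921, 54927621), (6, 1, 1, 4272726, 1389126)]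
  [(6, 36), (11, -72), (27, -108), (28, -108), (29, -72), (35, 108), (36, -108), (37, 72), (53, 72), (56, 108), (58, 36), (59, -36), (60, -36), (62, -36), (63, 108), (65, 72), (73, -36)] = true := by
  decide +kernel

theorem t43_0_6 : chkS lk43 0 5 [(1, m43_0)] l43_6
  [(56, 16, 16, 50742561, 69427461), (56, 16, 16, 50746401, 70410501), (52, 16, 16, 50684961, 54681861), (52, 16, 16, 50677281, 37970181), (55, 16, 16, 67331361, 52838661), (56, 16, 16, 50746386, 70410261), (54, 16, 16, 50746386, 70410261), (52, 16, 16, 50677266, 37969941), (52, 16, 16, 84108321, 56770821), (28, 16, 16, 84108321, 56770821), (61, 16, 16, 100939026, 103034901), (120, 16, 16, 68571936, 70656336), (52, 16, 16, 84100641, 40059141), (28, 16, 16, 84100641, 40059141), (61, 16, 16, 100946706, 104079381), (120, 16, 16, 68564256, 69611856), (67, 16, 16, 84173601, 56893701), (33,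 16, 16, 67331361, 52838661), (67, 16, 16, 84162066, 40120341), (119, 16, 16, 68379936, 52838736)]
  [(28, -180), (33, -108), (52, -72), (54, -36), (55, 108), (56, 180), (61, 36), (67, 72), (119, 36), (120, -36)] = true := by
  decide +kernel

theorem t43_0_7 : chkS lk43 0 5 [(1, m43_0)] l43_7
  [(30, 16, 16, 100881441, 103956741), (28, 16, 16, 50684961, 54681861), (28, 16, 16, 50677281, 37970181), (68, 16, 16, 100946721, 104079621), (61, 16, 16, 67523361, 70656261), (56, 16, 16, 100881441, 103956741), (56, 16, 16, 100877601, 102973701), (54, 16, 16, 100881441, 103956741), (61, 16, 16, 67523346, 70656021), (61, 16, 16, 67515666, 69611541)]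
  [(28, 216), (30, 72), (54, -72), (56, -216), (61, 72), (68, -72)] = true := by
  decide +kernel

theorem t43_0_8 : chkS lk43 0 5 [(1, m43_0)] l43_8
  [(31, 16, 16, 218145, 3293445), (32, 16, 16, 341025, 4337925), (32, 16, 16, 344865, 4399365), (69, 16, 16, 283425, 3416325), (25, 1, 1, 4399440, 1393440), (26, 1, 1, 4411650, 3489825), (26, 1, 1, 4396290, 2441265), (18, 1, 1, 4272720, 1389120), (25, 1, 1, 4399365, 344865), (25, 1, 1, 4395525, 344625)]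
  [(18, -72), (25, 72), (26, -216), (31, 72), (32, 216), (69, -72)] = true := by
  decide +kernel

theorem t43_0_9 : chkS lk43 0 5 [(1, m43_0)] l43_9
  [(34, 16, 16, 218145, 3293445), (57, 16, 16, 218145, 3293445), (72, 16, 16, 275730, 2371605), (121, 16, 16, 1324320, 2371920)]
  [(34, 288), (57, -288), (72, -288), (121, 288)] = true := by
  decide +kernel

theorem t43_1_1 : chkS lk43 0 5 [(1, m43_1)] l43_1
  [(70, 16, 16, 50746401, 70410501), (71, 16, 16, 50684961, 54681861), (71, 16, 16, 50746401, 70410501), (12, 16, 16, 35017536, 70329936), (38, 1, 1, 3559746, 70340646), (38, 16, 16, 50615826, 36986901), (64, 16, 16, 50684961, 54681861), (66, 16, 16, 50684961, 54681861), (12, 16, 16, 35017476, 70264401), (38, 1, 1, 3498276, 54546726), (38, 16, 16, 50677281, 37970181), (64, 16, 16, 50746386, 70410261), (66, 16, 16, 50746386, 70410261), (74, 16,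 16, 50746386, 70410261), (75, 1, 1, 3547476, 68178726), (74, 16, 16, 50684961, 54681861), (75, 1, 1, 3301716, 51401766), (75, 16, 16, 50677281, 37970181), (75, 16, 16, 50677266, 37969941), (123, 16, 16, 51791136, 69427536)]
  [(12, 144), (38, -288), (64, -288), (66, -144), (70, 144), (71, 144), (74, -144), (75, 288), (123, 144)] = true := by
  decide +kernel

theorem t43_1_2 : chkS lk43 0 5 [(1, m43_1)] l43_2
  [(56, 16, 16, 67523346, 70656021), (56, 16, 16, 67461906, 54927381), (65, 16, 16, 50746401, 70410501), (62, 16, 16, 50615841, 36987141), (36, 16, 16, 50742546, 69427221), (62, 16, 16, 50677281, 37970181), (36, 16, 16, 50619666, 52715541), (11, 1, 1, 21177936, 34947936), (56, 16, 16, 67523361, 70656261), (56, 16, 16, 67461921, 54927621), (65, 16, 16, 84100641, 40059141), (62, 16, 16, 50615826, 36986901), (36, 16, 16, 50742561, 69427461), (62,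 16, 16, 50677266, 37969941), (36, 16, 16, 50619681, 52715781), (11, 1, 1, 21177861, 33899361), (28, 16, 16, 67331361, 52838661), (28, 16, 16, 67515681, 69611781), (60, 16, 16, 84100641, 40059141), (36, 16, 16, 67331346, 52838421), (60, 16, 16, 84162066, 40120341), (36, 16, 16, 67515681, 69611781), (6, 1, 1, 4399461, 17122086), (6, 1, 1, 4399446, 1393446), (29, 16, 16, 84296481, 73605381), (53, 16, 16, 84296481, 73605381), (35, 16, 16, 84296466, 73605141), (37, 16, 16, 67327506, 37109781), (53, 16, 16, 84296466, 73605141), (35, 16, 16, 84296481, 73605381), (73, 16, 16, 84108306, 56770581), (73, 16, 16, 84108321, 56770821), (29, 16, 16, 84173601, 56893701), (53, 16, 16, 84173601, 56893701), (35, 16, 16, 84173586, 56893461), (53, 16, 16, 84173586, 56893461), (35, 16, 16, 84173601, 56893701), (37, 16, 16, 67450401, 38154501), (73, 16, 16, 84292626, 73543701),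 (73, 16, 16, 84292641, 73543941)]
  [(6, 72), (11, -72), (28, 72), (29, -72), (36, -288), (37, 72), (53, -216), (56, 216), (60, -72), (65, 72), (73, 216)] = true := by
  decide +kernel

theorem t43_1_3 : chkS lk43 0 5 [(1, m43_1)] l43_3
  [(55, 16, 16, 50746401, 70410501), (56, 16, 16, 50677281, 37970181), (52, 16, 16, 50619681, 52715781), (54, 16, 16, 50677281, 37970181), (55, 16, 16, 67523361, 70656261), (56, 16, 16, 50615826, 36986901), (52, 16, 16, 50742546, 69427221), (54, 16, 16, 50677266, 37969941), (33, 16, 16, 67523361, 70656261), (67, 16, 16, 84108321, 56770821), (67, 16, 16, 84292626, 73543701), (119, 16, 16, 68571936, 70656336), (28, 16, 16, 84296481, 73605381), (61, 16, 16, 100881441, 103956741), (52, 16, 16, 84296466, 73605141), (120, 16, 16, 68498976, 38154576), (28, 16, 16, 84173601, 56893701), (52, 16, 16, 84173601, 56893701), (61,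 16, 16, 101004306, 105000981), (120, 16, 16, 68376096, 37110096)]
  [(28, -72), (33, 72), (52, -432), (54, -72), (55, 216), (56, 72), (61, 72), (67, -144), (119, 72), (120, 216)] = true := by
  decide +kernel

theorem t43_1_4 : chkS lk43 0 5 [(1, m43_1)] l43_4
  [(56, 16, 16, 67461906, 54927381), (56, 16, 16, 67523346, 70656021), (63, 16, 16, 50746401, 70410501), (36, 16, 16, 50742546, 69427221), (62, 16, 16, 50615841, 36987141), (36, 16, 16, 50619666, 52715541), (62, 16, 16, 50677281, 37970181), (58, 16, 16, 50746401, 70410501), (56, 16, 16, 67461921, 54927621), (56, 16, 16, 67523361, 70656261), (63, 16, 16, 84108321, 56770821), (36, 16, 16, 50742561, 69427461), (62, 16, 16, 50615826, 36986901), (36, 16, 16, 50619681, 52715781), (62, 16, 16, 50677266, 37969941), (58, 16, 16, 50746386, 70410261), (28, 16, 16, 67515681, 69611781), (28, 16, 16, 67331361,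 52838661), (36, 16, 16, 67331346, 52838421), (60, 16, 16, 84100641, 40059141), (36, 16, 16, 67515681, 69611781), (60, 16, 16, 84162066, 40120341), (6, 1, 1, 4399446, 1393446), (6, 1, 1, 4399461, 17122086), (27, 16, 16, 84296481, 73605381), (35, 16, 16, 84296466, 73605141), (53, 16, 16, 84296481, 73605381), (59, 16, 16, 84108321, 56770821), (35, 16, 16, 84296481, 73605381), (53, 16, 16, 84296466, 73605141), (73, 16, 16, 84108321, 56770821), (73, 16, 16, 84108306, 56770581), (27, 16, 16, 84173601, 56893701), (35, 16, 16, 84173586, 56893461), (53, 16, 16, 84173601, 56893701), (35, 16, 16, 84173601, 56893701), (53, 16, 16, 84173586, 56893461), (59, 16, 16, 84292626, 73543701), (73, 16, 16, 84292641, 73543941), (73, 16, 16, 84292626, 73543701)]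
  [(6, 72), (27, -72), (28, 72), (35, -216), (36, -72), (56, 216), (58, -72), (59, 72), (60, -72), (62, -216), (63, 72), (73, 216)] = true := by
  decide +kernel

theorem t43_1_5 : chkS lk43 0 5 [(1, m43_1)] l43_5
  [(65, 16, 16, 50746401, 70410501), (56, 16, 16, 67523346, 70656021), (63, 16, 16, 50746401, 70410501), (62, 16, 16, 50615841, 36987141), (36, 16, 16, 50619666, 52715541), (36, 16, 16, 50742546, 69427221), (58, 16, 16, 50746401, 70410501), (11, 1, 1, 21177936, 34947936), (65, 16, 16, 84100641, 40059141), (63, 16, 16, 84108321, 56770821), (56, 16, 16, 67461921, 54927621), (62, 16, 16, 50677266, 37969941), (36, 16, 16, 50619681, 52715781), (36, 16, 16, 50742561, 69427461), (58, 16, 16, 50746386, 70410261), (11, 1, 1, 21177861, 33899361), (60, 16, 16, 84100641, 40059141), (28, 16, 16, 67331361, 52838661), (36, 16, 16, 67331346, 52838421),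 (28, 16, 16, 67515681, 69611781), (60, 16, 16, 84162066, 40120341), (36, 16, 16, 67515681, 69611781), (6, 1, 1, 4399461, 17122086), (6, 1, 1, 4399446, 1393446), (53, 16, 16, 84296481, 73605381), (59, 16, 16, 84108321, 56770821), (29, 16, 16, 84296481, 73605381), (37, 16, 16, 67327506, 37109781), (27, 16, 16, 84296481, 73605381), (35, 16, 16, 84296466, 73605141), (53, 16, 16, 84296466, 73605141), (73, 16, 16, 84108306, 56770581), (53, 16, 16, 84173601, 56893701), (29, 16, 16, 84173601, 56893701), (27, 16, 16, 84173601, 56893701), (53, 16, 16, 84173586, 56893461), (59, 16, 16, 84292626, 73543701), (37, 16, 16, 67450401, 38154501), (35, 16, 16, 84173601, 56893701), (73, 16, 16, 84292641, 73543941)]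
  [(6, -72), (11, -144), (27, -72), (28, -72), (29, -144), (35, 72), (36, -72), (37, 144), (53, -144), (56, 72), (58, -72), (59, 72), (60, 72), (62, 72), (63, 72), (65, 144), (73, 72)] = true := by
  decide +kernel

theorem t43_1_6 : chkS lk43 0 5 [(1, m43_1)] l43_6
  [(56, 16, 16, 50677281, 37970181), (55, 16, 16, 50746401, 70410501), (52, 16, 16, 50619681, 52715781), (54, 16, 16, 50677281, 37970181), (56, 16, 16, 50615826, 36986901), (55, 16, 16, 67523361, 70656261), (52, 16, 16, 50742546, 69427221), (54, 16, 16, 50677266, 37969941), (67, 16, 16, 84108321, 56770821), (33, 16, 16, 67523361, 70656261), (67, 16, 16, 84292626, 73543701), (119, 16, 16, 68571936, 70656336), (61, 16, 16, 100881441, 103956741), (28, 16, 16, 84296481, 73605381), (52, 16, 16, 84296466, 73605141), (120, 16, 16, 68498976, 38154576), (52, 16, 16, 84173601, 56893701), (28, 16,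 16, 84173601, 56893701), (61, 16, 16, 101004306, 105000981), (120, 16, 16, 68376096, 37110096)]
  [(28, -216), (33, -72), (52, -144), (54, -216), (55, 72), (56, 216), (61, 216), (67, 144), (119, -72), (120, 72)] = true := by
  decide +kernel

theorem t43_1_7 : chkS lk43 0 5 [(1, m43_1)] l43_7
  [(28, 16, 16, 50742561, 69427461), (28, 16, 16, 50619681, 52715781), (30, 16, 16, 101008161, 105062661), (56, 16, 16, 101008161, 105062661), (54, 16, 16, 101008161, 105062661), (56, 16, 16, 100946706, 104079381), (68, 16, 16, 100881441, 103956741), (61, 16, 16, 67327521, 37110021), (54, 16, 16, 101008146, 105062421), (61, 16, 16, 67450386, 38154261)]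
  [(28, 144), (30, 144), (54, 144), (56, -144), (61, -144), (68, -144)] = true := by
  decide +kernel

theorem t43_1_8 : chkS lk43 0 5 [(1, m43_1)] l43_8
  [(32, 16, 16, 214305, 2310405), (32, 16, 16, 275745, 2371845), (31, 16, 16, 344865, 4399365), (26, 1, 1, 4526850, 4530225), (18, 1, 1, 4399440, 1393440), (26, 1, 1, 4281120, 3481920), (69, 16, 16, 218145, 3293445), (25, 1, 1, 4268880, 1385280), (18, 1, 1, 4399365, 344865), (25, 1, 1, 4330245, 336945)]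
  [(18, 144), (25, -144), (26, -144), (31, 144), (32, 144), (69, -144)] = true := by
  decide +kernel

theorem t43_1_9 : chkS lk43 0 5 [(1, m43_1)] l43_9
  [(34, 16, 16, 344865, 4399365), (72, 16, 16, 218145, 3293445), (72, 16, 16, 341010, 4337685), (124, 16, 16, 1324320, 2371920)]
  [(34, 288), (72, -576), (124, 288)] = true := by
  decide +kernel

theorem t43_2_2 : chkS lk43 0 5 [(1, m43_2)] l43_2
  [(77, 16, 16, 87318786, 56905761), (78, 16, 16, 87441666, 73617441), (125, 16, 16, 67461921, 54927621), (125, 16, 16, 67461681, 54923781), (93, 16, 16, 87441426, 73617426), (93, 1, 1, 55664706, 55664706), (91, 16, 16, 87318546, 56905746), (116, 16, 16, 69619731, 70649106), (101, 16, 16, 86270211, 56886561), (102, 16, 16, 86393091, 73598241), (96, 1, 1, 54617376, 52781376), (98, 1, 1, 6562581, 84157206), (99, 1, 1, 39059766, 5510691), (41, 1, 1, 37838901,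 50665026), (40, 1, 1, 37838901, 50665026), (115, 16, 16, 67523121, 70652421), (101, 16, 16, 86269971, 56886546), (102, 16, 16, 86392851, 73598226), (96, 1, 1, 54616656, 51733056), (94, 16, 16, 70606866, 54939666), (98, 1, 1, 6562101, 84153126), (99, 1, 1, 39060246, 5514771), (90, 16, 16, 69619731, 70649106), (115, 16, 16, 67523361, 70656261), (98, 16, 16, 100946481, 104075781), (98, 16, 16, 100946721, 104079621), (41, 16, 16, 69619731, 70649106), (90, 1, 1, 37827936, 19215936), (76, 16, 16, 87318786, 56905761), (45, 16, 16, 69619971, 70649121), (88, 16, 16, 87318546, 56905746), (90, 1, 1, 55648326, 5333826), (99, 16, 16, 86392851, 73598226), (99, 16, 16, 86393091, 73598241), (40, 16, 16, 69558291, 54920466), (45, 1, 1, 37970181, 50677281), (44, 16, 16, 69558531, 54920481), (116, 16, 16, 84296241, 73601541), (90, 16, 16, 87441426, 73617426), (116,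 16, 16, 84296481, 73605381)]
  [(40, -72), (41, 72), (44, 36), (45, -72), (76, -72), (77, 72), (78, 36), (88, 72), (90, 144), (91, -72), (93, -72), (94, -36), (98, -144), (99, -216), (101, 72), (102, 108), (116, 72), (125, 72)] = true := by
  decide +kernel

theorem t43_2_3 : chkS lk43 0 5 [(1, m43_2)] l43_3
  [(49, 1, 1, 54939906, 70606881), (93, 1, 1, 21378336, 69546336), (92, 1, 1, 21193296, 51724896), (87, 1, 1, 21177936, 34947936), (42, 1, 1, 21385986, 70590561), (92, 1, 1, 22242306, 55722081), (41, 1, 1, 22422276, 72360801), (89, 1, 1, 22225926, 5391201), (42, 1, 1, 21385266, 70586466), (92, 1, 1, 22241346, 55656546), (41, 1, 1, 22421556, 72356706), (89, 1, 1, 22224966, 5325666), (99, 16, 16, 100946481, 104075781), (87, 1, 1, 54601296, 34956096), (45, 1, 1, 55976196, 72377121), (89, 1, 1, 55648326, 5333826), (103, 16, 16, 84173361, 56889861),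 (103, 16, 16, 84173601, 56893701), (114, 1, 1, 22029366, 5378916), (114, 1, 1, 22029126, 5317476)]
  [(41, -180), (42, 180), (45, -108), (49, 108), (89, 144), (92, -144), (93, 36), (99, -36), (103, -144), (114, 144)] = true := by
  decide +kernel

theorem t43_2_4 : chkS lk43 0 5 [(1, m43_2)] l43_4
  [(78, 16, 16, 87441666, 73617441), (77, 16, 16, 87318786, 56905761), (93, 16, 16, 87441666, 73617441), (93, 16, 16, 87441426, 73617426), (125, 16, 16, 67461681, 54923781), (91, 16, 16, 87318546, 56905746), (93, 1, 1, 55664706, 55664706), (116, 16, 16, 69619971, 70649121), (102, 16, 16, 86393091, 73598241), (101, 16, 16, 86270211, 56886561), (94, 16, 16, 70607106, 54939681), (99, 1, 1, 39059766, 5510691), (98, 1, 1, 6562581, 84157206), (40, 1, 1, 37838901, 50665026), (41, 1, 1, 37838901, 50665026), (90, 16, 16, 69619971, 70649121), (102, 16, 16, 86392851,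 73598226), (101, 16, 16, 86269971, 56886546), (94, 16, 16, 70606866, 54939666), (96, 1, 1, 54616656, 51733056), (99, 1, 1, 39060246, 5514771), (98, 1, 1, 6562101, 84153126), (115, 16, 16, 67523361, 70656261), (90, 16, 16, 69619731, 70649106), (41, 16, 16, 69619971, 70649121), (41, 16, 16, 69619731, 70649106), (98, 16, 16, 100946721, 104079621), (90, 1, 1, 37828176, 34944576), (45, 16, 16, 69619971, 70649121), (76, 16, 16, 87318786, 56905761), (90, 1, 1, 55648326, 5333826), (88, 16, 16, 87318546, 56905746), (40, 16, 16, 69558531, 54920481), (40, 16, 16, 69558291, 54920466), (99, 16, 16, 86393091, 73598241), (44, 16, 16, 69558531, 54920481), (45, 1, 1, 37970181, 50677281), (90, 16, 16, 87441666, 73617441), (116, 16, 16, 84296481, 73605381), (90, 16, 16, 87441426, 73617426)]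
  [(40, -72), (41, -108), (44, -36), (45, -36), (76, -36), (77, 36), (78, 72), (88, 36), (90, 216), (91, -36), (96, -36), (98, -72), (99, -108), (101, 108), (102, 72), (115, 36), (125, -36)] = true := by
  decide +kernel

theorem t43_2_5 : chkS lk43 0 5 [(1, m43_2)] l43_5
  [(125, 16, 16, 67461921, 54927621), (77, 16, 16, 87318786, 56905761), (93, 16, 16, 87441666, 73617441), (125, 16, 16, 67461681, 54923781), (91, 16, 16, 87318546, 56905746), (93, 16, 16, 87441426, 73617426), (116, 16, 16, 69619971, 70649121), (116, 16, 16, 69619731, 70649106), (96, 1, 1, 54617376, 52781376), (94, 16, 16, 70607106, 54939681), (102, 16, 16, 86393091, 73598241), (41, 1, 1, 37838901, 50665026), (40, 1, 1, 37838901, 50665026), (99, 1, 1, 39059766, 5510691), (90, 16, 16, 69619971, 70649121), (115, 16, 16, 67523121, 70652421), (96, 1, 1, 54616656, 51733056), (101, 16,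 16, 86269971, 56886546), (94, 16, 16, 70606866, 54939666), (102, 16, 16, 86392851, 73598226), (98, 1, 1, 6562101, 84153126), (99, 1, 1, 39060246, 5514771), (90, 16, 16, 69619731, 70649106), (115, 16, 16, 67523361, 70656261), (98, 16, 16, 100946721, 104079621), (90, 1, 1, 37828176, 34944576), (98, 16, 16, 100946481, 104075781), (90, 1, 1, 37827936, 19215936), (41, 16, 16, 69619971, 70649121), (41, 16, 16, 69619731, 70649106), (76, 16, 16, 87318786, 56905761), (88, 16, 16, 87318546, 56905746), (99, 16, 16, 86393091, 73598241), (99, 16, 16, 86392851, 73598226), (40, 16, 16, 69558531, 54920481), (45, 1, 1, 37970181, 50677281), (90, 16, 16, 87441666, 73617441), (116, 16, 16, 84296241, 73601541), (44, 16, 16, 69558531, 54920481), (116, 16, 16, 84296481, 73605381)]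
  [(40, -72), (41, 36), (44, 36), (45, -36), (76, -36), (77, 36), (88, 36), (90, 72), (91, -36), (94, 72), (96, 108), (98, -72), (99, -108), (101, -36), (115, -108), (125, 108)] = true := by
  decide +kernel

theorem t43_2_6 : chkS lk43 0 5 [(1, m43_2)] l43_6
  [(93, 1, 1, 21378336, 69546336), (49, 1, 1, 54939906, 70606881), (92, 1, 1, 21193296, 51724896), (87, 1, 1, 21177936, 34947936), (92, 1, 1, 22242306, 55722081), (42, 1, 1, 21385986, 70590561), (41, 1, 1, 22422276, 72360801), (89, 1, 1, 22225926, 5391201), (92, 1, 1, 22241346, 55656546), (42, 1, 1, 21385266, 70586466), (41, 1, 1, 22421556, 72356706), (89, 1, 1, 22224966, 5325666), (87, 1, 1, 54601296, 34956096), (99, 16, 16, 100946481, 104075781), (45, 1, 1, 55976196, 72377121), (89, 1, 1, 55648326, 5333826), (103, 16, 16, 84173601, 56893701), (103, 16, 16, 84173361, 56889861), (114, 1, 1, 22029366,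 5378916), (114, 1, 1, 22029126, 5317476)]
  [(41, 36), (42, -36), (45, -36), (49, 36), (89, -144), (92, 144), (93, 108), (99, -108), (103, -144), (114, 144)] = true := by
  decide +kernel

theorem t43_2_7 : chkS lk43 0 5 [(1, m43_2)] l43_7
  [(104, 16, 16, 103043091, 104072466), (42, 1, 1, 104943666, 104140866), (99, 16, 16, 67523121, 70652421), (104, 16, 16, 103043331, 104072481), (99, 16, 16, 67523361, 70656261), (49, 1, 1, 105074946, 104153121), (93, 1, 1, 104936736, 103100736), (93, 1, 1, 104936016, 102052416), (45, 1, 1, 106111236, 105923361), (41, 1, 1, 105979956, 105911106)]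
  [(41, -72), (42, 72), (45, 72), (49, -72), (93, -216), (99, 216), (104, 0)] = true := by
  decide +kernel

theorem t43_2_8 : chkS lk43 0 5 [(1, m43_2)] l43_8
  [(105, 16, 16, 2379795, 3409170), (24, 16, 16, 3428610, 3428385), (21, 1, 1, 2442000, 4400400), (105, 16, 16, 2380035, 3409185), (21, 1, 1, 2441520, 4396320), (50, 1, 1, 4411650, 3489825), (22, 16, 16, 1389600, 4338000), (22, 16, 16, 1389120, 4272720), (48, 16, 16, 2441475, 4392225), (21, 16, 16, 4399365, 344865)]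
  [(21, 144), (22, -216), (24, 72), (48, 72), (50, -72), (105, 0)] = true := by
  decide +kernel

theorem t43_2_9 : chkS lk43 0 5 [(1, m43_2)] l43_9
  [(110, 16, 16, 283185, 3412485), (10, 16, 16, 1332000, 3416400), (128, 16, 16, 2441235, 4392210), (7, 16, 16, 344865, 4399365)]
  [(7, 288), (10, -288), (110, 288), (128, -288)] = true := by
  decide +kernel

theorem t43_3_3 : chkS lk43 0 5 [(1, m43_3)] l43_3
  [(2, 16, 16, 35017776, 70391376), (91, 16, 16, 68571936, 70656336), (91, 16, 16, 68510256, 54923856), (1, 16, 16, 34879056, 34879056), (17, 16, 16, 70668306, 70668306), (94, 16, 16, 85222176, 56893776), (40, 1, 1, 22422276, 72360801), (9, 16, 16, 38162691, 70583841), (17, 16, 16, 70668546, 70668321), (94, 16, 16, 85221936, 56889936), (40, 1, 1, 22421556, 72356706), (9, 16, 16, 38162451, 70583826), (40, 16, 16, 85344816, 73601616), (9, 1, 1, 69285456,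 35009856), (44, 16, 16, 87441666, 73617441), (117, 16, 16, 101995296, 104079696), (40, 16, 16, 85221936, 56889936), (40, 16, 16, 85222176, 56893776), (117, 16, 16, 102056496, 105058896), (117, 16, 16, 102056736, 105062736)]
  [(1, -36), (2, 108), (9, 72), (17, 180), (40, -360), (44, -108), (91, -72), (94, -36), (117, 252)] = true := by
  decide +kernel

theorem t43_3_4 : chkS lk43 0 5 [(1, m43_3)] l43_4
  [(49, 16, 16, 70607106, 54939681), (49, 16, 16, 70668546, 70668321), (92, 16, 16, 68571936, 70656336), (92, 16, 16, 68571696, 70652496), (93, 16, 16, 68571696, 70652496), (92, 16, 16, 68510256, 54923856), (93, 16, 16, 68510256, 54923856), (87, 16, 16, 68571936, 70656336), (42, 16, 16, 68510496, 54927696), (42, 16, 16, 68571936, 70656336), (92, 16, 16, 85222176, 56893776), (103, 1, 1, 5645076, 72360726), (99, 1, 1, 6562581, 84157206), (103, 1, 1,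 5399316, 55583766), (99, 1, 1, 6439701, 84091926), (87, 16, 16, 70668546, 70668321), (42, 16, 16, 68510256, 54923856), (42, 16, 16, 68571696, 70652496), (92, 16, 16, 85221936, 56889936), (96, 16, 16, 85221936, 56889936), (103, 1, 1, 5644596, 72356646), (99, 1, 1, 6562101, 84153126), (113, 16, 16, 68571936, 70656336), (87, 16, 16, 70668306, 70668306), (39, 16, 16, 85344816, 73601616), (39, 16, 16, 85345056, 73605456), (41, 16, 16, 85345056, 73605456), (89, 16, 16, 85222176, 56893776), (43, 16, 16, 87441666, 73617441), (45, 16, 16, 87441666, 73617441), (114, 16, 16, 85222176, 56893776), (89, 16, 16, 87318546, 56905746), (39, 16, 16, 85221936, 56889936), (39, 16, 16, 85222176, 56893776), (41, 16, 16, 85222176, 56893776), (43, 16, 16, 87318786, 56905761), (45, 16, 16, 87318786, 56905761), (89, 16, 16, 87441666, 73617441), (114, 16, 16, 85345056, 73605456),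 (89, 16, 16, 87441426, 73617426)]
  [(39, -180), (42, 180), (43, -108), (49, 108), (87, -36), (89, 180), (92, 36), (93, -108), (96, -36), (99, -144), (103, -36), (113, 36), (114, 108)] = true := by
  decide +kernel

theorem t43_3_5 : chkS lk43 0 5 [(1, m43_3)] l43_5
  [(93, 16, 16, 68571936, 70656336), (49, 16, 16, 70668546, 70668321), (92, 16, 16, 68571936, 70656336), (93, 16, 16, 68571696, 70652496), (92, 16, 16, 68510256, 54923856), (92, 16, 16, 68571696, 70652496), (87, 16, 16, 68571936, 70656336), (87, 16, 16, 68571696, 70652496), (96, 16, 16, 85222176, 56893776), (92, 16, 16, 85222176, 56893776), (42, 16, 16, 68510496, 54927696), (99, 1, 1, 6439701, 84091926), (103, 1, 1, 5399316, 55583766), (103, 1, 1, 5645076, 72360726), (87, 16, 16, 70668546, 70668321), (113, 16, 16, 68571696, 70652496), (96, 16, 16, 85221936, 56889936), (42, 16, 16, 68571696,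 70652496), (92, 16, 16, 85221936, 56889936), (42, 16, 16, 68510256, 54923856), (99, 1, 1, 6562101, 84153126), (103, 1, 1, 5644596, 72356646), (87, 16, 16, 70668306, 70668306), (113, 16, 16, 68571936, 70656336), (41, 16, 16, 85345056, 73605456), (89, 16, 16, 85222176, 56893776), (41, 16, 16, 85344816, 73601616), (89, 16, 16, 85221936, 56889936), (39, 16, 16, 85344816, 73601616), (39, 16, 16, 85345056, 73605456), (45, 16, 16, 87441666, 73617441), (89, 16, 16, 87318546, 56905746), (41, 16, 16, 85222176, 56893776), (41, 16, 16, 85221936, 56889936), (39, 16, 16, 85221936, 56889936), (45, 16, 16, 87318786, 56905761), (89, 16, 16, 87441666, 73617441), (114, 16, 16, 85344816, 73601616), (43, 16, 16, 87318786, 56905761), (114, 16, 16, 85345056, 73605456)]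
  [(39, -36), (41, -216), (42, -36), (43, 36), (45, -72), (49, 36), (87, -180), (89, 180), (92, 36), (93, 108), (96, 108), (99, 72), (103, -36), (113, -108), (114, 108)] = true := by
  decide +kernel

theorem t43_3_6 : chkS lk43 0 5 [(1, m43_3)] l43_6
  [(91, 16, 16, 68571936, 70656336), (2, 16, 16, 35017776, 70391376), (91, 16, 16, 68510256, 54923856), (1, 16, 16, 34879056, 34879056), (94, 16, 16, 85222176, 56893776), (17, 16, 16, 70668306, 70668306), (40, 1, 1, 22422276, 72360801), (9, 16, 16, 38162691, 70583841), (94, 16, 16, 85221936, 56889936), (17, 16, 16, 70668546, 70668321), (40, 1, 1, 22421556, 72356706), (9, 16, 16, 38162451, 70583826), (9, 1, 1, 69285456, 35009856), (40, 16, 16, 85344816, 73601616), (44, 16, 16, 87441666, 73617441), (117, 16, 16, 101995296, 104079696), (40, 16, 16, 85222176, 56893776), (40, 16, 16, 85221936, 56889936),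 (117, 16, 16, 102056496, 105058896), (117, 16, 16, 102056736, 105062736)]
  [(1, -108), (2, 36), (9, -72), (17, -36), (40, -216), (44, -36), (91, 72), (94, 180), (117, 180)] = true := by
  decide +kernel

theorem t43_3_7 : chkS lk43 0 5 [(1, m43_3)] l43_7
  [(42, 16, 16, 102056496, 105058896), (42, 16, 16, 101995056, 104075856), (16, 1, 1, 104153601, 105075201), (42, 16, 16, 102056736, 105062736), (16, 1, 1, 104153121, 105074946), (49, 16, 16, 104091906, 104091681), (95, 16, 16, 101995296, 104079696), (95, 16, 16, 101995056, 104075856), (46, 16, 16, 104153346, 105074721), (100, 1, 1, 73532181, 84288531)]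
  [(16, 216), (42, 72), (46, 72), (49, -72), (95, -216), (100, -72)] = true := by
  decide +kernel

theorem t43_3_8 : chkS lk43 0 5 [(1, m43_3)] l43_8
  [(24, 1, 1, 4534785, 4534785), (24, 1, 1, 4411905, 3490305), (20, 1, 1, 2442000, 4400400), (24, 1, 1, 4534305, 4534530), (20, 1, 1, 2441520, 4396320), (50, 16, 16, 3428610, 3428385), (23, 1, 1, 5321760, 5386560), (23, 1, 1, 5321280, 5321280), (47, 16, 16, 3490050, 4411425), (106, 1, 1, 5374740, 5252115)]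
  [(20, 216), (23, -216), (24, 72), (47, 72), (50, -72), (106, -72)] = true := by
  decide +kernel

theorem t43_3_9 : chkS lk43 0 5 [(1, m43_3)] l43_9
  [(15, 16, 16, 3428610, 3428385), (8, 16, 16, 1332000, 3416400), (118, 16, 16, 1393200, 4395600), (5, 16, 16, 1393440, 4399440)]
  [(5, 288), (8, -288), (15, 288), (118, -288)] = true := by
  decide +kernel

theorem t43_4_4 : chkS lk43 0 5 [(1, m43_4)] l43_4
  [(77, 16, 16, 87441666, 73617441), (78, 16, 16, 87318786, 56905761), (91, 16, 16, 87441666, 73617441), (91, 16, 16, 87441426, 73617426), (93, 1, 1, 55971906, 72441906), (93, 16, 16, 87318546, 56905746), (125, 16, 16, 67523121, 70652421), (116, 16, 16, 69558531, 54920481), (101, 16, 16, 86393091, 73598241), (102, 16, 16, 86270211, 56886561), (96, 16, 16, 70607106, 54939681), (40, 1, 1, 38146101, 67442226), (41, 1, 1, 38146101, 67442226), (99,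 1, 1, 38814006, 5445156), (98, 1, 1, 6439701, 84091926), (90, 16, 16, 69558531, 54920481), (101, 16, 16, 86392851, 73598226), (102, 16, 16, 86269971, 56886546), (96, 16, 16, 70606866, 54939666), (126, 16, 16, 100946481, 104075781), (40, 1, 1, 38146821, 67446321), (41, 1, 1, 38146821, 67446321), (115, 16, 16, 67461921, 54927621), (90, 16, 16, 69558291, 54920466), (40, 16, 16, 69619971, 70649121), (40, 16, 16, 69619731, 70649106), (99, 16, 16, 86270211, 56886561), (115, 16, 16, 86270211, 56886561), (44, 16, 16, 69619971, 70649121), (45, 1, 1, 38154501, 67450401), (116, 16, 16, 84173601, 56893701), (90, 16, 16, 87318546, 56905746), (41, 16, 16, 69558531, 54920481), (41, 16, 16, 69558291, 54920466), (98, 16, 16, 101008161, 105062661), (45, 16, 16, 69558531, 54920481), (76, 16, 16, 87441666, 73617441), (88, 16, 16, 87441666, 73617441), (90, 1, 1, 55709766,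 5334066), (88, 16, 16, 87441426, 73617426)]
  [(40, -144), (41, -216), (44, -72), (45, -72), (76, 36), (77, 72), (78, 36), (88, 108), (90, 72), (91, 72), (93, -72), (98, -72), (99, 72), (101, 72), (102, 108), (115, 72), (116, 36), (125, -72), (126, -36)] = true := by
  decide +kernel

theorem t43_4_5 : chkS lk43 0 5 [(1, m43_4)] l43_5
  [(93, 1, 1, 55972866, 72507441), (78, 16, 16, 87318786, 56905761), (91, 16, 16, 87441666, 73617441), (93, 1, 1, 55971906, 72441906), (93, 16, 16, 87318546, 56905746), (91, 16, 16, 87441426, 73617426), (116, 16, 16, 69558531, 54920481), (116, 16, 16, 69558291, 54920466), (126, 16, 16, 100946721, 104079621), (96, 16, 16, 70607106, 54939681), (101, 16, 16, 86393091, 73598241), (98, 1, 1, 6439701, 84091926), (99, 1, 1, 38814006, 5445156), (40, 1, 1, 38146101, 67442226), (90, 16, 16, 69558531, 54920481), (115, 16, 16, 67461681,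 54923781), (126, 16, 16, 100946481, 104075781), (102, 16, 16, 86269971, 56886546), (96, 16, 16, 70606866, 54939666), (101, 16, 16, 86392851, 73598226), (41, 1, 1, 38146821, 67446321), (40, 1, 1, 38146821, 67446321), (90, 16, 16, 69558291, 54920466), (115, 16, 16, 67461921, 54927621), (99, 16, 16, 86270211, 56886561), (115, 16, 16, 86270211, 56886561), (99, 16, 16, 86269971, 56886546), (115, 16, 16, 86269971, 56886546), (40, 16, 16, 69619971, 70649121), (40, 16, 16, 69619731, 70649106), (45, 1, 1, 38154501, 67450401), (90, 16, 16, 87318546, 56905746), (98, 16, 16, 101008161, 105062661), (98, 16, 16, 101007921, 105058821), (41, 16, 16, 69558531, 54920481), (76, 16, 16, 87441666, 73617441), (88, 16, 16, 87441666, 73617441), (90, 1, 1, 55710726, 5399601), (45, 16, 16, 69558531, 54920481), (90, 1, 1, 55709766, 5334066)]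
  [(76, -36), (78, 36), (88, 36), (90, 72), (93, 72), (96, 72), (98, -72), (99, -144), (102, -36), (116, -108), (126, 108)] = true := by
  decide +kernel

theorem t43_4_6 : chkS lk43 0 5 [(1, m43_4)] l43_6
  [(92, 1, 1, 21378336, 69546336), (49, 1, 1, 54878466, 54878241), (93, 1, 1, 21193296, 51724896), (87, 1, 1, 21116496, 34944096), (96, 1, 1, 22242306, 55722081), (42, 1, 1, 21324546, 54861921), (39, 1, 1, 22422276, 72360801), (89, 1, 1, 22164486, 5387361), (96, 1, 1, 22241346, 55656546), (42, 1, 1, 21323826, 54857826), (39, 1, 1, 22421556, 72356706), (89, 1, 1, 22163526, 5321826), (113, 1, 1, 21104211, 34931811), (103, 16, 16, 84296241, 73601541), (43, 1, 1, 55976196, 72377121), (114, 1, 1, 22152006, 5317731), (99, 16, 16, 101008161, 105062661), (99, 16, 16, 101007921, 105058821), (89, 1, 1, 55710726, 5399601), (89, 1, 1, 55709766, 5334066)]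
  [(39, 36), (42, -36), (43, -36), (49, 36), (87, -108), (89, -36), (92, 108), (93, -36), (96, 180), (99, -144), (103, -108), (113, 108), (114, 36)] = true := by
  decide +kernel

theorem t43_4_7 : chkS lk43 0 5 [(1, m43_4)] l43_7
  [(42, 1, 1, 105189426, 105189426), (104, 16, 16, 103104531, 105055506), (99, 16, 16, 67461681, 54923781), (42, 1, 1, 105190146, 105193521), (99, 16, 16, 67461921, 54927621), (79, 16, 16, 104153346, 105074721), (96, 1, 1, 106107906, 106053681), (96, 1, 1, 106106946, 105988146), (45, 1, 1, 106049796, 105919521), (41, 1, 1, 106042116, 105915441)]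
  [(41, -72), (45, 72), (79, -72), (96, -216), (99, 216), (104, 72)] = true := by
  decide +kernel

theorem t43_4_8 : chkS lk43 0 5 [(1, m43_4)] l43_8
  [(24, 16, 16, 3490050, 4411425), (105, 16, 16, 2441235, 4392210), (21, 1, 1, 2380560, 3417360), (24, 16, 16, 3489810, 4411410), (21, 1, 1, 2380080, 3413280), (80, 16, 16, 3490050, 4411425), (97, 16, 16, 3490050, 4411425), (97, 16, 16, 3489810, 4411410), (48, 16, 16, 2380035, 3409185), (21, 16, 16, 4337685, 341010)]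
  [(21, 144), (48, 72), (80, -72), (97, -216), (105, 72)] = true := by
  decide +kernel

theorem t43_4_9 : chkS lk43 0 5 [(1, m43_4)] l43_9
  [(110, 16, 16, 344625, 4395525), (127, 16, 16, 283425, 3416325), (122, 16, 16, 2441235, 4392210), (7, 16, 16, 283425, 3416325)]
  [(7, 288), (110, 288), (122, -288), (127, -288)] = true := by
  decide +kernel

theorem t43_5_5 : chkS lk43 0 5 [(1, m43_5)] l43_5
  [(77, 16, 16, 87299586, 40128561), (125, 16, 16, 67450401, 38154501), (78, 16, 16, 87430146, 73551921), (125, 16, 16, 67446321, 38146821), (116, 16, 16, 69600531, 69600531), (93, 16, 16, 87426066, 73551891), (93, 1, 1, 55641666, 38887491), (91, 16, 16, 87295506, 40128531), (94, 16, 16, 70587906, 38162481), (96, 1, 1, 54613536, 37052736), (96, 16, 16, 70653186, 69619761), (90, 16, 16, 69604611, 69600561), (115, 16, 16, 67511601, 69604101), (99, 1, 1,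 39063606, 5510706), (41, 1, 1, 37815861, 33887811), (40, 1, 1, 37815861, 33887811), (90, 1, 1, 37839696, 51717696), (98, 16, 16, 100934961, 103027461), (90, 1, 1, 37835616, 20260416), (41, 16, 16, 69604611, 69600561), (76, 16, 16, 87299586, 40128561), (45, 16, 16, 69604611, 69600561), (88, 16, 16, 87295506, 40128531), (90, 1, 1, 55640646, 5333571), (126, 16, 16, 101000241, 104993541), (96, 1, 1, 54601296, 34956096), (101, 16, 16, 86246931, 40109331), (94, 16, 16, 70583826, 38162451), (102, 16, 16, 86377491, 73532691), (96, 16, 16, 70649106, 69619731), (98, 1, 1, 6558261, 84152886), (90, 16, 16, 69600531, 69600531), (115, 16, 16, 86381571, 73532721), (40, 16, 16, 69539331, 38143281), (99, 16, 16, 86377491, 73532691), (90, 16, 16, 87430146, 73551921), (45, 1, 1, 37950981, 33900081), (44, 16, 16, 69539331, 38143281), (116, 16, 16, 84288561, 73536261),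 (116, 16, 16, 84292641, 73543941)]
  [(40, -144), (41, -72), (44, 72), (45, 72), (76, 36), (77, 72), (78, 36), (88, -36), (90, 72), (91, -72), (93, -72), (94, 144), (96, 144), (98, -72), (99, -72), (101, -72), (102, -36), (115, -72), (116, 36), (125, 72), (126, -36)] = true := by
  decide +kernel

theorem t43_5_6 : chkS lk43 0 5 [(1, m43_5)] l43_6
  [(49, 1, 1, 54924546, 69558321), (93, 1, 1, 21386016, 70590816), (87, 1, 1, 21193296, 51724896), (92, 1, 1, 21177936, 34947936), (92, 1, 1, 22234626, 39010401), (96, 1, 1, 22430466, 72556641), (41, 1, 1, 22426116, 72364641), (39, 1, 1, 22164996, 38810721), (87, 1, 1, 54616656, 51733056), (99, 16, 16, 100934961, 103027461), (45, 1, 1, 55972356, 72376881), (89, 1, 1, 55640646, 5333571), (92, 1, 1, 22218306, 38879331), (42, 1, 1, 21366066, 69537891), (41, 1, 1, 22413876, 72356451), (89, 1, 1, 22217286, 5325411),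 (113, 1, 1, 20996691, 51708516), (103, 16, 16, 84158001, 40112901), (43, 1, 1, 55711236, 38822961), (114, 1, 1, 22032966, 5321316)]
  [(39, -108), (41, -72), (42, -108), (43, 108), (45, 72), (49, 108), (87, 36), (89, -36), (92, 108), (93, 36), (96, 36), (99, -72), (103, -108), (113, -36), (114, 36)] = true := by
  decide +kernel

theorem t43_5_7 : chkS lk43 0 5 [(1, m43_5)] l43_7
  [(104, 16, 16, 103023891, 103023891), (99, 16, 16, 67511601, 69604101), (42, 1, 1, 104924466, 103092291), (79, 16, 16, 104076546, 103043121), (96, 1, 1, 105972546, 105979971), (93, 1, 1, 104944416, 104145216), (49, 1, 1, 105059586, 103104561), (93, 1, 1, 104932176, 102048576), (41, 1, 1, 105972276, 105910851), (45, 1, 1, 106107396, 105923121)]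
  [(41, 72), (42, 144), (45, -72), (49, -144), (79, -72), (93, -144), (96, 72), (99, 72), (104, 72)] = true := by
  decide +kernel

theorem t43_5_8 : chkS lk43 0 5 [(1, m43_5)] l43_8
  [(105, 16, 16, 2360595, 2360595), (21, 1, 1, 2438160, 4338960), (24, 16, 16, 3413250, 2379825), (80, 16, 16, 3413250, 2379825), (97, 16, 16, 3409170, 2379795), (22, 16, 16, 1393440, 4399440), (50, 1, 1, 4396290, 2441265), (22, 16, 16, 1385280, 4268880), (21, 16, 16, 4395525, 344625), (48, 16, 16, 2429955, 4326705)]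
  [(21, 144), (22, -144), (24, 144), (48, -72), (50, -144), (80, -72), (97, 72), (105, 72)] = true := by
  decide +kernel

theorem t43_5_9 : chkS lk43 0 5 [(1, m43_5)] l43_9
  [(110, 16, 16, 271665, 2364165), (10, 16, 16, 1324320, 2371920), (84, 16, 16, 2364675, 2360625), (122, 16, 16, 2364675, 2360625)]
  [(10, -288), (84, -288), (110, 288), (122, 288)] = true := by
  decide +kernel

theorem t43_6_6 : chkS lk43 0 5 [(1, m43_6)] l43_6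
  [(2, 16, 16, 35013936, 69408336), (91, 16, 16, 68564256, 69611856), (1, 16, 16, 34890576, 51652176), (91, 16, 16, 68494896, 38146896), (94, 16, 16, 85210656, 40120656), (94, 16, 16, 85341216, 73544016), (40, 1, 1, 22426116, 72364641), (40, 1, 1, 22164996, 38810721), (9, 1, 1, 69296976, 51782976), (40, 16, 16, 85337136, 73536336), (44, 16, 16, 87430146, 73551921), (117, 16, 16, 101987616, 103035216), (94, 16, 16, 85206576, 40112976), (17, 16, 16, 70653186, 69619761), (40, 1, 1, 22413876, 72356451), (9, 16, 16, 38143251, 69535251), (9, 1, 1, 69427536, 51791136), (40, 16, 16, 85206576, 40112976), (44, 16, 16, 87299586, 40128561), (117, 16, 16, 102052896, 105001296)]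
  [(1, -36), (2, 108), (9, 72), (17, -108), (40, -360), (44, 180), (91, -72), (94, 252), (117, -36)] = true := by
  decide +kernel

theorem t43_6_7 : chkS lk43 0 5 [(1, m43_6)] l43_7
  [(42, 16, 16, 102048816, 104993616), (16, 1, 1, 104145921, 105009921), (42, 16, 16, 101983536, 103027536), (49, 16, 16, 104141826, 105009201), (95, 16, 16, 102048816, 104993616), (95, 16, 16, 101987616, 103035216), (49, 16, 16, 104076546, 103043121), (95, 16, 16, 101983536, 103027536), (100, 1, 1, 73543701, 84292626), (46, 16, 16, 104141826, 105009201)]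
  [(16, 72), (42, 216), (46, -72), (49, -216), (95, -72), (100, 72)] = true := by
  decide +kernel

theorem t43_6_8 : chkS lk43 0 5 [(1, m43_6)] l43_8
  [(24, 1, 1, 4530945, 4530945), (20, 1, 1, 2438160, 4338960), (24, 1, 1, 4400385, 2441985), (50, 16, 16, 3478530, 4345905), (23, 1, 1, 5448000, 5325600), (23, 1, 1, 5325600, 5448000), (50, 16, 16, 3413250, 2379825), (23, 1, 1, 5317440, 5317440), (106, 1, 1, 5386260, 5256210), (47, 16, 16, 3478530, 4345905)]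
  [(20, 72), (23, -72), (24, 216), (47, -72), (50, -216), (106, 72)] = true := by
  decide +kernel

theorem t43_6_9 : chkS lk43 0 5 [(1, m43_6)] l43_9
  [(15, 16, 16, 3478530, 4345905), (8, 16, 16, 1324320, 2371920), (51, 16, 16, 3478530, 4345905), (118, 16, 16, 1324320, 2371920)]
  [(8, -288), (15, 288), (51, -288), (118, 288)] = true := by
  decide +kernel

theorem t43_7_7 : chkS lk43 0 5 [(1, m43_7)] l43_7
  [(81, 16, 16, 105198096, 105198096), (78, 16, 16, 73740816, 88486416), (78, 16, 16, 73736976, 88482576), (107, 16, 16, 105198096, 105198096), (102, 16, 16, 73728291, 88473891), (102, 16, 16, 73736976, 88482576), (102, 16, 16, 73740816, 88486416), (78, 16, 16, 73732146, 88477746), (102, 16, 16, 73728306, 88477731), (102, 16, 16, 73732146, 88477746)]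
  [(78, 144), (81, 72), (102, -144), (107, -72)] = true := by
  decide +kernel

theorem t43_7_8 : chkS lk43 0 5 [(1, m43_7)] l43_8
  [(82, 16, 16, 4534800, 4534800), (50, 16, 16, 5517840, 5517840), (50, 16, 16, 5514000, 5514000), (108, 16, 16, 4534800, 4534800), (24, 1, 1, 5447745, 5325570), (24, 1, 1, 5456130, 5455905), (24, 1, 1, 5444610, 5390385), (50, 16, 16, 5509170, 5509170), (24, 1, 1, 5447700, 5260050), (24, 1, 1, 5440020, 5259795)]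
  [(24, -144), (50, 144), (82, 72), (108, -72)] = true := by
  decide +kernel

theorem t43_7_9 : chkS lk43 0 5 [(1, m43_7)] l43_9
  [(85, 16, 16, 4534800, 4534800), (14, 16, 16, 5517840, 5517840), (111, 16, 16, 4534800, 4534800), (14, 16, 16, 5505330, 5509155)]
  [(85, 288), (111, -288)] = true := by
  decide +kernel

theorem t43_8_8 : chkS lk43 0 5 [(1, m43_8)] l43_8
  [(83, 16, 16, 274960, 274960), (0, 16, 16, 135235, 66610), (0, 16, 16, 131395, 66595), (109, 16, 16, 274960, 274960), (3, 16, 16, 266290, 266290), (3, 16, 16, 274945, 274945), (3, 16, 16, 271105, 271105), (0, 16, 16, 148240, 205840), (3, 16, 16, 266275, 262450), (3, 16, 16, 262435, 262435)]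
  [(0, 144), (3, -144), (83, 72), (109, -72)] = true := by
  decide +kernel

theorem t43_8_9 : chkS lk43 0 5 [(1, m43_8)] l43_9
  [(86, 16, 16, 274960, 274960), (19, 16, 16, 274960, 274960), (112, 16, 16, 274960, 274960), (19, 16, 16, 262450, 266275)]
  [(86, 288), (112, -288)] = true := by
  decide +kernel

theorem t43_9_9 : chkS lk43 0 5 [(1, m43_9)] l43_9
  [(129, 16, 16, 274960, 274960), (13, 16, 16, 144400, 144400), (13, 16, 16, 271105, 271105), (4, 16, 16, 144400, 144400)]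
  [(4, 288), (13, -576), (129, 288)] = true := by
  decide +kernel

section

variable {κ ι : Type*} [Fintype κ] [Fintype ι] [Inhabited κ] [Inhabited ι]

noncomputable def F43_0 (E : Env κ ι) : (Fin 0 → κ) → (Fin 5 → ι) → ℝ := op2 (P10 κ) (P6 ι) (fB E 0 5 m43_0)

noncomputable def F43_1 (E : Env κ ι) : (Fin 0 → κ) → (Fin 5 → ι) → ℝ := op2 (P10 κ) (P6 ι) (fB E 0 5 m43_1)

noncomputable def F43_2 (E : Env κ ι) : (Fin 0 → κ) → (Fin 5 → ι) → ℝ := op2 (P10 κ) (P6 ι) (fB E 0 5 m43_2)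

noncomputable def F43_3 (E : Env κ ι) : (Fin 0 → κ) → (Fin 5 → ι) → ℝ := op2 (P10 κ) (P6 ι) (fB E 0 5 m43_3)

noncomputable def F43_4 (E : Env κ ι) : (Fin 0 → κ) → (Fin 5 → ι) → ℝ := op2 (P10 κ) (P6 ι) (fB E 0 5 m43_4)

noncomputable def F43_5 (E : Env κ ι) : (Fin 0 → κ) → (Fin 5 → ι) → ℝ := op2 (P10 κ) (P6 ι) (fB E 0 5 m43_5)

noncomputable def F43_6 (E : Env κ ι) : (Fin 0 → κ) → (Fin 5 → ι) → ℝ := op2 (P10 κ) (P6 ι) (fB E 0 5 m43_6)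

noncomputable def F43_7 (E : Env κ ι) : (Fin 0 → κ) → (Fin 5 → ι) → ℝ := op2 (P10 κ) (P6 ι) (fB E 0 5 m43_7)

noncomputable def F43_8 (E : Env κ ι) : (Fin 0 → κ) → (Fin 5 → ι) → ℝ := op2 (P10 κ) (P6 ι) (fB E 0 5 m43_8)

noncomputable def F43_9 (E : Env κ ι) : (Fin 0 → κ) → (Fin 5 → ι) → ℝ := op2 (P10 κ) (P6 ι) (fB E 0 5 m43_9)

def r43_0_0 : List (ℕ × ℤ) := [(12, -108), (38, -360), (64, -72), (66, -36), (70, 108), (71, 180), (74, 252), (75, 72), (123, -36)]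

theorem h43_0_0 (E : Env κ ι) : ip (F43_0 E) (F43_0 E) = dotS (ek E lk43) r43_0_0 :=
  op_entryZ E lk43 0 5 _ _ _ _ (pg10 κ) (pg6 ι) m43_0 m43_0 l43_0 z43_0 w43_0 x43_0 (by decide) _ (chkS_sound E lk43 0 5 _ _ _ _ t43_0_0)

def r43_0_1 : List (ℕ × ℤ) := [(12, -72), (38, -144), (64, -144), (66, -216), (70, 72), (71, 216), (74, 72), (75, 144), (123, 72)]

theorem h43_0_1 (E : Env κ ι) : ip (F43_0 E) (F43_1 E) = dotS (ek E lk43) r43_0_1 :=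
  op_entryZ E lk43 0 5 _ _ _ _ (pg10 κ) (pg6 ι) m43_0 m43_1 l43_1 z43_1 w43_1 x43_1 (by decide) _ (chkS_sound E lk43 0 5 _ _ _ _ t43_0_1)

def r43_0_2 : List (ℕ × ℤ) := [(6, 108), (11, -108), (28, -36), (29, 36), (36, -144), (37, -36), (53, -36), (56, 36), (59, -144), (60, -108), (63, 144), (65, 108), (73, 180)]

theorem h43_0_2 (E : Env κ ι) : ip (F43_0 E) (F43_2 E) = dotS (ek E lk43) r43_0_2 :=
  op_entryZ E lk43 0 5 _ _ _ _ (pg10 κ) (pg6 ι) m43_0 m43_2 l43_2 z43_2 w43_2 x43_2 (by decide) _ (chkS_sound E lk43 0 5 _ _ _ _ t43_0_2)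

def r43_0_3 : List (ℕ × ℤ) := [(28, 36), (33, -36), (52, -216), (54, -108), (55, 36), (56, 252), (61, -180), (67, -72), (119, 108), (120, 180)]

theorem h43_0_3 (E : Env κ ι) : ip (F43_0 E) (F43_3 E) = dotS (ek E lk43) r43_0_3 :=
  op_entryZ E lk43 0 5 _ _ _ _ (pg10 κ) (pg6 ι) m43_0 m43_3 l43_3 z43_3 w43_3 x43_3 (by decide) _ (chkS_sound E lk43 0 5 _ _ _ _ t43_0_3)

def r43_0_4 : List (ℕ × ℤ) := [(6, 108), (27, 36), (28, -36), (35, -36), (36, -108), (37, -144), (56, 36), (58, -108), (59, -36), (60, 36), (62, -180), (63, 108), (65, 144), (73, 180)]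

theorem h43_0_4 (E : Env κ ι) : ip (F43_0 E) (F43_4 E) = dotS (ek E lk43) r43_0_4 :=
  op_entryZ E lk43 0 5 _ _ _ _ (pg10 κ) (pg6 ι) m43_0 m43_4 l43_4 z43_4 w43_4 x43_4 (by decide) _ (chkS_sound E lk43 0 5 _ _ _ _ t43_0_4)

def r43_0_5 : List (ℕ × ℤ) := [(6, 36), (11, -72), (27, -108), (28, -108), (29, -72), (35, 108), (36, -108), (37, 72), (53, 72), (56, 108), (58, 36), (59, -36), (60, -36), (62, -36), (63, 108), (65, 72), (73, -36)]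

theorem h43_0_5 (E : Env κ ι) : ip (F43_0 E) (F43_5 E) = dotS (ek E lk43) r43_0_5 :=
  op_entryZ E lk43 0 5 _ _ _ _ (pg10 κ) (pg6 ι) m43_0 m43_5 l43_5 z43_5 w43_5 x43_5 (by decide) _ (chkS_sound E lk43 0 5 _ _ _ _ t43_0_5)

def r43_0_6 : List (ℕ × ℤ) := [(28, -180), (33, -108), (52, -72), (54, -36), (55, 108), (56, 180), (61, 36), (67, 72), (119, 36), (120, -36)]

theorem h43_0_6 (E : Env κ ι) : ip (F43_0 E) (F43_6 E) = dotS (ek E lk43) r43_0_6 :=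
  op_entryZ E lk43 0 5 _ _ _ _ (pg10 κ) (pg6 ι) m43_0 m43_6 l43_6 z43_6 w43_6 x43_6 (by decide) _ (chkS_sound E lk43 0 5 _ _ _ _ t43_0_6)

def r43_0_7 : List (ℕ × ℤ) := [(28, 216), (30, 72), (54, -72), (56, -216), (61, 72), (68, -72)]

theorem h43_0_7 (E : Env κ ι) : ip (F43_0 E) (F43_7 E) = dotS (ek E lk43) r43_0_7 :=
  op_entryZ E lk43 0 5 _ _ _ _ (pg10 κ) (pg6 ι) m43_0 m43_7 l43_7 z43_7 w43_7 x43_7 (by decide) _ (chkS_sound E lk43 0 5 _ _ _ _ t43_0_7)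

def r43_0_8 : List (ℕ × ℤ) := [(18, -72), (25, 72), (26, -216), (31, 72), (32, 216), (69, -72)]

theorem h43_0_8 (E : Env κ ι) : ip (F43_0 E) (F43_8 E) = dotS (ek E lk43) r43_0_8 :=
  op_entryZ E lk43 0 5 _ _ _ _ (pg10 κ) (pg6 ι) m43_0 m43_8 l43_8 z43_8 w43_8 x43_8 (by decide) _ (chkS_sound E lk43 0 5 _ _ _ _ t43_0_8)

def r43_0_9 : List (ℕ × ℤ) := [(34, 288), (57, -288), (72, -288), (121, 288)]

theorem h43_0_9 (E : Env κ ι) : ip (F43_0 E) (F43_9 E) = dotS (ek E lk43) r43_0_9 :=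
  op_entryZ E lk43 0 5 _ _ _ _ (pg10 κ) (pg6 ι) m43_0 m43_9 l43_9 z43_9 w43_9 x43_9 (by decide) _ (chkS_sound E lk43 0 5 _ _ _ _ t43_0_9)

def r43_1_1 : List (ℕ × ℤ) := [(12, 144), (38, -288), (64, -288), (66, -144), (70, 144), (71, 144), (74, -144), (75, 288), (123, 144)]

theorem h43_1_1 (E : Env κ ι) : ip (F43_1 E) (F43_1 E) = dotS (ek E lk43) r43_1_1 :=
  op_entryZ E lk43 0 5 _ _ _ _ (pg10 κ) (pg6 ι) m43_1 m43_1 l43_1 z43_1 w43_1 x43_1 (by decide) _ (chkS_sound E lk43 0 5 _ _ _ _ t43_1_1)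

def r43_1_2 : List (ℕ × ℤ) := [(6, 72), (11, -72), (28, 72), (29, -72), (36, -288), (37, 72), (53, -216), (56, 216), (60, -72), (65, 72), (73, 216)]

theorem h43_1_2 (E : Env κ ι) : ip (F43_1 E) (F43_2 E) = dotS (ek E lk43) r43_1_2 :=
  op_entryZ E lk43 0 5 _ _ _ _ (pg10 κ) (pg6 ι) m43_1 m43_2 l43_2 z43_2 w43_2 x43_2 (by decide) _ (chkS_sound E lk43 0 5 _ _ _ _ t43_1_2)

def r43_1_3 : List (ℕ × ℤ) := [(28, -72), (33, 72), (52, -432), (54, -72), (55, 216), (56, 72), (61, 72), (67, -144), (119, 72), (120, 216)]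

theorem h43_1_3 (E : Env κ ι) : ip (F43_1 E) (F43_3 E) = dotS (ek E lk43) r43_1_3 :=
  op_entryZ E lk43 0 5 _ _ _ _ (pg10 κ) (pg6 ι) m43_1 m43_3 l43_3 z43_3 w43_3 x43_3 (by decide) _ (chkS_sound E lk43 0 5 _ _ _ _ t43_1_3)

def r43_1_4 : List (ℕ × ℤ) := [(6, 72), (27, -72), (28, 72), (35, -216), (36, -72), (56, 216), (58, -72), (59, 72), (60, -72), (62, -216), (63, 72), (73, 216)]

theorem h43_1_4 (E : Env κ ι) : ip (F43_1 E) (F43_4 E) = dotS (ek E lk43) r43_1_4 :=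
  op_entryZ E lk43 0 5 _ _ _ _ (pg10 κ) (pg6 ι) m43_1 m43_4 l43_4 z43_4 w43_4 x43_4 (by decide) _ (chkS_sound E lk43 0 5 _ _ _ _ t43_1_4)

def r43_1_5 : List (ℕ × ℤ) := [(6, -72), (11, -144), (27, -72), (28, -72), (29, -144), (35, 72), (36, -72), (37, 144), (53, -144), (56, 72), (58, -72), (59, 72), (60, 72), (62, 72), (63, 72), (65, 144), (73, 72)]

theorem h43_1_5 (E : Env κ ι) : ip (F43_1 E) (F43_5 E) = dotS (ek E lk43) r43_1_5 :=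
  op_entryZ E lk43 0 5 _ _ _ _ (pg10 κ) (pg6 ι) m43_1 m43_5 l43_5 z43_5 w43_5 x43_5 (by decide) _ (chkS_sound E lk43 0 5 _ _ _ _ t43_1_5)

def r43_1_6 : List (ℕ × ℤ) := [(28, -216), (33, -72), (52, -144), (54, -216), (55, 72), (56, 216), (61, 216), (67, 144), (119, -72), (120, 72)]

theorem h43_1_6 (E : Env κ ι) : ip (F43_1 E) (F43_6 E) = dotS (ek E lk43) r43_1_6 :=
  op_entryZ E lk43 0 5 _ _ _ _ (pg10 κ) (pg6 ι) m43_1 m43_6 l43_6 z43_6 w43_6 x43_6 (by decide) _ (chkS_sound E lk43 0 5 _ _ _ _ t43_1_6)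

def r43_1_7 : List (ℕ × ℤ) := [(28, 144), (30, 144), (54, 144), (56, -144), (61, -144), (68, -144)]

theorem h43_1_7 (E : Env κ ι) : ip (F43_1 E) (F43_7 E) = dotS (ek E lk43) r43_1_7 :=
  op_entryZ E lk43 0 5 _ _ _ _ (pg10 κ) (pg6 ι) m43_1 m43_7 l43_7 z43_7 w43_7 x43_7 (by decide) _ (chkS_sound E lk43 0 5 _ _ _ _ t43_1_7)

def r43_1_8 : List (ℕ × ℤ) := [(18, 144), (25, -144), (26, -144), (31, 144), (32, 144), (69, -144)]

theorem h43_1_8 (E : Env κ ι) : ip (F43_1 E) (F43_8 E) = dotS (ek E lk43) r43_1_8 :=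
  op_entryZ E lk43 0 5 _ _ _ _ (pg10 κ) (pg6 ι) m43_1 m43_8 l43_8 z43_8 w43_8 x43_8 (by decide) _ (chkS_sound E lk43 0 5 _ _ _ _ t43_1_8)

def r43_1_9 : List (ℕ × ℤ) := [(34, 288), (72, -576), (124, 288)]

theorem h43_1_9 (E : Env κ ι) : ip (F43_1 E) (F43_9 E) = dotS (ek E lk43) r43_1_9 :=
  op_entryZ E lk43 0 5 _ _ _ _ (pg10 κ) (pg6 ι) m43_1 m43_9 l43_9 z43_9 w43_9 x43_9 (by decide) _ (chkS_sound E lk43 0 5 _ _ _ _ t43_1_9)

def r43_2_2 : List (ℕ × ℤ) := [(40, -72), (41, 72), (44, 36), (45, -72), (76, -72), (77, 72), (78, 36), (88, 72), (90, 144), (91, -72), (93, -72), (94, -36), (98, -144), (99, -216), (101, 72), (102, 108), (116, 72), (125, 72)]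

theorem h43_2_2 (E : Env κ ι) : ip (F43_2 E) (F43_2 E) = dotS (ek E lk43) r43_2_2 :=
  op_entryZ E lk43 0 5 _ _ _ _ (pg10 κ) (pg6 ι) m43_2 m43_2 l43_2 z43_2 w43_2 x43_2 (by decide) _ (chkS_sound E lk43 0 5 _ _ _ _ t43_2_2)

def r43_2_3 : List (ℕ × ℤ) := [(41, -180), (42, 180), (45, -108), (49, 108), (89, 144), (92, -144), (93, 36), (99, -36), (103, -144), (114, 144)]

theorem h43_2_3 (E : Env κ ι) : ip (F43_2 E) (F43_3 E) = dotS (ek E lk43) r43_2_3 :=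
  op_entryZ E lk43 0 5 _ _ _ _ (pg10 κ) (pg6 ι) m43_2 m43_3 l43_3 z43_3 w43_3 x43_3 (by decide) _ (chkS_sound E lk43 0 5 _ _ _ _ t43_2_3)

def r43_2_4 : List (ℕ × ℤ) := [(40, -72), (41, -108), (44, -36), (45, -36), (76, -36), (77, 36), (78, 72), (88, 36), (90, 216), (91, -36), (96, -36), (98, -72), (99, -108), (101, 108), (102, 72), (115, 36), (125, -36)]

theorem h43_2_4 (E : Env κ ι) : ip (F43_2 E) (F43_4 E) = dotS (ek E lk43) r43_2_4 :=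
  op_entryZ E lk43 0 5 _ _ _ _ (pg10 κ) (pg6 ι) m43_2 m43_4 l43_4 z43_4 w43_4 x43_4 (by decide) _ (chkS_sound E lk43 0 5 _ _ _ _ t43_2_4)

def r43_2_5 : List (ℕ × ℤ) := [(40, -72), (41, 36), (44, 36), (45, -36), (76, -36), (77, 36), (88, 36), (90, 72), (91, -36), (94, 72), (96, 108), (98, -72), (99, -108), (101, -36), (115, -108), (125, 108)]

theorem h43_2_5 (E : Env κ ι) : ip (F43_2 E) (F43_5 E) = dotS (ek E lk43) r43_2_5 :=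
  op_entryZ E lk43 0 5 _ _ _ _ (pg10 κ) (pg6 ι) m43_2 m43_5 l43_5 z43_5 w43_5 x43_5 (by decide) _ (chkS_sound E lk43 0 5 _ _ _ _ t43_2_5)

def r43_2_6 : List (ℕ × ℤ) := [(41, 36), (42, -36), (45, -36), (49, 36), (89, -144), (92, 144), (93, 108), (99, -108), (103, -144), (114, 144)]

theorem h43_2_6 (E : Env κ ι) : ip (F43_2 E) (F43_6 E) = dotS (ek E lk43) r43_2_6 :=
  op_entryZ E lk43 0 5 _ _ _ _ (pg10 κ) (pg6 ι) m43_2 m43_6 l43_6 z43_6 w43_6 x43_6 (by decide) _ (chkS_sound E lk43 0 5 _ _ _ _ t43_2_6)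

def r43_2_7 : List (ℕ × ℤ) := [(41, -72), (42, 72), (45, 72), (49, -72), (93, -216), (99, 216), (104, 0)]

theorem h43_2_7 (E : Env κ ι) : ip (F43_2 E) (F43_7 E) = dotS (ek E lk43) r43_2_7 :=
  op_entryZ E lk43 0 5 _ _ _ _ (pg10 κ) (pg6 ι) m43_2 m43_7 l43_7 z43_7 w43_7 x43_7 (by decide) _ (chkS_sound E lk43 0 5 _ _ _ _ t43_2_7)

def r43_2_8 : List (ℕ × ℤ) := [(21, 144), (22, -216), (24, 72), (48, 72), (50, -72), (105, 0)]

theorem h43_2_8 (E : Env κ ι) : ip (F43_2 E) (F43_8 E) = dotS (ek E lk43) r43_2_8 :=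
  op_entryZ E lk43 0 5 _ _ _ _ (pg10 κ) (pg6 ι) m43_2 m43_8 l43_8 z43_8 w43_8 x43_8 (by decide) _ (chkS_sound E lk43 0 5 _ _ _ _ t43_2_8)

def r43_2_9 : List (ℕ × ℤ) := [(7, 288), (10, -288), (110, 288), (128, -288)]

theorem h43_2_9 (E : Env κ ι) : ip (F43_2 E) (F43_9 E) = dotS (ek E lk43) r43_2_9 :=
  op_entryZ E lk43 0 5 _ _ _ _ (pg10 κ) (pg6 ι) m43_2 m43_9 l43_9 z43_9 w43_9 x43_9 (by decide) _ (chkS_sound E lk43 0 5 _ _ _ _ t43_2_9)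

def r43_3_3 : List (ℕ × ℤ) := [(1, -36), (2, 108), (9, 72), (17, 180), (40, -360), (44, -108), (91, -72), (94, -36), (117, 252)]

theorem h43_3_3 (E : Env κ ι) : ip (F43_3 E) (F43_3 E) = dotS (ek E lk43) r43_3_3 :=
  op_entryZ E lk43 0 5 _ _ _ _ (pg10 κ) (pg6 ι) m43_3 m43_3 l43_3 z43_3 w43_3 x43_3 (by decide) _ (chkS_sound E lk43 0 5 _ _ _ _ t43_3_3)

def r43_3_4 : List (ℕ × ℤ) := [(39, -180), (42, 180), (43, -108), (49, 108), (87, -36), (89, 180), (92, 36), (93, -108), (96, -36), (99, -144), (103, -36), (113, 36), (114, 108)]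

theorem h43_3_4 (E : Env κ ι) : ip (F43_3 E) (F43_4 E) = dotS (ek E lk43) r43_3_4 :=
  op_entryZ E lk43 0 5 _ _ _ _ (pg10 κ) (pg6 ι) m43_3 m43_4 l43_4 z43_4 w43_4 x43_4 (by decide) _ (chkS_sound E lk43 0 5 _ _ _ _ t43_3_4)

def r43_3_5 : List (ℕ × ℤ) := [(39, -36), (41, -216), (42, -36), (43, 36), (45, -72), (49, 36), (87, -180), (89, 180), (92, 36), (93, 108), (96, 108), (99, 72), (103, -36), (113, -108), (114, 108)]

theorem h43_3_5 (E : Env κ ι) : ip (F43_3 E) (F43_5 E) = dotS (ek E lk43) r43_3_5 :=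
  op_entryZ E lk43 0 5 _ _ _ _ (pg10 κ) (pg6 ι) m43_3 m43_5 l43_5 z43_5 w43_5 x43_5 (by decide) _ (chkS_sound E lk43 0 5 _ _ _ _ t43_3_5)

def r43_3_6 : List (ℕ × ℤ) := [(1, -108), (2, 36), (9, -72), (17, -36), (40, -216), (44, -36), (91, 72), (94, 180), (117, 180)]

theorem h43_3_6 (E : Env κ ι) : ip (F43_3 E) (F43_6 E) = dotS (ek E lk43) r43_3_6 :=
  op_entryZ E lk43 0 5 _ _ _ _ (pg10 κ) (pg6 ι) m43_3 m43_6 l43_6 z43_6 w43_6 x43_6 (by decide) _ (chkS_sound E lk43 0 5 _ _ _ _ t43_3_6)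

def r43_3_7 : List (ℕ × ℤ) := [(16, 216), (42, 72), (46, 72), (49, -72), (95, -216), (100, -72)]

theorem h43_3_7 (E : Env κ ι) : ip (F43_3 E) (F43_7 E) = dotS (ek E lk43) r43_3_7 :=
  op_entryZ E lk43 0 5 _ _ _ _ (pg10 κ) (pg6 ι) m43_3 m43_7 l43_7 z43_7 w43_7 x43_7 (by decide) _ (chkS_sound E lk43 0 5 _ _ _ _ t43_3_7)

def r43_3_8 : List (ℕ × ℤ) := [(20, 216), (23, -216), (24, 72), (47, 72), (50, -72), (106, -72)]

theorem h43_3_8 (E : Env κ ι) : ip (F43_3 E) (F43_8 E) = dotS (ek E lk43) r43_3_8 :=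
  op_entryZ E lk43 0 5 _ _ _ _ (pg10 κ) (pg6 ι) m43_3 m43_8 l43_8 z43_8 w43_8 x43_8 (by decide) _ (chkS_sound E lk43 0 5 _ _ _ _ t43_3_8)

def r43_3_9 : List (ℕ × ℤ) := [(5, 288), (8, -288), (15, 288), (118, -288)]

theorem h43_3_9 (E : Env κ ι) : ip (F43_3 E) (F43_9 E) = dotS (ek E lk43) r43_3_9 :=
  op_entryZ E lk43 0 5 _ _ _ _ (pg10 κ) (pg6 ι) m43_3 m43_9 l43_9 z43_9 w43_9 x43_9 (by decide) _ (chkS_sound E lk43 0 5 _ _ _ _ t43_3_9)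

def r43_4_4 : List (ℕ × ℤ) := [(40, -144), (41, -216), (44, -72), (45, -72), (76, 36), (77, 72), (78, 36), (88, 108), (90, 72), (91, 72), (93, -72), (98, -72), (99, 72), (101, 72), (102, 108), (115, 72), (116, 36), (125, -72), (126, -36)]

theorem h43_4_4 (E : Env κ ι) : ip (F43_4 E) (F43_4 E) = dotS (ek E lk43) r43_4_4 :=
  op_entryZ E lk43 0 5 _ _ _ _ (pg10 κ) (pg6 ι) m43_4 m43_4 l43_4 z43_4 w43_4 x43_4 (by decide) _ (chkS_sound E lk43 0 5 _ _ _ _ t43_4_4)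

def r43_4_5 : List (ℕ × ℤ) := [(76, -36), (78, 36), (88, 36), (90, 72), (93, 72), (96, 72), (98, -72), (99, -144), (102, -36), (116, -108), (126, 108)]

theorem h43_4_5 (E : Env κ ι) : ip (F43_4 E) (F43_5 E) = dotS (ek E lk43) r43_4_5 :=
  op_entryZ E lk43 0 5 _ _ _ _ (pg10 κ) (pg6 ι) m43_4 m43_5 l43_5 z43_5 w43_5 x43_5 (by decide) _ (chkS_sound E lk43 0 5 _ _ _ _ t43_4_5)

def r43_4_6 : List (ℕ × ℤ) := [(39, 36), (42, -36), (43, -36), (49, 36), (87, -108), (89, -36), (92, 108), (93, -36), (96, 180), (99, -144), (103, -108), (113, 108), (114, 36)]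

theorem h43_4_6 (E : Env κ ι) : ip (F43_4 E) (F43_6 E) = dotS (ek E lk43) r43_4_6 :=
  op_entryZ E lk43 0 5 _ _ _ _ (pg10 κ) (pg6 ι) m43_4 m43_6 l43_6 z43_6 w43_6 x43_6 (by decide) _ (chkS_sound E lk43 0 5 _ _ _ _ t43_4_6)

def r43_4_7 : List (ℕ × ℤ) := [(41, -72), (45, 72), (79, -72), (96, -216), (99, 216), (104, 72)]

theorem h43_4_7 (E : Env κ ι) : ip (F43_4 E) (F43_7 E) = dotS (ek E lk43) r43_4_7 :=
  op_entryZ E lk43 0 5 _ _ _ _ (pg10 κ) (pg6 ι) m43_4 m43_7 l43_7 z43_7 w43_7 x43_7 (by decide) _ (chkS_sound E lk43 0 5 _ _ _ _ t43_4_7)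

def r43_4_8 : List (ℕ × ℤ) := [(21, 144), (48, 72), (80, -72), (97, -216), (105, 72)]

theorem h43_4_8 (E : Env κ ι) : ip (F43_4 E) (F43_8 E) = dotS (ek E lk43) r43_4_8 :=
  op_entryZ E lk43 0 5 _ _ _ _ (pg10 κ) (pg6 ι) m43_4 m43_8 l43_8 z43_8 w43_8 x43_8 (by decide) _ (chkS_sound E lk43 0 5 _ _ _ _ t43_4_8)

def r43_4_9 : List (ℕ × ℤ) := [(7, 288), (110, 288), (122, -288), (127, -288)]

theorem h43_4_9 (E : Env κ ι) : ip (F43_4 E) (F43_9 E) = dotS (ek E lk43) r43_4_9 :=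
  op_entryZ E lk43 0 5 _ _ _ _ (pg10 κ) (pg6 ι) m43_4 m43_9 l43_9 z43_9 w43_9 x43_9 (by decide) _ (chkS_sound E lk43 0 5 _ _ _ _ t43_4_9)

def r43_5_5 : List (ℕ × ℤ) := [(40, -144), (41, -72), (44, 72), (45, 72), (76, 36), (77, 72), (78, 36), (88, -36), (90, 72), (91, -72), (93, -72), (94, 144), (96, 144), (98, -72), (99, -72), (101, -72), (102, -36), (115, -72), (116, 36), (125, 72), (126, -36)]

theorem h43_5_5 (E : Env κ ι) : ip (F43_5 E) (F43_5 E) = dotS (ek E lk43) r43_5_5 :=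
  op_entryZ E lk43 0 5 _ _ _ _ (pg10 κ) (pg6 ι) m43_5 m43_5 l43_5 z43_5 w43_5 x43_5 (by decide) _ (chkS_sound E lk43 0 5 _ _ _ _ t43_5_5)

def r43_5_6 : List (ℕ × ℤ) := [(39, -108), (41, -72), (42, -108), (43, 108), (45, 72), (49, 108), (87, 36), (89, -36), (92, 108), (93, 36), (96, 36), (99, -72), (103, -108), (113, -36), (114, 36)]

theorem h43_5_6 (E : Env κ ι) : ip (F43_5 E) (F43_6 E) = dotS (ek E lk43) r43_5_6 :=
  op_entryZ E lk43 0 5 _ _ _ _ (pg10 κ) (pg6 ι) m43_5 m43_6 l43_6 z43_6 w43_6 x43_6 (by decide) _ (chkS_sound E lk43 0 5 _ _ _ _ t43_5_6)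

def r43_5_7 : List (ℕ × ℤ) := [(41, 72), (42, 144), (45, -72), (49, -144), (79, -72), (93, -144), (96, 72), (99, 72), (104, 72)]

theorem h43_5_7 (E : Env κ ι) : ip (F43_5 E) (F43_7 E) = dotS (ek E lk43) r43_5_7 :=
  op_entryZ E lk43 0 5 _ _ _ _ (pg10 κ) (pg6 ι) m43_5 m43_7 l43_7 z43_7 w43_7 x43_7 (by decide) _ (chkS_sound E lk43 0 5 _ _ _ _ t43_5_7)

def r43_5_8 : List (ℕ × ℤ) := [(21, 144), (22, -144), (24, 144), (48, -72), (50, -144), (80, -72), (97, 72), (105, 72)]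

theorem h43_5_8 (E : Env κ ι) : ip (F43_5 E) (F43_8 E) = dotS (ek E lk43) r43_5_8 :=
  op_entryZ E lk43 0 5 _ _ _ _ (pg10 κ) (pg6 ι) m43_5 m43_8 l43_8 z43_8 w43_8 x43_8 (by decide) _ (chkS_sound E lk43 0 5 _ _ _ _ t43_5_8)

def r43_5_9 : List (ℕ × ℤ) := [(10, -288), (84, -288), (110, 288), (122, 288)]

theorem h43_5_9 (E : Env κ ι) : ip (F43_5 E) (F43_9 E) = dotS (ek E lk43) r43_5_9 :=
  op_entryZ E lk43 0 5 _ _ _ _ (pg10 κ) (pg6 ι) m43_5 m43_9 l43_9 z43_9 w43_9 x43_9 (by decide) _ (chkS_sound E lk43 0 5 _ _ _ _ t43_5_9)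

def r43_6_6 : List (ℕ × ℤ) := [(1, -36), (2, 108), (9, 72), (17, -108), (40, -360), (44, 180), (91, -72), (94, 252), (117, -36)]

theorem h43_6_6 (E : Env κ ι) : ip (F43_6 E) (F43_6 E) = dotS (ek E lk43) r43_6_6 :=
  op_entryZ E lk43 0 5 _ _ _ _ (pg10 κ) (pg6 ι) m43_6 m43_6 l43_6 z43_6 w43_6 x43_6 (by decide) _ (chkS_sound E lk43 0 5 _ _ _ _ t43_6_6)

def r43_6_7 : List (ℕ × ℤ) := [(16, 72), (42, 216), (46, -72), (49, -216), (95, -72), (100, 72)]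

theorem h43_6_7 (E : Env κ ι) : ip (F43_6 E) (F43_7 E) = dotS (ek E lk43) r43_6_7 :=
  op_entryZ E lk43 0 5 _ _ _ _ (pg10 κ) (pg6 ι) m43_6 m43_7 l43_7 z43_7 w43_7 x43_7 (by decide) _ (chkS_sound E lk43 0 5 _ _ _ _ t43_6_7)

def r43_6_8 : List (ℕ × ℤ) := [(20, 72), (23, -72), (24, 216), (47, -72), (50, -216), (106, 72)]

theorem h43_6_8 (E : Env κ ι) : ip (F43_6 E) (F43_8 E) = dotS (ek E lk43) r43_6_8 :=
  op_entryZ E lk43 0 5 _ _ _ _ (pg10 κ) (pg6 ι) m43_6 m43_8 l43_8 z43_8 w43_8 x43_8 (by decide) _ (chkS_sound E lk43 0 5 _ _ _ _ t43_6_8)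

def r43_6_9 : List (ℕ × ℤ) := [(8, -288), (15, 288), (51, -288), (118, 288)]

theorem h43_6_9 (E : Env κ ι) : ip (F43_6 E) (F43_9 E) = dotS (ek E lk43) r43_6_9 :=
  op_entryZ E lk43 0 5 _ _ _ _ (pg10 κ) (pg6 ι) m43_6 m43_9 l43_9 z43_9 w43_9 x43_9 (by decide) _ (chkS_sound E lk43 0 5 _ _ _ _ t43_6_9)

def r43_7_7 : List (ℕ × ℤ) := [(78, 144), (81, 72), (102, -144), (107, -72)]

theorem h43_7_7 (E : Env κ ι) : ip (F43_7 E) (F43_7 E) = dotS (ek E lk43) r43_7_7 :=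
  op_entryZ E lk43 0 5 _ _ _ _ (pg10 κ) (pg6 ι) m43_7 m43_7 l43_7 z43_7 w43_7 x43_7 (by decide) _ (chkS_sound E lk43 0 5 _ _ _ _ t43_7_7)

def r43_7_8 : List (ℕ × ℤ) := [(24, -144), (50, 144), (82, 72), (108, -72)]

theorem h43_7_8 (E : Env κ ι) : ip (F43_7 E) (F43_8 E) = dotS (ek E lk43) r43_7_8 :=
  op_entryZ E lk43 0 5 _ _ _ _ (pg10 κ) (pg6 ι) m43_7 m43_8 l43_8 z43_8 w43_8 x43_8 (by decide) _ (chkS_sound E lk43 0 5 _ _ _ _ t43_7_8)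

def r43_7_9 : List (ℕ × ℤ) := [(85, 288), (111, -288)]

theorem h43_7_9 (E : Env κ ι) : ip (F43_7 E) (F43_9 E) = dotS (ek E lk43) r43_7_9 :=
  op_entryZ E lk43 0 5 _ _ _ _ (pg10 κ) (pg6 ι) m43_7 m43_9 l43_9 z43_9 w43_9 x43_9 (by decide) _ (chkS_sound E lk43 0 5 _ _ _ _ t43_7_9)

def r43_8_8 : List (ℕ × ℤ) := [(0, 144), (3, -144), (83, 72), (109, -72)]

theorem h43_8_8 (E : Env κ ι) : ip (F43_8 E) (F43_8 E) = dotS (ek E lk43) r43_8_8 :=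
  op_entryZ E lk43 0 5 _ _ _ _ (pg10 κ) (pg6 ι) m43_8 m43_8 l43_8 z43_8 w43_8 x43_8 (by decide) _ (chkS_sound E lk43 0 5 _ _ _ _ t43_8_8)

def r43_8_9 : List (ℕ × ℤ) := [(86, 288), (112, -288)]

theorem h43_8_9 (E : Env κ ι) : ip (F43_8 E) (F43_9 E) = dotS (ek E lk43) r43_8_9 :=
  op_entryZ E lk43 0 5 _ _ _ _ (pg10 κ) (pg6 ι) m43_8 m43_9 l43_9 z43_9 w43_9 x43_9 (by decide) _ (chkS_sound E lk43 0 5 _ _ _ _ t43_8_9)

def r43_9_9 : List (ℕ × ℤ) := [(4, 288), (13, -576), (129, 288)]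

theorem h43_9_9 (E : Env κ ι) : ip (F43_9 E) (F43_9 E) = dotS (ek E lk43) r43_9_9 :=
  op_entryZ E lk43 0 5 _ _ _ _ (pg10 κ) (pg6 ι) m43_9 m43_9 l43_9 z43_9 w43_9 x43_9 (by decide) _ (chkS_sound E lk43 0 5 _ _ _ _ t43_9_9)

theorem row43_0 (E : Env κ ι) : RowG (ek E lk43) (F43_0 E) [F43_0 E, F43_1 E, F43_2 E, F43_3 E, F43_4 E, F43_5 E, F43_6 E, F43_7 E, F43_8 E, F43_9 E] [r43_0_0, r43_0_1, r43_0_2, r43_0_3, r43_0_4, r43_0_5, r43_0_6, r43_0_7, r43_0_8, r43_0_9] :=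
  rowG_cons _ _ _ _ _ _ (h43_0_0 E) (rowG_cons _ _ _ _ _ _ (h43_0_1 E) (rowG_cons _ _ _ _ _ _ (h43_0_2 E) (rowG_cons _ _ _ _ _ _ (h43_0_3 E) (rowG_cons _ _ _ _ _ _ (h43_0_4 E) (rowG_cons _ _ _ _ _ _ (h43_0_5 E) (rowG_cons _ _ _ _ _ _ (h43_0_6 E) (rowG_cons _ _ _ _ _ _ (h43_0_7 E) (rowG_cons _ _ _ _ _ _ (h43_0_8 E) (rowG_cons _ _ _ _ _ _ (h43_0_9 E) (rowG_nil _ _))))))))))

theorem row43_1 (E : Env κ ι) : RowG (ek E lk43) (F43_1 E) [F43_1 E, F43_2 E, F43_3 E, F43_4 E, F43_5 E, F43_6 E, F43_7 E, F43_8 E, F43_9 E] [r43_1_1, r43_1_2, r43_1_3, r43_1_4, r43_1_5, r43_1_6, r43_1_7, r43_1_8, r43_1_9] :=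
  rowG_cons _ _ _ _ _ _ (h43_1_1 E) (rowG_cons _ _ _ _ _ _ (h43_1_2 E) (rowG_cons _ _ _ _ _ _ (h43_1_3 E) (rowG_cons _ _ _ _ _ _ (h43_1_4 E) (rowG_cons _ _ _ _ _ _ (h43_1_5 E) (rowG_cons _ _ _ _ _ _ (h43_1_6 E) (rowG_cons _ _ _ _ _ _ (h43_1_7 E) (rowG_cons _ _ _ _ _ _ (h43_1_8 E) (rowG_cons _ _ _ _ _ _ (h43_1_9 E) (rowG_nil _ _)))))))))

theorem row43_2 (E : Env κ ι) : RowG (ek E lk43) (F43_2 E) [F43_2 E, F43_3 E, F43_4 E, F43_5 E, F43_6 E, F43_7 E, F43_8 E, F43_9 E] [r43_2_2, r43_2_3, r43_2_4, r43_2_5, r43_2_6, r43_2_7, r43_2_8, r43_2_9] :=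
  rowG_cons _ _ _ _ _ _ (h43_2_2 E) (rowG_cons _ _ _ _ _ _ (h43_2_3 E) (rowG_cons _ _ _ _ _ _ (h43_2_4 E) (rowG_cons _ _ _ _ _ _ (h43_2_5 E) (rowG_cons _ _ _ _ _ _ (h43_2_6 E) (rowG_cons _ _ _ _ _ _ (h43_2_7 E) (rowG_cons _ _ _ _ _ _ (h43_2_8 E) (rowG_cons _ _ _ _ _ _ (h43_2_9 E) (rowG_nil _ _))))))))

theorem row43_3 (E : Env κ ι) : RowG (ek E lk43) (F43_3 E) [F43_3 E, F43_4 E, F43_5 E, F43_6 E, F43_7 E, F43_8 E, F43_9 E] [r43_3_3, r43_3_4, r43_3_5, r43_3_6, r43_3_7, r43_3_8, r43_3_9] :=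
  rowG_cons _ _ _ _ _ _ (h43_3_3 E) (rowG_cons _ _ _ _ _ _ (h43_3_4 E) (rowG_cons _ _ _ _ _ _ (h43_3_5 E) (rowG_cons _ _ _ _ _ _ (h43_3_6 E) (rowG_cons _ _ _ _ _ _ (h43_3_7 E) (rowG_cons _ _ _ _ _ _ (h43_3_8 E) (rowG_cons _ _ _ _ _ _ (h43_3_9 E) (rowG_nil _ _)))))))

theorem row43_4 (E : Env κ ι) : RowG (ek E lk43) (F43_4 E) [F43_4 E, F43_5 E, F43_6 E, F43_7 E, F43_8 E, F43_9 E] [r43_4_4, r43_4_5, r43_4_6, r43_4_7, r43_4_8, r43_4_9] :=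
  rowG_cons _ _ _ _ _ _ (h43_4_4 E) (rowG_cons _ _ _ _ _ _ (h43_4_5 E) (rowG_cons _ _ _ _ _ _ (h43_4_6 E) (rowG_cons _ _ _ _ _ _ (h43_4_7 E) (rowG_cons _ _ _ _ _ _ (h43_4_8 E) (rowG_cons _ _ _ _ _ _ (h43_4_9 E) (rowG_nil _ _))))))

theorem row43_5 (E : Env κ ι) : RowG (ek E lk43) (F43_5 E) [F43_5 E, F43_6 E, F43_7 E, F43_8 E, F43_9 E] [r43_5_5, r43_5_6, r43_5_7, r43_5_8, r43_5_9] :=
  rowG_cons _ _ _ _ _ _ (h43_5_5 E) (rowG_cons _ _ _ _ _ _ (h43_5_6 E) (rowG_cons _ _ _ _ _ _ (h43_5_7 E) (rowG_cons _ _ _ _ _ _ (h43_5_8 E) (rowG_cons _ _ _ _ _ _ (h43_5_9 E) (rowG_nil _ _)))))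

theorem row43_6 (E : Env κ ι) : RowG (ek E lk43) (F43_6 E) [F43_6 E, F43_7 E, F43_8 E, F43_9 E] [r43_6_6, r43_6_7, r43_6_8, r43_6_9] :=
  rowG_cons _ _ _ _ _ _ (h43_6_6 E) (rowG_cons _ _ _ _ _ _ (h43_6_7 E) (rowG_cons _ _ _ _ _ _ (h43_6_8 E) (rowG_cons _ _ _ _ _ _ (h43_6_9 E) (rowG_nil _ _))))

theorem row43_7 (E : Env κ ι) : RowG (ek E lk43) (F43_7 E) [F43_7 E, F43_8 E, F43_9 E] [r43_7_7, r43_7_8, r43_7_9] :=
  rowG_cons _ _ _ _ _ _ (h43_7_7 E) (rowG_cons _ _ _ _ _ _ (h43_7_8 E) (rowG_cons _ _ _ _ _ _ (h43_7_9 E) (rowG_nil _ _)))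

theorem row43_8 (E : Env κ ι) : RowG (ek E lk43) (F43_8 E) [F43_8 E, F43_9 E] [r43_8_8, r43_8_9] :=
  rowG_cons _ _ _ _ _ _ (h43_8_8 E) (rowG_cons _ _ _ _ _ _ (h43_8_9 E) (rowG_nil _ _))

theorem row43_9 (E : Env κ ι) : RowG (ek E lk43) (F43_9 E) [F43_9 E] [r43_9_9] :=
  rowG_cons _ _ _ _ _ _ (h43_9_9 E) (rowG_nil _ _)

def tab43 : List (List (List (ℕ × ℤ))) := [[r43_0_0, r43_0_1, r43_0_2, r43_0_3, r43_0_4, r43_0_5, r43_0_6, r43_0_7, r43_0_8, r43_0_9], [r43_1_1, r43_1_2, r43_1_3, r43_1_4, r43_1_5, r43_1_6, r43_1_7, r43_1_8, r43_1_9], [r43_2_2, r43_2_3, r43_2_4, r43_2_5, r43_2_6, r43_2_7, r43_2_8, r43_2_9], [r43_3_3, r43_3_4, r43_3_5, r43_3_6, r43_3_7, r43_3_8, r43_3_9], [r43_4_4, r43_4_5, r43_4_6, r43_4_7, r43_4_8, r43_4_9], [r43_5_5, r43_5_6, r43_5_7, r43_5_8, r43_5_9], [r43_6_6, r43_6_7, r43_6_8, r43_6_9], [r43_7_7, r43_7_8, r43_7_9], [r43_8_8,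 r43_8_9], [r43_9_9]]

theorem tri43 (E : Env κ ι) : TriG (ek E lk43) [F43_0 E, F43_1 E, F43_2 E, F43_3 E, F43_4 E, F43_5 E, F43_6 E, F43_7 E, F43_8 E, F43_9 E] tab43 := by
  refine triG_cons _ _ _ _ _ (row43_0 E) ?_
  refine triG_cons _ _ _ _ _ (row43_1 E) ?_
  refine triG_cons _ _ _ _ _ (row43_2 E) ?_
  refine triG_cons _ _ _ _ _ (row43_3 E) ?_
  refine triG_cons _ _ _ _ _ (row43_4 E) ?_
  refine triG_cons _ _ _ _ _ (row43_5 E) ?_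
  refine triG_cons _ _ _ _ _ (row43_6 E) ?_
  refine triG_cons _ _ _ _ _ (row43_7 E) ?_
  refine triG_cons _ _ _ _ _ (row43_8 E) ?_
  refine triG_cons _ _ _ _ _ (row43_9 E) ?_
  exact triG_nil _

end

def lk44 : List Key := [
  (2, 7, [(0, [0], [0, 1]), (0, [1], [0, 2]), (0, [1], [3, 4]), (0, [0], [5, 6]), (1, [], [5, 6]), (1, [], [3, 4]), (4, [], [2]), (4, [], [1])]),
  (2, 7, [(0, [0], [0, 1]), (0, [1], [0, 2]), (0, [1], [3, 4]), (0, [0], [3, 4]), (4, [], [2]), (4, [], [1]), (1, [], [5, 6]), (1, [], [5, 6])]),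
  (2, 7, [(0, [0], [0, 1]), (0, [0], [2, 3]), (0, [1], [4, 5]), (0, [1], [4, 6]), (1, [], [0, 5]), (1, [], [2, 3]), (4, [], [1]), (4, [], [6])]),
  (2, 7, [(0, [0], [0, 1]), (0, [1], [0, 2]), (0, [0], [3, 4]), (0, [1], [5, 6]), (1, [], [1, 3]), (1, [], [5, 6]), (4, [], [2]), (4, [], [4])]),
  (2, 7, [(0, [0], [0, 1]), (0, [0], [2, 3]), (0, [1], [0, 4]), (0, [1], [4, 5]), (1, [], [1, 6]), (1, [], [2, 3]), (4, [], [5]), (4, [], [6])]),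
  (2, 7, [(0, [0], [0, 1]), (0, [1], [0, 2]), (0, [1], [2, 3]), (0, [0], [1, 4]), (4, [], [4]), (4, [], [3]), (1, [], [5, 6]), (1, [], [5, 6])]),
  (2, 7, [(0, [0], [0, 1]), (0, [1], [0, 2]), (0, [0], [2, 3]), (0, [1], [1, 4]), (4, [], [4]), (4, [], [3]), (1, [], [5, 6]), (1, [], [5, 6])]),
  (2, 7, [(0, [0], [0, 1]), (0, [0], [0, 2]), (0, [1], [1, 2]), (4, [], [3]), (0, [1], [4, 5]), (1, [], [4, 6]), (1, [], [5, 6]), (4, [], [3])]),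
  (2, 7, [(0, [0], [0, 1]), (0, [0], [0, 2]), (0, [1], [1, 2]), (4, [], [3]), (0, [1], [4, 5]), (1, [], [4, 6]), (1, [], [3, 6]), (4, [], [5])]),
  (2, 7, [(0, [0], [0, 1]), (0, [0], [0, 2]), (0, [1], [1, 2]), (4, [], [3]), (0, [1], [4, 5]), (1, [], [4, 6]), (1, [], [3, 5]), (4, [], [6])]),
  (2, 7, [(0, [0], [0, 1]), (0, [0], [0, 2]), (0, [1], [1, 2]), (4, [], [3]), (0, [1], [3, 4]), (1, [], [5, 6]), (1, [], [5, 6]), (4, [], [4])]),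
  (2, 7, [(0, [0], [0, 1]), (0, [0], [0, 2]), (0, [1], [3, 2]), (4, [], [1]), (0, [1], [4, 5]), (1, [], [4, 6]), (1, [], [5, 6]), (4, [], [3])]),
  (2, 7, [(0, [0], [0, 1]), (0, [0], [0, 2]), (0, [1], [3, 2]), (4, [], [1]), (0, [1], [4, 5]), (1, [], [4, 6]), (1, [], [3, 6]), (4, [], [5])]),
  (2, 7, [(0, [0], [0, 1]), (0, [0], [0, 2]), (0, [1], [3, 2]), (4, [], [1]), (0, [1], [4, 5]), (1, [], [4, 6]), (1, [], [3, 5]), (4, [], [6])]),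
  (2, 7, [(0, [0], [0, 1]), (0, [0], [0, 2]), (0, [1], [3, 2]), (4, [], [1]), (0, [1], [3, 4]), (1, [], [5, 6]), (1, [], [4, 5]), (4, [], [6])]),
  (2, 7, [(0, [0], [0, 1]), (0, [0], [2, 3]), (0, [1], [0, 3]), (4, [], [1]), (0, [1], [4, 5]), (1, [], [4, 6]), (1, [], [5, 6]), (4, [], [2])]),
  (2, 7, [(0, [0], [0, 1]), (0, [0], [2, 3]), (0, [1], [0, 3]), (4, [], [1]), (0, [1], [4, 5]), (1, [], [4, 6]), (1, [], [2, 6]), (4, [], [5])]),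
  (2, 7, [(0, [0], [0, 1]), (0, [0], [2, 3]), (0, [1], [0, 3]), (4, [], [1]), (0, [1], [4, 5]), (1, [], [4, 6]), (1, [], [2, 5]), (4, [], [6])]),
  (2, 7, [(0, [0], [0, 1]), (0, [0], [2, 3]), (0, [1], [0, 3]), (4, [], [1]), (0, [1], [2, 4]), (1, [], [5, 6]), (1, [], [4, 5]), (4, [], [6])]),
  (2, 7, [(0, [0], [0, 1]), (0, [0], [2, 3]), (0, [1], [0, 1]), (4, [], [3]), (0, [1], [4, 5]), (1, [], [4, 6]), (1, [], [5, 6]), (4, [], [2])]),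
  (2, 7, [(0, [0], [0, 1]), (0, [0], [2, 3]), (0, [1], [0, 1]), (4, [], [3]), (0, [1], [4, 5]), (1, [], [4, 6]), (1, [], [2, 6]), (4, [], [5])]),
  (2, 7, [(0, [0], [0, 1]), (0, [0], [2, 3]), (0, [1], [0, 1]), (4, [], [3]), (0, [1], [4, 5]), (1, [], [4, 6]), (1, [], [2, 5]), (4, [], [6])]),
  (2, 7, [(0, [0], [0, 1]), (0, [0], [2, 3]), (0, [1], [0, 1]), (4, [], [3]), (0, [1], [2, 4]), (1, [], [5, 6]), (1, [], [4, 5]), (4, [], [6])]),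
  (2, 7, [(0, [0], [0, 1]), (0, [0], [2, 0]), (0, [1], [1, 3]), (4, [], [3]), (0, [1], [4, 5]), (1, [], [4, 6]), (1, [], [2, 6]), (4, [], [5])]),
  (2, 7, [(0, [0], [0, 1]), (0, [0], [2, 0]), (0, [1], [1, 3]), (4, [], [3]), (0, [1], [4, 5]), (1, [], [4, 6]), (1, [], [2, 5]), (4, [], [6])]),
  (2, 7, [(0, [0], [0, 1]), (0, [0], [2, 0]), (0, [1], [1, 3]), (4, [], [3]), (0, [1], [4, 5]), (1, [], [4, 5]), (1, [], [2, 6]), (4, [], [6])]),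
  (2, 7, [(0, [0], [0, 1]), (0, [0], [2, 0]), (0, [1], [1, 3]), (4, [], [3]), (0, [1], [2, 4]), (1, [], [5, 6]), (1, [], [5, 6]), (4, [], [4])]),
  (2, 7, [(0, [0], [0, 1]), (0, [0], [2, 0]), (0, [1], [1, 3]), (4, [], [3]), (0, [1], [2, 4]), (1, [], [5, 6]), (1, [], [4, 5]), (4, [], [6])]),
  (2, 7, [(0, [0], [0, 1]), (0, [0], [2, 0]), (0, [1], [3, 1]), (4, [], [4]), (0, [1], [5, 6]), (1, [], [5, 6]), (1, [], [2, 3]), (4, [], [4])]),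
  (2, 7, [(0, [0], [0, 1]), (0, [0], [2, 0]), (0, [1], [3, 1]), (4, [], [4]), (0, [1], [5, 6]), (1, [], [2, 5]), (1, [], [3, 6]), (4, [], [4])]),
  (2, 7, [(0, [0], [0, 1]), (0, [0], [2, 0]), (0, [1], [3, 1]), (4, [], [4]), (0, [1], [5, 6]), (1, [], [2, 5]), (1, [], [3, 4]), (4, [], [6])]),
  (2, 7, [(0, [0], [0, 1]), (0, [0], [2, 0]), (0, [1], [3, 1]), (4, [], [4]), (0, [1], [5, 6]), (1, [], [3, 5]), (1, [], [2, 4]), (4, [], [6])]),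
  (2, 7, [(0, [0], [0, 1]), (0, [0], [2, 0]), (0, [1], [3, 1]), (4, [], [4]), (0, [1], [5, 6]), (1, [], [4, 5]), (1, [], [2, 3]), (4, [], [6])]),
  (2, 7, [(0, [0], [0, 1]), (0, [0], [2, 0]), (0, [1], [3, 1]), (4, [], [4]), (0, [1], [2, 5]), (1, [], [5, 6]), (1, [], [3, 6]), (4, [], [4])]),
  (2, 7, [(0, [0], [0, 1]), (0, [0], [2, 0]), (0, [1], [3, 1]), (4, [], [4]), (0, [1], [3, 5]), (1, [], [5, 6]), (1, [], [2, 6]), (4, [], [4])]),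
  (2, 7, [(0, [0], [0, 1]), (0, [0], [2, 0]), (0, [1], [3, 1]), (4, [], [4]), (0, [1], [2, 5]), (1, [], [5, 6]), (1, [], [3, 4]), (4, [], [6])]),
  (2, 7, [(0, [0], [0, 1]), (0, [0], [2, 0]), (0, [1], [3, 1]), (4, [], [4]), (0, [1], [3, 5]), (1, [], [5, 6]), (1, [], [2, 4]), (4, [], [6])]),
  (2, 7, [(0, [0], [0, 1]), (0, [0], [2, 0]), (0, [1], [3, 1]), (4, [], [4]), (0, [1], [4, 5]), (1, [], [2, 6]), (1, [], [3, 6]), (4, [], [5])]),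
  (2, 7, [(0, [0], [0, 1]), (0, [0], [2, 0]), (0, [1], [3, 1]), (4, [], [4]), (0, [1], [2, 3]), (1, [], [5, 6]), (1, [], [5, 6]), (4, [], [4])]),
  (2, 7, [(0, [0], [0, 1]), (0, [0], [2, 0]), (0, [1], [3, 1]), (4, [], [4]), (0, [1], [2, 3]), (1, [], [5, 6]), (1, [], [4, 5]), (4, [], [6])]),
  (2, 7, [(0, [0], [0, 1]), (0, [0], [2, 0]), (0, [1], [3, 4]), (4, [], [1]), (0, [1], [5, 6]), (1, [], [2, 5]), (1, [], [3, 6]), (4, [], [4])]),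
  (2, 7, [(0, [0], [0, 1]), (0, [0], [2, 0]), (0, [1], [3, 4]), (4, [], [1]), (0, [1], [3, 5]), (1, [], [5, 6]), (1, [], [2, 6]), (4, [], [4])]),
  (2, 7, [(0, [0], [0, 1]), (0, [0], [2, 0]), (0, [1], [3, 4]), (4, [], [1]), (0, [1], [3, 5]), (1, [], [2, 6]), (1, [], [4, 5]), (4, [], [6])]),
  (2, 7, [(0, [0], [0, 1]), (0, [0], [2, 3]), (0, [1], [0, 1]), (4, [], [4]), (0, [1], [5, 6]), (1, [], [2, 5]), (1, [], [3, 6]), (4, [], [4])]),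
  (2, 7, [(0, [0], [0, 1]), (0, [0], [2, 3]), (0, [1], [0, 1]), (4, [], [4]), (0, [1], [2, 5]), (1, [], [5, 6]), (1, [], [3, 6]), (4, [], [4])]),
  (2, 7, [(0, [0], [0, 1]), (0, [0], [2, 3]), (0, [1], [0, 1]), (4, [], [4]), (0, [1], [2, 5]), (1, [], [5, 6]), (1, [], [3, 4]), (4, [], [6])]),
  (2, 7, [(0, [0], [0, 1]), (0, [0], [2, 3]), (0, [1], [4, 0]), (4, [], [1]), (0, [1], [5, 6]), (1, [], [5, 6]), (1, [], [2, 4]), (4, [], [3])]),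
  (2, 7, [(0, [0], [0, 1]), (0, [0], [2, 3]), (0, [1], [4, 0]), (4, [], [1]), (0, [1], [5, 6]), (1, [], [2, 5]), (1, [], [3, 6]), (4, [], [4])]),
  (2, 7, [(0, [0], [0, 1]), (0, [0], [2, 3]), (0, [1], [4, 0]), (4, [], [1]), (0, [1], [5, 6]), (1, [], [2, 5]), (1, [], [4, 6]), (4, [], [3])]),
  (2, 7, [(0, [0], [0, 1]), (0, [0], [2, 3]), (0, [1], [4, 0]), (4, [], [1]), (0, [1], [5, 6]), (1, [], [2, 5]), (1, [], [3, 4]), (4, [], [6])]),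
  (2, 7, [(0, [0], [0, 1]), (0, [0], [2, 3]), (0, [1], [4, 0]), (4, [], [1]), (0, [1], [2, 5]), (1, [], [5, 6]), (1, [], [3, 6]), (4, [], [4])]),
  (2, 7, [(0, [0], [0, 1]), (0, [0], [2, 3]), (0, [1], [4, 0]), (4, [], [1]), (0, [1], [2, 5]), (1, [], [5, 6]), (1, [], [4, 6]), (4, [], [3])]),
  (2, 7, [(0, [0], [0, 1]), (0, [0], [2, 3]), (0, [1], [4, 0]), (4, [], [1]), (0, [1], [2, 5]), (1, [], [5, 6]), (1, [], [3, 4]), (4, [], [6])]),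
  (2, 7, [(0, [0], [0, 1]), (0, [0], [2, 3]), (0, [1], [4, 0]), (4, [], [1]), (0, [1], [2, 5]), (1, [], [3, 6]), (1, [], [4, 6]), (4, [], [5])]),
  (2, 7, [(0, [0], [0, 1]), (0, [0], [2, 3]), (0, [1], [4, 0]), (4, [], [1]), (0, [1], [2, 5]), (1, [], [4, 6]), (1, [], [3, 5]), (4, [], [6])]),
  (2, 7, [(0, [0], [0, 1]), (0, [0], [2, 3]), (0, [1], [1, 3]), (4, [], [4]), (0, [1], [5, 6]), (1, [], [0, 5]), (1, [], [2, 6]), (4, [], [4])]),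
  (2, 7, [(0, [0], [0, 1]), (0, [0], [2, 3]), (0, [1], [1, 3]), (4, [], [4]), (0, [1], [5, 6]), (1, [], [0, 5]), (1, [], [2, 4]), (4, [], [6])]),
  (2, 7, [(0, [0], [0, 1]), (0, [0], [2, 3]), (0, [1], [1, 3]), (4, [], [4]), (0, [1], [0, 5]), (1, [], [5, 6]), (1, [], [2, 6]), (4, [], [4])]),
  (2, 7, [(0, [0], [0, 1]), (0, [0], [2, 3]), (0, [1], [1, 3]), (4, [], [4]), (0, [1], [0, 5]), (1, [], [5, 6]), (1, [], [2, 4]), (4, [], [6])]),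
  (2, 7, [(0, [0], [0, 1]), (0, [0], [2, 3]), (0, [1], [1, 3]), (4, [], [4]), (0, [1], [4, 5]), (1, [], [0, 6]), (1, [], [2, 6]), (4, [], [5])]),
  (2, 7, [(0, [0], [0, 1]), (0, [0], [2, 3]), (0, [1], [4, 3]), (4, [], [1]), (0, [1], [5, 6]), (1, [], [5, 6]), (1, [], [2, 4]), (4, [], [0])]),
  (2, 7, [(0, [0], [0, 1]), (0, [0], [2, 3]), (0, [1], [4, 3]), (4, [], [1]), (0, [1], [5, 6]), (1, [], [2, 5]), (1, [], [4, 6]), (4, [], [0])]),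
  (2, 7, [(0, [0], [0, 1]), (0, [0], [2, 3]), (0, [1], [4, 3]), (4, [], [1]), (0, [1], [5, 6]), (1, [], [0, 5]), (1, [], [2, 4]), (4, [], [6])]),
  (2, 7, [(0, [0], [0, 1]), (0, [0], [2, 3]), (0, [1], [4, 3]), (4, [], [1]), (0, [1], [5, 6]), (1, [], [2, 5]), (1, [], [0, 4]), (4, [], [6])]),
  (2, 7, [(0, [0], [0, 1]), (0, [0], [2, 3]), (0, [1], [4, 3]), (4, [], [1]), (0, [1], [5, 6]), (1, [], [4, 5]), (1, [], [0, 2]), (4, [], [6])]),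
  (2, 7, [(0, [0], [0, 1]), (0, [0], [2, 1]), (0, [1], [3, 4]), (4, [], [4]), (0, [1], [5, 6]), (1, [], [5, 6]), (1, [], [0, 2]), (4, [], [3])]),
  (2, 7, [(0, [0], [0, 1]), (0, [0], [2, 1]), (0, [1], [3, 4]), (4, [], [4]), (0, [1], [5, 6]), (1, [], [3, 5]), (1, [], [0, 2]), (4, [], [6])]),
  (2, 7, [(0, [0], [0, 1]), (0, [0], [2, 1]), (0, [1], [3, 4]), (4, [], [5]), (0, [1], [3, 6]), (1, [], [4, 6]), (1, [], [0, 2]), (4, [], [5])]),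
  (2, 7, [(0, [0], [0, 1]), (0, [0], [2, 3]), (0, [1], [4, 1]), (4, [], [5]), (0, [1], [2, 6]), (1, [], [0, 6]), (1, [], [3, 4]), (4, [], [5])]),
  (2, 7, [(0, [0], [0, 1]), (0, [0], [2, 3]), (0, [1], [4, 1]), (4, [], [5]), (0, [1], [2, 6]), (1, [], [3, 6]), (1, [], [0, 4]), (4, [], [5])])]

def kl44 : List ℕ := [10, 26, 42, 45, 50, 51, 56, 99, 100, 101, 106, 113, 114, 115, 117, 127, 128, 129, 131, 134, 135, 136, 141, 145, 146, 147, 149, 150, 226, 227, 228, 229, 230, 231, 232, 233, 234, 235, 244, 245, 255, 257, 260, 271, 272, 273, 289, 290, 291, 292, 293, 294, 295, 296, 298, 305, 306, 308, 309, 310, 323, 324, 325, 326, 327, 332, 335, 423, 431, 432]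

def m44_0 : Base := (1, 1, [(0, [0], [0, 5]), (0, [0], [1, 5]), (1, [], [2, 3]), (4, [], [4])])

def l44_0 : Cov := [(60, 1, 1, [(0, [0], [0, 5]), (0, [0], [1, 5]), (1, [], [2, 3]), (4, [], [4])]),
  (-60, 1, 1, [(0, [0], [0, 5]), (0, [0], [1, 5]), (1, [], [2, 4]), (4, [], [3])]),
  (60, 1, 1, [(0, [0], [0, 5]), (0, [0], [2, 5]), (1, [], [1, 3]), (4, [], [4])]),
  (-60, 1, 1, [(0, [0], [0, 5]), (0, [0], [2, 5]), (1, [], [1, 4]), (4, [], [3])]),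
  (-60, 1, 1, [(0, [0], [1, 5]), (0, [0], [3, 5]), (1, [], [2, 0]), (4, [], [4])]),
  (60, 1, 1, [(0, [0], [1, 5]), (0, [0], [3, 5]), (1, [], [2, 4]), (4, [], [0])]),
  (60, 1, 1, [(0, [0], [1, 5]), (0, [0], [4, 5]), (1, [], [2, 0]), (4, [], [3])]),
  (-60, 1, 1, [(0, [0], [1, 5]), (0, [0], [4, 5]), (1, [], [2, 3]), (4, [], [0])]),
  (-60, 1, 1, [(0, [0], [2, 5]), (0, [0], [3, 5]), (1, [], [1, 0]), (4, [], [4])]),
  (60, 1, 1, [(0, [0], [2, 5]), (0, [0], [3, 5]), (1, [], [1, 4]), (4, [], [0])]),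
  (60, 1, 1, [(0, [0], [2, 5]), (0, [0], [4, 5]), (1, [], [1, 0]), (4, [], [3])]),
  (-60, 1, 1, [(0, [0], [2, 5]), (0, [0], [4, 5]), (1, [], [1, 3]), (4, [], [0])])]

def z44_0 : Cov := [(0, 1, 1, [(0, [0], [0, 5]), (0, [0], [1, 5]), (1, [], [3, 4]), (4, [], [2])]),
  (0, 1, 1, [(0, [0], [0, 5]), (0, [0], [2, 5]), (1, [], [3, 4]), (4, [], [1])]),
  (0, 1, 1, [(0, [0], [0, 5]), (0, [0], [3, 5]), (1, [], [1, 2]), (4, [], [4])]),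
  (0, 1, 1, [(0, [0], [0, 5]), (0, [0], [3, 5]), (1, [], [1, 4]), (4, [], [2])]),
  (0, 1, 1, [(0, [0], [0, 5]), (0, [0], [3, 5]), (1, [], [2, 4]), (4, [], [1])]),
  (0, 1, 1, [(0, [0], [0, 5]), (0, [0], [4, 5]), (1, [], [1, 2]), (4, [], [3])]),
  (0, 1, 1, [(0, [0], [0, 5]), (0, [0], [4, 5]), (1, [], [1, 3]), (4, [], [2])]),
  (0, 1, 1, [(0, [0], [0, 5]), (0, [0], [4, 5]), (1, [], [2, 3]), (4, [], [1])]),
  (0, 1, 1, [(0, [0], [1, 5]), (0, [0], [2, 5]), (1, [], [0, 3]), (4, [], [4])]),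
  (0, 1, 1, [(0, [0], [1, 5]), (0, [0], [2, 5]), (1, [], [0, 4]), (4, [], [3])]),
  (0, 1, 1, [(0, [0], [1, 5]), (0, [0], [2, 5]), (1, [], [3, 4]), (4, [], [0])]),
  (0, 1, 1, [(0, [0], [3, 5]), (0, [0], [1, 5]), (1, [], [0, 4]), (4, [], [2])]),
  (0, 1, 1, [(0, [0], [3, 5]), (0, [0], [2, 5]), (1, [], [0, 4]), (4, [], [1])]),
  (0, 1, 1, [(0, [0], [3, 5]), (0, [0], [4, 5]), (1, [], [1, 0]), (4, [], [2])]),
  (0, 1, 1, [(0, [0], [3, 5]), (0, [0], [4, 5]), (1, [], [1, 2]), (4, [], [0])]),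
  (0, 1, 1, [(0, [0], [3, 5]), (0, [0], [4, 5]), (1, [], [2, 0]), (4, [], [1])]),
  (0, 1, 1, [(0, [0], [4, 5]), (0, [0], [1, 5]), (1, [], [0, 3]), (4, [], [2])]),
  (0, 1, 1, [(0, [0], [4, 5]), (0, [0], [2, 5]), (1, [], [0, 3]), (4, [], [1])])]

def w44_0 : List (List Wit) := [[(0, 0, 0, 0, 0), (1, 0, 0, 0, 0), (0, 0, 0, 0, 0), (12, 0, 0, 0, 0), (1, 0, 0, 0, 0), (12, 0, 0, 0, 0), (2, 0, 0, 0, 0), (3, 0, 0, 0, 0), (2, 0, 0, 0, 0), (13, 0, 0, 0, 0), (3, 0, 0, 0, 0), (13, 0, 0, 0, 0), (14, 0, 0, 0, 0), (15, 0, 0, 0, 0), (14, 0, 0, 0, 0), (16, 0, 0, 0, 0), (17, 0, 0, 0, 0), (18, 0, 0, 0, 0), (17, 0, 0, 0, 0), (19, 0, 0, 0, 0), (0, 0, 0, 0, 0), (1, 0, 0, 0, 0), (20, 0, 0, 0, 0), (21, 0, 0, 0, 0), (20, 0, 0, 0, 0), (22, 0, 0, 0, 0), (21, 0, 0, 0, 0), (22, 0, 0, 0, 0), (4, 0, 0, 0, 0), (5, 0, 0, 0, 0), (6, 0, 0, 0, 0), (7, 0, 0, 0, 0), (2, 0, 0, 0, 0),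 (3, 0, 0, 0, 0), (20, 0, 0, 0, 0), (21, 0, 0, 0, 0), (20, 0, 0, 0, 0), (22, 0, 0, 0, 0), (21, 0, 0, 0, 0), (22, 0, 0, 0, 0), (8, 0, 0, 0, 0), (9, 0, 0, 0, 0), (10, 0, 0, 0, 0), (11, 0, 0, 0, 0), (14, 0, 0, 0, 0), (15, 0, 0, 0, 0), (14, 0, 0, 0, 0), (16, 0, 0, 0, 0), (4, 0, 0, 0, 0), (23, 0, 0, 0, 0), (4, 0, 0, 0, 0), (5, 0, 0, 0, 0), (23, 0, 0, 0, 0), (5, 0, 0, 0, 0), (8, 0, 0, 0, 0), (24, 0, 0, 0, 0), (8, 0, 0, 0, 0), (9, 0, 0, 0, 0), (24, 0, 0, 0, 0), (9, 0, 0, 0, 0), (25, 0, 0, 0, 0), (26, 0, 0, 0, 0), (27, 0, 0, 0, 0), (26, 0, 0, 0, 0), (17, 0, 0, 0, 0), (18, 0, 0, 0, 0), (17, 0, 0, 0, 0), (19, 0, 0, 0, 0), (6, 0, 0, 0, 0), (28, 0, 0, 0, 0), (6, 0, 0, 0, 0), (7, 0, 0, 0, 0), (28, 0, 0, 0, 0), (7, 0, 0, 0, 0), (10, 0, 0, 0, 0), (29, 0, 0, 0, 0), (10, 0, 0, 0, 0), (11, 0, 0, 0, 0), (29, 0, 0, 0, 0), (11, 0, 0, 0, 0), (25, 0, 0, 0, 0), (26, 0, 0,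 0, 0), (27, 0, 0, 0, 0), (26, 0, 0, 0, 0)]]

def m44_1 : Base := (1, 1, [(0, [0], [0, 5]), (0, [0], [1, 2]), (1, [], [3, 5]), (4, [], [4])])

def l44_1 : Cov := [(72, 1, 1, [(0, [0], [0, 5]), (0, [0], [1, 2]), (1, [], [3, 5]), (4, [], [4])]),
  (-72, 1, 1, [(0, [0], [0, 5]), (0, [0], [1, 2]), (1, [], [4, 5]), (4, [], [3])]),
  (24, 1, 1, [(0, [0], [0, 5]), (0, [0], [1, 3]), (1, [], [2, 5]), (4, [], [4])]),
  (-24, 1, 1, [(0, [0], [0, 5]), (0, [0], [1, 3]), (1, [], [4, 5]), (4, [], [2])]),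
  (-24, 1, 1, [(0, [0], [0, 5]), (0, [0], [1, 4]), (1, [], [2, 5]), (4, [], [3])]),
  (24, 1, 1, [(0, [0], [0, 5]), (0, [0], [1, 4]), (1, [], [3, 5]), (4, [], [2])]),
  (24, 1, 1, [(0, [0], [0, 5]), (0, [0], [2, 3]), (1, [], [1, 5]), (4, [], [4])]),
  (-24, 1, 1, [(0, [0], [0, 5]), (0, [0], [2, 3]), (1, [], [4, 5]), (4, [], [1])]),
  (-24, 1, 1, [(0, [0], [0, 5]), (0, [0], [2, 4]), (1, [], [1, 5]), (4, [], [3])]),
  (24, 1, 1, [(0, [0], [0, 5]), (0, [0], [2, 4]), (1, [], [3, 5]), (4, [], [1])]),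
  (24, 1, 1, [(0, [0], [1, 5]), (0, [0], [0, 2]), (1, [], [3, 5]), (4, [], [4])]),
  (-24, 1, 1, [(0, [0], [1, 5]), (0, [0], [0, 2]), (1, [], [4, 5]), (4, [], [3])]),
  (-24, 1, 1, [(0, [0], [1, 5]), (0, [0], [2, 3]), (1, [], [0, 5]), (4, [], [4])]),
  (24, 1, 1, [(0, [0], [1, 5]), (0, [0], [2, 3]), (1, [], [4, 5]), (4, [], [0])]),
  (24, 1, 1, [(0, [0], [1, 5]), (0, [0], [2, 4]), (1, [], [0, 5]), (4, [], [3])]),
  (-24, 1, 1, [(0, [0], [1, 5]), (0, [0], [2, 4]), (1, [], [3, 5]), (4, [], [0])]),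
  (24, 1, 1, [(0, [0], [2, 5]), (0, [0], [0, 1]), (1, [], [3, 5]), (4, [], [4])]),
  (-24, 1, 1, [(0, [0], [2, 5]), (0, [0], [0, 1]), (1, [], [4, 5]), (4, [], [3])]),
  (-24, 1, 1, [(0, [0], [2, 5]), (0, [0], [1, 3]), (1, [], [0, 5]), (4, [], [4])]),
  (24, 1, 1, [(0, [0], [2, 5]), (0, [0], [1, 3]), (1, [], [4, 5]), (4, [], [0])]),
  (24, 1, 1, [(0, [0], [2, 5]), (0, [0], [1, 4]), (1, [], [0, 5]), (4, [], [3])]),
  (-24, 1, 1, [(0, [0], [2, 5]), (0, [0], [1, 4]), (1, [], [3, 5]), (4, [], [0])]),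
  (-24, 1, 1, [(0, [0], [3, 5]), (0, [0], [0, 1]), (1, [], [2, 5]), (4, [], [4])]),
  (24, 1, 1, [(0, [0], [3, 5]), (0, [0], [0, 1]), (1, [], [4, 5]), (4, [], [2])]),
  (-24, 1, 1, [(0, [0], [3, 5]), (0, [0], [0, 2]), (1, [], [1, 5]), (4, [], [4])]),
  (24, 1, 1, [(0, [0], [3, 5]), (0, [0], [0, 2]), (1, [], [4, 5]), (4, [], [1])]),
  (-72, 1, 1, [(0, [0], [3, 5]), (0, [0], [1, 2]), (1, [], [0, 5]), (4, [], [4])]),
  (72, 1, 1, [(0, [0], [3, 5]), (0, [0], [1, 2]), (1, [], [4, 5]), (4, [], [0])]),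
  (-24, 1, 1, [(0, [0], [3, 5]), (0, [0], [1, 4]), (1, [], [0, 5]), (4, [], [2])]),
  (24, 1, 1, [(0, [0], [3, 5]), (0, [0], [1, 4]), (1, [], [2, 5]), (4, [], [0])]),
  (-24, 1, 1, [(0, [0], [3, 5]), (0, [0], [2, 4]), (1, [], [0, 5]), (4, [], [1])]),
  (24, 1, 1, [(0, [0], [3, 5]), (0, [0], [2, 4]), (1, [], [1, 5]), (4, [], [0])]),
  (24, 1, 1, [(0, [0], [4, 5]), (0, [0], [0, 1]), (1, [], [2, 5]), (4, [], [3])]),
  (-24, 1, 1, [(0, [0], [4, 5]), (0, [0], [0, 1]), (1, [], [3, 5]), (4, [], [2])]),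
  (24, 1, 1, [(0, [0], [4, 5]), (0, [0], [0, 2]), (1, [], [1, 5]), (4, [], [3])]),
  (-24, 1, 1, [(0, [0], [4, 5]), (0, [0], [0, 2]), (1, [], [3, 5]), (4, [], [1])]),
  (72, 1, 1, [(0, [0], [4, 5]), (0, [0], [1, 2]), (1, [], [0, 5]), (4, [], [3])]),
  (-72, 1, 1, [(0, [0], [4, 5]), (0, [0], [1, 2]), (1, [], [3, 5]), (4, [], [0])]),
  (24, 1, 1, [(0, [0], [4, 5]), (0, [0], [1, 3]), (1, [], [0, 5]), (4, [], [2])]),
  (-24, 1, 1, [(0, [0], [4, 5]), (0, [0], [1, 3]), (1, [], [2, 5]), (4, [], [0])]),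
  (24, 1, 1, [(0, [0], [4, 5]), (0, [0], [2, 3]), (1, [], [0, 5]), (4, [], [1])]),
  (-24, 1, 1, [(0, [0], [4, 5]), (0, [0], [2, 3]), (1, [], [1, 5]), (4, [], [0])])]

def z44_1 : Cov := []

def w44_1 : List (List Wit) := [[(0, 0, 0, 0, 0), (1, 0, 0, 0, 0), (2, 0, 0, 0, 0), (3, 0, 0, 0, 0), (4, 0, 0, 0, 0), (5, 0, 0, 0, 0), (0, 0, 0, 0, 0), (1, 0, 0, 0, 0), (6, 0, 0, 0, 0), (7, 0, 0, 0, 0), (8, 0, 0, 0, 0), (9, 0, 0, 0, 0), (2, 0, 0, 0, 0), (3, 0, 0, 0, 0), (6, 0, 0, 0, 0), (7, 0, 0, 0, 0), (4, 0, 0, 0, 0), (5, 0, 0, 0, 0), (8, 0, 0, 0, 0), (9, 0, 0, 0, 0), (10, 0, 0, 0, 0), (11, 0, 0, 0, 0), (10, 0, 0, 0, 0), (11, 0, 0, 0, 0), (12, 0, 0, 0, 0), (13, 0, 0, 0, 0), (14, 0, 0, 0, 0), (15, 0, 0, 0, 0), (12, 0, 0, 0, 0), (13, 0, 0, 0, 0), (14, 0, 0, 0, 0), (15, 0, 0, 0, 0), (16, 0, 0, 0, 0), (17, 0, 0, 0, 0), (16, 0, 0, 0, 0), (17, 0, 0, 0, 0), (18, 0,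 0, 0, 0), (19, 0, 0, 0, 0), (20, 0, 0, 0, 0), (21, 0, 0, 0, 0), (18, 0, 0, 0, 0), (19, 0, 0, 0, 0), (20, 0, 0, 0, 0), (21, 0, 0, 0, 0), (22, 0, 0, 0, 0), (23, 0, 0, 0, 0), (24, 0, 0, 0, 0), (25, 0, 0, 0, 0), (22, 0, 0, 0, 0), (23, 0, 0, 0, 0), (26, 0, 0, 0, 0), (27, 0, 0, 0, 0), (28, 0, 0, 0, 0), (29, 0, 0, 0, 0), (24, 0, 0, 0, 0), (25, 0, 0, 0, 0), (26, 0, 0, 0, 0), (27, 0, 0, 0, 0), (30, 0, 0, 0, 0), (31, 0, 0, 0, 0), (28, 0, 0, 0, 0), (29, 0, 0, 0, 0), (30, 0, 0, 0, 0), (31, 0, 0, 0, 0), (32, 0, 0, 0, 0), (33, 0, 0, 0, 0), (34, 0, 0, 0, 0), (35, 0, 0, 0, 0), (32, 0, 0, 0, 0), (33, 0, 0, 0, 0), (36, 0, 0, 0, 0), (37, 0, 0, 0, 0), (38, 0, 0, 0, 0), (39, 0, 0, 0, 0), (34, 0, 0, 0, 0), (35, 0, 0, 0, 0), (36, 0, 0, 0, 0), (37, 0, 0, 0, 0), (40, 0, 0, 0, 0), (41, 0, 0, 0, 0), (38, 0, 0, 0, 0), (39, 0, 0, 0, 0), (40, 0, 0, 0, 0), (41, 0, 0, 0, 0)]]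

def m44_2 : Base := (1, 1, [(0, [0], [0, 5]), (0, [0], [1, 3]), (1, [], [2, 5]), (4, [], [4])])

def l44_2 : Cov := [(48, 1, 1, [(0, [0], [0, 5]), (0, [0], [1, 3]), (1, [], [2, 5]), (4, [], [4])]),
  (-48, 1, 1, [(0, [0], [0, 5]), (0, [0], [1, 4]), (1, [], [2, 5]), (4, [], [3])]),
  (24, 1, 1, [(0, [0], [0, 5]), (0, [0], [1, 2]), (1, [], [3, 5]), (4, [], [4])]),
  (-12, 1, 1, [(0, [0], [0, 5]), (0, [0], [1, 4]), (1, [], [3, 5]), (4, [], [2])]),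
  (-24, 1, 1, [(0, [0], [0, 5]), (0, [0], [1, 2]), (1, [], [4, 5]), (4, [], [3])]),
  (12, 1, 1, [(0, [0], [0, 5]), (0, [0], [1, 3]), (1, [], [4, 5]), (4, [], [2])]),
  (48, 1, 1, [(0, [0], [0, 5]), (0, [0], [2, 3]), (1, [], [1, 5]), (4, [], [4])]),
  (-48, 1, 1, [(0, [0], [0, 5]), (0, [0], [2, 4]), (1, [], [1, 5]), (4, [], [3])]),
  (-12, 1, 1, [(0, [0], [0, 5]), (0, [0], [2, 4]), (1, [], [3, 5]), (4, [], [1])]),
  (12, 1, 1, [(0, [0], [0, 5]), (0, [0], [2, 3]), (1, [], [4, 5]), (4, [], [1])]),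
  (12, 1, 1, [(0, [0], [1, 5]), (0, [0], [2, 3]), (1, [], [0, 5]), (4, [], [4])]),
  (-12, 1, 1, [(0, [0], [1, 5]), (0, [0], [2, 4]), (1, [], [0, 5]), (4, [], [3])]),
  (-12, 1, 1, [(0, [0], [1, 5]), (0, [0], [2, 0]), (1, [], [3, 5]), (4, [], [4])]),
  (12, 1, 1, [(0, [0], [1, 5]), (0, [0], [2, 4]), (1, [], [3, 5]), (4, [], [0])]),
  (12, 1, 1, [(0, [0], [1, 5]), (0, [0], [2, 0]), (1, [], [4, 5]), (4, [], [3])]),
  (-12, 1, 1, [(0, [0], [1, 5]), (0, [0], [2, 3]), (1, [], [4, 5]), (4, [], [0])]),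
  (12, 1, 1, [(0, [0], [2, 5]), (0, [0], [1, 3]), (1, [], [0, 5]), (4, [], [4])]),
  (-12, 1, 1, [(0, [0], [2, 5]), (0, [0], [1, 4]), (1, [], [0, 5]), (4, [], [3])]),
  (-12, 1, 1, [(0, [0], [2, 5]), (0, [0], [1, 0]), (1, [], [3, 5]), (4, [], [4])]),
  (12, 1, 1, [(0, [0], [2, 5]), (0, [0], [1, 4]), (1, [], [3, 5]), (4, [], [0])]),
  (12, 1, 1, [(0, [0], [2, 5]), (0, [0], [1, 0]), (1, [], [4, 5]), (4, [], [3])]),
  (-12, 1, 1, [(0, [0], [2, 5]), (0, [0], [1, 3]), (1, [], [4, 5]), (4, [], [0])]),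
  (-48, 1, 1, [(0, [0], [3, 5]), (0, [0], [0, 2]), (1, [], [1, 5]), (4, [], [4])]),
  (-48, 1, 1, [(0, [0], [3, 5]), (0, [0], [0, 1]), (1, [], [2, 5]), (4, [], [4])]),
  (-24, 1, 1, [(0, [0], [3, 5]), (0, [0], [1, 2]), (1, [], [0, 5]), (4, [], [4])]),
  (12, 1, 1, [(0, [0], [3, 5]), (0, [0], [1, 4]), (1, [], [0, 5]), (4, [], [2])]),
  (48, 1, 1, [(0, [0], [3, 5]), (0, [0], [1, 4]), (1, [], [2, 5]), (4, [], [0])]),
  (-12, 1, 1, [(0, [0], [3, 5]), (0, [0], [1, 0]), (1, [], [4, 5]), (4, [], [2])]),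
  (24, 1, 1, [(0, [0], [3, 5]), (0, [0], [1, 2]), (1, [], [4, 5]), (4, [], [0])]),
  (12, 1, 1, [(0, [0], [3, 5]), (0, [0], [2, 4]), (1, [], [0, 5]), (4, [], [1])]),
  (48, 1, 1, [(0, [0], [3, 5]), (0, [0], [2, 4]), (1, [], [1, 5]), (4, [], [0])]),
  (-12, 1, 1, [(0, [0], [3, 5]), (0, [0], [2, 0]), (1, [], [4, 5]), (4, [], [1])]),
  (48, 1, 1, [(0, [0], [4, 5]), (0, [0], [0, 2]), (1, [], [1, 5]), (4, [], [3])]),
  (48, 1, 1, [(0, [0], [4, 5]), (0, [0], [0, 1]), (1, [], [2, 5]), (4, [], [3])]),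
  (24, 1, 1, [(0, [0], [4, 5]), (0, [0], [1, 2]), (1, [], [0, 5]), (4, [], [3])]),
  (-12, 1, 1, [(0, [0], [4, 5]), (0, [0], [1, 3]), (1, [], [0, 5]), (4, [], [2])]),
  (-48, 1, 1, [(0, [0], [4, 5]), (0, [0], [1, 3]), (1, [], [2, 5]), (4, [], [0])]),
  (12, 1, 1, [(0, [0], [4, 5]), (0, [0], [1, 0]), (1, [], [3, 5]), (4, [], [2])]),
  (-24, 1, 1, [(0, [0], [4, 5]), (0, [0], [1, 2]), (1, [], [3, 5]), (4, [], [0])]),
  (-12, 1, 1, [(0, [0], [4, 5]), (0, [0], [2, 3]), (1, [], [0, 5]), (4, [], [1])]),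
  (-48, 1, 1, [(0, [0], [4, 5]), (0, [0], [2, 3]), (1, [], [1, 5]), (4, [], [0])]),
  (12, 1, 1, [(0, [0], [4, 5]), (0, [0], [2, 0]), (1, [], [3, 5]), (4, [], [1])])]

def z44_2 : Cov := [(0, 1, 1, [(0, [0], [0, 5]), (0, [0], [3, 4]), (1, [], [1, 5]), (4, [], [2])]),
  (0, 1, 1, [(0, [0], [0, 5]), (0, [0], [3, 4]), (1, [], [2, 5]), (4, [], [1])]),
  (0, 1, 1, [(0, [0], [1, 5]), (0, [0], [0, 3]), (1, [], [2, 5]), (4, [], [4])]),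
  (0, 1, 1, [(0, [0], [1, 5]), (0, [0], [0, 4]), (1, [], [2, 5]), (4, [], [3])]),
  (0, 1, 1, [(0, [0], [1, 5]), (0, [0], [3, 4]), (1, [], [2, 5]), (4, [], [0])]),
  (0, 1, 1, [(0, [0], [2, 5]), (0, [0], [0, 3]), (1, [], [1, 5]), (4, [], [4])]),
  (0, 1, 1, [(0, [0], [2, 5]), (0, [0], [0, 4]), (1, [], [1, 5]), (4, [], [3])]),
  (0, 1, 1, [(0, [0], [2, 5]), (0, [0], [3, 4]), (1, [], [1, 5]), (4, [], [0])]),
  (0, 1, 1, [(0, [0], [3, 5]), (0, [0], [0, 4]), (1, [], [1, 5]), (4, [], [2])]),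
  (0, 1, 1, [(0, [0], [3, 5]), (0, [0], [0, 4]), (1, [], [2, 5]), (4, [], [1])]),
  (0, 1, 1, [(0, [0], [4, 5]), (0, [0], [0, 3]), (1, [], [1, 5]), (4, [], [2])]),
  (0, 1, 1, [(0, [0], [4, 5]), (0, [0], [0, 3]), (1, [], [2, 5]), (4, [], [1])])]

def w44_2 : List (List Wit) := [[(0, 0, 0, 0, 0), (1, 0, 0, 0, 0), (2, 0, 0, 0, 0), (3, 0, 0, 0, 0), (4, 0, 0, 0, 0), (5, 0, 0, 0, 0), (6, 0, 0, 0, 0), (7, 0, 0, 0, 0), (2, 0, 0, 0, 0), (8, 0, 0, 0, 0), (4, 0, 0, 0, 0), (9, 0, 0, 0, 0), (6, 0, 0, 0, 0), (42, 0, 0, 0, 0), (0, 0, 0, 0, 0), (43, 0, 0, 0, 0), (7, 0, 0, 0, 0), (42, 0, 0, 0, 0), (1, 0, 0, 0, 0), (43, 0, 0, 0, 0), (44, 0, 0, 0, 0), (45, 0, 0, 0, 0), (10, 0, 0, 0, 0), (11, 0, 0, 0, 0), (12, 0, 0, 0, 0), (13, 0, 0, 0, 0), (14, 0, 0, 0, 0), (15, 0, 0, 0, 0), (44, 0, 0, 0, 0), (46, 0, 0, 0, 0), (45, 0, 0, 0, 0), (46, 0, 0, 0, 0), (47, 0, 0, 0, 0), (48,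 0, 0, 0, 0), (16, 0, 0, 0, 0), (17, 0, 0, 0, 0), (18, 0, 0, 0, 0), (19, 0, 0, 0, 0), (20, 0, 0, 0, 0), (21, 0, 0, 0, 0), (47, 0, 0, 0, 0), (49, 0, 0, 0, 0), (48, 0, 0, 0, 0), (49, 0, 0, 0, 0), (22, 0, 0, 0, 0), (50, 0, 0, 0, 0), (23, 0, 0, 0, 0), (51, 0, 0, 0, 0), (24, 0, 0, 0, 0), (25, 0, 0, 0, 0), (23, 0, 0, 0, 0), (26, 0, 0, 0, 0), (27, 0, 0, 0, 0), (28, 0, 0, 0, 0), (24, 0, 0, 0, 0), (29, 0, 0, 0, 0), (22, 0, 0, 0, 0), (30, 0, 0, 0, 0), (31, 0, 0, 0, 0), (28, 0, 0, 0, 0), (50, 0, 0, 0, 0), (30, 0, 0, 0, 0), (51, 0, 0, 0, 0), (26, 0, 0, 0, 0), (32, 0, 0, 0, 0), (52, 0, 0, 0, 0), (33, 0, 0, 0, 0), (53, 0, 0, 0, 0), (34, 0, 0, 0, 0), (35, 0, 0, 0, 0), (33, 0, 0, 0, 0), (36, 0, 0, 0, 0), (37, 0, 0, 0, 0), (38, 0, 0, 0, 0), (34, 0, 0, 0, 0), (39, 0, 0, 0, 0), (32, 0, 0, 0, 0), (40, 0, 0, 0, 0), (41, 0, 0, 0, 0), (38, 0, 0, 0, 0), (52, 0, 0, 0, 0),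 (40, 0, 0, 0, 0), (53, 0, 0, 0, 0), (36, 0, 0, 0, 0)]]

def m44_3 : Base := (1, 1, [(0, [0], [0, 5]), (0, [0], [1, 3]), (1, [], [2, 4]), (4, [], [5])])

def l44_3 : Cov := [(60, 1, 1, [(0, [0], [0, 5]), (0, [0], [1, 3]), (1, [], [2, 4]), (4, [], [5])]),
  (-60, 1, 1, [(0, [0], [0, 5]), (0, [0], [1, 4]), (1, [], [2, 3]), (4, [], [5])]),
  (60, 1, 1, [(0, [0], [0, 5]), (0, [0], [2, 3]), (1, [], [1, 4]), (4, [], [5])]),
  (-60, 1, 1, [(0, [0], [0, 5]), (0, [0], [2, 4]), (1, [], [1, 3]), (4, [], [5])]),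
  (-60, 1, 1, [(0, [0], [3, 5]), (0, [0], [0, 2]), (1, [], [1, 4]), (4, [], [5])]),
  (-60, 1, 1, [(0, [0], [3, 5]), (0, [0], [0, 1]), (1, [], [2, 4]), (4, [], [5])]),
  (60, 1, 1, [(0, [0], [3, 5]), (0, [0], [1, 4]), (1, [], [0, 2]), (4, [], [5])]),
  (60, 1, 1, [(0, [0], [3, 5]), (0, [0], [2, 4]), (1, [], [0, 1]), (4, [], [5])]),
  (60, 1, 1, [(0, [0], [4, 5]), (0, [0], [0, 2]), (1, [], [1, 3]), (4, [], [5])]),
  (60, 1, 1, [(0, [0], [4, 5]), (0, [0], [0, 1]), (1, [], [2, 3]), (4, [], [5])]),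
  (-60, 1, 1, [(0, [0], [4, 5]), (0, [0], [1, 3]), (1, [], [0, 2]), (4, [], [5])]),
  (-60, 1, 1, [(0, [0], [4, 5]), (0, [0], [2, 3]), (1, [], [0, 1]), (4, [], [5])])]

def z44_3 : Cov := [(0, 1, 1, [(0, [0], [0, 5]), (0, [0], [1, 2]), (1, [], [3, 4]), (4, [], [5])]),
  (0, 1, 1, [(0, [0], [0, 5]), (0, [0], [3, 4]), (1, [], [1, 2]), (4, [], [5])]),
  (0, 1, 1, [(0, [0], [1, 5]), (0, [0], [0, 3]), (1, [], [2, 4]), (4, [], [5])]),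
  (0, 1, 1, [(0, [0], [1, 5]), (0, [0], [0, 4]), (1, [], [2, 3]), (4, [], [5])]),
  (0, 1, 1, [(0, [0], [1, 5]), (0, [0], [2, 3]), (1, [], [0, 4]), (4, [], [5])]),
  (0, 1, 1, [(0, [0], [1, 5]), (0, [0], [2, 4]), (1, [], [0, 3]), (4, [], [5])]),
  (0, 1, 1, [(0, [0], [1, 5]), (0, [0], [2, 0]), (1, [], [3, 4]), (4, [], [5])]),
  (0, 1, 1, [(0, [0], [1, 5]), (0, [0], [3, 4]), (1, [], [2, 0]), (4, [], [5])]),
  (0, 1, 1, [(0, [0], [2, 5]), (0, [0], [0, 3]), (1, [], [1, 4]), (4, [], [5])]),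
  (0, 1, 1, [(0, [0], [2, 5]), (0, [0], [0, 4]), (1, [], [1, 3]), (4, [], [5])]),
  (0, 1, 1, [(0, [0], [2, 5]), (0, [0], [1, 3]), (1, [], [0, 4]), (4, [], [5])]),
  (0, 1, 1, [(0, [0], [2, 5]), (0, [0], [1, 4]), (1, [], [0, 3]), (4, [], [5])]),
  (0, 1, 1, [(0, [0], [2, 5]), (0, [0], [1, 0]), (1, [], [3, 4]), (4, [], [5])]),
  (0, 1, 1, [(0, [0], [2, 5]), (0, [0], [3, 4]), (1, [], [1, 0]), (4, [], [5])]),
  (0, 1, 1, [(0, [0], [3, 5]), (0, [0], [0, 4]), (1, [], [1, 2]), (4, [], [5])]),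
  (0, 1, 1, [(0, [0], [3, 5]), (0, [0], [1, 2]), (1, [], [0, 4]), (4, [], [5])]),
  (0, 1, 1, [(0, [0], [4, 5]), (0, [0], [0, 3]), (1, [], [1, 2]), (4, [], [5])]),
  (0, 1, 1, [(0, [0], [4, 5]), (0, [0], [1, 2]), (1, [], [0, 3]), (4, [], [5])])]

def w44_3 : List (List Wit) := [[(0, 0, 0, 0, 0), (1, 0, 0, 0, 0), (12, 0, 0, 0, 0), (1, 0, 0, 0, 0), (12, 0, 0, 0, 0), (0, 0, 0, 0, 0), (2, 0, 0, 0, 0), (3, 0, 0, 0, 0), (12, 0, 0, 0, 0), (3, 0, 0, 0, 0), (12, 0, 0, 0, 0), (2, 0, 0, 0, 0), (2, 0, 0, 0, 0), (13, 0, 0, 0, 0), (0, 0, 0, 0, 0), (13, 0, 0, 0, 0), (3, 0, 0, 0, 0), (13, 0, 0, 0, 0), (1, 0, 0, 0, 0), (13, 0, 0, 0, 0), (14, 0, 0, 0, 0), (15, 0, 0, 0, 0), (16, 0, 0, 0, 0), (17, 0, 0, 0, 0), (18, 0, 0, 0, 0), (17, 0, 0, 0, 0), (18, 0, 0, 0, 0), (16, 0, 0, 0, 0), (14, 0, 0, 0, 0), (19, 0, 0, 0, 0), (15, 0, 0, 0, 0), (19, 0, 0, 0, 0), (20, 0, 0, 0, 0),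 (21, 0, 0, 0, 0), (22, 0, 0, 0, 0), (23, 0, 0, 0, 0), (24, 0, 0, 0, 0), (23, 0, 0, 0, 0), (24, 0, 0, 0, 0), (22, 0, 0, 0, 0), (20, 0, 0, 0, 0), (25, 0, 0, 0, 0), (21, 0, 0, 0, 0), (25, 0, 0, 0, 0), (4, 0, 0, 0, 0), (26, 0, 0, 0, 0), (5, 0, 0, 0, 0), (26, 0, 0, 0, 0), (27, 0, 0, 0, 0), (6, 0, 0, 0, 0), (5, 0, 0, 0, 0), (6, 0, 0, 0, 0), (5, 0, 0, 0, 0), (27, 0, 0, 0, 0), (27, 0, 0, 0, 0), (7, 0, 0, 0, 0), (4, 0, 0, 0, 0), (7, 0, 0, 0, 0), (4, 0, 0, 0, 0), (27, 0, 0, 0, 0), (26, 0, 0, 0, 0), (7, 0, 0, 0, 0), (26, 0, 0, 0, 0), (6, 0, 0, 0, 0), (8, 0, 0, 0, 0), (28, 0, 0, 0, 0), (9, 0, 0, 0, 0), (28, 0, 0, 0, 0), (29, 0, 0, 0, 0), (10, 0, 0, 0, 0), (9, 0, 0, 0, 0), (10, 0, 0, 0, 0), (9, 0, 0, 0, 0), (29, 0, 0, 0, 0), (29, 0, 0, 0, 0), (11, 0, 0, 0, 0), (8, 0, 0, 0, 0), (11, 0, 0, 0, 0), (8, 0, 0, 0, 0), (29, 0, 0, 0, 0), (28, 0, 0, 0, 0), (11, 0, 0, 0,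 0), (28, 0, 0, 0, 0), (10, 0, 0, 0, 0)]]

def m44_4 : Base := (1, 1, [(0, [0], [0, 5]), (0, [0], [1, 3]), (1, [], [4, 5]), (4, [], [2])])

def l44_4 : Cov := [(48, 1, 1, [(0, [0], [0, 5]), (0, [0], [1, 3]), (1, [], [4, 5]), (4, [], [2])]),
  (-48, 1, 1, [(0, [0], [0, 5]), (0, [0], [1, 4]), (1, [], [3, 5]), (4, [], [2])]),
  (24, 1, 1, [(0, [0], [0, 5]), (0, [0], [1, 2]), (1, [], [4, 5]), (4, [], [3])]),
  (-12, 1, 1, [(0, [0], [0, 5]), (0, [0], [1, 4]), (1, [], [2, 5]), (4, [], [3])]),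
  (-24, 1, 1, [(0, [0], [0, 5]), (0, [0], [1, 2]), (1, [], [3, 5]), (4, [], [4])]),
  (12, 1, 1, [(0, [0], [0, 5]), (0, [0], [1, 3]), (1, [], [2, 5]), (4, [], [4])]),
  (48, 1, 1, [(0, [0], [0, 5]), (0, [0], [2, 3]), (1, [], [4, 5]), (4, [], [1])]),
  (-48, 1, 1, [(0, [0], [0, 5]), (0, [0], [2, 4]), (1, [], [3, 5]), (4, [], [1])]),
  (-12, 1, 1, [(0, [0], [0, 5]), (0, [0], [2, 4]), (1, [], [1, 5]), (4, [], [3])]),
  (12, 1, 1, [(0, [0], [0, 5]), (0, [0], [2, 3]), (1, [], [1, 5]), (4, [], [4])]),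
  (12, 1, 1, [(0, [0], [1, 5]), (0, [0], [2, 3]), (1, [], [4, 5]), (4, [], [0])]),
  (-12, 1, 1, [(0, [0], [1, 5]), (0, [0], [2, 4]), (1, [], [3, 5]), (4, [], [0])]),
  (-12, 1, 1, [(0, [0], [1, 5]), (0, [0], [2, 0]), (1, [], [4, 5]), (4, [], [3])]),
  (12, 1, 1, [(0, [0], [1, 5]), (0, [0], [2, 4]), (1, [], [0, 5]), (4, [], [3])]),
  (12, 1, 1, [(0, [0], [1, 5]), (0, [0], [2, 0]), (1, [], [3, 5]), (4, [], [4])]),
  (-12, 1, 1, [(0, [0], [1, 5]), (0, [0], [2, 3]), (1, [], [0, 5]), (4, [], [4])]),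
  (12, 1, 1, [(0, [0], [2, 5]), (0, [0], [1, 3]), (1, [], [4, 5]), (4, [], [0])]),
  (-12, 1, 1, [(0, [0], [2, 5]), (0, [0], [1, 4]), (1, [], [3, 5]), (4, [], [0])]),
  (-12, 1, 1, [(0, [0], [2, 5]), (0, [0], [1, 0]), (1, [], [4, 5]), (4, [], [3])]),
  (12, 1, 1, [(0, [0], [2, 5]), (0, [0], [1, 4]), (1, [], [0, 5]), (4, [], [3])]),
  (12, 1, 1, [(0, [0], [2, 5]), (0, [0], [1, 0]), (1, [], [3, 5]), (4, [], [4])]),
  (-12, 1, 1, [(0, [0], [2, 5]), (0, [0], [1, 3]), (1, [], [0, 5]), (4, [], [4])]),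
  (-48, 1, 1, [(0, [0], [3, 5]), (0, [0], [0, 2]), (1, [], [4, 5]), (4, [], [1])]),
  (-48, 1, 1, [(0, [0], [3, 5]), (0, [0], [0, 1]), (1, [], [4, 5]), (4, [], [2])]),
  (-24, 1, 1, [(0, [0], [3, 5]), (0, [0], [1, 2]), (1, [], [4, 5]), (4, [], [0])]),
  (12, 1, 1, [(0, [0], [3, 5]), (0, [0], [1, 4]), (1, [], [2, 5]), (4, [], [0])]),
  (48, 1, 1, [(0, [0], [3, 5]), (0, [0], [1, 4]), (1, [], [0, 5]), (4, [], [2])]),
  (-12, 1, 1, [(0, [0], [3, 5]), (0, [0], [1, 0]), (1, [], [2, 5]), (4, [], [4])]),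
  (24, 1, 1, [(0, [0], [3, 5]), (0, [0], [1, 2]), (1, [], [0, 5]), (4, [], [4])]),
  (12, 1, 1, [(0, [0], [3, 5]), (0, [0], [2, 4]), (1, [], [1, 5]), (4, [], [0])]),
  (48, 1, 1, [(0, [0], [3, 5]), (0, [0], [2, 4]), (1, [], [0, 5]), (4, [], [1])]),
  (-12, 1, 1, [(0, [0], [3, 5]), (0, [0], [2, 0]), (1, [], [1, 5]), (4, [], [4])]),
  (48, 1, 1, [(0, [0], [4, 5]), (0, [0], [0, 2]), (1, [], [3, 5]), (4, [], [1])]),
  (48, 1, 1, [(0, [0], [4, 5]), (0, [0], [0, 1]), (1, [], [3, 5]), (4, [], [2])]),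
  (24, 1, 1, [(0, [0], [4, 5]), (0, [0], [1, 2]), (1, [], [3, 5]), (4, [], [0])]),
  (-12, 1, 1, [(0, [0], [4, 5]), (0, [0], [1, 3]), (1, [], [2, 5]), (4, [], [0])]),
  (-48, 1, 1, [(0, [0], [4, 5]), (0, [0], [1, 3]), (1, [], [0, 5]), (4, [], [2])]),
  (12, 1, 1, [(0, [0], [4, 5]), (0, [0], [1, 0]), (1, [], [2, 5]), (4, [], [3])]),
  (-24, 1, 1, [(0, [0], [4, 5]), (0, [0], [1, 2]), (1, [], [0, 5]), (4, [], [3])]),
  (-12, 1, 1, [(0, [0], [4, 5]), (0, [0], [2, 3]), (1, [], [1, 5]), (4, [], [0])]),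
  (-48, 1, 1, [(0, [0], [4, 5]), (0, [0], [2, 3]), (1, [], [0, 5]), (4, [], [1])]),
  (12, 1, 1, [(0, [0], [4, 5]), (0, [0], [2, 0]), (1, [], [1, 5]), (4, [], [3])])]

def z44_4 : Cov := [(0, 1, 1, [(0, [0], [0, 5]), (0, [0], [3, 4]), (1, [], [2, 5]), (4, [], [1])]),
  (0, 1, 1, [(0, [0], [0, 5]), (0, [0], [3, 4]), (1, [], [1, 5]), (4, [], [2])]),
  (0, 1, 1, [(0, [0], [1, 5]), (0, [0], [0, 3]), (1, [], [4, 5]), (4, [], [2])]),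
  (0, 1, 1, [(0, [0], [1, 5]), (0, [0], [0, 4]), (1, [], [3, 5]), (4, [], [2])]),
  (0, 1, 1, [(0, [0], [1, 5]), (0, [0], [3, 4]), (1, [], [0, 5]), (4, [], [2])]),
  (0, 1, 1, [(0, [0], [2, 5]), (0, [0], [0, 3]), (1, [], [4, 5]), (4, [], [1])]),
  (0, 1, 1, [(0, [0], [2, 5]), (0, [0], [0, 4]), (1, [], [3, 5]), (4, [], [1])]),
  (0, 1, 1, [(0, [0], [2, 5]), (0, [0], [3, 4]), (1, [], [0, 5]), (4, [], [1])]),
  (0, 1, 1, [(0, [0], [3, 5]), (0, [0], [0, 4]), (1, [], [2, 5]), (4, [], [1])]),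
  (0, 1, 1, [(0, [0], [3, 5]), (0, [0], [0, 4]), (1, [], [1, 5]), (4, [], [2])]),
  (0, 1, 1, [(0, [0], [4, 5]), (0, [0], [0, 3]), (1, [], [2, 5]), (4, [], [1])]),
  (0, 1, 1, [(0, [0], [4, 5]), (0, [0], [0, 3]), (1, [], [1, 5]), (4, [], [2])])]

def w44_4 : List (List Wit) := [[(0, 0, 0, 0, 0), (1, 0, 0, 0, 0), (2, 0, 0, 0, 0), (3, 0, 0, 0, 0), (4, 0, 0, 0, 0), (5, 0, 0, 0, 0), (6, 0, 0, 0, 0), (7, 0, 0, 0, 0), (2, 0, 0, 0, 0), (8, 0, 0, 0, 0), (4, 0, 0, 0, 0), (9, 0, 0, 0, 0), (6, 0, 0, 0, 0), (42, 0, 0, 0, 0), (0, 0, 0, 0, 0), (43, 0, 0, 0, 0), (7, 0, 0, 0, 0), (42, 0, 0, 0, 0), (1, 0, 0, 0, 0), (43, 0, 0, 0, 0), (44, 0, 0, 0, 0), (45, 0, 0, 0, 0), (10, 0, 0, 0, 0), (11, 0, 0, 0, 0), (12, 0, 0, 0, 0), (13, 0, 0, 0, 0), (14, 0, 0, 0, 0), (15, 0, 0, 0, 0), (44, 0, 0, 0, 0), (46, 0, 0, 0, 0), (45, 0, 0, 0, 0), (46, 0, 0, 0, 0), (47, 0, 0, 0, 0), (48,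 0, 0, 0, 0), (16, 0, 0, 0, 0), (17, 0, 0, 0, 0), (18, 0, 0, 0, 0), (19, 0, 0, 0, 0), (20, 0, 0, 0, 0), (21, 0, 0, 0, 0), (47, 0, 0, 0, 0), (49, 0, 0, 0, 0), (48, 0, 0, 0, 0), (49, 0, 0, 0, 0), (22, 0, 0, 0, 0), (50, 0, 0, 0, 0), (23, 0, 0, 0, 0), (51, 0, 0, 0, 0), (24, 0, 0, 0, 0), (25, 0, 0, 0, 0), (23, 0, 0, 0, 0), (26, 0, 0, 0, 0), (27, 0, 0, 0, 0), (28, 0, 0, 0, 0), (24, 0, 0, 0, 0), (29, 0, 0, 0, 0), (22, 0, 0, 0, 0), (30, 0, 0, 0, 0), (31, 0, 0, 0, 0), (28, 0, 0, 0, 0), (50, 0, 0, 0, 0), (30, 0, 0, 0, 0), (51, 0, 0, 0, 0), (26, 0, 0, 0, 0), (32, 0, 0, 0, 0), (52, 0, 0, 0, 0), (33, 0, 0, 0, 0), (53, 0, 0, 0, 0), (34, 0, 0, 0, 0), (35, 0, 0, 0, 0), (33, 0, 0, 0, 0), (36, 0, 0, 0, 0), (37, 0, 0, 0, 0), (38, 0, 0, 0, 0), (34, 0, 0, 0, 0), (39, 0, 0, 0, 0), (32, 0, 0, 0, 0), (40, 0, 0, 0, 0), (41, 0, 0, 0, 0), (38, 0, 0, 0, 0), (52, 0, 0, 0, 0),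 (40, 0, 0, 0, 0), (53, 0, 0, 0, 0), (36, 0, 0, 0, 0)]]

theorem tr44 : trK keys lk44 kl44 = true := by
  decide +kernel

theorem x44_0 : expB 0 5 dg10 dg7 m44_0 (l44_0 ++ z44_0) w44_0 = true := by
  decide +kernel

theorem x44_1 : expB 0 5 dg10 dg7 m44_1 (l44_1 ++ z44_1) w44_1 = true := by
  decide +kernel

theorem x44_2 : expB 0 5 dg10 dg7 m44_2 (l44_2 ++ z44_2) w44_2 = true := by
  decide +kernel

theorem x44_3 : expB 0 5 dg10 dg7 m44_3 (l44_3 ++ z44_3) w44_3 = true := by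
  decide +kernel

theorem x44_4 : expB 0 5 dg10 dg7 m44_4 (l44_4 ++ z44_4) w44_4 = true := by
  decide +kernel

theorem t44_0_0 : chkS lk44 0 5 [(1, m44_0)] l44_0
  [(38, 16, 16, 50619681, 52715781), (39, 16, 16, 50619681, 52715781), (34, 16, 16, 50619681, 52715781), (36, 16, 16, 50619681, 52715781), (34, 16, 16, 50615826, 36986901), (14, 16, 16, 50742561, 69427461), (14, 1, 1, 3237156, 52449606), (5, 16, 16, 34825476, 52446801), (67, 16, 16, 51733536, 54681936), (42, 16, 16, 50746401, 70410501), (42, 1, 1, 3236436, 51401286), (41, 16, 16, 50619681, 52715781)]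
  [(5, -60), (14, 120), (36, -60), (38, 60), (39, -60), (41, -60), (42, 120), (67, -60)] = true := by
  decide +kernel

theorem t44_0_1 : chkS lk44 0 5 [(1, m44_0)] l44_1
  [(33, 16, 16, 50619681, 52715781), (35, 16, 16, 50619681, 52715781), (33, 16, 16, 50615841, 36987141), (35, 16, 16, 50615841, 36987141), (27, 16, 16, 67331346, 52838421), (27, 16, 16, 67327506, 37109781), (28, 16, 16, 50619681, 52715781), (4, 1, 1, 21377616, 68498016), (32, 16, 16, 50742561, 69427461), (12, 16, 16, 50684946, 54681621), (33, 16, 16, 84173601, 56893701), (35, 16, 16, 84296481, 73605381), (28, 16, 16, 50619666, 52715541), (4, 1, 1, 21377541, 67449441), (32, 16, 16, 50742546, 69427221), (12, 16, 16, 50684961, 54681861), (7, 16, 16, 84108321, 56770821), (9, 16, 16, 84108321, 56770821), (29, 16, 16, 84162066, 40120341), (13, 16, 16, 67515681, 69611781), (24, 16, 16,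 84108306, 56770581), (11, 16, 16, 84108321, 56770821), (7, 16, 16, 84100641, 40059141), (9, 16, 16, 84100641, 40059141), (29, 16, 16, 84173601, 56893701), (13, 16, 16, 67523346, 70656021), (29, 16, 16, 84173586, 56893461), (13, 16, 16, 67523361, 70656261), (24, 16, 16, 84100626, 40058901), (11, 16, 16, 84100641, 40059141), (40, 16, 16, 84173586, 56893461), (40, 16, 16, 84173601, 56893701), (8, 16, 16, 67450401, 38154501), (8, 16, 16, 67461921, 54927621), (30, 16, 16, 84296481, 73605381), (12, 16, 16, 67461906, 54927381), (30, 16, 16, 84296466, 73605141), (12, 16, 16, 67461921, 54927621), (30, 16, 16, 84292626, 73543701), (12, 16, 16, 67450401, 38154501), (2, 1, 1, 4272741, 17117766), (2, 1, 1, 4272726, 1389126)]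
  [(12, -120), (13, 120), (29, -120), (30, 120), (33, 120), (35, -120), (40, 0)] = true := by
  decide +kernel

theorem t44_0_2 : chkS lk44 0 5 [(1, m44_0)] l44_2
  [(33, 16, 16, 50615841, 36987141), (27, 16, 16, 67331346, 52838421), (33, 16, 16, 50619681, 52715781), (27, 16, 16, 67327506, 37109781), (35, 16, 16, 50619681, 52715781), (35, 16, 16, 50615841, 36987141), (28, 16, 16, 50619681, 52715781), (32, 16, 16, 50742561, 69427461), (12, 16, 16, 50684946, 54681621), (4, 1, 1, 21377616, 68498016), (28, 16, 16, 50619666, 52715541), (32, 16, 16, 50742546, 69427221), (33, 16, 16, 84173601, 56893701), (12, 16, 16, 50684961, 54681861), (35, 16, 16, 84296481, 73605381), (4, 1, 1, 21377541, 67449441), (29, 16, 16, 84162066, 40120341), (24, 16, 16, 84108306, 56770581), (7, 16, 16, 84108321, 56770821), (11, 16, 16, 84108321, 56770821), (9, 16, 16, 84108321,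 56770821), (13, 16, 16, 67515681, 69611781), (29, 16, 16, 84173601, 56893701), (7, 16, 16, 84100641, 40059141), (29, 16, 16, 84173586, 56893461), (24, 16, 16, 84100626, 40058901), (11, 16, 16, 84100641, 40059141), (9, 16, 16, 84100641, 40059141), (13, 16, 16, 67523361, 70656261), (40, 16, 16, 84173586, 56893461), (40, 16, 16, 84173601, 56893701), (13, 16, 16, 67523346, 70656021), (30, 16, 16, 84296481, 73605381), (8, 16, 16, 67450401, 38154501), (30, 16, 16, 84296466, 73605141), (30, 16, 16, 84292626, 73543701), (12, 16, 16, 67450401, 38154501), (8, 16, 16, 67461921, 54927621), (12, 16, 16, 67461921, 54927621), (2, 1, 1, 4272741, 17117766), (2, 1, 1, 4272726, 1389126), (12, 16, 16, 67461906, 54927381)]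
  [(2, -60), (7, -60), (8, 60), (11, 60), (12, -60), (27, -60), (28, 60), (29, -60), (30, 60), (32, -60), (33, 60), (40, 60)] = true := by
  decide +kernel

theorem t44_0_3 : chkS lk44 0 5 [(1, m44_0)] l44_3
  [(27, 16, 16, 50742561, 69427461), (26, 16, 16, 50619681, 52715781), (25, 16, 16, 50746401, 70410501), (23, 16, 16, 50684961, 54681861), (31, 16, 16, 100946721, 104079621), (8, 16, 16, 84100641, 40059141), (23, 16, 16, 84100626, 40058901), (66, 16, 16, 68564256, 69611856), (37, 16, 16, 84173601, 56893701), (10, 16, 16, 67331361, 52838661), (37, 16, 16, 84162066, 40120341), (65, 16, 16, 68379936, 52838736)]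
  [(8, -60), (10, 60), (25, 60), (26, -60), (27, 60), (31, -60), (65, -60), (66, 60)] = true := by
  decide +kernel

theorem t44_0_4 : chkS lk44 0 5 [(1, m44_0)] l44_4
  [(35, 16, 16, 50615841, 36987141), (27, 16, 16, 67327506, 37109781), (35, 16, 16, 50619681, 52715781), (27, 16, 16, 67331346, 52838421), (33, 16, 16, 50619681, 52715781), (33, 16, 16, 50615841, 36987141), (4, 1, 1, 21377616, 68498016), (12, 16, 16, 50684946, 54681621), (32, 16, 16, 50742561, 69427461), (28, 16, 16, 50619681, 52715781), (4, 1, 1, 21377541, 67449441), (12, 16, 16, 50684961, 54681861), (35, 16, 16, 84296481, 73605381), (32, 16, 16, 50742546, 69427221), (33, 16, 16, 84173601, 56893701), (28, 16, 16, 50619666, 52715541), (13, 16, 16, 67515681, 69611781), (11, 16, 16, 84108321, 56770821), (9, 16, 16, 84108321, 56770821), (24, 16, 16, 84108306, 56770581), (7, 16, 16, 84108321,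 56770821), (29, 16, 16, 84162066, 40120341), (13, 16, 16, 67523346, 70656021), (9, 16, 16, 84100641, 40059141), (13, 16, 16, 67523361, 70656261), (11, 16, 16, 84100641, 40059141), (24, 16, 16, 84100626, 40058901), (7, 16, 16, 84100641, 40059141), (29, 16, 16, 84173586, 56893461), (40, 16, 16, 84173601, 56893701), (40, 16, 16, 84173586, 56893461), (29, 16, 16, 84173601, 56893701), (12, 16, 16, 67461906, 54927381), (8, 16, 16, 67461921, 54927621), (12, 16, 16, 67461921, 54927621), (12, 16, 16, 67450401, 38154501), (30, 16, 16, 84292626, 73543701), (8, 16, 16, 67450401, 38154501), (30, 16, 16, 84296466, 73605141), (2, 1, 1, 4272726, 1389126), (2, 1, 1, 4272741, 17117766), (30, 16, 16, 84296481, 73605381)]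
  [(2, -60), (4, 60), (8, 60), (9, -60), (13, -60), (24, 60), (27, -60), (30, -60), (35, 60), (40, 60)] = true := by
  decide +kernel

theorem t44_1_1 : chkS lk44 0 5 [(1, m44_1)] l44_1
  [(44, 16, 16, 87318786, 56905761), (45, 16, 16, 87441666, 73617441), (68, 16, 16, 67461921, 54927621), (52, 16, 16, 87441666, 73617441), (52, 1, 1, 55665666, 55730241), (50, 16, 16, 87318786, 56905761), (68, 16, 16, 67461681, 54923781), (52, 16, 16, 87441426, 73617426), (52, 1, 1, 55664706, 55664706), (50, 16, 16, 87318546, 56905746), (57, 16, 16, 86270211, 56886561), (58, 16, 16, 86393091, 73598241), (55, 1, 1, 6562581, 84157206), (56, 1, 1, 39059766, 5510691), (17, 1, 1, 37838901, 50665026), (16, 1, 1, 37838901, 50665026), (57, 16, 16, 86269971, 56886546), (58, 16, 16, 86392851, 73598226), (55, 1, 1, 6562101, 84153126), (56, 1, 1, 39060246, 5514771), (17, 1, 1,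 37839621, 50669121), (16, 1, 1, 37839621, 50669121), (55, 16, 16, 100946481, 104075781), (17, 16, 16, 69619971, 70649121), (55, 16, 16, 100946721, 104079621), (17, 16, 16, 69619731, 70649106), (43, 16, 16, 87318786, 56905761), (21, 16, 16, 69619971, 70649121), (47, 16, 16, 87318786, 56905761), (49, 1, 1, 55649286, 5399361), (47, 16, 16, 87318546, 56905746), (49, 1, 1, 55648326, 5333826), (56, 16, 16, 86392851, 73598226), (16, 16, 16, 69558531, 54920481), (56, 16, 16, 86393091, 73598241), (16, 16, 16, 69558291, 54920466), (21, 1, 1, 37970181, 50677281), (20, 16, 16, 69558531, 54920481), (49, 16, 16, 87441666, 73617441), (63, 16, 16, 84296241, 73601541), (49, 16, 16, 87441426, 73617426), (63, 16, 16, 84296481, 73605381)]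
  [(16, -96), (17, 96), (20, -72), (21, 144), (43, -72), (44, 72), (45, -72), (47, -48), (49, 96), (50, 48), (52, -96), (55, -96), (56, 96), (57, 48), (58, -48), (63, -48), (68, 48)] = true := by
  decide +kernel

theorem t44_1_2 : chkS lk44 0 5 [(1, m44_1)] l44_2
  [(68, 16, 16, 67461921, 54927621), (52, 1, 1, 55665666, 55730241), (44, 16, 16, 87318786, 56905761), (50, 16, 16, 87318786, 56905761), (45, 16, 16, 87441666, 73617441), (52, 16, 16, 87441666, 73617441), (68, 16, 16, 67461681, 54923781), (52, 1, 1, 55664706, 55664706), (50, 16, 16, 87318546, 56905746), (52, 16, 16, 87441426, 73617426), (55, 1, 1, 6562581, 84157206), (17, 1, 1, 37838901, 50665026), (57, 16, 16, 86270211, 56886561), (16, 1, 1, 37838901, 50665026), (58, 16, 16, 86393091, 73598241), (56, 1, 1, 39059766, 5510691), (55, 1, 1, 6562101, 84153126), (17, 1, 1, 37839621, 50669121),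 (57, 16, 16, 86269971, 56886546), (16, 1, 1, 37839621, 50669121), (58, 16, 16, 86392851, 73598226), (56, 1, 1, 39060246, 5514771), (55, 16, 16, 100946721, 104079621), (55, 16, 16, 100946481, 104075781), (43, 16, 16, 87318786, 56905761), (47, 16, 16, 87318786, 56905761), (49, 1, 1, 55649286, 5399361), (17, 16, 16, 69619971, 70649121), (21, 16, 16, 69619971, 70649121), (47, 16, 16, 87318546, 56905746), (49, 1, 1, 55648326, 5333826), (17, 16, 16, 69619731, 70649106), (56, 16, 16, 86393091, 73598241), (56, 16, 16, 86392851, 73598226), (21, 1, 1, 37970181, 50677281), (49, 16, 16, 87441666, 73617441), (63, 16, 16, 84296241, 73601541), (16, 16, 16, 69558531, 54920481), (20, 16, 16, 69558531, 54920481), (49, 16, 16, 87441426, 73617426), (63, 16, 16, 84296481, 73605381), (16, 16, 16, 69558291, 54920466)]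
  [(16, 48), (17, -48), (20, -24), (21, 48), (43, -24), (44, 24), (45, -24), (47, 24), (49, 72), (50, -24), (52, -72), (55, -72), (56, 72), (57, -24), (58, 24), (63, -96), (68, 96)] = true := by
  decide +kernel

theorem t44_1_3 : chkS lk44 0 5 [(1, m44_1)] l44_3
  [(52, 1, 1, 21378336, 69546336), (51, 1, 1, 21194016, 52773216), (52, 1, 1, 21377616, 68498016), (51, 1, 1, 21193296, 51724896), (56, 16, 16, 100946721, 104079621), (56, 16, 16, 100946481, 104075781), (48, 1, 1, 55649286, 5399361), (48, 1, 1, 55648326, 5333826), (59, 16, 16, 84173601, 56893701), (59, 16, 16, 84173361, 56889861), (61, 1, 1, 22029366, 5378916), (61, 1, 1, 22029126, 5317476)]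
  [(48, 120), (51, -120), (52, 120), (56, -120), (59, 120), (61, -120)] = true := by
  decide +kernel

theorem t44_1_4 : chkS lk44 0 5 [(1, m44_1)] l44_4
  [(52, 16, 16, 87441666, 73617441), (50, 16, 16, 87318786, 56905761), (45, 16, 16, 87441666, 73617441), (52, 1, 1, 55665666, 55730241), (44, 16, 16, 87318786, 56905761), (68, 16, 16, 67461921, 54927621), (52, 16, 16, 87441426, 73617426), (50, 16, 16, 87318546, 56905746), (52, 1, 1, 55664706, 55664706), (68, 16, 16, 67461681, 54923781), (56, 1, 1, 39059766, 5510691), (16, 1, 1, 37838901, 50665026), (58, 16, 16, 86393091, 73598241), (17, 1, 1, 37838901, 50665026), (57, 16, 16, 86270211, 56886561), (55, 1, 1, 6562581, 84157206), (56, 1, 1, 39060246, 5514771), (16, 1, 1, 37839621, 50669121), (58, 16, 16, 86392851, 73598226), (17, 1, 1, 37839621, 50669121), (57, 16, 16, 86269971, 56886546), (55, 1, 1,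 6562101, 84153126), (17, 16, 16, 69619731, 70649106), (17, 16, 16, 69619971, 70649121), (21, 16, 16, 69619971, 70649121), (49, 1, 1, 55649286, 5399361), (47, 16, 16, 87318786, 56905761), (55, 16, 16, 100946481, 104075781), (43, 16, 16, 87318786, 56905761), (49, 1, 1, 55648326, 5333826), (47, 16, 16, 87318546, 56905746), (55, 16, 16, 100946721, 104079621), (16, 16, 16, 69558291, 54920466), (16, 16, 16, 69558531, 54920481), (20, 16, 16, 69558531, 54920481), (63, 16, 16, 84296241, 73601541), (49, 16, 16, 87441666, 73617441), (56, 16, 16, 86392851, 73598226), (21, 1, 1, 37970181, 50677281), (63, 16, 16, 84296481, 73605381), (49, 16, 16, 87441426, 73617426), (56, 16, 16, 86393091, 73598241)]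
  [(16, 72), (17, -72), (20, 24), (21, -48), (43, 24), (44, -24), (45, 24), (47, 96), (49, -72), (50, -96), (52, 72), (55, -48), (56, 48), (57, 24), (58, -24), (63, -24), (68, 24)] = true := by
  decide +kernel

theorem t44_2_2 : chkS lk44 0 5 [(1, m44_2)] l44_2
  [(44, 16, 16, 87299586, 40128561), (50, 16, 16, 87299586, 40128561), (68, 16, 16, 67450401, 38154501), (52, 1, 1, 55657986, 39018561), (52, 16, 16, 87430146, 73551921), (45, 16, 16, 87430146, 73551921), (68, 16, 16, 67446321, 38146821), (63, 16, 16, 69604611, 69600561), (63, 16, 16, 69600531, 69600531), (52, 16, 16, 87426066, 73551891), (55, 1, 1, 6566421, 84161046), (49, 16, 16, 69604611, 69600561), (69, 16, 16, 101004321, 105001221), (62, 16, 16, 67511601, 69604101), (54, 16, 16, 70653186, 69619761), (56, 1, 1, 39063606, 5510706), (43, 16, 16, 87299586, 40128561), (47, 16, 16, 87299586,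 40128561), (55, 16, 16, 100934961, 103027461), (49, 1, 1, 55656966, 5464641), (17, 16, 16, 69604611, 69600561), (21, 16, 16, 69604611, 69600561), (69, 16, 16, 101000241, 104993541), (57, 16, 16, 86246931, 40109331), (55, 1, 1, 6558261, 84152886), (17, 1, 1, 37828101, 33896001), (16, 1, 1, 37828101, 33896001), (58, 16, 16, 86377491, 73532691), (56, 1, 1, 39071766, 5518866), (49, 16, 16, 69600531, 69600531), (62, 16, 16, 67515681, 69611781), (54, 16, 16, 70649106, 69619731), (62, 16, 16, 86381571, 73532721), (16, 16, 16, 69539331, 38143281), (49, 16, 16, 87430146, 73551921), (21, 1, 1, 37950981, 33900081), (20, 16, 16, 69539331, 38143281), (56, 16, 16, 86377491, 73532691), (63, 16, 16, 84288561, 73536261), (49, 16, 16, 87426066, 73551891), (63, 16, 16, 84292641, 73543941), (62, 16, 16, 86377491, 73532691)]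
  [(16, 96), (17, 24), (20, -48), (21, -24), (43, 12), (44, 48), (45, 12), (47, -12), (49, 24), (50, -48), (52, -24), (55, -24), (56, 24), (57, -48), (58, -12), (62, 120), (63, -132), (68, 72), (69, -60)] = true := by
  decide +kernel

theorem t44_2_3 : chkS lk44 0 5 [(1, m44_2)] l44_3
  [(22, 1, 1, 54924546, 69558321), (51, 1, 1, 21190176, 37044576), (52, 1, 1, 21373776, 68494176), (46, 1, 1, 21193296, 51724896), (54, 1, 1, 22414146, 72425571), (18, 1, 1, 21366066, 69537891), (15, 1, 1, 22152756, 38802531), (48, 1, 1, 22217286, 5325411), (60, 1, 1, 20996691, 51708516), (59, 16, 16, 84158001, 40112901), (19, 1, 1, 55711236, 38822961), (61, 1, 1, 22032966, 5321316)]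
  [(15, 60), (18, -60), (19, -60), (22, 60), (46, -60), (48, 60), (51, -60), (52, 60), (54, -60), (59, 60), (60, 60), (61, -60)] = true := by
  decide +kernel

theorem t44_2_4 : chkS lk44 0 5 [(1, m44_2)] l44_4
  [(45, 16, 16, 87430146, 73551921), (52, 1, 1, 55657986, 39018561), (52, 16, 16, 87430146, 73551921), (50, 16, 16, 87299586, 40128561), (68, 16, 16, 67450401, 38154501), (44, 16, 16, 87299586, 40128561), (52, 16, 16, 87426066, 73551891), (63, 16, 16, 69600531, 69600531), (63, 16, 16, 69604611, 69600561), (68, 16, 16, 67446321, 38146821), (56, 1, 1, 39063606, 5510706), (62, 16, 16, 67511601, 69604101), (54, 16, 16, 70653186, 69619761), (49, 16, 16, 69604611, 69600561), (69, 16, 16, 101004321, 105001221), (55, 1, 1, 6566421, 84161046), (21, 16, 16, 69604611, 69600561), (49, 1, 1, 55656966, 5464641), (17, 16, 16, 69604611, 69600561), (47, 16,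 16, 87299586, 40128561), (55, 16, 16, 100934961, 103027461), (43, 16, 16, 87299586, 40128561), (54, 16, 16, 70649106, 69619731), (58, 16, 16, 86377491, 73532691), (56, 1, 1, 39071766, 5518866), (16, 1, 1, 37828101, 33896001), (17, 1, 1, 37828101, 33896001), (57, 16, 16, 86246931, 40109331), (55, 1, 1, 6558261, 84152886), (62, 16, 16, 67515681, 69611781), (49, 16, 16, 69600531, 69600531), (69, 16, 16, 101000241, 104993541), (62, 16, 16, 86377491, 73532691), (56, 16, 16, 86377491, 73532691), (63, 16, 16, 84288561, 73536261), (20, 16, 16, 69539331, 38143281), (21, 1, 1, 37950981, 33900081), (16, 16, 16, 69539331, 38143281), (49, 16, 16, 87430146, 73551921), (63, 16, 16, 84292641, 73543941), (49, 16, 16, 87426066, 73551891), (62, 16, 16, 86381571, 73532721)]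
  [(16, 24), (17, 36), (20, -12), (21, -36), (43, -12), (44, 12), (45, 48), (47, 12), (49, -24), (50, -12), (52, 24), (54, -60), (55, 24), (56, 36), (57, -12), (58, -48), (62, 60), (63, -48), (68, -12), (69, 0)] = true := by
  decide +kernel

theorem t44_3_3 : chkS lk44 0 5 [(1, m44_3)] l44_3
  [(1, 16, 16, 35013936, 69408336), (50, 16, 16, 68498976, 38154576), (50, 16, 16, 68560176, 69604176), (0, 16, 16, 34890576, 51652176), (53, 16, 16, 85337136, 73536336), (6, 16, 16, 70653186, 69619761), (16, 1, 1, 22152756, 38802531), (3, 16, 16, 38143251, 69535251), (3, 1, 1, 69427536, 51791136), (16, 16, 16, 85206576, 40112976), (20, 16, 16, 87299586, 40128561), (64, 16, 16, 102052896, 105001296)]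
  [(0, -60), (1, 60), (3, 120), (6, -60), (16, 120), (20, -60), (53, -60), (64, -60)] = true := by
  decide +kernel

theorem t44_3_4 : chkS lk44 0 5 [(1, m44_3)] l44_4
  [(22, 16, 16, 70587906, 38162481), (52, 16, 16, 68498976, 38154576), (51, 16, 16, 68564256, 69611856), (51, 16, 16, 68498976, 38154576), (52, 16, 16, 68564256, 69611856), (22, 16, 16, 70653186, 69619761), (51, 16, 16, 68560176, 69604176), (46, 16, 16, 68560176, 69604176), (46, 16, 16, 68564256, 69611856), (52, 16, 16, 68560176, 69604176), (59, 1, 1, 5648916, 72364566), (60, 16, 16, 68560176, 69604176), (51, 16, 16, 85341216, 73544016), (46, 16, 16, 70653186, 69619761), (54, 16, 16, 85341216, 73544016), (56, 1, 1, 6566421, 84161046), (19, 16, 16, 87430146, 73551921), (61, 16, 16, 85206576, 40112976), (15, 16, 16, 85337136, 73536336), (48, 16, 16, 87299586, 40128561), (17, 16, 16, 85337136,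 73536336), (21, 16, 16, 87430146, 73551921), (51, 16, 16, 85337136, 73536336), (18, 16, 16, 68494896, 38146896), (59, 1, 1, 5640756, 72356406), (59, 1, 1, 5379636, 38802486), (56, 1, 1, 6427701, 84022326), (18, 16, 16, 68560176, 69604176), (56, 1, 1, 6558261, 84152886), (60, 16, 16, 68564256, 69611856), (46, 16, 16, 70649106, 69619731), (54, 16, 16, 85337136, 73536336), (48, 16, 16, 85337136, 73536336), (17, 16, 16, 85206576, 40112976), (61, 16, 16, 85337136, 73536336), (19, 16, 16, 87299586, 40128561), (21, 16, 16, 87299586, 40128561), (15, 16, 16, 85206576, 40112976), (48, 16, 16, 87430146, 73551921), (61, 16, 16, 85341216, 73544016), (48, 16, 16, 87426066, 73551891), (48, 16, 16, 85341216, 73544016)]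
  [(17, 60), (18, -60), (21, -60), (22, 60), (52, -60), (56, 60), (61, 0)] = true := by
  decide +kernel

theorem t44_4_4 : chkS lk44 0 5 [(1, m44_4)] l44_4
  [(44, 16, 16, 87430146, 73551921), (68, 16, 16, 67515681, 69611781), (50, 16, 16, 87430146, 73551921), (52, 16, 16, 87299586, 40128561), (52, 1, 1, 55984386, 72572961), (45, 16, 16, 87299586, 40128561), (50, 16, 16, 87426066, 73551891), (63, 16, 16, 69535251, 38143251), (63, 16, 16, 69539331, 38143281), (52, 1, 1, 55968066, 72441891), (16, 1, 1, 38142261, 67442211), (62, 16, 16, 67446321, 38146821), (53, 16, 16, 70653186, 69619761), (49, 16, 16, 69539331, 38143281), (54, 1, 1, 54939936, 70607136), (17, 1, 1, 38142261, 67442211), (20, 16, 16, 69604611, 69600561), (63, 16, 16, 84158001, 40112901), (16, 16, 16, 69604611, 69600561), (49, 16, 16, 87299586, 40128561), (56, 16, 16, 86246931, 40109331),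 (21, 1, 1, 38146821, 67446321), (53, 16, 16, 70649106, 69619731), (57, 16, 16, 86377491, 73532691), (16, 1, 1, 38154501, 67450401), (56, 1, 1, 38810646, 5387796), (55, 1, 1, 6427701, 84022326), (58, 16, 16, 86246931, 40109331), (17, 1, 1, 38154501, 67450401), (62, 16, 16, 67450401, 38154501), (49, 16, 16, 69535251, 38143251), (54, 1, 1, 54927696, 68510496), (49, 1, 1, 37966176, 20268576), (55, 16, 16, 101000241, 104993541), (49, 1, 1, 55722246, 5465121), (21, 16, 16, 69539331, 38143281), (43, 16, 16, 87430146, 73551921), (17, 16, 16, 69539331, 38143281), (47, 16, 16, 87430146, 73551921), (49, 1, 1, 55705926, 5334051), (47, 16, 16, 87426066, 73551891), (49, 1, 1, 37970256, 51725856)]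
  [(16, -24), (17, 24), (20, 12), (21, -24), (43, -48), (44, 48), (45, 12), (47, -72), (49, 144), (50, 72), (52, -24), (53, -60), (55, 96), (56, 24), (57, -48), (58, -12), (63, -72), (68, -48)] = true := by
  decide +kernel

section

variable {κ ι : Type*} [Fintype κ] [Fintype ι] [Inhabited κ] [Inhabited ι]

noncomputable def F44_0 (E : Env κ ι) : (Fin 0 → κ) → (Fin 5 → ι) → ℝ := op2 (P10 κ) (P7 ι) (fB E 0 5 m44_0)

noncomputable def F44_1 (E : Env κ ι) : (Fin 0 → κ) → (Fin 5 → ι) → ℝ := op2 (P10 κ) (P7 ι) (fB E 0 5 m44_1)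

noncomputable def F44_2 (E : Env κ ι) : (Fin 0 → κ) → (Fin 5 → ι) → ℝ := op2 (P10 κ) (P7 ι) (fB E 0 5 m44_2)

noncomputable def F44_3 (E : Env κ ι) : (Fin 0 → κ) → (Fin 5 → ι) → ℝ := op2 (P10 κ) (P7 ι) (fB E 0 5 m44_3)

noncomputable def F44_4 (E : Env κ ι) : (Fin 0 → κ) → (Fin 5 → ι) → ℝ := op2 (P10 κ) (P7 ι) (fB E 0 5 m44_4)

def r44_0_0 : List (ℕ × ℤ) := [(5, -60), (14, 120), (36, -60), (38, 60), (39, -60), (41, -60), (42, 120), (67, -60)]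

theorem h44_0_0 (E : Env κ ι) : ip (F44_0 E) (F44_0 E) = dotS (ek E lk44) r44_0_0 :=
  op_entryZ E lk44 0 5 _ _ _ _ (pg10 κ) (pg7 ι) m44_0 m44_0 l44_0 z44_0 w44_0 x44_0 (by decide) _ (chkS_sound E lk44 0 5 _ _ _ _ t44_0_0)

def r44_0_1 : List (ℕ × ℤ) := [(12, -120), (13, 120), (29, -120), (30, 120), (33, 120), (35, -120), (40, 0)]

theorem h44_0_1 (E : Env κ ι) : ip (F44_0 E) (F44_1 E) = dotS (ek E lk44) r44_0_1 :=
  op_entryZ E lk44 0 5 _ _ _ _ (pg10 κ) (pg7 ι) m44_0 m44_1 l44_1 z44_1 w44_1 x44_1 (by decide) _ (chkS_sound E lk44 0 5 _ _ _ _ t44_0_1)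

def r44_0_2 : List (ℕ × ℤ) := [(2, -60), (7, -60), (8, 60), (11, 60), (12, -60), (27, -60), (28, 60), (29, -60), (30, 60), (32, -60), (33, 60), (40, 60)]

theorem h44_0_2 (E : Env κ ι) : ip (F44_0 E) (F44_2 E) = dotS (ek E lk44) r44_0_2 :=
  op_entryZ E lk44 0 5 _ _ _ _ (pg10 κ) (pg7 ι) m44_0 m44_2 l44_2 z44_2 w44_2 x44_2 (by decide) _ (chkS_sound E lk44 0 5 _ _ _ _ t44_0_2)

def r44_0_3 : List (ℕ × ℤ) := [(8, -60), (10, 60), (25, 60), (26, -60), (27, 60), (31, -60), (65, -60), (66, 60)]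

theorem h44_0_3 (E : Env κ ι) : ip (F44_0 E) (F44_3 E) = dotS (ek E lk44) r44_0_3 :=
  op_entryZ E lk44 0 5 _ _ _ _ (pg10 κ) (pg7 ι) m44_0 m44_3 l44_3 z44_3 w44_3 x44_3 (by decide) _ (chkS_sound E lk44 0 5 _ _ _ _ t44_0_3)

def r44_0_4 : List (ℕ × ℤ) := [(2, -60), (4, 60), (8, 60), (9, -60), (13, -60), (24, 60), (27, -60), (30, -60), (35, 60), (40, 60)]

theorem h44_0_4 (E : Env κ ι) : ip (F44_0 E) (F44_4 E) = dotS (ek E lk44) r44_0_4 :=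
  op_entryZ E lk44 0 5 _ _ _ _ (pg10 κ) (pg7 ι) m44_0 m44_4 l44_4 z44_4 w44_4 x44_4 (by decide) _ (chkS_sound E lk44 0 5 _ _ _ _ t44_0_4)

def r44_1_1 : List (ℕ × ℤ) := [(16, -96), (17, 96), (20, -72), (21, 144), (43, -72), (44, 72), (45, -72), (47, -48), (49, 96), (50, 48), (52, -96), (55, -96), (56, 96), (57, 48), (58, -48), (63, -48), (68, 48)]

theorem h44_1_1 (E : Env κ ι) : ip (F44_1 E) (F44_1 E) = dotS (ek E lk44) r44_1_1 :=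
  op_entryZ E lk44 0 5 _ _ _ _ (pg10 κ) (pg7 ι) m44_1 m44_1 l44_1 z44_1 w44_1 x44_1 (by decide) _ (chkS_sound E lk44 0 5 _ _ _ _ t44_1_1)

def r44_1_2 : List (ℕ × ℤ) := [(16, 48), (17, -48), (20, -24), (21, 48), (43, -24), (44, 24), (45, -24), (47, 24), (49, 72), (50, -24), (52, -72), (55, -72), (56, 72), (57, -24), (58, 24), (63, -96), (68, 96)]

theorem h44_1_2 (E : Env κ ι) : ip (F44_1 E) (F44_2 E) = dotS (ek E lk44) r44_1_2 :=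
  op_entryZ E lk44 0 5 _ _ _ _ (pg10 κ) (pg7 ι) m44_1 m44_2 l44_2 z44_2 w44_2 x44_2 (by decide) _ (chkS_sound E lk44 0 5 _ _ _ _ t44_1_2)

def r44_1_3 : List (ℕ × ℤ) := [(48, 120), (51, -120), (52, 120), (56, -120), (59, 120), (61, -120)]

theorem h44_1_3 (E : Env κ ι) : ip (F44_1 E) (F44_3 E) = dotS (ek E lk44) r44_1_3 :=
  op_entryZ E lk44 0 5 _ _ _ _ (pg10 κ) (pg7 ι) m44_1 m44_3 l44_3 z44_3 w44_3 x44_3 (by decide) _ (chkS_sound E lk44 0 5 _ _ _ _ t44_1_3)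

def r44_1_4 : List (ℕ × ℤ) := [(16, 72), (17, -72), (20, 24), (21, -48), (43, 24), (44, -24), (45, 24), (47, 96), (49, -72), (50, -96), (52, 72), (55, -48), (56, 48), (57, 24), (58, -24), (63, -24), (68, 24)]

theorem h44_1_4 (E : Env κ ι) : ip (F44_1 E) (F44_4 E) = dotS (ek E lk44) r44_1_4 :=
  op_entryZ E lk44 0 5 _ _ _ _ (pg10 κ) (pg7 ι) m44_1 m44_4 l44_4 z44_4 w44_4 x44_4 (by decide) _ (chkS_sound E lk44 0 5 _ _ _ _ t44_1_4)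

def r44_2_2 : List (ℕ × ℤ) := [(16, 96), (17, 24), (20, -48), (21, -24), (43, 12), (44, 48), (45, 12), (47, -12), (49, 24), (50, -48), (52, -24), (55, -24), (56, 24), (57, -48), (58, -12), (62, 120), (63, -132), (68, 72), (69, -60)]

theorem h44_2_2 (E : Env κ ι) : ip (F44_2 E) (F44_2 E) = dotS (ek E lk44) r44_2_2 :=
  op_entryZ E lk44 0 5 _ _ _ _ (pg10 κ) (pg7 ι) m44_2 m44_2 l44_2 z44_2 w44_2 x44_2 (by decide) _ (chkS_sound E lk44 0 5 _ _ _ _ t44_2_2)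

def r44_2_3 : List (ℕ × ℤ) := [(15, 60), (18, -60), (19, -60), (22, 60), (46, -60), (48, 60), (51, -60), (52, 60), (54, -60), (59, 60), (60, 60), (61, -60)]

theorem h44_2_3 (E : Env κ ι) : ip (F44_2 E) (F44_3 E) = dotS (ek E lk44) r44_2_3 :=
  op_entryZ E lk44 0 5 _ _ _ _ (pg10 κ) (pg7 ι) m44_2 m44_3 l44_3 z44_3 w44_3 x44_3 (by decide) _ (chkS_sound E lk44 0 5 _ _ _ _ t44_2_3)

def r44_2_4 : List (ℕ × ℤ) := [(16, 24), (17, 36), (20, -12), (21, -36), (43, -12), (44, 12), (45, 48), (47, 12), (49, -24), (50, -12), (52, 24), (54, -60), (55, 24), (56, 36), (57, -12), (58, -48), (62, 60), (63, -48), (68, -12), (69, 0)]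

theorem h44_2_4 (E : Env κ ι) : ip (F44_2 E) (F44_4 E) = dotS (ek E lk44) r44_2_4 :=
  op_entryZ E lk44 0 5 _ _ _ _ (pg10 κ) (pg7 ι) m44_2 m44_4 l44_4 z44_4 w44_4 x44_4 (by decide) _ (chkS_sound E lk44 0 5 _ _ _ _ t44_2_4)

def r44_3_3 : List (ℕ × ℤ) := [(0, -60), (1, 60), (3, 120), (6, -60), (16, 120), (20, -60), (53, -60), (64, -60)]

theorem h44_3_3 (E : Env κ ι) : ip (F44_3 E) (F44_3 E) = dotS (ek E lk44) r44_3_3 :=
  op_entryZ E lk44 0 5 _ _ _ _ (pg10 κ) (pg7 ι) m44_3 m44_3 l44_3 z44_3 w44_3 x44_3 (by decide) _ (chkS_sound E lk44 0 5 _ _ _ _ t44_3_3)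

def r44_3_4 : List (ℕ × ℤ) := [(17, 60), (18, -60), (21, -60), (22, 60), (52, -60), (56, 60), (61, 0)]

theorem h44_3_4 (E : Env κ ι) : ip (F44_3 E) (F44_4 E) = dotS (ek E lk44) r44_3_4 :=
  op_entryZ E lk44 0 5 _ _ _ _ (pg10 κ) (pg7 ι) m44_3 m44_4 l44_4 z44_4 w44_4 x44_4 (by decide) _ (chkS_sound E lk44 0 5 _ _ _ _ t44_3_4)

def r44_4_4 : List (ℕ × ℤ) := [(16, -24), (17, 24), (20, 12), (21, -24), (43, -48), (44, 48), (45, 12), (47, -72), (49, 144), (50, 72), (52, -24), (53, -60), (55, 96), (56, 24), (57, -48), (58, -12), (63, -72), (68, -48)]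

theorem h44_4_4 (E : Env κ ι) : ip (F44_4 E) (F44_4 E) = dotS (ek E lk44) r44_4_4 :=
  op_entryZ E lk44 0 5 _ _ _ _ (pg10 κ) (pg7 ι) m44_4 m44_4 l44_4 z44_4 w44_4 x44_4 (by decide) _ (chkS_sound E lk44 0 5 _ _ _ _ t44_4_4)

theorem row44_0 (E : Env κ ι) : RowG (ek E lk44) (F44_0 E) [F44_0 E, F44_1 E, F44_2 E, F44_3 E, F44_4 E] [r44_0_0, r44_0_1, r44_0_2, r44_0_3, r44_0_4] :=
  rowG_cons _ _ _ _ _ _ (h44_0_0 E) (rowG_cons _ _ _ _ _ _ (h44_0_1 E) (rowG_cons _ _ _ _ _ _ (h44_0_2 E) (rowG_cons _ _ _ _ _ _ (h44_0_3 E) (rowG_cons _ _ _ _ _ _ (h44_0_4 E) (rowG_nil _ _)))))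

theorem row44_1 (E : Env κ ι) : RowG (ek E lk44) (F44_1 E) [F44_1 E, F44_2 E, F44_3 E, F44_4 E] [r44_1_1, r44_1_2, r44_1_3, r44_1_4] :=
  rowG_cons _ _ _ _ _ _ (h44_1_1 E) (rowG_cons _ _ _ _ _ _ (h44_1_2 E) (rowG_cons _ _ _ _ _ _ (h44_1_3 E) (rowG_cons _ _ _ _ _ _ (h44_1_4 E) (rowG_nil _ _))))

theorem row44_2 (E : Env κ ι) : RowG (ek E lk44) (F44_2 E) [F44_2 E, F44_3 E, F44_4 E] [r44_2_2, r44_2_3, r44_2_4] :=
  rowG_cons _ _ _ _ _ _ (h44_2_2 E) (rowG_cons _ _ _ _ _ _ (h44_2_3 E) (rowG_cons _ _ _ _ _ _ (h44_2_4 E) (rowG_nil _ _)))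

theorem row44_3 (E : Env κ ι) : RowG (ek E lk44) (F44_3 E) [F44_3 E, F44_4 E] [r44_3_3, r44_3_4] :=
  rowG_cons _ _ _ _ _ _ (h44_3_3 E) (rowG_cons _ _ _ _ _ _ (h44_3_4 E) (rowG_nil _ _))

theorem row44_4 (E : Env κ ι) : RowG (ek E lk44) (F44_4 E) [F44_4 E] [r44_4_4] :=
  rowG_cons _ _ _ _ _ _ (h44_4_4 E) (rowG_nil _ _)

def tab44 : List (List (List (ℕ × ℤ))) := [[r44_0_0, r44_0_1, r44_0_2, r44_0_3, r44_0_4], [r44_1_1, r44_1_2, r44_1_3, r44_1_4], [r44_2_2, r44_2_3, r44_2_4], [r44_3_3, r44_3_4], [r44_4_4]]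

theorem tri44 (E : Env κ ι) : TriG (ek E lk44) [F44_0 E, F44_1 E, F44_2 E, F44_3 E, F44_4 E] tab44 := by
  refine triG_cons _ _ _ _ _ (row44_0 E) ?_
  refine triG_cons _ _ _ _ _ (row44_1 E) ?_
  refine triG_cons _ _ _ _ _ (row44_2 E) ?_
  refine triG_cons _ _ _ _ _ (row44_3 E) ?_
  refine triG_cons _ _ _ _ _ (row44_4 E) ?_
  exact triG_nil _

end

def lk45 : List Key := [
  (2, 5, [(0, [0], [0, 1]), (0, [1], [0, 2]), (0, [1], [3, 4]), (0, [0], [3, 4]), (4, [], [2]), (4, [], [1])]),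
  (2, 7, [(0, [0], [0, 1]), (0, [1], [0, 2]), (0, [1], [3, 4]), (0, [0], [5, 6]), (1, [], [5, 6]), (1, [], [3, 4]), (4, [], [2]), (4, [], [1])]),
  (2, 7, [(0, [0], [0, 1]), (0, [1], [0, 2]), (0, [1], [3, 4]), (0, [0], [3, 4]), (4, [], [2]), (4, [], [1]), (1, [], [5, 6]), (1, [], [5, 6])]),
  (2, 5, [(0, [0], [0, 1]), (0, [1], [0, 2]), (0, [0], [2, 3]), (0, [1], [1, 4]), (4, [], [4]), (4, [], [3])]),
  (2, 7, [(0, [0], [0, 1]), (0, [0], [2, 3]), (0, [1], [4, 5]), (0, [1], [4, 6]), (1, [], [0, 5]), (1, [], [2, 3]), (4, [], [1]), (4, [], [6])]),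
  (2, 7, [(0, [0], [0, 1]), (0, [1], [0, 2]), (0, [0], [3, 4]), (0, [1], [5, 6]), (1, [], [1, 3]), (1, [], [5, 6]), (4, [], [2]), (4, [], [4])]),
  (2, 7, [(0, [0], [0, 1]), (0, [0], [2, 3]), (0, [1], [0, 4]), (0, [1], [4, 5]), (1, [], [1, 6]), (1, [], [2, 3]), (4, [], [5]), (4, [], [6])]),
  (2, 7, [(0, [0], [0, 1]), (0, [1], [0, 2]), (0, [1], [2, 3]), (0, [0], [1, 4]), (4, [], [4]), (4, [], [3]), (1, [], [5, 6]), (1, [], [5, 6])]),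
  (2, 7, [(0, [0], [0, 1]), (0, [1], [0, 2]), (0, [1], [1, 3]), (0, [0], [4, 5]), (1, [], [2, 6]), (1, [], [4, 5]), (4, [], [3]), (4, [], [6])]),
  (2, 7, [(0, [0], [0, 1]), (0, [1], [0, 2]), (0, [0], [2, 3]), (0, [1], [1, 4]), (4, [], [4]), (4, [], [3]), (1, [], [5, 6]), (1, [], [5, 6])]),
  (2, 6, [(0, [0], [0, 1]), (0, [0], [2, 3]), (0, [1], [0, 4]), (0, [1], [4, 5]), (1, [], [2, 3]), (4, [], [1]), (4, [], [5])]),
  (2, 6, [(0, [0], [0, 1]), (0, [1], [0, 2]), (0, [1], [1, 3]), (0, [0], [4, 5]), (1, [], [4, 5]), (4, [], [3]), (4, [], [2])]),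
  (2, 6, [(0, [0], [0, 1]), (0, [1], [0, 2]), (0, [1], [1, 3]), (0, [0], [4, 5]), (1, [], [2, 4]), (4, [], [3]), (4, [], [5])]),
  (2, 6, [(0, [0], [0, 1]), (0, [1], [2, 3]), (0, [0], [2, 4]), (0, [1], [0, 5]), (1, [], [1, 3]), (4, [], [5]), (4, [], [4])]),
  (2, 6, [(0, [0], [0, 1]), (0, [0], [2, 3]), (0, [1], [2, 4]), (0, [1], [0, 5]), (1, [], [1, 3]), (4, [], [5]), (4, [], [4])]),
  (2, 6, [(0, [0], [0, 1]), (0, [1], [0, 2]), (0, [0], [2, 3]), (0, [1], [1, 4]), (1, [], [3, 5]), (4, [], [4]), (4, [], [5])]),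
  (2, 6, [(0, [0], [0, 1]), (0, [0], [2, 3]), (0, [1], [0, 4]), (0, [1], [4, 5]), (1, [], [1, 2]), (4, [], [3]), (4, [], [5])]),
  (2, 6, [(0, [0], [0, 1]), (0, [0], [2, 3]), (0, [1], [0, 4]), (0, [1], [2, 4]), (1, [], [1, 5]), (4, [], [3]), (4, [], [5])]),
  (2, 7, [(0, [0], [0, 1]), (0, [0], [0, 2]), (0, [1], [1, 2]), (4, [], [3]), (0, [1], [4, 5]), (1, [], [4, 6]), (1, [], [5, 6]), (4, [], [3])]),
  (2, 7, [(0, [0], [0, 1]), (0, [0], [0, 2]), (0, [1], [1, 2]), (4, [], [3]), (0, [1], [4, 5]), (1, [], [4, 6]), (1, [], [3, 6]), (4, [], [5])]),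
  (2, 7, [(0, [0], [0, 1]), (0, [0], [0, 2]), (0, [1], [1, 2]), (4, [], [3]), (0, [1], [4, 5]), (1, [], [4, 6]), (1, [], [3, 5]), (4, [], [6])]),
  (2, 7, [(0, [0], [0, 1]), (0, [0], [0, 2]), (0, [1], [1, 2]), (4, [], [3]), (0, [1], [4, 5]), (1, [], [4, 5]), (1, [], [3, 6]), (4, [], [6])]),
  (2, 6, [(0, [0], [0, 1]), (0, [0], [0, 2]), (0, [1], [1, 2]), (4, [], [3]), (0, [1], [4, 5]), (1, [], [4, 5]), (4, [], [3])]),
  (2, 6, [(0, [0], [0, 1]), (0, [0], [0, 2]), (0, [1], [1, 2]), (4, [], [3]), (0, [1], [4, 5]), (1, [], [3, 4]), (4, [], [5])]),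
  (2, 7, [(0, [0], [0, 1]), (0, [0], [0, 2]), (0, [1], [1, 2]), (4, [], [3]), (0, [1], [3, 4]), (1, [], [5, 6]), (1, [], [5, 6]), (4, [], [4])]),
  (2, 7, [(0, [0], [0, 1]), (0, [0], [0, 2]), (0, [1], [3, 2]), (4, [], [1]), (0, [1], [4, 5]), (1, [], [4, 6]), (1, [], [5, 6]), (4, [], [3])]),
  (2, 7, [(0, [0], [0, 1]), (0, [0], [0, 2]), (0, [1], [3, 2]), (4, [], [1]), (0, [1], [4, 5]), (1, [], [4, 6]), (1, [], [3, 6]), (4, [], [5])]),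
  (2, 7, [(0, [0], [0, 1]), (0, [0], [0, 2]), (0, [1], [3, 2]), (4, [], [1]), (0, [1], [4, 5]), (1, [], [4, 6]), (1, [], [3, 5]), (4, [], [6])]),
  (2, 7, [(0, [0], [0, 1]), (0, [0], [0, 2]), (0, [1], [3, 2]), (4, [], [1]), (0, [1], [3, 4]), (1, [], [5, 6]), (1, [], [4, 5]), (4, [], [6])]),
  (2, 7, [(0, [0], [0, 1]), (0, [0], [2, 3]), (0, [1], [0, 3]), (4, [], [1]), (0, [1], [4, 5]), (1, [], [4, 6]), (1, [], [5, 6]), (4, [], [2])]),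
  (2, 7, [(0, [0], [0, 1]), (0, [0], [2, 3]), (0, [1], [0, 3]), (4, [], [1]), (0, [1], [4, 5]), (1, [], [4, 6]), (1, [], [2, 6]), (4, [], [5])]),
  (2, 7, [(0, [0], [0, 1]), (0, [0], [2, 3]), (0, [1], [0, 3]), (4, [], [1]), (0, [1], [4, 5]), (1, [], [4, 6]), (1, [], [2, 5]), (4, [], [6])]),
  (2, 7, [(0, [0], [0, 1]), (0, [0], [2, 3]), (0, [1], [0, 3]), (4, [], [1]), (0, [1], [2, 4]), (1, [], [5, 6]), (1, [], [4, 5]), (4, [], [6])]),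
  (2, 7, [(0, [0], [0, 1]), (0, [0], [2, 3]), (0, [1], [0, 1]), (4, [], [3]), (0, [1], [4, 5]), (1, [], [4, 6]), (1, [], [5, 6]), (4, [], [2])]),
  (2, 7, [(0, [0], [0, 1]), (0, [0], [2, 3]), (0, [1], [0, 1]), (4, [], [3]), (0, [1], [4, 5]), (1, [], [4, 6]), (1, [], [2, 6]), (4, [], [5])]),
  (2, 7, [(0, [0], [0, 1]), (0, [0], [2, 3]), (0, [1], [0, 1]), (4, [], [3]), (0, [1], [4, 5]), (1, [], [4, 6]), (1, [], [2, 5]), (4, [], [6])]),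
  (2, 7, [(0, [0], [0, 1]), (0, [0], [2, 3]), (0, [1], [0, 1]), (4, [], [3]), (0, [1], [4, 5]), (1, [], [4, 5]), (1, [], [2, 6]), (4, [], [6])]),
  (2, 6, [(0, [0], [0, 1]), (0, [0], [2, 3]), (0, [1], [0, 1]), (4, [], [3]), (0, [1], [4, 5]), (1, [], [4, 5]), (4, [], [2])]),
  (2, 6, [(0, [0], [0, 1]), (0, [0], [2, 3]), (0, [1], [0, 1]), (4, [], [3]), (0, [1], [4, 5]), (1, [], [2, 4]), (4, [], [5])]),
  (2, 7, [(0, [0], [0, 1]), (0, [0], [2, 3]), (0, [1], [0, 1]), (4, [], [3]), (0, [1], [2, 4]), (1, [], [5, 6]), (1, [], [4, 5]), (4, [], [6])]),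
  (2, 6, [(0, [0], [0, 1]), (0, [0], [2, 3]), (0, [1], [0, 1]), (4, [], [3]), (0, [1], [2, 4]), (1, [], [4, 5]), (4, [], [5])]),
  (2, 7, [(0, [0], [0, 1]), (0, [0], [2, 0]), (0, [1], [1, 3]), (4, [], [3]), (0, [1], [4, 5]), (1, [], [4, 6]), (1, [], [2, 6]), (4, [], [5])]),
  (2, 7, [(0, [0], [0, 1]), (0, [0], [2, 0]), (0, [1], [1, 3]), (4, [], [3]), (0, [1], [4, 5]), (1, [], [4, 6]), (1, [], [2, 5]), (4, [], [6])]),
  (2, 7, [(0, [0], [0, 1]), (0, [0], [2, 0]), (0, [1], [1, 3]), (4, [], [3]), (0, [1], [4, 5]), (1, [], [4, 5]), (1, [], [2, 6]), (4, [], [6])]),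
  (2, 7, [(0, [0], [0, 1]), (0, [0], [2, 0]), (0, [1], [1, 3]), (4, [], [3]), (0, [1], [2, 4]), (1, [], [5, 6]), (1, [], [5, 6]), (4, [], [4])]),
  (2, 7, [(0, [0], [0, 1]), (0, [0], [2, 0]), (0, [1], [1, 3]), (4, [], [3]), (0, [1], [2, 4]), (1, [], [5, 6]), (1, [], [4, 5]), (4, [], [6])]),
  (2, 7, [(0, [0], [0, 1]), (0, [0], [2, 0]), (0, [1], [3, 1]), (4, [], [4]), (0, [1], [5, 6]), (1, [], [5, 6]), (1, [], [2, 3]), (4, [], [4])]),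
  (2, 7, [(0, [0], [0, 1]), (0, [0], [2, 0]), (0, [1], [3, 1]), (4, [], [4]), (0, [1], [5, 6]), (1, [], [2, 5]), (1, [], [3, 6]), (4, [], [4])]),
  (2, 7, [(0, [0], [0, 1]), (0, [0], [2, 0]), (0, [1], [3, 1]), (4, [], [4]), (0, [1], [5, 6]), (1, [], [2, 5]), (1, [], [3, 4]), (4, [], [6])]),
  (2, 7, [(0, [0], [0, 1]), (0, [0], [2, 0]), (0, [1], [3, 1]), (4, [], [4]), (0, [1], [5, 6]), (1, [], [3, 5]), (1, [], [2, 4]), (4, [], [6])]),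
  (2, 7, [(0, [0], [0, 1]), (0, [0], [2, 0]), (0, [1], [3, 1]), (4, [], [4]), (0, [1], [5, 6]), (1, [], [4, 5]), (1, [], [2, 3]), (4, [], [6])]),
  (2, 7, [(0, [0], [0, 1]), (0, [0], [2, 0]), (0, [1], [3, 1]), (4, [], [4]), (0, [1], [2, 5]), (1, [], [5, 6]), (1, [], [3, 6]), (4, [], [4])]),
  (2, 7, [(0, [0], [0, 1]), (0, [0], [2, 0]), (0, [1], [3, 1]), (4, [], [4]), (0, [1], [3, 5]), (1, [], [5, 6]), (1, [], [2, 6]), (4, [], [4])]),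
  (2, 7, [(0, [0], [0, 1]), (0, [0], [2, 0]), (0, [1], [3, 1]), (4, [], [4]), (0, [1], [2, 5]), (1, [], [5, 6]), (1, [], [3, 4]), (4, [], [6])]),
  (2, 7, [(0, [0], [0, 1]), (0, [0], [2, 0]), (0, [1], [3, 1]), (4, [], [4]), (0, [1], [3, 5]), (1, [], [5, 6]), (1, [], [2, 4]), (4, [], [6])]),
  (2, 7, [(0, [0], [0, 1]), (0, [0], [2, 0]), (0, [1], [3, 1]), (4, [], [4]), (0, [1], [4, 5]), (1, [], [2, 6]), (1, [], [3, 6]), (4, [], [5])]),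
  (2, 7, [(0, [0], [0, 1]), (0, [0], [2, 0]), (0, [1], [3, 1]), (4, [], [4]), (0, [1], [2, 5]), (1, [], [4, 6]), (1, [], [3, 5]), (4, [], [6])]),
  (2, 6, [(0, [0], [0, 1]), (0, [0], [2, 0]), (0, [1], [3, 1]), (4, [], [4]), (0, [1], [2, 5]), (1, [], [3, 5]), (4, [], [4])]),
  (2, 7, [(0, [0], [0, 1]), (0, [0], [2, 0]), (0, [1], [3, 1]), (4, [], [4]), (0, [1], [2, 3]), (1, [], [5, 6]), (1, [], [5, 6]), (4, [], [4])]),
  (2, 7, [(0, [0], [0, 1]), (0, [0], [2, 0]), (0, [1], [3, 1]), (4, [], [4]), (0, [1], [2, 3]), (1, [], [5, 6]), (1, [], [4, 5]), (4, [], [6])]),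
  (2, 7, [(0, [0], [0, 1]), (0, [0], [2, 0]), (0, [1], [3, 4]), (4, [], [1]), (0, [1], [5, 6]), (1, [], [2, 5]), (1, [], [3, 6]), (4, [], [4])]),
  (2, 7, [(0, [0], [0, 1]), (0, [0], [2, 0]), (0, [1], [3, 4]), (4, [], [1]), (0, [1], [3, 5]), (1, [], [5, 6]), (1, [], [2, 6]), (4, [], [4])]),
  (2, 7, [(0, [0], [0, 1]), (0, [0], [2, 0]), (0, [1], [3, 4]), (4, [], [1]), (0, [1], [3, 5]), (1, [], [2, 6]), (1, [], [4, 5]), (4, [], [6])]),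
  (2, 7, [(0, [0], [0, 1]), (0, [0], [2, 3]), (0, [1], [0, 1]), (4, [], [4]), (0, [1], [5, 6]), (1, [], [2, 5]), (1, [], [3, 6]), (4, [], [4])]),
  (2, 7, [(0, [0], [0, 1]), (0, [0], [2, 3]), (0, [1], [0, 1]), (4, [], [4]), (0, [1], [2, 5]), (1, [], [5, 6]), (1, [], [3, 6]), (4, [], [4])]),
  (2, 7, [(0, [0], [0, 1]), (0, [0], [2, 3]), (0, [1], [0, 1]), (4, [], [4]), (0, [1], [2, 5]), (1, [], [5, 6]), (1, [], [3, 4]), (4, [], [6])]),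
  (2, 7, [(0, [0], [0, 1]), (0, [0], [2, 3]), (0, [1], [0, 1]), (4, [], [4]), (0, [1], [2, 5]), (1, [], [4, 6]), (1, [], [3, 5]), (4, [], [6])]),
  (2, 6, [(0, [0], [0, 1]), (0, [0], [2, 3]), (0, [1], [0, 1]), (4, [], [4]), (0, [1], [2, 5]), (1, [], [3, 5]), (4, [], [4])]),
  (2, 7, [(0, [0], [0, 1]), (0, [0], [2, 3]), (0, [1], [0, 1]), (4, [], [4]), (0, [1], [2, 3]), (1, [], [5, 6]), (1, [], [4, 5]), (4, [], [6])]),
  (2, 6, [(0, [0], [0, 1]), (0, [0], [2, 3]), (0, [1], [0, 1]), (4, [], [4]), (0, [1], [2, 3]), (1, [], [4, 5]), (4, [], [5])]),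
  (2, 5, [(0, [0], [0, 1]), (0, [0], [2, 3]), (0, [1], [0, 1]), (4, [], [4]), (0, [1], [2, 3]), (4, [], [4])]),
  (2, 7, [(0, [0], [0, 1]), (0, [0], [2, 3]), (0, [1], [4, 0]), (4, [], [1]), (0, [1], [5, 6]), (1, [], [5, 6]), (1, [], [2, 4]), (4, [], [3])]),
  (2, 7, [(0, [0], [0, 1]), (0, [0], [2, 3]), (0, [1], [4, 0]), (4, [], [1]), (0, [1], [5, 6]), (1, [], [2, 5]), (1, [], [3, 6]), (4, [], [4])]),
  (2, 7, [(0, [0], [0, 1]), (0, [0], [2, 3]), (0, [1], [4, 0]), (4, [], [1]), (0, [1], [5, 6]), (1, [], [2, 5]), (1, [], [4, 6]), (4, [], [3])]),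
  (2, 7, [(0, [0], [0, 1]), (0, [0], [2, 3]), (0, [1], [4, 0]), (4, [], [1]), (0, [1], [5, 6]), (1, [], [2, 5]), (1, [], [3, 4]), (4, [], [6])]),
  (2, 7, [(0, [0], [0, 1]), (0, [0], [2, 3]), (0, [1], [4, 0]), (4, [], [1]), (0, [1], [2, 5]), (1, [], [5, 6]), (1, [], [3, 6]), (4, [], [4])]),
  (2, 7, [(0, [0], [0, 1]), (0, [0], [2, 3]), (0, [1], [4, 0]), (4, [], [1]), (0, [1], [2, 5]), (1, [], [5, 6]), (1, [], [4, 6]), (4, [], [3])]),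
  (2, 7, [(0, [0], [0, 1]), (0, [0], [2, 3]), (0, [1], [4, 0]), (4, [], [1]), (0, [1], [2, 5]), (1, [], [5, 6]), (1, [], [3, 4]), (4, [], [6])]),
  (2, 7, [(0, [0], [0, 1]), (0, [0], [2, 3]), (0, [1], [4, 0]), (4, [], [1]), (0, [1], [2, 5]), (1, [], [3, 6]), (1, [], [4, 6]), (4, [], [5])]),
  (2, 7, [(0, [0], [0, 1]), (0, [0], [2, 3]), (0, [1], [4, 0]), (4, [], [1]), (0, [1], [2, 5]), (1, [], [3, 6]), (1, [], [4, 5]), (4, [], [6])]),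
  (2, 7, [(0, [0], [0, 1]), (0, [0], [2, 3]), (0, [1], [4, 0]), (4, [], [1]), (0, [1], [2, 5]), (1, [], [4, 6]), (1, [], [3, 5]), (4, [], [6])]),
  (2, 6, [(0, [0], [0, 1]), (0, [0], [2, 3]), (0, [1], [4, 0]), (4, [], [1]), (0, [1], [2, 5]), (1, [], [3, 5]), (4, [], [4])]),
  (2, 7, [(0, [0], [0, 1]), (0, [0], [2, 3]), (0, [1], [1, 3]), (4, [], [4]), (0, [1], [5, 6]), (1, [], [0, 5]), (1, [], [2, 6]), (4, [], [4])]),
  (2, 7, [(0, [0], [0, 1]), (0, [0], [2, 3]), (0, [1], [1, 3]), (4, [], [4]), (0, [1], [5, 6]), (1, [], [0, 5]), (1, [], [2, 4]), (4, [], [6])]),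
  (2, 7, [(0, [0], [0, 1]), (0, [0], [2, 3]), (0, [1], [1, 3]), (4, [], [4]), (0, [1], [5, 6]), (1, [], [4, 5]), (1, [], [0, 2]), (4, [], [6])]),
  (2, 7, [(0, [0], [0, 1]), (0, [0], [2, 3]), (0, [1], [1, 3]), (4, [], [4]), (0, [1], [0, 5]), (1, [], [5, 6]), (1, [], [2, 6]), (4, [], [4])]),
  (2, 7, [(0, [0], [0, 1]), (0, [0], [2, 3]), (0, [1], [1, 3]), (4, [], [4]), (0, [1], [0, 5]), (1, [], [5, 6]), (1, [], [2, 4]), (4, [], [6])]),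
  (2, 7, [(0, [0], [0, 1]), (0, [0], [2, 3]), (0, [1], [1, 3]), (4, [], [4]), (0, [1], [4, 5]), (1, [], [0, 6]), (1, [], [2, 6]), (4, [], [5])]),
  (2, 7, [(0, [0], [0, 1]), (0, [0], [2, 3]), (0, [1], [1, 3]), (4, [], [4]), (0, [1], [0, 5]), (1, [], [4, 6]), (1, [], [2, 5]), (4, [], [6])]),
  (2, 6, [(0, [0], [0, 1]), (0, [0], [2, 3]), (0, [1], [1, 3]), (4, [], [4]), (0, [1], [0, 5]), (1, [], [2, 5]), (4, [], [4])]),
  (2, 6, [(0, [0], [0, 1]), (0, [0], [2, 3]), (0, [1], [1, 3]), (4, [], [4]), (0, [1], [4, 5]), (1, [], [0, 2]), (4, [], [5])]),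
  (2, 7, [(0, [0], [0, 1]), (0, [0], [2, 3]), (0, [1], [1, 3]), (4, [], [4]), (0, [1], [0, 2]), (1, [], [5, 6]), (1, [], [4, 5]), (4, [], [6])]),
  (2, 6, [(0, [0], [0, 1]), (0, [0], [2, 3]), (0, [1], [1, 3]), (4, [], [4]), (0, [1], [0, 2]), (1, [], [4, 5]), (4, [], [5])]),
  (2, 5, [(0, [0], [0, 1]), (0, [0], [2, 3]), (0, [1], [1, 3]), (4, [], [4]), (0, [1], [0, 2]), (4, [], [4])]),
  (2, 7, [(0, [0], [0, 1]), (0, [0], [2, 3]), (0, [1], [4, 3]), (4, [], [1]), (0, [1], [5, 6]), (1, [], [5, 6]), (1, [], [2, 4]), (4, [], [0])]),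
  (2, 7, [(0, [0], [0, 1]), (0, [0], [2, 3]), (0, [1], [4, 3]), (4, [], [1]), (0, [1], [5, 6]), (1, [], [2, 5]), (1, [], [4, 6]), (4, [], [0])]),
  (2, 7, [(0, [0], [0, 1]), (0, [0], [2, 3]), (0, [1], [4, 3]), (4, [], [1]), (0, [1], [5, 6]), (1, [], [0, 5]), (1, [], [2, 4]), (4, [], [6])]),
  (2, 7, [(0, [0], [0, 1]), (0, [0], [2, 3]), (0, [1], [4, 3]), (4, [], [1]), (0, [1], [5, 6]), (1, [], [2, 5]), (1, [], [0, 4]), (4, [], [6])]),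
  (2, 7, [(0, [0], [0, 1]), (0, [0], [2, 3]), (0, [1], [4, 3]), (4, [], [1]), (0, [1], [5, 6]), (1, [], [4, 5]), (1, [], [0, 2]), (4, [], [6])]),
  (2, 7, [(0, [0], [0, 1]), (0, [0], [2, 1]), (0, [1], [3, 4]), (4, [], [4]), (0, [1], [5, 6]), (1, [], [5, 6]), (1, [], [0, 2]), (4, [], [3])]),
  (2, 7, [(0, [0], [0, 1]), (0, [0], [2, 1]), (0, [1], [3, 4]), (4, [], [4]), (0, [1], [5, 6]), (1, [], [3, 5]), (1, [], [0, 2]), (4, [], [6])]),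
  (2, 7, [(0, [0], [0, 1]), (0, [0], [2, 1]), (0, [1], [3, 4]), (4, [], [5]), (0, [1], [3, 6]), (1, [], [4, 6]), (1, [], [0, 2]), (4, [], [5])]),
  (2, 7, [(0, [0], [0, 1]), (0, [0], [2, 3]), (0, [1], [4, 1]), (4, [], [5]), (0, [1], [2, 6]), (1, [], [0, 6]), (1, [], [3, 4]), (4, [], [5])]),
  (2, 7, [(0, [0], [0, 1]), (0, [0], [2, 3]), (0, [1], [4, 1]), (4, [], [5]), (0, [1], [2, 6]), (1, [], [3, 6]), (1, [], [0, 4]), (4, [], [5])])]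

def kl45 : List ℕ := [6, 10, 26, 34, 42, 45, 50, 51, 55, 56, 75, 83, 84, 86, 87, 88, 89, 90, 99, 100, 101, 102, 103, 104, 106, 113, 114, 115, 117, 127, 128, 129, 131, 134, 135, 136, 137, 138, 139, 141, 142, 145, 146, 147, 149, 150, 226, 227, 228, 229, 230, 231, 232, 233, 234, 235, 236, 238, 244, 245, 255, 257, 260, 271, 272, 273, 274, 275, 278, 279, 280, 289, 290, 291, 292, 293, 294, 295, 296, 297, 298, 299, 305, 306, 307, 308, 309, 310, 311, 312, 313, 317, 318, 319, 323, 324, 325, 326, 327, 332, 335, 423, 431, 432]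

def m45_0 : Base := (1, 1, [(0, [0], [0, 5]), (0, [0], [1, 5]), (1, [], [2, 3]), (4, [], [4])])

def l45_0 : Cov := [(96, 1, 1, [(0, [0], [0, 5]), (0, [0], [1, 5]), (1, [], [2, 3]), (4, [], [4])]),
  (-96, 1, 1, [(0, [0], [0, 5]), (0, [0], [1, 5]), (1, [], [3, 4]), (4, [], [2])]),
  (-96, 1, 1, [(0, [0], [0, 5]), (0, [0], [3, 5]), (1, [], [1, 2]), (4, [], [4])]),
  (96, 1, 1, [(0, [0], [0, 5]), (0, [0], [3, 5]), (1, [], [1, 4]), (4, [], [2])]),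
  (-96, 1, 1, [(0, [0], [1, 5]), (0, [0], [2, 5]), (1, [], [0, 3]), (4, [], [4])]),
  (96, 1, 1, [(0, [0], [1, 5]), (0, [0], [2, 5]), (1, [], [3, 4]), (4, [], [0])]),
  (96, 1, 1, [(0, [0], [1, 5]), (0, [0], [4, 5]), (1, [], [0, 3]), (4, [], [2])]),
  (-96, 1, 1, [(0, [0], [1, 5]), (0, [0], [4, 5]), (1, [], [2, 3]), (4, [], [0])]),
  (96, 1, 1, [(0, [0], [2, 5]), (0, [0], [3, 5]), (1, [], [0, 1]), (4, [], [4])]),
  (-96, 1, 1, [(0, [0], [2, 5]), (0, [0], [3, 5]), (1, [], [1, 4]), (4, [], [0])]),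
  (-96, 1, 1, [(0, [0], [3, 5]), (0, [0], [4, 5]), (1, [], [0, 1]), (4, [], [2])]),
  (96, 1, 1, [(0, [0], [3, 5]), (0, [0], [4, 5]), (1, [], [1, 2]), (4, [], [0])])]

def z45_0 : Cov := [(0, 1, 1, [(0, [0], [0, 5]), (0, [0], [1, 5]), (1, [], [2, 4]), (4, [], [3])]),
  (0, 1, 1, [(0, [0], [0, 5]), (0, [0], [2, 5]), (1, [], [1, 3]), (4, [], [4])]),
  (0, 1, 1, [(0, [0], [0, 5]), (0, [0], [2, 5]), (1, [], [1, 4]), (4, [], [3])]),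
  (0, 1, 1, [(0, [0], [0, 5]), (0, [0], [2, 5]), (1, [], [3, 4]), (4, [], [1])]),
  (0, 1, 1, [(0, [0], [0, 5]), (0, [0], [3, 5]), (1, [], [2, 4]), (4, [], [1])]),
  (0, 1, 1, [(0, [0], [0, 5]), (0, [0], [4, 5]), (1, [], [1, 2]), (4, [], [3])]),
  (0, 1, 1, [(0, [0], [0, 5]), (0, [0], [4, 5]), (1, [], [1, 3]), (4, [], [2])]),
  (0, 1, 1, [(0, [0], [0, 5]), (0, [0], [4, 5]), (1, [], [2, 3]), (4, [], [1])]),
  (0, 1, 1, [(0, [0], [1, 5]), (0, [0], [2, 5]), (1, [], [0, 4]), (4, [], [3])]),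
  (0, 1, 1, [(0, [0], [1, 5]), (0, [0], [3, 5]), (1, [], [0, 2]), (4, [], [4])]),
  (0, 1, 1, [(0, [0], [1, 5]), (0, [0], [3, 5]), (1, [], [0, 4]), (4, [], [2])]),
  (0, 1, 1, [(0, [0], [1, 5]), (0, [0], [3, 5]), (1, [], [2, 4]), (4, [], [0])]),
  (0, 1, 1, [(0, [0], [1, 5]), (0, [0], [4, 5]), (1, [], [0, 2]), (4, [], [3])]),
  (0, 1, 1, [(0, [0], [2, 5]), (0, [0], [3, 5]), (1, [], [0, 4]), (4, [], [1])]),
  (0, 1, 1, [(0, [0], [2, 5]), (0, [0], [4, 5]), (1, [], [0, 1]), (4, [], [3])]),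
  (0, 1, 1, [(0, [0], [2, 5]), (0, [0], [4, 5]), (1, [], [0, 3]), (4, [], [1])]),
  (0, 1, 1, [(0, [0], [2, 5]), (0, [0], [4, 5]), (1, [], [1, 3]), (4, [], [0])]),
  (0, 1, 1, [(0, [0], [3, 5]), (0, [0], [4, 5]), (1, [], [0, 2]), (4, [], [1])])]

def w45_0 : List (List Wit) := [[(0, 0, 0, 0, 0), (12, 0, 0, 0, 0), (0, 0, 0, 0, 0), (1, 0, 0, 0, 0), (12, 0, 0, 0, 0), (1, 0, 0, 0, 0), (13, 0, 0, 0, 0), (14, 0, 0, 0, 0), (13, 0, 0, 0, 0), (15, 0, 0, 0, 0), (14, 0, 0, 0, 0), (15, 0, 0, 0, 0), (2, 0, 0, 0, 0), (3, 0, 0, 0, 0), (2, 0, 0, 0, 0), (16, 0, 0, 0, 0), (3, 0, 0, 0, 0), (16, 0, 0, 0, 0), (17, 0, 0, 0, 0), (18, 0, 0, 0, 0), (17, 0, 0, 0, 0), (19, 0, 0, 0, 0), (18, 0, 0, 0, 0), (19, 0, 0, 0, 0), (0, 0, 0, 0, 0), (12, 0, 0, 0, 0), (0, 0, 0, 0, 0), (1, 0, 0, 0, 0), (12, 0, 0, 0, 0), (1, 0, 0, 0, 0), (4, 0, 0, 0, 0), (20, 0, 0, 0, 0), (4, 0, 0, 0, 0),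 (5, 0, 0, 0, 0), (20, 0, 0, 0, 0), (5, 0, 0, 0, 0), (21, 0, 0, 0, 0), (22, 0, 0, 0, 0), (21, 0, 0, 0, 0), (23, 0, 0, 0, 0), (22, 0, 0, 0, 0), (23, 0, 0, 0, 0), (24, 0, 0, 0, 0), (6, 0, 0, 0, 0), (24, 0, 0, 0, 0), (7, 0, 0, 0, 0), (6, 0, 0, 0, 0), (7, 0, 0, 0, 0), (13, 0, 0, 0, 0), (14, 0, 0, 0, 0), (13, 0, 0, 0, 0), (15, 0, 0, 0, 0), (14, 0, 0, 0, 0), (15, 0, 0, 0, 0), (4, 0, 0, 0, 0), (20, 0, 0, 0, 0), (4, 0, 0, 0, 0), (5, 0, 0, 0, 0), (20, 0, 0, 0, 0), (5, 0, 0, 0, 0), (8, 0, 0, 0, 0), (25, 0, 0, 0, 0), (8, 0, 0, 0, 0), (9, 0, 0, 0, 0), (25, 0, 0, 0, 0), (9, 0, 0, 0, 0), (26, 0, 0, 0, 0), (27, 0, 0, 0, 0), (26, 0, 0, 0, 0), (28, 0, 0, 0, 0), (27, 0, 0, 0, 0), (28, 0, 0, 0, 0), (2, 0, 0, 0, 0), (3, 0, 0, 0, 0), (2, 0, 0, 0, 0), (16, 0, 0, 0, 0), (3, 0, 0, 0, 0), (16, 0, 0, 0, 0), (21, 0, 0, 0, 0), (22, 0, 0, 0, 0), (21, 0, 0, 0, 0), (23, 0, 0, 0,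 0), (22, 0, 0, 0, 0), (23, 0, 0, 0, 0), (8, 0, 0, 0, 0), (25, 0, 0, 0, 0), (8, 0, 0, 0, 0), (9, 0, 0, 0, 0), (25, 0, 0, 0, 0), (9, 0, 0, 0, 0), (10, 0, 0, 0, 0), (29, 0, 0, 0, 0), (10, 0, 0, 0, 0), (11, 0, 0, 0, 0), (29, 0, 0, 0, 0), (11, 0, 0, 0, 0), (17, 0, 0, 0, 0), (18, 0, 0, 0, 0), (17, 0, 0, 0, 0), (19, 0, 0, 0, 0), (18, 0, 0, 0, 0), (19, 0, 0, 0, 0), (24, 0, 0, 0, 0), (6, 0, 0, 0, 0), (24, 0, 0, 0, 0), (7, 0, 0, 0, 0), (6, 0, 0, 0, 0), (7, 0, 0, 0, 0), (26, 0, 0, 0, 0), (27, 0, 0, 0, 0), (26, 0, 0, 0, 0), (28, 0, 0, 0, 0), (27, 0, 0, 0, 0), (28, 0, 0, 0, 0), (10, 0, 0, 0, 0), (29, 0, 0, 0, 0), (10, 0, 0, 0, 0), (11, 0, 0, 0, 0), (29, 0, 0, 0, 0), (11, 0, 0, 0, 0)]]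

def m45_1 : Base := (1, 1, [(0, [0], [0, 5]), (0, [0], [1, 2]), (1, [], [3, 5]), (4, [], [4])])

def l45_1 : Cov := [(64, 1, 1, [(0, [0], [0, 5]), (0, [0], [1, 2]), (1, [], [3, 5]), (4, [], [4])]),
  (32, 1, 1, [(0, [0], [0, 5]), (0, [0], [1, 2]), (1, [], [4, 5]), (4, [], [3])]),
  (-32, 1, 1, [(0, [0], [0, 5]), (0, [0], [1, 4]), (1, [], [2, 5]), (4, [], [3])]),
  (-64, 1, 1, [(0, [0], [0, 5]), (0, [0], [1, 4]), (1, [], [3, 5]), (4, [], [2])]),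
  (-64, 1, 1, [(0, [0], [0, 5]), (0, [0], [2, 3]), (1, [], [1, 5]), (4, [], [4])]),
  (-32, 1, 1, [(0, [0], [0, 5]), (0, [0], [2, 3]), (1, [], [4, 5]), (4, [], [1])]),
  (64, 1, 1, [(0, [0], [0, 5]), (0, [0], [3, 4]), (1, [], [1, 5]), (4, [], [2])]),
  (32, 1, 1, [(0, [0], [0, 5]), (0, [0], [3, 4]), (1, [], [2, 5]), (4, [], [1])]),
  (32, 1, 1, [(0, [0], [1, 5]), (0, [0], [0, 3]), (1, [], [2, 5]), (4, [], [4])]),
  (-32, 1, 1, [(0, [0], [1, 5]), (0, [0], [0, 3]), (1, [], [4, 5]), (4, [], [2])]),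
  (-32, 1, 1, [(0, [0], [1, 5]), (0, [0], [2, 3]), (1, [], [0, 5]), (4, [], [4])]),
  (32, 1, 1, [(0, [0], [1, 5]), (0, [0], [2, 3]), (1, [], [4, 5]), (4, [], [0])]),
  (32, 1, 1, [(0, [0], [1, 5]), (0, [0], [3, 4]), (1, [], [0, 5]), (4, [], [2])]),
  (-32, 1, 1, [(0, [0], [1, 5]), (0, [0], [3, 4]), (1, [], [2, 5]), (4, [], [0])]),
  (-64, 1, 1, [(0, [0], [2, 5]), (0, [0], [0, 1]), (1, [], [3, 5]), (4, [], [4])]),
  (-32, 1, 1, [(0, [0], [2, 5]), (0, [0], [0, 1]), (1, [], [4, 5]), (4, [], [3])]),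
  (64, 1, 1, [(0, [0], [2, 5]), (0, [0], [0, 3]), (1, [], [1, 5]), (4, [], [4])]),
  (32, 1, 1, [(0, [0], [2, 5]), (0, [0], [0, 3]), (1, [], [4, 5]), (4, [], [1])]),
  (32, 1, 1, [(0, [0], [2, 5]), (0, [0], [1, 4]), (1, [], [0, 5]), (4, [], [3])]),
  (64, 1, 1, [(0, [0], [2, 5]), (0, [0], [1, 4]), (1, [], [3, 5]), (4, [], [0])]),
  (-32, 1, 1, [(0, [0], [2, 5]), (0, [0], [3, 4]), (1, [], [0, 5]), (4, [], [1])]),
  (-64, 1, 1, [(0, [0], [2, 5]), (0, [0], [3, 4]), (1, [], [1, 5]), (4, [], [0])]),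
  (-32, 1, 1, [(0, [0], [3, 5]), (0, [0], [0, 1]), (1, [], [2, 5]), (4, [], [4])]),
  (32, 1, 1, [(0, [0], [3, 5]), (0, [0], [0, 1]), (1, [], [4, 5]), (4, [], [2])]),
  (32, 1, 1, [(0, [0], [3, 5]), (0, [0], [1, 2]), (1, [], [0, 5]), (4, [], [4])]),
  (-32, 1, 1, [(0, [0], [3, 5]), (0, [0], [1, 2]), (1, [], [4, 5]), (4, [], [0])]),
  (-32, 1, 1, [(0, [0], [3, 5]), (0, [0], [1, 4]), (1, [], [0, 5]), (4, [], [2])]),
  (32, 1, 1, [(0, [0], [3, 5]), (0, [0], [1, 4]), (1, [], [2, 5]), (4, [], [0])]),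
  (32, 1, 1, [(0, [0], [4, 5]), (0, [0], [0, 1]), (1, [], [2, 5]), (4, [], [3])]),
  (64, 1, 1, [(0, [0], [4, 5]), (0, [0], [0, 1]), (1, [], [3, 5]), (4, [], [2])]),
  (-64, 1, 1, [(0, [0], [4, 5]), (0, [0], [0, 3]), (1, [], [1, 5]), (4, [], [2])]),
  (-32, 1, 1, [(0, [0], [4, 5]), (0, [0], [0, 3]), (1, [], [2, 5]), (4, [], [1])]),
  (-32, 1, 1, [(0, [0], [4, 5]), (0, [0], [1, 2]), (1, [], [0, 5]), (4, [], [3])]),
  (-64, 1, 1, [(0, [0], [4, 5]), (0, [0], [1, 2]), (1, [], [3, 5]), (4, [], [0])]),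
  (32, 1, 1, [(0, [0], [4, 5]), (0, [0], [2, 3]), (1, [], [0, 5]), (4, [], [1])]),
  (64, 1, 1, [(0, [0], [4, 5]), (0, [0], [2, 3]), (1, [], [1, 5]), (4, [], [0])])]

def z45_1 : Cov := [(0, 1, 1, [(0, [0], [0, 5]), (0, [0], [1, 3]), (1, [], [2, 5]), (4, [], [4])]),
  (0, 1, 1, [(0, [0], [0, 5]), (0, [0], [1, 3]), (1, [], [4, 5]), (4, [], [2])]),
  (0, 1, 1, [(0, [0], [0, 5]), (0, [0], [2, 4]), (1, [], [1, 5]), (4, [], [3])]),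
  (0, 1, 1, [(0, [0], [0, 5]), (0, [0], [2, 4]), (1, [], [3, 5]), (4, [], [1])]),
  (0, 1, 1, [(0, [0], [1, 5]), (0, [0], [0, 2]), (1, [], [3, 5]), (4, [], [4])]),
  (0, 1, 1, [(0, [0], [1, 5]), (0, [0], [0, 2]), (1, [], [4, 5]), (4, [], [3])]),
  (0, 1, 1, [(0, [0], [1, 5]), (0, [0], [0, 4]), (1, [], [2, 5]), (4, [], [3])]),
  (0, 1, 1, [(0, [0], [1, 5]), (0, [0], [0, 4]), (1, [], [3, 5]), (4, [], [2])]),
  (0, 1, 1, [(0, [0], [1, 5]), (0, [0], [2, 4]), (1, [], [0, 5]), (4, [], [3])]),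
  (0, 1, 1, [(0, [0], [1, 5]), (0, [0], [2, 4]), (1, [], [3, 5]), (4, [], [0])]),
  (0, 1, 1, [(0, [0], [2, 5]), (0, [0], [0, 4]), (1, [], [1, 5]), (4, [], [3])]),
  (0, 1, 1, [(0, [0], [2, 5]), (0, [0], [0, 4]), (1, [], [3, 5]), (4, [], [1])]),
  (0, 1, 1, [(0, [0], [2, 5]), (0, [0], [1, 3]), (1, [], [0, 5]), (4, [], [4])]),
  (0, 1, 1, [(0, [0], [2, 5]), (0, [0], [1, 3]), (1, [], [4, 5]), (4, [], [0])]),
  (0, 1, 1, [(0, [0], [3, 5]), (0, [0], [0, 2]), (1, [], [1, 5]), (4, [], [4])]),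
  (0, 1, 1, [(0, [0], [3, 5]), (0, [0], [0, 2]), (1, [], [4, 5]), (4, [], [1])]),
  (0, 1, 1, [(0, [0], [3, 5]), (0, [0], [0, 4]), (1, [], [1, 5]), (4, [], [2])]),
  (0, 1, 1, [(0, [0], [3, 5]), (0, [0], [0, 4]), (1, [], [2, 5]), (4, [], [1])]),
  (0, 1, 1, [(0, [0], [3, 5]), (0, [0], [2, 4]), (1, [], [0, 5]), (4, [], [1])]),
  (0, 1, 1, [(0, [0], [3, 5]), (0, [0], [2, 4]), (1, [], [1, 5]), (4, [], [0])]),
  (0, 1, 1, [(0, [0], [4, 5]), (0, [0], [0, 2]), (1, [], [1, 5]), (4, [], [3])]),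
  (0, 1, 1, [(0, [0], [4, 5]), (0, [0], [0, 2]), (1, [], [3, 5]), (4, [], [1])]),
  (0, 1, 1, [(0, [0], [4, 5]), (0, [0], [1, 3]), (1, [], [0, 5]), (4, [], [2])]),
  (0, 1, 1, [(0, [0], [4, 5]), (0, [0], [1, 3]), (1, [], [2, 5]), (4, [], [0])])]

def w45_1 : List (List Wit) := [[(0, 0, 0, 0, 0), (1, 0, 0, 0, 0), (36, 0, 0, 0, 0), (37, 0, 0, 0, 0), (2, 0, 0, 0, 0), (3, 0, 0, 0, 0), (0, 0, 0, 0, 0), (1, 0, 0, 0, 0), (4, 0, 0, 0, 0), (5, 0, 0, 0, 0), (38, 0, 0, 0, 0), (39, 0, 0, 0, 0), (36, 0, 0, 0, 0), (37, 0, 0, 0, 0), (4, 0, 0, 0, 0), (5, 0, 0, 0, 0), (6, 0, 0, 0, 0), (7, 0, 0, 0, 0), (2, 0, 0, 0, 0), (3, 0, 0, 0, 0), (38, 0, 0, 0, 0), (39, 0, 0, 0, 0), (6, 0, 0, 0, 0), (7, 0, 0, 0, 0), (40, 0, 0, 0, 0), (41, 0, 0, 0, 0), (8, 0, 0, 0, 0), (9, 0, 0, 0, 0), (42, 0, 0, 0, 0), (43, 0, 0, 0, 0), (40, 0, 0, 0, 0), (41, 0, 0, 0, 0), (10, 0, 0, 0, 0), (11,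 0, 0, 0, 0), (44, 0, 0, 0, 0), (45, 0, 0, 0, 0), (8, 0, 0, 0, 0), (9, 0, 0, 0, 0), (10, 0, 0, 0, 0), (11, 0, 0, 0, 0), (12, 0, 0, 0, 0), (13, 0, 0, 0, 0), (42, 0, 0, 0, 0), (43, 0, 0, 0, 0), (44, 0, 0, 0, 0), (45, 0, 0, 0, 0), (12, 0, 0, 0, 0), (13, 0, 0, 0, 0), (14, 0, 0, 0, 0), (15, 0, 0, 0, 0), (16, 0, 0, 0, 0), (17, 0, 0, 0, 0), (46, 0, 0, 0, 0), (47, 0, 0, 0, 0), (14, 0, 0, 0, 0), (15, 0, 0, 0, 0), (48, 0, 0, 0, 0), (49, 0, 0, 0, 0), (18, 0, 0, 0, 0), (19, 0, 0, 0, 0), (16, 0, 0, 0, 0), (17, 0, 0, 0, 0), (48, 0, 0, 0, 0), (49, 0, 0, 0, 0), (20, 0, 0, 0, 0), (21, 0, 0, 0, 0), (46, 0, 0, 0, 0), (47, 0, 0, 0, 0), (18, 0, 0, 0, 0), (19, 0, 0, 0, 0), (20, 0, 0, 0, 0), (21, 0, 0, 0, 0), (22, 0, 0, 0, 0), (23, 0, 0, 0, 0), (50, 0, 0, 0, 0), (51, 0, 0, 0, 0), (52, 0, 0, 0, 0), (53, 0, 0, 0, 0), (22, 0, 0, 0, 0), (23, 0, 0, 0, 0), (24, 0, 0, 0, 0), (25,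 0, 0, 0, 0), (26, 0, 0, 0, 0), (27, 0, 0, 0, 0), (50, 0, 0, 0, 0), (51, 0, 0, 0, 0), (24, 0, 0, 0, 0), (25, 0, 0, 0, 0), (54, 0, 0, 0, 0), (55, 0, 0, 0, 0), (52, 0, 0, 0, 0), (53, 0, 0, 0, 0), (26, 0, 0, 0, 0), (27, 0, 0, 0, 0), (54, 0, 0, 0, 0), (55, 0, 0, 0, 0), (28, 0, 0, 0, 0), (29, 0, 0, 0, 0), (56, 0, 0, 0, 0), (57, 0, 0, 0, 0), (30, 0, 0, 0, 0), (31, 0, 0, 0, 0), (28, 0, 0, 0, 0), (29, 0, 0, 0, 0), (32, 0, 0, 0, 0), (33, 0, 0, 0, 0), (58, 0, 0, 0, 0), (59, 0, 0, 0, 0), (56, 0, 0, 0, 0), (57, 0, 0, 0, 0), (32, 0, 0, 0, 0), (33, 0, 0, 0, 0), (34, 0, 0, 0, 0), (35, 0, 0, 0, 0), (30, 0, 0, 0, 0), (31, 0, 0, 0, 0), (58, 0, 0, 0, 0), (59, 0, 0, 0, 0), (34, 0, 0, 0, 0), (35, 0, 0, 0, 0)]]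

def m45_2 : Base := (1, 1, [(0, [0], [0, 5]), (0, [0], [1, 2]), (1, [], [3, 4]), (4, [], [5])])

def l45_2 : Cov := [(96, 1, 1, [(0, [0], [0, 5]), (0, [0], [1, 2]), (1, [], [3, 4]), (4, [], [5])]),
  (-96, 1, 1, [(0, [0], [0, 5]), (0, [0], [1, 4]), (1, [], [2, 3]), (4, [], [5])]),
  (-96, 1, 1, [(0, [0], [0, 5]), (0, [0], [2, 3]), (1, [], [1, 4]), (4, [], [5])]),
  (96, 1, 1, [(0, [0], [0, 5]), (0, [0], [3, 4]), (1, [], [1, 2]), (4, [], [5])]),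
  (-96, 1, 1, [(0, [0], [2, 5]), (0, [0], [0, 1]), (1, [], [3, 4]), (4, [], [5])]),
  (96, 1, 1, [(0, [0], [2, 5]), (0, [0], [0, 3]), (1, [], [1, 4]), (4, [], [5])]),
  (96, 1, 1, [(0, [0], [2, 5]), (0, [0], [1, 4]), (1, [], [0, 3]), (4, [], [5])]),
  (-96, 1, 1, [(0, [0], [2, 5]), (0, [0], [3, 4]), (1, [], [0, 1]), (4, [], [5])]),
  (96, 1, 1, [(0, [0], [4, 5]), (0, [0], [0, 1]), (1, [], [2, 3]), (4, [], [5])]),
  (-96, 1, 1, [(0, [0], [4, 5]), (0, [0], [0, 3]), (1, [], [1, 2]), (4, [], [5])]),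
  (-96, 1, 1, [(0, [0], [4, 5]), (0, [0], [1, 2]), (1, [], [0, 3]), (4, [], [5])]),
  (96, 1, 1, [(0, [0], [4, 5]), (0, [0], [2, 3]), (1, [], [0, 1]), (4, [], [5])])]

def z45_2 : Cov := [(0, 1, 1, [(0, [0], [0, 5]), (0, [0], [1, 3]), (1, [], [2, 4]), (4, [], [5])]),
  (0, 1, 1, [(0, [0], [0, 5]), (0, [0], [2, 4]), (1, [], [1, 3]), (4, [], [5])]),
  (0, 1, 1, [(0, [0], [1, 5]), (0, [0], [0, 2]), (1, [], [3, 4]), (4, [], [5])]),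
  (0, 1, 1, [(0, [0], [1, 5]), (0, [0], [0, 3]), (1, [], [2, 4]), (4, [], [5])]),
  (0, 1, 1, [(0, [0], [1, 5]), (0, [0], [0, 4]), (1, [], [2, 3]), (4, [], [5])]),
  (0, 1, 1, [(0, [0], [1, 5]), (0, [0], [2, 3]), (1, [], [0, 4]), (4, [], [5])]),
  (0, 1, 1, [(0, [0], [1, 5]), (0, [0], [2, 4]), (1, [], [0, 3]), (4, [], [5])]),
  (0, 1, 1, [(0, [0], [1, 5]), (0, [0], [3, 4]), (1, [], [0, 2]), (4, [], [5])]),
  (0, 1, 1, [(0, [0], [2, 5]), (0, [0], [0, 4]), (1, [], [1, 3]), (4, [], [5])]),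
  (0, 1, 1, [(0, [0], [2, 5]), (0, [0], [1, 3]), (1, [], [0, 4]), (4, [], [5])]),
  (0, 1, 1, [(0, [0], [3, 5]), (0, [0], [0, 1]), (1, [], [2, 4]), (4, [], [5])]),
  (0, 1, 1, [(0, [0], [3, 5]), (0, [0], [0, 2]), (1, [], [1, 4]), (4, [], [5])]),
  (0, 1, 1, [(0, [0], [3, 5]), (0, [0], [0, 4]), (1, [], [1, 2]), (4, [], [5])]),
  (0, 1, 1, [(0, [0], [3, 5]), (0, [0], [1, 2]), (1, [], [0, 4]), (4, [], [5])]),
  (0, 1, 1, [(0, [0], [3, 5]), (0, [0], [1, 4]), (1, [], [0, 2]), (4, [], [5])]),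
  (0, 1, 1, [(0, [0], [3, 5]), (0, [0], [2, 4]), (1, [], [0, 1]), (4, [], [5])]),
  (0, 1, 1, [(0, [0], [4, 5]), (0, [0], [0, 2]), (1, [], [1, 3]), (4, [], [5])]),
  (0, 1, 1, [(0, [0], [4, 5]), (0, [0], [1, 3]), (1, [], [0, 2]), (4, [], [5])])]

def w45_2 : List (List Wit) := [[(0, 0, 0, 0, 0), (0, 0, 0, 0, 0), (12, 0, 0, 0, 0), (12, 0, 0, 0, 0), (1, 0, 0, 0, 0), (1, 0, 0, 0, 0), (0, 0, 0, 0, 0), (0, 0, 0, 0, 0), (2, 0, 0, 0, 0), (2, 0, 0, 0, 0), (13, 0, 0, 0, 0), (13, 0, 0, 0, 0), (12, 0, 0, 0, 0), (12, 0, 0, 0, 0), (2, 0, 0, 0, 0), (2, 0, 0, 0, 0), (3, 0, 0, 0, 0), (3, 0, 0, 0, 0), (1, 0, 0, 0, 0), (1, 0, 0, 0, 0), (13, 0, 0, 0, 0), (13, 0, 0, 0, 0), (3, 0, 0, 0, 0), (3, 0, 0, 0, 0), (14, 0, 0, 0, 0), (14, 0, 0, 0, 0), (15, 0, 0, 0, 0), (15, 0, 0, 0, 0), (16, 0, 0, 0, 0), (16, 0, 0, 0, 0), (14, 0, 0, 0, 0), (14, 0, 0, 0, 0), (17, 0, 0, 0, 0), (17,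 0, 0, 0, 0), (18, 0, 0, 0, 0), (18, 0, 0, 0, 0), (15, 0, 0, 0, 0), (15, 0, 0, 0, 0), (17, 0, 0, 0, 0), (17, 0, 0, 0, 0), (19, 0, 0, 0, 0), (19, 0, 0, 0, 0), (16, 0, 0, 0, 0), (16, 0, 0, 0, 0), (18, 0, 0, 0, 0), (18, 0, 0, 0, 0), (19, 0, 0, 0, 0), (19, 0, 0, 0, 0), (4, 0, 0, 0, 0), (4, 0, 0, 0, 0), (5, 0, 0, 0, 0), (5, 0, 0, 0, 0), (20, 0, 0, 0, 0), (20, 0, 0, 0, 0), (4, 0, 0, 0, 0), (4, 0, 0, 0, 0), (21, 0, 0, 0, 0), (21, 0, 0, 0, 0), (6, 0, 0, 0, 0), (6, 0, 0, 0, 0), (5, 0, 0, 0, 0), (5, 0, 0, 0, 0), (21, 0, 0, 0, 0), (21, 0, 0, 0, 0), (7, 0, 0, 0, 0), (7, 0, 0, 0, 0), (20, 0, 0, 0, 0), (20, 0, 0, 0, 0), (6, 0, 0, 0, 0), (6, 0, 0, 0, 0), (7, 0, 0, 0, 0), (7, 0, 0, 0, 0), (22, 0, 0, 0, 0), (22, 0, 0, 0, 0), (23, 0, 0, 0, 0), (23, 0, 0, 0, 0), (24, 0, 0, 0, 0), (24, 0, 0, 0, 0), (22, 0, 0, 0, 0), (22, 0, 0, 0, 0), (25, 0, 0, 0, 0), (25, 0, 0, 0, 0),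 (26, 0, 0, 0, 0), (26, 0, 0, 0, 0), (23, 0, 0, 0, 0), (23, 0, 0, 0, 0), (25, 0, 0, 0, 0), (25, 0, 0, 0, 0), (27, 0, 0, 0, 0), (27, 0, 0, 0, 0), (24, 0, 0, 0, 0), (24, 0, 0, 0, 0), (26, 0, 0, 0, 0), (26, 0, 0, 0, 0), (27, 0, 0, 0, 0), (27, 0, 0, 0, 0), (8, 0, 0, 0, 0), (8, 0, 0, 0, 0), (28, 0, 0, 0, 0), (28, 0, 0, 0, 0), (9, 0, 0, 0, 0), (9, 0, 0, 0, 0), (8, 0, 0, 0, 0), (8, 0, 0, 0, 0), (10, 0, 0, 0, 0), (10, 0, 0, 0, 0), (29, 0, 0, 0, 0), (29, 0, 0, 0, 0), (28, 0, 0, 0, 0), (28, 0, 0, 0, 0), (10, 0, 0, 0, 0), (10, 0, 0, 0, 0), (11, 0, 0, 0, 0), (11, 0, 0, 0, 0), (9, 0, 0, 0, 0), (9, 0, 0, 0, 0), (29, 0, 0, 0, 0), (29, 0, 0, 0, 0), (11, 0, 0, 0, 0), (11, 0, 0, 0, 0)]]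

def m45_3 : Base := (1, 1, [(0, [0], [0, 5]), (0, [0], [1, 2]), (1, [], [4, 5]), (4, [], [3])])

def l45_3 : Cov := [(64, 1, 1, [(0, [0], [0, 5]), (0, [0], [1, 2]), (1, [], [4, 5]), (4, [], [3])]),
  (32, 1, 1, [(0, [0], [0, 5]), (0, [0], [1, 2]), (1, [], [3, 5]), (4, [], [4])]),
  (-32, 1, 1, [(0, [0], [0, 5]), (0, [0], [1, 4]), (1, [], [3, 5]), (4, [], [2])]),
  (-64, 1, 1, [(0, [0], [0, 5]), (0, [0], [1, 4]), (1, [], [2, 5]), (4, [], [3])]),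
  (-64, 1, 1, [(0, [0], [0, 5]), (0, [0], [2, 3]), (1, [], [4, 5]), (4, [], [1])]),
  (-32, 1, 1, [(0, [0], [0, 5]), (0, [0], [2, 3]), (1, [], [1, 5]), (4, [], [4])]),
  (64, 1, 1, [(0, [0], [0, 5]), (0, [0], [3, 4]), (1, [], [2, 5]), (4, [], [1])]),
  (32, 1, 1, [(0, [0], [0, 5]), (0, [0], [3, 4]), (1, [], [1, 5]), (4, [], [2])]),
  (32, 1, 1, [(0, [0], [1, 5]), (0, [0], [0, 3]), (1, [], [4, 5]), (4, [], [2])]),
  (-32, 1, 1, [(0, [0], [1, 5]), (0, [0], [0, 3]), (1, [], [2, 5]), (4, [], [4])]),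
  (-32, 1, 1, [(0, [0], [1, 5]), (0, [0], [2, 3]), (1, [], [4, 5]), (4, [], [0])]),
  (32, 1, 1, [(0, [0], [1, 5]), (0, [0], [2, 3]), (1, [], [0, 5]), (4, [], [4])]),
  (32, 1, 1, [(0, [0], [1, 5]), (0, [0], [3, 4]), (1, [], [2, 5]), (4, [], [0])]),
  (-32, 1, 1, [(0, [0], [1, 5]), (0, [0], [3, 4]), (1, [], [0, 5]), (4, [], [2])]),
  (-64, 1, 1, [(0, [0], [2, 5]), (0, [0], [0, 1]), (1, [], [4, 5]), (4, [], [3])]),
  (-32, 1, 1, [(0, [0], [2, 5]), (0, [0], [0, 1]), (1, [], [3, 5]), (4, [], [4])]),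
  (64, 1, 1, [(0, [0], [2, 5]), (0, [0], [0, 3]), (1, [], [4, 5]), (4, [], [1])]),
  (32, 1, 1, [(0, [0], [2, 5]), (0, [0], [0, 3]), (1, [], [1, 5]), (4, [], [4])]),
  (32, 1, 1, [(0, [0], [2, 5]), (0, [0], [1, 4]), (1, [], [3, 5]), (4, [], [0])]),
  (64, 1, 1, [(0, [0], [2, 5]), (0, [0], [1, 4]), (1, [], [0, 5]), (4, [], [3])]),
  (-32, 1, 1, [(0, [0], [2, 5]), (0, [0], [3, 4]), (1, [], [1, 5]), (4, [], [0])]),
  (-64, 1, 1, [(0, [0], [2, 5]), (0, [0], [3, 4]), (1, [], [0, 5]), (4, [], [1])]),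
  (-32, 1, 1, [(0, [0], [3, 5]), (0, [0], [0, 1]), (1, [], [4, 5]), (4, [], [2])]),
  (32, 1, 1, [(0, [0], [3, 5]), (0, [0], [0, 1]), (1, [], [2, 5]), (4, [], [4])]),
  (32, 1, 1, [(0, [0], [3, 5]), (0, [0], [1, 2]), (1, [], [4, 5]), (4, [], [0])]),
  (-32, 1, 1, [(0, [0], [3, 5]), (0, [0], [1, 2]), (1, [], [0, 5]), (4, [], [4])]),
  (-32, 1, 1, [(0, [0], [3, 5]), (0, [0], [1, 4]), (1, [], [2, 5]), (4, [], [0])]),
  (32, 1, 1, [(0, [0], [3, 5]), (0, [0], [1, 4]), (1, [], [0, 5]), (4, [], [2])]),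
  (32, 1, 1, [(0, [0], [4, 5]), (0, [0], [0, 1]), (1, [], [3, 5]), (4, [], [2])]),
  (64, 1, 1, [(0, [0], [4, 5]), (0, [0], [0, 1]), (1, [], [2, 5]), (4, [], [3])]),
  (-64, 1, 1, [(0, [0], [4, 5]), (0, [0], [0, 3]), (1, [], [2, 5]), (4, [], [1])]),
  (-32, 1, 1, [(0, [0], [4, 5]), (0, [0], [0, 3]), (1, [], [1, 5]), (4, [], [2])]),
  (-32, 1, 1, [(0, [0], [4, 5]), (0, [0], [1, 2]), (1, [], [3, 5]), (4, [], [0])]),
  (-64, 1, 1, [(0, [0], [4, 5]), (0, [0], [1, 2]), (1, [], [0, 5]), (4, [], [3])]),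
  (32, 1, 1, [(0, [0], [4, 5]), (0, [0], [2, 3]), (1, [], [1, 5]), (4, [], [0])]),
  (64, 1, 1, [(0, [0], [4, 5]), (0, [0], [2, 3]), (1, [], [0, 5]), (4, [], [1])])]

def z45_3 : Cov := [(0, 1, 1, [(0, [0], [0, 5]), (0, [0], [1, 3]), (1, [], [4, 5]), (4, [], [2])]),
  (0, 1, 1, [(0, [0], [0, 5]), (0, [0], [1, 3]), (1, [], [2, 5]), (4, [], [4])]),
  (0, 1, 1, [(0, [0], [0, 5]), (0, [0], [2, 4]), (1, [], [3, 5]), (4, [], [1])]),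
  (0, 1, 1, [(0, [0], [0, 5]), (0, [0], [2, 4]), (1, [], [1, 5]), (4, [], [3])]),
  (0, 1, 1, [(0, [0], [1, 5]), (0, [0], [0, 2]), (1, [], [4, 5]), (4, [], [3])]),
  (0, 1, 1, [(0, [0], [1, 5]), (0, [0], [0, 2]), (1, [], [3, 5]), (4, [], [4])]),
  (0, 1, 1, [(0, [0], [1, 5]), (0, [0], [0, 4]), (1, [], [3, 5]), (4, [], [2])]),
  (0, 1, 1, [(0, [0], [1, 5]), (0, [0], [0, 4]), (1, [], [2, 5]), (4, [], [3])]),
  (0, 1, 1, [(0, [0], [1, 5]), (0, [0], [2, 4]), (1, [], [3, 5]), (4, [], [0])]),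
  (0, 1, 1, [(0, [0], [1, 5]), (0, [0], [2, 4]), (1, [], [0, 5]), (4, [], [3])]),
  (0, 1, 1, [(0, [0], [2, 5]), (0, [0], [0, 4]), (1, [], [3, 5]), (4, [], [1])]),
  (0, 1, 1, [(0, [0], [2, 5]), (0, [0], [0, 4]), (1, [], [1, 5]), (4, [], [3])]),
  (0, 1, 1, [(0, [0], [2, 5]), (0, [0], [1, 3]), (1, [], [4, 5]), (4, [], [0])]),
  (0, 1, 1, [(0, [0], [2, 5]), (0, [0], [1, 3]), (1, [], [0, 5]), (4, [], [4])]),
  (0, 1, 1, [(0, [0], [3, 5]), (0, [0], [0, 2]), (1, [], [4, 5]), (4, [], [1])]),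
  (0, 1, 1, [(0, [0], [3, 5]), (0, [0], [0, 2]), (1, [], [1, 5]), (4, [], [4])]),
  (0, 1, 1, [(0, [0], [3, 5]), (0, [0], [0, 4]), (1, [], [2, 5]), (4, [], [1])]),
  (0, 1, 1, [(0, [0], [3, 5]), (0, [0], [0, 4]), (1, [], [1, 5]), (4, [], [2])]),
  (0, 1, 1, [(0, [0], [3, 5]), (0, [0], [2, 4]), (1, [], [1, 5]), (4, [], [0])]),
  (0, 1, 1, [(0, [0], [3, 5]), (0, [0], [2, 4]), (1, [], [0, 5]), (4, [], [1])]),
  (0, 1, 1, [(0, [0], [4, 5]), (0, [0], [0, 2]), (1, [], [3, 5]), (4, [], [1])]),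
  (0, 1, 1, [(0, [0], [4, 5]), (0, [0], [0, 2]), (1, [], [1, 5]), (4, [], [3])]),
  (0, 1, 1, [(0, [0], [4, 5]), (0, [0], [1, 3]), (1, [], [2, 5]), (4, [], [0])]),
  (0, 1, 1, [(0, [0], [4, 5]), (0, [0], [1, 3]), (1, [], [0, 5]), (4, [], [2])])]

def w45_3 : List (List Wit) := [[(0, 0, 0, 0, 0), (1, 0, 0, 0, 0), (36, 0, 0, 0, 0), (37, 0, 0, 0, 0), (2, 0, 0, 0, 0), (3, 0, 0, 0, 0), (0, 0, 0, 0, 0), (1, 0, 0, 0, 0), (4, 0, 0, 0, 0), (5, 0, 0, 0, 0), (38, 0, 0, 0, 0), (39, 0, 0, 0, 0), (36, 0, 0, 0, 0), (37, 0, 0, 0, 0), (4, 0, 0, 0, 0), (5, 0, 0, 0, 0), (6, 0, 0, 0, 0), (7, 0, 0, 0, 0), (2, 0, 0, 0, 0), (3, 0, 0, 0, 0), (38, 0, 0, 0, 0), (39, 0, 0, 0, 0), (6, 0, 0, 0, 0), (7, 0, 0, 0, 0), (40, 0, 0, 0, 0), (41, 0, 0, 0, 0), (8, 0, 0, 0, 0), (9, 0, 0, 0, 0), (42, 0, 0, 0, 0), (43, 0, 0, 0, 0), (40, 0, 0, 0, 0), (41, 0, 0, 0, 0), (10, 0, 0, 0, 0), (11,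 0, 0, 0, 0), (44, 0, 0, 0, 0), (45, 0, 0, 0, 0), (8, 0, 0, 0, 0), (9, 0, 0, 0, 0), (10, 0, 0, 0, 0), (11, 0, 0, 0, 0), (12, 0, 0, 0, 0), (13, 0, 0, 0, 0), (42, 0, 0, 0, 0), (43, 0, 0, 0, 0), (44, 0, 0, 0, 0), (45, 0, 0, 0, 0), (12, 0, 0, 0, 0), (13, 0, 0, 0, 0), (14, 0, 0, 0, 0), (15, 0, 0, 0, 0), (16, 0, 0, 0, 0), (17, 0, 0, 0, 0), (46, 0, 0, 0, 0), (47, 0, 0, 0, 0), (14, 0, 0, 0, 0), (15, 0, 0, 0, 0), (48, 0, 0, 0, 0), (49, 0, 0, 0, 0), (18, 0, 0, 0, 0), (19, 0, 0, 0, 0), (16, 0, 0, 0, 0), (17, 0, 0, 0, 0), (48, 0, 0, 0, 0), (49, 0, 0, 0, 0), (20, 0, 0, 0, 0), (21, 0, 0, 0, 0), (46, 0, 0, 0, 0), (47, 0, 0, 0, 0), (18, 0, 0, 0, 0), (19, 0, 0, 0, 0), (20, 0, 0, 0, 0), (21, 0, 0, 0, 0), (22, 0, 0, 0, 0), (23, 0, 0, 0, 0), (50, 0, 0, 0, 0), (51, 0, 0, 0, 0), (52, 0, 0, 0, 0), (53, 0, 0, 0, 0), (22, 0, 0, 0, 0), (23, 0, 0, 0, 0), (24, 0, 0, 0, 0), (25,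 0, 0, 0, 0), (26, 0, 0, 0, 0), (27, 0, 0, 0, 0), (50, 0, 0, 0, 0), (51, 0, 0, 0, 0), (24, 0, 0, 0, 0), (25, 0, 0, 0, 0), (54, 0, 0, 0, 0), (55, 0, 0, 0, 0), (52, 0, 0, 0, 0), (53, 0, 0, 0, 0), (26, 0, 0, 0, 0), (27, 0, 0, 0, 0), (54, 0, 0, 0, 0), (55, 0, 0, 0, 0), (28, 0, 0, 0, 0), (29, 0, 0, 0, 0), (56, 0, 0, 0, 0), (57, 0, 0, 0, 0), (30, 0, 0, 0, 0), (31, 0, 0, 0, 0), (28, 0, 0, 0, 0), (29, 0, 0, 0, 0), (32, 0, 0, 0, 0), (33, 0, 0, 0, 0), (58, 0, 0, 0, 0), (59, 0, 0, 0, 0), (56, 0, 0, 0, 0), (57, 0, 0, 0, 0), (32, 0, 0, 0, 0), (33, 0, 0, 0, 0), (34, 0, 0, 0, 0), (35, 0, 0, 0, 0), (30, 0, 0, 0, 0), (31, 0, 0, 0, 0), (58, 0, 0, 0, 0), (59, 0, 0, 0, 0), (34, 0, 0, 0, 0), (35, 0, 0, 0, 0)]]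

def m45_4 : Base := (1, 1, [(0, [0], [0, 1]), (0, [0], [2, 3]), (1, [], [4, 5]), (4, [], [5])])

def l45_4 : Cov := [(192, 1, 1, [(0, [0], [0, 1]), (0, [0], [2, 3]), (1, [], [4, 5]), (4, [], [5])]),
  (-192, 1, 1, [(0, [0], [0, 1]), (0, [0], [3, 4]), (1, [], [2, 5]), (4, [], [5])]),
  (-192, 1, 1, [(0, [0], [0, 3]), (0, [0], [1, 2]), (1, [], [4, 5]), (4, [], [5])]),
  (192, 1, 1, [(0, [0], [0, 3]), (0, [0], [1, 4]), (1, [], [2, 5]), (4, [], [5])]),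
  (192, 1, 1, [(0, [0], [1, 2]), (0, [0], [3, 4]), (1, [], [0, 5]), (4, [], [5])]),
  (-192, 1, 1, [(0, [0], [1, 4]), (0, [0], [2, 3]), (1, [], [0, 5]), (4, [], [5])])]

def z45_4 : Cov := [(0, 1, 1, [(0, [0], [0, 1]), (0, [0], [2, 4]), (1, [], [3, 5]), (4, [], [5])]),
  (0, 1, 1, [(0, [0], [0, 2]), (0, [0], [1, 3]), (1, [], [4, 5]), (4, [], [5])]),
  (0, 1, 1, [(0, [0], [0, 2]), (0, [0], [1, 4]), (1, [], [3, 5]), (4, [], [5])]),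
  (0, 1, 1, [(0, [0], [0, 2]), (0, [0], [3, 4]), (1, [], [1, 5]), (4, [], [5])]),
  (0, 1, 1, [(0, [0], [0, 3]), (0, [0], [2, 4]), (1, [], [1, 5]), (4, [], [5])]),
  (0, 1, 1, [(0, [0], [0, 4]), (0, [0], [1, 2]), (1, [], [3, 5]), (4, [], [5])]),
  (0, 1, 1, [(0, [0], [0, 4]), (0, [0], [1, 3]), (1, [], [2, 5]), (4, [], [5])]),
  (0, 1, 1, [(0, [0], [0, 4]), (0, [0], [2, 3]), (1, [], [1, 5]), (4, [], [5])]),
  (0, 1, 1, [(0, [0], [1, 3]), (0, [0], [2, 4]), (1, [], [0, 5]), (4, [], [5])])]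

def w45_4 : List (List Wit) := [[(0, 0, 0, 0, 0), (6, 0, 0, 0, 0), (0, 0, 0, 0, 0), (1, 0, 0, 0, 0), (6, 0, 0, 0, 0), (1, 0, 0, 0, 0), (7, 0, 0, 0, 0), (8, 0, 0, 0, 0), (7, 0, 0, 0, 0), (9, 0, 0, 0, 0), (8, 0, 0, 0, 0), (9, 0, 0, 0, 0), (2, 0, 0, 0, 0), (3, 0, 0, 0, 0), (2, 0, 0, 0, 0), (10, 0, 0, 0, 0), (3, 0, 0, 0, 0), (10, 0, 0, 0, 0), (11, 0, 0, 0, 0), (12, 0, 0, 0, 0), (11, 0, 0, 0, 0), (13, 0, 0, 0, 0), (12, 0, 0, 0, 0), (13, 0, 0, 0, 0), (0, 0, 0, 0, 0), (6, 0, 0, 0, 0), (0, 0, 0, 0, 0), (1, 0, 0, 0, 0), (6, 0, 0, 0, 0), (1, 0, 0, 0, 0), (2, 0, 0, 0, 0), (11, 0, 0, 0, 0), (2, 0, 0, 0, 0), (4, 0, 0, 0, 0), (11, 0, 0, 0, 0), (4, 0, 0, 0, 0), (7, 0, 0, 0, 0), (12, 0, 0, 0, 0), (7, 0, 0, 0, 0), (14, 0, 0, 0, 0), (12, 0, 0, 0, 0), (14, 0, 0, 0, 0), (8, 0, 0, 0, 0), (3, 0, 0, 0, 0), (8, 0, 0, 0, 0), (5, 0, 0, 0, 0), (3, 0, 0, 0, 0), (5, 0, 0, 0,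 0), (7, 0, 0, 0, 0), (8, 0, 0, 0, 0), (7, 0, 0, 0, 0), (9, 0, 0, 0, 0), (8, 0, 0, 0, 0), (9, 0, 0, 0, 0), (2, 0, 0, 0, 0), (11, 0, 0, 0, 0), (2, 0, 0, 0, 0), (4, 0, 0, 0, 0), (11, 0, 0, 0, 0), (4, 0, 0, 0, 0), (0, 0, 0, 0, 0), (13, 0, 0, 0, 0), (0, 0, 0, 0, 0), (5, 0, 0, 0, 0), (13, 0, 0, 0, 0), (5, 0, 0, 0, 0), (6, 0, 0, 0, 0), (10, 0, 0, 0, 0), (6, 0, 0, 0, 0), (14, 0, 0, 0, 0), (10, 0, 0, 0, 0), (14, 0, 0, 0, 0), (2, 0, 0, 0, 0), (3, 0, 0, 0, 0), (2, 0, 0, 0, 0), (10, 0, 0, 0, 0), (3, 0, 0, 0, 0), (10, 0, 0, 0, 0), (7, 0, 0, 0, 0), (12, 0, 0, 0, 0), (7, 0, 0, 0, 0), (14, 0, 0, 0, 0), (12, 0, 0, 0, 0), (14, 0, 0, 0, 0), (0, 0, 0, 0, 0), (13, 0, 0, 0, 0), (0, 0, 0, 0, 0), (5, 0, 0, 0, 0), (13, 0, 0, 0, 0), (5, 0, 0, 0, 0), (1, 0, 0, 0, 0), (9, 0, 0, 0, 0), (1, 0, 0, 0, 0), (4, 0, 0, 0, 0), (9, 0, 0, 0, 0), (4, 0, 0, 0, 0), (11, 0, 0, 0, 0), (12,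 0, 0, 0, 0), (11, 0, 0, 0, 0), (13, 0, 0, 0, 0), (12, 0, 0, 0, 0), (13, 0, 0, 0, 0), (8, 0, 0, 0, 0), (3, 0, 0, 0, 0), (8, 0, 0, 0, 0), (5, 0, 0, 0, 0), (3, 0, 0, 0, 0), (5, 0, 0, 0, 0), (6, 0, 0, 0, 0), (10, 0, 0, 0, 0), (6, 0, 0, 0, 0), (14, 0, 0, 0, 0), (10, 0, 0, 0, 0), (14, 0, 0, 0, 0), (1, 0, 0, 0, 0), (9, 0, 0, 0, 0), (1, 0, 0, 0, 0), (4, 0, 0, 0, 0), (9, 0, 0, 0, 0), (4, 0, 0, 0, 0)]]

def m45_5 : Base := (1, 0, [(0, [0], [0, 1]), (0, [0], [2, 3]), (4, [], [4])])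

def l45_5 : Cov := [(192, 1, 0, [(0, [0], [0, 1]), (0, [0], [2, 3]), (4, [], [4])]),
  (-192, 1, 0, [(0, [0], [0, 1]), (0, [0], [3, 4]), (4, [], [2])]),
  (-192, 1, 0, [(0, [0], [0, 3]), (0, [0], [1, 2]), (4, [], [4])]),
  (192, 1, 0, [(0, [0], [0, 3]), (0, [0], [1, 4]), (4, [], [2])]),
  (192, 1, 0, [(0, [0], [1, 2]), (0, [0], [3, 4]), (4, [], [0])]),
  (-192, 1, 0, [(0, [0], [1, 4]), (0, [0], [2, 3]), (4, [], [0])])]

def z45_5 : Cov := [(0, 1, 0, [(0, [0], [0, 1]), (0, [0], [2, 4]), (4, [], [3])]),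
  (0, 1, 0, [(0, [0], [0, 2]), (0, [0], [1, 3]), (4, [], [4])]),
  (0, 1, 0, [(0, [0], [0, 2]), (0, [0], [1, 4]), (4, [], [3])]),
  (0, 1, 0, [(0, [0], [0, 2]), (0, [0], [3, 4]), (4, [], [1])]),
  (0, 1, 0, [(0, [0], [0, 3]), (0, [0], [2, 4]), (4, [], [1])]),
  (0, 1, 0, [(0, [0], [0, 4]), (0, [0], [1, 2]), (4, [], [3])]),
  (0, 1, 0, [(0, [0], [0, 4]), (0, [0], [1, 3]), (4, [], [2])]),
  (0, 1, 0, [(0, [0], [0, 4]), (0, [0], [2, 3]), (4, [], [1])]),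
  (0, 1, 0, [(0, [0], [1, 3]), (0, [0], [2, 4]), (4, [], [0])])]

def w45_5 : List (List Wit) := [[(0, 0, 0, 0, 0), (6, 0, 0, 0, 0), (0, 0, 0, 0, 0), (1, 0, 0, 0, 0), (6, 0, 0, 0, 0), (1, 0, 0, 0, 0), (7, 0, 0, 0, 0), (8, 0, 0, 0, 0), (7, 0, 0, 0, 0), (9, 0, 0, 0, 0), (8, 0, 0, 0, 0), (9, 0, 0, 0, 0), (2, 0, 0, 0, 0), (3, 0, 0, 0, 0), (2, 0, 0, 0, 0), (10, 0, 0, 0, 0), (3, 0, 0, 0, 0), (10, 0, 0, 0, 0), (11, 0, 0, 0, 0), (12, 0, 0, 0, 0), (11, 0, 0, 0, 0), (13, 0, 0, 0, 0), (12, 0, 0, 0, 0), (13, 0, 0, 0, 0), (0, 0, 0, 0, 0), (6, 0, 0, 0, 0), (0, 0, 0, 0, 0), (1, 0, 0, 0, 0), (6, 0, 0, 0, 0), (1, 0, 0, 0, 0), (2, 0, 0, 0, 0), (11, 0, 0, 0, 0), (2, 0, 0, 0, 0), (4, 0, 0, 0, 0), (11, 0, 0, 0, 0), (4, 0, 0, 0, 0), (7, 0, 0, 0, 0), (12, 0, 0, 0, 0), (7, 0, 0, 0, 0), (14, 0, 0, 0, 0), (12, 0, 0, 0, 0), (14, 0, 0, 0, 0), (8, 0, 0, 0, 0), (3, 0, 0, 0, 0),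 (8, 0, 0, 0, 0), (5, 0, 0, 0, 0), (3, 0, 0, 0, 0), (5, 0, 0, 0, 0), (7, 0, 0, 0, 0), (8, 0, 0, 0, 0), (7, 0, 0, 0, 0), (9, 0, 0, 0, 0), (8, 0, 0, 0, 0), (9, 0, 0, 0, 0), (2, 0, 0, 0, 0), (11, 0, 0, 0, 0), (2, 0, 0, 0, 0), (4, 0, 0, 0, 0), (11, 0, 0, 0, 0), (4, 0, 0, 0, 0), (0, 0, 0, 0, 0), (13, 0, 0, 0, 0), (0, 0, 0, 0, 0), (5, 0, 0, 0, 0), (13, 0, 0, 0, 0), (5, 0, 0, 0, 0), (6, 0, 0, 0, 0), (10, 0, 0, 0, 0), (6, 0, 0, 0, 0), (14, 0, 0, 0, 0), (10, 0, 0, 0, 0), (14, 0, 0, 0, 0), (2, 0, 0, 0, 0), (3, 0, 0, 0, 0), (2, 0, 0, 0, 0), (10, 0, 0, 0, 0), (3, 0, 0, 0, 0), (10, 0, 0, 0, 0), (7, 0, 0, 0, 0), (12, 0, 0, 0, 0), (7, 0, 0, 0, 0), (14, 0, 0, 0, 0), (12, 0, 0, 0, 0), (14, 0, 0, 0, 0), (0, 0, 0, 0, 0), (13, 0, 0, 0, 0), (0, 0, 0, 0, 0), (5, 0, 0, 0, 0), (13, 0, 0, 0, 0), (5, 0, 0, 0, 0), (1, 0, 0, 0, 0), (9, 0, 0, 0, 0), (1, 0, 0, 0, 0), (4, 0, 0,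 0, 0), (9, 0, 0, 0, 0), (4, 0, 0, 0, 0), (11, 0, 0, 0, 0), (12, 0, 0, 0, 0), (11, 0, 0, 0, 0), (13, 0, 0, 0, 0), (12, 0, 0, 0, 0), (13, 0, 0, 0, 0), (8, 0, 0, 0, 0), (3, 0, 0, 0, 0), (8, 0, 0, 0, 0), (5, 0, 0, 0, 0), (3, 0, 0, 0, 0), (5, 0, 0, 0, 0), (6, 0, 0, 0, 0), (10, 0, 0, 0, 0), (6, 0, 0, 0, 0), (14, 0, 0, 0, 0), (10, 0, 0, 0, 0), (14, 0, 0, 0, 0), (1, 0, 0, 0, 0), (9, 0, 0, 0, 0), (1, 0, 0, 0, 0), (4, 0, 0, 0, 0), (9, 0, 0, 0, 0), (4, 0, 0, 0, 0)]]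

theorem tr45 : trK keys lk45 kl45 = true := by
  decide +kernel

theorem x45_0 : expB 0 5 dg10 dg8 m45_0 (l45_0 ++ z45_0) w45_0 = true := by
  decide +kernel

theorem x45_1 : expB 0 5 dg10 dg8 m45_1 (l45_1 ++ z45_1) w45_1 = true := by
  decide +kernel

theorem x45_2 : expB 0 5 dg10 dg8 m45_2 (l45_2 ++ z45_2) w45_2 = true := by
  decide +kernel

theorem x45_3 : expB 0 5 dg10 dg8 m45_3 (l45_3 ++ z45_3) w45_3 = true := by
  decide +kernel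

theorem x45_4 : expB 0 5 dg10 dg8 m45_4 (l45_4 ++ z45_4) w45_4 = true := by
  decide +kernel

theorem x45_5 : expB 0 5 dg10 dg8 m45_5 (l45_5 ++ z45_5) w45_5 = true := by
  decide +kernel

theorem t45_0_0 : chkS lk45 0 5 [(1, m45_0)] l45_0
  [(58, 16, 16, 50619681, 52715781), (59, 16, 16, 50615841, 36987141), (52, 16, 16, 50615841, 36987141), (54, 16, 16, 50615841, 36987141), (52, 16, 16, 50619666, 52715541), (28, 16, 16, 50746401, 70410501), (28, 1, 1, 3233316, 36720966), (7, 16, 16, 34825476, 52446801), (101, 16, 16, 51733536, 54681936), (62, 16, 16, 50746401, 70410501), (62, 1, 1, 3221076, 34624326), (61, 16, 16, 50615841, 36987141)]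
  [(7, -96), (28, 192), (52, -192), (54, 96), (58, 96), (59, -96), (61, 96), (62, -192), (101, 96)] = true := by
  decide +kernel

theorem t45_0_1 : chkS lk45 0 5 [(1, m45_0)] l45_1
  [(51, 16, 16, 50619681, 52715781), (53, 16, 16, 50619681, 52715781), (45, 16, 16, 67331346, 52838421), (45, 16, 16, 67327506, 37109781), (46, 16, 16, 50619681, 52715781), (6, 1, 1, 21377616, 68498016), (50, 16, 16, 50746401, 70410501), (26, 16, 16, 50677266, 37969941), (51, 16, 16, 84162081, 40120581), (53, 16, 16, 84292641, 73543941), (46, 16, 16, 50619666, 52715541), (6, 1, 1, 21377541, 67449441), (50, 16, 16, 50746386, 70410261), (26, 16, 16, 50677281, 37970181), (18, 16, 16, 84108321, 56770821), (20, 16, 16, 84108321, 56770821), (47, 16, 16, 84162081, 40120581), (27, 16, 16, 67515666, 69611541), (42, 16, 16, 84108306, 56770581), (25, 16, 16, 84108321, 56770821),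 (60, 16, 16, 84162066, 40120341), (60, 16, 16, 84162081, 40120581), (18, 16, 16, 84100641, 40059141), (20, 16, 16, 84100641, 40059141), (47, 16, 16, 84173586, 56893461), (27, 16, 16, 67523361, 70656261), (42, 16, 16, 84100626, 40058901), (25, 16, 16, 84100641, 40059141), (19, 16, 16, 67450401, 38154501), (19, 16, 16, 67461921, 54927621), (48, 16, 16, 84292641, 73543941), (26, 16, 16, 67450386, 38154261), (48, 16, 16, 84296466, 73605141), (26, 16, 16, 67461921, 54927621), (4, 1, 1, 4272741, 17117766), (4, 1, 1, 4272726, 1389126)]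
  [(4, 96), (18, -96), (19, 96), (25, 96), (26, -96), (45, -96), (46, -96), (47, 96), (48, -96), (50, 96), (51, 96), (60, -96)] = true := by
  decide +kernel

theorem t45_0_2 : chkS lk45 0 5 [(1, m45_0)] l45_2
  [(45, 16, 16, 50746401, 70410501), (44, 16, 16, 50619681, 52715781), (43, 16, 16, 50746401, 70410501), (41, 16, 16, 50677281, 37970181), (19, 16, 16, 84108321, 56770821), (49, 16, 16, 100939041, 103035141), (41, 16, 16, 84108306, 56770581), (100, 16, 16, 68571936, 70656336), (24, 16, 16, 67331361, 52838661), (55, 16, 16, 84162081, 40120581), (55, 16, 16, 84173586, 56893461), (99, 16, 16, 68379936, 52838736)]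
  [(19, -96), (24, 96), (41, 192), (43, -96), (44, -96), (45, 96), (49, 96), (55, -192), (99, 96), (100, -96)] = true := by
  decide +kernel

theorem t45_0_3 : chkS lk45 0 5 [(1, m45_0)] l45_3
  [(53, 16, 16, 50619681, 52715781), (51, 16, 16, 50619681, 52715781), (45, 16, 16, 67327506, 37109781), (45, 16, 16, 67331346, 52838421), (6, 1, 1, 21377616, 68498016), (46, 16, 16, 50619681, 52715781), (26, 16, 16, 50677266, 37969941), (50, 16, 16, 50746401, 70410501), (53, 16, 16, 84292641, 73543941), (51, 16, 16, 84162081, 40120581), (6, 1, 1, 21377541, 67449441), (46, 16, 16, 50619666, 52715541), (26, 16, 16, 50677281, 37970181), (50, 16, 16, 50746386, 70410261), (20, 16, 16, 84108321, 56770821), (18, 16, 16, 84108321, 56770821), (27, 16, 16, 67515666, 69611541), (47, 16, 16, 84162081, 40120581), (25, 16, 16, 84108321, 56770821), (42, 16, 16, 84108306,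 56770581), (60, 16, 16, 84162081, 40120581), (60, 16, 16, 84162066, 40120341), (20, 16, 16, 84100641, 40059141), (18, 16, 16, 84100641, 40059141), (27, 16, 16, 67523361, 70656261), (47, 16, 16, 84173586, 56893461), (25, 16, 16, 84100641, 40059141), (42, 16, 16, 84100626, 40058901), (19, 16, 16, 67461921, 54927621), (19, 16, 16, 67450401, 38154501), (26, 16, 16, 67450386, 38154261), (48, 16, 16, 84292641, 73543941), (26, 16, 16, 67461921, 54927621), (48, 16, 16, 84296466, 73605141), (4, 1, 1, 4272726, 1389126), (4, 1, 1, 4272741, 17117766)]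
  [(4, 96), (6, -96), (19, 96), (20, -96), (27, 96), (42, 96), (45, -96), (48, -96), (53, 96), (60, -96)] = true := by
  decide +kernel

theorem t45_0_4 : chkS lk45 0 5 [(1, m45_0)] l45_4
  [(21, 16, 16, 100881441, 103956741), (19, 16, 16, 50677281, 37970181), (56, 16, 16, 100939041, 103035141), (45, 16, 16, 100877586, 102973461), (49, 16, 16, 67523346, 70656021), (43, 16, 16, 100881426, 103956501)]
  [(19, -192), (21, 192), (43, -192), (45, 192), (49, 192), (56, -192)] = true := by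
  decide +kernel

theorem t45_0_5 : chkS lk45 0 5 [(1, m45_0)] l45_5
  [(22, 16, 16, 218145, 3293445), (23, 16, 16, 344865, 4399365), (57, 16, 16, 275745, 2371845), (17, 1, 1, 4396320, 2441520), (16, 1, 1, 4399365, 344865), (10, 1, 1, 4272645, 340545)]
  [(10, -192), (16, 192), (17, 192), (22, 192), (23, -192), (57, -192)] = true := by
  decide +kernel

theorem t45_1_1 : chkS lk45 0 5 [(1, m45_1)] l45_1
  [(64, 16, 16, 87318786, 56905761), (65, 16, 16, 87441666, 73617441), (77, 1, 1, 55665666, 55730241), (75, 16, 16, 87318786, 56905761), (102, 16, 16, 67461681, 54923781), (77, 16, 16, 87441426, 73617426), (97, 16, 16, 69619971, 70649121), (97, 16, 16, 69619731, 70649106), (103, 16, 16, 101008161, 105062661), (80, 16, 16, 70668546, 70668321), (82, 1, 1, 6562581, 84157206), (83, 1, 1, 39059766, 5510691), (74, 16, 16, 69619971, 70649121), (96, 16, 16,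 67523121, 70652421), (85, 16, 16, 86269971, 56886546), (86, 16, 16, 86392851, 73598226), (103, 16, 16, 101007921, 105058821), (80, 16, 16, 70668306, 70668306), (31, 1, 1, 37839621, 50669121), (30, 1, 1, 37839621, 50669121), (74, 16, 16, 69619731, 70649106), (96, 16, 16, 67523361, 70656261), (82, 16, 16, 100946481, 104075781), (31, 16, 16, 69619971, 70649121), (63, 16, 16, 87318786, 56905761), (35, 16, 16, 69619971, 70649121), (72, 16, 16, 87318786, 56905761), (74, 1, 1, 55649286, 5399361), (83, 16, 16, 86392851, 73598226), (30, 16, 16, 69558531, 54920481), (96, 16, 16, 86393091, 73598241), (96, 16, 16, 86392851, 73598226), (35, 1, 1, 37970181, 50677281), (34, 16, 16, 69558531, 54920481), (74, 16, 16, 87441426, 73617426), (97, 16, 16, 84296481, 73605381)]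
  [(30, 128), (31, 64), (34, -64), (35, -64), (63, 32), (64, 64), (65, 32), (72, -32), (74, 64), (75, -64), (77, -64), (82, -64), (83, 64), (85, -64), (86, -32), (96, -192), (97, 160), (102, -64), (103, 96)] = true := by
  decide +kernel

theorem t45_1_2 : chkS lk45 0 5 [(1, m45_1)] l45_2
  [(39, 1, 1, 54939906, 70606881), (76, 1, 1, 21194016, 52773216), (77, 1, 1, 21377616, 68498016), (71, 1, 1, 21177936, 34947936), (32, 1, 1, 21385266, 70586466), (80, 1, 1, 22425666, 72429666), (29, 1, 1, 22175796, 55579746), (73, 1, 1, 22224966, 5325666), (87, 16, 16, 84173361, 56889861), (94, 1, 1, 20981331, 34931556), (33, 1, 1, 55730436, 55600161), (95, 1, 1, 22029126, 5317476)]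
  [(29, 96), (32, -96), (33, -96), (39, 96), (71, 96), (73, -96), (76, -96), (77, -96), (80, 96), (87, 96), (94, -96), (95, 96)] = true := by
  decide +kernel

theorem t45_1_3 : chkS lk45 0 5 [(1, m45_1)] l45_3
  [(65, 16, 16, 87441666, 73617441), (64, 16, 16, 87318786, 56905761), (75, 16, 16, 87318786, 56905761), (77, 1, 1, 55665666, 55730241), (77, 16, 16, 87441426, 73617426), (102, 16, 16, 67461681, 54923781), (97, 16, 16, 69619731, 70649106), (97, 16, 16, 69619971, 70649121), (80, 16, 16, 70668546, 70668321), (103, 16, 16, 101008161, 105062661), (83, 1, 1, 39059766, 5510691), (82, 1, 1, 6562581, 84157206), (96, 16, 16, 67523121, 70652421), (74, 16, 16, 69619971, 70649121), (86, 16, 16, 86392851, 73598226), (85, 16, 16, 86269971, 56886546), (80, 16, 16, 70668306, 70668306), (103, 16, 16, 101007921, 105058821), (30, 1, 1, 37839621, 50669121), (31,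 1, 1, 37839621, 50669121), (96, 16, 16, 67523361, 70656261), (74, 16, 16, 69619731, 70649106), (31, 16, 16, 69619971, 70649121), (82, 16, 16, 100946481, 104075781), (35, 16, 16, 69619971, 70649121), (63, 16, 16, 87318786, 56905761), (74, 1, 1, 55649286, 5399361), (72, 16, 16, 87318786, 56905761), (30, 16, 16, 69558531, 54920481), (83, 16, 16, 86392851, 73598226), (96, 16, 16, 86392851, 73598226), (96, 16, 16, 86393091, 73598241), (34, 16, 16, 69558531, 54920481), (35, 1, 1, 37970181, 50677281), (97, 16, 16, 84296481, 73605381), (74, 16, 16, 87441426, 73617426)]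
  [(30, 64), (31, 32), (34, -32), (35, -32), (63, -32), (64, 32), (65, 64), (72, 32), (74, -64), (75, -32), (77, -128), (80, 96), (82, 64), (83, 32), (85, -32), (86, -64), (96, -96), (97, 128), (102, -32), (103, 0)] = true := by
  decide +kernel

theorem t45_1_4 : chkS lk45 0 5 [(1, m45_1)] l45_4
  [(88, 16, 16, 103043091, 104072466), (83, 16, 16, 67523121, 70652421), (66, 16, 16, 104091906, 104091681), (80, 1, 1, 105985026, 106049601), (35, 1, 1, 106111236, 105923361), (31, 1, 1, 105980676, 105915201)]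
  [(31, -192), (35, 192), (66, -192), (80, 192), (83, -192), (88, 192)] = true := by
  decide +kernel

theorem t45_1_5 : chkS lk45 0 5 [(1, m45_1)] l45_5
  [(89, 16, 16, 2379795, 3409170), (12, 1, 1, 2442000, 4400400), (67, 16, 16, 3428610, 3428385), (81, 16, 16, 3428610, 3428385), (38, 16, 16, 2441475, 4392225), (12, 16, 16, 4399125, 344850)]
  [(12, -384), (38, 192), (67, -192), (81, 192), (89, 192)] = true := by
  decide +kernel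

theorem t45_2_2 : chkS lk45 0 5 [(1, m45_2)] l45_2
  [(2, 16, 16, 35017776, 70391376), (75, 16, 16, 68510496, 54927696), (75, 16, 16, 68571696, 70652496), (1, 16, 16, 34879056, 34879056), (9, 16, 16, 70668546, 70668321), (78, 16, 16, 85344816, 73601616), (30, 1, 1, 22175796, 55579746), (5, 16, 16, 38162451, 70583826), (30, 16, 16, 85221936, 56889936), (5, 1, 1, 69408336, 35013936), (34, 16, 16, 87318786, 56905761), (98, 16, 16, 102056736, 105062736)]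
  [(1, 96), (2, 96), (5, -192), (9, -96), (30, 192), (34, -96), (75, -192), (78, 96), (98, 96)] = true := by
  decide +kernel

theorem t45_2_3 : chkS lk45 0 5 [(1, m45_2)] l45_3
  [(39, 16, 16, 70607106, 54939681), (39, 16, 16, 70668546, 70668321), (76, 16, 16, 68510496, 54927696), (77, 16, 16, 68510496, 54927696), (76, 16, 16, 68571696, 70652496), (77, 16, 16, 68571696, 70652496), (71, 16, 16, 68571696, 70652496), (71, 16, 16, 68571936, 70656336), (76, 16, 16, 85345056, 73605456), (80, 16, 16, 85345056, 73605456), (87, 1, 1, 5645076, 72360726), (83, 1, 1, 6562581, 84157206), (94, 16, 16, 68571696, 70652496), (71, 16, 16, 70668546, 70668321), (32, 16, 16, 68510256, 54923856), (32, 16, 16, 68571696, 70652496), (76, 16, 16, 85344816, 73601616), (80, 16, 16, 85344816, 73601616), (87, 1, 1, 5398836, 55579686), (83, 1, 1, 6439221, 84087846), (94, 16, 16,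 68571936, 70656336), (71, 16, 16, 70668306, 70668306), (29, 16, 16, 85344816, 73601616), (31, 16, 16, 85344816, 73601616), (33, 16, 16, 87441666, 73617441), (35, 16, 16, 87441666, 73617441), (95, 16, 16, 85221936, 56889936), (73, 16, 16, 87318786, 56905761), (29, 16, 16, 85221936, 56889936), (31, 16, 16, 85221936, 56889936), (73, 16, 16, 85344816, 73601616), (73, 16, 16, 85345056, 73605456), (33, 16, 16, 87318786, 56905761), (35, 16, 16, 87318786, 56905761), (95, 16, 16, 85345056, 73605456), (73, 16, 16, 87441426, 73617426)]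
  [(31, 96), (32, -96), (35, -96), (39, 96), (77, -96), (83, 96), (95, 0)] = true := by
  decide +kernel

theorem t45_2_4 : chkS lk45 0 5 [(1, m45_2)] l45_4
  [(32, 16, 16, 102056496, 105058896), (8, 1, 1, 104153601, 105075201), (39, 16, 16, 104153346, 105074721), (79, 16, 16, 102056736, 105062736), (36, 16, 16, 104153346, 105074721), (84, 1, 1, 73409301, 84288276)]
  [(8, -192), (32, 192), (36, 192), (39, -192), (79, 192), (84, -192)] = true := by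
  decide +kernel

theorem t45_2_5 : chkS lk45 0 5 [(1, m45_2)] l45_5
  [(15, 1, 1, 4534785, 4534785), (11, 1, 1, 2442000, 4400400), (40, 16, 16, 3490050, 4411425), (14, 1, 1, 5444640, 5390640), (37, 16, 16, 3490050, 4411425), (90, 1, 1, 5251860, 5251860)]
  [(11, -192), (14, 192), (15, 192), (37, 192), (40, -192), (90, -192)] = true := by
  decide +kernel

theorem t45_3_3 : chkS lk45 0 5 [(1, m45_3)] l45_3
  [(64, 16, 16, 87441666, 73617441), (65, 16, 16, 87318786, 56905761), (77, 16, 16, 87318786, 56905761), (102, 16, 16, 67523361, 70656261), (75, 16, 16, 87441426, 73617426), (77, 1, 1, 55971906, 72441906), (97, 16, 16, 69558291, 54920466), (97, 16, 16, 69558531, 54920481), (78, 16, 16, 70668546, 70668321), (80, 1, 1, 54924576, 69558576), (30, 1, 1, 38146101, 67442226), (31, 1, 1, 38146101, 67442226), (96, 16, 16, 67461681, 54923781), (74, 16, 16,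 69558531, 54920481), (85, 16, 16, 86392851, 73598226), (86, 16, 16, 86269971, 56886546), (78, 16, 16, 70668306, 70668306), (80, 1, 1, 54923856, 68510256), (83, 1, 1, 38814486, 5449236), (82, 1, 1, 6439221, 84087846), (96, 16, 16, 67461921, 54927621), (74, 16, 16, 69558291, 54920466), (30, 16, 16, 69619971, 70649121), (83, 16, 16, 86269971, 56886546), (34, 16, 16, 69619971, 70649121), (35, 1, 1, 38154501, 67450401), (97, 16, 16, 84173361, 56889861), (74, 16, 16, 87318786, 56905761), (31, 16, 16, 69558531, 54920481), (82, 16, 16, 101007921, 105058821), (74, 1, 1, 37950816, 19220016), (74, 1, 1, 37951056, 34948656), (35, 16, 16, 69558531, 54920481), (63, 16, 16, 87441666, 73617441), (74, 1, 1, 55709766, 5334066), (72, 16, 16, 87441426, 73617426)]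
  [(30, -64), (31, 64), (34, 32), (35, -64), (63, -64), (64, 64), (65, 32), (72, 64), (74, -128), (75, -64), (77, -64), (78, 96), (82, 128), (83, 64), (85, -64), (86, -32), (97, 64), (102, -64)] = true := by
  decide +kernel

theorem t45_3_4 : chkS lk45 0 5 [(1, m45_3)] l45_4
  [(32, 1, 1, 105189426, 105189426), (83, 16, 16, 67461681, 54923781), (39, 1, 1, 105197826, 105197601), (77, 1, 1, 105059616, 103104816), (35, 1, 1, 106049796, 105919521), (31, 1, 1, 106041396, 105911346)]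
  [(31, -192), (32, 192), (35, 192), (39, -192), (77, 192), (83, -192)] = true := by
  decide +kernel

theorem t45_3_5 : chkS lk45 0 5 [(1, m45_3)] l45_5
  [(15, 16, 16, 3490050, 4411425), (12, 1, 1, 2380560, 3417360), (40, 1, 1, 4534530, 4534305), (13, 16, 16, 1266720, 3293520), (38, 16, 16, 2380035, 3409185), (12, 16, 16, 4337925, 341025)]
  [(12, -384), (13, 192), (15, 192), (38, 192), (40, -192)] = true := by
  decide +kernel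

theorem t45_4_4 : chkS lk45 0 5 [(1, m45_4)] l45_4
  [(68, 16, 16, 105198096, 105198096), (65, 16, 16, 73736976, 88482576), (91, 16, 16, 105194256, 105194256), (86, 16, 16, 73740801, 88486401), (86, 16, 16, 73728306, 88477731), (65, 16, 16, 73732131, 88473906)]
  [(65, -384), (68, 192), (86, 384), (91, -192)] = true := by
  decide +kernel

theorem t45_4_5 : chkS lk45 0 5 [(1, m45_4)] l45_5
  [(69, 16, 16, 4534800, 4534800), (40, 16, 16, 5514000, 5514000), (92, 16, 16, 4530960, 4530960), (15, 1, 1, 5444640, 5390640), (15, 1, 1, 5447700, 5260050), (40, 16, 16, 5509155, 5505330)]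
  [(15, 384), (40, -384), (69, 192), (92, -192)] = true := by
  decide +kernel

theorem t45_5_5 : chkS lk45 0 5 [(1, m45_5)] l45_5
  [(70, 16, 16, 274960, 274960), (0, 16, 16, 131395, 66595), (93, 16, 16, 271120, 271120), (3, 16, 16, 271120, 271120), (3, 16, 16, 266275, 262450), (0, 16, 16, 148225, 205825)]
  [(0, -384), (3, 384), (70, 192), (93, -192)] = true := by
  decide +kernel

section

variable {κ ι : Type*} [Fintype κ] [Fintype ι] [Inhabited κ] [Inhabited ι]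

noncomputable def F45_0 (E : Env κ ι) : (Fin 0 → κ) → (Fin 5 → ι) → ℝ := op2 (P10 κ) (P8 ι) (fB E 0 5 m45_0)

noncomputable def F45_1 (E : Env κ ι) : (Fin 0 → κ) → (Fin 5 → ι) → ℝ := op2 (P10 κ) (P8 ι) (fB E 0 5 m45_1)

noncomputable def F45_2 (E : Env κ ι) : (Fin 0 → κ) → (Fin 5 → ι) → ℝ := op2 (P10 κ) (P8 ι) (fB E 0 5 m45_2)

noncomputable def F45_3 (E : Env κ ι) : (Fin 0 → κ) → (Fin 5 → ι) → ℝ := op2 (P10 κ) (P8 ι) (fB E 0 5 m45_3)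

noncomputable def F45_4 (E : Env κ ι) : (Fin 0 → κ) → (Fin 5 → ι) → ℝ := op2 (P10 κ) (P8 ι) (fB E 0 5 m45_4)

noncomputable def F45_5 (E : Env κ ι) : (Fin 0 → κ) → (Fin 5 → ι) → ℝ := op2 (P10 κ) (P8 ι) (fB E 0 5 m45_5)

def r45_0_0 : List (ℕ × ℤ) := [(7, -96), (28, 192), (52, -192), (54, 96), (58, 96), (59, -96), (61, 96), (62, -192), (101, 96)]

theorem h45_0_0 (E : Env κ ι) : ip (F45_0 E) (F45_0 E) = dotS (ek E lk45) r45_0_0 :=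
  op_entryZ E lk45 0 5 _ _ _ _ (pg10 κ) (pg8 ι) m45_0 m45_0 l45_0 z45_0 w45_0 x45_0 (by decide) _ (chkS_sound E lk45 0 5 _ _ _ _ t45_0_0)

def r45_0_1 : List (ℕ × ℤ) := [(4, 96), (18, -96), (19, 96), (25, 96), (26, -96), (45, -96), (46, -96), (47, 96), (48, -96), (50, 96), (51, 96), (60, -96)]

theorem h45_0_1 (E : Env κ ι) : ip (F45_0 E) (F45_1 E) = dotS (ek E lk45) r45_0_1 :=
  op_entryZ E lk45 0 5 _ _ _ _ (pg10 κ) (pg8 ι) m45_0 m45_1 l45_1 z45_1 w45_1 x45_1 (by decide) _ (chkS_sound E lk45 0 5 _ _ _ _ t45_0_1)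

def r45_0_2 : List (ℕ × ℤ) := [(19, -96), (24, 96), (41, 192), (43, -96), (44, -96), (45, 96), (49, 96), (55, -192), (99, 96), (100, -96)]

theorem h45_0_2 (E : Env κ ι) : ip (F45_0 E) (F45_2 E) = dotS (ek E lk45) r45_0_2 :=
  op_entryZ E lk45 0 5 _ _ _ _ (pg10 κ) (pg8 ι) m45_0 m45_2 l45_2 z45_2 w45_2 x45_2 (by decide) _ (chkS_sound E lk45 0 5 _ _ _ _ t45_0_2)

def r45_0_3 : List (ℕ × ℤ) := [(4, 96), (6, -96), (19, 96), (20, -96), (27, 96), (42, 96), (45, -96), (48, -96), (53, 96), (60, -96)]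

theorem h45_0_3 (E : Env κ ι) : ip (F45_0 E) (F45_3 E) = dotS (ek E lk45) r45_0_3 :=
  op_entryZ E lk45 0 5 _ _ _ _ (pg10 κ) (pg8 ι) m45_0 m45_3 l45_3 z45_3 w45_3 x45_3 (by decide) _ (chkS_sound E lk45 0 5 _ _ _ _ t45_0_3)

def r45_0_4 : List (ℕ × ℤ) := [(19, -192), (21, 192), (43, -192), (45, 192), (49, 192), (56, -192)]

theorem h45_0_4 (E : Env κ ι) : ip (F45_0 E) (F45_4 E) = dotS (ek E lk45) r45_0_4 :=
  op_entryZ E lk45 0 5 _ _ _ _ (pg10 κ) (pg8 ι) m45_0 m45_4 l45_4 z45_4 w45_4 x45_4 (by decide) _ (chkS_sound E lk45 0 5 _ _ _ _ t45_0_4)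

def r45_0_5 : List (ℕ × ℤ) := [(10, -192), (16, 192), (17, 192), (22, 192), (23, -192), (57, -192)]

theorem h45_0_5 (E : Env κ ι) : ip (F45_0 E) (F45_5 E) = dotS (ek E lk45) r45_0_5 :=
  op_entryZ E lk45 0 5 _ _ _ _ (pg10 κ) (pg8 ι) m45_0 m45_5 l45_5 z45_5 w45_5 x45_5 (by decide) _ (chkS_sound E lk45 0 5 _ _ _ _ t45_0_5)

def r45_1_1 : List (ℕ × ℤ) := [(30, 128), (31, 64), (34, -64), (35, -64), (63, 32), (64, 64), (65, 32), (72, -32), (74, 64), (75, -64), (77, -64), (82, -64), (83, 64), (85, -64), (86, -32), (96, -192), (97, 160), (102, -64), (103, 96)]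

theorem h45_1_1 (E : Env κ ι) : ip (F45_1 E) (F45_1 E) = dotS (ek E lk45) r45_1_1 :=
  op_entryZ E lk45 0 5 _ _ _ _ (pg10 κ) (pg8 ι) m45_1 m45_1 l45_1 z45_1 w45_1 x45_1 (by decide) _ (chkS_sound E lk45 0 5 _ _ _ _ t45_1_1)

def r45_1_2 : List (ℕ × ℤ) := [(29, 96), (32, -96), (33, -96), (39, 96), (71, 96), (73, -96), (76, -96), (77, -96), (80, 96), (87, 96), (94, -96), (95, 96)]

theorem h45_1_2 (E : Env κ ι) : ip (F45_1 E) (F45_2 E) = dotS (ek E lk45) r45_1_2 :=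
  op_entryZ E lk45 0 5 _ _ _ _ (pg10 κ) (pg8 ι) m45_1 m45_2 l45_2 z45_2 w45_2 x45_2 (by decide) _ (chkS_sound E lk45 0 5 _ _ _ _ t45_1_2)

def r45_1_3 : List (ℕ × ℤ) := [(30, 64), (31, 32), (34, -32), (35, -32), (63, -32), (64, 32), (65, 64), (72, 32), (74, -64), (75, -32), (77, -128), (80, 96), (82, 64), (83, 32), (85, -32), (86, -64), (96, -96), (97, 128), (102, -32), (103, 0)]

theorem h45_1_3 (E : Env κ ι) : ip (F45_1 E) (F45_3 E) = dotS (ek E lk45) r45_1_3 :=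
  op_entryZ E lk45 0 5 _ _ _ _ (pg10 κ) (pg8 ι) m45_1 m45_3 l45_3 z45_3 w45_3 x45_3 (by decide) _ (chkS_sound E lk45 0 5 _ _ _ _ t45_1_3)

def r45_1_4 : List (ℕ × ℤ) := [(31, -192), (35, 192), (66, -192), (80, 192), (83, -192), (88, 192)]

theorem h45_1_4 (E : Env κ ι) : ip (F45_1 E) (F45_4 E) = dotS (ek E lk45) r45_1_4 :=
  op_entryZ E lk45 0 5 _ _ _ _ (pg10 κ) (pg8 ι) m45_1 m45_4 l45_4 z45_4 w45_4 x45_4 (by decide) _ (chkS_sound E lk45 0 5 _ _ _ _ t45_1_4)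

def r45_1_5 : List (ℕ × ℤ) := [(12, -384), (38, 192), (67, -192), (81, 192), (89, 192)]

theorem h45_1_5 (E : Env κ ι) : ip (F45_1 E) (F45_5 E) = dotS (ek E lk45) r45_1_5 :=
  op_entryZ E lk45 0 5 _ _ _ _ (pg10 κ) (pg8 ι) m45_1 m45_5 l45_5 z45_5 w45_5 x45_5 (by decide) _ (chkS_sound E lk45 0 5 _ _ _ _ t45_1_5)

def r45_2_2 : List (ℕ × ℤ) := [(1, 96), (2, 96), (5, -192), (9, -96), (30, 192), (34, -96), (75, -192), (78, 96), (98, 96)]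

theorem h45_2_2 (E : Env κ ι) : ip (F45_2 E) (F45_2 E) = dotS (ek E lk45) r45_2_2 :=
  op_entryZ E lk45 0 5 _ _ _ _ (pg10 κ) (pg8 ι) m45_2 m45_2 l45_2 z45_2 w45_2 x45_2 (by decide) _ (chkS_sound E lk45 0 5 _ _ _ _ t45_2_2)

def r45_2_3 : List (ℕ × ℤ) := [(31, 96), (32, -96), (35, -96), (39, 96), (77, -96), (83, 96), (95, 0)]

theorem h45_2_3 (E : Env κ ι) : ip (F45_2 E) (F45_3 E) = dotS (ek E lk45) r45_2_3 :=
  op_entryZ E lk45 0 5 _ _ _ _ (pg10 κ) (pg8 ι) m45_2 m45_3 l45_3 z45_3 w45_3 x45_3 (by decide) _ (chkS_sound E lk45 0 5 _ _ _ _ t45_2_3)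

def r45_2_4 : List (ℕ × ℤ) := [(8, -192), (32, 192), (36, 192), (39, -192), (79, 192), (84, -192)]

theorem h45_2_4 (E : Env κ ι) : ip (F45_2 E) (F45_4 E) = dotS (ek E lk45) r45_2_4 :=
  op_entryZ E lk45 0 5 _ _ _ _ (pg10 κ) (pg8 ι) m45_2 m45_4 l45_4 z45_4 w45_4 x45_4 (by decide) _ (chkS_sound E lk45 0 5 _ _ _ _ t45_2_4)

def r45_2_5 : List (ℕ × ℤ) := [(11, -192), (14, 192), (15, 192), (37, 192), (40, -192), (90, -192)]

theorem h45_2_5 (E : Env κ ι) : ip (F45_2 E) (F45_5 E) = dotS (ek E lk45) r45_2_5 :=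
  op_entryZ E lk45 0 5 _ _ _ _ (pg10 κ) (pg8 ι) m45_2 m45_5 l45_5 z45_5 w45_5 x45_5 (by decide) _ (chkS_sound E lk45 0 5 _ _ _ _ t45_2_5)

def r45_3_3 : List (ℕ × ℤ) := [(30, -64), (31, 64), (34, 32), (35, -64), (63, -64), (64, 64), (65, 32), (72, 64), (74, -128), (75, -64), (77, -64), (78, 96), (82, 128), (83, 64), (85, -64), (86, -32), (97, 64), (102, -64)]

theorem h45_3_3 (E : Env κ ι) : ip (F45_3 E) (F45_3 E) = dotS (ek E lk45) r45_3_3 :=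
  op_entryZ E lk45 0 5 _ _ _ _ (pg10 κ) (pg8 ι) m45_3 m45_3 l45_3 z45_3 w45_3 x45_3 (by decide) _ (chkS_sound E lk45 0 5 _ _ _ _ t45_3_3)

def r45_3_4 : List (ℕ × ℤ) := [(31, -192), (32, 192), (35, 192), (39, -192), (77, 192), (83, -192)]

theorem h45_3_4 (E : Env κ ι) : ip (F45_3 E) (F45_4 E) = dotS (ek E lk45) r45_3_4 :=
  op_entryZ E lk45 0 5 _ _ _ _ (pg10 κ) (pg8 ι) m45_3 m45_4 l45_4 z45_4 w45_4 x45_4 (by decide) _ (chkS_sound E lk45 0 5 _ _ _ _ t45_3_4)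

def r45_3_5 : List (ℕ × ℤ) := [(12, -384), (13, 192), (15, 192), (38, 192), (40, -192)]

theorem h45_3_5 (E : Env κ ι) : ip (F45_3 E) (F45_5 E) = dotS (ek E lk45) r45_3_5 :=
  op_entryZ E lk45 0 5 _ _ _ _ (pg10 κ) (pg8 ι) m45_3 m45_5 l45_5 z45_5 w45_5 x45_5 (by decide) _ (chkS_sound E lk45 0 5 _ _ _ _ t45_3_5)

def r45_4_4 : List (ℕ × ℤ) := [(65, -384), (68, 192), (86, 384), (91, -192)]

theorem h45_4_4 (E : Env κ ι) : ip (F45_4 E) (F45_4 E) = dotS (ek E lk45) r45_4_4 :=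
  op_entryZ E lk45 0 5 _ _ _ _ (pg10 κ) (pg8 ι) m45_4 m45_4 l45_4 z45_4 w45_4 x45_4 (by decide) _ (chkS_sound E lk45 0 5 _ _ _ _ t45_4_4)

def r45_4_5 : List (ℕ × ℤ) := [(15, 384), (40, -384), (69, 192), (92, -192)]

theorem h45_4_5 (E : Env κ ι) : ip (F45_4 E) (F45_5 E) = dotS (ek E lk45) r45_4_5 :=
  op_entryZ E lk45 0 5 _ _ _ _ (pg10 κ) (pg8 ι) m45_4 m45_5 l45_5 z45_5 w45_5 x45_5 (by decide) _ (chkS_sound E lk45 0 5 _ _ _ _ t45_4_5)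

def r45_5_5 : List (ℕ × ℤ) := [(0, -384), (3, 384), (70, 192), (93, -192)]

theorem h45_5_5 (E : Env κ ι) : ip (F45_5 E) (F45_5 E) = dotS (ek E lk45) r45_5_5 :=
  op_entryZ E lk45 0 5 _ _ _ _ (pg10 κ) (pg8 ι) m45_5 m45_5 l45_5 z45_5 w45_5 x45_5 (by decide) _ (chkS_sound E lk45 0 5 _ _ _ _ t45_5_5)

theorem row45_0 (E : Env κ ι) : RowG (ek E lk45) (F45_0 E) [F45_0 E, F45_1 E, F45_2 E, F45_3 E, F45_4 E, F45_5 E] [r45_0_0, r45_0_1, r45_0_2, r45_0_3, r45_0_4, r45_0_5] :=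
  rowG_cons _ _ _ _ _ _ (h45_0_0 E) (rowG_cons _ _ _ _ _ _ (h45_0_1 E) (rowG_cons _ _ _ _ _ _ (h45_0_2 E) (rowG_cons _ _ _ _ _ _ (h45_0_3 E) (rowG_cons _ _ _ _ _ _ (h45_0_4 E) (rowG_cons _ _ _ _ _ _ (h45_0_5 E) (rowG_nil _ _))))))

theorem row45_1 (E : Env κ ι) : RowG (ek E lk45) (F45_1 E) [F45_1 E, F45_2 E, F45_3 E, F45_4 E, F45_5 E] [r45_1_1, r45_1_2, r45_1_3, r45_1_4, r45_1_5] :=
  rowG_cons _ _ _ _ _ _ (h45_1_1 E) (rowG_cons _ _ _ _ _ _ (h45_1_2 E) (rowG_cons _ _ _ _ _ _ (h45_1_3 E) (rowG_cons _ _ _ _ _ _ (h45_1_4 E) (rowG_cons _ _ _ _ _ _ (h45_1_5 E) (rowG_nil _ _)))))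

theorem row45_2 (E : Env κ ι) : RowG (ek E lk45) (F45_2 E) [F45_2 E, F45_3 E, F45_4 E, F45_5 E] [r45_2_2, r45_2_3, r45_2_4, r45_2_5] :=
  rowG_cons _ _ _ _ _ _ (h45_2_2 E) (rowG_cons _ _ _ _ _ _ (h45_2_3 E) (rowG_cons _ _ _ _ _ _ (h45_2_4 E) (rowG_cons _ _ _ _ _ _ (h45_2_5 E) (rowG_nil _ _))))

theorem row45_3 (E : Env κ ι) : RowG (ek E lk45) (F45_3 E) [F45_3 E, F45_4 E, F45_5 E] [r45_3_3, r45_3_4, r45_3_5] :=
  rowG_cons _ _ _ _ _ _ (h45_3_3 E) (rowG_cons _ _ _ _ _ _ (h45_3_4 E) (rowG_cons _ _ _ _ _ _ (h45_3_5 E) (rowG_nil _ _)))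

theorem row45_4 (E : Env κ ι) : RowG (ek E lk45) (F45_4 E) [F45_4 E, F45_5 E] [r45_4_4, r45_4_5] :=
  rowG_cons _ _ _ _ _ _ (h45_4_4 E) (rowG_cons _ _ _ _ _ _ (h45_4_5 E) (rowG_nil _ _))

theorem row45_5 (E : Env κ ι) : RowG (ek E lk45) (F45_5 E) [F45_5 E] [r45_5_5] :=
  rowG_cons _ _ _ _ _ _ (h45_5_5 E) (rowG_nil _ _)

def tab45 : List (List (List (ℕ × ℤ))) := [[r45_0_0, r45_0_1, r45_0_2, r45_0_3, r45_0_4, r45_0_5], [r45_1_1, r45_1_2, r45_1_3, r45_1_4, r45_1_5], [r45_2_2, r45_2_3, r45_2_4, r45_2_5], [r45_3_3, r45_3_4, r45_3_5], [r45_4_4, r45_4_5], [r45_5_5]]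

theorem tri45 (E : Env κ ι) : TriG (ek E lk45) [F45_0 E, F45_1 E, F45_2 E, F45_3 E, F45_4 E, F45_5 E] tab45 := by
  refine triG_cons _ _ _ _ _ (row45_0 E) ?_
  refine triG_cons _ _ _ _ _ (row45_1 E) ?_
  refine triG_cons _ _ _ _ _ (row45_2 E) ?_
  refine triG_cons _ _ _ _ _ (row45_3 E) ?_
  refine triG_cons _ _ _ _ _ (row45_4 E) ?_
  refine triG_cons _ _ _ _ _ (row45_5 E) ?_
  exact triG_nil _

end

def lk46 : List Key := [
  (2, 7, [(0, [0], [0, 1]), (0, [0], [2, 3]), (0, [1], [0, 3]), (4, [], [1]), (0, [1], [4, 5]), (1, [], [4, 6]), (1, [], [2, 6]), (4, [], [5])]),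
  (2, 7, [(0, [0], [0, 1]), (0, [0], [2, 3]), (0, [1], [0, 3]), (4, [], [1]), (0, [1], [4, 5]), (1, [], [4, 6]), (1, [], [2, 5]), (4, [], [6])]),
  (2, 7, [(0, [0], [0, 1]), (0, [0], [2, 3]), (0, [1], [0, 1]), (4, [], [3]), (0, [1], [4, 5]), (1, [], [4, 6]), (1, [], [2, 6]), (4, [], [5])]),
  (2, 7, [(0, [0], [0, 1]), (0, [0], [2, 3]), (0, [1], [0, 1]), (4, [], [3]), (0, [1], [4, 5]), (1, [], [4, 6]), (1, [], [2, 5]), (4, [], [6])]),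
  (2, 7, [(0, [0], [0, 1]), (0, [0], [2, 3]), (0, [1], [0, 1]), (4, [], [4]), (0, [1], [5, 6]), (1, [], [2, 5]), (1, [], [3, 6]), (4, [], [4])]),
  (2, 7, [(0, [0], [0, 1]), (0, [0], [2, 3]), (0, [1], [0, 1]), (4, [], [4]), (0, [1], [2, 5]), (1, [], [5, 6]), (1, [], [3, 6]), (4, [], [4])]),
  (2, 7, [(0, [0], [0, 1]), (0, [0], [2, 3]), (0, [1], [0, 1]), (4, [], [4]), (0, [1], [2, 5]), (1, [], [5, 6]), (1, [], [3, 4]), (4, [], [6])]),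
  (2, 7, [(0, [0], [0, 1]), (0, [0], [2, 3]), (0, [1], [4, 0]), (4, [], [1]), (0, [1], [5, 6]), (1, [], [2, 5]), (1, [], [3, 6]), (4, [], [4])]),
  (2, 7, [(0, [0], [0, 1]), (0, [0], [2, 3]), (0, [1], [4, 0]), (4, [], [1]), (0, [1], [5, 6]), (1, [], [2, 5]), (1, [], [3, 4]), (4, [], [6])]),
  (2, 7, [(0, [0], [0, 1]), (0, [0], [2, 3]), (0, [1], [4, 0]), (4, [], [1]), (0, [1], [2, 5]), (1, [], [5, 6]), (1, [], [3, 6]), (4, [], [4])]),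
  (2, 7, [(0, [0], [0, 1]), (0, [0], [2, 3]), (0, [1], [4, 0]), (4, [], [1]), (0, [1], [2, 5]), (1, [], [5, 6]), (1, [], [3, 4]), (4, [], [6])]),
  (2, 7, [(0, [0], [0, 1]), (0, [0], [2, 3]), (0, [1], [1, 3]), (4, [], [4]), (0, [1], [5, 6]), (1, [], [0, 5]), (1, [], [2, 6]), (4, [], [4])]),
  (2, 7, [(0, [0], [0, 1]), (0, [0], [2, 3]), (0, [1], [1, 3]), (4, [], [4]), (0, [1], [5, 6]), (1, [], [0, 5]), (1, [], [2, 4]), (4, [], [6])]),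
  (2, 7, [(0, [0], [0, 1]), (0, [0], [2, 3]), (0, [1], [1, 3]), (4, [], [4]), (0, [1], [0, 5]), (1, [], [5, 6]), (1, [], [2, 6]), (4, [], [4])]),
  (2, 7, [(0, [0], [0, 1]), (0, [0], [2, 3]), (0, [1], [1, 3]), (4, [], [4]), (0, [1], [0, 5]), (1, [], [5, 6]), (1, [], [2, 4]), (4, [], [6])]),
  (2, 7, [(0, [0], [0, 1]), (0, [0], [2, 3]), (0, [1], [4, 3]), (4, [], [1]), (0, [1], [5, 6]), (1, [], [2, 5]), (1, [], [0, 4]), (4, [], [6])]),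
  (2, 7, [(0, [0], [0, 1]), (0, [0], [2, 3]), (0, [1], [4, 1]), (4, [], [5]), (0, [1], [2, 6]), (1, [], [0, 6]), (1, [], [3, 4]), (4, [], [5])])]

def kl46 : List ℕ := [128, 129, 135, 136, 271, 272, 273, 290, 292, 293, 295, 305, 306, 308, 309, 326, 431]

def m46_0 : Base := (1, 1, [(0, [0], [0, 5]), (0, [0], [1, 2]), (1, [], [3, 5]), (4, [], [4])])

def l46_0 : Cov := [(60, 1, 1, [(0, [0], [0, 5]), (0, [0], [1, 2]), (1, [], [3, 5]), (4, [], [4])]),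
  (-60, 1, 1, [(0, [0], [0, 5]), (0, [0], [1, 2]), (1, [], [4, 5]), (4, [], [3])]),
  (-60, 1, 1, [(0, [0], [0, 5]), (0, [0], [1, 3]), (1, [], [2, 5]), (4, [], [4])]),
  (60, 1, 1, [(0, [0], [0, 5]), (0, [0], [1, 3]), (1, [], [4, 5]), (4, [], [2])]),
  (60, 1, 1, [(0, [0], [0, 5]), (0, [0], [1, 4]), (1, [], [2, 5]), (4, [], [3])]),
  (-60, 1, 1, [(0, [0], [0, 5]), (0, [0], [1, 4]), (1, [], [3, 5]), (4, [], [2])]),
  (-60, 1, 1, [(0, [0], [2, 5]), (0, [0], [0, 1]), (1, [], [3, 5]), (4, [], [4])]),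
  (60, 1, 1, [(0, [0], [2, 5]), (0, [0], [0, 1]), (1, [], [4, 5]), (4, [], [3])]),
  (60, 1, 1, [(0, [0], [2, 5]), (0, [0], [1, 3]), (1, [], [0, 5]), (4, [], [4])]),
  (-60, 1, 1, [(0, [0], [2, 5]), (0, [0], [1, 3]), (1, [], [4, 5]), (4, [], [0])]),
  (-60, 1, 1, [(0, [0], [2, 5]), (0, [0], [1, 4]), (1, [], [0, 5]), (4, [], [3])]),
  (60, 1, 1, [(0, [0], [2, 5]), (0, [0], [1, 4]), (1, [], [3, 5]), (4, [], [0])]),
  (60, 1, 1, [(0, [0], [3, 5]), (0, [0], [0, 1]), (1, [], [2, 5]), (4, [], [4])]),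
  (-60, 1, 1, [(0, [0], [3, 5]), (0, [0], [0, 1]), (1, [], [4, 5]), (4, [], [2])]),
  (-60, 1, 1, [(0, [0], [3, 5]), (0, [0], [1, 2]), (1, [], [0, 5]), (4, [], [4])]),
  (60, 1, 1, [(0, [0], [3, 5]), (0, [0], [1, 2]), (1, [], [4, 5]), (4, [], [0])]),
  (60, 1, 1, [(0, [0], [3, 5]), (0, [0], [1, 4]), (1, [], [0, 5]), (4, [], [2])]),
  (-60, 1, 1, [(0, [0], [3, 5]), (0, [0], [1, 4]), (1, [], [2, 5]), (4, [], [0])]),
  (-60, 1, 1, [(0, [0], [4, 5]), (0, [0], [0, 1]), (1, [], [2, 5]), (4, [], [3])]),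
  (60, 1, 1, [(0, [0], [4, 5]), (0, [0], [0, 1]), (1, [], [3, 5]), (4, [], [2])]),
  (60, 1, 1, [(0, [0], [4, 5]), (0, [0], [1, 2]), (1, [], [0, 5]), (4, [], [3])]),
  (-60, 1, 1, [(0, [0], [4, 5]), (0, [0], [1, 2]), (1, [], [3, 5]), (4, [], [0])]),
  (-60, 1, 1, [(0, [0], [4, 5]), (0, [0], [1, 3]), (1, [], [0, 5]), (4, [], [2])]),
  (60, 1, 1, [(0, [0], [4, 5]), (0, [0], [1, 3]), (1, [], [2, 5]), (4, [], [0])])]

def z46_0 : Cov := [(0, 1, 1, [(0, [0], [0, 5]), (0, [0], [2, 3]), (1, [], [1, 5]), (4, [], [4])]),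
  (0, 1, 1, [(0, [0], [0, 5]), (0, [0], [2, 3]), (1, [], [4, 5]), (4, [], [1])]),
  (0, 1, 1, [(0, [0], [0, 5]), (0, [0], [2, 4]), (1, [], [1, 5]), (4, [], [3])]),
  (0, 1, 1, [(0, [0], [0, 5]), (0, [0], [2, 4]), (1, [], [3, 5]), (4, [], [1])]),
  (0, 1, 1, [(0, [0], [0, 5]), (0, [0], [3, 4]), (1, [], [1, 5]), (4, [], [2])]),
  (0, 1, 1, [(0, [0], [0, 5]), (0, [0], [3, 4]), (1, [], [2, 5]), (4, [], [1])]),
  (0, 1, 1, [(0, [0], [1, 5]), (0, [0], [0, 2]), (1, [], [3, 5]), (4, [], [4])]),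
  (0, 1, 1, [(0, [0], [1, 5]), (0, [0], [0, 2]), (1, [], [4, 5]), (4, [], [3])]),
  (0, 1, 1, [(0, [0], [1, 5]), (0, [0], [0, 3]), (1, [], [2, 5]), (4, [], [4])]),
  (0, 1, 1, [(0, [0], [1, 5]), (0, [0], [0, 3]), (1, [], [4, 5]), (4, [], [2])]),
  (0, 1, 1, [(0, [0], [1, 5]), (0, [0], [0, 4]), (1, [], [2, 5]), (4, [], [3])]),
  (0, 1, 1, [(0, [0], [1, 5]), (0, [0], [0, 4]), (1, [], [3, 5]), (4, [], [2])]),
  (0, 1, 1, [(0, [0], [1, 5]), (0, [0], [2, 3]), (1, [], [0, 5]), (4, [], [4])]),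
  (0, 1, 1, [(0, [0], [1, 5]), (0, [0], [2, 3]), (1, [], [4, 5]), (4, [], [0])]),
  (0, 1, 1, [(0, [0], [1, 5]), (0, [0], [2, 4]), (1, [], [0, 5]), (4, [], [3])]),
  (0, 1, 1, [(0, [0], [1, 5]), (0, [0], [2, 4]), (1, [], [3, 5]), (4, [], [0])]),
  (0, 1, 1, [(0, [0], [1, 5]), (0, [0], [3, 4]), (1, [], [0, 5]), (4, [], [2])]),
  (0, 1, 1, [(0, [0], [1, 5]), (0, [0], [3, 4]), (1, [], [2, 5]), (4, [], [0])]),
  (0, 1, 1, [(0, [0], [2, 5]), (0, [0], [0, 3]), (1, [], [1, 5]), (4, [], [4])]),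
  (0, 1, 1, [(0, [0], [2, 5]), (0, [0], [0, 3]), (1, [], [4, 5]), (4, [], [1])]),
  (0, 1, 1, [(0, [0], [2, 5]), (0, [0], [0, 4]), (1, [], [1, 5]), (4, [], [3])]),
  (0, 1, 1, [(0, [0], [2, 5]), (0, [0], [0, 4]), (1, [], [3, 5]), (4, [], [1])]),
  (0, 1, 1, [(0, [0], [2, 5]), (0, [0], [3, 4]), (1, [], [0, 5]), (4, [], [1])]),
  (0, 1, 1, [(0, [0], [2, 5]), (0, [0], [3, 4]), (1, [], [1, 5]), (4, [], [0])]),
  (0, 1, 1, [(0, [0], [3, 5]), (0, [0], [0, 2]), (1, [], [1, 5]), (4, [], [4])]),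
  (0, 1, 1, [(0, [0], [3, 5]), (0, [0], [0, 2]), (1, [], [4, 5]), (4, [], [1])]),
  (0, 1, 1, [(0, [0], [3, 5]), (0, [0], [0, 4]), (1, [], [1, 5]), (4, [], [2])]),
  (0, 1, 1, [(0, [0], [3, 5]), (0, [0], [0, 4]), (1, [], [2, 5]), (4, [], [1])]),
  (0, 1, 1, [(0, [0], [3, 5]), (0, [0], [2, 4]), (1, [], [0, 5]), (4, [], [1])]),
  (0, 1, 1, [(0, [0], [3, 5]), (0, [0], [2, 4]), (1, [], [1, 5]), (4, [], [0])]),
  (0, 1, 1, [(0, [0], [4, 5]), (0, [0], [0, 2]), (1, [], [1, 5]), (4, [], [3])]),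
  (0, 1, 1, [(0, [0], [4, 5]), (0, [0], [0, 2]), (1, [], [3, 5]), (4, [], [1])]),
  (0, 1, 1, [(0, [0], [4, 5]), (0, [0], [0, 3]), (1, [], [1, 5]), (4, [], [2])]),
  (0, 1, 1, [(0, [0], [4, 5]), (0, [0], [0, 3]), (1, [], [2, 5]), (4, [], [1])]),
  (0, 1, 1, [(0, [0], [4, 5]), (0, [0], [2, 3]), (1, [], [0, 5]), (4, [], [1])]),
  (0, 1, 1, [(0, [0], [4, 5]), (0, [0], [2, 3]), (1, [], [1, 5]), (4, [], [0])])]

def w46_0 : List (List Wit) := [[(0, 0, 0, 0, 0), (1, 0, 0, 0, 0), (2, 0, 0, 0, 0), (3, 0, 0, 0, 0), (4, 0, 0, 0, 0), (5, 0, 0, 0, 0), (0, 0, 0, 0, 0), (1, 0, 0, 0, 0), (24, 0, 0, 0, 0), (25, 0, 0, 0, 0), (26, 0, 0, 0, 0), (27, 0, 0, 0, 0), (2, 0, 0, 0, 0), (3, 0, 0, 0, 0), (24, 0, 0, 0, 0), (25, 0, 0, 0, 0), (28, 0, 0, 0, 0), (29, 0, 0, 0, 0), (4, 0, 0, 0, 0), (5, 0, 0, 0, 0), (26, 0, 0, 0, 0), (27, 0, 0, 0, 0), (28, 0, 0, 0, 0), (29, 0, 0, 0,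 0), (30, 0, 0, 0, 0), (31, 0, 0, 0, 0), (32, 0, 0, 0, 0), (33, 0, 0, 0, 0), (34, 0, 0, 0, 0), (35, 0, 0, 0, 0), (30, 0, 0, 0, 0), (31, 0, 0, 0, 0), (36, 0, 0, 0, 0), (37, 0, 0, 0, 0), (38, 0, 0, 0, 0), (39, 0, 0, 0, 0), (32, 0, 0, 0, 0), (33, 0, 0, 0, 0), (36, 0, 0, 0, 0), (37, 0, 0, 0, 0), (40, 0, 0, 0, 0), (41, 0, 0, 0, 0), (34, 0, 0, 0, 0), (35, 0, 0, 0, 0), (38, 0, 0, 0, 0), (39, 0, 0, 0, 0), (40, 0, 0, 0, 0), (41, 0, 0, 0, 0), (6, 0, 0, 0, 0), (7, 0, 0, 0, 0), (42, 0, 0, 0, 0), (43, 0, 0, 0, 0), (44, 0, 0, 0, 0), (45, 0, 0, 0, 0), (6, 0, 0, 0, 0), (7, 0, 0, 0, 0), (8, 0, 0, 0, 0), (9, 0, 0, 0, 0), (10, 0, 0, 0, 0), (11, 0, 0, 0, 0), (42, 0, 0, 0, 0), (43, 0, 0, 0, 0), (8, 0, 0, 0, 0), (9, 0, 0, 0, 0), (46, 0, 0, 0, 0), (47, 0, 0, 0, 0), (44, 0, 0, 0, 0), (45, 0, 0, 0, 0), (10, 0, 0, 0, 0), (11, 0, 0, 0, 0), (46, 0, 0, 0, 0), (47, 0, 0, 0, 0),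 (12, 0, 0, 0, 0), (13, 0, 0, 0, 0), (48, 0, 0, 0, 0), (49, 0, 0, 0, 0), (50, 0, 0, 0, 0), (51, 0, 0, 0, 0), (12, 0, 0, 0, 0), (13, 0, 0, 0, 0), (14, 0, 0, 0, 0), (15, 0, 0, 0, 0), (16, 0, 0, 0, 0), (17, 0, 0, 0, 0), (48, 0, 0, 0, 0), (49, 0, 0, 0, 0), (14, 0, 0, 0, 0), (15, 0, 0, 0, 0), (52, 0, 0, 0, 0), (53, 0, 0, 0, 0), (50, 0, 0, 0, 0), (51, 0, 0, 0, 0), (16, 0, 0, 0, 0), (17, 0, 0, 0, 0), (52, 0, 0, 0, 0), (53, 0, 0, 0, 0), (18, 0, 0, 0, 0), (19, 0, 0, 0, 0), (54, 0, 0, 0, 0), (55, 0, 0, 0, 0), (56, 0, 0, 0, 0), (57, 0, 0, 0, 0), (18, 0, 0, 0, 0), (19, 0, 0, 0, 0), (20, 0, 0, 0, 0), (21, 0, 0, 0, 0), (22, 0, 0, 0, 0), (23, 0, 0, 0, 0), (54, 0, 0, 0, 0), (55, 0, 0, 0, 0), (20, 0, 0, 0, 0), (21, 0, 0, 0, 0), (58, 0, 0, 0, 0), (59, 0, 0, 0, 0), (56, 0, 0, 0, 0), (57, 0, 0, 0, 0), (22, 0, 0, 0, 0), (23, 0, 0, 0, 0), (58, 0, 0, 0, 0), (59, 0, 0, 0,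 0)]]

theorem tr46 : trK keys lk46 kl46 = true := by
  decide +kernel

theorem x46_0 : expB 0 5 dg10 dg9 m46_0 (l46_0 ++ z46_0) w46_0 = true := by
  decide +kernel

theorem t46_0_0 : chkS lk46 0 5 [(1, m46_0)] l46_0
  [(5, 16, 16, 87318786, 56905761), (6, 16, 16, 87441666, 73617441), (16, 16, 16, 67461921, 54927621), (10, 16, 16, 87441666, 73617441), (10, 1, 1, 55665666, 55730241), (9, 16, 16, 87318786, 56905761), (13, 16, 16, 86269971, 56886546), (14, 16, 16, 86392851, 73598226), (11, 1, 1, 6562101, 84153126), (12, 1, 1, 39060246, 5514771), (1, 1, 1, 37839621, 50669121), (0, 1, 1, 37839621, 50669121), (11, 16, 16, 100946481, 104075781), (1, 16, 16, 69619971, 70649121), (4, 16, 16, 87318786, 56905761), (3, 16, 16, 69619971, 70649121), (7, 16, 16, 87318786, 56905761), (8, 1, 1, 55649286, 5399361), (12, 16, 16, 86392851, 73598226), (0, 16, 16, 69558531,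 54920481), (3, 1, 1, 37970181, 50677281), (2, 16, 16, 69558531, 54920481), (8, 16, 16, 87441666, 73617441), (15, 16, 16, 84296241, 73601541)]
  [(0, 120), (1, -120), (2, -60), (3, 120), (4, -60), (5, 60), (6, -60), (7, 60), (8, -120), (9, -60), (10, 120), (11, 120), (12, -120), (13, -60), (14, 60), (15, 60), (16, -60)] = true := by
  decide +kernel

section

variable {κ ι : Type*} [Fintype κ] [Fintype ι] [Inhabited κ] [Inhabited ι]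

noncomputable def F46_0 (E : Env κ ι) : (Fin 0 → κ) → (Fin 5 → ι) → ℝ := op2 (P10 κ) (P9 ι) (fB E 0 5 m46_0)

def r46_0_0 : List (ℕ × ℤ) := [(0, 120), (1, -120), (2, -60), (3, 120), (4, -60), (5, 60), (6, -60), (7, 60), (8, -120), (9, -60), (10, 120), (11, 120), (12, -120), (13, -60), (14, 60), (15, 60), (16, -60)]

theorem h46_0_0 (E : Env κ ι) : ip (F46_0 E) (F46_0 E) = dotS (ek E lk46) r46_0_0 :=
  op_entryZ E lk46 0 5 _ _ _ _ (pg10 κ) (pg9 ι) m46_0 m46_0 l46_0 z46_0 w46_0 x46_0 (by decide) _ (chkS_sound E lk46 0 5 _ _ _ _ t46_0_0)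

theorem row46_0 (E : Env κ ι) : RowG (ek E lk46) (F46_0 E) [F46_0 E] [r46_0_0] :=
  rowG_cons _ _ _ _ _ _ (h46_0_0 E) (rowG_nil _ _)

def tab46 : List (List (List (ℕ × ℤ))) := [[r46_0_0]]

theorem tri46 (E : Env κ ι) : TriG (ek E lk46) [F46_0 E] tab46 := by
  refine triG_cons _ _ _ _ _ (row46_0 E) ?_
  exact triG_nil _

end

def lk47 : List Key := [
  (2, 5, [(0, [0], [0, 1]), (0, [1], [0, 2]), (0, [1], [3, 4]), (0, [0], [3, 4]), (4, [], [2]), (4, [], [1])]),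
  (2, 7, [(0, [0], [0, 1]), (0, [1], [0, 2]), (0, [1], [3, 4]), (0, [0], [5, 6]), (1, [], [5, 6]), (1, [], [3, 4]), (4, [], [2]), (4, [], [1])]),
  (2, 5, [(0, [0], [0, 1]), (0, [1], [0, 2]), (0, [0], [2, 3]), (0, [1], [1, 4]), (4, [], [4]), (4, [], [3])]),
  (2, 5, [(0, [0], [0, 1]), (0, [0], [2, 3]), (2, [1], [2, 3, 4]), (2, [1], [0, 1, 4])]),
  (2, 6, [(0, [0], [0, 1]), (0, [0], [2, 3]), (0, [1], [4, 5]), (1, [], [0, 1]), (2, [1], [2, 3, 4]), (4, [], [5])]),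
  (2, 5, [(0, [0], [0, 1]), (0, [1], [2, 3]), (2, [0], [2, 3, 4]), (2, [1], [0, 1, 4])]),
  (2, 6, [(0, [0], [0, 1]), (0, [0], [2, 3]), (0, [1], [4, 5]), (1, [], [4, 5]), (2, [1], [0, 2, 3]), (4, [], [1])]),
  (2, 6, [(0, [0], [0, 1]), (0, [0], [2, 3]), (0, [1], [4, 5]), (1, [], [0, 4]), (2, [1], [2, 3, 5]), (4, [], [1])]),
  (2, 7, [(0, [0], [0, 1]), (0, [0], [2, 3]), (0, [1], [4, 5]), (0, [1], [4, 6]), (1, [], [0, 5]), (1, [], [2, 3]), (4, [], [1]), (4, [], [6])]),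
  (2, 6, [(0, [0], [0, 1]), (0, [0], [2, 3]), (0, [1], [4, 5]), (1, [], [0, 4]), (2, [1], [1, 2, 3]), (4, [], [5])]),
  (2, 6, [(0, [0], [0, 1]), (0, [0], [2, 3]), (0, [1], [0, 4]), (1, [], [4, 5]), (2, [1], [2, 3, 5]), (4, [], [1])]),
  (2, 7, [(0, [0], [0, 1]), (0, [1], [0, 2]), (0, [0], [3, 4]), (0, [1], [5, 6]), (1, [], [1, 3]), (1, [], [5, 6]), (4, [], [2]), (4, [], [4])]),
  (2, 6, [(0, [0], [0, 1]), (0, [0], [2, 3]), (0, [1], [0, 4]), (1, [], [1, 5]), (2, [1], [2, 3, 5]), (4, [], [4])]),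
  (2, 6, [(0, [0], [0, 1]), (0, [0], [2, 3]), (0, [1], [0, 4]), (1, [], [1, 5]), (2, [1], [2, 3, 4]), (4, [], [5])]),
  (2, 7, [(0, [0], [0, 1]), (0, [0], [2, 3]), (0, [1], [0, 4]), (0, [1], [4, 5]), (1, [], [1, 6]), (1, [], [2, 3]), (4, [], [5]), (4, [], [6])]),
  (2, 6, [(0, [0], [0, 1]), (0, [0], [2, 3]), (0, [1], [0, 4]), (1, [], [4, 5]), (2, [1], [1, 2, 3]), (4, [], [5])]),
  (2, 7, [(0, [0], [0, 1]), (0, [1], [0, 2]), (0, [1], [1, 3]), (0, [0], [4, 5]), (1, [], [2, 6]), (1, [], [4, 5]), (4, [], [3]), (4, [], [6])]),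
  (2, 6, [(0, [0], [0, 1]), (0, [0], [2, 3]), (0, [1], [0, 4]), (0, [1], [4, 5]), (1, [], [2, 3]), (4, [], [1]), (4, [], [5])]),
  (2, 5, [(0, [0], [0, 1]), (0, [0], [2, 3]), (0, [1], [0, 4]), (2, [1], [1, 2, 3]), (4, [], [4])]),
  (2, 5, [(0, [0], [0, 1]), (0, [0], [2, 3]), (0, [1], [0, 4]), (2, [1], [2, 3, 4]), (4, [], [1])]),
  (2, 6, [(0, [0], [0, 1]), (0, [1], [0, 2]), (0, [1], [1, 3]), (0, [0], [4, 5]), (1, [], [4, 5]), (4, [], [3]), (4, [], [2])]),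
  (2, 6, [(0, [0], [0, 1]), (0, [1], [0, 2]), (0, [1], [1, 3]), (0, [0], [4, 5]), (1, [], [2, 4]), (4, [], [3]), (4, [], [5])]),
  (2, 6, [(0, [0], [0, 1]), (0, [0], [2, 3]), (0, [1], [0, 4]), (0, [1], [4, 5]), (1, [], [2, 5]), (4, [], [1]), (4, [], [3])]),
  (2, 6, [(0, [0], [0, 1]), (0, [1], [2, 3]), (0, [0], [2, 4]), (0, [1], [0, 5]), (1, [], [1, 3]), (4, [], [5]), (4, [], [4])]),
  (2, 6, [(0, [0], [0, 1]), (0, [0], [2, 3]), (0, [1], [2, 4]), (0, [1], [0, 5]), (1, [], [1, 3]), (4, [], [5]), (4, [], [4])]),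
  (2, 6, [(0, [0], [0, 1]), (0, [1], [0, 2]), (0, [0], [2, 3]), (0, [1], [1, 4]), (1, [], [3, 5]), (4, [], [4]), (4, [], [5])]),
  (2, 6, [(0, [0], [0, 1]), (0, [0], [2, 3]), (0, [1], [0, 4]), (0, [1], [2, 4]), (1, [], [1, 5]), (4, [], [3]), (4, [], [5])]),
  (2, 5, [(0, [0], [0, 1]), (0, [0], [2, 3]), (0, [1], [2, 4]), (0, [1], [0, 4]), (4, [], [3]), (4, [], [1])]),
  (2, 7, [(0, [0], [0, 1]), (0, [0], [2, 3]), (0, [1], [0, 1]), (4, [], [3]), (0, [1], [4, 5]), (1, [], [4, 6]), (1, [], [2, 5]), (4, [], [6])]),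
  (2, 7, [(0, [0], [0, 1]), (0, [0], [2, 3]), (0, [1], [0, 1]), (4, [], [3]), (0, [1], [4, 5]), (1, [], [4, 5]), (1, [], [2, 6]), (4, [], [6])]),
  (2, 6, [(0, [0], [0, 1]), (0, [0], [2, 3]), (0, [1], [0, 1]), (4, [], [3]), (0, [1], [4, 5]), (1, [], [4, 5]), (4, [], [2])]),
  (2, 6, [(0, [0], [0, 1]), (0, [0], [2, 3]), (0, [1], [0, 1]), (4, [], [3]), (0, [1], [4, 5]), (1, [], [2, 4]), (4, [], [5])]),
  (2, 7, [(0, [0], [0, 1]), (0, [0], [2, 3]), (0, [1], [0, 1]), (4, [], [3]), (0, [1], [2, 4]), (1, [], [5, 6]), (1, [], [4, 5]), (4, [], [6])]),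
  (2, 6, [(0, [0], [0, 1]), (0, [0], [2, 3]), (0, [1], [0, 1]), (4, [], [3]), (0, [1], [2, 4]), (1, [], [4, 5]), (4, [], [5])]),
  (2, 7, [(0, [0], [0, 1]), (0, [0], [2, 0]), (0, [1], [3, 1]), (4, [], [4]), (0, [1], [5, 6]), (1, [], [2, 5]), (1, [], [3, 4]), (4, [], [6])]),
  (2, 7, [(0, [0], [0, 1]), (0, [0], [2, 0]), (0, [1], [3, 1]), (4, [], [4]), (0, [1], [2, 5]), (1, [], [5, 6]), (1, [], [3, 4]), (4, [], [6])]),
  (2, 7, [(0, [0], [0, 1]), (0, [0], [2, 0]), (0, [1], [3, 4]), (4, [], [1]), (0, [1], [5, 6]), (1, [], [5, 6]), (1, [], [3, 4]), (4, [], [2])]),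
  (2, 7, [(0, [0], [0, 1]), (0, [0], [2, 3]), (0, [1], [0, 1]), (4, [], [4]), (0, [1], [2, 5]), (1, [], [5, 6]), (1, [], [3, 4]), (4, [], [6])]),
  (2, 7, [(0, [0], [0, 1]), (0, [0], [2, 3]), (0, [1], [0, 1]), (4, [], [4]), (0, [1], [2, 5]), (1, [], [4, 6]), (1, [], [3, 5]), (4, [], [6])]),
  (2, 6, [(0, [0], [0, 1]), (0, [0], [2, 3]), (0, [1], [0, 1]), (4, [], [4]), (0, [1], [2, 5]), (1, [], [3, 5]), (4, [], [4])]),
  (2, 7, [(0, [0], [0, 1]), (0, [0], [2, 3]), (0, [1], [0, 1]), (4, [], [4]), (0, [1], [2, 3]), (1, [], [5, 6]), (1, [], [4, 5]), (4, [], [6])]),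
  (2, 6, [(0, [0], [0, 1]), (0, [0], [2, 3]), (0, [1], [0, 1]), (4, [], [4]), (0, [1], [2, 3]), (1, [], [4, 5]), (4, [], [5])]),
  (2, 5, [(0, [0], [0, 1]), (0, [0], [2, 3]), (0, [1], [0, 1]), (4, [], [4]), (0, [1], [2, 3]), (4, [], [4])]),
  (2, 6, [(0, [0], [0, 1]), (0, [0], [2, 3]), (0, [1], [0, 1]), (4, [], [4]), (1, [], [4, 5]), (2, [1], [2, 3, 5])]),
  (2, 5, [(0, [0], [0, 1]), (0, [0], [2, 3]), (0, [1], [0, 1]), (4, [], [4]), (2, [1], [2, 3, 4])]),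
  (2, 7, [(0, [0], [0, 1]), (0, [0], [2, 3]), (0, [1], [4, 0]), (4, [], [1]), (0, [1], [5, 6]), (1, [], [5, 6]), (1, [], [2, 4]), (4, [], [3])]),
  (2, 7, [(0, [0], [0, 1]), (0, [0], [2, 3]), (0, [1], [4, 0]), (4, [], [1]), (0, [1], [5, 6]), (1, [], [2, 5]), (1, [], [4, 6]), (4, [], [3])]),
  (2, 7, [(0, [0], [0, 1]), (0, [0], [2, 3]), (0, [1], [4, 0]), (4, [], [1]), (0, [1], [5, 6]), (1, [], [2, 5]), (1, [], [3, 4]), (4, [], [6])]),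
  (2, 7, [(0, [0], [0, 1]), (0, [0], [2, 3]), (0, [1], [4, 0]), (4, [], [1]), (0, [1], [2, 5]), (1, [], [5, 6]), (1, [], [4, 6]), (4, [], [3])]),
  (2, 7, [(0, [0], [0, 1]), (0, [0], [2, 3]), (0, [1], [4, 0]), (4, [], [1]), (0, [1], [2, 5]), (1, [], [5, 6]), (1, [], [3, 4]), (4, [], [6])]),
  (2, 7, [(0, [0], [0, 1]), (0, [0], [2, 3]), (0, [1], [4, 0]), (4, [], [1]), (0, [1], [2, 5]), (1, [], [3, 6]), (1, [], [4, 6]), (4, [], [5])]),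
  (2, 7, [(0, [0], [0, 1]), (0, [0], [2, 3]), (0, [1], [4, 0]), (4, [], [1]), (0, [1], [2, 5]), (1, [], [3, 6]), (1, [], [4, 5]), (4, [], [6])]),
  (2, 7, [(0, [0], [0, 1]), (0, [0], [2, 3]), (0, [1], [4, 0]), (4, [], [1]), (0, [1], [2, 5]), (1, [], [4, 6]), (1, [], [3, 5]), (4, [], [6])]),
  (2, 6, [(0, [0], [0, 1]), (0, [0], [2, 3]), (0, [1], [4, 0]), (4, [], [1]), (0, [1], [2, 5]), (1, [], [3, 5]), (4, [], [4])]),
  (2, 7, [(0, [0], [0, 1]), (0, [0], [2, 3]), (0, [1], [1, 3]), (4, [], [4]), (0, [1], [5, 6]), (1, [], [0, 5]), (1, [], [2, 4]), (4, [], [6])]),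
  (2, 7, [(0, [0], [0, 1]), (0, [0], [2, 3]), (0, [1], [1, 3]), (4, [], [4]), (0, [1], [0, 5]), (1, [], [5, 6]), (1, [], [2, 4]), (4, [], [6])]),
  (2, 7, [(0, [0], [0, 1]), (0, [0], [2, 3]), (0, [1], [4, 3]), (4, [], [1]), (0, [1], [5, 6]), (1, [], [5, 6]), (1, [], [2, 4]), (4, [], [0])]),
  (2, 7, [(0, [0], [0, 1]), (0, [0], [2, 3]), (0, [1], [4, 3]), (4, [], [1]), (0, [1], [5, 6]), (1, [], [0, 5]), (1, [], [2, 4]), (4, [], [6])]),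
  (2, 7, [(0, [0], [0, 1]), (0, [0], [2, 3]), (0, [1], [4, 3]), (4, [], [1]), (0, [1], [5, 6]), (1, [], [2, 5]), (1, [], [0, 4]), (4, [], [6])]),
  (2, 7, [(0, [0], [0, 1]), (0, [0], [2, 1]), (0, [1], [3, 4]), (4, [], [4]), (0, [1], [5, 6]), (1, [], [0, 5]), (1, [], [2, 3]), (4, [], [6])]),
  (2, 7, [(0, [0], [0, 1]), (0, [0], [2, 3]), (0, [1], [4, 1]), (4, [], [5]), (0, [1], [2, 6]), (1, [], [3, 6]), (1, [], [0, 4]), (4, [], [5])]),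
  (2, 6, [(0, [0], [0, 1]), (0, [0], [2, 3]), (0, [1], [4, 1]), (4, [], [5]), (1, [], [0, 4]), (2, [1], [2, 3, 5])])]

def kl47 : List ℕ := [6, 10, 34, 37, 38, 39, 40, 41, 42, 43, 44, 45, 46, 48, 50, 53, 55, 75, 81, 82, 83, 84, 85, 86, 87, 88, 90, 93, 136, 137, 138, 139, 141, 142, 228, 233, 254, 273, 274, 275, 278, 279, 280, 282, 283, 289, 291, 292, 294, 295, 296, 297, 298, 299, 306, 309, 323, 325, 326, 334, 432, 435]

def m47_0 : Base := (0, 3, [(0, [0], [1, 2]), (0, [1], [1, 3]), (1, [], [2, 3]), (4, [], [0])])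

def l47_0 : Cov := [(4, 0, 3, [(0, [0], [1, 2]), (0, [1], [1, 3]), (1, [], [2, 3]), (4, [], [0])])]

def z47_0 : Cov := []

def w47_0 : List (List Wit) := [[(0, 0, 0, 528, 528)],
  [(0, 0, 0, 288, 288)]]

def m47_1 : Base := (0, 3, [(0, [0], [1, 2]), (0, [1], [1, 3]), (1, [], [0, 3]), (4, [], [2])])

def l47_1 : Cov := [(2, 0, 3, [(0, [0], [1, 2]), (0, [1], [1, 3]), (1, [], [0, 3]), (4, [], [2])]),
  (2, 0, 3, [(0, [1], [1, 2]), (0, [0], [1, 3]), (1, [], [0, 3]), (4, [], [2])])]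

def z47_1 : Cov := []

def w47_1 : List (List Wit) := [[(0, 0, 0, 528, 528)],
  [(1, 0, 0, 528, 528)]]

def m47_2 : Base := (0, 3, [(0, [0], [1, 2]), (0, [1], [1, 2]), (1, [], [0, 3]), (4, [], [3])])

def l47_2 : Cov := [(4, 0, 3, [(0, [0], [1, 2]), (0, [1], [1, 2]), (1, [], [0, 3]), (4, [], [3])])]

def z47_2 : Cov := []

def w47_2 : List (List Wit) := [[(0, 0, 0, 528, 528)],
  [(0, 0, 0, 528, 528)]]

def m47_3 : Base := (0, 2, [(0, [0], [1, 2]), (0, [1], [1, 2]), (4, [], [0])])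

def l47_3 : Cov := [(4, 0, 2, [(0, [0], [1, 2]), (0, [1], [1, 2]), (4, [], [0])])]

def z47_3 : Cov := []

def w47_3 : List (List Wit) := [[(0, 0, 0, 16, 16)],
  [(0, 0, 0, 16, 16)]]

def m47_4 : Base := (0, 3, [(0, [0], [1, 2]), (0, [1], [0, 3]), (1, [], [1, 3]), (4, [], [2])])

def l47_4 : Cov := [(2, 0, 3, [(0, [0], [1, 2]), (0, [1], [0, 3]), (1, [], [1, 3]), (4, [], [2])]),
  (2, 0, 3, [(0, [1], [1, 2]), (0, [0], [0, 3]), (1, [], [1, 3]), (4, [], [2])])]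

def z47_4 : Cov := []

def w47_4 : List (List Wit) := [[(0, 0, 0, 528, 528)],
  [(1, 0, 0, 528, 528)]]

def m47_5 : Base := (0, 3, [(0, [0], [1, 2]), (0, [1], [0, 3]), (1, [], [1, 2]), (4, [], [3])])

def l47_5 : Cov := [(2, 0, 3, [(0, [0], [1, 2]), (0, [1], [0, 3]), (1, [], [1, 2]), (4, [], [3])]),
  (2, 0, 3, [(0, [1], [1, 2]), (0, [0], [0, 3]), (1, [], [1, 2]), (4, [], [3])])]

def z47_5 : Cov := []

def w47_5 : List (List Wit) := [[(0, 0, 0, 528, 528)],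
  [(1, 0, 0, 528, 528)]]

def m47_6 : Base := (0, 3, [(0, [0], [1, 2]), (0, [1], [0, 1]), (1, [], [2, 3]), (4, [], [3])])

def l47_6 : Cov := [(2, 0, 3, [(0, [0], [1, 2]), (0, [1], [0, 1]), (1, [], [2, 3]), (4, [], [3])]),
  (2, 0, 3, [(0, [1], [1, 2]), (0, [0], [0, 1]), (1, [], [2, 3]), (4, [], [3])])]

def z47_6 : Cov := []

def w47_6 : List (List Wit) := [[(0, 0, 0, 528, 528)],
  [(1, 0, 0, 528, 528)]]

def m47_7 : Base := (0, 2, [(0, [0], [1, 2]), (0, [1], [0, 1]), (4, [], [2])])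

def l47_7 : Cov := [(2, 0, 2, [(0, [0], [1, 2]), (0, [1], [0, 1]), (4, [], [2])]),
  (2, 0, 2, [(0, [1], [1, 2]), (0, [0], [0, 1]), (4, [], [2])])]

def z47_7 : Cov := []

def w47_7 : List (List Wit) := [[(0, 0, 0, 16, 16)],
  [(1, 0, 0, 16, 16)]]

def m47_8 : Base := (0, 2, [(0, [0], [1, 2]), (2, [1], [0, 1, 2])])

def l47_8 : Cov := [(2, 0, 2, [(0, [0], [1, 2]), (2, [1], [0, 1, 2])]),
  (2, 0, 2, [(0, [1], [1, 2]), (2, [0], [0, 1, 2])])]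

def z47_8 : Cov := []

def w47_8 : List (List Wit) := [[(0, 0, 0, 16, 16)],
  [(1, 0, 0, 16, 16)]]

theorem tr47 : trK keys lk47 kl47 = true := by
  decide +kernel

theorem x47_0 : expB 2 1 dg11 dg0 m47_0 (l47_0 ++ z47_0) w47_0 = true := by
  decide +kernel

theorem x47_1 : expB 2 1 dg11 dg0 m47_1 (l47_1 ++ z47_1) w47_1 = true := by
  decide +kernel

theorem x47_2 : expB 2 1 dg11 dg0 m47_2 (l47_2 ++ z47_2) w47_2 = true := by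
  decide +kernel

theorem x47_3 : expB 2 1 dg11 dg0 m47_3 (l47_3 ++ z47_3) w47_3 = true := by
  decide +kernel

theorem x47_4 : expB 2 1 dg11 dg0 m47_4 (l47_4 ++ z47_4) w47_4 = true := by
  decide +kernel

theorem x47_5 : expB 2 1 dg11 dg0 m47_5 (l47_5 ++ z47_5) w47_5 = true := by
  decide +kernel

theorem x47_6 : expB 2 1 dg11 dg0 m47_6 (l47_6 ++ z47_6) w47_6 = true := by
  decide +kernel

theorem x47_7 : expB 2 1 dg11 dg0 m47_7 (l47_7 ++ z47_7) w47_7 = true := by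
  decide +kernel

theorem x47_8 : expB 2 1 dg11 dg0 m47_8 (l47_8 ++ z47_8) w47_8 = true := by
  decide +kernel

theorem t47_0_0 : chkS lk47 2 1 [(1, m47_0)] l47_0
  [(60, 16, 16, 103956501, 100881426)]
  [(60, 4)] = true := by
  decide +kernel

theorem t47_0_1 : chkS lk47 2 1 [(1, m47_0)] l47_1
  [(52, 16, 16, 68178726, 3547476), (52, 1, 1, 68171046, 2502996)]
  [(52, 4)] = true := by
  decide +kernel

theorem t47_0_2 : chkS lk47 2 1 [(1, m47_0)] l47_2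
  [(38, 16, 16, 101733156, 103817556)]
  [(38, 4)] = true := by
  decide +kernel

theorem t47_0_3 : chkS lk47 2 1 [(1, m47_0)] l47_3
  [(39, 16, 16, 1069860, 3154260)]
  [(39, 4)] = true := by
  decide +kernel

theorem t47_0_4 : chkS lk47 2 1 [(1, m47_0)] l47_4
  [(57, 16, 16, 84951606, 6492756), (57, 1, 1, 84943926, 6427476)]
  [(57, 4)] = true := by
  decide +kernel

theorem t47_0_5 : chkS lk47 2 1 [(1, m47_0)] l47_5
  [(56, 1, 1, 23405616, 88216416), (56, 16, 16, 23413296, 88281696)]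
  [(56, 4)] = true := by
  decide +kernel

theorem t47_0_6 : chkS lk47 2 1 [(1, m47_0)] l47_6
  [(52, 1, 1, 104871201, 103100676), (52, 16, 16, 104878881, 104145156)]
  [(52, 4)] = true := by
  decide +kernel

theorem t47_0_7 : chkS lk47 2 1 [(1, m47_0)] l47_7
  [(53, 16, 16, 1069860, 3154260), (53, 1, 1, 1062180, 2109780)]
  [(53, 4)] = true := by
  decide +kernel

theorem t47_0_8 : chkS lk47 2 1 [(1, m47_0)] l47_8
  [(61, 16, 16, 3293205, 218130), (61, 1, 1, 3277845, 152595)]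
  [(61, 4)] = true := by
  decide +kernel

theorem t47_1_1 : chkS lk47 2 1 [(1, m47_1)] l47_1
  [(48, 16, 16, 87179526, 6509601), (50, 16, 16, 55722246, 5465121)]
  [(48, 2), (50, 2)] = true := by
  decide +kernel

theorem t47_1_2 : chkS lk47 2 1 [(1, m47_1)] l47_2
  [(32, 16, 16, 101729061, 100868436)]
  [(32, 4)] = true := by
  decide +kernel

theorem t47_1_3 : chkS lk47 2 1 [(1, m47_1)] l47_3
  [(33, 16, 16, 1065765, 205140)]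
  [(33, 4)] = true := by
  decide +kernel

theorem t47_1_4 : chkS lk47 2 1 [(1, m47_1)] l47_4
  [(46, 16, 16, 87179526, 6509601), (47, 16, 16, 40190211, 88278561)]
  [(46, 2), (47, 2)] = true := by
  decide +kernel

theorem t47_1_5 : chkS lk47 2 1 [(1, m47_1)] l47_5
  [(11, 1, 1, 73732611, 88474161), (45, 16, 16, 56967426, 88301601)]
  [(11, 2), (45, 2)] = true := by
  decide +kernel

theorem t47_1_6 : chkS lk47 2 1 [(1, m47_1)] l47_6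
  [(51, 16, 16, 103956741, 100881441), (49, 16, 16, 106053891, 106103841)]
  [(49, 2), (51, 2)] = true := by
  decide +kernel

theorem t47_1_7 : chkS lk47 2 1 [(1, m47_1)] l47_7
  [(24, 1, 1, 4330755, 2425905), (23, 1, 1, 4330755, 2425905)]
  [(23, 2), (24, 2)] = true := by
  decide +kernel

theorem t47_1_8 : chkS lk47 2 1 [(1, m47_1)] l47_8
  [(10, 16, 16, 3293445, 218145), (12, 1, 1, 3281925, 152625)]
  [(10, 2), (12, 2)] = true := by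
  decide +kernel

theorem t47_2_2 : chkS lk47 2 1 [(1, m47_2)] l47_2
  [(40, 16, 16, 103956741, 100881441)]
  [(40, 4)] = true := by
  decide +kernel

theorem t47_2_3 : chkS lk47 2 1 [(1, m47_2)] l47_3
  [(41, 16, 16, 3293445, 218145)]
  [(41, 4)] = true := by
  decide +kernel

theorem t47_2_4 : chkS lk47 2 1 [(1, m47_2)] l47_4
  [(28, 16, 16, 87187716, 56644641), (28, 1, 1, 87187716, 56644641)]
  [(28, 4)] = true := by
  decide +kernel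

theorem t47_2_5 : chkS lk47 2 1 [(1, m47_2)] l47_5
  [(29, 1, 1, 55861506, 55861281), (29, 16, 16, 55861506, 55861281)]
  [(29, 4)] = true := by
  decide +kernel

theorem t47_2_6 : chkS lk47 2 1 [(1, m47_2)] l47_6
  [(37, 16, 16, 70410501, 50746401), (37, 16, 16, 106053891, 106103841)]
  [(37, 4)] = true := by
  decide +kernel

theorem t47_2_7 : chkS lk47 2 1 [(1, m47_2)] l47_7
  [(33, 16, 16, 3297540, 3167265), (33, 1, 1, 3297540, 3167265)]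
  [(33, 4)] = true := by
  decide +kernel

theorem t47_2_8 : chkS lk47 2 1 [(1, m47_2)] l47_8
  [(43, 16, 16, 3293445, 218145), (43, 1, 1, 3293445, 218145)]
  [(43, 4)] = true := by
  decide +kernel

theorem t47_3_3 : chkS lk47 2 1 [(1, m47_3)] l47_3
  [(42, 16, 16, 205060, 17185)]
  [(42, 4)] = true := by
  decide +kernel

theorem t47_3_4 : chkS lk47 2 1 [(1, m47_3)] l47_4
  [(31, 16, 16, 4399365, 344865), (31, 16, 16, 2441475, 4392225)]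
  [(31, 4)] = true := by
  decide +kernel

theorem t47_3_5 : chkS lk47 2 1 [(1, m47_3)] l47_5
  [(30, 1, 1, 3490050, 4411425), (30, 16, 16, 3490050, 4411425)]
  [(30, 4)] = true := by
  decide +kernel

theorem t47_3_6 : chkS lk47 2 1 [(1, m47_3)] l47_6
  [(33, 1, 1, 5513475, 5505825), (33, 16, 16, 5513475, 5505825)]
  [(33, 4)] = true := by
  decide +kernel

theorem t47_3_7 : chkS lk47 2 1 [(1, m47_3)] l47_7
  [(0, 16, 16, 66610, 135235), (0, 1, 1, 66610, 135235)]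
  [(0, 4)] = true := by
  decide +kernel

theorem t47_3_8 : chkS lk47 2 1 [(1, m47_3)] l47_8
  [(44, 16, 16, 205060, 17185), (44, 1, 1, 205060, 17185)]
  [(44, 4)] = true := by
  decide +kernel

theorem t47_4_4 : chkS lk47 2 1 [(1, m47_4)] l47_4
  [(59, 1, 1, 37946961, 34948611), (58, 16, 16, 40190211, 88278561)]
  [(58, 2), (59, 2)] = true := by
  decide +kernel

theorem t47_4_5 : chkS lk47 2 1 [(1, m47_4)] l47_5
  [(8, 16, 16, 103960836, 103830561), (45, 16, 16, 23413536, 88285536)]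
  [(8, 2), (45, 2)] = true := by
  decide +kernel

theorem t47_4_6 : chkS lk47 2 1 [(1, m47_4)] l47_6
  [(34, 1, 1, 70329936, 35017536), (54, 1, 1, 69404241, 35013891)]
  [(34, 2), (54, 2)] = true := by
  decide +kernel

theorem t47_4_7 : chkS lk47 2 1 [(1, m47_4)] l47_7
  [(22, 16, 16, 1069860, 3154260), (21, 16, 16, 3220800, 2184000)]
  [(21, 2), (22, 2)] = true := by
  decide +kernel

theorem t47_4_8 : chkS lk47 2 1 [(1, m47_4)] l47_8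
  [(7, 16, 16, 3293445, 218145), (9, 1, 1, 3278145, 2184195)]
  [(7, 2), (9, 2)] = true := by
  decide +kernel

theorem t47_5_5 : chkS lk47 2 1 [(1, m47_5)] l47_5
  [(36, 1, 1, 40178736, 88217136), (1, 1, 1, 40178736, 88217136)]
  [(1, 2), (36, 2)] = true := by
  decide +kernel

theorem t47_5_6 : chkS lk47 2 1 [(1, m47_5)] l47_6
  [(14, 16, 16, 101733156, 103817556), (16, 16, 16, 102774081, 102839556)]
  [(14, 2), (16, 2)] = true := by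
  decide +kernel

theorem t47_5_7 : chkS lk47 2 1 [(1, m47_5)] l47_7
  [(17, 16, 16, 1069860, 3154260), (20, 16, 16, 3220800, 2184000)]
  [(17, 2), (20, 2)] = true := by
  decide +kernel

theorem t47_5_8 : chkS lk47 2 1 [(1, m47_5)] l47_8
  [(4, 16, 16, 3297540, 3167265), (6, 1, 1, 3282240, 2184240)]
  [(4, 2), (6, 2)] = true := by
  decide +kernel

theorem t47_6_6 : chkS lk47 2 1 [(1, m47_6)] l47_6
  [(35, 1, 1, 106054416, 106112016), (55, 1, 1, 69428481, 52839681)]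
  [(35, 2), (55, 2)] = true := by
  decide +kernel

theorem t47_6_7 : chkS lk47 2 1 [(1, m47_6)] l47_7
  [(26, 16, 16, 3297540, 3167265), (25, 16, 16, 4281120, 3481920)]
  [(25, 2), (26, 2)] = true := by
  decide +kernel

theorem t47_6_8 : chkS lk47 2 1 [(1, m47_6)] l47_8
  [(13, 16, 16, 3297540, 3167265), (15, 1, 1, 3298305, 3298305)]
  [(13, 2), (15, 2)] = true := by
  decide +kernel

theorem t47_7_7 : chkS lk47 2 1 [(1, m47_7)] l47_7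
  [(27, 16, 16, 205060, 17185), (2, 1, 1, 205840, 148240)]
  [(2, 2), (27, 2)] = true := by
  decide +kernel

theorem t47_7_8 : chkS lk47 2 1 [(1, m47_7)] l47_8
  [(19, 16, 16, 205060, 17185), (18, 1, 1, 205825, 148225)]
  [(18, 2), (19, 2)] = true := by
  decide +kernel

theorem t47_8_8 : chkS lk47 2 1 [(1, m47_8)] l47_8
  [(3, 16, 16, 143620, 13345), (5, 16, 16, 143620, 13345)]
  [(3, 2), (5, 2)] = true := by
  decide +kernel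

section

variable {κ ι : Type*} [Fintype κ] [Fintype ι] [Inhabited κ] [Inhabited ι]

noncomputable def F47_0 (E : Env κ ι) : (Fin 2 → κ) → (Fin 1 → ι) → ℝ := op2 (P11 κ) (P0 ι) (fB E 2 1 m47_0)

noncomputable def F47_1 (E : Env κ ι) : (Fin 2 → κ) → (Fin 1 → ι) → ℝ := op2 (P11 κ) (P0 ι) (fB E 2 1 m47_1)

noncomputable def F47_2 (E : Env κ ι) : (Fin 2 → κ) → (Fin 1 → ι) → ℝ := op2 (P11 κ) (P0 ι) (fB E 2 1 m47_2)

noncomputable def F47_3 (E : Env κ ι) : (Fin 2 → κ) → (Fin 1 → ι) → ℝ := op2 (P11 κ) (P0 ι) (fB E 2 1 m47_3)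

noncomputable def F47_4 (E : Env κ ι) : (Fin 2 → κ) → (Fin 1 → ι) → ℝ := op2 (P11 κ) (P0 ι) (fB E 2 1 m47_4)

noncomputable def F47_5 (E : Env κ ι) : (Fin 2 → κ) → (Fin 1 → ι) → ℝ := op2 (P11 κ) (P0 ι) (fB E 2 1 m47_5)

noncomputable def F47_6 (E : Env κ ι) : (Fin 2 → κ) → (Fin 1 → ι) → ℝ := op2 (P11 κ) (P0 ι) (fB E 2 1 m47_6)

noncomputable def F47_7 (E : Env κ ι) : (Fin 2 → κ) → (Fin 1 → ι) → ℝ := op2 (P11 κ) (P0 ι) (fB E 2 1 m47_7)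

noncomputable def F47_8 (E : Env κ ι) : (Fin 2 → κ) → (Fin 1 → ι) → ℝ := op2 (P11 κ) (P0 ι) (fB E 2 1 m47_8)

def r47_0_0 : List (ℕ × ℤ) := [(60, 4)]

theorem h47_0_0 (E : Env κ ι) : ip (F47_0 E) (F47_0 E) = dotS (ek E lk47) r47_0_0 :=
  op_entryZ E lk47 2 1 _ _ _ _ (pg11 κ) (pg0 ι) m47_0 m47_0 l47_0 z47_0 w47_0 x47_0 (by decide) _ (chkS_sound E lk47 2 1 _ _ _ _ t47_0_0)

def r47_0_1 : List (ℕ × ℤ) := [(52, 4)]

theorem h47_0_1 (E : Env κ ι) : ip (F47_0 E) (F47_1 E) = dotS (ek E lk47) r47_0_1 :=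
  op_entryZ E lk47 2 1 _ _ _ _ (pg11 κ) (pg0 ι) m47_0 m47_1 l47_1 z47_1 w47_1 x47_1 (by decide) _ (chkS_sound E lk47 2 1 _ _ _ _ t47_0_1)

def r47_0_2 : List (ℕ × ℤ) := [(38, 4)]

theorem h47_0_2 (E : Env κ ι) : ip (F47_0 E) (F47_2 E) = dotS (ek E lk47) r47_0_2 :=
  op_entryZ E lk47 2 1 _ _ _ _ (pg11 κ) (pg0 ι) m47_0 m47_2 l47_2 z47_2 w47_2 x47_2 (by decide) _ (chkS_sound E lk47 2 1 _ _ _ _ t47_0_2)

def r47_0_3 : List (ℕ × ℤ) := [(39, 4)]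

theorem h47_0_3 (E : Env κ ι) : ip (F47_0 E) (F47_3 E) = dotS (ek E lk47) r47_0_3 :=
  op_entryZ E lk47 2 1 _ _ _ _ (pg11 κ) (pg0 ι) m47_0 m47_3 l47_3 z47_3 w47_3 x47_3 (by decide) _ (chkS_sound E lk47 2 1 _ _ _ _ t47_0_3)

def r47_0_4 : List (ℕ × ℤ) := [(57, 4)]

theorem h47_0_4 (E : Env κ ι) : ip (F47_0 E) (F47_4 E) = dotS (ek E lk47) r47_0_4 :=
  op_entryZ E lk47 2 1 _ _ _ _ (pg11 κ) (pg0 ι) m47_0 m47_4 l47_4 z47_4 w47_4 x47_4 (by decide) _ (chkS_sound E lk47 2 1 _ _ _ _ t47_0_4)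

def r47_0_5 : List (ℕ × ℤ) := [(56, 4)]

theorem h47_0_5 (E : Env κ ι) : ip (F47_0 E) (F47_5 E) = dotS (ek E lk47) r47_0_5 :=
  op_entryZ E lk47 2 1 _ _ _ _ (pg11 κ) (pg0 ι) m47_0 m47_5 l47_5 z47_5 w47_5 x47_5 (by decide) _ (chkS_sound E lk47 2 1 _ _ _ _ t47_0_5)

def r47_0_6 : List (ℕ × ℤ) := [(52, 4)]

theorem h47_0_6 (E : Env κ ι) : ip (F47_0 E) (F47_6 E) = dotS (ek E lk47) r47_0_6 :=
  op_entryZ E lk47 2 1 _ _ _ _ (pg11 κ) (pg0 ι) m47_0 m47_6 l47_6 z47_6 w47_6 x47_6 (by decide) _ (chkS_sound E lk47 2 1 _ _ _ _ t47_0_6)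

def r47_0_7 : List (ℕ × ℤ) := [(53, 4)]

theorem h47_0_7 (E : Env κ ι) : ip (F47_0 E) (F47_7 E) = dotS (ek E lk47) r47_0_7 :=
  op_entryZ E lk47 2 1 _ _ _ _ (pg11 κ) (pg0 ι) m47_0 m47_7 l47_7 z47_7 w47_7 x47_7 (by decide) _ (chkS_sound E lk47 2 1 _ _ _ _ t47_0_7)

def r47_0_8 : List (ℕ × ℤ) := [(61, 4)]

theorem h47_0_8 (E : Env κ ι) : ip (F47_0 E) (F47_8 E) = dotS (ek E lk47) r47_0_8 :=
  op_entryZ E lk47 2 1 _ _ _ _ (pg11 κ) (pg0 ι) m47_0 m47_8 l47_8 z47_8 w47_8 x47_8 (by decide) _ (chkS_sound E lk47 2 1 _ _ _ _ t47_0_8)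

def r47_1_1 : List (ℕ × ℤ) := [(48, 2), (50, 2)]

theorem h47_1_1 (E : Env κ ι) : ip (F47_1 E) (F47_1 E) = dotS (ek E lk47) r47_1_1 :=
  op_entryZ E lk47 2 1 _ _ _ _ (pg11 κ) (pg0 ι) m47_1 m47_1 l47_1 z47_1 w47_1 x47_1 (by decide) _ (chkS_sound E lk47 2 1 _ _ _ _ t47_1_1)

def r47_1_2 : List (ℕ × ℤ) := [(32, 4)]

theorem h47_1_2 (E : Env κ ι) : ip (F47_1 E) (F47_2 E) = dotS (ek E lk47) r47_1_2 :=
  op_entryZ E lk47 2 1 _ _ _ _ (pg11 κ) (pg0 ι) m47_1 m47_2 l47_2 z47_2 w47_2 x47_2 (by decide) _ (chkS_sound E lk47 2 1 _ _ _ _ t47_1_2)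

def r47_1_3 : List (ℕ × ℤ) := [(33, 4)]

theorem h47_1_3 (E : Env κ ι) : ip (F47_1 E) (F47_3 E) = dotS (ek E lk47) r47_1_3 :=
  op_entryZ E lk47 2 1 _ _ _ _ (pg11 κ) (pg0 ι) m47_1 m47_3 l47_3 z47_3 w47_3 x47_3 (by decide) _ (chkS_sound E lk47 2 1 _ _ _ _ t47_1_3)

def r47_1_4 : List (ℕ × ℤ) := [(46, 2), (47, 2)]

theorem h47_1_4 (E : Env κ ι) : ip (F47_1 E) (F47_4 E) = dotS (ek E lk47) r47_1_4 :=
  op_entryZ E lk47 2 1 _ _ _ _ (pg11 κ) (pg0 ι) m47_1 m47_4 l47_4 z47_4 w47_4 x47_4 (by decide) _ (chkS_sound E lk47 2 1 _ _ _ _ t47_1_4)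

def r47_1_5 : List (ℕ × ℤ) := [(11, 2), (45, 2)]

theorem h47_1_5 (E : Env κ ι) : ip (F47_1 E) (F47_5 E) = dotS (ek E lk47) r47_1_5 :=
  op_entryZ E lk47 2 1 _ _ _ _ (pg11 κ) (pg0 ι) m47_1 m47_5 l47_5 z47_5 w47_5 x47_5 (by decide) _ (chkS_sound E lk47 2 1 _ _ _ _ t47_1_5)

def r47_1_6 : List (ℕ × ℤ) := [(49, 2), (51, 2)]

theorem h47_1_6 (E : Env κ ι) : ip (F47_1 E) (F47_6 E) = dotS (ek E lk47) r47_1_6 :=
  op_entryZ E lk47 2 1 _ _ _ _ (pg11 κ) (pg0 ι) m47_1 m47_6 l47_6 z47_6 w47_6 x47_6 (by decide) _ (chkS_sound E lk47 2 1 _ _ _ _ t47_1_6)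

def r47_1_7 : List (ℕ × ℤ) := [(23, 2), (24, 2)]

theorem h47_1_7 (E : Env κ ι) : ip (F47_1 E) (F47_7 E) = dotS (ek E lk47) r47_1_7 :=
  op_entryZ E lk47 2 1 _ _ _ _ (pg11 κ) (pg0 ι) m47_1 m47_7 l47_7 z47_7 w47_7 x47_7 (by decide) _ (chkS_sound E lk47 2 1 _ _ _ _ t47_1_7)

def r47_1_8 : List (ℕ × ℤ) := [(10, 2), (12, 2)]

theorem h47_1_8 (E : Env κ ι) : ip (F47_1 E) (F47_8 E) = dotS (ek E lk47) r47_1_8 :=
  op_entryZ E lk47 2 1 _ _ _ _ (pg11 κ) (pg0 ι) m47_1 m47_8 l47_8 z47_8 w47_8 x47_8 (by decide) _ (chkS_sound E lk47 2 1 _ _ _ _ t47_1_8)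

def r47_2_2 : List (ℕ × ℤ) := [(40, 4)]

theorem h47_2_2 (E : Env κ ι) : ip (F47_2 E) (F47_2 E) = dotS (ek E lk47) r47_2_2 :=
  op_entryZ E lk47 2 1 _ _ _ _ (pg11 κ) (pg0 ι) m47_2 m47_2 l47_2 z47_2 w47_2 x47_2 (by decide) _ (chkS_sound E lk47 2 1 _ _ _ _ t47_2_2)

def r47_2_3 : List (ℕ × ℤ) := [(41, 4)]

theorem h47_2_3 (E : Env κ ι) : ip (F47_2 E) (F47_3 E) = dotS (ek E lk47) r47_2_3 :=
  op_entryZ E lk47 2 1 _ _ _ _ (pg11 κ) (pg0 ι) m47_2 m47_3 l47_3 z47_3 w47_3 x47_3 (by decide) _ (chkS_sound E lk47 2 1 _ _ _ _ t47_2_3)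

def r47_2_4 : List (ℕ × ℤ) := [(28, 4)]

theorem h47_2_4 (E : Env κ ι) : ip (F47_2 E) (F47_4 E) = dotS (ek E lk47) r47_2_4 :=
  op_entryZ E lk47 2 1 _ _ _ _ (pg11 κ) (pg0 ι) m47_2 m47_4 l47_4 z47_4 w47_4 x47_4 (by decide) _ (chkS_sound E lk47 2 1 _ _ _ _ t47_2_4)

def r47_2_5 : List (ℕ × ℤ) := [(29, 4)]

theorem h47_2_5 (E : Env κ ι) : ip (F47_2 E) (F47_5 E) = dotS (ek E lk47) r47_2_5 :=
  op_entryZ E lk47 2 1 _ _ _ _ (pg11 κ) (pg0 ι) m47_2 m47_5 l47_5 z47_5 w47_5 x47_5 (by decide) _ (chkS_sound E lk47 2 1 _ _ _ _ t47_2_5)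

def r47_2_6 : List (ℕ × ℤ) := [(37, 4)]

theorem h47_2_6 (E : Env κ ι) : ip (F47_2 E) (F47_6 E) = dotS (ek E lk47) r47_2_6 :=
  op_entryZ E lk47 2 1 _ _ _ _ (pg11 κ) (pg0 ι) m47_2 m47_6 l47_6 z47_6 w47_6 x47_6 (by decide) _ (chkS_sound E lk47 2 1 _ _ _ _ t47_2_6)

def r47_2_7 : List (ℕ × ℤ) := [(33, 4)]

theorem h47_2_7 (E : Env κ ι) : ip (F47_2 E) (F47_7 E) = dotS (ek E lk47) r47_2_7 :=
  op_entryZ E lk47 2 1 _ _ _ _ (pg11 κ) (pg0 ι) m47_2 m47_7 l47_7 z47_7 w47_7 x47_7 (by decide) _ (chkS_sound E lk47 2 1 _ _ _ _ t47_2_7)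

def r47_2_8 : List (ℕ × ℤ) := [(43, 4)]

theorem h47_2_8 (E : Env κ ι) : ip (F47_2 E) (F47_8 E) = dotS (ek E lk47) r47_2_8 :=
  op_entryZ E lk47 2 1 _ _ _ _ (pg11 κ) (pg0 ι) m47_2 m47_8 l47_8 z47_8 w47_8 x47_8 (by decide) _ (chkS_sound E lk47 2 1 _ _ _ _ t47_2_8)

def r47_3_3 : List (ℕ × ℤ) := [(42, 4)]

theorem h47_3_3 (E : Env κ ι) : ip (F47_3 E) (F47_3 E) = dotS (ek E lk47) r47_3_3 :=
  op_entryZ E lk47 2 1 _ _ _ _ (pg11 κ) (pg0 ι) m47_3 m47_3 l47_3 z47_3 w47_3 x47_3 (by decide) _ (chkS_sound E lk47 2 1 _ _ _ _ t47_3_3)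

def r47_3_4 : List (ℕ × ℤ) := [(31, 4)]

theorem h47_3_4 (E : Env κ ι) : ip (F47_3 E) (F47_4 E) = dotS (ek E lk47) r47_3_4 :=
  op_entryZ E lk47 2 1 _ _ _ _ (pg11 κ) (pg0 ι) m47_3 m47_4 l47_4 z47_4 w47_4 x47_4 (by decide) _ (chkS_sound E lk47 2 1 _ _ _ _ t47_3_4)

def r47_3_5 : List (ℕ × ℤ) := [(30, 4)]

theorem h47_3_5 (E : Env κ ι) : ip (F47_3 E) (F47_5 E) = dotS (ek E lk47) r47_3_5 :=
  op_entryZ E lk47 2 1 _ _ _ _ (pg11 κ) (pg0 ι) m47_3 m47_5 l47_5 z47_5 w47_5 x47_5 (by decide) _ (chkS_sound E lk47 2 1 _ _ _ _ t47_3_5)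

def r47_3_6 : List (ℕ × ℤ) := [(33, 4)]

theorem h47_3_6 (E : Env κ ι) : ip (F47_3 E) (F47_6 E) = dotS (ek E lk47) r47_3_6 :=
  op_entryZ E lk47 2 1 _ _ _ _ (pg11 κ) (pg0 ι) m47_3 m47_6 l47_6 z47_6 w47_6 x47_6 (by decide) _ (chkS_sound E lk47 2 1 _ _ _ _ t47_3_6)

def r47_3_7 : List (ℕ × ℤ) := [(0, 4)]

theorem h47_3_7 (E : Env κ ι) : ip (F47_3 E) (F47_7 E) = dotS (ek E lk47) r47_3_7 :=
  op_entryZ E lk47 2 1 _ _ _ _ (pg11 κ) (pg0 ι) m47_3 m47_7 l47_7 z47_7 w47_7 x47_7 (by decide) _ (chkS_sound E lk47 2 1 _ _ _ _ t47_3_7)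

def r47_3_8 : List (ℕ × ℤ) := [(44, 4)]

theorem h47_3_8 (E : Env κ ι) : ip (F47_3 E) (F47_8 E) = dotS (ek E lk47) r47_3_8 :=
  op_entryZ E lk47 2 1 _ _ _ _ (pg11 κ) (pg0 ι) m47_3 m47_8 l47_8 z47_8 w47_8 x47_8 (by decide) _ (chkS_sound E lk47 2 1 _ _ _ _ t47_3_8)

def r47_4_4 : List (ℕ × ℤ) := [(58, 2), (59, 2)]

theorem h47_4_4 (E : Env κ ι) : ip (F47_4 E) (F47_4 E) = dotS (ek E lk47) r47_4_4 :=
  op_entryZ E lk47 2 1 _ _ _ _ (pg11 κ) (pg0 ι) m47_4 m47_4 l47_4 z47_4 w47_4 x47_4 (by decide) _ (chkS_sound E lk47 2 1 _ _ _ _ t47_4_4)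

def r47_4_5 : List (ℕ × ℤ) := [(8, 2), (45, 2)]

theorem h47_4_5 (E : Env κ ι) : ip (F47_4 E) (F47_5 E) = dotS (ek E lk47) r47_4_5 :=
  op_entryZ E lk47 2 1 _ _ _ _ (pg11 κ) (pg0 ι) m47_4 m47_5 l47_5 z47_5 w47_5 x47_5 (by decide) _ (chkS_sound E lk47 2 1 _ _ _ _ t47_4_5)

def r47_4_6 : List (ℕ × ℤ) := [(34, 2), (54, 2)]

theorem h47_4_6 (E : Env κ ι) : ip (F47_4 E) (F47_6 E) = dotS (ek E lk47) r47_4_6 :=
  op_entryZ E lk47 2 1 _ _ _ _ (pg11 κ) (pg0 ι) m47_4 m47_6 l47_6 z47_6 w47_6 x47_6 (by decide) _ (chkS_sound E lk47 2 1 _ _ _ _ t47_4_6)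

def r47_4_7 : List (ℕ × ℤ) := [(21, 2), (22, 2)]

theorem h47_4_7 (E : Env κ ι) : ip (F47_4 E) (F47_7 E) = dotS (ek E lk47) r47_4_7 :=
  op_entryZ E lk47 2 1 _ _ _ _ (pg11 κ) (pg0 ι) m47_4 m47_7 l47_7 z47_7 w47_7 x47_7 (by decide) _ (chkS_sound E lk47 2 1 _ _ _ _ t47_4_7)

def r47_4_8 : List (ℕ × ℤ) := [(7, 2), (9, 2)]

theorem h47_4_8 (E : Env κ ι) : ip (F47_4 E) (F47_8 E) = dotS (ek E lk47) r47_4_8 :=
  op_entryZ E lk47 2 1 _ _ _ _ (pg11 κ) (pg0 ι) m47_4 m47_8 l47_8 z47_8 w47_8 x47_8 (by decide) _ (chkS_sound E lk47 2 1 _ _ _ _ t47_4_8)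

def r47_5_5 : List (ℕ × ℤ) := [(1, 2), (36, 2)]

theorem h47_5_5 (E : Env κ ι) : ip (F47_5 E) (F47_5 E) = dotS (ek E lk47) r47_5_5 :=
  op_entryZ E lk47 2 1 _ _ _ _ (pg11 κ) (pg0 ι) m47_5 m47_5 l47_5 z47_5 w47_5 x47_5 (by decide) _ (chkS_sound E lk47 2 1 _ _ _ _ t47_5_5)

def r47_5_6 : List (ℕ × ℤ) := [(14, 2), (16, 2)]

theorem h47_5_6 (E : Env κ ι) : ip (F47_5 E) (F47_6 E) = dotS (ek E lk47) r47_5_6 :=
  op_entryZ E lk47 2 1 _ _ _ _ (pg11 κ) (pg0 ι) m47_5 m47_6 l47_6 z47_6 w47_6 x47_6 (by decide) _ (chkS_sound E lk47 2 1 _ _ _ _ t47_5_6)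

def r47_5_7 : List (ℕ × ℤ) := [(17, 2), (20, 2)]

theorem h47_5_7 (E : Env κ ι) : ip (F47_5 E) (F47_7 E) = dotS (ek E lk47) r47_5_7 :=
  op_entryZ E lk47 2 1 _ _ _ _ (pg11 κ) (pg0 ι) m47_5 m47_7 l47_7 z47_7 w47_7 x47_7 (by decide) _ (chkS_sound E lk47 2 1 _ _ _ _ t47_5_7)

def r47_5_8 : List (ℕ × ℤ) := [(4, 2), (6, 2)]

theorem h47_5_8 (E : Env κ ι) : ip (F47_5 E) (F47_8 E) = dotS (ek E lk47) r47_5_8 :=
  op_entryZ E lk47 2 1 _ _ _ _ (pg11 κ) (pg0 ι) m47_5 m47_8 l47_8 z47_8 w47_8 x47_8 (by decide) _ (chkS_sound E lk47 2 1 _ _ _ _ t47_5_8)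

def r47_6_6 : List (ℕ × ℤ) := [(35, 2), (55, 2)]

theorem h47_6_6 (E : Env κ ι) : ip (F47_6 E) (F47_6 E) = dotS (ek E lk47) r47_6_6 :=
  op_entryZ E lk47 2 1 _ _ _ _ (pg11 κ) (pg0 ι) m47_6 m47_6 l47_6 z47_6 w47_6 x47_6 (by decide) _ (chkS_sound E lk47 2 1 _ _ _ _ t47_6_6)

def r47_6_7 : List (ℕ × ℤ) := [(25, 2), (26, 2)]

theorem h47_6_7 (E : Env κ ι) : ip (F47_6 E) (F47_7 E) = dotS (ek E lk47) r47_6_7 :=
  op_entryZ E lk47 2 1 _ _ _ _ (pg11 κ) (pg0 ι) m47_6 m47_7 l47_7 z47_7 w47_7 x47_7 (by decide) _ (chkS_sound E lk47 2 1 _ _ _ _ t47_6_7)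

def r47_6_8 : List (ℕ × ℤ) := [(13, 2), (15, 2)]

theorem h47_6_8 (E : Env κ ι) : ip (F47_6 E) (F47_8 E) = dotS (ek E lk47) r47_6_8 :=
  op_entryZ E lk47 2 1 _ _ _ _ (pg11 κ) (pg0 ι) m47_6 m47_8 l47_8 z47_8 w47_8 x47_8 (by decide) _ (chkS_sound E lk47 2 1 _ _ _ _ t47_6_8)

def r47_7_7 : List (ℕ × ℤ) := [(2, 2), (27, 2)]

theorem h47_7_7 (E : Env κ ι) : ip (F47_7 E) (F47_7 E) = dotS (ek E lk47) r47_7_7 :=
  op_entryZ E lk47 2 1 _ _ _ _ (pg11 κ) (pg0 ι) m47_7 m47_7 l47_7 z47_7 w47_7 x47_7 (by decide) _ (chkS_sound E lk47 2 1 _ _ _ _ t47_7_7)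

def r47_7_8 : List (ℕ × ℤ) := [(18, 2), (19, 2)]

theorem h47_7_8 (E : Env κ ι) : ip (F47_7 E) (F47_8 E) = dotS (ek E lk47) r47_7_8 :=
  op_entryZ E lk47 2 1 _ _ _ _ (pg11 κ) (pg0 ι) m47_7 m47_8 l47_8 z47_8 w47_8 x47_8 (by decide) _ (chkS_sound E lk47 2 1 _ _ _ _ t47_7_8)

def r47_8_8 : List (ℕ × ℤ) := [(3, 2), (5, 2)]

theorem h47_8_8 (E : Env κ ι) : ip (F47_8 E) (F47_8 E) = dotS (ek E lk47) r47_8_8 :=
  op_entryZ E lk47 2 1 _ _ _ _ (pg11 κ) (pg0 ι) m47_8 m47_8 l47_8 z47_8 w47_8 x47_8 (by decide) _ (chkS_sound E lk47 2 1 _ _ _ _ t47_8_8)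

theorem row47_0 (E : Env κ ι) : RowG (ek E lk47) (F47_0 E) [F47_0 E, F47_1 E, F47_2 E, F47_3 E, F47_4 E, F47_5 E, F47_6 E, F47_7 E, F47_8 E] [r47_0_0, r47_0_1, r47_0_2, r47_0_3, r47_0_4, r47_0_5, r47_0_6, r47_0_7, r47_0_8] :=
  rowG_cons _ _ _ _ _ _ (h47_0_0 E) (rowG_cons _ _ _ _ _ _ (h47_0_1 E) (rowG_cons _ _ _ _ _ _ (h47_0_2 E) (rowG_cons _ _ _ _ _ _ (h47_0_3 E) (rowG_cons _ _ _ _ _ _ (h47_0_4 E) (rowG_cons _ _ _ _ _ _ (h47_0_5 E) (rowG_cons _ _ _ _ _ _ (h47_0_6 E) (rowG_cons _ _ _ _ _ _ (h47_0_7 E) (rowG_cons _ _ _ _ _ _ (h47_0_8 E) (rowG_nil _ _)))))))))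

theorem row47_1 (E : Env κ ι) : RowG (ek E lk47) (F47_1 E) [F47_1 E, F47_2 E, F47_3 E, F47_4 E, F47_5 E, F47_6 E, F47_7 E, F47_8 E] [r47_1_1, r47_1_2, r47_1_3, r47_1_4, r47_1_5, r47_1_6, r47_1_7, r47_1_8] :=
  rowG_cons _ _ _ _ _ _ (h47_1_1 E) (rowG_cons _ _ _ _ _ _ (h47_1_2 E) (rowG_cons _ _ _ _ _ _ (h47_1_3 E) (rowG_cons _ _ _ _ _ _ (h47_1_4 E) (rowG_cons _ _ _ _ _ _ (h47_1_5 E) (rowG_cons _ _ _ _ _ _ (h47_1_6 E) (rowG_cons _ _ _ _ _ _ (h47_1_7 E) (rowG_cons _ _ _ _ _ _ (h47_1_8 E) (rowG_nil _ _))))))))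

theorem row47_2 (E : Env κ ι) : RowG (ek E lk47) (F47_2 E) [F47_2 E, F47_3 E, F47_4 E, F47_5 E, F47_6 E, F47_7 E, F47_8 E] [r47_2_2, r47_2_3, r47_2_4, r47_2_5, r47_2_6, r47_2_7, r47_2_8] :=
  rowG_cons _ _ _ _ _ _ (h47_2_2 E) (rowG_cons _ _ _ _ _ _ (h47_2_3 E) (rowG_cons _ _ _ _ _ _ (h47_2_4 E) (rowG_cons _ _ _ _ _ _ (h47_2_5 E) (rowG_cons _ _ _ _ _ _ (h47_2_6 E) (rowG_cons _ _ _ _ _ _ (h47_2_7 E) (rowG_cons _ _ _ _ _ _ (h47_2_8 E) (rowG_nil _ _)))))))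

theorem row47_3 (E : Env κ ι) : RowG (ek E lk47) (F47_3 E) [F47_3 E, F47_4 E, F47_5 E, F47_6 E, F47_7 E, F47_8 E] [r47_3_3, r47_3_4, r47_3_5, r47_3_6, r47_3_7, r47_3_8] :=
  rowG_cons _ _ _ _ _ _ (h47_3_3 E) (rowG_cons _ _ _ _ _ _ (h47_3_4 E) (rowG_cons _ _ _ _ _ _ (h47_3_5 E) (rowG_cons _ _ _ _ _ _ (h47_3_6 E) (rowG_cons _ _ _ _ _ _ (h47_3_7 E) (rowG_cons _ _ _ _ _ _ (h47_3_8 E) (rowG_nil _ _))))))

theorem row47_4 (E : Env κ ι) : RowG (ek E lk47) (F47_4 E) [F47_4 E, F47_5 E, F47_6 E, F47_7 E, F47_8 E] [r47_4_4, r47_4_5, r47_4_6, r47_4_7, r47_4_8] :=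
  rowG_cons _ _ _ _ _ _ (h47_4_4 E) (rowG_cons _ _ _ _ _ _ (h47_4_5 E) (rowG_cons _ _ _ _ _ _ (h47_4_6 E) (rowG_cons _ _ _ _ _ _ (h47_4_7 E) (rowG_cons _ _ _ _ _ _ (h47_4_8 E) (rowG_nil _ _)))))

theorem row47_5 (E : Env κ ι) : RowG (ek E lk47) (F47_5 E) [F47_5 E, F47_6 E, F47_7 E, F47_8 E] [r47_5_5, r47_5_6, r47_5_7, r47_5_8] :=
  rowG_cons _ _ _ _ _ _ (h47_5_5 E) (rowG_cons _ _ _ _ _ _ (h47_5_6 E) (rowG_cons _ _ _ _ _ _ (h47_5_7 E) (rowG_cons _ _ _ _ _ _ (h47_5_8 E) (rowG_nil _ _))))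

theorem row47_6 (E : Env κ ι) : RowG (ek E lk47) (F47_6 E) [F47_6 E, F47_7 E, F47_8 E] [r47_6_6, r47_6_7, r47_6_8] :=
  rowG_cons _ _ _ _ _ _ (h47_6_6 E) (rowG_cons _ _ _ _ _ _ (h47_6_7 E) (rowG_cons _ _ _ _ _ _ (h47_6_8 E) (rowG_nil _ _)))

theorem row47_7 (E : Env κ ι) : RowG (ek E lk47) (F47_7 E) [F47_7 E, F47_8 E] [r47_7_7, r47_7_8] :=
  rowG_cons _ _ _ _ _ _ (h47_7_7 E) (rowG_cons _ _ _ _ _ _ (h47_7_8 E) (rowG_nil _ _))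

theorem row47_8 (E : Env κ ι) : RowG (ek E lk47) (F47_8 E) [F47_8 E] [r47_8_8] :=
  rowG_cons _ _ _ _ _ _ (h47_8_8 E) (rowG_nil _ _)

def tab47 : List (List (List (ℕ × ℤ))) := [[r47_0_0, r47_0_1, r47_0_2, r47_0_3, r47_0_4, r47_0_5, r47_0_6, r47_0_7, r47_0_8], [r47_1_1, r47_1_2, r47_1_3, r47_1_4, r47_1_5, r47_1_6, r47_1_7, r47_1_8], [r47_2_2, r47_2_3, r47_2_4, r47_2_5, r47_2_6, r47_2_7, r47_2_8], [r47_3_3, r47_3_4, r47_3_5, r47_3_6, r47_3_7, r47_3_8], [r47_4_4, r47_4_5, r47_4_6, r47_4_7, r47_4_8], [r47_5_5, r47_5_6, r47_5_7, r47_5_8], [r47_6_6, r47_6_7, r47_6_8], [r47_7_7, r47_7_8], [r47_8_8]]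

theorem tri47 (E : Env κ ι) : TriG (ek E lk47) [F47_0 E, F47_1 E, F47_2 E, F47_3 E, F47_4 E, F47_5 E, F47_6 E, F47_7 E, F47_8 E] tab47 := by
  refine triG_cons _ _ _ _ _ (row47_0 E) ?_
  refine triG_cons _ _ _ _ _ (row47_1 E) ?_
  refine triG_cons _ _ _ _ _ (row47_2 E) ?_
  refine triG_cons _ _ _ _ _ (row47_3 E) ?_
  refine triG_cons _ _ _ _ _ (row47_4 E) ?_
  refine triG_cons _ _ _ _ _ (row47_5 E) ?_
  refine triG_cons _ _ _ _ _ (row47_6 E) ?_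
  refine triG_cons _ _ _ _ _ (row47_7 E) ?_
  refine triG_cons _ _ _ _ _ (row47_8 E) ?_
  exact triG_nil _

end

def lk48 : List Key := [
  (2, 7, [(0, [0], [0, 1]), (0, [1], [0, 2]), (0, [1], [3, 4]), (0, [0], [5, 6]), (1, [], [5, 6]), (1, [], [3, 4]), (4, [], [2]), (4, [], [1])]),
  (2, 5, [(0, [0], [0, 1]), (0, [1], [0, 2]), (0, [0], [2, 3]), (0, [1], [1, 4]), (4, [], [4]), (4, [], [3])]),
  (2, 5, [(0, [0], [0, 1]), (0, [0], [2, 3]), (2, [1], [2, 3, 4]), (2, [1], [0, 1, 4])]),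
  (2, 6, [(0, [0], [0, 1]), (0, [0], [2, 3]), (0, [1], [4, 5]), (1, [], [0, 1]), (2, [1], [2, 3, 4]), (4, [], [5])]),
  (2, 5, [(0, [0], [0, 1]), (0, [1], [2, 3]), (2, [0], [2, 3, 4]), (2, [1], [0, 1, 4])]),
  (2, 6, [(0, [0], [0, 1]), (0, [0], [2, 3]), (0, [1], [4, 5]), (1, [], [4, 5]), (2, [1], [0, 2, 3]), (4, [], [1])]),
  (2, 6, [(0, [0], [0, 1]), (0, [0], [2, 3]), (0, [1], [4, 5]), (1, [], [0, 4]), (2, [1], [2, 3, 5]), (4, [], [1])]),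
  (2, 7, [(0, [0], [0, 1]), (0, [0], [2, 3]), (0, [1], [4, 5]), (0, [1], [4, 6]), (1, [], [0, 5]), (1, [], [2, 3]), (4, [], [1]), (4, [], [6])]),
  (2, 6, [(0, [0], [0, 1]), (0, [0], [2, 3]), (0, [1], [4, 5]), (1, [], [0, 4]), (2, [1], [1, 2, 3]), (4, [], [5])]),
  (2, 6, [(0, [0], [0, 1]), (0, [0], [2, 3]), (0, [1], [0, 4]), (1, [], [4, 5]), (2, [1], [2, 3, 5]), (4, [], [1])]),
  (2, 7, [(0, [0], [0, 1]), (0, [1], [0, 2]), (0, [0], [3, 4]), (0, [1], [5, 6]), (1, [], [1, 3]), (1, [], [5, 6]), (4, [], [2]), (4, [], [4])]),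
  (2, 6, [(0, [0], [0, 1]), (0, [0], [2, 3]), (0, [1], [0, 4]), (1, [], [1, 5]), (2, [1], [2, 3, 5]), (4, [], [4])]),
  (2, 6, [(0, [0], [0, 1]), (0, [0], [2, 3]), (0, [1], [0, 4]), (1, [], [1, 5]), (2, [1], [2, 3, 4]), (4, [], [5])]),
  (2, 7, [(0, [0], [0, 1]), (0, [0], [2, 3]), (0, [1], [0, 4]), (0, [1], [4, 5]), (1, [], [1, 6]), (1, [], [2, 3]), (4, [], [5]), (4, [], [6])]),
  (2, 6, [(0, [0], [0, 1]), (0, [0], [2, 3]), (0, [1], [0, 4]), (1, [], [4, 5]), (2, [1], [1, 2, 3]), (4, [], [5])]),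
  (2, 7, [(0, [0], [0, 1]), (0, [1], [0, 2]), (0, [1], [1, 3]), (0, [0], [4, 5]), (1, [], [2, 6]), (1, [], [4, 5]), (4, [], [3]), (4, [], [6])]),
  (2, 6, [(0, [0], [0, 1]), (0, [0], [2, 3]), (0, [1], [0, 4]), (0, [1], [4, 5]), (1, [], [2, 3]), (4, [], [1]), (4, [], [5])]),
  (2, 5, [(0, [0], [0, 1]), (0, [0], [2, 3]), (0, [1], [0, 4]), (2, [1], [1, 2, 3]), (4, [], [4])]),
  (2, 5, [(0, [0], [0, 1]), (0, [0], [2, 3]), (0, [1], [0, 4]), (2, [1], [2, 3, 4]), (4, [], [1])]),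
  (2, 6, [(0, [0], [0, 1]), (0, [1], [0, 2]), (0, [1], [1, 3]), (0, [0], [4, 5]), (1, [], [4, 5]), (4, [], [3]), (4, [], [2])]),
  (2, 6, [(0, [0], [0, 1]), (0, [1], [0, 2]), (0, [1], [1, 3]), (0, [0], [4, 5]), (1, [], [2, 4]), (4, [], [3]), (4, [], [5])]),
  (2, 6, [(0, [0], [0, 1]), (0, [0], [2, 3]), (0, [1], [0, 4]), (0, [1], [4, 5]), (1, [], [2, 5]), (4, [], [1]), (4, [], [3])]),
  (2, 6, [(0, [0], [0, 1]), (0, [1], [2, 3]), (0, [0], [2, 4]), (0, [1], [0, 5]), (1, [], [1, 3]), (4, [], [5]), (4, [], [4])]),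
  (2, 6, [(0, [0], [0, 1]), (0, [0], [2, 3]), (0, [1], [2, 4]), (0, [1], [0, 5]), (1, [], [1, 3]), (4, [], [5]), (4, [], [4])]),
  (2, 6, [(0, [0], [0, 1]), (0, [1], [0, 2]), (0, [0], [2, 3]), (0, [1], [1, 4]), (1, [], [3, 5]), (4, [], [4]), (4, [], [5])]),
  (2, 6, [(0, [0], [0, 1]), (0, [0], [2, 3]), (0, [1], [0, 4]), (0, [1], [2, 4]), (1, [], [1, 5]), (4, [], [3]), (4, [], [5])]),
  (2, 5, [(0, [0], [0, 1]), (0, [0], [2, 3]), (0, [1], [2, 4]), (0, [1], [0, 4]), (4, [], [3]), (4, [], [1])]),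
  (2, 7, [(0, [0], [0, 1]), (0, [0], [2, 0]), (0, [1], [3, 1]), (4, [], [4]), (0, [1], [5, 6]), (1, [], [2, 5]), (1, [], [3, 4]), (4, [], [6])]),
  (2, 7, [(0, [0], [0, 1]), (0, [0], [2, 0]), (0, [1], [3, 1]), (4, [], [4]), (0, [1], [2, 5]), (1, [], [5, 6]), (1, [], [3, 4]), (4, [], [6])]),
  (2, 7, [(0, [0], [0, 1]), (0, [0], [2, 0]), (0, [1], [3, 4]), (4, [], [1]), (0, [1], [5, 6]), (1, [], [5, 6]), (1, [], [3, 4]), (4, [], [2])]),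
  (2, 7, [(0, [0], [0, 1]), (0, [0], [2, 3]), (0, [1], [4, 0]), (4, [], [1]), (0, [1], [5, 6]), (1, [], [5, 6]), (1, [], [2, 4]), (4, [], [3])]),
  (2, 7, [(0, [0], [0, 1]), (0, [0], [2, 3]), (0, [1], [4, 0]), (4, [], [1]), (0, [1], [5, 6]), (1, [], [2, 5]), (1, [], [4, 6]), (4, [], [3])]),
  (2, 7, [(0, [0], [0, 1]), (0, [0], [2, 3]), (0, [1], [4, 0]), (4, [], [1]), (0, [1], [5, 6]), (1, [], [2, 5]), (1, [], [3, 4]), (4, [], [6])]),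
  (2, 7, [(0, [0], [0, 1]), (0, [0], [2, 3]), (0, [1], [4, 0]), (4, [], [1]), (0, [1], [2, 5]), (1, [], [5, 6]), (1, [], [4, 6]), (4, [], [3])]),
  (2, 7, [(0, [0], [0, 1]), (0, [0], [2, 3]), (0, [1], [4, 0]), (4, [], [1]), (0, [1], [2, 5]), (1, [], [5, 6]), (1, [], [3, 4]), (4, [], [6])]),
  (2, 7, [(0, [0], [0, 1]), (0, [0], [2, 3]), (0, [1], [4, 0]), (4, [], [1]), (0, [1], [2, 5]), (1, [], [3, 6]), (1, [], [4, 6]), (4, [], [5])]),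
  (2, 7, [(0, [0], [0, 1]), (0, [0], [2, 3]), (0, [1], [4, 0]), (4, [], [1]), (0, [1], [2, 5]), (1, [], [3, 6]), (1, [], [4, 5]), (4, [], [6])]),
  (2, 7, [(0, [0], [0, 1]), (0, [0], [2, 3]), (0, [1], [1, 3]), (4, [], [4]), (0, [1], [5, 6]), (1, [], [0, 5]), (1, [], [2, 4]), (4, [], [6])]),
  (2, 7, [(0, [0], [0, 1]), (0, [0], [2, 3]), (0, [1], [1, 3]), (4, [], [4]), (0, [1], [0, 5]), (1, [], [5, 6]), (1, [], [2, 4]), (4, [], [6])]),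
  (2, 7, [(0, [0], [0, 1]), (0, [0], [2, 3]), (0, [1], [4, 3]), (4, [], [1]), (0, [1], [5, 6]), (1, [], [2, 5]), (1, [], [0, 4]), (4, [], [6])]),
  (2, 7, [(0, [0], [0, 1]), (0, [0], [2, 1]), (0, [1], [3, 4]), (4, [], [4]), (0, [1], [5, 6]), (1, [], [0, 5]), (1, [], [2, 3]), (4, [], [6])])]

def kl48 : List ℕ := [10, 34, 37, 38, 39, 40, 41, 42, 43, 44, 45, 46, 48, 50, 53, 55, 75, 81, 82, 83, 84, 85, 86, 87, 88, 90, 93, 228, 233, 254, 289, 291, 292, 294, 295, 296, 297, 306, 309, 326, 334]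

def m48_0 : Base := (0, 3, [(0, [0], [1, 2]), (0, [1], [1, 3]), (1, [], [0, 3]), (4, [], [2])])

def l48_0 : Cov := [(2, 0, 3, [(0, [0], [1, 2]), (0, [1], [1, 3]), (1, [], [0, 3]), (4, [], [2])]),
  (-2, 0, 3, [(0, [1], [1, 2]), (0, [0], [1, 3]), (1, [], [0, 3]), (4, [], [2])])]

def z48_0 : Cov := []

def w48_0 : List (List Wit) := [[(0, 0, 0, 528, 528)],
  [(1, 0, 0, 528, 528)]]

def m48_1 : Base := (0, 3, [(0, [0], [1, 2]), (0, [1], [0, 3]), (1, [], [1, 3]), (4, [], [2])])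

def l48_1 : Cov := [(2, 0, 3, [(0, [0], [1, 2]), (0, [1], [0, 3]), (1, [], [1, 3]), (4, [], [2])]),
  (-2, 0, 3, [(0, [1], [1, 2]), (0, [0], [0, 3]), (1, [], [1, 3]), (4, [], [2])])]

def z48_1 : Cov := []

def w48_1 : List (List Wit) := [[(0, 0, 0, 528, 528)],
  [(1, 0, 0, 528, 528)]]

def m48_2 : Base := (0, 3, [(0, [0], [1, 2]), (0, [1], [0, 3]), (1, [], [1, 2]), (4, [], [3])])

def l48_2 : Cov := [(2, 0, 3, [(0, [0], [1, 2]), (0, [1], [0, 3]), (1, [], [1, 2]), (4, [], [3])]),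
  (-2, 0, 3, [(0, [1], [1, 2]), (0, [0], [0, 3]), (1, [], [1, 2]), (4, [], [3])])]

def z48_2 : Cov := []

def w48_2 : List (List Wit) := [[(0, 0, 0, 528, 528)],
  [(1, 0, 0, 528, 528)]]

def m48_3 : Base := (0, 3, [(0, [0], [1, 2]), (0, [1], [0, 1]), (1, [], [2, 3]), (4, [], [3])])

def l48_3 : Cov := [(2, 0, 3, [(0, [0], [1, 2]), (0, [1], [0, 1]), (1, [], [2, 3]), (4, [], [3])]),
  (-2, 0, 3, [(0, [1], [1, 2]), (0, [0], [0, 1]), (1, [], [2, 3]), (4, [], [3])])]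

def z48_3 : Cov := []

def w48_3 : List (List Wit) := [[(0, 0, 0, 528, 528)],
  [(1, 0, 0, 528, 528)]]

def m48_4 : Base := (0, 2, [(0, [0], [1, 2]), (0, [1], [0, 1]), (4, [], [2])])

def l48_4 : Cov := [(2, 0, 2, [(0, [0], [1, 2]), (0, [1], [0, 1]), (4, [], [2])]),
  (-2, 0, 2, [(0, [1], [1, 2]), (0, [0], [0, 1]), (4, [], [2])])]

def z48_4 : Cov := []

def w48_4 : List (List Wit) := [[(0, 0, 0, 16, 16)],
  [(1, 0, 0, 16, 16)]]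

def m48_5 : Base := (0, 2, [(0, [0], [1, 2]), (2, [1], [0, 1, 2])])

def l48_5 : Cov := [(2, 0, 2, [(0, [0], [1, 2]), (2, [1], [0, 1, 2])]),
  (-2, 0, 2, [(0, [1], [1, 2]), (2, [0], [0, 1, 2])])]

def z48_5 : Cov := []

def w48_5 : List (List Wit) := [[(0, 0, 0, 16, 16)],
  [(1, 0, 0, 16, 16)]]

theorem tr48 : trK keys lk48 kl48 = true := by
  decide +kernel

theorem x48_0 : expB 2 1 dg12 dg0 m48_0 (l48_0 ++ z48_0) w48_0 = true := by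
  decide +kernel

theorem x48_1 : expB 2 1 dg12 dg0 m48_1 (l48_1 ++ z48_1) w48_1 = true := by
  decide +kernel

theorem x48_2 : expB 2 1 dg12 dg0 m48_2 (l48_2 ++ z48_2) w48_2 = true := by
  decide +kernel

theorem x48_3 : expB 2 1 dg12 dg0 m48_3 (l48_3 ++ z48_3) w48_3 = true := by
  decide +kernel

theorem x48_4 : expB 2 1 dg12 dg0 m48_4 (l48_4 ++ z48_4) w48_4 = true := by
  decide +kernel

theorem x48_5 : expB 2 1 dg12 dg0 m48_5 (l48_5 ++ z48_5) w48_5 = true := by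
  decide +kernel

theorem t48_0_0 : chkS lk48 2 1 [(1, m48_0)] l48_0
  [(33, 16, 16, 87179526, 6509601), (35, 16, 16, 55722246, 5465121)]
  [(33, 2), (35, -2)] = true := by
  decide +kernel

theorem t48_0_1 : chkS lk48 2 1 [(1, m48_0)] l48_1
  [(31, 16, 16, 87179526, 6509601), (32, 16, 16, 40190211, 88278561)]
  [(31, 2), (32, -2)] = true := by
  decide +kernel

theorem t48_0_2 : chkS lk48 2 1 [(1, m48_0)] l48_2
  [(10, 1, 1, 73732611, 88474161), (30, 16, 16, 56967426, 88301601)]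
  [(10, 2), (30, -2)] = true := by
  decide +kernel

theorem t48_0_3 : chkS lk48 2 1 [(1, m48_0)] l48_3
  [(36, 16, 16, 103956741, 100881441), (34, 16, 16, 106053891, 106103841)]
  [(34, -2), (36, 2)] = true := by
  decide +kernel

theorem t48_0_4 : chkS lk48 2 1 [(1, m48_0)] l48_4
  [(23, 1, 1, 4330755, 2425905), (22, 1, 1, 4330755, 2425905)]
  [(22, -2), (23, 2)] = true := by
  decide +kernel

theorem t48_0_5 : chkS lk48 2 1 [(1, m48_0)] l48_5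
  [(9, 16, 16, 3293445, 218145), (11, 1, 1, 3281925, 152625)]
  [(9, 2), (11, -2)] = true := by
  decide +kernel

theorem t48_1_1 : chkS lk48 2 1 [(1, m48_1)] l48_1
  [(40, 1, 1, 37946961, 34948611), (39, 16, 16, 40190211, 88278561)]
  [(39, -2), (40, 2)] = true := by
  decide +kernel

theorem t48_1_2 : chkS lk48 2 1 [(1, m48_1)] l48_2
  [(7, 16, 16, 103960836, 103830561), (30, 16, 16, 23413536, 88285536)]
  [(7, 2), (30, -2)] = true := by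
  decide +kernel

theorem t48_1_3 : chkS lk48 2 1 [(1, m48_1)] l48_3
  [(27, 1, 1, 70329936, 35017536), (37, 1, 1, 69404241, 35013891)]
  [(27, 2), (37, -2)] = true := by
  decide +kernel

theorem t48_1_4 : chkS lk48 2 1 [(1, m48_1)] l48_4
  [(21, 16, 16, 1069860, 3154260), (20, 16, 16, 3220800, 2184000)]
  [(20, -2), (21, 2)] = true := by
  decide +kernel

theorem t48_1_5 : chkS lk48 2 1 [(1, m48_1)] l48_5
  [(6, 16, 16, 3293445, 218145), (8, 1, 1, 3278145, 2184195)]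
  [(6, 2), (8, -2)] = true := by
  decide +kernel

theorem t48_2_2 : chkS lk48 2 1 [(1, m48_2)] l48_2
  [(29, 1, 1, 40178736, 88217136), (0, 1, 1, 40178736, 88217136)]
  [(0, -2), (29, 2)] = true := by
  decide +kernel

theorem t48_2_3 : chkS lk48 2 1 [(1, m48_2)] l48_3
  [(13, 16, 16, 101733156, 103817556), (15, 16, 16, 102774081, 102839556)]
  [(13, 2), (15, -2)] = true := by
  decide +kernel

theorem t48_2_4 : chkS lk48 2 1 [(1, m48_2)] l48_4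
  [(16, 16, 16, 1069860, 3154260), (19, 16, 16, 3220800, 2184000)]
  [(16, 2), (19, -2)] = true := by
  decide +kernel

theorem t48_2_5 : chkS lk48 2 1 [(1, m48_2)] l48_5
  [(3, 16, 16, 3297540, 3167265), (5, 1, 1, 3282240, 2184240)]
  [(3, 2), (5, -2)] = true := by
  decide +kernel

theorem t48_3_3 : chkS lk48 2 1 [(1, m48_3)] l48_3
  [(28, 1, 1, 106054416, 106112016), (38, 1, 1, 69428481, 52839681)]
  [(28, 2), (38, -2)] = true := by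
  decide +kernel

theorem t48_3_4 : chkS lk48 2 1 [(1, m48_3)] l48_4
  [(25, 16, 16, 3297540, 3167265), (24, 16, 16, 4281120, 3481920)]
  [(24, -2), (25, 2)] = true := by
  decide +kernel

theorem t48_3_5 : chkS lk48 2 1 [(1, m48_3)] l48_5
  [(12, 16, 16, 3297540, 3167265), (14, 1, 1, 3298305, 3298305)]
  [(12, 2), (14, -2)] = true := by
  decide +kernel

theorem t48_4_4 : chkS lk48 2 1 [(1, m48_4)] l48_4
  [(26, 16, 16, 205060, 17185), (1, 1, 1, 205840, 148240)]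
  [(1, -2), (26, 2)] = true := by
  decide +kernel

theorem t48_4_5 : chkS lk48 2 1 [(1, m48_4)] l48_5
  [(18, 16, 16, 205060, 17185), (17, 1, 1, 205825, 148225)]
  [(17, -2), (18, 2)] = true := by
  decide +kernel

theorem t48_5_5 : chkS lk48 2 1 [(1, m48_5)] l48_5
  [(2, 16, 16, 143620, 13345), (4, 16, 16, 143620, 13345)]
  [(2, 2), (4, -2)] = true := by
  decide +kernel

section

variable {κ ι : Type*} [Fintype κ] [Fintype ι] [Inhabited κ] [Inhabited ι]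

noncomputable def F48_0 (E : Env κ ι) : (Fin 2 → κ) → (Fin 1 → ι) → ℝ := op2 (P12 κ) (P0 ι) (fB E 2 1 m48_0)

noncomputable def F48_1 (E : Env κ ι) : (Fin 2 → κ) → (Fin 1 → ι) → ℝ := op2 (P12 κ) (P0 ι) (fB E 2 1 m48_1)

noncomputable def F48_2 (E : Env κ ι) : (Fin 2 → κ) → (Fin 1 → ι) → ℝ := op2 (P12 κ) (P0 ι) (fB E 2 1 m48_2)

noncomputable def F48_3 (E : Env κ ι) : (Fin 2 → κ) → (Fin 1 → ι) → ℝ := op2 (P12 κ) (P0 ι) (fB E 2 1 m48_3)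

noncomputable def F48_4 (E : Env κ ι) : (Fin 2 → κ) → (Fin 1 → ι) → ℝ := op2 (P12 κ) (P0 ι) (fB E 2 1 m48_4)

noncomputable def F48_5 (E : Env κ ι) : (Fin 2 → κ) → (Fin 1 → ι) → ℝ := op2 (P12 κ) (P0 ι) (fB E 2 1 m48_5)

def r48_0_0 : List (ℕ × ℤ) := [(33, 2), (35, -2)]

theorem h48_0_0 (E : Env κ ι) : ip (F48_0 E) (F48_0 E) = dotS (ek E lk48) r48_0_0 :=
  op_entryZ E lk48 2 1 _ _ _ _ (pg12 κ) (pg0 ι) m48_0 m48_0 l48_0 z48_0 w48_0 x48_0 (by decide) _ (chkS_sound E lk48 2 1 _ _ _ _ t48_0_0)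

def r48_0_1 : List (ℕ × ℤ) := [(31, 2), (32, -2)]

theorem h48_0_1 (E : Env κ ι) : ip (F48_0 E) (F48_1 E) = dotS (ek E lk48) r48_0_1 :=
  op_entryZ E lk48 2 1 _ _ _ _ (pg12 κ) (pg0 ι) m48_0 m48_1 l48_1 z48_1 w48_1 x48_1 (by decide) _ (chkS_sound E lk48 2 1 _ _ _ _ t48_0_1)

def r48_0_2 : List (ℕ × ℤ) := [(10, 2), (30, -2)]

theorem h48_0_2 (E : Env κ ι) : ip (F48_0 E) (F48_2 E) = dotS (ek E lk48) r48_0_2 :=
  op_entryZ E lk48 2 1 _ _ _ _ (pg12 κ) (pg0 ι) m48_0 m48_2 l48_2 z48_2 w48_2 x48_2 (by decide) _ (chkS_sound E lk48 2 1 _ _ _ _ t48_0_2)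

def r48_0_3 : List (ℕ × ℤ) := [(34, -2), (36, 2)]

theorem h48_0_3 (E : Env κ ι) : ip (F48_0 E) (F48_3 E) = dotS (ek E lk48) r48_0_3 :=
  op_entryZ E lk48 2 1 _ _ _ _ (pg12 κ) (pg0 ι) m48_0 m48_3 l48_3 z48_3 w48_3 x48_3 (by decide) _ (chkS_sound E lk48 2 1 _ _ _ _ t48_0_3)

def r48_0_4 : List (ℕ × ℤ) := [(22, -2), (23, 2)]

theorem h48_0_4 (E : Env κ ι) : ip (F48_0 E) (F48_4 E) = dotS (ek E lk48) r48_0_4 :=
  op_entryZ E lk48 2 1 _ _ _ _ (pg12 κ) (pg0 ι) m48_0 m48_4 l48_4 z48_4 w48_4 x48_4 (by decide) _ (chkS_sound E lk48 2 1 _ _ _ _ t48_0_4)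

def r48_0_5 : List (ℕ × ℤ) := [(9, 2), (11, -2)]

theorem h48_0_5 (E : Env κ ι) : ip (F48_0 E) (F48_5 E) = dotS (ek E lk48) r48_0_5 :=
  op_entryZ E lk48 2 1 _ _ _ _ (pg12 κ) (pg0 ι) m48_0 m48_5 l48_5 z48_5 w48_5 x48_5 (by decide) _ (chkS_sound E lk48 2 1 _ _ _ _ t48_0_5)

def r48_1_1 : List (ℕ × ℤ) := [(39, -2), (40, 2)]

theorem h48_1_1 (E : Env κ ι) : ip (F48_1 E) (F48_1 E) = dotS (ek E lk48) r48_1_1 :=
  op_entryZ E lk48 2 1 _ _ _ _ (pg12 κ) (pg0 ι) m48_1 m48_1 l48_1 z48_1 w48_1 x48_1 (by decide) _ (chkS_sound E lk48 2 1 _ _ _ _ t48_1_1)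

def r48_1_2 : List (ℕ × ℤ) := [(7, 2), (30, -2)]

theorem h48_1_2 (E : Env κ ι) : ip (F48_1 E) (F48_2 E) = dotS (ek E lk48) r48_1_2 :=
  op_entryZ E lk48 2 1 _ _ _ _ (pg12 κ) (pg0 ι) m48_1 m48_2 l48_2 z48_2 w48_2 x48_2 (by decide) _ (chkS_sound E lk48 2 1 _ _ _ _ t48_1_2)

def r48_1_3 : List (ℕ × ℤ) := [(27, 2), (37, -2)]

theorem h48_1_3 (E : Env κ ι) : ip (F48_1 E) (F48_3 E) = dotS (ek E lk48) r48_1_3 :=
  op_entryZ E lk48 2 1 _ _ _ _ (pg12 κ) (pg0 ι) m48_1 m48_3 l48_3 z48_3 w48_3 x48_3 (by decide) _ (chkS_sound E lk48 2 1 _ _ _ _ t48_1_3)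

def r48_1_4 : List (ℕ × ℤ) := [(20, -2), (21, 2)]

theorem h48_1_4 (E : Env κ ι) : ip (F48_1 E) (F48_4 E) = dotS (ek E lk48) r48_1_4 :=
  op_entryZ E lk48 2 1 _ _ _ _ (pg12 κ) (pg0 ι) m48_1 m48_4 l48_4 z48_4 w48_4 x48_4 (by decide) _ (chkS_sound E lk48 2 1 _ _ _ _ t48_1_4)

def r48_1_5 : List (ℕ × ℤ) := [(6, 2), (8, -2)]

theorem h48_1_5 (E : Env κ ι) : ip (F48_1 E) (F48_5 E) = dotS (ek E lk48) r48_1_5 :=
  op_entryZ E lk48 2 1 _ _ _ _ (pg12 κ) (pg0 ι) m48_1 m48_5 l48_5 z48_5 w48_5 x48_5 (by decide) _ (chkS_sound E lk48 2 1 _ _ _ _ t48_1_5)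

def r48_2_2 : List (ℕ × ℤ) := [(0, -2), (29, 2)]

theorem h48_2_2 (E : Env κ ι) : ip (F48_2 E) (F48_2 E) = dotS (ek E lk48) r48_2_2 :=
  op_entryZ E lk48 2 1 _ _ _ _ (pg12 κ) (pg0 ι) m48_2 m48_2 l48_2 z48_2 w48_2 x48_2 (by decide) _ (chkS_sound E lk48 2 1 _ _ _ _ t48_2_2)

def r48_2_3 : List (ℕ × ℤ) := [(13, 2), (15, -2)]

theorem h48_2_3 (E : Env κ ι) : ip (F48_2 E) (F48_3 E) = dotS (ek E lk48) r48_2_3 :=
  op_entryZ E lk48 2 1 _ _ _ _ (pg12 κ) (pg0 ι) m48_2 m48_3 l48_3 z48_3 w48_3 x48_3 (by decide) _ (chkS_sound E lk48 2 1 _ _ _ _ t48_2_3)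

def r48_2_4 : List (ℕ × ℤ) := [(16, 2), (19, -2)]

theorem h48_2_4 (E : Env κ ι) : ip (F48_2 E) (F48_4 E) = dotS (ek E lk48) r48_2_4 :=
  op_entryZ E lk48 2 1 _ _ _ _ (pg12 κ) (pg0 ι) m48_2 m48_4 l48_4 z48_4 w48_4 x48_4 (by decide) _ (chkS_sound E lk48 2 1 _ _ _ _ t48_2_4)

def r48_2_5 : List (ℕ × ℤ) := [(3, 2), (5, -2)]

theorem h48_2_5 (E : Env κ ι) : ip (F48_2 E) (F48_5 E) = dotS (ek E lk48) r48_2_5 :=
  op_entryZ E lk48 2 1 _ _ _ _ (pg12 κ) (pg0 ι) m48_2 m48_5 l48_5 z48_5 w48_5 x48_5 (by decide) _ (chkS_sound E lk48 2 1 _ _ _ _ t48_2_5)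

def r48_3_3 : List (ℕ × ℤ) := [(28, 2), (38, -2)]

theorem h48_3_3 (E : Env κ ι) : ip (F48_3 E) (F48_3 E) = dotS (ek E lk48) r48_3_3 :=
  op_entryZ E lk48 2 1 _ _ _ _ (pg12 κ) (pg0 ι) m48_3 m48_3 l48_3 z48_3 w48_3 x48_3 (by decide) _ (chkS_sound E lk48 2 1 _ _ _ _ t48_3_3)

def r48_3_4 : List (ℕ × ℤ) := [(24, -2), (25, 2)]

theorem h48_3_4 (E : Env κ ι) : ip (F48_3 E) (F48_4 E) = dotS (ek E lk48) r48_3_4 :=
  op_entryZ E lk48 2 1 _ _ _ _ (pg12 κ) (pg0 ι) m48_3 m48_4 l48_4 z48_4 w48_4 x48_4 (by decide) _ (chkS_sound E lk48 2 1 _ _ _ _ t48_3_4)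

def r48_3_5 : List (ℕ × ℤ) := [(12, 2), (14, -2)]

theorem h48_3_5 (E : Env κ ι) : ip (F48_3 E) (F48_5 E) = dotS (ek E lk48) r48_3_5 :=
  op_entryZ E lk48 2 1 _ _ _ _ (pg12 κ) (pg0 ι) m48_3 m48_5 l48_5 z48_5 w48_5 x48_5 (by decide) _ (chkS_sound E lk48 2 1 _ _ _ _ t48_3_5)

def r48_4_4 : List (ℕ × ℤ) := [(1, -2), (26, 2)]

theorem h48_4_4 (E : Env κ ι) : ip (F48_4 E) (F48_4 E) = dotS (ek E lk48) r48_4_4 :=
  op_entryZ E lk48 2 1 _ _ _ _ (pg12 κ) (pg0 ι) m48_4 m48_4 l48_4 z48_4 w48_4 x48_4 (by decide) _ (chkS_sound E lk48 2 1 _ _ _ _ t48_4_4)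

def r48_4_5 : List (ℕ × ℤ) := [(17, -2), (18, 2)]

theorem h48_4_5 (E : Env κ ι) : ip (F48_4 E) (F48_5 E) = dotS (ek E lk48) r48_4_5 :=
  op_entryZ E lk48 2 1 _ _ _ _ (pg12 κ) (pg0 ι) m48_4 m48_5 l48_5 z48_5 w48_5 x48_5 (by decide) _ (chkS_sound E lk48 2 1 _ _ _ _ t48_4_5)

def r48_5_5 : List (ℕ × ℤ) := [(2, 2), (4, -2)]

theorem h48_5_5 (E : Env κ ι) : ip (F48_5 E) (F48_5 E) = dotS (ek E lk48) r48_5_5 :=
  op_entryZ E lk48 2 1 _ _ _ _ (pg12 κ) (pg0 ι) m48_5 m48_5 l48_5 z48_5 w48_5 x48_5 (by decide) _ (chkS_sound E lk48 2 1 _ _ _ _ t48_5_5)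

theorem row48_0 (E : Env κ ι) : RowG (ek E lk48) (F48_0 E) [F48_0 E, F48_1 E, F48_2 E, F48_3 E, F48_4 E, F48_5 E] [r48_0_0, r48_0_1, r48_0_2, r48_0_3, r48_0_4, r48_0_5] :=
  rowG_cons _ _ _ _ _ _ (h48_0_0 E) (rowG_cons _ _ _ _ _ _ (h48_0_1 E) (rowG_cons _ _ _ _ _ _ (h48_0_2 E) (rowG_cons _ _ _ _ _ _ (h48_0_3 E) (rowG_cons _ _ _ _ _ _ (h48_0_4 E) (rowG_cons _ _ _ _ _ _ (h48_0_5 E) (rowG_nil _ _))))))

theorem row48_1 (E : Env κ ι) : RowG (ek E lk48) (F48_1 E) [F48_1 E, F48_2 E, F48_3 E, F48_4 E, F48_5 E] [r48_1_1, r48_1_2, r48_1_3, r48_1_4, r48_1_5] :=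
  rowG_cons _ _ _ _ _ _ (h48_1_1 E) (rowG_cons _ _ _ _ _ _ (h48_1_2 E) (rowG_cons _ _ _ _ _ _ (h48_1_3 E) (rowG_cons _ _ _ _ _ _ (h48_1_4 E) (rowG_cons _ _ _ _ _ _ (h48_1_5 E) (rowG_nil _ _)))))

theorem row48_2 (E : Env κ ι) : RowG (ek E lk48) (F48_2 E) [F48_2 E, F48_3 E, F48_4 E, F48_5 E] [r48_2_2, r48_2_3, r48_2_4, r48_2_5] :=
  rowG_cons _ _ _ _ _ _ (h48_2_2 E) (rowG_cons _ _ _ _ _ _ (h48_2_3 E) (rowG_cons _ _ _ _ _ _ (h48_2_4 E) (rowG_cons _ _ _ _ _ _ (h48_2_5 E) (rowG_nil _ _))))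

theorem row48_3 (E : Env κ ι) : RowG (ek E lk48) (F48_3 E) [F48_3 E, F48_4 E, F48_5 E] [r48_3_3, r48_3_4, r48_3_5] :=
  rowG_cons _ _ _ _ _ _ (h48_3_3 E) (rowG_cons _ _ _ _ _ _ (h48_3_4 E) (rowG_cons _ _ _ _ _ _ (h48_3_5 E) (rowG_nil _ _)))

theorem row48_4 (E : Env κ ι) : RowG (ek E lk48) (F48_4 E) [F48_4 E, F48_5 E] [r48_4_4, r48_4_5] :=
  rowG_cons _ _ _ _ _ _ (h48_4_4 E) (rowG_cons _ _ _ _ _ _ (h48_4_5 E) (rowG_nil _ _))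

theorem row48_5 (E : Env κ ι) : RowG (ek E lk48) (F48_5 E) [F48_5 E] [r48_5_5] :=
  rowG_cons _ _ _ _ _ _ (h48_5_5 E) (rowG_nil _ _)

def tab48 : List (List (List (ℕ × ℤ))) := [[r48_0_0, r48_0_1, r48_0_2, r48_0_3, r48_0_4, r48_0_5], [r48_1_1, r48_1_2, r48_1_3, r48_1_4, r48_1_5], [r48_2_2, r48_2_3, r48_2_4, r48_2_5], [r48_3_3, r48_3_4, r48_3_5], [r48_4_4, r48_4_5], [r48_5_5]]

theorem tri48 (E : Env κ ι) : TriG (ek E lk48) [F48_0 E, F48_1 E, F48_2 E, F48_3 E, F48_4 E, F48_5 E] tab48 := by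
  refine triG_cons _ _ _ _ _ (row48_0 E) ?_
  refine triG_cons _ _ _ _ _ (row48_1 E) ?_
  refine triG_cons _ _ _ _ _ (row48_2 E) ?_
  refine triG_cons _ _ _ _ _ (row48_3 E) ?_
  refine triG_cons _ _ _ _ _ (row48_4 E) ?_
  refine triG_cons _ _ _ _ _ (row48_5 E) ?_
  exact triG_nil _

end

end YMBG
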