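import Pool.Agent.YM.BG.Ga0
import Pool.Agent.YM.BG.Ga1

set_option linter.unusedVariables false
set_option maxRecDepth 100000

open YMEng

namespace YMBG

def lk49 : List Key := [
  (2, 5, [(0, [0], [0, 1]), (0, [0], [0, 1]), (0, [1], [2, 3]), (0, [1], [2, 4]), (4, [], [4]), (4, [], [3])]),
  (2, 5, [(0, [0], [0, 1]), (0, [1], [0, 2]), (0, [1], [3, 4]), (0, [0], [3, 4]), (4, [], [2]), (4, [], [1])]),
  (2, 7, [(0, [0], [0, 1]), (0, [1], [0, 2]), (0, [1], [3, 4]), (0, [0], [5, 6]), (1, [], [5, 6]), (1, [], [3, 4]), (4, [], [2]), (4, [], [1])]),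
  (2, 6, [(0, [0], [0, 1]), (0, [0], [2, 3]), (0, [1], [4, 5]), (1, [], [2, 3]), (2, [1], [0, 4, 5]), (4, [], [1])]),
  (2, 7, [(0, [0], [0, 1]), (0, [0], [0, 1]), (0, [1], [2, 3]), (0, [1], [4, 5]), (1, [], [2, 6]), (1, [], [4, 5]), (4, [], [3]), (4, [], [6])]),
  (2, 7, [(0, [0], [0, 1]), (0, [1], [0, 2]), (0, [1], [3, 4]), (0, [0], [3, 4]), (4, [], [2]), (4, [], [1]), (1, [], [5, 6]), (1, [], [5, 6])]),
  (2, 5, [(0, [0], [0, 1]), (0, [1], [0, 2]), (0, [1], [2, 3]), (0, [0], [1, 4]), (4, [], [4]), (4, [], [3])]),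
  (2, 5, [(0, [0], [0, 1]), (0, [1], [0, 2]), (0, [0], [2, 3]), (0, [1], [1, 4]), (4, [], [4]), (4, [], [3])]),
  (2, 6, [(0, [0], [0, 1]), (0, [0], [2, 3]), (0, [1], [4, 5]), (1, [], [4, 5]), (2, [1], [0, 2, 3]), (4, [], [1])]),
  (2, 7, [(0, [0], [0, 1]), (0, [0], [2, 3]), (0, [1], [4, 5]), (0, [1], [4, 6]), (1, [], [0, 5]), (1, [], [2, 3]), (4, [], [1]), (4, [], [6])]),
  (2, 6, [(0, [0], [0, 1]), (0, [0], [2, 3]), (0, [1], [4, 5]), (1, [], [0, 4]), (2, [1], [1, 2, 3]), (4, [], [5])]),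
  (2, 7, [(0, [0], [0, 1]), (0, [1], [0, 2]), (0, [0], [3, 4]), (0, [1], [5, 6]), (1, [], [1, 3]), (1, [], [5, 6]), (4, [], [2]), (4, [], [4])]),
  (2, 7, [(0, [0], [0, 1]), (0, [0], [2, 3]), (0, [1], [0, 4]), (0, [1], [4, 5]), (1, [], [1, 6]), (1, [], [2, 3]), (4, [], [5]), (4, [], [6])]),
  (2, 5, [(0, [0], [0, 1]), (0, [1], [0, 2]), (2, [0], [2, 3, 4]), (2, [1], [1, 3, 4])]),
  (2, 6, [(0, [0], [0, 1]), (0, [0], [2, 3]), (0, [1], [0, 4]), (1, [], [4, 5]), (2, [1], [1, 2, 3]), (4, [], [5])]),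
  (2, 6, [(0, [0], [0, 1]), (0, [0], [2, 3]), (0, [1], [0, 2]), (1, [], [4, 5]), (2, [1], [1, 4, 5]), (4, [], [3])]),
  (2, 7, [(0, [0], [0, 1]), (0, [1], [0, 2]), (0, [1], [1, 3]), (0, [0], [4, 5]), (1, [], [2, 6]), (1, [], [4, 5]), (4, [], [3]), (4, [], [6])]),
  (2, 7, [(0, [0], [0, 1]), (0, [1], [0, 2]), (0, [0], [2, 3]), (0, [1], [1, 4]), (4, [], [4]), (4, [], [3]), (1, [], [5, 6]), (1, [], [5, 6])]),
  (2, 5, [(0, [0], [0, 1]), (0, [0], [0, 2]), (0, [1], [3, 4]), (2, [1], [1, 3, 4]), (4, [], [2])]),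
  (2, 6, [(0, [0], [0, 1]), (0, [0], [0, 1]), (0, [1], [2, 3]), (0, [1], [2, 4]), (1, [], [3, 5]), (4, [], [4]), (4, [], [5])]),
  (2, 6, [(0, [0], [0, 1]), (0, [0], [2, 3]), (0, [1], [0, 4]), (0, [1], [4, 5]), (1, [], [2, 3]), (4, [], [1]), (4, [], [5])]),
  (2, 6, [(0, [0], [0, 1]), (0, [0], [0, 1]), (0, [1], [2, 3]), (0, [1], [4, 5]), (1, [], [4, 5]), (4, [], [2]), (4, [], [3])]),
  (2, 6, [(0, [0], [0, 1]), (0, [0], [0, 1]), (0, [1], [2, 3]), (0, [1], [4, 5]), (1, [], [2, 4]), (4, [], [5]), (4, [], [3])]),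
  (2, 5, [(0, [0], [0, 1]), (0, [0], [2, 3]), (0, [1], [0, 4]), (2, [1], [1, 2, 3]), (4, [], [4])]),
  (2, 6, [(0, [0], [0, 1]), (0, [1], [0, 2]), (0, [1], [1, 3]), (0, [0], [4, 5]), (1, [], [4, 5]), (4, [], [3]), (4, [], [2])]),
  (2, 6, [(0, [0], [0, 1]), (0, [1], [0, 2]), (0, [1], [1, 3]), (0, [0], [4, 5]), (1, [], [2, 4]), (4, [], [3]), (4, [], [5])]),
  (2, 6, [(0, [0], [0, 1]), (0, [0], [2, 3]), (0, [1], [0, 4]), (0, [1], [4, 5]), (1, [], [2, 5]), (4, [], [1]), (4, [], [3])]),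
  (2, 6, [(0, [0], [0, 1]), (0, [1], [2, 3]), (0, [0], [2, 4]), (0, [1], [0, 5]), (1, [], [1, 3]), (4, [], [5]), (4, [], [4])]),
  (2, 6, [(0, [0], [0, 1]), (0, [0], [2, 3]), (0, [1], [2, 4]), (0, [1], [0, 5]), (1, [], [1, 3]), (4, [], [5]), (4, [], [4])]),
  (2, 6, [(0, [0], [0, 1]), (0, [1], [0, 2]), (0, [0], [2, 3]), (0, [1], [1, 4]), (1, [], [3, 5]), (4, [], [4]), (4, [], [5])]),
  (2, 6, [(0, [0], [0, 1]), (0, [0], [2, 3]), (0, [1], [0, 4]), (0, [1], [4, 5]), (1, [], [1, 2]), (4, [], [3]), (4, [], [5])]),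
  (2, 6, [(0, [0], [0, 1]), (0, [0], [2, 3]), (0, [1], [0, 4]), (0, [1], [2, 4]), (1, [], [1, 5]), (4, [], [3]), (4, [], [5])]),
  (2, 5, [(0, [0], [0, 1]), (0, [0], [2, 3]), (0, [1], [2, 4]), (0, [1], [0, 4]), (4, [], [3]), (4, [], [1])]),
  (2, 7, [(0, [0], [0, 1]), (0, [0], [0, 2]), (0, [1], [1, 2]), (4, [], [3]), (0, [1], [4, 5]), (1, [], [4, 6]), (1, [], [3, 6]), (4, [], [5])]),
  (2, 7, [(0, [0], [0, 1]), (0, [0], [0, 2]), (0, [1], [1, 2]), (4, [], [3]), (0, [1], [4, 5]), (1, [], [4, 6]), (1, [], [3, 5]), (4, [], [6])]),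
  (2, 7, [(0, [0], [0, 1]), (0, [0], [0, 2]), (0, [1], [1, 2]), (4, [], [3]), (0, [1], [4, 5]), (1, [], [4, 5]), (1, [], [3, 6]), (4, [], [6])]),
  (2, 6, [(0, [0], [0, 1]), (0, [0], [0, 2]), (0, [1], [1, 2]), (4, [], [3]), (0, [1], [4, 5]), (1, [], [4, 5]), (4, [], [3])]),
  (2, 6, [(0, [0], [0, 1]), (0, [0], [0, 2]), (0, [1], [1, 2]), (4, [], [3]), (0, [1], [4, 5]), (1, [], [3, 4]), (4, [], [5])]),
  (2, 5, [(0, [0], [0, 1]), (0, [0], [0, 2]), (0, [1], [1, 2]), (4, [], [3]), (0, [1], [3, 4]), (4, [], [4])]),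
  (2, 7, [(0, [0], [0, 1]), (0, [0], [0, 2]), (0, [1], [3, 2]), (4, [], [1]), (0, [1], [4, 5]), (1, [], [4, 6]), (1, [], [5, 6]), (4, [], [3])]),
  (2, 7, [(0, [0], [0, 1]), (0, [0], [0, 2]), (0, [1], [3, 2]), (4, [], [1]), (0, [1], [4, 5]), (1, [], [4, 6]), (1, [], [3, 6]), (4, [], [5])]),
  (2, 7, [(0, [0], [0, 1]), (0, [0], [0, 2]), (0, [1], [3, 2]), (4, [], [1]), (0, [1], [4, 5]), (1, [], [4, 6]), (1, [], [3, 5]), (4, [], [6])]),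
  (2, 7, [(0, [0], [0, 1]), (0, [0], [0, 2]), (0, [1], [3, 2]), (4, [], [1]), (0, [1], [3, 4]), (1, [], [5, 6]), (1, [], [4, 5]), (4, [], [6])]),
  (2, 6, [(0, [0], [0, 1]), (0, [0], [0, 2]), (0, [1], [3, 2]), (4, [], [1]), (0, [1], [3, 4]), (1, [], [4, 5]), (4, [], [5])]),
  (2, 7, [(0, [0], [0, 1]), (0, [0], [0, 1]), (0, [1], [2, 3]), (4, [], [3]), (0, [1], [4, 5]), (1, [], [4, 6]), (1, [], [2, 6]), (4, [], [5])]),
  (2, 7, [(0, [0], [0, 1]), (0, [0], [0, 1]), (0, [1], [2, 3]), (4, [], [3]), (0, [1], [4, 5]), (1, [], [4, 6]), (1, [], [2, 5]), (4, [], [6])]),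
  (2, 7, [(0, [0], [0, 1]), (0, [0], [2, 3]), (0, [1], [0, 3]), (4, [], [1]), (0, [1], [4, 5]), (1, [], [4, 6]), (1, [], [5, 6]), (4, [], [2])]),
  (2, 7, [(0, [0], [0, 1]), (0, [0], [2, 3]), (0, [1], [0, 3]), (4, [], [1]), (0, [1], [4, 5]), (1, [], [4, 6]), (1, [], [2, 6]), (4, [], [5])]),
  (2, 7, [(0, [0], [0, 1]), (0, [0], [2, 3]), (0, [1], [0, 3]), (4, [], [1]), (0, [1], [4, 5]), (1, [], [4, 6]), (1, [], [2, 5]), (4, [], [6])]),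
  (2, 7, [(0, [0], [0, 1]), (0, [0], [2, 3]), (0, [1], [0, 3]), (4, [], [1]), (0, [1], [2, 4]), (1, [], [5, 6]), (1, [], [4, 5]), (4, [], [6])]),
  (2, 7, [(0, [0], [0, 1]), (0, [0], [2, 3]), (0, [1], [0, 1]), (4, [], [3]), (0, [1], [4, 5]), (1, [], [4, 6]), (1, [], [5, 6]), (4, [], [2])]),
  (2, 7, [(0, [0], [0, 1]), (0, [0], [2, 3]), (0, [1], [0, 1]), (4, [], [3]), (0, [1], [4, 5]), (1, [], [4, 6]), (1, [], [2, 6]), (4, [], [5])]),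
  (2, 7, [(0, [0], [0, 1]), (0, [0], [2, 3]), (0, [1], [0, 1]), (4, [], [3]), (0, [1], [4, 5]), (1, [], [4, 6]), (1, [], [2, 5]), (4, [], [6])]),
  (2, 7, [(0, [0], [0, 1]), (0, [0], [2, 3]), (0, [1], [0, 1]), (4, [], [3]), (0, [1], [4, 5]), (1, [], [4, 5]), (1, [], [2, 6]), (4, [], [6])]),
  (2, 6, [(0, [0], [0, 1]), (0, [0], [2, 3]), (0, [1], [0, 1]), (4, [], [3]), (0, [1], [4, 5]), (1, [], [4, 5]), (4, [], [2])]),
  (2, 6, [(0, [0], [0, 1]), (0, [0], [2, 3]), (0, [1], [0, 1]), (4, [], [3]), (0, [1], [4, 5]), (1, [], [2, 4]), (4, [], [5])]),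
  (2, 7, [(0, [0], [0, 1]), (0, [0], [2, 3]), (0, [1], [0, 1]), (4, [], [3]), (0, [1], [2, 4]), (1, [], [5, 6]), (1, [], [4, 5]), (4, [], [6])]),
  (2, 6, [(0, [0], [0, 1]), (0, [0], [2, 3]), (0, [1], [0, 1]), (4, [], [3]), (0, [1], [2, 4]), (1, [], [4, 5]), (4, [], [5])]),
  (2, 6, [(0, [0], [0, 1]), (0, [0], [2, 3]), (0, [1], [0, 1]), (4, [], [3]), (1, [], [4, 5]), (2, [1], [2, 4, 5])]),
  (2, 7, [(0, [0], [0, 1]), (0, [0], [2, 0]), (0, [1], [1, 3]), (4, [], [3]), (0, [1], [4, 5]), (1, [], [4, 6]), (1, [], [2, 6]), (4, [], [5])]),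
  (2, 7, [(0, [0], [0, 1]), (0, [0], [2, 0]), (0, [1], [1, 3]), (4, [], [3]), (0, [1], [4, 5]), (1, [], [4, 6]), (1, [], [2, 5]), (4, [], [6])]),
  (2, 7, [(0, [0], [0, 1]), (0, [0], [2, 0]), (0, [1], [1, 3]), (4, [], [3]), (0, [1], [4, 5]), (1, [], [4, 5]), (1, [], [2, 6]), (4, [], [6])]),
  (2, 7, [(0, [0], [0, 1]), (0, [0], [2, 0]), (0, [1], [1, 3]), (4, [], [3]), (0, [1], [2, 4]), (1, [], [5, 6]), (1, [], [5, 6]), (4, [], [4])]),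
  (2, 7, [(0, [0], [0, 1]), (0, [0], [2, 0]), (0, [1], [1, 3]), (4, [], [3]), (0, [1], [2, 4]), (1, [], [5, 6]), (1, [], [4, 5]), (4, [], [6])]),
  (2, 6, [(0, [0], [0, 1]), (0, [0], [2, 0]), (0, [1], [1, 3]), (4, [], [3]), (1, [], [4, 5]), (2, [1], [2, 4, 5])]),
  (2, 7, [(0, [0], [0, 1]), (0, [0], [0, 1]), (0, [1], [2, 3]), (4, [], [4]), (0, [1], [5, 6]), (1, [], [5, 6]), (1, [], [2, 3]), (4, [], [4])]),
  (2, 7, [(0, [0], [0, 1]), (0, [0], [0, 1]), (0, [1], [2, 3]), (4, [], [4]), (0, [1], [2, 5]), (1, [], [5, 6]), (1, [], [3, 4]), (4, [], [6])]),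
  (2, 7, [(0, [0], [0, 1]), (0, [0], [2, 0]), (0, [1], [3, 1]), (4, [], [4]), (0, [1], [5, 6]), (1, [], [5, 6]), (1, [], [2, 3]), (4, [], [4])]),
  (2, 7, [(0, [0], [0, 1]), (0, [0], [2, 0]), (0, [1], [3, 1]), (4, [], [4]), (0, [1], [5, 6]), (1, [], [2, 5]), (1, [], [3, 6]), (4, [], [4])]),
  (2, 7, [(0, [0], [0, 1]), (0, [0], [2, 0]), (0, [1], [3, 1]), (4, [], [4]), (0, [1], [5, 6]), (1, [], [2, 5]), (1, [], [3, 4]), (4, [], [6])]),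
  (2, 7, [(0, [0], [0, 1]), (0, [0], [2, 0]), (0, [1], [3, 1]), (4, [], [4]), (0, [1], [5, 6]), (1, [], [3, 5]), (1, [], [2, 4]), (4, [], [6])]),
  (2, 7, [(0, [0], [0, 1]), (0, [0], [2, 0]), (0, [1], [3, 1]), (4, [], [4]), (0, [1], [5, 6]), (1, [], [4, 5]), (1, [], [2, 3]), (4, [], [6])]),
  (2, 7, [(0, [0], [0, 1]), (0, [0], [2, 0]), (0, [1], [3, 1]), (4, [], [4]), (0, [1], [2, 5]), (1, [], [5, 6]), (1, [], [3, 6]), (4, [], [4])]),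
  (2, 7, [(0, [0], [0, 1]), (0, [0], [2, 0]), (0, [1], [3, 1]), (4, [], [4]), (0, [1], [2, 5]), (1, [], [5, 6]), (1, [], [3, 4]), (4, [], [6])]),
  (2, 7, [(0, [0], [0, 1]), (0, [0], [2, 0]), (0, [1], [3, 1]), (4, [], [4]), (0, [1], [3, 5]), (1, [], [5, 6]), (1, [], [2, 4]), (4, [], [6])]),
  (2, 7, [(0, [0], [0, 1]), (0, [0], [2, 0]), (0, [1], [3, 1]), (4, [], [4]), (0, [1], [4, 5]), (1, [], [2, 6]), (1, [], [3, 6]), (4, [], [5])]),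
  (2, 7, [(0, [0], [0, 1]), (0, [0], [2, 0]), (0, [1], [3, 1]), (4, [], [4]), (0, [1], [2, 5]), (1, [], [4, 6]), (1, [], [3, 5]), (4, [], [6])]),
  (2, 7, [(0, [0], [0, 1]), (0, [0], [2, 0]), (0, [1], [3, 1]), (4, [], [4]), (0, [1], [3, 5]), (1, [], [4, 6]), (1, [], [2, 5]), (4, [], [6])]),
  (2, 6, [(0, [0], [0, 1]), (0, [0], [2, 0]), (0, [1], [3, 1]), (4, [], [4]), (0, [1], [2, 5]), (1, [], [3, 5]), (4, [], [4])]),
  (2, 6, [(0, [0], [0, 1]), (0, [0], [2, 0]), (0, [1], [3, 1]), (4, [], [4]), (0, [1], [3, 5]), (1, [], [2, 5]), (4, [], [4])]),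
  (2, 6, [(0, [0], [0, 1]), (0, [0], [2, 0]), (0, [1], [3, 1]), (4, [], [4]), (0, [1], [4, 5]), (1, [], [2, 3]), (4, [], [5])]),
  (2, 7, [(0, [0], [0, 1]), (0, [0], [2, 0]), (0, [1], [3, 1]), (4, [], [4]), (0, [1], [2, 3]), (1, [], [5, 6]), (1, [], [4, 5]), (4, [], [6])]),
  (2, 6, [(0, [0], [0, 1]), (0, [0], [2, 0]), (0, [1], [3, 1]), (4, [], [4]), (0, [1], [2, 3]), (1, [], [4, 5]), (4, [], [5])]),
  (2, 5, [(0, [0], [0, 1]), (0, [0], [2, 0]), (0, [1], [3, 1]), (4, [], [4]), (0, [1], [2, 3]), (4, [], [4])]),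
  (2, 6, [(0, [0], [0, 1]), (0, [0], [2, 0]), (0, [1], [3, 1]), (4, [], [4]), (1, [], [3, 5]), (2, [1], [2, 4, 5])]),
  (2, 6, [(0, [0], [0, 1]), (0, [0], [2, 0]), (0, [1], [3, 1]), (4, [], [4]), (1, [], [4, 5]), (2, [1], [2, 3, 5])]),
  (2, 5, [(0, [0], [0, 1]), (0, [0], [2, 0]), (0, [1], [3, 1]), (4, [], [4]), (2, [1], [2, 3, 4])]),
  (2, 7, [(0, [0], [0, 1]), (0, [0], [2, 0]), (0, [1], [3, 4]), (4, [], [1]), (0, [1], [5, 6]), (1, [], [5, 6]), (1, [], [3, 4]), (4, [], [2])]),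
  (2, 7, [(0, [0], [0, 1]), (0, [0], [2, 0]), (0, [1], [3, 4]), (4, [], [1]), (0, [1], [5, 6]), (1, [], [2, 5]), (1, [], [3, 6]), (4, [], [4])]),
  (2, 7, [(0, [0], [0, 1]), (0, [0], [2, 0]), (0, [1], [3, 4]), (4, [], [1]), (0, [1], [5, 6]), (1, [], [3, 5]), (1, [], [4, 6]), (4, [], [2])]),
  (2, 7, [(0, [0], [0, 1]), (0, [0], [2, 0]), (0, [1], [3, 4]), (4, [], [1]), (0, [1], [3, 5]), (1, [], [5, 6]), (1, [], [2, 6]), (4, [], [4])]),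
  (2, 7, [(0, [0], [0, 1]), (0, [0], [2, 0]), (0, [1], [3, 4]), (4, [], [1]), (0, [1], [3, 5]), (1, [], [5, 6]), (1, [], [4, 6]), (4, [], [2])]),
  (2, 7, [(0, [0], [0, 1]), (0, [0], [2, 0]), (0, [1], [3, 4]), (4, [], [1]), (0, [1], [3, 5]), (1, [], [5, 6]), (1, [], [2, 4]), (4, [], [6])]),
  (2, 7, [(0, [0], [0, 1]), (0, [0], [2, 0]), (0, [1], [3, 4]), (4, [], [1]), (0, [1], [3, 5]), (1, [], [2, 6]), (1, [], [4, 5]), (4, [], [6])]),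
  (2, 6, [(0, [0], [0, 1]), (0, [0], [2, 0]), (0, [1], [3, 4]), (4, [], [1]), (0, [1], [3, 5]), (1, [], [2, 5]), (4, [], [4])]),
  (2, 6, [(0, [0], [0, 1]), (0, [0], [2, 0]), (0, [1], [3, 4]), (4, [], [1]), (0, [1], [3, 5]), (1, [], [4, 5]), (4, [], [2])]),
  (2, 6, [(0, [0], [0, 1]), (0, [0], [2, 0]), (0, [1], [3, 4]), (4, [], [1]), (1, [], [3, 5]), (2, [1], [2, 4, 5])]),
  (2, 7, [(0, [0], [0, 1]), (0, [0], [2, 3]), (0, [1], [0, 1]), (4, [], [4]), (0, [1], [5, 6]), (1, [], [5, 6]), (1, [], [2, 3]), (4, [], [4])]),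
  (2, 7, [(0, [0], [0, 1]), (0, [0], [2, 3]), (0, [1], [0, 1]), (4, [], [4]), (0, [1], [5, 6]), (1, [], [2, 5]), (1, [], [3, 6]), (4, [], [4])]),
  (2, 7, [(0, [0], [0, 1]), (0, [0], [2, 3]), (0, [1], [0, 1]), (4, [], [4]), (0, [1], [2, 5]), (1, [], [5, 6]), (1, [], [3, 6]), (4, [], [4])]),
  (2, 7, [(0, [0], [0, 1]), (0, [0], [2, 3]), (0, [1], [0, 1]), (4, [], [4]), (0, [1], [2, 5]), (1, [], [5, 6]), (1, [], [3, 4]), (4, [], [6])]),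
  (2, 7, [(0, [0], [0, 1]), (0, [0], [2, 3]), (0, [1], [0, 1]), (4, [], [4]), (0, [1], [2, 5]), (1, [], [4, 6]), (1, [], [3, 5]), (4, [], [6])]),
  (2, 6, [(0, [0], [0, 1]), (0, [0], [2, 3]), (0, [1], [0, 1]), (4, [], [4]), (0, [1], [2, 5]), (1, [], [3, 5]), (4, [], [4])]),
  (2, 7, [(0, [0], [0, 1]), (0, [0], [2, 3]), (0, [1], [0, 1]), (4, [], [4]), (0, [1], [2, 3]), (1, [], [5, 6]), (1, [], [5, 6]), (4, [], [4])]),
  (2, 7, [(0, [0], [0, 1]), (0, [0], [2, 3]), (0, [1], [0, 1]), (4, [], [4]), (0, [1], [2, 3]), (1, [], [5, 6]), (1, [], [4, 5]), (4, [], [6])]),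
  (2, 6, [(0, [0], [0, 1]), (0, [0], [2, 3]), (0, [1], [0, 1]), (4, [], [4]), (1, [], [2, 5]), (2, [1], [3, 4, 5])]),
  (2, 7, [(0, [0], [0, 1]), (0, [0], [2, 3]), (0, [1], [4, 0]), (4, [], [1]), (0, [1], [5, 6]), (1, [], [5, 6]), (1, [], [2, 4]), (4, [], [3])]),
  (2, 7, [(0, [0], [0, 1]), (0, [0], [2, 3]), (0, [1], [4, 0]), (4, [], [1]), (0, [1], [5, 6]), (1, [], [2, 5]), (1, [], [3, 6]), (4, [], [4])]),
  (2, 7, [(0, [0], [0, 1]), (0, [0], [2, 3]), (0, [1], [4, 0]), (4, [], [1]), (0, [1], [5, 6]), (1, [], [2, 5]), (1, [], [4, 6]), (4, [], [3])]),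
  (2, 7, [(0, [0], [0, 1]), (0, [0], [2, 3]), (0, [1], [4, 0]), (4, [], [1]), (0, [1], [5, 6]), (1, [], [2, 5]), (1, [], [3, 4]), (4, [], [6])]),
  (2, 7, [(0, [0], [0, 1]), (0, [0], [2, 3]), (0, [1], [4, 0]), (4, [], [1]), (0, [1], [2, 5]), (1, [], [5, 6]), (1, [], [3, 6]), (4, [], [4])]),
  (2, 7, [(0, [0], [0, 1]), (0, [0], [2, 3]), (0, [1], [4, 0]), (4, [], [1]), (0, [1], [2, 5]), (1, [], [5, 6]), (1, [], [4, 6]), (4, [], [3])]),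
  (2, 7, [(0, [0], [0, 1]), (0, [0], [2, 3]), (0, [1], [4, 0]), (4, [], [1]), (0, [1], [2, 5]), (1, [], [5, 6]), (1, [], [3, 4]), (4, [], [6])]),
  (2, 7, [(0, [0], [0, 1]), (0, [0], [2, 3]), (0, [1], [4, 0]), (4, [], [1]), (0, [1], [2, 5]), (1, [], [3, 6]), (1, [], [4, 6]), (4, [], [5])]),
  (2, 7, [(0, [0], [0, 1]), (0, [0], [2, 3]), (0, [1], [4, 0]), (4, [], [1]), (0, [1], [2, 5]), (1, [], [3, 6]), (1, [], [4, 5]), (4, [], [6])]),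
  (2, 7, [(0, [0], [0, 1]), (0, [0], [2, 3]), (0, [1], [4, 0]), (4, [], [1]), (0, [1], [2, 5]), (1, [], [4, 6]), (1, [], [3, 5]), (4, [], [6])]),
  (2, 6, [(0, [0], [0, 1]), (0, [0], [2, 3]), (0, [1], [4, 0]), (4, [], [1]), (0, [1], [2, 5]), (1, [], [3, 5]), (4, [], [4])]),
  (2, 6, [(0, [0], [0, 1]), (0, [0], [2, 3]), (0, [1], [4, 0]), (4, [], [1]), (1, [], [2, 5]), (2, [1], [3, 4, 5])]),
  (2, 7, [(0, [0], [0, 1]), (0, [0], [2, 3]), (0, [1], [1, 3]), (4, [], [4]), (0, [1], [5, 6]), (1, [], [5, 6]), (1, [], [0, 2]), (4, [], [4])]),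
  (2, 7, [(0, [0], [0, 1]), (0, [0], [2, 3]), (0, [1], [1, 3]), (4, [], [4]), (0, [1], [5, 6]), (1, [], [0, 5]), (1, [], [2, 6]), (4, [], [4])]),
  (2, 7, [(0, [0], [0, 1]), (0, [0], [2, 3]), (0, [1], [1, 3]), (4, [], [4]), (0, [1], [5, 6]), (1, [], [0, 5]), (1, [], [2, 4]), (4, [], [6])]),
  (2, 7, [(0, [0], [0, 1]), (0, [0], [2, 3]), (0, [1], [1, 3]), (4, [], [4]), (0, [1], [5, 6]), (1, [], [4, 5]), (1, [], [0, 2]), (4, [], [6])]),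
  (2, 7, [(0, [0], [0, 1]), (0, [0], [2, 3]), (0, [1], [1, 3]), (4, [], [4]), (0, [1], [0, 5]), (1, [], [5, 6]), (1, [], [2, 6]), (4, [], [4])]),
  (2, 7, [(0, [0], [0, 1]), (0, [0], [2, 3]), (0, [1], [1, 3]), (4, [], [4]), (0, [1], [0, 5]), (1, [], [5, 6]), (1, [], [2, 4]), (4, [], [6])]),
  (2, 7, [(0, [0], [0, 1]), (0, [0], [2, 3]), (0, [1], [1, 3]), (4, [], [4]), (0, [1], [4, 5]), (1, [], [0, 6]), (1, [], [2, 6]), (4, [], [5])]),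
  (2, 7, [(0, [0], [0, 1]), (0, [0], [2, 3]), (0, [1], [1, 3]), (4, [], [4]), (0, [1], [0, 5]), (1, [], [4, 6]), (1, [], [2, 5]), (4, [], [6])]),
  (2, 6, [(0, [0], [0, 1]), (0, [0], [2, 3]), (0, [1], [1, 3]), (4, [], [4]), (0, [1], [0, 5]), (1, [], [2, 5]), (4, [], [4])]),
  (2, 6, [(0, [0], [0, 1]), (0, [0], [2, 3]), (0, [1], [1, 3]), (4, [], [4]), (0, [1], [4, 5]), (1, [], [0, 2]), (4, [], [5])]),
  (2, 7, [(0, [0], [0, 1]), (0, [0], [2, 3]), (0, [1], [1, 3]), (4, [], [4]), (0, [1], [0, 2]), (1, [], [5, 6]), (1, [], [4, 5]), (4, [], [6])]),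
  (2, 6, [(0, [0], [0, 1]), (0, [0], [2, 3]), (0, [1], [1, 3]), (4, [], [4]), (0, [1], [0, 2]), (1, [], [4, 5]), (4, [], [5])]),
  (2, 5, [(0, [0], [0, 1]), (0, [0], [2, 3]), (0, [1], [1, 3]), (4, [], [4]), (0, [1], [0, 2]), (4, [], [4])]),
  (2, 6, [(0, [0], [0, 1]), (0, [0], [2, 3]), (0, [1], [1, 3]), (4, [], [4]), (1, [], [0, 5]), (2, [1], [2, 4, 5])]),
  (2, 6, [(0, [0], [0, 1]), (0, [0], [2, 3]), (0, [1], [1, 3]), (4, [], [4]), (1, [], [4, 5]), (2, [1], [0, 2, 5])]),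
  (2, 5, [(0, [0], [0, 1]), (0, [0], [2, 3]), (0, [1], [1, 3]), (4, [], [4]), (2, [1], [0, 2, 4])]),
  (2, 7, [(0, [0], [0, 1]), (0, [0], [2, 3]), (0, [1], [4, 3]), (4, [], [1]), (0, [1], [5, 6]), (1, [], [5, 6]), (1, [], [2, 4]), (4, [], [0])]),
  (2, 7, [(0, [0], [0, 1]), (0, [0], [2, 3]), (0, [1], [4, 3]), (4, [], [1]), (0, [1], [5, 6]), (1, [], [2, 5]), (1, [], [4, 6]), (4, [], [0])]),
  (2, 7, [(0, [0], [0, 1]), (0, [0], [2, 3]), (0, [1], [4, 3]), (4, [], [1]), (0, [1], [5, 6]), (1, [], [0, 5]), (1, [], [2, 4]), (4, [], [6])]),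
  (2, 7, [(0, [0], [0, 1]), (0, [0], [2, 3]), (0, [1], [4, 3]), (4, [], [1]), (0, [1], [5, 6]), (1, [], [2, 5]), (1, [], [0, 4]), (4, [], [6])]),
  (2, 7, [(0, [0], [0, 1]), (0, [0], [2, 3]), (0, [1], [4, 3]), (4, [], [1]), (0, [1], [5, 6]), (1, [], [4, 5]), (1, [], [0, 2]), (4, [], [6])]),
  (2, 6, [(0, [0], [0, 1]), (0, [0], [2, 3]), (0, [1], [4, 3]), (4, [], [1]), (1, [], [0, 5]), (2, [1], [2, 4, 5])]),
  (2, 6, [(0, [0], [0, 1]), (0, [0], [2, 3]), (0, [1], [4, 3]), (4, [], [1]), (1, [], [2, 5]), (2, [1], [0, 4, 5])]),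
  (2, 6, [(0, [0], [0, 1]), (0, [0], [2, 3]), (0, [1], [4, 3]), (4, [], [1]), (1, [], [4, 5]), (2, [1], [0, 2, 5])]),
  (2, 5, [(0, [0], [0, 1]), (0, [0], [2, 3]), (0, [1], [4, 3]), (4, [], [1]), (2, [1], [0, 2, 4])]),
  (2, 7, [(0, [0], [0, 1]), (0, [0], [2, 1]), (0, [1], [3, 4]), (4, [], [4]), (0, [1], [5, 6]), (1, [], [5, 6]), (1, [], [0, 2]), (4, [], [3])]),
  (2, 7, [(0, [0], [0, 1]), (0, [0], [2, 1]), (0, [1], [3, 4]), (4, [], [4]), (0, [1], [5, 6]), (1, [], [0, 5]), (1, [], [2, 6]), (4, [], [3])]),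
  (2, 7, [(0, [0], [0, 1]), (0, [0], [2, 1]), (0, [1], [3, 4]), (4, [], [4]), (0, [1], [5, 6]), (1, [], [0, 5]), (1, [], [2, 3]), (4, [], [6])]),
  (2, 7, [(0, [0], [0, 1]), (0, [0], [2, 1]), (0, [1], [3, 4]), (4, [], [4]), (0, [1], [5, 6]), (1, [], [3, 5]), (1, [], [0, 2]), (4, [], [6])]),
  (2, 6, [(0, [0], [0, 1]), (0, [0], [2, 1]), (0, [1], [3, 4]), (4, [], [4]), (1, [], [0, 5]), (2, [1], [2, 3, 5])]),
  (2, 6, [(0, [0], [0, 1]), (0, [0], [2, 1]), (0, [1], [3, 4]), (4, [], [4]), (1, [], [3, 5]), (2, [1], [0, 2, 5])]),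
  (2, 5, [(0, [0], [0, 1]), (0, [0], [2, 1]), (0, [1], [3, 4]), (4, [], [4]), (2, [1], [0, 2, 3])]),
  (2, 6, [(0, [0], [0, 1]), (0, [0], [2, 3]), (0, [1], [1, 4]), (4, [], [4]), (1, [], [2, 5]), (2, [1], [0, 3, 5])]),
  (2, 7, [(0, [0], [0, 1]), (0, [0], [2, 1]), (0, [1], [3, 4]), (4, [], [5]), (0, [1], [3, 6]), (1, [], [0, 6]), (1, [], [2, 4]), (4, [], [5])]),
  (2, 6, [(0, [0], [0, 1]), (0, [0], [2, 1]), (0, [1], [3, 4]), (4, [], [5]), (1, [], [0, 3]), (2, [1], [2, 4, 5])]),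
  (2, 6, [(0, [0], [0, 1]), (0, [0], [2, 1]), (0, [1], [3, 4]), (4, [], [5]), (1, [], [0, 5]), (2, [1], [2, 3, 4])]),
  (2, 6, [(0, [0], [0, 1]), (0, [0], [2, 1]), (0, [1], [3, 4]), (4, [], [5]), (1, [], [3, 4]), (2, [1], [0, 2, 5])]),
  (2, 6, [(0, [0], [0, 1]), (0, [0], [2, 1]), (0, [1], [3, 4]), (4, [], [5]), (1, [], [3, 5]), (2, [1], [0, 2, 4])]),
  (2, 7, [(0, [0], [0, 1]), (0, [0], [2, 3]), (0, [1], [4, 1]), (4, [], [5]), (0, [1], [2, 6]), (1, [], [0, 6]), (1, [], [3, 4]), (4, [], [5])]),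
  (2, 7, [(0, [0], [0, 1]), (0, [0], [2, 3]), (0, [1], [4, 1]), (4, [], [5]), (0, [1], [2, 6]), (1, [], [4, 6]), (1, [], [0, 3]), (4, [], [5])]),
  (2, 6, [(0, [0], [0, 1]), (0, [0], [2, 3]), (0, [1], [4, 1]), (4, [], [5]), (1, [], [0, 2]), (2, [1], [3, 4, 5])]),
  (2, 6, [(0, [0], [0, 1]), (0, [0], [2, 3]), (0, [1], [4, 1]), (4, [], [5]), (1, [], [2, 3]), (2, [1], [0, 4, 5])]),
  (2, 6, [(0, [0], [0, 1]), (0, [0], [2, 3]), (0, [1], [4, 1]), (4, [], [5]), (1, [], [2, 4]), (2, [1], [0, 3, 5])]),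
  (2, 6, [(0, [0], [0, 1]), (0, [0], [2, 3]), (0, [1], [4, 1]), (4, [], [5]), (1, [], [2, 5]), (2, [1], [0, 3, 4])]),
  (2, 6, [(0, [0], [0, 1]), (0, [0], [2, 3]), (0, [1], [4, 5]), (4, [], [1]), (1, [], [0, 2]), (2, [1], [3, 4, 5])]),
  (2, 6, [(0, [0], [0, 1]), (0, [0], [2, 3]), (0, [1], [4, 5]), (4, [], [1]), (1, [], [2, 4]), (2, [1], [0, 3, 5])]),
  (2, 6, [(0, [0], [0, 1]), (0, [0], [2, 3]), (0, [1], [4, 5]), (4, [], [5]), (1, [], [0, 2]), (2, [1], [1, 3, 4])]),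
  (2, 5, [(0, [0], [0, 1]), (2, [0], [2, 3, 1]), (0, [1], [2, 4]), (2, [1], [0, 3, 4])]),
  (2, 5, [(0, [0], [0, 1]), (2, [1], [2, 3, 1]), (0, [0], [0, 4]), (2, [1], [2, 3, 4])]),
  (2, 5, [(0, [0], [0, 1]), (2, [1], [2, 3, 1]), (0, [0], [2, 4]), (2, [1], [0, 3, 4])])]

def kl49 : List ℕ := [5, 6, 10, 21, 22, 26, 33, 34, 40, 42, 43, 45, 50, 52, 53, 54, 55, 56, 62, 64, 75, 76, 78, 81, 83, 84, 85, 86, 87, 88, 89, 90, 93, 100, 101, 102, 103, 104, 107, 113, 114, 115, 117, 118, 122, 123, 127, 128, 129, 131, 134, 135, 136, 137, 138, 139, 141, 142, 143, 145, 146, 147, 149, 150, 151, 207, 210, 226, 227, 228, 229, 230, 231, 233, 234, 235, 236, 237, 238, 239, 240, 245, 246, 247, 249, 250, 251, 254, 255, 256, 257, 258, 259, 260, 261, 262, 265, 270, 271, 272, 273, 274, 275, 277, 278, 281, 289, 290, 291, 292, 293, 294, 295, 296, 297, 298, 299, 301, 304, 305, 306, 307, 308, 309,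 310, 311, 312, 313, 317, 318, 319, 320, 321, 322, 323, 324, 325, 326, 327, 328, 329, 330, 331, 332, 333, 334, 335, 336, 337, 338, 339, 422, 425, 426, 427, 428, 431, 433, 434, 436, 437, 438, 439, 440, 441, 447, 449, 450]

def m49_0 : Base := (0, 2, [(0, [0], [3, 4]), (0, [1], [3, 4]), (1, [], [0, 1]), (4, [], [2])])

def l49_0 : Cov := [(48, 0, 2, [(0, [0], [3, 4]), (0, [1], [3, 4]), (1, [], [0, 1]), (4, [], [2])]),
  (48, 0, 2, [(0, [0], [3, 4]), (0, [1], [3, 4]), (1, [], [0, 2]), (4, [], [1])]),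
  (48, 0, 2, [(0, [0], [3, 4]), (0, [1], [3, 4]), (1, [], [1, 2]), (4, [], [0])])]

def z49_0 : Cov := []

def w49_0 : List (List Wit) := [[(0, 0, 0, 16, 16), (1, 0, 0, 16, 16), (0, 0, 0, 16, 16), (2, 0, 0, 16, 16), (1, 0, 0, 16, 16), (2, 0, 0, 16, 16)],
  [(0, 0, 0, 16, 16), (1, 0, 0, 16, 16), (0, 0, 0, 16, 16), (2, 0, 0, 16, 16), (1, 0, 0, 16, 16), (2, 0, 0, 16, 16)]]

def m49_1 : Base := (0, 2, [(0, [0], [3, 4]), (0, [1], [0, 3]), (1, [], [1, 4]), (4, [], [2])])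

def l49_1 : Cov := [(12, 0, 2, [(0, [0], [3, 4]), (0, [1], [0, 3]), (1, [], [1, 4]), (4, [], [2])]),
  (12, 0, 2, [(0, [0], [3, 4]), (0, [1], [0, 3]), (1, [], [2, 4]), (4, [], [1])]),
  (12, 0, 2, [(0, [0], [3, 4]), (0, [1], [1, 3]), (1, [], [0, 4]), (4, [], [2])]),
  (12, 0, 2, [(0, [0], [3, 4]), (0, [1], [1, 3]), (1, [], [2, 4]), (4, [], [0])]),
  (12, 0, 2, [(0, [0], [3, 4]), (0, [1], [2, 3]), (1, [], [0, 4]), (4, [], [1])]),
  (12, 0, 2, [(0, [0], [3, 4]), (0, [1], [2, 3]), (1, [], [1, 4]), (4, [], [0])]),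
  (12, 0, 2, [(0, [1], [3, 4]), (0, [0], [0, 3]), (1, [], [1, 4]), (4, [], [2])]),
  (12, 0, 2, [(0, [1], [3, 4]), (0, [0], [0, 3]), (1, [], [2, 4]), (4, [], [1])]),
  (12, 0, 2, [(0, [1], [3, 4]), (0, [0], [1, 3]), (1, [], [0, 4]), (4, [], [2])]),
  (12, 0, 2, [(0, [1], [3, 4]), (0, [0], [1, 3]), (1, [], [2, 4]), (4, [], [0])]),
  (12, 0, 2, [(0, [1], [3, 4]), (0, [0], [2, 3]), (1, [], [0, 4]), (4, [], [1])]),
  (12, 0, 2, [(0, [1], [3, 4]), (0, [0], [2, 3]), (1, [], [1, 4]), (4, [], [0])])]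

def z49_1 : Cov := []

def w49_1 : List (List Wit) := [[(0, 0, 0, 16, 16), (1, 0, 0, 16, 16), (2, 0, 0, 16, 16), (3, 0, 0, 16, 16), (4, 0, 0, 16, 16), (5, 0, 0, 16, 16)],
  [(6, 0, 0, 16, 16), (7, 0, 0, 16, 16), (8, 0, 0, 16, 16), (9, 0, 0, 16, 16), (10, 0, 0, 16, 16), (11, 0, 0, 16, 16)]]

def m49_2 : Base := (0, 2, [(0, [0], [3, 4]), (0, [1], [0, 3]), (1, [], [1, 2]), (4, [], [4])])

def l49_2 : Cov := [(24, 0, 2, [(0, [0], [3, 4]), (0, [1], [0, 3]), (1, [], [1, 2]), (4, [], [4])]),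
  (24, 0, 2, [(0, [0], [3, 4]), (0, [1], [1, 3]), (1, [], [0, 2]), (4, [], [4])]),
  (24, 0, 2, [(0, [0], [3, 4]), (0, [1], [2, 3]), (1, [], [0, 1]), (4, [], [4])]),
  (24, 0, 2, [(0, [1], [3, 4]), (0, [0], [0, 3]), (1, [], [1, 2]), (4, [], [4])]),
  (24, 0, 2, [(0, [1], [3, 4]), (0, [0], [1, 3]), (1, [], [0, 2]), (4, [], [4])]),
  (24, 0, 2, [(0, [1], [3, 4]), (0, [0], [2, 3]), (1, [], [0, 1]), (4, [], [4])])]

def z49_2 : Cov := []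

def w49_2 : List (List Wit) := [[(0, 0, 0, 16, 16), (0, 0, 0, 16, 16), (1, 0, 0, 16, 16), (1, 0, 0, 16, 16), (2, 0, 0, 16, 16), (2, 0, 0, 16, 16)],
  [(3, 0, 0, 16, 16), (3, 0, 0, 16, 16), (4, 0, 0, 16, 16), (4, 0, 0, 16, 16), (5, 0, 0, 16, 16), (5, 0, 0, 16, 16)]]

def m49_3 : Base := (0, 2, [(0, [0], [3, 4]), (0, [1], [0, 1]), (1, [], [3, 4]), (4, [], [2])])

def l49_3 : Cov := [(24, 0, 2, [(0, [0], [3, 4]), (0, [1], [0, 1]), (1, [], [3, 4]), (4, [], [2])]),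
  (24, 0, 2, [(0, [0], [3, 4]), (0, [1], [0, 2]), (1, [], [3, 4]), (4, [], [1])]),
  (24, 0, 2, [(0, [0], [3, 4]), (0, [1], [1, 2]), (1, [], [3, 4]), (4, [], [0])]),
  (24, 0, 2, [(0, [1], [3, 4]), (0, [0], [0, 1]), (1, [], [3, 4]), (4, [], [2])]),
  (24, 0, 2, [(0, [1], [3, 4]), (0, [0], [0, 2]), (1, [], [3, 4]), (4, [], [1])]),
  (24, 0, 2, [(0, [1], [3, 4]), (0, [0], [1, 2]), (1, [], [3, 4]), (4, [], [0])])]

def z49_3 : Cov := []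

def w49_3 : List (List Wit) := [[(0, 0, 0, 16, 16), (1, 0, 0, 16, 16), (0, 0, 0, 16, 16), (2, 0, 0, 16, 16), (1, 0, 0, 16, 16), (2, 0, 0, 16, 16)],
  [(3, 0, 0, 16, 16), (4, 0, 0, 16, 16), (3, 0, 0, 16, 16), (5, 0, 0, 16, 16), (4, 0, 0, 16, 16), (5, 0, 0, 16, 16)]]

def m49_4 : Base := (0, 2, [(0, [0], [3, 4]), (0, [1], [0, 1]), (1, [], [2, 3]), (4, [], [4])])

def l49_4 : Cov := [(24, 0, 2, [(0, [0], [3, 4]), (0, [1], [0, 1]), (1, [], [2, 3]), (4, [], [4])]),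
  (24, 0, 2, [(0, [0], [3, 4]), (0, [1], [0, 2]), (1, [], [1, 3]), (4, [], [4])]),
  (24, 0, 2, [(0, [0], [3, 4]), (0, [1], [1, 2]), (1, [], [0, 3]), (4, [], [4])]),
  (24, 0, 2, [(0, [1], [3, 4]), (0, [0], [0, 1]), (1, [], [2, 3]), (4, [], [4])]),
  (24, 0, 2, [(0, [1], [3, 4]), (0, [0], [0, 2]), (1, [], [1, 3]), (4, [], [4])]),
  (24, 0, 2, [(0, [1], [3, 4]), (0, [0], [1, 2]), (1, [], [0, 3]), (4, [], [4])])]

def z49_4 : Cov := []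

def w49_4 : List (List Wit) := [[(0, 0, 0, 16, 16), (1, 0, 0, 16, 16), (0, 0, 0, 16, 16), (2, 0, 0, 16, 16), (1, 0, 0, 16, 16), (2, 0, 0, 16, 16)],
  [(3, 0, 0, 16, 16), (4, 0, 0, 16, 16), (3, 0, 0, 16, 16), (5, 0, 0, 16, 16), (4, 0, 0, 16, 16), (5, 0, 0, 16, 16)]]

def m49_5 : Base := (0, 2, [(0, [0], [0, 3]), (0, [1], [1, 4]), (1, [], [3, 4]), (4, [], [2])])

def l49_5 : Cov := [(24, 0, 2, [(0, [0], [0, 3]), (0, [1], [1, 4]), (1, [], [3, 4]), (4, [], [2])]),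
  (24, 0, 2, [(0, [0], [0, 3]), (0, [1], [2, 4]), (1, [], [3, 4]), (4, [], [1])]),
  (24, 0, 2, [(0, [0], [1, 3]), (0, [1], [0, 4]), (1, [], [3, 4]), (4, [], [2])]),
  (24, 0, 2, [(0, [0], [1, 3]), (0, [1], [2, 4]), (1, [], [3, 4]), (4, [], [0])]),
  (24, 0, 2, [(0, [0], [2, 3]), (0, [1], [0, 4]), (1, [], [3, 4]), (4, [], [1])]),
  (24, 0, 2, [(0, [0], [2, 3]), (0, [1], [1, 4]), (1, [], [3, 4]), (4, [], [0])])]

def z49_5 : Cov := []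

def w49_5 : List (List Wit) := [[(0, 0, 0, 16, 16), (1, 0, 0, 16, 16), (2, 0, 0, 16, 16), (3, 0, 0, 16, 16), (4, 0, 0, 16, 16), (5, 0, 0, 16, 16)],
  [(2, 0, 0, 1, 1), (4, 0, 0, 1, 1), (0, 0, 0, 1, 1), (5, 0, 0, 1, 1), (1, 0, 0, 1, 1), (3, 0, 0, 1, 1)]]

def m49_6 : Base := (0, 2, [(0, [0], [0, 3]), (0, [1], [1, 4]), (1, [], [2, 4]), (4, [], [3])])

def l49_6 : Cov := [(12, 0, 2, [(0, [0], [0, 3]), (0, [1], [1, 4]), (1, [], [2, 4]), (4, [], [3])]),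
  (12, 0, 2, [(0, [0], [0, 3]), (0, [1], [2, 4]), (1, [], [1, 4]), (4, [], [3])]),
  (12, 0, 2, [(0, [0], [1, 3]), (0, [1], [0, 4]), (1, [], [2, 4]), (4, [], [3])]),
  (12, 0, 2, [(0, [0], [1, 3]), (0, [1], [2, 4]), (1, [], [0, 4]), (4, [], [3])]),
  (12, 0, 2, [(0, [0], [2, 3]), (0, [1], [0, 4]), (1, [], [1, 4]), (4, [], [3])]),
  (12, 0, 2, [(0, [0], [2, 3]), (0, [1], [1, 4]), (1, [], [0, 4]), (4, [], [3])]),
  (12, 0, 2, [(0, [1], [0, 3]), (0, [0], [1, 4]), (1, [], [2, 4]), (4, [], [3])]),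
  (12, 0, 2, [(0, [1], [0, 3]), (0, [0], [2, 4]), (1, [], [1, 4]), (4, [], [3])]),
  (12, 0, 2, [(0, [1], [1, 3]), (0, [0], [0, 4]), (1, [], [2, 4]), (4, [], [3])]),
  (12, 0, 2, [(0, [1], [1, 3]), (0, [0], [2, 4]), (1, [], [0, 4]), (4, [], [3])]),
  (12, 0, 2, [(0, [1], [2, 3]), (0, [0], [0, 4]), (1, [], [1, 4]), (4, [], [3])]),
  (12, 0, 2, [(0, [1], [2, 3]), (0, [0], [1, 4]), (1, [], [0, 4]), (4, [], [3])])]

def z49_6 : Cov := []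

def w49_6 : List (List Wit) := [[(0, 0, 0, 16, 16), (1, 0, 0, 16, 16), (2, 0, 0, 16, 16), (3, 0, 0, 16, 16), (4, 0, 0, 16, 16), (5, 0, 0, 16, 16)],
  [(6, 0, 0, 16, 16), (7, 0, 0, 16, 16), (8, 0, 0, 16, 16), (9, 0, 0, 16, 16), (10, 0, 0, 16, 16), (11, 0, 0, 16, 16)]]

def m49_7 : Base := (0, 2, [(0, [0], [0, 3]), (0, [1], [1, 3]), (1, [], [2, 4]), (4, [], [4])])

def l49_7 : Cov := [(24, 0, 2, [(0, [0], [0, 3]), (0, [1], [1, 3]), (1, [], [2, 4]), (4, [], [4])]),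
  (24, 0, 2, [(0, [0], [0, 3]), (0, [1], [2, 3]), (1, [], [1, 4]), (4, [], [4])]),
  (24, 0, 2, [(0, [0], [1, 3]), (0, [1], [0, 3]), (1, [], [2, 4]), (4, [], [4])]),
  (24, 0, 2, [(0, [0], [1, 3]), (0, [1], [2, 3]), (1, [], [0, 4]), (4, [], [4])]),
  (24, 0, 2, [(0, [0], [2, 3]), (0, [1], [0, 3]), (1, [], [1, 4]), (4, [], [4])]),
  (24, 0, 2, [(0, [0], [2, 3]), (0, [1], [1, 3]), (1, [], [0, 4]), (4, [], [4])])]

def z49_7 : Cov := []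

def w49_7 : List (List Wit) := [[(0, 0, 0, 16, 16), (1, 0, 0, 16, 16), (2, 0, 0, 16, 16), (3, 0, 0, 16, 16), (4, 0, 0, 16, 16), (5, 0, 0, 16, 16)],
  [(2, 0, 0, 16, 16), (4, 0, 0, 16, 16), (0, 0, 0, 16, 16), (5, 0, 0, 16, 16), (1, 0, 0, 16, 16), (3, 0, 0, 16, 16)]]

def m49_8 : Base := (0, 1, [(0, [0], [0, 3]), (0, [1], [1, 3]), (4, [], [2])])

def l49_8 : Cov := [(24, 0, 1, [(0, [0], [0, 3]), (0, [1], [1, 3]), (4, [], [2])]),
  (24, 0, 1, [(0, [0], [0, 3]), (0, [1], [2, 3]), (4, [], [1])]),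
  (24, 0, 1, [(0, [0], [1, 3]), (0, [1], [0, 3]), (4, [], [2])]),
  (24, 0, 1, [(0, [0], [1, 3]), (0, [1], [2, 3]), (4, [], [0])]),
  (24, 0, 1, [(0, [0], [2, 3]), (0, [1], [0, 3]), (4, [], [1])]),
  (24, 0, 1, [(0, [0], [2, 3]), (0, [1], [1, 3]), (4, [], [0])])]

def z49_8 : Cov := []

def w49_8 : List (List Wit) := [[(0, 0, 0, 0, 0), (1, 0, 0, 0, 0), (2, 0, 0, 0, 0), (3, 0, 0, 0, 0), (4, 0, 0, 0, 0), (5, 0, 0, 0, 0)],
  [(2, 0, 0, 0, 0), (4, 0, 0, 0, 0), (0, 0, 0, 0, 0), (5, 0, 0, 0, 0), (1, 0, 0, 0, 0), (3, 0, 0, 0, 0)]]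

def m49_9 : Base := (0, 2, [(0, [0], [0, 3]), (0, [1], [1, 2]), (1, [], [3, 4]), (4, [], [4])])

def l49_9 : Cov := [(24, 0, 2, [(0, [0], [0, 3]), (0, [1], [1, 2]), (1, [], [3, 4]), (4, [], [4])]),
  (24, 0, 2, [(0, [0], [1, 3]), (0, [1], [0, 2]), (1, [], [3, 4]), (4, [], [4])]),
  (24, 0, 2, [(0, [0], [2, 3]), (0, [1], [0, 1]), (1, [], [3, 4]), (4, [], [4])]),
  (24, 0, 2, [(0, [1], [0, 3]), (0, [0], [1, 2]), (1, [], [3, 4]), (4, [], [4])]),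
  (24, 0, 2, [(0, [1], [1, 3]), (0, [0], [0, 2]), (1, [], [3, 4]), (4, [], [4])]),
  (24, 0, 2, [(0, [1], [2, 3]), (0, [0], [0, 1]), (1, [], [3, 4]), (4, [], [4])])]

def z49_9 : Cov := []

def w49_9 : List (List Wit) := [[(0, 0, 0, 16, 16), (0, 0, 0, 16, 16), (1, 0, 0, 16, 16), (1, 0, 0, 16, 16), (2, 0, 0, 16, 16), (2, 0, 0, 16, 16)],
  [(3, 0, 0, 16, 16), (3, 0, 0, 16, 16), (4, 0, 0, 16, 16), (4, 0, 0, 16, 16), (5, 0, 0, 16, 16), (5, 0, 0, 16, 16)]]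

def m49_10 : Base := (0, 1, [(0, [0], [0, 3]), (0, [1], [1, 2]), (4, [], [3])])

def l49_10 : Cov := [(24, 0, 1, [(0, [0], [0, 3]), (0, [1], [1, 2]), (4, [], [3])]),
  (24, 0, 1, [(0, [0], [1, 3]), (0, [1], [0, 2]), (4, [], [3])]),
  (24, 0, 1, [(0, [0], [2, 3]), (0, [1], [0, 1]), (4, [], [3])]),
  (24, 0, 1, [(0, [1], [0, 3]), (0, [0], [1, 2]), (4, [], [3])]),
  (24, 0, 1, [(0, [1], [1, 3]), (0, [0], [0, 2]), (4, [], [3])]),
  (24, 0, 1, [(0, [1], [2, 3]), (0, [0], [0, 1]), (4, [], [3])])]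

def z49_10 : Cov := []

def w49_10 : List (List Wit) := [[(0, 0, 0, 0, 0), (0, 0, 0, 0, 0), (1, 0, 0, 0, 0), (1, 0, 0, 0, 0), (2, 0, 0, 0, 0), (2, 0, 0, 0, 0)],
  [(3, 0, 0, 0, 0), (3, 0, 0, 0, 0), (4, 0, 0, 0, 0), (4, 0, 0, 0, 0), (5, 0, 0, 0, 0), (5, 0, 0, 0, 0)]]

def m49_11 : Base := (0, 1, [(0, [0], [0, 3]), (2, [1], [1, 2, 3])])

def l49_11 : Cov := [(24, 0, 1, [(0, [0], [0, 3]), (2, [1], [1, 2, 3])]),
  (24, 0, 1, [(0, [0], [1, 3]), (2, [1], [0, 2, 3])]),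
  (24, 0, 1, [(0, [0], [2, 3]), (2, [1], [0, 1, 3])]),
  (24, 0, 1, [(0, [1], [0, 3]), (2, [0], [1, 2, 3])]),
  (24, 0, 1, [(0, [1], [1, 3]), (2, [0], [0, 2, 3])]),
  (24, 0, 1, [(0, [1], [2, 3]), (2, [0], [0, 1, 3])])]

def z49_11 : Cov := []

def w49_11 : List (List Wit) := [[(0, 0, 0, 0, 0), (0, 0, 0, 0, 0), (1, 0, 0, 0, 0), (1, 0, 0, 0, 0), (2, 0, 0, 0, 0), (2, 0, 0, 0, 0)],
  [(3, 0, 0, 0, 0), (3, 0, 0, 0, 0), (4, 0, 0, 0, 0), (4, 0, 0, 0, 0), (5, 0, 0, 0, 0), (5, 0, 0, 0, 0)]]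

theorem tr49 : trK keys lk49 kl49 = true := by
  decide +kernel

theorem x49_0 : expB 2 3 dg11 dg1 m49_0 (l49_0 ++ z49_0) w49_0 = true := by
  decide +kernel

theorem x49_1 : expB 2 3 dg11 dg1 m49_1 (l49_1 ++ z49_1) w49_1 = true := by
  decide +kernel

theorem x49_2 : expB 2 3 dg11 dg1 m49_2 (l49_2 ++ z49_2) w49_2 = true := by
  decide +kernel

theorem x49_3 : expB 2 3 dg11 dg1 m49_3 (l49_3 ++ z49_3) w49_3 = true := by
  decide +kernel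

theorem x49_4 : expB 2 3 dg11 dg1 m49_4 (l49_4 ++ z49_4) w49_4 = true := by
  decide +kernel

theorem x49_5 : expB 2 3 dg11 dg1 m49_5 (l49_5 ++ z49_5) w49_5 = true := by
  decide +kernel

theorem x49_6 : expB 2 3 dg11 dg1 m49_6 (l49_6 ++ z49_6) w49_6 = true := by
  decide +kernel

theorem x49_7 : expB 2 3 dg11 dg1 m49_7 (l49_7 ++ z49_7) w49_7 = true := by
  decide +kernel

theorem x49_8 : expB 2 3 dg11 dg1 m49_8 (l49_8 ++ z49_8) w49_8 = true := by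
  decide +kernel

theorem x49_9 : expB 2 3 dg11 dg1 m49_9 (l49_9 ++ z49_9) w49_9 = true := by
  decide +kernel

theorem x49_10 : expB 2 3 dg11 dg1 m49_10 (l49_10 ++ z49_10) w49_10 = true := by
  decide +kernel

theorem x49_11 : expB 2 3 dg11 dg1 m49_11 (l49_11 ++ z49_11) w49_11 = true := by
  decide +kernel

theorem t49_0_0 : chkS lk49 2 3 [(1, m49_0)] l49_0
  [(103, 16, 16, 52495461, 16934211), (104, 16, 16, 52495461, 16934211), (104, 16, 16, 52495446, 1205571)]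
  [(103, 48), (104, 96)] = true := by
  decide +kernel

theorem t49_0_1 : chkS lk49 2 3 [(1, m49_0)] l49_1
  [(99, 16, 16, 52495461, 16934211), (100, 16, 16, 52495461, 16934211), (99, 16, 16, 52495446, 1205571), (100, 16, 16, 52495446, 1205571), (56, 1, 1, 69272421, 17179971), (56, 1, 1, 69272406, 1451331), (99, 16, 16, 86049891, 23201091), (100, 16, 16, 86050371, 39912771), (99, 16, 16, 86049846, 6427971), (100, 16, 16, 86050356, 39851331), (56, 16, 16, 69272421, 17179971), (56, 16, 16, 69272406, 1451331)]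
  [(56, 48), (99, 48), (100, 48)] = true := by
  decide +kernel

theorem t49_0_2 : chkS lk49 2 3 [(1, m49_0)] l49_2
  [(56, 16, 16, 52495956, 34628931), (56, 16, 16, 52495941, 33645891), (5, 16, 16, 17052261, 17052261), (56, 1, 1, 52495956, 34628931), (56, 1, 1, 52495941, 33645891), (5, 1, 1, 17052261, 17052261)]
  [(5, 48), (56, 96)] = true := by
  decide +kernel

theorem t49_0_3 : chkS lk49 2 3 [(1, m49_0)] l49_3
  [(97, 16, 16, 52495461, 16934211), (53, 1, 1, 88146786, 23404611), (53, 1, 1, 88146726, 6627651), (97, 16, 16, 105972786, 106041411), (53, 16, 16, 88146786, 23404611), (53, 16, 16, 88146726, 6627651)]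
  [(53, 96), (97, 48)] = true := by
  decide +kernel

theorem t49_0_4 : chkS lk49 2 3 [(1, m49_0)] l49_4
  [(53, 16, 16, 52495956, 34628931), (51, 16, 16, 52495716, 18900291), (51, 16, 16, 52495686, 2188611), (53, 1, 1, 52495956, 34628931), (51, 16, 16, 88146786, 23404611), (51, 16, 16, 88146726, 6627651)]
  [(51, 96), (53, 48)] = true := by
  decide +kernel

theorem t49_0_5 : chkS lk49 2 3 [(1, m49_0)] l49_5
  [(98, 16, 16, 103875666, 101863491), (52, 1, 1, 38863716, 22029891), (98, 16, 16, 103875621, 100815171), (52, 1, 1, 38863686, 5318211), (52, 16, 16, 86049636, 23078211), (52, 16, 16, 86049606, 6366531)]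
  [(52, 96), (98, 48)] = true := by
  decide +kernel

theorem t49_0_6 : chkS lk49 2 3 [(1, m49_0)] l49_6
  [(52, 16, 16, 70321746, 35016771), (51, 16, 16, 70321506, 19288131), (52, 16, 16, 70321701, 33968451), (51, 16, 16, 70321446, 2511171), (50, 16, 16, 87097956, 23089731), (50, 16, 16, 87097926, 6378051), (52, 1, 1, 70321746, 35016771), (51, 16, 16, 38863716, 22029891), (52, 1, 1, 70321701, 33968451), (51, 16, 16, 38863686, 5318211), (50, 1, 1, 87097956, 23089731), (50, 1, 1, 87097926, 6378051)]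
  [(50, 48), (51, 48), (52, 48)] = true := by
  decide +kernel

theorem t49_0_7 : chkS lk49 2 3 [(1, m49_0)] l49_7
  [(101, 16, 16, 102827091, 101844291), (56, 1, 1, 102826836, 101721411), (101, 16, 16, 102827061, 100799811), (56, 1, 1, 102826821, 100738371), (56, 16, 16, 102826836, 101721411), (56, 16, 16, 102826821, 100738371)]
  [(56, 96), (101, 48)] = true := by
  decide +kernel

theorem t49_0_8 : chkS lk49 2 3 [(1, m49_0)] l49_8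
  [(102, 16, 16, 2163795, 1180995), (57, 1, 1, 2163540, 1058115), (102, 16, 16, 2163765, 136515), (57, 1, 1, 2163525, 75075), (57, 16, 16, 2163540, 1058115), (57, 16, 16, 2163525, 75075)]
  [(57, 96), (102, 48)] = true := by
  decide +kernel

theorem t49_0_9 : chkS lk49 2 3 [(1, m49_0)] l49_9
  [(52, 1, 1, 104923941, 100999491), (52, 1, 1, 104923986, 102047811), (53, 16, 16, 102826836, 101721411), (52, 16, 16, 104923941, 100999491), (52, 16, 16, 104923986, 102047811), (53, 1, 1, 102826836, 101721411)]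
  [(52, 96), (53, 48)] = true := by
  decide +kernel

theorem t49_0_10 : chkS lk49 2 3 [(1, m49_0)] l49_10
  [(55, 16, 16, 3212610, 2183235), (55, 16, 16, 3212580, 2117955), (54, 16, 16, 3211860, 1069635), (55, 16, 16, 5309220, 5251395), (55, 16, 16, 5309250, 5316675), (54, 1, 1, 3211860, 1069635)]
  [(54, 48), (55, 96)] = true := by
  decide +kernel

theorem t49_0_11 : chkS lk49 2 3 [(1, m49_0)] l49_11
  [(105, 16, 16, 3212370, 1200195), (105, 16, 16, 3212325, 151875), (58, 16, 16, 2163525, 75075), (105, 1, 1, 3212370, 1200195), (105, 1, 1, 3212325, 151875), (58, 1, 1, 2163525, 75075)]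
  [(58, 48), (105, 96)] = true := by
  decide +kernel

theorem t49_1_1 : chkS lk49 2 3 [(1, m49_1)] l49_1
  [(72, 1, 1, 86185056, 23217456), (73, 1, 1, 86185536, 39929136), (156, 16, 16, 52434276, 18900276), (112, 1, 1, 86246961, 40113411), (112, 1, 1, 67445091, 21365541), (111, 1, 1, 86246241, 23340291), (122, 1, 1, 37028961, 21124611), (123, 1, 1, 37028961, 21124611), (157, 16, 16, 102765876, 102765876), (114, 1, 1, 52692561, 34891011), (114, 16, 16, 67314021, 17187621), (113, 1, 1, 52692321, 19162371)]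
  [(72, 12), (73, 12), (111, 12), (112, 24), (113, 12), (114, 24), (122, 12), (123, 12), (156, 12), (157, 12)] = true := by
  decide +kernel

theorem t49_1_2 : chkS lk49 2 3 [(1, m49_1)] l49_2
  [(63, 1, 1, 51652176, 34890576), (112, 16, 16, 16983621, 33637221), (110, 16, 16, 16983141, 16925541), (49, 1, 1, 17049171, 34866021), (114, 1, 1, 17114691, 37815141), (110, 1, 1, 17114211, 21103461)]
  [(49, 24), (63, 24), (110, 48), (112, 24), (114, 24)] = true := by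
  decide +kernel

theorem t49_1_3 : chkS lk49 2 3 [(1, m49_1)] l49_3
  [(67, 1, 1, 106107936, 106053936), (12, 16, 16, 52495716, 18900291), (106, 1, 1, 106169121, 106176771), (118, 16, 16, 105911331, 106037556), (16, 1, 1, 88212321, 23405571), (11, 16, 16, 105972786, 106041411)]
  [(11, 24), (12, 24), (16, 24), (67, 24), (106, 24), (118, 24)] = true := by
  decide +kernel

theorem t49_1_4 : chkS lk49 2 3 [(1, m49_1)] l49_4
  [(71, 1, 1, 106107936, 106053936), (40, 1, 1, 88285536, 23413536), (137, 16, 16, 16922196, 34616421), (121, 16, 16, 105911331, 106037556), (47, 16, 16, 88224096, 23409696), (138, 1, 1, 17053266, 34877541)]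
  [(40, 24), (47, 24), (71, 24), (121, 24), (137, 24), (138, 24)] = true := by
  decide +kernel

theorem t49_1_5 : chkS lk49 2 3 [(1, m49_1)] l49_5
  [(119, 16, 16, 102765651, 101844276), (120, 16, 16, 84031041, 39924741), (68, 1, 1, 38999136, 22169136), (108, 1, 1, 39060321, 22291971), (69, 1, 1, 38999616, 38880816), (109, 1, 1, 39061041, 39065091)]
  [(68, 24), (69, 24), (108, 24), (109, 24), (119, 24), (120, 24)] = true := by
  decide +kernel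

theorem t49_1_6 : chkS lk49 2 3 [(1, m49_1)] l49_6
  [(48, 16, 16, 68302416, 35009616), (47, 16, 16, 68302176, 19280976), (70, 1, 1, 40047696, 85083696), (138, 16, 16, 85079556, 39859281), (75, 1, 1, 38999136, 22169136), (135, 16, 16, 101855316, 101725266), (41, 1, 1, 68363856, 35013456), (40, 1, 1, 68363616, 19284816), (120, 16, 16, 39851091, 85067316), (137, 1, 1, 85210626, 40120401), (124, 16, 16, 38802531, 22152756), (135, 1, 1, 85209186, 23343186)]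
  [(40, 12), (41, 12), (47, 12), (48, 12), (70, 12), (75, 12), (120, 12), (124, 12), (135, 24), (137, 12), (138, 12)] = true := by
  decide +kernel

theorem t49_1_7 : chkS lk49 2 3 [(1, m49_1)] l49_7
  [(125, 1, 1, 104137761, 105009411), (49, 1, 1, 100933971, 101974821), (76, 1, 1, 102962256, 101860656), (114, 1, 1, 100999491, 104923941), (63, 1, 1, 101983056, 101983056), (112, 16, 16, 100868421, 100746021)]
  [(49, 24), (63, 24), (76, 24), (112, 24), (114, 24), (125, 24)] = true := by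
  decide +kernel

theorem t49_1_8 : chkS lk49 2 3 [(1, m49_1)] l49_8
  [(126, 1, 1, 3474465, 4346115), (29, 16, 16, 1254480, 1196880), (78, 1, 1, 2298960, 1197360), (28, 16, 16, 2163765, 136515), (31, 16, 16, 2163540, 1058115), (27, 16, 16, 2163765, 136515)]
  [(27, 24), (28, 24), (29, 24), (31, 24), (78, 24), (126, 24)] = true := by
  decide +kernel

theorem t49_1_9 : chkS lk49 2 3 [(1, m49_1)] l49_9
  [(120, 16, 16, 69211731, 34997556), (41, 1, 1, 105062736, 102056736), (71, 1, 1, 72554016, 39207216), (70, 1, 1, 69408336, 35013936), (48, 16, 16, 105001296, 102052896), (121, 16, 16, 72357411, 39190836)]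
  [(41, 24), (48, 24), (70, 24), (71, 24), (120, 24), (121, 24)] = true := by
  decide +kernel

theorem t49_1_10 : chkS lk49 2 3 [(1, m49_1)] l49_10
  [(25, 1, 1, 3278145, 2184195), (30, 16, 16, 3212580, 2117955), (80, 1, 1, 5444640, 5390640), (30, 16, 16, 5309220, 5251395), (25, 1, 1, 5374785, 5317635), (127, 16, 16, 5248035, 5374260)]
  [(25, 48), (30, 48), (80, 24), (127, 24)] = true := by
  decide +kernel

theorem t49_1_11 : chkS lk49 2 3 [(1, m49_1)] l49_11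
  [(131, 16, 16, 2102355, 1180980), (158, 16, 16, 3151140, 2117940), (140, 16, 16, 143700, 1061925), (84, 1, 1, 2298960, 1197360), (160, 1, 1, 3413280, 2380080), (141, 1, 1, 274770, 1323045)]
  [(84, 24), (131, 24), (140, 24), (141, 24), (158, 24), (160, 24)] = true := by
  decide +kernel

theorem t49_2_2 : chkS lk49 2 3 [(1, m49_2)] l49_2
  [(62, 1, 1, 69408336, 35013936), (111, 16, 16, 52495956, 34628931), (111, 16, 16, 52495716, 18900291), (17, 1, 1, 52696656, 34891056), (113, 16, 16, 86050356, 39851331), (113, 16, 16, 86049636, 23078211)]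
  [(17, 24), (62, 24), (111, 48), (113, 48)] = true := by
  decide +kernel

theorem t49_2_3 : chkS lk49 2 3 [(1, m49_2)] l49_3
  [(61, 1, 1, 88282656, 40190256), (61, 1, 1, 88281696, 23413296), (2, 16, 16, 105972786, 106041411), (16, 1, 1, 88282656, 40190256), (16, 1, 1, 88281696, 23413296), (2, 16, 16, 70321746, 35016771)]
  [(2, 48), (16, 48), (61, 48)] = true := by
  decide +kernel

theorem t49_2_4 : chkS lk49 2 3 [(1, m49_2)] l49_4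
  [(59, 1, 1, 88282656, 40190256), (59, 1, 1, 88281696, 23413296), (106, 16, 16, 52495956, 34628931), (47, 16, 16, 88147491, 40173891), (47, 16, 16, 88146531, 23396931), (11, 1, 1, 70387281, 35017731)]
  [(11, 24), (47, 48), (59, 48), (106, 24)] = true := by
  decide +kernel

theorem t49_2_5 : chkS lk49 2 3 [(1, m49_2)] l49_5
  [(48, 16, 16, 86050371, 39912771), (48, 16, 16, 86049891, 23201091), (60, 1, 1, 38999616, 38880816), (107, 16, 16, 103875876, 102781251), (60, 1, 1, 38999136, 22169136), (107, 16, 16, 103875156, 101732931)]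
  [(48, 48), (60, 48), (107, 48)] = true := by
  decide +kernel

theorem t49_2_6 : chkS lk49 2 3 [(1, m49_2)] l49_6
  [(46, 16, 16, 86050371, 39912771), (46, 16, 16, 86049891, 23201091), (59, 1, 1, 38999616, 38880816), (108, 16, 16, 103875876, 102781251), (59, 1, 1, 38999136, 22169136), (108, 16, 16, 103875156, 101732931), (39, 1, 1, 85141056, 39928656), (39, 1, 1, 85140576, 23216976), (47, 16, 16, 38864451, 38864451), (109, 16, 16, 56689236, 84959811), (47, 16, 16, 38863971, 22152771), (109, 16, 16, 56689956, 86008131)]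
  [(39, 24), (46, 24), (47, 24), (59, 24), (108, 24), (109, 24)] = true := by
  decide +kernel

theorem t49_2_7 : chkS lk49 2 3 [(1, m49_2)] l49_7
  [(49, 16, 16, 102827331, 102827331), (49, 16, 16, 102827091, 101844291), (63, 1, 1, 102962496, 102843696), (115, 16, 16, 102827316, 102765891), (63, 1, 1, 102962256, 101860656), (115, 16, 16, 102826836, 101721411)]
  [(49, 48), (63, 48), (115, 48)] = true := by
  decide +kernel

theorem t49_2_8 : chkS lk49 2 3 [(1, m49_2)] l49_8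
  [(29, 1, 1, 2364720, 2364720), (29, 1, 1, 2364240, 1320240), (31, 16, 16, 206100, 2114325), (116, 16, 16, 2164020, 2102595), (31, 16, 16, 205140, 1065765), (116, 16, 16, 2163540, 1058115)]
  [(29, 48), (31, 48), (116, 48)] = true := by
  decide +kernel

theorem t49_2_9 : chkS lk49 2 3 [(1, m49_2)] l49_9
  [(16, 1, 1, 102962496, 102843696), (60, 1, 1, 105058896, 102056496), (60, 1, 1, 105059616, 103104816), (61, 1, 1, 102962496, 102843696), (48, 16, 16, 104923731, 102040131), (48, 16, 16, 104924451, 103088451)]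
  [(16, 24), (48, 48), (60, 48), (61, 24)] = true := by
  decide +kernel

theorem t49_2_10 : chkS lk49 2 3 [(1, m49_2)] l49_10
  [(24, 1, 1, 2299200, 2180400), (26, 16, 16, 3212580, 2117955), (26, 16, 16, 3211860, 1069635), (20, 16, 16, 5309220, 5251395), (25, 1, 1, 5444160, 5325360), (25, 1, 1, 5444640, 5390640)]
  [(20, 24), (24, 24), (25, 48), (26, 48)] = true := by
  decide +kernel

theorem t49_2_11 : chkS lk49 2 3 [(1, m49_2)] l49_11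
  [(15, 16, 16, 1254720, 2179920), (117, 16, 16, 3212580, 2117955), (117, 16, 16, 3211860, 1069635), (64, 1, 1, 2298960, 1197360), (150, 1, 1, 3413280, 2380080), (150, 1, 1, 3412560, 1331760)]
  [(15, 24), (64, 24), (117, 48), (150, 48)] = true := by
  decide +kernel

theorem t49_3_3 : chkS lk49 2 3 [(1, m49_3)] l49_3
  [(65, 1, 1, 106112016, 106054416), (87, 1, 1, 106181136, 106181136), (87, 1, 1, 106181121, 106181121), (97, 1, 1, 52843536, 70411536), (2, 1, 1, 106181136, 106181136), (2, 1, 1, 106181121, 106181121)]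
  [(2, 48), (65, 24), (87, 48), (97, 24)] = true := by
  decide +kernel

theorem t49_3_4 : chkS lk49 2 3 [(1, m49_3)] l49_4
  [(4, 1, 1, 52774416, 37971216), (9, 16, 16, 16983636, 34620261), (9, 16, 16, 16983621, 33637221), (53, 1, 1, 52774416, 37971216), (11, 1, 1, 70668816, 70668816), (11, 1, 1, 70668801, 70668801)]
  [(4, 24), (9, 48), (11, 48), (53, 24)] = true := by
  decide +kernel

theorem t49_3_5 : chkS lk49 2 3 [(1, m49_3)] l49_5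
  [(67, 1, 1, 37114881, 70407681), (106, 1, 1, 38163216, 70592016), (67, 1, 1, 37114896, 70407696), (106, 1, 1, 38163201, 70592001), (9, 16, 16, 84091236, 23085861), (9, 16, 16, 84091206, 6374181)]
  [(9, 48), (67, 48), (106, 48)] = true := by
  decide +kernel

theorem t49_3_6 : chkS lk49 2 3 [(1, m49_3)] l49_6
  [(61, 1, 1, 37045761, 37967361), (11, 1, 1, 52843536, 70411536), (61, 1, 1, 37045776, 37967376), (11, 1, 1, 52843521, 70411521), (143, 1, 1, 38163201, 70592001), (143, 1, 1, 38163216, 70592016), (12, 16, 16, 22226436, 38814561), (9, 16, 16, 6496596, 84951846), (12, 16, 16, 22226496, 38880096), (9, 16, 16, 6496581, 83968806), (134, 1, 1, 68571171, 70648146), (134, 1, 1, 68571186, 70651986)]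
  [(9, 24), (11, 24), (12, 24), (61, 24), (134, 24), (143, 24)] = true := by
  decide +kernel

theorem t49_3_7 : chkS lk49 2 3 [(1, m49_3)] l49_7
  [(35, 1, 1, 103105281, 105063681), (16, 16, 16, 102056736, 105062736), (35, 1, 1, 103105296, 105063696), (16, 16, 16, 102056706, 105062481), (61, 1, 1, 102056736, 105062736), (61, 1, 1, 102056706, 105062481)]
  [(16, 48), (35, 48), (61, 48)] = true := by
  decide +kernel

theorem t49_3_8 : chkS lk49 2 3 [(1, m49_3)] l49_8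
  [(36, 1, 1, 2441985, 4400385), (24, 16, 16, 1393440, 4399440), (36, 1, 1, 2442000, 4400400), (24, 16, 16, 1393410, 4399185), (20, 16, 16, 205140, 1065765), (20, 16, 16, 205125, 82725)]
  [(20, 48), (24, 48), (36, 48)] = true := by
  decide +kernel

theorem t49_3_9 : chkS lk49 2 3 [(1, m49_3)] l49_9
  [(12, 16, 16, 101918016, 102843216), (12, 16, 16, 101917956, 102777681), (4, 1, 1, 103105296, 105063696), (61, 1, 1, 103105296, 105063696), (61, 1, 1, 103105281, 105063681), (53, 1, 1, 103105296, 105063696)]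
  [(4, 24), (12, 48), (53, 24), (61, 48)] = true := by
  decide +kernel

theorem t49_3_10 : chkS lk49 2 3 [(1, m49_3)] l49_10
  [(20, 16, 16, 1254720, 2179920), (20, 16, 16, 1254660, 2114385), (21, 1, 1, 3490320, 4411920), (20, 16, 16, 5447940, 5260065), (20, 16, 16, 5448000, 5325600), (54, 1, 1, 3490320, 4411920)]
  [(20, 96), (21, 24), (54, 24)] = true := by
  decide +kernel

theorem t49_3_11 : chkS lk49 2 3 [(1, m49_3)] l49_11
  [(159, 16, 16, 206145, 2179845), (159, 16, 16, 206100, 2114325), (3, 16, 16, 205140, 1065765), (154, 1, 1, 2372865, 2372865), (154, 1, 1, 2372880, 2372880), (8, 1, 1, 344370, 4395045)]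
  [(3, 24), (8, 24), (154, 48), (159, 48)] = true := by
  decide +kernel

theorem t49_4_4 : chkS lk49 2 3 [(1, m49_4)] l49_4
  [(44, 1, 1, 88286736, 40190736), (145, 1, 1, 106181121, 106181121), (145, 1, 1, 106181136, 106181136), (51, 1, 1, 52774416, 37971216), (138, 16, 16, 105972291, 105972291), (138, 16, 16, 105972276, 105910851)]
  [(44, 24), (51, 24), (138, 48), (145, 48)] = true := by
  decide +kernel

theorem t49_4_5 : chkS lk49 2 3 [(1, m49_4)] l49_5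
  [(71, 1, 1, 37114881, 70407681), (109, 1, 1, 54940176, 70607376), (71, 1, 1, 37114896, 70407696), (109, 1, 1, 54940161, 70607361), (88, 1, 1, 39073296, 39073296), (88, 1, 1, 39073281, 39073281)]
  [(71, 48), (88, 48), (109, 48)] = true := by
  decide +kernel

theorem t49_4_6 : chkS lk49 2 3 [(1, m49_4)] l49_6
  [(59, 1, 1, 37045761, 37967361), (108, 16, 16, 101918016, 102843216), (59, 1, 1, 37045776, 37967376), (108, 16, 16, 101917956, 102777681), (146, 1, 1, 40121601, 86259201), (146, 1, 1, 40121616, 86259216), (40, 1, 1, 51725856, 37970256), (88, 1, 1, 85210656, 40120656), (40, 1, 1, 51725826, 37970001), (88, 1, 1, 85210626, 40120401), (136, 16, 16, 39912771, 86050371), (136, 16, 16, 39912756, 85988931)]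
  [(40, 24), (59, 24), (88, 24), (108, 24), (136, 24), (146, 24)] = true := by
  decide +kernel

theorem t49_4_7 : chkS lk49 2 3 [(1, m49_4)] l49_7
  [(33, 1, 1, 52774401, 37971201), (120, 1, 1, 68571171, 70648146), (33, 1, 1, 52774416, 37971216), (120, 1, 1, 68571186, 70651986), (70, 1, 1, 68571936, 70656336), (70, 1, 1, 68571906, 70656081)]
  [(33, 48), (70, 48), (120, 48)] = true := by
  decide +kernel

theorem t49_4_8 : chkS lk49 2 3 [(1, m49_4)] l49_8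
  [(37, 1, 1, 2441985, 4400385), (25, 16, 16, 344625, 4395525), (37, 1, 1, 2442000, 4400400), (25, 16, 16, 344595, 4391445), (30, 16, 16, 205140, 1065765), (30, 16, 16, 205125, 82725)]
  [(25, 48), (30, 48), (37, 48)] = true := by
  decide +kernel

theorem t49_4_9 : chkS lk49 2 3 [(1, m49_4)] l49_9
  [(69, 1, 1, 70668801, 70668801), (69, 1, 1, 70668816, 70668816), (45, 1, 1, 105063696, 103105296), (70, 1, 1, 69620496, 70657296), (70, 1, 1, 69620481, 70657281), (52, 16, 16, 105063696, 103105296)]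
  [(45, 24), (52, 24), (69, 48), (70, 48)] = true := by
  decide +kernel

theorem t49_4_10 : chkS lk49 2 3 [(1, m49_4)] l49_10
  [(26, 16, 16, 1254720, 2179920), (26, 16, 16, 1254660, 2114385), (22, 1, 1, 5448720, 5391120), (30, 16, 16, 5447940, 5260065), (30, 16, 16, 5448000, 5325600), (55, 1, 1, 3490320, 4411920)]
  [(22, 24), (26, 48), (30, 48), (55, 24)] = true := by
  decide +kernel

theorem t49_4_11 : chkS lk49 2 3 [(1, m49_4)] l49_11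
  [(139, 16, 16, 2164035, 2164035), (139, 16, 16, 2164020, 2102595), (162, 16, 16, 3211860, 1069635), (148, 1, 1, 2372865, 2372865), (148, 1, 1, 2372880, 2372880), (10, 1, 1, 1392690, 4395090)]
  [(10, 24), (139, 48), (148, 48), (162, 24)] = true := by
  decide +kernel

theorem t49_5_5 : chkS lk49 2 3 [(1, m49_5)] l49_5
  [(151, 16, 16, 69600561, 69604611), (145, 16, 16, 52757601, 21128451), (156, 16, 16, 70649121, 69619971), (137, 16, 16, 86246961, 40113411), (137, 1, 1, 38815251, 38995476), (145, 1, 1, 36721686, 3298836)]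
  [(137, 48), (145, 48), (151, 24), (156, 24)] = true := by
  decide +kernel

theorem t49_5_6 : chkS lk49 2 3 [(1, m49_5)] l49_6
  [(92, 16, 16, 85206576, 40112976), (88, 16, 16, 51717216, 21128016), (112, 16, 16, 85210626, 40120401), (109, 16, 16, 85210626, 40120401), (135, 16, 16, 68493411, 21365586), (144, 1, 1, 37770006, 3483156), (112, 1, 1, 85149216, 40059216), (109, 1, 1, 85149216, 40059216), (92, 1, 1, 85083651, 40043601), (88, 1, 1, 51532806, 3302481), (144, 16, 16, 38077281, 21308931), (135, 1, 1, 68309046, 3544146)]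
  [(88, 24), (92, 24), (109, 24), (112, 24), (135, 24), (144, 24)] = true := by
  decide +kernel

theorem t49_5_7 : chkS lk49 2 3 [(1, m49_5)] l49_7
  [(77, 16, 16, 102048816, 104993616), (60, 16, 16, 102048576, 104932176), (125, 16, 16, 102048771, 104989521), (48, 1, 1, 100815156, 103814181), (48, 16, 16, 100999491, 104923941), (60, 1, 1, 101864196, 103818321)]
  [(48, 48), (60, 48), (77, 24), (125, 24)] = true := by
  decide +kernel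

theorem t49_5_8 : chkS lk49 2 3 [(1, m49_5)] l49_8
  [(79, 16, 16, 1385520, 4330320), (26, 1, 1, 151860, 3150885), (126, 16, 16, 1385475, 4326225), (25, 16, 16, 1196805, 205905), (25, 1, 1, 1319760, 1319760), (26, 16, 16, 336195, 4260645)]
  [(25, 48), (26, 48), (79, 24), (126, 24)] = true := by
  decide +kernel

theorem t49_5_9 : chkS lk49 2 3 [(1, m49_5)] l49_9
  [(92, 1, 1, 106053891, 106103841), (112, 1, 1, 106119456, 106119456), (71, 1, 1, 72496641, 39203841), (112, 16, 16, 106180866, 106180641), (92, 16, 16, 106176816, 106173216), (71, 16, 16, 72558096, 39207696)]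
  [(71, 48), (92, 48), (112, 48)] = true := by
  decide +kernel

theorem t49_5_10 : chkS lk49 2 3 [(1, m49_5)] l49_10
  [(94, 16, 16, 1385520, 4330320), (27, 16, 16, 4396320, 2441520), (80, 1, 1, 5387265, 5387265), (27, 16, 16, 5444640, 5390640), (94, 1, 1, 1201155, 3277905), (80, 16, 16, 5448720, 5391120)]
  [(27, 48), (80, 48), (94, 48)] = true := by
  decide +kernel

theorem t49_5_11 : chkS lk49 2 3 [(1, m49_5)] l49_11
  [(152, 16, 16, 2295105, 2180355), (160, 16, 16, 271635, 2360085), (163, 16, 16, 270675, 1311525), (160, 1, 1, 148785, 2298885), (152, 1, 1, 2110740, 2110740), (163, 1, 1, 147765, 201765)]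
  [(152, 48), (160, 48), (163, 48)] = true := by
  decide +kernel

theorem t49_6_6 : chkS lk49 2 3 [(1, m49_6)] l49_6
  [(91, 16, 16, 86251056, 40113456), (89, 16, 16, 86251056, 40113456), (111, 16, 16, 70587936, 38162736), (108, 16, 16, 85210626, 40120401), (108, 16, 16, 70586976, 21385776), (145, 1, 1, 39863571, 86181396), (110, 16, 16, 54859296, 38101296), (107, 16, 16, 54858336, 21324336), (90, 16, 16, 38082096, 38082096), (88, 1, 1, 101860611, 102958161), (88, 16, 16, 38146896, 68494896), (138, 16, 16, 40113456, 86251056)]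
  [(88, 24), (89, 12), (90, 12), (91, 12), (107, 12), (108, 24), (110, 12), (111, 12), (138, 12), (145, 12)] = true := by
  decide +kernel

theorem t49_6_7 : chkS lk49 2 3 [(1, m49_6)] l49_7
  [(42, 16, 16, 103028016, 103028016), (41, 16, 16, 103093056, 104932656), (49, 16, 16, 104076576, 103043376), (121, 1, 1, 70279701, 50745876), (48, 16, 16, 104141376, 104944176), (71, 1, 1, 68313861, 50734161)]
  [(41, 24), (42, 24), (48, 24), (49, 24), (71, 24), (121, 24)] = true := by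
  decide +kernel

theorem t49_6_8 : chkS lk49 2 3 [(1, m49_6)] l49_8
  [(43, 16, 16, 2364720, 2364720), (30, 1, 1, 151860, 3150885), (29, 1, 1, 214305, 2310405), (127, 1, 1, 3166740, 3166740), (25, 1, 1, 275025, 1323525), (80, 1, 1, 1200900, 3155025)]
  [(25, 24), (29, 24), (30, 24), (43, 24), (80, 24), (127, 24)] = true := by
  decide +kernel

theorem t49_6_9 : chkS lk49 2 3 [(1, m49_6)] l49_9
  [(93, 16, 16, 103028016, 103028016), (114, 16, 16, 104141856, 105009456), (60, 1, 1, 105002241, 103101441), (115, 16, 16, 105190176, 105193776), (92, 16, 16, 106172976, 106172976), (41, 16, 16, 105059616, 103104816)]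
  [(41, 24), (60, 24), (92, 24), (93, 24), (114, 24), (115, 24)] = true := by
  decide +kernel

theorem t49_6_10 : chkS lk49 2 3 [(1, m49_6)] l49_10
  [(95, 16, 16, 2364720, 2364720), (28, 1, 1, 5325570, 5447745), (26, 16, 16, 3478080, 4280880), (116, 16, 16, 4526880, 4530480), (94, 16, 16, 4526640, 4526640), (30, 1, 1, 3232260, 3166785)]
  [(26, 24), (28, 24), (30, 24), (94, 24), (95, 24), (116, 24)] = true := by
  decide +kernel

theorem t49_6_11 : chkS lk49 2 3 [(1, m49_6)] l49_11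
  [(96, 16, 16, 2299200, 2180400), (141, 16, 16, 2364720, 2364720), (163, 16, 16, 3412560, 1331760), (150, 1, 1, 148785, 2298885), (147, 1, 1, 2114835, 2295060), (164, 1, 1, 3166740, 3166740)]
  [(96, 24), (141, 24), (147, 24), (150, 24), (163, 24), (164, 24)] = true := by
  decide +kernel

theorem t49_7_7 : chkS lk49 2 3 [(1, m49_7)] l49_7
  [(81, 16, 16, 103028016, 103028016), (73, 16, 16, 69604656, 69604656), (128, 16, 16, 103028016, 103028016), (123, 1, 1, 104071701, 100946451), (123, 16, 16, 104071761, 101995011), (73, 1, 1, 69604611, 69600561)]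
  [(73, 48), (81, 24), (123, 48), (128, 24)] = true := by
  decide +kernel

theorem t49_7_8 : chkS lk49 2 3 [(1, m49_7)] l49_8
  [(82, 16, 16, 2364720, 2364720), (31, 1, 1, 336180, 4199205), (129, 16, 16, 2364720, 2364720), (29, 1, 1, 2429700, 4203825), (29, 16, 16, 2429760, 4269360), (31, 16, 16, 336195, 4260645)]
  [(29, 48), (31, 48), (82, 24), (129, 24)] = true := by
  decide +kernel

theorem t49_7_9 : chkS lk49 2 3 [(1, m49_7)] l49_9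
  [(74, 16, 16, 69604656, 69604656), (123, 16, 16, 69604656, 69604656), (34, 1, 1, 55972866, 72507441), (123, 16, 16, 106172976, 106172976), (74, 16, 16, 106172976, 106172976), (34, 16, 16, 55972896, 72507696)]
  [(34, 48), (74, 48), (123, 48)] = true := by
  decide +kernel

theorem t49_7_10 : chkS lk49 2 3 [(1, m49_7)] l49_10
  [(43, 16, 16, 1385520, 4330320), (29, 1, 1, 4522770, 4530195), (37, 1, 1, 5444610, 5390385), (29, 16, 16, 4522785, 4530435), (43, 1, 1, 1385475, 4326225), (37, 16, 16, 5444640, 5390640)]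
  [(29, 48), (37, 48), (43, 48)] = true := by
  decide +kernel

theorem t49_7_11 : chkS lk49 2 3 [(1, m49_7)] l49_11
  [(85, 16, 16, 2364720, 2364720), (132, 16, 16, 2364720, 2364720), (161, 16, 16, 3478080, 4280880), (132, 1, 1, 2364675, 2360625), (85, 1, 1, 2364675, 2360625), (161, 1, 1, 3478020, 4215345)]
  [(85, 48), (132, 48), (161, 48)] = true := by
  decide +kernel

theorem t49_8_8 : chkS lk49 2 3 [(1, m49_8)] l49_8
  [(83, 16, 16, 136240, 136240), (32, 1, 1, 131860, 9235), (130, 16, 16, 136240, 136240), (7, 1, 1, 135940, 9265), (7, 16, 16, 136000, 74800), (32, 16, 16, 131905, 74755)]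
  [(7, 48), (32, 48), (83, 24), (130, 24)] = true := by
  decide +kernel

theorem t49_8_9 : chkS lk49 2 3 [(1, m49_8)] l49_9
  [(43, 1, 1, 5513475, 5505825), (29, 16, 16, 5440545, 5390595), (37, 1, 1, 3413250, 2379825), (29, 1, 1, 5440530, 5390355), (43, 16, 16, 5513520, 5509920), (37, 16, 16, 3413280, 2380080)]
  [(29, 48), (37, 48), (43, 48)] = true := by
  decide +kernel

theorem t49_8_10 : chkS lk49 2 3 [(1, m49_8)] l49_10
  [(6, 16, 16, 262945, 270595), (7, 16, 16, 197665, 147715), (38, 1, 1, 267010, 270385), (7, 16, 16, 262945, 270595), (6, 16, 16, 197665, 147715), (38, 16, 16, 267040, 270640)]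
  [(6, 48), (7, 48), (38, 48)] = true := by
  decide +kernel

theorem t49_8_11 : chkS lk49 2 3 [(1, m49_8)] l49_11
  [(86, 16, 16, 136240, 136240), (133, 16, 16, 136240, 136240), (142, 16, 16, 12610, 77860), (133, 1, 1, 136195, 132145), (86, 1, 1, 136195, 132145), (142, 1, 1, 12580, 12580)]
  [(86, 48), (133, 48), (142, 48)] = true := by
  decide +kernel

theorem t49_9_9 : chkS lk49 2 3 [(1, m49_9)] l49_9
  [(66, 1, 1, 106180866, 106180641), (73, 1, 1, 70668306, 70668306), (73, 1, 1, 70668546, 70668321), (100, 1, 1, 70668546, 70668321), (74, 1, 1, 69619971, 70649121), (74, 1, 1, 69619731, 70649106)]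
  [(66, 24), (73, 48), (74, 48), (100, 24)] = true := by
  decide +kernel

theorem t49_9_10 : chkS lk49 2 3 [(1, m49_9)] l49_10
  [(19, 1, 1, 4534530, 4534305), (31, 16, 16, 3478560, 4346160), (31, 16, 16, 3478080, 4280880), (57, 1, 1, 3490050, 4411425), (43, 1, 1, 1393155, 4391505), (43, 1, 1, 1392675, 4391250)]
  [(19, 24), (31, 48), (43, 48), (57, 24)] = true := by
  decide +kernel

theorem t49_9_11 : chkS lk49 2 3 [(1, m49_9)] l49_11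
  [(153, 16, 16, 2425665, 4269315), (161, 16, 16, 336915, 4326165), (161, 16, 16, 336195, 4260645), (14, 1, 1, 1393440, 4399440), (155, 1, 1, 2437140, 4207890), (155, 1, 1, 2437380, 4207905)]
  [(14, 24), (153, 24), (155, 48), (161, 48)] = true := by
  decide +kernel

theorem t49_10_10 : chkS lk49 2 3 [(1, m49_10)] l49_10
  [(0, 1, 1, 274690, 274465), (32, 16, 16, 201760, 147760), (32, 16, 16, 201280, 82480), (1, 16, 16, 136240, 136240), (6, 1, 1, 274450, 274450), (6, 1, 1, 274690, 274465)]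
  [(0, 24), (1, 24), (6, 48), (32, 48)] = true := by
  decide +kernel

theorem t49_10_11 : chkS lk49 2 3 [(1, m49_10)] l49_11
  [(18, 16, 16, 74560, 74560), (142, 16, 16, 136240, 136240), (142, 16, 16, 136000, 74800), (23, 1, 1, 82720, 205120), (149, 1, 1, 147475, 197650), (149, 1, 1, 147715, 197665)]
  [(18, 24), (23, 24), (142, 48), (149, 48)] = true := by
  decide +kernel

theorem t49_11_11 : chkS lk49 2 3 [(1, m49_11)] l49_11
  [(166, 16, 16, 267040, 270640), (167, 16, 16, 267040, 270640), (167, 16, 16, 266800, 266800), (13, 16, 16, 136000, 74800), (165, 16, 16, 131905, 74755), (165, 16, 16, 132145, 136195)]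
  [(13, 24), (165, 48), (166, 24), (167, 48)] = true := by
  decide +kernel

section

variable {κ ι : Type*} [Fintype κ] [Fintype ι] [Inhabited κ] [Inhabited ι]

noncomputable def F49_0 (E : Env κ ι) : (Fin 2 → κ) → (Fin 3 → ι) → ℝ := op2 (P11 κ) (P1 ι) (fB E 2 3 m49_0)

noncomputable def F49_1 (E : Env κ ι) : (Fin 2 → κ) → (Fin 3 → ι) → ℝ := op2 (P11 κ) (P1 ι) (fB E 2 3 m49_1)

noncomputable def F49_2 (E : Env κ ι) : (Fin 2 → κ) → (Fin 3 → ι) → ℝ := op2 (P11 κ) (P1 ι) (fB E 2 3 m49_2)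

noncomputable def F49_3 (E : Env κ ι) : (Fin 2 → κ) → (Fin 3 → ι) → ℝ := op2 (P11 κ) (P1 ι) (fB E 2 3 m49_3)

noncomputable def F49_4 (E : Env κ ι) : (Fin 2 → κ) → (Fin 3 → ι) → ℝ := op2 (P11 κ) (P1 ι) (fB E 2 3 m49_4)

noncomputable def F49_5 (E : Env κ ι) : (Fin 2 → κ) → (Fin 3 → ι) → ℝ := op2 (P11 κ) (P1 ι) (fB E 2 3 m49_5)

noncomputable def F49_6 (E : Env κ ι) : (Fin 2 → κ) → (Fin 3 → ι) → ℝ := op2 (P11 κ) (P1 ι) (fB E 2 3 m49_6)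

noncomputable def F49_7 (E : Env κ ι) : (Fin 2 → κ) → (Fin 3 → ι) → ℝ := op2 (P11 κ) (P1 ι) (fB E 2 3 m49_7)

noncomputable def F49_8 (E : Env κ ι) : (Fin 2 → κ) → (Fin 3 → ι) → ℝ := op2 (P11 κ) (P1 ι) (fB E 2 3 m49_8)

noncomputable def F49_9 (E : Env κ ι) : (Fin 2 → κ) → (Fin 3 → ι) → ℝ := op2 (P11 κ) (P1 ι) (fB E 2 3 m49_9)

noncomputable def F49_10 (E : Env κ ι) : (Fin 2 → κ) → (Fin 3 → ι) → ℝ := op2 (P11 κ) (P1 ι) (fB E 2 3 m49_10)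

noncomputable def F49_11 (E : Env κ ι) : (Fin 2 → κ) → (Fin 3 → ι) → ℝ := op2 (P11 κ) (P1 ι) (fB E 2 3 m49_11)

def r49_0_0 : List (ℕ × ℤ) := [(103, 48), (104, 96)]

theorem h49_0_0 (E : Env κ ι) : ip (F49_0 E) (F49_0 E) = dotS (ek E lk49) r49_0_0 :=
  op_entryZ E lk49 2 3 _ _ _ _ (pg11 κ) (pg1 ι) m49_0 m49_0 l49_0 z49_0 w49_0 x49_0 (by decide) _ (chkS_sound E lk49 2 3 _ _ _ _ t49_0_0)

def r49_0_1 : List (ℕ × ℤ) := [(56, 48), (99, 48), (100, 48)]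

theorem h49_0_1 (E : Env κ ι) : ip (F49_0 E) (F49_1 E) = dotS (ek E lk49) r49_0_1 :=
  op_entryZ E lk49 2 3 _ _ _ _ (pg11 κ) (pg1 ι) m49_0 m49_1 l49_1 z49_1 w49_1 x49_1 (by decide) _ (chkS_sound E lk49 2 3 _ _ _ _ t49_0_1)

def r49_0_2 : List (ℕ × ℤ) := [(5, 48), (56, 96)]

theorem h49_0_2 (E : Env κ ι) : ip (F49_0 E) (F49_2 E) = dotS (ek E lk49) r49_0_2 :=
  op_entryZ E lk49 2 3 _ _ _ _ (pg11 κ) (pg1 ι) m49_0 m49_2 l49_2 z49_2 w49_2 x49_2 (by decide) _ (chkS_sound E lk49 2 3 _ _ _ _ t49_0_2)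

def r49_0_3 : List (ℕ × ℤ) := [(53, 96), (97, 48)]

theorem h49_0_3 (E : Env κ ι) : ip (F49_0 E) (F49_3 E) = dotS (ek E lk49) r49_0_3 :=
  op_entryZ E lk49 2 3 _ _ _ _ (pg11 κ) (pg1 ι) m49_0 m49_3 l49_3 z49_3 w49_3 x49_3 (by decide) _ (chkS_sound E lk49 2 3 _ _ _ _ t49_0_3)

def r49_0_4 : List (ℕ × ℤ) := [(51, 96), (53, 48)]

theorem h49_0_4 (E : Env κ ι) : ip (F49_0 E) (F49_4 E) = dotS (ek E lk49) r49_0_4 :=
  op_entryZ E lk49 2 3 _ _ _ _ (pg11 κ) (pg1 ι) m49_0 m49_4 l49_4 z49_4 w49_4 x49_4 (by decide) _ (chkS_sound E lk49 2 3 _ _ _ _ t49_0_4)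

def r49_0_5 : List (ℕ × ℤ) := [(52, 96), (98, 48)]

theorem h49_0_5 (E : Env κ ι) : ip (F49_0 E) (F49_5 E) = dotS (ek E lk49) r49_0_5 :=
  op_entryZ E lk49 2 3 _ _ _ _ (pg11 κ) (pg1 ι) m49_0 m49_5 l49_5 z49_5 w49_5 x49_5 (by decide) _ (chkS_sound E lk49 2 3 _ _ _ _ t49_0_5)

def r49_0_6 : List (ℕ × ℤ) := [(50, 48), (51, 48), (52, 48)]

theorem h49_0_6 (E : Env κ ι) : ip (F49_0 E) (F49_6 E) = dotS (ek E lk49) r49_0_6 :=
  op_entryZ E lk49 2 3 _ _ _ _ (pg11 κ) (pg1 ι) m49_0 m49_6 l49_6 z49_6 w49_6 x49_6 (by decide) _ (chkS_sound E lk49 2 3 _ _ _ _ t49_0_6)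

def r49_0_7 : List (ℕ × ℤ) := [(56, 96), (101, 48)]

theorem h49_0_7 (E : Env κ ι) : ip (F49_0 E) (F49_7 E) = dotS (ek E lk49) r49_0_7 :=
  op_entryZ E lk49 2 3 _ _ _ _ (pg11 κ) (pg1 ι) m49_0 m49_7 l49_7 z49_7 w49_7 x49_7 (by decide) _ (chkS_sound E lk49 2 3 _ _ _ _ t49_0_7)

def r49_0_8 : List (ℕ × ℤ) := [(57, 96), (102, 48)]

theorem h49_0_8 (E : Env κ ι) : ip (F49_0 E) (F49_8 E) = dotS (ek E lk49) r49_0_8 :=
  op_entryZ E lk49 2 3 _ _ _ _ (pg11 κ) (pg1 ι) m49_0 m49_8 l49_8 z49_8 w49_8 x49_8 (by decide) _ (chkS_sound E lk49 2 3 _ _ _ _ t49_0_8)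

def r49_0_9 : List (ℕ × ℤ) := [(52, 96), (53, 48)]

theorem h49_0_9 (E : Env κ ι) : ip (F49_0 E) (F49_9 E) = dotS (ek E lk49) r49_0_9 :=
  op_entryZ E lk49 2 3 _ _ _ _ (pg11 κ) (pg1 ι) m49_0 m49_9 l49_9 z49_9 w49_9 x49_9 (by decide) _ (chkS_sound E lk49 2 3 _ _ _ _ t49_0_9)

def r49_0_10 : List (ℕ × ℤ) := [(54, 48), (55, 96)]

theorem h49_0_10 (E : Env κ ι) : ip (F49_0 E) (F49_10 E) = dotS (ek E lk49) r49_0_10 :=
  op_entryZ E lk49 2 3 _ _ _ _ (pg11 κ) (pg1 ι) m49_0 m49_10 l49_10 z49_10 w49_10 x49_10 (by decide) _ (chkS_sound E lk49 2 3 _ _ _ _ t49_0_10)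

def r49_0_11 : List (ℕ × ℤ) := [(58, 48), (105, 96)]

theorem h49_0_11 (E : Env κ ι) : ip (F49_0 E) (F49_11 E) = dotS (ek E lk49) r49_0_11 :=
  op_entryZ E lk49 2 3 _ _ _ _ (pg11 κ) (pg1 ι) m49_0 m49_11 l49_11 z49_11 w49_11 x49_11 (by decide) _ (chkS_sound E lk49 2 3 _ _ _ _ t49_0_11)

def r49_1_1 : List (ℕ × ℤ) := [(72, 12), (73, 12), (111, 12), (112, 24), (113, 12), (114, 24), (122, 12), (123, 12), (156, 12), (157, 12)]

theorem h49_1_1 (E : Env κ ι) : ip (F49_1 E) (F49_1 E) = dotS (ek E lk49) r49_1_1 :=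
  op_entryZ E lk49 2 3 _ _ _ _ (pg11 κ) (pg1 ι) m49_1 m49_1 l49_1 z49_1 w49_1 x49_1 (by decide) _ (chkS_sound E lk49 2 3 _ _ _ _ t49_1_1)

def r49_1_2 : List (ℕ × ℤ) := [(49, 24), (63, 24), (110, 48), (112, 24), (114, 24)]

theorem h49_1_2 (E : Env κ ι) : ip (F49_1 E) (F49_2 E) = dotS (ek E lk49) r49_1_2 :=
  op_entryZ E lk49 2 3 _ _ _ _ (pg11 κ) (pg1 ι) m49_1 m49_2 l49_2 z49_2 w49_2 x49_2 (by decide) _ (chkS_sound E lk49 2 3 _ _ _ _ t49_1_2)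

def r49_1_3 : List (ℕ × ℤ) := [(11, 24), (12, 24), (16, 24), (67, 24), (106, 24), (118, 24)]

theorem h49_1_3 (E : Env κ ι) : ip (F49_1 E) (F49_3 E) = dotS (ek E lk49) r49_1_3 :=
  op_entryZ E lk49 2 3 _ _ _ _ (pg11 κ) (pg1 ι) m49_1 m49_3 l49_3 z49_3 w49_3 x49_3 (by decide) _ (chkS_sound E lk49 2 3 _ _ _ _ t49_1_3)

def r49_1_4 : List (ℕ × ℤ) := [(40, 24), (47, 24), (71, 24), (121, 24), (137, 24), (138, 24)]

theorem h49_1_4 (E : Env κ ι) : ip (F49_1 E) (F49_4 E) = dotS (ek E lk49) r49_1_4 :=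
  op_entryZ E lk49 2 3 _ _ _ _ (pg11 κ) (pg1 ι) m49_1 m49_4 l49_4 z49_4 w49_4 x49_4 (by decide) _ (chkS_sound E lk49 2 3 _ _ _ _ t49_1_4)

def r49_1_5 : List (ℕ × ℤ) := [(68, 24), (69, 24), (108, 24), (109, 24), (119, 24), (120, 24)]

theorem h49_1_5 (E : Env κ ι) : ip (F49_1 E) (F49_5 E) = dotS (ek E lk49) r49_1_5 :=
  op_entryZ E lk49 2 3 _ _ _ _ (pg11 κ) (pg1 ι) m49_1 m49_5 l49_5 z49_5 w49_5 x49_5 (by decide) _ (chkS_sound E lk49 2 3 _ _ _ _ t49_1_5)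

def r49_1_6 : List (ℕ × ℤ) := [(40, 12), (41, 12), (47, 12), (48, 12), (70, 12), (75, 12), (120, 12), (124, 12), (135, 24), (137, 12), (138, 12)]

theorem h49_1_6 (E : Env κ ι) : ip (F49_1 E) (F49_6 E) = dotS (ek E lk49) r49_1_6 :=
  op_entryZ E lk49 2 3 _ _ _ _ (pg11 κ) (pg1 ι) m49_1 m49_6 l49_6 z49_6 w49_6 x49_6 (by decide) _ (chkS_sound E lk49 2 3 _ _ _ _ t49_1_6)

def r49_1_7 : List (ℕ × ℤ) := [(49, 24), (63, 24), (76, 24), (112, 24), (114, 24), (125, 24)]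

theorem h49_1_7 (E : Env κ ι) : ip (F49_1 E) (F49_7 E) = dotS (ek E lk49) r49_1_7 :=
  op_entryZ E lk49 2 3 _ _ _ _ (pg11 κ) (pg1 ι) m49_1 m49_7 l49_7 z49_7 w49_7 x49_7 (by decide) _ (chkS_sound E lk49 2 3 _ _ _ _ t49_1_7)

def r49_1_8 : List (ℕ × ℤ) := [(27, 24), (28, 24), (29, 24), (31, 24), (78, 24), (126, 24)]

theorem h49_1_8 (E : Env κ ι) : ip (F49_1 E) (F49_8 E) = dotS (ek E lk49) r49_1_8 :=
  op_entryZ E lk49 2 3 _ _ _ _ (pg11 κ) (pg1 ι) m49_1 m49_8 l49_8 z49_8 w49_8 x49_8 (by decide) _ (chkS_sound E lk49 2 3 _ _ _ _ t49_1_8)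

def r49_1_9 : List (ℕ × ℤ) := [(41, 24), (48, 24), (70, 24), (71, 24), (120, 24), (121, 24)]

theorem h49_1_9 (E : Env κ ι) : ip (F49_1 E) (F49_9 E) = dotS (ek E lk49) r49_1_9 :=
  op_entryZ E lk49 2 3 _ _ _ _ (pg11 κ) (pg1 ι) m49_1 m49_9 l49_9 z49_9 w49_9 x49_9 (by decide) _ (chkS_sound E lk49 2 3 _ _ _ _ t49_1_9)

def r49_1_10 : List (ℕ × ℤ) := [(25, 48), (30, 48), (80, 24), (127, 24)]

theorem h49_1_10 (E : Env κ ι) : ip (F49_1 E) (F49_10 E) = dotS (ek E lk49) r49_1_10 :=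
  op_entryZ E lk49 2 3 _ _ _ _ (pg11 κ) (pg1 ι) m49_1 m49_10 l49_10 z49_10 w49_10 x49_10 (by decide) _ (chkS_sound E lk49 2 3 _ _ _ _ t49_1_10)

def r49_1_11 : List (ℕ × ℤ) := [(84, 24), (131, 24), (140, 24), (141, 24), (158, 24), (160, 24)]

theorem h49_1_11 (E : Env κ ι) : ip (F49_1 E) (F49_11 E) = dotS (ek E lk49) r49_1_11 :=
  op_entryZ E lk49 2 3 _ _ _ _ (pg11 κ) (pg1 ι) m49_1 m49_11 l49_11 z49_11 w49_11 x49_11 (by decide) _ (chkS_sound E lk49 2 3 _ _ _ _ t49_1_11)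

def r49_2_2 : List (ℕ × ℤ) := [(17, 24), (62, 24), (111, 48), (113, 48)]

theorem h49_2_2 (E : Env κ ι) : ip (F49_2 E) (F49_2 E) = dotS (ek E lk49) r49_2_2 :=
  op_entryZ E lk49 2 3 _ _ _ _ (pg11 κ) (pg1 ι) m49_2 m49_2 l49_2 z49_2 w49_2 x49_2 (by decide) _ (chkS_sound E lk49 2 3 _ _ _ _ t49_2_2)

def r49_2_3 : List (ℕ × ℤ) := [(2, 48), (16, 48), (61, 48)]

theorem h49_2_3 (E : Env κ ι) : ip (F49_2 E) (F49_3 E) = dotS (ek E lk49) r49_2_3 :=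
  op_entryZ E lk49 2 3 _ _ _ _ (pg11 κ) (pg1 ι) m49_2 m49_3 l49_3 z49_3 w49_3 x49_3 (by decide) _ (chkS_sound E lk49 2 3 _ _ _ _ t49_2_3)

def r49_2_4 : List (ℕ × ℤ) := [(11, 24), (47, 48), (59, 48), (106, 24)]

theorem h49_2_4 (E : Env κ ι) : ip (F49_2 E) (F49_4 E) = dotS (ek E lk49) r49_2_4 :=
  op_entryZ E lk49 2 3 _ _ _ _ (pg11 κ) (pg1 ι) m49_2 m49_4 l49_4 z49_4 w49_4 x49_4 (by decide) _ (chkS_sound E lk49 2 3 _ _ _ _ t49_2_4)

def r49_2_5 : List (ℕ × ℤ) := [(48, 48), (60, 48), (107, 48)]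

theorem h49_2_5 (E : Env κ ι) : ip (F49_2 E) (F49_5 E) = dotS (ek E lk49) r49_2_5 :=
  op_entryZ E lk49 2 3 _ _ _ _ (pg11 κ) (pg1 ι) m49_2 m49_5 l49_5 z49_5 w49_5 x49_5 (by decide) _ (chkS_sound E lk49 2 3 _ _ _ _ t49_2_5)

def r49_2_6 : List (ℕ × ℤ) := [(39, 24), (46, 24), (47, 24), (59, 24), (108, 24), (109, 24)]

theorem h49_2_6 (E : Env κ ι) : ip (F49_2 E) (F49_6 E) = dotS (ek E lk49) r49_2_6 :=
  op_entryZ E lk49 2 3 _ _ _ _ (pg11 κ) (pg1 ι) m49_2 m49_6 l49_6 z49_6 w49_6 x49_6 (by decide) _ (chkS_sound E lk49 2 3 _ _ _ _ t49_2_6)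

def r49_2_7 : List (ℕ × ℤ) := [(49, 48), (63, 48), (115, 48)]

theorem h49_2_7 (E : Env κ ι) : ip (F49_2 E) (F49_7 E) = dotS (ek E lk49) r49_2_7 :=
  op_entryZ E lk49 2 3 _ _ _ _ (pg11 κ) (pg1 ι) m49_2 m49_7 l49_7 z49_7 w49_7 x49_7 (by decide) _ (chkS_sound E lk49 2 3 _ _ _ _ t49_2_7)

def r49_2_8 : List (ℕ × ℤ) := [(29, 48), (31, 48), (116, 48)]

theorem h49_2_8 (E : Env κ ι) : ip (F49_2 E) (F49_8 E) = dotS (ek E lk49) r49_2_8 :=
  op_entryZ E lk49 2 3 _ _ _ _ (pg11 κ) (pg1 ι) m49_2 m49_8 l49_8 z49_8 w49_8 x49_8 (by decide) _ (chkS_sound E lk49 2 3 _ _ _ _ t49_2_8)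

def r49_2_9 : List (ℕ × ℤ) := [(16, 24), (48, 48), (60, 48), (61, 24)]

theorem h49_2_9 (E : Env κ ι) : ip (F49_2 E) (F49_9 E) = dotS (ek E lk49) r49_2_9 :=
  op_entryZ E lk49 2 3 _ _ _ _ (pg11 κ) (pg1 ι) m49_2 m49_9 l49_9 z49_9 w49_9 x49_9 (by decide) _ (chkS_sound E lk49 2 3 _ _ _ _ t49_2_9)

def r49_2_10 : List (ℕ × ℤ) := [(20, 24), (24, 24), (25, 48), (26, 48)]

theorem h49_2_10 (E : Env κ ι) : ip (F49_2 E) (F49_10 E) = dotS (ek E lk49) r49_2_10 :=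
  op_entryZ E lk49 2 3 _ _ _ _ (pg11 κ) (pg1 ι) m49_2 m49_10 l49_10 z49_10 w49_10 x49_10 (by decide) _ (chkS_sound E lk49 2 3 _ _ _ _ t49_2_10)

def r49_2_11 : List (ℕ × ℤ) := [(15, 24), (64, 24), (117, 48), (150, 48)]

theorem h49_2_11 (E : Env κ ι) : ip (F49_2 E) (F49_11 E) = dotS (ek E lk49) r49_2_11 :=
  op_entryZ E lk49 2 3 _ _ _ _ (pg11 κ) (pg1 ι) m49_2 m49_11 l49_11 z49_11 w49_11 x49_11 (by decide) _ (chkS_sound E lk49 2 3 _ _ _ _ t49_2_11)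

def r49_3_3 : List (ℕ × ℤ) := [(2, 48), (65, 24), (87, 48), (97, 24)]

theorem h49_3_3 (E : Env κ ι) : ip (F49_3 E) (F49_3 E) = dotS (ek E lk49) r49_3_3 :=
  op_entryZ E lk49 2 3 _ _ _ _ (pg11 κ) (pg1 ι) m49_3 m49_3 l49_3 z49_3 w49_3 x49_3 (by decide) _ (chkS_sound E lk49 2 3 _ _ _ _ t49_3_3)

def r49_3_4 : List (ℕ × ℤ) := [(4, 24), (9, 48), (11, 48), (53, 24)]

theorem h49_3_4 (E : Env κ ι) : ip (F49_3 E) (F49_4 E) = dotS (ek E lk49) r49_3_4 :=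
  op_entryZ E lk49 2 3 _ _ _ _ (pg11 κ) (pg1 ι) m49_3 m49_4 l49_4 z49_4 w49_4 x49_4 (by decide) _ (chkS_sound E lk49 2 3 _ _ _ _ t49_3_4)

def r49_3_5 : List (ℕ × ℤ) := [(9, 48), (67, 48), (106, 48)]

theorem h49_3_5 (E : Env κ ι) : ip (F49_3 E) (F49_5 E) = dotS (ek E lk49) r49_3_5 :=
  op_entryZ E lk49 2 3 _ _ _ _ (pg11 κ) (pg1 ι) m49_3 m49_5 l49_5 z49_5 w49_5 x49_5 (by decide) _ (chkS_sound E lk49 2 3 _ _ _ _ t49_3_5)

def r49_3_6 : List (ℕ × ℤ) := [(9, 24), (11, 24), (12, 24), (61, 24), (134, 24), (143, 24)]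

theorem h49_3_6 (E : Env κ ι) : ip (F49_3 E) (F49_6 E) = dotS (ek E lk49) r49_3_6 :=
  op_entryZ E lk49 2 3 _ _ _ _ (pg11 κ) (pg1 ι) m49_3 m49_6 l49_6 z49_6 w49_6 x49_6 (by decide) _ (chkS_sound E lk49 2 3 _ _ _ _ t49_3_6)

def r49_3_7 : List (ℕ × ℤ) := [(16, 48), (35, 48), (61, 48)]

theorem h49_3_7 (E : Env κ ι) : ip (F49_3 E) (F49_7 E) = dotS (ek E lk49) r49_3_7 :=
  op_entryZ E lk49 2 3 _ _ _ _ (pg11 κ) (pg1 ι) m49_3 m49_7 l49_7 z49_7 w49_7 x49_7 (by decide) _ (chkS_sound E lk49 2 3 _ _ _ _ t49_3_7)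

def r49_3_8 : List (ℕ × ℤ) := [(20, 48), (24, 48), (36, 48)]

theorem h49_3_8 (E : Env κ ι) : ip (F49_3 E) (F49_8 E) = dotS (ek E lk49) r49_3_8 :=
  op_entryZ E lk49 2 3 _ _ _ _ (pg11 κ) (pg1 ι) m49_3 m49_8 l49_8 z49_8 w49_8 x49_8 (by decide) _ (chkS_sound E lk49 2 3 _ _ _ _ t49_3_8)

def r49_3_9 : List (ℕ × ℤ) := [(4, 24), (12, 48), (53, 24), (61, 48)]

theorem h49_3_9 (E : Env κ ι) : ip (F49_3 E) (F49_9 E) = dotS (ek E lk49) r49_3_9 :=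
  op_entryZ E lk49 2 3 _ _ _ _ (pg11 κ) (pg1 ι) m49_3 m49_9 l49_9 z49_9 w49_9 x49_9 (by decide) _ (chkS_sound E lk49 2 3 _ _ _ _ t49_3_9)

def r49_3_10 : List (ℕ × ℤ) := [(20, 96), (21, 24), (54, 24)]

theorem h49_3_10 (E : Env κ ι) : ip (F49_3 E) (F49_10 E) = dotS (ek E lk49) r49_3_10 :=
  op_entryZ E lk49 2 3 _ _ _ _ (pg11 κ) (pg1 ι) m49_3 m49_10 l49_10 z49_10 w49_10 x49_10 (by decide) _ (chkS_sound E lk49 2 3 _ _ _ _ t49_3_10)

def r49_3_11 : List (ℕ × ℤ) := [(3, 24), (8, 24), (154, 48), (159, 48)]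

theorem h49_3_11 (E : Env κ ι) : ip (F49_3 E) (F49_11 E) = dotS (ek E lk49) r49_3_11 :=
  op_entryZ E lk49 2 3 _ _ _ _ (pg11 κ) (pg1 ι) m49_3 m49_11 l49_11 z49_11 w49_11 x49_11 (by decide) _ (chkS_sound E lk49 2 3 _ _ _ _ t49_3_11)

def r49_4_4 : List (ℕ × ℤ) := [(44, 24), (51, 24), (138, 48), (145, 48)]

theorem h49_4_4 (E : Env κ ι) : ip (F49_4 E) (F49_4 E) = dotS (ek E lk49) r49_4_4 :=
  op_entryZ E lk49 2 3 _ _ _ _ (pg11 κ) (pg1 ι) m49_4 m49_4 l49_4 z49_4 w49_4 x49_4 (by decide) _ (chkS_sound E lk49 2 3 _ _ _ _ t49_4_4)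

def r49_4_5 : List (ℕ × ℤ) := [(71, 48), (88, 48), (109, 48)]

theorem h49_4_5 (E : Env κ ι) : ip (F49_4 E) (F49_5 E) = dotS (ek E lk49) r49_4_5 :=
  op_entryZ E lk49 2 3 _ _ _ _ (pg11 κ) (pg1 ι) m49_4 m49_5 l49_5 z49_5 w49_5 x49_5 (by decide) _ (chkS_sound E lk49 2 3 _ _ _ _ t49_4_5)

def r49_4_6 : List (ℕ × ℤ) := [(40, 24), (59, 24), (88, 24), (108, 24), (136, 24), (146, 24)]

theorem h49_4_6 (E : Env κ ι) : ip (F49_4 E) (F49_6 E) = dotS (ek E lk49) r49_4_6 :=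
  op_entryZ E lk49 2 3 _ _ _ _ (pg11 κ) (pg1 ι) m49_4 m49_6 l49_6 z49_6 w49_6 x49_6 (by decide) _ (chkS_sound E lk49 2 3 _ _ _ _ t49_4_6)

def r49_4_7 : List (ℕ × ℤ) := [(33, 48), (70, 48), (120, 48)]

theorem h49_4_7 (E : Env κ ι) : ip (F49_4 E) (F49_7 E) = dotS (ek E lk49) r49_4_7 :=
  op_entryZ E lk49 2 3 _ _ _ _ (pg11 κ) (pg1 ι) m49_4 m49_7 l49_7 z49_7 w49_7 x49_7 (by decide) _ (chkS_sound E lk49 2 3 _ _ _ _ t49_4_7)

def r49_4_8 : List (ℕ × ℤ) := [(25, 48), (30, 48), (37, 48)]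

theorem h49_4_8 (E : Env κ ι) : ip (F49_4 E) (F49_8 E) = dotS (ek E lk49) r49_4_8 :=
  op_entryZ E lk49 2 3 _ _ _ _ (pg11 κ) (pg1 ι) m49_4 m49_8 l49_8 z49_8 w49_8 x49_8 (by decide) _ (chkS_sound E lk49 2 3 _ _ _ _ t49_4_8)

def r49_4_9 : List (ℕ × ℤ) := [(45, 24), (52, 24), (69, 48), (70, 48)]

theorem h49_4_9 (E : Env κ ι) : ip (F49_4 E) (F49_9 E) = dotS (ek E lk49) r49_4_9 :=
  op_entryZ E lk49 2 3 _ _ _ _ (pg11 κ) (pg1 ι) m49_4 m49_9 l49_9 z49_9 w49_9 x49_9 (by decide) _ (chkS_sound E lk49 2 3 _ _ _ _ t49_4_9)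

def r49_4_10 : List (ℕ × ℤ) := [(22, 24), (26, 48), (30, 48), (55, 24)]

theorem h49_4_10 (E : Env κ ι) : ip (F49_4 E) (F49_10 E) = dotS (ek E lk49) r49_4_10 :=
  op_entryZ E lk49 2 3 _ _ _ _ (pg11 κ) (pg1 ι) m49_4 m49_10 l49_10 z49_10 w49_10 x49_10 (by decide) _ (chkS_sound E lk49 2 3 _ _ _ _ t49_4_10)

def r49_4_11 : List (ℕ × ℤ) := [(10, 24), (139, 48), (148, 48), (162, 24)]

theorem h49_4_11 (E : Env κ ι) : ip (F49_4 E) (F49_11 E) = dotS (ek E lk49) r49_4_11 :=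
  op_entryZ E lk49 2 3 _ _ _ _ (pg11 κ) (pg1 ι) m49_4 m49_11 l49_11 z49_11 w49_11 x49_11 (by decide) _ (chkS_sound E lk49 2 3 _ _ _ _ t49_4_11)

def r49_5_5 : List (ℕ × ℤ) := [(137, 48), (145, 48), (151, 24), (156, 24)]

theorem h49_5_5 (E : Env κ ι) : ip (F49_5 E) (F49_5 E) = dotS (ek E lk49) r49_5_5 :=
  op_entryZ E lk49 2 3 _ _ _ _ (pg11 κ) (pg1 ι) m49_5 m49_5 l49_5 z49_5 w49_5 x49_5 (by decide) _ (chkS_sound E lk49 2 3 _ _ _ _ t49_5_5)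

def r49_5_6 : List (ℕ × ℤ) := [(88, 24), (92, 24), (109, 24), (112, 24), (135, 24), (144, 24)]

theorem h49_5_6 (E : Env κ ι) : ip (F49_5 E) (F49_6 E) = dotS (ek E lk49) r49_5_6 :=
  op_entryZ E lk49 2 3 _ _ _ _ (pg11 κ) (pg1 ι) m49_5 m49_6 l49_6 z49_6 w49_6 x49_6 (by decide) _ (chkS_sound E lk49 2 3 _ _ _ _ t49_5_6)

def r49_5_7 : List (ℕ × ℤ) := [(48, 48), (60, 48), (77, 24), (125, 24)]

theorem h49_5_7 (E : Env κ ι) : ip (F49_5 E) (F49_7 E) = dotS (ek E lk49) r49_5_7 :=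
  op_entryZ E lk49 2 3 _ _ _ _ (pg11 κ) (pg1 ι) m49_5 m49_7 l49_7 z49_7 w49_7 x49_7 (by decide) _ (chkS_sound E lk49 2 3 _ _ _ _ t49_5_7)

def r49_5_8 : List (ℕ × ℤ) := [(25, 48), (26, 48), (79, 24), (126, 24)]

theorem h49_5_8 (E : Env κ ι) : ip (F49_5 E) (F49_8 E) = dotS (ek E lk49) r49_5_8 :=
  op_entryZ E lk49 2 3 _ _ _ _ (pg11 κ) (pg1 ι) m49_5 m49_8 l49_8 z49_8 w49_8 x49_8 (by decide) _ (chkS_sound E lk49 2 3 _ _ _ _ t49_5_8)

def r49_5_9 : List (ℕ × ℤ) := [(71, 48), (92, 48), (112, 48)]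

theorem h49_5_9 (E : Env κ ι) : ip (F49_5 E) (F49_9 E) = dotS (ek E lk49) r49_5_9 :=
  op_entryZ E lk49 2 3 _ _ _ _ (pg11 κ) (pg1 ι) m49_5 m49_9 l49_9 z49_9 w49_9 x49_9 (by decide) _ (chkS_sound E lk49 2 3 _ _ _ _ t49_5_9)

def r49_5_10 : List (ℕ × ℤ) := [(27, 48), (80, 48), (94, 48)]

theorem h49_5_10 (E : Env κ ι) : ip (F49_5 E) (F49_10 E) = dotS (ek E lk49) r49_5_10 :=
  op_entryZ E lk49 2 3 _ _ _ _ (pg11 κ) (pg1 ι) m49_5 m49_10 l49_10 z49_10 w49_10 x49_10 (by decide) _ (chkS_sound E lk49 2 3 _ _ _ _ t49_5_10)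

def r49_5_11 : List (ℕ × ℤ) := [(152, 48), (160, 48), (163, 48)]

theorem h49_5_11 (E : Env κ ι) : ip (F49_5 E) (F49_11 E) = dotS (ek E lk49) r49_5_11 :=
  op_entryZ E lk49 2 3 _ _ _ _ (pg11 κ) (pg1 ι) m49_5 m49_11 l49_11 z49_11 w49_11 x49_11 (by decide) _ (chkS_sound E lk49 2 3 _ _ _ _ t49_5_11)

def r49_6_6 : List (ℕ × ℤ) := [(88, 24), (89, 12), (90, 12), (91, 12), (107, 12), (108, 24), (110, 12), (111, 12), (138, 12), (145, 12)]

theorem h49_6_6 (E : Env κ ι) : ip (F49_6 E) (F49_6 E) = dotS (ek E lk49) r49_6_6 :=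
  op_entryZ E lk49 2 3 _ _ _ _ (pg11 κ) (pg1 ι) m49_6 m49_6 l49_6 z49_6 w49_6 x49_6 (by decide) _ (chkS_sound E lk49 2 3 _ _ _ _ t49_6_6)

def r49_6_7 : List (ℕ × ℤ) := [(41, 24), (42, 24), (48, 24), (49, 24), (71, 24), (121, 24)]

theorem h49_6_7 (E : Env κ ι) : ip (F49_6 E) (F49_7 E) = dotS (ek E lk49) r49_6_7 :=
  op_entryZ E lk49 2 3 _ _ _ _ (pg11 κ) (pg1 ι) m49_6 m49_7 l49_7 z49_7 w49_7 x49_7 (by decide) _ (chkS_sound E lk49 2 3 _ _ _ _ t49_6_7)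

def r49_6_8 : List (ℕ × ℤ) := [(25, 24), (29, 24), (30, 24), (43, 24), (80, 24), (127, 24)]

theorem h49_6_8 (E : Env κ ι) : ip (F49_6 E) (F49_8 E) = dotS (ek E lk49) r49_6_8 :=
  op_entryZ E lk49 2 3 _ _ _ _ (pg11 κ) (pg1 ι) m49_6 m49_8 l49_8 z49_8 w49_8 x49_8 (by decide) _ (chkS_sound E lk49 2 3 _ _ _ _ t49_6_8)

def r49_6_9 : List (ℕ × ℤ) := [(41, 24), (60, 24), (92, 24), (93, 24), (114, 24), (115, 24)]

theorem h49_6_9 (E : Env κ ι) : ip (F49_6 E) (F49_9 E) = dotS (ek E lk49) r49_6_9 :=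
  op_entryZ E lk49 2 3 _ _ _ _ (pg11 κ) (pg1 ι) m49_6 m49_9 l49_9 z49_9 w49_9 x49_9 (by decide) _ (chkS_sound E lk49 2 3 _ _ _ _ t49_6_9)

def r49_6_10 : List (ℕ × ℤ) := [(26, 24), (28, 24), (30, 24), (94, 24), (95, 24), (116, 24)]

theorem h49_6_10 (E : Env κ ι) : ip (F49_6 E) (F49_10 E) = dotS (ek E lk49) r49_6_10 :=
  op_entryZ E lk49 2 3 _ _ _ _ (pg11 κ) (pg1 ι) m49_6 m49_10 l49_10 z49_10 w49_10 x49_10 (by decide) _ (chkS_sound E lk49 2 3 _ _ _ _ t49_6_10)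

def r49_6_11 : List (ℕ × ℤ) := [(96, 24), (141, 24), (147, 24), (150, 24), (163, 24), (164, 24)]

theorem h49_6_11 (E : Env κ ι) : ip (F49_6 E) (F49_11 E) = dotS (ek E lk49) r49_6_11 :=
  op_entryZ E lk49 2 3 _ _ _ _ (pg11 κ) (pg1 ι) m49_6 m49_11 l49_11 z49_11 w49_11 x49_11 (by decide) _ (chkS_sound E lk49 2 3 _ _ _ _ t49_6_11)

def r49_7_7 : List (ℕ × ℤ) := [(73, 48), (81, 24), (123, 48), (128, 24)]

theorem h49_7_7 (E : Env κ ι) : ip (F49_7 E) (F49_7 E) = dotS (ek E lk49) r49_7_7 :=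
  op_entryZ E lk49 2 3 _ _ _ _ (pg11 κ) (pg1 ι) m49_7 m49_7 l49_7 z49_7 w49_7 x49_7 (by decide) _ (chkS_sound E lk49 2 3 _ _ _ _ t49_7_7)

def r49_7_8 : List (ℕ × ℤ) := [(29, 48), (31, 48), (82, 24), (129, 24)]

theorem h49_7_8 (E : Env κ ι) : ip (F49_7 E) (F49_8 E) = dotS (ek E lk49) r49_7_8 :=
  op_entryZ E lk49 2 3 _ _ _ _ (pg11 κ) (pg1 ι) m49_7 m49_8 l49_8 z49_8 w49_8 x49_8 (by decide) _ (chkS_sound E lk49 2 3 _ _ _ _ t49_7_8)

def r49_7_9 : List (ℕ × ℤ) := [(34, 48), (74, 48), (123, 48)]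

theorem h49_7_9 (E : Env κ ι) : ip (F49_7 E) (F49_9 E) = dotS (ek E lk49) r49_7_9 :=
  op_entryZ E lk49 2 3 _ _ _ _ (pg11 κ) (pg1 ι) m49_7 m49_9 l49_9 z49_9 w49_9 x49_9 (by decide) _ (chkS_sound E lk49 2 3 _ _ _ _ t49_7_9)

def r49_7_10 : List (ℕ × ℤ) := [(29, 48), (37, 48), (43, 48)]

theorem h49_7_10 (E : Env κ ι) : ip (F49_7 E) (F49_10 E) = dotS (ek E lk49) r49_7_10 :=
  op_entryZ E lk49 2 3 _ _ _ _ (pg11 κ) (pg1 ι) m49_7 m49_10 l49_10 z49_10 w49_10 x49_10 (by decide) _ (chkS_sound E lk49 2 3 _ _ _ _ t49_7_10)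

def r49_7_11 : List (ℕ × ℤ) := [(85, 48), (132, 48), (161, 48)]

theorem h49_7_11 (E : Env κ ι) : ip (F49_7 E) (F49_11 E) = dotS (ek E lk49) r49_7_11 :=
  op_entryZ E lk49 2 3 _ _ _ _ (pg11 κ) (pg1 ι) m49_7 m49_11 l49_11 z49_11 w49_11 x49_11 (by decide) _ (chkS_sound E lk49 2 3 _ _ _ _ t49_7_11)

def r49_8_8 : List (ℕ × ℤ) := [(7, 48), (32, 48), (83, 24), (130, 24)]

theorem h49_8_8 (E : Env κ ι) : ip (F49_8 E) (F49_8 E) = dotS (ek E lk49) r49_8_8 :=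
  op_entryZ E lk49 2 3 _ _ _ _ (pg11 κ) (pg1 ι) m49_8 m49_8 l49_8 z49_8 w49_8 x49_8 (by decide) _ (chkS_sound E lk49 2 3 _ _ _ _ t49_8_8)

def r49_8_9 : List (ℕ × ℤ) := [(29, 48), (37, 48), (43, 48)]

theorem h49_8_9 (E : Env κ ι) : ip (F49_8 E) (F49_9 E) = dotS (ek E lk49) r49_8_9 :=
  op_entryZ E lk49 2 3 _ _ _ _ (pg11 κ) (pg1 ι) m49_8 m49_9 l49_9 z49_9 w49_9 x49_9 (by decide) _ (chkS_sound E lk49 2 3 _ _ _ _ t49_8_9)

def r49_8_10 : List (ℕ × ℤ) := [(6, 48), (7, 48), (38, 48)]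

theorem h49_8_10 (E : Env κ ι) : ip (F49_8 E) (F49_10 E) = dotS (ek E lk49) r49_8_10 :=
  op_entryZ E lk49 2 3 _ _ _ _ (pg11 κ) (pg1 ι) m49_8 m49_10 l49_10 z49_10 w49_10 x49_10 (by decide) _ (chkS_sound E lk49 2 3 _ _ _ _ t49_8_10)

def r49_8_11 : List (ℕ × ℤ) := [(86, 48), (133, 48), (142, 48)]

theorem h49_8_11 (E : Env κ ι) : ip (F49_8 E) (F49_11 E) = dotS (ek E lk49) r49_8_11 :=
  op_entryZ E lk49 2 3 _ _ _ _ (pg11 κ) (pg1 ι) m49_8 m49_11 l49_11 z49_11 w49_11 x49_11 (by decide) _ (chkS_sound E lk49 2 3 _ _ _ _ t49_8_11)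

def r49_9_9 : List (ℕ × ℤ) := [(66, 24), (73, 48), (74, 48), (100, 24)]

theorem h49_9_9 (E : Env κ ι) : ip (F49_9 E) (F49_9 E) = dotS (ek E lk49) r49_9_9 :=
  op_entryZ E lk49 2 3 _ _ _ _ (pg11 κ) (pg1 ι) m49_9 m49_9 l49_9 z49_9 w49_9 x49_9 (by decide) _ (chkS_sound E lk49 2 3 _ _ _ _ t49_9_9)

def r49_9_10 : List (ℕ × ℤ) := [(19, 24), (31, 48), (43, 48), (57, 24)]

theorem h49_9_10 (E : Env κ ι) : ip (F49_9 E) (F49_10 E) = dotS (ek E lk49) r49_9_10 :=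
  op_entryZ E lk49 2 3 _ _ _ _ (pg11 κ) (pg1 ι) m49_9 m49_10 l49_10 z49_10 w49_10 x49_10 (by decide) _ (chkS_sound E lk49 2 3 _ _ _ _ t49_9_10)

def r49_9_11 : List (ℕ × ℤ) := [(14, 24), (153, 24), (155, 48), (161, 48)]

theorem h49_9_11 (E : Env κ ι) : ip (F49_9 E) (F49_11 E) = dotS (ek E lk49) r49_9_11 :=
  op_entryZ E lk49 2 3 _ _ _ _ (pg11 κ) (pg1 ι) m49_9 m49_11 l49_11 z49_11 w49_11 x49_11 (by decide) _ (chkS_sound E lk49 2 3 _ _ _ _ t49_9_11)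

def r49_10_10 : List (ℕ × ℤ) := [(0, 24), (1, 24), (6, 48), (32, 48)]

theorem h49_10_10 (E : Env κ ι) : ip (F49_10 E) (F49_10 E) = dotS (ek E lk49) r49_10_10 :=
  op_entryZ E lk49 2 3 _ _ _ _ (pg11 κ) (pg1 ι) m49_10 m49_10 l49_10 z49_10 w49_10 x49_10 (by decide) _ (chkS_sound E lk49 2 3 _ _ _ _ t49_10_10)

def r49_10_11 : List (ℕ × ℤ) := [(18, 24), (23, 24), (142, 48), (149, 48)]

theorem h49_10_11 (E : Env κ ι) : ip (F49_10 E) (F49_11 E) = dotS (ek E lk49) r49_10_11 :=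
  op_entryZ E lk49 2 3 _ _ _ _ (pg11 κ) (pg1 ι) m49_10 m49_11 l49_11 z49_11 w49_11 x49_11 (by decide) _ (chkS_sound E lk49 2 3 _ _ _ _ t49_10_11)

def r49_11_11 : List (ℕ × ℤ) := [(13, 24), (165, 48), (166, 24), (167, 48)]

theorem h49_11_11 (E : Env κ ι) : ip (F49_11 E) (F49_11 E) = dotS (ek E lk49) r49_11_11 :=
  op_entryZ E lk49 2 3 _ _ _ _ (pg11 κ) (pg1 ι) m49_11 m49_11 l49_11 z49_11 w49_11 x49_11 (by decide) _ (chkS_sound E lk49 2 3 _ _ _ _ t49_11_11)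

theorem row49_0 (E : Env κ ι) : RowG (ek E lk49) (F49_0 E) [F49_0 E, F49_1 E, F49_2 E, F49_3 E, F49_4 E, F49_5 E, F49_6 E, F49_7 E, F49_8 E, F49_9 E, F49_10 E, F49_11 E] [r49_0_0, r49_0_1, r49_0_2, r49_0_3, r49_0_4, r49_0_5, r49_0_6, r49_0_7, r49_0_8, r49_0_9, r49_0_10, r49_0_11] :=
  rowG_cons _ _ _ _ _ _ (h49_0_0 E) (rowG_cons _ _ _ _ _ _ (h49_0_1 E) (rowG_cons _ _ _ _ _ _ (h49_0_2 E) (rowG_cons _ _ _ _ _ _ (h49_0_3 E) (rowG_cons _ _ _ _ _ _ (h49_0_4 E) (rowG_cons _ _ _ _ _ _ (h49_0_5 E) (rowG_cons _ _ _ _ _ _ (h49_0_6 E) (rowG_cons _ _ _ _ _ _ (h49_0_7 E) (rowG_cons _ _ _ _ _ _ (h49_0_8 E) (rowG_cons _ _ _ _ _ _ (h49_0_9 E) (rowG_cons _ _ _ _ _ _ (h49_0_10 E) (rowG_cons _ _ _ _ _ _ (h49_0_11 E) (rowG_nil _ _))))))))))))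

theorem row49_1 (E : Env κ ι) : RowG (ek E lk49) (F49_1 E) [F49_1 E, F49_2 E, F49_3 E, F49_4 E, F49_5 E, F49_6 E, F49_7 E, F49_8 E, F49_9 E, F49_10 E, F49_11 E] [r49_1_1, r49_1_2, r49_1_3, r49_1_4, r49_1_5, r49_1_6, r49_1_7, r49_1_8, r49_1_9, r49_1_10, r49_1_11] :=
  rowG_cons _ _ _ _ _ _ (h49_1_1 E) (rowG_cons _ _ _ _ _ _ (h49_1_2 E) (rowG_cons _ _ _ _ _ _ (h49_1_3 E) (rowG_cons _ _ _ _ _ _ (h49_1_4 E) (rowG_cons _ _ _ _ _ _ (h49_1_5 E) (rowG_cons _ _ _ _ _ _ (h49_1_6 E) (rowG_cons _ _ _ _ _ _ (h49_1_7 E) (rowG_cons _ _ _ _ _ _ (h49_1_8 E) (rowG_cons _ _ _ _ _ _ (h49_1_9 E) (rowG_cons _ _ _ _ _ _ (h49_1_10 E) (rowG_cons _ _ _ _ _ _ (h49_1_11 E) (rowG_nil _ _)))))))))))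

theorem row49_2 (E : Env κ ι) : RowG (ek E lk49) (F49_2 E) [F49_2 E, F49_3 E, F49_4 E, F49_5 E, F49_6 E, F49_7 E, F49_8 E, F49_9 E, F49_10 E, F49_11 E] [r49_2_2, r49_2_3, r49_2_4, r49_2_5, r49_2_6, r49_2_7, r49_2_8, r49_2_9, r49_2_10, r49_2_11] :=
  rowG_cons _ _ _ _ _ _ (h49_2_2 E) (rowG_cons _ _ _ _ _ _ (h49_2_3 E) (rowG_cons _ _ _ _ _ _ (h49_2_4 E) (rowG_cons _ _ _ _ _ _ (h49_2_5 E) (rowG_cons _ _ _ _ _ _ (h49_2_6 E) (rowG_cons _ _ _ _ _ _ (h49_2_7 E) (rowG_cons _ _ _ _ _ _ (h49_2_8 E) (rowG_cons _ _ _ _ _ _ (h49_2_9 E) (rowG_cons _ _ _ _ _ _ (h49_2_10 E) (rowG_cons _ _ _ _ _ _ (h49_2_11 E) (rowG_nil _ _))))))))))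

theorem row49_3 (E : Env κ ι) : RowG (ek E lk49) (F49_3 E) [F49_3 E, F49_4 E, F49_5 E, F49_6 E, F49_7 E, F49_8 E, F49_9 E, F49_10 E, F49_11 E] [r49_3_3, r49_3_4, r49_3_5, r49_3_6, r49_3_7, r49_3_8, r49_3_9, r49_3_10, r49_3_11] :=
  rowG_cons _ _ _ _ _ _ (h49_3_3 E) (rowG_cons _ _ _ _ _ _ (h49_3_4 E) (rowG_cons _ _ _ _ _ _ (h49_3_5 E) (rowG_cons _ _ _ _ _ _ (h49_3_6 E) (rowG_cons _ _ _ _ _ _ (h49_3_7 E) (rowG_cons _ _ _ _ _ _ (h49_3_8 E) (rowG_cons _ _ _ _ _ _ (h49_3_9 E) (rowG_cons _ _ _ _ _ _ (h49_3_10 E) (rowG_cons _ _ _ _ _ _ (h49_3_11 E) (rowG_nil _ _)))))))))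

theorem row49_4 (E : Env κ ι) : RowG (ek E lk49) (F49_4 E) [F49_4 E, F49_5 E, F49_6 E, F49_7 E, F49_8 E, F49_9 E, F49_10 E, F49_11 E] [r49_4_4, r49_4_5, r49_4_6, r49_4_7, r49_4_8, r49_4_9, r49_4_10, r49_4_11] :=
  rowG_cons _ _ _ _ _ _ (h49_4_4 E) (rowG_cons _ _ _ _ _ _ (h49_4_5 E) (rowG_cons _ _ _ _ _ _ (h49_4_6 E) (rowG_cons _ _ _ _ _ _ (h49_4_7 E) (rowG_cons _ _ _ _ _ _ (h49_4_8 E) (rowG_cons _ _ _ _ _ _ (h49_4_9 E) (rowG_cons _ _ _ _ _ _ (h49_4_10 E) (rowG_cons _ _ _ _ _ _ (h49_4_11 E) (rowG_nil _ _))))))))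

theorem row49_5 (E : Env κ ι) : RowG (ek E lk49) (F49_5 E) [F49_5 E, F49_6 E, F49_7 E, F49_8 E, F49_9 E, F49_10 E, F49_11 E] [r49_5_5, r49_5_6, r49_5_7, r49_5_8, r49_5_9, r49_5_10, r49_5_11] :=
  rowG_cons _ _ _ _ _ _ (h49_5_5 E) (rowG_cons _ _ _ _ _ _ (h49_5_6 E) (rowG_cons _ _ _ _ _ _ (h49_5_7 E) (rowG_cons _ _ _ _ _ _ (h49_5_8 E) (rowG_cons _ _ _ _ _ _ (h49_5_9 E) (rowG_cons _ _ _ _ _ _ (h49_5_10 E) (rowG_cons _ _ _ _ _ _ (h49_5_11 E) (rowG_nil _ _)))))))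

theorem row49_6 (E : Env κ ι) : RowG (ek E lk49) (F49_6 E) [F49_6 E, F49_7 E, F49_8 E, F49_9 E, F49_10 E, F49_11 E] [r49_6_6, r49_6_7, r49_6_8, r49_6_9, r49_6_10, r49_6_11] :=
  rowG_cons _ _ _ _ _ _ (h49_6_6 E) (rowG_cons _ _ _ _ _ _ (h49_6_7 E) (rowG_cons _ _ _ _ _ _ (h49_6_8 E) (rowG_cons _ _ _ _ _ _ (h49_6_9 E) (rowG_cons _ _ _ _ _ _ (h49_6_10 E) (rowG_cons _ _ _ _ _ _ (h49_6_11 E) (rowG_nil _ _))))))

theorem row49_7 (E : Env κ ι) : RowG (ek E lk49) (F49_7 E) [F49_7 E, F49_8 E, F49_9 E, F49_10 E, F49_11 E] [r49_7_7, r49_7_8, r49_7_9, r49_7_10, r49_7_11] :=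
  rowG_cons _ _ _ _ _ _ (h49_7_7 E) (rowG_cons _ _ _ _ _ _ (h49_7_8 E) (rowG_cons _ _ _ _ _ _ (h49_7_9 E) (rowG_cons _ _ _ _ _ _ (h49_7_10 E) (rowG_cons _ _ _ _ _ _ (h49_7_11 E) (rowG_nil _ _)))))

theorem row49_8 (E : Env κ ι) : RowG (ek E lk49) (F49_8 E) [F49_8 E, F49_9 E, F49_10 E, F49_11 E] [r49_8_8, r49_8_9, r49_8_10, r49_8_11] :=
  rowG_cons _ _ _ _ _ _ (h49_8_8 E) (rowG_cons _ _ _ _ _ _ (h49_8_9 E) (rowG_cons _ _ _ _ _ _ (h49_8_10 E) (rowG_cons _ _ _ _ _ _ (h49_8_11 E) (rowG_nil _ _))))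

theorem row49_9 (E : Env κ ι) : RowG (ek E lk49) (F49_9 E) [F49_9 E, F49_10 E, F49_11 E] [r49_9_9, r49_9_10, r49_9_11] :=
  rowG_cons _ _ _ _ _ _ (h49_9_9 E) (rowG_cons _ _ _ _ _ _ (h49_9_10 E) (rowG_cons _ _ _ _ _ _ (h49_9_11 E) (rowG_nil _ _)))

theorem row49_10 (E : Env κ ι) : RowG (ek E lk49) (F49_10 E) [F49_10 E, F49_11 E] [r49_10_10, r49_10_11] :=
  rowG_cons _ _ _ _ _ _ (h49_10_10 E) (rowG_cons _ _ _ _ _ _ (h49_10_11 E) (rowG_nil _ _))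

theorem row49_11 (E : Env κ ι) : RowG (ek E lk49) (F49_11 E) [F49_11 E] [r49_11_11] :=
  rowG_cons _ _ _ _ _ _ (h49_11_11 E) (rowG_nil _ _)

def tab49 : List (List (List (ℕ × ℤ))) := [[r49_0_0, r49_0_1, r49_0_2, r49_0_3, r49_0_4, r49_0_5, r49_0_6, r49_0_7, r49_0_8, r49_0_9, r49_0_10, r49_0_11], [r49_1_1, r49_1_2, r49_1_3, r49_1_4, r49_1_5, r49_1_6, r49_1_7, r49_1_8, r49_1_9, r49_1_10, r49_1_11], [r49_2_2, r49_2_3, r49_2_4, r49_2_5, r49_2_6, r49_2_7, r49_2_8, r49_2_9, r49_2_10, r49_2_11], [r49_3_3, r49_3_4, r49_3_5, r49_3_6, r49_3_7, r49_3_8, r49_3_9, r49_3_10, r49_3_11], [r49_4_4, r49_4_5, r49_4_6, r49_4_7, r49_4_8, r49_4_9, r49_4_10, r49_4_11], [r49_5_5, r49_5_6, r49_5_7, r49_5_8, r49_5_9, r49_5_10, r49_5_11], [r49_6_6, r49_6_7, r49_6_8, r49_6_9, r49_6_10, r49_6_11], [r49_7_7, r49_7_8, r49_7_9, r49_7_10, r49_7_11], [r49_8_8, r49_8_9, r49_8_10, r49_8_11], [r49_9_9,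 r49_9_10, r49_9_11], [r49_10_10, r49_10_11], [r49_11_11]]

theorem tri49 (E : Env κ ι) : TriG (ek E lk49) [F49_0 E, F49_1 E, F49_2 E, F49_3 E, F49_4 E, F49_5 E, F49_6 E, F49_7 E, F49_8 E, F49_9 E, F49_10 E, F49_11 E] tab49 := by
  refine triG_cons _ _ _ _ _ (row49_0 E) ?_
  refine triG_cons _ _ _ _ _ (row49_1 E) ?_
  refine triG_cons _ _ _ _ _ (row49_2 E) ?_
  refine triG_cons _ _ _ _ _ (row49_3 E) ?_
  refine triG_cons _ _ _ _ _ (row49_4 E) ?_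
  refine triG_cons _ _ _ _ _ (row49_5 E) ?_
  refine triG_cons _ _ _ _ _ (row49_6 E) ?_
  refine triG_cons _ _ _ _ _ (row49_7 E) ?_
  refine triG_cons _ _ _ _ _ (row49_8 E) ?_
  refine triG_cons _ _ _ _ _ (row49_9 E) ?_
  refine triG_cons _ _ _ _ _ (row49_10 E) ?_
  refine triG_cons _ _ _ _ _ (row49_11 E) ?_
  exact triG_nil _

end

def lk50 : List Key := [
  (2, 5, [(0, [0], [0, 1]), (0, [0], [0, 1]), (0, [1], [2, 3]), (0, [1], [2, 4]), (4, [], [4]), (4, [], [3])]),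
  (2, 5, [(0, [0], [0, 1]), (0, [1], [0, 2]), (0, [1], [3, 4]), (0, [0], [3, 4]), (4, [], [2]), (4, [], [1])]),
  (2, 7, [(0, [0], [0, 1]), (0, [1], [0, 2]), (0, [1], [3, 4]), (0, [0], [5, 6]), (1, [], [5, 6]), (1, [], [3, 4]), (4, [], [2]), (4, [], [1])]),
  (2, 6, [(0, [0], [0, 1]), (0, [0], [2, 3]), (0, [1], [4, 5]), (1, [], [2, 3]), (2, [1], [0, 4, 5]), (4, [], [1])]),
  (2, 7, [(0, [0], [0, 1]), (0, [0], [0, 1]), (0, [1], [2, 3]), (0, [1], [4, 5]), (1, [], [2, 6]), (1, [], [4, 5]), (4, [], [3]), (4, [], [6])]),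
  (2, 5, [(0, [0], [0, 1]), (0, [1], [0, 2]), (0, [1], [2, 3]), (0, [0], [1, 4]), (4, [], [4]), (4, [], [3])]),
  (2, 6, [(0, [0], [0, 1]), (0, [0], [2, 3]), (0, [1], [4, 5]), (1, [], [4, 5]), (2, [1], [0, 2, 3]), (4, [], [1])]),
  (2, 7, [(0, [0], [0, 1]), (0, [0], [2, 3]), (0, [1], [4, 5]), (0, [1], [4, 6]), (1, [], [0, 5]), (1, [], [2, 3]), (4, [], [1]), (4, [], [6])]),
  (2, 6, [(0, [0], [0, 1]), (0, [0], [2, 3]), (0, [1], [4, 5]), (1, [], [0, 4]), (2, [1], [1, 2, 3]), (4, [], [5])]),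
  (2, 7, [(0, [0], [0, 1]), (0, [1], [0, 2]), (0, [0], [3, 4]), (0, [1], [5, 6]), (1, [], [1, 3]), (1, [], [5, 6]), (4, [], [2]), (4, [], [4])]),
  (2, 7, [(0, [0], [0, 1]), (0, [0], [2, 3]), (0, [1], [0, 4]), (0, [1], [4, 5]), (1, [], [1, 6]), (1, [], [2, 3]), (4, [], [5]), (4, [], [6])]),
  (2, 5, [(0, [0], [0, 1]), (0, [1], [0, 2]), (2, [0], [2, 3, 4]), (2, [1], [1, 3, 4])]),
  (2, 6, [(0, [0], [0, 1]), (0, [0], [2, 3]), (0, [1], [0, 4]), (1, [], [4, 5]), (2, [1], [1, 2, 3]), (4, [], [5])]),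
  (2, 6, [(0, [0], [0, 1]), (0, [0], [2, 3]), (0, [1], [0, 2]), (1, [], [4, 5]), (2, [1], [1, 4, 5]), (4, [], [3])]),
  (2, 7, [(0, [0], [0, 1]), (0, [1], [0, 2]), (0, [1], [1, 3]), (0, [0], [4, 5]), (1, [], [2, 6]), (1, [], [4, 5]), (4, [], [3]), (4, [], [6])]),
  (2, 7, [(0, [0], [0, 1]), (0, [1], [0, 2]), (0, [0], [2, 3]), (0, [1], [1, 4]), (4, [], [4]), (4, [], [3]), (1, [], [5, 6]), (1, [], [5, 6])]),
  (2, 5, [(0, [0], [0, 1]), (0, [0], [0, 2]), (0, [1], [3, 4]), (2, [1], [1, 3, 4]), (4, [], [2])]),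
  (2, 6, [(0, [0], [0, 1]), (0, [0], [0, 1]), (0, [1], [2, 3]), (0, [1], [2, 4]), (1, [], [3, 5]), (4, [], [4]), (4, [], [5])]),
  (2, 6, [(0, [0], [0, 1]), (0, [0], [2, 3]), (0, [1], [0, 4]), (0, [1], [4, 5]), (1, [], [2, 3]), (4, [], [1]), (4, [], [5])]),
  (2, 6, [(0, [0], [0, 1]), (0, [0], [0, 1]), (0, [1], [2, 3]), (0, [1], [4, 5]), (1, [], [4, 5]), (4, [], [2]), (4, [], [3])]),
  (2, 6, [(0, [0], [0, 1]), (0, [0], [0, 1]), (0, [1], [2, 3]), (0, [1], [4, 5]), (1, [], [2, 4]), (4, [], [5]), (4, [], [3])]),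
  (2, 5, [(0, [0], [0, 1]), (0, [0], [2, 3]), (0, [1], [0, 4]), (2, [1], [1, 2, 3]), (4, [], [4])]),
  (2, 6, [(0, [0], [0, 1]), (0, [1], [0, 2]), (0, [1], [1, 3]), (0, [0], [4, 5]), (1, [], [4, 5]), (4, [], [3]), (4, [], [2])]),
  (2, 6, [(0, [0], [0, 1]), (0, [1], [0, 2]), (0, [1], [1, 3]), (0, [0], [4, 5]), (1, [], [2, 4]), (4, [], [3]), (4, [], [5])]),
  (2, 6, [(0, [0], [0, 1]), (0, [0], [2, 3]), (0, [1], [0, 4]), (0, [1], [4, 5]), (1, [], [2, 5]), (4, [], [1]), (4, [], [3])]),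
  (2, 6, [(0, [0], [0, 1]), (0, [0], [2, 3]), (0, [1], [2, 4]), (0, [1], [0, 5]), (1, [], [1, 3]), (4, [], [5]), (4, [], [4])]),
  (2, 6, [(0, [0], [0, 1]), (0, [0], [2, 3]), (0, [1], [0, 4]), (0, [1], [4, 5]), (1, [], [1, 2]), (4, [], [3]), (4, [], [5])]),
  (2, 6, [(0, [0], [0, 1]), (0, [0], [2, 3]), (0, [1], [0, 4]), (0, [1], [2, 4]), (1, [], [1, 5]), (4, [], [3]), (4, [], [5])]),
  (2, 5, [(0, [0], [0, 1]), (0, [0], [2, 3]), (0, [1], [2, 4]), (0, [1], [0, 4]), (4, [], [3]), (4, [], [1])]),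
  (2, 7, [(0, [0], [0, 1]), (0, [0], [0, 2]), (0, [1], [3, 2]), (4, [], [1]), (0, [1], [4, 5]), (1, [], [4, 6]), (1, [], [5, 6]), (4, [], [3])]),
  (2, 7, [(0, [0], [0, 1]), (0, [0], [0, 2]), (0, [1], [3, 2]), (4, [], [1]), (0, [1], [4, 5]), (1, [], [4, 6]), (1, [], [3, 6]), (4, [], [5])]),
  (2, 7, [(0, [0], [0, 1]), (0, [0], [0, 2]), (0, [1], [3, 2]), (4, [], [1]), (0, [1], [4, 5]), (1, [], [4, 6]), (1, [], [3, 5]), (4, [], [6])]),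
  (2, 6, [(0, [0], [0, 1]), (0, [0], [0, 2]), (0, [1], [3, 2]), (4, [], [1]), (0, [1], [3, 4]), (1, [], [4, 5]), (4, [], [5])]),
  (2, 7, [(0, [0], [0, 1]), (0, [0], [0, 1]), (0, [1], [2, 3]), (4, [], [3]), (0, [1], [4, 5]), (1, [], [4, 6]), (1, [], [2, 6]), (4, [], [5])]),
  (2, 7, [(0, [0], [0, 1]), (0, [0], [0, 1]), (0, [1], [2, 3]), (4, [], [3]), (0, [1], [4, 5]), (1, [], [4, 6]), (1, [], [2, 5]), (4, [], [6])]),
  (2, 7, [(0, [0], [0, 1]), (0, [0], [2, 3]), (0, [1], [0, 3]), (4, [], [1]), (0, [1], [4, 5]), (1, [], [4, 6]), (1, [], [5, 6]), (4, [], [2])]),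
  (2, 7, [(0, [0], [0, 1]), (0, [0], [2, 3]), (0, [1], [0, 3]), (4, [], [1]), (0, [1], [4, 5]), (1, [], [4, 6]), (1, [], [2, 6]), (4, [], [5])]),
  (2, 7, [(0, [0], [0, 1]), (0, [0], [2, 3]), (0, [1], [0, 3]), (4, [], [1]), (0, [1], [4, 5]), (1, [], [4, 6]), (1, [], [2, 5]), (4, [], [6])]),
  (2, 7, [(0, [0], [0, 1]), (0, [0], [2, 3]), (0, [1], [0, 3]), (4, [], [1]), (0, [1], [2, 4]), (1, [], [5, 6]), (1, [], [4, 5]), (4, [], [6])]),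
  (2, 7, [(0, [0], [0, 1]), (0, [0], [2, 3]), (0, [1], [0, 1]), (4, [], [3]), (0, [1], [4, 5]), (1, [], [4, 6]), (1, [], [2, 6]), (4, [], [5])]),
  (2, 7, [(0, [0], [0, 1]), (0, [0], [2, 3]), (0, [1], [0, 1]), (4, [], [3]), (0, [1], [4, 5]), (1, [], [4, 6]), (1, [], [2, 5]), (4, [], [6])]),
  (2, 7, [(0, [0], [0, 1]), (0, [0], [2, 3]), (0, [1], [0, 1]), (4, [], [3]), (0, [1], [4, 5]), (1, [], [4, 5]), (1, [], [2, 6]), (4, [], [6])]),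
  (2, 6, [(0, [0], [0, 1]), (0, [0], [2, 3]), (0, [1], [0, 1]), (4, [], [3]), (0, [1], [4, 5]), (1, [], [4, 5]), (4, [], [2])]),
  (2, 6, [(0, [0], [0, 1]), (0, [0], [2, 3]), (0, [1], [0, 1]), (4, [], [3]), (0, [1], [4, 5]), (1, [], [2, 4]), (4, [], [5])]),
  (2, 6, [(0, [0], [0, 1]), (0, [0], [2, 3]), (0, [1], [0, 1]), (4, [], [3]), (0, [1], [2, 4]), (1, [], [4, 5]), (4, [], [5])]),
  (2, 7, [(0, [0], [0, 1]), (0, [0], [2, 0]), (0, [1], [1, 3]), (4, [], [3]), (0, [1], [4, 5]), (1, [], [4, 6]), (1, [], [2, 6]), (4, [], [5])]),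
  (2, 7, [(0, [0], [0, 1]), (0, [0], [2, 0]), (0, [1], [1, 3]), (4, [], [3]), (0, [1], [4, 5]), (1, [], [4, 6]), (1, [], [2, 5]), (4, [], [6])]),
  (2, 7, [(0, [0], [0, 1]), (0, [0], [2, 0]), (0, [1], [1, 3]), (4, [], [3]), (0, [1], [4, 5]), (1, [], [4, 5]), (1, [], [2, 6]), (4, [], [6])]),
  (2, 7, [(0, [0], [0, 1]), (0, [0], [2, 0]), (0, [1], [1, 3]), (4, [], [3]), (0, [1], [2, 4]), (1, [], [5, 6]), (1, [], [5, 6]), (4, [], [4])]),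
  (2, 7, [(0, [0], [0, 1]), (0, [0], [2, 0]), (0, [1], [1, 3]), (4, [], [3]), (0, [1], [2, 4]), (1, [], [5, 6]), (1, [], [4, 5]), (4, [], [6])]),
  (2, 6, [(0, [0], [0, 1]), (0, [0], [2, 0]), (0, [1], [1, 3]), (4, [], [3]), (1, [], [4, 5]), (2, [1], [2, 4, 5])]),
  (2, 7, [(0, [0], [0, 1]), (0, [0], [0, 1]), (0, [1], [2, 3]), (4, [], [4]), (0, [1], [5, 6]), (1, [], [5, 6]), (1, [], [2, 3]), (4, [], [4])]),
  (2, 7, [(0, [0], [0, 1]), (0, [0], [0, 1]), (0, [1], [2, 3]), (4, [], [4]), (0, [1], [2, 5]), (1, [], [5, 6]), (1, [], [3, 4]), (4, [], [6])]),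
  (2, 7, [(0, [0], [0, 1]), (0, [0], [2, 0]), (0, [1], [3, 1]), (4, [], [4]), (0, [1], [5, 6]), (1, [], [5, 6]), (1, [], [2, 3]), (4, [], [4])]),
  (2, 7, [(0, [0], [0, 1]), (0, [0], [2, 0]), (0, [1], [3, 1]), (4, [], [4]), (0, [1], [5, 6]), (1, [], [2, 5]), (1, [], [3, 4]), (4, [], [6])]),
  (2, 7, [(0, [0], [0, 1]), (0, [0], [2, 0]), (0, [1], [3, 1]), (4, [], [4]), (0, [1], [5, 6]), (1, [], [3, 5]), (1, [], [2, 4]), (4, [], [6])]),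
  (2, 7, [(0, [0], [0, 1]), (0, [0], [2, 0]), (0, [1], [3, 1]), (4, [], [4]), (0, [1], [5, 6]), (1, [], [4, 5]), (1, [], [2, 3]), (4, [], [6])]),
  (2, 7, [(0, [0], [0, 1]), (0, [0], [2, 0]), (0, [1], [3, 1]), (4, [], [4]), (0, [1], [2, 5]), (1, [], [5, 6]), (1, [], [3, 6]), (4, [], [4])]),
  (2, 7, [(0, [0], [0, 1]), (0, [0], [2, 0]), (0, [1], [3, 1]), (4, [], [4]), (0, [1], [2, 5]), (1, [], [5, 6]), (1, [], [3, 4]), (4, [], [6])]),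
  (2, 7, [(0, [0], [0, 1]), (0, [0], [2, 0]), (0, [1], [3, 1]), (4, [], [4]), (0, [1], [3, 5]), (1, [], [5, 6]), (1, [], [2, 4]), (4, [], [6])]),
  (2, 7, [(0, [0], [0, 1]), (0, [0], [2, 0]), (0, [1], [3, 1]), (4, [], [4]), (0, [1], [4, 5]), (1, [], [2, 6]), (1, [], [3, 6]), (4, [], [5])]),
  (2, 6, [(0, [0], [0, 1]), (0, [0], [2, 0]), (0, [1], [3, 1]), (4, [], [4]), (0, [1], [4, 5]), (1, [], [2, 3]), (4, [], [5])]),
  (2, 6, [(0, [0], [0, 1]), (0, [0], [2, 0]), (0, [1], [3, 1]), (4, [], [4]), (1, [], [3, 5]), (2, [1], [2, 4, 5])]),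
  (2, 7, [(0, [0], [0, 1]), (0, [0], [2, 0]), (0, [1], [3, 4]), (4, [], [1]), (0, [1], [5, 6]), (1, [], [5, 6]), (1, [], [3, 4]), (4, [], [2])]),
  (2, 7, [(0, [0], [0, 1]), (0, [0], [2, 0]), (0, [1], [3, 4]), (4, [], [1]), (0, [1], [5, 6]), (1, [], [2, 5]), (1, [], [3, 6]), (4, [], [4])]),
  (2, 7, [(0, [0], [0, 1]), (0, [0], [2, 0]), (0, [1], [3, 4]), (4, [], [1]), (0, [1], [5, 6]), (1, [], [3, 5]), (1, [], [4, 6]), (4, [], [2])]),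
  (2, 7, [(0, [0], [0, 1]), (0, [0], [2, 0]), (0, [1], [3, 4]), (4, [], [1]), (0, [1], [3, 5]), (1, [], [5, 6]), (1, [], [2, 6]), (4, [], [4])]),
  (2, 7, [(0, [0], [0, 1]), (0, [0], [2, 0]), (0, [1], [3, 4]), (4, [], [1]), (0, [1], [3, 5]), (1, [], [5, 6]), (1, [], [4, 6]), (4, [], [2])]),
  (2, 7, [(0, [0], [0, 1]), (0, [0], [2, 0]), (0, [1], [3, 4]), (4, [], [1]), (0, [1], [3, 5]), (1, [], [5, 6]), (1, [], [2, 4]), (4, [], [6])]),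
  (2, 7, [(0, [0], [0, 1]), (0, [0], [2, 0]), (0, [1], [3, 4]), (4, [], [1]), (0, [1], [3, 5]), (1, [], [2, 6]), (1, [], [4, 5]), (4, [], [6])]),
  (2, 6, [(0, [0], [0, 1]), (0, [0], [2, 0]), (0, [1], [3, 4]), (4, [], [1]), (0, [1], [3, 5]), (1, [], [2, 5]), (4, [], [4])]),
  (2, 6, [(0, [0], [0, 1]), (0, [0], [2, 0]), (0, [1], [3, 4]), (4, [], [1]), (0, [1], [3, 5]), (1, [], [4, 5]), (4, [], [2])]),
  (2, 6, [(0, [0], [0, 1]), (0, [0], [2, 0]), (0, [1], [3, 4]), (4, [], [1]), (1, [], [3, 5]), (2, [1], [2, 4, 5])]),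
  (2, 7, [(0, [0], [0, 1]), (0, [0], [2, 3]), (0, [1], [0, 1]), (4, [], [4]), (0, [1], [5, 6]), (1, [], [5, 6]), (1, [], [2, 3]), (4, [], [4])]),
  (2, 7, [(0, [0], [0, 1]), (0, [0], [2, 3]), (0, [1], [0, 1]), (4, [], [4]), (0, [1], [2, 5]), (1, [], [5, 6]), (1, [], [3, 4]), (4, [], [6])]),
  (2, 7, [(0, [0], [0, 1]), (0, [0], [2, 3]), (0, [1], [4, 0]), (4, [], [1]), (0, [1], [5, 6]), (1, [], [5, 6]), (1, [], [2, 4]), (4, [], [3])]),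
  (2, 7, [(0, [0], [0, 1]), (0, [0], [2, 3]), (0, [1], [4, 0]), (4, [], [1]), (0, [1], [5, 6]), (1, [], [2, 5]), (1, [], [3, 6]), (4, [], [4])]),
  (2, 7, [(0, [0], [0, 1]), (0, [0], [2, 3]), (0, [1], [4, 0]), (4, [], [1]), (0, [1], [5, 6]), (1, [], [2, 5]), (1, [], [4, 6]), (4, [], [3])]),
  (2, 7, [(0, [0], [0, 1]), (0, [0], [2, 3]), (0, [1], [4, 0]), (4, [], [1]), (0, [1], [5, 6]), (1, [], [2, 5]), (1, [], [3, 4]), (4, [], [6])]),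
  (2, 7, [(0, [0], [0, 1]), (0, [0], [2, 3]), (0, [1], [4, 0]), (4, [], [1]), (0, [1], [2, 5]), (1, [], [5, 6]), (1, [], [3, 6]), (4, [], [4])]),
  (2, 7, [(0, [0], [0, 1]), (0, [0], [2, 3]), (0, [1], [4, 0]), (4, [], [1]), (0, [1], [2, 5]), (1, [], [5, 6]), (1, [], [4, 6]), (4, [], [3])]),
  (2, 7, [(0, [0], [0, 1]), (0, [0], [2, 3]), (0, [1], [4, 0]), (4, [], [1]), (0, [1], [2, 5]), (1, [], [5, 6]), (1, [], [3, 4]), (4, [], [6])]),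
  (2, 7, [(0, [0], [0, 1]), (0, [0], [2, 3]), (0, [1], [4, 0]), (4, [], [1]), (0, [1], [2, 5]), (1, [], [3, 6]), (1, [], [4, 6]), (4, [], [5])]),
  (2, 7, [(0, [0], [0, 1]), (0, [0], [2, 3]), (0, [1], [4, 0]), (4, [], [1]), (0, [1], [2, 5]), (1, [], [3, 6]), (1, [], [4, 5]), (4, [], [6])]),
  (2, 7, [(0, [0], [0, 1]), (0, [0], [2, 3]), (0, [1], [4, 0]), (4, [], [1]), (0, [1], [2, 5]), (1, [], [4, 6]), (1, [], [3, 5]), (4, [], [6])]),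
  (2, 6, [(0, [0], [0, 1]), (0, [0], [2, 3]), (0, [1], [4, 0]), (4, [], [1]), (0, [1], [2, 5]), (1, [], [3, 5]), (4, [], [4])]),
  (2, 6, [(0, [0], [0, 1]), (0, [0], [2, 3]), (0, [1], [4, 0]), (4, [], [1]), (1, [], [2, 5]), (2, [1], [3, 4, 5])]),
  (2, 7, [(0, [0], [0, 1]), (0, [0], [2, 3]), (0, [1], [1, 3]), (4, [], [4]), (0, [1], [5, 6]), (1, [], [5, 6]), (1, [], [0, 2]), (4, [], [4])]),
  (2, 7, [(0, [0], [0, 1]), (0, [0], [2, 3]), (0, [1], [1, 3]), (4, [], [4]), (0, [1], [5, 6]), (1, [], [0, 5]), (1, [], [2, 4]), (4, [], [6])]),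
  (2, 7, [(0, [0], [0, 1]), (0, [0], [2, 3]), (0, [1], [1, 3]), (4, [], [4]), (0, [1], [5, 6]), (1, [], [4, 5]), (1, [], [0, 2]), (4, [], [6])]),
  (2, 7, [(0, [0], [0, 1]), (0, [0], [2, 3]), (0, [1], [1, 3]), (4, [], [4]), (0, [1], [0, 5]), (1, [], [5, 6]), (1, [], [2, 6]), (4, [], [4])]),
  (2, 7, [(0, [0], [0, 1]), (0, [0], [2, 3]), (0, [1], [1, 3]), (4, [], [4]), (0, [1], [0, 5]), (1, [], [5, 6]), (1, [], [2, 4]), (4, [], [6])]),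
  (2, 7, [(0, [0], [0, 1]), (0, [0], [2, 3]), (0, [1], [1, 3]), (4, [], [4]), (0, [1], [4, 5]), (1, [], [0, 6]), (1, [], [2, 6]), (4, [], [5])]),
  (2, 6, [(0, [0], [0, 1]), (0, [0], [2, 3]), (0, [1], [1, 3]), (4, [], [4]), (0, [1], [4, 5]), (1, [], [0, 2]), (4, [], [5])]),
  (2, 6, [(0, [0], [0, 1]), (0, [0], [2, 3]), (0, [1], [1, 3]), (4, [], [4]), (1, [], [0, 5]), (2, [1], [2, 4, 5])]),
  (2, 7, [(0, [0], [0, 1]), (0, [0], [2, 3]), (0, [1], [4, 3]), (4, [], [1]), (0, [1], [5, 6]), (1, [], [5, 6]), (1, [], [2, 4]), (4, [], [0])]),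
  (2, 7, [(0, [0], [0, 1]), (0, [0], [2, 3]), (0, [1], [4, 3]), (4, [], [1]), (0, [1], [5, 6]), (1, [], [2, 5]), (1, [], [4, 6]), (4, [], [0])]),
  (2, 7, [(0, [0], [0, 1]), (0, [0], [2, 3]), (0, [1], [4, 3]), (4, [], [1]), (0, [1], [5, 6]), (1, [], [0, 5]), (1, [], [2, 4]), (4, [], [6])]),
  (2, 7, [(0, [0], [0, 1]), (0, [0], [2, 3]), (0, [1], [4, 3]), (4, [], [1]), (0, [1], [5, 6]), (1, [], [2, 5]), (1, [], [0, 4]), (4, [], [6])]),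
  (2, 7, [(0, [0], [0, 1]), (0, [0], [2, 3]), (0, [1], [4, 3]), (4, [], [1]), (0, [1], [5, 6]), (1, [], [4, 5]), (1, [], [0, 2]), (4, [], [6])]),
  (2, 6, [(0, [0], [0, 1]), (0, [0], [2, 3]), (0, [1], [4, 3]), (4, [], [1]), (1, [], [0, 5]), (2, [1], [2, 4, 5])]),
  (2, 6, [(0, [0], [0, 1]), (0, [0], [2, 3]), (0, [1], [4, 3]), (4, [], [1]), (1, [], [2, 5]), (2, [1], [0, 4, 5])]),
  (2, 6, [(0, [0], [0, 1]), (0, [0], [2, 3]), (0, [1], [4, 3]), (4, [], [1]), (1, [], [4, 5]), (2, [1], [0, 2, 5])]),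
  (2, 5, [(0, [0], [0, 1]), (0, [0], [2, 3]), (0, [1], [4, 3]), (4, [], [1]), (2, [1], [0, 2, 4])]),
  (2, 7, [(0, [0], [0, 1]), (0, [0], [2, 1]), (0, [1], [3, 4]), (4, [], [4]), (0, [1], [5, 6]), (1, [], [5, 6]), (1, [], [0, 2]), (4, [], [3])]),
  (2, 7, [(0, [0], [0, 1]), (0, [0], [2, 1]), (0, [1], [3, 4]), (4, [], [4]), (0, [1], [5, 6]), (1, [], [0, 5]), (1, [], [2, 3]), (4, [], [6])]),
  (2, 7, [(0, [0], [0, 1]), (0, [0], [2, 1]), (0, [1], [3, 4]), (4, [], [4]), (0, [1], [5, 6]), (1, [], [3, 5]), (1, [], [0, 2]), (4, [], [6])]),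
  (2, 6, [(0, [0], [0, 1]), (0, [0], [2, 1]), (0, [1], [3, 4]), (4, [], [4]), (1, [], [0, 5]), (2, [1], [2, 3, 5])]),
  (2, 6, [(0, [0], [0, 1]), (0, [0], [2, 1]), (0, [1], [3, 4]), (4, [], [4]), (1, [], [3, 5]), (2, [1], [0, 2, 5])]),
  (2, 5, [(0, [0], [0, 1]), (0, [0], [2, 1]), (0, [1], [3, 4]), (4, [], [4]), (2, [1], [0, 2, 3])]),
  (2, 6, [(0, [0], [0, 1]), (0, [0], [2, 3]), (0, [1], [1, 4]), (4, [], [4]), (1, [], [2, 5]), (2, [1], [0, 3, 5])]),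
  (2, 6, [(0, [0], [0, 1]), (0, [0], [2, 1]), (0, [1], [3, 4]), (4, [], [5]), (1, [], [0, 5]), (2, [1], [2, 3, 4])]),
  (2, 6, [(0, [0], [0, 1]), (0, [0], [2, 1]), (0, [1], [3, 4]), (4, [], [5]), (1, [], [3, 4]), (2, [1], [0, 2, 5])]),
  (2, 6, [(0, [0], [0, 1]), (0, [0], [2, 1]), (0, [1], [3, 4]), (4, [], [5]), (1, [], [3, 5]), (2, [1], [0, 2, 4])]),
  (2, 7, [(0, [0], [0, 1]), (0, [0], [2, 3]), (0, [1], [4, 1]), (4, [], [5]), (0, [1], [2, 6]), (1, [], [0, 6]), (1, [], [3, 4]), (4, [], [5])]),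
  (2, 7, [(0, [0], [0, 1]), (0, [0], [2, 3]), (0, [1], [4, 1]), (4, [], [5]), (0, [1], [2, 6]), (1, [], [4, 6]), (1, [], [0, 3]), (4, [], [5])]),
  (2, 6, [(0, [0], [0, 1]), (0, [0], [2, 3]), (0, [1], [4, 1]), (4, [], [5]), (1, [], [0, 2]), (2, [1], [3, 4, 5])]),
  (2, 6, [(0, [0], [0, 1]), (0, [0], [2, 3]), (0, [1], [4, 1]), (4, [], [5]), (1, [], [2, 3]), (2, [1], [0, 4, 5])]),
  (2, 6, [(0, [0], [0, 1]), (0, [0], [2, 3]), (0, [1], [4, 1]), (4, [], [5]), (1, [], [2, 4]), (2, [1], [0, 3, 5])]),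
  (2, 6, [(0, [0], [0, 1]), (0, [0], [2, 3]), (0, [1], [4, 1]), (4, [], [5]), (1, [], [2, 5]), (2, [1], [0, 3, 4])]),
  (2, 6, [(0, [0], [0, 1]), (0, [0], [2, 3]), (0, [1], [4, 5]), (4, [], [1]), (1, [], [0, 2]), (2, [1], [3, 4, 5])]),
  (2, 6, [(0, [0], [0, 1]), (0, [0], [2, 3]), (0, [1], [4, 5]), (4, [], [1]), (1, [], [2, 4]), (2, [1], [0, 3, 5])]),
  (2, 6, [(0, [0], [0, 1]), (0, [0], [2, 3]), (0, [1], [4, 5]), (4, [], [5]), (1, [], [0, 2]), (2, [1], [1, 3, 4])]),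
  (2, 5, [(0, [0], [0, 1]), (2, [0], [2, 3, 1]), (0, [1], [2, 4]), (2, [1], [0, 3, 4])]),
  (2, 5, [(0, [0], [0, 1]), (2, [1], [2, 3, 1]), (0, [0], [0, 4]), (2, [1], [2, 3, 4])]),
  (2, 5, [(0, [0], [0, 1]), (2, [1], [2, 3, 1]), (0, [0], [2, 4]), (2, [1], [0, 3, 4])])]

def kl50 : List ℕ := [5, 6, 10, 21, 22, 33, 40, 42, 43, 45, 50, 52, 53, 54, 55, 56, 62, 64, 75, 76, 78, 81, 83, 84, 85, 87, 89, 90, 93, 113, 114, 115, 118, 122, 123, 127, 128, 129, 131, 135, 136, 137, 138, 139, 142, 145, 146, 147, 149, 150, 151, 207, 210, 226, 228, 229, 230, 231, 233, 234, 235, 240, 249, 254, 255, 256, 257, 258, 259, 260, 261, 262, 265, 270, 273, 289, 290, 291, 292, 293, 294, 295, 296, 297, 298, 299, 301, 304, 306, 307, 308, 309, 310, 313, 320, 323, 324, 325, 326, 327, 328, 329, 330, 331, 332, 334, 335, 336, 337, 338, 339, 426, 427, 428, 431, 433, 434, 436, 437, 438, 439, 440, 441,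 447, 449, 450]

def m50_0 : Base := (0, 2, [(0, [0], [3, 4]), (0, [1], [0, 3]), (1, [], [1, 4]), (4, [], [2])])

def l50_0 : Cov := [(12, 0, 2, [(0, [0], [3, 4]), (0, [1], [0, 3]), (1, [], [1, 4]), (4, [], [2])]),
  (12, 0, 2, [(0, [0], [3, 4]), (0, [1], [0, 3]), (1, [], [2, 4]), (4, [], [1])]),
  (12, 0, 2, [(0, [0], [3, 4]), (0, [1], [1, 3]), (1, [], [0, 4]), (4, [], [2])]),
  (12, 0, 2, [(0, [0], [3, 4]), (0, [1], [1, 3]), (1, [], [2, 4]), (4, [], [0])]),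
  (12, 0, 2, [(0, [0], [3, 4]), (0, [1], [2, 3]), (1, [], [0, 4]), (4, [], [1])]),
  (12, 0, 2, [(0, [0], [3, 4]), (0, [1], [2, 3]), (1, [], [1, 4]), (4, [], [0])]),
  (-12, 0, 2, [(0, [1], [3, 4]), (0, [0], [0, 3]), (1, [], [1, 4]), (4, [], [2])]),
  (-12, 0, 2, [(0, [1], [3, 4]), (0, [0], [0, 3]), (1, [], [2, 4]), (4, [], [1])]),
  (-12, 0, 2, [(0, [1], [3, 4]), (0, [0], [1, 3]), (1, [], [0, 4]), (4, [], [2])]),
  (-12, 0, 2, [(0, [1], [3, 4]), (0, [0], [1, 3]), (1, [], [2, 4]), (4, [], [0])]),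
  (-12, 0, 2, [(0, [1], [3, 4]), (0, [0], [2, 3]), (1, [], [0, 4]), (4, [], [1])]),
  (-12, 0, 2, [(0, [1], [3, 4]), (0, [0], [2, 3]), (1, [], [1, 4]), (4, [], [0])])]

def z50_0 : Cov := []

def w50_0 : List (List Wit) := [[(0, 0, 0, 16, 16), (1, 0, 0, 16, 16), (2, 0, 0, 16, 16), (3, 0, 0, 16, 16), (4, 0, 0, 16, 16), (5, 0, 0, 16, 16)],
  [(6, 0, 0, 16, 16), (7, 0, 0, 16, 16), (8, 0, 0, 16, 16), (9, 0, 0, 16, 16), (10, 0, 0, 16, 16), (11, 0, 0, 16, 16)]]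

def m50_1 : Base := (0, 2, [(0, [0], [3, 4]), (0, [1], [0, 3]), (1, [], [1, 2]), (4, [], [4])])

def l50_1 : Cov := [(24, 0, 2, [(0, [0], [3, 4]), (0, [1], [0, 3]), (1, [], [1, 2]), (4, [], [4])]),
  (24, 0, 2, [(0, [0], [3, 4]), (0, [1], [1, 3]), (1, [], [0, 2]), (4, [], [4])]),
  (24, 0, 2, [(0, [0], [3, 4]), (0, [1], [2, 3]), (1, [], [0, 1]), (4, [], [4])]),
  (-24, 0, 2, [(0, [1], [3, 4]), (0, [0], [0, 3]), (1, [], [1, 2]), (4, [], [4])]),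
  (-24, 0, 2, [(0, [1], [3, 4]), (0, [0], [1, 3]), (1, [], [0, 2]), (4, [], [4])]),
  (-24, 0, 2, [(0, [1], [3, 4]), (0, [0], [2, 3]), (1, [], [0, 1]), (4, [], [4])])]

def z50_1 : Cov := []

def w50_1 : List (List Wit) := [[(0, 0, 0, 16, 16), (0, 0, 0, 16, 16), (1, 0, 0, 16, 16), (1, 0, 0, 16, 16), (2, 0, 0, 16, 16), (2, 0, 0, 16, 16)],
  [(3, 0, 0, 16, 16), (3, 0, 0, 16, 16), (4, 0, 0, 16, 16), (4, 0, 0, 16, 16), (5, 0, 0, 16, 16), (5, 0, 0, 16, 16)]]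

def m50_2 : Base := (0, 2, [(0, [0], [3, 4]), (0, [1], [0, 1]), (1, [], [3, 4]), (4, [], [2])])

def l50_2 : Cov := [(24, 0, 2, [(0, [0], [3, 4]), (0, [1], [0, 1]), (1, [], [3, 4]), (4, [], [2])]),
  (24, 0, 2, [(0, [0], [3, 4]), (0, [1], [0, 2]), (1, [], [3, 4]), (4, [], [1])]),
  (24, 0, 2, [(0, [0], [3, 4]), (0, [1], [1, 2]), (1, [], [3, 4]), (4, [], [0])]),
  (-24, 0, 2, [(0, [1], [3, 4]), (0, [0], [0, 1]), (1, [], [3, 4]), (4, [], [2])]),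
  (-24, 0, 2, [(0, [1], [3, 4]), (0, [0], [0, 2]), (1, [], [3, 4]), (4, [], [1])]),
  (-24, 0, 2, [(0, [1], [3, 4]), (0, [0], [1, 2]), (1, [], [3, 4]), (4, [], [0])])]

def z50_2 : Cov := []

def w50_2 : List (List Wit) := [[(0, 0, 0, 16, 16), (1, 0, 0, 16, 16), (0, 0, 0, 16, 16), (2, 0, 0, 16, 16), (1, 0, 0, 16, 16), (2, 0, 0, 16, 16)],
  [(3, 0, 0, 16, 16), (4, 0, 0, 16, 16), (3, 0, 0, 16, 16), (5, 0, 0, 16, 16), (4, 0, 0, 16, 16), (5, 0, 0, 16, 16)]]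

def m50_3 : Base := (0, 2, [(0, [0], [3, 4]), (0, [1], [0, 1]), (1, [], [2, 3]), (4, [], [4])])

def l50_3 : Cov := [(24, 0, 2, [(0, [0], [3, 4]), (0, [1], [0, 1]), (1, [], [2, 3]), (4, [], [4])]),
  (24, 0, 2, [(0, [0], [3, 4]), (0, [1], [0, 2]), (1, [], [1, 3]), (4, [], [4])]),
  (24, 0, 2, [(0, [0], [3, 4]), (0, [1], [1, 2]), (1, [], [0, 3]), (4, [], [4])]),
  (-24, 0, 2, [(0, [1], [3, 4]), (0, [0], [0, 1]), (1, [], [2, 3]), (4, [], [4])]),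
  (-24, 0, 2, [(0, [1], [3, 4]), (0, [0], [0, 2]), (1, [], [1, 3]), (4, [], [4])]),
  (-24, 0, 2, [(0, [1], [3, 4]), (0, [0], [1, 2]), (1, [], [0, 3]), (4, [], [4])])]

def z50_3 : Cov := []

def w50_3 : List (List Wit) := [[(0, 0, 0, 16, 16), (1, 0, 0, 16, 16), (0, 0, 0, 16, 16), (2, 0, 0, 16, 16), (1, 0, 0, 16, 16), (2, 0, 0, 16, 16)],
  [(3, 0, 0, 16, 16), (4, 0, 0, 16, 16), (3, 0, 0, 16, 16), (5, 0, 0, 16, 16), (4, 0, 0, 16, 16), (5, 0, 0, 16, 16)]]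

def m50_4 : Base := (0, 2, [(0, [0], [0, 3]), (0, [1], [1, 4]), (1, [], [2, 4]), (4, [], [3])])

def l50_4 : Cov := [(12, 0, 2, [(0, [0], [0, 3]), (0, [1], [1, 4]), (1, [], [2, 4]), (4, [], [3])]),
  (12, 0, 2, [(0, [0], [0, 3]), (0, [1], [2, 4]), (1, [], [1, 4]), (4, [], [3])]),
  (12, 0, 2, [(0, [0], [1, 3]), (0, [1], [0, 4]), (1, [], [2, 4]), (4, [], [3])]),
  (12, 0, 2, [(0, [0], [1, 3]), (0, [1], [2, 4]), (1, [], [0, 4]), (4, [], [3])]),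
  (12, 0, 2, [(0, [0], [2, 3]), (0, [1], [0, 4]), (1, [], [1, 4]), (4, [], [3])]),
  (12, 0, 2, [(0, [0], [2, 3]), (0, [1], [1, 4]), (1, [], [0, 4]), (4, [], [3])]),
  (-12, 0, 2, [(0, [1], [0, 3]), (0, [0], [1, 4]), (1, [], [2, 4]), (4, [], [3])]),
  (-12, 0, 2, [(0, [1], [0, 3]), (0, [0], [2, 4]), (1, [], [1, 4]), (4, [], [3])]),
  (-12, 0, 2, [(0, [1], [1, 3]), (0, [0], [0, 4]), (1, [], [2, 4]), (4, [], [3])]),
  (-12, 0, 2, [(0, [1], [1, 3]), (0, [0], [2, 4]), (1, [], [0, 4]), (4, [], [3])]),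
  (-12, 0, 2, [(0, [1], [2, 3]), (0, [0], [0, 4]), (1, [], [1, 4]), (4, [], [3])]),
  (-12, 0, 2, [(0, [1], [2, 3]), (0, [0], [1, 4]), (1, [], [0, 4]), (4, [], [3])])]

def z50_4 : Cov := []

def w50_4 : List (List Wit) := [[(0, 0, 0, 16, 16), (1, 0, 0, 16, 16), (2, 0, 0, 16, 16), (3, 0, 0, 16, 16), (4, 0, 0, 16, 16), (5, 0, 0, 16, 16)],
  [(6, 0, 0, 16, 16), (7, 0, 0, 16, 16), (8, 0, 0, 16, 16), (9, 0, 0, 16, 16), (10, 0, 0, 16, 16), (11, 0, 0, 16, 16)]]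

def m50_5 : Base := (0, 2, [(0, [0], [0, 3]), (0, [1], [1, 2]), (1, [], [3, 4]), (4, [], [4])])

def l50_5 : Cov := [(24, 0, 2, [(0, [0], [0, 3]), (0, [1], [1, 2]), (1, [], [3, 4]), (4, [], [4])]),
  (24, 0, 2, [(0, [0], [1, 3]), (0, [1], [0, 2]), (1, [], [3, 4]), (4, [], [4])]),
  (24, 0, 2, [(0, [0], [2, 3]), (0, [1], [0, 1]), (1, [], [3, 4]), (4, [], [4])]),
  (-24, 0, 2, [(0, [1], [0, 3]), (0, [0], [1, 2]), (1, [], [3, 4]), (4, [], [4])]),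
  (-24, 0, 2, [(0, [1], [1, 3]), (0, [0], [0, 2]), (1, [], [3, 4]), (4, [], [4])]),
  (-24, 0, 2, [(0, [1], [2, 3]), (0, [0], [0, 1]), (1, [], [3, 4]), (4, [], [4])])]

def z50_5 : Cov := []

def w50_5 : List (List Wit) := [[(0, 0, 0, 16, 16), (0, 0, 0, 16, 16), (1, 0, 0, 16, 16), (1, 0, 0, 16, 16), (2, 0, 0, 16, 16), (2, 0, 0, 16, 16)],
  [(3, 0, 0, 16, 16), (3, 0, 0, 16, 16), (4, 0, 0, 16, 16), (4, 0, 0, 16, 16), (5, 0, 0, 16, 16), (5, 0, 0, 16, 16)]]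

def m50_6 : Base := (0, 1, [(0, [0], [0, 3]), (0, [1], [1, 2]), (4, [], [3])])

def l50_6 : Cov := [(24, 0, 1, [(0, [0], [0, 3]), (0, [1], [1, 2]), (4, [], [3])]),
  (24, 0, 1, [(0, [0], [1, 3]), (0, [1], [0, 2]), (4, [], [3])]),
  (24, 0, 1, [(0, [0], [2, 3]), (0, [1], [0, 1]), (4, [], [3])]),
  (-24, 0, 1, [(0, [1], [0, 3]), (0, [0], [1, 2]), (4, [], [3])]),
  (-24, 0, 1, [(0, [1], [1, 3]), (0, [0], [0, 2]), (4, [], [3])]),
  (-24, 0, 1, [(0, [1], [2, 3]), (0, [0], [0, 1]), (4, [], [3])])]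

def z50_6 : Cov := []

def w50_6 : List (List Wit) := [[(0, 0, 0, 0, 0), (0, 0, 0, 0, 0), (1, 0, 0, 0, 0), (1, 0, 0, 0, 0), (2, 0, 0, 0, 0), (2, 0, 0, 0, 0)],
  [(3, 0, 0, 0, 0), (3, 0, 0, 0, 0), (4, 0, 0, 0, 0), (4, 0, 0, 0, 0), (5, 0, 0, 0, 0), (5, 0, 0, 0, 0)]]

def m50_7 : Base := (0, 1, [(0, [0], [0, 3]), (2, [1], [1, 2, 3])])

def l50_7 : Cov := [(24, 0, 1, [(0, [0], [0, 3]), (2, [1], [1, 2, 3])]),
  (24, 0, 1, [(0, [0], [1, 3]), (2, [1], [0, 2, 3])]),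
  (24, 0, 1, [(0, [0], [2, 3]), (2, [1], [0, 1, 3])]),
  (-24, 0, 1, [(0, [1], [0, 3]), (2, [0], [1, 2, 3])]),
  (-24, 0, 1, [(0, [1], [1, 3]), (2, [0], [0, 2, 3])]),
  (-24, 0, 1, [(0, [1], [2, 3]), (2, [0], [0, 1, 3])])]

def z50_7 : Cov := []

def w50_7 : List (List Wit) := [[(0, 0, 0, 0, 0), (0, 0, 0, 0, 0), (1, 0, 0, 0, 0), (1, 0, 0, 0, 0), (2, 0, 0, 0, 0), (2, 0, 0, 0, 0)],
  [(3, 0, 0, 0, 0), (3, 0, 0, 0, 0), (4, 0, 0, 0, 0), (4, 0, 0, 0, 0), (5, 0, 0, 0, 0), (5, 0, 0, 0, 0)]]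

theorem tr50 : trK keys lk50 kl50 = true := by
  decide +kernel

theorem x50_0 : expB 2 3 dg12 dg1 m50_0 (l50_0 ++ z50_0) w50_0 = true := by
  decide +kernel

theorem x50_1 : expB 2 3 dg12 dg1 m50_1 (l50_1 ++ z50_1) w50_1 = true := by
  decide +kernel

theorem x50_2 : expB 2 3 dg12 dg1 m50_2 (l50_2 ++ z50_2) w50_2 = true := by
  decide +kernel

theorem x50_3 : expB 2 3 dg12 dg1 m50_3 (l50_3 ++ z50_3) w50_3 = true := by
  decide +kernel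

theorem x50_4 : expB 2 3 dg12 dg1 m50_4 (l50_4 ++ z50_4) w50_4 = true := by
  decide +kernel

theorem x50_5 : expB 2 3 dg12 dg1 m50_5 (l50_5 ++ z50_5) w50_5 = true := by
  decide +kernel

theorem x50_6 : expB 2 3 dg12 dg1 m50_6 (l50_6 ++ z50_6) w50_6 = true := by
  decide +kernel

theorem x50_7 : expB 2 3 dg12 dg1 m50_7 (l50_7 ++ z50_7) w50_7 = true := by
  decide +kernel

theorem t50_0_0 : chkS lk50 2 3 [(1, m50_0)] l50_0
  [(57, 1, 1, 86185056, 23217456), (58, 1, 1, 86185536, 39929136), (114, 16, 16, 52434276, 18900276), (81, 1, 1, 86246961, 40113411), (81, 1, 1, 67445091, 21365541), (80, 1, 1, 86246241, 23340291), (90, 1, 1, 37028961, 21124611), (91, 1, 1, 37028961, 21124611), (115, 16, 16, 102765876, 102765876), (83, 1, 1, 52692561, 34891011), (83, 16, 16, 67314021, 17187621), (82, 1, 1, 52692321, 19162371)]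
  [(57, 12), (58, 12), (80, 12), (81, 24), (82, -12), (83, -24), (90, -12), (91, -12), (114, 12), (115, -12)] = true := by
  decide +kernel

theorem t50_0_1 : chkS lk50 2 3 [(1, m50_0)] l50_1
  [(49, 1, 1, 51652176, 34890576), (81, 16, 16, 16983621, 33637221), (79, 16, 16, 16983141, 16925541), (38, 1, 1, 17049171, 34866021), (83, 1, 1, 17114691, 37815141), (79, 1, 1, 17114211, 21103461)]
  [(38, -24), (49, 24), (81, 24), (83, -24)] = true := by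
  decide +kernel

theorem t50_0_2 : chkS lk50 2 3 [(1, m50_0)] l50_2
  [(53, 1, 1, 106107936, 106053936), (10, 16, 16, 52495716, 18900291), (75, 1, 1, 106169121, 106176771), (87, 16, 16, 105911331, 106037556), (14, 1, 1, 88212321, 23405571), (9, 16, 16, 105972786, 106041411)]
  [(9, -24), (10, 24), (14, -24), (53, 24), (75, 24), (87, -24)] = true := by
  decide +kernel

theorem t50_0_3 : chkS lk50 2 3 [(1, m50_0)] l50_3
  [(56, 1, 1, 106107936, 106053936), (30, 1, 1, 88285536, 23413536), (98, 16, 16, 16922196, 34616421), (89, 16, 16, 105911331, 106037556), (36, 16, 16, 88224096, 23409696), (99, 1, 1, 17053266, 34877541)]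
  [(30, 24), (36, -24), (56, 24), (89, -24), (98, 24), (99, -24)] = true := by
  decide +kernel

theorem t50_0_4 : chkS lk50 2 3 [(1, m50_0)] l50_4
  [(37, 16, 16, 68302416, 35009616), (36, 16, 16, 68302176, 19280976), (55, 1, 1, 40047696, 85083696), (99, 16, 16, 85079556, 39859281), (60, 1, 1, 38999136, 22169136), (96, 16, 16, 101855316, 101725266), (31, 1, 1, 68363856, 35013456), (30, 1, 1, 68363616, 19284816), (88, 16, 16, 39851091, 85067316), (98, 1, 1, 85210626, 40120401), (92, 16, 16, 38802531, 22152756), (96, 1, 1, 85209186, 23343186)]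
  [(30, -12), (31, -12), (36, 12), (37, 12), (55, 12), (60, 12), (88, -12), (92, -12), (98, -12), (99, 12)] = true := by
  decide +kernel

theorem t50_0_5 : chkS lk50 2 3 [(1, m50_0)] l50_5
  [(88, 16, 16, 69211731, 34997556), (31, 1, 1, 105062736, 102056736), (56, 1, 1, 72554016, 39207216), (55, 1, 1, 69408336, 35013936), (37, 16, 16, 105001296, 102052896), (89, 16, 16, 72357411, 39190836)]
  [(31, 24), (37, -24), (55, -24), (56, 24), (88, 24), (89, -24)] = true := by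
  decide +kernel

theorem t50_0_6 : chkS lk50 2 3 [(1, m50_0)] l50_6
  [(23, 1, 1, 3278145, 2184195), (26, 16, 16, 3212580, 2117955), (61, 1, 1, 5444640, 5390640), (26, 16, 16, 5309220, 5251395), (23, 1, 1, 5374785, 5317635), (93, 16, 16, 5248035, 5374260)]
  [(61, 24), (93, -24)] = true := by
  decide +kernel

theorem t50_0_7 : chkS lk50 2 3 [(1, m50_0)] l50_7
  [(94, 16, 16, 2102355, 1180980), (116, 16, 16, 3151140, 2117940), (101, 16, 16, 143700, 1061925), (62, 1, 1, 2298960, 1197360), (118, 1, 1, 3413280, 2380080), (102, 1, 1, 274770, 1323045)]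
  [(62, -24), (94, 24), (101, 24), (102, -24), (116, 24), (118, -24)] = true := by
  decide +kernel

theorem t50_1_1 : chkS lk50 2 3 [(1, m50_1)] l50_1
  [(48, 1, 1, 69408336, 35013936), (80, 16, 16, 52495956, 34628931), (80, 16, 16, 52495716, 18900291), (15, 1, 1, 52696656, 34891056), (82, 16, 16, 86050356, 39851331), (82, 16, 16, 86049636, 23078211)]
  [(15, -24), (48, 24), (80, 48), (82, -48)] = true := by
  decide +kernel

theorem t50_1_2 : chkS lk50 2 3 [(1, m50_1)] l50_2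
  [(47, 1, 1, 88282656, 40190256), (47, 1, 1, 88281696, 23413296), (2, 16, 16, 105972786, 106041411), (14, 1, 1, 88282656, 40190256), (14, 1, 1, 88281696, 23413296), (2, 16, 16, 70321746, 35016771)]
  [(14, -48), (47, 48)] = true := by
  decide +kernel

theorem t50_1_3 : chkS lk50 2 3 [(1, m50_1)] l50_3
  [(45, 1, 1, 88282656, 40190256), (45, 1, 1, 88281696, 23413296), (75, 16, 16, 52495956, 34628931), (36, 16, 16, 88147491, 40173891), (36, 16, 16, 88146531, 23396931), (9, 1, 1, 70387281, 35017731)]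
  [(9, -24), (36, -48), (45, 48), (75, 24)] = true := by
  decide +kernel

theorem t50_1_4 : chkS lk50 2 3 [(1, m50_1)] l50_4
  [(35, 16, 16, 86050371, 39912771), (35, 16, 16, 86049891, 23201091), (45, 1, 1, 38999616, 38880816), (77, 16, 16, 103875876, 102781251), (45, 1, 1, 38999136, 22169136), (77, 16, 16, 103875156, 101732931), (29, 1, 1, 85141056, 39928656), (29, 1, 1, 85140576, 23216976), (36, 16, 16, 38864451, 38864451), (78, 16, 16, 56689236, 84959811), (36, 16, 16, 38863971, 22152771), (78, 16, 16, 56689956, 86008131)]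
  [(29, -24), (35, 24), (36, -24), (45, 24), (77, 24), (78, -24)] = true := by
  decide +kernel

theorem t50_1_5 : chkS lk50 2 3 [(1, m50_1)] l50_5
  [(14, 1, 1, 102962496, 102843696), (46, 1, 1, 105058896, 102056496), (46, 1, 1, 105059616, 103104816), (47, 1, 1, 102962496, 102843696), (37, 16, 16, 104923731, 102040131), (37, 16, 16, 104924451, 103088451)]
  [(14, 24), (37, -48), (46, 48), (47, -24)] = true := by
  decide +kernel

theorem t50_1_6 : chkS lk50 2 3 [(1, m50_1)] l50_6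
  [(22, 1, 1, 2299200, 2180400), (24, 16, 16, 3212580, 2117955), (24, 16, 16, 3211860, 1069635), (18, 16, 16, 5309220, 5251395), (23, 1, 1, 5444160, 5325360), (23, 1, 1, 5444640, 5390640)]
  [(18, -24), (22, 24), (23, -48), (24, 48)] = true := by
  decide +kernel

theorem t50_1_7 : chkS lk50 2 3 [(1, m50_1)] l50_7
  [(13, 16, 16, 1254720, 2179920), (86, 16, 16, 3212580, 2117955), (86, 16, 16, 3211860, 1069635), (50, 1, 1, 2298960, 1197360), (110, 1, 1, 3413280, 2380080), (110, 1, 1, 3412560, 1331760)]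
  [(13, 24), (50, -24), (86, 48), (110, -48)] = true := by
  decide +kernel

theorem t50_2_2 : chkS lk50 2 3 [(1, m50_2)] l50_2
  [(51, 1, 1, 106112016, 106054416), (63, 1, 1, 106181136, 106181136), (63, 1, 1, 106181121, 106181121), (73, 1, 1, 52843536, 70411536), (2, 1, 1, 106181136, 106181136), (2, 1, 1, 106181121, 106181121)]
  [(2, -48), (51, 24), (63, 48), (73, -24)] = true := by
  decide +kernel

theorem t50_2_3 : chkS lk50 2 3 [(1, m50_2)] l50_3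
  [(4, 1, 1, 52774416, 37971216), (7, 16, 16, 16983636, 34620261), (7, 16, 16, 16983621, 33637221), (41, 1, 1, 52774416, 37971216), (9, 1, 1, 70668816, 70668816), (9, 1, 1, 70668801, 70668801)]
  [(4, 24), (7, 48), (9, -48), (41, -24)] = true := by
  decide +kernel

theorem t50_2_4 : chkS lk50 2 3 [(1, m50_2)] l50_4
  [(47, 1, 1, 37045761, 37967361), (9, 1, 1, 52843536, 70411536), (47, 1, 1, 37045776, 37967376), (9, 1, 1, 52843521, 70411521), (104, 1, 1, 38163201, 70592001), (104, 1, 1, 38163216, 70592016), (10, 16, 16, 22226436, 38814561), (7, 16, 16, 6496596, 84951846), (10, 16, 16, 22226496, 38880096), (7, 16, 16, 6496581, 83968806), (95, 1, 1, 68571171, 70648146), (95, 1, 1, 68571186, 70651986)]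
  [(7, -24), (9, 24), (10, -24), (47, 24), (95, -24), (104, 24)] = true := by
  decide +kernel

theorem t50_2_5 : chkS lk50 2 3 [(1, m50_2)] l50_5
  [(10, 16, 16, 101918016, 102843216), (10, 16, 16, 101917956, 102777681), (4, 1, 1, 103105296, 105063696), (47, 1, 1, 103105296, 105063696), (47, 1, 1, 103105281, 105063681), (41, 1, 1, 103105296, 105063696)]
  [(4, 24), (10, 48), (41, -24), (47, -48)] = true := by
  decide +kernel

theorem t50_2_6 : chkS lk50 2 3 [(1, m50_2)] l50_6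
  [(18, 16, 16, 1254720, 2179920), (18, 16, 16, 1254660, 2114385), (19, 1, 1, 3490320, 4411920), (18, 16, 16, 5447940, 5260065), (18, 16, 16, 5448000, 5325600), (42, 1, 1, 3490320, 4411920)]
  [(19, 24), (42, -24)] = true := by
  decide +kernel

theorem t50_2_7 : chkS lk50 2 3 [(1, m50_2)] l50_7
  [(117, 16, 16, 206145, 2179845), (117, 16, 16, 206100, 2114325), (3, 16, 16, 205140, 1065765), (112, 1, 1, 2372865, 2372865), (112, 1, 1, 2372880, 2372880), (6, 1, 1, 344370, 4395045)]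
  [(3, 24), (6, -24), (112, -48), (117, 48)] = true := by
  decide +kernel

theorem t50_3_3 : chkS lk50 2 3 [(1, m50_3)] l50_3
  [(33, 1, 1, 88286736, 40190736), (105, 1, 1, 106181121, 106181121), (105, 1, 1, 106181136, 106181136), (39, 1, 1, 52774416, 37971216), (99, 16, 16, 105972291, 105972291), (99, 16, 16, 105972276, 105910851)]
  [(33, 24), (39, -24), (99, -48), (105, 48)] = true := by
  decide +kernel

theorem t50_3_4 : chkS lk50 2 3 [(1, m50_3)] l50_4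
  [(45, 1, 1, 37045761, 37967361), (77, 16, 16, 101918016, 102843216), (45, 1, 1, 37045776, 37967376), (77, 16, 16, 101917956, 102777681), (106, 1, 1, 40121601, 86259201), (106, 1, 1, 40121616, 86259216), (30, 1, 1, 51725856, 37970256), (64, 1, 1, 85210656, 40120656), (30, 1, 1, 51725826, 37970001), (64, 1, 1, 85210626, 40120401), (97, 16, 16, 39912771, 86050371), (97, 16, 16, 39912756, 85988931)]
  [(30, -24), (45, 24), (64, -24), (77, 24), (97, -24), (106, 24)] = true := by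
  decide +kernel

theorem t50_3_5 : chkS lk50 2 3 [(1, m50_3)] l50_5
  [(54, 1, 1, 70668801, 70668801), (54, 1, 1, 70668816, 70668816), (34, 1, 1, 105063696, 103105296), (55, 1, 1, 69620496, 70657296), (55, 1, 1, 69620481, 70657281), (40, 16, 16, 105063696, 103105296)]
  [(34, 24), (40, -24), (54, 48), (55, -48)] = true := by
  decide +kernel

theorem t50_3_6 : chkS lk50 2 3 [(1, m50_3)] l50_6
  [(24, 16, 16, 1254720, 2179920), (24, 16, 16, 1254660, 2114385), (20, 1, 1, 5448720, 5391120), (26, 16, 16, 5447940, 5260065), (26, 16, 16, 5448000, 5325600), (43, 1, 1, 3490320, 4411920)]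
  [(20, 24), (24, 48), (26, -48), (43, -24)] = true := by
  decide +kernel

theorem t50_3_7 : chkS lk50 2 3 [(1, m50_3)] l50_7
  [(100, 16, 16, 2164035, 2164035), (100, 16, 16, 2164020, 2102595), (120, 16, 16, 3211860, 1069635), (108, 1, 1, 2372865, 2372865), (108, 1, 1, 2372880, 2372880), (8, 1, 1, 1392690, 4395090)]
  [(8, -24), (100, 48), (108, -48), (120, 24)] = true := by
  decide +kernel

theorem t50_4_4 : chkS lk50 2 3 [(1, m50_4)] l50_4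
  [(67, 16, 16, 86251056, 40113456), (65, 16, 16, 86251056, 40113456), (80, 16, 16, 70587936, 38162736), (77, 16, 16, 85210626, 40120401), (77, 16, 16, 70586976, 21385776), (105, 1, 1, 39863571, 86181396), (79, 16, 16, 54859296, 38101296), (76, 16, 16, 54858336, 21324336), (66, 16, 16, 38082096, 38082096), (64, 1, 1, 101860611, 102958161), (64, 16, 16, 38146896, 68494896), (99, 16, 16, 40113456, 86251056)]
  [(64, -24), (65, 12), (66, -12), (67, 12), (76, -12), (77, 24), (79, -12), (80, 12), (99, -12), (105, 12)] = true := by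
  decide +kernel

theorem t50_4_5 : chkS lk50 2 3 [(1, m50_4)] l50_5
  [(69, 16, 16, 103028016, 103028016), (83, 16, 16, 104141856, 105009456), (46, 1, 1, 105002241, 103101441), (84, 16, 16, 105190176, 105193776), (68, 16, 16, 106172976, 106172976), (31, 16, 16, 105059616, 103104816)]
  [(31, -24), (46, 24), (68, -24), (69, 24), (83, 24), (84, -24)] = true := by
  decide +kernel

theorem t50_4_6 : chkS lk50 2 3 [(1, m50_4)] l50_6
  [(71, 16, 16, 2364720, 2364720), (25, 1, 1, 5325570, 5447745), (24, 16, 16, 3478080, 4280880), (85, 16, 16, 4526880, 4530480), (70, 16, 16, 4526640, 4526640), (26, 1, 1, 3232260, 3166785)]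
  [(24, 24), (25, 24), (26, -24), (70, -24), (71, 24), (85, -24)] = true := by
  decide +kernel

theorem t50_4_7 : chkS lk50 2 3 [(1, m50_4)] l50_7
  [(72, 16, 16, 2299200, 2180400), (102, 16, 16, 2364720, 2364720), (121, 16, 16, 3412560, 1331760), (110, 1, 1, 148785, 2298885), (107, 1, 1, 2114835, 2295060), (122, 1, 1, 3166740, 3166740)]
  [(72, 24), (102, 24), (107, -24), (110, -24), (121, 24), (122, -24)] = true := by
  decide +kernel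

theorem t50_5_5 : chkS lk50 2 3 [(1, m50_5)] l50_5
  [(52, 1, 1, 106180866, 106180641), (58, 1, 1, 70668306, 70668306), (58, 1, 1, 70668546, 70668321), (74, 1, 1, 70668546, 70668321), (59, 1, 1, 69619971, 70649121), (59, 1, 1, 69619731, 70649106)]
  [(52, 24), (58, 48), (59, -48), (74, -24)] = true := by
  decide +kernel

theorem t50_5_6 : chkS lk50 2 3 [(1, m50_5)] l50_6
  [(17, 1, 1, 4534530, 4534305), (27, 16, 16, 3478560, 4346160), (27, 16, 16, 3478080, 4280880), (44, 1, 1, 3490050, 4411425), (32, 1, 1, 1393155, 4391505), (32, 1, 1, 1392675, 4391250)]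
  [(17, 24), (27, 48), (32, -48), (44, -24)] = true := by
  decide +kernel

theorem t50_5_7 : chkS lk50 2 3 [(1, m50_5)] l50_7
  [(111, 16, 16, 2425665, 4269315), (119, 16, 16, 336915, 4326165), (119, 16, 16, 336195, 4260645), (12, 1, 1, 1393440, 4399440), (113, 1, 1, 2437140, 4207890), (113, 1, 1, 2437380, 4207905)]
  [(12, -24), (111, 24), (113, -48), (119, 48)] = true := by
  decide +kernel

theorem t50_6_6 : chkS lk50 2 3 [(1, m50_6)] l50_6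
  [(0, 1, 1, 274690, 274465), (28, 16, 16, 201760, 147760), (28, 16, 16, 201280, 82480), (1, 16, 16, 136240, 136240), (5, 1, 1, 274450, 274450), (5, 1, 1, 274690, 274465)]
  [(0, 24), (1, -24), (5, -48), (28, 48)] = true := by
  decide +kernel

theorem t50_6_7 : chkS lk50 2 3 [(1, m50_6)] l50_7
  [(16, 16, 16, 74560, 74560), (103, 16, 16, 136240, 136240), (103, 16, 16, 136000, 74800), (21, 1, 1, 82720, 205120), (109, 1, 1, 147475, 197650), (109, 1, 1, 147715, 197665)]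
  [(16, 24), (21, -24), (103, 48), (109, -48)] = true := by
  decide +kernel

theorem t50_7_7 : chkS lk50 2 3 [(1, m50_7)] l50_7
  [(124, 16, 16, 267040, 270640), (125, 16, 16, 267040, 270640), (125, 16, 16, 266800, 266800), (11, 16, 16, 136000, 74800), (123, 16, 16, 131905, 74755), (123, 16, 16, 132145, 136195)]
  [(11, -24), (123, -48), (124, 24), (125, 48)] = true := by
  decide +kernel

section

variable {κ ι : Type*} [Fintype κ] [Fintype ι] [Inhabited κ] [Inhabited ι]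

noncomputable def F50_0 (E : Env κ ι) : (Fin 2 → κ) → (Fin 3 → ι) → ℝ := op2 (P12 κ) (P1 ι) (fB E 2 3 m50_0)

noncomputable def F50_1 (E : Env κ ι) : (Fin 2 → κ) → (Fin 3 → ι) → ℝ := op2 (P12 κ) (P1 ι) (fB E 2 3 m50_1)

noncomputable def F50_2 (E : Env κ ι) : (Fin 2 → κ) → (Fin 3 → ι) → ℝ := op2 (P12 κ) (P1 ι) (fB E 2 3 m50_2)

noncomputable def F50_3 (E : Env κ ι) : (Fin 2 → κ) → (Fin 3 → ι) → ℝ := op2 (P12 κ) (P1 ι) (fB E 2 3 m50_3)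

noncomputable def F50_4 (E : Env κ ι) : (Fin 2 → κ) → (Fin 3 → ι) → ℝ := op2 (P12 κ) (P1 ι) (fB E 2 3 m50_4)

noncomputable def F50_5 (E : Env κ ι) : (Fin 2 → κ) → (Fin 3 → ι) → ℝ := op2 (P12 κ) (P1 ι) (fB E 2 3 m50_5)

noncomputable def F50_6 (E : Env κ ι) : (Fin 2 → κ) → (Fin 3 → ι) → ℝ := op2 (P12 κ) (P1 ι) (fB E 2 3 m50_6)

noncomputable def F50_7 (E : Env κ ι) : (Fin 2 → κ) → (Fin 3 → ι) → ℝ := op2 (P12 κ) (P1 ι) (fB E 2 3 m50_7)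

def r50_0_0 : List (ℕ × ℤ) := [(57, 12), (58, 12), (80, 12), (81, 24), (82, -12), (83, -24), (90, -12), (91, -12), (114, 12), (115, -12)]

theorem h50_0_0 (E : Env κ ι) : ip (F50_0 E) (F50_0 E) = dotS (ek E lk50) r50_0_0 :=
  op_entryZ E lk50 2 3 _ _ _ _ (pg12 κ) (pg1 ι) m50_0 m50_0 l50_0 z50_0 w50_0 x50_0 (by decide) _ (chkS_sound E lk50 2 3 _ _ _ _ t50_0_0)

def r50_0_1 : List (ℕ × ℤ) := [(38, -24), (49, 24), (81, 24), (83, -24)]

theorem h50_0_1 (E : Env κ ι) : ip (F50_0 E) (F50_1 E) = dotS (ek E lk50) r50_0_1 :=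
  op_entryZ E lk50 2 3 _ _ _ _ (pg12 κ) (pg1 ι) m50_0 m50_1 l50_1 z50_1 w50_1 x50_1 (by decide) _ (chkS_sound E lk50 2 3 _ _ _ _ t50_0_1)

def r50_0_2 : List (ℕ × ℤ) := [(9, -24), (10, 24), (14, -24), (53, 24), (75, 24), (87, -24)]

theorem h50_0_2 (E : Env κ ι) : ip (F50_0 E) (F50_2 E) = dotS (ek E lk50) r50_0_2 :=
  op_entryZ E lk50 2 3 _ _ _ _ (pg12 κ) (pg1 ι) m50_0 m50_2 l50_2 z50_2 w50_2 x50_2 (by decide) _ (chkS_sound E lk50 2 3 _ _ _ _ t50_0_2)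

def r50_0_3 : List (ℕ × ℤ) := [(30, 24), (36, -24), (56, 24), (89, -24), (98, 24), (99, -24)]

theorem h50_0_3 (E : Env κ ι) : ip (F50_0 E) (F50_3 E) = dotS (ek E lk50) r50_0_3 :=
  op_entryZ E lk50 2 3 _ _ _ _ (pg12 κ) (pg1 ι) m50_0 m50_3 l50_3 z50_3 w50_3 x50_3 (by decide) _ (chkS_sound E lk50 2 3 _ _ _ _ t50_0_3)

def r50_0_4 : List (ℕ × ℤ) := [(30, -12), (31, -12), (36, 12), (37, 12), (55, 12), (60, 12), (88, -12), (92, -12), (98, -12), (99, 12)]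

theorem h50_0_4 (E : Env κ ι) : ip (F50_0 E) (F50_4 E) = dotS (ek E lk50) r50_0_4 :=
  op_entryZ E lk50 2 3 _ _ _ _ (pg12 κ) (pg1 ι) m50_0 m50_4 l50_4 z50_4 w50_4 x50_4 (by decide) _ (chkS_sound E lk50 2 3 _ _ _ _ t50_0_4)

def r50_0_5 : List (ℕ × ℤ) := [(31, 24), (37, -24), (55, -24), (56, 24), (88, 24), (89, -24)]

theorem h50_0_5 (E : Env κ ι) : ip (F50_0 E) (F50_5 E) = dotS (ek E lk50) r50_0_5 :=
  op_entryZ E lk50 2 3 _ _ _ _ (pg12 κ) (pg1 ι) m50_0 m50_5 l50_5 z50_5 w50_5 x50_5 (by decide) _ (chkS_sound E lk50 2 3 _ _ _ _ t50_0_5)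

def r50_0_6 : List (ℕ × ℤ) := [(61, 24), (93, -24)]

theorem h50_0_6 (E : Env κ ι) : ip (F50_0 E) (F50_6 E) = dotS (ek E lk50) r50_0_6 :=
  op_entryZ E lk50 2 3 _ _ _ _ (pg12 κ) (pg1 ι) m50_0 m50_6 l50_6 z50_6 w50_6 x50_6 (by decide) _ (chkS_sound E lk50 2 3 _ _ _ _ t50_0_6)

def r50_0_7 : List (ℕ × ℤ) := [(62, -24), (94, 24), (101, 24), (102, -24), (116, 24), (118, -24)]

theorem h50_0_7 (E : Env κ ι) : ip (F50_0 E) (F50_7 E) = dotS (ek E lk50) r50_0_7 :=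
  op_entryZ E lk50 2 3 _ _ _ _ (pg12 κ) (pg1 ι) m50_0 m50_7 l50_7 z50_7 w50_7 x50_7 (by decide) _ (chkS_sound E lk50 2 3 _ _ _ _ t50_0_7)

def r50_1_1 : List (ℕ × ℤ) := [(15, -24), (48, 24), (80, 48), (82, -48)]

theorem h50_1_1 (E : Env κ ι) : ip (F50_1 E) (F50_1 E) = dotS (ek E lk50) r50_1_1 :=
  op_entryZ E lk50 2 3 _ _ _ _ (pg12 κ) (pg1 ι) m50_1 m50_1 l50_1 z50_1 w50_1 x50_1 (by decide) _ (chkS_sound E lk50 2 3 _ _ _ _ t50_1_1)

def r50_1_2 : List (ℕ × ℤ) := [(14, -48), (47, 48)]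

theorem h50_1_2 (E : Env κ ι) : ip (F50_1 E) (F50_2 E) = dotS (ek E lk50) r50_1_2 :=
  op_entryZ E lk50 2 3 _ _ _ _ (pg12 κ) (pg1 ι) m50_1 m50_2 l50_2 z50_2 w50_2 x50_2 (by decide) _ (chkS_sound E lk50 2 3 _ _ _ _ t50_1_2)

def r50_1_3 : List (ℕ × ℤ) := [(9, -24), (36, -48), (45, 48), (75, 24)]

theorem h50_1_3 (E : Env κ ι) : ip (F50_1 E) (F50_3 E) = dotS (ek E lk50) r50_1_3 :=
  op_entryZ E lk50 2 3 _ _ _ _ (pg12 κ) (pg1 ι) m50_1 m50_3 l50_3 z50_3 w50_3 x50_3 (by decide) _ (chkS_sound E lk50 2 3 _ _ _ _ t50_1_3)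

def r50_1_4 : List (ℕ × ℤ) := [(29, -24), (35, 24), (36, -24), (45, 24), (77, 24), (78, -24)]

theorem h50_1_4 (E : Env κ ι) : ip (F50_1 E) (F50_4 E) = dotS (ek E lk50) r50_1_4 :=
  op_entryZ E lk50 2 3 _ _ _ _ (pg12 κ) (pg1 ι) m50_1 m50_4 l50_4 z50_4 w50_4 x50_4 (by decide) _ (chkS_sound E lk50 2 3 _ _ _ _ t50_1_4)

def r50_1_5 : List (ℕ × ℤ) := [(14, 24), (37, -48), (46, 48), (47, -24)]

theorem h50_1_5 (E : Env κ ι) : ip (F50_1 E) (F50_5 E) = dotS (ek E lk50) r50_1_5 :=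
  op_entryZ E lk50 2 3 _ _ _ _ (pg12 κ) (pg1 ι) m50_1 m50_5 l50_5 z50_5 w50_5 x50_5 (by decide) _ (chkS_sound E lk50 2 3 _ _ _ _ t50_1_5)

def r50_1_6 : List (ℕ × ℤ) := [(18, -24), (22, 24), (23, -48), (24, 48)]

theorem h50_1_6 (E : Env κ ι) : ip (F50_1 E) (F50_6 E) = dotS (ek E lk50) r50_1_6 :=
  op_entryZ E lk50 2 3 _ _ _ _ (pg12 κ) (pg1 ι) m50_1 m50_6 l50_6 z50_6 w50_6 x50_6 (by decide) _ (chkS_sound E lk50 2 3 _ _ _ _ t50_1_6)

def r50_1_7 : List (ℕ × ℤ) := [(13, 24), (50, -24), (86, 48), (110, -48)]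

theorem h50_1_7 (E : Env κ ι) : ip (F50_1 E) (F50_7 E) = dotS (ek E lk50) r50_1_7 :=
  op_entryZ E lk50 2 3 _ _ _ _ (pg12 κ) (pg1 ι) m50_1 m50_7 l50_7 z50_7 w50_7 x50_7 (by decide) _ (chkS_sound E lk50 2 3 _ _ _ _ t50_1_7)

def r50_2_2 : List (ℕ × ℤ) := [(2, -48), (51, 24), (63, 48), (73, -24)]

theorem h50_2_2 (E : Env κ ι) : ip (F50_2 E) (F50_2 E) = dotS (ek E lk50) r50_2_2 :=
  op_entryZ E lk50 2 3 _ _ _ _ (pg12 κ) (pg1 ι) m50_2 m50_2 l50_2 z50_2 w50_2 x50_2 (by decide) _ (chkS_sound E lk50 2 3 _ _ _ _ t50_2_2)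

def r50_2_3 : List (ℕ × ℤ) := [(4, 24), (7, 48), (9, -48), (41, -24)]

theorem h50_2_3 (E : Env κ ι) : ip (F50_2 E) (F50_3 E) = dotS (ek E lk50) r50_2_3 :=
  op_entryZ E lk50 2 3 _ _ _ _ (pg12 κ) (pg1 ι) m50_2 m50_3 l50_3 z50_3 w50_3 x50_3 (by decide) _ (chkS_sound E lk50 2 3 _ _ _ _ t50_2_3)

def r50_2_4 : List (ℕ × ℤ) := [(7, -24), (9, 24), (10, -24), (47, 24), (95, -24), (104, 24)]

theorem h50_2_4 (E : Env κ ι) : ip (F50_2 E) (F50_4 E) = dotS (ek E lk50) r50_2_4 :=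
  op_entryZ E lk50 2 3 _ _ _ _ (pg12 κ) (pg1 ι) m50_2 m50_4 l50_4 z50_4 w50_4 x50_4 (by decide) _ (chkS_sound E lk50 2 3 _ _ _ _ t50_2_4)

def r50_2_5 : List (ℕ × ℤ) := [(4, 24), (10, 48), (41, -24), (47, -48)]

theorem h50_2_5 (E : Env κ ι) : ip (F50_2 E) (F50_5 E) = dotS (ek E lk50) r50_2_5 :=
  op_entryZ E lk50 2 3 _ _ _ _ (pg12 κ) (pg1 ι) m50_2 m50_5 l50_5 z50_5 w50_5 x50_5 (by decide) _ (chkS_sound E lk50 2 3 _ _ _ _ t50_2_5)

def r50_2_6 : List (ℕ × ℤ) := [(19, 24), (42, -24)]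

theorem h50_2_6 (E : Env κ ι) : ip (F50_2 E) (F50_6 E) = dotS (ek E lk50) r50_2_6 :=
  op_entryZ E lk50 2 3 _ _ _ _ (pg12 κ) (pg1 ι) m50_2 m50_6 l50_6 z50_6 w50_6 x50_6 (by decide) _ (chkS_sound E lk50 2 3 _ _ _ _ t50_2_6)

def r50_2_7 : List (ℕ × ℤ) := [(3, 24), (6, -24), (112, -48), (117, 48)]

theorem h50_2_7 (E : Env κ ι) : ip (F50_2 E) (F50_7 E) = dotS (ek E lk50) r50_2_7 :=
  op_entryZ E lk50 2 3 _ _ _ _ (pg12 κ) (pg1 ι) m50_2 m50_7 l50_7 z50_7 w50_7 x50_7 (by decide) _ (chkS_sound E lk50 2 3 _ _ _ _ t50_2_7)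

def r50_3_3 : List (ℕ × ℤ) := [(33, 24), (39, -24), (99, -48), (105, 48)]

theorem h50_3_3 (E : Env κ ι) : ip (F50_3 E) (F50_3 E) = dotS (ek E lk50) r50_3_3 :=
  op_entryZ E lk50 2 3 _ _ _ _ (pg12 κ) (pg1 ι) m50_3 m50_3 l50_3 z50_3 w50_3 x50_3 (by decide) _ (chkS_sound E lk50 2 3 _ _ _ _ t50_3_3)

def r50_3_4 : List (ℕ × ℤ) := [(30, -24), (45, 24), (64, -24), (77, 24), (97, -24), (106, 24)]

theorem h50_3_4 (E : Env κ ι) : ip (F50_3 E) (F50_4 E) = dotS (ek E lk50) r50_3_4 :=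
  op_entryZ E lk50 2 3 _ _ _ _ (pg12 κ) (pg1 ι) m50_3 m50_4 l50_4 z50_4 w50_4 x50_4 (by decide) _ (chkS_sound E lk50 2 3 _ _ _ _ t50_3_4)

def r50_3_5 : List (ℕ × ℤ) := [(34, 24), (40, -24), (54, 48), (55, -48)]

theorem h50_3_5 (E : Env κ ι) : ip (F50_3 E) (F50_5 E) = dotS (ek E lk50) r50_3_5 :=
  op_entryZ E lk50 2 3 _ _ _ _ (pg12 κ) (pg1 ι) m50_3 m50_5 l50_5 z50_5 w50_5 x50_5 (by decide) _ (chkS_sound E lk50 2 3 _ _ _ _ t50_3_5)

def r50_3_6 : List (ℕ × ℤ) := [(20, 24), (24, 48), (26, -48), (43, -24)]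

theorem h50_3_6 (E : Env κ ι) : ip (F50_3 E) (F50_6 E) = dotS (ek E lk50) r50_3_6 :=
  op_entryZ E lk50 2 3 _ _ _ _ (pg12 κ) (pg1 ι) m50_3 m50_6 l50_6 z50_6 w50_6 x50_6 (by decide) _ (chkS_sound E lk50 2 3 _ _ _ _ t50_3_6)

def r50_3_7 : List (ℕ × ℤ) := [(8, -24), (100, 48), (108, -48), (120, 24)]

theorem h50_3_7 (E : Env κ ι) : ip (F50_3 E) (F50_7 E) = dotS (ek E lk50) r50_3_7 :=
  op_entryZ E lk50 2 3 _ _ _ _ (pg12 κ) (pg1 ι) m50_3 m50_7 l50_7 z50_7 w50_7 x50_7 (by decide) _ (chkS_sound E lk50 2 3 _ _ _ _ t50_3_7)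

def r50_4_4 : List (ℕ × ℤ) := [(64, -24), (65, 12), (66, -12), (67, 12), (76, -12), (77, 24), (79, -12), (80, 12), (99, -12), (105, 12)]

theorem h50_4_4 (E : Env κ ι) : ip (F50_4 E) (F50_4 E) = dotS (ek E lk50) r50_4_4 :=
  op_entryZ E lk50 2 3 _ _ _ _ (pg12 κ) (pg1 ι) m50_4 m50_4 l50_4 z50_4 w50_4 x50_4 (by decide) _ (chkS_sound E lk50 2 3 _ _ _ _ t50_4_4)

def r50_4_5 : List (ℕ × ℤ) := [(31, -24), (46, 24), (68, -24), (69, 24), (83, 24), (84, -24)]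

theorem h50_4_5 (E : Env κ ι) : ip (F50_4 E) (F50_5 E) = dotS (ek E lk50) r50_4_5 :=
  op_entryZ E lk50 2 3 _ _ _ _ (pg12 κ) (pg1 ι) m50_4 m50_5 l50_5 z50_5 w50_5 x50_5 (by decide) _ (chkS_sound E lk50 2 3 _ _ _ _ t50_4_5)

def r50_4_6 : List (ℕ × ℤ) := [(24, 24), (25, 24), (26, -24), (70, -24), (71, 24), (85, -24)]

theorem h50_4_6 (E : Env κ ι) : ip (F50_4 E) (F50_6 E) = dotS (ek E lk50) r50_4_6 :=
  op_entryZ E lk50 2 3 _ _ _ _ (pg12 κ) (pg1 ι) m50_4 m50_6 l50_6 z50_6 w50_6 x50_6 (by decide) _ (chkS_sound E lk50 2 3 _ _ _ _ t50_4_6)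

def r50_4_7 : List (ℕ × ℤ) := [(72, 24), (102, 24), (107, -24), (110, -24), (121, 24), (122, -24)]

theorem h50_4_7 (E : Env κ ι) : ip (F50_4 E) (F50_7 E) = dotS (ek E lk50) r50_4_7 :=
  op_entryZ E lk50 2 3 _ _ _ _ (pg12 κ) (pg1 ι) m50_4 m50_7 l50_7 z50_7 w50_7 x50_7 (by decide) _ (chkS_sound E lk50 2 3 _ _ _ _ t50_4_7)

def r50_5_5 : List (ℕ × ℤ) := [(52, 24), (58, 48), (59, -48), (74, -24)]

theorem h50_5_5 (E : Env κ ι) : ip (F50_5 E) (F50_5 E) = dotS (ek E lk50) r50_5_5 :=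
  op_entryZ E lk50 2 3 _ _ _ _ (pg12 κ) (pg1 ι) m50_5 m50_5 l50_5 z50_5 w50_5 x50_5 (by decide) _ (chkS_sound E lk50 2 3 _ _ _ _ t50_5_5)

def r50_5_6 : List (ℕ × ℤ) := [(17, 24), (27, 48), (32, -48), (44, -24)]

theorem h50_5_6 (E : Env κ ι) : ip (F50_5 E) (F50_6 E) = dotS (ek E lk50) r50_5_6 :=
  op_entryZ E lk50 2 3 _ _ _ _ (pg12 κ) (pg1 ι) m50_5 m50_6 l50_6 z50_6 w50_6 x50_6 (by decide) _ (chkS_sound E lk50 2 3 _ _ _ _ t50_5_6)

def r50_5_7 : List (ℕ × ℤ) := [(12, -24), (111, 24), (113, -48), (119, 48)]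

theorem h50_5_7 (E : Env κ ι) : ip (F50_5 E) (F50_7 E) = dotS (ek E lk50) r50_5_7 :=
  op_entryZ E lk50 2 3 _ _ _ _ (pg12 κ) (pg1 ι) m50_5 m50_7 l50_7 z50_7 w50_7 x50_7 (by decide) _ (chkS_sound E lk50 2 3 _ _ _ _ t50_5_7)

def r50_6_6 : List (ℕ × ℤ) := [(0, 24), (1, -24), (5, -48), (28, 48)]

theorem h50_6_6 (E : Env κ ι) : ip (F50_6 E) (F50_6 E) = dotS (ek E lk50) r50_6_6 :=
  op_entryZ E lk50 2 3 _ _ _ _ (pg12 κ) (pg1 ι) m50_6 m50_6 l50_6 z50_6 w50_6 x50_6 (by decide) _ (chkS_sound E lk50 2 3 _ _ _ _ t50_6_6)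

def r50_6_7 : List (ℕ × ℤ) := [(16, 24), (21, -24), (103, 48), (109, -48)]

theorem h50_6_7 (E : Env κ ι) : ip (F50_6 E) (F50_7 E) = dotS (ek E lk50) r50_6_7 :=
  op_entryZ E lk50 2 3 _ _ _ _ (pg12 κ) (pg1 ι) m50_6 m50_7 l50_7 z50_7 w50_7 x50_7 (by decide) _ (chkS_sound E lk50 2 3 _ _ _ _ t50_6_7)

def r50_7_7 : List (ℕ × ℤ) := [(11, -24), (123, -48), (124, 24), (125, 48)]

theorem h50_7_7 (E : Env κ ι) : ip (F50_7 E) (F50_7 E) = dotS (ek E lk50) r50_7_7 :=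
  op_entryZ E lk50 2 3 _ _ _ _ (pg12 κ) (pg1 ι) m50_7 m50_7 l50_7 z50_7 w50_7 x50_7 (by decide) _ (chkS_sound E lk50 2 3 _ _ _ _ t50_7_7)

theorem row50_0 (E : Env κ ι) : RowG (ek E lk50) (F50_0 E) [F50_0 E, F50_1 E, F50_2 E, F50_3 E, F50_4 E, F50_5 E, F50_6 E, F50_7 E] [r50_0_0, r50_0_1, r50_0_2, r50_0_3, r50_0_4, r50_0_5, r50_0_6, r50_0_7] :=
  rowG_cons _ _ _ _ _ _ (h50_0_0 E) (rowG_cons _ _ _ _ _ _ (h50_0_1 E) (rowG_cons _ _ _ _ _ _ (h50_0_2 E) (rowG_cons _ _ _ _ _ _ (h50_0_3 E) (rowG_cons _ _ _ _ _ _ (h50_0_4 E) (rowG_cons _ _ _ _ _ _ (h50_0_5 E) (rowG_cons _ _ _ _ _ _ (h50_0_6 E) (rowG_cons _ _ _ _ _ _ (h50_0_7 E) (rowG_nil _ _))))))))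

theorem row50_1 (E : Env κ ι) : RowG (ek E lk50) (F50_1 E) [F50_1 E, F50_2 E, F50_3 E, F50_4 E, F50_5 E, F50_6 E, F50_7 E] [r50_1_1, r50_1_2, r50_1_3, r50_1_4, r50_1_5, r50_1_6, r50_1_7] :=
  rowG_cons _ _ _ _ _ _ (h50_1_1 E) (rowG_cons _ _ _ _ _ _ (h50_1_2 E) (rowG_cons _ _ _ _ _ _ (h50_1_3 E) (rowG_cons _ _ _ _ _ _ (h50_1_4 E) (rowG_cons _ _ _ _ _ _ (h50_1_5 E) (rowG_cons _ _ _ _ _ _ (h50_1_6 E) (rowG_cons _ _ _ _ _ _ (h50_1_7 E) (rowG_nil _ _)))))))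

theorem row50_2 (E : Env κ ι) : RowG (ek E lk50) (F50_2 E) [F50_2 E, F50_3 E, F50_4 E, F50_5 E, F50_6 E, F50_7 E] [r50_2_2, r50_2_3, r50_2_4, r50_2_5, r50_2_6, r50_2_7] :=
  rowG_cons _ _ _ _ _ _ (h50_2_2 E) (rowG_cons _ _ _ _ _ _ (h50_2_3 E) (rowG_cons _ _ _ _ _ _ (h50_2_4 E) (rowG_cons _ _ _ _ _ _ (h50_2_5 E) (rowG_cons _ _ _ _ _ _ (h50_2_6 E) (rowG_cons _ _ _ _ _ _ (h50_2_7 E) (rowG_nil _ _))))))

theorem row50_3 (E : Env κ ι) : RowG (ek E lk50) (F50_3 E) [F50_3 E, F50_4 E, F50_5 E, F50_6 E, F50_7 E] [r50_3_3, r50_3_4, r50_3_5, r50_3_6, r50_3_7] :=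
  rowG_cons _ _ _ _ _ _ (h50_3_3 E) (rowG_cons _ _ _ _ _ _ (h50_3_4 E) (rowG_cons _ _ _ _ _ _ (h50_3_5 E) (rowG_cons _ _ _ _ _ _ (h50_3_6 E) (rowG_cons _ _ _ _ _ _ (h50_3_7 E) (rowG_nil _ _)))))

theorem row50_4 (E : Env κ ι) : RowG (ek E lk50) (F50_4 E) [F50_4 E, F50_5 E, F50_6 E, F50_7 E] [r50_4_4, r50_4_5, r50_4_6, r50_4_7] :=
  rowG_cons _ _ _ _ _ _ (h50_4_4 E) (rowG_cons _ _ _ _ _ _ (h50_4_5 E) (rowG_cons _ _ _ _ _ _ (h50_4_6 E) (rowG_cons _ _ _ _ _ _ (h50_4_7 E) (rowG_nil _ _))))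

theorem row50_5 (E : Env κ ι) : RowG (ek E lk50) (F50_5 E) [F50_5 E, F50_6 E, F50_7 E] [r50_5_5, r50_5_6, r50_5_7] :=
  rowG_cons _ _ _ _ _ _ (h50_5_5 E) (rowG_cons _ _ _ _ _ _ (h50_5_6 E) (rowG_cons _ _ _ _ _ _ (h50_5_7 E) (rowG_nil _ _)))

theorem row50_6 (E : Env κ ι) : RowG (ek E lk50) (F50_6 E) [F50_6 E, F50_7 E] [r50_6_6, r50_6_7] :=
  rowG_cons _ _ _ _ _ _ (h50_6_6 E) (rowG_cons _ _ _ _ _ _ (h50_6_7 E) (rowG_nil _ _))

theorem row50_7 (E : Env κ ι) : RowG (ek E lk50) (F50_7 E) [F50_7 E] [r50_7_7] :=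
  rowG_cons _ _ _ _ _ _ (h50_7_7 E) (rowG_nil _ _)

def tab50 : List (List (List (ℕ × ℤ))) := [[r50_0_0, r50_0_1, r50_0_2, r50_0_3, r50_0_4, r50_0_5, r50_0_6, r50_0_7], [r50_1_1, r50_1_2, r50_1_3, r50_1_4, r50_1_5, r50_1_6, r50_1_7], [r50_2_2, r50_2_3, r50_2_4, r50_2_5, r50_2_6, r50_2_7], [r50_3_3, r50_3_4, r50_3_5, r50_3_6, r50_3_7], [r50_4_4, r50_4_5, r50_4_6, r50_4_7], [r50_5_5, r50_5_6, r50_5_7], [r50_6_6, r50_6_7], [r50_7_7]]

theorem tri50 (E : Env κ ι) : TriG (ek E lk50) [F50_0 E, F50_1 E, F50_2 E, F50_3 E, F50_4 E, F50_5 E, F50_6 E, F50_7 E] tab50 := by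
  refine triG_cons _ _ _ _ _ (row50_0 E) ?_
  refine triG_cons _ _ _ _ _ (row50_1 E) ?_
  refine triG_cons _ _ _ _ _ (row50_2 E) ?_
  refine triG_cons _ _ _ _ _ (row50_3 E) ?_
  refine triG_cons _ _ _ _ _ (row50_4 E) ?_
  refine triG_cons _ _ _ _ _ (row50_5 E) ?_
  refine triG_cons _ _ _ _ _ (row50_6 E) ?_
  refine triG_cons _ _ _ _ _ (row50_7 E) ?_
  exact triG_nil _

end

def lk51 : List Key := [
  (2, 5, [(0, [0], [0, 1]), (0, [0], [0, 1]), (0, [1], [2, 3]), (0, [1], [2, 4]), (4, [], [4]), (4, [], [3])]),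
  (2, 5, [(0, [0], [0, 1]), (0, [1], [0, 2]), (0, [1], [3, 4]), (0, [0], [3, 4]), (4, [], [2]), (4, [], [1])]),
  (2, 7, [(0, [0], [0, 1]), (0, [1], [0, 2]), (0, [1], [3, 4]), (0, [0], [5, 6]), (1, [], [5, 6]), (1, [], [3, 4]), (4, [], [2]), (4, [], [1])]),
  (2, 6, [(0, [0], [0, 1]), (0, [0], [2, 3]), (0, [1], [4, 5]), (1, [], [2, 3]), (2, [1], [0, 4, 5]), (4, [], [1])]),
  (2, 7, [(0, [0], [0, 1]), (0, [0], [0, 1]), (0, [1], [2, 3]), (0, [1], [4, 5]), (1, [], [2, 6]), (1, [], [4, 5]), (4, [], [3]), (4, [], [6])]),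
  (2, 7, [(0, [0], [0, 1]), (0, [1], [0, 2]), (0, [1], [3, 4]), (0, [0], [3, 4]), (4, [], [2]), (4, [], [1]), (1, [], [5, 6]), (1, [], [5, 6])]),
  (2, 5, [(0, [0], [0, 1]), (0, [1], [0, 2]), (0, [1], [2, 3]), (0, [0], [1, 4]), (4, [], [4]), (4, [], [3])]),
  (2, 5, [(0, [0], [0, 1]), (0, [1], [0, 2]), (0, [0], [2, 3]), (0, [1], [1, 4]), (4, [], [4]), (4, [], [3])]),
  (2, 6, [(0, [0], [0, 1]), (0, [0], [2, 3]), (0, [1], [4, 5]), (1, [], [4, 5]), (2, [1], [0, 2, 3]), (4, [], [1])]),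
  (2, 7, [(0, [0], [0, 1]), (0, [0], [2, 3]), (0, [1], [4, 5]), (0, [1], [4, 6]), (1, [], [0, 5]), (1, [], [2, 3]), (4, [], [1]), (4, [], [6])]),
  (2, 6, [(0, [0], [0, 1]), (0, [0], [2, 3]), (0, [1], [4, 5]), (1, [], [0, 4]), (2, [1], [1, 2, 3]), (4, [], [5])]),
  (2, 7, [(0, [0], [0, 1]), (0, [1], [0, 2]), (0, [0], [3, 4]), (0, [1], [5, 6]), (1, [], [1, 3]), (1, [], [5, 6]), (4, [], [2]), (4, [], [4])]),
  (2, 7, [(0, [0], [0, 1]), (0, [0], [2, 3]), (0, [1], [0, 4]), (0, [1], [4, 5]), (1, [], [1, 6]), (1, [], [2, 3]), (4, [], [5]), (4, [], [6])]),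
  (2, 5, [(0, [0], [0, 1]), (0, [1], [0, 2]), (2, [0], [2, 3, 4]), (2, [1], [1, 3, 4])]),
  (2, 6, [(0, [0], [0, 1]), (0, [0], [2, 3]), (0, [1], [0, 4]), (1, [], [4, 5]), (2, [1], [1, 2, 3]), (4, [], [5])]),
  (2, 6, [(0, [0], [0, 1]), (0, [0], [2, 3]), (0, [1], [0, 2]), (1, [], [4, 5]), (2, [1], [1, 4, 5]), (4, [], [3])]),
  (2, 7, [(0, [0], [0, 1]), (0, [1], [0, 2]), (0, [1], [1, 3]), (0, [0], [4, 5]), (1, [], [2, 6]), (1, [], [4, 5]), (4, [], [3]), (4, [], [6])]),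
  (2, 7, [(0, [0], [0, 1]), (0, [1], [0, 2]), (0, [0], [2, 3]), (0, [1], [1, 4]), (4, [], [4]), (4, [], [3]), (1, [], [5, 6]), (1, [], [5, 6])]),
  (2, 5, [(0, [0], [0, 1]), (0, [0], [0, 2]), (0, [1], [3, 4]), (2, [1], [1, 3, 4]), (4, [], [2])]),
  (2, 6, [(0, [0], [0, 1]), (0, [0], [0, 1]), (0, [1], [2, 3]), (0, [1], [2, 4]), (1, [], [3, 5]), (4, [], [4]), (4, [], [5])]),
  (2, 6, [(0, [0], [0, 1]), (0, [0], [2, 3]), (0, [1], [0, 4]), (0, [1], [4, 5]), (1, [], [2, 3]), (4, [], [1]), (4, [], [5])]),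
  (2, 6, [(0, [0], [0, 1]), (0, [0], [0, 1]), (0, [1], [2, 3]), (0, [1], [4, 5]), (1, [], [4, 5]), (4, [], [2]), (4, [], [3])]),
  (2, 6, [(0, [0], [0, 1]), (0, [0], [0, 1]), (0, [1], [2, 3]), (0, [1], [4, 5]), (1, [], [2, 4]), (4, [], [5]), (4, [], [3])]),
  (2, 5, [(0, [0], [0, 1]), (0, [0], [2, 3]), (0, [1], [0, 4]), (2, [1], [1, 2, 3]), (4, [], [4])]),
  (2, 6, [(0, [0], [0, 1]), (0, [1], [0, 2]), (0, [1], [1, 3]), (0, [0], [4, 5]), (1, [], [4, 5]), (4, [], [3]), (4, [], [2])]),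
  (2, 6, [(0, [0], [0, 1]), (0, [1], [0, 2]), (0, [1], [1, 3]), (0, [0], [4, 5]), (1, [], [2, 4]), (4, [], [3]), (4, [], [5])]),
  (2, 6, [(0, [0], [0, 1]), (0, [0], [2, 3]), (0, [1], [0, 4]), (0, [1], [4, 5]), (1, [], [2, 5]), (4, [], [1]), (4, [], [3])]),
  (2, 6, [(0, [0], [0, 1]), (0, [1], [2, 3]), (0, [0], [2, 4]), (0, [1], [0, 5]), (1, [], [1, 3]), (4, [], [5]), (4, [], [4])]),
  (2, 6, [(0, [0], [0, 1]), (0, [0], [2, 3]), (0, [1], [2, 4]), (0, [1], [0, 5]), (1, [], [1, 3]), (4, [], [5]), (4, [], [4])]),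
  (2, 6, [(0, [0], [0, 1]), (0, [1], [0, 2]), (0, [0], [2, 3]), (0, [1], [1, 4]), (1, [], [3, 5]), (4, [], [4]), (4, [], [5])]),
  (2, 6, [(0, [0], [0, 1]), (0, [0], [2, 3]), (0, [1], [0, 4]), (0, [1], [4, 5]), (1, [], [1, 2]), (4, [], [3]), (4, [], [5])]),
  (2, 6, [(0, [0], [0, 1]), (0, [0], [2, 3]), (0, [1], [0, 4]), (0, [1], [2, 4]), (1, [], [1, 5]), (4, [], [3]), (4, [], [5])]),
  (2, 5, [(0, [0], [0, 1]), (0, [0], [2, 3]), (0, [1], [2, 4]), (0, [1], [0, 4]), (4, [], [3]), (4, [], [1])]),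
  (2, 7, [(0, [0], [0, 1]), (0, [0], [0, 2]), (0, [1], [1, 2]), (4, [], [3]), (0, [1], [4, 5]), (1, [], [4, 6]), (1, [], [3, 6]), (4, [], [5])]),
  (2, 7, [(0, [0], [0, 1]), (0, [0], [0, 2]), (0, [1], [1, 2]), (4, [], [3]), (0, [1], [4, 5]), (1, [], [4, 6]), (1, [], [3, 5]), (4, [], [6])]),
  (2, 7, [(0, [0], [0, 1]), (0, [0], [0, 2]), (0, [1], [1, 2]), (4, [], [3]), (0, [1], [4, 5]), (1, [], [4, 5]), (1, [], [3, 6]), (4, [], [6])]),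
  (2, 6, [(0, [0], [0, 1]), (0, [0], [0, 2]), (0, [1], [1, 2]), (4, [], [3]), (0, [1], [4, 5]), (1, [], [4, 5]), (4, [], [3])]),
  (2, 6, [(0, [0], [0, 1]), (0, [0], [0, 2]), (0, [1], [1, 2]), (4, [], [3]), (0, [1], [4, 5]), (1, [], [3, 4]), (4, [], [5])]),
  (2, 5, [(0, [0], [0, 1]), (0, [0], [0, 2]), (0, [1], [1, 2]), (4, [], [3]), (0, [1], [3, 4]), (4, [], [4])]),
  (2, 7, [(0, [0], [0, 1]), (0, [0], [0, 2]), (0, [1], [3, 2]), (4, [], [1]), (0, [1], [4, 5]), (1, [], [4, 6]), (1, [], [5, 6]), (4, [], [3])]),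
  (2, 7, [(0, [0], [0, 1]), (0, [0], [0, 2]), (0, [1], [3, 2]), (4, [], [1]), (0, [1], [4, 5]), (1, [], [4, 6]), (1, [], [3, 6]), (4, [], [5])]),
  (2, 7, [(0, [0], [0, 1]), (0, [0], [0, 2]), (0, [1], [3, 2]), (4, [], [1]), (0, [1], [4, 5]), (1, [], [4, 6]), (1, [], [3, 5]), (4, [], [6])]),
  (2, 7, [(0, [0], [0, 1]), (0, [0], [0, 2]), (0, [1], [3, 2]), (4, [], [1]), (0, [1], [3, 4]), (1, [], [5, 6]), (1, [], [4, 5]), (4, [], [6])]),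
  (2, 6, [(0, [0], [0, 1]), (0, [0], [0, 2]), (0, [1], [3, 2]), (4, [], [1]), (0, [1], [3, 4]), (1, [], [4, 5]), (4, [], [5])]),
  (2, 7, [(0, [0], [0, 1]), (0, [0], [0, 1]), (0, [1], [2, 3]), (4, [], [3]), (0, [1], [4, 5]), (1, [], [4, 6]), (1, [], [2, 6]), (4, [], [5])]),
  (2, 7, [(0, [0], [0, 1]), (0, [0], [0, 1]), (0, [1], [2, 3]), (4, [], [3]), (0, [1], [4, 5]), (1, [], [4, 6]), (1, [], [2, 5]), (4, [], [6])]),
  (2, 7, [(0, [0], [0, 1]), (0, [0], [2, 3]), (0, [1], [0, 3]), (4, [], [1]), (0, [1], [4, 5]), (1, [], [4, 6]), (1, [], [5, 6]), (4, [], [2])]),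
  (2, 7, [(0, [0], [0, 1]), (0, [0], [2, 3]), (0, [1], [0, 3]), (4, [], [1]), (0, [1], [4, 5]), (1, [], [4, 6]), (1, [], [2, 6]), (4, [], [5])]),
  (2, 7, [(0, [0], [0, 1]), (0, [0], [2, 3]), (0, [1], [0, 3]), (4, [], [1]), (0, [1], [4, 5]), (1, [], [4, 6]), (1, [], [2, 5]), (4, [], [6])]),
  (2, 7, [(0, [0], [0, 1]), (0, [0], [2, 3]), (0, [1], [0, 3]), (4, [], [1]), (0, [1], [2, 4]), (1, [], [5, 6]), (1, [], [4, 5]), (4, [], [6])]),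
  (2, 7, [(0, [0], [0, 1]), (0, [0], [2, 3]), (0, [1], [0, 1]), (4, [], [3]), (0, [1], [4, 5]), (1, [], [4, 6]), (1, [], [5, 6]), (4, [], [2])]),
  (2, 7, [(0, [0], [0, 1]), (0, [0], [2, 3]), (0, [1], [0, 1]), (4, [], [3]), (0, [1], [4, 5]), (1, [], [4, 6]), (1, [], [2, 6]), (4, [], [5])]),
  (2, 7, [(0, [0], [0, 1]), (0, [0], [2, 3]), (0, [1], [0, 1]), (4, [], [3]), (0, [1], [4, 5]), (1, [], [4, 6]), (1, [], [2, 5]), (4, [], [6])]),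
  (2, 7, [(0, [0], [0, 1]), (0, [0], [2, 3]), (0, [1], [0, 1]), (4, [], [3]), (0, [1], [4, 5]), (1, [], [4, 5]), (1, [], [2, 6]), (4, [], [6])]),
  (2, 6, [(0, [0], [0, 1]), (0, [0], [2, 3]), (0, [1], [0, 1]), (4, [], [3]), (0, [1], [4, 5]), (1, [], [4, 5]), (4, [], [2])]),
  (2, 6, [(0, [0], [0, 1]), (0, [0], [2, 3]), (0, [1], [0, 1]), (4, [], [3]), (0, [1], [4, 5]), (1, [], [2, 4]), (4, [], [5])]),
  (2, 7, [(0, [0], [0, 1]), (0, [0], [2, 3]), (0, [1], [0, 1]), (4, [], [3]), (0, [1], [2, 4]), (1, [], [5, 6]), (1, [], [4, 5]), (4, [], [6])]),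
  (2, 6, [(0, [0], [0, 1]), (0, [0], [2, 3]), (0, [1], [0, 1]), (4, [], [3]), (0, [1], [2, 4]), (1, [], [4, 5]), (4, [], [5])]),
  (2, 6, [(0, [0], [0, 1]), (0, [0], [2, 3]), (0, [1], [0, 1]), (4, [], [3]), (1, [], [4, 5]), (2, [1], [2, 4, 5])]),
  (2, 7, [(0, [0], [0, 1]), (0, [0], [2, 0]), (0, [1], [1, 3]), (4, [], [3]), (0, [1], [4, 5]), (1, [], [4, 6]), (1, [], [2, 6]), (4, [], [5])]),
  (2, 7, [(0, [0], [0, 1]), (0, [0], [2, 0]), (0, [1], [1, 3]), (4, [], [3]), (0, [1], [4, 5]), (1, [], [4, 6]), (1, [], [2, 5]), (4, [], [6])]),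
  (2, 7, [(0, [0], [0, 1]), (0, [0], [2, 0]), (0, [1], [1, 3]), (4, [], [3]), (0, [1], [4, 5]), (1, [], [4, 5]), (1, [], [2, 6]), (4, [], [6])]),
  (2, 7, [(0, [0], [0, 1]), (0, [0], [2, 0]), (0, [1], [1, 3]), (4, [], [3]), (0, [1], [2, 4]), (1, [], [5, 6]), (1, [], [5, 6]), (4, [], [4])]),
  (2, 7, [(0, [0], [0, 1]), (0, [0], [2, 0]), (0, [1], [1, 3]), (4, [], [3]), (0, [1], [2, 4]), (1, [], [5, 6]), (1, [], [4, 5]), (4, [], [6])]),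
  (2, 6, [(0, [0], [0, 1]), (0, [0], [2, 0]), (0, [1], [1, 3]), (4, [], [3]), (1, [], [4, 5]), (2, [1], [2, 4, 5])]),
  (2, 7, [(0, [0], [0, 1]), (0, [0], [0, 1]), (0, [1], [2, 3]), (4, [], [4]), (0, [1], [5, 6]), (1, [], [5, 6]), (1, [], [2, 3]), (4, [], [4])]),
  (2, 7, [(0, [0], [0, 1]), (0, [0], [0, 1]), (0, [1], [2, 3]), (4, [], [4]), (0, [1], [2, 5]), (1, [], [5, 6]), (1, [], [3, 4]), (4, [], [6])]),
  (2, 7, [(0, [0], [0, 1]), (0, [0], [2, 0]), (0, [1], [3, 1]), (4, [], [4]), (0, [1], [5, 6]), (1, [], [5, 6]), (1, [], [2, 3]), (4, [], [4])]),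
  (2, 7, [(0, [0], [0, 1]), (0, [0], [2, 0]), (0, [1], [3, 1]), (4, [], [4]), (0, [1], [5, 6]), (1, [], [2, 5]), (1, [], [3, 6]), (4, [], [4])]),
  (2, 7, [(0, [0], [0, 1]), (0, [0], [2, 0]), (0, [1], [3, 1]), (4, [], [4]), (0, [1], [5, 6]), (1, [], [2, 5]), (1, [], [3, 4]), (4, [], [6])]),
  (2, 7, [(0, [0], [0, 1]), (0, [0], [2, 0]), (0, [1], [3, 1]), (4, [], [4]), (0, [1], [5, 6]), (1, [], [3, 5]), (1, [], [2, 4]), (4, [], [6])]),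
  (2, 7, [(0, [0], [0, 1]), (0, [0], [2, 0]), (0, [1], [3, 1]), (4, [], [4]), (0, [1], [5, 6]), (1, [], [4, 5]), (1, [], [2, 3]), (4, [], [6])]),
  (2, 7, [(0, [0], [0, 1]), (0, [0], [2, 0]), (0, [1], [3, 1]), (4, [], [4]), (0, [1], [2, 5]), (1, [], [5, 6]), (1, [], [3, 6]), (4, [], [4])]),
  (2, 7, [(0, [0], [0, 1]), (0, [0], [2, 0]), (0, [1], [3, 1]), (4, [], [4]), (0, [1], [2, 5]), (1, [], [5, 6]), (1, [], [3, 4]), (4, [], [6])]),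
  (2, 7, [(0, [0], [0, 1]), (0, [0], [2, 0]), (0, [1], [3, 1]), (4, [], [4]), (0, [1], [3, 5]), (1, [], [5, 6]), (1, [], [2, 4]), (4, [], [6])]),
  (2, 7, [(0, [0], [0, 1]), (0, [0], [2, 0]), (0, [1], [3, 1]), (4, [], [4]), (0, [1], [4, 5]), (1, [], [2, 6]), (1, [], [3, 6]), (4, [], [5])]),
  (2, 7, [(0, [0], [0, 1]), (0, [0], [2, 0]), (0, [1], [3, 1]), (4, [], [4]), (0, [1], [2, 5]), (1, [], [4, 6]), (1, [], [3, 5]), (4, [], [6])]),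
  (2, 7, [(0, [0], [0, 1]), (0, [0], [2, 0]), (0, [1], [3, 1]), (4, [], [4]), (0, [1], [3, 5]), (1, [], [4, 6]), (1, [], [2, 5]), (4, [], [6])]),
  (2, 6, [(0, [0], [0, 1]), (0, [0], [2, 0]), (0, [1], [3, 1]), (4, [], [4]), (0, [1], [2, 5]), (1, [], [3, 5]), (4, [], [4])]),
  (2, 6, [(0, [0], [0, 1]), (0, [0], [2, 0]), (0, [1], [3, 1]), (4, [], [4]), (0, [1], [3, 5]), (1, [], [2, 5]), (4, [], [4])]),
  (2, 6, [(0, [0], [0, 1]), (0, [0], [2, 0]), (0, [1], [3, 1]), (4, [], [4]), (0, [1], [4, 5]), (1, [], [2, 3]), (4, [], [5])]),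
  (2, 7, [(0, [0], [0, 1]), (0, [0], [2, 0]), (0, [1], [3, 1]), (4, [], [4]), (0, [1], [2, 3]), (1, [], [5, 6]), (1, [], [4, 5]), (4, [], [6])]),
  (2, 6, [(0, [0], [0, 1]), (0, [0], [2, 0]), (0, [1], [3, 1]), (4, [], [4]), (0, [1], [2, 3]), (1, [], [4, 5]), (4, [], [5])]),
  (2, 5, [(0, [0], [0, 1]), (0, [0], [2, 0]), (0, [1], [3, 1]), (4, [], [4]), (0, [1], [2, 3]), (4, [], [4])]),
  (2, 6, [(0, [0], [0, 1]), (0, [0], [2, 0]), (0, [1], [3, 1]), (4, [], [4]), (1, [], [3, 5]), (2, [1], [2, 4, 5])]),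
  (2, 6, [(0, [0], [0, 1]), (0, [0], [2, 0]), (0, [1], [3, 1]), (4, [], [4]), (1, [], [4, 5]), (2, [1], [2, 3, 5])]),
  (2, 5, [(0, [0], [0, 1]), (0, [0], [2, 0]), (0, [1], [3, 1]), (4, [], [4]), (2, [1], [2, 3, 4])]),
  (2, 7, [(0, [0], [0, 1]), (0, [0], [2, 0]), (0, [1], [3, 4]), (4, [], [1]), (0, [1], [5, 6]), (1, [], [5, 6]), (1, [], [3, 4]), (4, [], [2])]),
  (2, 7, [(0, [0], [0, 1]), (0, [0], [2, 0]), (0, [1], [3, 4]), (4, [], [1]), (0, [1], [5, 6]), (1, [], [2, 5]), (1, [], [3, 6]), (4, [], [4])]),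
  (2, 7, [(0, [0], [0, 1]), (0, [0], [2, 0]), (0, [1], [3, 4]), (4, [], [1]), (0, [1], [5, 6]), (1, [], [3, 5]), (1, [], [4, 6]), (4, [], [2])]),
  (2, 7, [(0, [0], [0, 1]), (0, [0], [2, 0]), (0, [1], [3, 4]), (4, [], [1]), (0, [1], [3, 5]), (1, [], [5, 6]), (1, [], [2, 6]), (4, [], [4])]),
  (2, 7, [(0, [0], [0, 1]), (0, [0], [2, 0]), (0, [1], [3, 4]), (4, [], [1]), (0, [1], [3, 5]), (1, [], [5, 6]), (1, [], [4, 6]), (4, [], [2])]),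
  (2, 7, [(0, [0], [0, 1]), (0, [0], [2, 0]), (0, [1], [3, 4]), (4, [], [1]), (0, [1], [3, 5]), (1, [], [5, 6]), (1, [], [2, 4]), (4, [], [6])]),
  (2, 7, [(0, [0], [0, 1]), (0, [0], [2, 0]), (0, [1], [3, 4]), (4, [], [1]), (0, [1], [3, 5]), (1, [], [2, 6]), (1, [], [4, 5]), (4, [], [6])]),
  (2, 6, [(0, [0], [0, 1]), (0, [0], [2, 0]), (0, [1], [3, 4]), (4, [], [1]), (0, [1], [3, 5]), (1, [], [2, 5]), (4, [], [4])]),
  (2, 6, [(0, [0], [0, 1]), (0, [0], [2, 0]), (0, [1], [3, 4]), (4, [], [1]), (0, [1], [3, 5]), (1, [], [4, 5]), (4, [], [2])]),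
  (2, 6, [(0, [0], [0, 1]), (0, [0], [2, 0]), (0, [1], [3, 4]), (4, [], [1]), (1, [], [3, 5]), (2, [1], [2, 4, 5])]),
  (2, 7, [(0, [0], [0, 1]), (0, [0], [2, 3]), (0, [1], [0, 1]), (4, [], [4]), (0, [1], [5, 6]), (1, [], [5, 6]), (1, [], [2, 3]), (4, [], [4])]),
  (2, 7, [(0, [0], [0, 1]), (0, [0], [2, 3]), (0, [1], [0, 1]), (4, [], [4]), (0, [1], [5, 6]), (1, [], [2, 5]), (1, [], [3, 6]), (4, [], [4])]),
  (2, 7, [(0, [0], [0, 1]), (0, [0], [2, 3]), (0, [1], [0, 1]), (4, [], [4]), (0, [1], [2, 5]), (1, [], [5, 6]), (1, [], [3, 6]), (4, [], [4])]),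
  (2, 7, [(0, [0], [0, 1]), (0, [0], [2, 3]), (0, [1], [0, 1]), (4, [], [4]), (0, [1], [2, 5]), (1, [], [5, 6]), (1, [], [3, 4]), (4, [], [6])]),
  (2, 7, [(0, [0], [0, 1]), (0, [0], [2, 3]), (0, [1], [0, 1]), (4, [], [4]), (0, [1], [2, 5]), (1, [], [4, 6]), (1, [], [3, 5]), (4, [], [6])]),
  (2, 6, [(0, [0], [0, 1]), (0, [0], [2, 3]), (0, [1], [0, 1]), (4, [], [4]), (0, [1], [2, 5]), (1, [], [3, 5]), (4, [], [4])]),
  (2, 7, [(0, [0], [0, 1]), (0, [0], [2, 3]), (0, [1], [0, 1]), (4, [], [4]), (0, [1], [2, 3]), (1, [], [5, 6]), (1, [], [5, 6]), (4, [], [4])]),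
  (2, 7, [(0, [0], [0, 1]), (0, [0], [2, 3]), (0, [1], [0, 1]), (4, [], [4]), (0, [1], [2, 3]), (1, [], [5, 6]), (1, [], [4, 5]), (4, [], [6])]),
  (2, 6, [(0, [0], [0, 1]), (0, [0], [2, 3]), (0, [1], [0, 1]), (4, [], [4]), (1, [], [2, 5]), (2, [1], [3, 4, 5])]),
  (2, 7, [(0, [0], [0, 1]), (0, [0], [2, 3]), (0, [1], [4, 0]), (4, [], [1]), (0, [1], [5, 6]), (1, [], [5, 6]), (1, [], [2, 4]), (4, [], [3])]),
  (2, 7, [(0, [0], [0, 1]), (0, [0], [2, 3]), (0, [1], [4, 0]), (4, [], [1]), (0, [1], [5, 6]), (1, [], [2, 5]), (1, [], [3, 6]), (4, [], [4])]),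
  (2, 7, [(0, [0], [0, 1]), (0, [0], [2, 3]), (0, [1], [4, 0]), (4, [], [1]), (0, [1], [5, 6]), (1, [], [2, 5]), (1, [], [4, 6]), (4, [], [3])]),
  (2, 7, [(0, [0], [0, 1]), (0, [0], [2, 3]), (0, [1], [4, 0]), (4, [], [1]), (0, [1], [5, 6]), (1, [], [2, 5]), (1, [], [3, 4]), (4, [], [6])]),
  (2, 7, [(0, [0], [0, 1]), (0, [0], [2, 3]), (0, [1], [4, 0]), (4, [], [1]), (0, [1], [2, 5]), (1, [], [5, 6]), (1, [], [3, 6]), (4, [], [4])]),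
  (2, 7, [(0, [0], [0, 1]), (0, [0], [2, 3]), (0, [1], [4, 0]), (4, [], [1]), (0, [1], [2, 5]), (1, [], [5, 6]), (1, [], [4, 6]), (4, [], [3])]),
  (2, 7, [(0, [0], [0, 1]), (0, [0], [2, 3]), (0, [1], [4, 0]), (4, [], [1]), (0, [1], [2, 5]), (1, [], [5, 6]), (1, [], [3, 4]), (4, [], [6])]),
  (2, 7, [(0, [0], [0, 1]), (0, [0], [2, 3]), (0, [1], [4, 0]), (4, [], [1]), (0, [1], [2, 5]), (1, [], [3, 6]), (1, [], [4, 6]), (4, [], [5])]),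
  (2, 7, [(0, [0], [0, 1]), (0, [0], [2, 3]), (0, [1], [4, 0]), (4, [], [1]), (0, [1], [2, 5]), (1, [], [3, 6]), (1, [], [4, 5]), (4, [], [6])]),
  (2, 7, [(0, [0], [0, 1]), (0, [0], [2, 3]), (0, [1], [4, 0]), (4, [], [1]), (0, [1], [2, 5]), (1, [], [4, 6]), (1, [], [3, 5]), (4, [], [6])]),
  (2, 6, [(0, [0], [0, 1]), (0, [0], [2, 3]), (0, [1], [4, 0]), (4, [], [1]), (0, [1], [2, 5]), (1, [], [3, 5]), (4, [], [4])]),
  (2, 6, [(0, [0], [0, 1]), (0, [0], [2, 3]), (0, [1], [4, 0]), (4, [], [1]), (1, [], [2, 5]), (2, [1], [3, 4, 5])]),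
  (2, 7, [(0, [0], [0, 1]), (0, [0], [2, 3]), (0, [1], [1, 3]), (4, [], [4]), (0, [1], [5, 6]), (1, [], [5, 6]), (1, [], [0, 2]), (4, [], [4])]),
  (2, 7, [(0, [0], [0, 1]), (0, [0], [2, 3]), (0, [1], [1, 3]), (4, [], [4]), (0, [1], [5, 6]), (1, [], [0, 5]), (1, [], [2, 6]), (4, [], [4])]),
  (2, 7, [(0, [0], [0, 1]), (0, [0], [2, 3]), (0, [1], [1, 3]), (4, [], [4]), (0, [1], [5, 6]), (1, [], [0, 5]), (1, [], [2, 4]), (4, [], [6])]),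
  (2, 7, [(0, [0], [0, 1]), (0, [0], [2, 3]), (0, [1], [1, 3]), (4, [], [4]), (0, [1], [5, 6]), (1, [], [4, 5]), (1, [], [0, 2]), (4, [], [6])]),
  (2, 7, [(0, [0], [0, 1]), (0, [0], [2, 3]), (0, [1], [1, 3]), (4, [], [4]), (0, [1], [0, 5]), (1, [], [5, 6]), (1, [], [2, 6]), (4, [], [4])]),
  (2, 7, [(0, [0], [0, 1]), (0, [0], [2, 3]), (0, [1], [1, 3]), (4, [], [4]), (0, [1], [0, 5]), (1, [], [5, 6]), (1, [], [2, 4]), (4, [], [6])]),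
  (2, 7, [(0, [0], [0, 1]), (0, [0], [2, 3]), (0, [1], [1, 3]), (4, [], [4]), (0, [1], [4, 5]), (1, [], [0, 6]), (1, [], [2, 6]), (4, [], [5])]),
  (2, 7, [(0, [0], [0, 1]), (0, [0], [2, 3]), (0, [1], [1, 3]), (4, [], [4]), (0, [1], [0, 5]), (1, [], [4, 6]), (1, [], [2, 5]), (4, [], [6])]),
  (2, 6, [(0, [0], [0, 1]), (0, [0], [2, 3]), (0, [1], [1, 3]), (4, [], [4]), (0, [1], [0, 5]), (1, [], [2, 5]), (4, [], [4])]),
  (2, 6, [(0, [0], [0, 1]), (0, [0], [2, 3]), (0, [1], [1, 3]), (4, [], [4]), (0, [1], [4, 5]), (1, [], [0, 2]), (4, [], [5])]),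
  (2, 7, [(0, [0], [0, 1]), (0, [0], [2, 3]), (0, [1], [1, 3]), (4, [], [4]), (0, [1], [0, 2]), (1, [], [5, 6]), (1, [], [4, 5]), (4, [], [6])]),
  (2, 6, [(0, [0], [0, 1]), (0, [0], [2, 3]), (0, [1], [1, 3]), (4, [], [4]), (0, [1], [0, 2]), (1, [], [4, 5]), (4, [], [5])]),
  (2, 5, [(0, [0], [0, 1]), (0, [0], [2, 3]), (0, [1], [1, 3]), (4, [], [4]), (0, [1], [0, 2]), (4, [], [4])]),
  (2, 6, [(0, [0], [0, 1]), (0, [0], [2, 3]), (0, [1], [1, 3]), (4, [], [4]), (1, [], [0, 5]), (2, [1], [2, 4, 5])]),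
  (2, 6, [(0, [0], [0, 1]), (0, [0], [2, 3]), (0, [1], [1, 3]), (4, [], [4]), (1, [], [4, 5]), (2, [1], [0, 2, 5])]),
  (2, 5, [(0, [0], [0, 1]), (0, [0], [2, 3]), (0, [1], [1, 3]), (4, [], [4]), (2, [1], [0, 2, 4])]),
  (2, 7, [(0, [0], [0, 1]), (0, [0], [2, 3]), (0, [1], [4, 3]), (4, [], [1]), (0, [1], [5, 6]), (1, [], [5, 6]), (1, [], [2, 4]), (4, [], [0])]),
  (2, 7, [(0, [0], [0, 1]), (0, [0], [2, 3]), (0, [1], [4, 3]), (4, [], [1]), (0, [1], [5, 6]), (1, [], [2, 5]), (1, [], [4, 6]), (4, [], [0])]),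
  (2, 7, [(0, [0], [0, 1]), (0, [0], [2, 3]), (0, [1], [4, 3]), (4, [], [1]), (0, [1], [5, 6]), (1, [], [0, 5]), (1, [], [2, 4]), (4, [], [6])]),
  (2, 7, [(0, [0], [0, 1]), (0, [0], [2, 3]), (0, [1], [4, 3]), (4, [], [1]), (0, [1], [5, 6]), (1, [], [2, 5]), (1, [], [0, 4]), (4, [], [6])]),
  (2, 7, [(0, [0], [0, 1]), (0, [0], [2, 3]), (0, [1], [4, 3]), (4, [], [1]), (0, [1], [5, 6]), (1, [], [4, 5]), (1, [], [0, 2]), (4, [], [6])]),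
  (2, 6, [(0, [0], [0, 1]), (0, [0], [2, 3]), (0, [1], [4, 3]), (4, [], [1]), (1, [], [0, 5]), (2, [1], [2, 4, 5])]),
  (2, 6, [(0, [0], [0, 1]), (0, [0], [2, 3]), (0, [1], [4, 3]), (4, [], [1]), (1, [], [2, 5]), (2, [1], [0, 4, 5])]),
  (2, 6, [(0, [0], [0, 1]), (0, [0], [2, 3]), (0, [1], [4, 3]), (4, [], [1]), (1, [], [4, 5]), (2, [1], [0, 2, 5])]),
  (2, 5, [(0, [0], [0, 1]), (0, [0], [2, 3]), (0, [1], [4, 3]), (4, [], [1]), (2, [1], [0, 2, 4])]),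
  (2, 7, [(0, [0], [0, 1]), (0, [0], [2, 1]), (0, [1], [3, 4]), (4, [], [4]), (0, [1], [5, 6]), (1, [], [5, 6]), (1, [], [0, 2]), (4, [], [3])]),
  (2, 7, [(0, [0], [0, 1]), (0, [0], [2, 1]), (0, [1], [3, 4]), (4, [], [4]), (0, [1], [5, 6]), (1, [], [0, 5]), (1, [], [2, 6]), (4, [], [3])]),
  (2, 7, [(0, [0], [0, 1]), (0, [0], [2, 1]), (0, [1], [3, 4]), (4, [], [4]), (0, [1], [5, 6]), (1, [], [0, 5]), (1, [], [2, 3]), (4, [], [6])]),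
  (2, 7, [(0, [0], [0, 1]), (0, [0], [2, 1]), (0, [1], [3, 4]), (4, [], [4]), (0, [1], [5, 6]), (1, [], [3, 5]), (1, [], [0, 2]), (4, [], [6])]),
  (2, 6, [(0, [0], [0, 1]), (0, [0], [2, 1]), (0, [1], [3, 4]), (4, [], [4]), (1, [], [0, 5]), (2, [1], [2, 3, 5])]),
  (2, 6, [(0, [0], [0, 1]), (0, [0], [2, 1]), (0, [1], [3, 4]), (4, [], [4]), (1, [], [3, 5]), (2, [1], [0, 2, 5])]),
  (2, 5, [(0, [0], [0, 1]), (0, [0], [2, 1]), (0, [1], [3, 4]), (4, [], [4]), (2, [1], [0, 2, 3])]),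
  (2, 6, [(0, [0], [0, 1]), (0, [0], [2, 3]), (0, [1], [1, 4]), (4, [], [4]), (1, [], [2, 5]), (2, [1], [0, 3, 5])]),
  (2, 7, [(0, [0], [0, 1]), (0, [0], [2, 1]), (0, [1], [3, 4]), (4, [], [5]), (0, [1], [3, 6]), (1, [], [0, 6]), (1, [], [2, 4]), (4, [], [5])]),
  (2, 6, [(0, [0], [0, 1]), (0, [0], [2, 1]), (0, [1], [3, 4]), (4, [], [5]), (1, [], [0, 3]), (2, [1], [2, 4, 5])]),
  (2, 6, [(0, [0], [0, 1]), (0, [0], [2, 1]), (0, [1], [3, 4]), (4, [], [5]), (1, [], [0, 5]), (2, [1], [2, 3, 4])]),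
  (2, 6, [(0, [0], [0, 1]), (0, [0], [2, 1]), (0, [1], [3, 4]), (4, [], [5]), (1, [], [3, 4]), (2, [1], [0, 2, 5])]),
  (2, 6, [(0, [0], [0, 1]), (0, [0], [2, 1]), (0, [1], [3, 4]), (4, [], [5]), (1, [], [3, 5]), (2, [1], [0, 2, 4])]),
  (2, 7, [(0, [0], [0, 1]), (0, [0], [2, 3]), (0, [1], [4, 1]), (4, [], [5]), (0, [1], [2, 6]), (1, [], [0, 6]), (1, [], [3, 4]), (4, [], [5])]),
  (2, 7, [(0, [0], [0, 1]), (0, [0], [2, 3]), (0, [1], [4, 1]), (4, [], [5]), (0, [1], [2, 6]), (1, [], [4, 6]), (1, [], [0, 3]), (4, [], [5])]),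
  (2, 6, [(0, [0], [0, 1]), (0, [0], [2, 3]), (0, [1], [4, 1]), (4, [], [5]), (1, [], [0, 2]), (2, [1], [3, 4, 5])]),
  (2, 6, [(0, [0], [0, 1]), (0, [0], [2, 3]), (0, [1], [4, 1]), (4, [], [5]), (1, [], [2, 3]), (2, [1], [0, 4, 5])]),
  (2, 6, [(0, [0], [0, 1]), (0, [0], [2, 3]), (0, [1], [4, 1]), (4, [], [5]), (1, [], [2, 4]), (2, [1], [0, 3, 5])]),
  (2, 6, [(0, [0], [0, 1]), (0, [0], [2, 3]), (0, [1], [4, 1]), (4, [], [5]), (1, [], [2, 5]), (2, [1], [0, 3, 4])]),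
  (2, 6, [(0, [0], [0, 1]), (0, [0], [2, 3]), (0, [1], [4, 5]), (4, [], [1]), (1, [], [0, 2]), (2, [1], [3, 4, 5])]),
  (2, 6, [(0, [0], [0, 1]), (0, [0], [2, 3]), (0, [1], [4, 5]), (4, [], [1]), (1, [], [2, 4]), (2, [1], [0, 3, 5])]),
  (2, 6, [(0, [0], [0, 1]), (0, [0], [2, 3]), (0, [1], [4, 5]), (4, [], [5]), (1, [], [0, 2]), (2, [1], [1, 3, 4])]),
  (2, 5, [(0, [0], [0, 1]), (2, [0], [2, 3, 1]), (0, [1], [2, 4]), (2, [1], [0, 3, 4])]),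
  (2, 5, [(0, [0], [0, 1]), (2, [1], [2, 3, 1]), (0, [0], [0, 4]), (2, [1], [2, 3, 4])]),
  (2, 5, [(0, [0], [0, 1]), (2, [1], [2, 3, 1]), (0, [0], [2, 4]), (2, [1], [0, 3, 4])])]

def kl51 : List ℕ := [5, 6, 10, 21, 22, 26, 33, 34, 40, 42, 43, 45, 50, 52, 53, 54, 55, 56, 62, 64, 75, 76, 78, 81, 83, 84, 85, 86, 87, 88, 89, 90, 93, 100, 101, 102, 103, 104, 107, 113, 114, 115, 117, 118, 122, 123, 127, 128, 129, 131, 134, 135, 136, 137, 138, 139, 141, 142, 143, 145, 146, 147, 149, 150, 151, 207, 210, 226, 227, 228, 229, 230, 231, 233, 234, 235, 236, 237, 238, 239, 240, 245, 246, 247, 249, 250, 251, 254, 255, 256, 257, 258, 259, 260, 261, 262, 265, 270, 271, 272, 273, 274, 275, 277, 278, 281, 289, 290, 291, 292, 293, 294, 295, 296, 297, 298, 299, 301, 304, 305, 306, 307, 308, 309, 310, 311, 312, 313, 317, 318, 319, 320, 321, 322, 323, 324, 325, 326, 327, 328, 329, 330,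 331, 332, 333, 334, 335, 336, 337, 338, 339, 422, 425, 426, 427, 428, 431, 433, 434, 436, 437, 438, 439, 440, 441, 447, 449, 450]

def m51_0 : Base := (0, 2, [(0, [0], [3, 4]), (0, [1], [3, 4]), (1, [], [0, 1]), (4, [], [2])])

def l51_0 : Cov := [(24, 0, 2, [(0, [0], [3, 4]), (0, [1], [3, 4]), (1, [], [0, 1]), (4, [], [2])]),
  (-24, 0, 2, [(0, [0], [3, 4]), (0, [1], [3, 4]), (1, [], [1, 2]), (4, [], [0])])]

def z51_0 : Cov := [(0, 0, 2, [(0, [0], [3, 4]), (0, [1], [3, 4]), (1, [], [0, 2]), (4, [], [1])])]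

def w51_0 : List (List Wit) := [[(0, 0, 0, 16, 16), (2, 0, 0, 16, 16), (0, 0, 0, 16, 16), (1, 0, 0, 16, 16), (2, 0, 0, 16, 16), (1, 0, 0, 16, 16)],
  [(0, 0, 0, 16, 16), (2, 0, 0, 16, 16), (0, 0, 0, 16, 16), (1, 0, 0, 16, 16), (2, 0, 0, 16, 16), (1, 0, 0, 16, 16)]]

def m51_1 : Base := (0, 2, [(0, [0], [3, 4]), (0, [1], [0, 3]), (1, [], [1, 4]), (4, [], [2])])

def l51_1 : Cov := [(8, 0, 2, [(0, [0], [3, 4]), (0, [1], [0, 3]), (1, [], [1, 4]), (4, [], [2])]),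
  (4, 0, 2, [(0, [0], [3, 4]), (0, [1], [0, 3]), (1, [], [2, 4]), (4, [], [1])]),
  (4, 0, 2, [(0, [0], [3, 4]), (0, [1], [1, 3]), (1, [], [0, 4]), (4, [], [2])]),
  (-4, 0, 2, [(0, [0], [3, 4]), (0, [1], [1, 3]), (1, [], [2, 4]), (4, [], [0])]),
  (-4, 0, 2, [(0, [0], [3, 4]), (0, [1], [2, 3]), (1, [], [0, 4]), (4, [], [1])]),
  (-8, 0, 2, [(0, [0], [3, 4]), (0, [1], [2, 3]), (1, [], [1, 4]), (4, [], [0])]),
  (8, 0, 2, [(0, [1], [3, 4]), (0, [0], [0, 3]), (1, [], [1, 4]), (4, [], [2])]),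
  (4, 0, 2, [(0, [1], [3, 4]), (0, [0], [0, 3]), (1, [], [2, 4]), (4, [], [1])]),
  (4, 0, 2, [(0, [1], [3, 4]), (0, [0], [1, 3]), (1, [], [0, 4]), (4, [], [2])]),
  (-4, 0, 2, [(0, [1], [3, 4]), (0, [0], [1, 3]), (1, [], [2, 4]), (4, [], [0])]),
  (-4, 0, 2, [(0, [1], [3, 4]), (0, [0], [2, 3]), (1, [], [0, 4]), (4, [], [1])]),
  (-8, 0, 2, [(0, [1], [3, 4]), (0, [0], [2, 3]), (1, [], [1, 4]), (4, [], [0])])]

def z51_1 : Cov := []

def w51_1 : List (List Wit) := [[(0, 0, 0, 16, 16), (1, 0, 0, 16, 16), (2, 0, 0, 16, 16), (3, 0, 0, 16, 16), (4, 0, 0, 16, 16), (5, 0, 0, 16, 16)],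
  [(6, 0, 0, 16, 16), (7, 0, 0, 16, 16), (8, 0, 0, 16, 16), (9, 0, 0, 16, 16), (10, 0, 0, 16, 16), (11, 0, 0, 16, 16)]]

def m51_2 : Base := (0, 2, [(0, [0], [3, 4]), (0, [1], [0, 3]), (1, [], [1, 2]), (4, [], [4])])

def l51_2 : Cov := [(12, 0, 2, [(0, [0], [3, 4]), (0, [1], [0, 3]), (1, [], [1, 2]), (4, [], [4])]),
  (-12, 0, 2, [(0, [0], [3, 4]), (0, [1], [2, 3]), (1, [], [0, 1]), (4, [], [4])]),
  (12, 0, 2, [(0, [1], [3, 4]), (0, [0], [0, 3]), (1, [], [1, 2]), (4, [], [4])]),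
  (-12, 0, 2, [(0, [1], [3, 4]), (0, [0], [2, 3]), (1, [], [0, 1]), (4, [], [4])])]

def z51_2 : Cov := [(0, 0, 2, [(0, [0], [3, 4]), (0, [1], [1, 3]), (1, [], [0, 2]), (4, [], [4])]),
  (0, 0, 2, [(0, [1], [3, 4]), (0, [0], [1, 3]), (1, [], [0, 2]), (4, [], [4])])]

def w51_2 : List (List Wit) := [[(0, 0, 0, 16, 16), (0, 0, 0, 16, 16), (4, 0, 0, 16, 16), (4, 0, 0, 16, 16), (1, 0, 0, 16, 16), (1, 0, 0, 16, 16)],
  [(2, 0, 0, 16, 16), (2, 0, 0, 16, 16), (5, 0, 0, 16, 16), (5, 0, 0, 16, 16), (3, 0, 0, 16, 16), (3, 0, 0, 16, 16)]]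

def m51_3 : Base := (0, 2, [(0, [0], [3, 4]), (0, [1], [0, 3]), (1, [], [2, 4]), (4, [], [1])])

def l51_3 : Cov := [(8, 0, 2, [(0, [0], [3, 4]), (0, [1], [0, 3]), (1, [], [2, 4]), (4, [], [1])]),
  (4, 0, 2, [(0, [0], [3, 4]), (0, [1], [0, 3]), (1, [], [1, 4]), (4, [], [2])]),
  (4, 0, 2, [(0, [0], [3, 4]), (0, [1], [1, 3]), (1, [], [2, 4]), (4, [], [0])]),
  (-4, 0, 2, [(0, [0], [3, 4]), (0, [1], [1, 3]), (1, [], [0, 4]), (4, [], [2])]),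
  (-4, 0, 2, [(0, [0], [3, 4]), (0, [1], [2, 3]), (1, [], [1, 4]), (4, [], [0])]),
  (-8, 0, 2, [(0, [0], [3, 4]), (0, [1], [2, 3]), (1, [], [0, 4]), (4, [], [1])]),
  (8, 0, 2, [(0, [1], [3, 4]), (0, [0], [0, 3]), (1, [], [2, 4]), (4, [], [1])]),
  (4, 0, 2, [(0, [1], [3, 4]), (0, [0], [0, 3]), (1, [], [1, 4]), (4, [], [2])]),
  (4, 0, 2, [(0, [1], [3, 4]), (0, [0], [1, 3]), (1, [], [2, 4]), (4, [], [0])]),
  (-4, 0, 2, [(0, [1], [3, 4]), (0, [0], [1, 3]), (1, [], [0, 4]), (4, [], [2])]),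
  (-4, 0, 2, [(0, [1], [3, 4]), (0, [0], [2, 3]), (1, [], [1, 4]), (4, [], [0])]),
  (-8, 0, 2, [(0, [1], [3, 4]), (0, [0], [2, 3]), (1, [], [0, 4]), (4, [], [1])])]

def z51_3 : Cov := []

def w51_3 : List (List Wit) := [[(0, 0, 0, 16, 16), (1, 0, 0, 16, 16), (2, 0, 0, 16, 16), (3, 0, 0, 16, 16), (4, 0, 0, 16, 16), (5, 0, 0, 16, 16)],
  [(6, 0, 0, 16, 16), (7, 0, 0, 16, 16), (8, 0, 0, 16, 16), (9, 0, 0, 16, 16), (10, 0, 0, 16, 16), (11, 0, 0, 16, 16)]]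

def m51_4 : Base := (0, 2, [(0, [0], [3, 4]), (0, [1], [0, 1]), (1, [], [3, 4]), (4, [], [2])])

def l51_4 : Cov := [(12, 0, 2, [(0, [0], [3, 4]), (0, [1], [0, 1]), (1, [], [3, 4]), (4, [], [2])]),
  (-12, 0, 2, [(0, [0], [3, 4]), (0, [1], [1, 2]), (1, [], [3, 4]), (4, [], [0])]),
  (12, 0, 2, [(0, [1], [3, 4]), (0, [0], [0, 1]), (1, [], [3, 4]), (4, [], [2])]),
  (-12, 0, 2, [(0, [1], [3, 4]), (0, [0], [1, 2]), (1, [], [3, 4]), (4, [], [0])])]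

def z51_4 : Cov := [(0, 0, 2, [(0, [0], [3, 4]), (0, [1], [0, 2]), (1, [], [3, 4]), (4, [], [1])]),
  (0, 0, 2, [(0, [1], [3, 4]), (0, [0], [0, 2]), (1, [], [3, 4]), (4, [], [1])])]

def w51_4 : List (List Wit) := [[(0, 0, 0, 16, 16), (4, 0, 0, 16, 16), (0, 0, 0, 16, 16), (1, 0, 0, 16, 16), (4, 0, 0, 16, 16), (1, 0, 0, 16, 16)],
  [(2, 0, 0, 16, 16), (5, 0, 0, 16, 16), (2, 0, 0, 16, 16), (3, 0, 0, 16, 16), (5, 0, 0, 16, 16), (3, 0, 0, 16, 16)]]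

def m51_5 : Base := (0, 2, [(0, [0], [3, 4]), (0, [1], [0, 1]), (1, [], [2, 3]), (4, [], [4])])

def l51_5 : Cov := [(12, 0, 2, [(0, [0], [3, 4]), (0, [1], [0, 1]), (1, [], [2, 3]), (4, [], [4])]),
  (-12, 0, 2, [(0, [0], [3, 4]), (0, [1], [1, 2]), (1, [], [0, 3]), (4, [], [4])]),
  (12, 0, 2, [(0, [1], [3, 4]), (0, [0], [0, 1]), (1, [], [2, 3]), (4, [], [4])]),
  (-12, 0, 2, [(0, [1], [3, 4]), (0, [0], [1, 2]), (1, [], [0, 3]), (4, [], [4])])]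

def z51_5 : Cov := [(0, 0, 2, [(0, [0], [3, 4]), (0, [1], [0, 2]), (1, [], [1, 3]), (4, [], [4])]),
  (0, 0, 2, [(0, [1], [3, 4]), (0, [0], [0, 2]), (1, [], [1, 3]), (4, [], [4])])]

def w51_5 : List (List Wit) := [[(0, 0, 0, 16, 16), (4, 0, 0, 16, 16), (0, 0, 0, 16, 16), (1, 0, 0, 16, 16), (4, 0, 0, 16, 16), (1, 0, 0, 16, 16)],
  [(2, 0, 0, 16, 16), (5, 0, 0, 16, 16), (2, 0, 0, 16, 16), (3, 0, 0, 16, 16), (5, 0, 0, 16, 16), (3, 0, 0, 16, 16)]]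

def m51_6 : Base := (0, 2, [(0, [0], [0, 3]), (0, [1], [1, 4]), (1, [], [3, 4]), (4, [], [2])])

def l51_6 : Cov := [(12, 0, 2, [(0, [0], [0, 3]), (0, [1], [1, 4]), (1, [], [3, 4]), (4, [], [2])]),
  (12, 0, 2, [(0, [0], [1, 3]), (0, [1], [0, 4]), (1, [], [3, 4]), (4, [], [2])]),
  (-12, 0, 2, [(0, [0], [1, 3]), (0, [1], [2, 4]), (1, [], [3, 4]), (4, [], [0])]),
  (-12, 0, 2, [(0, [0], [2, 3]), (0, [1], [1, 4]), (1, [], [3, 4]), (4, [], [0])])]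

def z51_6 : Cov := [(0, 0, 2, [(0, [0], [0, 3]), (0, [1], [2, 4]), (1, [], [3, 4]), (4, [], [1])]),
  (0, 0, 2, [(0, [0], [2, 3]), (0, [1], [0, 4]), (1, [], [3, 4]), (4, [], [1])])]

def w51_6 : List (List Wit) := [[(0, 0, 0, 16, 16), (4, 0, 0, 16, 16), (1, 0, 0, 16, 16), (2, 0, 0, 16, 16), (5, 0, 0, 16, 16), (3, 0, 0, 16, 16)],
  [(1, 0, 0, 1, 1), (5, 0, 0, 1, 1), (0, 0, 0, 1, 1), (3, 0, 0, 1, 1), (4, 0, 0, 1, 1), (2, 0, 0, 1, 1)]]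

def m51_7 : Base := (0, 2, [(0, [0], [0, 3]), (0, [1], [1, 4]), (1, [], [2, 4]), (4, [], [3])])

def l51_7 : Cov := [(8, 0, 2, [(0, [0], [0, 3]), (0, [1], [1, 4]), (1, [], [2, 4]), (4, [], [3])]),
  (4, 0, 2, [(0, [0], [0, 3]), (0, [1], [2, 4]), (1, [], [1, 4]), (4, [], [3])]),
  (4, 0, 2, [(0, [0], [1, 3]), (0, [1], [0, 4]), (1, [], [2, 4]), (4, [], [3])]),
  (-4, 0, 2, [(0, [0], [1, 3]), (0, [1], [2, 4]), (1, [], [0, 4]), (4, [], [3])]),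
  (-4, 0, 2, [(0, [0], [2, 3]), (0, [1], [0, 4]), (1, [], [1, 4]), (4, [], [3])]),
  (-8, 0, 2, [(0, [0], [2, 3]), (0, [1], [1, 4]), (1, [], [0, 4]), (4, [], [3])]),
  (8, 0, 2, [(0, [1], [0, 3]), (0, [0], [1, 4]), (1, [], [2, 4]), (4, [], [3])]),
  (4, 0, 2, [(0, [1], [0, 3]), (0, [0], [2, 4]), (1, [], [1, 4]), (4, [], [3])]),
  (4, 0, 2, [(0, [1], [1, 3]), (0, [0], [0, 4]), (1, [], [2, 4]), (4, [], [3])]),
  (-4, 0, 2, [(0, [1], [1, 3]), (0, [0], [2, 4]), (1, [], [0, 4]), (4, [], [3])]),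
  (-4, 0, 2, [(0, [1], [2, 3]), (0, [0], [0, 4]), (1, [], [1, 4]), (4, [], [3])]),
  (-8, 0, 2, [(0, [1], [2, 3]), (0, [0], [1, 4]), (1, [], [0, 4]), (4, [], [3])])]

def z51_7 : Cov := []

def w51_7 : List (List Wit) := [[(0, 0, 0, 16, 16), (1, 0, 0, 16, 16), (2, 0, 0, 16, 16), (3, 0, 0, 16, 16), (4, 0, 0, 16, 16), (5, 0, 0, 16, 16)],
  [(6, 0, 0, 16, 16), (7, 0, 0, 16, 16), (8, 0, 0, 16, 16), (9, 0, 0, 16, 16), (10, 0, 0, 16, 16), (11, 0, 0, 16, 16)]]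

def m51_8 : Base := (0, 2, [(0, [0], [0, 3]), (0, [1], [1, 4]), (1, [], [2, 3]), (4, [], [4])])

def l51_8 : Cov := [(8, 0, 2, [(0, [0], [0, 3]), (0, [1], [1, 4]), (1, [], [2, 3]), (4, [], [4])]),
  (4, 0, 2, [(0, [0], [0, 3]), (0, [1], [2, 4]), (1, [], [1, 3]), (4, [], [4])]),
  (4, 0, 2, [(0, [0], [1, 3]), (0, [1], [0, 4]), (1, [], [2, 3]), (4, [], [4])]),
  (-4, 0, 2, [(0, [0], [1, 3]), (0, [1], [2, 4]), (1, [], [0, 3]), (4, [], [4])]),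
  (-4, 0, 2, [(0, [0], [2, 3]), (0, [1], [0, 4]), (1, [], [1, 3]), (4, [], [4])]),
  (-8, 0, 2, [(0, [0], [2, 3]), (0, [1], [1, 4]), (1, [], [0, 3]), (4, [], [4])]),
  (8, 0, 2, [(0, [1], [0, 3]), (0, [0], [1, 4]), (1, [], [2, 3]), (4, [], [4])]),
  (4, 0, 2, [(0, [1], [0, 3]), (0, [0], [2, 4]), (1, [], [1, 3]), (4, [], [4])]),
  (4, 0, 2, [(0, [1], [1, 3]), (0, [0], [0, 4]), (1, [], [2, 3]), (4, [], [4])]),
  (-4, 0, 2, [(0, [1], [1, 3]), (0, [0], [2, 4]), (1, [], [0, 3]), (4, [], [4])]),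
  (-4, 0, 2, [(0, [1], [2, 3]), (0, [0], [0, 4]), (1, [], [1, 3]), (4, [], [4])]),
  (-8, 0, 2, [(0, [1], [2, 3]), (0, [0], [1, 4]), (1, [], [0, 3]), (4, [], [4])])]

def z51_8 : Cov := []

def w51_8 : List (List Wit) := [[(0, 0, 0, 16, 16), (1, 0, 0, 16, 16), (2, 0, 0, 16, 16), (3, 0, 0, 16, 16), (4, 0, 0, 16, 16), (5, 0, 0, 16, 16)],
  [(6, 0, 0, 16, 16), (7, 0, 0, 16, 16), (8, 0, 0, 16, 16), (9, 0, 0, 16, 16), (10, 0, 0, 16, 16), (11, 0, 0, 16, 16)]]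

def m51_9 : Base := (0, 2, [(0, [0], [0, 3]), (0, [1], [1, 3]), (1, [], [2, 4]), (4, [], [4])])

def l51_9 : Cov := [(12, 0, 2, [(0, [0], [0, 3]), (0, [1], [1, 3]), (1, [], [2, 4]), (4, [], [4])]),
  (12, 0, 2, [(0, [0], [1, 3]), (0, [1], [0, 3]), (1, [], [2, 4]), (4, [], [4])]),
  (-12, 0, 2, [(0, [0], [1, 3]), (0, [1], [2, 3]), (1, [], [0, 4]), (4, [], [4])]),
  (-12, 0, 2, [(0, [0], [2, 3]), (0, [1], [1, 3]), (1, [], [0, 4]), (4, [], [4])])]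

def z51_9 : Cov := [(0, 0, 2, [(0, [0], [0, 3]), (0, [1], [2, 3]), (1, [], [1, 4]), (4, [], [4])]),
  (0, 0, 2, [(0, [0], [2, 3]), (0, [1], [0, 3]), (1, [], [1, 4]), (4, [], [4])])]

def w51_9 : List (List Wit) := [[(0, 0, 0, 16, 16), (4, 0, 0, 16, 16), (1, 0, 0, 16, 16), (2, 0, 0, 16, 16), (5, 0, 0, 16, 16), (3, 0, 0, 16, 16)],
  [(1, 0, 0, 16, 16), (5, 0, 0, 16, 16), (0, 0, 0, 16, 16), (3, 0, 0, 16, 16), (4, 0, 0, 16, 16), (2, 0, 0, 16, 16)]]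

def m51_10 : Base := (0, 1, [(0, [0], [0, 3]), (0, [1], [1, 3]), (4, [], [2])])

def l51_10 : Cov := [(12, 0, 1, [(0, [0], [0, 3]), (0, [1], [1, 3]), (4, [], [2])]),
  (12, 0, 1, [(0, [0], [1, 3]), (0, [1], [0, 3]), (4, [], [2])]),
  (-12, 0, 1, [(0, [0], [1, 3]), (0, [1], [2, 3]), (4, [], [0])]),
  (-12, 0, 1, [(0, [0], [2, 3]), (0, [1], [1, 3]), (4, [], [0])])]

def z51_10 : Cov := [(0, 0, 1, [(0, [0], [0, 3]), (0, [1], [2, 3]), (4, [], [1])]),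
  (0, 0, 1, [(0, [0], [2, 3]), (0, [1], [0, 3]), (4, [], [1])])]

def w51_10 : List (List Wit) := [[(0, 0, 0, 0, 0), (4, 0, 0, 0, 0), (1, 0, 0, 0, 0), (2, 0, 0, 0, 0), (5, 0, 0, 0, 0), (3, 0, 0, 0, 0)],
  [(1, 0, 0, 0, 0), (5, 0, 0, 0, 0), (0, 0, 0, 0, 0), (3, 0, 0, 0, 0), (4, 0, 0, 0, 0), (2, 0, 0, 0, 0)]]

def m51_11 : Base := (0, 2, [(0, [0], [0, 3]), (0, [1], [1, 2]), (1, [], [3, 4]), (4, [], [4])])

def l51_11 : Cov := [(12, 0, 2, [(0, [0], [0, 3]), (0, [1], [1, 2]), (1, [], [3, 4]), (4, [], [4])]),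
  (-12, 0, 2, [(0, [0], [2, 3]), (0, [1], [0, 1]), (1, [], [3, 4]), (4, [], [4])]),
  (12, 0, 2, [(0, [1], [0, 3]), (0, [0], [1, 2]), (1, [], [3, 4]), (4, [], [4])]),
  (-12, 0, 2, [(0, [1], [2, 3]), (0, [0], [0, 1]), (1, [], [3, 4]), (4, [], [4])])]

def z51_11 : Cov := [(0, 0, 2, [(0, [0], [1, 3]), (0, [1], [0, 2]), (1, [], [3, 4]), (4, [], [4])]),
  (0, 0, 2, [(0, [1], [1, 3]), (0, [0], [0, 2]), (1, [], [3, 4]), (4, [], [4])])]

def w51_11 : List (List Wit) := [[(0, 0, 0, 16, 16), (0, 0, 0, 16, 16), (4, 0, 0, 16, 16), (4, 0, 0, 16, 16), (1, 0, 0, 16, 16), (1, 0, 0, 16, 16)],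
  [(2, 0, 0, 16, 16), (2, 0, 0, 16, 16), (5, 0, 0, 16, 16), (5, 0, 0, 16, 16), (3, 0, 0, 16, 16), (3, 0, 0, 16, 16)]]

def m51_12 : Base := (0, 1, [(0, [0], [0, 3]), (0, [1], [1, 2]), (4, [], [3])])

def l51_12 : Cov := [(12, 0, 1, [(0, [0], [0, 3]), (0, [1], [1, 2]), (4, [], [3])]),
  (-12, 0, 1, [(0, [0], [2, 3]), (0, [1], [0, 1]), (4, [], [3])]),
  (12, 0, 1, [(0, [1], [0, 3]), (0, [0], [1, 2]), (4, [], [3])]),
  (-12, 0, 1, [(0, [1], [2, 3]), (0, [0], [0, 1]), (4, [], [3])])]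

def z51_12 : Cov := [(0, 0, 1, [(0, [0], [1, 3]), (0, [1], [0, 2]), (4, [], [3])]),
  (0, 0, 1, [(0, [1], [1, 3]), (0, [0], [0, 2]), (4, [], [3])])]

def w51_12 : List (List Wit) := [[(0, 0, 0, 0, 0), (0, 0, 0, 0, 0), (4, 0, 0, 0, 0), (4, 0, 0, 0, 0), (1, 0, 0, 0, 0), (1, 0, 0, 0, 0)],
  [(2, 0, 0, 0, 0), (2, 0, 0, 0, 0), (5, 0, 0, 0, 0), (5, 0, 0, 0, 0), (3, 0, 0, 0, 0), (3, 0, 0, 0, 0)]]

def m51_13 : Base := (0, 1, [(0, [0], [0, 3]), (2, [1], [1, 2, 3])])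

def l51_13 : Cov := [(12, 0, 1, [(0, [0], [0, 3]), (2, [1], [1, 2, 3])]),
  (-12, 0, 1, [(0, [0], [2, 3]), (2, [1], [0, 1, 3])]),
  (12, 0, 1, [(0, [1], [0, 3]), (2, [0], [1, 2, 3])]),
  (-12, 0, 1, [(0, [1], [2, 3]), (2, [0], [0, 1, 3])])]

def z51_13 : Cov := [(0, 0, 1, [(0, [0], [1, 3]), (2, [1], [0, 2, 3])]),
  (0, 0, 1, [(0, [1], [1, 3]), (2, [0], [0, 2, 3])])]

def w51_13 : List (List Wit) := [[(0, 0, 0, 0, 0), (0, 0, 0, 0, 0), (4, 0, 0, 0, 0), (4, 0, 0, 0, 0), (1, 0, 0, 0, 0), (1, 0, 0, 0, 0)],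
  [(2, 0, 0, 0, 0), (2, 0, 0, 0, 0), (5, 0, 0, 0, 0), (5, 0, 0, 0, 0), (3, 0, 0, 0, 0), (3, 0, 0, 0, 0)]]

theorem tr51 : trK keys lk51 kl51 = true := by
  decide +kernel

theorem x51_0 : expB 2 3 dg11 dg2 m51_0 (l51_0 ++ z51_0) w51_0 = true := by
  decide +kernel

theorem x51_1 : expB 2 3 dg11 dg2 m51_1 (l51_1 ++ z51_1) w51_1 = true := by
  decide +kernel

theorem x51_2 : expB 2 3 dg11 dg2 m51_2 (l51_2 ++ z51_2) w51_2 = true := by
  decide +kernel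

theorem x51_3 : expB 2 3 dg11 dg2 m51_3 (l51_3 ++ z51_3) w51_3 = true := by
  decide +kernel

theorem x51_4 : expB 2 3 dg11 dg2 m51_4 (l51_4 ++ z51_4) w51_4 = true := by
  decide +kernel

theorem x51_5 : expB 2 3 dg11 dg2 m51_5 (l51_5 ++ z51_5) w51_5 = true := by
  decide +kernel

theorem x51_6 : expB 2 3 dg11 dg2 m51_6 (l51_6 ++ z51_6) w51_6 = true := by
  decide +kernel

theorem x51_7 : expB 2 3 dg11 dg2 m51_7 (l51_7 ++ z51_7) w51_7 = true := by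
  decide +kernel

theorem x51_8 : expB 2 3 dg11 dg2 m51_8 (l51_8 ++ z51_8) w51_8 = true := by
  decide +kernel

theorem x51_9 : expB 2 3 dg11 dg2 m51_9 (l51_9 ++ z51_9) w51_9 = true := by
  decide +kernel

theorem x51_10 : expB 2 3 dg11 dg2 m51_10 (l51_10 ++ z51_10) w51_10 = true := by
  decide +kernel

theorem x51_11 : expB 2 3 dg11 dg2 m51_11 (l51_11 ++ z51_11) w51_11 = true := by
  decide +kernel

theorem x51_12 : expB 2 3 dg11 dg2 m51_12 (l51_12 ++ z51_12) w51_12 = true := by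
  decide +kernel

theorem x51_13 : expB 2 3 dg11 dg2 m51_13 (l51_13 ++ z51_13) w51_13 = true := by
  decide +kernel

theorem t51_0_0 : chkS lk51 2 3 [(1, m51_0)] l51_0
  [(103, 16, 16, 52495461, 16934211), (104, 16, 16, 52495446, 1205571)]
  [(103, 24), (104, -24)] = true := by
  decide +kernel

theorem t51_0_1 : chkS lk51 2 3 [(1, m51_0)] l51_1
  [(99, 16, 16, 52495461, 16934211), (100, 16, 16, 52495461, 16934211), (99, 16, 16, 52495446, 1205571), (100, 16, 16, 52495446, 1205571), (56, 1, 1, 69272421, 17179971), (56, 1, 1, 69272406, 1451331), (99, 16, 16, 86049891, 23201091), (100, 16, 16, 86050371, 39912771), (99, 16, 16, 86049846, 6427971), (100, 16, 16, 86050356, 39851331), (56, 16, 16, 69272421, 17179971), (56, 16, 16, 69272406, 1451331)]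
  [(56, -24), (99, 24), (100, 0)] = true := by
  decide +kernel

theorem t51_0_2 : chkS lk51 2 3 [(1, m51_0)] l51_2
  [(56, 16, 16, 52495956, 34628931), (5, 16, 16, 17052261, 17052261), (56, 1, 1, 52495956, 34628931), (5, 1, 1, 17052261, 17052261)]
  [(5, -24), (56, 24)] = true := by
  decide +kernel

theorem t51_0_3 : chkS lk51 2 3 [(1, m51_0)] l51_3
  [(100, 16, 16, 52495461, 16934211), (99, 16, 16, 52495461, 16934211), (100, 16, 16, 52495446, 1205571), (99, 16, 16, 52495446, 1205571), (56, 1, 1, 69272406, 1451331), (56, 1, 1, 69272421, 17179971), (100, 16, 16, 86050371, 39912771), (99, 16, 16, 86049891, 23201091), (100, 16, 16, 86050356, 39851331), (99, 16, 16, 86049846, 6427971), (56, 16, 16, 69272406, 1451331), (56, 16, 16, 69272421, 17179971)]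
  [(56, -24), (100, 24)] = true := by
  decide +kernel

theorem t51_0_4 : chkS lk51 2 3 [(1, m51_0)] l51_4
  [(97, 16, 16, 52495461, 16934211), (53, 1, 1, 88146726, 6627651), (97, 16, 16, 105972786, 106041411), (53, 16, 16, 88146726, 6627651)]
  [(53, -24), (97, 24)] = true := by
  decide +kernel

theorem t51_0_5 : chkS lk51 2 3 [(1, m51_0)] l51_5
  [(53, 16, 16, 52495956, 34628931), (51, 16, 16, 52495686, 2188611), (53, 1, 1, 52495956, 34628931), (51, 16, 16, 88146726, 6627651)]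
  [(51, -24), (53, 24)] = true := by
  decide +kernel

theorem t51_0_6 : chkS lk51 2 3 [(1, m51_0)] l51_6
  [(98, 16, 16, 103875666, 101863491), (98, 16, 16, 103875621, 100815171), (52, 1, 1, 38863686, 5318211), (52, 16, 16, 86049606, 6366531)]
  [(52, -24), (98, 24)] = true := by
  decide +kernel

theorem t51_0_7 : chkS lk51 2 3 [(1, m51_0)] l51_7
  [(52, 16, 16, 70321746, 35016771), (51, 16, 16, 70321506, 19288131), (52, 16, 16, 70321701, 33968451), (51, 16, 16, 70321446, 2511171), (50, 16, 16, 87097956, 23089731), (50, 16, 16, 87097926, 6378051), (52, 1, 1, 70321746, 35016771), (51, 16, 16, 38863716, 22029891), (52, 1, 1, 70321701, 33968451), (51, 16, 16, 38863686, 5318211), (50, 1, 1, 87097956, 23089731), (50, 1, 1, 87097926, 6378051)]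
  [(50, -24), (52, 24)] = true := by
  decide +kernel

theorem t51_0_8 : chkS lk51 2 3 [(1, m51_0)] l51_8
  [(52, 1, 1, 54593061, 33907011), (50, 1, 1, 55640676, 22045251), (52, 1, 1, 54593106, 34955331), (50, 1, 1, 55640646, 5333571), (51, 16, 16, 86049636, 23078211), (51, 16, 16, 86049606, 6366531), (52, 16, 16, 54593061, 33907011), (50, 16, 16, 55640676, 22045251), (52, 16, 16, 54593106, 34955331), (50, 16, 16, 55640646, 5333571), (51, 16, 16, 54592866, 19226691), (51, 16, 16, 54592806, 2449731)]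
  [(51, -24), (52, 24)] = true := by
  decide +kernel

theorem t51_0_9 : chkS lk51 2 3 [(1, m51_0)] l51_9
  [(101, 16, 16, 102827091, 101844291), (101, 16, 16, 102827061, 100799811), (56, 1, 1, 102826821, 100738371), (56, 16, 16, 102826821, 100738371)]
  [(56, -24), (101, 24)] = true := by
  decide +kernel

theorem t51_0_10 : chkS lk51 2 3 [(1, m51_0)] l51_10
  [(102, 16, 16, 2163795, 1180995), (102, 16, 16, 2163765, 136515), (57, 1, 1, 2163525, 75075), (57, 16, 16, 2163525, 75075)]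
  [(57, -24), (102, 24)] = true := by
  decide +kernel

theorem t51_0_11 : chkS lk51 2 3 [(1, m51_0)] l51_11
  [(52, 1, 1, 104923941, 100999491), (53, 16, 16, 102826836, 101721411), (52, 16, 16, 104923941, 100999491), (53, 1, 1, 102826836, 101721411)]
  [(52, 24), (53, -24)] = true := by
  decide +kernel

theorem t51_0_12 : chkS lk51 2 3 [(1, m51_0)] l51_12
  [(55, 16, 16, 3212610, 2183235), (54, 16, 16, 3211860, 1069635), (55, 16, 16, 5309220, 5251395), (54, 1, 1, 3211860, 1069635)]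
  [(54, -24), (55, 24)] = true := by
  decide +kernel

theorem t51_0_13 : chkS lk51 2 3 [(1, m51_0)] l51_13
  [(105, 16, 16, 3212370, 1200195), (58, 16, 16, 2163525, 75075), (105, 1, 1, 3212370, 1200195), (58, 1, 1, 2163525, 75075)]
  [(58, -24), (105, 24)] = true := by
  decide +kernel

theorem t51_1_1 : chkS lk51 2 3 [(1, m51_1)] l51_1
  [(72, 1, 1, 86185056, 23217456), (73, 1, 1, 86185536, 39929136), (156, 16, 16, 52434276, 18900276), (112, 1, 1, 86246961, 40113411), (112, 1, 1, 67445091, 21365541), (111, 1, 1, 86246241, 23340291), (122, 1, 1, 37028961, 21124611), (123, 1, 1, 37028961, 21124611), (157, 16, 16, 102765876, 102765876), (114, 1, 1, 52692561, 34891011), (114, 16, 16, 67314021, 17187621), (113, 1, 1, 52692321, 19162371)]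
  [(72, 8), (73, 4), (111, -8), (112, -8), (113, -8), (114, -8), (122, 8), (123, 4), (156, 4), (157, 4)] = true := by
  decide +kernel

theorem t51_1_2 : chkS lk51 2 3 [(1, m51_1)] l51_2
  [(63, 1, 1, 51652176, 34890576), (110, 16, 16, 16983141, 16925541), (49, 1, 1, 17049171, 34866021), (110, 1, 1, 17114211, 21103461)]
  [(49, 12), (63, 12), (110, -24)] = true := by
  decide +kernel

theorem t51_1_3 : chkS lk51 2 3 [(1, m51_1)] l51_3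
  [(73, 1, 1, 86185536, 39929136), (72, 1, 1, 86185056, 23217456), (112, 1, 1, 86246961, 40113411), (156, 16, 16, 52434276, 18900276), (111, 1, 1, 86246241, 23340291), (112, 1, 1, 67445091, 21365541), (123, 1, 1, 37028961, 21124611), (122, 1, 1, 37028961, 21124611), (114, 1, 1, 52692561, 34891011), (157, 16, 16, 102765876, 102765876), (113, 1, 1, 52692321, 19162371), (114, 16, 16, 67314021, 17187621)]
  [(72, 4), (73, 8), (111, -4), (112, -4), (113, -4), (114, -4), (122, 4), (123, 8), (156, -4), (157, -4)] = true := by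
  decide +kernel

theorem t51_1_4 : chkS lk51 2 3 [(1, m51_1)] l51_4
  [(67, 1, 1, 106107936, 106053936), (106, 1, 1, 106169121, 106176771), (118, 16, 16, 105911331, 106037556), (11, 16, 16, 105972786, 106041411)]
  [(11, -12), (67, 12), (106, -12), (118, 12)] = true := by
  decide +kernel

theorem t51_1_5 : chkS lk51 2 3 [(1, m51_1)] l51_5
  [(71, 1, 1, 106107936, 106053936), (137, 16, 16, 16922196, 34616421), (121, 16, 16, 105911331, 106037556), (138, 1, 1, 17053266, 34877541)]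
  [(71, 12), (121, 12), (137, -12), (138, -12)] = true := by
  decide +kernel

theorem t51_1_6 : chkS lk51 2 3 [(1, m51_1)] l51_6
  [(119, 16, 16, 102765651, 101844276), (68, 1, 1, 38999136, 22169136), (108, 1, 1, 39060321, 22291971), (109, 1, 1, 39061041, 39065091)]
  [(68, 12), (108, -12), (109, -12), (119, 12)] = true := by
  decide +kernel

theorem t51_1_7 : chkS lk51 2 3 [(1, m51_1)] l51_7
  [(48, 16, 16, 68302416, 35009616), (47, 16, 16, 68302176, 19280976), (70, 1, 1, 40047696, 85083696), (138, 16, 16, 85079556, 39859281), (75, 1, 1, 38999136, 22169136), (135, 16, 16, 101855316, 101725266), (41, 1, 1, 68363856, 35013456), (40, 1, 1, 68363616, 19284816), (120, 16, 16, 39851091, 85067316), (137, 1, 1, 85210626, 40120401), (124, 16, 16, 38802531, 22152756), (135, 1, 1, 85209186, 23343186)]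
  [(40, 4), (41, 8), (47, 4), (48, 8), (70, 4), (75, -4), (120, 4), (124, -4), (135, -16), (137, -4), (138, -4)] = true := by
  decide +kernel

theorem t51_1_8 : chkS lk51 2 3 [(1, m51_1)] l51_8
  [(120, 16, 16, 102765651, 101844276), (124, 16, 16, 85988451, 23201076), (41, 1, 1, 21177936, 34947936), (135, 1, 1, 22294626, 22294626), (40, 1, 1, 21177696, 19219296), (137, 16, 16, 100806996, 101725221), (70, 1, 1, 102962256, 101860656), (75, 1, 1, 86185056, 23217456), (48, 16, 16, 21116496, 34944096), (135, 16, 16, 23212116, 84948066), (47, 16, 16, 21116256, 19215456), (138, 1, 1, 100938066, 101986341)]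
  [(40, -4), (41, 4), (47, -4), (48, 4), (70, 8), (75, 4), (120, 8), (124, 4), (135, -8), (137, -8), (138, -8)] = true := by
  decide +kernel

theorem t51_1_9 : chkS lk51 2 3 [(1, m51_1)] l51_9
  [(125, 1, 1, 104137761, 105009411), (76, 1, 1, 102962256, 101860656), (114, 1, 1, 100999491, 104923941), (112, 16, 16, 100868421, 100746021)]
  [(76, 12), (112, -12), (114, -12), (125, 12)] = true := by
  decide +kernel

theorem t51_1_10 : chkS lk51 2 3 [(1, m51_1)] l51_10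
  [(126, 1, 1, 3474465, 4346115), (78, 1, 1, 2298960, 1197360), (28, 16, 16, 2163765, 136515), (27, 16, 16, 2163765, 136515)]
  [(27, -12), (28, -12), (78, 12), (126, 12)] = true := by
  decide +kernel

theorem t51_1_11 : chkS lk51 2 3 [(1, m51_1)] l51_11
  [(120, 16, 16, 69211731, 34997556), (71, 1, 1, 72554016, 39207216), (70, 1, 1, 69408336, 35013936), (121, 16, 16, 72357411, 39190836)]
  [(70, 12), (71, -12), (120, 12), (121, -12)] = true := by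
  decide +kernel

theorem t51_1_12 : chkS lk51 2 3 [(1, m51_1)] l51_12
  [(25, 1, 1, 3278145, 2184195), (80, 1, 1, 5444640, 5390640), (30, 16, 16, 5309220, 5251395), (127, 16, 16, 5248035, 5374260)]
  [(25, 12), (30, 12), (80, -12), (127, -12)] = true := by
  decide +kernel

theorem t51_1_13 : chkS lk51 2 3 [(1, m51_1)] l51_13
  [(131, 16, 16, 2102355, 1180980), (140, 16, 16, 143700, 1061925), (84, 1, 1, 2298960, 1197360), (141, 1, 1, 274770, 1323045)]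
  [(84, 12), (131, 12), (140, -12), (141, -12)] = true := by
  decide +kernel

theorem t51_2_2 : chkS lk51 2 3 [(1, m51_2)] l51_2
  [(62, 1, 1, 69408336, 35013936), (111, 16, 16, 52495716, 18900291), (17, 1, 1, 52696656, 34891056), (113, 16, 16, 86049636, 23078211)]
  [(17, 12), (62, 12), (111, -12), (113, -12)] = true := by
  decide +kernel

theorem t51_2_3 : chkS lk51 2 3 [(1, m51_2)] l51_3
  [(63, 1, 1, 69408096, 19285296), (63, 1, 1, 69408336, 35013936), (110, 16, 16, 52495956, 34628931), (112, 16, 16, 52495956, 34628931), (110, 16, 16, 52495716, 18900291), (112, 16, 16, 52495716, 18900291), (49, 16, 16, 69272931, 19268931), (49, 16, 16, 69273171, 34997571), (110, 16, 16, 86050356, 39851331), (114, 16, 16, 86050356, 39851331), (110, 16, 16, 86049636, 23078211), (114, 16, 16, 86049636, 23078211)]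
  [(49, 12), (63, 12), (112, -12), (114, -12)] = true := by
  decide +kernel

theorem t51_2_4 : chkS lk51 2 3 [(1, m51_2)] l51_4
  [(61, 1, 1, 88282656, 40190256), (2, 16, 16, 105972786, 106041411), (16, 1, 1, 88282656, 40190256), (2, 16, 16, 70321746, 35016771)]
  [(2, -24), (16, 12), (61, 12)] = true := by
  decide +kernel

theorem t51_2_5 : chkS lk51 2 3 [(1, m51_2)] l51_5
  [(59, 1, 1, 88282656, 40190256), (106, 16, 16, 52495956, 34628931), (47, 16, 16, 88147491, 40173891), (11, 1, 1, 70387281, 35017731)]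
  [(11, -12), (47, 12), (59, 12), (106, -12)] = true := by
  decide +kernel

theorem t51_2_6 : chkS lk51 2 3 [(1, m51_2)] l51_6
  [(48, 16, 16, 86050371, 39912771), (60, 1, 1, 38999616, 38880816), (107, 16, 16, 103875876, 102781251), (107, 16, 16, 103875156, 101732931)]
  [(48, 12), (60, 12), (107, -24)] = true := by
  decide +kernel

theorem t51_2_7 : chkS lk51 2 3 [(1, m51_2)] l51_7
  [(46, 16, 16, 86050371, 39912771), (46, 16, 16, 86049891, 23201091), (59, 1, 1, 38999616, 38880816), (108, 16, 16, 103875876, 102781251), (59, 1, 1, 38999136, 22169136), (108, 16, 16, 103875156, 101732931), (39, 1, 1, 85141056, 39928656), (39, 1, 1, 85140576, 23216976), (47, 16, 16, 38864451, 38864451), (109, 16, 16, 56689236, 84959811), (47, 16, 16, 38863971, 22152771), (109, 16, 16, 56689956, 86008131)]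
  [(39, 12), (46, 12), (108, -12), (109, -12)] = true := by
  decide +kernel

theorem t51_2_8 : chkS lk51 2 3 [(1, m51_2)] l51_8
  [(47, 16, 16, 86050371, 39912771), (47, 16, 16, 86049891, 23201091), (39, 1, 1, 22226496, 38880096), (109, 16, 16, 103875876, 102781251), (39, 1, 1, 22226016, 22168416), (109, 16, 16, 103875156, 101732931), (59, 1, 1, 86185536, 39929136), (59, 1, 1, 86185056, 23217456), (46, 16, 16, 38864451, 38864451), (108, 16, 16, 56689236, 84959811), (46, 16, 16, 38863971, 22152771), (108, 16, 16, 56689956, 86008131)]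
  [(47, 12), (59, 12), (108, -12), (109, -12)] = true := by
  decide +kernel

theorem t51_2_9 : chkS lk51 2 3 [(1, m51_2)] l51_9
  [(49, 16, 16, 102827331, 102827331), (63, 1, 1, 102962496, 102843696), (115, 16, 16, 102827316, 102765891), (115, 16, 16, 102826836, 101721411)]
  [(49, 12), (63, 12), (115, -24)] = true := by
  decide +kernel

theorem t51_2_10 : chkS lk51 2 3 [(1, m51_2)] l51_10
  [(29, 1, 1, 2364720, 2364720), (31, 16, 16, 206100, 2114325), (116, 16, 16, 2164020, 2102595), (116, 16, 16, 2163540, 1058115)]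
  [(29, 12), (31, 12), (116, -24)] = true := by
  decide +kernel

theorem t51_2_11 : chkS lk51 2 3 [(1, m51_2)] l51_11
  [(16, 1, 1, 102962496, 102843696), (60, 1, 1, 105059616, 103104816), (61, 1, 1, 102962496, 102843696), (48, 16, 16, 104924451, 103088451)]
  [(16, 12), (48, -12), (60, -12), (61, 12)] = true := by
  decide +kernel

theorem t51_2_12 : chkS lk51 2 3 [(1, m51_2)] l51_12
  [(24, 1, 1, 2299200, 2180400), (26, 16, 16, 3211860, 1069635), (20, 16, 16, 5309220, 5251395), (25, 1, 1, 5444640, 5390640)]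
  [(20, 12), (24, 12), (25, -12), (26, -12)] = true := by
  decide +kernel

theorem t51_2_13 : chkS lk51 2 3 [(1, m51_2)] l51_13
  [(15, 16, 16, 1254720, 2179920), (117, 16, 16, 3211860, 1069635), (64, 1, 1, 2298960, 1197360), (150, 1, 1, 3412560, 1331760)]
  [(15, 12), (64, 12), (117, -12), (150, -12)] = true := by
  decide +kernel

theorem t51_3_3 : chkS lk51 2 3 [(1, m51_3)] l51_3
  [(72, 1, 1, 86185536, 39929136), (73, 1, 1, 86185056, 23217456), (111, 1, 1, 86246961, 40113411), (112, 1, 1, 67446291, 38142741), (112, 1, 1, 86246241, 23340291), (156, 16, 16, 52434516, 34628916), (122, 1, 1, 37029441, 37836291), (123, 1, 1, 37029441, 37836291), (113, 1, 1, 52692561, 34891011), (114, 16, 16, 67315221, 33964821), (114, 1, 1, 52692321, 19162371), (157, 16, 16, 102765396, 101721396)]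
  [(72, 8), (73, 4), (111, 4), (112, -8), (113, 4), (114, -8), (122, 8), (123, 4), (156, -8), (157, -8)] = true := by
  decide +kernel

theorem t51_3_4 : chkS lk51 2 3 [(1, m51_3)] l51_4
  [(12, 16, 16, 52495956, 34628931), (106, 1, 1, 106168881, 106172931), (16, 1, 1, 88213041, 40178691), (11, 16, 16, 105972546, 105979971)]
  [(11, -12), (12, 12), (16, 12), (106, -12)] = true := by
  decide +kernel

theorem t51_3_5 : chkS lk51 2 3 [(1, m51_3)] l51_5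
  [(40, 1, 1, 88286736, 40190736), (137, 16, 16, 16921956, 18887781), (47, 16, 16, 88225296, 40186896), (138, 1, 1, 17053026, 19148901)]
  [(40, 12), (47, 12), (137, -12), (138, -12)] = true := by
  decide +kernel

theorem t51_3_6 : chkS lk51 2 3 [(1, m51_3)] l51_6
  [(120, 16, 16, 84030561, 23213061), (69, 1, 1, 38999136, 22169136), (109, 1, 1, 39060321, 22291971), (108, 1, 1, 39061041, 39065091)]
  [(69, 12), (108, -12), (109, -12), (120, 12)] = true := by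
  decide +kernel

theorem t51_3_7 : chkS lk51 2 3 [(1, m51_3)] l51_7
  [(47, 16, 16, 68302416, 35009616), (48, 16, 16, 68302176, 19280976), (75, 1, 1, 38999616, 38880816), (135, 16, 16, 101856516, 102773841), (70, 1, 1, 40047936, 86066736), (138, 16, 16, 85078116, 23082066), (40, 1, 1, 68363856, 35013456), (41, 1, 1, 68363616, 19284816), (124, 16, 16, 38803011, 38864436), (135, 1, 1, 85210626, 40120401), (120, 16, 16, 39851331, 86050356), (137, 1, 1, 85209186, 23343186)]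
  [(40, 8), (41, 4), (47, 8), (48, 4), (70, -4), (75, 4), (120, -4), (124, 4), (135, -8), (137, -8), (138, -8)] = true := by
  decide +kernel

theorem t51_3_8 : chkS lk51 2 3 [(1, m51_3)] l51_8
  [(124, 16, 16, 85988931, 39912756), (120, 16, 16, 102765891, 102827316), (40, 1, 1, 21177936, 34947936), (137, 16, 16, 100807956, 102773781), (41, 1, 1, 21177696, 19219296), (135, 1, 1, 22296066, 39071841), (75, 1, 1, 86185536, 39929136), (70, 1, 1, 102962496, 102843696), (47, 16, 16, 21116496, 34944096), (138, 1, 1, 100939026, 103034901), (48, 16, 16, 21116256, 19215456), (135, 16, 16, 23213316, 85996641)]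
  [(40, 4), (41, -4), (47, 4), (48, -4), (70, 4), (75, 8), (120, 4), (124, 8), (135, -16), (137, -4), (138, -4)] = true := by
  decide +kernel

theorem t51_3_9 : chkS lk51 2 3 [(1, m51_3)] l51_9
  [(49, 1, 1, 100934931, 103023381), (63, 1, 1, 101983536, 103027536), (112, 16, 16, 100869141, 100811541), (114, 1, 1, 101000211, 104989461)]
  [(49, 12), (63, 12), (112, -12), (114, -12)] = true := by
  decide +kernel

theorem t51_3_10 : chkS lk51 2 3 [(1, m51_3)] l51_10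
  [(29, 16, 16, 1254720, 2179920), (31, 16, 16, 2164020, 2102595), (27, 16, 16, 2163525, 75075), (28, 16, 16, 2163525, 75075)]
  [(27, -12), (28, -12), (29, 12), (31, 12)] = true := by
  decide +kernel

theorem t51_3_11 : chkS lk51 2 3 [(1, m51_3)] l51_11
  [(120, 16, 16, 69211491, 19268916), (41, 1, 1, 105063696, 103105296), (70, 1, 1, 69408096, 19285296), (48, 16, 16, 105002256, 103101456)]
  [(41, -12), (48, -12), (70, 12), (120, 12)] = true := by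
  decide +kernel

theorem t51_3_12 : chkS lk51 2 3 [(1, m51_3)] l51_12
  [(25, 1, 1, 3277905, 1201155), (30, 16, 16, 3211860, 1069635), (30, 16, 16, 5308980, 5247555), (25, 1, 1, 5375025, 5379075)]
  [(30, 0)] = true := by
  decide +kernel

theorem t51_3_13 : chkS lk51 2 3 [(1, m51_3)] l51_13
  [(131, 16, 16, 2102595, 2164020), (158, 16, 16, 3150420, 1069620), (84, 1, 1, 2299200, 2180400), (160, 1, 1, 3412560, 1331760)]
  [(84, 12), (131, 12), (158, -12), (160, -12)] = true := by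
  decide +kernel

theorem t51_4_4 : chkS lk51 2 3 [(1, m51_4)] l51_4
  [(65, 1, 1, 106112016, 106054416), (87, 1, 1, 106181121, 106181121), (97, 1, 1, 52843536, 70411536), (2, 1, 1, 106181121, 106181121)]
  [(2, -12), (65, 12), (87, -12), (97, 12)] = true := by
  decide +kernel

theorem t51_4_5 : chkS lk51 2 3 [(1, m51_4)] l51_5
  [(4, 1, 1, 52774416, 37971216), (9, 16, 16, 16983621, 33637221), (53, 1, 1, 52774416, 37971216), (11, 1, 1, 70668801, 70668801)]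
  [(4, 12), (9, -12), (11, -12), (53, 12)] = true := by
  decide +kernel

theorem t51_4_6 : chkS lk51 2 3 [(1, m51_4)] l51_6
  [(67, 1, 1, 37114881, 70407681), (67, 1, 1, 37114896, 70407696), (106, 1, 1, 38163201, 70592001), (9, 16, 16, 84091206, 6374181)]
  [(9, -12), (67, 24), (106, -12)] = true := by
  decide +kernel

theorem t51_4_7 : chkS lk51 2 3 [(1, m51_4)] l51_7
  [(61, 1, 1, 37045761, 37967361), (11, 1, 1, 52843536, 70411536), (61, 1, 1, 37045776, 37967376), (11, 1, 1, 52843521, 70411521), (143, 1, 1, 38163201, 70592001), (143, 1, 1, 38163216, 70592016), (12, 16, 16, 22226436, 38814561), (9, 16, 16, 6496596, 84951846), (12, 16, 16, 22226496, 38880096), (9, 16, 16, 6496581, 83968806), (134, 1, 1, 68571171, 70648146), (134, 1, 1, 68571186, 70651986)]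
  [(12, 12), (61, 12), (134, -12), (143, -12)] = true := by
  decide +kernel

theorem t51_4_8 : chkS lk51 2 3 [(1, m51_4)] l51_8
  [(12, 16, 16, 85141056, 39928656), (134, 1, 1, 21385251, 70582626), (12, 16, 16, 85140996, 39863121), (134, 1, 1, 21385266, 70586466), (9, 16, 16, 100868436, 101729061), (9, 16, 16, 100868421, 100746021), (61, 1, 1, 52774416, 37971216), (143, 1, 1, 69620481, 70657281), (61, 1, 1, 52774401, 37971201), (143, 1, 1, 69620496, 70657296), (11, 1, 1, 37114896, 70407696), (11, 1, 1, 37114881, 70407681)]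
  [(9, -12), (11, -12), (12, 12), (61, 12), (143, 0)] = true := by
  decide +kernel

theorem t51_4_9 : chkS lk51 2 3 [(1, m51_4)] l51_9
  [(35, 1, 1, 103105281, 105063681), (35, 1, 1, 103105296, 105063696), (16, 16, 16, 102056706, 105062481), (61, 1, 1, 102056706, 105062481)]
  [(16, -12), (35, 24), (61, -12)] = true := by
  decide +kernel

theorem t51_4_10 : chkS lk51 2 3 [(1, m51_4)] l51_10
  [(36, 1, 1, 2441985, 4400385), (36, 1, 1, 2442000, 4400400), (24, 16, 16, 1393410, 4399185), (20, 16, 16, 205125, 82725)]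
  [(20, -12), (24, -12), (36, 24)] = true := by
  decide +kernel

theorem t51_4_11 : chkS lk51 2 3 [(1, m51_4)] l51_11
  [(12, 16, 16, 101918016, 102843216), (4, 1, 1, 103105296, 105063696), (61, 1, 1, 103105296, 105063696), (53, 1, 1, 103105296, 105063696)]
  [(4, -12), (12, 12), (53, -12), (61, 12)] = true := by
  decide +kernel

theorem t51_4_12 : chkS lk51 2 3 [(1, m51_4)] l51_12
  [(20, 16, 16, 1254720, 2179920), (21, 1, 1, 3490320, 4411920), (20, 16, 16, 5447940, 5260065), (54, 1, 1, 3490320, 4411920)]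
  [(20, 24), (21, -12), (54, -12)] = true := by
  decide +kernel

theorem t51_4_13 : chkS lk51 2 3 [(1, m51_4)] l51_13
  [(159, 16, 16, 206145, 2179845), (3, 16, 16, 205140, 1065765), (154, 1, 1, 2372865, 2372865), (8, 1, 1, 344370, 4395045)]
  [(3, -12), (8, -12), (154, 12), (159, 12)] = true := by
  decide +kernel

theorem t51_5_5 : chkS lk51 2 3 [(1, m51_5)] l51_5
  [(44, 1, 1, 88286736, 40190736), (145, 1, 1, 106181136, 106181136), (51, 1, 1, 52774416, 37971216), (138, 16, 16, 105972276, 105910851)]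
  [(44, 12), (51, 12), (138, -12), (145, -12)] = true := by
  decide +kernel

theorem t51_5_6 : chkS lk51 2 3 [(1, m51_5)] l51_6
  [(71, 1, 1, 37114881, 70407681), (71, 1, 1, 37114896, 70407696), (109, 1, 1, 54940161, 70607361), (88, 1, 1, 39073281, 39073281)]
  [(71, 24), (88, -12), (109, -12)] = true := by
  decide +kernel

theorem t51_5_7 : chkS lk51 2 3 [(1, m51_5)] l51_7
  [(59, 1, 1, 37045761, 37967361), (108, 16, 16, 101918016, 102843216), (59, 1, 1, 37045776, 37967376), (108, 16, 16, 101917956, 102777681), (146, 1, 1, 40121601, 86259201), (146, 1, 1, 40121616, 86259216), (40, 1, 1, 51725856, 37970256), (88, 1, 1, 85210656, 40120656), (40, 1, 1, 51725826, 37970001), (88, 1, 1, 85210626, 40120401), (136, 16, 16, 39912771, 86050371), (136, 16, 16, 39912756, 85988931)]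
  [(40, 12), (59, 12), (136, -12), (146, -12)] = true := by
  decide +kernel

theorem t51_5_8 : chkS lk51 2 3 [(1, m51_5)] l51_8
  [(40, 1, 1, 20268546, 37965921), (136, 16, 16, 102827331, 102827331), (40, 1, 1, 20268576, 37966176), (136, 16, 16, 102827316, 102765891), (88, 1, 1, 22296096, 39072096), (88, 1, 1, 22296066, 39071841), (59, 1, 1, 52774416, 37971216), (146, 1, 1, 103036161, 103036161), (59, 1, 1, 52774401, 37971201), (146, 1, 1, 103036176, 103036176), (108, 16, 16, 23274816, 86066016), (108, 16, 16, 23274756, 86000481)]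
  [(40, 12), (59, 12), (88, -12), (108, -12), (146, 0)] = true := by
  decide +kernel

theorem t51_5_9 : chkS lk51 2 3 [(1, m51_5)] l51_9
  [(33, 1, 1, 52774401, 37971201), (33, 1, 1, 52774416, 37971216), (120, 1, 1, 68571186, 70651986), (70, 1, 1, 68571906, 70656081)]
  [(33, 24), (70, -12), (120, -12)] = true := by
  decide +kernel

theorem t51_5_10 : chkS lk51 2 3 [(1, m51_5)] l51_10
  [(37, 1, 1, 2441985, 4400385), (37, 1, 1, 2442000, 4400400), (25, 16, 16, 344595, 4391445), (30, 16, 16, 205125, 82725)]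
  [(25, -12), (30, -12), (37, 24)] = true := by
  decide +kernel

theorem t51_5_11 : chkS lk51 2 3 [(1, m51_5)] l51_11
  [(69, 1, 1, 70668801, 70668801), (45, 1, 1, 105063696, 103105296), (70, 1, 1, 69620496, 70657296), (52, 16, 16, 105063696, 103105296)]
  [(45, -12), (52, -12), (69, 12), (70, 12)] = true := by
  decide +kernel

theorem t51_5_12 : chkS lk51 2 3 [(1, m51_5)] l51_12
  [(26, 16, 16, 1254720, 2179920), (22, 1, 1, 5448720, 5391120), (30, 16, 16, 5447940, 5260065), (55, 1, 1, 3490320, 4411920)]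
  [(22, -12), (26, 12), (30, 12), (55, -12)] = true := by
  decide +kernel

theorem t51_5_13 : chkS lk51 2 3 [(1, m51_5)] l51_13
  [(139, 16, 16, 2164035, 2164035), (162, 16, 16, 3211860, 1069635), (148, 1, 1, 2372865, 2372865), (10, 1, 1, 1392690, 4395090)]
  [(10, -12), (139, 12), (148, 12), (162, -12)] = true := by
  decide +kernel

theorem t51_6_6 : chkS lk51 2 3 [(1, m51_6)] l51_6
  [(151, 16, 16, 69600561, 69604611), (156, 16, 16, 70649121, 69619971), (137, 16, 16, 86246961, 40113411), (145, 1, 1, 36721686, 3298836)]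
  [(137, -12), (145, -12), (151, 12), (156, 12)] = true := by
  decide +kernel

theorem t51_6_7 : chkS lk51 2 3 [(1, m51_6)] l51_7
  [(92, 16, 16, 85206576, 40112976), (88, 16, 16, 51717216, 21128016), (112, 16, 16, 85210626, 40120401), (109, 16, 16, 85210626, 40120401), (135, 16, 16, 68493411, 21365586), (144, 1, 1, 37770006, 3483156), (112, 1, 1, 85149216, 40059216), (109, 1, 1, 85149216, 40059216), (92, 1, 1, 85083651, 40043601), (88, 1, 1, 51532806, 3302481), (144, 16, 16, 38077281, 21308931), (135, 1, 1, 68309046, 3544146)]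
  [(92, 12), (112, 12), (135, -12), (144, -12)] = true := by
  decide +kernel

theorem t51_6_8 : chkS lk51 2 3 [(1, m51_6)] l51_8
  [(92, 1, 1, 22169091, 38995041), (144, 16, 16, 69534561, 21374211), (112, 1, 1, 22234656, 39010656), (135, 1, 1, 21123126, 3478626), (109, 1, 1, 22234656, 39010656), (88, 1, 1, 20075526, 3298401), (112, 16, 16, 22296066, 39071841), (135, 16, 16, 21307491, 21300066), (92, 16, 16, 22292016, 39064416), (144, 1, 1, 69227286, 3548436), (88, 16, 16, 20259936, 21123936), (109, 16, 16, 22296066, 39071841)]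
  [(88, -12), (92, 12), (109, -12), (112, 12), (144, 0)] = true := by
  decide +kernel

theorem t51_6_9 : chkS lk51 2 3 [(1, m51_6)] l51_9
  [(77, 16, 16, 102048816, 104993616), (125, 16, 16, 102048771, 104989521), (48, 1, 1, 100815156, 103814181), (60, 1, 1, 101864196, 103818321)]
  [(48, -12), (60, -12), (77, 12), (125, 12)] = true := by
  decide +kernel

theorem t51_6_10 : chkS lk51 2 3 [(1, m51_6)] l51_10
  [(79, 16, 16, 1385520, 4330320), (126, 16, 16, 1385475, 4326225), (25, 16, 16, 1196805, 205905), (26, 16, 16, 336195, 4260645)]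
  [(25, -12), (26, -12), (79, 12), (126, 12)] = true := by
  decide +kernel

theorem t51_6_11 : chkS lk51 2 3 [(1, m51_6)] l51_11
  [(92, 1, 1, 106053891, 106103841), (71, 1, 1, 72496641, 39203841), (112, 16, 16, 106180866, 106180641), (71, 16, 16, 72558096, 39207696)]
  [(71, -24), (92, 12), (112, 12)] = true := by
  decide +kernel

theorem t51_6_12 : chkS lk51 2 3 [(1, m51_6)] l51_12
  [(94, 16, 16, 1385520, 4330320), (80, 1, 1, 5387265, 5387265), (27, 16, 16, 5444640, 5390640), (80, 16, 16, 5448720, 5391120)]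
  [(27, 12), (80, -24), (94, 12)] = true := by
  decide +kernel

theorem t51_6_13 : chkS lk51 2 3 [(1, m51_6)] l51_13
  [(152, 16, 16, 2295105, 2180355), (163, 16, 16, 270675, 1311525), (160, 1, 1, 148785, 2298885), (163, 1, 1, 147765, 201765)]
  [(152, 12), (160, 12), (163, -24)] = true := by
  decide +kernel

theorem t51_7_7 : chkS lk51 2 3 [(1, m51_7)] l51_7
  [(91, 16, 16, 86251056, 40113456), (89, 16, 16, 86251056, 40113456), (111, 16, 16, 70587936, 38162736), (108, 16, 16, 85210626, 40120401), (108, 16, 16, 70586976, 21385776), (145, 1, 1, 39863571, 86181396), (110, 16, 16, 54859296, 38101296), (107, 16, 16, 54858336, 21324336), (90, 16, 16, 38082096, 38082096), (88, 1, 1, 101860611, 102958161), (88, 16, 16, 38146896, 68494896), (138, 16, 16, 40113456, 86251056)]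
  [(88, -8), (89, 4), (90, 4), (91, 8), (107, 4), (108, -8), (110, 8), (111, 4), (138, -8), (145, -8)] = true := by
  decide +kernel

theorem t51_7_8 : chkS lk51 2 3 [(1, m51_7)] l51_8
  [(90, 16, 16, 69539376, 38147376), (88, 16, 16, 69604176, 68560176), (110, 16, 16, 70587936, 38162736), (138, 16, 16, 103028016, 103028016), (107, 16, 16, 70586976, 21385776), (88, 1, 1, 23217411, 86180961), (111, 16, 16, 54859296, 38101296), (108, 16, 16, 54858336, 21324336), (91, 16, 16, 39065136, 39065136), (145, 1, 1, 102778131, 102958356), (89, 16, 16, 39065136, 39065136), (108, 16, 16, 22296066, 39071841)]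
  [(88, -4), (89, -4), (90, 8), (91, 4), (107, -4), (108, -4), (110, 4), (111, 8), (138, -4), (145, -4)] = true := by
  decide +kernel

theorem t51_7_9 : chkS lk51 2 3 [(1, m51_7)] l51_9
  [(42, 16, 16, 103028016, 103028016), (49, 16, 16, 104076576, 103043376), (121, 1, 1, 70279701, 50745876), (71, 1, 1, 68313861, 50734161)]
  [(42, 12), (49, 12), (71, -12), (121, -12)] = true := by
  decide +kernel

theorem t51_7_10 : chkS lk51 2 3 [(1, m51_7)] l51_10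
  [(43, 16, 16, 2364720, 2364720), (29, 1, 1, 214305, 2310405), (127, 1, 1, 3166740, 3166740), (80, 1, 1, 1200900, 3155025)]
  [(29, 12), (43, 12), (80, -12), (127, -12)] = true := by
  decide +kernel

theorem t51_7_11 : chkS lk51 2 3 [(1, m51_7)] l51_11
  [(93, 16, 16, 103028016, 103028016), (60, 1, 1, 105002241, 103101441), (115, 16, 16, 105190176, 105193776), (41, 16, 16, 105059616, 103104816)]
  [(41, -12), (60, -12), (93, 12), (115, 12)] = true := by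
  decide +kernel

theorem t51_7_12 : chkS lk51 2 3 [(1, m51_7)] l51_12
  [(95, 16, 16, 2364720, 2364720), (26, 16, 16, 3478080, 4280880), (116, 16, 16, 4526880, 4530480), (30, 1, 1, 3232260, 3166785)]
  [(26, -12), (30, -12), (95, 12), (116, 12)] = true := by
  decide +kernel

theorem t51_7_13 : chkS lk51 2 3 [(1, m51_7)] l51_13
  [(96, 16, 16, 2299200, 2180400), (163, 16, 16, 3412560, 1331760), (150, 1, 1, 148785, 2298885), (164, 1, 1, 3166740, 3166740)]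
  [(96, 12), (150, 12), (163, -12), (164, -12)] = true := by
  decide +kernel

theorem t51_8_8 : chkS lk51 2 3 [(1, m51_8)] l51_8
  [(91, 1, 1, 38880771, 38995521), (145, 16, 16, 103023921, 103027971), (111, 1, 1, 54613506, 37052481), (108, 1, 1, 54612486, 3498561), (108, 1, 1, 22234656, 39010656), (89, 1, 1, 38880771, 38995521), (110, 1, 1, 70342146, 37113921), (138, 1, 1, 102843651, 102958401), (90, 1, 1, 69293571, 37094721), (88, 1, 1, 69296901, 50734401), (88, 16, 16, 23340336, 86250336), (107, 1, 1, 70341126, 3560001)]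
  [(88, -8), (89, -8), (90, 4), (91, 8), (107, -8), (108, -8), (110, 8), (111, 4), (138, 4), (145, 4)] = true := by
  decide +kernel

theorem t51_8_9 : chkS lk51 2 3 [(1, m51_8)] l51_9
  [(42, 1, 1, 102843651, 102958401), (49, 1, 1, 103892226, 102977601), (48, 1, 1, 103895556, 103830081), (41, 1, 1, 102847236, 103818561)]
  [(41, -12), (42, 12), (48, -12), (49, 12)] = true := by
  decide +kernel

theorem t51_8_10 : chkS lk51 2 3 [(1, m51_8)] l51_10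
  [(43, 1, 1, 2180355, 2295105), (29, 16, 16, 275730, 2371605), (25, 16, 16, 213525, 213525), (30, 16, 16, 336195, 4260645)]
  [(25, -12), (29, 12), (30, -12), (43, 12)] = true := by
  decide +kernel

theorem t51_8_11 : chkS lk51 2 3 [(1, m51_8)] l51_11
  [(92, 1, 1, 105988611, 106103361), (41, 1, 1, 104936706, 103100481), (114, 1, 1, 103896066, 103960641), (60, 16, 16, 105063696, 103105296)]
  [(41, -12), (60, -12), (92, 12), (114, 12)] = true := by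
  decide +kernel

theorem t51_8_12 : chkS lk51 2 3 [(1, m51_8)] l51_12
  [(94, 1, 1, 4280835, 3473985), (30, 16, 16, 3478080, 4280880), (28, 16, 16, 5509920, 5513520), (26, 1, 1, 3232260, 3166785)]
  [(26, -12), (28, 12), (30, -12), (94, 12)] = true := by
  decide +kernel

theorem t51_8_13 : chkS lk51 2 3 [(1, m51_8)] l51_13
  [(147, 16, 16, 2360625, 2364675), (164, 16, 16, 3473985, 4280835), (141, 1, 1, 2180355, 2295105), (163, 1, 1, 3228165, 217665)]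
  [(141, 12), (147, 12), (163, -12), (164, -12)] = true := by
  decide +kernel

theorem t51_9_9 : chkS lk51 2 3 [(1, m51_9)] l51_9
  [(81, 16, 16, 103028016, 103028016), (128, 16, 16, 103028016, 103028016), (123, 1, 1, 104071701, 100946451), (73, 1, 1, 69604611, 69600561)]
  [(73, -12), (81, 12), (123, -12), (128, 12)] = true := by
  decide +kernel

theorem t51_9_10 : chkS lk51 2 3 [(1, m51_9)] l51_10
  [(82, 16, 16, 2364720, 2364720), (129, 16, 16, 2364720, 2364720), (29, 1, 1, 2429700, 4203825), (31, 16, 16, 336195, 4260645)]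
  [(29, -12), (31, -12), (82, 12), (129, 12)] = true := by
  decide +kernel

theorem t51_9_11 : chkS lk51 2 3 [(1, m51_9)] l51_11
  [(74, 16, 16, 69604656, 69604656), (34, 1, 1, 55972866, 72507441), (123, 16, 16, 106172976, 106172976), (34, 16, 16, 55972896, 72507696)]
  [(34, -24), (74, 12), (123, 12)] = true := by
  decide +kernel

theorem t51_9_12 : chkS lk51 2 3 [(1, m51_9)] l51_12
  [(43, 16, 16, 1385520, 4330320), (37, 1, 1, 5444610, 5390385), (29, 16, 16, 4522785, 4530435), (37, 16, 16, 5444640, 5390640)]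
  [(29, 12), (37, -24), (43, 12)] = true := by
  decide +kernel

theorem t51_9_13 : chkS lk51 2 3 [(1, m51_9)] l51_13
  [(85, 16, 16, 2364720, 2364720), (161, 16, 16, 3478080, 4280880), (132, 1, 1, 2364675, 2360625), (161, 1, 1, 3478020, 4215345)]
  [(85, 12), (132, 12), (161, -24)] = true := by
  decide +kernel

theorem t51_10_10 : chkS lk51 2 3 [(1, m51_10)] l51_10
  [(83, 16, 16, 136240, 136240), (130, 16, 16, 136240, 136240), (7, 1, 1, 135940, 9265), (32, 16, 16, 131905, 74755)]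
  [(7, -12), (32, -12), (83, 12), (130, 12)] = true := by
  decide +kernel

theorem t51_10_11 : chkS lk51 2 3 [(1, m51_10)] l51_11
  [(43, 1, 1, 5513475, 5505825), (37, 1, 1, 3413250, 2379825), (29, 1, 1, 5440530, 5390355), (37, 16, 16, 3413280, 2380080)]
  [(29, 12), (37, -24), (43, 12)] = true := by
  decide +kernel

theorem t51_10_12 : chkS lk51 2 3 [(1, m51_10)] l51_12
  [(6, 16, 16, 262945, 270595), (38, 1, 1, 267010, 270385), (7, 16, 16, 262945, 270595), (38, 16, 16, 267040, 270640)]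
  [(6, 12), (7, 12), (38, -24)] = true := by
  decide +kernel

theorem t51_10_13 : chkS lk51 2 3 [(1, m51_10)] l51_13
  [(86, 16, 16, 136240, 136240), (142, 16, 16, 12610, 77860), (133, 1, 1, 136195, 132145), (142, 1, 1, 12580, 12580)]
  [(86, 12), (133, 12), (142, -24)] = true := by
  decide +kernel

theorem t51_11_11 : chkS lk51 2 3 [(1, m51_11)] l51_11
  [(66, 1, 1, 106180866, 106180641), (73, 1, 1, 70668546, 70668321), (100, 1, 1, 70668546, 70668321), (74, 1, 1, 69619731, 70649106)]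
  [(66, 12), (73, -12), (74, -12), (100, 12)] = true := by
  decide +kernel

theorem t51_11_12 : chkS lk51 2 3 [(1, m51_11)] l51_12
  [(19, 1, 1, 4534530, 4534305), (31, 16, 16, 3478080, 4280880), (57, 1, 1, 3490050, 4411425), (43, 1, 1, 1392675, 4391250)]
  [(19, 12), (31, -12), (43, -12), (57, 12)] = true := by
  decide +kernel

theorem t51_11_13 : chkS lk51 2 3 [(1, m51_11)] l51_13
  [(153, 16, 16, 2425665, 4269315), (161, 16, 16, 336195, 4260645), (14, 1, 1, 1393440, 4399440), (155, 1, 1, 2437380, 4207905)]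
  [(14, 12), (153, 12), (155, -12), (161, -12)] = true := by
  decide +kernel

theorem t51_12_12 : chkS lk51 2 3 [(1, m51_12)] l51_12
  [(0, 1, 1, 274690, 274465), (32, 16, 16, 201280, 82480), (1, 16, 16, 136240, 136240), (6, 1, 1, 274690, 274465)]
  [(0, 12), (1, 12), (6, -12), (32, -12)] = true := by
  decide +kernel

theorem t51_12_13 : chkS lk51 2 3 [(1, m51_12)] l51_13
  [(18, 16, 16, 74560, 74560), (142, 16, 16, 136000, 74800), (23, 1, 1, 82720, 205120), (149, 1, 1, 147715, 197665)]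
  [(18, 12), (23, 12), (142, -12), (149, -12)] = true := by
  decide +kernel

theorem t51_13_13 : chkS lk51 2 3 [(1, m51_13)] l51_13
  [(166, 16, 16, 267040, 270640), (167, 16, 16, 266800, 266800), (13, 16, 16, 136000, 74800), (165, 16, 16, 132145, 136195)]
  [(13, 12), (165, -12), (166, 12), (167, -12)] = true := by
  decide +kernel

section

variable {κ ι : Type*} [Fintype κ] [Fintype ι] [Inhabited κ] [Inhabited ι]

noncomputable def F51_0 (E : Env κ ι) : (Fin 2 → κ) → (Fin 3 → ι) → ℝ := op2 (P11 κ) (P2 ι) (fB E 2 3 m51_0)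

noncomputable def F51_1 (E : Env κ ι) : (Fin 2 → κ) → (Fin 3 → ι) → ℝ := op2 (P11 κ) (P2 ι) (fB E 2 3 m51_1)

noncomputable def F51_2 (E : Env κ ι) : (Fin 2 → κ) → (Fin 3 → ι) → ℝ := op2 (P11 κ) (P2 ι) (fB E 2 3 m51_2)

noncomputable def F51_3 (E : Env κ ι) : (Fin 2 → κ) → (Fin 3 → ι) → ℝ := op2 (P11 κ) (P2 ι) (fB E 2 3 m51_3)

noncomputable def F51_4 (E : Env κ ι) : (Fin 2 → κ) → (Fin 3 → ι) → ℝ := op2 (P11 κ) (P2 ι) (fB E 2 3 m51_4)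

noncomputable def F51_5 (E : Env κ ι) : (Fin 2 → κ) → (Fin 3 → ι) → ℝ := op2 (P11 κ) (P2 ι) (fB E 2 3 m51_5)

noncomputable def F51_6 (E : Env κ ι) : (Fin 2 → κ) → (Fin 3 → ι) → ℝ := op2 (P11 κ) (P2 ι) (fB E 2 3 m51_6)

noncomputable def F51_7 (E : Env κ ι) : (Fin 2 → κ) → (Fin 3 → ι) → ℝ := op2 (P11 κ) (P2 ι) (fB E 2 3 m51_7)

noncomputable def F51_8 (E : Env κ ι) : (Fin 2 → κ) → (Fin 3 → ι) → ℝ := op2 (P11 κ) (P2 ι) (fB E 2 3 m51_8)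

noncomputable def F51_9 (E : Env κ ι) : (Fin 2 → κ) → (Fin 3 → ι) → ℝ := op2 (P11 κ) (P2 ι) (fB E 2 3 m51_9)

noncomputable def F51_10 (E : Env κ ι) : (Fin 2 → κ) → (Fin 3 → ι) → ℝ := op2 (P11 κ) (P2 ι) (fB E 2 3 m51_10)

noncomputable def F51_11 (E : Env κ ι) : (Fin 2 → κ) → (Fin 3 → ι) → ℝ := op2 (P11 κ) (P2 ι) (fB E 2 3 m51_11)

noncomputable def F51_12 (E : Env κ ι) : (Fin 2 → κ) → (Fin 3 → ι) → ℝ := op2 (P11 κ) (P2 ι) (fB E 2 3 m51_12)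

noncomputable def F51_13 (E : Env κ ι) : (Fin 2 → κ) → (Fin 3 → ι) → ℝ := op2 (P11 κ) (P2 ι) (fB E 2 3 m51_13)

def r51_0_0 : List (ℕ × ℤ) := [(103, 24), (104, -24)]

theorem h51_0_0 (E : Env κ ι) : ip (F51_0 E) (F51_0 E) = dotS (ek E lk51) r51_0_0 :=
  op_entryZ E lk51 2 3 _ _ _ _ (pg11 κ) (pg2 ι) m51_0 m51_0 l51_0 z51_0 w51_0 x51_0 (by decide) _ (chkS_sound E lk51 2 3 _ _ _ _ t51_0_0)

def r51_0_1 : List (ℕ × ℤ) := [(56, -24), (99, 24), (100, 0)]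

theorem h51_0_1 (E : Env κ ι) : ip (F51_0 E) (F51_1 E) = dotS (ek E lk51) r51_0_1 :=
  op_entryZ E lk51 2 3 _ _ _ _ (pg11 κ) (pg2 ι) m51_0 m51_1 l51_1 z51_1 w51_1 x51_1 (by decide) _ (chkS_sound E lk51 2 3 _ _ _ _ t51_0_1)

def r51_0_2 : List (ℕ × ℤ) := [(5, -24), (56, 24)]

theorem h51_0_2 (E : Env κ ι) : ip (F51_0 E) (F51_2 E) = dotS (ek E lk51) r51_0_2 :=
  op_entryZ E lk51 2 3 _ _ _ _ (pg11 κ) (pg2 ι) m51_0 m51_2 l51_2 z51_2 w51_2 x51_2 (by decide) _ (chkS_sound E lk51 2 3 _ _ _ _ t51_0_2)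

def r51_0_3 : List (ℕ × ℤ) := [(56, -24), (100, 24)]

theorem h51_0_3 (E : Env κ ι) : ip (F51_0 E) (F51_3 E) = dotS (ek E lk51) r51_0_3 :=
  op_entryZ E lk51 2 3 _ _ _ _ (pg11 κ) (pg2 ι) m51_0 m51_3 l51_3 z51_3 w51_3 x51_3 (by decide) _ (chkS_sound E lk51 2 3 _ _ _ _ t51_0_3)

def r51_0_4 : List (ℕ × ℤ) := [(53, -24), (97, 24)]

theorem h51_0_4 (E : Env κ ι) : ip (F51_0 E) (F51_4 E) = dotS (ek E lk51) r51_0_4 :=
  op_entryZ E lk51 2 3 _ _ _ _ (pg11 κ) (pg2 ι) m51_0 m51_4 l51_4 z51_4 w51_4 x51_4 (by decide) _ (chkS_sound E lk51 2 3 _ _ _ _ t51_0_4)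

def r51_0_5 : List (ℕ × ℤ) := [(51, -24), (53, 24)]

theorem h51_0_5 (E : Env κ ι) : ip (F51_0 E) (F51_5 E) = dotS (ek E lk51) r51_0_5 :=
  op_entryZ E lk51 2 3 _ _ _ _ (pg11 κ) (pg2 ι) m51_0 m51_5 l51_5 z51_5 w51_5 x51_5 (by decide) _ (chkS_sound E lk51 2 3 _ _ _ _ t51_0_5)

def r51_0_6 : List (ℕ × ℤ) := [(52, -24), (98, 24)]

theorem h51_0_6 (E : Env κ ι) : ip (F51_0 E) (F51_6 E) = dotS (ek E lk51) r51_0_6 :=
  op_entryZ E lk51 2 3 _ _ _ _ (pg11 κ) (pg2 ι) m51_0 m51_6 l51_6 z51_6 w51_6 x51_6 (by decide) _ (chkS_sound E lk51 2 3 _ _ _ _ t51_0_6)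

def r51_0_7 : List (ℕ × ℤ) := [(50, -24), (52, 24)]

theorem h51_0_7 (E : Env κ ι) : ip (F51_0 E) (F51_7 E) = dotS (ek E lk51) r51_0_7 :=
  op_entryZ E lk51 2 3 _ _ _ _ (pg11 κ) (pg2 ι) m51_0 m51_7 l51_7 z51_7 w51_7 x51_7 (by decide) _ (chkS_sound E lk51 2 3 _ _ _ _ t51_0_7)

def r51_0_8 : List (ℕ × ℤ) := [(51, -24), (52, 24)]

theorem h51_0_8 (E : Env κ ι) : ip (F51_0 E) (F51_8 E) = dotS (ek E lk51) r51_0_8 :=
  op_entryZ E lk51 2 3 _ _ _ _ (pg11 κ) (pg2 ι) m51_0 m51_8 l51_8 z51_8 w51_8 x51_8 (by decide) _ (chkS_sound E lk51 2 3 _ _ _ _ t51_0_8)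

def r51_0_9 : List (ℕ × ℤ) := [(56, -24), (101, 24)]

theorem h51_0_9 (E : Env κ ι) : ip (F51_0 E) (F51_9 E) = dotS (ek E lk51) r51_0_9 :=
  op_entryZ E lk51 2 3 _ _ _ _ (pg11 κ) (pg2 ι) m51_0 m51_9 l51_9 z51_9 w51_9 x51_9 (by decide) _ (chkS_sound E lk51 2 3 _ _ _ _ t51_0_9)

def r51_0_10 : List (ℕ × ℤ) := [(57, -24), (102, 24)]

theorem h51_0_10 (E : Env κ ι) : ip (F51_0 E) (F51_10 E) = dotS (ek E lk51) r51_0_10 :=
  op_entryZ E lk51 2 3 _ _ _ _ (pg11 κ) (pg2 ι) m51_0 m51_10 l51_10 z51_10 w51_10 x51_10 (by decide) _ (chkS_sound E lk51 2 3 _ _ _ _ t51_0_10)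

def r51_0_11 : List (ℕ × ℤ) := [(52, 24), (53, -24)]

theorem h51_0_11 (E : Env κ ι) : ip (F51_0 E) (F51_11 E) = dotS (ek E lk51) r51_0_11 :=
  op_entryZ E lk51 2 3 _ _ _ _ (pg11 κ) (pg2 ι) m51_0 m51_11 l51_11 z51_11 w51_11 x51_11 (by decide) _ (chkS_sound E lk51 2 3 _ _ _ _ t51_0_11)

def r51_0_12 : List (ℕ × ℤ) := [(54, -24), (55, 24)]

theorem h51_0_12 (E : Env κ ι) : ip (F51_0 E) (F51_12 E) = dotS (ek E lk51) r51_0_12 :=
  op_entryZ E lk51 2 3 _ _ _ _ (pg11 κ) (pg2 ι) m51_0 m51_12 l51_12 z51_12 w51_12 x51_12 (by decide) _ (chkS_sound E lk51 2 3 _ _ _ _ t51_0_12)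

def r51_0_13 : List (ℕ × ℤ) := [(58, -24), (105, 24)]

theorem h51_0_13 (E : Env κ ι) : ip (F51_0 E) (F51_13 E) = dotS (ek E lk51) r51_0_13 :=
  op_entryZ E lk51 2 3 _ _ _ _ (pg11 κ) (pg2 ι) m51_0 m51_13 l51_13 z51_13 w51_13 x51_13 (by decide) _ (chkS_sound E lk51 2 3 _ _ _ _ t51_0_13)

def r51_1_1 : List (ℕ × ℤ) := [(72, 8), (73, 4), (111, -8), (112, -8), (113, -8), (114, -8), (122, 8), (123, 4), (156, 4), (157, 4)]

theorem h51_1_1 (E : Env κ ι) : ip (F51_1 E) (F51_1 E) = dotS (ek E lk51) r51_1_1 :=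
  op_entryZ E lk51 2 3 _ _ _ _ (pg11 κ) (pg2 ι) m51_1 m51_1 l51_1 z51_1 w51_1 x51_1 (by decide) _ (chkS_sound E lk51 2 3 _ _ _ _ t51_1_1)

def r51_1_2 : List (ℕ × ℤ) := [(49, 12), (63, 12), (110, -24)]

theorem h51_1_2 (E : Env κ ι) : ip (F51_1 E) (F51_2 E) = dotS (ek E lk51) r51_1_2 :=
  op_entryZ E lk51 2 3 _ _ _ _ (pg11 κ) (pg2 ι) m51_1 m51_2 l51_2 z51_2 w51_2 x51_2 (by decide) _ (chkS_sound E lk51 2 3 _ _ _ _ t51_1_2)

def r51_1_3 : List (ℕ × ℤ) := [(72, 4), (73, 8), (111, -4), (112, -4), (113, -4), (114, -4), (122, 4), (123, 8), (156, -4), (157, -4)]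

theorem h51_1_3 (E : Env κ ι) : ip (F51_1 E) (F51_3 E) = dotS (ek E lk51) r51_1_3 :=
  op_entryZ E lk51 2 3 _ _ _ _ (pg11 κ) (pg2 ι) m51_1 m51_3 l51_3 z51_3 w51_3 x51_3 (by decide) _ (chkS_sound E lk51 2 3 _ _ _ _ t51_1_3)

def r51_1_4 : List (ℕ × ℤ) := [(11, -12), (67, 12), (106, -12), (118, 12)]

theorem h51_1_4 (E : Env κ ι) : ip (F51_1 E) (F51_4 E) = dotS (ek E lk51) r51_1_4 :=
  op_entryZ E lk51 2 3 _ _ _ _ (pg11 κ) (pg2 ι) m51_1 m51_4 l51_4 z51_4 w51_4 x51_4 (by decide) _ (chkS_sound E lk51 2 3 _ _ _ _ t51_1_4)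

def r51_1_5 : List (ℕ × ℤ) := [(71, 12), (121, 12), (137, -12), (138, -12)]

theorem h51_1_5 (E : Env κ ι) : ip (F51_1 E) (F51_5 E) = dotS (ek E lk51) r51_1_5 :=
  op_entryZ E lk51 2 3 _ _ _ _ (pg11 κ) (pg2 ι) m51_1 m51_5 l51_5 z51_5 w51_5 x51_5 (by decide) _ (chkS_sound E lk51 2 3 _ _ _ _ t51_1_5)

def r51_1_6 : List (ℕ × ℤ) := [(68, 12), (108, -12), (109, -12), (119, 12)]

theorem h51_1_6 (E : Env κ ι) : ip (F51_1 E) (F51_6 E) = dotS (ek E lk51) r51_1_6 :=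
  op_entryZ E lk51 2 3 _ _ _ _ (pg11 κ) (pg2 ι) m51_1 m51_6 l51_6 z51_6 w51_6 x51_6 (by decide) _ (chkS_sound E lk51 2 3 _ _ _ _ t51_1_6)

def r51_1_7 : List (ℕ × ℤ) := [(40, 4), (41, 8), (47, 4), (48, 8), (70, 4), (75, -4), (120, 4), (124, -4), (135, -16), (137, -4), (138, -4)]

theorem h51_1_7 (E : Env κ ι) : ip (F51_1 E) (F51_7 E) = dotS (ek E lk51) r51_1_7 :=
  op_entryZ E lk51 2 3 _ _ _ _ (pg11 κ) (pg2 ι) m51_1 m51_7 l51_7 z51_7 w51_7 x51_7 (by decide) _ (chkS_sound E lk51 2 3 _ _ _ _ t51_1_7)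

def r51_1_8 : List (ℕ × ℤ) := [(40, -4), (41, 4), (47, -4), (48, 4), (70, 8), (75, 4), (120, 8), (124, 4), (135, -8), (137, -8), (138, -8)]

theorem h51_1_8 (E : Env κ ι) : ip (F51_1 E) (F51_8 E) = dotS (ek E lk51) r51_1_8 :=
  op_entryZ E lk51 2 3 _ _ _ _ (pg11 κ) (pg2 ι) m51_1 m51_8 l51_8 z51_8 w51_8 x51_8 (by decide) _ (chkS_sound E lk51 2 3 _ _ _ _ t51_1_8)

def r51_1_9 : List (ℕ × ℤ) := [(76, 12), (112, -12), (114, -12), (125, 12)]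

theorem h51_1_9 (E : Env κ ι) : ip (F51_1 E) (F51_9 E) = dotS (ek E lk51) r51_1_9 :=
  op_entryZ E lk51 2 3 _ _ _ _ (pg11 κ) (pg2 ι) m51_1 m51_9 l51_9 z51_9 w51_9 x51_9 (by decide) _ (chkS_sound E lk51 2 3 _ _ _ _ t51_1_9)

def r51_1_10 : List (ℕ × ℤ) := [(27, -12), (28, -12), (78, 12), (126, 12)]

theorem h51_1_10 (E : Env κ ι) : ip (F51_1 E) (F51_10 E) = dotS (ek E lk51) r51_1_10 :=
  op_entryZ E lk51 2 3 _ _ _ _ (pg11 κ) (pg2 ι) m51_1 m51_10 l51_10 z51_10 w51_10 x51_10 (by decide) _ (chkS_sound E lk51 2 3 _ _ _ _ t51_1_10)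

def r51_1_11 : List (ℕ × ℤ) := [(70, 12), (71, -12), (120, 12), (121, -12)]

theorem h51_1_11 (E : Env κ ι) : ip (F51_1 E) (F51_11 E) = dotS (ek E lk51) r51_1_11 :=
  op_entryZ E lk51 2 3 _ _ _ _ (pg11 κ) (pg2 ι) m51_1 m51_11 l51_11 z51_11 w51_11 x51_11 (by decide) _ (chkS_sound E lk51 2 3 _ _ _ _ t51_1_11)

def r51_1_12 : List (ℕ × ℤ) := [(25, 12), (30, 12), (80, -12), (127, -12)]

theorem h51_1_12 (E : Env κ ι) : ip (F51_1 E) (F51_12 E) = dotS (ek E lk51) r51_1_12 :=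
  op_entryZ E lk51 2 3 _ _ _ _ (pg11 κ) (pg2 ι) m51_1 m51_12 l51_12 z51_12 w51_12 x51_12 (by decide) _ (chkS_sound E lk51 2 3 _ _ _ _ t51_1_12)

def r51_1_13 : List (ℕ × ℤ) := [(84, 12), (131, 12), (140, -12), (141, -12)]

theorem h51_1_13 (E : Env κ ι) : ip (F51_1 E) (F51_13 E) = dotS (ek E lk51) r51_1_13 :=
  op_entryZ E lk51 2 3 _ _ _ _ (pg11 κ) (pg2 ι) m51_1 m51_13 l51_13 z51_13 w51_13 x51_13 (by decide) _ (chkS_sound E lk51 2 3 _ _ _ _ t51_1_13)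

def r51_2_2 : List (ℕ × ℤ) := [(17, 12), (62, 12), (111, -12), (113, -12)]

theorem h51_2_2 (E : Env κ ι) : ip (F51_2 E) (F51_2 E) = dotS (ek E lk51) r51_2_2 :=
  op_entryZ E lk51 2 3 _ _ _ _ (pg11 κ) (pg2 ι) m51_2 m51_2 l51_2 z51_2 w51_2 x51_2 (by decide) _ (chkS_sound E lk51 2 3 _ _ _ _ t51_2_2)

def r51_2_3 : List (ℕ × ℤ) := [(49, 12), (63, 12), (112, -12), (114, -12)]

theorem h51_2_3 (E : Env κ ι) : ip (F51_2 E) (F51_3 E) = dotS (ek E lk51) r51_2_3 :=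
  op_entryZ E lk51 2 3 _ _ _ _ (pg11 κ) (pg2 ι) m51_2 m51_3 l51_3 z51_3 w51_3 x51_3 (by decide) _ (chkS_sound E lk51 2 3 _ _ _ _ t51_2_3)

def r51_2_4 : List (ℕ × ℤ) := [(2, -24), (16, 12), (61, 12)]

theorem h51_2_4 (E : Env κ ι) : ip (F51_2 E) (F51_4 E) = dotS (ek E lk51) r51_2_4 :=
  op_entryZ E lk51 2 3 _ _ _ _ (pg11 κ) (pg2 ι) m51_2 m51_4 l51_4 z51_4 w51_4 x51_4 (by decide) _ (chkS_sound E lk51 2 3 _ _ _ _ t51_2_4)

def r51_2_5 : List (ℕ × ℤ) := [(11, -12), (47, 12), (59, 12), (106, -12)]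

theorem h51_2_5 (E : Env κ ι) : ip (F51_2 E) (F51_5 E) = dotS (ek E lk51) r51_2_5 :=
  op_entryZ E lk51 2 3 _ _ _ _ (pg11 κ) (pg2 ι) m51_2 m51_5 l51_5 z51_5 w51_5 x51_5 (by decide) _ (chkS_sound E lk51 2 3 _ _ _ _ t51_2_5)

def r51_2_6 : List (ℕ × ℤ) := [(48, 12), (60, 12), (107, -24)]

theorem h51_2_6 (E : Env κ ι) : ip (F51_2 E) (F51_6 E) = dotS (ek E lk51) r51_2_6 :=
  op_entryZ E lk51 2 3 _ _ _ _ (pg11 κ) (pg2 ι) m51_2 m51_6 l51_6 z51_6 w51_6 x51_6 (by decide) _ (chkS_sound E lk51 2 3 _ _ _ _ t51_2_6)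

def r51_2_7 : List (ℕ × ℤ) := [(39, 12), (46, 12), (108, -12), (109, -12)]

theorem h51_2_7 (E : Env κ ι) : ip (F51_2 E) (F51_7 E) = dotS (ek E lk51) r51_2_7 :=
  op_entryZ E lk51 2 3 _ _ _ _ (pg11 κ) (pg2 ι) m51_2 m51_7 l51_7 z51_7 w51_7 x51_7 (by decide) _ (chkS_sound E lk51 2 3 _ _ _ _ t51_2_7)

def r51_2_8 : List (ℕ × ℤ) := [(47, 12), (59, 12), (108, -12), (109, -12)]

theorem h51_2_8 (E : Env κ ι) : ip (F51_2 E) (F51_8 E) = dotS (ek E lk51) r51_2_8 :=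
  op_entryZ E lk51 2 3 _ _ _ _ (pg11 κ) (pg2 ι) m51_2 m51_8 l51_8 z51_8 w51_8 x51_8 (by decide) _ (chkS_sound E lk51 2 3 _ _ _ _ t51_2_8)

def r51_2_9 : List (ℕ × ℤ) := [(49, 12), (63, 12), (115, -24)]

theorem h51_2_9 (E : Env κ ι) : ip (F51_2 E) (F51_9 E) = dotS (ek E lk51) r51_2_9 :=
  op_entryZ E lk51 2 3 _ _ _ _ (pg11 κ) (pg2 ι) m51_2 m51_9 l51_9 z51_9 w51_9 x51_9 (by decide) _ (chkS_sound E lk51 2 3 _ _ _ _ t51_2_9)

def r51_2_10 : List (ℕ × ℤ) := [(29, 12), (31, 12), (116, -24)]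

theorem h51_2_10 (E : Env κ ι) : ip (F51_2 E) (F51_10 E) = dotS (ek E lk51) r51_2_10 :=
  op_entryZ E lk51 2 3 _ _ _ _ (pg11 κ) (pg2 ι) m51_2 m51_10 l51_10 z51_10 w51_10 x51_10 (by decide) _ (chkS_sound E lk51 2 3 _ _ _ _ t51_2_10)

def r51_2_11 : List (ℕ × ℤ) := [(16, 12), (48, -12), (60, -12), (61, 12)]

theorem h51_2_11 (E : Env κ ι) : ip (F51_2 E) (F51_11 E) = dotS (ek E lk51) r51_2_11 :=
  op_entryZ E lk51 2 3 _ _ _ _ (pg11 κ) (pg2 ι) m51_2 m51_11 l51_11 z51_11 w51_11 x51_11 (by decide) _ (chkS_sound E lk51 2 3 _ _ _ _ t51_2_11)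

def r51_2_12 : List (ℕ × ℤ) := [(20, 12), (24, 12), (25, -12), (26, -12)]

theorem h51_2_12 (E : Env κ ι) : ip (F51_2 E) (F51_12 E) = dotS (ek E lk51) r51_2_12 :=
  op_entryZ E lk51 2 3 _ _ _ _ (pg11 κ) (pg2 ι) m51_2 m51_12 l51_12 z51_12 w51_12 x51_12 (by decide) _ (chkS_sound E lk51 2 3 _ _ _ _ t51_2_12)

def r51_2_13 : List (ℕ × ℤ) := [(15, 12), (64, 12), (117, -12), (150, -12)]

theorem h51_2_13 (E : Env κ ι) : ip (F51_2 E) (F51_13 E) = dotS (ek E lk51) r51_2_13 :=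
  op_entryZ E lk51 2 3 _ _ _ _ (pg11 κ) (pg2 ι) m51_2 m51_13 l51_13 z51_13 w51_13 x51_13 (by decide) _ (chkS_sound E lk51 2 3 _ _ _ _ t51_2_13)

def r51_3_3 : List (ℕ × ℤ) := [(72, 8), (73, 4), (111, 4), (112, -8), (113, 4), (114, -8), (122, 8), (123, 4), (156, -8), (157, -8)]

theorem h51_3_3 (E : Env κ ι) : ip (F51_3 E) (F51_3 E) = dotS (ek E lk51) r51_3_3 :=
  op_entryZ E lk51 2 3 _ _ _ _ (pg11 κ) (pg2 ι) m51_3 m51_3 l51_3 z51_3 w51_3 x51_3 (by decide) _ (chkS_sound E lk51 2 3 _ _ _ _ t51_3_3)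

def r51_3_4 : List (ℕ × ℤ) := [(11, -12), (12, 12), (16, 12), (106, -12)]

theorem h51_3_4 (E : Env κ ι) : ip (F51_3 E) (F51_4 E) = dotS (ek E lk51) r51_3_4 :=
  op_entryZ E lk51 2 3 _ _ _ _ (pg11 κ) (pg2 ι) m51_3 m51_4 l51_4 z51_4 w51_4 x51_4 (by decide) _ (chkS_sound E lk51 2 3 _ _ _ _ t51_3_4)

def r51_3_5 : List (ℕ × ℤ) := [(40, 12), (47, 12), (137, -12), (138, -12)]

theorem h51_3_5 (E : Env κ ι) : ip (F51_3 E) (F51_5 E) = dotS (ek E lk51) r51_3_5 :=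
  op_entryZ E lk51 2 3 _ _ _ _ (pg11 κ) (pg2 ι) m51_3 m51_5 l51_5 z51_5 w51_5 x51_5 (by decide) _ (chkS_sound E lk51 2 3 _ _ _ _ t51_3_5)

def r51_3_6 : List (ℕ × ℤ) := [(69, 12), (108, -12), (109, -12), (120, 12)]

theorem h51_3_6 (E : Env κ ι) : ip (F51_3 E) (F51_6 E) = dotS (ek E lk51) r51_3_6 :=
  op_entryZ E lk51 2 3 _ _ _ _ (pg11 κ) (pg2 ι) m51_3 m51_6 l51_6 z51_6 w51_6 x51_6 (by decide) _ (chkS_sound E lk51 2 3 _ _ _ _ t51_3_6)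

def r51_3_7 : List (ℕ × ℤ) := [(40, 8), (41, 4), (47, 8), (48, 4), (70, -4), (75, 4), (120, -4), (124, 4), (135, -8), (137, -8), (138, -8)]

theorem h51_3_7 (E : Env κ ι) : ip (F51_3 E) (F51_7 E) = dotS (ek E lk51) r51_3_7 :=
  op_entryZ E lk51 2 3 _ _ _ _ (pg11 κ) (pg2 ι) m51_3 m51_7 l51_7 z51_7 w51_7 x51_7 (by decide) _ (chkS_sound E lk51 2 3 _ _ _ _ t51_3_7)

def r51_3_8 : List (ℕ × ℤ) := [(40, 4), (41, -4), (47, 4), (48, -4), (70, 4), (75, 8), (120, 4), (124, 8), (135, -16), (137, -4), (138, -4)]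

theorem h51_3_8 (E : Env κ ι) : ip (F51_3 E) (F51_8 E) = dotS (ek E lk51) r51_3_8 :=
  op_entryZ E lk51 2 3 _ _ _ _ (pg11 κ) (pg2 ι) m51_3 m51_8 l51_8 z51_8 w51_8 x51_8 (by decide) _ (chkS_sound E lk51 2 3 _ _ _ _ t51_3_8)

def r51_3_9 : List (ℕ × ℤ) := [(49, 12), (63, 12), (112, -12), (114, -12)]

theorem h51_3_9 (E : Env κ ι) : ip (F51_3 E) (F51_9 E) = dotS (ek E lk51) r51_3_9 :=
  op_entryZ E lk51 2 3 _ _ _ _ (pg11 κ) (pg2 ι) m51_3 m51_9 l51_9 z51_9 w51_9 x51_9 (by decide) _ (chkS_sound E lk51 2 3 _ _ _ _ t51_3_9)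

def r51_3_10 : List (ℕ × ℤ) := [(27, -12), (28, -12), (29, 12), (31, 12)]

theorem h51_3_10 (E : Env κ ι) : ip (F51_3 E) (F51_10 E) = dotS (ek E lk51) r51_3_10 :=
  op_entryZ E lk51 2 3 _ _ _ _ (pg11 κ) (pg2 ι) m51_3 m51_10 l51_10 z51_10 w51_10 x51_10 (by decide) _ (chkS_sound E lk51 2 3 _ _ _ _ t51_3_10)

def r51_3_11 : List (ℕ × ℤ) := [(41, -12), (48, -12), (70, 12), (120, 12)]

theorem h51_3_11 (E : Env κ ι) : ip (F51_3 E) (F51_11 E) = dotS (ek E lk51) r51_3_11 :=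
  op_entryZ E lk51 2 3 _ _ _ _ (pg11 κ) (pg2 ι) m51_3 m51_11 l51_11 z51_11 w51_11 x51_11 (by decide) _ (chkS_sound E lk51 2 3 _ _ _ _ t51_3_11)

def r51_3_12 : List (ℕ × ℤ) := [(30, 0)]

theorem h51_3_12 (E : Env κ ι) : ip (F51_3 E) (F51_12 E) = dotS (ek E lk51) r51_3_12 :=
  op_entryZ E lk51 2 3 _ _ _ _ (pg11 κ) (pg2 ι) m51_3 m51_12 l51_12 z51_12 w51_12 x51_12 (by decide) _ (chkS_sound E lk51 2 3 _ _ _ _ t51_3_12)

def r51_3_13 : List (ℕ × ℤ) := [(84, 12), (131, 12), (158, -12), (160, -12)]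

theorem h51_3_13 (E : Env κ ι) : ip (F51_3 E) (F51_13 E) = dotS (ek E lk51) r51_3_13 :=
  op_entryZ E lk51 2 3 _ _ _ _ (pg11 κ) (pg2 ι) m51_3 m51_13 l51_13 z51_13 w51_13 x51_13 (by decide) _ (chkS_sound E lk51 2 3 _ _ _ _ t51_3_13)

def r51_4_4 : List (ℕ × ℤ) := [(2, -12), (65, 12), (87, -12), (97, 12)]

theorem h51_4_4 (E : Env κ ι) : ip (F51_4 E) (F51_4 E) = dotS (ek E lk51) r51_4_4 :=
  op_entryZ E lk51 2 3 _ _ _ _ (pg11 κ) (pg2 ι) m51_4 m51_4 l51_4 z51_4 w51_4 x51_4 (by decide) _ (chkS_sound E lk51 2 3 _ _ _ _ t51_4_4)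

def r51_4_5 : List (ℕ × ℤ) := [(4, 12), (9, -12), (11, -12), (53, 12)]

theorem h51_4_5 (E : Env κ ι) : ip (F51_4 E) (F51_5 E) = dotS (ek E lk51) r51_4_5 :=
  op_entryZ E lk51 2 3 _ _ _ _ (pg11 κ) (pg2 ι) m51_4 m51_5 l51_5 z51_5 w51_5 x51_5 (by decide) _ (chkS_sound E lk51 2 3 _ _ _ _ t51_4_5)

def r51_4_6 : List (ℕ × ℤ) := [(9, -12), (67, 24), (106, -12)]

theorem h51_4_6 (E : Env κ ι) : ip (F51_4 E) (F51_6 E) = dotS (ek E lk51) r51_4_6 :=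
  op_entryZ E lk51 2 3 _ _ _ _ (pg11 κ) (pg2 ι) m51_4 m51_6 l51_6 z51_6 w51_6 x51_6 (by decide) _ (chkS_sound E lk51 2 3 _ _ _ _ t51_4_6)

def r51_4_7 : List (ℕ × ℤ) := [(12, 12), (61, 12), (134, -12), (143, -12)]

theorem h51_4_7 (E : Env κ ι) : ip (F51_4 E) (F51_7 E) = dotS (ek E lk51) r51_4_7 :=
  op_entryZ E lk51 2 3 _ _ _ _ (pg11 κ) (pg2 ι) m51_4 m51_7 l51_7 z51_7 w51_7 x51_7 (by decide) _ (chkS_sound E lk51 2 3 _ _ _ _ t51_4_7)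

def r51_4_8 : List (ℕ × ℤ) := [(9, -12), (11, -12), (12, 12), (61, 12), (143, 0)]

theorem h51_4_8 (E : Env κ ι) : ip (F51_4 E) (F51_8 E) = dotS (ek E lk51) r51_4_8 :=
  op_entryZ E lk51 2 3 _ _ _ _ (pg11 κ) (pg2 ι) m51_4 m51_8 l51_8 z51_8 w51_8 x51_8 (by decide) _ (chkS_sound E lk51 2 3 _ _ _ _ t51_4_8)

def r51_4_9 : List (ℕ × ℤ) := [(16, -12), (35, 24), (61, -12)]

theorem h51_4_9 (E : Env κ ι) : ip (F51_4 E) (F51_9 E) = dotS (ek E lk51) r51_4_9 :=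
  op_entryZ E lk51 2 3 _ _ _ _ (pg11 κ) (pg2 ι) m51_4 m51_9 l51_9 z51_9 w51_9 x51_9 (by decide) _ (chkS_sound E lk51 2 3 _ _ _ _ t51_4_9)

def r51_4_10 : List (ℕ × ℤ) := [(20, -12), (24, -12), (36, 24)]

theorem h51_4_10 (E : Env κ ι) : ip (F51_4 E) (F51_10 E) = dotS (ek E lk51) r51_4_10 :=
  op_entryZ E lk51 2 3 _ _ _ _ (pg11 κ) (pg2 ι) m51_4 m51_10 l51_10 z51_10 w51_10 x51_10 (by decide) _ (chkS_sound E lk51 2 3 _ _ _ _ t51_4_10)

def r51_4_11 : List (ℕ × ℤ) := [(4, -12), (12, 12), (53, -12), (61, 12)]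

theorem h51_4_11 (E : Env κ ι) : ip (F51_4 E) (F51_11 E) = dotS (ek E lk51) r51_4_11 :=
  op_entryZ E lk51 2 3 _ _ _ _ (pg11 κ) (pg2 ι) m51_4 m51_11 l51_11 z51_11 w51_11 x51_11 (by decide) _ (chkS_sound E lk51 2 3 _ _ _ _ t51_4_11)

def r51_4_12 : List (ℕ × ℤ) := [(20, 24), (21, -12), (54, -12)]

theorem h51_4_12 (E : Env κ ι) : ip (F51_4 E) (F51_12 E) = dotS (ek E lk51) r51_4_12 :=
  op_entryZ E lk51 2 3 _ _ _ _ (pg11 κ) (pg2 ι) m51_4 m51_12 l51_12 z51_12 w51_12 x51_12 (by decide) _ (chkS_sound E lk51 2 3 _ _ _ _ t51_4_12)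

def r51_4_13 : List (ℕ × ℤ) := [(3, -12), (8, -12), (154, 12), (159, 12)]

theorem h51_4_13 (E : Env κ ι) : ip (F51_4 E) (F51_13 E) = dotS (ek E lk51) r51_4_13 :=
  op_entryZ E lk51 2 3 _ _ _ _ (pg11 κ) (pg2 ι) m51_4 m51_13 l51_13 z51_13 w51_13 x51_13 (by decide) _ (chkS_sound E lk51 2 3 _ _ _ _ t51_4_13)

def r51_5_5 : List (ℕ × ℤ) := [(44, 12), (51, 12), (138, -12), (145, -12)]

theorem h51_5_5 (E : Env κ ι) : ip (F51_5 E) (F51_5 E) = dotS (ek E lk51) r51_5_5 :=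
  op_entryZ E lk51 2 3 _ _ _ _ (pg11 κ) (pg2 ι) m51_5 m51_5 l51_5 z51_5 w51_5 x51_5 (by decide) _ (chkS_sound E lk51 2 3 _ _ _ _ t51_5_5)

def r51_5_6 : List (ℕ × ℤ) := [(71, 24), (88, -12), (109, -12)]

theorem h51_5_6 (E : Env κ ι) : ip (F51_5 E) (F51_6 E) = dotS (ek E lk51) r51_5_6 :=
  op_entryZ E lk51 2 3 _ _ _ _ (pg11 κ) (pg2 ι) m51_5 m51_6 l51_6 z51_6 w51_6 x51_6 (by decide) _ (chkS_sound E lk51 2 3 _ _ _ _ t51_5_6)

def r51_5_7 : List (ℕ × ℤ) := [(40, 12), (59, 12), (136, -12), (146, -12)]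

theorem h51_5_7 (E : Env κ ι) : ip (F51_5 E) (F51_7 E) = dotS (ek E lk51) r51_5_7 :=
  op_entryZ E lk51 2 3 _ _ _ _ (pg11 κ) (pg2 ι) m51_5 m51_7 l51_7 z51_7 w51_7 x51_7 (by decide) _ (chkS_sound E lk51 2 3 _ _ _ _ t51_5_7)

def r51_5_8 : List (ℕ × ℤ) := [(40, 12), (59, 12), (88, -12), (108, -12), (146, 0)]

theorem h51_5_8 (E : Env κ ι) : ip (F51_5 E) (F51_8 E) = dotS (ek E lk51) r51_5_8 :=
  op_entryZ E lk51 2 3 _ _ _ _ (pg11 κ) (pg2 ι) m51_5 m51_8 l51_8 z51_8 w51_8 x51_8 (by decide) _ (chkS_sound E lk51 2 3 _ _ _ _ t51_5_8)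

def r51_5_9 : List (ℕ × ℤ) := [(33, 24), (70, -12), (120, -12)]

theorem h51_5_9 (E : Env κ ι) : ip (F51_5 E) (F51_9 E) = dotS (ek E lk51) r51_5_9 :=
  op_entryZ E lk51 2 3 _ _ _ _ (pg11 κ) (pg2 ι) m51_5 m51_9 l51_9 z51_9 w51_9 x51_9 (by decide) _ (chkS_sound E lk51 2 3 _ _ _ _ t51_5_9)

def r51_5_10 : List (ℕ × ℤ) := [(25, -12), (30, -12), (37, 24)]

theorem h51_5_10 (E : Env κ ι) : ip (F51_5 E) (F51_10 E) = dotS (ek E lk51) r51_5_10 :=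
  op_entryZ E lk51 2 3 _ _ _ _ (pg11 κ) (pg2 ι) m51_5 m51_10 l51_10 z51_10 w51_10 x51_10 (by decide) _ (chkS_sound E lk51 2 3 _ _ _ _ t51_5_10)

def r51_5_11 : List (ℕ × ℤ) := [(45, -12), (52, -12), (69, 12), (70, 12)]

theorem h51_5_11 (E : Env κ ι) : ip (F51_5 E) (F51_11 E) = dotS (ek E lk51) r51_5_11 :=
  op_entryZ E lk51 2 3 _ _ _ _ (pg11 κ) (pg2 ι) m51_5 m51_11 l51_11 z51_11 w51_11 x51_11 (by decide) _ (chkS_sound E lk51 2 3 _ _ _ _ t51_5_11)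

def r51_5_12 : List (ℕ × ℤ) := [(22, -12), (26, 12), (30, 12), (55, -12)]

theorem h51_5_12 (E : Env κ ι) : ip (F51_5 E) (F51_12 E) = dotS (ek E lk51) r51_5_12 :=
  op_entryZ E lk51 2 3 _ _ _ _ (pg11 κ) (pg2 ι) m51_5 m51_12 l51_12 z51_12 w51_12 x51_12 (by decide) _ (chkS_sound E lk51 2 3 _ _ _ _ t51_5_12)

def r51_5_13 : List (ℕ × ℤ) := [(10, -12), (139, 12), (148, 12), (162, -12)]

theorem h51_5_13 (E : Env κ ι) : ip (F51_5 E) (F51_13 E) = dotS (ek E lk51) r51_5_13 :=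
  op_entryZ E lk51 2 3 _ _ _ _ (pg11 κ) (pg2 ι) m51_5 m51_13 l51_13 z51_13 w51_13 x51_13 (by decide) _ (chkS_sound E lk51 2 3 _ _ _ _ t51_5_13)

def r51_6_6 : List (ℕ × ℤ) := [(137, -12), (145, -12), (151, 12), (156, 12)]

theorem h51_6_6 (E : Env κ ι) : ip (F51_6 E) (F51_6 E) = dotS (ek E lk51) r51_6_6 :=
  op_entryZ E lk51 2 3 _ _ _ _ (pg11 κ) (pg2 ι) m51_6 m51_6 l51_6 z51_6 w51_6 x51_6 (by decide) _ (chkS_sound E lk51 2 3 _ _ _ _ t51_6_6)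

def r51_6_7 : List (ℕ × ℤ) := [(92, 12), (112, 12), (135, -12), (144, -12)]

theorem h51_6_7 (E : Env κ ι) : ip (F51_6 E) (F51_7 E) = dotS (ek E lk51) r51_6_7 :=
  op_entryZ E lk51 2 3 _ _ _ _ (pg11 κ) (pg2 ι) m51_6 m51_7 l51_7 z51_7 w51_7 x51_7 (by decide) _ (chkS_sound E lk51 2 3 _ _ _ _ t51_6_7)

def r51_6_8 : List (ℕ × ℤ) := [(88, -12), (92, 12), (109, -12), (112, 12), (144, 0)]

theorem h51_6_8 (E : Env κ ι) : ip (F51_6 E) (F51_8 E) = dotS (ek E lk51) r51_6_8 :=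
  op_entryZ E lk51 2 3 _ _ _ _ (pg11 κ) (pg2 ι) m51_6 m51_8 l51_8 z51_8 w51_8 x51_8 (by decide) _ (chkS_sound E lk51 2 3 _ _ _ _ t51_6_8)

def r51_6_9 : List (ℕ × ℤ) := [(48, -12), (60, -12), (77, 12), (125, 12)]

theorem h51_6_9 (E : Env κ ι) : ip (F51_6 E) (F51_9 E) = dotS (ek E lk51) r51_6_9 :=
  op_entryZ E lk51 2 3 _ _ _ _ (pg11 κ) (pg2 ι) m51_6 m51_9 l51_9 z51_9 w51_9 x51_9 (by decide) _ (chkS_sound E lk51 2 3 _ _ _ _ t51_6_9)

def r51_6_10 : List (ℕ × ℤ) := [(25, -12), (26, -12), (79, 12), (126, 12)]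

theorem h51_6_10 (E : Env κ ι) : ip (F51_6 E) (F51_10 E) = dotS (ek E lk51) r51_6_10 :=
  op_entryZ E lk51 2 3 _ _ _ _ (pg11 κ) (pg2 ι) m51_6 m51_10 l51_10 z51_10 w51_10 x51_10 (by decide) _ (chkS_sound E lk51 2 3 _ _ _ _ t51_6_10)

def r51_6_11 : List (ℕ × ℤ) := [(71, -24), (92, 12), (112, 12)]

theorem h51_6_11 (E : Env κ ι) : ip (F51_6 E) (F51_11 E) = dotS (ek E lk51) r51_6_11 :=
  op_entryZ E lk51 2 3 _ _ _ _ (pg11 κ) (pg2 ι) m51_6 m51_11 l51_11 z51_11 w51_11 x51_11 (by decide) _ (chkS_sound E lk51 2 3 _ _ _ _ t51_6_11)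

def r51_6_12 : List (ℕ × ℤ) := [(27, 12), (80, -24), (94, 12)]

theorem h51_6_12 (E : Env κ ι) : ip (F51_6 E) (F51_12 E) = dotS (ek E lk51) r51_6_12 :=
  op_entryZ E lk51 2 3 _ _ _ _ (pg11 κ) (pg2 ι) m51_6 m51_12 l51_12 z51_12 w51_12 x51_12 (by decide) _ (chkS_sound E lk51 2 3 _ _ _ _ t51_6_12)

def r51_6_13 : List (ℕ × ℤ) := [(152, 12), (160, 12), (163, -24)]

theorem h51_6_13 (E : Env κ ι) : ip (F51_6 E) (F51_13 E) = dotS (ek E lk51) r51_6_13 :=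
  op_entryZ E lk51 2 3 _ _ _ _ (pg11 κ) (pg2 ι) m51_6 m51_13 l51_13 z51_13 w51_13 x51_13 (by decide) _ (chkS_sound E lk51 2 3 _ _ _ _ t51_6_13)

def r51_7_7 : List (ℕ × ℤ) := [(88, -8), (89, 4), (90, 4), (91, 8), (107, 4), (108, -8), (110, 8), (111, 4), (138, -8), (145, -8)]

theorem h51_7_7 (E : Env κ ι) : ip (F51_7 E) (F51_7 E) = dotS (ek E lk51) r51_7_7 :=
  op_entryZ E lk51 2 3 _ _ _ _ (pg11 κ) (pg2 ι) m51_7 m51_7 l51_7 z51_7 w51_7 x51_7 (by decide) _ (chkS_sound E lk51 2 3 _ _ _ _ t51_7_7)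

def r51_7_8 : List (ℕ × ℤ) := [(88, -4), (89, -4), (90, 8), (91, 4), (107, -4), (108, -4), (110, 4), (111, 8), (138, -4), (145, -4)]

theorem h51_7_8 (E : Env κ ι) : ip (F51_7 E) (F51_8 E) = dotS (ek E lk51) r51_7_8 :=
  op_entryZ E lk51 2 3 _ _ _ _ (pg11 κ) (pg2 ι) m51_7 m51_8 l51_8 z51_8 w51_8 x51_8 (by decide) _ (chkS_sound E lk51 2 3 _ _ _ _ t51_7_8)

def r51_7_9 : List (ℕ × ℤ) := [(42, 12), (49, 12), (71, -12), (121, -12)]

theorem h51_7_9 (E : Env κ ι) : ip (F51_7 E) (F51_9 E) = dotS (ek E lk51) r51_7_9 :=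
  op_entryZ E lk51 2 3 _ _ _ _ (pg11 κ) (pg2 ι) m51_7 m51_9 l51_9 z51_9 w51_9 x51_9 (by decide) _ (chkS_sound E lk51 2 3 _ _ _ _ t51_7_9)

def r51_7_10 : List (ℕ × ℤ) := [(29, 12), (43, 12), (80, -12), (127, -12)]

theorem h51_7_10 (E : Env κ ι) : ip (F51_7 E) (F51_10 E) = dotS (ek E lk51) r51_7_10 :=
  op_entryZ E lk51 2 3 _ _ _ _ (pg11 κ) (pg2 ι) m51_7 m51_10 l51_10 z51_10 w51_10 x51_10 (by decide) _ (chkS_sound E lk51 2 3 _ _ _ _ t51_7_10)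

def r51_7_11 : List (ℕ × ℤ) := [(41, -12), (60, -12), (93, 12), (115, 12)]

theorem h51_7_11 (E : Env κ ι) : ip (F51_7 E) (F51_11 E) = dotS (ek E lk51) r51_7_11 :=
  op_entryZ E lk51 2 3 _ _ _ _ (pg11 κ) (pg2 ι) m51_7 m51_11 l51_11 z51_11 w51_11 x51_11 (by decide) _ (chkS_sound E lk51 2 3 _ _ _ _ t51_7_11)

def r51_7_12 : List (ℕ × ℤ) := [(26, -12), (30, -12), (95, 12), (116, 12)]

theorem h51_7_12 (E : Env κ ι) : ip (F51_7 E) (F51_12 E) = dotS (ek E lk51) r51_7_12 :=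
  op_entryZ E lk51 2 3 _ _ _ _ (pg11 κ) (pg2 ι) m51_7 m51_12 l51_12 z51_12 w51_12 x51_12 (by decide) _ (chkS_sound E lk51 2 3 _ _ _ _ t51_7_12)

def r51_7_13 : List (ℕ × ℤ) := [(96, 12), (150, 12), (163, -12), (164, -12)]

theorem h51_7_13 (E : Env κ ι) : ip (F51_7 E) (F51_13 E) = dotS (ek E lk51) r51_7_13 :=
  op_entryZ E lk51 2 3 _ _ _ _ (pg11 κ) (pg2 ι) m51_7 m51_13 l51_13 z51_13 w51_13 x51_13 (by decide) _ (chkS_sound E lk51 2 3 _ _ _ _ t51_7_13)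

def r51_8_8 : List (ℕ × ℤ) := [(88, -8), (89, -8), (90, 4), (91, 8), (107, -8), (108, -8), (110, 8), (111, 4), (138, 4), (145, 4)]

theorem h51_8_8 (E : Env κ ι) : ip (F51_8 E) (F51_8 E) = dotS (ek E lk51) r51_8_8 :=
  op_entryZ E lk51 2 3 _ _ _ _ (pg11 κ) (pg2 ι) m51_8 m51_8 l51_8 z51_8 w51_8 x51_8 (by decide) _ (chkS_sound E lk51 2 3 _ _ _ _ t51_8_8)

def r51_8_9 : List (ℕ × ℤ) := [(41, -12), (42, 12), (48, -12), (49, 12)]

theorem h51_8_9 (E : Env κ ι) : ip (F51_8 E) (F51_9 E) = dotS (ek E lk51) r51_8_9 :=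
  op_entryZ E lk51 2 3 _ _ _ _ (pg11 κ) (pg2 ι) m51_8 m51_9 l51_9 z51_9 w51_9 x51_9 (by decide) _ (chkS_sound E lk51 2 3 _ _ _ _ t51_8_9)

def r51_8_10 : List (ℕ × ℤ) := [(25, -12), (29, 12), (30, -12), (43, 12)]

theorem h51_8_10 (E : Env κ ι) : ip (F51_8 E) (F51_10 E) = dotS (ek E lk51) r51_8_10 :=
  op_entryZ E lk51 2 3 _ _ _ _ (pg11 κ) (pg2 ι) m51_8 m51_10 l51_10 z51_10 w51_10 x51_10 (by decide) _ (chkS_sound E lk51 2 3 _ _ _ _ t51_8_10)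

def r51_8_11 : List (ℕ × ℤ) := [(41, -12), (60, -12), (92, 12), (114, 12)]

theorem h51_8_11 (E : Env κ ι) : ip (F51_8 E) (F51_11 E) = dotS (ek E lk51) r51_8_11 :=
  op_entryZ E lk51 2 3 _ _ _ _ (pg11 κ) (pg2 ι) m51_8 m51_11 l51_11 z51_11 w51_11 x51_11 (by decide) _ (chkS_sound E lk51 2 3 _ _ _ _ t51_8_11)

def r51_8_12 : List (ℕ × ℤ) := [(26, -12), (28, 12), (30, -12), (94, 12)]

theorem h51_8_12 (E : Env κ ι) : ip (F51_8 E) (F51_12 E) = dotS (ek E lk51) r51_8_12 :=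
  op_entryZ E lk51 2 3 _ _ _ _ (pg11 κ) (pg2 ι) m51_8 m51_12 l51_12 z51_12 w51_12 x51_12 (by decide) _ (chkS_sound E lk51 2 3 _ _ _ _ t51_8_12)

def r51_8_13 : List (ℕ × ℤ) := [(141, 12), (147, 12), (163, -12), (164, -12)]

theorem h51_8_13 (E : Env κ ι) : ip (F51_8 E) (F51_13 E) = dotS (ek E lk51) r51_8_13 :=
  op_entryZ E lk51 2 3 _ _ _ _ (pg11 κ) (pg2 ι) m51_8 m51_13 l51_13 z51_13 w51_13 x51_13 (by decide) _ (chkS_sound E lk51 2 3 _ _ _ _ t51_8_13)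

def r51_9_9 : List (ℕ × ℤ) := [(73, -12), (81, 12), (123, -12), (128, 12)]

theorem h51_9_9 (E : Env κ ι) : ip (F51_9 E) (F51_9 E) = dotS (ek E lk51) r51_9_9 :=
  op_entryZ E lk51 2 3 _ _ _ _ (pg11 κ) (pg2 ι) m51_9 m51_9 l51_9 z51_9 w51_9 x51_9 (by decide) _ (chkS_sound E lk51 2 3 _ _ _ _ t51_9_9)

def r51_9_10 : List (ℕ × ℤ) := [(29, -12), (31, -12), (82, 12), (129, 12)]

theorem h51_9_10 (E : Env κ ι) : ip (F51_9 E) (F51_10 E) = dotS (ek E lk51) r51_9_10 :=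
  op_entryZ E lk51 2 3 _ _ _ _ (pg11 κ) (pg2 ι) m51_9 m51_10 l51_10 z51_10 w51_10 x51_10 (by decide) _ (chkS_sound E lk51 2 3 _ _ _ _ t51_9_10)

def r51_9_11 : List (ℕ × ℤ) := [(34, -24), (74, 12), (123, 12)]

theorem h51_9_11 (E : Env κ ι) : ip (F51_9 E) (F51_11 E) = dotS (ek E lk51) r51_9_11 :=
  op_entryZ E lk51 2 3 _ _ _ _ (pg11 κ) (pg2 ι) m51_9 m51_11 l51_11 z51_11 w51_11 x51_11 (by decide) _ (chkS_sound E lk51 2 3 _ _ _ _ t51_9_11)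

def r51_9_12 : List (ℕ × ℤ) := [(29, 12), (37, -24), (43, 12)]

theorem h51_9_12 (E : Env κ ι) : ip (F51_9 E) (F51_12 E) = dotS (ek E lk51) r51_9_12 :=
  op_entryZ E lk51 2 3 _ _ _ _ (pg11 κ) (pg2 ι) m51_9 m51_12 l51_12 z51_12 w51_12 x51_12 (by decide) _ (chkS_sound E lk51 2 3 _ _ _ _ t51_9_12)

def r51_9_13 : List (ℕ × ℤ) := [(85, 12), (132, 12), (161, -24)]

theorem h51_9_13 (E : Env κ ι) : ip (F51_9 E) (F51_13 E) = dotS (ek E lk51) r51_9_13 :=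
  op_entryZ E lk51 2 3 _ _ _ _ (pg11 κ) (pg2 ι) m51_9 m51_13 l51_13 z51_13 w51_13 x51_13 (by decide) _ (chkS_sound E lk51 2 3 _ _ _ _ t51_9_13)

def r51_10_10 : List (ℕ × ℤ) := [(7, -12), (32, -12), (83, 12), (130, 12)]

theorem h51_10_10 (E : Env κ ι) : ip (F51_10 E) (F51_10 E) = dotS (ek E lk51) r51_10_10 :=
  op_entryZ E lk51 2 3 _ _ _ _ (pg11 κ) (pg2 ι) m51_10 m51_10 l51_10 z51_10 w51_10 x51_10 (by decide) _ (chkS_sound E lk51 2 3 _ _ _ _ t51_10_10)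

def r51_10_11 : List (ℕ × ℤ) := [(29, 12), (37, -24), (43, 12)]

theorem h51_10_11 (E : Env κ ι) : ip (F51_10 E) (F51_11 E) = dotS (ek E lk51) r51_10_11 :=
  op_entryZ E lk51 2 3 _ _ _ _ (pg11 κ) (pg2 ι) m51_10 m51_11 l51_11 z51_11 w51_11 x51_11 (by decide) _ (chkS_sound E lk51 2 3 _ _ _ _ t51_10_11)

def r51_10_12 : List (ℕ × ℤ) := [(6, 12), (7, 12), (38, -24)]

theorem h51_10_12 (E : Env κ ι) : ip (F51_10 E) (F51_12 E) = dotS (ek E lk51) r51_10_12 :=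
  op_entryZ E lk51 2 3 _ _ _ _ (pg11 κ) (pg2 ι) m51_10 m51_12 l51_12 z51_12 w51_12 x51_12 (by decide) _ (chkS_sound E lk51 2 3 _ _ _ _ t51_10_12)

def r51_10_13 : List (ℕ × ℤ) := [(86, 12), (133, 12), (142, -24)]

theorem h51_10_13 (E : Env κ ι) : ip (F51_10 E) (F51_13 E) = dotS (ek E lk51) r51_10_13 :=
  op_entryZ E lk51 2 3 _ _ _ _ (pg11 κ) (pg2 ι) m51_10 m51_13 l51_13 z51_13 w51_13 x51_13 (by decide) _ (chkS_sound E lk51 2 3 _ _ _ _ t51_10_13)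

def r51_11_11 : List (ℕ × ℤ) := [(66, 12), (73, -12), (74, -12), (100, 12)]

theorem h51_11_11 (E : Env κ ι) : ip (F51_11 E) (F51_11 E) = dotS (ek E lk51) r51_11_11 :=
  op_entryZ E lk51 2 3 _ _ _ _ (pg11 κ) (pg2 ι) m51_11 m51_11 l51_11 z51_11 w51_11 x51_11 (by decide) _ (chkS_sound E lk51 2 3 _ _ _ _ t51_11_11)

def r51_11_12 : List (ℕ × ℤ) := [(19, 12), (31, -12), (43, -12), (57, 12)]

theorem h51_11_12 (E : Env κ ι) : ip (F51_11 E) (F51_12 E) = dotS (ek E lk51) r51_11_12 :=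
  op_entryZ E lk51 2 3 _ _ _ _ (pg11 κ) (pg2 ι) m51_11 m51_12 l51_12 z51_12 w51_12 x51_12 (by decide) _ (chkS_sound E lk51 2 3 _ _ _ _ t51_11_12)

def r51_11_13 : List (ℕ × ℤ) := [(14, 12), (153, 12), (155, -12), (161, -12)]

theorem h51_11_13 (E : Env κ ι) : ip (F51_11 E) (F51_13 E) = dotS (ek E lk51) r51_11_13 :=
  op_entryZ E lk51 2 3 _ _ _ _ (pg11 κ) (pg2 ι) m51_11 m51_13 l51_13 z51_13 w51_13 x51_13 (by decide) _ (chkS_sound E lk51 2 3 _ _ _ _ t51_11_13)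

def r51_12_12 : List (ℕ × ℤ) := [(0, 12), (1, 12), (6, -12), (32, -12)]

theorem h51_12_12 (E : Env κ ι) : ip (F51_12 E) (F51_12 E) = dotS (ek E lk51) r51_12_12 :=
  op_entryZ E lk51 2 3 _ _ _ _ (pg11 κ) (pg2 ι) m51_12 m51_12 l51_12 z51_12 w51_12 x51_12 (by decide) _ (chkS_sound E lk51 2 3 _ _ _ _ t51_12_12)

def r51_12_13 : List (ℕ × ℤ) := [(18, 12), (23, 12), (142, -12), (149, -12)]

theorem h51_12_13 (E : Env κ ι) : ip (F51_12 E) (F51_13 E) = dotS (ek E lk51) r51_12_13 :=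
  op_entryZ E lk51 2 3 _ _ _ _ (pg11 κ) (pg2 ι) m51_12 m51_13 l51_13 z51_13 w51_13 x51_13 (by decide) _ (chkS_sound E lk51 2 3 _ _ _ _ t51_12_13)

def r51_13_13 : List (ℕ × ℤ) := [(13, 12), (165, -12), (166, 12), (167, -12)]

theorem h51_13_13 (E : Env κ ι) : ip (F51_13 E) (F51_13 E) = dotS (ek E lk51) r51_13_13 :=
  op_entryZ E lk51 2 3 _ _ _ _ (pg11 κ) (pg2 ι) m51_13 m51_13 l51_13 z51_13 w51_13 x51_13 (by decide) _ (chkS_sound E lk51 2 3 _ _ _ _ t51_13_13)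

theorem row51_0 (E : Env κ ι) : RowG (ek E lk51) (F51_0 E) [F51_0 E, F51_1 E, F51_2 E, F51_3 E, F51_4 E, F51_5 E, F51_6 E, F51_7 E, F51_8 E, F51_9 E, F51_10 E, F51_11 E, F51_12 E, F51_13 E] [r51_0_0, r51_0_1, r51_0_2, r51_0_3, r51_0_4, r51_0_5, r51_0_6, r51_0_7, r51_0_8, r51_0_9, r51_0_10, r51_0_11, r51_0_12, r51_0_13] :=
  rowG_cons _ _ _ _ _ _ (h51_0_0 E) (rowG_cons _ _ _ _ _ _ (h51_0_1 E) (rowG_cons _ _ _ _ _ _ (h51_0_2 E) (rowG_cons _ _ _ _ _ _ (h51_0_3 E) (rowG_cons _ _ _ _ _ _ (h51_0_4 E) (rowG_cons _ _ _ _ _ _ (h51_0_5 E) (rowG_cons _ _ _ _ _ _ (h51_0_6 E) (rowG_cons _ _ _ _ _ _ (h51_0_7 E) (rowG_cons _ _ _ _ _ _ (h51_0_8 E) (rowG_cons _ _ _ _ _ _ (h51_0_9 E) (rowG_cons _ _ _ _ _ _ (h51_0_10 E) (rowG_cons _ _ _ _ _ _ (h51_0_11 E) (rowG_cons _ _ _ _ _ _ (h51_0_12 E) (rowG_cons _ _ _ _ _ _ (h51_0_13 E) (rowG_nil _ _))))))))))))))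

theorem row51_1 (E : Env κ ι) : RowG (ek E lk51) (F51_1 E) [F51_1 E, F51_2 E, F51_3 E, F51_4 E, F51_5 E, F51_6 E, F51_7 E, F51_8 E, F51_9 E, F51_10 E, F51_11 E, F51_12 E, F51_13 E] [r51_1_1, r51_1_2, r51_1_3, r51_1_4, r51_1_5, r51_1_6, r51_1_7, r51_1_8, r51_1_9, r51_1_10, r51_1_11, r51_1_12, r51_1_13] :=
  rowG_cons _ _ _ _ _ _ (h51_1_1 E) (rowG_cons _ _ _ _ _ _ (h51_1_2 E) (rowG_cons _ _ _ _ _ _ (h51_1_3 E) (rowG_cons _ _ _ _ _ _ (h51_1_4 E) (rowG_cons _ _ _ _ _ _ (h51_1_5 E) (rowG_cons _ _ _ _ _ _ (h51_1_6 E) (rowG_cons _ _ _ _ _ _ (h51_1_7 E) (rowG_cons _ _ _ _ _ _ (h51_1_8 E) (rowG_cons _ _ _ _ _ _ (h51_1_9 E) (rowG_cons _ _ _ _ _ _ (h51_1_10 E) (rowG_cons _ _ _ _ _ _ (h51_1_11 E) (rowG_cons _ _ _ _ _ _ (h51_1_12 E) (rowG_cons _ _ _ _ _ _ (h51_1_13 E) (rowG_nil _ _)))))))))))))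

theorem row51_2 (E : Env κ ι) : RowG (ek E lk51) (F51_2 E) [F51_2 E, F51_3 E, F51_4 E, F51_5 E, F51_6 E, F51_7 E, F51_8 E, F51_9 E, F51_10 E, F51_11 E, F51_12 E, F51_13 E] [r51_2_2, r51_2_3, r51_2_4, r51_2_5, r51_2_6, r51_2_7, r51_2_8, r51_2_9, r51_2_10, r51_2_11, r51_2_12, r51_2_13] :=
  rowG_cons _ _ _ _ _ _ (h51_2_2 E) (rowG_cons _ _ _ _ _ _ (h51_2_3 E) (rowG_cons _ _ _ _ _ _ (h51_2_4 E) (rowG_cons _ _ _ _ _ _ (h51_2_5 E) (rowG_cons _ _ _ _ _ _ (h51_2_6 E) (rowG_cons _ _ _ _ _ _ (h51_2_7 E) (rowG_cons _ _ _ _ _ _ (h51_2_8 E) (rowG_cons _ _ _ _ _ _ (h51_2_9 E) (rowG_cons _ _ _ _ _ _ (h51_2_10 E) (rowG_cons _ _ _ _ _ _ (h51_2_11 E) (rowG_cons _ _ _ _ _ _ (h51_2_12 E) (rowG_cons _ _ _ _ _ _ (h51_2_13 E) (rowG_nil _ _))))))))))))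

theorem row51_3 (E : Env κ ι) : RowG (ek E lk51) (F51_3 E) [F51_3 E, F51_4 E, F51_5 E, F51_6 E, F51_7 E, F51_8 E, F51_9 E, F51_10 E, F51_11 E, F51_12 E, F51_13 E] [r51_3_3, r51_3_4, r51_3_5, r51_3_6, r51_3_7, r51_3_8, r51_3_9, r51_3_10, r51_3_11, r51_3_12, r51_3_13] :=
  rowG_cons _ _ _ _ _ _ (h51_3_3 E) (rowG_cons _ _ _ _ _ _ (h51_3_4 E) (rowG_cons _ _ _ _ _ _ (h51_3_5 E) (rowG_cons _ _ _ _ _ _ (h51_3_6 E) (rowG_cons _ _ _ _ _ _ (h51_3_7 E) (rowG_cons _ _ _ _ _ _ (h51_3_8 E) (rowG_cons _ _ _ _ _ _ (h51_3_9 E) (rowG_cons _ _ _ _ _ _ (h51_3_10 E) (rowG_cons _ _ _ _ _ _ (h51_3_11 E) (rowG_cons _ _ _ _ _ _ (h51_3_12 E) (rowG_cons _ _ _ _ _ _ (h51_3_13 E) (rowG_nil _ _)))))))))))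

theorem row51_4 (E : Env κ ι) : RowG (ek E lk51) (F51_4 E) [F51_4 E, F51_5 E, F51_6 E, F51_7 E, F51_8 E, F51_9 E, F51_10 E, F51_11 E, F51_12 E, F51_13 E] [r51_4_4, r51_4_5, r51_4_6, r51_4_7, r51_4_8, r51_4_9, r51_4_10, r51_4_11, r51_4_12, r51_4_13] :=
  rowG_cons _ _ _ _ _ _ (h51_4_4 E) (rowG_cons _ _ _ _ _ _ (h51_4_5 E) (rowG_cons _ _ _ _ _ _ (h51_4_6 E) (rowG_cons _ _ _ _ _ _ (h51_4_7 E) (rowG_cons _ _ _ _ _ _ (h51_4_8 E) (rowG_cons _ _ _ _ _ _ (h51_4_9 E) (rowG_cons _ _ _ _ _ _ (h51_4_10 E) (rowG_cons _ _ _ _ _ _ (h51_4_11 E) (rowG_cons _ _ _ _ _ _ (h51_4_12 E) (rowG_cons _ _ _ _ _ _ (h51_4_13 E) (rowG_nil _ _))))))))))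

theorem row51_5 (E : Env κ ι) : RowG (ek E lk51) (F51_5 E) [F51_5 E, F51_6 E, F51_7 E, F51_8 E, F51_9 E, F51_10 E, F51_11 E, F51_12 E, F51_13 E] [r51_5_5, r51_5_6, r51_5_7, r51_5_8, r51_5_9, r51_5_10, r51_5_11, r51_5_12, r51_5_13] :=
  rowG_cons _ _ _ _ _ _ (h51_5_5 E) (rowG_cons _ _ _ _ _ _ (h51_5_6 E) (rowG_cons _ _ _ _ _ _ (h51_5_7 E) (rowG_cons _ _ _ _ _ _ (h51_5_8 E) (rowG_cons _ _ _ _ _ _ (h51_5_9 E) (rowG_cons _ _ _ _ _ _ (h51_5_10 E) (rowG_cons _ _ _ _ _ _ (h51_5_11 E) (rowG_cons _ _ _ _ _ _ (h51_5_12 E) (rowG_cons _ _ _ _ _ _ (h51_5_13 E) (rowG_nil _ _)))))))))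

theorem row51_6 (E : Env κ ι) : RowG (ek E lk51) (F51_6 E) [F51_6 E, F51_7 E, F51_8 E, F51_9 E, F51_10 E, F51_11 E, F51_12 E, F51_13 E] [r51_6_6, r51_6_7, r51_6_8, r51_6_9, r51_6_10, r51_6_11, r51_6_12, r51_6_13] :=
  rowG_cons _ _ _ _ _ _ (h51_6_6 E) (rowG_cons _ _ _ _ _ _ (h51_6_7 E) (rowG_cons _ _ _ _ _ _ (h51_6_8 E) (rowG_cons _ _ _ _ _ _ (h51_6_9 E) (rowG_cons _ _ _ _ _ _ (h51_6_10 E) (rowG_cons _ _ _ _ _ _ (h51_6_11 E) (rowG_cons _ _ _ _ _ _ (h51_6_12 E) (rowG_cons _ _ _ _ _ _ (h51_6_13 E) (rowG_nil _ _))))))))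

theorem row51_7 (E : Env κ ι) : RowG (ek E lk51) (F51_7 E) [F51_7 E, F51_8 E, F51_9 E, F51_10 E, F51_11 E, F51_12 E, F51_13 E] [r51_7_7, r51_7_8, r51_7_9, r51_7_10, r51_7_11, r51_7_12, r51_7_13] :=
  rowG_cons _ _ _ _ _ _ (h51_7_7 E) (rowG_cons _ _ _ _ _ _ (h51_7_8 E) (rowG_cons _ _ _ _ _ _ (h51_7_9 E) (rowG_cons _ _ _ _ _ _ (h51_7_10 E) (rowG_cons _ _ _ _ _ _ (h51_7_11 E) (rowG_cons _ _ _ _ _ _ (h51_7_12 E) (rowG_cons _ _ _ _ _ _ (h51_7_13 E) (rowG_nil _ _)))))))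

theorem row51_8 (E : Env κ ι) : RowG (ek E lk51) (F51_8 E) [F51_8 E, F51_9 E, F51_10 E, F51_11 E, F51_12 E, F51_13 E] [r51_8_8, r51_8_9, r51_8_10, r51_8_11, r51_8_12, r51_8_13] :=
  rowG_cons _ _ _ _ _ _ (h51_8_8 E) (rowG_cons _ _ _ _ _ _ (h51_8_9 E) (rowG_cons _ _ _ _ _ _ (h51_8_10 E) (rowG_cons _ _ _ _ _ _ (h51_8_11 E) (rowG_cons _ _ _ _ _ _ (h51_8_12 E) (rowG_cons _ _ _ _ _ _ (h51_8_13 E) (rowG_nil _ _))))))

theorem row51_9 (E : Env κ ι) : RowG (ek E lk51) (F51_9 E) [F51_9 E, F51_10 E, F51_11 E, F51_12 E, F51_13 E] [r51_9_9, r51_9_10, r51_9_11, r51_9_12, r51_9_13] :=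
  rowG_cons _ _ _ _ _ _ (h51_9_9 E) (rowG_cons _ _ _ _ _ _ (h51_9_10 E) (rowG_cons _ _ _ _ _ _ (h51_9_11 E) (rowG_cons _ _ _ _ _ _ (h51_9_12 E) (rowG_cons _ _ _ _ _ _ (h51_9_13 E) (rowG_nil _ _)))))

theorem row51_10 (E : Env κ ι) : RowG (ek E lk51) (F51_10 E) [F51_10 E, F51_11 E, F51_12 E, F51_13 E] [r51_10_10, r51_10_11, r51_10_12, r51_10_13] :=
  rowG_cons _ _ _ _ _ _ (h51_10_10 E) (rowG_cons _ _ _ _ _ _ (h51_10_11 E) (rowG_cons _ _ _ _ _ _ (h51_10_12 E) (rowG_cons _ _ _ _ _ _ (h51_10_13 E) (rowG_nil _ _))))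

theorem row51_11 (E : Env κ ι) : RowG (ek E lk51) (F51_11 E) [F51_11 E, F51_12 E, F51_13 E] [r51_11_11, r51_11_12, r51_11_13] :=
  rowG_cons _ _ _ _ _ _ (h51_11_11 E) (rowG_cons _ _ _ _ _ _ (h51_11_12 E) (rowG_cons _ _ _ _ _ _ (h51_11_13 E) (rowG_nil _ _)))

theorem row51_12 (E : Env κ ι) : RowG (ek E lk51) (F51_12 E) [F51_12 E, F51_13 E] [r51_12_12, r51_12_13] :=
  rowG_cons _ _ _ _ _ _ (h51_12_12 E) (rowG_cons _ _ _ _ _ _ (h51_12_13 E) (rowG_nil _ _))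

theorem row51_13 (E : Env κ ι) : RowG (ek E lk51) (F51_13 E) [F51_13 E] [r51_13_13] :=
  rowG_cons _ _ _ _ _ _ (h51_13_13 E) (rowG_nil _ _)

def tab51 : List (List (List (ℕ × ℤ))) := [[r51_0_0, r51_0_1, r51_0_2, r51_0_3, r51_0_4, r51_0_5, r51_0_6, r51_0_7, r51_0_8, r51_0_9, r51_0_10, r51_0_11, r51_0_12, r51_0_13], [r51_1_1, r51_1_2, r51_1_3, r51_1_4, r51_1_5, r51_1_6, r51_1_7, r51_1_8, r51_1_9, r51_1_10, r51_1_11, r51_1_12, r51_1_13], [r51_2_2, r51_2_3, r51_2_4, r51_2_5, r51_2_6, r51_2_7, r51_2_8, r51_2_9, r51_2_10, r51_2_11, r51_2_12, r51_2_13], [r51_3_3, r51_3_4, r51_3_5, r51_3_6, r51_3_7, r51_3_8, r51_3_9, r51_3_10, r51_3_11, r51_3_12, r51_3_13], [r51_4_4, r51_4_5, r51_4_6, r51_4_7, r51_4_8, r51_4_9, r51_4_10, r51_4_11, r51_4_12, r51_4_13], [r51_5_5, r51_5_6, r51_5_7, r51_5_8, r51_5_9, r51_5_10, r51_5_11, r51_5_12, r51_5_13], [r51_6_6, r51_6_7, r51_6_8, r51_6_9,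 r51_6_10, r51_6_11, r51_6_12, r51_6_13], [r51_7_7, r51_7_8, r51_7_9, r51_7_10, r51_7_11, r51_7_12, r51_7_13], [r51_8_8, r51_8_9, r51_8_10, r51_8_11, r51_8_12, r51_8_13], [r51_9_9, r51_9_10, r51_9_11, r51_9_12, r51_9_13], [r51_10_10, r51_10_11, r51_10_12, r51_10_13], [r51_11_11, r51_11_12, r51_11_13], [r51_12_12, r51_12_13], [r51_13_13]]

theorem tri51 (E : Env κ ι) : TriG (ek E lk51) [F51_0 E, F51_1 E, F51_2 E, F51_3 E, F51_4 E, F51_5 E, F51_6 E, F51_7 E, F51_8 E, F51_9 E, F51_10 E, F51_11 E, F51_12 E, F51_13 E] tab51 := by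
  refine triG_cons _ _ _ _ _ (row51_0 E) ?_
  refine triG_cons _ _ _ _ _ (row51_1 E) ?_
  refine triG_cons _ _ _ _ _ (row51_2 E) ?_
  refine triG_cons _ _ _ _ _ (row51_3 E) ?_
  refine triG_cons _ _ _ _ _ (row51_4 E) ?_
  refine triG_cons _ _ _ _ _ (row51_5 E) ?_
  refine triG_cons _ _ _ _ _ (row51_6 E) ?_
  refine triG_cons _ _ _ _ _ (row51_7 E) ?_
  refine triG_cons _ _ _ _ _ (row51_8 E) ?_
  refine triG_cons _ _ _ _ _ (row51_9 E) ?_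
  refine triG_cons _ _ _ _ _ (row51_10 E) ?_
  refine triG_cons _ _ _ _ _ (row51_11 E) ?_
  refine triG_cons _ _ _ _ _ (row51_12 E) ?_
  refine triG_cons _ _ _ _ _ (row51_13 E) ?_
  exact triG_nil _

end

def lk52 : List Key := [
  (2, 5, [(0, [0], [0, 1]), (0, [0], [0, 1]), (0, [1], [2, 3]), (0, [1], [2, 4]), (4, [], [4]), (4, [], [3])]),
  (2, 5, [(0, [0], [0, 1]), (0, [1], [0, 2]), (0, [1], [3, 4]), (0, [0], [3, 4]), (4, [], [2]), (4, [], [1])]),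
  (2, 7, [(0, [0], [0, 1]), (0, [1], [0, 2]), (0, [1], [3, 4]), (0, [0], [5, 6]), (1, [], [5, 6]), (1, [], [3, 4]), (4, [], [2]), (4, [], [1])]),
  (2, 6, [(0, [0], [0, 1]), (0, [0], [2, 3]), (0, [1], [4, 5]), (1, [], [2, 3]), (2, [1], [0, 4, 5]), (4, [], [1])]),
  (2, 7, [(0, [0], [0, 1]), (0, [0], [0, 1]), (0, [1], [2, 3]), (0, [1], [4, 5]), (1, [], [2, 6]), (1, [], [4, 5]), (4, [], [3]), (4, [], [6])]),
  (2, 5, [(0, [0], [0, 1]), (0, [1], [0, 2]), (0, [1], [2, 3]), (0, [0], [1, 4]), (4, [], [4]), (4, [], [3])]),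
  (2, 5, [(0, [0], [0, 1]), (0, [1], [0, 2]), (0, [0], [2, 3]), (0, [1], [1, 4]), (4, [], [4]), (4, [], [3])]),
  (2, 6, [(0, [0], [0, 1]), (0, [0], [2, 3]), (0, [1], [4, 5]), (1, [], [4, 5]), (2, [1], [0, 2, 3]), (4, [], [1])]),
  (2, 7, [(0, [0], [0, 1]), (0, [0], [2, 3]), (0, [1], [4, 5]), (0, [1], [4, 6]), (1, [], [0, 5]), (1, [], [2, 3]), (4, [], [1]), (4, [], [6])]),
  (2, 6, [(0, [0], [0, 1]), (0, [0], [2, 3]), (0, [1], [4, 5]), (1, [], [0, 4]), (2, [1], [1, 2, 3]), (4, [], [5])]),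
  (2, 7, [(0, [0], [0, 1]), (0, [1], [0, 2]), (0, [0], [3, 4]), (0, [1], [5, 6]), (1, [], [1, 3]), (1, [], [5, 6]), (4, [], [2]), (4, [], [4])]),
  (2, 7, [(0, [0], [0, 1]), (0, [0], [2, 3]), (0, [1], [0, 4]), (0, [1], [4, 5]), (1, [], [1, 6]), (1, [], [2, 3]), (4, [], [5]), (4, [], [6])]),
  (2, 5, [(0, [0], [0, 1]), (0, [1], [0, 2]), (2, [0], [2, 3, 4]), (2, [1], [1, 3, 4])]),
  (2, 6, [(0, [0], [0, 1]), (0, [0], [2, 3]), (0, [1], [0, 4]), (1, [], [4, 5]), (2, [1], [1, 2, 3]), (4, [], [5])]),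
  (2, 6, [(0, [0], [0, 1]), (0, [0], [2, 3]), (0, [1], [0, 2]), (1, [], [4, 5]), (2, [1], [1, 4, 5]), (4, [], [3])]),
  (2, 7, [(0, [0], [0, 1]), (0, [1], [0, 2]), (0, [1], [1, 3]), (0, [0], [4, 5]), (1, [], [2, 6]), (1, [], [4, 5]), (4, [], [3]), (4, [], [6])]),
  (2, 7, [(0, [0], [0, 1]), (0, [1], [0, 2]), (0, [0], [2, 3]), (0, [1], [1, 4]), (4, [], [4]), (4, [], [3]), (1, [], [5, 6]), (1, [], [5, 6])]),
  (2, 5, [(0, [0], [0, 1]), (0, [0], [0, 2]), (0, [1], [3, 4]), (2, [1], [1, 3, 4]), (4, [], [2])]),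
  (2, 6, [(0, [0], [0, 1]), (0, [0], [0, 1]), (0, [1], [2, 3]), (0, [1], [2, 4]), (1, [], [3, 5]), (4, [], [4]), (4, [], [5])]),
  (2, 6, [(0, [0], [0, 1]), (0, [0], [2, 3]), (0, [1], [0, 4]), (0, [1], [4, 5]), (1, [], [2, 3]), (4, [], [1]), (4, [], [5])]),
  (2, 6, [(0, [0], [0, 1]), (0, [0], [0, 1]), (0, [1], [2, 3]), (0, [1], [4, 5]), (1, [], [4, 5]), (4, [], [2]), (4, [], [3])]),
  (2, 6, [(0, [0], [0, 1]), (0, [0], [0, 1]), (0, [1], [2, 3]), (0, [1], [4, 5]), (1, [], [2, 4]), (4, [], [5]), (4, [], [3])]),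
  (2, 5, [(0, [0], [0, 1]), (0, [0], [2, 3]), (0, [1], [0, 4]), (2, [1], [1, 2, 3]), (4, [], [4])]),
  (2, 6, [(0, [0], [0, 1]), (0, [1], [0, 2]), (0, [1], [1, 3]), (0, [0], [4, 5]), (1, [], [4, 5]), (4, [], [3]), (4, [], [2])]),
  (2, 6, [(0, [0], [0, 1]), (0, [1], [0, 2]), (0, [1], [1, 3]), (0, [0], [4, 5]), (1, [], [2, 4]), (4, [], [3]), (4, [], [5])]),
  (2, 6, [(0, [0], [0, 1]), (0, [0], [2, 3]), (0, [1], [0, 4]), (0, [1], [4, 5]), (1, [], [2, 5]), (4, [], [1]), (4, [], [3])]),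
  (2, 6, [(0, [0], [0, 1]), (0, [1], [2, 3]), (0, [0], [2, 4]), (0, [1], [0, 5]), (1, [], [1, 3]), (4, [], [5]), (4, [], [4])]),
  (2, 6, [(0, [0], [0, 1]), (0, [0], [2, 3]), (0, [1], [2, 4]), (0, [1], [0, 5]), (1, [], [1, 3]), (4, [], [5]), (4, [], [4])]),
  (2, 6, [(0, [0], [0, 1]), (0, [1], [0, 2]), (0, [0], [2, 3]), (0, [1], [1, 4]), (1, [], [3, 5]), (4, [], [4]), (4, [], [5])]),
  (2, 6, [(0, [0], [0, 1]), (0, [0], [2, 3]), (0, [1], [0, 4]), (0, [1], [4, 5]), (1, [], [1, 2]), (4, [], [3]), (4, [], [5])]),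
  (2, 6, [(0, [0], [0, 1]), (0, [0], [2, 3]), (0, [1], [0, 4]), (0, [1], [2, 4]), (1, [], [1, 5]), (4, [], [3]), (4, [], [5])]),
  (2, 5, [(0, [0], [0, 1]), (0, [0], [2, 3]), (0, [1], [2, 4]), (0, [1], [0, 4]), (4, [], [3]), (4, [], [1])]),
  (2, 7, [(0, [0], [0, 1]), (0, [0], [0, 2]), (0, [1], [1, 2]), (4, [], [3]), (0, [1], [4, 5]), (1, [], [4, 6]), (1, [], [3, 6]), (4, [], [5])]),
  (2, 7, [(0, [0], [0, 1]), (0, [0], [0, 2]), (0, [1], [1, 2]), (4, [], [3]), (0, [1], [4, 5]), (1, [], [4, 6]), (1, [], [3, 5]), (4, [], [6])]),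
  (2, 7, [(0, [0], [0, 1]), (0, [0], [0, 2]), (0, [1], [1, 2]), (4, [], [3]), (0, [1], [4, 5]), (1, [], [4, 5]), (1, [], [3, 6]), (4, [], [6])]),
  (2, 6, [(0, [0], [0, 1]), (0, [0], [0, 2]), (0, [1], [1, 2]), (4, [], [3]), (0, [1], [4, 5]), (1, [], [4, 5]), (4, [], [3])]),
  (2, 6, [(0, [0], [0, 1]), (0, [0], [0, 2]), (0, [1], [1, 2]), (4, [], [3]), (0, [1], [4, 5]), (1, [], [3, 4]), (4, [], [5])]),
  (2, 5, [(0, [0], [0, 1]), (0, [0], [0, 2]), (0, [1], [1, 2]), (4, [], [3]), (0, [1], [3, 4]), (4, [], [4])]),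
  (2, 7, [(0, [0], [0, 1]), (0, [0], [0, 2]), (0, [1], [3, 2]), (4, [], [1]), (0, [1], [4, 5]), (1, [], [4, 6]), (1, [], [5, 6]), (4, [], [3])]),
  (2, 7, [(0, [0], [0, 1]), (0, [0], [0, 2]), (0, [1], [3, 2]), (4, [], [1]), (0, [1], [4, 5]), (1, [], [4, 6]), (1, [], [3, 6]), (4, [], [5])]),
  (2, 7, [(0, [0], [0, 1]), (0, [0], [0, 2]), (0, [1], [3, 2]), (4, [], [1]), (0, [1], [4, 5]), (1, [], [4, 6]), (1, [], [3, 5]), (4, [], [6])]),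
  (2, 7, [(0, [0], [0, 1]), (0, [0], [0, 2]), (0, [1], [3, 2]), (4, [], [1]), (0, [1], [3, 4]), (1, [], [5, 6]), (1, [], [4, 5]), (4, [], [6])]),
  (2, 6, [(0, [0], [0, 1]), (0, [0], [0, 2]), (0, [1], [3, 2]), (4, [], [1]), (0, [1], [3, 4]), (1, [], [4, 5]), (4, [], [5])]),
  (2, 7, [(0, [0], [0, 1]), (0, [0], [0, 1]), (0, [1], [2, 3]), (4, [], [3]), (0, [1], [4, 5]), (1, [], [4, 6]), (1, [], [2, 6]), (4, [], [5])]),
  (2, 7, [(0, [0], [0, 1]), (0, [0], [0, 1]), (0, [1], [2, 3]), (4, [], [3]), (0, [1], [4, 5]), (1, [], [4, 6]), (1, [], [2, 5]), (4, [], [6])]),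
  (2, 7, [(0, [0], [0, 1]), (0, [0], [2, 3]), (0, [1], [0, 3]), (4, [], [1]), (0, [1], [4, 5]), (1, [], [4, 6]), (1, [], [5, 6]), (4, [], [2])]),
  (2, 7, [(0, [0], [0, 1]), (0, [0], [2, 3]), (0, [1], [0, 3]), (4, [], [1]), (0, [1], [4, 5]), (1, [], [4, 6]), (1, [], [2, 6]), (4, [], [5])]),
  (2, 7, [(0, [0], [0, 1]), (0, [0], [2, 3]), (0, [1], [0, 3]), (4, [], [1]), (0, [1], [4, 5]), (1, [], [4, 6]), (1, [], [2, 5]), (4, [], [6])]),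
  (2, 7, [(0, [0], [0, 1]), (0, [0], [2, 3]), (0, [1], [0, 3]), (4, [], [1]), (0, [1], [2, 4]), (1, [], [5, 6]), (1, [], [4, 5]), (4, [], [6])]),
  (2, 7, [(0, [0], [0, 1]), (0, [0], [2, 3]), (0, [1], [0, 1]), (4, [], [3]), (0, [1], [4, 5]), (1, [], [4, 6]), (1, [], [2, 6]), (4, [], [5])]),
  (2, 7, [(0, [0], [0, 1]), (0, [0], [2, 3]), (0, [1], [0, 1]), (4, [], [3]), (0, [1], [4, 5]), (1, [], [4, 6]), (1, [], [2, 5]), (4, [], [6])]),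
  (2, 7, [(0, [0], [0, 1]), (0, [0], [2, 3]), (0, [1], [0, 1]), (4, [], [3]), (0, [1], [4, 5]), (1, [], [4, 5]), (1, [], [2, 6]), (4, [], [6])]),
  (2, 6, [(0, [0], [0, 1]), (0, [0], [2, 3]), (0, [1], [0, 1]), (4, [], [3]), (0, [1], [4, 5]), (1, [], [4, 5]), (4, [], [2])]),
  (2, 6, [(0, [0], [0, 1]), (0, [0], [2, 3]), (0, [1], [0, 1]), (4, [], [3]), (0, [1], [4, 5]), (1, [], [2, 4]), (4, [], [5])]),
  (2, 6, [(0, [0], [0, 1]), (0, [0], [2, 3]), (0, [1], [0, 1]), (4, [], [3]), (0, [1], [2, 4]), (1, [], [4, 5]), (4, [], [5])]),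
  (2, 7, [(0, [0], [0, 1]), (0, [0], [2, 0]), (0, [1], [1, 3]), (4, [], [3]), (0, [1], [4, 5]), (1, [], [4, 6]), (1, [], [2, 6]), (4, [], [5])]),
  (2, 7, [(0, [0], [0, 1]), (0, [0], [2, 0]), (0, [1], [1, 3]), (4, [], [3]), (0, [1], [4, 5]), (1, [], [4, 6]), (1, [], [2, 5]), (4, [], [6])]),
  (2, 7, [(0, [0], [0, 1]), (0, [0], [2, 0]), (0, [1], [1, 3]), (4, [], [3]), (0, [1], [4, 5]), (1, [], [4, 5]), (1, [], [2, 6]), (4, [], [6])]),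
  (2, 7, [(0, [0], [0, 1]), (0, [0], [2, 0]), (0, [1], [1, 3]), (4, [], [3]), (0, [1], [2, 4]), (1, [], [5, 6]), (1, [], [5, 6]), (4, [], [4])]),
  (2, 7, [(0, [0], [0, 1]), (0, [0], [2, 0]), (0, [1], [1, 3]), (4, [], [3]), (0, [1], [2, 4]), (1, [], [5, 6]), (1, [], [4, 5]), (4, [], [6])]),
  (2, 6, [(0, [0], [0, 1]), (0, [0], [2, 0]), (0, [1], [1, 3]), (4, [], [3]), (1, [], [4, 5]), (2, [1], [2, 4, 5])]),
  (2, 7, [(0, [0], [0, 1]), (0, [0], [0, 1]), (0, [1], [2, 3]), (4, [], [4]), (0, [1], [5, 6]), (1, [], [5, 6]), (1, [], [2, 3]), (4, [], [4])]),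
  (2, 7, [(0, [0], [0, 1]), (0, [0], [0, 1]), (0, [1], [2, 3]), (4, [], [4]), (0, [1], [2, 5]), (1, [], [5, 6]), (1, [], [3, 4]), (4, [], [6])]),
  (2, 7, [(0, [0], [0, 1]), (0, [0], [2, 0]), (0, [1], [3, 1]), (4, [], [4]), (0, [1], [5, 6]), (1, [], [5, 6]), (1, [], [2, 3]), (4, [], [4])]),
  (2, 7, [(0, [0], [0, 1]), (0, [0], [2, 0]), (0, [1], [3, 1]), (4, [], [4]), (0, [1], [5, 6]), (1, [], [2, 5]), (1, [], [3, 6]), (4, [], [4])]),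
  (2, 7, [(0, [0], [0, 1]), (0, [0], [2, 0]), (0, [1], [3, 1]), (4, [], [4]), (0, [1], [5, 6]), (1, [], [2, 5]), (1, [], [3, 4]), (4, [], [6])]),
  (2, 7, [(0, [0], [0, 1]), (0, [0], [2, 0]), (0, [1], [3, 1]), (4, [], [4]), (0, [1], [5, 6]), (1, [], [3, 5]), (1, [], [2, 4]), (4, [], [6])]),
  (2, 7, [(0, [0], [0, 1]), (0, [0], [2, 0]), (0, [1], [3, 1]), (4, [], [4]), (0, [1], [5, 6]), (1, [], [4, 5]), (1, [], [2, 3]), (4, [], [6])]),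
  (2, 7, [(0, [0], [0, 1]), (0, [0], [2, 0]), (0, [1], [3, 1]), (4, [], [4]), (0, [1], [2, 5]), (1, [], [5, 6]), (1, [], [3, 6]), (4, [], [4])]),
  (2, 7, [(0, [0], [0, 1]), (0, [0], [2, 0]), (0, [1], [3, 1]), (4, [], [4]), (0, [1], [2, 5]), (1, [], [5, 6]), (1, [], [3, 4]), (4, [], [6])]),
  (2, 7, [(0, [0], [0, 1]), (0, [0], [2, 0]), (0, [1], [3, 1]), (4, [], [4]), (0, [1], [3, 5]), (1, [], [5, 6]), (1, [], [2, 4]), (4, [], [6])]),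
  (2, 7, [(0, [0], [0, 1]), (0, [0], [2, 0]), (0, [1], [3, 1]), (4, [], [4]), (0, [1], [4, 5]), (1, [], [2, 6]), (1, [], [3, 6]), (4, [], [5])]),
  (2, 7, [(0, [0], [0, 1]), (0, [0], [2, 0]), (0, [1], [3, 1]), (4, [], [4]), (0, [1], [2, 5]), (1, [], [4, 6]), (1, [], [3, 5]), (4, [], [6])]),
  (2, 7, [(0, [0], [0, 1]), (0, [0], [2, 0]), (0, [1], [3, 1]), (4, [], [4]), (0, [1], [3, 5]), (1, [], [4, 6]), (1, [], [2, 5]), (4, [], [6])]),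
  (2, 6, [(0, [0], [0, 1]), (0, [0], [2, 0]), (0, [1], [3, 1]), (4, [], [4]), (0, [1], [2, 5]), (1, [], [3, 5]), (4, [], [4])]),
  (2, 6, [(0, [0], [0, 1]), (0, [0], [2, 0]), (0, [1], [3, 1]), (4, [], [4]), (0, [1], [3, 5]), (1, [], [2, 5]), (4, [], [4])]),
  (2, 6, [(0, [0], [0, 1]), (0, [0], [2, 0]), (0, [1], [3, 1]), (4, [], [4]), (0, [1], [4, 5]), (1, [], [2, 3]), (4, [], [5])]),
  (2, 7, [(0, [0], [0, 1]), (0, [0], [2, 0]), (0, [1], [3, 1]), (4, [], [4]), (0, [1], [2, 3]), (1, [], [5, 6]), (1, [], [4, 5]), (4, [], [6])]),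
  (2, 6, [(0, [0], [0, 1]), (0, [0], [2, 0]), (0, [1], [3, 1]), (4, [], [4]), (0, [1], [2, 3]), (1, [], [4, 5]), (4, [], [5])]),
  (2, 5, [(0, [0], [0, 1]), (0, [0], [2, 0]), (0, [1], [3, 1]), (4, [], [4]), (0, [1], [2, 3]), (4, [], [4])]),
  (2, 6, [(0, [0], [0, 1]), (0, [0], [2, 0]), (0, [1], [3, 1]), (4, [], [4]), (1, [], [3, 5]), (2, [1], [2, 4, 5])]),
  (2, 6, [(0, [0], [0, 1]), (0, [0], [2, 0]), (0, [1], [3, 1]), (4, [], [4]), (1, [], [4, 5]), (2, [1], [2, 3, 5])]),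
  (2, 5, [(0, [0], [0, 1]), (0, [0], [2, 0]), (0, [1], [3, 1]), (4, [], [4]), (2, [1], [2, 3, 4])]),
  (2, 7, [(0, [0], [0, 1]), (0, [0], [2, 0]), (0, [1], [3, 4]), (4, [], [1]), (0, [1], [5, 6]), (1, [], [5, 6]), (1, [], [3, 4]), (4, [], [2])]),
  (2, 7, [(0, [0], [0, 1]), (0, [0], [2, 0]), (0, [1], [3, 4]), (4, [], [1]), (0, [1], [5, 6]), (1, [], [2, 5]), (1, [], [3, 6]), (4, [], [4])]),
  (2, 7, [(0, [0], [0, 1]), (0, [0], [2, 0]), (0, [1], [3, 4]), (4, [], [1]), (0, [1], [5, 6]), (1, [], [3, 5]), (1, [], [4, 6]), (4, [], [2])]),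
  (2, 7, [(0, [0], [0, 1]), (0, [0], [2, 0]), (0, [1], [3, 4]), (4, [], [1]), (0, [1], [3, 5]), (1, [], [5, 6]), (1, [], [2, 6]), (4, [], [4])]),
  (2, 7, [(0, [0], [0, 1]), (0, [0], [2, 0]), (0, [1], [3, 4]), (4, [], [1]), (0, [1], [3, 5]), (1, [], [5, 6]), (1, [], [4, 6]), (4, [], [2])]),
  (2, 7, [(0, [0], [0, 1]), (0, [0], [2, 0]), (0, [1], [3, 4]), (4, [], [1]), (0, [1], [3, 5]), (1, [], [5, 6]), (1, [], [2, 4]), (4, [], [6])]),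
  (2, 7, [(0, [0], [0, 1]), (0, [0], [2, 0]), (0, [1], [3, 4]), (4, [], [1]), (0, [1], [3, 5]), (1, [], [2, 6]), (1, [], [4, 5]), (4, [], [6])]),
  (2, 6, [(0, [0], [0, 1]), (0, [0], [2, 0]), (0, [1], [3, 4]), (4, [], [1]), (0, [1], [3, 5]), (1, [], [2, 5]), (4, [], [4])]),
  (2, 6, [(0, [0], [0, 1]), (0, [0], [2, 0]), (0, [1], [3, 4]), (4, [], [1]), (0, [1], [3, 5]), (1, [], [4, 5]), (4, [], [2])]),
  (2, 6, [(0, [0], [0, 1]), (0, [0], [2, 0]), (0, [1], [3, 4]), (4, [], [1]), (1, [], [3, 5]), (2, [1], [2, 4, 5])]),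
  (2, 7, [(0, [0], [0, 1]), (0, [0], [2, 3]), (0, [1], [0, 1]), (4, [], [4]), (0, [1], [5, 6]), (1, [], [5, 6]), (1, [], [2, 3]), (4, [], [4])]),
  (2, 7, [(0, [0], [0, 1]), (0, [0], [2, 3]), (0, [1], [0, 1]), (4, [], [4]), (0, [1], [2, 5]), (1, [], [5, 6]), (1, [], [3, 4]), (4, [], [6])]),
  (2, 7, [(0, [0], [0, 1]), (0, [0], [2, 3]), (0, [1], [4, 0]), (4, [], [1]), (0, [1], [5, 6]), (1, [], [5, 6]), (1, [], [2, 4]), (4, [], [3])]),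
  (2, 7, [(0, [0], [0, 1]), (0, [0], [2, 3]), (0, [1], [4, 0]), (4, [], [1]), (0, [1], [5, 6]), (1, [], [2, 5]), (1, [], [3, 6]), (4, [], [4])]),
  (2, 7, [(0, [0], [0, 1]), (0, [0], [2, 3]), (0, [1], [4, 0]), (4, [], [1]), (0, [1], [5, 6]), (1, [], [2, 5]), (1, [], [4, 6]), (4, [], [3])]),
  (2, 7, [(0, [0], [0, 1]), (0, [0], [2, 3]), (0, [1], [4, 0]), (4, [], [1]), (0, [1], [5, 6]), (1, [], [2, 5]), (1, [], [3, 4]), (4, [], [6])]),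
  (2, 7, [(0, [0], [0, 1]), (0, [0], [2, 3]), (0, [1], [4, 0]), (4, [], [1]), (0, [1], [2, 5]), (1, [], [5, 6]), (1, [], [3, 6]), (4, [], [4])]),
  (2, 7, [(0, [0], [0, 1]), (0, [0], [2, 3]), (0, [1], [4, 0]), (4, [], [1]), (0, [1], [2, 5]), (1, [], [5, 6]), (1, [], [4, 6]), (4, [], [3])]),
  (2, 7, [(0, [0], [0, 1]), (0, [0], [2, 3]), (0, [1], [4, 0]), (4, [], [1]), (0, [1], [2, 5]), (1, [], [5, 6]), (1, [], [3, 4]), (4, [], [6])]),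
  (2, 7, [(0, [0], [0, 1]), (0, [0], [2, 3]), (0, [1], [4, 0]), (4, [], [1]), (0, [1], [2, 5]), (1, [], [3, 6]), (1, [], [4, 6]), (4, [], [5])]),
  (2, 7, [(0, [0], [0, 1]), (0, [0], [2, 3]), (0, [1], [4, 0]), (4, [], [1]), (0, [1], [2, 5]), (1, [], [3, 6]), (1, [], [4, 5]), (4, [], [6])]),
  (2, 7, [(0, [0], [0, 1]), (0, [0], [2, 3]), (0, [1], [4, 0]), (4, [], [1]), (0, [1], [2, 5]), (1, [], [4, 6]), (1, [], [3, 5]), (4, [], [6])]),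
  (2, 6, [(0, [0], [0, 1]), (0, [0], [2, 3]), (0, [1], [4, 0]), (4, [], [1]), (0, [1], [2, 5]), (1, [], [3, 5]), (4, [], [4])]),
  (2, 6, [(0, [0], [0, 1]), (0, [0], [2, 3]), (0, [1], [4, 0]), (4, [], [1]), (1, [], [2, 5]), (2, [1], [3, 4, 5])]),
  (2, 7, [(0, [0], [0, 1]), (0, [0], [2, 3]), (0, [1], [1, 3]), (4, [], [4]), (0, [1], [5, 6]), (1, [], [5, 6]), (1, [], [0, 2]), (4, [], [4])]),
  (2, 7, [(0, [0], [0, 1]), (0, [0], [2, 3]), (0, [1], [1, 3]), (4, [], [4]), (0, [1], [5, 6]), (1, [], [0, 5]), (1, [], [2, 6]), (4, [], [4])]),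
  (2, 7, [(0, [0], [0, 1]), (0, [0], [2, 3]), (0, [1], [1, 3]), (4, [], [4]), (0, [1], [5, 6]), (1, [], [0, 5]), (1, [], [2, 4]), (4, [], [6])]),
  (2, 7, [(0, [0], [0, 1]), (0, [0], [2, 3]), (0, [1], [1, 3]), (4, [], [4]), (0, [1], [5, 6]), (1, [], [4, 5]), (1, [], [0, 2]), (4, [], [6])]),
  (2, 7, [(0, [0], [0, 1]), (0, [0], [2, 3]), (0, [1], [1, 3]), (4, [], [4]), (0, [1], [0, 5]), (1, [], [5, 6]), (1, [], [2, 6]), (4, [], [4])]),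
  (2, 7, [(0, [0], [0, 1]), (0, [0], [2, 3]), (0, [1], [1, 3]), (4, [], [4]), (0, [1], [0, 5]), (1, [], [5, 6]), (1, [], [2, 4]), (4, [], [6])]),
  (2, 7, [(0, [0], [0, 1]), (0, [0], [2, 3]), (0, [1], [1, 3]), (4, [], [4]), (0, [1], [4, 5]), (1, [], [0, 6]), (1, [], [2, 6]), (4, [], [5])]),
  (2, 7, [(0, [0], [0, 1]), (0, [0], [2, 3]), (0, [1], [1, 3]), (4, [], [4]), (0, [1], [0, 5]), (1, [], [4, 6]), (1, [], [2, 5]), (4, [], [6])]),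
  (2, 6, [(0, [0], [0, 1]), (0, [0], [2, 3]), (0, [1], [1, 3]), (4, [], [4]), (0, [1], [0, 5]), (1, [], [2, 5]), (4, [], [4])]),
  (2, 6, [(0, [0], [0, 1]), (0, [0], [2, 3]), (0, [1], [1, 3]), (4, [], [4]), (0, [1], [4, 5]), (1, [], [0, 2]), (4, [], [5])]),
  (2, 7, [(0, [0], [0, 1]), (0, [0], [2, 3]), (0, [1], [1, 3]), (4, [], [4]), (0, [1], [0, 2]), (1, [], [5, 6]), (1, [], [4, 5]), (4, [], [6])]),
  (2, 6, [(0, [0], [0, 1]), (0, [0], [2, 3]), (0, [1], [1, 3]), (4, [], [4]), (0, [1], [0, 2]), (1, [], [4, 5]), (4, [], [5])]),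
  (2, 5, [(0, [0], [0, 1]), (0, [0], [2, 3]), (0, [1], [1, 3]), (4, [], [4]), (0, [1], [0, 2]), (4, [], [4])]),
  (2, 6, [(0, [0], [0, 1]), (0, [0], [2, 3]), (0, [1], [1, 3]), (4, [], [4]), (1, [], [0, 5]), (2, [1], [2, 4, 5])]),
  (2, 6, [(0, [0], [0, 1]), (0, [0], [2, 3]), (0, [1], [1, 3]), (4, [], [4]), (1, [], [4, 5]), (2, [1], [0, 2, 5])]),
  (2, 5, [(0, [0], [0, 1]), (0, [0], [2, 3]), (0, [1], [1, 3]), (4, [], [4]), (2, [1], [0, 2, 4])]),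
  (2, 7, [(0, [0], [0, 1]), (0, [0], [2, 3]), (0, [1], [4, 3]), (4, [], [1]), (0, [1], [5, 6]), (1, [], [5, 6]), (1, [], [2, 4]), (4, [], [0])]),
  (2, 7, [(0, [0], [0, 1]), (0, [0], [2, 3]), (0, [1], [4, 3]), (4, [], [1]), (0, [1], [5, 6]), (1, [], [2, 5]), (1, [], [4, 6]), (4, [], [0])]),
  (2, 7, [(0, [0], [0, 1]), (0, [0], [2, 3]), (0, [1], [4, 3]), (4, [], [1]), (0, [1], [5, 6]), (1, [], [0, 5]), (1, [], [2, 4]), (4, [], [6])]),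
  (2, 7, [(0, [0], [0, 1]), (0, [0], [2, 3]), (0, [1], [4, 3]), (4, [], [1]), (0, [1], [5, 6]), (1, [], [2, 5]), (1, [], [0, 4]), (4, [], [6])]),
  (2, 7, [(0, [0], [0, 1]), (0, [0], [2, 3]), (0, [1], [4, 3]), (4, [], [1]), (0, [1], [5, 6]), (1, [], [4, 5]), (1, [], [0, 2]), (4, [], [6])]),
  (2, 6, [(0, [0], [0, 1]), (0, [0], [2, 3]), (0, [1], [4, 3]), (4, [], [1]), (1, [], [0, 5]), (2, [1], [2, 4, 5])]),
  (2, 6, [(0, [0], [0, 1]), (0, [0], [2, 3]), (0, [1], [4, 3]), (4, [], [1]), (1, [], [2, 5]), (2, [1], [0, 4, 5])]),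
  (2, 6, [(0, [0], [0, 1]), (0, [0], [2, 3]), (0, [1], [4, 3]), (4, [], [1]), (1, [], [4, 5]), (2, [1], [0, 2, 5])]),
  (2, 5, [(0, [0], [0, 1]), (0, [0], [2, 3]), (0, [1], [4, 3]), (4, [], [1]), (2, [1], [0, 2, 4])]),
  (2, 7, [(0, [0], [0, 1]), (0, [0], [2, 1]), (0, [1], [3, 4]), (4, [], [4]), (0, [1], [5, 6]), (1, [], [5, 6]), (1, [], [0, 2]), (4, [], [3])]),
  (2, 7, [(0, [0], [0, 1]), (0, [0], [2, 1]), (0, [1], [3, 4]), (4, [], [4]), (0, [1], [5, 6]), (1, [], [0, 5]), (1, [], [2, 6]), (4, [], [3])]),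
  (2, 7, [(0, [0], [0, 1]), (0, [0], [2, 1]), (0, [1], [3, 4]), (4, [], [4]), (0, [1], [5, 6]), (1, [], [0, 5]), (1, [], [2, 3]), (4, [], [6])]),
  (2, 7, [(0, [0], [0, 1]), (0, [0], [2, 1]), (0, [1], [3, 4]), (4, [], [4]), (0, [1], [5, 6]), (1, [], [3, 5]), (1, [], [0, 2]), (4, [], [6])]),
  (2, 6, [(0, [0], [0, 1]), (0, [0], [2, 1]), (0, [1], [3, 4]), (4, [], [4]), (1, [], [0, 5]), (2, [1], [2, 3, 5])]),
  (2, 6, [(0, [0], [0, 1]), (0, [0], [2, 1]), (0, [1], [3, 4]), (4, [], [4]), (1, [], [3, 5]), (2, [1], [0, 2, 5])]),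
  (2, 5, [(0, [0], [0, 1]), (0, [0], [2, 1]), (0, [1], [3, 4]), (4, [], [4]), (2, [1], [0, 2, 3])]),
  (2, 6, [(0, [0], [0, 1]), (0, [0], [2, 3]), (0, [1], [1, 4]), (4, [], [4]), (1, [], [2, 5]), (2, [1], [0, 3, 5])]),
  (2, 7, [(0, [0], [0, 1]), (0, [0], [2, 1]), (0, [1], [3, 4]), (4, [], [5]), (0, [1], [3, 6]), (1, [], [0, 6]), (1, [], [2, 4]), (4, [], [5])]),
  (2, 6, [(0, [0], [0, 1]), (0, [0], [2, 1]), (0, [1], [3, 4]), (4, [], [5]), (1, [], [0, 3]), (2, [1], [2, 4, 5])]),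
  (2, 6, [(0, [0], [0, 1]), (0, [0], [2, 1]), (0, [1], [3, 4]), (4, [], [5]), (1, [], [0, 5]), (2, [1], [2, 3, 4])]),
  (2, 6, [(0, [0], [0, 1]), (0, [0], [2, 1]), (0, [1], [3, 4]), (4, [], [5]), (1, [], [3, 4]), (2, [1], [0, 2, 5])]),
  (2, 6, [(0, [0], [0, 1]), (0, [0], [2, 1]), (0, [1], [3, 4]), (4, [], [5]), (1, [], [3, 5]), (2, [1], [0, 2, 4])]),
  (2, 7, [(0, [0], [0, 1]), (0, [0], [2, 3]), (0, [1], [4, 1]), (4, [], [5]), (0, [1], [2, 6]), (1, [], [0, 6]), (1, [], [3, 4]), (4, [], [5])]),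
  (2, 7, [(0, [0], [0, 1]), (0, [0], [2, 3]), (0, [1], [4, 1]), (4, [], [5]), (0, [1], [2, 6]), (1, [], [4, 6]), (1, [], [0, 3]), (4, [], [5])]),
  (2, 6, [(0, [0], [0, 1]), (0, [0], [2, 3]), (0, [1], [4, 1]), (4, [], [5]), (1, [], [0, 2]), (2, [1], [3, 4, 5])]),
  (2, 6, [(0, [0], [0, 1]), (0, [0], [2, 3]), (0, [1], [4, 1]), (4, [], [5]), (1, [], [2, 3]), (2, [1], [0, 4, 5])]),
  (2, 6, [(0, [0], [0, 1]), (0, [0], [2, 3]), (0, [1], [4, 1]), (4, [], [5]), (1, [], [2, 4]), (2, [1], [0, 3, 5])]),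
  (2, 6, [(0, [0], [0, 1]), (0, [0], [2, 3]), (0, [1], [4, 1]), (4, [], [5]), (1, [], [2, 5]), (2, [1], [0, 3, 4])]),
  (2, 6, [(0, [0], [0, 1]), (0, [0], [2, 3]), (0, [1], [4, 5]), (4, [], [1]), (1, [], [0, 2]), (2, [1], [3, 4, 5])]),
  (2, 6, [(0, [0], [0, 1]), (0, [0], [2, 3]), (0, [1], [4, 5]), (4, [], [1]), (1, [], [2, 4]), (2, [1], [0, 3, 5])]),
  (2, 6, [(0, [0], [0, 1]), (0, [0], [2, 3]), (0, [1], [4, 5]), (4, [], [5]), (1, [], [0, 2]), (2, [1], [1, 3, 4])]),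
  (2, 5, [(0, [0], [0, 1]), (2, [0], [2, 3, 1]), (0, [1], [2, 4]), (2, [1], [0, 3, 4])]),
  (2, 5, [(0, [0], [0, 1]), (2, [1], [2, 3, 1]), (0, [0], [0, 4]), (2, [1], [2, 3, 4])]),
  (2, 5, [(0, [0], [0, 1]), (2, [1], [2, 3, 1]), (0, [0], [2, 4]), (2, [1], [0, 3, 4])])]

def kl52 : List ℕ := [5, 6, 10, 21, 22, 33, 34, 40, 42, 43, 45, 50, 52, 53, 54, 55, 56, 62, 64, 75, 76, 78, 81, 83, 84, 85, 86, 87, 88, 89, 90, 93, 100, 101, 102, 103, 104, 107, 113, 114, 115, 117, 118, 122, 123, 127, 128, 129, 131, 135, 136, 137, 138, 139, 142, 145, 146, 147, 149, 150, 151, 207, 210, 226, 227, 228, 229, 230, 231, 233, 234, 235, 236, 237, 238, 239, 240, 245, 246, 247, 249, 250, 251, 254, 255, 256, 257, 258, 259, 260, 261, 262, 265, 270, 273, 289, 290, 291, 292, 293, 294, 295, 296, 297, 298, 299, 301, 304, 305, 306, 307, 308, 309, 310, 311, 312, 313, 317, 318, 319, 320, 321, 322, 323,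 324, 325, 326, 327, 328, 329, 330, 331, 332, 333, 334, 335, 336, 337, 338, 339, 422, 425, 426, 427, 428, 431, 433, 434, 436, 437, 438, 439, 440, 441, 447, 449, 450]

def m52_0 : Base := (0, 2, [(0, [0], [3, 4]), (0, [1], [0, 3]), (1, [], [1, 4]), (4, [], [2])])

def l52_0 : Cov := [(8, 0, 2, [(0, [0], [3, 4]), (0, [1], [0, 3]), (1, [], [1, 4]), (4, [], [2])]),
  (4, 0, 2, [(0, [0], [3, 4]), (0, [1], [0, 3]), (1, [], [2, 4]), (4, [], [1])]),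
  (4, 0, 2, [(0, [0], [3, 4]), (0, [1], [1, 3]), (1, [], [0, 4]), (4, [], [2])]),
  (-4, 0, 2, [(0, [0], [3, 4]), (0, [1], [1, 3]), (1, [], [2, 4]), (4, [], [0])]),
  (-4, 0, 2, [(0, [0], [3, 4]), (0, [1], [2, 3]), (1, [], [0, 4]), (4, [], [1])]),
  (-8, 0, 2, [(0, [0], [3, 4]), (0, [1], [2, 3]), (1, [], [1, 4]), (4, [], [0])]),
  (-8, 0, 2, [(0, [1], [3, 4]), (0, [0], [0, 3]), (1, [], [1, 4]), (4, [], [2])]),
  (-4, 0, 2, [(0, [1], [3, 4]), (0, [0], [0, 3]), (1, [], [2, 4]), (4, [], [1])]),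
  (-4, 0, 2, [(0, [1], [3, 4]), (0, [0], [1, 3]), (1, [], [0, 4]), (4, [], [2])]),
  (4, 0, 2, [(0, [1], [3, 4]), (0, [0], [1, 3]), (1, [], [2, 4]), (4, [], [0])]),
  (4, 0, 2, [(0, [1], [3, 4]), (0, [0], [2, 3]), (1, [], [0, 4]), (4, [], [1])]),
  (8, 0, 2, [(0, [1], [3, 4]), (0, [0], [2, 3]), (1, [], [1, 4]), (4, [], [0])])]

def z52_0 : Cov := []

def w52_0 : List (List Wit) := [[(0, 0, 0, 16, 16), (1, 0, 0, 16, 16), (2, 0, 0, 16, 16), (3, 0, 0, 16, 16), (4, 0, 0, 16, 16), (5, 0, 0, 16, 16)],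
  [(6, 0, 0, 16, 16), (7, 0, 0, 16, 16), (8, 0, 0, 16, 16), (9, 0, 0, 16, 16), (10, 0, 0, 16, 16), (11, 0, 0, 16, 16)]]

def m52_1 : Base := (0, 2, [(0, [0], [3, 4]), (0, [1], [0, 3]), (1, [], [1, 2]), (4, [], [4])])

def l52_1 : Cov := [(12, 0, 2, [(0, [0], [3, 4]), (0, [1], [0, 3]), (1, [], [1, 2]), (4, [], [4])]),
  (-12, 0, 2, [(0, [0], [3, 4]), (0, [1], [2, 3]), (1, [], [0, 1]), (4, [], [4])]),
  (-12, 0, 2, [(0, [1], [3, 4]), (0, [0], [0, 3]), (1, [], [1, 2]), (4, [], [4])]),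
  (12, 0, 2, [(0, [1], [3, 4]), (0, [0], [2, 3]), (1, [], [0, 1]), (4, [], [4])])]

def z52_1 : Cov := [(0, 0, 2, [(0, [0], [3, 4]), (0, [1], [1, 3]), (1, [], [0, 2]), (4, [], [4])]),
  (0, 0, 2, [(0, [1], [3, 4]), (0, [0], [1, 3]), (1, [], [0, 2]), (4, [], [4])])]

def w52_1 : List (List Wit) := [[(0, 0, 0, 16, 16), (0, 0, 0, 16, 16), (4, 0, 0, 16, 16), (4, 0, 0, 16, 16), (1, 0, 0, 16, 16), (1, 0, 0, 16, 16)],
  [(2, 0, 0, 16, 16), (2, 0, 0, 16, 16), (5, 0, 0, 16, 16), (5, 0, 0, 16, 16), (3, 0, 0, 16, 16), (3, 0, 0, 16, 16)]]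

def m52_2 : Base := (0, 2, [(0, [0], [3, 4]), (0, [1], [0, 3]), (1, [], [2, 4]), (4, [], [1])])

def l52_2 : Cov := [(8, 0, 2, [(0, [0], [3, 4]), (0, [1], [0, 3]), (1, [], [2, 4]), (4, [], [1])]),
  (4, 0, 2, [(0, [0], [3, 4]), (0, [1], [0, 3]), (1, [], [1, 4]), (4, [], [2])]),
  (4, 0, 2, [(0, [0], [3, 4]), (0, [1], [1, 3]), (1, [], [2, 4]), (4, [], [0])]),
  (-4, 0, 2, [(0, [0], [3, 4]), (0, [1], [1, 3]), (1, [], [0, 4]), (4, [], [2])]),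
  (-4, 0, 2, [(0, [0], [3, 4]), (0, [1], [2, 3]), (1, [], [1, 4]), (4, [], [0])]),
  (-8, 0, 2, [(0, [0], [3, 4]), (0, [1], [2, 3]), (1, [], [0, 4]), (4, [], [1])]),
  (-8, 0, 2, [(0, [1], [3, 4]), (0, [0], [0, 3]), (1, [], [2, 4]), (4, [], [1])]),
  (-4, 0, 2, [(0, [1], [3, 4]), (0, [0], [0, 3]), (1, [], [1, 4]), (4, [], [2])]),
  (-4, 0, 2, [(0, [1], [3, 4]), (0, [0], [1, 3]), (1, [], [2, 4]), (4, [], [0])]),
  (4, 0, 2, [(0, [1], [3, 4]), (0, [0], [1, 3]), (1, [], [0, 4]), (4, [], [2])]),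
  (4, 0, 2, [(0, [1], [3, 4]), (0, [0], [2, 3]), (1, [], [1, 4]), (4, [], [0])]),
  (8, 0, 2, [(0, [1], [3, 4]), (0, [0], [2, 3]), (1, [], [0, 4]), (4, [], [1])])]

def z52_2 : Cov := []

def w52_2 : List (List Wit) := [[(0, 0, 0, 16, 16), (1, 0, 0, 16, 16), (2, 0, 0, 16, 16), (3, 0, 0, 16, 16), (4, 0, 0, 16, 16), (5, 0, 0, 16, 16)],
  [(6, 0, 0, 16, 16), (7, 0, 0, 16, 16), (8, 0, 0, 16, 16), (9, 0, 0, 16, 16), (10, 0, 0, 16, 16), (11, 0, 0, 16, 16)]]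

def m52_3 : Base := (0, 2, [(0, [0], [3, 4]), (0, [1], [0, 1]), (1, [], [3, 4]), (4, [], [2])])

def l52_3 : Cov := [(12, 0, 2, [(0, [0], [3, 4]), (0, [1], [0, 1]), (1, [], [3, 4]), (4, [], [2])]),
  (-12, 0, 2, [(0, [0], [3, 4]), (0, [1], [1, 2]), (1, [], [3, 4]), (4, [], [0])]),
  (-12, 0, 2, [(0, [1], [3, 4]), (0, [0], [0, 1]), (1, [], [3, 4]), (4, [], [2])]),
  (12, 0, 2, [(0, [1], [3, 4]), (0, [0], [1, 2]), (1, [], [3, 4]), (4, [], [0])])]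

def z52_3 : Cov := [(0, 0, 2, [(0, [0], [3, 4]), (0, [1], [0, 2]), (1, [], [3, 4]), (4, [], [1])]),
  (0, 0, 2, [(0, [1], [3, 4]), (0, [0], [0, 2]), (1, [], [3, 4]), (4, [], [1])])]

def w52_3 : List (List Wit) := [[(0, 0, 0, 16, 16), (4, 0, 0, 16, 16), (0, 0, 0, 16, 16), (1, 0, 0, 16, 16), (4, 0, 0, 16, 16), (1, 0, 0, 16, 16)],
  [(2, 0, 0, 16, 16), (5, 0, 0, 16, 16), (2, 0, 0, 16, 16), (3, 0, 0, 16, 16), (5, 0, 0, 16, 16), (3, 0, 0, 16, 16)]]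

def m52_4 : Base := (0, 2, [(0, [0], [3, 4]), (0, [1], [0, 1]), (1, [], [2, 3]), (4, [], [4])])

def l52_4 : Cov := [(12, 0, 2, [(0, [0], [3, 4]), (0, [1], [0, 1]), (1, [], [2, 3]), (4, [], [4])]),
  (-12, 0, 2, [(0, [0], [3, 4]), (0, [1], [1, 2]), (1, [], [0, 3]), (4, [], [4])]),
  (-12, 0, 2, [(0, [1], [3, 4]), (0, [0], [0, 1]), (1, [], [2, 3]), (4, [], [4])]),
  (12, 0, 2, [(0, [1], [3, 4]), (0, [0], [1, 2]), (1, [], [0, 3]), (4, [], [4])])]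

def z52_4 : Cov := [(0, 0, 2, [(0, [0], [3, 4]), (0, [1], [0, 2]), (1, [], [1, 3]), (4, [], [4])]),
  (0, 0, 2, [(0, [1], [3, 4]), (0, [0], [0, 2]), (1, [], [1, 3]), (4, [], [4])])]

def w52_4 : List (List Wit) := [[(0, 0, 0, 16, 16), (4, 0, 0, 16, 16), (0, 0, 0, 16, 16), (1, 0, 0, 16, 16), (4, 0, 0, 16, 16), (1, 0, 0, 16, 16)],
  [(2, 0, 0, 16, 16), (5, 0, 0, 16, 16), (2, 0, 0, 16, 16), (3, 0, 0, 16, 16), (5, 0, 0, 16, 16), (3, 0, 0, 16, 16)]]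

def m52_5 : Base := (0, 2, [(0, [0], [0, 3]), (0, [1], [1, 4]), (1, [], [3, 4]), (4, [], [2])])

def l52_5 : Cov := [(4, 0, 2, [(0, [0], [0, 3]), (0, [1], [1, 4]), (1, [], [3, 4]), (4, [], [2])]),
  (8, 0, 2, [(0, [0], [0, 3]), (0, [1], [2, 4]), (1, [], [3, 4]), (4, [], [1])]),
  (-4, 0, 2, [(0, [0], [1, 3]), (0, [1], [0, 4]), (1, [], [3, 4]), (4, [], [2])]),
  (4, 0, 2, [(0, [0], [1, 3]), (0, [1], [2, 4]), (1, [], [3, 4]), (4, [], [0])]),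
  (-8, 0, 2, [(0, [0], [2, 3]), (0, [1], [0, 4]), (1, [], [3, 4]), (4, [], [1])]),
  (-4, 0, 2, [(0, [0], [2, 3]), (0, [1], [1, 4]), (1, [], [3, 4]), (4, [], [0])])]

def z52_5 : Cov := []

def w52_5 : List (List Wit) := [[(0, 0, 0, 16, 16), (1, 0, 0, 16, 16), (2, 0, 0, 16, 16), (3, 0, 0, 16, 16), (4, 0, 0, 16, 16), (5, 0, 0, 16, 16)],
  [(2, 0, 0, 1, 1), (4, 0, 0, 1, 1), (0, 0, 0, 1, 1), (5, 0, 0, 1, 1), (1, 0, 0, 1, 1), (3, 0, 0, 1, 1)]]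

def m52_6 : Base := (0, 2, [(0, [0], [0, 3]), (0, [1], [1, 4]), (1, [], [2, 4]), (4, [], [3])])

def l52_6 : Cov := [(8, 0, 2, [(0, [0], [0, 3]), (0, [1], [1, 4]), (1, [], [2, 4]), (4, [], [3])]),
  (4, 0, 2, [(0, [0], [0, 3]), (0, [1], [2, 4]), (1, [], [1, 4]), (4, [], [3])]),
  (4, 0, 2, [(0, [0], [1, 3]), (0, [1], [0, 4]), (1, [], [2, 4]), (4, [], [3])]),
  (-4, 0, 2, [(0, [0], [1, 3]), (0, [1], [2, 4]), (1, [], [0, 4]), (4, [], [3])]),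
  (-4, 0, 2, [(0, [0], [2, 3]), (0, [1], [0, 4]), (1, [], [1, 4]), (4, [], [3])]),
  (-8, 0, 2, [(0, [0], [2, 3]), (0, [1], [1, 4]), (1, [], [0, 4]), (4, [], [3])]),
  (-8, 0, 2, [(0, [1], [0, 3]), (0, [0], [1, 4]), (1, [], [2, 4]), (4, [], [3])]),
  (-4, 0, 2, [(0, [1], [0, 3]), (0, [0], [2, 4]), (1, [], [1, 4]), (4, [], [3])]),
  (-4, 0, 2, [(0, [1], [1, 3]), (0, [0], [0, 4]), (1, [], [2, 4]), (4, [], [3])]),
  (4, 0, 2, [(0, [1], [1, 3]), (0, [0], [2, 4]), (1, [], [0, 4]), (4, [], [3])]),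
  (4, 0, 2, [(0, [1], [2, 3]), (0, [0], [0, 4]), (1, [], [1, 4]), (4, [], [3])]),
  (8, 0, 2, [(0, [1], [2, 3]), (0, [0], [1, 4]), (1, [], [0, 4]), (4, [], [3])])]

def z52_6 : Cov := []

def w52_6 : List (List Wit) := [[(0, 0, 0, 16, 16), (1, 0, 0, 16, 16), (2, 0, 0, 16, 16), (3, 0, 0, 16, 16), (4, 0, 0, 16, 16), (5, 0, 0, 16, 16)],
  [(6, 0, 0, 16, 16), (7, 0, 0, 16, 16), (8, 0, 0, 16, 16), (9, 0, 0, 16, 16), (10, 0, 0, 16, 16), (11, 0, 0, 16, 16)]]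

def m52_7 : Base := (0, 2, [(0, [0], [0, 3]), (0, [1], [1, 4]), (1, [], [2, 3]), (4, [], [4])])

def l52_7 : Cov := [(8, 0, 2, [(0, [0], [0, 3]), (0, [1], [1, 4]), (1, [], [2, 3]), (4, [], [4])]),
  (4, 0, 2, [(0, [0], [0, 3]), (0, [1], [2, 4]), (1, [], [1, 3]), (4, [], [4])]),
  (4, 0, 2, [(0, [0], [1, 3]), (0, [1], [0, 4]), (1, [], [2, 3]), (4, [], [4])]),
  (-4, 0, 2, [(0, [0], [1, 3]), (0, [1], [2, 4]), (1, [], [0, 3]), (4, [], [4])]),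
  (-4, 0, 2, [(0, [0], [2, 3]), (0, [1], [0, 4]), (1, [], [1, 3]), (4, [], [4])]),
  (-8, 0, 2, [(0, [0], [2, 3]), (0, [1], [1, 4]), (1, [], [0, 3]), (4, [], [4])]),
  (-8, 0, 2, [(0, [1], [0, 3]), (0, [0], [1, 4]), (1, [], [2, 3]), (4, [], [4])]),
  (-4, 0, 2, [(0, [1], [0, 3]), (0, [0], [2, 4]), (1, [], [1, 3]), (4, [], [4])]),
  (-4, 0, 2, [(0, [1], [1, 3]), (0, [0], [0, 4]), (1, [], [2, 3]), (4, [], [4])]),
  (4, 0, 2, [(0, [1], [1, 3]), (0, [0], [2, 4]), (1, [], [0, 3]), (4, [], [4])]),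
  (4, 0, 2, [(0, [1], [2, 3]), (0, [0], [0, 4]), (1, [], [1, 3]), (4, [], [4])]),
  (8, 0, 2, [(0, [1], [2, 3]), (0, [0], [1, 4]), (1, [], [0, 3]), (4, [], [4])])]

def z52_7 : Cov := []

def w52_7 : List (List Wit) := [[(0, 0, 0, 16, 16), (1, 0, 0, 16, 16), (2, 0, 0, 16, 16), (3, 0, 0, 16, 16), (4, 0, 0, 16, 16), (5, 0, 0, 16, 16)],
  [(6, 0, 0, 16, 16), (7, 0, 0, 16, 16), (8, 0, 0, 16, 16), (9, 0, 0, 16, 16), (10, 0, 0, 16, 16), (11, 0, 0, 16, 16)]]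

def m52_8 : Base := (0, 2, [(0, [0], [0, 3]), (0, [1], [1, 3]), (1, [], [2, 4]), (4, [], [4])])

def l52_8 : Cov := [(4, 0, 2, [(0, [0], [0, 3]), (0, [1], [1, 3]), (1, [], [2, 4]), (4, [], [4])]),
  (8, 0, 2, [(0, [0], [0, 3]), (0, [1], [2, 3]), (1, [], [1, 4]), (4, [], [4])]),
  (-4, 0, 2, [(0, [0], [1, 3]), (0, [1], [0, 3]), (1, [], [2, 4]), (4, [], [4])]),
  (4, 0, 2, [(0, [0], [1, 3]), (0, [1], [2, 3]), (1, [], [0, 4]), (4, [], [4])]),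
  (-8, 0, 2, [(0, [0], [2, 3]), (0, [1], [0, 3]), (1, [], [1, 4]), (4, [], [4])]),
  (-4, 0, 2, [(0, [0], [2, 3]), (0, [1], [1, 3]), (1, [], [0, 4]), (4, [], [4])])]

def z52_8 : Cov := []

def w52_8 : List (List Wit) := [[(0, 0, 0, 16, 16), (1, 0, 0, 16, 16), (2, 0, 0, 16, 16), (3, 0, 0, 16, 16), (4, 0, 0, 16, 16), (5, 0, 0, 16, 16)],
  [(2, 0, 0, 16, 16), (4, 0, 0, 16, 16), (0, 0, 0, 16, 16), (5, 0, 0, 16, 16), (1, 0, 0, 16, 16), (3, 0, 0, 16, 16)]]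

def m52_9 : Base := (0, 1, [(0, [0], [0, 3]), (0, [1], [1, 3]), (4, [], [2])])

def l52_9 : Cov := [(4, 0, 1, [(0, [0], [0, 3]), (0, [1], [1, 3]), (4, [], [2])]),
  (8, 0, 1, [(0, [0], [0, 3]), (0, [1], [2, 3]), (4, [], [1])]),
  (-4, 0, 1, [(0, [0], [1, 3]), (0, [1], [0, 3]), (4, [], [2])]),
  (4, 0, 1, [(0, [0], [1, 3]), (0, [1], [2, 3]), (4, [], [0])]),
  (-8, 0, 1, [(0, [0], [2, 3]), (0, [1], [0, 3]), (4, [], [1])]),
  (-4, 0, 1, [(0, [0], [2, 3]), (0, [1], [1, 3]), (4, [], [0])])]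

def z52_9 : Cov := []

def w52_9 : List (List Wit) := [[(0, 0, 0, 0, 0), (1, 0, 0, 0, 0), (2, 0, 0, 0, 0), (3, 0, 0, 0, 0), (4, 0, 0, 0, 0), (5, 0, 0, 0, 0)],
  [(2, 0, 0, 0, 0), (4, 0, 0, 0, 0), (0, 0, 0, 0, 0), (5, 0, 0, 0, 0), (1, 0, 0, 0, 0), (3, 0, 0, 0, 0)]]

def m52_10 : Base := (0, 2, [(0, [0], [0, 3]), (0, [1], [1, 2]), (1, [], [3, 4]), (4, [], [4])])

def l52_10 : Cov := [(12, 0, 2, [(0, [0], [0, 3]), (0, [1], [1, 2]), (1, [], [3, 4]), (4, [], [4])]),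
  (-12, 0, 2, [(0, [0], [2, 3]), (0, [1], [0, 1]), (1, [], [3, 4]), (4, [], [4])]),
  (-12, 0, 2, [(0, [1], [0, 3]), (0, [0], [1, 2]), (1, [], [3, 4]), (4, [], [4])]),
  (12, 0, 2, [(0, [1], [2, 3]), (0, [0], [0, 1]), (1, [], [3, 4]), (4, [], [4])])]

def z52_10 : Cov := [(0, 0, 2, [(0, [0], [1, 3]), (0, [1], [0, 2]), (1, [], [3, 4]), (4, [], [4])]),
  (0, 0, 2, [(0, [1], [1, 3]), (0, [0], [0, 2]), (1, [], [3, 4]), (4, [], [4])])]

def w52_10 : List (List Wit) := [[(0, 0, 0, 16, 16), (0, 0, 0, 16, 16), (4, 0, 0, 16, 16), (4, 0, 0, 16, 16), (1, 0, 0, 16, 16), (1, 0, 0, 16, 16)],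
  [(2, 0, 0, 16, 16), (2, 0, 0, 16, 16), (5, 0, 0, 16, 16), (5, 0, 0, 16, 16), (3, 0, 0, 16, 16), (3, 0, 0, 16, 16)]]

def m52_11 : Base := (0, 1, [(0, [0], [0, 3]), (0, [1], [1, 2]), (4, [], [3])])

def l52_11 : Cov := [(12, 0, 1, [(0, [0], [0, 3]), (0, [1], [1, 2]), (4, [], [3])]),
  (-12, 0, 1, [(0, [0], [2, 3]), (0, [1], [0, 1]), (4, [], [3])]),
  (-12, 0, 1, [(0, [1], [0, 3]), (0, [0], [1, 2]), (4, [], [3])]),
  (12, 0, 1, [(0, [1], [2, 3]), (0, [0], [0, 1]), (4, [], [3])])]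

def z52_11 : Cov := [(0, 0, 1, [(0, [0], [1, 3]), (0, [1], [0, 2]), (4, [], [3])]),
  (0, 0, 1, [(0, [1], [1, 3]), (0, [0], [0, 2]), (4, [], [3])])]

def w52_11 : List (List Wit) := [[(0, 0, 0, 0, 0), (0, 0, 0, 0, 0), (4, 0, 0, 0, 0), (4, 0, 0, 0, 0), (1, 0, 0, 0, 0), (1, 0, 0, 0, 0)],
  [(2, 0, 0, 0, 0), (2, 0, 0, 0, 0), (5, 0, 0, 0, 0), (5, 0, 0, 0, 0), (3, 0, 0, 0, 0), (3, 0, 0, 0, 0)]]

def m52_12 : Base := (0, 1, [(0, [0], [0, 3]), (2, [1], [1, 2, 3])])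

def l52_12 : Cov := [(12, 0, 1, [(0, [0], [0, 3]), (2, [1], [1, 2, 3])]),
  (-12, 0, 1, [(0, [0], [2, 3]), (2, [1], [0, 1, 3])]),
  (-12, 0, 1, [(0, [1], [0, 3]), (2, [0], [1, 2, 3])]),
  (12, 0, 1, [(0, [1], [2, 3]), (2, [0], [0, 1, 3])])]

def z52_12 : Cov := [(0, 0, 1, [(0, [0], [1, 3]), (2, [1], [0, 2, 3])]),
  (0, 0, 1, [(0, [1], [1, 3]), (2, [0], [0, 2, 3])])]

def w52_12 : List (List Wit) := [[(0, 0, 0, 0, 0), (0, 0, 0, 0, 0), (4, 0, 0, 0, 0), (4, 0, 0, 0, 0), (1, 0, 0, 0, 0), (1, 0, 0, 0, 0)],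
  [(2, 0, 0, 0, 0), (2, 0, 0, 0, 0), (5, 0, 0, 0, 0), (5, 0, 0, 0, 0), (3, 0, 0, 0, 0), (3, 0, 0, 0, 0)]]

theorem tr52 : trK keys lk52 kl52 = true := by
  decide +kernel

theorem x52_0 : expB 2 3 dg12 dg2 m52_0 (l52_0 ++ z52_0) w52_0 = true := by
  decide +kernel

theorem x52_1 : expB 2 3 dg12 dg2 m52_1 (l52_1 ++ z52_1) w52_1 = true := by
  decide +kernel

theorem x52_2 : expB 2 3 dg12 dg2 m52_2 (l52_2 ++ z52_2) w52_2 = true := by
  decide +kernel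

theorem x52_3 : expB 2 3 dg12 dg2 m52_3 (l52_3 ++ z52_3) w52_3 = true := by
  decide +kernel

theorem x52_4 : expB 2 3 dg12 dg2 m52_4 (l52_4 ++ z52_4) w52_4 = true := by
  decide +kernel

theorem x52_5 : expB 2 3 dg12 dg2 m52_5 (l52_5 ++ z52_5) w52_5 = true := by
  decide +kernel

theorem x52_6 : expB 2 3 dg12 dg2 m52_6 (l52_6 ++ z52_6) w52_6 = true := by
  decide +kernel

theorem x52_7 : expB 2 3 dg12 dg2 m52_7 (l52_7 ++ z52_7) w52_7 = true := by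
  decide +kernel

theorem x52_8 : expB 2 3 dg12 dg2 m52_8 (l52_8 ++ z52_8) w52_8 = true := by
  decide +kernel

theorem x52_9 : expB 2 3 dg12 dg2 m52_9 (l52_9 ++ z52_9) w52_9 = true := by
  decide +kernel

theorem x52_10 : expB 2 3 dg12 dg2 m52_10 (l52_10 ++ z52_10) w52_10 = true := by
  decide +kernel

theorem x52_11 : expB 2 3 dg12 dg2 m52_11 (l52_11 ++ z52_11) w52_11 = true := by
  decide +kernel

theorem x52_12 : expB 2 3 dg12 dg2 m52_12 (l52_12 ++ z52_12) w52_12 = true := by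
  decide +kernel

theorem t52_0_0 : chkS lk52 2 3 [(1, m52_0)] l52_0
  [(68, 1, 1, 86185056, 23217456), (69, 1, 1, 86185536, 39929136), (145, 16, 16, 52434276, 18900276), (101, 1, 1, 86246961, 40113411), (101, 1, 1, 67445091, 21365541), (100, 1, 1, 86246241, 23340291), (111, 1, 1, 37028961, 21124611), (112, 1, 1, 37028961, 21124611), (146, 16, 16, 102765876, 102765876), (103, 1, 1, 52692561, 34891011), (103, 16, 16, 67314021, 17187621), (102, 1, 1, 52692321, 19162371)]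
  [(68, 8), (69, 4), (100, -8), (101, -8), (102, 8), (103, 8), (111, -8), (112, -4), (145, 4), (146, -4)] = true := by
  decide +kernel

theorem t52_0_1 : chkS lk52 2 3 [(1, m52_0)] l52_1
  [(59, 1, 1, 51652176, 34890576), (99, 16, 16, 16983141, 16925541), (48, 1, 1, 17049171, 34866021), (99, 1, 1, 17114211, 21103461)]
  [(48, -12), (59, 12), (99, 0)] = true := by
  decide +kernel

theorem t52_0_2 : chkS lk52 2 3 [(1, m52_0)] l52_2
  [(69, 1, 1, 86185536, 39929136), (68, 1, 1, 86185056, 23217456), (101, 1, 1, 86246961, 40113411), (145, 16, 16, 52434276, 18900276), (100, 1, 1, 86246241, 23340291), (101, 1, 1, 67445091, 21365541), (112, 1, 1, 37028961, 21124611), (111, 1, 1, 37028961, 21124611), (103, 1, 1, 52692561, 34891011), (146, 16, 16, 102765876, 102765876), (102, 1, 1, 52692321, 19162371), (103, 16, 16, 67314021, 17187621)]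
  [(68, 4), (69, 8), (100, -4), (101, -4), (102, 4), (103, 4), (111, -4), (112, -8), (145, -4), (146, 4)] = true := by
  decide +kernel

theorem t52_0_3 : chkS lk52 2 3 [(1, m52_0)] l52_3
  [(63, 1, 1, 106107936, 106053936), (95, 1, 1, 106169121, 106176771), (107, 16, 16, 105911331, 106037556), (10, 16, 16, 105972786, 106041411)]
  [(10, 12), (63, 12), (95, -12), (107, -12)] = true := by
  decide +kernel

theorem t52_0_4 : chkS lk52 2 3 [(1, m52_0)] l52_4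
  [(67, 1, 1, 106107936, 106053936), (126, 16, 16, 16922196, 34616421), (110, 16, 16, 105911331, 106037556), (127, 1, 1, 17053266, 34877541)]
  [(67, 12), (110, -12), (126, -12), (127, 12)] = true := by
  decide +kernel

theorem t52_0_5 : chkS lk52 2 3 [(1, m52_0)] l52_5
  [(108, 16, 16, 102765651, 101844276), (109, 16, 16, 84031041, 39924741), (64, 1, 1, 38999136, 22169136), (97, 1, 1, 39060321, 22291971), (65, 1, 1, 38999616, 38880816), (98, 1, 1, 39061041, 39065091)]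
  [(64, -4), (65, -8), (97, 4), (98, -4), (108, 4), (109, 8)] = true := by
  decide +kernel

theorem t52_0_6 : chkS lk52 2 3 [(1, m52_0)] l52_6
  [(47, 16, 16, 68302416, 35009616), (46, 16, 16, 68302176, 19280976), (66, 1, 1, 40047696, 85083696), (127, 16, 16, 85079556, 39859281), (71, 1, 1, 38999136, 22169136), (124, 16, 16, 101855316, 101725266), (40, 1, 1, 68363856, 35013456), (39, 1, 1, 68363616, 19284816), (109, 16, 16, 39851091, 85067316), (126, 1, 1, 85210626, 40120401), (113, 16, 16, 38802531, 22152756), (124, 1, 1, 85209186, 23343186)]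
  [(39, -4), (40, -8), (46, 4), (47, 8), (66, 4), (71, -4), (109, -4), (113, 4), (126, 4), (127, -4)] = true := by
  decide +kernel

theorem t52_0_7 : chkS lk52 2 3 [(1, m52_0)] l52_7
  [(109, 16, 16, 102765651, 101844276), (113, 16, 16, 85988451, 23201076), (40, 1, 1, 21177936, 34947936), (124, 1, 1, 22294626, 22294626), (39, 1, 1, 21177696, 19219296), (126, 16, 16, 100806996, 101725221), (66, 1, 1, 102962256, 101860656), (71, 1, 1, 86185056, 23217456), (47, 16, 16, 21116496, 34944096), (124, 16, 16, 23212116, 84948066), (46, 16, 16, 21116256, 19215456), (127, 1, 1, 100938066, 101986341)]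
  [(39, -4), (40, 4), (46, 4), (47, -4), (66, -8), (71, -4), (109, 8), (113, 4), (126, -8), (127, 8)] = true := by
  decide +kernel

theorem t52_0_8 : chkS lk52 2 3 [(1, m52_0)] l52_8
  [(114, 1, 1, 104137761, 105009411), (48, 1, 1, 100933971, 101974821), (72, 1, 1, 102962256, 101860656), (103, 1, 1, 100999491, 104923941), (59, 1, 1, 101983056, 101983056), (101, 16, 16, 100868421, 100746021)]
  [(48, 8), (59, -8), (72, -4), (101, -4), (103, 4), (114, 4)] = true := by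
  decide +kernel

theorem t52_0_9 : chkS lk52 2 3 [(1, m52_0)] l52_9
  [(115, 1, 1, 3474465, 4346115), (28, 16, 16, 1254480, 1196880), (74, 1, 1, 2298960, 1197360), (27, 16, 16, 2163765, 136515), (30, 16, 16, 2163540, 1058115), (26, 16, 16, 2163765, 136515)]
  [(26, -4), (27, 4), (28, 8), (30, -8), (74, -4), (115, 4)] = true := by
  decide +kernel

theorem t52_0_10 : chkS lk52 2 3 [(1, m52_0)] l52_10
  [(109, 16, 16, 69211731, 34997556), (67, 1, 1, 72554016, 39207216), (66, 1, 1, 69408336, 35013936), (110, 16, 16, 72357411, 39190836)]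
  [(66, -12), (67, -12), (109, 12), (110, 12)] = true := by
  decide +kernel

theorem t52_0_11 : chkS lk52 2 3 [(1, m52_0)] l52_11
  [(24, 1, 1, 3278145, 2184195), (76, 1, 1, 5444640, 5390640), (29, 16, 16, 5309220, 5251395), (116, 16, 16, 5248035, 5374260)]
  [(24, 12), (29, -12), (76, -12), (116, 12)] = true := by
  decide +kernel

theorem t52_0_12 : chkS lk52 2 3 [(1, m52_0)] l52_12
  [(120, 16, 16, 2102355, 1180980), (129, 16, 16, 143700, 1061925), (80, 1, 1, 2298960, 1197360), (130, 1, 1, 274770, 1323045)]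
  [(80, -12), (120, 12), (129, -12), (130, 12)] = true := by
  decide +kernel

theorem t52_1_1 : chkS lk52 2 3 [(1, m52_1)] l52_1
  [(58, 1, 1, 69408336, 35013936), (100, 16, 16, 52495716, 18900291), (16, 1, 1, 52696656, 34891056), (102, 16, 16, 86049636, 23078211)]
  [(16, -12), (58, 12), (100, -12), (102, 12)] = true := by
  decide +kernel

theorem t52_1_2 : chkS lk52 2 3 [(1, m52_1)] l52_2
  [(59, 1, 1, 69408096, 19285296), (59, 1, 1, 69408336, 35013936), (99, 16, 16, 52495956, 34628931), (101, 16, 16, 52495956, 34628931), (99, 16, 16, 52495716, 18900291), (101, 16, 16, 52495716, 18900291), (48, 16, 16, 69272931, 19268931), (48, 16, 16, 69273171, 34997571), (99, 16, 16, 86050356, 39851331), (103, 16, 16, 86050356, 39851331), (99, 16, 16, 86049636, 23078211), (103, 16, 16, 86049636, 23078211)]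
  [(48, -12), (59, 12), (101, -12), (103, 12)] = true := by
  decide +kernel

theorem t52_1_3 : chkS lk52 2 3 [(1, m52_1)] l52_3
  [(57, 1, 1, 88282656, 40190256), (2, 16, 16, 105972786, 106041411), (15, 1, 1, 88282656, 40190256), (2, 16, 16, 70321746, 35016771)]
  [(15, -12), (57, 12)] = true := by
  decide +kernel

theorem t52_1_4 : chkS lk52 2 3 [(1, m52_1)] l52_4
  [(55, 1, 1, 88282656, 40190256), (95, 16, 16, 52495956, 34628931), (46, 16, 16, 88147491, 40173891), (10, 1, 1, 70387281, 35017731)]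
  [(10, 12), (46, -12), (55, 12), (95, -12)] = true := by
  decide +kernel

theorem t52_1_5 : chkS lk52 2 3 [(1, m52_1)] l52_5
  [(47, 16, 16, 86050371, 39912771), (47, 16, 16, 86049891, 23201091), (56, 1, 1, 38999616, 38880816), (96, 16, 16, 103875876, 102781251), (56, 1, 1, 38999136, 22169136), (96, 16, 16, 103875156, 101732931)]
  [(47, 12), (56, -12), (96, 0)] = true := by
  decide +kernel

theorem t52_1_6 : chkS lk52 2 3 [(1, m52_1)] l52_6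
  [(45, 16, 16, 86050371, 39912771), (45, 16, 16, 86049891, 23201091), (55, 1, 1, 38999616, 38880816), (97, 16, 16, 103875876, 102781251), (55, 1, 1, 38999136, 22169136), (97, 16, 16, 103875156, 101732931), (38, 1, 1, 85141056, 39928656), (38, 1, 1, 85140576, 23216976), (46, 16, 16, 38864451, 38864451), (98, 16, 16, 56689236, 84959811), (46, 16, 16, 38863971, 22152771), (98, 16, 16, 56689956, 86008131)]
  [(38, -12), (45, 12), (97, -12), (98, 12)] = true := by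
  decide +kernel

theorem t52_1_7 : chkS lk52 2 3 [(1, m52_1)] l52_7
  [(46, 16, 16, 86050371, 39912771), (46, 16, 16, 86049891, 23201091), (38, 1, 1, 22226496, 38880096), (98, 16, 16, 103875876, 102781251), (38, 1, 1, 22226016, 22168416), (98, 16, 16, 103875156, 101732931), (55, 1, 1, 86185536, 39929136), (55, 1, 1, 86185056, 23217456), (45, 16, 16, 38864451, 38864451), (97, 16, 16, 56689236, 84959811), (45, 16, 16, 38863971, 22152771), (97, 16, 16, 56689956, 86008131)]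
  [(46, 12), (55, -12), (97, 12), (98, -12)] = true := by
  decide +kernel

theorem t52_1_8 : chkS lk52 2 3 [(1, m52_1)] l52_8
  [(48, 16, 16, 102827331, 102827331), (48, 16, 16, 102827091, 101844291), (59, 1, 1, 102962496, 102843696), (104, 16, 16, 102827316, 102765891), (59, 1, 1, 102962256, 101860656), (104, 16, 16, 102826836, 101721411)]
  [(48, 12), (59, -12), (104, 0)] = true := by
  decide +kernel

theorem t52_1_9 : chkS lk52 2 3 [(1, m52_1)] l52_9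
  [(28, 1, 1, 2364720, 2364720), (28, 1, 1, 2364240, 1320240), (30, 16, 16, 206100, 2114325), (105, 16, 16, 2164020, 2102595), (30, 16, 16, 205140, 1065765), (105, 16, 16, 2163540, 1058115)]
  [(28, 12), (30, -12), (105, 0)] = true := by
  decide +kernel

theorem t52_1_10 : chkS lk52 2 3 [(1, m52_1)] l52_10
  [(15, 1, 1, 102962496, 102843696), (56, 1, 1, 105059616, 103104816), (57, 1, 1, 102962496, 102843696), (47, 16, 16, 104924451, 103088451)]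
  [(15, 12), (47, 12), (56, -12), (57, -12)] = true := by
  decide +kernel

theorem t52_1_11 : chkS lk52 2 3 [(1, m52_1)] l52_11
  [(23, 1, 1, 2299200, 2180400), (25, 16, 16, 3211860, 1069635), (19, 16, 16, 5309220, 5251395), (24, 1, 1, 5444640, 5390640)]
  [(19, -12), (23, 12), (24, 12), (25, -12)] = true := by
  decide +kernel

theorem t52_1_12 : chkS lk52 2 3 [(1, m52_1)] l52_12
  [(14, 16, 16, 1254720, 2179920), (106, 16, 16, 3211860, 1069635), (60, 1, 1, 2298960, 1197360), (139, 1, 1, 3412560, 1331760)]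
  [(14, 12), (60, -12), (106, -12), (139, 12)] = true := by
  decide +kernel

theorem t52_2_2 : chkS lk52 2 3 [(1, m52_2)] l52_2
  [(68, 1, 1, 86185536, 39929136), (69, 1, 1, 86185056, 23217456), (100, 1, 1, 86246961, 40113411), (101, 1, 1, 67446291, 38142741), (101, 1, 1, 86246241, 23340291), (145, 16, 16, 52434516, 34628916), (111, 1, 1, 37029441, 37836291), (112, 1, 1, 37029441, 37836291), (102, 1, 1, 52692561, 34891011), (103, 16, 16, 67315221, 33964821), (103, 1, 1, 52692321, 19162371), (146, 16, 16, 102765396, 101721396)]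
  [(68, 8), (69, 4), (100, 4), (101, -8), (102, -4), (103, 8), (111, -8), (112, -4), (145, -8), (146, 8)] = true := by
  decide +kernel

theorem t52_2_3 : chkS lk52 2 3 [(1, m52_2)] l52_3
  [(11, 16, 16, 52495956, 34628931), (95, 1, 1, 106168881, 106172931), (15, 1, 1, 88213041, 40178691), (10, 16, 16, 105972546, 105979971)]
  [(10, 12), (11, 12), (15, -12), (95, -12)] = true := by
  decide +kernel

theorem t52_2_4 : chkS lk52 2 3 [(1, m52_2)] l52_4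
  [(39, 1, 1, 88286736, 40190736), (126, 16, 16, 16921956, 18887781), (46, 16, 16, 88225296, 40186896), (127, 1, 1, 17053026, 19148901)]
  [(39, 12), (46, -12), (126, -12), (127, 12)] = true := by
  decide +kernel

theorem t52_2_5 : chkS lk52 2 3 [(1, m52_2)] l52_5
  [(109, 16, 16, 84030561, 23213061), (108, 16, 16, 102765891, 102827316), (65, 1, 1, 38999136, 22169136), (98, 1, 1, 39060321, 22291971), (64, 1, 1, 38999616, 38880816), (97, 1, 1, 39061041, 39065091)]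
  [(64, -8), (65, -4), (97, -4), (98, 4), (108, 8), (109, 4)] = true := by
  decide +kernel

theorem t52_2_6 : chkS lk52 2 3 [(1, m52_2)] l52_6
  [(46, 16, 16, 68302416, 35009616), (47, 16, 16, 68302176, 19280976), (71, 1, 1, 38999616, 38880816), (124, 16, 16, 101856516, 102773841), (66, 1, 1, 40047936, 86066736), (127, 16, 16, 85078116, 23082066), (39, 1, 1, 68363856, 35013456), (40, 1, 1, 68363616, 19284816), (113, 16, 16, 38803011, 38864436), (124, 1, 1, 85210626, 40120401), (109, 16, 16, 39851331, 86050356), (126, 1, 1, 85209186, 23343186)]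
  [(39, -8), (40, -4), (46, 8), (47, 4), (66, -4), (71, 4), (109, 4), (113, -4), (126, 8), (127, -8)] = true := by
  decide +kernel

theorem t52_2_7 : chkS lk52 2 3 [(1, m52_2)] l52_7
  [(113, 16, 16, 85988931, 39912756), (109, 16, 16, 102765891, 102827316), (39, 1, 1, 21177936, 34947936), (126, 16, 16, 100807956, 102773781), (40, 1, 1, 21177696, 19219296), (124, 1, 1, 22296066, 39071841), (71, 1, 1, 86185536, 39929136), (66, 1, 1, 102962496, 102843696), (46, 16, 16, 21116496, 34944096), (127, 1, 1, 100939026, 103034901), (47, 16, 16, 21116256, 19215456), (124, 16, 16, 23213316, 85996641)]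
  [(39, 4), (40, -4), (46, -4), (47, 4), (66, -4), (71, -8), (109, 4), (113, 8), (126, -4), (127, 4)] = true := by
  decide +kernel

theorem t52_2_8 : chkS lk52 2 3 [(1, m52_2)] l52_8
  [(48, 1, 1, 100934931, 103023381), (114, 1, 1, 104137281, 104944131), (59, 1, 1, 101983536, 103027536), (101, 16, 16, 100869141, 100811541), (72, 1, 1, 102962496, 102843696), (103, 1, 1, 101000211, 104989461)]
  [(48, 4), (59, -4), (72, -8), (101, 4), (103, -4), (114, 8)] = true := by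
  decide +kernel

theorem t52_2_9 : chkS lk52 2 3 [(1, m52_2)] l52_9
  [(28, 16, 16, 1254720, 2179920), (115, 1, 1, 3473985, 4280835), (30, 16, 16, 2164020, 2102595), (26, 16, 16, 2163525, 75075), (74, 1, 1, 2299200, 2180400), (27, 16, 16, 2163525, 75075)]
  [(26, 4), (27, -4), (28, 4), (30, -4), (74, -8), (115, 8)] = true := by
  decide +kernel

theorem t52_2_10 : chkS lk52 2 3 [(1, m52_2)] l52_10
  [(109, 16, 16, 69211491, 19268916), (40, 1, 1, 105063696, 103105296), (66, 1, 1, 69408096, 19285296), (47, 16, 16, 105002256, 103101456)]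
  [(40, -12), (47, 12), (66, -12), (109, 12)] = true := by
  decide +kernel

theorem t52_2_11 : chkS lk52 2 3 [(1, m52_2)] l52_11
  [(24, 1, 1, 3277905, 1201155), (29, 16, 16, 3211860, 1069635), (29, 16, 16, 5308980, 5247555), (24, 1, 1, 5375025, 5379075)]
  [(24, 24), (29, -24)] = true := by
  decide +kernel

theorem t52_2_12 : chkS lk52 2 3 [(1, m52_2)] l52_12
  [(120, 16, 16, 2102595, 2164020), (147, 16, 16, 3150420, 1069620), (80, 1, 1, 2299200, 2180400), (149, 1, 1, 3412560, 1331760)]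
  [(80, -12), (120, 12), (147, -12), (149, 12)] = true := by
  decide +kernel

theorem t52_3_3 : chkS lk52 2 3 [(1, m52_3)] l52_3
  [(61, 1, 1, 106112016, 106054416), (83, 1, 1, 106181121, 106181121), (93, 1, 1, 52843536, 70411536), (2, 1, 1, 106181121, 106181121)]
  [(2, 12), (61, 12), (83, -12), (93, -12)] = true := by
  decide +kernel

theorem t52_3_4 : chkS lk52 2 3 [(1, m52_3)] l52_4
  [(4, 1, 1, 52774416, 37971216), (8, 16, 16, 16983621, 33637221), (51, 1, 1, 52774416, 37971216), (10, 1, 1, 70668801, 70668801)]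
  [(4, 12), (8, -12), (10, 12), (51, -12)] = true := by
  decide +kernel

theorem t52_3_5 : chkS lk52 2 3 [(1, m52_3)] l52_5
  [(63, 1, 1, 37114881, 70407681), (95, 1, 1, 38163216, 70592016), (63, 1, 1, 37114896, 70407696), (95, 1, 1, 38163201, 70592001), (8, 16, 16, 84091236, 23085861), (8, 16, 16, 84091206, 6374181)]
  [(8, -12), (95, 12)] = true := by
  decide +kernel

theorem t52_3_6 : chkS lk52 2 3 [(1, m52_3)] l52_6
  [(57, 1, 1, 37045761, 37967361), (10, 1, 1, 52843536, 70411536), (57, 1, 1, 37045776, 37967376), (10, 1, 1, 52843521, 70411521), (132, 1, 1, 38163201, 70592001), (132, 1, 1, 38163216, 70592016), (11, 16, 16, 22226436, 38814561), (8, 16, 16, 6496596, 84951846), (11, 16, 16, 22226496, 38880096), (8, 16, 16, 6496581, 83968806), (123, 1, 1, 68571171, 70648146), (123, 1, 1, 68571186, 70651986)]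
  [(11, -12), (57, 12), (123, 12), (132, -12)] = true := by
  decide +kernel

theorem t52_3_7 : chkS lk52 2 3 [(1, m52_3)] l52_7
  [(11, 16, 16, 85141056, 39928656), (123, 1, 1, 21385251, 70582626), (11, 16, 16, 85140996, 39863121), (123, 1, 1, 21385266, 70586466), (8, 16, 16, 100868436, 101729061), (8, 16, 16, 100868421, 100746021), (57, 1, 1, 52774416, 37971216), (132, 1, 1, 69620481, 70657281), (57, 1, 1, 52774401, 37971201), (132, 1, 1, 69620496, 70657296), (10, 1, 1, 37114896, 70407696), (10, 1, 1, 37114881, 70407681)]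
  [(8, -12), (10, 12), (11, 12), (57, -12), (132, 0)] = true := by
  decide +kernel

theorem t52_3_8 : chkS lk52 2 3 [(1, m52_3)] l52_8
  [(34, 1, 1, 103105281, 105063681), (15, 16, 16, 102056736, 105062736), (34, 1, 1, 103105296, 105063696), (15, 16, 16, 102056706, 105062481), (57, 1, 1, 102056736, 105062736), (57, 1, 1, 102056706, 105062481)]
  [(15, 12), (57, -12)] = true := by
  decide +kernel

theorem t52_3_9 : chkS lk52 2 3 [(1, m52_3)] l52_9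
  [(35, 1, 1, 2441985, 4400385), (23, 16, 16, 1393440, 4399440), (35, 1, 1, 2442000, 4400400), (23, 16, 16, 1393410, 4399185), (19, 16, 16, 205140, 1065765), (19, 16, 16, 205125, 82725)]
  [(19, -12), (23, 12), (35, 0)] = true := by
  decide +kernel

theorem t52_3_10 : chkS lk52 2 3 [(1, m52_3)] l52_10
  [(11, 16, 16, 101918016, 102843216), (4, 1, 1, 103105296, 105063696), (57, 1, 1, 103105296, 105063696), (51, 1, 1, 103105296, 105063696)]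
  [(4, -12), (11, 12), (51, 12), (57, -12)] = true := by
  decide +kernel

theorem t52_3_11 : chkS lk52 2 3 [(1, m52_3)] l52_11
  [(19, 16, 16, 1254720, 2179920), (20, 1, 1, 3490320, 4411920), (19, 16, 16, 5447940, 5260065), (52, 1, 1, 3490320, 4411920)]
  [(20, -12), (52, 12)] = true := by
  decide +kernel

theorem t52_3_12 : chkS lk52 2 3 [(1, m52_3)] l52_12
  [(148, 16, 16, 206145, 2179845), (3, 16, 16, 205140, 1065765), (143, 1, 1, 2372865, 2372865), (7, 1, 1, 344370, 4395045)]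
  [(3, -12), (7, 12), (143, -12), (148, 12)] = true := by
  decide +kernel

theorem t52_4_4 : chkS lk52 2 3 [(1, m52_4)] l52_4
  [(43, 1, 1, 88286736, 40190736), (134, 1, 1, 106181136, 106181136), (49, 1, 1, 52774416, 37971216), (127, 16, 16, 105972276, 105910851)]
  [(43, 12), (49, -12), (127, 12), (134, -12)] = true := by
  decide +kernel

theorem t52_4_5 : chkS lk52 2 3 [(1, m52_4)] l52_5
  [(67, 1, 1, 37114881, 70407681), (98, 1, 1, 54940176, 70607376), (67, 1, 1, 37114896, 70407696), (98, 1, 1, 54940161, 70607361), (84, 1, 1, 39073296, 39073296), (84, 1, 1, 39073281, 39073281)]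
  [(84, -12), (98, 12)] = true := by
  decide +kernel

theorem t52_4_6 : chkS lk52 2 3 [(1, m52_4)] l52_6
  [(55, 1, 1, 37045761, 37967361), (97, 16, 16, 101918016, 102843216), (55, 1, 1, 37045776, 37967376), (97, 16, 16, 101917956, 102777681), (135, 1, 1, 40121601, 86259201), (135, 1, 1, 40121616, 86259216), (39, 1, 1, 51725856, 37970256), (84, 1, 1, 85210656, 40120656), (39, 1, 1, 51725826, 37970001), (84, 1, 1, 85210626, 40120401), (125, 16, 16, 39912771, 86050371), (125, 16, 16, 39912756, 85988931)]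
  [(39, -12), (55, 12), (125, 12), (135, -12)] = true := by
  decide +kernel

theorem t52_4_7 : chkS lk52 2 3 [(1, m52_4)] l52_7
  [(39, 1, 1, 20268546, 37965921), (125, 16, 16, 102827331, 102827331), (39, 1, 1, 20268576, 37966176), (125, 16, 16, 102827316, 102765891), (84, 1, 1, 22296096, 39072096), (84, 1, 1, 22296066, 39071841), (55, 1, 1, 52774416, 37971216), (135, 1, 1, 103036161, 103036161), (55, 1, 1, 52774401, 37971201), (135, 1, 1, 103036176, 103036176), (97, 16, 16, 23274816, 86066016), (97, 16, 16, 23274756, 86000481)]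
  [(39, 12), (55, -12), (84, -12), (97, 12), (135, 0)] = true := by
  decide +kernel

theorem t52_4_8 : chkS lk52 2 3 [(1, m52_4)] l52_8
  [(32, 1, 1, 52774401, 37971201), (109, 1, 1, 68571171, 70648146), (32, 1, 1, 52774416, 37971216), (109, 1, 1, 68571186, 70651986), (66, 1, 1, 68571936, 70656336), (66, 1, 1, 68571906, 70656081)]
  [(66, -12), (109, 12)] = true := by
  decide +kernel

theorem t52_4_9 : chkS lk52 2 3 [(1, m52_4)] l52_9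
  [(36, 1, 1, 2441985, 4400385), (24, 16, 16, 344625, 4395525), (36, 1, 1, 2442000, 4400400), (24, 16, 16, 344595, 4391445), (29, 16, 16, 205140, 1065765), (29, 16, 16, 205125, 82725)]
  [(24, 12), (29, -12), (36, 0)] = true := by
  decide +kernel

theorem t52_4_10 : chkS lk52 2 3 [(1, m52_4)] l52_10
  [(65, 1, 1, 70668801, 70668801), (44, 1, 1, 105063696, 103105296), (66, 1, 1, 69620496, 70657296), (50, 16, 16, 105063696, 103105296)]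
  [(44, -12), (50, 12), (65, 12), (66, -12)] = true := by
  decide +kernel

theorem t52_4_11 : chkS lk52 2 3 [(1, m52_4)] l52_11
  [(25, 16, 16, 1254720, 2179920), (21, 1, 1, 5448720, 5391120), (29, 16, 16, 5447940, 5260065), (53, 1, 1, 3490320, 4411920)]
  [(21, -12), (25, 12), (29, -12), (53, 12)] = true := by
  decide +kernel

theorem t52_4_12 : chkS lk52 2 3 [(1, m52_4)] l52_12
  [(128, 16, 16, 2164035, 2164035), (151, 16, 16, 3211860, 1069635), (137, 1, 1, 2372865, 2372865), (9, 1, 1, 1392690, 4395090)]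
  [(9, 12), (128, 12), (137, -12), (151, -12)] = true := by
  decide +kernel

theorem t52_5_5 : chkS lk52 2 3 [(1, m52_5)] l52_5
  [(140, 16, 16, 69600561, 69604611), (134, 16, 16, 52757601, 21128451), (145, 16, 16, 70649121, 69619971), (126, 16, 16, 86246961, 40113411), (126, 1, 1, 38815251, 38995476), (134, 1, 1, 36721686, 3298836)]
  [(126, -4), (134, 4), (140, 4), (145, -4)] = true := by
  decide +kernel

theorem t52_5_6 : chkS lk52 2 3 [(1, m52_5)] l52_6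
  [(88, 16, 16, 85206576, 40112976), (84, 16, 16, 51717216, 21128016), (101, 16, 16, 85210626, 40120401), (98, 16, 16, 85210626, 40120401), (124, 16, 16, 68493411, 21365586), (133, 1, 1, 37770006, 3483156), (101, 1, 1, 85149216, 40059216), (98, 1, 1, 85149216, 40059216), (88, 1, 1, 85083651, 40043601), (84, 1, 1, 51532806, 3302481), (133, 16, 16, 38077281, 21308931), (124, 1, 1, 68309046, 3544146)]
  [(84, 8), (88, 4), (98, -8), (101, -4), (124, 4), (133, -4)] = true := by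
  decide +kernel

theorem t52_5_7 : chkS lk52 2 3 [(1, m52_5)] l52_7
  [(88, 1, 1, 22169091, 38995041), (133, 16, 16, 69534561, 21374211), (101, 1, 1, 22234656, 39010656), (124, 1, 1, 21123126, 3478626), (98, 1, 1, 22234656, 39010656), (84, 1, 1, 20075526, 3298401), (101, 16, 16, 22296066, 39071841), (124, 16, 16, 21307491, 21300066), (88, 16, 16, 22292016, 39064416), (133, 1, 1, 69227286, 3548436), (84, 16, 16, 20259936, 21123936), (98, 16, 16, 22296066, 39071841)]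
  [(84, -4), (88, 4), (98, 4), (101, -4), (124, -8), (133, 8)] = true := by
  decide +kernel

theorem t52_5_8 : chkS lk52 2 3 [(1, m52_5)] l52_8
  [(73, 16, 16, 102048816, 104993616), (56, 16, 16, 102048576, 104932176), (114, 16, 16, 102048771, 104989521), (47, 1, 1, 100815156, 103814181), (47, 16, 16, 100999491, 104923941), (56, 1, 1, 101864196, 103818321)]
  [(47, -4), (56, 4), (73, 4), (114, -4)] = true := by
  decide +kernel

theorem t52_5_9 : chkS lk52 2 3 [(1, m52_5)] l52_9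
  [(75, 16, 16, 1385520, 4330320), (25, 1, 1, 151860, 3150885), (115, 16, 16, 1385475, 4326225), (24, 16, 16, 1196805, 205905), (24, 1, 1, 1319760, 1319760), (25, 16, 16, 336195, 4260645)]
  [(24, -4), (25, 4), (75, 4), (115, -4)] = true := by
  decide +kernel

theorem t52_5_10 : chkS lk52 2 3 [(1, m52_5)] l52_10
  [(88, 1, 1, 106053891, 106103841), (67, 1, 1, 72496641, 39203841), (101, 16, 16, 106180866, 106180641), (67, 16, 16, 72558096, 39207696)]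
  [(88, 12), (101, -12)] = true := by
  decide +kernel

theorem t52_5_11 : chkS lk52 2 3 [(1, m52_5)] l52_11
  [(90, 16, 16, 1385520, 4330320), (76, 1, 1, 5387265, 5387265), (26, 16, 16, 5444640, 5390640), (76, 16, 16, 5448720, 5391120)]
  [(26, -12), (90, 12)] = true := by
  decide +kernel

theorem t52_5_12 : chkS lk52 2 3 [(1, m52_5)] l52_12
  [(141, 16, 16, 2295105, 2180355), (152, 16, 16, 270675, 1311525), (149, 1, 1, 148785, 2298885), (152, 1, 1, 147765, 201765)]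
  [(141, 12), (149, -12), (152, 0)] = true := by
  decide +kernel

theorem t52_6_6 : chkS lk52 2 3 [(1, m52_6)] l52_6
  [(87, 16, 16, 86251056, 40113456), (85, 16, 16, 86251056, 40113456), (100, 16, 16, 70587936, 38162736), (97, 16, 16, 85210626, 40120401), (97, 16, 16, 70586976, 21385776), (134, 1, 1, 39863571, 86181396), (99, 16, 16, 54859296, 38101296), (96, 16, 16, 54858336, 21324336), (86, 16, 16, 38082096, 38082096), (84, 1, 1, 101860611, 102958161), (84, 16, 16, 38146896, 68494896), (127, 16, 16, 40113456, 86251056)]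
  [(84, 8), (85, 4), (86, -4), (87, 8), (96, -4), (97, -8), (99, -8), (100, 4), (127, 8), (134, -8)] = true := by
  decide +kernel

theorem t52_6_7 : chkS lk52 2 3 [(1, m52_6)] l52_7
  [(86, 16, 16, 69539376, 38147376), (84, 16, 16, 69604176, 68560176), (99, 16, 16, 70587936, 38162736), (127, 16, 16, 103028016, 103028016), (96, 16, 16, 70586976, 21385776), (84, 1, 1, 23217411, 86180961), (100, 16, 16, 54859296, 38101296), (97, 16, 16, 54858336, 21324336), (87, 16, 16, 39065136, 39065136), (134, 1, 1, 102778131, 102958356), (85, 16, 16, 39065136, 39065136), (97, 16, 16, 22296066, 39071841)]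
  [(84, -4), (85, 4), (86, 8), (87, -4), (96, -4), (97, 4), (99, 4), (100, -8), (127, -4), (134, 4)] = true := by
  decide +kernel

theorem t52_6_8 : chkS lk52 2 3 [(1, m52_6)] l52_8
  [(41, 16, 16, 103028016, 103028016), (40, 16, 16, 103093056, 104932656), (48, 16, 16, 104076576, 103043376), (110, 1, 1, 70279701, 50745876), (47, 16, 16, 104141376, 104944176), (67, 1, 1, 68313861, 50734161)]
  [(40, 8), (41, 4), (47, -8), (48, -4), (67, -4), (110, 4)] = true := by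
  decide +kernel

theorem t52_6_9 : chkS lk52 2 3 [(1, m52_6)] l52_9
  [(42, 16, 16, 2364720, 2364720), (29, 1, 1, 151860, 3150885), (28, 1, 1, 214305, 2310405), (116, 1, 1, 3166740, 3166740), (24, 1, 1, 275025, 1323525), (76, 1, 1, 1200900, 3155025)]
  [(24, -8), (28, -4), (29, 8), (42, 4), (76, -4), (116, 4)] = true := by
  decide +kernel

theorem t52_6_10 : chkS lk52 2 3 [(1, m52_6)] l52_10
  [(89, 16, 16, 103028016, 103028016), (56, 1, 1, 105002241, 103101441), (104, 16, 16, 105190176, 105193776), (40, 16, 16, 105059616, 103104816)]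
  [(40, 12), (56, -12), (89, 12), (104, -12)] = true := by
  decide +kernel

theorem t52_6_11 : chkS lk52 2 3 [(1, m52_6)] l52_11
  [(91, 16, 16, 2364720, 2364720), (25, 16, 16, 3478080, 4280880), (105, 16, 16, 4526880, 4530480), (29, 1, 1, 3232260, 3166785)]
  [(25, -12), (29, 12), (91, 12), (105, -12)] = true := by
  decide +kernel

theorem t52_6_12 : chkS lk52 2 3 [(1, m52_6)] l52_12
  [(92, 16, 16, 2299200, 2180400), (152, 16, 16, 3412560, 1331760), (139, 1, 1, 148785, 2298885), (153, 1, 1, 3166740, 3166740)]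
  [(92, 12), (139, -12), (152, -12), (153, 12)] = true := by
  decide +kernel

theorem t52_7_7 : chkS lk52 2 3 [(1, m52_7)] l52_7
  [(87, 1, 1, 38880771, 38995521), (134, 16, 16, 103023921, 103027971), (100, 1, 1, 54613506, 37052481), (97, 1, 1, 54612486, 3498561), (97, 1, 1, 22234656, 39010656), (85, 1, 1, 38880771, 38995521), (99, 1, 1, 70342146, 37113921), (127, 1, 1, 102843651, 102958401), (86, 1, 1, 69293571, 37094721), (84, 1, 1, 69296901, 50734401), (84, 16, 16, 23340336, 86250336), (96, 1, 1, 70341126, 3560001)]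
  [(84, 8), (85, -8), (86, -4), (87, 8), (96, 8), (97, -8), (99, -8), (100, 4), (127, -4), (134, 4)] = true := by
  decide +kernel

theorem t52_7_8 : chkS lk52 2 3 [(1, m52_7)] l52_8
  [(41, 1, 1, 102843651, 102958401), (67, 16, 16, 68559696, 68559696), (48, 1, 1, 103892226, 102977601), (47, 1, 1, 103895556, 103830081), (110, 16, 16, 70648401, 68571651), (40, 1, 1, 102847236, 103818561)]
  [(40, -4), (41, 4), (47, 4), (48, -4), (67, 8), (110, -8)] = true := by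
  decide +kernel

theorem t52_7_9 : chkS lk52 2 3 [(1, m52_7)] l52_9
  [(42, 1, 1, 2180355, 2295105), (76, 16, 16, 1385280, 4268880), (28, 16, 16, 275730, 2371605), (24, 16, 16, 213525, 213525), (116, 16, 16, 3473985, 4280835), (29, 16, 16, 336195, 4260645)]
  [(24, 4), (28, -4), (29, -4), (42, 4), (76, 8), (116, -8)] = true := by
  decide +kernel

theorem t52_7_10 : chkS lk52 2 3 [(1, m52_7)] l52_10
  [(88, 1, 1, 105988611, 106103361), (40, 1, 1, 104936706, 103100481), (103, 1, 1, 103896066, 103960641), (56, 16, 16, 105063696, 103105296)]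
  [(40, -12), (56, 12), (88, 12), (103, -12)] = true := by
  decide +kernel

theorem t52_7_11 : chkS lk52 2 3 [(1, m52_7)] l52_11
  [(90, 1, 1, 4280835, 3473985), (29, 16, 16, 3478080, 4280880), (27, 16, 16, 5509920, 5513520), (25, 1, 1, 3232260, 3166785)]
  [(25, 12), (27, -12), (29, -12), (90, 12)] = true := by
  decide +kernel

theorem t52_7_12 : chkS lk52 2 3 [(1, m52_7)] l52_12
  [(136, 16, 16, 2360625, 2364675), (153, 16, 16, 3473985, 4280835), (130, 1, 1, 2180355, 2295105), (152, 1, 1, 3228165, 217665)]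
  [(130, -12), (136, 12), (152, 12), (153, -12)] = true := by
  decide +kernel

theorem t52_8_8 : chkS lk52 2 3 [(1, m52_8)] l52_8
  [(77, 16, 16, 103028016, 103028016), (69, 16, 16, 69604656, 69604656), (117, 16, 16, 103028016, 103028016), (112, 1, 1, 104071701, 100946451), (112, 16, 16, 104071761, 101995011), (69, 1, 1, 69604611, 69600561)]
  [(69, 4), (77, 4), (112, -4), (117, -4)] = true := by
  decide +kernel

theorem t52_8_9 : chkS lk52 2 3 [(1, m52_8)] l52_9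
  [(78, 16, 16, 2364720, 2364720), (30, 1, 1, 336180, 4199205), (118, 16, 16, 2364720, 2364720), (28, 1, 1, 2429700, 4203825), (28, 16, 16, 2429760, 4269360), (30, 16, 16, 336195, 4260645)]
  [(28, -4), (30, 4), (78, 4), (118, -4)] = true := by
  decide +kernel

theorem t52_8_10 : chkS lk52 2 3 [(1, m52_8)] l52_10
  [(70, 16, 16, 69604656, 69604656), (33, 1, 1, 55972866, 72507441), (112, 16, 16, 106172976, 106172976), (33, 16, 16, 55972896, 72507696)]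
  [(70, 12), (112, -12)] = true := by
  decide +kernel

theorem t52_8_11 : chkS lk52 2 3 [(1, m52_8)] l52_11
  [(42, 16, 16, 1385520, 4330320), (36, 1, 1, 5444610, 5390385), (28, 16, 16, 4522785, 4530435), (36, 16, 16, 5444640, 5390640)]
  [(28, -12), (42, 12)] = true := by
  decide +kernel

theorem t52_8_12 : chkS lk52 2 3 [(1, m52_8)] l52_12
  [(81, 16, 16, 2364720, 2364720), (150, 16, 16, 3478080, 4280880), (121, 1, 1, 2364675, 2360625), (150, 1, 1, 3478020, 4215345)]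
  [(81, 12), (121, -12), (150, 0)] = true := by
  decide +kernel

theorem t52_9_9 : chkS lk52 2 3 [(1, m52_9)] l52_9
  [(79, 16, 16, 136240, 136240), (31, 1, 1, 131860, 9235), (119, 16, 16, 136240, 136240), (6, 1, 1, 135940, 9265), (6, 16, 16, 136000, 74800), (31, 16, 16, 131905, 74755)]
  [(6, -4), (31, 4), (79, 4), (119, -4)] = true := by
  decide +kernel

theorem t52_9_10 : chkS lk52 2 3 [(1, m52_9)] l52_10
  [(42, 1, 1, 5513475, 5505825), (36, 1, 1, 3413250, 2379825), (28, 1, 1, 5440530, 5390355), (36, 16, 16, 3413280, 2380080)]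
  [(28, -12), (42, 12)] = true := by
  decide +kernel

theorem t52_9_11 : chkS lk52 2 3 [(1, m52_9)] l52_11
  [(5, 16, 16, 262945, 270595), (37, 1, 1, 267010, 270385), (6, 16, 16, 262945, 270595), (37, 16, 16, 267040, 270640)]
  [(5, 12), (6, -12), (37, 0)] = true := by
  decide +kernel

theorem t52_9_12 : chkS lk52 2 3 [(1, m52_9)] l52_12
  [(82, 16, 16, 136240, 136240), (131, 16, 16, 12610, 77860), (122, 1, 1, 136195, 132145), (131, 1, 1, 12580, 12580)]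
  [(82, 12), (122, -12), (131, 0)] = true := by
  decide +kernel

theorem t52_10_10 : chkS lk52 2 3 [(1, m52_10)] l52_10
  [(62, 1, 1, 106180866, 106180641), (69, 1, 1, 70668546, 70668321), (94, 1, 1, 70668546, 70668321), (70, 1, 1, 69619731, 70649106)]
  [(62, 12), (69, -12), (70, 12), (94, -12)] = true := by
  decide +kernel

theorem t52_10_11 : chkS lk52 2 3 [(1, m52_10)] l52_11
  [(18, 1, 1, 4534530, 4534305), (30, 16, 16, 3478080, 4280880), (54, 1, 1, 3490050, 4411425), (42, 1, 1, 1392675, 4391250)]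
  [(18, 12), (30, -12), (42, 12), (54, -12)] = true := by
  decide +kernel

theorem t52_10_12 : chkS lk52 2 3 [(1, m52_10)] l52_12
  [(142, 16, 16, 2425665, 4269315), (150, 16, 16, 336195, 4260645), (13, 1, 1, 1393440, 4399440), (144, 1, 1, 2437380, 4207905)]
  [(13, -12), (142, 12), (144, 12), (150, -12)] = true := by
  decide +kernel

theorem t52_11_11 : chkS lk52 2 3 [(1, m52_11)] l52_11
  [(0, 1, 1, 274690, 274465), (31, 16, 16, 201280, 82480), (1, 16, 16, 136240, 136240), (5, 1, 1, 274690, 274465)]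
  [(0, 12), (1, -12), (5, 12), (31, -12)] = true := by
  decide +kernel

theorem t52_11_12 : chkS lk52 2 3 [(1, m52_11)] l52_12
  [(17, 16, 16, 74560, 74560), (131, 16, 16, 136000, 74800), (22, 1, 1, 82720, 205120), (138, 1, 1, 147715, 197665)]
  [(17, 12), (22, -12), (131, -12), (138, 12)] = true := by
  decide +kernel

theorem t52_12_12 : chkS lk52 2 3 [(1, m52_12)] l52_12
  [(155, 16, 16, 267040, 270640), (156, 16, 16, 266800, 266800), (12, 16, 16, 136000, 74800), (154, 16, 16, 132145, 136195)]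
  [(12, -12), (154, 12), (155, 12), (156, -12)] = true := by
  decide +kernel

section

variable {κ ι : Type*} [Fintype κ] [Fintype ι] [Inhabited κ] [Inhabited ι]

noncomputable def F52_0 (E : Env κ ι) : (Fin 2 → κ) → (Fin 3 → ι) → ℝ := op2 (P12 κ) (P2 ι) (fB E 2 3 m52_0)

noncomputable def F52_1 (E : Env κ ι) : (Fin 2 → κ) → (Fin 3 → ι) → ℝ := op2 (P12 κ) (P2 ι) (fB E 2 3 m52_1)

noncomputable def F52_2 (E : Env κ ι) : (Fin 2 → κ) → (Fin 3 → ι) → ℝ := op2 (P12 κ) (P2 ι) (fB E 2 3 m52_2)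

noncomputable def F52_3 (E : Env κ ι) : (Fin 2 → κ) → (Fin 3 → ι) → ℝ := op2 (P12 κ) (P2 ι) (fB E 2 3 m52_3)

noncomputable def F52_4 (E : Env κ ι) : (Fin 2 → κ) → (Fin 3 → ι) → ℝ := op2 (P12 κ) (P2 ι) (fB E 2 3 m52_4)

noncomputable def F52_5 (E : Env κ ι) : (Fin 2 → κ) → (Fin 3 → ι) → ℝ := op2 (P12 κ) (P2 ι) (fB E 2 3 m52_5)

noncomputable def F52_6 (E : Env κ ι) : (Fin 2 → κ) → (Fin 3 → ι) → ℝ := op2 (P12 κ) (P2 ι) (fB E 2 3 m52_6)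

noncomputable def F52_7 (E : Env κ ι) : (Fin 2 → κ) → (Fin 3 → ι) → ℝ := op2 (P12 κ) (P2 ι) (fB E 2 3 m52_7)

noncomputable def F52_8 (E : Env κ ι) : (Fin 2 → κ) → (Fin 3 → ι) → ℝ := op2 (P12 κ) (P2 ι) (fB E 2 3 m52_8)

noncomputable def F52_9 (E : Env κ ι) : (Fin 2 → κ) → (Fin 3 → ι) → ℝ := op2 (P12 κ) (P2 ι) (fB E 2 3 m52_9)

noncomputable def F52_10 (E : Env κ ι) : (Fin 2 → κ) → (Fin 3 → ι) → ℝ := op2 (P12 κ) (P2 ι) (fB E 2 3 m52_10)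

noncomputable def F52_11 (E : Env κ ι) : (Fin 2 → κ) → (Fin 3 → ι) → ℝ := op2 (P12 κ) (P2 ι) (fB E 2 3 m52_11)

noncomputable def F52_12 (E : Env κ ι) : (Fin 2 → κ) → (Fin 3 → ι) → ℝ := op2 (P12 κ) (P2 ι) (fB E 2 3 m52_12)

def r52_0_0 : List (ℕ × ℤ) := [(68, 8), (69, 4), (100, -8), (101, -8), (102, 8), (103, 8), (111, -8), (112, -4), (145, 4), (146, -4)]

theorem h52_0_0 (E : Env κ ι) : ip (F52_0 E) (F52_0 E) = dotS (ek E lk52) r52_0_0 :=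
  op_entryZ E lk52 2 3 _ _ _ _ (pg12 κ) (pg2 ι) m52_0 m52_0 l52_0 z52_0 w52_0 x52_0 (by decide) _ (chkS_sound E lk52 2 3 _ _ _ _ t52_0_0)

def r52_0_1 : List (ℕ × ℤ) := [(48, -12), (59, 12), (99, 0)]

theorem h52_0_1 (E : Env κ ι) : ip (F52_0 E) (F52_1 E) = dotS (ek E lk52) r52_0_1 :=
  op_entryZ E lk52 2 3 _ _ _ _ (pg12 κ) (pg2 ι) m52_0 m52_1 l52_1 z52_1 w52_1 x52_1 (by decide) _ (chkS_sound E lk52 2 3 _ _ _ _ t52_0_1)

def r52_0_2 : List (ℕ × ℤ) := [(68, 4), (69, 8), (100, -4), (101, -4), (102, 4), (103, 4), (111, -4), (112, -8), (145, -4), (146, 4)]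

theorem h52_0_2 (E : Env κ ι) : ip (F52_0 E) (F52_2 E) = dotS (ek E lk52) r52_0_2 :=
  op_entryZ E lk52 2 3 _ _ _ _ (pg12 κ) (pg2 ι) m52_0 m52_2 l52_2 z52_2 w52_2 x52_2 (by decide) _ (chkS_sound E lk52 2 3 _ _ _ _ t52_0_2)

def r52_0_3 : List (ℕ × ℤ) := [(10, 12), (63, 12), (95, -12), (107, -12)]

theorem h52_0_3 (E : Env κ ι) : ip (F52_0 E) (F52_3 E) = dotS (ek E lk52) r52_0_3 :=
  op_entryZ E lk52 2 3 _ _ _ _ (pg12 κ) (pg2 ι) m52_0 m52_3 l52_3 z52_3 w52_3 x52_3 (by decide) _ (chkS_sound E lk52 2 3 _ _ _ _ t52_0_3)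

def r52_0_4 : List (ℕ × ℤ) := [(67, 12), (110, -12), (126, -12), (127, 12)]

theorem h52_0_4 (E : Env κ ι) : ip (F52_0 E) (F52_4 E) = dotS (ek E lk52) r52_0_4 :=
  op_entryZ E lk52 2 3 _ _ _ _ (pg12 κ) (pg2 ι) m52_0 m52_4 l52_4 z52_4 w52_4 x52_4 (by decide) _ (chkS_sound E lk52 2 3 _ _ _ _ t52_0_4)

def r52_0_5 : List (ℕ × ℤ) := [(64, -4), (65, -8), (97, 4), (98, -4), (108, 4), (109, 8)]

theorem h52_0_5 (E : Env κ ι) : ip (F52_0 E) (F52_5 E) = dotS (ek E lk52) r52_0_5 :=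
  op_entryZ E lk52 2 3 _ _ _ _ (pg12 κ) (pg2 ι) m52_0 m52_5 l52_5 z52_5 w52_5 x52_5 (by decide) _ (chkS_sound E lk52 2 3 _ _ _ _ t52_0_5)

def r52_0_6 : List (ℕ × ℤ) := [(39, -4), (40, -8), (46, 4), (47, 8), (66, 4), (71, -4), (109, -4), (113, 4), (126, 4), (127, -4)]

theorem h52_0_6 (E : Env κ ι) : ip (F52_0 E) (F52_6 E) = dotS (ek E lk52) r52_0_6 :=
  op_entryZ E lk52 2 3 _ _ _ _ (pg12 κ) (pg2 ι) m52_0 m52_6 l52_6 z52_6 w52_6 x52_6 (by decide) _ (chkS_sound E lk52 2 3 _ _ _ _ t52_0_6)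

def r52_0_7 : List (ℕ × ℤ) := [(39, -4), (40, 4), (46, 4), (47, -4), (66, -8), (71, -4), (109, 8), (113, 4), (126, -8), (127, 8)]

theorem h52_0_7 (E : Env κ ι) : ip (F52_0 E) (F52_7 E) = dotS (ek E lk52) r52_0_7 :=
  op_entryZ E lk52 2 3 _ _ _ _ (pg12 κ) (pg2 ι) m52_0 m52_7 l52_7 z52_7 w52_7 x52_7 (by decide) _ (chkS_sound E lk52 2 3 _ _ _ _ t52_0_7)

def r52_0_8 : List (ℕ × ℤ) := [(48, 8), (59, -8), (72, -4), (101, -4), (103, 4), (114, 4)]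

theorem h52_0_8 (E : Env κ ι) : ip (F52_0 E) (F52_8 E) = dotS (ek E lk52) r52_0_8 :=
  op_entryZ E lk52 2 3 _ _ _ _ (pg12 κ) (pg2 ι) m52_0 m52_8 l52_8 z52_8 w52_8 x52_8 (by decide) _ (chkS_sound E lk52 2 3 _ _ _ _ t52_0_8)

def r52_0_9 : List (ℕ × ℤ) := [(26, -4), (27, 4), (28, 8), (30, -8), (74, -4), (115, 4)]

theorem h52_0_9 (E : Env κ ι) : ip (F52_0 E) (F52_9 E) = dotS (ek E lk52) r52_0_9 :=
  op_entryZ E lk52 2 3 _ _ _ _ (pg12 κ) (pg2 ι) m52_0 m52_9 l52_9 z52_9 w52_9 x52_9 (by decide) _ (chkS_sound E lk52 2 3 _ _ _ _ t52_0_9)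

def r52_0_10 : List (ℕ × ℤ) := [(66, -12), (67, -12), (109, 12), (110, 12)]

theorem h52_0_10 (E : Env κ ι) : ip (F52_0 E) (F52_10 E) = dotS (ek E lk52) r52_0_10 :=
  op_entryZ E lk52 2 3 _ _ _ _ (pg12 κ) (pg2 ι) m52_0 m52_10 l52_10 z52_10 w52_10 x52_10 (by decide) _ (chkS_sound E lk52 2 3 _ _ _ _ t52_0_10)

def r52_0_11 : List (ℕ × ℤ) := [(24, 12), (29, -12), (76, -12), (116, 12)]

theorem h52_0_11 (E : Env κ ι) : ip (F52_0 E) (F52_11 E) = dotS (ek E lk52) r52_0_11 :=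
  op_entryZ E lk52 2 3 _ _ _ _ (pg12 κ) (pg2 ι) m52_0 m52_11 l52_11 z52_11 w52_11 x52_11 (by decide) _ (chkS_sound E lk52 2 3 _ _ _ _ t52_0_11)

def r52_0_12 : List (ℕ × ℤ) := [(80, -12), (120, 12), (129, -12), (130, 12)]

theorem h52_0_12 (E : Env κ ι) : ip (F52_0 E) (F52_12 E) = dotS (ek E lk52) r52_0_12 :=
  op_entryZ E lk52 2 3 _ _ _ _ (pg12 κ) (pg2 ι) m52_0 m52_12 l52_12 z52_12 w52_12 x52_12 (by decide) _ (chkS_sound E lk52 2 3 _ _ _ _ t52_0_12)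

def r52_1_1 : List (ℕ × ℤ) := [(16, -12), (58, 12), (100, -12), (102, 12)]

theorem h52_1_1 (E : Env κ ι) : ip (F52_1 E) (F52_1 E) = dotS (ek E lk52) r52_1_1 :=
  op_entryZ E lk52 2 3 _ _ _ _ (pg12 κ) (pg2 ι) m52_1 m52_1 l52_1 z52_1 w52_1 x52_1 (by decide) _ (chkS_sound E lk52 2 3 _ _ _ _ t52_1_1)

def r52_1_2 : List (ℕ × ℤ) := [(48, -12), (59, 12), (101, -12), (103, 12)]

theorem h52_1_2 (E : Env κ ι) : ip (F52_1 E) (F52_2 E) = dotS (ek E lk52) r52_1_2 :=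
  op_entryZ E lk52 2 3 _ _ _ _ (pg12 κ) (pg2 ι) m52_1 m52_2 l52_2 z52_2 w52_2 x52_2 (by decide) _ (chkS_sound E lk52 2 3 _ _ _ _ t52_1_2)

def r52_1_3 : List (ℕ × ℤ) := [(15, -12), (57, 12)]

theorem h52_1_3 (E : Env κ ι) : ip (F52_1 E) (F52_3 E) = dotS (ek E lk52) r52_1_3 :=
  op_entryZ E lk52 2 3 _ _ _ _ (pg12 κ) (pg2 ι) m52_1 m52_3 l52_3 z52_3 w52_3 x52_3 (by decide) _ (chkS_sound E lk52 2 3 _ _ _ _ t52_1_3)

def r52_1_4 : List (ℕ × ℤ) := [(10, 12), (46, -12), (55, 12), (95, -12)]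

theorem h52_1_4 (E : Env κ ι) : ip (F52_1 E) (F52_4 E) = dotS (ek E lk52) r52_1_4 :=
  op_entryZ E lk52 2 3 _ _ _ _ (pg12 κ) (pg2 ι) m52_1 m52_4 l52_4 z52_4 w52_4 x52_4 (by decide) _ (chkS_sound E lk52 2 3 _ _ _ _ t52_1_4)

def r52_1_5 : List (ℕ × ℤ) := [(47, 12), (56, -12), (96, 0)]

theorem h52_1_5 (E : Env κ ι) : ip (F52_1 E) (F52_5 E) = dotS (ek E lk52) r52_1_5 :=
  op_entryZ E lk52 2 3 _ _ _ _ (pg12 κ) (pg2 ι) m52_1 m52_5 l52_5 z52_5 w52_5 x52_5 (by decide) _ (chkS_sound E lk52 2 3 _ _ _ _ t52_1_5)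

def r52_1_6 : List (ℕ × ℤ) := [(38, -12), (45, 12), (97, -12), (98, 12)]

theorem h52_1_6 (E : Env κ ι) : ip (F52_1 E) (F52_6 E) = dotS (ek E lk52) r52_1_6 :=
  op_entryZ E lk52 2 3 _ _ _ _ (pg12 κ) (pg2 ι) m52_1 m52_6 l52_6 z52_6 w52_6 x52_6 (by decide) _ (chkS_sound E lk52 2 3 _ _ _ _ t52_1_6)

def r52_1_7 : List (ℕ × ℤ) := [(46, 12), (55, -12), (97, 12), (98, -12)]

theorem h52_1_7 (E : Env κ ι) : ip (F52_1 E) (F52_7 E) = dotS (ek E lk52) r52_1_7 :=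
  op_entryZ E lk52 2 3 _ _ _ _ (pg12 κ) (pg2 ι) m52_1 m52_7 l52_7 z52_7 w52_7 x52_7 (by decide) _ (chkS_sound E lk52 2 3 _ _ _ _ t52_1_7)

def r52_1_8 : List (ℕ × ℤ) := [(48, 12), (59, -12), (104, 0)]

theorem h52_1_8 (E : Env κ ι) : ip (F52_1 E) (F52_8 E) = dotS (ek E lk52) r52_1_8 :=
  op_entryZ E lk52 2 3 _ _ _ _ (pg12 κ) (pg2 ι) m52_1 m52_8 l52_8 z52_8 w52_8 x52_8 (by decide) _ (chkS_sound E lk52 2 3 _ _ _ _ t52_1_8)

def r52_1_9 : List (ℕ × ℤ) := [(28, 12), (30, -12), (105, 0)]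

theorem h52_1_9 (E : Env κ ι) : ip (F52_1 E) (F52_9 E) = dotS (ek E lk52) r52_1_9 :=
  op_entryZ E lk52 2 3 _ _ _ _ (pg12 κ) (pg2 ι) m52_1 m52_9 l52_9 z52_9 w52_9 x52_9 (by decide) _ (chkS_sound E lk52 2 3 _ _ _ _ t52_1_9)

def r52_1_10 : List (ℕ × ℤ) := [(15, 12), (47, 12), (56, -12), (57, -12)]

theorem h52_1_10 (E : Env κ ι) : ip (F52_1 E) (F52_10 E) = dotS (ek E lk52) r52_1_10 :=
  op_entryZ E lk52 2 3 _ _ _ _ (pg12 κ) (pg2 ι) m52_1 m52_10 l52_10 z52_10 w52_10 x52_10 (by decide) _ (chkS_sound E lk52 2 3 _ _ _ _ t52_1_10)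

def r52_1_11 : List (ℕ × ℤ) := [(19, -12), (23, 12), (24, 12), (25, -12)]

theorem h52_1_11 (E : Env κ ι) : ip (F52_1 E) (F52_11 E) = dotS (ek E lk52) r52_1_11 :=
  op_entryZ E lk52 2 3 _ _ _ _ (pg12 κ) (pg2 ι) m52_1 m52_11 l52_11 z52_11 w52_11 x52_11 (by decide) _ (chkS_sound E lk52 2 3 _ _ _ _ t52_1_11)

def r52_1_12 : List (ℕ × ℤ) := [(14, 12), (60, -12), (106, -12), (139, 12)]

theorem h52_1_12 (E : Env κ ι) : ip (F52_1 E) (F52_12 E) = dotS (ek E lk52) r52_1_12 :=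
  op_entryZ E lk52 2 3 _ _ _ _ (pg12 κ) (pg2 ι) m52_1 m52_12 l52_12 z52_12 w52_12 x52_12 (by decide) _ (chkS_sound E lk52 2 3 _ _ _ _ t52_1_12)

def r52_2_2 : List (ℕ × ℤ) := [(68, 8), (69, 4), (100, 4), (101, -8), (102, -4), (103, 8), (111, -8), (112, -4), (145, -8), (146, 8)]

theorem h52_2_2 (E : Env κ ι) : ip (F52_2 E) (F52_2 E) = dotS (ek E lk52) r52_2_2 :=
  op_entryZ E lk52 2 3 _ _ _ _ (pg12 κ) (pg2 ι) m52_2 m52_2 l52_2 z52_2 w52_2 x52_2 (by decide) _ (chkS_sound E lk52 2 3 _ _ _ _ t52_2_2)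

def r52_2_3 : List (ℕ × ℤ) := [(10, 12), (11, 12), (15, -12), (95, -12)]

theorem h52_2_3 (E : Env κ ι) : ip (F52_2 E) (F52_3 E) = dotS (ek E lk52) r52_2_3 :=
  op_entryZ E lk52 2 3 _ _ _ _ (pg12 κ) (pg2 ι) m52_2 m52_3 l52_3 z52_3 w52_3 x52_3 (by decide) _ (chkS_sound E lk52 2 3 _ _ _ _ t52_2_3)

def r52_2_4 : List (ℕ × ℤ) := [(39, 12), (46, -12), (126, -12), (127, 12)]

theorem h52_2_4 (E : Env κ ι) : ip (F52_2 E) (F52_4 E) = dotS (ek E lk52) r52_2_4 :=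
  op_entryZ E lk52 2 3 _ _ _ _ (pg12 κ) (pg2 ι) m52_2 m52_4 l52_4 z52_4 w52_4 x52_4 (by decide) _ (chkS_sound E lk52 2 3 _ _ _ _ t52_2_4)

def r52_2_5 : List (ℕ × ℤ) := [(64, -8), (65, -4), (97, -4), (98, 4), (108, 8), (109, 4)]

theorem h52_2_5 (E : Env κ ι) : ip (F52_2 E) (F52_5 E) = dotS (ek E lk52) r52_2_5 :=
  op_entryZ E lk52 2 3 _ _ _ _ (pg12 κ) (pg2 ι) m52_2 m52_5 l52_5 z52_5 w52_5 x52_5 (by decide) _ (chkS_sound E lk52 2 3 _ _ _ _ t52_2_5)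

def r52_2_6 : List (ℕ × ℤ) := [(39, -8), (40, -4), (46, 8), (47, 4), (66, -4), (71, 4), (109, 4), (113, -4), (126, 8), (127, -8)]

theorem h52_2_6 (E : Env κ ι) : ip (F52_2 E) (F52_6 E) = dotS (ek E lk52) r52_2_6 :=
  op_entryZ E lk52 2 3 _ _ _ _ (pg12 κ) (pg2 ι) m52_2 m52_6 l52_6 z52_6 w52_6 x52_6 (by decide) _ (chkS_sound E lk52 2 3 _ _ _ _ t52_2_6)

def r52_2_7 : List (ℕ × ℤ) := [(39, 4), (40, -4), (46, -4), (47, 4), (66, -4), (71, -8), (109, 4), (113, 8), (126, -4), (127, 4)]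

theorem h52_2_7 (E : Env κ ι) : ip (F52_2 E) (F52_7 E) = dotS (ek E lk52) r52_2_7 :=
  op_entryZ E lk52 2 3 _ _ _ _ (pg12 κ) (pg2 ι) m52_2 m52_7 l52_7 z52_7 w52_7 x52_7 (by decide) _ (chkS_sound E lk52 2 3 _ _ _ _ t52_2_7)

def r52_2_8 : List (ℕ × ℤ) := [(48, 4), (59, -4), (72, -8), (101, 4), (103, -4), (114, 8)]

theorem h52_2_8 (E : Env κ ι) : ip (F52_2 E) (F52_8 E) = dotS (ek E lk52) r52_2_8 :=
  op_entryZ E lk52 2 3 _ _ _ _ (pg12 κ) (pg2 ι) m52_2 m52_8 l52_8 z52_8 w52_8 x52_8 (by decide) _ (chkS_sound E lk52 2 3 _ _ _ _ t52_2_8)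

def r52_2_9 : List (ℕ × ℤ) := [(26, 4), (27, -4), (28, 4), (30, -4), (74, -8), (115, 8)]

theorem h52_2_9 (E : Env κ ι) : ip (F52_2 E) (F52_9 E) = dotS (ek E lk52) r52_2_9 :=
  op_entryZ E lk52 2 3 _ _ _ _ (pg12 κ) (pg2 ι) m52_2 m52_9 l52_9 z52_9 w52_9 x52_9 (by decide) _ (chkS_sound E lk52 2 3 _ _ _ _ t52_2_9)

def r52_2_10 : List (ℕ × ℤ) := [(40, -12), (47, 12), (66, -12), (109, 12)]

theorem h52_2_10 (E : Env κ ι) : ip (F52_2 E) (F52_10 E) = dotS (ek E lk52) r52_2_10 :=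
  op_entryZ E lk52 2 3 _ _ _ _ (pg12 κ) (pg2 ι) m52_2 m52_10 l52_10 z52_10 w52_10 x52_10 (by decide) _ (chkS_sound E lk52 2 3 _ _ _ _ t52_2_10)

def r52_2_11 : List (ℕ × ℤ) := [(24, 24), (29, -24)]

theorem h52_2_11 (E : Env κ ι) : ip (F52_2 E) (F52_11 E) = dotS (ek E lk52) r52_2_11 :=
  op_entryZ E lk52 2 3 _ _ _ _ (pg12 κ) (pg2 ι) m52_2 m52_11 l52_11 z52_11 w52_11 x52_11 (by decide) _ (chkS_sound E lk52 2 3 _ _ _ _ t52_2_11)

def r52_2_12 : List (ℕ × ℤ) := [(80, -12), (120, 12), (147, -12), (149, 12)]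

theorem h52_2_12 (E : Env κ ι) : ip (F52_2 E) (F52_12 E) = dotS (ek E lk52) r52_2_12 :=
  op_entryZ E lk52 2 3 _ _ _ _ (pg12 κ) (pg2 ι) m52_2 m52_12 l52_12 z52_12 w52_12 x52_12 (by decide) _ (chkS_sound E lk52 2 3 _ _ _ _ t52_2_12)

def r52_3_3 : List (ℕ × ℤ) := [(2, 12), (61, 12), (83, -12), (93, -12)]

theorem h52_3_3 (E : Env κ ι) : ip (F52_3 E) (F52_3 E) = dotS (ek E lk52) r52_3_3 :=
  op_entryZ E lk52 2 3 _ _ _ _ (pg12 κ) (pg2 ι) m52_3 m52_3 l52_3 z52_3 w52_3 x52_3 (by decide) _ (chkS_sound E lk52 2 3 _ _ _ _ t52_3_3)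

def r52_3_4 : List (ℕ × ℤ) := [(4, 12), (8, -12), (10, 12), (51, -12)]

theorem h52_3_4 (E : Env κ ι) : ip (F52_3 E) (F52_4 E) = dotS (ek E lk52) r52_3_4 :=
  op_entryZ E lk52 2 3 _ _ _ _ (pg12 κ) (pg2 ι) m52_3 m52_4 l52_4 z52_4 w52_4 x52_4 (by decide) _ (chkS_sound E lk52 2 3 _ _ _ _ t52_3_4)

def r52_3_5 : List (ℕ × ℤ) := [(8, -12), (95, 12)]

theorem h52_3_5 (E : Env κ ι) : ip (F52_3 E) (F52_5 E) = dotS (ek E lk52) r52_3_5 :=
  op_entryZ E lk52 2 3 _ _ _ _ (pg12 κ) (pg2 ι) m52_3 m52_5 l52_5 z52_5 w52_5 x52_5 (by decide) _ (chkS_sound E lk52 2 3 _ _ _ _ t52_3_5)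

def r52_3_6 : List (ℕ × ℤ) := [(11, -12), (57, 12), (123, 12), (132, -12)]

theorem h52_3_6 (E : Env κ ι) : ip (F52_3 E) (F52_6 E) = dotS (ek E lk52) r52_3_6 :=
  op_entryZ E lk52 2 3 _ _ _ _ (pg12 κ) (pg2 ι) m52_3 m52_6 l52_6 z52_6 w52_6 x52_6 (by decide) _ (chkS_sound E lk52 2 3 _ _ _ _ t52_3_6)

def r52_3_7 : List (ℕ × ℤ) := [(8, -12), (10, 12), (11, 12), (57, -12), (132, 0)]

theorem h52_3_7 (E : Env κ ι) : ip (F52_3 E) (F52_7 E) = dotS (ek E lk52) r52_3_7 :=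
  op_entryZ E lk52 2 3 _ _ _ _ (pg12 κ) (pg2 ι) m52_3 m52_7 l52_7 z52_7 w52_7 x52_7 (by decide) _ (chkS_sound E lk52 2 3 _ _ _ _ t52_3_7)

def r52_3_8 : List (ℕ × ℤ) := [(15, 12), (57, -12)]

theorem h52_3_8 (E : Env κ ι) : ip (F52_3 E) (F52_8 E) = dotS (ek E lk52) r52_3_8 :=
  op_entryZ E lk52 2 3 _ _ _ _ (pg12 κ) (pg2 ι) m52_3 m52_8 l52_8 z52_8 w52_8 x52_8 (by decide) _ (chkS_sound E lk52 2 3 _ _ _ _ t52_3_8)

def r52_3_9 : List (ℕ × ℤ) := [(19, -12), (23, 12), (35, 0)]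

theorem h52_3_9 (E : Env κ ι) : ip (F52_3 E) (F52_9 E) = dotS (ek E lk52) r52_3_9 :=
  op_entryZ E lk52 2 3 _ _ _ _ (pg12 κ) (pg2 ι) m52_3 m52_9 l52_9 z52_9 w52_9 x52_9 (by decide) _ (chkS_sound E lk52 2 3 _ _ _ _ t52_3_9)

def r52_3_10 : List (ℕ × ℤ) := [(4, -12), (11, 12), (51, 12), (57, -12)]

theorem h52_3_10 (E : Env κ ι) : ip (F52_3 E) (F52_10 E) = dotS (ek E lk52) r52_3_10 :=
  op_entryZ E lk52 2 3 _ _ _ _ (pg12 κ) (pg2 ι) m52_3 m52_10 l52_10 z52_10 w52_10 x52_10 (by decide) _ (chkS_sound E lk52 2 3 _ _ _ _ t52_3_10)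

def r52_3_11 : List (ℕ × ℤ) := [(20, -12), (52, 12)]

theorem h52_3_11 (E : Env κ ι) : ip (F52_3 E) (F52_11 E) = dotS (ek E lk52) r52_3_11 :=
  op_entryZ E lk52 2 3 _ _ _ _ (pg12 κ) (pg2 ι) m52_3 m52_11 l52_11 z52_11 w52_11 x52_11 (by decide) _ (chkS_sound E lk52 2 3 _ _ _ _ t52_3_11)

def r52_3_12 : List (ℕ × ℤ) := [(3, -12), (7, 12), (143, -12), (148, 12)]

theorem h52_3_12 (E : Env κ ι) : ip (F52_3 E) (F52_12 E) = dotS (ek E lk52) r52_3_12 :=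
  op_entryZ E lk52 2 3 _ _ _ _ (pg12 κ) (pg2 ι) m52_3 m52_12 l52_12 z52_12 w52_12 x52_12 (by decide) _ (chkS_sound E lk52 2 3 _ _ _ _ t52_3_12)

def r52_4_4 : List (ℕ × ℤ) := [(43, 12), (49, -12), (127, 12), (134, -12)]

theorem h52_4_4 (E : Env κ ι) : ip (F52_4 E) (F52_4 E) = dotS (ek E lk52) r52_4_4 :=
  op_entryZ E lk52 2 3 _ _ _ _ (pg12 κ) (pg2 ι) m52_4 m52_4 l52_4 z52_4 w52_4 x52_4 (by decide) _ (chkS_sound E lk52 2 3 _ _ _ _ t52_4_4)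

def r52_4_5 : List (ℕ × ℤ) := [(84, -12), (98, 12)]

theorem h52_4_5 (E : Env κ ι) : ip (F52_4 E) (F52_5 E) = dotS (ek E lk52) r52_4_5 :=
  op_entryZ E lk52 2 3 _ _ _ _ (pg12 κ) (pg2 ι) m52_4 m52_5 l52_5 z52_5 w52_5 x52_5 (by decide) _ (chkS_sound E lk52 2 3 _ _ _ _ t52_4_5)

def r52_4_6 : List (ℕ × ℤ) := [(39, -12), (55, 12), (125, 12), (135, -12)]

theorem h52_4_6 (E : Env κ ι) : ip (F52_4 E) (F52_6 E) = dotS (ek E lk52) r52_4_6 :=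
  op_entryZ E lk52 2 3 _ _ _ _ (pg12 κ) (pg2 ι) m52_4 m52_6 l52_6 z52_6 w52_6 x52_6 (by decide) _ (chkS_sound E lk52 2 3 _ _ _ _ t52_4_6)

def r52_4_7 : List (ℕ × ℤ) := [(39, 12), (55, -12), (84, -12), (97, 12), (135, 0)]

theorem h52_4_7 (E : Env κ ι) : ip (F52_4 E) (F52_7 E) = dotS (ek E lk52) r52_4_7 :=
  op_entryZ E lk52 2 3 _ _ _ _ (pg12 κ) (pg2 ι) m52_4 m52_7 l52_7 z52_7 w52_7 x52_7 (by decide) _ (chkS_sound E lk52 2 3 _ _ _ _ t52_4_7)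

def r52_4_8 : List (ℕ × ℤ) := [(66, -12), (109, 12)]

theorem h52_4_8 (E : Env κ ι) : ip (F52_4 E) (F52_8 E) = dotS (ek E lk52) r52_4_8 :=
  op_entryZ E lk52 2 3 _ _ _ _ (pg12 κ) (pg2 ι) m52_4 m52_8 l52_8 z52_8 w52_8 x52_8 (by decide) _ (chkS_sound E lk52 2 3 _ _ _ _ t52_4_8)

def r52_4_9 : List (ℕ × ℤ) := [(24, 12), (29, -12), (36, 0)]

theorem h52_4_9 (E : Env κ ι) : ip (F52_4 E) (F52_9 E) = dotS (ek E lk52) r52_4_9 :=
  op_entryZ E lk52 2 3 _ _ _ _ (pg12 κ) (pg2 ι) m52_4 m52_9 l52_9 z52_9 w52_9 x52_9 (by decide) _ (chkS_sound E lk52 2 3 _ _ _ _ t52_4_9)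

def r52_4_10 : List (ℕ × ℤ) := [(44, -12), (50, 12), (65, 12), (66, -12)]

theorem h52_4_10 (E : Env κ ι) : ip (F52_4 E) (F52_10 E) = dotS (ek E lk52) r52_4_10 :=
  op_entryZ E lk52 2 3 _ _ _ _ (pg12 κ) (pg2 ι) m52_4 m52_10 l52_10 z52_10 w52_10 x52_10 (by decide) _ (chkS_sound E lk52 2 3 _ _ _ _ t52_4_10)

def r52_4_11 : List (ℕ × ℤ) := [(21, -12), (25, 12), (29, -12), (53, 12)]

theorem h52_4_11 (E : Env κ ι) : ip (F52_4 E) (F52_11 E) = dotS (ek E lk52) r52_4_11 :=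
  op_entryZ E lk52 2 3 _ _ _ _ (pg12 κ) (pg2 ι) m52_4 m52_11 l52_11 z52_11 w52_11 x52_11 (by decide) _ (chkS_sound E lk52 2 3 _ _ _ _ t52_4_11)

def r52_4_12 : List (ℕ × ℤ) := [(9, 12), (128, 12), (137, -12), (151, -12)]

theorem h52_4_12 (E : Env κ ι) : ip (F52_4 E) (F52_12 E) = dotS (ek E lk52) r52_4_12 :=
  op_entryZ E lk52 2 3 _ _ _ _ (pg12 κ) (pg2 ι) m52_4 m52_12 l52_12 z52_12 w52_12 x52_12 (by decide) _ (chkS_sound E lk52 2 3 _ _ _ _ t52_4_12)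

def r52_5_5 : List (ℕ × ℤ) := [(126, -4), (134, 4), (140, 4), (145, -4)]

theorem h52_5_5 (E : Env κ ι) : ip (F52_5 E) (F52_5 E) = dotS (ek E lk52) r52_5_5 :=
  op_entryZ E lk52 2 3 _ _ _ _ (pg12 κ) (pg2 ι) m52_5 m52_5 l52_5 z52_5 w52_5 x52_5 (by decide) _ (chkS_sound E lk52 2 3 _ _ _ _ t52_5_5)

def r52_5_6 : List (ℕ × ℤ) := [(84, 8), (88, 4), (98, -8), (101, -4), (124, 4), (133, -4)]

theorem h52_5_6 (E : Env κ ι) : ip (F52_5 E) (F52_6 E) = dotS (ek E lk52) r52_5_6 :=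
  op_entryZ E lk52 2 3 _ _ _ _ (pg12 κ) (pg2 ι) m52_5 m52_6 l52_6 z52_6 w52_6 x52_6 (by decide) _ (chkS_sound E lk52 2 3 _ _ _ _ t52_5_6)

def r52_5_7 : List (ℕ × ℤ) := [(84, -4), (88, 4), (98, 4), (101, -4), (124, -8), (133, 8)]

theorem h52_5_7 (E : Env κ ι) : ip (F52_5 E) (F52_7 E) = dotS (ek E lk52) r52_5_7 :=
  op_entryZ E lk52 2 3 _ _ _ _ (pg12 κ) (pg2 ι) m52_5 m52_7 l52_7 z52_7 w52_7 x52_7 (by decide) _ (chkS_sound E lk52 2 3 _ _ _ _ t52_5_7)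

def r52_5_8 : List (ℕ × ℤ) := [(47, -4), (56, 4), (73, 4), (114, -4)]

theorem h52_5_8 (E : Env κ ι) : ip (F52_5 E) (F52_8 E) = dotS (ek E lk52) r52_5_8 :=
  op_entryZ E lk52 2 3 _ _ _ _ (pg12 κ) (pg2 ι) m52_5 m52_8 l52_8 z52_8 w52_8 x52_8 (by decide) _ (chkS_sound E lk52 2 3 _ _ _ _ t52_5_8)

def r52_5_9 : List (ℕ × ℤ) := [(24, -4), (25, 4), (75, 4), (115, -4)]

theorem h52_5_9 (E : Env κ ι) : ip (F52_5 E) (F52_9 E) = dotS (ek E lk52) r52_5_9 :=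
  op_entryZ E lk52 2 3 _ _ _ _ (pg12 κ) (pg2 ι) m52_5 m52_9 l52_9 z52_9 w52_9 x52_9 (by decide) _ (chkS_sound E lk52 2 3 _ _ _ _ t52_5_9)

def r52_5_10 : List (ℕ × ℤ) := [(88, 12), (101, -12)]

theorem h52_5_10 (E : Env κ ι) : ip (F52_5 E) (F52_10 E) = dotS (ek E lk52) r52_5_10 :=
  op_entryZ E lk52 2 3 _ _ _ _ (pg12 κ) (pg2 ι) m52_5 m52_10 l52_10 z52_10 w52_10 x52_10 (by decide) _ (chkS_sound E lk52 2 3 _ _ _ _ t52_5_10)

def r52_5_11 : List (ℕ × ℤ) := [(26, -12), (90, 12)]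

theorem h52_5_11 (E : Env κ ι) : ip (F52_5 E) (F52_11 E) = dotS (ek E lk52) r52_5_11 :=
  op_entryZ E lk52 2 3 _ _ _ _ (pg12 κ) (pg2 ι) m52_5 m52_11 l52_11 z52_11 w52_11 x52_11 (by decide) _ (chkS_sound E lk52 2 3 _ _ _ _ t52_5_11)

def r52_5_12 : List (ℕ × ℤ) := [(141, 12), (149, -12), (152, 0)]

theorem h52_5_12 (E : Env κ ι) : ip (F52_5 E) (F52_12 E) = dotS (ek E lk52) r52_5_12 :=
  op_entryZ E lk52 2 3 _ _ _ _ (pg12 κ) (pg2 ι) m52_5 m52_12 l52_12 z52_12 w52_12 x52_12 (by decide) _ (chkS_sound E lk52 2 3 _ _ _ _ t52_5_12)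

def r52_6_6 : List (ℕ × ℤ) := [(84, 8), (85, 4), (86, -4), (87, 8), (96, -4), (97, -8), (99, -8), (100, 4), (127, 8), (134, -8)]

theorem h52_6_6 (E : Env κ ι) : ip (F52_6 E) (F52_6 E) = dotS (ek E lk52) r52_6_6 :=
  op_entryZ E lk52 2 3 _ _ _ _ (pg12 κ) (pg2 ι) m52_6 m52_6 l52_6 z52_6 w52_6 x52_6 (by decide) _ (chkS_sound E lk52 2 3 _ _ _ _ t52_6_6)

def r52_6_7 : List (ℕ × ℤ) := [(84, -4), (85, 4), (86, 8), (87, -4), (96, -4), (97, 4), (99, 4), (100, -8), (127, -4), (134, 4)]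

theorem h52_6_7 (E : Env κ ι) : ip (F52_6 E) (F52_7 E) = dotS (ek E lk52) r52_6_7 :=
  op_entryZ E lk52 2 3 _ _ _ _ (pg12 κ) (pg2 ι) m52_6 m52_7 l52_7 z52_7 w52_7 x52_7 (by decide) _ (chkS_sound E lk52 2 3 _ _ _ _ t52_6_7)

def r52_6_8 : List (ℕ × ℤ) := [(40, 8), (41, 4), (47, -8), (48, -4), (67, -4), (110, 4)]

theorem h52_6_8 (E : Env κ ι) : ip (F52_6 E) (F52_8 E) = dotS (ek E lk52) r52_6_8 :=
  op_entryZ E lk52 2 3 _ _ _ _ (pg12 κ) (pg2 ι) m52_6 m52_8 l52_8 z52_8 w52_8 x52_8 (by decide) _ (chkS_sound E lk52 2 3 _ _ _ _ t52_6_8)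

def r52_6_9 : List (ℕ × ℤ) := [(24, -8), (28, -4), (29, 8), (42, 4), (76, -4), (116, 4)]

theorem h52_6_9 (E : Env κ ι) : ip (F52_6 E) (F52_9 E) = dotS (ek E lk52) r52_6_9 :=
  op_entryZ E lk52 2 3 _ _ _ _ (pg12 κ) (pg2 ι) m52_6 m52_9 l52_9 z52_9 w52_9 x52_9 (by decide) _ (chkS_sound E lk52 2 3 _ _ _ _ t52_6_9)

def r52_6_10 : List (ℕ × ℤ) := [(40, 12), (56, -12), (89, 12), (104, -12)]

theorem h52_6_10 (E : Env κ ι) : ip (F52_6 E) (F52_10 E) = dotS (ek E lk52) r52_6_10 :=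
  op_entryZ E lk52 2 3 _ _ _ _ (pg12 κ) (pg2 ι) m52_6 m52_10 l52_10 z52_10 w52_10 x52_10 (by decide) _ (chkS_sound E lk52 2 3 _ _ _ _ t52_6_10)

def r52_6_11 : List (ℕ × ℤ) := [(25, -12), (29, 12), (91, 12), (105, -12)]

theorem h52_6_11 (E : Env κ ι) : ip (F52_6 E) (F52_11 E) = dotS (ek E lk52) r52_6_11 :=
  op_entryZ E lk52 2 3 _ _ _ _ (pg12 κ) (pg2 ι) m52_6 m52_11 l52_11 z52_11 w52_11 x52_11 (by decide) _ (chkS_sound E lk52 2 3 _ _ _ _ t52_6_11)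

def r52_6_12 : List (ℕ × ℤ) := [(92, 12), (139, -12), (152, -12), (153, 12)]

theorem h52_6_12 (E : Env κ ι) : ip (F52_6 E) (F52_12 E) = dotS (ek E lk52) r52_6_12 :=
  op_entryZ E lk52 2 3 _ _ _ _ (pg12 κ) (pg2 ι) m52_6 m52_12 l52_12 z52_12 w52_12 x52_12 (by decide) _ (chkS_sound E lk52 2 3 _ _ _ _ t52_6_12)

def r52_7_7 : List (ℕ × ℤ) := [(84, 8), (85, -8), (86, -4), (87, 8), (96, 8), (97, -8), (99, -8), (100, 4), (127, -4), (134, 4)]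

theorem h52_7_7 (E : Env κ ι) : ip (F52_7 E) (F52_7 E) = dotS (ek E lk52) r52_7_7 :=
  op_entryZ E lk52 2 3 _ _ _ _ (pg12 κ) (pg2 ι) m52_7 m52_7 l52_7 z52_7 w52_7 x52_7 (by decide) _ (chkS_sound E lk52 2 3 _ _ _ _ t52_7_7)

def r52_7_8 : List (ℕ × ℤ) := [(40, -4), (41, 4), (47, 4), (48, -4), (67, 8), (110, -8)]

theorem h52_7_8 (E : Env κ ι) : ip (F52_7 E) (F52_8 E) = dotS (ek E lk52) r52_7_8 :=
  op_entryZ E lk52 2 3 _ _ _ _ (pg12 κ) (pg2 ι) m52_7 m52_8 l52_8 z52_8 w52_8 x52_8 (by decide) _ (chkS_sound E lk52 2 3 _ _ _ _ t52_7_8)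

def r52_7_9 : List (ℕ × ℤ) := [(24, 4), (28, -4), (29, -4), (42, 4), (76, 8), (116, -8)]

theorem h52_7_9 (E : Env κ ι) : ip (F52_7 E) (F52_9 E) = dotS (ek E lk52) r52_7_9 :=
  op_entryZ E lk52 2 3 _ _ _ _ (pg12 κ) (pg2 ι) m52_7 m52_9 l52_9 z52_9 w52_9 x52_9 (by decide) _ (chkS_sound E lk52 2 3 _ _ _ _ t52_7_9)

def r52_7_10 : List (ℕ × ℤ) := [(40, -12), (56, 12), (88, 12), (103, -12)]

theorem h52_7_10 (E : Env κ ι) : ip (F52_7 E) (F52_10 E) = dotS (ek E lk52) r52_7_10 :=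
  op_entryZ E lk52 2 3 _ _ _ _ (pg12 κ) (pg2 ι) m52_7 m52_10 l52_10 z52_10 w52_10 x52_10 (by decide) _ (chkS_sound E lk52 2 3 _ _ _ _ t52_7_10)

def r52_7_11 : List (ℕ × ℤ) := [(25, 12), (27, -12), (29, -12), (90, 12)]

theorem h52_7_11 (E : Env κ ι) : ip (F52_7 E) (F52_11 E) = dotS (ek E lk52) r52_7_11 :=
  op_entryZ E lk52 2 3 _ _ _ _ (pg12 κ) (pg2 ι) m52_7 m52_11 l52_11 z52_11 w52_11 x52_11 (by decide) _ (chkS_sound E lk52 2 3 _ _ _ _ t52_7_11)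

def r52_7_12 : List (ℕ × ℤ) := [(130, -12), (136, 12), (152, 12), (153, -12)]

theorem h52_7_12 (E : Env κ ι) : ip (F52_7 E) (F52_12 E) = dotS (ek E lk52) r52_7_12 :=
  op_entryZ E lk52 2 3 _ _ _ _ (pg12 κ) (pg2 ι) m52_7 m52_12 l52_12 z52_12 w52_12 x52_12 (by decide) _ (chkS_sound E lk52 2 3 _ _ _ _ t52_7_12)

def r52_8_8 : List (ℕ × ℤ) := [(69, 4), (77, 4), (112, -4), (117, -4)]

theorem h52_8_8 (E : Env κ ι) : ip (F52_8 E) (F52_8 E) = dotS (ek E lk52) r52_8_8 :=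
  op_entryZ E lk52 2 3 _ _ _ _ (pg12 κ) (pg2 ι) m52_8 m52_8 l52_8 z52_8 w52_8 x52_8 (by decide) _ (chkS_sound E lk52 2 3 _ _ _ _ t52_8_8)

def r52_8_9 : List (ℕ × ℤ) := [(28, -4), (30, 4), (78, 4), (118, -4)]

theorem h52_8_9 (E : Env κ ι) : ip (F52_8 E) (F52_9 E) = dotS (ek E lk52) r52_8_9 :=
  op_entryZ E lk52 2 3 _ _ _ _ (pg12 κ) (pg2 ι) m52_8 m52_9 l52_9 z52_9 w52_9 x52_9 (by decide) _ (chkS_sound E lk52 2 3 _ _ _ _ t52_8_9)

def r52_8_10 : List (ℕ × ℤ) := [(70, 12), (112, -12)]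

theorem h52_8_10 (E : Env κ ι) : ip (F52_8 E) (F52_10 E) = dotS (ek E lk52) r52_8_10 :=
  op_entryZ E lk52 2 3 _ _ _ _ (pg12 κ) (pg2 ι) m52_8 m52_10 l52_10 z52_10 w52_10 x52_10 (by decide) _ (chkS_sound E lk52 2 3 _ _ _ _ t52_8_10)

def r52_8_11 : List (ℕ × ℤ) := [(28, -12), (42, 12)]

theorem h52_8_11 (E : Env κ ι) : ip (F52_8 E) (F52_11 E) = dotS (ek E lk52) r52_8_11 :=
  op_entryZ E lk52 2 3 _ _ _ _ (pg12 κ) (pg2 ι) m52_8 m52_11 l52_11 z52_11 w52_11 x52_11 (by decide) _ (chkS_sound E lk52 2 3 _ _ _ _ t52_8_11)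

def r52_8_12 : List (ℕ × ℤ) := [(81, 12), (121, -12), (150, 0)]

theorem h52_8_12 (E : Env κ ι) : ip (F52_8 E) (F52_12 E) = dotS (ek E lk52) r52_8_12 :=
  op_entryZ E lk52 2 3 _ _ _ _ (pg12 κ) (pg2 ι) m52_8 m52_12 l52_12 z52_12 w52_12 x52_12 (by decide) _ (chkS_sound E lk52 2 3 _ _ _ _ t52_8_12)

def r52_9_9 : List (ℕ × ℤ) := [(6, -4), (31, 4), (79, 4), (119, -4)]

theorem h52_9_9 (E : Env κ ι) : ip (F52_9 E) (F52_9 E) = dotS (ek E lk52) r52_9_9 :=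
  op_entryZ E lk52 2 3 _ _ _ _ (pg12 κ) (pg2 ι) m52_9 m52_9 l52_9 z52_9 w52_9 x52_9 (by decide) _ (chkS_sound E lk52 2 3 _ _ _ _ t52_9_9)

def r52_9_10 : List (ℕ × ℤ) := [(28, -12), (42, 12)]

theorem h52_9_10 (E : Env κ ι) : ip (F52_9 E) (F52_10 E) = dotS (ek E lk52) r52_9_10 :=
  op_entryZ E lk52 2 3 _ _ _ _ (pg12 κ) (pg2 ι) m52_9 m52_10 l52_10 z52_10 w52_10 x52_10 (by decide) _ (chkS_sound E lk52 2 3 _ _ _ _ t52_9_10)

def r52_9_11 : List (ℕ × ℤ) := [(5, 12), (6, -12), (37, 0)]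

theorem h52_9_11 (E : Env κ ι) : ip (F52_9 E) (F52_11 E) = dotS (ek E lk52) r52_9_11 :=
  op_entryZ E lk52 2 3 _ _ _ _ (pg12 κ) (pg2 ι) m52_9 m52_11 l52_11 z52_11 w52_11 x52_11 (by decide) _ (chkS_sound E lk52 2 3 _ _ _ _ t52_9_11)

def r52_9_12 : List (ℕ × ℤ) := [(82, 12), (122, -12), (131, 0)]

theorem h52_9_12 (E : Env κ ι) : ip (F52_9 E) (F52_12 E) = dotS (ek E lk52) r52_9_12 :=
  op_entryZ E lk52 2 3 _ _ _ _ (pg12 κ) (pg2 ι) m52_9 m52_12 l52_12 z52_12 w52_12 x52_12 (by decide) _ (chkS_sound E lk52 2 3 _ _ _ _ t52_9_12)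

def r52_10_10 : List (ℕ × ℤ) := [(62, 12), (69, -12), (70, 12), (94, -12)]

theorem h52_10_10 (E : Env κ ι) : ip (F52_10 E) (F52_10 E) = dotS (ek E lk52) r52_10_10 :=
  op_entryZ E lk52 2 3 _ _ _ _ (pg12 κ) (pg2 ι) m52_10 m52_10 l52_10 z52_10 w52_10 x52_10 (by decide) _ (chkS_sound E lk52 2 3 _ _ _ _ t52_10_10)

def r52_10_11 : List (ℕ × ℤ) := [(18, 12), (30, -12), (42, 12), (54, -12)]

theorem h52_10_11 (E : Env κ ι) : ip (F52_10 E) (F52_11 E) = dotS (ek E lk52) r52_10_11 :=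
  op_entryZ E lk52 2 3 _ _ _ _ (pg12 κ) (pg2 ι) m52_10 m52_11 l52_11 z52_11 w52_11 x52_11 (by decide) _ (chkS_sound E lk52 2 3 _ _ _ _ t52_10_11)

def r52_10_12 : List (ℕ × ℤ) := [(13, -12), (142, 12), (144, 12), (150, -12)]

theorem h52_10_12 (E : Env κ ι) : ip (F52_10 E) (F52_12 E) = dotS (ek E lk52) r52_10_12 :=
  op_entryZ E lk52 2 3 _ _ _ _ (pg12 κ) (pg2 ι) m52_10 m52_12 l52_12 z52_12 w52_12 x52_12 (by decide) _ (chkS_sound E lk52 2 3 _ _ _ _ t52_10_12)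

def r52_11_11 : List (ℕ × ℤ) := [(0, 12), (1, -12), (5, 12), (31, -12)]

theorem h52_11_11 (E : Env κ ι) : ip (F52_11 E) (F52_11 E) = dotS (ek E lk52) r52_11_11 :=
  op_entryZ E lk52 2 3 _ _ _ _ (pg12 κ) (pg2 ι) m52_11 m52_11 l52_11 z52_11 w52_11 x52_11 (by decide) _ (chkS_sound E lk52 2 3 _ _ _ _ t52_11_11)

def r52_11_12 : List (ℕ × ℤ) := [(17, 12), (22, -12), (131, -12), (138, 12)]

theorem h52_11_12 (E : Env κ ι) : ip (F52_11 E) (F52_12 E) = dotS (ek E lk52) r52_11_12 :=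
  op_entryZ E lk52 2 3 _ _ _ _ (pg12 κ) (pg2 ι) m52_11 m52_12 l52_12 z52_12 w52_12 x52_12 (by decide) _ (chkS_sound E lk52 2 3 _ _ _ _ t52_11_12)

def r52_12_12 : List (ℕ × ℤ) := [(12, -12), (154, 12), (155, 12), (156, -12)]

theorem h52_12_12 (E : Env κ ι) : ip (F52_12 E) (F52_12 E) = dotS (ek E lk52) r52_12_12 :=
  op_entryZ E lk52 2 3 _ _ _ _ (pg12 κ) (pg2 ι) m52_12 m52_12 l52_12 z52_12 w52_12 x52_12 (by decide) _ (chkS_sound E lk52 2 3 _ _ _ _ t52_12_12)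

theorem row52_0 (E : Env κ ι) : RowG (ek E lk52) (F52_0 E) [F52_0 E, F52_1 E, F52_2 E, F52_3 E, F52_4 E, F52_5 E, F52_6 E, F52_7 E, F52_8 E, F52_9 E, F52_10 E, F52_11 E, F52_12 E] [r52_0_0, r52_0_1, r52_0_2, r52_0_3, r52_0_4, r52_0_5, r52_0_6, r52_0_7, r52_0_8, r52_0_9, r52_0_10, r52_0_11, r52_0_12] :=
  rowG_cons _ _ _ _ _ _ (h52_0_0 E) (rowG_cons _ _ _ _ _ _ (h52_0_1 E) (rowG_cons _ _ _ _ _ _ (h52_0_2 E) (rowG_cons _ _ _ _ _ _ (h52_0_3 E) (rowG_cons _ _ _ _ _ _ (h52_0_4 E) (rowG_cons _ _ _ _ _ _ (h52_0_5 E) (rowG_cons _ _ _ _ _ _ (h52_0_6 E) (rowG_cons _ _ _ _ _ _ (h52_0_7 E) (rowG_cons _ _ _ _ _ _ (h52_0_8 E) (rowG_cons _ _ _ _ _ _ (h52_0_9 E) (rowG_cons _ _ _ _ _ _ (h52_0_10 E) (rowG_cons _ _ _ _ _ _ (h52_0_11 E) (rowG_cons _ _ _ _ _ _ (h52_0_12 E) (rowG_nil _ _)))))))))))))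

theorem row52_1 (E : Env κ ι) : RowG (ek E lk52) (F52_1 E) [F52_1 E, F52_2 E, F52_3 E, F52_4 E, F52_5 E, F52_6 E, F52_7 E, F52_8 E, F52_9 E, F52_10 E, F52_11 E, F52_12 E] [r52_1_1, r52_1_2, r52_1_3, r52_1_4, r52_1_5, r52_1_6, r52_1_7, r52_1_8, r52_1_9, r52_1_10, r52_1_11, r52_1_12] :=
  rowG_cons _ _ _ _ _ _ (h52_1_1 E) (rowG_cons _ _ _ _ _ _ (h52_1_2 E) (rowG_cons _ _ _ _ _ _ (h52_1_3 E) (rowG_cons _ _ _ _ _ _ (h52_1_4 E) (rowG_cons _ _ _ _ _ _ (h52_1_5 E) (rowG_cons _ _ _ _ _ _ (h52_1_6 E) (rowG_cons _ _ _ _ _ _ (h52_1_7 E) (rowG_cons _ _ _ _ _ _ (h52_1_8 E) (rowG_cons _ _ _ _ _ _ (h52_1_9 E) (rowG_cons _ _ _ _ _ _ (h52_1_10 E) (rowG_cons _ _ _ _ _ _ (h52_1_11 E) (rowG_cons _ _ _ _ _ _ (h52_1_12 E) (rowG_nil _ _))))))))))))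

theorem row52_2 (E : Env κ ι) : RowG (ek E lk52) (F52_2 E) [F52_2 E, F52_3 E, F52_4 E, F52_5 E, F52_6 E, F52_7 E, F52_8 E, F52_9 E, F52_10 E, F52_11 E, F52_12 E] [r52_2_2, r52_2_3, r52_2_4, r52_2_5, r52_2_6, r52_2_7, r52_2_8, r52_2_9, r52_2_10, r52_2_11, r52_2_12] :=
  rowG_cons _ _ _ _ _ _ (h52_2_2 E) (rowG_cons _ _ _ _ _ _ (h52_2_3 E) (rowG_cons _ _ _ _ _ _ (h52_2_4 E) (rowG_cons _ _ _ _ _ _ (h52_2_5 E) (rowG_cons _ _ _ _ _ _ (h52_2_6 E) (rowG_cons _ _ _ _ _ _ (h52_2_7 E) (rowG_cons _ _ _ _ _ _ (h52_2_8 E) (rowG_cons _ _ _ _ _ _ (h52_2_9 E) (rowG_cons _ _ _ _ _ _ (h52_2_10 E) (rowG_cons _ _ _ _ _ _ (h52_2_11 E) (rowG_cons _ _ _ _ _ _ (h52_2_12 E) (rowG_nil _ _)))))))))))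

theorem row52_3 (E : Env κ ι) : RowG (ek E lk52) (F52_3 E) [F52_3 E, F52_4 E, F52_5 E, F52_6 E, F52_7 E, F52_8 E, F52_9 E, F52_10 E, F52_11 E, F52_12 E] [r52_3_3, r52_3_4, r52_3_5, r52_3_6, r52_3_7, r52_3_8, r52_3_9, r52_3_10, r52_3_11, r52_3_12] :=
  rowG_cons _ _ _ _ _ _ (h52_3_3 E) (rowG_cons _ _ _ _ _ _ (h52_3_4 E) (rowG_cons _ _ _ _ _ _ (h52_3_5 E) (rowG_cons _ _ _ _ _ _ (h52_3_6 E) (rowG_cons _ _ _ _ _ _ (h52_3_7 E) (rowG_cons _ _ _ _ _ _ (h52_3_8 E) (rowG_cons _ _ _ _ _ _ (h52_3_9 E) (rowG_cons _ _ _ _ _ _ (h52_3_10 E) (rowG_cons _ _ _ _ _ _ (h52_3_11 E) (rowG_cons _ _ _ _ _ _ (h52_3_12 E) (rowG_nil _ _))))))))))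

theorem row52_4 (E : Env κ ι) : RowG (ek E lk52) (F52_4 E) [F52_4 E, F52_5 E, F52_6 E, F52_7 E, F52_8 E, F52_9 E, F52_10 E, F52_11 E, F52_12 E] [r52_4_4, r52_4_5, r52_4_6, r52_4_7, r52_4_8, r52_4_9, r52_4_10, r52_4_11, r52_4_12] :=
  rowG_cons _ _ _ _ _ _ (h52_4_4 E) (rowG_cons _ _ _ _ _ _ (h52_4_5 E) (rowG_cons _ _ _ _ _ _ (h52_4_6 E) (rowG_cons _ _ _ _ _ _ (h52_4_7 E) (rowG_cons _ _ _ _ _ _ (h52_4_8 E) (rowG_cons _ _ _ _ _ _ (h52_4_9 E) (rowG_cons _ _ _ _ _ _ (h52_4_10 E) (rowG_cons _ _ _ _ _ _ (h52_4_11 E) (rowG_cons _ _ _ _ _ _ (h52_4_12 E) (rowG_nil _ _)))))))))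

theorem row52_5 (E : Env κ ι) : RowG (ek E lk52) (F52_5 E) [F52_5 E, F52_6 E, F52_7 E, F52_8 E, F52_9 E, F52_10 E, F52_11 E, F52_12 E] [r52_5_5, r52_5_6, r52_5_7, r52_5_8, r52_5_9, r52_5_10, r52_5_11, r52_5_12] :=
  rowG_cons _ _ _ _ _ _ (h52_5_5 E) (rowG_cons _ _ _ _ _ _ (h52_5_6 E) (rowG_cons _ _ _ _ _ _ (h52_5_7 E) (rowG_cons _ _ _ _ _ _ (h52_5_8 E) (rowG_cons _ _ _ _ _ _ (h52_5_9 E) (rowG_cons _ _ _ _ _ _ (h52_5_10 E) (rowG_cons _ _ _ _ _ _ (h52_5_11 E) (rowG_cons _ _ _ _ _ _ (h52_5_12 E) (rowG_nil _ _))))))))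

theorem row52_6 (E : Env κ ι) : RowG (ek E lk52) (F52_6 E) [F52_6 E, F52_7 E, F52_8 E, F52_9 E, F52_10 E, F52_11 E, F52_12 E] [r52_6_6, r52_6_7, r52_6_8, r52_6_9, r52_6_10, r52_6_11, r52_6_12] :=
  rowG_cons _ _ _ _ _ _ (h52_6_6 E) (rowG_cons _ _ _ _ _ _ (h52_6_7 E) (rowG_cons _ _ _ _ _ _ (h52_6_8 E) (rowG_cons _ _ _ _ _ _ (h52_6_9 E) (rowG_cons _ _ _ _ _ _ (h52_6_10 E) (rowG_cons _ _ _ _ _ _ (h52_6_11 E) (rowG_cons _ _ _ _ _ _ (h52_6_12 E) (rowG_nil _ _)))))))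

theorem row52_7 (E : Env κ ι) : RowG (ek E lk52) (F52_7 E) [F52_7 E, F52_8 E, F52_9 E, F52_10 E, F52_11 E, F52_12 E] [r52_7_7, r52_7_8, r52_7_9, r52_7_10, r52_7_11, r52_7_12] :=
  rowG_cons _ _ _ _ _ _ (h52_7_7 E) (rowG_cons _ _ _ _ _ _ (h52_7_8 E) (rowG_cons _ _ _ _ _ _ (h52_7_9 E) (rowG_cons _ _ _ _ _ _ (h52_7_10 E) (rowG_cons _ _ _ _ _ _ (h52_7_11 E) (rowG_cons _ _ _ _ _ _ (h52_7_12 E) (rowG_nil _ _))))))

theorem row52_8 (E : Env κ ι) : RowG (ek E lk52) (F52_8 E) [F52_8 E, F52_9 E, F52_10 E, F52_11 E, F52_12 E] [r52_8_8, r52_8_9, r52_8_10, r52_8_11, r52_8_12] :=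
  rowG_cons _ _ _ _ _ _ (h52_8_8 E) (rowG_cons _ _ _ _ _ _ (h52_8_9 E) (rowG_cons _ _ _ _ _ _ (h52_8_10 E) (rowG_cons _ _ _ _ _ _ (h52_8_11 E) (rowG_cons _ _ _ _ _ _ (h52_8_12 E) (rowG_nil _ _)))))

theorem row52_9 (E : Env κ ι) : RowG (ek E lk52) (F52_9 E) [F52_9 E, F52_10 E, F52_11 E, F52_12 E] [r52_9_9, r52_9_10, r52_9_11, r52_9_12] :=
  rowG_cons _ _ _ _ _ _ (h52_9_9 E) (rowG_cons _ _ _ _ _ _ (h52_9_10 E) (rowG_cons _ _ _ _ _ _ (h52_9_11 E) (rowG_cons _ _ _ _ _ _ (h52_9_12 E) (rowG_nil _ _))))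

theorem row52_10 (E : Env κ ι) : RowG (ek E lk52) (F52_10 E) [F52_10 E, F52_11 E, F52_12 E] [r52_10_10, r52_10_11, r52_10_12] :=
  rowG_cons _ _ _ _ _ _ (h52_10_10 E) (rowG_cons _ _ _ _ _ _ (h52_10_11 E) (rowG_cons _ _ _ _ _ _ (h52_10_12 E) (rowG_nil _ _)))

theorem row52_11 (E : Env κ ι) : RowG (ek E lk52) (F52_11 E) [F52_11 E, F52_12 E] [r52_11_11, r52_11_12] :=
  rowG_cons _ _ _ _ _ _ (h52_11_11 E) (rowG_cons _ _ _ _ _ _ (h52_11_12 E) (rowG_nil _ _))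

theorem row52_12 (E : Env κ ι) : RowG (ek E lk52) (F52_12 E) [F52_12 E] [r52_12_12] :=
  rowG_cons _ _ _ _ _ _ (h52_12_12 E) (rowG_nil _ _)

def tab52 : List (List (List (ℕ × ℤ))) := [[r52_0_0, r52_0_1, r52_0_2, r52_0_3, r52_0_4, r52_0_5, r52_0_6, r52_0_7, r52_0_8, r52_0_9, r52_0_10, r52_0_11, r52_0_12], [r52_1_1, r52_1_2, r52_1_3, r52_1_4, r52_1_5, r52_1_6, r52_1_7, r52_1_8, r52_1_9, r52_1_10, r52_1_11, r52_1_12], [r52_2_2, r52_2_3, r52_2_4, r52_2_5, r52_2_6, r52_2_7, r52_2_8, r52_2_9, r52_2_10, r52_2_11, r52_2_12], [r52_3_3, r52_3_4, r52_3_5, r52_3_6, r52_3_7, r52_3_8, r52_3_9, r52_3_10, r52_3_11, r52_3_12], [r52_4_4, r52_4_5, r52_4_6, r52_4_7, r52_4_8, r52_4_9, r52_4_10, r52_4_11, r52_4_12], [r52_5_5, r52_5_6, r52_5_7, r52_5_8, r52_5_9, r52_5_10, r52_5_11, r52_5_12], [r52_6_6, r52_6_7, r52_6_8, r52_6_9, r52_6_10, r52_6_11, r52_6_12], [r52_7_7, r52_7_8, r52_7_9,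 r52_7_10, r52_7_11, r52_7_12], [r52_8_8, r52_8_9, r52_8_10, r52_8_11, r52_8_12], [r52_9_9, r52_9_10, r52_9_11, r52_9_12], [r52_10_10, r52_10_11, r52_10_12], [r52_11_11, r52_11_12], [r52_12_12]]

theorem tri52 (E : Env κ ι) : TriG (ek E lk52) [F52_0 E, F52_1 E, F52_2 E, F52_3 E, F52_4 E, F52_5 E, F52_6 E, F52_7 E, F52_8 E, F52_9 E, F52_10 E, F52_11 E, F52_12 E] tab52 := by
  refine triG_cons _ _ _ _ _ (row52_0 E) ?_
  refine triG_cons _ _ _ _ _ (row52_1 E) ?_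
  refine triG_cons _ _ _ _ _ (row52_2 E) ?_
  refine triG_cons _ _ _ _ _ (row52_3 E) ?_
  refine triG_cons _ _ _ _ _ (row52_4 E) ?_
  refine triG_cons _ _ _ _ _ (row52_5 E) ?_
  refine triG_cons _ _ _ _ _ (row52_6 E) ?_
  refine triG_cons _ _ _ _ _ (row52_7 E) ?_
  refine triG_cons _ _ _ _ _ (row52_8 E) ?_
  refine triG_cons _ _ _ _ _ (row52_9 E) ?_
  refine triG_cons _ _ _ _ _ (row52_10 E) ?_
  refine triG_cons _ _ _ _ _ (row52_11 E) ?_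
  refine triG_cons _ _ _ _ _ (row52_12 E) ?_
  exact triG_nil _

end

def lk53 : List Key := [
  (2, 7, [(0, [0], [0, 1]), (0, [0], [0, 2]), (0, [1], [3, 2]), (4, [], [1]), (0, [1], [4, 5]), (1, [], [4, 6]), (1, [], [3, 6]), (4, [], [5])]),
  (2, 7, [(0, [0], [0, 1]), (0, [0], [0, 2]), (0, [1], [3, 2]), (4, [], [1]), (0, [1], [4, 5]), (1, [], [4, 6]), (1, [], [3, 5]), (4, [], [6])]),
  (2, 7, [(0, [0], [0, 1]), (0, [0], [2, 3]), (0, [1], [0, 3]), (4, [], [1]), (0, [1], [4, 5]), (1, [], [4, 6]), (1, [], [2, 6]), (4, [], [5])]),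
  (2, 7, [(0, [0], [0, 1]), (0, [0], [2, 3]), (0, [1], [0, 3]), (4, [], [1]), (0, [1], [4, 5]), (1, [], [4, 6]), (1, [], [2, 5]), (4, [], [6])]),
  (2, 7, [(0, [0], [0, 1]), (0, [0], [2, 0]), (0, [1], [3, 1]), (4, [], [4]), (0, [1], [5, 6]), (1, [], [3, 5]), (1, [], [2, 4]), (4, [], [6])]),
  (2, 7, [(0, [0], [0, 1]), (0, [0], [2, 0]), (0, [1], [3, 1]), (4, [], [4]), (0, [1], [2, 5]), (1, [], [5, 6]), (1, [], [3, 6]), (4, [], [4])]),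
  (2, 7, [(0, [0], [0, 1]), (0, [0], [2, 0]), (0, [1], [3, 1]), (4, [], [4]), (0, [1], [2, 5]), (1, [], [5, 6]), (1, [], [3, 4]), (4, [], [6])]),
  (2, 7, [(0, [0], [0, 1]), (0, [0], [2, 0]), (0, [1], [3, 1]), (4, [], [4]), (0, [1], [4, 5]), (1, [], [2, 6]), (1, [], [3, 6]), (4, [], [5])]),
  (2, 7, [(0, [0], [0, 1]), (0, [0], [2, 0]), (0, [1], [3, 4]), (4, [], [1]), (0, [1], [5, 6]), (1, [], [2, 5]), (1, [], [3, 6]), (4, [], [4])]),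
  (2, 7, [(0, [0], [0, 1]), (0, [0], [2, 0]), (0, [1], [3, 4]), (4, [], [1]), (0, [1], [5, 6]), (1, [], [3, 5]), (1, [], [4, 6]), (4, [], [2])]),
  (2, 7, [(0, [0], [0, 1]), (0, [0], [2, 0]), (0, [1], [3, 4]), (4, [], [1]), (0, [1], [3, 5]), (1, [], [5, 6]), (1, [], [2, 6]), (4, [], [4])]),
  (2, 7, [(0, [0], [0, 1]), (0, [0], [2, 0]), (0, [1], [3, 4]), (4, [], [1]), (0, [1], [3, 5]), (1, [], [5, 6]), (1, [], [4, 6]), (4, [], [2])]),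
  (2, 7, [(0, [0], [0, 1]), (0, [0], [2, 3]), (0, [1], [4, 0]), (4, [], [1]), (0, [1], [5, 6]), (1, [], [2, 5]), (1, [], [3, 6]), (4, [], [4])]),
  (2, 7, [(0, [0], [0, 1]), (0, [0], [2, 3]), (0, [1], [4, 0]), (4, [], [1]), (0, [1], [5, 6]), (1, [], [2, 5]), (1, [], [4, 6]), (4, [], [3])]),
  (2, 7, [(0, [0], [0, 1]), (0, [0], [2, 3]), (0, [1], [4, 0]), (4, [], [1]), (0, [1], [2, 5]), (1, [], [5, 6]), (1, [], [3, 6]), (4, [], [4])]),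
  (2, 7, [(0, [0], [0, 1]), (0, [0], [2, 3]), (0, [1], [4, 0]), (4, [], [1]), (0, [1], [2, 5]), (1, [], [5, 6]), (1, [], [4, 6]), (4, [], [3])]),
  (2, 7, [(0, [0], [0, 1]), (0, [0], [2, 3]), (0, [1], [4, 0]), (4, [], [1]), (0, [1], [2, 5]), (1, [], [5, 6]), (1, [], [3, 4]), (4, [], [6])]),
  (2, 7, [(0, [0], [0, 1]), (0, [0], [2, 3]), (0, [1], [4, 0]), (4, [], [1]), (0, [1], [2, 5]), (1, [], [3, 6]), (1, [], [4, 6]), (4, [], [5])]),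
  (2, 7, [(0, [0], [0, 1]), (0, [0], [2, 3]), (0, [1], [4, 0]), (4, [], [1]), (0, [1], [2, 5]), (1, [], [3, 6]), (1, [], [4, 5]), (4, [], [6])]),
  (2, 7, [(0, [0], [0, 1]), (0, [0], [2, 3]), (0, [1], [1, 3]), (4, [], [4]), (0, [1], [5, 6]), (1, [], [0, 5]), (1, [], [2, 4]), (4, [], [6])]),
  (2, 7, [(0, [0], [0, 1]), (0, [0], [2, 3]), (0, [1], [1, 3]), (4, [], [4]), (0, [1], [0, 5]), (1, [], [5, 6]), (1, [], [2, 6]), (4, [], [4])]),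
  (2, 7, [(0, [0], [0, 1]), (0, [0], [2, 3]), (0, [1], [1, 3]), (4, [], [4]), (0, [1], [0, 5]), (1, [], [5, 6]), (1, [], [2, 4]), (4, [], [6])]),
  (2, 7, [(0, [0], [0, 1]), (0, [0], [2, 3]), (0, [1], [1, 3]), (4, [], [4]), (0, [1], [4, 5]), (1, [], [0, 6]), (1, [], [2, 6]), (4, [], [5])]),
  (2, 7, [(0, [0], [0, 1]), (0, [0], [2, 3]), (0, [1], [4, 3]), (4, [], [1]), (0, [1], [5, 6]), (1, [], [2, 5]), (1, [], [4, 6]), (4, [], [0])]),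
  (2, 7, [(0, [0], [0, 1]), (0, [0], [2, 3]), (0, [1], [4, 3]), (4, [], [1]), (0, [1], [5, 6]), (1, [], [2, 5]), (1, [], [0, 4]), (4, [], [6])]),
  (2, 7, [(0, [0], [0, 1]), (0, [0], [2, 3]), (0, [1], [4, 3]), (4, [], [1]), (0, [1], [5, 6]), (1, [], [4, 5]), (1, [], [0, 2]), (4, [], [6])]),
  (2, 7, [(0, [0], [0, 1]), (0, [0], [2, 1]), (0, [1], [3, 4]), (4, [], [4]), (0, [1], [5, 6]), (1, [], [0, 5]), (1, [], [2, 3]), (4, [], [6])]),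
  (2, 7, [(0, [0], [0, 1]), (0, [0], [2, 3]), (0, [1], [4, 1]), (4, [], [5]), (0, [1], [2, 6]), (1, [], [0, 6]), (1, [], [3, 4]), (4, [], [5])]),
  (2, 7, [(0, [0], [0, 1]), (0, [0], [2, 3]), (0, [1], [4, 1]), (4, [], [5]), (0, [1], [2, 6]), (1, [], [4, 6]), (1, [], [0, 3]), (4, [], [5])])]

def kl53 : List ℕ := [114, 115, 128, 129, 229, 231, 233, 235, 255, 256, 257, 258, 290, 291, 293, 294, 295, 296, 297, 306, 308, 309, 310, 324, 326, 327, 334, 431, 433]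

def m53_0 : Base := (0, 2, [(0, [0], [3, 4]), (0, [1], [0, 3]), (1, [], [1, 4]), (4, [], [2])])

def l53_0 : Cov := [(12, 0, 2, [(0, [0], [3, 4]), (0, [1], [0, 3]), (1, [], [1, 4]), (4, [], [2])]),
  (-12, 0, 2, [(0, [0], [3, 4]), (0, [1], [0, 3]), (1, [], [2, 4]), (4, [], [1])]),
  (-12, 0, 2, [(0, [0], [3, 4]), (0, [1], [1, 3]), (1, [], [0, 4]), (4, [], [2])]),
  (12, 0, 2, [(0, [0], [3, 4]), (0, [1], [1, 3]), (1, [], [2, 4]), (4, [], [0])]),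
  (12, 0, 2, [(0, [0], [3, 4]), (0, [1], [2, 3]), (1, [], [0, 4]), (4, [], [1])]),
  (-12, 0, 2, [(0, [0], [3, 4]), (0, [1], [2, 3]), (1, [], [1, 4]), (4, [], [0])]),
  (12, 0, 2, [(0, [1], [3, 4]), (0, [0], [0, 3]), (1, [], [1, 4]), (4, [], [2])]),
  (-12, 0, 2, [(0, [1], [3, 4]), (0, [0], [0, 3]), (1, [], [2, 4]), (4, [], [1])]),
  (-12, 0, 2, [(0, [1], [3, 4]), (0, [0], [1, 3]), (1, [], [0, 4]), (4, [], [2])]),
  (12, 0, 2, [(0, [1], [3, 4]), (0, [0], [1, 3]), (1, [], [2, 4]), (4, [], [0])]),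
  (12, 0, 2, [(0, [1], [3, 4]), (0, [0], [2, 3]), (1, [], [0, 4]), (4, [], [1])]),
  (-12, 0, 2, [(0, [1], [3, 4]), (0, [0], [2, 3]), (1, [], [1, 4]), (4, [], [0])])]

def z53_0 : Cov := []

def w53_0 : List (List Wit) := [[(0, 0, 0, 16, 16), (1, 0, 0, 16, 16), (2, 0, 0, 16, 16), (3, 0, 0, 16, 16), (4, 0, 0, 16, 16), (5, 0, 0, 16, 16)],
  [(6, 0, 0, 16, 16), (7, 0, 0, 16, 16), (8, 0, 0, 16, 16), (9, 0, 0, 16, 16), (10, 0, 0, 16, 16), (11, 0, 0, 16, 16)]]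

def m53_1 : Base := (0, 2, [(0, [0], [0, 3]), (0, [1], [1, 4]), (1, [], [2, 4]), (4, [], [3])])

def l53_1 : Cov := [(12, 0, 2, [(0, [0], [0, 3]), (0, [1], [1, 4]), (1, [], [2, 4]), (4, [], [3])]),
  (-12, 0, 2, [(0, [0], [0, 3]), (0, [1], [2, 4]), (1, [], [1, 4]), (4, [], [3])]),
  (-12, 0, 2, [(0, [0], [1, 3]), (0, [1], [0, 4]), (1, [], [2, 4]), (4, [], [3])]),
  (12, 0, 2, [(0, [0], [1, 3]), (0, [1], [2, 4]), (1, [], [0, 4]), (4, [], [3])]),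
  (12, 0, 2, [(0, [0], [2, 3]), (0, [1], [0, 4]), (1, [], [1, 4]), (4, [], [3])]),
  (-12, 0, 2, [(0, [0], [2, 3]), (0, [1], [1, 4]), (1, [], [0, 4]), (4, [], [3])]),
  (12, 0, 2, [(0, [1], [0, 3]), (0, [0], [1, 4]), (1, [], [2, 4]), (4, [], [3])]),
  (-12, 0, 2, [(0, [1], [0, 3]), (0, [0], [2, 4]), (1, [], [1, 4]), (4, [], [3])]),
  (-12, 0, 2, [(0, [1], [1, 3]), (0, [0], [0, 4]), (1, [], [2, 4]), (4, [], [3])]),
  (12, 0, 2, [(0, [1], [1, 3]), (0, [0], [2, 4]), (1, [], [0, 4]), (4, [], [3])]),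
  (12, 0, 2, [(0, [1], [2, 3]), (0, [0], [0, 4]), (1, [], [1, 4]), (4, [], [3])]),
  (-12, 0, 2, [(0, [1], [2, 3]), (0, [0], [1, 4]), (1, [], [0, 4]), (4, [], [3])])]

def z53_1 : Cov := []

def w53_1 : List (List Wit) := [[(0, 0, 0, 16, 16), (1, 0, 0, 16, 16), (2, 0, 0, 16, 16), (3, 0, 0, 16, 16), (4, 0, 0, 16, 16), (5, 0, 0, 16, 16)],
  [(6, 0, 0, 16, 16), (7, 0, 0, 16, 16), (8, 0, 0, 16, 16), (9, 0, 0, 16, 16), (10, 0, 0, 16, 16), (11, 0, 0, 16, 16)]]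

theorem tr53 : trK keys lk53 kl53 = true := by
  decide +kernel

theorem x53_0 : expB 2 3 dg11 dg3 m53_0 (l53_0 ++ z53_0) w53_0 = true := by
  decide +kernel

theorem x53_1 : expB 2 3 dg11 dg3 m53_1 (l53_1 ++ z53_1) w53_1 = true := by
  decide +kernel

theorem t53_0_0 : chkS lk53 2 3 [(1, m53_0)] l53_0
  [(5, 1, 1, 86185056, 23217456), (6, 1, 1, 86185536, 39929136), (27, 16, 16, 52434276, 18900276), (16, 1, 1, 86246961, 40113411), (16, 1, 1, 67445091, 21365541), (15, 1, 1, 86246241, 23340291), (20, 1, 1, 37028961, 21124611), (21, 1, 1, 37028961, 21124611), (28, 16, 16, 102765876, 102765876), (18, 1, 1, 52692561, 34891011), (18, 16, 16, 67314021, 17187621), (17, 1, 1, 52692321, 19162371)]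
  [(5, 12), (6, -12), (15, -12), (16, 24), (17, -12), (18, 24), (20, 12), (21, -12), (27, -12), (28, -12)] = true := by
  decide +kernel

theorem t53_0_1 : chkS lk53 2 3 [(1, m53_0)] l53_1
  [(3, 16, 16, 68302416, 35009616), (2, 16, 16, 68302176, 19280976), (4, 1, 1, 40047696, 85083696), (25, 16, 16, 85079556, 39859281), (7, 1, 1, 38999136, 22169136), (23, 16, 16, 101855316, 101725266), (1, 1, 1, 68363856, 35013456), (0, 1, 1, 68363616, 19284816), (19, 16, 16, 39851091, 85067316), (24, 1, 1, 85210626, 40120401), (22, 16, 16, 38802531, 22152756), (23, 1, 1, 85209186, 23343186)]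
  [(0, -12), (1, 12), (2, -12), (3, 12), (4, -12), (7, 12), (19, -12), (22, 12), (23, -24), (24, 12), (25, 12)] = true := by
  decide +kernel

theorem t53_1_1 : chkS lk53 2 3 [(1, m53_1)] l53_1
  [(11, 16, 16, 86251056, 40113456), (9, 16, 16, 86251056, 40113456), (15, 16, 16, 70587936, 38162736), (13, 16, 16, 85210626, 40120401), (13, 16, 16, 70586976, 21385776), (26, 1, 1, 39863571, 86181396), (14, 16, 16, 54859296, 38101296), (12, 16, 16, 54858336, 21324336), (10, 16, 16, 38082096, 38082096), (8, 1, 1, 101860611, 102958161), (8, 16, 16, 38146896, 68494896), (25, 16, 16, 40113456, 86251056)]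
  [(8, 24), (9, -12), (10, -12), (11, 12), (12, -12), (13, 24), (14, 12), (15, -12), (25, -12), (26, -12)] = true := by
  decide +kernel

section

variable {κ ι : Type*} [Fintype κ] [Fintype ι] [Inhabited κ] [Inhabited ι]

noncomputable def F53_0 (E : Env κ ι) : (Fin 2 → κ) → (Fin 3 → ι) → ℝ := op2 (P11 κ) (P3 ι) (fB E 2 3 m53_0)

noncomputable def F53_1 (E : Env κ ι) : (Fin 2 → κ) → (Fin 3 → ι) → ℝ := op2 (P11 κ) (P3 ι) (fB E 2 3 m53_1)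

def r53_0_0 : List (ℕ × ℤ) := [(5, 12), (6, -12), (15, -12), (16, 24), (17, -12), (18, 24), (20, 12), (21, -12), (27, -12), (28, -12)]

theorem h53_0_0 (E : Env κ ι) : ip (F53_0 E) (F53_0 E) = dotS (ek E lk53) r53_0_0 :=
  op_entryZ E lk53 2 3 _ _ _ _ (pg11 κ) (pg3 ι) m53_0 m53_0 l53_0 z53_0 w53_0 x53_0 (by decide) _ (chkS_sound E lk53 2 3 _ _ _ _ t53_0_0)

def r53_0_1 : List (ℕ × ℤ) := [(0, -12), (1, 12), (2, -12), (3, 12), (4, -12), (7, 12), (19, -12), (22, 12), (23, -24), (24, 12), (25, 12)]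

theorem h53_0_1 (E : Env κ ι) : ip (F53_0 E) (F53_1 E) = dotS (ek E lk53) r53_0_1 :=
  op_entryZ E lk53 2 3 _ _ _ _ (pg11 κ) (pg3 ι) m53_0 m53_1 l53_1 z53_1 w53_1 x53_1 (by decide) _ (chkS_sound E lk53 2 3 _ _ _ _ t53_0_1)

def r53_1_1 : List (ℕ × ℤ) := [(8, 24), (9, -12), (10, -12), (11, 12), (12, -12), (13, 24), (14, 12), (15, -12), (25, -12), (26, -12)]

theorem h53_1_1 (E : Env κ ι) : ip (F53_1 E) (F53_1 E) = dotS (ek E lk53) r53_1_1 :=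
  op_entryZ E lk53 2 3 _ _ _ _ (pg11 κ) (pg3 ι) m53_1 m53_1 l53_1 z53_1 w53_1 x53_1 (by decide) _ (chkS_sound E lk53 2 3 _ _ _ _ t53_1_1)

theorem row53_0 (E : Env κ ι) : RowG (ek E lk53) (F53_0 E) [F53_0 E, F53_1 E] [r53_0_0, r53_0_1] :=
  rowG_cons _ _ _ _ _ _ (h53_0_0 E) (rowG_cons _ _ _ _ _ _ (h53_0_1 E) (rowG_nil _ _))

theorem row53_1 (E : Env κ ι) : RowG (ek E lk53) (F53_1 E) [F53_1 E] [r53_1_1] :=
  rowG_cons _ _ _ _ _ _ (h53_1_1 E) (rowG_nil _ _)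

def tab53 : List (List (List (ℕ × ℤ))) := [[r53_0_0, r53_0_1], [r53_1_1]]

theorem tri53 (E : Env κ ι) : TriG (ek E lk53) [F53_0 E, F53_1 E] tab53 := by
  refine triG_cons _ _ _ _ _ (row53_0 E) ?_
  refine triG_cons _ _ _ _ _ (row53_1 E) ?_
  exact triG_nil _

end

def lk54 : List Key := [
  (2, 5, [(0, [0], [0, 1]), (0, [1], [0, 2]), (0, [0], [2, 3]), (0, [1], [1, 4]), (4, [], [4]), (4, [], [3])]),
  (2, 6, [(0, [0], [0, 1]), (0, [1], [0, 2]), (0, [1], [1, 3]), (0, [0], [4, 5]), (1, [], [2, 4]), (4, [], [3]), (4, [], [5])]),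
  (2, 6, [(0, [0], [0, 1]), (0, [0], [2, 3]), (0, [1], [0, 4]), (0, [1], [4, 5]), (1, [], [2, 5]), (4, [], [1]), (4, [], [3])]),
  (2, 6, [(0, [0], [0, 1]), (0, [1], [2, 3]), (0, [0], [2, 4]), (0, [1], [0, 5]), (1, [], [1, 3]), (4, [], [5]), (4, [], [4])]),
  (2, 6, [(0, [0], [0, 1]), (0, [0], [2, 3]), (0, [1], [2, 4]), (0, [1], [0, 5]), (1, [], [1, 3]), (4, [], [5]), (4, [], [4])]),
  (2, 6, [(0, [0], [0, 1]), (0, [1], [0, 2]), (0, [0], [2, 3]), (0, [1], [1, 4]), (1, [], [3, 5]), (4, [], [4]), (4, [], [5])]),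
  (2, 6, [(0, [0], [0, 1]), (0, [0], [2, 3]), (0, [1], [0, 4]), (0, [1], [4, 5]), (1, [], [1, 2]), (4, [], [3]), (4, [], [5])]),
  (2, 6, [(0, [0], [0, 1]), (0, [0], [2, 3]), (0, [1], [0, 4]), (0, [1], [2, 4]), (1, [], [1, 5]), (4, [], [3]), (4, [], [5])]),
  (2, 5, [(0, [0], [0, 1]), (0, [0], [2, 3]), (0, [1], [2, 4]), (0, [1], [0, 4]), (4, [], [3]), (4, [], [1])]),
  (2, 7, [(0, [0], [0, 1]), (0, [0], [0, 2]), (0, [1], [3, 2]), (4, [], [1]), (0, [1], [4, 5]), (1, [], [4, 6]), (1, [], [3, 6]), (4, [], [5])]),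
  (2, 7, [(0, [0], [0, 1]), (0, [0], [0, 2]), (0, [1], [3, 2]), (4, [], [1]), (0, [1], [4, 5]), (1, [], [4, 6]), (1, [], [3, 5]), (4, [], [6])]),
  (2, 7, [(0, [0], [0, 1]), (0, [0], [0, 2]), (0, [1], [3, 2]), (4, [], [1]), (0, [1], [3, 4]), (1, [], [5, 6]), (1, [], [4, 5]), (4, [], [6])]),
  (2, 6, [(0, [0], [0, 1]), (0, [0], [0, 2]), (0, [1], [3, 2]), (4, [], [1]), (0, [1], [3, 4]), (1, [], [4, 5]), (4, [], [5])]),
  (2, 7, [(0, [0], [0, 1]), (0, [0], [2, 3]), (0, [1], [0, 3]), (4, [], [1]), (0, [1], [4, 5]), (1, [], [4, 6]), (1, [], [2, 6]), (4, [], [5])]),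
  (2, 7, [(0, [0], [0, 1]), (0, [0], [2, 3]), (0, [1], [0, 3]), (4, [], [1]), (0, [1], [4, 5]), (1, [], [4, 6]), (1, [], [2, 5]), (4, [], [6])]),
  (2, 7, [(0, [0], [0, 1]), (0, [0], [2, 3]), (0, [1], [0, 3]), (4, [], [1]), (0, [1], [2, 4]), (1, [], [5, 6]), (1, [], [4, 5]), (4, [], [6])]),
  (2, 7, [(0, [0], [0, 1]), (0, [0], [2, 0]), (0, [1], [1, 3]), (4, [], [3]), (0, [1], [4, 5]), (1, [], [4, 6]), (1, [], [2, 5]), (4, [], [6])]),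
  (2, 7, [(0, [0], [0, 1]), (0, [0], [2, 0]), (0, [1], [1, 3]), (4, [], [3]), (0, [1], [2, 4]), (1, [], [5, 6]), (1, [], [4, 5]), (4, [], [6])]),
  (2, 7, [(0, [0], [0, 1]), (0, [0], [2, 0]), (0, [1], [3, 1]), (4, [], [4]), (0, [1], [5, 6]), (1, [], [2, 5]), (1, [], [3, 6]), (4, [], [4])]),
  (2, 7, [(0, [0], [0, 1]), (0, [0], [2, 0]), (0, [1], [3, 1]), (4, [], [4]), (0, [1], [5, 6]), (1, [], [2, 5]), (1, [], [3, 4]), (4, [], [6])]),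
  (2, 7, [(0, [0], [0, 1]), (0, [0], [2, 0]), (0, [1], [3, 1]), (4, [], [4]), (0, [1], [5, 6]), (1, [], [3, 5]), (1, [], [2, 4]), (4, [], [6])]),
  (2, 7, [(0, [0], [0, 1]), (0, [0], [2, 0]), (0, [1], [3, 1]), (4, [], [4]), (0, [1], [5, 6]), (1, [], [4, 5]), (1, [], [2, 3]), (4, [], [6])]),
  (2, 7, [(0, [0], [0, 1]), (0, [0], [2, 0]), (0, [1], [3, 1]), (4, [], [4]), (0, [1], [2, 5]), (1, [], [5, 6]), (1, [], [3, 6]), (4, [], [4])]),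
  (2, 7, [(0, [0], [0, 1]), (0, [0], [2, 0]), (0, [1], [3, 1]), (4, [], [4]), (0, [1], [2, 5]), (1, [], [5, 6]), (1, [], [3, 4]), (4, [], [6])]),
  (2, 7, [(0, [0], [0, 1]), (0, [0], [2, 0]), (0, [1], [3, 1]), (4, [], [4]), (0, [1], [4, 5]), (1, [], [2, 6]), (1, [], [3, 6]), (4, [], [5])]),
  (2, 7, [(0, [0], [0, 1]), (0, [0], [2, 0]), (0, [1], [3, 1]), (4, [], [4]), (0, [1], [2, 5]), (1, [], [4, 6]), (1, [], [3, 5]), (4, [], [6])]),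
  (2, 7, [(0, [0], [0, 1]), (0, [0], [2, 0]), (0, [1], [3, 1]), (4, [], [4]), (0, [1], [3, 5]), (1, [], [4, 6]), (1, [], [2, 5]), (4, [], [6])]),
  (2, 6, [(0, [0], [0, 1]), (0, [0], [2, 0]), (0, [1], [3, 1]), (4, [], [4]), (0, [1], [2, 5]), (1, [], [3, 5]), (4, [], [4])]),
  (2, 6, [(0, [0], [0, 1]), (0, [0], [2, 0]), (0, [1], [3, 1]), (4, [], [4]), (0, [1], [3, 5]), (1, [], [2, 5]), (4, [], [4])]),
  (2, 6, [(0, [0], [0, 1]), (0, [0], [2, 0]), (0, [1], [3, 1]), (4, [], [4]), (0, [1], [4, 5]), (1, [], [2, 3]), (4, [], [5])]),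
  (2, 7, [(0, [0], [0, 1]), (0, [0], [2, 0]), (0, [1], [3, 1]), (4, [], [4]), (0, [1], [2, 3]), (1, [], [5, 6]), (1, [], [4, 5]), (4, [], [6])]),
  (2, 6, [(0, [0], [0, 1]), (0, [0], [2, 0]), (0, [1], [3, 1]), (4, [], [4]), (0, [1], [2, 3]), (1, [], [4, 5]), (4, [], [5])]),
  (2, 5, [(0, [0], [0, 1]), (0, [0], [2, 0]), (0, [1], [3, 1]), (4, [], [4]), (0, [1], [2, 3]), (4, [], [4])]),
  (2, 7, [(0, [0], [0, 1]), (0, [0], [2, 0]), (0, [1], [3, 4]), (4, [], [1]), (0, [1], [5, 6]), (1, [], [2, 5]), (1, [], [3, 6]), (4, [], [4])]),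
  (2, 7, [(0, [0], [0, 1]), (0, [0], [2, 0]), (0, [1], [3, 4]), (4, [], [1]), (0, [1], [5, 6]), (1, [], [3, 5]), (1, [], [4, 6]), (4, [], [2])]),
  (2, 7, [(0, [0], [0, 1]), (0, [0], [2, 0]), (0, [1], [3, 4]), (4, [], [1]), (0, [1], [3, 5]), (1, [], [5, 6]), (1, [], [2, 6]), (4, [], [4])]),
  (2, 7, [(0, [0], [0, 1]), (0, [0], [2, 0]), (0, [1], [3, 4]), (4, [], [1]), (0, [1], [3, 5]), (1, [], [5, 6]), (1, [], [4, 6]), (4, [], [2])]),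
  (2, 7, [(0, [0], [0, 1]), (0, [0], [2, 0]), (0, [1], [3, 4]), (4, [], [1]), (0, [1], [3, 5]), (1, [], [5, 6]), (1, [], [2, 4]), (4, [], [6])]),
  (2, 7, [(0, [0], [0, 1]), (0, [0], [2, 3]), (0, [1], [4, 0]), (4, [], [1]), (0, [1], [5, 6]), (1, [], [2, 5]), (1, [], [3, 6]), (4, [], [4])]),
  (2, 7, [(0, [0], [0, 1]), (0, [0], [2, 3]), (0, [1], [4, 0]), (4, [], [1]), (0, [1], [5, 6]), (1, [], [2, 5]), (1, [], [4, 6]), (4, [], [3])]),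
  (2, 7, [(0, [0], [0, 1]), (0, [0], [2, 3]), (0, [1], [4, 0]), (4, [], [1]), (0, [1], [5, 6]), (1, [], [2, 5]), (1, [], [3, 4]), (4, [], [6])]),
  (2, 7, [(0, [0], [0, 1]), (0, [0], [2, 3]), (0, [1], [4, 0]), (4, [], [1]), (0, [1], [2, 5]), (1, [], [5, 6]), (1, [], [3, 6]), (4, [], [4])]),
  (2, 7, [(0, [0], [0, 1]), (0, [0], [2, 3]), (0, [1], [4, 0]), (4, [], [1]), (0, [1], [2, 5]), (1, [], [5, 6]), (1, [], [4, 6]), (4, [], [3])]),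
  (2, 7, [(0, [0], [0, 1]), (0, [0], [2, 3]), (0, [1], [4, 0]), (4, [], [1]), (0, [1], [2, 5]), (1, [], [5, 6]), (1, [], [3, 4]), (4, [], [6])]),
  (2, 7, [(0, [0], [0, 1]), (0, [0], [2, 3]), (0, [1], [4, 0]), (4, [], [1]), (0, [1], [2, 5]), (1, [], [3, 6]), (1, [], [4, 6]), (4, [], [5])]),
  (2, 7, [(0, [0], [0, 1]), (0, [0], [2, 3]), (0, [1], [4, 0]), (4, [], [1]), (0, [1], [2, 5]), (1, [], [3, 6]), (1, [], [4, 5]), (4, [], [6])]),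
  (2, 7, [(0, [0], [0, 1]), (0, [0], [2, 3]), (0, [1], [1, 3]), (4, [], [4]), (0, [1], [5, 6]), (1, [], [0, 5]), (1, [], [2, 6]), (4, [], [4])]),
  (2, 7, [(0, [0], [0, 1]), (0, [0], [2, 3]), (0, [1], [1, 3]), (4, [], [4]), (0, [1], [5, 6]), (1, [], [0, 5]), (1, [], [2, 4]), (4, [], [6])]),
  (2, 7, [(0, [0], [0, 1]), (0, [0], [2, 3]), (0, [1], [1, 3]), (4, [], [4]), (0, [1], [5, 6]), (1, [], [4, 5]), (1, [], [0, 2]), (4, [], [6])]),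
  (2, 7, [(0, [0], [0, 1]), (0, [0], [2, 3]), (0, [1], [1, 3]), (4, [], [4]), (0, [1], [0, 5]), (1, [], [5, 6]), (1, [], [2, 6]), (4, [], [4])]),
  (2, 7, [(0, [0], [0, 1]), (0, [0], [2, 3]), (0, [1], [1, 3]), (4, [], [4]), (0, [1], [0, 5]), (1, [], [5, 6]), (1, [], [2, 4]), (4, [], [6])]),
  (2, 7, [(0, [0], [0, 1]), (0, [0], [2, 3]), (0, [1], [1, 3]), (4, [], [4]), (0, [1], [4, 5]), (1, [], [0, 6]), (1, [], [2, 6]), (4, [], [5])]),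
  (2, 7, [(0, [0], [0, 1]), (0, [0], [2, 3]), (0, [1], [1, 3]), (4, [], [4]), (0, [1], [0, 5]), (1, [], [4, 6]), (1, [], [2, 5]), (4, [], [6])]),
  (2, 6, [(0, [0], [0, 1]), (0, [0], [2, 3]), (0, [1], [1, 3]), (4, [], [4]), (0, [1], [0, 5]), (1, [], [2, 5]), (4, [], [4])]),
  (2, 6, [(0, [0], [0, 1]), (0, [0], [2, 3]), (0, [1], [1, 3]), (4, [], [4]), (0, [1], [4, 5]), (1, [], [0, 2]), (4, [], [5])]),
  (2, 7, [(0, [0], [0, 1]), (0, [0], [2, 3]), (0, [1], [1, 3]), (4, [], [4]), (0, [1], [0, 2]), (1, [], [5, 6]), (1, [], [4, 5]), (4, [], [6])]),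
  (2, 6, [(0, [0], [0, 1]), (0, [0], [2, 3]), (0, [1], [1, 3]), (4, [], [4]), (0, [1], [0, 2]), (1, [], [4, 5]), (4, [], [5])]),
  (2, 5, [(0, [0], [0, 1]), (0, [0], [2, 3]), (0, [1], [1, 3]), (4, [], [4]), (0, [1], [0, 2]), (4, [], [4])]),
  (2, 7, [(0, [0], [0, 1]), (0, [0], [2, 3]), (0, [1], [4, 3]), (4, [], [1]), (0, [1], [5, 6]), (1, [], [2, 5]), (1, [], [4, 6]), (4, [], [0])]),
  (2, 7, [(0, [0], [0, 1]), (0, [0], [2, 3]), (0, [1], [4, 3]), (4, [], [1]), (0, [1], [5, 6]), (1, [], [2, 5]), (1, [], [0, 4]), (4, [], [6])]),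
  (2, 7, [(0, [0], [0, 1]), (0, [0], [2, 3]), (0, [1], [4, 3]), (4, [], [1]), (0, [1], [5, 6]), (1, [], [4, 5]), (1, [], [0, 2]), (4, [], [6])]),
  (2, 7, [(0, [0], [0, 1]), (0, [0], [2, 1]), (0, [1], [3, 4]), (4, [], [4]), (0, [1], [5, 6]), (1, [], [0, 5]), (1, [], [2, 6]), (4, [], [3])]),
  (2, 7, [(0, [0], [0, 1]), (0, [0], [2, 1]), (0, [1], [3, 4]), (4, [], [4]), (0, [1], [5, 6]), (1, [], [0, 5]), (1, [], [2, 3]), (4, [], [6])]),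
  (2, 7, [(0, [0], [0, 1]), (0, [0], [2, 1]), (0, [1], [3, 4]), (4, [], [5]), (0, [1], [3, 6]), (1, [], [0, 6]), (1, [], [2, 4]), (4, [], [5])]),
  (2, 7, [(0, [0], [0, 1]), (0, [0], [2, 3]), (0, [1], [4, 1]), (4, [], [5]), (0, [1], [2, 6]), (1, [], [0, 6]), (1, [], [3, 4]), (4, [], [5])]),
  (2, 7, [(0, [0], [0, 1]), (0, [0], [2, 3]), (0, [1], [4, 1]), (4, [], [5]), (0, [1], [2, 6]), (1, [], [4, 6]), (1, [], [0, 3]), (4, [], [5])])]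

def kl54 : List ℕ := [34, 84, 85, 86, 87, 88, 89, 90, 93, 114, 115, 117, 118, 128, 129, 131, 146, 150, 227, 228, 229, 230, 231, 233, 235, 236, 237, 238, 239, 240, 245, 246, 247, 255, 256, 257, 258, 259, 290, 291, 292, 293, 294, 295, 296, 297, 305, 306, 307, 308, 309, 310, 311, 312, 313, 317, 318, 319, 324, 326, 327, 333, 334, 422, 431, 433]

def m54_0 : Base := (0, 2, [(0, [0], [3, 4]), (0, [1], [0, 3]), (1, [], [1, 4]), (4, [], [2])])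

def l54_0 : Cov := [(12, 0, 2, [(0, [0], [3, 4]), (0, [1], [0, 3]), (1, [], [1, 4]), (4, [], [2])]),
  (-12, 0, 2, [(0, [0], [3, 4]), (0, [1], [0, 3]), (1, [], [2, 4]), (4, [], [1])]),
  (-12, 0, 2, [(0, [0], [3, 4]), (0, [1], [1, 3]), (1, [], [0, 4]), (4, [], [2])]),
  (12, 0, 2, [(0, [0], [3, 4]), (0, [1], [1, 3]), (1, [], [2, 4]), (4, [], [0])]),
  (12, 0, 2, [(0, [0], [3, 4]), (0, [1], [2, 3]), (1, [], [0, 4]), (4, [], [1])]),
  (-12, 0, 2, [(0, [0], [3, 4]), (0, [1], [2, 3]), (1, [], [1, 4]), (4, [], [0])]),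
  (-12, 0, 2, [(0, [1], [3, 4]), (0, [0], [0, 3]), (1, [], [1, 4]), (4, [], [2])]),
  (12, 0, 2, [(0, [1], [3, 4]), (0, [0], [0, 3]), (1, [], [2, 4]), (4, [], [1])]),
  (12, 0, 2, [(0, [1], [3, 4]), (0, [0], [1, 3]), (1, [], [0, 4]), (4, [], [2])]),
  (-12, 0, 2, [(0, [1], [3, 4]), (0, [0], [1, 3]), (1, [], [2, 4]), (4, [], [0])]),
  (-12, 0, 2, [(0, [1], [3, 4]), (0, [0], [2, 3]), (1, [], [0, 4]), (4, [], [1])]),
  (12, 0, 2, [(0, [1], [3, 4]), (0, [0], [2, 3]), (1, [], [1, 4]), (4, [], [0])])]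

def z54_0 : Cov := []

def w54_0 : List (List Wit) := [[(0, 0, 0, 16, 16), (1, 0, 0, 16, 16), (2, 0, 0, 16, 16), (3, 0, 0, 16, 16), (4, 0, 0, 16, 16), (5, 0, 0, 16, 16)],
  [(6, 0, 0, 16, 16), (7, 0, 0, 16, 16), (8, 0, 0, 16, 16), (9, 0, 0, 16, 16), (10, 0, 0, 16, 16), (11, 0, 0, 16, 16)]]

def m54_1 : Base := (0, 2, [(0, [0], [0, 3]), (0, [1], [1, 4]), (1, [], [3, 4]), (4, [], [2])])

def l54_1 : Cov := [(24, 0, 2, [(0, [0], [0, 3]), (0, [1], [1, 4]), (1, [], [3, 4]), (4, [], [2])]),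
  (-24, 0, 2, [(0, [0], [0, 3]), (0, [1], [2, 4]), (1, [], [3, 4]), (4, [], [1])]),
  (-24, 0, 2, [(0, [0], [1, 3]), (0, [1], [0, 4]), (1, [], [3, 4]), (4, [], [2])]),
  (24, 0, 2, [(0, [0], [1, 3]), (0, [1], [2, 4]), (1, [], [3, 4]), (4, [], [0])]),
  (24, 0, 2, [(0, [0], [2, 3]), (0, [1], [0, 4]), (1, [], [3, 4]), (4, [], [1])]),
  (-24, 0, 2, [(0, [0], [2, 3]), (0, [1], [1, 4]), (1, [], [3, 4]), (4, [], [0])])]

def z54_1 : Cov := []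

def w54_1 : List (List Wit) := [[(0, 0, 0, 16, 16), (1, 0, 0, 16, 16), (2, 0, 0, 16, 16), (3, 0, 0, 16, 16), (4, 0, 0, 16, 16), (5, 0, 0, 16, 16)],
  [(2, 0, 0, 1, 1), (4, 0, 0, 1, 1), (0, 0, 0, 1, 1), (5, 0, 0, 1, 1), (1, 0, 0, 1, 1), (3, 0, 0, 1, 1)]]

def m54_2 : Base := (0, 2, [(0, [0], [0, 3]), (0, [1], [1, 4]), (1, [], [2, 4]), (4, [], [3])])

def l54_2 : Cov := [(12, 0, 2, [(0, [0], [0, 3]), (0, [1], [1, 4]), (1, [], [2, 4]), (4, [], [3])]),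
  (-12, 0, 2, [(0, [0], [0, 3]), (0, [1], [2, 4]), (1, [], [1, 4]), (4, [], [3])]),
  (-12, 0, 2, [(0, [0], [1, 3]), (0, [1], [0, 4]), (1, [], [2, 4]), (4, [], [3])]),
  (12, 0, 2, [(0, [0], [1, 3]), (0, [1], [2, 4]), (1, [], [0, 4]), (4, [], [3])]),
  (12, 0, 2, [(0, [0], [2, 3]), (0, [1], [0, 4]), (1, [], [1, 4]), (4, [], [3])]),
  (-12, 0, 2, [(0, [0], [2, 3]), (0, [1], [1, 4]), (1, [], [0, 4]), (4, [], [3])]),
  (-12, 0, 2, [(0, [1], [0, 3]), (0, [0], [1, 4]), (1, [], [2, 4]), (4, [], [3])]),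
  (12, 0, 2, [(0, [1], [0, 3]), (0, [0], [2, 4]), (1, [], [1, 4]), (4, [], [3])]),
  (12, 0, 2, [(0, [1], [1, 3]), (0, [0], [0, 4]), (1, [], [2, 4]), (4, [], [3])]),
  (-12, 0, 2, [(0, [1], [1, 3]), (0, [0], [2, 4]), (1, [], [0, 4]), (4, [], [3])]),
  (-12, 0, 2, [(0, [1], [2, 3]), (0, [0], [0, 4]), (1, [], [1, 4]), (4, [], [3])]),
  (12, 0, 2, [(0, [1], [2, 3]), (0, [0], [1, 4]), (1, [], [0, 4]), (4, [], [3])])]

def z54_2 : Cov := []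

def w54_2 : List (List Wit) := [[(0, 0, 0, 16, 16), (1, 0, 0, 16, 16), (2, 0, 0, 16, 16), (3, 0, 0, 16, 16), (4, 0, 0, 16, 16), (5, 0, 0, 16, 16)],
  [(6, 0, 0, 16, 16), (7, 0, 0, 16, 16), (8, 0, 0, 16, 16), (9, 0, 0, 16, 16), (10, 0, 0, 16, 16), (11, 0, 0, 16, 16)]]

def m54_3 : Base := (0, 2, [(0, [0], [0, 3]), (0, [1], [1, 3]), (1, [], [2, 4]), (4, [], [4])])

def l54_3 : Cov := [(24, 0, 2, [(0, [0], [0, 3]), (0, [1], [1, 3]), (1, [], [2, 4]), (4, [], [4])]),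
  (-24, 0, 2, [(0, [0], [0, 3]), (0, [1], [2, 3]), (1, [], [1, 4]), (4, [], [4])]),
  (-24, 0, 2, [(0, [0], [1, 3]), (0, [1], [0, 3]), (1, [], [2, 4]), (4, [], [4])]),
  (24, 0, 2, [(0, [0], [1, 3]), (0, [1], [2, 3]), (1, [], [0, 4]), (4, [], [4])]),
  (24, 0, 2, [(0, [0], [2, 3]), (0, [1], [0, 3]), (1, [], [1, 4]), (4, [], [4])]),
  (-24, 0, 2, [(0, [0], [2, 3]), (0, [1], [1, 3]), (1, [], [0, 4]), (4, [], [4])])]

def z54_3 : Cov := []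

def w54_3 : List (List Wit) := [[(0, 0, 0, 16, 16), (1, 0, 0, 16, 16), (2, 0, 0, 16, 16), (3, 0, 0, 16, 16), (4, 0, 0, 16, 16), (5, 0, 0, 16, 16)],
  [(2, 0, 0, 16, 16), (4, 0, 0, 16, 16), (0, 0, 0, 16, 16), (5, 0, 0, 16, 16), (1, 0, 0, 16, 16), (3, 0, 0, 16, 16)]]

def m54_4 : Base := (0, 1, [(0, [0], [0, 3]), (0, [1], [1, 3]), (4, [], [2])])

def l54_4 : Cov := [(24, 0, 1, [(0, [0], [0, 3]), (0, [1], [1, 3]), (4, [], [2])]),
  (-24, 0, 1, [(0, [0], [0, 3]), (0, [1], [2, 3]), (4, [], [1])]),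
  (-24, 0, 1, [(0, [0], [1, 3]), (0, [1], [0, 3]), (4, [], [2])]),
  (24, 0, 1, [(0, [0], [1, 3]), (0, [1], [2, 3]), (4, [], [0])]),
  (24, 0, 1, [(0, [0], [2, 3]), (0, [1], [0, 3]), (4, [], [1])]),
  (-24, 0, 1, [(0, [0], [2, 3]), (0, [1], [1, 3]), (4, [], [0])])]

def z54_4 : Cov := []

def w54_4 : List (List Wit) := [[(0, 0, 0, 0, 0), (1, 0, 0, 0, 0), (2, 0, 0, 0, 0), (3, 0, 0, 0, 0), (4, 0, 0, 0, 0), (5, 0, 0, 0, 0)],
  [(2, 0, 0, 0, 0), (4, 0, 0, 0, 0), (0, 0, 0, 0, 0), (5, 0, 0, 0, 0), (1, 0, 0, 0, 0), (3, 0, 0, 0, 0)]]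

theorem tr54 : trK keys lk54 kl54 = true := by
  decide +kernel

theorem x54_0 : expB 2 3 dg12 dg3 m54_0 (l54_0 ++ z54_0) w54_0 = true := by
  decide +kernel

theorem x54_1 : expB 2 3 dg12 dg3 m54_1 (l54_1 ++ z54_1) w54_1 = true := by
  decide +kernel

theorem x54_2 : expB 2 3 dg12 dg3 m54_2 (l54_2 ++ z54_2) w54_2 = true := by
  decide +kernel

theorem x54_3 : expB 2 3 dg12 dg3 m54_3 (l54_3 ++ z54_3) w54_3 = true := by
  decide +kernel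

theorem x54_4 : expB 2 3 dg12 dg3 m54_4 (l54_4 ++ z54_4) w54_4 = true := by
  decide +kernel

theorem t54_0_0 : chkS lk54 2 3 [(1, m54_0)] l54_0
  [(22, 1, 1, 86185056, 23217456), (23, 1, 1, 86185536, 39929136), (64, 16, 16, 52434276, 18900276), (43, 1, 1, 86246961, 40113411), (43, 1, 1, 67445091, 21365541), (42, 1, 1, 86246241, 23340291), (49, 1, 1, 37028961, 21124611), (50, 1, 1, 37028961, 21124611), (65, 16, 16, 102765876, 102765876), (45, 1, 1, 52692561, 34891011), (45, 16, 16, 67314021, 17187621), (44, 1, 1, 52692321, 19162371)]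
  [(22, 12), (23, -12), (42, -12), (43, 24), (44, 12), (45, -24), (49, -12), (50, 12), (64, -12), (65, 12)] = true := by
  decide +kernel

theorem t54_0_1 : chkS lk54 2 3 [(1, m54_0)] l54_1
  [(46, 16, 16, 102765651, 101844276), (47, 16, 16, 84031041, 39924741), (18, 1, 1, 38999136, 22169136), (39, 1, 1, 39060321, 22291971), (19, 1, 1, 38999616, 38880816), (40, 1, 1, 39061041, 39065091)]
  [(18, -24), (19, 24), (39, 24), (40, -24), (46, 24), (47, -24)] = true := by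
  decide +kernel

theorem t54_0_2 : chkS lk54 2 3 [(1, m54_0)] l54_2
  [(14, 16, 16, 68302416, 35009616), (13, 16, 16, 68302176, 19280976), (20, 1, 1, 40047696, 85083696), (60, 16, 16, 85079556, 39859281), (24, 1, 1, 38999136, 22169136), (58, 16, 16, 101855316, 101725266), (10, 1, 1, 68363856, 35013456), (9, 1, 1, 68363616, 19284816), (47, 16, 16, 39851091, 85067316), (59, 1, 1, 85210626, 40120401), (51, 16, 16, 38802531, 22152756), (58, 1, 1, 85209186, 23343186)]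
  [(9, 12), (10, -12), (13, -12), (14, 12), (20, -12), (24, 12), (47, 12), (51, -12), (59, -12), (60, 12)] = true := by
  decide +kernel

theorem t54_0_3 : chkS lk54 2 3 [(1, m54_0)] l54_3
  [(52, 1, 1, 104137761, 105009411), (15, 1, 1, 100933971, 101974821), (25, 1, 1, 102962256, 101860656), (45, 1, 1, 100999491, 104923941), (17, 1, 1, 101983056, 101983056), (43, 16, 16, 100868421, 100746021)]
  [(15, -24), (17, 24), (25, -24), (43, -24), (45, 24), (52, 24)] = true := by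
  decide +kernel

theorem t54_0_4 : chkS lk54 2 3 [(1, m54_0)] l54_4
  [(53, 1, 1, 3474465, 4346115), (5, 16, 16, 1254480, 1196880), (27, 1, 1, 2298960, 1197360), (4, 16, 16, 2163765, 136515), (7, 16, 16, 2163540, 1058115), (3, 16, 16, 2163765, 136515)]
  [(3, -24), (4, 24), (5, -24), (7, 24), (27, -24), (53, 24)] = true := by
  decide +kernel

theorem t54_1_1 : chkS lk54 2 3 [(1, m54_1)] l54_1
  [(63, 16, 16, 69600561, 69604611), (62, 16, 16, 52757601, 21128451), (64, 16, 16, 70649121, 69619971), (59, 16, 16, 86246961, 40113411), (59, 1, 1, 38815251, 38995476), (62, 1, 1, 36721686, 3298836)]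
  [(59, 48), (62, -48), (63, 24), (64, -24)] = true := by
  decide +kernel

theorem t54_1_2 : chkS lk54 2 3 [(1, m54_1)] l54_2
  [(37, 16, 16, 85206576, 40112976), (33, 16, 16, 51717216, 21128016), (43, 16, 16, 85210626, 40120401), (40, 16, 16, 85210626, 40120401), (58, 16, 16, 68493411, 21365586), (61, 1, 1, 37770006, 3483156), (43, 1, 1, 85149216, 40059216), (40, 1, 1, 85149216, 40059216), (37, 1, 1, 85083651, 40043601), (33, 1, 1, 51532806, 3302481), (61, 16, 16, 38077281, 21308931), (58, 1, 1, 68309046, 3544146)]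
  [(33, -24), (37, 24), (40, 24), (43, -24), (58, 24), (61, -24)] = true := by
  decide +kernel

theorem t54_1_3 : chkS lk54 2 3 [(1, m54_1)] l54_3
  [(26, 16, 16, 102048816, 104993616), (16, 16, 16, 102048576, 104932176), (52, 16, 16, 102048771, 104989521), (14, 1, 1, 100815156, 103814181), (14, 16, 16, 100999491, 104923941), (16, 1, 1, 101864196, 103818321)]
  [(14, 48), (16, -48), (26, 24), (52, -24)] = true := by
  decide +kernel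

theorem t54_1_4 : chkS lk54 2 3 [(1, m54_1)] l54_4
  [(28, 16, 16, 1385520, 4330320), (2, 1, 1, 151860, 3150885), (53, 16, 16, 1385475, 4326225), (1, 16, 16, 1196805, 205905), (1, 1, 1, 1319760, 1319760), (2, 16, 16, 336195, 4260645)]
  [(1, 48), (2, -48), (28, 24), (53, -24)] = true := by
  decide +kernel

theorem t54_2_2 : chkS lk54 2 3 [(1, m54_2)] l54_2
  [(36, 16, 16, 86251056, 40113456), (34, 16, 16, 86251056, 40113456), (42, 16, 16, 70587936, 38162736), (39, 16, 16, 85210626, 40120401), (39, 16, 16, 70586976, 21385776), (62, 1, 1, 39863571, 86181396), (41, 16, 16, 54859296, 38101296), (38, 16, 16, 54858336, 21324336), (35, 16, 16, 38082096, 38082096), (33, 1, 1, 101860611, 102958161), (33, 16, 16, 38146896, 68494896), (60, 16, 16, 40113456, 86251056)]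
  [(33, -24), (34, -12), (35, 12), (36, 12), (38, 12), (39, 24), (41, -12), (42, -12), (60, 12), (62, -12)] = true := by
  decide +kernel

theorem t54_2_3 : chkS lk54 2 3 [(1, m54_2)] l54_3
  [(11, 16, 16, 103028016, 103028016), (10, 16, 16, 103093056, 104932656), (15, 16, 16, 104076576, 103043376), (48, 1, 1, 70279701, 50745876), (14, 16, 16, 104141376, 104944176), (21, 1, 1, 68313861, 50734161)]
  [(10, -24), (11, 24), (14, 24), (15, -24), (21, -24), (48, 24)] = true := by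
  decide +kernel

theorem t54_2_4 : chkS lk54 2 3 [(1, m54_2)] l54_4
  [(12, 16, 16, 2364720, 2364720), (6, 1, 1, 151860, 3150885), (5, 1, 1, 214305, 2310405), (54, 1, 1, 3166740, 3166740), (1, 1, 1, 275025, 1323525), (29, 1, 1, 1200900, 3155025)]
  [(1, 24), (5, -24), (6, -24), (12, 24), (29, -24), (54, 24)] = true := by
  decide +kernel

theorem t54_3_3 : chkS lk54 2 3 [(1, m54_3)] l54_3
  [(30, 16, 16, 103028016, 103028016), (23, 16, 16, 69604656, 69604656), (55, 16, 16, 103028016, 103028016), (50, 1, 1, 104071701, 100946451), (50, 16, 16, 104071761, 101995011), (23, 1, 1, 69604611, 69600561)]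
  [(23, -48), (30, 24), (50, 48), (55, -24)] = true := by
  decide +kernel

theorem t54_3_4 : chkS lk54 2 3 [(1, m54_3)] l54_4
  [(31, 16, 16, 2364720, 2364720), (7, 1, 1, 336180, 4199205), (56, 16, 16, 2364720, 2364720), (5, 1, 1, 2429700, 4203825), (5, 16, 16, 2429760, 4269360), (7, 16, 16, 336195, 4260645)]
  [(5, 48), (7, -48), (31, 24), (56, -24)] = true := by
  decide +kernel

theorem t54_4_4 : chkS lk54 2 3 [(1, m54_4)] l54_4
  [(32, 16, 16, 136240, 136240), (8, 1, 1, 131860, 9235), (57, 16, 16, 136240, 136240), (0, 1, 1, 135940, 9265), (0, 16, 16, 136000, 74800), (8, 16, 16, 131905, 74755)]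
  [(0, 48), (8, -48), (32, 24), (57, -24)] = true := by
  decide +kernel

section

variable {κ ι : Type*} [Fintype κ] [Fintype ι] [Inhabited κ] [Inhabited ι]

noncomputable def F54_0 (E : Env κ ι) : (Fin 2 → κ) → (Fin 3 → ι) → ℝ := op2 (P12 κ) (P3 ι) (fB E 2 3 m54_0)

noncomputable def F54_1 (E : Env κ ι) : (Fin 2 → κ) → (Fin 3 → ι) → ℝ := op2 (P12 κ) (P3 ι) (fB E 2 3 m54_1)

noncomputable def F54_2 (E : Env κ ι) : (Fin 2 → κ) → (Fin 3 → ι) → ℝ := op2 (P12 κ) (P3 ι) (fB E 2 3 m54_2)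

noncomputable def F54_3 (E : Env κ ι) : (Fin 2 → κ) → (Fin 3 → ι) → ℝ := op2 (P12 κ) (P3 ι) (fB E 2 3 m54_3)

noncomputable def F54_4 (E : Env κ ι) : (Fin 2 → κ) → (Fin 3 → ι) → ℝ := op2 (P12 κ) (P3 ι) (fB E 2 3 m54_4)

def r54_0_0 : List (ℕ × ℤ) := [(22, 12), (23, -12), (42, -12), (43, 24), (44, 12), (45, -24), (49, -12), (50, 12), (64, -12), (65, 12)]

theorem h54_0_0 (E : Env κ ι) : ip (F54_0 E) (F54_0 E) = dotS (ek E lk54) r54_0_0 :=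
  op_entryZ E lk54 2 3 _ _ _ _ (pg12 κ) (pg3 ι) m54_0 m54_0 l54_0 z54_0 w54_0 x54_0 (by decide) _ (chkS_sound E lk54 2 3 _ _ _ _ t54_0_0)

def r54_0_1 : List (ℕ × ℤ) := [(18, -24), (19, 24), (39, 24), (40, -24), (46, 24), (47, -24)]

theorem h54_0_1 (E : Env κ ι) : ip (F54_0 E) (F54_1 E) = dotS (ek E lk54) r54_0_1 :=
  op_entryZ E lk54 2 3 _ _ _ _ (pg12 κ) (pg3 ι) m54_0 m54_1 l54_1 z54_1 w54_1 x54_1 (by decide) _ (chkS_sound E lk54 2 3 _ _ _ _ t54_0_1)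

def r54_0_2 : List (ℕ × ℤ) := [(9, 12), (10, -12), (13, -12), (14, 12), (20, -12), (24, 12), (47, 12), (51, -12), (59, -12), (60, 12)]

theorem h54_0_2 (E : Env κ ι) : ip (F54_0 E) (F54_2 E) = dotS (ek E lk54) r54_0_2 :=
  op_entryZ E lk54 2 3 _ _ _ _ (pg12 κ) (pg3 ι) m54_0 m54_2 l54_2 z54_2 w54_2 x54_2 (by decide) _ (chkS_sound E lk54 2 3 _ _ _ _ t54_0_2)

def r54_0_3 : List (ℕ × ℤ) := [(15, -24), (17, 24), (25, -24), (43, -24), (45, 24), (52, 24)]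

theorem h54_0_3 (E : Env κ ι) : ip (F54_0 E) (F54_3 E) = dotS (ek E lk54) r54_0_3 :=
  op_entryZ E lk54 2 3 _ _ _ _ (pg12 κ) (pg3 ι) m54_0 m54_3 l54_3 z54_3 w54_3 x54_3 (by decide) _ (chkS_sound E lk54 2 3 _ _ _ _ t54_0_3)

def r54_0_4 : List (ℕ × ℤ) := [(3, -24), (4, 24), (5, -24), (7, 24), (27, -24), (53, 24)]

theorem h54_0_4 (E : Env κ ι) : ip (F54_0 E) (F54_4 E) = dotS (ek E lk54) r54_0_4 :=
  op_entryZ E lk54 2 3 _ _ _ _ (pg12 κ) (pg3 ι) m54_0 m54_4 l54_4 z54_4 w54_4 x54_4 (by decide) _ (chkS_sound E lk54 2 3 _ _ _ _ t54_0_4)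

def r54_1_1 : List (ℕ × ℤ) := [(59, 48), (62, -48), (63, 24), (64, -24)]

theorem h54_1_1 (E : Env κ ι) : ip (F54_1 E) (F54_1 E) = dotS (ek E lk54) r54_1_1 :=
  op_entryZ E lk54 2 3 _ _ _ _ (pg12 κ) (pg3 ι) m54_1 m54_1 l54_1 z54_1 w54_1 x54_1 (by decide) _ (chkS_sound E lk54 2 3 _ _ _ _ t54_1_1)

def r54_1_2 : List (ℕ × ℤ) := [(33, -24), (37, 24), (40, 24), (43, -24), (58, 24), (61, -24)]

theorem h54_1_2 (E : Env κ ι) : ip (F54_1 E) (F54_2 E) = dotS (ek E lk54) r54_1_2 :=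
  op_entryZ E lk54 2 3 _ _ _ _ (pg12 κ) (pg3 ι) m54_1 m54_2 l54_2 z54_2 w54_2 x54_2 (by decide) _ (chkS_sound E lk54 2 3 _ _ _ _ t54_1_2)

def r54_1_3 : List (ℕ × ℤ) := [(14, 48), (16, -48), (26, 24), (52, -24)]

theorem h54_1_3 (E : Env κ ι) : ip (F54_1 E) (F54_3 E) = dotS (ek E lk54) r54_1_3 :=
  op_entryZ E lk54 2 3 _ _ _ _ (pg12 κ) (pg3 ι) m54_1 m54_3 l54_3 z54_3 w54_3 x54_3 (by decide) _ (chkS_sound E lk54 2 3 _ _ _ _ t54_1_3)

def r54_1_4 : List (ℕ × ℤ) := [(1, 48), (2, -48), (28, 24), (53, -24)]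

theorem h54_1_4 (E : Env κ ι) : ip (F54_1 E) (F54_4 E) = dotS (ek E lk54) r54_1_4 :=
  op_entryZ E lk54 2 3 _ _ _ _ (pg12 κ) (pg3 ι) m54_1 m54_4 l54_4 z54_4 w54_4 x54_4 (by decide) _ (chkS_sound E lk54 2 3 _ _ _ _ t54_1_4)

def r54_2_2 : List (ℕ × ℤ) := [(33, -24), (34, -12), (35, 12), (36, 12), (38, 12), (39, 24), (41, -12), (42, -12), (60, 12), (62, -12)]

theorem h54_2_2 (E : Env κ ι) : ip (F54_2 E) (F54_2 E) = dotS (ek E lk54) r54_2_2 :=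
  op_entryZ E lk54 2 3 _ _ _ _ (pg12 κ) (pg3 ι) m54_2 m54_2 l54_2 z54_2 w54_2 x54_2 (by decide) _ (chkS_sound E lk54 2 3 _ _ _ _ t54_2_2)

def r54_2_3 : List (ℕ × ℤ) := [(10, -24), (11, 24), (14, 24), (15, -24), (21, -24), (48, 24)]

theorem h54_2_3 (E : Env κ ι) : ip (F54_2 E) (F54_3 E) = dotS (ek E lk54) r54_2_3 :=
  op_entryZ E lk54 2 3 _ _ _ _ (pg12 κ) (pg3 ι) m54_2 m54_3 l54_3 z54_3 w54_3 x54_3 (by decide) _ (chkS_sound E lk54 2 3 _ _ _ _ t54_2_3)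

def r54_2_4 : List (ℕ × ℤ) := [(1, 24), (5, -24), (6, -24), (12, 24), (29, -24), (54, 24)]

theorem h54_2_4 (E : Env κ ι) : ip (F54_2 E) (F54_4 E) = dotS (ek E lk54) r54_2_4 :=
  op_entryZ E lk54 2 3 _ _ _ _ (pg12 κ) (pg3 ι) m54_2 m54_4 l54_4 z54_4 w54_4 x54_4 (by decide) _ (chkS_sound E lk54 2 3 _ _ _ _ t54_2_4)

def r54_3_3 : List (ℕ × ℤ) := [(23, -48), (30, 24), (50, 48), (55, -24)]

theorem h54_3_3 (E : Env κ ι) : ip (F54_3 E) (F54_3 E) = dotS (ek E lk54) r54_3_3 :=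
  op_entryZ E lk54 2 3 _ _ _ _ (pg12 κ) (pg3 ι) m54_3 m54_3 l54_3 z54_3 w54_3 x54_3 (by decide) _ (chkS_sound E lk54 2 3 _ _ _ _ t54_3_3)

def r54_3_4 : List (ℕ × ℤ) := [(5, 48), (7, -48), (31, 24), (56, -24)]

theorem h54_3_4 (E : Env κ ι) : ip (F54_3 E) (F54_4 E) = dotS (ek E lk54) r54_3_4 :=
  op_entryZ E lk54 2 3 _ _ _ _ (pg12 κ) (pg3 ι) m54_3 m54_4 l54_4 z54_4 w54_4 x54_4 (by decide) _ (chkS_sound E lk54 2 3 _ _ _ _ t54_3_4)

def r54_4_4 : List (ℕ × ℤ) := [(0, 48), (8, -48), (32, 24), (57, -24)]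

theorem h54_4_4 (E : Env κ ι) : ip (F54_4 E) (F54_4 E) = dotS (ek E lk54) r54_4_4 :=
  op_entryZ E lk54 2 3 _ _ _ _ (pg12 κ) (pg3 ι) m54_4 m54_4 l54_4 z54_4 w54_4 x54_4 (by decide) _ (chkS_sound E lk54 2 3 _ _ _ _ t54_4_4)

theorem row54_0 (E : Env κ ι) : RowG (ek E lk54) (F54_0 E) [F54_0 E, F54_1 E, F54_2 E, F54_3 E, F54_4 E] [r54_0_0, r54_0_1, r54_0_2, r54_0_3, r54_0_4] :=
  rowG_cons _ _ _ _ _ _ (h54_0_0 E) (rowG_cons _ _ _ _ _ _ (h54_0_1 E) (rowG_cons _ _ _ _ _ _ (h54_0_2 E) (rowG_cons _ _ _ _ _ _ (h54_0_3 E) (rowG_cons _ _ _ _ _ _ (h54_0_4 E) (rowG_nil _ _)))))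

theorem row54_1 (E : Env κ ι) : RowG (ek E lk54) (F54_1 E) [F54_1 E, F54_2 E, F54_3 E, F54_4 E] [r54_1_1, r54_1_2, r54_1_3, r54_1_4] :=
  rowG_cons _ _ _ _ _ _ (h54_1_1 E) (rowG_cons _ _ _ _ _ _ (h54_1_2 E) (rowG_cons _ _ _ _ _ _ (h54_1_3 E) (rowG_cons _ _ _ _ _ _ (h54_1_4 E) (rowG_nil _ _))))

theorem row54_2 (E : Env κ ι) : RowG (ek E lk54) (F54_2 E) [F54_2 E, F54_3 E, F54_4 E] [r54_2_2, r54_2_3, r54_2_4] :=
  rowG_cons _ _ _ _ _ _ (h54_2_2 E) (rowG_cons _ _ _ _ _ _ (h54_2_3 E) (rowG_cons _ _ _ _ _ _ (h54_2_4 E) (rowG_nil _ _)))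

theorem row54_3 (E : Env κ ι) : RowG (ek E lk54) (F54_3 E) [F54_3 E, F54_4 E] [r54_3_3, r54_3_4] :=
  rowG_cons _ _ _ _ _ _ (h54_3_3 E) (rowG_cons _ _ _ _ _ _ (h54_3_4 E) (rowG_nil _ _))

theorem row54_4 (E : Env κ ι) : RowG (ek E lk54) (F54_4 E) [F54_4 E] [r54_4_4] :=
  rowG_cons _ _ _ _ _ _ (h54_4_4 E) (rowG_nil _ _)

def tab54 : List (List (List (ℕ × ℤ))) := [[r54_0_0, r54_0_1, r54_0_2, r54_0_3, r54_0_4], [r54_1_1, r54_1_2, r54_1_3, r54_1_4], [r54_2_2, r54_2_3, r54_2_4], [r54_3_3, r54_3_4], [r54_4_4]]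

theorem tri54 (E : Env κ ι) : TriG (ek E lk54) [F54_0 E, F54_1 E, F54_2 E, F54_3 E, F54_4 E] tab54 := by
  refine triG_cons _ _ _ _ _ (row54_0 E) ?_
  refine triG_cons _ _ _ _ _ (row54_1 E) ?_
  refine triG_cons _ _ _ _ _ (row54_2 E) ?_
  refine triG_cons _ _ _ _ _ (row54_3 E) ?_
  refine triG_cons _ _ _ _ _ (row54_4 E) ?_
  exact triG_nil _

end

end YMBG
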