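import Pool.Agent.YM.BG.Ga0
import Pool.Agent.YM.BG.Ga1

set_option linter.unusedVariables false
set_option maxRecDepth 100000

open YMEng

namespace YMBG

def lk55 : List Key := [
  (2, 5, [(0, [0], [0, 1]), (0, [0], [0, 1]), (0, [1], [2, 3]), (0, [1], [2, 4]), (4, [], [4]), (4, [], [3])]),
  (2, 5, [(0, [0], [0, 1]), (0, [1], [0, 2]), (0, [1], [3, 4]), (0, [0], [3, 4]), (4, [], [2]), (4, [], [1])]),
  (2, 5, [(0, [0], [0, 1]), (0, [1], [2, 3]), (2, [1], [2, 3, 4]), (2, [0], [0, 1, 4])]),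
  (2, 6, [(0, [0], [0, 1]), (0, [0], [0, 1]), (0, [1], [2, 3]), (1, [], [4, 5]), (2, [1], [2, 3, 4]), (4, [], [5])]),
  (2, 7, [(0, [0], [0, 1]), (0, [0], [0, 1]), (0, [1], [2, 3]), (0, [1], [2, 3]), (1, [], [4, 5]), (1, [], [4, 6]), (4, [], [6]), (4, [], [5])]),
  (2, 7, [(0, [0], [0, 1]), (0, [1], [0, 2]), (0, [1], [3, 4]), (0, [0], [5, 6]), (1, [], [5, 6]), (1, [], [3, 4]), (4, [], [2]), (4, [], [1])]),
  (2, 5, [(0, [0], [0, 1]), (0, [0], [0, 1]), (2, [1], [2, 3, 4]), (2, [1], [2, 3, 4])]),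
  (2, 7, [(0, [0], [0, 1]), (0, [0], [0, 1]), (0, [1], [2, 3]), (0, [1], [2, 4]), (4, [], [4]), (4, [], [3]), (1, [], [5, 6]), (1, [], [5, 6])]),
  (2, 6, [(0, [0], [0, 1]), (0, [0], [2, 3]), (0, [1], [4, 5]), (1, [], [2, 3]), (2, [1], [0, 4, 5]), (4, [], [1])]),
  (2, 7, [(0, [0], [0, 1]), (0, [0], [0, 1]), (0, [1], [2, 3]), (0, [1], [4, 5]), (1, [], [2, 6]), (1, [], [4, 5]), (4, [], [3]), (4, [], [6])]),
  (2, 7, [(0, [0], [0, 1]), (0, [1], [0, 2]), (0, [1], [3, 4]), (0, [0], [3, 4]), (4, [], [2]), (4, [], [1]), (1, [], [5, 6]), (1, [], [5, 6])]),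
  (2, 6, [(0, [0], [0, 1]), (0, [0], [0, 1]), (0, [1], [2, 3]), (1, [], [4, 5]), (2, [1], [2, 4, 5]), (4, [], [3])]),
  (2, 5, [(0, [0], [0, 1]), (0, [1], [0, 2]), (0, [1], [2, 3]), (0, [0], [1, 4]), (4, [], [4]), (4, [], [3])]),
  (2, 5, [(0, [0], [0, 1]), (0, [0], [2, 3]), (2, [1], [2, 3, 4]), (2, [1], [0, 1, 4])]),
  (2, 6, [(0, [0], [0, 1]), (0, [0], [2, 3]), (0, [1], [4, 5]), (1, [], [0, 1]), (2, [1], [2, 3, 4]), (4, [], [5])]),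
  (2, 6, [(0, [0], [0, 1]), (0, [0], [2, 3]), (0, [1], [4, 5]), (1, [], [0, 4]), (2, [1], [2, 3, 5]), (4, [], [1])]),
  (2, 7, [(0, [0], [0, 1]), (0, [0], [2, 3]), (0, [1], [4, 5]), (0, [1], [4, 6]), (1, [], [0, 5]), (1, [], [2, 3]), (4, [], [1]), (4, [], [6])]),
  (2, 6, [(0, [0], [0, 1]), (0, [0], [2, 3]), (0, [1], [0, 4]), (1, [], [4, 5]), (2, [1], [2, 3, 5]), (4, [], [1])]),
  (2, 7, [(0, [0], [0, 1]), (0, [1], [0, 2]), (0, [0], [3, 4]), (0, [1], [5, 6]), (1, [], [1, 3]), (1, [], [5, 6]), (4, [], [2]), (4, [], [4])]),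
  (2, 6, [(0, [0], [0, 1]), (0, [0], [2, 3]), (0, [1], [0, 4]), (1, [], [1, 5]), (2, [1], [2, 3, 5]), (4, [], [4])]),
  (2, 5, [(0, [0], [0, 1]), (0, [1], [0, 2]), (2, [1], [2, 3, 4]), (2, [0], [1, 3, 4])]),
  (2, 6, [(0, [0], [0, 1]), (0, [0], [2, 3]), (0, [1], [0, 4]), (1, [], [1, 5]), (2, [1], [2, 3, 4]), (4, [], [5])]),
  (2, 6, [(0, [0], [0, 1]), (0, [1], [0, 2]), (0, [0], [1, 3]), (1, [], [4, 5]), (2, [1], [2, 4, 5]), (4, [], [3])]),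
  (2, 7, [(0, [0], [0, 1]), (0, [0], [2, 3]), (0, [1], [0, 4]), (0, [1], [4, 5]), (1, [], [1, 6]), (1, [], [2, 3]), (4, [], [5]), (4, [], [6])]),
  (2, 7, [(0, [0], [0, 1]), (0, [1], [0, 2]), (0, [1], [2, 3]), (0, [0], [1, 4]), (4, [], [4]), (4, [], [3]), (1, [], [5, 6]), (1, [], [5, 6])]),
  (2, 6, [(0, [0], [0, 1]), (0, [0], [2, 3]), (0, [1], [0, 2]), (1, [], [4, 5]), (2, [1], [1, 4, 5]), (4, [], [3])]),
  (2, 7, [(0, [0], [0, 1]), (0, [1], [0, 2]), (0, [1], [1, 3]), (0, [0], [4, 5]), (1, [], [2, 6]), (1, [], [4, 5]), (4, [], [3]), (4, [], [6])]),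
  (2, 7, [(0, [0], [0, 1]), (0, [1], [0, 2]), (0, [0], [2, 3]), (0, [1], [1, 4]), (4, [], [4]), (4, [], [3]), (1, [], [5, 6]), (1, [], [5, 6])]),
  (2, 5, [(0, [0], [0, 1]), (0, [0], [0, 2]), (0, [1], [3, 4]), (2, [1], [1, 3, 4]), (4, [], [2])]),
  (2, 5, [(0, [0], [0, 1]), (0, [0], [0, 1]), (0, [1], [2, 3]), (2, [1], [2, 3, 4]), (4, [], [4])]),
  (2, 6, [(0, [0], [0, 1]), (0, [0], [0, 1]), (0, [1], [2, 3]), (0, [1], [2, 4]), (1, [], [3, 5]), (4, [], [4]), (4, [], [5])]),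
  (2, 6, [(0, [0], [0, 1]), (0, [0], [0, 1]), (0, [1], [2, 3]), (0, [1], [2, 3]), (1, [], [4, 5]), (4, [], [4]), (4, [], [5])]),
  (2, 6, [(0, [0], [0, 1]), (0, [0], [2, 3]), (0, [1], [0, 4]), (0, [1], [4, 5]), (1, [], [2, 3]), (4, [], [1]), (4, [], [5])]),
  (2, 6, [(0, [0], [0, 1]), (0, [0], [0, 1]), (0, [1], [2, 3]), (0, [1], [4, 5]), (1, [], [4, 5]), (4, [], [2]), (4, [], [3])]),
  (2, 6, [(0, [0], [0, 1]), (0, [0], [0, 1]), (0, [1], [2, 3]), (0, [1], [4, 5]), (1, [], [2, 4]), (4, [], [5]), (4, [], [3])]),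
  (2, 5, [(0, [0], [0, 1]), (0, [0], [2, 3]), (0, [1], [0, 4]), (2, [1], [2, 3, 4]), (4, [], [1])]),
  (2, 6, [(0, [0], [0, 1]), (0, [1], [0, 2]), (0, [1], [1, 3]), (0, [0], [4, 5]), (1, [], [4, 5]), (4, [], [3]), (4, [], [2])]),
  (2, 6, [(0, [0], [0, 1]), (0, [1], [0, 2]), (0, [1], [1, 3]), (0, [0], [4, 5]), (1, [], [2, 4]), (4, [], [3]), (4, [], [5])]),
  (2, 6, [(0, [0], [0, 1]), (0, [0], [2, 3]), (0, [1], [0, 4]), (0, [1], [4, 5]), (1, [], [2, 5]), (4, [], [1]), (4, [], [3])]),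
  (2, 6, [(0, [0], [0, 1]), (0, [1], [2, 3]), (0, [0], [2, 4]), (0, [1], [0, 5]), (1, [], [1, 3]), (4, [], [5]), (4, [], [4])]),
  (2, 6, [(0, [0], [0, 1]), (0, [0], [2, 3]), (0, [1], [2, 4]), (0, [1], [0, 5]), (1, [], [1, 3]), (4, [], [5]), (4, [], [4])]),
  (2, 6, [(0, [0], [0, 1]), (0, [1], [0, 2]), (0, [0], [2, 3]), (0, [1], [1, 4]), (1, [], [3, 5]), (4, [], [4]), (4, [], [5])]),
  (2, 6, [(0, [0], [0, 1]), (0, [0], [2, 3]), (0, [1], [0, 4]), (0, [1], [4, 5]), (1, [], [1, 2]), (4, [], [3]), (4, [], [5])]),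
  (2, 6, [(0, [0], [0, 1]), (0, [0], [2, 3]), (0, [1], [0, 4]), (0, [1], [2, 4]), (1, [], [1, 5]), (4, [], [3]), (4, [], [5])]),
  (2, 5, [(0, [0], [0, 1]), (0, [0], [0, 1]), (0, [1], [2, 3]), (0, [1], [2, 3]), (4, [], [4]), (4, [], [4])]),
  (2, 5, [(0, [0], [0, 1]), (0, [0], [2, 3]), (0, [1], [2, 4]), (0, [1], [0, 4]), (4, [], [3]), (4, [], [1])]),
  (2, 7, [(0, [0], [0, 1]), (0, [0], [0, 2]), (0, [1], [1, 2]), (4, [], [3]), (0, [1], [4, 5]), (1, [], [4, 6]), (1, [], [5, 6]), (4, [], [3])]),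
  (2, 7, [(0, [0], [0, 1]), (0, [0], [0, 2]), (0, [1], [1, 2]), (4, [], [3]), (0, [1], [4, 5]), (1, [], [4, 6]), (1, [], [3, 6]), (4, [], [5])]),
  (2, 7, [(0, [0], [0, 1]), (0, [0], [0, 2]), (0, [1], [1, 2]), (4, [], [3]), (0, [1], [4, 5]), (1, [], [4, 6]), (1, [], [3, 5]), (4, [], [6])]),
  (2, 7, [(0, [0], [0, 1]), (0, [0], [0, 2]), (0, [1], [1, 2]), (4, [], [3]), (0, [1], [4, 5]), (1, [], [4, 5]), (1, [], [3, 6]), (4, [], [6])]),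
  (2, 6, [(0, [0], [0, 1]), (0, [0], [0, 2]), (0, [1], [1, 2]), (4, [], [3]), (0, [1], [4, 5]), (1, [], [4, 5]), (4, [], [3])]),
  (2, 6, [(0, [0], [0, 1]), (0, [0], [0, 2]), (0, [1], [1, 2]), (4, [], [3]), (0, [1], [4, 5]), (1, [], [3, 4]), (4, [], [5])]),
  (2, 7, [(0, [0], [0, 1]), (0, [0], [0, 2]), (0, [1], [1, 2]), (4, [], [3]), (0, [1], [3, 4]), (1, [], [5, 6]), (1, [], [5, 6]), (4, [], [4])]),
  (2, 6, [(0, [0], [0, 1]), (0, [0], [0, 2]), (0, [1], [1, 2]), (4, [], [3]), (1, [], [4, 5]), (2, [1], [3, 4, 5])]),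
  (2, 7, [(0, [0], [0, 1]), (0, [0], [0, 2]), (0, [1], [3, 2]), (4, [], [1]), (0, [1], [4, 5]), (1, [], [4, 6]), (1, [], [5, 6]), (4, [], [3])]),
  (2, 7, [(0, [0], [0, 1]), (0, [0], [0, 2]), (0, [1], [3, 2]), (4, [], [1]), (0, [1], [4, 5]), (1, [], [4, 6]), (1, [], [3, 6]), (4, [], [5])]),
  (2, 7, [(0, [0], [0, 1]), (0, [0], [0, 2]), (0, [1], [3, 2]), (4, [], [1]), (0, [1], [4, 5]), (1, [], [4, 6]), (1, [], [3, 5]), (4, [], [6])]),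
  (2, 7, [(0, [0], [0, 1]), (0, [0], [0, 2]), (0, [1], [3, 2]), (4, [], [1]), (0, [1], [3, 4]), (1, [], [5, 6]), (1, [], [4, 5]), (4, [], [6])]),
  (2, 6, [(0, [0], [0, 1]), (0, [0], [0, 2]), (0, [1], [3, 2]), (4, [], [1]), (0, [1], [3, 4]), (1, [], [4, 5]), (4, [], [5])]),
  (2, 7, [(0, [0], [0, 1]), (0, [0], [0, 1]), (0, [1], [2, 3]), (4, [], [3]), (0, [1], [4, 5]), (1, [], [4, 6]), (1, [], [5, 6]), (4, [], [2])]),
  (2, 7, [(0, [0], [0, 1]), (0, [0], [0, 1]), (0, [1], [2, 3]), (4, [], [3]), (0, [1], [4, 5]), (1, [], [4, 6]), (1, [], [2, 6]), (4, [], [5])]),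
  (2, 7, [(0, [0], [0, 1]), (0, [0], [0, 1]), (0, [1], [2, 3]), (4, [], [3]), (0, [1], [4, 5]), (1, [], [4, 6]), (1, [], [2, 5]), (4, [], [6])]),
  (2, 7, [(0, [0], [0, 1]), (0, [0], [0, 1]), (0, [1], [2, 3]), (4, [], [3]), (0, [1], [2, 4]), (1, [], [5, 6]), (1, [], [4, 5]), (4, [], [6])]),
  (2, 7, [(0, [0], [0, 1]), (0, [0], [2, 3]), (0, [1], [0, 3]), (4, [], [1]), (0, [1], [4, 5]), (1, [], [4, 6]), (1, [], [5, 6]), (4, [], [2])]),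
  (2, 7, [(0, [0], [0, 1]), (0, [0], [2, 3]), (0, [1], [0, 3]), (4, [], [1]), (0, [1], [4, 5]), (1, [], [4, 6]), (1, [], [2, 6]), (4, [], [5])]),
  (2, 7, [(0, [0], [0, 1]), (0, [0], [2, 3]), (0, [1], [0, 3]), (4, [], [1]), (0, [1], [4, 5]), (1, [], [4, 6]), (1, [], [2, 5]), (4, [], [6])]),
  (2, 7, [(0, [0], [0, 1]), (0, [0], [2, 3]), (0, [1], [0, 3]), (4, [], [1]), (0, [1], [2, 4]), (1, [], [5, 6]), (1, [], [4, 5]), (4, [], [6])]),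
  (2, 7, [(0, [0], [0, 1]), (0, [0], [2, 3]), (0, [1], [0, 1]), (4, [], [3]), (0, [1], [4, 5]), (1, [], [4, 6]), (1, [], [5, 6]), (4, [], [2])]),
  (2, 7, [(0, [0], [0, 1]), (0, [0], [2, 3]), (0, [1], [0, 1]), (4, [], [3]), (0, [1], [4, 5]), (1, [], [4, 6]), (1, [], [2, 6]), (4, [], [5])]),
  (2, 7, [(0, [0], [0, 1]), (0, [0], [2, 3]), (0, [1], [0, 1]), (4, [], [3]), (0, [1], [4, 5]), (1, [], [4, 6]), (1, [], [2, 5]), (4, [], [6])]),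
  (2, 7, [(0, [0], [0, 1]), (0, [0], [2, 3]), (0, [1], [0, 1]), (4, [], [3]), (0, [1], [4, 5]), (1, [], [4, 5]), (1, [], [2, 6]), (4, [], [6])]),
  (2, 6, [(0, [0], [0, 1]), (0, [0], [2, 3]), (0, [1], [0, 1]), (4, [], [3]), (0, [1], [4, 5]), (1, [], [4, 5]), (4, [], [2])]),
  (2, 6, [(0, [0], [0, 1]), (0, [0], [2, 3]), (0, [1], [0, 1]), (4, [], [3]), (0, [1], [4, 5]), (1, [], [2, 4]), (4, [], [5])]),
  (2, 7, [(0, [0], [0, 1]), (0, [0], [2, 3]), (0, [1], [0, 1]), (4, [], [3]), (0, [1], [2, 4]), (1, [], [5, 6]), (1, [], [4, 5]), (4, [], [6])]),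
  (2, 6, [(0, [0], [0, 1]), (0, [0], [2, 3]), (0, [1], [0, 1]), (4, [], [3]), (0, [1], [2, 4]), (1, [], [4, 5]), (4, [], [5])]),
  (2, 6, [(0, [0], [0, 1]), (0, [0], [2, 3]), (0, [1], [0, 1]), (4, [], [3]), (1, [], [4, 5]), (2, [1], [2, 4, 5])]),
  (2, 7, [(0, [0], [0, 1]), (0, [0], [2, 0]), (0, [1], [1, 3]), (4, [], [3]), (0, [1], [4, 5]), (1, [], [4, 6]), (1, [], [2, 6]), (4, [], [5])]),
  (2, 7, [(0, [0], [0, 1]), (0, [0], [2, 0]), (0, [1], [1, 3]), (4, [], [3]), (0, [1], [4, 5]), (1, [], [4, 6]), (1, [], [2, 5]), (4, [], [6])]),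
  (2, 7, [(0, [0], [0, 1]), (0, [0], [2, 0]), (0, [1], [1, 3]), (4, [], [3]), (0, [1], [4, 5]), (1, [], [4, 5]), (1, [], [2, 6]), (4, [], [6])]),
  (2, 7, [(0, [0], [0, 1]), (0, [0], [2, 0]), (0, [1], [1, 3]), (4, [], [3]), (0, [1], [2, 4]), (1, [], [5, 6]), (1, [], [5, 6]), (4, [], [4])]),
  (2, 7, [(0, [0], [0, 1]), (0, [0], [2, 0]), (0, [1], [1, 3]), (4, [], [3]), (0, [1], [2, 4]), (1, [], [5, 6]), (1, [], [4, 5]), (4, [], [6])]),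
  (2, 6, [(0, [0], [0, 1]), (0, [0], [2, 0]), (0, [1], [1, 3]), (4, [], [3]), (1, [], [4, 5]), (2, [1], [2, 4, 5])]),
  (2, 7, [(0, [0], [0, 1]), (0, [0], [0, 1]), (0, [1], [2, 3]), (4, [], [4]), (0, [1], [5, 6]), (1, [], [2, 5]), (1, [], [3, 6]), (4, [], [4])]),
  (2, 7, [(0, [0], [0, 1]), (0, [0], [0, 1]), (0, [1], [2, 3]), (4, [], [4]), (0, [1], [2, 5]), (1, [], [5, 6]), (1, [], [3, 6]), (4, [], [4])]),
  (2, 7, [(0, [0], [0, 1]), (0, [0], [0, 1]), (0, [1], [2, 3]), (4, [], [4]), (0, [1], [2, 5]), (1, [], [5, 6]), (1, [], [3, 4]), (4, [], [6])]),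
  (2, 7, [(0, [0], [0, 1]), (0, [0], [0, 1]), (0, [1], [2, 3]), (4, [], [4]), (0, [1], [2, 5]), (1, [], [4, 6]), (1, [], [3, 5]), (4, [], [6])]),
  (2, 6, [(0, [0], [0, 1]), (0, [0], [0, 1]), (0, [1], [2, 3]), (4, [], [4]), (0, [1], [2, 5]), (1, [], [3, 5]), (4, [], [4])]),
  (2, 6, [(0, [0], [0, 1]), (0, [0], [0, 1]), (0, [1], [2, 3]), (4, [], [4]), (1, [], [2, 5]), (2, [1], [3, 4, 5])]),
  (2, 7, [(0, [0], [0, 1]), (0, [0], [2, 0]), (0, [1], [3, 1]), (4, [], [4]), (0, [1], [5, 6]), (1, [], [5, 6]), (1, [], [2, 3]), (4, [], [4])]),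
  (2, 7, [(0, [0], [0, 1]), (0, [0], [2, 0]), (0, [1], [3, 1]), (4, [], [4]), (0, [1], [5, 6]), (1, [], [2, 5]), (1, [], [3, 6]), (4, [], [4])]),
  (2, 7, [(0, [0], [0, 1]), (0, [0], [2, 0]), (0, [1], [3, 1]), (4, [], [4]), (0, [1], [5, 6]), (1, [], [2, 5]), (1, [], [3, 4]), (4, [], [6])]),
  (2, 7, [(0, [0], [0, 1]), (0, [0], [2, 0]), (0, [1], [3, 1]), (4, [], [4]), (0, [1], [5, 6]), (1, [], [3, 5]), (1, [], [2, 4]), (4, [], [6])]),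
  (2, 7, [(0, [0], [0, 1]), (0, [0], [2, 0]), (0, [1], [3, 1]), (4, [], [4]), (0, [1], [5, 6]), (1, [], [4, 5]), (1, [], [2, 3]), (4, [], [6])]),
  (2, 7, [(0, [0], [0, 1]), (0, [0], [2, 0]), (0, [1], [3, 1]), (4, [], [4]), (0, [1], [2, 5]), (1, [], [5, 6]), (1, [], [3, 6]), (4, [], [4])]),
  (2, 7, [(0, [0], [0, 1]), (0, [0], [2, 0]), (0, [1], [3, 1]), (4, [], [4]), (0, [1], [3, 5]), (1, [], [5, 6]), (1, [], [2, 6]), (4, [], [4])]),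
  (2, 7, [(0, [0], [0, 1]), (0, [0], [2, 0]), (0, [1], [3, 1]), (4, [], [4]), (0, [1], [2, 5]), (1, [], [5, 6]), (1, [], [3, 4]), (4, [], [6])]),
  (2, 7, [(0, [0], [0, 1]), (0, [0], [2, 0]), (0, [1], [3, 1]), (4, [], [4]), (0, [1], [3, 5]), (1, [], [5, 6]), (1, [], [2, 4]), (4, [], [6])]),
  (2, 7, [(0, [0], [0, 1]), (0, [0], [2, 0]), (0, [1], [3, 1]), (4, [], [4]), (0, [1], [4, 5]), (1, [], [2, 6]), (1, [], [3, 6]), (4, [], [5])]),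
  (2, 7, [(0, [0], [0, 1]), (0, [0], [2, 0]), (0, [1], [3, 1]), (4, [], [4]), (0, [1], [2, 5]), (1, [], [4, 6]), (1, [], [3, 5]), (4, [], [6])]),
  (2, 7, [(0, [0], [0, 1]), (0, [0], [2, 0]), (0, [1], [3, 1]), (4, [], [4]), (0, [1], [3, 5]), (1, [], [4, 6]), (1, [], [2, 5]), (4, [], [6])]),
  (2, 6, [(0, [0], [0, 1]), (0, [0], [2, 0]), (0, [1], [3, 1]), (4, [], [4]), (0, [1], [2, 5]), (1, [], [3, 5]), (4, [], [4])]),
  (2, 6, [(0, [0], [0, 1]), (0, [0], [2, 0]), (0, [1], [3, 1]), (4, [], [4]), (0, [1], [3, 5]), (1, [], [2, 5]), (4, [], [4])]),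
  (2, 6, [(0, [0], [0, 1]), (0, [0], [2, 0]), (0, [1], [3, 1]), (4, [], [4]), (0, [1], [4, 5]), (1, [], [2, 3]), (4, [], [5])]),
  (2, 7, [(0, [0], [0, 1]), (0, [0], [2, 0]), (0, [1], [3, 1]), (4, [], [4]), (0, [1], [2, 3]), (1, [], [5, 6]), (1, [], [5, 6]), (4, [], [4])]),
  (2, 7, [(0, [0], [0, 1]), (0, [0], [2, 0]), (0, [1], [3, 1]), (4, [], [4]), (0, [1], [2, 3]), (1, [], [5, 6]), (1, [], [4, 5]), (4, [], [6])]),
  (2, 6, [(0, [0], [0, 1]), (0, [0], [2, 0]), (0, [1], [3, 1]), (4, [], [4]), (0, [1], [2, 3]), (1, [], [4, 5]), (4, [], [5])]),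
  (2, 5, [(0, [0], [0, 1]), (0, [0], [2, 0]), (0, [1], [3, 1]), (4, [], [4]), (0, [1], [2, 3]), (4, [], [4])]),
  (2, 6, [(0, [0], [0, 1]), (0, [0], [2, 0]), (0, [1], [3, 1]), (4, [], [4]), (1, [], [2, 5]), (2, [1], [3, 4, 5])]),
  (2, 6, [(0, [0], [0, 1]), (0, [0], [2, 0]), (0, [1], [3, 1]), (4, [], [4]), (1, [], [3, 5]), (2, [1], [2, 4, 5])]),
  (2, 6, [(0, [0], [0, 1]), (0, [0], [2, 0]), (0, [1], [3, 1]), (4, [], [4]), (1, [], [4, 5]), (2, [1], [2, 3, 5])]),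
  (2, 5, [(0, [0], [0, 1]), (0, [0], [2, 0]), (0, [1], [3, 1]), (4, [], [4]), (2, [1], [2, 3, 4])]),
  (2, 7, [(0, [0], [0, 1]), (0, [0], [2, 0]), (0, [1], [3, 4]), (4, [], [1]), (0, [1], [5, 6]), (1, [], [5, 6]), (1, [], [3, 4]), (4, [], [2])]),
  (2, 7, [(0, [0], [0, 1]), (0, [0], [2, 0]), (0, [1], [3, 4]), (4, [], [1]), (0, [1], [5, 6]), (1, [], [2, 5]), (1, [], [3, 6]), (4, [], [4])]),
  (2, 7, [(0, [0], [0, 1]), (0, [0], [2, 0]), (0, [1], [3, 4]), (4, [], [1]), (0, [1], [5, 6]), (1, [], [3, 5]), (1, [], [4, 6]), (4, [], [2])]),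
  (2, 7, [(0, [0], [0, 1]), (0, [0], [2, 0]), (0, [1], [3, 4]), (4, [], [1]), (0, [1], [3, 5]), (1, [], [5, 6]), (1, [], [2, 6]), (4, [], [4])]),
  (2, 7, [(0, [0], [0, 1]), (0, [0], [2, 0]), (0, [1], [3, 4]), (4, [], [1]), (0, [1], [3, 5]), (1, [], [5, 6]), (1, [], [4, 6]), (4, [], [2])]),
  (2, 7, [(0, [0], [0, 1]), (0, [0], [2, 0]), (0, [1], [3, 4]), (4, [], [1]), (0, [1], [3, 5]), (1, [], [5, 6]), (1, [], [2, 4]), (4, [], [6])]),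
  (2, 7, [(0, [0], [0, 1]), (0, [0], [2, 0]), (0, [1], [3, 4]), (4, [], [1]), (0, [1], [3, 5]), (1, [], [2, 6]), (1, [], [4, 5]), (4, [], [6])]),
  (2, 6, [(0, [0], [0, 1]), (0, [0], [2, 0]), (0, [1], [3, 4]), (4, [], [1]), (0, [1], [3, 5]), (1, [], [2, 5]), (4, [], [4])]),
  (2, 6, [(0, [0], [0, 1]), (0, [0], [2, 0]), (0, [1], [3, 4]), (4, [], [1]), (0, [1], [3, 5]), (1, [], [4, 5]), (4, [], [2])]),
  (2, 6, [(0, [0], [0, 1]), (0, [0], [2, 0]), (0, [1], [3, 4]), (4, [], [1]), (1, [], [2, 5]), (2, [1], [3, 4, 5])]),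
  (2, 6, [(0, [0], [0, 1]), (0, [0], [2, 0]), (0, [1], [3, 4]), (4, [], [1]), (1, [], [3, 5]), (2, [1], [2, 4, 5])]),
  (2, 7, [(0, [0], [0, 1]), (0, [0], [2, 3]), (0, [1], [0, 1]), (4, [], [4]), (0, [1], [5, 6]), (1, [], [2, 5]), (1, [], [3, 6]), (4, [], [4])]),
  (2, 7, [(0, [0], [0, 1]), (0, [0], [2, 3]), (0, [1], [0, 1]), (4, [], [4]), (0, [1], [2, 5]), (1, [], [5, 6]), (1, [], [3, 6]), (4, [], [4])]),
  (2, 7, [(0, [0], [0, 1]), (0, [0], [2, 3]), (0, [1], [0, 1]), (4, [], [4]), (0, [1], [2, 5]), (1, [], [5, 6]), (1, [], [3, 4]), (4, [], [6])]),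
  (2, 7, [(0, [0], [0, 1]), (0, [0], [2, 3]), (0, [1], [0, 1]), (4, [], [4]), (0, [1], [2, 5]), (1, [], [4, 6]), (1, [], [3, 5]), (4, [], [6])]),
  (2, 6, [(0, [0], [0, 1]), (0, [0], [2, 3]), (0, [1], [0, 1]), (4, [], [4]), (0, [1], [2, 5]), (1, [], [3, 5]), (4, [], [4])]),
  (2, 7, [(0, [0], [0, 1]), (0, [0], [2, 3]), (0, [1], [0, 1]), (4, [], [4]), (0, [1], [2, 3]), (1, [], [5, 6]), (1, [], [4, 5]), (4, [], [6])]),
  (2, 6, [(0, [0], [0, 1]), (0, [0], [2, 3]), (0, [1], [0, 1]), (4, [], [4]), (0, [1], [2, 3]), (1, [], [4, 5]), (4, [], [5])]),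
  (2, 5, [(0, [0], [0, 1]), (0, [0], [2, 3]), (0, [1], [0, 1]), (4, [], [4]), (0, [1], [2, 3]), (4, [], [4])]),
  (2, 6, [(0, [0], [0, 1]), (0, [0], [2, 3]), (0, [1], [0, 1]), (4, [], [4]), (1, [], [2, 5]), (2, [1], [3, 4, 5])]),
  (2, 6, [(0, [0], [0, 1]), (0, [0], [2, 3]), (0, [1], [0, 1]), (4, [], [4]), (1, [], [4, 5]), (2, [1], [2, 3, 5])]),
  (2, 5, [(0, [0], [0, 1]), (0, [0], [2, 3]), (0, [1], [0, 1]), (4, [], [4]), (2, [1], [2, 3, 4])]),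
  (2, 7, [(0, [0], [0, 1]), (0, [0], [2, 3]), (0, [1], [4, 0]), (4, [], [1]), (0, [1], [5, 6]), (1, [], [5, 6]), (1, [], [2, 4]), (4, [], [3])]),
  (2, 7, [(0, [0], [0, 1]), (0, [0], [2, 3]), (0, [1], [4, 0]), (4, [], [1]), (0, [1], [5, 6]), (1, [], [2, 5]), (1, [], [3, 6]), (4, [], [4])]),
  (2, 7, [(0, [0], [0, 1]), (0, [0], [2, 3]), (0, [1], [4, 0]), (4, [], [1]), (0, [1], [5, 6]), (1, [], [2, 5]), (1, [], [4, 6]), (4, [], [3])]),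
  (2, 7, [(0, [0], [0, 1]), (0, [0], [2, 3]), (0, [1], [4, 0]), (4, [], [1]), (0, [1], [5, 6]), (1, [], [2, 5]), (1, [], [3, 4]), (4, [], [6])]),
  (2, 7, [(0, [0], [0, 1]), (0, [0], [2, 3]), (0, [1], [4, 0]), (4, [], [1]), (0, [1], [2, 5]), (1, [], [5, 6]), (1, [], [3, 6]), (4, [], [4])]),
  (2, 7, [(0, [0], [0, 1]), (0, [0], [2, 3]), (0, [1], [4, 0]), (4, [], [1]), (0, [1], [2, 5]), (1, [], [5, 6]), (1, [], [4, 6]), (4, [], [3])]),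
  (2, 7, [(0, [0], [0, 1]), (0, [0], [2, 3]), (0, [1], [4, 0]), (4, [], [1]), (0, [1], [2, 5]), (1, [], [5, 6]), (1, [], [3, 4]), (4, [], [6])]),
  (2, 7, [(0, [0], [0, 1]), (0, [0], [2, 3]), (0, [1], [4, 0]), (4, [], [1]), (0, [1], [2, 5]), (1, [], [3, 6]), (1, [], [4, 6]), (4, [], [5])]),
  (2, 7, [(0, [0], [0, 1]), (0, [0], [2, 3]), (0, [1], [4, 0]), (4, [], [1]), (0, [1], [2, 5]), (1, [], [3, 6]), (1, [], [4, 5]), (4, [], [6])]),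
  (2, 7, [(0, [0], [0, 1]), (0, [0], [2, 3]), (0, [1], [4, 0]), (4, [], [1]), (0, [1], [2, 5]), (1, [], [4, 6]), (1, [], [3, 5]), (4, [], [6])]),
  (2, 6, [(0, [0], [0, 1]), (0, [0], [2, 3]), (0, [1], [4, 0]), (4, [], [1]), (0, [1], [2, 5]), (1, [], [3, 5]), (4, [], [4])]),
  (2, 6, [(0, [0], [0, 1]), (0, [0], [2, 3]), (0, [1], [4, 0]), (4, [], [1]), (1, [], [2, 5]), (2, [1], [3, 4, 5])]),
  (2, 7, [(0, [0], [0, 1]), (0, [0], [2, 3]), (0, [1], [1, 3]), (4, [], [4]), (0, [1], [5, 6]), (1, [], [5, 6]), (1, [], [0, 2]), (4, [], [4])]),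
  (2, 7, [(0, [0], [0, 1]), (0, [0], [2, 3]), (0, [1], [1, 3]), (4, [], [4]), (0, [1], [5, 6]), (1, [], [0, 5]), (1, [], [2, 6]), (4, [], [4])]),
  (2, 7, [(0, [0], [0, 1]), (0, [0], [2, 3]), (0, [1], [1, 3]), (4, [], [4]), (0, [1], [5, 6]), (1, [], [0, 5]), (1, [], [2, 4]), (4, [], [6])]),
  (2, 7, [(0, [0], [0, 1]), (0, [0], [2, 3]), (0, [1], [1, 3]), (4, [], [4]), (0, [1], [5, 6]), (1, [], [4, 5]), (1, [], [0, 2]), (4, [], [6])]),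
  (2, 7, [(0, [0], [0, 1]), (0, [0], [2, 3]), (0, [1], [1, 3]), (4, [], [4]), (0, [1], [0, 5]), (1, [], [5, 6]), (1, [], [2, 6]), (4, [], [4])]),
  (2, 7, [(0, [0], [0, 1]), (0, [0], [2, 3]), (0, [1], [1, 3]), (4, [], [4]), (0, [1], [0, 5]), (1, [], [5, 6]), (1, [], [2, 4]), (4, [], [6])]),
  (2, 7, [(0, [0], [0, 1]), (0, [0], [2, 3]), (0, [1], [1, 3]), (4, [], [4]), (0, [1], [4, 5]), (1, [], [0, 6]), (1, [], [2, 6]), (4, [], [5])]),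
  (2, 7, [(0, [0], [0, 1]), (0, [0], [2, 3]), (0, [1], [1, 3]), (4, [], [4]), (0, [1], [0, 5]), (1, [], [4, 6]), (1, [], [2, 5]), (4, [], [6])]),
  (2, 6, [(0, [0], [0, 1]), (0, [0], [2, 3]), (0, [1], [1, 3]), (4, [], [4]), (0, [1], [0, 5]), (1, [], [2, 5]), (4, [], [4])]),
  (2, 7, [(0, [0], [0, 1]), (0, [0], [2, 3]), (0, [1], [1, 3]), (4, [], [4]), (0, [1], [0, 2]), (1, [], [5, 6]), (1, [], [5, 6]), (4, [], [4])]),
  (2, 7, [(0, [0], [0, 1]), (0, [0], [2, 3]), (0, [1], [1, 3]), (4, [], [4]), (0, [1], [0, 2]), (1, [], [5, 6]), (1, [], [4, 5]), (4, [], [6])]),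
  (2, 6, [(0, [0], [0, 1]), (0, [0], [2, 3]), (0, [1], [1, 3]), (4, [], [4]), (1, [], [0, 5]), (2, [1], [2, 4, 5])]),
  (2, 7, [(0, [0], [0, 1]), (0, [0], [2, 3]), (0, [1], [4, 3]), (4, [], [1]), (0, [1], [5, 6]), (1, [], [5, 6]), (1, [], [2, 4]), (4, [], [0])]),
  (2, 7, [(0, [0], [0, 1]), (0, [0], [2, 3]), (0, [1], [4, 3]), (4, [], [1]), (0, [1], [5, 6]), (1, [], [2, 5]), (1, [], [4, 6]), (4, [], [0])]),
  (2, 7, [(0, [0], [0, 1]), (0, [0], [2, 3]), (0, [1], [4, 3]), (4, [], [1]), (0, [1], [5, 6]), (1, [], [0, 5]), (1, [], [2, 4]), (4, [], [6])]),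
  (2, 7, [(0, [0], [0, 1]), (0, [0], [2, 3]), (0, [1], [4, 3]), (4, [], [1]), (0, [1], [5, 6]), (1, [], [2, 5]), (1, [], [0, 4]), (4, [], [6])]),
  (2, 7, [(0, [0], [0, 1]), (0, [0], [2, 3]), (0, [1], [4, 3]), (4, [], [1]), (0, [1], [5, 6]), (1, [], [4, 5]), (1, [], [0, 2]), (4, [], [6])]),
  (2, 6, [(0, [0], [0, 1]), (0, [0], [2, 3]), (0, [1], [4, 3]), (4, [], [1]), (1, [], [0, 5]), (2, [1], [2, 4, 5])]),
  (2, 6, [(0, [0], [0, 1]), (0, [0], [2, 3]), (0, [1], [4, 3]), (4, [], [1]), (1, [], [2, 5]), (2, [1], [0, 4, 5])]),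
  (2, 7, [(0, [0], [0, 1]), (0, [0], [2, 1]), (0, [1], [3, 4]), (4, [], [4]), (0, [1], [5, 6]), (1, [], [5, 6]), (1, [], [0, 2]), (4, [], [3])]),
  (2, 7, [(0, [0], [0, 1]), (0, [0], [2, 1]), (0, [1], [3, 4]), (4, [], [4]), (0, [1], [5, 6]), (1, [], [0, 5]), (1, [], [2, 6]), (4, [], [3])]),
  (2, 7, [(0, [0], [0, 1]), (0, [0], [2, 1]), (0, [1], [3, 4]), (4, [], [4]), (0, [1], [5, 6]), (1, [], [0, 5]), (1, [], [2, 3]), (4, [], [6])]),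
  (2, 7, [(0, [0], [0, 1]), (0, [0], [2, 1]), (0, [1], [3, 4]), (4, [], [4]), (0, [1], [5, 6]), (1, [], [3, 5]), (1, [], [0, 2]), (4, [], [6])]),
  (2, 6, [(0, [0], [0, 1]), (0, [0], [2, 1]), (0, [1], [3, 4]), (4, [], [4]), (1, [], [0, 5]), (2, [1], [2, 3, 5])]),
  (2, 7, [(0, [0], [0, 1]), (0, [0], [2, 1]), (0, [1], [3, 4]), (4, [], [5]), (0, [1], [3, 6]), (1, [], [0, 6]), (1, [], [2, 4]), (4, [], [5])]),
  (2, 7, [(0, [0], [0, 1]), (0, [0], [2, 1]), (0, [1], [3, 4]), (4, [], [5]), (0, [1], [3, 6]), (1, [], [4, 6]), (1, [], [0, 2]), (4, [], [5])]),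
  (2, 6, [(0, [0], [0, 1]), (0, [0], [2, 1]), (0, [1], [3, 4]), (4, [], [5]), (1, [], [0, 2]), (2, [1], [3, 4, 5])]),
  (2, 6, [(0, [0], [0, 1]), (0, [0], [2, 1]), (0, [1], [3, 4]), (4, [], [5]), (1, [], [0, 3]), (2, [1], [2, 4, 5])]),
  (2, 6, [(0, [0], [0, 1]), (0, [0], [2, 1]), (0, [1], [3, 4]), (4, [], [5]), (1, [], [0, 5]), (2, [1], [2, 3, 4])]),
  (2, 7, [(0, [0], [0, 1]), (0, [0], [2, 3]), (0, [1], [4, 1]), (4, [], [5]), (0, [1], [2, 6]), (1, [], [3, 6]), (1, [], [0, 4]), (4, [], [5])]),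
  (2, 7, [(0, [0], [0, 1]), (0, [0], [2, 3]), (0, [1], [4, 1]), (4, [], [5]), (0, [1], [2, 6]), (1, [], [4, 6]), (1, [], [0, 3]), (4, [], [5])]),
  (2, 6, [(0, [0], [0, 1]), (0, [0], [2, 3]), (0, [1], [4, 1]), (4, [], [5]), (1, [], [0, 2]), (2, [1], [3, 4, 5])]),
  (2, 6, [(0, [0], [0, 1]), (0, [0], [2, 3]), (0, [1], [4, 1]), (4, [], [5]), (1, [], [0, 4]), (2, [1], [2, 3, 5])]),
  (2, 6, [(0, [0], [0, 1]), (0, [0], [2, 3]), (0, [1], [4, 1]), (4, [], [5]), (1, [], [2, 3]), (2, [1], [0, 4, 5])]),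
  (2, 6, [(0, [0], [0, 1]), (0, [0], [2, 3]), (0, [1], [4, 5]), (4, [], [1]), (1, [], [0, 2]), (2, [1], [3, 4, 5])]),
  (2, 5, [(0, [0], [0, 1]), (2, [0], [2, 3, 4]), (0, [1], [0, 1]), (2, [1], [2, 3, 4])]),
  (2, 5, [(0, [0], [0, 1]), (2, [1], [2, 3, 1]), (0, [0], [0, 4]), (2, [1], [2, 3, 4])])]

def kl55 : List ℕ := [5, 6, 7, 8, 9, 10, 11, 12, 21, 22, 26, 30, 33, 37, 38, 41, 42, 44, 45, 46, 47, 48, 49, 50, 51, 54, 55, 56, 62, 63, 64, 65, 75, 76, 78, 82, 83, 84, 85, 86, 87, 88, 89, 90, 91, 93, 99, 100, 101, 102, 103, 104, 106, 108, 113, 114, 115, 117, 118, 121, 122, 123, 124, 127, 128, 129, 131, 134, 135, 136, 137, 138, 139, 141, 142, 143, 145, 146, 147, 149, 150, 151, 208, 209, 210, 211, 212, 215, 226, 227, 228, 229, 230, 231, 232, 233, 234, 235, 236, 237, 238, 239, 240, 244, 245, 246, 247, 248, 249, 250, 251, 254, 255, 256, 257, 258, 259,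 260, 261, 262, 264, 265, 271, 272, 273, 274, 275, 278, 279, 280, 281, 282, 283, 289, 290, 291, 292, 293, 294, 295, 296, 297, 298, 299, 301, 304, 305, 306, 307, 308, 309, 310, 311, 312, 316, 317, 320, 323, 324, 325, 326, 327, 328, 329, 332, 333, 334, 335, 336, 422, 423, 424, 425, 426, 432, 433, 434, 435, 436, 439, 448, 449]

def m55_0 : Base := (0, 1, [(0, [0], [0, 5]), (0, [1], [1, 5]), (1, [], [2, 3]), (4, [], [4])])

def l55_0 : Cov := [(960, 0, 1, [(0, [0], [0, 5]), (0, [1], [1, 5]), (1, [], [2, 3]), (4, [], [4])]),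
  (960, 0, 1, [(0, [0], [0, 5]), (0, [1], [1, 5]), (1, [], [2, 4]), (4, [], [3])]),
  (960, 0, 1, [(0, [0], [0, 5]), (0, [1], [1, 5]), (1, [], [3, 4]), (4, [], [2])]),
  (960, 0, 1, [(0, [0], [0, 5]), (0, [1], [2, 5]), (1, [], [1, 3]), (4, [], [4])]),
  (960, 0, 1, [(0, [0], [0, 5]), (0, [1], [2, 5]), (1, [], [1, 4]), (4, [], [3])]),
  (960, 0, 1, [(0, [0], [0, 5]), (0, [1], [2, 5]), (1, [], [3, 4]), (4, [], [1])]),
  (960, 0, 1, [(0, [0], [0, 5]), (0, [1], [3, 5]), (1, [], [1, 2]), (4, [], [4])]),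
  (960, 0, 1, [(0, [0], [0, 5]), (0, [1], [3, 5]), (1, [], [1, 4]), (4, [], [2])]),
  (960, 0, 1, [(0, [0], [0, 5]), (0, [1], [3, 5]), (1, [], [2, 4]), (4, [], [1])]),
  (960, 0, 1, [(0, [0], [0, 5]), (0, [1], [4, 5]), (1, [], [1, 2]), (4, [], [3])]),
  (960, 0, 1, [(0, [0], [0, 5]), (0, [1], [4, 5]), (1, [], [1, 3]), (4, [], [2])]),
  (960, 0, 1, [(0, [0], [0, 5]), (0, [1], [4, 5]), (1, [], [2, 3]), (4, [], [1])]),
  (960, 0, 1, [(0, [0], [1, 5]), (0, [1], [0, 5]), (1, [], [2, 3]), (4, [], [4])]),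
  (960, 0, 1, [(0, [0], [1, 5]), (0, [1], [0, 5]), (1, [], [2, 4]), (4, [], [3])]),
  (960, 0, 1, [(0, [0], [1, 5]), (0, [1], [0, 5]), (1, [], [3, 4]), (4, [], [2])]),
  (960, 0, 1, [(0, [0], [1, 5]), (0, [1], [2, 5]), (1, [], [0, 3]), (4, [], [4])]),
  (960, 0, 1, [(0, [0], [1, 5]), (0, [1], [2, 5]), (1, [], [0, 4]), (4, [], [3])]),
  (960, 0, 1, [(0, [0], [1, 5]), (0, [1], [2, 5]), (1, [], [3, 4]), (4, [], [0])]),
  (960, 0, 1, [(0, [0], [1, 5]), (0, [1], [3, 5]), (1, [], [0, 2]), (4, [], [4])]),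
  (960, 0, 1, [(0, [0], [1, 5]), (0, [1], [3, 5]), (1, [], [0, 4]), (4, [], [2])]),
  (960, 0, 1, [(0, [0], [1, 5]), (0, [1], [3, 5]), (1, [], [2, 4]), (4, [], [0])]),
  (960, 0, 1, [(0, [0], [1, 5]), (0, [1], [4, 5]), (1, [], [0, 2]), (4, [], [3])]),
  (960, 0, 1, [(0, [0], [1, 5]), (0, [1], [4, 5]), (1, [], [0, 3]), (4, [], [2])]),
  (960, 0, 1, [(0, [0], [1, 5]), (0, [1], [4, 5]), (1, [], [2, 3]), (4, [], [0])]),
  (960, 0, 1, [(0, [0], [2, 5]), (0, [1], [0, 5]), (1, [], [1, 3]), (4, [], [4])]),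
  (960, 0, 1, [(0, [0], [2, 5]), (0, [1], [0, 5]), (1, [], [1, 4]), (4, [], [3])]),
  (960, 0, 1, [(0, [0], [2, 5]), (0, [1], [0, 5]), (1, [], [3, 4]), (4, [], [1])]),
  (960, 0, 1, [(0, [0], [2, 5]), (0, [1], [1, 5]), (1, [], [0, 3]), (4, [], [4])]),
  (960, 0, 1, [(0, [0], [2, 5]), (0, [1], [1, 5]), (1, [], [0, 4]), (4, [], [3])]),
  (960, 0, 1, [(0, [0], [2, 5]), (0, [1], [1, 5]), (1, [], [3, 4]), (4, [], [0])]),
  (960, 0, 1, [(0, [0], [2, 5]), (0, [1], [3, 5]), (1, [], [0, 1]), (4, [], [4])]),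
  (960, 0, 1, [(0, [0], [2, 5]), (0, [1], [3, 5]), (1, [], [0, 4]), (4, [], [1])]),
  (960, 0, 1, [(0, [0], [2, 5]), (0, [1], [3, 5]), (1, [], [1, 4]), (4, [], [0])]),
  (960, 0, 1, [(0, [0], [2, 5]), (0, [1], [4, 5]), (1, [], [0, 1]), (4, [], [3])]),
  (960, 0, 1, [(0, [0], [2, 5]), (0, [1], [4, 5]), (1, [], [0, 3]), (4, [], [1])]),
  (960, 0, 1, [(0, [0], [2, 5]), (0, [1], [4, 5]), (1, [], [1, 3]), (4, [], [0])]),
  (960, 0, 1, [(0, [0], [3, 5]), (0, [1], [0, 5]), (1, [], [1, 2]), (4, [], [4])]),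
  (960, 0, 1, [(0, [0], [3, 5]), (0, [1], [0, 5]), (1, [], [1, 4]), (4, [], [2])]),
  (960, 0, 1, [(0, [0], [3, 5]), (0, [1], [0, 5]), (1, [], [2, 4]), (4, [], [1])]),
  (960, 0, 1, [(0, [0], [3, 5]), (0, [1], [1, 5]), (1, [], [0, 2]), (4, [], [4])]),
  (960, 0, 1, [(0, [0], [3, 5]), (0, [1], [1, 5]), (1, [], [0, 4]), (4, [], [2])]),
  (960, 0, 1, [(0, [0], [3, 5]), (0, [1], [1, 5]), (1, [], [2, 4]), (4, [], [0])]),
  (960, 0, 1, [(0, [0], [3, 5]), (0, [1], [2, 5]), (1, [], [0, 1]), (4, [], [4])]),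
  (960, 0, 1, [(0, [0], [3, 5]), (0, [1], [2, 5]), (1, [], [0, 4]), (4, [], [1])]),
  (960, 0, 1, [(0, [0], [3, 5]), (0, [1], [2, 5]), (1, [], [1, 4]), (4, [], [0])]),
  (960, 0, 1, [(0, [0], [3, 5]), (0, [1], [4, 5]), (1, [], [0, 1]), (4, [], [2])]),
  (960, 0, 1, [(0, [0], [3, 5]), (0, [1], [4, 5]), (1, [], [0, 2]), (4, [], [1])]),
  (960, 0, 1, [(0, [0], [3, 5]), (0, [1], [4, 5]), (1, [], [1, 2]), (4, [], [0])]),
  (960, 0, 1, [(0, [0], [4, 5]), (0, [1], [0, 5]), (1, [], [1, 2]), (4, [], [3])]),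
  (960, 0, 1, [(0, [0], [4, 5]), (0, [1], [0, 5]), (1, [], [1, 3]), (4, [], [2])]),
  (960, 0, 1, [(0, [0], [4, 5]), (0, [1], [0, 5]), (1, [], [2, 3]), (4, [], [1])]),
  (960, 0, 1, [(0, [0], [4, 5]), (0, [1], [1, 5]), (1, [], [0, 2]), (4, [], [3])]),
  (960, 0, 1, [(0, [0], [4, 5]), (0, [1], [1, 5]), (1, [], [0, 3]), (4, [], [2])]),
  (960, 0, 1, [(0, [0], [4, 5]), (0, [1], [1, 5]), (1, [], [2, 3]), (4, [], [0])]),
  (960, 0, 1, [(0, [0], [4, 5]), (0, [1], [2, 5]), (1, [], [0, 1]), (4, [], [3])]),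
  (960, 0, 1, [(0, [0], [4, 5]), (0, [1], [2, 5]), (1, [], [0, 3]), (4, [], [1])]),
  (960, 0, 1, [(0, [0], [4, 5]), (0, [1], [2, 5]), (1, [], [1, 3]), (4, [], [0])]),
  (960, 0, 1, [(0, [0], [4, 5]), (0, [1], [3, 5]), (1, [], [0, 1]), (4, [], [2])]),
  (960, 0, 1, [(0, [0], [4, 5]), (0, [1], [3, 5]), (1, [], [0, 2]), (4, [], [1])]),
  (960, 0, 1, [(0, [0], [4, 5]), (0, [1], [3, 5]), (1, [], [1, 2]), (4, [], [0])])]

def z55_0 : Cov := []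

def w55_0 : List (List Wit) := [[(0, 0, 0, 0, 0), (1, 0, 0, 0, 0), (0, 0, 0, 0, 0), (2, 0, 0, 0, 0), (1, 0, 0, 0, 0), (2, 0, 0, 0, 0), (3, 0, 0, 0, 0), (4, 0, 0, 0, 0), (3, 0, 0, 0, 0), (5, 0, 0, 0, 0), (4, 0, 0, 0, 0), (5, 0, 0, 0, 0), (6, 0, 0, 0, 0), (7, 0, 0, 0, 0), (6, 0, 0, 0, 0), (8, 0, 0, 0, 0), (7, 0, 0, 0, 0), (8, 0, 0, 0, 0), (9, 0, 0, 0, 0), (10, 0, 0, 0, 0), (9, 0, 0, 0, 0), (11, 0, 0, 0, 0), (10, 0, 0, 0, 0), (11, 0, 0, 0, 0), (12, 0, 0, 0, 0), (13, 0, 0, 0, 0), (12, 0, 0, 0, 0), (14, 0, 0, 0, 0), (13, 0, 0, 0, 0), (14, 0, 0, 0, 0), (15, 0, 0, 0, 0), (16, 0, 0, 0, 0), (15, 0, 0, 0, 0), (17, 0, 0, 0, 0), (16, 0, 0, 0, 0), (17, 0, 0, 0, 0), (18, 0, 0, 0, 0), (19, 0, 0, 0, 0), (18, 0, 0, 0, 0), (20, 0, 0, 0, 0), (19, 0, 0, 0, 0), (20, 0, 0, 0, 0), (21, 0, 0, 0, 0), (22, 0, 0, 0, 0), (21, 0, 0, 0, 0), (23, 0, 0, 0, 0), (22, 0, 0,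 0, 0), (23, 0, 0, 0, 0), (24, 0, 0, 0, 0), (25, 0, 0, 0, 0), (24, 0, 0, 0, 0), (26, 0, 0, 0, 0), (25, 0, 0, 0, 0), (26, 0, 0, 0, 0), (27, 0, 0, 0, 0), (28, 0, 0, 0, 0), (27, 0, 0, 0, 0), (29, 0, 0, 0, 0), (28, 0, 0, 0, 0), (29, 0, 0, 0, 0), (30, 0, 0, 0, 0), (31, 0, 0, 0, 0), (30, 0, 0, 0, 0), (32, 0, 0, 0, 0), (31, 0, 0, 0, 0), (32, 0, 0, 0, 0), (33, 0, 0, 0, 0), (34, 0, 0, 0, 0), (33, 0, 0, 0, 0), (35, 0, 0, 0, 0), (34, 0, 0, 0, 0), (35, 0, 0, 0, 0), (36, 0, 0, 0, 0), (37, 0, 0, 0, 0), (36, 0, 0, 0, 0), (38, 0, 0, 0, 0), (37, 0, 0, 0, 0), (38, 0, 0, 0, 0), (39, 0, 0, 0, 0), (40, 0, 0, 0, 0), (39, 0, 0, 0, 0), (41, 0, 0, 0, 0), (40, 0, 0, 0, 0), (41, 0, 0, 0, 0), (42, 0, 0, 0, 0), (43, 0, 0, 0, 0), (42, 0, 0, 0, 0), (44, 0, 0, 0, 0), (43, 0, 0, 0, 0), (44, 0, 0, 0, 0), (45, 0, 0, 0, 0), (46, 0, 0, 0, 0), (45, 0, 0, 0, 0), (47, 0, 0, 0, 0),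 (46, 0, 0, 0, 0), (47, 0, 0, 0, 0), (48, 0, 0, 0, 0), (49, 0, 0, 0, 0), (48, 0, 0, 0, 0), (50, 0, 0, 0, 0), (49, 0, 0, 0, 0), (50, 0, 0, 0, 0), (51, 0, 0, 0, 0), (52, 0, 0, 0, 0), (51, 0, 0, 0, 0), (53, 0, 0, 0, 0), (52, 0, 0, 0, 0), (53, 0, 0, 0, 0), (54, 0, 0, 0, 0), (55, 0, 0, 0, 0), (54, 0, 0, 0, 0), (56, 0, 0, 0, 0), (55, 0, 0, 0, 0), (56, 0, 0, 0, 0), (57, 0, 0, 0, 0), (58, 0, 0, 0, 0), (57, 0, 0, 0, 0), (59, 0, 0, 0, 0), (58, 0, 0, 0, 0), (59, 0, 0, 0, 0)],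
  [(12, 0, 0, 0, 0), (13, 0, 0, 0, 0), (12, 0, 0, 0, 0), (14, 0, 0, 0, 0), (13, 0, 0, 0, 0), (14, 0, 0, 0, 0), (24, 0, 0, 0, 0), (25, 0, 0, 0, 0), (24, 0, 0, 0, 0), (26, 0, 0, 0, 0), (25, 0, 0, 0, 0), (26, 0, 0, 0, 0), (36, 0, 0, 0, 0), (37, 0, 0, 0, 0), (36, 0, 0, 0, 0), (38, 0, 0, 0, 0), (37, 0, 0, 0, 0), (38, 0, 0, 0, 0), (48, 0, 0, 0, 0), (49, 0, 0, 0, 0), (48, 0, 0, 0, 0), (50, 0, 0, 0, 0), (49, 0, 0, 0, 0), (50, 0, 0, 0, 0), (0, 0, 0, 0, 0), (1, 0, 0, 0, 0), (0, 0, 0, 0, 0), (2, 0, 0, 0, 0), (1, 0, 0, 0, 0), (2, 0, 0, 0, 0), (27, 0, 0, 0, 0), (28, 0, 0, 0, 0), (27, 0, 0, 0, 0), (29, 0, 0, 0, 0), (28, 0, 0, 0, 0), (29, 0, 0, 0, 0), (39, 0, 0, 0, 0), (40, 0, 0, 0, 0), (39, 0, 0, 0, 0), (41, 0, 0, 0, 0), (40, 0, 0, 0, 0), (41, 0, 0, 0, 0), (51, 0, 0, 0, 0), (52, 0, 0, 0, 0), (51, 0, 0, 0, 0), (53, 0, 0, 0, 0), (52, 0, 0, 0, 0), (53, 0, 0,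 0, 0), (3, 0, 0, 0, 0), (4, 0, 0, 0, 0), (3, 0, 0, 0, 0), (5, 0, 0, 0, 0), (4, 0, 0, 0, 0), (5, 0, 0, 0, 0), (15, 0, 0, 0, 0), (16, 0, 0, 0, 0), (15, 0, 0, 0, 0), (17, 0, 0, 0, 0), (16, 0, 0, 0, 0), (17, 0, 0, 0, 0), (42, 0, 0, 0, 0), (43, 0, 0, 0, 0), (42, 0, 0, 0, 0), (44, 0, 0, 0, 0), (43, 0, 0, 0, 0), (44, 0, 0, 0, 0), (54, 0, 0, 0, 0), (55, 0, 0, 0, 0), (54, 0, 0, 0, 0), (56, 0, 0, 0, 0), (55, 0, 0, 0, 0), (56, 0, 0, 0, 0), (6, 0, 0, 0, 0), (7, 0, 0, 0, 0), (6, 0, 0, 0, 0), (8, 0, 0, 0, 0), (7, 0, 0, 0, 0), (8, 0, 0, 0, 0), (18, 0, 0, 0, 0), (19, 0, 0, 0, 0), (18, 0, 0, 0, 0), (20, 0, 0, 0, 0), (19, 0, 0, 0, 0), (20, 0, 0, 0, 0), (30, 0, 0, 0, 0), (31, 0, 0, 0, 0), (30, 0, 0, 0, 0), (32, 0, 0, 0, 0), (31, 0, 0, 0, 0), (32, 0, 0, 0, 0), (57, 0, 0, 0, 0), (58, 0, 0, 0, 0), (57, 0, 0, 0, 0), (59, 0, 0, 0, 0), (58, 0, 0, 0, 0), (59, 0, 0,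 0, 0), (9, 0, 0, 0, 0), (10, 0, 0, 0, 0), (9, 0, 0, 0, 0), (11, 0, 0, 0, 0), (10, 0, 0, 0, 0), (11, 0, 0, 0, 0), (21, 0, 0, 0, 0), (22, 0, 0, 0, 0), (21, 0, 0, 0, 0), (23, 0, 0, 0, 0), (22, 0, 0, 0, 0), (23, 0, 0, 0, 0), (33, 0, 0, 0, 0), (34, 0, 0, 0, 0), (33, 0, 0, 0, 0), (35, 0, 0, 0, 0), (34, 0, 0, 0, 0), (35, 0, 0, 0, 0), (45, 0, 0, 0, 0), (46, 0, 0, 0, 0), (45, 0, 0, 0, 0), (47, 0, 0, 0, 0), (46, 0, 0, 0, 0), (47, 0, 0, 0, 0)]]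

def m55_1 : Base := (0, 1, [(0, [0], [0, 5]), (0, [1], [1, 2]), (1, [], [3, 5]), (4, [], [4])])

def l55_1 : Cov := [(480, 0, 1, [(0, [0], [0, 5]), (0, [1], [1, 2]), (1, [], [3, 5]), (4, [], [4])]),
  (480, 0, 1, [(0, [0], [0, 5]), (0, [1], [1, 2]), (1, [], [4, 5]), (4, [], [3])]),
  (480, 0, 1, [(0, [0], [0, 5]), (0, [1], [1, 3]), (1, [], [2, 5]), (4, [], [4])]),
  (480, 0, 1, [(0, [0], [0, 5]), (0, [1], [1, 3]), (1, [], [4, 5]), (4, [], [2])]),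
  (480, 0, 1, [(0, [0], [0, 5]), (0, [1], [1, 4]), (1, [], [2, 5]), (4, [], [3])]),
  (480, 0, 1, [(0, [0], [0, 5]), (0, [1], [1, 4]), (1, [], [3, 5]), (4, [], [2])]),
  (480, 0, 1, [(0, [0], [0, 5]), (0, [1], [2, 3]), (1, [], [1, 5]), (4, [], [4])]),
  (480, 0, 1, [(0, [0], [0, 5]), (0, [1], [2, 3]), (1, [], [4, 5]), (4, [], [1])]),
  (480, 0, 1, [(0, [0], [0, 5]), (0, [1], [2, 4]), (1, [], [1, 5]), (4, [], [3])]),
  (480, 0, 1, [(0, [0], [0, 5]), (0, [1], [2, 4]), (1, [], [3, 5]), (4, [], [1])]),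
  (480, 0, 1, [(0, [0], [0, 5]), (0, [1], [3, 4]), (1, [], [1, 5]), (4, [], [2])]),
  (480, 0, 1, [(0, [0], [0, 5]), (0, [1], [3, 4]), (1, [], [2, 5]), (4, [], [1])]),
  (480, 0, 1, [(0, [0], [1, 5]), (0, [1], [0, 2]), (1, [], [3, 5]), (4, [], [4])]),
  (480, 0, 1, [(0, [0], [1, 5]), (0, [1], [0, 2]), (1, [], [4, 5]), (4, [], [3])]),
  (480, 0, 1, [(0, [0], [1, 5]), (0, [1], [0, 3]), (1, [], [2, 5]), (4, [], [4])]),
  (480, 0, 1, [(0, [0], [1, 5]), (0, [1], [0, 3]), (1, [], [4, 5]), (4, [], [2])]),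
  (480, 0, 1, [(0, [0], [1, 5]), (0, [1], [0, 4]), (1, [], [2, 5]), (4, [], [3])]),
  (480, 0, 1, [(0, [0], [1, 5]), (0, [1], [0, 4]), (1, [], [3, 5]), (4, [], [2])]),
  (480, 0, 1, [(0, [0], [1, 5]), (0, [1], [2, 3]), (1, [], [0, 5]), (4, [], [4])]),
  (480, 0, 1, [(0, [0], [1, 5]), (0, [1], [2, 3]), (1, [], [4, 5]), (4, [], [0])]),
  (480, 0, 1, [(0, [0], [1, 5]), (0, [1], [2, 4]), (1, [], [0, 5]), (4, [], [3])]),
  (480, 0, 1, [(0, [0], [1, 5]), (0, [1], [2, 4]), (1, [], [3, 5]), (4, [], [0])]),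
  (480, 0, 1, [(0, [0], [1, 5]), (0, [1], [3, 4]), (1, [], [0, 5]), (4, [], [2])]),
  (480, 0, 1, [(0, [0], [1, 5]), (0, [1], [3, 4]), (1, [], [2, 5]), (4, [], [0])]),
  (480, 0, 1, [(0, [0], [2, 5]), (0, [1], [0, 1]), (1, [], [3, 5]), (4, [], [4])]),
  (480, 0, 1, [(0, [0], [2, 5]), (0, [1], [0, 1]), (1, [], [4, 5]), (4, [], [3])]),
  (480, 0, 1, [(0, [0], [2, 5]), (0, [1], [0, 3]), (1, [], [1, 5]), (4, [], [4])]),
  (480, 0, 1, [(0, [0], [2, 5]), (0, [1], [0, 3]), (1, [], [4, 5]), (4, [], [1])]),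
  (480, 0, 1, [(0, [0], [2, 5]), (0, [1], [0, 4]), (1, [], [1, 5]), (4, [], [3])]),
  (480, 0, 1, [(0, [0], [2, 5]), (0, [1], [0, 4]), (1, [], [3, 5]), (4, [], [1])]),
  (480, 0, 1, [(0, [0], [2, 5]), (0, [1], [1, 3]), (1, [], [0, 5]), (4, [], [4])]),
  (480, 0, 1, [(0, [0], [2, 5]), (0, [1], [1, 3]), (1, [], [4, 5]), (4, [], [0])]),
  (480, 0, 1, [(0, [0], [2, 5]), (0, [1], [1, 4]), (1, [], [0, 5]), (4, [], [3])]),
  (480, 0, 1, [(0, [0], [2, 5]), (0, [1], [1, 4]), (1, [], [3, 5]), (4, [], [0])]),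
  (480, 0, 1, [(0, [0], [2, 5]), (0, [1], [3, 4]), (1, [], [0, 5]), (4, [], [1])]),
  (480, 0, 1, [(0, [0], [2, 5]), (0, [1], [3, 4]), (1, [], [1, 5]), (4, [], [0])]),
  (480, 0, 1, [(0, [0], [3, 5]), (0, [1], [0, 1]), (1, [], [2, 5]), (4, [], [4])]),
  (480, 0, 1, [(0, [0], [3, 5]), (0, [1], [0, 1]), (1, [], [4, 5]), (4, [], [2])]),
  (480, 0, 1, [(0, [0], [3, 5]), (0, [1], [0, 2]), (1, [], [1, 5]), (4, [], [4])]),
  (480, 0, 1, [(0, [0], [3, 5]), (0, [1], [0, 2]), (1, [], [4, 5]), (4, [], [1])]),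
  (480, 0, 1, [(0, [0], [3, 5]), (0, [1], [0, 4]), (1, [], [1, 5]), (4, [], [2])]),
  (480, 0, 1, [(0, [0], [3, 5]), (0, [1], [0, 4]), (1, [], [2, 5]), (4, [], [1])]),
  (480, 0, 1, [(0, [0], [3, 5]), (0, [1], [1, 2]), (1, [], [0, 5]), (4, [], [4])]),
  (480, 0, 1, [(0, [0], [3, 5]), (0, [1], [1, 2]), (1, [], [4, 5]), (4, [], [0])]),
  (480, 0, 1, [(0, [0], [3, 5]), (0, [1], [1, 4]), (1, [], [0, 5]), (4, [], [2])]),
  (480, 0, 1, [(0, [0], [3, 5]), (0, [1], [1, 4]), (1, [], [2, 5]), (4, [], [0])]),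
  (480, 0, 1, [(0, [0], [3, 5]), (0, [1], [2, 4]), (1, [], [0, 5]), (4, [], [1])]),
  (480, 0, 1, [(0, [0], [3, 5]), (0, [1], [2, 4]), (1, [], [1, 5]), (4, [], [0])]),
  (480, 0, 1, [(0, [0], [4, 5]), (0, [1], [0, 1]), (1, [], [2, 5]), (4, [], [3])]),
  (480, 0, 1, [(0, [0], [4, 5]), (0, [1], [0, 1]), (1, [], [3, 5]), (4, [], [2])]),
  (480, 0, 1, [(0, [0], [4, 5]), (0, [1], [0, 2]), (1, [], [1, 5]), (4, [], [3])]),
  (480, 0, 1, [(0, [0], [4, 5]), (0, [1], [0, 2]), (1, [], [3, 5]), (4, [], [1])]),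
  (480, 0, 1, [(0, [0], [4, 5]), (0, [1], [0, 3]), (1, [], [1, 5]), (4, [], [2])]),
  (480, 0, 1, [(0, [0], [4, 5]), (0, [1], [0, 3]), (1, [], [2, 5]), (4, [], [1])]),
  (480, 0, 1, [(0, [0], [4, 5]), (0, [1], [1, 2]), (1, [], [0, 5]), (4, [], [3])]),
  (480, 0, 1, [(0, [0], [4, 5]), (0, [1], [1, 2]), (1, [], [3, 5]), (4, [], [0])]),
  (480, 0, 1, [(0, [0], [4, 5]), (0, [1], [1, 3]), (1, [], [0, 5]), (4, [], [2])]),
  (480, 0, 1, [(0, [0], [4, 5]), (0, [1], [1, 3]), (1, [], [2, 5]), (4, [], [0])]),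
  (480, 0, 1, [(0, [0], [4, 5]), (0, [1], [2, 3]), (1, [], [0, 5]), (4, [], [1])]),
  (480, 0, 1, [(0, [0], [4, 5]), (0, [1], [2, 3]), (1, [], [1, 5]), (4, [], [0])]),
  (480, 0, 1, [(0, [1], [0, 5]), (0, [0], [1, 2]), (1, [], [3, 5]), (4, [], [4])]),
  (480, 0, 1, [(0, [1], [0, 5]), (0, [0], [1, 2]), (1, [], [4, 5]), (4, [], [3])]),
  (480, 0, 1, [(0, [1], [0, 5]), (0, [0], [1, 3]), (1, [], [2, 5]), (4, [], [4])]),
  (480, 0, 1, [(0, [1], [0, 5]), (0, [0], [1, 3]), (1, [], [4, 5]), (4, [], [2])]),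
  (480, 0, 1, [(0, [1], [0, 5]), (0, [0], [1, 4]), (1, [], [2, 5]), (4, [], [3])]),
  (480, 0, 1, [(0, [1], [0, 5]), (0, [0], [1, 4]), (1, [], [3, 5]), (4, [], [2])]),
  (480, 0, 1, [(0, [1], [0, 5]), (0, [0], [2, 3]), (1, [], [1, 5]), (4, [], [4])]),
  (480, 0, 1, [(0, [1], [0, 5]), (0, [0], [2, 3]), (1, [], [4, 5]), (4, [], [1])]),
  (480, 0, 1, [(0, [1], [0, 5]), (0, [0], [2, 4]), (1, [], [1, 5]), (4, [], [3])]),
  (480, 0, 1, [(0, [1], [0, 5]), (0, [0], [2, 4]), (1, [], [3, 5]), (4, [], [1])]),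
  (480, 0, 1, [(0, [1], [0, 5]), (0, [0], [3, 4]), (1, [], [1, 5]), (4, [], [2])]),
  (480, 0, 1, [(0, [1], [0, 5]), (0, [0], [3, 4]), (1, [], [2, 5]), (4, [], [1])]),
  (480, 0, 1, [(0, [1], [1, 5]), (0, [0], [0, 2]), (1, [], [3, 5]), (4, [], [4])]),
  (480, 0, 1, [(0, [1], [1, 5]), (0, [0], [0, 2]), (1, [], [4, 5]), (4, [], [3])]),
  (480, 0, 1, [(0, [1], [1, 5]), (0, [0], [0, 3]), (1, [], [2, 5]), (4, [], [4])]),
  (480, 0, 1, [(0, [1], [1, 5]), (0, [0], [0, 3]), (1, [], [4, 5]), (4, [], [2])]),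
  (480, 0, 1, [(0, [1], [1, 5]), (0, [0], [0, 4]), (1, [], [2, 5]), (4, [], [3])]),
  (480, 0, 1, [(0, [1], [1, 5]), (0, [0], [0, 4]), (1, [], [3, 5]), (4, [], [2])]),
  (480, 0, 1, [(0, [1], [1, 5]), (0, [0], [2, 3]), (1, [], [0, 5]), (4, [], [4])]),
  (480, 0, 1, [(0, [1], [1, 5]), (0, [0], [2, 3]), (1, [], [4, 5]), (4, [], [0])]),
  (480, 0, 1, [(0, [1], [1, 5]), (0, [0], [2, 4]), (1, [], [0, 5]), (4, [], [3])]),
  (480, 0, 1, [(0, [1], [1, 5]), (0, [0], [2, 4]), (1, [], [3, 5]), (4, [], [0])]),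
  (480, 0, 1, [(0, [1], [1, 5]), (0, [0], [3, 4]), (1, [], [0, 5]), (4, [], [2])]),
  (480, 0, 1, [(0, [1], [1, 5]), (0, [0], [3, 4]), (1, [], [2, 5]), (4, [], [0])]),
  (480, 0, 1, [(0, [1], [2, 5]), (0, [0], [0, 1]), (1, [], [3, 5]), (4, [], [4])]),
  (480, 0, 1, [(0, [1], [2, 5]), (0, [0], [0, 1]), (1, [], [4, 5]), (4, [], [3])]),
  (480, 0, 1, [(0, [1], [2, 5]), (0, [0], [0, 3]), (1, [], [1, 5]), (4, [], [4])]),
  (480, 0, 1, [(0, [1], [2, 5]), (0, [0], [0, 3]), (1, [], [4, 5]), (4, [], [1])]),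
  (480, 0, 1, [(0, [1], [2, 5]), (0, [0], [0, 4]), (1, [], [1, 5]), (4, [], [3])]),
  (480, 0, 1, [(0, [1], [2, 5]), (0, [0], [0, 4]), (1, [], [3, 5]), (4, [], [1])]),
  (480, 0, 1, [(0, [1], [2, 5]), (0, [0], [1, 3]), (1, [], [0, 5]), (4, [], [4])]),
  (480, 0, 1, [(0, [1], [2, 5]), (0, [0], [1, 3]), (1, [], [4, 5]), (4, [], [0])]),
  (480, 0, 1, [(0, [1], [2, 5]), (0, [0], [1, 4]), (1, [], [0, 5]), (4, [], [3])]),
  (480, 0, 1, [(0, [1], [2, 5]), (0, [0], [1, 4]), (1, [], [3, 5]), (4, [], [0])]),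
  (480, 0, 1, [(0, [1], [2, 5]), (0, [0], [3, 4]), (1, [], [0, 5]), (4, [], [1])]),
  (480, 0, 1, [(0, [1], [2, 5]), (0, [0], [3, 4]), (1, [], [1, 5]), (4, [], [0])]),
  (480, 0, 1, [(0, [1], [3, 5]), (0, [0], [0, 1]), (1, [], [2, 5]), (4, [], [4])]),
  (480, 0, 1, [(0, [1], [3, 5]), (0, [0], [0, 1]), (1, [], [4, 5]), (4, [], [2])]),
  (480, 0, 1, [(0, [1], [3, 5]), (0, [0], [0, 2]), (1, [], [1, 5]), (4, [], [4])]),
  (480, 0, 1, [(0, [1], [3, 5]), (0, [0], [0, 2]), (1, [], [4, 5]), (4, [], [1])]),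
  (480, 0, 1, [(0, [1], [3, 5]), (0, [0], [0, 4]), (1, [], [1, 5]), (4, [], [2])]),
  (480, 0, 1, [(0, [1], [3, 5]), (0, [0], [0, 4]), (1, [], [2, 5]), (4, [], [1])]),
  (480, 0, 1, [(0, [1], [3, 5]), (0, [0], [1, 2]), (1, [], [0, 5]), (4, [], [4])]),
  (480, 0, 1, [(0, [1], [3, 5]), (0, [0], [1, 2]), (1, [], [4, 5]), (4, [], [0])]),
  (480, 0, 1, [(0, [1], [3, 5]), (0, [0], [1, 4]), (1, [], [0, 5]), (4, [], [2])]),
  (480, 0, 1, [(0, [1], [3, 5]), (0, [0], [1, 4]), (1, [], [2, 5]), (4, [], [0])]),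
  (480, 0, 1, [(0, [1], [3, 5]), (0, [0], [2, 4]), (1, [], [0, 5]), (4, [], [1])]),
  (480, 0, 1, [(0, [1], [3, 5]), (0, [0], [2, 4]), (1, [], [1, 5]), (4, [], [0])]),
  (480, 0, 1, [(0, [1], [4, 5]), (0, [0], [0, 1]), (1, [], [2, 5]), (4, [], [3])]),
  (480, 0, 1, [(0, [1], [4, 5]), (0, [0], [0, 1]), (1, [], [3, 5]), (4, [], [2])]),
  (480, 0, 1, [(0, [1], [4, 5]), (0, [0], [0, 2]), (1, [], [1, 5]), (4, [], [3])]),
  (480, 0, 1, [(0, [1], [4, 5]), (0, [0], [0, 2]), (1, [], [3, 5]), (4, [], [1])]),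
  (480, 0, 1, [(0, [1], [4, 5]), (0, [0], [0, 3]), (1, [], [1, 5]), (4, [], [2])]),
  (480, 0, 1, [(0, [1], [4, 5]), (0, [0], [0, 3]), (1, [], [2, 5]), (4, [], [1])]),
  (480, 0, 1, [(0, [1], [4, 5]), (0, [0], [1, 2]), (1, [], [0, 5]), (4, [], [3])]),
  (480, 0, 1, [(0, [1], [4, 5]), (0, [0], [1, 2]), (1, [], [3, 5]), (4, [], [0])]),
  (480, 0, 1, [(0, [1], [4, 5]), (0, [0], [1, 3]), (1, [], [0, 5]), (4, [], [2])]),
  (480, 0, 1, [(0, [1], [4, 5]), (0, [0], [1, 3]), (1, [], [2, 5]), (4, [], [0])]),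
  (480, 0, 1, [(0, [1], [4, 5]), (0, [0], [2, 3]), (1, [], [0, 5]), (4, [], [1])]),
  (480, 0, 1, [(0, [1], [4, 5]), (0, [0], [2, 3]), (1, [], [1, 5]), (4, [], [0])])]

def z55_1 : Cov := []

def w55_1 : List (List Wit) := [[(0, 0, 0, 0, 0), (1, 0, 0, 0, 0), (2, 0, 0, 0, 0), (3, 0, 0, 0, 0), (4, 0, 0, 0, 0), (5, 0, 0, 0, 0), (0, 0, 0, 0, 0), (1, 0, 0, 0, 0), (6, 0, 0, 0, 0), (7, 0, 0, 0, 0), (8, 0, 0, 0, 0), (9, 0, 0, 0, 0), (2, 0, 0, 0, 0), (3, 0, 0, 0, 0), (6, 0, 0, 0, 0), (7, 0, 0, 0, 0), (10, 0, 0, 0, 0), (11, 0, 0, 0, 0), (4, 0, 0, 0, 0), (5, 0, 0, 0, 0), (8, 0, 0, 0, 0), (9, 0, 0, 0, 0), (10, 0, 0, 0, 0), (11, 0, 0, 0, 0), (12, 0, 0, 0, 0), (13, 0, 0, 0, 0), (14, 0, 0, 0, 0), (15, 0, 0, 0, 0), (16, 0, 0, 0, 0), (17, 0, 0, 0, 0), (12, 0, 0, 0, 0), (13, 0, 0, 0, 0), (18, 0, 0, 0, 0), (19, 0, 0, 0, 0), (20, 0, 0, 0, 0), (21, 0, 0, 0, 0),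 (14, 0, 0, 0, 0), (15, 0, 0, 0, 0), (18, 0, 0, 0, 0), (19, 0, 0, 0, 0), (22, 0, 0, 0, 0), (23, 0, 0, 0, 0), (16, 0, 0, 0, 0), (17, 0, 0, 0, 0), (20, 0, 0, 0, 0), (21, 0, 0, 0, 0), (22, 0, 0, 0, 0), (23, 0, 0, 0, 0), (24, 0, 0, 0, 0), (25, 0, 0, 0, 0), (26, 0, 0, 0, 0), (27, 0, 0, 0, 0), (28, 0, 0, 0, 0), (29, 0, 0, 0, 0), (24, 0, 0, 0, 0), (25, 0, 0, 0, 0), (30, 0, 0, 0, 0), (31, 0, 0, 0, 0), (32, 0, 0, 0, 0), (33, 0, 0, 0, 0), (26, 0, 0, 0, 0), (27, 0, 0, 0, 0), (30, 0, 0, 0, 0), (31, 0, 0, 0, 0), (34, 0, 0, 0, 0), (35, 0, 0, 0, 0), (28, 0, 0, 0, 0), (29, 0, 0, 0, 0), (32, 0, 0, 0, 0), (33, 0, 0, 0, 0), (34, 0, 0, 0, 0), (35, 0, 0, 0, 0), (36, 0, 0, 0, 0), (37, 0, 0, 0, 0), (38, 0, 0, 0, 0), (39, 0, 0, 0, 0), (40, 0, 0, 0, 0), (41, 0, 0, 0, 0), (36, 0, 0, 0, 0), (37, 0, 0, 0, 0), (42, 0, 0, 0, 0), (43, 0, 0, 0, 0), (44, 0, 0, 0, 0), (45, 0,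 0, 0, 0), (38, 0, 0, 0, 0), (39, 0, 0, 0, 0), (42, 0, 0, 0, 0), (43, 0, 0, 0, 0), (46, 0, 0, 0, 0), (47, 0, 0, 0, 0), (40, 0, 0, 0, 0), (41, 0, 0, 0, 0), (44, 0, 0, 0, 0), (45, 0, 0, 0, 0), (46, 0, 0, 0, 0), (47, 0, 0, 0, 0), (48, 0, 0, 0, 0), (49, 0, 0, 0, 0), (50, 0, 0, 0, 0), (51, 0, 0, 0, 0), (52, 0, 0, 0, 0), (53, 0, 0, 0, 0), (48, 0, 0, 0, 0), (49, 0, 0, 0, 0), (54, 0, 0, 0, 0), (55, 0, 0, 0, 0), (56, 0, 0, 0, 0), (57, 0, 0, 0, 0), (50, 0, 0, 0, 0), (51, 0, 0, 0, 0), (54, 0, 0, 0, 0), (55, 0, 0, 0, 0), (58, 0, 0, 0, 0), (59, 0, 0, 0, 0), (52, 0, 0, 0, 0), (53, 0, 0, 0, 0), (56, 0, 0, 0, 0), (57, 0, 0, 0, 0), (58, 0, 0, 0, 0), (59, 0, 0, 0, 0)],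
  [(60, 0, 0, 0, 0), (61, 0, 0, 0, 0), (62, 0, 0, 0, 0), (63, 0, 0, 0, 0), (64, 0, 0, 0, 0), (65, 0, 0, 0, 0), (60, 0, 0, 0, 0), (61, 0, 0, 0, 0), (66, 0, 0, 0, 0), (67, 0, 0, 0, 0), (68, 0, 0, 0, 0), (69, 0, 0, 0, 0), (62, 0, 0, 0, 0), (63, 0, 0, 0, 0), (66, 0, 0, 0, 0), (67, 0, 0, 0, 0), (70, 0, 0, 0, 0), (71, 0, 0, 0, 0), (64, 0, 0, 0, 0), (65, 0, 0, 0, 0), (68, 0, 0, 0, 0), (69, 0, 0, 0, 0), (70, 0, 0, 0, 0), (71, 0, 0, 0, 0), (72, 0, 0, 0, 0), (73, 0, 0, 0, 0), (74, 0, 0, 0, 0), (75, 0, 0, 0, 0), (76, 0, 0, 0, 0), (77, 0, 0, 0, 0), (72, 0, 0, 0, 0), (73, 0, 0, 0, 0), (78, 0, 0, 0, 0), (79, 0, 0, 0, 0), (80, 0, 0, 0, 0), (81, 0, 0, 0, 0), (74, 0, 0, 0, 0), (75, 0, 0, 0, 0), (78, 0, 0, 0, 0), (79, 0, 0, 0, 0), (82, 0, 0, 0, 0), (83, 0, 0, 0, 0), (76, 0, 0, 0, 0), (77, 0, 0, 0, 0), (80, 0, 0, 0, 0), (81, 0, 0, 0, 0), (82, 0, 0, 0, 0), (83,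 0, 0, 0, 0), (84, 0, 0, 0, 0), (85, 0, 0, 0, 0), (86, 0, 0, 0, 0), (87, 0, 0, 0, 0), (88, 0, 0, 0, 0), (89, 0, 0, 0, 0), (84, 0, 0, 0, 0), (85, 0, 0, 0, 0), (90, 0, 0, 0, 0), (91, 0, 0, 0, 0), (92, 0, 0, 0, 0), (93, 0, 0, 0, 0), (86, 0, 0, 0, 0), (87, 0, 0, 0, 0), (90, 0, 0, 0, 0), (91, 0, 0, 0, 0), (94, 0, 0, 0, 0), (95, 0, 0, 0, 0), (88, 0, 0, 0, 0), (89, 0, 0, 0, 0), (92, 0, 0, 0, 0), (93, 0, 0, 0, 0), (94, 0, 0, 0, 0), (95, 0, 0, 0, 0), (96, 0, 0, 0, 0), (97, 0, 0, 0, 0), (98, 0, 0, 0, 0), (99, 0, 0, 0, 0), (100, 0, 0, 0, 0), (101, 0, 0, 0, 0), (96, 0, 0, 0, 0), (97, 0, 0, 0, 0), (102, 0, 0, 0, 0), (103, 0, 0, 0, 0), (104, 0, 0, 0, 0), (105, 0, 0, 0, 0), (98, 0, 0, 0, 0), (99, 0, 0, 0, 0), (102, 0, 0, 0, 0), (103, 0, 0, 0, 0), (106, 0, 0, 0, 0), (107, 0, 0, 0, 0), (100, 0, 0, 0, 0), (101, 0, 0, 0, 0), (104, 0, 0, 0, 0), (105, 0, 0, 0, 0),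 (106, 0, 0, 0, 0), (107, 0, 0, 0, 0), (108, 0, 0, 0, 0), (109, 0, 0, 0, 0), (110, 0, 0, 0, 0), (111, 0, 0, 0, 0), (112, 0, 0, 0, 0), (113, 0, 0, 0, 0), (108, 0, 0, 0, 0), (109, 0, 0, 0, 0), (114, 0, 0, 0, 0), (115, 0, 0, 0, 0), (116, 0, 0, 0, 0), (117, 0, 0, 0, 0), (110, 0, 0, 0, 0), (111, 0, 0, 0, 0), (114, 0, 0, 0, 0), (115, 0, 0, 0, 0), (118, 0, 0, 0, 0), (119, 0, 0, 0, 0), (112, 0, 0, 0, 0), (113, 0, 0, 0, 0), (116, 0, 0, 0, 0), (117, 0, 0, 0, 0), (118, 0, 0, 0, 0), (119, 0, 0, 0, 0)]]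

def m55_2 : Base := (0, 1, [(0, [0], [0, 5]), (0, [1], [1, 2]), (1, [], [3, 4]), (4, [], [5])])

def l55_2 : Cov := [(960, 0, 1, [(0, [0], [0, 5]), (0, [1], [1, 2]), (1, [], [3, 4]), (4, [], [5])]),
  (960, 0, 1, [(0, [0], [0, 5]), (0, [1], [1, 3]), (1, [], [2, 4]), (4, [], [5])]),
  (960, 0, 1, [(0, [0], [0, 5]), (0, [1], [1, 4]), (1, [], [2, 3]), (4, [], [5])]),
  (960, 0, 1, [(0, [0], [0, 5]), (0, [1], [2, 3]), (1, [], [1, 4]), (4, [], [5])]),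
  (960, 0, 1, [(0, [0], [0, 5]), (0, [1], [2, 4]), (1, [], [1, 3]), (4, [], [5])]),
  (960, 0, 1, [(0, [0], [0, 5]), (0, [1], [3, 4]), (1, [], [1, 2]), (4, [], [5])]),
  (960, 0, 1, [(0, [0], [1, 5]), (0, [1], [0, 2]), (1, [], [3, 4]), (4, [], [5])]),
  (960, 0, 1, [(0, [0], [1, 5]), (0, [1], [0, 3]), (1, [], [2, 4]), (4, [], [5])]),
  (960, 0, 1, [(0, [0], [1, 5]), (0, [1], [0, 4]), (1, [], [2, 3]), (4, [], [5])]),
  (960, 0, 1, [(0, [0], [1, 5]), (0, [1], [2, 3]), (1, [], [0, 4]), (4, [], [5])]),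
  (960, 0, 1, [(0, [0], [1, 5]), (0, [1], [2, 4]), (1, [], [0, 3]), (4, [], [5])]),
  (960, 0, 1, [(0, [0], [1, 5]), (0, [1], [3, 4]), (1, [], [0, 2]), (4, [], [5])]),
  (960, 0, 1, [(0, [0], [2, 5]), (0, [1], [0, 1]), (1, [], [3, 4]), (4, [], [5])]),
  (960, 0, 1, [(0, [0], [2, 5]), (0, [1], [0, 3]), (1, [], [1, 4]), (4, [], [5])]),
  (960, 0, 1, [(0, [0], [2, 5]), (0, [1], [0, 4]), (1, [], [1, 3]), (4, [], [5])]),
  (960, 0, 1, [(0, [0], [2, 5]), (0, [1], [1, 3]), (1, [], [0, 4]), (4, [], [5])]),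
  (960, 0, 1, [(0, [0], [2, 5]), (0, [1], [1, 4]), (1, [], [0, 3]), (4, [], [5])]),
  (960, 0, 1, [(0, [0], [2, 5]), (0, [1], [3, 4]), (1, [], [0, 1]), (4, [], [5])]),
  (960, 0, 1, [(0, [0], [3, 5]), (0, [1], [0, 1]), (1, [], [2, 4]), (4, [], [5])]),
  (960, 0, 1, [(0, [0], [3, 5]), (0, [1], [0, 2]), (1, [], [1, 4]), (4, [], [5])]),
  (960, 0, 1, [(0, [0], [3, 5]), (0, [1], [0, 4]), (1, [], [1, 2]), (4, [], [5])]),
  (960, 0, 1, [(0, [0], [3, 5]), (0, [1], [1, 2]), (1, [], [0, 4]), (4, [], [5])]),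
  (960, 0, 1, [(0, [0], [3, 5]), (0, [1], [1, 4]), (1, [], [0, 2]), (4, [], [5])]),
  (960, 0, 1, [(0, [0], [3, 5]), (0, [1], [2, 4]), (1, [], [0, 1]), (4, [], [5])]),
  (960, 0, 1, [(0, [0], [4, 5]), (0, [1], [0, 1]), (1, [], [2, 3]), (4, [], [5])]),
  (960, 0, 1, [(0, [0], [4, 5]), (0, [1], [0, 2]), (1, [], [1, 3]), (4, [], [5])]),
  (960, 0, 1, [(0, [0], [4, 5]), (0, [1], [0, 3]), (1, [], [1, 2]), (4, [], [5])]),
  (960, 0, 1, [(0, [0], [4, 5]), (0, [1], [1, 2]), (1, [], [0, 3]), (4, [], [5])]),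
  (960, 0, 1, [(0, [0], [4, 5]), (0, [1], [1, 3]), (1, [], [0, 2]), (4, [], [5])]),
  (960, 0, 1, [(0, [0], [4, 5]), (0, [1], [2, 3]), (1, [], [0, 1]), (4, [], [5])]),
  (960, 0, 1, [(0, [1], [0, 5]), (0, [0], [1, 2]), (1, [], [3, 4]), (4, [], [5])]),
  (960, 0, 1, [(0, [1], [0, 5]), (0, [0], [1, 3]), (1, [], [2, 4]), (4, [], [5])]),
  (960, 0, 1, [(0, [1], [0, 5]), (0, [0], [1, 4]), (1, [], [2, 3]), (4, [], [5])]),
  (960, 0, 1, [(0, [1], [0, 5]), (0, [0], [2, 3]), (1, [], [1, 4]), (4, [], [5])]),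
  (960, 0, 1, [(0, [1], [0, 5]), (0, [0], [2, 4]), (1, [], [1, 3]), (4, [], [5])]),
  (960, 0, 1, [(0, [1], [0, 5]), (0, [0], [3, 4]), (1, [], [1, 2]), (4, [], [5])]),
  (960, 0, 1, [(0, [1], [1, 5]), (0, [0], [0, 2]), (1, [], [3, 4]), (4, [], [5])]),
  (960, 0, 1, [(0, [1], [1, 5]), (0, [0], [0, 3]), (1, [], [2, 4]), (4, [], [5])]),
  (960, 0, 1, [(0, [1], [1, 5]), (0, [0], [0, 4]), (1, [], [2, 3]), (4, [], [5])]),
  (960, 0, 1, [(0, [1], [1, 5]), (0, [0], [2, 3]), (1, [], [0, 4]), (4, [], [5])]),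
  (960, 0, 1, [(0, [1], [1, 5]), (0, [0], [2, 4]), (1, [], [0, 3]), (4, [], [5])]),
  (960, 0, 1, [(0, [1], [1, 5]), (0, [0], [3, 4]), (1, [], [0, 2]), (4, [], [5])]),
  (960, 0, 1, [(0, [1], [2, 5]), (0, [0], [0, 1]), (1, [], [3, 4]), (4, [], [5])]),
  (960, 0, 1, [(0, [1], [2, 5]), (0, [0], [0, 3]), (1, [], [1, 4]), (4, [], [5])]),
  (960, 0, 1, [(0, [1], [2, 5]), (0, [0], [0, 4]), (1, [], [1, 3]), (4, [], [5])]),
  (960, 0, 1, [(0, [1], [2, 5]), (0, [0], [1, 3]), (1, [], [0, 4]), (4, [], [5])]),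
  (960, 0, 1, [(0, [1], [2, 5]), (0, [0], [1, 4]), (1, [], [0, 3]), (4, [], [5])]),
  (960, 0, 1, [(0, [1], [2, 5]), (0, [0], [3, 4]), (1, [], [0, 1]), (4, [], [5])]),
  (960, 0, 1, [(0, [1], [3, 5]), (0, [0], [0, 1]), (1, [], [2, 4]), (4, [], [5])]),
  (960, 0, 1, [(0, [1], [3, 5]), (0, [0], [0, 2]), (1, [], [1, 4]), (4, [], [5])]),
  (960, 0, 1, [(0, [1], [3, 5]), (0, [0], [0, 4]), (1, [], [1, 2]), (4, [], [5])]),
  (960, 0, 1, [(0, [1], [3, 5]), (0, [0], [1, 2]), (1, [], [0, 4]), (4, [], [5])]),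
  (960, 0, 1, [(0, [1], [3, 5]), (0, [0], [1, 4]), (1, [], [0, 2]), (4, [], [5])]),
  (960, 0, 1, [(0, [1], [3, 5]), (0, [0], [2, 4]), (1, [], [0, 1]), (4, [], [5])]),
  (960, 0, 1, [(0, [1], [4, 5]), (0, [0], [0, 1]), (1, [], [2, 3]), (4, [], [5])]),
  (960, 0, 1, [(0, [1], [4, 5]), (0, [0], [0, 2]), (1, [], [1, 3]), (4, [], [5])]),
  (960, 0, 1, [(0, [1], [4, 5]), (0, [0], [0, 3]), (1, [], [1, 2]), (4, [], [5])]),
  (960, 0, 1, [(0, [1], [4, 5]), (0, [0], [1, 2]), (1, [], [0, 3]), (4, [], [5])]),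
  (960, 0, 1, [(0, [1], [4, 5]), (0, [0], [1, 3]), (1, [], [0, 2]), (4, [], [5])]),
  (960, 0, 1, [(0, [1], [4, 5]), (0, [0], [2, 3]), (1, [], [0, 1]), (4, [], [5])])]

def z55_2 : Cov := []

def w55_2 : List (List Wit) := [[(0, 0, 0, 0, 0), (0, 0, 0, 0, 0), (1, 0, 0, 0, 0), (1, 0, 0, 0, 0), (2, 0, 0, 0, 0), (2, 0, 0, 0, 0), (0, 0, 0, 0, 0), (0, 0, 0, 0, 0), (3, 0, 0, 0, 0), (3, 0, 0, 0, 0), (4, 0, 0, 0, 0), (4, 0, 0, 0, 0), (1, 0, 0, 0, 0), (1, 0, 0, 0, 0), (3, 0, 0, 0, 0), (3, 0, 0, 0, 0), (5, 0, 0, 0, 0), (5, 0, 0, 0, 0), (2, 0, 0, 0, 0), (2, 0, 0, 0, 0), (4, 0, 0, 0, 0), (4, 0, 0, 0, 0), (5, 0, 0, 0, 0), (5, 0, 0, 0, 0), (6, 0, 0, 0, 0), (6, 0, 0, 0, 0), (7, 0, 0, 0, 0), (7, 0, 0, 0, 0), (8, 0, 0, 0, 0), (8, 0, 0, 0, 0), (6, 0, 0, 0, 0), (6, 0, 0, 0, 0), (9, 0, 0, 0, 0), (9, 0, 0, 0, 0), (10, 0, 0, 0, 0), (10, 0, 0, 0, 0), (7, 0, 0, 0,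 0), (7, 0, 0, 0, 0), (9, 0, 0, 0, 0), (9, 0, 0, 0, 0), (11, 0, 0, 0, 0), (11, 0, 0, 0, 0), (8, 0, 0, 0, 0), (8, 0, 0, 0, 0), (10, 0, 0, 0, 0), (10, 0, 0, 0, 0), (11, 0, 0, 0, 0), (11, 0, 0, 0, 0), (12, 0, 0, 0, 0), (12, 0, 0, 0, 0), (13, 0, 0, 0, 0), (13, 0, 0, 0, 0), (14, 0, 0, 0, 0), (14, 0, 0, 0, 0), (12, 0, 0, 0, 0), (12, 0, 0, 0, 0), (15, 0, 0, 0, 0), (15, 0, 0, 0, 0), (16, 0, 0, 0, 0), (16, 0, 0, 0, 0), (13, 0, 0, 0, 0), (13, 0, 0, 0, 0), (15, 0, 0, 0, 0), (15, 0, 0, 0, 0), (17, 0, 0, 0, 0), (17, 0, 0, 0, 0), (14, 0, 0, 0, 0), (14, 0, 0, 0, 0), (16, 0, 0, 0, 0), (16, 0, 0, 0, 0), (17, 0, 0, 0, 0), (17, 0, 0, 0, 0), (18, 0, 0, 0, 0), (18, 0, 0, 0, 0), (19, 0, 0, 0, 0), (19, 0, 0, 0, 0), (20, 0, 0, 0, 0), (20, 0, 0, 0, 0), (18, 0, 0, 0, 0), (18, 0, 0, 0, 0), (21, 0, 0, 0, 0), (21, 0, 0, 0, 0), (22, 0, 0, 0, 0), (22, 0, 0, 0, 0), (19, 0,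 0, 0, 0), (19, 0, 0, 0, 0), (21, 0, 0, 0, 0), (21, 0, 0, 0, 0), (23, 0, 0, 0, 0), (23, 0, 0, 0, 0), (20, 0, 0, 0, 0), (20, 0, 0, 0, 0), (22, 0, 0, 0, 0), (22, 0, 0, 0, 0), (23, 0, 0, 0, 0), (23, 0, 0, 0, 0), (24, 0, 0, 0, 0), (24, 0, 0, 0, 0), (25, 0, 0, 0, 0), (25, 0, 0, 0, 0), (26, 0, 0, 0, 0), (26, 0, 0, 0, 0), (24, 0, 0, 0, 0), (24, 0, 0, 0, 0), (27, 0, 0, 0, 0), (27, 0, 0, 0, 0), (28, 0, 0, 0, 0), (28, 0, 0, 0, 0), (25, 0, 0, 0, 0), (25, 0, 0, 0, 0), (27, 0, 0, 0, 0), (27, 0, 0, 0, 0), (29, 0, 0, 0, 0), (29, 0, 0, 0, 0), (26, 0, 0, 0, 0), (26, 0, 0, 0, 0), (28, 0, 0, 0, 0), (28, 0, 0, 0, 0), (29, 0, 0, 0, 0), (29, 0, 0, 0, 0)],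
  [(30, 0, 0, 0, 0), (30, 0, 0, 0, 0), (31, 0, 0, 0, 0), (31, 0, 0, 0, 0), (32, 0, 0, 0, 0), (32, 0, 0, 0, 0), (30, 0, 0, 0, 0), (30, 0, 0, 0, 0), (33, 0, 0, 0, 0), (33, 0, 0, 0, 0), (34, 0, 0, 0, 0), (34, 0, 0, 0, 0), (31, 0, 0, 0, 0), (31, 0, 0, 0, 0), (33, 0, 0, 0, 0), (33, 0, 0, 0, 0), (35, 0, 0, 0, 0), (35, 0, 0, 0, 0), (32, 0, 0, 0, 0), (32, 0, 0, 0, 0), (34, 0, 0, 0, 0), (34, 0, 0, 0, 0), (35, 0, 0, 0, 0), (35, 0, 0, 0, 0), (36, 0, 0, 0, 0), (36, 0, 0, 0, 0), (37, 0, 0, 0, 0), (37, 0, 0, 0, 0), (38, 0, 0, 0, 0), (38, 0, 0, 0, 0), (36, 0, 0, 0, 0), (36, 0, 0, 0, 0), (39, 0, 0, 0, 0), (39, 0, 0, 0, 0), (40, 0, 0, 0, 0), (40, 0, 0, 0, 0), (37, 0, 0, 0, 0), (37, 0, 0, 0, 0), (39, 0, 0, 0, 0), (39, 0, 0, 0, 0), (41, 0, 0, 0, 0), (41, 0, 0, 0, 0), (38, 0, 0, 0, 0), (38, 0, 0, 0, 0), (40, 0, 0, 0, 0), (40, 0, 0, 0, 0), (41, 0, 0, 0, 0), (41,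 0, 0, 0, 0), (42, 0, 0, 0, 0), (42, 0, 0, 0, 0), (43, 0, 0, 0, 0), (43, 0, 0, 0, 0), (44, 0, 0, 0, 0), (44, 0, 0, 0, 0), (42, 0, 0, 0, 0), (42, 0, 0, 0, 0), (45, 0, 0, 0, 0), (45, 0, 0, 0, 0), (46, 0, 0, 0, 0), (46, 0, 0, 0, 0), (43, 0, 0, 0, 0), (43, 0, 0, 0, 0), (45, 0, 0, 0, 0), (45, 0, 0, 0, 0), (47, 0, 0, 0, 0), (47, 0, 0, 0, 0), (44, 0, 0, 0, 0), (44, 0, 0, 0, 0), (46, 0, 0, 0, 0), (46, 0, 0, 0, 0), (47, 0, 0, 0, 0), (47, 0, 0, 0, 0), (48, 0, 0, 0, 0), (48, 0, 0, 0, 0), (49, 0, 0, 0, 0), (49, 0, 0, 0, 0), (50, 0, 0, 0, 0), (50, 0, 0, 0, 0), (48, 0, 0, 0, 0), (48, 0, 0, 0, 0), (51, 0, 0, 0, 0), (51, 0, 0, 0, 0), (52, 0, 0, 0, 0), (52, 0, 0, 0, 0), (49, 0, 0, 0, 0), (49, 0, 0, 0, 0), (51, 0, 0, 0, 0), (51, 0, 0, 0, 0), (53, 0, 0, 0, 0), (53, 0, 0, 0, 0), (50, 0, 0, 0, 0), (50, 0, 0, 0, 0), (52, 0, 0, 0, 0), (52, 0, 0, 0, 0), (53, 0, 0,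 0, 0), (53, 0, 0, 0, 0), (54, 0, 0, 0, 0), (54, 0, 0, 0, 0), (55, 0, 0, 0, 0), (55, 0, 0, 0, 0), (56, 0, 0, 0, 0), (56, 0, 0, 0, 0), (54, 0, 0, 0, 0), (54, 0, 0, 0, 0), (57, 0, 0, 0, 0), (57, 0, 0, 0, 0), (58, 0, 0, 0, 0), (58, 0, 0, 0, 0), (55, 0, 0, 0, 0), (55, 0, 0, 0, 0), (57, 0, 0, 0, 0), (57, 0, 0, 0, 0), (59, 0, 0, 0, 0), (59, 0, 0, 0, 0), (56, 0, 0, 0, 0), (56, 0, 0, 0, 0), (58, 0, 0, 0, 0), (58, 0, 0, 0, 0), (59, 0, 0, 0, 0), (59, 0, 0, 0, 0)]]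

def m55_3 : Base := (0, 1, [(0, [0], [0, 1]), (0, [1], [2, 3]), (1, [], [4, 5]), (4, [], [5])])

def l55_3 : Cov := [(1920, 0, 1, [(0, [0], [0, 1]), (0, [1], [2, 3]), (1, [], [4, 5]), (4, [], [5])]),
  (1920, 0, 1, [(0, [0], [0, 1]), (0, [1], [2, 4]), (1, [], [3, 5]), (4, [], [5])]),
  (1920, 0, 1, [(0, [0], [0, 1]), (0, [1], [3, 4]), (1, [], [2, 5]), (4, [], [5])]),
  (1920, 0, 1, [(0, [0], [0, 2]), (0, [1], [1, 3]), (1, [], [4, 5]), (4, [], [5])]),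
  (1920, 0, 1, [(0, [0], [0, 2]), (0, [1], [1, 4]), (1, [], [3, 5]), (4, [], [5])]),
  (1920, 0, 1, [(0, [0], [0, 2]), (0, [1], [3, 4]), (1, [], [1, 5]), (4, [], [5])]),
  (1920, 0, 1, [(0, [0], [0, 3]), (0, [1], [1, 2]), (1, [], [4, 5]), (4, [], [5])]),
  (1920, 0, 1, [(0, [0], [0, 3]), (0, [1], [1, 4]), (1, [], [2, 5]), (4, [], [5])]),
  (1920, 0, 1, [(0, [0], [0, 3]), (0, [1], [2, 4]), (1, [], [1, 5]), (4, [], [5])]),
  (1920, 0, 1, [(0, [0], [0, 4]), (0, [1], [1, 2]), (1, [], [3, 5]), (4, [], [5])]),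
  (1920, 0, 1, [(0, [0], [0, 4]), (0, [1], [1, 3]), (1, [], [2, 5]), (4, [], [5])]),
  (1920, 0, 1, [(0, [0], [0, 4]), (0, [1], [2, 3]), (1, [], [1, 5]), (4, [], [5])]),
  (1920, 0, 1, [(0, [0], [1, 2]), (0, [1], [0, 3]), (1, [], [4, 5]), (4, [], [5])]),
  (1920, 0, 1, [(0, [0], [1, 2]), (0, [1], [0, 4]), (1, [], [3, 5]), (4, [], [5])]),
  (1920, 0, 1, [(0, [0], [1, 2]), (0, [1], [3, 4]), (1, [], [0, 5]), (4, [], [5])]),
  (1920, 0, 1, [(0, [0], [1, 3]), (0, [1], [0, 2]), (1, [], [4, 5]), (4, [], [5])]),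
  (1920, 0, 1, [(0, [0], [1, 3]), (0, [1], [0, 4]), (1, [], [2, 5]), (4, [], [5])]),
  (1920, 0, 1, [(0, [0], [1, 3]), (0, [1], [2, 4]), (1, [], [0, 5]), (4, [], [5])]),
  (1920, 0, 1, [(0, [0], [1, 4]), (0, [1], [0, 2]), (1, [], [3, 5]), (4, [], [5])]),
  (1920, 0, 1, [(0, [0], [1, 4]), (0, [1], [0, 3]), (1, [], [2, 5]), (4, [], [5])]),
  (1920, 0, 1, [(0, [0], [1, 4]), (0, [1], [2, 3]), (1, [], [0, 5]), (4, [], [5])]),
  (1920, 0, 1, [(0, [0], [2, 3]), (0, [1], [0, 1]), (1, [], [4, 5]), (4, [], [5])]),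
  (1920, 0, 1, [(0, [0], [2, 3]), (0, [1], [0, 4]), (1, [], [1, 5]), (4, [], [5])]),
  (1920, 0, 1, [(0, [0], [2, 3]), (0, [1], [1, 4]), (1, [], [0, 5]), (4, [], [5])]),
  (1920, 0, 1, [(0, [0], [2, 4]), (0, [1], [0, 1]), (1, [], [3, 5]), (4, [], [5])]),
  (1920, 0, 1, [(0, [0], [2, 4]), (0, [1], [0, 3]), (1, [], [1, 5]), (4, [], [5])]),
  (1920, 0, 1, [(0, [0], [2, 4]), (0, [1], [1, 3]), (1, [], [0, 5]), (4, [], [5])]),
  (1920, 0, 1, [(0, [0], [3, 4]), (0, [1], [0, 1]), (1, [], [2, 5]), (4, [], [5])]),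
  (1920, 0, 1, [(0, [0], [3, 4]), (0, [1], [0, 2]), (1, [], [1, 5]), (4, [], [5])]),
  (1920, 0, 1, [(0, [0], [3, 4]), (0, [1], [1, 2]), (1, [], [0, 5]), (4, [], [5])])]

def z55_3 : Cov := []

def w55_3 : List (List Wit) := [[(0, 0, 0, 0, 0), (1, 0, 0, 0, 0), (0, 0, 0, 0, 0), (2, 0, 0, 0, 0), (1, 0, 0, 0, 0), (2, 0, 0, 0, 0), (3, 0, 0, 0, 0), (4, 0, 0, 0, 0), (3, 0, 0, 0, 0), (5, 0, 0, 0, 0), (4, 0, 0, 0, 0), (5, 0, 0, 0, 0), (6, 0, 0, 0, 0), (7, 0, 0, 0, 0), (6, 0, 0, 0, 0), (8, 0, 0, 0, 0), (7, 0, 0, 0, 0), (8, 0, 0, 0, 0), (9, 0, 0, 0, 0), (10, 0, 0, 0, 0), (9, 0, 0, 0, 0), (11, 0, 0, 0, 0), (10, 0, 0, 0, 0), (11, 0, 0, 0, 0), (0, 0, 0, 0, 0), (1, 0, 0, 0, 0), (0, 0, 0, 0, 0), (2, 0, 0, 0, 0), (1, 0, 0, 0, 0), (2, 0, 0, 0, 0), (12, 0, 0, 0, 0), (13, 0, 0, 0, 0), (12, 0, 0, 0, 0), (14, 0, 0, 0, 0), (13, 0, 0, 0, 0), (14, 0, 0, 0, 0), (15,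 0, 0, 0, 0), (16, 0, 0, 0, 0), (15, 0, 0, 0, 0), (17, 0, 0, 0, 0), (16, 0, 0, 0, 0), (17, 0, 0, 0, 0), (18, 0, 0, 0, 0), (19, 0, 0, 0, 0), (18, 0, 0, 0, 0), (20, 0, 0, 0, 0), (19, 0, 0, 0, 0), (20, 0, 0, 0, 0), (3, 0, 0, 0, 0), (4, 0, 0, 0, 0), (3, 0, 0, 0, 0), (5, 0, 0, 0, 0), (4, 0, 0, 0, 0), (5, 0, 0, 0, 0), (12, 0, 0, 0, 0), (13, 0, 0, 0, 0), (12, 0, 0, 0, 0), (14, 0, 0, 0, 0), (13, 0, 0, 0, 0), (14, 0, 0, 0, 0), (21, 0, 0, 0, 0), (22, 0, 0, 0, 0), (21, 0, 0, 0, 0), (23, 0, 0, 0, 0), (22, 0, 0, 0, 0), (23, 0, 0, 0, 0), (24, 0, 0, 0, 0), (25, 0, 0, 0, 0), (24, 0, 0, 0, 0), (26, 0, 0, 0, 0), (25, 0, 0, 0, 0), (26, 0, 0, 0, 0), (6, 0, 0, 0, 0), (7, 0, 0, 0, 0), (6, 0, 0, 0, 0), (8, 0, 0, 0, 0), (7, 0, 0, 0, 0), (8, 0, 0, 0, 0), (15, 0, 0, 0, 0), (16, 0, 0, 0, 0), (15, 0, 0, 0, 0), (17, 0, 0, 0, 0), (16, 0, 0, 0, 0), (17, 0, 0, 0, 0), (21,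 0, 0, 0, 0), (22, 0, 0, 0, 0), (21, 0, 0, 0, 0), (23, 0, 0, 0, 0), (22, 0, 0, 0, 0), (23, 0, 0, 0, 0), (27, 0, 0, 0, 0), (28, 0, 0, 0, 0), (27, 0, 0, 0, 0), (29, 0, 0, 0, 0), (28, 0, 0, 0, 0), (29, 0, 0, 0, 0), (9, 0, 0, 0, 0), (10, 0, 0, 0, 0), (9, 0, 0, 0, 0), (11, 0, 0, 0, 0), (10, 0, 0, 0, 0), (11, 0, 0, 0, 0), (18, 0, 0, 0, 0), (19, 0, 0, 0, 0), (18, 0, 0, 0, 0), (20, 0, 0, 0, 0), (19, 0, 0, 0, 0), (20, 0, 0, 0, 0), (24, 0, 0, 0, 0), (25, 0, 0, 0, 0), (24, 0, 0, 0, 0), (26, 0, 0, 0, 0), (25, 0, 0, 0, 0), (26, 0, 0, 0, 0), (27, 0, 0, 0, 0), (28, 0, 0, 0, 0), (27, 0, 0, 0, 0), (29, 0, 0, 0, 0), (28, 0, 0, 0, 0), (29, 0, 0, 0, 0)],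
  [(21, 0, 0, 0, 0), (24, 0, 0, 0, 0), (21, 0, 0, 0, 0), (27, 0, 0, 0, 0), (24, 0, 0, 0, 0), (27, 0, 0, 0, 0), (15, 0, 0, 0, 0), (18, 0, 0, 0, 0), (15, 0, 0, 0, 0), (28, 0, 0, 0, 0), (18, 0, 0, 0, 0), (28, 0, 0, 0, 0), (12, 0, 0, 0, 0), (19, 0, 0, 0, 0), (12, 0, 0, 0, 0), (25, 0, 0, 0, 0), (19, 0, 0, 0, 0), (25, 0, 0, 0, 0), (13, 0, 0, 0, 0), (16, 0, 0, 0, 0), (13, 0, 0, 0, 0), (22, 0, 0, 0, 0), (16, 0, 0, 0, 0), (22, 0, 0, 0, 0), (21, 0, 0, 0, 0), (24, 0, 0, 0, 0), (21, 0, 0, 0, 0), (27, 0, 0, 0, 0), (24, 0, 0, 0, 0), (27, 0, 0, 0, 0), (6, 0, 0, 0, 0), (9, 0, 0, 0, 0), (6, 0, 0, 0, 0), (29, 0, 0, 0, 0), (9, 0, 0, 0, 0), (29, 0, 0, 0, 0), (3, 0, 0, 0, 0), (10, 0, 0, 0, 0), (3, 0, 0, 0, 0), (26, 0, 0, 0, 0), (10, 0, 0, 0, 0), (26, 0, 0, 0, 0), (4, 0, 0, 0, 0), (7, 0, 0, 0, 0), (4, 0, 0, 0, 0), (23, 0, 0, 0, 0), (7, 0, 0, 0, 0), (23, 0, 0, 0,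 0), (15, 0, 0, 0, 0), (18, 0, 0, 0, 0), (15, 0, 0, 0, 0), (28, 0, 0, 0, 0), (18, 0, 0, 0, 0), (28, 0, 0, 0, 0), (6, 0, 0, 0, 0), (9, 0, 0, 0, 0), (6, 0, 0, 0, 0), (29, 0, 0, 0, 0), (9, 0, 0, 0, 0), (29, 0, 0, 0, 0), (0, 0, 0, 0, 0), (11, 0, 0, 0, 0), (0, 0, 0, 0, 0), (20, 0, 0, 0, 0), (11, 0, 0, 0, 0), (20, 0, 0, 0, 0), (1, 0, 0, 0, 0), (8, 0, 0, 0, 0), (1, 0, 0, 0, 0), (17, 0, 0, 0, 0), (8, 0, 0, 0, 0), (17, 0, 0, 0, 0), (12, 0, 0, 0, 0), (19, 0, 0, 0, 0), (12, 0, 0, 0, 0), (25, 0, 0, 0, 0), (19, 0, 0, 0, 0), (25, 0, 0, 0, 0), (3, 0, 0, 0, 0), (10, 0, 0, 0, 0), (3, 0, 0, 0, 0), (26, 0, 0, 0, 0), (10, 0, 0, 0, 0), (26, 0, 0, 0, 0), (0, 0, 0, 0, 0), (11, 0, 0, 0, 0), (0, 0, 0, 0, 0), (20, 0, 0, 0, 0), (11, 0, 0, 0, 0), (20, 0, 0, 0, 0), (2, 0, 0, 0, 0), (5, 0, 0, 0, 0), (2, 0, 0, 0, 0), (14, 0, 0, 0, 0), (5, 0, 0, 0, 0), (14, 0, 0, 0, 0), (13,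 0, 0, 0, 0), (16, 0, 0, 0, 0), (13, 0, 0, 0, 0), (22, 0, 0, 0, 0), (16, 0, 0, 0, 0), (22, 0, 0, 0, 0), (4, 0, 0, 0, 0), (7, 0, 0, 0, 0), (4, 0, 0, 0, 0), (23, 0, 0, 0, 0), (7, 0, 0, 0, 0), (23, 0, 0, 0, 0), (1, 0, 0, 0, 0), (8, 0, 0, 0, 0), (1, 0, 0, 0, 0), (17, 0, 0, 0, 0), (8, 0, 0, 0, 0), (17, 0, 0, 0, 0), (2, 0, 0, 0, 0), (5, 0, 0, 0, 0), (2, 0, 0, 0, 0), (14, 0, 0, 0, 0), (5, 0, 0, 0, 0), (14, 0, 0, 0, 0)]]

def m55_4 : Base := (0, 0, [(0, [0], [0, 1]), (0, [1], [2, 3]), (4, [], [4])])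

def l55_4 : Cov := [(1920, 0, 0, [(0, [0], [0, 1]), (0, [1], [2, 3]), (4, [], [4])]),
  (1920, 0, 0, [(0, [0], [0, 1]), (0, [1], [2, 4]), (4, [], [3])]),
  (1920, 0, 0, [(0, [0], [0, 1]), (0, [1], [3, 4]), (4, [], [2])]),
  (1920, 0, 0, [(0, [0], [0, 2]), (0, [1], [1, 3]), (4, [], [4])]),
  (1920, 0, 0, [(0, [0], [0, 2]), (0, [1], [1, 4]), (4, [], [3])]),
  (1920, 0, 0, [(0, [0], [0, 2]), (0, [1], [3, 4]), (4, [], [1])]),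
  (1920, 0, 0, [(0, [0], [0, 3]), (0, [1], [1, 2]), (4, [], [4])]),
  (1920, 0, 0, [(0, [0], [0, 3]), (0, [1], [1, 4]), (4, [], [2])]),
  (1920, 0, 0, [(0, [0], [0, 3]), (0, [1], [2, 4]), (4, [], [1])]),
  (1920, 0, 0, [(0, [0], [0, 4]), (0, [1], [1, 2]), (4, [], [3])]),
  (1920, 0, 0, [(0, [0], [0, 4]), (0, [1], [1, 3]), (4, [], [2])]),
  (1920, 0, 0, [(0, [0], [0, 4]), (0, [1], [2, 3]), (4, [], [1])]),
  (1920, 0, 0, [(0, [0], [1, 2]), (0, [1], [0, 3]), (4, [], [4])]),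
  (1920, 0, 0, [(0, [0], [1, 2]), (0, [1], [0, 4]), (4, [], [3])]),
  (1920, 0, 0, [(0, [0], [1, 2]), (0, [1], [3, 4]), (4, [], [0])]),
  (1920, 0, 0, [(0, [0], [1, 3]), (0, [1], [0, 2]), (4, [], [4])]),
  (1920, 0, 0, [(0, [0], [1, 3]), (0, [1], [0, 4]), (4, [], [2])]),
  (1920, 0, 0, [(0, [0], [1, 3]), (0, [1], [2, 4]), (4, [], [0])]),
  (1920, 0, 0, [(0, [0], [1, 4]), (0, [1], [0, 2]), (4, [], [3])]),
  (1920, 0, 0, [(0, [0], [1, 4]), (0, [1], [0, 3]), (4, [], [2])]),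
  (1920, 0, 0, [(0, [0], [1, 4]), (0, [1], [2, 3]), (4, [], [0])]),
  (1920, 0, 0, [(0, [0], [2, 3]), (0, [1], [0, 1]), (4, [], [4])]),
  (1920, 0, 0, [(0, [0], [2, 3]), (0, [1], [0, 4]), (4, [], [1])]),
  (1920, 0, 0, [(0, [0], [2, 3]), (0, [1], [1, 4]), (4, [], [0])]),
  (1920, 0, 0, [(0, [0], [2, 4]), (0, [1], [0, 1]), (4, [], [3])]),
  (1920, 0, 0, [(0, [0], [2, 4]), (0, [1], [0, 3]), (4, [], [1])]),
  (1920, 0, 0, [(0, [0], [2, 4]), (0, [1], [1, 3]), (4, [], [0])]),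
  (1920, 0, 0, [(0, [0], [3, 4]), (0, [1], [0, 1]), (4, [], [2])]),
  (1920, 0, 0, [(0, [0], [3, 4]), (0, [1], [0, 2]), (4, [], [1])]),
  (1920, 0, 0, [(0, [0], [3, 4]), (0, [1], [1, 2]), (4, [], [0])])]

def z55_4 : Cov := []

def w55_4 : List (List Wit) := [[(0, 0, 0, 0, 0), (1, 0, 0, 0, 0), (0, 0, 0, 0, 0), (2, 0, 0, 0, 0), (1, 0, 0, 0, 0), (2, 0, 0, 0, 0), (3, 0, 0, 0, 0), (4, 0, 0, 0, 0), (3, 0, 0, 0, 0), (5, 0, 0, 0, 0), (4, 0, 0, 0, 0), (5, 0, 0, 0, 0), (6, 0, 0, 0, 0), (7, 0, 0, 0, 0), (6, 0, 0, 0, 0), (8, 0, 0, 0, 0), (7, 0, 0, 0, 0), (8, 0, 0, 0, 0), (9, 0, 0, 0, 0), (10, 0, 0, 0, 0), (9, 0, 0, 0, 0), (11, 0, 0, 0, 0), (10, 0, 0, 0, 0), (11, 0, 0, 0, 0), (0, 0, 0, 0, 0), (1, 0, 0, 0, 0), (0, 0, 0, 0, 0), (2, 0, 0, 0, 0), (1, 0, 0, 0, 0), (2, 0, 0, 0, 0), (12, 0, 0, 0, 0), (13, 0, 0, 0, 0), (12, 0, 0, 0, 0), (14, 0, 0, 0, 0), (13,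 0, 0, 0, 0), (14, 0, 0, 0, 0), (15, 0, 0, 0, 0), (16, 0, 0, 0, 0), (15, 0, 0, 0, 0), (17, 0, 0, 0, 0), (16, 0, 0, 0, 0), (17, 0, 0, 0, 0), (18, 0, 0, 0, 0), (19, 0, 0, 0, 0), (18, 0, 0, 0, 0), (20, 0, 0, 0, 0), (19, 0, 0, 0, 0), (20, 0, 0, 0, 0), (3, 0, 0, 0, 0), (4, 0, 0, 0, 0), (3, 0, 0, 0, 0), (5, 0, 0, 0, 0), (4, 0, 0, 0, 0), (5, 0, 0, 0, 0), (12, 0, 0, 0, 0), (13, 0, 0, 0, 0), (12, 0, 0, 0, 0), (14, 0, 0, 0, 0), (13, 0, 0, 0, 0), (14, 0, 0, 0, 0), (21, 0, 0, 0, 0), (22, 0, 0, 0, 0), (21, 0, 0, 0, 0), (23, 0, 0, 0, 0), (22, 0, 0, 0, 0), (23, 0, 0, 0, 0), (24, 0, 0, 0, 0), (25, 0, 0, 0, 0), (24, 0, 0, 0, 0), (26, 0, 0, 0, 0), (25, 0, 0, 0, 0), (26, 0, 0, 0, 0), (6, 0, 0, 0, 0), (7, 0, 0, 0, 0), (6, 0, 0, 0, 0), (8, 0, 0, 0, 0), (7, 0, 0, 0, 0), (8, 0, 0, 0, 0), (15, 0, 0, 0, 0), (16, 0, 0, 0, 0), (15, 0, 0, 0, 0), (17, 0, 0, 0, 0), (16,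 0, 0, 0, 0), (17, 0, 0, 0, 0), (21, 0, 0, 0, 0), (22, 0, 0, 0, 0), (21, 0, 0, 0, 0), (23, 0, 0, 0, 0), (22, 0, 0, 0, 0), (23, 0, 0, 0, 0), (27, 0, 0, 0, 0), (28, 0, 0, 0, 0), (27, 0, 0, 0, 0), (29, 0, 0, 0, 0), (28, 0, 0, 0, 0), (29, 0, 0, 0, 0), (9, 0, 0, 0, 0), (10, 0, 0, 0, 0), (9, 0, 0, 0, 0), (11, 0, 0, 0, 0), (10, 0, 0, 0, 0), (11, 0, 0, 0, 0), (18, 0, 0, 0, 0), (19, 0, 0, 0, 0), (18, 0, 0, 0, 0), (20, 0, 0, 0, 0), (19, 0, 0, 0, 0), (20, 0, 0, 0, 0), (24, 0, 0, 0, 0), (25, 0, 0, 0, 0), (24, 0, 0, 0, 0), (26, 0, 0, 0, 0), (25, 0, 0, 0, 0), (26, 0, 0, 0, 0), (27, 0, 0, 0, 0), (28, 0, 0, 0, 0), (27, 0, 0, 0, 0), (29, 0, 0, 0, 0), (28, 0, 0, 0, 0), (29, 0, 0, 0, 0)],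
  [(21, 0, 0, 0, 0), (24, 0, 0, 0, 0), (21, 0, 0, 0, 0), (27, 0, 0, 0, 0), (24, 0, 0, 0, 0), (27, 0, 0, 0, 0), (15, 0, 0, 0, 0), (18, 0, 0, 0, 0), (15, 0, 0, 0, 0), (28, 0, 0, 0, 0), (18, 0, 0, 0, 0), (28, 0, 0, 0, 0), (12, 0, 0, 0, 0), (19, 0, 0, 0, 0), (12, 0, 0, 0, 0), (25, 0, 0, 0, 0), (19, 0, 0, 0, 0), (25, 0, 0, 0, 0), (13, 0, 0, 0, 0), (16, 0, 0, 0, 0), (13, 0, 0, 0, 0), (22, 0, 0, 0, 0), (16, 0, 0, 0, 0), (22, 0, 0, 0, 0), (21, 0, 0, 0, 0), (24, 0, 0, 0, 0), (21, 0, 0, 0, 0), (27, 0, 0, 0, 0), (24, 0, 0, 0, 0), (27, 0, 0, 0, 0), (6, 0, 0, 0, 0), (9, 0, 0, 0, 0), (6, 0, 0, 0, 0), (29, 0, 0, 0, 0), (9, 0, 0, 0, 0), (29, 0, 0, 0, 0), (3, 0, 0, 0, 0), (10, 0, 0, 0, 0), (3, 0, 0, 0, 0), (26, 0, 0, 0, 0), (10, 0, 0, 0, 0), (26, 0, 0, 0, 0), (4, 0, 0, 0, 0), (7, 0, 0, 0, 0), (4, 0, 0, 0, 0), (23, 0, 0, 0, 0), (7, 0, 0, 0, 0), (23, 0, 0, 0,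 0), (15, 0, 0, 0, 0), (18, 0, 0, 0, 0), (15, 0, 0, 0, 0), (28, 0, 0, 0, 0), (18, 0, 0, 0, 0), (28, 0, 0, 0, 0), (6, 0, 0, 0, 0), (9, 0, 0, 0, 0), (6, 0, 0, 0, 0), (29, 0, 0, 0, 0), (9, 0, 0, 0, 0), (29, 0, 0, 0, 0), (0, 0, 0, 0, 0), (11, 0, 0, 0, 0), (0, 0, 0, 0, 0), (20, 0, 0, 0, 0), (11, 0, 0, 0, 0), (20, 0, 0, 0, 0), (1, 0, 0, 0, 0), (8, 0, 0, 0, 0), (1, 0, 0, 0, 0), (17, 0, 0, 0, 0), (8, 0, 0, 0, 0), (17, 0, 0, 0, 0), (12, 0, 0, 0, 0), (19, 0, 0, 0, 0), (12, 0, 0, 0, 0), (25, 0, 0, 0, 0), (19, 0, 0, 0, 0), (25, 0, 0, 0, 0), (3, 0, 0, 0, 0), (10, 0, 0, 0, 0), (3, 0, 0, 0, 0), (26, 0, 0, 0, 0), (10, 0, 0, 0, 0), (26, 0, 0, 0, 0), (0, 0, 0, 0, 0), (11, 0, 0, 0, 0), (0, 0, 0, 0, 0), (20, 0, 0, 0, 0), (11, 0, 0, 0, 0), (20, 0, 0, 0, 0), (2, 0, 0, 0, 0), (5, 0, 0, 0, 0), (2, 0, 0, 0, 0), (14, 0, 0, 0, 0), (5, 0, 0, 0, 0), (14, 0, 0, 0, 0), (13,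 0, 0, 0, 0), (16, 0, 0, 0, 0), (13, 0, 0, 0, 0), (22, 0, 0, 0, 0), (16, 0, 0, 0, 0), (22, 0, 0, 0, 0), (4, 0, 0, 0, 0), (7, 0, 0, 0, 0), (4, 0, 0, 0, 0), (23, 0, 0, 0, 0), (7, 0, 0, 0, 0), (23, 0, 0, 0, 0), (1, 0, 0, 0, 0), (8, 0, 0, 0, 0), (1, 0, 0, 0, 0), (17, 0, 0, 0, 0), (8, 0, 0, 0, 0), (17, 0, 0, 0, 0), (2, 0, 0, 0, 0), (5, 0, 0, 0, 0), (2, 0, 0, 0, 0), (14, 0, 0, 0, 0), (5, 0, 0, 0, 0), (14, 0, 0, 0, 0)]]

def m55_5 : Base := (0, 0, [(0, [0], [0, 1]), (2, [1], [2, 3, 4])])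

def l55_5 : Cov := [(2880, 0, 0, [(0, [0], [0, 1]), (2, [1], [2, 3, 4])]),
  (2880, 0, 0, [(0, [0], [0, 2]), (2, [1], [1, 3, 4])]),
  (2880, 0, 0, [(0, [0], [0, 3]), (2, [1], [1, 2, 4])]),
  (2880, 0, 0, [(0, [0], [0, 4]), (2, [1], [1, 2, 3])]),
  (2880, 0, 0, [(0, [0], [1, 2]), (2, [1], [0, 3, 4])]),
  (2880, 0, 0, [(0, [0], [1, 3]), (2, [1], [0, 2, 4])]),
  (2880, 0, 0, [(0, [0], [1, 4]), (2, [1], [0, 2, 3])]),
  (2880, 0, 0, [(0, [0], [2, 3]), (2, [1], [0, 1, 4])]),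
  (2880, 0, 0, [(0, [0], [2, 4]), (2, [1], [0, 1, 3])]),
  (2880, 0, 0, [(0, [0], [3, 4]), (2, [1], [0, 1, 2])]),
  (2880, 0, 0, [(0, [1], [0, 1]), (2, [0], [2, 3, 4])]),
  (2880, 0, 0, [(0, [1], [0, 2]), (2, [0], [1, 3, 4])]),
  (2880, 0, 0, [(0, [1], [0, 3]), (2, [0], [1, 2, 4])]),
  (2880, 0, 0, [(0, [1], [0, 4]), (2, [0], [1, 2, 3])]),
  (2880, 0, 0, [(0, [1], [1, 2]), (2, [0], [0, 3, 4])]),
  (2880, 0, 0, [(0, [1], [1, 3]), (2, [0], [0, 2, 4])]),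
  (2880, 0, 0, [(0, [1], [1, 4]), (2, [0], [0, 2, 3])]),
  (2880, 0, 0, [(0, [1], [2, 3]), (2, [0], [0, 1, 4])]),
  (2880, 0, 0, [(0, [1], [2, 4]), (2, [0], [0, 1, 3])]),
  (2880, 0, 0, [(0, [1], [3, 4]), (2, [0], [0, 1, 2])])]

def z55_5 : Cov := []

def w55_5 : List (List Wit) := [[(0, 0, 0, 0, 0), (0, 0, 0, 0, 0), (0, 0, 0, 0, 0), (0, 0, 0, 0, 0), (0, 0, 0, 0, 0), (0, 0, 0, 0, 0), (1, 0, 0, 0, 0), (1, 0, 0, 0, 0), (1, 0, 0, 0, 0), (1, 0, 0, 0, 0), (1, 0, 0, 0, 0), (1, 0, 0, 0, 0), (2, 0, 0, 0, 0), (2, 0, 0, 0, 0), (2, 0, 0, 0, 0), (2, 0, 0, 0, 0), (2, 0, 0, 0, 0), (2, 0, 0, 0, 0), (3, 0, 0, 0, 0), (3, 0, 0, 0, 0), (3, 0, 0, 0, 0), (3, 0, 0, 0, 0), (3, 0, 0, 0, 0), (3, 0, 0, 0, 0), (0, 0, 0, 0, 0), (0, 0, 0, 0, 0), (0, 0, 0, 0, 0), (0, 0, 0, 0, 0), (0, 0, 0, 0, 0), (0, 0, 0, 0, 0), (4, 0, 0, 0, 0), (4, 0, 0, 0, 0), (4, 0, 0, 0, 0), (4, 0,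 0, 0, 0), (4, 0, 0, 0, 0), (4, 0, 0, 0, 0), (5, 0, 0, 0, 0), (5, 0, 0, 0, 0), (5, 0, 0, 0, 0), (5, 0, 0, 0, 0), (5, 0, 0, 0, 0), (5, 0, 0, 0, 0), (6, 0, 0, 0, 0), (6, 0, 0, 0, 0), (6, 0, 0, 0, 0), (6, 0, 0, 0, 0), (6, 0, 0, 0, 0), (6, 0, 0, 0, 0), (1, 0, 0, 0, 0), (1, 0, 0, 0, 0), (1, 0, 0, 0, 0), (1, 0, 0, 0, 0), (1, 0, 0, 0, 0), (1, 0, 0, 0, 0), (4, 0, 0, 0, 0), (4, 0, 0, 0, 0), (4, 0, 0, 0, 0), (4, 0, 0, 0, 0), (4, 0, 0, 0, 0), (4, 0, 0, 0, 0), (7, 0, 0, 0, 0), (7, 0, 0, 0, 0), (7, 0, 0, 0, 0), (7, 0, 0, 0, 0), (7, 0, 0, 0, 0), (7, 0, 0, 0, 0), (8, 0, 0, 0, 0), (8, 0, 0, 0, 0), (8, 0, 0, 0, 0), (8, 0, 0, 0, 0), (8, 0, 0, 0, 0), (8, 0, 0, 0, 0), (2, 0, 0, 0, 0), (2, 0, 0, 0, 0), (2, 0, 0, 0, 0), (2, 0, 0, 0, 0), (2, 0, 0, 0, 0), (2, 0, 0, 0, 0), (5, 0, 0, 0, 0), (5, 0, 0, 0, 0), (5, 0, 0, 0, 0), (5, 0, 0, 0, 0), (5, 0, 0, 0, 0), (5, 0, 0,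 0, 0), (7, 0, 0, 0, 0), (7, 0, 0, 0, 0), (7, 0, 0, 0, 0), (7, 0, 0, 0, 0), (7, 0, 0, 0, 0), (7, 0, 0, 0, 0), (9, 0, 0, 0, 0), (9, 0, 0, 0, 0), (9, 0, 0, 0, 0), (9, 0, 0, 0, 0), (9, 0, 0, 0, 0), (9, 0, 0, 0, 0), (3, 0, 0, 0, 0), (3, 0, 0, 0, 0), (3, 0, 0, 0, 0), (3, 0, 0, 0, 0), (3, 0, 0, 0, 0), (3, 0, 0, 0, 0), (6, 0, 0, 0, 0), (6, 0, 0, 0, 0), (6, 0, 0, 0, 0), (6, 0, 0, 0, 0), (6, 0, 0, 0, 0), (6, 0, 0, 0, 0), (8, 0, 0, 0, 0), (8, 0, 0, 0, 0), (8, 0, 0, 0, 0), (8, 0, 0, 0, 0), (8, 0, 0, 0, 0), (8, 0, 0, 0, 0), (9, 0, 0, 0, 0), (9, 0, 0, 0, 0), (9, 0, 0, 0, 0), (9, 0, 0, 0, 0), (9, 0, 0, 0, 0), (9, 0, 0, 0, 0)],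
  [(10, 0, 0, 0, 0), (10, 0, 0, 0, 0), (10, 0, 0, 0, 0), (10, 0, 0, 0, 0), (10, 0, 0, 0, 0), (10, 0, 0, 0, 0), (11, 0, 0, 0, 0), (11, 0, 0, 0, 0), (11, 0, 0, 0, 0), (11, 0, 0, 0, 0), (11, 0, 0, 0, 0), (11, 0, 0, 0, 0), (12, 0, 0, 0, 0), (12, 0, 0, 0, 0), (12, 0, 0, 0, 0), (12, 0, 0, 0, 0), (12, 0, 0, 0, 0), (12, 0, 0, 0, 0), (13, 0, 0, 0, 0), (13, 0, 0, 0, 0), (13, 0, 0, 0, 0), (13, 0, 0, 0, 0), (13, 0, 0, 0, 0), (13, 0, 0, 0, 0), (10, 0, 0, 0, 0), (10, 0, 0, 0, 0), (10, 0, 0, 0, 0), (10, 0, 0, 0, 0), (10, 0, 0, 0, 0), (10, 0, 0, 0, 0), (14, 0, 0, 0, 0), (14, 0, 0, 0, 0), (14, 0, 0, 0, 0), (14, 0, 0, 0, 0), (14, 0, 0, 0, 0), (14, 0, 0, 0, 0), (15, 0, 0, 0, 0), (15, 0, 0, 0, 0), (15, 0, 0, 0, 0), (15, 0, 0, 0, 0), (15, 0, 0, 0, 0), (15, 0, 0, 0, 0), (16, 0, 0, 0, 0), (16, 0, 0, 0, 0), (16, 0, 0, 0, 0), (16, 0, 0, 0, 0), (16, 0, 0, 0, 0), (16,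 0, 0, 0, 0), (11, 0, 0, 0, 0), (11, 0, 0, 0, 0), (11, 0, 0, 0, 0), (11, 0, 0, 0, 0), (11, 0, 0, 0, 0), (11, 0, 0, 0, 0), (14, 0, 0, 0, 0), (14, 0, 0, 0, 0), (14, 0, 0, 0, 0), (14, 0, 0, 0, 0), (14, 0, 0, 0, 0), (14, 0, 0, 0, 0), (17, 0, 0, 0, 0), (17, 0, 0, 0, 0), (17, 0, 0, 0, 0), (17, 0, 0, 0, 0), (17, 0, 0, 0, 0), (17, 0, 0, 0, 0), (18, 0, 0, 0, 0), (18, 0, 0, 0, 0), (18, 0, 0, 0, 0), (18, 0, 0, 0, 0), (18, 0, 0, 0, 0), (18, 0, 0, 0, 0), (12, 0, 0, 0, 0), (12, 0, 0, 0, 0), (12, 0, 0, 0, 0), (12, 0, 0, 0, 0), (12, 0, 0, 0, 0), (12, 0, 0, 0, 0), (15, 0, 0, 0, 0), (15, 0, 0, 0, 0), (15, 0, 0, 0, 0), (15, 0, 0, 0, 0), (15, 0, 0, 0, 0), (15, 0, 0, 0, 0), (17, 0, 0, 0, 0), (17, 0, 0, 0, 0), (17, 0, 0, 0, 0), (17, 0, 0, 0, 0), (17, 0, 0, 0, 0), (17, 0, 0, 0, 0), (19, 0, 0, 0, 0), (19, 0, 0, 0, 0), (19, 0, 0, 0, 0), (19, 0, 0, 0, 0), (19, 0, 0,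 0, 0), (19, 0, 0, 0, 0), (13, 0, 0, 0, 0), (13, 0, 0, 0, 0), (13, 0, 0, 0, 0), (13, 0, 0, 0, 0), (13, 0, 0, 0, 0), (13, 0, 0, 0, 0), (16, 0, 0, 0, 0), (16, 0, 0, 0, 0), (16, 0, 0, 0, 0), (16, 0, 0, 0, 0), (16, 0, 0, 0, 0), (16, 0, 0, 0, 0), (18, 0, 0, 0, 0), (18, 0, 0, 0, 0), (18, 0, 0, 0, 0), (18, 0, 0, 0, 0), (18, 0, 0, 0, 0), (18, 0, 0, 0, 0), (19, 0, 0, 0, 0), (19, 0, 0, 0, 0), (19, 0, 0, 0, 0), (19, 0, 0, 0, 0), (19, 0, 0, 0, 0), (19, 0, 0, 0, 0)]]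

theorem tr55 : trK keys lk55 kl55 = true := by
  decide +kernel

theorem x55_0 : expB 2 5 dg11 dg4 m55_0 (l55_0 ++ z55_0) w55_0 = true := by
  decide +kernel

theorem x55_1 : expB 2 5 dg11 dg4 m55_1 (l55_1 ++ z55_1) w55_1 = true := by
  decide +kernel

theorem x55_2 : expB 2 5 dg11 dg4 m55_2 (l55_2 ++ z55_2) w55_2 = true := by
  decide +kernel

theorem x55_3 : expB 2 5 dg11 dg4 m55_3 (l55_3 ++ z55_3) w55_3 = true := by
  decide +kernel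

theorem x55_4 : expB 2 5 dg11 dg4 m55_4 (l55_4 ++ z55_4) w55_4 = true := by
  decide +kernel

theorem x55_5 : expB 2 5 dg11 dg4 m55_5 (l55_5 ++ z55_5) w55_5 = true := by
  decide +kernel

theorem t55_0_0 : chkS lk55 2 5 [(1, m55_0)] l55_0
  [(103, 16, 16, 34891056, 52696656), (104, 16, 16, 34891056, 52696656), (104, 16, 16, 34887216, 36968016), (93, 16, 16, 34891056, 52696656), (95, 16, 16, 34891056, 52696656), (80, 16, 16, 35017776, 70391376), (93, 16, 16, 34887216, 36968016), (95, 16, 16, 34887216, 36968016), (80, 16, 16, 35013936, 69408336), (80, 16, 16, 19096896, 52512096), (80, 16, 16, 19093056, 36783456), (79, 16, 16, 34891056, 52696656), (154, 16, 16, 34891056, 52696656), (155, 16, 16, 34891056, 52696656), (155, 16, 16, 34887216, 36968016), (149, 1, 1, 50618901, 50618901), (150, 1, 1, 50741781, 67330581), (66, 16, 16, 33969201, 70391301),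 (149, 1, 1, 50603541, 33841941), (150, 1, 1, 50734101, 67265301), (66, 16, 16, 33965361, 69408261), (66, 1, 1, 2188596, 52434246), (66, 1, 1, 2184756, 36705606), (27, 1, 1, 34825476, 52446801), (149, 16, 16, 50618961, 51667461), (150, 16, 16, 50741841, 68379141), (66, 1, 1, 33969171, 70387221), (93, 1, 1, 34891011, 52692561), (95, 1, 1, 34891011, 52692561), (80, 1, 1, 35017731, 70387281), (174, 16, 16, 34956096, 54601296), (142, 1, 1, 33961236, 69219861), (142, 16, 16, 33968961, 70329861), (142, 1, 1, 2188341, 50468166), (138, 1, 1, 33776916, 52446741), (140, 16, 16, 33907521, 54601221), (149, 16, 16, 50603601, 34890501), (150, 16, 16, 50734161, 68313861), (66, 1, 1, 33965331, 69404181), (93, 1, 1, 34887171, 36963921), (95, 1, 1, 34887171, 36963921), (80, 1, 1, 35013891, 69404241), (174, 16, 16, 34944576, 37828176), (142, 1, 1, 33968916, 70264341),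 (142, 16, 16, 33961281, 69285381), (142, 1, 1, 2180661, 33756486), (138, 1, 1, 33773076, 36718101), (140, 16, 16, 33896001, 37828101), (66, 16, 16, 2188611, 52495686), (66, 16, 16, 2184771, 36767046), (27, 16, 16, 34825536, 52512336), (80, 1, 1, 19096836, 52446561), (80, 1, 1, 19092996, 36717921), (79, 1, 1, 34891011, 52692561), (142, 16, 16, 2188371, 51512646), (140, 1, 1, 33907476, 54535701), (138, 16, 16, 33776961, 52512261), (142, 16, 16, 2180691, 34800966), (140, 1, 1, 33895956, 37762581), (138, 16, 16, 33773121, 36783621)]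
  [(27, 1920), (66, 7680), (79, 1920), (80, 7680), (93, 3840), (95, 3840), (103, 960), (104, 1920), (138, 3840), (140, 3840), (142, 7680), (149, 3840), (150, 3840), (154, 960), (155, 1920), (174, 1920)] = true := by
  decide +kernel

theorem t55_0_1 : chkS lk55 2 5 [(1, m55_0)] l55_1
  [(94, 16, 16, 34891056, 52696656), (96, 16, 16, 34891056, 52696656), (94, 16, 16, 34887216, 36968016), (96, 16, 16, 34887216, 36968016), (57, 1, 1, 69297411, 52823361), (57, 1, 1, 69293571, 37094721), (88, 16, 16, 34891056, 52696656), (78, 16, 16, 35017776, 70391376), (92, 16, 16, 35013936, 69408336), (76, 16, 16, 34956336, 54662736), (92, 16, 16, 35017776, 70391376), (76, 16, 16, 34948656, 37951056), (149, 16, 16, 34891056, 52696656), (150, 16, 16, 34891056, 52696656), (149, 16, 16, 34887216, 36968016), (150, 16, 16, 34887216, 36968016), (66, 1, 1, 70346016,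 52842816), (66, 1, 1, 70342176, 37114176), (145, 16, 16, 34891056, 52696656), (26, 1, 1, 35017731, 70387281), (148, 16, 16, 35013936, 69408336), (64, 16, 16, 33907761, 54662661), (148, 16, 16, 35017776, 70391376), (64, 16, 16, 33900081, 37950981), (46, 1, 1, 85156866, 56770641), (48, 1, 1, 85156866, 56770641), (146, 1, 1, 85206531, 40108881), (65, 1, 1, 67511571, 69600021), (65, 1, 1, 87122976, 56774976), (63, 1, 1, 84042771, 56755221), (89, 1, 1, 101983491, 103023441), (77, 1, 1, 68560131, 69600081), (56, 1, 1, 86074371, 56755521), (54, 1, 1, 86074371, 56755521), (135, 1, 1, 100869396, 102777621), (136, 16, 16, 50745921, 70345221), (46, 1, 1, 85149186, 40058961), (48, 1, 1, 85149186, 40058961), (146, 1, 1, 85221891, 56885841), (65, 1, 1, 67523091, 70648341), (65, 1, 1, 87115296, 40063296), (63, 1, 1, 84035091, 40043541), (89, 1, 1, 101995011,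 104071761), (77, 1, 1, 68571651, 70648401), (56, 1, 1, 86066691, 40043841), (54, 1, 1, 86066691, 40043841), (135, 1, 1, 100880916, 103825941), (136, 16, 16, 50734401, 69296901), (47, 1, 1, 68498946, 38154321), (47, 1, 1, 68510466, 54927441), (147, 1, 1, 85344771, 73597521), (64, 1, 1, 67461651, 54919701), (147, 1, 1, 85337091, 73532241), (64, 1, 1, 67446291, 38142741), (91, 1, 1, 85344771, 73597521), (76, 1, 1, 68510211, 54919761), (91, 1, 1, 85337091, 73532241), (76, 1, 1, 68494851, 38142801), (18, 16, 16, 50619681, 52715781), (133, 16, 16, 33776961, 52512261), (149, 16, 16, 85221936, 56889936), (150, 16, 16, 85344816, 73601616), (149, 16, 16, 85206576, 40112976), (150, 16, 16, 85337136, 73536336), (66, 16, 16, 70345986, 52842561), (66, 16, 16, 70342146, 37113921), (145, 1, 1, 34891011, 52692561), (26, 16, 16, 35017776, 70391376), (148, 1,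 1, 35013891, 69404241), (64, 1, 1, 33907731, 54658581), (148, 1, 1, 35017731, 70387281), (64, 1, 1, 33900051, 37946901), (94, 16, 16, 85221936, 56889936), (96, 16, 16, 85344816, 73601616), (94, 16, 16, 85206576, 40112976), (96, 16, 16, 85337136, 73536336), (57, 16, 16, 69297456, 52827456), (57, 16, 16, 69293616, 37098816), (88, 1, 1, 34891011, 52692561), (78, 1, 1, 35017731, 70387281), (92, 1, 1, 35013891, 69404241), (76, 1, 1, 34956291, 54658641), (92, 1, 1, 35017731, 70387281), (76, 1, 1, 34948611, 37946961), (46, 16, 16, 85156896, 56770896), (48, 16, 16, 85156896, 56770896), (89, 16, 16, 101983536, 103027536), (77, 16, 16, 68560176, 69604176), (56, 16, 16, 86074416, 56759616), (54, 16, 16, 86074416, 56759616), (146, 16, 16, 85206576, 40112976), (65, 16, 16, 67511601, 69604101), (65, 16, 16, 87122946, 56774721), (63, 16, 16, 84042801, 56759301),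 (136, 1, 1, 50745876, 70279701), (135, 16, 16, 100869441, 102843141), (46, 16, 16, 85149216, 40059216), (48, 16, 16, 85149216, 40059216), (89, 16, 16, 101995056, 104075856), (77, 16, 16, 68571696, 70652496), (56, 16, 16, 86066736, 40047936), (54, 16, 16, 86066736, 40047936), (146, 16, 16, 85221936, 56889936), (65, 16, 16, 67523121, 70652421), (65, 16, 16, 87115266, 40063041), (63, 16, 16, 84035121, 40047621), (136, 1, 1, 50734356, 69231381), (135, 16, 16, 100880961, 103891461), (47, 16, 16, 68498976, 38154576), (47, 16, 16, 68510496, 54927696), (91, 16, 16, 85344816, 73601616), (76, 16, 16, 68510256, 54923856), (91, 16, 16, 85337136, 73536336), (76, 16, 16, 68494896, 38146896), (147, 16, 16, 85344816, 73601616), (64, 16, 16, 67461681, 54923781), (147, 16, 16, 85337136, 73536336), (64, 16, 16, 67446321, 38146821), (133, 1, 1, 33776916, 52446741),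 (18, 1, 1, 50619666, 52715541)]
  [(18, 960), (26, 960), (46, 1920), (47, 1920), (48, 1920), (54, 1920), (56, 1920), (57, 1920), (63, 1920), (64, 3840), (65, 3840), (66, 1920), (76, 3840), (77, 1920), (78, 960), (88, 960), (89, 1920), (91, 1920), (92, 1920), (94, 1920), (96, 1920), (133, 960), (135, 1920), (136, 1920), (145, 960), (146, 1920), (147, 1920), (148, 1920), (149, 1920), (150, 1920)] = true := by
  decide +kernel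

theorem t55_0_2 : chkS lk55 2 5 [(1, m55_0)] l55_2
  [(57, 16, 16, 19289136, 70391136), (57, 16, 16, 19285296, 69408096), (24, 16, 16, 67331361, 52838661), (23, 1, 1, 84292116, 73413141), (55, 16, 16, 19227696, 54662496), (55, 16, 16, 19220016, 37950816), (66, 16, 16, 20337666, 70406241), (66, 16, 16, 20333826, 69423201), (27, 16, 16, 50619681, 52715781), (26, 1, 1, 50746386, 70410261), (64, 16, 16, 20276226, 54677601), (64, 16, 16, 20268546, 37965921), (47, 1, 1, 85156866, 56770641), (147, 1, 1, 104072481, 103043331), (64, 1, 1, 87122976, 56774976), (90, 1, 1, 101983491, 103023441), (55, 1, 1, 86074371, 56755521), (159, 16, 16, 20336706, 70340706), (47, 1, 1, 85149186, 40058961), (147, 1, 1, 104091681, 104091906), (64, 1, 1, 87115296, 40063296), (90, 1, 1, 101995011, 104071761), (55, 1, 1, 86066691, 40043841), (159, 16, 16, 20317506, 69292131),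 (52, 1, 1, 68379906, 52838481), (151, 1, 1, 85221891, 56885841), (151, 1, 1, 85206531, 40108881), (97, 1, 1, 85221891, 56885841), (97, 1, 1, 85206531, 40108881), (157, 16, 16, 19948866, 52514916), (66, 1, 1, 20337696, 70406496), (66, 1, 1, 20333856, 69423456), (27, 16, 16, 67331361, 52838661), (26, 16, 16, 50746401, 70410501), (64, 1, 1, 20276256, 54677856), (64, 1, 1, 20268576, 37966176), (57, 1, 1, 19289091, 70387041), (57, 1, 1, 19285251, 69404001), (24, 16, 16, 50619681, 52715781), (23, 16, 16, 84292161, 73478661), (55, 1, 1, 19227651, 54658401), (55, 1, 1, 19219971, 37946721), (47, 16, 16, 85156896, 56770896), (90, 16, 16, 101983536, 103027536), (55, 16, 16, 86074416, 56759616), (147, 16, 16, 104072466, 103043091), (64, 16, 16, 87122946, 56774721), (159, 1, 1, 20336676, 70275426), (47, 16, 16, 85149216, 40059216), (90, 16, 16, 101995056,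 104075856), (55, 16, 16, 86066736, 40047936), (147, 16, 16, 104091666, 104091666), (64, 16, 16, 87115266, 40063041), (159, 1, 1, 20317476, 69226851), (52, 16, 16, 68379936, 52838736), (97, 16, 16, 85221936, 56889936), (97, 16, 16, 85206576, 40112976), (151, 16, 16, 85221936, 56889936), (151, 16, 16, 85206576, 40112976), (157, 1, 1, 19948836, 52449636)]
  [(23, 1920), (24, 1920), (26, 1920), (27, 1920), (47, 3840), (52, 1920), (55, 7680), (57, 3840), (64, 7680), (66, 3840), (90, 3840), (97, 3840), (147, 3840), (151, 3840), (157, 1920), (159, 3840)] = true := by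
  decide +kernel

theorem t55_0_3 : chkS lk55 2 5 [(1, m55_0)] l55_3
  [(49, 16, 16, 101930016, 103956816), (47, 16, 16, 51733536, 54681936), (47, 16, 16, 51725856, 37970256), (99, 16, 16, 101995056, 104075856), (57, 1, 1, 102847491, 103941441), (90, 16, 16, 68571696, 70652496), (99, 16, 16, 101983536, 103027536), (57, 1, 1, 102843651, 102958401), (90, 16, 16, 68560176, 69604176), (57, 16, 16, 102847536, 103945536), (57, 16, 16, 102843696, 102962496), (23, 1, 1, 101003796, 104870421), (152, 16, 16, 101995056, 104075856), (66, 1, 1, 103896096, 103960896), (147, 16, 16, 70668306, 70668306), (152, 16, 16, 101983536, 103027536), (66, 1, 1, 103892256, 102977856), (147, 16, 16, 70649106, 69619731), (66, 16, 16, 103896066, 103960641), (66, 16, 16, 103892226, 102977601), (26, 1, 1, 100881426, 103956501), (49, 1, 1, 101929986, 103956561), (26, 16, 16,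 100881441, 103956741), (23, 16, 16, 101003841, 104935941), (47, 1, 1, 51733506, 54681681), (147, 1, 1, 70649121, 69619971), (90, 1, 1, 68560131, 69600081), (47, 1, 1, 51725826, 37970001), (147, 1, 1, 70668321, 70668546), (90, 1, 1, 68571651, 70648401)]
  [(23, 3840), (26, 3840), (47, 7680), (49, 3840), (57, 7680), (66, 7680), (90, 7680), (99, 3840), (147, 7680), (152, 3840)] = true := by
  decide +kernel

theorem t55_0_4 : chkS lk55 2 5 [(1, m55_0)] l55_4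
  [(50, 16, 16, 1266720, 3293520), (51, 16, 16, 1389600, 4338000), (51, 16, 16, 1393440, 4399440), (101, 16, 16, 1331760, 3412560), (58, 1, 1, 2184195, 3278145), (38, 1, 1, 206100, 2114325), (101, 16, 16, 1320240, 2364240), (58, 1, 1, 2180355, 2295105), (38, 1, 1, 217620, 3162645), (58, 16, 16, 2184240, 3282240), (58, 16, 16, 2180400, 2299200), (32, 1, 1, 340500, 4207125), (153, 16, 16, 1331760, 3412560), (41, 16, 16, 283425, 3416325), (37, 1, 1, 1393155, 4391505), (153, 16, 16, 1320240, 2364240), (41, 16, 16, 275745, 2371845), (37, 1, 1, 1385475, 4326225), (41, 1, 1, 283410, 3416085), (41, 1, 1, 275730, 2371605), (36, 1, 1, 1201155, 3277905), (50, 1, 1, 1266690, 3293265), (36, 16, 16, 1201200, 3282000), (32, 16, 16, 340545, 4272645), (51, 1, 1, 1389570, 4337745), (37, 16, 16, 1385520, 4330320), (38, 16, 16, 217665, 3228165), (51, 1, 1, 1393410,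 4399185), (37, 16, 16, 1393200, 4395600), (38, 16, 16, 206145, 2179845)]
  [(32, 3840), (36, 3840), (37, 7680), (38, 7680), (41, 7680), (50, 3840), (51, 7680), (58, 7680), (101, 3840), (153, 3840)] = true := by
  decide +kernel

theorem t55_0_5 : chkS lk55 2 5 [(1, m55_0)] l55_5
  [(53, 16, 16, 1266720, 3293520), (107, 16, 16, 1331760, 3412560), (107, 16, 16, 1320240, 2364240), (22, 16, 16, 218145, 3293445), (156, 16, 16, 3428370, 3428370), (156, 16, 16, 3409170, 2379795), (25, 16, 16, 214305, 2310405), (178, 16, 16, 1389120, 4272720), (162, 16, 16, 3231810, 3231810), (162, 16, 16, 3212610, 2183235), (53, 1, 1, 1266690, 3293265), (156, 1, 1, 3428385, 3428610), (156, 1, 1, 3409185, 2380035), (25, 1, 1, 214290, 2310165), (107, 1, 1, 1331715, 3408465), (107, 1, 1, 1320195, 2360145), (22, 1, 1, 218130, 3293205), (178, 1, 1, 1389060, 4207185), (162,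 1, 1, 3231780, 3166530), (162, 1, 1, 3212580, 2117955)]
  [(22, 5760), (25, 5760), (53, 5760), (107, 11520), (156, 11520), (162, 11520), (178, 5760)] = true := by
  decide +kernel

theorem t55_1_1 : chkS lk55 2 5 [(1, m55_1)] l55_1
  [(83, 1, 1, 87318786, 56905761), (84, 1, 1, 87441666, 73617441), (169, 16, 16, 33907761, 54662661), (116, 1, 1, 88482051, 73728801), (116, 1, 1, 72442371, 55968321), (115, 1, 1, 88236291, 56951841), (169, 16, 16, 33907521, 54601221), (116, 1, 1, 88481811, 73728786), (116, 1, 1, 72441891, 55968066), (115, 1, 1, 88236051, 56951826), (166, 16, 16, 33969201, 70391301), (166, 16, 16, 33968961, 70329861), (93, 1, 1, 55861266, 55861266), (95, 1, 1, 55861266, 55861266), (174, 16, 16, 50677281, 37970181), (142, 1, 1, 72757506, 72757281), (142, 1, 1, 88171296, 56959296), (138, 1, 1, 72573186, 55984161), (89, 1, 1, 55844886,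 5530386), (90, 1, 1, 55844886, 5530386), (56, 1, 1, 54616101, 50684226), (55, 1, 1, 54616101, 50684226), (135, 1, 1, 72556806, 5653281), (159, 16, 16, 33969201, 70391301), (93, 1, 1, 55861506, 55861281), (95, 1, 1, 55861506, 55861281), (174, 16, 16, 50676321, 21193221), (142, 1, 1, 72757266, 72757266), (142, 1, 1, 88171056, 56955456), (138, 1, 1, 72572946, 55984146), (89, 1, 1, 55845126, 5530401), (90, 1, 1, 55845126, 5530401), (56, 1, 1, 54616581, 50684481), (55, 1, 1, 54616581, 50684481), (135, 1, 1, 72556566, 5653266), (159, 16, 16, 33968961, 70329861), (89, 1, 1, 87319041, 56906241), (56, 1, 1, 70668546, 70668321), (89, 1, 1, 87318561, 56905986), (56, 1, 1, 70668306, 70668306), (135, 1, 1, 88171296, 56959296), (135, 1, 1, 88171056, 56955456), (82, 1, 1, 87318786, 56905761), (61, 1, 1, 69619971, 70649121), (113, 1, 1, 88236291, 56951841),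 (112, 1, 1, 87122436, 56644161), (113, 1, 1, 88236051, 56951826), (112, 1, 1, 87121956, 56643906), (90, 1, 1, 87441921, 73617921), (55, 1, 1, 70607106, 54939681), (90, 1, 1, 87441441, 73617666), (55, 1, 1, 70606866, 54939666), (159, 1, 1, 88482051, 73728801), (159, 1, 1, 88481811, 73728786), (61, 1, 1, 37970181, 50677281), (60, 1, 1, 69558531, 54920481), (112, 1, 1, 55845126, 5530401), (166, 1, 1, 87433236, 73421586), (112, 1, 1, 55844886, 5530386), (166, 1, 1, 87433476, 73421601), (123, 1, 1, 55861506, 55861281), (124, 1, 1, 55861506, 55861281), (175, 16, 16, 67450401, 38154501), (141, 1, 1, 55984386, 72572961), (141, 16, 16, 87122946, 56774721), (137, 1, 1, 55861506, 55861281), (175, 16, 16, 67449441, 21377541), (141, 1, 1, 55984146, 72572946), (141, 16, 16, 87121986, 56709186), (137, 1, 1, 55861266, 55861266), (161, 1, 1, 38162691, 70583841),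 (161, 1, 1, 38162451, 70583826), (94, 1, 1, 39084291, 55838241), (96, 1, 1, 39084291, 55838241), (170, 16, 16, 101000241, 104993541), (117, 1, 1, 38162691, 70583841), (117, 16, 16, 86074416, 56759616), (114, 1, 1, 39084291, 55838241), (89, 1, 1, 40120581, 84162081), (91, 1, 1, 39072006, 5518881), (77, 1, 1, 37970181, 50677281), (76, 1, 1, 37970181, 50677281), (112, 1, 1, 40120581, 84162081), (167, 1, 1, 37113876, 70276626), (94, 1, 1, 39084051, 55838226), (96, 1, 1, 39084051, 55838226), (170, 16, 16, 101000001, 104932101), (117, 1, 1, 38162451, 70583826), (117, 16, 16, 86074176, 56698176), (114, 1, 1, 39084051, 55838226), (89, 1, 1, 40120341, 84162066), (91, 1, 1, 39071766, 5518866), (77, 1, 1, 37969941, 50677266), (76, 1, 1, 37969941, 50677266), (112, 1, 1, 40120341, 84162066), (167, 1, 1, 37114116, 70276641), (89, 16, 16, 103043856, 104080656),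 (77, 16, 16, 69620496, 70657296), (89, 16, 16, 103043376, 104076576), (77, 16, 16, 69620016, 70653216), (112, 16, 16, 102847536, 103945536), (112, 16, 16, 102847296, 103884096), (122, 1, 1, 55845126, 5530401), (69, 16, 16, 69619971, 70649121), (134, 1, 1, 55845126, 5530401), (135, 16, 16, 102847491, 103941441), (134, 1, 1, 55844886, 5530386), (135, 16, 16, 102846531, 103875906), (91, 16, 16, 86393616, 73606416), (76, 16, 16, 69559056, 54928656), (91, 16, 16, 86393136, 73602336), (76, 16, 16, 69558576, 54924576), (167, 16, 16, 84288561, 73536261), (167, 16, 16, 84288321, 73474821), (69, 1, 1, 37970181, 50677281), (68, 1, 1, 37970181, 50677281), (135, 1, 1, 40059141, 84100641), (161, 16, 16, 84288561, 73536261), (135, 1, 1, 40058901, 84100626), (161, 16, 16, 84288321, 73474821)]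
  [(55, 1920), (56, 1920), (60, 480), (61, 960), (68, 480), (69, 960), (76, 1920), (77, 1920), (82, 480), (83, 480), (84, 480), (89, 3840), (90, 1920), (91, 1920), (93, 960), (94, 960), (95, 960), (96, 960), (112, 3840), (113, 960), (114, 960), (115, 960), (116, 1920), (117, 1920), (122, 480), (123, 480), (124, 480), (134, 960), (135, 3840), (137, 960), (138, 960), (141, 1920), (142, 1920), (159, 1920), (161, 1920), (166, 1920), (167, 1920), (169, 960), (170, 960), (174, 960), (175, 960)] = true := by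
  decide +kernel

theorem t55_1_2 : chkS lk55 2 5 [(1, m55_1)] l55_2
  [(62, 1, 1, 54939906, 70606881), (116, 16, 16, 19285296, 69408096), (114, 16, 16, 19162416, 52696416), (116, 16, 16, 19284816, 68363616), (114, 16, 16, 19161936, 51651936), (16, 1, 1, 105972516, 105914691), (80, 1, 1, 54939666, 70606866), (142, 16, 16, 20337666, 70406241), (140, 16, 16, 20276226, 54677601), (77, 1, 1, 55975956, 72377106), (54, 1, 1, 55664676, 55599426), (136, 16, 16, 19289091, 70387041), (80, 1, 1, 54939906, 70606881), (142, 16, 16, 20336706, 70340706), (140, 16, 16, 20275266, 54612066), (77, 1, 1, 55976196, 72377121), (54, 1, 1, 55665156, 55599681), (136, 16, 16, 19288131, 70321506), (91, 1, 1, 104092161, 104092161), (91, 1, 1, 104091681, 104091906), (18, 16, 16, 68302416, 35009616), (61, 1, 1, 55976196, 72377121), (112, 1, 1, 73478661, 84292161), (112,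 1, 1, 73478181, 84291906), (97, 1, 1, 87319041, 56906241), (97, 1, 1, 87318561, 56905986), (157, 16, 16, 18892371, 34800996), (59, 1, 1, 55730436, 55600161), (165, 1, 1, 73605141, 84296466), (165, 1, 1, 73605381, 84296481), (73, 1, 1, 54939906, 70606881), (141, 1, 1, 21386016, 70590816), (140, 1, 1, 21324576, 54862176), (141, 1, 1, 21385776, 70586976), (140, 1, 1, 21324336, 54858336), (18, 16, 16, 34879056, 34879056), (57, 1, 1, 21385731, 70582881), (117, 1, 1, 21385731, 70582881), (114, 1, 1, 22307331, 55837281), (56, 1, 1, 22426116, 72364641), (54, 1, 1, 22241796, 55591521), (112, 1, 1, 23343621, 84161121), (57, 1, 1, 21385251, 70582626), (117, 1, 1, 21385251, 70582626), (114, 1, 1, 22306851, 55837026), (56, 1, 1, 22425636, 72364386), (54, 1, 1, 22241316, 55591266), (112, 1, 1, 23343141, 84160866), (90, 16, 16, 103043856, 104080656), (90,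 16, 16, 103043376, 104076576), (16, 1, 1, 22414116, 72360291), (69, 1, 1, 55976196, 72377121), (136, 16, 16, 102847491, 103941441), (136, 16, 16, 102846531, 103875906), (97, 16, 16, 86270736, 56894736), (97, 16, 16, 86270256, 56890656), (164, 16, 16, 67315281, 35013381), (67, 1, 1, 55730436, 55600161), (158, 1, 1, 23085621, 84087396), (158, 1, 1, 23085861, 84091236)]
  [(16, 1920), (18, 1920), (54, 3840), (56, 1920), (57, 1920), (59, 960), (61, 960), (62, 960), (67, 960), (69, 960), (73, 960), (77, 1920), (80, 1920), (90, 1920), (91, 1920), (97, 3840), (112, 3840), (114, 3840), (116, 1920), (117, 1920), (136, 3840), (140, 3840), (141, 1920), (142, 1920), (157, 960), (158, 1920), (164, 960), (165, 1920)] = true := by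
  decide +kernel

theorem t55_1_3 : chkS lk55 2 5 [(1, m55_1)] l55_3
  [(99, 1, 1, 106176531, 106169106), (57, 1, 1, 104943651, 104137026), (90, 16, 16, 69620496, 70657296), (99, 1, 1, 106176771, 106169121), (57, 1, 1, 104944131, 104137281), (90, 16, 16, 69620016, 70653216), (85, 1, 1, 104091906, 104091681), (117, 1, 1, 104944131, 104137281), (117, 1, 1, 104943651, 104137026), (62, 1, 1, 105074946, 104153121), (116, 16, 16, 102843696, 102962496), (116, 16, 16, 102843216, 101918016), (125, 1, 1, 106180866, 106180641), (73, 1, 1, 105074946, 104153121), (69, 1, 1, 106111236, 105923361), (98, 1, 1, 106180626, 106180626), (141, 1, 1, 104944416, 104145216), (56, 1, 1, 105984036, 105918786), (80, 1, 1, 105074706, 104153106), (142, 16, 16, 103896066, 103960641), (77, 1, 1, 106110996, 105923346), (98, 1, 1, 106180866, 106180641), (141, 1, 1, 104944176,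 104141376), (56, 1, 1, 105984516, 105919041), (80, 1, 1, 105074946, 104153121), (142, 16, 16, 103895106, 103895106), (77, 1, 1, 106111236, 105923361), (91, 1, 1, 70668801, 70668801), (91, 1, 1, 70668321, 70668546), (61, 1, 1, 106111236, 105923361)]
  [(56, 3840), (57, 3840), (61, 1920), (62, 1920), (69, 1920), (73, 1920), (77, 3840), (80, 3840), (85, 1920), (90, 3840), (91, 3840), (98, 3840), (99, 3840), (116, 3840), (117, 3840), (125, 1920), (141, 3840), (142, 3840)] = true := by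
  decide +kernel

theorem t55_1_4 : chkS lk55 2 5 [(1, m55_1)] l55_4
  [(101, 1, 1, 5513235, 5505810), (58, 1, 1, 4280355, 3473730), (38, 1, 1, 5447940, 5260065), (101, 1, 1, 5513475, 5505825), (58, 1, 1, 4280835, 3473985), (38, 1, 1, 5447700, 5260050), (86, 1, 1, 3428610, 3428385), (119, 1, 1, 4346115, 3474465), (119, 1, 1, 4345875, 3474450), (30, 1, 1, 3428610, 3428385), (118, 1, 1, 5513475, 5505825), (118, 1, 1, 5513235, 5505810), (126, 1, 1, 5517570, 5517345), (74, 1, 1, 4411650, 3489825), (72, 1, 1, 4399365, 344865), (100, 1, 1, 5517330, 5517330), (40, 16, 16, 1389600, 4338000), (42, 16, 16, 2429955, 4326705), (43, 16, 16, 1266720, 3293520), (143, 1, 1, 5517570, 5517345), (38, 16, 16, 2184195, 3278145), (100, 1, 1, 5517570, 5517345), (40, 16, 16, 1389120, 4272720), (42, 16, 16, 2428995, 4261170), (43, 16, 16, 1266240, 3228240), (143, 1,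 1, 5517330, 5517330), (38, 16, 16, 2183235, 3212610), (42, 16, 16, 1254720, 2179920), (42, 16, 16, 1254480, 1196880), (34, 1, 1, 2441475, 4392225)]
  [(30, 1920), (34, 1920), (38, 7680), (40, 3840), (42, 7680), (43, 3840), (58, 3840), (72, 1920), (74, 1920), (86, 1920), (100, 3840), (101, 3840), (118, 3840), (119, 3840), (126, 1920), (143, 3840)] = true := by
  decide +kernel

theorem t55_1_5 : chkS lk55 2 5 [(1, m55_1)] l55_5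
  [(107, 16, 16, 2380560, 3417360), (107, 16, 16, 2380080, 3413280), (171, 16, 16, 336945, 4330245), (120, 16, 16, 2184000, 3220800), (130, 16, 16, 2380035, 3409185), (176, 16, 16, 2425875, 4326675), (144, 16, 16, 2184195, 3278145), (176, 16, 16, 2425155, 4261155), (144, 16, 16, 2183235, 3212610), (179, 16, 16, 2164035, 2164035), (108, 1, 1, 3428865, 3428865), (108, 1, 1, 3428385, 3428610), (177, 1, 1, 4522785, 4530435), (17, 1, 1, 4281120, 3481920), (87, 1, 1, 2380035, 3409185), (172, 1, 1, 3473940, 4215315), (121, 1, 1, 3232260, 3166785), (172, 1, 1, 3473700, 4215075), (121, 1, 1, 3231780, 3166530), (15, 1, 1, 4260645, 336195)]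
  [(15, 2880), (17, 2880), (87, 2880), (107, 5760), (108, 5760), (120, 2880), (121, 5760), (130, 2880), (144, 5760), (171, 2880), (172, 5760), (176, 5760), (177, 2880), (179, 2880)] = true := by
  decide +kernel

theorem t55_2_2 : chkS lk55 2 5 [(1, m55_2)] l55_2
  [(7, 1, 1, 70668546, 70668321), (115, 16, 16, 35017776, 70391376), (115, 16, 16, 34956336, 54662736), (115, 16, 16, 35017536, 70329936), (115, 16, 16, 34956096, 54601296), (111, 16, 16, 35017776, 70391376), (79, 1, 1, 54939666, 70606866), (138, 16, 16, 51791136, 69427536), (138, 16, 16, 51668256, 52715856), (76, 1, 1, 55975956, 72377106), (76, 1, 1, 55730196, 55600146), (133, 16, 16, 20337666, 70406241), (79, 1, 1, 54939906, 70606881), (138, 16, 16, 51790416, 68379216), (138, 16, 16, 51667536, 51667536), (76, 1, 1, 55976196, 72377121), (76, 1, 1, 55730436, 55600161), (133, 16, 16,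 20336706, 70340706), (76, 1, 1, 87441921, 73617921), (76, 1, 1, 87441441, 73617666), (133, 16, 16, 51652176, 34890576), (60, 1, 1, 87441666, 73617441), (166, 1, 1, 73543701, 84292626), (166, 1, 1, 73543941, 84292641), (76, 1, 1, 87319041, 56906241), (76, 1, 1, 87318561, 56905986), (133, 16, 16, 51529296, 34825296), (60, 1, 1, 87318786, 56905761), (166, 1, 1, 73605141, 84296466), (166, 1, 1, 73605381, 84296481), (10, 16, 16, 35017776, 70391376), (137, 16, 16, 68564256, 69611856), (137, 16, 16, 68379936, 52838736), (137, 16, 16, 68563536, 68563536), (137, 16, 16, 68379216, 51790416), (5, 16, 16, 35017776, 70391376), (24, 1, 1, 70668306, 70668306), (114, 16, 16, 68560176, 69604176), (114, 16, 16, 68314416, 52827216), (55, 1, 1, 22426116, 72364641), (55, 1, 1, 22241796, 55591521), (16, 16, 16, 101918016, 102843216), (24, 1, 1, 70668546, 70668321),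 (114, 16, 16, 68559696, 68559696), (114, 16, 16, 68313936, 51782736), (55, 1, 1, 22425636, 72364386), (55, 1, 1, 22241316, 55591266), (16, 16, 16, 101917776, 101860176), (55, 16, 16, 85345056, 73605456), (55, 16, 16, 85344816, 73601616), (16, 1, 1, 23397156, 88088931), (68, 1, 1, 55976196, 72377121), (160, 16, 16, 101864496, 103945296), (160, 16, 16, 101864256, 103883856), (55, 16, 16, 85222176, 56893776), (55, 16, 16, 85221936, 56889936), (16, 1, 1, 23089956, 87040356), (68, 1, 1, 55730436, 55600161), (160, 16, 16, 102048816, 104993616), (160, 16, 16, 102048576, 104932176)]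
  [(5, 960), (7, 960), (10, 960), (16, 3840), (24, 1920), (55, 7680), (60, 1920), (68, 1920), (76, 7680), (79, 1920), (111, 960), (114, 3840), (115, 3840), (133, 3840), (137, 3840), (138, 3840), (160, 3840), (166, 3840)] = true := by
  decide +kernel

theorem t55_2_3 : chkS lk55 2 5 [(1, m55_2)] l55_3
  [(57, 16, 16, 102056736, 105062736), (57, 16, 16, 101995296, 104079696), (23, 1, 1, 106111236, 105923361), (57, 16, 16, 102056496, 105058896), (57, 16, 16, 101995056, 104075856), (23, 1, 1, 106110996, 105923346), (62, 1, 1, 104153346, 105074721), (116, 16, 16, 101983536, 103027536), (116, 16, 16, 101983056, 101983056), (62, 1, 1, 104091906, 104091681), (116, 16, 16, 101860656, 102962256), (116, 16, 16, 101860176, 101917776), (73, 16, 16, 104153346, 105074721), (73, 16, 16, 104091906, 104091681), (70, 16, 16, 104153346, 105074721), (80, 1, 1,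 104153121, 105074946), (139, 16, 16, 101987616, 103035216), (92, 1, 1, 73543701, 84292626), (80, 1, 1, 104091681, 104091906), (139, 16, 16, 101926176, 102973776), (92, 1, 1, 73605141, 84296466), (80, 1, 1, 104153601, 105075201), (139, 16, 16, 101986896, 101986896), (92, 1, 1, 73543941, 84292641), (80, 1, 1, 104092161, 104092161), (139, 16, 16, 101925456, 101925456), (92, 1, 1, 73605381, 84296481), (78, 1, 1, 104153601, 105075201), (78, 1, 1, 104153121, 105074946), (9, 1, 1, 104153346, 105074721)]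
  [(9, 1920), (23, 3840), (57, 7680), (62, 3840), (70, 1920), (73, 3840), (78, 3840), (80, 7680), (92, 7680), (116, 7680), (139, 7680)] = true := by
  decide +kernel

theorem t55_2_4 : chkS lk55 2 5 [(1, m55_2)] l55_4
  [(58, 16, 16, 1393440, 4399440), (58, 16, 16, 1332000, 3416400), (32, 1, 1, 5447940, 5260065), (58, 16, 16, 1393200, 4395600), (58, 16, 16, 1331760, 3412560), (32, 1, 1, 5447700, 5260050), (30, 1, 1, 4534530, 4534305), (118, 16, 16, 1385520, 4330320), (118, 16, 16, 1385280, 4268880), (30, 1, 1, 4411650, 3489825), (118, 16, 16, 1201200, 3282000), (118, 16, 16, 1200960, 3220560), (74, 16, 16, 3490050, 4411425), (74, 16, 16, 3428610, 3428385), (71, 16, 16, 3490050, 4411425), (43, 16, 16, 3478530, 4345905), (39, 16, 16, 4396290, 2441265), (102, 1, 1, 5386260, 5256210), (43, 16, 16, 3232770, 3297345), (39, 16, 16, 4273410, 2437185),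 (102, 1, 1, 5447700, 5260050), (43, 16, 16, 3477570, 4280370), (39, 16, 16, 4395090, 1392690), (102, 1, 1, 5386500, 5256225), (43, 16, 16, 3231810, 3231810), (39, 16, 16, 4272210, 1388610), (102, 1, 1, 5447940, 5260065), (32, 16, 16, 1254720, 2179920), (32, 16, 16, 1254480, 1196880), (33, 1, 1, 3490050, 4411425)]
  [(30, 3840), (32, 7680), (33, 1920), (39, 7680), (43, 7680), (58, 7680), (71, 1920), (74, 3840), (102, 7680), (118, 7680)] = true := by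
  decide +kernel

theorem t55_2_5 : chkS lk55 2 5 [(1, m55_2)] l55_5
  [(22, 16, 16, 3490305, 4411905), (22, 16, 16, 3489825, 4411650), (120, 16, 16, 1385280, 4268880), (120, 16, 16, 1200960, 3220560), (75, 16, 16, 3490050, 4411425), (163, 16, 16, 1385520, 4330320), (163, 16, 16, 1201200, 3282000), (163, 16, 16, 1385280, 4268880), (163, 16, 16, 1200960, 3220560), (8, 16, 16, 1254720, 2179920), (81, 1, 1, 3490305, 4411905), (81, 1, 1, 3489825, 4411650), (19, 1, 1, 4526880, 4530480), (19, 1, 1, 4281120, 3481920), (11, 1, 1, 3490050, 4411425), (168, 1, 1, 4522515, 4522515), (168, 1, 1, 4215315, 3473940), (168, 1, 1, 4522275, 4522275), (168, 1, 1, 4215075, 3473700), (14, 1, 1, 5309220, 5251395)]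
  [(8, 2880), (11, 2880), (14, 2880), (19, 5760), (22, 5760), (75, 2880), (81, 5760), (120, 5760), (163, 11520), (168, 11520)] = true := by
  decide +kernel

theorem t55_3_3 : chkS lk55 2 5 [(1, m55_3)] l55_3
  [(4, 16, 16, 106181136, 106181136), (84, 16, 16, 73740816, 88486416), (84, 16, 16, 73736976, 88482576), (104, 16, 16, 105198096, 105198096), (95, 16, 16, 105075216, 104153616), (96, 1, 1, 104989011, 102040611), (104, 16, 16, 105194256, 105194256), (95, 16, 16, 105063696, 103105296), (96, 1, 1, 104992851, 102040626), (96, 16, 16, 105009936, 104145936), (96, 16, 16, 105002256, 103101456), (84, 1, 1, 73732146, 88477746), (104, 16, 16, 105198081, 105198081), (95, 16, 16, 105075201, 104153601), (96, 1, 1, 104988981, 100996131), (104, 16, 16, 105194241, 105194241), (95, 16, 16, 105063681, 103105281), (96, 1, 1, 104992821, 100996146), (96,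 16, 16, 105009921, 104145921), (96, 16, 16, 105002241, 103101441), (84, 1, 1, 73732131, 88473906), (127, 16, 16, 105198096, 105198096), (124, 1, 1, 105058386, 102055986), (124, 1, 1, 105058341, 101007666), (124, 16, 16, 105075216, 104153616), (95, 1, 1, 105054546, 102055971), (95, 1, 1, 105054501, 101007651), (124, 16, 16, 105063696, 103105296), (95, 1, 1, 105058386, 102055986), (95, 1, 1, 105058341, 101007666)]
  [(4, 1920), (84, 7680), (95, 15360), (96, 15360), (104, 7680), (124, 7680), (127, 1920)] = true := by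
  decide +kernel

theorem t55_3_4 : chkS lk55 2 5 [(1, m55_3)] l55_4
  [(31, 16, 16, 5517840, 5517840), (30, 16, 16, 5456400, 5456400), (30, 16, 16, 5448720, 5391120), (105, 16, 16, 4534800, 4534800), (43, 1, 1, 5321220, 5255745), (58, 16, 16, 5517840, 5517840), (105, 16, 16, 4530960, 4530960), (43, 1, 1, 5317380, 5251905), (58, 16, 16, 5514000, 5514000), (58, 1, 1, 5509155, 5505330), (58, 1, 1, 5505315, 5505315), (30, 1, 1, 5443650, 5324850), (105, 16, 16, 4534785, 4534785), (43, 1, 1, 5321280, 5321280), (58, 16, 16, 5517825, 5517825), (105, 16, 16, 4530945, 4530945), (43, 1, 1, 5317440, 5317440), (58, 16, 16, 5513985, 5513985), (58, 1, 1, 5509170, 5509170), (58, 1, 1, 5505330, 5509155), (30, 1, 1, 5443620, 5259570), (128, 16, 16, 4534800, 4534800), (74, 16, 16, 5509170, 5509170), (74, 16, 16, 5509155, 5505330), (74, 1, 1, 5517840, 5517840),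 (43, 16, 16, 5324850, 5443650), (43, 16, 16, 5324835, 5439810), (74, 1, 1, 5514000, 5514000), (43, 16, 16, 5309490, 5378115), (43, 16, 16, 5309475, 5374275)]
  [(30, 7680), (31, 1920), (43, 15360), (58, 15360), (74, 7680), (105, 7680), (128, 1920)] = true := by
  decide +kernel

theorem t55_3_5 : chkS lk55 2 5 [(1, m55_3)] l55_5
  [(3, 16, 16, 5517840, 5517840), (109, 16, 16, 4534560, 4534560), (109, 16, 16, 4526880, 4530480), (173, 16, 16, 5260065, 5447940), (109, 16, 16, 4534530, 4534305), (109, 16, 16, 4526850, 4530225), (173, 16, 16, 5260050, 5447700), (131, 16, 16, 4526130, 4526130), (21, 16, 16, 5324850, 5443650), (21, 16, 16, 5309490, 5378115), (131, 1, 1, 4534800, 4534800), (109, 1, 1, 4530225, 4526850), (109, 1, 1, 4522545, 4526595), (21, 1, 1, 5321280, 5321280), (109, 1, 1, 4530195, 4522770), (109, 1, 1, 4522515, 4522515), (21, 1,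 1, 5321220, 5255745), (3, 1, 1, 5509170, 5509170), (173, 1, 1, 5251380, 5247780), (173, 1, 1, 5247540, 5247540)]
  [(3, 5760), (21, 11520), (109, 23040), (131, 5760), (173, 11520)] = true := by
  decide +kernel

theorem t55_4_4 : chkS lk55 2 5 [(1, m55_4)] l55_4
  [(44, 16, 16, 274960, 274960), (0, 16, 16, 274960, 274960), (0, 16, 16, 271120, 271120), (106, 16, 16, 274960, 274960), (45, 1, 1, 200740, 16690), (12, 1, 1, 266290, 266290), (106, 16, 16, 271120, 271120), (45, 1, 1, 196900, 16675), (12, 1, 1, 262450, 266275), (12, 16, 16, 274945, 274945), (12, 16, 16, 271105, 271105), (0, 1, 1, 266290, 266290), (106, 16, 16, 274945, 274945), (45, 1, 1, 200770, 81970), (12, 1, 1, 266275, 262450), (106, 16, 16, 271105, 271105), (45, 1, 1, 196930, 81955), (12, 1, 1, 262435, 262435), (12, 16, 16, 274960, 274960), (12, 16, 16, 271120, 271120), (0, 1,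 1, 266275, 262450), (129, 16, 16, 274960, 274960), (1, 16, 16, 148240, 205840), (1, 16, 16, 148225, 205825), (1, 1, 1, 135235, 66610), (45, 16, 16, 213520, 213520), (45, 16, 16, 213505, 213505), (1, 1, 1, 131395, 66595), (45, 16, 16, 205840, 148240), (45, 16, 16, 205825, 148225)]
  [(0, 7680), (1, 7680), (12, 15360), (44, 1920), (45, 15360), (106, 7680), (129, 1920)] = true := by
  decide +kernel

theorem t55_4_5 : chkS lk55 2 5 [(1, m55_4)] l55_5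
  [(29, 16, 16, 274960, 274960), (110, 16, 16, 274720, 274720), (110, 16, 16, 267040, 270640), (28, 16, 16, 148240, 205840), (110, 16, 16, 274690, 274465), (110, 16, 16, 267010, 270385), (28, 16, 16, 148225, 205825), (132, 16, 16, 266290, 266290), (35, 16, 16, 81970, 200770), (35, 16, 16, 66610, 135235), (132, 1, 1, 274960, 274960), (110, 1, 1, 270385, 267010), (110, 1, 1, 262705, 266755), (35, 1, 1, 78400, 78400), (110, 1, 1, 270355, 262930), (110, 1, 1, 262675, 262675), (35, 1, 1, 78340, 12865), (29, 1, 1, 266290, 266290), (28, 1, 1, 135220, 5170), (28, 1, 1, 131380, 5155)]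
  [(28, 11520), (29, 5760), (35, 11520), (110, 23040), (132, 5760)] = true := by
  decide +kernel

theorem t55_5_5 : chkS lk55 2 5 [(1, m55_5)] l55_5
  [(6, 16, 16, 144400, 144400), (181, 16, 16, 144400, 144400), (181, 16, 16, 148240, 205840), (181, 16, 16, 271120, 271120), (181, 16, 16, 144385, 144385), (181, 16, 16, 148225, 205825), (181, 16, 16, 271105, 271105), (13, 16, 16, 274960, 274960), (13, 16, 16, 148240, 205840), (13, 16, 16, 144400, 144400), (180, 16, 16, 144400, 144400), (20, 16, 16, 274960, 274960), (20, 16, 16, 271120, 271120), (20, 16, 16, 148240, 205840), (20, 16, 16, 274945, 274945), (20, 16, 16, 271105, 271105), (20, 16, 16, 148225, 205825), (2, 16, 16, 274960, 274960), (2, 16, 16, 148240, 205840), (2, 16, 16, 144400, 144400)]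
  [(2, 8640), (6, 2880), (13, 8640), (20, 17280), (180, 2880), (181, 17280)] = true := by
  decide +kernel

section

variable {κ ι : Type*} [Fintype κ] [Fintype ι] [Inhabited κ] [Inhabited ι]

noncomputable def F55_0 (E : Env κ ι) : (Fin 2 → κ) → (Fin 5 → ι) → ℝ := op2 (P11 κ) (P4 ι) (fB E 2 5 m55_0)

noncomputable def F55_1 (E : Env κ ι) : (Fin 2 → κ) → (Fin 5 → ι) → ℝ := op2 (P11 κ) (P4 ι) (fB E 2 5 m55_1)

noncomputable def F55_2 (E : Env κ ι) : (Fin 2 → κ) → (Fin 5 → ι) → ℝ := op2 (P11 κ) (P4 ι) (fB E 2 5 m55_2)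

noncomputable def F55_3 (E : Env κ ι) : (Fin 2 → κ) → (Fin 5 → ι) → ℝ := op2 (P11 κ) (P4 ι) (fB E 2 5 m55_3)

noncomputable def F55_4 (E : Env κ ι) : (Fin 2 → κ) → (Fin 5 → ι) → ℝ := op2 (P11 κ) (P4 ι) (fB E 2 5 m55_4)

noncomputable def F55_5 (E : Env κ ι) : (Fin 2 → κ) → (Fin 5 → ι) → ℝ := op2 (P11 κ) (P4 ι) (fB E 2 5 m55_5)

def r55_0_0 : List (ℕ × ℤ) := [(27, 1920), (66, 7680), (79, 1920), (80, 7680), (93, 3840), (95, 3840), (103, 960), (104, 1920), (138, 3840), (140, 3840), (142, 7680), (149, 3840), (150, 3840), (154, 960), (155, 1920), (174, 1920)]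

theorem h55_0_0 (E : Env κ ι) : ip (F55_0 E) (F55_0 E) = dotS (ek E lk55) r55_0_0 :=
  op_entryZ E lk55 2 5 _ _ _ _ (pg11 κ) (pg4 ι) m55_0 m55_0 l55_0 z55_0 w55_0 x55_0 (by decide) _ (chkS_sound E lk55 2 5 _ _ _ _ t55_0_0)

def r55_0_1 : List (ℕ × ℤ) := [(18, 960), (26, 960), (46, 1920), (47, 1920), (48, 1920), (54, 1920), (56, 1920), (57, 1920), (63, 1920), (64, 3840), (65, 3840), (66, 1920), (76, 3840), (77, 1920), (78, 960), (88, 960), (89, 1920), (91, 1920), (92, 1920), (94, 1920), (96, 1920), (133, 960), (135, 1920), (136, 1920), (145, 960), (146, 1920), (147, 1920), (148, 1920), (149, 1920), (150, 1920)]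

theorem h55_0_1 (E : Env κ ι) : ip (F55_0 E) (F55_1 E) = dotS (ek E lk55) r55_0_1 :=
  op_entryZ E lk55 2 5 _ _ _ _ (pg11 κ) (pg4 ι) m55_0 m55_1 l55_1 z55_1 w55_1 x55_1 (by decide) _ (chkS_sound E lk55 2 5 _ _ _ _ t55_0_1)

def r55_0_2 : List (ℕ × ℤ) := [(23, 1920), (24, 1920), (26, 1920), (27, 1920), (47, 3840), (52, 1920), (55, 7680), (57, 3840), (64, 7680), (66, 3840), (90, 3840), (97, 3840), (147, 3840), (151, 3840), (157, 1920), (159, 3840)]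

theorem h55_0_2 (E : Env κ ι) : ip (F55_0 E) (F55_2 E) = dotS (ek E lk55) r55_0_2 :=
  op_entryZ E lk55 2 5 _ _ _ _ (pg11 κ) (pg4 ι) m55_0 m55_2 l55_2 z55_2 w55_2 x55_2 (by decide) _ (chkS_sound E lk55 2 5 _ _ _ _ t55_0_2)

def r55_0_3 : List (ℕ × ℤ) := [(23, 3840), (26, 3840), (47, 7680), (49, 3840), (57, 7680), (66, 7680), (90, 7680), (99, 3840), (147, 7680), (152, 3840)]

theorem h55_0_3 (E : Env κ ι) : ip (F55_0 E) (F55_3 E) = dotS (ek E lk55) r55_0_3 :=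
  op_entryZ E lk55 2 5 _ _ _ _ (pg11 κ) (pg4 ι) m55_0 m55_3 l55_3 z55_3 w55_3 x55_3 (by decide) _ (chkS_sound E lk55 2 5 _ _ _ _ t55_0_3)

def r55_0_4 : List (ℕ × ℤ) := [(32, 3840), (36, 3840), (37, 7680), (38, 7680), (41, 7680), (50, 3840), (51, 7680), (58, 7680), (101, 3840), (153, 3840)]

theorem h55_0_4 (E : Env κ ι) : ip (F55_0 E) (F55_4 E) = dotS (ek E lk55) r55_0_4 :=
  op_entryZ E lk55 2 5 _ _ _ _ (pg11 κ) (pg4 ι) m55_0 m55_4 l55_4 z55_4 w55_4 x55_4 (by decide) _ (chkS_sound E lk55 2 5 _ _ _ _ t55_0_4)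

def r55_0_5 : List (ℕ × ℤ) := [(22, 5760), (25, 5760), (53, 5760), (107, 11520), (156, 11520), (162, 11520), (178, 5760)]

theorem h55_0_5 (E : Env κ ι) : ip (F55_0 E) (F55_5 E) = dotS (ek E lk55) r55_0_5 :=
  op_entryZ E lk55 2 5 _ _ _ _ (pg11 κ) (pg4 ι) m55_0 m55_5 l55_5 z55_5 w55_5 x55_5 (by decide) _ (chkS_sound E lk55 2 5 _ _ _ _ t55_0_5)

def r55_1_1 : List (ℕ × ℤ) := [(55, 1920), (56, 1920), (60, 480), (61, 960), (68, 480), (69, 960), (76, 1920), (77, 1920), (82, 480), (83, 480), (84, 480), (89, 3840), (90, 1920), (91, 1920), (93, 960), (94, 960), (95, 960), (96, 960), (112, 3840), (113, 960), (114, 960), (115, 960), (116, 1920), (117, 1920), (122, 480), (123, 480), (124, 480), (134, 960), (135, 3840), (137, 960), (138, 960), (141, 1920), (142, 1920), (159, 1920), (161, 1920), (166, 1920), (167, 1920), (169, 960), (170, 960), (174,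 960), (175, 960)]

theorem h55_1_1 (E : Env κ ι) : ip (F55_1 E) (F55_1 E) = dotS (ek E lk55) r55_1_1 :=
  op_entryZ E lk55 2 5 _ _ _ _ (pg11 κ) (pg4 ι) m55_1 m55_1 l55_1 z55_1 w55_1 x55_1 (by decide) _ (chkS_sound E lk55 2 5 _ _ _ _ t55_1_1)

def r55_1_2 : List (ℕ × ℤ) := [(16, 1920), (18, 1920), (54, 3840), (56, 1920), (57, 1920), (59, 960), (61, 960), (62, 960), (67, 960), (69, 960), (73, 960), (77, 1920), (80, 1920), (90, 1920), (91, 1920), (97, 3840), (112, 3840), (114, 3840), (116, 1920), (117, 1920), (136, 3840), (140, 3840), (141, 1920), (142, 1920), (157, 960), (158, 1920), (164, 960), (165, 1920)]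

theorem h55_1_2 (E : Env κ ι) : ip (F55_1 E) (F55_2 E) = dotS (ek E lk55) r55_1_2 :=
  op_entryZ E lk55 2 5 _ _ _ _ (pg11 κ) (pg4 ι) m55_1 m55_2 l55_2 z55_2 w55_2 x55_2 (by decide) _ (chkS_sound E lk55 2 5 _ _ _ _ t55_1_2)

def r55_1_3 : List (ℕ × ℤ) := [(56, 3840), (57, 3840), (61, 1920), (62, 1920), (69, 1920), (73, 1920), (77, 3840), (80, 3840), (85, 1920), (90, 3840), (91, 3840), (98, 3840), (99, 3840), (116, 3840), (117, 3840), (125, 1920), (141, 3840), (142, 3840)]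

theorem h55_1_3 (E : Env κ ι) : ip (F55_1 E) (F55_3 E) = dotS (ek E lk55) r55_1_3 :=
  op_entryZ E lk55 2 5 _ _ _ _ (pg11 κ) (pg4 ι) m55_1 m55_3 l55_3 z55_3 w55_3 x55_3 (by decide) _ (chkS_sound E lk55 2 5 _ _ _ _ t55_1_3)

def r55_1_4 : List (ℕ × ℤ) := [(30, 1920), (34, 1920), (38, 7680), (40, 3840), (42, 7680), (43, 3840), (58, 3840), (72, 1920), (74, 1920), (86, 1920), (100, 3840), (101, 3840), (118, 3840), (119, 3840), (126, 1920), (143, 3840)]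

theorem h55_1_4 (E : Env κ ι) : ip (F55_1 E) (F55_4 E) = dotS (ek E lk55) r55_1_4 :=
  op_entryZ E lk55 2 5 _ _ _ _ (pg11 κ) (pg4 ι) m55_1 m55_4 l55_4 z55_4 w55_4 x55_4 (by decide) _ (chkS_sound E lk55 2 5 _ _ _ _ t55_1_4)

def r55_1_5 : List (ℕ × ℤ) := [(15, 2880), (17, 2880), (87, 2880), (107, 5760), (108, 5760), (120, 2880), (121, 5760), (130, 2880), (144, 5760), (171, 2880), (172, 5760), (176, 5760), (177, 2880), (179, 2880)]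

theorem h55_1_5 (E : Env κ ι) : ip (F55_1 E) (F55_5 E) = dotS (ek E lk55) r55_1_5 :=
  op_entryZ E lk55 2 5 _ _ _ _ (pg11 κ) (pg4 ι) m55_1 m55_5 l55_5 z55_5 w55_5 x55_5 (by decide) _ (chkS_sound E lk55 2 5 _ _ _ _ t55_1_5)

def r55_2_2 : List (ℕ × ℤ) := [(5, 960), (7, 960), (10, 960), (16, 3840), (24, 1920), (55, 7680), (60, 1920), (68, 1920), (76, 7680), (79, 1920), (111, 960), (114, 3840), (115, 3840), (133, 3840), (137, 3840), (138, 3840), (160, 3840), (166, 3840)]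

theorem h55_2_2 (E : Env κ ι) : ip (F55_2 E) (F55_2 E) = dotS (ek E lk55) r55_2_2 :=
  op_entryZ E lk55 2 5 _ _ _ _ (pg11 κ) (pg4 ι) m55_2 m55_2 l55_2 z55_2 w55_2 x55_2 (by decide) _ (chkS_sound E lk55 2 5 _ _ _ _ t55_2_2)

def r55_2_3 : List (ℕ × ℤ) := [(9, 1920), (23, 3840), (57, 7680), (62, 3840), (70, 1920), (73, 3840), (78, 3840), (80, 7680), (92, 7680), (116, 7680), (139, 7680)]

theorem h55_2_3 (E : Env κ ι) : ip (F55_2 E) (F55_3 E) = dotS (ek E lk55) r55_2_3 :=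
  op_entryZ E lk55 2 5 _ _ _ _ (pg11 κ) (pg4 ι) m55_2 m55_3 l55_3 z55_3 w55_3 x55_3 (by decide) _ (chkS_sound E lk55 2 5 _ _ _ _ t55_2_3)

def r55_2_4 : List (ℕ × ℤ) := [(30, 3840), (32, 7680), (33, 1920), (39, 7680), (43, 7680), (58, 7680), (71, 1920), (74, 3840), (102, 7680), (118, 7680)]

theorem h55_2_4 (E : Env κ ι) : ip (F55_2 E) (F55_4 E) = dotS (ek E lk55) r55_2_4 :=
  op_entryZ E lk55 2 5 _ _ _ _ (pg11 κ) (pg4 ι) m55_2 m55_4 l55_4 z55_4 w55_4 x55_4 (by decide) _ (chkS_sound E lk55 2 5 _ _ _ _ t55_2_4)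

def r55_2_5 : List (ℕ × ℤ) := [(8, 2880), (11, 2880), (14, 2880), (19, 5760), (22, 5760), (75, 2880), (81, 5760), (120, 5760), (163, 11520), (168, 11520)]

theorem h55_2_5 (E : Env κ ι) : ip (F55_2 E) (F55_5 E) = dotS (ek E lk55) r55_2_5 :=
  op_entryZ E lk55 2 5 _ _ _ _ (pg11 κ) (pg4 ι) m55_2 m55_5 l55_5 z55_5 w55_5 x55_5 (by decide) _ (chkS_sound E lk55 2 5 _ _ _ _ t55_2_5)

def r55_3_3 : List (ℕ × ℤ) := [(4, 1920), (84, 7680), (95, 15360), (96, 15360), (104, 7680), (124, 7680), (127, 1920)]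

theorem h55_3_3 (E : Env κ ι) : ip (F55_3 E) (F55_3 E) = dotS (ek E lk55) r55_3_3 :=
  op_entryZ E lk55 2 5 _ _ _ _ (pg11 κ) (pg4 ι) m55_3 m55_3 l55_3 z55_3 w55_3 x55_3 (by decide) _ (chkS_sound E lk55 2 5 _ _ _ _ t55_3_3)

def r55_3_4 : List (ℕ × ℤ) := [(30, 7680), (31, 1920), (43, 15360), (58, 15360), (74, 7680), (105, 7680), (128, 1920)]

theorem h55_3_4 (E : Env κ ι) : ip (F55_3 E) (F55_4 E) = dotS (ek E lk55) r55_3_4 :=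
  op_entryZ E lk55 2 5 _ _ _ _ (pg11 κ) (pg4 ι) m55_3 m55_4 l55_4 z55_4 w55_4 x55_4 (by decide) _ (chkS_sound E lk55 2 5 _ _ _ _ t55_3_4)

def r55_3_5 : List (ℕ × ℤ) := [(3, 5760), (21, 11520), (109, 23040), (131, 5760), (173, 11520)]

theorem h55_3_5 (E : Env κ ι) : ip (F55_3 E) (F55_5 E) = dotS (ek E lk55) r55_3_5 :=
  op_entryZ E lk55 2 5 _ _ _ _ (pg11 κ) (pg4 ι) m55_3 m55_5 l55_5 z55_5 w55_5 x55_5 (by decide) _ (chkS_sound E lk55 2 5 _ _ _ _ t55_3_5)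

def r55_4_4 : List (ℕ × ℤ) := [(0, 7680), (1, 7680), (12, 15360), (44, 1920), (45, 15360), (106, 7680), (129, 1920)]

theorem h55_4_4 (E : Env κ ι) : ip (F55_4 E) (F55_4 E) = dotS (ek E lk55) r55_4_4 :=
  op_entryZ E lk55 2 5 _ _ _ _ (pg11 κ) (pg4 ι) m55_4 m55_4 l55_4 z55_4 w55_4 x55_4 (by decide) _ (chkS_sound E lk55 2 5 _ _ _ _ t55_4_4)

def r55_4_5 : List (ℕ × ℤ) := [(28, 11520), (29, 5760), (35, 11520), (110, 23040), (132, 5760)]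

theorem h55_4_5 (E : Env κ ι) : ip (F55_4 E) (F55_5 E) = dotS (ek E lk55) r55_4_5 :=
  op_entryZ E lk55 2 5 _ _ _ _ (pg11 κ) (pg4 ι) m55_4 m55_5 l55_5 z55_5 w55_5 x55_5 (by decide) _ (chkS_sound E lk55 2 5 _ _ _ _ t55_4_5)

def r55_5_5 : List (ℕ × ℤ) := [(2, 8640), (6, 2880), (13, 8640), (20, 17280), (180, 2880), (181, 17280)]

theorem h55_5_5 (E : Env κ ι) : ip (F55_5 E) (F55_5 E) = dotS (ek E lk55) r55_5_5 :=
  op_entryZ E lk55 2 5 _ _ _ _ (pg11 κ) (pg4 ι) m55_5 m55_5 l55_5 z55_5 w55_5 x55_5 (by decide) _ (chkS_sound E lk55 2 5 _ _ _ _ t55_5_5)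

theorem row55_0 (E : Env κ ι) : RowG (ek E lk55) (F55_0 E) [F55_0 E, F55_1 E, F55_2 E, F55_3 E, F55_4 E, F55_5 E] [r55_0_0, r55_0_1, r55_0_2, r55_0_3, r55_0_4, r55_0_5] :=
  rowG_cons _ _ _ _ _ _ (h55_0_0 E) (rowG_cons _ _ _ _ _ _ (h55_0_1 E) (rowG_cons _ _ _ _ _ _ (h55_0_2 E) (rowG_cons _ _ _ _ _ _ (h55_0_3 E) (rowG_cons _ _ _ _ _ _ (h55_0_4 E) (rowG_cons _ _ _ _ _ _ (h55_0_5 E) (rowG_nil _ _))))))

theorem row55_1 (E : Env κ ι) : RowG (ek E lk55) (F55_1 E) [F55_1 E, F55_2 E, F55_3 E, F55_4 E, F55_5 E] [r55_1_1, r55_1_2, r55_1_3, r55_1_4, r55_1_5] :=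
  rowG_cons _ _ _ _ _ _ (h55_1_1 E) (rowG_cons _ _ _ _ _ _ (h55_1_2 E) (rowG_cons _ _ _ _ _ _ (h55_1_3 E) (rowG_cons _ _ _ _ _ _ (h55_1_4 E) (rowG_cons _ _ _ _ _ _ (h55_1_5 E) (rowG_nil _ _)))))

theorem row55_2 (E : Env κ ι) : RowG (ek E lk55) (F55_2 E) [F55_2 E, F55_3 E, F55_4 E, F55_5 E] [r55_2_2, r55_2_3, r55_2_4, r55_2_5] :=
  rowG_cons _ _ _ _ _ _ (h55_2_2 E) (rowG_cons _ _ _ _ _ _ (h55_2_3 E) (rowG_cons _ _ _ _ _ _ (h55_2_4 E) (rowG_cons _ _ _ _ _ _ (h55_2_5 E) (rowG_nil _ _))))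

theorem row55_3 (E : Env κ ι) : RowG (ek E lk55) (F55_3 E) [F55_3 E, F55_4 E, F55_5 E] [r55_3_3, r55_3_4, r55_3_5] :=
  rowG_cons _ _ _ _ _ _ (h55_3_3 E) (rowG_cons _ _ _ _ _ _ (h55_3_4 E) (rowG_cons _ _ _ _ _ _ (h55_3_5 E) (rowG_nil _ _)))

theorem row55_4 (E : Env κ ι) : RowG (ek E lk55) (F55_4 E) [F55_4 E, F55_5 E] [r55_4_4, r55_4_5] :=
  rowG_cons _ _ _ _ _ _ (h55_4_4 E) (rowG_cons _ _ _ _ _ _ (h55_4_5 E) (rowG_nil _ _))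

theorem row55_5 (E : Env κ ι) : RowG (ek E lk55) (F55_5 E) [F55_5 E] [r55_5_5] :=
  rowG_cons _ _ _ _ _ _ (h55_5_5 E) (rowG_nil _ _)

def tab55 : List (List (List (ℕ × ℤ))) := [[r55_0_0, r55_0_1, r55_0_2, r55_0_3, r55_0_4, r55_0_5], [r55_1_1, r55_1_2, r55_1_3, r55_1_4, r55_1_5], [r55_2_2, r55_2_3, r55_2_4, r55_2_5], [r55_3_3, r55_3_4, r55_3_5], [r55_4_4, r55_4_5], [r55_5_5]]

theorem tri55 (E : Env κ ι) : TriG (ek E lk55) [F55_0 E, F55_1 E, F55_2 E, F55_3 E, F55_4 E, F55_5 E] tab55 := by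
  refine triG_cons _ _ _ _ _ (row55_0 E) ?_
  refine triG_cons _ _ _ _ _ (row55_1 E) ?_
  refine triG_cons _ _ _ _ _ (row55_2 E) ?_
  refine triG_cons _ _ _ _ _ (row55_3 E) ?_
  refine triG_cons _ _ _ _ _ (row55_4 E) ?_
  refine triG_cons _ _ _ _ _ (row55_5 E) ?_
  exact triG_nil _

end

def lk56 : List Key := [
  (2, 5, [(0, [0], [0, 1]), (0, [1], [2, 3]), (2, [1], [2, 3, 4]), (2, [0], [0, 1, 4])]),
  (2, 7, [(0, [0], [0, 1]), (0, [1], [0, 2]), (0, [1], [3, 4]), (0, [0], [5, 6]), (1, [], [5, 6]), (1, [], [3, 4]), (4, [], [2]), (4, [], [1])]),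
  (2, 5, [(0, [0], [0, 1]), (0, [0], [0, 1]), (2, [1], [2, 3, 4]), (2, [1], [2, 3, 4])]),
  (2, 7, [(0, [0], [0, 1]), (0, [0], [0, 1]), (0, [1], [2, 3]), (0, [1], [2, 4]), (4, [], [4]), (4, [], [3]), (1, [], [5, 6]), (1, [], [5, 6])]),
  (2, 6, [(0, [0], [0, 1]), (0, [0], [2, 3]), (0, [1], [4, 5]), (1, [], [2, 3]), (2, [1], [0, 4, 5]), (4, [], [1])]),
  (2, 7, [(0, [0], [0, 1]), (0, [1], [0, 2]), (0, [1], [3, 4]), (0, [0], [3, 4]), (4, [], [2]), (4, [], [1]), (1, [], [5, 6]), (1, [], [5, 6])]),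
  (2, 6, [(0, [0], [0, 1]), (0, [0], [0, 1]), (0, [1], [2, 3]), (1, [], [4, 5]), (2, [1], [2, 4, 5]), (4, [], [3])]),
  (2, 5, [(0, [0], [0, 1]), (0, [0], [2, 3]), (2, [1], [2, 3, 4]), (2, [1], [0, 1, 4])]),
  (2, 6, [(0, [0], [0, 1]), (0, [0], [2, 3]), (0, [1], [4, 5]), (1, [], [0, 1]), (2, [1], [2, 3, 4]), (4, [], [5])]),
  (2, 6, [(0, [0], [0, 1]), (0, [0], [2, 3]), (0, [1], [4, 5]), (1, [], [0, 4]), (2, [1], [2, 3, 5]), (4, [], [1])]),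
  (2, 7, [(0, [0], [0, 1]), (0, [0], [2, 3]), (0, [1], [4, 5]), (0, [1], [4, 6]), (1, [], [0, 5]), (1, [], [2, 3]), (4, [], [1]), (4, [], [6])]),
  (2, 6, [(0, [0], [0, 1]), (0, [0], [2, 3]), (0, [1], [0, 4]), (1, [], [4, 5]), (2, [1], [2, 3, 5]), (4, [], [1])]),
  (2, 7, [(0, [0], [0, 1]), (0, [1], [0, 2]), (0, [0], [3, 4]), (0, [1], [5, 6]), (1, [], [1, 3]), (1, [], [5, 6]), (4, [], [2]), (4, [], [4])]),
  (2, 6, [(0, [0], [0, 1]), (0, [0], [2, 3]), (0, [1], [0, 4]), (1, [], [1, 5]), (2, [1], [2, 3, 5]), (4, [], [4])]),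
  (2, 5, [(0, [0], [0, 1]), (0, [1], [0, 2]), (2, [1], [2, 3, 4]), (2, [0], [1, 3, 4])]),
  (2, 6, [(0, [0], [0, 1]), (0, [1], [0, 2]), (0, [0], [1, 3]), (1, [], [4, 5]), (2, [1], [2, 4, 5]), (4, [], [3])]),
  (2, 7, [(0, [0], [0, 1]), (0, [1], [0, 2]), (0, [1], [2, 3]), (0, [0], [1, 4]), (4, [], [4]), (4, [], [3]), (1, [], [5, 6]), (1, [], [5, 6])]),
  (2, 7, [(0, [0], [0, 1]), (0, [0], [0, 2]), (0, [1], [3, 2]), (4, [], [1]), (0, [1], [4, 5]), (1, [], [4, 6]), (1, [], [5, 6]), (4, [], [3])]),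
  (2, 7, [(0, [0], [0, 1]), (0, [0], [0, 2]), (0, [1], [3, 2]), (4, [], [1]), (0, [1], [4, 5]), (1, [], [4, 6]), (1, [], [3, 6]), (4, [], [5])]),
  (2, 7, [(0, [0], [0, 1]), (0, [0], [0, 2]), (0, [1], [3, 2]), (4, [], [1]), (0, [1], [4, 5]), (1, [], [4, 6]), (1, [], [3, 5]), (4, [], [6])]),
  (2, 7, [(0, [0], [0, 1]), (0, [0], [0, 2]), (0, [1], [3, 2]), (4, [], [1]), (0, [1], [3, 4]), (1, [], [5, 6]), (1, [], [4, 5]), (4, [], [6])]),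
  (2, 7, [(0, [0], [0, 1]), (0, [0], [0, 1]), (0, [1], [2, 3]), (4, [], [3]), (0, [1], [4, 5]), (1, [], [4, 6]), (1, [], [5, 6]), (4, [], [2])]),
  (2, 7, [(0, [0], [0, 1]), (0, [0], [0, 1]), (0, [1], [2, 3]), (4, [], [3]), (0, [1], [4, 5]), (1, [], [4, 6]), (1, [], [2, 6]), (4, [], [5])]),
  (2, 7, [(0, [0], [0, 1]), (0, [0], [0, 1]), (0, [1], [2, 3]), (4, [], [3]), (0, [1], [4, 5]), (1, [], [4, 6]), (1, [], [2, 5]), (4, [], [6])]),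
  (2, 7, [(0, [0], [0, 1]), (0, [0], [0, 1]), (0, [1], [2, 3]), (4, [], [3]), (0, [1], [2, 4]), (1, [], [5, 6]), (1, [], [4, 5]), (4, [], [6])]),
  (2, 7, [(0, [0], [0, 1]), (0, [0], [2, 3]), (0, [1], [0, 1]), (4, [], [3]), (0, [1], [4, 5]), (1, [], [4, 6]), (1, [], [5, 6]), (4, [], [2])]),
  (2, 7, [(0, [0], [0, 1]), (0, [0], [2, 3]), (0, [1], [0, 1]), (4, [], [3]), (0, [1], [4, 5]), (1, [], [4, 6]), (1, [], [2, 6]), (4, [], [5])]),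
  (2, 7, [(0, [0], [0, 1]), (0, [0], [2, 3]), (0, [1], [0, 1]), (4, [], [3]), (0, [1], [4, 5]), (1, [], [4, 6]), (1, [], [2, 5]), (4, [], [6])]),
  (2, 7, [(0, [0], [0, 1]), (0, [0], [2, 3]), (0, [1], [0, 1]), (4, [], [3]), (0, [1], [2, 4]), (1, [], [5, 6]), (1, [], [4, 5]), (4, [], [6])]),
  (2, 6, [(0, [0], [0, 1]), (0, [0], [2, 3]), (0, [1], [0, 1]), (4, [], [3]), (1, [], [4, 5]), (2, [1], [2, 4, 5])]),
  (2, 7, [(0, [0], [0, 1]), (0, [0], [2, 0]), (0, [1], [1, 3]), (4, [], [3]), (0, [1], [4, 5]), (1, [], [4, 6]), (1, [], [2, 6]), (4, [], [5])]),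
  (2, 7, [(0, [0], [0, 1]), (0, [0], [2, 0]), (0, [1], [1, 3]), (4, [], [3]), (0, [1], [4, 5]), (1, [], [4, 6]), (1, [], [2, 5]), (4, [], [6])]),
  (2, 7, [(0, [0], [0, 1]), (0, [0], [2, 0]), (0, [1], [1, 3]), (4, [], [3]), (0, [1], [2, 4]), (1, [], [5, 6]), (1, [], [5, 6]), (4, [], [4])]),
  (2, 7, [(0, [0], [0, 1]), (0, [0], [2, 0]), (0, [1], [1, 3]), (4, [], [3]), (0, [1], [2, 4]), (1, [], [5, 6]), (1, [], [4, 5]), (4, [], [6])]),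
  (2, 6, [(0, [0], [0, 1]), (0, [0], [2, 0]), (0, [1], [1, 3]), (4, [], [3]), (1, [], [4, 5]), (2, [1], [2, 4, 5])]),
  (2, 7, [(0, [0], [0, 1]), (0, [0], [0, 1]), (0, [1], [2, 3]), (4, [], [4]), (0, [1], [5, 6]), (1, [], [2, 5]), (1, [], [3, 6]), (4, [], [4])]),
  (2, 7, [(0, [0], [0, 1]), (0, [0], [0, 1]), (0, [1], [2, 3]), (4, [], [4]), (0, [1], [2, 5]), (1, [], [5, 6]), (1, [], [3, 6]), (4, [], [4])]),
  (2, 7, [(0, [0], [0, 1]), (0, [0], [0, 1]), (0, [1], [2, 3]), (4, [], [4]), (0, [1], [2, 5]), (1, [], [5, 6]), (1, [], [3, 4]), (4, [], [6])]),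
  (2, 6, [(0, [0], [0, 1]), (0, [0], [0, 1]), (0, [1], [2, 3]), (4, [], [4]), (1, [], [2, 5]), (2, [1], [3, 4, 5])]),
  (2, 7, [(0, [0], [0, 1]), (0, [0], [2, 0]), (0, [1], [3, 1]), (4, [], [4]), (0, [1], [5, 6]), (1, [], [2, 5]), (1, [], [3, 6]), (4, [], [4])]),
  (2, 7, [(0, [0], [0, 1]), (0, [0], [2, 0]), (0, [1], [3, 1]), (4, [], [4]), (0, [1], [5, 6]), (1, [], [2, 5]), (1, [], [3, 4]), (4, [], [6])]),
  (2, 7, [(0, [0], [0, 1]), (0, [0], [2, 0]), (0, [1], [3, 1]), (4, [], [4]), (0, [1], [5, 6]), (1, [], [3, 5]), (1, [], [2, 4]), (4, [], [6])]),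
  (2, 7, [(0, [0], [0, 1]), (0, [0], [2, 0]), (0, [1], [3, 1]), (4, [], [4]), (0, [1], [2, 5]), (1, [], [5, 6]), (1, [], [3, 6]), (4, [], [4])]),
  (2, 7, [(0, [0], [0, 1]), (0, [0], [2, 0]), (0, [1], [3, 1]), (4, [], [4]), (0, [1], [3, 5]), (1, [], [5, 6]), (1, [], [2, 6]), (4, [], [4])]),
  (2, 7, [(0, [0], [0, 1]), (0, [0], [2, 0]), (0, [1], [3, 1]), (4, [], [4]), (0, [1], [2, 5]), (1, [], [5, 6]), (1, [], [3, 4]), (4, [], [6])]),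
  (2, 7, [(0, [0], [0, 1]), (0, [0], [2, 0]), (0, [1], [3, 1]), (4, [], [4]), (0, [1], [3, 5]), (1, [], [5, 6]), (1, [], [2, 4]), (4, [], [6])]),
  (2, 7, [(0, [0], [0, 1]), (0, [0], [2, 0]), (0, [1], [3, 1]), (4, [], [4]), (0, [1], [4, 5]), (1, [], [2, 6]), (1, [], [3, 6]), (4, [], [5])]),
  (2, 6, [(0, [0], [0, 1]), (0, [0], [2, 0]), (0, [1], [3, 1]), (4, [], [4]), (1, [], [2, 5]), (2, [1], [3, 4, 5])]),
  (2, 6, [(0, [0], [0, 1]), (0, [0], [2, 0]), (0, [1], [3, 1]), (4, [], [4]), (1, [], [3, 5]), (2, [1], [2, 4, 5])]),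
  (2, 7, [(0, [0], [0, 1]), (0, [0], [2, 0]), (0, [1], [3, 4]), (4, [], [1]), (0, [1], [5, 6]), (1, [], [5, 6]), (1, [], [3, 4]), (4, [], [2])]),
  (2, 7, [(0, [0], [0, 1]), (0, [0], [2, 0]), (0, [1], [3, 4]), (4, [], [1]), (0, [1], [5, 6]), (1, [], [2, 5]), (1, [], [3, 6]), (4, [], [4])]),
  (2, 7, [(0, [0], [0, 1]), (0, [0], [2, 0]), (0, [1], [3, 4]), (4, [], [1]), (0, [1], [5, 6]), (1, [], [3, 5]), (1, [], [4, 6]), (4, [], [2])]),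
  (2, 7, [(0, [0], [0, 1]), (0, [0], [2, 0]), (0, [1], [3, 4]), (4, [], [1]), (0, [1], [3, 5]), (1, [], [5, 6]), (1, [], [2, 6]), (4, [], [4])]),
  (2, 7, [(0, [0], [0, 1]), (0, [0], [2, 0]), (0, [1], [3, 4]), (4, [], [1]), (0, [1], [3, 5]), (1, [], [5, 6]), (1, [], [4, 6]), (4, [], [2])]),
  (2, 7, [(0, [0], [0, 1]), (0, [0], [2, 0]), (0, [1], [3, 4]), (4, [], [1]), (0, [1], [3, 5]), (1, [], [5, 6]), (1, [], [2, 4]), (4, [], [6])]),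
  (2, 7, [(0, [0], [0, 1]), (0, [0], [2, 0]), (0, [1], [3, 4]), (4, [], [1]), (0, [1], [3, 5]), (1, [], [2, 6]), (1, [], [4, 5]), (4, [], [6])]),
  (2, 6, [(0, [0], [0, 1]), (0, [0], [2, 0]), (0, [1], [3, 4]), (4, [], [1]), (1, [], [2, 5]), (2, [1], [3, 4, 5])]),
  (2, 6, [(0, [0], [0, 1]), (0, [0], [2, 0]), (0, [1], [3, 4]), (4, [], [1]), (1, [], [3, 5]), (2, [1], [2, 4, 5])]),
  (2, 7, [(0, [0], [0, 1]), (0, [0], [2, 3]), (0, [1], [0, 1]), (4, [], [4]), (0, [1], [5, 6]), (1, [], [2, 5]), (1, [], [3, 6]), (4, [], [4])]),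
  (2, 7, [(0, [0], [0, 1]), (0, [0], [2, 3]), (0, [1], [0, 1]), (4, [], [4]), (0, [1], [2, 5]), (1, [], [5, 6]), (1, [], [3, 6]), (4, [], [4])]),
  (2, 7, [(0, [0], [0, 1]), (0, [0], [2, 3]), (0, [1], [0, 1]), (4, [], [4]), (0, [1], [2, 5]), (1, [], [5, 6]), (1, [], [3, 4]), (4, [], [6])]),
  (2, 6, [(0, [0], [0, 1]), (0, [0], [2, 3]), (0, [1], [0, 1]), (4, [], [4]), (1, [], [2, 5]), (2, [1], [3, 4, 5])]),
  (2, 7, [(0, [0], [0, 1]), (0, [0], [2, 3]), (0, [1], [4, 0]), (4, [], [1]), (0, [1], [5, 6]), (1, [], [5, 6]), (1, [], [2, 4]), (4, [], [3])]),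
  (2, 7, [(0, [0], [0, 1]), (0, [0], [2, 3]), (0, [1], [4, 0]), (4, [], [1]), (0, [1], [5, 6]), (1, [], [2, 5]), (1, [], [3, 6]), (4, [], [4])]),
  (2, 7, [(0, [0], [0, 1]), (0, [0], [2, 3]), (0, [1], [4, 0]), (4, [], [1]), (0, [1], [5, 6]), (1, [], [2, 5]), (1, [], [4, 6]), (4, [], [3])]),
  (2, 7, [(0, [0], [0, 1]), (0, [0], [2, 3]), (0, [1], [4, 0]), (4, [], [1]), (0, [1], [5, 6]), (1, [], [2, 5]), (1, [], [3, 4]), (4, [], [6])]),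
  (2, 7, [(0, [0], [0, 1]), (0, [0], [2, 3]), (0, [1], [4, 0]), (4, [], [1]), (0, [1], [2, 5]), (1, [], [5, 6]), (1, [], [3, 6]), (4, [], [4])]),
  (2, 7, [(0, [0], [0, 1]), (0, [0], [2, 3]), (0, [1], [4, 0]), (4, [], [1]), (0, [1], [2, 5]), (1, [], [5, 6]), (1, [], [4, 6]), (4, [], [3])]),
  (2, 7, [(0, [0], [0, 1]), (0, [0], [2, 3]), (0, [1], [4, 0]), (4, [], [1]), (0, [1], [2, 5]), (1, [], [3, 6]), (1, [], [4, 6]), (4, [], [5])]),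
  (2, 7, [(0, [0], [0, 1]), (0, [0], [2, 3]), (0, [1], [4, 0]), (4, [], [1]), (0, [1], [2, 5]), (1, [], [3, 6]), (1, [], [4, 5]), (4, [], [6])]),
  (2, 7, [(0, [0], [0, 1]), (0, [0], [2, 3]), (0, [1], [4, 0]), (4, [], [1]), (0, [1], [2, 5]), (1, [], [4, 6]), (1, [], [3, 5]), (4, [], [6])]),
  (2, 6, [(0, [0], [0, 1]), (0, [0], [2, 3]), (0, [1], [4, 0]), (4, [], [1]), (1, [], [2, 5]), (2, [1], [3, 4, 5])]),
  (2, 7, [(0, [0], [0, 1]), (0, [0], [2, 3]), (0, [1], [4, 3]), (4, [], [1]), (0, [1], [5, 6]), (1, [], [5, 6]), (1, [], [2, 4]), (4, [], [0])]),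
  (2, 7, [(0, [0], [0, 1]), (0, [0], [2, 3]), (0, [1], [4, 3]), (4, [], [1]), (0, [1], [5, 6]), (1, [], [2, 5]), (1, [], [4, 6]), (4, [], [0])]),
  (2, 7, [(0, [0], [0, 1]), (0, [0], [2, 3]), (0, [1], [4, 3]), (4, [], [1]), (0, [1], [5, 6]), (1, [], [0, 5]), (1, [], [2, 4]), (4, [], [6])]),
  (2, 7, [(0, [0], [0, 1]), (0, [0], [2, 3]), (0, [1], [4, 3]), (4, [], [1]), (0, [1], [5, 6]), (1, [], [2, 5]), (1, [], [0, 4]), (4, [], [6])]),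
  (2, 7, [(0, [0], [0, 1]), (0, [0], [2, 3]), (0, [1], [4, 3]), (4, [], [1]), (0, [1], [5, 6]), (1, [], [4, 5]), (1, [], [0, 2]), (4, [], [6])]),
  (2, 6, [(0, [0], [0, 1]), (0, [0], [2, 3]), (0, [1], [4, 3]), (4, [], [1]), (1, [], [2, 5]), (2, [1], [0, 4, 5])]),
  (2, 7, [(0, [0], [0, 1]), (0, [0], [2, 1]), (0, [1], [3, 4]), (4, [], [4]), (0, [1], [5, 6]), (1, [], [5, 6]), (1, [], [0, 2]), (4, [], [3])]),
  (2, 7, [(0, [0], [0, 1]), (0, [0], [2, 1]), (0, [1], [3, 4]), (4, [], [4]), (0, [1], [5, 6]), (1, [], [0, 5]), (1, [], [2, 6]), (4, [], [3])]),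
  (2, 7, [(0, [0], [0, 1]), (0, [0], [2, 1]), (0, [1], [3, 4]), (4, [], [4]), (0, [1], [5, 6]), (1, [], [0, 5]), (1, [], [2, 3]), (4, [], [6])]),
  (2, 7, [(0, [0], [0, 1]), (0, [0], [2, 1]), (0, [1], [3, 4]), (4, [], [4]), (0, [1], [5, 6]), (1, [], [3, 5]), (1, [], [0, 2]), (4, [], [6])]),
  (2, 6, [(0, [0], [0, 1]), (0, [0], [2, 1]), (0, [1], [3, 4]), (4, [], [4]), (1, [], [0, 5]), (2, [1], [2, 3, 5])]),
  (2, 7, [(0, [0], [0, 1]), (0, [0], [2, 1]), (0, [1], [3, 4]), (4, [], [5]), (0, [1], [3, 6]), (1, [], [0, 6]), (1, [], [2, 4]), (4, [], [5])]),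
  (2, 7, [(0, [0], [0, 1]), (0, [0], [2, 1]), (0, [1], [3, 4]), (4, [], [5]), (0, [1], [3, 6]), (1, [], [4, 6]), (1, [], [0, 2]), (4, [], [5])]),
  (2, 6, [(0, [0], [0, 1]), (0, [0], [2, 1]), (0, [1], [3, 4]), (4, [], [5]), (1, [], [0, 2]), (2, [1], [3, 4, 5])]),
  (2, 6, [(0, [0], [0, 1]), (0, [0], [2, 1]), (0, [1], [3, 4]), (4, [], [5]), (1, [], [0, 3]), (2, [1], [2, 4, 5])]),
  (2, 7, [(0, [0], [0, 1]), (0, [0], [2, 3]), (0, [1], [4, 1]), (4, [], [5]), (0, [1], [2, 6]), (1, [], [3, 6]), (1, [], [0, 4]), (4, [], [5])]),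
  (2, 7, [(0, [0], [0, 1]), (0, [0], [2, 3]), (0, [1], [4, 1]), (4, [], [5]), (0, [1], [2, 6]), (1, [], [4, 6]), (1, [], [0, 3]), (4, [], [5])]),
  (2, 6, [(0, [0], [0, 1]), (0, [0], [2, 3]), (0, [1], [4, 1]), (4, [], [5]), (1, [], [0, 2]), (2, [1], [3, 4, 5])]),
  (2, 6, [(0, [0], [0, 1]), (0, [0], [2, 3]), (0, [1], [4, 1]), (4, [], [5]), (1, [], [0, 4]), (2, [1], [2, 3, 5])]),
  (2, 6, [(0, [0], [0, 1]), (0, [0], [2, 3]), (0, [1], [4, 5]), (4, [], [1]), (1, [], [0, 2]), (2, [1], [3, 4, 5])]),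
  (2, 5, [(0, [0], [0, 1]), (2, [0], [2, 3, 4]), (0, [1], [0, 1]), (2, [1], [2, 3, 4])]),
  (2, 5, [(0, [0], [0, 1]), (2, [1], [2, 3, 1]), (0, [0], [0, 4]), (2, [1], [2, 3, 4])])]

def kl56 : List ℕ := [7, 10, 11, 12, 21, 26, 30, 37, 38, 41, 42, 44, 45, 46, 47, 49, 51, 113, 114, 115, 117, 121, 122, 123, 124, 134, 135, 136, 141, 143, 145, 146, 149, 150, 151, 208, 209, 210, 215, 227, 228, 229, 231, 232, 233, 234, 235, 248, 249, 254, 255, 256, 257, 258, 259, 260, 264, 265, 271, 272, 273, 281, 289, 290, 291, 292, 293, 294, 296, 297, 298, 301, 323, 324, 325, 326, 327, 329, 332, 333, 334, 335, 336, 422, 423, 424, 425, 432, 433, 434, 435, 439, 448, 449]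

def m56_0 : Base := (0, 1, [(0, [0], [0, 5]), (0, [1], [1, 2]), (1, [], [3, 5]), (4, [], [4])])

def l56_0 : Cov := [(480, 0, 1, [(0, [0], [0, 5]), (0, [1], [1, 2]), (1, [], [3, 5]), (4, [], [4])]),
  (480, 0, 1, [(0, [0], [0, 5]), (0, [1], [1, 2]), (1, [], [4, 5]), (4, [], [3])]),
  (480, 0, 1, [(0, [0], [0, 5]), (0, [1], [1, 3]), (1, [], [2, 5]), (4, [], [4])]),
  (480, 0, 1, [(0, [0], [0, 5]), (0, [1], [1, 3]), (1, [], [4, 5]), (4, [], [2])]),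
  (480, 0, 1, [(0, [0], [0, 5]), (0, [1], [1, 4]), (1, [], [2, 5]), (4, [], [3])]),
  (480, 0, 1, [(0, [0], [0, 5]), (0, [1], [1, 4]), (1, [], [3, 5]), (4, [], [2])]),
  (480, 0, 1, [(0, [0], [0, 5]), (0, [1], [2, 3]), (1, [], [1, 5]), (4, [], [4])]),
  (480, 0, 1, [(0, [0], [0, 5]), (0, [1], [2, 3]), (1, [], [4, 5]), (4, [], [1])]),
  (480, 0, 1, [(0, [0], [0, 5]), (0, [1], [2, 4]), (1, [], [1, 5]), (4, [], [3])]),
  (480, 0, 1, [(0, [0], [0, 5]), (0, [1], [2, 4]), (1, [], [3, 5]), (4, [], [1])]),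
  (480, 0, 1, [(0, [0], [0, 5]), (0, [1], [3, 4]), (1, [], [1, 5]), (4, [], [2])]),
  (480, 0, 1, [(0, [0], [0, 5]), (0, [1], [3, 4]), (1, [], [2, 5]), (4, [], [1])]),
  (480, 0, 1, [(0, [0], [1, 5]), (0, [1], [0, 2]), (1, [], [3, 5]), (4, [], [4])]),
  (480, 0, 1, [(0, [0], [1, 5]), (0, [1], [0, 2]), (1, [], [4, 5]), (4, [], [3])]),
  (480, 0, 1, [(0, [0], [1, 5]), (0, [1], [0, 3]), (1, [], [2, 5]), (4, [], [4])]),
  (480, 0, 1, [(0, [0], [1, 5]), (0, [1], [0, 3]), (1, [], [4, 5]), (4, [], [2])]),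
  (480, 0, 1, [(0, [0], [1, 5]), (0, [1], [0, 4]), (1, [], [2, 5]), (4, [], [3])]),
  (480, 0, 1, [(0, [0], [1, 5]), (0, [1], [0, 4]), (1, [], [3, 5]), (4, [], [2])]),
  (480, 0, 1, [(0, [0], [1, 5]), (0, [1], [2, 3]), (1, [], [0, 5]), (4, [], [4])]),
  (480, 0, 1, [(0, [0], [1, 5]), (0, [1], [2, 3]), (1, [], [4, 5]), (4, [], [0])]),
  (480, 0, 1, [(0, [0], [1, 5]), (0, [1], [2, 4]), (1, [], [0, 5]), (4, [], [3])]),
  (480, 0, 1, [(0, [0], [1, 5]), (0, [1], [2, 4]), (1, [], [3, 5]), (4, [], [0])]),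
  (480, 0, 1, [(0, [0], [1, 5]), (0, [1], [3, 4]), (1, [], [0, 5]), (4, [], [2])]),
  (480, 0, 1, [(0, [0], [1, 5]), (0, [1], [3, 4]), (1, [], [2, 5]), (4, [], [0])]),
  (480, 0, 1, [(0, [0], [2, 5]), (0, [1], [0, 1]), (1, [], [3, 5]), (4, [], [4])]),
  (480, 0, 1, [(0, [0], [2, 5]), (0, [1], [0, 1]), (1, [], [4, 5]), (4, [], [3])]),
  (480, 0, 1, [(0, [0], [2, 5]), (0, [1], [0, 3]), (1, [], [1, 5]), (4, [], [4])]),
  (480, 0, 1, [(0, [0], [2, 5]), (0, [1], [0, 3]), (1, [], [4, 5]), (4, [], [1])]),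
  (480, 0, 1, [(0, [0], [2, 5]), (0, [1], [0, 4]), (1, [], [1, 5]), (4, [], [3])]),
  (480, 0, 1, [(0, [0], [2, 5]), (0, [1], [0, 4]), (1, [], [3, 5]), (4, [], [1])]),
  (480, 0, 1, [(0, [0], [2, 5]), (0, [1], [1, 3]), (1, [], [0, 5]), (4, [], [4])]),
  (480, 0, 1, [(0, [0], [2, 5]), (0, [1], [1, 3]), (1, [], [4, 5]), (4, [], [0])]),
  (480, 0, 1, [(0, [0], [2, 5]), (0, [1], [1, 4]), (1, [], [0, 5]), (4, [], [3])]),
  (480, 0, 1, [(0, [0], [2, 5]), (0, [1], [1, 4]), (1, [], [3, 5]), (4, [], [0])]),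
  (480, 0, 1, [(0, [0], [2, 5]), (0, [1], [3, 4]), (1, [], [0, 5]), (4, [], [1])]),
  (480, 0, 1, [(0, [0], [2, 5]), (0, [1], [3, 4]), (1, [], [1, 5]), (4, [], [0])]),
  (480, 0, 1, [(0, [0], [3, 5]), (0, [1], [0, 1]), (1, [], [2, 5]), (4, [], [4])]),
  (480, 0, 1, [(0, [0], [3, 5]), (0, [1], [0, 1]), (1, [], [4, 5]), (4, [], [2])]),
  (480, 0, 1, [(0, [0], [3, 5]), (0, [1], [0, 2]), (1, [], [1, 5]), (4, [], [4])]),
  (480, 0, 1, [(0, [0], [3, 5]), (0, [1], [0, 2]), (1, [], [4, 5]), (4, [], [1])]),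
  (480, 0, 1, [(0, [0], [3, 5]), (0, [1], [0, 4]), (1, [], [1, 5]), (4, [], [2])]),
  (480, 0, 1, [(0, [0], [3, 5]), (0, [1], [0, 4]), (1, [], [2, 5]), (4, [], [1])]),
  (480, 0, 1, [(0, [0], [3, 5]), (0, [1], [1, 2]), (1, [], [0, 5]), (4, [], [4])]),
  (480, 0, 1, [(0, [0], [3, 5]), (0, [1], [1, 2]), (1, [], [4, 5]), (4, [], [0])]),
  (480, 0, 1, [(0, [0], [3, 5]), (0, [1], [1, 4]), (1, [], [0, 5]), (4, [], [2])]),
  (480, 0, 1, [(0, [0], [3, 5]), (0, [1], [1, 4]), (1, [], [2, 5]), (4, [], [0])]),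
  (480, 0, 1, [(0, [0], [3, 5]), (0, [1], [2, 4]), (1, [], [0, 5]), (4, [], [1])]),
  (480, 0, 1, [(0, [0], [3, 5]), (0, [1], [2, 4]), (1, [], [1, 5]), (4, [], [0])]),
  (480, 0, 1, [(0, [0], [4, 5]), (0, [1], [0, 1]), (1, [], [2, 5]), (4, [], [3])]),
  (480, 0, 1, [(0, [0], [4, 5]), (0, [1], [0, 1]), (1, [], [3, 5]), (4, [], [2])]),
  (480, 0, 1, [(0, [0], [4, 5]), (0, [1], [0, 2]), (1, [], [1, 5]), (4, [], [3])]),
  (480, 0, 1, [(0, [0], [4, 5]), (0, [1], [0, 2]), (1, [], [3, 5]), (4, [], [1])]),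
  (480, 0, 1, [(0, [0], [4, 5]), (0, [1], [0, 3]), (1, [], [1, 5]), (4, [], [2])]),
  (480, 0, 1, [(0, [0], [4, 5]), (0, [1], [0, 3]), (1, [], [2, 5]), (4, [], [1])]),
  (480, 0, 1, [(0, [0], [4, 5]), (0, [1], [1, 2]), (1, [], [0, 5]), (4, [], [3])]),
  (480, 0, 1, [(0, [0], [4, 5]), (0, [1], [1, 2]), (1, [], [3, 5]), (4, [], [0])]),
  (480, 0, 1, [(0, [0], [4, 5]), (0, [1], [1, 3]), (1, [], [0, 5]), (4, [], [2])]),
  (480, 0, 1, [(0, [0], [4, 5]), (0, [1], [1, 3]), (1, [], [2, 5]), (4, [], [0])]),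
  (480, 0, 1, [(0, [0], [4, 5]), (0, [1], [2, 3]), (1, [], [0, 5]), (4, [], [1])]),
  (480, 0, 1, [(0, [0], [4, 5]), (0, [1], [2, 3]), (1, [], [1, 5]), (4, [], [0])]),
  (-480, 0, 1, [(0, [1], [0, 5]), (0, [0], [1, 2]), (1, [], [3, 5]), (4, [], [4])]),
  (-480, 0, 1, [(0, [1], [0, 5]), (0, [0], [1, 2]), (1, [], [4, 5]), (4, [], [3])]),
  (-480, 0, 1, [(0, [1], [0, 5]), (0, [0], [1, 3]), (1, [], [2, 5]), (4, [], [4])]),
  (-480, 0, 1, [(0, [1], [0, 5]), (0, [0], [1, 3]), (1, [], [4, 5]), (4, [], [2])]),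
  (-480, 0, 1, [(0, [1], [0, 5]), (0, [0], [1, 4]), (1, [], [2, 5]), (4, [], [3])]),
  (-480, 0, 1, [(0, [1], [0, 5]), (0, [0], [1, 4]), (1, [], [3, 5]), (4, [], [2])]),
  (-480, 0, 1, [(0, [1], [0, 5]), (0, [0], [2, 3]), (1, [], [1, 5]), (4, [], [4])]),
  (-480, 0, 1, [(0, [1], [0, 5]), (0, [0], [2, 3]), (1, [], [4, 5]), (4, [], [1])]),
  (-480, 0, 1, [(0, [1], [0, 5]), (0, [0], [2, 4]), (1, [], [1, 5]), (4, [], [3])]),
  (-480, 0, 1, [(0, [1], [0, 5]), (0, [0], [2, 4]), (1, [], [3, 5]), (4, [], [1])]),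
  (-480, 0, 1, [(0, [1], [0, 5]), (0, [0], [3, 4]), (1, [], [1, 5]), (4, [], [2])]),
  (-480, 0, 1, [(0, [1], [0, 5]), (0, [0], [3, 4]), (1, [], [2, 5]), (4, [], [1])]),
  (-480, 0, 1, [(0, [1], [1, 5]), (0, [0], [0, 2]), (1, [], [3, 5]), (4, [], [4])]),
  (-480, 0, 1, [(0, [1], [1, 5]), (0, [0], [0, 2]), (1, [], [4, 5]), (4, [], [3])]),
  (-480, 0, 1, [(0, [1], [1, 5]), (0, [0], [0, 3]), (1, [], [2, 5]), (4, [], [4])]),
  (-480, 0, 1, [(0, [1], [1, 5]), (0, [0], [0, 3]), (1, [], [4, 5]), (4, [], [2])]),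
  (-480, 0, 1, [(0, [1], [1, 5]), (0, [0], [0, 4]), (1, [], [2, 5]), (4, [], [3])]),
  (-480, 0, 1, [(0, [1], [1, 5]), (0, [0], [0, 4]), (1, [], [3, 5]), (4, [], [2])]),
  (-480, 0, 1, [(0, [1], [1, 5]), (0, [0], [2, 3]), (1, [], [0, 5]), (4, [], [4])]),
  (-480, 0, 1, [(0, [1], [1, 5]), (0, [0], [2, 3]), (1, [], [4, 5]), (4, [], [0])]),
  (-480, 0, 1, [(0, [1], [1, 5]), (0, [0], [2, 4]), (1, [], [0, 5]), (4, [], [3])]),
  (-480, 0, 1, [(0, [1], [1, 5]), (0, [0], [2, 4]), (1, [], [3, 5]), (4, [], [0])]),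
  (-480, 0, 1, [(0, [1], [1, 5]), (0, [0], [3, 4]), (1, [], [0, 5]), (4, [], [2])]),
  (-480, 0, 1, [(0, [1], [1, 5]), (0, [0], [3, 4]), (1, [], [2, 5]), (4, [], [0])]),
  (-480, 0, 1, [(0, [1], [2, 5]), (0, [0], [0, 1]), (1, [], [3, 5]), (4, [], [4])]),
  (-480, 0, 1, [(0, [1], [2, 5]), (0, [0], [0, 1]), (1, [], [4, 5]), (4, [], [3])]),
  (-480, 0, 1, [(0, [1], [2, 5]), (0, [0], [0, 3]), (1, [], [1, 5]), (4, [], [4])]),
  (-480, 0, 1, [(0, [1], [2, 5]), (0, [0], [0, 3]), (1, [], [4, 5]), (4, [], [1])]),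
  (-480, 0, 1, [(0, [1], [2, 5]), (0, [0], [0, 4]), (1, [], [1, 5]), (4, [], [3])]),
  (-480, 0, 1, [(0, [1], [2, 5]), (0, [0], [0, 4]), (1, [], [3, 5]), (4, [], [1])]),
  (-480, 0, 1, [(0, [1], [2, 5]), (0, [0], [1, 3]), (1, [], [0, 5]), (4, [], [4])]),
  (-480, 0, 1, [(0, [1], [2, 5]), (0, [0], [1, 3]), (1, [], [4, 5]), (4, [], [0])]),
  (-480, 0, 1, [(0, [1], [2, 5]), (0, [0], [1, 4]), (1, [], [0, 5]), (4, [], [3])]),
  (-480, 0, 1, [(0, [1], [2, 5]), (0, [0], [1, 4]), (1, [], [3, 5]), (4, [], [0])]),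
  (-480, 0, 1, [(0, [1], [2, 5]), (0, [0], [3, 4]), (1, [], [0, 5]), (4, [], [1])]),
  (-480, 0, 1, [(0, [1], [2, 5]), (0, [0], [3, 4]), (1, [], [1, 5]), (4, [], [0])]),
  (-480, 0, 1, [(0, [1], [3, 5]), (0, [0], [0, 1]), (1, [], [2, 5]), (4, [], [4])]),
  (-480, 0, 1, [(0, [1], [3, 5]), (0, [0], [0, 1]), (1, [], [4, 5]), (4, [], [2])]),
  (-480, 0, 1, [(0, [1], [3, 5]), (0, [0], [0, 2]), (1, [], [1, 5]), (4, [], [4])]),
  (-480, 0, 1, [(0, [1], [3, 5]), (0, [0], [0, 2]), (1, [], [4, 5]), (4, [], [1])]),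
  (-480, 0, 1, [(0, [1], [3, 5]), (0, [0], [0, 4]), (1, [], [1, 5]), (4, [], [2])]),
  (-480, 0, 1, [(0, [1], [3, 5]), (0, [0], [0, 4]), (1, [], [2, 5]), (4, [], [1])]),
  (-480, 0, 1, [(0, [1], [3, 5]), (0, [0], [1, 2]), (1, [], [0, 5]), (4, [], [4])]),
  (-480, 0, 1, [(0, [1], [3, 5]), (0, [0], [1, 2]), (1, [], [4, 5]), (4, [], [0])]),
  (-480, 0, 1, [(0, [1], [3, 5]), (0, [0], [1, 4]), (1, [], [0, 5]), (4, [], [2])]),
  (-480, 0, 1, [(0, [1], [3, 5]), (0, [0], [1, 4]), (1, [], [2, 5]), (4, [], [0])]),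
  (-480, 0, 1, [(0, [1], [3, 5]), (0, [0], [2, 4]), (1, [], [0, 5]), (4, [], [1])]),
  (-480, 0, 1, [(0, [1], [3, 5]), (0, [0], [2, 4]), (1, [], [1, 5]), (4, [], [0])]),
  (-480, 0, 1, [(0, [1], [4, 5]), (0, [0], [0, 1]), (1, [], [2, 5]), (4, [], [3])]),
  (-480, 0, 1, [(0, [1], [4, 5]), (0, [0], [0, 1]), (1, [], [3, 5]), (4, [], [2])]),
  (-480, 0, 1, [(0, [1], [4, 5]), (0, [0], [0, 2]), (1, [], [1, 5]), (4, [], [3])]),
  (-480, 0, 1, [(0, [1], [4, 5]), (0, [0], [0, 2]), (1, [], [3, 5]), (4, [], [1])]),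
  (-480, 0, 1, [(0, [1], [4, 5]), (0, [0], [0, 3]), (1, [], [1, 5]), (4, [], [2])]),
  (-480, 0, 1, [(0, [1], [4, 5]), (0, [0], [0, 3]), (1, [], [2, 5]), (4, [], [1])]),
  (-480, 0, 1, [(0, [1], [4, 5]), (0, [0], [1, 2]), (1, [], [0, 5]), (4, [], [3])]),
  (-480, 0, 1, [(0, [1], [4, 5]), (0, [0], [1, 2]), (1, [], [3, 5]), (4, [], [0])]),
  (-480, 0, 1, [(0, [1], [4, 5]), (0, [0], [1, 3]), (1, [], [0, 5]), (4, [], [2])]),
  (-480, 0, 1, [(0, [1], [4, 5]), (0, [0], [1, 3]), (1, [], [2, 5]), (4, [], [0])]),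
  (-480, 0, 1, [(0, [1], [4, 5]), (0, [0], [2, 3]), (1, [], [0, 5]), (4, [], [1])]),
  (-480, 0, 1, [(0, [1], [4, 5]), (0, [0], [2, 3]), (1, [], [1, 5]), (4, [], [0])])]

def z56_0 : Cov := []

def w56_0 : List (List Wit) := [[(0, 0, 0, 0, 0), (1, 0, 0, 0, 0), (2, 0, 0, 0, 0), (3, 0, 0, 0, 0), (4, 0, 0, 0, 0), (5, 0, 0, 0, 0), (0, 0, 0, 0, 0), (1, 0, 0, 0, 0), (6, 0, 0, 0, 0), (7, 0, 0, 0, 0), (8, 0, 0, 0, 0), (9, 0, 0, 0, 0), (2, 0, 0, 0, 0), (3, 0, 0, 0, 0), (6, 0, 0, 0, 0), (7, 0, 0, 0, 0), (10, 0, 0, 0, 0), (11, 0, 0, 0, 0), (4, 0, 0, 0, 0), (5, 0, 0, 0, 0), (8, 0, 0, 0, 0), (9, 0, 0, 0, 0), (10, 0, 0, 0, 0), (11, 0, 0, 0, 0), (12, 0, 0, 0, 0), (13, 0, 0, 0, 0), (14, 0, 0, 0, 0), (15, 0, 0, 0, 0), (16, 0, 0, 0, 0), (17, 0, 0, 0, 0), (12, 0, 0, 0, 0), (13, 0, 0, 0, 0), (18, 0, 0, 0, 0), (19, 0, 0, 0, 0), (20, 0, 0, 0, 0), (21, 0, 0, 0, 0),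 (14, 0, 0, 0, 0), (15, 0, 0, 0, 0), (18, 0, 0, 0, 0), (19, 0, 0, 0, 0), (22, 0, 0, 0, 0), (23, 0, 0, 0, 0), (16, 0, 0, 0, 0), (17, 0, 0, 0, 0), (20, 0, 0, 0, 0), (21, 0, 0, 0, 0), (22, 0, 0, 0, 0), (23, 0, 0, 0, 0), (24, 0, 0, 0, 0), (25, 0, 0, 0, 0), (26, 0, 0, 0, 0), (27, 0, 0, 0, 0), (28, 0, 0, 0, 0), (29, 0, 0, 0, 0), (24, 0, 0, 0, 0), (25, 0, 0, 0, 0), (30, 0, 0, 0, 0), (31, 0, 0, 0, 0), (32, 0, 0, 0, 0), (33, 0, 0, 0, 0), (26, 0, 0, 0, 0), (27, 0, 0, 0, 0), (30, 0, 0, 0, 0), (31, 0, 0, 0, 0), (34, 0, 0, 0, 0), (35, 0, 0, 0, 0), (28, 0, 0, 0, 0), (29, 0, 0, 0, 0), (32, 0, 0, 0, 0), (33, 0, 0, 0, 0), (34, 0, 0, 0, 0), (35, 0, 0, 0, 0), (36, 0, 0, 0, 0), (37, 0, 0, 0, 0), (38, 0, 0, 0, 0), (39, 0, 0, 0, 0), (40, 0, 0, 0, 0), (41, 0, 0, 0, 0), (36, 0, 0, 0, 0), (37, 0, 0, 0, 0), (42, 0, 0, 0, 0), (43, 0, 0, 0, 0), (44, 0, 0, 0, 0), (45, 0,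 0, 0, 0), (38, 0, 0, 0, 0), (39, 0, 0, 0, 0), (42, 0, 0, 0, 0), (43, 0, 0, 0, 0), (46, 0, 0, 0, 0), (47, 0, 0, 0, 0), (40, 0, 0, 0, 0), (41, 0, 0, 0, 0), (44, 0, 0, 0, 0), (45, 0, 0, 0, 0), (46, 0, 0, 0, 0), (47, 0, 0, 0, 0), (48, 0, 0, 0, 0), (49, 0, 0, 0, 0), (50, 0, 0, 0, 0), (51, 0, 0, 0, 0), (52, 0, 0, 0, 0), (53, 0, 0, 0, 0), (48, 0, 0, 0, 0), (49, 0, 0, 0, 0), (54, 0, 0, 0, 0), (55, 0, 0, 0, 0), (56, 0, 0, 0, 0), (57, 0, 0, 0, 0), (50, 0, 0, 0, 0), (51, 0, 0, 0, 0), (54, 0, 0, 0, 0), (55, 0, 0, 0, 0), (58, 0, 0, 0, 0), (59, 0, 0, 0, 0), (52, 0, 0, 0, 0), (53, 0, 0, 0, 0), (56, 0, 0, 0, 0), (57, 0, 0, 0, 0), (58, 0, 0, 0, 0), (59, 0, 0, 0, 0)],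
  [(60, 0, 0, 0, 0), (61, 0, 0, 0, 0), (62, 0, 0, 0, 0), (63, 0, 0, 0, 0), (64, 0, 0, 0, 0), (65, 0, 0, 0, 0), (60, 0, 0, 0, 0), (61, 0, 0, 0, 0), (66, 0, 0, 0, 0), (67, 0, 0, 0, 0), (68, 0, 0, 0, 0), (69, 0, 0, 0, 0), (62, 0, 0, 0, 0), (63, 0, 0, 0, 0), (66, 0, 0, 0, 0), (67, 0, 0, 0, 0), (70, 0, 0, 0, 0), (71, 0, 0, 0, 0), (64, 0, 0, 0, 0), (65, 0, 0, 0, 0), (68, 0, 0, 0, 0), (69, 0, 0, 0, 0), (70, 0, 0, 0, 0), (71, 0, 0, 0, 0), (72, 0, 0, 0, 0), (73, 0, 0, 0, 0), (74, 0, 0, 0, 0), (75, 0, 0, 0, 0), (76, 0, 0, 0, 0), (77, 0, 0, 0, 0), (72, 0, 0, 0, 0), (73, 0, 0, 0, 0), (78, 0, 0, 0, 0), (79, 0, 0, 0, 0), (80, 0, 0, 0, 0), (81, 0, 0, 0, 0), (74, 0, 0, 0, 0), (75, 0, 0, 0, 0), (78, 0, 0, 0, 0), (79, 0, 0, 0, 0), (82, 0, 0, 0, 0), (83, 0, 0, 0, 0), (76, 0, 0, 0, 0), (77, 0, 0, 0, 0), (80, 0, 0, 0, 0), (81, 0, 0, 0, 0), (82, 0, 0, 0, 0), (83,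 0, 0, 0, 0), (84, 0, 0, 0, 0), (85, 0, 0, 0, 0), (86, 0, 0, 0, 0), (87, 0, 0, 0, 0), (88, 0, 0, 0, 0), (89, 0, 0, 0, 0), (84, 0, 0, 0, 0), (85, 0, 0, 0, 0), (90, 0, 0, 0, 0), (91, 0, 0, 0, 0), (92, 0, 0, 0, 0), (93, 0, 0, 0, 0), (86, 0, 0, 0, 0), (87, 0, 0, 0, 0), (90, 0, 0, 0, 0), (91, 0, 0, 0, 0), (94, 0, 0, 0, 0), (95, 0, 0, 0, 0), (88, 0, 0, 0, 0), (89, 0, 0, 0, 0), (92, 0, 0, 0, 0), (93, 0, 0, 0, 0), (94, 0, 0, 0, 0), (95, 0, 0, 0, 0), (96, 0, 0, 0, 0), (97, 0, 0, 0, 0), (98, 0, 0, 0, 0), (99, 0, 0, 0, 0), (100, 0, 0, 0, 0), (101, 0, 0, 0, 0), (96, 0, 0, 0, 0), (97, 0, 0, 0, 0), (102, 0, 0, 0, 0), (103, 0, 0, 0, 0), (104, 0, 0, 0, 0), (105, 0, 0, 0, 0), (98, 0, 0, 0, 0), (99, 0, 0, 0, 0), (102, 0, 0, 0, 0), (103, 0, 0, 0, 0), (106, 0, 0, 0, 0), (107, 0, 0, 0, 0), (100, 0, 0, 0, 0), (101, 0, 0, 0, 0), (104, 0, 0, 0, 0), (105, 0, 0, 0, 0),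 (106, 0, 0, 0, 0), (107, 0, 0, 0, 0), (108, 0, 0, 0, 0), (109, 0, 0, 0, 0), (110, 0, 0, 0, 0), (111, 0, 0, 0, 0), (112, 0, 0, 0, 0), (113, 0, 0, 0, 0), (108, 0, 0, 0, 0), (109, 0, 0, 0, 0), (114, 0, 0, 0, 0), (115, 0, 0, 0, 0), (116, 0, 0, 0, 0), (117, 0, 0, 0, 0), (110, 0, 0, 0, 0), (111, 0, 0, 0, 0), (114, 0, 0, 0, 0), (115, 0, 0, 0, 0), (118, 0, 0, 0, 0), (119, 0, 0, 0, 0), (112, 0, 0, 0, 0), (113, 0, 0, 0, 0), (116, 0, 0, 0, 0), (117, 0, 0, 0, 0), (118, 0, 0, 0, 0), (119, 0, 0, 0, 0)]]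

def m56_1 : Base := (0, 1, [(0, [0], [0, 5]), (0, [1], [1, 2]), (1, [], [3, 4]), (4, [], [5])])

def l56_1 : Cov := [(960, 0, 1, [(0, [0], [0, 5]), (0, [1], [1, 2]), (1, [], [3, 4]), (4, [], [5])]),
  (960, 0, 1, [(0, [0], [0, 5]), (0, [1], [1, 3]), (1, [], [2, 4]), (4, [], [5])]),
  (960, 0, 1, [(0, [0], [0, 5]), (0, [1], [1, 4]), (1, [], [2, 3]), (4, [], [5])]),
  (960, 0, 1, [(0, [0], [0, 5]), (0, [1], [2, 3]), (1, [], [1, 4]), (4, [], [5])]),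
  (960, 0, 1, [(0, [0], [0, 5]), (0, [1], [2, 4]), (1, [], [1, 3]), (4, [], [5])]),
  (960, 0, 1, [(0, [0], [0, 5]), (0, [1], [3, 4]), (1, [], [1, 2]), (4, [], [5])]),
  (960, 0, 1, [(0, [0], [1, 5]), (0, [1], [0, 2]), (1, [], [3, 4]), (4, [], [5])]),
  (960, 0, 1, [(0, [0], [1, 5]), (0, [1], [0, 3]), (1, [], [2, 4]), (4, [], [5])]),
  (960, 0, 1, [(0, [0], [1, 5]), (0, [1], [0, 4]), (1, [], [2, 3]), (4, [], [5])]),
  (960, 0, 1, [(0, [0], [1, 5]), (0, [1], [2, 3]), (1, [], [0, 4]), (4, [], [5])]),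
  (960, 0, 1, [(0, [0], [1, 5]), (0, [1], [2, 4]), (1, [], [0, 3]), (4, [], [5])]),
  (960, 0, 1, [(0, [0], [1, 5]), (0, [1], [3, 4]), (1, [], [0, 2]), (4, [], [5])]),
  (960, 0, 1, [(0, [0], [2, 5]), (0, [1], [0, 1]), (1, [], [3, 4]), (4, [], [5])]),
  (960, 0, 1, [(0, [0], [2, 5]), (0, [1], [0, 3]), (1, [], [1, 4]), (4, [], [5])]),
  (960, 0, 1, [(0, [0], [2, 5]), (0, [1], [0, 4]), (1, [], [1, 3]), (4, [], [5])]),
  (960, 0, 1, [(0, [0], [2, 5]), (0, [1], [1, 3]), (1, [], [0, 4]), (4, [], [5])]),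
  (960, 0, 1, [(0, [0], [2, 5]), (0, [1], [1, 4]), (1, [], [0, 3]), (4, [], [5])]),
  (960, 0, 1, [(0, [0], [2, 5]), (0, [1], [3, 4]), (1, [], [0, 1]), (4, [], [5])]),
  (960, 0, 1, [(0, [0], [3, 5]), (0, [1], [0, 1]), (1, [], [2, 4]), (4, [], [5])]),
  (960, 0, 1, [(0, [0], [3, 5]), (0, [1], [0, 2]), (1, [], [1, 4]), (4, [], [5])]),
  (960, 0, 1, [(0, [0], [3, 5]), (0, [1], [0, 4]), (1, [], [1, 2]), (4, [], [5])]),
  (960, 0, 1, [(0, [0], [3, 5]), (0, [1], [1, 2]), (1, [], [0, 4]), (4, [], [5])]),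
  (960, 0, 1, [(0, [0], [3, 5]), (0, [1], [1, 4]), (1, [], [0, 2]), (4, [], [5])]),
  (960, 0, 1, [(0, [0], [3, 5]), (0, [1], [2, 4]), (1, [], [0, 1]), (4, [], [5])]),
  (960, 0, 1, [(0, [0], [4, 5]), (0, [1], [0, 1]), (1, [], [2, 3]), (4, [], [5])]),
  (960, 0, 1, [(0, [0], [4, 5]), (0, [1], [0, 2]), (1, [], [1, 3]), (4, [], [5])]),
  (960, 0, 1, [(0, [0], [4, 5]), (0, [1], [0, 3]), (1, [], [1, 2]), (4, [], [5])]),
  (960, 0, 1, [(0, [0], [4, 5]), (0, [1], [1, 2]), (1, [], [0, 3]), (4, [], [5])]),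
  (960, 0, 1, [(0, [0], [4, 5]), (0, [1], [1, 3]), (1, [], [0, 2]), (4, [], [5])]),
  (960, 0, 1, [(0, [0], [4, 5]), (0, [1], [2, 3]), (1, [], [0, 1]), (4, [], [5])]),
  (-960, 0, 1, [(0, [1], [0, 5]), (0, [0], [1, 2]), (1, [], [3, 4]), (4, [], [5])]),
  (-960, 0, 1, [(0, [1], [0, 5]), (0, [0], [1, 3]), (1, [], [2, 4]), (4, [], [5])]),
  (-960, 0, 1, [(0, [1], [0, 5]), (0, [0], [1, 4]), (1, [], [2, 3]), (4, [], [5])]),
  (-960, 0, 1, [(0, [1], [0, 5]), (0, [0], [2, 3]), (1, [], [1, 4]), (4, [], [5])]),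
  (-960, 0, 1, [(0, [1], [0, 5]), (0, [0], [2, 4]), (1, [], [1, 3]), (4, [], [5])]),
  (-960, 0, 1, [(0, [1], [0, 5]), (0, [0], [3, 4]), (1, [], [1, 2]), (4, [], [5])]),
  (-960, 0, 1, [(0, [1], [1, 5]), (0, [0], [0, 2]), (1, [], [3, 4]), (4, [], [5])]),
  (-960, 0, 1, [(0, [1], [1, 5]), (0, [0], [0, 3]), (1, [], [2, 4]), (4, [], [5])]),
  (-960, 0, 1, [(0, [1], [1, 5]), (0, [0], [0, 4]), (1, [], [2, 3]), (4, [], [5])]),
  (-960, 0, 1, [(0, [1], [1, 5]), (0, [0], [2, 3]), (1, [], [0, 4]), (4, [], [5])]),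
  (-960, 0, 1, [(0, [1], [1, 5]), (0, [0], [2, 4]), (1, [], [0, 3]), (4, [], [5])]),
  (-960, 0, 1, [(0, [1], [1, 5]), (0, [0], [3, 4]), (1, [], [0, 2]), (4, [], [5])]),
  (-960, 0, 1, [(0, [1], [2, 5]), (0, [0], [0, 1]), (1, [], [3, 4]), (4, [], [5])]),
  (-960, 0, 1, [(0, [1], [2, 5]), (0, [0], [0, 3]), (1, [], [1, 4]), (4, [], [5])]),
  (-960, 0, 1, [(0, [1], [2, 5]), (0, [0], [0, 4]), (1, [], [1, 3]), (4, [], [5])]),
  (-960, 0, 1, [(0, [1], [2, 5]), (0, [0], [1, 3]), (1, [], [0, 4]), (4, [], [5])]),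
  (-960, 0, 1, [(0, [1], [2, 5]), (0, [0], [1, 4]), (1, [], [0, 3]), (4, [], [5])]),
  (-960, 0, 1, [(0, [1], [2, 5]), (0, [0], [3, 4]), (1, [], [0, 1]), (4, [], [5])]),
  (-960, 0, 1, [(0, [1], [3, 5]), (0, [0], [0, 1]), (1, [], [2, 4]), (4, [], [5])]),
  (-960, 0, 1, [(0, [1], [3, 5]), (0, [0], [0, 2]), (1, [], [1, 4]), (4, [], [5])]),
  (-960, 0, 1, [(0, [1], [3, 5]), (0, [0], [0, 4]), (1, [], [1, 2]), (4, [], [5])]),
  (-960, 0, 1, [(0, [1], [3, 5]), (0, [0], [1, 2]), (1, [], [0, 4]), (4, [], [5])]),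
  (-960, 0, 1, [(0, [1], [3, 5]), (0, [0], [1, 4]), (1, [], [0, 2]), (4, [], [5])]),
  (-960, 0, 1, [(0, [1], [3, 5]), (0, [0], [2, 4]), (1, [], [0, 1]), (4, [], [5])]),
  (-960, 0, 1, [(0, [1], [4, 5]), (0, [0], [0, 1]), (1, [], [2, 3]), (4, [], [5])]),
  (-960, 0, 1, [(0, [1], [4, 5]), (0, [0], [0, 2]), (1, [], [1, 3]), (4, [], [5])]),
  (-960, 0, 1, [(0, [1], [4, 5]), (0, [0], [0, 3]), (1, [], [1, 2]), (4, [], [5])]),
  (-960, 0, 1, [(0, [1], [4, 5]), (0, [0], [1, 2]), (1, [], [0, 3]), (4, [], [5])]),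
  (-960, 0, 1, [(0, [1], [4, 5]), (0, [0], [1, 3]), (1, [], [0, 2]), (4, [], [5])]),
  (-960, 0, 1, [(0, [1], [4, 5]), (0, [0], [2, 3]), (1, [], [0, 1]), (4, [], [5])])]

def z56_1 : Cov := []

def w56_1 : List (List Wit) := [[(0, 0, 0, 0, 0), (0, 0, 0, 0, 0), (1, 0, 0, 0, 0), (1, 0, 0, 0, 0), (2, 0, 0, 0, 0), (2, 0, 0, 0, 0), (0, 0, 0, 0, 0), (0, 0, 0, 0, 0), (3, 0, 0, 0, 0), (3, 0, 0, 0, 0), (4, 0, 0, 0, 0), (4, 0, 0, 0, 0), (1, 0, 0, 0, 0), (1, 0, 0, 0, 0), (3, 0, 0, 0, 0), (3, 0, 0, 0, 0), (5, 0, 0, 0, 0), (5, 0, 0, 0, 0), (2, 0, 0, 0, 0), (2, 0, 0, 0, 0), (4, 0, 0, 0, 0), (4, 0, 0, 0, 0), (5, 0, 0, 0, 0), (5, 0, 0, 0, 0), (6, 0, 0, 0, 0), (6, 0, 0, 0, 0), (7, 0, 0, 0, 0), (7, 0, 0, 0, 0), (8, 0, 0, 0, 0), (8, 0, 0, 0, 0), (6, 0, 0, 0, 0), (6, 0, 0, 0, 0), (9, 0, 0, 0, 0), (9, 0, 0, 0, 0), (10, 0, 0, 0, 0), (10, 0, 0, 0, 0), (7, 0, 0, 0,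 0), (7, 0, 0, 0, 0), (9, 0, 0, 0, 0), (9, 0, 0, 0, 0), (11, 0, 0, 0, 0), (11, 0, 0, 0, 0), (8, 0, 0, 0, 0), (8, 0, 0, 0, 0), (10, 0, 0, 0, 0), (10, 0, 0, 0, 0), (11, 0, 0, 0, 0), (11, 0, 0, 0, 0), (12, 0, 0, 0, 0), (12, 0, 0, 0, 0), (13, 0, 0, 0, 0), (13, 0, 0, 0, 0), (14, 0, 0, 0, 0), (14, 0, 0, 0, 0), (12, 0, 0, 0, 0), (12, 0, 0, 0, 0), (15, 0, 0, 0, 0), (15, 0, 0, 0, 0), (16, 0, 0, 0, 0), (16, 0, 0, 0, 0), (13, 0, 0, 0, 0), (13, 0, 0, 0, 0), (15, 0, 0, 0, 0), (15, 0, 0, 0, 0), (17, 0, 0, 0, 0), (17, 0, 0, 0, 0), (14, 0, 0, 0, 0), (14, 0, 0, 0, 0), (16, 0, 0, 0, 0), (16, 0, 0, 0, 0), (17, 0, 0, 0, 0), (17, 0, 0, 0, 0), (18, 0, 0, 0, 0), (18, 0, 0, 0, 0), (19, 0, 0, 0, 0), (19, 0, 0, 0, 0), (20, 0, 0, 0, 0), (20, 0, 0, 0, 0), (18, 0, 0, 0, 0), (18, 0, 0, 0, 0), (21, 0, 0, 0, 0), (21, 0, 0, 0, 0), (22, 0, 0, 0, 0), (22, 0, 0, 0, 0), (19, 0,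 0, 0, 0), (19, 0, 0, 0, 0), (21, 0, 0, 0, 0), (21, 0, 0, 0, 0), (23, 0, 0, 0, 0), (23, 0, 0, 0, 0), (20, 0, 0, 0, 0), (20, 0, 0, 0, 0), (22, 0, 0, 0, 0), (22, 0, 0, 0, 0), (23, 0, 0, 0, 0), (23, 0, 0, 0, 0), (24, 0, 0, 0, 0), (24, 0, 0, 0, 0), (25, 0, 0, 0, 0), (25, 0, 0, 0, 0), (26, 0, 0, 0, 0), (26, 0, 0, 0, 0), (24, 0, 0, 0, 0), (24, 0, 0, 0, 0), (27, 0, 0, 0, 0), (27, 0, 0, 0, 0), (28, 0, 0, 0, 0), (28, 0, 0, 0, 0), (25, 0, 0, 0, 0), (25, 0, 0, 0, 0), (27, 0, 0, 0, 0), (27, 0, 0, 0, 0), (29, 0, 0, 0, 0), (29, 0, 0, 0, 0), (26, 0, 0, 0, 0), (26, 0, 0, 0, 0), (28, 0, 0, 0, 0), (28, 0, 0, 0, 0), (29, 0, 0, 0, 0), (29, 0, 0, 0, 0)],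
  [(30, 0, 0, 0, 0), (30, 0, 0, 0, 0), (31, 0, 0, 0, 0), (31, 0, 0, 0, 0), (32, 0, 0, 0, 0), (32, 0, 0, 0, 0), (30, 0, 0, 0, 0), (30, 0, 0, 0, 0), (33, 0, 0, 0, 0), (33, 0, 0, 0, 0), (34, 0, 0, 0, 0), (34, 0, 0, 0, 0), (31, 0, 0, 0, 0), (31, 0, 0, 0, 0), (33, 0, 0, 0, 0), (33, 0, 0, 0, 0), (35, 0, 0, 0, 0), (35, 0, 0, 0, 0), (32, 0, 0, 0, 0), (32, 0, 0, 0, 0), (34, 0, 0, 0, 0), (34, 0, 0, 0, 0), (35, 0, 0, 0, 0), (35, 0, 0, 0, 0), (36, 0, 0, 0, 0), (36, 0, 0, 0, 0), (37, 0, 0, 0, 0), (37, 0, 0, 0, 0), (38, 0, 0, 0, 0), (38, 0, 0, 0, 0), (36, 0, 0, 0, 0), (36, 0, 0, 0, 0), (39, 0, 0, 0, 0), (39, 0, 0, 0, 0), (40, 0, 0, 0, 0), (40, 0, 0, 0, 0), (37, 0, 0, 0, 0), (37, 0, 0, 0, 0), (39, 0, 0, 0, 0), (39, 0, 0, 0, 0), (41, 0, 0, 0, 0), (41, 0, 0, 0, 0), (38, 0, 0, 0, 0), (38, 0, 0, 0, 0), (40, 0, 0, 0, 0), (40, 0, 0, 0, 0), (41, 0, 0, 0, 0), (41,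 0, 0, 0, 0), (42, 0, 0, 0, 0), (42, 0, 0, 0, 0), (43, 0, 0, 0, 0), (43, 0, 0, 0, 0), (44, 0, 0, 0, 0), (44, 0, 0, 0, 0), (42, 0, 0, 0, 0), (42, 0, 0, 0, 0), (45, 0, 0, 0, 0), (45, 0, 0, 0, 0), (46, 0, 0, 0, 0), (46, 0, 0, 0, 0), (43, 0, 0, 0, 0), (43, 0, 0, 0, 0), (45, 0, 0, 0, 0), (45, 0, 0, 0, 0), (47, 0, 0, 0, 0), (47, 0, 0, 0, 0), (44, 0, 0, 0, 0), (44, 0, 0, 0, 0), (46, 0, 0, 0, 0), (46, 0, 0, 0, 0), (47, 0, 0, 0, 0), (47, 0, 0, 0, 0), (48, 0, 0, 0, 0), (48, 0, 0, 0, 0), (49, 0, 0, 0, 0), (49, 0, 0, 0, 0), (50, 0, 0, 0, 0), (50, 0, 0, 0, 0), (48, 0, 0, 0, 0), (48, 0, 0, 0, 0), (51, 0, 0, 0, 0), (51, 0, 0, 0, 0), (52, 0, 0, 0, 0), (52, 0, 0, 0, 0), (49, 0, 0, 0, 0), (49, 0, 0, 0, 0), (51, 0, 0, 0, 0), (51, 0, 0, 0, 0), (53, 0, 0, 0, 0), (53, 0, 0, 0, 0), (50, 0, 0, 0, 0), (50, 0, 0, 0, 0), (52, 0, 0, 0, 0), (52, 0, 0, 0, 0), (53, 0, 0,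 0, 0), (53, 0, 0, 0, 0), (54, 0, 0, 0, 0), (54, 0, 0, 0, 0), (55, 0, 0, 0, 0), (55, 0, 0, 0, 0), (56, 0, 0, 0, 0), (56, 0, 0, 0, 0), (54, 0, 0, 0, 0), (54, 0, 0, 0, 0), (57, 0, 0, 0, 0), (57, 0, 0, 0, 0), (58, 0, 0, 0, 0), (58, 0, 0, 0, 0), (55, 0, 0, 0, 0), (55, 0, 0, 0, 0), (57, 0, 0, 0, 0), (57, 0, 0, 0, 0), (59, 0, 0, 0, 0), (59, 0, 0, 0, 0), (56, 0, 0, 0, 0), (56, 0, 0, 0, 0), (58, 0, 0, 0, 0), (58, 0, 0, 0, 0), (59, 0, 0, 0, 0), (59, 0, 0, 0, 0)]]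

def m56_2 : Base := (0, 0, [(0, [0], [0, 1]), (2, [1], [2, 3, 4])])

def l56_2 : Cov := [(2880, 0, 0, [(0, [0], [0, 1]), (2, [1], [2, 3, 4])]),
  (2880, 0, 0, [(0, [0], [0, 2]), (2, [1], [1, 3, 4])]),
  (2880, 0, 0, [(0, [0], [0, 3]), (2, [1], [1, 2, 4])]),
  (2880, 0, 0, [(0, [0], [0, 4]), (2, [1], [1, 2, 3])]),
  (2880, 0, 0, [(0, [0], [1, 2]), (2, [1], [0, 3, 4])]),
  (2880, 0, 0, [(0, [0], [1, 3]), (2, [1], [0, 2, 4])]),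
  (2880, 0, 0, [(0, [0], [1, 4]), (2, [1], [0, 2, 3])]),
  (2880, 0, 0, [(0, [0], [2, 3]), (2, [1], [0, 1, 4])]),
  (2880, 0, 0, [(0, [0], [2, 4]), (2, [1], [0, 1, 3])]),
  (2880, 0, 0, [(0, [0], [3, 4]), (2, [1], [0, 1, 2])]),
  (-2880, 0, 0, [(0, [1], [0, 1]), (2, [0], [2, 3, 4])]),
  (-2880, 0, 0, [(0, [1], [0, 2]), (2, [0], [1, 3, 4])]),
  (-2880, 0, 0, [(0, [1], [0, 3]), (2, [0], [1, 2, 4])]),
  (-2880, 0, 0, [(0, [1], [0, 4]), (2, [0], [1, 2, 3])]),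
  (-2880, 0, 0, [(0, [1], [1, 2]), (2, [0], [0, 3, 4])]),
  (-2880, 0, 0, [(0, [1], [1, 3]), (2, [0], [0, 2, 4])]),
  (-2880, 0, 0, [(0, [1], [1, 4]), (2, [0], [0, 2, 3])]),
  (-2880, 0, 0, [(0, [1], [2, 3]), (2, [0], [0, 1, 4])]),
  (-2880, 0, 0, [(0, [1], [2, 4]), (2, [0], [0, 1, 3])]),
  (-2880, 0, 0, [(0, [1], [3, 4]), (2, [0], [0, 1, 2])])]

def z56_2 : Cov := []

def w56_2 : List (List Wit) := [[(0, 0, 0, 0, 0), (0, 0, 0, 0, 0), (0, 0, 0, 0, 0), (0, 0, 0, 0, 0), (0, 0, 0, 0, 0), (0, 0, 0, 0, 0), (1, 0, 0, 0, 0), (1, 0, 0, 0, 0), (1, 0, 0, 0, 0), (1, 0, 0, 0, 0), (1, 0, 0, 0, 0), (1, 0, 0, 0, 0), (2, 0, 0, 0, 0), (2, 0, 0, 0, 0), (2, 0, 0, 0, 0), (2, 0, 0, 0, 0), (2, 0, 0, 0, 0), (2, 0, 0, 0, 0), (3, 0, 0, 0, 0), (3, 0, 0, 0, 0), (3, 0, 0, 0, 0), (3, 0, 0, 0, 0), (3, 0, 0, 0, 0), (3, 0, 0, 0, 0), (0, 0, 0, 0, 0), (0, 0, 0, 0, 0), (0, 0,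 0, 0, 0), (0, 0, 0, 0, 0), (0, 0, 0, 0, 0), (0, 0, 0, 0, 0), (4, 0, 0, 0, 0), (4, 0, 0, 0, 0), (4, 0, 0, 0, 0), (4, 0, 0, 0, 0), (4, 0, 0, 0, 0), (4, 0, 0, 0, 0), (5, 0, 0, 0, 0), (5, 0, 0, 0, 0), (5, 0, 0, 0, 0), (5, 0, 0, 0, 0), (5, 0, 0, 0, 0), (5, 0, 0, 0, 0), (6, 0, 0, 0, 0), (6, 0, 0, 0, 0), (6, 0, 0, 0, 0), (6, 0, 0, 0, 0), (6, 0, 0, 0, 0), (6, 0, 0, 0, 0), (1, 0, 0, 0, 0), (1, 0, 0, 0, 0), (1, 0, 0, 0, 0), (1, 0, 0, 0, 0), (1, 0, 0, 0, 0), (1, 0, 0, 0, 0), (4, 0, 0, 0, 0), (4, 0, 0, 0, 0), (4, 0, 0, 0, 0), (4, 0, 0, 0, 0), (4, 0, 0, 0, 0), (4, 0, 0, 0, 0), (7, 0, 0, 0, 0), (7, 0, 0, 0, 0), (7, 0, 0, 0, 0), (7, 0, 0, 0, 0), (7, 0, 0, 0, 0), (7, 0, 0, 0, 0), (8, 0, 0, 0, 0), (8, 0, 0, 0, 0), (8, 0, 0, 0, 0), (8, 0, 0, 0, 0), (8, 0, 0, 0, 0), (8, 0, 0, 0, 0), (2, 0, 0, 0, 0), (2, 0, 0, 0, 0), (2, 0, 0, 0, 0), (2, 0, 0, 0, 0), (2, 0, 0,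 0, 0), (2, 0, 0, 0, 0), (5, 0, 0, 0, 0), (5, 0, 0, 0, 0), (5, 0, 0, 0, 0), (5, 0, 0, 0, 0), (5, 0, 0, 0, 0), (5, 0, 0, 0, 0), (7, 0, 0, 0, 0), (7, 0, 0, 0, 0), (7, 0, 0, 0, 0), (7, 0, 0, 0, 0), (7, 0, 0, 0, 0), (7, 0, 0, 0, 0), (9, 0, 0, 0, 0), (9, 0, 0, 0, 0), (9, 0, 0, 0, 0), (9, 0, 0, 0, 0), (9, 0, 0, 0, 0), (9, 0, 0, 0, 0), (3, 0, 0, 0, 0), (3, 0, 0, 0, 0), (3, 0, 0, 0, 0), (3, 0, 0, 0, 0), (3, 0, 0, 0, 0), (3, 0, 0, 0, 0), (6, 0, 0, 0, 0), (6, 0, 0, 0, 0), (6, 0, 0, 0, 0), (6, 0, 0, 0, 0), (6, 0, 0, 0, 0), (6, 0, 0, 0, 0), (8, 0, 0, 0, 0), (8, 0, 0, 0, 0), (8, 0, 0, 0, 0), (8, 0, 0, 0, 0), (8, 0, 0, 0, 0), (8, 0, 0, 0, 0), (9, 0, 0, 0, 0), (9, 0, 0, 0, 0), (9, 0, 0, 0, 0), (9, 0, 0, 0, 0), (9, 0, 0, 0, 0), (9, 0, 0, 0, 0)],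
  [(10, 0, 0, 0, 0), (10, 0, 0, 0, 0), (10, 0, 0, 0, 0), (10, 0, 0, 0, 0), (10, 0, 0, 0, 0), (10, 0, 0, 0, 0), (11, 0, 0, 0, 0), (11, 0, 0, 0, 0), (11, 0, 0, 0, 0), (11, 0, 0, 0, 0), (11, 0, 0, 0, 0), (11, 0, 0, 0, 0), (12, 0, 0, 0, 0), (12, 0, 0, 0, 0), (12, 0, 0, 0, 0), (12, 0, 0, 0, 0), (12, 0, 0, 0, 0), (12, 0, 0, 0, 0), (13, 0, 0, 0, 0), (13, 0, 0, 0, 0), (13, 0, 0, 0, 0), (13, 0, 0, 0, 0), (13, 0, 0, 0, 0), (13, 0, 0, 0, 0), (10, 0, 0, 0, 0), (10, 0, 0, 0, 0), (10, 0, 0, 0, 0), (10, 0, 0, 0, 0), (10, 0, 0, 0, 0), (10, 0, 0, 0, 0), (14, 0, 0, 0, 0), (14, 0, 0, 0, 0), (14, 0, 0, 0, 0), (14, 0, 0, 0, 0), (14, 0, 0, 0, 0), (14, 0, 0, 0, 0), (15, 0, 0, 0, 0), (15, 0, 0, 0, 0), (15, 0, 0, 0, 0), (15, 0, 0, 0, 0), (15, 0, 0, 0, 0), (15, 0, 0, 0, 0), (16, 0, 0, 0, 0), (16, 0, 0, 0, 0), (16, 0, 0, 0, 0), (16, 0, 0, 0, 0), (16, 0, 0, 0, 0), (16,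 0, 0, 0, 0), (11, 0, 0, 0, 0), (11, 0, 0, 0, 0), (11, 0, 0, 0, 0), (11, 0, 0, 0, 0), (11, 0, 0, 0, 0), (11, 0, 0, 0, 0), (14, 0, 0, 0, 0), (14, 0, 0, 0, 0), (14, 0, 0, 0, 0), (14, 0, 0, 0, 0), (14, 0, 0, 0, 0), (14, 0, 0, 0, 0), (17, 0, 0, 0, 0), (17, 0, 0, 0, 0), (17, 0, 0, 0, 0), (17, 0, 0, 0, 0), (17, 0, 0, 0, 0), (17, 0, 0, 0, 0), (18, 0, 0, 0, 0), (18, 0, 0, 0, 0), (18, 0, 0, 0, 0), (18, 0, 0, 0, 0), (18, 0, 0, 0, 0), (18, 0, 0, 0, 0), (12, 0, 0, 0, 0), (12, 0, 0, 0, 0), (12, 0, 0, 0, 0), (12, 0, 0, 0, 0), (12, 0, 0, 0, 0), (12, 0, 0, 0, 0), (15, 0, 0, 0, 0), (15, 0, 0, 0, 0), (15, 0, 0, 0, 0), (15, 0, 0, 0, 0), (15, 0, 0, 0, 0), (15, 0, 0, 0, 0), (17, 0, 0, 0, 0), (17, 0, 0, 0, 0), (17, 0, 0, 0, 0), (17, 0, 0, 0, 0), (17, 0, 0, 0, 0), (17, 0, 0, 0, 0), (19, 0, 0, 0, 0), (19, 0, 0, 0, 0), (19, 0, 0, 0, 0), (19, 0, 0, 0, 0), (19, 0, 0,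 0, 0), (19, 0, 0, 0, 0), (13, 0, 0, 0, 0), (13, 0, 0, 0, 0), (13, 0, 0, 0, 0), (13, 0, 0, 0, 0), (13, 0, 0, 0, 0), (13, 0, 0, 0, 0), (16, 0, 0, 0, 0), (16, 0, 0, 0, 0), (16, 0, 0, 0, 0), (16, 0, 0, 0, 0), (16, 0, 0, 0, 0), (16, 0, 0, 0, 0), (18, 0, 0, 0, 0), (18, 0, 0, 0, 0), (18, 0, 0, 0, 0), (18, 0, 0, 0, 0), (18, 0, 0, 0, 0), (18, 0, 0, 0, 0), (19, 0, 0, 0, 0), (19, 0, 0, 0, 0), (19, 0, 0, 0, 0), (19, 0, 0, 0, 0), (19, 0, 0, 0, 0), (19, 0, 0, 0, 0)]]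

theorem tr56 : trK keys lk56 kl56 = true := by
  decide +kernel

theorem x56_0 : expB 2 5 dg12 dg4 m56_0 (l56_0 ++ z56_0) w56_0 = true := by
  decide +kernel

theorem x56_1 : expB 2 5 dg12 dg4 m56_1 (l56_1 ++ z56_1) w56_1 = true := by
  decide +kernel

theorem x56_2 : expB 2 5 dg12 dg4 m56_2 (l56_2 ++ z56_2) w56_2 = true := by
  decide +kernel

theorem t56_0_0 : chkS lk56 2 5 [(1, m56_0)] l56_0
  [(36, 1, 1, 87318786, 56905761), (37, 1, 1, 87441666, 73617441), (83, 16, 16, 33907761, 54662661), (54, 1, 1, 88482051, 73728801), (54, 1, 1, 72442371, 55968321), (53, 1, 1, 88236291, 56951841), (83, 16, 16, 33907521, 54601221), (54, 1, 1, 88481811, 73728786), (54, 1, 1, 72441891, 55968066), (53, 1, 1, 88236051, 56951826), (80, 16, 16, 33969201, 70391301), (80, 16, 16, 33968961, 70329861), (42, 1, 1, 55861266, 55861266), (44, 1, 1, 55861266, 55861266),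 (87, 16, 16, 50677281, 37970181), (70, 1, 1, 72757506, 72757281), (70, 1, 1, 88171296, 56959296), (67, 1, 1, 72573186, 55984161), (39, 1, 1, 55844886, 5530386), (40, 1, 1, 55844886, 5530386), (19, 1, 1, 54616101, 50684226), (18, 1, 1, 54616101, 50684226), (64, 1, 1, 72556806, 5653281), (74, 16, 16, 33969201, 70391301), (42, 1, 1, 55861506, 55861281), (44, 1, 1, 55861506, 55861281), (87, 16, 16, 50676321, 21193221), (70, 1, 1, 72757266, 72757266), (70, 1, 1, 88171056, 56955456), (67, 1, 1, 72572946, 55984146), (39, 1, 1, 55845126, 5530401), (40, 1, 1, 55845126, 5530401), (19, 1, 1, 54616581, 50684481), (18, 1, 1, 54616581, 50684481), (64, 1, 1, 72556566, 5653266), (74, 16, 16, 33968961, 70329861), (39, 1, 1, 87319041, 56906241), (19, 1, 1, 70668546, 70668321), (39, 1, 1, 87318561, 56905986), (19, 1, 1, 70668306, 70668306), (64, 1, 1, 88171296,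 56959296), (64, 1, 1, 88171056, 56955456), (35, 1, 1, 87318786, 56905761), (23, 1, 1, 69619971, 70649121), (51, 1, 1, 88236291, 56951841), (50, 1, 1, 87122436, 56644161), (51, 1, 1, 88236051, 56951826), (50, 1, 1, 87121956, 56643906), (40, 1, 1, 87441921, 73617921), (18, 1, 1, 70607106, 54939681), (40, 1, 1, 87441441, 73617666), (18, 1, 1, 70606866, 54939666), (74, 1, 1, 88482051, 73728801), (74, 1, 1, 88481811, 73728786), (23, 1, 1, 37970181, 50677281), (22, 1, 1, 69558531, 54920481), (50, 1, 1, 55845126, 5530401), (80, 1, 1, 87433236, 73421586), (50, 1, 1, 55844886, 5530386), (80, 1, 1, 87433476, 73421601), (59, 1, 1, 55861506, 55861281), (60, 1, 1, 55861506, 55861281), (88, 16, 16, 67450401, 38154501), (69, 1, 1, 55984386, 72572961), (69, 16, 16, 87122946, 56774721), (66, 1, 1, 55861506, 55861281), (88, 16, 16, 67449441, 21377541), (69,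 1, 1, 55984146, 72572946), (69, 16, 16, 87121986, 56709186), (66, 1, 1, 55861266, 55861266), (76, 1, 1, 38162691, 70583841), (76, 1, 1, 38162451, 70583826), (43, 1, 1, 39084291, 55838241), (45, 1, 1, 39084291, 55838241), (84, 16, 16, 101000241, 104993541), (55, 1, 1, 38162691, 70583841), (55, 16, 16, 86074416, 56759616), (52, 1, 1, 39084291, 55838241), (39, 1, 1, 40120581, 84162081), (41, 1, 1, 39072006, 5518881), (31, 1, 1, 37970181, 50677281), (30, 1, 1, 37970181, 50677281), (50, 1, 1, 40120581, 84162081), (81, 1, 1, 37113876, 70276626), (43, 1, 1, 39084051, 55838226), (45, 1, 1, 39084051, 55838226), (84, 16, 16, 101000001, 104932101), (55, 1, 1, 38162451, 70583826), (55, 16, 16, 86074176, 56698176), (52, 1, 1, 39084051, 55838226), (39, 1, 1, 40120341, 84162066), (41, 1, 1, 39071766, 5518866), (31, 1, 1, 37969941, 50677266), (30, 1, 1, 37969941,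 50677266), (50, 1, 1, 40120341, 84162066), (81, 1, 1, 37114116, 70276641), (39, 16, 16, 103043856, 104080656), (31, 16, 16, 69620496, 70657296), (39, 16, 16, 103043376, 104076576), (31, 16, 16, 69620016, 70653216), (50, 16, 16, 102847536, 103945536), (50, 16, 16, 102847296, 103884096), (58, 1, 1, 55845126, 5530401), (27, 16, 16, 69619971, 70649121), (63, 1, 1, 55845126, 5530401), (64, 16, 16, 102847491, 103941441), (63, 1, 1, 55844886, 5530386), (64, 16, 16, 102846531, 103875906), (41, 16, 16, 86393616, 73606416), (30, 16, 16, 69559056, 54928656), (41, 16, 16, 86393136, 73602336), (30, 16, 16, 69558576, 54924576), (81, 16, 16, 84288561, 73536261), (81, 16, 16, 84288321, 73474821), (27, 1, 1, 37970181, 50677281), (26, 1, 1, 37970181, 50677281), (64, 1, 1, 40059141, 84100641), (76, 16, 16, 84288561, 73536261), (64, 1, 1, 40058901, 84100626),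 (76, 16, 16, 84288321, 73474821)]
  [(18, 1920), (19, 1920), (22, 480), (23, 960), (26, -480), (27, -960), (30, -1920), (31, -1920), (35, 480), (36, 480), (37, 480), (40, 1920), (41, -1920), (42, 960), (43, -960), (44, 960), (45, -960), (51, 960), (52, -960), (53, 960), (54, 1920), (55, -1920), (58, -480), (59, -480), (60, -480), (63, -960), (66, -960), (67, 960), (69, -1920), (70, 1920), (74, 1920), (76, -1920), (80, 1920), (81, -1920), (83, 960), (84, -960), (87, 960), (88, -960)] = true := by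
  decide +kernel

theorem t56_0_1 : chkS lk56 2 5 [(1, m56_0)] l56_1
  [(24, 1, 1, 54939906, 70606881), (54, 16, 16, 19285296, 69408096), (52, 16, 16, 19162416, 52696416), (54, 16, 16, 19284816, 68363616), (52, 16, 16, 19161936, 51651936), (10, 1, 1, 105972516, 105914691), (33, 1, 1, 54939666, 70606866), (70, 16, 16, 20337666, 70406241), (68, 16, 16, 20276226, 54677601), (31, 1, 1, 55975956, 72377106), (17, 1, 1, 55664676, 55599426), (65, 16, 16, 19289091, 70387041), (33, 1, 1, 54939906, 70606881), (70, 16, 16, 20336706, 70340706), (68, 16, 16, 20275266, 54612066), (31, 1, 1, 55976196, 72377121), (17, 1, 1, 55665156, 55599681), (65, 16, 16, 19288131, 70321506), (41, 1, 1, 104092161, 104092161), (41, 1, 1, 104091681, 104091906), (12, 16, 16, 68302416, 35009616), (23, 1, 1, 55976196, 72377121), (50, 1, 1, 73478661, 84292161), (50, 1, 1, 73478181,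 84291906), (46, 1, 1, 87319041, 56906241), (46, 1, 1, 87318561, 56905986), (72, 16, 16, 18892371, 34800996), (21, 1, 1, 55730436, 55600161), (79, 1, 1, 73605141, 84296466), (79, 1, 1, 73605381, 84296481), (28, 1, 1, 54939906, 70606881), (69, 1, 1, 21386016, 70590816), (68, 1, 1, 21324576, 54862176), (69, 1, 1, 21385776, 70586976), (68, 1, 1, 21324336, 54858336), (12, 16, 16, 34879056, 34879056), (20, 1, 1, 21385731, 70582881), (55, 1, 1, 21385731, 70582881), (52, 1, 1, 22307331, 55837281), (19, 1, 1, 22426116, 72364641), (17, 1, 1, 22241796, 55591521), (50, 1, 1, 23343621, 84161121), (20, 1, 1, 21385251, 70582626), (55, 1, 1, 21385251, 70582626), (52, 1, 1, 22306851, 55837026), (19, 1, 1, 22425636, 72364386), (17, 1, 1, 22241316, 55591266), (50, 1, 1, 23343141, 84160866), (40, 16, 16, 103043856, 104080656), (40, 16, 16, 103043376, 104076576),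 (10, 1, 1, 22414116, 72360291), (27, 1, 1, 55976196, 72377121), (65, 16, 16, 102847491, 103941441), (65, 16, 16, 102846531, 103875906), (46, 16, 16, 86270736, 56894736), (46, 16, 16, 86270256, 56890656), (78, 16, 16, 67315281, 35013381), (25, 1, 1, 55730436, 55600161), (73, 1, 1, 23085621, 84087396), (73, 1, 1, 23085861, 84091236)]
  [(19, -1920), (20, -1920), (21, 960), (23, 960), (24, 960), (25, -960), (27, -960), (28, -960), (31, 1920), (33, 1920), (40, -1920), (41, 1920), (54, 1920), (55, -1920), (69, -1920), (70, 1920), (72, 960), (73, -1920), (78, -960), (79, 1920)] = true := by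
  decide +kernel

theorem t56_0_2 : chkS lk56 2 5 [(1, m56_0)] l56_2
  [(47, 16, 16, 2380560, 3417360), (47, 16, 16, 2380080, 3413280), (85, 16, 16, 336945, 4330245), (56, 16, 16, 2184000, 3220800), (61, 16, 16, 2380035, 3409185), (89, 16, 16, 2425875, 4326675), (71, 16, 16, 2184195, 3278145), (89, 16, 16, 2425155, 4261155), (71, 16, 16, 2183235, 3212610), (91, 16, 16, 2164035, 2164035), (48, 1, 1, 3428865, 3428865), (48, 1, 1, 3428385, 3428610), (90, 1, 1, 4522785, 4530435), (11, 1, 1, 4281120, 3481920), (38, 1, 1, 2380035, 3409185), (86, 1, 1, 3473940, 4215315), (57, 1, 1, 3232260, 3166785), (86, 1, 1, 3473700, 4215075), (57, 1, 1, 3231780, 3166530), (9, 1, 1, 4260645, 336195)]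
  [(9, -2880), (11, -2880), (38, -2880), (47, 5760), (48, -5760), (56, 2880), (57, -5760), (61, 2880), (71, 5760), (85, 2880), (86, -5760), (89, 5760), (90, -2880), (91, 2880)] = true := by
  decide +kernel

theorem t56_1_1 : chkS lk56 2 5 [(1, m56_1)] l56_1
  [(3, 1, 1, 70668546, 70668321), (53, 16, 16, 35017776, 70391376), (53, 16, 16, 34956336, 54662736), (53, 16, 16, 35017536, 70329936), (53, 16, 16, 34956096, 54601296), (49, 16, 16, 35017776, 70391376), (32, 1, 1, 54939666, 70606866), (67, 16, 16, 51791136, 69427536), (67, 16, 16, 51668256, 52715856), (30, 1, 1, 55975956, 72377106), (30, 1, 1, 55730196, 55600146), (62, 16, 16, 20337666, 70406241), (32, 1, 1, 54939906, 70606881), (67, 16, 16, 51790416, 68379216), (67, 16, 16, 51667536, 51667536), (30, 1, 1, 55976196, 72377121), (30, 1, 1, 55730436, 55600161), (62, 16, 16, 20336706, 70340706),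 (30, 1, 1, 87441921, 73617921), (30, 1, 1, 87441441, 73617666), (62, 16, 16, 51652176, 34890576), (22, 1, 1, 87441666, 73617441), (80, 1, 1, 73543701, 84292626), (80, 1, 1, 73543941, 84292641), (30, 1, 1, 87319041, 56906241), (30, 1, 1, 87318561, 56905986), (62, 16, 16, 51529296, 34825296), (22, 1, 1, 87318786, 56905761), (80, 1, 1, 73605141, 84296466), (80, 1, 1, 73605381, 84296481), (5, 16, 16, 35017776, 70391376), (66, 16, 16, 68564256, 69611856), (66, 16, 16, 68379936, 52838736), (66, 16, 16, 68563536, 68563536), (66, 16, 16, 68379216, 51790416), (1, 16, 16, 35017776, 70391376), (16, 1, 1, 70668306, 70668306), (52, 16, 16, 68560176, 69604176), (52, 16, 16, 68314416, 52827216), (18, 1, 1, 22426116, 72364641), (18, 1, 1, 22241796, 55591521), (10, 16, 16, 101918016, 102843216), (16, 1, 1, 70668546, 70668321), (52, 16, 16, 68559696, 68559696),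 (52, 16, 16, 68313936, 51782736), (18, 1, 1, 22425636, 72364386), (18, 1, 1, 22241316, 55591266), (10, 16, 16, 101917776, 101860176), (18, 16, 16, 85345056, 73605456), (18, 16, 16, 85344816, 73601616), (10, 1, 1, 23397156, 88088931), (26, 1, 1, 55976196, 72377121), (75, 16, 16, 101864496, 103945296), (75, 16, 16, 101864256, 103883856), (18, 16, 16, 85222176, 56893776), (18, 16, 16, 85221936, 56889936), (10, 1, 1, 23089956, 87040356), (26, 1, 1, 55730436, 55600161), (75, 16, 16, 102048816, 104993616), (75, 16, 16, 102048576, 104932176)]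
  [(1, -960), (3, 960), (5, -960), (10, -3840), (16, -1920), (18, -7680), (22, 1920), (26, -1920), (30, 7680), (32, 1920), (49, 960), (52, -3840), (53, 3840), (62, 3840), (66, -3840), (67, 3840), (75, -3840), (80, 3840)] = true := by
  decide +kernel

theorem t56_1_2 : chkS lk56 2 5 [(1, m56_1)] l56_2
  [(15, 16, 16, 3490305, 4411905), (15, 16, 16, 3489825, 4411650), (56, 16, 16, 1385280, 4268880), (56, 16, 16, 1200960, 3220560), (29, 16, 16, 3490050, 4411425), (77, 16, 16, 1385520, 4330320), (77, 16, 16, 1201200, 3282000), (77, 16, 16, 1385280, 4268880), (77, 16, 16, 1200960, 3220560), (4, 16, 16, 1254720, 2179920), (34, 1, 1, 3490305, 4411905), (34, 1, 1, 3489825, 4411650), (13, 1, 1, 4526880, 4530480), (13, 1, 1, 4281120, 3481920), (6, 1, 1, 3490050, 4411425), (82, 1, 1, 4522515, 4522515), (82, 1, 1, 4215315, 3473940), (82, 1, 1, 4522275,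 4522275), (82, 1, 1, 4215075, 3473700), (8, 1, 1, 5309220, 5251395)]
  [(4, 2880), (6, -2880), (8, -2880), (13, -5760), (15, 5760), (29, 2880), (34, -5760), (56, 5760), (77, 11520), (82, -11520)] = true := by
  decide +kernel

theorem t56_2_2 : chkS lk56 2 5 [(1, m56_2)] l56_2
  [(2, 16, 16, 144400, 144400), (93, 16, 16, 144400, 144400), (93, 16, 16, 148240, 205840), (93, 16, 16, 271120, 271120), (93, 16, 16, 144385, 144385), (93, 16, 16, 148225, 205825), (93, 16, 16, 271105, 271105), (7, 16, 16, 274960, 274960), (7, 16, 16, 148240, 205840), (7, 16, 16, 144400, 144400), (92, 16, 16, 144400, 144400), (14, 16, 16, 274960, 274960), (14, 16, 16, 271120, 271120), (14, 16, 16, 148240, 205840), (14, 16, 16, 274945, 274945), (14, 16, 16, 271105, 271105), (14, 16, 16, 148225, 205825), (0, 16, 16, 274960, 274960), (0, 16, 16, 148240, 205840), (0, 16,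 16, 144400, 144400)]
  [(0, -8640), (2, 2880), (7, 8640), (14, -17280), (92, -2880), (93, 17280)] = true := by
  decide +kernel

section

variable {κ ι : Type*} [Fintype κ] [Fintype ι] [Inhabited κ] [Inhabited ι]

noncomputable def F56_0 (E : Env κ ι) : (Fin 2 → κ) → (Fin 5 → ι) → ℝ := op2 (P12 κ) (P4 ι) (fB E 2 5 m56_0)

noncomputable def F56_1 (E : Env κ ι) : (Fin 2 → κ) → (Fin 5 → ι) → ℝ := op2 (P12 κ) (P4 ι) (fB E 2 5 m56_1)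

noncomputable def F56_2 (E : Env κ ι) : (Fin 2 → κ) → (Fin 5 → ι) → ℝ := op2 (P12 κ) (P4 ι) (fB E 2 5 m56_2)

def r56_0_0 : List (ℕ × ℤ) := [(18, 1920), (19, 1920), (22, 480), (23, 960), (26, -480), (27, -960), (30, -1920), (31, -1920), (35, 480), (36, 480), (37, 480), (40, 1920), (41, -1920), (42, 960), (43, -960), (44, 960), (45, -960), (51, 960), (52, -960), (53, 960), (54, 1920), (55, -1920), (58, -480), (59, -480), (60, -480), (63, -960), (66, -960), (67, 960), (69, -1920), (70, 1920), (74, 1920), (76, -1920), (80, 1920), (81, -1920), (83, 960), (84, -960), (87, 960), (88, -960)]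

theorem h56_0_0 (E : Env κ ι) : ip (F56_0 E) (F56_0 E) = dotS (ek E lk56) r56_0_0 :=
  op_entryZ E lk56 2 5 _ _ _ _ (pg12 κ) (pg4 ι) m56_0 m56_0 l56_0 z56_0 w56_0 x56_0 (by decide) _ (chkS_sound E lk56 2 5 _ _ _ _ t56_0_0)

def r56_0_1 : List (ℕ × ℤ) := [(19, -1920), (20, -1920), (21, 960), (23, 960), (24, 960), (25, -960), (27, -960), (28, -960), (31, 1920), (33, 1920), (40, -1920), (41, 1920), (54, 1920), (55, -1920), (69, -1920), (70, 1920), (72, 960), (73, -1920), (78, -960), (79, 1920)]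

theorem h56_0_1 (E : Env κ ι) : ip (F56_0 E) (F56_1 E) = dotS (ek E lk56) r56_0_1 :=
  op_entryZ E lk56 2 5 _ _ _ _ (pg12 κ) (pg4 ι) m56_0 m56_1 l56_1 z56_1 w56_1 x56_1 (by decide) _ (chkS_sound E lk56 2 5 _ _ _ _ t56_0_1)

def r56_0_2 : List (ℕ × ℤ) := [(9, -2880), (11, -2880), (38, -2880), (47, 5760), (48, -5760), (56, 2880), (57, -5760), (61, 2880), (71, 5760), (85, 2880), (86, -5760), (89, 5760), (90, -2880), (91, 2880)]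

theorem h56_0_2 (E : Env κ ι) : ip (F56_0 E) (F56_2 E) = dotS (ek E lk56) r56_0_2 :=
  op_entryZ E lk56 2 5 _ _ _ _ (pg12 κ) (pg4 ι) m56_0 m56_2 l56_2 z56_2 w56_2 x56_2 (by decide) _ (chkS_sound E lk56 2 5 _ _ _ _ t56_0_2)

def r56_1_1 : List (ℕ × ℤ) := [(1, -960), (3, 960), (5, -960), (10, -3840), (16, -1920), (18, -7680), (22, 1920), (26, -1920), (30, 7680), (32, 1920), (49, 960), (52, -3840), (53, 3840), (62, 3840), (66, -3840), (67, 3840), (75, -3840), (80, 3840)]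

theorem h56_1_1 (E : Env κ ι) : ip (F56_1 E) (F56_1 E) = dotS (ek E lk56) r56_1_1 :=
  op_entryZ E lk56 2 5 _ _ _ _ (pg12 κ) (pg4 ι) m56_1 m56_1 l56_1 z56_1 w56_1 x56_1 (by decide) _ (chkS_sound E lk56 2 5 _ _ _ _ t56_1_1)

def r56_1_2 : List (ℕ × ℤ) := [(4, 2880), (6, -2880), (8, -2880), (13, -5760), (15, 5760), (29, 2880), (34, -5760), (56, 5760), (77, 11520), (82, -11520)]

theorem h56_1_2 (E : Env κ ι) : ip (F56_1 E) (F56_2 E) = dotS (ek E lk56) r56_1_2 :=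
  op_entryZ E lk56 2 5 _ _ _ _ (pg12 κ) (pg4 ι) m56_1 m56_2 l56_2 z56_2 w56_2 x56_2 (by decide) _ (chkS_sound E lk56 2 5 _ _ _ _ t56_1_2)

def r56_2_2 : List (ℕ × ℤ) := [(0, -8640), (2, 2880), (7, 8640), (14, -17280), (92, -2880), (93, 17280)]

theorem h56_2_2 (E : Env κ ι) : ip (F56_2 E) (F56_2 E) = dotS (ek E lk56) r56_2_2 :=
  op_entryZ E lk56 2 5 _ _ _ _ (pg12 κ) (pg4 ι) m56_2 m56_2 l56_2 z56_2 w56_2 x56_2 (by decide) _ (chkS_sound E lk56 2 5 _ _ _ _ t56_2_2)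

theorem row56_0 (E : Env κ ι) : RowG (ek E lk56) (F56_0 E) [F56_0 E, F56_1 E, F56_2 E] [r56_0_0, r56_0_1, r56_0_2] :=
  rowG_cons _ _ _ _ _ _ (h56_0_0 E) (rowG_cons _ _ _ _ _ _ (h56_0_1 E) (rowG_cons _ _ _ _ _ _ (h56_0_2 E) (rowG_nil _ _)))

theorem row56_1 (E : Env κ ι) : RowG (ek E lk56) (F56_1 E) [F56_1 E, F56_2 E] [r56_1_1, r56_1_2] :=
  rowG_cons _ _ _ _ _ _ (h56_1_1 E) (rowG_cons _ _ _ _ _ _ (h56_1_2 E) (rowG_nil _ _))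

theorem row56_2 (E : Env κ ι) : RowG (ek E lk56) (F56_2 E) [F56_2 E] [r56_2_2] :=
  rowG_cons _ _ _ _ _ _ (h56_2_2 E) (rowG_nil _ _)

def tab56 : List (List (List (ℕ × ℤ))) := [[r56_0_0, r56_0_1, r56_0_2], [r56_1_1, r56_1_2], [r56_2_2]]

theorem tri56 (E : Env κ ι) : TriG (ek E lk56) [F56_0 E, F56_1 E, F56_2 E] tab56 := by
  refine triG_cons _ _ _ _ _ (row56_0 E) ?_
  refine triG_cons _ _ _ _ _ (row56_1 E) ?_
  refine triG_cons _ _ _ _ _ (row56_2 E) ?_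
  exact triG_nil _

end

end YMBG
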