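import Pool.Agent.YM.BG.Ga0
import Pool.Agent.YM.BG.Ga1

set_option linter.unusedVariables false
set_option maxRecDepth 100000

open YMEng

namespace YMBG

def lk57 : List Key := [
  (2, 5, [(0, [0], [0, 1]), (0, [0], [0, 1]), (0, [1], [2, 3]), (0, [1], [2, 4]), (4, [], [4]), (4, [], [3])]),
  (2, 5, [(0, [0], [0, 1]), (0, [1], [0, 2]), (0, [1], [3, 4]), (0, [0], [3, 4]), (4, [], [2]), (4, [], [1])]),
  (2, 5, [(0, [0], [0, 1]), (0, [1], [2, 3]), (2, [1], [2, 3, 4]), (2, [0], [0, 1, 4])]),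
  (2, 6, [(0, [0], [0, 1]), (0, [0], [0, 1]), (0, [1], [2, 3]), (1, [], [4, 5]), (2, [1], [2, 3, 4]), (4, [], [5])]),
  (2, 7, [(0, [0], [0, 1]), (0, [0], [0, 1]), (0, [1], [2, 3]), (0, [1], [2, 3]), (1, [], [4, 5]), (1, [], [4, 6]), (4, [], [6]), (4, [], [5])]),
  (2, 7, [(0, [0], [0, 1]), (0, [1], [0, 2]), (0, [1], [3, 4]), (0, [0], [5, 6]), (1, [], [5, 6]), (1, [], [3, 4]), (4, [], [2]), (4, [], [1])]),
  (2, 5, [(0, [0], [0, 1]), (0, [0], [0, 1]), (2, [1], [2, 3, 4]), (2, [1], [2, 3, 4])]),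
  (2, 7, [(0, [0], [0, 1]), (0, [0], [0, 1]), (0, [1], [2, 3]), (0, [1], [2, 4]), (4, [], [4]), (4, [], [3]), (1, [], [5, 6]), (1, [], [5, 6])]),
  (2, 6, [(0, [0], [0, 1]), (0, [0], [2, 3]), (0, [1], [4, 5]), (1, [], [2, 3]), (2, [1], [0, 4, 5]), (4, [], [1])]),
  (2, 7, [(0, [0], [0, 1]), (0, [0], [0, 1]), (0, [1], [2, 3]), (0, [1], [4, 5]), (1, [], [2, 6]), (1, [], [4, 5]), (4, [], [3]), (4, [], [6])]),
  (2, 7, [(0, [0], [0, 1]), (0, [1], [0, 2]), (0, [1], [3, 4]), (0, [0], [3, 4]), (4, [], [2]), (4, [], [1]), (1, [], [5, 6]), (1, [], [5, 6])]),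
  (2, 6, [(0, [0], [0, 1]), (0, [0], [0, 1]), (0, [1], [2, 3]), (1, [], [4, 5]), (2, [1], [2, 4, 5]), (4, [], [3])]),
  (2, 5, [(0, [0], [0, 1]), (0, [1], [0, 2]), (0, [1], [2, 3]), (0, [0], [1, 4]), (4, [], [4]), (4, [], [3])]),
  (2, 5, [(0, [0], [0, 1]), (0, [0], [2, 3]), (2, [1], [2, 3, 4]), (2, [1], [0, 1, 4])]),
  (2, 6, [(0, [0], [0, 1]), (0, [0], [2, 3]), (0, [1], [4, 5]), (1, [], [0, 1]), (2, [1], [2, 3, 4]), (4, [], [5])]),
  (2, 6, [(0, [0], [0, 1]), (0, [0], [2, 3]), (0, [1], [4, 5]), (1, [], [0, 4]), (2, [1], [2, 3, 5]), (4, [], [1])]),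
  (2, 7, [(0, [0], [0, 1]), (0, [0], [2, 3]), (0, [1], [4, 5]), (0, [1], [4, 6]), (1, [], [0, 5]), (1, [], [2, 3]), (4, [], [1]), (4, [], [6])]),
  (2, 6, [(0, [0], [0, 1]), (0, [0], [2, 3]), (0, [1], [0, 4]), (1, [], [4, 5]), (2, [1], [2, 3, 5]), (4, [], [1])]),
  (2, 7, [(0, [0], [0, 1]), (0, [1], [0, 2]), (0, [0], [3, 4]), (0, [1], [5, 6]), (1, [], [1, 3]), (1, [], [5, 6]), (4, [], [2]), (4, [], [4])]),
  (2, 6, [(0, [0], [0, 1]), (0, [0], [2, 3]), (0, [1], [0, 4]), (1, [], [1, 5]), (2, [1], [2, 3, 5]), (4, [], [4])]),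
  (2, 5, [(0, [0], [0, 1]), (0, [1], [0, 2]), (2, [1], [2, 3, 4]), (2, [0], [1, 3, 4])]),
  (2, 6, [(0, [0], [0, 1]), (0, [0], [2, 3]), (0, [1], [0, 4]), (1, [], [1, 5]), (2, [1], [2, 3, 4]), (4, [], [5])]),
  (2, 6, [(0, [0], [0, 1]), (0, [1], [0, 2]), (0, [0], [1, 3]), (1, [], [4, 5]), (2, [1], [2, 4, 5]), (4, [], [3])]),
  (2, 7, [(0, [0], [0, 1]), (0, [0], [2, 3]), (0, [1], [0, 4]), (0, [1], [4, 5]), (1, [], [1, 6]), (1, [], [2, 3]), (4, [], [5]), (4, [], [6])]),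
  (2, 7, [(0, [0], [0, 1]), (0, [1], [0, 2]), (0, [1], [2, 3]), (0, [0], [1, 4]), (4, [], [4]), (4, [], [3]), (1, [], [5, 6]), (1, [], [5, 6])]),
  (2, 6, [(0, [0], [0, 1]), (0, [0], [2, 3]), (0, [1], [0, 2]), (1, [], [4, 5]), (2, [1], [1, 4, 5]), (4, [], [3])]),
  (2, 7, [(0, [0], [0, 1]), (0, [1], [0, 2]), (0, [1], [1, 3]), (0, [0], [4, 5]), (1, [], [2, 6]), (1, [], [4, 5]), (4, [], [3]), (4, [], [6])]),
  (2, 7, [(0, [0], [0, 1]), (0, [1], [0, 2]), (0, [0], [2, 3]), (0, [1], [1, 4]), (4, [], [4]), (4, [], [3]), (1, [], [5, 6]), (1, [], [5, 6])]),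
  (2, 5, [(0, [0], [0, 1]), (0, [0], [0, 2]), (0, [1], [3, 4]), (2, [1], [1, 3, 4]), (4, [], [2])]),
  (2, 5, [(0, [0], [0, 1]), (0, [0], [0, 1]), (0, [1], [2, 3]), (2, [1], [2, 3, 4]), (4, [], [4])]),
  (2, 6, [(0, [0], [0, 1]), (0, [0], [0, 1]), (0, [1], [2, 3]), (0, [1], [2, 4]), (1, [], [3, 5]), (4, [], [4]), (4, [], [5])]),
  (2, 6, [(0, [0], [0, 1]), (0, [0], [0, 1]), (0, [1], [2, 3]), (0, [1], [2, 3]), (1, [], [4, 5]), (4, [], [4]), (4, [], [5])]),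
  (2, 6, [(0, [0], [0, 1]), (0, [0], [2, 3]), (0, [1], [0, 4]), (0, [1], [4, 5]), (1, [], [2, 3]), (4, [], [1]), (4, [], [5])]),
  (2, 6, [(0, [0], [0, 1]), (0, [0], [0, 1]), (0, [1], [2, 3]), (0, [1], [4, 5]), (1, [], [4, 5]), (4, [], [2]), (4, [], [3])]),
  (2, 6, [(0, [0], [0, 1]), (0, [0], [0, 1]), (0, [1], [2, 3]), (0, [1], [4, 5]), (1, [], [2, 4]), (4, [], [5]), (4, [], [3])]),
  (2, 5, [(0, [0], [0, 1]), (0, [0], [2, 3]), (0, [1], [0, 4]), (2, [1], [2, 3, 4]), (4, [], [1])]),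
  (2, 6, [(0, [0], [0, 1]), (0, [1], [0, 2]), (0, [1], [1, 3]), (0, [0], [4, 5]), (1, [], [4, 5]), (4, [], [3]), (4, [], [2])]),
  (2, 6, [(0, [0], [0, 1]), (0, [1], [0, 2]), (0, [1], [1, 3]), (0, [0], [4, 5]), (1, [], [2, 4]), (4, [], [3]), (4, [], [5])]),
  (2, 6, [(0, [0], [0, 1]), (0, [0], [2, 3]), (0, [1], [0, 4]), (0, [1], [4, 5]), (1, [], [2, 5]), (4, [], [1]), (4, [], [3])]),
  (2, 6, [(0, [0], [0, 1]), (0, [1], [2, 3]), (0, [0], [2, 4]), (0, [1], [0, 5]), (1, [], [1, 3]), (4, [], [5]), (4, [], [4])]),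
  (2, 6, [(0, [0], [0, 1]), (0, [0], [2, 3]), (0, [1], [2, 4]), (0, [1], [0, 5]), (1, [], [1, 3]), (4, [], [5]), (4, [], [4])]),
  (2, 6, [(0, [0], [0, 1]), (0, [1], [0, 2]), (0, [0], [2, 3]), (0, [1], [1, 4]), (1, [], [3, 5]), (4, [], [4]), (4, [], [5])]),
  (2, 6, [(0, [0], [0, 1]), (0, [0], [2, 3]), (0, [1], [0, 4]), (0, [1], [4, 5]), (1, [], [1, 2]), (4, [], [3]), (4, [], [5])]),
  (2, 6, [(0, [0], [0, 1]), (0, [0], [2, 3]), (0, [1], [0, 4]), (0, [1], [2, 4]), (1, [], [1, 5]), (4, [], [3]), (4, [], [5])]),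
  (2, 5, [(0, [0], [0, 1]), (0, [0], [0, 1]), (0, [1], [2, 3]), (0, [1], [2, 3]), (4, [], [4]), (4, [], [4])]),
  (2, 5, [(0, [0], [0, 1]), (0, [0], [2, 3]), (0, [1], [2, 4]), (0, [1], [0, 4]), (4, [], [3]), (4, [], [1])]),
  (2, 7, [(0, [0], [0, 1]), (0, [0], [0, 2]), (0, [1], [1, 2]), (4, [], [3]), (0, [1], [4, 5]), (1, [], [4, 6]), (1, [], [5, 6]), (4, [], [3])]),
  (2, 7, [(0, [0], [0, 1]), (0, [0], [0, 2]), (0, [1], [1, 2]), (4, [], [3]), (0, [1], [4, 5]), (1, [], [4, 6]), (1, [], [3, 6]), (4, [], [5])]),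
  (2, 7, [(0, [0], [0, 1]), (0, [0], [0, 2]), (0, [1], [1, 2]), (4, [], [3]), (0, [1], [4, 5]), (1, [], [4, 6]), (1, [], [3, 5]), (4, [], [6])]),
  (2, 7, [(0, [0], [0, 1]), (0, [0], [0, 2]), (0, [1], [1, 2]), (4, [], [3]), (0, [1], [4, 5]), (1, [], [4, 5]), (1, [], [3, 6]), (4, [], [6])]),
  (2, 6, [(0, [0], [0, 1]), (0, [0], [0, 2]), (0, [1], [1, 2]), (4, [], [3]), (0, [1], [4, 5]), (1, [], [4, 5]), (4, [], [3])]),
  (2, 6, [(0, [0], [0, 1]), (0, [0], [0, 2]), (0, [1], [1, 2]), (4, [], [3]), (0, [1], [4, 5]), (1, [], [3, 4]), (4, [], [5])]),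
  (2, 7, [(0, [0], [0, 1]), (0, [0], [0, 2]), (0, [1], [1, 2]), (4, [], [3]), (0, [1], [3, 4]), (1, [], [5, 6]), (1, [], [5, 6]), (4, [], [4])]),
  (2, 6, [(0, [0], [0, 1]), (0, [0], [0, 2]), (0, [1], [1, 2]), (4, [], [3]), (1, [], [4, 5]), (2, [1], [3, 4, 5])]),
  (2, 7, [(0, [0], [0, 1]), (0, [0], [0, 2]), (0, [1], [3, 2]), (4, [], [1]), (0, [1], [4, 5]), (1, [], [4, 6]), (1, [], [5, 6]), (4, [], [3])]),
  (2, 7, [(0, [0], [0, 1]), (0, [0], [0, 2]), (0, [1], [3, 2]), (4, [], [1]), (0, [1], [4, 5]), (1, [], [4, 6]), (1, [], [3, 6]), (4, [], [5])]),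
  (2, 7, [(0, [0], [0, 1]), (0, [0], [0, 2]), (0, [1], [3, 2]), (4, [], [1]), (0, [1], [4, 5]), (1, [], [4, 6]), (1, [], [3, 5]), (4, [], [6])]),
  (2, 7, [(0, [0], [0, 1]), (0, [0], [0, 2]), (0, [1], [3, 2]), (4, [], [1]), (0, [1], [3, 4]), (1, [], [5, 6]), (1, [], [4, 5]), (4, [], [6])]),
  (2, 6, [(0, [0], [0, 1]), (0, [0], [0, 2]), (0, [1], [3, 2]), (4, [], [1]), (0, [1], [3, 4]), (1, [], [4, 5]), (4, [], [5])]),
  (2, 7, [(0, [0], [0, 1]), (0, [0], [0, 1]), (0, [1], [2, 3]), (4, [], [3]), (0, [1], [4, 5]), (1, [], [4, 6]), (1, [], [5, 6]), (4, [], [2])]),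
  (2, 7, [(0, [0], [0, 1]), (0, [0], [0, 1]), (0, [1], [2, 3]), (4, [], [3]), (0, [1], [4, 5]), (1, [], [4, 6]), (1, [], [2, 6]), (4, [], [5])]),
  (2, 7, [(0, [0], [0, 1]), (0, [0], [0, 1]), (0, [1], [2, 3]), (4, [], [3]), (0, [1], [4, 5]), (1, [], [4, 6]), (1, [], [2, 5]), (4, [], [6])]),
  (2, 7, [(0, [0], [0, 1]), (0, [0], [0, 1]), (0, [1], [2, 3]), (4, [], [3]), (0, [1], [2, 4]), (1, [], [5, 6]), (1, [], [4, 5]), (4, [], [6])]),
  (2, 7, [(0, [0], [0, 1]), (0, [0], [2, 3]), (0, [1], [0, 3]), (4, [], [1]), (0, [1], [4, 5]), (1, [], [4, 6]), (1, [], [5, 6]), (4, [], [2])]),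
  (2, 7, [(0, [0], [0, 1]), (0, [0], [2, 3]), (0, [1], [0, 3]), (4, [], [1]), (0, [1], [4, 5]), (1, [], [4, 6]), (1, [], [2, 6]), (4, [], [5])]),
  (2, 7, [(0, [0], [0, 1]), (0, [0], [2, 3]), (0, [1], [0, 3]), (4, [], [1]), (0, [1], [4, 5]), (1, [], [4, 6]), (1, [], [2, 5]), (4, [], [6])]),
  (2, 7, [(0, [0], [0, 1]), (0, [0], [2, 3]), (0, [1], [0, 3]), (4, [], [1]), (0, [1], [2, 4]), (1, [], [5, 6]), (1, [], [4, 5]), (4, [], [6])]),
  (2, 7, [(0, [0], [0, 1]), (0, [0], [2, 3]), (0, [1], [0, 1]), (4, [], [3]), (0, [1], [4, 5]), (1, [], [4, 6]), (1, [], [5, 6]), (4, [], [2])]),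
  (2, 7, [(0, [0], [0, 1]), (0, [0], [2, 3]), (0, [1], [0, 1]), (4, [], [3]), (0, [1], [4, 5]), (1, [], [4, 6]), (1, [], [2, 6]), (4, [], [5])]),
  (2, 7, [(0, [0], [0, 1]), (0, [0], [2, 3]), (0, [1], [0, 1]), (4, [], [3]), (0, [1], [4, 5]), (1, [], [4, 6]), (1, [], [2, 5]), (4, [], [6])]),
  (2, 7, [(0, [0], [0, 1]), (0, [0], [2, 3]), (0, [1], [0, 1]), (4, [], [3]), (0, [1], [4, 5]), (1, [], [4, 5]), (1, [], [2, 6]), (4, [], [6])]),
  (2, 6, [(0, [0], [0, 1]), (0, [0], [2, 3]), (0, [1], [0, 1]), (4, [], [3]), (0, [1], [4, 5]), (1, [], [4, 5]), (4, [], [2])]),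
  (2, 6, [(0, [0], [0, 1]), (0, [0], [2, 3]), (0, [1], [0, 1]), (4, [], [3]), (0, [1], [4, 5]), (1, [], [2, 4]), (4, [], [5])]),
  (2, 7, [(0, [0], [0, 1]), (0, [0], [2, 3]), (0, [1], [0, 1]), (4, [], [3]), (0, [1], [2, 4]), (1, [], [5, 6]), (1, [], [4, 5]), (4, [], [6])]),
  (2, 6, [(0, [0], [0, 1]), (0, [0], [2, 3]), (0, [1], [0, 1]), (4, [], [3]), (0, [1], [2, 4]), (1, [], [4, 5]), (4, [], [5])]),
  (2, 6, [(0, [0], [0, 1]), (0, [0], [2, 3]), (0, [1], [0, 1]), (4, [], [3]), (1, [], [4, 5]), (2, [1], [2, 4, 5])]),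
  (2, 7, [(0, [0], [0, 1]), (0, [0], [2, 0]), (0, [1], [1, 3]), (4, [], [3]), (0, [1], [4, 5]), (1, [], [4, 6]), (1, [], [2, 6]), (4, [], [5])]),
  (2, 7, [(0, [0], [0, 1]), (0, [0], [2, 0]), (0, [1], [1, 3]), (4, [], [3]), (0, [1], [4, 5]), (1, [], [4, 6]), (1, [], [2, 5]), (4, [], [6])]),
  (2, 7, [(0, [0], [0, 1]), (0, [0], [2, 0]), (0, [1], [1, 3]), (4, [], [3]), (0, [1], [4, 5]), (1, [], [4, 5]), (1, [], [2, 6]), (4, [], [6])]),
  (2, 7, [(0, [0], [0, 1]), (0, [0], [2, 0]), (0, [1], [1, 3]), (4, [], [3]), (0, [1], [2, 4]), (1, [], [5, 6]), (1, [], [5, 6]), (4, [], [4])]),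
  (2, 7, [(0, [0], [0, 1]), (0, [0], [2, 0]), (0, [1], [1, 3]), (4, [], [3]), (0, [1], [2, 4]), (1, [], [5, 6]), (1, [], [4, 5]), (4, [], [6])]),
  (2, 6, [(0, [0], [0, 1]), (0, [0], [2, 0]), (0, [1], [1, 3]), (4, [], [3]), (1, [], [4, 5]), (2, [1], [2, 4, 5])]),
  (2, 7, [(0, [0], [0, 1]), (0, [0], [0, 1]), (0, [1], [2, 3]), (4, [], [4]), (0, [1], [5, 6]), (1, [], [2, 5]), (1, [], [3, 6]), (4, [], [4])]),
  (2, 7, [(0, [0], [0, 1]), (0, [0], [0, 1]), (0, [1], [2, 3]), (4, [], [4]), (0, [1], [2, 5]), (1, [], [5, 6]), (1, [], [3, 6]), (4, [], [4])]),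
  (2, 7, [(0, [0], [0, 1]), (0, [0], [0, 1]), (0, [1], [2, 3]), (4, [], [4]), (0, [1], [2, 5]), (1, [], [5, 6]), (1, [], [3, 4]), (4, [], [6])]),
  (2, 7, [(0, [0], [0, 1]), (0, [0], [0, 1]), (0, [1], [2, 3]), (4, [], [4]), (0, [1], [2, 5]), (1, [], [4, 6]), (1, [], [3, 5]), (4, [], [6])]),
  (2, 6, [(0, [0], [0, 1]), (0, [0], [0, 1]), (0, [1], [2, 3]), (4, [], [4]), (0, [1], [2, 5]), (1, [], [3, 5]), (4, [], [4])]),
  (2, 6, [(0, [0], [0, 1]), (0, [0], [0, 1]), (0, [1], [2, 3]), (4, [], [4]), (1, [], [2, 5]), (2, [1], [3, 4, 5])]),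
  (2, 7, [(0, [0], [0, 1]), (0, [0], [2, 0]), (0, [1], [3, 1]), (4, [], [4]), (0, [1], [5, 6]), (1, [], [5, 6]), (1, [], [2, 3]), (4, [], [4])]),
  (2, 7, [(0, [0], [0, 1]), (0, [0], [2, 0]), (0, [1], [3, 1]), (4, [], [4]), (0, [1], [5, 6]), (1, [], [2, 5]), (1, [], [3, 6]), (4, [], [4])]),
  (2, 7, [(0, [0], [0, 1]), (0, [0], [2, 0]), (0, [1], [3, 1]), (4, [], [4]), (0, [1], [5, 6]), (1, [], [2, 5]), (1, [], [3, 4]), (4, [], [6])]),
  (2, 7, [(0, [0], [0, 1]), (0, [0], [2, 0]), (0, [1], [3, 1]), (4, [], [4]), (0, [1], [5, 6]), (1, [], [3, 5]), (1, [], [2, 4]), (4, [], [6])]),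
  (2, 7, [(0, [0], [0, 1]), (0, [0], [2, 0]), (0, [1], [3, 1]), (4, [], [4]), (0, [1], [5, 6]), (1, [], [4, 5]), (1, [], [2, 3]), (4, [], [6])]),
  (2, 7, [(0, [0], [0, 1]), (0, [0], [2, 0]), (0, [1], [3, 1]), (4, [], [4]), (0, [1], [2, 5]), (1, [], [5, 6]), (1, [], [3, 6]), (4, [], [4])]),
  (2, 7, [(0, [0], [0, 1]), (0, [0], [2, 0]), (0, [1], [3, 1]), (4, [], [4]), (0, [1], [3, 5]), (1, [], [5, 6]), (1, [], [2, 6]), (4, [], [4])]),
  (2, 7, [(0, [0], [0, 1]), (0, [0], [2, 0]), (0, [1], [3, 1]), (4, [], [4]), (0, [1], [2, 5]), (1, [], [5, 6]), (1, [], [3, 4]), (4, [], [6])]),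
  (2, 7, [(0, [0], [0, 1]), (0, [0], [2, 0]), (0, [1], [3, 1]), (4, [], [4]), (0, [1], [3, 5]), (1, [], [5, 6]), (1, [], [2, 4]), (4, [], [6])]),
  (2, 7, [(0, [0], [0, 1]), (0, [0], [2, 0]), (0, [1], [3, 1]), (4, [], [4]), (0, [1], [4, 5]), (1, [], [2, 6]), (1, [], [3, 6]), (4, [], [5])]),
  (2, 7, [(0, [0], [0, 1]), (0, [0], [2, 0]), (0, [1], [3, 1]), (4, [], [4]), (0, [1], [2, 5]), (1, [], [4, 6]), (1, [], [3, 5]), (4, [], [6])]),
  (2, 7, [(0, [0], [0, 1]), (0, [0], [2, 0]), (0, [1], [3, 1]), (4, [], [4]), (0, [1], [3, 5]), (1, [], [4, 6]), (1, [], [2, 5]), (4, [], [6])]),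
  (2, 6, [(0, [0], [0, 1]), (0, [0], [2, 0]), (0, [1], [3, 1]), (4, [], [4]), (0, [1], [2, 5]), (1, [], [3, 5]), (4, [], [4])]),
  (2, 6, [(0, [0], [0, 1]), (0, [0], [2, 0]), (0, [1], [3, 1]), (4, [], [4]), (0, [1], [3, 5]), (1, [], [2, 5]), (4, [], [4])]),
  (2, 6, [(0, [0], [0, 1]), (0, [0], [2, 0]), (0, [1], [3, 1]), (4, [], [4]), (0, [1], [4, 5]), (1, [], [2, 3]), (4, [], [5])]),
  (2, 7, [(0, [0], [0, 1]), (0, [0], [2, 0]), (0, [1], [3, 1]), (4, [], [4]), (0, [1], [2, 3]), (1, [], [5, 6]), (1, [], [5, 6]), (4, [], [4])]),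
  (2, 7, [(0, [0], [0, 1]), (0, [0], [2, 0]), (0, [1], [3, 1]), (4, [], [4]), (0, [1], [2, 3]), (1, [], [5, 6]), (1, [], [4, 5]), (4, [], [6])]),
  (2, 6, [(0, [0], [0, 1]), (0, [0], [2, 0]), (0, [1], [3, 1]), (4, [], [4]), (0, [1], [2, 3]), (1, [], [4, 5]), (4, [], [5])]),
  (2, 5, [(0, [0], [0, 1]), (0, [0], [2, 0]), (0, [1], [3, 1]), (4, [], [4]), (0, [1], [2, 3]), (4, [], [4])]),
  (2, 6, [(0, [0], [0, 1]), (0, [0], [2, 0]), (0, [1], [3, 1]), (4, [], [4]), (1, [], [2, 5]), (2, [1], [3, 4, 5])]),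
  (2, 6, [(0, [0], [0, 1]), (0, [0], [2, 0]), (0, [1], [3, 1]), (4, [], [4]), (1, [], [3, 5]), (2, [1], [2, 4, 5])]),
  (2, 6, [(0, [0], [0, 1]), (0, [0], [2, 0]), (0, [1], [3, 1]), (4, [], [4]), (1, [], [4, 5]), (2, [1], [2, 3, 5])]),
  (2, 5, [(0, [0], [0, 1]), (0, [0], [2, 0]), (0, [1], [3, 1]), (4, [], [4]), (2, [1], [2, 3, 4])]),
  (2, 7, [(0, [0], [0, 1]), (0, [0], [2, 0]), (0, [1], [3, 4]), (4, [], [1]), (0, [1], [5, 6]), (1, [], [5, 6]), (1, [], [3, 4]), (4, [], [2])]),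
  (2, 7, [(0, [0], [0, 1]), (0, [0], [2, 0]), (0, [1], [3, 4]), (4, [], [1]), (0, [1], [5, 6]), (1, [], [2, 5]), (1, [], [3, 6]), (4, [], [4])]),
  (2, 7, [(0, [0], [0, 1]), (0, [0], [2, 0]), (0, [1], [3, 4]), (4, [], [1]), (0, [1], [5, 6]), (1, [], [3, 5]), (1, [], [4, 6]), (4, [], [2])]),
  (2, 7, [(0, [0], [0, 1]), (0, [0], [2, 0]), (0, [1], [3, 4]), (4, [], [1]), (0, [1], [3, 5]), (1, [], [5, 6]), (1, [], [2, 6]), (4, [], [4])]),
  (2, 7, [(0, [0], [0, 1]), (0, [0], [2, 0]), (0, [1], [3, 4]), (4, [], [1]), (0, [1], [3, 5]), (1, [], [5, 6]), (1, [], [4, 6]), (4, [], [2])]),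
  (2, 7, [(0, [0], [0, 1]), (0, [0], [2, 0]), (0, [1], [3, 4]), (4, [], [1]), (0, [1], [3, 5]), (1, [], [5, 6]), (1, [], [2, 4]), (4, [], [6])]),
  (2, 7, [(0, [0], [0, 1]), (0, [0], [2, 0]), (0, [1], [3, 4]), (4, [], [1]), (0, [1], [3, 5]), (1, [], [2, 6]), (1, [], [4, 5]), (4, [], [6])]),
  (2, 6, [(0, [0], [0, 1]), (0, [0], [2, 0]), (0, [1], [3, 4]), (4, [], [1]), (0, [1], [3, 5]), (1, [], [2, 5]), (4, [], [4])]),
  (2, 6, [(0, [0], [0, 1]), (0, [0], [2, 0]), (0, [1], [3, 4]), (4, [], [1]), (0, [1], [3, 5]), (1, [], [4, 5]), (4, [], [2])]),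
  (2, 6, [(0, [0], [0, 1]), (0, [0], [2, 0]), (0, [1], [3, 4]), (4, [], [1]), (1, [], [2, 5]), (2, [1], [3, 4, 5])]),
  (2, 6, [(0, [0], [0, 1]), (0, [0], [2, 0]), (0, [1], [3, 4]), (4, [], [1]), (1, [], [3, 5]), (2, [1], [2, 4, 5])]),
  (2, 7, [(0, [0], [0, 1]), (0, [0], [2, 3]), (0, [1], [0, 1]), (4, [], [4]), (0, [1], [5, 6]), (1, [], [2, 5]), (1, [], [3, 6]), (4, [], [4])]),
  (2, 7, [(0, [0], [0, 1]), (0, [0], [2, 3]), (0, [1], [0, 1]), (4, [], [4]), (0, [1], [2, 5]), (1, [], [5, 6]), (1, [], [3, 6]), (4, [], [4])]),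
  (2, 7, [(0, [0], [0, 1]), (0, [0], [2, 3]), (0, [1], [0, 1]), (4, [], [4]), (0, [1], [2, 5]), (1, [], [5, 6]), (1, [], [3, 4]), (4, [], [6])]),
  (2, 7, [(0, [0], [0, 1]), (0, [0], [2, 3]), (0, [1], [0, 1]), (4, [], [4]), (0, [1], [2, 5]), (1, [], [4, 6]), (1, [], [3, 5]), (4, [], [6])]),
  (2, 6, [(0, [0], [0, 1]), (0, [0], [2, 3]), (0, [1], [0, 1]), (4, [], [4]), (0, [1], [2, 5]), (1, [], [3, 5]), (4, [], [4])]),
  (2, 7, [(0, [0], [0, 1]), (0, [0], [2, 3]), (0, [1], [0, 1]), (4, [], [4]), (0, [1], [2, 3]), (1, [], [5, 6]), (1, [], [4, 5]), (4, [], [6])]),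
  (2, 6, [(0, [0], [0, 1]), (0, [0], [2, 3]), (0, [1], [0, 1]), (4, [], [4]), (0, [1], [2, 3]), (1, [], [4, 5]), (4, [], [5])]),
  (2, 5, [(0, [0], [0, 1]), (0, [0], [2, 3]), (0, [1], [0, 1]), (4, [], [4]), (0, [1], [2, 3]), (4, [], [4])]),
  (2, 6, [(0, [0], [0, 1]), (0, [0], [2, 3]), (0, [1], [0, 1]), (4, [], [4]), (1, [], [2, 5]), (2, [1], [3, 4, 5])]),
  (2, 6, [(0, [0], [0, 1]), (0, [0], [2, 3]), (0, [1], [0, 1]), (4, [], [4]), (1, [], [4, 5]), (2, [1], [2, 3, 5])]),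
  (2, 5, [(0, [0], [0, 1]), (0, [0], [2, 3]), (0, [1], [0, 1]), (4, [], [4]), (2, [1], [2, 3, 4])]),
  (2, 7, [(0, [0], [0, 1]), (0, [0], [2, 3]), (0, [1], [4, 0]), (4, [], [1]), (0, [1], [5, 6]), (1, [], [5, 6]), (1, [], [2, 4]), (4, [], [3])]),
  (2, 7, [(0, [0], [0, 1]), (0, [0], [2, 3]), (0, [1], [4, 0]), (4, [], [1]), (0, [1], [5, 6]), (1, [], [2, 5]), (1, [], [3, 6]), (4, [], [4])]),
  (2, 7, [(0, [0], [0, 1]), (0, [0], [2, 3]), (0, [1], [4, 0]), (4, [], [1]), (0, [1], [5, 6]), (1, [], [2, 5]), (1, [], [4, 6]), (4, [], [3])]),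
  (2, 7, [(0, [0], [0, 1]), (0, [0], [2, 3]), (0, [1], [4, 0]), (4, [], [1]), (0, [1], [5, 6]), (1, [], [2, 5]), (1, [], [3, 4]), (4, [], [6])]),
  (2, 7, [(0, [0], [0, 1]), (0, [0], [2, 3]), (0, [1], [4, 0]), (4, [], [1]), (0, [1], [2, 5]), (1, [], [5, 6]), (1, [], [3, 6]), (4, [], [4])]),
  (2, 7, [(0, [0], [0, 1]), (0, [0], [2, 3]), (0, [1], [4, 0]), (4, [], [1]), (0, [1], [2, 5]), (1, [], [5, 6]), (1, [], [4, 6]), (4, [], [3])]),
  (2, 7, [(0, [0], [0, 1]), (0, [0], [2, 3]), (0, [1], [4, 0]), (4, [], [1]), (0, [1], [2, 5]), (1, [], [5, 6]), (1, [], [3, 4]), (4, [], [6])]),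
  (2, 7, [(0, [0], [0, 1]), (0, [0], [2, 3]), (0, [1], [4, 0]), (4, [], [1]), (0, [1], [2, 5]), (1, [], [3, 6]), (1, [], [4, 6]), (4, [], [5])]),
  (2, 7, [(0, [0], [0, 1]), (0, [0], [2, 3]), (0, [1], [4, 0]), (4, [], [1]), (0, [1], [2, 5]), (1, [], [3, 6]), (1, [], [4, 5]), (4, [], [6])]),
  (2, 7, [(0, [0], [0, 1]), (0, [0], [2, 3]), (0, [1], [4, 0]), (4, [], [1]), (0, [1], [2, 5]), (1, [], [4, 6]), (1, [], [3, 5]), (4, [], [6])]),
  (2, 6, [(0, [0], [0, 1]), (0, [0], [2, 3]), (0, [1], [4, 0]), (4, [], [1]), (0, [1], [2, 5]), (1, [], [3, 5]), (4, [], [4])]),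
  (2, 6, [(0, [0], [0, 1]), (0, [0], [2, 3]), (0, [1], [4, 0]), (4, [], [1]), (1, [], [2, 5]), (2, [1], [3, 4, 5])]),
  (2, 7, [(0, [0], [0, 1]), (0, [0], [2, 3]), (0, [1], [1, 3]), (4, [], [4]), (0, [1], [5, 6]), (1, [], [5, 6]), (1, [], [0, 2]), (4, [], [4])]),
  (2, 7, [(0, [0], [0, 1]), (0, [0], [2, 3]), (0, [1], [1, 3]), (4, [], [4]), (0, [1], [5, 6]), (1, [], [0, 5]), (1, [], [2, 6]), (4, [], [4])]),
  (2, 7, [(0, [0], [0, 1]), (0, [0], [2, 3]), (0, [1], [1, 3]), (4, [], [4]), (0, [1], [5, 6]), (1, [], [0, 5]), (1, [], [2, 4]), (4, [], [6])]),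
  (2, 7, [(0, [0], [0, 1]), (0, [0], [2, 3]), (0, [1], [1, 3]), (4, [], [4]), (0, [1], [5, 6]), (1, [], [4, 5]), (1, [], [0, 2]), (4, [], [6])]),
  (2, 7, [(0, [0], [0, 1]), (0, [0], [2, 3]), (0, [1], [1, 3]), (4, [], [4]), (0, [1], [0, 5]), (1, [], [5, 6]), (1, [], [2, 6]), (4, [], [4])]),
  (2, 7, [(0, [0], [0, 1]), (0, [0], [2, 3]), (0, [1], [1, 3]), (4, [], [4]), (0, [1], [0, 5]), (1, [], [5, 6]), (1, [], [2, 4]), (4, [], [6])]),
  (2, 7, [(0, [0], [0, 1]), (0, [0], [2, 3]), (0, [1], [1, 3]), (4, [], [4]), (0, [1], [4, 5]), (1, [], [0, 6]), (1, [], [2, 6]), (4, [], [5])]),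
  (2, 7, [(0, [0], [0, 1]), (0, [0], [2, 3]), (0, [1], [1, 3]), (4, [], [4]), (0, [1], [0, 5]), (1, [], [4, 6]), (1, [], [2, 5]), (4, [], [6])]),
  (2, 6, [(0, [0], [0, 1]), (0, [0], [2, 3]), (0, [1], [1, 3]), (4, [], [4]), (0, [1], [0, 5]), (1, [], [2, 5]), (4, [], [4])]),
  (2, 7, [(0, [0], [0, 1]), (0, [0], [2, 3]), (0, [1], [1, 3]), (4, [], [4]), (0, [1], [0, 2]), (1, [], [5, 6]), (1, [], [5, 6]), (4, [], [4])]),
  (2, 7, [(0, [0], [0, 1]), (0, [0], [2, 3]), (0, [1], [1, 3]), (4, [], [4]), (0, [1], [0, 2]), (1, [], [5, 6]), (1, [], [4, 5]), (4, [], [6])]),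
  (2, 6, [(0, [0], [0, 1]), (0, [0], [2, 3]), (0, [1], [1, 3]), (4, [], [4]), (1, [], [0, 5]), (2, [1], [2, 4, 5])]),
  (2, 7, [(0, [0], [0, 1]), (0, [0], [2, 3]), (0, [1], [4, 3]), (4, [], [1]), (0, [1], [5, 6]), (1, [], [5, 6]), (1, [], [2, 4]), (4, [], [0])]),
  (2, 7, [(0, [0], [0, 1]), (0, [0], [2, 3]), (0, [1], [4, 3]), (4, [], [1]), (0, [1], [5, 6]), (1, [], [2, 5]), (1, [], [4, 6]), (4, [], [0])]),
  (2, 7, [(0, [0], [0, 1]), (0, [0], [2, 3]), (0, [1], [4, 3]), (4, [], [1]), (0, [1], [5, 6]), (1, [], [0, 5]), (1, [], [2, 4]), (4, [], [6])]),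
  (2, 7, [(0, [0], [0, 1]), (0, [0], [2, 3]), (0, [1], [4, 3]), (4, [], [1]), (0, [1], [5, 6]), (1, [], [2, 5]), (1, [], [0, 4]), (4, [], [6])]),
  (2, 7, [(0, [0], [0, 1]), (0, [0], [2, 3]), (0, [1], [4, 3]), (4, [], [1]), (0, [1], [5, 6]), (1, [], [4, 5]), (1, [], [0, 2]), (4, [], [6])]),
  (2, 6, [(0, [0], [0, 1]), (0, [0], [2, 3]), (0, [1], [4, 3]), (4, [], [1]), (1, [], [0, 5]), (2, [1], [2, 4, 5])]),
  (2, 6, [(0, [0], [0, 1]), (0, [0], [2, 3]), (0, [1], [4, 3]), (4, [], [1]), (1, [], [2, 5]), (2, [1], [0, 4, 5])]),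
  (2, 7, [(0, [0], [0, 1]), (0, [0], [2, 1]), (0, [1], [3, 4]), (4, [], [4]), (0, [1], [5, 6]), (1, [], [5, 6]), (1, [], [0, 2]), (4, [], [3])]),
  (2, 7, [(0, [0], [0, 1]), (0, [0], [2, 1]), (0, [1], [3, 4]), (4, [], [4]), (0, [1], [5, 6]), (1, [], [0, 5]), (1, [], [2, 6]), (4, [], [3])]),
  (2, 7, [(0, [0], [0, 1]), (0, [0], [2, 1]), (0, [1], [3, 4]), (4, [], [4]), (0, [1], [5, 6]), (1, [], [0, 5]), (1, [], [2, 3]), (4, [], [6])]),
  (2, 7, [(0, [0], [0, 1]), (0, [0], [2, 1]), (0, [1], [3, 4]), (4, [], [4]), (0, [1], [5, 6]), (1, [], [3, 5]), (1, [], [0, 2]), (4, [], [6])]),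
  (2, 6, [(0, [0], [0, 1]), (0, [0], [2, 1]), (0, [1], [3, 4]), (4, [], [4]), (1, [], [0, 5]), (2, [1], [2, 3, 5])]),
  (2, 7, [(0, [0], [0, 1]), (0, [0], [2, 1]), (0, [1], [3, 4]), (4, [], [5]), (0, [1], [3, 6]), (1, [], [0, 6]), (1, [], [2, 4]), (4, [], [5])]),
  (2, 7, [(0, [0], [0, 1]), (0, [0], [2, 1]), (0, [1], [3, 4]), (4, [], [5]), (0, [1], [3, 6]), (1, [], [4, 6]), (1, [], [0, 2]), (4, [], [5])]),
  (2, 6, [(0, [0], [0, 1]), (0, [0], [2, 1]), (0, [1], [3, 4]), (4, [], [5]), (1, [], [0, 2]), (2, [1], [3, 4, 5])]),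
  (2, 6, [(0, [0], [0, 1]), (0, [0], [2, 1]), (0, [1], [3, 4]), (4, [], [5]), (1, [], [0, 3]), (2, [1], [2, 4, 5])]),
  (2, 6, [(0, [0], [0, 1]), (0, [0], [2, 1]), (0, [1], [3, 4]), (4, [], [5]), (1, [], [0, 5]), (2, [1], [2, 3, 4])]),
  (2, 7, [(0, [0], [0, 1]), (0, [0], [2, 3]), (0, [1], [4, 1]), (4, [], [5]), (0, [1], [2, 6]), (1, [], [3, 6]), (1, [], [0, 4]), (4, [], [5])]),
  (2, 7, [(0, [0], [0, 1]), (0, [0], [2, 3]), (0, [1], [4, 1]), (4, [], [5]), (0, [1], [2, 6]), (1, [], [4, 6]), (1, [], [0, 3]), (4, [], [5])]),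
  (2, 6, [(0, [0], [0, 1]), (0, [0], [2, 3]), (0, [1], [4, 1]), (4, [], [5]), (1, [], [0, 2]), (2, [1], [3, 4, 5])]),
  (2, 6, [(0, [0], [0, 1]), (0, [0], [2, 3]), (0, [1], [4, 1]), (4, [], [5]), (1, [], [0, 4]), (2, [1], [2, 3, 5])]),
  (2, 6, [(0, [0], [0, 1]), (0, [0], [2, 3]), (0, [1], [4, 1]), (4, [], [5]), (1, [], [2, 3]), (2, [1], [0, 4, 5])]),
  (2, 6, [(0, [0], [0, 1]), (0, [0], [2, 3]), (0, [1], [4, 5]), (4, [], [1]), (1, [], [0, 2]), (2, [1], [3, 4, 5])]),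
  (2, 5, [(0, [0], [0, 1]), (2, [0], [2, 3, 4]), (0, [1], [0, 1]), (2, [1], [2, 3, 4])]),
  (2, 5, [(0, [0], [0, 1]), (2, [1], [2, 3, 1]), (0, [0], [0, 4]), (2, [1], [2, 3, 4])])]

def kl57 : List ℕ := [5, 6, 7, 8, 9, 10, 11, 12, 21, 22, 26, 30, 33, 37, 38, 41, 42, 44, 45, 46, 47, 48, 49, 50, 51, 54, 55, 56, 62, 63, 64, 65, 75, 76, 78, 82, 83, 84, 85, 86, 87, 88, 89, 90, 91, 93, 99, 100, 101, 102, 103, 104, 106, 108, 113, 114, 115, 117, 118, 121, 122, 123, 124, 127, 128, 129, 131, 134, 135, 136, 137, 138, 139, 141, 142, 143, 145, 146, 147, 149, 150, 151, 208, 209, 210, 211, 212, 215, 226, 227, 228, 229, 230, 231, 232, 233, 234, 235, 236, 237, 238, 239, 240, 244, 245, 246, 247, 248, 249, 250, 251, 254, 255, 256, 257, 258, 259, 260, 261, 262, 264, 265, 271, 272, 273, 274, 275, 278, 279, 280, 281, 282, 283, 289, 290, 291, 292, 293, 294, 295, 296, 297, 298, 299, 301, 304, 305, 306, 307, 308,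 309, 310, 311, 312, 316, 317, 320, 323, 324, 325, 326, 327, 328, 329, 332, 333, 334, 335, 336, 422, 423, 424, 425, 426, 432, 433, 434, 435, 436, 439, 448, 449]

def m57_0 : Base := (0, 1, [(0, [0], [0, 5]), (0, [1], [1, 5]), (1, [], [2, 3]), (4, [], [4])])

def l57_0 : Cov := [(288, 0, 1, [(0, [0], [0, 5]), (0, [1], [1, 5]), (1, [], [2, 3]), (4, [], [4])]),
  (96, 0, 1, [(0, [0], [0, 5]), (0, [1], [1, 5]), (1, [], [2, 4]), (4, [], [3])]),
  (96, 0, 1, [(0, [0], [0, 5]), (0, [1], [1, 5]), (1, [], [3, 4]), (4, [], [2])]),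
  (288, 0, 1, [(0, [0], [0, 5]), (0, [1], [2, 5]), (1, [], [1, 3]), (4, [], [4])]),
  (96, 0, 1, [(0, [0], [0, 5]), (0, [1], [2, 5]), (1, [], [1, 4]), (4, [], [3])]),
  (96, 0, 1, [(0, [0], [0, 5]), (0, [1], [2, 5]), (1, [], [3, 4]), (4, [], [1])]),
  (288, 0, 1, [(0, [0], [0, 5]), (0, [1], [3, 5]), (1, [], [1, 2]), (4, [], [4])]),
  (96, 0, 1, [(0, [0], [0, 5]), (0, [1], [3, 5]), (1, [], [1, 4]), (4, [], [2])]),
  (96, 0, 1, [(0, [0], [0, 5]), (0, [1], [3, 5]), (1, [], [2, 4]), (4, [], [1])]),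
  (288, 0, 1, [(0, [0], [1, 5]), (0, [1], [0, 5]), (1, [], [2, 3]), (4, [], [4])]),
  (192, 0, 1, [(0, [0], [1, 5]), (0, [1], [2, 5]), (1, [], [0, 3]), (4, [], [4])]),
  (-192, 0, 1, [(0, [0], [1, 5]), (0, [1], [2, 5]), (1, [], [3, 4]), (4, [], [0])]),
  (192, 0, 1, [(0, [0], [1, 5]), (0, [1], [3, 5]), (1, [], [0, 2]), (4, [], [4])]),
  (-192, 0, 1, [(0, [0], [1, 5]), (0, [1], [3, 5]), (1, [], [2, 4]), (4, [], [0])]),
  (-288, 0, 1, [(0, [0], [1, 5]), (0, [1], [4, 5]), (1, [], [2, 3]), (4, [], [0])]),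
  (288, 0, 1, [(0, [0], [2, 5]), (0, [1], [0, 5]), (1, [], [1, 3]), (4, [], [4])]),
  (192, 0, 1, [(0, [0], [2, 5]), (0, [1], [1, 5]), (1, [], [0, 3]), (4, [], [4])]),
  (-192, 0, 1, [(0, [0], [2, 5]), (0, [1], [1, 5]), (1, [], [3, 4]), (4, [], [0])]),
  (192, 0, 1, [(0, [0], [2, 5]), (0, [1], [3, 5]), (1, [], [0, 1]), (4, [], [4])]),
  (-192, 0, 1, [(0, [0], [2, 5]), (0, [1], [3, 5]), (1, [], [1, 4]), (4, [], [0])]),
  (-288, 0, 1, [(0, [0], [2, 5]), (0, [1], [4, 5]), (1, [], [1, 3]), (4, [], [0])]),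
  (288, 0, 1, [(0, [0], [3, 5]), (0, [1], [0, 5]), (1, [], [1, 2]), (4, [], [4])]),
  (192, 0, 1, [(0, [0], [3, 5]), (0, [1], [1, 5]), (1, [], [0, 2]), (4, [], [4])]),
  (-192, 0, 1, [(0, [0], [3, 5]), (0, [1], [1, 5]), (1, [], [2, 4]), (4, [], [0])]),
  (192, 0, 1, [(0, [0], [3, 5]), (0, [1], [2, 5]), (1, [], [0, 1]), (4, [], [4])]),
  (-192, 0, 1, [(0, [0], [3, 5]), (0, [1], [2, 5]), (1, [], [1, 4]), (4, [], [0])]),
  (-288, 0, 1, [(0, [0], [3, 5]), (0, [1], [4, 5]), (1, [], [1, 2]), (4, [], [0])]),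
  (-96, 0, 1, [(0, [0], [4, 5]), (0, [1], [1, 5]), (1, [], [0, 2]), (4, [], [3])]),
  (-96, 0, 1, [(0, [0], [4, 5]), (0, [1], [1, 5]), (1, [], [0, 3]), (4, [], [2])]),
  (-288, 0, 1, [(0, [0], [4, 5]), (0, [1], [1, 5]), (1, [], [2, 3]), (4, [], [0])]),
  (-96, 0, 1, [(0, [0], [4, 5]), (0, [1], [2, 5]), (1, [], [0, 1]), (4, [], [3])]),
  (-96, 0, 1, [(0, [0], [4, 5]), (0, [1], [2, 5]), (1, [], [0, 3]), (4, [], [1])]),
  (-288, 0, 1, [(0, [0], [4, 5]), (0, [1], [2, 5]), (1, [], [1, 3]), (4, [], [0])]),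
  (-96, 0, 1, [(0, [0], [4, 5]), (0, [1], [3, 5]), (1, [], [0, 1]), (4, [], [2])]),
  (-96, 0, 1, [(0, [0], [4, 5]), (0, [1], [3, 5]), (1, [], [0, 2]), (4, [], [1])]),
  (-288, 0, 1, [(0, [0], [4, 5]), (0, [1], [3, 5]), (1, [], [1, 2]), (4, [], [0])]),
  (96, 0, 1, [(0, [1], [0, 5]), (0, [0], [1, 5]), (1, [], [2, 4]), (4, [], [3])]),
  (96, 0, 1, [(0, [1], [0, 5]), (0, [0], [1, 5]), (1, [], [3, 4]), (4, [], [2])]),
  (96, 0, 1, [(0, [1], [0, 5]), (0, [0], [2, 5]), (1, [], [1, 4]), (4, [], [3])]),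
  (96, 0, 1, [(0, [1], [0, 5]), (0, [0], [2, 5]), (1, [], [3, 4]), (4, [], [1])]),
  (96, 0, 1, [(0, [1], [0, 5]), (0, [0], [3, 5]), (1, [], [1, 4]), (4, [], [2])]),
  (96, 0, 1, [(0, [1], [0, 5]), (0, [0], [3, 5]), (1, [], [2, 4]), (4, [], [1])]),
  (-96, 0, 1, [(0, [1], [4, 5]), (0, [0], [1, 5]), (1, [], [0, 2]), (4, [], [3])]),
  (-96, 0, 1, [(0, [1], [4, 5]), (0, [0], [1, 5]), (1, [], [0, 3]), (4, [], [2])]),
  (-96, 0, 1, [(0, [1], [4, 5]), (0, [0], [2, 5]), (1, [], [0, 1]), (4, [], [3])]),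
  (-96, 0, 1, [(0, [1], [4, 5]), (0, [0], [2, 5]), (1, [], [0, 3]), (4, [], [1])]),
  (-96, 0, 1, [(0, [1], [4, 5]), (0, [0], [3, 5]), (1, [], [0, 1]), (4, [], [2])]),
  (-96, 0, 1, [(0, [1], [4, 5]), (0, [0], [3, 5]), (1, [], [0, 2]), (4, [], [1])])]

def z57_0 : Cov := [(0, 0, 1, [(0, [0], [0, 5]), (0, [1], [4, 5]), (1, [], [1, 2]), (4, [], [3])]),
  (0, 0, 1, [(0, [0], [0, 5]), (0, [1], [4, 5]), (1, [], [1, 3]), (4, [], [2])]),
  (0, 0, 1, [(0, [0], [0, 5]), (0, [1], [4, 5]), (1, [], [2, 3]), (4, [], [1])]),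
  (0, 0, 1, [(0, [0], [4, 5]), (0, [1], [0, 5]), (1, [], [1, 2]), (4, [], [3])]),
  (0, 0, 1, [(0, [0], [4, 5]), (0, [1], [0, 5]), (1, [], [1, 3]), (4, [], [2])]),
  (0, 0, 1, [(0, [0], [4, 5]), (0, [1], [0, 5]), (1, [], [2, 3]), (4, [], [1])])]

def w57_0 : List (List Wit) := [[(0, 0, 0, 0, 0), (1, 0, 0, 0, 0), (0, 0, 0, 0, 0), (2, 0, 0, 0, 0), (1, 0, 0, 0, 0), (2, 0, 0, 0, 0), (3, 0, 0, 0, 0), (4, 0, 0, 0, 0), (3, 0, 0, 0, 0), (5, 0, 0, 0, 0), (4, 0, 0, 0, 0), (5, 0, 0, 0, 0), (6, 0, 0, 0, 0), (7, 0, 0, 0, 0), (6, 0, 0, 0, 0), (8, 0, 0, 0, 0), (7, 0, 0, 0, 0), (8, 0, 0, 0, 0), (48, 0, 0, 0, 0), (49, 0, 0, 0, 0), (48, 0, 0, 0, 0), (50, 0, 0, 0, 0), (49, 0, 0, 0, 0), (50, 0, 0, 0, 0), (9, 0, 0, 0, 0), (9, 0, 0, 0, 0), (10, 0, 0, 0, 0), (10, 0, 0, 0, 0), (11, 0, 0, 0, 0), (11, 0, 0, 0, 0), (12, 0, 0, 0, 0), (12, 0, 0, 0, 0), (13, 0, 0, 0, 0), (13, 0, 0, 0, 0), (14, 0, 0, 0, 0), (14, 0,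 0, 0, 0), (15, 0, 0, 0, 0), (15, 0, 0, 0, 0), (16, 0, 0, 0, 0), (16, 0, 0, 0, 0), (17, 0, 0, 0, 0), (17, 0, 0, 0, 0), (18, 0, 0, 0, 0), (18, 0, 0, 0, 0), (19, 0, 0, 0, 0), (19, 0, 0, 0, 0), (20, 0, 0, 0, 0), (20, 0, 0, 0, 0), (21, 0, 0, 0, 0), (21, 0, 0, 0, 0), (22, 0, 0, 0, 0), (22, 0, 0, 0, 0), (23, 0, 0, 0, 0), (23, 0, 0, 0, 0), (24, 0, 0, 0, 0), (24, 0, 0, 0, 0), (25, 0, 0, 0, 0), (25, 0, 0, 0, 0), (26, 0, 0, 0, 0), (26, 0, 0, 0, 0), (51, 0, 0, 0, 0), (52, 0, 0, 0, 0), (51, 0, 0, 0, 0), (53, 0, 0, 0, 0), (52, 0, 0, 0, 0), (53, 0, 0, 0, 0), (27, 0, 0, 0, 0), (28, 0, 0, 0, 0), (27, 0, 0, 0, 0), (29, 0, 0, 0, 0), (28, 0, 0, 0, 0), (29, 0, 0, 0, 0), (30, 0, 0, 0, 0), (31, 0, 0, 0, 0), (30, 0, 0, 0, 0), (32, 0, 0, 0, 0), (31, 0, 0, 0, 0), (32, 0, 0, 0, 0), (33, 0, 0, 0, 0), (34, 0, 0, 0, 0), (33, 0, 0, 0, 0), (35, 0, 0, 0, 0), (34, 0, 0, 0, 0), (35, 0, 0, 0, 0)],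
  [(9, 0, 0, 0, 0), (36, 0, 0, 0, 0), (9, 0, 0, 0, 0), (37, 0, 0, 0, 0), (36, 0, 0, 0, 0), (37, 0, 0, 0, 0), (15, 0, 0, 0, 0), (38, 0, 0, 0, 0), (15, 0, 0, 0, 0), (39, 0, 0, 0, 0), (38, 0, 0, 0, 0), (39, 0, 0, 0, 0), (21, 0, 0, 0, 0), (40, 0, 0, 0, 0), (21, 0, 0, 0, 0), (41, 0, 0, 0, 0), (40, 0, 0, 0, 0), (41, 0, 0, 0, 0), (51, 0, 0, 0, 0), (52, 0, 0, 0, 0), (51, 0, 0, 0, 0), (53, 0, 0, 0, 0), (52, 0, 0, 0, 0), (53, 0, 0, 0, 0), (0, 0, 0, 0, 0), (0, 0, 0, 0, 0), (16, 0, 0, 0, 0), (16, 0, 0, 0, 0), (17, 0, 0, 0, 0), (17, 0, 0, 0, 0), (22, 0, 0, 0, 0), (22, 0, 0, 0, 0), (23, 0, 0, 0, 0), (23, 0, 0, 0, 0), (29, 0, 0, 0, 0), (29, 0, 0, 0, 0), (3, 0, 0, 0, 0), (3, 0, 0, 0, 0), (10, 0, 0, 0, 0), (10, 0, 0, 0, 0), (11, 0, 0, 0, 0), (11, 0, 0, 0, 0), (24, 0, 0, 0, 0), (24, 0, 0, 0, 0), (25, 0, 0, 0, 0), (25, 0, 0, 0, 0), (32, 0, 0, 0, 0), (32, 0, 0, 0, 0), (6, 0, 0, 0, 0), (6, 0, 0, 0, 0), (12,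 0, 0, 0, 0), (12, 0, 0, 0, 0), (13, 0, 0, 0, 0), (13, 0, 0, 0, 0), (18, 0, 0, 0, 0), (18, 0, 0, 0, 0), (19, 0, 0, 0, 0), (19, 0, 0, 0, 0), (35, 0, 0, 0, 0), (35, 0, 0, 0, 0), (48, 0, 0, 0, 0), (49, 0, 0, 0, 0), (48, 0, 0, 0, 0), (50, 0, 0, 0, 0), (49, 0, 0, 0, 0), (50, 0, 0, 0, 0), (42, 0, 0, 0, 0), (43, 0, 0, 0, 0), (42, 0, 0, 0, 0), (14, 0, 0, 0, 0), (43, 0, 0, 0, 0), (14, 0, 0, 0, 0), (44, 0, 0, 0, 0), (45, 0, 0, 0, 0), (44, 0, 0, 0, 0), (20, 0, 0, 0, 0), (45, 0, 0, 0, 0), (20, 0, 0, 0, 0), (46, 0, 0, 0, 0), (47, 0, 0, 0, 0), (46, 0, 0, 0, 0), (26, 0, 0, 0, 0), (47, 0, 0, 0, 0), (26, 0, 0, 0, 0)]]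

def m57_1 : Base := (0, 1, [(0, [0], [0, 5]), (0, [1], [1, 5]), (1, [], [2, 4]), (4, [], [3])])

def l57_1 : Cov := [(192, 0, 1, [(0, [0], [0, 5]), (0, [1], [1, 5]), (1, [], [2, 4]), (4, [], [3])]),
  (96, 0, 1, [(0, [0], [0, 5]), (0, [1], [1, 5]), (1, [], [2, 3]), (4, [], [4])]),
  (192, 0, 1, [(0, [0], [0, 5]), (0, [1], [1, 5]), (1, [], [3, 4]), (4, [], [2])]),
  (192, 0, 1, [(0, [0], [0, 5]), (0, [1], [2, 5]), (1, [], [1, 4]), (4, [], [3])]),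
  (96, 0, 1, [(0, [0], [0, 5]), (0, [1], [2, 5]), (1, [], [1, 3]), (4, [], [4])]),
  (192, 0, 1, [(0, [0], [0, 5]), (0, [1], [2, 5]), (1, [], [3, 4]), (4, [], [1])]),
  (192, 0, 1, [(0, [0], [0, 5]), (0, [1], [3, 5]), (1, [], [1, 4]), (4, [], [2])]),
  (96, 0, 1, [(0, [0], [0, 5]), (0, [1], [3, 5]), (1, [], [1, 2]), (4, [], [4])]),
  (192, 0, 1, [(0, [0], [0, 5]), (0, [1], [3, 5]), (1, [], [2, 4]), (4, [], [1])]),
  (192, 0, 1, [(0, [0], [1, 5]), (0, [1], [0, 5]), (1, [], [2, 4]), (4, [], [3])]),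
  (192, 0, 1, [(0, [0], [1, 5]), (0, [1], [0, 5]), (1, [], [3, 4]), (4, [], [2])]),
  (96, 0, 1, [(0, [0], [1, 5]), (0, [1], [2, 5]), (1, [], [3, 4]), (4, [], [0])]),
  (-96, 0, 1, [(0, [0], [1, 5]), (0, [1], [2, 5]), (1, [], [3, 0]), (4, [], [4])]),
  (96, 0, 1, [(0, [0], [1, 5]), (0, [1], [3, 5]), (1, [], [2, 4]), (4, [], [0])]),
  (-96, 0, 1, [(0, [0], [1, 5]), (0, [1], [3, 5]), (1, [], [2, 0]), (4, [], [4])]),
  (-192, 0, 1, [(0, [0], [1, 5]), (0, [1], [4, 5]), (1, [], [2, 0]), (4, [], [3])]),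
  (-192, 0, 1, [(0, [0], [1, 5]), (0, [1], [4, 5]), (1, [], [3, 0]), (4, [], [2])]),
  (192, 0, 1, [(0, [0], [2, 5]), (0, [1], [0, 5]), (1, [], [1, 4]), (4, [], [3])]),
  (192, 0, 1, [(0, [0], [2, 5]), (0, [1], [0, 5]), (1, [], [3, 4]), (4, [], [1])]),
  (96, 0, 1, [(0, [0], [2, 5]), (0, [1], [1, 5]), (1, [], [3, 4]), (4, [], [0])]),
  (-96, 0, 1, [(0, [0], [2, 5]), (0, [1], [1, 5]), (1, [], [3, 0]), (4, [], [4])]),
  (96, 0, 1, [(0, [0], [2, 5]), (0, [1], [3, 5]), (1, [], [1, 4]), (4, [], [0])]),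
  (-96, 0, 1, [(0, [0], [2, 5]), (0, [1], [3, 5]), (1, [], [1, 0]), (4, [], [4])]),
  (-192, 0, 1, [(0, [0], [2, 5]), (0, [1], [4, 5]), (1, [], [1, 0]), (4, [], [3])]),
  (-192, 0, 1, [(0, [0], [2, 5]), (0, [1], [4, 5]), (1, [], [3, 0]), (4, [], [1])]),
  (192, 0, 1, [(0, [0], [3, 5]), (0, [1], [0, 5]), (1, [], [1, 4]), (4, [], [2])]),
  (192, 0, 1, [(0, [0], [3, 5]), (0, [1], [0, 5]), (1, [], [2, 4]), (4, [], [1])]),
  (96, 0, 1, [(0, [0], [3, 5]), (0, [1], [1, 5]), (1, [], [2, 4]), (4, [], [0])]),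
  (-96, 0, 1, [(0, [0], [3, 5]), (0, [1], [1, 5]), (1, [], [2, 0]), (4, [], [4])]),
  (96, 0, 1, [(0, [0], [3, 5]), (0, [1], [2, 5]), (1, [], [1, 4]), (4, [], [0])]),
  (-96, 0, 1, [(0, [0], [3, 5]), (0, [1], [2, 5]), (1, [], [1, 0]), (4, [], [4])]),
  (-192, 0, 1, [(0, [0], [3, 5]), (0, [1], [4, 5]), (1, [], [1, 0]), (4, [], [2])]),
  (-192, 0, 1, [(0, [0], [3, 5]), (0, [1], [4, 5]), (1, [], [2, 0]), (4, [], [1])]),
  (-192, 0, 1, [(0, [0], [4, 5]), (0, [1], [1, 5]), (1, [], [0, 3]), (4, [], [2])]),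
  (-192, 0, 1, [(0, [0], [4, 5]), (0, [1], [1, 5]), (1, [], [0, 2]), (4, [], [3])]),
  (-96, 0, 1, [(0, [0], [4, 5]), (0, [1], [1, 5]), (1, [], [2, 3]), (4, [], [0])]),
  (-192, 0, 1, [(0, [0], [4, 5]), (0, [1], [2, 5]), (1, [], [0, 3]), (4, [], [1])]),
  (-192, 0, 1, [(0, [0], [4, 5]), (0, [1], [2, 5]), (1, [], [0, 1]), (4, [], [3])]),
  (-96, 0, 1, [(0, [0], [4, 5]), (0, [1], [2, 5]), (1, [], [1, 3]), (4, [], [0])]),
  (-192, 0, 1, [(0, [0], [4, 5]), (0, [1], [3, 5]), (1, [], [0, 2]), (4, [], [1])]),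
  (-192, 0, 1, [(0, [0], [4, 5]), (0, [1], [3, 5]), (1, [], [0, 1]), (4, [], [2])]),
  (-96, 0, 1, [(0, [0], [4, 5]), (0, [1], [3, 5]), (1, [], [1, 2]), (4, [], [0])]),
  (96, 0, 1, [(0, [1], [0, 5]), (0, [0], [1, 5]), (1, [], [2, 3]), (4, [], [4])]),
  (96, 0, 1, [(0, [1], [0, 5]), (0, [0], [2, 5]), (1, [], [1, 3]), (4, [], [4])]),
  (96, 0, 1, [(0, [1], [0, 5]), (0, [0], [3, 5]), (1, [], [1, 2]), (4, [], [4])]),
  (-96, 0, 1, [(0, [1], [4, 5]), (0, [0], [1, 5]), (1, [], [2, 3]), (4, [], [0])]),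
  (-96, 0, 1, [(0, [1], [4, 5]), (0, [0], [2, 5]), (1, [], [1, 3]), (4, [], [0])]),
  (-96, 0, 1, [(0, [1], [4, 5]), (0, [0], [3, 5]), (1, [], [1, 2]), (4, [], [0])])]

def z57_1 : Cov := [(0, 0, 1, [(0, [0], [0, 5]), (0, [1], [4, 5]), (1, [], [1, 3]), (4, [], [2])]),
  (0, 0, 1, [(0, [0], [0, 5]), (0, [1], [4, 5]), (1, [], [1, 2]), (4, [], [3])]),
  (0, 0, 1, [(0, [0], [0, 5]), (0, [1], [4, 5]), (1, [], [2, 3]), (4, [], [1])]),
  (0, 0, 1, [(0, [0], [1, 5]), (0, [1], [2, 5]), (1, [], [0, 4]), (4, [], [3])]),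
  (0, 0, 1, [(0, [0], [1, 5]), (0, [1], [3, 5]), (1, [], [0, 4]), (4, [], [2])]),
  (0, 0, 1, [(0, [0], [2, 5]), (0, [1], [1, 5]), (1, [], [0, 4]), (4, [], [3])]),
  (0, 0, 1, [(0, [0], [2, 5]), (0, [1], [3, 5]), (1, [], [0, 4]), (4, [], [1])]),
  (0, 0, 1, [(0, [0], [3, 5]), (0, [1], [1, 5]), (1, [], [0, 4]), (4, [], [2])]),
  (0, 0, 1, [(0, [0], [3, 5]), (0, [1], [2, 5]), (1, [], [0, 4]), (4, [], [1])]),
  (0, 0, 1, [(0, [0], [4, 5]), (0, [1], [0, 5]), (1, [], [1, 3]), (4, [], [2])]),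
  (0, 0, 1, [(0, [0], [4, 5]), (0, [1], [0, 5]), (1, [], [1, 2]), (4, [], [3])]),
  (0, 0, 1, [(0, [0], [4, 5]), (0, [1], [0, 5]), (1, [], [2, 3]), (4, [], [1])])]

def w57_1 : List (List Wit) := [[(0, 0, 0, 0, 0), (1, 0, 0, 0, 0), (2, 0, 0, 0, 0), (1, 0, 0, 0, 0), (2, 0, 0, 0, 0), (0, 0, 0, 0, 0), (3, 0, 0, 0, 0), (4, 0, 0, 0, 0), (5, 0, 0, 0, 0), (4, 0, 0, 0, 0), (5, 0, 0, 0, 0), (3, 0, 0, 0, 0), (6, 0, 0, 0, 0), (7, 0, 0, 0, 0), (8, 0, 0, 0, 0), (7, 0, 0, 0, 0), (8, 0, 0, 0, 0), (6, 0, 0, 0, 0), (48, 0, 0, 0, 0), (49, 0, 0, 0, 0), (50, 0, 0, 0, 0), (49, 0, 0, 0, 0), (50, 0, 0, 0, 0), (48, 0, 0, 0, 0), (9, 0, 0, 0, 0), (10, 0, 0, 0, 0), (51, 0, 0, 0, 0), (11, 0, 0, 0, 0), (12, 0, 0, 0, 0), (51, 0, 0, 0, 0), (52, 0, 0, 0, 0), (13, 0, 0, 0, 0), (14, 0, 0, 0, 0), (52, 0, 0, 0, 0), (15, 0, 0, 0, 0), (16, 0, 0, 0, 0), (17, 0, 0, 0, 0), (18, 0, 0, 0, 0), (53, 0, 0, 0, 0), (19, 0, 0, 0, 0),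 (20, 0, 0, 0, 0), (53, 0, 0, 0, 0), (54, 0, 0, 0, 0), (21, 0, 0, 0, 0), (22, 0, 0, 0, 0), (54, 0, 0, 0, 0), (23, 0, 0, 0, 0), (24, 0, 0, 0, 0), (25, 0, 0, 0, 0), (26, 0, 0, 0, 0), (55, 0, 0, 0, 0), (27, 0, 0, 0, 0), (28, 0, 0, 0, 0), (55, 0, 0, 0, 0), (56, 0, 0, 0, 0), (29, 0, 0, 0, 0), (30, 0, 0, 0, 0), (56, 0, 0, 0, 0), (31, 0, 0, 0, 0), (32, 0, 0, 0, 0), (57, 0, 0, 0, 0), (58, 0, 0, 0, 0), (59, 0, 0, 0, 0), (58, 0, 0, 0, 0), (59, 0, 0, 0, 0), (57, 0, 0, 0, 0), (33, 0, 0, 0, 0), (34, 0, 0, 0, 0), (35, 0, 0, 0, 0), (34, 0, 0, 0, 0), (35, 0, 0, 0, 0), (33, 0, 0, 0, 0), (36, 0, 0, 0, 0), (37, 0, 0, 0, 0), (38, 0, 0, 0, 0), (37, 0, 0, 0, 0), (38, 0, 0, 0, 0), (36, 0, 0, 0, 0), (39, 0, 0, 0, 0), (40, 0, 0, 0, 0), (41, 0, 0, 0, 0), (40, 0, 0, 0, 0), (41, 0, 0, 0, 0), (39, 0, 0, 0, 0)],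
  [(9, 0, 0, 0, 0), (42, 0, 0, 0, 0), (10, 0, 0, 0, 0), (42, 0, 0, 0, 0), (10, 0, 0, 0, 0), (9, 0, 0, 0, 0), (17, 0, 0, 0, 0), (43, 0, 0, 0, 0), (18, 0, 0, 0, 0), (43, 0, 0, 0, 0), (18, 0, 0, 0, 0), (17, 0, 0, 0, 0), (25, 0, 0, 0, 0), (44, 0, 0, 0, 0), (26, 0, 0, 0, 0), (44, 0, 0, 0, 0), (26, 0, 0, 0, 0), (25, 0, 0, 0, 0), (57, 0, 0, 0, 0), (58, 0, 0, 0, 0), (59, 0, 0, 0, 0), (58, 0, 0, 0, 0), (59, 0, 0, 0, 0), (57, 0, 0, 0, 0), (0, 0, 0, 0, 0), (2, 0, 0, 0, 0), (53, 0, 0, 0, 0), (19, 0, 0, 0, 0), (20, 0, 0, 0, 0), (53, 0, 0, 0, 0), (55, 0, 0, 0, 0), (27, 0, 0, 0, 0), (28, 0, 0, 0, 0), (55, 0, 0, 0, 0), (34, 0, 0, 0, 0), (33, 0, 0, 0, 0), (3, 0, 0, 0, 0), (5, 0, 0, 0, 0), (51, 0, 0, 0, 0), (11, 0, 0, 0, 0), (12, 0, 0, 0, 0), (51, 0, 0, 0, 0), (56, 0, 0, 0, 0), (29, 0, 0, 0, 0), (30, 0, 0, 0, 0), (56, 0, 0, 0, 0), (37, 0, 0, 0, 0), (36, 0, 0, 0, 0), (6, 0, 0, 0, 0), (8, 0, 0, 0, 0), (52,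 0, 0, 0, 0), (13, 0, 0, 0, 0), (14, 0, 0, 0, 0), (52, 0, 0, 0, 0), (54, 0, 0, 0, 0), (21, 0, 0, 0, 0), (22, 0, 0, 0, 0), (54, 0, 0, 0, 0), (40, 0, 0, 0, 0), (39, 0, 0, 0, 0), (48, 0, 0, 0, 0), (49, 0, 0, 0, 0), (50, 0, 0, 0, 0), (49, 0, 0, 0, 0), (50, 0, 0, 0, 0), (48, 0, 0, 0, 0), (16, 0, 0, 0, 0), (15, 0, 0, 0, 0), (45, 0, 0, 0, 0), (15, 0, 0, 0, 0), (45, 0, 0, 0, 0), (16, 0, 0, 0, 0), (24, 0, 0, 0, 0), (23, 0, 0, 0, 0), (46, 0, 0, 0, 0), (23, 0, 0, 0, 0), (46, 0, 0, 0, 0), (24, 0, 0, 0, 0), (32, 0, 0, 0, 0), (31, 0, 0, 0, 0), (47, 0, 0, 0, 0), (31, 0, 0, 0, 0), (47, 0, 0, 0, 0), (32, 0, 0, 0, 0)]]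

def m57_2 : Base := (0, 1, [(0, [0], [0, 5]), (0, [1], [1, 2]), (1, [], [3, 5]), (4, [], [4])])

def l57_2 : Cov := [(192, 0, 1, [(0, [0], [0, 5]), (0, [1], [1, 2]), (1, [], [3, 5]), (4, [], [4])]),
  (96, 0, 1, [(0, [0], [0, 5]), (0, [1], [1, 2]), (1, [], [4, 5]), (4, [], [3])]),
  (192, 0, 1, [(0, [0], [0, 5]), (0, [1], [1, 3]), (1, [], [2, 5]), (4, [], [4])]),
  (96, 0, 1, [(0, [0], [0, 5]), (0, [1], [1, 3]), (1, [], [4, 5]), (4, [], [2])]),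
  (96, 0, 1, [(0, [0], [0, 5]), (0, [1], [1, 4]), (1, [], [2, 5]), (4, [], [3])]),
  (96, 0, 1, [(0, [0], [0, 5]), (0, [1], [1, 4]), (1, [], [3, 5]), (4, [], [2])]),
  (192, 0, 1, [(0, [0], [0, 5]), (0, [1], [2, 3]), (1, [], [1, 5]), (4, [], [4])]),
  (96, 0, 1, [(0, [0], [0, 5]), (0, [1], [2, 3]), (1, [], [4, 5]), (4, [], [1])]),
  (96, 0, 1, [(0, [0], [0, 5]), (0, [1], [2, 4]), (1, [], [1, 5]), (4, [], [3])]),
  (96, 0, 1, [(0, [0], [0, 5]), (0, [1], [2, 4]), (1, [], [3, 5]), (4, [], [1])]),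
  (96, 0, 1, [(0, [0], [0, 5]), (0, [1], [3, 4]), (1, [], [1, 5]), (4, [], [2])]),
  (96, 0, 1, [(0, [0], [0, 5]), (0, [1], [3, 4]), (1, [], [2, 5]), (4, [], [1])]),
  (96, 0, 1, [(0, [0], [1, 5]), (0, [1], [0, 2]), (1, [], [3, 5]), (4, [], [4])]),
  (96, 0, 1, [(0, [0], [1, 5]), (0, [1], [0, 3]), (1, [], [2, 5]), (4, [], [4])]),
  (96, 0, 1, [(0, [0], [1, 5]), (0, [1], [2, 3]), (1, [], [0, 5]), (4, [], [4])]),
  (-96, 0, 1, [(0, [0], [1, 5]), (0, [1], [2, 3]), (1, [], [4, 5]), (4, [], [0])]),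
  (-96, 0, 1, [(0, [0], [1, 5]), (0, [1], [2, 4]), (1, [], [3, 5]), (4, [], [0])]),
  (-96, 0, 1, [(0, [0], [1, 5]), (0, [1], [3, 4]), (1, [], [2, 5]), (4, [], [0])]),
  (96, 0, 1, [(0, [0], [2, 5]), (0, [1], [0, 1]), (1, [], [3, 5]), (4, [], [4])]),
  (96, 0, 1, [(0, [0], [2, 5]), (0, [1], [0, 3]), (1, [], [1, 5]), (4, [], [4])]),
  (96, 0, 1, [(0, [0], [2, 5]), (0, [1], [1, 3]), (1, [], [0, 5]), (4, [], [4])]),
  (-96, 0, 1, [(0, [0], [2, 5]), (0, [1], [1, 3]), (1, [], [4, 5]), (4, [], [0])]),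
  (-96, 0, 1, [(0, [0], [2, 5]), (0, [1], [1, 4]), (1, [], [3, 5]), (4, [], [0])]),
  (-96, 0, 1, [(0, [0], [2, 5]), (0, [1], [3, 4]), (1, [], [1, 5]), (4, [], [0])]),
  (96, 0, 1, [(0, [0], [3, 5]), (0, [1], [0, 1]), (1, [], [2, 5]), (4, [], [4])]),
  (96, 0, 1, [(0, [0], [3, 5]), (0, [1], [0, 2]), (1, [], [1, 5]), (4, [], [4])]),
  (96, 0, 1, [(0, [0], [3, 5]), (0, [1], [1, 2]), (1, [], [0, 5]), (4, [], [4])]),
  (-96, 0, 1, [(0, [0], [3, 5]), (0, [1], [1, 2]), (1, [], [4, 5]), (4, [], [0])]),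
  (-96, 0, 1, [(0, [0], [3, 5]), (0, [1], [1, 4]), (1, [], [2, 5]), (4, [], [0])]),
  (-96, 0, 1, [(0, [0], [3, 5]), (0, [1], [2, 4]), (1, [], [1, 5]), (4, [], [0])]),
  (-96, 0, 1, [(0, [0], [4, 5]), (0, [1], [0, 1]), (1, [], [2, 5]), (4, [], [3])]),
  (-96, 0, 1, [(0, [0], [4, 5]), (0, [1], [0, 1]), (1, [], [3, 5]), (4, [], [2])]),
  (-96, 0, 1, [(0, [0], [4, 5]), (0, [1], [0, 2]), (1, [], [1, 5]), (4, [], [3])]),
  (-96, 0, 1, [(0, [0], [4, 5]), (0, [1], [0, 2]), (1, [], [3, 5]), (4, [], [1])]),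
  (-96, 0, 1, [(0, [0], [4, 5]), (0, [1], [0, 3]), (1, [], [1, 5]), (4, [], [2])]),
  (-96, 0, 1, [(0, [0], [4, 5]), (0, [1], [0, 3]), (1, [], [2, 5]), (4, [], [1])]),
  (-96, 0, 1, [(0, [0], [4, 5]), (0, [1], [1, 2]), (1, [], [0, 5]), (4, [], [3])]),
  (-192, 0, 1, [(0, [0], [4, 5]), (0, [1], [1, 2]), (1, [], [3, 5]), (4, [], [0])]),
  (-96, 0, 1, [(0, [0], [4, 5]), (0, [1], [1, 3]), (1, [], [0, 5]), (4, [], [2])]),
  (-192, 0, 1, [(0, [0], [4, 5]), (0, [1], [1, 3]), (1, [], [2, 5]), (4, [], [0])]),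
  (-96, 0, 1, [(0, [0], [4, 5]), (0, [1], [2, 3]), (1, [], [0, 5]), (4, [], [1])]),
  (-192, 0, 1, [(0, [0], [4, 5]), (0, [1], [2, 3]), (1, [], [1, 5]), (4, [], [0])]),
  (192, 0, 1, [(0, [1], [0, 5]), (0, [0], [1, 2]), (1, [], [3, 5]), (4, [], [4])]),
  (96, 0, 1, [(0, [1], [0, 5]), (0, [0], [1, 2]), (1, [], [4, 5]), (4, [], [3])]),
  (192, 0, 1, [(0, [1], [0, 5]), (0, [0], [1, 3]), (1, [], [2, 5]), (4, [], [4])]),
  (96, 0, 1, [(0, [1], [0, 5]), (0, [0], [1, 3]), (1, [], [4, 5]), (4, [], [2])]),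
  (96, 0, 1, [(0, [1], [0, 5]), (0, [0], [1, 4]), (1, [], [2, 5]), (4, [], [3])]),
  (96, 0, 1, [(0, [1], [0, 5]), (0, [0], [1, 4]), (1, [], [3, 5]), (4, [], [2])]),
  (192, 0, 1, [(0, [1], [0, 5]), (0, [0], [2, 3]), (1, [], [1, 5]), (4, [], [4])]),
  (96, 0, 1, [(0, [1], [0, 5]), (0, [0], [2, 3]), (1, [], [4, 5]), (4, [], [1])]),
  (96, 0, 1, [(0, [1], [0, 5]), (0, [0], [2, 4]), (1, [], [1, 5]), (4, [], [3])]),
  (96, 0, 1, [(0, [1], [0, 5]), (0, [0], [2, 4]), (1, [], [3, 5]), (4, [], [1])]),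
  (96, 0, 1, [(0, [1], [0, 5]), (0, [0], [3, 4]), (1, [], [1, 5]), (4, [], [2])]),
  (96, 0, 1, [(0, [1], [0, 5]), (0, [0], [3, 4]), (1, [], [2, 5]), (4, [], [1])]),
  (96, 0, 1, [(0, [1], [1, 5]), (0, [0], [0, 2]), (1, [], [3, 5]), (4, [], [4])]),
  (96, 0, 1, [(0, [1], [1, 5]), (0, [0], [0, 3]), (1, [], [2, 5]), (4, [], [4])]),
  (96, 0, 1, [(0, [1], [1, 5]), (0, [0], [2, 3]), (1, [], [0, 5]), (4, [], [4])]),
  (-96, 0, 1, [(0, [1], [1, 5]), (0, [0], [2, 3]), (1, [], [4, 5]), (4, [], [0])]),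
  (-96, 0, 1, [(0, [1], [1, 5]), (0, [0], [2, 4]), (1, [], [3, 5]), (4, [], [0])]),
  (-96, 0, 1, [(0, [1], [1, 5]), (0, [0], [3, 4]), (1, [], [2, 5]), (4, [], [0])]),
  (96, 0, 1, [(0, [1], [2, 5]), (0, [0], [0, 1]), (1, [], [3, 5]), (4, [], [4])]),
  (96, 0, 1, [(0, [1], [2, 5]), (0, [0], [0, 3]), (1, [], [1, 5]), (4, [], [4])]),
  (96, 0, 1, [(0, [1], [2, 5]), (0, [0], [1, 3]), (1, [], [0, 5]), (4, [], [4])]),
  (-96, 0, 1, [(0, [1], [2, 5]), (0, [0], [1, 3]), (1, [], [4, 5]), (4, [], [0])]),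
  (-96, 0, 1, [(0, [1], [2, 5]), (0, [0], [1, 4]), (1, [], [3, 5]), (4, [], [0])]),
  (-96, 0, 1, [(0, [1], [2, 5]), (0, [0], [3, 4]), (1, [], [1, 5]), (4, [], [0])]),
  (96, 0, 1, [(0, [1], [3, 5]), (0, [0], [0, 1]), (1, [], [2, 5]), (4, [], [4])]),
  (96, 0, 1, [(0, [1], [3, 5]), (0, [0], [0, 2]), (1, [], [1, 5]), (4, [], [4])]),
  (96, 0, 1, [(0, [1], [3, 5]), (0, [0], [1, 2]), (1, [], [0, 5]), (4, [], [4])]),
  (-96, 0, 1, [(0, [1], [3, 5]), (0, [0], [1, 2]), (1, [], [4, 5]), (4, [], [0])]),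
  (-96, 0, 1, [(0, [1], [3, 5]), (0, [0], [1, 4]), (1, [], [2, 5]), (4, [], [0])]),
  (-96, 0, 1, [(0, [1], [3, 5]), (0, [0], [2, 4]), (1, [], [1, 5]), (4, [], [0])]),
  (-96, 0, 1, [(0, [1], [4, 5]), (0, [0], [0, 1]), (1, [], [2, 5]), (4, [], [3])]),
  (-96, 0, 1, [(0, [1], [4, 5]), (0, [0], [0, 1]), (1, [], [3, 5]), (4, [], [2])]),
  (-96, 0, 1, [(0, [1], [4, 5]), (0, [0], [0, 2]), (1, [], [1, 5]), (4, [], [3])]),
  (-96, 0, 1, [(0, [1], [4, 5]), (0, [0], [0, 2]), (1, [], [3, 5]), (4, [], [1])]),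
  (-96, 0, 1, [(0, [1], [4, 5]), (0, [0], [0, 3]), (1, [], [1, 5]), (4, [], [2])]),
  (-96, 0, 1, [(0, [1], [4, 5]), (0, [0], [0, 3]), (1, [], [2, 5]), (4, [], [1])]),
  (-96, 0, 1, [(0, [1], [4, 5]), (0, [0], [1, 2]), (1, [], [0, 5]), (4, [], [3])]),
  (-192, 0, 1, [(0, [1], [4, 5]), (0, [0], [1, 2]), (1, [], [3, 5]), (4, [], [0])]),
  (-96, 0, 1, [(0, [1], [4, 5]), (0, [0], [1, 3]), (1, [], [0, 5]), (4, [], [2])]),
  (-192, 0, 1, [(0, [1], [4, 5]), (0, [0], [1, 3]), (1, [], [2, 5]), (4, [], [0])]),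
  (-96, 0, 1, [(0, [1], [4, 5]), (0, [0], [2, 3]), (1, [], [0, 5]), (4, [], [1])]),
  (-192, 0, 1, [(0, [1], [4, 5]), (0, [0], [2, 3]), (1, [], [1, 5]), (4, [], [0])])]

def z57_2 : Cov := []

def w57_2 : List (List Wit) := [[(0, 0, 0, 0, 0), (1, 0, 0, 0, 0), (2, 0, 0, 0, 0), (3, 0, 0, 0, 0), (4, 0, 0, 0, 0), (5, 0, 0, 0, 0), (0, 0, 0, 0, 0), (1, 0, 0, 0, 0), (6, 0, 0, 0, 0), (7, 0, 0, 0, 0), (8, 0, 0, 0, 0), (9, 0, 0, 0, 0), (2, 0, 0, 0, 0), (3, 0, 0, 0, 0), (6, 0, 0, 0, 0), (7, 0, 0, 0, 0), (10, 0, 0, 0, 0), (11, 0, 0, 0, 0), (4, 0, 0, 0, 0), (5, 0, 0, 0, 0), (8, 0, 0, 0, 0), (9, 0, 0, 0, 0), (10, 0, 0, 0, 0), (11, 0, 0, 0, 0), (12, 0, 0, 0, 0), (13, 0, 0, 0, 0), (12, 0, 0, 0, 0), (14, 0, 0, 0, 0), (15, 0, 0, 0, 0), (16, 0, 0, 0, 0), (13, 0, 0, 0, 0), (14, 0, 0, 0, 0), (15, 0, 0, 0, 0), (17, 0, 0, 0, 0), (16, 0, 0, 0, 0), (17, 0, 0, 0, 0), (18, 0, 0, 0, 0), (19, 0, 0, 0, 0), (18, 0,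 0, 0, 0), (20, 0, 0, 0, 0), (21, 0, 0, 0, 0), (22, 0, 0, 0, 0), (19, 0, 0, 0, 0), (20, 0, 0, 0, 0), (21, 0, 0, 0, 0), (23, 0, 0, 0, 0), (22, 0, 0, 0, 0), (23, 0, 0, 0, 0), (24, 0, 0, 0, 0), (25, 0, 0, 0, 0), (24, 0, 0, 0, 0), (26, 0, 0, 0, 0), (27, 0, 0, 0, 0), (28, 0, 0, 0, 0), (25, 0, 0, 0, 0), (26, 0, 0, 0, 0), (27, 0, 0, 0, 0), (29, 0, 0, 0, 0), (28, 0, 0, 0, 0), (29, 0, 0, 0, 0), (30, 0, 0, 0, 0), (31, 0, 0, 0, 0), (32, 0, 0, 0, 0), (33, 0, 0, 0, 0), (34, 0, 0, 0, 0), (35, 0, 0, 0, 0), (30, 0, 0, 0, 0), (31, 0, 0, 0, 0), (36, 0, 0, 0, 0), (37, 0, 0, 0, 0), (38, 0, 0, 0, 0), (39, 0, 0, 0, 0), (32, 0, 0, 0, 0), (33, 0, 0, 0, 0), (36, 0, 0, 0, 0), (37, 0, 0, 0, 0), (40, 0, 0, 0, 0), (41, 0, 0, 0, 0), (34, 0, 0, 0, 0), (35, 0, 0, 0, 0), (38, 0, 0, 0, 0), (39, 0, 0, 0, 0), (40, 0, 0, 0, 0), (41, 0, 0, 0, 0)],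
  [(42, 0, 0, 0, 0), (43, 0, 0, 0, 0), (44, 0, 0, 0, 0), (45, 0, 0, 0, 0), (46, 0, 0, 0, 0), (47, 0, 0, 0, 0), (42, 0, 0, 0, 0), (43, 0, 0, 0, 0), (48, 0, 0, 0, 0), (49, 0, 0, 0, 0), (50, 0, 0, 0, 0), (51, 0, 0, 0, 0), (44, 0, 0, 0, 0), (45, 0, 0, 0, 0), (48, 0, 0, 0, 0), (49, 0, 0, 0, 0), (52, 0, 0, 0, 0), (53, 0, 0, 0, 0), (46, 0, 0, 0, 0), (47, 0, 0, 0, 0), (50, 0, 0, 0, 0), (51, 0, 0, 0, 0), (52, 0, 0, 0, 0), (53, 0, 0, 0, 0), (54, 0, 0, 0, 0), (55, 0, 0, 0, 0), (54, 0, 0, 0, 0), (56, 0, 0, 0, 0), (57, 0, 0, 0, 0), (58, 0, 0, 0, 0), (55, 0, 0, 0, 0), (56, 0, 0, 0, 0), (57, 0, 0, 0, 0), (59, 0, 0, 0, 0), (58, 0, 0, 0, 0), (59, 0, 0, 0, 0), (60, 0, 0, 0, 0), (61, 0, 0, 0, 0), (60, 0, 0, 0, 0), (62, 0, 0, 0, 0), (63, 0, 0, 0, 0), (64, 0, 0, 0, 0), (61, 0, 0, 0, 0), (62, 0, 0, 0, 0), (63, 0, 0, 0, 0), (65, 0, 0, 0, 0), (64, 0, 0, 0, 0), (65, 0, 0, 0, 0), (66, 0, 0, 0, 0), (67, 0, 0, 0,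 0), (66, 0, 0, 0, 0), (68, 0, 0, 0, 0), (69, 0, 0, 0, 0), (70, 0, 0, 0, 0), (67, 0, 0, 0, 0), (68, 0, 0, 0, 0), (69, 0, 0, 0, 0), (71, 0, 0, 0, 0), (70, 0, 0, 0, 0), (71, 0, 0, 0, 0), (72, 0, 0, 0, 0), (73, 0, 0, 0, 0), (74, 0, 0, 0, 0), (75, 0, 0, 0, 0), (76, 0, 0, 0, 0), (77, 0, 0, 0, 0), (72, 0, 0, 0, 0), (73, 0, 0, 0, 0), (78, 0, 0, 0, 0), (79, 0, 0, 0, 0), (80, 0, 0, 0, 0), (81, 0, 0, 0, 0), (74, 0, 0, 0, 0), (75, 0, 0, 0, 0), (78, 0, 0, 0, 0), (79, 0, 0, 0, 0), (82, 0, 0, 0, 0), (83, 0, 0, 0, 0), (76, 0, 0, 0, 0), (77, 0, 0, 0, 0), (80, 0, 0, 0, 0), (81, 0, 0, 0, 0), (82, 0, 0, 0, 0), (83, 0, 0, 0, 0)]]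

def m57_3 : Base := (0, 1, [(0, [0], [0, 5]), (0, [1], [1, 2]), (1, [], [3, 4]), (4, [], [5])])

def l57_3 : Cov := [(288, 0, 1, [(0, [0], [0, 5]), (0, [1], [1, 2]), (1, [], [3, 4]), (4, [], [5])]),
  (288, 0, 1, [(0, [0], [0, 5]), (0, [1], [1, 3]), (1, [], [2, 4]), (4, [], [5])]),
  (192, 0, 1, [(0, [0], [0, 5]), (0, [1], [1, 4]), (1, [], [2, 3]), (4, [], [5])]),
  (288, 0, 1, [(0, [0], [0, 5]), (0, [1], [2, 3]), (1, [], [1, 4]), (4, [], [5])]),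
  (192, 0, 1, [(0, [0], [0, 5]), (0, [1], [2, 4]), (1, [], [1, 3]), (4, [], [5])]),
  (192, 0, 1, [(0, [0], [0, 5]), (0, [1], [3, 4]), (1, [], [1, 2]), (4, [], [5])]),
  (96, 0, 1, [(0, [0], [1, 5]), (0, [1], [0, 2]), (1, [], [3, 4]), (4, [], [5])]),
  (96, 0, 1, [(0, [0], [1, 5]), (0, [1], [0, 3]), (1, [], [2, 4]), (4, [], [5])]),
  (-96, 0, 1, [(0, [0], [1, 5]), (0, [1], [2, 4]), (1, [], [3, 0]), (4, [], [5])]),
  (-96, 0, 1, [(0, [0], [1, 5]), (0, [1], [3, 4]), (1, [], [2, 0]), (4, [], [5])]),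
  (96, 0, 1, [(0, [0], [2, 5]), (0, [1], [0, 1]), (1, [], [3, 4]), (4, [], [5])]),
  (96, 0, 1, [(0, [0], [2, 5]), (0, [1], [0, 3]), (1, [], [1, 4]), (4, [], [5])]),
  (-96, 0, 1, [(0, [0], [2, 5]), (0, [1], [1, 4]), (1, [], [3, 0]), (4, [], [5])]),
  (-96, 0, 1, [(0, [0], [2, 5]), (0, [1], [3, 4]), (1, [], [1, 0]), (4, [], [5])]),
  (96, 0, 1, [(0, [0], [3, 5]), (0, [1], [0, 1]), (1, [], [2, 4]), (4, [], [5])]),
  (96, 0, 1, [(0, [0], [3, 5]), (0, [1], [0, 2]), (1, [], [1, 4]), (4, [], [5])]),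
  (-96, 0, 1, [(0, [0], [3, 5]), (0, [1], [1, 4]), (1, [], [2, 0]), (4, [], [5])]),
  (-96, 0, 1, [(0, [0], [3, 5]), (0, [1], [2, 4]), (1, [], [1, 0]), (4, [], [5])]),
  (-192, 0, 1, [(0, [0], [4, 5]), (0, [1], [0, 1]), (1, [], [2, 3]), (4, [], [5])]),
  (-192, 0, 1, [(0, [0], [4, 5]), (0, [1], [0, 2]), (1, [], [1, 3]), (4, [], [5])]),
  (-192, 0, 1, [(0, [0], [4, 5]), (0, [1], [0, 3]), (1, [], [1, 2]), (4, [], [5])]),
  (-288, 0, 1, [(0, [0], [4, 5]), (0, [1], [1, 2]), (1, [], [0, 3]), (4, [], [5])]),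
  (-288, 0, 1, [(0, [0], [4, 5]), (0, [1], [1, 3]), (1, [], [0, 2]), (4, [], [5])]),
  (-288, 0, 1, [(0, [0], [4, 5]), (0, [1], [2, 3]), (1, [], [0, 1]), (4, [], [5])]),
  (288, 0, 1, [(0, [1], [0, 5]), (0, [0], [1, 2]), (1, [], [3, 4]), (4, [], [5])]),
  (288, 0, 1, [(0, [1], [0, 5]), (0, [0], [1, 3]), (1, [], [2, 4]), (4, [], [5])]),
  (192, 0, 1, [(0, [1], [0, 5]), (0, [0], [1, 4]), (1, [], [2, 3]), (4, [], [5])]),
  (288, 0, 1, [(0, [1], [0, 5]), (0, [0], [2, 3]), (1, [], [1, 4]), (4, [], [5])]),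
  (192, 0, 1, [(0, [1], [0, 5]), (0, [0], [2, 4]), (1, [], [1, 3]), (4, [], [5])]),
  (192, 0, 1, [(0, [1], [0, 5]), (0, [0], [3, 4]), (1, [], [1, 2]), (4, [], [5])]),
  (96, 0, 1, [(0, [1], [1, 5]), (0, [0], [0, 2]), (1, [], [3, 4]), (4, [], [5])]),
  (96, 0, 1, [(0, [1], [1, 5]), (0, [0], [0, 3]), (1, [], [2, 4]), (4, [], [5])]),
  (-96, 0, 1, [(0, [1], [1, 5]), (0, [0], [2, 4]), (1, [], [3, 0]), (4, [], [5])]),
  (-96, 0, 1, [(0, [1], [1, 5]), (0, [0], [3, 4]), (1, [], [2, 0]), (4, [], [5])]),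
  (96, 0, 1, [(0, [1], [2, 5]), (0, [0], [0, 1]), (1, [], [3, 4]), (4, [], [5])]),
  (96, 0, 1, [(0, [1], [2, 5]), (0, [0], [0, 3]), (1, [], [1, 4]), (4, [], [5])]),
  (-96, 0, 1, [(0, [1], [2, 5]), (0, [0], [1, 4]), (1, [], [3, 0]), (4, [], [5])]),
  (-96, 0, 1, [(0, [1], [2, 5]), (0, [0], [3, 4]), (1, [], [1, 0]), (4, [], [5])]),
  (96, 0, 1, [(0, [1], [3, 5]), (0, [0], [0, 1]), (1, [], [2, 4]), (4, [], [5])]),
  (96, 0, 1, [(0, [1], [3, 5]), (0, [0], [0, 2]), (1, [], [1, 4]), (4, [], [5])]),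
  (-96, 0, 1, [(0, [1], [3, 5]), (0, [0], [1, 4]), (1, [], [2, 0]), (4, [], [5])]),
  (-96, 0, 1, [(0, [1], [3, 5]), (0, [0], [2, 4]), (1, [], [1, 0]), (4, [], [5])]),
  (-192, 0, 1, [(0, [1], [4, 5]), (0, [0], [0, 1]), (1, [], [2, 3]), (4, [], [5])]),
  (-192, 0, 1, [(0, [1], [4, 5]), (0, [0], [0, 2]), (1, [], [1, 3]), (4, [], [5])]),
  (-192, 0, 1, [(0, [1], [4, 5]), (0, [0], [0, 3]), (1, [], [1, 2]), (4, [], [5])]),
  (-288, 0, 1, [(0, [1], [4, 5]), (0, [0], [1, 2]), (1, [], [0, 3]), (4, [], [5])]),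
  (-288, 0, 1, [(0, [1], [4, 5]), (0, [0], [1, 3]), (1, [], [0, 2]), (4, [], [5])]),
  (-288, 0, 1, [(0, [1], [4, 5]), (0, [0], [2, 3]), (1, [], [0, 1]), (4, [], [5])])]

def z57_3 : Cov := [(0, 0, 1, [(0, [0], [1, 5]), (0, [1], [2, 3]), (1, [], [0, 4]), (4, [], [5])]),
  (0, 0, 1, [(0, [0], [2, 5]), (0, [1], [1, 3]), (1, [], [0, 4]), (4, [], [5])]),
  (0, 0, 1, [(0, [0], [3, 5]), (0, [1], [1, 2]), (1, [], [0, 4]), (4, [], [5])]),
  (0, 0, 1, [(0, [1], [1, 5]), (0, [0], [2, 3]), (1, [], [0, 4]), (4, [], [5])]),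
  (0, 0, 1, [(0, [1], [2, 5]), (0, [0], [1, 3]), (1, [], [0, 4]), (4, [], [5])]),
  (0, 0, 1, [(0, [1], [3, 5]), (0, [0], [1, 2]), (1, [], [0, 4]), (4, [], [5])])]

def w57_3 : List (List Wit) := [[(0, 0, 0, 0, 0), (0, 0, 0, 0, 0), (1, 0, 0, 0, 0), (1, 0, 0, 0, 0), (2, 0, 0, 0, 0), (2, 0, 0, 0, 0), (0, 0, 0, 0, 0), (0, 0, 0, 0, 0), (3, 0, 0, 0, 0), (3, 0, 0, 0, 0), (4, 0, 0, 0, 0), (4, 0, 0, 0, 0), (1, 0, 0, 0, 0), (1, 0, 0, 0, 0), (3, 0, 0, 0, 0), (3, 0, 0, 0, 0), (5, 0, 0, 0, 0), (5, 0, 0, 0, 0), (2, 0, 0, 0, 0), (2, 0, 0, 0, 0), (4, 0, 0, 0, 0), (4, 0, 0, 0, 0), (5, 0, 0, 0, 0), (5, 0, 0, 0, 0), (6, 0, 0, 0, 0), (7, 0, 0, 0, 0), (6, 0, 0, 0, 0), (48, 0, 0, 0, 0), (48, 0, 0, 0, 0), (8, 0, 0, 0, 0), (7, 0, 0, 0, 0), (48, 0, 0, 0, 0), (48, 0, 0, 0, 0), (9, 0, 0, 0, 0), (8, 0, 0, 0, 0), (9, 0, 0, 0, 0), (10, 0, 0, 0, 0), (11, 0, 0, 0, 0), (10, 0, 0, 0, 0), (49, 0, 0, 0, 0), (49, 0, 0,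 0, 0), (12, 0, 0, 0, 0), (11, 0, 0, 0, 0), (49, 0, 0, 0, 0), (49, 0, 0, 0, 0), (13, 0, 0, 0, 0), (12, 0, 0, 0, 0), (13, 0, 0, 0, 0), (14, 0, 0, 0, 0), (15, 0, 0, 0, 0), (14, 0, 0, 0, 0), (50, 0, 0, 0, 0), (50, 0, 0, 0, 0), (16, 0, 0, 0, 0), (15, 0, 0, 0, 0), (50, 0, 0, 0, 0), (50, 0, 0, 0, 0), (17, 0, 0, 0, 0), (16, 0, 0, 0, 0), (17, 0, 0, 0, 0), (18, 0, 0, 0, 0), (18, 0, 0, 0, 0), (19, 0, 0, 0, 0), (19, 0, 0, 0, 0), (20, 0, 0, 0, 0), (20, 0, 0, 0, 0), (18, 0, 0, 0, 0), (18, 0, 0, 0, 0), (21, 0, 0, 0, 0), (21, 0, 0, 0, 0), (22, 0, 0, 0, 0), (22, 0, 0, 0, 0), (19, 0, 0, 0, 0), (19, 0, 0, 0, 0), (21, 0, 0, 0, 0), (21, 0, 0, 0, 0), (23, 0, 0, 0, 0), (23, 0, 0, 0, 0), (20, 0, 0, 0, 0), (20, 0, 0, 0, 0), (22, 0, 0, 0, 0), (22, 0, 0, 0, 0), (23, 0, 0, 0, 0), (23, 0, 0, 0, 0)],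
  [(24, 0, 0, 0, 0), (24, 0, 0, 0, 0), (25, 0, 0, 0, 0), (25, 0, 0, 0, 0), (26, 0, 0, 0, 0), (26, 0, 0, 0, 0), (24, 0, 0, 0, 0), (24, 0, 0, 0, 0), (27, 0, 0, 0, 0), (27, 0, 0, 0, 0), (28, 0, 0, 0, 0), (28, 0, 0, 0, 0), (25, 0, 0, 0, 0), (25, 0, 0, 0, 0), (27, 0, 0, 0, 0), (27, 0, 0, 0, 0), (29, 0, 0, 0, 0), (29, 0, 0, 0, 0), (26, 0, 0, 0, 0), (26, 0, 0, 0, 0), (28, 0, 0, 0, 0), (28, 0, 0, 0, 0), (29, 0, 0, 0, 0), (29, 0, 0, 0, 0), (30, 0, 0, 0, 0), (31, 0, 0, 0, 0), (30, 0, 0, 0, 0), (51, 0, 0, 0, 0), (51, 0, 0, 0, 0), (32, 0, 0, 0, 0), (31, 0, 0, 0, 0), (51, 0, 0, 0, 0), (51, 0, 0, 0, 0), (33, 0, 0, 0, 0), (32, 0, 0, 0, 0), (33, 0, 0, 0, 0), (34, 0, 0, 0, 0), (35, 0, 0, 0, 0), (34, 0, 0, 0, 0), (52, 0, 0, 0, 0), (52, 0, 0, 0, 0), (36, 0, 0, 0, 0), (35, 0, 0, 0, 0), (52, 0, 0, 0, 0), (52, 0, 0, 0, 0), (37, 0, 0, 0, 0), (36, 0, 0, 0, 0), (37, 0, 0, 0, 0), (38, 0, 0, 0, 0), (39, 0, 0, 0,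 0), (38, 0, 0, 0, 0), (53, 0, 0, 0, 0), (53, 0, 0, 0, 0), (40, 0, 0, 0, 0), (39, 0, 0, 0, 0), (53, 0, 0, 0, 0), (53, 0, 0, 0, 0), (41, 0, 0, 0, 0), (40, 0, 0, 0, 0), (41, 0, 0, 0, 0), (42, 0, 0, 0, 0), (42, 0, 0, 0, 0), (43, 0, 0, 0, 0), (43, 0, 0, 0, 0), (44, 0, 0, 0, 0), (44, 0, 0, 0, 0), (42, 0, 0, 0, 0), (42, 0, 0, 0, 0), (45, 0, 0, 0, 0), (45, 0, 0, 0, 0), (46, 0, 0, 0, 0), (46, 0, 0, 0, 0), (43, 0, 0, 0, 0), (43, 0, 0, 0, 0), (45, 0, 0, 0, 0), (45, 0, 0, 0, 0), (47, 0, 0, 0, 0), (47, 0, 0, 0, 0), (44, 0, 0, 0, 0), (44, 0, 0, 0, 0), (46, 0, 0, 0, 0), (46, 0, 0, 0, 0), (47, 0, 0, 0, 0), (47, 0, 0, 0, 0)]]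

def m57_4 : Base := (0, 1, [(0, [0], [0, 5]), (0, [1], [1, 2]), (1, [], [4, 5]), (4, [], [3])])

def l57_4 : Cov := [(192, 0, 1, [(0, [0], [0, 5]), (0, [1], [1, 2]), (1, [], [4, 5]), (4, [], [3])]),
  (96, 0, 1, [(0, [0], [0, 5]), (0, [1], [1, 2]), (1, [], [3, 5]), (4, [], [4])]),
  (192, 0, 1, [(0, [0], [0, 5]), (0, [1], [1, 3]), (1, [], [4, 5]), (4, [], [2])]),
  (96, 0, 1, [(0, [0], [0, 5]), (0, [1], [1, 3]), (1, [], [2, 5]), (4, [], [4])]),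
  (96, 0, 1, [(0, [0], [0, 5]), (0, [1], [1, 4]), (1, [], [3, 5]), (4, [], [2])]),
  (96, 0, 1, [(0, [0], [0, 5]), (0, [1], [1, 4]), (1, [], [2, 5]), (4, [], [3])]),
  (192, 0, 1, [(0, [0], [0, 5]), (0, [1], [2, 3]), (1, [], [4, 5]), (4, [], [1])]),
  (96, 0, 1, [(0, [0], [0, 5]), (0, [1], [2, 3]), (1, [], [1, 5]), (4, [], [4])]),
  (96, 0, 1, [(0, [0], [0, 5]), (0, [1], [2, 4]), (1, [], [3, 5]), (4, [], [1])]),
  (96, 0, 1, [(0, [0], [0, 5]), (0, [1], [2, 4]), (1, [], [1, 5]), (4, [], [3])]),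
  (96, 0, 1, [(0, [0], [0, 5]), (0, [1], [3, 4]), (1, [], [2, 5]), (4, [], [1])]),
  (96, 0, 1, [(0, [0], [0, 5]), (0, [1], [3, 4]), (1, [], [1, 5]), (4, [], [2])]),
  (96, 0, 1, [(0, [0], [1, 5]), (0, [1], [0, 2]), (1, [], [4, 5]), (4, [], [3])]),
  (96, 0, 1, [(0, [0], [1, 5]), (0, [1], [0, 3]), (1, [], [4, 5]), (4, [], [2])]),
  (96, 0, 1, [(0, [0], [1, 5]), (0, [1], [2, 3]), (1, [], [4, 5]), (4, [], [0])]),
  (-96, 0, 1, [(0, [0], [1, 5]), (0, [1], [2, 3]), (1, [], [0, 5]), (4, [], [4])]),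
  (-96, 0, 1, [(0, [0], [1, 5]), (0, [1], [2, 4]), (1, [], [0, 5]), (4, [], [3])]),
  (-96, 0, 1, [(0, [0], [1, 5]), (0, [1], [3, 4]), (1, [], [0, 5]), (4, [], [2])]),
  (96, 0, 1, [(0, [0], [2, 5]), (0, [1], [0, 1]), (1, [], [4, 5]), (4, [], [3])]),
  (96, 0, 1, [(0, [0], [2, 5]), (0, [1], [0, 3]), (1, [], [4, 5]), (4, [], [1])]),
  (96, 0, 1, [(0, [0], [2, 5]), (0, [1], [1, 3]), (1, [], [4, 5]), (4, [], [0])]),
  (-96, 0, 1, [(0, [0], [2, 5]), (0, [1], [1, 3]), (1, [], [0, 5]), (4, [], [4])]),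
  (-96, 0, 1, [(0, [0], [2, 5]), (0, [1], [1, 4]), (1, [], [0, 5]), (4, [], [3])]),
  (-96, 0, 1, [(0, [0], [2, 5]), (0, [1], [3, 4]), (1, [], [0, 5]), (4, [], [1])]),
  (96, 0, 1, [(0, [0], [3, 5]), (0, [1], [0, 1]), (1, [], [4, 5]), (4, [], [2])]),
  (96, 0, 1, [(0, [0], [3, 5]), (0, [1], [0, 2]), (1, [], [4, 5]), (4, [], [1])]),
  (96, 0, 1, [(0, [0], [3, 5]), (0, [1], [1, 2]), (1, [], [4, 5]), (4, [], [0])]),
  (-96, 0, 1, [(0, [0], [3, 5]), (0, [1], [1, 2]), (1, [], [0, 5]), (4, [], [4])]),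
  (-96, 0, 1, [(0, [0], [3, 5]), (0, [1], [1, 4]), (1, [], [0, 5]), (4, [], [2])]),
  (-96, 0, 1, [(0, [0], [3, 5]), (0, [1], [2, 4]), (1, [], [0, 5]), (4, [], [1])]),
  (-96, 0, 1, [(0, [0], [4, 5]), (0, [1], [0, 1]), (1, [], [3, 5]), (4, [], [2])]),
  (-96, 0, 1, [(0, [0], [4, 5]), (0, [1], [0, 1]), (1, [], [2, 5]), (4, [], [3])]),
  (-96, 0, 1, [(0, [0], [4, 5]), (0, [1], [0, 2]), (1, [], [3, 5]), (4, [], [1])]),
  (-96, 0, 1, [(0, [0], [4, 5]), (0, [1], [0, 2]), (1, [], [1, 5]), (4, [], [3])]),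
  (-96, 0, 1, [(0, [0], [4, 5]), (0, [1], [0, 3]), (1, [], [2, 5]), (4, [], [1])]),
  (-96, 0, 1, [(0, [0], [4, 5]), (0, [1], [0, 3]), (1, [], [1, 5]), (4, [], [2])]),
  (-96, 0, 1, [(0, [0], [4, 5]), (0, [1], [1, 2]), (1, [], [3, 5]), (4, [], [0])]),
  (-192, 0, 1, [(0, [0], [4, 5]), (0, [1], [1, 2]), (1, [], [0, 5]), (4, [], [3])]),
  (-96, 0, 1, [(0, [0], [4, 5]), (0, [1], [1, 3]), (1, [], [2, 5]), (4, [], [0])]),
  (-192, 0, 1, [(0, [0], [4, 5]), (0, [1], [1, 3]), (1, [], [0, 5]), (4, [], [2])]),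
  (-96, 0, 1, [(0, [0], [4, 5]), (0, [1], [2, 3]), (1, [], [1, 5]), (4, [], [0])]),
  (-192, 0, 1, [(0, [0], [4, 5]), (0, [1], [2, 3]), (1, [], [0, 5]), (4, [], [1])]),
  (192, 0, 1, [(0, [1], [0, 5]), (0, [0], [1, 2]), (1, [], [4, 5]), (4, [], [3])]),
  (96, 0, 1, [(0, [1], [0, 5]), (0, [0], [1, 2]), (1, [], [3, 5]), (4, [], [4])]),
  (192, 0, 1, [(0, [1], [0, 5]), (0, [0], [1, 3]), (1, [], [4, 5]), (4, [], [2])]),
  (96, 0, 1, [(0, [1], [0, 5]), (0, [0], [1, 3]), (1, [], [2, 5]), (4, [], [4])]),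
  (96, 0, 1, [(0, [1], [0, 5]), (0, [0], [1, 4]), (1, [], [3, 5]), (4, [], [2])]),
  (96, 0, 1, [(0, [1], [0, 5]), (0, [0], [1, 4]), (1, [], [2, 5]), (4, [], [3])]),
  (192, 0, 1, [(0, [1], [0, 5]), (0, [0], [2, 3]), (1, [], [4, 5]), (4, [], [1])]),
  (96, 0, 1, [(0, [1], [0, 5]), (0, [0], [2, 3]), (1, [], [1, 5]), (4, [], [4])]),
  (96, 0, 1, [(0, [1], [0, 5]), (0, [0], [2, 4]), (1, [], [3, 5]), (4, [], [1])]),
  (96, 0, 1, [(0, [1], [0, 5]), (0, [0], [2, 4]), (1, [], [1, 5]), (4, [], [3])]),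
  (96, 0, 1, [(0, [1], [0, 5]), (0, [0], [3, 4]), (1, [], [2, 5]), (4, [], [1])]),
  (96, 0, 1, [(0, [1], [0, 5]), (0, [0], [3, 4]), (1, [], [1, 5]), (4, [], [2])]),
  (96, 0, 1, [(0, [1], [1, 5]), (0, [0], [0, 2]), (1, [], [4, 5]), (4, [], [3])]),
  (96, 0, 1, [(0, [1], [1, 5]), (0, [0], [0, 3]), (1, [], [4, 5]), (4, [], [2])]),
  (96, 0, 1, [(0, [1], [1, 5]), (0, [0], [2, 3]), (1, [], [4, 5]), (4, [], [0])]),
  (-96, 0, 1, [(0, [1], [1, 5]), (0, [0], [2, 3]), (1, [], [0, 5]), (4, [], [4])]),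
  (-96, 0, 1, [(0, [1], [1, 5]), (0, [0], [2, 4]), (1, [], [0, 5]), (4, [], [3])]),
  (-96, 0, 1, [(0, [1], [1, 5]), (0, [0], [3, 4]), (1, [], [0, 5]), (4, [], [2])]),
  (96, 0, 1, [(0, [1], [2, 5]), (0, [0], [0, 1]), (1, [], [4, 5]), (4, [], [3])]),
  (96, 0, 1, [(0, [1], [2, 5]), (0, [0], [0, 3]), (1, [], [4, 5]), (4, [], [1])]),
  (96, 0, 1, [(0, [1], [2, 5]), (0, [0], [1, 3]), (1, [], [4, 5]), (4, [], [0])]),
  (-96, 0, 1, [(0, [1], [2, 5]), (0, [0], [1, 3]), (1, [], [0, 5]), (4, [], [4])]),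
  (-96, 0, 1, [(0, [1], [2, 5]), (0, [0], [1, 4]), (1, [], [0, 5]), (4, [], [3])]),
  (-96, 0, 1, [(0, [1], [2, 5]), (0, [0], [3, 4]), (1, [], [0, 5]), (4, [], [1])]),
  (96, 0, 1, [(0, [1], [3, 5]), (0, [0], [0, 1]), (1, [], [4, 5]), (4, [], [2])]),
  (96, 0, 1, [(0, [1], [3, 5]), (0, [0], [0, 2]), (1, [], [4, 5]), (4, [], [1])]),
  (96, 0, 1, [(0, [1], [3, 5]), (0, [0], [1, 2]), (1, [], [4, 5]), (4, [], [0])]),
  (-96, 0, 1, [(0, [1], [3, 5]), (0, [0], [1, 2]), (1, [], [0, 5]), (4, [], [4])]),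
  (-96, 0, 1, [(0, [1], [3, 5]), (0, [0], [1, 4]), (1, [], [0, 5]), (4, [], [2])]),
  (-96, 0, 1, [(0, [1], [3, 5]), (0, [0], [2, 4]), (1, [], [0, 5]), (4, [], [1])]),
  (-96, 0, 1, [(0, [1], [4, 5]), (0, [0], [0, 1]), (1, [], [3, 5]), (4, [], [2])]),
  (-96, 0, 1, [(0, [1], [4, 5]), (0, [0], [0, 1]), (1, [], [2, 5]), (4, [], [3])]),
  (-96, 0, 1, [(0, [1], [4, 5]), (0, [0], [0, 2]), (1, [], [3, 5]), (4, [], [1])]),
  (-96, 0, 1, [(0, [1], [4, 5]), (0, [0], [0, 2]), (1, [], [1, 5]), (4, [], [3])]),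
  (-96, 0, 1, [(0, [1], [4, 5]), (0, [0], [0, 3]), (1, [], [2, 5]), (4, [], [1])]),
  (-96, 0, 1, [(0, [1], [4, 5]), (0, [0], [0, 3]), (1, [], [1, 5]), (4, [], [2])]),
  (-96, 0, 1, [(0, [1], [4, 5]), (0, [0], [1, 2]), (1, [], [3, 5]), (4, [], [0])]),
  (-192, 0, 1, [(0, [1], [4, 5]), (0, [0], [1, 2]), (1, [], [0, 5]), (4, [], [3])]),
  (-96, 0, 1, [(0, [1], [4, 5]), (0, [0], [1, 3]), (1, [], [2, 5]), (4, [], [0])]),
  (-192, 0, 1, [(0, [1], [4, 5]), (0, [0], [1, 3]), (1, [], [0, 5]), (4, [], [2])]),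
  (-96, 0, 1, [(0, [1], [4, 5]), (0, [0], [2, 3]), (1, [], [1, 5]), (4, [], [0])]),
  (-192, 0, 1, [(0, [1], [4, 5]), (0, [0], [2, 3]), (1, [], [0, 5]), (4, [], [1])])]

def z57_4 : Cov := []

def w57_4 : List (List Wit) := [[(0, 0, 0, 0, 0), (1, 0, 0, 0, 0), (2, 0, 0, 0, 0), (3, 0, 0, 0, 0), (4, 0, 0, 0, 0), (5, 0, 0, 0, 0), (0, 0, 0, 0, 0), (1, 0, 0, 0, 0), (6, 0, 0, 0, 0), (7, 0, 0, 0, 0), (8, 0, 0, 0, 0), (9, 0, 0, 0, 0), (2, 0, 0, 0, 0), (3, 0, 0, 0, 0), (6, 0, 0, 0, 0), (7, 0, 0, 0, 0), (10, 0, 0, 0, 0), (11, 0, 0, 0, 0), (4, 0, 0, 0, 0), (5, 0, 0, 0, 0), (8, 0, 0, 0, 0), (9, 0, 0, 0, 0), (10, 0, 0, 0, 0), (11, 0, 0, 0, 0), (12, 0, 0, 0, 0), (13, 0, 0, 0, 0), (12, 0, 0, 0, 0), (14, 0, 0, 0, 0), (15, 0, 0, 0, 0), (16, 0, 0, 0, 0), (13, 0, 0, 0, 0), (14, 0, 0, 0, 0), (15, 0, 0, 0, 0), (17, 0, 0, 0, 0), (16, 0, 0, 0, 0), (17, 0, 0, 0, 0), (18, 0, 0, 0, 0), (19, 0, 0, 0, 0), (18, 0,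 0, 0, 0), (20, 0, 0, 0, 0), (21, 0, 0, 0, 0), (22, 0, 0, 0, 0), (19, 0, 0, 0, 0), (20, 0, 0, 0, 0), (21, 0, 0, 0, 0), (23, 0, 0, 0, 0), (22, 0, 0, 0, 0), (23, 0, 0, 0, 0), (24, 0, 0, 0, 0), (25, 0, 0, 0, 0), (24, 0, 0, 0, 0), (26, 0, 0, 0, 0), (27, 0, 0, 0, 0), (28, 0, 0, 0, 0), (25, 0, 0, 0, 0), (26, 0, 0, 0, 0), (27, 0, 0, 0, 0), (29, 0, 0, 0, 0), (28, 0, 0, 0, 0), (29, 0, 0, 0, 0), (30, 0, 0, 0, 0), (31, 0, 0, 0, 0), (32, 0, 0, 0, 0), (33, 0, 0, 0, 0), (34, 0, 0, 0, 0), (35, 0, 0, 0, 0), (30, 0, 0, 0, 0), (31, 0, 0, 0, 0), (36, 0, 0, 0, 0), (37, 0, 0, 0, 0), (38, 0, 0, 0, 0), (39, 0, 0, 0, 0), (32, 0, 0, 0, 0), (33, 0, 0, 0, 0), (36, 0, 0, 0, 0), (37, 0, 0, 0, 0), (40, 0, 0, 0, 0), (41, 0, 0, 0, 0), (34, 0, 0, 0, 0), (35, 0, 0, 0, 0), (38, 0, 0, 0, 0), (39, 0, 0, 0, 0), (40, 0, 0, 0, 0), (41, 0, 0, 0, 0)],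
  [(42, 0, 0, 0, 0), (43, 0, 0, 0, 0), (44, 0, 0, 0, 0), (45, 0, 0, 0, 0), (46, 0, 0, 0, 0), (47, 0, 0, 0, 0), (42, 0, 0, 0, 0), (43, 0, 0, 0, 0), (48, 0, 0, 0, 0), (49, 0, 0, 0, 0), (50, 0, 0, 0, 0), (51, 0, 0, 0, 0), (44, 0, 0, 0, 0), (45, 0, 0, 0, 0), (48, 0, 0, 0, 0), (49, 0, 0, 0, 0), (52, 0, 0, 0, 0), (53, 0, 0, 0, 0), (46, 0, 0, 0, 0), (47, 0, 0, 0, 0), (50, 0, 0, 0, 0), (51, 0, 0, 0, 0), (52, 0, 0, 0, 0), (53, 0, 0, 0, 0), (54, 0, 0, 0, 0), (55, 0, 0, 0, 0), (54, 0, 0, 0, 0), (56, 0, 0, 0, 0), (57, 0, 0, 0, 0), (58, 0, 0, 0, 0), (55, 0, 0, 0, 0), (56, 0, 0, 0, 0), (57, 0, 0, 0, 0), (59, 0, 0, 0, 0), (58, 0, 0, 0, 0), (59, 0, 0, 0, 0), (60, 0, 0, 0, 0), (61, 0, 0, 0, 0), (60, 0, 0, 0, 0), (62, 0, 0, 0, 0), (63, 0, 0, 0, 0), (64, 0, 0, 0, 0), (61, 0, 0, 0, 0), (62, 0, 0, 0, 0), (63, 0, 0, 0, 0), (65, 0, 0, 0, 0), (64, 0, 0, 0, 0), (65, 0, 0, 0, 0), (66, 0, 0, 0, 0), (67, 0, 0, 0,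 0), (66, 0, 0, 0, 0), (68, 0, 0, 0, 0), (69, 0, 0, 0, 0), (70, 0, 0, 0, 0), (67, 0, 0, 0, 0), (68, 0, 0, 0, 0), (69, 0, 0, 0, 0), (71, 0, 0, 0, 0), (70, 0, 0, 0, 0), (71, 0, 0, 0, 0), (72, 0, 0, 0, 0), (73, 0, 0, 0, 0), (74, 0, 0, 0, 0), (75, 0, 0, 0, 0), (76, 0, 0, 0, 0), (77, 0, 0, 0, 0), (72, 0, 0, 0, 0), (73, 0, 0, 0, 0), (78, 0, 0, 0, 0), (79, 0, 0, 0, 0), (80, 0, 0, 0, 0), (81, 0, 0, 0, 0), (74, 0, 0, 0, 0), (75, 0, 0, 0, 0), (78, 0, 0, 0, 0), (79, 0, 0, 0, 0), (82, 0, 0, 0, 0), (83, 0, 0, 0, 0), (76, 0, 0, 0, 0), (77, 0, 0, 0, 0), (80, 0, 0, 0, 0), (81, 0, 0, 0, 0), (82, 0, 0, 0, 0), (83, 0, 0, 0, 0)]]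

def m57_5 : Base := (0, 1, [(0, [0], [0, 5]), (0, [1], [1, 4]), (1, [], [2, 5]), (4, [], [3])])

def l57_5 : Cov := [(144, 0, 1, [(0, [0], [0, 5]), (0, [1], [1, 4]), (1, [], [2, 5]), (4, [], [3])]),
  (96, 0, 1, [(0, [0], [0, 5]), (0, [1], [1, 3]), (1, [], [2, 5]), (4, [], [4])]),
  (144, 0, 1, [(0, [0], [0, 5]), (0, [1], [1, 4]), (1, [], [3, 5]), (4, [], [2])]),
  (96, 0, 1, [(0, [0], [0, 5]), (0, [1], [1, 2]), (1, [], [3, 5]), (4, [], [4])]),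
  (96, 0, 1, [(0, [0], [0, 5]), (0, [1], [1, 3]), (1, [], [4, 5]), (4, [], [2])]),
  (96, 0, 1, [(0, [0], [0, 5]), (0, [1], [1, 2]), (1, [], [4, 5]), (4, [], [3])]),
  (144, 0, 1, [(0, [0], [0, 5]), (0, [1], [2, 4]), (1, [], [1, 5]), (4, [], [3])]),
  (96, 0, 1, [(0, [0], [0, 5]), (0, [1], [2, 3]), (1, [], [1, 5]), (4, [], [4])]),
  (144, 0, 1, [(0, [0], [0, 5]), (0, [1], [2, 4]), (1, [], [3, 5]), (4, [], [1])]),
  (96, 0, 1, [(0, [0], [0, 5]), (0, [1], [2, 3]), (1, [], [4, 5]), (4, [], [1])]),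
  (144, 0, 1, [(0, [0], [0, 5]), (0, [1], [3, 4]), (1, [], [1, 5]), (4, [], [2])]),
  (144, 0, 1, [(0, [0], [0, 5]), (0, [1], [3, 4]), (1, [], [2, 5]), (4, [], [1])]),
  (48, 0, 1, [(0, [0], [1, 5]), (0, [1], [2, 4]), (1, [], [0, 5]), (4, [], [3])]),
  (48, 0, 1, [(0, [0], [1, 5]), (0, [1], [2, 4]), (1, [], [3, 5]), (4, [], [0])]),
  (-48, 0, 1, [(0, [0], [1, 5]), (0, [1], [2, 0]), (1, [], [3, 5]), (4, [], [4])]),
  (-48, 0, 1, [(0, [0], [1, 5]), (0, [1], [2, 0]), (1, [], [4, 5]), (4, [], [3])]),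
  (48, 0, 1, [(0, [0], [1, 5]), (0, [1], [3, 4]), (1, [], [0, 5]), (4, [], [2])]),
  (48, 0, 1, [(0, [0], [1, 5]), (0, [1], [3, 4]), (1, [], [2, 5]), (4, [], [0])]),
  (-48, 0, 1, [(0, [0], [1, 5]), (0, [1], [3, 0]), (1, [], [2, 5]), (4, [], [4])]),
  (-48, 0, 1, [(0, [0], [1, 5]), (0, [1], [3, 0]), (1, [], [4, 5]), (4, [], [2])]),
  (48, 0, 1, [(0, [0], [2, 5]), (0, [1], [1, 4]), (1, [], [0, 5]), (4, [], [3])]),
  (48, 0, 1, [(0, [0], [2, 5]), (0, [1], [1, 4]), (1, [], [3, 5]), (4, [], [0])]),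
  (-48, 0, 1, [(0, [0], [2, 5]), (0, [1], [1, 0]), (1, [], [3, 5]), (4, [], [4])]),
  (-48, 0, 1, [(0, [0], [2, 5]), (0, [1], [1, 0]), (1, [], [4, 5]), (4, [], [3])]),
  (48, 0, 1, [(0, [0], [2, 5]), (0, [1], [3, 4]), (1, [], [0, 5]), (4, [], [1])]),
  (48, 0, 1, [(0, [0], [2, 5]), (0, [1], [3, 4]), (1, [], [1, 5]), (4, [], [0])]),
  (-48, 0, 1, [(0, [0], [2, 5]), (0, [1], [3, 0]), (1, [], [1, 5]), (4, [], [4])]),
  (-48, 0, 1, [(0, [0], [2, 5]), (0, [1], [3, 0]), (1, [], [4, 5]), (4, [], [1])]),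
  (48, 0, 1, [(0, [0], [3, 5]), (0, [1], [1, 4]), (1, [], [0, 5]), (4, [], [2])]),
  (48, 0, 1, [(0, [0], [3, 5]), (0, [1], [1, 4]), (1, [], [2, 5]), (4, [], [0])]),
  (-48, 0, 1, [(0, [0], [3, 5]), (0, [1], [1, 0]), (1, [], [2, 5]), (4, [], [4])]),
  (-48, 0, 1, [(0, [0], [3, 5]), (0, [1], [1, 0]), (1, [], [4, 5]), (4, [], [2])]),
  (48, 0, 1, [(0, [0], [3, 5]), (0, [1], [2, 4]), (1, [], [0, 5]), (4, [], [1])]),
  (48, 0, 1, [(0, [0], [3, 5]), (0, [1], [2, 4]), (1, [], [1, 5]), (4, [], [0])]),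
  (-48, 0, 1, [(0, [0], [3, 5]), (0, [1], [2, 0]), (1, [], [1, 5]), (4, [], [4])]),
  (-48, 0, 1, [(0, [0], [3, 5]), (0, [1], [2, 0]), (1, [], [4, 5]), (4, [], [1])]),
  (-144, 0, 1, [(0, [0], [4, 5]), (0, [1], [0, 3]), (1, [], [1, 5]), (4, [], [2])]),
  (-144, 0, 1, [(0, [0], [4, 5]), (0, [1], [0, 2]), (1, [], [1, 5]), (4, [], [3])]),
  (-144, 0, 1, [(0, [0], [4, 5]), (0, [1], [0, 3]), (1, [], [2, 5]), (4, [], [1])]),
  (-144, 0, 1, [(0, [0], [4, 5]), (0, [1], [0, 1]), (1, [], [2, 5]), (4, [], [3])]),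
  (-144, 0, 1, [(0, [0], [4, 5]), (0, [1], [0, 2]), (1, [], [3, 5]), (4, [], [1])]),
  (-144, 0, 1, [(0, [0], [4, 5]), (0, [1], [0, 1]), (1, [], [3, 5]), (4, [], [2])]),
  (-96, 0, 1, [(0, [0], [4, 5]), (0, [1], [1, 3]), (1, [], [0, 5]), (4, [], [2])]),
  (-96, 0, 1, [(0, [0], [4, 5]), (0, [1], [1, 2]), (1, [], [0, 5]), (4, [], [3])]),
  (-96, 0, 1, [(0, [0], [4, 5]), (0, [1], [1, 3]), (1, [], [2, 5]), (4, [], [0])]),
  (-96, 0, 1, [(0, [0], [4, 5]), (0, [1], [1, 2]), (1, [], [3, 5]), (4, [], [0])]),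
  (-96, 0, 1, [(0, [0], [4, 5]), (0, [1], [2, 3]), (1, [], [0, 5]), (4, [], [1])]),
  (-96, 0, 1, [(0, [0], [4, 5]), (0, [1], [2, 3]), (1, [], [1, 5]), (4, [], [0])]),
  (144, 0, 1, [(0, [1], [0, 5]), (0, [0], [1, 4]), (1, [], [2, 5]), (4, [], [3])]),
  (96, 0, 1, [(0, [1], [0, 5]), (0, [0], [1, 3]), (1, [], [2, 5]), (4, [], [4])]),
  (144, 0, 1, [(0, [1], [0, 5]), (0, [0], [1, 4]), (1, [], [3, 5]), (4, [], [2])]),
  (96, 0, 1, [(0, [1], [0, 5]), (0, [0], [1, 2]), (1, [], [3, 5]), (4, [], [4])]),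
  (96, 0, 1, [(0, [1], [0, 5]), (0, [0], [1, 3]), (1, [], [4, 5]), (4, [], [2])]),
  (96, 0, 1, [(0, [1], [0, 5]), (0, [0], [1, 2]), (1, [], [4, 5]), (4, [], [3])]),
  (144, 0, 1, [(0, [1], [0, 5]), (0, [0], [2, 4]), (1, [], [1, 5]), (4, [], [3])]),
  (96, 0, 1, [(0, [1], [0, 5]), (0, [0], [2, 3]), (1, [], [1, 5]), (4, [], [4])]),
  (144, 0, 1, [(0, [1], [0, 5]), (0, [0], [2, 4]), (1, [], [3, 5]), (4, [], [1])]),
  (96, 0, 1, [(0, [1], [0, 5]), (0, [0], [2, 3]), (1, [], [4, 5]), (4, [], [1])]),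
  (144, 0, 1, [(0, [1], [0, 5]), (0, [0], [3, 4]), (1, [], [1, 5]), (4, [], [2])]),
  (144, 0, 1, [(0, [1], [0, 5]), (0, [0], [3, 4]), (1, [], [2, 5]), (4, [], [1])]),
  (48, 0, 1, [(0, [1], [1, 5]), (0, [0], [2, 4]), (1, [], [0, 5]), (4, [], [3])]),
  (48, 0, 1, [(0, [1], [1, 5]), (0, [0], [2, 4]), (1, [], [3, 5]), (4, [], [0])]),
  (-48, 0, 1, [(0, [1], [1, 5]), (0, [0], [2, 0]), (1, [], [3, 5]), (4, [], [4])]),
  (-48, 0, 1, [(0, [1], [1, 5]), (0, [0], [2, 0]), (1, [], [4, 5]), (4, [], [3])]),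
  (48, 0, 1, [(0, [1], [1, 5]), (0, [0], [3, 4]), (1, [], [0, 5]), (4, [], [2])]),
  (48, 0, 1, [(0, [1], [1, 5]), (0, [0], [3, 4]), (1, [], [2, 5]), (4, [], [0])]),
  (-48, 0, 1, [(0, [1], [1, 5]), (0, [0], [3, 0]), (1, [], [2, 5]), (4, [], [4])]),
  (-48, 0, 1, [(0, [1], [1, 5]), (0, [0], [3, 0]), (1, [], [4, 5]), (4, [], [2])]),
  (48, 0, 1, [(0, [1], [2, 5]), (0, [0], [1, 4]), (1, [], [0, 5]), (4, [], [3])]),
  (48, 0, 1, [(0, [1], [2, 5]), (0, [0], [1, 4]), (1, [], [3, 5]), (4, [], [0])]),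
  (-48, 0, 1, [(0, [1], [2, 5]), (0, [0], [1, 0]), (1, [], [3, 5]), (4, [], [4])]),
  (-48, 0, 1, [(0, [1], [2, 5]), (0, [0], [1, 0]), (1, [], [4, 5]), (4, [], [3])]),
  (48, 0, 1, [(0, [1], [2, 5]), (0, [0], [3, 4]), (1, [], [0, 5]), (4, [], [1])]),
  (48, 0, 1, [(0, [1], [2, 5]), (0, [0], [3, 4]), (1, [], [1, 5]), (4, [], [0])]),
  (-48, 0, 1, [(0, [1], [2, 5]), (0, [0], [3, 0]), (1, [], [1, 5]), (4, [], [4])]),
  (-48, 0, 1, [(0, [1], [2, 5]), (0, [0], [3, 0]), (1, [], [4, 5]), (4, [], [1])]),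
  (48, 0, 1, [(0, [1], [3, 5]), (0, [0], [1, 4]), (1, [], [0, 5]), (4, [], [2])]),
  (48, 0, 1, [(0, [1], [3, 5]), (0, [0], [1, 4]), (1, [], [2, 5]), (4, [], [0])]),
  (-48, 0, 1, [(0, [1], [3, 5]), (0, [0], [1, 0]), (1, [], [2, 5]), (4, [], [4])]),
  (-48, 0, 1, [(0, [1], [3, 5]), (0, [0], [1, 0]), (1, [], [4, 5]), (4, [], [2])]),
  (48, 0, 1, [(0, [1], [3, 5]), (0, [0], [2, 4]), (1, [], [0, 5]), (4, [], [1])]),
  (48, 0, 1, [(0, [1], [3, 5]), (0, [0], [2, 4]), (1, [], [1, 5]), (4, [], [0])]),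
  (-48, 0, 1, [(0, [1], [3, 5]), (0, [0], [2, 0]), (1, [], [1, 5]), (4, [], [4])]),
  (-48, 0, 1, [(0, [1], [3, 5]), (0, [0], [2, 0]), (1, [], [4, 5]), (4, [], [1])]),
  (-144, 0, 1, [(0, [1], [4, 5]), (0, [0], [0, 3]), (1, [], [1, 5]), (4, [], [2])]),
  (-144, 0, 1, [(0, [1], [4, 5]), (0, [0], [0, 2]), (1, [], [1, 5]), (4, [], [3])]),
  (-144, 0, 1, [(0, [1], [4, 5]), (0, [0], [0, 3]), (1, [], [2, 5]), (4, [], [1])]),
  (-144, 0, 1, [(0, [1], [4, 5]), (0, [0], [0, 1]), (1, [], [2, 5]), (4, [], [3])]),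
  (-144, 0, 1, [(0, [1], [4, 5]), (0, [0], [0, 2]), (1, [], [3, 5]), (4, [], [1])]),
  (-144, 0, 1, [(0, [1], [4, 5]), (0, [0], [0, 1]), (1, [], [3, 5]), (4, [], [2])]),
  (-96, 0, 1, [(0, [1], [4, 5]), (0, [0], [1, 3]), (1, [], [0, 5]), (4, [], [2])]),
  (-96, 0, 1, [(0, [1], [4, 5]), (0, [0], [1, 2]), (1, [], [0, 5]), (4, [], [3])]),
  (-96, 0, 1, [(0, [1], [4, 5]), (0, [0], [1, 3]), (1, [], [2, 5]), (4, [], [0])]),
  (-96, 0, 1, [(0, [1], [4, 5]), (0, [0], [1, 2]), (1, [], [3, 5]), (4, [], [0])]),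
  (-96, 0, 1, [(0, [1], [4, 5]), (0, [0], [2, 3]), (1, [], [0, 5]), (4, [], [1])]),
  (-96, 0, 1, [(0, [1], [4, 5]), (0, [0], [2, 3]), (1, [], [1, 5]), (4, [], [0])])]

def z57_5 : Cov := [(0, 0, 1, [(0, [0], [1, 5]), (0, [1], [0, 4]), (1, [], [2, 5]), (4, [], [3])]),
  (0, 0, 1, [(0, [0], [1, 5]), (0, [1], [0, 4]), (1, [], [3, 5]), (4, [], [2])]),
  (0, 0, 1, [(0, [0], [2, 5]), (0, [1], [0, 4]), (1, [], [1, 5]), (4, [], [3])]),
  (0, 0, 1, [(0, [0], [2, 5]), (0, [1], [0, 4]), (1, [], [3, 5]), (4, [], [1])]),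
  (0, 0, 1, [(0, [0], [3, 5]), (0, [1], [0, 4]), (1, [], [1, 5]), (4, [], [2])]),
  (0, 0, 1, [(0, [0], [3, 5]), (0, [1], [0, 4]), (1, [], [2, 5]), (4, [], [1])]),
  (0, 0, 1, [(0, [1], [1, 5]), (0, [0], [0, 4]), (1, [], [2, 5]), (4, [], [3])]),
  (0, 0, 1, [(0, [1], [1, 5]), (0, [0], [0, 4]), (1, [], [3, 5]), (4, [], [2])]),
  (0, 0, 1, [(0, [1], [2, 5]), (0, [0], [0, 4]), (1, [], [1, 5]), (4, [], [3])]),
  (0, 0, 1, [(0, [1], [2, 5]), (0, [0], [0, 4]), (1, [], [3, 5]), (4, [], [1])]),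
  (0, 0, 1, [(0, [1], [3, 5]), (0, [0], [0, 4]), (1, [], [1, 5]), (4, [], [2])]),
  (0, 0, 1, [(0, [1], [3, 5]), (0, [0], [0, 4]), (1, [], [2, 5]), (4, [], [1])])]

def w57_5 : List (List Wit) := [[(0, 0, 0, 0, 0), (1, 0, 0, 0, 0), (2, 0, 0, 0, 0), (3, 0, 0, 0, 0), (4, 0, 0, 0, 0), (5, 0, 0, 0, 0), (6, 0, 0, 0, 0), (7, 0, 0, 0, 0), (8, 0, 0, 0, 0), (3, 0, 0, 0, 0), (9, 0, 0, 0, 0), (5, 0, 0, 0, 0), (10, 0, 0, 0, 0), (7, 0, 0, 0, 0), (11, 0, 0, 0, 0), (1, 0, 0, 0, 0), (9, 0, 0, 0, 0), (4, 0, 0, 0, 0), (10, 0, 0, 0, 0), (6, 0, 0, 0, 0), (11, 0, 0, 0, 0), (0, 0, 0, 0, 0), (8, 0, 0, 0, 0), (2, 0, 0, 0, 0), (96, 0, 0, 0, 0), (97, 0, 0, 0, 0), (12, 0, 0, 0, 0), (13, 0, 0, 0, 0), (14, 0, 0, 0, 0), (15, 0, 0, 0, 0), (16, 0, 0, 0, 0), (17, 0, 0, 0, 0), (18, 0, 0, 0, 0), (19, 0, 0, 0, 0), (96, 0, 0, 0, 0), (97, 0, 0, 0, 0), (98, 0, 0, 0, 0), (99, 0, 0, 0, 0), (20, 0, 0, 0, 0), (21, 0, 0, 0, 0),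 (22, 0, 0, 0, 0), (23, 0, 0, 0, 0), (24, 0, 0, 0, 0), (25, 0, 0, 0, 0), (26, 0, 0, 0, 0), (27, 0, 0, 0, 0), (98, 0, 0, 0, 0), (99, 0, 0, 0, 0), (100, 0, 0, 0, 0), (101, 0, 0, 0, 0), (28, 0, 0, 0, 0), (29, 0, 0, 0, 0), (30, 0, 0, 0, 0), (31, 0, 0, 0, 0), (32, 0, 0, 0, 0), (33, 0, 0, 0, 0), (34, 0, 0, 0, 0), (35, 0, 0, 0, 0), (100, 0, 0, 0, 0), (101, 0, 0, 0, 0), (36, 0, 0, 0, 0), (37, 0, 0, 0, 0), (38, 0, 0, 0, 0), (39, 0, 0, 0, 0), (40, 0, 0, 0, 0), (41, 0, 0, 0, 0), (42, 0, 0, 0, 0), (43, 0, 0, 0, 0), (44, 0, 0, 0, 0), (39, 0, 0, 0, 0), (45, 0, 0, 0, 0), (41, 0, 0, 0, 0), (46, 0, 0, 0, 0), (43, 0, 0, 0, 0), (47, 0, 0, 0, 0), (37, 0, 0, 0, 0), (45, 0, 0, 0, 0), (40, 0, 0, 0, 0), (46, 0, 0, 0, 0), (42, 0, 0, 0, 0), (47, 0, 0, 0, 0), (36, 0, 0, 0, 0), (44, 0, 0, 0, 0), (38, 0, 0, 0, 0)],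
  [(48, 0, 0, 0, 0), (49, 0, 0, 0, 0), (50, 0, 0, 0, 0), (51, 0, 0, 0, 0), (52, 0, 0, 0, 0), (53, 0, 0, 0, 0), (54, 0, 0, 0, 0), (55, 0, 0, 0, 0), (56, 0, 0, 0, 0), (51, 0, 0, 0, 0), (57, 0, 0, 0, 0), (53, 0, 0, 0, 0), (58, 0, 0, 0, 0), (55, 0, 0, 0, 0), (59, 0, 0, 0, 0), (49, 0, 0, 0, 0), (57, 0, 0, 0, 0), (52, 0, 0, 0, 0), (58, 0, 0, 0, 0), (54, 0, 0, 0, 0), (59, 0, 0, 0, 0), (48, 0, 0, 0, 0), (56, 0, 0, 0, 0), (50, 0, 0, 0, 0), (102, 0, 0, 0, 0), (103, 0, 0, 0, 0), (60, 0, 0, 0, 0), (61, 0, 0, 0, 0), (62, 0, 0, 0, 0), (63, 0, 0, 0, 0), (64, 0, 0, 0, 0), (65, 0, 0, 0, 0), (66, 0, 0, 0, 0), (67, 0, 0, 0, 0), (102, 0, 0, 0, 0), (103, 0, 0, 0, 0), (104, 0, 0, 0, 0), (105, 0, 0, 0, 0), (68, 0, 0, 0, 0), (69, 0, 0, 0, 0), (70, 0, 0, 0, 0), (71, 0, 0, 0, 0), (72, 0, 0, 0, 0), (73, 0, 0, 0, 0), (74, 0, 0, 0, 0), (75, 0, 0, 0, 0), (104, 0, 0, 0, 0), (105, 0, 0, 0, 0), (106, 0, 0, 0, 0), (107,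 0, 0, 0, 0), (76, 0, 0, 0, 0), (77, 0, 0, 0, 0), (78, 0, 0, 0, 0), (79, 0, 0, 0, 0), (80, 0, 0, 0, 0), (81, 0, 0, 0, 0), (82, 0, 0, 0, 0), (83, 0, 0, 0, 0), (106, 0, 0, 0, 0), (107, 0, 0, 0, 0), (84, 0, 0, 0, 0), (85, 0, 0, 0, 0), (86, 0, 0, 0, 0), (87, 0, 0, 0, 0), (88, 0, 0, 0, 0), (89, 0, 0, 0, 0), (90, 0, 0, 0, 0), (91, 0, 0, 0, 0), (92, 0, 0, 0, 0), (87, 0, 0, 0, 0), (93, 0, 0, 0, 0), (89, 0, 0, 0, 0), (94, 0, 0, 0, 0), (91, 0, 0, 0, 0), (95, 0, 0, 0, 0), (85, 0, 0, 0, 0), (93, 0, 0, 0, 0), (88, 0, 0, 0, 0), (94, 0, 0, 0, 0), (90, 0, 0, 0, 0), (95, 0, 0, 0, 0), (84, 0, 0, 0, 0), (92, 0, 0, 0, 0), (86, 0, 0, 0, 0)]]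

def m57_6 : Base := (0, 1, [(0, [0], [0, 5]), (0, [1], [1, 4]), (1, [], [2, 3]), (4, [], [5])])

def l57_6 : Cov := [(288, 0, 1, [(0, [0], [0, 5]), (0, [1], [1, 4]), (1, [], [2, 3]), (4, [], [5])]),
  (192, 0, 1, [(0, [0], [0, 5]), (0, [1], [1, 3]), (1, [], [2, 4]), (4, [], [5])]),
  (192, 0, 1, [(0, [0], [0, 5]), (0, [1], [1, 2]), (1, [], [3, 4]), (4, [], [5])]),
  (288, 0, 1, [(0, [0], [0, 5]), (0, [1], [2, 4]), (1, [], [1, 3]), (4, [], [5])]),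
  (192, 0, 1, [(0, [0], [0, 5]), (0, [1], [2, 3]), (1, [], [1, 4]), (4, [], [5])]),
  (288, 0, 1, [(0, [0], [0, 5]), (0, [1], [3, 4]), (1, [], [1, 2]), (4, [], [5])]),
  (96, 0, 1, [(0, [0], [1, 5]), (0, [1], [2, 4]), (1, [], [0, 3]), (4, [], [5])]),
  (-96, 0, 1, [(0, [0], [1, 5]), (0, [1], [2, 0]), (1, [], [3, 4]), (4, [], [5])]),
  (96, 0, 1, [(0, [0], [1, 5]), (0, [1], [3, 4]), (1, [], [0, 2]), (4, [], [5])]),
  (-96, 0, 1, [(0, [0], [1, 5]), (0, [1], [3, 0]), (1, [], [2, 4]), (4, [], [5])]),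
  (96, 0, 1, [(0, [0], [2, 5]), (0, [1], [1, 4]), (1, [], [0, 3]), (4, [], [5])]),
  (-96, 0, 1, [(0, [0], [2, 5]), (0, [1], [1, 0]), (1, [], [3, 4]), (4, [], [5])]),
  (96, 0, 1, [(0, [0], [2, 5]), (0, [1], [3, 4]), (1, [], [0, 1]), (4, [], [5])]),
  (-96, 0, 1, [(0, [0], [2, 5]), (0, [1], [3, 0]), (1, [], [1, 4]), (4, [], [5])]),
  (96, 0, 1, [(0, [0], [3, 5]), (0, [1], [1, 4]), (1, [], [0, 2]), (4, [], [5])]),
  (-96, 0, 1, [(0, [0], [3, 5]), (0, [1], [1, 0]), (1, [], [2, 4]), (4, [], [5])]),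
  (96, 0, 1, [(0, [0], [3, 5]), (0, [1], [2, 4]), (1, [], [0, 1]), (4, [], [5])]),
  (-96, 0, 1, [(0, [0], [3, 5]), (0, [1], [2, 0]), (1, [], [1, 4]), (4, [], [5])]),
  (-288, 0, 1, [(0, [0], [4, 5]), (0, [1], [0, 3]), (1, [], [1, 2]), (4, [], [5])]),
  (-288, 0, 1, [(0, [0], [4, 5]), (0, [1], [0, 2]), (1, [], [1, 3]), (4, [], [5])]),
  (-288, 0, 1, [(0, [0], [4, 5]), (0, [1], [0, 1]), (1, [], [2, 3]), (4, [], [5])]),
  (-192, 0, 1, [(0, [0], [4, 5]), (0, [1], [1, 3]), (1, [], [0, 2]), (4, [], [5])]),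
  (-192, 0, 1, [(0, [0], [4, 5]), (0, [1], [1, 2]), (1, [], [0, 3]), (4, [], [5])]),
  (-192, 0, 1, [(0, [0], [4, 5]), (0, [1], [2, 3]), (1, [], [0, 1]), (4, [], [5])]),
  (288, 0, 1, [(0, [1], [0, 5]), (0, [0], [1, 4]), (1, [], [2, 3]), (4, [], [5])]),
  (192, 0, 1, [(0, [1], [0, 5]), (0, [0], [1, 3]), (1, [], [2, 4]), (4, [], [5])]),
  (192, 0, 1, [(0, [1], [0, 5]), (0, [0], [1, 2]), (1, [], [3, 4]), (4, [], [5])]),
  (288, 0, 1, [(0, [1], [0, 5]), (0, [0], [2, 4]), (1, [], [1, 3]), (4, [], [5])]),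
  (192, 0, 1, [(0, [1], [0, 5]), (0, [0], [2, 3]), (1, [], [1, 4]), (4, [], [5])]),
  (288, 0, 1, [(0, [1], [0, 5]), (0, [0], [3, 4]), (1, [], [1, 2]), (4, [], [5])]),
  (96, 0, 1, [(0, [1], [1, 5]), (0, [0], [2, 4]), (1, [], [0, 3]), (4, [], [5])]),
  (-96, 0, 1, [(0, [1], [1, 5]), (0, [0], [2, 0]), (1, [], [3, 4]), (4, [], [5])]),
  (96, 0, 1, [(0, [1], [1, 5]), (0, [0], [3, 4]), (1, [], [0, 2]), (4, [], [5])]),
  (-96, 0, 1, [(0, [1], [1, 5]), (0, [0], [3, 0]), (1, [], [2, 4]), (4, [], [5])]),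
  (96, 0, 1, [(0, [1], [2, 5]), (0, [0], [1, 4]), (1, [], [0, 3]), (4, [], [5])]),
  (-96, 0, 1, [(0, [1], [2, 5]), (0, [0], [1, 0]), (1, [], [3, 4]), (4, [], [5])]),
  (96, 0, 1, [(0, [1], [2, 5]), (0, [0], [3, 4]), (1, [], [0, 1]), (4, [], [5])]),
  (-96, 0, 1, [(0, [1], [2, 5]), (0, [0], [3, 0]), (1, [], [1, 4]), (4, [], [5])]),
  (96, 0, 1, [(0, [1], [3, 5]), (0, [0], [1, 4]), (1, [], [0, 2]), (4, [], [5])]),
  (-96, 0, 1, [(0, [1], [3, 5]), (0, [0], [1, 0]), (1, [], [2, 4]), (4, [], [5])]),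
  (96, 0, 1, [(0, [1], [3, 5]), (0, [0], [2, 4]), (1, [], [0, 1]), (4, [], [5])]),
  (-96, 0, 1, [(0, [1], [3, 5]), (0, [0], [2, 0]), (1, [], [1, 4]), (4, [], [5])]),
  (-288, 0, 1, [(0, [1], [4, 5]), (0, [0], [0, 3]), (1, [], [1, 2]), (4, [], [5])]),
  (-288, 0, 1, [(0, [1], [4, 5]), (0, [0], [0, 2]), (1, [], [1, 3]), (4, [], [5])]),
  (-288, 0, 1, [(0, [1], [4, 5]), (0, [0], [0, 1]), (1, [], [2, 3]), (4, [], [5])]),
  (-192, 0, 1, [(0, [1], [4, 5]), (0, [0], [1, 3]), (1, [], [0, 2]), (4, [], [5])]),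
  (-192, 0, 1, [(0, [1], [4, 5]), (0, [0], [1, 2]), (1, [], [0, 3]), (4, [], [5])]),
  (-192, 0, 1, [(0, [1], [4, 5]), (0, [0], [2, 3]), (1, [], [0, 1]), (4, [], [5])])]

def z57_6 : Cov := [(0, 0, 1, [(0, [0], [1, 5]), (0, [1], [0, 4]), (1, [], [2, 3]), (4, [], [5])]),
  (0, 0, 1, [(0, [0], [2, 5]), (0, [1], [0, 4]), (1, [], [1, 3]), (4, [], [5])]),
  (0, 0, 1, [(0, [0], [3, 5]), (0, [1], [0, 4]), (1, [], [1, 2]), (4, [], [5])]),
  (0, 0, 1, [(0, [1], [1, 5]), (0, [0], [0, 4]), (1, [], [2, 3]), (4, [], [5])]),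
  (0, 0, 1, [(0, [1], [2, 5]), (0, [0], [0, 4]), (1, [], [1, 3]), (4, [], [5])]),
  (0, 0, 1, [(0, [1], [3, 5]), (0, [0], [0, 4]), (1, [], [1, 2]), (4, [], [5])])]

def w57_6 : List (List Wit) := [[(0, 0, 0, 0, 0), (1, 0, 0, 0, 0), (0, 0, 0, 0, 0), (2, 0, 0, 0, 0), (1, 0, 0, 0, 0), (2, 0, 0, 0, 0), (3, 0, 0, 0, 0), (4, 0, 0, 0, 0), (3, 0, 0, 0, 0), (2, 0, 0, 0, 0), (4, 0, 0, 0, 0), (2, 0, 0, 0, 0), (5, 0, 0, 0, 0), (4, 0, 0, 0, 0), (5, 0, 0, 0, 0), (1, 0, 0, 0, 0), (4, 0, 0, 0, 0), (1, 0, 0, 0, 0), (5, 0, 0, 0, 0), (3, 0, 0, 0, 0), (5, 0, 0, 0, 0), (0, 0, 0, 0, 0), (3, 0, 0, 0, 0), (0, 0, 0, 0, 0), (48, 0, 0, 0, 0), (48, 0, 0, 0, 0), (6, 0, 0, 0, 0), (6, 0, 0, 0, 0), (7, 0, 0, 0, 0), (7, 0, 0, 0, 0), (8, 0, 0, 0, 0), (8, 0, 0, 0, 0), (9, 0, 0, 0, 0), (9, 0, 0, 0, 0), (48, 0, 0, 0, 0), (48, 0, 0, 0, 0), (49, 0, 0, 0, 0), (49, 0, 0, 0, 0), (10, 0, 0, 0, 0), (10, 0, 0, 0, 0), (11, 0, 0,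 0, 0), (11, 0, 0, 0, 0), (12, 0, 0, 0, 0), (12, 0, 0, 0, 0), (13, 0, 0, 0, 0), (13, 0, 0, 0, 0), (49, 0, 0, 0, 0), (49, 0, 0, 0, 0), (50, 0, 0, 0, 0), (50, 0, 0, 0, 0), (14, 0, 0, 0, 0), (14, 0, 0, 0, 0), (15, 0, 0, 0, 0), (15, 0, 0, 0, 0), (16, 0, 0, 0, 0), (16, 0, 0, 0, 0), (17, 0, 0, 0, 0), (17, 0, 0, 0, 0), (50, 0, 0, 0, 0), (50, 0, 0, 0, 0), (18, 0, 0, 0, 0), (19, 0, 0, 0, 0), (18, 0, 0, 0, 0), (20, 0, 0, 0, 0), (19, 0, 0, 0, 0), (20, 0, 0, 0, 0), (21, 0, 0, 0, 0), (22, 0, 0, 0, 0), (21, 0, 0, 0, 0), (20, 0, 0, 0, 0), (22, 0, 0, 0, 0), (20, 0, 0, 0, 0), (23, 0, 0, 0, 0), (22, 0, 0, 0, 0), (23, 0, 0, 0, 0), (19, 0, 0, 0, 0), (22, 0, 0, 0, 0), (19, 0, 0, 0, 0), (23, 0, 0, 0, 0), (21, 0, 0, 0, 0), (23, 0, 0, 0, 0), (18, 0, 0, 0, 0), (21, 0, 0, 0, 0), (18, 0, 0, 0, 0)],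
  [(24, 0, 0, 0, 0), (25, 0, 0, 0, 0), (24, 0, 0, 0, 0), (26, 0, 0, 0, 0), (25, 0, 0, 0, 0), (26, 0, 0, 0, 0), (27, 0, 0, 0, 0), (28, 0, 0, 0, 0), (27, 0, 0, 0, 0), (26, 0, 0, 0, 0), (28, 0, 0, 0, 0), (26, 0, 0, 0, 0), (29, 0, 0, 0, 0), (28, 0, 0, 0, 0), (29, 0, 0, 0, 0), (25, 0, 0, 0, 0), (28, 0, 0, 0, 0), (25, 0, 0, 0, 0), (29, 0, 0, 0, 0), (27, 0, 0, 0, 0), (29, 0, 0, 0, 0), (24, 0, 0, 0, 0), (27, 0, 0, 0, 0), (24, 0, 0, 0, 0), (51, 0, 0, 0, 0), (51, 0, 0, 0, 0), (30, 0, 0, 0, 0), (30, 0, 0, 0, 0), (31, 0, 0, 0, 0), (31, 0, 0, 0, 0), (32, 0, 0, 0, 0), (32, 0, 0, 0, 0), (33, 0, 0, 0, 0), (33, 0, 0, 0, 0), (51, 0, 0, 0, 0), (51, 0, 0, 0, 0), (52, 0, 0, 0, 0), (52, 0, 0, 0, 0), (34, 0, 0, 0, 0), (34, 0, 0, 0, 0), (35, 0, 0, 0, 0), (35, 0, 0, 0, 0), (36, 0, 0, 0, 0), (36, 0, 0, 0, 0), (37, 0, 0, 0, 0), (37, 0, 0, 0, 0), (52, 0, 0, 0, 0), (52, 0, 0, 0, 0), (53, 0, 0, 0, 0), (53, 0, 0, 0,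 0), (38, 0, 0, 0, 0), (38, 0, 0, 0, 0), (39, 0, 0, 0, 0), (39, 0, 0, 0, 0), (40, 0, 0, 0, 0), (40, 0, 0, 0, 0), (41, 0, 0, 0, 0), (41, 0, 0, 0, 0), (53, 0, 0, 0, 0), (53, 0, 0, 0, 0), (42, 0, 0, 0, 0), (43, 0, 0, 0, 0), (42, 0, 0, 0, 0), (44, 0, 0, 0, 0), (43, 0, 0, 0, 0), (44, 0, 0, 0, 0), (45, 0, 0, 0, 0), (46, 0, 0, 0, 0), (45, 0, 0, 0, 0), (44, 0, 0, 0, 0), (46, 0, 0, 0, 0), (44, 0, 0, 0, 0), (47, 0, 0, 0, 0), (46, 0, 0, 0, 0), (47, 0, 0, 0, 0), (43, 0, 0, 0, 0), (46, 0, 0, 0, 0), (43, 0, 0, 0, 0), (47, 0, 0, 0, 0), (45, 0, 0, 0, 0), (47, 0, 0, 0, 0), (42, 0, 0, 0, 0), (45, 0, 0, 0, 0), (42, 0, 0, 0, 0)]]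

def m57_7 : Base := (0, 1, [(0, [0], [0, 1]), (0, [1], [2, 3]), (1, [], [4, 5]), (4, [], [5])])

def l57_7 : Cov := [(480, 0, 1, [(0, [0], [0, 1]), (0, [1], [2, 3]), (1, [], [4, 5]), (4, [], [5])]),
  (480, 0, 1, [(0, [0], [0, 2]), (0, [1], [1, 3]), (1, [], [4, 5]), (4, [], [5])]),
  (480, 0, 1, [(0, [0], [0, 3]), (0, [1], [1, 2]), (1, [], [4, 5]), (4, [], [5])]),
  (480, 0, 1, [(0, [0], [1, 2]), (0, [1], [0, 3]), (1, [], [4, 5]), (4, [], [5])]),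
  (-480, 0, 1, [(0, [0], [1, 2]), (0, [1], [3, 4]), (1, [], [0, 5]), (4, [], [5])]),
  (480, 0, 1, [(0, [0], [1, 3]), (0, [1], [0, 2]), (1, [], [4, 5]), (4, [], [5])]),
  (-480, 0, 1, [(0, [0], [1, 3]), (0, [1], [2, 4]), (1, [], [0, 5]), (4, [], [5])]),
  (-480, 0, 1, [(0, [0], [1, 4]), (0, [1], [2, 3]), (1, [], [0, 5]), (4, [], [5])]),
  (480, 0, 1, [(0, [0], [2, 3]), (0, [1], [0, 1]), (1, [], [4, 5]), (4, [], [5])]),
  (-480, 0, 1, [(0, [0], [2, 3]), (0, [1], [1, 4]), (1, [], [0, 5]), (4, [], [5])]),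
  (-480, 0, 1, [(0, [0], [2, 4]), (0, [1], [1, 3]), (1, [], [0, 5]), (4, [], [5])]),
  (-480, 0, 1, [(0, [0], [3, 4]), (0, [1], [1, 2]), (1, [], [0, 5]), (4, [], [5])])]

def z57_7 : Cov := [(0, 0, 1, [(0, [0], [0, 1]), (0, [1], [2, 4]), (1, [], [3, 5]), (4, [], [5])]),
  (0, 0, 1, [(0, [0], [0, 1]), (0, [1], [3, 4]), (1, [], [2, 5]), (4, [], [5])]),
  (0, 0, 1, [(0, [0], [0, 2]), (0, [1], [1, 4]), (1, [], [3, 5]), (4, [], [5])]),
  (0, 0, 1, [(0, [0], [0, 2]), (0, [1], [3, 4]), (1, [], [1, 5]), (4, [], [5])]),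
  (0, 0, 1, [(0, [0], [0, 3]), (0, [1], [1, 4]), (1, [], [2, 5]), (4, [], [5])]),
  (0, 0, 1, [(0, [0], [0, 3]), (0, [1], [2, 4]), (1, [], [1, 5]), (4, [], [5])]),
  (0, 0, 1, [(0, [0], [0, 4]), (0, [1], [1, 2]), (1, [], [3, 5]), (4, [], [5])]),
  (0, 0, 1, [(0, [0], [0, 4]), (0, [1], [1, 3]), (1, [], [2, 5]), (4, [], [5])]),
  (0, 0, 1, [(0, [0], [0, 4]), (0, [1], [2, 3]), (1, [], [1, 5]), (4, [], [5])]),
  (0, 0, 1, [(0, [0], [4, 1]), (0, [1], [0, 2]), (1, [], [3, 5]), (4, [], [5])]),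
  (0, 0, 1, [(0, [0], [4, 1]), (0, [1], [0, 3]), (1, [], [2, 5]), (4, [], [5])]),
  (0, 0, 1, [(0, [0], [4, 2]), (0, [1], [0, 1]), (1, [], [3, 5]), (4, [], [5])]),
  (0, 0, 1, [(0, [0], [4, 2]), (0, [1], [0, 3]), (1, [], [1, 5]), (4, [], [5])]),
  (0, 0, 1, [(0, [0], [4, 3]), (0, [1], [0, 1]), (1, [], [2, 5]), (4, [], [5])]),
  (0, 0, 1, [(0, [0], [4, 3]), (0, [1], [0, 2]), (1, [], [1, 5]), (4, [], [5])]),
  (0, 0, 1, [(0, [1], [0, 4]), (0, [0], [1, 2]), (1, [], [3, 5]), (4, [], [5])]),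
  (0, 0, 1, [(0, [1], [0, 4]), (0, [0], [1, 3]), (1, [], [2, 5]), (4, [], [5])]),
  (0, 0, 1, [(0, [1], [0, 4]), (0, [0], [2, 3]), (1, [], [1, 5]), (4, [], [5])])]

def w57_7 : List (List Wit) := [[(0, 0, 0, 0, 0), (12, 0, 0, 0, 0), (0, 0, 0, 0, 0), (13, 0, 0, 0, 0), (12, 0, 0, 0, 0), (13, 0, 0, 0, 0), (1, 0, 0, 0, 0), (14, 0, 0, 0, 0), (1, 0, 0, 0, 0), (15, 0, 0, 0, 0), (14, 0, 0, 0, 0), (15, 0, 0, 0, 0), (2, 0, 0, 0, 0), (16, 0, 0, 0, 0), (2, 0, 0, 0, 0), (17, 0, 0, 0, 0), (16, 0, 0, 0, 0), (17, 0, 0, 0, 0), (18, 0, 0, 0, 0), (19, 0, 0, 0, 0), (18, 0, 0, 0, 0), (20, 0, 0, 0, 0), (19, 0, 0, 0, 0), (20, 0, 0, 0, 0), (0, 0, 0, 0, 0), (0, 0, 0, 0, 0), (3, 0, 0, 0, 0), (3, 0, 0, 0, 0), (4, 0, 0, 0, 0), (4, 0, 0, 0, 0), (5, 0, 0, 0, 0), (5, 0, 0, 0, 0), (6, 0, 0, 0, 0), (6, 0, 0, 0, 0), (7, 0, 0, 0, 0), (7, 0, 0, 0, 0), (1, 0, 0, 0, 0), (1, 0, 0, 0, 0), (3, 0, 0, 0, 0), (3, 0, 0, 0, 0), (4,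 0, 0, 0, 0), (4, 0, 0, 0, 0), (8, 0, 0, 0, 0), (8, 0, 0, 0, 0), (9, 0, 0, 0, 0), (9, 0, 0, 0, 0), (10, 0, 0, 0, 0), (10, 0, 0, 0, 0), (2, 0, 0, 0, 0), (2, 0, 0, 0, 0), (5, 0, 0, 0, 0), (5, 0, 0, 0, 0), (6, 0, 0, 0, 0), (6, 0, 0, 0, 0), (8, 0, 0, 0, 0), (8, 0, 0, 0, 0), (9, 0, 0, 0, 0), (9, 0, 0, 0, 0), (11, 0, 0, 0, 0), (11, 0, 0, 0, 0), (18, 0, 0, 0, 0), (19, 0, 0, 0, 0), (18, 0, 0, 0, 0), (20, 0, 0, 0, 0), (19, 0, 0, 0, 0), (20, 0, 0, 0, 0), (21, 0, 0, 0, 0), (22, 0, 0, 0, 0), (21, 0, 0, 0, 0), (7, 0, 0, 0, 0), (22, 0, 0, 0, 0), (7, 0, 0, 0, 0), (23, 0, 0, 0, 0), (24, 0, 0, 0, 0), (23, 0, 0, 0, 0), (10, 0, 0, 0, 0), (24, 0, 0, 0, 0), (10, 0, 0, 0, 0), (25, 0, 0, 0, 0), (26, 0, 0, 0, 0), (25, 0, 0, 0, 0), (11, 0, 0, 0, 0), (26, 0, 0, 0, 0), (11, 0, 0, 0, 0)],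
  [(8, 0, 0, 0, 0), (23, 0, 0, 0, 0), (8, 0, 0, 0, 0), (25, 0, 0, 0, 0), (23, 0, 0, 0, 0), (25, 0, 0, 0, 0), (5, 0, 0, 0, 0), (21, 0, 0, 0, 0), (5, 0, 0, 0, 0), (26, 0, 0, 0, 0), (21, 0, 0, 0, 0), (26, 0, 0, 0, 0), (3, 0, 0, 0, 0), (22, 0, 0, 0, 0), (3, 0, 0, 0, 0), (24, 0, 0, 0, 0), (22, 0, 0, 0, 0), (24, 0, 0, 0, 0), (27, 0, 0, 0, 0), (28, 0, 0, 0, 0), (27, 0, 0, 0, 0), (29, 0, 0, 0, 0), (28, 0, 0, 0, 0), (29, 0, 0, 0, 0), (8, 0, 0, 0, 0), (8, 0, 0, 0, 0), (2, 0, 0, 0, 0), (2, 0, 0, 0, 0), (11, 0, 0, 0, 0), (11, 0, 0, 0, 0), (1, 0, 0, 0, 0), (1, 0, 0, 0, 0), (10, 0, 0, 0, 0), (10, 0, 0, 0, 0), (9, 0, 0, 0, 0), (9, 0, 0, 0, 0), (5, 0, 0, 0, 0), (5, 0, 0, 0, 0), (2, 0, 0, 0, 0), (2, 0, 0, 0, 0), (11, 0, 0, 0, 0), (11, 0, 0, 0, 0), (0, 0, 0, 0, 0), (0, 0, 0, 0, 0), (7, 0, 0, 0, 0), (7, 0, 0, 0, 0), (6, 0, 0, 0, 0), (6, 0, 0, 0, 0), (3, 0, 0, 0, 0), (3, 0, 0, 0, 0), (1, 0, 0, 0, 0), (1,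 0, 0, 0, 0), (10, 0, 0, 0, 0), (10, 0, 0, 0, 0), (0, 0, 0, 0, 0), (0, 0, 0, 0, 0), (7, 0, 0, 0, 0), (7, 0, 0, 0, 0), (4, 0, 0, 0, 0), (4, 0, 0, 0, 0), (27, 0, 0, 0, 0), (28, 0, 0, 0, 0), (27, 0, 0, 0, 0), (29, 0, 0, 0, 0), (28, 0, 0, 0, 0), (29, 0, 0, 0, 0), (14, 0, 0, 0, 0), (16, 0, 0, 0, 0), (14, 0, 0, 0, 0), (9, 0, 0, 0, 0), (16, 0, 0, 0, 0), (9, 0, 0, 0, 0), (12, 0, 0, 0, 0), (17, 0, 0, 0, 0), (12, 0, 0, 0, 0), (6, 0, 0, 0, 0), (17, 0, 0, 0, 0), (6, 0, 0, 0, 0), (13, 0, 0, 0, 0), (15, 0, 0, 0, 0), (13, 0, 0, 0, 0), (4, 0, 0, 0, 0), (15, 0, 0, 0, 0), (4, 0, 0, 0, 0)]]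

def m57_8 : Base := (0, 0, [(0, [0], [0, 1]), (0, [1], [2, 3]), (4, [], [4])])

def l57_8 : Cov := [(480, 0, 0, [(0, [0], [0, 1]), (0, [1], [2, 3]), (4, [], [4])]),
  (480, 0, 0, [(0, [0], [0, 2]), (0, [1], [1, 3]), (4, [], [4])]),
  (480, 0, 0, [(0, [0], [0, 3]), (0, [1], [1, 2]), (4, [], [4])]),
  (480, 0, 0, [(0, [0], [1, 2]), (0, [1], [0, 3]), (4, [], [4])]),
  (-480, 0, 0, [(0, [0], [1, 2]), (0, [1], [3, 4]), (4, [], [0])]),
  (480, 0, 0, [(0, [0], [1, 3]), (0, [1], [0, 2]), (4, [], [4])]),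
  (-480, 0, 0, [(0, [0], [1, 3]), (0, [1], [2, 4]), (4, [], [0])]),
  (-480, 0, 0, [(0, [0], [1, 4]), (0, [1], [2, 3]), (4, [], [0])]),
  (480, 0, 0, [(0, [0], [2, 3]), (0, [1], [0, 1]), (4, [], [4])]),
  (-480, 0, 0, [(0, [0], [2, 3]), (0, [1], [1, 4]), (4, [], [0])]),
  (-480, 0, 0, [(0, [0], [2, 4]), (0, [1], [1, 3]), (4, [], [0])]),
  (-480, 0, 0, [(0, [0], [3, 4]), (0, [1], [1, 2]), (4, [], [0])])]

def z57_8 : Cov := [(0, 0, 0, [(0, [0], [0, 1]), (0, [1], [2, 4]), (4, [], [3])]),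
  (0, 0, 0, [(0, [0], [0, 1]), (0, [1], [3, 4]), (4, [], [2])]),
  (0, 0, 0, [(0, [0], [0, 2]), (0, [1], [1, 4]), (4, [], [3])]),
  (0, 0, 0, [(0, [0], [0, 2]), (0, [1], [3, 4]), (4, [], [1])]),
  (0, 0, 0, [(0, [0], [0, 3]), (0, [1], [1, 4]), (4, [], [2])]),
  (0, 0, 0, [(0, [0], [0, 3]), (0, [1], [2, 4]), (4, [], [1])]),
  (0, 0, 0, [(0, [0], [0, 4]), (0, [1], [1, 2]), (4, [], [3])]),
  (0, 0, 0, [(0, [0], [0, 4]), (0, [1], [1, 3]), (4, [], [2])]),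
  (0, 0, 0, [(0, [0], [0, 4]), (0, [1], [2, 3]), (4, [], [1])]),
  (0, 0, 0, [(0, [0], [4, 1]), (0, [1], [0, 2]), (4, [], [3])]),
  (0, 0, 0, [(0, [0], [4, 1]), (0, [1], [0, 3]), (4, [], [2])]),
  (0, 0, 0, [(0, [0], [4, 2]), (0, [1], [0, 1]), (4, [], [3])]),
  (0, 0, 0, [(0, [0], [4, 2]), (0, [1], [0, 3]), (4, [], [1])]),
  (0, 0, 0, [(0, [0], [4, 3]), (0, [1], [0, 1]), (4, [], [2])]),
  (0, 0, 0, [(0, [0], [4, 3]), (0, [1], [0, 2]), (4, [], [1])]),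
  (0, 0, 0, [(0, [1], [0, 4]), (0, [0], [1, 2]), (4, [], [3])]),
  (0, 0, 0, [(0, [1], [0, 4]), (0, [0], [1, 3]), (4, [], [2])]),
  (0, 0, 0, [(0, [1], [0, 4]), (0, [0], [2, 3]), (4, [], [1])])]

def w57_8 : List (List Wit) := [[(0, 0, 0, 0, 0), (12, 0, 0, 0, 0), (0, 0, 0, 0, 0), (13, 0, 0, 0, 0), (12, 0, 0, 0, 0), (13, 0, 0, 0, 0), (1, 0, 0, 0, 0), (14, 0, 0, 0, 0), (1, 0, 0, 0, 0), (15, 0, 0, 0, 0), (14, 0, 0, 0, 0), (15, 0, 0, 0, 0), (2, 0, 0, 0, 0), (16, 0, 0, 0, 0), (2, 0, 0, 0, 0), (17, 0, 0, 0, 0), (16, 0, 0, 0, 0), (17, 0, 0, 0, 0), (18, 0, 0, 0, 0), (19, 0, 0, 0, 0), (18, 0, 0, 0, 0), (20, 0, 0, 0, 0), (19, 0, 0, 0, 0), (20, 0, 0, 0, 0), (0, 0, 0, 0, 0), (0, 0, 0, 0, 0), (3, 0, 0, 0, 0), (3, 0, 0, 0, 0), (4, 0, 0, 0, 0), (4, 0, 0, 0, 0), (5, 0, 0, 0, 0), (5, 0, 0, 0, 0), (6, 0, 0, 0, 0), (6, 0, 0, 0, 0), (7, 0, 0, 0, 0), (7, 0, 0, 0, 0), (1, 0, 0, 0, 0), (1, 0, 0, 0, 0), (3,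 0, 0, 0, 0), (3, 0, 0, 0, 0), (4, 0, 0, 0, 0), (4, 0, 0, 0, 0), (8, 0, 0, 0, 0), (8, 0, 0, 0, 0), (9, 0, 0, 0, 0), (9, 0, 0, 0, 0), (10, 0, 0, 0, 0), (10, 0, 0, 0, 0), (2, 0, 0, 0, 0), (2, 0, 0, 0, 0), (5, 0, 0, 0, 0), (5, 0, 0, 0, 0), (6, 0, 0, 0, 0), (6, 0, 0, 0, 0), (8, 0, 0, 0, 0), (8, 0, 0, 0, 0), (9, 0, 0, 0, 0), (9, 0, 0, 0, 0), (11, 0, 0, 0, 0), (11, 0, 0, 0, 0), (18, 0, 0, 0, 0), (19, 0, 0, 0, 0), (18, 0, 0, 0, 0), (20, 0, 0, 0, 0), (19, 0, 0, 0, 0), (20, 0, 0, 0, 0), (21, 0, 0, 0, 0), (22, 0, 0, 0, 0), (21, 0, 0, 0, 0), (7, 0, 0, 0, 0), (22, 0, 0, 0, 0), (7, 0, 0, 0, 0), (23, 0, 0, 0, 0), (24, 0, 0, 0, 0), (23, 0, 0, 0, 0), (10, 0, 0, 0, 0), (24, 0, 0, 0, 0), (10, 0, 0, 0, 0), (25, 0, 0, 0, 0), (26, 0, 0, 0, 0), (25, 0, 0, 0, 0), (11, 0, 0, 0, 0), (26, 0, 0, 0, 0), (11, 0, 0, 0, 0)],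
  [(8, 0, 0, 0, 0), (23, 0, 0, 0, 0), (8, 0, 0, 0, 0), (25, 0, 0, 0, 0), (23, 0, 0, 0, 0), (25, 0, 0, 0, 0), (5, 0, 0, 0, 0), (21, 0, 0, 0, 0), (5, 0, 0, 0, 0), (26, 0, 0, 0, 0), (21, 0, 0, 0, 0), (26, 0, 0, 0, 0), (3, 0, 0, 0, 0), (22, 0, 0, 0, 0), (3, 0, 0, 0, 0), (24, 0, 0, 0, 0), (22, 0, 0, 0, 0), (24, 0, 0, 0, 0), (27, 0, 0, 0, 0), (28, 0, 0, 0, 0), (27, 0, 0, 0, 0), (29, 0, 0, 0, 0), (28, 0, 0, 0, 0), (29, 0, 0, 0, 0), (8, 0, 0, 0, 0), (8, 0, 0, 0, 0), (2, 0, 0, 0, 0), (2, 0, 0, 0, 0), (11, 0, 0, 0, 0), (11, 0, 0, 0, 0), (1, 0, 0, 0, 0), (1, 0, 0, 0, 0), (10, 0, 0, 0, 0), (10, 0, 0, 0, 0), (9, 0, 0, 0, 0), (9, 0, 0, 0, 0), (5, 0, 0, 0, 0), (5, 0, 0, 0, 0), (2, 0, 0, 0, 0), (2, 0, 0, 0, 0), (11, 0, 0, 0, 0), (11, 0, 0, 0, 0), (0, 0, 0, 0, 0), (0, 0, 0, 0, 0), (7, 0, 0, 0, 0), (7, 0, 0, 0, 0), (6, 0, 0, 0, 0), (6, 0, 0, 0, 0), (3, 0, 0, 0, 0), (3, 0, 0, 0, 0), (1, 0, 0, 0, 0), (1,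 0, 0, 0, 0), (10, 0, 0, 0, 0), (10, 0, 0, 0, 0), (0, 0, 0, 0, 0), (0, 0, 0, 0, 0), (7, 0, 0, 0, 0), (7, 0, 0, 0, 0), (4, 0, 0, 0, 0), (4, 0, 0, 0, 0), (27, 0, 0, 0, 0), (28, 0, 0, 0, 0), (27, 0, 0, 0, 0), (29, 0, 0, 0, 0), (28, 0, 0, 0, 0), (29, 0, 0, 0, 0), (14, 0, 0, 0, 0), (16, 0, 0, 0, 0), (14, 0, 0, 0, 0), (9, 0, 0, 0, 0), (16, 0, 0, 0, 0), (9, 0, 0, 0, 0), (12, 0, 0, 0, 0), (17, 0, 0, 0, 0), (12, 0, 0, 0, 0), (6, 0, 0, 0, 0), (17, 0, 0, 0, 0), (6, 0, 0, 0, 0), (13, 0, 0, 0, 0), (15, 0, 0, 0, 0), (13, 0, 0, 0, 0), (4, 0, 0, 0, 0), (15, 0, 0, 0, 0), (4, 0, 0, 0, 0)]]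

def m57_9 : Base := (0, 0, [(0, [0], [0, 1]), (2, [1], [2, 3, 4])])

def l57_9 : Cov := [(480, 0, 0, [(0, [0], [0, 1]), (2, [1], [2, 3, 4])]),
  (480, 0, 0, [(0, [0], [0, 2]), (2, [1], [1, 3, 4])]),
  (480, 0, 0, [(0, [0], [0, 3]), (2, [1], [1, 2, 4])]),
  (-480, 0, 0, [(0, [0], [1, 4]), (2, [1], [2, 3, 0])]),
  (-480, 0, 0, [(0, [0], [2, 4]), (2, [1], [1, 3, 0])]),
  (-480, 0, 0, [(0, [0], [3, 4]), (2, [1], [1, 2, 0])]),
  (480, 0, 0, [(0, [1], [0, 1]), (2, [0], [2, 3, 4])]),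
  (480, 0, 0, [(0, [1], [0, 2]), (2, [0], [1, 3, 4])]),
  (480, 0, 0, [(0, [1], [0, 3]), (2, [0], [1, 2, 4])]),
  (-480, 0, 0, [(0, [1], [1, 4]), (2, [0], [2, 3, 0])]),
  (-480, 0, 0, [(0, [1], [2, 4]), (2, [0], [1, 3, 0])]),
  (-480, 0, 0, [(0, [1], [3, 4]), (2, [0], [1, 2, 0])])]

def z57_9 : Cov := [(0, 0, 0, [(0, [0], [0, 4]), (2, [1], [1, 2, 3])]),
  (0, 0, 0, [(0, [0], [1, 2]), (2, [1], [0, 3, 4])]),
  (0, 0, 0, [(0, [0], [1, 3]), (2, [1], [0, 2, 4])]),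
  (0, 0, 0, [(0, [0], [2, 3]), (2, [1], [0, 1, 4])]),
  (0, 0, 0, [(0, [1], [0, 4]), (2, [0], [1, 2, 3])]),
  (0, 0, 0, [(0, [1], [1, 2]), (2, [0], [0, 3, 4])]),
  (0, 0, 0, [(0, [1], [1, 3]), (2, [0], [0, 2, 4])]),
  (0, 0, 0, [(0, [1], [2, 3]), (2, [0], [0, 1, 4])])]

def w57_9 : List (List Wit) := [[(0, 0, 0, 0, 0), (0, 0, 0, 0, 0), (0, 0, 0, 0, 0), (0, 0, 0, 0, 0), (0, 0, 0, 0, 0), (0, 0, 0, 0, 0), (1, 0, 0, 0, 0), (1, 0, 0, 0, 0), (1, 0, 0, 0, 0), (1, 0, 0, 0, 0), (1, 0, 0, 0, 0), (1, 0, 0, 0, 0), (2, 0, 0, 0, 0), (2, 0, 0, 0, 0), (2, 0, 0, 0, 0), (2, 0, 0, 0, 0), (2, 0, 0, 0, 0), (2, 0, 0, 0, 0), (12, 0, 0, 0, 0), (12, 0, 0, 0, 0), (12, 0, 0, 0, 0), (12, 0, 0, 0, 0), (12, 0, 0, 0, 0), (12, 0, 0, 0, 0), (0, 0, 0, 0, 0), (0, 0, 0, 0, 0), (13, 0, 0, 0, 0), (13, 0, 0, 0, 0), (13, 0, 0, 0, 0), (13, 0, 0, 0, 0), (14, 0, 0, 0, 0), (14, 0, 0, 0, 0), (14, 0, 0, 0, 0), (14, 0, 0, 0, 0), (3,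 0, 0, 0, 0), (3, 0, 0, 0, 0), (1, 0, 0, 0, 0), (1, 0, 0, 0, 0), (13, 0, 0, 0, 0), (13, 0, 0, 0, 0), (13, 0, 0, 0, 0), (13, 0, 0, 0, 0), (15, 0, 0, 0, 0), (15, 0, 0, 0, 0), (15, 0, 0, 0, 0), (15, 0, 0, 0, 0), (4, 0, 0, 0, 0), (4, 0, 0, 0, 0), (2, 0, 0, 0, 0), (2, 0, 0, 0, 0), (14, 0, 0, 0, 0), (14, 0, 0, 0, 0), (14, 0, 0, 0, 0), (14, 0, 0, 0, 0), (15, 0, 0, 0, 0), (15, 0, 0, 0, 0), (15, 0, 0, 0, 0), (15, 0, 0, 0, 0), (5, 0, 0, 0, 0), (5, 0, 0, 0, 0), (12, 0, 0, 0, 0), (12, 0, 0, 0, 0), (12, 0, 0, 0, 0), (12, 0, 0, 0, 0), (12, 0, 0, 0, 0), (12, 0, 0, 0, 0), (3, 0, 0, 0, 0), (3, 0, 0, 0, 0), (3, 0, 0, 0, 0), (3, 0, 0, 0, 0), (3, 0, 0, 0, 0), (3, 0, 0, 0, 0), (4, 0, 0, 0, 0), (4, 0, 0, 0, 0), (4, 0, 0, 0, 0), (4, 0, 0, 0, 0), (4, 0, 0, 0, 0), (4, 0, 0, 0, 0), (5, 0, 0, 0, 0), (5, 0, 0, 0, 0), (5, 0, 0, 0, 0), (5, 0, 0, 0, 0), (5, 0, 0, 0, 0), (5, 0, 0, 0, 0)],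
  [(6, 0, 0, 0, 0), (6, 0, 0, 0, 0), (6, 0, 0, 0, 0), (6, 0, 0, 0, 0), (6, 0, 0, 0, 0), (6, 0, 0, 0, 0), (7, 0, 0, 0, 0), (7, 0, 0, 0, 0), (7, 0, 0, 0, 0), (7, 0, 0, 0, 0), (7, 0, 0, 0, 0), (7, 0, 0, 0, 0), (8, 0, 0, 0, 0), (8, 0, 0, 0, 0), (8, 0, 0, 0, 0), (8, 0, 0, 0, 0), (8, 0, 0, 0, 0), (8, 0, 0, 0, 0), (16, 0, 0, 0, 0), (16, 0, 0, 0, 0), (16, 0, 0, 0, 0), (16, 0, 0, 0, 0), (16, 0, 0, 0, 0), (16, 0, 0, 0, 0), (6, 0, 0, 0, 0), (6, 0, 0, 0, 0), (17, 0, 0, 0, 0), (17, 0, 0, 0, 0), (17, 0, 0, 0, 0), (17, 0, 0, 0, 0), (18, 0, 0, 0, 0), (18, 0, 0, 0, 0), (18, 0, 0, 0, 0), (18, 0, 0, 0, 0), (9, 0, 0, 0, 0), (9, 0, 0, 0, 0), (7, 0, 0, 0, 0), (7, 0, 0, 0, 0), (17, 0, 0, 0, 0), (17, 0, 0, 0, 0), (17, 0, 0, 0, 0), (17, 0, 0, 0, 0), (19, 0, 0, 0, 0), (19, 0, 0, 0, 0), (19, 0, 0, 0, 0), (19, 0, 0, 0, 0), (10, 0, 0, 0, 0), (10, 0, 0, 0, 0), (8, 0, 0, 0, 0), (8, 0, 0, 0, 0), (18, 0, 0, 0, 0), (18,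 0, 0, 0, 0), (18, 0, 0, 0, 0), (18, 0, 0, 0, 0), (19, 0, 0, 0, 0), (19, 0, 0, 0, 0), (19, 0, 0, 0, 0), (19, 0, 0, 0, 0), (11, 0, 0, 0, 0), (11, 0, 0, 0, 0), (16, 0, 0, 0, 0), (16, 0, 0, 0, 0), (16, 0, 0, 0, 0), (16, 0, 0, 0, 0), (16, 0, 0, 0, 0), (16, 0, 0, 0, 0), (9, 0, 0, 0, 0), (9, 0, 0, 0, 0), (9, 0, 0, 0, 0), (9, 0, 0, 0, 0), (9, 0, 0, 0, 0), (9, 0, 0, 0, 0), (10, 0, 0, 0, 0), (10, 0, 0, 0, 0), (10, 0, 0, 0, 0), (10, 0, 0, 0, 0), (10, 0, 0, 0, 0), (10, 0, 0, 0, 0), (11, 0, 0, 0, 0), (11, 0, 0, 0, 0), (11, 0, 0, 0, 0), (11, 0, 0, 0, 0), (11, 0, 0, 0, 0), (11, 0, 0, 0, 0)]]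

theorem tr57 : trK keys lk57 kl57 = true := by
  decide +kernel

theorem x57_0 : expB 2 5 dg11 dg5 m57_0 (l57_0 ++ z57_0) w57_0 = true := by
  decide +kernel

theorem x57_1 : expB 2 5 dg11 dg5 m57_1 (l57_1 ++ z57_1) w57_1 = true := by
  decide +kernel

theorem x57_2 : expB 2 5 dg11 dg5 m57_2 (l57_2 ++ z57_2) w57_2 = true := by
  decide +kernel

theorem x57_3 : expB 2 5 dg11 dg5 m57_3 (l57_3 ++ z57_3) w57_3 = true := by
  decide +kernel

theorem x57_4 : expB 2 5 dg11 dg5 m57_4 (l57_4 ++ z57_4) w57_4 = true := by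
  decide +kernel

theorem x57_5 : expB 2 5 dg11 dg5 m57_5 (l57_5 ++ z57_5) w57_5 = true := by
  decide +kernel

theorem x57_6 : expB 2 5 dg11 dg5 m57_6 (l57_6 ++ z57_6) w57_6 = true := by
  decide +kernel

theorem x57_7 : expB 2 5 dg11 dg5 m57_7 (l57_7 ++ z57_7) w57_7 = true := by
  decide +kernel

theorem x57_8 : expB 2 5 dg11 dg5 m57_8 (l57_8 ++ z57_8) w57_8 = true := by
  decide +kernel

theorem x57_9 : expB 2 5 dg11 dg5 m57_9 (l57_9 ++ z57_9) w57_9 = true := by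
  decide +kernel

theorem t57_0_0 : chkS lk57 2 5 [(1, m57_0)] l57_0
  [(103, 16, 16, 34891056, 52696656), (104, 16, 16, 34891056, 52696656), (104, 16, 16, 34887216, 36968016), (93, 16, 16, 34891056, 52696656), (95, 16, 16, 34891056, 52696656), (80, 16, 16, 35017776, 70391376), (93, 16, 16, 34887216, 36968016), (95, 16, 16, 34887216, 36968016), (80, 16, 16, 35013936, 69408336), (154, 16, 16, 34891056, 52696656), (149, 1, 1, 50618901, 50618901), (66, 16, 16, 33969201, 70391301), (149, 1, 1, 50603541, 33841941), (66, 16, 16, 33965361, 69408261), (27, 1, 1, 34825476, 52446801), (149, 16, 16, 50618961, 51667461), (93, 1, 1, 34891011, 52692561), (80, 1, 1, 35017731, 70387281), (174, 16, 16, 34956096, 54601296), (142, 16, 16, 33968961, 70329861), (140, 16, 16, 33907521, 54601221), (149, 16, 16, 50603601, 34890501), (93, 1, 1, 34887171, 36963921), (80, 1, 1, 35013891, 69404241), (174, 16, 16,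 34944576, 37828176), (142, 16, 16, 33961281, 69285381), (140, 16, 16, 33896001, 37828101), (80, 1, 1, 19096836, 52446561), (80, 1, 1, 19092996, 36717921), (79, 1, 1, 34891011, 52692561), (142, 16, 16, 2188371, 51512646), (140, 1, 1, 33907476, 54535701), (138, 16, 16, 33776961, 52512261), (142, 16, 16, 2180691, 34800966), (140, 1, 1, 33895956, 37762581), (138, 16, 16, 33773121, 36783621), (155, 16, 16, 34891056, 52696656), (155, 16, 16, 34887216, 36968016), (150, 16, 16, 50741841, 68379141), (66, 1, 1, 33969171, 70387221), (150, 16, 16, 50734161, 68313861), (66, 1, 1, 33965331, 69404181), (66, 1, 1, 2188596, 52434246), (66, 1, 1, 2184756, 36705606), (142, 1, 1, 2188341, 50468166), (138, 1, 1, 33776916, 52446741), (142, 1, 1, 2180661, 33756486), (138, 1, 1, 33773076, 36718101)]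
  [(27, -288), (66, -384), (79, -288), (80, -384), (93, 960), (95, 192), (103, 288), (104, 192), (138, -768), (140, -768), (142, -768), (149, 960), (150, 192), (154, 288), (155, 192), (174, 384)] = true := by
  decide +kernel

theorem t57_0_1 : chkS lk57 2 5 [(1, m57_0)] l57_1
  [(104, 16, 16, 34891056, 52696656), (103, 16, 16, 34891056, 52696656), (104, 16, 16, 34887216, 36968016), (95, 16, 16, 34891056, 52696656), (93, 16, 16, 34891056, 52696656), (80, 16, 16, 35017776, 70391376), (95, 16, 16, 34887216, 36968016), (93, 16, 16, 34887216, 36968016), (80, 16, 16, 35013936, 69408336), (155, 16, 16, 34891056, 52696656), (155, 16, 16, 34887216, 36968016), (66, 16, 16, 33969201, 70391301), (149, 1, 1, 50618901, 50618901), (66, 16, 16, 33965361, 69408261), (149, 1, 1, 50603541, 33841941), (66, 1, 1, 2188596, 52434246), (66, 1, 1, 2184756, 36705606), (150, 16, 16, 50741841, 68379141), (66, 1,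 1, 33969171, 70387221), (80, 1, 1, 35017731, 70387281), (93, 1, 1, 34891011, 52692561), (142, 16, 16, 33968961, 70329861), (174, 16, 16, 34956096, 54601296), (142, 1, 1, 2188341, 50468166), (138, 1, 1, 33776916, 52446741), (150, 16, 16, 50734161, 68313861), (66, 1, 1, 33965331, 69404181), (80, 1, 1, 35013891, 69404241), (93, 1, 1, 34887171, 36963921), (142, 16, 16, 33961281, 69285381), (174, 16, 16, 34944576, 37828176), (142, 1, 1, 2180661, 33756486), (138, 1, 1, 33773076, 36718101), (80, 1, 1, 19092996, 36717921), (80, 1, 1, 19096836, 52446561), (79, 1, 1, 34891011, 52692561), (140, 1, 1, 33907476, 54535701), (142, 16, 16, 2188371, 51512646), (138, 16, 16, 33776961, 52512261), (140, 1, 1, 33895956, 37762581), (142, 16, 16, 2180691, 34800966), (138, 16, 16, 33773121, 36783621), (154, 16, 16, 34891056, 52696656), (149, 16, 16, 50618961, 51667461), (149, 16, 16, 50603601, 34890501), (27,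 1, 1, 34825476, 52446801), (140, 16, 16, 33907521, 54601221), (140, 16, 16, 33896001, 37828101)]
  [(27, -96), (66, 192), (79, -96), (80, 192), (95, 384), (103, 96), (104, 384), (138, -576), (140, -576), (142, -576), (150, 384), (154, 96), (155, 384), (174, -192)] = true := by
  decide +kernel

theorem t57_0_2 : chkS lk57 2 5 [(1, m57_0)] l57_2
  [(94, 16, 16, 34891056, 52696656), (96, 16, 16, 34891056, 52696656), (94, 16, 16, 34887216, 36968016), (96, 16, 16, 34887216, 36968016), (57, 1, 1, 69297411, 52823361), (57, 1, 1, 69293571, 37094721), (88, 16, 16, 34891056, 52696656), (78, 16, 16, 35017776, 70391376), (92, 16, 16, 35013936, 69408336), (76, 16, 16, 34956336, 54662736), (92, 16, 16, 35017776, 70391376), (76, 16, 16, 34948656, 37951056), (149, 16, 16, 34891056, 52696656), (149, 16, 16, 34887216, 36968016), (145, 16, 16, 34891056, 52696656), (26, 1, 1, 35017731, 70387281), (64, 16,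 16, 33907761, 54662661), (64, 16, 16, 33900081, 37950981), (46, 1, 1, 85156866, 56770641), (146, 1, 1, 85206531, 40108881), (89, 1, 1, 101983491, 103023441), (77, 1, 1, 68560131, 69600081), (54, 1, 1, 86074371, 56755521), (136, 16, 16, 50745921, 70345221), (46, 1, 1, 85149186, 40058961), (146, 1, 1, 85221891, 56885841), (89, 1, 1, 101995011, 104071761), (77, 1, 1, 68571651, 70648401), (54, 1, 1, 86066691, 40043841), (136, 16, 16, 50734401, 69296901), (47, 1, 1, 68498946, 38154321), (47, 1, 1, 68510466, 54927441), (147, 1, 1, 85344771, 73597521), (64, 1, 1, 67461651, 54919701), (147, 1, 1, 85337091, 73532241), (64, 1, 1, 67446291, 38142741), (91, 1, 1, 85344771, 73597521), (76, 1, 1, 68510211, 54919761), (91, 1, 1, 85337091, 73532241), (76, 1, 1, 68494851, 38142801), (18, 16, 16, 50619681, 52715781), (133, 16, 16, 33776961, 52512261), (149, 16, 16, 85221936, 56889936), (150, 16, 16, 85344816,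 73601616), (149, 16, 16, 85206576, 40112976), (150, 16, 16, 85337136, 73536336), (66, 16, 16, 70345986, 52842561), (66, 16, 16, 70342146, 37113921), (145, 1, 1, 34891011, 52692561), (26, 16, 16, 35017776, 70391376), (148, 1, 1, 35013891, 69404241), (64, 1, 1, 33907731, 54658581), (148, 1, 1, 35017731, 70387281), (64, 1, 1, 33900051, 37946901), (94, 16, 16, 85221936, 56889936), (94, 16, 16, 85206576, 40112976), (88, 1, 1, 34891011, 52692561), (78, 1, 1, 35017731, 70387281), (76, 1, 1, 34956291, 54658641), (76, 1, 1, 34948611, 37946961), (46, 16, 16, 85156896, 56770896), (89, 16, 16, 101983536, 103027536), (146, 16, 16, 85206576, 40112976), (65, 16, 16, 67511601, 69604101), (63, 16, 16, 84042801, 56759301), (135, 16, 16, 100869441, 102843141), (46, 16, 16, 85149216, 40059216), (89, 16, 16, 101995056, 104075856), (146, 16, 16, 85221936, 56889936), (65, 16, 16, 67523121, 70652421), (63, 16,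 16, 84035121, 40047621), (135, 16, 16, 100880961, 103891461), (47, 16, 16, 68498976, 38154576), (47, 16, 16, 68510496, 54927696), (91, 16, 16, 85344816, 73601616), (76, 16, 16, 68510256, 54923856), (91, 16, 16, 85337136, 73536336), (76, 16, 16, 68494896, 38146896), (147, 16, 16, 85344816, 73601616), (64, 16, 16, 67461681, 54923781), (147, 16, 16, 85337136, 73536336), (64, 16, 16, 67446321, 38146821), (133, 1, 1, 33776916, 52446741), (18, 1, 1, 50619666, 52715541)]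
  [(18, -288), (46, 384), (47, -384), (54, -192), (57, 192), (63, -192), (64, -576), (65, -192), (66, 192), (76, -576), (77, -192), (88, 288), (89, 384), (91, -384), (92, 192), (94, 576), (96, 192), (133, -288), (135, -192), (136, -192), (145, 288), (146, 384), (147, -384), (148, 192), (149, 576), (150, 192)] = true := by
  decide +kernel

theorem t57_0_3 : chkS lk57 2 5 [(1, m57_0)] l57_3
  [(57, 16, 16, 19289136, 70391136), (57, 16, 16, 19285296, 69408096), (24, 16, 16, 67331361, 52838661), (23, 1, 1, 84292116, 73413141), (55, 16, 16, 19227696, 54662496), (55, 16, 16, 19220016, 37950816), (66, 16, 16, 20337666, 70406241), (66, 16, 16, 20333826, 69423201), (64, 16, 16, 20276226, 54677601), (64, 16, 16, 20268546, 37965921), (47, 1, 1, 85156866, 56770641), (147, 1, 1, 104072481, 103043331), (55, 1, 1, 86074371, 56755521), (159, 16, 16, 20336706, 70340706), (47, 1, 1, 85149186, 40058961),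 (147, 1, 1, 104091681, 104091906), (55, 1, 1, 86066691, 40043841), (159, 16, 16, 20317506, 69292131), (52, 1, 1, 68379906, 52838481), (151, 1, 1, 85221891, 56885841), (151, 1, 1, 85206531, 40108881), (97, 1, 1, 85221891, 56885841), (97, 1, 1, 85206531, 40108881), (157, 16, 16, 19948866, 52514916), (66, 1, 1, 20337696, 70406496), (66, 1, 1, 20333856, 69423456), (27, 16, 16, 67331361, 52838661), (26, 16, 16, 50746401, 70410501), (64, 1, 1, 20276256, 54677856), (64, 1, 1, 20268576, 37966176), (57, 1, 1, 19289091, 70387041), (57, 1, 1, 19285251, 69404001), (55, 1, 1, 19227651, 54658401), (55, 1, 1, 19219971, 37946721), (47, 16, 16, 85156896, 56770896), (90, 16, 16, 101983536, 103027536), (64, 16, 16, 87122946, 56774721), (159, 1, 1, 20336676, 70275426), (47, 16, 16, 85149216, 40059216), (90, 16, 16, 101995056, 104075856), (64, 16, 16, 87115266, 40063041), (159, 1, 1, 20317476, 69226851),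 (52, 16, 16, 68379936, 52838736), (97, 16, 16, 85221936, 56889936), (97, 16, 16, 85206576, 40112976), (151, 16, 16, 85221936, 56889936), (151, 16, 16, 85206576, 40112976), (157, 1, 1, 19948836, 52449636)]
  [(23, 288), (24, 192), (26, 288), (27, 192), (47, 384), (52, -384), (57, 768), (66, 768), (90, 192), (97, -960), (147, 192), (151, -960), (157, -576), (159, -384)] = true := by
  decide +kernel

theorem t57_0_4 : chkS lk57 2 5 [(1, m57_0)] l57_4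
  [(96, 16, 16, 34891056, 52696656), (94, 16, 16, 34891056, 52696656), (96, 16, 16, 34887216, 36968016), (94, 16, 16, 34887216, 36968016), (57, 1, 1, 69293571, 37094721), (57, 1, 1, 69297411, 52823361), (78, 16, 16, 35017776, 70391376), (88, 16, 16, 34891056, 52696656), (76, 16, 16, 34956336, 54662736), (92, 16, 16, 35013936, 69408336), (76, 16, 16, 34948656, 37951056), (92, 16, 16, 35017776, 70391376), (150, 16, 16, 34891056, 52696656), (150, 16, 16, 34887216, 36968016), (26, 1, 1, 35017731, 70387281), (145, 16, 16, 34891056, 52696656), (148, 16, 16, 35013936, 69408336), (148, 16, 16, 35017776, 70391376), (48, 1, 1, 85156866, 56770641), (65, 1, 1, 67511571, 69600021), (77, 1, 1, 68560131, 69600081), (89, 1, 1, 101983491, 103023441), (56, 1, 1, 86074371, 56755521), (135, 1, 1, 100869396, 102777621), (48, 1, 1, 85149186, 40058961), (65, 1, 1, 67523091, 70648341), (77, 1, 1, 68571651, 70648401),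 (89, 1, 1, 101995011, 104071761), (56, 1, 1, 86066691, 40043841), (135, 1, 1, 100880916, 103825941), (47, 1, 1, 68510466, 54927441), (47, 1, 1, 68498946, 38154321), (64, 1, 1, 67461651, 54919701), (147, 1, 1, 85344771, 73597521), (64, 1, 1, 67446291, 38142741), (147, 1, 1, 85337091, 73532241), (76, 1, 1, 68510211, 54919761), (91, 1, 1, 85344771, 73597521), (76, 1, 1, 68494851, 38142801), (91, 1, 1, 85337091, 73532241), (133, 16, 16, 33776961, 52512261), (18, 16, 16, 50619681, 52715781), (150, 16, 16, 85344816, 73601616), (149, 16, 16, 85221936, 56889936), (150, 16, 16, 85337136, 73536336), (149, 16, 16, 85206576, 40112976), (66, 16, 16, 70342146, 37113921), (66, 16, 16, 70345986, 52842561), (26, 16, 16, 35017776, 70391376), (145, 1, 1, 34891011, 52692561), (64, 1, 1, 33907731, 54658581), (148, 1, 1, 35013891, 69404241), (64, 1, 1, 33900051, 37946901), (148, 1, 1, 35017731, 70387281),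 (96, 16, 16, 85344816, 73601616), (96, 16, 16, 85337136, 73536336), (78, 1, 1, 35017731, 70387281), (88, 1, 1, 34891011, 52692561), (92, 1, 1, 35013891, 69404241), (92, 1, 1, 35017731, 70387281), (48, 16, 16, 85156896, 56770896), (77, 16, 16, 68560176, 69604176), (65, 16, 16, 67511601, 69604101), (146, 16, 16, 85206576, 40112976), (65, 16, 16, 87122946, 56774721), (136, 1, 1, 50745876, 70279701), (48, 16, 16, 85149216, 40059216), (77, 16, 16, 68571696, 70652496), (65, 16, 16, 67523121, 70652421), (146, 16, 16, 85221936, 56889936), (65, 16, 16, 87115266, 40063041), (136, 1, 1, 50734356, 69231381), (47, 16, 16, 68510496, 54927696), (47, 16, 16, 68498976, 38154576), (76, 16, 16, 68510256, 54923856), (91, 16, 16, 85344816, 73601616), (76, 16, 16, 68494896, 38146896), (91, 16, 16, 85337136, 73536336), (64, 16, 16, 67461681, 54923781), (147, 16, 16, 85344816, 73601616), (64, 16, 16, 67446321,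 38146821), (147, 16, 16, 85337136, 73536336), (18, 1, 1, 50619666, 52715541), (133, 1, 1, 33776916, 52446741)]
  [(18, -288), (26, 288), (47, -384), (48, 384), (56, -192), (57, 192), (64, -192), (65, 192), (66, 192), (76, -192), (77, 384), (78, 288), (89, -192), (91, -576), (94, 192), (96, 576), (133, -288), (135, -192), (136, -192), (146, -192), (147, -576), (149, 192), (150, 576)] = true := by
  decide +kernel

theorem t57_0_5 : chkS lk57 2 5 [(1, m57_0)] l57_5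
  [(57, 1, 1, 69297411, 52823361), (94, 16, 16, 34887216, 36968016), (57, 1, 1, 69293571, 37094721), (94, 16, 16, 34891056, 52696656), (96, 16, 16, 34887216, 36968016), (96, 16, 16, 34891056, 52696656), (92, 16, 16, 35013936, 69408336), (88, 16, 16, 34891056, 52696656), (76, 16, 16, 34956336, 54662736), (78, 16, 16, 35017776, 70391376), (92, 16, 16, 35017776, 70391376), (76, 16, 16, 34948656, 37951056), (148, 16, 16, 35013936, 69408336), (64, 16, 16, 33907761, 54662661), (149, 16, 16, 34891056, 52696656), (150, 16, 16, 34891056, 52696656), (148, 16, 16, 35017776, 70391376), (64, 16, 16, 33900081, 37950981), (149, 16, 16, 34887216, 36968016), (150, 16, 16, 34887216, 36968016), (56, 1, 1, 86074371, 56755521), (54, 1, 1, 86074371, 56755521), (46, 1, 1, 85156866, 56770641), (48, 1, 1, 85156866, 56770641), (135, 1, 1, 100869396, 102777621), (136, 16, 16, 50745921, 70345221), (146, 1, 1, 85206531,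 40108881), (65, 1, 1, 67511571, 69600021), (56, 1, 1, 86066691, 40043841), (54, 1, 1, 86066691, 40043841), (46, 1, 1, 85149186, 40058961), (48, 1, 1, 85149186, 40058961), (135, 1, 1, 100880916, 103825941), (136, 16, 16, 50734401, 69296901), (146, 1, 1, 85221891, 56885841), (65, 1, 1, 67523091, 70648341), (147, 1, 1, 85337091, 73532241), (147, 1, 1, 85344771, 73597521), (64, 1, 1, 67446291, 38142741), (47, 1, 1, 68498946, 38154321), (64, 1, 1, 67461651, 54919701), (47, 1, 1, 68510466, 54927441), (91, 1, 1, 85337091, 73532241), (91, 1, 1, 85344771, 73597521), (76, 1, 1, 68494851, 38142801), (76, 1, 1, 68510211, 54919761), (18, 16, 16, 50619681, 52715781), (133, 16, 16, 33776961, 52512261), (66, 16, 16, 70345986, 52842561), (149, 16, 16, 85206576, 40112976), (66, 16, 16, 70342146, 37113921), (149, 16, 16, 85221936, 56889936), (150, 16, 16, 85337136, 73536336), (150, 16, 16, 85344816, 73601616),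 (148, 1, 1, 35013891, 69404241), (145, 1, 1, 34891011, 52692561), (64, 1, 1, 33907731, 54658581), (26, 16, 16, 35017776, 70391376), (148, 1, 1, 35017731, 70387281), (64, 1, 1, 33900051, 37946901), (92, 1, 1, 35013891, 69404241), (76, 1, 1, 34956291, 54658641), (94, 16, 16, 85221936, 56889936), (96, 16, 16, 85344816, 73601616), (92, 1, 1, 35017731, 70387281), (76, 1, 1, 34948611, 37946961), (94, 16, 16, 85206576, 40112976), (96, 16, 16, 85337136, 73536336), (65, 16, 16, 87122946, 56774721), (63, 16, 16, 84042801, 56759301), (46, 16, 16, 85156896, 56770896), (48, 16, 16, 85156896, 56770896), (136, 1, 1, 50745876, 70279701), (135, 16, 16, 100869441, 102843141), (89, 16, 16, 101983536, 103027536), (77, 16, 16, 68560176, 69604176), (65, 16, 16, 87115266, 40063041), (63, 16, 16, 84035121, 40047621), (46, 16, 16, 85149216, 40059216), (48, 16, 16, 85149216, 40059216), (136, 1, 1, 50734356, 69231381),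 (135, 16, 16, 100880961, 103891461), (89, 16, 16, 101995056, 104075856), (77, 16, 16, 68571696, 70652496), (91, 16, 16, 85337136, 73536336), (91, 16, 16, 85344816, 73601616), (76, 16, 16, 68494896, 38146896), (47, 16, 16, 68498976, 38154576), (76, 16, 16, 68510256, 54923856), (47, 16, 16, 68510496, 54927696), (147, 16, 16, 85337136, 73536336), (147, 16, 16, 85344816, 73601616), (64, 16, 16, 67446321, 38146821), (64, 16, 16, 67461681, 54923781), (133, 1, 1, 33776916, 52446741), (18, 1, 1, 50619666, 52715541)]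
  [(18, -192), (26, 96), (46, -192), (47, -576), (48, -192), (54, 96), (56, 96), (57, 288), (63, 96), (64, -96), (66, 288), (76, -96), (77, -96), (78, 96), (88, 96), (89, -96), (91, -480), (92, 384), (94, 96), (96, 96), (133, -192), (135, 192), (136, 192), (145, 96), (146, -96), (147, -480), (148, 384), (149, 96), (150, 96)] = true := by
  decide +kernel

theorem t57_0_6 : chkS lk57 2 5 [(1, m57_0)] l57_6
  [(24, 16, 16, 67331361, 52838661), (57, 16, 16, 19285296, 69408096), (57, 16, 16, 19289136, 70391136), (55, 16, 16, 19227696, 54662496), (23, 1, 1, 84292116, 73413141), (55, 16, 16, 19220016, 37950816), (64, 16, 16, 20276226, 54677601), (66, 16, 16, 20337666, 70406241), (64, 16, 16, 20268546, 37965921), (66, 16, 16, 20333826, 69423201), (55, 1, 1, 86074371, 56755521), (47, 1, 1, 85156866, 56770641), (159, 16, 16, 20336706, 70340706), (147, 1, 1, 104072481, 103043331), (55, 1, 1, 86066691,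 40043841), (47, 1, 1, 85149186, 40058961), (159, 16, 16, 20317506, 69292131), (147, 1, 1, 104091681, 104091906), (151, 1, 1, 85206531, 40108881), (151, 1, 1, 85221891, 56885841), (52, 1, 1, 68379906, 52838481), (97, 1, 1, 85206531, 40108881), (97, 1, 1, 85221891, 56885841), (157, 16, 16, 19948866, 52514916), (27, 16, 16, 67331361, 52838661), (66, 1, 1, 20333856, 69423456), (66, 1, 1, 20337696, 70406496), (64, 1, 1, 20276256, 54677856), (26, 16, 16, 50746401, 70410501), (64, 1, 1, 20268576, 37966176), (55, 1, 1, 19227651, 54658401), (57, 1, 1, 19289091, 70387041), (55, 1, 1, 19219971, 37946721), (57, 1, 1, 19285251, 69404001), (64, 16, 16, 87122946, 56774721), (47, 16, 16, 85156896, 56770896), (159, 1, 1, 20336676, 70275426), (90, 16, 16, 101983536, 103027536), (64, 16, 16, 87115266, 40063041), (47, 16, 16, 85149216, 40059216), (159, 1, 1, 20317476, 69226851), (90, 16, 16, 101995056, 104075856),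 (97, 16, 16, 85206576, 40112976), (97, 16, 16, 85221936, 56889936), (52, 16, 16, 68379936, 52838736), (151, 16, 16, 85206576, 40112976), (151, 16, 16, 85221936, 56889936), (157, 1, 1, 19948836, 52449636)]
  [(23, 192), (24, 288), (26, 192), (27, 288), (47, -384), (52, -576), (55, 960), (57, 192), (64, 960), (66, 192), (90, -192), (97, -960), (147, -192), (151, -960), (157, -384), (159, 384)] = true := by
  decide +kernel

theorem t57_0_7 : chkS lk57 2 5 [(1, m57_0)] l57_7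
  [(49, 16, 16, 101930016, 103956816), (99, 16, 16, 101995056, 104075856), (99, 16, 16, 101983536, 103027536), (152, 16, 16, 101995056, 104075856), (147, 16, 16, 70668306, 70668306), (152, 16, 16, 101983536, 103027536), (147, 16, 16, 70649106, 69619731), (26, 1, 1, 100881426, 103956501), (49, 1, 1, 101929986, 103956561), (23, 16, 16, 101003841, 104935941), (90, 1, 1, 68560131, 69600081), (90, 1, 1, 68571651, 70648401)]
  [(23, -480), (26, -480), (49, 960), (90, -960), (99, 960), (147, -960), (152, 960)] = true := by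
  decide +kernel

theorem t57_0_8 : chkS lk57 2 5 [(1, m57_0)] l57_8
  [(50, 16, 16, 1266720, 3293520), (101, 16, 16, 1331760, 3412560), (101, 16, 16, 1320240, 2364240), (153, 16, 16, 1331760, 3412560), (37, 1, 1, 1393155, 4391505), (153, 16, 16, 1320240, 2364240), (37, 1, 1, 1385475, 4326225), (36, 1, 1, 1201155, 3277905), (50, 1, 1, 1266690, 3293265), (32, 16, 16, 340545, 4272645), (38, 16, 16, 217665, 3228165), (38, 16, 16, 206145, 2179845)]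
  [(32, -480), (36, -480), (37, -960), (38, -960), (50, 960), (101, 960), (153, 960)] = true := by
  decide +kernel

theorem t57_0_9 : chkS lk57 2 5 [(1, m57_0)] l57_9
  [(53, 16, 16, 1266720, 3293520), (107, 16, 16, 1331760, 3412560), (107, 16, 16, 1320240, 2364240), (25, 16, 16, 218145, 3293445), (162, 16, 16, 3231810, 3231810), (162, 16, 16, 3212610, 2183235), (53, 1, 1, 1266690, 3293265), (156, 1, 1, 3428385, 3428610), (156, 1, 1, 3409185, 2380035), (22, 1, 1, 214290, 2310165), (162, 1, 1, 3231780, 3166530), (162, 1, 1, 3212580, 2117955)]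
  [(22, -480), (25, -480), (53, 960), (107, 960), (156, 960), (162, -1920)] = true := by
  decide +kernel

theorem t57_1_1 : chkS lk57 2 5 [(1, m57_1)] l57_1
  [(103, 16, 16, 35013936, 69408336), (104, 16, 16, 35013936, 69408336), (104, 16, 16, 34948656, 37951056), (93, 16, 16, 35013936, 69408336), (95, 16, 16, 35013936, 69408336), (80, 16, 16, 34956336, 54662736), (80, 16, 16, 19215936, 37827936), (80, 16, 16, 19281216, 69285216), (79, 16, 16, 35013936, 69408336), (154, 16, 16, 35013936, 69408336), (155, 16, 16, 34948656, 37951056), (66, 16, 16, 33907761, 54662661), (150, 1, 1, 50618901, 50618901), (27, 1, 1, 35009796, 69219921), (66, 1, 1, 2495796, 69211446), (149, 1, 1, 50480661, 33776661), (150, 1, 1, 50488341, 50488341), (149, 16, 16, 50741841, 68379141), (66, 1, 1, 33907731, 54658581), (80, 1, 1, 34956291, 54658641), (95, 1, 1, 35013891, 69404241), (140, 16, 16, 33968961, 70329861),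 (142, 1, 1, 2495541, 67245366), (174, 16, 16, 35017536, 70329936), (142, 1, 1, 33776916, 52446741), (66, 16, 16, 2430531, 37815606), (27, 16, 16, 35009856, 69285456), (79, 1, 1, 35013891, 69404241), (80, 1, 1, 19281156, 69219681), (138, 16, 16, 33961281, 69285381), (142, 16, 16, 2495571, 68289846), (142, 16, 16, 2365011, 34866486), (140, 1, 1, 33773076, 36718101), (95, 1, 1, 34948611, 37946961), (93, 1, 1, 34948611, 37946961), (80, 1, 1, 34891011, 52692561), (142, 1, 1, 33907476, 54535701), (174, 16, 16, 34821696, 36783696), (142, 16, 16, 33776961, 52512261), (138, 1, 1, 33895956, 37762581), (142, 1, 1, 2364981, 33822006), (140, 16, 16, 33773121, 36783621), (155, 16, 16, 35013936, 69408336), (150, 16, 16, 50618961, 51667461), (66, 16, 16, 2495811, 69272886), (66, 16, 16, 33842481, 52696581), (142, 16, 16, 33907521, 54601221), (138, 16, 16, 33896001, 37828101)]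
  [(27, 288), (66, 384), (79, 288), (80, 384), (95, -192), (103, 192), (104, 288), (138, -192), (140, -192), (142, -1152), (150, -192), (154, 192), (155, 288), (174, -384)] = true := by
  decide +kernel

theorem t57_1_2 : chkS lk57 2 5 [(1, m57_1)] l57_2
  [(96, 16, 16, 35013936, 69408336), (94, 16, 16, 35013936, 69408336), (57, 1, 1, 69604611, 69600561), (57, 1, 1, 69539331, 38143281), (94, 16, 16, 34948656, 37951056), (96, 16, 16, 34948656, 37951056), (92, 16, 16, 34891056, 52696656), (76, 16, 16, 35017776, 70391376), (88, 16, 16, 35013936, 69408336), (78, 16, 16, 34956336, 54662736), (92, 16, 16, 34956336, 54662736), (76, 16, 16, 34887216, 36968016), (150, 16, 16, 35013936, 69408336), (66, 1, 1, 70653216, 69620016), (148, 16, 16, 34891056, 52696656), (64, 16, 16, 33969201, 70391301), (26, 1, 1, 34956291, 54658641), (64, 16, 16, 33838641, 36967941), (48, 1, 1, 85341186, 73543761), (65,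 1, 1, 87430176, 73552176), (56, 1, 1, 86381571, 73532721), (54, 1, 1, 86381571, 73532721), (77, 1, 1, 68314371, 52823121), (136, 16, 16, 50684481, 54616581), (47, 1, 1, 68376066, 37109841), (147, 1, 1, 85221891, 56885841), (91, 1, 1, 85221891, 56885841), (76, 1, 1, 68571651, 70648401), (76, 1, 1, 68310531, 37094481), (133, 16, 16, 33961281, 69285381), (46, 1, 1, 85210626, 40120401), (48, 1, 1, 85210626, 40120401), (146, 1, 1, 85344771, 73597521), (65, 1, 1, 67461651, 54919701), (65, 1, 1, 87299616, 40128816), (63, 1, 1, 84157971, 40108821), (89, 1, 1, 102056451, 105054801), (77, 1, 1, 68510211, 54919761), (56, 1, 1, 86251011, 40109361), (54, 1, 1, 86251011, 40109361), (135, 1, 1, 101003796, 104870421), (136, 16, 16, 50488641, 52519941), (150, 16, 16, 85221936, 56889936), (149, 16, 16, 85344816, 73601616), (66, 16, 16, 70653186, 69619761), (66, 16, 16, 70587906, 38162481), (149, 16, 16,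 85083696, 40047696), (150, 16, 16, 85091376, 56759376), (148, 1, 1, 34891011, 52692561), (64, 1, 1, 33969171, 70387221), (145, 1, 1, 35013891, 69404241), (26, 16, 16, 34956336, 54662736), (148, 1, 1, 34956291, 54658641), (64, 1, 1, 33838611, 36963861), (96, 16, 16, 85221936, 56889936), (57, 16, 16, 69604656, 69604656), (92, 1, 1, 34891011, 52692561), (76, 1, 1, 35017731, 70387281), (78, 1, 1, 34956291, 54658641), (76, 1, 1, 34887171, 36963921), (48, 16, 16, 85341216, 73544016), (56, 16, 16, 86381616, 73536816), (65, 16, 16, 87430146, 73551921), (63, 16, 16, 84288561, 73536261), (65, 16, 16, 67265841, 52827141), (135, 16, 16, 100808001, 102839301), (47, 16, 16, 68376096, 37110096), (91, 16, 16, 85221936, 56889936), (147, 16, 16, 85221936, 56889936), (64, 16, 16, 67523121, 70652421), (64, 16, 16, 67262001, 37098501), (18, 1, 1, 50742546, 69427221), (46, 16, 16, 85210656, 40120656), (48,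 16, 16, 85210656, 40120656), (89, 16, 16, 102056496, 105058896), (77, 16, 16, 68510256, 54923856), (56, 16, 16, 86251056, 40113456), (54, 16, 16, 86251056, 40113456), (146, 16, 16, 85344816, 73601616), (65, 16, 16, 67461681, 54923781), (65, 16, 16, 87299586, 40128561), (63, 16, 16, 84158001, 40112901), (136, 1, 1, 50488596, 52454421), (135, 16, 16, 101003841, 104935941)]
  [(18, -96), (46, -192), (47, 192), (54, -384), (57, 384), (63, -384), (64, -192), (65, -384), (66, 384), (76, -192), (77, -384), (88, 96), (89, -192), (91, 192), (92, 384), (94, 192), (96, 384), (133, -96), (135, -384), (136, -384), (145, 96), (146, -192), (147, 192), (148, 384), (149, 192), (150, 384)] = true := by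
  decide +kernel

theorem t57_1_3 : chkS lk57 2 5 [(1, m57_1)] l57_3
  [(57, 16, 16, 19227696, 54662496), (24, 16, 16, 67515681, 69611781), (57, 16, 16, 19162416, 52696416), (55, 16, 16, 19289136, 70391136), (23, 1, 1, 84107796, 56640021), (55, 16, 16, 19158576, 36967776), (66, 16, 16, 20276226, 54677601), (27, 16, 16, 50742561, 69427461), (26, 1, 1, 50684946, 54681621), (64, 16, 16, 20207106, 36982881), (47, 1, 1, 85341186, 73543761), (64, 1, 1, 87430176, 73552176), (90, 1, 1, 101860611, 102958161), (159, 16, 16, 20275266, 54612066), (52, 1, 1, 68564226, 69611601), (151, 1, 1, 85344771, 73597521), (97, 1, 1, 85083651, 40043601), (157, 16, 16, 20317506, 69292131), (47, 1, 1, 85210626, 40120401), (147, 1, 1, 104153121, 105074946), (64, 1, 1, 87299616, 40128816), (90, 1, 1, 102056451, 105054801), (55, 1, 1, 86251011, 40109361), (159, 16, 16, 19948866, 52514916), (66, 1, 1, 20276256, 54677856),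 (27, 16, 16, 67515681, 69611781), (66, 1, 1, 20210976, 52711776), (64, 1, 1, 20337696, 70406496), (26, 16, 16, 50684961, 54681861), (64, 1, 1, 20207136, 36983136), (57, 1, 1, 19227651, 54658401), (24, 16, 16, 50742561, 69427461), (23, 16, 16, 84107841, 56705541), (55, 1, 1, 19158531, 36963681), (47, 16, 16, 85341216, 73544016), (55, 16, 16, 86381616, 73536816), (147, 16, 16, 103826706, 102977556), (159, 1, 1, 20275236, 54546786), (52, 16, 16, 68564256, 69611856), (97, 16, 16, 85344816, 73601616), (151, 16, 16, 85083696, 40047696), (157, 1, 1, 20317476, 69226851), (47, 16, 16, 85210656, 40120656), (90, 16, 16, 102056496, 105058896), (55, 16, 16, 86251056, 40113456), (147, 16, 16, 104153106, 105074706), (64, 16, 16, 87299586, 40128561), (159, 1, 1, 19948836, 52449636)]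
  [(23, 96), (24, 384), (26, 96), (27, 384), (47, -192), (52, 192), (57, 576), (66, 576), (90, -576), (147, -576), (157, -192), (159, -768)] = true := by
  decide +kernel

theorem t57_1_4 : chkS lk57 2 5 [(1, m57_1)] l57_4
  [(94, 16, 16, 35013936, 69408336), (96, 16, 16, 35013936, 69408336), (57, 1, 1, 69539331, 38143281), (57, 1, 1, 69604611, 69600561), (96, 16, 16, 34948656, 37951056), (94, 16, 16, 34948656, 37951056), (76, 16, 16, 35017776, 70391376), (92, 16, 16, 34891056, 52696656), (78, 16, 16, 34956336, 54662736), (88, 16, 16, 35013936, 69408336), (76, 16, 16, 34887216, 36968016), (92, 16, 16, 34956336, 54662736), (149, 16, 16, 35013936, 69408336), (66, 1, 1, 70587936, 38162736), (64, 16, 16, 33969201, 70391301), (148, 16, 16, 34891056, 52696656), (145, 16, 16, 35013936, 69408336), (148, 16, 16, 34956336, 54662736), (46, 1, 1, 85341186, 73543761), (63, 1, 1, 84288531, 73532181),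 (54, 1, 1, 86381571, 73532721), (56, 1, 1, 86381571, 73532721), (89, 1, 1, 101860611, 102958161), (135, 1, 1, 100807956, 102773781), (47, 1, 1, 68571906, 70656081), (64, 1, 1, 67523091, 70648341), (76, 1, 1, 68571651, 70648401), (91, 1, 1, 85221891, 56885841), (91, 1, 1, 85091331, 56755281), (18, 16, 16, 50742561, 69427461), (48, 1, 1, 85210626, 40120401), (46, 1, 1, 85210626, 40120401), (65, 1, 1, 67461651, 54919701), (146, 1, 1, 85344771, 73597521), (63, 1, 1, 84157971, 40108821), (65, 1, 1, 87299616, 40128816), (77, 1, 1, 68510211, 54919761), (89, 1, 1, 102056451, 105054801), (54, 1, 1, 86251011, 40109361), (56, 1, 1, 86251011, 40109361), (136, 16, 16, 50488641, 52519941), (135, 1, 1, 101003796, 104870421), (149, 16, 16, 85344816, 73601616), (150, 16, 16, 85221936, 56889936), (66, 16, 16, 70587906, 38162481), (66, 16, 16, 70653186, 69619761), (150, 16, 16, 85091376, 56759376), (149,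 16, 16, 85083696, 40047696), (64, 1, 1, 33969171, 70387221), (148, 1, 1, 34891011, 52692561), (26, 16, 16, 34956336, 54662736), (145, 1, 1, 35013891, 69404241), (64, 1, 1, 33838611, 36963861), (148, 1, 1, 34956291, 54658641), (94, 16, 16, 85344816, 73601616), (57, 16, 16, 69539376, 38147376), (76, 1, 1, 35017731, 70387281), (92, 1, 1, 34891011, 52692561), (88, 1, 1, 35013891, 69404241), (92, 1, 1, 34956291, 54658641), (46, 16, 16, 85341216, 73544016), (54, 16, 16, 86381616, 73536816), (63, 16, 16, 84288561, 73536261), (65, 16, 16, 87430146, 73551921), (146, 16, 16, 85083696, 40047696), (136, 1, 1, 50684436, 54551061), (47, 16, 16, 68571936, 70656336), (76, 16, 16, 68571696, 70652496), (64, 16, 16, 67523121, 70652421), (147, 16, 16, 85221936, 56889936), (147, 16, 16, 85091376, 56759376), (133, 1, 1, 33961236, 69219861), (48, 16, 16, 85210656, 40120656), (46, 16, 16, 85210656, 40120656),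 (77, 16, 16, 68510256, 54923856), (89, 16, 16, 102056496, 105058896), (54, 16, 16, 86251056, 40113456), (56, 16, 16, 86251056, 40113456), (65, 16, 16, 67461681, 54923781), (146, 16, 16, 85344816, 73601616), (63, 16, 16, 84158001, 40112901), (65, 16, 16, 87299586, 40128561), (135, 16, 16, 101003841, 104935941), (136, 1, 1, 50488596, 52454421)]
  [(18, -96), (26, 96), (47, 192), (48, -192), (56, -384), (57, 384), (64, 576), (65, -576), (66, 384), (76, 576), (77, -192), (78, 96), (89, -384), (91, -192), (94, 384), (96, 192), (133, -96), (135, -384), (136, -384), (146, -384), (147, -192), (149, 384), (150, 192)] = true := by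
  decide +kernel

theorem t57_1_5 : chkS lk57 2 5 [(1, m57_1)] l57_5
  [(94, 16, 16, 34948656, 37951056), (57, 1, 1, 69604611, 69600561), (96, 16, 16, 34948656, 37951056), (96, 16, 16, 35013936, 69408336), (57, 1, 1, 69539331, 38143281), (94, 16, 16, 35013936, 69408336), (88, 16, 16, 35013936, 69408336), (92, 16, 16, 34891056, 52696656), (78, 16, 16, 34956336, 54662736), (76, 16, 16, 35017776, 70391376), (92, 16, 16, 34956336, 54662736), (76, 16, 16, 34887216, 36968016), (145, 16, 16, 35013936, 69408336), (26, 1, 1, 34956291, 54658641), (150, 16, 16, 35013936, 69408336), (149, 16, 16, 35013936, 69408336), (148, 16, 16, 34956336, 54662736), (64, 16, 16, 33838641, 36967941), (66, 1, 1, 70653216, 69620016), (66, 1, 1, 70587936, 38162736), (89, 1, 1, 101860611, 102958161), (77, 1, 1, 68314371, 52823121), (48, 1, 1, 85341186, 73543761), (46, 1, 1, 85341186, 73543761), (135, 1, 1, 100807956,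 102773781), (136, 16, 16, 50684481, 54616581), (65, 1, 1, 87430176, 73552176), (63, 1, 1, 84288531, 73532181), (91, 1, 1, 85091331, 56755281), (76, 1, 1, 68310531, 37094481), (47, 1, 1, 68376066, 37109841), (47, 1, 1, 68571906, 70656081), (18, 16, 16, 50742561, 69427461), (133, 16, 16, 33961281, 69285381), (147, 1, 1, 85221891, 56885841), (64, 1, 1, 67523091, 70648341), (65, 1, 1, 87299616, 40128816), (146, 1, 1, 85344771, 73597521), (63, 1, 1, 84157971, 40108821), (46, 1, 1, 85210626, 40120401), (65, 1, 1, 67461651, 54919701), (48, 1, 1, 85210626, 40120401), (56, 1, 1, 86251011, 40109361), (89, 1, 1, 102056451, 105054801), (54, 1, 1, 86251011, 40109361), (77, 1, 1, 68510211, 54919761), (135, 1, 1, 101003796, 104870421), (136, 16, 16, 50488641, 52519941), (149, 16, 16, 85083696, 40047696), (66, 16, 16, 70653186, 69619761), (150, 16, 16, 85091376, 56759376), (150, 16, 16, 85221936, 56889936),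 (66, 16, 16, 70587906, 38162481), (149, 16, 16, 85344816, 73601616), (145, 1, 1, 35013891, 69404241), (148, 1, 1, 34891011, 52692561), (26, 16, 16, 34956336, 54662736), (64, 1, 1, 33969171, 70387221), (148, 1, 1, 34956291, 54658641), (64, 1, 1, 33838611, 36963861), (88, 1, 1, 35013891, 69404241), (78, 1, 1, 34956291, 54658641), (96, 16, 16, 85221936, 56889936), (94, 16, 16, 85344816, 73601616), (92, 1, 1, 34956291, 54658641), (76, 1, 1, 34887171, 36963921), (57, 16, 16, 69604656, 69604656), (57, 16, 16, 69539376, 38147376), (146, 16, 16, 85083696, 40047696), (65, 16, 16, 67265841, 52827141), (48, 16, 16, 85341216, 73544016), (46, 16, 16, 85341216, 73544016), (136, 1, 1, 50684436, 54551061), (135, 16, 16, 100808001, 102839301), (56, 16, 16, 86381616, 73536816), (54, 16, 16, 86381616, 73536816), (147, 16, 16, 85091376, 56759376), (64, 16, 16, 67262001, 37098501), (47, 16, 16, 68376096,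 37110096), (47, 16, 16, 68571936, 70656336), (133, 1, 1, 33961236, 69219861), (18, 1, 1, 50742546, 69427221), (91, 16, 16, 85221936, 56889936), (76, 16, 16, 68571696, 70652496), (56, 16, 16, 86251056, 40113456), (89, 16, 16, 102056496, 105058896), (54, 16, 16, 86251056, 40113456), (46, 16, 16, 85210656, 40120656), (77, 16, 16, 68510256, 54923856), (48, 16, 16, 85210656, 40120656), (65, 16, 16, 87299586, 40128561), (146, 16, 16, 85344816, 73601616), (63, 16, 16, 84158001, 40112901), (65, 16, 16, 67461681, 54923781), (136, 1, 1, 50488596, 52454421), (135, 16, 16, 101003841, 104935941)]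
  [(18, 96), (26, 192), (46, -384), (47, -192), (48, -384), (54, -288), (56, -288), (57, 96), (63, -288), (64, 288), (65, -480), (66, 96), (76, 288), (77, -192), (78, 192), (88, 192), (89, -192), (92, 288), (94, 192), (96, 192), (133, 96), (135, -96), (136, -96), (145, 192), (146, -192), (148, 288), (149, 192), (150, 192)] = true := by
  decide +kernel

theorem t57_1_6 : chkS lk57 2 5 [(1, m57_1)] l57_6
  [(57, 16, 16, 19162416, 52696416), (24, 16, 16, 67515681, 69611781), (57, 16, 16, 19227696, 54662496), (23, 1, 1, 84107796, 56640021), (55, 16, 16, 19289136, 70391136), (55, 16, 16, 19158576, 36967776), (26, 1, 1, 50684946, 54681621), (66, 16, 16, 20276226, 54677601), (64, 16, 16, 20207106, 36982881), (27, 16, 16, 50742561, 69427461), (90, 1, 1, 101860611, 102958161), (47, 1, 1, 85341186, 73543761), (159, 16, 16, 20275266, 54612066), (64, 1, 1, 87430176, 73552176), (97, 1, 1, 85083651,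 40043601), (52, 1, 1, 68564226, 69611601), (157, 16, 16, 20317506, 69292131), (151, 1, 1, 85344771, 73597521), (64, 1, 1, 87299616, 40128816), (147, 1, 1, 104153121, 105074946), (47, 1, 1, 85210626, 40120401), (55, 1, 1, 86251011, 40109361), (90, 1, 1, 102056451, 105054801), (159, 16, 16, 19948866, 52514916), (66, 1, 1, 20210976, 52711776), (27, 16, 16, 67515681, 69611781), (66, 1, 1, 20276256, 54677856), (26, 16, 16, 50684961, 54681861), (64, 1, 1, 20337696, 70406496), (64, 1, 1, 20207136, 36983136), (23, 16, 16, 84107841, 56705541), (57, 1, 1, 19227651, 54658401), (55, 1, 1, 19158531, 36963681), (24, 16, 16, 50742561, 69427461), (147, 16, 16, 103826706, 102977556), (47, 16, 16, 85341216, 73544016), (159, 1, 1, 20275236, 54546786), (55, 16, 16, 86381616, 73536816), (151, 16, 16, 85083696, 40047696), (52, 16, 16, 68564256, 69611856), (157, 1, 1, 20317476, 69226851), (97, 16, 16, 85344816,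 73601616), (55, 16, 16, 86251056, 40113456), (90, 16, 16, 102056496, 105058896), (47, 16, 16, 85210656, 40120656), (64, 16, 16, 87299586, 40128561), (147, 16, 16, 104153106, 105074706), (159, 1, 1, 19948836, 52449636)]
  [(23, 384), (24, 96), (26, 384), (27, 96), (47, -768), (52, -192), (57, 384), (66, 384), (90, -384), (147, -384), (157, 192), (159, -192)] = true := by
  decide +kernel

theorem t57_1_7 : chkS lk57 2 5 [(1, m57_1)] l57_7
  [(47, 16, 16, 51794976, 70410576), (57, 1, 1, 103093251, 104990001), (57, 16, 16, 103093296, 104994096), (66, 1, 1, 104141856, 105009456), (147, 16, 16, 70606866, 54939666), (66, 16, 16, 104141826, 105009201), (26, 1, 1, 101004306, 105000981), (147, 16, 16, 70280466, 52842516), (47, 1, 1, 51794946, 70410321), (90, 1, 1, 68314371, 52823121), (23, 16, 16, 100880961, 103891461), (90, 1, 1, 68510211, 54919761)]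
  [(23, -480), (26, -480), (47, 960), (57, 960), (66, 960), (90, -960), (147, -960)] = true := by
  decide +kernel

theorem t57_1_8 : chkS lk57 2 5 [(1, m57_1)] l57_8
  [(51, 16, 16, 1266720, 3293520), (58, 1, 1, 2429955, 4326705), (58, 16, 16, 2430000, 4330800), (41, 16, 16, 344865, 4399365), (37, 1, 1, 1331715, 3408465), (41, 1, 1, 344850, 4399125), (36, 1, 1, 1385475, 4326225), (37, 1, 1, 1201155, 3277905), (51, 1, 1, 1266690, 3293265), (38, 16, 16, 340545, 4272645), (32, 16, 16, 217665, 3228165), (38, 16, 16, 144705, 2176005)]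
  [(32, -480), (36, -480), (37, -960), (38, -960), (41, 960), (51, 960), (58, 960)] = true := by
  decide +kernel

theorem t57_1_9 : chkS lk57 2 5 [(1, m57_1)] l57_9
  [(53, 16, 16, 1389600, 4338000), (107, 16, 16, 1393200, 4395600), (22, 16, 16, 341025, 4337925), (156, 16, 16, 3163410, 2314260), (178, 16, 16, 1266240, 3228240), (162, 16, 16, 3151170, 2183220), (53, 1, 1, 1389570, 4337745), (156, 1, 1, 3489825, 4411650), (25, 1, 1, 275730, 2371605), (107, 1, 1, 1197315, 2294865), (178, 1, 1, 1266180, 3162705), (162, 1, 1, 3151140, 2117940)]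
  [(22, 480), (25, 480), (53, 960), (162, -960), (178, -960)] = true := by
  decide +kernel

theorem t57_2_2 : chkS lk57 2 5 [(1, m57_2)] l57_2
  [(83, 1, 1, 87318786, 56905761), (84, 1, 1, 87441666, 73617441), (169, 16, 16, 33907761, 54662661), (116, 1, 1, 88482051, 73728801), (116, 1, 1, 72442371, 55968321), (115, 1, 1, 88236291, 56951841), (169, 16, 16, 33907521, 54601221), (116, 1, 1, 88481811, 73728786), (116, 1, 1, 72441891, 55968066), (115, 1, 1, 88236051, 56951826), (166, 16, 16, 33969201, 70391301), (166, 16, 16, 33968961, 70329861), (93, 1, 1, 55861266, 55861266), (174, 16, 16, 50677281, 37970181), (89, 1, 1, 55844886, 5530386), (90, 1, 1, 55844886, 5530386), (55, 1, 1, 54616101, 50684226), (159, 16, 16, 33969201, 70391301), (93, 1, 1, 55861506, 55861281), (174, 16, 16, 50676321, 21193221), (89, 1, 1, 55845126, 5530401), (90, 1, 1, 55845126, 5530401), (55, 1, 1, 54616581, 50684481),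 (159, 16, 16, 33968961, 70329861), (89, 1, 1, 87319041, 56906241), (89, 1, 1, 87318561, 56905986), (82, 1, 1, 87318786, 56905761), (61, 1, 1, 69619971, 70649121), (112, 1, 1, 87122436, 56644161), (112, 1, 1, 87121956, 56643906), (90, 1, 1, 87441921, 73617921), (55, 1, 1, 70607106, 54939681), (90, 1, 1, 87441441, 73617666), (55, 1, 1, 70606866, 54939666), (159, 1, 1, 88482051, 73728801), (159, 1, 1, 88481811, 73728786), (61, 1, 1, 37970181, 50677281), (60, 1, 1, 69558531, 54920481), (112, 1, 1, 55845126, 5530401), (166, 1, 1, 87433236, 73421586), (112, 1, 1, 55844886, 5530386), (166, 1, 1, 87433476, 73421601), (123, 1, 1, 55861506, 55861281), (124, 1, 1, 55861506, 55861281), (175, 16, 16, 67450401, 38154501), (141, 1, 1, 55984386, 72572961), (141, 16, 16, 87122946, 56774721), (137, 1, 1, 55861506, 55861281), (175, 16, 16, 67449441, 21377541), (141, 1, 1, 55984146, 72572946), (141, 16,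 16, 87121986, 56709186), (137, 1, 1, 55861266, 55861266), (161, 1, 1, 38162691, 70583841), (161, 1, 1, 38162451, 70583826), (94, 1, 1, 39084291, 55838241), (170, 16, 16, 101000241, 104993541), (89, 1, 1, 40120581, 84162081), (91, 1, 1, 39072006, 5518881), (76, 1, 1, 37970181, 50677281), (167, 1, 1, 37113876, 70276626), (94, 1, 1, 39084051, 55838226), (170, 16, 16, 101000001, 104932101), (89, 1, 1, 40120341, 84162066), (91, 1, 1, 39071766, 5518866), (76, 1, 1, 37969941, 50677266), (167, 1, 1, 37114116, 70276641), (89, 16, 16, 103043856, 104080656), (89, 16, 16, 103043376, 104076576), (122, 1, 1, 55845126, 5530401), (69, 16, 16, 69619971, 70649121), (135, 16, 16, 102847491, 103941441), (135, 16, 16, 102846531, 103875906), (91, 16, 16, 86393616, 73606416), (76, 16, 16, 69559056, 54928656), (91, 16, 16, 86393136, 73602336), (76, 16, 16, 69558576, 54924576), (167, 16, 16, 84288561, 73536261),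 (167, 16, 16, 84288321, 73474821), (69, 1, 1, 37970181, 50677281), (68, 1, 1, 37970181, 50677281), (135, 1, 1, 40059141, 84100641), (161, 16, 16, 84288561, 73536261), (135, 1, 1, 40058901, 84100626), (161, 16, 16, 84288321, 73474821)]
  [(55, -384), (60, -192), (61, -192), (68, -192), (69, -192), (76, -384), (82, 96), (83, 192), (84, 96), (89, 768), (90, -384), (91, -384), (93, 192), (94, 192), (112, -384), (115, 192), (116, 384), (122, 96), (123, 192), (124, 96), (135, -384), (137, 192), (141, 384), (159, -384), (161, -192), (166, -192), (167, -384), (169, 384), (170, 192), (174, 192), (175, 384)] = true := by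
  decide +kernel

theorem t57_2_3 : chkS lk57 2 5 [(1, m57_2)] l57_3
  [(62, 1, 1, 54939906, 70606881), (116, 16, 16, 19285296, 69408096), (114, 16, 16, 19162416, 52696416), (116, 16, 16, 19284816, 68363616), (114, 16, 16, 19161936, 51651936), (16, 1, 1, 105972516, 105914691), (80, 1, 1, 54939666, 70606866), (142, 16, 16, 20337666, 70406241), (54, 1, 1, 55664676, 55599426), (136, 16, 16, 19289091, 70387041), (80, 1, 1, 54939906, 70606881), (142, 16, 16, 20336706, 70340706), (54, 1, 1, 55665156, 55599681), (136, 16, 16, 19288131, 70321506), (91, 1, 1, 104092161, 104092161), (91, 1, 1, 104091681, 104091906), (112, 1, 1, 73478661, 84292161), (112, 1, 1, 73478181, 84291906), (97, 1, 1, 87319041, 56906241), (97, 1, 1, 87318561, 56905986), (157, 16, 16, 18892371, 34800996), (59, 1, 1, 55730436, 55600161), (165, 1, 1, 73605141, 84296466), (165, 1, 1, 73605381, 84296481), (73, 1, 1, 54939906,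 70606881), (141, 1, 1, 21386016, 70590816), (140, 1, 1, 21324576, 54862176), (141, 1, 1, 21385776, 70586976), (140, 1, 1, 21324336, 54858336), (18, 16, 16, 34879056, 34879056), (57, 1, 1, 21385731, 70582881), (117, 1, 1, 21385731, 70582881), (54, 1, 1, 22241796, 55591521), (112, 1, 1, 23343621, 84161121), (57, 1, 1, 21385251, 70582626), (117, 1, 1, 21385251, 70582626), (54, 1, 1, 22241316, 55591266), (112, 1, 1, 23343141, 84160866), (90, 16, 16, 103043856, 104080656), (90, 16, 16, 103043376, 104076576), (136, 16, 16, 102847491, 103941441), (136, 16, 16, 102846531, 103875906), (97, 16, 16, 86270736, 56894736), (97, 16, 16, 86270256, 56890656), (164, 16, 16, 67315281, 35013381), (67, 1, 1, 55730436, 55600161), (158, 1, 1, 23085621, 84087396), (158, 1, 1, 23085861, 84091236)]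
  [(16, 192), (18, 192), (54, -384), (57, 192), (59, -288), (62, 288), (67, -288), (73, 288), (80, 192), (90, 192), (91, 192), (97, -768), (112, -384), (114, 384), (116, 576), (117, 192), (136, -384), (140, 384), (141, 576), (142, 192), (157, -192), (158, -576), (164, -192), (165, -576)] = true := by
  decide +kernel

theorem t57_2_4 : chkS lk57 2 5 [(1, m57_2)] l57_4
  [(84, 1, 1, 87441666, 73617441), (83, 1, 1, 87318786, 56905761), (116, 1, 1, 88482051, 73728801), (169, 16, 16, 33907761, 54662661), (115, 1, 1, 88236291, 56951841), (116, 1, 1, 72442371, 55968321), (116, 1, 1, 88481811, 73728786), (169, 16, 16, 33907521, 54601221), (115, 1, 1, 88236051, 56951826), (116, 1, 1, 72441891, 55968066), (166, 16, 16, 33968961, 70329861), (166, 16, 16, 33969201, 70391301), (95, 1, 1, 55861266, 55861266), (142, 1, 1, 72757506, 72757281), (90, 1, 1, 55844886, 5530386), (89, 1, 1, 55844886, 5530386),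 (56, 1, 1, 54616101, 50684226), (135, 1, 1, 72556806, 5653281), (95, 1, 1, 55861506, 55861281), (142, 1, 1, 72757266, 72757266), (90, 1, 1, 55845126, 5530401), (89, 1, 1, 55845126, 5530401), (56, 1, 1, 54616581, 50684481), (135, 1, 1, 72556566, 5653266), (56, 1, 1, 70668546, 70668321), (56, 1, 1, 70668306, 70668306), (61, 1, 1, 69619971, 70649121), (82, 1, 1, 87318786, 56905761), (113, 1, 1, 88236291, 56951841), (113, 1, 1, 88236051, 56951826), (55, 1, 1, 70607106, 54939681), (90, 1, 1, 87441921, 73617921), (55, 1, 1, 70606866, 54939666), (90, 1, 1, 87441441, 73617666), (159, 1, 1, 88481811, 73728786), (159, 1, 1, 88482051, 73728801), (60, 1, 1, 69558531, 54920481), (61, 1, 1, 37970181, 50677281), (166, 1, 1, 87433236, 73421586), (112, 1, 1, 55845126, 5530401), (166, 1, 1, 87433476, 73421601), (112, 1, 1, 55844886, 5530386), (124, 1, 1, 55861506, 55861281), (123, 1, 1, 55861506, 55861281),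 (141, 1, 1, 55984386, 72572961), (175, 16, 16, 67450401, 38154501), (137, 1, 1, 55861506, 55861281), (141, 16, 16, 87122946, 56774721), (141, 1, 1, 55984146, 72572946), (175, 16, 16, 67449441, 21377541), (137, 1, 1, 55861266, 55861266), (141, 16, 16, 87121986, 56709186), (161, 1, 1, 38162451, 70583826), (161, 1, 1, 38162691, 70583841), (96, 1, 1, 39084291, 55838241), (117, 1, 1, 38162691, 70583841), (91, 1, 1, 39072006, 5518881), (89, 1, 1, 40120581, 84162081), (77, 1, 1, 37970181, 50677281), (112, 1, 1, 40120581, 84162081), (96, 1, 1, 39084051, 55838226), (117, 1, 1, 38162451, 70583826), (91, 1, 1, 39071766, 5518866), (89, 1, 1, 40120341, 84162066), (77, 1, 1, 37969941, 50677266), (112, 1, 1, 40120341, 84162066), (77, 16, 16, 69620496, 70657296), (77, 16, 16, 69620016, 70653216), (69, 16, 16, 69619971, 70649121), (122, 1, 1, 55845126, 5530401), (134, 1, 1, 55845126, 5530401), (134, 1,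 1, 55844886, 5530386), (76, 16, 16, 69559056, 54928656), (91, 16, 16, 86393616, 73606416), (76, 16, 16, 69558576, 54924576), (91, 16, 16, 86393136, 73602336), (167, 16, 16, 84288321, 73474821), (167, 16, 16, 84288561, 73536261), (68, 1, 1, 37970181, 50677281), (69, 1, 1, 37970181, 50677281), (161, 16, 16, 84288561, 73536261), (135, 1, 1, 40059141, 84100641), (161, 16, 16, 84288321, 73474821), (135, 1, 1, 40058901, 84100626)]
  [(55, -192), (60, -96), (61, -96), (68, -96), (69, -96), (76, -192), (82, -96), (83, 96), (84, 192), (89, -384), (95, 192), (96, 192), (112, -576), (113, -192), (115, 192), (116, 576), (117, 192), (122, -96), (123, 96), (124, 192), (134, -192), (135, -576), (137, 192), (141, 576), (142, 192), (159, -192), (167, -192), (169, 192), (175, 192)] = true := by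
  decide +kernel

theorem t57_2_5 : chkS lk57 2 5 [(1, m57_2)] l57_5
  [(116, 1, 1, 72442371, 55968321), (169, 16, 16, 33907761, 54662661), (115, 1, 1, 88236291, 56951841), (83, 1, 1, 87318786, 56905761), (116, 1, 1, 88482051, 73728801), (84, 1, 1, 87441666, 73617441), (116, 1, 1, 72441891, 55968066), (169, 16, 16, 33907521, 54601221), (115, 1, 1, 88236051, 56951826), (116, 1, 1, 88481811, 73728786), (166, 16, 16, 33969201, 70391301), (166, 16, 16, 33968961, 70329861), (56, 1, 1, 54616101, 50684226), (55, 1, 1, 54616101, 50684226), (93, 1, 1, 55861266, 55861266), (95, 1, 1, 55861266, 55861266), (135, 1, 1, 72556806, 5653281), (159, 16, 16, 33969201, 70391301), (174, 16, 16, 50677281, 37970181), (142, 1, 1, 72757506, 72757281), (56, 1, 1, 54616581, 50684481), (55, 1, 1, 54616581, 50684481), (93, 1, 1, 55861506, 55861281), (95, 1, 1, 55861506, 55861281), (135, 1, 1, 72556566, 5653266),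 (159, 16, 16, 33968961, 70329861), (174, 16, 16, 50676321, 21193221), (142, 1, 1, 72757266, 72757266), (113, 1, 1, 88236291, 56951841), (112, 1, 1, 87122436, 56644161), (89, 1, 1, 87319041, 56906241), (56, 1, 1, 70668546, 70668321), (113, 1, 1, 88236051, 56951826), (112, 1, 1, 87121956, 56643906), (89, 1, 1, 87318561, 56905986), (56, 1, 1, 70668306, 70668306), (159, 1, 1, 88482051, 73728801), (90, 1, 1, 87441441, 73617666), (159, 1, 1, 88481811, 73728786), (90, 1, 1, 87441921, 73617921), (55, 1, 1, 70606866, 54939666), (55, 1, 1, 70607106, 54939681), (112, 1, 1, 55845126, 5530401), (61, 1, 1, 37970181, 50677281), (166, 1, 1, 87433236, 73421586), (60, 1, 1, 69558531, 54920481), (112, 1, 1, 55844886, 5530386), (166, 1, 1, 87433476, 73421601), (141, 16, 16, 87122946, 56774721), (175, 16, 16, 67450401, 38154501), (137, 1, 1, 55861506, 55861281), (123, 1, 1, 55861506, 55861281), (141, 1, 1,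 55984386, 72572961), (124, 1, 1, 55861506, 55861281), (141, 16, 16, 87121986, 56709186), (175, 16, 16, 67449441, 21377541), (137, 1, 1, 55861266, 55861266), (141, 1, 1, 55984146, 72572946), (161, 1, 1, 38162691, 70583841), (161, 1, 1, 38162451, 70583826), (77, 1, 1, 37970181, 50677281), (76, 1, 1, 37970181, 50677281), (94, 1, 1, 39084291, 55838241), (96, 1, 1, 39084291, 55838241), (112, 1, 1, 40120581, 84162081), (167, 1, 1, 37113876, 70276626), (170, 16, 16, 101000241, 104993541), (117, 1, 1, 38162691, 70583841), (77, 1, 1, 37969941, 50677266), (76, 1, 1, 37969941, 50677266), (94, 1, 1, 39084051, 55838226), (96, 1, 1, 39084051, 55838226), (112, 1, 1, 40120341, 84162066), (167, 1, 1, 37114116, 70276641), (170, 16, 16, 101000001, 104932101), (117, 1, 1, 38162451, 70583826), (134, 1, 1, 55845126, 5530401), (135, 16, 16, 102847491, 103941441), (89, 16, 16, 103043856, 104080656), (77, 16,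 16, 69620496, 70657296), (134, 1, 1, 55844886, 5530386), (135, 16, 16, 102846531, 103875906), (89, 16, 16, 103043376, 104076576), (77, 16, 16, 69620016, 70653216), (167, 16, 16, 84288561, 73536261), (91, 16, 16, 86393136, 73602336), (167, 16, 16, 84288321, 73474821), (91, 16, 16, 86393616, 73606416), (76, 16, 16, 69558576, 54924576), (76, 16, 16, 69559056, 54928656), (135, 1, 1, 40059141, 84100641), (69, 1, 1, 37970181, 50677281), (161, 16, 16, 84288561, 73536261), (68, 1, 1, 37970181, 50677281), (135, 1, 1, 40058901, 84100626), (161, 16, 16, 84288321, 73474821)]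
  [(55, -192), (60, -96), (61, -96), (68, -96), (69, -96), (76, -192), (83, 96), (84, 96), (89, -192), (90, -288), (91, -288), (93, -96), (94, -96), (95, -96), (96, -96), (113, 96), (115, 288), (116, 480), (117, -96), (123, 96), (124, 96), (134, 96), (137, 288), (141, 480), (142, -96), (159, -192), (161, 96), (166, 96), (167, -192), (169, 192), (170, -96), (174, -96), (175, 192)] = true := by
  decide +kernel

theorem t57_2_6 : chkS lk57 2 5 [(1, m57_2)] l57_6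
  [(114, 16, 16, 19162416, 52696416), (116, 16, 16, 19285296, 69408096), (62, 1, 1, 54939906, 70606881), (114, 16, 16, 19161936, 51651936), (116, 16, 16, 19284816, 68363616), (16, 1, 1, 105972516, 105914691), (54, 1, 1, 55664676, 55599426), (80, 1, 1, 54939666, 70606866), (136, 16, 16, 19289091, 70387041), (142, 16, 16, 20337666, 70406241), (54, 1, 1, 55665156, 55599681), (80, 1, 1, 54939906, 70606881), (136, 16, 16, 19288131, 70321506), (142, 16, 16, 20336706, 70340706), (112, 1, 1, 73478661, 84292161), (91, 1, 1, 104092161, 104092161), (112, 1, 1, 73478181, 84291906), (91, 1, 1, 104091681, 104091906), (157, 16, 16, 18892371, 34800996), (97, 1, 1, 87318561, 56905986), (97, 1, 1, 87319041, 56906241), (165, 1, 1, 73605141, 84296466), (59, 1, 1, 55730436, 55600161), (165, 1, 1, 73605381, 84296481), (140, 1, 1, 21324576, 54862176), (141, 1, 1, 21386016, 70590816), (73, 1, 1, 54939906, 70606881),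 (140, 1, 1, 21324336, 54858336), (141, 1, 1, 21385776, 70586976), (18, 16, 16, 34879056, 34879056), (54, 1, 1, 22241796, 55591521), (57, 1, 1, 21385731, 70582881), (112, 1, 1, 23343621, 84161121), (117, 1, 1, 21385731, 70582881), (54, 1, 1, 22241316, 55591266), (57, 1, 1, 21385251, 70582626), (112, 1, 1, 23343141, 84160866), (117, 1, 1, 21385251, 70582626), (136, 16, 16, 102847491, 103941441), (90, 16, 16, 103043856, 104080656), (136, 16, 16, 102846531, 103875906), (90, 16, 16, 103043376, 104076576), (164, 16, 16, 67315281, 35013381), (97, 16, 16, 86270256, 56890656), (97, 16, 16, 86270736, 56894736), (158, 1, 1, 23085621, 84087396), (67, 1, 1, 55730436, 55600161), (158, 1, 1, 23085861, 84091236)]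
  [(16, 288), (18, 288), (54, 384), (57, -192), (59, -192), (62, 192), (67, -192), (73, 192), (80, -192), (90, -192), (91, -192), (97, -1152), (112, 384), (114, 576), (116, 384), (117, -192), (136, 384), (140, 576), (141, 384), (142, -192), (157, -288), (158, -384), (164, -288), (165, -384)] = true := by
  decide +kernel

theorem t57_2_7 : chkS lk57 2 5 [(1, m57_2)] l57_7
  [(99, 1, 1, 106176531, 106169106), (99, 1, 1, 106176771, 106169121), (85, 1, 1, 104091906, 104091681), (125, 1, 1, 106180866, 106180641), (69, 1, 1, 106111236, 105923361), (98, 1, 1, 106180626, 106180626), (56, 1, 1, 105984036, 105918786), (77, 1, 1, 106110996, 105923346), (98, 1, 1, 106180866, 106180641), (56, 1, 1, 105984516, 105919041), (77, 1, 1, 106111236, 105923361), (61, 1, 1, 106111236, 105923361)]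
  [(56, -960), (61, -480), (69, -480), (77, -960), (85, 480), (98, 960), (99, 960), (125, 480)] = true := by
  decide +kernel

theorem t57_2_8 : chkS lk57 2 5 [(1, m57_2)] l57_8
  [(101, 1, 1, 5513235, 5505810), (101, 1, 1, 5513475, 5505825), (86, 1, 1, 3428610, 3428385), (126, 1, 1, 5517570, 5517345), (72, 1, 1, 4399365, 344865), (100, 1, 1, 5517330, 5517330), (42, 16, 16, 2429955, 4326705), (38, 16, 16, 2184195, 3278145), (100, 1, 1, 5517570, 5517345), (42, 16, 16, 2428995, 4261170), (38, 16, 16, 2183235, 3212610), (34, 1, 1, 2441475, 4392225)]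
  [(34, -480), (38, -960), (42, -960), (72, -480), (86, 480), (100, 960), (101, 960), (126, 480)] = true := by
  decide +kernel

theorem t57_2_9 : chkS lk57 2 5 [(1, m57_2)] l57_9
  [(107, 16, 16, 2380560, 3417360), (107, 16, 16, 2380080, 3413280), (171, 16, 16, 336945, 4330245), (144, 16, 16, 2184195, 3278145), (144, 16, 16, 2183235, 3212610), (179, 16, 16, 2164035, 2164035), (108, 1, 1, 3428865, 3428865), (108, 1, 1, 3428385, 3428610), (177, 1, 1, 4522785, 4530435), (121, 1, 1, 3232260, 3166785), (121, 1, 1, 3231780, 3166530), (15, 1, 1, 4260645, 336195)]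
  [(15, -480), (107, 960), (108, 960), (121, -960), (144, -960), (171, 480), (177, 480), (179, -480)] = true := by
  decide +kernel

theorem t57_3_3 : chkS lk57 2 5 [(1, m57_3)] l57_3
  [(7, 1, 1, 70668546, 70668321), (115, 16, 16, 35017776, 70391376), (115, 16, 16, 34956336, 54662736), (115, 16, 16, 35017536, 70329936), (115, 16, 16, 34956096, 54601296), (111, 16, 16, 35017776, 70391376), (79, 1, 1, 54939666, 70606866), (138, 16, 16, 51791136, 69427536), (76, 1, 1, 55730196, 55600146), (133, 16, 16, 20337666, 70406241), (79, 1, 1, 54939906, 70606881), (138, 16, 16, 51790416, 68379216), (76, 1, 1, 55730436, 55600161), (133, 16, 16, 20336706, 70340706), (76, 1, 1, 87441921, 73617921), (76, 1, 1, 87441441, 73617666), (166, 1, 1, 73543701, 84292626), (166, 1, 1, 73543941, 84292641), (76, 1, 1, 87319041, 56906241), (76, 1, 1, 87318561, 56905986), (133, 16, 16, 51529296, 34825296), (60, 1,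 1, 87318786, 56905761), (166, 1, 1, 73605141, 84296466), (166, 1, 1, 73605381, 84296481), (10, 16, 16, 35017776, 70391376), (137, 16, 16, 68564256, 69611856), (137, 16, 16, 68379936, 52838736), (137, 16, 16, 68563536, 68563536), (137, 16, 16, 68379216, 51790416), (5, 16, 16, 35017776, 70391376), (24, 1, 1, 70668306, 70668306), (114, 16, 16, 68560176, 69604176), (55, 1, 1, 22241796, 55591521), (16, 16, 16, 101918016, 102843216), (24, 1, 1, 70668546, 70668321), (114, 16, 16, 68559696, 68559696), (55, 1, 1, 22241316, 55591266), (16, 16, 16, 101917776, 101860176), (55, 16, 16, 85345056, 73605456), (55, 16, 16, 85344816, 73601616), (160, 16, 16, 101864496, 103945296), (160, 16, 16, 101864256, 103883856), (55, 16, 16, 85222176, 56893776), (55, 16, 16, 85221936, 56889936), (16, 1, 1, 23089956, 87040356), (68, 1, 1, 55730436, 55600161), (160, 16, 16, 102048816, 104993616), (160, 16, 16, 102048576,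 104932176)]
  [(5, 192), (7, 288), (10, 288), (16, -384), (24, 192), (55, -384), (60, -288), (68, -288), (76, -384), (79, 192), (111, 192), (114, 192), (115, 960), (133, -384), (137, 960), (138, 192), (160, -768), (166, -768)] = true := by
  decide +kernel

theorem t57_3_4 : chkS lk57 2 5 [(1, m57_3)] l57_4
  [(62, 1, 1, 70607106, 54939681), (62, 1, 1, 70668546, 70668321), (114, 16, 16, 35017776, 70391376), (116, 16, 16, 35017776, 70391376), (114, 16, 16, 34956336, 54662736), (116, 16, 16, 34956336, 54662736), (114, 16, 16, 35017536, 70329936), (116, 16, 16, 35017536, 70329936), (114, 16, 16, 34956096, 54601296), (116, 16, 16, 34956096, 54601296), (16, 1, 1, 90382356, 90194706), (16, 1, 1, 90382596, 90194721), (80, 1, 1, 70606881, 54939906), (140, 16, 16, 51791136, 69427536), (97, 1, 1, 55975956, 72377106), (91, 1, 1, 56893461, 84173586), (91, 1, 1, 56770581, 84108306), (18, 16, 16, 21385731,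 70582881), (80, 1, 1, 70607361, 54940161), (140, 16, 16, 51790416, 68379216), (97, 1, 1, 55976196, 72377121), (91, 1, 1, 56893701, 84173601), (91, 1, 1, 56770821, 84108321), (18, 16, 16, 21385251, 70582626), (54, 1, 1, 87441666, 73617441), (54, 1, 1, 87441426, 73617426), (59, 1, 1, 87441666, 73617441), (61, 1, 1, 87441666, 73617441), (112, 1, 1, 105009411, 104137761), (112, 1, 1, 105009171, 104137746), (54, 1, 1, 87318786, 56905761), (77, 1, 1, 87319041, 56906241), (54, 1, 1, 87318546, 56905746), (77, 1, 1, 87318561, 56905986), (136, 16, 16, 34817376, 19088976), (136, 16, 16, 34817616, 34817616), (59, 1, 1, 87318786, 56905761), (61, 1, 1, 87318786, 56905761), (165, 1, 1, 88481811, 73728786), (112, 1, 1, 105193731, 105186081), (165, 1, 1, 88482051, 73728801), (112, 1, 1, 105193491, 105186066), (73, 16, 16, 70607106, 54939681), (73, 16, 16, 70668546, 70668321), (140, 16, 16, 68564256, 69611856),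 (141, 16, 16, 68564256, 69611856), (140, 16, 16, 68379936, 52838736), (141, 16, 16, 68379936, 52838736), (140, 16, 16, 68563536, 68563536), (141, 16, 16, 68563536, 68563536), (140, 16, 16, 68379216, 51790416), (141, 16, 16, 68379216, 51790416), (18, 1, 1, 19288896, 70329696), (18, 1, 1, 19289136, 70391136), (57, 16, 16, 68510256, 54923856), (114, 16, 16, 85337136, 73536336), (97, 1, 1, 39203076, 72365601), (90, 1, 1, 40120581, 84162081), (90, 1, 1, 40059141, 84100641), (16, 16, 16, 85141056, 39928656), (57, 16, 16, 68510496, 54927696), (114, 16, 16, 85336896, 73474896), (97, 1, 1, 39202836, 72365586), (90, 1, 1, 40120341, 84162066), (90, 1, 1, 40058901, 84100626), (16, 16, 16, 85140576, 23216976), (54, 16, 16, 85345056, 73605456), (54, 16, 16, 85344816, 73601616), (67, 16, 16, 87441666, 73617441), (69, 16, 16, 87441666, 73617441), (136, 1, 1, 40120581, 84162081), (136, 1, 1, 40120341,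 84162066), (54, 16, 16, 85222176, 56893776), (56, 16, 16, 85222176, 56893776), (54, 16, 16, 85221936, 56889936), (56, 16, 16, 85221936, 56889936), (112, 16, 16, 102048576, 104932176), (112, 16, 16, 102048816, 104993616), (67, 16, 16, 87318786, 56905761), (69, 16, 16, 87318786, 56905761), (158, 16, 16, 102048816, 104993616), (136, 1, 1, 40059141, 84100641), (158, 16, 16, 102048576, 104932176), (136, 1, 1, 40058901, 84100626)]
  [(56, -192), (57, 192), (61, -288), (62, 288), (69, -288), (73, 288), (77, -192), (80, 192), (90, -384), (91, -384), (97, 384), (112, -768), (114, 768), (116, 384), (136, -768), (140, 768), (141, 384), (158, -192), (165, -192)] = true := by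
  decide +kernel

theorem t57_3_5 : chkS lk57 2 5 [(1, m57_3)] l57_5
  [(116, 16, 16, 34956336, 54662736), (116, 16, 16, 35017776, 70391376), (114, 16, 16, 34956336, 54662736), (62, 1, 1, 70668546, 70668321), (114, 16, 16, 35017776, 70391376), (62, 1, 1, 70607106, 54939681), (116, 16, 16, 34956096, 54601296), (116, 16, 16, 35017536, 70329936), (114, 16, 16, 34956096, 54601296), (114, 16, 16, 35017536, 70329936), (16, 1, 1, 90382596, 90194721), (16, 1, 1, 90382356, 90194706), (91, 1, 1, 56770581, 84108306), (97, 1, 1, 55730196, 55600146), (80, 1, 1, 70668321, 70668546), (80, 1, 1, 70606881, 54939906), (18, 16, 16, 21385731, 70582881), (157, 16, 16, 35017776, 70391376), (142, 16, 16, 51791136, 69427536), (140, 16, 16, 51791136, 69427536), (91, 1, 1, 56770821, 84108321), (97, 1, 1, 55730436, 55600161), (80, 1, 1, 70668801, 70668801), (80, 1, 1, 70607361, 54940161), (18, 16, 16, 21385251,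 70582626), (157, 16, 16, 35017536, 70329936), (142, 16, 16, 51790416, 68379216), (140, 16, 16, 51790416, 68379216), (112, 1, 1, 105009411, 104137761), (165, 1, 1, 88236051, 56951826), (77, 1, 1, 87441921, 73617921), (54, 1, 1, 87441666, 73617441), (112, 1, 1, 105009171, 104137746), (165, 1, 1, 88236291, 56951841), (77, 1, 1, 87441441, 73617666), (54, 1, 1, 87441426, 73617426), (136, 16, 16, 34817616, 34817616), (77, 1, 1, 87318561, 56905986), (136, 16, 16, 34817376, 19088976), (77, 1, 1, 87319041, 56906241), (54, 1, 1, 87318546, 56905746), (54, 1, 1, 87318786, 56905761), (112, 1, 1, 105193731, 105186081), (61, 1, 1, 87318786, 56905761), (165, 1, 1, 88481811, 73728786), (59, 1, 1, 87318786, 56905761), (112, 1, 1, 105193491, 105186066), (165, 1, 1, 88482051, 73728801), (141, 16, 16, 68379936, 52838736), (141, 16, 16, 68564256, 69611856), (140, 16, 16, 68379936, 52838736), (73, 16, 16, 70668546,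 70668321), (140, 16, 16, 68564256, 69611856), (73, 16, 16, 70607106, 54939681), (141, 16, 16, 68379216, 51790416), (141, 16, 16, 68563536, 68563536), (140, 16, 16, 68379216, 51790416), (140, 16, 16, 68563536, 68563536), (18, 1, 1, 19289136, 70391136), (18, 1, 1, 19288896, 70329696), (90, 1, 1, 40059141, 84100641), (97, 1, 1, 39018756, 55592481), (57, 16, 16, 68571696, 70652496), (57, 16, 16, 68510256, 54923856), (16, 16, 16, 85141056, 39928656), (164, 1, 1, 38162451, 70583826), (117, 16, 16, 85337136, 73536336), (114, 16, 16, 85337136, 73536336), (90, 1, 1, 40058901, 84100626), (97, 1, 1, 39018516, 55592466), (57, 16, 16, 68571936, 70656336), (57, 16, 16, 68510496, 54927696), (16, 16, 16, 85140576, 23216976), (164, 1, 1, 38162691, 70583841), (117, 16, 16, 85336896, 73474896), (114, 16, 16, 85336896, 73474896), (136, 1, 1, 40120581, 84162081), (158, 16, 16, 101864496, 103945296), (56,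 16, 16, 85345056, 73605456), (54, 16, 16, 85345056, 73605456), (136, 1, 1, 40120341, 84162066), (158, 16, 16, 101864256, 103883856), (56, 16, 16, 85344816, 73601616), (54, 16, 16, 85344816, 73601616), (112, 16, 16, 102048816, 104993616), (56, 16, 16, 85221936, 56889936), (112, 16, 16, 102048576, 104932176), (56, 16, 16, 85222176, 56893776), (54, 16, 16, 85221936, 56889936), (54, 16, 16, 85222176, 56893776), (136, 1, 1, 40059141, 84100641), (69, 16, 16, 87318786, 56905761), (158, 16, 16, 102048816, 104993616), (67, 16, 16, 87318786, 56905761), (136, 1, 1, 40058901, 84100626), (158, 16, 16, 102048576, 104932176)]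
  [(16, 384), (18, 384), (54, -768), (56, -384), (57, -192), (59, -96), (61, -96), (62, 192), (67, -96), (69, -96), (73, 192), (77, -384), (80, -192), (90, 96), (91, 96), (97, 192), (112, -384), (114, 384), (116, 480), (117, -96), (136, -384), (140, 384), (141, 480), (142, -96), (157, 96), (158, -96), (164, 96), (165, -96)] = true := by
  decide +kernel

theorem t57_3_6 : chkS lk57 2 5 [(1, m57_3)] l57_6
  [(115, 16, 16, 34956336, 54662736), (115, 16, 16, 35017776, 70391376), (7, 1, 1, 70668546, 70668321), (115, 16, 16, 34956096, 54601296), (115, 16, 16, 35017536, 70329936), (111, 16, 16, 35017776, 70391376), (76, 1, 1, 55730196, 55600146), (79, 1, 1, 54939666, 70606866), (133, 16, 16, 20337666, 70406241), (138, 16, 16, 51791136, 69427536), (76, 1, 1, 55730436, 55600161), (79, 1, 1, 54939906, 70606881), (133, 16, 16, 20336706, 70340706), (138, 16, 16, 51790416, 68379216), (166, 1, 1,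 73543701, 84292626), (76, 1, 1, 87441921, 73617921), (166, 1, 1, 73543941, 84292641), (76, 1, 1, 87441441, 73617666), (133, 16, 16, 51529296, 34825296), (76, 1, 1, 87318561, 56905986), (76, 1, 1, 87319041, 56906241), (166, 1, 1, 73605141, 84296466), (60, 1, 1, 87318786, 56905761), (166, 1, 1, 73605381, 84296481), (137, 16, 16, 68379936, 52838736), (137, 16, 16, 68564256, 69611856), (10, 16, 16, 35017776, 70391376), (137, 16, 16, 68379216, 51790416), (137, 16, 16, 68563536, 68563536), (5, 16, 16, 35017776, 70391376), (55, 1, 1, 22241796, 55591521), (24, 1, 1, 70668306, 70668306), (16, 16, 16, 101918016, 102843216), (114, 16, 16, 68560176, 69604176), (55, 1, 1, 22241316, 55591266), (24, 1, 1, 70668546, 70668321), (16, 16, 16, 101917776, 101860176), (114, 16, 16, 68559696, 68559696), (160, 16, 16, 101864496, 103945296), (55, 16, 16, 85345056, 73605456), (160, 16, 16, 101864256, 103883856),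 (55, 16, 16, 85344816, 73601616), (16, 1, 1, 23089956, 87040356), (55, 16, 16, 85221936, 56889936), (55, 16, 16, 85222176, 56893776), (160, 16, 16, 102048816, 104993616), (68, 1, 1, 55730436, 55600161), (160, 16, 16, 102048576, 104932176)]
  [(5, 288), (7, 192), (10, 192), (16, -96), (24, -192), (55, -576), (60, -192), (68, -192), (76, -576), (79, -192), (111, 288), (114, -192), (115, 960), (133, -96), (137, 960), (138, -192), (160, -192), (166, -192)] = true := by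
  decide +kernel

theorem t57_3_7 : chkS lk57 2 5 [(1, m57_3)] l57_7
  [(57, 16, 16, 102056736, 105062736), (57, 16, 16, 102056496, 105058896), (62, 1, 1, 104153346, 105074721), (73, 16, 16, 104153346, 105074721), (70, 16, 16, 104153346, 105074721), (80, 1, 1, 104153121, 105074946), (92, 1, 1, 73543701, 84292626), (92, 1, 1, 73605141, 84296466), (80, 1, 1, 104153601, 105075201), (92, 1, 1, 73543941, 84292641), (92, 1, 1, 73605381, 84296481), (9, 1, 1, 104153346, 105074721)]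
  [(9, -480), (57, 960), (62, 480), (70, -480), (73, 480), (80, 960), (92, -1920)] = true := by
  decide +kernel

theorem t57_3_8 : chkS lk57 2 5 [(1, m57_3)] l57_8
  [(58, 16, 16, 1393440, 4399440), (58, 16, 16, 1393200, 4395600), (30, 1, 1, 4534530, 4534305), (74, 16, 16, 3490050, 4411425), (71, 16, 16, 3490050, 4411425), (43, 16, 16, 3478530, 4345905), (102, 1, 1, 5386260, 5256210), (102, 1, 1, 5447700, 5260050), (43, 16, 16, 3477570, 4280370), (102, 1, 1, 5386500, 5256225), (102, 1, 1, 5447940, 5260065), (33, 1, 1, 3490050, 4411425)]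
  [(30, 480), (33, -480), (43, 960), (58, 960), (71, -480), (74, 480), (102, -1920)] = true := by
  decide +kernel

theorem t57_3_9 : chkS lk57 2 5 [(1, m57_3)] l57_9
  [(22, 16, 16, 3490305, 4411905), (22, 16, 16, 3489825, 4411650), (120, 16, 16, 1385280, 4268880), (163, 16, 16, 1201200, 3282000), (163, 16, 16, 1200960, 3220560), (8, 16, 16, 1254720, 2179920), (81, 1, 1, 3490305, 4411905), (81, 1, 1, 3489825, 4411650), (19, 1, 1, 4526880, 4530480), (168, 1, 1, 4215315, 3473940), (168, 1, 1, 4215075, 3473700), (14, 1, 1, 5309220, 5251395)]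
  [(8, -480), (14, -480), (19, 480), (22, 960), (81, 960), (120, 480), (163, -960), (168, -960)] = true := by
  decide +kernel

theorem t57_4_4 : chkS lk57 2 5 [(1, m57_4)] l57_4
  [(83, 1, 1, 87441666, 73617441), (84, 1, 1, 87318786, 56905761), (115, 1, 1, 88482051, 73728801), (116, 1, 1, 72749571, 72745521), (116, 1, 1, 88236291, 56951841), (169, 16, 16, 33969201, 70391301), (115, 1, 1, 88481811, 73728786), (116, 1, 1, 72749091, 72745266), (116, 1, 1, 88236051, 56951826), (169, 16, 16, 33968961, 70329861), (166, 16, 16, 33907521, 54601221), (166, 16, 16, 33907761, 54662661), (93, 1, 1, 55984146, 72572946), (138, 1, 1, 72757506, 72757281), (55, 1, 1, 54923301, 67461426), (56, 1, 1, 54923301, 67461426), (89, 1, 1, 55722006, 5465106), (135, 1, 1, 72495366, 5649441), (93, 1, 1, 55984386, 72572961), (138, 1, 1, 72757266, 72757266), (55, 1, 1, 54923781, 67461681), (56, 1, 1, 54923781, 67461681),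 (89, 1, 1, 55722246, 5465121), (135, 1, 1, 72495126, 5649426), (55, 1, 1, 70668546, 70668321), (55, 1, 1, 70668306, 70668306), (60, 1, 1, 69619971, 70649121), (61, 1, 1, 38154501, 67450401), (112, 1, 1, 55722246, 5465121), (112, 1, 1, 55722006, 5465106), (56, 1, 1, 70607106, 54939681), (89, 1, 1, 87441921, 73617921), (56, 1, 1, 70606866, 54939666), (89, 1, 1, 87441441, 73617666), (135, 1, 1, 88478256, 73732656), (135, 1, 1, 88478496, 73736496), (61, 1, 1, 69558531, 54920481), (82, 1, 1, 87441666, 73617441), (112, 1, 1, 87429636, 73421361), (113, 1, 1, 88482051, 73728801), (112, 1, 1, 87429156, 73421106), (113, 1, 1, 88481811, 73728786), (123, 1, 1, 55984386, 72572961), (124, 1, 1, 55984386, 72572961), (137, 1, 1, 55984386, 72572961), (141, 16, 16, 87430146, 73551921), (141, 1, 1, 55861506, 55861281), (175, 16, 16, 67327521, 37110021), (137, 1, 1, 55984146, 72572946), (141, 16, 16, 87429186,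 73486386), (141, 1, 1, 55861266, 55861266), (175, 16, 16, 67326561, 20333061), (161, 1, 1, 38101011, 54855186), (161, 1, 1, 38101251, 54855201), (94, 1, 1, 39207171, 72549921), (114, 1, 1, 39207171, 72549921), (76, 1, 1, 38154501, 67450401), (77, 1, 1, 38154501, 67450401), (89, 1, 1, 40059141, 84100641), (112, 1, 1, 40059141, 84100641), (94, 1, 1, 39206931, 72549906), (114, 1, 1, 39206931, 72549906), (76, 1, 1, 38154261, 67450386), (77, 1, 1, 38154261, 67450386), (89, 1, 1, 40058901, 84100626), (112, 1, 1, 40058901, 84100626), (76, 16, 16, 69620496, 70657296), (76, 16, 16, 69620016, 70653216), (68, 1, 1, 38154501, 67450401), (69, 1, 1, 38154501, 67450401), (135, 1, 1, 40120581, 84162081), (135, 1, 1, 40120341, 84162066), (77, 16, 16, 69559056, 54928656), (89, 16, 16, 103105296, 105063696), (77, 16, 16, 69558576, 54924576), (89, 16, 16, 103104816, 105059616), (112, 16, 16, 103093056, 104932656),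 (112, 16, 16, 103093296, 104994096), (69, 16, 16, 69558531, 54920481), (122, 1, 1, 55722246, 5465121), (135, 16, 16, 103093251, 104990001), (134, 1, 1, 55722246, 5465121), (135, 16, 16, 103092291, 104924466), (134, 1, 1, 55722006, 5465106)]
  [(55, 384), (56, -384), (60, 96), (61, -192), (68, 96), (69, -192), (76, 384), (77, -384), (82, -192), (83, 192), (84, 96), (89, -768), (93, 192), (94, 192), (112, -768), (113, -384), (114, 192), (115, 384), (116, 384), (122, -192), (123, 192), (124, 96), (134, -384), (135, -768), (137, 384), (138, 192), (141, 384), (161, 192), (166, 192), (169, 192), (175, 192)] = true := by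
  decide +kernel

theorem t57_4_5 : chkS lk57 2 5 [(1, m57_4)] l57_5
  [(169, 16, 16, 33969201, 70391301), (116, 1, 1, 72749571, 72745521), (116, 1, 1, 88236291, 56951841), (84, 1, 1, 87318786, 56905761), (115, 1, 1, 88482051, 73728801), (83, 1, 1, 87441666, 73617441), (169, 16, 16, 33968961, 70329861), (116, 1, 1, 72749091, 72745266), (116, 1, 1, 88236051, 56951826), (115, 1, 1, 88481811, 73728786), (166, 16, 16, 33907761, 54662661), (166, 16, 16, 33907521, 54601221), (89, 1, 1, 55722006, 5465106), (90, 1, 1, 55722006, 5465106), (95, 1, 1, 55984146, 72572946), (93, 1, 1, 55984146, 72572946), (135, 1, 1, 72495366, 5649441), (159, 16, 16, 33907761, 54662661), (142, 1, 1, 88478496, 73736496), (138, 1, 1, 72757506, 72757281), (89, 1, 1, 55722246, 5465121), (90, 1, 1, 55722246, 5465121), (95, 1, 1, 55984386, 72572961), (93, 1, 1, 55984386, 72572961), (135, 1, 1, 72495126, 5649426), (159,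 16, 16, 33907521, 54601221), (142, 1, 1, 88478256, 73732656), (138, 1, 1, 72757266, 72757266), (112, 1, 1, 55722246, 5465121), (166, 1, 1, 87187476, 56644626), (90, 1, 1, 87319041, 56906241), (55, 1, 1, 70668546, 70668321), (112, 1, 1, 55722006, 5465106), (166, 1, 1, 87187716, 56644641), (90, 1, 1, 87318561, 56905986), (55, 1, 1, 70668306, 70668306), (135, 1, 1, 88478496, 73736496), (89, 1, 1, 87441441, 73617666), (135, 1, 1, 88478256, 73732656), (89, 1, 1, 87441921, 73617921), (56, 1, 1, 70606866, 54939666), (56, 1, 1, 70607106, 54939681), (113, 1, 1, 88482051, 73728801), (82, 1, 1, 87441666, 73617441), (112, 1, 1, 87429636, 73421361), (61, 1, 1, 69558531, 54920481), (113, 1, 1, 88481811, 73728786), (112, 1, 1, 87429156, 73421106), (175, 16, 16, 67327521, 37110021), (141, 16, 16, 87430146, 73551921), (141, 1, 1, 55861506, 55861281), (124, 1, 1, 55984386, 72572961), (137, 1, 1, 55984386,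 72572961), (123, 1, 1, 55984386, 72572961), (175, 16, 16, 67326561, 20333061), (141, 16, 16, 87429186, 73486386), (141, 1, 1, 55861266, 55861266), (137, 1, 1, 55984146, 72572946), (161, 1, 1, 38101251, 54855201), (161, 1, 1, 38101011, 54855186), (89, 1, 1, 40059141, 84100641), (91, 1, 1, 39010566, 5457441), (96, 1, 1, 39207171, 72549921), (94, 1, 1, 39207171, 72549921), (112, 1, 1, 40059141, 84100641), (167, 1, 1, 37052436, 54547986), (117, 16, 16, 86381616, 73536816), (114, 1, 1, 39207171, 72549921), (89, 1, 1, 40058901, 84100626), (91, 1, 1, 39010326, 5457426), (96, 1, 1, 39206931, 72549906), (94, 1, 1, 39206931, 72549906), (112, 1, 1, 40058901, 84100626), (167, 1, 1, 37052676, 54548001), (117, 16, 16, 86381376, 73475376), (114, 1, 1, 39206931, 72549906), (135, 1, 1, 40120581, 84162081), (161, 16, 16, 84042801, 56759301), (91, 16, 16, 86270736, 56894736), (76, 16, 16, 69620496, 70657296),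 (135, 1, 1, 40120341, 84162066), (161, 16, 16, 84042561, 56697861), (91, 16, 16, 86270256, 56890656), (76, 16, 16, 69620016, 70653216), (112, 16, 16, 103093296, 104994096), (89, 16, 16, 103104816, 105059616), (112, 16, 16, 103093056, 104932656), (89, 16, 16, 103105296, 105063696), (77, 16, 16, 69558576, 54924576), (77, 16, 16, 69559056, 54928656), (134, 1, 1, 55722246, 5465121), (122, 1, 1, 55722246, 5465121), (135, 16, 16, 103093251, 104990001), (69, 16, 16, 69558531, 54920481), (134, 1, 1, 55722006, 5465106), (135, 16, 16, 103092291, 104924466)]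
  [(55, -96), (56, -288), (61, -96), (69, -96), (76, -96), (77, -288), (82, -96), (83, 96), (84, 96), (89, -384), (93, -96), (94, -96), (95, -96), (96, -96), (112, -288), (113, -192), (114, -96), (115, 192), (116, 480), (117, -96), (122, -96), (123, 96), (124, 96), (134, -192), (135, -288), (137, 192), (138, -96), (141, 480), (142, -96), (159, 96), (161, 384), (166, 384), (167, 96), (169, 288), (175, 288)] = true := by
  decide +kernel

theorem t57_4_6 : chkS lk57 2 5 [(1, m57_4)] l57_6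
  [(116, 16, 16, 19162416, 52696416), (114, 16, 16, 19285296, 69408096), (62, 1, 1, 54878466, 54878241), (116, 16, 16, 19161936, 51651936), (114, 16, 16, 19284816, 68363616), (16, 1, 1, 105911076, 105914676), (77, 1, 1, 55730196, 55600146), (80, 1, 1, 54878226, 54878226), (136, 16, 16, 19227651, 54658401), (140, 16, 16, 20337666, 70406241), (77, 1, 1, 55730436, 55600161), (80, 1, 1, 54878466, 54878241), (136, 16, 16, 19226691, 54592866), (140, 16, 16, 20336706, 70340706), (165, 1, 1, 73543701, 84292626), (97, 1, 1, 87441921, 73617921), (165, 1, 1, 73543941, 84292641), (97, 1, 1, 87441441, 73617666), (18, 16, 16, 68363856, 35013456), (91, 1, 1, 104153121, 105074946), (91, 1, 1, 104153601, 105075201), (112, 1, 1, 73601541, 84296241), (61, 1, 1, 55730436, 55600161), (112, 1, 1, 73601061, 84295986), (141, 1, 1, 21324576, 54862176), (140, 1, 1, 21386016, 70590816), (73, 1, 1, 54878466, 54878241),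 (141, 1, 1, 21324336, 54858336), (140, 1, 1, 21385776, 70586976), (18, 16, 16, 34817616, 34817616), (56, 1, 1, 22241796, 55591521), (57, 1, 1, 21324291, 54854241), (112, 1, 1, 23282181, 84099681), (114, 1, 1, 22430211, 72548961), (56, 1, 1, 22241316, 55591266), (57, 1, 1, 21323811, 54853986), (112, 1, 1, 23281701, 84099426), (114, 1, 1, 22429731, 72548706), (158, 1, 1, 23331381, 84152931), (97, 16, 16, 86393616, 73606416), (158, 1, 1, 23331621, 84156771), (97, 16, 16, 86393136, 73602336), (16, 1, 1, 22045476, 55583076), (90, 16, 16, 103104816, 105059616), (90, 16, 16, 103105296, 105063696), (136, 16, 16, 103093251, 104990001), (69, 1, 1, 55730436, 55600161), (136, 16, 16, 103092291, 104924466)]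
  [(56, 192), (57, -192), (61, -192), (62, 192), (69, -192), (73, 192), (77, 192), (80, -192), (90, -576), (91, -576), (97, -384), (112, -192), (114, 192), (116, 576), (136, -192), (140, 192), (141, 576), (158, 192), (165, 192)] = true := by
  decide +kernel

theorem t57_4_7 : chkS lk57 2 5 [(1, m57_4)] l57_7
  [(57, 1, 1, 105189411, 105185586), (57, 1, 1, 105189891, 105185841), (62, 1, 1, 105197826, 105197601), (73, 1, 1, 105197826, 105197601), (69, 1, 1, 106049796, 105919521), (80, 1, 1, 105197586, 105197586), (77, 1, 1, 106049556, 105919506), (56, 1, 1, 106106916, 105922866), (80, 1, 1, 105197826, 105197601), (77, 1, 1, 106049796, 105919521), (56, 1, 1, 106107396, 105923121), (61, 1, 1, 106049796, 105919521)]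
  [(56, -960), (57, 960), (61, -480), (62, 480), (69, -480), (73, 480), (77, -960), (80, 960)] = true := by
  decide +kernel

theorem t57_4_8 : chkS lk57 2 5 [(1, m57_4)] l57_8
  [(58, 1, 1, 4526115, 4522290), (58, 1, 1, 4526595, 4522545), (30, 1, 1, 3490050, 4411425), (74, 1, 1, 4534530, 4534305), (72, 1, 1, 4337925, 341025), (43, 16, 16, 1389600, 4338000), (38, 16, 16, 2429955, 4326705), (42, 16, 16, 2184195, 3278145), (43, 16, 16, 1389120, 4272720), (38, 16, 16, 2428995, 4261170), (42, 16, 16, 2183235, 3212610), (34, 1, 1, 2380035, 3409185)]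
  [(30, 480), (34, -480), (38, -960), (42, -960), (43, 960), (58, 960), (72, -480), (74, 480)] = true := by
  decide +kernel

theorem t57_4_9 : chkS lk57 2 5 [(1, m57_4)] l57_9
  [(107, 16, 16, 2442000, 4400400), (107, 16, 16, 2441520, 4396320), (120, 16, 16, 2429760, 4269360), (176, 16, 16, 2118675, 3278100), (176, 16, 16, 2117955, 3212580), (179, 16, 16, 2102595, 2164020), (108, 1, 1, 3490305, 4411905), (108, 1, 1, 3489825, 4411650), (17, 1, 1, 4526880, 4530480), (172, 1, 1, 3166740, 3166740), (172, 1, 1, 3166500, 3166500), (15, 1, 1, 4199205, 336180)]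
  [(15, -480), (17, 480), (107, 960), (108, 960), (120, 480), (172, -960), (176, -960), (179, -480)] = true := by
  decide +kernel

theorem t57_5_5 : chkS lk57 2 5 [(1, m57_5)] l57_5
  [(83, 1, 1, 87115266, 40063041), (115, 1, 1, 88155651, 40174401), (84, 1, 1, 87122946, 56774721), (116, 1, 1, 88171011, 56951361), (116, 1, 1, 72488451, 39191601), (169, 16, 16, 33838641, 36967941), (169, 16, 16, 33773121, 36783621), (166, 16, 16, 33842481, 52696581), (116, 1, 1, 88105491, 56951316), (166, 16, 16, 33776961, 52512261), (116, 1, 1, 72357411, 39190836), (115, 1, 1, 88090131, 40174356), (89, 1, 1, 55591446, 5464596), (90, 1, 1, 55591446, 5464596), (142, 1, 1, 72442626, 55976001), (174, 16, 16, 50746401, 70410501), (56, 1, 1, 54531621, 33906996), (55, 1, 1, 54531621, 33906996), (138, 1, 1, 72431106, 39202881), (142, 1, 1, 88282656, 40190256), (82, 1, 1, 87115266, 40063041), (61, 1, 1, 69297411,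 52823361), (56, 1, 1, 70345986, 52842561), (89, 1, 1, 87180801, 40064001), (113, 1, 1, 88090131, 40174356), (112, 1, 1, 87037476, 39866676), (135, 1, 1, 88282656, 40190256), (135, 1, 1, 88217136, 40178736), (61, 1, 1, 37828101, 33896001), (60, 1, 1, 69293571, 37094721), (55, 1, 1, 70342146, 37113921), (90, 1, 1, 87188481, 56775681), (112, 1, 1, 55591446, 5464596), (166, 1, 1, 87122436, 56644161), (159, 1, 1, 88171011, 56951361), (159, 1, 1, 88105491, 56951316), (142, 1, 1, 88217136, 40178736), (174, 16, 16, 50484321, 20079621), (138, 1, 1, 72365586, 39202836), (93, 1, 1, 55657986, 39018561), (142, 1, 1, 72377106, 55975956), (95, 1, 1, 55657986, 39018561), (56, 1, 1, 54662661, 33907761), (89, 1, 1, 55656966, 5464641), (55, 1, 1, 54662661, 33907761), (90, 1, 1, 55656966, 5464641), (135, 1, 1, 72364566, 5648916), (159, 16, 16, 33776961, 52512261), (123, 1, 1, 55657986, 39018561), (137, 1,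 1, 55657986, 39018561), (124, 1, 1, 55657986, 39018561), (141, 1, 1, 55665666, 55730241), (141, 16, 16, 87299586, 40128561), (175, 16, 16, 67523361, 70656261), (175, 16, 16, 67261281, 20325381), (161, 1, 1, 37840131, 52758081), (141, 1, 1, 55600146, 55730196), (161, 1, 1, 37774611, 52758036), (141, 16, 16, 87037506, 39931956), (137, 1, 1, 55592466, 39018516), (89, 1, 1, 39928581, 84092481), (91, 1, 1, 38880006, 5449281), (117, 1, 1, 37840131, 52758081), (170, 16, 16, 100946481, 104075781), (77, 1, 1, 37828101, 33896001), (76, 1, 1, 37828101, 33896001), (114, 1, 1, 38880771, 38995521), (117, 16, 16, 86251056, 40113456), (122, 1, 1, 55656966, 5464641), (69, 16, 16, 69297411, 52823361), (77, 16, 16, 69428496, 52839696), (89, 16, 16, 102974736, 102974736), (134, 1, 1, 55591446, 5464596), (135, 16, 16, 102765891, 102827316), (112, 16, 16, 103028016, 103028016), (112, 16, 16, 102962496, 102843696),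 (69, 1, 1, 37828101, 33896001), (68, 1, 1, 37828101, 33896001), (76, 16, 16, 69424656, 37111056), (91, 16, 16, 86205456, 56771856), (135, 1, 1, 39859221, 84030996), (161, 16, 16, 84107841, 56705541), (167, 16, 16, 84173361, 56889861), (167, 16, 16, 84107841, 56705541), (117, 16, 16, 86185536, 39929136), (170, 16, 16, 100880961, 103891461), (114, 1, 1, 38815251, 38995476), (94, 1, 1, 38815251, 38995476), (117, 1, 1, 37774611, 52758036), (96, 1, 1, 38815251, 38995476), (77, 1, 1, 37762581, 33895956), (89, 1, 1, 39863061, 84092436), (76, 1, 1, 37762581, 33895956), (91, 1, 1, 38814486, 5449236), (112, 1, 1, 39863061, 84092436), (167, 1, 1, 36791556, 52450881)]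
  [(55, -96), (56, -96), (60, 48), (61, 96), (68, 48), (69, 96), (76, -96), (77, -96), (82, 48), (83, 144), (84, 144), (89, -192), (90, -96), (91, -96), (93, -144), (94, -144), (95, -144), (96, -144), (112, -96), (113, 48), (114, -192), (115, 240), (116, 480), (117, -384), (122, 48), (123, 144), (124, 144), (134, 48), (135, -96), (137, 240), (138, -192), (141, 480), (142, -384), (159, -192), (161, 240), (166, 240), (167, -192), (169, 240), (170, -192), (174, -192), (175, 240)] = true := by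
  decide +kernel

theorem t57_5_6 : chkS lk57 2 5 [(1, m57_5)] l57_6
  [(62, 1, 1, 54617346, 52781121), (114, 16, 16, 19220016, 37950816), (116, 16, 16, 19227696, 54662496), (116, 16, 16, 19096656, 51529056), (16, 1, 1, 106106916, 105922866), (114, 16, 16, 19088976, 34817376), (77, 1, 1, 55599636, 55599636), (142, 16, 16, 20210946, 52711521), (54, 1, 1, 55580196, 38822196), (140, 16, 16, 20207106, 36982881), (61, 1, 1, 55665156, 55599681), (91, 1, 1, 103957761, 102978561), (112, 1, 1, 73405221, 84287796), (18, 16, 16, 68559696, 68559696), (59, 1, 1, 55649796, 38822721), (97, 1, 1, 87180801, 40064001), (165, 1, 1, 73478661, 84292161), (157, 16, 16, 19268691, 68289891), (140, 16, 16, 19945026, 36786276), (142, 16, 16, 19948866, 52514916), (80, 1, 1, 54617346, 52781121), (54, 1, 1, 55711236, 38822961), (77, 1, 1, 55665156, 55599681), (136, 16, 16, 18900291, 52495716), (73, 1, 1, 54617346,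 52781121), (140, 1, 1, 21190176, 37044576), (141, 1, 1, 21194016, 52773216), (141, 1, 1, 21128496, 52761696), (18, 16, 16, 35013456, 68363856), (140, 1, 1, 21124656, 37033056), (56, 1, 1, 22176516, 55583841), (117, 1, 1, 21128451, 52757601), (54, 1, 1, 22164996, 38810721), (114, 1, 1, 22169091, 38995041), (69, 1, 1, 55665156, 55599681), (90, 16, 16, 102974736, 102974736), (136, 16, 16, 102765891, 102827316), (16, 1, 1, 22241316, 55591266), (67, 1, 1, 55649796, 38822721), (97, 16, 16, 86197776, 40060176), (158, 1, 1, 23266341, 84033891), (164, 16, 16, 67514961, 68563461), (114, 1, 1, 22038051, 38994276), (117, 1, 1, 20997411, 52756836), (57, 1, 1, 20997411, 52756836), (54, 1, 1, 22033956, 38809956), (56, 1, 1, 22045476, 55583076), (112, 1, 1, 23085861, 84091236)]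
  [(16, 96), (18, 96), (54, -192), (56, -96), (57, -288), (59, 96), (61, 96), (62, 288), (67, 96), (69, 96), (73, 288), (77, -96), (80, -288), (90, -96), (91, -96), (97, -192), (112, -96), (114, 96), (116, 480), (117, -384), (136, -96), (140, 96), (141, 480), (142, -384), (157, -96), (158, 96), (164, -96), (165, 96)] = true := by
  decide +kernel

theorem t57_5_7 : chkS lk57 2 5 [(1, m57_5)] l57_7
  [(90, 16, 16, 69428496, 52839696), (117, 1, 1, 104994051, 103089201), (116, 16, 16, 103093296, 104994096), (141, 1, 1, 105059616, 103104816), (56, 1, 1, 105911076, 105914676), (142, 16, 16, 104076546, 103043121), (77, 1, 1, 105918996, 105918996), (69, 1, 1, 105984516, 105919041), (91, 1, 1, 70411521, 52843521), (61, 1, 1, 105984516, 105919041), (56, 1, 1, 106042116, 105915441), (77, 1, 1, 105984516, 105919041)]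
  [(56, -960), (61, -480), (69, -480), (77, -960), (90, 480), (91, 480), (116, 480), (117, 480), (141, 480), (142, 480)] = true := by
  decide +kernel

theorem t57_5_8 : chkS lk57 2 5 [(1, m57_5)] l57_8
  [(38, 1, 1, 5321220, 5255745), (119, 1, 1, 4269315, 2425665), (118, 1, 1, 5325315, 5440065), (40, 16, 16, 1332000, 3416400), (42, 16, 16, 2380035, 3409185), (143, 1, 1, 5325570, 5447745), (38, 16, 16, 2364675, 2360625), (72, 1, 1, 4272645, 340545), (42, 16, 16, 1389120, 4272720), (34, 1, 1, 2184195, 3278145), (42, 16, 16, 2117955, 3212580), (38, 16, 16, 2102595, 2164020)]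
  [(34, -480), (38, -480), (40, 480), (42, -480), (72, -480), (118, 480), (119, 480), (143, 480)] = true := by
  decide +kernel

theorem t57_5_9 : chkS lk57 2 5 [(1, m57_5)] l57_9
  [(107, 16, 16, 2311440, 2311440), (171, 16, 16, 283185, 3412485), (120, 16, 16, 2299200, 2180400), (130, 16, 16, 2180355, 2295105), (176, 16, 16, 2183235, 3212610), (144, 16, 16, 2102595, 2164020), (108, 1, 1, 3294465, 2315265), (177, 1, 1, 4411425, 3490050), (17, 1, 1, 4396320, 2441520), (87, 1, 1, 2180355, 2295105), (172, 1, 1, 3231780, 3166530), (121, 1, 1, 3151140, 2117940)]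
  [(17, 480), (87, -480), (107, 480), (108, 480), (120, 480), (121, -480), (130, -480), (144, -480), (171, 480), (172, -480), (176, -480), (177, 480)] = true := by
  decide +kernel

theorem t57_6_6 : chkS lk57 2 5 [(1, m57_6)] l57_6
  [(7, 1, 1, 70345986, 52842561), (115, 16, 16, 34887216, 36968016), (115, 16, 16, 34891056, 52696656), (115, 16, 16, 34825536, 52512336), (111, 16, 16, 34891056, 52696656), (115, 16, 16, 34821696, 36783696), (76, 1, 1, 55599636, 55599636), (138, 16, 16, 51733536, 54681936), (76, 1, 1, 55584276, 38822676), (138, 16, 16, 51725856, 37970256), (60, 1, 1, 87122946, 56774721), (76, 1, 1, 87188481, 56775681), (166, 1, 1, 73474821, 84288321), (133, 16, 16, 51790416, 68379216), (60, 1, 1, 87115266, 40063041), (76, 1, 1, 87180801, 40064001), (166, 1, 1, 73478661, 84292161), (133, 16, 16, 51782736, 68313936), (138, 16, 16, 51529296, 34825296), (138, 16, 16, 51536976,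 51536976), (79, 1, 1, 54617346, 52781121), (76, 1, 1, 55649796, 38822721), (76, 1, 1, 55665156, 55599681), (133, 16, 16, 19948866, 52514916), (10, 16, 16, 34891056, 52696656), (137, 16, 16, 68498976, 38154576), (137, 16, 16, 68510496, 54927696), (137, 16, 16, 68313936, 51782736), (5, 16, 16, 34891056, 52696656), (137, 16, 16, 68302416, 35009616), (55, 1, 1, 22176516, 55583841), (114, 16, 16, 68510256, 54923856), (55, 1, 1, 22164996, 38810721), (114, 16, 16, 68494896, 38146896), (68, 1, 1, 55665156, 55599681), (55, 16, 16, 85156896, 56770896), (160, 16, 16, 101918016, 102843216), (16, 1, 1, 23285796, 87048546), (68, 1, 1, 55649796, 38822721), (55, 16, 16, 85149216, 40059216), (160, 16, 16, 101929536, 103891536), (16, 1, 1, 23266596, 85999971), (114, 16, 16, 68363856, 35013456), (114, 16, 16, 68379216, 51790416), (24, 1, 1, 70345986, 52842561), (55, 1, 1, 22033956, 38809956), (55, 1, 1,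 22045476, 55583076), (16, 16, 16, 101986896, 101986896)]
  [(5, 192), (7, 288), (10, 288), (16, -384), (24, -288), (55, -384), (60, 192), (68, 192), (76, -384), (79, -288), (111, 192), (114, -768), (115, 960), (133, -384), (137, 960), (138, -768), (160, 192), (166, 192)] = true := by
  decide +kernel

theorem t57_6_7 : chkS lk57 2 5 [(1, m57_6)] l57_7
  [(23, 1, 1, 105984516, 105919041), (116, 16, 16, 102056496, 105058896), (116, 16, 16, 102048816, 104993616), (139, 16, 16, 102056736, 105062736), (92, 1, 1, 73409301, 84288276), (139, 16, 16, 102052896, 105001296), (92, 1, 1, 73413141, 84292116), (70, 16, 16, 103896066, 103960641), (78, 1, 1, 103961601, 103961601), (9, 1, 1, 103896066, 103960641), (92, 1, 1, 73474821, 84288321), (92, 1, 1, 73478661, 84292161)]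
  [(9, -480), (23, 480), (70, -480), (78, 480), (92, -1920), (116, 960), (139, 960)] = true := by
  decide +kernel

theorem t57_6_8 : chkS lk57 2 5 [(1, m57_6)] l57_8
  [(32, 1, 1, 5321220, 5255745), (118, 16, 16, 1331760, 3412560), (118, 16, 16, 1320240, 2364240), (39, 16, 16, 4534530, 4534305), (102, 1, 1, 5251860, 5251860), (39, 16, 16, 4526850, 4530225), (102, 1, 1, 5255700, 5255700), (71, 16, 16, 3232770, 3297345), (32, 16, 16, 1389120, 4272720), (33, 1, 1, 3232770, 3297345), (102, 1, 1, 5317380, 5251905), (102, 1, 1, 5321220, 5255745)]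
  [(32, 960), (33, -480), (39, 960), (71, -480), (102, -1920), (118, 960)] = true := by
  decide +kernel

theorem t57_6_9 : chkS lk57 2 5 [(1, m57_6)] l57_9
  [(22, 16, 16, 3294465, 2315265), (120, 16, 16, 1266240, 3228240), (120, 16, 16, 1254720, 2179920), (75, 16, 16, 3228930, 2314305), (163, 16, 16, 1266240, 3228240), (163, 16, 16, 1254720, 2179920), (81, 1, 1, 3294465, 2315265), (19, 1, 1, 4411680, 3490080), (19, 1, 1, 4396320, 2441520), (11, 1, 1, 3228930, 2314305), (168, 1, 1, 4280355, 3473730), (168, 1, 1, 4261155, 2425155)]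
  [(11, -480), (19, 960), (22, 480), (75, -480), (81, 480), (120, 960), (163, -960), (168, -960)] = true := by
  decide +kernel

theorem t57_7_7 : chkS lk57 2 5 [(1, m57_7)] l57_7
  [(4, 16, 16, 106181136, 106181136), (104, 16, 16, 105198096, 105198096), (104, 16, 16, 105194256, 105194256), (104, 16, 16, 105198081, 105198081), (96, 1, 1, 104988981, 100996131), (104, 16, 16, 105194241, 105194241), (96, 1, 1, 104992821, 100996146), (84, 1, 1, 73732131, 88473906), (127, 16, 16, 105198096, 105198096), (124, 1, 1, 105058341, 101007666), (95, 1, 1, 105054501, 101007651), (95, 1, 1, 105058341, 101007666)]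
  [(4, 480), (84, -480), (95, -960), (96, -960), (104, 1920), (124, -480), (127, 480)] = true := by
  decide +kernel

theorem t57_7_8 : chkS lk57 2 5 [(1, m57_7)] l57_8
  [(31, 16, 16, 5517840, 5517840), (105, 16, 16, 4534800, 4534800), (105, 16, 16, 4530960, 4530960), (105, 16, 16, 4534785, 4534785), (58, 16, 16, 5517825, 5517825), (105, 16, 16, 4530945, 4530945), (58, 16, 16, 5513985, 5513985), (30, 1, 1, 5443620, 5259570), (128, 16, 16, 4534800, 4534800), (74, 16, 16, 5509155, 5505330), (43, 16, 16, 5324835, 5439810), (43, 16, 16, 5309475, 5374275)]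
  [(30, -480), (31, 480), (43, -960), (58, -960), (74, -480), (105, 1920), (128, 480)] = true := by
  decide +kernel

theorem t57_7_9 : chkS lk57 2 5 [(1, m57_7)] l57_9
  [(3, 16, 16, 5517840, 5517840), (109, 16, 16, 4534560, 4534560), (109, 16, 16, 4526880, 4530480), (173, 16, 16, 5256210, 5386260), (21, 16, 16, 5324850, 5443650), (21, 16, 16, 5309490, 5378115), (131, 1, 1, 4534800, 4534800), (109, 1, 1, 4530225, 4526850), (109, 1, 1, 4522545, 4526595), (21, 1, 1, 5321220, 5255745), (173, 1, 1, 5251380, 5247780), (173, 1, 1, 5247540, 5247540)]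
  [(3, 480), (21, -1440), (109, 1920), (131, 480), (173, -1440)] = true := by
  decide +kernel

theorem t57_8_8 : chkS lk57 2 5 [(1, m57_8)] l57_8
  [(44, 16, 16, 274960, 274960), (106, 16, 16, 274960, 274960), (106, 16, 16, 271120, 271120), (106, 16, 16, 274945, 274945), (12, 1, 1, 266275, 262450), (106, 16, 16, 271105, 271105), (12, 1, 1, 262435, 262435), (0, 1, 1, 266275, 262450), (129, 16, 16, 274960, 274960), (1, 16, 16, 148225, 205825), (45, 16, 16, 213505, 213505), (45, 16, 16, 205825, 148225)]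
  [(0, -480), (1, -480), (12, -960), (44, 480), (45, -960), (106, 1920), (129, 480)] = true := by
  decide +kernel

theorem t57_8_9 : chkS lk57 2 5 [(1, m57_8)] l57_9
  [(29, 16, 16, 274960, 274960), (110, 16, 16, 274720, 274720), (110, 16, 16, 267040, 270640), (28, 16, 16, 144385, 144385), (35, 16, 16, 81970, 200770), (35, 16, 16, 66610, 135235), (132, 1, 1, 274960, 274960), (110, 1, 1, 270385, 267010), (110, 1, 1, 262705, 266755), (35, 1, 1, 78340, 12865), (28, 1, 1, 135220, 5170), (28, 1, 1, 131380, 5155)]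
  [(28, -1440), (29, 480), (35, -1440), (110, 1920), (132, 480)] = true := by
  decide +kernel

theorem t57_9_9 : chkS lk57 2 5 [(1, m57_9)] l57_9
  [(6, 16, 16, 144400, 144400), (181, 16, 16, 144400, 144400), (181, 16, 16, 148240, 205840), (181, 16, 16, 271105, 271105), (13, 16, 16, 148240, 205840), (13, 16, 16, 144400, 144400), (180, 16, 16, 144400, 144400), (20, 16, 16, 274960, 274960), (20, 16, 16, 271120, 271120), (20, 16, 16, 144385, 144385), (2, 16, 16, 148240, 205840), (2, 16, 16, 144400, 144400)]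
  [(2, -960), (6, 480), (13, -960), (20, 480), (180, 480), (181, 480)] = true := by
  decide +kernel

section

variable {κ ι : Type*} [Fintype κ] [Fintype ι] [Inhabited κ] [Inhabited ι]

noncomputable def F57_0 (E : Env κ ι) : (Fin 2 → κ) → (Fin 5 → ι) → ℝ := op2 (P11 κ) (P5 ι) (fB E 2 5 m57_0)

noncomputable def F57_1 (E : Env κ ι) : (Fin 2 → κ) → (Fin 5 → ι) → ℝ := op2 (P11 κ) (P5 ι) (fB E 2 5 m57_1)

noncomputable def F57_2 (E : Env κ ι) : (Fin 2 → κ) → (Fin 5 → ι) → ℝ := op2 (P11 κ) (P5 ι) (fB E 2 5 m57_2)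

noncomputable def F57_3 (E : Env κ ι) : (Fin 2 → κ) → (Fin 5 → ι) → ℝ := op2 (P11 κ) (P5 ι) (fB E 2 5 m57_3)

noncomputable def F57_4 (E : Env κ ι) : (Fin 2 → κ) → (Fin 5 → ι) → ℝ := op2 (P11 κ) (P5 ι) (fB E 2 5 m57_4)

noncomputable def F57_5 (E : Env κ ι) : (Fin 2 → κ) → (Fin 5 → ι) → ℝ := op2 (P11 κ) (P5 ι) (fB E 2 5 m57_5)

noncomputable def F57_6 (E : Env κ ι) : (Fin 2 → κ) → (Fin 5 → ι) → ℝ := op2 (P11 κ) (P5 ι) (fB E 2 5 m57_6)

noncomputable def F57_7 (E : Env κ ι) : (Fin 2 → κ) → (Fin 5 → ι) → ℝ := op2 (P11 κ) (P5 ι) (fB E 2 5 m57_7)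

noncomputable def F57_8 (E : Env κ ι) : (Fin 2 → κ) → (Fin 5 → ι) → ℝ := op2 (P11 κ) (P5 ι) (fB E 2 5 m57_8)

noncomputable def F57_9 (E : Env κ ι) : (Fin 2 → κ) → (Fin 5 → ι) → ℝ := op2 (P11 κ) (P5 ι) (fB E 2 5 m57_9)

def r57_0_0 : List (ℕ × ℤ) := [(27, -288), (66, -384), (79, -288), (80, -384), (93, 960), (95, 192), (103, 288), (104, 192), (138, -768), (140, -768), (142, -768), (149, 960), (150, 192), (154, 288), (155, 192), (174, 384)]

theorem h57_0_0 (E : Env κ ι) : ip (F57_0 E) (F57_0 E) = dotS (ek E lk57) r57_0_0 :=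
  op_entryZ E lk57 2 5 _ _ _ _ (pg11 κ) (pg5 ι) m57_0 m57_0 l57_0 z57_0 w57_0 x57_0 (by decide) _ (chkS_sound E lk57 2 5 _ _ _ _ t57_0_0)

def r57_0_1 : List (ℕ × ℤ) := [(27, -96), (66, 192), (79, -96), (80, 192), (95, 384), (103, 96), (104, 384), (138, -576), (140, -576), (142, -576), (150, 384), (154, 96), (155, 384), (174, -192)]

theorem h57_0_1 (E : Env κ ι) : ip (F57_0 E) (F57_1 E) = dotS (ek E lk57) r57_0_1 :=
  op_entryZ E lk57 2 5 _ _ _ _ (pg11 κ) (pg5 ι) m57_0 m57_1 l57_1 z57_1 w57_1 x57_1 (by decide) _ (chkS_sound E lk57 2 5 _ _ _ _ t57_0_1)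

def r57_0_2 : List (ℕ × ℤ) := [(18, -288), (46, 384), (47, -384), (54, -192), (57, 192), (63, -192), (64, -576), (65, -192), (66, 192), (76, -576), (77, -192), (88, 288), (89, 384), (91, -384), (92, 192), (94, 576), (96, 192), (133, -288), (135, -192), (136, -192), (145, 288), (146, 384), (147, -384), (148, 192), (149, 576), (150, 192)]

theorem h57_0_2 (E : Env κ ι) : ip (F57_0 E) (F57_2 E) = dotS (ek E lk57) r57_0_2 :=
  op_entryZ E lk57 2 5 _ _ _ _ (pg11 κ) (pg5 ι) m57_0 m57_2 l57_2 z57_2 w57_2 x57_2 (by decide) _ (chkS_sound E lk57 2 5 _ _ _ _ t57_0_2)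

def r57_0_3 : List (ℕ × ℤ) := [(23, 288), (24, 192), (26, 288), (27, 192), (47, 384), (52, -384), (57, 768), (66, 768), (90, 192), (97, -960), (147, 192), (151, -960), (157, -576), (159, -384)]

theorem h57_0_3 (E : Env κ ι) : ip (F57_0 E) (F57_3 E) = dotS (ek E lk57) r57_0_3 :=
  op_entryZ E lk57 2 5 _ _ _ _ (pg11 κ) (pg5 ι) m57_0 m57_3 l57_3 z57_3 w57_3 x57_3 (by decide) _ (chkS_sound E lk57 2 5 _ _ _ _ t57_0_3)

def r57_0_4 : List (ℕ × ℤ) := [(18, -288), (26, 288), (47, -384), (48, 384), (56, -192), (57, 192), (64, -192), (65, 192), (66, 192), (76, -192), (77, 384), (78, 288), (89, -192), (91, -576), (94, 192), (96, 576), (133, -288), (135, -192), (136, -192), (146, -192), (147, -576), (149, 192), (150, 576)]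

theorem h57_0_4 (E : Env κ ι) : ip (F57_0 E) (F57_4 E) = dotS (ek E lk57) r57_0_4 :=
  op_entryZ E lk57 2 5 _ _ _ _ (pg11 κ) (pg5 ι) m57_0 m57_4 l57_4 z57_4 w57_4 x57_4 (by decide) _ (chkS_sound E lk57 2 5 _ _ _ _ t57_0_4)

def r57_0_5 : List (ℕ × ℤ) := [(18, -192), (26, 96), (46, -192), (47, -576), (48, -192), (54, 96), (56, 96), (57, 288), (63, 96), (64, -96), (66, 288), (76, -96), (77, -96), (78, 96), (88, 96), (89, -96), (91, -480), (92, 384), (94, 96), (96, 96), (133, -192), (135, 192), (136, 192), (145, 96), (146, -96), (147, -480), (148, 384), (149, 96), (150, 96)]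

theorem h57_0_5 (E : Env κ ι) : ip (F57_0 E) (F57_5 E) = dotS (ek E lk57) r57_0_5 :=
  op_entryZ E lk57 2 5 _ _ _ _ (pg11 κ) (pg5 ι) m57_0 m57_5 l57_5 z57_5 w57_5 x57_5 (by decide) _ (chkS_sound E lk57 2 5 _ _ _ _ t57_0_5)

def r57_0_6 : List (ℕ × ℤ) := [(23, 192), (24, 288), (26, 192), (27, 288), (47, -384), (52, -576), (55, 960), (57, 192), (64, 960), (66, 192), (90, -192), (97, -960), (147, -192), (151, -960), (157, -384), (159, 384)]

theorem h57_0_6 (E : Env κ ι) : ip (F57_0 E) (F57_6 E) = dotS (ek E lk57) r57_0_6 :=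
  op_entryZ E lk57 2 5 _ _ _ _ (pg11 κ) (pg5 ι) m57_0 m57_6 l57_6 z57_6 w57_6 x57_6 (by decide) _ (chkS_sound E lk57 2 5 _ _ _ _ t57_0_6)

def r57_0_7 : List (ℕ × ℤ) := [(23, -480), (26, -480), (49, 960), (90, -960), (99, 960), (147, -960), (152, 960)]

theorem h57_0_7 (E : Env κ ι) : ip (F57_0 E) (F57_7 E) = dotS (ek E lk57) r57_0_7 :=
  op_entryZ E lk57 2 5 _ _ _ _ (pg11 κ) (pg5 ι) m57_0 m57_7 l57_7 z57_7 w57_7 x57_7 (by decide) _ (chkS_sound E lk57 2 5 _ _ _ _ t57_0_7)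

def r57_0_8 : List (ℕ × ℤ) := [(32, -480), (36, -480), (37, -960), (38, -960), (50, 960), (101, 960), (153, 960)]

theorem h57_0_8 (E : Env κ ι) : ip (F57_0 E) (F57_8 E) = dotS (ek E lk57) r57_0_8 :=
  op_entryZ E lk57 2 5 _ _ _ _ (pg11 κ) (pg5 ι) m57_0 m57_8 l57_8 z57_8 w57_8 x57_8 (by decide) _ (chkS_sound E lk57 2 5 _ _ _ _ t57_0_8)

def r57_0_9 : List (ℕ × ℤ) := [(22, -480), (25, -480), (53, 960), (107, 960), (156, 960), (162, -1920)]

theorem h57_0_9 (E : Env κ ι) : ip (F57_0 E) (F57_9 E) = dotS (ek E lk57) r57_0_9 :=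
  op_entryZ E lk57 2 5 _ _ _ _ (pg11 κ) (pg5 ι) m57_0 m57_9 l57_9 z57_9 w57_9 x57_9 (by decide) _ (chkS_sound E lk57 2 5 _ _ _ _ t57_0_9)

def r57_1_1 : List (ℕ × ℤ) := [(27, 288), (66, 384), (79, 288), (80, 384), (95, -192), (103, 192), (104, 288), (138, -192), (140, -192), (142, -1152), (150, -192), (154, 192), (155, 288), (174, -384)]

theorem h57_1_1 (E : Env κ ι) : ip (F57_1 E) (F57_1 E) = dotS (ek E lk57) r57_1_1 :=
  op_entryZ E lk57 2 5 _ _ _ _ (pg11 κ) (pg5 ι) m57_1 m57_1 l57_1 z57_1 w57_1 x57_1 (by decide) _ (chkS_sound E lk57 2 5 _ _ _ _ t57_1_1)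

def r57_1_2 : List (ℕ × ℤ) := [(18, -96), (46, -192), (47, 192), (54, -384), (57, 384), (63, -384), (64, -192), (65, -384), (66, 384), (76, -192), (77, -384), (88, 96), (89, -192), (91, 192), (92, 384), (94, 192), (96, 384), (133, -96), (135, -384), (136, -384), (145, 96), (146, -192), (147, 192), (148, 384), (149, 192), (150, 384)]

theorem h57_1_2 (E : Env κ ι) : ip (F57_1 E) (F57_2 E) = dotS (ek E lk57) r57_1_2 :=
  op_entryZ E lk57 2 5 _ _ _ _ (pg11 κ) (pg5 ι) m57_1 m57_2 l57_2 z57_2 w57_2 x57_2 (by decide) _ (chkS_sound E lk57 2 5 _ _ _ _ t57_1_2)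

def r57_1_3 : List (ℕ × ℤ) := [(23, 96), (24, 384), (26, 96), (27, 384), (47, -192), (52, 192), (57, 576), (66, 576), (90, -576), (147, -576), (157, -192), (159, -768)]

theorem h57_1_3 (E : Env κ ι) : ip (F57_1 E) (F57_3 E) = dotS (ek E lk57) r57_1_3 :=
  op_entryZ E lk57 2 5 _ _ _ _ (pg11 κ) (pg5 ι) m57_1 m57_3 l57_3 z57_3 w57_3 x57_3 (by decide) _ (chkS_sound E lk57 2 5 _ _ _ _ t57_1_3)

def r57_1_4 : List (ℕ × ℤ) := [(18, -96), (26, 96), (47, 192), (48, -192), (56, -384), (57, 384), (64, 576), (65, -576), (66, 384), (76, 576), (77, -192), (78, 96), (89, -384), (91, -192), (94, 384), (96, 192), (133, -96), (135, -384), (136, -384), (146, -384), (147, -192), (149, 384), (150, 192)]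

theorem h57_1_4 (E : Env κ ι) : ip (F57_1 E) (F57_4 E) = dotS (ek E lk57) r57_1_4 :=
  op_entryZ E lk57 2 5 _ _ _ _ (pg11 κ) (pg5 ι) m57_1 m57_4 l57_4 z57_4 w57_4 x57_4 (by decide) _ (chkS_sound E lk57 2 5 _ _ _ _ t57_1_4)

def r57_1_5 : List (ℕ × ℤ) := [(18, 96), (26, 192), (46, -384), (47, -192), (48, -384), (54, -288), (56, -288), (57, 96), (63, -288), (64, 288), (65, -480), (66, 96), (76, 288), (77, -192), (78, 192), (88, 192), (89, -192), (92, 288), (94, 192), (96, 192), (133, 96), (135, -96), (136, -96), (145, 192), (146, -192), (148, 288), (149, 192), (150, 192)]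

theorem h57_1_5 (E : Env κ ι) : ip (F57_1 E) (F57_5 E) = dotS (ek E lk57) r57_1_5 :=
  op_entryZ E lk57 2 5 _ _ _ _ (pg11 κ) (pg5 ι) m57_1 m57_5 l57_5 z57_5 w57_5 x57_5 (by decide) _ (chkS_sound E lk57 2 5 _ _ _ _ t57_1_5)

def r57_1_6 : List (ℕ × ℤ) := [(23, 384), (24, 96), (26, 384), (27, 96), (47, -768), (52, -192), (57, 384), (66, 384), (90, -384), (147, -384), (157, 192), (159, -192)]

theorem h57_1_6 (E : Env κ ι) : ip (F57_1 E) (F57_6 E) = dotS (ek E lk57) r57_1_6 :=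
  op_entryZ E lk57 2 5 _ _ _ _ (pg11 κ) (pg5 ι) m57_1 m57_6 l57_6 z57_6 w57_6 x57_6 (by decide) _ (chkS_sound E lk57 2 5 _ _ _ _ t57_1_6)

def r57_1_7 : List (ℕ × ℤ) := [(23, -480), (26, -480), (47, 960), (57, 960), (66, 960), (90, -960), (147, -960)]

theorem h57_1_7 (E : Env κ ι) : ip (F57_1 E) (F57_7 E) = dotS (ek E lk57) r57_1_7 :=
  op_entryZ E lk57 2 5 _ _ _ _ (pg11 κ) (pg5 ι) m57_1 m57_7 l57_7 z57_7 w57_7 x57_7 (by decide) _ (chkS_sound E lk57 2 5 _ _ _ _ t57_1_7)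

def r57_1_8 : List (ℕ × ℤ) := [(32, -480), (36, -480), (37, -960), (38, -960), (41, 960), (51, 960), (58, 960)]

theorem h57_1_8 (E : Env κ ι) : ip (F57_1 E) (F57_8 E) = dotS (ek E lk57) r57_1_8 :=
  op_entryZ E lk57 2 5 _ _ _ _ (pg11 κ) (pg5 ι) m57_1 m57_8 l57_8 z57_8 w57_8 x57_8 (by decide) _ (chkS_sound E lk57 2 5 _ _ _ _ t57_1_8)

def r57_1_9 : List (ℕ × ℤ) := [(22, 480), (25, 480), (53, 960), (162, -960), (178, -960)]

theorem h57_1_9 (E : Env κ ι) : ip (F57_1 E) (F57_9 E) = dotS (ek E lk57) r57_1_9 :=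
  op_entryZ E lk57 2 5 _ _ _ _ (pg11 κ) (pg5 ι) m57_1 m57_9 l57_9 z57_9 w57_9 x57_9 (by decide) _ (chkS_sound E lk57 2 5 _ _ _ _ t57_1_9)

def r57_2_2 : List (ℕ × ℤ) := [(55, -384), (60, -192), (61, -192), (68, -192), (69, -192), (76, -384), (82, 96), (83, 192), (84, 96), (89, 768), (90, -384), (91, -384), (93, 192), (94, 192), (112, -384), (115, 192), (116, 384), (122, 96), (123, 192), (124, 96), (135, -384), (137, 192), (141, 384), (159, -384), (161, -192), (166, -192), (167, -384), (169, 384), (170, 192), (174, 192), (175, 384)]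

theorem h57_2_2 (E : Env κ ι) : ip (F57_2 E) (F57_2 E) = dotS (ek E lk57) r57_2_2 :=
  op_entryZ E lk57 2 5 _ _ _ _ (pg11 κ) (pg5 ι) m57_2 m57_2 l57_2 z57_2 w57_2 x57_2 (by decide) _ (chkS_sound E lk57 2 5 _ _ _ _ t57_2_2)

def r57_2_3 : List (ℕ × ℤ) := [(16, 192), (18, 192), (54, -384), (57, 192), (59, -288), (62, 288), (67, -288), (73, 288), (80, 192), (90, 192), (91, 192), (97, -768), (112, -384), (114, 384), (116, 576), (117, 192), (136, -384), (140, 384), (141, 576), (142, 192), (157, -192), (158, -576), (164, -192), (165, -576)]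

theorem h57_2_3 (E : Env κ ι) : ip (F57_2 E) (F57_3 E) = dotS (ek E lk57) r57_2_3 :=
  op_entryZ E lk57 2 5 _ _ _ _ (pg11 κ) (pg5 ι) m57_2 m57_3 l57_3 z57_3 w57_3 x57_3 (by decide) _ (chkS_sound E lk57 2 5 _ _ _ _ t57_2_3)

def r57_2_4 : List (ℕ × ℤ) := [(55, -192), (60, -96), (61, -96), (68, -96), (69, -96), (76, -192), (82, -96), (83, 96), (84, 192), (89, -384), (95, 192), (96, 192), (112, -576), (113, -192), (115, 192), (116, 576), (117, 192), (122, -96), (123, 96), (124, 192), (134, -192), (135, -576), (137, 192), (141, 576), (142, 192), (159, -192), (167, -192), (169, 192), (175, 192)]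

theorem h57_2_4 (E : Env κ ι) : ip (F57_2 E) (F57_4 E) = dotS (ek E lk57) r57_2_4 :=
  op_entryZ E lk57 2 5 _ _ _ _ (pg11 κ) (pg5 ι) m57_2 m57_4 l57_4 z57_4 w57_4 x57_4 (by decide) _ (chkS_sound E lk57 2 5 _ _ _ _ t57_2_4)

def r57_2_5 : List (ℕ × ℤ) := [(55, -192), (60, -96), (61, -96), (68, -96), (69, -96), (76, -192), (83, 96), (84, 96), (89, -192), (90, -288), (91, -288), (93, -96), (94, -96), (95, -96), (96, -96), (113, 96), (115, 288), (116, 480), (117, -96), (123, 96), (124, 96), (134, 96), (137, 288), (141, 480), (142, -96), (159, -192), (161, 96), (166, 96), (167, -192), (169, 192), (170, -96), (174, -96), (175, 192)]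

theorem h57_2_5 (E : Env κ ι) : ip (F57_2 E) (F57_5 E) = dotS (ek E lk57) r57_2_5 :=
  op_entryZ E lk57 2 5 _ _ _ _ (pg11 κ) (pg5 ι) m57_2 m57_5 l57_5 z57_5 w57_5 x57_5 (by decide) _ (chkS_sound E lk57 2 5 _ _ _ _ t57_2_5)

def r57_2_6 : List (ℕ × ℤ) := [(16, 288), (18, 288), (54, 384), (57, -192), (59, -192), (62, 192), (67, -192), (73, 192), (80, -192), (90, -192), (91, -192), (97, -1152), (112, 384), (114, 576), (116, 384), (117, -192), (136, 384), (140, 576), (141, 384), (142, -192), (157, -288), (158, -384), (164, -288), (165, -384)]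

theorem h57_2_6 (E : Env κ ι) : ip (F57_2 E) (F57_6 E) = dotS (ek E lk57) r57_2_6 :=
  op_entryZ E lk57 2 5 _ _ _ _ (pg11 κ) (pg5 ι) m57_2 m57_6 l57_6 z57_6 w57_6 x57_6 (by decide) _ (chkS_sound E lk57 2 5 _ _ _ _ t57_2_6)

def r57_2_7 : List (ℕ × ℤ) := [(56, -960), (61, -480), (69, -480), (77, -960), (85, 480), (98, 960), (99, 960), (125, 480)]

theorem h57_2_7 (E : Env κ ι) : ip (F57_2 E) (F57_7 E) = dotS (ek E lk57) r57_2_7 :=
  op_entryZ E lk57 2 5 _ _ _ _ (pg11 κ) (pg5 ι) m57_2 m57_7 l57_7 z57_7 w57_7 x57_7 (by decide) _ (chkS_sound E lk57 2 5 _ _ _ _ t57_2_7)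

def r57_2_8 : List (ℕ × ℤ) := [(34, -480), (38, -960), (42, -960), (72, -480), (86, 480), (100, 960), (101, 960), (126, 480)]

theorem h57_2_8 (E : Env κ ι) : ip (F57_2 E) (F57_8 E) = dotS (ek E lk57) r57_2_8 :=
  op_entryZ E lk57 2 5 _ _ _ _ (pg11 κ) (pg5 ι) m57_2 m57_8 l57_8 z57_8 w57_8 x57_8 (by decide) _ (chkS_sound E lk57 2 5 _ _ _ _ t57_2_8)

def r57_2_9 : List (ℕ × ℤ) := [(15, -480), (107, 960), (108, 960), (121, -960), (144, -960), (171, 480), (177, 480), (179, -480)]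

theorem h57_2_9 (E : Env κ ι) : ip (F57_2 E) (F57_9 E) = dotS (ek E lk57) r57_2_9 :=
  op_entryZ E lk57 2 5 _ _ _ _ (pg11 κ) (pg5 ι) m57_2 m57_9 l57_9 z57_9 w57_9 x57_9 (by decide) _ (chkS_sound E lk57 2 5 _ _ _ _ t57_2_9)

def r57_3_3 : List (ℕ × ℤ) := [(5, 192), (7, 288), (10, 288), (16, -384), (24, 192), (55, -384), (60, -288), (68, -288), (76, -384), (79, 192), (111, 192), (114, 192), (115, 960), (133, -384), (137, 960), (138, 192), (160, -768), (166, -768)]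

theorem h57_3_3 (E : Env κ ι) : ip (F57_3 E) (F57_3 E) = dotS (ek E lk57) r57_3_3 :=
  op_entryZ E lk57 2 5 _ _ _ _ (pg11 κ) (pg5 ι) m57_3 m57_3 l57_3 z57_3 w57_3 x57_3 (by decide) _ (chkS_sound E lk57 2 5 _ _ _ _ t57_3_3)

def r57_3_4 : List (ℕ × ℤ) := [(56, -192), (57, 192), (61, -288), (62, 288), (69, -288), (73, 288), (77, -192), (80, 192), (90, -384), (91, -384), (97, 384), (112, -768), (114, 768), (116, 384), (136, -768), (140, 768), (141, 384), (158, -192), (165, -192)]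

theorem h57_3_4 (E : Env κ ι) : ip (F57_3 E) (F57_4 E) = dotS (ek E lk57) r57_3_4 :=
  op_entryZ E lk57 2 5 _ _ _ _ (pg11 κ) (pg5 ι) m57_3 m57_4 l57_4 z57_4 w57_4 x57_4 (by decide) _ (chkS_sound E lk57 2 5 _ _ _ _ t57_3_4)

def r57_3_5 : List (ℕ × ℤ) := [(16, 384), (18, 384), (54, -768), (56, -384), (57, -192), (59, -96), (61, -96), (62, 192), (67, -96), (69, -96), (73, 192), (77, -384), (80, -192), (90, 96), (91, 96), (97, 192), (112, -384), (114, 384), (116, 480), (117, -96), (136, -384), (140, 384), (141, 480), (142, -96), (157, 96), (158, -96), (164, 96), (165, -96)]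

theorem h57_3_5 (E : Env κ ι) : ip (F57_3 E) (F57_5 E) = dotS (ek E lk57) r57_3_5 :=
  op_entryZ E lk57 2 5 _ _ _ _ (pg11 κ) (pg5 ι) m57_3 m57_5 l57_5 z57_5 w57_5 x57_5 (by decide) _ (chkS_sound E lk57 2 5 _ _ _ _ t57_3_5)

def r57_3_6 : List (ℕ × ℤ) := [(5, 288), (7, 192), (10, 192), (16, -96), (24, -192), (55, -576), (60, -192), (68, -192), (76, -576), (79, -192), (111, 288), (114, -192), (115, 960), (133, -96), (137, 960), (138, -192), (160, -192), (166, -192)]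

theorem h57_3_6 (E : Env κ ι) : ip (F57_3 E) (F57_6 E) = dotS (ek E lk57) r57_3_6 :=
  op_entryZ E lk57 2 5 _ _ _ _ (pg11 κ) (pg5 ι) m57_3 m57_6 l57_6 z57_6 w57_6 x57_6 (by decide) _ (chkS_sound E lk57 2 5 _ _ _ _ t57_3_6)

def r57_3_7 : List (ℕ × ℤ) := [(9, -480), (57, 960), (62, 480), (70, -480), (73, 480), (80, 960), (92, -1920)]

theorem h57_3_7 (E : Env κ ι) : ip (F57_3 E) (F57_7 E) = dotS (ek E lk57) r57_3_7 :=
  op_entryZ E lk57 2 5 _ _ _ _ (pg11 κ) (pg5 ι) m57_3 m57_7 l57_7 z57_7 w57_7 x57_7 (by decide) _ (chkS_sound E lk57 2 5 _ _ _ _ t57_3_7)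

def r57_3_8 : List (ℕ × ℤ) := [(30, 480), (33, -480), (43, 960), (58, 960), (71, -480), (74, 480), (102, -1920)]

theorem h57_3_8 (E : Env κ ι) : ip (F57_3 E) (F57_8 E) = dotS (ek E lk57) r57_3_8 :=
  op_entryZ E lk57 2 5 _ _ _ _ (pg11 κ) (pg5 ι) m57_3 m57_8 l57_8 z57_8 w57_8 x57_8 (by decide) _ (chkS_sound E lk57 2 5 _ _ _ _ t57_3_8)

def r57_3_9 : List (ℕ × ℤ) := [(8, -480), (14, -480), (19, 480), (22, 960), (81, 960), (120, 480), (163, -960), (168, -960)]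

theorem h57_3_9 (E : Env κ ι) : ip (F57_3 E) (F57_9 E) = dotS (ek E lk57) r57_3_9 :=
  op_entryZ E lk57 2 5 _ _ _ _ (pg11 κ) (pg5 ι) m57_3 m57_9 l57_9 z57_9 w57_9 x57_9 (by decide) _ (chkS_sound E lk57 2 5 _ _ _ _ t57_3_9)

def r57_4_4 : List (ℕ × ℤ) := [(55, 384), (56, -384), (60, 96), (61, -192), (68, 96), (69, -192), (76, 384), (77, -384), (82, -192), (83, 192), (84, 96), (89, -768), (93, 192), (94, 192), (112, -768), (113, -384), (114, 192), (115, 384), (116, 384), (122, -192), (123, 192), (124, 96), (134, -384), (135, -768), (137, 384), (138, 192), (141, 384), (161, 192), (166, 192), (169, 192), (175, 192)]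

theorem h57_4_4 (E : Env κ ι) : ip (F57_4 E) (F57_4 E) = dotS (ek E lk57) r57_4_4 :=
  op_entryZ E lk57 2 5 _ _ _ _ (pg11 κ) (pg5 ι) m57_4 m57_4 l57_4 z57_4 w57_4 x57_4 (by decide) _ (chkS_sound E lk57 2 5 _ _ _ _ t57_4_4)

def r57_4_5 : List (ℕ × ℤ) := [(55, -96), (56, -288), (61, -96), (69, -96), (76, -96), (77, -288), (82, -96), (83, 96), (84, 96), (89, -384), (93, -96), (94, -96), (95, -96), (96, -96), (112, -288), (113, -192), (114, -96), (115, 192), (116, 480), (117, -96), (122, -96), (123, 96), (124, 96), (134, -192), (135, -288), (137, 192), (138, -96), (141, 480), (142, -96), (159, 96), (161, 384), (166, 384), (167, 96), (169, 288), (175, 288)]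

theorem h57_4_5 (E : Env κ ι) : ip (F57_4 E) (F57_5 E) = dotS (ek E lk57) r57_4_5 :=
  op_entryZ E lk57 2 5 _ _ _ _ (pg11 κ) (pg5 ι) m57_4 m57_5 l57_5 z57_5 w57_5 x57_5 (by decide) _ (chkS_sound E lk57 2 5 _ _ _ _ t57_4_5)

def r57_4_6 : List (ℕ × ℤ) := [(56, 192), (57, -192), (61, -192), (62, 192), (69, -192), (73, 192), (77, 192), (80, -192), (90, -576), (91, -576), (97, -384), (112, -192), (114, 192), (116, 576), (136, -192), (140, 192), (141, 576), (158, 192), (165, 192)]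

theorem h57_4_6 (E : Env κ ι) : ip (F57_4 E) (F57_6 E) = dotS (ek E lk57) r57_4_6 :=
  op_entryZ E lk57 2 5 _ _ _ _ (pg11 κ) (pg5 ι) m57_4 m57_6 l57_6 z57_6 w57_6 x57_6 (by decide) _ (chkS_sound E lk57 2 5 _ _ _ _ t57_4_6)

def r57_4_7 : List (ℕ × ℤ) := [(56, -960), (57, 960), (61, -480), (62, 480), (69, -480), (73, 480), (77, -960), (80, 960)]

theorem h57_4_7 (E : Env κ ι) : ip (F57_4 E) (F57_7 E) = dotS (ek E lk57) r57_4_7 :=
  op_entryZ E lk57 2 5 _ _ _ _ (pg11 κ) (pg5 ι) m57_4 m57_7 l57_7 z57_7 w57_7 x57_7 (by decide) _ (chkS_sound E lk57 2 5 _ _ _ _ t57_4_7)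

def r57_4_8 : List (ℕ × ℤ) := [(30, 480), (34, -480), (38, -960), (42, -960), (43, 960), (58, 960), (72, -480), (74, 480)]

theorem h57_4_8 (E : Env κ ι) : ip (F57_4 E) (F57_8 E) = dotS (ek E lk57) r57_4_8 :=
  op_entryZ E lk57 2 5 _ _ _ _ (pg11 κ) (pg5 ι) m57_4 m57_8 l57_8 z57_8 w57_8 x57_8 (by decide) _ (chkS_sound E lk57 2 5 _ _ _ _ t57_4_8)

def r57_4_9 : List (ℕ × ℤ) := [(15, -480), (17, 480), (107, 960), (108, 960), (120, 480), (172, -960), (176, -960), (179, -480)]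

theorem h57_4_9 (E : Env κ ι) : ip (F57_4 E) (F57_9 E) = dotS (ek E lk57) r57_4_9 :=
  op_entryZ E lk57 2 5 _ _ _ _ (pg11 κ) (pg5 ι) m57_4 m57_9 l57_9 z57_9 w57_9 x57_9 (by decide) _ (chkS_sound E lk57 2 5 _ _ _ _ t57_4_9)

def r57_5_5 : List (ℕ × ℤ) := [(55, -96), (56, -96), (60, 48), (61, 96), (68, 48), (69, 96), (76, -96), (77, -96), (82, 48), (83, 144), (84, 144), (89, -192), (90, -96), (91, -96), (93, -144), (94, -144), (95, -144), (96, -144), (112, -96), (113, 48), (114, -192), (115, 240), (116, 480), (117, -384), (122, 48), (123, 144), (124, 144), (134, 48), (135, -96), (137, 240), (138, -192), (141, 480), (142, -384), (159, -192), (161, 240), (166, 240), (167, -192), (169, 240), (170, -192), (174, -192), (175, 240)]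

theorem h57_5_5 (E : Env κ ι) : ip (F57_5 E) (F57_5 E) = dotS (ek E lk57) r57_5_5 :=
  op_entryZ E lk57 2 5 _ _ _ _ (pg11 κ) (pg5 ι) m57_5 m57_5 l57_5 z57_5 w57_5 x57_5 (by decide) _ (chkS_sound E lk57 2 5 _ _ _ _ t57_5_5)

def r57_5_6 : List (ℕ × ℤ) := [(16, 96), (18, 96), (54, -192), (56, -96), (57, -288), (59, 96), (61, 96), (62, 288), (67, 96), (69, 96), (73, 288), (77, -96), (80, -288), (90, -96), (91, -96), (97, -192), (112, -96), (114, 96), (116, 480), (117, -384), (136, -96), (140, 96), (141, 480), (142, -384), (157, -96), (158, 96), (164, -96), (165, 96)]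

theorem h57_5_6 (E : Env κ ι) : ip (F57_5 E) (F57_6 E) = dotS (ek E lk57) r57_5_6 :=
  op_entryZ E lk57 2 5 _ _ _ _ (pg11 κ) (pg5 ι) m57_5 m57_6 l57_6 z57_6 w57_6 x57_6 (by decide) _ (chkS_sound E lk57 2 5 _ _ _ _ t57_5_6)

def r57_5_7 : List (ℕ × ℤ) := [(56, -960), (61, -480), (69, -480), (77, -960), (90, 480), (91, 480), (116, 480), (117, 480), (141, 480), (142, 480)]

theorem h57_5_7 (E : Env κ ι) : ip (F57_5 E) (F57_7 E) = dotS (ek E lk57) r57_5_7 :=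
  op_entryZ E lk57 2 5 _ _ _ _ (pg11 κ) (pg5 ι) m57_5 m57_7 l57_7 z57_7 w57_7 x57_7 (by decide) _ (chkS_sound E lk57 2 5 _ _ _ _ t57_5_7)

def r57_5_8 : List (ℕ × ℤ) := [(34, -480), (38, -480), (40, 480), (42, -480), (72, -480), (118, 480), (119, 480), (143, 480)]

theorem h57_5_8 (E : Env κ ι) : ip (F57_5 E) (F57_8 E) = dotS (ek E lk57) r57_5_8 :=
  op_entryZ E lk57 2 5 _ _ _ _ (pg11 κ) (pg5 ι) m57_5 m57_8 l57_8 z57_8 w57_8 x57_8 (by decide) _ (chkS_sound E lk57 2 5 _ _ _ _ t57_5_8)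

def r57_5_9 : List (ℕ × ℤ) := [(17, 480), (87, -480), (107, 480), (108, 480), (120, 480), (121, -480), (130, -480), (144, -480), (171, 480), (172, -480), (176, -480), (177, 480)]

theorem h57_5_9 (E : Env κ ι) : ip (F57_5 E) (F57_9 E) = dotS (ek E lk57) r57_5_9 :=
  op_entryZ E lk57 2 5 _ _ _ _ (pg11 κ) (pg5 ι) m57_5 m57_9 l57_9 z57_9 w57_9 x57_9 (by decide) _ (chkS_sound E lk57 2 5 _ _ _ _ t57_5_9)

def r57_6_6 : List (ℕ × ℤ) := [(5, 192), (7, 288), (10, 288), (16, -384), (24, -288), (55, -384), (60, 192), (68, 192), (76, -384), (79, -288), (111, 192), (114, -768), (115, 960), (133, -384), (137, 960), (138, -768), (160, 192), (166, 192)]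

theorem h57_6_6 (E : Env κ ι) : ip (F57_6 E) (F57_6 E) = dotS (ek E lk57) r57_6_6 :=
  op_entryZ E lk57 2 5 _ _ _ _ (pg11 κ) (pg5 ι) m57_6 m57_6 l57_6 z57_6 w57_6 x57_6 (by decide) _ (chkS_sound E lk57 2 5 _ _ _ _ t57_6_6)

def r57_6_7 : List (ℕ × ℤ) := [(9, -480), (23, 480), (70, -480), (78, 480), (92, -1920), (116, 960), (139, 960)]

theorem h57_6_7 (E : Env κ ι) : ip (F57_6 E) (F57_7 E) = dotS (ek E lk57) r57_6_7 :=
  op_entryZ E lk57 2 5 _ _ _ _ (pg11 κ) (pg5 ι) m57_6 m57_7 l57_7 z57_7 w57_7 x57_7 (by decide) _ (chkS_sound E lk57 2 5 _ _ _ _ t57_6_7)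

def r57_6_8 : List (ℕ × ℤ) := [(32, 960), (33, -480), (39, 960), (71, -480), (102, -1920), (118, 960)]

theorem h57_6_8 (E : Env κ ι) : ip (F57_6 E) (F57_8 E) = dotS (ek E lk57) r57_6_8 :=
  op_entryZ E lk57 2 5 _ _ _ _ (pg11 κ) (pg5 ι) m57_6 m57_8 l57_8 z57_8 w57_8 x57_8 (by decide) _ (chkS_sound E lk57 2 5 _ _ _ _ t57_6_8)

def r57_6_9 : List (ℕ × ℤ) := [(11, -480), (19, 960), (22, 480), (75, -480), (81, 480), (120, 960), (163, -960), (168, -960)]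

theorem h57_6_9 (E : Env κ ι) : ip (F57_6 E) (F57_9 E) = dotS (ek E lk57) r57_6_9 :=
  op_entryZ E lk57 2 5 _ _ _ _ (pg11 κ) (pg5 ι) m57_6 m57_9 l57_9 z57_9 w57_9 x57_9 (by decide) _ (chkS_sound E lk57 2 5 _ _ _ _ t57_6_9)

def r57_7_7 : List (ℕ × ℤ) := [(4, 480), (84, -480), (95, -960), (96, -960), (104, 1920), (124, -480), (127, 480)]

theorem h57_7_7 (E : Env κ ι) : ip (F57_7 E) (F57_7 E) = dotS (ek E lk57) r57_7_7 :=
  op_entryZ E lk57 2 5 _ _ _ _ (pg11 κ) (pg5 ι) m57_7 m57_7 l57_7 z57_7 w57_7 x57_7 (by decide) _ (chkS_sound E lk57 2 5 _ _ _ _ t57_7_7)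

def r57_7_8 : List (ℕ × ℤ) := [(30, -480), (31, 480), (43, -960), (58, -960), (74, -480), (105, 1920), (128, 480)]

theorem h57_7_8 (E : Env κ ι) : ip (F57_7 E) (F57_8 E) = dotS (ek E lk57) r57_7_8 :=
  op_entryZ E lk57 2 5 _ _ _ _ (pg11 κ) (pg5 ι) m57_7 m57_8 l57_8 z57_8 w57_8 x57_8 (by decide) _ (chkS_sound E lk57 2 5 _ _ _ _ t57_7_8)

def r57_7_9 : List (ℕ × ℤ) := [(3, 480), (21, -1440), (109, 1920), (131, 480), (173, -1440)]

theorem h57_7_9 (E : Env κ ι) : ip (F57_7 E) (F57_9 E) = dotS (ek E lk57) r57_7_9 :=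
  op_entryZ E lk57 2 5 _ _ _ _ (pg11 κ) (pg5 ι) m57_7 m57_9 l57_9 z57_9 w57_9 x57_9 (by decide) _ (chkS_sound E lk57 2 5 _ _ _ _ t57_7_9)

def r57_8_8 : List (ℕ × ℤ) := [(0, -480), (1, -480), (12, -960), (44, 480), (45, -960), (106, 1920), (129, 480)]

theorem h57_8_8 (E : Env κ ι) : ip (F57_8 E) (F57_8 E) = dotS (ek E lk57) r57_8_8 :=
  op_entryZ E lk57 2 5 _ _ _ _ (pg11 κ) (pg5 ι) m57_8 m57_8 l57_8 z57_8 w57_8 x57_8 (by decide) _ (chkS_sound E lk57 2 5 _ _ _ _ t57_8_8)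

def r57_8_9 : List (ℕ × ℤ) := [(28, -1440), (29, 480), (35, -1440), (110, 1920), (132, 480)]

theorem h57_8_9 (E : Env κ ι) : ip (F57_8 E) (F57_9 E) = dotS (ek E lk57) r57_8_9 :=
  op_entryZ E lk57 2 5 _ _ _ _ (pg11 κ) (pg5 ι) m57_8 m57_9 l57_9 z57_9 w57_9 x57_9 (by decide) _ (chkS_sound E lk57 2 5 _ _ _ _ t57_8_9)

def r57_9_9 : List (ℕ × ℤ) := [(2, -960), (6, 480), (13, -960), (20, 480), (180, 480), (181, 480)]

theorem h57_9_9 (E : Env κ ι) : ip (F57_9 E) (F57_9 E) = dotS (ek E lk57) r57_9_9 :=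
  op_entryZ E lk57 2 5 _ _ _ _ (pg11 κ) (pg5 ι) m57_9 m57_9 l57_9 z57_9 w57_9 x57_9 (by decide) _ (chkS_sound E lk57 2 5 _ _ _ _ t57_9_9)

theorem row57_0 (E : Env κ ι) : RowG (ek E lk57) (F57_0 E) [F57_0 E, F57_1 E, F57_2 E, F57_3 E, F57_4 E, F57_5 E, F57_6 E, F57_7 E, F57_8 E, F57_9 E] [r57_0_0, r57_0_1, r57_0_2, r57_0_3, r57_0_4, r57_0_5, r57_0_6, r57_0_7, r57_0_8, r57_0_9] :=
  rowG_cons _ _ _ _ _ _ (h57_0_0 E) (rowG_cons _ _ _ _ _ _ (h57_0_1 E) (rowG_cons _ _ _ _ _ _ (h57_0_2 E) (rowG_cons _ _ _ _ _ _ (h57_0_3 E) (rowG_cons _ _ _ _ _ _ (h57_0_4 E) (rowG_cons _ _ _ _ _ _ (h57_0_5 E) (rowG_cons _ _ _ _ _ _ (h57_0_6 E) (rowG_cons _ _ _ _ _ _ (h57_0_7 E) (rowG_cons _ _ _ _ _ _ (h57_0_8 E) (rowG_cons _ _ _ _ _ _ (h57_0_9 E) (rowG_nil _ _))))))))))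

theorem row57_1 (E : Env κ ι) : RowG (ek E lk57) (F57_1 E) [F57_1 E, F57_2 E, F57_3 E, F57_4 E, F57_5 E, F57_6 E, F57_7 E, F57_8 E, F57_9 E] [r57_1_1, r57_1_2, r57_1_3, r57_1_4, r57_1_5, r57_1_6, r57_1_7, r57_1_8, r57_1_9] :=
  rowG_cons _ _ _ _ _ _ (h57_1_1 E) (rowG_cons _ _ _ _ _ _ (h57_1_2 E) (rowG_cons _ _ _ _ _ _ (h57_1_3 E) (rowG_cons _ _ _ _ _ _ (h57_1_4 E) (rowG_cons _ _ _ _ _ _ (h57_1_5 E) (rowG_cons _ _ _ _ _ _ (h57_1_6 E) (rowG_cons _ _ _ _ _ _ (h57_1_7 E) (rowG_cons _ _ _ _ _ _ (h57_1_8 E) (rowG_cons _ _ _ _ _ _ (h57_1_9 E) (rowG_nil _ _)))))))))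

theorem row57_2 (E : Env κ ι) : RowG (ek E lk57) (F57_2 E) [F57_2 E, F57_3 E, F57_4 E, F57_5 E, F57_6 E, F57_7 E, F57_8 E, F57_9 E] [r57_2_2, r57_2_3, r57_2_4, r57_2_5, r57_2_6, r57_2_7, r57_2_8, r57_2_9] :=
  rowG_cons _ _ _ _ _ _ (h57_2_2 E) (rowG_cons _ _ _ _ _ _ (h57_2_3 E) (rowG_cons _ _ _ _ _ _ (h57_2_4 E) (rowG_cons _ _ _ _ _ _ (h57_2_5 E) (rowG_cons _ _ _ _ _ _ (h57_2_6 E) (rowG_cons _ _ _ _ _ _ (h57_2_7 E) (rowG_cons _ _ _ _ _ _ (h57_2_8 E) (rowG_cons _ _ _ _ _ _ (h57_2_9 E) (rowG_nil _ _))))))))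

theorem row57_3 (E : Env κ ι) : RowG (ek E lk57) (F57_3 E) [F57_3 E, F57_4 E, F57_5 E, F57_6 E, F57_7 E, F57_8 E, F57_9 E] [r57_3_3, r57_3_4, r57_3_5, r57_3_6, r57_3_7, r57_3_8, r57_3_9] :=
  rowG_cons _ _ _ _ _ _ (h57_3_3 E) (rowG_cons _ _ _ _ _ _ (h57_3_4 E) (rowG_cons _ _ _ _ _ _ (h57_3_5 E) (rowG_cons _ _ _ _ _ _ (h57_3_6 E) (rowG_cons _ _ _ _ _ _ (h57_3_7 E) (rowG_cons _ _ _ _ _ _ (h57_3_8 E) (rowG_cons _ _ _ _ _ _ (h57_3_9 E) (rowG_nil _ _)))))))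

theorem row57_4 (E : Env κ ι) : RowG (ek E lk57) (F57_4 E) [F57_4 E, F57_5 E, F57_6 E, F57_7 E, F57_8 E, F57_9 E] [r57_4_4, r57_4_5, r57_4_6, r57_4_7, r57_4_8, r57_4_9] :=
  rowG_cons _ _ _ _ _ _ (h57_4_4 E) (rowG_cons _ _ _ _ _ _ (h57_4_5 E) (rowG_cons _ _ _ _ _ _ (h57_4_6 E) (rowG_cons _ _ _ _ _ _ (h57_4_7 E) (rowG_cons _ _ _ _ _ _ (h57_4_8 E) (rowG_cons _ _ _ _ _ _ (h57_4_9 E) (rowG_nil _ _))))))

theorem row57_5 (E : Env κ ι) : RowG (ek E lk57) (F57_5 E) [F57_5 E, F57_6 E, F57_7 E, F57_8 E, F57_9 E] [r57_5_5, r57_5_6, r57_5_7, r57_5_8, r57_5_9] :=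
  rowG_cons _ _ _ _ _ _ (h57_5_5 E) (rowG_cons _ _ _ _ _ _ (h57_5_6 E) (rowG_cons _ _ _ _ _ _ (h57_5_7 E) (rowG_cons _ _ _ _ _ _ (h57_5_8 E) (rowG_cons _ _ _ _ _ _ (h57_5_9 E) (rowG_nil _ _)))))

theorem row57_6 (E : Env κ ι) : RowG (ek E lk57) (F57_6 E) [F57_6 E, F57_7 E, F57_8 E, F57_9 E] [r57_6_6, r57_6_7, r57_6_8, r57_6_9] :=
  rowG_cons _ _ _ _ _ _ (h57_6_6 E) (rowG_cons _ _ _ _ _ _ (h57_6_7 E) (rowG_cons _ _ _ _ _ _ (h57_6_8 E) (rowG_cons _ _ _ _ _ _ (h57_6_9 E) (rowG_nil _ _))))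

theorem row57_7 (E : Env κ ι) : RowG (ek E lk57) (F57_7 E) [F57_7 E, F57_8 E, F57_9 E] [r57_7_7, r57_7_8, r57_7_9] :=
  rowG_cons _ _ _ _ _ _ (h57_7_7 E) (rowG_cons _ _ _ _ _ _ (h57_7_8 E) (rowG_cons _ _ _ _ _ _ (h57_7_9 E) (rowG_nil _ _)))

theorem row57_8 (E : Env κ ι) : RowG (ek E lk57) (F57_8 E) [F57_8 E, F57_9 E] [r57_8_8, r57_8_9] :=
  rowG_cons _ _ _ _ _ _ (h57_8_8 E) (rowG_cons _ _ _ _ _ _ (h57_8_9 E) (rowG_nil _ _))

theorem row57_9 (E : Env κ ι) : RowG (ek E lk57) (F57_9 E) [F57_9 E] [r57_9_9] :=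
  rowG_cons _ _ _ _ _ _ (h57_9_9 E) (rowG_nil _ _)

def tab57 : List (List (List (ℕ × ℤ))) := [[r57_0_0, r57_0_1, r57_0_2, r57_0_3, r57_0_4, r57_0_5, r57_0_6, r57_0_7, r57_0_8, r57_0_9], [r57_1_1, r57_1_2, r57_1_3, r57_1_4, r57_1_5, r57_1_6, r57_1_7, r57_1_8, r57_1_9], [r57_2_2, r57_2_3, r57_2_4, r57_2_5, r57_2_6, r57_2_7, r57_2_8, r57_2_9], [r57_3_3, r57_3_4, r57_3_5, r57_3_6, r57_3_7, r57_3_8, r57_3_9], [r57_4_4, r57_4_5, r57_4_6, r57_4_7, r57_4_8, r57_4_9], [r57_5_5, r57_5_6, r57_5_7, r57_5_8, r57_5_9], [r57_6_6, r57_6_7, r57_6_8, r57_6_9], [r57_7_7, r57_7_8, r57_7_9], [r57_8_8, r57_8_9], [r57_9_9]]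

theorem tri57 (E : Env κ ι) : TriG (ek E lk57) [F57_0 E, F57_1 E, F57_2 E, F57_3 E, F57_4 E, F57_5 E, F57_6 E, F57_7 E, F57_8 E, F57_9 E] tab57 := by
  refine triG_cons _ _ _ _ _ (row57_0 E) ?_
  refine triG_cons _ _ _ _ _ (row57_1 E) ?_
  refine triG_cons _ _ _ _ _ (row57_2 E) ?_
  refine triG_cons _ _ _ _ _ (row57_3 E) ?_
  refine triG_cons _ _ _ _ _ (row57_4 E) ?_
  refine triG_cons _ _ _ _ _ (row57_5 E) ?_
  refine triG_cons _ _ _ _ _ (row57_6 E) ?_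
  refine triG_cons _ _ _ _ _ (row57_7 E) ?_
  refine triG_cons _ _ _ _ _ (row57_8 E) ?_
  refine triG_cons _ _ _ _ _ (row57_9 E) ?_
  exact triG_nil _

end

end YMBG
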