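import Pool.Agent.YM.BG.Ga0
import Pool.Agent.YM.BG.Ga1

set_option linter.unusedVariables false
set_option maxRecDepth 100000

open YMEng

namespace YMBG

def lk60 : List Key := [
  (2, 5, [(0, [0], [0, 1]), (0, [0], [0, 1]), (0, [1], [2, 3]), (0, [1], [2, 4]), (4, [], [4]), (4, [], [3])]),
  (2, 5, [(0, [0], [0, 1]), (0, [1], [0, 2]), (0, [1], [3, 4]), (0, [0], [3, 4]), (4, [], [2]), (4, [], [1])]),
  (2, 5, [(0, [0], [0, 1]), (0, [1], [2, 3]), (2, [1], [2, 3, 4]), (2, [0], [0, 1, 4])]),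
  (2, 6, [(0, [0], [0, 1]), (0, [0], [0, 1]), (0, [1], [2, 3]), (1, [], [4, 5]), (2, [1], [2, 3, 4]), (4, [], [5])]),
  (2, 7, [(0, [0], [0, 1]), (0, [0], [0, 1]), (0, [1], [2, 3]), (0, [1], [2, 3]), (1, [], [4, 5]), (1, [], [4, 6]), (4, [], [6]), (4, [], [5])]),
  (2, 7, [(0, [0], [0, 1]), (0, [1], [0, 2]), (0, [1], [3, 4]), (0, [0], [5, 6]), (1, [], [5, 6]), (1, [], [3, 4]), (4, [], [2]), (4, [], [1])]),
  (2, 5, [(0, [0], [0, 1]), (0, [0], [0, 1]), (2, [1], [2, 3, 4]), (2, [1], [2, 3, 4])]),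
  (2, 7, [(0, [0], [0, 1]), (0, [0], [0, 1]), (0, [1], [2, 3]), (0, [1], [2, 4]), (4, [], [4]), (4, [], [3]), (1, [], [5, 6]), (1, [], [5, 6])]),
  (2, 6, [(0, [0], [0, 1]), (0, [0], [2, 3]), (0, [1], [4, 5]), (1, [], [2, 3]), (2, [1], [0, 4, 5]), (4, [], [1])]),
  (2, 7, [(0, [0], [0, 1]), (0, [0], [0, 1]), (0, [1], [2, 3]), (0, [1], [4, 5]), (1, [], [2, 6]), (1, [], [4, 5]), (4, [], [3]), (4, [], [6])]),
  (2, 7, [(0, [0], [0, 1]), (0, [1], [0, 2]), (0, [1], [3, 4]), (0, [0], [3, 4]), (4, [], [2]), (4, [], [1]), (1, [], [5, 6]), (1, [], [5, 6])]),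
  (2, 6, [(0, [0], [0, 1]), (0, [0], [0, 1]), (0, [1], [2, 3]), (1, [], [4, 5]), (2, [1], [2, 4, 5]), (4, [], [3])]),
  (2, 5, [(0, [0], [0, 1]), (0, [1], [0, 2]), (0, [1], [2, 3]), (0, [0], [1, 4]), (4, [], [4]), (4, [], [3])]),
  (2, 5, [(0, [0], [0, 1]), (0, [0], [2, 3]), (2, [1], [2, 3, 4]), (2, [1], [0, 1, 4])]),
  (2, 6, [(0, [0], [0, 1]), (0, [0], [2, 3]), (0, [1], [4, 5]), (1, [], [0, 1]), (2, [1], [2, 3, 4]), (4, [], [5])]),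
  (2, 6, [(0, [0], [0, 1]), (0, [0], [2, 3]), (0, [1], [4, 5]), (1, [], [0, 4]), (2, [1], [2, 3, 5]), (4, [], [1])]),
  (2, 7, [(0, [0], [0, 1]), (0, [0], [2, 3]), (0, [1], [4, 5]), (0, [1], [4, 6]), (1, [], [0, 5]), (1, [], [2, 3]), (4, [], [1]), (4, [], [6])]),
  (2, 6, [(0, [0], [0, 1]), (0, [0], [2, 3]), (0, [1], [0, 4]), (1, [], [4, 5]), (2, [1], [2, 3, 5]), (4, [], [1])]),
  (2, 7, [(0, [0], [0, 1]), (0, [1], [0, 2]), (0, [0], [3, 4]), (0, [1], [5, 6]), (1, [], [1, 3]), (1, [], [5, 6]), (4, [], [2]), (4, [], [4])]),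
  (2, 6, [(0, [0], [0, 1]), (0, [0], [2, 3]), (0, [1], [0, 4]), (1, [], [1, 5]), (2, [1], [2, 3, 5]), (4, [], [4])]),
  (2, 5, [(0, [0], [0, 1]), (0, [1], [0, 2]), (2, [1], [2, 3, 4]), (2, [0], [1, 3, 4])]),
  (2, 6, [(0, [0], [0, 1]), (0, [0], [2, 3]), (0, [1], [0, 4]), (1, [], [1, 5]), (2, [1], [2, 3, 4]), (4, [], [5])]),
  (2, 6, [(0, [0], [0, 1]), (0, [1], [0, 2]), (0, [0], [1, 3]), (1, [], [4, 5]), (2, [1], [2, 4, 5]), (4, [], [3])]),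
  (2, 7, [(0, [0], [0, 1]), (0, [0], [2, 3]), (0, [1], [0, 4]), (0, [1], [4, 5]), (1, [], [1, 6]), (1, [], [2, 3]), (4, [], [5]), (4, [], [6])]),
  (2, 7, [(0, [0], [0, 1]), (0, [1], [0, 2]), (0, [1], [2, 3]), (0, [0], [1, 4]), (4, [], [4]), (4, [], [3]), (1, [], [5, 6]), (1, [], [5, 6])]),
  (2, 6, [(0, [0], [0, 1]), (0, [0], [2, 3]), (0, [1], [0, 2]), (1, [], [4, 5]), (2, [1], [1, 4, 5]), (4, [], [3])]),
  (2, 7, [(0, [0], [0, 1]), (0, [1], [0, 2]), (0, [1], [1, 3]), (0, [0], [4, 5]), (1, [], [2, 6]), (1, [], [4, 5]), (4, [], [3]), (4, [], [6])]),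
  (2, 7, [(0, [0], [0, 1]), (0, [1], [0, 2]), (0, [0], [2, 3]), (0, [1], [1, 4]), (4, [], [4]), (4, [], [3]), (1, [], [5, 6]), (1, [], [5, 6])]),
  (2, 5, [(0, [0], [0, 1]), (0, [0], [0, 2]), (0, [1], [3, 4]), (2, [1], [1, 3, 4]), (4, [], [2])]),
  (2, 5, [(0, [0], [0, 1]), (0, [0], [0, 1]), (0, [1], [2, 3]), (2, [1], [2, 3, 4]), (4, [], [4])]),
  (2, 6, [(0, [0], [0, 1]), (0, [0], [0, 1]), (0, [1], [2, 3]), (0, [1], [2, 4]), (1, [], [3, 5]), (4, [], [4]), (4, [], [5])]),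
  (2, 6, [(0, [0], [0, 1]), (0, [0], [0, 1]), (0, [1], [2, 3]), (0, [1], [2, 3]), (1, [], [4, 5]), (4, [], [4]), (4, [], [5])]),
  (2, 6, [(0, [0], [0, 1]), (0, [0], [2, 3]), (0, [1], [0, 4]), (0, [1], [4, 5]), (1, [], [2, 3]), (4, [], [1]), (4, [], [5])]),
  (2, 6, [(0, [0], [0, 1]), (0, [0], [0, 1]), (0, [1], [2, 3]), (0, [1], [4, 5]), (1, [], [4, 5]), (4, [], [2]), (4, [], [3])]),
  (2, 6, [(0, [0], [0, 1]), (0, [0], [0, 1]), (0, [1], [2, 3]), (0, [1], [4, 5]), (1, [], [2, 4]), (4, [], [5]), (4, [], [3])]),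
  (2, 5, [(0, [0], [0, 1]), (0, [0], [2, 3]), (0, [1], [0, 4]), (2, [1], [2, 3, 4]), (4, [], [1])]),
  (2, 6, [(0, [0], [0, 1]), (0, [1], [0, 2]), (0, [1], [1, 3]), (0, [0], [4, 5]), (1, [], [4, 5]), (4, [], [3]), (4, [], [2])]),
  (2, 6, [(0, [0], [0, 1]), (0, [1], [0, 2]), (0, [1], [1, 3]), (0, [0], [4, 5]), (1, [], [2, 4]), (4, [], [3]), (4, [], [5])]),
  (2, 6, [(0, [0], [0, 1]), (0, [0], [2, 3]), (0, [1], [0, 4]), (0, [1], [4, 5]), (1, [], [2, 5]), (4, [], [1]), (4, [], [3])]),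
  (2, 6, [(0, [0], [0, 1]), (0, [1], [2, 3]), (0, [0], [2, 4]), (0, [1], [0, 5]), (1, [], [1, 3]), (4, [], [5]), (4, [], [4])]),
  (2, 6, [(0, [0], [0, 1]), (0, [0], [2, 3]), (0, [1], [2, 4]), (0, [1], [0, 5]), (1, [], [1, 3]), (4, [], [5]), (4, [], [4])]),
  (2, 6, [(0, [0], [0, 1]), (0, [1], [0, 2]), (0, [0], [2, 3]), (0, [1], [1, 4]), (1, [], [3, 5]), (4, [], [4]), (4, [], [5])]),
  (2, 6, [(0, [0], [0, 1]), (0, [0], [2, 3]), (0, [1], [0, 4]), (0, [1], [4, 5]), (1, [], [1, 2]), (4, [], [3]), (4, [], [5])]),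
  (2, 6, [(0, [0], [0, 1]), (0, [0], [2, 3]), (0, [1], [0, 4]), (0, [1], [2, 4]), (1, [], [1, 5]), (4, [], [3]), (4, [], [5])]),
  (2, 5, [(0, [0], [0, 1]), (0, [0], [0, 1]), (0, [1], [2, 3]), (0, [1], [2, 3]), (4, [], [4]), (4, [], [4])]),
  (2, 5, [(0, [0], [0, 1]), (0, [0], [2, 3]), (0, [1], [2, 4]), (0, [1], [0, 4]), (4, [], [3]), (4, [], [1])]),
  (2, 7, [(0, [0], [0, 1]), (0, [0], [0, 2]), (0, [1], [1, 2]), (4, [], [3]), (0, [1], [4, 5]), (1, [], [4, 6]), (1, [], [5, 6]), (4, [], [3])]),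
  (2, 7, [(0, [0], [0, 1]), (0, [0], [0, 2]), (0, [1], [1, 2]), (4, [], [3]), (0, [1], [4, 5]), (1, [], [4, 6]), (1, [], [3, 6]), (4, [], [5])]),
  (2, 7, [(0, [0], [0, 1]), (0, [0], [0, 2]), (0, [1], [1, 2]), (4, [], [3]), (0, [1], [4, 5]), (1, [], [4, 6]), (1, [], [3, 5]), (4, [], [6])]),
  (2, 7, [(0, [0], [0, 1]), (0, [0], [0, 2]), (0, [1], [1, 2]), (4, [], [3]), (0, [1], [4, 5]), (1, [], [4, 5]), (1, [], [3, 6]), (4, [], [6])]),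
  (2, 6, [(0, [0], [0, 1]), (0, [0], [0, 2]), (0, [1], [1, 2]), (4, [], [3]), (0, [1], [4, 5]), (1, [], [4, 5]), (4, [], [3])]),
  (2, 6, [(0, [0], [0, 1]), (0, [0], [0, 2]), (0, [1], [1, 2]), (4, [], [3]), (0, [1], [4, 5]), (1, [], [3, 4]), (4, [], [5])]),
  (2, 7, [(0, [0], [0, 1]), (0, [0], [0, 2]), (0, [1], [1, 2]), (4, [], [3]), (0, [1], [3, 4]), (1, [], [5, 6]), (1, [], [5, 6]), (4, [], [4])]),
  (2, 6, [(0, [0], [0, 1]), (0, [0], [0, 2]), (0, [1], [1, 2]), (4, [], [3]), (1, [], [4, 5]), (2, [1], [3, 4, 5])]),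
  (2, 7, [(0, [0], [0, 1]), (0, [0], [0, 2]), (0, [1], [3, 2]), (4, [], [1]), (0, [1], [4, 5]), (1, [], [4, 6]), (1, [], [5, 6]), (4, [], [3])]),
  (2, 7, [(0, [0], [0, 1]), (0, [0], [0, 2]), (0, [1], [3, 2]), (4, [], [1]), (0, [1], [4, 5]), (1, [], [4, 6]), (1, [], [3, 6]), (4, [], [5])]),
  (2, 7, [(0, [0], [0, 1]), (0, [0], [0, 2]), (0, [1], [3, 2]), (4, [], [1]), (0, [1], [4, 5]), (1, [], [4, 6]), (1, [], [3, 5]), (4, [], [6])]),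
  (2, 7, [(0, [0], [0, 1]), (0, [0], [0, 2]), (0, [1], [3, 2]), (4, [], [1]), (0, [1], [3, 4]), (1, [], [5, 6]), (1, [], [4, 5]), (4, [], [6])]),
  (2, 6, [(0, [0], [0, 1]), (0, [0], [0, 2]), (0, [1], [3, 2]), (4, [], [1]), (0, [1], [3, 4]), (1, [], [4, 5]), (4, [], [5])]),
  (2, 7, [(0, [0], [0, 1]), (0, [0], [0, 1]), (0, [1], [2, 3]), (4, [], [3]), (0, [1], [4, 5]), (1, [], [4, 6]), (1, [], [5, 6]), (4, [], [2])]),
  (2, 7, [(0, [0], [0, 1]), (0, [0], [0, 1]), (0, [1], [2, 3]), (4, [], [3]), (0, [1], [4, 5]), (1, [], [4, 6]), (1, [], [2, 6]), (4, [], [5])]),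
  (2, 7, [(0, [0], [0, 1]), (0, [0], [0, 1]), (0, [1], [2, 3]), (4, [], [3]), (0, [1], [4, 5]), (1, [], [4, 6]), (1, [], [2, 5]), (4, [], [6])]),
  (2, 7, [(0, [0], [0, 1]), (0, [0], [0, 1]), (0, [1], [2, 3]), (4, [], [3]), (0, [1], [2, 4]), (1, [], [5, 6]), (1, [], [4, 5]), (4, [], [6])]),
  (2, 7, [(0, [0], [0, 1]), (0, [0], [2, 3]), (0, [1], [0, 3]), (4, [], [1]), (0, [1], [4, 5]), (1, [], [4, 6]), (1, [], [5, 6]), (4, [], [2])]),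
  (2, 7, [(0, [0], [0, 1]), (0, [0], [2, 3]), (0, [1], [0, 3]), (4, [], [1]), (0, [1], [4, 5]), (1, [], [4, 6]), (1, [], [2, 6]), (4, [], [5])]),
  (2, 7, [(0, [0], [0, 1]), (0, [0], [2, 3]), (0, [1], [0, 3]), (4, [], [1]), (0, [1], [4, 5]), (1, [], [4, 6]), (1, [], [2, 5]), (4, [], [6])]),
  (2, 7, [(0, [0], [0, 1]), (0, [0], [2, 3]), (0, [1], [0, 3]), (4, [], [1]), (0, [1], [2, 4]), (1, [], [5, 6]), (1, [], [4, 5]), (4, [], [6])]),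
  (2, 7, [(0, [0], [0, 1]), (0, [0], [2, 3]), (0, [1], [0, 1]), (4, [], [3]), (0, [1], [4, 5]), (1, [], [4, 6]), (1, [], [5, 6]), (4, [], [2])]),
  (2, 7, [(0, [0], [0, 1]), (0, [0], [2, 3]), (0, [1], [0, 1]), (4, [], [3]), (0, [1], [4, 5]), (1, [], [4, 6]), (1, [], [2, 6]), (4, [], [5])]),
  (2, 7, [(0, [0], [0, 1]), (0, [0], [2, 3]), (0, [1], [0, 1]), (4, [], [3]), (0, [1], [4, 5]), (1, [], [4, 6]), (1, [], [2, 5]), (4, [], [6])]),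
  (2, 7, [(0, [0], [0, 1]), (0, [0], [2, 3]), (0, [1], [0, 1]), (4, [], [3]), (0, [1], [4, 5]), (1, [], [4, 5]), (1, [], [2, 6]), (4, [], [6])]),
  (2, 6, [(0, [0], [0, 1]), (0, [0], [2, 3]), (0, [1], [0, 1]), (4, [], [3]), (0, [1], [4, 5]), (1, [], [4, 5]), (4, [], [2])]),
  (2, 6, [(0, [0], [0, 1]), (0, [0], [2, 3]), (0, [1], [0, 1]), (4, [], [3]), (0, [1], [4, 5]), (1, [], [2, 4]), (4, [], [5])]),
  (2, 7, [(0, [0], [0, 1]), (0, [0], [2, 3]), (0, [1], [0, 1]), (4, [], [3]), (0, [1], [2, 4]), (1, [], [5, 6]), (1, [], [4, 5]), (4, [], [6])]),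
  (2, 6, [(0, [0], [0, 1]), (0, [0], [2, 3]), (0, [1], [0, 1]), (4, [], [3]), (0, [1], [2, 4]), (1, [], [4, 5]), (4, [], [5])]),
  (2, 6, [(0, [0], [0, 1]), (0, [0], [2, 3]), (0, [1], [0, 1]), (4, [], [3]), (1, [], [4, 5]), (2, [1], [2, 4, 5])]),
  (2, 7, [(0, [0], [0, 1]), (0, [0], [2, 0]), (0, [1], [1, 3]), (4, [], [3]), (0, [1], [4, 5]), (1, [], [4, 6]), (1, [], [2, 6]), (4, [], [5])]),
  (2, 7, [(0, [0], [0, 1]), (0, [0], [2, 0]), (0, [1], [1, 3]), (4, [], [3]), (0, [1], [4, 5]), (1, [], [4, 6]), (1, [], [2, 5]), (4, [], [6])]),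
  (2, 7, [(0, [0], [0, 1]), (0, [0], [2, 0]), (0, [1], [1, 3]), (4, [], [3]), (0, [1], [4, 5]), (1, [], [4, 5]), (1, [], [2, 6]), (4, [], [6])]),
  (2, 7, [(0, [0], [0, 1]), (0, [0], [2, 0]), (0, [1], [1, 3]), (4, [], [3]), (0, [1], [2, 4]), (1, [], [5, 6]), (1, [], [5, 6]), (4, [], [4])]),
  (2, 7, [(0, [0], [0, 1]), (0, [0], [2, 0]), (0, [1], [1, 3]), (4, [], [3]), (0, [1], [2, 4]), (1, [], [5, 6]), (1, [], [4, 5]), (4, [], [6])]),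
  (2, 6, [(0, [0], [0, 1]), (0, [0], [2, 0]), (0, [1], [1, 3]), (4, [], [3]), (1, [], [4, 5]), (2, [1], [2, 4, 5])]),
  (2, 7, [(0, [0], [0, 1]), (0, [0], [0, 1]), (0, [1], [2, 3]), (4, [], [4]), (0, [1], [5, 6]), (1, [], [2, 5]), (1, [], [3, 6]), (4, [], [4])]),
  (2, 7, [(0, [0], [0, 1]), (0, [0], [0, 1]), (0, [1], [2, 3]), (4, [], [4]), (0, [1], [2, 5]), (1, [], [5, 6]), (1, [], [3, 6]), (4, [], [4])]),
  (2, 7, [(0, [0], [0, 1]), (0, [0], [0, 1]), (0, [1], [2, 3]), (4, [], [4]), (0, [1], [2, 5]), (1, [], [5, 6]), (1, [], [3, 4]), (4, [], [6])]),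
  (2, 7, [(0, [0], [0, 1]), (0, [0], [0, 1]), (0, [1], [2, 3]), (4, [], [4]), (0, [1], [2, 5]), (1, [], [4, 6]), (1, [], [3, 5]), (4, [], [6])]),
  (2, 6, [(0, [0], [0, 1]), (0, [0], [0, 1]), (0, [1], [2, 3]), (4, [], [4]), (0, [1], [2, 5]), (1, [], [3, 5]), (4, [], [4])]),
  (2, 6, [(0, [0], [0, 1]), (0, [0], [0, 1]), (0, [1], [2, 3]), (4, [], [4]), (1, [], [2, 5]), (2, [1], [3, 4, 5])]),
  (2, 7, [(0, [0], [0, 1]), (0, [0], [2, 0]), (0, [1], [3, 1]), (4, [], [4]), (0, [1], [5, 6]), (1, [], [5, 6]), (1, [], [2, 3]), (4, [], [4])]),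
  (2, 7, [(0, [0], [0, 1]), (0, [0], [2, 0]), (0, [1], [3, 1]), (4, [], [4]), (0, [1], [5, 6]), (1, [], [2, 5]), (1, [], [3, 6]), (4, [], [4])]),
  (2, 7, [(0, [0], [0, 1]), (0, [0], [2, 0]), (0, [1], [3, 1]), (4, [], [4]), (0, [1], [5, 6]), (1, [], [2, 5]), (1, [], [3, 4]), (4, [], [6])]),
  (2, 7, [(0, [0], [0, 1]), (0, [0], [2, 0]), (0, [1], [3, 1]), (4, [], [4]), (0, [1], [5, 6]), (1, [], [3, 5]), (1, [], [2, 4]), (4, [], [6])]),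
  (2, 7, [(0, [0], [0, 1]), (0, [0], [2, 0]), (0, [1], [3, 1]), (4, [], [4]), (0, [1], [5, 6]), (1, [], [4, 5]), (1, [], [2, 3]), (4, [], [6])]),
  (2, 7, [(0, [0], [0, 1]), (0, [0], [2, 0]), (0, [1], [3, 1]), (4, [], [4]), (0, [1], [2, 5]), (1, [], [5, 6]), (1, [], [3, 6]), (4, [], [4])]),
  (2, 7, [(0, [0], [0, 1]), (0, [0], [2, 0]), (0, [1], [3, 1]), (4, [], [4]), (0, [1], [3, 5]), (1, [], [5, 6]), (1, [], [2, 6]), (4, [], [4])]),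
  (2, 7, [(0, [0], [0, 1]), (0, [0], [2, 0]), (0, [1], [3, 1]), (4, [], [4]), (0, [1], [2, 5]), (1, [], [5, 6]), (1, [], [3, 4]), (4, [], [6])]),
  (2, 7, [(0, [0], [0, 1]), (0, [0], [2, 0]), (0, [1], [3, 1]), (4, [], [4]), (0, [1], [3, 5]), (1, [], [5, 6]), (1, [], [2, 4]), (4, [], [6])]),
  (2, 7, [(0, [0], [0, 1]), (0, [0], [2, 0]), (0, [1], [3, 1]), (4, [], [4]), (0, [1], [4, 5]), (1, [], [2, 6]), (1, [], [3, 6]), (4, [], [5])]),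
  (2, 7, [(0, [0], [0, 1]), (0, [0], [2, 0]), (0, [1], [3, 1]), (4, [], [4]), (0, [1], [2, 5]), (1, [], [4, 6]), (1, [], [3, 5]), (4, [], [6])]),
  (2, 7, [(0, [0], [0, 1]), (0, [0], [2, 0]), (0, [1], [3, 1]), (4, [], [4]), (0, [1], [3, 5]), (1, [], [4, 6]), (1, [], [2, 5]), (4, [], [6])]),
  (2, 6, [(0, [0], [0, 1]), (0, [0], [2, 0]), (0, [1], [3, 1]), (4, [], [4]), (0, [1], [2, 5]), (1, [], [3, 5]), (4, [], [4])]),
  (2, 6, [(0, [0], [0, 1]), (0, [0], [2, 0]), (0, [1], [3, 1]), (4, [], [4]), (0, [1], [3, 5]), (1, [], [2, 5]), (4, [], [4])]),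
  (2, 6, [(0, [0], [0, 1]), (0, [0], [2, 0]), (0, [1], [3, 1]), (4, [], [4]), (0, [1], [4, 5]), (1, [], [2, 3]), (4, [], [5])]),
  (2, 7, [(0, [0], [0, 1]), (0, [0], [2, 0]), (0, [1], [3, 1]), (4, [], [4]), (0, [1], [2, 3]), (1, [], [5, 6]), (1, [], [5, 6]), (4, [], [4])]),
  (2, 7, [(0, [0], [0, 1]), (0, [0], [2, 0]), (0, [1], [3, 1]), (4, [], [4]), (0, [1], [2, 3]), (1, [], [5, 6]), (1, [], [4, 5]), (4, [], [6])]),
  (2, 6, [(0, [0], [0, 1]), (0, [0], [2, 0]), (0, [1], [3, 1]), (4, [], [4]), (0, [1], [2, 3]), (1, [], [4, 5]), (4, [], [5])]),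
  (2, 5, [(0, [0], [0, 1]), (0, [0], [2, 0]), (0, [1], [3, 1]), (4, [], [4]), (0, [1], [2, 3]), (4, [], [4])]),
  (2, 6, [(0, [0], [0, 1]), (0, [0], [2, 0]), (0, [1], [3, 1]), (4, [], [4]), (1, [], [2, 5]), (2, [1], [3, 4, 5])]),
  (2, 6, [(0, [0], [0, 1]), (0, [0], [2, 0]), (0, [1], [3, 1]), (4, [], [4]), (1, [], [3, 5]), (2, [1], [2, 4, 5])]),
  (2, 6, [(0, [0], [0, 1]), (0, [0], [2, 0]), (0, [1], [3, 1]), (4, [], [4]), (1, [], [4, 5]), (2, [1], [2, 3, 5])]),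
  (2, 5, [(0, [0], [0, 1]), (0, [0], [2, 0]), (0, [1], [3, 1]), (4, [], [4]), (2, [1], [2, 3, 4])]),
  (2, 7, [(0, [0], [0, 1]), (0, [0], [2, 0]), (0, [1], [3, 4]), (4, [], [1]), (0, [1], [5, 6]), (1, [], [5, 6]), (1, [], [3, 4]), (4, [], [2])]),
  (2, 7, [(0, [0], [0, 1]), (0, [0], [2, 0]), (0, [1], [3, 4]), (4, [], [1]), (0, [1], [5, 6]), (1, [], [2, 5]), (1, [], [3, 6]), (4, [], [4])]),
  (2, 7, [(0, [0], [0, 1]), (0, [0], [2, 0]), (0, [1], [3, 4]), (4, [], [1]), (0, [1], [5, 6]), (1, [], [3, 5]), (1, [], [4, 6]), (4, [], [2])]),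
  (2, 7, [(0, [0], [0, 1]), (0, [0], [2, 0]), (0, [1], [3, 4]), (4, [], [1]), (0, [1], [3, 5]), (1, [], [5, 6]), (1, [], [2, 6]), (4, [], [4])]),
  (2, 7, [(0, [0], [0, 1]), (0, [0], [2, 0]), (0, [1], [3, 4]), (4, [], [1]), (0, [1], [3, 5]), (1, [], [5, 6]), (1, [], [4, 6]), (4, [], [2])]),
  (2, 7, [(0, [0], [0, 1]), (0, [0], [2, 0]), (0, [1], [3, 4]), (4, [], [1]), (0, [1], [3, 5]), (1, [], [5, 6]), (1, [], [2, 4]), (4, [], [6])]),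
  (2, 7, [(0, [0], [0, 1]), (0, [0], [2, 0]), (0, [1], [3, 4]), (4, [], [1]), (0, [1], [3, 5]), (1, [], [2, 6]), (1, [], [4, 5]), (4, [], [6])]),
  (2, 6, [(0, [0], [0, 1]), (0, [0], [2, 0]), (0, [1], [3, 4]), (4, [], [1]), (0, [1], [3, 5]), (1, [], [2, 5]), (4, [], [4])]),
  (2, 6, [(0, [0], [0, 1]), (0, [0], [2, 0]), (0, [1], [3, 4]), (4, [], [1]), (0, [1], [3, 5]), (1, [], [4, 5]), (4, [], [2])]),
  (2, 6, [(0, [0], [0, 1]), (0, [0], [2, 0]), (0, [1], [3, 4]), (4, [], [1]), (1, [], [2, 5]), (2, [1], [3, 4, 5])]),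
  (2, 6, [(0, [0], [0, 1]), (0, [0], [2, 0]), (0, [1], [3, 4]), (4, [], [1]), (1, [], [3, 5]), (2, [1], [2, 4, 5])]),
  (2, 7, [(0, [0], [0, 1]), (0, [0], [2, 3]), (0, [1], [0, 1]), (4, [], [4]), (0, [1], [5, 6]), (1, [], [2, 5]), (1, [], [3, 6]), (4, [], [4])]),
  (2, 7, [(0, [0], [0, 1]), (0, [0], [2, 3]), (0, [1], [0, 1]), (4, [], [4]), (0, [1], [2, 5]), (1, [], [5, 6]), (1, [], [3, 6]), (4, [], [4])]),
  (2, 7, [(0, [0], [0, 1]), (0, [0], [2, 3]), (0, [1], [0, 1]), (4, [], [4]), (0, [1], [2, 5]), (1, [], [5, 6]), (1, [], [3, 4]), (4, [], [6])]),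
  (2, 7, [(0, [0], [0, 1]), (0, [0], [2, 3]), (0, [1], [0, 1]), (4, [], [4]), (0, [1], [2, 5]), (1, [], [4, 6]), (1, [], [3, 5]), (4, [], [6])]),
  (2, 6, [(0, [0], [0, 1]), (0, [0], [2, 3]), (0, [1], [0, 1]), (4, [], [4]), (0, [1], [2, 5]), (1, [], [3, 5]), (4, [], [4])]),
  (2, 7, [(0, [0], [0, 1]), (0, [0], [2, 3]), (0, [1], [0, 1]), (4, [], [4]), (0, [1], [2, 3]), (1, [], [5, 6]), (1, [], [4, 5]), (4, [], [6])]),
  (2, 6, [(0, [0], [0, 1]), (0, [0], [2, 3]), (0, [1], [0, 1]), (4, [], [4]), (0, [1], [2, 3]), (1, [], [4, 5]), (4, [], [5])]),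
  (2, 5, [(0, [0], [0, 1]), (0, [0], [2, 3]), (0, [1], [0, 1]), (4, [], [4]), (0, [1], [2, 3]), (4, [], [4])]),
  (2, 6, [(0, [0], [0, 1]), (0, [0], [2, 3]), (0, [1], [0, 1]), (4, [], [4]), (1, [], [2, 5]), (2, [1], [3, 4, 5])]),
  (2, 6, [(0, [0], [0, 1]), (0, [0], [2, 3]), (0, [1], [0, 1]), (4, [], [4]), (1, [], [4, 5]), (2, [1], [2, 3, 5])]),
  (2, 5, [(0, [0], [0, 1]), (0, [0], [2, 3]), (0, [1], [0, 1]), (4, [], [4]), (2, [1], [2, 3, 4])]),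
  (2, 7, [(0, [0], [0, 1]), (0, [0], [2, 3]), (0, [1], [4, 0]), (4, [], [1]), (0, [1], [5, 6]), (1, [], [5, 6]), (1, [], [2, 4]), (4, [], [3])]),
  (2, 7, [(0, [0], [0, 1]), (0, [0], [2, 3]), (0, [1], [4, 0]), (4, [], [1]), (0, [1], [5, 6]), (1, [], [2, 5]), (1, [], [3, 6]), (4, [], [4])]),
  (2, 7, [(0, [0], [0, 1]), (0, [0], [2, 3]), (0, [1], [4, 0]), (4, [], [1]), (0, [1], [5, 6]), (1, [], [2, 5]), (1, [], [4, 6]), (4, [], [3])]),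
  (2, 7, [(0, [0], [0, 1]), (0, [0], [2, 3]), (0, [1], [4, 0]), (4, [], [1]), (0, [1], [5, 6]), (1, [], [2, 5]), (1, [], [3, 4]), (4, [], [6])]),
  (2, 7, [(0, [0], [0, 1]), (0, [0], [2, 3]), (0, [1], [4, 0]), (4, [], [1]), (0, [1], [2, 5]), (1, [], [5, 6]), (1, [], [3, 6]), (4, [], [4])]),
  (2, 7, [(0, [0], [0, 1]), (0, [0], [2, 3]), (0, [1], [4, 0]), (4, [], [1]), (0, [1], [2, 5]), (1, [], [5, 6]), (1, [], [4, 6]), (4, [], [3])]),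
  (2, 7, [(0, [0], [0, 1]), (0, [0], [2, 3]), (0, [1], [4, 0]), (4, [], [1]), (0, [1], [2, 5]), (1, [], [5, 6]), (1, [], [3, 4]), (4, [], [6])]),
  (2, 7, [(0, [0], [0, 1]), (0, [0], [2, 3]), (0, [1], [4, 0]), (4, [], [1]), (0, [1], [2, 5]), (1, [], [3, 6]), (1, [], [4, 6]), (4, [], [5])]),
  (2, 7, [(0, [0], [0, 1]), (0, [0], [2, 3]), (0, [1], [4, 0]), (4, [], [1]), (0, [1], [2, 5]), (1, [], [3, 6]), (1, [], [4, 5]), (4, [], [6])]),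
  (2, 7, [(0, [0], [0, 1]), (0, [0], [2, 3]), (0, [1], [4, 0]), (4, [], [1]), (0, [1], [2, 5]), (1, [], [4, 6]), (1, [], [3, 5]), (4, [], [6])]),
  (2, 6, [(0, [0], [0, 1]), (0, [0], [2, 3]), (0, [1], [4, 0]), (4, [], [1]), (0, [1], [2, 5]), (1, [], [3, 5]), (4, [], [4])]),
  (2, 6, [(0, [0], [0, 1]), (0, [0], [2, 3]), (0, [1], [4, 0]), (4, [], [1]), (1, [], [2, 5]), (2, [1], [3, 4, 5])]),
  (2, 7, [(0, [0], [0, 1]), (0, [0], [2, 3]), (0, [1], [1, 3]), (4, [], [4]), (0, [1], [5, 6]), (1, [], [5, 6]), (1, [], [0, 2]), (4, [], [4])]),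
  (2, 7, [(0, [0], [0, 1]), (0, [0], [2, 3]), (0, [1], [1, 3]), (4, [], [4]), (0, [1], [5, 6]), (1, [], [0, 5]), (1, [], [2, 6]), (4, [], [4])]),
  (2, 7, [(0, [0], [0, 1]), (0, [0], [2, 3]), (0, [1], [1, 3]), (4, [], [4]), (0, [1], [5, 6]), (1, [], [0, 5]), (1, [], [2, 4]), (4, [], [6])]),
  (2, 7, [(0, [0], [0, 1]), (0, [0], [2, 3]), (0, [1], [1, 3]), (4, [], [4]), (0, [1], [5, 6]), (1, [], [4, 5]), (1, [], [0, 2]), (4, [], [6])]),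
  (2, 7, [(0, [0], [0, 1]), (0, [0], [2, 3]), (0, [1], [1, 3]), (4, [], [4]), (0, [1], [0, 5]), (1, [], [5, 6]), (1, [], [2, 6]), (4, [], [4])]),
  (2, 7, [(0, [0], [0, 1]), (0, [0], [2, 3]), (0, [1], [1, 3]), (4, [], [4]), (0, [1], [0, 5]), (1, [], [5, 6]), (1, [], [2, 4]), (4, [], [6])]),
  (2, 7, [(0, [0], [0, 1]), (0, [0], [2, 3]), (0, [1], [1, 3]), (4, [], [4]), (0, [1], [4, 5]), (1, [], [0, 6]), (1, [], [2, 6]), (4, [], [5])]),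
  (2, 7, [(0, [0], [0, 1]), (0, [0], [2, 3]), (0, [1], [1, 3]), (4, [], [4]), (0, [1], [0, 5]), (1, [], [4, 6]), (1, [], [2, 5]), (4, [], [6])]),
  (2, 6, [(0, [0], [0, 1]), (0, [0], [2, 3]), (0, [1], [1, 3]), (4, [], [4]), (0, [1], [0, 5]), (1, [], [2, 5]), (4, [], [4])]),
  (2, 7, [(0, [0], [0, 1]), (0, [0], [2, 3]), (0, [1], [1, 3]), (4, [], [4]), (0, [1], [0, 2]), (1, [], [5, 6]), (1, [], [5, 6]), (4, [], [4])]),
  (2, 7, [(0, [0], [0, 1]), (0, [0], [2, 3]), (0, [1], [1, 3]), (4, [], [4]), (0, [1], [0, 2]), (1, [], [5, 6]), (1, [], [4, 5]), (4, [], [6])]),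
  (2, 6, [(0, [0], [0, 1]), (0, [0], [2, 3]), (0, [1], [1, 3]), (4, [], [4]), (1, [], [0, 5]), (2, [1], [2, 4, 5])]),
  (2, 7, [(0, [0], [0, 1]), (0, [0], [2, 3]), (0, [1], [4, 3]), (4, [], [1]), (0, [1], [5, 6]), (1, [], [5, 6]), (1, [], [2, 4]), (4, [], [0])]),
  (2, 7, [(0, [0], [0, 1]), (0, [0], [2, 3]), (0, [1], [4, 3]), (4, [], [1]), (0, [1], [5, 6]), (1, [], [2, 5]), (1, [], [4, 6]), (4, [], [0])]),
  (2, 7, [(0, [0], [0, 1]), (0, [0], [2, 3]), (0, [1], [4, 3]), (4, [], [1]), (0, [1], [5, 6]), (1, [], [0, 5]), (1, [], [2, 4]), (4, [], [6])]),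
  (2, 7, [(0, [0], [0, 1]), (0, [0], [2, 3]), (0, [1], [4, 3]), (4, [], [1]), (0, [1], [5, 6]), (1, [], [2, 5]), (1, [], [0, 4]), (4, [], [6])]),
  (2, 7, [(0, [0], [0, 1]), (0, [0], [2, 3]), (0, [1], [4, 3]), (4, [], [1]), (0, [1], [5, 6]), (1, [], [4, 5]), (1, [], [0, 2]), (4, [], [6])]),
  (2, 6, [(0, [0], [0, 1]), (0, [0], [2, 3]), (0, [1], [4, 3]), (4, [], [1]), (1, [], [0, 5]), (2, [1], [2, 4, 5])]),
  (2, 6, [(0, [0], [0, 1]), (0, [0], [2, 3]), (0, [1], [4, 3]), (4, [], [1]), (1, [], [2, 5]), (2, [1], [0, 4, 5])]),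
  (2, 7, [(0, [0], [0, 1]), (0, [0], [2, 1]), (0, [1], [3, 4]), (4, [], [4]), (0, [1], [5, 6]), (1, [], [5, 6]), (1, [], [0, 2]), (4, [], [3])]),
  (2, 7, [(0, [0], [0, 1]), (0, [0], [2, 1]), (0, [1], [3, 4]), (4, [], [4]), (0, [1], [5, 6]), (1, [], [0, 5]), (1, [], [2, 6]), (4, [], [3])]),
  (2, 7, [(0, [0], [0, 1]), (0, [0], [2, 1]), (0, [1], [3, 4]), (4, [], [4]), (0, [1], [5, 6]), (1, [], [0, 5]), (1, [], [2, 3]), (4, [], [6])]),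
  (2, 7, [(0, [0], [0, 1]), (0, [0], [2, 1]), (0, [1], [3, 4]), (4, [], [4]), (0, [1], [5, 6]), (1, [], [3, 5]), (1, [], [0, 2]), (4, [], [6])]),
  (2, 6, [(0, [0], [0, 1]), (0, [0], [2, 1]), (0, [1], [3, 4]), (4, [], [4]), (1, [], [0, 5]), (2, [1], [2, 3, 5])]),
  (2, 7, [(0, [0], [0, 1]), (0, [0], [2, 1]), (0, [1], [3, 4]), (4, [], [5]), (0, [1], [3, 6]), (1, [], [0, 6]), (1, [], [2, 4]), (4, [], [5])]),
  (2, 7, [(0, [0], [0, 1]), (0, [0], [2, 1]), (0, [1], [3, 4]), (4, [], [5]), (0, [1], [3, 6]), (1, [], [4, 6]), (1, [], [0, 2]), (4, [], [5])]),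
  (2, 6, [(0, [0], [0, 1]), (0, [0], [2, 1]), (0, [1], [3, 4]), (4, [], [5]), (1, [], [0, 2]), (2, [1], [3, 4, 5])]),
  (2, 6, [(0, [0], [0, 1]), (0, [0], [2, 1]), (0, [1], [3, 4]), (4, [], [5]), (1, [], [0, 3]), (2, [1], [2, 4, 5])]),
  (2, 6, [(0, [0], [0, 1]), (0, [0], [2, 1]), (0, [1], [3, 4]), (4, [], [5]), (1, [], [0, 5]), (2, [1], [2, 3, 4])]),
  (2, 7, [(0, [0], [0, 1]), (0, [0], [2, 3]), (0, [1], [4, 1]), (4, [], [5]), (0, [1], [2, 6]), (1, [], [3, 6]), (1, [], [0, 4]), (4, [], [5])]),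
  (2, 7, [(0, [0], [0, 1]), (0, [0], [2, 3]), (0, [1], [4, 1]), (4, [], [5]), (0, [1], [2, 6]), (1, [], [4, 6]), (1, [], [0, 3]), (4, [], [5])]),
  (2, 6, [(0, [0], [0, 1]), (0, [0], [2, 3]), (0, [1], [4, 1]), (4, [], [5]), (1, [], [0, 2]), (2, [1], [3, 4, 5])]),
  (2, 6, [(0, [0], [0, 1]), (0, [0], [2, 3]), (0, [1], [4, 1]), (4, [], [5]), (1, [], [0, 4]), (2, [1], [2, 3, 5])]),
  (2, 6, [(0, [0], [0, 1]), (0, [0], [2, 3]), (0, [1], [4, 5]), (4, [], [1]), (1, [], [0, 2]), (2, [1], [3, 4, 5])]),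
  (2, 5, [(0, [0], [0, 1]), (2, [0], [2, 3, 4]), (0, [1], [0, 1]), (2, [1], [2, 3, 4])]),
  (2, 5, [(0, [0], [0, 1]), (2, [1], [2, 3, 1]), (0, [0], [0, 4]), (2, [1], [2, 3, 4])])]

def kl60 : List ℕ := [5, 6, 7, 8, 9, 10, 11, 12, 21, 22, 26, 30, 33, 37, 38, 41, 42, 44, 45, 46, 47, 48, 49, 50, 51, 54, 55, 56, 62, 63, 64, 65, 75, 76, 78, 82, 83, 84, 85, 86, 87, 88, 89, 90, 91, 93, 99, 100, 101, 102, 103, 104, 106, 108, 113, 114, 115, 117, 118, 121, 122, 123, 124, 127, 128, 129, 131, 134, 135, 136, 137, 138, 139, 141, 142, 143, 145, 146, 147, 149, 150, 151, 208, 209, 210, 211, 212, 215, 226, 227, 228, 229, 230, 231, 232, 233, 234, 235, 236, 237, 238, 239, 240, 244, 245, 246, 247, 248, 249, 250, 251, 254, 255, 256, 257, 258, 259, 260, 261, 262, 264, 265, 271, 272, 273, 274, 275, 278, 279, 280, 281, 282, 283, 289, 290, 291, 292, 293, 294, 295, 296, 297, 298, 299,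 301, 304, 305, 306, 307, 308, 309, 310, 311, 312, 316, 317, 320, 323, 324, 325, 326, 327, 328, 329, 332, 333, 334, 335, 336, 422, 423, 424, 425, 426, 432, 433, 434, 435, 439, 448, 449]

def m60_0 : Base := (0, 1, [(0, [0], [0, 5]), (0, [1], [1, 5]), (1, [], [2, 3]), (4, [], [4])])

def l60_0 : Cov := [(72, 0, 1, [(0, [0], [0, 5]), (0, [1], [1, 5]), (1, [], [2, 3]), (4, [], [4])]),
  (-72, 0, 1, [(0, [0], [0, 5]), (0, [1], [1, 5]), (1, [], [2, 4]), (4, [], [3])]),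
  (72, 0, 1, [(0, [0], [0, 5]), (0, [1], [2, 5]), (1, [], [1, 3]), (4, [], [4])]),
  (-72, 0, 1, [(0, [0], [0, 5]), (0, [1], [2, 5]), (1, [], [3, 4]), (4, [], [1])]),
  (144, 0, 1, [(0, [0], [0, 5]), (0, [1], [3, 5]), (1, [], [1, 2]), (4, [], [4])]),
  (-144, 0, 1, [(0, [0], [0, 5]), (0, [1], [3, 5]), (1, [], [2, 4]), (4, [], [1])]),
  (72, 0, 1, [(0, [0], [0, 5]), (0, [1], [4, 5]), (1, [], [1, 2]), (4, [], [3])]),
  (-72, 0, 1, [(0, [0], [0, 5]), (0, [1], [4, 5]), (1, [], [2, 3]), (4, [], [1])]),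
  (-72, 0, 1, [(0, [0], [1, 5]), (0, [1], [0, 5]), (1, [], [2, 3]), (4, [], [4])]),
  (72, 0, 1, [(0, [0], [1, 5]), (0, [1], [0, 5]), (1, [], [2, 4]), (4, [], [3])]),
  (72, 0, 1, [(0, [0], [1, 5]), (0, [1], [2, 5]), (1, [], [0, 4]), (4, [], [3])]),
  (-72, 0, 1, [(0, [0], [1, 5]), (0, [1], [2, 5]), (1, [], [3, 4]), (4, [], [0])]),
  (72, 0, 1, [(0, [0], [1, 5]), (0, [1], [3, 5]), (1, [], [0, 2]), (4, [], [4])]),
  (-72, 0, 1, [(0, [0], [1, 5]), (0, [1], [3, 5]), (1, [], [2, 4]), (4, [], [0])]),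
  (144, 0, 1, [(0, [0], [1, 5]), (0, [1], [4, 5]), (1, [], [0, 2]), (4, [], [3])]),
  (-144, 0, 1, [(0, [0], [1, 5]), (0, [1], [4, 5]), (1, [], [2, 3]), (4, [], [0])]),
  (-72, 0, 1, [(0, [0], [2, 5]), (0, [1], [0, 5]), (1, [], [1, 3]), (4, [], [4])]),
  (72, 0, 1, [(0, [0], [2, 5]), (0, [1], [0, 5]), (1, [], [3, 4]), (4, [], [1])]),
  (-72, 0, 1, [(0, [0], [2, 5]), (0, [1], [1, 5]), (1, [], [0, 4]), (4, [], [3])]),
  (72, 0, 1, [(0, [0], [2, 5]), (0, [1], [1, 5]), (1, [], [3, 4]), (4, [], [0])]),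
  (72, 0, 1, [(0, [0], [2, 5]), (0, [1], [3, 5]), (1, [], [0, 1]), (4, [], [4])]),
  (-72, 0, 1, [(0, [0], [2, 5]), (0, [1], [3, 5]), (1, [], [0, 4]), (4, [], [1])]),
  (72, 0, 1, [(0, [0], [2, 5]), (0, [1], [4, 5]), (1, [], [0, 1]), (4, [], [3])]),
  (-72, 0, 1, [(0, [0], [2, 5]), (0, [1], [4, 5]), (1, [], [1, 3]), (4, [], [0])]),
  (-144, 0, 1, [(0, [0], [3, 5]), (0, [1], [0, 5]), (1, [], [1, 2]), (4, [], [4])]),
  (144, 0, 1, [(0, [0], [3, 5]), (0, [1], [0, 5]), (1, [], [2, 4]), (4, [], [1])]),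
  (-72, 0, 1, [(0, [0], [3, 5]), (0, [1], [1, 5]), (1, [], [0, 2]), (4, [], [4])]),
  (72, 0, 1, [(0, [0], [3, 5]), (0, [1], [1, 5]), (1, [], [2, 4]), (4, [], [0])]),
  (-72, 0, 1, [(0, [0], [3, 5]), (0, [1], [2, 5]), (1, [], [0, 1]), (4, [], [4])]),
  (72, 0, 1, [(0, [0], [3, 5]), (0, [1], [2, 5]), (1, [], [0, 4]), (4, [], [1])]),
  (72, 0, 1, [(0, [0], [3, 5]), (0, [1], [4, 5]), (1, [], [0, 2]), (4, [], [1])]),
  (-72, 0, 1, [(0, [0], [3, 5]), (0, [1], [4, 5]), (1, [], [1, 2]), (4, [], [0])]),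
  (-72, 0, 1, [(0, [0], [4, 5]), (0, [1], [0, 5]), (1, [], [1, 2]), (4, [], [3])]),
  (72, 0, 1, [(0, [0], [4, 5]), (0, [1], [0, 5]), (1, [], [2, 3]), (4, [], [1])]),
  (-144, 0, 1, [(0, [0], [4, 5]), (0, [1], [1, 5]), (1, [], [0, 2]), (4, [], [3])]),
  (144, 0, 1, [(0, [0], [4, 5]), (0, [1], [1, 5]), (1, [], [2, 3]), (4, [], [0])]),
  (-72, 0, 1, [(0, [0], [4, 5]), (0, [1], [2, 5]), (1, [], [0, 1]), (4, [], [3])]),
  (72, 0, 1, [(0, [0], [4, 5]), (0, [1], [2, 5]), (1, [], [1, 3]), (4, [], [0])]),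
  (-72, 0, 1, [(0, [0], [4, 5]), (0, [1], [3, 5]), (1, [], [0, 2]), (4, [], [1])]),
  (72, 0, 1, [(0, [0], [4, 5]), (0, [1], [3, 5]), (1, [], [1, 2]), (4, [], [0])])]

def z60_0 : Cov := [(0, 0, 1, [(0, [0], [0, 5]), (0, [1], [1, 5]), (1, [], [3, 4]), (4, [], [2])]),
  (0, 0, 1, [(0, [0], [0, 5]), (0, [1], [2, 5]), (1, [], [1, 4]), (4, [], [3])]),
  (0, 0, 1, [(0, [0], [0, 5]), (0, [1], [3, 5]), (1, [], [1, 4]), (4, [], [2])]),
  (0, 0, 1, [(0, [0], [0, 5]), (0, [1], [4, 5]), (1, [], [1, 3]), (4, [], [2])]),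
  (0, 0, 1, [(0, [0], [1, 5]), (0, [1], [0, 5]), (1, [], [3, 4]), (4, [], [2])]),
  (0, 0, 1, [(0, [0], [1, 5]), (0, [1], [2, 5]), (1, [], [0, 3]), (4, [], [4])]),
  (0, 0, 1, [(0, [0], [1, 5]), (0, [1], [3, 5]), (1, [], [0, 4]), (4, [], [2])]),
  (0, 0, 1, [(0, [0], [1, 5]), (0, [1], [4, 5]), (1, [], [0, 3]), (4, [], [2])]),
  (0, 0, 1, [(0, [0], [2, 5]), (0, [1], [0, 5]), (1, [], [1, 4]), (4, [], [3])]),
  (0, 0, 1, [(0, [0], [2, 5]), (0, [1], [1, 5]), (1, [], [0, 3]), (4, [], [4])]),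
  (0, 0, 1, [(0, [0], [2, 5]), (0, [1], [3, 5]), (1, [], [1, 4]), (4, [], [0])]),
  (0, 0, 1, [(0, [0], [2, 5]), (0, [1], [4, 5]), (1, [], [0, 3]), (4, [], [1])]),
  (0, 0, 1, [(0, [0], [3, 5]), (0, [1], [0, 5]), (1, [], [1, 4]), (4, [], [2])]),
  (0, 0, 1, [(0, [0], [3, 5]), (0, [1], [1, 5]), (1, [], [0, 4]), (4, [], [2])]),
  (0, 0, 1, [(0, [0], [3, 5]), (0, [1], [2, 5]), (1, [], [1, 4]), (4, [], [0])]),
  (0, 0, 1, [(0, [0], [3, 5]), (0, [1], [4, 5]), (1, [], [0, 1]), (4, [], [2])]),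
  (0, 0, 1, [(0, [0], [4, 5]), (0, [1], [0, 5]), (1, [], [1, 3]), (4, [], [2])]),
  (0, 0, 1, [(0, [0], [4, 5]), (0, [1], [1, 5]), (1, [], [0, 3]), (4, [], [2])]),
  (0, 0, 1, [(0, [0], [4, 5]), (0, [1], [2, 5]), (1, [], [0, 3]), (4, [], [1])]),
  (0, 0, 1, [(0, [0], [4, 5]), (0, [1], [3, 5]), (1, [], [0, 1]), (4, [], [2])])]

def w60_0 : List (List Wit) := [[(0, 0, 0, 0, 0), (1, 0, 0, 0, 0), (0, 0, 0, 0, 0), (40, 0, 0, 0, 0), (1, 0, 0, 0, 0), (40, 0, 0, 0, 0), (2, 0, 0, 0, 0), (41, 0, 0, 0, 0), (2, 0, 0, 0, 0), (3, 0, 0, 0, 0), (41, 0, 0, 0, 0), (3, 0, 0, 0, 0), (4, 0, 0, 0, 0), (42, 0, 0, 0, 0), (4, 0, 0, 0, 0), (5, 0, 0, 0, 0), (42, 0, 0, 0, 0), (5, 0, 0, 0, 0), (6, 0, 0, 0, 0), (43, 0, 0, 0, 0), (6, 0, 0, 0, 0), (7, 0, 0, 0, 0), (43, 0, 0, 0, 0), (7, 0, 0, 0, 0), (8, 0, 0, 0, 0), (9, 0, 0, 0, 0), (8, 0, 0, 0, 0), (44, 0, 0, 0, 0), (9, 0, 0, 0, 0), (44, 0,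 0, 0, 0), (45, 0, 0, 0, 0), (10, 0, 0, 0, 0), (45, 0, 0, 0, 0), (11, 0, 0, 0, 0), (10, 0, 0, 0, 0), (11, 0, 0, 0, 0), (12, 0, 0, 0, 0), (46, 0, 0, 0, 0), (12, 0, 0, 0, 0), (13, 0, 0, 0, 0), (46, 0, 0, 0, 0), (13, 0, 0, 0, 0), (14, 0, 0, 0, 0), (47, 0, 0, 0, 0), (14, 0, 0, 0, 0), (15, 0, 0, 0, 0), (47, 0, 0, 0, 0), (15, 0, 0, 0, 0), (16, 0, 0, 0, 0), (48, 0, 0, 0, 0), (16, 0, 0, 0, 0), (17, 0, 0, 0, 0), (48, 0, 0, 0, 0), (17, 0, 0, 0, 0), (49, 0, 0, 0, 0), (18, 0, 0, 0, 0), (49, 0, 0, 0, 0), (19, 0, 0, 0, 0), (18, 0, 0, 0, 0), (19, 0, 0, 0, 0), (20, 0, 0, 0, 0), (21, 0, 0, 0, 0), (20, 0, 0, 0, 0), (50, 0, 0, 0, 0), (21, 0, 0, 0, 0), (50, 0, 0, 0, 0), (22, 0, 0, 0, 0), (51, 0, 0, 0, 0), (22, 0, 0, 0, 0), (23, 0, 0, 0, 0), (51, 0, 0, 0, 0), (23, 0, 0, 0, 0), (24, 0, 0, 0, 0), (52, 0, 0, 0, 0), (24, 0, 0, 0, 0), (25, 0, 0, 0, 0), (52, 0, 0, 0, 0), (25, 0, 0, 0,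 0), (26, 0, 0, 0, 0), (53, 0, 0, 0, 0), (26, 0, 0, 0, 0), (27, 0, 0, 0, 0), (53, 0, 0, 0, 0), (27, 0, 0, 0, 0), (28, 0, 0, 0, 0), (29, 0, 0, 0, 0), (28, 0, 0, 0, 0), (54, 0, 0, 0, 0), (29, 0, 0, 0, 0), (54, 0, 0, 0, 0), (55, 0, 0, 0, 0), (30, 0, 0, 0, 0), (55, 0, 0, 0, 0), (31, 0, 0, 0, 0), (30, 0, 0, 0, 0), (31, 0, 0, 0, 0), (32, 0, 0, 0, 0), (56, 0, 0, 0, 0), (32, 0, 0, 0, 0), (33, 0, 0, 0, 0), (56, 0, 0, 0, 0), (33, 0, 0, 0, 0), (34, 0, 0, 0, 0), (57, 0, 0, 0, 0), (34, 0, 0, 0, 0), (35, 0, 0, 0, 0), (57, 0, 0, 0, 0), (35, 0, 0, 0, 0), (36, 0, 0, 0, 0), (58, 0, 0, 0, 0), (36, 0, 0, 0, 0), (37, 0, 0, 0, 0), (58, 0, 0, 0, 0), (37, 0, 0, 0, 0), (59, 0, 0, 0, 0), (38, 0, 0, 0, 0), (59, 0, 0, 0, 0), (39, 0, 0, 0, 0), (38, 0, 0, 0, 0), (39, 0, 0, 0, 0)],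
  [(8, 0, 0, 0, 0), (9, 0, 0, 0, 0), (8, 0, 0, 0, 0), (44, 0, 0, 0, 0), (9, 0, 0, 0, 0), (44, 0, 0, 0, 0), (16, 0, 0, 0, 0), (48, 0, 0, 0, 0), (16, 0, 0, 0, 0), (17, 0, 0, 0, 0), (48, 0, 0, 0, 0), (17, 0, 0, 0, 0), (24, 0, 0, 0, 0), (52, 0, 0, 0, 0), (24, 0, 0, 0, 0), (25, 0, 0, 0, 0), (52, 0, 0, 0, 0), (25, 0, 0, 0, 0), (32, 0, 0, 0, 0), (56, 0, 0, 0, 0), (32, 0, 0, 0, 0), (33, 0, 0, 0, 0), (56, 0, 0, 0, 0), (33, 0, 0, 0, 0), (0, 0, 0, 0, 0), (1, 0, 0, 0, 0), (0, 0, 0, 0, 0), (40, 0, 0, 0, 0), (1, 0, 0, 0, 0), (40, 0, 0, 0, 0), (49, 0, 0, 0, 0), (18, 0, 0, 0, 0), (49, 0, 0, 0, 0), (19, 0, 0, 0, 0), (18, 0, 0, 0, 0), (19, 0, 0, 0, 0), (26, 0, 0, 0, 0), (53, 0, 0, 0, 0), (26, 0, 0, 0, 0), (27, 0, 0, 0, 0), (53, 0, 0, 0, 0), (27, 0, 0, 0, 0), (34, 0, 0, 0, 0), (57, 0, 0, 0, 0), (34, 0, 0, 0, 0), (35, 0, 0, 0, 0), (57, 0, 0, 0, 0), (35, 0, 0, 0, 0), (2, 0, 0, 0,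 0), (41, 0, 0, 0, 0), (2, 0, 0, 0, 0), (3, 0, 0, 0, 0), (41, 0, 0, 0, 0), (3, 0, 0, 0, 0), (45, 0, 0, 0, 0), (10, 0, 0, 0, 0), (45, 0, 0, 0, 0), (11, 0, 0, 0, 0), (10, 0, 0, 0, 0), (11, 0, 0, 0, 0), (28, 0, 0, 0, 0), (29, 0, 0, 0, 0), (28, 0, 0, 0, 0), (54, 0, 0, 0, 0), (29, 0, 0, 0, 0), (54, 0, 0, 0, 0), (36, 0, 0, 0, 0), (58, 0, 0, 0, 0), (36, 0, 0, 0, 0), (37, 0, 0, 0, 0), (58, 0, 0, 0, 0), (37, 0, 0, 0, 0), (4, 0, 0, 0, 0), (42, 0, 0, 0, 0), (4, 0, 0, 0, 0), (5, 0, 0, 0, 0), (42, 0, 0, 0, 0), (5, 0, 0, 0, 0), (12, 0, 0, 0, 0), (46, 0, 0, 0, 0), (12, 0, 0, 0, 0), (13, 0, 0, 0, 0), (46, 0, 0, 0, 0), (13, 0, 0, 0, 0), (20, 0, 0, 0, 0), (21, 0, 0, 0, 0), (20, 0, 0, 0, 0), (50, 0, 0, 0, 0), (21, 0, 0, 0, 0), (50, 0, 0, 0, 0), (59, 0, 0, 0, 0), (38, 0, 0, 0, 0), (59, 0, 0, 0, 0), (39, 0, 0, 0, 0), (38, 0, 0, 0, 0), (39, 0, 0, 0, 0), (6, 0, 0, 0, 0), (43, 0, 0,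 0, 0), (6, 0, 0, 0, 0), (7, 0, 0, 0, 0), (43, 0, 0, 0, 0), (7, 0, 0, 0, 0), (14, 0, 0, 0, 0), (47, 0, 0, 0, 0), (14, 0, 0, 0, 0), (15, 0, 0, 0, 0), (47, 0, 0, 0, 0), (15, 0, 0, 0, 0), (22, 0, 0, 0, 0), (51, 0, 0, 0, 0), (22, 0, 0, 0, 0), (23, 0, 0, 0, 0), (51, 0, 0, 0, 0), (23, 0, 0, 0, 0), (55, 0, 0, 0, 0), (30, 0, 0, 0, 0), (55, 0, 0, 0, 0), (31, 0, 0, 0, 0), (30, 0, 0, 0, 0), (31, 0, 0, 0, 0)]]

def m60_1 : Base := (0, 1, [(0, [0], [0, 5]), (0, [1], [1, 2]), (1, [], [3, 5]), (4, [], [4])])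

def l60_1 : Cov := [(144, 0, 1, [(0, [0], [0, 5]), (0, [1], [1, 2]), (1, [], [3, 5]), (4, [], [4])]),
  (72, 0, 1, [(0, [0], [0, 5]), (0, [1], [1, 2]), (1, [], [4, 5]), (4, [], [3])]),
  (72, 0, 1, [(0, [0], [0, 5]), (0, [1], [1, 3]), (1, [], [2, 5]), (4, [], [4])]),
  (72, 0, 1, [(0, [0], [0, 5]), (0, [1], [2, 3]), (1, [], [1, 5]), (4, [], [4])]),
  (-72, 0, 1, [(0, [0], [0, 5]), (0, [1], [2, 3]), (1, [], [4, 5]), (4, [], [1])]),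
  (-72, 0, 1, [(0, [0], [0, 5]), (0, [1], [2, 4]), (1, [], [1, 5]), (4, [], [3])]),
  (-144, 0, 1, [(0, [0], [0, 5]), (0, [1], [2, 4]), (1, [], [3, 5]), (4, [], [1])]),
  (-72, 0, 1, [(0, [0], [0, 5]), (0, [1], [3, 4]), (1, [], [2, 5]), (4, [], [1])]),
  (72, 0, 1, [(0, [0], [1, 5]), (0, [1], [0, 2]), (1, [], [3, 5]), (4, [], [4])]),
  (144, 0, 1, [(0, [0], [1, 5]), (0, [1], [0, 2]), (1, [], [4, 5]), (4, [], [3])]),
  (72, 0, 1, [(0, [0], [1, 5]), (0, [1], [0, 4]), (1, [], [2, 5]), (4, [], [3])]),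
  (-72, 0, 1, [(0, [0], [1, 5]), (0, [1], [2, 3]), (1, [], [0, 5]), (4, [], [4])]),
  (-144, 0, 1, [(0, [0], [1, 5]), (0, [1], [2, 3]), (1, [], [4, 5]), (4, [], [0])]),
  (72, 0, 1, [(0, [0], [1, 5]), (0, [1], [2, 4]), (1, [], [0, 5]), (4, [], [3])]),
  (-72, 0, 1, [(0, [0], [1, 5]), (0, [1], [2, 4]), (1, [], [3, 5]), (4, [], [0])]),
  (-72, 0, 1, [(0, [0], [1, 5]), (0, [1], [3, 4]), (1, [], [2, 5]), (4, [], [0])]),
  (72, 0, 1, [(0, [0], [2, 5]), (0, [1], [0, 1]), (1, [], [3, 5]), (4, [], [4])]),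
  (72, 0, 1, [(0, [0], [2, 5]), (0, [1], [0, 1]), (1, [], [4, 5]), (4, [], [3])]),
  (-72, 0, 1, [(0, [0], [2, 5]), (0, [1], [0, 4]), (1, [], [1, 5]), (4, [], [3])]),
  (-72, 0, 1, [(0, [0], [2, 5]), (0, [1], [0, 4]), (1, [], [3, 5]), (4, [], [1])]),
  (-72, 0, 1, [(0, [0], [2, 5]), (0, [1], [1, 3]), (1, [], [0, 5]), (4, [], [4])]),
  (-72, 0, 1, [(0, [0], [2, 5]), (0, [1], [1, 3]), (1, [], [4, 5]), (4, [], [0])]),
  (72, 0, 1, [(0, [0], [2, 5]), (0, [1], [3, 4]), (1, [], [0, 5]), (4, [], [1])]),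
  (72, 0, 1, [(0, [0], [2, 5]), (0, [1], [3, 4]), (1, [], [1, 5]), (4, [], [0])]),
  (-72, 0, 1, [(0, [0], [3, 5]), (0, [1], [0, 1]), (1, [], [2, 5]), (4, [], [4])]),
  (-72, 0, 1, [(0, [0], [3, 5]), (0, [1], [0, 2]), (1, [], [1, 5]), (4, [], [4])]),
  (72, 0, 1, [(0, [0], [3, 5]), (0, [1], [0, 2]), (1, [], [4, 5]), (4, [], [1])]),
  (72, 0, 1, [(0, [0], [3, 5]), (0, [1], [0, 4]), (1, [], [2, 5]), (4, [], [1])]),
  (-144, 0, 1, [(0, [0], [3, 5]), (0, [1], [1, 2]), (1, [], [0, 5]), (4, [], [4])]),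
  (-72, 0, 1, [(0, [0], [3, 5]), (0, [1], [1, 2]), (1, [], [4, 5]), (4, [], [0])]),
  (144, 0, 1, [(0, [0], [3, 5]), (0, [1], [2, 4]), (1, [], [0, 5]), (4, [], [1])]),
  (72, 0, 1, [(0, [0], [3, 5]), (0, [1], [2, 4]), (1, [], [1, 5]), (4, [], [0])]),
  (-72, 0, 1, [(0, [0], [4, 5]), (0, [1], [0, 1]), (1, [], [2, 5]), (4, [], [3])]),
  (-144, 0, 1, [(0, [0], [4, 5]), (0, [1], [0, 2]), (1, [], [1, 5]), (4, [], [3])]),
  (-72, 0, 1, [(0, [0], [4, 5]), (0, [1], [0, 2]), (1, [], [3, 5]), (4, [], [1])]),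
  (-72, 0, 1, [(0, [0], [4, 5]), (0, [1], [1, 2]), (1, [], [0, 5]), (4, [], [3])]),
  (72, 0, 1, [(0, [0], [4, 5]), (0, [1], [1, 2]), (1, [], [3, 5]), (4, [], [0])]),
  (72, 0, 1, [(0, [0], [4, 5]), (0, [1], [1, 3]), (1, [], [2, 5]), (4, [], [0])]),
  (72, 0, 1, [(0, [0], [4, 5]), (0, [1], [2, 3]), (1, [], [0, 5]), (4, [], [1])]),
  (144, 0, 1, [(0, [0], [4, 5]), (0, [1], [2, 3]), (1, [], [1, 5]), (4, [], [0])]),
  (-144, 0, 1, [(0, [1], [0, 5]), (0, [0], [1, 2]), (1, [], [3, 5]), (4, [], [4])]),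
  (-72, 0, 1, [(0, [1], [0, 5]), (0, [0], [1, 2]), (1, [], [4, 5]), (4, [], [3])]),
  (-72, 0, 1, [(0, [1], [0, 5]), (0, [0], [1, 3]), (1, [], [2, 5]), (4, [], [4])]),
  (-72, 0, 1, [(0, [1], [0, 5]), (0, [0], [2, 3]), (1, [], [1, 5]), (4, [], [4])]),
  (72, 0, 1, [(0, [1], [0, 5]), (0, [0], [2, 3]), (1, [], [4, 5]), (4, [], [1])]),
  (72, 0, 1, [(0, [1], [0, 5]), (0, [0], [2, 4]), (1, [], [1, 5]), (4, [], [3])]),
  (144, 0, 1, [(0, [1], [0, 5]), (0, [0], [2, 4]), (1, [], [3, 5]), (4, [], [1])]),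
  (72, 0, 1, [(0, [1], [0, 5]), (0, [0], [3, 4]), (1, [], [2, 5]), (4, [], [1])]),
  (-72, 0, 1, [(0, [1], [1, 5]), (0, [0], [0, 2]), (1, [], [3, 5]), (4, [], [4])]),
  (-144, 0, 1, [(0, [1], [1, 5]), (0, [0], [0, 2]), (1, [], [4, 5]), (4, [], [3])]),
  (-72, 0, 1, [(0, [1], [1, 5]), (0, [0], [0, 4]), (1, [], [2, 5]), (4, [], [3])]),
  (72, 0, 1, [(0, [1], [1, 5]), (0, [0], [2, 3]), (1, [], [0, 5]), (4, [], [4])]),
  (144, 0, 1, [(0, [1], [1, 5]), (0, [0], [2, 3]), (1, [], [4, 5]), (4, [], [0])]),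
  (-72, 0, 1, [(0, [1], [1, 5]), (0, [0], [2, 4]), (1, [], [0, 5]), (4, [], [3])]),
  (72, 0, 1, [(0, [1], [1, 5]), (0, [0], [2, 4]), (1, [], [3, 5]), (4, [], [0])]),
  (72, 0, 1, [(0, [1], [1, 5]), (0, [0], [3, 4]), (1, [], [2, 5]), (4, [], [0])]),
  (-72, 0, 1, [(0, [1], [2, 5]), (0, [0], [0, 1]), (1, [], [3, 5]), (4, [], [4])]),
  (-72, 0, 1, [(0, [1], [2, 5]), (0, [0], [0, 1]), (1, [], [4, 5]), (4, [], [3])]),
  (72, 0, 1, [(0, [1], [2, 5]), (0, [0], [0, 4]), (1, [], [1, 5]), (4, [], [3])]),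
  (72, 0, 1, [(0, [1], [2, 5]), (0, [0], [0, 4]), (1, [], [3, 5]), (4, [], [1])]),
  (72, 0, 1, [(0, [1], [2, 5]), (0, [0], [1, 3]), (1, [], [0, 5]), (4, [], [4])]),
  (72, 0, 1, [(0, [1], [2, 5]), (0, [0], [1, 3]), (1, [], [4, 5]), (4, [], [0])]),
  (-72, 0, 1, [(0, [1], [2, 5]), (0, [0], [3, 4]), (1, [], [0, 5]), (4, [], [1])]),
  (-72, 0, 1, [(0, [1], [2, 5]), (0, [0], [3, 4]), (1, [], [1, 5]), (4, [], [0])]),
  (72, 0, 1, [(0, [1], [3, 5]), (0, [0], [0, 1]), (1, [], [2, 5]), (4, [], [4])]),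
  (72, 0, 1, [(0, [1], [3, 5]), (0, [0], [0, 2]), (1, [], [1, 5]), (4, [], [4])]),
  (-72, 0, 1, [(0, [1], [3, 5]), (0, [0], [0, 2]), (1, [], [4, 5]), (4, [], [1])]),
  (-72, 0, 1, [(0, [1], [3, 5]), (0, [0], [0, 4]), (1, [], [2, 5]), (4, [], [1])]),
  (144, 0, 1, [(0, [1], [3, 5]), (0, [0], [1, 2]), (1, [], [0, 5]), (4, [], [4])]),
  (72, 0, 1, [(0, [1], [3, 5]), (0, [0], [1, 2]), (1, [], [4, 5]), (4, [], [0])]),
  (-144, 0, 1, [(0, [1], [3, 5]), (0, [0], [2, 4]), (1, [], [0, 5]), (4, [], [1])]),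
  (-72, 0, 1, [(0, [1], [3, 5]), (0, [0], [2, 4]), (1, [], [1, 5]), (4, [], [0])]),
  (72, 0, 1, [(0, [1], [4, 5]), (0, [0], [0, 1]), (1, [], [2, 5]), (4, [], [3])]),
  (144, 0, 1, [(0, [1], [4, 5]), (0, [0], [0, 2]), (1, [], [1, 5]), (4, [], [3])]),
  (72, 0, 1, [(0, [1], [4, 5]), (0, [0], [0, 2]), (1, [], [3, 5]), (4, [], [1])]),
  (72, 0, 1, [(0, [1], [4, 5]), (0, [0], [1, 2]), (1, [], [0, 5]), (4, [], [3])]),
  (-72, 0, 1, [(0, [1], [4, 5]), (0, [0], [1, 2]), (1, [], [3, 5]), (4, [], [0])]),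
  (-72, 0, 1, [(0, [1], [4, 5]), (0, [0], [1, 3]), (1, [], [2, 5]), (4, [], [0])]),
  (-72, 0, 1, [(0, [1], [4, 5]), (0, [0], [2, 3]), (1, [], [0, 5]), (4, [], [1])]),
  (-144, 0, 1, [(0, [1], [4, 5]), (0, [0], [2, 3]), (1, [], [1, 5]), (4, [], [0])])]

def z60_1 : Cov := [(0, 0, 1, [(0, [0], [0, 5]), (0, [1], [1, 3]), (1, [], [4, 5]), (4, [], [2])]),
  (0, 0, 1, [(0, [0], [0, 5]), (0, [1], [1, 4]), (1, [], [2, 5]), (4, [], [3])]),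
  (0, 0, 1, [(0, [0], [0, 5]), (0, [1], [1, 4]), (1, [], [3, 5]), (4, [], [2])]),
  (0, 0, 1, [(0, [0], [0, 5]), (0, [1], [3, 4]), (1, [], [1, 5]), (4, [], [2])]),
  (0, 0, 1, [(0, [0], [1, 5]), (0, [1], [0, 3]), (1, [], [2, 5]), (4, [], [4])]),
  (0, 0, 1, [(0, [0], [1, 5]), (0, [1], [0, 3]), (1, [], [4, 5]), (4, [], [2])]),
  (0, 0, 1, [(0, [0], [1, 5]), (0, [1], [0, 4]), (1, [], [3, 5]), (4, [], [2])]),
  (0, 0, 1, [(0, [0], [1, 5]), (0, [1], [3, 4]), (1, [], [0, 5]), (4, [], [2])]),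
  (0, 0, 1, [(0, [0], [2, 5]), (0, [1], [0, 3]), (1, [], [1, 5]), (4, [], [4])]),
  (0, 0, 1, [(0, [0], [2, 5]), (0, [1], [0, 3]), (1, [], [4, 5]), (4, [], [1])]),
  (0, 0, 1, [(0, [0], [2, 5]), (0, [1], [1, 4]), (1, [], [0, 5]), (4, [], [3])]),
  (0, 0, 1, [(0, [0], [2, 5]), (0, [1], [1, 4]), (1, [], [3, 5]), (4, [], [0])]),
  (0, 0, 1, [(0, [0], [3, 5]), (0, [1], [0, 1]), (1, [], [4, 5]), (4, [], [2])]),
  (0, 0, 1, [(0, [0], [3, 5]), (0, [1], [0, 4]), (1, [], [1, 5]), (4, [], [2])]),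
  (0, 0, 1, [(0, [0], [3, 5]), (0, [1], [1, 4]), (1, [], [0, 5]), (4, [], [2])]),
  (0, 0, 1, [(0, [0], [3, 5]), (0, [1], [1, 4]), (1, [], [2, 5]), (4, [], [0])]),
  (0, 0, 1, [(0, [0], [4, 5]), (0, [1], [0, 1]), (1, [], [3, 5]), (4, [], [2])]),
  (0, 0, 1, [(0, [0], [4, 5]), (0, [1], [0, 3]), (1, [], [1, 5]), (4, [], [2])]),
  (0, 0, 1, [(0, [0], [4, 5]), (0, [1], [0, 3]), (1, [], [2, 5]), (4, [], [1])]),
  (0, 0, 1, [(0, [0], [4, 5]), (0, [1], [1, 3]), (1, [], [0, 5]), (4, [], [2])]),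
  (0, 0, 1, [(0, [1], [0, 5]), (0, [0], [1, 3]), (1, [], [4, 5]), (4, [], [2])]),
  (0, 0, 1, [(0, [1], [0, 5]), (0, [0], [1, 4]), (1, [], [2, 5]), (4, [], [3])]),
  (0, 0, 1, [(0, [1], [0, 5]), (0, [0], [1, 4]), (1, [], [3, 5]), (4, [], [2])]),
  (0, 0, 1, [(0, [1], [0, 5]), (0, [0], [3, 4]), (1, [], [1, 5]), (4, [], [2])]),
  (0, 0, 1, [(0, [1], [1, 5]), (0, [0], [0, 3]), (1, [], [2, 5]), (4, [], [4])]),
  (0, 0, 1, [(0, [1], [1, 5]), (0, [0], [0, 3]), (1, [], [4, 5]), (4, [], [2])]),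
  (0, 0, 1, [(0, [1], [1, 5]), (0, [0], [0, 4]), (1, [], [3, 5]), (4, [], [2])]),
  (0, 0, 1, [(0, [1], [1, 5]), (0, [0], [3, 4]), (1, [], [0, 5]), (4, [], [2])]),
  (0, 0, 1, [(0, [1], [2, 5]), (0, [0], [0, 3]), (1, [], [1, 5]), (4, [], [4])]),
  (0, 0, 1, [(0, [1], [2, 5]), (0, [0], [0, 3]), (1, [], [4, 5]), (4, [], [1])]),
  (0, 0, 1, [(0, [1], [2, 5]), (0, [0], [1, 4]), (1, [], [0, 5]), (4, [], [3])]),
  (0, 0, 1, [(0, [1], [2, 5]), (0, [0], [1, 4]), (1, [], [3, 5]), (4, [], [0])]),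
  (0, 0, 1, [(0, [1], [3, 5]), (0, [0], [0, 1]), (1, [], [4, 5]), (4, [], [2])]),
  (0, 0, 1, [(0, [1], [3, 5]), (0, [0], [0, 4]), (1, [], [1, 5]), (4, [], [2])]),
  (0, 0, 1, [(0, [1], [3, 5]), (0, [0], [1, 4]), (1, [], [0, 5]), (4, [], [2])]),
  (0, 0, 1, [(0, [1], [3, 5]), (0, [0], [1, 4]), (1, [], [2, 5]), (4, [], [0])]),
  (0, 0, 1, [(0, [1], [4, 5]), (0, [0], [0, 1]), (1, [], [3, 5]), (4, [], [2])]),
  (0, 0, 1, [(0, [1], [4, 5]), (0, [0], [0, 3]), (1, [], [1, 5]), (4, [], [2])]),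
  (0, 0, 1, [(0, [1], [4, 5]), (0, [0], [0, 3]), (1, [], [2, 5]), (4, [], [1])]),
  (0, 0, 1, [(0, [1], [4, 5]), (0, [0], [1, 3]), (1, [], [0, 5]), (4, [], [2])])]

def w60_1 : List (List Wit) := [[(0, 0, 0, 0, 0), (1, 0, 0, 0, 0), (2, 0, 0, 0, 0), (80, 0, 0, 0, 0), (81, 0, 0, 0, 0), (82, 0, 0, 0, 0), (0, 0, 0, 0, 0), (1, 0, 0, 0, 0), (3, 0, 0, 0, 0), (4, 0, 0, 0, 0), (5, 0, 0, 0, 0), (6, 0, 0, 0, 0), (2, 0, 0, 0, 0), (80, 0, 0, 0, 0), (3, 0, 0, 0, 0), (4, 0, 0, 0, 0), (83, 0, 0, 0, 0), (7, 0, 0, 0, 0), (81, 0, 0, 0, 0), (82, 0, 0, 0, 0), (5, 0, 0, 0, 0), (6, 0, 0, 0, 0), (83, 0, 0, 0, 0), (7, 0, 0, 0, 0), (8, 0, 0, 0, 0), (9, 0, 0, 0, 0), (84, 0, 0, 0, 0), (85, 0, 0, 0, 0), (10, 0, 0, 0, 0), (86, 0, 0, 0, 0), (8, 0, 0, 0, 0), (9, 0, 0, 0, 0), (11, 0, 0, 0, 0), (12, 0, 0, 0, 0), (13, 0, 0, 0, 0), (14, 0, 0, 0, 0), (84, 0, 0, 0, 0), (85, 0, 0, 0, 0), (11, 0,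 0, 0, 0), (12, 0, 0, 0, 0), (87, 0, 0, 0, 0), (15, 0, 0, 0, 0), (10, 0, 0, 0, 0), (86, 0, 0, 0, 0), (13, 0, 0, 0, 0), (14, 0, 0, 0, 0), (87, 0, 0, 0, 0), (15, 0, 0, 0, 0), (16, 0, 0, 0, 0), (17, 0, 0, 0, 0), (88, 0, 0, 0, 0), (89, 0, 0, 0, 0), (18, 0, 0, 0, 0), (19, 0, 0, 0, 0), (16, 0, 0, 0, 0), (17, 0, 0, 0, 0), (20, 0, 0, 0, 0), (21, 0, 0, 0, 0), (90, 0, 0, 0, 0), (91, 0, 0, 0, 0), (88, 0, 0, 0, 0), (89, 0, 0, 0, 0), (20, 0, 0, 0, 0), (21, 0, 0, 0, 0), (22, 0, 0, 0, 0), (23, 0, 0, 0, 0), (18, 0, 0, 0, 0), (19, 0, 0, 0, 0), (90, 0, 0, 0, 0), (91, 0, 0, 0, 0), (22, 0, 0, 0, 0), (23, 0, 0, 0, 0), (24, 0, 0, 0, 0), (92, 0, 0, 0, 0), (25, 0, 0, 0, 0), (26, 0, 0, 0, 0), (93, 0, 0, 0, 0), (27, 0, 0, 0, 0), (24, 0, 0, 0, 0), (92, 0, 0, 0, 0), (28, 0, 0, 0, 0), (29, 0, 0, 0, 0), (94, 0, 0, 0, 0), (95, 0, 0, 0, 0), (25, 0, 0, 0, 0), (26, 0, 0, 0, 0), (28, 0, 0, 0,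 0), (29, 0, 0, 0, 0), (30, 0, 0, 0, 0), (31, 0, 0, 0, 0), (93, 0, 0, 0, 0), (27, 0, 0, 0, 0), (94, 0, 0, 0, 0), (95, 0, 0, 0, 0), (30, 0, 0, 0, 0), (31, 0, 0, 0, 0), (32, 0, 0, 0, 0), (96, 0, 0, 0, 0), (33, 0, 0, 0, 0), (34, 0, 0, 0, 0), (97, 0, 0, 0, 0), (98, 0, 0, 0, 0), (32, 0, 0, 0, 0), (96, 0, 0, 0, 0), (35, 0, 0, 0, 0), (36, 0, 0, 0, 0), (99, 0, 0, 0, 0), (37, 0, 0, 0, 0), (33, 0, 0, 0, 0), (34, 0, 0, 0, 0), (35, 0, 0, 0, 0), (36, 0, 0, 0, 0), (38, 0, 0, 0, 0), (39, 0, 0, 0, 0), (97, 0, 0, 0, 0), (98, 0, 0, 0, 0), (99, 0, 0, 0, 0), (37, 0, 0, 0, 0), (38, 0, 0, 0, 0), (39, 0, 0, 0, 0)],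
  [(40, 0, 0, 0, 0), (41, 0, 0, 0, 0), (42, 0, 0, 0, 0), (100, 0, 0, 0, 0), (101, 0, 0, 0, 0), (102, 0, 0, 0, 0), (40, 0, 0, 0, 0), (41, 0, 0, 0, 0), (43, 0, 0, 0, 0), (44, 0, 0, 0, 0), (45, 0, 0, 0, 0), (46, 0, 0, 0, 0), (42, 0, 0, 0, 0), (100, 0, 0, 0, 0), (43, 0, 0, 0, 0), (44, 0, 0, 0, 0), (103, 0, 0, 0, 0), (47, 0, 0, 0, 0), (101, 0, 0, 0, 0), (102, 0, 0, 0, 0), (45, 0, 0, 0, 0), (46, 0, 0, 0, 0), (103, 0, 0, 0, 0), (47, 0, 0, 0, 0), (48, 0, 0, 0, 0), (49, 0, 0, 0, 0), (104, 0, 0, 0, 0), (105, 0, 0, 0, 0), (50, 0, 0, 0, 0), (106, 0, 0, 0, 0), (48, 0, 0, 0, 0), (49, 0, 0, 0, 0), (51, 0, 0, 0, 0), (52, 0, 0, 0, 0), (53, 0, 0, 0, 0), (54, 0, 0, 0, 0), (104, 0, 0, 0, 0), (105, 0, 0, 0, 0), (51, 0, 0, 0, 0), (52, 0, 0, 0, 0), (107, 0, 0, 0, 0), (55, 0, 0, 0, 0), (50, 0, 0, 0, 0), (106, 0, 0, 0, 0), (53, 0, 0, 0, 0), (54, 0, 0, 0, 0), (107, 0, 0, 0, 0), (55,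 0, 0, 0, 0), (56, 0, 0, 0, 0), (57, 0, 0, 0, 0), (108, 0, 0, 0, 0), (109, 0, 0, 0, 0), (58, 0, 0, 0, 0), (59, 0, 0, 0, 0), (56, 0, 0, 0, 0), (57, 0, 0, 0, 0), (60, 0, 0, 0, 0), (61, 0, 0, 0, 0), (110, 0, 0, 0, 0), (111, 0, 0, 0, 0), (108, 0, 0, 0, 0), (109, 0, 0, 0, 0), (60, 0, 0, 0, 0), (61, 0, 0, 0, 0), (62, 0, 0, 0, 0), (63, 0, 0, 0, 0), (58, 0, 0, 0, 0), (59, 0, 0, 0, 0), (110, 0, 0, 0, 0), (111, 0, 0, 0, 0), (62, 0, 0, 0, 0), (63, 0, 0, 0, 0), (64, 0, 0, 0, 0), (112, 0, 0, 0, 0), (65, 0, 0, 0, 0), (66, 0, 0, 0, 0), (113, 0, 0, 0, 0), (67, 0, 0, 0, 0), (64, 0, 0, 0, 0), (112, 0, 0, 0, 0), (68, 0, 0, 0, 0), (69, 0, 0, 0, 0), (114, 0, 0, 0, 0), (115, 0, 0, 0, 0), (65, 0, 0, 0, 0), (66, 0, 0, 0, 0), (68, 0, 0, 0, 0), (69, 0, 0, 0, 0), (70, 0, 0, 0, 0), (71, 0, 0, 0, 0), (113, 0, 0, 0, 0), (67, 0, 0, 0, 0), (114, 0, 0, 0, 0), (115, 0, 0, 0, 0), (70, 0, 0, 0,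 0), (71, 0, 0, 0, 0), (72, 0, 0, 0, 0), (116, 0, 0, 0, 0), (73, 0, 0, 0, 0), (74, 0, 0, 0, 0), (117, 0, 0, 0, 0), (118, 0, 0, 0, 0), (72, 0, 0, 0, 0), (116, 0, 0, 0, 0), (75, 0, 0, 0, 0), (76, 0, 0, 0, 0), (119, 0, 0, 0, 0), (77, 0, 0, 0, 0), (73, 0, 0, 0, 0), (74, 0, 0, 0, 0), (75, 0, 0, 0, 0), (76, 0, 0, 0, 0), (78, 0, 0, 0, 0), (79, 0, 0, 0, 0), (117, 0, 0, 0, 0), (118, 0, 0, 0, 0), (119, 0, 0, 0, 0), (77, 0, 0, 0, 0), (78, 0, 0, 0, 0), (79, 0, 0, 0, 0)]]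

def m60_2 : Base := (0, 1, [(0, [0], [0, 5]), (0, [1], [1, 2]), (1, [], [3, 4]), (4, [], [5])])

def l60_2 : Cov := [(216, 0, 1, [(0, [0], [0, 5]), (0, [1], [1, 2]), (1, [], [3, 4]), (4, [], [5])]),
  (72, 0, 1, [(0, [0], [0, 5]), (0, [1], [1, 3]), (1, [], [2, 4]), (4, [], [5])]),
  (-216, 0, 1, [(0, [0], [0, 5]), (0, [1], [2, 4]), (1, [], [1, 3]), (4, [], [5])]),
  (-72, 0, 1, [(0, [0], [0, 5]), (0, [1], [3, 4]), (1, [], [1, 2]), (4, [], [5])]),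
  (216, 0, 1, [(0, [0], [1, 5]), (0, [1], [0, 2]), (1, [], [3, 4]), (4, [], [5])]),
  (72, 0, 1, [(0, [0], [1, 5]), (0, [1], [0, 4]), (1, [], [2, 3]), (4, [], [5])]),
  (-216, 0, 1, [(0, [0], [1, 5]), (0, [1], [2, 3]), (1, [], [0, 4]), (4, [], [5])]),
  (-72, 0, 1, [(0, [0], [1, 5]), (0, [1], [3, 4]), (1, [], [0, 2]), (4, [], [5])]),
  (144, 0, 1, [(0, [0], [2, 5]), (0, [1], [0, 1]), (1, [], [3, 4]), (4, [], [5])]),
  (-144, 0, 1, [(0, [0], [2, 5]), (0, [1], [0, 4]), (1, [], [1, 3]), (4, [], [5])]),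
  (-144, 0, 1, [(0, [0], [2, 5]), (0, [1], [1, 3]), (1, [], [0, 4]), (4, [], [5])]),
  (144, 0, 1, [(0, [0], [2, 5]), (0, [1], [3, 4]), (1, [], [0, 1]), (4, [], [5])]),
  (-72, 0, 1, [(0, [0], [3, 5]), (0, [1], [0, 1]), (1, [], [2, 4]), (4, [], [5])]),
  (72, 0, 1, [(0, [0], [3, 5]), (0, [1], [0, 4]), (1, [], [1, 2]), (4, [], [5])]),
  (-216, 0, 1, [(0, [0], [3, 5]), (0, [1], [1, 2]), (1, [], [0, 4]), (4, [], [5])]),
  (216, 0, 1, [(0, [0], [3, 5]), (0, [1], [2, 4]), (1, [], [0, 1]), (4, [], [5])]),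
  (-72, 0, 1, [(0, [0], [4, 5]), (0, [1], [0, 1]), (1, [], [2, 3]), (4, [], [5])]),
  (-216, 0, 1, [(0, [0], [4, 5]), (0, [1], [0, 2]), (1, [], [1, 3]), (4, [], [5])]),
  (72, 0, 1, [(0, [0], [4, 5]), (0, [1], [1, 3]), (1, [], [0, 2]), (4, [], [5])]),
  (216, 0, 1, [(0, [0], [4, 5]), (0, [1], [2, 3]), (1, [], [0, 1]), (4, [], [5])]),
  (-216, 0, 1, [(0, [1], [0, 5]), (0, [0], [1, 2]), (1, [], [3, 4]), (4, [], [5])]),
  (-72, 0, 1, [(0, [1], [0, 5]), (0, [0], [1, 3]), (1, [], [2, 4]), (4, [], [5])]),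
  (216, 0, 1, [(0, [1], [0, 5]), (0, [0], [2, 4]), (1, [], [1, 3]), (4, [], [5])]),
  (72, 0, 1, [(0, [1], [0, 5]), (0, [0], [3, 4]), (1, [], [1, 2]), (4, [], [5])]),
  (-216, 0, 1, [(0, [1], [1, 5]), (0, [0], [0, 2]), (1, [], [3, 4]), (4, [], [5])]),
  (-72, 0, 1, [(0, [1], [1, 5]), (0, [0], [0, 4]), (1, [], [2, 3]), (4, [], [5])]),
  (216, 0, 1, [(0, [1], [1, 5]), (0, [0], [2, 3]), (1, [], [0, 4]), (4, [], [5])]),
  (72, 0, 1, [(0, [1], [1, 5]), (0, [0], [3, 4]), (1, [], [0, 2]), (4, [], [5])]),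
  (-144, 0, 1, [(0, [1], [2, 5]), (0, [0], [0, 1]), (1, [], [3, 4]), (4, [], [5])]),
  (144, 0, 1, [(0, [1], [2, 5]), (0, [0], [0, 4]), (1, [], [1, 3]), (4, [], [5])]),
  (144, 0, 1, [(0, [1], [2, 5]), (0, [0], [1, 3]), (1, [], [0, 4]), (4, [], [5])]),
  (-144, 0, 1, [(0, [1], [2, 5]), (0, [0], [3, 4]), (1, [], [0, 1]), (4, [], [5])]),
  (72, 0, 1, [(0, [1], [3, 5]), (0, [0], [0, 1]), (1, [], [2, 4]), (4, [], [5])]),
  (-72, 0, 1, [(0, [1], [3, 5]), (0, [0], [0, 4]), (1, [], [1, 2]), (4, [], [5])]),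
  (216, 0, 1, [(0, [1], [3, 5]), (0, [0], [1, 2]), (1, [], [0, 4]), (4, [], [5])]),
  (-216, 0, 1, [(0, [1], [3, 5]), (0, [0], [2, 4]), (1, [], [0, 1]), (4, [], [5])]),
  (72, 0, 1, [(0, [1], [4, 5]), (0, [0], [0, 1]), (1, [], [2, 3]), (4, [], [5])]),
  (216, 0, 1, [(0, [1], [4, 5]), (0, [0], [0, 2]), (1, [], [1, 3]), (4, [], [5])]),
  (-72, 0, 1, [(0, [1], [4, 5]), (0, [0], [1, 3]), (1, [], [0, 2]), (4, [], [5])]),
  (-216, 0, 1, [(0, [1], [4, 5]), (0, [0], [2, 3]), (1, [], [0, 1]), (4, [], [5])])]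

def z60_2 : Cov := [(0, 0, 1, [(0, [0], [0, 5]), (0, [1], [1, 4]), (1, [], [2, 3]), (4, [], [5])]),
  (0, 0, 1, [(0, [0], [0, 5]), (0, [1], [2, 3]), (1, [], [1, 4]), (4, [], [5])]),
  (0, 0, 1, [(0, [0], [1, 5]), (0, [1], [0, 3]), (1, [], [2, 4]), (4, [], [5])]),
  (0, 0, 1, [(0, [0], [1, 5]), (0, [1], [2, 4]), (1, [], [0, 3]), (4, [], [5])]),
  (0, 0, 1, [(0, [0], [2, 5]), (0, [1], [0, 3]), (1, [], [1, 4]), (4, [], [5])]),
  (0, 0, 1, [(0, [0], [2, 5]), (0, [1], [1, 4]), (1, [], [0, 3]), (4, [], [5])]),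
  (0, 0, 1, [(0, [0], [3, 5]), (0, [1], [0, 2]), (1, [], [1, 4]), (4, [], [5])]),
  (0, 0, 1, [(0, [0], [3, 5]), (0, [1], [1, 4]), (1, [], [0, 2]), (4, [], [5])]),
  (0, 0, 1, [(0, [0], [4, 5]), (0, [1], [0, 3]), (1, [], [1, 2]), (4, [], [5])]),
  (0, 0, 1, [(0, [0], [4, 5]), (0, [1], [1, 2]), (1, [], [0, 3]), (4, [], [5])]),
  (0, 0, 1, [(0, [1], [0, 5]), (0, [0], [1, 4]), (1, [], [2, 3]), (4, [], [5])]),
  (0, 0, 1, [(0, [1], [0, 5]), (0, [0], [2, 3]), (1, [], [1, 4]), (4, [], [5])]),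
  (0, 0, 1, [(0, [1], [1, 5]), (0, [0], [0, 3]), (1, [], [2, 4]), (4, [], [5])]),
  (0, 0, 1, [(0, [1], [1, 5]), (0, [0], [2, 4]), (1, [], [0, 3]), (4, [], [5])]),
  (0, 0, 1, [(0, [1], [2, 5]), (0, [0], [0, 3]), (1, [], [1, 4]), (4, [], [5])]),
  (0, 0, 1, [(0, [1], [2, 5]), (0, [0], [1, 4]), (1, [], [0, 3]), (4, [], [5])]),
  (0, 0, 1, [(0, [1], [3, 5]), (0, [0], [0, 2]), (1, [], [1, 4]), (4, [], [5])]),
  (0, 0, 1, [(0, [1], [3, 5]), (0, [0], [1, 4]), (1, [], [0, 2]), (4, [], [5])]),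
  (0, 0, 1, [(0, [1], [4, 5]), (0, [0], [0, 3]), (1, [], [1, 2]), (4, [], [5])]),
  (0, 0, 1, [(0, [1], [4, 5]), (0, [0], [1, 2]), (1, [], [0, 3]), (4, [], [5])])]

def w60_2 : List (List Wit) := [[(0, 0, 0, 0, 0), (0, 0, 0, 0, 0), (1, 0, 0, 0, 0), (1, 0, 0, 0, 0), (40, 0, 0, 0, 0), (40, 0, 0, 0, 0), (0, 0, 0, 0, 0), (0, 0, 0, 0, 0), (41, 0, 0, 0, 0), (41, 0, 0, 0, 0), (2, 0, 0, 0, 0), (2, 0, 0, 0, 0), (1, 0, 0, 0, 0), (1, 0, 0, 0, 0), (41, 0, 0, 0, 0), (41, 0, 0, 0, 0), (3, 0, 0, 0, 0), (3, 0, 0, 0, 0), (40, 0, 0, 0, 0), (40, 0, 0, 0, 0), (2, 0, 0, 0, 0), (2, 0, 0, 0, 0), (3, 0, 0, 0, 0), (3, 0, 0, 0, 0), (4, 0, 0, 0, 0), (4, 0, 0, 0, 0), (42, 0, 0, 0, 0), (42, 0, 0, 0, 0), (5, 0, 0, 0, 0), (5, 0, 0, 0, 0), (4, 0, 0, 0, 0), (4, 0, 0, 0, 0), (6, 0, 0, 0, 0), (6, 0, 0, 0, 0), (43, 0, 0, 0, 0), (43, 0, 0, 0, 0), (42, 0, 0, 0, 0), (42, 0, 0, 0, 0), (6, 0, 0, 0,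 0), (6, 0, 0, 0, 0), (7, 0, 0, 0, 0), (7, 0, 0, 0, 0), (5, 0, 0, 0, 0), (5, 0, 0, 0, 0), (43, 0, 0, 0, 0), (43, 0, 0, 0, 0), (7, 0, 0, 0, 0), (7, 0, 0, 0, 0), (8, 0, 0, 0, 0), (8, 0, 0, 0, 0), (44, 0, 0, 0, 0), (44, 0, 0, 0, 0), (9, 0, 0, 0, 0), (9, 0, 0, 0, 0), (8, 0, 0, 0, 0), (8, 0, 0, 0, 0), (10, 0, 0, 0, 0), (10, 0, 0, 0, 0), (45, 0, 0, 0, 0), (45, 0, 0, 0, 0), (44, 0, 0, 0, 0), (44, 0, 0, 0, 0), (10, 0, 0, 0, 0), (10, 0, 0, 0, 0), (11, 0, 0, 0, 0), (11, 0, 0, 0, 0), (9, 0, 0, 0, 0), (9, 0, 0, 0, 0), (45, 0, 0, 0, 0), (45, 0, 0, 0, 0), (11, 0, 0, 0, 0), (11, 0, 0, 0, 0), (12, 0, 0, 0, 0), (12, 0, 0, 0, 0), (46, 0, 0, 0, 0), (46, 0, 0, 0, 0), (13, 0, 0, 0, 0), (13, 0, 0, 0, 0), (12, 0, 0, 0, 0), (12, 0, 0, 0, 0), (14, 0, 0, 0, 0), (14, 0, 0, 0, 0), (47, 0, 0, 0, 0), (47, 0, 0, 0, 0), (46, 0, 0, 0, 0), (46, 0, 0, 0, 0), (14, 0, 0, 0, 0), (14, 0, 0, 0, 0),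 (15, 0, 0, 0, 0), (15, 0, 0, 0, 0), (13, 0, 0, 0, 0), (13, 0, 0, 0, 0), (47, 0, 0, 0, 0), (47, 0, 0, 0, 0), (15, 0, 0, 0, 0), (15, 0, 0, 0, 0), (16, 0, 0, 0, 0), (16, 0, 0, 0, 0), (17, 0, 0, 0, 0), (17, 0, 0, 0, 0), (48, 0, 0, 0, 0), (48, 0, 0, 0, 0), (16, 0, 0, 0, 0), (16, 0, 0, 0, 0), (49, 0, 0, 0, 0), (49, 0, 0, 0, 0), (18, 0, 0, 0, 0), (18, 0, 0, 0, 0), (17, 0, 0, 0, 0), (17, 0, 0, 0, 0), (49, 0, 0, 0, 0), (49, 0, 0, 0, 0), (19, 0, 0, 0, 0), (19, 0, 0, 0, 0), (48, 0, 0, 0, 0), (48, 0, 0, 0, 0), (18, 0, 0, 0, 0), (18, 0, 0, 0, 0), (19, 0, 0, 0, 0), (19, 0, 0, 0, 0)],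
  [(20, 0, 0, 0, 0), (20, 0, 0, 0, 0), (21, 0, 0, 0, 0), (21, 0, 0, 0, 0), (50, 0, 0, 0, 0), (50, 0, 0, 0, 0), (20, 0, 0, 0, 0), (20, 0, 0, 0, 0), (51, 0, 0, 0, 0), (51, 0, 0, 0, 0), (22, 0, 0, 0, 0), (22, 0, 0, 0, 0), (21, 0, 0, 0, 0), (21, 0, 0, 0, 0), (51, 0, 0, 0, 0), (51, 0, 0, 0, 0), (23, 0, 0, 0, 0), (23, 0, 0, 0, 0), (50, 0, 0, 0, 0), (50, 0, 0, 0, 0), (22, 0, 0, 0, 0), (22, 0, 0, 0, 0), (23, 0, 0, 0, 0), (23, 0, 0, 0, 0), (24, 0, 0, 0, 0), (24, 0, 0, 0, 0), (52, 0, 0, 0, 0), (52, 0, 0, 0, 0), (25, 0, 0, 0, 0), (25, 0, 0, 0, 0), (24, 0, 0, 0, 0), (24, 0, 0, 0, 0), (26, 0, 0, 0, 0), (26, 0, 0, 0, 0), (53, 0, 0, 0, 0), (53, 0, 0, 0, 0), (52, 0, 0, 0, 0), (52, 0, 0, 0, 0), (26, 0, 0, 0, 0), (26, 0, 0, 0, 0), (27, 0, 0, 0, 0), (27, 0, 0, 0, 0), (25, 0, 0, 0, 0), (25, 0, 0, 0, 0), (53, 0, 0, 0, 0), (53, 0, 0, 0, 0), (27, 0, 0, 0, 0), (27, 0, 0, 0, 0), (28,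 0, 0, 0, 0), (28, 0, 0, 0, 0), (54, 0, 0, 0, 0), (54, 0, 0, 0, 0), (29, 0, 0, 0, 0), (29, 0, 0, 0, 0), (28, 0, 0, 0, 0), (28, 0, 0, 0, 0), (30, 0, 0, 0, 0), (30, 0, 0, 0, 0), (55, 0, 0, 0, 0), (55, 0, 0, 0, 0), (54, 0, 0, 0, 0), (54, 0, 0, 0, 0), (30, 0, 0, 0, 0), (30, 0, 0, 0, 0), (31, 0, 0, 0, 0), (31, 0, 0, 0, 0), (29, 0, 0, 0, 0), (29, 0, 0, 0, 0), (55, 0, 0, 0, 0), (55, 0, 0, 0, 0), (31, 0, 0, 0, 0), (31, 0, 0, 0, 0), (32, 0, 0, 0, 0), (32, 0, 0, 0, 0), (56, 0, 0, 0, 0), (56, 0, 0, 0, 0), (33, 0, 0, 0, 0), (33, 0, 0, 0, 0), (32, 0, 0, 0, 0), (32, 0, 0, 0, 0), (34, 0, 0, 0, 0), (34, 0, 0, 0, 0), (57, 0, 0, 0, 0), (57, 0, 0, 0, 0), (56, 0, 0, 0, 0), (56, 0, 0, 0, 0), (34, 0, 0, 0, 0), (34, 0, 0, 0, 0), (35, 0, 0, 0, 0), (35, 0, 0, 0, 0), (33, 0, 0, 0, 0), (33, 0, 0, 0, 0), (57, 0, 0, 0, 0), (57, 0, 0, 0, 0), (35, 0, 0, 0, 0), (35, 0, 0, 0, 0), (36, 0, 0,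 0, 0), (36, 0, 0, 0, 0), (37, 0, 0, 0, 0), (37, 0, 0, 0, 0), (58, 0, 0, 0, 0), (58, 0, 0, 0, 0), (36, 0, 0, 0, 0), (36, 0, 0, 0, 0), (59, 0, 0, 0, 0), (59, 0, 0, 0, 0), (38, 0, 0, 0, 0), (38, 0, 0, 0, 0), (37, 0, 0, 0, 0), (37, 0, 0, 0, 0), (59, 0, 0, 0, 0), (59, 0, 0, 0, 0), (39, 0, 0, 0, 0), (39, 0, 0, 0, 0), (58, 0, 0, 0, 0), (58, 0, 0, 0, 0), (38, 0, 0, 0, 0), (38, 0, 0, 0, 0), (39, 0, 0, 0, 0), (39, 0, 0, 0, 0)]]

def m60_3 : Base := (0, 1, [(0, [0], [0, 5]), (0, [1], [1, 2]), (1, [], [4, 5]), (4, [], [3])])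

def l60_3 : Cov := [(144, 0, 1, [(0, [0], [0, 5]), (0, [1], [1, 2]), (1, [], [4, 5]), (4, [], [3])]),
  (72, 0, 1, [(0, [0], [0, 5]), (0, [1], [1, 2]), (1, [], [3, 5]), (4, [], [4])]),
  (72, 0, 1, [(0, [0], [0, 5]), (0, [1], [1, 3]), (1, [], [4, 5]), (4, [], [2])]),
  (72, 0, 1, [(0, [0], [0, 5]), (0, [1], [2, 3]), (1, [], [4, 5]), (4, [], [1])]),
  (-72, 0, 1, [(0, [0], [0, 5]), (0, [1], [2, 3]), (1, [], [1, 5]), (4, [], [4])]),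
  (-72, 0, 1, [(0, [0], [0, 5]), (0, [1], [2, 4]), (1, [], [3, 5]), (4, [], [1])]),
  (-144, 0, 1, [(0, [0], [0, 5]), (0, [1], [2, 4]), (1, [], [1, 5]), (4, [], [3])]),
  (-72, 0, 1, [(0, [0], [0, 5]), (0, [1], [3, 4]), (1, [], [1, 5]), (4, [], [2])]),
  (72, 0, 1, [(0, [0], [1, 5]), (0, [1], [0, 2]), (1, [], [4, 5]), (4, [], [3])]),
  (144, 0, 1, [(0, [0], [1, 5]), (0, [1], [0, 2]), (1, [], [3, 5]), (4, [], [4])]),
  (72, 0, 1, [(0, [0], [1, 5]), (0, [1], [0, 4]), (1, [], [3, 5]), (4, [], [2])]),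
  (-72, 0, 1, [(0, [0], [1, 5]), (0, [1], [2, 3]), (1, [], [4, 5]), (4, [], [0])]),
  (-144, 0, 1, [(0, [0], [1, 5]), (0, [1], [2, 3]), (1, [], [0, 5]), (4, [], [4])]),
  (72, 0, 1, [(0, [0], [1, 5]), (0, [1], [2, 4]), (1, [], [3, 5]), (4, [], [0])]),
  (-72, 0, 1, [(0, [0], [1, 5]), (0, [1], [2, 4]), (1, [], [0, 5]), (4, [], [3])]),
  (-72, 0, 1, [(0, [0], [1, 5]), (0, [1], [3, 4]), (1, [], [0, 5]), (4, [], [2])]),
  (72, 0, 1, [(0, [0], [2, 5]), (0, [1], [0, 1]), (1, [], [4, 5]), (4, [], [3])]),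
  (72, 0, 1, [(0, [0], [2, 5]), (0, [1], [0, 1]), (1, [], [3, 5]), (4, [], [4])]),
  (-72, 0, 1, [(0, [0], [2, 5]), (0, [1], [0, 4]), (1, [], [3, 5]), (4, [], [1])]),
  (-72, 0, 1, [(0, [0], [2, 5]), (0, [1], [0, 4]), (1, [], [1, 5]), (4, [], [3])]),
  (-72, 0, 1, [(0, [0], [2, 5]), (0, [1], [1, 3]), (1, [], [4, 5]), (4, [], [0])]),
  (-72, 0, 1, [(0, [0], [2, 5]), (0, [1], [1, 3]), (1, [], [0, 5]), (4, [], [4])]),
  (72, 0, 1, [(0, [0], [2, 5]), (0, [1], [3, 4]), (1, [], [1, 5]), (4, [], [0])]),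
  (72, 0, 1, [(0, [0], [2, 5]), (0, [1], [3, 4]), (1, [], [0, 5]), (4, [], [1])]),
  (-72, 0, 1, [(0, [0], [3, 5]), (0, [1], [0, 1]), (1, [], [4, 5]), (4, [], [2])]),
  (-72, 0, 1, [(0, [0], [3, 5]), (0, [1], [0, 2]), (1, [], [4, 5]), (4, [], [1])]),
  (72, 0, 1, [(0, [0], [3, 5]), (0, [1], [0, 2]), (1, [], [1, 5]), (4, [], [4])]),
  (72, 0, 1, [(0, [0], [3, 5]), (0, [1], [0, 4]), (1, [], [1, 5]), (4, [], [2])]),
  (-144, 0, 1, [(0, [0], [3, 5]), (0, [1], [1, 2]), (1, [], [4, 5]), (4, [], [0])]),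
  (-72, 0, 1, [(0, [0], [3, 5]), (0, [1], [1, 2]), (1, [], [0, 5]), (4, [], [4])]),
  (144, 0, 1, [(0, [0], [3, 5]), (0, [1], [2, 4]), (1, [], [1, 5]), (4, [], [0])]),
  (72, 0, 1, [(0, [0], [3, 5]), (0, [1], [2, 4]), (1, [], [0, 5]), (4, [], [1])]),
  (-72, 0, 1, [(0, [0], [4, 5]), (0, [1], [0, 1]), (1, [], [3, 5]), (4, [], [2])]),
  (-144, 0, 1, [(0, [0], [4, 5]), (0, [1], [0, 2]), (1, [], [3, 5]), (4, [], [1])]),
  (-72, 0, 1, [(0, [0], [4, 5]), (0, [1], [0, 2]), (1, [], [1, 5]), (4, [], [3])]),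
  (-72, 0, 1, [(0, [0], [4, 5]), (0, [1], [1, 2]), (1, [], [3, 5]), (4, [], [0])]),
  (72, 0, 1, [(0, [0], [4, 5]), (0, [1], [1, 2]), (1, [], [0, 5]), (4, [], [3])]),
  (72, 0, 1, [(0, [0], [4, 5]), (0, [1], [1, 3]), (1, [], [0, 5]), (4, [], [2])]),
  (72, 0, 1, [(0, [0], [4, 5]), (0, [1], [2, 3]), (1, [], [1, 5]), (4, [], [0])]),
  (144, 0, 1, [(0, [0], [4, 5]), (0, [1], [2, 3]), (1, [], [0, 5]), (4, [], [1])]),
  (-144, 0, 1, [(0, [1], [0, 5]), (0, [0], [1, 2]), (1, [], [4, 5]), (4, [], [3])]),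
  (-72, 0, 1, [(0, [1], [0, 5]), (0, [0], [1, 2]), (1, [], [3, 5]), (4, [], [4])]),
  (-72, 0, 1, [(0, [1], [0, 5]), (0, [0], [1, 3]), (1, [], [4, 5]), (4, [], [2])]),
  (-72, 0, 1, [(0, [1], [0, 5]), (0, [0], [2, 3]), (1, [], [4, 5]), (4, [], [1])]),
  (72, 0, 1, [(0, [1], [0, 5]), (0, [0], [2, 3]), (1, [], [1, 5]), (4, [], [4])]),
  (72, 0, 1, [(0, [1], [0, 5]), (0, [0], [2, 4]), (1, [], [3, 5]), (4, [], [1])]),
  (144, 0, 1, [(0, [1], [0, 5]), (0, [0], [2, 4]), (1, [], [1, 5]), (4, [], [3])]),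
  (72, 0, 1, [(0, [1], [0, 5]), (0, [0], [3, 4]), (1, [], [1, 5]), (4, [], [2])]),
  (-72, 0, 1, [(0, [1], [1, 5]), (0, [0], [0, 2]), (1, [], [4, 5]), (4, [], [3])]),
  (-144, 0, 1, [(0, [1], [1, 5]), (0, [0], [0, 2]), (1, [], [3, 5]), (4, [], [4])]),
  (-72, 0, 1, [(0, [1], [1, 5]), (0, [0], [0, 4]), (1, [], [3, 5]), (4, [], [2])]),
  (72, 0, 1, [(0, [1], [1, 5]), (0, [0], [2, 3]), (1, [], [4, 5]), (4, [], [0])]),
  (144, 0, 1, [(0, [1], [1, 5]), (0, [0], [2, 3]), (1, [], [0, 5]), (4, [], [4])]),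
  (-72, 0, 1, [(0, [1], [1, 5]), (0, [0], [2, 4]), (1, [], [3, 5]), (4, [], [0])]),
  (72, 0, 1, [(0, [1], [1, 5]), (0, [0], [2, 4]), (1, [], [0, 5]), (4, [], [3])]),
  (72, 0, 1, [(0, [1], [1, 5]), (0, [0], [3, 4]), (1, [], [0, 5]), (4, [], [2])]),
  (-72, 0, 1, [(0, [1], [2, 5]), (0, [0], [0, 1]), (1, [], [4, 5]), (4, [], [3])]),
  (-72, 0, 1, [(0, [1], [2, 5]), (0, [0], [0, 1]), (1, [], [3, 5]), (4, [], [4])]),
  (72, 0, 1, [(0, [1], [2, 5]), (0, [0], [0, 4]), (1, [], [3, 5]), (4, [], [1])]),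
  (72, 0, 1, [(0, [1], [2, 5]), (0, [0], [0, 4]), (1, [], [1, 5]), (4, [], [3])]),
  (72, 0, 1, [(0, [1], [2, 5]), (0, [0], [1, 3]), (1, [], [4, 5]), (4, [], [0])]),
  (72, 0, 1, [(0, [1], [2, 5]), (0, [0], [1, 3]), (1, [], [0, 5]), (4, [], [4])]),
  (-72, 0, 1, [(0, [1], [2, 5]), (0, [0], [3, 4]), (1, [], [1, 5]), (4, [], [0])]),
  (-72, 0, 1, [(0, [1], [2, 5]), (0, [0], [3, 4]), (1, [], [0, 5]), (4, [], [1])]),
  (72, 0, 1, [(0, [1], [3, 5]), (0, [0], [0, 1]), (1, [], [4, 5]), (4, [], [2])]),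
  (72, 0, 1, [(0, [1], [3, 5]), (0, [0], [0, 2]), (1, [], [4, 5]), (4, [], [1])]),
  (-72, 0, 1, [(0, [1], [3, 5]), (0, [0], [0, 2]), (1, [], [1, 5]), (4, [], [4])]),
  (-72, 0, 1, [(0, [1], [3, 5]), (0, [0], [0, 4]), (1, [], [1, 5]), (4, [], [2])]),
  (144, 0, 1, [(0, [1], [3, 5]), (0, [0], [1, 2]), (1, [], [4, 5]), (4, [], [0])]),
  (72, 0, 1, [(0, [1], [3, 5]), (0, [0], [1, 2]), (1, [], [0, 5]), (4, [], [4])]),
  (-144, 0, 1, [(0, [1], [3, 5]), (0, [0], [2, 4]), (1, [], [1, 5]), (4, [], [0])]),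
  (-72, 0, 1, [(0, [1], [3, 5]), (0, [0], [2, 4]), (1, [], [0, 5]), (4, [], [1])]),
  (72, 0, 1, [(0, [1], [4, 5]), (0, [0], [0, 1]), (1, [], [3, 5]), (4, [], [2])]),
  (144, 0, 1, [(0, [1], [4, 5]), (0, [0], [0, 2]), (1, [], [3, 5]), (4, [], [1])]),
  (72, 0, 1, [(0, [1], [4, 5]), (0, [0], [0, 2]), (1, [], [1, 5]), (4, [], [3])]),
  (72, 0, 1, [(0, [1], [4, 5]), (0, [0], [1, 2]), (1, [], [3, 5]), (4, [], [0])]),
  (-72, 0, 1, [(0, [1], [4, 5]), (0, [0], [1, 2]), (1, [], [0, 5]), (4, [], [3])]),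
  (-72, 0, 1, [(0, [1], [4, 5]), (0, [0], [1, 3]), (1, [], [0, 5]), (4, [], [2])]),
  (-72, 0, 1, [(0, [1], [4, 5]), (0, [0], [2, 3]), (1, [], [1, 5]), (4, [], [0])]),
  (-144, 0, 1, [(0, [1], [4, 5]), (0, [0], [2, 3]), (1, [], [0, 5]), (4, [], [1])])]

def z60_3 : Cov := [(0, 0, 1, [(0, [0], [0, 5]), (0, [1], [1, 3]), (1, [], [2, 5]), (4, [], [4])]),
  (0, 0, 1, [(0, [0], [0, 5]), (0, [1], [1, 4]), (1, [], [3, 5]), (4, [], [2])]),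
  (0, 0, 1, [(0, [0], [0, 5]), (0, [1], [1, 4]), (1, [], [2, 5]), (4, [], [3])]),
  (0, 0, 1, [(0, [0], [0, 5]), (0, [1], [3, 4]), (1, [], [2, 5]), (4, [], [1])]),
  (0, 0, 1, [(0, [0], [1, 5]), (0, [1], [0, 3]), (1, [], [4, 5]), (4, [], [2])]),
  (0, 0, 1, [(0, [0], [1, 5]), (0, [1], [0, 3]), (1, [], [2, 5]), (4, [], [4])]),
  (0, 0, 1, [(0, [0], [1, 5]), (0, [1], [0, 4]), (1, [], [2, 5]), (4, [], [3])]),
  (0, 0, 1, [(0, [0], [1, 5]), (0, [1], [3, 4]), (1, [], [2, 5]), (4, [], [0])]),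
  (0, 0, 1, [(0, [0], [2, 5]), (0, [1], [0, 3]), (1, [], [4, 5]), (4, [], [1])]),
  (0, 0, 1, [(0, [0], [2, 5]), (0, [1], [0, 3]), (1, [], [1, 5]), (4, [], [4])]),
  (0, 0, 1, [(0, [0], [2, 5]), (0, [1], [1, 4]), (1, [], [3, 5]), (4, [], [0])]),
  (0, 0, 1, [(0, [0], [2, 5]), (0, [1], [1, 4]), (1, [], [0, 5]), (4, [], [3])]),
  (0, 0, 1, [(0, [0], [3, 5]), (0, [1], [0, 1]), (1, [], [2, 5]), (4, [], [4])]),
  (0, 0, 1, [(0, [0], [3, 5]), (0, [1], [0, 4]), (1, [], [2, 5]), (4, [], [1])]),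
  (0, 0, 1, [(0, [0], [3, 5]), (0, [1], [1, 4]), (1, [], [2, 5]), (4, [], [0])]),
  (0, 0, 1, [(0, [0], [3, 5]), (0, [1], [1, 4]), (1, [], [0, 5]), (4, [], [2])]),
  (0, 0, 1, [(0, [0], [4, 5]), (0, [1], [0, 1]), (1, [], [2, 5]), (4, [], [3])]),
  (0, 0, 1, [(0, [0], [4, 5]), (0, [1], [0, 3]), (1, [], [2, 5]), (4, [], [1])]),
  (0, 0, 1, [(0, [0], [4, 5]), (0, [1], [0, 3]), (1, [], [1, 5]), (4, [], [2])]),
  (0, 0, 1, [(0, [0], [4, 5]), (0, [1], [1, 3]), (1, [], [2, 5]), (4, [], [0])]),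
  (0, 0, 1, [(0, [1], [0, 5]), (0, [0], [1, 3]), (1, [], [2, 5]), (4, [], [4])]),
  (0, 0, 1, [(0, [1], [0, 5]), (0, [0], [1, 4]), (1, [], [3, 5]), (4, [], [2])]),
  (0, 0, 1, [(0, [1], [0, 5]), (0, [0], [1, 4]), (1, [], [2, 5]), (4, [], [3])]),
  (0, 0, 1, [(0, [1], [0, 5]), (0, [0], [3, 4]), (1, [], [2, 5]), (4, [], [1])]),
  (0, 0, 1, [(0, [1], [1, 5]), (0, [0], [0, 3]), (1, [], [4, 5]), (4, [], [2])]),
  (0, 0, 1, [(0, [1], [1, 5]), (0, [0], [0, 3]), (1, [], [2, 5]), (4, [], [4])]),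
  (0, 0, 1, [(0, [1], [1, 5]), (0, [0], [0, 4]), (1, [], [2, 5]), (4, [], [3])]),
  (0, 0, 1, [(0, [1], [1, 5]), (0, [0], [3, 4]), (1, [], [2, 5]), (4, [], [0])]),
  (0, 0, 1, [(0, [1], [2, 5]), (0, [0], [0, 3]), (1, [], [4, 5]), (4, [], [1])]),
  (0, 0, 1, [(0, [1], [2, 5]), (0, [0], [0, 3]), (1, [], [1, 5]), (4, [], [4])]),
  (0, 0, 1, [(0, [1], [2, 5]), (0, [0], [1, 4]), (1, [], [3, 5]), (4, [], [0])]),
  (0, 0, 1, [(0, [1], [2, 5]), (0, [0], [1, 4]), (1, [], [0, 5]), (4, [], [3])]),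
  (0, 0, 1, [(0, [1], [3, 5]), (0, [0], [0, 1]), (1, [], [2, 5]), (4, [], [4])]),
  (0, 0, 1, [(0, [1], [3, 5]), (0, [0], [0, 4]), (1, [], [2, 5]), (4, [], [1])]),
  (0, 0, 1, [(0, [1], [3, 5]), (0, [0], [1, 4]), (1, [], [2, 5]), (4, [], [0])]),
  (0, 0, 1, [(0, [1], [3, 5]), (0, [0], [1, 4]), (1, [], [0, 5]), (4, [], [2])]),
  (0, 0, 1, [(0, [1], [4, 5]), (0, [0], [0, 1]), (1, [], [2, 5]), (4, [], [3])]),
  (0, 0, 1, [(0, [1], [4, 5]), (0, [0], [0, 3]), (1, [], [2, 5]), (4, [], [1])]),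
  (0, 0, 1, [(0, [1], [4, 5]), (0, [0], [0, 3]), (1, [], [1, 5]), (4, [], [2])]),
  (0, 0, 1, [(0, [1], [4, 5]), (0, [0], [1, 3]), (1, [], [2, 5]), (4, [], [0])])]

def w60_3 : List (List Wit) := [[(0, 0, 0, 0, 0), (1, 0, 0, 0, 0), (2, 0, 0, 0, 0), (80, 0, 0, 0, 0), (81, 0, 0, 0, 0), (82, 0, 0, 0, 0), (0, 0, 0, 0, 0), (1, 0, 0, 0, 0), (3, 0, 0, 0, 0), (4, 0, 0, 0, 0), (5, 0, 0, 0, 0), (6, 0, 0, 0, 0), (2, 0, 0, 0, 0), (80, 0, 0, 0, 0), (3, 0, 0, 0, 0), (4, 0, 0, 0, 0), (83, 0, 0, 0, 0), (7, 0, 0, 0, 0), (81, 0, 0, 0, 0), (82, 0, 0, 0, 0), (5, 0, 0, 0, 0), (6, 0, 0, 0, 0), (83, 0, 0, 0, 0), (7, 0, 0, 0, 0), (8, 0, 0, 0, 0), (9, 0, 0, 0, 0), (84, 0, 0, 0, 0), (85, 0, 0, 0, 0), (10, 0, 0, 0, 0), (86, 0, 0, 0, 0), (8, 0, 0, 0, 0), (9, 0, 0, 0, 0), (11, 0, 0, 0, 0), (12, 0, 0, 0, 0), (13, 0, 0, 0, 0), (14, 0, 0, 0, 0), (84, 0, 0, 0, 0), (85, 0, 0, 0, 0), (11, 0,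 0, 0, 0), (12, 0, 0, 0, 0), (87, 0, 0, 0, 0), (15, 0, 0, 0, 0), (10, 0, 0, 0, 0), (86, 0, 0, 0, 0), (13, 0, 0, 0, 0), (14, 0, 0, 0, 0), (87, 0, 0, 0, 0), (15, 0, 0, 0, 0), (16, 0, 0, 0, 0), (17, 0, 0, 0, 0), (88, 0, 0, 0, 0), (89, 0, 0, 0, 0), (18, 0, 0, 0, 0), (19, 0, 0, 0, 0), (16, 0, 0, 0, 0), (17, 0, 0, 0, 0), (20, 0, 0, 0, 0), (21, 0, 0, 0, 0), (90, 0, 0, 0, 0), (91, 0, 0, 0, 0), (88, 0, 0, 0, 0), (89, 0, 0, 0, 0), (20, 0, 0, 0, 0), (21, 0, 0, 0, 0), (22, 0, 0, 0, 0), (23, 0, 0, 0, 0), (18, 0, 0, 0, 0), (19, 0, 0, 0, 0), (90, 0, 0, 0, 0), (91, 0, 0, 0, 0), (22, 0, 0, 0, 0), (23, 0, 0, 0, 0), (24, 0, 0, 0, 0), (92, 0, 0, 0, 0), (25, 0, 0, 0, 0), (26, 0, 0, 0, 0), (93, 0, 0, 0, 0), (27, 0, 0, 0, 0), (24, 0, 0, 0, 0), (92, 0, 0, 0, 0), (28, 0, 0, 0, 0), (29, 0, 0, 0, 0), (94, 0, 0, 0, 0), (95, 0, 0, 0, 0), (25, 0, 0, 0, 0), (26, 0, 0, 0, 0), (28, 0, 0, 0,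 0), (29, 0, 0, 0, 0), (30, 0, 0, 0, 0), (31, 0, 0, 0, 0), (93, 0, 0, 0, 0), (27, 0, 0, 0, 0), (94, 0, 0, 0, 0), (95, 0, 0, 0, 0), (30, 0, 0, 0, 0), (31, 0, 0, 0, 0), (32, 0, 0, 0, 0), (96, 0, 0, 0, 0), (33, 0, 0, 0, 0), (34, 0, 0, 0, 0), (97, 0, 0, 0, 0), (98, 0, 0, 0, 0), (32, 0, 0, 0, 0), (96, 0, 0, 0, 0), (35, 0, 0, 0, 0), (36, 0, 0, 0, 0), (99, 0, 0, 0, 0), (37, 0, 0, 0, 0), (33, 0, 0, 0, 0), (34, 0, 0, 0, 0), (35, 0, 0, 0, 0), (36, 0, 0, 0, 0), (38, 0, 0, 0, 0), (39, 0, 0, 0, 0), (97, 0, 0, 0, 0), (98, 0, 0, 0, 0), (99, 0, 0, 0, 0), (37, 0, 0, 0, 0), (38, 0, 0, 0, 0), (39, 0, 0, 0, 0)],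
  [(40, 0, 0, 0, 0), (41, 0, 0, 0, 0), (42, 0, 0, 0, 0), (100, 0, 0, 0, 0), (101, 0, 0, 0, 0), (102, 0, 0, 0, 0), (40, 0, 0, 0, 0), (41, 0, 0, 0, 0), (43, 0, 0, 0, 0), (44, 0, 0, 0, 0), (45, 0, 0, 0, 0), (46, 0, 0, 0, 0), (42, 0, 0, 0, 0), (100, 0, 0, 0, 0), (43, 0, 0, 0, 0), (44, 0, 0, 0, 0), (103, 0, 0, 0, 0), (47, 0, 0, 0, 0), (101, 0, 0, 0, 0), (102, 0, 0, 0, 0), (45, 0, 0, 0, 0), (46, 0, 0, 0, 0), (103, 0, 0, 0, 0), (47, 0, 0, 0, 0), (48, 0, 0, 0, 0), (49, 0, 0, 0, 0), (104, 0, 0, 0, 0), (105, 0, 0, 0, 0), (50, 0, 0, 0, 0), (106, 0, 0, 0, 0), (48, 0, 0, 0, 0), (49, 0, 0, 0, 0), (51, 0, 0, 0, 0), (52, 0, 0, 0, 0), (53, 0, 0, 0, 0), (54, 0, 0, 0, 0), (104, 0, 0, 0, 0), (105, 0, 0, 0, 0), (51, 0, 0, 0, 0), (52, 0, 0, 0, 0), (107, 0, 0, 0, 0), (55, 0, 0, 0, 0), (50, 0, 0, 0, 0), (106, 0, 0, 0, 0), (53, 0, 0, 0, 0), (54, 0, 0, 0, 0), (107, 0, 0, 0, 0), (55,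 0, 0, 0, 0), (56, 0, 0, 0, 0), (57, 0, 0, 0, 0), (108, 0, 0, 0, 0), (109, 0, 0, 0, 0), (58, 0, 0, 0, 0), (59, 0, 0, 0, 0), (56, 0, 0, 0, 0), (57, 0, 0, 0, 0), (60, 0, 0, 0, 0), (61, 0, 0, 0, 0), (110, 0, 0, 0, 0), (111, 0, 0, 0, 0), (108, 0, 0, 0, 0), (109, 0, 0, 0, 0), (60, 0, 0, 0, 0), (61, 0, 0, 0, 0), (62, 0, 0, 0, 0), (63, 0, 0, 0, 0), (58, 0, 0, 0, 0), (59, 0, 0, 0, 0), (110, 0, 0, 0, 0), (111, 0, 0, 0, 0), (62, 0, 0, 0, 0), (63, 0, 0, 0, 0), (64, 0, 0, 0, 0), (112, 0, 0, 0, 0), (65, 0, 0, 0, 0), (66, 0, 0, 0, 0), (113, 0, 0, 0, 0), (67, 0, 0, 0, 0), (64, 0, 0, 0, 0), (112, 0, 0, 0, 0), (68, 0, 0, 0, 0), (69, 0, 0, 0, 0), (114, 0, 0, 0, 0), (115, 0, 0, 0, 0), (65, 0, 0, 0, 0), (66, 0, 0, 0, 0), (68, 0, 0, 0, 0), (69, 0, 0, 0, 0), (70, 0, 0, 0, 0), (71, 0, 0, 0, 0), (113, 0, 0, 0, 0), (67, 0, 0, 0, 0), (114, 0, 0, 0, 0), (115, 0, 0, 0, 0), (70, 0, 0, 0,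 0), (71, 0, 0, 0, 0), (72, 0, 0, 0, 0), (116, 0, 0, 0, 0), (73, 0, 0, 0, 0), (74, 0, 0, 0, 0), (117, 0, 0, 0, 0), (118, 0, 0, 0, 0), (72, 0, 0, 0, 0), (116, 0, 0, 0, 0), (75, 0, 0, 0, 0), (76, 0, 0, 0, 0), (119, 0, 0, 0, 0), (77, 0, 0, 0, 0), (73, 0, 0, 0, 0), (74, 0, 0, 0, 0), (75, 0, 0, 0, 0), (76, 0, 0, 0, 0), (78, 0, 0, 0, 0), (79, 0, 0, 0, 0), (117, 0, 0, 0, 0), (118, 0, 0, 0, 0), (119, 0, 0, 0, 0), (77, 0, 0, 0, 0), (78, 0, 0, 0, 0), (79, 0, 0, 0, 0)]]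

def m60_4 : Base := (0, 1, [(0, [0], [0, 5]), (0, [1], [1, 3]), (1, [], [2, 5]), (4, [], [4])])

def l60_4 : Cov := [(144, 0, 1, [(0, [0], [0, 5]), (0, [1], [1, 3]), (1, [], [2, 5]), (4, [], [4])]),
  (72, 0, 1, [(0, [0], [0, 5]), (0, [1], [1, 2]), (1, [], [3, 5]), (4, [], [4])]),
  (72, 0, 1, [(0, [0], [0, 5]), (0, [1], [1, 3]), (1, [], [4, 5]), (4, [], [2])]),
  (72, 0, 1, [(0, [0], [0, 5]), (0, [1], [2, 3]), (1, [], [1, 5]), (4, [], [4])]),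
  (-72, 0, 1, [(0, [0], [0, 5]), (0, [1], [2, 4]), (1, [], [3, 5]), (4, [], [1])]),
  (-72, 0, 1, [(0, [0], [0, 5]), (0, [1], [2, 3]), (1, [], [4, 5]), (4, [], [1])]),
  (-72, 0, 1, [(0, [0], [0, 5]), (0, [1], [3, 4]), (1, [], [1, 5]), (4, [], [2])]),
  (-144, 0, 1, [(0, [0], [0, 5]), (0, [1], [3, 4]), (1, [], [2, 5]), (4, [], [1])]),
  (144, 0, 1, [(0, [0], [1, 5]), (0, [1], [0, 4]), (1, [], [2, 5]), (4, [], [3])]),
  (72, 0, 1, [(0, [0], [1, 5]), (0, [1], [0, 4]), (1, [], [3, 5]), (4, [], [2])]),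
  (72, 0, 1, [(0, [0], [1, 5]), (0, [1], [0, 2]), (1, [], [4, 5]), (4, [], [3])]),
  (72, 0, 1, [(0, [0], [1, 5]), (0, [1], [2, 4]), (1, [], [0, 5]), (4, [], [3])]),
  (-72, 0, 1, [(0, [0], [1, 5]), (0, [1], [2, 4]), (1, [], [3, 5]), (4, [], [0])]),
  (-72, 0, 1, [(0, [0], [1, 5]), (0, [1], [2, 3]), (1, [], [4, 5]), (4, [], [0])]),
  (-72, 0, 1, [(0, [0], [1, 5]), (0, [1], [3, 4]), (1, [], [0, 5]), (4, [], [2])]),
  (-144, 0, 1, [(0, [0], [1, 5]), (0, [1], [3, 4]), (1, [], [2, 5]), (4, [], [0])]),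
  (72, 0, 1, [(0, [0], [2, 5]), (0, [1], [0, 4]), (1, [], [1, 5]), (4, [], [3])]),
  (-72, 0, 1, [(0, [0], [2, 5]), (0, [1], [0, 1]), (1, [], [3, 5]), (4, [], [4])]),
  (72, 0, 1, [(0, [0], [2, 5]), (0, [1], [0, 4]), (1, [], [3, 5]), (4, [], [1])]),
  (-72, 0, 1, [(0, [0], [2, 5]), (0, [1], [0, 1]), (1, [], [4, 5]), (4, [], [3])]),
  (72, 0, 1, [(0, [0], [2, 5]), (0, [1], [1, 3]), (1, [], [0, 5]), (4, [], [4])]),
  (72, 0, 1, [(0, [0], [2, 5]), (0, [1], [1, 3]), (1, [], [4, 5]), (4, [], [0])]),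
  (-72, 0, 1, [(0, [0], [2, 5]), (0, [1], [3, 4]), (1, [], [0, 5]), (4, [], [1])]),
  (-72, 0, 1, [(0, [0], [2, 5]), (0, [1], [3, 4]), (1, [], [1, 5]), (4, [], [0])]),
  (-72, 0, 1, [(0, [0], [3, 5]), (0, [1], [0, 2]), (1, [], [1, 5]), (4, [], [4])]),
  (72, 0, 1, [(0, [0], [3, 5]), (0, [1], [0, 4]), (1, [], [1, 5]), (4, [], [2])]),
  (-144, 0, 1, [(0, [0], [3, 5]), (0, [1], [0, 1]), (1, [], [2, 5]), (4, [], [4])]),
  (144, 0, 1, [(0, [0], [3, 5]), (0, [1], [0, 4]), (1, [], [2, 5]), (4, [], [1])]),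
  (-72, 0, 1, [(0, [0], [3, 5]), (0, [1], [0, 1]), (1, [], [4, 5]), (4, [], [2])]),
  (72, 0, 1, [(0, [0], [3, 5]), (0, [1], [0, 2]), (1, [], [4, 5]), (4, [], [1])]),
  (-72, 0, 1, [(0, [0], [3, 5]), (0, [1], [1, 2]), (1, [], [0, 5]), (4, [], [4])]),
  (72, 0, 1, [(0, [0], [3, 5]), (0, [1], [2, 4]), (1, [], [0, 5]), (4, [], [1])]),
  (-72, 0, 1, [(0, [0], [4, 5]), (0, [1], [0, 2]), (1, [], [1, 5]), (4, [], [3])]),
  (-144, 0, 1, [(0, [0], [4, 5]), (0, [1], [0, 1]), (1, [], [2, 5]), (4, [], [3])]),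
  (-72, 0, 1, [(0, [0], [4, 5]), (0, [1], [0, 1]), (1, [], [3, 5]), (4, [], [2])]),
  (-72, 0, 1, [(0, [0], [4, 5]), (0, [1], [1, 2]), (1, [], [0, 5]), (4, [], [3])]),
  (72, 0, 1, [(0, [0], [4, 5]), (0, [1], [1, 3]), (1, [], [0, 5]), (4, [], [2])]),
  (144, 0, 1, [(0, [0], [4, 5]), (0, [1], [1, 3]), (1, [], [2, 5]), (4, [], [0])]),
  (72, 0, 1, [(0, [0], [4, 5]), (0, [1], [1, 2]), (1, [], [3, 5]), (4, [], [0])]),
  (72, 0, 1, [(0, [0], [4, 5]), (0, [1], [2, 3]), (1, [], [1, 5]), (4, [], [0])]),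
  (-144, 0, 1, [(0, [1], [0, 5]), (0, [0], [1, 3]), (1, [], [2, 5]), (4, [], [4])]),
  (-72, 0, 1, [(0, [1], [0, 5]), (0, [0], [1, 2]), (1, [], [3, 5]), (4, [], [4])]),
  (-72, 0, 1, [(0, [1], [0, 5]), (0, [0], [1, 3]), (1, [], [4, 5]), (4, [], [2])]),
  (-72, 0, 1, [(0, [1], [0, 5]), (0, [0], [2, 3]), (1, [], [1, 5]), (4, [], [4])]),
  (72, 0, 1, [(0, [1], [0, 5]), (0, [0], [2, 4]), (1, [], [3, 5]), (4, [], [1])]),
  (72, 0, 1, [(0, [1], [0, 5]), (0, [0], [2, 3]), (1, [], [4, 5]), (4, [], [1])]),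
  (72, 0, 1, [(0, [1], [0, 5]), (0, [0], [3, 4]), (1, [], [1, 5]), (4, [], [2])]),
  (144, 0, 1, [(0, [1], [0, 5]), (0, [0], [3, 4]), (1, [], [2, 5]), (4, [], [1])]),
  (-144, 0, 1, [(0, [1], [1, 5]), (0, [0], [0, 4]), (1, [], [2, 5]), (4, [], [3])]),
  (-72, 0, 1, [(0, [1], [1, 5]), (0, [0], [0, 4]), (1, [], [3, 5]), (4, [], [2])]),
  (-72, 0, 1, [(0, [1], [1, 5]), (0, [0], [0, 2]), (1, [], [4, 5]), (4, [], [3])]),
  (-72, 0, 1, [(0, [1], [1, 5]), (0, [0], [2, 4]), (1, [], [0, 5]), (4, [], [3])]),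
  (72, 0, 1, [(0, [1], [1, 5]), (0, [0], [2, 4]), (1, [], [3, 5]), (4, [], [0])]),
  (72, 0, 1, [(0, [1], [1, 5]), (0, [0], [2, 3]), (1, [], [4, 5]), (4, [], [0])]),
  (72, 0, 1, [(0, [1], [1, 5]), (0, [0], [3, 4]), (1, [], [0, 5]), (4, [], [2])]),
  (144, 0, 1, [(0, [1], [1, 5]), (0, [0], [3, 4]), (1, [], [2, 5]), (4, [], [0])]),
  (-72, 0, 1, [(0, [1], [2, 5]), (0, [0], [0, 4]), (1, [], [1, 5]), (4, [], [3])]),
  (72, 0, 1, [(0, [1], [2, 5]), (0, [0], [0, 1]), (1, [], [3, 5]), (4, [], [4])]),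
  (-72, 0, 1, [(0, [1], [2, 5]), (0, [0], [0, 4]), (1, [], [3, 5]), (4, [], [1])]),
  (72, 0, 1, [(0, [1], [2, 5]), (0, [0], [0, 1]), (1, [], [4, 5]), (4, [], [3])]),
  (-72, 0, 1, [(0, [1], [2, 5]), (0, [0], [1, 3]), (1, [], [0, 5]), (4, [], [4])]),
  (-72, 0, 1, [(0, [1], [2, 5]), (0, [0], [1, 3]), (1, [], [4, 5]), (4, [], [0])]),
  (72, 0, 1, [(0, [1], [2, 5]), (0, [0], [3, 4]), (1, [], [0, 5]), (4, [], [1])]),
  (72, 0, 1, [(0, [1], [2, 5]), (0, [0], [3, 4]), (1, [], [1, 5]), (4, [], [0])]),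
  (72, 0, 1, [(0, [1], [3, 5]), (0, [0], [0, 2]), (1, [], [1, 5]), (4, [], [4])]),
  (-72, 0, 1, [(0, [1], [3, 5]), (0, [0], [0, 4]), (1, [], [1, 5]), (4, [], [2])]),
  (144, 0, 1, [(0, [1], [3, 5]), (0, [0], [0, 1]), (1, [], [2, 5]), (4, [], [4])]),
  (-144, 0, 1, [(0, [1], [3, 5]), (0, [0], [0, 4]), (1, [], [2, 5]), (4, [], [1])]),
  (72, 0, 1, [(0, [1], [3, 5]), (0, [0], [0, 1]), (1, [], [4, 5]), (4, [], [2])]),
  (-72, 0, 1, [(0, [1], [3, 5]), (0, [0], [0, 2]), (1, [], [4, 5]), (4, [], [1])]),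
  (72, 0, 1, [(0, [1], [3, 5]), (0, [0], [1, 2]), (1, [], [0, 5]), (4, [], [4])]),
  (-72, 0, 1, [(0, [1], [3, 5]), (0, [0], [2, 4]), (1, [], [0, 5]), (4, [], [1])]),
  (72, 0, 1, [(0, [1], [4, 5]), (0, [0], [0, 2]), (1, [], [1, 5]), (4, [], [3])]),
  (144, 0, 1, [(0, [1], [4, 5]), (0, [0], [0, 1]), (1, [], [2, 5]), (4, [], [3])]),
  (72, 0, 1, [(0, [1], [4, 5]), (0, [0], [0, 1]), (1, [], [3, 5]), (4, [], [2])]),
  (72, 0, 1, [(0, [1], [4, 5]), (0, [0], [1, 2]), (1, [], [0, 5]), (4, [], [3])]),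
  (-72, 0, 1, [(0, [1], [4, 5]), (0, [0], [1, 3]), (1, [], [0, 5]), (4, [], [2])]),
  (-144, 0, 1, [(0, [1], [4, 5]), (0, [0], [1, 3]), (1, [], [2, 5]), (4, [], [0])]),
  (-72, 0, 1, [(0, [1], [4, 5]), (0, [0], [1, 2]), (1, [], [3, 5]), (4, [], [0])]),
  (-72, 0, 1, [(0, [1], [4, 5]), (0, [0], [2, 3]), (1, [], [1, 5]), (4, [], [0])])]

def z60_4 : Cov := [(0, 0, 1, [(0, [0], [0, 5]), (0, [1], [1, 4]), (1, [], [2, 5]), (4, [], [3])]),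
  (0, 0, 1, [(0, [0], [0, 5]), (0, [1], [1, 4]), (1, [], [3, 5]), (4, [], [2])]),
  (0, 0, 1, [(0, [0], [0, 5]), (0, [1], [1, 2]), (1, [], [4, 5]), (4, [], [3])]),
  (0, 0, 1, [(0, [0], [0, 5]), (0, [1], [2, 4]), (1, [], [1, 5]), (4, [], [3])]),
  (0, 0, 1, [(0, [0], [1, 5]), (0, [1], [0, 3]), (1, [], [2, 5]), (4, [], [4])]),
  (0, 0, 1, [(0, [0], [1, 5]), (0, [1], [0, 2]), (1, [], [3, 5]), (4, [], [4])]),
  (0, 0, 1, [(0, [0], [1, 5]), (0, [1], [0, 3]), (1, [], [4, 5]), (4, [], [2])]),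
  (0, 0, 1, [(0, [0], [1, 5]), (0, [1], [2, 3]), (1, [], [0, 5]), (4, [], [4])]),
  (0, 0, 1, [(0, [0], [2, 5]), (0, [1], [0, 3]), (1, [], [1, 5]), (4, [], [4])]),
  (0, 0, 1, [(0, [0], [2, 5]), (0, [1], [0, 3]), (1, [], [4, 5]), (4, [], [1])]),
  (0, 0, 1, [(0, [0], [2, 5]), (0, [1], [1, 4]), (1, [], [0, 5]), (4, [], [3])]),
  (0, 0, 1, [(0, [0], [2, 5]), (0, [1], [1, 4]), (1, [], [3, 5]), (4, [], [0])]),
  (0, 0, 1, [(0, [0], [3, 5]), (0, [1], [1, 4]), (1, [], [0, 5]), (4, [], [2])]),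
  (0, 0, 1, [(0, [0], [3, 5]), (0, [1], [1, 4]), (1, [], [2, 5]), (4, [], [0])]),
  (0, 0, 1, [(0, [0], [3, 5]), (0, [1], [1, 2]), (1, [], [4, 5]), (4, [], [0])]),
  (0, 0, 1, [(0, [0], [3, 5]), (0, [1], [2, 4]), (1, [], [1, 5]), (4, [], [0])]),
  (0, 0, 1, [(0, [0], [4, 5]), (0, [1], [0, 3]), (1, [], [1, 5]), (4, [], [2])]),
  (0, 0, 1, [(0, [0], [4, 5]), (0, [1], [0, 3]), (1, [], [2, 5]), (4, [], [1])]),
  (0, 0, 1, [(0, [0], [4, 5]), (0, [1], [0, 2]), (1, [], [3, 5]), (4, [], [1])]),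
  (0, 0, 1, [(0, [0], [4, 5]), (0, [1], [2, 3]), (1, [], [0, 5]), (4, [], [1])]),
  (0, 0, 1, [(0, [1], [0, 5]), (0, [0], [1, 4]), (1, [], [2, 5]), (4, [], [3])]),
  (0, 0, 1, [(0, [1], [0, 5]), (0, [0], [1, 4]), (1, [], [3, 5]), (4, [], [2])]),
  (0, 0, 1, [(0, [1], [0, 5]), (0, [0], [1, 2]), (1, [], [4, 5]), (4, [], [3])]),
  (0, 0, 1, [(0, [1], [0, 5]), (0, [0], [2, 4]), (1, [], [1, 5]), (4, [], [3])]),
  (0, 0, 1, [(0, [1], [1, 5]), (0, [0], [0, 3]), (1, [], [2, 5]), (4, [], [4])]),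
  (0, 0, 1, [(0, [1], [1, 5]), (0, [0], [0, 2]), (1, [], [3, 5]), (4, [], [4])]),
  (0, 0, 1, [(0, [1], [1, 5]), (0, [0], [0, 3]), (1, [], [4, 5]), (4, [], [2])]),
  (0, 0, 1, [(0, [1], [1, 5]), (0, [0], [2, 3]), (1, [], [0, 5]), (4, [], [4])]),
  (0, 0, 1, [(0, [1], [2, 5]), (0, [0], [0, 3]), (1, [], [1, 5]), (4, [], [4])]),
  (0, 0, 1, [(0, [1], [2, 5]), (0, [0], [0, 3]), (1, [], [4, 5]), (4, [], [1])]),
  (0, 0, 1, [(0, [1], [2, 5]), (0, [0], [1, 4]), (1, [], [0, 5]), (4, [], [3])]),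
  (0, 0, 1, [(0, [1], [2, 5]), (0, [0], [1, 4]), (1, [], [3, 5]), (4, [], [0])]),
  (0, 0, 1, [(0, [1], [3, 5]), (0, [0], [1, 4]), (1, [], [0, 5]), (4, [], [2])]),
  (0, 0, 1, [(0, [1], [3, 5]), (0, [0], [1, 4]), (1, [], [2, 5]), (4, [], [0])]),
  (0, 0, 1, [(0, [1], [3, 5]), (0, [0], [1, 2]), (1, [], [4, 5]), (4, [], [0])]),
  (0, 0, 1, [(0, [1], [3, 5]), (0, [0], [2, 4]), (1, [], [1, 5]), (4, [], [0])]),
  (0, 0, 1, [(0, [1], [4, 5]), (0, [0], [0, 3]), (1, [], [1, 5]), (4, [], [2])]),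
  (0, 0, 1, [(0, [1], [4, 5]), (0, [0], [0, 3]), (1, [], [2, 5]), (4, [], [1])]),
  (0, 0, 1, [(0, [1], [4, 5]), (0, [0], [0, 2]), (1, [], [3, 5]), (4, [], [1])]),
  (0, 0, 1, [(0, [1], [4, 5]), (0, [0], [2, 3]), (1, [], [0, 5]), (4, [], [1])])]

def w60_4 : List (List Wit) := [[(0, 0, 0, 0, 0), (80, 0, 0, 0, 0), (1, 0, 0, 0, 0), (81, 0, 0, 0, 0), (82, 0, 0, 0, 0), (2, 0, 0, 0, 0), (3, 0, 0, 0, 0), (83, 0, 0, 0, 0), (1, 0, 0, 0, 0), (4, 0, 0, 0, 0), (82, 0, 0, 0, 0), (5, 0, 0, 0, 0), (3, 0, 0, 0, 0), (6, 0, 0, 0, 0), (0, 0, 0, 0, 0), (7, 0, 0, 0, 0), (2, 0, 0, 0, 0), (5, 0, 0, 0, 0), (83, 0, 0, 0, 0), (6, 0, 0, 0, 0), (80, 0, 0, 0, 0), (7, 0, 0, 0, 0), (81, 0, 0, 0, 0), (4, 0, 0, 0, 0), (84, 0, 0, 0, 0), (8, 0, 0, 0, 0), (85, 0, 0, 0, 0), (9, 0, 0, 0, 0), (10, 0, 0, 0, 0), (86, 0, 0, 0, 0), (87, 0, 0, 0, 0), (11, 0, 0, 0, 0), (85, 0, 0, 0, 0), (12, 0, 0, 0,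 0), (10, 0, 0, 0, 0), (13, 0, 0, 0, 0), (87, 0, 0, 0, 0), (14, 0, 0, 0, 0), (84, 0, 0, 0, 0), (15, 0, 0, 0, 0), (86, 0, 0, 0, 0), (13, 0, 0, 0, 0), (11, 0, 0, 0, 0), (14, 0, 0, 0, 0), (8, 0, 0, 0, 0), (15, 0, 0, 0, 0), (9, 0, 0, 0, 0), (12, 0, 0, 0, 0), (88, 0, 0, 0, 0), (16, 0, 0, 0, 0), (17, 0, 0, 0, 0), (18, 0, 0, 0, 0), (19, 0, 0, 0, 0), (89, 0, 0, 0, 0), (20, 0, 0, 0, 0), (90, 0, 0, 0, 0), (17, 0, 0, 0, 0), (91, 0, 0, 0, 0), (19, 0, 0, 0, 0), (21, 0, 0, 0, 0), (20, 0, 0, 0, 0), (22, 0, 0, 0, 0), (88, 0, 0, 0, 0), (23, 0, 0, 0, 0), (89, 0, 0, 0, 0), (21, 0, 0, 0, 0), (90, 0, 0, 0, 0), (22, 0, 0, 0, 0), (16, 0, 0, 0, 0), (23, 0, 0, 0, 0), (18, 0, 0, 0, 0), (91, 0, 0, 0, 0), (24, 0, 0, 0, 0), (25, 0, 0, 0, 0), (26, 0, 0, 0, 0), (27, 0, 0, 0, 0), (28, 0, 0, 0, 0), (29, 0, 0, 0, 0), (30, 0, 0, 0, 0), (92, 0, 0, 0, 0), (26, 0, 0, 0, 0), (93, 0, 0, 0, 0), (28,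 0, 0, 0, 0), (94, 0, 0, 0, 0), (30, 0, 0, 0, 0), (31, 0, 0, 0, 0), (24, 0, 0, 0, 0), (95, 0, 0, 0, 0), (29, 0, 0, 0, 0), (94, 0, 0, 0, 0), (92, 0, 0, 0, 0), (31, 0, 0, 0, 0), (25, 0, 0, 0, 0), (95, 0, 0, 0, 0), (27, 0, 0, 0, 0), (93, 0, 0, 0, 0), (32, 0, 0, 0, 0), (96, 0, 0, 0, 0), (33, 0, 0, 0, 0), (97, 0, 0, 0, 0), (34, 0, 0, 0, 0), (98, 0, 0, 0, 0), (35, 0, 0, 0, 0), (36, 0, 0, 0, 0), (33, 0, 0, 0, 0), (37, 0, 0, 0, 0), (34, 0, 0, 0, 0), (38, 0, 0, 0, 0), (35, 0, 0, 0, 0), (99, 0, 0, 0, 0), (32, 0, 0, 0, 0), (39, 0, 0, 0, 0), (98, 0, 0, 0, 0), (38, 0, 0, 0, 0), (36, 0, 0, 0, 0), (99, 0, 0, 0, 0), (96, 0, 0, 0, 0), (39, 0, 0, 0, 0), (97, 0, 0, 0, 0), (37, 0, 0, 0, 0)],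
  [(40, 0, 0, 0, 0), (100, 0, 0, 0, 0), (41, 0, 0, 0, 0), (101, 0, 0, 0, 0), (102, 0, 0, 0, 0), (42, 0, 0, 0, 0), (43, 0, 0, 0, 0), (103, 0, 0, 0, 0), (41, 0, 0, 0, 0), (44, 0, 0, 0, 0), (102, 0, 0, 0, 0), (45, 0, 0, 0, 0), (43, 0, 0, 0, 0), (46, 0, 0, 0, 0), (40, 0, 0, 0, 0), (47, 0, 0, 0, 0), (42, 0, 0, 0, 0), (45, 0, 0, 0, 0), (103, 0, 0, 0, 0), (46, 0, 0, 0, 0), (100, 0, 0, 0, 0), (47, 0, 0, 0, 0), (101, 0, 0, 0, 0), (44, 0, 0, 0, 0), (104, 0, 0, 0, 0), (48, 0, 0, 0, 0), (105, 0, 0, 0, 0), (49, 0, 0, 0, 0), (50, 0, 0, 0, 0), (106, 0, 0, 0, 0), (107, 0, 0, 0, 0), (51, 0, 0, 0, 0), (105, 0, 0, 0, 0), (52, 0, 0, 0, 0), (50, 0, 0, 0, 0), (53, 0, 0, 0, 0), (107, 0, 0, 0, 0), (54, 0, 0, 0, 0), (104, 0, 0, 0, 0), (55, 0, 0, 0, 0), (106, 0, 0, 0, 0), (53, 0, 0, 0, 0), (51, 0, 0, 0, 0), (54, 0, 0, 0, 0), (48, 0, 0, 0, 0), (55, 0, 0, 0, 0), (49, 0, 0, 0, 0), (52,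 0, 0, 0, 0), (108, 0, 0, 0, 0), (56, 0, 0, 0, 0), (57, 0, 0, 0, 0), (58, 0, 0, 0, 0), (59, 0, 0, 0, 0), (109, 0, 0, 0, 0), (60, 0, 0, 0, 0), (110, 0, 0, 0, 0), (57, 0, 0, 0, 0), (111, 0, 0, 0, 0), (59, 0, 0, 0, 0), (61, 0, 0, 0, 0), (60, 0, 0, 0, 0), (62, 0, 0, 0, 0), (108, 0, 0, 0, 0), (63, 0, 0, 0, 0), (109, 0, 0, 0, 0), (61, 0, 0, 0, 0), (110, 0, 0, 0, 0), (62, 0, 0, 0, 0), (56, 0, 0, 0, 0), (63, 0, 0, 0, 0), (58, 0, 0, 0, 0), (111, 0, 0, 0, 0), (64, 0, 0, 0, 0), (65, 0, 0, 0, 0), (66, 0, 0, 0, 0), (67, 0, 0, 0, 0), (68, 0, 0, 0, 0), (69, 0, 0, 0, 0), (70, 0, 0, 0, 0), (112, 0, 0, 0, 0), (66, 0, 0, 0, 0), (113, 0, 0, 0, 0), (68, 0, 0, 0, 0), (114, 0, 0, 0, 0), (70, 0, 0, 0, 0), (71, 0, 0, 0, 0), (64, 0, 0, 0, 0), (115, 0, 0, 0, 0), (69, 0, 0, 0, 0), (114, 0, 0, 0, 0), (112, 0, 0, 0, 0), (71, 0, 0, 0, 0), (65, 0, 0, 0, 0), (115, 0, 0, 0, 0), (67, 0, 0, 0,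 0), (113, 0, 0, 0, 0), (72, 0, 0, 0, 0), (116, 0, 0, 0, 0), (73, 0, 0, 0, 0), (117, 0, 0, 0, 0), (74, 0, 0, 0, 0), (118, 0, 0, 0, 0), (75, 0, 0, 0, 0), (76, 0, 0, 0, 0), (73, 0, 0, 0, 0), (77, 0, 0, 0, 0), (74, 0, 0, 0, 0), (78, 0, 0, 0, 0), (75, 0, 0, 0, 0), (119, 0, 0, 0, 0), (72, 0, 0, 0, 0), (79, 0, 0, 0, 0), (118, 0, 0, 0, 0), (78, 0, 0, 0, 0), (76, 0, 0, 0, 0), (119, 0, 0, 0, 0), (116, 0, 0, 0, 0), (79, 0, 0, 0, 0), (117, 0, 0, 0, 0), (77, 0, 0, 0, 0)]]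

def m60_5 : Base := (0, 1, [(0, [0], [0, 5]), (0, [1], [1, 3]), (1, [], [2, 4]), (4, [], [5])])

def l60_5 : Cov := [(216, 0, 1, [(0, [0], [0, 5]), (0, [1], [1, 3]), (1, [], [2, 4]), (4, [], [5])]),
  (72, 0, 1, [(0, [0], [0, 5]), (0, [1], [1, 2]), (1, [], [3, 4]), (4, [], [5])]),
  (-72, 0, 1, [(0, [0], [0, 5]), (0, [1], [2, 4]), (1, [], [1, 3]), (4, [], [5])]),
  (-216, 0, 1, [(0, [0], [0, 5]), (0, [1], [3, 4]), (1, [], [1, 2]), (4, [], [5])]),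
  (216, 0, 1, [(0, [0], [1, 5]), (0, [1], [0, 4]), (1, [], [2, 3]), (4, [], [5])]),
  (72, 0, 1, [(0, [0], [1, 5]), (0, [1], [0, 2]), (1, [], [3, 4]), (4, [], [5])]),
  (-72, 0, 1, [(0, [0], [1, 5]), (0, [1], [2, 3]), (1, [], [0, 4]), (4, [], [5])]),
  (-216, 0, 1, [(0, [0], [1, 5]), (0, [1], [3, 4]), (1, [], [0, 2]), (4, [], [5])]),
  (144, 0, 1, [(0, [0], [2, 5]), (0, [1], [0, 4]), (1, [], [1, 3]), (4, [], [5])]),
  (-144, 0, 1, [(0, [0], [2, 5]), (0, [1], [0, 1]), (1, [], [3, 4]), (4, [], [5])]),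
  (144, 0, 1, [(0, [0], [2, 5]), (0, [1], [1, 3]), (1, [], [0, 4]), (4, [], [5])]),
  (-144, 0, 1, [(0, [0], [2, 5]), (0, [1], [3, 4]), (1, [], [0, 1]), (4, [], [5])]),
  (216, 0, 1, [(0, [0], [3, 5]), (0, [1], [0, 4]), (1, [], [1, 2]), (4, [], [5])]),
  (-216, 0, 1, [(0, [0], [3, 5]), (0, [1], [0, 1]), (1, [], [2, 4]), (4, [], [5])]),
  (-72, 0, 1, [(0, [0], [3, 5]), (0, [1], [1, 2]), (1, [], [0, 4]), (4, [], [5])]),
  (72, 0, 1, [(0, [0], [3, 5]), (0, [1], [2, 4]), (1, [], [0, 1]), (4, [], [5])]),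
  (-72, 0, 1, [(0, [0], [4, 5]), (0, [1], [0, 2]), (1, [], [1, 3]), (4, [], [5])]),
  (-216, 0, 1, [(0, [0], [4, 5]), (0, [1], [0, 1]), (1, [], [2, 3]), (4, [], [5])]),
  (216, 0, 1, [(0, [0], [4, 5]), (0, [1], [1, 3]), (1, [], [0, 2]), (4, [], [5])]),
  (72, 0, 1, [(0, [0], [4, 5]), (0, [1], [2, 3]), (1, [], [0, 1]), (4, [], [5])]),
  (-216, 0, 1, [(0, [1], [0, 5]), (0, [0], [1, 3]), (1, [], [2, 4]), (4, [], [5])]),
  (-72, 0, 1, [(0, [1], [0, 5]), (0, [0], [1, 2]), (1, [], [3, 4]), (4, [], [5])]),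
  (72, 0, 1, [(0, [1], [0, 5]), (0, [0], [2, 4]), (1, [], [1, 3]), (4, [], [5])]),
  (216, 0, 1, [(0, [1], [0, 5]), (0, [0], [3, 4]), (1, [], [1, 2]), (4, [], [5])]),
  (-216, 0, 1, [(0, [1], [1, 5]), (0, [0], [0, 4]), (1, [], [2, 3]), (4, [], [5])]),
  (-72, 0, 1, [(0, [1], [1, 5]), (0, [0], [0, 2]), (1, [], [3, 4]), (4, [], [5])]),
  (72, 0, 1, [(0, [1], [1, 5]), (0, [0], [2, 3]), (1, [], [0, 4]), (4, [], [5])]),
  (216, 0, 1, [(0, [1], [1, 5]), (0, [0], [3, 4]), (1, [], [0, 2]), (4, [], [5])]),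
  (-144, 0, 1, [(0, [1], [2, 5]), (0, [0], [0, 4]), (1, [], [1, 3]), (4, [], [5])]),
  (144, 0, 1, [(0, [1], [2, 5]), (0, [0], [0, 1]), (1, [], [3, 4]), (4, [], [5])]),
  (-144, 0, 1, [(0, [1], [2, 5]), (0, [0], [1, 3]), (1, [], [0, 4]), (4, [], [5])]),
  (144, 0, 1, [(0, [1], [2, 5]), (0, [0], [3, 4]), (1, [], [0, 1]), (4, [], [5])]),
  (-216, 0, 1, [(0, [1], [3, 5]), (0, [0], [0, 4]), (1, [], [1, 2]), (4, [], [5])]),
  (216, 0, 1, [(0, [1], [3, 5]), (0, [0], [0, 1]), (1, [], [2, 4]), (4, [], [5])]),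
  (72, 0, 1, [(0, [1], [3, 5]), (0, [0], [1, 2]), (1, [], [0, 4]), (4, [], [5])]),
  (-72, 0, 1, [(0, [1], [3, 5]), (0, [0], [2, 4]), (1, [], [0, 1]), (4, [], [5])]),
  (72, 0, 1, [(0, [1], [4, 5]), (0, [0], [0, 2]), (1, [], [1, 3]), (4, [], [5])]),
  (216, 0, 1, [(0, [1], [4, 5]), (0, [0], [0, 1]), (1, [], [2, 3]), (4, [], [5])]),
  (-216, 0, 1, [(0, [1], [4, 5]), (0, [0], [1, 3]), (1, [], [0, 2]), (4, [], [5])]),
  (-72, 0, 1, [(0, [1], [4, 5]), (0, [0], [2, 3]), (1, [], [0, 1]), (4, [], [5])])]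

def z60_5 : Cov := [(0, 0, 1, [(0, [0], [0, 5]), (0, [1], [1, 4]), (1, [], [2, 3]), (4, [], [5])]),
  (0, 0, 1, [(0, [0], [0, 5]), (0, [1], [2, 3]), (1, [], [1, 4]), (4, [], [5])]),
  (0, 0, 1, [(0, [0], [1, 5]), (0, [1], [0, 3]), (1, [], [2, 4]), (4, [], [5])]),
  (0, 0, 1, [(0, [0], [1, 5]), (0, [1], [2, 4]), (1, [], [0, 3]), (4, [], [5])]),
  (0, 0, 1, [(0, [0], [2, 5]), (0, [1], [0, 3]), (1, [], [1, 4]), (4, [], [5])]),
  (0, 0, 1, [(0, [0], [2, 5]), (0, [1], [1, 4]), (1, [], [0, 3]), (4, [], [5])]),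
  (0, 0, 1, [(0, [0], [3, 5]), (0, [1], [0, 2]), (1, [], [1, 4]), (4, [], [5])]),
  (0, 0, 1, [(0, [0], [3, 5]), (0, [1], [1, 4]), (1, [], [0, 2]), (4, [], [5])]),
  (0, 0, 1, [(0, [0], [4, 5]), (0, [1], [0, 3]), (1, [], [1, 2]), (4, [], [5])]),
  (0, 0, 1, [(0, [0], [4, 5]), (0, [1], [1, 2]), (1, [], [0, 3]), (4, [], [5])]),
  (0, 0, 1, [(0, [1], [0, 5]), (0, [0], [1, 4]), (1, [], [2, 3]), (4, [], [5])]),
  (0, 0, 1, [(0, [1], [0, 5]), (0, [0], [2, 3]), (1, [], [1, 4]), (4, [], [5])]),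
  (0, 0, 1, [(0, [1], [1, 5]), (0, [0], [0, 3]), (1, [], [2, 4]), (4, [], [5])]),
  (0, 0, 1, [(0, [1], [1, 5]), (0, [0], [2, 4]), (1, [], [0, 3]), (4, [], [5])]),
  (0, 0, 1, [(0, [1], [2, 5]), (0, [0], [0, 3]), (1, [], [1, 4]), (4, [], [5])]),
  (0, 0, 1, [(0, [1], [2, 5]), (0, [0], [1, 4]), (1, [], [0, 3]), (4, [], [5])]),
  (0, 0, 1, [(0, [1], [3, 5]), (0, [0], [0, 2]), (1, [], [1, 4]), (4, [], [5])]),
  (0, 0, 1, [(0, [1], [3, 5]), (0, [0], [1, 4]), (1, [], [0, 2]), (4, [], [5])]),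
  (0, 0, 1, [(0, [1], [4, 5]), (0, [0], [0, 3]), (1, [], [1, 2]), (4, [], [5])]),
  (0, 0, 1, [(0, [1], [4, 5]), (0, [0], [1, 2]), (1, [], [0, 3]), (4, [], [5])])]

def w60_5 : List (List Wit) := [[(0, 0, 0, 0, 0), (40, 0, 0, 0, 0), (1, 0, 0, 0, 0), (40, 0, 0, 0, 0), (1, 0, 0, 0, 0), (0, 0, 0, 0, 0), (41, 0, 0, 0, 0), (2, 0, 0, 0, 0), (1, 0, 0, 0, 0), (2, 0, 0, 0, 0), (1, 0, 0, 0, 0), (41, 0, 0, 0, 0), (41, 0, 0, 0, 0), (3, 0, 0, 0, 0), (0, 0, 0, 0, 0), (3, 0, 0, 0, 0), (0, 0, 0, 0, 0), (41, 0, 0, 0, 0), (2, 0, 0, 0, 0), (3, 0, 0, 0, 0), (40, 0, 0, 0, 0), (3, 0, 0, 0, 0), (40, 0, 0, 0, 0), (2, 0, 0, 0, 0), (42, 0, 0, 0, 0), (4, 0, 0, 0, 0), (5, 0, 0, 0, 0), (4, 0, 0, 0, 0), (5, 0, 0, 0, 0), (42, 0, 0, 0, 0), (6, 0, 0, 0, 0), (43, 0, 0, 0, 0), (5, 0, 0, 0, 0), (43, 0, 0, 0, 0), (5, 0, 0, 0, 0), (6, 0, 0, 0, 0), (6, 0, 0, 0, 0), (7, 0, 0, 0, 0), (42, 0, 0, 0,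 0), (7, 0, 0, 0, 0), (42, 0, 0, 0, 0), (6, 0, 0, 0, 0), (43, 0, 0, 0, 0), (7, 0, 0, 0, 0), (4, 0, 0, 0, 0), (7, 0, 0, 0, 0), (4, 0, 0, 0, 0), (43, 0, 0, 0, 0), (44, 0, 0, 0, 0), (8, 0, 0, 0, 0), (9, 0, 0, 0, 0), (8, 0, 0, 0, 0), (9, 0, 0, 0, 0), (44, 0, 0, 0, 0), (10, 0, 0, 0, 0), (45, 0, 0, 0, 0), (9, 0, 0, 0, 0), (45, 0, 0, 0, 0), (9, 0, 0, 0, 0), (10, 0, 0, 0, 0), (10, 0, 0, 0, 0), (11, 0, 0, 0, 0), (44, 0, 0, 0, 0), (11, 0, 0, 0, 0), (44, 0, 0, 0, 0), (10, 0, 0, 0, 0), (45, 0, 0, 0, 0), (11, 0, 0, 0, 0), (8, 0, 0, 0, 0), (11, 0, 0, 0, 0), (8, 0, 0, 0, 0), (45, 0, 0, 0, 0), (46, 0, 0, 0, 0), (12, 0, 0, 0, 0), (13, 0, 0, 0, 0), (12, 0, 0, 0, 0), (13, 0, 0, 0, 0), (46, 0, 0, 0, 0), (14, 0, 0, 0, 0), (47, 0, 0, 0, 0), (13, 0, 0, 0, 0), (47, 0, 0, 0, 0), (13, 0, 0, 0, 0), (14, 0, 0, 0, 0), (14, 0, 0, 0, 0), (15, 0, 0, 0, 0), (46, 0, 0, 0, 0), (15, 0, 0, 0, 0),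 (46, 0, 0, 0, 0), (14, 0, 0, 0, 0), (47, 0, 0, 0, 0), (15, 0, 0, 0, 0), (12, 0, 0, 0, 0), (15, 0, 0, 0, 0), (12, 0, 0, 0, 0), (47, 0, 0, 0, 0), (16, 0, 0, 0, 0), (48, 0, 0, 0, 0), (17, 0, 0, 0, 0), (48, 0, 0, 0, 0), (17, 0, 0, 0, 0), (16, 0, 0, 0, 0), (49, 0, 0, 0, 0), (18, 0, 0, 0, 0), (17, 0, 0, 0, 0), (18, 0, 0, 0, 0), (17, 0, 0, 0, 0), (49, 0, 0, 0, 0), (49, 0, 0, 0, 0), (19, 0, 0, 0, 0), (16, 0, 0, 0, 0), (19, 0, 0, 0, 0), (16, 0, 0, 0, 0), (49, 0, 0, 0, 0), (18, 0, 0, 0, 0), (19, 0, 0, 0, 0), (48, 0, 0, 0, 0), (19, 0, 0, 0, 0), (48, 0, 0, 0, 0), (18, 0, 0, 0, 0)],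
  [(20, 0, 0, 0, 0), (50, 0, 0, 0, 0), (21, 0, 0, 0, 0), (50, 0, 0, 0, 0), (21, 0, 0, 0, 0), (20, 0, 0, 0, 0), (51, 0, 0, 0, 0), (22, 0, 0, 0, 0), (21, 0, 0, 0, 0), (22, 0, 0, 0, 0), (21, 0, 0, 0, 0), (51, 0, 0, 0, 0), (51, 0, 0, 0, 0), (23, 0, 0, 0, 0), (20, 0, 0, 0, 0), (23, 0, 0, 0, 0), (20, 0, 0, 0, 0), (51, 0, 0, 0, 0), (22, 0, 0, 0, 0), (23, 0, 0, 0, 0), (50, 0, 0, 0, 0), (23, 0, 0, 0, 0), (50, 0, 0, 0, 0), (22, 0, 0, 0, 0), (52, 0, 0, 0, 0), (24, 0, 0, 0, 0), (25, 0, 0, 0, 0), (24, 0, 0, 0, 0), (25, 0, 0, 0, 0), (52, 0, 0, 0, 0), (26, 0, 0, 0, 0), (53, 0, 0, 0, 0), (25, 0, 0, 0, 0), (53, 0, 0, 0, 0), (25, 0, 0, 0, 0), (26, 0, 0, 0, 0), (26, 0, 0, 0, 0), (27, 0, 0, 0, 0), (52, 0, 0, 0, 0), (27, 0, 0, 0, 0), (52, 0, 0, 0, 0), (26, 0, 0, 0, 0), (53, 0, 0, 0, 0), (27, 0, 0, 0, 0), (24, 0, 0, 0, 0), (27, 0, 0, 0, 0), (24, 0, 0, 0, 0), (53, 0, 0, 0, 0), (54,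 0, 0, 0, 0), (28, 0, 0, 0, 0), (29, 0, 0, 0, 0), (28, 0, 0, 0, 0), (29, 0, 0, 0, 0), (54, 0, 0, 0, 0), (30, 0, 0, 0, 0), (55, 0, 0, 0, 0), (29, 0, 0, 0, 0), (55, 0, 0, 0, 0), (29, 0, 0, 0, 0), (30, 0, 0, 0, 0), (30, 0, 0, 0, 0), (31, 0, 0, 0, 0), (54, 0, 0, 0, 0), (31, 0, 0, 0, 0), (54, 0, 0, 0, 0), (30, 0, 0, 0, 0), (55, 0, 0, 0, 0), (31, 0, 0, 0, 0), (28, 0, 0, 0, 0), (31, 0, 0, 0, 0), (28, 0, 0, 0, 0), (55, 0, 0, 0, 0), (56, 0, 0, 0, 0), (32, 0, 0, 0, 0), (33, 0, 0, 0, 0), (32, 0, 0, 0, 0), (33, 0, 0, 0, 0), (56, 0, 0, 0, 0), (34, 0, 0, 0, 0), (57, 0, 0, 0, 0), (33, 0, 0, 0, 0), (57, 0, 0, 0, 0), (33, 0, 0, 0, 0), (34, 0, 0, 0, 0), (34, 0, 0, 0, 0), (35, 0, 0, 0, 0), (56, 0, 0, 0, 0), (35, 0, 0, 0, 0), (56, 0, 0, 0, 0), (34, 0, 0, 0, 0), (57, 0, 0, 0, 0), (35, 0, 0, 0, 0), (32, 0, 0, 0, 0), (35, 0, 0, 0, 0), (32, 0, 0, 0, 0), (57, 0, 0, 0, 0), (36, 0, 0,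 0, 0), (58, 0, 0, 0, 0), (37, 0, 0, 0, 0), (58, 0, 0, 0, 0), (37, 0, 0, 0, 0), (36, 0, 0, 0, 0), (59, 0, 0, 0, 0), (38, 0, 0, 0, 0), (37, 0, 0, 0, 0), (38, 0, 0, 0, 0), (37, 0, 0, 0, 0), (59, 0, 0, 0, 0), (59, 0, 0, 0, 0), (39, 0, 0, 0, 0), (36, 0, 0, 0, 0), (39, 0, 0, 0, 0), (36, 0, 0, 0, 0), (59, 0, 0, 0, 0), (38, 0, 0, 0, 0), (39, 0, 0, 0, 0), (58, 0, 0, 0, 0), (39, 0, 0, 0, 0), (58, 0, 0, 0, 0), (38, 0, 0, 0, 0)]]

def m60_6 : Base := (0, 1, [(0, [0], [0, 1]), (0, [1], [2, 3]), (1, [], [4, 5]), (4, [], [5])])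

def l60_6 : Cov := [(288, 0, 1, [(0, [0], [0, 1]), (0, [1], [2, 3]), (1, [], [4, 5]), (4, [], [5])]),
  (288, 0, 1, [(0, [0], [0, 1]), (0, [1], [2, 4]), (1, [], [3, 5]), (4, [], [5])]),
  (288, 0, 1, [(0, [0], [0, 2]), (0, [1], [1, 3]), (1, [], [4, 5]), (4, [], [5])]),
  (-288, 0, 1, [(0, [0], [0, 2]), (0, [1], [3, 4]), (1, [], [1, 5]), (4, [], [5])]),
  (-288, 0, 1, [(0, [0], [0, 4]), (0, [1], [1, 2]), (1, [], [3, 5]), (4, [], [5])]),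
  (-288, 0, 1, [(0, [0], [0, 4]), (0, [1], [2, 3]), (1, [], [1, 5]), (4, [], [5])]),
  (288, 0, 1, [(0, [0], [1, 2]), (0, [1], [0, 4]), (1, [], [3, 5]), (4, [], [5])]),
  (-288, 0, 1, [(0, [0], [1, 2]), (0, [1], [3, 4]), (1, [], [0, 5]), (4, [], [5])]),
  (-288, 0, 1, [(0, [0], [1, 3]), (0, [1], [0, 2]), (1, [], [4, 5]), (4, [], [5])]),
  (-288, 0, 1, [(0, [0], [1, 3]), (0, [1], [2, 4]), (1, [], [0, 5]), (4, [], [5])]),
  (-288, 0, 1, [(0, [0], [2, 3]), (0, [1], [0, 1]), (1, [], [4, 5]), (4, [], [5])]),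
  (288, 0, 1, [(0, [0], [2, 3]), (0, [1], [0, 4]), (1, [], [1, 5]), (4, [], [5])]),
  (-288, 0, 1, [(0, [0], [2, 4]), (0, [1], [0, 1]), (1, [], [3, 5]), (4, [], [5])]),
  (288, 0, 1, [(0, [0], [2, 4]), (0, [1], [1, 3]), (1, [], [0, 5]), (4, [], [5])]),
  (288, 0, 1, [(0, [0], [3, 4]), (0, [1], [0, 2]), (1, [], [1, 5]), (4, [], [5])]),
  (288, 0, 1, [(0, [0], [3, 4]), (0, [1], [1, 2]), (1, [], [0, 5]), (4, [], [5])])]

def z60_6 : Cov := [(0, 0, 1, [(0, [0], [0, 1]), (0, [1], [3, 4]), (1, [], [2, 5]), (4, [], [5])]),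
  (0, 0, 1, [(0, [0], [0, 2]), (0, [1], [1, 4]), (1, [], [3, 5]), (4, [], [5])]),
  (0, 0, 1, [(0, [0], [0, 3]), (0, [1], [1, 2]), (1, [], [4, 5]), (4, [], [5])]),
  (0, 0, 1, [(0, [0], [0, 3]), (0, [1], [1, 4]), (1, [], [2, 5]), (4, [], [5])]),
  (0, 0, 1, [(0, [0], [0, 3]), (0, [1], [2, 4]), (1, [], [1, 5]), (4, [], [5])]),
  (0, 0, 1, [(0, [0], [0, 4]), (0, [1], [1, 3]), (1, [], [2, 5]), (4, [], [5])]),
  (0, 0, 1, [(0, [0], [1, 2]), (0, [1], [0, 3]), (1, [], [4, 5]), (4, [], [5])]),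
  (0, 0, 1, [(0, [0], [1, 3]), (0, [1], [0, 4]), (1, [], [2, 5]), (4, [], [5])]),
  (0, 0, 1, [(0, [0], [1, 4]), (0, [1], [0, 2]), (1, [], [3, 5]), (4, [], [5])]),
  (0, 0, 1, [(0, [0], [1, 4]), (0, [1], [0, 3]), (1, [], [2, 5]), (4, [], [5])]),
  (0, 0, 1, [(0, [0], [1, 4]), (0, [1], [2, 3]), (1, [], [0, 5]), (4, [], [5])]),
  (0, 0, 1, [(0, [0], [2, 3]), (0, [1], [1, 4]), (1, [], [0, 5]), (4, [], [5])]),
  (0, 0, 1, [(0, [0], [2, 4]), (0, [1], [0, 3]), (1, [], [1, 5]), (4, [], [5])]),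
  (0, 0, 1, [(0, [0], [3, 4]), (0, [1], [0, 1]), (1, [], [2, 5]), (4, [], [5])])]

def w60_6 : List (List Wit) := [[(0, 0, 0, 0, 0), (1, 0, 0, 0, 0), (0, 0, 0, 0, 0), (16, 0, 0, 0, 0), (1, 0, 0, 0, 0), (16, 0, 0, 0, 0), (2, 0, 0, 0, 0), (17, 0, 0, 0, 0), (2, 0, 0, 0, 0), (3, 0, 0, 0, 0), (17, 0, 0, 0, 0), (3, 0, 0, 0, 0), (18, 0, 0, 0, 0), (19, 0, 0, 0, 0), (18, 0, 0, 0, 0), (20, 0, 0, 0, 0), (19, 0, 0, 0, 0), (20, 0, 0, 0, 0), (4, 0, 0, 0, 0), (21, 0, 0, 0, 0), (4, 0, 0, 0, 0), (5, 0, 0, 0, 0), (21, 0, 0, 0, 0), (5, 0, 0, 0, 0), (0, 0, 0, 0, 0), (1, 0, 0, 0, 0), (0, 0, 0, 0, 0), (16, 0, 0, 0, 0), (1, 0, 0, 0, 0), (16, 0, 0, 0, 0), (22, 0, 0, 0, 0), (6, 0, 0, 0, 0), (22, 0, 0, 0, 0), (7, 0, 0, 0, 0), (6, 0, 0, 0, 0), (7, 0, 0, 0, 0), (8, 0, 0, 0, 0), (23, 0, 0, 0, 0), (8, 0, 0, 0, 0), (9, 0, 0, 0, 0), (23, 0, 0, 0, 0), (9, 0, 0, 0, 0), (24, 0, 0, 0, 0), (25,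 0, 0, 0, 0), (24, 0, 0, 0, 0), (26, 0, 0, 0, 0), (25, 0, 0, 0, 0), (26, 0, 0, 0, 0), (2, 0, 0, 0, 0), (17, 0, 0, 0, 0), (2, 0, 0, 0, 0), (3, 0, 0, 0, 0), (17, 0, 0, 0, 0), (3, 0, 0, 0, 0), (22, 0, 0, 0, 0), (6, 0, 0, 0, 0), (22, 0, 0, 0, 0), (7, 0, 0, 0, 0), (6, 0, 0, 0, 0), (7, 0, 0, 0, 0), (10, 0, 0, 0, 0), (11, 0, 0, 0, 0), (10, 0, 0, 0, 0), (27, 0, 0, 0, 0), (11, 0, 0, 0, 0), (27, 0, 0, 0, 0), (12, 0, 0, 0, 0), (28, 0, 0, 0, 0), (12, 0, 0, 0, 0), (13, 0, 0, 0, 0), (28, 0, 0, 0, 0), (13, 0, 0, 0, 0), (18, 0, 0, 0, 0), (19, 0, 0, 0, 0), (18, 0, 0, 0, 0), (20, 0, 0, 0, 0), (19, 0, 0, 0, 0), (20, 0, 0, 0, 0), (8, 0, 0, 0, 0), (23, 0, 0, 0, 0), (8, 0, 0, 0, 0), (9, 0, 0, 0, 0), (23, 0, 0, 0, 0), (9, 0, 0, 0, 0), (10, 0, 0, 0, 0), (11, 0, 0, 0, 0), (10, 0, 0, 0, 0), (27, 0, 0, 0, 0), (11, 0, 0, 0, 0), (27, 0, 0, 0, 0), (29, 0, 0, 0, 0), (14, 0, 0, 0, 0), (29,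 0, 0, 0, 0), (15, 0, 0, 0, 0), (14, 0, 0, 0, 0), (15, 0, 0, 0, 0), (4, 0, 0, 0, 0), (21, 0, 0, 0, 0), (4, 0, 0, 0, 0), (5, 0, 0, 0, 0), (21, 0, 0, 0, 0), (5, 0, 0, 0, 0), (24, 0, 0, 0, 0), (25, 0, 0, 0, 0), (24, 0, 0, 0, 0), (26, 0, 0, 0, 0), (25, 0, 0, 0, 0), (26, 0, 0, 0, 0), (12, 0, 0, 0, 0), (28, 0, 0, 0, 0), (12, 0, 0, 0, 0), (13, 0, 0, 0, 0), (28, 0, 0, 0, 0), (13, 0, 0, 0, 0), (29, 0, 0, 0, 0), (14, 0, 0, 0, 0), (29, 0, 0, 0, 0), (15, 0, 0, 0, 0), (14, 0, 0, 0, 0), (15, 0, 0, 0, 0)],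
  [(10, 0, 0, 0, 0), (12, 0, 0, 0, 0), (10, 0, 0, 0, 0), (29, 0, 0, 0, 0), (12, 0, 0, 0, 0), (29, 0, 0, 0, 0), (8, 0, 0, 0, 0), (24, 0, 0, 0, 0), (8, 0, 0, 0, 0), (14, 0, 0, 0, 0), (24, 0, 0, 0, 0), (14, 0, 0, 0, 0), (22, 0, 0, 0, 0), (25, 0, 0, 0, 0), (22, 0, 0, 0, 0), (28, 0, 0, 0, 0), (25, 0, 0, 0, 0), (28, 0, 0, 0, 0), (6, 0, 0, 0, 0), (23, 0, 0, 0, 0), (6, 0, 0, 0, 0), (11, 0, 0, 0, 0), (23, 0, 0, 0, 0), (11, 0, 0, 0, 0), (10, 0, 0, 0, 0), (12, 0, 0, 0, 0), (10, 0, 0, 0, 0), (29, 0, 0, 0, 0), (12, 0, 0, 0, 0), (29, 0, 0, 0, 0), (18, 0, 0, 0, 0), (4, 0, 0, 0, 0), (18, 0, 0, 0, 0), (15, 0, 0, 0, 0), (4, 0, 0, 0, 0), (15, 0, 0, 0, 0), (2, 0, 0, 0, 0), (21, 0, 0, 0, 0), (2, 0, 0, 0, 0), (13, 0, 0, 0, 0), (21, 0, 0, 0, 0), (13, 0, 0, 0, 0), (17, 0, 0, 0, 0), (19, 0, 0, 0, 0), (17, 0, 0, 0, 0), (27, 0, 0, 0, 0), (19, 0, 0, 0, 0), (27, 0, 0, 0, 0), (8, 0, 0, 0,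 0), (24, 0, 0, 0, 0), (8, 0, 0, 0, 0), (14, 0, 0, 0, 0), (24, 0, 0, 0, 0), (14, 0, 0, 0, 0), (18, 0, 0, 0, 0), (4, 0, 0, 0, 0), (18, 0, 0, 0, 0), (15, 0, 0, 0, 0), (4, 0, 0, 0, 0), (15, 0, 0, 0, 0), (0, 0, 0, 0, 0), (5, 0, 0, 0, 0), (0, 0, 0, 0, 0), (26, 0, 0, 0, 0), (5, 0, 0, 0, 0), (26, 0, 0, 0, 0), (1, 0, 0, 0, 0), (20, 0, 0, 0, 0), (1, 0, 0, 0, 0), (9, 0, 0, 0, 0), (20, 0, 0, 0, 0), (9, 0, 0, 0, 0), (22, 0, 0, 0, 0), (25, 0, 0, 0, 0), (22, 0, 0, 0, 0), (28, 0, 0, 0, 0), (25, 0, 0, 0, 0), (28, 0, 0, 0, 0), (2, 0, 0, 0, 0), (21, 0, 0, 0, 0), (2, 0, 0, 0, 0), (13, 0, 0, 0, 0), (21, 0, 0, 0, 0), (13, 0, 0, 0, 0), (0, 0, 0, 0, 0), (5, 0, 0, 0, 0), (0, 0, 0, 0, 0), (26, 0, 0, 0, 0), (5, 0, 0, 0, 0), (26, 0, 0, 0, 0), (16, 0, 0, 0, 0), (3, 0, 0, 0, 0), (16, 0, 0, 0, 0), (7, 0, 0, 0, 0), (3, 0, 0, 0, 0), (7, 0, 0, 0, 0), (6, 0, 0, 0, 0), (23, 0, 0, 0, 0), (6, 0,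 0, 0, 0), (11, 0, 0, 0, 0), (23, 0, 0, 0, 0), (11, 0, 0, 0, 0), (17, 0, 0, 0, 0), (19, 0, 0, 0, 0), (17, 0, 0, 0, 0), (27, 0, 0, 0, 0), (19, 0, 0, 0, 0), (27, 0, 0, 0, 0), (1, 0, 0, 0, 0), (20, 0, 0, 0, 0), (1, 0, 0, 0, 0), (9, 0, 0, 0, 0), (20, 0, 0, 0, 0), (9, 0, 0, 0, 0), (16, 0, 0, 0, 0), (3, 0, 0, 0, 0), (16, 0, 0, 0, 0), (7, 0, 0, 0, 0), (3, 0, 0, 0, 0), (7, 0, 0, 0, 0)]]

def m60_7 : Base := (0, 0, [(0, [0], [0, 1]), (0, [1], [2, 3]), (4, [], [4])])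

def l60_7 : Cov := [(288, 0, 0, [(0, [0], [0, 1]), (0, [1], [2, 3]), (4, [], [4])]),
  (288, 0, 0, [(0, [0], [0, 1]), (0, [1], [2, 4]), (4, [], [3])]),
  (288, 0, 0, [(0, [0], [0, 2]), (0, [1], [1, 3]), (4, [], [4])]),
  (-288, 0, 0, [(0, [0], [0, 2]), (0, [1], [3, 4]), (4, [], [1])]),
  (-288, 0, 0, [(0, [0], [0, 4]), (0, [1], [1, 2]), (4, [], [3])]),
  (-288, 0, 0, [(0, [0], [0, 4]), (0, [1], [2, 3]), (4, [], [1])]),
  (288, 0, 0, [(0, [0], [1, 2]), (0, [1], [0, 4]), (4, [], [3])]),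
  (-288, 0, 0, [(0, [0], [1, 2]), (0, [1], [3, 4]), (4, [], [0])]),
  (-288, 0, 0, [(0, [0], [1, 3]), (0, [1], [0, 2]), (4, [], [4])]),
  (-288, 0, 0, [(0, [0], [1, 3]), (0, [1], [2, 4]), (4, [], [0])]),
  (-288, 0, 0, [(0, [0], [2, 3]), (0, [1], [0, 1]), (4, [], [4])]),
  (288, 0, 0, [(0, [0], [2, 3]), (0, [1], [0, 4]), (4, [], [1])]),
  (-288, 0, 0, [(0, [0], [2, 4]), (0, [1], [0, 1]), (4, [], [3])]),
  (288, 0, 0, [(0, [0], [2, 4]), (0, [1], [1, 3]), (4, [], [0])]),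
  (288, 0, 0, [(0, [0], [3, 4]), (0, [1], [0, 2]), (4, [], [1])]),
  (288, 0, 0, [(0, [0], [3, 4]), (0, [1], [1, 2]), (4, [], [0])])]

def z60_7 : Cov := [(0, 0, 0, [(0, [0], [0, 1]), (0, [1], [3, 4]), (4, [], [2])]),
  (0, 0, 0, [(0, [0], [0, 2]), (0, [1], [1, 4]), (4, [], [3])]),
  (0, 0, 0, [(0, [0], [0, 3]), (0, [1], [1, 2]), (4, [], [4])]),
  (0, 0, 0, [(0, [0], [0, 3]), (0, [1], [1, 4]), (4, [], [2])]),
  (0, 0, 0, [(0, [0], [0, 3]), (0, [1], [2, 4]), (4, [], [1])]),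
  (0, 0, 0, [(0, [0], [0, 4]), (0, [1], [1, 3]), (4, [], [2])]),
  (0, 0, 0, [(0, [0], [1, 2]), (0, [1], [0, 3]), (4, [], [4])]),
  (0, 0, 0, [(0, [0], [1, 3]), (0, [1], [0, 4]), (4, [], [2])]),
  (0, 0, 0, [(0, [0], [1, 4]), (0, [1], [0, 2]), (4, [], [3])]),
  (0, 0, 0, [(0, [0], [1, 4]), (0, [1], [0, 3]), (4, [], [2])]),
  (0, 0, 0, [(0, [0], [1, 4]), (0, [1], [2, 3]), (4, [], [0])]),
  (0, 0, 0, [(0, [0], [2, 3]), (0, [1], [1, 4]), (4, [], [0])]),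
  (0, 0, 0, [(0, [0], [2, 4]), (0, [1], [0, 3]), (4, [], [1])]),
  (0, 0, 0, [(0, [0], [3, 4]), (0, [1], [0, 1]), (4, [], [2])])]

def w60_7 : List (List Wit) := [[(0, 0, 0, 0, 0), (1, 0, 0, 0, 0), (0, 0, 0, 0, 0), (16, 0, 0, 0, 0), (1, 0, 0, 0, 0), (16, 0, 0, 0, 0), (2, 0, 0, 0, 0), (17, 0, 0, 0, 0), (2, 0, 0, 0, 0), (3, 0, 0, 0, 0), (17, 0, 0, 0, 0), (3, 0, 0, 0, 0), (18, 0, 0, 0, 0), (19, 0, 0, 0, 0), (18, 0, 0, 0, 0), (20, 0, 0, 0, 0), (19, 0, 0, 0, 0), (20, 0, 0, 0, 0), (4, 0, 0, 0, 0), (21, 0, 0, 0, 0), (4, 0, 0, 0, 0), (5, 0, 0, 0, 0), (21, 0, 0, 0, 0), (5, 0, 0, 0, 0), (0, 0, 0, 0, 0), (1, 0, 0, 0, 0), (0, 0, 0, 0, 0), (16, 0, 0, 0, 0), (1, 0, 0, 0, 0), (16, 0, 0, 0, 0), (22, 0, 0, 0, 0), (6, 0, 0, 0, 0), (22, 0, 0, 0, 0), (7, 0, 0, 0, 0), (6, 0, 0, 0, 0), (7, 0, 0, 0, 0), (8, 0, 0, 0, 0), (23, 0, 0, 0, 0), (8, 0, 0, 0, 0), (9, 0, 0, 0, 0), (23, 0, 0,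 0, 0), (9, 0, 0, 0, 0), (24, 0, 0, 0, 0), (25, 0, 0, 0, 0), (24, 0, 0, 0, 0), (26, 0, 0, 0, 0), (25, 0, 0, 0, 0), (26, 0, 0, 0, 0), (2, 0, 0, 0, 0), (17, 0, 0, 0, 0), (2, 0, 0, 0, 0), (3, 0, 0, 0, 0), (17, 0, 0, 0, 0), (3, 0, 0, 0, 0), (22, 0, 0, 0, 0), (6, 0, 0, 0, 0), (22, 0, 0, 0, 0), (7, 0, 0, 0, 0), (6, 0, 0, 0, 0), (7, 0, 0, 0, 0), (10, 0, 0, 0, 0), (11, 0, 0, 0, 0), (10, 0, 0, 0, 0), (27, 0, 0, 0, 0), (11, 0, 0, 0, 0), (27, 0, 0, 0, 0), (12, 0, 0, 0, 0), (28, 0, 0, 0, 0), (12, 0, 0, 0, 0), (13, 0, 0, 0, 0), (28, 0, 0, 0, 0), (13, 0, 0, 0, 0), (18, 0, 0, 0, 0), (19, 0, 0, 0, 0), (18, 0, 0, 0, 0), (20, 0, 0, 0, 0), (19, 0, 0, 0, 0), (20, 0, 0, 0, 0), (8, 0, 0, 0, 0), (23, 0, 0, 0, 0), (8, 0, 0, 0, 0), (9, 0, 0, 0, 0), (23, 0, 0, 0, 0), (9, 0, 0, 0, 0), (10, 0, 0, 0, 0), (11, 0, 0, 0, 0), (10, 0, 0, 0, 0), (27, 0, 0, 0, 0), (11, 0, 0, 0, 0), (27, 0, 0, 0,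 0), (29, 0, 0, 0, 0), (14, 0, 0, 0, 0), (29, 0, 0, 0, 0), (15, 0, 0, 0, 0), (14, 0, 0, 0, 0), (15, 0, 0, 0, 0), (4, 0, 0, 0, 0), (21, 0, 0, 0, 0), (4, 0, 0, 0, 0), (5, 0, 0, 0, 0), (21, 0, 0, 0, 0), (5, 0, 0, 0, 0), (24, 0, 0, 0, 0), (25, 0, 0, 0, 0), (24, 0, 0, 0, 0), (26, 0, 0, 0, 0), (25, 0, 0, 0, 0), (26, 0, 0, 0, 0), (12, 0, 0, 0, 0), (28, 0, 0, 0, 0), (12, 0, 0, 0, 0), (13, 0, 0, 0, 0), (28, 0, 0, 0, 0), (13, 0, 0, 0, 0), (29, 0, 0, 0, 0), (14, 0, 0, 0, 0), (29, 0, 0, 0, 0), (15, 0, 0, 0, 0), (14, 0, 0, 0, 0), (15, 0, 0, 0, 0)],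
  [(10, 0, 0, 0, 0), (12, 0, 0, 0, 0), (10, 0, 0, 0, 0), (29, 0, 0, 0, 0), (12, 0, 0, 0, 0), (29, 0, 0, 0, 0), (8, 0, 0, 0, 0), (24, 0, 0, 0, 0), (8, 0, 0, 0, 0), (14, 0, 0, 0, 0), (24, 0, 0, 0, 0), (14, 0, 0, 0, 0), (22, 0, 0, 0, 0), (25, 0, 0, 0, 0), (22, 0, 0, 0, 0), (28, 0, 0, 0, 0), (25, 0, 0, 0, 0), (28, 0, 0, 0, 0), (6, 0, 0, 0, 0), (23, 0, 0, 0, 0), (6, 0, 0, 0, 0), (11, 0, 0, 0, 0), (23, 0, 0, 0, 0), (11, 0, 0, 0, 0), (10, 0, 0, 0, 0), (12, 0, 0, 0, 0), (10, 0, 0, 0, 0), (29, 0, 0, 0, 0), (12, 0, 0, 0, 0), (29, 0, 0, 0, 0), (18, 0, 0, 0, 0), (4, 0, 0, 0, 0), (18, 0, 0, 0, 0), (15, 0, 0, 0, 0), (4, 0, 0, 0, 0), (15, 0, 0, 0, 0), (2, 0, 0, 0, 0), (21, 0, 0, 0, 0), (2, 0, 0, 0, 0), (13, 0, 0, 0, 0), (21, 0, 0, 0, 0), (13, 0, 0, 0, 0), (17, 0, 0, 0, 0), (19, 0, 0, 0, 0), (17, 0, 0, 0, 0), (27, 0, 0, 0, 0), (19, 0, 0, 0, 0), (27, 0, 0, 0, 0), (8, 0, 0, 0,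 0), (24, 0, 0, 0, 0), (8, 0, 0, 0, 0), (14, 0, 0, 0, 0), (24, 0, 0, 0, 0), (14, 0, 0, 0, 0), (18, 0, 0, 0, 0), (4, 0, 0, 0, 0), (18, 0, 0, 0, 0), (15, 0, 0, 0, 0), (4, 0, 0, 0, 0), (15, 0, 0, 0, 0), (0, 0, 0, 0, 0), (5, 0, 0, 0, 0), (0, 0, 0, 0, 0), (26, 0, 0, 0, 0), (5, 0, 0, 0, 0), (26, 0, 0, 0, 0), (1, 0, 0, 0, 0), (20, 0, 0, 0, 0), (1, 0, 0, 0, 0), (9, 0, 0, 0, 0), (20, 0, 0, 0, 0), (9, 0, 0, 0, 0), (22, 0, 0, 0, 0), (25, 0, 0, 0, 0), (22, 0, 0, 0, 0), (28, 0, 0, 0, 0), (25, 0, 0, 0, 0), (28, 0, 0, 0, 0), (2, 0, 0, 0, 0), (21, 0, 0, 0, 0), (2, 0, 0, 0, 0), (13, 0, 0, 0, 0), (21, 0, 0, 0, 0), (13, 0, 0, 0, 0), (0, 0, 0, 0, 0), (5, 0, 0, 0, 0), (0, 0, 0, 0, 0), (26, 0, 0, 0, 0), (5, 0, 0, 0, 0), (26, 0, 0, 0, 0), (16, 0, 0, 0, 0), (3, 0, 0, 0, 0), (16, 0, 0, 0, 0), (7, 0, 0, 0, 0), (3, 0, 0, 0, 0), (7, 0, 0, 0, 0), (6, 0, 0, 0, 0), (23, 0, 0, 0, 0), (6, 0,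 0, 0, 0), (11, 0, 0, 0, 0), (23, 0, 0, 0, 0), (11, 0, 0, 0, 0), (17, 0, 0, 0, 0), (19, 0, 0, 0, 0), (17, 0, 0, 0, 0), (27, 0, 0, 0, 0), (19, 0, 0, 0, 0), (27, 0, 0, 0, 0), (1, 0, 0, 0, 0), (20, 0, 0, 0, 0), (1, 0, 0, 0, 0), (9, 0, 0, 0, 0), (20, 0, 0, 0, 0), (9, 0, 0, 0, 0), (16, 0, 0, 0, 0), (3, 0, 0, 0, 0), (16, 0, 0, 0, 0), (7, 0, 0, 0, 0), (3, 0, 0, 0, 0), (7, 0, 0, 0, 0)]]

def m60_8 : Base := (0, 0, [(0, [0], [0, 1]), (2, [1], [2, 3, 4])])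

def l60_8 : Cov := [(576, 0, 0, [(0, [0], [0, 1]), (2, [1], [2, 3, 4])]),
  (-576, 0, 0, [(0, [0], [0, 4]), (2, [1], [1, 2, 3])]),
  (-576, 0, 0, [(0, [0], [1, 3]), (2, [1], [0, 2, 4])]),
  (576, 0, 0, [(0, [0], [3, 4]), (2, [1], [0, 1, 2])]),
  (-576, 0, 0, [(0, [1], [0, 1]), (2, [0], [2, 3, 4])]),
  (576, 0, 0, [(0, [1], [0, 4]), (2, [0], [1, 2, 3])]),
  (576, 0, 0, [(0, [1], [1, 3]), (2, [0], [0, 2, 4])]),
  (-576, 0, 0, [(0, [1], [3, 4]), (2, [0], [0, 1, 2])])]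

def z60_8 : Cov := [(0, 0, 0, [(0, [0], [0, 2]), (2, [1], [1, 3, 4])]),
  (0, 0, 0, [(0, [0], [0, 3]), (2, [1], [1, 2, 4])]),
  (0, 0, 0, [(0, [0], [1, 2]), (2, [1], [0, 3, 4])]),
  (0, 0, 0, [(0, [0], [1, 4]), (2, [1], [0, 2, 3])]),
  (0, 0, 0, [(0, [0], [2, 3]), (2, [1], [0, 1, 4])]),
  (0, 0, 0, [(0, [0], [2, 4]), (2, [1], [0, 1, 3])]),
  (0, 0, 0, [(0, [1], [0, 2]), (2, [0], [1, 3, 4])]),
  (0, 0, 0, [(0, [1], [0, 3]), (2, [0], [1, 2, 4])]),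
  (0, 0, 0, [(0, [1], [1, 2]), (2, [0], [0, 3, 4])]),
  (0, 0, 0, [(0, [1], [1, 4]), (2, [0], [0, 2, 3])]),
  (0, 0, 0, [(0, [1], [2, 3]), (2, [0], [0, 1, 4])]),
  (0, 0, 0, [(0, [1], [2, 4]), (2, [0], [0, 1, 3])])]

def w60_8 : List (List Wit) := [[(0, 0, 0, 0, 0), (0, 0, 0, 0, 0), (0, 0, 0, 0, 0), (0, 0, 0, 0, 0), (0, 0, 0, 0, 0), (0, 0, 0, 0, 0), (8, 0, 0, 0, 0), (8, 0, 0, 0, 0), (8, 0, 0, 0, 0), (8, 0, 0, 0, 0), (8, 0, 0, 0, 0), (8, 0, 0, 0, 0), (9, 0, 0, 0, 0), (9, 0, 0, 0, 0), (9, 0, 0, 0, 0), (9, 0, 0, 0, 0), (9, 0, 0, 0, 0), (9, 0, 0, 0, 0), (1, 0, 0, 0, 0), (1, 0, 0, 0, 0), (1, 0, 0, 0, 0), (1, 0, 0, 0, 0), (1, 0, 0, 0, 0), (1, 0, 0, 0, 0), (0, 0, 0, 0, 0), (0, 0, 0, 0, 0), (0, 0, 0, 0, 0), (0, 0, 0, 0, 0), (0, 0, 0, 0, 0), (0, 0, 0, 0, 0), (10, 0, 0, 0, 0), (10, 0, 0, 0, 0), (10, 0, 0, 0, 0), (10, 0, 0, 0, 0), (10, 0, 0, 0, 0), (10, 0, 0, 0, 0), (2,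 0, 0, 0, 0), (2, 0, 0, 0, 0), (2, 0, 0, 0, 0), (2, 0, 0, 0, 0), (2, 0, 0, 0, 0), (2, 0, 0, 0, 0), (11, 0, 0, 0, 0), (11, 0, 0, 0, 0), (11, 0, 0, 0, 0), (11, 0, 0, 0, 0), (11, 0, 0, 0, 0), (11, 0, 0, 0, 0), (8, 0, 0, 0, 0), (8, 0, 0, 0, 0), (8, 0, 0, 0, 0), (8, 0, 0, 0, 0), (8, 0, 0, 0, 0), (8, 0, 0, 0, 0), (10, 0, 0, 0, 0), (10, 0, 0, 0, 0), (10, 0, 0, 0, 0), (10, 0, 0, 0, 0), (10, 0, 0, 0, 0), (10, 0, 0, 0, 0), (12, 0, 0, 0, 0), (12, 0, 0, 0, 0), (12, 0, 0, 0, 0), (12, 0, 0, 0, 0), (12, 0, 0, 0, 0), (12, 0, 0, 0, 0), (13, 0, 0, 0, 0), (13, 0, 0, 0, 0), (13, 0, 0, 0, 0), (13, 0, 0, 0, 0), (13, 0, 0, 0, 0), (13, 0, 0, 0, 0), (9, 0, 0, 0, 0), (9, 0, 0, 0, 0), (9, 0, 0, 0, 0), (9, 0, 0, 0, 0), (9, 0, 0, 0, 0), (9, 0, 0, 0, 0), (2, 0, 0, 0, 0), (2, 0, 0, 0, 0), (2, 0, 0, 0, 0), (2, 0, 0, 0, 0), (2, 0, 0, 0, 0), (2, 0, 0, 0, 0), (12, 0, 0, 0, 0), (12, 0, 0, 0, 0),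 (12, 0, 0, 0, 0), (12, 0, 0, 0, 0), (12, 0, 0, 0, 0), (12, 0, 0, 0, 0), (3, 0, 0, 0, 0), (3, 0, 0, 0, 0), (3, 0, 0, 0, 0), (3, 0, 0, 0, 0), (3, 0, 0, 0, 0), (3, 0, 0, 0, 0), (1, 0, 0, 0, 0), (1, 0, 0, 0, 0), (1, 0, 0, 0, 0), (1, 0, 0, 0, 0), (1, 0, 0, 0, 0), (1, 0, 0, 0, 0), (11, 0, 0, 0, 0), (11, 0, 0, 0, 0), (11, 0, 0, 0, 0), (11, 0, 0, 0, 0), (11, 0, 0, 0, 0), (11, 0, 0, 0, 0), (13, 0, 0, 0, 0), (13, 0, 0, 0, 0), (13, 0, 0, 0, 0), (13, 0, 0, 0, 0), (13, 0, 0, 0, 0), (13, 0, 0, 0, 0), (3, 0, 0, 0, 0), (3, 0, 0, 0, 0), (3, 0, 0, 0, 0), (3, 0, 0, 0, 0), (3, 0, 0, 0, 0), (3, 0, 0, 0, 0)],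
  [(4, 0, 0, 0, 0), (4, 0, 0, 0, 0), (4, 0, 0, 0, 0), (4, 0, 0, 0, 0), (4, 0, 0, 0, 0), (4, 0, 0, 0, 0), (14, 0, 0, 0, 0), (14, 0, 0, 0, 0), (14, 0, 0, 0, 0), (14, 0, 0, 0, 0), (14, 0, 0, 0, 0), (14, 0, 0, 0, 0), (15, 0, 0, 0, 0), (15, 0, 0, 0, 0), (15, 0, 0, 0, 0), (15, 0, 0, 0, 0), (15, 0, 0, 0, 0), (15, 0, 0, 0, 0), (5, 0, 0, 0, 0), (5, 0, 0, 0, 0), (5, 0, 0, 0, 0), (5, 0, 0, 0, 0), (5, 0, 0, 0, 0), (5, 0, 0, 0, 0), (4, 0, 0, 0, 0), (4, 0, 0, 0, 0), (4, 0, 0, 0, 0), (4, 0, 0, 0, 0), (4, 0, 0, 0, 0), (4, 0, 0, 0, 0), (16, 0, 0, 0, 0), (16, 0, 0, 0, 0), (16, 0, 0, 0, 0), (16, 0, 0, 0, 0), (16, 0, 0, 0, 0), (16, 0, 0, 0, 0), (6, 0, 0, 0, 0), (6, 0, 0, 0, 0), (6, 0, 0, 0, 0), (6, 0, 0, 0, 0), (6, 0, 0, 0, 0), (6, 0, 0, 0, 0), (17, 0, 0, 0, 0), (17, 0, 0, 0, 0), (17, 0, 0, 0, 0), (17, 0, 0, 0, 0), (17, 0, 0, 0, 0), (17, 0, 0, 0, 0), (14, 0, 0, 0, 0), (14, 0, 0,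 0, 0), (14, 0, 0, 0, 0), (14, 0, 0, 0, 0), (14, 0, 0, 0, 0), (14, 0, 0, 0, 0), (16, 0, 0, 0, 0), (16, 0, 0, 0, 0), (16, 0, 0, 0, 0), (16, 0, 0, 0, 0), (16, 0, 0, 0, 0), (16, 0, 0, 0, 0), (18, 0, 0, 0, 0), (18, 0, 0, 0, 0), (18, 0, 0, 0, 0), (18, 0, 0, 0, 0), (18, 0, 0, 0, 0), (18, 0, 0, 0, 0), (19, 0, 0, 0, 0), (19, 0, 0, 0, 0), (19, 0, 0, 0, 0), (19, 0, 0, 0, 0), (19, 0, 0, 0, 0), (19, 0, 0, 0, 0), (15, 0, 0, 0, 0), (15, 0, 0, 0, 0), (15, 0, 0, 0, 0), (15, 0, 0, 0, 0), (15, 0, 0, 0, 0), (15, 0, 0, 0, 0), (6, 0, 0, 0, 0), (6, 0, 0, 0, 0), (6, 0, 0, 0, 0), (6, 0, 0, 0, 0), (6, 0, 0, 0, 0), (6, 0, 0, 0, 0), (18, 0, 0, 0, 0), (18, 0, 0, 0, 0), (18, 0, 0, 0, 0), (18, 0, 0, 0, 0), (18, 0, 0, 0, 0), (18, 0, 0, 0, 0), (7, 0, 0, 0, 0), (7, 0, 0, 0, 0), (7, 0, 0, 0, 0), (7, 0, 0, 0, 0), (7, 0, 0, 0, 0), (7, 0, 0, 0, 0), (5, 0, 0, 0, 0), (5, 0, 0, 0, 0), (5, 0, 0, 0,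 0), (5, 0, 0, 0, 0), (5, 0, 0, 0, 0), (5, 0, 0, 0, 0), (17, 0, 0, 0, 0), (17, 0, 0, 0, 0), (17, 0, 0, 0, 0), (17, 0, 0, 0, 0), (17, 0, 0, 0, 0), (17, 0, 0, 0, 0), (19, 0, 0, 0, 0), (19, 0, 0, 0, 0), (19, 0, 0, 0, 0), (19, 0, 0, 0, 0), (19, 0, 0, 0, 0), (19, 0, 0, 0, 0), (7, 0, 0, 0, 0), (7, 0, 0, 0, 0), (7, 0, 0, 0, 0), (7, 0, 0, 0, 0), (7, 0, 0, 0, 0), (7, 0, 0, 0, 0)]]

theorem tr60 : trK keys lk60 kl60 = true := by
  decide +kernel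

theorem x60_0 : expB 2 5 dg12 dg6 m60_0 (l60_0 ++ z60_0) w60_0 = true := by
  decide +kernel

theorem x60_1 : expB 2 5 dg12 dg6 m60_1 (l60_1 ++ z60_1) w60_1 = true := by
  decide +kernel

theorem x60_2 : expB 2 5 dg12 dg6 m60_2 (l60_2 ++ z60_2) w60_2 = true := by
  decide +kernel

theorem x60_3 : expB 2 5 dg12 dg6 m60_3 (l60_3 ++ z60_3) w60_3 = true := by
  decide +kernel

theorem x60_4 : expB 2 5 dg12 dg6 m60_4 (l60_4 ++ z60_4) w60_4 = true := by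
  decide +kernel

theorem x60_5 : expB 2 5 dg12 dg6 m60_5 (l60_5 ++ z60_5) w60_5 = true := by
  decide +kernel

theorem x60_6 : expB 2 5 dg12 dg6 m60_6 (l60_6 ++ z60_6) w60_6 = true := by
  decide +kernel

theorem x60_7 : expB 2 5 dg12 dg6 m60_7 (l60_7 ++ z60_7) w60_7 = true := by
  decide +kernel

theorem x60_8 : expB 2 5 dg12 dg6 m60_8 (l60_8 ++ z60_8) w60_8 = true := by
  decide +kernel

theorem t60_0_0 : chkS lk60 2 5 [(1, m60_0)] l60_0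
  [(103, 16, 16, 34891056, 52696656), (104, 16, 16, 34891056, 52696656), (93, 16, 16, 34891056, 52696656), (80, 16, 16, 35017776, 70391376), (93, 16, 16, 34887216, 36968016), (80, 16, 16, 35013936, 69408336), (80, 16, 16, 19096896, 52512096), (79, 16, 16, 34891056, 52696656), (154, 16, 16, 34891056, 52696656), (155, 16, 16, 34891056, 52696656), (150, 1, 1, 50741781, 67330581), (66, 16, 16, 33969201, 70391301), (149, 1, 1, 50603541, 33841941), (66, 16, 16, 33965361, 69408261), (66, 1, 1, 2188596, 52434246), (27, 1, 1, 34825476, 52446801), (149, 16, 16, 50618961, 51667461), (66, 1, 1, 33969171, 70387221), (95, 1, 1, 34891011, 52692561), (80, 1, 1, 35017731, 70387281), (174, 16, 16, 34956096, 54601296), (142, 1, 1, 33961236, 69219861), (142, 1, 1, 2188341, 50468166), (140, 16, 16, 33907521, 54601221), (149, 16, 16, 50603601, 34890501), (66, 1, 1, 33965331, 69404181),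 (93, 1, 1, 34887171, 36963921), (80, 1, 1, 35013891, 69404241), (174, 16, 16, 34944576, 37828176), (142, 1, 1, 33968916, 70264341), (138, 1, 1, 33773076, 36718101), (140, 16, 16, 33896001, 37828101), (66, 16, 16, 2188611, 52495686), (27, 16, 16, 34825536, 52512336), (80, 1, 1, 19096836, 52446561), (79, 1, 1, 34891011, 52692561), (142, 16, 16, 2188371, 51512646), (138, 16, 16, 33776961, 52512261), (140, 1, 1, 33895956, 37762581), (138, 16, 16, 33773121, 36783621)]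
  [(27, -72), (66, 144), (79, 72), (80, -144), (93, 144), (95, -72), (103, 72), (104, -72), (138, 216), (140, -216), (149, -144), (150, 72), (154, -72), (155, 72), (174, 0)] = true := by
  decide +kernel

theorem t60_0_1 : chkS lk60 2 5 [(1, m60_0)] l60_1
  [(94, 16, 16, 34891056, 52696656), (96, 16, 16, 34891056, 52696656), (94, 16, 16, 34887216, 36968016), (88, 16, 16, 34891056, 52696656), (78, 16, 16, 35017776, 70391376), (92, 16, 16, 35013936, 69408336), (76, 16, 16, 34956336, 54662736), (76, 16, 16, 34948656, 37951056), (149, 16, 16, 34891056, 52696656), (150, 16, 16, 34891056, 52696656), (66, 1, 1, 70346016, 52842816), (145, 16, 16, 34891056, 52696656), (26, 1, 1, 35017731, 70387281), (148, 16, 16, 35013936, 69408336), (64, 16, 16, 33907761, 54662661), (64, 16, 16, 33900081, 37950981), (46, 1, 1, 85156866, 56770641), (48, 1, 1, 85156866, 56770641), (65,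 1, 1, 87122976, 56774976), (63, 1, 1, 84042771, 56755221), (89, 1, 1, 101983491, 103023441), (77, 1, 1, 68560131, 69600081), (135, 1, 1, 100869396, 102777621), (136, 16, 16, 50745921, 70345221), (46, 1, 1, 85149186, 40058961), (146, 1, 1, 85221891, 56885841), (65, 1, 1, 67523091, 70648341), (63, 1, 1, 84035091, 40043541), (89, 1, 1, 101995011, 104071761), (77, 1, 1, 68571651, 70648401), (135, 1, 1, 100880916, 103825941), (136, 16, 16, 50734401, 69296901), (47, 1, 1, 68498946, 38154321), (147, 1, 1, 85344771, 73597521), (64, 1, 1, 67461651, 54919701), (91, 1, 1, 85344771, 73597521), (76, 1, 1, 68510211, 54919761), (76, 1, 1, 68494851, 38142801), (18, 16, 16, 50619681, 52715781), (133, 16, 16, 33776961, 52512261), (149, 16, 16, 85221936, 56889936), (150, 16, 16, 85344816, 73601616), (149, 16, 16, 85206576, 40112976), (145, 1, 1, 34891011, 52692561), (26, 16, 16,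 35017776, 70391376), (148, 1, 1, 35013891, 69404241), (64, 1, 1, 33907731, 54658581), (64, 1, 1, 33900051, 37946901), (94, 16, 16, 85221936, 56889936), (96, 16, 16, 85344816, 73601616), (57, 16, 16, 69297456, 52827456), (88, 1, 1, 34891011, 52692561), (78, 1, 1, 35017731, 70387281), (92, 1, 1, 35013891, 69404241), (76, 1, 1, 34956291, 54658641), (76, 1, 1, 34948611, 37946961), (46, 16, 16, 85156896, 56770896), (48, 16, 16, 85156896, 56770896), (56, 16, 16, 86074416, 56759616), (54, 16, 16, 86074416, 56759616), (146, 16, 16, 85206576, 40112976), (65, 16, 16, 67511601, 69604101), (136, 1, 1, 50745876, 70279701), (135, 16, 16, 100869441, 102843141), (46, 16, 16, 85149216, 40059216), (89, 16, 16, 101995056, 104075856), (77, 16, 16, 68571696, 70652496), (54, 16, 16, 86066736, 40047936), (146, 16, 16, 85221936, 56889936), (65, 16, 16, 67523121, 70652421), (136, 1,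 1, 50734356, 69231381), (135, 16, 16, 100880961, 103891461), (47, 16, 16, 68498976, 38154576), (91, 16, 16, 85344816, 73601616), (76, 16, 16, 68510256, 54923856), (147, 16, 16, 85344816, 73601616), (64, 16, 16, 67461681, 54923781), (64, 16, 16, 67446321, 38146821), (133, 1, 1, 33776916, 52446741), (18, 1, 1, 50619666, 52715541)]
  [(18, -72), (26, -72), (56, 72), (57, -72), (64, -144), (65, 144), (66, 72), (76, 144), (77, -216), (78, 72), (88, 144), (89, -144), (91, 72), (92, -144), (94, 144), (96, -72), (133, 72), (135, 72), (136, -72), (145, -144), (146, 144), (147, -72), (148, 144), (149, -144), (150, 72)] = true := by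
  decide +kernel

theorem t60_0_2 : chkS lk60 2 5 [(1, m60_0)] l60_2
  [(57, 16, 16, 19289136, 70391136), (57, 16, 16, 19285296, 69408096), (55, 16, 16, 19227696, 54662496), (55, 16, 16, 19220016, 37950816), (66, 16, 16, 20337666, 70406241), (27, 16, 16, 50619681, 52715781), (26, 1, 1, 50746386, 70410261), (64, 16, 16, 20268546, 37965921), (47, 1, 1, 85156866, 56770641), (64, 1, 1, 87122976, 56774976), (90, 1, 1, 101983491, 103023441), (159, 16, 16, 20336706, 70340706), (47, 1, 1, 85149186, 40058961), (64, 1, 1, 87115296, 40063296), (90, 1, 1, 101995011, 104071761), (159, 16, 16, 20317506, 69292131), (52, 1, 1, 68379906, 52838481), (151, 1, 1, 85221891, 56885841), (97, 1, 1, 85206531, 40108881), (157, 16, 16, 19948866, 52514916), (66, 1, 1, 20337696, 70406496), (66, 1, 1, 20333856, 69423456), (64, 1, 1, 20276256, 54677856), (64, 1, 1, 20268576, 37966176), (57,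 1, 1, 19289091, 70387041), (24, 16, 16, 50619681, 52715781), (23, 16, 16, 84292161, 73478661), (55, 1, 1, 19219971, 37946721), (47, 16, 16, 85156896, 56770896), (55, 16, 16, 86074416, 56759616), (147, 16, 16, 104072466, 103043091), (159, 1, 1, 20336676, 70275426), (47, 16, 16, 85149216, 40059216), (55, 16, 16, 86066736, 40047936), (147, 16, 16, 104091666, 104091666), (159, 1, 1, 20317476, 69226851), (52, 16, 16, 68379936, 52838736), (97, 16, 16, 85221936, 56889936), (151, 16, 16, 85206576, 40112976), (157, 1, 1, 19948836, 52449636)]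
  [(23, 216), (24, -72), (26, -216), (27, 72), (55, -144), (57, 72), (64, 144), (66, -72), (90, -360), (97, 288), (147, 360), (151, -288), (159, 0)] = true := by
  decide +kernel

theorem t60_0_3 : chkS lk60 2 5 [(1, m60_0)] l60_3
  [(96, 16, 16, 34891056, 52696656), (94, 16, 16, 34891056, 52696656), (96, 16, 16, 34887216, 36968016), (78, 16, 16, 35017776, 70391376), (88, 16, 16, 34891056, 52696656), (76, 16, 16, 34956336, 54662736), (92, 16, 16, 35013936, 69408336), (92, 16, 16, 35017776, 70391376), (150, 16, 16, 34891056, 52696656), (149, 16, 16, 34891056, 52696656), (66, 1, 1, 70342176, 37114176), (26, 1, 1, 35017731, 70387281), (145, 16, 16, 34891056, 52696656), (64, 16, 16, 33907761, 54662661), (148, 16, 16, 35013936, 69408336), (148, 16, 16, 35017776, 70391376), (48, 1, 1, 85156866, 56770641), (46, 1, 1, 85156866, 56770641), (63, 1, 1, 84042771, 56755221),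 (65, 1, 1, 87122976, 56774976), (77, 1, 1, 68560131, 69600081), (89, 1, 1, 101983491, 103023441), (136, 16, 16, 50745921, 70345221), (135, 1, 1, 100869396, 102777621), (48, 1, 1, 85149186, 40058961), (65, 1, 1, 67523091, 70648341), (146, 1, 1, 85221891, 56885841), (65, 1, 1, 87115296, 40063296), (77, 1, 1, 68571651, 70648401), (89, 1, 1, 101995011, 104071761), (136, 16, 16, 50734401, 69296901), (135, 1, 1, 100880916, 103825941), (47, 1, 1, 68510466, 54927441), (64, 1, 1, 67461651, 54919701), (147, 1, 1, 85344771, 73597521), (76, 1, 1, 68510211, 54919761), (91, 1, 1, 85344771, 73597521), (91, 1, 1, 85337091, 73532241), (133, 16, 16, 33776961, 52512261), (18, 16, 16, 50619681, 52715781), (150, 16, 16, 85344816, 73601616), (149, 16, 16, 85221936, 56889936), (150, 16, 16, 85337136, 73536336), (26, 16, 16, 35017776, 70391376), (145, 1, 1, 34891011, 52692561), (64,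 1, 1, 33907731, 54658581), (148, 1, 1, 35013891, 69404241), (148, 1, 1, 35017731, 70387281), (96, 16, 16, 85344816, 73601616), (94, 16, 16, 85221936, 56889936), (57, 16, 16, 69293616, 37098816), (78, 1, 1, 35017731, 70387281), (88, 1, 1, 34891011, 52692561), (76, 1, 1, 34956291, 54658641), (92, 1, 1, 35013891, 69404241), (92, 1, 1, 35017731, 70387281), (48, 16, 16, 85156896, 56770896), (46, 16, 16, 85156896, 56770896), (54, 16, 16, 86074416, 56759616), (56, 16, 16, 86074416, 56759616), (65, 16, 16, 67511601, 69604101), (146, 16, 16, 85206576, 40112976), (135, 16, 16, 100869441, 102843141), (136, 1, 1, 50745876, 70279701), (48, 16, 16, 85149216, 40059216), (77, 16, 16, 68571696, 70652496), (89, 16, 16, 101995056, 104075856), (56, 16, 16, 86066736, 40047936), (65, 16, 16, 67523121, 70652421), (146, 16, 16, 85221936, 56889936), (135, 16, 16, 100880961, 103891461),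 (136, 1, 1, 50734356, 69231381), (47, 16, 16, 68510496, 54927696), (76, 16, 16, 68510256, 54923856), (91, 16, 16, 85344816, 73601616), (64, 16, 16, 67461681, 54923781), (147, 16, 16, 85344816, 73601616), (147, 16, 16, 85337136, 73536336), (18, 1, 1, 50619666, 52715541), (133, 1, 1, 33776916, 52446741)]
  [(18, 72), (26, -144), (54, 72), (57, -72), (63, -72), (64, 72), (65, 144), (66, 72), (76, -72), (77, -144), (78, 144), (88, 72), (89, -216), (91, 216), (92, -72), (94, -72), (96, 144), (133, -72), (135, -72), (136, 72), (145, -72), (146, 216), (147, -216), (148, 72), (149, 72), (150, -144)] = true := by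
  decide +kernel

theorem t60_0_4 : chkS lk60 2 5 [(1, m60_0)] l60_4
  [(94, 16, 16, 34887216, 36968016), (94, 16, 16, 34891056, 52696656), (96, 16, 16, 34887216, 36968016), (88, 16, 16, 34891056, 52696656), (76, 16, 16, 34956336, 54662736), (78, 16, 16, 35017776, 70391376), (92, 16, 16, 35017776, 70391376), (76, 16, 16, 34948656, 37951056), (66, 1, 1, 70346016, 52842816), (66, 1, 1, 70342176, 37114176), (150, 16, 16, 34891056, 52696656), (148, 16, 16, 35013936, 69408336), (64, 16, 16, 33907761, 54662661), (26, 1, 1, 35017731, 70387281), (148, 16, 16, 35017776, 70391376), (64, 16, 16, 33900081, 37950981), (65, 1, 1, 87122976, 56774976), (46, 1, 1, 85156866, 56770641), (63, 1, 1, 84042771, 56755221), (48, 1, 1, 85156866, 56770641), (89, 1, 1, 101983491, 103023441), (77, 1, 1, 68560131, 69600081), (135, 1, 1, 100869396, 102777621), (136, 16, 16, 50745921, 70345221),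 (146, 1, 1, 85221891, 56885841), (65, 1, 1, 87115296, 40063296), (46, 1, 1, 85149186, 40058961), (63, 1, 1, 84035091, 40043541), (48, 1, 1, 85149186, 40058961), (65, 1, 1, 67523091, 70648341), (89, 1, 1, 101995011, 104071761), (135, 1, 1, 100880916, 103825941), (147, 1, 1, 85344771, 73597521), (47, 1, 1, 68498946, 38154321), (47, 1, 1, 68510466, 54927441), (91, 1, 1, 85344771, 73597521), (91, 1, 1, 85337091, 73532241), (76, 1, 1, 68494851, 38142801), (76, 1, 1, 68510211, 54919761), (133, 16, 16, 33776961, 52512261), (149, 16, 16, 85206576, 40112976), (149, 16, 16, 85221936, 56889936), (150, 16, 16, 85337136, 73536336), (145, 1, 1, 34891011, 52692561), (64, 1, 1, 33907731, 54658581), (26, 16, 16, 35017776, 70391376), (148, 1, 1, 35017731, 70387281), (64, 1, 1, 33900051, 37946901), (57, 16, 16, 69297456, 52827456), (57, 16, 16, 69293616, 37098816), (96, 16, 16,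 85344816, 73601616), (92, 1, 1, 35013891, 69404241), (76, 1, 1, 34956291, 54658641), (78, 1, 1, 35017731, 70387281), (92, 1, 1, 35017731, 70387281), (76, 1, 1, 34948611, 37946961), (56, 16, 16, 86074416, 56759616), (46, 16, 16, 85156896, 56770896), (54, 16, 16, 86074416, 56759616), (48, 16, 16, 85156896, 56770896), (146, 16, 16, 85206576, 40112976), (65, 16, 16, 67511601, 69604101), (136, 1, 1, 50745876, 70279701), (135, 16, 16, 100869441, 102843141), (89, 16, 16, 101995056, 104075856), (56, 16, 16, 86066736, 40047936), (46, 16, 16, 85149216, 40059216), (54, 16, 16, 86066736, 40047936), (48, 16, 16, 85149216, 40059216), (77, 16, 16, 68571696, 70652496), (146, 16, 16, 85221936, 56889936), (136, 1, 1, 50734356, 69231381), (91, 16, 16, 85344816, 73601616), (47, 16, 16, 68498976, 38154576), (47, 16, 16, 68510496, 54927696), (147, 16, 16, 85344816, 73601616), (147,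 16, 16, 85337136, 73536336), (64, 16, 16, 67446321, 38146821), (64, 16, 16, 67461681, 54923781), (18, 1, 1, 50619666, 52715541)]
  [(18, -72), (54, -216), (56, -144), (57, -216), (63, 216), (64, -216), (65, 144), (66, 216), (76, 216), (88, 72), (89, 72), (91, 72), (92, -72), (94, 216), (133, 72), (135, 72), (136, -72), (145, -72), (146, -72), (147, -72), (148, 72), (149, -216), (150, 0)] = true := by
  decide +kernel

theorem t60_0_5 : chkS lk60 2 5 [(1, m60_0)] l60_5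
  [(57, 16, 16, 19285296, 69408096), (57, 16, 16, 19289136, 70391136), (55, 16, 16, 19227696, 54662496), (55, 16, 16, 19220016, 37950816), (27, 16, 16, 50619681, 52715781), (66, 16, 16, 20337666, 70406241), (26, 1, 1, 50746386, 70410261), (64, 16, 16, 20268546, 37965921), (64, 1, 1, 87122976, 56774976), (47, 1, 1, 85156866, 56770641), (90, 1, 1, 101983491, 103023441), (159, 16, 16, 20336706, 70340706), (64, 1, 1, 87115296, 40063296), (47, 1, 1, 85149186, 40058961), (90, 1, 1, 101995011, 104071761), (159, 16, 16, 20317506, 69292131), (151, 1, 1, 85221891, 56885841), (52, 1, 1, 68379906, 52838481), (97, 1, 1, 85206531, 40108881), (157, 16, 16, 19948866, 52514916), (66, 1, 1, 20333856, 69423456), (66, 1, 1, 20337696, 70406496), (64, 1, 1, 20276256, 54677856), (64, 1, 1, 20268576, 37966176), (24, 16, 16, 50619681, 52715781), (57, 1, 1, 19289091, 70387041), (23,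 16, 16, 84292161, 73478661), (55, 1, 1, 19219971, 37946721), (55, 16, 16, 86074416, 56759616), (47, 16, 16, 85156896, 56770896), (147, 16, 16, 104072466, 103043091), (159, 1, 1, 20336676, 70275426), (55, 16, 16, 86066736, 40047936), (47, 16, 16, 85149216, 40059216), (147, 16, 16, 104091666, 104091666), (159, 1, 1, 20317476, 69226851), (97, 16, 16, 85221936, 56889936), (52, 16, 16, 68379936, 52838736), (151, 16, 16, 85206576, 40112976), (157, 1, 1, 19948836, 52449636)]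
  [(23, 72), (24, -216), (26, -72), (27, 216), (55, -432), (57, 216), (64, 432), (66, -216), (90, 72), (97, 288), (147, -72), (151, -288), (159, 0)] = true := by
  decide +kernel

theorem t60_0_6 : chkS lk60 2 5 [(1, m60_0)] l60_6
  [(49, 16, 16, 101930016, 103956816), (47, 16, 16, 51733536, 54681936), (99, 16, 16, 101995056, 104075856), (90, 16, 16, 68571696, 70652496), (57, 16, 16, 102847536, 103945536), (23, 1, 1, 101003796, 104870421), (66, 1, 1, 103896096, 103960896), (147, 16, 16, 70668306, 70668306), (152, 16, 16, 101983536, 103027536), (147, 16, 16, 70649106, 69619731), (49, 1, 1, 101929986, 103956561), (26, 16, 16, 100881441, 103956741), (47, 1, 1, 51733506, 54681681), (90, 1, 1, 68560131, 69600081), (147, 1, 1, 70668321, 70668546), (90, 1, 1, 68571651, 70648401)]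
  [(23, -288), (26, 288), (57, -288), (66, 288), (90, 288), (99, 288), (147, -288), (152, -288)] = true := by
  decide +kernel

theorem t60_0_7 : chkS lk60 2 5 [(1, m60_0)] l60_7
  [(50, 16, 16, 1266720, 3293520), (51, 16, 16, 1389600, 4338000), (101, 16, 16, 1331760, 3412560), (38, 1, 1, 206100, 2114325), (58, 16, 16, 2184240, 3282240), (32, 1, 1, 340500, 4207125), (41, 16, 16, 283425, 3416325), (37, 1, 1, 1393155, 4391505), (153, 16, 16, 1320240, 2364240), (37, 1, 1, 1385475, 4326225), (50, 1, 1, 1266690, 3293265), (36, 16, 16, 1201200, 3282000), (51, 1, 1, 1389570, 4337745), (38, 16, 16, 217665, 3228165), (37, 16, 16, 1393200, 4395600), (38, 16, 16, 206145, 2179845)]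
  [(32, -288), (36, 288), (37, -288), (38, 288), (41, 288), (58, -288), (101, 288), (153, -288)] = true := by
  decide +kernel

theorem t60_0_8 : chkS lk60 2 5 [(1, m60_0)] l60_8
  [(53, 16, 16, 1266720, 3293520), (22, 16, 16, 218145, 3293445), (156, 16, 16, 3409170, 2379795), (162, 16, 16, 3212610, 2183235), (53, 1, 1, 1266690, 3293265), (25, 1, 1, 214290, 2310165), (107, 1, 1, 1320195, 2360145), (162, 1, 1, 3212580, 2117955)]
  [(22, -576), (25, 576), (107, 576), (156, -576), (162, 0)] = true := by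
  decide +kernel

theorem t60_1_1 : chkS lk60 2 5 [(1, m60_1)] l60_1
  [(83, 1, 1, 87318786, 56905761), (84, 1, 1, 87441666, 73617441), (169, 16, 16, 33907761, 54662661), (169, 16, 16, 33907521, 54601221), (116, 1, 1, 88481811, 73728786), (116, 1, 1, 72441891, 55968066), (115, 1, 1, 88236051, 56951826), (166, 16, 16, 33968961, 70329861), (93, 1, 1, 55861266, 55861266), (95, 1, 1, 55861266, 55861266), (142, 1, 1, 88171296, 56959296), (89, 1, 1, 55844886, 5530386), (90, 1, 1, 55844886, 5530386), (56, 1, 1, 54616101, 50684226), (55, 1, 1, 54616101, 50684226), (159, 16, 16, 33969201, 70391301), (93, 1, 1, 55861506, 55861281), (95, 1, 1, 55861506, 55861281), (142, 1, 1, 88171056, 56955456), (138, 1, 1, 72572946, 55984146), (89, 1, 1, 55845126, 5530401), (90, 1, 1, 55845126, 5530401), (135, 1, 1, 72556566, 5653266), (159, 16, 16, 33968961, 70329861), (89, 1, 1, 87319041,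 56906241), (89, 1, 1, 87318561, 56905986), (56, 1, 1, 70668306, 70668306), (135, 1, 1, 88171056, 56955456), (82, 1, 1, 87318786, 56905761), (61, 1, 1, 69619971, 70649121), (113, 1, 1, 88236051, 56951826), (112, 1, 1, 87121956, 56643906), (90, 1, 1, 87441921, 73617921), (90, 1, 1, 87441441, 73617666), (55, 1, 1, 70606866, 54939666), (61, 1, 1, 37970181, 50677281), (60, 1, 1, 69558531, 54920481), (166, 1, 1, 87433236, 73421586), (112, 1, 1, 55844886, 5530386), (166, 1, 1, 87433476, 73421601), (123, 1, 1, 55861506, 55861281), (124, 1, 1, 55861506, 55861281), (175, 16, 16, 67450401, 38154501), (175, 16, 16, 67449441, 21377541), (141, 1, 1, 55984146, 72572946), (141, 16, 16, 87121986, 56709186), (137, 1, 1, 55861266, 55861266), (161, 1, 1, 38162451, 70583826), (94, 1, 1, 39084291, 55838241), (96, 1, 1, 39084291, 55838241), (117, 16, 16, 86074416, 56759616), (89,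 1, 1, 40120581, 84162081), (91, 1, 1, 39072006, 5518881), (77, 1, 1, 37970181, 50677281), (76, 1, 1, 37970181, 50677281), (167, 1, 1, 37113876, 70276626), (94, 1, 1, 39084051, 55838226), (96, 1, 1, 39084051, 55838226), (117, 16, 16, 86074176, 56698176), (114, 1, 1, 39084051, 55838226), (89, 1, 1, 40120341, 84162066), (91, 1, 1, 39071766, 5518866), (112, 1, 1, 40120341, 84162066), (167, 1, 1, 37114116, 70276641), (89, 16, 16, 103043856, 104080656), (89, 16, 16, 103043376, 104076576), (77, 16, 16, 69620016, 70653216), (112, 16, 16, 102847296, 103884096), (122, 1, 1, 55845126, 5530401), (69, 16, 16, 69619971, 70649121), (134, 1, 1, 55844886, 5530386), (135, 16, 16, 102846531, 103875906), (91, 16, 16, 86393616, 73606416), (91, 16, 16, 86393136, 73602336), (76, 16, 16, 69558576, 54924576), (69, 1, 1, 37970181, 50677281), (68, 1, 1, 37970181, 50677281), (161, 16,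 16, 84288561, 73536261), (135, 1, 1, 40058901, 84100626), (161, 16, 16, 84288321, 73474821)]
  [(55, -144), (56, 144), (60, 72), (61, -144), (68, -72), (69, 144), (76, 144), (77, -144), (82, -144), (83, 144), (84, 72), (90, -432), (91, 432), (93, 144), (94, -144), (95, 216), (96, -216), (113, 144), (114, 72), (115, -144), (116, -144), (122, 144), (123, -144), (124, -72), (134, -144), (137, 144), (138, -72), (141, 144), (161, -144), (166, 144), (169, 144), (175, -144)] = true := by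
  decide +kernel

theorem t60_1_2 : chkS lk60 2 5 [(1, m60_1)] l60_2
  [(62, 1, 1, 54939906, 70606881), (116, 16, 16, 19285296, 69408096), (114, 16, 16, 19161936, 51651936), (16, 1, 1, 105972516, 105914691), (80, 1, 1, 54939666, 70606866), (140, 16, 16, 20276226, 54677601), (77, 1, 1, 55975956, 72377106), (136, 16, 16, 19289091, 70387041), (80, 1, 1, 54939906, 70606881), (140, 16, 16, 20275266, 54612066), (77, 1, 1, 55976196, 72377121), (136, 16, 16, 19288131, 70321506), (91, 1, 1, 104092161, 104092161), (18, 16, 16, 68302416, 35009616), (61, 1, 1, 55976196, 72377121), (112, 1, 1, 73478181, 84291906), (97, 1, 1, 87319041, 56906241), (97, 1, 1, 87318561, 56905986), (165, 1, 1, 73605141, 84296466), (165, 1, 1, 73605381, 84296481), (73, 1, 1, 54939906, 70606881), (141, 1, 1, 21386016, 70590816), (140, 1, 1, 21324336, 54858336), (18, 16, 16, 34879056, 34879056),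 (57, 1, 1, 21385731, 70582881), (114, 1, 1, 22307331, 55837281), (56, 1, 1, 22426116, 72364641), (112, 1, 1, 23343621, 84161121), (57, 1, 1, 21385251, 70582626), (114, 1, 1, 22306851, 55837026), (56, 1, 1, 22425636, 72364386), (112, 1, 1, 23343141, 84160866), (90, 16, 16, 103043856, 104080656), (16, 1, 1, 22414116, 72360291), (69, 1, 1, 55976196, 72377121), (136, 16, 16, 102846531, 103875906), (97, 16, 16, 86270736, 56894736), (97, 16, 16, 86270256, 56890656), (158, 1, 1, 23085621, 84087396), (158, 1, 1, 23085861, 84091236)]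
  [(16, -144), (18, 144), (56, 360), (57, -360), (61, -216), (62, 216), (69, 216), (73, -216), (77, -360), (80, 360), (90, 72), (91, -72), (112, 144), (114, -144), (116, 72), (136, -144), (140, 144), (141, -72), (158, -288), (165, 288)] = true := by
  decide +kernel

theorem t60_1_3 : chkS lk60 2 5 [(1, m60_1)] l60_3
  [(84, 1, 1, 87441666, 73617441), (83, 1, 1, 87318786, 56905761), (116, 1, 1, 88482051, 73728801), (116, 1, 1, 88481811, 73728786), (169, 16, 16, 33907521, 54601221), (115, 1, 1, 88236051, 56951826), (116, 1, 1, 72441891, 55968066), (166, 16, 16, 33969201, 70391301), (95, 1, 1, 55861266, 55861266), (93, 1, 1, 55861266, 55861266), (138, 1, 1, 72573186, 55984161), (90, 1, 1, 55844886, 5530386), (89, 1, 1, 55844886, 5530386), (55, 1, 1, 54616101, 50684226), (56, 1, 1, 54616101, 50684226), (135, 1, 1, 72556806, 5653281), (95, 1, 1, 55861506, 55861281),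 (93, 1, 1, 55861506, 55861281), (138, 1, 1, 72572946, 55984146), (142, 1, 1, 88171056, 56955456), (90, 1, 1, 55845126, 5530401), (89, 1, 1, 55845126, 5530401), (159, 16, 16, 33968961, 70329861), (135, 1, 1, 72556566, 5653266), (56, 1, 1, 70668546, 70668321), (56, 1, 1, 70668306, 70668306), (89, 1, 1, 87318561, 56905986), (135, 1, 1, 88171296, 56959296), (61, 1, 1, 69619971, 70649121), (82, 1, 1, 87318786, 56905761), (112, 1, 1, 87121956, 56643906), (113, 1, 1, 88236051, 56951826), (55, 1, 1, 70607106, 54939681), (55, 1, 1, 70606866, 54939666), (90, 1, 1, 87441441, 73617666), (60, 1, 1, 69558531, 54920481), (61, 1, 1, 37970181, 50677281), (112, 1, 1, 55845126, 5530401), (166, 1, 1, 87433476, 73421601), (112, 1, 1, 55844886, 5530386), (124, 1, 1, 55861506, 55861281), (123, 1, 1, 55861506, 55861281), (141, 1, 1, 55984386, 72572961), (141, 1, 1, 55984146, 72572946),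 (175, 16, 16, 67449441, 21377541), (137, 1, 1, 55861266, 55861266), (141, 16, 16, 87121986, 56709186), (161, 1, 1, 38162691, 70583841), (96, 1, 1, 39084291, 55838241), (94, 1, 1, 39084291, 55838241), (114, 1, 1, 39084291, 55838241), (91, 1, 1, 39072006, 5518881), (89, 1, 1, 40120581, 84162081), (76, 1, 1, 37970181, 50677281), (77, 1, 1, 37970181, 50677281), (112, 1, 1, 40120581, 84162081), (96, 1, 1, 39084051, 55838226), (94, 1, 1, 39084051, 55838226), (114, 1, 1, 39084051, 55838226), (117, 16, 16, 86074176, 56698176), (91, 1, 1, 39071766, 5518866), (89, 1, 1, 40120341, 84162066), (167, 1, 1, 37114116, 70276641), (112, 1, 1, 40120341, 84162066), (77, 16, 16, 69620496, 70657296), (77, 16, 16, 69620016, 70653216), (89, 16, 16, 103043376, 104076576), (112, 16, 16, 102847536, 103945536), (69, 16, 16, 69619971, 70649121), (122, 1, 1, 55845126, 5530401), (135, 16,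 16, 102846531, 103875906), (134, 1, 1, 55844886, 5530386), (76, 16, 16, 69559056, 54928656), (76, 16, 16, 69558576, 54924576), (91, 16, 16, 86393136, 73602336), (68, 1, 1, 37970181, 50677281), (69, 1, 1, 37970181, 50677281), (135, 1, 1, 40059141, 84100641), (161, 16, 16, 84288321, 73474821), (135, 1, 1, 40058901, 84100626)]
  [(55, -144), (56, -216), (60, -72), (61, -72), (68, 72), (69, 72), (76, 144), (77, 216), (82, -72), (83, 72), (84, 144), (90, -216), (91, 216), (93, 216), (94, -216), (95, 144), (96, -144), (112, 288), (113, 72), (115, -72), (117, 72), (122, 72), (123, -72), (124, -144), (134, -72), (135, -288), (137, 72), (142, -72), (159, 72), (167, -72), (169, -72), (175, 72)] = true := by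
  decide +kernel

theorem t60_1_4 : chkS lk60 2 5 [(1, m60_1)] l60_4
  [(169, 16, 16, 33907761, 54662661), (83, 1, 1, 87318786, 56905761), (116, 1, 1, 88482051, 73728801), (169, 16, 16, 33907521, 54601221), (115, 1, 1, 88236051, 56951826), (116, 1, 1, 88481811, 73728786), (166, 16, 16, 33969201, 70391301), (166, 16, 16, 33968961, 70329861), (142, 1, 1, 88171296, 56959296), (138, 1, 1, 72573186, 55984161), (95, 1, 1, 55861266, 55861266), (56, 1, 1, 54616101, 50684226), (55, 1, 1, 54616101, 50684226), (90, 1, 1, 55844886, 5530386), (135, 1, 1, 72556806, 5653281), (159, 16, 16, 33969201, 70391301), (142, 1, 1, 88171056, 56955456), (93, 1, 1, 55861506, 55861281), (138, 1, 1, 72572946, 55984146), (95, 1, 1, 55861506, 55861281), (89, 1, 1, 55845126, 5530401), (90, 1, 1, 55845126, 5530401), (135, 1, 1, 72556566, 5653266), (159, 16, 16, 33968961, 70329861), (89, 1,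 1, 87318561, 56905986), (135, 1, 1, 88171296, 56959296), (89, 1, 1, 87319041, 56906241), (135, 1, 1, 88171056, 56955456), (56, 1, 1, 70668546, 70668321), (56, 1, 1, 70668306, 70668306), (82, 1, 1, 87318786, 56905761), (113, 1, 1, 88236051, 56951826), (90, 1, 1, 87441441, 73617666), (90, 1, 1, 87441921, 73617921), (55, 1, 1, 70607106, 54939681), (61, 1, 1, 37970181, 50677281), (112, 1, 1, 55845126, 5530401), (166, 1, 1, 87433236, 73421586), (60, 1, 1, 69558531, 54920481), (166, 1, 1, 87433476, 73421601), (175, 16, 16, 67450401, 38154501), (123, 1, 1, 55861506, 55861281), (141, 1, 1, 55984386, 72572961), (175, 16, 16, 67449441, 21377541), (137, 1, 1, 55861266, 55861266), (141, 1, 1, 55984146, 72572946), (161, 1, 1, 38162691, 70583841), (161, 1, 1, 38162451, 70583826), (117, 16, 16, 86074416, 56759616), (114, 1, 1, 39084291, 55838241), (96, 1, 1, 39084291, 55838241),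 (77, 1, 1, 37970181, 50677281), (76, 1, 1, 37970181, 50677281), (91, 1, 1, 39072006, 5518881), (112, 1, 1, 40120581, 84162081), (167, 1, 1, 37113876, 70276626), (117, 16, 16, 86074176, 56698176), (94, 1, 1, 39084051, 55838226), (114, 1, 1, 39084051, 55838226), (96, 1, 1, 39084051, 55838226), (89, 1, 1, 40120341, 84162066), (91, 1, 1, 39071766, 5518866), (112, 1, 1, 40120341, 84162066), (167, 1, 1, 37114116, 70276641), (89, 16, 16, 103043376, 104076576), (112, 16, 16, 102847536, 103945536), (89, 16, 16, 103043856, 104080656), (112, 16, 16, 102847296, 103884096), (77, 16, 16, 69620496, 70657296), (77, 16, 16, 69620016, 70653216), (122, 1, 1, 55845126, 5530401), (134, 1, 1, 55844886, 5530386), (91, 16, 16, 86393136, 73602336), (91, 16, 16, 86393616, 73606416), (76, 16, 16, 69559056, 54928656), (69, 1, 1, 37970181, 50677281), (135, 1, 1, 40059141, 84100641), (161,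 16, 16, 84288561, 73536261), (68, 1, 1, 37970181, 50677281), (161, 16, 16, 84288321, 73474821)]
  [(55, -144), (56, 72), (60, 72), (61, -72), (68, -72), (69, 72), (76, 144), (77, -72), (82, -72), (83, 72), (90, -216), (91, 216), (93, -72), (94, 72), (113, 72), (114, -144), (115, -72), (117, -216), (122, 72), (123, -72), (134, -72), (137, 72), (138, 144), (142, 216), (159, -216), (167, 216), (169, 216), (175, -216)] = true := by
  decide +kernel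

theorem t60_1_5 : chkS lk60 2 5 [(1, m60_1)] l60_5
  [(116, 16, 16, 19285296, 69408096), (62, 1, 1, 54939906, 70606881), (114, 16, 16, 19161936, 51651936), (16, 1, 1, 105972516, 105914691), (140, 16, 16, 20276226, 54677601), (80, 1, 1, 54939666, 70606866), (77, 1, 1, 55975956, 72377106), (136, 16, 16, 19289091, 70387041), (140, 16, 16, 20275266, 54612066), (80, 1, 1, 54939906, 70606881), (77, 1, 1, 55976196, 72377121), (136, 16, 16, 19288131, 70321506), (18, 16, 16, 68302416, 35009616), (91, 1, 1, 104092161, 104092161), (61, 1, 1, 55976196, 72377121), (112, 1, 1, 73478181, 84291906), (97, 1, 1, 87318561, 56905986), (97, 1, 1, 87319041, 56906241), (165, 1, 1, 73605141, 84296466), (165, 1, 1, 73605381, 84296481), (141, 1, 1, 21386016, 70590816), (73, 1, 1, 54939906, 70606881), (140, 1, 1, 21324336, 54858336), (18, 16, 16, 34879056, 34879056), (114, 1, 1, 22307331,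 55837281), (57, 1, 1, 21385731, 70582881), (56, 1, 1, 22426116, 72364641), (112, 1, 1, 23343621, 84161121), (114, 1, 1, 22306851, 55837026), (57, 1, 1, 21385251, 70582626), (56, 1, 1, 22425636, 72364386), (112, 1, 1, 23343141, 84160866), (16, 1, 1, 22414116, 72360291), (90, 16, 16, 103043856, 104080656), (69, 1, 1, 55976196, 72377121), (136, 16, 16, 102846531, 103875906), (97, 16, 16, 86270256, 56890656), (97, 16, 16, 86270736, 56894736), (158, 1, 1, 23085621, 84087396), (158, 1, 1, 23085861, 84091236)]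
  [(16, -432), (18, 432), (56, -72), (57, 72), (61, -72), (62, 72), (69, 72), (73, -72), (77, 72), (80, -72), (90, 216), (91, -216), (112, 432), (114, -432), (116, 216), (136, -432), (140, 432), (141, -216), (158, -288), (165, 288)] = true := by
  decide +kernel

theorem t60_1_6 : chkS lk60 2 5 [(1, m60_1)] l60_6
  [(99, 1, 1, 106176531, 106169106), (57, 1, 1, 104943651, 104137026), (99, 1, 1, 106176771, 106169121), (90, 16, 16, 69620016, 70653216), (62, 1, 1, 105074946, 104153121), (116, 16, 16, 102843216, 101918016), (73, 1, 1, 105074946, 104153121), (69, 1, 1, 106111236, 105923361), (98, 1, 1, 106180626, 106180626), (56, 1, 1, 105984036, 105918786), (98, 1, 1, 106180866, 106180641), (141, 1, 1, 104944176, 104141376), (80, 1, 1, 105074946, 104153121), (77, 1, 1, 106111236, 105923361), (91, 1, 1, 70668321, 70668546), (61, 1, 1, 106111236, 105923361)]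
  [(56, -288), (57, 288), (61, 288), (62, -288), (69, -288), (73, 288), (77, 288), (80, -288), (90, -288), (91, 288), (98, -576), (99, 576), (116, -288), (141, 288)] = true := by
  decide +kernel

theorem t60_1_7 : chkS lk60 2 5 [(1, m60_1)] l60_7
  [(101, 1, 1, 5513235, 5505810), (58, 1, 1, 4280355, 3473730), (101, 1, 1, 5513475, 5505825), (38, 1, 1, 5447700, 5260050), (30, 1, 1, 3428610, 3428385), (118, 1, 1, 5513235, 5505810), (74, 1, 1, 4411650, 3489825), (72, 1, 1, 4399365, 344865), (100, 1, 1, 5517330, 5517330), (42, 16, 16, 2429955, 4326705), (100, 1, 1, 5517570, 5517345), (40, 16, 16, 1389120, 4272720), (43, 16, 16, 1266240, 3228240), (38, 16, 16, 2183235, 3212610), (42, 16, 16, 1254480, 1196880), (34, 1, 1, 2441475, 4392225)]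
  [(30, -288), (34, 288), (40, 288), (43, -288), (58, 288), (72, -288), (74, 288), (100, -576), (101, 576), (118, -288)] = true := by
  decide +kernel

theorem t60_1_8 : chkS lk60 2 5 [(1, m60_1)] l60_8
  [(107, 16, 16, 2380560, 3417360), (120, 16, 16, 2184000, 3220800), (176, 16, 16, 2425875, 4326675), (178, 16, 16, 2164035, 2164035), (108, 1, 1, 3428865, 3428865), (17, 1, 1, 4281120, 3481920), (172, 1, 1, 3473940, 4215315), (15, 1, 1, 4260645, 336195)]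
  [(15, -576), (17, 576), (107, 576), (108, -576), (120, -576), (172, 576), (176, -576), (178, 576)] = true := by
  decide +kernel

theorem t60_2_2 : chkS lk60 2 5 [(1, m60_2)] l60_2
  [(7, 1, 1, 70668546, 70668321), (115, 16, 16, 35017776, 70391376), (115, 16, 16, 34956096, 54601296), (111, 16, 16, 35017776, 70391376), (79, 1, 1, 54939666, 70606866), (138, 16, 16, 51668256, 52715856), (76, 1, 1, 55975956, 72377106), (133, 16, 16, 20337666, 70406241), (79, 1, 1, 54939906, 70606881), (138, 16, 16, 51667536, 51667536), (76, 1, 1, 55976196, 72377121), (133, 16, 16, 20336706, 70340706), (76, 1, 1, 87441921, 73617921), (133, 16, 16, 51652176, 34890576), (60, 1, 1, 87441666, 73617441), (166, 1, 1, 73543941, 84292641), (76, 1, 1, 87319041, 56906241), (76, 1, 1, 87318561, 56905986), (166, 1, 1, 73605141, 84296466), (166, 1, 1, 73605381, 84296481), (10, 16, 16, 35017776,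 70391376), (137, 16, 16, 68564256, 69611856), (137, 16, 16, 68379216, 51790416), (5, 16, 16, 35017776, 70391376), (24, 1, 1, 70668306, 70668306), (114, 16, 16, 68314416, 52827216), (55, 1, 1, 22426116, 72364641), (16, 16, 16, 101918016, 102843216), (24, 1, 1, 70668546, 70668321), (114, 16, 16, 68313936, 51782736), (55, 1, 1, 22425636, 72364386), (16, 16, 16, 101917776, 101860176), (55, 16, 16, 85345056, 73605456), (16, 1, 1, 23397156, 88088931), (68, 1, 1, 55976196, 72377121), (160, 16, 16, 101864256, 103883856), (55, 16, 16, 85222176, 56893776), (55, 16, 16, 85221936, 56889936), (160, 16, 16, 102048816, 104993616), (160, 16, 16, 102048576, 104932176)]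
  [(5, 72), (7, 216), (10, -216), (16, -144), (24, -360), (55, 720), (60, -216), (68, 216), (76, -720), (79, 360), (111, -72), (114, 72), (115, -144), (133, 144), (137, 144), (138, -72), (160, -504), (166, 504)] = true := by
  decide +kernel

theorem t60_2_3 : chkS lk60 2 5 [(1, m60_2)] l60_3
  [(62, 1, 1, 70607106, 54939681), (62, 1, 1, 70668546, 70668321), (114, 16, 16, 35017776, 70391376), (114, 16, 16, 35017536, 70329936), (116, 16, 16, 35017536, 70329936), (114, 16, 16, 34956096, 54601296), (116, 16, 16, 34956096, 54601296), (16, 1, 1, 90382596, 90194721), (80, 1, 1, 70606881, 54939906), (80, 1, 1, 70668321, 70668546), (140, 16, 16, 51668256, 52715856), (97, 1, 1, 55975956, 72377106), (91, 1, 1, 56893461, 84173586), (97, 1, 1, 55730196, 55600146), (91, 1, 1, 56770581, 84108306), (18, 16, 16, 21385731, 70582881), (80, 1, 1, 70607361, 54940161), (80, 1, 1,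 70668801, 70668801), (140, 16, 16, 51667536, 51667536), (142, 16, 16, 51667536, 51667536), (97, 1, 1, 55976196, 72377121), (91, 1, 1, 56893701, 84173601), (157, 16, 16, 35017536, 70329936), (18, 16, 16, 21385251, 70582626), (54, 1, 1, 87441666, 73617441), (54, 1, 1, 87441426, 73617426), (77, 1, 1, 87441441, 73617666), (136, 16, 16, 34879056, 34879056), (59, 1, 1, 87441666, 73617441), (61, 1, 1, 87441666, 73617441), (165, 1, 1, 88236291, 56951841), (112, 1, 1, 105009171, 104137746), (54, 1, 1, 87318786, 56905761), (54, 1, 1, 87318546, 56905746), (77, 1, 1, 87318561, 56905986), (59, 1, 1, 87318786, 56905761), (61, 1, 1, 87318786, 56905761), (112, 1, 1, 105193731, 105186081), (165, 1, 1, 88482051, 73728801), (112, 1, 1, 105193491, 105186066), (73, 16, 16, 70607106, 54939681), (73, 16, 16, 70668546, 70668321), (140, 16, 16, 68564256, 69611856), (140, 16, 16, 68563536,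 68563536), (141, 16, 16, 68563536, 68563536), (140, 16, 16, 68379216, 51790416), (141, 16, 16, 68379216, 51790416), (18, 1, 1, 19289136, 70391136), (57, 16, 16, 68510256, 54923856), (57, 16, 16, 68571696, 70652496), (114, 16, 16, 85091376, 56759376), (97, 1, 1, 39203076, 72365601), (90, 1, 1, 40120581, 84162081), (97, 1, 1, 39018756, 55592481), (90, 1, 1, 40059141, 84100641), (16, 16, 16, 85141056, 39928656), (57, 16, 16, 68510496, 54927696), (57, 16, 16, 68571936, 70656336), (114, 16, 16, 85091136, 56697936), (117, 16, 16, 85091136, 56697936), (97, 1, 1, 39202836, 72365586), (90, 1, 1, 40120341, 84162066), (164, 1, 1, 38162691, 70583841), (16, 16, 16, 85140576, 23216976), (54, 16, 16, 85345056, 73605456), (54, 16, 16, 85344816, 73601616), (56, 16, 16, 85344816, 73601616), (112, 16, 16, 101864496, 103945296), (67, 16, 16, 87441666, 73617441), (69, 16, 16, 87441666,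 73617441), (158, 16, 16, 101864256, 103883856), (136, 1, 1, 40120341, 84162066), (54, 16, 16, 85222176, 56893776), (54, 16, 16, 85221936, 56889936), (56, 16, 16, 85221936, 56889936), (67, 16, 16, 87318786, 56905761), (69, 16, 16, 87318786, 56905761), (136, 1, 1, 40059141, 84100641), (158, 16, 16, 102048576, 104932176), (136, 1, 1, 40058901, 84100626)]
  [(16, -72), (18, 72), (57, -360), (59, -216), (62, 216), (67, 216), (73, -216), (80, 360), (90, 288), (91, -288), (112, 216), (114, 72), (116, -216), (117, 72), (136, -216), (140, -72), (141, 216), (142, -72), (157, 72), (158, -216), (164, -72), (165, 216)] = true := by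
  decide +kernel

theorem t60_2_4 : chkS lk60 2 5 [(1, m60_2)] l60_4
  [(116, 16, 16, 35017776, 70391376), (62, 1, 1, 70668546, 70668321), (114, 16, 16, 35017776, 70391376), (116, 16, 16, 35017536, 70329936), (114, 16, 16, 34956096, 54601296), (114, 16, 16, 35017536, 70329936), (16, 1, 1, 90382596, 90194721), (16, 1, 1, 90382356, 90194706), (142, 16, 16, 51668256, 52715856), (140, 16, 16, 51668256, 52715856), (80, 1, 1, 70606881, 54939906), (91, 1, 1, 56770581, 84108306), (97, 1, 1, 55730196, 55600146), (97, 1, 1, 55975956, 72377106), (18, 16, 16, 21385731, 70582881), (157, 16, 16, 35017776, 70391376), (142, 16, 16, 51667536, 51667536), (80, 1, 1, 70668801, 70668801), (140, 16, 16, 51667536, 51667536), (80, 1, 1, 70607361, 54940161), (91, 1, 1, 56893701, 84173601), (97, 1, 1, 55976196, 72377121), (18, 16, 16, 21385251, 70582626), (157, 16, 16, 35017536, 70329936),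 (77, 1, 1, 87441441, 73617666), (136, 16, 16, 34879056, 34879056), (77, 1, 1, 87441921, 73617921), (136, 16, 16, 34878816, 19150416), (54, 1, 1, 87441666, 73617441), (54, 1, 1, 87441426, 73617426), (61, 1, 1, 87441666, 73617441), (112, 1, 1, 105009171, 104137746), (77, 1, 1, 87318561, 56905986), (77, 1, 1, 87319041, 56906241), (54, 1, 1, 87318786, 56905761), (61, 1, 1, 87318786, 56905761), (112, 1, 1, 105193731, 105186081), (165, 1, 1, 88481811, 73728786), (59, 1, 1, 87318786, 56905761), (165, 1, 1, 88482051, 73728801), (141, 16, 16, 68564256, 69611856), (73, 16, 16, 70668546, 70668321), (140, 16, 16, 68564256, 69611856), (141, 16, 16, 68563536, 68563536), (140, 16, 16, 68379216, 51790416), (140, 16, 16, 68563536, 68563536), (18, 1, 1, 19289136, 70391136), (18, 1, 1, 19288896, 70329696), (117, 16, 16, 85091376, 56759376), (114, 16, 16, 85091376, 56759376), (57,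 16, 16, 68510256, 54923856), (90, 1, 1, 40059141, 84100641), (97, 1, 1, 39018756, 55592481), (97, 1, 1, 39203076, 72365601), (16, 16, 16, 85141056, 39928656), (164, 1, 1, 38162451, 70583826), (117, 16, 16, 85091136, 56697936), (57, 16, 16, 68571936, 70656336), (114, 16, 16, 85091136, 56697936), (57, 16, 16, 68510496, 54927696), (90, 1, 1, 40120341, 84162066), (97, 1, 1, 39202836, 72365586), (16, 16, 16, 85140576, 23216976), (164, 1, 1, 38162691, 70583841), (56, 16, 16, 85344816, 73601616), (112, 16, 16, 101864496, 103945296), (56, 16, 16, 85345056, 73605456), (112, 16, 16, 101864256, 103883856), (54, 16, 16, 85345056, 73605456), (54, 16, 16, 85344816, 73601616), (69, 16, 16, 87441666, 73617441), (136, 1, 1, 40120341, 84162066), (56, 16, 16, 85221936, 56889936), (56, 16, 16, 85222176, 56893776), (54, 16, 16, 85222176, 56893776), (69, 16, 16, 87318786, 56905761),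 (136, 1, 1, 40059141, 84100641), (158, 16, 16, 102048816, 104993616), (67, 16, 16, 87318786, 56905761), (158, 16, 16, 102048576, 104932176)]
  [(16, -72), (18, 72), (56, 432), (57, 72), (59, 72), (61, -144), (62, 72), (67, -72), (69, 144), (73, -72), (77, -432), (80, -72), (90, -144), (91, 144), (112, -72), (114, -216), (116, 216), (117, -216), (136, 72), (140, 216), (141, -216), (142, 216), (157, -216), (158, -216), (164, 216), (165, 216)] = true := by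
  decide +kernel

theorem t60_2_5 : chkS lk60 2 5 [(1, m60_2)] l60_5
  [(115, 16, 16, 35017776, 70391376), (7, 1, 1, 70668546, 70668321), (115, 16, 16, 34956096, 54601296), (111, 16, 16, 35017776, 70391376), (138, 16, 16, 51668256, 52715856), (79, 1, 1, 54939666, 70606866), (76, 1, 1, 55975956, 72377106), (133, 16, 16, 20337666, 70406241), (138, 16, 16, 51667536, 51667536), (79, 1, 1, 54939906, 70606881), (76, 1, 1, 55976196, 72377121), (133, 16, 16, 20336706, 70340706), (133, 16, 16, 51652176, 34890576), (76, 1, 1, 87441921, 73617921), (60, 1, 1, 87441666, 73617441), (166, 1, 1, 73543941, 84292641), (76, 1, 1, 87318561, 56905986), (76, 1, 1, 87319041, 56906241), (166, 1, 1, 73605141, 84296466), (166, 1, 1, 73605381, 84296481), (137, 16, 16, 68564256, 69611856), (10, 16, 16, 35017776, 70391376), (137, 16, 16, 68379216, 51790416), (5, 16, 16, 35017776, 70391376),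 (114, 16, 16, 68314416, 52827216), (24, 1, 1, 70668306, 70668306), (55, 1, 1, 22426116, 72364641), (16, 16, 16, 101918016, 102843216), (114, 16, 16, 68313936, 51782736), (24, 1, 1, 70668546, 70668321), (55, 1, 1, 22425636, 72364386), (16, 16, 16, 101917776, 101860176), (16, 1, 1, 23397156, 88088931), (55, 16, 16, 85345056, 73605456), (68, 1, 1, 55976196, 72377121), (160, 16, 16, 101864256, 103883856), (55, 16, 16, 85221936, 56889936), (55, 16, 16, 85222176, 56893776), (160, 16, 16, 102048816, 104993616), (160, 16, 16, 102048576, 104932176)]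
  [(5, 216), (7, 72), (10, -72), (16, 144), (24, 72), (55, 432), (60, -72), (68, 72), (76, -432), (79, -72), (111, -216), (114, -360), (115, 144), (133, -144), (137, -144), (138, 360), (160, -360), (166, 360)] = true := by
  decide +kernel

theorem t60_2_6 : chkS lk60 2 5 [(1, m60_2)] l60_6
  [(57, 16, 16, 102056736, 105062736), (57, 16, 16, 101995296, 104079696), (57, 16, 16, 102056496, 105058896), (23, 1, 1, 106110996, 105923346), (62, 1, 1, 104091906, 104091681), (116, 16, 16, 101860176, 101917776), (73, 16, 16, 104091906, 104091681), (70, 16, 16, 104153346, 105074721), (80, 1, 1, 104153121, 105074946), (92, 1, 1, 73543701, 84292626), (80, 1, 1, 104153601, 105075201), (139, 16, 16, 101986896, 101986896), (80, 1, 1, 104092161, 104092161), (92, 1, 1, 73605381, 84296481), (78, 1, 1, 104153121, 105074946), (9, 1, 1, 104153346, 105074721)]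
  [(9, 288), (23, -288), (57, 864), (62, -288), (70, -288), (73, 288), (78, 288), (80, -864), (116, -288), (139, 288)] = true := by
  decide +kernel

theorem t60_2_7 : chkS lk60 2 5 [(1, m60_2)] l60_7
  [(58, 16, 16, 1393440, 4399440), (58, 16, 16, 1332000, 3416400), (58, 16, 16, 1393200, 4395600), (32, 1, 1, 5447700, 5260050), (30, 1, 1, 4411650, 3489825), (118, 16, 16, 1200960, 3220560), (74, 16, 16, 3428610, 3428385), (71, 16, 16, 3490050, 4411425), (43, 16, 16, 3478530, 4345905), (102, 1, 1, 5386260, 5256210), (43, 16, 16, 3477570, 4280370), (39, 16, 16, 4395090, 1392690), (43, 16, 16, 3231810, 3231810), (102, 1, 1, 5447940, 5260065), (32, 16, 16, 1254480, 1196880), (33, 1, 1, 3490050, 4411425)]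
  [(30, -288), (33, 288), (39, 288), (43, -864), (58, 864), (71, -288), (74, 288), (118, -288)] = true := by
  decide +kernel

theorem t60_2_8 : chkS lk60 2 5 [(1, m60_2)] l60_8
  [(22, 16, 16, 3490305, 4411905), (120, 16, 16, 1200960, 3220560), (163, 16, 16, 1385520, 4330320), (8, 16, 16, 1254720, 2179920), (81, 1, 1, 3490305, 4411905), (19, 1, 1, 4281120, 3481920), (168, 1, 1, 4522515, 4522515), (14, 1, 1, 5309220, 5251395)]
  [(8, 576), (14, -576), (19, 576), (22, 576), (81, -576), (120, -576), (163, -576), (168, 576)] = true := by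
  decide +kernel

theorem t60_3_3 : chkS lk60 2 5 [(1, m60_3)] l60_3
  [(83, 1, 1, 87441666, 73617441), (84, 1, 1, 87318786, 56905761), (115, 1, 1, 88482051, 73728801), (115, 1, 1, 88481811, 73728786), (116, 1, 1, 72749091, 72745266), (116, 1, 1, 88236051, 56951826), (169, 16, 16, 33968961, 70329861), (166, 16, 16, 33907761, 54662661), (93, 1, 1, 55984146, 72572946), (95, 1, 1, 55984146, 72572946), (142, 1, 1, 72573186, 55984161), (55, 1, 1, 54923301, 67461426), (56, 1, 1, 54923301, 67461426), (90, 1, 1, 55722006, 5465106), (89, 1, 1, 55722006, 5465106), (135, 1, 1, 72495366, 5649441), (93, 1, 1, 55984386, 72572961), (95, 1, 1, 55984386, 72572961), (142, 1, 1, 72572946, 55984146), (174, 16, 16, 50614881, 20210181), (55, 1, 1, 54923781, 67461681), (56, 1, 1, 54923781, 67461681), (159, 16, 16, 33907521, 54601221), (135, 1, 1, 72495126, 5649426), (55, 1, 1, 70668546,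 70668321), (55, 1, 1, 70668306, 70668306), (90, 1, 1, 87318561, 56905986), (159, 1, 1, 88236291, 56951841), (60, 1, 1, 69619971, 70649121), (61, 1, 1, 38154501, 67450401), (166, 1, 1, 87187716, 56644641), (112, 1, 1, 55722006, 5465106), (56, 1, 1, 70607106, 54939681), (56, 1, 1, 70606866, 54939666), (89, 1, 1, 87441441, 73617666), (61, 1, 1, 69558531, 54920481), (82, 1, 1, 87441666, 73617441), (113, 1, 1, 88482051, 73728801), (112, 1, 1, 87429156, 73421106), (113, 1, 1, 88481811, 73728786), (123, 1, 1, 55984386, 72572961), (124, 1, 1, 55984386, 72572961), (137, 1, 1, 55984386, 72572961), (137, 1, 1, 55984146, 72572946), (141, 16, 16, 87429186, 73486386), (141, 1, 1, 55861266, 55861266), (175, 16, 16, 67326561, 20333061), (161, 1, 1, 38101251, 54855201), (94, 1, 1, 39207171, 72549921), (96, 1, 1, 39207171, 72549921), (117, 1, 1, 38101251, 54855201), (76, 1, 1,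 38154501, 67450401), (77, 1, 1, 38154501, 67450401), (91, 1, 1, 39010566, 5457441), (89, 1, 1, 40059141, 84100641), (112, 1, 1, 40059141, 84100641), (94, 1, 1, 39206931, 72549906), (96, 1, 1, 39206931, 72549906), (117, 1, 1, 38101011, 54855186), (170, 16, 16, 100815681, 103883781), (76, 1, 1, 38154261, 67450386), (77, 1, 1, 38154261, 67450386), (167, 1, 1, 37052676, 54548001), (112, 1, 1, 40058901, 84100626), (76, 16, 16, 69620496, 70657296), (76, 16, 16, 69620016, 70653216), (91, 16, 16, 86270256, 56890656), (167, 16, 16, 84042801, 56759301), (68, 1, 1, 38154501, 67450401), (69, 1, 1, 38154501, 67450401), (161, 16, 16, 84042561, 56697861), (135, 1, 1, 40120341, 84162066), (77, 16, 16, 69559056, 54928656), (77, 16, 16, 69558576, 54924576), (89, 16, 16, 103104816, 105059616), (69, 16, 16, 69558531, 54920481), (122, 1, 1, 55722246, 5465121), (134, 1, 1, 55722246,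 5465121), (135, 16, 16, 103092291, 104924466), (134, 1, 1, 55722006, 5465106)]
  [(55, -288), (56, -432), (60, -144), (61, -144), (68, 144), (69, 144), (76, 288), (77, 432), (82, 72), (83, 144), (84, 72), (90, 144), (91, -144), (93, 144), (94, -144), (95, 216), (96, -216), (112, 144), (113, 216), (115, 144), (116, -144), (122, -72), (123, -144), (124, -72), (134, -216), (135, -144), (137, -144), (141, 144), (159, 144), (161, -72), (166, 72), (167, -144), (169, -144), (170, 72), (174, -72), (175, 144)] = true := by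
  decide +kernel

theorem t60_3_4 : chkS lk60 2 5 [(1, m60_3)] l60_4
  [(116, 1, 1, 72749571, 72745521), (84, 1, 1, 87318786, 56905761), (115, 1, 1, 88482051, 73728801), (116, 1, 1, 72749091, 72745266), (116, 1, 1, 88236051, 56951826), (115, 1, 1, 88481811, 73728786), (166, 16, 16, 33907761, 54662661), (166, 16, 16, 33907521, 54601221), (174, 16, 16, 50615841, 36987141), (142, 1, 1, 72573186, 55984161), (93, 1, 1, 55984146, 72572946), (89, 1, 1, 55722006, 5465106), (90, 1, 1, 55722006, 5465106), (55, 1, 1, 54923301, 67461426), (135, 1, 1, 72495366, 5649441), (159, 16, 16, 33907761, 54662661), (174, 16, 16, 50614881, 20210181), (95, 1, 1, 55984386, 72572961), (142, 1, 1, 72572946, 55984146), (93, 1, 1, 55984386, 72572961), (56, 1, 1, 54923781, 67461681), (55, 1, 1, 54923781, 67461681), (135, 1, 1, 72495126, 5649426), (159, 16, 16, 33907521, 54601221), (90, 1,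 1, 87318561, 56905986), (159, 1, 1, 88236291, 56951841), (90, 1, 1, 87319041, 56906241), (159, 1, 1, 88236051, 56951826), (55, 1, 1, 70668546, 70668321), (55, 1, 1, 70668306, 70668306), (61, 1, 1, 38154501, 67450401), (112, 1, 1, 55722006, 5465106), (89, 1, 1, 87441441, 73617666), (89, 1, 1, 87441921, 73617921), (56, 1, 1, 70607106, 54939681), (82, 1, 1, 87441666, 73617441), (113, 1, 1, 88482051, 73728801), (112, 1, 1, 87429636, 73421361), (61, 1, 1, 69558531, 54920481), (112, 1, 1, 87429156, 73421106), (141, 16, 16, 87430146, 73551921), (124, 1, 1, 55984386, 72572961), (137, 1, 1, 55984386, 72572961), (141, 16, 16, 87429186, 73486386), (141, 1, 1, 55861266, 55861266), (137, 1, 1, 55984146, 72572946), (161, 1, 1, 38101251, 54855201), (161, 1, 1, 38101011, 54855186), (170, 16, 16, 100815921, 103945221), (117, 1, 1, 38101251, 54855201), (94, 1, 1, 39207171, 72549921),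 (89, 1, 1, 40059141, 84100641), (91, 1, 1, 39010566, 5457441), (76, 1, 1, 38154501, 67450401), (112, 1, 1, 40059141, 84100641), (167, 1, 1, 37052436, 54547986), (170, 16, 16, 100815681, 103883781), (96, 1, 1, 39206931, 72549906), (117, 1, 1, 38101011, 54855186), (94, 1, 1, 39206931, 72549906), (77, 1, 1, 38154261, 67450386), (76, 1, 1, 38154261, 67450386), (112, 1, 1, 40058901, 84100626), (167, 1, 1, 37052676, 54548001), (91, 16, 16, 86270256, 56890656), (167, 16, 16, 84042801, 56759301), (91, 16, 16, 86270736, 56894736), (167, 16, 16, 84042561, 56697861), (76, 16, 16, 69620496, 70657296), (76, 16, 16, 69620016, 70653216), (69, 1, 1, 38154501, 67450401), (135, 1, 1, 40120341, 84162066), (89, 16, 16, 103104816, 105059616), (89, 16, 16, 103105296, 105063696), (77, 16, 16, 69559056, 54928656), (122, 1, 1, 55722246, 5465121), (134, 1, 1, 55722246, 5465121), (135,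 16, 16, 103093251, 104990001), (69, 16, 16, 69558531, 54920481), (135, 16, 16, 103092291, 104924466)]
  [(82, -72), (84, 72), (90, -288), (91, 288), (95, -72), (96, 72), (112, 432), (113, 72), (116, 144), (117, -144), (122, 72), (124, -72), (134, -72), (135, -432), (141, -144), (142, 144), (161, 216), (166, -216), (170, -216), (174, 216)] = true := by
  decide +kernel

theorem t60_3_5 : chkS lk60 2 5 [(1, m60_3)] l60_5
  [(114, 16, 16, 19285296, 69408096), (62, 1, 1, 54878466, 54878241), (116, 16, 16, 19161936, 51651936), (16, 1, 1, 105911076, 105914676), (142, 16, 16, 20276226, 54677601), (80, 1, 1, 54878226, 54878226), (54, 1, 1, 55971876, 72376626), (136, 16, 16, 19227651, 54658401), (142, 16, 16, 20275266, 54612066), (80, 1, 1, 54878466, 54878241), (54, 1, 1, 55972356, 72376881), (136, 16, 16, 19226691, 54592866), (157, 16, 16, 19138131, 34866531), (97,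 1, 1, 87441921, 73617921), (59, 1, 1, 55976196, 72377121), (165, 1, 1, 73543941, 84292641), (91, 1, 1, 104153121, 105074946), (91, 1, 1, 104153601, 105075201), (112, 1, 1, 73601541, 84296241), (112, 1, 1, 73601061, 84295986), (140, 1, 1, 21386016, 70590816), (73, 1, 1, 54878466, 54878241), (141, 1, 1, 21324336, 54858336), (18, 16, 16, 34817616, 34817616), (117, 1, 1, 21324291, 54854241), (57, 1, 1, 21324291, 54854241), (54, 1, 1, 22426116, 72364641), (112, 1, 1, 23282181, 84099681), (117, 1, 1, 21323811, 54853986), (57, 1, 1, 21323811, 54853986), (54, 1, 1, 22425636, 72364386), (112, 1, 1, 23281701, 84099426), (164, 16, 16, 67253841, 35009541), (97, 16, 16, 86393616, 73606416), (67, 1, 1, 55976196, 72377121), (158, 1, 1, 23331621, 84156771), (90, 16, 16, 103104816, 105059616), (90, 16, 16, 103105296, 105063696), (136, 16, 16, 103093251, 104990001), (136, 16,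 16, 103092291, 104924466)]
  [(16, -216), (18, 216), (57, 72), (59, -72), (62, 72), (67, 72), (73, -72), (80, -72), (90, 288), (91, -288), (112, 648), (114, 216), (116, -72), (117, -360), (136, -648), (140, -216), (141, 72), (142, 360), (157, 216), (158, -72), (164, -216), (165, 72)] = true := by
  decide +kernel

theorem t60_3_6 : chkS lk60 2 5 [(1, m60_3)] l60_6
  [(57, 1, 1, 105189411, 105185586), (99, 1, 1, 106053651, 106103826), (57, 1, 1, 105189891, 105185841), (90, 16, 16, 69558576, 54924576), (85, 1, 1, 104153346, 105074721), (117, 1, 1, 105189411, 105185586), (125, 1, 1, 106119426, 106119201), (69, 1, 1, 106049796, 105919521), (80, 1, 1, 105197586, 105197586), (77, 1, 1, 106049556, 105919506), (80, 1, 1, 105197826, 105197601), (142, 16, 16, 104140866, 104943666), (98, 1, 1, 106119426, 106119201), (56, 1, 1, 106107396, 105923121), (91, 1, 1, 70606881,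 54939906), (61, 1, 1, 106049796, 105919521)]
  [(56, 288), (57, 576), (61, 288), (69, -288), (77, -288), (80, -576), (85, -288), (90, -288), (91, 288), (98, -288), (99, 288), (117, -288), (125, 288), (142, 288)] = true := by
  decide +kernel

theorem t60_3_7 : chkS lk60 2 5 [(1, m60_3)] l60_7
  [(58, 1, 1, 4526115, 4522290), (101, 1, 1, 5390355, 5440530), (58, 1, 1, 4526595, 4522545), (38, 1, 1, 5386260, 5256210), (86, 1, 1, 3490050, 4411425), (119, 1, 1, 4530195, 4522770), (126, 1, 1, 5456130, 5455905), (72, 1, 1, 4337925, 341025), (43, 16, 16, 1389600, 4338000), (38, 16, 16, 2429955, 4326705), (43, 16, 16, 1389120, 4272720), (143, 1, 1, 5455890, 5455890), (100, 1, 1, 5456130, 5455905), (42, 16, 16, 2183235, 3212610), (42, 16, 16, 1193040, 1193040), (34, 1, 1, 2380035, 3409185)]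
  [(34, 288), (38, -576), (42, 576), (43, -576), (58, 576), (72, -288), (86, -288), (100, -288), (101, 288), (119, -288), (126, 288), (143, 288)] = true := by
  decide +kernel

theorem t60_3_8 : chkS lk60 2 5 [(1, m60_3)] l60_8
  [(107, 16, 16, 2442000, 4400400), (171, 16, 16, 152625, 3281925), (144, 16, 16, 2429955, 4326705), (178, 16, 16, 2102595, 2164020), (108, 1, 1, 3490305, 4411905), (177, 1, 1, 4215585, 3481860), (121, 1, 1, 3478020, 4215345), (15, 1, 1, 4199205, 336180)]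
  [(15, -576), (107, 576), (108, -576), (121, 576), (144, -576), (171, -576), (177, 576), (178, 576)] = true := by
  decide +kernel

theorem t60_4_4 : chkS lk60 2 5 [(1, m60_4)] l60_4
  [(83, 1, 1, 87299586, 40128561), (169, 16, 16, 33900081, 37950981), (84, 1, 1, 87430146, 73551921), (169, 16, 16, 33896001, 37828101), (166, 16, 16, 33961281, 69285381), (116, 1, 1, 88474131, 73728531), (116, 1, 1, 72418851, 39190851), (115, 1, 1, 88213011, 40174611), (138, 1, 1, 72553986, 39206961), (142, 1, 1, 88159776, 40186176), (142, 1, 1, 72749826, 72753201), (135, 1, 1, 72552966, 5653041), (159, 16, 16, 33965361, 69408261), (90, 1, 1, 55837206, 5530131), (56, 1, 1, 54593061, 33907011), (55, 1, 1, 54593061, 33907011), (135, 1, 1, 88159776, 40186176), (89, 1, 1, 87303681, 40129281), (135, 1, 1, 88155696, 40178496), (56, 1, 1, 70653186, 69619761), (82, 1, 1, 87299586, 40128561),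 (61, 1, 1, 69604611, 69600561), (113, 1, 1, 88213011, 40174611), (112, 1, 1, 87098916, 39866691), (174, 16, 16, 50668641, 21127941), (142, 1, 1, 88155696, 40178496), (93, 1, 1, 55842306, 39084081), (138, 1, 1, 72549906, 39206931), (95, 1, 1, 55842306, 39084081), (142, 1, 1, 72745746, 72753171), (89, 1, 1, 55841286, 5530161), (135, 1, 1, 72548886, 5653011), (159, 1, 1, 88478211, 73728561), (55, 1, 1, 70587906, 38162481), (90, 1, 1, 87434241, 73552641), (112, 1, 1, 55841286, 5530161), (61, 1, 1, 37950981, 33900081), (60, 1, 1, 69539331, 38143281), (166, 1, 1, 87425556, 73421331), (166, 1, 1, 87429636, 73421361), (123, 1, 1, 55842306, 39084081), (175, 16, 16, 67461921, 54927621), (124, 1, 1, 55842306, 39084081), (175, 16, 16, 67445601, 21373701), (161, 1, 1, 38143251, 69535251), (141, 1, 1, 55968786, 72507411), (141, 16, 16, 87098946, 39931971), (137, 1, 1, 55838226,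 39084051), (114, 1, 1, 39065091, 39061041), (117, 16, 16, 86066736, 40047936), (117, 1, 1, 38147331, 69535281), (112, 1, 1, 40112901, 84158001), (167, 1, 1, 37094676, 69228051), (91, 1, 1, 39064326, 5514801), (77, 1, 1, 37950981, 33900081), (76, 1, 1, 37950981, 33900081), (112, 16, 16, 102843696, 102962496), (89, 16, 16, 103036176, 103036176), (112, 16, 16, 102839616, 102839616), (77, 16, 16, 69612816, 69612816), (122, 1, 1, 55841286, 5530161), (69, 16, 16, 69604611, 69600561), (134, 1, 1, 55837206, 5530131), (135, 16, 16, 102827331, 102827331), (170, 16, 16, 101003841, 104935941), (117, 16, 16, 86062656, 39925056), (94, 1, 1, 39061011, 39061011), (114, 1, 1, 39061011, 39061011), (96, 1, 1, 39061011, 39061011), (117, 1, 1, 38143251, 69535251), (89, 1, 1, 40108821, 84157971), (112, 1, 1, 40108821, 84157971), (167, 16, 16, 84296241, 73601541), (76, 16, 16, 69547536,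 38155536), (91, 16, 16, 86389776, 73544976), (135, 1, 1, 40047621, 84035121), (69, 1, 1, 37950981, 33900081), (68, 1, 1, 37950981, 33900081), (161, 16, 16, 84296241, 73601541), (161, 16, 16, 84292161, 73478661)]
  [(55, -288), (56, -144), (60, 144), (61, 144), (68, -144), (69, -144), (76, 288), (77, 144), (82, 72), (83, 144), (84, 72), (90, -144), (91, 144), (93, -144), (94, 144), (95, -72), (96, 72), (112, -432), (113, -72), (114, -288), (115, -144), (116, -144), (117, -288), (122, -72), (123, -144), (124, -72), (134, 72), (135, 432), (137, 144), (138, 288), (141, 144), (142, 288), (159, -144), (161, -72), (166, 72), (167, 144), (169, 144), (170, 72), (174, -72), (175, -144)] = true := by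
  decide +kernel

theorem t60_4_5 : chkS lk60 2 5 [(1, m60_4)] l60_5
  [(62, 1, 1, 54924546, 69558321), (116, 16, 16, 19289136, 70391136), (16, 1, 1, 105984036, 105918786), (114, 16, 16, 19150416, 34878816), (140, 16, 16, 20268546, 37965921), (142, 16, 16, 20333826, 69423201), (77, 1, 1, 55968276, 72376851), (54, 1, 1, 55641636, 38822211), (18, 16, 16, 68313936, 51782736), (91, 1, 1, 104080641, 103043841), (61, 1, 1, 55972356, 72376881), (112, 1, 1, 73466661, 84287811), (140, 16, 16, 20252226, 37834851), (80, 1, 1, 54924546, 69558321), (77, 1, 1, 55972356, 72376881), (136, 16, 16, 19268931, 69272931), (157, 16, 16, 18900051, 51512676), (97, 1, 1, 87303681, 40129281), (59, 1, 1, 55711236, 38822961), (165, 1, 1, 73601541, 84296241), (73, 1, 1, 54924546, 69558321), (141, 1, 1, 21378336, 69546336), (18, 16, 16, 34890576, 51652176), (140, 1, 1, 21308976, 38081376),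 (114, 1, 1, 22291971, 39060321), (117, 1, 1, 21374211, 69534561), (56, 1, 1, 22422276, 72360801), (54, 1, 1, 22226436, 38814561), (16, 1, 1, 22425636, 72364386), (90, 16, 16, 103036176, 103036176), (69, 1, 1, 55972356, 72376881), (136, 16, 16, 102827331, 102827331), (114, 1, 1, 22283811, 39059811), (57, 1, 1, 21366051, 69534051), (56, 1, 1, 22414116, 72360291), (112, 1, 1, 23331621, 84156771), (164, 16, 16, 67330641, 51790341), (97, 16, 16, 86259216, 40121616), (67, 1, 1, 55711236, 38822961), (158, 1, 1, 23082021, 84029796)]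
  [(16, -216), (18, 216), (56, 144), (57, 216), (59, 216), (61, 144), (62, 216), (67, -216), (69, -144), (73, -216), (77, -144), (80, -216), (90, 144), (91, -144), (112, -216), (114, -648), (116, 72), (117, -72), (136, 216), (140, 648), (141, -72), (142, 72), (157, -72), (158, -72), (164, 72), (165, 72)] = true := by
  decide +kernel

theorem t60_4_6 : chkS lk60 2 5 [(1, m60_4)] l60_6
  [(99, 1, 1, 106168851, 106168851), (90, 16, 16, 69612816, 69612816), (85, 1, 1, 104076546, 103043121), (117, 1, 1, 104924451, 103088451), (116, 16, 16, 102847536, 103945536), (116, 16, 16, 102839376, 101856576), (141, 1, 1, 104936736, 103100736), (56, 1, 1, 105972516, 105914691), (125, 1, 1, 106173186, 106176561), (69, 1, 1, 106107396, 105923121), (98, 1, 1, 106173186, 106176561), (141, 1, 1, 104932656, 103093056), (91, 1, 1, 70657281, 69620481), (61, 1, 1, 106107396, 105923121),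 (142, 16, 16, 103875906, 102846531), (77, 1, 1, 106107396, 105923121)]
  [(56, -288), (61, 288), (69, -288), (77, 288), (85, 288), (90, 288), (91, -288), (98, -288), (99, 288), (116, -576), (117, -288), (125, -288), (141, 576), (142, 288)] = true := by
  decide +kernel

theorem t60_4_7 : chkS lk60 2 5 [(1, m60_4)] l60_7
  [(101, 1, 1, 5505555, 5505555), (38, 1, 1, 5444100, 5259825), (86, 1, 1, 3413250, 2379825), (119, 1, 1, 4326675, 2425875), (118, 1, 1, 5509635, 5505585), (118, 1, 1, 5505555, 5505555), (40, 16, 16, 1393440, 4399440), (42, 16, 16, 2441475, 4392225), (126, 1, 1, 5509890, 5513265), (72, 1, 1, 4395525, 344625), (100, 1, 1, 5509890, 5513265), (40, 16, 16, 1385280, 4268880), (42, 16, 16, 1266240, 3228240), (34, 1, 1, 2429955, 4326705), (143, 1, 1, 5505810, 5513235), (38, 16, 16, 2164035, 2164035)]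
  [(34, 288), (38, 576), (40, 576), (42, -576), (72, -288), (86, 288), (100, -288), (101, 288), (118, -576), (119, -288), (126, -288), (143, 288)] = true := by
  decide +kernel

theorem t60_4_8 : chkS lk60 2 5 [(1, m60_4)] l60_8
  [(107, 16, 16, 2372880, 2372880), (120, 16, 16, 2176320, 2176320), (130, 16, 16, 2364675, 2360625), (144, 16, 16, 2164035, 2164035), (108, 1, 1, 3417345, 2380545), (17, 1, 1, 4273440, 2437440), (87, 1, 1, 2364675, 2360625), (121, 1, 1, 3212580, 2117955)]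
  [(17, 576), (87, 576), (107, 576), (108, -576), (120, -576), (121, -576), (130, -576), (144, 576)] = true := by
  decide +kernel

theorem t60_5_5 : chkS lk60 2 5 [(1, m60_5)] l60_5
  [(7, 1, 1, 70653186, 69619761), (115, 16, 16, 35013936, 69408336), (111, 16, 16, 35013936, 69408336), (115, 16, 16, 34944576, 37828176), (138, 16, 16, 51664416, 36987216), (138, 16, 16, 51794976, 70410576), (76, 1, 1, 55968276, 72376851), (76, 1, 1, 55707156, 38822931), (133, 16, 16, 51667536, 51667536), (76, 1, 1, 87434241, 73552641), (60, 1, 1, 87430146, 73551921), (166, 1, 1, 73536261, 84288561), (138, 16, 16, 51652176, 34890576), (79, 1, 1, 54924546, 69558321), (76, 1, 1, 55972356, 72376881), (133, 16, 16, 20317506, 69292131), (133, 16, 16, 51536976, 51536976), (76, 1, 1, 87303681, 40129281), (60, 1, 1, 87299586, 40128561), (166, 1, 1, 73601541, 84296241), (10, 16, 16, 35013936,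 69408336), (137, 16, 16, 68571936, 70656336), (5, 16, 16, 35013936, 69408336), (137, 16, 16, 68363856, 35013456), (114, 16, 16, 68310576, 37098576), (114, 16, 16, 68571696, 70652496), (55, 1, 1, 22422276, 72360801), (55, 1, 1, 22226436, 38814561), (16, 1, 1, 23408676, 88093026), (55, 16, 16, 85341216, 73544016), (68, 1, 1, 55972356, 72376881), (160, 16, 16, 101856576, 102839376), (114, 16, 16, 68302416, 35009616), (24, 1, 1, 70653186, 69619761), (55, 1, 1, 22414116, 72360291), (16, 16, 16, 101925456, 101925456), (16, 1, 1, 23082276, 85995876), (55, 16, 16, 85210656, 40120656), (68, 1, 1, 55711236, 38822961), (160, 16, 16, 102052416, 104936016)]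
  [(5, 72), (7, 216), (10, -216), (16, -144), (24, 216), (55, 720), (60, 360), (68, -360), (76, -720), (79, -216), (111, -72), (114, -504), (115, -144), (133, 144), (137, 144), (138, 504), (160, 72), (166, -72)] = true := by
  decide +kernel

theorem t60_5_6 : chkS lk60 2 5 [(1, m60_5)] l60_6
  [(57, 16, 16, 102052896, 105001296), (23, 1, 1, 106107396, 105923121), (62, 1, 1, 104141826, 105009201), (116, 16, 16, 101986896, 101986896), (116, 16, 16, 101864496, 103945296), (116, 16, 16, 101856336, 101856336), (139, 16, 16, 101995296, 104079696), (92, 1, 1, 73532181, 84288531), (73, 16, 16, 104141826, 105009201), (70, 16, 16, 104141826, 105009201), (80, 1, 1, 104145921, 105009921), (139, 16, 16, 101983056, 101983056), (78, 1, 1, 104145921, 105009921), (9, 1, 1, 104141826, 105009201), (139, 16, 16, 101917776, 101860176), (92, 1, 1, 73601541, 84296241)]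
  [(9, 288), (23, 288), (57, 288), (62, 288), (70, -288), (73, -288), (78, -288), (80, -288), (116, -864), (139, 864)] = true := by
  decide +kernel

theorem t60_5_7 : chkS lk60 2 5 [(1, m60_5)] l60_7
  [(58, 16, 16, 1389600, 4338000), (32, 1, 1, 5444100, 5259825), (30, 1, 1, 4526850, 4530225), (118, 16, 16, 1389120, 4272720), (118, 16, 16, 1197360, 2298960), (118, 16, 16, 1193280, 2176080), (39, 16, 16, 4411650, 3489825), (102, 1, 1, 5374740, 5252115), (74, 16, 16, 3478530, 4345905), (71, 16, 16, 3478530, 4345905), (43, 16, 16, 3473730, 4280355), (39, 16, 16, 4391250, 1392675), (32, 16, 16, 1266240, 3228240), (33, 1, 1, 3478530, 4345905), (39, 16, 16, 4260690, 1384515), (102, 1, 1, 5444100, 5259825)]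
  [(30, 288), (33, 288), (39, 864), (43, -288), (58, 288), (71, -288), (74, -288), (118, -864)] = true := by
  decide +kernel

theorem t60_5_8 : chkS lk60 2 5 [(1, m60_5)] l60_8
  [(22, 16, 16, 3482625, 4346625), (120, 16, 16, 1193280, 2176080), (75, 16, 16, 3478530, 4345905), (163, 16, 16, 1193280, 2176080), (81, 1, 1, 3482625, 4346625), (19, 1, 1, 4273440, 2437440), (11, 1, 1, 3478530, 4345905), (168, 1, 1, 4199715, 2425140)]
  [(11, 576), (19, 576), (22, 576), (75, -576), (81, -576), (120, -576), (163, 576), (168, -576)] = true := by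
  decide +kernel

theorem t60_6_6 : chkS lk60 2 5 [(1, m60_6)] l60_6
  [(4, 16, 16, 106181136, 106181136), (84, 16, 16, 73740816, 88486416), (104, 16, 16, 105198096, 105198096), (96, 1, 1, 104989011, 102040611), (96, 16, 16, 105009936, 104145936), (84, 1, 1, 73732146, 88477746), (95, 16, 16, 105075201, 104153601), (96, 1, 1, 104988981, 100996131), (104, 16, 16, 105194241, 105194241), (96, 1, 1, 104992821, 100996146), (127, 16, 16, 105198096, 105198096), (124, 1, 1, 105058386, 102055986), (124, 16, 16, 105075216, 104153616), (95, 1, 1, 105054501, 101007651), (95, 1, 1, 105058386, 102055986), (95, 1, 1, 105058341, 101007666)]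
  [(4, 288), (95, 1152), (96, -1152), (127, -288)] = true := by
  decide +kernel

theorem t60_6_7 : chkS lk60 2 5 [(1, m60_6)] l60_7
  [(31, 16, 16, 5517840, 5517840), (30, 16, 16, 5456400, 5456400), (105, 16, 16, 4534800, 4534800), (58, 16, 16, 5517840, 5517840), (58, 1, 1, 5509155, 5505330), (30, 1, 1, 5443650, 5324850), (43, 1, 1, 5321280, 5321280), (58, 16, 16, 5517825, 5517825), (105, 16, 16, 4530945, 4530945), (58, 16, 16, 5513985, 5513985), (128, 16, 16, 4534800, 4534800), (74, 16, 16, 5509170, 5509170), (74, 1, 1, 5517840, 5517840), (43, 16, 16, 5324835, 5439810), (43, 16, 16, 5309490, 5378115), (43, 16, 16, 5309475, 5374275)]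
  [(31, 288), (43, 1152), (58, -1152), (128, -288)] = true := by
  decide +kernel

theorem t60_6_8 : chkS lk60 2 5 [(1, m60_6)] l60_8
  [(3, 16, 16, 5517840, 5517840), (173, 16, 16, 5260065, 5447940), (109, 16, 16, 4526850, 4530225), (21, 16, 16, 5309490, 5378115), (131, 1, 1, 4534800, 4534800), (21, 1, 1, 5321280, 5321280), (109, 1, 1, 4522515, 4522515), (173, 1, 1, 5247540, 5247540)]
  [(3, 576), (21, 1152), (131, -576), (173, -1152)] = true := by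
  decide +kernel

theorem t60_7_7 : chkS lk60 2 5 [(1, m60_7)] l60_7
  [(44, 16, 16, 274960, 274960), (0, 16, 16, 274960, 274960), (106, 16, 16, 274960, 274960), (12, 1, 1, 266290, 266290), (12, 16, 16, 274945, 274945), (0, 1, 1, 266290, 266290), (45, 1, 1, 200770, 81970), (12, 1, 1, 266275, 262450), (106, 16, 16, 271105, 271105), (12, 1, 1, 262435, 262435), (129, 16, 16, 274960, 274960), (1, 16, 16, 148240, 205840), (1, 1, 1, 135235, 66610), (45, 16, 16, 213505, 213505), (45, 16, 16, 205840, 148240), (45, 16, 16, 205825, 148225)]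
  [(12, -1152), (44, 288), (45, 1152), (129, -288)] = true := by
  decide +kernel

theorem t60_7_8 : chkS lk60 2 5 [(1, m60_7)] l60_8
  [(29, 16, 16, 274960, 274960), (28, 16, 16, 148240, 205840), (110, 16, 16, 267010, 270385), (35, 16, 16, 66610, 135235), (132, 1, 1, 274960, 274960), (35, 1, 1, 78400, 78400), (110, 1, 1, 262675, 262675), (28, 1, 1, 131380, 5155)]
  [(28, -1152), (29, 576), (35, 1152), (132, -576)] = true := by
  decide +kernel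

theorem t60_8_8 : chkS lk60 2 5 [(1, m60_8)] l60_8
  [(6, 16, 16, 144400, 144400), (180, 16, 16, 271120, 271120), (180, 16, 16, 148225, 205825), (13, 16, 16, 144400, 144400), (179, 16, 16, 144400, 144400), (20, 16, 16, 148240, 205840), (20, 16, 16, 271105, 271105), (2, 16, 16, 144400, 144400)]
  [(2, -576), (6, 576), (13, 576), (20, 1152), (179, -576), (180, -1152)] = true := by
  decide +kernel

section

variable {κ ι : Type*} [Fintype κ] [Fintype ι] [Inhabited κ] [Inhabited ι]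

noncomputable def F60_0 (E : Env κ ι) : (Fin 2 → κ) → (Fin 5 → ι) → ℝ := op2 (P12 κ) (P6 ι) (fB E 2 5 m60_0)

noncomputable def F60_1 (E : Env κ ι) : (Fin 2 → κ) → (Fin 5 → ι) → ℝ := op2 (P12 κ) (P6 ι) (fB E 2 5 m60_1)

noncomputable def F60_2 (E : Env κ ι) : (Fin 2 → κ) → (Fin 5 → ι) → ℝ := op2 (P12 κ) (P6 ι) (fB E 2 5 m60_2)

noncomputable def F60_3 (E : Env κ ι) : (Fin 2 → κ) → (Fin 5 → ι) → ℝ := op2 (P12 κ) (P6 ι) (fB E 2 5 m60_3)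

noncomputable def F60_4 (E : Env κ ι) : (Fin 2 → κ) → (Fin 5 → ι) → ℝ := op2 (P12 κ) (P6 ι) (fB E 2 5 m60_4)

noncomputable def F60_5 (E : Env κ ι) : (Fin 2 → κ) → (Fin 5 → ι) → ℝ := op2 (P12 κ) (P6 ι) (fB E 2 5 m60_5)

noncomputable def F60_6 (E : Env κ ι) : (Fin 2 → κ) → (Fin 5 → ι) → ℝ := op2 (P12 κ) (P6 ι) (fB E 2 5 m60_6)

noncomputable def F60_7 (E : Env κ ι) : (Fin 2 → κ) → (Fin 5 → ι) → ℝ := op2 (P12 κ) (P6 ι) (fB E 2 5 m60_7)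

noncomputable def F60_8 (E : Env κ ι) : (Fin 2 → κ) → (Fin 5 → ι) → ℝ := op2 (P12 κ) (P6 ι) (fB E 2 5 m60_8)

def r60_0_0 : List (ℕ × ℤ) := [(27, -72), (66, 144), (79, 72), (80, -144), (93, 144), (95, -72), (103, 72), (104, -72), (138, 216), (140, -216), (149, -144), (150, 72), (154, -72), (155, 72), (174, 0)]

theorem h60_0_0 (E : Env κ ι) : ip (F60_0 E) (F60_0 E) = dotS (ek E lk60) r60_0_0 :=
  op_entryZ E lk60 2 5 _ _ _ _ (pg12 κ) (pg6 ι) m60_0 m60_0 l60_0 z60_0 w60_0 x60_0 (by decide) _ (chkS_sound E lk60 2 5 _ _ _ _ t60_0_0)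

def r60_0_1 : List (ℕ × ℤ) := [(18, -72), (26, -72), (56, 72), (57, -72), (64, -144), (65, 144), (66, 72), (76, 144), (77, -216), (78, 72), (88, 144), (89, -144), (91, 72), (92, -144), (94, 144), (96, -72), (133, 72), (135, 72), (136, -72), (145, -144), (146, 144), (147, -72), (148, 144), (149, -144), (150, 72)]

theorem h60_0_1 (E : Env κ ι) : ip (F60_0 E) (F60_1 E) = dotS (ek E lk60) r60_0_1 :=
  op_entryZ E lk60 2 5 _ _ _ _ (pg12 κ) (pg6 ι) m60_0 m60_1 l60_1 z60_1 w60_1 x60_1 (by decide) _ (chkS_sound E lk60 2 5 _ _ _ _ t60_0_1)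

def r60_0_2 : List (ℕ × ℤ) := [(23, 216), (24, -72), (26, -216), (27, 72), (55, -144), (57, 72), (64, 144), (66, -72), (90, -360), (97, 288), (147, 360), (151, -288), (159, 0)]

theorem h60_0_2 (E : Env κ ι) : ip (F60_0 E) (F60_2 E) = dotS (ek E lk60) r60_0_2 :=
  op_entryZ E lk60 2 5 _ _ _ _ (pg12 κ) (pg6 ι) m60_0 m60_2 l60_2 z60_2 w60_2 x60_2 (by decide) _ (chkS_sound E lk60 2 5 _ _ _ _ t60_0_2)

def r60_0_3 : List (ℕ × ℤ) := [(18, 72), (26, -144), (54, 72), (57, -72), (63, -72), (64, 72), (65, 144), (66, 72), (76, -72), (77, -144), (78, 144), (88, 72), (89, -216), (91, 216), (92, -72), (94, -72), (96, 144), (133, -72), (135, -72), (136, 72), (145, -72), (146, 216), (147, -216), (148, 72), (149, 72), (150, -144)]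

theorem h60_0_3 (E : Env κ ι) : ip (F60_0 E) (F60_3 E) = dotS (ek E lk60) r60_0_3 :=
  op_entryZ E lk60 2 5 _ _ _ _ (pg12 κ) (pg6 ι) m60_0 m60_3 l60_3 z60_3 w60_3 x60_3 (by decide) _ (chkS_sound E lk60 2 5 _ _ _ _ t60_0_3)

def r60_0_4 : List (ℕ × ℤ) := [(18, -72), (54, -216), (56, -144), (57, -216), (63, 216), (64, -216), (65, 144), (66, 216), (76, 216), (88, 72), (89, 72), (91, 72), (92, -72), (94, 216), (133, 72), (135, 72), (136, -72), (145, -72), (146, -72), (147, -72), (148, 72), (149, -216), (150, 0)]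

theorem h60_0_4 (E : Env κ ι) : ip (F60_0 E) (F60_4 E) = dotS (ek E lk60) r60_0_4 :=
  op_entryZ E lk60 2 5 _ _ _ _ (pg12 κ) (pg6 ι) m60_0 m60_4 l60_4 z60_4 w60_4 x60_4 (by decide) _ (chkS_sound E lk60 2 5 _ _ _ _ t60_0_4)

def r60_0_5 : List (ℕ × ℤ) := [(23, 72), (24, -216), (26, -72), (27, 216), (55, -432), (57, 216), (64, 432), (66, -216), (90, 72), (97, 288), (147, -72), (151, -288), (159, 0)]

theorem h60_0_5 (E : Env κ ι) : ip (F60_0 E) (F60_5 E) = dotS (ek E lk60) r60_0_5 :=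
  op_entryZ E lk60 2 5 _ _ _ _ (pg12 κ) (pg6 ι) m60_0 m60_5 l60_5 z60_5 w60_5 x60_5 (by decide) _ (chkS_sound E lk60 2 5 _ _ _ _ t60_0_5)

def r60_0_6 : List (ℕ × ℤ) := [(23, -288), (26, 288), (57, -288), (66, 288), (90, 288), (99, 288), (147, -288), (152, -288)]

theorem h60_0_6 (E : Env κ ι) : ip (F60_0 E) (F60_6 E) = dotS (ek E lk60) r60_0_6 :=
  op_entryZ E lk60 2 5 _ _ _ _ (pg12 κ) (pg6 ι) m60_0 m60_6 l60_6 z60_6 w60_6 x60_6 (by decide) _ (chkS_sound E lk60 2 5 _ _ _ _ t60_0_6)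

def r60_0_7 : List (ℕ × ℤ) := [(32, -288), (36, 288), (37, -288), (38, 288), (41, 288), (58, -288), (101, 288), (153, -288)]

theorem h60_0_7 (E : Env κ ι) : ip (F60_0 E) (F60_7 E) = dotS (ek E lk60) r60_0_7 :=
  op_entryZ E lk60 2 5 _ _ _ _ (pg12 κ) (pg6 ι) m60_0 m60_7 l60_7 z60_7 w60_7 x60_7 (by decide) _ (chkS_sound E lk60 2 5 _ _ _ _ t60_0_7)

def r60_0_8 : List (ℕ × ℤ) := [(22, -576), (25, 576), (107, 576), (156, -576), (162, 0)]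

theorem h60_0_8 (E : Env κ ι) : ip (F60_0 E) (F60_8 E) = dotS (ek E lk60) r60_0_8 :=
  op_entryZ E lk60 2 5 _ _ _ _ (pg12 κ) (pg6 ι) m60_0 m60_8 l60_8 z60_8 w60_8 x60_8 (by decide) _ (chkS_sound E lk60 2 5 _ _ _ _ t60_0_8)

def r60_1_1 : List (ℕ × ℤ) := [(55, -144), (56, 144), (60, 72), (61, -144), (68, -72), (69, 144), (76, 144), (77, -144), (82, -144), (83, 144), (84, 72), (90, -432), (91, 432), (93, 144), (94, -144), (95, 216), (96, -216), (113, 144), (114, 72), (115, -144), (116, -144), (122, 144), (123, -144), (124, -72), (134, -144), (137, 144), (138, -72), (141, 144), (161, -144), (166, 144), (169, 144), (175, -144)]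

theorem h60_1_1 (E : Env κ ι) : ip (F60_1 E) (F60_1 E) = dotS (ek E lk60) r60_1_1 :=
  op_entryZ E lk60 2 5 _ _ _ _ (pg12 κ) (pg6 ι) m60_1 m60_1 l60_1 z60_1 w60_1 x60_1 (by decide) _ (chkS_sound E lk60 2 5 _ _ _ _ t60_1_1)

def r60_1_2 : List (ℕ × ℤ) := [(16, -144), (18, 144), (56, 360), (57, -360), (61, -216), (62, 216), (69, 216), (73, -216), (77, -360), (80, 360), (90, 72), (91, -72), (112, 144), (114, -144), (116, 72), (136, -144), (140, 144), (141, -72), (158, -288), (165, 288)]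

theorem h60_1_2 (E : Env κ ι) : ip (F60_1 E) (F60_2 E) = dotS (ek E lk60) r60_1_2 :=
  op_entryZ E lk60 2 5 _ _ _ _ (pg12 κ) (pg6 ι) m60_1 m60_2 l60_2 z60_2 w60_2 x60_2 (by decide) _ (chkS_sound E lk60 2 5 _ _ _ _ t60_1_2)

def r60_1_3 : List (ℕ × ℤ) := [(55, -144), (56, -216), (60, -72), (61, -72), (68, 72), (69, 72), (76, 144), (77, 216), (82, -72), (83, 72), (84, 144), (90, -216), (91, 216), (93, 216), (94, -216), (95, 144), (96, -144), (112, 288), (113, 72), (115, -72), (117, 72), (122, 72), (123, -72), (124, -144), (134, -72), (135, -288), (137, 72), (142, -72), (159, 72), (167, -72), (169, -72), (175, 72)]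

theorem h60_1_3 (E : Env κ ι) : ip (F60_1 E) (F60_3 E) = dotS (ek E lk60) r60_1_3 :=
  op_entryZ E lk60 2 5 _ _ _ _ (pg12 κ) (pg6 ι) m60_1 m60_3 l60_3 z60_3 w60_3 x60_3 (by decide) _ (chkS_sound E lk60 2 5 _ _ _ _ t60_1_3)

def r60_1_4 : List (ℕ × ℤ) := [(55, -144), (56, 72), (60, 72), (61, -72), (68, -72), (69, 72), (76, 144), (77, -72), (82, -72), (83, 72), (90, -216), (91, 216), (93, -72), (94, 72), (113, 72), (114, -144), (115, -72), (117, -216), (122, 72), (123, -72), (134, -72), (137, 72), (138, 144), (142, 216), (159, -216), (167, 216), (169, 216), (175, -216)]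

theorem h60_1_4 (E : Env κ ι) : ip (F60_1 E) (F60_4 E) = dotS (ek E lk60) r60_1_4 :=
  op_entryZ E lk60 2 5 _ _ _ _ (pg12 κ) (pg6 ι) m60_1 m60_4 l60_4 z60_4 w60_4 x60_4 (by decide) _ (chkS_sound E lk60 2 5 _ _ _ _ t60_1_4)

def r60_1_5 : List (ℕ × ℤ) := [(16, -432), (18, 432), (56, -72), (57, 72), (61, -72), (62, 72), (69, 72), (73, -72), (77, 72), (80, -72), (90, 216), (91, -216), (112, 432), (114, -432), (116, 216), (136, -432), (140, 432), (141, -216), (158, -288), (165, 288)]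

theorem h60_1_5 (E : Env κ ι) : ip (F60_1 E) (F60_5 E) = dotS (ek E lk60) r60_1_5 :=
  op_entryZ E lk60 2 5 _ _ _ _ (pg12 κ) (pg6 ι) m60_1 m60_5 l60_5 z60_5 w60_5 x60_5 (by decide) _ (chkS_sound E lk60 2 5 _ _ _ _ t60_1_5)

def r60_1_6 : List (ℕ × ℤ) := [(56, -288), (57, 288), (61, 288), (62, -288), (69, -288), (73, 288), (77, 288), (80, -288), (90, -288), (91, 288), (98, -576), (99, 576), (116, -288), (141, 288)]

theorem h60_1_6 (E : Env κ ι) : ip (F60_1 E) (F60_6 E) = dotS (ek E lk60) r60_1_6 :=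
  op_entryZ E lk60 2 5 _ _ _ _ (pg12 κ) (pg6 ι) m60_1 m60_6 l60_6 z60_6 w60_6 x60_6 (by decide) _ (chkS_sound E lk60 2 5 _ _ _ _ t60_1_6)

def r60_1_7 : List (ℕ × ℤ) := [(30, -288), (34, 288), (40, 288), (43, -288), (58, 288), (72, -288), (74, 288), (100, -576), (101, 576), (118, -288)]

theorem h60_1_7 (E : Env κ ι) : ip (F60_1 E) (F60_7 E) = dotS (ek E lk60) r60_1_7 :=
  op_entryZ E lk60 2 5 _ _ _ _ (pg12 κ) (pg6 ι) m60_1 m60_7 l60_7 z60_7 w60_7 x60_7 (by decide) _ (chkS_sound E lk60 2 5 _ _ _ _ t60_1_7)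

def r60_1_8 : List (ℕ × ℤ) := [(15, -576), (17, 576), (107, 576), (108, -576), (120, -576), (172, 576), (176, -576), (178, 576)]

theorem h60_1_8 (E : Env κ ι) : ip (F60_1 E) (F60_8 E) = dotS (ek E lk60) r60_1_8 :=
  op_entryZ E lk60 2 5 _ _ _ _ (pg12 κ) (pg6 ι) m60_1 m60_8 l60_8 z60_8 w60_8 x60_8 (by decide) _ (chkS_sound E lk60 2 5 _ _ _ _ t60_1_8)

def r60_2_2 : List (ℕ × ℤ) := [(5, 72), (7, 216), (10, -216), (16, -144), (24, -360), (55, 720), (60, -216), (68, 216), (76, -720), (79, 360), (111, -72), (114, 72), (115, -144), (133, 144), (137, 144), (138, -72), (160, -504), (166, 504)]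

theorem h60_2_2 (E : Env κ ι) : ip (F60_2 E) (F60_2 E) = dotS (ek E lk60) r60_2_2 :=
  op_entryZ E lk60 2 5 _ _ _ _ (pg12 κ) (pg6 ι) m60_2 m60_2 l60_2 z60_2 w60_2 x60_2 (by decide) _ (chkS_sound E lk60 2 5 _ _ _ _ t60_2_2)

def r60_2_3 : List (ℕ × ℤ) := [(16, -72), (18, 72), (57, -360), (59, -216), (62, 216), (67, 216), (73, -216), (80, 360), (90, 288), (91, -288), (112, 216), (114, 72), (116, -216), (117, 72), (136, -216), (140, -72), (141, 216), (142, -72), (157, 72), (158, -216), (164, -72), (165, 216)]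

theorem h60_2_3 (E : Env κ ι) : ip (F60_2 E) (F60_3 E) = dotS (ek E lk60) r60_2_3 :=
  op_entryZ E lk60 2 5 _ _ _ _ (pg12 κ) (pg6 ι) m60_2 m60_3 l60_3 z60_3 w60_3 x60_3 (by decide) _ (chkS_sound E lk60 2 5 _ _ _ _ t60_2_3)

def r60_2_4 : List (ℕ × ℤ) := [(16, -72), (18, 72), (56, 432), (57, 72), (59, 72), (61, -144), (62, 72), (67, -72), (69, 144), (73, -72), (77, -432), (80, -72), (90, -144), (91, 144), (112, -72), (114, -216), (116, 216), (117, -216), (136, 72), (140, 216), (141, -216), (142, 216), (157, -216), (158, -216), (164, 216), (165, 216)]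

theorem h60_2_4 (E : Env κ ι) : ip (F60_2 E) (F60_4 E) = dotS (ek E lk60) r60_2_4 :=
  op_entryZ E lk60 2 5 _ _ _ _ (pg12 κ) (pg6 ι) m60_2 m60_4 l60_4 z60_4 w60_4 x60_4 (by decide) _ (chkS_sound E lk60 2 5 _ _ _ _ t60_2_4)

def r60_2_5 : List (ℕ × ℤ) := [(5, 216), (7, 72), (10, -72), (16, 144), (24, 72), (55, 432), (60, -72), (68, 72), (76, -432), (79, -72), (111, -216), (114, -360), (115, 144), (133, -144), (137, -144), (138, 360), (160, -360), (166, 360)]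

theorem h60_2_5 (E : Env κ ι) : ip (F60_2 E) (F60_5 E) = dotS (ek E lk60) r60_2_5 :=
  op_entryZ E lk60 2 5 _ _ _ _ (pg12 κ) (pg6 ι) m60_2 m60_5 l60_5 z60_5 w60_5 x60_5 (by decide) _ (chkS_sound E lk60 2 5 _ _ _ _ t60_2_5)

def r60_2_6 : List (ℕ × ℤ) := [(9, 288), (23, -288), (57, 864), (62, -288), (70, -288), (73, 288), (78, 288), (80, -864), (116, -288), (139, 288)]

theorem h60_2_6 (E : Env κ ι) : ip (F60_2 E) (F60_6 E) = dotS (ek E lk60) r60_2_6 :=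
  op_entryZ E lk60 2 5 _ _ _ _ (pg12 κ) (pg6 ι) m60_2 m60_6 l60_6 z60_6 w60_6 x60_6 (by decide) _ (chkS_sound E lk60 2 5 _ _ _ _ t60_2_6)

def r60_2_7 : List (ℕ × ℤ) := [(30, -288), (33, 288), (39, 288), (43, -864), (58, 864), (71, -288), (74, 288), (118, -288)]

theorem h60_2_7 (E : Env κ ι) : ip (F60_2 E) (F60_7 E) = dotS (ek E lk60) r60_2_7 :=
  op_entryZ E lk60 2 5 _ _ _ _ (pg12 κ) (pg6 ι) m60_2 m60_7 l60_7 z60_7 w60_7 x60_7 (by decide) _ (chkS_sound E lk60 2 5 _ _ _ _ t60_2_7)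

def r60_2_8 : List (ℕ × ℤ) := [(8, 576), (14, -576), (19, 576), (22, 576), (81, -576), (120, -576), (163, -576), (168, 576)]

theorem h60_2_8 (E : Env κ ι) : ip (F60_2 E) (F60_8 E) = dotS (ek E lk60) r60_2_8 :=
  op_entryZ E lk60 2 5 _ _ _ _ (pg12 κ) (pg6 ι) m60_2 m60_8 l60_8 z60_8 w60_8 x60_8 (by decide) _ (chkS_sound E lk60 2 5 _ _ _ _ t60_2_8)

def r60_3_3 : List (ℕ × ℤ) := [(55, -288), (56, -432), (60, -144), (61, -144), (68, 144), (69, 144), (76, 288), (77, 432), (82, 72), (83, 144), (84, 72), (90, 144), (91, -144), (93, 144), (94, -144), (95, 216), (96, -216), (112, 144), (113, 216), (115, 144), (116, -144), (122, -72), (123, -144), (124, -72), (134, -216), (135, -144), (137, -144), (141, 144), (159, 144), (161, -72), (166, 72), (167, -144), (169, -144), (170, 72), (174, -72), (175, 144)]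

theorem h60_3_3 (E : Env κ ι) : ip (F60_3 E) (F60_3 E) = dotS (ek E lk60) r60_3_3 :=
  op_entryZ E lk60 2 5 _ _ _ _ (pg12 κ) (pg6 ι) m60_3 m60_3 l60_3 z60_3 w60_3 x60_3 (by decide) _ (chkS_sound E lk60 2 5 _ _ _ _ t60_3_3)

def r60_3_4 : List (ℕ × ℤ) := [(82, -72), (84, 72), (90, -288), (91, 288), (95, -72), (96, 72), (112, 432), (113, 72), (116, 144), (117, -144), (122, 72), (124, -72), (134, -72), (135, -432), (141, -144), (142, 144), (161, 216), (166, -216), (170, -216), (174, 216)]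

theorem h60_3_4 (E : Env κ ι) : ip (F60_3 E) (F60_4 E) = dotS (ek E lk60) r60_3_4 :=
  op_entryZ E lk60 2 5 _ _ _ _ (pg12 κ) (pg6 ι) m60_3 m60_4 l60_4 z60_4 w60_4 x60_4 (by decide) _ (chkS_sound E lk60 2 5 _ _ _ _ t60_3_4)

def r60_3_5 : List (ℕ × ℤ) := [(16, -216), (18, 216), (57, 72), (59, -72), (62, 72), (67, 72), (73, -72), (80, -72), (90, 288), (91, -288), (112, 648), (114, 216), (116, -72), (117, -360), (136, -648), (140, -216), (141, 72), (142, 360), (157, 216), (158, -72), (164, -216), (165, 72)]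

theorem h60_3_5 (E : Env κ ι) : ip (F60_3 E) (F60_5 E) = dotS (ek E lk60) r60_3_5 :=
  op_entryZ E lk60 2 5 _ _ _ _ (pg12 κ) (pg6 ι) m60_3 m60_5 l60_5 z60_5 w60_5 x60_5 (by decide) _ (chkS_sound E lk60 2 5 _ _ _ _ t60_3_5)

def r60_3_6 : List (ℕ × ℤ) := [(56, 288), (57, 576), (61, 288), (69, -288), (77, -288), (80, -576), (85, -288), (90, -288), (91, 288), (98, -288), (99, 288), (117, -288), (125, 288), (142, 288)]

theorem h60_3_6 (E : Env κ ι) : ip (F60_3 E) (F60_6 E) = dotS (ek E lk60) r60_3_6 :=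
  op_entryZ E lk60 2 5 _ _ _ _ (pg12 κ) (pg6 ι) m60_3 m60_6 l60_6 z60_6 w60_6 x60_6 (by decide) _ (chkS_sound E lk60 2 5 _ _ _ _ t60_3_6)

def r60_3_7 : List (ℕ × ℤ) := [(34, 288), (38, -576), (42, 576), (43, -576), (58, 576), (72, -288), (86, -288), (100, -288), (101, 288), (119, -288), (126, 288), (143, 288)]

theorem h60_3_7 (E : Env κ ι) : ip (F60_3 E) (F60_7 E) = dotS (ek E lk60) r60_3_7 :=
  op_entryZ E lk60 2 5 _ _ _ _ (pg12 κ) (pg6 ι) m60_3 m60_7 l60_7 z60_7 w60_7 x60_7 (by decide) _ (chkS_sound E lk60 2 5 _ _ _ _ t60_3_7)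

def r60_3_8 : List (ℕ × ℤ) := [(15, -576), (107, 576), (108, -576), (121, 576), (144, -576), (171, -576), (177, 576), (178, 576)]

theorem h60_3_8 (E : Env κ ι) : ip (F60_3 E) (F60_8 E) = dotS (ek E lk60) r60_3_8 :=
  op_entryZ E lk60 2 5 _ _ _ _ (pg12 κ) (pg6 ι) m60_3 m60_8 l60_8 z60_8 w60_8 x60_8 (by decide) _ (chkS_sound E lk60 2 5 _ _ _ _ t60_3_8)

def r60_4_4 : List (ℕ × ℤ) := [(55, -288), (56, -144), (60, 144), (61, 144), (68, -144), (69, -144), (76, 288), (77, 144), (82, 72), (83, 144), (84, 72), (90, -144), (91, 144), (93, -144), (94, 144), (95, -72), (96, 72), (112, -432), (113, -72), (114, -288), (115, -144), (116, -144), (117, -288), (122, -72), (123, -144), (124, -72), (134, 72), (135, 432), (137, 144), (138, 288), (141, 144), (142, 288), (159, -144), (161, -72), (166, 72), (167, 144), (169, 144), (170, 72), (174, -72), (175, -144)]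

theorem h60_4_4 (E : Env κ ι) : ip (F60_4 E) (F60_4 E) = dotS (ek E lk60) r60_4_4 :=
  op_entryZ E lk60 2 5 _ _ _ _ (pg12 κ) (pg6 ι) m60_4 m60_4 l60_4 z60_4 w60_4 x60_4 (by decide) _ (chkS_sound E lk60 2 5 _ _ _ _ t60_4_4)

def r60_4_5 : List (ℕ × ℤ) := [(16, -216), (18, 216), (56, 144), (57, 216), (59, 216), (61, 144), (62, 216), (67, -216), (69, -144), (73, -216), (77, -144), (80, -216), (90, 144), (91, -144), (112, -216), (114, -648), (116, 72), (117, -72), (136, 216), (140, 648), (141, -72), (142, 72), (157, -72), (158, -72), (164, 72), (165, 72)]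

theorem h60_4_5 (E : Env κ ι) : ip (F60_4 E) (F60_5 E) = dotS (ek E lk60) r60_4_5 :=
  op_entryZ E lk60 2 5 _ _ _ _ (pg12 κ) (pg6 ι) m60_4 m60_5 l60_5 z60_5 w60_5 x60_5 (by decide) _ (chkS_sound E lk60 2 5 _ _ _ _ t60_4_5)

def r60_4_6 : List (ℕ × ℤ) := [(56, -288), (61, 288), (69, -288), (77, 288), (85, 288), (90, 288), (91, -288), (98, -288), (99, 288), (116, -576), (117, -288), (125, -288), (141, 576), (142, 288)]

theorem h60_4_6 (E : Env κ ι) : ip (F60_4 E) (F60_6 E) = dotS (ek E lk60) r60_4_6 :=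
  op_entryZ E lk60 2 5 _ _ _ _ (pg12 κ) (pg6 ι) m60_4 m60_6 l60_6 z60_6 w60_6 x60_6 (by decide) _ (chkS_sound E lk60 2 5 _ _ _ _ t60_4_6)

def r60_4_7 : List (ℕ × ℤ) := [(34, 288), (38, 576), (40, 576), (42, -576), (72, -288), (86, 288), (100, -288), (101, 288), (118, -576), (119, -288), (126, -288), (143, 288)]

theorem h60_4_7 (E : Env κ ι) : ip (F60_4 E) (F60_7 E) = dotS (ek E lk60) r60_4_7 :=
  op_entryZ E lk60 2 5 _ _ _ _ (pg12 κ) (pg6 ι) m60_4 m60_7 l60_7 z60_7 w60_7 x60_7 (by decide) _ (chkS_sound E lk60 2 5 _ _ _ _ t60_4_7)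

def r60_4_8 : List (ℕ × ℤ) := [(17, 576), (87, 576), (107, 576), (108, -576), (120, -576), (121, -576), (130, -576), (144, 576)]

theorem h60_4_8 (E : Env κ ι) : ip (F60_4 E) (F60_8 E) = dotS (ek E lk60) r60_4_8 :=
  op_entryZ E lk60 2 5 _ _ _ _ (pg12 κ) (pg6 ι) m60_4 m60_8 l60_8 z60_8 w60_8 x60_8 (by decide) _ (chkS_sound E lk60 2 5 _ _ _ _ t60_4_8)

def r60_5_5 : List (ℕ × ℤ) := [(5, 72), (7, 216), (10, -216), (16, -144), (24, 216), (55, 720), (60, 360), (68, -360), (76, -720), (79, -216), (111, -72), (114, -504), (115, -144), (133, 144), (137, 144), (138, 504), (160, 72), (166, -72)]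

theorem h60_5_5 (E : Env κ ι) : ip (F60_5 E) (F60_5 E) = dotS (ek E lk60) r60_5_5 :=
  op_entryZ E lk60 2 5 _ _ _ _ (pg12 κ) (pg6 ι) m60_5 m60_5 l60_5 z60_5 w60_5 x60_5 (by decide) _ (chkS_sound E lk60 2 5 _ _ _ _ t60_5_5)

def r60_5_6 : List (ℕ × ℤ) := [(9, 288), (23, 288), (57, 288), (62, 288), (70, -288), (73, -288), (78, -288), (80, -288), (116, -864), (139, 864)]

theorem h60_5_6 (E : Env κ ι) : ip (F60_5 E) (F60_6 E) = dotS (ek E lk60) r60_5_6 :=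
  op_entryZ E lk60 2 5 _ _ _ _ (pg12 κ) (pg6 ι) m60_5 m60_6 l60_6 z60_6 w60_6 x60_6 (by decide) _ (chkS_sound E lk60 2 5 _ _ _ _ t60_5_6)

def r60_5_7 : List (ℕ × ℤ) := [(30, 288), (33, 288), (39, 864), (43, -288), (58, 288), (71, -288), (74, -288), (118, -864)]

theorem h60_5_7 (E : Env κ ι) : ip (F60_5 E) (F60_7 E) = dotS (ek E lk60) r60_5_7 :=
  op_entryZ E lk60 2 5 _ _ _ _ (pg12 κ) (pg6 ι) m60_5 m60_7 l60_7 z60_7 w60_7 x60_7 (by decide) _ (chkS_sound E lk60 2 5 _ _ _ _ t60_5_7)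

def r60_5_8 : List (ℕ × ℤ) := [(11, 576), (19, 576), (22, 576), (75, -576), (81, -576), (120, -576), (163, 576), (168, -576)]

theorem h60_5_8 (E : Env κ ι) : ip (F60_5 E) (F60_8 E) = dotS (ek E lk60) r60_5_8 :=
  op_entryZ E lk60 2 5 _ _ _ _ (pg12 κ) (pg6 ι) m60_5 m60_8 l60_8 z60_8 w60_8 x60_8 (by decide) _ (chkS_sound E lk60 2 5 _ _ _ _ t60_5_8)

def r60_6_6 : List (ℕ × ℤ) := [(4, 288), (95, 1152), (96, -1152), (127, -288)]

theorem h60_6_6 (E : Env κ ι) : ip (F60_6 E) (F60_6 E) = dotS (ek E lk60) r60_6_6 :=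
  op_entryZ E lk60 2 5 _ _ _ _ (pg12 κ) (pg6 ι) m60_6 m60_6 l60_6 z60_6 w60_6 x60_6 (by decide) _ (chkS_sound E lk60 2 5 _ _ _ _ t60_6_6)

def r60_6_7 : List (ℕ × ℤ) := [(31, 288), (43, 1152), (58, -1152), (128, -288)]

theorem h60_6_7 (E : Env κ ι) : ip (F60_6 E) (F60_7 E) = dotS (ek E lk60) r60_6_7 :=
  op_entryZ E lk60 2 5 _ _ _ _ (pg12 κ) (pg6 ι) m60_6 m60_7 l60_7 z60_7 w60_7 x60_7 (by decide) _ (chkS_sound E lk60 2 5 _ _ _ _ t60_6_7)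

def r60_6_8 : List (ℕ × ℤ) := [(3, 576), (21, 1152), (131, -576), (173, -1152)]

theorem h60_6_8 (E : Env κ ι) : ip (F60_6 E) (F60_8 E) = dotS (ek E lk60) r60_6_8 :=
  op_entryZ E lk60 2 5 _ _ _ _ (pg12 κ) (pg6 ι) m60_6 m60_8 l60_8 z60_8 w60_8 x60_8 (by decide) _ (chkS_sound E lk60 2 5 _ _ _ _ t60_6_8)

def r60_7_7 : List (ℕ × ℤ) := [(12, -1152), (44, 288), (45, 1152), (129, -288)]

theorem h60_7_7 (E : Env κ ι) : ip (F60_7 E) (F60_7 E) = dotS (ek E lk60) r60_7_7 :=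
  op_entryZ E lk60 2 5 _ _ _ _ (pg12 κ) (pg6 ι) m60_7 m60_7 l60_7 z60_7 w60_7 x60_7 (by decide) _ (chkS_sound E lk60 2 5 _ _ _ _ t60_7_7)

def r60_7_8 : List (ℕ × ℤ) := [(28, -1152), (29, 576), (35, 1152), (132, -576)]

theorem h60_7_8 (E : Env κ ι) : ip (F60_7 E) (F60_8 E) = dotS (ek E lk60) r60_7_8 :=
  op_entryZ E lk60 2 5 _ _ _ _ (pg12 κ) (pg6 ι) m60_7 m60_8 l60_8 z60_8 w60_8 x60_8 (by decide) _ (chkS_sound E lk60 2 5 _ _ _ _ t60_7_8)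

def r60_8_8 : List (ℕ × ℤ) := [(2, -576), (6, 576), (13, 576), (20, 1152), (179, -576), (180, -1152)]

theorem h60_8_8 (E : Env κ ι) : ip (F60_8 E) (F60_8 E) = dotS (ek E lk60) r60_8_8 :=
  op_entryZ E lk60 2 5 _ _ _ _ (pg12 κ) (pg6 ι) m60_8 m60_8 l60_8 z60_8 w60_8 x60_8 (by decide) _ (chkS_sound E lk60 2 5 _ _ _ _ t60_8_8)

theorem row60_0 (E : Env κ ι) : RowG (ek E lk60) (F60_0 E) [F60_0 E, F60_1 E, F60_2 E, F60_3 E, F60_4 E, F60_5 E, F60_6 E, F60_7 E, F60_8 E] [r60_0_0, r60_0_1, r60_0_2, r60_0_3, r60_0_4, r60_0_5, r60_0_6, r60_0_7, r60_0_8] :=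
  rowG_cons _ _ _ _ _ _ (h60_0_0 E) (rowG_cons _ _ _ _ _ _ (h60_0_1 E) (rowG_cons _ _ _ _ _ _ (h60_0_2 E) (rowG_cons _ _ _ _ _ _ (h60_0_3 E) (rowG_cons _ _ _ _ _ _ (h60_0_4 E) (rowG_cons _ _ _ _ _ _ (h60_0_5 E) (rowG_cons _ _ _ _ _ _ (h60_0_6 E) (rowG_cons _ _ _ _ _ _ (h60_0_7 E) (rowG_cons _ _ _ _ _ _ (h60_0_8 E) (rowG_nil _ _)))))))))

theorem row60_1 (E : Env κ ι) : RowG (ek E lk60) (F60_1 E) [F60_1 E, F60_2 E, F60_3 E, F60_4 E, F60_5 E, F60_6 E, F60_7 E, F60_8 E] [r60_1_1, r60_1_2, r60_1_3, r60_1_4, r60_1_5, r60_1_6, r60_1_7, r60_1_8] :=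
  rowG_cons _ _ _ _ _ _ (h60_1_1 E) (rowG_cons _ _ _ _ _ _ (h60_1_2 E) (rowG_cons _ _ _ _ _ _ (h60_1_3 E) (rowG_cons _ _ _ _ _ _ (h60_1_4 E) (rowG_cons _ _ _ _ _ _ (h60_1_5 E) (rowG_cons _ _ _ _ _ _ (h60_1_6 E) (rowG_cons _ _ _ _ _ _ (h60_1_7 E) (rowG_cons _ _ _ _ _ _ (h60_1_8 E) (rowG_nil _ _))))))))

theorem row60_2 (E : Env κ ι) : RowG (ek E lk60) (F60_2 E) [F60_2 E, F60_3 E, F60_4 E, F60_5 E, F60_6 E, F60_7 E, F60_8 E] [r60_2_2, r60_2_3, r60_2_4, r60_2_5, r60_2_6, r60_2_7, r60_2_8] :=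
  rowG_cons _ _ _ _ _ _ (h60_2_2 E) (rowG_cons _ _ _ _ _ _ (h60_2_3 E) (rowG_cons _ _ _ _ _ _ (h60_2_4 E) (rowG_cons _ _ _ _ _ _ (h60_2_5 E) (rowG_cons _ _ _ _ _ _ (h60_2_6 E) (rowG_cons _ _ _ _ _ _ (h60_2_7 E) (rowG_cons _ _ _ _ _ _ (h60_2_8 E) (rowG_nil _ _)))))))

theorem row60_3 (E : Env κ ι) : RowG (ek E lk60) (F60_3 E) [F60_3 E, F60_4 E, F60_5 E, F60_6 E, F60_7 E, F60_8 E] [r60_3_3, r60_3_4, r60_3_5, r60_3_6, r60_3_7, r60_3_8] :=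
  rowG_cons _ _ _ _ _ _ (h60_3_3 E) (rowG_cons _ _ _ _ _ _ (h60_3_4 E) (rowG_cons _ _ _ _ _ _ (h60_3_5 E) (rowG_cons _ _ _ _ _ _ (h60_3_6 E) (rowG_cons _ _ _ _ _ _ (h60_3_7 E) (rowG_cons _ _ _ _ _ _ (h60_3_8 E) (rowG_nil _ _))))))

theorem row60_4 (E : Env κ ι) : RowG (ek E lk60) (F60_4 E) [F60_4 E, F60_5 E, F60_6 E, F60_7 E, F60_8 E] [r60_4_4, r60_4_5, r60_4_6, r60_4_7, r60_4_8] :=
  rowG_cons _ _ _ _ _ _ (h60_4_4 E) (rowG_cons _ _ _ _ _ _ (h60_4_5 E) (rowG_cons _ _ _ _ _ _ (h60_4_6 E) (rowG_cons _ _ _ _ _ _ (h60_4_7 E) (rowG_cons _ _ _ _ _ _ (h60_4_8 E) (rowG_nil _ _)))))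

theorem row60_5 (E : Env κ ι) : RowG (ek E lk60) (F60_5 E) [F60_5 E, F60_6 E, F60_7 E, F60_8 E] [r60_5_5, r60_5_6, r60_5_7, r60_5_8] :=
  rowG_cons _ _ _ _ _ _ (h60_5_5 E) (rowG_cons _ _ _ _ _ _ (h60_5_6 E) (rowG_cons _ _ _ _ _ _ (h60_5_7 E) (rowG_cons _ _ _ _ _ _ (h60_5_8 E) (rowG_nil _ _))))

theorem row60_6 (E : Env κ ι) : RowG (ek E lk60) (F60_6 E) [F60_6 E, F60_7 E, F60_8 E] [r60_6_6, r60_6_7, r60_6_8] :=
  rowG_cons _ _ _ _ _ _ (h60_6_6 E) (rowG_cons _ _ _ _ _ _ (h60_6_7 E) (rowG_cons _ _ _ _ _ _ (h60_6_8 E) (rowG_nil _ _)))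

theorem row60_7 (E : Env κ ι) : RowG (ek E lk60) (F60_7 E) [F60_7 E, F60_8 E] [r60_7_7, r60_7_8] :=
  rowG_cons _ _ _ _ _ _ (h60_7_7 E) (rowG_cons _ _ _ _ _ _ (h60_7_8 E) (rowG_nil _ _))

theorem row60_8 (E : Env κ ι) : RowG (ek E lk60) (F60_8 E) [F60_8 E] [r60_8_8] :=
  rowG_cons _ _ _ _ _ _ (h60_8_8 E) (rowG_nil _ _)

def tab60 : List (List (List (ℕ × ℤ))) := [[r60_0_0, r60_0_1, r60_0_2, r60_0_3, r60_0_4, r60_0_5, r60_0_6, r60_0_7, r60_0_8], [r60_1_1, r60_1_2, r60_1_3, r60_1_4, r60_1_5, r60_1_6, r60_1_7, r60_1_8], [r60_2_2, r60_2_3, r60_2_4, r60_2_5, r60_2_6, r60_2_7, r60_2_8], [r60_3_3, r60_3_4, r60_3_5, r60_3_6, r60_3_7, r60_3_8], [r60_4_4, r60_4_5, r60_4_6, r60_4_7, r60_4_8], [r60_5_5, r60_5_6, r60_5_7, r60_5_8], [r60_6_6, r60_6_7, r60_6_8], [r60_7_7, r60_7_8], [r60_8_8]]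

theorem tri60 (E : Env κ ι) : TriG (ek E lk60) [F60_0 E, F60_1 E, F60_2 E, F60_3 E, F60_4 E, F60_5 E, F60_6 E, F60_7 E, F60_8 E] tab60 := by
  refine triG_cons _ _ _ _ _ (row60_0 E) ?_
  refine triG_cons _ _ _ _ _ (row60_1 E) ?_
  refine triG_cons _ _ _ _ _ (row60_2 E) ?_
  refine triG_cons _ _ _ _ _ (row60_3 E) ?_
  refine triG_cons _ _ _ _ _ (row60_4 E) ?_
  refine triG_cons _ _ _ _ _ (row60_5 E) ?_
  refine triG_cons _ _ _ _ _ (row60_6 E) ?_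
  refine triG_cons _ _ _ _ _ (row60_7 E) ?_
  refine triG_cons _ _ _ _ _ (row60_8 E) ?_
  exact triG_nil _

end

end YMBG
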