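import Pool.Agent.YM.BG.Ga0
import Pool.Agent.YM.BG.Ga1

set_option linter.unusedVariables false
set_option maxRecDepth 100000

open YMEng

namespace YMBG

def lk61 : List Key := [
  (2, 7, [(0, [0], [0, 1]), (0, [1], [0, 2]), (0, [1], [3, 4]), (0, [0], [5, 6]), (1, [], [5, 6]), (1, [], [3, 4]), (4, [], [2]), (4, [], [1])]),
  (2, 7, [(0, [0], [0, 1]), (0, [0], [0, 1]), (0, [1], [2, 3]), (0, [1], [2, 4]), (4, [], [4]), (4, [], [3]), (1, [], [5, 6]), (1, [], [5, 6])]),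
  (2, 7, [(0, [0], [0, 1]), (0, [1], [0, 2]), (0, [1], [3, 4]), (0, [0], [3, 4]), (4, [], [2]), (4, [], [1]), (1, [], [5, 6]), (1, [], [5, 6])]),
  (2, 7, [(0, [0], [0, 1]), (0, [0], [2, 3]), (0, [1], [4, 5]), (0, [1], [4, 6]), (1, [], [0, 5]), (1, [], [2, 3]), (4, [], [1]), (4, [], [6])]),
  (2, 7, [(0, [0], [0, 1]), (0, [1], [0, 2]), (0, [0], [3, 4]), (0, [1], [5, 6]), (1, [], [1, 3]), (1, [], [5, 6]), (4, [], [2]), (4, [], [4])]),
  (2, 7, [(0, [0], [0, 1]), (0, [0], [2, 3]), (0, [1], [0, 4]), (0, [1], [4, 5]), (1, [], [1, 6]), (1, [], [2, 3]), (4, [], [5]), (4, [], [6])]),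
  (2, 7, [(0, [0], [0, 1]), (0, [1], [0, 2]), (0, [1], [2, 3]), (0, [0], [1, 4]), (4, [], [4]), (4, [], [3]), (1, [], [5, 6]), (1, [], [5, 6])]),
  (2, 7, [(0, [0], [0, 1]), (0, [1], [0, 2]), (0, [1], [1, 3]), (0, [0], [4, 5]), (1, [], [2, 6]), (1, [], [4, 5]), (4, [], [3]), (4, [], [6])]),
  (2, 7, [(0, [0], [0, 1]), (0, [1], [0, 2]), (0, [0], [2, 3]), (0, [1], [1, 4]), (4, [], [4]), (4, [], [3]), (1, [], [5, 6]), (1, [], [5, 6])]),
  (2, 7, [(0, [0], [0, 1]), (0, [0], [0, 2]), (0, [1], [1, 2]), (4, [], [3]), (0, [1], [4, 5]), (1, [], [4, 6]), (1, [], [5, 6]), (4, [], [3])]),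
  (2, 7, [(0, [0], [0, 1]), (0, [0], [0, 2]), (0, [1], [1, 2]), (4, [], [3]), (0, [1], [4, 5]), (1, [], [4, 6]), (1, [], [3, 6]), (4, [], [5])]),
  (2, 7, [(0, [0], [0, 1]), (0, [0], [0, 2]), (0, [1], [1, 2]), (4, [], [3]), (0, [1], [4, 5]), (1, [], [4, 6]), (1, [], [3, 5]), (4, [], [6])]),
  (2, 7, [(0, [0], [0, 1]), (0, [0], [0, 2]), (0, [1], [1, 2]), (4, [], [3]), (0, [1], [3, 4]), (1, [], [5, 6]), (1, [], [5, 6]), (4, [], [4])]),
  (2, 7, [(0, [0], [0, 1]), (0, [0], [0, 2]), (0, [1], [3, 2]), (4, [], [1]), (0, [1], [4, 5]), (1, [], [4, 6]), (1, [], [5, 6]), (4, [], [3])]),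
  (2, 7, [(0, [0], [0, 1]), (0, [0], [0, 2]), (0, [1], [3, 2]), (4, [], [1]), (0, [1], [4, 5]), (1, [], [4, 6]), (1, [], [3, 6]), (4, [], [5])]),
  (2, 7, [(0, [0], [0, 1]), (0, [0], [0, 2]), (0, [1], [3, 2]), (4, [], [1]), (0, [1], [4, 5]), (1, [], [4, 6]), (1, [], [3, 5]), (4, [], [6])]),
  (2, 7, [(0, [0], [0, 1]), (0, [0], [0, 2]), (0, [1], [3, 2]), (4, [], [1]), (0, [1], [3, 4]), (1, [], [5, 6]), (1, [], [4, 5]), (4, [], [6])]),
  (2, 7, [(0, [0], [0, 1]), (0, [0], [0, 1]), (0, [1], [2, 3]), (4, [], [3]), (0, [1], [4, 5]), (1, [], [4, 6]), (1, [], [5, 6]), (4, [], [2])]),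
  (2, 7, [(0, [0], [0, 1]), (0, [0], [0, 1]), (0, [1], [2, 3]), (4, [], [3]), (0, [1], [4, 5]), (1, [], [4, 6]), (1, [], [2, 6]), (4, [], [5])]),
  (2, 7, [(0, [0], [0, 1]), (0, [0], [0, 1]), (0, [1], [2, 3]), (4, [], [3]), (0, [1], [4, 5]), (1, [], [4, 6]), (1, [], [2, 5]), (4, [], [6])]),
  (2, 7, [(0, [0], [0, 1]), (0, [0], [0, 1]), (0, [1], [2, 3]), (4, [], [3]), (0, [1], [2, 4]), (1, [], [5, 6]), (1, [], [4, 5]), (4, [], [6])]),
  (2, 7, [(0, [0], [0, 1]), (0, [0], [2, 3]), (0, [1], [0, 3]), (4, [], [1]), (0, [1], [4, 5]), (1, [], [4, 6]), (1, [], [5, 6]), (4, [], [2])]),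
  (2, 7, [(0, [0], [0, 1]), (0, [0], [2, 3]), (0, [1], [0, 3]), (4, [], [1]), (0, [1], [4, 5]), (1, [], [4, 6]), (1, [], [2, 6]), (4, [], [5])]),
  (2, 7, [(0, [0], [0, 1]), (0, [0], [2, 3]), (0, [1], [0, 3]), (4, [], [1]), (0, [1], [4, 5]), (1, [], [4, 6]), (1, [], [2, 5]), (4, [], [6])]),
  (2, 7, [(0, [0], [0, 1]), (0, [0], [2, 3]), (0, [1], [0, 3]), (4, [], [1]), (0, [1], [2, 4]), (1, [], [5, 6]), (1, [], [4, 5]), (4, [], [6])]),
  (2, 7, [(0, [0], [0, 1]), (0, [0], [2, 3]), (0, [1], [0, 1]), (4, [], [3]), (0, [1], [4, 5]), (1, [], [4, 6]), (1, [], [5, 6]), (4, [], [2])]),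
  (2, 7, [(0, [0], [0, 1]), (0, [0], [2, 3]), (0, [1], [0, 1]), (4, [], [3]), (0, [1], [4, 5]), (1, [], [4, 6]), (1, [], [2, 6]), (4, [], [5])]),
  (2, 7, [(0, [0], [0, 1]), (0, [0], [2, 3]), (0, [1], [0, 1]), (4, [], [3]), (0, [1], [4, 5]), (1, [], [4, 6]), (1, [], [2, 5]), (4, [], [6])]),
  (2, 7, [(0, [0], [0, 1]), (0, [0], [2, 3]), (0, [1], [0, 1]), (4, [], [3]), (0, [1], [2, 4]), (1, [], [5, 6]), (1, [], [4, 5]), (4, [], [6])]),
  (2, 7, [(0, [0], [0, 1]), (0, [0], [2, 0]), (0, [1], [1, 3]), (4, [], [3]), (0, [1], [4, 5]), (1, [], [4, 6]), (1, [], [2, 6]), (4, [], [5])]),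
  (2, 7, [(0, [0], [0, 1]), (0, [0], [2, 0]), (0, [1], [1, 3]), (4, [], [3]), (0, [1], [4, 5]), (1, [], [4, 6]), (1, [], [2, 5]), (4, [], [6])]),
  (2, 7, [(0, [0], [0, 1]), (0, [0], [2, 0]), (0, [1], [1, 3]), (4, [], [3]), (0, [1], [4, 5]), (1, [], [4, 5]), (1, [], [2, 6]), (4, [], [6])]),
  (2, 7, [(0, [0], [0, 1]), (0, [0], [2, 0]), (0, [1], [1, 3]), (4, [], [3]), (0, [1], [2, 4]), (1, [], [5, 6]), (1, [], [5, 6]), (4, [], [4])]),
  (2, 7, [(0, [0], [0, 1]), (0, [0], [2, 0]), (0, [1], [1, 3]), (4, [], [3]), (0, [1], [2, 4]), (1, [], [5, 6]), (1, [], [4, 5]), (4, [], [6])]),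
  (2, 7, [(0, [0], [0, 1]), (0, [0], [0, 1]), (0, [1], [2, 3]), (4, [], [4]), (0, [1], [5, 6]), (1, [], [2, 5]), (1, [], [3, 6]), (4, [], [4])]),
  (2, 7, [(0, [0], [0, 1]), (0, [0], [0, 1]), (0, [1], [2, 3]), (4, [], [4]), (0, [1], [2, 5]), (1, [], [5, 6]), (1, [], [3, 6]), (4, [], [4])]),
  (2, 7, [(0, [0], [0, 1]), (0, [0], [0, 1]), (0, [1], [2, 3]), (4, [], [4]), (0, [1], [2, 5]), (1, [], [5, 6]), (1, [], [3, 4]), (4, [], [6])]),
  (2, 7, [(0, [0], [0, 1]), (0, [0], [2, 0]), (0, [1], [3, 1]), (4, [], [4]), (0, [1], [5, 6]), (1, [], [5, 6]), (1, [], [2, 3]), (4, [], [4])]),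
  (2, 7, [(0, [0], [0, 1]), (0, [0], [2, 0]), (0, [1], [3, 1]), (4, [], [4]), (0, [1], [5, 6]), (1, [], [2, 5]), (1, [], [3, 6]), (4, [], [4])]),
  (2, 7, [(0, [0], [0, 1]), (0, [0], [2, 0]), (0, [1], [3, 1]), (4, [], [4]), (0, [1], [5, 6]), (1, [], [2, 5]), (1, [], [3, 4]), (4, [], [6])]),
  (2, 7, [(0, [0], [0, 1]), (0, [0], [2, 0]), (0, [1], [3, 1]), (4, [], [4]), (0, [1], [5, 6]), (1, [], [3, 5]), (1, [], [2, 4]), (4, [], [6])]),
  (2, 7, [(0, [0], [0, 1]), (0, [0], [2, 0]), (0, [1], [3, 1]), (4, [], [4]), (0, [1], [5, 6]), (1, [], [4, 5]), (1, [], [2, 3]), (4, [], [6])]),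
  (2, 7, [(0, [0], [0, 1]), (0, [0], [2, 0]), (0, [1], [3, 1]), (4, [], [4]), (0, [1], [2, 5]), (1, [], [5, 6]), (1, [], [3, 6]), (4, [], [4])]),
  (2, 7, [(0, [0], [0, 1]), (0, [0], [2, 0]), (0, [1], [3, 1]), (4, [], [4]), (0, [1], [3, 5]), (1, [], [5, 6]), (1, [], [2, 6]), (4, [], [4])]),
  (2, 7, [(0, [0], [0, 1]), (0, [0], [2, 0]), (0, [1], [3, 1]), (4, [], [4]), (0, [1], [2, 5]), (1, [], [5, 6]), (1, [], [3, 4]), (4, [], [6])]),
  (2, 7, [(0, [0], [0, 1]), (0, [0], [2, 0]), (0, [1], [3, 1]), (4, [], [4]), (0, [1], [3, 5]), (1, [], [5, 6]), (1, [], [2, 4]), (4, [], [6])]),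
  (2, 7, [(0, [0], [0, 1]), (0, [0], [2, 0]), (0, [1], [3, 1]), (4, [], [4]), (0, [1], [4, 5]), (1, [], [2, 6]), (1, [], [3, 6]), (4, [], [5])]),
  (2, 7, [(0, [0], [0, 1]), (0, [0], [2, 0]), (0, [1], [3, 1]), (4, [], [4]), (0, [1], [2, 3]), (1, [], [5, 6]), (1, [], [5, 6]), (4, [], [4])]),
  (2, 7, [(0, [0], [0, 1]), (0, [0], [2, 0]), (0, [1], [3, 1]), (4, [], [4]), (0, [1], [2, 3]), (1, [], [5, 6]), (1, [], [4, 5]), (4, [], [6])]),
  (2, 7, [(0, [0], [0, 1]), (0, [0], [2, 0]), (0, [1], [3, 4]), (4, [], [1]), (0, [1], [5, 6]), (1, [], [5, 6]), (1, [], [3, 4]), (4, [], [2])]),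
  (2, 7, [(0, [0], [0, 1]), (0, [0], [2, 0]), (0, [1], [3, 4]), (4, [], [1]), (0, [1], [5, 6]), (1, [], [2, 5]), (1, [], [3, 6]), (4, [], [4])]),
  (2, 7, [(0, [0], [0, 1]), (0, [0], [2, 0]), (0, [1], [3, 4]), (4, [], [1]), (0, [1], [5, 6]), (1, [], [3, 5]), (1, [], [4, 6]), (4, [], [2])]),
  (2, 7, [(0, [0], [0, 1]), (0, [0], [2, 0]), (0, [1], [3, 4]), (4, [], [1]), (0, [1], [3, 5]), (1, [], [5, 6]), (1, [], [2, 6]), (4, [], [4])]),
  (2, 7, [(0, [0], [0, 1]), (0, [0], [2, 0]), (0, [1], [3, 4]), (4, [], [1]), (0, [1], [3, 5]), (1, [], [5, 6]), (1, [], [4, 6]), (4, [], [2])]),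
  (2, 7, [(0, [0], [0, 1]), (0, [0], [2, 0]), (0, [1], [3, 4]), (4, [], [1]), (0, [1], [3, 5]), (1, [], [5, 6]), (1, [], [2, 4]), (4, [], [6])]),
  (2, 7, [(0, [0], [0, 1]), (0, [0], [2, 0]), (0, [1], [3, 4]), (4, [], [1]), (0, [1], [3, 5]), (1, [], [2, 6]), (1, [], [4, 5]), (4, [], [6])]),
  (2, 7, [(0, [0], [0, 1]), (0, [0], [2, 3]), (0, [1], [0, 1]), (4, [], [4]), (0, [1], [5, 6]), (1, [], [2, 5]), (1, [], [3, 6]), (4, [], [4])]),
  (2, 7, [(0, [0], [0, 1]), (0, [0], [2, 3]), (0, [1], [0, 1]), (4, [], [4]), (0, [1], [2, 5]), (1, [], [5, 6]), (1, [], [3, 6]), (4, [], [4])]),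
  (2, 7, [(0, [0], [0, 1]), (0, [0], [2, 3]), (0, [1], [0, 1]), (4, [], [4]), (0, [1], [2, 5]), (1, [], [5, 6]), (1, [], [3, 4]), (4, [], [6])]),
  (2, 7, [(0, [0], [0, 1]), (0, [0], [2, 3]), (0, [1], [4, 0]), (4, [], [1]), (0, [1], [5, 6]), (1, [], [5, 6]), (1, [], [2, 4]), (4, [], [3])]),
  (2, 7, [(0, [0], [0, 1]), (0, [0], [2, 3]), (0, [1], [4, 0]), (4, [], [1]), (0, [1], [5, 6]), (1, [], [2, 5]), (1, [], [3, 6]), (4, [], [4])]),
  (2, 7, [(0, [0], [0, 1]), (0, [0], [2, 3]), (0, [1], [4, 0]), (4, [], [1]), (0, [1], [5, 6]), (1, [], [2, 5]), (1, [], [4, 6]), (4, [], [3])]),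
  (2, 7, [(0, [0], [0, 1]), (0, [0], [2, 3]), (0, [1], [4, 0]), (4, [], [1]), (0, [1], [5, 6]), (1, [], [2, 5]), (1, [], [3, 4]), (4, [], [6])]),
  (2, 7, [(0, [0], [0, 1]), (0, [0], [2, 3]), (0, [1], [4, 0]), (4, [], [1]), (0, [1], [2, 5]), (1, [], [5, 6]), (1, [], [3, 6]), (4, [], [4])]),
  (2, 7, [(0, [0], [0, 1]), (0, [0], [2, 3]), (0, [1], [4, 0]), (4, [], [1]), (0, [1], [2, 5]), (1, [], [5, 6]), (1, [], [4, 6]), (4, [], [3])]),
  (2, 7, [(0, [0], [0, 1]), (0, [0], [2, 3]), (0, [1], [4, 0]), (4, [], [1]), (0, [1], [2, 5]), (1, [], [3, 6]), (1, [], [4, 6]), (4, [], [5])]),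
  (2, 7, [(0, [0], [0, 1]), (0, [0], [2, 3]), (0, [1], [4, 0]), (4, [], [1]), (0, [1], [2, 5]), (1, [], [3, 6]), (1, [], [4, 5]), (4, [], [6])]),
  (2, 7, [(0, [0], [0, 1]), (0, [0], [2, 3]), (0, [1], [4, 0]), (4, [], [1]), (0, [1], [2, 5]), (1, [], [4, 6]), (1, [], [3, 5]), (4, [], [6])]),
  (2, 7, [(0, [0], [0, 1]), (0, [0], [2, 3]), (0, [1], [1, 3]), (4, [], [4]), (0, [1], [5, 6]), (1, [], [5, 6]), (1, [], [0, 2]), (4, [], [4])]),
  (2, 7, [(0, [0], [0, 1]), (0, [0], [2, 3]), (0, [1], [1, 3]), (4, [], [4]), (0, [1], [5, 6]), (1, [], [0, 5]), (1, [], [2, 6]), (4, [], [4])]),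
  (2, 7, [(0, [0], [0, 1]), (0, [0], [2, 3]), (0, [1], [1, 3]), (4, [], [4]), (0, [1], [5, 6]), (1, [], [0, 5]), (1, [], [2, 4]), (4, [], [6])]),
  (2, 7, [(0, [0], [0, 1]), (0, [0], [2, 3]), (0, [1], [1, 3]), (4, [], [4]), (0, [1], [5, 6]), (1, [], [4, 5]), (1, [], [0, 2]), (4, [], [6])]),
  (2, 7, [(0, [0], [0, 1]), (0, [0], [2, 3]), (0, [1], [1, 3]), (4, [], [4]), (0, [1], [0, 5]), (1, [], [5, 6]), (1, [], [2, 6]), (4, [], [4])]),
  (2, 7, [(0, [0], [0, 1]), (0, [0], [2, 3]), (0, [1], [1, 3]), (4, [], [4]), (0, [1], [0, 5]), (1, [], [5, 6]), (1, [], [2, 4]), (4, [], [6])]),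
  (2, 7, [(0, [0], [0, 1]), (0, [0], [2, 3]), (0, [1], [1, 3]), (4, [], [4]), (0, [1], [4, 5]), (1, [], [0, 6]), (1, [], [2, 6]), (4, [], [5])]),
  (2, 7, [(0, [0], [0, 1]), (0, [0], [2, 3]), (0, [1], [1, 3]), (4, [], [4]), (0, [1], [0, 2]), (1, [], [5, 6]), (1, [], [5, 6]), (4, [], [4])]),
  (2, 7, [(0, [0], [0, 1]), (0, [0], [2, 3]), (0, [1], [1, 3]), (4, [], [4]), (0, [1], [0, 2]), (1, [], [5, 6]), (1, [], [4, 5]), (4, [], [6])]),
  (2, 7, [(0, [0], [0, 1]), (0, [0], [2, 3]), (0, [1], [4, 3]), (4, [], [1]), (0, [1], [5, 6]), (1, [], [5, 6]), (1, [], [2, 4]), (4, [], [0])]),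
  (2, 7, [(0, [0], [0, 1]), (0, [0], [2, 3]), (0, [1], [4, 3]), (4, [], [1]), (0, [1], [5, 6]), (1, [], [2, 5]), (1, [], [4, 6]), (4, [], [0])]),
  (2, 7, [(0, [0], [0, 1]), (0, [0], [2, 3]), (0, [1], [4, 3]), (4, [], [1]), (0, [1], [5, 6]), (1, [], [0, 5]), (1, [], [2, 4]), (4, [], [6])]),
  (2, 7, [(0, [0], [0, 1]), (0, [0], [2, 3]), (0, [1], [4, 3]), (4, [], [1]), (0, [1], [5, 6]), (1, [], [2, 5]), (1, [], [0, 4]), (4, [], [6])]),
  (2, 7, [(0, [0], [0, 1]), (0, [0], [2, 3]), (0, [1], [4, 3]), (4, [], [1]), (0, [1], [5, 6]), (1, [], [4, 5]), (1, [], [0, 2]), (4, [], [6])]),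
  (2, 7, [(0, [0], [0, 1]), (0, [0], [2, 1]), (0, [1], [3, 4]), (4, [], [4]), (0, [1], [5, 6]), (1, [], [5, 6]), (1, [], [0, 2]), (4, [], [3])]),
  (2, 7, [(0, [0], [0, 1]), (0, [0], [2, 1]), (0, [1], [3, 4]), (4, [], [4]), (0, [1], [5, 6]), (1, [], [0, 5]), (1, [], [2, 6]), (4, [], [3])]),
  (2, 7, [(0, [0], [0, 1]), (0, [0], [2, 1]), (0, [1], [3, 4]), (4, [], [4]), (0, [1], [5, 6]), (1, [], [0, 5]), (1, [], [2, 3]), (4, [], [6])]),
  (2, 7, [(0, [0], [0, 1]), (0, [0], [2, 1]), (0, [1], [3, 4]), (4, [], [4]), (0, [1], [5, 6]), (1, [], [3, 5]), (1, [], [0, 2]), (4, [], [6])]),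
  (2, 7, [(0, [0], [0, 1]), (0, [0], [2, 1]), (0, [1], [3, 4]), (4, [], [5]), (0, [1], [3, 6]), (1, [], [0, 6]), (1, [], [2, 4]), (4, [], [5])]),
  (2, 7, [(0, [0], [0, 1]), (0, [0], [2, 1]), (0, [1], [3, 4]), (4, [], [5]), (0, [1], [3, 6]), (1, [], [4, 6]), (1, [], [0, 2]), (4, [], [5])]),
  (2, 7, [(0, [0], [0, 1]), (0, [0], [2, 3]), (0, [1], [4, 1]), (4, [], [5]), (0, [1], [2, 6]), (1, [], [3, 6]), (1, [], [0, 4]), (4, [], [5])]),
  (2, 7, [(0, [0], [0, 1]), (0, [0], [2, 3]), (0, [1], [4, 1]), (4, [], [5]), (0, [1], [2, 6]), (1, [], [4, 6]), (1, [], [0, 3]), (4, [], [5])])]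

def kl61 : List ℕ := [10, 12, 26, 42, 45, 50, 51, 55, 56, 99, 100, 101, 106, 113, 114, 115, 117, 121, 122, 123, 124, 127, 128, 129, 131, 134, 135, 136, 141, 145, 146, 147, 149, 150, 208, 209, 210, 226, 227, 228, 229, 230, 231, 232, 233, 234, 235, 244, 245, 254, 255, 256, 257, 258, 259, 260, 271, 272, 273, 289, 290, 291, 292, 293, 294, 296, 297, 298, 304, 305, 306, 307, 308, 309, 310, 316, 317, 323, 324, 325, 326, 327, 332, 333, 334, 335, 422, 423, 432, 433]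

def m61_0 : Base := (0, 1, [(0, [0], [0, 5]), (0, [1], [1, 5]), (1, [], [2, 3]), (4, [], [4])])

def l61_0 : Cov := [(120, 0, 1, [(0, [0], [0, 5]), (0, [1], [1, 5]), (1, [], [2, 3]), (4, [], [4])]),
  (-120, 0, 1, [(0, [0], [0, 5]), (0, [1], [1, 5]), (1, [], [2, 4]), (4, [], [3])]),
  (120, 0, 1, [(0, [0], [0, 5]), (0, [1], [2, 5]), (1, [], [1, 3]), (4, [], [4])]),
  (-120, 0, 1, [(0, [0], [0, 5]), (0, [1], [2, 5]), (1, [], [1, 4]), (4, [], [3])]),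
  (120, 0, 1, [(0, [0], [1, 5]), (0, [1], [0, 5]), (1, [], [2, 3]), (4, [], [4])]),
  (-120, 0, 1, [(0, [0], [1, 5]), (0, [1], [0, 5]), (1, [], [2, 4]), (4, [], [3])]),
  (-120, 0, 1, [(0, [0], [1, 5]), (0, [1], [3, 5]), (1, [], [2, 0]), (4, [], [4])]),
  (120, 0, 1, [(0, [0], [1, 5]), (0, [1], [3, 5]), (1, [], [2, 4]), (4, [], [0])]),
  (120, 0, 1, [(0, [0], [1, 5]), (0, [1], [4, 5]), (1, [], [2, 0]), (4, [], [3])]),
  (-120, 0, 1, [(0, [0], [1, 5]), (0, [1], [4, 5]), (1, [], [2, 3]), (4, [], [0])]),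
  (120, 0, 1, [(0, [0], [2, 5]), (0, [1], [0, 5]), (1, [], [1, 3]), (4, [], [4])]),
  (-120, 0, 1, [(0, [0], [2, 5]), (0, [1], [0, 5]), (1, [], [1, 4]), (4, [], [3])]),
  (-120, 0, 1, [(0, [0], [2, 5]), (0, [1], [3, 5]), (1, [], [1, 0]), (4, [], [4])]),
  (120, 0, 1, [(0, [0], [2, 5]), (0, [1], [3, 5]), (1, [], [1, 4]), (4, [], [0])]),
  (120, 0, 1, [(0, [0], [2, 5]), (0, [1], [4, 5]), (1, [], [1, 0]), (4, [], [3])]),
  (-120, 0, 1, [(0, [0], [2, 5]), (0, [1], [4, 5]), (1, [], [1, 3]), (4, [], [0])]),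
  (-120, 0, 1, [(0, [0], [3, 5]), (0, [1], [1, 5]), (1, [], [0, 2]), (4, [], [4])]),
  (120, 0, 1, [(0, [0], [3, 5]), (0, [1], [1, 5]), (1, [], [2, 4]), (4, [], [0])]),
  (-120, 0, 1, [(0, [0], [3, 5]), (0, [1], [2, 5]), (1, [], [0, 1]), (4, [], [4])]),
  (120, 0, 1, [(0, [0], [3, 5]), (0, [1], [2, 5]), (1, [], [1, 4]), (4, [], [0])]),
  (120, 0, 1, [(0, [0], [4, 5]), (0, [1], [1, 5]), (1, [], [0, 2]), (4, [], [3])]),
  (-120, 0, 1, [(0, [0], [4, 5]), (0, [1], [1, 5]), (1, [], [2, 3]), (4, [], [0])]),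
  (120, 0, 1, [(0, [0], [4, 5]), (0, [1], [2, 5]), (1, [], [0, 1]), (4, [], [3])]),
  (-120, 0, 1, [(0, [0], [4, 5]), (0, [1], [2, 5]), (1, [], [1, 3]), (4, [], [0])])]

def z61_0 : Cov := [(0, 0, 1, [(0, [0], [0, 5]), (0, [1], [1, 5]), (1, [], [3, 4]), (4, [], [2])]),
  (0, 0, 1, [(0, [0], [0, 5]), (0, [1], [2, 5]), (1, [], [3, 4]), (4, [], [1])]),
  (0, 0, 1, [(0, [0], [0, 5]), (0, [1], [3, 5]), (1, [], [1, 2]), (4, [], [4])]),
  (0, 0, 1, [(0, [0], [0, 5]), (0, [1], [3, 5]), (1, [], [1, 4]), (4, [], [2])]),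
  (0, 0, 1, [(0, [0], [0, 5]), (0, [1], [3, 5]), (1, [], [2, 4]), (4, [], [1])]),
  (0, 0, 1, [(0, [0], [0, 5]), (0, [1], [4, 5]), (1, [], [1, 2]), (4, [], [3])]),
  (0, 0, 1, [(0, [0], [0, 5]), (0, [1], [4, 5]), (1, [], [1, 3]), (4, [], [2])]),
  (0, 0, 1, [(0, [0], [0, 5]), (0, [1], [4, 5]), (1, [], [2, 3]), (4, [], [1])]),
  (0, 0, 1, [(0, [0], [1, 5]), (0, [1], [2, 5]), (1, [], [0, 3]), (4, [], [4])]),
  (0, 0, 1, [(0, [0], [1, 5]), (0, [1], [2, 5]), (1, [], [0, 4]), (4, [], [3])]),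
  (0, 0, 1, [(0, [0], [1, 5]), (0, [1], [2, 5]), (1, [], [3, 4]), (4, [], [0])]),
  (0, 0, 1, [(0, [0], [2, 5]), (0, [1], [1, 5]), (1, [], [0, 3]), (4, [], [4])]),
  (0, 0, 1, [(0, [0], [2, 5]), (0, [1], [1, 5]), (1, [], [0, 4]), (4, [], [3])]),
  (0, 0, 1, [(0, [0], [2, 5]), (0, [1], [1, 5]), (1, [], [3, 4]), (4, [], [0])]),
  (0, 0, 1, [(0, [0], [3, 5]), (0, [1], [0, 5]), (1, [], [1, 2]), (4, [], [4])]),
  (0, 0, 1, [(0, [0], [3, 5]), (0, [1], [0, 5]), (1, [], [1, 4]), (4, [], [2])]),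
  (0, 0, 1, [(0, [0], [3, 5]), (0, [1], [0, 5]), (1, [], [2, 4]), (4, [], [1])]),
  (0, 0, 1, [(0, [0], [3, 5]), (0, [1], [1, 5]), (1, [], [0, 4]), (4, [], [2])]),
  (0, 0, 1, [(0, [0], [3, 5]), (0, [1], [2, 5]), (1, [], [0, 4]), (4, [], [1])]),
  (0, 0, 1, [(0, [0], [3, 5]), (0, [1], [4, 5]), (1, [], [1, 0]), (4, [], [2])]),
  (0, 0, 1, [(0, [0], [3, 5]), (0, [1], [4, 5]), (1, [], [1, 2]), (4, [], [0])]),
  (0, 0, 1, [(0, [0], [3, 5]), (0, [1], [4, 5]), (1, [], [2, 0]), (4, [], [1])]),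
  (0, 0, 1, [(0, [0], [4, 5]), (0, [1], [0, 5]), (1, [], [1, 2]), (4, [], [3])]),
  (0, 0, 1, [(0, [0], [4, 5]), (0, [1], [0, 5]), (1, [], [1, 3]), (4, [], [2])]),
  (0, 0, 1, [(0, [0], [4, 5]), (0, [1], [0, 5]), (1, [], [2, 3]), (4, [], [1])]),
  (0, 0, 1, [(0, [0], [4, 5]), (0, [1], [1, 5]), (1, [], [0, 3]), (4, [], [2])]),
  (0, 0, 1, [(0, [0], [4, 5]), (0, [1], [2, 5]), (1, [], [0, 3]), (4, [], [1])]),
  (0, 0, 1, [(0, [0], [4, 5]), (0, [1], [3, 5]), (1, [], [1, 0]), (4, [], [2])]),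
  (0, 0, 1, [(0, [0], [4, 5]), (0, [1], [3, 5]), (1, [], [1, 2]), (4, [], [0])]),
  (0, 0, 1, [(0, [0], [4, 5]), (0, [1], [3, 5]), (1, [], [2, 0]), (4, [], [1])]),
  (0, 0, 1, [(0, [1], [0, 5]), (0, [0], [1, 5]), (1, [], [3, 4]), (4, [], [2])]),
  (0, 0, 1, [(0, [1], [0, 5]), (0, [0], [2, 5]), (1, [], [3, 4]), (4, [], [1])]),
  (0, 0, 1, [(0, [1], [3, 5]), (0, [0], [1, 5]), (1, [], [0, 4]), (4, [], [2])]),
  (0, 0, 1, [(0, [1], [3, 5]), (0, [0], [2, 5]), (1, [], [0, 4]), (4, [], [1])]),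
  (0, 0, 1, [(0, [1], [4, 5]), (0, [0], [1, 5]), (1, [], [0, 3]), (4, [], [2])]),
  (0, 0, 1, [(0, [1], [4, 5]), (0, [0], [2, 5]), (1, [], [0, 3]), (4, [], [1])])]

def w61_0 : List (List Wit) := [[(0, 0, 0, 0, 0), (1, 0, 0, 0, 0), (0, 0, 0, 0, 0), (24, 0, 0, 0, 0), (1, 0, 0, 0, 0), (24, 0, 0, 0, 0), (2, 0, 0, 0, 0), (3, 0, 0, 0, 0), (2, 0, 0, 0, 0), (25, 0, 0, 0, 0), (3, 0, 0, 0, 0), (25, 0, 0, 0, 0), (26, 0, 0, 0, 0), (27, 0, 0, 0, 0), (26, 0, 0, 0, 0), (28, 0, 0, 0, 0), (29, 0, 0, 0, 0), (30, 0, 0, 0, 0), (29, 0, 0, 0, 0), (31, 0, 0, 0, 0), (4, 0, 0, 0, 0), (5, 0, 0, 0, 0), (32, 0, 0, 0, 0), (33, 0, 0, 0, 0), (32, 0, 0, 0, 0), (34, 0, 0, 0, 0), (33, 0, 0, 0, 0), (34, 0, 0, 0, 0), (6, 0, 0, 0, 0), (7, 0, 0, 0, 0), (8, 0, 0, 0, 0), (9, 0, 0, 0, 0), (10, 0, 0, 0, 0), (11, 0, 0, 0, 0), (35, 0, 0, 0, 0), (36, 0, 0, 0, 0), (35, 0, 0, 0, 0), (37, 0, 0, 0, 0), (36, 0, 0,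 0, 0), (37, 0, 0, 0, 0), (12, 0, 0, 0, 0), (13, 0, 0, 0, 0), (14, 0, 0, 0, 0), (15, 0, 0, 0, 0), (38, 0, 0, 0, 0), (39, 0, 0, 0, 0), (38, 0, 0, 0, 0), (40, 0, 0, 0, 0), (16, 0, 0, 0, 0), (41, 0, 0, 0, 0), (16, 0, 0, 0, 0), (17, 0, 0, 0, 0), (41, 0, 0, 0, 0), (17, 0, 0, 0, 0), (18, 0, 0, 0, 0), (42, 0, 0, 0, 0), (18, 0, 0, 0, 0), (19, 0, 0, 0, 0), (42, 0, 0, 0, 0), (19, 0, 0, 0, 0), (43, 0, 0, 0, 0), (44, 0, 0, 0, 0), (45, 0, 0, 0, 0), (44, 0, 0, 0, 0), (46, 0, 0, 0, 0), (47, 0, 0, 0, 0), (46, 0, 0, 0, 0), (48, 0, 0, 0, 0), (20, 0, 0, 0, 0), (49, 0, 0, 0, 0), (20, 0, 0, 0, 0), (21, 0, 0, 0, 0), (49, 0, 0, 0, 0), (21, 0, 0, 0, 0), (22, 0, 0, 0, 0), (50, 0, 0, 0, 0), (22, 0, 0, 0, 0), (23, 0, 0, 0, 0), (50, 0, 0, 0, 0), (23, 0, 0, 0, 0), (51, 0, 0, 0, 0), (52, 0, 0, 0, 0), (53, 0, 0, 0, 0), (52, 0, 0, 0, 0)],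
  [(4, 0, 0, 0, 0), (5, 0, 0, 0, 0), (4, 0, 0, 0, 0), (54, 0, 0, 0, 0), (5, 0, 0, 0, 0), (54, 0, 0, 0, 0), (10, 0, 0, 0, 0), (11, 0, 0, 0, 0), (10, 0, 0, 0, 0), (55, 0, 0, 0, 0), (11, 0, 0, 0, 0), (55, 0, 0, 0, 0), (38, 0, 0, 0, 0), (39, 0, 0, 0, 0), (38, 0, 0, 0, 0), (40, 0, 0, 0, 0), (46, 0, 0, 0, 0), (47, 0, 0, 0, 0), (46, 0, 0, 0, 0), (48, 0, 0, 0, 0), (0, 0, 0, 0, 0), (1, 0, 0, 0, 0), (35, 0, 0, 0, 0), (36, 0, 0, 0, 0), (35, 0, 0, 0, 0), (37, 0, 0, 0, 0), (36, 0, 0, 0, 0), (37, 0, 0, 0, 0), (16, 0, 0, 0, 0), (17, 0, 0, 0, 0), (20, 0, 0, 0, 0), (21, 0, 0, 0, 0), (2, 0, 0, 0, 0), (3, 0, 0, 0, 0), (32, 0, 0, 0, 0), (33, 0, 0, 0, 0), (32, 0, 0, 0, 0), (34, 0, 0, 0, 0), (33, 0, 0, 0, 0), (34, 0, 0, 0, 0), (18, 0, 0, 0, 0), (19, 0, 0, 0, 0), (22, 0, 0, 0, 0), (23, 0, 0, 0, 0), (26, 0, 0, 0, 0), (27, 0, 0, 0, 0), (26, 0, 0, 0, 0), (28, 0, 0, 0, 0), (6, 0, 0, 0, 0), (56,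 0, 0, 0, 0), (6, 0, 0, 0, 0), (7, 0, 0, 0, 0), (56, 0, 0, 0, 0), (7, 0, 0, 0, 0), (12, 0, 0, 0, 0), (57, 0, 0, 0, 0), (12, 0, 0, 0, 0), (13, 0, 0, 0, 0), (57, 0, 0, 0, 0), (13, 0, 0, 0, 0), (51, 0, 0, 0, 0), (52, 0, 0, 0, 0), (53, 0, 0, 0, 0), (52, 0, 0, 0, 0), (29, 0, 0, 0, 0), (30, 0, 0, 0, 0), (29, 0, 0, 0, 0), (31, 0, 0, 0, 0), (8, 0, 0, 0, 0), (58, 0, 0, 0, 0), (8, 0, 0, 0, 0), (9, 0, 0, 0, 0), (58, 0, 0, 0, 0), (9, 0, 0, 0, 0), (14, 0, 0, 0, 0), (59, 0, 0, 0, 0), (14, 0, 0, 0, 0), (15, 0, 0, 0, 0), (59, 0, 0, 0, 0), (15, 0, 0, 0, 0), (43, 0, 0, 0, 0), (44, 0, 0, 0, 0), (45, 0, 0, 0, 0), (44, 0, 0, 0, 0)]]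

def m61_1 : Base := (0, 1, [(0, [0], [0, 5]), (0, [1], [1, 2]), (1, [], [3, 5]), (4, [], [4])])

def l61_1 : Cov := [(144, 0, 1, [(0, [0], [0, 5]), (0, [1], [1, 2]), (1, [], [3, 5]), (4, [], [4])]),
  (-144, 0, 1, [(0, [0], [0, 5]), (0, [1], [1, 2]), (1, [], [4, 5]), (4, [], [3])]),
  (48, 0, 1, [(0, [0], [0, 5]), (0, [1], [1, 3]), (1, [], [2, 5]), (4, [], [4])]),
  (-48, 0, 1, [(0, [0], [0, 5]), (0, [1], [1, 3]), (1, [], [4, 5]), (4, [], [2])]),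
  (-48, 0, 1, [(0, [0], [0, 5]), (0, [1], [1, 4]), (1, [], [2, 5]), (4, [], [3])]),
  (48, 0, 1, [(0, [0], [0, 5]), (0, [1], [1, 4]), (1, [], [3, 5]), (4, [], [2])]),
  (48, 0, 1, [(0, [0], [0, 5]), (0, [1], [2, 3]), (1, [], [1, 5]), (4, [], [4])]),
  (-48, 0, 1, [(0, [0], [0, 5]), (0, [1], [2, 3]), (1, [], [4, 5]), (4, [], [1])]),
  (-48, 0, 1, [(0, [0], [0, 5]), (0, [1], [2, 4]), (1, [], [1, 5]), (4, [], [3])]),
  (48, 0, 1, [(0, [0], [0, 5]), (0, [1], [2, 4]), (1, [], [3, 5]), (4, [], [1])]),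
  (48, 0, 1, [(0, [0], [1, 5]), (0, [1], [0, 2]), (1, [], [3, 5]), (4, [], [4])]),
  (-48, 0, 1, [(0, [0], [1, 5]), (0, [1], [0, 2]), (1, [], [4, 5]), (4, [], [3])]),
  (-48, 0, 1, [(0, [0], [1, 5]), (0, [1], [2, 3]), (1, [], [0, 5]), (4, [], [4])]),
  (48, 0, 1, [(0, [0], [1, 5]), (0, [1], [2, 3]), (1, [], [4, 5]), (4, [], [0])]),
  (48, 0, 1, [(0, [0], [1, 5]), (0, [1], [2, 4]), (1, [], [0, 5]), (4, [], [3])]),
  (-48, 0, 1, [(0, [0], [1, 5]), (0, [1], [2, 4]), (1, [], [3, 5]), (4, [], [0])]),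
  (48, 0, 1, [(0, [0], [2, 5]), (0, [1], [0, 1]), (1, [], [3, 5]), (4, [], [4])]),
  (-48, 0, 1, [(0, [0], [2, 5]), (0, [1], [0, 1]), (1, [], [4, 5]), (4, [], [3])]),
  (-48, 0, 1, [(0, [0], [2, 5]), (0, [1], [1, 3]), (1, [], [0, 5]), (4, [], [4])]),
  (48, 0, 1, [(0, [0], [2, 5]), (0, [1], [1, 3]), (1, [], [4, 5]), (4, [], [0])]),
  (48, 0, 1, [(0, [0], [2, 5]), (0, [1], [1, 4]), (1, [], [0, 5]), (4, [], [3])]),
  (-48, 0, 1, [(0, [0], [2, 5]), (0, [1], [1, 4]), (1, [], [3, 5]), (4, [], [0])]),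
  (-48, 0, 1, [(0, [0], [3, 5]), (0, [1], [0, 1]), (1, [], [2, 5]), (4, [], [4])]),
  (48, 0, 1, [(0, [0], [3, 5]), (0, [1], [0, 1]), (1, [], [4, 5]), (4, [], [2])]),
  (-48, 0, 1, [(0, [0], [3, 5]), (0, [1], [0, 2]), (1, [], [1, 5]), (4, [], [4])]),
  (48, 0, 1, [(0, [0], [3, 5]), (0, [1], [0, 2]), (1, [], [4, 5]), (4, [], [1])]),
  (-144, 0, 1, [(0, [0], [3, 5]), (0, [1], [1, 2]), (1, [], [0, 5]), (4, [], [4])]),
  (144, 0, 1, [(0, [0], [3, 5]), (0, [1], [1, 2]), (1, [], [4, 5]), (4, [], [0])]),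
  (-48, 0, 1, [(0, [0], [3, 5]), (0, [1], [1, 4]), (1, [], [0, 5]), (4, [], [2])]),
  (48, 0, 1, [(0, [0], [3, 5]), (0, [1], [1, 4]), (1, [], [2, 5]), (4, [], [0])]),
  (-48, 0, 1, [(0, [0], [3, 5]), (0, [1], [2, 4]), (1, [], [0, 5]), (4, [], [1])]),
  (48, 0, 1, [(0, [0], [3, 5]), (0, [1], [2, 4]), (1, [], [1, 5]), (4, [], [0])]),
  (48, 0, 1, [(0, [0], [4, 5]), (0, [1], [0, 1]), (1, [], [2, 5]), (4, [], [3])]),
  (-48, 0, 1, [(0, [0], [4, 5]), (0, [1], [0, 1]), (1, [], [3, 5]), (4, [], [2])]),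
  (48, 0, 1, [(0, [0], [4, 5]), (0, [1], [0, 2]), (1, [], [1, 5]), (4, [], [3])]),
  (-48, 0, 1, [(0, [0], [4, 5]), (0, [1], [0, 2]), (1, [], [3, 5]), (4, [], [1])]),
  (144, 0, 1, [(0, [0], [4, 5]), (0, [1], [1, 2]), (1, [], [0, 5]), (4, [], [3])]),
  (-144, 0, 1, [(0, [0], [4, 5]), (0, [1], [1, 2]), (1, [], [3, 5]), (4, [], [0])]),
  (48, 0, 1, [(0, [0], [4, 5]), (0, [1], [1, 3]), (1, [], [0, 5]), (4, [], [2])]),
  (-48, 0, 1, [(0, [0], [4, 5]), (0, [1], [1, 3]), (1, [], [2, 5]), (4, [], [0])]),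
  (48, 0, 1, [(0, [0], [4, 5]), (0, [1], [2, 3]), (1, [], [0, 5]), (4, [], [1])]),
  (-48, 0, 1, [(0, [0], [4, 5]), (0, [1], [2, 3]), (1, [], [1, 5]), (4, [], [0])]),
  (144, 0, 1, [(0, [1], [0, 5]), (0, [0], [1, 2]), (1, [], [3, 5]), (4, [], [4])]),
  (-144, 0, 1, [(0, [1], [0, 5]), (0, [0], [1, 2]), (1, [], [4, 5]), (4, [], [3])]),
  (48, 0, 1, [(0, [1], [0, 5]), (0, [0], [1, 3]), (1, [], [2, 5]), (4, [], [4])]),
  (-48, 0, 1, [(0, [1], [0, 5]), (0, [0], [1, 3]), (1, [], [4, 5]), (4, [], [2])]),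
  (-48, 0, 1, [(0, [1], [0, 5]), (0, [0], [1, 4]), (1, [], [2, 5]), (4, [], [3])]),
  (48, 0, 1, [(0, [1], [0, 5]), (0, [0], [1, 4]), (1, [], [3, 5]), (4, [], [2])]),
  (48, 0, 1, [(0, [1], [0, 5]), (0, [0], [2, 3]), (1, [], [1, 5]), (4, [], [4])]),
  (-48, 0, 1, [(0, [1], [0, 5]), (0, [0], [2, 3]), (1, [], [4, 5]), (4, [], [1])]),
  (-48, 0, 1, [(0, [1], [0, 5]), (0, [0], [2, 4]), (1, [], [1, 5]), (4, [], [3])]),
  (48, 0, 1, [(0, [1], [0, 5]), (0, [0], [2, 4]), (1, [], [3, 5]), (4, [], [1])]),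
  (48, 0, 1, [(0, [1], [1, 5]), (0, [0], [0, 2]), (1, [], [3, 5]), (4, [], [4])]),
  (-48, 0, 1, [(0, [1], [1, 5]), (0, [0], [0, 2]), (1, [], [4, 5]), (4, [], [3])]),
  (-48, 0, 1, [(0, [1], [1, 5]), (0, [0], [2, 3]), (1, [], [0, 5]), (4, [], [4])]),
  (48, 0, 1, [(0, [1], [1, 5]), (0, [0], [2, 3]), (1, [], [4, 5]), (4, [], [0])]),
  (48, 0, 1, [(0, [1], [1, 5]), (0, [0], [2, 4]), (1, [], [0, 5]), (4, [], [3])]),
  (-48, 0, 1, [(0, [1], [1, 5]), (0, [0], [2, 4]), (1, [], [3, 5]), (4, [], [0])]),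
  (48, 0, 1, [(0, [1], [2, 5]), (0, [0], [0, 1]), (1, [], [3, 5]), (4, [], [4])]),
  (-48, 0, 1, [(0, [1], [2, 5]), (0, [0], [0, 1]), (1, [], [4, 5]), (4, [], [3])]),
  (-48, 0, 1, [(0, [1], [2, 5]), (0, [0], [1, 3]), (1, [], [0, 5]), (4, [], [4])]),
  (48, 0, 1, [(0, [1], [2, 5]), (0, [0], [1, 3]), (1, [], [4, 5]), (4, [], [0])]),
  (48, 0, 1, [(0, [1], [2, 5]), (0, [0], [1, 4]), (1, [], [0, 5]), (4, [], [3])]),
  (-48, 0, 1, [(0, [1], [2, 5]), (0, [0], [1, 4]), (1, [], [3, 5]), (4, [], [0])]),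
  (-48, 0, 1, [(0, [1], [3, 5]), (0, [0], [0, 1]), (1, [], [2, 5]), (4, [], [4])]),
  (48, 0, 1, [(0, [1], [3, 5]), (0, [0], [0, 1]), (1, [], [4, 5]), (4, [], [2])]),
  (-48, 0, 1, [(0, [1], [3, 5]), (0, [0], [0, 2]), (1, [], [1, 5]), (4, [], [4])]),
  (48, 0, 1, [(0, [1], [3, 5]), (0, [0], [0, 2]), (1, [], [4, 5]), (4, [], [1])]),
  (-144, 0, 1, [(0, [1], [3, 5]), (0, [0], [1, 2]), (1, [], [0, 5]), (4, [], [4])]),
  (144, 0, 1, [(0, [1], [3, 5]), (0, [0], [1, 2]), (1, [], [4, 5]), (4, [], [0])]),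
  (-48, 0, 1, [(0, [1], [3, 5]), (0, [0], [1, 4]), (1, [], [0, 5]), (4, [], [2])]),
  (48, 0, 1, [(0, [1], [3, 5]), (0, [0], [1, 4]), (1, [], [2, 5]), (4, [], [0])]),
  (-48, 0, 1, [(0, [1], [3, 5]), (0, [0], [2, 4]), (1, [], [0, 5]), (4, [], [1])]),
  (48, 0, 1, [(0, [1], [3, 5]), (0, [0], [2, 4]), (1, [], [1, 5]), (4, [], [0])]),
  (48, 0, 1, [(0, [1], [4, 5]), (0, [0], [0, 1]), (1, [], [2, 5]), (4, [], [3])]),
  (-48, 0, 1, [(0, [1], [4, 5]), (0, [0], [0, 1]), (1, [], [3, 5]), (4, [], [2])]),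
  (48, 0, 1, [(0, [1], [4, 5]), (0, [0], [0, 2]), (1, [], [1, 5]), (4, [], [3])]),
  (-48, 0, 1, [(0, [1], [4, 5]), (0, [0], [0, 2]), (1, [], [3, 5]), (4, [], [1])]),
  (144, 0, 1, [(0, [1], [4, 5]), (0, [0], [1, 2]), (1, [], [0, 5]), (4, [], [3])]),
  (-144, 0, 1, [(0, [1], [4, 5]), (0, [0], [1, 2]), (1, [], [3, 5]), (4, [], [0])]),
  (48, 0, 1, [(0, [1], [4, 5]), (0, [0], [1, 3]), (1, [], [0, 5]), (4, [], [2])]),
  (-48, 0, 1, [(0, [1], [4, 5]), (0, [0], [1, 3]), (1, [], [2, 5]), (4, [], [0])]),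
  (48, 0, 1, [(0, [1], [4, 5]), (0, [0], [2, 3]), (1, [], [0, 5]), (4, [], [1])]),
  (-48, 0, 1, [(0, [1], [4, 5]), (0, [0], [2, 3]), (1, [], [1, 5]), (4, [], [0])])]

def z61_1 : Cov := []

def w61_1 : List (List Wit) := [[(0, 0, 0, 0, 0), (1, 0, 0, 0, 0), (2, 0, 0, 0, 0), (3, 0, 0, 0, 0), (4, 0, 0, 0, 0), (5, 0, 0, 0, 0), (0, 0, 0, 0, 0), (1, 0, 0, 0, 0), (6, 0, 0, 0, 0), (7, 0, 0, 0, 0), (8, 0, 0, 0, 0), (9, 0, 0, 0, 0), (2, 0, 0, 0, 0), (3, 0, 0, 0, 0), (6, 0, 0, 0, 0), (7, 0, 0, 0, 0), (4, 0, 0, 0, 0), (5, 0, 0, 0, 0), (8, 0, 0, 0, 0), (9, 0, 0, 0, 0), (10, 0, 0, 0, 0), (11, 0, 0, 0, 0), (10, 0, 0, 0, 0), (11, 0, 0, 0, 0), (12, 0, 0, 0, 0), (13, 0, 0, 0, 0), (14, 0, 0, 0, 0), (15, 0, 0, 0, 0), (12, 0, 0, 0, 0), (13, 0, 0, 0, 0), (14, 0, 0, 0, 0), (15, 0, 0, 0, 0), (16, 0, 0, 0, 0), (17, 0, 0, 0, 0), (16, 0, 0, 0, 0), (17, 0, 0, 0, 0), (18, 0, 0, 0, 0), (19, 0,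 0, 0, 0), (20, 0, 0, 0, 0), (21, 0, 0, 0, 0), (18, 0, 0, 0, 0), (19, 0, 0, 0, 0), (20, 0, 0, 0, 0), (21, 0, 0, 0, 0), (22, 0, 0, 0, 0), (23, 0, 0, 0, 0), (24, 0, 0, 0, 0), (25, 0, 0, 0, 0), (22, 0, 0, 0, 0), (23, 0, 0, 0, 0), (26, 0, 0, 0, 0), (27, 0, 0, 0, 0), (28, 0, 0, 0, 0), (29, 0, 0, 0, 0), (24, 0, 0, 0, 0), (25, 0, 0, 0, 0), (26, 0, 0, 0, 0), (27, 0, 0, 0, 0), (30, 0, 0, 0, 0), (31, 0, 0, 0, 0), (28, 0, 0, 0, 0), (29, 0, 0, 0, 0), (30, 0, 0, 0, 0), (31, 0, 0, 0, 0), (32, 0, 0, 0, 0), (33, 0, 0, 0, 0), (34, 0, 0, 0, 0), (35, 0, 0, 0, 0), (32, 0, 0, 0, 0), (33, 0, 0, 0, 0), (36, 0, 0, 0, 0), (37, 0, 0, 0, 0), (38, 0, 0, 0, 0), (39, 0, 0, 0, 0), (34, 0, 0, 0, 0), (35, 0, 0, 0, 0), (36, 0, 0, 0, 0), (37, 0, 0, 0, 0), (40, 0, 0, 0, 0), (41, 0, 0, 0, 0), (38, 0, 0, 0, 0), (39, 0, 0, 0, 0), (40, 0, 0, 0, 0), (41, 0, 0, 0, 0)],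
  [(42, 0, 0, 0, 0), (43, 0, 0, 0, 0), (44, 0, 0, 0, 0), (45, 0, 0, 0, 0), (46, 0, 0, 0, 0), (47, 0, 0, 0, 0), (42, 0, 0, 0, 0), (43, 0, 0, 0, 0), (48, 0, 0, 0, 0), (49, 0, 0, 0, 0), (50, 0, 0, 0, 0), (51, 0, 0, 0, 0), (44, 0, 0, 0, 0), (45, 0, 0, 0, 0), (48, 0, 0, 0, 0), (49, 0, 0, 0, 0), (46, 0, 0, 0, 0), (47, 0, 0, 0, 0), (50, 0, 0, 0, 0), (51, 0, 0, 0, 0), (52, 0, 0, 0, 0), (53, 0, 0, 0, 0), (52, 0, 0, 0, 0), (53, 0, 0, 0, 0), (54, 0, 0, 0, 0), (55, 0, 0, 0, 0), (56, 0, 0, 0, 0), (57, 0, 0, 0, 0), (54, 0, 0, 0, 0), (55, 0, 0, 0, 0), (56, 0, 0, 0, 0), (57, 0, 0, 0, 0), (58, 0, 0, 0, 0), (59, 0, 0, 0, 0), (58, 0, 0, 0, 0), (59, 0, 0, 0, 0), (60, 0, 0, 0, 0), (61, 0, 0, 0, 0), (62, 0, 0, 0, 0), (63, 0, 0, 0, 0), (60, 0, 0, 0, 0), (61, 0, 0, 0, 0), (62, 0, 0, 0, 0), (63, 0, 0, 0, 0), (64, 0, 0, 0, 0), (65, 0, 0, 0, 0), (66, 0, 0, 0, 0), (67, 0, 0, 0, 0), (64, 0, 0,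 0, 0), (65, 0, 0, 0, 0), (68, 0, 0, 0, 0), (69, 0, 0, 0, 0), (70, 0, 0, 0, 0), (71, 0, 0, 0, 0), (66, 0, 0, 0, 0), (67, 0, 0, 0, 0), (68, 0, 0, 0, 0), (69, 0, 0, 0, 0), (72, 0, 0, 0, 0), (73, 0, 0, 0, 0), (70, 0, 0, 0, 0), (71, 0, 0, 0, 0), (72, 0, 0, 0, 0), (73, 0, 0, 0, 0), (74, 0, 0, 0, 0), (75, 0, 0, 0, 0), (76, 0, 0, 0, 0), (77, 0, 0, 0, 0), (74, 0, 0, 0, 0), (75, 0, 0, 0, 0), (78, 0, 0, 0, 0), (79, 0, 0, 0, 0), (80, 0, 0, 0, 0), (81, 0, 0, 0, 0), (76, 0, 0, 0, 0), (77, 0, 0, 0, 0), (78, 0, 0, 0, 0), (79, 0, 0, 0, 0), (82, 0, 0, 0, 0), (83, 0, 0, 0, 0), (80, 0, 0, 0, 0), (81, 0, 0, 0, 0), (82, 0, 0, 0, 0), (83, 0, 0, 0, 0)]]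

def m61_2 : Base := (0, 1, [(0, [0], [0, 5]), (0, [1], [1, 3]), (1, [], [2, 5]), (4, [], [4])])

def l61_2 : Cov := [(96, 0, 1, [(0, [0], [0, 5]), (0, [1], [1, 3]), (1, [], [2, 5]), (4, [], [4])]),
  (-96, 0, 1, [(0, [0], [0, 5]), (0, [1], [1, 4]), (1, [], [2, 5]), (4, [], [3])]),
  (48, 0, 1, [(0, [0], [0, 5]), (0, [1], [1, 2]), (1, [], [3, 5]), (4, [], [4])]),
  (-24, 0, 1, [(0, [0], [0, 5]), (0, [1], [1, 4]), (1, [], [3, 5]), (4, [], [2])]),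
  (-48, 0, 1, [(0, [0], [0, 5]), (0, [1], [1, 2]), (1, [], [4, 5]), (4, [], [3])]),
  (24, 0, 1, [(0, [0], [0, 5]), (0, [1], [1, 3]), (1, [], [4, 5]), (4, [], [2])]),
  (96, 0, 1, [(0, [0], [0, 5]), (0, [1], [2, 3]), (1, [], [1, 5]), (4, [], [4])]),
  (-96, 0, 1, [(0, [0], [0, 5]), (0, [1], [2, 4]), (1, [], [1, 5]), (4, [], [3])]),
  (-24, 0, 1, [(0, [0], [0, 5]), (0, [1], [2, 4]), (1, [], [3, 5]), (4, [], [1])]),
  (24, 0, 1, [(0, [0], [0, 5]), (0, [1], [2, 3]), (1, [], [4, 5]), (4, [], [1])]),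
  (24, 0, 1, [(0, [0], [1, 5]), (0, [1], [2, 3]), (1, [], [0, 5]), (4, [], [4])]),
  (-24, 0, 1, [(0, [0], [1, 5]), (0, [1], [2, 4]), (1, [], [0, 5]), (4, [], [3])]),
  (-24, 0, 1, [(0, [0], [1, 5]), (0, [1], [2, 0]), (1, [], [3, 5]), (4, [], [4])]),
  (24, 0, 1, [(0, [0], [1, 5]), (0, [1], [2, 4]), (1, [], [3, 5]), (4, [], [0])]),
  (24, 0, 1, [(0, [0], [1, 5]), (0, [1], [2, 0]), (1, [], [4, 5]), (4, [], [3])]),
  (-24, 0, 1, [(0, [0], [1, 5]), (0, [1], [2, 3]), (1, [], [4, 5]), (4, [], [0])]),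
  (24, 0, 1, [(0, [0], [2, 5]), (0, [1], [1, 3]), (1, [], [0, 5]), (4, [], [4])]),
  (-24, 0, 1, [(0, [0], [2, 5]), (0, [1], [1, 4]), (1, [], [0, 5]), (4, [], [3])]),
  (-24, 0, 1, [(0, [0], [2, 5]), (0, [1], [1, 0]), (1, [], [3, 5]), (4, [], [4])]),
  (24, 0, 1, [(0, [0], [2, 5]), (0, [1], [1, 4]), (1, [], [3, 5]), (4, [], [0])]),
  (24, 0, 1, [(0, [0], [2, 5]), (0, [1], [1, 0]), (1, [], [4, 5]), (4, [], [3])]),
  (-24, 0, 1, [(0, [0], [2, 5]), (0, [1], [1, 3]), (1, [], [4, 5]), (4, [], [0])]),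
  (-96, 0, 1, [(0, [0], [3, 5]), (0, [1], [0, 2]), (1, [], [1, 5]), (4, [], [4])]),
  (-96, 0, 1, [(0, [0], [3, 5]), (0, [1], [0, 1]), (1, [], [2, 5]), (4, [], [4])]),
  (-48, 0, 1, [(0, [0], [3, 5]), (0, [1], [1, 2]), (1, [], [0, 5]), (4, [], [4])]),
  (24, 0, 1, [(0, [0], [3, 5]), (0, [1], [1, 4]), (1, [], [0, 5]), (4, [], [2])]),
  (96, 0, 1, [(0, [0], [3, 5]), (0, [1], [1, 4]), (1, [], [2, 5]), (4, [], [0])]),
  (-24, 0, 1, [(0, [0], [3, 5]), (0, [1], [1, 0]), (1, [], [4, 5]), (4, [], [2])]),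
  (48, 0, 1, [(0, [0], [3, 5]), (0, [1], [1, 2]), (1, [], [4, 5]), (4, [], [0])]),
  (24, 0, 1, [(0, [0], [3, 5]), (0, [1], [2, 4]), (1, [], [0, 5]), (4, [], [1])]),
  (96, 0, 1, [(0, [0], [3, 5]), (0, [1], [2, 4]), (1, [], [1, 5]), (4, [], [0])]),
  (-24, 0, 1, [(0, [0], [3, 5]), (0, [1], [2, 0]), (1, [], [4, 5]), (4, [], [1])]),
  (96, 0, 1, [(0, [0], [4, 5]), (0, [1], [0, 2]), (1, [], [1, 5]), (4, [], [3])]),
  (96, 0, 1, [(0, [0], [4, 5]), (0, [1], [0, 1]), (1, [], [2, 5]), (4, [], [3])]),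
  (48, 0, 1, [(0, [0], [4, 5]), (0, [1], [1, 2]), (1, [], [0, 5]), (4, [], [3])]),
  (-24, 0, 1, [(0, [0], [4, 5]), (0, [1], [1, 3]), (1, [], [0, 5]), (4, [], [2])]),
  (-96, 0, 1, [(0, [0], [4, 5]), (0, [1], [1, 3]), (1, [], [2, 5]), (4, [], [0])]),
  (24, 0, 1, [(0, [0], [4, 5]), (0, [1], [1, 0]), (1, [], [3, 5]), (4, [], [2])]),
  (-48, 0, 1, [(0, [0], [4, 5]), (0, [1], [1, 2]), (1, [], [3, 5]), (4, [], [0])]),
  (-24, 0, 1, [(0, [0], [4, 5]), (0, [1], [2, 3]), (1, [], [0, 5]), (4, [], [1])]),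
  (-96, 0, 1, [(0, [0], [4, 5]), (0, [1], [2, 3]), (1, [], [1, 5]), (4, [], [0])]),
  (24, 0, 1, [(0, [0], [4, 5]), (0, [1], [2, 0]), (1, [], [3, 5]), (4, [], [1])]),
  (96, 0, 1, [(0, [1], [0, 5]), (0, [0], [1, 3]), (1, [], [2, 5]), (4, [], [4])]),
  (-96, 0, 1, [(0, [1], [0, 5]), (0, [0], [1, 4]), (1, [], [2, 5]), (4, [], [3])]),
  (48, 0, 1, [(0, [1], [0, 5]), (0, [0], [1, 2]), (1, [], [3, 5]), (4, [], [4])]),
  (-24, 0, 1, [(0, [1], [0, 5]), (0, [0], [1, 4]), (1, [], [3, 5]), (4, [], [2])]),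
  (-48, 0, 1, [(0, [1], [0, 5]), (0, [0], [1, 2]), (1, [], [4, 5]), (4, [], [3])]),
  (24, 0, 1, [(0, [1], [0, 5]), (0, [0], [1, 3]), (1, [], [4, 5]), (4, [], [2])]),
  (96, 0, 1, [(0, [1], [0, 5]), (0, [0], [2, 3]), (1, [], [1, 5]), (4, [], [4])]),
  (-96, 0, 1, [(0, [1], [0, 5]), (0, [0], [2, 4]), (1, [], [1, 5]), (4, [], [3])]),
  (-24, 0, 1, [(0, [1], [0, 5]), (0, [0], [2, 4]), (1, [], [3, 5]), (4, [], [1])]),
  (24, 0, 1, [(0, [1], [0, 5]), (0, [0], [2, 3]), (1, [], [4, 5]), (4, [], [1])]),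
  (24, 0, 1, [(0, [1], [1, 5]), (0, [0], [2, 3]), (1, [], [0, 5]), (4, [], [4])]),
  (-24, 0, 1, [(0, [1], [1, 5]), (0, [0], [2, 4]), (1, [], [0, 5]), (4, [], [3])]),
  (-24, 0, 1, [(0, [1], [1, 5]), (0, [0], [2, 0]), (1, [], [3, 5]), (4, [], [4])]),
  (24, 0, 1, [(0, [1], [1, 5]), (0, [0], [2, 4]), (1, [], [3, 5]), (4, [], [0])]),
  (24, 0, 1, [(0, [1], [1, 5]), (0, [0], [2, 0]), (1, [], [4, 5]), (4, [], [3])]),
  (-24, 0, 1, [(0, [1], [1, 5]), (0, [0], [2, 3]), (1, [], [4, 5]), (4, [], [0])]),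
  (24, 0, 1, [(0, [1], [2, 5]), (0, [0], [1, 3]), (1, [], [0, 5]), (4, [], [4])]),
  (-24, 0, 1, [(0, [1], [2, 5]), (0, [0], [1, 4]), (1, [], [0, 5]), (4, [], [3])]),
  (-24, 0, 1, [(0, [1], [2, 5]), (0, [0], [1, 0]), (1, [], [3, 5]), (4, [], [4])]),
  (24, 0, 1, [(0, [1], [2, 5]), (0, [0], [1, 4]), (1, [], [3, 5]), (4, [], [0])]),
  (24, 0, 1, [(0, [1], [2, 5]), (0, [0], [1, 0]), (1, [], [4, 5]), (4, [], [3])]),
  (-24, 0, 1, [(0, [1], [2, 5]), (0, [0], [1, 3]), (1, [], [4, 5]), (4, [], [0])]),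
  (-96, 0, 1, [(0, [1], [3, 5]), (0, [0], [0, 2]), (1, [], [1, 5]), (4, [], [4])]),
  (-96, 0, 1, [(0, [1], [3, 5]), (0, [0], [0, 1]), (1, [], [2, 5]), (4, [], [4])]),
  (-48, 0, 1, [(0, [1], [3, 5]), (0, [0], [1, 2]), (1, [], [0, 5]), (4, [], [4])]),
  (24, 0, 1, [(0, [1], [3, 5]), (0, [0], [1, 4]), (1, [], [0, 5]), (4, [], [2])]),
  (96, 0, 1, [(0, [1], [3, 5]), (0, [0], [1, 4]), (1, [], [2, 5]), (4, [], [0])]),
  (-24, 0, 1, [(0, [1], [3, 5]), (0, [0], [1, 0]), (1, [], [4, 5]), (4, [], [2])]),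
  (48, 0, 1, [(0, [1], [3, 5]), (0, [0], [1, 2]), (1, [], [4, 5]), (4, [], [0])]),
  (24, 0, 1, [(0, [1], [3, 5]), (0, [0], [2, 4]), (1, [], [0, 5]), (4, [], [1])]),
  (96, 0, 1, [(0, [1], [3, 5]), (0, [0], [2, 4]), (1, [], [1, 5]), (4, [], [0])]),
  (-24, 0, 1, [(0, [1], [3, 5]), (0, [0], [2, 0]), (1, [], [4, 5]), (4, [], [1])]),
  (96, 0, 1, [(0, [1], [4, 5]), (0, [0], [0, 2]), (1, [], [1, 5]), (4, [], [3])]),
  (96, 0, 1, [(0, [1], [4, 5]), (0, [0], [0, 1]), (1, [], [2, 5]), (4, [], [3])]),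
  (48, 0, 1, [(0, [1], [4, 5]), (0, [0], [1, 2]), (1, [], [0, 5]), (4, [], [3])]),
  (-24, 0, 1, [(0, [1], [4, 5]), (0, [0], [1, 3]), (1, [], [0, 5]), (4, [], [2])]),
  (-96, 0, 1, [(0, [1], [4, 5]), (0, [0], [1, 3]), (1, [], [2, 5]), (4, [], [0])]),
  (24, 0, 1, [(0, [1], [4, 5]), (0, [0], [1, 0]), (1, [], [3, 5]), (4, [], [2])]),
  (-48, 0, 1, [(0, [1], [4, 5]), (0, [0], [1, 2]), (1, [], [3, 5]), (4, [], [0])]),
  (-24, 0, 1, [(0, [1], [4, 5]), (0, [0], [2, 3]), (1, [], [0, 5]), (4, [], [1])]),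
  (-96, 0, 1, [(0, [1], [4, 5]), (0, [0], [2, 3]), (1, [], [1, 5]), (4, [], [0])]),
  (24, 0, 1, [(0, [1], [4, 5]), (0, [0], [2, 0]), (1, [], [3, 5]), (4, [], [1])])]

def z61_2 : Cov := [(0, 0, 1, [(0, [0], [0, 5]), (0, [1], [3, 4]), (1, [], [1, 5]), (4, [], [2])]),
  (0, 0, 1, [(0, [0], [0, 5]), (0, [1], [3, 4]), (1, [], [2, 5]), (4, [], [1])]),
  (0, 0, 1, [(0, [0], [1, 5]), (0, [1], [0, 3]), (1, [], [2, 5]), (4, [], [4])]),
  (0, 0, 1, [(0, [0], [1, 5]), (0, [1], [0, 4]), (1, [], [2, 5]), (4, [], [3])]),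
  (0, 0, 1, [(0, [0], [1, 5]), (0, [1], [3, 4]), (1, [], [2, 5]), (4, [], [0])]),
  (0, 0, 1, [(0, [0], [2, 5]), (0, [1], [0, 3]), (1, [], [1, 5]), (4, [], [4])]),
  (0, 0, 1, [(0, [0], [2, 5]), (0, [1], [0, 4]), (1, [], [1, 5]), (4, [], [3])]),
  (0, 0, 1, [(0, [0], [2, 5]), (0, [1], [3, 4]), (1, [], [1, 5]), (4, [], [0])]),
  (0, 0, 1, [(0, [0], [3, 5]), (0, [1], [0, 4]), (1, [], [1, 5]), (4, [], [2])]),
  (0, 0, 1, [(0, [0], [3, 5]), (0, [1], [0, 4]), (1, [], [2, 5]), (4, [], [1])]),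
  (0, 0, 1, [(0, [0], [4, 5]), (0, [1], [0, 3]), (1, [], [1, 5]), (4, [], [2])]),
  (0, 0, 1, [(0, [0], [4, 5]), (0, [1], [0, 3]), (1, [], [2, 5]), (4, [], [1])]),
  (0, 0, 1, [(0, [1], [0, 5]), (0, [0], [3, 4]), (1, [], [1, 5]), (4, [], [2])]),
  (0, 0, 1, [(0, [1], [0, 5]), (0, [0], [3, 4]), (1, [], [2, 5]), (4, [], [1])]),
  (0, 0, 1, [(0, [1], [1, 5]), (0, [0], [0, 3]), (1, [], [2, 5]), (4, [], [4])]),
  (0, 0, 1, [(0, [1], [1, 5]), (0, [0], [0, 4]), (1, [], [2, 5]), (4, [], [3])]),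
  (0, 0, 1, [(0, [1], [1, 5]), (0, [0], [3, 4]), (1, [], [2, 5]), (4, [], [0])]),
  (0, 0, 1, [(0, [1], [2, 5]), (0, [0], [0, 3]), (1, [], [1, 5]), (4, [], [4])]),
  (0, 0, 1, [(0, [1], [2, 5]), (0, [0], [0, 4]), (1, [], [1, 5]), (4, [], [3])]),
  (0, 0, 1, [(0, [1], [2, 5]), (0, [0], [3, 4]), (1, [], [1, 5]), (4, [], [0])]),
  (0, 0, 1, [(0, [1], [3, 5]), (0, [0], [0, 4]), (1, [], [1, 5]), (4, [], [2])]),
  (0, 0, 1, [(0, [1], [3, 5]), (0, [0], [0, 4]), (1, [], [2, 5]), (4, [], [1])]),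
  (0, 0, 1, [(0, [1], [4, 5]), (0, [0], [0, 3]), (1, [], [1, 5]), (4, [], [2])]),
  (0, 0, 1, [(0, [1], [4, 5]), (0, [0], [0, 3]), (1, [], [2, 5]), (4, [], [1])])]

def w61_2 : List (List Wit) := [[(0, 0, 0, 0, 0), (1, 0, 0, 0, 0), (2, 0, 0, 0, 0), (3, 0, 0, 0, 0), (4, 0, 0, 0, 0), (5, 0, 0, 0, 0), (6, 0, 0, 0, 0), (7, 0, 0, 0, 0), (2, 0, 0, 0, 0), (8, 0, 0, 0, 0), (4, 0, 0, 0, 0), (9, 0, 0, 0, 0), (6, 0, 0, 0, 0), (84, 0, 0, 0, 0), (0, 0, 0, 0, 0), (85, 0, 0, 0, 0), (7, 0, 0, 0, 0), (84, 0, 0, 0, 0), (1, 0, 0, 0, 0), (85, 0, 0, 0, 0), (86, 0, 0, 0, 0), (87, 0, 0, 0, 0), (10, 0, 0, 0, 0), (11, 0, 0, 0, 0), (12, 0, 0, 0, 0), (13, 0, 0, 0, 0), (14, 0, 0, 0, 0), (15, 0, 0, 0, 0), (86, 0, 0, 0, 0), (88, 0, 0, 0, 0), (87, 0, 0, 0, 0), (88, 0, 0, 0, 0), (89, 0, 0, 0, 0), (90, 0, 0, 0, 0), (16, 0, 0, 0, 0), (17, 0, 0, 0, 0), (18, 0, 0, 0, 0), (19, 0, 0, 0, 0), (20, 0, 0, 0,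 0), (21, 0, 0, 0, 0), (89, 0, 0, 0, 0), (91, 0, 0, 0, 0), (90, 0, 0, 0, 0), (91, 0, 0, 0, 0), (22, 0, 0, 0, 0), (92, 0, 0, 0, 0), (23, 0, 0, 0, 0), (93, 0, 0, 0, 0), (24, 0, 0, 0, 0), (25, 0, 0, 0, 0), (23, 0, 0, 0, 0), (26, 0, 0, 0, 0), (27, 0, 0, 0, 0), (28, 0, 0, 0, 0), (24, 0, 0, 0, 0), (29, 0, 0, 0, 0), (22, 0, 0, 0, 0), (30, 0, 0, 0, 0), (31, 0, 0, 0, 0), (28, 0, 0, 0, 0), (92, 0, 0, 0, 0), (30, 0, 0, 0, 0), (93, 0, 0, 0, 0), (26, 0, 0, 0, 0), (32, 0, 0, 0, 0), (94, 0, 0, 0, 0), (33, 0, 0, 0, 0), (95, 0, 0, 0, 0), (34, 0, 0, 0, 0), (35, 0, 0, 0, 0), (33, 0, 0, 0, 0), (36, 0, 0, 0, 0), (37, 0, 0, 0, 0), (38, 0, 0, 0, 0), (34, 0, 0, 0, 0), (39, 0, 0, 0, 0), (32, 0, 0, 0, 0), (40, 0, 0, 0, 0), (41, 0, 0, 0, 0), (38, 0, 0, 0, 0), (94, 0, 0, 0, 0), (40, 0, 0, 0, 0), (95, 0, 0, 0, 0), (36, 0, 0, 0, 0)],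
  [(42, 0, 0, 0, 0), (43, 0, 0, 0, 0), (44, 0, 0, 0, 0), (45, 0, 0, 0, 0), (46, 0, 0, 0, 0), (47, 0, 0, 0, 0), (48, 0, 0, 0, 0), (49, 0, 0, 0, 0), (44, 0, 0, 0, 0), (50, 0, 0, 0, 0), (46, 0, 0, 0, 0), (51, 0, 0, 0, 0), (48, 0, 0, 0, 0), (96, 0, 0, 0, 0), (42, 0, 0, 0, 0), (97, 0, 0, 0, 0), (49, 0, 0, 0, 0), (96, 0, 0, 0, 0), (43, 0, 0, 0, 0), (97, 0, 0, 0, 0), (98, 0, 0, 0, 0), (99, 0, 0, 0, 0), (52, 0, 0, 0, 0), (53, 0, 0, 0, 0), (54, 0, 0, 0, 0), (55, 0, 0, 0, 0), (56, 0, 0, 0, 0), (57, 0, 0, 0, 0), (98, 0, 0, 0, 0), (100, 0, 0, 0, 0), (99, 0, 0, 0, 0), (100, 0, 0, 0, 0), (101, 0, 0, 0, 0), (102, 0, 0, 0, 0), (58, 0, 0, 0, 0), (59, 0, 0, 0, 0), (60, 0, 0, 0, 0), (61, 0, 0, 0, 0), (62, 0, 0, 0, 0), (63, 0, 0, 0, 0), (101, 0, 0, 0, 0), (103, 0, 0, 0, 0), (102, 0, 0, 0, 0), (103, 0, 0, 0, 0), (64, 0, 0, 0, 0), (104, 0, 0, 0, 0), (65, 0, 0, 0, 0), (105, 0, 0, 0, 0), (66,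 0, 0, 0, 0), (67, 0, 0, 0, 0), (65, 0, 0, 0, 0), (68, 0, 0, 0, 0), (69, 0, 0, 0, 0), (70, 0, 0, 0, 0), (66, 0, 0, 0, 0), (71, 0, 0, 0, 0), (64, 0, 0, 0, 0), (72, 0, 0, 0, 0), (73, 0, 0, 0, 0), (70, 0, 0, 0, 0), (104, 0, 0, 0, 0), (72, 0, 0, 0, 0), (105, 0, 0, 0, 0), (68, 0, 0, 0, 0), (74, 0, 0, 0, 0), (106, 0, 0, 0, 0), (75, 0, 0, 0, 0), (107, 0, 0, 0, 0), (76, 0, 0, 0, 0), (77, 0, 0, 0, 0), (75, 0, 0, 0, 0), (78, 0, 0, 0, 0), (79, 0, 0, 0, 0), (80, 0, 0, 0, 0), (76, 0, 0, 0, 0), (81, 0, 0, 0, 0), (74, 0, 0, 0, 0), (82, 0, 0, 0, 0), (83, 0, 0, 0, 0), (80, 0, 0, 0, 0), (106, 0, 0, 0, 0), (82, 0, 0, 0, 0), (107, 0, 0, 0, 0), (78, 0, 0, 0, 0)]]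

def m61_3 : Base := (0, 1, [(0, [0], [0, 5]), (0, [1], [1, 3]), (1, [], [2, 4]), (4, [], [5])])

def l61_3 : Cov := [(120, 0, 1, [(0, [0], [0, 5]), (0, [1], [1, 3]), (1, [], [2, 4]), (4, [], [5])]),
  (-120, 0, 1, [(0, [0], [0, 5]), (0, [1], [1, 4]), (1, [], [2, 3]), (4, [], [5])]),
  (120, 0, 1, [(0, [0], [0, 5]), (0, [1], [2, 3]), (1, [], [1, 4]), (4, [], [5])]),
  (-120, 0, 1, [(0, [0], [0, 5]), (0, [1], [2, 4]), (1, [], [1, 3]), (4, [], [5])]),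
  (-120, 0, 1, [(0, [0], [3, 5]), (0, [1], [0, 2]), (1, [], [1, 4]), (4, [], [5])]),
  (-120, 0, 1, [(0, [0], [3, 5]), (0, [1], [0, 1]), (1, [], [2, 4]), (4, [], [5])]),
  (120, 0, 1, [(0, [0], [3, 5]), (0, [1], [1, 4]), (1, [], [0, 2]), (4, [], [5])]),
  (120, 0, 1, [(0, [0], [3, 5]), (0, [1], [2, 4]), (1, [], [0, 1]), (4, [], [5])]),
  (120, 0, 1, [(0, [0], [4, 5]), (0, [1], [0, 2]), (1, [], [1, 3]), (4, [], [5])]),
  (120, 0, 1, [(0, [0], [4, 5]), (0, [1], [0, 1]), (1, [], [2, 3]), (4, [], [5])]),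
  (-120, 0, 1, [(0, [0], [4, 5]), (0, [1], [1, 3]), (1, [], [0, 2]), (4, [], [5])]),
  (-120, 0, 1, [(0, [0], [4, 5]), (0, [1], [2, 3]), (1, [], [0, 1]), (4, [], [5])]),
  (120, 0, 1, [(0, [1], [0, 5]), (0, [0], [1, 3]), (1, [], [2, 4]), (4, [], [5])]),
  (-120, 0, 1, [(0, [1], [0, 5]), (0, [0], [1, 4]), (1, [], [2, 3]), (4, [], [5])]),
  (120, 0, 1, [(0, [1], [0, 5]), (0, [0], [2, 3]), (1, [], [1, 4]), (4, [], [5])]),
  (-120, 0, 1, [(0, [1], [0, 5]), (0, [0], [2, 4]), (1, [], [1, 3]), (4, [], [5])]),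
  (-120, 0, 1, [(0, [1], [3, 5]), (0, [0], [0, 2]), (1, [], [1, 4]), (4, [], [5])]),
  (-120, 0, 1, [(0, [1], [3, 5]), (0, [0], [0, 1]), (1, [], [2, 4]), (4, [], [5])]),
  (120, 0, 1, [(0, [1], [3, 5]), (0, [0], [1, 4]), (1, [], [0, 2]), (4, [], [5])]),
  (120, 0, 1, [(0, [1], [3, 5]), (0, [0], [2, 4]), (1, [], [0, 1]), (4, [], [5])]),
  (120, 0, 1, [(0, [1], [4, 5]), (0, [0], [0, 2]), (1, [], [1, 3]), (4, [], [5])]),
  (120, 0, 1, [(0, [1], [4, 5]), (0, [0], [0, 1]), (1, [], [2, 3]), (4, [], [5])]),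
  (-120, 0, 1, [(0, [1], [4, 5]), (0, [0], [1, 3]), (1, [], [0, 2]), (4, [], [5])]),
  (-120, 0, 1, [(0, [1], [4, 5]), (0, [0], [2, 3]), (1, [], [0, 1]), (4, [], [5])])]

def z61_3 : Cov := [(0, 0, 1, [(0, [0], [0, 5]), (0, [1], [1, 2]), (1, [], [3, 4]), (4, [], [5])]),
  (0, 0, 1, [(0, [0], [0, 5]), (0, [1], [3, 4]), (1, [], [1, 2]), (4, [], [5])]),
  (0, 0, 1, [(0, [0], [1, 5]), (0, [1], [0, 3]), (1, [], [2, 4]), (4, [], [5])]),
  (0, 0, 1, [(0, [0], [1, 5]), (0, [1], [0, 4]), (1, [], [2, 3]), (4, [], [5])]),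
  (0, 0, 1, [(0, [0], [1, 5]), (0, [1], [2, 3]), (1, [], [0, 4]), (4, [], [5])]),
  (0, 0, 1, [(0, [0], [1, 5]), (0, [1], [2, 4]), (1, [], [0, 3]), (4, [], [5])]),
  (0, 0, 1, [(0, [0], [1, 5]), (0, [1], [2, 0]), (1, [], [3, 4]), (4, [], [5])]),
  (0, 0, 1, [(0, [0], [1, 5]), (0, [1], [3, 4]), (1, [], [2, 0]), (4, [], [5])]),
  (0, 0, 1, [(0, [0], [2, 5]), (0, [1], [0, 3]), (1, [], [1, 4]), (4, [], [5])]),
  (0, 0, 1, [(0, [0], [2, 5]), (0, [1], [0, 4]), (1, [], [1, 3]), (4, [], [5])]),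
  (0, 0, 1, [(0, [0], [2, 5]), (0, [1], [1, 3]), (1, [], [0, 4]), (4, [], [5])]),
  (0, 0, 1, [(0, [0], [2, 5]), (0, [1], [1, 4]), (1, [], [0, 3]), (4, [], [5])]),
  (0, 0, 1, [(0, [0], [2, 5]), (0, [1], [1, 0]), (1, [], [3, 4]), (4, [], [5])]),
  (0, 0, 1, [(0, [0], [2, 5]), (0, [1], [3, 4]), (1, [], [1, 0]), (4, [], [5])]),
  (0, 0, 1, [(0, [0], [3, 5]), (0, [1], [0, 4]), (1, [], [1, 2]), (4, [], [5])]),
  (0, 0, 1, [(0, [0], [3, 5]), (0, [1], [1, 2]), (1, [], [0, 4]), (4, [], [5])]),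
  (0, 0, 1, [(0, [0], [4, 5]), (0, [1], [0, 3]), (1, [], [1, 2]), (4, [], [5])]),
  (0, 0, 1, [(0, [0], [4, 5]), (0, [1], [1, 2]), (1, [], [0, 3]), (4, [], [5])]),
  (0, 0, 1, [(0, [1], [0, 5]), (0, [0], [1, 2]), (1, [], [3, 4]), (4, [], [5])]),
  (0, 0, 1, [(0, [1], [0, 5]), (0, [0], [3, 4]), (1, [], [1, 2]), (4, [], [5])]),
  (0, 0, 1, [(0, [1], [1, 5]), (0, [0], [0, 3]), (1, [], [2, 4]), (4, [], [5])]),
  (0, 0, 1, [(0, [1], [1, 5]), (0, [0], [0, 4]), (1, [], [2, 3]), (4, [], [5])]),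
  (0, 0, 1, [(0, [1], [1, 5]), (0, [0], [2, 3]), (1, [], [0, 4]), (4, [], [5])]),
  (0, 0, 1, [(0, [1], [1, 5]), (0, [0], [2, 4]), (1, [], [0, 3]), (4, [], [5])]),
  (0, 0, 1, [(0, [1], [1, 5]), (0, [0], [2, 0]), (1, [], [3, 4]), (4, [], [5])]),
  (0, 0, 1, [(0, [1], [1, 5]), (0, [0], [3, 4]), (1, [], [2, 0]), (4, [], [5])]),
  (0, 0, 1, [(0, [1], [2, 5]), (0, [0], [0, 3]), (1, [], [1, 4]), (4, [], [5])]),
  (0, 0, 1, [(0, [1], [2, 5]), (0, [0], [0, 4]), (1, [], [1, 3]), (4, [], [5])]),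
  (0, 0, 1, [(0, [1], [2, 5]), (0, [0], [1, 3]), (1, [], [0, 4]), (4, [], [5])]),
  (0, 0, 1, [(0, [1], [2, 5]), (0, [0], [1, 4]), (1, [], [0, 3]), (4, [], [5])]),
  (0, 0, 1, [(0, [1], [2, 5]), (0, [0], [1, 0]), (1, [], [3, 4]), (4, [], [5])]),
  (0, 0, 1, [(0, [1], [2, 5]), (0, [0], [3, 4]), (1, [], [1, 0]), (4, [], [5])]),
  (0, 0, 1, [(0, [1], [3, 5]), (0, [0], [0, 4]), (1, [], [1, 2]), (4, [], [5])]),
  (0, 0, 1, [(0, [1], [3, 5]), (0, [0], [1, 2]), (1, [], [0, 4]), (4, [], [5])]),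
  (0, 0, 1, [(0, [1], [4, 5]), (0, [0], [0, 3]), (1, [], [1, 2]), (4, [], [5])]),
  (0, 0, 1, [(0, [1], [4, 5]), (0, [0], [1, 2]), (1, [], [0, 3]), (4, [], [5])])]

def w61_3 : List (List Wit) := [[(0, 0, 0, 0, 0), (1, 0, 0, 0, 0), (24, 0, 0, 0, 0), (1, 0, 0, 0, 0), (24, 0, 0, 0, 0), (0, 0, 0, 0, 0), (2, 0, 0, 0, 0), (3, 0, 0, 0, 0), (24, 0, 0, 0, 0), (3, 0, 0, 0, 0), (24, 0, 0, 0, 0), (2, 0, 0, 0, 0), (2, 0, 0, 0, 0), (25, 0, 0, 0, 0), (0, 0, 0, 0, 0), (25, 0, 0, 0, 0), (3, 0, 0, 0, 0), (25, 0, 0, 0, 0), (1, 0, 0, 0, 0), (25, 0, 0, 0, 0), (26, 0, 0, 0, 0), (27, 0, 0, 0, 0), (28, 0, 0, 0, 0), (29, 0, 0, 0, 0), (30, 0, 0, 0, 0), (29, 0, 0, 0, 0), (30, 0, 0, 0, 0), (28, 0, 0, 0, 0), (26, 0, 0, 0, 0), (31, 0, 0, 0, 0), (27, 0, 0, 0, 0), (31, 0, 0, 0, 0), (32, 0, 0, 0, 0), (33, 0, 0, 0, 0), (34, 0, 0, 0, 0), (35, 0, 0, 0, 0), (36, 0, 0, 0, 0), (35, 0, 0, 0, 0), (36, 0,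 0, 0, 0), (34, 0, 0, 0, 0), (32, 0, 0, 0, 0), (37, 0, 0, 0, 0), (33, 0, 0, 0, 0), (37, 0, 0, 0, 0), (4, 0, 0, 0, 0), (38, 0, 0, 0, 0), (5, 0, 0, 0, 0), (38, 0, 0, 0, 0), (39, 0, 0, 0, 0), (6, 0, 0, 0, 0), (5, 0, 0, 0, 0), (6, 0, 0, 0, 0), (5, 0, 0, 0, 0), (39, 0, 0, 0, 0), (39, 0, 0, 0, 0), (7, 0, 0, 0, 0), (4, 0, 0, 0, 0), (7, 0, 0, 0, 0), (4, 0, 0, 0, 0), (39, 0, 0, 0, 0), (38, 0, 0, 0, 0), (7, 0, 0, 0, 0), (38, 0, 0, 0, 0), (6, 0, 0, 0, 0), (8, 0, 0, 0, 0), (40, 0, 0, 0, 0), (9, 0, 0, 0, 0), (40, 0, 0, 0, 0), (41, 0, 0, 0, 0), (10, 0, 0, 0, 0), (9, 0, 0, 0, 0), (10, 0, 0, 0, 0), (9, 0, 0, 0, 0), (41, 0, 0, 0, 0), (41, 0, 0, 0, 0), (11, 0, 0, 0, 0), (8, 0, 0, 0, 0), (11, 0, 0, 0, 0), (8, 0, 0, 0, 0), (41, 0, 0, 0, 0), (40, 0, 0, 0, 0), (11, 0, 0, 0, 0), (40, 0, 0, 0, 0), (10, 0, 0, 0, 0)],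
  [(12, 0, 0, 0, 0), (13, 0, 0, 0, 0), (42, 0, 0, 0, 0), (13, 0, 0, 0, 0), (42, 0, 0, 0, 0), (12, 0, 0, 0, 0), (14, 0, 0, 0, 0), (15, 0, 0, 0, 0), (42, 0, 0, 0, 0), (15, 0, 0, 0, 0), (42, 0, 0, 0, 0), (14, 0, 0, 0, 0), (14, 0, 0, 0, 0), (43, 0, 0, 0, 0), (12, 0, 0, 0, 0), (43, 0, 0, 0, 0), (15, 0, 0, 0, 0), (43, 0, 0, 0, 0), (13, 0, 0, 0, 0), (43, 0, 0, 0, 0), (44, 0, 0, 0, 0), (45, 0, 0, 0, 0), (46, 0, 0, 0, 0), (47, 0, 0, 0, 0), (48, 0, 0, 0, 0), (47, 0, 0, 0, 0), (48, 0, 0, 0, 0), (46, 0, 0, 0, 0), (44, 0, 0, 0, 0), (49, 0, 0, 0, 0), (45, 0, 0, 0, 0), (49, 0, 0, 0, 0), (50, 0, 0, 0, 0), (51, 0, 0, 0, 0), (52, 0, 0, 0, 0), (53, 0, 0, 0, 0), (54, 0, 0, 0, 0), (53, 0, 0, 0, 0), (54, 0, 0, 0, 0), (52, 0, 0, 0, 0), (50, 0, 0, 0, 0), (55, 0, 0, 0, 0), (51, 0, 0, 0, 0), (55, 0, 0, 0, 0), (16, 0, 0, 0, 0), (56, 0, 0, 0, 0), (17, 0, 0, 0, 0), (56, 0, 0, 0, 0), (57, 0, 0,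 0, 0), (18, 0, 0, 0, 0), (17, 0, 0, 0, 0), (18, 0, 0, 0, 0), (17, 0, 0, 0, 0), (57, 0, 0, 0, 0), (57, 0, 0, 0, 0), (19, 0, 0, 0, 0), (16, 0, 0, 0, 0), (19, 0, 0, 0, 0), (16, 0, 0, 0, 0), (57, 0, 0, 0, 0), (56, 0, 0, 0, 0), (19, 0, 0, 0, 0), (56, 0, 0, 0, 0), (18, 0, 0, 0, 0), (20, 0, 0, 0, 0), (58, 0, 0, 0, 0), (21, 0, 0, 0, 0), (58, 0, 0, 0, 0), (59, 0, 0, 0, 0), (22, 0, 0, 0, 0), (21, 0, 0, 0, 0), (22, 0, 0, 0, 0), (21, 0, 0, 0, 0), (59, 0, 0, 0, 0), (59, 0, 0, 0, 0), (23, 0, 0, 0, 0), (20, 0, 0, 0, 0), (23, 0, 0, 0, 0), (20, 0, 0, 0, 0), (59, 0, 0, 0, 0), (58, 0, 0, 0, 0), (23, 0, 0, 0, 0), (58, 0, 0, 0, 0), (22, 0, 0, 0, 0)]]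

def m61_4 : Base := (0, 1, [(0, [0], [0, 5]), (0, [1], [1, 3]), (1, [], [4, 5]), (4, [], [2])])

def l61_4 : Cov := [(96, 0, 1, [(0, [0], [0, 5]), (0, [1], [1, 3]), (1, [], [4, 5]), (4, [], [2])]),
  (-96, 0, 1, [(0, [0], [0, 5]), (0, [1], [1, 4]), (1, [], [3, 5]), (4, [], [2])]),
  (48, 0, 1, [(0, [0], [0, 5]), (0, [1], [1, 2]), (1, [], [4, 5]), (4, [], [3])]),
  (-24, 0, 1, [(0, [0], [0, 5]), (0, [1], [1, 4]), (1, [], [2, 5]), (4, [], [3])]),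
  (-48, 0, 1, [(0, [0], [0, 5]), (0, [1], [1, 2]), (1, [], [3, 5]), (4, [], [4])]),
  (24, 0, 1, [(0, [0], [0, 5]), (0, [1], [1, 3]), (1, [], [2, 5]), (4, [], [4])]),
  (96, 0, 1, [(0, [0], [0, 5]), (0, [1], [2, 3]), (1, [], [4, 5]), (4, [], [1])]),
  (-96, 0, 1, [(0, [0], [0, 5]), (0, [1], [2, 4]), (1, [], [3, 5]), (4, [], [1])]),
  (-24, 0, 1, [(0, [0], [0, 5]), (0, [1], [2, 4]), (1, [], [1, 5]), (4, [], [3])]),
  (24, 0, 1, [(0, [0], [0, 5]), (0, [1], [2, 3]), (1, [], [1, 5]), (4, [], [4])]),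
  (24, 0, 1, [(0, [0], [1, 5]), (0, [1], [2, 3]), (1, [], [4, 5]), (4, [], [0])]),
  (-24, 0, 1, [(0, [0], [1, 5]), (0, [1], [2, 4]), (1, [], [3, 5]), (4, [], [0])]),
  (-24, 0, 1, [(0, [0], [1, 5]), (0, [1], [2, 0]), (1, [], [4, 5]), (4, [], [3])]),
  (24, 0, 1, [(0, [0], [1, 5]), (0, [1], [2, 4]), (1, [], [0, 5]), (4, [], [3])]),
  (24, 0, 1, [(0, [0], [1, 5]), (0, [1], [2, 0]), (1, [], [3, 5]), (4, [], [4])]),
  (-24, 0, 1, [(0, [0], [1, 5]), (0, [1], [2, 3]), (1, [], [0, 5]), (4, [], [4])]),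
  (24, 0, 1, [(0, [0], [2, 5]), (0, [1], [1, 3]), (1, [], [4, 5]), (4, [], [0])]),
  (-24, 0, 1, [(0, [0], [2, 5]), (0, [1], [1, 4]), (1, [], [3, 5]), (4, [], [0])]),
  (-24, 0, 1, [(0, [0], [2, 5]), (0, [1], [1, 0]), (1, [], [4, 5]), (4, [], [3])]),
  (24, 0, 1, [(0, [0], [2, 5]), (0, [1], [1, 4]), (1, [], [0, 5]), (4, [], [3])]),
  (24, 0, 1, [(0, [0], [2, 5]), (0, [1], [1, 0]), (1, [], [3, 5]), (4, [], [4])]),
  (-24, 0, 1, [(0, [0], [2, 5]), (0, [1], [1, 3]), (1, [], [0, 5]), (4, [], [4])]),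
  (-96, 0, 1, [(0, [0], [3, 5]), (0, [1], [0, 2]), (1, [], [4, 5]), (4, [], [1])]),
  (-96, 0, 1, [(0, [0], [3, 5]), (0, [1], [0, 1]), (1, [], [4, 5]), (4, [], [2])]),
  (-48, 0, 1, [(0, [0], [3, 5]), (0, [1], [1, 2]), (1, [], [4, 5]), (4, [], [0])]),
  (24, 0, 1, [(0, [0], [3, 5]), (0, [1], [1, 4]), (1, [], [2, 5]), (4, [], [0])]),
  (96, 0, 1, [(0, [0], [3, 5]), (0, [1], [1, 4]), (1, [], [0, 5]), (4, [], [2])]),
  (-24, 0, 1, [(0, [0], [3, 5]), (0, [1], [1, 0]), (1, [], [2, 5]), (4, [], [4])]),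
  (48, 0, 1, [(0, [0], [3, 5]), (0, [1], [1, 2]), (1, [], [0, 5]), (4, [], [4])]),
  (24, 0, 1, [(0, [0], [3, 5]), (0, [1], [2, 4]), (1, [], [1, 5]), (4, [], [0])]),
  (96, 0, 1, [(0, [0], [3, 5]), (0, [1], [2, 4]), (1, [], [0, 5]), (4, [], [1])]),
  (-24, 0, 1, [(0, [0], [3, 5]), (0, [1], [2, 0]), (1, [], [1, 5]), (4, [], [4])]),
  (96, 0, 1, [(0, [0], [4, 5]), (0, [1], [0, 2]), (1, [], [3, 5]), (4, [], [1])]),
  (96, 0, 1, [(0, [0], [4, 5]), (0, [1], [0, 1]), (1, [], [3, 5]), (4, [], [2])]),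
  (48, 0, 1, [(0, [0], [4, 5]), (0, [1], [1, 2]), (1, [], [3, 5]), (4, [], [0])]),
  (-24, 0, 1, [(0, [0], [4, 5]), (0, [1], [1, 3]), (1, [], [2, 5]), (4, [], [0])]),
  (-96, 0, 1, [(0, [0], [4, 5]), (0, [1], [1, 3]), (1, [], [0, 5]), (4, [], [2])]),
  (24, 0, 1, [(0, [0], [4, 5]), (0, [1], [1, 0]), (1, [], [2, 5]), (4, [], [3])]),
  (-48, 0, 1, [(0, [0], [4, 5]), (0, [1], [1, 2]), (1, [], [0, 5]), (4, [], [3])]),
  (-24, 0, 1, [(0, [0], [4, 5]), (0, [1], [2, 3]), (1, [], [1, 5]), (4, [], [0])]),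
  (-96, 0, 1, [(0, [0], [4, 5]), (0, [1], [2, 3]), (1, [], [0, 5]), (4, [], [1])]),
  (24, 0, 1, [(0, [0], [4, 5]), (0, [1], [2, 0]), (1, [], [1, 5]), (4, [], [3])]),
  (96, 0, 1, [(0, [1], [0, 5]), (0, [0], [1, 3]), (1, [], [4, 5]), (4, [], [2])]),
  (-96, 0, 1, [(0, [1], [0, 5]), (0, [0], [1, 4]), (1, [], [3, 5]), (4, [], [2])]),
  (48, 0, 1, [(0, [1], [0, 5]), (0, [0], [1, 2]), (1, [], [4, 5]), (4, [], [3])]),
  (-24, 0, 1, [(0, [1], [0, 5]), (0, [0], [1, 4]), (1, [], [2, 5]), (4, [], [3])]),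
  (-48, 0, 1, [(0, [1], [0, 5]), (0, [0], [1, 2]), (1, [], [3, 5]), (4, [], [4])]),
  (24, 0, 1, [(0, [1], [0, 5]), (0, [0], [1, 3]), (1, [], [2, 5]), (4, [], [4])]),
  (96, 0, 1, [(0, [1], [0, 5]), (0, [0], [2, 3]), (1, [], [4, 5]), (4, [], [1])]),
  (-96, 0, 1, [(0, [1], [0, 5]), (0, [0], [2, 4]), (1, [], [3, 5]), (4, [], [1])]),
  (-24, 0, 1, [(0, [1], [0, 5]), (0, [0], [2, 4]), (1, [], [1, 5]), (4, [], [3])]),
  (24, 0, 1, [(0, [1], [0, 5]), (0, [0], [2, 3]), (1, [], [1, 5]), (4, [], [4])]),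
  (24, 0, 1, [(0, [1], [1, 5]), (0, [0], [2, 3]), (1, [], [4, 5]), (4, [], [0])]),
  (-24, 0, 1, [(0, [1], [1, 5]), (0, [0], [2, 4]), (1, [], [3, 5]), (4, [], [0])]),
  (-24, 0, 1, [(0, [1], [1, 5]), (0, [0], [2, 0]), (1, [], [4, 5]), (4, [], [3])]),
  (24, 0, 1, [(0, [1], [1, 5]), (0, [0], [2, 4]), (1, [], [0, 5]), (4, [], [3])]),
  (24, 0, 1, [(0, [1], [1, 5]), (0, [0], [2, 0]), (1, [], [3, 5]), (4, [], [4])]),
  (-24, 0, 1, [(0, [1], [1, 5]), (0, [0], [2, 3]), (1, [], [0, 5]), (4, [], [4])]),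
  (24, 0, 1, [(0, [1], [2, 5]), (0, [0], [1, 3]), (1, [], [4, 5]), (4, [], [0])]),
  (-24, 0, 1, [(0, [1], [2, 5]), (0, [0], [1, 4]), (1, [], [3, 5]), (4, [], [0])]),
  (-24, 0, 1, [(0, [1], [2, 5]), (0, [0], [1, 0]), (1, [], [4, 5]), (4, [], [3])]),
  (24, 0, 1, [(0, [1], [2, 5]), (0, [0], [1, 4]), (1, [], [0, 5]), (4, [], [3])]),
  (24, 0, 1, [(0, [1], [2, 5]), (0, [0], [1, 0]), (1, [], [3, 5]), (4, [], [4])]),
  (-24, 0, 1, [(0, [1], [2, 5]), (0, [0], [1, 3]), (1, [], [0, 5]), (4, [], [4])]),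
  (-96, 0, 1, [(0, [1], [3, 5]), (0, [0], [0, 2]), (1, [], [4, 5]), (4, [], [1])]),
  (-96, 0, 1, [(0, [1], [3, 5]), (0, [0], [0, 1]), (1, [], [4, 5]), (4, [], [2])]),
  (-48, 0, 1, [(0, [1], [3, 5]), (0, [0], [1, 2]), (1, [], [4, 5]), (4, [], [0])]),
  (24, 0, 1, [(0, [1], [3, 5]), (0, [0], [1, 4]), (1, [], [2, 5]), (4, [], [0])]),
  (96, 0, 1, [(0, [1], [3, 5]), (0, [0], [1, 4]), (1, [], [0, 5]), (4, [], [2])]),
  (-24, 0, 1, [(0, [1], [3, 5]), (0, [0], [1, 0]), (1, [], [2, 5]), (4, [], [4])]),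
  (48, 0, 1, [(0, [1], [3, 5]), (0, [0], [1, 2]), (1, [], [0, 5]), (4, [], [4])]),
  (24, 0, 1, [(0, [1], [3, 5]), (0, [0], [2, 4]), (1, [], [1, 5]), (4, [], [0])]),
  (96, 0, 1, [(0, [1], [3, 5]), (0, [0], [2, 4]), (1, [], [0, 5]), (4, [], [1])]),
  (-24, 0, 1, [(0, [1], [3, 5]), (0, [0], [2, 0]), (1, [], [1, 5]), (4, [], [4])]),
  (96, 0, 1, [(0, [1], [4, 5]), (0, [0], [0, 2]), (1, [], [3, 5]), (4, [], [1])]),
  (96, 0, 1, [(0, [1], [4, 5]), (0, [0], [0, 1]), (1, [], [3, 5]), (4, [], [2])]),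
  (48, 0, 1, [(0, [1], [4, 5]), (0, [0], [1, 2]), (1, [], [3, 5]), (4, [], [0])]),
  (-24, 0, 1, [(0, [1], [4, 5]), (0, [0], [1, 3]), (1, [], [2, 5]), (4, [], [0])]),
  (-96, 0, 1, [(0, [1], [4, 5]), (0, [0], [1, 3]), (1, [], [0, 5]), (4, [], [2])]),
  (24, 0, 1, [(0, [1], [4, 5]), (0, [0], [1, 0]), (1, [], [2, 5]), (4, [], [3])]),
  (-48, 0, 1, [(0, [1], [4, 5]), (0, [0], [1, 2]), (1, [], [0, 5]), (4, [], [3])]),
  (-24, 0, 1, [(0, [1], [4, 5]), (0, [0], [2, 3]), (1, [], [1, 5]), (4, [], [0])]),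
  (-96, 0, 1, [(0, [1], [4, 5]), (0, [0], [2, 3]), (1, [], [0, 5]), (4, [], [1])]),
  (24, 0, 1, [(0, [1], [4, 5]), (0, [0], [2, 0]), (1, [], [1, 5]), (4, [], [3])])]

def z61_4 : Cov := [(0, 0, 1, [(0, [0], [0, 5]), (0, [1], [3, 4]), (1, [], [2, 5]), (4, [], [1])]),
  (0, 0, 1, [(0, [0], [0, 5]), (0, [1], [3, 4]), (1, [], [1, 5]), (4, [], [2])]),
  (0, 0, 1, [(0, [0], [1, 5]), (0, [1], [0, 3]), (1, [], [4, 5]), (4, [], [2])]),
  (0, 0, 1, [(0, [0], [1, 5]), (0, [1], [0, 4]), (1, [], [3, 5]), (4, [], [2])]),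
  (0, 0, 1, [(0, [0], [1, 5]), (0, [1], [3, 4]), (1, [], [0, 5]), (4, [], [2])]),
  (0, 0, 1, [(0, [0], [2, 5]), (0, [1], [0, 3]), (1, [], [4, 5]), (4, [], [1])]),
  (0, 0, 1, [(0, [0], [2, 5]), (0, [1], [0, 4]), (1, [], [3, 5]), (4, [], [1])]),
  (0, 0, 1, [(0, [0], [2, 5]), (0, [1], [3, 4]), (1, [], [0, 5]), (4, [], [1])]),
  (0, 0, 1, [(0, [0], [3, 5]), (0, [1], [0, 4]), (1, [], [2, 5]), (4, [], [1])]),
  (0, 0, 1, [(0, [0], [3, 5]), (0, [1], [0, 4]), (1, [], [1, 5]), (4, [], [2])]),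
  (0, 0, 1, [(0, [0], [4, 5]), (0, [1], [0, 3]), (1, [], [2, 5]), (4, [], [1])]),
  (0, 0, 1, [(0, [0], [4, 5]), (0, [1], [0, 3]), (1, [], [1, 5]), (4, [], [2])]),
  (0, 0, 1, [(0, [1], [0, 5]), (0, [0], [3, 4]), (1, [], [2, 5]), (4, [], [1])]),
  (0, 0, 1, [(0, [1], [0, 5]), (0, [0], [3, 4]), (1, [], [1, 5]), (4, [], [2])]),
  (0, 0, 1, [(0, [1], [1, 5]), (0, [0], [0, 3]), (1, [], [4, 5]), (4, [], [2])]),
  (0, 0, 1, [(0, [1], [1, 5]), (0, [0], [0, 4]), (1, [], [3, 5]), (4, [], [2])]),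
  (0, 0, 1, [(0, [1], [1, 5]), (0, [0], [3, 4]), (1, [], [0, 5]), (4, [], [2])]),
  (0, 0, 1, [(0, [1], [2, 5]), (0, [0], [0, 3]), (1, [], [4, 5]), (4, [], [1])]),
  (0, 0, 1, [(0, [1], [2, 5]), (0, [0], [0, 4]), (1, [], [3, 5]), (4, [], [1])]),
  (0, 0, 1, [(0, [1], [2, 5]), (0, [0], [3, 4]), (1, [], [0, 5]), (4, [], [1])]),
  (0, 0, 1, [(0, [1], [3, 5]), (0, [0], [0, 4]), (1, [], [2, 5]), (4, [], [1])]),
  (0, 0, 1, [(0, [1], [3, 5]), (0, [0], [0, 4]), (1, [], [1, 5]), (4, [], [2])]),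
  (0, 0, 1, [(0, [1], [4, 5]), (0, [0], [0, 3]), (1, [], [2, 5]), (4, [], [1])]),
  (0, 0, 1, [(0, [1], [4, 5]), (0, [0], [0, 3]), (1, [], [1, 5]), (4, [], [2])])]

def w61_4 : List (List Wit) := [[(0, 0, 0, 0, 0), (1, 0, 0, 0, 0), (2, 0, 0, 0, 0), (3, 0, 0, 0, 0), (4, 0, 0, 0, 0), (5, 0, 0, 0, 0), (6, 0, 0, 0, 0), (7, 0, 0, 0, 0), (2, 0, 0, 0, 0), (8, 0, 0, 0, 0), (4, 0, 0, 0, 0), (9, 0, 0, 0, 0), (6, 0, 0, 0, 0), (84, 0, 0, 0, 0), (0, 0, 0, 0, 0), (85, 0, 0, 0, 0), (7, 0, 0, 0, 0), (84, 0, 0, 0, 0), (1, 0, 0, 0, 0), (85, 0, 0, 0, 0), (86, 0, 0, 0, 0), (87, 0, 0, 0, 0), (10, 0, 0, 0, 0), (11, 0, 0, 0, 0), (12, 0, 0, 0, 0), (13, 0, 0, 0, 0), (14, 0, 0, 0, 0), (15, 0, 0, 0, 0), (86, 0, 0, 0, 0), (88, 0, 0, 0, 0), (87, 0, 0, 0, 0), (88, 0, 0, 0, 0), (89, 0, 0, 0, 0), (90, 0, 0, 0, 0), (16, 0, 0, 0, 0), (17, 0, 0, 0, 0), (18, 0, 0, 0, 0), (19, 0, 0, 0, 0), (20, 0, 0, 0,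 0), (21, 0, 0, 0, 0), (89, 0, 0, 0, 0), (91, 0, 0, 0, 0), (90, 0, 0, 0, 0), (91, 0, 0, 0, 0), (22, 0, 0, 0, 0), (92, 0, 0, 0, 0), (23, 0, 0, 0, 0), (93, 0, 0, 0, 0), (24, 0, 0, 0, 0), (25, 0, 0, 0, 0), (23, 0, 0, 0, 0), (26, 0, 0, 0, 0), (27, 0, 0, 0, 0), (28, 0, 0, 0, 0), (24, 0, 0, 0, 0), (29, 0, 0, 0, 0), (22, 0, 0, 0, 0), (30, 0, 0, 0, 0), (31, 0, 0, 0, 0), (28, 0, 0, 0, 0), (92, 0, 0, 0, 0), (30, 0, 0, 0, 0), (93, 0, 0, 0, 0), (26, 0, 0, 0, 0), (32, 0, 0, 0, 0), (94, 0, 0, 0, 0), (33, 0, 0, 0, 0), (95, 0, 0, 0, 0), (34, 0, 0, 0, 0), (35, 0, 0, 0, 0), (33, 0, 0, 0, 0), (36, 0, 0, 0, 0), (37, 0, 0, 0, 0), (38, 0, 0, 0, 0), (34, 0, 0, 0, 0), (39, 0, 0, 0, 0), (32, 0, 0, 0, 0), (40, 0, 0, 0, 0), (41, 0, 0, 0, 0), (38, 0, 0, 0, 0), (94, 0, 0, 0, 0), (40, 0, 0, 0, 0), (95, 0, 0, 0, 0), (36, 0, 0, 0, 0)],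
  [(42, 0, 0, 0, 0), (43, 0, 0, 0, 0), (44, 0, 0, 0, 0), (45, 0, 0, 0, 0), (46, 0, 0, 0, 0), (47, 0, 0, 0, 0), (48, 0, 0, 0, 0), (49, 0, 0, 0, 0), (44, 0, 0, 0, 0), (50, 0, 0, 0, 0), (46, 0, 0, 0, 0), (51, 0, 0, 0, 0), (48, 0, 0, 0, 0), (96, 0, 0, 0, 0), (42, 0, 0, 0, 0), (97, 0, 0, 0, 0), (49, 0, 0, 0, 0), (96, 0, 0, 0, 0), (43, 0, 0, 0, 0), (97, 0, 0, 0, 0), (98, 0, 0, 0, 0), (99, 0, 0, 0, 0), (52, 0, 0, 0, 0), (53, 0, 0, 0, 0), (54, 0, 0, 0, 0), (55, 0, 0, 0, 0), (56, 0, 0, 0, 0), (57, 0, 0, 0, 0), (98, 0, 0, 0, 0), (100, 0, 0, 0, 0), (99, 0, 0, 0, 0), (100, 0, 0, 0, 0), (101, 0, 0, 0, 0), (102, 0, 0, 0, 0), (58, 0, 0, 0, 0), (59, 0, 0, 0, 0), (60, 0, 0, 0, 0), (61, 0, 0, 0, 0), (62, 0, 0, 0, 0), (63, 0, 0, 0, 0), (101, 0, 0, 0, 0), (103, 0, 0, 0, 0), (102, 0, 0, 0, 0), (103, 0, 0, 0, 0), (64, 0, 0, 0, 0), (104, 0, 0, 0, 0), (65, 0, 0, 0, 0), (105, 0, 0, 0, 0), (66,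 0, 0, 0, 0), (67, 0, 0, 0, 0), (65, 0, 0, 0, 0), (68, 0, 0, 0, 0), (69, 0, 0, 0, 0), (70, 0, 0, 0, 0), (66, 0, 0, 0, 0), (71, 0, 0, 0, 0), (64, 0, 0, 0, 0), (72, 0, 0, 0, 0), (73, 0, 0, 0, 0), (70, 0, 0, 0, 0), (104, 0, 0, 0, 0), (72, 0, 0, 0, 0), (105, 0, 0, 0, 0), (68, 0, 0, 0, 0), (74, 0, 0, 0, 0), (106, 0, 0, 0, 0), (75, 0, 0, 0, 0), (107, 0, 0, 0, 0), (76, 0, 0, 0, 0), (77, 0, 0, 0, 0), (75, 0, 0, 0, 0), (78, 0, 0, 0, 0), (79, 0, 0, 0, 0), (80, 0, 0, 0, 0), (76, 0, 0, 0, 0), (81, 0, 0, 0, 0), (74, 0, 0, 0, 0), (82, 0, 0, 0, 0), (83, 0, 0, 0, 0), (80, 0, 0, 0, 0), (106, 0, 0, 0, 0), (82, 0, 0, 0, 0), (107, 0, 0, 0, 0), (78, 0, 0, 0, 0)]]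

theorem tr61 : trK keys lk61 kl61 = true := by
  decide +kernel

theorem x61_0 : expB 2 5 dg11 dg7 m61_0 (l61_0 ++ z61_0) w61_0 = true := by
  decide +kernel

theorem x61_1 : expB 2 5 dg11 dg7 m61_1 (l61_1 ++ z61_1) w61_1 = true := by
  decide +kernel

theorem x61_2 : expB 2 5 dg11 dg7 m61_2 (l61_2 ++ z61_2) w61_2 = true := by
  decide +kernel

theorem x61_3 : expB 2 5 dg11 dg7 m61_3 (l61_3 ++ z61_3) w61_3 = true := by
  decide +kernel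

theorem x61_4 : expB 2 5 dg11 dg7 m61_4 (l61_4 ++ z61_4) w61_4 = true := by
  decide +kernel

theorem t61_0_0 : chkS lk61 2 5 [(1, m61_0)] l61_0
  [(47, 16, 16, 34891056, 52696656), (48, 16, 16, 34891056, 52696656), (42, 16, 16, 34891056, 52696656), (44, 16, 16, 34891056, 52696656), (75, 16, 16, 34891056, 52696656), (76, 16, 16, 34891056, 52696656), (72, 1, 1, 50603541, 33841941), (24, 16, 16, 33965361, 69408261), (24, 1, 1, 2188596, 52434246), (8, 1, 1, 34825476, 52446801), (72, 16, 16, 50618961, 51667461), (73, 16, 16, 50741841, 68379141), (88, 16, 16, 34956096, 54601296), (67, 16, 16, 33968961, 70329861), (67, 1, 1, 2188341, 50468166), (65, 16, 16, 33907521, 54601221), (42, 1, 1, 34887171, 36963921), (33, 1, 1, 35013891, 69404241), (88, 16, 16, 34944576, 37828176), (67, 16, 16, 33961281, 69285381), (33, 1, 1, 19096836, 52446561), (32, 1, 1, 34891011, 52692561),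 (67, 16, 16, 2188371, 51512646), (64, 16, 16, 33776961, 52512261)]
  [(8, -120), (24, 240), (32, -120), (33, 240), (44, -120), (47, 120), (48, -120), (64, -120), (65, -120), (67, 480), (73, -120), (75, 120), (76, -120), (88, -240)] = true := by
  decide +kernel

theorem t61_0_1 : chkS lk61 2 5 [(1, m61_0)] l61_1
  [(43, 16, 16, 34891056, 52696656), (45, 16, 16, 34891056, 52696656), (43, 16, 16, 34887216, 36968016), (45, 16, 16, 34887216, 36968016), (16, 1, 1, 69297411, 52823361), (16, 1, 1, 69293571, 37094721), (37, 16, 16, 34891056, 52696656), (31, 16, 16, 35017776, 70391376), (41, 16, 16, 35013936, 69408336), (29, 16, 16, 34956336, 54662736), (72, 16, 16, 34891056, 52696656), (73, 16, 16, 34891056, 52696656), (68, 16, 16, 34891056, 52696656), (7, 1, 1, 35017731, 70387281), (71, 16, 16, 35013936, 69408336), (22, 16, 16, 33907761, 54662661), (9, 1, 1, 85156866, 56770641),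 (11, 1, 1, 85156866, 56770641), (38, 1, 1, 101983491, 103023441), (30, 1, 1, 68560131, 69600081), (15, 1, 1, 86074371, 56755521), (13, 1, 1, 86074371, 56755521), (9, 1, 1, 85149186, 40058961), (11, 1, 1, 85149186, 40058961), (69, 1, 1, 85221891, 56885841), (23, 1, 1, 67523091, 70648341), (38, 1, 1, 101995011, 104071761), (30, 1, 1, 68571651, 70648401), (15, 1, 1, 86066691, 40043841), (13, 1, 1, 86066691, 40043841), (61, 1, 1, 100880916, 103825941), (62, 16, 16, 50734401, 69296901), (10, 1, 1, 68498946, 38154321), (10, 1, 1, 68510466, 54927441), (70, 1, 1, 85344771, 73597521), (22, 1, 1, 67461651, 54919701), (40, 1, 1, 85344771, 73597521), (29, 1, 1, 68510211, 54919761), (40, 1, 1, 85337091, 73532241), (29, 1, 1, 68494851, 38142801), (4, 16, 16, 50619681, 52715781), (59, 16, 16, 33776961, 52512261), (72, 16, 16, 85221936, 56889936), (73, 16, 16, 85344816, 73601616),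 (72, 16, 16, 85206576, 40112976), (73, 16, 16, 85337136, 73536336), (24, 16, 16, 70345986, 52842561), (24, 16, 16, 70342146, 37113921), (68, 1, 1, 34891011, 52692561), (7, 16, 16, 35017776, 70391376), (71, 1, 1, 35013891, 69404241), (22, 1, 1, 33907731, 54658581), (43, 16, 16, 85221936, 56889936), (45, 16, 16, 85344816, 73601616), (37, 1, 1, 34891011, 52692561), (31, 1, 1, 35017731, 70387281), (41, 1, 1, 35013891, 69404241), (29, 1, 1, 34956291, 54658641), (9, 16, 16, 85156896, 56770896), (11, 16, 16, 85156896, 56770896), (69, 16, 16, 85206576, 40112976), (23, 16, 16, 67511601, 69604101), (23, 16, 16, 87122946, 56774721), (21, 16, 16, 84042801, 56759301), (9, 16, 16, 85149216, 40059216), (11, 16, 16, 85149216, 40059216), (38, 16, 16, 101995056, 104075856), (30, 16, 16, 68571696, 70652496), (69, 16, 16, 85221936, 56889936), (23, 16, 16, 67523121, 70652421), (23, 16,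 16, 87115266, 40063041), (21, 16, 16, 84035121, 40047621), (62, 1, 1, 50734356, 69231381), (61, 16, 16, 100880961, 103891461), (10, 16, 16, 68498976, 38154576), (10, 16, 16, 68510496, 54927696), (40, 16, 16, 85344816, 73601616), (29, 16, 16, 68510256, 54923856), (70, 16, 16, 85344816, 73601616), (22, 16, 16, 67461681, 54923781), (70, 16, 16, 85337136, 73536336), (22, 16, 16, 67446321, 38146821), (59, 1, 1, 33776916, 52446741), (4, 1, 1, 50619666, 52715541)]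
  [(22, -240), (23, 240), (29, -240), (30, 240), (38, -240), (40, 240), (43, 240), (45, -240), (69, -240), (70, 240), (72, 240), (73, -240)] = true := by
  decide +kernel

theorem t61_0_2 : chkS lk61 2 5 [(1, m61_0)] l61_2
  [(43, 16, 16, 34887216, 36968016), (16, 1, 1, 69297411, 52823361), (43, 16, 16, 34891056, 52696656), (16, 1, 1, 69293571, 37094721), (45, 16, 16, 34891056, 52696656), (45, 16, 16, 34887216, 36968016), (37, 16, 16, 34891056, 52696656), (41, 16, 16, 35013936, 69408336), (29, 16, 16, 34956336, 54662736), (31, 16, 16, 35017776, 70391376), (68, 16, 16, 34891056, 52696656), (71, 16, 16, 35013936, 69408336), (72, 16, 16, 34891056, 52696656), (22, 16, 16, 33907761, 54662661), (73, 16, 16, 34891056, 52696656), (7, 1, 1, 35017731, 70387281), (38, 1, 1, 101983491, 103023441), (15, 1, 1, 86074371, 56755521), (9, 1, 1, 85156866, 56770641), (13, 1, 1, 86074371,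 56755521), (11, 1, 1, 85156866, 56770641), (30, 1, 1, 68560131, 69600081), (69, 1, 1, 85221891, 56885841), (9, 1, 1, 85149186, 40058961), (38, 1, 1, 101995011, 104071761), (15, 1, 1, 86066691, 40043841), (13, 1, 1, 86066691, 40043841), (11, 1, 1, 85149186, 40058961), (30, 1, 1, 68571651, 70648401), (61, 1, 1, 100880916, 103825941), (62, 16, 16, 50734401, 69296901), (23, 1, 1, 67523091, 70648341), (70, 1, 1, 85344771, 73597521), (10, 1, 1, 68498946, 38154321), (40, 1, 1, 85344771, 73597521), (40, 1, 1, 85337091, 73532241), (29, 1, 1, 68494851, 38142801), (10, 1, 1, 68510466, 54927441), (29, 1, 1, 68510211, 54919761), (4, 16, 16, 50619681, 52715781), (59, 16, 16, 33776961, 52512261), (22, 1, 1, 67461651, 54919701), (72, 16, 16, 85206576, 40112976), (24, 16, 16, 70345986, 52842561), (72, 16, 16, 85221936, 56889936), (24, 16, 16, 70342146, 37113921), (73, 16, 16, 85344816,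 73601616), (73, 16, 16, 85337136, 73536336), (68, 1, 1, 34891011, 52692561), (71, 1, 1, 35013891, 69404241), (22, 1, 1, 33907731, 54658581), (7, 16, 16, 35017776, 70391376), (37, 1, 1, 34891011, 52692561), (41, 1, 1, 35013891, 69404241), (43, 16, 16, 85221936, 56889936), (29, 1, 1, 34956291, 54658641), (45, 16, 16, 85344816, 73601616), (31, 1, 1, 35017731, 70387281), (69, 16, 16, 85206576, 40112976), (23, 16, 16, 87122946, 56774721), (9, 16, 16, 85156896, 56770896), (21, 16, 16, 84042801, 56759301), (11, 16, 16, 85156896, 56770896), (23, 16, 16, 67511601, 69604101), (38, 16, 16, 101995056, 104075856), (9, 16, 16, 85149216, 40059216), (69, 16, 16, 85221936, 56889936), (23, 16, 16, 87115266, 40063041), (21, 16, 16, 84035121, 40047621), (11, 16, 16, 85149216, 40059216), (23, 16, 16, 67523121, 70652421), (62, 1, 1, 50734356, 69231381), (61, 16, 16, 100880961, 103891461),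 (30, 16, 16, 68571696, 70652496), (40, 16, 16, 85344816, 73601616), (10, 16, 16, 68498976, 38154576), (70, 16, 16, 85344816, 73601616), (70, 16, 16, 85337136, 73536336), (22, 16, 16, 67446321, 38146821), (10, 16, 16, 68510496, 54927696), (22, 16, 16, 67461681, 54923781), (59, 1, 1, 33776916, 52446741), (4, 1, 1, 50619666, 52715541), (29, 16, 16, 68510256, 54923856)]
  [(4, -120), (9, -240), (10, 240), (13, 120), (16, -120), (21, 120), (22, -120), (24, -120), (29, -120), (37, 120), (38, -120), (40, 120), (41, -120), (43, 120), (59, -120), (61, 120), (62, 120), (68, 120), (69, -120), (70, 120), (71, -120), (72, 120), (73, 0)] = true := by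
  decide +kernel

theorem t61_0_3 : chkS lk61 2 5 [(1, m61_0)] l61_3
  [(16, 16, 16, 19285296, 69408096), (6, 16, 16, 67331361, 52838661), (5, 1, 1, 84292116, 73413141), (14, 16, 16, 19227696, 54662496), (70, 1, 1, 104091681, 104091906), (10, 1, 1, 85149186, 40058961), (14, 1, 1, 86066691, 40043841), (79, 16, 16, 20317506, 69292131), (74, 1, 1, 85221891, 56885841), (12, 1, 1, 68379906, 52838481), (46, 1, 1, 85206531, 40108881), (77, 16, 16, 19948866, 52514916), (24, 1, 1, 20333856, 69423456), (8, 16, 16, 67331361, 52838661), (7, 16, 16, 50746401, 70410501), (22, 1, 1, 20276256, 54677856), (39, 16, 16, 101995056, 104075856), (10, 16, 16, 85149216, 40059216), (22, 16, 16, 87115266, 40063041), (79, 1, 1, 20317476, 69226851), (46, 16, 16, 85221936, 56889936), (12, 16, 16, 68379936, 52838736), (74, 16, 16, 85206576, 40112976), (77, 1, 1, 19948836, 52449636)]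
  [(5, 120), (6, -120), (7, 120), (8, -120), (10, -240), (12, 240), (16, 120), (24, 120), (39, -120), (70, -120), (77, -240), (79, 240)] = true := by
  decide +kernel

theorem t61_0_4 : chkS lk61 2 5 [(1, m61_0)] l61_4
  [(45, 16, 16, 34887216, 36968016), (16, 1, 1, 69293571, 37094721), (45, 16, 16, 34891056, 52696656), (16, 1, 1, 69297411, 52823361), (43, 16, 16, 34891056, 52696656), (43, 16, 16, 34887216, 36968016), (31, 16, 16, 35017776, 70391376), (29, 16, 16, 34956336, 54662736), (41, 16, 16, 35013936, 69408336), (37, 16, 16, 34891056, 52696656), (7, 1, 1, 35017731, 70387281), (22, 16, 16, 33907761, 54662661), (73, 16, 16, 34891056, 52696656), (71, 16, 16, 35013936, 69408336), (72, 16, 16, 34891056, 52696656), (68, 16, 16, 34891056, 52696656), (30, 1, 1, 68560131, 69600081), (13, 1, 1, 86074371, 56755521), (11, 1, 1, 85156866, 56770641), (15, 1, 1, 86074371, 56755521),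 (9, 1, 1, 85156866, 56770641), (38, 1, 1, 101983491, 103023441), (23, 1, 1, 67523091, 70648341), (11, 1, 1, 85149186, 40058961), (30, 1, 1, 68571651, 70648401), (13, 1, 1, 86066691, 40043841), (15, 1, 1, 86066691, 40043841), (9, 1, 1, 85149186, 40058961), (38, 1, 1, 101995011, 104071761), (62, 16, 16, 50734401, 69296901), (61, 1, 1, 100880916, 103825941), (69, 1, 1, 85221891, 56885841), (22, 1, 1, 67461651, 54919701), (10, 1, 1, 68510466, 54927441), (29, 1, 1, 68510211, 54919761), (29, 1, 1, 68494851, 38142801), (40, 1, 1, 85337091, 73532241), (10, 1, 1, 68498946, 38154321), (40, 1, 1, 85344771, 73597521), (59, 16, 16, 33776961, 52512261), (4, 16, 16, 50619681, 52715781), (70, 1, 1, 85344771, 73597521), (73, 16, 16, 85337136, 73536336), (24, 16, 16, 70342146, 37113921), (73, 16, 16, 85344816, 73601616), (24, 16, 16, 70345986, 52842561), (72, 16, 16, 85221936, 56889936),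 (72, 16, 16, 85206576, 40112976), (7, 16, 16, 35017776, 70391376), (22, 1, 1, 33907731, 54658581), (71, 1, 1, 35013891, 69404241), (68, 1, 1, 34891011, 52692561), (31, 1, 1, 35017731, 70387281), (29, 1, 1, 34956291, 54658641), (45, 16, 16, 85344816, 73601616), (41, 1, 1, 35013891, 69404241), (43, 16, 16, 85221936, 56889936), (37, 1, 1, 34891011, 52692561), (23, 16, 16, 67511601, 69604101), (21, 16, 16, 84042801, 56759301), (11, 16, 16, 85156896, 56770896), (23, 16, 16, 87122946, 56774721), (9, 16, 16, 85156896, 56770896), (69, 16, 16, 85206576, 40112976), (30, 16, 16, 68571696, 70652496), (11, 16, 16, 85149216, 40059216), (23, 16, 16, 67523121, 70652421), (21, 16, 16, 84035121, 40047621), (23, 16, 16, 87115266, 40063041), (9, 16, 16, 85149216, 40059216), (69, 16, 16, 85221936, 56889936), (61, 16, 16, 100880961, 103891461), (62, 1, 1, 50734356, 69231381), (38, 16, 16,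 101995056, 104075856), (29, 16, 16, 68510256, 54923856), (10, 16, 16, 68510496, 54927696), (22, 16, 16, 67461681, 54923781), (22, 16, 16, 67446321, 38146821), (70, 16, 16, 85337136, 73536336), (10, 16, 16, 68498976, 38154576), (70, 16, 16, 85344816, 73601616), (4, 1, 1, 50619666, 52715541), (59, 1, 1, 33776916, 52446741), (40, 16, 16, 85344816, 73601616)]
  [(4, -120), (7, 120), (10, 240), (11, -240), (15, 120), (16, -120), (24, -120), (30, -120), (31, 120), (40, -120), (45, 120), (59, -120), (61, 120), (62, 120), (70, -120), (73, 120)] = true := by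
  decide +kernel

theorem t61_1_1 : chkS lk61 2 5 [(1, m61_1)] l61_1
  [(35, 1, 1, 87318786, 56905761), (36, 1, 1, 87441666, 73617441), (86, 16, 16, 33907761, 54662661), (54, 1, 1, 88482051, 73728801), (54, 1, 1, 72442371, 55968321), (53, 1, 1, 88236291, 56951841), (86, 16, 16, 33907521, 54601221), (54, 1, 1, 88481811, 73728786), (54, 1, 1, 72441891, 55968066), (53, 1, 1, 88236051, 56951826), (42, 1, 1, 55861266, 55861266), (44, 1, 1, 55861266, 55861266), (38, 1, 1, 55844886, 5530386), (39, 1, 1, 55844886, 5530386), (15, 1, 1, 54616101, 50684226), (14, 1, 1, 54616101, 50684226), (42, 1, 1, 55861506, 55861281), (44, 1, 1, 55861506, 55861281), (38, 1, 1, 55845126, 5530401), (39, 1, 1, 55845126, 5530401), (15, 1, 1, 54616581, 50684481), (14, 1, 1, 54616581, 50684481), (38, 1, 1, 87319041, 56906241), (15, 1, 1, 70668546, 70668321), (38, 1, 1, 87318561, 56905986), (15, 1,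 1, 70668306, 70668306), (34, 1, 1, 87318786, 56905761), (19, 1, 1, 69619971, 70649121), (51, 1, 1, 88236291, 56951841), (50, 1, 1, 87122436, 56644161), (51, 1, 1, 88236051, 56951826), (50, 1, 1, 87121956, 56643906), (39, 1, 1, 87441921, 73617921), (14, 1, 1, 70607106, 54939681), (39, 1, 1, 87441441, 73617666), (14, 1, 1, 70606866, 54939666), (19, 1, 1, 37970181, 50677281), (18, 1, 1, 69558531, 54920481), (50, 1, 1, 55845126, 5530401), (84, 1, 1, 87433236, 73421586), (50, 1, 1, 55844886, 5530386), (84, 1, 1, 87433476, 73421601), (57, 1, 1, 55861506, 55861281), (58, 1, 1, 55861506, 55861281), (89, 16, 16, 67450401, 38154501), (66, 1, 1, 55984386, 72572961), (66, 16, 16, 87122946, 56774721), (63, 1, 1, 55861506, 55861281), (89, 16, 16, 67449441, 21377541), (66, 1, 1, 55984146, 72572946), (66, 16, 16, 87121986, 56709186), (63, 1, 1, 55861266, 55861266), (43, 1, 1, 39084291,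 55838241), (45, 1, 1, 39084291, 55838241), (38, 1, 1, 40120581, 84162081), (40, 1, 1, 39072006, 5518881), (30, 1, 1, 37970181, 50677281), (29, 1, 1, 37970181, 50677281), (43, 1, 1, 39084051, 55838226), (45, 1, 1, 39084051, 55838226), (38, 1, 1, 40120341, 84162066), (40, 1, 1, 39071766, 5518866), (30, 1, 1, 37969941, 50677266), (29, 1, 1, 37969941, 50677266), (38, 16, 16, 103043856, 104080656), (30, 16, 16, 69620496, 70657296), (38, 16, 16, 103043376, 104076576), (30, 16, 16, 69620016, 70653216), (56, 1, 1, 55845126, 5530401), (27, 16, 16, 69619971, 70649121), (60, 1, 1, 55845126, 5530401), (61, 16, 16, 102847491, 103941441), (60, 1, 1, 55844886, 5530386), (61, 16, 16, 102846531, 103875906), (40, 16, 16, 86393616, 73606416), (29, 16, 16, 69559056, 54928656), (40, 16, 16, 86393136, 73602336), (29, 16, 16, 69558576, 54924576), (27, 1, 1, 37970181, 50677281), (26, 1, 1,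 37970181, 50677281), (61, 1, 1, 40059141, 84100641), (81, 16, 16, 84288561, 73536261), (61, 1, 1, 40058901, 84100626), (81, 16, 16, 84288321, 73474821)]
  [(14, -192), (15, 192), (18, -144), (19, 288), (26, -144), (27, 288), (29, -192), (30, 192), (34, -144), (35, 144), (36, -144), (38, -384), (39, 192), (40, 192), (42, 96), (43, 96), (44, -96), (45, -96), (50, 192), (51, -96), (53, 96), (54, -192), (56, -144), (57, 144), (58, -144), (60, -96), (61, 192), (63, 96), (66, -192), (81, -96), (84, -96), (86, 96), (89, 96)] = true := by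
  decide +kernel

theorem t61_1_2 : chkS lk61 2 5 [(1, m61_1)] l61_2
  [(86, 16, 16, 33907761, 54662661), (54, 1, 1, 72442371, 55968321), (35, 1, 1, 87318786, 56905761), (53, 1, 1, 88236291, 56951841), (36, 1, 1, 87441666, 73617441), (54, 1, 1, 88482051, 73728801), (86, 16, 16, 33907521, 54601221), (54, 1, 1, 72441891, 55968066), (53, 1, 1, 88236051, 56951826), (54, 1, 1, 88481811, 73728786), (38, 1, 1, 55844886, 5530386), (15, 1, 1, 54616101, 50684226), (42, 1, 1, 55861266, 55861266), (14, 1, 1, 54616101, 50684226), (44, 1, 1, 55861266, 55861266), (39, 1, 1, 55844886, 5530386), (38, 1, 1, 55845126, 5530401), (15, 1, 1, 54616581, 50684481), (42, 1, 1, 55861506, 55861281), (14, 1, 1, 54616581, 50684481), (44, 1, 1, 55861506, 55861281), (39, 1, 1, 55845126, 5530401), (38, 1, 1, 87318561, 56905986), (38, 1, 1, 87319041, 56906241), (34, 1, 1, 87318786, 56905761), (51, 1,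 1, 88236291, 56951841), (50, 1, 1, 87122436, 56644161), (15, 1, 1, 70668546, 70668321), (19, 1, 1, 69619971, 70649121), (51, 1, 1, 88236051, 56951826), (50, 1, 1, 87121956, 56643906), (15, 1, 1, 70668306, 70668306), (39, 1, 1, 87441441, 73617666), (39, 1, 1, 87441921, 73617921), (19, 1, 1, 37970181, 50677281), (50, 1, 1, 55845126, 5530401), (84, 1, 1, 87433236, 73421586), (14, 1, 1, 70607106, 54939681), (18, 1, 1, 69558531, 54920481), (50, 1, 1, 55844886, 5530386), (84, 1, 1, 87433476, 73421601), (14, 1, 1, 70606866, 54939666), (89, 16, 16, 67450401, 38154501), (66, 16, 16, 87122946, 56774721), (57, 1, 1, 55861506, 55861281), (63, 1, 1, 55861506, 55861281), (58, 1, 1, 55861506, 55861281), (66, 1, 1, 55984386, 72572961), (89, 16, 16, 67449441, 21377541), (66, 16, 16, 87121986, 56709186), (63, 1, 1, 55861266, 55861266), (66, 1, 1, 55984146, 72572946), (38, 1, 1, 40120581,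 84162081), (30, 1, 1, 37970181, 50677281), (43, 1, 1, 39084291, 55838241), (29, 1, 1, 37970181, 50677281), (45, 1, 1, 39084291, 55838241), (40, 1, 1, 39072006, 5518881), (38, 1, 1, 40120341, 84162066), (30, 1, 1, 37969941, 50677266), (43, 1, 1, 39084051, 55838226), (29, 1, 1, 37969941, 50677266), (45, 1, 1, 39084051, 55838226), (40, 1, 1, 39071766, 5518866), (38, 16, 16, 103043376, 104076576), (38, 16, 16, 103043856, 104080656), (56, 1, 1, 55845126, 5530401), (60, 1, 1, 55845126, 5530401), (61, 16, 16, 102847491, 103941441), (30, 16, 16, 69620496, 70657296), (27, 16, 16, 69619971, 70649121), (60, 1, 1, 55844886, 5530386), (61, 16, 16, 102846531, 103875906), (30, 16, 16, 69620016, 70653216), (40, 16, 16, 86393136, 73602336), (40, 16, 16, 86393616, 73606416), (27, 1, 1, 37970181, 50677281), (61, 1, 1, 40059141, 84100641), (81, 16, 16, 84288561, 73536261), (29, 16, 16,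 69559056, 54928656), (26, 1, 1, 37970181, 50677281), (61, 1, 1, 40058901, 84100626), (81, 16, 16, 84288321, 73474821), (29, 16, 16, 69558576, 54924576)]
  [(14, 96), (15, -96), (18, -48), (19, 96), (26, -48), (27, 96), (29, 96), (30, -96), (34, -48), (35, 48), (36, -48), (38, -288), (39, 144), (40, 144), (42, -48), (43, -48), (44, 48), (45, 48), (50, 144), (51, 48), (53, -48), (54, -144), (56, -48), (57, 48), (58, -48), (60, 48), (61, 144), (63, -48), (66, -144), (81, -192), (84, -192), (86, 192), (89, 192)] = true := by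
  decide +kernel

theorem t61_1_3 : chkS lk61 2 5 [(1, m61_1)] l61_3
  [(54, 16, 16, 19285296, 69408096), (52, 16, 16, 19162416, 52696416), (54, 16, 16, 19284816, 68363616), (52, 16, 16, 19161936, 51651936), (40, 1, 1, 104091681, 104091906), (40, 1, 1, 104092161, 104092161), (50, 1, 1, 73478661, 84292161), (50, 1, 1, 73478181, 84291906), (46, 1, 1, 87318561, 56905986), (46, 1, 1, 87319041, 56906241), (83, 1, 1, 73605141, 84296466), (83, 1, 1, 73605381, 84296481), (66, 1, 1, 21386016, 70590816), (65, 1, 1, 21324576, 54862176), (66, 1, 1, 21385776, 70586976), (65, 1, 1, 21324336, 54858336), (39, 16, 16, 103043376, 104076576), (39, 16, 16, 103043856, 104080656), (62, 16, 16, 102847491, 103941441), (62, 16, 16, 102846531, 103875906), (46, 16, 16, 86270256, 56890656), (46, 16, 16, 86270736, 56894736), (78, 1, 1, 23085621, 84087396), (78, 1, 1, 23085861, 84091236)]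
  [(39, -240), (40, -240), (46, 480), (50, 240), (52, -240), (54, 240), (62, 240), (65, -240), (66, 240), (78, -240), (83, -240)] = true := by
  decide +kernel

theorem t61_1_4 : chkS lk61 2 5 [(1, m61_1)] l61_4
  [(54, 1, 1, 88482051, 73728801), (53, 1, 1, 88236291, 56951841), (36, 1, 1, 87441666, 73617441), (54, 1, 1, 72442371, 55968321), (35, 1, 1, 87318786, 56905761), (86, 16, 16, 33907761, 54662661), (54, 1, 1, 88481811, 73728786), (53, 1, 1, 88236051, 56951826), (54, 1, 1, 72441891, 55968066), (86, 16, 16, 33907521, 54601221), (39, 1, 1, 55844886, 5530386), (14, 1, 1, 54616101, 50684226), (44, 1, 1, 55861266, 55861266), (15, 1, 1, 54616101, 50684226), (42, 1, 1, 55861266, 55861266), (38, 1, 1, 55844886, 5530386), (39, 1, 1, 55845126, 5530401), (14, 1, 1, 54616581, 50684481), (44, 1, 1, 55861506, 55861281), (15, 1, 1, 54616581, 50684481), (42, 1, 1, 55861506, 55861281),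 (38, 1, 1, 55845126, 5530401), (15, 1, 1, 70668306, 70668306), (15, 1, 1, 70668546, 70668321), (19, 1, 1, 69619971, 70649121), (50, 1, 1, 87122436, 56644161), (51, 1, 1, 88236291, 56951841), (38, 1, 1, 87319041, 56906241), (34, 1, 1, 87318786, 56905761), (50, 1, 1, 87121956, 56643906), (51, 1, 1, 88236051, 56951826), (38, 1, 1, 87318561, 56905986), (14, 1, 1, 70606866, 54939666), (14, 1, 1, 70607106, 54939681), (18, 1, 1, 69558531, 54920481), (84, 1, 1, 87433236, 73421586), (50, 1, 1, 55845126, 5530401), (39, 1, 1, 87441921, 73617921), (19, 1, 1, 37970181, 50677281), (84, 1, 1, 87433476, 73421601), (50, 1, 1, 55844886, 5530386), (39, 1, 1, 87441441, 73617666), (66, 1, 1, 55984386, 72572961), (63, 1, 1, 55861506, 55861281), (58, 1, 1, 55861506, 55861281), (66, 16, 16, 87122946, 56774721), (57, 1, 1, 55861506, 55861281), (89, 16, 16, 67450401, 38154501), (66, 1, 1, 55984146,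 72572946), (63, 1, 1, 55861266, 55861266), (66, 16, 16, 87121986, 56709186), (89, 16, 16, 67449441, 21377541), (40, 1, 1, 39072006, 5518881), (29, 1, 1, 37970181, 50677281), (45, 1, 1, 39084291, 55838241), (30, 1, 1, 37970181, 50677281), (43, 1, 1, 39084291, 55838241), (38, 1, 1, 40120581, 84162081), (40, 1, 1, 39071766, 5518866), (29, 1, 1, 37969941, 50677266), (45, 1, 1, 39084051, 55838226), (30, 1, 1, 37969941, 50677266), (43, 1, 1, 39084051, 55838226), (38, 1, 1, 40120341, 84162066), (30, 16, 16, 69620016, 70653216), (30, 16, 16, 69620496, 70657296), (27, 16, 16, 69619971, 70649121), (61, 16, 16, 102847491, 103941441), (60, 1, 1, 55845126, 5530401), (38, 16, 16, 103043856, 104080656), (56, 1, 1, 55845126, 5530401), (61, 16, 16, 102846531, 103875906), (60, 1, 1, 55844886, 5530386), (38, 16, 16, 103043376, 104076576), (29, 16, 16, 69558576, 54924576), (29, 16, 16,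 69559056, 54928656), (26, 1, 1, 37970181, 50677281), (81, 16, 16, 84288561, 73536261), (61, 1, 1, 40059141, 84100641), (40, 16, 16, 86393616, 73606416), (27, 1, 1, 37970181, 50677281), (81, 16, 16, 84288321, 73474821), (61, 1, 1, 40058901, 84100626), (40, 16, 16, 86393136, 73602336)]
  [(14, 144), (15, -144), (18, 48), (19, -96), (26, 48), (27, -96), (29, 144), (30, -144), (34, 48), (35, -48), (36, 48), (38, -192), (39, 96), (40, 96), (42, 48), (43, 48), (44, -48), (45, -48), (50, -144), (51, 192), (53, -192), (54, 144), (56, 48), (57, -48), (58, 48), (60, 192), (61, -144), (63, -192), (66, 144), (81, -48), (84, -48), (86, 48), (89, 48)] = true := by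
  decide +kernel

theorem t61_2_2 : chkS lk61 2 5 [(1, m61_2)] l61_2
  [(35, 1, 1, 87299586, 40128561), (53, 1, 1, 88217091, 40174641), (86, 16, 16, 33900081, 37950981), (54, 1, 1, 72427011, 39191361), (54, 1, 1, 88478211, 73728561), (36, 1, 1, 87430146, 73551921), (86, 16, 16, 33896001, 37828101), (84, 16, 16, 33965361, 69408261), (84, 16, 16, 33961281, 69285381), (54, 1, 1, 88474131, 73728531), (38, 1, 1, 55837206, 5530131), (61, 1, 1, 72552966, 5653041), (88, 16, 16, 50684961, 54681861), (79, 16, 16, 33965361, 69408261), (67, 1, 1, 72749826, 72753201), (39, 1, 1, 55837206, 5530131), (34, 1, 1, 87299586, 40128561), (51, 1, 1, 88217091, 40174641), (38, 1, 1, 87303681, 40129281), (50, 1, 1, 87107076, 39867201), (15, 1, 1, 70653186, 69619761), (19, 1, 1, 69604611, 69600561), (88, 16, 16, 50668641, 21127941), (42, 1, 1, 55842306, 39084081), (38, 1, 1, 55841286, 5530161),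 (15, 1, 1, 54601221, 33907521), (14, 1, 1, 54601221, 33907521), (44, 1, 1, 55842306, 39084081), (39, 1, 1, 55841286, 5530161), (61, 1, 1, 72548886, 5653011), (79, 16, 16, 33961281, 69285381), (67, 1, 1, 72745746, 72753171), (79, 1, 1, 88478211, 73728561), (14, 1, 1, 70587906, 38162481), (50, 1, 1, 55841286, 5530161), (19, 1, 1, 37950981, 33900081), (18, 1, 1, 69539331, 38143281), (39, 1, 1, 87434241, 73552641), (84, 1, 1, 87425556, 73421331), (50, 1, 1, 55837206, 5530131), (84, 1, 1, 87429636, 73421361), (79, 1, 1, 88474131, 73728531), (57, 1, 1, 55842306, 39084081), (63, 1, 1, 55842306, 39084081), (89, 16, 16, 67461921, 54927621), (66, 16, 16, 87115266, 40063041), (66, 1, 1, 55972866, 72507441), (58, 1, 1, 55842306, 39084081), (89, 16, 16, 67445601, 21373701), (81, 1, 1, 38147331, 69535281), (81, 1, 1, 38143251, 69535251), (66, 1, 1, 55968786, 72507411), (38, 1, 1,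 40112901, 84158001), (50, 1, 1, 40112901, 84158001), (87, 16, 16, 101007921, 105058821), (85, 1, 1, 37094676, 69228051), (55, 1, 1, 38147331, 69535281), (40, 1, 1, 39064326, 5514801), (56, 1, 1, 55841286, 5530161), (60, 1, 1, 55841286, 5530161), (38, 16, 16, 103036176, 103036176), (61, 16, 16, 102843651, 102958401), (30, 16, 16, 69612816, 69612816), (27, 16, 16, 69604611, 69600561), (87, 16, 16, 101003841, 104935941), (43, 1, 1, 39061011, 39061011), (38, 1, 1, 40108821, 84157971), (30, 1, 1, 37946901, 33900051), (29, 1, 1, 37946901, 33900051), (45, 1, 1, 39061011, 39061011), (40, 1, 1, 39060246, 5514771), (50, 1, 1, 40108821, 84157971), (85, 1, 1, 37098756, 69228081), (55, 1, 1, 38143251, 69535251), (85, 16, 16, 84296241, 73601541), (29, 16, 16, 69547536, 38155536), (61, 1, 1, 40047621, 84035121), (27, 1, 1, 37950981, 33900081), (26, 1, 1, 37950981, 33900081), (40,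 16, 16, 86389776, 73544976), (81, 16, 16, 84296241, 73601541), (61, 1, 1, 40043541, 84035091), (81, 16, 16, 84292161, 73478661), (85, 16, 16, 84292161, 73478661)]
  [(14, 192), (15, 48), (18, -96), (19, -48), (26, -96), (27, -48), (29, 192), (30, 48), (34, 24), (35, 96), (36, 24), (38, -96), (39, 48), (40, 48), (42, -96), (43, -96), (44, -24), (45, -24), (50, 48), (51, -24), (53, -96), (54, -48), (56, 24), (57, 96), (58, 24), (60, -24), (61, 48), (63, -96), (66, -48), (79, 240), (81, -264), (84, -264), (85, 240), (86, 144), (87, -120), (88, -120), (89, 144)] = true := by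
  decide +kernel

theorem t61_2_3 : chkS lk61 2 5 [(1, m61_2)] l61_3
  [(20, 1, 1, 54924546, 69558321), (52, 16, 16, 19158576, 36967776), (54, 16, 16, 19280976, 68302176), (3, 1, 1, 105984036, 105918786), (67, 16, 16, 20317506, 69292131), (33, 1, 1, 54924546, 69558321), (13, 1, 1, 55649796, 38822721), (62, 16, 16, 19268931, 69272931), (77, 16, 16, 18900051, 51512676), (46, 1, 1, 87303681, 40129281), (17, 1, 1, 55711236, 38822961), (83, 1, 1, 73601541, 84296241), (28, 1, 1, 54924546, 69558321), (65, 1, 1, 21313056, 38089056), (66, 1, 1, 21374256, 69538656), (4, 16, 16, 34890576, 51652176), (55, 1, 1, 21366051, 69534051), (16, 1, 1, 21366051, 69534051), (13, 1, 1, 22218276, 38814051), (50, 1, 1, 23331621, 84156771), (82, 16, 16, 67330641, 51790341), (46, 16, 16, 86259216, 40121616), (25, 1, 1, 55711236, 38822961), (78, 1, 1, 23082021, 84029796)]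
  [(3, -120), (4, -120), (13, 240), (16, -120), (17, -120), (20, 120), (25, -120), (28, 120), (33, -120), (46, 240), (50, 120), (52, -120), (54, 120), (55, -120), (62, 120), (65, -120), (66, 120), (67, -120), (77, 120), (78, -120), (82, 120), (83, -120)] = true := by
  decide +kernel

theorem t61_2_4 : chkS lk61 2 5 [(1, m61_2)] l61_4
  [(36, 1, 1, 87430146, 73551921), (54, 1, 1, 72427011, 39191361), (54, 1, 1, 88478211, 73728561), (53, 1, 1, 88217091, 40174641), (86, 16, 16, 33900081, 37950981), (35, 1, 1, 87299586, 40128561), (54, 1, 1, 88474131, 73728531), (84, 16, 16, 33961281, 69285381), (84, 16, 16, 33965361, 69408261), (86, 16, 16, 33896001, 37828101), (39, 1, 1, 55837206, 5530131), (79, 16, 16, 33965361, 69408261), (67, 1, 1, 72749826, 72753201), (61, 1, 1, 72552966, 5653041), (88, 16, 16, 50684961, 54681861), (38, 1, 1, 55837206, 5530131), (19, 1, 1, 69604611,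 69600561), (50, 1, 1, 87107076, 39867201), (15, 1, 1, 70653186, 69619761), (51, 1, 1, 88217091, 40174641), (38, 1, 1, 87303681, 40129281), (34, 1, 1, 87299586, 40128561), (67, 1, 1, 72745746, 72753171), (44, 1, 1, 55842306, 39084081), (39, 1, 1, 55841286, 5530161), (14, 1, 1, 54601221, 33907521), (15, 1, 1, 54601221, 33907521), (42, 1, 1, 55842306, 39084081), (38, 1, 1, 55841286, 5530161), (79, 16, 16, 33961281, 69285381), (61, 1, 1, 72548886, 5653011), (88, 16, 16, 50668641, 21127941), (79, 1, 1, 88474131, 73728531), (39, 1, 1, 87434241, 73552641), (84, 1, 1, 87425556, 73421331), (18, 1, 1, 69539331, 38143281), (19, 1, 1, 37950981, 33900081), (14, 1, 1, 70587906, 38162481), (50, 1, 1, 55841286, 5530161), (84, 1, 1, 87429636, 73421361), (50, 1, 1, 55837206, 5530131), (79, 1, 1, 88478211, 73728561), (58, 1, 1, 55842306, 39084081), (66, 16, 16, 87115266, 40063041), (66,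 1, 1, 55972866, 72507441), (63, 1, 1, 55842306, 39084081), (89, 16, 16, 67461921, 54927621), (57, 1, 1, 55842306, 39084081), (66, 1, 1, 55968786, 72507411), (81, 1, 1, 38143251, 69535251), (81, 1, 1, 38147331, 69535281), (89, 16, 16, 67445601, 21373701), (40, 1, 1, 39064326, 5514801), (85, 1, 1, 37094676, 69228051), (55, 1, 1, 38147331, 69535281), (50, 1, 1, 40112901, 84158001), (87, 16, 16, 101007921, 105058821), (38, 1, 1, 40112901, 84158001), (27, 16, 16, 69604611, 69600561), (61, 16, 16, 102843651, 102958401), (30, 16, 16, 69612816, 69612816), (60, 1, 1, 55841286, 5530161), (38, 16, 16, 103036176, 103036176), (56, 1, 1, 55841286, 5530161), (55, 1, 1, 38143251, 69535251), (45, 1, 1, 39061011, 39061011), (40, 1, 1, 39060246, 5514771), (29, 1, 1, 37946901, 33900051), (30, 1, 1, 37946901, 33900051), (43, 1, 1, 39061011, 39061011), (38, 1, 1, 40108821, 84157971), (85,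 1, 1, 37098756, 69228081), (50, 1, 1, 40108821, 84157971), (87, 16, 16, 101003841, 104935941), (85, 16, 16, 84292161, 73478661), (40, 16, 16, 86389776, 73544976), (81, 16, 16, 84296241, 73601541), (26, 1, 1, 37950981, 33900081), (27, 1, 1, 37950981, 33900081), (29, 16, 16, 69547536, 38155536), (61, 1, 1, 40047621, 84035121), (81, 16, 16, 84292161, 73478661), (61, 1, 1, 40043541, 84035091), (85, 16, 16, 84296241, 73601541)]
  [(14, 48), (15, 72), (18, -24), (19, -72), (26, -24), (27, -72), (29, 48), (30, 72), (34, -24), (35, 24), (36, 96), (38, 96), (39, 72), (40, 72), (42, -24), (43, -24), (44, -96), (45, -96), (50, -48), (51, 24), (53, -24), (54, 48), (55, -120), (56, -24), (57, 24), (58, 96), (60, 24), (61, -48), (63, -24), (66, 48), (67, -120), (79, 120), (81, -96), (84, -96), (85, 120), (86, -24), (89, -24)] = true := by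
  decide +kernel

theorem t61_3_3 : chkS lk61 2 5 [(1, m61_3)] l61_3
  [(1, 1, 1, 70653186, 69619761), (53, 16, 16, 34948656, 37951056), (53, 16, 16, 35009856, 69285456), (49, 16, 16, 35013936, 69408336), (64, 16, 16, 51782736, 68313936), (32, 1, 1, 54924546, 69558321), (29, 1, 1, 55711236, 38822961), (59, 16, 16, 20317506, 69292131), (59, 16, 16, 51536976, 51536976), (29, 1, 1, 87303681, 40129281), (18, 1, 1, 87299586, 40128561), (84, 1, 1, 73601541, 84296241), (2, 16, 16, 35013936, 69408336), (63, 16, 16, 68376096, 37110096), (63, 16, 16, 68559696, 68559696), (0, 16, 16, 35013936, 69408336), (52, 16, 16, 68563536, 68563536), (6, 1, 1, 70653186, 69619761), (14, 1, 1, 22218276, 38814051), (3, 16, 16, 101925456, 101925456), (3, 1, 1, 23082276, 85995876), (14, 16, 16, 85210656, 40120656), (26, 1, 1, 55711236, 38822961), (80, 16, 16, 102052416, 104936016)]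
  [(0, -120), (1, 120), (2, 120), (3, 240), (6, -120), (14, 240), (18, -120), (26, -120), (29, 240), (32, -120), (49, -120), (52, -120), (59, 240), (64, -120), (80, -120), (84, -120)] = true := by
  decide +kernel

theorem t61_3_4 : chkS lk61 2 5 [(1, m61_3)] l61_4
  [(20, 1, 1, 70587906, 38162481), (54, 16, 16, 34948656, 37951056), (52, 16, 16, 35013936, 69408336), (52, 16, 16, 34948656, 37951056), (54, 16, 16, 35013936, 69408336), (20, 1, 1, 70653186, 69619761), (52, 16, 16, 35009856, 69285456), (3, 1, 1, 90374676, 90194451), (3, 1, 1, 90378756, 90194481), (54, 16, 16, 35009856, 69285456), (46, 1, 1, 55968276, 72376851), (77, 16, 16, 35013936, 69408336), (65, 16, 16, 51794976, 70410576), (4, 16, 16, 21374211, 69534561), (67, 16, 16, 51794976, 70410576), (40, 1, 1, 56885781, 84173331), (17, 1, 1, 87430146, 73551921), (83, 1, 1, 88213011, 40174611), (13, 1, 1, 87430146,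 73551921), (50, 1, 1, 104994051, 103089201), (30, 1, 1, 87434241, 73552641), (19, 1, 1, 87430146, 73551921), (65, 16, 16, 51782736, 68313936), (33, 1, 1, 70592001, 38163201), (46, 1, 1, 55972356, 72376881), (46, 1, 1, 55711236, 38822961), (40, 1, 1, 56759301, 84042801), (33, 1, 1, 70657281, 69620481), (40, 1, 1, 56889861, 84173361), (77, 16, 16, 35009856, 69285456), (4, 16, 16, 21366051, 69534051), (67, 16, 16, 51782736, 68313936), (62, 16, 16, 34821216, 20072016), (30, 1, 1, 87303681, 40129281), (83, 1, 1, 88474131, 73728531), (17, 1, 1, 87299586, 40128561), (19, 1, 1, 87299586, 40128561), (13, 1, 1, 87299586, 40128561), (50, 1, 1, 105189891, 105185841), (83, 1, 1, 88478211, 73728561), (50, 1, 1, 105185811, 105185811), (62, 16, 16, 34825296, 51529296), (28, 16, 16, 70587906, 38162481), (66, 16, 16, 68376096, 37110096), (65, 16, 16, 68571936, 70656336), (65, 16, 16,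 68376096, 37110096), (66, 16, 16, 68571936, 70656336), (28, 16, 16, 70653186, 69619761), (65, 16, 16, 68559696, 68559696), (4, 1, 1, 19281216, 69285216), (4, 1, 1, 19285296, 69408096), (66, 16, 16, 68559696, 68559696), (46, 1, 1, 39195396, 72361521), (82, 1, 1, 38143251, 69535251), (52, 16, 16, 85344816, 73601616), (3, 16, 16, 85156416, 56705616), (55, 16, 16, 85344816, 73601616), (39, 1, 1, 40112901, 84158001), (25, 16, 16, 87430146, 73551921), (78, 16, 16, 101860656, 102962256), (13, 16, 16, 85341216, 73544016), (62, 1, 1, 40112901, 84158001), (15, 16, 16, 85341216, 73544016), (27, 16, 16, 87430146, 73551921), (52, 16, 16, 85340736, 73478736), (16, 16, 16, 68498976, 38154576), (46, 1, 1, 39191316, 72361491), (46, 1, 1, 38995476, 38815251), (39, 1, 1, 40043541, 84035091), (16, 16, 16, 68564256, 69611856), (39, 1, 1, 40108821, 84157971), (82, 1, 1, 38147331, 69535281),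 (3, 16, 16, 85148256, 23282256), (55, 16, 16, 85340736, 73478736), (50, 16, 16, 102052416, 104936016), (15, 16, 16, 85210656, 40120656), (78, 16, 16, 102056496, 105058896), (25, 16, 16, 87299586, 40128561), (27, 16, 16, 87299586, 40128561), (13, 16, 16, 85210656, 40120656), (62, 1, 1, 40047621, 84035121), (78, 16, 16, 102052416, 104936016), (62, 1, 1, 40043541, 84035091), (50, 16, 16, 102056496, 105058896)]
  [(15, 120), (16, -120), (19, -120), (20, 120), (27, -120), (28, 120), (30, 120), (33, -120), (39, 120), (40, 120), (54, -120), (66, -120), (83, 0)] = true := by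
  decide +kernel

theorem t61_4_4 : chkS lk61 2 5 [(1, m61_4)] l61_4
  [(35, 1, 1, 87430146, 73551921), (86, 16, 16, 33965361, 69408261), (53, 1, 1, 88478211, 73728561), (54, 1, 1, 88217091, 40174641), (54, 1, 1, 72753411, 72745761), (36, 1, 1, 87299586, 40128561), (53, 1, 1, 88474131, 73728531), (84, 16, 16, 33896001, 37828101), (84, 16, 16, 33900081, 37950981), (54, 1, 1, 72745251, 72745251), (14, 1, 1, 54919461, 67461411), (79, 16, 16, 33900081, 37950981), (64, 1, 1, 72749826, 72753201), (61, 1, 1, 72487686, 5645361), (67, 1, 1, 88486176, 73740576), (15, 1, 1, 54919461, 67461411), (18, 1, 1, 69604611, 69600561), (84, 1, 1, 87164436, 39867411), (14, 1, 1, 70653186, 69619761), (50, 1, 1, 55710726, 5399601), (39, 1, 1, 87303681, 40129281), (19, 1, 1, 38146821, 67446321), (64, 1, 1, 72745746, 72753171), (42, 1, 1, 55972866, 72507441), (14, 1, 1, 54927621, 67461921),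 (39, 1, 1, 55710726, 5399601), (38, 1, 1, 55710726, 5399601), (44, 1, 1, 55972866, 72507441), (15, 1, 1, 54927621, 67461921), (79, 16, 16, 33896001, 37828101), (61, 1, 1, 72483606, 5645331), (67, 1, 1, 88482096, 73732896), (61, 1, 1, 88482096, 73732896), (38, 1, 1, 87434241, 73552641), (50, 1, 1, 87433476, 73421601), (19, 1, 1, 69539331, 38143281), (34, 1, 1, 87430146, 73551921), (15, 1, 1, 70587906, 38162481), (51, 1, 1, 88478211, 73728561), (50, 1, 1, 87425316, 73421091), (51, 1, 1, 88474131, 73728531), (61, 1, 1, 88486176, 73740576), (57, 1, 1, 55972866, 72507441), (89, 16, 16, 67331361, 52838661), (63, 1, 1, 55972866, 72507441), (66, 1, 1, 55842306, 39084081), (66, 16, 16, 87441666, 73617441), (58, 1, 1, 55972866, 72507441), (63, 1, 1, 55968786, 72507411), (81, 1, 1, 38077971, 38077971), (81, 1, 1, 38082051, 38078001), (66, 16, 16, 87425346, 73486371), (29, 1, 1,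 38146821, 67446321), (85, 1, 1, 37029396, 37770771), (52, 1, 1, 39195651, 72484401), (50, 1, 1, 40047621, 84035121), (55, 16, 16, 86393136, 73602336), (30, 1, 1, 38146821, 67446321), (26, 1, 1, 38146821, 67446321), (81, 16, 16, 84035121, 40047621), (29, 16, 16, 69612816, 69612816), (61, 1, 1, 40112901, 84158001), (40, 16, 16, 86259216, 40121616), (27, 1, 1, 38146821, 67446321), (52, 1, 1, 39191571, 72484371), (43, 1, 1, 39191571, 72484371), (29, 1, 1, 38142741, 67446291), (40, 1, 1, 38994966, 5391891), (38, 1, 1, 40043541, 84035091), (45, 1, 1, 39191571, 72484371), (30, 1, 1, 38142741, 67446291), (85, 1, 1, 37033476, 37770801), (50, 1, 1, 40043541, 84035091), (55, 16, 16, 86389056, 73479456), (50, 16, 16, 103100736, 104936736), (38, 16, 16, 103101456, 105002256), (61, 16, 16, 103104771, 105055521), (27, 16, 16, 69539331, 38143281), (56, 1, 1, 55710726, 5399601), (30,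 16, 16, 69547536, 38155536), (60, 1, 1, 55710726, 5399601), (61, 16, 16, 103088451, 104924451), (60, 1, 1, 55706646, 5399571), (50, 16, 16, 103104816, 105059616)]
  [(14, -48), (15, 48), (18, 24), (19, -48), (26, 24), (27, -48), (29, -48), (30, 48), (34, -96), (35, 96), (36, 24), (38, 384), (39, 48), (40, 48), (42, -96), (43, -96), (44, -24), (45, -24), (50, 288), (51, -144), (52, -120), (53, 144), (54, -48), (56, -96), (57, 96), (58, 24), (60, -144), (61, 288), (63, 144), (64, -120), (66, -48), (81, -144), (84, -144), (86, -96), (89, -96)] = true := by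
  decide +kernel

section

variable {κ ι : Type*} [Fintype κ] [Fintype ι] [Inhabited κ] [Inhabited ι]

noncomputable def F61_0 (E : Env κ ι) : (Fin 2 → κ) → (Fin 5 → ι) → ℝ := op2 (P11 κ) (P7 ι) (fB E 2 5 m61_0)

noncomputable def F61_1 (E : Env κ ι) : (Fin 2 → κ) → (Fin 5 → ι) → ℝ := op2 (P11 κ) (P7 ι) (fB E 2 5 m61_1)

noncomputable def F61_2 (E : Env κ ι) : (Fin 2 → κ) → (Fin 5 → ι) → ℝ := op2 (P11 κ) (P7 ι) (fB E 2 5 m61_2)

noncomputable def F61_3 (E : Env κ ι) : (Fin 2 → κ) → (Fin 5 → ι) → ℝ := op2 (P11 κ) (P7 ι) (fB E 2 5 m61_3)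

noncomputable def F61_4 (E : Env κ ι) : (Fin 2 → κ) → (Fin 5 → ι) → ℝ := op2 (P11 κ) (P7 ι) (fB E 2 5 m61_4)

def r61_0_0 : List (ℕ × ℤ) := [(8, -120), (24, 240), (32, -120), (33, 240), (44, -120), (47, 120), (48, -120), (64, -120), (65, -120), (67, 480), (73, -120), (75, 120), (76, -120), (88, -240)]

theorem h61_0_0 (E : Env κ ι) : ip (F61_0 E) (F61_0 E) = dotS (ek E lk61) r61_0_0 :=
  op_entryZ E lk61 2 5 _ _ _ _ (pg11 κ) (pg7 ι) m61_0 m61_0 l61_0 z61_0 w61_0 x61_0 (by decide) _ (chkS_sound E lk61 2 5 _ _ _ _ t61_0_0)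

def r61_0_1 : List (ℕ × ℤ) := [(22, -240), (23, 240), (29, -240), (30, 240), (38, -240), (40, 240), (43, 240), (45, -240), (69, -240), (70, 240), (72, 240), (73, -240)]

theorem h61_0_1 (E : Env κ ι) : ip (F61_0 E) (F61_1 E) = dotS (ek E lk61) r61_0_1 :=
  op_entryZ E lk61 2 5 _ _ _ _ (pg11 κ) (pg7 ι) m61_0 m61_1 l61_1 z61_1 w61_1 x61_1 (by decide) _ (chkS_sound E lk61 2 5 _ _ _ _ t61_0_1)

def r61_0_2 : List (ℕ × ℤ) := [(4, -120), (9, -240), (10, 240), (13, 120), (16, -120), (21, 120), (22, -120), (24, -120), (29, -120), (37, 120), (38, -120), (40, 120), (41, -120), (43, 120), (59, -120), (61, 120), (62, 120), (68, 120), (69, -120), (70, 120), (71, -120), (72, 120), (73, 0)]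

theorem h61_0_2 (E : Env κ ι) : ip (F61_0 E) (F61_2 E) = dotS (ek E lk61) r61_0_2 :=
  op_entryZ E lk61 2 5 _ _ _ _ (pg11 κ) (pg7 ι) m61_0 m61_2 l61_2 z61_2 w61_2 x61_2 (by decide) _ (chkS_sound E lk61 2 5 _ _ _ _ t61_0_2)

def r61_0_3 : List (ℕ × ℤ) := [(5, 120), (6, -120), (7, 120), (8, -120), (10, -240), (12, 240), (16, 120), (24, 120), (39, -120), (70, -120), (77, -240), (79, 240)]

theorem h61_0_3 (E : Env κ ι) : ip (F61_0 E) (F61_3 E) = dotS (ek E lk61) r61_0_3 :=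
  op_entryZ E lk61 2 5 _ _ _ _ (pg11 κ) (pg7 ι) m61_0 m61_3 l61_3 z61_3 w61_3 x61_3 (by decide) _ (chkS_sound E lk61 2 5 _ _ _ _ t61_0_3)

def r61_0_4 : List (ℕ × ℤ) := [(4, -120), (7, 120), (10, 240), (11, -240), (15, 120), (16, -120), (24, -120), (30, -120), (31, 120), (40, -120), (45, 120), (59, -120), (61, 120), (62, 120), (70, -120), (73, 120)]

theorem h61_0_4 (E : Env κ ι) : ip (F61_0 E) (F61_4 E) = dotS (ek E lk61) r61_0_4 :=
  op_entryZ E lk61 2 5 _ _ _ _ (pg11 κ) (pg7 ι) m61_0 m61_4 l61_4 z61_4 w61_4 x61_4 (by decide) _ (chkS_sound E lk61 2 5 _ _ _ _ t61_0_4)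

def r61_1_1 : List (ℕ × ℤ) := [(14, -192), (15, 192), (18, -144), (19, 288), (26, -144), (27, 288), (29, -192), (30, 192), (34, -144), (35, 144), (36, -144), (38, -384), (39, 192), (40, 192), (42, 96), (43, 96), (44, -96), (45, -96), (50, 192), (51, -96), (53, 96), (54, -192), (56, -144), (57, 144), (58, -144), (60, -96), (61, 192), (63, 96), (66, -192), (81, -96), (84, -96), (86, 96), (89, 96)]

theorem h61_1_1 (E : Env κ ι) : ip (F61_1 E) (F61_1 E) = dotS (ek E lk61) r61_1_1 :=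
  op_entryZ E lk61 2 5 _ _ _ _ (pg11 κ) (pg7 ι) m61_1 m61_1 l61_1 z61_1 w61_1 x61_1 (by decide) _ (chkS_sound E lk61 2 5 _ _ _ _ t61_1_1)

def r61_1_2 : List (ℕ × ℤ) := [(14, 96), (15, -96), (18, -48), (19, 96), (26, -48), (27, 96), (29, 96), (30, -96), (34, -48), (35, 48), (36, -48), (38, -288), (39, 144), (40, 144), (42, -48), (43, -48), (44, 48), (45, 48), (50, 144), (51, 48), (53, -48), (54, -144), (56, -48), (57, 48), (58, -48), (60, 48), (61, 144), (63, -48), (66, -144), (81, -192), (84, -192), (86, 192), (89, 192)]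

theorem h61_1_2 (E : Env κ ι) : ip (F61_1 E) (F61_2 E) = dotS (ek E lk61) r61_1_2 :=
  op_entryZ E lk61 2 5 _ _ _ _ (pg11 κ) (pg7 ι) m61_1 m61_2 l61_2 z61_2 w61_2 x61_2 (by decide) _ (chkS_sound E lk61 2 5 _ _ _ _ t61_1_2)

def r61_1_3 : List (ℕ × ℤ) := [(39, -240), (40, -240), (46, 480), (50, 240), (52, -240), (54, 240), (62, 240), (65, -240), (66, 240), (78, -240), (83, -240)]

theorem h61_1_3 (E : Env κ ι) : ip (F61_1 E) (F61_3 E) = dotS (ek E lk61) r61_1_3 :=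
  op_entryZ E lk61 2 5 _ _ _ _ (pg11 κ) (pg7 ι) m61_1 m61_3 l61_3 z61_3 w61_3 x61_3 (by decide) _ (chkS_sound E lk61 2 5 _ _ _ _ t61_1_3)

def r61_1_4 : List (ℕ × ℤ) := [(14, 144), (15, -144), (18, 48), (19, -96), (26, 48), (27, -96), (29, 144), (30, -144), (34, 48), (35, -48), (36, 48), (38, -192), (39, 96), (40, 96), (42, 48), (43, 48), (44, -48), (45, -48), (50, -144), (51, 192), (53, -192), (54, 144), (56, 48), (57, -48), (58, 48), (60, 192), (61, -144), (63, -192), (66, 144), (81, -48), (84, -48), (86, 48), (89, 48)]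

theorem h61_1_4 (E : Env κ ι) : ip (F61_1 E) (F61_4 E) = dotS (ek E lk61) r61_1_4 :=
  op_entryZ E lk61 2 5 _ _ _ _ (pg11 κ) (pg7 ι) m61_1 m61_4 l61_4 z61_4 w61_4 x61_4 (by decide) _ (chkS_sound E lk61 2 5 _ _ _ _ t61_1_4)

def r61_2_2 : List (ℕ × ℤ) := [(14, 192), (15, 48), (18, -96), (19, -48), (26, -96), (27, -48), (29, 192), (30, 48), (34, 24), (35, 96), (36, 24), (38, -96), (39, 48), (40, 48), (42, -96), (43, -96), (44, -24), (45, -24), (50, 48), (51, -24), (53, -96), (54, -48), (56, 24), (57, 96), (58, 24), (60, -24), (61, 48), (63, -96), (66, -48), (79, 240), (81, -264), (84, -264), (85, 240), (86, 144), (87, -120), (88, -120), (89, 144)]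

theorem h61_2_2 (E : Env κ ι) : ip (F61_2 E) (F61_2 E) = dotS (ek E lk61) r61_2_2 :=
  op_entryZ E lk61 2 5 _ _ _ _ (pg11 κ) (pg7 ι) m61_2 m61_2 l61_2 z61_2 w61_2 x61_2 (by decide) _ (chkS_sound E lk61 2 5 _ _ _ _ t61_2_2)

def r61_2_3 : List (ℕ × ℤ) := [(3, -120), (4, -120), (13, 240), (16, -120), (17, -120), (20, 120), (25, -120), (28, 120), (33, -120), (46, 240), (50, 120), (52, -120), (54, 120), (55, -120), (62, 120), (65, -120), (66, 120), (67, -120), (77, 120), (78, -120), (82, 120), (83, -120)]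

theorem h61_2_3 (E : Env κ ι) : ip (F61_2 E) (F61_3 E) = dotS (ek E lk61) r61_2_3 :=
  op_entryZ E lk61 2 5 _ _ _ _ (pg11 κ) (pg7 ι) m61_2 m61_3 l61_3 z61_3 w61_3 x61_3 (by decide) _ (chkS_sound E lk61 2 5 _ _ _ _ t61_2_3)

def r61_2_4 : List (ℕ × ℤ) := [(14, 48), (15, 72), (18, -24), (19, -72), (26, -24), (27, -72), (29, 48), (30, 72), (34, -24), (35, 24), (36, 96), (38, 96), (39, 72), (40, 72), (42, -24), (43, -24), (44, -96), (45, -96), (50, -48), (51, 24), (53, -24), (54, 48), (55, -120), (56, -24), (57, 24), (58, 96), (60, 24), (61, -48), (63, -24), (66, 48), (67, -120), (79, 120), (81, -96), (84, -96), (85, 120), (86, -24), (89, -24)]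

theorem h61_2_4 (E : Env κ ι) : ip (F61_2 E) (F61_4 E) = dotS (ek E lk61) r61_2_4 :=
  op_entryZ E lk61 2 5 _ _ _ _ (pg11 κ) (pg7 ι) m61_2 m61_4 l61_4 z61_4 w61_4 x61_4 (by decide) _ (chkS_sound E lk61 2 5 _ _ _ _ t61_2_4)

def r61_3_3 : List (ℕ × ℤ) := [(0, -120), (1, 120), (2, 120), (3, 240), (6, -120), (14, 240), (18, -120), (26, -120), (29, 240), (32, -120), (49, -120), (52, -120), (59, 240), (64, -120), (80, -120), (84, -120)]

theorem h61_3_3 (E : Env κ ι) : ip (F61_3 E) (F61_3 E) = dotS (ek E lk61) r61_3_3 :=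
  op_entryZ E lk61 2 5 _ _ _ _ (pg11 κ) (pg7 ι) m61_3 m61_3 l61_3 z61_3 w61_3 x61_3 (by decide) _ (chkS_sound E lk61 2 5 _ _ _ _ t61_3_3)

def r61_3_4 : List (ℕ × ℤ) := [(15, 120), (16, -120), (19, -120), (20, 120), (27, -120), (28, 120), (30, 120), (33, -120), (39, 120), (40, 120), (54, -120), (66, -120), (83, 0)]

theorem h61_3_4 (E : Env κ ι) : ip (F61_3 E) (F61_4 E) = dotS (ek E lk61) r61_3_4 :=
  op_entryZ E lk61 2 5 _ _ _ _ (pg11 κ) (pg7 ι) m61_3 m61_4 l61_4 z61_4 w61_4 x61_4 (by decide) _ (chkS_sound E lk61 2 5 _ _ _ _ t61_3_4)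

def r61_4_4 : List (ℕ × ℤ) := [(14, -48), (15, 48), (18, 24), (19, -48), (26, 24), (27, -48), (29, -48), (30, 48), (34, -96), (35, 96), (36, 24), (38, 384), (39, 48), (40, 48), (42, -96), (43, -96), (44, -24), (45, -24), (50, 288), (51, -144), (52, -120), (53, 144), (54, -48), (56, -96), (57, 96), (58, 24), (60, -144), (61, 288), (63, 144), (64, -120), (66, -48), (81, -144), (84, -144), (86, -96), (89, -96)]

theorem h61_4_4 (E : Env κ ι) : ip (F61_4 E) (F61_4 E) = dotS (ek E lk61) r61_4_4 :=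
  op_entryZ E lk61 2 5 _ _ _ _ (pg11 κ) (pg7 ι) m61_4 m61_4 l61_4 z61_4 w61_4 x61_4 (by decide) _ (chkS_sound E lk61 2 5 _ _ _ _ t61_4_4)

theorem row61_0 (E : Env κ ι) : RowG (ek E lk61) (F61_0 E) [F61_0 E, F61_1 E, F61_2 E, F61_3 E, F61_4 E] [r61_0_0, r61_0_1, r61_0_2, r61_0_3, r61_0_4] :=
  rowG_cons _ _ _ _ _ _ (h61_0_0 E) (rowG_cons _ _ _ _ _ _ (h61_0_1 E) (rowG_cons _ _ _ _ _ _ (h61_0_2 E) (rowG_cons _ _ _ _ _ _ (h61_0_3 E) (rowG_cons _ _ _ _ _ _ (h61_0_4 E) (rowG_nil _ _)))))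

theorem row61_1 (E : Env κ ι) : RowG (ek E lk61) (F61_1 E) [F61_1 E, F61_2 E, F61_3 E, F61_4 E] [r61_1_1, r61_1_2, r61_1_3, r61_1_4] :=
  rowG_cons _ _ _ _ _ _ (h61_1_1 E) (rowG_cons _ _ _ _ _ _ (h61_1_2 E) (rowG_cons _ _ _ _ _ _ (h61_1_3 E) (rowG_cons _ _ _ _ _ _ (h61_1_4 E) (rowG_nil _ _))))

theorem row61_2 (E : Env κ ι) : RowG (ek E lk61) (F61_2 E) [F61_2 E, F61_3 E, F61_4 E] [r61_2_2, r61_2_3, r61_2_4] :=
  rowG_cons _ _ _ _ _ _ (h61_2_2 E) (rowG_cons _ _ _ _ _ _ (h61_2_3 E) (rowG_cons _ _ _ _ _ _ (h61_2_4 E) (rowG_nil _ _)))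

theorem row61_3 (E : Env κ ι) : RowG (ek E lk61) (F61_3 E) [F61_3 E, F61_4 E] [r61_3_3, r61_3_4] :=
  rowG_cons _ _ _ _ _ _ (h61_3_3 E) (rowG_cons _ _ _ _ _ _ (h61_3_4 E) (rowG_nil _ _))

theorem row61_4 (E : Env κ ι) : RowG (ek E lk61) (F61_4 E) [F61_4 E] [r61_4_4] :=
  rowG_cons _ _ _ _ _ _ (h61_4_4 E) (rowG_nil _ _)

def tab61 : List (List (List (ℕ × ℤ))) := [[r61_0_0, r61_0_1, r61_0_2, r61_0_3, r61_0_4], [r61_1_1, r61_1_2, r61_1_3, r61_1_4], [r61_2_2, r61_2_3, r61_2_4], [r61_3_3, r61_3_4], [r61_4_4]]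

theorem tri61 (E : Env κ ι) : TriG (ek E lk61) [F61_0 E, F61_1 E, F61_2 E, F61_3 E, F61_4 E] tab61 := by
  refine triG_cons _ _ _ _ _ (row61_0 E) ?_
  refine triG_cons _ _ _ _ _ (row61_1 E) ?_
  refine triG_cons _ _ _ _ _ (row61_2 E) ?_
  refine triG_cons _ _ _ _ _ (row61_3 E) ?_
  refine triG_cons _ _ _ _ _ (row61_4 E) ?_
  exact triG_nil _

end

end YMBG
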