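import Pool.Agent.YM.BG.Ga0
import Pool.Agent.YM.BG.Ga1

set_option linter.unusedVariables false
set_option maxRecDepth 100000

open YMEng

namespace YMBG

def lk62 : List Key := [
  (2, 5, [(0, [0], [0, 1]), (0, [0], [0, 1]), (0, [1], [2, 3]), (0, [1], [2, 4]), (4, [], [4]), (4, [], [3])]),
  (2, 5, [(0, [0], [0, 1]), (0, [1], [0, 2]), (0, [1], [3, 4]), (0, [0], [3, 4]), (4, [], [2]), (4, [], [1])]),
  (2, 7, [(0, [0], [0, 1]), (0, [0], [0, 1]), (0, [1], [2, 3]), (0, [1], [2, 3]), (1, [], [4, 5]), (1, [], [4, 6]), (4, [], [6]), (4, [], [5])]),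
  (2, 7, [(0, [0], [0, 1]), (0, [1], [0, 2]), (0, [1], [3, 4]), (0, [0], [5, 6]), (1, [], [5, 6]), (1, [], [3, 4]), (4, [], [2]), (4, [], [1])]),
  (2, 7, [(0, [0], [0, 1]), (0, [0], [0, 1]), (0, [1], [2, 3]), (0, [1], [2, 4]), (4, [], [4]), (4, [], [3]), (1, [], [5, 6]), (1, [], [5, 6])]),
  (2, 7, [(0, [0], [0, 1]), (0, [0], [0, 1]), (0, [1], [2, 3]), (0, [1], [4, 5]), (1, [], [2, 6]), (1, [], [4, 5]), (4, [], [3]), (4, [], [6])]),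
  (2, 7, [(0, [0], [0, 1]), (0, [1], [0, 2]), (0, [1], [3, 4]), (0, [0], [3, 4]), (4, [], [2]), (4, [], [1]), (1, [], [5, 6]), (1, [], [5, 6])]),
  (2, 5, [(0, [0], [0, 1]), (0, [1], [0, 2]), (0, [1], [2, 3]), (0, [0], [1, 4]), (4, [], [4]), (4, [], [3])]),
  (2, 7, [(0, [0], [0, 1]), (0, [0], [2, 3]), (0, [1], [4, 5]), (0, [1], [4, 6]), (1, [], [0, 5]), (1, [], [2, 3]), (4, [], [1]), (4, [], [6])]),
  (2, 7, [(0, [0], [0, 1]), (0, [1], [0, 2]), (0, [0], [3, 4]), (0, [1], [5, 6]), (1, [], [1, 3]), (1, [], [5, 6]), (4, [], [2]), (4, [], [4])]),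
  (2, 7, [(0, [0], [0, 1]), (0, [0], [2, 3]), (0, [1], [0, 4]), (0, [1], [4, 5]), (1, [], [1, 6]), (1, [], [2, 3]), (4, [], [5]), (4, [], [6])]),
  (2, 7, [(0, [0], [0, 1]), (0, [1], [0, 2]), (0, [1], [2, 3]), (0, [0], [1, 4]), (4, [], [4]), (4, [], [3]), (1, [], [5, 6]), (1, [], [5, 6])]),
  (2, 7, [(0, [0], [0, 1]), (0, [1], [0, 2]), (0, [1], [1, 3]), (0, [0], [4, 5]), (1, [], [2, 6]), (1, [], [4, 5]), (4, [], [3]), (4, [], [6])]),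
  (2, 7, [(0, [0], [0, 1]), (0, [1], [0, 2]), (0, [0], [2, 3]), (0, [1], [1, 4]), (4, [], [4]), (4, [], [3]), (1, [], [5, 6]), (1, [], [5, 6])]),
  (2, 6, [(0, [0], [0, 1]), (0, [0], [0, 1]), (0, [1], [2, 3]), (0, [1], [2, 4]), (1, [], [3, 5]), (4, [], [4]), (4, [], [5])]),
  (2, 6, [(0, [0], [0, 1]), (0, [0], [0, 1]), (0, [1], [2, 3]), (0, [1], [2, 3]), (1, [], [4, 5]), (4, [], [4]), (4, [], [5])]),
  (2, 6, [(0, [0], [0, 1]), (0, [0], [2, 3]), (0, [1], [0, 4]), (0, [1], [4, 5]), (1, [], [2, 3]), (4, [], [1]), (4, [], [5])]),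
  (2, 6, [(0, [0], [0, 1]), (0, [0], [0, 1]), (0, [1], [2, 3]), (0, [1], [4, 5]), (1, [], [4, 5]), (4, [], [2]), (4, [], [3])]),
  (2, 6, [(0, [0], [0, 1]), (0, [0], [0, 1]), (0, [1], [2, 3]), (0, [1], [4, 5]), (1, [], [2, 4]), (4, [], [5]), (4, [], [3])]),
  (2, 6, [(0, [0], [0, 1]), (0, [1], [0, 2]), (0, [1], [1, 3]), (0, [0], [4, 5]), (1, [], [4, 5]), (4, [], [3]), (4, [], [2])]),
  (2, 6, [(0, [0], [0, 1]), (0, [1], [0, 2]), (0, [1], [1, 3]), (0, [0], [4, 5]), (1, [], [2, 4]), (4, [], [3]), (4, [], [5])]),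
  (2, 6, [(0, [0], [0, 1]), (0, [0], [2, 3]), (0, [1], [0, 4]), (0, [1], [4, 5]), (1, [], [2, 5]), (4, [], [1]), (4, [], [3])]),
  (2, 6, [(0, [0], [0, 1]), (0, [1], [2, 3]), (0, [0], [2, 4]), (0, [1], [0, 5]), (1, [], [1, 3]), (4, [], [5]), (4, [], [4])]),
  (2, 6, [(0, [0], [0, 1]), (0, [0], [2, 3]), (0, [1], [2, 4]), (0, [1], [0, 5]), (1, [], [1, 3]), (4, [], [5]), (4, [], [4])]),
  (2, 6, [(0, [0], [0, 1]), (0, [1], [0, 2]), (0, [0], [2, 3]), (0, [1], [1, 4]), (1, [], [3, 5]), (4, [], [4]), (4, [], [5])]),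
  (2, 6, [(0, [0], [0, 1]), (0, [0], [2, 3]), (0, [1], [0, 4]), (0, [1], [4, 5]), (1, [], [1, 2]), (4, [], [3]), (4, [], [5])]),
  (2, 6, [(0, [0], [0, 1]), (0, [0], [2, 3]), (0, [1], [0, 4]), (0, [1], [2, 4]), (1, [], [1, 5]), (4, [], [3]), (4, [], [5])]),
  (2, 5, [(0, [0], [0, 1]), (0, [0], [0, 1]), (0, [1], [2, 3]), (0, [1], [2, 3]), (4, [], [4]), (4, [], [4])]),
  (2, 5, [(0, [0], [0, 1]), (0, [0], [2, 3]), (0, [1], [2, 4]), (0, [1], [0, 4]), (4, [], [3]), (4, [], [1])]),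
  (2, 7, [(0, [0], [0, 1]), (0, [0], [0, 2]), (0, [1], [1, 2]), (4, [], [3]), (0, [1], [4, 5]), (1, [], [4, 6]), (1, [], [5, 6]), (4, [], [3])]),
  (2, 7, [(0, [0], [0, 1]), (0, [0], [0, 2]), (0, [1], [1, 2]), (4, [], [3]), (0, [1], [4, 5]), (1, [], [4, 6]), (1, [], [3, 6]), (4, [], [5])]),
  (2, 7, [(0, [0], [0, 1]), (0, [0], [0, 2]), (0, [1], [1, 2]), (4, [], [3]), (0, [1], [4, 5]), (1, [], [4, 6]), (1, [], [3, 5]), (4, [], [6])]),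
  (2, 7, [(0, [0], [0, 1]), (0, [0], [0, 2]), (0, [1], [1, 2]), (4, [], [3]), (0, [1], [4, 5]), (1, [], [4, 5]), (1, [], [3, 6]), (4, [], [6])]),
  (2, 6, [(0, [0], [0, 1]), (0, [0], [0, 2]), (0, [1], [1, 2]), (4, [], [3]), (0, [1], [4, 5]), (1, [], [4, 5]), (4, [], [3])]),
  (2, 6, [(0, [0], [0, 1]), (0, [0], [0, 2]), (0, [1], [1, 2]), (4, [], [3]), (0, [1], [4, 5]), (1, [], [3, 4]), (4, [], [5])]),
  (2, 7, [(0, [0], [0, 1]), (0, [0], [0, 2]), (0, [1], [1, 2]), (4, [], [3]), (0, [1], [3, 4]), (1, [], [5, 6]), (1, [], [5, 6]), (4, [], [4])]),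
  (2, 7, [(0, [0], [0, 1]), (0, [0], [0, 2]), (0, [1], [3, 2]), (4, [], [1]), (0, [1], [4, 5]), (1, [], [4, 6]), (1, [], [5, 6]), (4, [], [3])]),
  (2, 7, [(0, [0], [0, 1]), (0, [0], [0, 2]), (0, [1], [3, 2]), (4, [], [1]), (0, [1], [4, 5]), (1, [], [4, 6]), (1, [], [3, 6]), (4, [], [5])]),
  (2, 7, [(0, [0], [0, 1]), (0, [0], [0, 2]), (0, [1], [3, 2]), (4, [], [1]), (0, [1], [4, 5]), (1, [], [4, 6]), (1, [], [3, 5]), (4, [], [6])]),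
  (2, 7, [(0, [0], [0, 1]), (0, [0], [0, 2]), (0, [1], [3, 2]), (4, [], [1]), (0, [1], [3, 4]), (1, [], [5, 6]), (1, [], [4, 5]), (4, [], [6])]),
  (2, 6, [(0, [0], [0, 1]), (0, [0], [0, 2]), (0, [1], [3, 2]), (4, [], [1]), (0, [1], [3, 4]), (1, [], [4, 5]), (4, [], [5])]),
  (2, 7, [(0, [0], [0, 1]), (0, [0], [0, 1]), (0, [1], [2, 3]), (4, [], [3]), (0, [1], [4, 5]), (1, [], [4, 6]), (1, [], [5, 6]), (4, [], [2])]),
  (2, 7, [(0, [0], [0, 1]), (0, [0], [0, 1]), (0, [1], [2, 3]), (4, [], [3]), (0, [1], [4, 5]), (1, [], [4, 6]), (1, [], [2, 6]), (4, [], [5])]),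
  (2, 7, [(0, [0], [0, 1]), (0, [0], [0, 1]), (0, [1], [2, 3]), (4, [], [3]), (0, [1], [4, 5]), (1, [], [4, 6]), (1, [], [2, 5]), (4, [], [6])]),
  (2, 7, [(0, [0], [0, 1]), (0, [0], [0, 1]), (0, [1], [2, 3]), (4, [], [3]), (0, [1], [2, 4]), (1, [], [5, 6]), (1, [], [4, 5]), (4, [], [6])]),
  (2, 7, [(0, [0], [0, 1]), (0, [0], [2, 3]), (0, [1], [0, 3]), (4, [], [1]), (0, [1], [4, 5]), (1, [], [4, 6]), (1, [], [5, 6]), (4, [], [2])]),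
  (2, 7, [(0, [0], [0, 1]), (0, [0], [2, 3]), (0, [1], [0, 3]), (4, [], [1]), (0, [1], [4, 5]), (1, [], [4, 6]), (1, [], [2, 6]), (4, [], [5])]),
  (2, 7, [(0, [0], [0, 1]), (0, [0], [2, 3]), (0, [1], [0, 3]), (4, [], [1]), (0, [1], [4, 5]), (1, [], [4, 6]), (1, [], [2, 5]), (4, [], [6])]),
  (2, 7, [(0, [0], [0, 1]), (0, [0], [2, 3]), (0, [1], [0, 3]), (4, [], [1]), (0, [1], [2, 4]), (1, [], [5, 6]), (1, [], [4, 5]), (4, [], [6])]),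
  (2, 7, [(0, [0], [0, 1]), (0, [0], [2, 3]), (0, [1], [0, 1]), (4, [], [3]), (0, [1], [4, 5]), (1, [], [4, 6]), (1, [], [5, 6]), (4, [], [2])]),
  (2, 7, [(0, [0], [0, 1]), (0, [0], [2, 3]), (0, [1], [0, 1]), (4, [], [3]), (0, [1], [4, 5]), (1, [], [4, 6]), (1, [], [2, 6]), (4, [], [5])]),
  (2, 7, [(0, [0], [0, 1]), (0, [0], [2, 3]), (0, [1], [0, 1]), (4, [], [3]), (0, [1], [4, 5]), (1, [], [4, 6]), (1, [], [2, 5]), (4, [], [6])]),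
  (2, 7, [(0, [0], [0, 1]), (0, [0], [2, 3]), (0, [1], [0, 1]), (4, [], [3]), (0, [1], [4, 5]), (1, [], [4, 5]), (1, [], [2, 6]), (4, [], [6])]),
  (2, 6, [(0, [0], [0, 1]), (0, [0], [2, 3]), (0, [1], [0, 1]), (4, [], [3]), (0, [1], [4, 5]), (1, [], [4, 5]), (4, [], [2])]),
  (2, 6, [(0, [0], [0, 1]), (0, [0], [2, 3]), (0, [1], [0, 1]), (4, [], [3]), (0, [1], [4, 5]), (1, [], [2, 4]), (4, [], [5])]),
  (2, 7, [(0, [0], [0, 1]), (0, [0], [2, 3]), (0, [1], [0, 1]), (4, [], [3]), (0, [1], [2, 4]), (1, [], [5, 6]), (1, [], [4, 5]), (4, [], [6])]),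
  (2, 6, [(0, [0], [0, 1]), (0, [0], [2, 3]), (0, [1], [0, 1]), (4, [], [3]), (0, [1], [2, 4]), (1, [], [4, 5]), (4, [], [5])]),
  (2, 7, [(0, [0], [0, 1]), (0, [0], [2, 0]), (0, [1], [1, 3]), (4, [], [3]), (0, [1], [4, 5]), (1, [], [4, 6]), (1, [], [2, 6]), (4, [], [5])]),
  (2, 7, [(0, [0], [0, 1]), (0, [0], [2, 0]), (0, [1], [1, 3]), (4, [], [3]), (0, [1], [4, 5]), (1, [], [4, 6]), (1, [], [2, 5]), (4, [], [6])]),
  (2, 7, [(0, [0], [0, 1]), (0, [0], [2, 0]), (0, [1], [1, 3]), (4, [], [3]), (0, [1], [4, 5]), (1, [], [4, 5]), (1, [], [2, 6]), (4, [], [6])]),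
  (2, 7, [(0, [0], [0, 1]), (0, [0], [2, 0]), (0, [1], [1, 3]), (4, [], [3]), (0, [1], [2, 4]), (1, [], [5, 6]), (1, [], [5, 6]), (4, [], [4])]),
  (2, 7, [(0, [0], [0, 1]), (0, [0], [2, 0]), (0, [1], [1, 3]), (4, [], [3]), (0, [1], [2, 4]), (1, [], [5, 6]), (1, [], [4, 5]), (4, [], [6])]),
  (2, 7, [(0, [0], [0, 1]), (0, [0], [0, 1]), (0, [1], [2, 3]), (4, [], [4]), (0, [1], [5, 6]), (1, [], [2, 5]), (1, [], [3, 6]), (4, [], [4])]),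
  (2, 7, [(0, [0], [0, 1]), (0, [0], [0, 1]), (0, [1], [2, 3]), (4, [], [4]), (0, [1], [2, 5]), (1, [], [5, 6]), (1, [], [3, 6]), (4, [], [4])]),
  (2, 7, [(0, [0], [0, 1]), (0, [0], [0, 1]), (0, [1], [2, 3]), (4, [], [4]), (0, [1], [2, 5]), (1, [], [5, 6]), (1, [], [3, 4]), (4, [], [6])]),
  (2, 7, [(0, [0], [0, 1]), (0, [0], [0, 1]), (0, [1], [2, 3]), (4, [], [4]), (0, [1], [2, 5]), (1, [], [4, 6]), (1, [], [3, 5]), (4, [], [6])]),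
  (2, 6, [(0, [0], [0, 1]), (0, [0], [0, 1]), (0, [1], [2, 3]), (4, [], [4]), (0, [1], [2, 5]), (1, [], [3, 5]), (4, [], [4])]),
  (2, 7, [(0, [0], [0, 1]), (0, [0], [2, 0]), (0, [1], [3, 1]), (4, [], [4]), (0, [1], [5, 6]), (1, [], [5, 6]), (1, [], [2, 3]), (4, [], [4])]),
  (2, 7, [(0, [0], [0, 1]), (0, [0], [2, 0]), (0, [1], [3, 1]), (4, [], [4]), (0, [1], [5, 6]), (1, [], [2, 5]), (1, [], [3, 6]), (4, [], [4])]),
  (2, 7, [(0, [0], [0, 1]), (0, [0], [2, 0]), (0, [1], [3, 1]), (4, [], [4]), (0, [1], [5, 6]), (1, [], [2, 5]), (1, [], [3, 4]), (4, [], [6])]),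
  (2, 7, [(0, [0], [0, 1]), (0, [0], [2, 0]), (0, [1], [3, 1]), (4, [], [4]), (0, [1], [5, 6]), (1, [], [3, 5]), (1, [], [2, 4]), (4, [], [6])]),
  (2, 7, [(0, [0], [0, 1]), (0, [0], [2, 0]), (0, [1], [3, 1]), (4, [], [4]), (0, [1], [5, 6]), (1, [], [4, 5]), (1, [], [2, 3]), (4, [], [6])]),
  (2, 7, [(0, [0], [0, 1]), (0, [0], [2, 0]), (0, [1], [3, 1]), (4, [], [4]), (0, [1], [2, 5]), (1, [], [5, 6]), (1, [], [3, 6]), (4, [], [4])]),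
  (2, 7, [(0, [0], [0, 1]), (0, [0], [2, 0]), (0, [1], [3, 1]), (4, [], [4]), (0, [1], [3, 5]), (1, [], [5, 6]), (1, [], [2, 6]), (4, [], [4])]),
  (2, 7, [(0, [0], [0, 1]), (0, [0], [2, 0]), (0, [1], [3, 1]), (4, [], [4]), (0, [1], [2, 5]), (1, [], [5, 6]), (1, [], [3, 4]), (4, [], [6])]),
  (2, 7, [(0, [0], [0, 1]), (0, [0], [2, 0]), (0, [1], [3, 1]), (4, [], [4]), (0, [1], [3, 5]), (1, [], [5, 6]), (1, [], [2, 4]), (4, [], [6])]),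
  (2, 7, [(0, [0], [0, 1]), (0, [0], [2, 0]), (0, [1], [3, 1]), (4, [], [4]), (0, [1], [4, 5]), (1, [], [2, 6]), (1, [], [3, 6]), (4, [], [5])]),
  (2, 7, [(0, [0], [0, 1]), (0, [0], [2, 0]), (0, [1], [3, 1]), (4, [], [4]), (0, [1], [2, 5]), (1, [], [4, 6]), (1, [], [3, 5]), (4, [], [6])]),
  (2, 7, [(0, [0], [0, 1]), (0, [0], [2, 0]), (0, [1], [3, 1]), (4, [], [4]), (0, [1], [3, 5]), (1, [], [4, 6]), (1, [], [2, 5]), (4, [], [6])]),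
  (2, 6, [(0, [0], [0, 1]), (0, [0], [2, 0]), (0, [1], [3, 1]), (4, [], [4]), (0, [1], [2, 5]), (1, [], [3, 5]), (4, [], [4])]),
  (2, 6, [(0, [0], [0, 1]), (0, [0], [2, 0]), (0, [1], [3, 1]), (4, [], [4]), (0, [1], [3, 5]), (1, [], [2, 5]), (4, [], [4])]),
  (2, 6, [(0, [0], [0, 1]), (0, [0], [2, 0]), (0, [1], [3, 1]), (4, [], [4]), (0, [1], [4, 5]), (1, [], [2, 3]), (4, [], [5])]),
  (2, 7, [(0, [0], [0, 1]), (0, [0], [2, 0]), (0, [1], [3, 1]), (4, [], [4]), (0, [1], [2, 3]), (1, [], [5, 6]), (1, [], [5, 6]), (4, [], [4])]),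
  (2, 7, [(0, [0], [0, 1]), (0, [0], [2, 0]), (0, [1], [3, 1]), (4, [], [4]), (0, [1], [2, 3]), (1, [], [5, 6]), (1, [], [4, 5]), (4, [], [6])]),
  (2, 6, [(0, [0], [0, 1]), (0, [0], [2, 0]), (0, [1], [3, 1]), (4, [], [4]), (0, [1], [2, 3]), (1, [], [4, 5]), (4, [], [5])]),
  (2, 5, [(0, [0], [0, 1]), (0, [0], [2, 0]), (0, [1], [3, 1]), (4, [], [4]), (0, [1], [2, 3]), (4, [], [4])]),
  (2, 7, [(0, [0], [0, 1]), (0, [0], [2, 0]), (0, [1], [3, 4]), (4, [], [1]), (0, [1], [5, 6]), (1, [], [5, 6]), (1, [], [3, 4]), (4, [], [2])]),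
  (2, 7, [(0, [0], [0, 1]), (0, [0], [2, 0]), (0, [1], [3, 4]), (4, [], [1]), (0, [1], [5, 6]), (1, [], [2, 5]), (1, [], [3, 6]), (4, [], [4])]),
  (2, 7, [(0, [0], [0, 1]), (0, [0], [2, 0]), (0, [1], [3, 4]), (4, [], [1]), (0, [1], [5, 6]), (1, [], [3, 5]), (1, [], [4, 6]), (4, [], [2])]),
  (2, 7, [(0, [0], [0, 1]), (0, [0], [2, 0]), (0, [1], [3, 4]), (4, [], [1]), (0, [1], [3, 5]), (1, [], [5, 6]), (1, [], [2, 6]), (4, [], [4])]),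
  (2, 7, [(0, [0], [0, 1]), (0, [0], [2, 0]), (0, [1], [3, 4]), (4, [], [1]), (0, [1], [3, 5]), (1, [], [5, 6]), (1, [], [4, 6]), (4, [], [2])]),
  (2, 7, [(0, [0], [0, 1]), (0, [0], [2, 0]), (0, [1], [3, 4]), (4, [], [1]), (0, [1], [3, 5]), (1, [], [5, 6]), (1, [], [2, 4]), (4, [], [6])]),
  (2, 7, [(0, [0], [0, 1]), (0, [0], [2, 0]), (0, [1], [3, 4]), (4, [], [1]), (0, [1], [3, 5]), (1, [], [2, 6]), (1, [], [4, 5]), (4, [], [6])]),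
  (2, 6, [(0, [0], [0, 1]), (0, [0], [2, 0]), (0, [1], [3, 4]), (4, [], [1]), (0, [1], [3, 5]), (1, [], [2, 5]), (4, [], [4])]),
  (2, 6, [(0, [0], [0, 1]), (0, [0], [2, 0]), (0, [1], [3, 4]), (4, [], [1]), (0, [1], [3, 5]), (1, [], [4, 5]), (4, [], [2])]),
  (2, 7, [(0, [0], [0, 1]), (0, [0], [2, 3]), (0, [1], [0, 1]), (4, [], [4]), (0, [1], [5, 6]), (1, [], [2, 5]), (1, [], [3, 6]), (4, [], [4])]),
  (2, 7, [(0, [0], [0, 1]), (0, [0], [2, 3]), (0, [1], [0, 1]), (4, [], [4]), (0, [1], [2, 5]), (1, [], [5, 6]), (1, [], [3, 6]), (4, [], [4])]),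
  (2, 7, [(0, [0], [0, 1]), (0, [0], [2, 3]), (0, [1], [0, 1]), (4, [], [4]), (0, [1], [2, 5]), (1, [], [5, 6]), (1, [], [3, 4]), (4, [], [6])]),
  (2, 7, [(0, [0], [0, 1]), (0, [0], [2, 3]), (0, [1], [0, 1]), (4, [], [4]), (0, [1], [2, 5]), (1, [], [4, 6]), (1, [], [3, 5]), (4, [], [6])]),
  (2, 6, [(0, [0], [0, 1]), (0, [0], [2, 3]), (0, [1], [0, 1]), (4, [], [4]), (0, [1], [2, 5]), (1, [], [3, 5]), (4, [], [4])]),
  (2, 7, [(0, [0], [0, 1]), (0, [0], [2, 3]), (0, [1], [0, 1]), (4, [], [4]), (0, [1], [2, 3]), (1, [], [5, 6]), (1, [], [4, 5]), (4, [], [6])]),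
  (2, 6, [(0, [0], [0, 1]), (0, [0], [2, 3]), (0, [1], [0, 1]), (4, [], [4]), (0, [1], [2, 3]), (1, [], [4, 5]), (4, [], [5])]),
  (2, 5, [(0, [0], [0, 1]), (0, [0], [2, 3]), (0, [1], [0, 1]), (4, [], [4]), (0, [1], [2, 3]), (4, [], [4])]),
  (2, 7, [(0, [0], [0, 1]), (0, [0], [2, 3]), (0, [1], [4, 0]), (4, [], [1]), (0, [1], [5, 6]), (1, [], [5, 6]), (1, [], [2, 4]), (4, [], [3])]),
  (2, 7, [(0, [0], [0, 1]), (0, [0], [2, 3]), (0, [1], [4, 0]), (4, [], [1]), (0, [1], [5, 6]), (1, [], [2, 5]), (1, [], [3, 6]), (4, [], [4])]),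
  (2, 7, [(0, [0], [0, 1]), (0, [0], [2, 3]), (0, [1], [4, 0]), (4, [], [1]), (0, [1], [5, 6]), (1, [], [2, 5]), (1, [], [4, 6]), (4, [], [3])]),
  (2, 7, [(0, [0], [0, 1]), (0, [0], [2, 3]), (0, [1], [4, 0]), (4, [], [1]), (0, [1], [5, 6]), (1, [], [2, 5]), (1, [], [3, 4]), (4, [], [6])]),
  (2, 7, [(0, [0], [0, 1]), (0, [0], [2, 3]), (0, [1], [4, 0]), (4, [], [1]), (0, [1], [2, 5]), (1, [], [5, 6]), (1, [], [3, 6]), (4, [], [4])]),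
  (2, 7, [(0, [0], [0, 1]), (0, [0], [2, 3]), (0, [1], [4, 0]), (4, [], [1]), (0, [1], [2, 5]), (1, [], [5, 6]), (1, [], [4, 6]), (4, [], [3])]),
  (2, 7, [(0, [0], [0, 1]), (0, [0], [2, 3]), (0, [1], [4, 0]), (4, [], [1]), (0, [1], [2, 5]), (1, [], [5, 6]), (1, [], [3, 4]), (4, [], [6])]),
  (2, 7, [(0, [0], [0, 1]), (0, [0], [2, 3]), (0, [1], [4, 0]), (4, [], [1]), (0, [1], [2, 5]), (1, [], [3, 6]), (1, [], [4, 6]), (4, [], [5])]),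
  (2, 7, [(0, [0], [0, 1]), (0, [0], [2, 3]), (0, [1], [4, 0]), (4, [], [1]), (0, [1], [2, 5]), (1, [], [3, 6]), (1, [], [4, 5]), (4, [], [6])]),
  (2, 7, [(0, [0], [0, 1]), (0, [0], [2, 3]), (0, [1], [4, 0]), (4, [], [1]), (0, [1], [2, 5]), (1, [], [4, 6]), (1, [], [3, 5]), (4, [], [6])]),
  (2, 6, [(0, [0], [0, 1]), (0, [0], [2, 3]), (0, [1], [4, 0]), (4, [], [1]), (0, [1], [2, 5]), (1, [], [3, 5]), (4, [], [4])]),
  (2, 7, [(0, [0], [0, 1]), (0, [0], [2, 3]), (0, [1], [1, 3]), (4, [], [4]), (0, [1], [5, 6]), (1, [], [5, 6]), (1, [], [0, 2]), (4, [], [4])]),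
  (2, 7, [(0, [0], [0, 1]), (0, [0], [2, 3]), (0, [1], [1, 3]), (4, [], [4]), (0, [1], [5, 6]), (1, [], [0, 5]), (1, [], [2, 6]), (4, [], [4])]),
  (2, 7, [(0, [0], [0, 1]), (0, [0], [2, 3]), (0, [1], [1, 3]), (4, [], [4]), (0, [1], [5, 6]), (1, [], [0, 5]), (1, [], [2, 4]), (4, [], [6])]),
  (2, 7, [(0, [0], [0, 1]), (0, [0], [2, 3]), (0, [1], [1, 3]), (4, [], [4]), (0, [1], [5, 6]), (1, [], [4, 5]), (1, [], [0, 2]), (4, [], [6])]),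
  (2, 7, [(0, [0], [0, 1]), (0, [0], [2, 3]), (0, [1], [1, 3]), (4, [], [4]), (0, [1], [0, 5]), (1, [], [5, 6]), (1, [], [2, 6]), (4, [], [4])]),
  (2, 7, [(0, [0], [0, 1]), (0, [0], [2, 3]), (0, [1], [1, 3]), (4, [], [4]), (0, [1], [0, 5]), (1, [], [5, 6]), (1, [], [2, 4]), (4, [], [6])]),
  (2, 7, [(0, [0], [0, 1]), (0, [0], [2, 3]), (0, [1], [1, 3]), (4, [], [4]), (0, [1], [4, 5]), (1, [], [0, 6]), (1, [], [2, 6]), (4, [], [5])]),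
  (2, 7, [(0, [0], [0, 1]), (0, [0], [2, 3]), (0, [1], [1, 3]), (4, [], [4]), (0, [1], [0, 5]), (1, [], [4, 6]), (1, [], [2, 5]), (4, [], [6])]),
  (2, 6, [(0, [0], [0, 1]), (0, [0], [2, 3]), (0, [1], [1, 3]), (4, [], [4]), (0, [1], [0, 5]), (1, [], [2, 5]), (4, [], [4])]),
  (2, 7, [(0, [0], [0, 1]), (0, [0], [2, 3]), (0, [1], [1, 3]), (4, [], [4]), (0, [1], [0, 2]), (1, [], [5, 6]), (1, [], [5, 6]), (4, [], [4])]),
  (2, 7, [(0, [0], [0, 1]), (0, [0], [2, 3]), (0, [1], [1, 3]), (4, [], [4]), (0, [1], [0, 2]), (1, [], [5, 6]), (1, [], [4, 5]), (4, [], [6])]),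
  (2, 7, [(0, [0], [0, 1]), (0, [0], [2, 3]), (0, [1], [4, 3]), (4, [], [1]), (0, [1], [5, 6]), (1, [], [5, 6]), (1, [], [2, 4]), (4, [], [0])]),
  (2, 7, [(0, [0], [0, 1]), (0, [0], [2, 3]), (0, [1], [4, 3]), (4, [], [1]), (0, [1], [5, 6]), (1, [], [2, 5]), (1, [], [4, 6]), (4, [], [0])]),
  (2, 7, [(0, [0], [0, 1]), (0, [0], [2, 3]), (0, [1], [4, 3]), (4, [], [1]), (0, [1], [5, 6]), (1, [], [0, 5]), (1, [], [2, 4]), (4, [], [6])]),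
  (2, 7, [(0, [0], [0, 1]), (0, [0], [2, 3]), (0, [1], [4, 3]), (4, [], [1]), (0, [1], [5, 6]), (1, [], [2, 5]), (1, [], [0, 4]), (4, [], [6])]),
  (2, 7, [(0, [0], [0, 1]), (0, [0], [2, 3]), (0, [1], [4, 3]), (4, [], [1]), (0, [1], [5, 6]), (1, [], [4, 5]), (1, [], [0, 2]), (4, [], [6])]),
  (2, 7, [(0, [0], [0, 1]), (0, [0], [2, 1]), (0, [1], [3, 4]), (4, [], [4]), (0, [1], [5, 6]), (1, [], [5, 6]), (1, [], [0, 2]), (4, [], [3])]),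
  (2, 7, [(0, [0], [0, 1]), (0, [0], [2, 1]), (0, [1], [3, 4]), (4, [], [4]), (0, [1], [5, 6]), (1, [], [0, 5]), (1, [], [2, 6]), (4, [], [3])]),
  (2, 7, [(0, [0], [0, 1]), (0, [0], [2, 1]), (0, [1], [3, 4]), (4, [], [4]), (0, [1], [5, 6]), (1, [], [0, 5]), (1, [], [2, 3]), (4, [], [6])]),
  (2, 7, [(0, [0], [0, 1]), (0, [0], [2, 1]), (0, [1], [3, 4]), (4, [], [4]), (0, [1], [5, 6]), (1, [], [3, 5]), (1, [], [0, 2]), (4, [], [6])]),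
  (2, 7, [(0, [0], [0, 1]), (0, [0], [2, 1]), (0, [1], [3, 4]), (4, [], [5]), (0, [1], [3, 6]), (1, [], [0, 6]), (1, [], [2, 4]), (4, [], [5])]),
  (2, 7, [(0, [0], [0, 1]), (0, [0], [2, 1]), (0, [1], [3, 4]), (4, [], [5]), (0, [1], [3, 6]), (1, [], [4, 6]), (1, [], [0, 2]), (4, [], [5])]),
  (2, 7, [(0, [0], [0, 1]), (0, [0], [2, 3]), (0, [1], [4, 1]), (4, [], [5]), (0, [1], [2, 6]), (1, [], [3, 6]), (1, [], [0, 4]), (4, [], [5])]),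
  (2, 7, [(0, [0], [0, 1]), (0, [0], [2, 3]), (0, [1], [4, 1]), (4, [], [5]), (0, [1], [2, 6]), (1, [], [4, 6]), (1, [], [0, 3]), (4, [], [5])])]

def kl62 : List ℕ := [5, 6, 9, 10, 12, 22, 26, 33, 42, 45, 50, 51, 55, 56, 64, 65, 75, 76, 78, 83, 84, 85, 86, 87, 88, 89, 90, 91, 93, 99, 100, 101, 102, 103, 104, 106, 113, 114, 115, 117, 118, 121, 122, 123, 124, 127, 128, 129, 131, 134, 135, 136, 137, 138, 139, 141, 142, 145, 146, 147, 149, 150, 208, 209, 210, 211, 212, 226, 227, 228, 229, 230, 231, 232, 233, 234, 235, 236, 237, 238, 239, 240, 244, 245, 246, 247, 254, 255, 256, 257, 258, 259, 260, 261, 262, 271, 272, 273, 274, 275, 278, 279, 280, 289, 290, 291, 292, 293, 294, 295, 296, 297, 298, 299, 304, 305, 306, 307, 308, 309, 310, 311, 312, 316, 317, 323, 324, 325, 326, 327, 332, 333, 334, 335, 422, 423, 432, 433]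

def m62_0 : Base := (0, 1, [(0, [0], [0, 5]), (0, [1], [1, 5]), (1, [], [2, 3]), (4, [], [4])])

def l62_0 : Cov := [(72, 0, 1, [(0, [0], [0, 5]), (0, [1], [1, 5]), (1, [], [2, 3]), (4, [], [4])]),
  (-72, 0, 1, [(0, [0], [0, 5]), (0, [1], [1, 5]), (1, [], [2, 4]), (4, [], [3])]),
  (72, 0, 1, [(0, [0], [0, 5]), (0, [1], [2, 5]), (1, [], [1, 3]), (4, [], [4])]),
  (-72, 0, 1, [(0, [0], [0, 5]), (0, [1], [2, 5]), (1, [], [1, 4]), (4, [], [3])]),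
  (96, 0, 1, [(0, [0], [0, 5]), (0, [1], [3, 5]), (1, [], [1, 2]), (4, [], [4])]),
  (-48, 0, 1, [(0, [0], [0, 5]), (0, [1], [3, 5]), (1, [], [1, 4]), (4, [], [2])]),
  (-48, 0, 1, [(0, [0], [0, 5]), (0, [1], [3, 5]), (1, [], [2, 4]), (4, [], [1])]),
  (-96, 0, 1, [(0, [0], [0, 5]), (0, [1], [4, 5]), (1, [], [1, 2]), (4, [], [3])]),
  (48, 0, 1, [(0, [0], [0, 5]), (0, [1], [4, 5]), (1, [], [1, 3]), (4, [], [2])]),
  (48, 0, 1, [(0, [0], [0, 5]), (0, [1], [4, 5]), (1, [], [2, 3]), (4, [], [1])]),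
  (-72, 0, 1, [(0, [0], [1, 5]), (0, [1], [0, 5]), (1, [], [2, 3]), (4, [], [4])]),
  (72, 0, 1, [(0, [0], [1, 5]), (0, [1], [0, 5]), (1, [], [2, 4]), (4, [], [3])]),
  (72, 0, 1, [(0, [0], [1, 5]), (0, [1], [3, 5]), (1, [], [2, 0]), (4, [], [4])]),
  (-72, 0, 1, [(0, [0], [1, 5]), (0, [1], [3, 5]), (1, [], [2, 4]), (4, [], [0])]),
  (-72, 0, 1, [(0, [0], [1, 5]), (0, [1], [4, 5]), (1, [], [2, 0]), (4, [], [3])]),
  (72, 0, 1, [(0, [0], [1, 5]), (0, [1], [4, 5]), (1, [], [2, 3]), (4, [], [0])]),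
  (-72, 0, 1, [(0, [0], [2, 5]), (0, [1], [0, 5]), (1, [], [1, 3]), (4, [], [4])]),
  (72, 0, 1, [(0, [0], [2, 5]), (0, [1], [0, 5]), (1, [], [1, 4]), (4, [], [3])]),
  (72, 0, 1, [(0, [0], [2, 5]), (0, [1], [3, 5]), (1, [], [1, 0]), (4, [], [4])]),
  (-72, 0, 1, [(0, [0], [2, 5]), (0, [1], [3, 5]), (1, [], [1, 4]), (4, [], [0])]),
  (-72, 0, 1, [(0, [0], [2, 5]), (0, [1], [4, 5]), (1, [], [1, 0]), (4, [], [3])]),
  (72, 0, 1, [(0, [0], [2, 5]), (0, [1], [4, 5]), (1, [], [1, 3]), (4, [], [0])]),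
  (-96, 0, 1, [(0, [0], [3, 5]), (0, [1], [0, 5]), (1, [], [1, 2]), (4, [], [4])]),
  (48, 0, 1, [(0, [0], [3, 5]), (0, [1], [0, 5]), (1, [], [1, 4]), (4, [], [2])]),
  (48, 0, 1, [(0, [0], [3, 5]), (0, [1], [0, 5]), (1, [], [2, 4]), (4, [], [1])]),
  (-72, 0, 1, [(0, [0], [3, 5]), (0, [1], [1, 5]), (1, [], [0, 2]), (4, [], [4])]),
  (72, 0, 1, [(0, [0], [3, 5]), (0, [1], [1, 5]), (1, [], [2, 4]), (4, [], [0])]),
  (-72, 0, 1, [(0, [0], [3, 5]), (0, [1], [2, 5]), (1, [], [0, 1]), (4, [], [4])]),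
  (72, 0, 1, [(0, [0], [3, 5]), (0, [1], [2, 5]), (1, [], [1, 4]), (4, [], [0])]),
  (-48, 0, 1, [(0, [0], [3, 5]), (0, [1], [4, 5]), (1, [], [1, 0]), (4, [], [2])]),
  (96, 0, 1, [(0, [0], [3, 5]), (0, [1], [4, 5]), (1, [], [1, 2]), (4, [], [0])]),
  (-48, 0, 1, [(0, [0], [3, 5]), (0, [1], [4, 5]), (1, [], [2, 0]), (4, [], [1])]),
  (96, 0, 1, [(0, [0], [4, 5]), (0, [1], [0, 5]), (1, [], [1, 2]), (4, [], [3])]),
  (-48, 0, 1, [(0, [0], [4, 5]), (0, [1], [0, 5]), (1, [], [1, 3]), (4, [], [2])]),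
  (-48, 0, 1, [(0, [0], [4, 5]), (0, [1], [0, 5]), (1, [], [2, 3]), (4, [], [1])]),
  (72, 0, 1, [(0, [0], [4, 5]), (0, [1], [1, 5]), (1, [], [0, 2]), (4, [], [3])]),
  (-72, 0, 1, [(0, [0], [4, 5]), (0, [1], [1, 5]), (1, [], [2, 3]), (4, [], [0])]),
  (72, 0, 1, [(0, [0], [4, 5]), (0, [1], [2, 5]), (1, [], [0, 1]), (4, [], [3])]),
  (-72, 0, 1, [(0, [0], [4, 5]), (0, [1], [2, 5]), (1, [], [1, 3]), (4, [], [0])]),
  (48, 0, 1, [(0, [0], [4, 5]), (0, [1], [3, 5]), (1, [], [1, 0]), (4, [], [2])]),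
  (-96, 0, 1, [(0, [0], [4, 5]), (0, [1], [3, 5]), (1, [], [1, 2]), (4, [], [0])]),
  (48, 0, 1, [(0, [0], [4, 5]), (0, [1], [3, 5]), (1, [], [2, 0]), (4, [], [1])])]

def z62_0 : Cov := [(0, 0, 1, [(0, [0], [0, 5]), (0, [1], [1, 5]), (1, [], [3, 4]), (4, [], [2])]),
  (0, 0, 1, [(0, [0], [0, 5]), (0, [1], [2, 5]), (1, [], [3, 4]), (4, [], [1])]),
  (0, 0, 1, [(0, [0], [1, 5]), (0, [1], [2, 5]), (1, [], [0, 3]), (4, [], [4])]),
  (0, 0, 1, [(0, [0], [1, 5]), (0, [1], [2, 5]), (1, [], [0, 4]), (4, [], [3])]),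
  (0, 0, 1, [(0, [0], [1, 5]), (0, [1], [2, 5]), (1, [], [3, 4]), (4, [], [0])]),
  (0, 0, 1, [(0, [0], [2, 5]), (0, [1], [1, 5]), (1, [], [0, 3]), (4, [], [4])]),
  (0, 0, 1, [(0, [0], [2, 5]), (0, [1], [1, 5]), (1, [], [0, 4]), (4, [], [3])]),
  (0, 0, 1, [(0, [0], [2, 5]), (0, [1], [1, 5]), (1, [], [3, 4]), (4, [], [0])]),
  (0, 0, 1, [(0, [0], [3, 5]), (0, [1], [1, 5]), (1, [], [0, 4]), (4, [], [2])]),
  (0, 0, 1, [(0, [0], [3, 5]), (0, [1], [2, 5]), (1, [], [0, 4]), (4, [], [1])]),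
  (0, 0, 1, [(0, [0], [4, 5]), (0, [1], [1, 5]), (1, [], [0, 3]), (4, [], [2])]),
  (0, 0, 1, [(0, [0], [4, 5]), (0, [1], [2, 5]), (1, [], [0, 3]), (4, [], [1])]),
  (0, 0, 1, [(0, [1], [0, 5]), (0, [0], [1, 5]), (1, [], [3, 4]), (4, [], [2])]),
  (0, 0, 1, [(0, [1], [0, 5]), (0, [0], [2, 5]), (1, [], [3, 4]), (4, [], [1])]),
  (0, 0, 1, [(0, [1], [3, 5]), (0, [0], [1, 5]), (1, [], [0, 4]), (4, [], [2])]),
  (0, 0, 1, [(0, [1], [3, 5]), (0, [0], [2, 5]), (1, [], [0, 4]), (4, [], [1])]),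
  (0, 0, 1, [(0, [1], [4, 5]), (0, [0], [1, 5]), (1, [], [0, 3]), (4, [], [2])]),
  (0, 0, 1, [(0, [1], [4, 5]), (0, [0], [2, 5]), (1, [], [0, 3]), (4, [], [1])])]

def w62_0 : List (List Wit) := [[(0, 0, 0, 0, 0), (1, 0, 0, 0, 0), (0, 0, 0, 0, 0), (42, 0, 0, 0, 0), (1, 0, 0, 0, 0), (42, 0, 0, 0, 0), (2, 0, 0, 0, 0), (3, 0, 0, 0, 0), (2, 0, 0, 0, 0), (43, 0, 0, 0, 0), (3, 0, 0, 0, 0), (43, 0, 0, 0, 0), (4, 0, 0, 0, 0), (5, 0, 0, 0, 0), (4, 0, 0, 0, 0), (6, 0, 0, 0, 0), (7, 0, 0, 0, 0), (8, 0, 0, 0, 0), (7, 0, 0, 0, 0), (9, 0, 0, 0, 0), (10, 0, 0, 0, 0), (11, 0, 0, 0, 0), (44, 0, 0, 0, 0), (45, 0, 0, 0, 0), (44, 0, 0, 0, 0), (46, 0, 0, 0, 0), (45, 0, 0, 0, 0), (46, 0, 0, 0, 0), (12, 0, 0, 0, 0), (13, 0, 0, 0, 0), (14, 0, 0, 0, 0), (15, 0, 0, 0, 0), (16, 0, 0, 0, 0), (17, 0, 0, 0, 0), (47, 0, 0, 0, 0), (48, 0, 0, 0, 0), (47, 0, 0, 0, 0), (49, 0, 0, 0, 0), (48,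 0, 0, 0, 0), (49, 0, 0, 0, 0), (18, 0, 0, 0, 0), (19, 0, 0, 0, 0), (20, 0, 0, 0, 0), (21, 0, 0, 0, 0), (22, 0, 0, 0, 0), (23, 0, 0, 0, 0), (22, 0, 0, 0, 0), (24, 0, 0, 0, 0), (25, 0, 0, 0, 0), (50, 0, 0, 0, 0), (25, 0, 0, 0, 0), (26, 0, 0, 0, 0), (50, 0, 0, 0, 0), (26, 0, 0, 0, 0), (27, 0, 0, 0, 0), (51, 0, 0, 0, 0), (27, 0, 0, 0, 0), (28, 0, 0, 0, 0), (51, 0, 0, 0, 0), (28, 0, 0, 0, 0), (29, 0, 0, 0, 0), (30, 0, 0, 0, 0), (31, 0, 0, 0, 0), (30, 0, 0, 0, 0), (32, 0, 0, 0, 0), (33, 0, 0, 0, 0), (32, 0, 0, 0, 0), (34, 0, 0, 0, 0), (35, 0, 0, 0, 0), (52, 0, 0, 0, 0), (35, 0, 0, 0, 0), (36, 0, 0, 0, 0), (52, 0, 0, 0, 0), (36, 0, 0, 0, 0), (37, 0, 0, 0, 0), (53, 0, 0, 0, 0), (37, 0, 0, 0, 0), (38, 0, 0, 0, 0), (53, 0, 0, 0, 0), (38, 0, 0, 0, 0), (39, 0, 0, 0, 0), (40, 0, 0, 0, 0), (41, 0, 0, 0, 0), (40, 0, 0, 0, 0)],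
  [(10, 0, 0, 0, 0), (11, 0, 0, 0, 0), (10, 0, 0, 0, 0), (54, 0, 0, 0, 0), (11, 0, 0, 0, 0), (54, 0, 0, 0, 0), (16, 0, 0, 0, 0), (17, 0, 0, 0, 0), (16, 0, 0, 0, 0), (55, 0, 0, 0, 0), (17, 0, 0, 0, 0), (55, 0, 0, 0, 0), (22, 0, 0, 0, 0), (23, 0, 0, 0, 0), (22, 0, 0, 0, 0), (24, 0, 0, 0, 0), (32, 0, 0, 0, 0), (33, 0, 0, 0, 0), (32, 0, 0, 0, 0), (34, 0, 0, 0, 0), (0, 0, 0, 0, 0), (1, 0, 0, 0, 0), (47, 0, 0, 0, 0), (48, 0, 0, 0, 0), (47, 0, 0, 0, 0), (49, 0, 0, 0, 0), (48, 0, 0, 0, 0), (49, 0, 0, 0, 0), (25, 0, 0, 0, 0), (26, 0, 0, 0, 0), (35, 0, 0, 0, 0), (36, 0, 0, 0, 0), (2, 0, 0, 0, 0), (3, 0, 0, 0, 0), (44, 0, 0, 0, 0), (45, 0, 0, 0, 0), (44, 0, 0, 0, 0), (46, 0, 0, 0, 0), (45, 0, 0, 0, 0), (46, 0, 0, 0, 0), (27, 0, 0, 0, 0), (28, 0, 0, 0, 0), (37, 0, 0, 0, 0), (38, 0, 0, 0, 0), (4, 0, 0, 0, 0), (5, 0, 0, 0, 0), (4, 0, 0, 0, 0), (6, 0, 0, 0, 0), (12, 0,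 0, 0, 0), (56, 0, 0, 0, 0), (12, 0, 0, 0, 0), (13, 0, 0, 0, 0), (56, 0, 0, 0, 0), (13, 0, 0, 0, 0), (18, 0, 0, 0, 0), (57, 0, 0, 0, 0), (18, 0, 0, 0, 0), (19, 0, 0, 0, 0), (57, 0, 0, 0, 0), (19, 0, 0, 0, 0), (39, 0, 0, 0, 0), (40, 0, 0, 0, 0), (41, 0, 0, 0, 0), (40, 0, 0, 0, 0), (7, 0, 0, 0, 0), (8, 0, 0, 0, 0), (7, 0, 0, 0, 0), (9, 0, 0, 0, 0), (14, 0, 0, 0, 0), (58, 0, 0, 0, 0), (14, 0, 0, 0, 0), (15, 0, 0, 0, 0), (58, 0, 0, 0, 0), (15, 0, 0, 0, 0), (20, 0, 0, 0, 0), (59, 0, 0, 0, 0), (20, 0, 0, 0, 0), (21, 0, 0, 0, 0), (59, 0, 0, 0, 0), (21, 0, 0, 0, 0), (29, 0, 0, 0, 0), (30, 0, 0, 0, 0), (31, 0, 0, 0, 0), (30, 0, 0, 0, 0)]]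

def m62_1 : Base := (0, 1, [(0, [0], [0, 5]), (0, [1], [1, 2]), (1, [], [3, 5]), (4, [], [4])])

def l62_1 : Cov := [(144, 0, 1, [(0, [0], [0, 5]), (0, [1], [1, 2]), (1, [], [3, 5]), (4, [], [4])]),
  (-144, 0, 1, [(0, [0], [0, 5]), (0, [1], [1, 2]), (1, [], [4, 5]), (4, [], [3])]),
  (48, 0, 1, [(0, [0], [0, 5]), (0, [1], [1, 3]), (1, [], [2, 5]), (4, [], [4])]),
  (-48, 0, 1, [(0, [0], [0, 5]), (0, [1], [1, 3]), (1, [], [4, 5]), (4, [], [2])]),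
  (-48, 0, 1, [(0, [0], [0, 5]), (0, [1], [1, 4]), (1, [], [2, 5]), (4, [], [3])]),
  (48, 0, 1, [(0, [0], [0, 5]), (0, [1], [1, 4]), (1, [], [3, 5]), (4, [], [2])]),
  (48, 0, 1, [(0, [0], [0, 5]), (0, [1], [2, 3]), (1, [], [1, 5]), (4, [], [4])]),
  (-48, 0, 1, [(0, [0], [0, 5]), (0, [1], [2, 3]), (1, [], [4, 5]), (4, [], [1])]),
  (-48, 0, 1, [(0, [0], [0, 5]), (0, [1], [2, 4]), (1, [], [1, 5]), (4, [], [3])]),
  (48, 0, 1, [(0, [0], [0, 5]), (0, [1], [2, 4]), (1, [], [3, 5]), (4, [], [1])]),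
  (48, 0, 1, [(0, [0], [1, 5]), (0, [1], [0, 2]), (1, [], [3, 5]), (4, [], [4])]),
  (-48, 0, 1, [(0, [0], [1, 5]), (0, [1], [0, 2]), (1, [], [4, 5]), (4, [], [3])]),
  (-48, 0, 1, [(0, [0], [1, 5]), (0, [1], [2, 3]), (1, [], [0, 5]), (4, [], [4])]),
  (48, 0, 1, [(0, [0], [1, 5]), (0, [1], [2, 3]), (1, [], [4, 5]), (4, [], [0])]),
  (48, 0, 1, [(0, [0], [1, 5]), (0, [1], [2, 4]), (1, [], [0, 5]), (4, [], [3])]),
  (-48, 0, 1, [(0, [0], [1, 5]), (0, [1], [2, 4]), (1, [], [3, 5]), (4, [], [0])]),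
  (48, 0, 1, [(0, [0], [2, 5]), (0, [1], [0, 1]), (1, [], [3, 5]), (4, [], [4])]),
  (-48, 0, 1, [(0, [0], [2, 5]), (0, [1], [0, 1]), (1, [], [4, 5]), (4, [], [3])]),
  (-48, 0, 1, [(0, [0], [2, 5]), (0, [1], [1, 3]), (1, [], [0, 5]), (4, [], [4])]),
  (48, 0, 1, [(0, [0], [2, 5]), (0, [1], [1, 3]), (1, [], [4, 5]), (4, [], [0])]),
  (48, 0, 1, [(0, [0], [2, 5]), (0, [1], [1, 4]), (1, [], [0, 5]), (4, [], [3])]),
  (-48, 0, 1, [(0, [0], [2, 5]), (0, [1], [1, 4]), (1, [], [3, 5]), (4, [], [0])]),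
  (-48, 0, 1, [(0, [0], [3, 5]), (0, [1], [0, 1]), (1, [], [2, 5]), (4, [], [4])]),
  (48, 0, 1, [(0, [0], [3, 5]), (0, [1], [0, 1]), (1, [], [4, 5]), (4, [], [2])]),
  (-48, 0, 1, [(0, [0], [3, 5]), (0, [1], [0, 2]), (1, [], [1, 5]), (4, [], [4])]),
  (48, 0, 1, [(0, [0], [3, 5]), (0, [1], [0, 2]), (1, [], [4, 5]), (4, [], [1])]),
  (-144, 0, 1, [(0, [0], [3, 5]), (0, [1], [1, 2]), (1, [], [0, 5]), (4, [], [4])]),
  (144, 0, 1, [(0, [0], [3, 5]), (0, [1], [1, 2]), (1, [], [4, 5]), (4, [], [0])]),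
  (-48, 0, 1, [(0, [0], [3, 5]), (0, [1], [1, 4]), (1, [], [0, 5]), (4, [], [2])]),
  (48, 0, 1, [(0, [0], [3, 5]), (0, [1], [1, 4]), (1, [], [2, 5]), (4, [], [0])]),
  (-48, 0, 1, [(0, [0], [3, 5]), (0, [1], [2, 4]), (1, [], [0, 5]), (4, [], [1])]),
  (48, 0, 1, [(0, [0], [3, 5]), (0, [1], [2, 4]), (1, [], [1, 5]), (4, [], [0])]),
  (48, 0, 1, [(0, [0], [4, 5]), (0, [1], [0, 1]), (1, [], [2, 5]), (4, [], [3])]),
  (-48, 0, 1, [(0, [0], [4, 5]), (0, [1], [0, 1]), (1, [], [3, 5]), (4, [], [2])]),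
  (48, 0, 1, [(0, [0], [4, 5]), (0, [1], [0, 2]), (1, [], [1, 5]), (4, [], [3])]),
  (-48, 0, 1, [(0, [0], [4, 5]), (0, [1], [0, 2]), (1, [], [3, 5]), (4, [], [1])]),
  (144, 0, 1, [(0, [0], [4, 5]), (0, [1], [1, 2]), (1, [], [0, 5]), (4, [], [3])]),
  (-144, 0, 1, [(0, [0], [4, 5]), (0, [1], [1, 2]), (1, [], [3, 5]), (4, [], [0])]),
  (48, 0, 1, [(0, [0], [4, 5]), (0, [1], [1, 3]), (1, [], [0, 5]), (4, [], [2])]),
  (-48, 0, 1, [(0, [0], [4, 5]), (0, [1], [1, 3]), (1, [], [2, 5]), (4, [], [0])]),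
  (48, 0, 1, [(0, [0], [4, 5]), (0, [1], [2, 3]), (1, [], [0, 5]), (4, [], [1])]),
  (-48, 0, 1, [(0, [0], [4, 5]), (0, [1], [2, 3]), (1, [], [1, 5]), (4, [], [0])]),
  (-144, 0, 1, [(0, [1], [0, 5]), (0, [0], [1, 2]), (1, [], [3, 5]), (4, [], [4])]),
  (144, 0, 1, [(0, [1], [0, 5]), (0, [0], [1, 2]), (1, [], [4, 5]), (4, [], [3])]),
  (-48, 0, 1, [(0, [1], [0, 5]), (0, [0], [1, 3]), (1, [], [2, 5]), (4, [], [4])]),
  (48, 0, 1, [(0, [1], [0, 5]), (0, [0], [1, 3]), (1, [], [4, 5]), (4, [], [2])]),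
  (48, 0, 1, [(0, [1], [0, 5]), (0, [0], [1, 4]), (1, [], [2, 5]), (4, [], [3])]),
  (-48, 0, 1, [(0, [1], [0, 5]), (0, [0], [1, 4]), (1, [], [3, 5]), (4, [], [2])]),
  (-48, 0, 1, [(0, [1], [0, 5]), (0, [0], [2, 3]), (1, [], [1, 5]), (4, [], [4])]),
  (48, 0, 1, [(0, [1], [0, 5]), (0, [0], [2, 3]), (1, [], [4, 5]), (4, [], [1])]),
  (48, 0, 1, [(0, [1], [0, 5]), (0, [0], [2, 4]), (1, [], [1, 5]), (4, [], [3])]),
  (-48, 0, 1, [(0, [1], [0, 5]), (0, [0], [2, 4]), (1, [], [3, 5]), (4, [], [1])]),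
  (-48, 0, 1, [(0, [1], [1, 5]), (0, [0], [0, 2]), (1, [], [3, 5]), (4, [], [4])]),
  (48, 0, 1, [(0, [1], [1, 5]), (0, [0], [0, 2]), (1, [], [4, 5]), (4, [], [3])]),
  (48, 0, 1, [(0, [1], [1, 5]), (0, [0], [2, 3]), (1, [], [0, 5]), (4, [], [4])]),
  (-48, 0, 1, [(0, [1], [1, 5]), (0, [0], [2, 3]), (1, [], [4, 5]), (4, [], [0])]),
  (-48, 0, 1, [(0, [1], [1, 5]), (0, [0], [2, 4]), (1, [], [0, 5]), (4, [], [3])]),
  (48, 0, 1, [(0, [1], [1, 5]), (0, [0], [2, 4]), (1, [], [3, 5]), (4, [], [0])]),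
  (-48, 0, 1, [(0, [1], [2, 5]), (0, [0], [0, 1]), (1, [], [3, 5]), (4, [], [4])]),
  (48, 0, 1, [(0, [1], [2, 5]), (0, [0], [0, 1]), (1, [], [4, 5]), (4, [], [3])]),
  (48, 0, 1, [(0, [1], [2, 5]), (0, [0], [1, 3]), (1, [], [0, 5]), (4, [], [4])]),
  (-48, 0, 1, [(0, [1], [2, 5]), (0, [0], [1, 3]), (1, [], [4, 5]), (4, [], [0])]),
  (-48, 0, 1, [(0, [1], [2, 5]), (0, [0], [1, 4]), (1, [], [0, 5]), (4, [], [3])]),
  (48, 0, 1, [(0, [1], [2, 5]), (0, [0], [1, 4]), (1, [], [3, 5]), (4, [], [0])]),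
  (48, 0, 1, [(0, [1], [3, 5]), (0, [0], [0, 1]), (1, [], [2, 5]), (4, [], [4])]),
  (-48, 0, 1, [(0, [1], [3, 5]), (0, [0], [0, 1]), (1, [], [4, 5]), (4, [], [2])]),
  (48, 0, 1, [(0, [1], [3, 5]), (0, [0], [0, 2]), (1, [], [1, 5]), (4, [], [4])]),
  (-48, 0, 1, [(0, [1], [3, 5]), (0, [0], [0, 2]), (1, [], [4, 5]), (4, [], [1])]),
  (144, 0, 1, [(0, [1], [3, 5]), (0, [0], [1, 2]), (1, [], [0, 5]), (4, [], [4])]),
  (-144, 0, 1, [(0, [1], [3, 5]), (0, [0], [1, 2]), (1, [], [4, 5]), (4, [], [0])]),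
  (48, 0, 1, [(0, [1], [3, 5]), (0, [0], [1, 4]), (1, [], [0, 5]), (4, [], [2])]),
  (-48, 0, 1, [(0, [1], [3, 5]), (0, [0], [1, 4]), (1, [], [2, 5]), (4, [], [0])]),
  (48, 0, 1, [(0, [1], [3, 5]), (0, [0], [2, 4]), (1, [], [0, 5]), (4, [], [1])]),
  (-48, 0, 1, [(0, [1], [3, 5]), (0, [0], [2, 4]), (1, [], [1, 5]), (4, [], [0])]),
  (-48, 0, 1, [(0, [1], [4, 5]), (0, [0], [0, 1]), (1, [], [2, 5]), (4, [], [3])]),
  (48, 0, 1, [(0, [1], [4, 5]), (0, [0], [0, 1]), (1, [], [3, 5]), (4, [], [2])]),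
  (-48, 0, 1, [(0, [1], [4, 5]), (0, [0], [0, 2]), (1, [], [1, 5]), (4, [], [3])]),
  (48, 0, 1, [(0, [1], [4, 5]), (0, [0], [0, 2]), (1, [], [3, 5]), (4, [], [1])]),
  (-144, 0, 1, [(0, [1], [4, 5]), (0, [0], [1, 2]), (1, [], [0, 5]), (4, [], [3])]),
  (144, 0, 1, [(0, [1], [4, 5]), (0, [0], [1, 2]), (1, [], [3, 5]), (4, [], [0])]),
  (-48, 0, 1, [(0, [1], [4, 5]), (0, [0], [1, 3]), (1, [], [0, 5]), (4, [], [2])]),
  (48, 0, 1, [(0, [1], [4, 5]), (0, [0], [1, 3]), (1, [], [2, 5]), (4, [], [0])]),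
  (-48, 0, 1, [(0, [1], [4, 5]), (0, [0], [2, 3]), (1, [], [0, 5]), (4, [], [1])]),
  (48, 0, 1, [(0, [1], [4, 5]), (0, [0], [2, 3]), (1, [], [1, 5]), (4, [], [0])])]

def z62_1 : Cov := []

def w62_1 : List (List Wit) := [[(0, 0, 0, 0, 0), (1, 0, 0, 0, 0), (2, 0, 0, 0, 0), (3, 0, 0, 0, 0), (4, 0, 0, 0, 0), (5, 0, 0, 0, 0), (0, 0, 0, 0, 0), (1, 0, 0, 0, 0), (6, 0, 0, 0, 0), (7, 0, 0, 0, 0), (8, 0, 0, 0, 0), (9, 0, 0, 0, 0), (2, 0, 0, 0, 0), (3, 0, 0, 0, 0), (6, 0, 0, 0, 0), (7, 0, 0, 0, 0), (4, 0, 0, 0, 0), (5, 0, 0, 0, 0), (8, 0, 0, 0, 0), (9, 0, 0, 0, 0), (10, 0, 0, 0, 0), (11, 0, 0, 0, 0), (10, 0, 0, 0, 0), (11, 0, 0, 0, 0), (12, 0, 0, 0, 0), (13, 0, 0, 0, 0), (14, 0, 0, 0, 0), (15, 0, 0, 0, 0), (12, 0, 0, 0, 0), (13, 0, 0, 0, 0), (14, 0, 0, 0, 0), (15, 0, 0, 0, 0), (16, 0, 0, 0, 0), (17, 0, 0, 0, 0), (16, 0, 0, 0, 0), (17, 0, 0, 0, 0), (18, 0, 0, 0, 0),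 (19, 0, 0, 0, 0), (20, 0, 0, 0, 0), (21, 0, 0, 0, 0), (18, 0, 0, 0, 0), (19, 0, 0, 0, 0), (20, 0, 0, 0, 0), (21, 0, 0, 0, 0), (22, 0, 0, 0, 0), (23, 0, 0, 0, 0), (24, 0, 0, 0, 0), (25, 0, 0, 0, 0), (22, 0, 0, 0, 0), (23, 0, 0, 0, 0), (26, 0, 0, 0, 0), (27, 0, 0, 0, 0), (28, 0, 0, 0, 0), (29, 0, 0, 0, 0), (24, 0, 0, 0, 0), (25, 0, 0, 0, 0), (26, 0, 0, 0, 0), (27, 0, 0, 0, 0), (30, 0, 0, 0, 0), (31, 0, 0, 0, 0), (28, 0, 0, 0, 0), (29, 0, 0, 0, 0), (30, 0, 0, 0, 0), (31, 0, 0, 0, 0), (32, 0, 0, 0, 0), (33, 0, 0, 0, 0), (34, 0, 0, 0, 0), (35, 0, 0, 0, 0), (32, 0, 0, 0, 0), (33, 0, 0, 0, 0), (36, 0, 0, 0, 0), (37, 0, 0, 0, 0), (38, 0, 0, 0, 0), (39, 0, 0, 0, 0), (34, 0, 0, 0, 0), (35, 0, 0, 0, 0), (36, 0, 0, 0, 0), (37, 0, 0, 0, 0), (40, 0, 0, 0, 0), (41, 0, 0, 0, 0), (38, 0, 0, 0, 0), (39, 0, 0, 0, 0), (40, 0, 0, 0, 0), (41, 0, 0, 0, 0)],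
  [(42, 0, 0, 0, 0), (43, 0, 0, 0, 0), (44, 0, 0, 0, 0), (45, 0, 0, 0, 0), (46, 0, 0, 0, 0), (47, 0, 0, 0, 0), (42, 0, 0, 0, 0), (43, 0, 0, 0, 0), (48, 0, 0, 0, 0), (49, 0, 0, 0, 0), (50, 0, 0, 0, 0), (51, 0, 0, 0, 0), (44, 0, 0, 0, 0), (45, 0, 0, 0, 0), (48, 0, 0, 0, 0), (49, 0, 0, 0, 0), (46, 0, 0, 0, 0), (47, 0, 0, 0, 0), (50, 0, 0, 0, 0), (51, 0, 0, 0, 0), (52, 0, 0, 0, 0), (53, 0, 0, 0, 0), (52, 0, 0, 0, 0), (53, 0, 0, 0, 0), (54, 0, 0, 0, 0), (55, 0, 0, 0, 0), (56, 0, 0, 0, 0), (57, 0, 0, 0, 0), (54, 0, 0, 0, 0), (55, 0, 0, 0, 0), (56, 0, 0, 0, 0), (57, 0, 0, 0, 0), (58, 0, 0, 0, 0), (59, 0, 0, 0, 0), (58, 0, 0, 0, 0), (59, 0, 0, 0, 0), (60, 0, 0, 0, 0), (61, 0, 0, 0, 0), (62, 0, 0, 0, 0), (63, 0, 0, 0, 0), (60, 0, 0, 0, 0), (61, 0, 0, 0, 0), (62, 0, 0, 0, 0), (63, 0, 0, 0, 0), (64, 0, 0, 0, 0), (65, 0, 0, 0, 0), (66, 0, 0, 0, 0), (67, 0, 0, 0, 0),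 (64, 0, 0, 0, 0), (65, 0, 0, 0, 0), (68, 0, 0, 0, 0), (69, 0, 0, 0, 0), (70, 0, 0, 0, 0), (71, 0, 0, 0, 0), (66, 0, 0, 0, 0), (67, 0, 0, 0, 0), (68, 0, 0, 0, 0), (69, 0, 0, 0, 0), (72, 0, 0, 0, 0), (73, 0, 0, 0, 0), (70, 0, 0, 0, 0), (71, 0, 0, 0, 0), (72, 0, 0, 0, 0), (73, 0, 0, 0, 0), (74, 0, 0, 0, 0), (75, 0, 0, 0, 0), (76, 0, 0, 0, 0), (77, 0, 0, 0, 0), (74, 0, 0, 0, 0), (75, 0, 0, 0, 0), (78, 0, 0, 0, 0), (79, 0, 0, 0, 0), (80, 0, 0, 0, 0), (81, 0, 0, 0, 0), (76, 0, 0, 0, 0), (77, 0, 0, 0, 0), (78, 0, 0, 0, 0), (79, 0, 0, 0, 0), (82, 0, 0, 0, 0), (83, 0, 0, 0, 0), (80, 0, 0, 0, 0), (81, 0, 0, 0, 0), (82, 0, 0, 0, 0), (83, 0, 0, 0, 0)]]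

def m62_2 : Base := (0, 1, [(0, [0], [0, 5]), (0, [1], [1, 3]), (1, [], [2, 5]), (4, [], [4])])

def l62_2 : Cov := [(96, 0, 1, [(0, [0], [0, 5]), (0, [1], [1, 3]), (1, [], [2, 5]), (4, [], [4])]),
  (-96, 0, 1, [(0, [0], [0, 5]), (0, [1], [1, 4]), (1, [], [2, 5]), (4, [], [3])]),
  (48, 0, 1, [(0, [0], [0, 5]), (0, [1], [1, 2]), (1, [], [3, 5]), (4, [], [4])]),
  (-24, 0, 1, [(0, [0], [0, 5]), (0, [1], [1, 4]), (1, [], [3, 5]), (4, [], [2])]),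
  (-48, 0, 1, [(0, [0], [0, 5]), (0, [1], [1, 2]), (1, [], [4, 5]), (4, [], [3])]),
  (24, 0, 1, [(0, [0], [0, 5]), (0, [1], [1, 3]), (1, [], [4, 5]), (4, [], [2])]),
  (96, 0, 1, [(0, [0], [0, 5]), (0, [1], [2, 3]), (1, [], [1, 5]), (4, [], [4])]),
  (-96, 0, 1, [(0, [0], [0, 5]), (0, [1], [2, 4]), (1, [], [1, 5]), (4, [], [3])]),
  (-24, 0, 1, [(0, [0], [0, 5]), (0, [1], [2, 4]), (1, [], [3, 5]), (4, [], [1])]),
  (24, 0, 1, [(0, [0], [0, 5]), (0, [1], [2, 3]), (1, [], [4, 5]), (4, [], [1])]),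
  (24, 0, 1, [(0, [0], [1, 5]), (0, [1], [2, 3]), (1, [], [0, 5]), (4, [], [4])]),
  (-24, 0, 1, [(0, [0], [1, 5]), (0, [1], [2, 4]), (1, [], [0, 5]), (4, [], [3])]),
  (-24, 0, 1, [(0, [0], [1, 5]), (0, [1], [2, 0]), (1, [], [3, 5]), (4, [], [4])]),
  (24, 0, 1, [(0, [0], [1, 5]), (0, [1], [2, 4]), (1, [], [3, 5]), (4, [], [0])]),
  (24, 0, 1, [(0, [0], [1, 5]), (0, [1], [2, 0]), (1, [], [4, 5]), (4, [], [3])]),
  (-24, 0, 1, [(0, [0], [1, 5]), (0, [1], [2, 3]), (1, [], [4, 5]), (4, [], [0])]),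
  (24, 0, 1, [(0, [0], [2, 5]), (0, [1], [1, 3]), (1, [], [0, 5]), (4, [], [4])]),
  (-24, 0, 1, [(0, [0], [2, 5]), (0, [1], [1, 4]), (1, [], [0, 5]), (4, [], [3])]),
  (-24, 0, 1, [(0, [0], [2, 5]), (0, [1], [1, 0]), (1, [], [3, 5]), (4, [], [4])]),
  (24, 0, 1, [(0, [0], [2, 5]), (0, [1], [1, 4]), (1, [], [3, 5]), (4, [], [0])]),
  (24, 0, 1, [(0, [0], [2, 5]), (0, [1], [1, 0]), (1, [], [4, 5]), (4, [], [3])]),
  (-24, 0, 1, [(0, [0], [2, 5]), (0, [1], [1, 3]), (1, [], [4, 5]), (4, [], [0])]),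
  (-96, 0, 1, [(0, [0], [3, 5]), (0, [1], [0, 2]), (1, [], [1, 5]), (4, [], [4])]),
  (-96, 0, 1, [(0, [0], [3, 5]), (0, [1], [0, 1]), (1, [], [2, 5]), (4, [], [4])]),
  (-48, 0, 1, [(0, [0], [3, 5]), (0, [1], [1, 2]), (1, [], [0, 5]), (4, [], [4])]),
  (24, 0, 1, [(0, [0], [3, 5]), (0, [1], [1, 4]), (1, [], [0, 5]), (4, [], [2])]),
  (96, 0, 1, [(0, [0], [3, 5]), (0, [1], [1, 4]), (1, [], [2, 5]), (4, [], [0])]),
  (-24, 0, 1, [(0, [0], [3, 5]), (0, [1], [1, 0]), (1, [], [4, 5]), (4, [], [2])]),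
  (48, 0, 1, [(0, [0], [3, 5]), (0, [1], [1, 2]), (1, [], [4, 5]), (4, [], [0])]),
  (24, 0, 1, [(0, [0], [3, 5]), (0, [1], [2, 4]), (1, [], [0, 5]), (4, [], [1])]),
  (96, 0, 1, [(0, [0], [3, 5]), (0, [1], [2, 4]), (1, [], [1, 5]), (4, [], [0])]),
  (-24, 0, 1, [(0, [0], [3, 5]), (0, [1], [2, 0]), (1, [], [4, 5]), (4, [], [1])]),
  (96, 0, 1, [(0, [0], [4, 5]), (0, [1], [0, 2]), (1, [], [1, 5]), (4, [], [3])]),
  (96, 0, 1, [(0, [0], [4, 5]), (0, [1], [0, 1]), (1, [], [2, 5]), (4, [], [3])]),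
  (48, 0, 1, [(0, [0], [4, 5]), (0, [1], [1, 2]), (1, [], [0, 5]), (4, [], [3])]),
  (-24, 0, 1, [(0, [0], [4, 5]), (0, [1], [1, 3]), (1, [], [0, 5]), (4, [], [2])]),
  (-96, 0, 1, [(0, [0], [4, 5]), (0, [1], [1, 3]), (1, [], [2, 5]), (4, [], [0])]),
  (24, 0, 1, [(0, [0], [4, 5]), (0, [1], [1, 0]), (1, [], [3, 5]), (4, [], [2])]),
  (-48, 0, 1, [(0, [0], [4, 5]), (0, [1], [1, 2]), (1, [], [3, 5]), (4, [], [0])]),
  (-24, 0, 1, [(0, [0], [4, 5]), (0, [1], [2, 3]), (1, [], [0, 5]), (4, [], [1])]),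
  (-96, 0, 1, [(0, [0], [4, 5]), (0, [1], [2, 3]), (1, [], [1, 5]), (4, [], [0])]),
  (24, 0, 1, [(0, [0], [4, 5]), (0, [1], [2, 0]), (1, [], [3, 5]), (4, [], [1])]),
  (-96, 0, 1, [(0, [1], [0, 5]), (0, [0], [1, 3]), (1, [], [2, 5]), (4, [], [4])]),
  (96, 0, 1, [(0, [1], [0, 5]), (0, [0], [1, 4]), (1, [], [2, 5]), (4, [], [3])]),
  (-48, 0, 1, [(0, [1], [0, 5]), (0, [0], [1, 2]), (1, [], [3, 5]), (4, [], [4])]),
  (24, 0, 1, [(0, [1], [0, 5]), (0, [0], [1, 4]), (1, [], [3, 5]), (4, [], [2])]),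
  (48, 0, 1, [(0, [1], [0, 5]), (0, [0], [1, 2]), (1, [], [4, 5]), (4, [], [3])]),
  (-24, 0, 1, [(0, [1], [0, 5]), (0, [0], [1, 3]), (1, [], [4, 5]), (4, [], [2])]),
  (-96, 0, 1, [(0, [1], [0, 5]), (0, [0], [2, 3]), (1, [], [1, 5]), (4, [], [4])]),
  (96, 0, 1, [(0, [1], [0, 5]), (0, [0], [2, 4]), (1, [], [1, 5]), (4, [], [3])]),
  (24, 0, 1, [(0, [1], [0, 5]), (0, [0], [2, 4]), (1, [], [3, 5]), (4, [], [1])]),
  (-24, 0, 1, [(0, [1], [0, 5]), (0, [0], [2, 3]), (1, [], [4, 5]), (4, [], [1])]),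
  (-24, 0, 1, [(0, [1], [1, 5]), (0, [0], [2, 3]), (1, [], [0, 5]), (4, [], [4])]),
  (24, 0, 1, [(0, [1], [1, 5]), (0, [0], [2, 4]), (1, [], [0, 5]), (4, [], [3])]),
  (24, 0, 1, [(0, [1], [1, 5]), (0, [0], [2, 0]), (1, [], [3, 5]), (4, [], [4])]),
  (-24, 0, 1, [(0, [1], [1, 5]), (0, [0], [2, 4]), (1, [], [3, 5]), (4, [], [0])]),
  (-24, 0, 1, [(0, [1], [1, 5]), (0, [0], [2, 0]), (1, [], [4, 5]), (4, [], [3])]),
  (24, 0, 1, [(0, [1], [1, 5]), (0, [0], [2, 3]), (1, [], [4, 5]), (4, [], [0])]),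
  (-24, 0, 1, [(0, [1], [2, 5]), (0, [0], [1, 3]), (1, [], [0, 5]), (4, [], [4])]),
  (24, 0, 1, [(0, [1], [2, 5]), (0, [0], [1, 4]), (1, [], [0, 5]), (4, [], [3])]),
  (24, 0, 1, [(0, [1], [2, 5]), (0, [0], [1, 0]), (1, [], [3, 5]), (4, [], [4])]),
  (-24, 0, 1, [(0, [1], [2, 5]), (0, [0], [1, 4]), (1, [], [3, 5]), (4, [], [0])]),
  (-24, 0, 1, [(0, [1], [2, 5]), (0, [0], [1, 0]), (1, [], [4, 5]), (4, [], [3])]),
  (24, 0, 1, [(0, [1], [2, 5]), (0, [0], [1, 3]), (1, [], [4, 5]), (4, [], [0])]),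
  (96, 0, 1, [(0, [1], [3, 5]), (0, [0], [0, 2]), (1, [], [1, 5]), (4, [], [4])]),
  (96, 0, 1, [(0, [1], [3, 5]), (0, [0], [0, 1]), (1, [], [2, 5]), (4, [], [4])]),
  (48, 0, 1, [(0, [1], [3, 5]), (0, [0], [1, 2]), (1, [], [0, 5]), (4, [], [4])]),
  (-24, 0, 1, [(0, [1], [3, 5]), (0, [0], [1, 4]), (1, [], [0, 5]), (4, [], [2])]),
  (-96, 0, 1, [(0, [1], [3, 5]), (0, [0], [1, 4]), (1, [], [2, 5]), (4, [], [0])]),
  (24, 0, 1, [(0, [1], [3, 5]), (0, [0], [1, 0]), (1, [], [4, 5]), (4, [], [2])]),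
  (-48, 0, 1, [(0, [1], [3, 5]), (0, [0], [1, 2]), (1, [], [4, 5]), (4, [], [0])]),
  (-24, 0, 1, [(0, [1], [3, 5]), (0, [0], [2, 4]), (1, [], [0, 5]), (4, [], [1])]),
  (-96, 0, 1, [(0, [1], [3, 5]), (0, [0], [2, 4]), (1, [], [1, 5]), (4, [], [0])]),
  (24, 0, 1, [(0, [1], [3, 5]), (0, [0], [2, 0]), (1, [], [4, 5]), (4, [], [1])]),
  (-96, 0, 1, [(0, [1], [4, 5]), (0, [0], [0, 2]), (1, [], [1, 5]), (4, [], [3])]),
  (-96, 0, 1, [(0, [1], [4, 5]), (0, [0], [0, 1]), (1, [], [2, 5]), (4, [], [3])]),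
  (-48, 0, 1, [(0, [1], [4, 5]), (0, [0], [1, 2]), (1, [], [0, 5]), (4, [], [3])]),
  (24, 0, 1, [(0, [1], [4, 5]), (0, [0], [1, 3]), (1, [], [0, 5]), (4, [], [2])]),
  (96, 0, 1, [(0, [1], [4, 5]), (0, [0], [1, 3]), (1, [], [2, 5]), (4, [], [0])]),
  (-24, 0, 1, [(0, [1], [4, 5]), (0, [0], [1, 0]), (1, [], [3, 5]), (4, [], [2])]),
  (48, 0, 1, [(0, [1], [4, 5]), (0, [0], [1, 2]), (1, [], [3, 5]), (4, [], [0])]),
  (24, 0, 1, [(0, [1], [4, 5]), (0, [0], [2, 3]), (1, [], [0, 5]), (4, [], [1])]),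
  (96, 0, 1, [(0, [1], [4, 5]), (0, [0], [2, 3]), (1, [], [1, 5]), (4, [], [0])]),
  (-24, 0, 1, [(0, [1], [4, 5]), (0, [0], [2, 0]), (1, [], [3, 5]), (4, [], [1])])]

def z62_2 : Cov := [(0, 0, 1, [(0, [0], [0, 5]), (0, [1], [3, 4]), (1, [], [1, 5]), (4, [], [2])]),
  (0, 0, 1, [(0, [0], [0, 5]), (0, [1], [3, 4]), (1, [], [2, 5]), (4, [], [1])]),
  (0, 0, 1, [(0, [0], [1, 5]), (0, [1], [0, 3]), (1, [], [2, 5]), (4, [], [4])]),
  (0, 0, 1, [(0, [0], [1, 5]), (0, [1], [0, 4]), (1, [], [2, 5]), (4, [], [3])]),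
  (0, 0, 1, [(0, [0], [1, 5]), (0, [1], [3, 4]), (1, [], [2, 5]), (4, [], [0])]),
  (0, 0, 1, [(0, [0], [2, 5]), (0, [1], [0, 3]), (1, [], [1, 5]), (4, [], [4])]),
  (0, 0, 1, [(0, [0], [2, 5]), (0, [1], [0, 4]), (1, [], [1, 5]), (4, [], [3])]),
  (0, 0, 1, [(0, [0], [2, 5]), (0, [1], [3, 4]), (1, [], [1, 5]), (4, [], [0])]),
  (0, 0, 1, [(0, [0], [3, 5]), (0, [1], [0, 4]), (1, [], [1, 5]), (4, [], [2])]),
  (0, 0, 1, [(0, [0], [3, 5]), (0, [1], [0, 4]), (1, [], [2, 5]), (4, [], [1])]),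
  (0, 0, 1, [(0, [0], [4, 5]), (0, [1], [0, 3]), (1, [], [1, 5]), (4, [], [2])]),
  (0, 0, 1, [(0, [0], [4, 5]), (0, [1], [0, 3]), (1, [], [2, 5]), (4, [], [1])]),
  (0, 0, 1, [(0, [1], [0, 5]), (0, [0], [3, 4]), (1, [], [1, 5]), (4, [], [2])]),
  (0, 0, 1, [(0, [1], [0, 5]), (0, [0], [3, 4]), (1, [], [2, 5]), (4, [], [1])]),
  (0, 0, 1, [(0, [1], [1, 5]), (0, [0], [0, 3]), (1, [], [2, 5]), (4, [], [4])]),
  (0, 0, 1, [(0, [1], [1, 5]), (0, [0], [0, 4]), (1, [], [2, 5]), (4, [], [3])]),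
  (0, 0, 1, [(0, [1], [1, 5]), (0, [0], [3, 4]), (1, [], [2, 5]), (4, [], [0])]),
  (0, 0, 1, [(0, [1], [2, 5]), (0, [0], [0, 3]), (1, [], [1, 5]), (4, [], [4])]),
  (0, 0, 1, [(0, [1], [2, 5]), (0, [0], [0, 4]), (1, [], [1, 5]), (4, [], [3])]),
  (0, 0, 1, [(0, [1], [2, 5]), (0, [0], [3, 4]), (1, [], [1, 5]), (4, [], [0])]),
  (0, 0, 1, [(0, [1], [3, 5]), (0, [0], [0, 4]), (1, [], [1, 5]), (4, [], [2])]),
  (0, 0, 1, [(0, [1], [3, 5]), (0, [0], [0, 4]), (1, [], [2, 5]), (4, [], [1])]),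
  (0, 0, 1, [(0, [1], [4, 5]), (0, [0], [0, 3]), (1, [], [1, 5]), (4, [], [2])]),
  (0, 0, 1, [(0, [1], [4, 5]), (0, [0], [0, 3]), (1, [], [2, 5]), (4, [], [1])])]

def w62_2 : List (List Wit) := [[(0, 0, 0, 0, 0), (1, 0, 0, 0, 0), (2, 0, 0, 0, 0), (3, 0, 0, 0, 0), (4, 0, 0, 0, 0), (5, 0, 0, 0, 0), (6, 0, 0, 0, 0), (7, 0, 0, 0, 0), (2, 0, 0, 0, 0), (8, 0, 0, 0, 0), (4, 0, 0, 0, 0), (9, 0, 0, 0, 0), (6, 0, 0, 0, 0), (84, 0, 0, 0, 0), (0, 0, 0, 0, 0), (85, 0, 0, 0, 0), (7, 0, 0, 0, 0), (84, 0, 0, 0, 0), (1, 0, 0, 0, 0), (85, 0, 0, 0, 0), (86, 0, 0, 0, 0), (87, 0, 0, 0, 0), (10, 0, 0, 0, 0), (11, 0, 0, 0, 0), (12, 0, 0, 0, 0), (13, 0, 0, 0, 0), (14, 0, 0, 0, 0), (15, 0, 0, 0, 0), (86, 0, 0, 0, 0), (88, 0, 0, 0, 0), (87, 0, 0, 0, 0), (88, 0, 0, 0, 0), (89, 0, 0, 0, 0), (90, 0, 0, 0, 0), (16, 0, 0, 0, 0), (17, 0, 0, 0, 0), (18, 0, 0, 0, 0), (19, 0, 0, 0, 0), (20,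 0, 0, 0, 0), (21, 0, 0, 0, 0), (89, 0, 0, 0, 0), (91, 0, 0, 0, 0), (90, 0, 0, 0, 0), (91, 0, 0, 0, 0), (22, 0, 0, 0, 0), (92, 0, 0, 0, 0), (23, 0, 0, 0, 0), (93, 0, 0, 0, 0), (24, 0, 0, 0, 0), (25, 0, 0, 0, 0), (23, 0, 0, 0, 0), (26, 0, 0, 0, 0), (27, 0, 0, 0, 0), (28, 0, 0, 0, 0), (24, 0, 0, 0, 0), (29, 0, 0, 0, 0), (22, 0, 0, 0, 0), (30, 0, 0, 0, 0), (31, 0, 0, 0, 0), (28, 0, 0, 0, 0), (92, 0, 0, 0, 0), (30, 0, 0, 0, 0), (93, 0, 0, 0, 0), (26, 0, 0, 0, 0), (32, 0, 0, 0, 0), (94, 0, 0, 0, 0), (33, 0, 0, 0, 0), (95, 0, 0, 0, 0), (34, 0, 0, 0, 0), (35, 0, 0, 0, 0), (33, 0, 0, 0, 0), (36, 0, 0, 0, 0), (37, 0, 0, 0, 0), (38, 0, 0, 0, 0), (34, 0, 0, 0, 0), (39, 0, 0, 0, 0), (32, 0, 0, 0, 0), (40, 0, 0, 0, 0), (41, 0, 0, 0, 0), (38, 0, 0, 0, 0), (94, 0, 0, 0, 0), (40, 0, 0, 0, 0), (95, 0, 0, 0, 0), (36, 0, 0, 0, 0)],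
  [(42, 0, 0, 0, 0), (43, 0, 0, 0, 0), (44, 0, 0, 0, 0), (45, 0, 0, 0, 0), (46, 0, 0, 0, 0), (47, 0, 0, 0, 0), (48, 0, 0, 0, 0), (49, 0, 0, 0, 0), (44, 0, 0, 0, 0), (50, 0, 0, 0, 0), (46, 0, 0, 0, 0), (51, 0, 0, 0, 0), (48, 0, 0, 0, 0), (96, 0, 0, 0, 0), (42, 0, 0, 0, 0), (97, 0, 0, 0, 0), (49, 0, 0, 0, 0), (96, 0, 0, 0, 0), (43, 0, 0, 0, 0), (97, 0, 0, 0, 0), (98, 0, 0, 0, 0), (99, 0, 0, 0, 0), (52, 0, 0, 0, 0), (53, 0, 0, 0, 0), (54, 0, 0, 0, 0), (55, 0, 0, 0, 0), (56, 0, 0, 0, 0), (57, 0, 0, 0, 0), (98, 0, 0, 0, 0), (100, 0, 0, 0, 0), (99, 0, 0, 0, 0), (100, 0, 0, 0, 0), (101, 0, 0, 0, 0), (102, 0, 0, 0, 0), (58, 0, 0, 0, 0), (59, 0, 0, 0, 0), (60, 0, 0, 0, 0), (61, 0, 0, 0, 0), (62, 0, 0, 0, 0), (63, 0, 0, 0, 0), (101, 0, 0, 0, 0), (103, 0, 0, 0, 0), (102, 0, 0, 0, 0), (103, 0, 0, 0, 0), (64, 0, 0, 0, 0), (104, 0, 0, 0, 0), (65, 0, 0, 0, 0), (105, 0,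 0, 0, 0), (66, 0, 0, 0, 0), (67, 0, 0, 0, 0), (65, 0, 0, 0, 0), (68, 0, 0, 0, 0), (69, 0, 0, 0, 0), (70, 0, 0, 0, 0), (66, 0, 0, 0, 0), (71, 0, 0, 0, 0), (64, 0, 0, 0, 0), (72, 0, 0, 0, 0), (73, 0, 0, 0, 0), (70, 0, 0, 0, 0), (104, 0, 0, 0, 0), (72, 0, 0, 0, 0), (105, 0, 0, 0, 0), (68, 0, 0, 0, 0), (74, 0, 0, 0, 0), (106, 0, 0, 0, 0), (75, 0, 0, 0, 0), (107, 0, 0, 0, 0), (76, 0, 0, 0, 0), (77, 0, 0, 0, 0), (75, 0, 0, 0, 0), (78, 0, 0, 0, 0), (79, 0, 0, 0, 0), (80, 0, 0, 0, 0), (76, 0, 0, 0, 0), (81, 0, 0, 0, 0), (74, 0, 0, 0, 0), (82, 0, 0, 0, 0), (83, 0, 0, 0, 0), (80, 0, 0, 0, 0), (106, 0, 0, 0, 0), (82, 0, 0, 0, 0), (107, 0, 0, 0, 0), (78, 0, 0, 0, 0)]]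

def m62_3 : Base := (0, 1, [(0, [0], [0, 5]), (0, [1], [1, 3]), (1, [], [2, 4]), (4, [], [5])])

def l62_3 : Cov := [(120, 0, 1, [(0, [0], [0, 5]), (0, [1], [1, 3]), (1, [], [2, 4]), (4, [], [5])]),
  (-120, 0, 1, [(0, [0], [0, 5]), (0, [1], [1, 4]), (1, [], [2, 3]), (4, [], [5])]),
  (120, 0, 1, [(0, [0], [0, 5]), (0, [1], [2, 3]), (1, [], [1, 4]), (4, [], [5])]),
  (-120, 0, 1, [(0, [0], [0, 5]), (0, [1], [2, 4]), (1, [], [1, 3]), (4, [], [5])]),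
  (-120, 0, 1, [(0, [0], [3, 5]), (0, [1], [0, 2]), (1, [], [1, 4]), (4, [], [5])]),
  (-120, 0, 1, [(0, [0], [3, 5]), (0, [1], [0, 1]), (1, [], [2, 4]), (4, [], [5])]),
  (120, 0, 1, [(0, [0], [3, 5]), (0, [1], [1, 4]), (1, [], [0, 2]), (4, [], [5])]),
  (120, 0, 1, [(0, [0], [3, 5]), (0, [1], [2, 4]), (1, [], [0, 1]), (4, [], [5])]),
  (120, 0, 1, [(0, [0], [4, 5]), (0, [1], [0, 2]), (1, [], [1, 3]), (4, [], [5])]),
  (120, 0, 1, [(0, [0], [4, 5]), (0, [1], [0, 1]), (1, [], [2, 3]), (4, [], [5])]),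
  (-120, 0, 1, [(0, [0], [4, 5]), (0, [1], [1, 3]), (1, [], [0, 2]), (4, [], [5])]),
  (-120, 0, 1, [(0, [0], [4, 5]), (0, [1], [2, 3]), (1, [], [0, 1]), (4, [], [5])]),
  (-120, 0, 1, [(0, [1], [0, 5]), (0, [0], [1, 3]), (1, [], [2, 4]), (4, [], [5])]),
  (120, 0, 1, [(0, [1], [0, 5]), (0, [0], [1, 4]), (1, [], [2, 3]), (4, [], [5])]),
  (-120, 0, 1, [(0, [1], [0, 5]), (0, [0], [2, 3]), (1, [], [1, 4]), (4, [], [5])]),
  (120, 0, 1, [(0, [1], [0, 5]), (0, [0], [2, 4]), (1, [], [1, 3]), (4, [], [5])]),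
  (120, 0, 1, [(0, [1], [3, 5]), (0, [0], [0, 2]), (1, [], [1, 4]), (4, [], [5])]),
  (120, 0, 1, [(0, [1], [3, 5]), (0, [0], [0, 1]), (1, [], [2, 4]), (4, [], [5])]),
  (-120, 0, 1, [(0, [1], [3, 5]), (0, [0], [1, 4]), (1, [], [0, 2]), (4, [], [5])]),
  (-120, 0, 1, [(0, [1], [3, 5]), (0, [0], [2, 4]), (1, [], [0, 1]), (4, [], [5])]),
  (-120, 0, 1, [(0, [1], [4, 5]), (0, [0], [0, 2]), (1, [], [1, 3]), (4, [], [5])]),
  (-120, 0, 1, [(0, [1], [4, 5]), (0, [0], [0, 1]), (1, [], [2, 3]), (4, [], [5])]),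
  (120, 0, 1, [(0, [1], [4, 5]), (0, [0], [1, 3]), (1, [], [0, 2]), (4, [], [5])]),
  (120, 0, 1, [(0, [1], [4, 5]), (0, [0], [2, 3]), (1, [], [0, 1]), (4, [], [5])])]

def z62_3 : Cov := [(0, 0, 1, [(0, [0], [0, 5]), (0, [1], [1, 2]), (1, [], [3, 4]), (4, [], [5])]),
  (0, 0, 1, [(0, [0], [0, 5]), (0, [1], [3, 4]), (1, [], [1, 2]), (4, [], [5])]),
  (0, 0, 1, [(0, [0], [1, 5]), (0, [1], [0, 3]), (1, [], [2, 4]), (4, [], [5])]),
  (0, 0, 1, [(0, [0], [1, 5]), (0, [1], [0, 4]), (1, [], [2, 3]), (4, [], [5])]),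
  (0, 0, 1, [(0, [0], [1, 5]), (0, [1], [2, 3]), (1, [], [0, 4]), (4, [], [5])]),
  (0, 0, 1, [(0, [0], [1, 5]), (0, [1], [2, 4]), (1, [], [0, 3]), (4, [], [5])]),
  (0, 0, 1, [(0, [0], [1, 5]), (0, [1], [2, 0]), (1, [], [3, 4]), (4, [], [5])]),
  (0, 0, 1, [(0, [0], [1, 5]), (0, [1], [3, 4]), (1, [], [2, 0]), (4, [], [5])]),
  (0, 0, 1, [(0, [0], [2, 5]), (0, [1], [0, 3]), (1, [], [1, 4]), (4, [], [5])]),
  (0, 0, 1, [(0, [0], [2, 5]), (0, [1], [0, 4]), (1, [], [1, 3]), (4, [], [5])]),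
  (0, 0, 1, [(0, [0], [2, 5]), (0, [1], [1, 3]), (1, [], [0, 4]), (4, [], [5])]),
  (0, 0, 1, [(0, [0], [2, 5]), (0, [1], [1, 4]), (1, [], [0, 3]), (4, [], [5])]),
  (0, 0, 1, [(0, [0], [2, 5]), (0, [1], [1, 0]), (1, [], [3, 4]), (4, [], [5])]),
  (0, 0, 1, [(0, [0], [2, 5]), (0, [1], [3, 4]), (1, [], [1, 0]), (4, [], [5])]),
  (0, 0, 1, [(0, [0], [3, 5]), (0, [1], [0, 4]), (1, [], [1, 2]), (4, [], [5])]),
  (0, 0, 1, [(0, [0], [3, 5]), (0, [1], [1, 2]), (1, [], [0, 4]), (4, [], [5])]),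
  (0, 0, 1, [(0, [0], [4, 5]), (0, [1], [0, 3]), (1, [], [1, 2]), (4, [], [5])]),
  (0, 0, 1, [(0, [0], [4, 5]), (0, [1], [1, 2]), (1, [], [0, 3]), (4, [], [5])]),
  (0, 0, 1, [(0, [1], [0, 5]), (0, [0], [1, 2]), (1, [], [3, 4]), (4, [], [5])]),
  (0, 0, 1, [(0, [1], [0, 5]), (0, [0], [3, 4]), (1, [], [1, 2]), (4, [], [5])]),
  (0, 0, 1, [(0, [1], [1, 5]), (0, [0], [0, 3]), (1, [], [2, 4]), (4, [], [5])]),
  (0, 0, 1, [(0, [1], [1, 5]), (0, [0], [0, 4]), (1, [], [2, 3]), (4, [], [5])]),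
  (0, 0, 1, [(0, [1], [1, 5]), (0, [0], [2, 3]), (1, [], [0, 4]), (4, [], [5])]),
  (0, 0, 1, [(0, [1], [1, 5]), (0, [0], [2, 4]), (1, [], [0, 3]), (4, [], [5])]),
  (0, 0, 1, [(0, [1], [1, 5]), (0, [0], [2, 0]), (1, [], [3, 4]), (4, [], [5])]),
  (0, 0, 1, [(0, [1], [1, 5]), (0, [0], [3, 4]), (1, [], [2, 0]), (4, [], [5])]),
  (0, 0, 1, [(0, [1], [2, 5]), (0, [0], [0, 3]), (1, [], [1, 4]), (4, [], [5])]),
  (0, 0, 1, [(0, [1], [2, 5]), (0, [0], [0, 4]), (1, [], [1, 3]), (4, [], [5])]),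
  (0, 0, 1, [(0, [1], [2, 5]), (0, [0], [1, 3]), (1, [], [0, 4]), (4, [], [5])]),
  (0, 0, 1, [(0, [1], [2, 5]), (0, [0], [1, 4]), (1, [], [0, 3]), (4, [], [5])]),
  (0, 0, 1, [(0, [1], [2, 5]), (0, [0], [1, 0]), (1, [], [3, 4]), (4, [], [5])]),
  (0, 0, 1, [(0, [1], [2, 5]), (0, [0], [3, 4]), (1, [], [1, 0]), (4, [], [5])]),
  (0, 0, 1, [(0, [1], [3, 5]), (0, [0], [0, 4]), (1, [], [1, 2]), (4, [], [5])]),
  (0, 0, 1, [(0, [1], [3, 5]), (0, [0], [1, 2]), (1, [], [0, 4]), (4, [], [5])]),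
  (0, 0, 1, [(0, [1], [4, 5]), (0, [0], [0, 3]), (1, [], [1, 2]), (4, [], [5])]),
  (0, 0, 1, [(0, [1], [4, 5]), (0, [0], [1, 2]), (1, [], [0, 3]), (4, [], [5])])]

def w62_3 : List (List Wit) := [[(0, 0, 0, 0, 0), (1, 0, 0, 0, 0), (24, 0, 0, 0, 0), (1, 0, 0, 0, 0), (24, 0, 0, 0, 0), (0, 0, 0, 0, 0), (2, 0, 0, 0, 0), (3, 0, 0, 0, 0), (24, 0, 0, 0, 0), (3, 0, 0, 0, 0), (24, 0, 0, 0, 0), (2, 0, 0, 0, 0), (2, 0, 0, 0, 0), (25, 0, 0, 0, 0), (0, 0, 0, 0, 0), (25, 0, 0, 0, 0), (3, 0, 0, 0, 0), (25, 0, 0, 0, 0), (1, 0, 0, 0, 0), (25, 0, 0, 0, 0), (26, 0, 0, 0, 0), (27, 0, 0, 0, 0), (28, 0, 0, 0, 0), (29, 0, 0, 0, 0), (30, 0, 0, 0, 0), (29, 0, 0, 0, 0), (30, 0, 0, 0, 0), (28, 0, 0, 0, 0), (26, 0, 0, 0, 0), (31, 0, 0, 0, 0), (27, 0, 0, 0, 0), (31, 0, 0, 0, 0), (32, 0, 0, 0, 0), (33, 0, 0, 0, 0), (34, 0, 0, 0, 0), (35, 0, 0, 0, 0), (36, 0, 0, 0, 0), (35, 0, 0, 0, 0),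 (36, 0, 0, 0, 0), (34, 0, 0, 0, 0), (32, 0, 0, 0, 0), (37, 0, 0, 0, 0), (33, 0, 0, 0, 0), (37, 0, 0, 0, 0), (4, 0, 0, 0, 0), (38, 0, 0, 0, 0), (5, 0, 0, 0, 0), (38, 0, 0, 0, 0), (39, 0, 0, 0, 0), (6, 0, 0, 0, 0), (5, 0, 0, 0, 0), (6, 0, 0, 0, 0), (5, 0, 0, 0, 0), (39, 0, 0, 0, 0), (39, 0, 0, 0, 0), (7, 0, 0, 0, 0), (4, 0, 0, 0, 0), (7, 0, 0, 0, 0), (4, 0, 0, 0, 0), (39, 0, 0, 0, 0), (38, 0, 0, 0, 0), (7, 0, 0, 0, 0), (38, 0, 0, 0, 0), (6, 0, 0, 0, 0), (8, 0, 0, 0, 0), (40, 0, 0, 0, 0), (9, 0, 0, 0, 0), (40, 0, 0, 0, 0), (41, 0, 0, 0, 0), (10, 0, 0, 0, 0), (9, 0, 0, 0, 0), (10, 0, 0, 0, 0), (9, 0, 0, 0, 0), (41, 0, 0, 0, 0), (41, 0, 0, 0, 0), (11, 0, 0, 0, 0), (8, 0, 0, 0, 0), (11, 0, 0, 0, 0), (8, 0, 0, 0, 0), (41, 0, 0, 0, 0), (40, 0, 0, 0, 0), (11, 0, 0, 0, 0), (40, 0, 0, 0, 0), (10, 0, 0, 0, 0)],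
  [(12, 0, 0, 0, 0), (13, 0, 0, 0, 0), (42, 0, 0, 0, 0), (13, 0, 0, 0, 0), (42, 0, 0, 0, 0), (12, 0, 0, 0, 0), (14, 0, 0, 0, 0), (15, 0, 0, 0, 0), (42, 0, 0, 0, 0), (15, 0, 0, 0, 0), (42, 0, 0, 0, 0), (14, 0, 0, 0, 0), (14, 0, 0, 0, 0), (43, 0, 0, 0, 0), (12, 0, 0, 0, 0), (43, 0, 0, 0, 0), (15, 0, 0, 0, 0), (43, 0, 0, 0, 0), (13, 0, 0, 0, 0), (43, 0, 0, 0, 0), (44, 0, 0, 0, 0), (45, 0, 0, 0, 0), (46, 0, 0, 0, 0), (47, 0, 0, 0, 0), (48, 0, 0, 0, 0), (47, 0, 0, 0, 0), (48, 0, 0, 0, 0), (46, 0, 0, 0, 0), (44, 0, 0, 0, 0), (49, 0, 0, 0, 0), (45, 0, 0, 0, 0), (49, 0, 0, 0, 0), (50, 0, 0, 0, 0), (51, 0, 0, 0, 0), (52, 0, 0, 0, 0), (53, 0, 0, 0, 0), (54, 0, 0, 0, 0), (53, 0, 0, 0, 0), (54, 0, 0, 0, 0), (52, 0, 0, 0, 0), (50, 0, 0, 0, 0), (55, 0, 0, 0, 0), (51, 0, 0, 0, 0), (55, 0, 0, 0, 0), (16, 0, 0, 0, 0), (56, 0, 0, 0, 0), (17, 0, 0, 0, 0), (56, 0, 0, 0, 0),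 (57, 0, 0, 0, 0), (18, 0, 0, 0, 0), (17, 0, 0, 0, 0), (18, 0, 0, 0, 0), (17, 0, 0, 0, 0), (57, 0, 0, 0, 0), (57, 0, 0, 0, 0), (19, 0, 0, 0, 0), (16, 0, 0, 0, 0), (19, 0, 0, 0, 0), (16, 0, 0, 0, 0), (57, 0, 0, 0, 0), (56, 0, 0, 0, 0), (19, 0, 0, 0, 0), (56, 0, 0, 0, 0), (18, 0, 0, 0, 0), (20, 0, 0, 0, 0), (58, 0, 0, 0, 0), (21, 0, 0, 0, 0), (58, 0, 0, 0, 0), (59, 0, 0, 0, 0), (22, 0, 0, 0, 0), (21, 0, 0, 0, 0), (22, 0, 0, 0, 0), (21, 0, 0, 0, 0), (59, 0, 0, 0, 0), (59, 0, 0, 0, 0), (23, 0, 0, 0, 0), (20, 0, 0, 0, 0), (23, 0, 0, 0, 0), (20, 0, 0, 0, 0), (59, 0, 0, 0, 0), (58, 0, 0, 0, 0), (23, 0, 0, 0, 0), (58, 0, 0, 0, 0), (22, 0, 0, 0, 0)]]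

def m62_4 : Base := (0, 1, [(0, [0], [0, 5]), (0, [1], [1, 3]), (1, [], [4, 5]), (4, [], [2])])

def l62_4 : Cov := [(96, 0, 1, [(0, [0], [0, 5]), (0, [1], [1, 3]), (1, [], [4, 5]), (4, [], [2])]),
  (-96, 0, 1, [(0, [0], [0, 5]), (0, [1], [1, 4]), (1, [], [3, 5]), (4, [], [2])]),
  (48, 0, 1, [(0, [0], [0, 5]), (0, [1], [1, 2]), (1, [], [4, 5]), (4, [], [3])]),
  (-24, 0, 1, [(0, [0], [0, 5]), (0, [1], [1, 4]), (1, [], [2, 5]), (4, [], [3])]),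
  (-48, 0, 1, [(0, [0], [0, 5]), (0, [1], [1, 2]), (1, [], [3, 5]), (4, [], [4])]),
  (24, 0, 1, [(0, [0], [0, 5]), (0, [1], [1, 3]), (1, [], [2, 5]), (4, [], [4])]),
  (96, 0, 1, [(0, [0], [0, 5]), (0, [1], [2, 3]), (1, [], [4, 5]), (4, [], [1])]),
  (-96, 0, 1, [(0, [0], [0, 5]), (0, [1], [2, 4]), (1, [], [3, 5]), (4, [], [1])]),
  (-24, 0, 1, [(0, [0], [0, 5]), (0, [1], [2, 4]), (1, [], [1, 5]), (4, [], [3])]),
  (24, 0, 1, [(0, [0], [0, 5]), (0, [1], [2, 3]), (1, [], [1, 5]), (4, [], [4])]),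
  (24, 0, 1, [(0, [0], [1, 5]), (0, [1], [2, 3]), (1, [], [4, 5]), (4, [], [0])]),
  (-24, 0, 1, [(0, [0], [1, 5]), (0, [1], [2, 4]), (1, [], [3, 5]), (4, [], [0])]),
  (-24, 0, 1, [(0, [0], [1, 5]), (0, [1], [2, 0]), (1, [], [4, 5]), (4, [], [3])]),
  (24, 0, 1, [(0, [0], [1, 5]), (0, [1], [2, 4]), (1, [], [0, 5]), (4, [], [3])]),
  (24, 0, 1, [(0, [0], [1, 5]), (0, [1], [2, 0]), (1, [], [3, 5]), (4, [], [4])]),
  (-24, 0, 1, [(0, [0], [1, 5]), (0, [1], [2, 3]), (1, [], [0, 5]), (4, [], [4])]),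
  (24, 0, 1, [(0, [0], [2, 5]), (0, [1], [1, 3]), (1, [], [4, 5]), (4, [], [0])]),
  (-24, 0, 1, [(0, [0], [2, 5]), (0, [1], [1, 4]), (1, [], [3, 5]), (4, [], [0])]),
  (-24, 0, 1, [(0, [0], [2, 5]), (0, [1], [1, 0]), (1, [], [4, 5]), (4, [], [3])]),
  (24, 0, 1, [(0, [0], [2, 5]), (0, [1], [1, 4]), (1, [], [0, 5]), (4, [], [3])]),
  (24, 0, 1, [(0, [0], [2, 5]), (0, [1], [1, 0]), (1, [], [3, 5]), (4, [], [4])]),
  (-24, 0, 1, [(0, [0], [2, 5]), (0, [1], [1, 3]), (1, [], [0, 5]), (4, [], [4])]),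
  (-96, 0, 1, [(0, [0], [3, 5]), (0, [1], [0, 2]), (1, [], [4, 5]), (4, [], [1])]),
  (-96, 0, 1, [(0, [0], [3, 5]), (0, [1], [0, 1]), (1, [], [4, 5]), (4, [], [2])]),
  (-48, 0, 1, [(0, [0], [3, 5]), (0, [1], [1, 2]), (1, [], [4, 5]), (4, [], [0])]),
  (24, 0, 1, [(0, [0], [3, 5]), (0, [1], [1, 4]), (1, [], [2, 5]), (4, [], [0])]),
  (96, 0, 1, [(0, [0], [3, 5]), (0, [1], [1, 4]), (1, [], [0, 5]), (4, [], [2])]),
  (-24, 0, 1, [(0, [0], [3, 5]), (0, [1], [1, 0]), (1, [], [2, 5]), (4, [], [4])]),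
  (48, 0, 1, [(0, [0], [3, 5]), (0, [1], [1, 2]), (1, [], [0, 5]), (4, [], [4])]),
  (24, 0, 1, [(0, [0], [3, 5]), (0, [1], [2, 4]), (1, [], [1, 5]), (4, [], [0])]),
  (96, 0, 1, [(0, [0], [3, 5]), (0, [1], [2, 4]), (1, [], [0, 5]), (4, [], [1])]),
  (-24, 0, 1, [(0, [0], [3, 5]), (0, [1], [2, 0]), (1, [], [1, 5]), (4, [], [4])]),
  (96, 0, 1, [(0, [0], [4, 5]), (0, [1], [0, 2]), (1, [], [3, 5]), (4, [], [1])]),
  (96, 0, 1, [(0, [0], [4, 5]), (0, [1], [0, 1]), (1, [], [3, 5]), (4, [], [2])]),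
  (48, 0, 1, [(0, [0], [4, 5]), (0, [1], [1, 2]), (1, [], [3, 5]), (4, [], [0])]),
  (-24, 0, 1, [(0, [0], [4, 5]), (0, [1], [1, 3]), (1, [], [2, 5]), (4, [], [0])]),
  (-96, 0, 1, [(0, [0], [4, 5]), (0, [1], [1, 3]), (1, [], [0, 5]), (4, [], [2])]),
  (24, 0, 1, [(0, [0], [4, 5]), (0, [1], [1, 0]), (1, [], [2, 5]), (4, [], [3])]),
  (-48, 0, 1, [(0, [0], [4, 5]), (0, [1], [1, 2]), (1, [], [0, 5]), (4, [], [3])]),
  (-24, 0, 1, [(0, [0], [4, 5]), (0, [1], [2, 3]), (1, [], [1, 5]), (4, [], [0])]),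
  (-96, 0, 1, [(0, [0], [4, 5]), (0, [1], [2, 3]), (1, [], [0, 5]), (4, [], [1])]),
  (24, 0, 1, [(0, [0], [4, 5]), (0, [1], [2, 0]), (1, [], [1, 5]), (4, [], [3])]),
  (-96, 0, 1, [(0, [1], [0, 5]), (0, [0], [1, 3]), (1, [], [4, 5]), (4, [], [2])]),
  (96, 0, 1, [(0, [1], [0, 5]), (0, [0], [1, 4]), (1, [], [3, 5]), (4, [], [2])]),
  (-48, 0, 1, [(0, [1], [0, 5]), (0, [0], [1, 2]), (1, [], [4, 5]), (4, [], [3])]),
  (24, 0, 1, [(0, [1], [0, 5]), (0, [0], [1, 4]), (1, [], [2, 5]), (4, [], [3])]),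
  (48, 0, 1, [(0, [1], [0, 5]), (0, [0], [1, 2]), (1, [], [3, 5]), (4, [], [4])]),
  (-24, 0, 1, [(0, [1], [0, 5]), (0, [0], [1, 3]), (1, [], [2, 5]), (4, [], [4])]),
  (-96, 0, 1, [(0, [1], [0, 5]), (0, [0], [2, 3]), (1, [], [4, 5]), (4, [], [1])]),
  (96, 0, 1, [(0, [1], [0, 5]), (0, [0], [2, 4]), (1, [], [3, 5]), (4, [], [1])]),
  (24, 0, 1, [(0, [1], [0, 5]), (0, [0], [2, 4]), (1, [], [1, 5]), (4, [], [3])]),
  (-24, 0, 1, [(0, [1], [0, 5]), (0, [0], [2, 3]), (1, [], [1, 5]), (4, [], [4])]),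
  (-24, 0, 1, [(0, [1], [1, 5]), (0, [0], [2, 3]), (1, [], [4, 5]), (4, [], [0])]),
  (24, 0, 1, [(0, [1], [1, 5]), (0, [0], [2, 4]), (1, [], [3, 5]), (4, [], [0])]),
  (24, 0, 1, [(0, [1], [1, 5]), (0, [0], [2, 0]), (1, [], [4, 5]), (4, [], [3])]),
  (-24, 0, 1, [(0, [1], [1, 5]), (0, [0], [2, 4]), (1, [], [0, 5]), (4, [], [3])]),
  (-24, 0, 1, [(0, [1], [1, 5]), (0, [0], [2, 0]), (1, [], [3, 5]), (4, [], [4])]),
  (24, 0, 1, [(0, [1], [1, 5]), (0, [0], [2, 3]), (1, [], [0, 5]), (4, [], [4])]),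
  (-24, 0, 1, [(0, [1], [2, 5]), (0, [0], [1, 3]), (1, [], [4, 5]), (4, [], [0])]),
  (24, 0, 1, [(0, [1], [2, 5]), (0, [0], [1, 4]), (1, [], [3, 5]), (4, [], [0])]),
  (24, 0, 1, [(0, [1], [2, 5]), (0, [0], [1, 0]), (1, [], [4, 5]), (4, [], [3])]),
  (-24, 0, 1, [(0, [1], [2, 5]), (0, [0], [1, 4]), (1, [], [0, 5]), (4, [], [3])]),
  (-24, 0, 1, [(0, [1], [2, 5]), (0, [0], [1, 0]), (1, [], [3, 5]), (4, [], [4])]),
  (24, 0, 1, [(0, [1], [2, 5]), (0, [0], [1, 3]), (1, [], [0, 5]), (4, [], [4])]),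
  (96, 0, 1, [(0, [1], [3, 5]), (0, [0], [0, 2]), (1, [], [4, 5]), (4, [], [1])]),
  (96, 0, 1, [(0, [1], [3, 5]), (0, [0], [0, 1]), (1, [], [4, 5]), (4, [], [2])]),
  (48, 0, 1, [(0, [1], [3, 5]), (0, [0], [1, 2]), (1, [], [4, 5]), (4, [], [0])]),
  (-24, 0, 1, [(0, [1], [3, 5]), (0, [0], [1, 4]), (1, [], [2, 5]), (4, [], [0])]),
  (-96, 0, 1, [(0, [1], [3, 5]), (0, [0], [1, 4]), (1, [], [0, 5]), (4, [], [2])]),
  (24, 0, 1, [(0, [1], [3, 5]), (0, [0], [1, 0]), (1, [], [2, 5]), (4, [], [4])]),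
  (-48, 0, 1, [(0, [1], [3, 5]), (0, [0], [1, 2]), (1, [], [0, 5]), (4, [], [4])]),
  (-24, 0, 1, [(0, [1], [3, 5]), (0, [0], [2, 4]), (1, [], [1, 5]), (4, [], [0])]),
  (-96, 0, 1, [(0, [1], [3, 5]), (0, [0], [2, 4]), (1, [], [0, 5]), (4, [], [1])]),
  (24, 0, 1, [(0, [1], [3, 5]), (0, [0], [2, 0]), (1, [], [1, 5]), (4, [], [4])]),
  (-96, 0, 1, [(0, [1], [4, 5]), (0, [0], [0, 2]), (1, [], [3, 5]), (4, [], [1])]),
  (-96, 0, 1, [(0, [1], [4, 5]), (0, [0], [0, 1]), (1, [], [3, 5]), (4, [], [2])]),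
  (-48, 0, 1, [(0, [1], [4, 5]), (0, [0], [1, 2]), (1, [], [3, 5]), (4, [], [0])]),
  (24, 0, 1, [(0, [1], [4, 5]), (0, [0], [1, 3]), (1, [], [2, 5]), (4, [], [0])]),
  (96, 0, 1, [(0, [1], [4, 5]), (0, [0], [1, 3]), (1, [], [0, 5]), (4, [], [2])]),
  (-24, 0, 1, [(0, [1], [4, 5]), (0, [0], [1, 0]), (1, [], [2, 5]), (4, [], [3])]),
  (48, 0, 1, [(0, [1], [4, 5]), (0, [0], [1, 2]), (1, [], [0, 5]), (4, [], [3])]),
  (24, 0, 1, [(0, [1], [4, 5]), (0, [0], [2, 3]), (1, [], [1, 5]), (4, [], [0])]),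
  (96, 0, 1, [(0, [1], [4, 5]), (0, [0], [2, 3]), (1, [], [0, 5]), (4, [], [1])]),
  (-24, 0, 1, [(0, [1], [4, 5]), (0, [0], [2, 0]), (1, [], [1, 5]), (4, [], [3])])]

def z62_4 : Cov := [(0, 0, 1, [(0, [0], [0, 5]), (0, [1], [3, 4]), (1, [], [2, 5]), (4, [], [1])]),
  (0, 0, 1, [(0, [0], [0, 5]), (0, [1], [3, 4]), (1, [], [1, 5]), (4, [], [2])]),
  (0, 0, 1, [(0, [0], [1, 5]), (0, [1], [0, 3]), (1, [], [4, 5]), (4, [], [2])]),
  (0, 0, 1, [(0, [0], [1, 5]), (0, [1], [0, 4]), (1, [], [3, 5]), (4, [], [2])]),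
  (0, 0, 1, [(0, [0], [1, 5]), (0, [1], [3, 4]), (1, [], [0, 5]), (4, [], [2])]),
  (0, 0, 1, [(0, [0], [2, 5]), (0, [1], [0, 3]), (1, [], [4, 5]), (4, [], [1])]),
  (0, 0, 1, [(0, [0], [2, 5]), (0, [1], [0, 4]), (1, [], [3, 5]), (4, [], [1])]),
  (0, 0, 1, [(0, [0], [2, 5]), (0, [1], [3, 4]), (1, [], [0, 5]), (4, [], [1])]),
  (0, 0, 1, [(0, [0], [3, 5]), (0, [1], [0, 4]), (1, [], [2, 5]), (4, [], [1])]),
  (0, 0, 1, [(0, [0], [3, 5]), (0, [1], [0, 4]), (1, [], [1, 5]), (4, [], [2])]),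
  (0, 0, 1, [(0, [0], [4, 5]), (0, [1], [0, 3]), (1, [], [2, 5]), (4, [], [1])]),
  (0, 0, 1, [(0, [0], [4, 5]), (0, [1], [0, 3]), (1, [], [1, 5]), (4, [], [2])]),
  (0, 0, 1, [(0, [1], [0, 5]), (0, [0], [3, 4]), (1, [], [2, 5]), (4, [], [1])]),
  (0, 0, 1, [(0, [1], [0, 5]), (0, [0], [3, 4]), (1, [], [1, 5]), (4, [], [2])]),
  (0, 0, 1, [(0, [1], [1, 5]), (0, [0], [0, 3]), (1, [], [4, 5]), (4, [], [2])]),
  (0, 0, 1, [(0, [1], [1, 5]), (0, [0], [0, 4]), (1, [], [3, 5]), (4, [], [2])]),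
  (0, 0, 1, [(0, [1], [1, 5]), (0, [0], [3, 4]), (1, [], [0, 5]), (4, [], [2])]),
  (0, 0, 1, [(0, [1], [2, 5]), (0, [0], [0, 3]), (1, [], [4, 5]), (4, [], [1])]),
  (0, 0, 1, [(0, [1], [2, 5]), (0, [0], [0, 4]), (1, [], [3, 5]), (4, [], [1])]),
  (0, 0, 1, [(0, [1], [2, 5]), (0, [0], [3, 4]), (1, [], [0, 5]), (4, [], [1])]),
  (0, 0, 1, [(0, [1], [3, 5]), (0, [0], [0, 4]), (1, [], [2, 5]), (4, [], [1])]),
  (0, 0, 1, [(0, [1], [3, 5]), (0, [0], [0, 4]), (1, [], [1, 5]), (4, [], [2])]),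
  (0, 0, 1, [(0, [1], [4, 5]), (0, [0], [0, 3]), (1, [], [2, 5]), (4, [], [1])]),
  (0, 0, 1, [(0, [1], [4, 5]), (0, [0], [0, 3]), (1, [], [1, 5]), (4, [], [2])])]

def w62_4 : List (List Wit) := [[(0, 0, 0, 0, 0), (1, 0, 0, 0, 0), (2, 0, 0, 0, 0), (3, 0, 0, 0, 0), (4, 0, 0, 0, 0), (5, 0, 0, 0, 0), (6, 0, 0, 0, 0), (7, 0, 0, 0, 0), (2, 0, 0, 0, 0), (8, 0, 0, 0, 0), (4, 0, 0, 0, 0), (9, 0, 0, 0, 0), (6, 0, 0, 0, 0), (84, 0, 0, 0, 0), (0, 0, 0, 0, 0), (85, 0, 0, 0, 0), (7, 0, 0, 0, 0), (84, 0, 0, 0, 0), (1, 0, 0, 0, 0), (85, 0, 0, 0, 0), (86, 0, 0, 0, 0), (87, 0, 0, 0, 0), (10, 0, 0, 0, 0), (11, 0, 0, 0, 0), (12, 0, 0, 0, 0), (13, 0, 0, 0, 0), (14, 0, 0, 0, 0), (15, 0, 0, 0, 0), (86, 0, 0, 0, 0), (88, 0, 0, 0, 0), (87, 0, 0, 0, 0), (88, 0, 0, 0, 0), (89, 0, 0, 0, 0), (90, 0, 0, 0, 0), (16, 0, 0, 0, 0), (17, 0, 0, 0, 0), (18, 0, 0, 0, 0), (19, 0, 0, 0, 0), (20,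 0, 0, 0, 0), (21, 0, 0, 0, 0), (89, 0, 0, 0, 0), (91, 0, 0, 0, 0), (90, 0, 0, 0, 0), (91, 0, 0, 0, 0), (22, 0, 0, 0, 0), (92, 0, 0, 0, 0), (23, 0, 0, 0, 0), (93, 0, 0, 0, 0), (24, 0, 0, 0, 0), (25, 0, 0, 0, 0), (23, 0, 0, 0, 0), (26, 0, 0, 0, 0), (27, 0, 0, 0, 0), (28, 0, 0, 0, 0), (24, 0, 0, 0, 0), (29, 0, 0, 0, 0), (22, 0, 0, 0, 0), (30, 0, 0, 0, 0), (31, 0, 0, 0, 0), (28, 0, 0, 0, 0), (92, 0, 0, 0, 0), (30, 0, 0, 0, 0), (93, 0, 0, 0, 0), (26, 0, 0, 0, 0), (32, 0, 0, 0, 0), (94, 0, 0, 0, 0), (33, 0, 0, 0, 0), (95, 0, 0, 0, 0), (34, 0, 0, 0, 0), (35, 0, 0, 0, 0), (33, 0, 0, 0, 0), (36, 0, 0, 0, 0), (37, 0, 0, 0, 0), (38, 0, 0, 0, 0), (34, 0, 0, 0, 0), (39, 0, 0, 0, 0), (32, 0, 0, 0, 0), (40, 0, 0, 0, 0), (41, 0, 0, 0, 0), (38, 0, 0, 0, 0), (94, 0, 0, 0, 0), (40, 0, 0, 0, 0), (95, 0, 0, 0, 0), (36, 0, 0, 0, 0)],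
  [(42, 0, 0, 0, 0), (43, 0, 0, 0, 0), (44, 0, 0, 0, 0), (45, 0, 0, 0, 0), (46, 0, 0, 0, 0), (47, 0, 0, 0, 0), (48, 0, 0, 0, 0), (49, 0, 0, 0, 0), (44, 0, 0, 0, 0), (50, 0, 0, 0, 0), (46, 0, 0, 0, 0), (51, 0, 0, 0, 0), (48, 0, 0, 0, 0), (96, 0, 0, 0, 0), (42, 0, 0, 0, 0), (97, 0, 0, 0, 0), (49, 0, 0, 0, 0), (96, 0, 0, 0, 0), (43, 0, 0, 0, 0), (97, 0, 0, 0, 0), (98, 0, 0, 0, 0), (99, 0, 0, 0, 0), (52, 0, 0, 0, 0), (53, 0, 0, 0, 0), (54, 0, 0, 0, 0), (55, 0, 0, 0, 0), (56, 0, 0, 0, 0), (57, 0, 0, 0, 0), (98, 0, 0, 0, 0), (100, 0, 0, 0, 0), (99, 0, 0, 0, 0), (100, 0, 0, 0, 0), (101, 0, 0, 0, 0), (102, 0, 0, 0, 0), (58, 0, 0, 0, 0), (59, 0, 0, 0, 0), (60, 0, 0, 0, 0), (61, 0, 0, 0, 0), (62, 0, 0, 0, 0), (63, 0, 0, 0, 0), (101, 0, 0, 0, 0), (103, 0, 0, 0, 0), (102, 0, 0, 0, 0), (103, 0, 0, 0, 0), (64, 0, 0, 0, 0), (104, 0, 0, 0, 0), (65, 0, 0, 0, 0), (105, 0,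 0, 0, 0), (66, 0, 0, 0, 0), (67, 0, 0, 0, 0), (65, 0, 0, 0, 0), (68, 0, 0, 0, 0), (69, 0, 0, 0, 0), (70, 0, 0, 0, 0), (66, 0, 0, 0, 0), (71, 0, 0, 0, 0), (64, 0, 0, 0, 0), (72, 0, 0, 0, 0), (73, 0, 0, 0, 0), (70, 0, 0, 0, 0), (104, 0, 0, 0, 0), (72, 0, 0, 0, 0), (105, 0, 0, 0, 0), (68, 0, 0, 0, 0), (74, 0, 0, 0, 0), (106, 0, 0, 0, 0), (75, 0, 0, 0, 0), (107, 0, 0, 0, 0), (76, 0, 0, 0, 0), (77, 0, 0, 0, 0), (75, 0, 0, 0, 0), (78, 0, 0, 0, 0), (79, 0, 0, 0, 0), (80, 0, 0, 0, 0), (76, 0, 0, 0, 0), (81, 0, 0, 0, 0), (74, 0, 0, 0, 0), (82, 0, 0, 0, 0), (83, 0, 0, 0, 0), (80, 0, 0, 0, 0), (106, 0, 0, 0, 0), (82, 0, 0, 0, 0), (107, 0, 0, 0, 0), (78, 0, 0, 0, 0)]]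

def m62_5 : Base := (0, 1, [(0, [0], [0, 5]), (0, [1], [3, 5]), (1, [], [1, 2]), (4, [], [4])])

def l62_5 : Cov := [(288, 0, 1, [(0, [0], [0, 5]), (0, [1], [3, 5]), (1, [], [1, 2]), (4, [], [4])]),
  (-288, 0, 1, [(0, [0], [0, 5]), (0, [1], [4, 5]), (1, [], [1, 2]), (4, [], [3])]),
  (96, 0, 1, [(0, [0], [0, 5]), (0, [1], [2, 5]), (1, [], [1, 3]), (4, [], [4])]),
  (-96, 0, 1, [(0, [0], [0, 5]), (0, [1], [4, 5]), (1, [], [1, 3]), (4, [], [2])]),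
  (-96, 0, 1, [(0, [0], [0, 5]), (0, [1], [2, 5]), (1, [], [1, 4]), (4, [], [3])]),
  (96, 0, 1, [(0, [0], [0, 5]), (0, [1], [3, 5]), (1, [], [1, 4]), (4, [], [2])]),
  (96, 0, 1, [(0, [0], [0, 5]), (0, [1], [1, 5]), (1, [], [2, 3]), (4, [], [4])]),
  (-96, 0, 1, [(0, [0], [0, 5]), (0, [1], [4, 5]), (1, [], [2, 3]), (4, [], [1])]),
  (-96, 0, 1, [(0, [0], [0, 5]), (0, [1], [1, 5]), (1, [], [2, 4]), (4, [], [3])]),
  (96, 0, 1, [(0, [0], [0, 5]), (0, [1], [3, 5]), (1, [], [2, 4]), (4, [], [1])]),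
  (96, 0, 1, [(0, [0], [1, 5]), (0, [1], [3, 5]), (1, [], [0, 2]), (4, [], [4])]),
  (-96, 0, 1, [(0, [0], [1, 5]), (0, [1], [4, 5]), (1, [], [0, 2]), (4, [], [3])]),
  (-96, 0, 1, [(0, [0], [1, 5]), (0, [1], [0, 5]), (1, [], [2, 3]), (4, [], [4])]),
  (96, 0, 1, [(0, [0], [1, 5]), (0, [1], [4, 5]), (1, [], [2, 3]), (4, [], [0])]),
  (96, 0, 1, [(0, [0], [1, 5]), (0, [1], [0, 5]), (1, [], [2, 4]), (4, [], [3])]),
  (-96, 0, 1, [(0, [0], [1, 5]), (0, [1], [3, 5]), (1, [], [2, 4]), (4, [], [0])]),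
  (96, 0, 1, [(0, [0], [2, 5]), (0, [1], [3, 5]), (1, [], [0, 1]), (4, [], [4])]),
  (-96, 0, 1, [(0, [0], [2, 5]), (0, [1], [4, 5]), (1, [], [0, 1]), (4, [], [3])]),
  (-96, 0, 1, [(0, [0], [2, 5]), (0, [1], [0, 5]), (1, [], [1, 3]), (4, [], [4])]),
  (96, 0, 1, [(0, [0], [2, 5]), (0, [1], [4, 5]), (1, [], [1, 3]), (4, [], [0])]),
  (96, 0, 1, [(0, [0], [2, 5]), (0, [1], [0, 5]), (1, [], [1, 4]), (4, [], [3])]),
  (-96, 0, 1, [(0, [0], [2, 5]), (0, [1], [3, 5]), (1, [], [1, 4]), (4, [], [0])]),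
  (-96, 0, 1, [(0, [0], [3, 5]), (0, [1], [2, 5]), (1, [], [0, 1]), (4, [], [4])]),
  (96, 0, 1, [(0, [0], [3, 5]), (0, [1], [4, 5]), (1, [], [0, 1]), (4, [], [2])]),
  (-96, 0, 1, [(0, [0], [3, 5]), (0, [1], [1, 5]), (1, [], [0, 2]), (4, [], [4])]),
  (96, 0, 1, [(0, [0], [3, 5]), (0, [1], [4, 5]), (1, [], [0, 2]), (4, [], [1])]),
  (-288, 0, 1, [(0, [0], [3, 5]), (0, [1], [0, 5]), (1, [], [1, 2]), (4, [], [4])]),
  (288, 0, 1, [(0, [0], [3, 5]), (0, [1], [4, 5]), (1, [], [1, 2]), (4, [], [0])]),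
  (-96, 0, 1, [(0, [0], [3, 5]), (0, [1], [0, 5]), (1, [], [1, 4]), (4, [], [2])]),
  (96, 0, 1, [(0, [0], [3, 5]), (0, [1], [2, 5]), (1, [], [1, 4]), (4, [], [0])]),
  (-96, 0, 1, [(0, [0], [3, 5]), (0, [1], [0, 5]), (1, [], [2, 4]), (4, [], [1])]),
  (96, 0, 1, [(0, [0], [3, 5]), (0, [1], [1, 5]), (1, [], [2, 4]), (4, [], [0])]),
  (96, 0, 1, [(0, [0], [4, 5]), (0, [1], [2, 5]), (1, [], [0, 1]), (4, [], [3])]),
  (-96, 0, 1, [(0, [0], [4, 5]), (0, [1], [3, 5]), (1, [], [0, 1]), (4, [], [2])]),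
  (96, 0, 1, [(0, [0], [4, 5]), (0, [1], [1, 5]), (1, [], [0, 2]), (4, [], [3])]),
  (-96, 0, 1, [(0, [0], [4, 5]), (0, [1], [3, 5]), (1, [], [0, 2]), (4, [], [1])]),
  (288, 0, 1, [(0, [0], [4, 5]), (0, [1], [0, 5]), (1, [], [1, 2]), (4, [], [3])]),
  (-288, 0, 1, [(0, [0], [4, 5]), (0, [1], [3, 5]), (1, [], [1, 2]), (4, [], [0])]),
  (96, 0, 1, [(0, [0], [4, 5]), (0, [1], [0, 5]), (1, [], [1, 3]), (4, [], [2])]),
  (-96, 0, 1, [(0, [0], [4, 5]), (0, [1], [2, 5]), (1, [], [1, 3]), (4, [], [0])]),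
  (96, 0, 1, [(0, [0], [4, 5]), (0, [1], [0, 5]), (1, [], [2, 3]), (4, [], [1])]),
  (-96, 0, 1, [(0, [0], [4, 5]), (0, [1], [1, 5]), (1, [], [2, 3]), (4, [], [0])])]

def z62_5 : Cov := []

def w62_5 : List (List Wit) := [[(0, 0, 0, 0, 0), (1, 0, 0, 0, 0), (2, 0, 0, 0, 0), (3, 0, 0, 0, 0), (4, 0, 0, 0, 0), (5, 0, 0, 0, 0), (0, 0, 0, 0, 0), (1, 0, 0, 0, 0), (6, 0, 0, 0, 0), (7, 0, 0, 0, 0), (8, 0, 0, 0, 0), (9, 0, 0, 0, 0), (2, 0, 0, 0, 0), (3, 0, 0, 0, 0), (6, 0, 0, 0, 0), (7, 0, 0, 0, 0), (4, 0, 0, 0, 0), (5, 0, 0, 0, 0), (8, 0, 0, 0, 0), (9, 0, 0, 0, 0), (10, 0, 0, 0, 0), (11, 0, 0, 0, 0), (10, 0, 0, 0, 0), (11, 0, 0, 0, 0), (12, 0, 0, 0, 0), (13, 0, 0, 0, 0), (14, 0, 0, 0, 0), (15, 0, 0, 0, 0), (12, 0, 0, 0, 0), (13, 0, 0, 0, 0), (14, 0, 0, 0, 0), (15, 0, 0, 0, 0), (16, 0, 0, 0, 0), (17, 0, 0, 0, 0), (16, 0, 0, 0, 0), (17, 0, 0, 0, 0), (18, 0, 0, 0, 0),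 (19, 0, 0, 0, 0), (20, 0, 0, 0, 0), (21, 0, 0, 0, 0), (18, 0, 0, 0, 0), (19, 0, 0, 0, 0), (20, 0, 0, 0, 0), (21, 0, 0, 0, 0), (22, 0, 0, 0, 0), (23, 0, 0, 0, 0), (24, 0, 0, 0, 0), (25, 0, 0, 0, 0), (22, 0, 0, 0, 0), (23, 0, 0, 0, 0), (26, 0, 0, 0, 0), (27, 0, 0, 0, 0), (28, 0, 0, 0, 0), (29, 0, 0, 0, 0), (24, 0, 0, 0, 0), (25, 0, 0, 0, 0), (26, 0, 0, 0, 0), (27, 0, 0, 0, 0), (30, 0, 0, 0, 0), (31, 0, 0, 0, 0), (28, 0, 0, 0, 0), (29, 0, 0, 0, 0), (30, 0, 0, 0, 0), (31, 0, 0, 0, 0), (32, 0, 0, 0, 0), (33, 0, 0, 0, 0), (34, 0, 0, 0, 0), (35, 0, 0, 0, 0), (32, 0, 0, 0, 0), (33, 0, 0, 0, 0), (36, 0, 0, 0, 0), (37, 0, 0, 0, 0), (38, 0, 0, 0, 0), (39, 0, 0, 0, 0), (34, 0, 0, 0, 0), (35, 0, 0, 0, 0), (36, 0, 0, 0, 0), (37, 0, 0, 0, 0), (40, 0, 0, 0, 0), (41, 0, 0, 0, 0), (38, 0, 0, 0, 0), (39, 0, 0, 0, 0), (40, 0, 0, 0, 0), (41, 0, 0, 0, 0)],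
  [(26, 0, 0, 0, 0), (36, 0, 0, 0, 0), (18, 0, 0, 0, 0), (38, 0, 0, 0, 0), (20, 0, 0, 0, 0), (28, 0, 0, 0, 0), (26, 0, 0, 0, 0), (36, 0, 0, 0, 0), (12, 0, 0, 0, 0), (40, 0, 0, 0, 0), (14, 0, 0, 0, 0), (30, 0, 0, 0, 0), (18, 0, 0, 0, 0), (38, 0, 0, 0, 0), (12, 0, 0, 0, 0), (40, 0, 0, 0, 0), (20, 0, 0, 0, 0), (28, 0, 0, 0, 0), (14, 0, 0, 0, 0), (30, 0, 0, 0, 0), (24, 0, 0, 0, 0), (34, 0, 0, 0, 0), (24, 0, 0, 0, 0), (34, 0, 0, 0, 0), (6, 0, 0, 0, 0), (41, 0, 0, 0, 0), (8, 0, 0, 0, 0), (31, 0, 0, 0, 0), (6, 0, 0, 0, 0), (41, 0, 0, 0, 0), (8, 0, 0, 0, 0), (31, 0, 0, 0, 0), (22, 0, 0, 0, 0), (32, 0, 0, 0, 0), (22, 0, 0, 0, 0), (32, 0, 0, 0, 0), (2, 0, 0, 0, 0), (39, 0, 0, 0, 0), (4, 0, 0, 0, 0), (29, 0, 0, 0, 0), (2, 0, 0, 0, 0), (39, 0, 0, 0, 0), (4, 0, 0, 0, 0), (29, 0, 0, 0, 0), (16, 0, 0, 0, 0), (33, 0, 0, 0, 0), (10, 0, 0, 0, 0), (35, 0, 0, 0, 0), (16, 0,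 0, 0, 0), (33, 0, 0, 0, 0), (0, 0, 0, 0, 0), (37, 0, 0, 0, 0), (5, 0, 0, 0, 0), (21, 0, 0, 0, 0), (10, 0, 0, 0, 0), (35, 0, 0, 0, 0), (0, 0, 0, 0, 0), (37, 0, 0, 0, 0), (9, 0, 0, 0, 0), (15, 0, 0, 0, 0), (5, 0, 0, 0, 0), (21, 0, 0, 0, 0), (9, 0, 0, 0, 0), (15, 0, 0, 0, 0), (17, 0, 0, 0, 0), (23, 0, 0, 0, 0), (11, 0, 0, 0, 0), (25, 0, 0, 0, 0), (17, 0, 0, 0, 0), (23, 0, 0, 0, 0), (1, 0, 0, 0, 0), (27, 0, 0, 0, 0), (3, 0, 0, 0, 0), (19, 0, 0, 0, 0), (11, 0, 0, 0, 0), (25, 0, 0, 0, 0), (1, 0, 0, 0, 0), (27, 0, 0, 0, 0), (7, 0, 0, 0, 0), (13, 0, 0, 0, 0), (3, 0, 0, 0, 0), (19, 0, 0, 0, 0), (7, 0, 0, 0, 0), (13, 0, 0, 0, 0)]]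

def m62_6 : Base := (0, 1, [(0, [0], [0, 1]), (0, [1], [2, 3]), (1, [], [4, 5]), (4, [], [5])])

def l62_6 : Cov := [(240, 0, 1, [(0, [0], [0, 1]), (0, [1], [2, 3]), (1, [], [4, 5]), (4, [], [5])]),
  (-240, 0, 1, [(0, [0], [0, 1]), (0, [1], [2, 4]), (1, [], [3, 5]), (4, [], [5])]),
  (240, 0, 1, [(0, [0], [0, 2]), (0, [1], [1, 3]), (1, [], [4, 5]), (4, [], [5])]),
  (-240, 0, 1, [(0, [0], [0, 2]), (0, [1], [1, 4]), (1, [], [3, 5]), (4, [], [5])]),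
  (-240, 0, 1, [(0, [0], [1, 3]), (0, [1], [2, 0]), (1, [], [4, 5]), (4, [], [5])]),
  (240, 0, 1, [(0, [0], [1, 3]), (0, [1], [2, 4]), (1, [], [0, 5]), (4, [], [5])]),
  (240, 0, 1, [(0, [0], [1, 4]), (0, [1], [2, 0]), (1, [], [3, 5]), (4, [], [5])]),
  (-240, 0, 1, [(0, [0], [1, 4]), (0, [1], [2, 3]), (1, [], [0, 5]), (4, [], [5])]),
  (-240, 0, 1, [(0, [0], [2, 3]), (0, [1], [1, 0]), (1, [], [4, 5]), (4, [], [5])]),
  (240, 0, 1, [(0, [0], [2, 3]), (0, [1], [1, 4]), (1, [], [0, 5]), (4, [], [5])]),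
  (240, 0, 1, [(0, [0], [2, 4]), (0, [1], [1, 0]), (1, [], [3, 5]), (4, [], [5])]),
  (-240, 0, 1, [(0, [0], [2, 4]), (0, [1], [1, 3]), (1, [], [0, 5]), (4, [], [5])])]

def z62_6 : Cov := [(0, 0, 1, [(0, [0], [0, 1]), (0, [1], [3, 4]), (1, [], [2, 5]), (4, [], [5])]),
  (0, 0, 1, [(0, [0], [0, 2]), (0, [1], [3, 4]), (1, [], [1, 5]), (4, [], [5])]),
  (0, 0, 1, [(0, [0], [0, 3]), (0, [1], [1, 2]), (1, [], [4, 5]), (4, [], [5])]),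
  (0, 0, 1, [(0, [0], [0, 3]), (0, [1], [1, 4]), (1, [], [2, 5]), (4, [], [5])]),
  (0, 0, 1, [(0, [0], [0, 3]), (0, [1], [2, 4]), (1, [], [1, 5]), (4, [], [5])]),
  (0, 0, 1, [(0, [0], [0, 4]), (0, [1], [1, 2]), (1, [], [3, 5]), (4, [], [5])]),
  (0, 0, 1, [(0, [0], [0, 4]), (0, [1], [1, 3]), (1, [], [2, 5]), (4, [], [5])]),
  (0, 0, 1, [(0, [0], [0, 4]), (0, [1], [2, 3]), (1, [], [1, 5]), (4, [], [5])]),
  (0, 0, 1, [(0, [0], [1, 2]), (0, [1], [0, 3]), (1, [], [4, 5]), (4, [], [5])]),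
  (0, 0, 1, [(0, [0], [1, 2]), (0, [1], [0, 4]), (1, [], [3, 5]), (4, [], [5])]),
  (0, 0, 1, [(0, [0], [1, 2]), (0, [1], [3, 4]), (1, [], [0, 5]), (4, [], [5])]),
  (0, 0, 1, [(0, [0], [3, 1]), (0, [1], [0, 4]), (1, [], [2, 5]), (4, [], [5])]),
  (0, 0, 1, [(0, [0], [3, 2]), (0, [1], [0, 4]), (1, [], [1, 5]), (4, [], [5])]),
  (0, 0, 1, [(0, [0], [3, 4]), (0, [1], [1, 0]), (1, [], [2, 5]), (4, [], [5])]),
  (0, 0, 1, [(0, [0], [3, 4]), (0, [1], [1, 2]), (1, [], [0, 5]), (4, [], [5])]),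
  (0, 0, 1, [(0, [0], [3, 4]), (0, [1], [2, 0]), (1, [], [1, 5]), (4, [], [5])]),
  (0, 0, 1, [(0, [0], [4, 1]), (0, [1], [0, 3]), (1, [], [2, 5]), (4, [], [5])]),
  (0, 0, 1, [(0, [0], [4, 2]), (0, [1], [0, 3]), (1, [], [1, 5]), (4, [], [5])])]

def w62_6 : List (List Wit) := [[(0, 0, 0, 0, 0), (1, 0, 0, 0, 0), (0, 0, 0, 0, 0), (12, 0, 0, 0, 0), (1, 0, 0, 0, 0), (12, 0, 0, 0, 0), (2, 0, 0, 0, 0), (3, 0, 0, 0, 0), (2, 0, 0, 0, 0), (13, 0, 0, 0, 0), (3, 0, 0, 0, 0), (13, 0, 0, 0, 0), (14, 0, 0, 0, 0), (15, 0, 0, 0, 0), (14, 0, 0, 0, 0), (16, 0, 0, 0, 0), (17, 0, 0, 0, 0), (18, 0, 0, 0, 0), (17, 0, 0, 0, 0), (19, 0, 0, 0, 0), (0, 0, 0, 0, 0), (1, 0, 0, 0, 0), (20, 0, 0, 0, 0), (21, 0, 0, 0, 0), (20, 0, 0, 0, 0), (22, 0, 0, 0, 0), (21, 0, 0, 0, 0), (22, 0, 0, 0, 0), (4, 0, 0, 0, 0), (5, 0, 0, 0, 0), (6, 0, 0, 0, 0), (7, 0, 0, 0, 0), (2, 0, 0, 0, 0), (3, 0, 0,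 0, 0), (20, 0, 0, 0, 0), (21, 0, 0, 0, 0), (20, 0, 0, 0, 0), (22, 0, 0, 0, 0), (21, 0, 0, 0, 0), (22, 0, 0, 0, 0), (8, 0, 0, 0, 0), (9, 0, 0, 0, 0), (10, 0, 0, 0, 0), (11, 0, 0, 0, 0), (14, 0, 0, 0, 0), (15, 0, 0, 0, 0), (14, 0, 0, 0, 0), (16, 0, 0, 0, 0), (4, 0, 0, 0, 0), (23, 0, 0, 0, 0), (4, 0, 0, 0, 0), (5, 0, 0, 0, 0), (23, 0, 0, 0, 0), (5, 0, 0, 0, 0), (8, 0, 0, 0, 0), (24, 0, 0, 0, 0), (8, 0, 0, 0, 0), (9, 0, 0, 0, 0), (24, 0, 0, 0, 0), (9, 0, 0, 0, 0), (25, 0, 0, 0, 0), (26, 0, 0, 0, 0), (27, 0, 0, 0, 0), (26, 0, 0, 0, 0), (17, 0, 0, 0, 0), (18, 0, 0, 0, 0), (17, 0, 0, 0, 0), (19, 0, 0, 0, 0), (6, 0, 0, 0, 0), (28, 0, 0, 0, 0), (6, 0, 0, 0, 0), (7, 0, 0, 0, 0), (28, 0, 0, 0, 0), (7, 0, 0, 0, 0), (10, 0, 0, 0, 0), (29, 0, 0, 0, 0), (10, 0, 0, 0, 0), (11, 0, 0, 0, 0), (29, 0, 0, 0, 0), (11, 0, 0, 0, 0), (25, 0, 0, 0, 0), (26, 0, 0, 0, 0), (27, 0, 0,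 0, 0), (26, 0, 0, 0, 0)],
  [(8, 0, 0, 0, 0), (10, 0, 0, 0, 0), (8, 0, 0, 0, 0), (25, 0, 0, 0, 0), (10, 0, 0, 0, 0), (25, 0, 0, 0, 0), (4, 0, 0, 0, 0), (6, 0, 0, 0, 0), (4, 0, 0, 0, 0), (27, 0, 0, 0, 0), (6, 0, 0, 0, 0), (27, 0, 0, 0, 0), (20, 0, 0, 0, 0), (28, 0, 0, 0, 0), (20, 0, 0, 0, 0), (29, 0, 0, 0, 0), (21, 0, 0, 0, 0), (23, 0, 0, 0, 0), (21, 0, 0, 0, 0), (24, 0, 0, 0, 0), (8, 0, 0, 0, 0), (10, 0, 0, 0, 0), (14, 0, 0, 0, 0), (17, 0, 0, 0, 0), (14, 0, 0, 0, 0), (26, 0, 0, 0, 0), (17, 0, 0, 0, 0), (26, 0, 0, 0, 0), (2, 0, 0, 0, 0), (11, 0, 0, 0, 0), (3, 0, 0, 0, 0), (9, 0, 0, 0, 0), (4, 0, 0, 0, 0), (6, 0, 0, 0, 0), (14, 0, 0, 0, 0), (17, 0, 0, 0, 0), (14, 0, 0, 0, 0), (26, 0, 0, 0, 0), (17, 0, 0, 0, 0), (26, 0, 0, 0, 0), (0, 0, 0, 0, 0), (7, 0, 0, 0, 0), (1, 0, 0, 0, 0), (5, 0, 0, 0, 0), (20, 0, 0, 0, 0), (28, 0, 0, 0, 0), (20, 0, 0, 0, 0), (29, 0,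 0, 0, 0), (2, 0, 0, 0, 0), (18, 0, 0, 0, 0), (2, 0, 0, 0, 0), (11, 0, 0, 0, 0), (18, 0, 0, 0, 0), (11, 0, 0, 0, 0), (0, 0, 0, 0, 0), (19, 0, 0, 0, 0), (0, 0, 0, 0, 0), (7, 0, 0, 0, 0), (19, 0, 0, 0, 0), (7, 0, 0, 0, 0), (12, 0, 0, 0, 0), (22, 0, 0, 0, 0), (13, 0, 0, 0, 0), (22, 0, 0, 0, 0), (21, 0, 0, 0, 0), (23, 0, 0, 0, 0), (21, 0, 0, 0, 0), (24, 0, 0, 0, 0), (3, 0, 0, 0, 0), (15, 0, 0, 0, 0), (3, 0, 0, 0, 0), (9, 0, 0, 0, 0), (15, 0, 0, 0, 0), (9, 0, 0, 0, 0), (1, 0, 0, 0, 0), (16, 0, 0, 0, 0), (1, 0, 0, 0, 0), (5, 0, 0, 0, 0), (16, 0, 0, 0, 0), (5, 0, 0, 0, 0), (12, 0, 0, 0, 0), (22, 0, 0, 0, 0), (13, 0, 0, 0, 0), (22, 0, 0, 0, 0)]]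

def m62_7 : Base := (0, 0, [(0, [0], [0, 1]), (0, [1], [2, 3]), (4, [], [4])])

def l62_7 : Cov := [(240, 0, 0, [(0, [0], [0, 1]), (0, [1], [2, 3]), (4, [], [4])]),
  (-240, 0, 0, [(0, [0], [0, 1]), (0, [1], [2, 4]), (4, [], [3])]),
  (240, 0, 0, [(0, [0], [0, 2]), (0, [1], [1, 3]), (4, [], [4])]),
  (-240, 0, 0, [(0, [0], [0, 2]), (0, [1], [1, 4]), (4, [], [3])]),
  (-240, 0, 0, [(0, [0], [1, 3]), (0, [1], [2, 0]), (4, [], [4])]),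
  (240, 0, 0, [(0, [0], [1, 3]), (0, [1], [2, 4]), (4, [], [0])]),
  (240, 0, 0, [(0, [0], [1, 4]), (0, [1], [2, 0]), (4, [], [3])]),
  (-240, 0, 0, [(0, [0], [1, 4]), (0, [1], [2, 3]), (4, [], [0])]),
  (-240, 0, 0, [(0, [0], [2, 3]), (0, [1], [1, 0]), (4, [], [4])]),
  (240, 0, 0, [(0, [0], [2, 3]), (0, [1], [1, 4]), (4, [], [0])]),
  (240, 0, 0, [(0, [0], [2, 4]), (0, [1], [1, 0]), (4, [], [3])]),
  (-240, 0, 0, [(0, [0], [2, 4]), (0, [1], [1, 3]), (4, [], [0])])]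

def z62_7 : Cov := [(0, 0, 0, [(0, [0], [0, 1]), (0, [1], [3, 4]), (4, [], [2])]),
  (0, 0, 0, [(0, [0], [0, 2]), (0, [1], [3, 4]), (4, [], [1])]),
  (0, 0, 0, [(0, [0], [0, 3]), (0, [1], [1, 2]), (4, [], [4])]),
  (0, 0, 0, [(0, [0], [0, 3]), (0, [1], [1, 4]), (4, [], [2])]),
  (0, 0, 0, [(0, [0], [0, 3]), (0, [1], [2, 4]), (4, [], [1])]),
  (0, 0, 0, [(0, [0], [0, 4]), (0, [1], [1, 2]), (4, [], [3])]),
  (0, 0, 0, [(0, [0], [0, 4]), (0, [1], [1, 3]), (4, [], [2])]),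
  (0, 0, 0, [(0, [0], [0, 4]), (0, [1], [2, 3]), (4, [], [1])]),
  (0, 0, 0, [(0, [0], [1, 2]), (0, [1], [0, 3]), (4, [], [4])]),
  (0, 0, 0, [(0, [0], [1, 2]), (0, [1], [0, 4]), (4, [], [3])]),
  (0, 0, 0, [(0, [0], [1, 2]), (0, [1], [3, 4]), (4, [], [0])]),
  (0, 0, 0, [(0, [0], [3, 1]), (0, [1], [0, 4]), (4, [], [2])]),
  (0, 0, 0, [(0, [0], [3, 2]), (0, [1], [0, 4]), (4, [], [1])]),
  (0, 0, 0, [(0, [0], [3, 4]), (0, [1], [1, 0]), (4, [], [2])]),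
  (0, 0, 0, [(0, [0], [3, 4]), (0, [1], [1, 2]), (4, [], [0])]),
  (0, 0, 0, [(0, [0], [3, 4]), (0, [1], [2, 0]), (4, [], [1])]),
  (0, 0, 0, [(0, [0], [4, 1]), (0, [1], [0, 3]), (4, [], [2])]),
  (0, 0, 0, [(0, [0], [4, 2]), (0, [1], [0, 3]), (4, [], [1])])]

def w62_7 : List (List Wit) := [[(0, 0, 0, 0, 0), (1, 0, 0, 0, 0), (0, 0, 0, 0, 0), (12, 0, 0, 0, 0), (1, 0, 0, 0, 0), (12, 0, 0, 0, 0), (2, 0, 0, 0, 0), (3, 0, 0, 0, 0), (2, 0, 0, 0, 0), (13, 0, 0, 0, 0), (3, 0, 0, 0, 0), (13, 0, 0, 0, 0), (14, 0, 0, 0, 0), (15, 0, 0, 0, 0), (14, 0, 0, 0, 0), (16, 0, 0, 0, 0), (17, 0, 0, 0, 0), (18, 0, 0, 0, 0), (17, 0, 0, 0, 0), (19, 0, 0, 0, 0), (0, 0, 0, 0, 0), (1, 0, 0, 0, 0), (20, 0, 0, 0, 0), (21, 0, 0, 0, 0), (20, 0, 0, 0, 0), (22, 0, 0, 0, 0), (21, 0, 0, 0, 0), (22, 0, 0, 0, 0), (4, 0, 0, 0, 0), (5, 0, 0, 0, 0), (6, 0, 0, 0, 0), (7, 0, 0, 0, 0), (2, 0, 0, 0,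 0), (3, 0, 0, 0, 0), (20, 0, 0, 0, 0), (21, 0, 0, 0, 0), (20, 0, 0, 0, 0), (22, 0, 0, 0, 0), (21, 0, 0, 0, 0), (22, 0, 0, 0, 0), (8, 0, 0, 0, 0), (9, 0, 0, 0, 0), (10, 0, 0, 0, 0), (11, 0, 0, 0, 0), (14, 0, 0, 0, 0), (15, 0, 0, 0, 0), (14, 0, 0, 0, 0), (16, 0, 0, 0, 0), (4, 0, 0, 0, 0), (23, 0, 0, 0, 0), (4, 0, 0, 0, 0), (5, 0, 0, 0, 0), (23, 0, 0, 0, 0), (5, 0, 0, 0, 0), (8, 0, 0, 0, 0), (24, 0, 0, 0, 0), (8, 0, 0, 0, 0), (9, 0, 0, 0, 0), (24, 0, 0, 0, 0), (9, 0, 0, 0, 0), (25, 0, 0, 0, 0), (26, 0, 0, 0, 0), (27, 0, 0, 0, 0), (26, 0, 0, 0, 0), (17, 0, 0, 0, 0), (18, 0, 0, 0, 0), (17, 0, 0, 0, 0), (19, 0, 0, 0, 0), (6, 0, 0, 0, 0), (28, 0, 0, 0, 0), (6, 0, 0, 0, 0), (7, 0, 0, 0, 0), (28, 0, 0, 0, 0), (7, 0, 0, 0, 0), (10, 0, 0, 0, 0), (29, 0, 0, 0, 0), (10, 0, 0, 0, 0), (11, 0, 0, 0, 0), (29, 0, 0, 0, 0), (11, 0, 0, 0, 0), (25, 0, 0, 0, 0), (26, 0, 0, 0,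 0), (27, 0, 0, 0, 0), (26, 0, 0, 0, 0)],
  [(8, 0, 0, 0, 0), (10, 0, 0, 0, 0), (8, 0, 0, 0, 0), (25, 0, 0, 0, 0), (10, 0, 0, 0, 0), (25, 0, 0, 0, 0), (4, 0, 0, 0, 0), (6, 0, 0, 0, 0), (4, 0, 0, 0, 0), (27, 0, 0, 0, 0), (6, 0, 0, 0, 0), (27, 0, 0, 0, 0), (20, 0, 0, 0, 0), (28, 0, 0, 0, 0), (20, 0, 0, 0, 0), (29, 0, 0, 0, 0), (21, 0, 0, 0, 0), (23, 0, 0, 0, 0), (21, 0, 0, 0, 0), (24, 0, 0, 0, 0), (8, 0, 0, 0, 0), (10, 0, 0, 0, 0), (14, 0, 0, 0, 0), (17, 0, 0, 0, 0), (14, 0, 0, 0, 0), (26, 0, 0, 0, 0), (17, 0, 0, 0, 0), (26, 0, 0, 0, 0), (2, 0, 0, 0, 0), (11, 0, 0, 0, 0), (3, 0, 0, 0, 0), (9, 0, 0, 0, 0), (4, 0, 0, 0, 0), (6, 0, 0, 0, 0), (14, 0, 0, 0, 0), (17, 0, 0, 0, 0), (14, 0, 0, 0, 0), (26, 0, 0, 0, 0), (17, 0, 0, 0, 0), (26, 0, 0, 0, 0), (0, 0, 0, 0, 0), (7, 0, 0, 0, 0), (1, 0, 0, 0, 0), (5, 0, 0, 0, 0), (20, 0, 0, 0, 0), (28, 0, 0, 0, 0), (20, 0, 0,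 0, 0), (29, 0, 0, 0, 0), (2, 0, 0, 0, 0), (18, 0, 0, 0, 0), (2, 0, 0, 0, 0), (11, 0, 0, 0, 0), (18, 0, 0, 0, 0), (11, 0, 0, 0, 0), (0, 0, 0, 0, 0), (19, 0, 0, 0, 0), (0, 0, 0, 0, 0), (7, 0, 0, 0, 0), (19, 0, 0, 0, 0), (7, 0, 0, 0, 0), (12, 0, 0, 0, 0), (22, 0, 0, 0, 0), (13, 0, 0, 0, 0), (22, 0, 0, 0, 0), (21, 0, 0, 0, 0), (23, 0, 0, 0, 0), (21, 0, 0, 0, 0), (24, 0, 0, 0, 0), (3, 0, 0, 0, 0), (15, 0, 0, 0, 0), (3, 0, 0, 0, 0), (9, 0, 0, 0, 0), (15, 0, 0, 0, 0), (9, 0, 0, 0, 0), (1, 0, 0, 0, 0), (16, 0, 0, 0, 0), (1, 0, 0, 0, 0), (5, 0, 0, 0, 0), (16, 0, 0, 0, 0), (5, 0, 0, 0, 0), (12, 0, 0, 0, 0), (22, 0, 0, 0, 0), (13, 0, 0, 0, 0), (22, 0, 0, 0, 0)]]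

theorem tr62 : trK keys lk62 kl62 = true := by
  decide +kernel

theorem x62_0 : expB 2 5 dg12 dg7 m62_0 (l62_0 ++ z62_0) w62_0 = true := by
  decide +kernel

theorem x62_1 : expB 2 5 dg12 dg7 m62_1 (l62_1 ++ z62_1) w62_1 = true := by
  decide +kernel

theorem x62_2 : expB 2 5 dg12 dg7 m62_2 (l62_2 ++ z62_2) w62_2 = true := by
  decide +kernel

theorem x62_3 : expB 2 5 dg12 dg7 m62_3 (l62_3 ++ z62_3) w62_3 = true := by
  decide +kernel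

theorem x62_4 : expB 2 5 dg12 dg7 m62_4 (l62_4 ++ z62_4) w62_4 = true := by
  decide +kernel

theorem x62_5 : expB 2 5 dg12 dg7 m62_5 (l62_5 ++ z62_5) w62_5 = true := by
  decide +kernel

theorem x62_6 : expB 2 5 dg12 dg7 m62_6 (l62_6 ++ z62_6) w62_6 = true := by
  decide +kernel

theorem x62_7 : expB 2 5 dg12 dg7 m62_7 (l62_7 ++ z62_7) w62_7 = true := by
  decide +kernel

theorem t62_0_0 : chkS lk62 2 5 [(1, m62_0)] l62_0
  [(82, 16, 16, 34891056, 52696656), (83, 16, 16, 34891056, 52696656), (72, 16, 16, 34891056, 52696656), (74, 16, 16, 34891056, 52696656), (72, 16, 16, 34887216, 36968016), (74, 16, 16, 34887216, 36968016), (61, 16, 16, 35013936, 69408336), (61, 16, 16, 19096896, 52512096), (61, 16, 16, 19093056, 36783456), (60, 16, 16, 34891056, 52696656), (123, 16, 16, 34891056, 52696656), (124, 16, 16, 34891056, 52696656), (118, 1, 1, 50603541, 33841941),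 (48, 16, 16, 33965361, 69408261), (48, 1, 1, 2188596, 52434246), (13, 1, 1, 34825476, 52446801), (118, 16, 16, 50618961, 51667461), (119, 16, 16, 50741841, 68379141), (136, 16, 16, 34956096, 54601296), (112, 16, 16, 33968961, 70329861), (112, 1, 1, 2188341, 50468166), (110, 16, 16, 33907521, 54601221), (118, 16, 16, 50603601, 34890501), (119, 16, 16, 50734161, 68313861), (48, 1, 1, 33965331, 69404181), (72, 1, 1, 34887171, 36963921), (61, 1, 1, 35013891, 69404241), (136, 16, 16, 34944576, 37828176), (112, 16, 16, 33961281, 69285381), (112, 1, 1, 2180661, 33756486), (110, 16, 16, 33896001, 37828101), (108, 1, 1, 33773076, 36718101), (48, 16, 16, 2188611, 52495686), (48, 16, 16, 2184771, 36767046), (13, 16, 16, 34825536, 52512336), (61, 1, 1, 19096836, 52446561), (60, 1, 1, 34891011, 52692561), (112, 16, 16, 2188371, 51512646), (108, 16, 16, 33776961, 52512261),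 (112, 16, 16, 2180691, 34800966), (108, 16, 16, 33773121, 36783621), (110, 1, 1, 33895956, 37762581)]
  [(13, 24), (48, -48), (60, -24), (61, 48), (72, 96), (74, -120), (82, 72), (83, -72), (108, -216), (110, 216), (118, -96), (119, 120), (123, -72), (124, 72), (136, 0)] = true := by
  decide +kernel

theorem t62_0_1 : chkS lk62 2 5 [(1, m62_0)] l62_1
  [(73, 16, 16, 34891056, 52696656), (75, 16, 16, 34891056, 52696656), (73, 16, 16, 34887216, 36968016), (75, 16, 16, 34887216, 36968016), (39, 1, 1, 69297411, 52823361), (39, 1, 1, 69293571, 37094721), (67, 16, 16, 34891056, 52696656), (59, 16, 16, 35017776, 70391376), (71, 16, 16, 35013936, 69408336), (57, 16, 16, 34956336, 54662736), (118, 16, 16, 34891056, 52696656), (119, 16, 16, 34891056, 52696656), (114, 16, 16, 34891056, 52696656), (12, 1, 1, 35017731, 70387281), (117, 16, 16, 35013936, 69408336), (46,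 16, 16, 33907761, 54662661), (29, 1, 1, 85156866, 56770641), (31, 1, 1, 85156866, 56770641), (68, 1, 1, 101983491, 103023441), (58, 1, 1, 68560131, 69600081), (38, 1, 1, 86074371, 56755521), (36, 1, 1, 86074371, 56755521), (29, 1, 1, 85149186, 40058961), (31, 1, 1, 85149186, 40058961), (115, 1, 1, 85221891, 56885841), (47, 1, 1, 67523091, 70648341), (68, 1, 1, 101995011, 104071761), (58, 1, 1, 68571651, 70648401), (38, 1, 1, 86066691, 40043841), (36, 1, 1, 86066691, 40043841), (105, 1, 1, 100880916, 103825941), (106, 16, 16, 50734401, 69296901), (30, 1, 1, 68498946, 38154321), (30, 1, 1, 68510466, 54927441), (116, 1, 1, 85344771, 73597521), (46, 1, 1, 67461651, 54919701), (70, 1, 1, 85344771, 73597521), (57, 1, 1, 68510211, 54919761), (70, 1, 1, 85337091, 73532241), (57, 1, 1, 68494851, 38142801), (9, 16, 16, 50619681, 52715781), (103, 16, 16, 33776961, 52512261),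 (118, 16, 16, 85221936, 56889936), (119, 16, 16, 85344816, 73601616), (118, 16, 16, 85206576, 40112976), (119, 16, 16, 85337136, 73536336), (48, 16, 16, 70345986, 52842561), (48, 16, 16, 70342146, 37113921), (114, 1, 1, 34891011, 52692561), (12, 16, 16, 35017776, 70391376), (117, 1, 1, 35013891, 69404241), (46, 1, 1, 33907731, 54658581), (73, 16, 16, 85221936, 56889936), (75, 16, 16, 85344816, 73601616), (67, 1, 1, 34891011, 52692561), (59, 1, 1, 35017731, 70387281), (71, 1, 1, 35013891, 69404241), (57, 1, 1, 34956291, 54658641), (29, 16, 16, 85156896, 56770896), (31, 16, 16, 85156896, 56770896), (115, 16, 16, 85206576, 40112976), (47, 16, 16, 67511601, 69604101), (47, 16, 16, 87122946, 56774721), (45, 16, 16, 84042801, 56759301), (29, 16, 16, 85149216, 40059216), (31, 16, 16, 85149216, 40059216), (68, 16, 16, 101995056, 104075856), (58, 16, 16, 68571696,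 70652496), (115, 16, 16, 85221936, 56889936), (47, 16, 16, 67523121, 70652421), (47, 16, 16, 87115266, 40063041), (45, 16, 16, 84035121, 40047621), (106, 1, 1, 50734356, 69231381), (105, 16, 16, 100880961, 103891461), (30, 16, 16, 68498976, 38154576), (30, 16, 16, 68510496, 54927696), (70, 16, 16, 85344816, 73601616), (57, 16, 16, 68510256, 54923856), (116, 16, 16, 85344816, 73601616), (46, 16, 16, 67461681, 54923781), (116, 16, 16, 85337136, 73536336), (46, 16, 16, 67446321, 38146821), (103, 1, 1, 33776916, 52446741), (9, 1, 1, 50619666, 52715541)]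
  [(9, 96), (12, 96), (46, 48), (47, -144), (57, -48), (58, 144), (59, -96), (67, 96), (68, -144), (70, 144), (71, -96), (73, 144), (75, -144), (103, -96), (105, -96), (106, 96), (114, -96), (115, 144), (116, -144), (117, 96), (118, -144), (119, 144)] = true := by
  decide +kernel

theorem t62_0_2 : chkS lk62 2 5 [(1, m62_0)] l62_2
  [(73, 16, 16, 34887216, 36968016), (39, 1, 1, 69297411, 52823361), (73, 16, 16, 34891056, 52696656), (39, 1, 1, 69293571, 37094721), (75, 16, 16, 34891056, 52696656), (75, 16, 16, 34887216, 36968016), (67, 16, 16, 34891056, 52696656), (71, 16, 16, 35013936, 69408336), (57, 16, 16, 34956336, 54662736), (59, 16, 16, 35017776, 70391376), (114, 16, 16, 34891056, 52696656), (117, 16, 16, 35013936, 69408336), (118, 16, 16, 34891056, 52696656), (46, 16, 16, 33907761, 54662661), (119, 16, 16, 34891056, 52696656), (12, 1, 1, 35017731,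 70387281), (68, 1, 1, 101983491, 103023441), (38, 1, 1, 86074371, 56755521), (29, 1, 1, 85156866, 56770641), (36, 1, 1, 86074371, 56755521), (31, 1, 1, 85156866, 56770641), (58, 1, 1, 68560131, 69600081), (115, 1, 1, 85221891, 56885841), (29, 1, 1, 85149186, 40058961), (68, 1, 1, 101995011, 104071761), (38, 1, 1, 86066691, 40043841), (36, 1, 1, 86066691, 40043841), (31, 1, 1, 85149186, 40058961), (58, 1, 1, 68571651, 70648401), (105, 1, 1, 100880916, 103825941), (106, 16, 16, 50734401, 69296901), (47, 1, 1, 67523091, 70648341), (116, 1, 1, 85344771, 73597521), (30, 1, 1, 68498946, 38154321), (70, 1, 1, 85344771, 73597521), (70, 1, 1, 85337091, 73532241), (57, 1, 1, 68494851, 38142801), (30, 1, 1, 68510466, 54927441), (57, 1, 1, 68510211, 54919761), (9, 16, 16, 50619681, 52715781), (103, 16, 16, 33776961, 52512261), (46, 1, 1, 67461651, 54919701), (118, 16,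 16, 85206576, 40112976), (48, 16, 16, 70345986, 52842561), (118, 16, 16, 85221936, 56889936), (48, 16, 16, 70342146, 37113921), (119, 16, 16, 85344816, 73601616), (119, 16, 16, 85337136, 73536336), (114, 1, 1, 34891011, 52692561), (117, 1, 1, 35013891, 69404241), (46, 1, 1, 33907731, 54658581), (12, 16, 16, 35017776, 70391376), (67, 1, 1, 34891011, 52692561), (71, 1, 1, 35013891, 69404241), (73, 16, 16, 85221936, 56889936), (57, 1, 1, 34956291, 54658641), (75, 16, 16, 85344816, 73601616), (59, 1, 1, 35017731, 70387281), (115, 16, 16, 85206576, 40112976), (47, 16, 16, 87122946, 56774721), (29, 16, 16, 85156896, 56770896), (45, 16, 16, 84042801, 56759301), (31, 16, 16, 85156896, 56770896), (47, 16, 16, 67511601, 69604101), (68, 16, 16, 101995056, 104075856), (29, 16, 16, 85149216, 40059216), (115, 16, 16, 85221936, 56889936), (47, 16, 16, 87115266, 40063041),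 (45, 16, 16, 84035121, 40047621), (31, 16, 16, 85149216, 40059216), (47, 16, 16, 67523121, 70652421), (106, 1, 1, 50734356, 69231381), (105, 16, 16, 100880961, 103891461), (58, 16, 16, 68571696, 70652496), (70, 16, 16, 85344816, 73601616), (30, 16, 16, 68498976, 38154576), (116, 16, 16, 85344816, 73601616), (116, 16, 16, 85337136, 73536336), (46, 16, 16, 67446321, 38146821), (30, 16, 16, 68510496, 54927696), (46, 16, 16, 67461681, 54923781), (103, 1, 1, 33776916, 52446741), (9, 1, 1, 50619666, 52715541), (57, 16, 16, 68510256, 54923856)]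
  [(9, 72), (12, -48), (36, 120), (39, -120), (45, -120), (46, 216), (47, -48), (48, 120), (57, -216), (58, 48), (59, 48), (67, 72), (68, 72), (70, -72), (71, -72), (73, 168), (75, -48), (103, -72), (105, -72), (106, 72), (114, -72), (115, -72), (116, 72), (117, 72), (118, -168), (119, 48)] = true := by
  decide +kernel

theorem t62_0_3 : chkS lk62 2 5 [(1, m62_0)] l62_3
  [(39, 16, 16, 19285296, 69408096), (11, 16, 16, 67331361, 52838661), (10, 1, 1, 84292116, 73413141), (37, 16, 16, 19227696, 54662496), (116, 1, 1, 104091681, 104091906), (30, 1, 1, 85149186, 40058961), (37, 1, 1, 86066691, 40043841), (127, 16, 16, 20317506, 69292131), (120, 1, 1, 85221891, 56885841), (35, 1, 1, 68379906, 52838481), (76, 1, 1, 85206531, 40108881), (125, 16, 16, 19948866, 52514916), (48, 1, 1, 20333856, 69423456), (13, 16, 16, 67331361, 52838661), (12, 16, 16, 50746401, 70410501),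 (46, 1, 1, 20276256, 54677856), (69, 16, 16, 101995056, 104075856), (30, 16, 16, 85149216, 40059216), (46, 16, 16, 87115266, 40063041), (127, 1, 1, 20317476, 69226851), (76, 16, 16, 85221936, 56889936), (35, 16, 16, 68379936, 52838736), (120, 16, 16, 85206576, 40112976), (125, 1, 1, 19948836, 52449636)]
  [(10, 120), (11, -120), (12, -120), (13, 120), (39, 120), (48, -120), (69, 120), (76, -240), (116, -120), (120, 240), (127, 0)] = true := by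
  decide +kernel

theorem t62_0_4 : chkS lk62 2 5 [(1, m62_0)] l62_4
  [(75, 16, 16, 34887216, 36968016), (39, 1, 1, 69293571, 37094721), (75, 16, 16, 34891056, 52696656), (39, 1, 1, 69297411, 52823361), (73, 16, 16, 34891056, 52696656), (73, 16, 16, 34887216, 36968016), (59, 16, 16, 35017776, 70391376), (57, 16, 16, 34956336, 54662736), (71, 16, 16, 35013936, 69408336), (67, 16, 16, 34891056, 52696656), (12, 1, 1, 35017731, 70387281), (46, 16, 16, 33907761, 54662661), (119, 16, 16, 34891056, 52696656), (117, 16, 16, 35013936, 69408336), (118, 16, 16, 34891056, 52696656), (114, 16, 16, 34891056, 52696656), (58, 1, 1, 68560131, 69600081), (36, 1, 1, 86074371, 56755521), (31, 1, 1, 85156866, 56770641), (38, 1, 1, 86074371, 56755521), (29, 1, 1, 85156866, 56770641), (68, 1, 1, 101983491, 103023441), (47, 1, 1, 67523091, 70648341), (31, 1, 1, 85149186, 40058961),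 (58, 1, 1, 68571651, 70648401), (36, 1, 1, 86066691, 40043841), (38, 1, 1, 86066691, 40043841), (29, 1, 1, 85149186, 40058961), (68, 1, 1, 101995011, 104071761), (106, 16, 16, 50734401, 69296901), (105, 1, 1, 100880916, 103825941), (115, 1, 1, 85221891, 56885841), (46, 1, 1, 67461651, 54919701), (30, 1, 1, 68510466, 54927441), (57, 1, 1, 68510211, 54919761), (57, 1, 1, 68494851, 38142801), (70, 1, 1, 85337091, 73532241), (30, 1, 1, 68498946, 38154321), (70, 1, 1, 85344771, 73597521), (103, 16, 16, 33776961, 52512261), (9, 16, 16, 50619681, 52715781), (116, 1, 1, 85344771, 73597521), (119, 16, 16, 85337136, 73536336), (48, 16, 16, 70342146, 37113921), (119, 16, 16, 85344816, 73601616), (48, 16, 16, 70345986, 52842561), (118, 16, 16, 85221936, 56889936), (118, 16, 16, 85206576, 40112976), (12, 16, 16, 35017776, 70391376), (46, 1, 1, 33907731, 54658581), (117,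 1, 1, 35013891, 69404241), (114, 1, 1, 34891011, 52692561), (59, 1, 1, 35017731, 70387281), (57, 1, 1, 34956291, 54658641), (75, 16, 16, 85344816, 73601616), (71, 1, 1, 35013891, 69404241), (73, 16, 16, 85221936, 56889936), (67, 1, 1, 34891011, 52692561), (47, 16, 16, 67511601, 69604101), (45, 16, 16, 84042801, 56759301), (31, 16, 16, 85156896, 56770896), (47, 16, 16, 87122946, 56774721), (29, 16, 16, 85156896, 56770896), (115, 16, 16, 85206576, 40112976), (58, 16, 16, 68571696, 70652496), (31, 16, 16, 85149216, 40059216), (47, 16, 16, 67523121, 70652421), (45, 16, 16, 84035121, 40047621), (47, 16, 16, 87115266, 40063041), (29, 16, 16, 85149216, 40059216), (115, 16, 16, 85221936, 56889936), (105, 16, 16, 100880961, 103891461), (106, 1, 1, 50734356, 69231381), (68, 16, 16, 101995056, 104075856), (57, 16, 16, 68510256, 54923856), (30, 16, 16, 68510496, 54927696),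 (46, 16, 16, 67461681, 54923781), (46, 16, 16, 67446321, 38146821), (116, 16, 16, 85337136, 73536336), (30, 16, 16, 68498976, 38154576), (116, 16, 16, 85344816, 73601616), (9, 1, 1, 50619666, 52715541), (103, 1, 1, 33776916, 52446741), (70, 16, 16, 85344816, 73601616)]
  [(9, -72), (12, -72), (38, 120), (39, -120), (46, 144), (47, -192), (48, 120), (57, -144), (58, 72), (59, 72), (67, 48), (68, 48), (70, -168), (71, -48), (73, -48), (75, 168), (103, 72), (105, 72), (106, -72), (114, -48), (115, -48), (116, 168), (117, 48), (118, 48), (119, -168)] = true := by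
  decide +kernel

theorem t62_0_5 : chkS lk62 2 5 [(1, m62_0)] l62_5
  [(72, 16, 16, 34887216, 36968016), (61, 16, 16, 19096896, 52512096), (72, 16, 16, 34891056, 52696656), (61, 16, 16, 19093056, 36783456), (74, 16, 16, 34891056, 52696656), (74, 16, 16, 34887216, 36968016), (82, 16, 16, 34891056, 52696656), (60, 16, 16, 34891056, 52696656), (83, 16, 16, 34891056, 52696656), (61, 16, 16, 35013936, 69408336), (118, 1, 1, 50603541, 33841941), (48, 1, 1, 2188596, 52434246), (123, 16, 16, 34891056, 52696656), (13, 1, 1, 34825476, 52446801), (124, 16, 16, 34891056, 52696656), (48, 16, 16, 33965361, 69408261), (136, 16, 16, 34956096, 54601296), (112, 1, 1, 2188341, 50468166), (118, 16, 16, 50618961, 51667461), (110, 16, 16, 33907521, 54601221), (119, 16, 16, 50741841, 68379141), (112, 16, 16, 33968961, 70329861), (136, 16, 16, 34944576, 37828176), (112, 1, 1, 2180661,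 33756486), (72, 1, 1, 34887171, 36963921), (108, 1, 1, 33773076, 36718101), (118, 16, 16, 50603601, 34890501), (110, 16, 16, 33896001, 37828101), (119, 16, 16, 50734161, 68313861), (112, 16, 16, 33961281, 69285381), (48, 1, 1, 33965331, 69404181), (61, 1, 1, 35013891, 69404241), (112, 16, 16, 2188371, 51512646), (112, 16, 16, 2180691, 34800966), (61, 1, 1, 19096836, 52446561), (110, 1, 1, 33895956, 37762581), (48, 16, 16, 2188611, 52495686), (108, 16, 16, 33773121, 36783621), (48, 16, 16, 2184771, 36767046), (108, 16, 16, 33776961, 52512261), (13, 16, 16, 34825536, 52512336), (60, 1, 1, 34891011, 52692561)]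
  [(13, 192), (48, 96), (60, -192), (61, -96), (72, 288), (82, 96), (83, -96), (108, -288), (110, 288), (118, -288), (123, -96), (124, 96), (136, 0)] = true := by
  decide +kernel

theorem t62_0_6 : chkS lk62 2 5 [(1, m62_0)] l62_6
  [(32, 16, 16, 101930016, 103956816), (30, 16, 16, 51733536, 54681936), (78, 16, 16, 101995056, 104075856), (39, 1, 1, 102847491, 103941441), (121, 16, 16, 101983536, 103027536), (116, 16, 16, 70649106, 69619731), (48, 16, 16, 103896066, 103960641), (12, 1, 1, 100881426, 103956501), (32, 1, 1, 101929986, 103956561), (10, 16, 16, 101003841, 104935941), (30, 1, 1, 51733506, 54681681), (69, 1, 1, 68560131, 69600081)]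
  [(10, 240), (12, -240), (39, -240), (48, 240), (69, -240), (78, 240), (116, 240), (121, -240)] = true := by
  decide +kernel

theorem t62_0_7 : chkS lk62 2 5 [(1, m62_0)] l62_7
  [(33, 16, 16, 1266720, 3293520), (34, 16, 16, 1389600, 4338000), (80, 16, 16, 1331760, 3412560), (40, 1, 1, 2184195, 3278145), (122, 16, 16, 1320240, 2364240), (20, 1, 1, 1385475, 4326225), (24, 1, 1, 283410, 3416085), (19, 1, 1, 1201155, 3277905), (33, 1, 1, 1266690, 3293265), (16, 16, 16, 340545, 4272645), (34, 1, 1, 1389570, 4337745), (21, 16, 16, 217665, 3228165)]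
  [(16, 240), (19, -240), (20, 240), (21, -240), (24, 240), (40, -240), (80, 240), (122, -240)] = true := by
  decide +kernel

theorem t62_1_1 : chkS lk62 2 5 [(1, m62_1)] l62_1
  [(63, 1, 1, 87318786, 56905761), (64, 1, 1, 87441666, 73617441), (134, 16, 16, 33907761, 54662661), (91, 1, 1, 88482051, 73728801), (91, 1, 1, 72442371, 55968321), (90, 1, 1, 88236291, 56951841), (134, 16, 16, 33907521, 54601221), (91, 1, 1, 88481811, 73728786), (91, 1, 1, 72441891, 55968066), (90, 1, 1, 88236051, 56951826), (72, 1, 1, 55861266, 55861266), (74, 1, 1, 55861266, 55861266), (68, 1, 1, 55844886, 5530386), (69, 1, 1, 55844886, 5530386), (38, 1, 1, 54616101, 50684226), (37, 1, 1, 54616101, 50684226), (72, 1, 1, 55861506, 55861281), (74, 1, 1, 55861506, 55861281), (68, 1, 1, 55845126, 5530401), (69, 1, 1, 55845126, 5530401), (38, 1, 1, 54616581, 50684481), (37, 1, 1, 54616581,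 50684481), (68, 1, 1, 87319041, 56906241), (38, 1, 1, 70668546, 70668321), (68, 1, 1, 87318561, 56905986), (38, 1, 1, 70668306, 70668306), (62, 1, 1, 87318786, 56905761), (43, 1, 1, 69619971, 70649121), (88, 1, 1, 88236291, 56951841), (87, 1, 1, 87122436, 56644161), (88, 1, 1, 88236051, 56951826), (87, 1, 1, 87121956, 56643906), (69, 1, 1, 87441921, 73617921), (37, 1, 1, 70607106, 54939681), (69, 1, 1, 87441441, 73617666), (37, 1, 1, 70606866, 54939666), (43, 1, 1, 37970181, 50677281), (42, 1, 1, 69558531, 54920481), (87, 1, 1, 55845126, 5530401), (132, 1, 1, 87433236, 73421586), (87, 1, 1, 55844886, 5530386), (132, 1, 1, 87433476, 73421601), (96, 1, 1, 55861506, 55861281), (97, 1, 1, 55861506, 55861281), (137, 16, 16, 67450401, 38154501), (111, 1, 1, 55984386, 72572961), (111, 16, 16, 87122946, 56774721), (107, 1, 1, 55861506, 55861281), (137, 16, 16, 67449441,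 21377541), (111, 1, 1, 55984146, 72572946), (111, 16, 16, 87121986, 56709186), (107, 1, 1, 55861266, 55861266), (73, 1, 1, 39084291, 55838241), (75, 1, 1, 39084291, 55838241), (68, 1, 1, 40120581, 84162081), (70, 1, 1, 39072006, 5518881), (58, 1, 1, 37970181, 50677281), (57, 1, 1, 37970181, 50677281), (73, 1, 1, 39084051, 55838226), (75, 1, 1, 39084051, 55838226), (68, 1, 1, 40120341, 84162066), (70, 1, 1, 39071766, 5518866), (58, 1, 1, 37969941, 50677266), (57, 1, 1, 37969941, 50677266), (68, 16, 16, 103043856, 104080656), (58, 16, 16, 69620496, 70657296), (68, 16, 16, 103043376, 104076576), (58, 16, 16, 69620016, 70653216), (95, 1, 1, 55845126, 5530401), (51, 16, 16, 69619971, 70649121), (104, 1, 1, 55845126, 5530401), (105, 16, 16, 102847491, 103941441), (104, 1, 1, 55844886, 5530386), (105, 16, 16, 102846531, 103875906), (70, 16, 16, 86393616, 73606416),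 (57, 16, 16, 69559056, 54928656), (70, 16, 16, 86393136, 73602336), (57, 16, 16, 69558576, 54924576), (51, 1, 1, 37970181, 50677281), (50, 1, 1, 37970181, 50677281), (105, 1, 1, 40059141, 84100641), (129, 16, 16, 84288561, 73536261), (105, 1, 1, 40058901, 84100626), (129, 16, 16, 84288321, 73474821)]
  [(37, -192), (38, 192), (42, -144), (43, 288), (50, 144), (51, -288), (57, 192), (58, -192), (62, -144), (63, 144), (64, -144), (69, 192), (70, -192), (72, 96), (73, -96), (74, -96), (75, 96), (87, 192), (88, -96), (90, 96), (91, -192), (95, 144), (96, -144), (97, 144), (104, 96), (105, -192), (107, -96), (111, 192), (129, 96), (132, -96), (134, 96), (137, -96)] = true := by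
  decide +kernel

theorem t62_1_2 : chkS lk62 2 5 [(1, m62_1)] l62_2
  [(134, 16, 16, 33907761, 54662661), (91, 1, 1, 72442371, 55968321), (63, 1, 1, 87318786, 56905761), (90, 1, 1, 88236291, 56951841), (64, 1, 1, 87441666, 73617441), (91, 1, 1, 88482051, 73728801), (134, 16, 16, 33907521, 54601221), (91, 1, 1, 72441891, 55968066), (90, 1, 1, 88236051, 56951826), (91, 1, 1, 88481811, 73728786), (68, 1, 1, 55844886, 5530386), (38, 1, 1, 54616101, 50684226), (72, 1, 1, 55861266, 55861266), (37, 1, 1, 54616101, 50684226), (74, 1, 1, 55861266, 55861266), (69, 1, 1, 55844886, 5530386), (68, 1, 1, 55845126, 5530401), (38, 1, 1, 54616581, 50684481), (72, 1, 1, 55861506, 55861281), (37, 1, 1, 54616581, 50684481), (74, 1, 1, 55861506, 55861281), (69, 1, 1, 55845126, 5530401), (68, 1, 1, 87318561, 56905986), (68, 1, 1, 87319041, 56906241), (62, 1, 1, 87318786, 56905761),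 (88, 1, 1, 88236291, 56951841), (87, 1, 1, 87122436, 56644161), (38, 1, 1, 70668546, 70668321), (43, 1, 1, 69619971, 70649121), (88, 1, 1, 88236051, 56951826), (87, 1, 1, 87121956, 56643906), (38, 1, 1, 70668306, 70668306), (69, 1, 1, 87441441, 73617666), (69, 1, 1, 87441921, 73617921), (43, 1, 1, 37970181, 50677281), (87, 1, 1, 55845126, 5530401), (132, 1, 1, 87433236, 73421586), (37, 1, 1, 70607106, 54939681), (42, 1, 1, 69558531, 54920481), (87, 1, 1, 55844886, 5530386), (132, 1, 1, 87433476, 73421601), (37, 1, 1, 70606866, 54939666), (137, 16, 16, 67450401, 38154501), (111, 16, 16, 87122946, 56774721), (96, 1, 1, 55861506, 55861281), (107, 1, 1, 55861506, 55861281), (97, 1, 1, 55861506, 55861281), (111, 1, 1, 55984386, 72572961), (137, 16, 16, 67449441, 21377541), (111, 16, 16, 87121986, 56709186), (107, 1, 1, 55861266, 55861266), (111, 1, 1, 55984146,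 72572946), (68, 1, 1, 40120581, 84162081), (58, 1, 1, 37970181, 50677281), (73, 1, 1, 39084291, 55838241), (57, 1, 1, 37970181, 50677281), (75, 1, 1, 39084291, 55838241), (70, 1, 1, 39072006, 5518881), (68, 1, 1, 40120341, 84162066), (58, 1, 1, 37969941, 50677266), (73, 1, 1, 39084051, 55838226), (57, 1, 1, 37969941, 50677266), (75, 1, 1, 39084051, 55838226), (70, 1, 1, 39071766, 5518866), (68, 16, 16, 103043376, 104076576), (68, 16, 16, 103043856, 104080656), (95, 1, 1, 55845126, 5530401), (104, 1, 1, 55845126, 5530401), (105, 16, 16, 102847491, 103941441), (58, 16, 16, 69620496, 70657296), (51, 16, 16, 69619971, 70649121), (104, 1, 1, 55844886, 5530386), (105, 16, 16, 102846531, 103875906), (58, 16, 16, 69620016, 70653216), (70, 16, 16, 86393136, 73602336), (70, 16, 16, 86393616, 73606416), (51, 1, 1, 37970181, 50677281), (105, 1, 1, 40059141, 84100641),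 (129, 16, 16, 84288561, 73536261), (57, 16, 16, 69559056, 54928656), (50, 1, 1, 37970181, 50677281), (105, 1, 1, 40058901, 84100626), (129, 16, 16, 84288321, 73474821), (57, 16, 16, 69558576, 54924576)]
  [(37, 96), (38, -96), (42, -48), (43, 96), (50, 48), (51, -96), (57, -96), (58, 96), (62, -48), (63, 48), (64, -48), (69, 144), (70, -144), (72, -48), (73, 48), (74, 48), (75, -48), (87, 144), (88, 48), (90, -48), (91, -144), (95, 48), (96, -48), (97, 48), (104, -48), (105, -144), (107, 48), (111, 144), (129, 192), (132, -192), (134, 192), (137, -192)] = true := by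
  decide +kernel

theorem t62_1_3 : chkS lk62 2 5 [(1, m62_1)] l62_3
  [(91, 16, 16, 19285296, 69408096), (89, 16, 16, 19162416, 52696416), (91, 16, 16, 19284816, 68363616), (89, 16, 16, 19161936, 51651936), (70, 1, 1, 104091681, 104091906), (70, 1, 1, 104092161, 104092161), (87, 1, 1, 73478661, 84292161), (87, 1, 1, 73478181, 84291906), (76, 1, 1, 87318561, 56905986), (76, 1, 1, 87319041, 56906241), (131, 1, 1, 73605141, 84296466), (131, 1, 1, 73605381, 84296481), (111, 1, 1, 21386016, 70590816), (110, 1, 1, 21324576, 54862176), (111, 1, 1, 21385776, 70586976), (110, 1, 1, 21324336, 54858336), (69, 16, 16, 103043376, 104076576), (69, 16, 16, 103043856, 104080656), (106, 16, 16, 102847491, 103941441), (106, 16, 16, 102846531, 103875906), (76, 16, 16, 86270256, 56890656), (76, 16, 16, 86270736, 56894736), (126, 1, 1, 23085621, 84087396), (126, 1, 1, 23085861,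 84091236)]
  [(69, 240), (70, -240), (87, 240), (89, -240), (91, 240), (106, -240), (110, 240), (111, -240), (126, 240), (131, -240)] = true := by
  decide +kernel

theorem t62_1_4 : chkS lk62 2 5 [(1, m62_1)] l62_4
  [(91, 1, 1, 88482051, 73728801), (90, 1, 1, 88236291, 56951841), (64, 1, 1, 87441666, 73617441), (91, 1, 1, 72442371, 55968321), (63, 1, 1, 87318786, 56905761), (134, 16, 16, 33907761, 54662661), (91, 1, 1, 88481811, 73728786), (90, 1, 1, 88236051, 56951826), (91, 1, 1, 72441891, 55968066), (134, 16, 16, 33907521, 54601221), (69, 1, 1, 55844886, 5530386), (37, 1, 1, 54616101, 50684226), (74, 1, 1, 55861266, 55861266), (38, 1, 1, 54616101, 50684226), (72, 1, 1, 55861266, 55861266), (68, 1, 1, 55844886, 5530386), (69, 1, 1, 55845126, 5530401), (37, 1, 1, 54616581, 50684481), (74, 1, 1, 55861506, 55861281), (38, 1, 1, 54616581, 50684481), (72,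 1, 1, 55861506, 55861281), (68, 1, 1, 55845126, 5530401), (38, 1, 1, 70668306, 70668306), (38, 1, 1, 70668546, 70668321), (43, 1, 1, 69619971, 70649121), (87, 1, 1, 87122436, 56644161), (88, 1, 1, 88236291, 56951841), (68, 1, 1, 87319041, 56906241), (62, 1, 1, 87318786, 56905761), (87, 1, 1, 87121956, 56643906), (88, 1, 1, 88236051, 56951826), (68, 1, 1, 87318561, 56905986), (37, 1, 1, 70606866, 54939666), (37, 1, 1, 70607106, 54939681), (42, 1, 1, 69558531, 54920481), (132, 1, 1, 87433236, 73421586), (87, 1, 1, 55845126, 5530401), (69, 1, 1, 87441921, 73617921), (43, 1, 1, 37970181, 50677281), (132, 1, 1, 87433476, 73421601), (87, 1, 1, 55844886, 5530386), (69, 1, 1, 87441441, 73617666), (111, 1, 1, 55984386, 72572961), (107, 1, 1, 55861506, 55861281), (97, 1, 1, 55861506, 55861281), (111, 16, 16, 87122946, 56774721), (96, 1, 1, 55861506, 55861281), (137,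 16, 16, 67450401, 38154501), (111, 1, 1, 55984146, 72572946), (107, 1, 1, 55861266, 55861266), (111, 16, 16, 87121986, 56709186), (137, 16, 16, 67449441, 21377541), (70, 1, 1, 39072006, 5518881), (57, 1, 1, 37970181, 50677281), (75, 1, 1, 39084291, 55838241), (58, 1, 1, 37970181, 50677281), (73, 1, 1, 39084291, 55838241), (68, 1, 1, 40120581, 84162081), (70, 1, 1, 39071766, 5518866), (57, 1, 1, 37969941, 50677266), (75, 1, 1, 39084051, 55838226), (58, 1, 1, 37969941, 50677266), (73, 1, 1, 39084051, 55838226), (68, 1, 1, 40120341, 84162066), (58, 16, 16, 69620016, 70653216), (58, 16, 16, 69620496, 70657296), (51, 16, 16, 69619971, 70649121), (105, 16, 16, 102847491, 103941441), (104, 1, 1, 55845126, 5530401), (68, 16, 16, 103043856, 104080656), (95, 1, 1, 55845126, 5530401), (105, 16, 16, 102846531, 103875906), (104, 1, 1, 55844886, 5530386), (68, 16, 16,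 103043376, 104076576), (57, 16, 16, 69558576, 54924576), (57, 16, 16, 69559056, 54928656), (50, 1, 1, 37970181, 50677281), (129, 16, 16, 84288561, 73536261), (105, 1, 1, 40059141, 84100641), (70, 16, 16, 86393616, 73606416), (51, 1, 1, 37970181, 50677281), (129, 16, 16, 84288321, 73474821), (105, 1, 1, 40058901, 84100626), (70, 16, 16, 86393136, 73602336)]
  [(37, 144), (38, -144), (42, 48), (43, -96), (50, -48), (51, 96), (57, -144), (58, 144), (62, 48), (63, -48), (64, 48), (69, 96), (70, -96), (72, 48), (73, -48), (74, -48), (75, 48), (87, -144), (88, 192), (90, -192), (91, 144), (95, -48), (96, 48), (97, -48), (104, -192), (105, 144), (107, 192), (111, -144), (129, 48), (132, -48), (134, 48), (137, -48)] = true := by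
  decide +kernel

theorem t62_1_5 : chkS lk62 2 5 [(1, m62_1)] l62_5
  [(67, 16, 16, 19150416, 34878816), (59, 16, 16, 19096896, 52512096), (73, 16, 16, 19161936, 51651936), (57, 16, 16, 19096896, 52512096), (75, 16, 16, 19284816, 68363616), (71, 16, 16, 19150416, 34878816), (73, 16, 16, 19162416, 52696416), (57, 16, 16, 19096656, 51529056), (75, 16, 16, 19285296, 69408096), (71, 16, 16, 19150176, 19150176), (115, 1, 1, 56893461, 84173586), (47, 1, 1, 4284981, 50664006), (118, 16, 16, 19162371, 52692321), (46, 1, 1, 4284981, 50664006), (119, 16, 16, 19285251, 69404001), (116, 1, 1, 22282806, 5509731), (115, 1, 1, 56893701, 84173601), (47, 1, 1, 4285221, 50667846), (118, 16, 16, 19161171, 51643746), (46, 1, 1, 4285221, 50667846), (119, 16, 16, 19284051, 68355426), (116, 1, 1, 22283046, 5513571), (68, 1, 1, 23343141, 84160866), (105, 1, 1, 6374181, 84091206),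 (68, 1, 1, 23343621, 84161121), (105, 1, 1, 6373941, 84087366), (114, 16, 16, 50603601, 34890501), (9, 16, 16, 3282516, 34624566), (117, 16, 16, 50603601, 34890501), (70, 1, 1, 22294566, 5517666), (117, 16, 16, 50603361, 19161861), (70, 1, 1, 22295046, 5517921), (58, 1, 1, 21192741, 50676066), (106, 16, 16, 3229266, 34820166), (58, 1, 1, 21193221, 50676321), (106, 16, 16, 3229026, 19091526), (12, 1, 1, 19096896, 52512096), (103, 16, 16, 2180691, 34800966), (46, 16, 16, 2188611, 52495686), (57, 1, 1, 21192741, 50676066), (46, 16, 16, 2188371, 51512646), (57, 1, 1, 21193221, 50676321)]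
  [(9, 288), (12, 288), (46, 384), (47, -192), (57, -384), (58, 192), (59, -288), (67, 288), (68, -192), (70, 192), (71, 192), (73, 192), (75, -192), (103, -288), (105, 192), (106, -192), (114, -288), (115, 192), (116, -192), (117, -192), (118, -192), (119, 192)] = true := by
  decide +kernel

theorem t62_1_6 : chkS lk62 2 5 [(1, m62_1)] l62_6
  [(78, 1, 1, 106176531, 106169106), (39, 1, 1, 104943651, 104137026), (78, 1, 1, 106176771, 106169121), (39, 1, 1, 104944131, 104137281), (77, 1, 1, 106180626, 106180626), (38, 1, 1, 105984036, 105918786), (61, 1, 1, 105074706, 104153106), (58, 1, 1, 106110996, 105923346), (77, 1, 1, 106180866, 106180641), (38, 1, 1, 105984516, 105919041), (61, 1, 1, 105074946, 104153121), (58, 1, 1, 106111236, 105923361)]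
  [(38, 480), (39, -480), (58, -480), (61, 480), (77, -480), (78, 480)] = true := by
  decide +kernel

theorem t62_1_7 : chkS lk62 2 5 [(1, m62_1)] l62_7
  [(80, 1, 1, 5513235, 5505810), (40, 1, 1, 4280355, 3473730), (80, 1, 1, 5513475, 5505825), (40, 1, 1, 4280835, 3473985), (79, 1, 1, 5517330, 5517330), (25, 16, 16, 2429955, 4326705), (26, 16, 16, 1266720, 3293520), (21, 16, 16, 2184195, 3278145), (79, 1, 1, 5517570, 5517345), (25, 16, 16, 2428995, 4261170), (26, 16, 16, 1266240, 3228240), (21, 16, 16, 2183235, 3212610)]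
  [(21, -480), (25, 480), (26, 480), (40, -480), (79, -480), (80, 480)] = true := by
  decide +kernel

theorem t62_2_2 : chkS lk62 2 5 [(1, m62_2)] l62_2
  [(63, 1, 1, 87299586, 40128561), (90, 1, 1, 88217091, 40174641), (134, 16, 16, 33900081, 37950981), (91, 1, 1, 72427011, 39191361), (91, 1, 1, 88478211, 73728561), (64, 1, 1, 87430146, 73551921), (134, 16, 16, 33896001, 37828101), (132, 16, 16, 33965361, 69408261), (132, 16, 16, 33961281, 69285381), (91, 1, 1, 88474131, 73728531), (68, 1, 1, 55837206, 5530131), (105, 1, 1, 72552966, 5653041), (136, 16, 16, 50684961, 54681861), (127, 16, 16, 33965361, 69408261), (112, 1, 1, 72749826, 72753201), (69, 1, 1, 55837206, 5530131), (62, 1, 1, 87299586, 40128561), (88, 1, 1, 88217091, 40174641), (68, 1, 1, 87303681, 40129281), (87, 1, 1, 87107076, 39867201), (38, 1, 1, 70653186, 69619761), (43, 1, 1, 69604611,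 69600561), (136, 16, 16, 50668641, 21127941), (72, 1, 1, 55842306, 39084081), (68, 1, 1, 55841286, 5530161), (38, 1, 1, 54601221, 33907521), (37, 1, 1, 54601221, 33907521), (74, 1, 1, 55842306, 39084081), (69, 1, 1, 55841286, 5530161), (105, 1, 1, 72548886, 5653011), (127, 16, 16, 33961281, 69285381), (112, 1, 1, 72745746, 72753171), (127, 1, 1, 88478211, 73728561), (37, 1, 1, 70587906, 38162481), (87, 1, 1, 55841286, 5530161), (43, 1, 1, 37950981, 33900081), (42, 1, 1, 69539331, 38143281), (69, 1, 1, 87434241, 73552641), (132, 1, 1, 87425556, 73421331), (87, 1, 1, 55837206, 5530131), (132, 1, 1, 87429636, 73421361), (127, 1, 1, 88474131, 73728531), (96, 1, 1, 55842306, 39084081), (107, 1, 1, 55842306, 39084081), (137, 16, 16, 67461921, 54927621), (111, 16, 16, 87115266, 40063041), (111, 1, 1, 55972866, 72507441), (97, 1, 1, 55842306, 39084081), (137, 16,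 16, 67445601, 21373701), (129, 1, 1, 38147331, 69535281), (129, 1, 1, 38143251, 69535251), (111, 1, 1, 55968786, 72507411), (68, 1, 1, 40112901, 84158001), (87, 1, 1, 40112901, 84158001), (135, 16, 16, 101007921, 105058821), (133, 1, 1, 37094676, 69228051), (92, 1, 1, 38147331, 69535281), (70, 1, 1, 39064326, 5514801), (95, 1, 1, 55841286, 5530161), (104, 1, 1, 55841286, 5530161), (68, 16, 16, 103036176, 103036176), (105, 16, 16, 102843651, 102958401), (58, 16, 16, 69612816, 69612816), (51, 16, 16, 69604611, 69600561), (135, 16, 16, 101003841, 104935941), (73, 1, 1, 39061011, 39061011), (68, 1, 1, 40108821, 84157971), (58, 1, 1, 37946901, 33900051), (57, 1, 1, 37946901, 33900051), (75, 1, 1, 39061011, 39061011), (70, 1, 1, 39060246, 5514771), (87, 1, 1, 40108821, 84157971), (133, 1, 1, 37098756, 69228081), (92, 1, 1, 38143251, 69535251), (133, 16, 16, 84296241,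 73601541), (57, 16, 16, 69547536, 38155536), (105, 1, 1, 40047621, 84035121), (51, 1, 1, 37950981, 33900081), (50, 1, 1, 37950981, 33900081), (70, 16, 16, 86389776, 73544976), (129, 16, 16, 84296241, 73601541), (105, 1, 1, 40043541, 84035091), (129, 16, 16, 84292161, 73478661), (133, 16, 16, 84292161, 73478661)]
  [(37, 192), (38, 48), (42, -96), (43, -48), (50, 96), (51, 48), (57, -192), (58, -48), (62, 24), (63, 96), (64, 24), (69, 48), (70, -48), (72, -96), (73, 96), (74, -24), (75, 24), (87, 48), (88, -24), (90, -96), (91, -48), (95, -24), (96, -96), (97, -24), (104, 24), (105, -48), (107, 96), (111, 48), (127, 240), (129, 264), (132, -264), (133, -240), (134, 144), (135, 120), (136, -120), (137, -144)] = true := by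
  decide +kernel

theorem t62_2_3 : chkS lk62 2 5 [(1, m62_2)] l62_3
  [(44, 1, 1, 54924546, 69558321), (89, 16, 16, 19158576, 36967776), (91, 16, 16, 19280976, 68302176), (8, 1, 1, 105984036, 105918786), (112, 16, 16, 20317506, 69292131), (61, 1, 1, 54924546, 69558321), (36, 1, 1, 55649796, 38822721), (106, 16, 16, 19268931, 69272931), (125, 16, 16, 18900051, 51512676), (76, 1, 1, 87303681, 40129281), (41, 1, 1, 55711236, 38822961), (131, 1, 1, 73601541, 84296241), (55, 1, 1, 54924546, 69558321), (110, 1, 1, 21313056, 38089056), (111, 1, 1, 21374256, 69538656), (9, 16, 16, 34890576, 51652176), (92, 1, 1, 21366051, 69534051), (39, 1, 1, 21366051, 69534051), (36, 1, 1, 22218276, 38814051), (87, 1, 1, 23331621, 84156771), (130, 16, 16, 67330641, 51790341), (76, 16, 16, 86259216, 40121616), (49, 1, 1, 55711236, 38822961), (126, 1, 1, 23082021, 84029796)]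
  [(8, -120), (9, 120), (39, 120), (41, -120), (44, 120), (49, 120), (55, -120), (61, -120), (87, -120), (89, -120), (91, 120), (92, 120), (106, 120), (110, 120), (111, -120), (112, -120), (125, 120), (126, 120), (130, -120), (131, -120)] = true := by
  decide +kernel

theorem t62_2_4 : chkS lk62 2 5 [(1, m62_2)] l62_4
  [(64, 1, 1, 87430146, 73551921), (91, 1, 1, 72427011, 39191361), (91, 1, 1, 88478211, 73728561), (90, 1, 1, 88217091, 40174641), (134, 16, 16, 33900081, 37950981), (63, 1, 1, 87299586, 40128561), (91, 1, 1, 88474131, 73728531), (132, 16, 16, 33961281, 69285381), (132, 16, 16, 33965361, 69408261), (134, 16, 16, 33896001, 37828101), (69, 1, 1, 55837206, 5530131), (127, 16, 16, 33965361, 69408261), (112, 1, 1, 72749826, 72753201), (105, 1, 1, 72552966, 5653041), (136, 16, 16, 50684961, 54681861), (68, 1, 1, 55837206, 5530131), (43, 1, 1, 69604611,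 69600561), (87, 1, 1, 87107076, 39867201), (38, 1, 1, 70653186, 69619761), (88, 1, 1, 88217091, 40174641), (68, 1, 1, 87303681, 40129281), (62, 1, 1, 87299586, 40128561), (112, 1, 1, 72745746, 72753171), (74, 1, 1, 55842306, 39084081), (69, 1, 1, 55841286, 5530161), (37, 1, 1, 54601221, 33907521), (38, 1, 1, 54601221, 33907521), (72, 1, 1, 55842306, 39084081), (68, 1, 1, 55841286, 5530161), (127, 16, 16, 33961281, 69285381), (105, 1, 1, 72548886, 5653011), (136, 16, 16, 50668641, 21127941), (127, 1, 1, 88474131, 73728531), (69, 1, 1, 87434241, 73552641), (132, 1, 1, 87425556, 73421331), (42, 1, 1, 69539331, 38143281), (43, 1, 1, 37950981, 33900081), (37, 1, 1, 70587906, 38162481), (87, 1, 1, 55841286, 5530161), (132, 1, 1, 87429636, 73421361), (87, 1, 1, 55837206, 5530131), (127, 1, 1, 88478211, 73728561), (97, 1, 1, 55842306, 39084081), (111, 16, 16, 87115266,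 40063041), (111, 1, 1, 55972866, 72507441), (107, 1, 1, 55842306, 39084081), (137, 16, 16, 67461921, 54927621), (96, 1, 1, 55842306, 39084081), (111, 1, 1, 55968786, 72507411), (129, 1, 1, 38143251, 69535251), (129, 1, 1, 38147331, 69535281), (137, 16, 16, 67445601, 21373701), (70, 1, 1, 39064326, 5514801), (133, 1, 1, 37094676, 69228051), (92, 1, 1, 38147331, 69535281), (87, 1, 1, 40112901, 84158001), (135, 16, 16, 101007921, 105058821), (68, 1, 1, 40112901, 84158001), (51, 16, 16, 69604611, 69600561), (105, 16, 16, 102843651, 102958401), (58, 16, 16, 69612816, 69612816), (104, 1, 1, 55841286, 5530161), (68, 16, 16, 103036176, 103036176), (95, 1, 1, 55841286, 5530161), (92, 1, 1, 38143251, 69535251), (75, 1, 1, 39061011, 39061011), (70, 1, 1, 39060246, 5514771), (57, 1, 1, 37946901, 33900051), (58, 1, 1, 37946901, 33900051), (73, 1, 1, 39061011, 39061011),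 (68, 1, 1, 40108821, 84157971), (133, 1, 1, 37098756, 69228081), (87, 1, 1, 40108821, 84157971), (135, 16, 16, 101003841, 104935941), (133, 16, 16, 84292161, 73478661), (70, 16, 16, 86389776, 73544976), (129, 16, 16, 84296241, 73601541), (50, 1, 1, 37950981, 33900081), (51, 1, 1, 37950981, 33900081), (57, 16, 16, 69547536, 38155536), (105, 1, 1, 40047621, 84035121), (129, 16, 16, 84292161, 73478661), (105, 1, 1, 40043541, 84035091), (133, 16, 16, 84296241, 73601541)]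
  [(37, 48), (38, 72), (42, -24), (43, -72), (50, 24), (51, 72), (57, -48), (58, -72), (62, -24), (63, 24), (64, 96), (69, 72), (70, -72), (72, -24), (73, 24), (74, -96), (75, 96), (87, -288), (88, 24), (90, -24), (91, 48), (92, 120), (95, 24), (96, -24), (97, -96), (104, -24), (105, 288), (107, 24), (111, -48), (112, -120), (127, 120), (129, 96), (132, -96), (133, -120), (134, -24), (137, 24)] = true := by
  decide +kernel

theorem t62_2_5 : chkS lk62 2 5 [(1, m62_2)] l62_5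
  [(73, 16, 16, 19150416, 34878816), (57, 16, 16, 19093056, 36783456), (67, 16, 16, 19161936, 51651936), (59, 16, 16, 19093056, 36783456), (71, 16, 16, 19161936, 51651936), (75, 16, 16, 19280976, 68302176), (73, 16, 16, 19158576, 36967776), (57, 16, 16, 19088976, 34817376), (39, 1, 1, 38147331, 69535281), (39, 1, 1, 38143251, 69535251), (29, 1, 1, 38995476, 38815251), (45, 1, 1, 55711236, 38822961), (118, 16, 16, 19158531, 36963681), (46, 1, 1, 4269621, 33887046), (48, 1, 1, 54924546, 69558321), (30, 1, 1, 37946901, 33900051), (68, 1, 1, 23331621, 84156771), (105, 1, 1, 6370341, 84029766), (114, 16, 16, 50618961, 51667461), (9, 16, 16, 3301716, 51401766), (117, 16, 16, 50618961, 51667461), (70, 1, 1, 22283046, 5513571), (115, 1, 1, 56889861, 84173361), (47, 1, 1, 4273701, 33894726), (29, 1, 1, 38999556, 38815281), (45, 1, 1, 55707156, 38822931), (118, 16,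 16, 19138131, 34866531), (46, 1, 1, 4273701, 33894726), (119, 16, 16, 19268691, 68289891), (116, 1, 1, 22294566, 5517666), (48, 1, 1, 54920466, 69558291), (30, 1, 1, 37950981, 33900081), (106, 16, 16, 3236946, 51531846), (58, 1, 1, 21169701, 33898851), (36, 1, 1, 38999556, 38815281), (36, 1, 1, 38995476, 38815251), (46, 16, 16, 2184771, 36767046), (57, 1, 1, 21169701, 33898851), (12, 1, 1, 19093056, 36783456), (103, 16, 16, 2188371, 51512646), (46, 16, 16, 2180691, 34800966), (57, 1, 1, 21177861, 33899361)]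
  [(9, 96), (12, 96), (46, 768), (47, 96), (57, -768), (58, -96), (59, -96), (67, 96), (68, 96), (70, -96), (71, -96), (73, 384), (75, 96), (103, -96), (105, -96), (106, 96), (114, -96), (115, -96), (116, 96), (117, 96), (118, -384), (119, -96)] = true := by
  decide +kernel

theorem t62_2_6 : chkS lk62 2 5 [(1, m62_2)] l62_6
  [(78, 1, 1, 106168851, 106168851), (69, 16, 16, 69612816, 69612816), (65, 1, 1, 104076546, 103043121), (92, 1, 1, 104932611, 103088961), (98, 1, 1, 106173186, 106176561), (51, 1, 1, 106107396, 105923121), (112, 16, 16, 103892226, 102977601), (58, 1, 1, 106103316, 105923091), (77, 1, 1, 106173186, 106176561), (38, 1, 1, 105980676, 105915201), (70, 1, 1, 70657281, 69620481), (43, 1, 1, 106107396, 105923121)]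
  [(38, 240), (43, -240), (51, 240), (58, -240), (65, 240), (69, -240), (70, 240), (77, -240), (78, 240), (92, -240), (98, -240), (112, 240)] = true := by
  decide +kernel

theorem t62_2_7 : chkS lk62 2 5 [(1, m62_2)] l62_7
  [(80, 1, 1, 5505555, 5505555), (21, 1, 1, 5444100, 5259825), (66, 1, 1, 3413250, 2379825), (94, 1, 1, 4330755, 2425905), (99, 1, 1, 5509890, 5513265), (54, 1, 1, 4395525, 344625), (113, 1, 1, 5509890, 5513265), (21, 16, 16, 2180355, 2295105), (79, 1, 1, 5509890, 5513265), (25, 16, 16, 2425155, 4261155), (25, 16, 16, 1266240, 3228240), (18, 1, 1, 2429955, 4326705)]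
  [(18, -240), (21, -480), (25, 480), (54, 240), (66, 240), (79, -240), (80, 240), (94, -240), (99, -240), (113, 240)] = true := by
  decide +kernel

theorem t62_3_3 : chkS lk62 2 5 [(1, m62_3)] l62_3
  [(4, 1, 1, 70653186, 69619761), (90, 16, 16, 34948656, 37951056), (90, 16, 16, 35009856, 69285456), (86, 16, 16, 35013936, 69408336), (108, 16, 16, 51782736, 68313936), (60, 1, 1, 54924546, 69558321), (57, 1, 1, 55711236, 38822961), (103, 16, 16, 20317506, 69292131), (103, 16, 16, 51536976, 51536976), (57, 1, 1, 87303681, 40129281), (42, 1, 1, 87299586, 40128561), (132, 1, 1, 73601541, 84296241), (6, 16, 16, 35013936, 69408336), (107, 16, 16, 68376096, 37110096), (107, 16, 16, 68559696, 68559696), (3, 16, 16, 35013936, 69408336), (89, 16, 16, 68563536, 68563536), (11, 1, 1, 70653186, 69619761), (37, 1, 1, 22218276, 38814051), (8, 16, 16, 101925456, 101925456),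 (8, 1, 1, 23082276, 85995876), (37, 16, 16, 85210656, 40120656), (50, 1, 1, 55711236, 38822961), (128, 16, 16, 102052416, 104936016)]
  [(3, 120), (4, 120), (6, -120), (8, -240), (11, 120), (37, -240), (42, -120), (50, 120), (57, 240), (60, -120), (86, -120), (89, 120), (103, 240), (108, -120), (128, 120), (132, -120)] = true := by
  decide +kernel

theorem t62_3_4 : chkS lk62 2 5 [(1, m62_3)] l62_4
  [(44, 1, 1, 70587906, 38162481), (91, 16, 16, 34948656, 37951056), (89, 16, 16, 35013936, 69408336), (89, 16, 16, 34948656, 37951056), (91, 16, 16, 35013936, 69408336), (44, 1, 1, 70653186, 69619761), (89, 16, 16, 35009856, 69285456), (8, 1, 1, 90374676, 90194451), (8, 1, 1, 90378756, 90194481), (91, 16, 16, 35009856, 69285456), (76, 1, 1, 55968276, 72376851), (125, 16, 16, 35013936, 69408336), (110, 16, 16, 51794976, 70410576), (9, 16, 16, 21374211, 69534561),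 (112, 16, 16, 51794976, 70410576), (70, 1, 1, 56885781, 84173331), (41, 1, 1, 87430146, 73551921), (131, 1, 1, 88213011, 40174611), (36, 1, 1, 87430146, 73551921), (87, 1, 1, 104994051, 103089201), (58, 1, 1, 87434241, 73552641), (43, 1, 1, 87430146, 73551921), (110, 16, 16, 51782736, 68313936), (61, 1, 1, 70592001, 38163201), (76, 1, 1, 55972356, 72376881), (76, 1, 1, 55711236, 38822961), (70, 1, 1, 56759301, 84042801), (61, 1, 1, 70657281, 69620481), (70, 1, 1, 56889861, 84173361), (125, 16, 16, 35009856, 69285456), (9, 16, 16, 21366051, 69534051), (112, 16, 16, 51782736, 68313936), (106, 16, 16, 34821216, 20072016), (58, 1, 1, 87303681, 40129281), (131, 1, 1, 88474131, 73728531), (41, 1, 1, 87299586, 40128561), (43, 1, 1, 87299586, 40128561), (36, 1, 1, 87299586, 40128561), (87, 1, 1, 105189891, 105185841), (131, 1, 1, 88478211, 73728561), (87, 1, 1, 105185811,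 105185811), (106, 16, 16, 34825296, 51529296), (55, 16, 16, 70587906, 38162481), (111, 16, 16, 68376096, 37110096), (110, 16, 16, 68571936, 70656336), (110, 16, 16, 68376096, 37110096), (111, 16, 16, 68571936, 70656336), (55, 16, 16, 70653186, 69619761), (110, 16, 16, 68559696, 68559696), (9, 1, 1, 19281216, 69285216), (9, 1, 1, 19285296, 69408096), (111, 16, 16, 68559696, 68559696), (76, 1, 1, 39195396, 72361521), (130, 1, 1, 38143251, 69535251), (89, 16, 16, 85344816, 73601616), (8, 16, 16, 85156416, 56705616), (92, 16, 16, 85344816, 73601616), (69, 1, 1, 40112901, 84158001), (49, 16, 16, 87430146, 73551921), (126, 16, 16, 101860656, 102962256), (36, 16, 16, 85341216, 73544016), (106, 1, 1, 40112901, 84158001), (38, 16, 16, 85341216, 73544016), (51, 16, 16, 87430146, 73551921), (89, 16, 16, 85340736, 73478736), (39, 16, 16, 68498976, 38154576), (76, 1,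 1, 39191316, 72361491), (76, 1, 1, 38995476, 38815251), (69, 1, 1, 40043541, 84035091), (39, 16, 16, 68564256, 69611856), (69, 1, 1, 40108821, 84157971), (130, 1, 1, 38147331, 69535281), (8, 16, 16, 85148256, 23282256), (92, 16, 16, 85340736, 73478736), (87, 16, 16, 102052416, 104936016), (38, 16, 16, 85210656, 40120656), (126, 16, 16, 102056496, 105058896), (49, 16, 16, 87299586, 40128561), (51, 16, 16, 87299586, 40128561), (36, 16, 16, 85210656, 40120656), (106, 1, 1, 40047621, 84035121), (126, 16, 16, 102052416, 104936016), (106, 1, 1, 40043541, 84035091), (87, 16, 16, 102056496, 105058896)]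
  [(8, -240), (9, 240), (38, -120), (39, 120), (43, -120), (44, 120), (51, 120), (55, -120), (58, 120), (61, -120), (69, -120), (70, 120), (87, -240), (89, 240), (91, -120), (106, 240), (110, -240), (111, 120), (131, 0)] = true := by
  decide +kernel

theorem t62_3_5 : chkS lk62 2 5 [(1, m62_3)] l62_5
  [(39, 16, 16, 35009856, 69285456), (37, 16, 16, 34821696, 36783696), (10, 1, 1, 5648676, 72364326), (10, 1, 1, 5322276, 38809926), (37, 16, 16, 35017536, 70329936), (39, 16, 16, 34944576, 37828176), (39, 16, 16, 35013936, 69408336), (37, 16, 16, 34817616, 34817616), (11, 16, 16, 4601121, 69546246), (11, 16, 16, 4597041, 69538566), (30, 1, 1, 38995476, 38815251), (46, 1, 1, 55711236, 38822961), (48, 16, 16, 51791136, 69427536), (120, 1, 1, 55707156, 38822931), (13, 16, 16, 3556626, 69423126), (35, 1, 1, 38143251, 69535251), (69, 1, 1, 23331621, 84156771), (127,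 16, 16, 51667536, 51667536), (12, 1, 1, 3560001, 70341126), (125, 16, 16, 51667536, 51667536), (46, 16, 16, 51794496, 70345296), (76, 1, 1, 22414116, 72360291), (116, 1, 1, 56889861, 84173361), (116, 1, 1, 56759301, 84042801), (30, 1, 1, 38999556, 38815281), (46, 1, 1, 55707156, 38822931), (48, 16, 16, 51782976, 69296976), (120, 1, 1, 55711236, 38822961), (48, 16, 16, 51717696, 37839696), (120, 1, 1, 55972356, 72376881), (13, 16, 16, 3544386, 69292086), (35, 1, 1, 38147331, 69535281), (127, 16, 16, 51536976, 51536976), (69, 1, 1, 23266341, 84033891), (37, 1, 1, 38999556, 38815281), (37, 1, 1, 38995476, 38815251), (46, 16, 16, 51533376, 36791376), (76, 1, 1, 22218276, 38814051), (12, 1, 1, 3298881, 36787206), (125, 16, 16, 51536976, 51536976), (46, 16, 16, 51529296, 34825296), (76, 1, 1, 22226436, 38814561)]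
  [(37, -480), (39, 480), (46, 480), (48, -480), (76, -480), (120, 480), (127, 0)] = true := by
  decide +kernel

theorem t62_3_6 : chkS lk62 2 5 [(1, m62_3)] l62_6
  [(39, 16, 16, 102052896, 105001296), (10, 1, 1, 106107396, 105923121), (44, 1, 1, 104141826, 105009201), (91, 16, 16, 101995056, 104075856), (55, 16, 16, 104141826, 105009201), (52, 16, 16, 104141826, 105009201), (109, 16, 16, 101930016, 103956816), (71, 1, 1, 73597461, 84296211), (61, 1, 1, 104145921, 105009921), (71, 1, 1, 73536261, 84288561), (59, 1, 1, 104145921, 105009921), (5, 1, 1, 104141826, 105009201)]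
  [(5, -240), (10, -240), (39, 240), (44, 240), (52, 240), (55, -240), (59, 240), (61, -240), (91, -240), (109, 240)] = true := by
  decide +kernel

theorem t62_3_7 : chkS lk62 2 5 [(1, m62_3)] l62_7
  [(40, 16, 16, 1389600, 4338000), (16, 1, 1, 5444100, 5259825), (14, 1, 1, 4526850, 4530225), (93, 16, 16, 1393200, 4395600), (56, 16, 16, 3478530, 4345905), (53, 16, 16, 3478530, 4345905), (22, 16, 16, 4281090, 3481665), (81, 1, 1, 5440020, 5259795), (26, 16, 16, 3473730, 4280355), (81, 1, 1, 5378820, 5252145), (16, 16, 16, 1266240, 3228240), (17, 1, 1, 3478530, 4345905)]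
  [(14, 240), (17, -240), (22, 240), (26, -240), (40, 240), (53, 240), (56, -240), (93, -240)] = true := by
  decide +kernel

theorem t62_4_4 : chkS lk62 2 5 [(1, m62_4)] l62_4
  [(63, 1, 1, 87430146, 73551921), (134, 16, 16, 33965361, 69408261), (90, 1, 1, 88478211, 73728561), (91, 1, 1, 88217091, 40174641), (91, 1, 1, 72753411, 72745761), (64, 1, 1, 87299586, 40128561), (90, 1, 1, 88474131, 73728531), (132, 16, 16, 33896001, 37828101), (132, 16, 16, 33900081, 37950981), (91, 1, 1, 72745251, 72745251), (37, 1, 1, 54919461, 67461411), (127, 16, 16, 33900081, 37950981), (108, 1, 1, 72749826, 72753201), (105, 1, 1, 72487686, 5645361), (112, 1, 1, 88486176, 73740576), (38, 1, 1, 54919461, 67461411), (42, 1, 1, 69604611, 69600561), (132, 1, 1, 87164436, 39867411), (37, 1, 1, 70653186, 69619761), (87, 1, 1, 55710726, 5399601), (69, 1, 1, 87303681, 40129281), (43,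 1, 1, 38146821, 67446321), (108, 1, 1, 72745746, 72753171), (72, 1, 1, 55972866, 72507441), (37, 1, 1, 54927621, 67461921), (69, 1, 1, 55710726, 5399601), (68, 1, 1, 55710726, 5399601), (74, 1, 1, 55972866, 72507441), (38, 1, 1, 54927621, 67461921), (127, 16, 16, 33896001, 37828101), (105, 1, 1, 72483606, 5645331), (112, 1, 1, 88482096, 73732896), (105, 1, 1, 88482096, 73732896), (68, 1, 1, 87434241, 73552641), (87, 1, 1, 87433476, 73421601), (43, 1, 1, 69539331, 38143281), (62, 1, 1, 87430146, 73551921), (38, 1, 1, 70587906, 38162481), (88, 1, 1, 88478211, 73728561), (87, 1, 1, 87425316, 73421091), (88, 1, 1, 88474131, 73728531), (105, 1, 1, 88486176, 73740576), (96, 1, 1, 55972866, 72507441), (137, 16, 16, 67331361, 52838661), (107, 1, 1, 55972866, 72507441), (111, 1, 1, 55842306, 39084081), (111, 16, 16, 87441666, 73617441), (97, 1, 1, 55972866, 72507441),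 (107, 1, 1, 55968786, 72507411), (129, 1, 1, 38077971, 38077971), (129, 1, 1, 38082051, 38078001), (111, 16, 16, 87425346, 73486371), (57, 1, 1, 38146821, 67446321), (133, 1, 1, 37029396, 37770771), (89, 1, 1, 39195651, 72484401), (87, 1, 1, 40047621, 84035121), (92, 16, 16, 86393136, 73602336), (58, 1, 1, 38146821, 67446321), (50, 1, 1, 38146821, 67446321), (129, 16, 16, 84035121, 40047621), (57, 16, 16, 69612816, 69612816), (105, 1, 1, 40112901, 84158001), (70, 16, 16, 86259216, 40121616), (51, 1, 1, 38146821, 67446321), (89, 1, 1, 39191571, 72484371), (73, 1, 1, 39191571, 72484371), (57, 1, 1, 38142741, 67446291), (70, 1, 1, 38994966, 5391891), (68, 1, 1, 40043541, 84035091), (75, 1, 1, 39191571, 72484371), (58, 1, 1, 38142741, 67446291), (133, 1, 1, 37033476, 37770801), (87, 1, 1, 40043541, 84035091), (92, 16, 16, 86389056, 73479456), (87, 16, 16, 103100736,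 104936736), (68, 16, 16, 103101456, 105002256), (105, 16, 16, 103104771, 105055521), (51, 16, 16, 69539331, 38143281), (95, 1, 1, 55710726, 5399601), (58, 16, 16, 69547536, 38155536), (104, 1, 1, 55710726, 5399601), (105, 16, 16, 103088451, 104924451), (104, 1, 1, 55706646, 5399571), (87, 16, 16, 103104816, 105059616)]
  [(37, -48), (38, 48), (42, 24), (43, -48), (50, -24), (51, 48), (57, 48), (58, -48), (62, -96), (63, 96), (64, 24), (69, 48), (70, -48), (72, -96), (73, 96), (74, -24), (75, 24), (87, -192), (88, -144), (89, 120), (90, 144), (91, -48), (95, 96), (96, -96), (97, -24), (104, 144), (105, 192), (107, -144), (108, -120), (111, 48), (129, 144), (132, -144), (134, -96), (137, 96)] = true := by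
  decide +kernel

theorem t62_4_5 : chkS lk62 2 5 [(1, m62_4)] l62_5
  [(75, 16, 16, 19150416, 34878816), (71, 16, 16, 19096656, 51529056), (59, 16, 16, 19288896, 70329696), (67, 16, 16, 19096656, 51529056), (57, 16, 16, 19288896, 70329696), (73, 16, 16, 19280976, 68302176), (75, 16, 16, 19158576, 36967776), (71, 16, 16, 19092576, 20071776), (39, 1, 1, 38082051, 38078001), (39, 1, 1, 38077971, 38077971), (31, 1, 1, 38995476, 38815251), (47, 1, 1, 55711236, 38822961), (119, 16, 16, 19158531, 36963681), (116, 1, 1, 22029366, 5378916), (48, 1, 1, 54859266, 38101041), (30, 1, 1, 38142741, 67446291), (58, 1, 1, 21365541, 67445091), (106, 16, 16, 3432786, 51662886), (12, 1, 1, 19288896, 70329696), (103, 16, 16, 2384211, 51643686), (46, 16, 16, 2511171, 70321446), (57, 1, 1, 21365541, 67445091), (47, 1, 1, 4600101, 67449126), (115, 1, 1, 56759301, 84042801), (31,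 1, 1, 38999556, 38815281), (47, 1, 1, 55707156, 38822931), (119, 16, 16, 19138131, 34866531), (116, 1, 1, 22033446, 5386596), (118, 16, 16, 19268691, 68289891), (46, 1, 1, 4600101, 67449126), (48, 1, 1, 54855186, 38101011), (30, 1, 1, 38146821, 67446321), (105, 1, 1, 6566181, 84160806), (68, 1, 1, 23266341, 84033891), (38, 1, 1, 38999556, 38815281), (38, 1, 1, 38995476, 38815251), (117, 16, 16, 50488401, 51536901), (70, 1, 1, 22217766, 5390691), (114, 16, 16, 50488401, 51536901), (9, 16, 16, 3236436, 51401286), (117, 16, 16, 50484321, 20079621), (70, 1, 1, 22225926, 5391201)]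
  [(9, -96), (12, -96), (46, 192), (47, -96), (57, -192), (58, 96), (59, 96), (67, -96), (68, -96), (70, -384), (71, -384), (73, 96), (75, 384), (103, 96), (105, 96), (106, -96), (114, 96), (115, 96), (116, 384), (117, 384), (118, -96), (119, -384)] = true := by
  decide +kernel

theorem t62_4_6 : chkS lk62 2 5 [(1, m62_4)] l62_6
  [(39, 1, 1, 105185571, 105185571), (69, 16, 16, 69547536, 38155536), (44, 1, 1, 105190146, 105193521), (91, 16, 16, 103043376, 104076576), (55, 1, 1, 105190146, 105193521), (51, 1, 1, 106042116, 105915441), (111, 1, 1, 105197856, 105197856), (38, 1, 1, 106103076, 105922851), (61, 1, 1, 105190146, 105193521), (58, 1, 1, 106042116, 105915441), (70, 1, 1, 70592001, 38163201), (43, 1, 1, 106042116, 105915441)]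
  [(38, -240), (39, 240), (43, -240), (44, 240), (51, 240), (55, -240), (58, 240), (61, -240), (69, -240), (70, 240), (91, -240), (111, 240)] = true := by
  decide +kernel

theorem t62_4_7 : chkS lk62 2 5 [(1, m62_4)] l62_7
  [(40, 1, 1, 4522275, 4522275), (21, 1, 1, 5378820, 5252145), (14, 1, 1, 3478530, 4345905), (93, 1, 1, 5379075, 5375025), (56, 1, 1, 4526850, 4530225), (54, 1, 1, 4330245, 336945), (23, 16, 16, 1262880, 2310480), (25, 16, 16, 2180355, 2295105), (26, 16, 16, 1385280, 4268880), (21, 16, 16, 2425155, 4261155), (25, 16, 16, 1200960, 3220560), (18, 1, 1, 2364675, 2360625)]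
  [(14, 240), (18, -240), (23, 240), (26, -240), (40, 240), (54, 240), (56, -240), (93, -240)] = true := by
  decide +kernel

theorem t62_5_5 : chkS lk62 2 5 [(1, m62_5)] l62_5
  [(82, 16, 16, 34879056, 34879056), (60, 16, 16, 34879056, 34879056), (72, 16, 16, 34878816, 19150416), (61, 16, 16, 19088976, 34817376), (61, 16, 16, 35009616, 68302416), (83, 16, 16, 34879056, 34879056), (72, 16, 16, 34879056, 34879056), (61, 16, 16, 19088736, 19088736), (61, 16, 16, 35009856, 69285456), (83, 16, 16, 34878816, 19150416), (72, 1, 1, 34866771, 34866771), (108, 1, 1, 33756756, 34620981), (118, 16, 16, 50615841, 36987141), (110, 16, 16, 33900081, 37950981), (48, 1, 1, 33953091, 69273141), (61, 1, 1, 34997571, 69273171), (72, 1, 1, 34866531, 19138131), (108, 1, 1, 33756516, 18892341), (118, 16, 16, 50614881, 20210181), (110, 16, 16, 33899361, 21177861), (48, 1, 1, 33952851,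 68290101), (61, 1, 1, 34997331, 68290131), (118, 1, 1, 50598501, 17064501), (48, 1, 1, 2176596, 34616646), (118, 1, 1, 50599461, 33841461), (48, 1, 1, 2176356, 18888006), (123, 16, 16, 34879056, 34879056), (13, 1, 1, 34801236, 34621011), (124, 16, 16, 34879056, 34879056), (48, 16, 16, 33961041, 68302341), (124, 16, 16, 34878816, 19150416), (48, 16, 16, 33961281, 69285381), (110, 1, 1, 33887076, 20981301), (61, 1, 1, 19072596, 34620771), (110, 1, 1, 33887796, 37754421), (61, 1, 1, 19072356, 18892131), (13, 16, 16, 34817616, 34817616), (60, 1, 1, 34866771, 34866771), (48, 16, 16, 2180691, 34800966), (108, 16, 16, 33768801, 19088901), (48, 16, 16, 2180451, 19072326), (108, 16, 16, 33769041, 34817541)]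
  [(13, 576), (48, 768), (60, -576), (61, -768), (72, 384), (82, 288), (83, 192), (108, -384), (110, 384), (118, -384), (123, -288), (124, -192)] = true := by
  decide +kernel

theorem t62_5_6 : chkS lk62 2 5 [(1, m62_5)] l62_6
  [(78, 16, 16, 101987616, 103035216), (69, 16, 16, 68564256, 69611856), (78, 16, 16, 101986896, 101986896), (69, 16, 16, 68563536, 68563536), (121, 16, 16, 101987616, 103035216), (116, 16, 16, 70653186, 69619761), (116, 1, 1, 70656081, 68571906), (69, 1, 1, 68551251, 68551251), (121, 16, 16, 101986896, 101986896), (116, 16, 16, 70651986, 68571186), (116, 1, 1, 70657281, 69620481), (69, 1, 1, 68551971, 69599571)]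
  [(69, -960), (78, 480), (116, 960), (121, -480)] = true := by
  decide +kernel

theorem t62_5_7 : chkS lk62 2 5 [(1, m62_5)] l62_7
  [(80, 16, 16, 1324320, 2371920), (21, 1, 1, 201300, 1065525), (80, 16, 16, 1323600, 1323600), (21, 1, 1, 202020, 2113845), (122, 16, 16, 1324320, 2371920), (20, 1, 1, 1377315, 4325715), (20, 16, 16, 1389120, 4272720), (21, 16, 16, 214305, 2310405), (122, 16, 16, 1323600, 1323600), (20, 1, 1, 1376835, 4260435), (20, 16, 16, 1389600, 4338000), (21, 16, 16, 213585, 1262085)]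
  [(20, 960), (21, -960), (80, 480), (122, -480)] = true := by
  decide +kernel

theorem t62_6_6 : chkS lk62 2 5 [(1, m62_6)] l62_6
  [(2, 16, 16, 106181136, 106181136), (64, 16, 16, 73740816, 88486416), (83, 16, 16, 105198096, 105198096), (74, 16, 16, 105075216, 104153616), (83, 16, 16, 105194241, 105194241), (75, 1, 1, 104992821, 100996146), (75, 16, 16, 105009921, 104145921), (64, 1, 1, 73732131, 88473906), (100, 16, 16, 105198096, 105198096), (97, 1, 1, 105058341, 101007666), (97, 16, 16, 105075216, 104153616), (74, 1, 1, 105054501, 101007651)]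
  [(2, 240), (64, -480), (74, -480), (75, 480), (97, 480), (100, -240)] = true := by
  decide +kernel

theorem t62_6_7 : chkS lk62 2 5 [(1, m62_6)] l62_7
  [(15, 16, 16, 5517840, 5517840), (14, 16, 16, 5456400, 5456400), (84, 16, 16, 4534800, 4534800), (26, 1, 1, 5321220, 5255745), (84, 16, 16, 4530945, 4530945), (40, 16, 16, 5513985, 5513985), (40, 1, 1, 5509170, 5509170), (14, 1, 1, 5443620, 5259570), (101, 16, 16, 4534800, 4534800), (56, 16, 16, 5509155, 5505330), (56, 1, 1, 5517825, 5517825), (26, 16, 16, 5324835, 5439810)]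
  [(14, -480), (15, 240), (26, -480), (40, 480), (56, 480), (101, -240)] = true := by
  decide +kernel

theorem t62_7_7 : chkS lk62 2 5 [(1, m62_7)] l62_7
  [(27, 16, 16, 274960, 274960), (0, 16, 16, 274960, 274960), (85, 16, 16, 274960, 274960), (28, 1, 1, 200740, 16690), (85, 16, 16, 271105, 271105), (7, 1, 1, 262435, 262435), (7, 16, 16, 274960, 274960), (0, 1, 1, 266275, 262450), (102, 16, 16, 274960, 274960), (1, 16, 16, 148225, 205825), (1, 1, 1, 135235, 66610), (28, 16, 16, 213505, 213505)]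
  [(0, -480), (1, 480), (7, 480), (27, 240), (28, -480), (102, -240)] = true := by
  decide +kernel

section

variable {κ ι : Type*} [Fintype κ] [Fintype ι] [Inhabited κ] [Inhabited ι]

noncomputable def F62_0 (E : Env κ ι) : (Fin 2 → κ) → (Fin 5 → ι) → ℝ := op2 (P12 κ) (P7 ι) (fB E 2 5 m62_0)

noncomputable def F62_1 (E : Env κ ι) : (Fin 2 → κ) → (Fin 5 → ι) → ℝ := op2 (P12 κ) (P7 ι) (fB E 2 5 m62_1)

noncomputable def F62_2 (E : Env κ ι) : (Fin 2 → κ) → (Fin 5 → ι) → ℝ := op2 (P12 κ) (P7 ι) (fB E 2 5 m62_2)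

noncomputable def F62_3 (E : Env κ ι) : (Fin 2 → κ) → (Fin 5 → ι) → ℝ := op2 (P12 κ) (P7 ι) (fB E 2 5 m62_3)

noncomputable def F62_4 (E : Env κ ι) : (Fin 2 → κ) → (Fin 5 → ι) → ℝ := op2 (P12 κ) (P7 ι) (fB E 2 5 m62_4)

noncomputable def F62_5 (E : Env κ ι) : (Fin 2 → κ) → (Fin 5 → ι) → ℝ := op2 (P12 κ) (P7 ι) (fB E 2 5 m62_5)

noncomputable def F62_6 (E : Env κ ι) : (Fin 2 → κ) → (Fin 5 → ι) → ℝ := op2 (P12 κ) (P7 ι) (fB E 2 5 m62_6)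

noncomputable def F62_7 (E : Env κ ι) : (Fin 2 → κ) → (Fin 5 → ι) → ℝ := op2 (P12 κ) (P7 ι) (fB E 2 5 m62_7)

def r62_0_0 : List (ℕ × ℤ) := [(13, 24), (48, -48), (60, -24), (61, 48), (72, 96), (74, -120), (82, 72), (83, -72), (108, -216), (110, 216), (118, -96), (119, 120), (123, -72), (124, 72), (136, 0)]

theorem h62_0_0 (E : Env κ ι) : ip (F62_0 E) (F62_0 E) = dotS (ek E lk62) r62_0_0 :=
  op_entryZ E lk62 2 5 _ _ _ _ (pg12 κ) (pg7 ι) m62_0 m62_0 l62_0 z62_0 w62_0 x62_0 (by decide) _ (chkS_sound E lk62 2 5 _ _ _ _ t62_0_0)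

def r62_0_1 : List (ℕ × ℤ) := [(9, 96), (12, 96), (46, 48), (47, -144), (57, -48), (58, 144), (59, -96), (67, 96), (68, -144), (70, 144), (71, -96), (73, 144), (75, -144), (103, -96), (105, -96), (106, 96), (114, -96), (115, 144), (116, -144), (117, 96), (118, -144), (119, 144)]

theorem h62_0_1 (E : Env κ ι) : ip (F62_0 E) (F62_1 E) = dotS (ek E lk62) r62_0_1 :=
  op_entryZ E lk62 2 5 _ _ _ _ (pg12 κ) (pg7 ι) m62_0 m62_1 l62_1 z62_1 w62_1 x62_1 (by decide) _ (chkS_sound E lk62 2 5 _ _ _ _ t62_0_1)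

def r62_0_2 : List (ℕ × ℤ) := [(9, 72), (12, -48), (36, 120), (39, -120), (45, -120), (46, 216), (47, -48), (48, 120), (57, -216), (58, 48), (59, 48), (67, 72), (68, 72), (70, -72), (71, -72), (73, 168), (75, -48), (103, -72), (105, -72), (106, 72), (114, -72), (115, -72), (116, 72), (117, 72), (118, -168), (119, 48)]

theorem h62_0_2 (E : Env κ ι) : ip (F62_0 E) (F62_2 E) = dotS (ek E lk62) r62_0_2 :=
  op_entryZ E lk62 2 5 _ _ _ _ (pg12 κ) (pg7 ι) m62_0 m62_2 l62_2 z62_2 w62_2 x62_2 (by decide) _ (chkS_sound E lk62 2 5 _ _ _ _ t62_0_2)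

def r62_0_3 : List (ℕ × ℤ) := [(10, 120), (11, -120), (12, -120), (13, 120), (39, 120), (48, -120), (69, 120), (76, -240), (116, -120), (120, 240), (127, 0)]

theorem h62_0_3 (E : Env κ ι) : ip (F62_0 E) (F62_3 E) = dotS (ek E lk62) r62_0_3 :=
  op_entryZ E lk62 2 5 _ _ _ _ (pg12 κ) (pg7 ι) m62_0 m62_3 l62_3 z62_3 w62_3 x62_3 (by decide) _ (chkS_sound E lk62 2 5 _ _ _ _ t62_0_3)

def r62_0_4 : List (ℕ × ℤ) := [(9, -72), (12, -72), (38, 120), (39, -120), (46, 144), (47, -192), (48, 120), (57, -144), (58, 72), (59, 72), (67, 48), (68, 48), (70, -168), (71, -48), (73, -48), (75, 168), (103, 72), (105, 72), (106, -72), (114, -48), (115, -48), (116, 168), (117, 48), (118, 48), (119, -168)]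

theorem h62_0_4 (E : Env κ ι) : ip (F62_0 E) (F62_4 E) = dotS (ek E lk62) r62_0_4 :=
  op_entryZ E lk62 2 5 _ _ _ _ (pg12 κ) (pg7 ι) m62_0 m62_4 l62_4 z62_4 w62_4 x62_4 (by decide) _ (chkS_sound E lk62 2 5 _ _ _ _ t62_0_4)

def r62_0_5 : List (ℕ × ℤ) := [(13, 192), (48, 96), (60, -192), (61, -96), (72, 288), (82, 96), (83, -96), (108, -288), (110, 288), (118, -288), (123, -96), (124, 96), (136, 0)]

theorem h62_0_5 (E : Env κ ι) : ip (F62_0 E) (F62_5 E) = dotS (ek E lk62) r62_0_5 :=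
  op_entryZ E lk62 2 5 _ _ _ _ (pg12 κ) (pg7 ι) m62_0 m62_5 l62_5 z62_5 w62_5 x62_5 (by decide) _ (chkS_sound E lk62 2 5 _ _ _ _ t62_0_5)

def r62_0_6 : List (ℕ × ℤ) := [(10, 240), (12, -240), (39, -240), (48, 240), (69, -240), (78, 240), (116, 240), (121, -240)]

theorem h62_0_6 (E : Env κ ι) : ip (F62_0 E) (F62_6 E) = dotS (ek E lk62) r62_0_6 :=
  op_entryZ E lk62 2 5 _ _ _ _ (pg12 κ) (pg7 ι) m62_0 m62_6 l62_6 z62_6 w62_6 x62_6 (by decide) _ (chkS_sound E lk62 2 5 _ _ _ _ t62_0_6)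

def r62_0_7 : List (ℕ × ℤ) := [(16, 240), (19, -240), (20, 240), (21, -240), (24, 240), (40, -240), (80, 240), (122, -240)]

theorem h62_0_7 (E : Env κ ι) : ip (F62_0 E) (F62_7 E) = dotS (ek E lk62) r62_0_7 :=
  op_entryZ E lk62 2 5 _ _ _ _ (pg12 κ) (pg7 ι) m62_0 m62_7 l62_7 z62_7 w62_7 x62_7 (by decide) _ (chkS_sound E lk62 2 5 _ _ _ _ t62_0_7)

def r62_1_1 : List (ℕ × ℤ) := [(37, -192), (38, 192), (42, -144), (43, 288), (50, 144), (51, -288), (57, 192), (58, -192), (62, -144), (63, 144), (64, -144), (69, 192), (70, -192), (72, 96), (73, -96), (74, -96), (75, 96), (87, 192), (88, -96), (90, 96), (91, -192), (95, 144), (96, -144), (97, 144), (104, 96), (105, -192), (107, -96), (111, 192), (129, 96), (132, -96), (134, 96), (137, -96)]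

theorem h62_1_1 (E : Env κ ι) : ip (F62_1 E) (F62_1 E) = dotS (ek E lk62) r62_1_1 :=
  op_entryZ E lk62 2 5 _ _ _ _ (pg12 κ) (pg7 ι) m62_1 m62_1 l62_1 z62_1 w62_1 x62_1 (by decide) _ (chkS_sound E lk62 2 5 _ _ _ _ t62_1_1)

def r62_1_2 : List (ℕ × ℤ) := [(37, 96), (38, -96), (42, -48), (43, 96), (50, 48), (51, -96), (57, -96), (58, 96), (62, -48), (63, 48), (64, -48), (69, 144), (70, -144), (72, -48), (73, 48), (74, 48), (75, -48), (87, 144), (88, 48), (90, -48), (91, -144), (95, 48), (96, -48), (97, 48), (104, -48), (105, -144), (107, 48), (111, 144), (129, 192), (132, -192), (134, 192), (137, -192)]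

theorem h62_1_2 (E : Env κ ι) : ip (F62_1 E) (F62_2 E) = dotS (ek E lk62) r62_1_2 :=
  op_entryZ E lk62 2 5 _ _ _ _ (pg12 κ) (pg7 ι) m62_1 m62_2 l62_2 z62_2 w62_2 x62_2 (by decide) _ (chkS_sound E lk62 2 5 _ _ _ _ t62_1_2)

def r62_1_3 : List (ℕ × ℤ) := [(69, 240), (70, -240), (87, 240), (89, -240), (91, 240), (106, -240), (110, 240), (111, -240), (126, 240), (131, -240)]

theorem h62_1_3 (E : Env κ ι) : ip (F62_1 E) (F62_3 E) = dotS (ek E lk62) r62_1_3 :=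
  op_entryZ E lk62 2 5 _ _ _ _ (pg12 κ) (pg7 ι) m62_1 m62_3 l62_3 z62_3 w62_3 x62_3 (by decide) _ (chkS_sound E lk62 2 5 _ _ _ _ t62_1_3)

def r62_1_4 : List (ℕ × ℤ) := [(37, 144), (38, -144), (42, 48), (43, -96), (50, -48), (51, 96), (57, -144), (58, 144), (62, 48), (63, -48), (64, 48), (69, 96), (70, -96), (72, 48), (73, -48), (74, -48), (75, 48), (87, -144), (88, 192), (90, -192), (91, 144), (95, -48), (96, 48), (97, -48), (104, -192), (105, 144), (107, 192), (111, -144), (129, 48), (132, -48), (134, 48), (137, -48)]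

theorem h62_1_4 (E : Env κ ι) : ip (F62_1 E) (F62_4 E) = dotS (ek E lk62) r62_1_4 :=
  op_entryZ E lk62 2 5 _ _ _ _ (pg12 κ) (pg7 ι) m62_1 m62_4 l62_4 z62_4 w62_4 x62_4 (by decide) _ (chkS_sound E lk62 2 5 _ _ _ _ t62_1_4)

def r62_1_5 : List (ℕ × ℤ) := [(9, 288), (12, 288), (46, 384), (47, -192), (57, -384), (58, 192), (59, -288), (67, 288), (68, -192), (70, 192), (71, 192), (73, 192), (75, -192), (103, -288), (105, 192), (106, -192), (114, -288), (115, 192), (116, -192), (117, -192), (118, -192), (119, 192)]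

theorem h62_1_5 (E : Env κ ι) : ip (F62_1 E) (F62_5 E) = dotS (ek E lk62) r62_1_5 :=
  op_entryZ E lk62 2 5 _ _ _ _ (pg12 κ) (pg7 ι) m62_1 m62_5 l62_5 z62_5 w62_5 x62_5 (by decide) _ (chkS_sound E lk62 2 5 _ _ _ _ t62_1_5)

def r62_1_6 : List (ℕ × ℤ) := [(38, 480), (39, -480), (58, -480), (61, 480), (77, -480), (78, 480)]

theorem h62_1_6 (E : Env κ ι) : ip (F62_1 E) (F62_6 E) = dotS (ek E lk62) r62_1_6 :=
  op_entryZ E lk62 2 5 _ _ _ _ (pg12 κ) (pg7 ι) m62_1 m62_6 l62_6 z62_6 w62_6 x62_6 (by decide) _ (chkS_sound E lk62 2 5 _ _ _ _ t62_1_6)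

def r62_1_7 : List (ℕ × ℤ) := [(21, -480), (25, 480), (26, 480), (40, -480), (79, -480), (80, 480)]

theorem h62_1_7 (E : Env κ ι) : ip (F62_1 E) (F62_7 E) = dotS (ek E lk62) r62_1_7 :=
  op_entryZ E lk62 2 5 _ _ _ _ (pg12 κ) (pg7 ι) m62_1 m62_7 l62_7 z62_7 w62_7 x62_7 (by decide) _ (chkS_sound E lk62 2 5 _ _ _ _ t62_1_7)

def r62_2_2 : List (ℕ × ℤ) := [(37, 192), (38, 48), (42, -96), (43, -48), (50, 96), (51, 48), (57, -192), (58, -48), (62, 24), (63, 96), (64, 24), (69, 48), (70, -48), (72, -96), (73, 96), (74, -24), (75, 24), (87, 48), (88, -24), (90, -96), (91, -48), (95, -24), (96, -96), (97, -24), (104, 24), (105, -48), (107, 96), (111, 48), (127, 240), (129, 264), (132, -264), (133, -240), (134, 144), (135, 120), (136, -120), (137, -144)]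

theorem h62_2_2 (E : Env κ ι) : ip (F62_2 E) (F62_2 E) = dotS (ek E lk62) r62_2_2 :=
  op_entryZ E lk62 2 5 _ _ _ _ (pg12 κ) (pg7 ι) m62_2 m62_2 l62_2 z62_2 w62_2 x62_2 (by decide) _ (chkS_sound E lk62 2 5 _ _ _ _ t62_2_2)

def r62_2_3 : List (ℕ × ℤ) := [(8, -120), (9, 120), (39, 120), (41, -120), (44, 120), (49, 120), (55, -120), (61, -120), (87, -120), (89, -120), (91, 120), (92, 120), (106, 120), (110, 120), (111, -120), (112, -120), (125, 120), (126, 120), (130, -120), (131, -120)]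

theorem h62_2_3 (E : Env κ ι) : ip (F62_2 E) (F62_3 E) = dotS (ek E lk62) r62_2_3 :=
  op_entryZ E lk62 2 5 _ _ _ _ (pg12 κ) (pg7 ι) m62_2 m62_3 l62_3 z62_3 w62_3 x62_3 (by decide) _ (chkS_sound E lk62 2 5 _ _ _ _ t62_2_3)

def r62_2_4 : List (ℕ × ℤ) := [(37, 48), (38, 72), (42, -24), (43, -72), (50, 24), (51, 72), (57, -48), (58, -72), (62, -24), (63, 24), (64, 96), (69, 72), (70, -72), (72, -24), (73, 24), (74, -96), (75, 96), (87, -288), (88, 24), (90, -24), (91, 48), (92, 120), (95, 24), (96, -24), (97, -96), (104, -24), (105, 288), (107, 24), (111, -48), (112, -120), (127, 120), (129, 96), (132, -96), (133, -120), (134, -24), (137, 24)]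

theorem h62_2_4 (E : Env κ ι) : ip (F62_2 E) (F62_4 E) = dotS (ek E lk62) r62_2_4 :=
  op_entryZ E lk62 2 5 _ _ _ _ (pg12 κ) (pg7 ι) m62_2 m62_4 l62_4 z62_4 w62_4 x62_4 (by decide) _ (chkS_sound E lk62 2 5 _ _ _ _ t62_2_4)

def r62_2_5 : List (ℕ × ℤ) := [(9, 96), (12, 96), (46, 768), (47, 96), (57, -768), (58, -96), (59, -96), (67, 96), (68, 96), (70, -96), (71, -96), (73, 384), (75, 96), (103, -96), (105, -96), (106, 96), (114, -96), (115, -96), (116, 96), (117, 96), (118, -384), (119, -96)]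

theorem h62_2_5 (E : Env κ ι) : ip (F62_2 E) (F62_5 E) = dotS (ek E lk62) r62_2_5 :=
  op_entryZ E lk62 2 5 _ _ _ _ (pg12 κ) (pg7 ι) m62_2 m62_5 l62_5 z62_5 w62_5 x62_5 (by decide) _ (chkS_sound E lk62 2 5 _ _ _ _ t62_2_5)

def r62_2_6 : List (ℕ × ℤ) := [(38, 240), (43, -240), (51, 240), (58, -240), (65, 240), (69, -240), (70, 240), (77, -240), (78, 240), (92, -240), (98, -240), (112, 240)]

theorem h62_2_6 (E : Env κ ι) : ip (F62_2 E) (F62_6 E) = dotS (ek E lk62) r62_2_6 :=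
  op_entryZ E lk62 2 5 _ _ _ _ (pg12 κ) (pg7 ι) m62_2 m62_6 l62_6 z62_6 w62_6 x62_6 (by decide) _ (chkS_sound E lk62 2 5 _ _ _ _ t62_2_6)

def r62_2_7 : List (ℕ × ℤ) := [(18, -240), (21, -480), (25, 480), (54, 240), (66, 240), (79, -240), (80, 240), (94, -240), (99, -240), (113, 240)]

theorem h62_2_7 (E : Env κ ι) : ip (F62_2 E) (F62_7 E) = dotS (ek E lk62) r62_2_7 :=
  op_entryZ E lk62 2 5 _ _ _ _ (pg12 κ) (pg7 ι) m62_2 m62_7 l62_7 z62_7 w62_7 x62_7 (by decide) _ (chkS_sound E lk62 2 5 _ _ _ _ t62_2_7)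

def r62_3_3 : List (ℕ × ℤ) := [(3, 120), (4, 120), (6, -120), (8, -240), (11, 120), (37, -240), (42, -120), (50, 120), (57, 240), (60, -120), (86, -120), (89, 120), (103, 240), (108, -120), (128, 120), (132, -120)]

theorem h62_3_3 (E : Env κ ι) : ip (F62_3 E) (F62_3 E) = dotS (ek E lk62) r62_3_3 :=
  op_entryZ E lk62 2 5 _ _ _ _ (pg12 κ) (pg7 ι) m62_3 m62_3 l62_3 z62_3 w62_3 x62_3 (by decide) _ (chkS_sound E lk62 2 5 _ _ _ _ t62_3_3)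

def r62_3_4 : List (ℕ × ℤ) := [(8, -240), (9, 240), (38, -120), (39, 120), (43, -120), (44, 120), (51, 120), (55, -120), (58, 120), (61, -120), (69, -120), (70, 120), (87, -240), (89, 240), (91, -120), (106, 240), (110, -240), (111, 120), (131, 0)]

theorem h62_3_4 (E : Env κ ι) : ip (F62_3 E) (F62_4 E) = dotS (ek E lk62) r62_3_4 :=
  op_entryZ E lk62 2 5 _ _ _ _ (pg12 κ) (pg7 ι) m62_3 m62_4 l62_4 z62_4 w62_4 x62_4 (by decide) _ (chkS_sound E lk62 2 5 _ _ _ _ t62_3_4)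

def r62_3_5 : List (ℕ × ℤ) := [(37, -480), (39, 480), (46, 480), (48, -480), (76, -480), (120, 480), (127, 0)]

theorem h62_3_5 (E : Env κ ι) : ip (F62_3 E) (F62_5 E) = dotS (ek E lk62) r62_3_5 :=
  op_entryZ E lk62 2 5 _ _ _ _ (pg12 κ) (pg7 ι) m62_3 m62_5 l62_5 z62_5 w62_5 x62_5 (by decide) _ (chkS_sound E lk62 2 5 _ _ _ _ t62_3_5)

def r62_3_6 : List (ℕ × ℤ) := [(5, -240), (10, -240), (39, 240), (44, 240), (52, 240), (55, -240), (59, 240), (61, -240), (91, -240), (109, 240)]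

theorem h62_3_6 (E : Env κ ι) : ip (F62_3 E) (F62_6 E) = dotS (ek E lk62) r62_3_6 :=
  op_entryZ E lk62 2 5 _ _ _ _ (pg12 κ) (pg7 ι) m62_3 m62_6 l62_6 z62_6 w62_6 x62_6 (by decide) _ (chkS_sound E lk62 2 5 _ _ _ _ t62_3_6)

def r62_3_7 : List (ℕ × ℤ) := [(14, 240), (17, -240), (22, 240), (26, -240), (40, 240), (53, 240), (56, -240), (93, -240)]

theorem h62_3_7 (E : Env κ ι) : ip (F62_3 E) (F62_7 E) = dotS (ek E lk62) r62_3_7 :=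
  op_entryZ E lk62 2 5 _ _ _ _ (pg12 κ) (pg7 ι) m62_3 m62_7 l62_7 z62_7 w62_7 x62_7 (by decide) _ (chkS_sound E lk62 2 5 _ _ _ _ t62_3_7)

def r62_4_4 : List (ℕ × ℤ) := [(37, -48), (38, 48), (42, 24), (43, -48), (50, -24), (51, 48), (57, 48), (58, -48), (62, -96), (63, 96), (64, 24), (69, 48), (70, -48), (72, -96), (73, 96), (74, -24), (75, 24), (87, -192), (88, -144), (89, 120), (90, 144), (91, -48), (95, 96), (96, -96), (97, -24), (104, 144), (105, 192), (107, -144), (108, -120), (111, 48), (129, 144), (132, -144), (134, -96), (137, 96)]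

theorem h62_4_4 (E : Env κ ι) : ip (F62_4 E) (F62_4 E) = dotS (ek E lk62) r62_4_4 :=
  op_entryZ E lk62 2 5 _ _ _ _ (pg12 κ) (pg7 ι) m62_4 m62_4 l62_4 z62_4 w62_4 x62_4 (by decide) _ (chkS_sound E lk62 2 5 _ _ _ _ t62_4_4)

def r62_4_5 : List (ℕ × ℤ) := [(9, -96), (12, -96), (46, 192), (47, -96), (57, -192), (58, 96), (59, 96), (67, -96), (68, -96), (70, -384), (71, -384), (73, 96), (75, 384), (103, 96), (105, 96), (106, -96), (114, 96), (115, 96), (116, 384), (117, 384), (118, -96), (119, -384)]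

theorem h62_4_5 (E : Env κ ι) : ip (F62_4 E) (F62_5 E) = dotS (ek E lk62) r62_4_5 :=
  op_entryZ E lk62 2 5 _ _ _ _ (pg12 κ) (pg7 ι) m62_4 m62_5 l62_5 z62_5 w62_5 x62_5 (by decide) _ (chkS_sound E lk62 2 5 _ _ _ _ t62_4_5)

def r62_4_6 : List (ℕ × ℤ) := [(38, -240), (39, 240), (43, -240), (44, 240), (51, 240), (55, -240), (58, 240), (61, -240), (69, -240), (70, 240), (91, -240), (111, 240)]

theorem h62_4_6 (E : Env κ ι) : ip (F62_4 E) (F62_6 E) = dotS (ek E lk62) r62_4_6 :=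
  op_entryZ E lk62 2 5 _ _ _ _ (pg12 κ) (pg7 ι) m62_4 m62_6 l62_6 z62_6 w62_6 x62_6 (by decide) _ (chkS_sound E lk62 2 5 _ _ _ _ t62_4_6)

def r62_4_7 : List (ℕ × ℤ) := [(14, 240), (18, -240), (23, 240), (26, -240), (40, 240), (54, 240), (56, -240), (93, -240)]

theorem h62_4_7 (E : Env κ ι) : ip (F62_4 E) (F62_7 E) = dotS (ek E lk62) r62_4_7 :=
  op_entryZ E lk62 2 5 _ _ _ _ (pg12 κ) (pg7 ι) m62_4 m62_7 l62_7 z62_7 w62_7 x62_7 (by decide) _ (chkS_sound E lk62 2 5 _ _ _ _ t62_4_7)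

def r62_5_5 : List (ℕ × ℤ) := [(13, 576), (48, 768), (60, -576), (61, -768), (72, 384), (82, 288), (83, 192), (108, -384), (110, 384), (118, -384), (123, -288), (124, -192)]

theorem h62_5_5 (E : Env κ ι) : ip (F62_5 E) (F62_5 E) = dotS (ek E lk62) r62_5_5 :=
  op_entryZ E lk62 2 5 _ _ _ _ (pg12 κ) (pg7 ι) m62_5 m62_5 l62_5 z62_5 w62_5 x62_5 (by decide) _ (chkS_sound E lk62 2 5 _ _ _ _ t62_5_5)

def r62_5_6 : List (ℕ × ℤ) := [(69, -960), (78, 480), (116, 960), (121, -480)]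

theorem h62_5_6 (E : Env κ ι) : ip (F62_5 E) (F62_6 E) = dotS (ek E lk62) r62_5_6 :=
  op_entryZ E lk62 2 5 _ _ _ _ (pg12 κ) (pg7 ι) m62_5 m62_6 l62_6 z62_6 w62_6 x62_6 (by decide) _ (chkS_sound E lk62 2 5 _ _ _ _ t62_5_6)

def r62_5_7 : List (ℕ × ℤ) := [(20, 960), (21, -960), (80, 480), (122, -480)]

theorem h62_5_7 (E : Env κ ι) : ip (F62_5 E) (F62_7 E) = dotS (ek E lk62) r62_5_7 :=
  op_entryZ E lk62 2 5 _ _ _ _ (pg12 κ) (pg7 ι) m62_5 m62_7 l62_7 z62_7 w62_7 x62_7 (by decide) _ (chkS_sound E lk62 2 5 _ _ _ _ t62_5_7)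

def r62_6_6 : List (ℕ × ℤ) := [(2, 240), (64, -480), (74, -480), (75, 480), (97, 480), (100, -240)]

theorem h62_6_6 (E : Env κ ι) : ip (F62_6 E) (F62_6 E) = dotS (ek E lk62) r62_6_6 :=
  op_entryZ E lk62 2 5 _ _ _ _ (pg12 κ) (pg7 ι) m62_6 m62_6 l62_6 z62_6 w62_6 x62_6 (by decide) _ (chkS_sound E lk62 2 5 _ _ _ _ t62_6_6)

def r62_6_7 : List (ℕ × ℤ) := [(14, -480), (15, 240), (26, -480), (40, 480), (56, 480), (101, -240)]

theorem h62_6_7 (E : Env κ ι) : ip (F62_6 E) (F62_7 E) = dotS (ek E lk62) r62_6_7 :=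
  op_entryZ E lk62 2 5 _ _ _ _ (pg12 κ) (pg7 ι) m62_6 m62_7 l62_7 z62_7 w62_7 x62_7 (by decide) _ (chkS_sound E lk62 2 5 _ _ _ _ t62_6_7)

def r62_7_7 : List (ℕ × ℤ) := [(0, -480), (1, 480), (7, 480), (27, 240), (28, -480), (102, -240)]

theorem h62_7_7 (E : Env κ ι) : ip (F62_7 E) (F62_7 E) = dotS (ek E lk62) r62_7_7 :=
  op_entryZ E lk62 2 5 _ _ _ _ (pg12 κ) (pg7 ι) m62_7 m62_7 l62_7 z62_7 w62_7 x62_7 (by decide) _ (chkS_sound E lk62 2 5 _ _ _ _ t62_7_7)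

theorem row62_0 (E : Env κ ι) : RowG (ek E lk62) (F62_0 E) [F62_0 E, F62_1 E, F62_2 E, F62_3 E, F62_4 E, F62_5 E, F62_6 E, F62_7 E] [r62_0_0, r62_0_1, r62_0_2, r62_0_3, r62_0_4, r62_0_5, r62_0_6, r62_0_7] :=
  rowG_cons _ _ _ _ _ _ (h62_0_0 E) (rowG_cons _ _ _ _ _ _ (h62_0_1 E) (rowG_cons _ _ _ _ _ _ (h62_0_2 E) (rowG_cons _ _ _ _ _ _ (h62_0_3 E) (rowG_cons _ _ _ _ _ _ (h62_0_4 E) (rowG_cons _ _ _ _ _ _ (h62_0_5 E) (rowG_cons _ _ _ _ _ _ (h62_0_6 E) (rowG_cons _ _ _ _ _ _ (h62_0_7 E) (rowG_nil _ _))))))))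

theorem row62_1 (E : Env κ ι) : RowG (ek E lk62) (F62_1 E) [F62_1 E, F62_2 E, F62_3 E, F62_4 E, F62_5 E, F62_6 E, F62_7 E] [r62_1_1, r62_1_2, r62_1_3, r62_1_4, r62_1_5, r62_1_6, r62_1_7] :=
  rowG_cons _ _ _ _ _ _ (h62_1_1 E) (rowG_cons _ _ _ _ _ _ (h62_1_2 E) (rowG_cons _ _ _ _ _ _ (h62_1_3 E) (rowG_cons _ _ _ _ _ _ (h62_1_4 E) (rowG_cons _ _ _ _ _ _ (h62_1_5 E) (rowG_cons _ _ _ _ _ _ (h62_1_6 E) (rowG_cons _ _ _ _ _ _ (h62_1_7 E) (rowG_nil _ _)))))))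

theorem row62_2 (E : Env κ ι) : RowG (ek E lk62) (F62_2 E) [F62_2 E, F62_3 E, F62_4 E, F62_5 E, F62_6 E, F62_7 E] [r62_2_2, r62_2_3, r62_2_4, r62_2_5, r62_2_6, r62_2_7] :=
  rowG_cons _ _ _ _ _ _ (h62_2_2 E) (rowG_cons _ _ _ _ _ _ (h62_2_3 E) (rowG_cons _ _ _ _ _ _ (h62_2_4 E) (rowG_cons _ _ _ _ _ _ (h62_2_5 E) (rowG_cons _ _ _ _ _ _ (h62_2_6 E) (rowG_cons _ _ _ _ _ _ (h62_2_7 E) (rowG_nil _ _))))))

theorem row62_3 (E : Env κ ι) : RowG (ek E lk62) (F62_3 E) [F62_3 E, F62_4 E, F62_5 E, F62_6 E, F62_7 E] [r62_3_3, r62_3_4, r62_3_5, r62_3_6, r62_3_7] :=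
  rowG_cons _ _ _ _ _ _ (h62_3_3 E) (rowG_cons _ _ _ _ _ _ (h62_3_4 E) (rowG_cons _ _ _ _ _ _ (h62_3_5 E) (rowG_cons _ _ _ _ _ _ (h62_3_6 E) (rowG_cons _ _ _ _ _ _ (h62_3_7 E) (rowG_nil _ _)))))

theorem row62_4 (E : Env κ ι) : RowG (ek E lk62) (F62_4 E) [F62_4 E, F62_5 E, F62_6 E, F62_7 E] [r62_4_4, r62_4_5, r62_4_6, r62_4_7] :=
  rowG_cons _ _ _ _ _ _ (h62_4_4 E) (rowG_cons _ _ _ _ _ _ (h62_4_5 E) (rowG_cons _ _ _ _ _ _ (h62_4_6 E) (rowG_cons _ _ _ _ _ _ (h62_4_7 E) (rowG_nil _ _))))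

theorem row62_5 (E : Env κ ι) : RowG (ek E lk62) (F62_5 E) [F62_5 E, F62_6 E, F62_7 E] [r62_5_5, r62_5_6, r62_5_7] :=
  rowG_cons _ _ _ _ _ _ (h62_5_5 E) (rowG_cons _ _ _ _ _ _ (h62_5_6 E) (rowG_cons _ _ _ _ _ _ (h62_5_7 E) (rowG_nil _ _)))

theorem row62_6 (E : Env κ ι) : RowG (ek E lk62) (F62_6 E) [F62_6 E, F62_7 E] [r62_6_6, r62_6_7] :=
  rowG_cons _ _ _ _ _ _ (h62_6_6 E) (rowG_cons _ _ _ _ _ _ (h62_6_7 E) (rowG_nil _ _))

theorem row62_7 (E : Env κ ι) : RowG (ek E lk62) (F62_7 E) [F62_7 E] [r62_7_7] :=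
  rowG_cons _ _ _ _ _ _ (h62_7_7 E) (rowG_nil _ _)

def tab62 : List (List (List (ℕ × ℤ))) := [[r62_0_0, r62_0_1, r62_0_2, r62_0_3, r62_0_4, r62_0_5, r62_0_6, r62_0_7], [r62_1_1, r62_1_2, r62_1_3, r62_1_4, r62_1_5, r62_1_6, r62_1_7], [r62_2_2, r62_2_3, r62_2_4, r62_2_5, r62_2_6, r62_2_7], [r62_3_3, r62_3_4, r62_3_5, r62_3_6, r62_3_7], [r62_4_4, r62_4_5, r62_4_6, r62_4_7], [r62_5_5, r62_5_6, r62_5_7], [r62_6_6, r62_6_7], [r62_7_7]]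

theorem tri62 (E : Env κ ι) : TriG (ek E lk62) [F62_0 E, F62_1 E, F62_2 E, F62_3 E, F62_4 E, F62_5 E, F62_6 E, F62_7 E] tab62 := by
  refine triG_cons _ _ _ _ _ (row62_0 E) ?_
  refine triG_cons _ _ _ _ _ (row62_1 E) ?_
  refine triG_cons _ _ _ _ _ (row62_2 E) ?_
  refine triG_cons _ _ _ _ _ (row62_3 E) ?_
  refine triG_cons _ _ _ _ _ (row62_4 E) ?_
  refine triG_cons _ _ _ _ _ (row62_5 E) ?_
  refine triG_cons _ _ _ _ _ (row62_6 E) ?_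
  refine triG_cons _ _ _ _ _ (row62_7 E) ?_
  exact triG_nil _

end

def lk63 : List Key := [
  (2, 5, [(0, [0], [0, 1]), (0, [0], [0, 1]), (0, [1], [2, 3]), (0, [1], [2, 4]), (4, [], [4]), (4, [], [3])]),
  (2, 5, [(0, [0], [0, 1]), (0, [1], [0, 2]), (0, [1], [3, 4]), (0, [0], [3, 4]), (4, [], [2]), (4, [], [1])]),
  (2, 7, [(0, [0], [0, 1]), (0, [0], [0, 1]), (0, [1], [2, 3]), (0, [1], [2, 3]), (1, [], [4, 5]), (1, [], [4, 6]), (4, [], [6]), (4, [], [5])]),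
  (2, 7, [(0, [0], [0, 1]), (0, [1], [0, 2]), (0, [1], [3, 4]), (0, [0], [5, 6]), (1, [], [5, 6]), (1, [], [3, 4]), (4, [], [2]), (4, [], [1])]),
  (2, 7, [(0, [0], [0, 1]), (0, [0], [0, 1]), (0, [1], [2, 3]), (0, [1], [2, 4]), (4, [], [4]), (4, [], [3]), (1, [], [5, 6]), (1, [], [5, 6])]),
  (2, 7, [(0, [0], [0, 1]), (0, [0], [0, 1]), (0, [1], [2, 3]), (0, [1], [4, 5]), (1, [], [2, 6]), (1, [], [4, 5]), (4, [], [3]), (4, [], [6])]),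
  (2, 7, [(0, [0], [0, 1]), (0, [1], [0, 2]), (0, [1], [3, 4]), (0, [0], [3, 4]), (4, [], [2]), (4, [], [1]), (1, [], [5, 6]), (1, [], [5, 6])]),
  (2, 5, [(0, [0], [0, 1]), (0, [1], [0, 2]), (0, [1], [2, 3]), (0, [0], [1, 4]), (4, [], [4]), (4, [], [3])]),
  (2, 7, [(0, [0], [0, 1]), (0, [0], [2, 3]), (0, [1], [4, 5]), (0, [1], [4, 6]), (1, [], [0, 5]), (1, [], [2, 3]), (4, [], [1]), (4, [], [6])]),
  (2, 7, [(0, [0], [0, 1]), (0, [1], [0, 2]), (0, [0], [3, 4]), (0, [1], [5, 6]), (1, [], [1, 3]), (1, [], [5, 6]), (4, [], [2]), (4, [], [4])]),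
  (2, 7, [(0, [0], [0, 1]), (0, [0], [2, 3]), (0, [1], [0, 4]), (0, [1], [4, 5]), (1, [], [1, 6]), (1, [], [2, 3]), (4, [], [5]), (4, [], [6])]),
  (2, 7, [(0, [0], [0, 1]), (0, [1], [0, 2]), (0, [1], [2, 3]), (0, [0], [1, 4]), (4, [], [4]), (4, [], [3]), (1, [], [5, 6]), (1, [], [5, 6])]),
  (2, 7, [(0, [0], [0, 1]), (0, [1], [0, 2]), (0, [1], [1, 3]), (0, [0], [4, 5]), (1, [], [2, 6]), (1, [], [4, 5]), (4, [], [3]), (4, [], [6])]),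
  (2, 7, [(0, [0], [0, 1]), (0, [1], [0, 2]), (0, [0], [2, 3]), (0, [1], [1, 4]), (4, [], [4]), (4, [], [3]), (1, [], [5, 6]), (1, [], [5, 6])]),
  (2, 6, [(0, [0], [0, 1]), (0, [0], [0, 1]), (0, [1], [2, 3]), (0, [1], [2, 4]), (1, [], [3, 5]), (4, [], [4]), (4, [], [5])]),
  (2, 6, [(0, [0], [0, 1]), (0, [0], [0, 1]), (0, [1], [2, 3]), (0, [1], [2, 3]), (1, [], [4, 5]), (4, [], [4]), (4, [], [5])]),
  (2, 6, [(0, [0], [0, 1]), (0, [0], [2, 3]), (0, [1], [0, 4]), (0, [1], [4, 5]), (1, [], [2, 3]), (4, [], [1]), (4, [], [5])]),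
  (2, 6, [(0, [0], [0, 1]), (0, [0], [0, 1]), (0, [1], [2, 3]), (0, [1], [4, 5]), (1, [], [4, 5]), (4, [], [2]), (4, [], [3])]),
  (2, 6, [(0, [0], [0, 1]), (0, [0], [0, 1]), (0, [1], [2, 3]), (0, [1], [4, 5]), (1, [], [2, 4]), (4, [], [5]), (4, [], [3])]),
  (2, 6, [(0, [0], [0, 1]), (0, [1], [0, 2]), (0, [1], [1, 3]), (0, [0], [4, 5]), (1, [], [4, 5]), (4, [], [3]), (4, [], [2])]),
  (2, 6, [(0, [0], [0, 1]), (0, [1], [0, 2]), (0, [1], [1, 3]), (0, [0], [4, 5]), (1, [], [2, 4]), (4, [], [3]), (4, [], [5])]),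
  (2, 6, [(0, [0], [0, 1]), (0, [0], [2, 3]), (0, [1], [0, 4]), (0, [1], [4, 5]), (1, [], [2, 5]), (4, [], [1]), (4, [], [3])]),
  (2, 6, [(0, [0], [0, 1]), (0, [1], [2, 3]), (0, [0], [2, 4]), (0, [1], [0, 5]), (1, [], [1, 3]), (4, [], [5]), (4, [], [4])]),
  (2, 6, [(0, [0], [0, 1]), (0, [0], [2, 3]), (0, [1], [2, 4]), (0, [1], [0, 5]), (1, [], [1, 3]), (4, [], [5]), (4, [], [4])]),
  (2, 6, [(0, [0], [0, 1]), (0, [1], [0, 2]), (0, [0], [2, 3]), (0, [1], [1, 4]), (1, [], [3, 5]), (4, [], [4]), (4, [], [5])]),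
  (2, 6, [(0, [0], [0, 1]), (0, [0], [2, 3]), (0, [1], [0, 4]), (0, [1], [4, 5]), (1, [], [1, 2]), (4, [], [3]), (4, [], [5])]),
  (2, 6, [(0, [0], [0, 1]), (0, [0], [2, 3]), (0, [1], [0, 4]), (0, [1], [2, 4]), (1, [], [1, 5]), (4, [], [3]), (4, [], [5])]),
  (2, 5, [(0, [0], [0, 1]), (0, [0], [0, 1]), (0, [1], [2, 3]), (0, [1], [2, 3]), (4, [], [4]), (4, [], [4])]),
  (2, 5, [(0, [0], [0, 1]), (0, [0], [2, 3]), (0, [1], [2, 4]), (0, [1], [0, 4]), (4, [], [3]), (4, [], [1])]),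
  (2, 7, [(0, [0], [0, 1]), (0, [0], [0, 2]), (0, [1], [1, 2]), (4, [], [3]), (0, [1], [4, 5]), (1, [], [4, 6]), (1, [], [5, 6]), (4, [], [3])]),
  (2, 7, [(0, [0], [0, 1]), (0, [0], [0, 2]), (0, [1], [1, 2]), (4, [], [3]), (0, [1], [4, 5]), (1, [], [4, 6]), (1, [], [3, 6]), (4, [], [5])]),
  (2, 7, [(0, [0], [0, 1]), (0, [0], [0, 2]), (0, [1], [1, 2]), (4, [], [3]), (0, [1], [4, 5]), (1, [], [4, 6]), (1, [], [3, 5]), (4, [], [6])]),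
  (2, 7, [(0, [0], [0, 1]), (0, [0], [0, 2]), (0, [1], [1, 2]), (4, [], [3]), (0, [1], [4, 5]), (1, [], [4, 5]), (1, [], [3, 6]), (4, [], [6])]),
  (2, 6, [(0, [0], [0, 1]), (0, [0], [0, 2]), (0, [1], [1, 2]), (4, [], [3]), (0, [1], [4, 5]), (1, [], [4, 5]), (4, [], [3])]),
  (2, 6, [(0, [0], [0, 1]), (0, [0], [0, 2]), (0, [1], [1, 2]), (4, [], [3]), (0, [1], [4, 5]), (1, [], [3, 4]), (4, [], [5])]),
  (2, 7, [(0, [0], [0, 1]), (0, [0], [0, 2]), (0, [1], [1, 2]), (4, [], [3]), (0, [1], [3, 4]), (1, [], [5, 6]), (1, [], [5, 6]), (4, [], [4])]),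
  (2, 7, [(0, [0], [0, 1]), (0, [0], [0, 2]), (0, [1], [3, 2]), (4, [], [1]), (0, [1], [4, 5]), (1, [], [4, 6]), (1, [], [5, 6]), (4, [], [3])]),
  (2, 7, [(0, [0], [0, 1]), (0, [0], [0, 2]), (0, [1], [3, 2]), (4, [], [1]), (0, [1], [4, 5]), (1, [], [4, 6]), (1, [], [3, 6]), (4, [], [5])]),
  (2, 7, [(0, [0], [0, 1]), (0, [0], [0, 2]), (0, [1], [3, 2]), (4, [], [1]), (0, [1], [4, 5]), (1, [], [4, 6]), (1, [], [3, 5]), (4, [], [6])]),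
  (2, 7, [(0, [0], [0, 1]), (0, [0], [0, 2]), (0, [1], [3, 2]), (4, [], [1]), (0, [1], [3, 4]), (1, [], [5, 6]), (1, [], [4, 5]), (4, [], [6])]),
  (2, 6, [(0, [0], [0, 1]), (0, [0], [0, 2]), (0, [1], [3, 2]), (4, [], [1]), (0, [1], [3, 4]), (1, [], [4, 5]), (4, [], [5])]),
  (2, 7, [(0, [0], [0, 1]), (0, [0], [0, 1]), (0, [1], [2, 3]), (4, [], [3]), (0, [1], [4, 5]), (1, [], [4, 6]), (1, [], [5, 6]), (4, [], [2])]),
  (2, 7, [(0, [0], [0, 1]), (0, [0], [0, 1]), (0, [1], [2, 3]), (4, [], [3]), (0, [1], [4, 5]), (1, [], [4, 6]), (1, [], [2, 6]), (4, [], [5])]),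
  (2, 7, [(0, [0], [0, 1]), (0, [0], [0, 1]), (0, [1], [2, 3]), (4, [], [3]), (0, [1], [4, 5]), (1, [], [4, 6]), (1, [], [2, 5]), (4, [], [6])]),
  (2, 7, [(0, [0], [0, 1]), (0, [0], [0, 1]), (0, [1], [2, 3]), (4, [], [3]), (0, [1], [2, 4]), (1, [], [5, 6]), (1, [], [4, 5]), (4, [], [6])]),
  (2, 7, [(0, [0], [0, 1]), (0, [0], [2, 3]), (0, [1], [0, 3]), (4, [], [1]), (0, [1], [4, 5]), (1, [], [4, 6]), (1, [], [5, 6]), (4, [], [2])]),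
  (2, 7, [(0, [0], [0, 1]), (0, [0], [2, 3]), (0, [1], [0, 3]), (4, [], [1]), (0, [1], [4, 5]), (1, [], [4, 6]), (1, [], [2, 6]), (4, [], [5])]),
  (2, 7, [(0, [0], [0, 1]), (0, [0], [2, 3]), (0, [1], [0, 3]), (4, [], [1]), (0, [1], [4, 5]), (1, [], [4, 6]), (1, [], [2, 5]), (4, [], [6])]),
  (2, 7, [(0, [0], [0, 1]), (0, [0], [2, 3]), (0, [1], [0, 3]), (4, [], [1]), (0, [1], [2, 4]), (1, [], [5, 6]), (1, [], [4, 5]), (4, [], [6])]),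
  (2, 7, [(0, [0], [0, 1]), (0, [0], [2, 3]), (0, [1], [0, 1]), (4, [], [3]), (0, [1], [4, 5]), (1, [], [4, 6]), (1, [], [5, 6]), (4, [], [2])]),
  (2, 7, [(0, [0], [0, 1]), (0, [0], [2, 3]), (0, [1], [0, 1]), (4, [], [3]), (0, [1], [4, 5]), (1, [], [4, 6]), (1, [], [2, 6]), (4, [], [5])]),
  (2, 7, [(0, [0], [0, 1]), (0, [0], [2, 3]), (0, [1], [0, 1]), (4, [], [3]), (0, [1], [4, 5]), (1, [], [4, 6]), (1, [], [2, 5]), (4, [], [6])]),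
  (2, 7, [(0, [0], [0, 1]), (0, [0], [2, 3]), (0, [1], [0, 1]), (4, [], [3]), (0, [1], [4, 5]), (1, [], [4, 5]), (1, [], [2, 6]), (4, [], [6])]),
  (2, 6, [(0, [0], [0, 1]), (0, [0], [2, 3]), (0, [1], [0, 1]), (4, [], [3]), (0, [1], [4, 5]), (1, [], [4, 5]), (4, [], [2])]),
  (2, 6, [(0, [0], [0, 1]), (0, [0], [2, 3]), (0, [1], [0, 1]), (4, [], [3]), (0, [1], [4, 5]), (1, [], [2, 4]), (4, [], [5])]),
  (2, 7, [(0, [0], [0, 1]), (0, [0], [2, 3]), (0, [1], [0, 1]), (4, [], [3]), (0, [1], [2, 4]), (1, [], [5, 6]), (1, [], [4, 5]), (4, [], [6])]),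
  (2, 6, [(0, [0], [0, 1]), (0, [0], [2, 3]), (0, [1], [0, 1]), (4, [], [3]), (0, [1], [2, 4]), (1, [], [4, 5]), (4, [], [5])]),
  (2, 7, [(0, [0], [0, 1]), (0, [0], [2, 0]), (0, [1], [1, 3]), (4, [], [3]), (0, [1], [4, 5]), (1, [], [4, 6]), (1, [], [2, 6]), (4, [], [5])]),
  (2, 7, [(0, [0], [0, 1]), (0, [0], [2, 0]), (0, [1], [1, 3]), (4, [], [3]), (0, [1], [4, 5]), (1, [], [4, 6]), (1, [], [2, 5]), (4, [], [6])]),
  (2, 7, [(0, [0], [0, 1]), (0, [0], [2, 0]), (0, [1], [1, 3]), (4, [], [3]), (0, [1], [4, 5]), (1, [], [4, 5]), (1, [], [2, 6]), (4, [], [6])]),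
  (2, 7, [(0, [0], [0, 1]), (0, [0], [2, 0]), (0, [1], [1, 3]), (4, [], [3]), (0, [1], [2, 4]), (1, [], [5, 6]), (1, [], [5, 6]), (4, [], [4])]),
  (2, 7, [(0, [0], [0, 1]), (0, [0], [2, 0]), (0, [1], [1, 3]), (4, [], [3]), (0, [1], [2, 4]), (1, [], [5, 6]), (1, [], [4, 5]), (4, [], [6])]),
  (2, 7, [(0, [0], [0, 1]), (0, [0], [0, 1]), (0, [1], [2, 3]), (4, [], [4]), (0, [1], [5, 6]), (1, [], [2, 5]), (1, [], [3, 6]), (4, [], [4])]),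
  (2, 7, [(0, [0], [0, 1]), (0, [0], [0, 1]), (0, [1], [2, 3]), (4, [], [4]), (0, [1], [2, 5]), (1, [], [5, 6]), (1, [], [3, 6]), (4, [], [4])]),
  (2, 7, [(0, [0], [0, 1]), (0, [0], [0, 1]), (0, [1], [2, 3]), (4, [], [4]), (0, [1], [2, 5]), (1, [], [5, 6]), (1, [], [3, 4]), (4, [], [6])]),
  (2, 7, [(0, [0], [0, 1]), (0, [0], [0, 1]), (0, [1], [2, 3]), (4, [], [4]), (0, [1], [2, 5]), (1, [], [4, 6]), (1, [], [3, 5]), (4, [], [6])]),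
  (2, 6, [(0, [0], [0, 1]), (0, [0], [0, 1]), (0, [1], [2, 3]), (4, [], [4]), (0, [1], [2, 5]), (1, [], [3, 5]), (4, [], [4])]),
  (2, 7, [(0, [0], [0, 1]), (0, [0], [2, 0]), (0, [1], [3, 1]), (4, [], [4]), (0, [1], [5, 6]), (1, [], [5, 6]), (1, [], [2, 3]), (4, [], [4])]),
  (2, 7, [(0, [0], [0, 1]), (0, [0], [2, 0]), (0, [1], [3, 1]), (4, [], [4]), (0, [1], [5, 6]), (1, [], [2, 5]), (1, [], [3, 6]), (4, [], [4])]),
  (2, 7, [(0, [0], [0, 1]), (0, [0], [2, 0]), (0, [1], [3, 1]), (4, [], [4]), (0, [1], [5, 6]), (1, [], [2, 5]), (1, [], [3, 4]), (4, [], [6])]),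
  (2, 7, [(0, [0], [0, 1]), (0, [0], [2, 0]), (0, [1], [3, 1]), (4, [], [4]), (0, [1], [5, 6]), (1, [], [3, 5]), (1, [], [2, 4]), (4, [], [6])]),
  (2, 7, [(0, [0], [0, 1]), (0, [0], [2, 0]), (0, [1], [3, 1]), (4, [], [4]), (0, [1], [5, 6]), (1, [], [4, 5]), (1, [], [2, 3]), (4, [], [6])]),
  (2, 7, [(0, [0], [0, 1]), (0, [0], [2, 0]), (0, [1], [3, 1]), (4, [], [4]), (0, [1], [2, 5]), (1, [], [5, 6]), (1, [], [3, 6]), (4, [], [4])]),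
  (2, 7, [(0, [0], [0, 1]), (0, [0], [2, 0]), (0, [1], [3, 1]), (4, [], [4]), (0, [1], [3, 5]), (1, [], [5, 6]), (1, [], [2, 6]), (4, [], [4])]),
  (2, 7, [(0, [0], [0, 1]), (0, [0], [2, 0]), (0, [1], [3, 1]), (4, [], [4]), (0, [1], [2, 5]), (1, [], [5, 6]), (1, [], [3, 4]), (4, [], [6])]),
  (2, 7, [(0, [0], [0, 1]), (0, [0], [2, 0]), (0, [1], [3, 1]), (4, [], [4]), (0, [1], [3, 5]), (1, [], [5, 6]), (1, [], [2, 4]), (4, [], [6])]),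
  (2, 7, [(0, [0], [0, 1]), (0, [0], [2, 0]), (0, [1], [3, 1]), (4, [], [4]), (0, [1], [4, 5]), (1, [], [2, 6]), (1, [], [3, 6]), (4, [], [5])]),
  (2, 7, [(0, [0], [0, 1]), (0, [0], [2, 0]), (0, [1], [3, 1]), (4, [], [4]), (0, [1], [2, 5]), (1, [], [4, 6]), (1, [], [3, 5]), (4, [], [6])]),
  (2, 7, [(0, [0], [0, 1]), (0, [0], [2, 0]), (0, [1], [3, 1]), (4, [], [4]), (0, [1], [3, 5]), (1, [], [4, 6]), (1, [], [2, 5]), (4, [], [6])]),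
  (2, 6, [(0, [0], [0, 1]), (0, [0], [2, 0]), (0, [1], [3, 1]), (4, [], [4]), (0, [1], [2, 5]), (1, [], [3, 5]), (4, [], [4])]),
  (2, 6, [(0, [0], [0, 1]), (0, [0], [2, 0]), (0, [1], [3, 1]), (4, [], [4]), (0, [1], [3, 5]), (1, [], [2, 5]), (4, [], [4])]),
  (2, 6, [(0, [0], [0, 1]), (0, [0], [2, 0]), (0, [1], [3, 1]), (4, [], [4]), (0, [1], [4, 5]), (1, [], [2, 3]), (4, [], [5])]),
  (2, 7, [(0, [0], [0, 1]), (0, [0], [2, 0]), (0, [1], [3, 1]), (4, [], [4]), (0, [1], [2, 3]), (1, [], [5, 6]), (1, [], [5, 6]), (4, [], [4])]),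
  (2, 7, [(0, [0], [0, 1]), (0, [0], [2, 0]), (0, [1], [3, 1]), (4, [], [4]), (0, [1], [2, 3]), (1, [], [5, 6]), (1, [], [4, 5]), (4, [], [6])]),
  (2, 6, [(0, [0], [0, 1]), (0, [0], [2, 0]), (0, [1], [3, 1]), (4, [], [4]), (0, [1], [2, 3]), (1, [], [4, 5]), (4, [], [5])]),
  (2, 5, [(0, [0], [0, 1]), (0, [0], [2, 0]), (0, [1], [3, 1]), (4, [], [4]), (0, [1], [2, 3]), (4, [], [4])]),
  (2, 7, [(0, [0], [0, 1]), (0, [0], [2, 0]), (0, [1], [3, 4]), (4, [], [1]), (0, [1], [5, 6]), (1, [], [5, 6]), (1, [], [3, 4]), (4, [], [2])]),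
  (2, 7, [(0, [0], [0, 1]), (0, [0], [2, 0]), (0, [1], [3, 4]), (4, [], [1]), (0, [1], [5, 6]), (1, [], [2, 5]), (1, [], [3, 6]), (4, [], [4])]),
  (2, 7, [(0, [0], [0, 1]), (0, [0], [2, 0]), (0, [1], [3, 4]), (4, [], [1]), (0, [1], [5, 6]), (1, [], [3, 5]), (1, [], [4, 6]), (4, [], [2])]),
  (2, 7, [(0, [0], [0, 1]), (0, [0], [2, 0]), (0, [1], [3, 4]), (4, [], [1]), (0, [1], [3, 5]), (1, [], [5, 6]), (1, [], [2, 6]), (4, [], [4])]),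
  (2, 7, [(0, [0], [0, 1]), (0, [0], [2, 0]), (0, [1], [3, 4]), (4, [], [1]), (0, [1], [3, 5]), (1, [], [5, 6]), (1, [], [4, 6]), (4, [], [2])]),
  (2, 7, [(0, [0], [0, 1]), (0, [0], [2, 0]), (0, [1], [3, 4]), (4, [], [1]), (0, [1], [3, 5]), (1, [], [5, 6]), (1, [], [2, 4]), (4, [], [6])]),
  (2, 7, [(0, [0], [0, 1]), (0, [0], [2, 0]), (0, [1], [3, 4]), (4, [], [1]), (0, [1], [3, 5]), (1, [], [2, 6]), (1, [], [4, 5]), (4, [], [6])]),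
  (2, 6, [(0, [0], [0, 1]), (0, [0], [2, 0]), (0, [1], [3, 4]), (4, [], [1]), (0, [1], [3, 5]), (1, [], [2, 5]), (4, [], [4])]),
  (2, 6, [(0, [0], [0, 1]), (0, [0], [2, 0]), (0, [1], [3, 4]), (4, [], [1]), (0, [1], [3, 5]), (1, [], [4, 5]), (4, [], [2])]),
  (2, 7, [(0, [0], [0, 1]), (0, [0], [2, 3]), (0, [1], [0, 1]), (4, [], [4]), (0, [1], [5, 6]), (1, [], [2, 5]), (1, [], [3, 6]), (4, [], [4])]),
  (2, 7, [(0, [0], [0, 1]), (0, [0], [2, 3]), (0, [1], [0, 1]), (4, [], [4]), (0, [1], [2, 5]), (1, [], [5, 6]), (1, [], [3, 6]), (4, [], [4])]),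
  (2, 7, [(0, [0], [0, 1]), (0, [0], [2, 3]), (0, [1], [0, 1]), (4, [], [4]), (0, [1], [2, 5]), (1, [], [5, 6]), (1, [], [3, 4]), (4, [], [6])]),
  (2, 7, [(0, [0], [0, 1]), (0, [0], [2, 3]), (0, [1], [0, 1]), (4, [], [4]), (0, [1], [2, 5]), (1, [], [4, 6]), (1, [], [3, 5]), (4, [], [6])]),
  (2, 6, [(0, [0], [0, 1]), (0, [0], [2, 3]), (0, [1], [0, 1]), (4, [], [4]), (0, [1], [2, 5]), (1, [], [3, 5]), (4, [], [4])]),
  (2, 7, [(0, [0], [0, 1]), (0, [0], [2, 3]), (0, [1], [0, 1]), (4, [], [4]), (0, [1], [2, 3]), (1, [], [5, 6]), (1, [], [4, 5]), (4, [], [6])]),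
  (2, 6, [(0, [0], [0, 1]), (0, [0], [2, 3]), (0, [1], [0, 1]), (4, [], [4]), (0, [1], [2, 3]), (1, [], [4, 5]), (4, [], [5])]),
  (2, 5, [(0, [0], [0, 1]), (0, [0], [2, 3]), (0, [1], [0, 1]), (4, [], [4]), (0, [1], [2, 3]), (4, [], [4])]),
  (2, 7, [(0, [0], [0, 1]), (0, [0], [2, 3]), (0, [1], [4, 0]), (4, [], [1]), (0, [1], [5, 6]), (1, [], [5, 6]), (1, [], [2, 4]), (4, [], [3])]),
  (2, 7, [(0, [0], [0, 1]), (0, [0], [2, 3]), (0, [1], [4, 0]), (4, [], [1]), (0, [1], [5, 6]), (1, [], [2, 5]), (1, [], [3, 6]), (4, [], [4])]),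
  (2, 7, [(0, [0], [0, 1]), (0, [0], [2, 3]), (0, [1], [4, 0]), (4, [], [1]), (0, [1], [5, 6]), (1, [], [2, 5]), (1, [], [4, 6]), (4, [], [3])]),
  (2, 7, [(0, [0], [0, 1]), (0, [0], [2, 3]), (0, [1], [4, 0]), (4, [], [1]), (0, [1], [5, 6]), (1, [], [2, 5]), (1, [], [3, 4]), (4, [], [6])]),
  (2, 7, [(0, [0], [0, 1]), (0, [0], [2, 3]), (0, [1], [4, 0]), (4, [], [1]), (0, [1], [2, 5]), (1, [], [5, 6]), (1, [], [3, 6]), (4, [], [4])]),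
  (2, 7, [(0, [0], [0, 1]), (0, [0], [2, 3]), (0, [1], [4, 0]), (4, [], [1]), (0, [1], [2, 5]), (1, [], [5, 6]), (1, [], [4, 6]), (4, [], [3])]),
  (2, 7, [(0, [0], [0, 1]), (0, [0], [2, 3]), (0, [1], [4, 0]), (4, [], [1]), (0, [1], [2, 5]), (1, [], [5, 6]), (1, [], [3, 4]), (4, [], [6])]),
  (2, 7, [(0, [0], [0, 1]), (0, [0], [2, 3]), (0, [1], [4, 0]), (4, [], [1]), (0, [1], [2, 5]), (1, [], [3, 6]), (1, [], [4, 6]), (4, [], [5])]),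
  (2, 7, [(0, [0], [0, 1]), (0, [0], [2, 3]), (0, [1], [4, 0]), (4, [], [1]), (0, [1], [2, 5]), (1, [], [3, 6]), (1, [], [4, 5]), (4, [], [6])]),
  (2, 7, [(0, [0], [0, 1]), (0, [0], [2, 3]), (0, [1], [4, 0]), (4, [], [1]), (0, [1], [2, 5]), (1, [], [4, 6]), (1, [], [3, 5]), (4, [], [6])]),
  (2, 6, [(0, [0], [0, 1]), (0, [0], [2, 3]), (0, [1], [4, 0]), (4, [], [1]), (0, [1], [2, 5]), (1, [], [3, 5]), (4, [], [4])]),
  (2, 7, [(0, [0], [0, 1]), (0, [0], [2, 3]), (0, [1], [1, 3]), (4, [], [4]), (0, [1], [5, 6]), (1, [], [5, 6]), (1, [], [0, 2]), (4, [], [4])]),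
  (2, 7, [(0, [0], [0, 1]), (0, [0], [2, 3]), (0, [1], [1, 3]), (4, [], [4]), (0, [1], [5, 6]), (1, [], [0, 5]), (1, [], [2, 6]), (4, [], [4])]),
  (2, 7, [(0, [0], [0, 1]), (0, [0], [2, 3]), (0, [1], [1, 3]), (4, [], [4]), (0, [1], [5, 6]), (1, [], [0, 5]), (1, [], [2, 4]), (4, [], [6])]),
  (2, 7, [(0, [0], [0, 1]), (0, [0], [2, 3]), (0, [1], [1, 3]), (4, [], [4]), (0, [1], [5, 6]), (1, [], [4, 5]), (1, [], [0, 2]), (4, [], [6])]),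
  (2, 7, [(0, [0], [0, 1]), (0, [0], [2, 3]), (0, [1], [1, 3]), (4, [], [4]), (0, [1], [0, 5]), (1, [], [5, 6]), (1, [], [2, 6]), (4, [], [4])]),
  (2, 7, [(0, [0], [0, 1]), (0, [0], [2, 3]), (0, [1], [1, 3]), (4, [], [4]), (0, [1], [0, 5]), (1, [], [5, 6]), (1, [], [2, 4]), (4, [], [6])]),
  (2, 7, [(0, [0], [0, 1]), (0, [0], [2, 3]), (0, [1], [1, 3]), (4, [], [4]), (0, [1], [4, 5]), (1, [], [0, 6]), (1, [], [2, 6]), (4, [], [5])]),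
  (2, 7, [(0, [0], [0, 1]), (0, [0], [2, 3]), (0, [1], [1, 3]), (4, [], [4]), (0, [1], [0, 5]), (1, [], [4, 6]), (1, [], [2, 5]), (4, [], [6])]),
  (2, 6, [(0, [0], [0, 1]), (0, [0], [2, 3]), (0, [1], [1, 3]), (4, [], [4]), (0, [1], [0, 5]), (1, [], [2, 5]), (4, [], [4])]),
  (2, 7, [(0, [0], [0, 1]), (0, [0], [2, 3]), (0, [1], [1, 3]), (4, [], [4]), (0, [1], [0, 2]), (1, [], [5, 6]), (1, [], [5, 6]), (4, [], [4])]),
  (2, 7, [(0, [0], [0, 1]), (0, [0], [2, 3]), (0, [1], [1, 3]), (4, [], [4]), (0, [1], [0, 2]), (1, [], [5, 6]), (1, [], [4, 5]), (4, [], [6])]),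
  (2, 7, [(0, [0], [0, 1]), (0, [0], [2, 3]), (0, [1], [4, 3]), (4, [], [1]), (0, [1], [5, 6]), (1, [], [5, 6]), (1, [], [2, 4]), (4, [], [0])]),
  (2, 7, [(0, [0], [0, 1]), (0, [0], [2, 3]), (0, [1], [4, 3]), (4, [], [1]), (0, [1], [5, 6]), (1, [], [2, 5]), (1, [], [4, 6]), (4, [], [0])]),
  (2, 7, [(0, [0], [0, 1]), (0, [0], [2, 3]), (0, [1], [4, 3]), (4, [], [1]), (0, [1], [5, 6]), (1, [], [0, 5]), (1, [], [2, 4]), (4, [], [6])]),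
  (2, 7, [(0, [0], [0, 1]), (0, [0], [2, 3]), (0, [1], [4, 3]), (4, [], [1]), (0, [1], [5, 6]), (1, [], [2, 5]), (1, [], [0, 4]), (4, [], [6])]),
  (2, 7, [(0, [0], [0, 1]), (0, [0], [2, 3]), (0, [1], [4, 3]), (4, [], [1]), (0, [1], [5, 6]), (1, [], [4, 5]), (1, [], [0, 2]), (4, [], [6])]),
  (2, 7, [(0, [0], [0, 1]), (0, [0], [2, 1]), (0, [1], [3, 4]), (4, [], [4]), (0, [1], [5, 6]), (1, [], [5, 6]), (1, [], [0, 2]), (4, [], [3])]),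
  (2, 7, [(0, [0], [0, 1]), (0, [0], [2, 1]), (0, [1], [3, 4]), (4, [], [4]), (0, [1], [5, 6]), (1, [], [0, 5]), (1, [], [2, 6]), (4, [], [3])]),
  (2, 7, [(0, [0], [0, 1]), (0, [0], [2, 1]), (0, [1], [3, 4]), (4, [], [4]), (0, [1], [5, 6]), (1, [], [0, 5]), (1, [], [2, 3]), (4, [], [6])]),
  (2, 7, [(0, [0], [0, 1]), (0, [0], [2, 1]), (0, [1], [3, 4]), (4, [], [4]), (0, [1], [5, 6]), (1, [], [3, 5]), (1, [], [0, 2]), (4, [], [6])]),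
  (2, 7, [(0, [0], [0, 1]), (0, [0], [2, 1]), (0, [1], [3, 4]), (4, [], [5]), (0, [1], [3, 6]), (1, [], [0, 6]), (1, [], [2, 4]), (4, [], [5])]),
  (2, 7, [(0, [0], [0, 1]), (0, [0], [2, 1]), (0, [1], [3, 4]), (4, [], [5]), (0, [1], [3, 6]), (1, [], [4, 6]), (1, [], [0, 2]), (4, [], [5])]),
  (2, 7, [(0, [0], [0, 1]), (0, [0], [2, 3]), (0, [1], [4, 1]), (4, [], [5]), (0, [1], [2, 6]), (1, [], [3, 6]), (1, [], [0, 4]), (4, [], [5])]),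
  (2, 7, [(0, [0], [0, 1]), (0, [0], [2, 3]), (0, [1], [4, 1]), (4, [], [5]), (0, [1], [2, 6]), (1, [], [4, 6]), (1, [], [0, 3]), (4, [], [5])])]

def kl63 : List ℕ := [5, 6, 9, 10, 12, 22, 26, 33, 42, 45, 50, 51, 55, 56, 64, 65, 75, 76, 78, 83, 84, 85, 86, 87, 88, 89, 90, 91, 93, 99, 100, 101, 102, 103, 104, 106, 113, 114, 115, 117, 118, 121, 122, 123, 124, 127, 128, 129, 131, 134, 135, 136, 137, 138, 139, 141, 142, 145, 146, 147, 149, 150, 208, 209, 210, 211, 212, 226, 227, 228, 229, 230, 231, 232, 233, 234, 235, 236, 237, 238, 239, 240, 244, 245, 246, 247, 254, 255, 256, 257, 258, 259, 260, 261, 262, 271, 272, 273, 274, 275, 278, 279, 280, 289, 290, 291, 292, 293, 294, 295, 296, 297, 298, 299, 304, 305, 306, 307, 308, 309, 310, 311, 312, 316, 317, 323, 324, 325, 326, 327, 332, 333, 334, 335, 422, 423, 432, 433]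

def m63_0 : Base := (0, 1, [(0, [0], [0, 5]), (0, [1], [1, 5]), (1, [], [2, 3]), (4, [], [4])])

def l63_0 : Cov := [(192, 0, 1, [(0, [0], [0, 5]), (0, [1], [1, 5]), (1, [], [2, 3]), (4, [], [4])]),
  (-192, 0, 1, [(0, [0], [0, 5]), (0, [1], [1, 5]), (1, [], [3, 4]), (4, [], [2])]),
  (-192, 0, 1, [(0, [0], [0, 5]), (0, [1], [3, 5]), (1, [], [1, 2]), (4, [], [4])]),
  (192, 0, 1, [(0, [0], [0, 5]), (0, [1], [3, 5]), (1, [], [1, 4]), (4, [], [2])]),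
  (192, 0, 1, [(0, [0], [1, 5]), (0, [1], [0, 5]), (1, [], [2, 3]), (4, [], [4])]),
  (-192, 0, 1, [(0, [0], [1, 5]), (0, [1], [0, 5]), (1, [], [3, 4]), (4, [], [2])]),
  (-192, 0, 1, [(0, [0], [1, 5]), (0, [1], [2, 5]), (1, [], [0, 3]), (4, [], [4])]),
  (192, 0, 1, [(0, [0], [1, 5]), (0, [1], [2, 5]), (1, [], [3, 4]), (4, [], [0])]),
  (192, 0, 1, [(0, [0], [1, 5]), (0, [1], [4, 5]), (1, [], [0, 3]), (4, [], [2])]),
  (-192, 0, 1, [(0, [0], [1, 5]), (0, [1], [4, 5]), (1, [], [2, 3]), (4, [], [0])]),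
  (-192, 0, 1, [(0, [0], [2, 5]), (0, [1], [1, 5]), (1, [], [0, 3]), (4, [], [4])]),
  (192, 0, 1, [(0, [0], [2, 5]), (0, [1], [1, 5]), (1, [], [3, 4]), (4, [], [0])]),
  (192, 0, 1, [(0, [0], [2, 5]), (0, [1], [3, 5]), (1, [], [0, 1]), (4, [], [4])]),
  (-192, 0, 1, [(0, [0], [2, 5]), (0, [1], [3, 5]), (1, [], [1, 4]), (4, [], [0])]),
  (-192, 0, 1, [(0, [0], [3, 5]), (0, [1], [0, 5]), (1, [], [1, 2]), (4, [], [4])]),
  (192, 0, 1, [(0, [0], [3, 5]), (0, [1], [0, 5]), (1, [], [1, 4]), (4, [], [2])]),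
  (192, 0, 1, [(0, [0], [3, 5]), (0, [1], [2, 5]), (1, [], [0, 1]), (4, [], [4])]),
  (-192, 0, 1, [(0, [0], [3, 5]), (0, [1], [2, 5]), (1, [], [1, 4]), (4, [], [0])]),
  (-192, 0, 1, [(0, [0], [3, 5]), (0, [1], [4, 5]), (1, [], [0, 1]), (4, [], [2])]),
  (192, 0, 1, [(0, [0], [3, 5]), (0, [1], [4, 5]), (1, [], [1, 2]), (4, [], [0])]),
  (192, 0, 1, [(0, [0], [4, 5]), (0, [1], [1, 5]), (1, [], [0, 3]), (4, [], [2])]),
  (-192, 0, 1, [(0, [0], [4, 5]), (0, [1], [1, 5]), (1, [], [2, 3]), (4, [], [0])]),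
  (-192, 0, 1, [(0, [0], [4, 5]), (0, [1], [3, 5]), (1, [], [0, 1]), (4, [], [2])]),
  (192, 0, 1, [(0, [0], [4, 5]), (0, [1], [3, 5]), (1, [], [1, 2]), (4, [], [0])])]

def z63_0 : Cov := [(0, 0, 1, [(0, [0], [0, 5]), (0, [1], [1, 5]), (1, [], [2, 4]), (4, [], [3])]),
  (0, 0, 1, [(0, [0], [0, 5]), (0, [1], [2, 5]), (1, [], [1, 3]), (4, [], [4])]),
  (0, 0, 1, [(0, [0], [0, 5]), (0, [1], [2, 5]), (1, [], [1, 4]), (4, [], [3])]),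
  (0, 0, 1, [(0, [0], [0, 5]), (0, [1], [2, 5]), (1, [], [3, 4]), (4, [], [1])]),
  (0, 0, 1, [(0, [0], [0, 5]), (0, [1], [3, 5]), (1, [], [2, 4]), (4, [], [1])]),
  (0, 0, 1, [(0, [0], [0, 5]), (0, [1], [4, 5]), (1, [], [1, 2]), (4, [], [3])]),
  (0, 0, 1, [(0, [0], [0, 5]), (0, [1], [4, 5]), (1, [], [1, 3]), (4, [], [2])]),
  (0, 0, 1, [(0, [0], [0, 5]), (0, [1], [4, 5]), (1, [], [2, 3]), (4, [], [1])]),
  (0, 0, 1, [(0, [0], [1, 5]), (0, [1], [0, 5]), (1, [], [2, 4]), (4, [], [3])]),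
  (0, 0, 1, [(0, [0], [1, 5]), (0, [1], [2, 5]), (1, [], [0, 4]), (4, [], [3])]),
  (0, 0, 1, [(0, [0], [1, 5]), (0, [1], [3, 5]), (1, [], [0, 2]), (4, [], [4])]),
  (0, 0, 1, [(0, [0], [1, 5]), (0, [1], [3, 5]), (1, [], [0, 4]), (4, [], [2])]),
  (0, 0, 1, [(0, [0], [1, 5]), (0, [1], [3, 5]), (1, [], [2, 4]), (4, [], [0])]),
  (0, 0, 1, [(0, [0], [1, 5]), (0, [1], [4, 5]), (1, [], [0, 2]), (4, [], [3])]),
  (0, 0, 1, [(0, [0], [2, 5]), (0, [1], [0, 5]), (1, [], [1, 3]), (4, [], [4])]),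
  (0, 0, 1, [(0, [0], [2, 5]), (0, [1], [0, 5]), (1, [], [1, 4]), (4, [], [3])]),
  (0, 0, 1, [(0, [0], [2, 5]), (0, [1], [0, 5]), (1, [], [3, 4]), (4, [], [1])]),
  (0, 0, 1, [(0, [0], [2, 5]), (0, [1], [1, 5]), (1, [], [0, 4]), (4, [], [3])]),
  (0, 0, 1, [(0, [0], [2, 5]), (0, [1], [3, 5]), (1, [], [0, 4]), (4, [], [1])]),
  (0, 0, 1, [(0, [0], [2, 5]), (0, [1], [4, 5]), (1, [], [0, 1]), (4, [], [3])]),
  (0, 0, 1, [(0, [0], [2, 5]), (0, [1], [4, 5]), (1, [], [0, 3]), (4, [], [1])]),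
  (0, 0, 1, [(0, [0], [2, 5]), (0, [1], [4, 5]), (1, [], [1, 3]), (4, [], [0])]),
  (0, 0, 1, [(0, [0], [3, 5]), (0, [1], [0, 5]), (1, [], [2, 4]), (4, [], [1])]),
  (0, 0, 1, [(0, [0], [3, 5]), (0, [1], [1, 5]), (1, [], [0, 2]), (4, [], [4])]),
  (0, 0, 1, [(0, [0], [3, 5]), (0, [1], [1, 5]), (1, [], [0, 4]), (4, [], [2])]),
  (0, 0, 1, [(0, [0], [3, 5]), (0, [1], [1, 5]), (1, [], [2, 4]), (4, [], [0])]),
  (0, 0, 1, [(0, [0], [3, 5]), (0, [1], [2, 5]), (1, [], [0, 4]), (4, [], [1])]),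
  (0, 0, 1, [(0, [0], [3, 5]), (0, [1], [4, 5]), (1, [], [0, 2]), (4, [], [1])]),
  (0, 0, 1, [(0, [0], [4, 5]), (0, [1], [0, 5]), (1, [], [1, 2]), (4, [], [3])]),
  (0, 0, 1, [(0, [0], [4, 5]), (0, [1], [0, 5]), (1, [], [1, 3]), (4, [], [2])]),
  (0, 0, 1, [(0, [0], [4, 5]), (0, [1], [0, 5]), (1, [], [2, 3]), (4, [], [1])]),
  (0, 0, 1, [(0, [0], [4, 5]), (0, [1], [1, 5]), (1, [], [0, 2]), (4, [], [3])]),
  (0, 0, 1, [(0, [0], [4, 5]), (0, [1], [2, 5]), (1, [], [0, 1]), (4, [], [3])]),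
  (0, 0, 1, [(0, [0], [4, 5]), (0, [1], [2, 5]), (1, [], [0, 3]), (4, [], [1])]),
  (0, 0, 1, [(0, [0], [4, 5]), (0, [1], [2, 5]), (1, [], [1, 3]), (4, [], [0])]),
  (0, 0, 1, [(0, [0], [4, 5]), (0, [1], [3, 5]), (1, [], [0, 2]), (4, [], [1])])]

def w63_0 : List (List Wit) := [[(0, 0, 0, 0, 0), (24, 0, 0, 0, 0), (0, 0, 0, 0, 0), (1, 0, 0, 0, 0), (24, 0, 0, 0, 0), (1, 0, 0, 0, 0), (25, 0, 0, 0, 0), (26, 0, 0, 0, 0), (25, 0, 0, 0, 0), (27, 0, 0, 0, 0), (26, 0, 0, 0, 0), (27, 0, 0, 0, 0), (2, 0, 0, 0, 0), (3, 0, 0, 0, 0), (2, 0, 0, 0, 0), (28, 0, 0, 0, 0), (3, 0, 0, 0, 0), (28, 0, 0, 0, 0), (29, 0, 0, 0, 0), (30, 0, 0, 0, 0), (29, 0, 0, 0, 0), (31, 0, 0, 0, 0), (30, 0, 0, 0, 0), (31, 0, 0, 0, 0), (4, 0, 0, 0, 0), (32, 0, 0, 0, 0), (4, 0, 0, 0, 0), (5, 0, 0, 0, 0), (32, 0, 0, 0, 0), (5, 0, 0, 0, 0), (6, 0, 0, 0, 0), (33, 0, 0, 0, 0), (6, 0, 0, 0, 0), (7, 0,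 0, 0, 0), (33, 0, 0, 0, 0), (7, 0, 0, 0, 0), (34, 0, 0, 0, 0), (35, 0, 0, 0, 0), (34, 0, 0, 0, 0), (36, 0, 0, 0, 0), (35, 0, 0, 0, 0), (36, 0, 0, 0, 0), (37, 0, 0, 0, 0), (8, 0, 0, 0, 0), (37, 0, 0, 0, 0), (9, 0, 0, 0, 0), (8, 0, 0, 0, 0), (9, 0, 0, 0, 0), (38, 0, 0, 0, 0), (39, 0, 0, 0, 0), (38, 0, 0, 0, 0), (40, 0, 0, 0, 0), (39, 0, 0, 0, 0), (40, 0, 0, 0, 0), (10, 0, 0, 0, 0), (41, 0, 0, 0, 0), (10, 0, 0, 0, 0), (11, 0, 0, 0, 0), (41, 0, 0, 0, 0), (11, 0, 0, 0, 0), (12, 0, 0, 0, 0), (42, 0, 0, 0, 0), (12, 0, 0, 0, 0), (13, 0, 0, 0, 0), (42, 0, 0, 0, 0), (13, 0, 0, 0, 0), (43, 0, 0, 0, 0), (44, 0, 0, 0, 0), (43, 0, 0, 0, 0), (45, 0, 0, 0, 0), (44, 0, 0, 0, 0), (45, 0, 0, 0, 0), (14, 0, 0, 0, 0), (15, 0, 0, 0, 0), (14, 0, 0, 0, 0), (46, 0, 0, 0, 0), (15, 0, 0, 0, 0), (46, 0, 0, 0, 0), (47, 0, 0, 0, 0), (48, 0, 0, 0, 0), (47, 0, 0, 0, 0), (49, 0, 0, 0, 0),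 (48, 0, 0, 0, 0), (49, 0, 0, 0, 0), (16, 0, 0, 0, 0), (50, 0, 0, 0, 0), (16, 0, 0, 0, 0), (17, 0, 0, 0, 0), (50, 0, 0, 0, 0), (17, 0, 0, 0, 0), (18, 0, 0, 0, 0), (51, 0, 0, 0, 0), (18, 0, 0, 0, 0), (19, 0, 0, 0, 0), (51, 0, 0, 0, 0), (19, 0, 0, 0, 0), (52, 0, 0, 0, 0), (53, 0, 0, 0, 0), (52, 0, 0, 0, 0), (54, 0, 0, 0, 0), (53, 0, 0, 0, 0), (54, 0, 0, 0, 0), (55, 0, 0, 0, 0), (20, 0, 0, 0, 0), (55, 0, 0, 0, 0), (21, 0, 0, 0, 0), (20, 0, 0, 0, 0), (21, 0, 0, 0, 0), (56, 0, 0, 0, 0), (57, 0, 0, 0, 0), (56, 0, 0, 0, 0), (58, 0, 0, 0, 0), (57, 0, 0, 0, 0), (58, 0, 0, 0, 0), (22, 0, 0, 0, 0), (59, 0, 0, 0, 0), (22, 0, 0, 0, 0), (23, 0, 0, 0, 0), (59, 0, 0, 0, 0), (23, 0, 0, 0, 0)],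
  [(4, 0, 0, 0, 0), (32, 0, 0, 0, 0), (4, 0, 0, 0, 0), (5, 0, 0, 0, 0), (32, 0, 0, 0, 0), (5, 0, 0, 0, 0), (38, 0, 0, 0, 0), (39, 0, 0, 0, 0), (38, 0, 0, 0, 0), (40, 0, 0, 0, 0), (39, 0, 0, 0, 0), (40, 0, 0, 0, 0), (14, 0, 0, 0, 0), (15, 0, 0, 0, 0), (14, 0, 0, 0, 0), (46, 0, 0, 0, 0), (15, 0, 0, 0, 0), (46, 0, 0, 0, 0), (52, 0, 0, 0, 0), (53, 0, 0, 0, 0), (52, 0, 0, 0, 0), (54, 0, 0, 0, 0), (53, 0, 0, 0, 0), (54, 0, 0, 0, 0), (0, 0, 0, 0, 0), (24, 0, 0, 0, 0), (0, 0, 0, 0, 0), (1, 0, 0, 0, 0), (24, 0, 0, 0, 0), (1, 0, 0, 0, 0), (10, 0, 0, 0, 0), (41, 0, 0, 0, 0), (10, 0, 0, 0, 0), (11, 0, 0, 0, 0), (41, 0, 0, 0, 0), (11, 0, 0, 0, 0), (47, 0, 0, 0, 0), (48, 0, 0, 0, 0), (47, 0, 0, 0, 0), (49, 0, 0, 0, 0), (48, 0, 0, 0, 0), (49, 0, 0, 0, 0), (55, 0, 0, 0, 0), (20, 0, 0, 0, 0), (55, 0, 0, 0, 0), (21, 0, 0, 0, 0), (20, 0, 0, 0, 0), (21, 0, 0, 0, 0), (25, 0,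 0, 0, 0), (26, 0, 0, 0, 0), (25, 0, 0, 0, 0), (27, 0, 0, 0, 0), (26, 0, 0, 0, 0), (27, 0, 0, 0, 0), (6, 0, 0, 0, 0), (33, 0, 0, 0, 0), (6, 0, 0, 0, 0), (7, 0, 0, 0, 0), (33, 0, 0, 0, 0), (7, 0, 0, 0, 0), (16, 0, 0, 0, 0), (50, 0, 0, 0, 0), (16, 0, 0, 0, 0), (17, 0, 0, 0, 0), (50, 0, 0, 0, 0), (17, 0, 0, 0, 0), (56, 0, 0, 0, 0), (57, 0, 0, 0, 0), (56, 0, 0, 0, 0), (58, 0, 0, 0, 0), (57, 0, 0, 0, 0), (58, 0, 0, 0, 0), (2, 0, 0, 0, 0), (3, 0, 0, 0, 0), (2, 0, 0, 0, 0), (28, 0, 0, 0, 0), (3, 0, 0, 0, 0), (28, 0, 0, 0, 0), (34, 0, 0, 0, 0), (35, 0, 0, 0, 0), (34, 0, 0, 0, 0), (36, 0, 0, 0, 0), (35, 0, 0, 0, 0), (36, 0, 0, 0, 0), (12, 0, 0, 0, 0), (42, 0, 0, 0, 0), (12, 0, 0, 0, 0), (13, 0, 0, 0, 0), (42, 0, 0, 0, 0), (13, 0, 0, 0, 0), (22, 0, 0, 0, 0), (59, 0, 0, 0, 0), (22, 0, 0, 0, 0), (23, 0, 0, 0, 0), (59, 0, 0, 0, 0), (23, 0, 0, 0, 0), (29, 0, 0, 0, 0), (30,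 0, 0, 0, 0), (29, 0, 0, 0, 0), (31, 0, 0, 0, 0), (30, 0, 0, 0, 0), (31, 0, 0, 0, 0), (37, 0, 0, 0, 0), (8, 0, 0, 0, 0), (37, 0, 0, 0, 0), (9, 0, 0, 0, 0), (8, 0, 0, 0, 0), (9, 0, 0, 0, 0), (43, 0, 0, 0, 0), (44, 0, 0, 0, 0), (43, 0, 0, 0, 0), (45, 0, 0, 0, 0), (44, 0, 0, 0, 0), (45, 0, 0, 0, 0), (18, 0, 0, 0, 0), (51, 0, 0, 0, 0), (18, 0, 0, 0, 0), (19, 0, 0, 0, 0), (51, 0, 0, 0, 0), (19, 0, 0, 0, 0)]]

def m63_1 : Base := (0, 1, [(0, [0], [0, 5]), (0, [1], [1, 2]), (1, [], [3, 5]), (4, [], [4])])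

def l63_1 : Cov := [(128, 0, 1, [(0, [0], [0, 5]), (0, [1], [1, 2]), (1, [], [3, 5]), (4, [], [4])]),
  (64, 0, 1, [(0, [0], [0, 5]), (0, [1], [1, 2]), (1, [], [4, 5]), (4, [], [3])]),
  (-64, 0, 1, [(0, [0], [0, 5]), (0, [1], [1, 4]), (1, [], [2, 5]), (4, [], [3])]),
  (-128, 0, 1, [(0, [0], [0, 5]), (0, [1], [1, 4]), (1, [], [3, 5]), (4, [], [2])]),
  (-128, 0, 1, [(0, [0], [0, 5]), (0, [1], [2, 3]), (1, [], [1, 5]), (4, [], [4])]),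
  (-64, 0, 1, [(0, [0], [0, 5]), (0, [1], [2, 3]), (1, [], [4, 5]), (4, [], [1])]),
  (128, 0, 1, [(0, [0], [0, 5]), (0, [1], [3, 4]), (1, [], [1, 5]), (4, [], [2])]),
  (64, 0, 1, [(0, [0], [0, 5]), (0, [1], [3, 4]), (1, [], [2, 5]), (4, [], [1])]),
  (64, 0, 1, [(0, [0], [1, 5]), (0, [1], [0, 3]), (1, [], [2, 5]), (4, [], [4])]),
  (-64, 0, 1, [(0, [0], [1, 5]), (0, [1], [0, 3]), (1, [], [4, 5]), (4, [], [2])]),
  (-64, 0, 1, [(0, [0], [1, 5]), (0, [1], [2, 3]), (1, [], [0, 5]), (4, [], [4])]),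
  (64, 0, 1, [(0, [0], [1, 5]), (0, [1], [2, 3]), (1, [], [4, 5]), (4, [], [0])]),
  (64, 0, 1, [(0, [0], [1, 5]), (0, [1], [3, 4]), (1, [], [0, 5]), (4, [], [2])]),
  (-64, 0, 1, [(0, [0], [1, 5]), (0, [1], [3, 4]), (1, [], [2, 5]), (4, [], [0])]),
  (-128, 0, 1, [(0, [0], [2, 5]), (0, [1], [0, 1]), (1, [], [3, 5]), (4, [], [4])]),
  (-64, 0, 1, [(0, [0], [2, 5]), (0, [1], [0, 1]), (1, [], [4, 5]), (4, [], [3])]),
  (128, 0, 1, [(0, [0], [2, 5]), (0, [1], [0, 3]), (1, [], [1, 5]), (4, [], [4])]),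
  (64, 0, 1, [(0, [0], [2, 5]), (0, [1], [0, 3]), (1, [], [4, 5]), (4, [], [1])]),
  (64, 0, 1, [(0, [0], [2, 5]), (0, [1], [1, 4]), (1, [], [0, 5]), (4, [], [3])]),
  (128, 0, 1, [(0, [0], [2, 5]), (0, [1], [1, 4]), (1, [], [3, 5]), (4, [], [0])]),
  (-64, 0, 1, [(0, [0], [2, 5]), (0, [1], [3, 4]), (1, [], [0, 5]), (4, [], [1])]),
  (-128, 0, 1, [(0, [0], [2, 5]), (0, [1], [3, 4]), (1, [], [1, 5]), (4, [], [0])]),
  (-64, 0, 1, [(0, [0], [3, 5]), (0, [1], [0, 1]), (1, [], [2, 5]), (4, [], [4])]),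
  (64, 0, 1, [(0, [0], [3, 5]), (0, [1], [0, 1]), (1, [], [4, 5]), (4, [], [2])]),
  (64, 0, 1, [(0, [0], [3, 5]), (0, [1], [1, 2]), (1, [], [0, 5]), (4, [], [4])]),
  (-64, 0, 1, [(0, [0], [3, 5]), (0, [1], [1, 2]), (1, [], [4, 5]), (4, [], [0])]),
  (-64, 0, 1, [(0, [0], [3, 5]), (0, [1], [1, 4]), (1, [], [0, 5]), (4, [], [2])]),
  (64, 0, 1, [(0, [0], [3, 5]), (0, [1], [1, 4]), (1, [], [2, 5]), (4, [], [0])]),
  (64, 0, 1, [(0, [0], [4, 5]), (0, [1], [0, 1]), (1, [], [2, 5]), (4, [], [3])]),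
  (128, 0, 1, [(0, [0], [4, 5]), (0, [1], [0, 1]), (1, [], [3, 5]), (4, [], [2])]),
  (-128, 0, 1, [(0, [0], [4, 5]), (0, [1], [0, 3]), (1, [], [1, 5]), (4, [], [2])]),
  (-64, 0, 1, [(0, [0], [4, 5]), (0, [1], [0, 3]), (1, [], [2, 5]), (4, [], [1])]),
  (-64, 0, 1, [(0, [0], [4, 5]), (0, [1], [1, 2]), (1, [], [0, 5]), (4, [], [3])]),
  (-128, 0, 1, [(0, [0], [4, 5]), (0, [1], [1, 2]), (1, [], [3, 5]), (4, [], [0])]),
  (64, 0, 1, [(0, [0], [4, 5]), (0, [1], [2, 3]), (1, [], [0, 5]), (4, [], [1])]),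
  (128, 0, 1, [(0, [0], [4, 5]), (0, [1], [2, 3]), (1, [], [1, 5]), (4, [], [0])]),
  (128, 0, 1, [(0, [1], [0, 5]), (0, [0], [1, 2]), (1, [], [3, 5]), (4, [], [4])]),
  (64, 0, 1, [(0, [1], [0, 5]), (0, [0], [1, 2]), (1, [], [4, 5]), (4, [], [3])]),
  (-64, 0, 1, [(0, [1], [0, 5]), (0, [0], [1, 4]), (1, [], [2, 5]), (4, [], [3])]),
  (-128, 0, 1, [(0, [1], [0, 5]), (0, [0], [1, 4]), (1, [], [3, 5]), (4, [], [2])]),
  (-128, 0, 1, [(0, [1], [0, 5]), (0, [0], [2, 3]), (1, [], [1, 5]), (4, [], [4])]),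
  (-64, 0, 1, [(0, [1], [0, 5]), (0, [0], [2, 3]), (1, [], [4, 5]), (4, [], [1])]),
  (128, 0, 1, [(0, [1], [0, 5]), (0, [0], [3, 4]), (1, [], [1, 5]), (4, [], [2])]),
  (64, 0, 1, [(0, [1], [0, 5]), (0, [0], [3, 4]), (1, [], [2, 5]), (4, [], [1])]),
  (64, 0, 1, [(0, [1], [1, 5]), (0, [0], [0, 3]), (1, [], [2, 5]), (4, [], [4])]),
  (-64, 0, 1, [(0, [1], [1, 5]), (0, [0], [0, 3]), (1, [], [4, 5]), (4, [], [2])]),
  (-64, 0, 1, [(0, [1], [1, 5]), (0, [0], [2, 3]), (1, [], [0, 5]), (4, [], [4])]),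
  (64, 0, 1, [(0, [1], [1, 5]), (0, [0], [2, 3]), (1, [], [4, 5]), (4, [], [0])]),
  (64, 0, 1, [(0, [1], [1, 5]), (0, [0], [3, 4]), (1, [], [0, 5]), (4, [], [2])]),
  (-64, 0, 1, [(0, [1], [1, 5]), (0, [0], [3, 4]), (1, [], [2, 5]), (4, [], [0])]),
  (-128, 0, 1, [(0, [1], [2, 5]), (0, [0], [0, 1]), (1, [], [3, 5]), (4, [], [4])]),
  (-64, 0, 1, [(0, [1], [2, 5]), (0, [0], [0, 1]), (1, [], [4, 5]), (4, [], [3])]),
  (128, 0, 1, [(0, [1], [2, 5]), (0, [0], [0, 3]), (1, [], [1, 5]), (4, [], [4])]),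
  (64, 0, 1, [(0, [1], [2, 5]), (0, [0], [0, 3]), (1, [], [4, 5]), (4, [], [1])]),
  (64, 0, 1, [(0, [1], [2, 5]), (0, [0], [1, 4]), (1, [], [0, 5]), (4, [], [3])]),
  (128, 0, 1, [(0, [1], [2, 5]), (0, [0], [1, 4]), (1, [], [3, 5]), (4, [], [0])]),
  (-64, 0, 1, [(0, [1], [2, 5]), (0, [0], [3, 4]), (1, [], [0, 5]), (4, [], [1])]),
  (-128, 0, 1, [(0, [1], [2, 5]), (0, [0], [3, 4]), (1, [], [1, 5]), (4, [], [0])]),
  (-64, 0, 1, [(0, [1], [3, 5]), (0, [0], [0, 1]), (1, [], [2, 5]), (4, [], [4])]),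
  (64, 0, 1, [(0, [1], [3, 5]), (0, [0], [0, 1]), (1, [], [4, 5]), (4, [], [2])]),
  (64, 0, 1, [(0, [1], [3, 5]), (0, [0], [1, 2]), (1, [], [0, 5]), (4, [], [4])]),
  (-64, 0, 1, [(0, [1], [3, 5]), (0, [0], [1, 2]), (1, [], [4, 5]), (4, [], [0])]),
  (-64, 0, 1, [(0, [1], [3, 5]), (0, [0], [1, 4]), (1, [], [0, 5]), (4, [], [2])]),
  (64, 0, 1, [(0, [1], [3, 5]), (0, [0], [1, 4]), (1, [], [2, 5]), (4, [], [0])]),
  (64, 0, 1, [(0, [1], [4, 5]), (0, [0], [0, 1]), (1, [], [2, 5]), (4, [], [3])]),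
  (128, 0, 1, [(0, [1], [4, 5]), (0, [0], [0, 1]), (1, [], [3, 5]), (4, [], [2])]),
  (-128, 0, 1, [(0, [1], [4, 5]), (0, [0], [0, 3]), (1, [], [1, 5]), (4, [], [2])]),
  (-64, 0, 1, [(0, [1], [4, 5]), (0, [0], [0, 3]), (1, [], [2, 5]), (4, [], [1])]),
  (-64, 0, 1, [(0, [1], [4, 5]), (0, [0], [1, 2]), (1, [], [0, 5]), (4, [], [3])]),
  (-128, 0, 1, [(0, [1], [4, 5]), (0, [0], [1, 2]), (1, [], [3, 5]), (4, [], [0])]),
  (64, 0, 1, [(0, [1], [4, 5]), (0, [0], [2, 3]), (1, [], [0, 5]), (4, [], [1])]),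
  (128, 0, 1, [(0, [1], [4, 5]), (0, [0], [2, 3]), (1, [], [1, 5]), (4, [], [0])])]

def z63_1 : Cov := [(0, 0, 1, [(0, [0], [0, 5]), (0, [1], [1, 3]), (1, [], [2, 5]), (4, [], [4])]),
  (0, 0, 1, [(0, [0], [0, 5]), (0, [1], [1, 3]), (1, [], [4, 5]), (4, [], [2])]),
  (0, 0, 1, [(0, [0], [0, 5]), (0, [1], [2, 4]), (1, [], [1, 5]), (4, [], [3])]),
  (0, 0, 1, [(0, [0], [0, 5]), (0, [1], [2, 4]), (1, [], [3, 5]), (4, [], [1])]),
  (0, 0, 1, [(0, [0], [1, 5]), (0, [1], [0, 2]), (1, [], [3, 5]), (4, [], [4])]),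
  (0, 0, 1, [(0, [0], [1, 5]), (0, [1], [0, 2]), (1, [], [4, 5]), (4, [], [3])]),
  (0, 0, 1, [(0, [0], [1, 5]), (0, [1], [0, 4]), (1, [], [2, 5]), (4, [], [3])]),
  (0, 0, 1, [(0, [0], [1, 5]), (0, [1], [0, 4]), (1, [], [3, 5]), (4, [], [2])]),
  (0, 0, 1, [(0, [0], [1, 5]), (0, [1], [2, 4]), (1, [], [0, 5]), (4, [], [3])]),
  (0, 0, 1, [(0, [0], [1, 5]), (0, [1], [2, 4]), (1, [], [3, 5]), (4, [], [0])]),
  (0, 0, 1, [(0, [0], [2, 5]), (0, [1], [0, 4]), (1, [], [1, 5]), (4, [], [3])]),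
  (0, 0, 1, [(0, [0], [2, 5]), (0, [1], [0, 4]), (1, [], [3, 5]), (4, [], [1])]),
  (0, 0, 1, [(0, [0], [2, 5]), (0, [1], [1, 3]), (1, [], [0, 5]), (4, [], [4])]),
  (0, 0, 1, [(0, [0], [2, 5]), (0, [1], [1, 3]), (1, [], [4, 5]), (4, [], [0])]),
  (0, 0, 1, [(0, [0], [3, 5]), (0, [1], [0, 2]), (1, [], [1, 5]), (4, [], [4])]),
  (0, 0, 1, [(0, [0], [3, 5]), (0, [1], [0, 2]), (1, [], [4, 5]), (4, [], [1])]),
  (0, 0, 1, [(0, [0], [3, 5]), (0, [1], [0, 4]), (1, [], [1, 5]), (4, [], [2])]),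
  (0, 0, 1, [(0, [0], [3, 5]), (0, [1], [0, 4]), (1, [], [2, 5]), (4, [], [1])]),
  (0, 0, 1, [(0, [0], [3, 5]), (0, [1], [2, 4]), (1, [], [0, 5]), (4, [], [1])]),
  (0, 0, 1, [(0, [0], [3, 5]), (0, [1], [2, 4]), (1, [], [1, 5]), (4, [], [0])]),
  (0, 0, 1, [(0, [0], [4, 5]), (0, [1], [0, 2]), (1, [], [1, 5]), (4, [], [3])]),
  (0, 0, 1, [(0, [0], [4, 5]), (0, [1], [0, 2]), (1, [], [3, 5]), (4, [], [1])]),
  (0, 0, 1, [(0, [0], [4, 5]), (0, [1], [1, 3]), (1, [], [0, 5]), (4, [], [2])]),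
  (0, 0, 1, [(0, [0], [4, 5]), (0, [1], [1, 3]), (1, [], [2, 5]), (4, [], [0])]),
  (0, 0, 1, [(0, [1], [0, 5]), (0, [0], [1, 3]), (1, [], [2, 5]), (4, [], [4])]),
  (0, 0, 1, [(0, [1], [0, 5]), (0, [0], [1, 3]), (1, [], [4, 5]), (4, [], [2])]),
  (0, 0, 1, [(0, [1], [0, 5]), (0, [0], [2, 4]), (1, [], [1, 5]), (4, [], [3])]),
  (0, 0, 1, [(0, [1], [0, 5]), (0, [0], [2, 4]), (1, [], [3, 5]), (4, [], [1])]),
  (0, 0, 1, [(0, [1], [1, 5]), (0, [0], [0, 2]), (1, [], [3, 5]), (4, [], [4])]),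
  (0, 0, 1, [(0, [1], [1, 5]), (0, [0], [0, 2]), (1, [], [4, 5]), (4, [], [3])]),
  (0, 0, 1, [(0, [1], [1, 5]), (0, [0], [0, 4]), (1, [], [2, 5]), (4, [], [3])]),
  (0, 0, 1, [(0, [1], [1, 5]), (0, [0], [0, 4]), (1, [], [3, 5]), (4, [], [2])]),
  (0, 0, 1, [(0, [1], [1, 5]), (0, [0], [2, 4]), (1, [], [0, 5]), (4, [], [3])]),
  (0, 0, 1, [(0, [1], [1, 5]), (0, [0], [2, 4]), (1, [], [3, 5]), (4, [], [0])]),
  (0, 0, 1, [(0, [1], [2, 5]), (0, [0], [0, 4]), (1, [], [1, 5]), (4, [], [3])]),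
  (0, 0, 1, [(0, [1], [2, 5]), (0, [0], [0, 4]), (1, [], [3, 5]), (4, [], [1])]),
  (0, 0, 1, [(0, [1], [2, 5]), (0, [0], [1, 3]), (1, [], [0, 5]), (4, [], [4])]),
  (0, 0, 1, [(0, [1], [2, 5]), (0, [0], [1, 3]), (1, [], [4, 5]), (4, [], [0])]),
  (0, 0, 1, [(0, [1], [3, 5]), (0, [0], [0, 2]), (1, [], [1, 5]), (4, [], [4])]),
  (0, 0, 1, [(0, [1], [3, 5]), (0, [0], [0, 2]), (1, [], [4, 5]), (4, [], [1])]),
  (0, 0, 1, [(0, [1], [3, 5]), (0, [0], [0, 4]), (1, [], [1, 5]), (4, [], [2])]),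
  (0, 0, 1, [(0, [1], [3, 5]), (0, [0], [0, 4]), (1, [], [2, 5]), (4, [], [1])]),
  (0, 0, 1, [(0, [1], [3, 5]), (0, [0], [2, 4]), (1, [], [0, 5]), (4, [], [1])]),
  (0, 0, 1, [(0, [1], [3, 5]), (0, [0], [2, 4]), (1, [], [1, 5]), (4, [], [0])]),
  (0, 0, 1, [(0, [1], [4, 5]), (0, [0], [0, 2]), (1, [], [1, 5]), (4, [], [3])]),
  (0, 0, 1, [(0, [1], [4, 5]), (0, [0], [0, 2]), (1, [], [3, 5]), (4, [], [1])]),
  (0, 0, 1, [(0, [1], [4, 5]), (0, [0], [1, 3]), (1, [], [0, 5]), (4, [], [2])]),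
  (0, 0, 1, [(0, [1], [4, 5]), (0, [0], [1, 3]), (1, [], [2, 5]), (4, [], [0])])]

def w63_1 : List (List Wit) := [[(0, 0, 0, 0, 0), (1, 0, 0, 0, 0), (72, 0, 0, 0, 0), (73, 0, 0, 0, 0), (2, 0, 0, 0, 0), (3, 0, 0, 0, 0), (0, 0, 0, 0, 0), (1, 0, 0, 0, 0), (4, 0, 0, 0, 0), (5, 0, 0, 0, 0), (74, 0, 0, 0, 0), (75, 0, 0, 0, 0), (72, 0, 0, 0, 0), (73, 0, 0, 0, 0), (4, 0, 0, 0, 0), (5, 0, 0, 0, 0), (6, 0, 0, 0, 0), (7, 0, 0, 0, 0), (2, 0, 0, 0, 0), (3, 0, 0, 0, 0), (74, 0, 0, 0, 0), (75, 0, 0, 0, 0), (6, 0, 0, 0, 0), (7, 0, 0, 0, 0), (76, 0, 0, 0, 0), (77, 0, 0, 0, 0), (8, 0, 0, 0, 0), (9, 0, 0, 0, 0), (78, 0, 0, 0, 0), (79, 0, 0, 0, 0), (76, 0, 0, 0, 0), (77, 0, 0, 0, 0), (10, 0, 0, 0, 0), (11, 0, 0, 0, 0), (80, 0, 0, 0, 0), (81, 0, 0, 0, 0), (8, 0, 0, 0, 0), (9, 0, 0, 0, 0), (10, 0, 0, 0, 0), (11, 0, 0, 0, 0), (12, 0, 0, 0, 0), (13, 0, 0, 0, 0), (78, 0, 0, 0, 0),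 (79, 0, 0, 0, 0), (80, 0, 0, 0, 0), (81, 0, 0, 0, 0), (12, 0, 0, 0, 0), (13, 0, 0, 0, 0), (14, 0, 0, 0, 0), (15, 0, 0, 0, 0), (16, 0, 0, 0, 0), (17, 0, 0, 0, 0), (82, 0, 0, 0, 0), (83, 0, 0, 0, 0), (14, 0, 0, 0, 0), (15, 0, 0, 0, 0), (84, 0, 0, 0, 0), (85, 0, 0, 0, 0), (18, 0, 0, 0, 0), (19, 0, 0, 0, 0), (16, 0, 0, 0, 0), (17, 0, 0, 0, 0), (84, 0, 0, 0, 0), (85, 0, 0, 0, 0), (20, 0, 0, 0, 0), (21, 0, 0, 0, 0), (82, 0, 0, 0, 0), (83, 0, 0, 0, 0), (18, 0, 0, 0, 0), (19, 0, 0, 0, 0), (20, 0, 0, 0, 0), (21, 0, 0, 0, 0), (22, 0, 0, 0, 0), (23, 0, 0, 0, 0), (86, 0, 0, 0, 0), (87, 0, 0, 0, 0), (88, 0, 0, 0, 0), (89, 0, 0, 0, 0), (22, 0, 0, 0, 0), (23, 0, 0, 0, 0), (24, 0, 0, 0, 0), (25, 0, 0, 0, 0), (26, 0, 0, 0, 0), (27, 0, 0, 0, 0), (86, 0, 0, 0, 0), (87, 0, 0, 0, 0), (24, 0, 0, 0, 0), (25, 0, 0, 0, 0), (90, 0, 0, 0, 0), (91, 0, 0, 0, 0), (88, 0, 0, 0, 0), (89,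 0, 0, 0, 0), (26, 0, 0, 0, 0), (27, 0, 0, 0, 0), (90, 0, 0, 0, 0), (91, 0, 0, 0, 0), (28, 0, 0, 0, 0), (29, 0, 0, 0, 0), (92, 0, 0, 0, 0), (93, 0, 0, 0, 0), (30, 0, 0, 0, 0), (31, 0, 0, 0, 0), (28, 0, 0, 0, 0), (29, 0, 0, 0, 0), (32, 0, 0, 0, 0), (33, 0, 0, 0, 0), (94, 0, 0, 0, 0), (95, 0, 0, 0, 0), (92, 0, 0, 0, 0), (93, 0, 0, 0, 0), (32, 0, 0, 0, 0), (33, 0, 0, 0, 0), (34, 0, 0, 0, 0), (35, 0, 0, 0, 0), (30, 0, 0, 0, 0), (31, 0, 0, 0, 0), (94, 0, 0, 0, 0), (95, 0, 0, 0, 0), (34, 0, 0, 0, 0), (35, 0, 0, 0, 0)],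
  [(36, 0, 0, 0, 0), (37, 0, 0, 0, 0), (96, 0, 0, 0, 0), (97, 0, 0, 0, 0), (38, 0, 0, 0, 0), (39, 0, 0, 0, 0), (36, 0, 0, 0, 0), (37, 0, 0, 0, 0), (40, 0, 0, 0, 0), (41, 0, 0, 0, 0), (98, 0, 0, 0, 0), (99, 0, 0, 0, 0), (96, 0, 0, 0, 0), (97, 0, 0, 0, 0), (40, 0, 0, 0, 0), (41, 0, 0, 0, 0), (42, 0, 0, 0, 0), (43, 0, 0, 0, 0), (38, 0, 0, 0, 0), (39, 0, 0, 0, 0), (98, 0, 0, 0, 0), (99, 0, 0, 0, 0), (42, 0, 0, 0, 0), (43, 0, 0, 0, 0), (100, 0, 0, 0, 0), (101, 0, 0, 0, 0), (44, 0, 0, 0, 0), (45, 0, 0, 0, 0), (102, 0, 0, 0, 0), (103, 0, 0, 0, 0), (100, 0, 0, 0, 0), (101, 0, 0, 0, 0), (46, 0, 0, 0, 0), (47, 0, 0, 0, 0), (104, 0, 0, 0, 0), (105, 0, 0, 0, 0), (44, 0, 0, 0, 0), (45, 0, 0, 0, 0), (46, 0, 0, 0, 0), (47, 0, 0, 0, 0), (48, 0, 0, 0, 0), (49, 0, 0, 0, 0), (102, 0, 0, 0, 0), (103, 0, 0, 0, 0), (104, 0, 0, 0, 0), (105, 0, 0, 0, 0), (48, 0, 0, 0, 0), (49, 0,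 0, 0, 0), (50, 0, 0, 0, 0), (51, 0, 0, 0, 0), (52, 0, 0, 0, 0), (53, 0, 0, 0, 0), (106, 0, 0, 0, 0), (107, 0, 0, 0, 0), (50, 0, 0, 0, 0), (51, 0, 0, 0, 0), (108, 0, 0, 0, 0), (109, 0, 0, 0, 0), (54, 0, 0, 0, 0), (55, 0, 0, 0, 0), (52, 0, 0, 0, 0), (53, 0, 0, 0, 0), (108, 0, 0, 0, 0), (109, 0, 0, 0, 0), (56, 0, 0, 0, 0), (57, 0, 0, 0, 0), (106, 0, 0, 0, 0), (107, 0, 0, 0, 0), (54, 0, 0, 0, 0), (55, 0, 0, 0, 0), (56, 0, 0, 0, 0), (57, 0, 0, 0, 0), (58, 0, 0, 0, 0), (59, 0, 0, 0, 0), (110, 0, 0, 0, 0), (111, 0, 0, 0, 0), (112, 0, 0, 0, 0), (113, 0, 0, 0, 0), (58, 0, 0, 0, 0), (59, 0, 0, 0, 0), (60, 0, 0, 0, 0), (61, 0, 0, 0, 0), (62, 0, 0, 0, 0), (63, 0, 0, 0, 0), (110, 0, 0, 0, 0), (111, 0, 0, 0, 0), (60, 0, 0, 0, 0), (61, 0, 0, 0, 0), (114, 0, 0, 0, 0), (115, 0, 0, 0, 0), (112, 0, 0, 0, 0), (113, 0, 0, 0, 0), (62, 0, 0, 0, 0), (63, 0, 0, 0, 0), (114, 0, 0,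 0, 0), (115, 0, 0, 0, 0), (64, 0, 0, 0, 0), (65, 0, 0, 0, 0), (116, 0, 0, 0, 0), (117, 0, 0, 0, 0), (66, 0, 0, 0, 0), (67, 0, 0, 0, 0), (64, 0, 0, 0, 0), (65, 0, 0, 0, 0), (68, 0, 0, 0, 0), (69, 0, 0, 0, 0), (118, 0, 0, 0, 0), (119, 0, 0, 0, 0), (116, 0, 0, 0, 0), (117, 0, 0, 0, 0), (68, 0, 0, 0, 0), (69, 0, 0, 0, 0), (70, 0, 0, 0, 0), (71, 0, 0, 0, 0), (66, 0, 0, 0, 0), (67, 0, 0, 0, 0), (118, 0, 0, 0, 0), (119, 0, 0, 0, 0), (70, 0, 0, 0, 0), (71, 0, 0, 0, 0)]]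

def m63_2 : Base := (0, 1, [(0, [0], [0, 5]), (0, [1], [1, 2]), (1, [], [3, 4]), (4, [], [5])])

def l63_2 : Cov := [(192, 0, 1, [(0, [0], [0, 5]), (0, [1], [1, 2]), (1, [], [3, 4]), (4, [], [5])]),
  (-192, 0, 1, [(0, [0], [0, 5]), (0, [1], [1, 4]), (1, [], [2, 3]), (4, [], [5])]),
  (-192, 0, 1, [(0, [0], [0, 5]), (0, [1], [2, 3]), (1, [], [1, 4]), (4, [], [5])]),
  (192, 0, 1, [(0, [0], [0, 5]), (0, [1], [3, 4]), (1, [], [1, 2]), (4, [], [5])]),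
  (-192, 0, 1, [(0, [0], [2, 5]), (0, [1], [0, 1]), (1, [], [3, 4]), (4, [], [5])]),
  (192, 0, 1, [(0, [0], [2, 5]), (0, [1], [0, 3]), (1, [], [1, 4]), (4, [], [5])]),
  (192, 0, 1, [(0, [0], [2, 5]), (0, [1], [1, 4]), (1, [], [0, 3]), (4, [], [5])]),
  (-192, 0, 1, [(0, [0], [2, 5]), (0, [1], [3, 4]), (1, [], [0, 1]), (4, [], [5])]),
  (192, 0, 1, [(0, [0], [4, 5]), (0, [1], [0, 1]), (1, [], [2, 3]), (4, [], [5])]),
  (-192, 0, 1, [(0, [0], [4, 5]), (0, [1], [0, 3]), (1, [], [1, 2]), (4, [], [5])]),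
  (-192, 0, 1, [(0, [0], [4, 5]), (0, [1], [1, 2]), (1, [], [0, 3]), (4, [], [5])]),
  (192, 0, 1, [(0, [0], [4, 5]), (0, [1], [2, 3]), (1, [], [0, 1]), (4, [], [5])]),
  (192, 0, 1, [(0, [1], [0, 5]), (0, [0], [1, 2]), (1, [], [3, 4]), (4, [], [5])]),
  (-192, 0, 1, [(0, [1], [0, 5]), (0, [0], [1, 4]), (1, [], [2, 3]), (4, [], [5])]),
  (-192, 0, 1, [(0, [1], [0, 5]), (0, [0], [2, 3]), (1, [], [1, 4]), (4, [], [5])]),
  (192, 0, 1, [(0, [1], [0, 5]), (0, [0], [3, 4]), (1, [], [1, 2]), (4, [], [5])]),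
  (-192, 0, 1, [(0, [1], [2, 5]), (0, [0], [0, 1]), (1, [], [3, 4]), (4, [], [5])]),
  (192, 0, 1, [(0, [1], [2, 5]), (0, [0], [0, 3]), (1, [], [1, 4]), (4, [], [5])]),
  (192, 0, 1, [(0, [1], [2, 5]), (0, [0], [1, 4]), (1, [], [0, 3]), (4, [], [5])]),
  (-192, 0, 1, [(0, [1], [2, 5]), (0, [0], [3, 4]), (1, [], [0, 1]), (4, [], [5])]),
  (192, 0, 1, [(0, [1], [4, 5]), (0, [0], [0, 1]), (1, [], [2, 3]), (4, [], [5])]),
  (-192, 0, 1, [(0, [1], [4, 5]), (0, [0], [0, 3]), (1, [], [1, 2]), (4, [], [5])]),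
  (-192, 0, 1, [(0, [1], [4, 5]), (0, [0], [1, 2]), (1, [], [0, 3]), (4, [], [5])]),
  (192, 0, 1, [(0, [1], [4, 5]), (0, [0], [2, 3]), (1, [], [0, 1]), (4, [], [5])])]

def z63_2 : Cov := [(0, 0, 1, [(0, [0], [0, 5]), (0, [1], [1, 3]), (1, [], [2, 4]), (4, [], [5])]),
  (0, 0, 1, [(0, [0], [0, 5]), (0, [1], [2, 4]), (1, [], [1, 3]), (4, [], [5])]),
  (0, 0, 1, [(0, [0], [1, 5]), (0, [1], [0, 2]), (1, [], [3, 4]), (4, [], [5])]),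
  (0, 0, 1, [(0, [0], [1, 5]), (0, [1], [0, 3]), (1, [], [2, 4]), (4, [], [5])]),
  (0, 0, 1, [(0, [0], [1, 5]), (0, [1], [0, 4]), (1, [], [2, 3]), (4, [], [5])]),
  (0, 0, 1, [(0, [0], [1, 5]), (0, [1], [2, 3]), (1, [], [0, 4]), (4, [], [5])]),
  (0, 0, 1, [(0, [0], [1, 5]), (0, [1], [2, 4]), (1, [], [0, 3]), (4, [], [5])]),
  (0, 0, 1, [(0, [0], [1, 5]), (0, [1], [3, 4]), (1, [], [0, 2]), (4, [], [5])]),
  (0, 0, 1, [(0, [0], [2, 5]), (0, [1], [0, 4]), (1, [], [1, 3]), (4, [], [5])]),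
  (0, 0, 1, [(0, [0], [2, 5]), (0, [1], [1, 3]), (1, [], [0, 4]), (4, [], [5])]),
  (0, 0, 1, [(0, [0], [3, 5]), (0, [1], [0, 1]), (1, [], [2, 4]), (4, [], [5])]),
  (0, 0, 1, [(0, [0], [3, 5]), (0, [1], [0, 2]), (1, [], [1, 4]), (4, [], [5])]),
  (0, 0, 1, [(0, [0], [3, 5]), (0, [1], [0, 4]), (1, [], [1, 2]), (4, [], [5])]),
  (0, 0, 1, [(0, [0], [3, 5]), (0, [1], [1, 2]), (1, [], [0, 4]), (4, [], [5])]),
  (0, 0, 1, [(0, [0], [3, 5]), (0, [1], [1, 4]), (1, [], [0, 2]), (4, [], [5])]),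
  (0, 0, 1, [(0, [0], [3, 5]), (0, [1], [2, 4]), (1, [], [0, 1]), (4, [], [5])]),
  (0, 0, 1, [(0, [0], [4, 5]), (0, [1], [0, 2]), (1, [], [1, 3]), (4, [], [5])]),
  (0, 0, 1, [(0, [0], [4, 5]), (0, [1], [1, 3]), (1, [], [0, 2]), (4, [], [5])]),
  (0, 0, 1, [(0, [1], [0, 5]), (0, [0], [1, 3]), (1, [], [2, 4]), (4, [], [5])]),
  (0, 0, 1, [(0, [1], [0, 5]), (0, [0], [2, 4]), (1, [], [1, 3]), (4, [], [5])]),
  (0, 0, 1, [(0, [1], [1, 5]), (0, [0], [0, 2]), (1, [], [3, 4]), (4, [], [5])]),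
  (0, 0, 1, [(0, [1], [1, 5]), (0, [0], [0, 3]), (1, [], [2, 4]), (4, [], [5])]),
  (0, 0, 1, [(0, [1], [1, 5]), (0, [0], [0, 4]), (1, [], [2, 3]), (4, [], [5])]),
  (0, 0, 1, [(0, [1], [1, 5]), (0, [0], [2, 3]), (1, [], [0, 4]), (4, [], [5])]),
  (0, 0, 1, [(0, [1], [1, 5]), (0, [0], [2, 4]), (1, [], [0, 3]), (4, [], [5])]),
  (0, 0, 1, [(0, [1], [1, 5]), (0, [0], [3, 4]), (1, [], [0, 2]), (4, [], [5])]),
  (0, 0, 1, [(0, [1], [2, 5]), (0, [0], [0, 4]), (1, [], [1, 3]), (4, [], [5])]),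
  (0, 0, 1, [(0, [1], [2, 5]), (0, [0], [1, 3]), (1, [], [0, 4]), (4, [], [5])]),
  (0, 0, 1, [(0, [1], [3, 5]), (0, [0], [0, 1]), (1, [], [2, 4]), (4, [], [5])]),
  (0, 0, 1, [(0, [1], [3, 5]), (0, [0], [0, 2]), (1, [], [1, 4]), (4, [], [5])]),
  (0, 0, 1, [(0, [1], [3, 5]), (0, [0], [0, 4]), (1, [], [1, 2]), (4, [], [5])]),
  (0, 0, 1, [(0, [1], [3, 5]), (0, [0], [1, 2]), (1, [], [0, 4]), (4, [], [5])]),
  (0, 0, 1, [(0, [1], [3, 5]), (0, [0], [1, 4]), (1, [], [0, 2]), (4, [], [5])]),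
  (0, 0, 1, [(0, [1], [3, 5]), (0, [0], [2, 4]), (1, [], [0, 1]), (4, [], [5])]),
  (0, 0, 1, [(0, [1], [4, 5]), (0, [0], [0, 2]), (1, [], [1, 3]), (4, [], [5])]),
  (0, 0, 1, [(0, [1], [4, 5]), (0, [0], [1, 3]), (1, [], [0, 2]), (4, [], [5])])]

def w63_2 : List (List Wit) := [[(0, 0, 0, 0, 0), (0, 0, 0, 0, 0), (24, 0, 0, 0, 0), (24, 0, 0, 0, 0), (1, 0, 0, 0, 0), (1, 0, 0, 0, 0), (0, 0, 0, 0, 0), (0, 0, 0, 0, 0), (2, 0, 0, 0, 0), (2, 0, 0, 0, 0), (25, 0, 0, 0, 0), (25, 0, 0, 0, 0), (24, 0, 0, 0, 0), (24, 0, 0, 0, 0), (2, 0, 0, 0, 0), (2, 0, 0, 0, 0), (3, 0, 0, 0, 0), (3, 0, 0, 0, 0), (1, 0, 0, 0, 0), (1, 0, 0, 0, 0), (25, 0, 0, 0, 0), (25, 0, 0, 0, 0), (3, 0, 0, 0, 0), (3, 0, 0, 0, 0), (26, 0, 0, 0, 0), (26, 0, 0, 0, 0), (27, 0, 0, 0, 0), (27, 0, 0, 0, 0), (28, 0, 0, 0, 0), (28, 0, 0, 0, 0), (26, 0, 0, 0, 0), (26, 0, 0, 0, 0), (29, 0, 0, 0, 0), (29, 0, 0,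 0, 0), (30, 0, 0, 0, 0), (30, 0, 0, 0, 0), (27, 0, 0, 0, 0), (27, 0, 0, 0, 0), (29, 0, 0, 0, 0), (29, 0, 0, 0, 0), (31, 0, 0, 0, 0), (31, 0, 0, 0, 0), (28, 0, 0, 0, 0), (28, 0, 0, 0, 0), (30, 0, 0, 0, 0), (30, 0, 0, 0, 0), (31, 0, 0, 0, 0), (31, 0, 0, 0, 0), (4, 0, 0, 0, 0), (4, 0, 0, 0, 0), (5, 0, 0, 0, 0), (5, 0, 0, 0, 0), (32, 0, 0, 0, 0), (32, 0, 0, 0, 0), (4, 0, 0, 0, 0), (4, 0, 0, 0, 0), (33, 0, 0, 0, 0), (33, 0, 0, 0, 0), (6, 0, 0, 0, 0), (6, 0, 0, 0, 0), (5, 0, 0, 0, 0), (5, 0, 0, 0, 0), (33, 0, 0, 0, 0), (33, 0, 0, 0, 0), (7, 0, 0, 0, 0), (7, 0, 0, 0, 0), (32, 0, 0, 0, 0), (32, 0, 0, 0, 0), (6, 0, 0, 0, 0), (6, 0, 0, 0, 0), (7, 0, 0, 0, 0), (7, 0, 0, 0, 0), (34, 0, 0, 0, 0), (34, 0, 0, 0, 0), (35, 0, 0, 0, 0), (35, 0, 0, 0, 0), (36, 0, 0, 0, 0), (36, 0, 0, 0, 0), (34, 0, 0, 0, 0), (34, 0, 0, 0, 0), (37, 0, 0, 0, 0), (37, 0, 0, 0, 0), (38, 0, 0, 0,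 0), (38, 0, 0, 0, 0), (35, 0, 0, 0, 0), (35, 0, 0, 0, 0), (37, 0, 0, 0, 0), (37, 0, 0, 0, 0), (39, 0, 0, 0, 0), (39, 0, 0, 0, 0), (36, 0, 0, 0, 0), (36, 0, 0, 0, 0), (38, 0, 0, 0, 0), (38, 0, 0, 0, 0), (39, 0, 0, 0, 0), (39, 0, 0, 0, 0), (8, 0, 0, 0, 0), (8, 0, 0, 0, 0), (40, 0, 0, 0, 0), (40, 0, 0, 0, 0), (9, 0, 0, 0, 0), (9, 0, 0, 0, 0), (8, 0, 0, 0, 0), (8, 0, 0, 0, 0), (10, 0, 0, 0, 0), (10, 0, 0, 0, 0), (41, 0, 0, 0, 0), (41, 0, 0, 0, 0), (40, 0, 0, 0, 0), (40, 0, 0, 0, 0), (10, 0, 0, 0, 0), (10, 0, 0, 0, 0), (11, 0, 0, 0, 0), (11, 0, 0, 0, 0), (9, 0, 0, 0, 0), (9, 0, 0, 0, 0), (41, 0, 0, 0, 0), (41, 0, 0, 0, 0), (11, 0, 0, 0, 0), (11, 0, 0, 0, 0)],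
  [(12, 0, 0, 0, 0), (12, 0, 0, 0, 0), (42, 0, 0, 0, 0), (42, 0, 0, 0, 0), (13, 0, 0, 0, 0), (13, 0, 0, 0, 0), (12, 0, 0, 0, 0), (12, 0, 0, 0, 0), (14, 0, 0, 0, 0), (14, 0, 0, 0, 0), (43, 0, 0, 0, 0), (43, 0, 0, 0, 0), (42, 0, 0, 0, 0), (42, 0, 0, 0, 0), (14, 0, 0, 0, 0), (14, 0, 0, 0, 0), (15, 0, 0, 0, 0), (15, 0, 0, 0, 0), (13, 0, 0, 0, 0), (13, 0, 0, 0, 0), (43, 0, 0, 0, 0), (43, 0, 0, 0, 0), (15, 0, 0, 0, 0), (15, 0, 0, 0, 0), (44, 0, 0, 0, 0), (44, 0, 0, 0, 0), (45, 0, 0, 0, 0), (45, 0, 0, 0, 0), (46, 0, 0, 0, 0), (46, 0, 0, 0, 0), (44, 0, 0, 0, 0), (44, 0, 0, 0, 0), (47, 0, 0, 0, 0), (47, 0, 0, 0, 0), (48, 0, 0, 0, 0), (48, 0, 0, 0, 0), (45, 0, 0, 0, 0), (45, 0, 0, 0, 0), (47, 0, 0, 0, 0), (47, 0, 0, 0, 0), (49, 0, 0, 0, 0), (49, 0, 0, 0, 0), (46, 0, 0, 0, 0), (46, 0, 0, 0, 0), (48, 0, 0, 0, 0), (48, 0, 0, 0, 0), (49, 0, 0, 0, 0), (49, 0, 0, 0, 0),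 (16, 0, 0, 0, 0), (16, 0, 0, 0, 0), (17, 0, 0, 0, 0), (17, 0, 0, 0, 0), (50, 0, 0, 0, 0), (50, 0, 0, 0, 0), (16, 0, 0, 0, 0), (16, 0, 0, 0, 0), (51, 0, 0, 0, 0), (51, 0, 0, 0, 0), (18, 0, 0, 0, 0), (18, 0, 0, 0, 0), (17, 0, 0, 0, 0), (17, 0, 0, 0, 0), (51, 0, 0, 0, 0), (51, 0, 0, 0, 0), (19, 0, 0, 0, 0), (19, 0, 0, 0, 0), (50, 0, 0, 0, 0), (50, 0, 0, 0, 0), (18, 0, 0, 0, 0), (18, 0, 0, 0, 0), (19, 0, 0, 0, 0), (19, 0, 0, 0, 0), (52, 0, 0, 0, 0), (52, 0, 0, 0, 0), (53, 0, 0, 0, 0), (53, 0, 0, 0, 0), (54, 0, 0, 0, 0), (54, 0, 0, 0, 0), (52, 0, 0, 0, 0), (52, 0, 0, 0, 0), (55, 0, 0, 0, 0), (55, 0, 0, 0, 0), (56, 0, 0, 0, 0), (56, 0, 0, 0, 0), (53, 0, 0, 0, 0), (53, 0, 0, 0, 0), (55, 0, 0, 0, 0), (55, 0, 0, 0, 0), (57, 0, 0, 0, 0), (57, 0, 0, 0, 0), (54, 0, 0, 0, 0), (54, 0, 0, 0, 0), (56, 0, 0, 0, 0), (56, 0, 0, 0, 0), (57, 0, 0, 0, 0), (57, 0, 0, 0, 0), (20,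 0, 0, 0, 0), (20, 0, 0, 0, 0), (58, 0, 0, 0, 0), (58, 0, 0, 0, 0), (21, 0, 0, 0, 0), (21, 0, 0, 0, 0), (20, 0, 0, 0, 0), (20, 0, 0, 0, 0), (22, 0, 0, 0, 0), (22, 0, 0, 0, 0), (59, 0, 0, 0, 0), (59, 0, 0, 0, 0), (58, 0, 0, 0, 0), (58, 0, 0, 0, 0), (22, 0, 0, 0, 0), (22, 0, 0, 0, 0), (23, 0, 0, 0, 0), (23, 0, 0, 0, 0), (21, 0, 0, 0, 0), (21, 0, 0, 0, 0), (59, 0, 0, 0, 0), (59, 0, 0, 0, 0), (23, 0, 0, 0, 0), (23, 0, 0, 0, 0)]]

def m63_3 : Base := (0, 1, [(0, [0], [0, 5]), (0, [1], [1, 2]), (1, [], [4, 5]), (4, [], [3])])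

def l63_3 : Cov := [(128, 0, 1, [(0, [0], [0, 5]), (0, [1], [1, 2]), (1, [], [4, 5]), (4, [], [3])]),
  (64, 0, 1, [(0, [0], [0, 5]), (0, [1], [1, 2]), (1, [], [3, 5]), (4, [], [4])]),
  (-64, 0, 1, [(0, [0], [0, 5]), (0, [1], [1, 4]), (1, [], [3, 5]), (4, [], [2])]),
  (-128, 0, 1, [(0, [0], [0, 5]), (0, [1], [1, 4]), (1, [], [2, 5]), (4, [], [3])]),
  (-128, 0, 1, [(0, [0], [0, 5]), (0, [1], [2, 3]), (1, [], [4, 5]), (4, [], [1])]),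
  (-64, 0, 1, [(0, [0], [0, 5]), (0, [1], [2, 3]), (1, [], [1, 5]), (4, [], [4])]),
  (128, 0, 1, [(0, [0], [0, 5]), (0, [1], [3, 4]), (1, [], [2, 5]), (4, [], [1])]),
  (64, 0, 1, [(0, [0], [0, 5]), (0, [1], [3, 4]), (1, [], [1, 5]), (4, [], [2])]),
  (64, 0, 1, [(0, [0], [1, 5]), (0, [1], [0, 3]), (1, [], [4, 5]), (4, [], [2])]),
  (-64, 0, 1, [(0, [0], [1, 5]), (0, [1], [0, 3]), (1, [], [2, 5]), (4, [], [4])]),
  (-64, 0, 1, [(0, [0], [1, 5]), (0, [1], [2, 3]), (1, [], [4, 5]), (4, [], [0])]),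
  (64, 0, 1, [(0, [0], [1, 5]), (0, [1], [2, 3]), (1, [], [0, 5]), (4, [], [4])]),
  (64, 0, 1, [(0, [0], [1, 5]), (0, [1], [3, 4]), (1, [], [2, 5]), (4, [], [0])]),
  (-64, 0, 1, [(0, [0], [1, 5]), (0, [1], [3, 4]), (1, [], [0, 5]), (4, [], [2])]),
  (-128, 0, 1, [(0, [0], [2, 5]), (0, [1], [0, 1]), (1, [], [4, 5]), (4, [], [3])]),
  (-64, 0, 1, [(0, [0], [2, 5]), (0, [1], [0, 1]), (1, [], [3, 5]), (4, [], [4])]),
  (128, 0, 1, [(0, [0], [2, 5]), (0, [1], [0, 3]), (1, [], [4, 5]), (4, [], [1])]),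
  (64, 0, 1, [(0, [0], [2, 5]), (0, [1], [0, 3]), (1, [], [1, 5]), (4, [], [4])]),
  (64, 0, 1, [(0, [0], [2, 5]), (0, [1], [1, 4]), (1, [], [3, 5]), (4, [], [0])]),
  (128, 0, 1, [(0, [0], [2, 5]), (0, [1], [1, 4]), (1, [], [0, 5]), (4, [], [3])]),
  (-64, 0, 1, [(0, [0], [2, 5]), (0, [1], [3, 4]), (1, [], [1, 5]), (4, [], [0])]),
  (-128, 0, 1, [(0, [0], [2, 5]), (0, [1], [3, 4]), (1, [], [0, 5]), (4, [], [1])]),
  (-64, 0, 1, [(0, [0], [3, 5]), (0, [1], [0, 1]), (1, [], [4, 5]), (4, [], [2])]),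
  (64, 0, 1, [(0, [0], [3, 5]), (0, [1], [0, 1]), (1, [], [2, 5]), (4, [], [4])]),
  (64, 0, 1, [(0, [0], [3, 5]), (0, [1], [1, 2]), (1, [], [4, 5]), (4, [], [0])]),
  (-64, 0, 1, [(0, [0], [3, 5]), (0, [1], [1, 2]), (1, [], [0, 5]), (4, [], [4])]),
  (-64, 0, 1, [(0, [0], [3, 5]), (0, [1], [1, 4]), (1, [], [2, 5]), (4, [], [0])]),
  (64, 0, 1, [(0, [0], [3, 5]), (0, [1], [1, 4]), (1, [], [0, 5]), (4, [], [2])]),
  (64, 0, 1, [(0, [0], [4, 5]), (0, [1], [0, 1]), (1, [], [3, 5]), (4, [], [2])]),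
  (128, 0, 1, [(0, [0], [4, 5]), (0, [1], [0, 1]), (1, [], [2, 5]), (4, [], [3])]),
  (-128, 0, 1, [(0, [0], [4, 5]), (0, [1], [0, 3]), (1, [], [2, 5]), (4, [], [1])]),
  (-64, 0, 1, [(0, [0], [4, 5]), (0, [1], [0, 3]), (1, [], [1, 5]), (4, [], [2])]),
  (-64, 0, 1, [(0, [0], [4, 5]), (0, [1], [1, 2]), (1, [], [3, 5]), (4, [], [0])]),
  (-128, 0, 1, [(0, [0], [4, 5]), (0, [1], [1, 2]), (1, [], [0, 5]), (4, [], [3])]),
  (64, 0, 1, [(0, [0], [4, 5]), (0, [1], [2, 3]), (1, [], [1, 5]), (4, [], [0])]),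
  (128, 0, 1, [(0, [0], [4, 5]), (0, [1], [2, 3]), (1, [], [0, 5]), (4, [], [1])]),
  (128, 0, 1, [(0, [1], [0, 5]), (0, [0], [1, 2]), (1, [], [4, 5]), (4, [], [3])]),
  (64, 0, 1, [(0, [1], [0, 5]), (0, [0], [1, 2]), (1, [], [3, 5]), (4, [], [4])]),
  (-64, 0, 1, [(0, [1], [0, 5]), (0, [0], [1, 4]), (1, [], [3, 5]), (4, [], [2])]),
  (-128, 0, 1, [(0, [1], [0, 5]), (0, [0], [1, 4]), (1, [], [2, 5]), (4, [], [3])]),
  (-128, 0, 1, [(0, [1], [0, 5]), (0, [0], [2, 3]), (1, [], [4, 5]), (4, [], [1])]),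
  (-64, 0, 1, [(0, [1], [0, 5]), (0, [0], [2, 3]), (1, [], [1, 5]), (4, [], [4])]),
  (128, 0, 1, [(0, [1], [0, 5]), (0, [0], [3, 4]), (1, [], [2, 5]), (4, [], [1])]),
  (64, 0, 1, [(0, [1], [0, 5]), (0, [0], [3, 4]), (1, [], [1, 5]), (4, [], [2])]),
  (64, 0, 1, [(0, [1], [1, 5]), (0, [0], [0, 3]), (1, [], [4, 5]), (4, [], [2])]),
  (-64, 0, 1, [(0, [1], [1, 5]), (0, [0], [0, 3]), (1, [], [2, 5]), (4, [], [4])]),
  (-64, 0, 1, [(0, [1], [1, 5]), (0, [0], [2, 3]), (1, [], [4, 5]), (4, [], [0])]),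
  (64, 0, 1, [(0, [1], [1, 5]), (0, [0], [2, 3]), (1, [], [0, 5]), (4, [], [4])]),
  (64, 0, 1, [(0, [1], [1, 5]), (0, [0], [3, 4]), (1, [], [2, 5]), (4, [], [0])]),
  (-64, 0, 1, [(0, [1], [1, 5]), (0, [0], [3, 4]), (1, [], [0, 5]), (4, [], [2])]),
  (-128, 0, 1, [(0, [1], [2, 5]), (0, [0], [0, 1]), (1, [], [4, 5]), (4, [], [3])]),
  (-64, 0, 1, [(0, [1], [2, 5]), (0, [0], [0, 1]), (1, [], [3, 5]), (4, [], [4])]),
  (128, 0, 1, [(0, [1], [2, 5]), (0, [0], [0, 3]), (1, [], [4, 5]), (4, [], [1])]),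
  (64, 0, 1, [(0, [1], [2, 5]), (0, [0], [0, 3]), (1, [], [1, 5]), (4, [], [4])]),
  (64, 0, 1, [(0, [1], [2, 5]), (0, [0], [1, 4]), (1, [], [3, 5]), (4, [], [0])]),
  (128, 0, 1, [(0, [1], [2, 5]), (0, [0], [1, 4]), (1, [], [0, 5]), (4, [], [3])]),
  (-64, 0, 1, [(0, [1], [2, 5]), (0, [0], [3, 4]), (1, [], [1, 5]), (4, [], [0])]),
  (-128, 0, 1, [(0, [1], [2, 5]), (0, [0], [3, 4]), (1, [], [0, 5]), (4, [], [1])]),
  (-64, 0, 1, [(0, [1], [3, 5]), (0, [0], [0, 1]), (1, [], [4, 5]), (4, [], [2])]),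
  (64, 0, 1, [(0, [1], [3, 5]), (0, [0], [0, 1]), (1, [], [2, 5]), (4, [], [4])]),
  (64, 0, 1, [(0, [1], [3, 5]), (0, [0], [1, 2]), (1, [], [4, 5]), (4, [], [0])]),
  (-64, 0, 1, [(0, [1], [3, 5]), (0, [0], [1, 2]), (1, [], [0, 5]), (4, [], [4])]),
  (-64, 0, 1, [(0, [1], [3, 5]), (0, [0], [1, 4]), (1, [], [2, 5]), (4, [], [0])]),
  (64, 0, 1, [(0, [1], [3, 5]), (0, [0], [1, 4]), (1, [], [0, 5]), (4, [], [2])]),
  (64, 0, 1, [(0, [1], [4, 5]), (0, [0], [0, 1]), (1, [], [3, 5]), (4, [], [2])]),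
  (128, 0, 1, [(0, [1], [4, 5]), (0, [0], [0, 1]), (1, [], [2, 5]), (4, [], [3])]),
  (-128, 0, 1, [(0, [1], [4, 5]), (0, [0], [0, 3]), (1, [], [2, 5]), (4, [], [1])]),
  (-64, 0, 1, [(0, [1], [4, 5]), (0, [0], [0, 3]), (1, [], [1, 5]), (4, [], [2])]),
  (-64, 0, 1, [(0, [1], [4, 5]), (0, [0], [1, 2]), (1, [], [3, 5]), (4, [], [0])]),
  (-128, 0, 1, [(0, [1], [4, 5]), (0, [0], [1, 2]), (1, [], [0, 5]), (4, [], [3])]),
  (64, 0, 1, [(0, [1], [4, 5]), (0, [0], [2, 3]), (1, [], [1, 5]), (4, [], [0])]),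
  (128, 0, 1, [(0, [1], [4, 5]), (0, [0], [2, 3]), (1, [], [0, 5]), (4, [], [1])])]

def z63_3 : Cov := [(0, 0, 1, [(0, [0], [0, 5]), (0, [1], [1, 3]), (1, [], [4, 5]), (4, [], [2])]),
  (0, 0, 1, [(0, [0], [0, 5]), (0, [1], [1, 3]), (1, [], [2, 5]), (4, [], [4])]),
  (0, 0, 1, [(0, [0], [0, 5]), (0, [1], [2, 4]), (1, [], [3, 5]), (4, [], [1])]),
  (0, 0, 1, [(0, [0], [0, 5]), (0, [1], [2, 4]), (1, [], [1, 5]), (4, [], [3])]),
  (0, 0, 1, [(0, [0], [1, 5]), (0, [1], [0, 2]), (1, [], [4, 5]), (4, [], [3])]),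
  (0, 0, 1, [(0, [0], [1, 5]), (0, [1], [0, 2]), (1, [], [3, 5]), (4, [], [4])]),
  (0, 0, 1, [(0, [0], [1, 5]), (0, [1], [0, 4]), (1, [], [3, 5]), (4, [], [2])]),
  (0, 0, 1, [(0, [0], [1, 5]), (0, [1], [0, 4]), (1, [], [2, 5]), (4, [], [3])]),
  (0, 0, 1, [(0, [0], [1, 5]), (0, [1], [2, 4]), (1, [], [3, 5]), (4, [], [0])]),
  (0, 0, 1, [(0, [0], [1, 5]), (0, [1], [2, 4]), (1, [], [0, 5]), (4, [], [3])]),
  (0, 0, 1, [(0, [0], [2, 5]), (0, [1], [0, 4]), (1, [], [3, 5]), (4, [], [1])]),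
  (0, 0, 1, [(0, [0], [2, 5]), (0, [1], [0, 4]), (1, [], [1, 5]), (4, [], [3])]),
  (0, 0, 1, [(0, [0], [2, 5]), (0, [1], [1, 3]), (1, [], [4, 5]), (4, [], [0])]),
  (0, 0, 1, [(0, [0], [2, 5]), (0, [1], [1, 3]), (1, [], [0, 5]), (4, [], [4])]),
  (0, 0, 1, [(0, [0], [3, 5]), (0, [1], [0, 2]), (1, [], [4, 5]), (4, [], [1])]),
  (0, 0, 1, [(0, [0], [3, 5]), (0, [1], [0, 2]), (1, [], [1, 5]), (4, [], [4])]),
  (0, 0, 1, [(0, [0], [3, 5]), (0, [1], [0, 4]), (1, [], [2, 5]), (4, [], [1])]),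
  (0, 0, 1, [(0, [0], [3, 5]), (0, [1], [0, 4]), (1, [], [1, 5]), (4, [], [2])]),
  (0, 0, 1, [(0, [0], [3, 5]), (0, [1], [2, 4]), (1, [], [1, 5]), (4, [], [0])]),
  (0, 0, 1, [(0, [0], [3, 5]), (0, [1], [2, 4]), (1, [], [0, 5]), (4, [], [1])]),
  (0, 0, 1, [(0, [0], [4, 5]), (0, [1], [0, 2]), (1, [], [3, 5]), (4, [], [1])]),
  (0, 0, 1, [(0, [0], [4, 5]), (0, [1], [0, 2]), (1, [], [1, 5]), (4, [], [3])]),
  (0, 0, 1, [(0, [0], [4, 5]), (0, [1], [1, 3]), (1, [], [2, 5]), (4, [], [0])]),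
  (0, 0, 1, [(0, [0], [4, 5]), (0, [1], [1, 3]), (1, [], [0, 5]), (4, [], [2])]),
  (0, 0, 1, [(0, [1], [0, 5]), (0, [0], [1, 3]), (1, [], [4, 5]), (4, [], [2])]),
  (0, 0, 1, [(0, [1], [0, 5]), (0, [0], [1, 3]), (1, [], [2, 5]), (4, [], [4])]),
  (0, 0, 1, [(0, [1], [0, 5]), (0, [0], [2, 4]), (1, [], [3, 5]), (4, [], [1])]),
  (0, 0, 1, [(0, [1], [0, 5]), (0, [0], [2, 4]), (1, [], [1, 5]), (4, [], [3])]),
  (0, 0, 1, [(0, [1], [1, 5]), (0, [0], [0, 2]), (1, [], [4, 5]), (4, [], [3])]),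
  (0, 0, 1, [(0, [1], [1, 5]), (0, [0], [0, 2]), (1, [], [3, 5]), (4, [], [4])]),
  (0, 0, 1, [(0, [1], [1, 5]), (0, [0], [0, 4]), (1, [], [3, 5]), (4, [], [2])]),
  (0, 0, 1, [(0, [1], [1, 5]), (0, [0], [0, 4]), (1, [], [2, 5]), (4, [], [3])]),
  (0, 0, 1, [(0, [1], [1, 5]), (0, [0], [2, 4]), (1, [], [3, 5]), (4, [], [0])]),
  (0, 0, 1, [(0, [1], [1, 5]), (0, [0], [2, 4]), (1, [], [0, 5]), (4, [], [3])]),
  (0, 0, 1, [(0, [1], [2, 5]), (0, [0], [0, 4]), (1, [], [3, 5]), (4, [], [1])]),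
  (0, 0, 1, [(0, [1], [2, 5]), (0, [0], [0, 4]), (1, [], [1, 5]), (4, [], [3])]),
  (0, 0, 1, [(0, [1], [2, 5]), (0, [0], [1, 3]), (1, [], [4, 5]), (4, [], [0])]),
  (0, 0, 1, [(0, [1], [2, 5]), (0, [0], [1, 3]), (1, [], [0, 5]), (4, [], [4])]),
  (0, 0, 1, [(0, [1], [3, 5]), (0, [0], [0, 2]), (1, [], [4, 5]), (4, [], [1])]),
  (0, 0, 1, [(0, [1], [3, 5]), (0, [0], [0, 2]), (1, [], [1, 5]), (4, [], [4])]),
  (0, 0, 1, [(0, [1], [3, 5]), (0, [0], [0, 4]), (1, [], [2, 5]), (4, [], [1])]),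
  (0, 0, 1, [(0, [1], [3, 5]), (0, [0], [0, 4]), (1, [], [1, 5]), (4, [], [2])]),
  (0, 0, 1, [(0, [1], [3, 5]), (0, [0], [2, 4]), (1, [], [1, 5]), (4, [], [0])]),
  (0, 0, 1, [(0, [1], [3, 5]), (0, [0], [2, 4]), (1, [], [0, 5]), (4, [], [1])]),
  (0, 0, 1, [(0, [1], [4, 5]), (0, [0], [0, 2]), (1, [], [3, 5]), (4, [], [1])]),
  (0, 0, 1, [(0, [1], [4, 5]), (0, [0], [0, 2]), (1, [], [1, 5]), (4, [], [3])]),
  (0, 0, 1, [(0, [1], [4, 5]), (0, [0], [1, 3]), (1, [], [2, 5]), (4, [], [0])]),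
  (0, 0, 1, [(0, [1], [4, 5]), (0, [0], [1, 3]), (1, [], [0, 5]), (4, [], [2])])]

def w63_3 : List (List Wit) := [[(0, 0, 0, 0, 0), (1, 0, 0, 0, 0), (72, 0, 0, 0, 0), (73, 0, 0, 0, 0), (2, 0, 0, 0, 0), (3, 0, 0, 0, 0), (0, 0, 0, 0, 0), (1, 0, 0, 0, 0), (4, 0, 0, 0, 0), (5, 0, 0, 0, 0), (74, 0, 0, 0, 0), (75, 0, 0, 0, 0), (72, 0, 0, 0, 0), (73, 0, 0, 0, 0), (4, 0, 0, 0, 0), (5, 0, 0, 0, 0), (6, 0, 0, 0, 0), (7, 0, 0, 0, 0), (2, 0, 0, 0, 0), (3, 0, 0, 0, 0), (74, 0, 0, 0, 0), (75, 0, 0, 0, 0), (6, 0, 0, 0, 0), (7, 0, 0, 0, 0), (76, 0, 0, 0, 0), (77, 0, 0, 0, 0), (8, 0, 0, 0, 0), (9, 0, 0, 0, 0), (78, 0, 0, 0, 0), (79, 0, 0, 0, 0), (76, 0, 0, 0, 0), (77, 0, 0, 0, 0), (10, 0, 0, 0, 0), (11, 0, 0, 0, 0), (80, 0, 0, 0, 0), (81, 0, 0, 0, 0), (8, 0, 0, 0, 0), (9, 0, 0, 0, 0), (10, 0, 0, 0, 0), (11, 0, 0, 0, 0), (12, 0, 0, 0, 0), (13, 0, 0, 0, 0), (78, 0, 0, 0, 0),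 (79, 0, 0, 0, 0), (80, 0, 0, 0, 0), (81, 0, 0, 0, 0), (12, 0, 0, 0, 0), (13, 0, 0, 0, 0), (14, 0, 0, 0, 0), (15, 0, 0, 0, 0), (16, 0, 0, 0, 0), (17, 0, 0, 0, 0), (82, 0, 0, 0, 0), (83, 0, 0, 0, 0), (14, 0, 0, 0, 0), (15, 0, 0, 0, 0), (84, 0, 0, 0, 0), (85, 0, 0, 0, 0), (18, 0, 0, 0, 0), (19, 0, 0, 0, 0), (16, 0, 0, 0, 0), (17, 0, 0, 0, 0), (84, 0, 0, 0, 0), (85, 0, 0, 0, 0), (20, 0, 0, 0, 0), (21, 0, 0, 0, 0), (82, 0, 0, 0, 0), (83, 0, 0, 0, 0), (18, 0, 0, 0, 0), (19, 0, 0, 0, 0), (20, 0, 0, 0, 0), (21, 0, 0, 0, 0), (22, 0, 0, 0, 0), (23, 0, 0, 0, 0), (86, 0, 0, 0, 0), (87, 0, 0, 0, 0), (88, 0, 0, 0, 0), (89, 0, 0, 0, 0), (22, 0, 0, 0, 0), (23, 0, 0, 0, 0), (24, 0, 0, 0, 0), (25, 0, 0, 0, 0), (26, 0, 0, 0, 0), (27, 0, 0, 0, 0), (86, 0, 0, 0, 0), (87, 0, 0, 0, 0), (24, 0, 0, 0, 0), (25, 0, 0, 0, 0), (90, 0, 0, 0, 0), (91, 0, 0, 0, 0), (88, 0, 0, 0, 0), (89,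 0, 0, 0, 0), (26, 0, 0, 0, 0), (27, 0, 0, 0, 0), (90, 0, 0, 0, 0), (91, 0, 0, 0, 0), (28, 0, 0, 0, 0), (29, 0, 0, 0, 0), (92, 0, 0, 0, 0), (93, 0, 0, 0, 0), (30, 0, 0, 0, 0), (31, 0, 0, 0, 0), (28, 0, 0, 0, 0), (29, 0, 0, 0, 0), (32, 0, 0, 0, 0), (33, 0, 0, 0, 0), (94, 0, 0, 0, 0), (95, 0, 0, 0, 0), (92, 0, 0, 0, 0), (93, 0, 0, 0, 0), (32, 0, 0, 0, 0), (33, 0, 0, 0, 0), (34, 0, 0, 0, 0), (35, 0, 0, 0, 0), (30, 0, 0, 0, 0), (31, 0, 0, 0, 0), (94, 0, 0, 0, 0), (95, 0, 0, 0, 0), (34, 0, 0, 0, 0), (35, 0, 0, 0, 0)],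
  [(36, 0, 0, 0, 0), (37, 0, 0, 0, 0), (96, 0, 0, 0, 0), (97, 0, 0, 0, 0), (38, 0, 0, 0, 0), (39, 0, 0, 0, 0), (36, 0, 0, 0, 0), (37, 0, 0, 0, 0), (40, 0, 0, 0, 0), (41, 0, 0, 0, 0), (98, 0, 0, 0, 0), (99, 0, 0, 0, 0), (96, 0, 0, 0, 0), (97, 0, 0, 0, 0), (40, 0, 0, 0, 0), (41, 0, 0, 0, 0), (42, 0, 0, 0, 0), (43, 0, 0, 0, 0), (38, 0, 0, 0, 0), (39, 0, 0, 0, 0), (98, 0, 0, 0, 0), (99, 0, 0, 0, 0), (42, 0, 0, 0, 0), (43, 0, 0, 0, 0), (100, 0, 0, 0, 0), (101, 0, 0, 0, 0), (44, 0, 0, 0, 0), (45, 0, 0, 0, 0), (102, 0, 0, 0, 0), (103, 0, 0, 0, 0), (100, 0, 0, 0, 0), (101, 0, 0, 0, 0), (46, 0, 0, 0, 0), (47, 0, 0, 0, 0), (104, 0, 0, 0, 0), (105, 0, 0, 0, 0), (44, 0, 0, 0, 0), (45, 0, 0, 0, 0), (46, 0, 0, 0, 0), (47, 0, 0, 0, 0), (48, 0, 0, 0, 0), (49, 0, 0, 0, 0), (102, 0, 0, 0, 0), (103, 0, 0, 0, 0), (104, 0, 0, 0, 0), (105, 0, 0, 0, 0), (48, 0, 0, 0, 0), (49, 0,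 0, 0, 0), (50, 0, 0, 0, 0), (51, 0, 0, 0, 0), (52, 0, 0, 0, 0), (53, 0, 0, 0, 0), (106, 0, 0, 0, 0), (107, 0, 0, 0, 0), (50, 0, 0, 0, 0), (51, 0, 0, 0, 0), (108, 0, 0, 0, 0), (109, 0, 0, 0, 0), (54, 0, 0, 0, 0), (55, 0, 0, 0, 0), (52, 0, 0, 0, 0), (53, 0, 0, 0, 0), (108, 0, 0, 0, 0), (109, 0, 0, 0, 0), (56, 0, 0, 0, 0), (57, 0, 0, 0, 0), (106, 0, 0, 0, 0), (107, 0, 0, 0, 0), (54, 0, 0, 0, 0), (55, 0, 0, 0, 0), (56, 0, 0, 0, 0), (57, 0, 0, 0, 0), (58, 0, 0, 0, 0), (59, 0, 0, 0, 0), (110, 0, 0, 0, 0), (111, 0, 0, 0, 0), (112, 0, 0, 0, 0), (113, 0, 0, 0, 0), (58, 0, 0, 0, 0), (59, 0, 0, 0, 0), (60, 0, 0, 0, 0), (61, 0, 0, 0, 0), (62, 0, 0, 0, 0), (63, 0, 0, 0, 0), (110, 0, 0, 0, 0), (111, 0, 0, 0, 0), (60, 0, 0, 0, 0), (61, 0, 0, 0, 0), (114, 0, 0, 0, 0), (115, 0, 0, 0, 0), (112, 0, 0, 0, 0), (113, 0, 0, 0, 0), (62, 0, 0, 0, 0), (63, 0, 0, 0, 0), (114, 0, 0,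 0, 0), (115, 0, 0, 0, 0), (64, 0, 0, 0, 0), (65, 0, 0, 0, 0), (116, 0, 0, 0, 0), (117, 0, 0, 0, 0), (66, 0, 0, 0, 0), (67, 0, 0, 0, 0), (64, 0, 0, 0, 0), (65, 0, 0, 0, 0), (68, 0, 0, 0, 0), (69, 0, 0, 0, 0), (118, 0, 0, 0, 0), (119, 0, 0, 0, 0), (116, 0, 0, 0, 0), (117, 0, 0, 0, 0), (68, 0, 0, 0, 0), (69, 0, 0, 0, 0), (70, 0, 0, 0, 0), (71, 0, 0, 0, 0), (66, 0, 0, 0, 0), (67, 0, 0, 0, 0), (118, 0, 0, 0, 0), (119, 0, 0, 0, 0), (70, 0, 0, 0, 0), (71, 0, 0, 0, 0)]]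

def m63_4 : Base := (0, 1, [(0, [0], [0, 1]), (0, [1], [2, 3]), (1, [], [4, 5]), (4, [], [5])])

def l63_4 : Cov := [(384, 0, 1, [(0, [0], [0, 1]), (0, [1], [2, 3]), (1, [], [4, 5]), (4, [], [5])]),
  (-384, 0, 1, [(0, [0], [0, 1]), (0, [1], [3, 4]), (1, [], [2, 5]), (4, [], [5])]),
  (-384, 0, 1, [(0, [0], [0, 3]), (0, [1], [1, 2]), (1, [], [4, 5]), (4, [], [5])]),
  (384, 0, 1, [(0, [0], [0, 3]), (0, [1], [1, 4]), (1, [], [2, 5]), (4, [], [5])]),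
  (-384, 0, 1, [(0, [0], [1, 2]), (0, [1], [0, 3]), (1, [], [4, 5]), (4, [], [5])]),
  (384, 0, 1, [(0, [0], [1, 2]), (0, [1], [3, 4]), (1, [], [0, 5]), (4, [], [5])]),
  (384, 0, 1, [(0, [0], [1, 4]), (0, [1], [0, 3]), (1, [], [2, 5]), (4, [], [5])]),
  (-384, 0, 1, [(0, [0], [1, 4]), (0, [1], [2, 3]), (1, [], [0, 5]), (4, [], [5])]),
  (384, 0, 1, [(0, [0], [2, 3]), (0, [1], [0, 1]), (1, [], [4, 5]), (4, [], [5])]),
  (-384, 0, 1, [(0, [0], [2, 3]), (0, [1], [1, 4]), (1, [], [0, 5]), (4, [], [5])]),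
  (-384, 0, 1, [(0, [0], [3, 4]), (0, [1], [0, 1]), (1, [], [2, 5]), (4, [], [5])]),
  (384, 0, 1, [(0, [0], [3, 4]), (0, [1], [1, 2]), (1, [], [0, 5]), (4, [], [5])])]

def z63_4 : Cov := [(0, 0, 1, [(0, [0], [0, 1]), (0, [1], [2, 4]), (1, [], [3, 5]), (4, [], [5])]),
  (0, 0, 1, [(0, [0], [0, 2]), (0, [1], [1, 3]), (1, [], [4, 5]), (4, [], [5])]),
  (0, 0, 1, [(0, [0], [0, 2]), (0, [1], [1, 4]), (1, [], [3, 5]), (4, [], [5])]),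
  (0, 0, 1, [(0, [0], [0, 2]), (0, [1], [3, 4]), (1, [], [1, 5]), (4, [], [5])]),
  (0, 0, 1, [(0, [0], [0, 3]), (0, [1], [2, 4]), (1, [], [1, 5]), (4, [], [5])]),
  (0, 0, 1, [(0, [0], [0, 4]), (0, [1], [1, 2]), (1, [], [3, 5]), (4, [], [5])]),
  (0, 0, 1, [(0, [0], [0, 4]), (0, [1], [1, 3]), (1, [], [2, 5]), (4, [], [5])]),
  (0, 0, 1, [(0, [0], [0, 4]), (0, [1], [2, 3]), (1, [], [1, 5]), (4, [], [5])]),
  (0, 0, 1, [(0, [0], [1, 2]), (0, [1], [0, 4]), (1, [], [3, 5]), (4, [], [5])]),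
  (0, 0, 1, [(0, [0], [1, 3]), (0, [1], [0, 2]), (1, [], [4, 5]), (4, [], [5])]),
  (0, 0, 1, [(0, [0], [1, 3]), (0, [1], [0, 4]), (1, [], [2, 5]), (4, [], [5])]),
  (0, 0, 1, [(0, [0], [1, 3]), (0, [1], [2, 4]), (1, [], [0, 5]), (4, [], [5])]),
  (0, 0, 1, [(0, [0], [1, 4]), (0, [1], [0, 2]), (1, [], [3, 5]), (4, [], [5])]),
  (0, 0, 1, [(0, [0], [2, 3]), (0, [1], [0, 4]), (1, [], [1, 5]), (4, [], [5])]),
  (0, 0, 1, [(0, [0], [2, 4]), (0, [1], [0, 1]), (1, [], [3, 5]), (4, [], [5])]),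
  (0, 0, 1, [(0, [0], [2, 4]), (0, [1], [0, 3]), (1, [], [1, 5]), (4, [], [5])]),
  (0, 0, 1, [(0, [0], [2, 4]), (0, [1], [1, 3]), (1, [], [0, 5]), (4, [], [5])]),
  (0, 0, 1, [(0, [0], [3, 4]), (0, [1], [0, 2]), (1, [], [1, 5]), (4, [], [5])])]

def w63_4 : List (List Wit) := [[(0, 0, 0, 0, 0), (12, 0, 0, 0, 0), (0, 0, 0, 0, 0), (1, 0, 0, 0, 0), (12, 0, 0, 0, 0), (1, 0, 0, 0, 0), (13, 0, 0, 0, 0), (14, 0, 0, 0, 0), (13, 0, 0, 0, 0), (15, 0, 0, 0, 0), (14, 0, 0, 0, 0), (15, 0, 0, 0, 0), (2, 0, 0, 0, 0), (3, 0, 0, 0, 0), (2, 0, 0, 0, 0), (16, 0, 0, 0, 0), (3, 0, 0, 0, 0), (16, 0, 0, 0, 0), (17, 0, 0, 0, 0), (18, 0, 0, 0, 0), (17, 0, 0, 0, 0), (19, 0, 0, 0, 0), (18, 0, 0, 0, 0), (19, 0, 0, 0, 0), (0, 0, 0, 0, 0), (12, 0, 0, 0, 0), (0, 0, 0, 0, 0), (1, 0, 0, 0, 0), (12, 0, 0, 0, 0), (1, 0, 0, 0, 0), (4, 0, 0, 0, 0), (20, 0, 0, 0, 0), (4, 0, 0, 0, 0), (5, 0,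 0, 0, 0), (20, 0, 0, 0, 0), (5, 0, 0, 0, 0), (21, 0, 0, 0, 0), (22, 0, 0, 0, 0), (21, 0, 0, 0, 0), (23, 0, 0, 0, 0), (22, 0, 0, 0, 0), (23, 0, 0, 0, 0), (24, 0, 0, 0, 0), (6, 0, 0, 0, 0), (24, 0, 0, 0, 0), (7, 0, 0, 0, 0), (6, 0, 0, 0, 0), (7, 0, 0, 0, 0), (13, 0, 0, 0, 0), (14, 0, 0, 0, 0), (13, 0, 0, 0, 0), (15, 0, 0, 0, 0), (14, 0, 0, 0, 0), (15, 0, 0, 0, 0), (4, 0, 0, 0, 0), (20, 0, 0, 0, 0), (4, 0, 0, 0, 0), (5, 0, 0, 0, 0), (20, 0, 0, 0, 0), (5, 0, 0, 0, 0), (8, 0, 0, 0, 0), (25, 0, 0, 0, 0), (8, 0, 0, 0, 0), (9, 0, 0, 0, 0), (25, 0, 0, 0, 0), (9, 0, 0, 0, 0), (26, 0, 0, 0, 0), (27, 0, 0, 0, 0), (26, 0, 0, 0, 0), (28, 0, 0, 0, 0), (27, 0, 0, 0, 0), (28, 0, 0, 0, 0), (2, 0, 0, 0, 0), (3, 0, 0, 0, 0), (2, 0, 0, 0, 0), (16, 0, 0, 0, 0), (3, 0, 0, 0, 0), (16, 0, 0, 0, 0), (21, 0, 0, 0, 0), (22, 0, 0, 0, 0), (21, 0, 0, 0, 0), (23, 0, 0, 0, 0), (22, 0, 0,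 0, 0), (23, 0, 0, 0, 0), (8, 0, 0, 0, 0), (25, 0, 0, 0, 0), (8, 0, 0, 0, 0), (9, 0, 0, 0, 0), (25, 0, 0, 0, 0), (9, 0, 0, 0, 0), (10, 0, 0, 0, 0), (29, 0, 0, 0, 0), (10, 0, 0, 0, 0), (11, 0, 0, 0, 0), (29, 0, 0, 0, 0), (11, 0, 0, 0, 0), (17, 0, 0, 0, 0), (18, 0, 0, 0, 0), (17, 0, 0, 0, 0), (19, 0, 0, 0, 0), (18, 0, 0, 0, 0), (19, 0, 0, 0, 0), (24, 0, 0, 0, 0), (6, 0, 0, 0, 0), (24, 0, 0, 0, 0), (7, 0, 0, 0, 0), (6, 0, 0, 0, 0), (7, 0, 0, 0, 0), (26, 0, 0, 0, 0), (27, 0, 0, 0, 0), (26, 0, 0, 0, 0), (28, 0, 0, 0, 0), (27, 0, 0, 0, 0), (28, 0, 0, 0, 0), (10, 0, 0, 0, 0), (29, 0, 0, 0, 0), (10, 0, 0, 0, 0), (11, 0, 0, 0, 0), (29, 0, 0, 0, 0), (11, 0, 0, 0, 0)],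
  [(8, 0, 0, 0, 0), (26, 0, 0, 0, 0), (8, 0, 0, 0, 0), (10, 0, 0, 0, 0), (26, 0, 0, 0, 0), (10, 0, 0, 0, 0), (21, 0, 0, 0, 0), (24, 0, 0, 0, 0), (21, 0, 0, 0, 0), (29, 0, 0, 0, 0), (24, 0, 0, 0, 0), (29, 0, 0, 0, 0), (4, 0, 0, 0, 0), (6, 0, 0, 0, 0), (4, 0, 0, 0, 0), (27, 0, 0, 0, 0), (6, 0, 0, 0, 0), (27, 0, 0, 0, 0), (20, 0, 0, 0, 0), (22, 0, 0, 0, 0), (20, 0, 0, 0, 0), (25, 0, 0, 0, 0), (22, 0, 0, 0, 0), (25, 0, 0, 0, 0), (8, 0, 0, 0, 0), (26, 0, 0, 0, 0), (8, 0, 0, 0, 0), (10, 0, 0, 0, 0), (26, 0, 0, 0, 0), (10, 0, 0, 0, 0), (2, 0, 0, 0, 0), (17, 0, 0, 0, 0), (2, 0, 0, 0, 0), (11, 0, 0, 0, 0), (17, 0, 0, 0, 0), (11, 0, 0, 0, 0), (13, 0, 0, 0, 0), (18, 0, 0, 0, 0), (13, 0, 0, 0, 0), (28, 0, 0, 0, 0), (18, 0, 0, 0, 0), (28, 0, 0, 0, 0), (14, 0, 0, 0, 0), (3, 0, 0, 0, 0), (14, 0, 0, 0, 0), (9, 0, 0, 0, 0), (3, 0, 0, 0, 0), (9, 0, 0, 0, 0), (21, 0, 0, 0,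 0), (24, 0, 0, 0, 0), (21, 0, 0, 0, 0), (29, 0, 0, 0, 0), (24, 0, 0, 0, 0), (29, 0, 0, 0, 0), (2, 0, 0, 0, 0), (17, 0, 0, 0, 0), (2, 0, 0, 0, 0), (11, 0, 0, 0, 0), (17, 0, 0, 0, 0), (11, 0, 0, 0, 0), (0, 0, 0, 0, 0), (19, 0, 0, 0, 0), (0, 0, 0, 0, 0), (7, 0, 0, 0, 0), (19, 0, 0, 0, 0), (7, 0, 0, 0, 0), (12, 0, 0, 0, 0), (16, 0, 0, 0, 0), (12, 0, 0, 0, 0), (23, 0, 0, 0, 0), (16, 0, 0, 0, 0), (23, 0, 0, 0, 0), (4, 0, 0, 0, 0), (6, 0, 0, 0, 0), (4, 0, 0, 0, 0), (27, 0, 0, 0, 0), (6, 0, 0, 0, 0), (27, 0, 0, 0, 0), (13, 0, 0, 0, 0), (18, 0, 0, 0, 0), (13, 0, 0, 0, 0), (28, 0, 0, 0, 0), (18, 0, 0, 0, 0), (28, 0, 0, 0, 0), (0, 0, 0, 0, 0), (19, 0, 0, 0, 0), (0, 0, 0, 0, 0), (7, 0, 0, 0, 0), (19, 0, 0, 0, 0), (7, 0, 0, 0, 0), (1, 0, 0, 0, 0), (15, 0, 0, 0, 0), (1, 0, 0, 0, 0), (5, 0, 0, 0, 0), (15, 0, 0, 0, 0), (5, 0, 0, 0, 0), (20, 0, 0, 0, 0), (22, 0, 0, 0, 0),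 (20, 0, 0, 0, 0), (25, 0, 0, 0, 0), (22, 0, 0, 0, 0), (25, 0, 0, 0, 0), (14, 0, 0, 0, 0), (3, 0, 0, 0, 0), (14, 0, 0, 0, 0), (9, 0, 0, 0, 0), (3, 0, 0, 0, 0), (9, 0, 0, 0, 0), (12, 0, 0, 0, 0), (16, 0, 0, 0, 0), (12, 0, 0, 0, 0), (23, 0, 0, 0, 0), (16, 0, 0, 0, 0), (23, 0, 0, 0, 0), (1, 0, 0, 0, 0), (15, 0, 0, 0, 0), (1, 0, 0, 0, 0), (5, 0, 0, 0, 0), (15, 0, 0, 0, 0), (5, 0, 0, 0, 0)]]

def m63_5 : Base := (0, 0, [(0, [0], [0, 1]), (0, [1], [2, 3]), (4, [], [4])])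

def l63_5 : Cov := [(384, 0, 0, [(0, [0], [0, 1]), (0, [1], [2, 3]), (4, [], [4])]),
  (-384, 0, 0, [(0, [0], [0, 1]), (0, [1], [3, 4]), (4, [], [2])]),
  (-384, 0, 0, [(0, [0], [0, 3]), (0, [1], [1, 2]), (4, [], [4])]),
  (384, 0, 0, [(0, [0], [0, 3]), (0, [1], [1, 4]), (4, [], [2])]),
  (-384, 0, 0, [(0, [0], [1, 2]), (0, [1], [0, 3]), (4, [], [4])]),
  (384, 0, 0, [(0, [0], [1, 2]), (0, [1], [3, 4]), (4, [], [0])]),
  (384, 0, 0, [(0, [0], [1, 4]), (0, [1], [0, 3]), (4, [], [2])]),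
  (-384, 0, 0, [(0, [0], [1, 4]), (0, [1], [2, 3]), (4, [], [0])]),
  (384, 0, 0, [(0, [0], [2, 3]), (0, [1], [0, 1]), (4, [], [4])]),
  (-384, 0, 0, [(0, [0], [2, 3]), (0, [1], [1, 4]), (4, [], [0])]),
  (-384, 0, 0, [(0, [0], [3, 4]), (0, [1], [0, 1]), (4, [], [2])]),
  (384, 0, 0, [(0, [0], [3, 4]), (0, [1], [1, 2]), (4, [], [0])])]

def z63_5 : Cov := [(0, 0, 0, [(0, [0], [0, 1]), (0, [1], [2, 4]), (4, [], [3])]),
  (0, 0, 0, [(0, [0], [0, 2]), (0, [1], [1, 3]), (4, [], [4])]),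
  (0, 0, 0, [(0, [0], [0, 2]), (0, [1], [1, 4]), (4, [], [3])]),
  (0, 0, 0, [(0, [0], [0, 2]), (0, [1], [3, 4]), (4, [], [1])]),
  (0, 0, 0, [(0, [0], [0, 3]), (0, [1], [2, 4]), (4, [], [1])]),
  (0, 0, 0, [(0, [0], [0, 4]), (0, [1], [1, 2]), (4, [], [3])]),
  (0, 0, 0, [(0, [0], [0, 4]), (0, [1], [1, 3]), (4, [], [2])]),
  (0, 0, 0, [(0, [0], [0, 4]), (0, [1], [2, 3]), (4, [], [1])]),
  (0, 0, 0, [(0, [0], [1, 2]), (0, [1], [0, 4]), (4, [], [3])]),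
  (0, 0, 0, [(0, [0], [1, 3]), (0, [1], [0, 2]), (4, [], [4])]),
  (0, 0, 0, [(0, [0], [1, 3]), (0, [1], [0, 4]), (4, [], [2])]),
  (0, 0, 0, [(0, [0], [1, 3]), (0, [1], [2, 4]), (4, [], [0])]),
  (0, 0, 0, [(0, [0], [1, 4]), (0, [1], [0, 2]), (4, [], [3])]),
  (0, 0, 0, [(0, [0], [2, 3]), (0, [1], [0, 4]), (4, [], [1])]),
  (0, 0, 0, [(0, [0], [2, 4]), (0, [1], [0, 1]), (4, [], [3])]),
  (0, 0, 0, [(0, [0], [2, 4]), (0, [1], [0, 3]), (4, [], [1])]),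
  (0, 0, 0, [(0, [0], [2, 4]), (0, [1], [1, 3]), (4, [], [0])]),
  (0, 0, 0, [(0, [0], [3, 4]), (0, [1], [0, 2]), (4, [], [1])])]

def w63_5 : List (List Wit) := [[(0, 0, 0, 0, 0), (12, 0, 0, 0, 0), (0, 0, 0, 0, 0), (1, 0, 0, 0, 0), (12, 0, 0, 0, 0), (1, 0, 0, 0, 0), (13, 0, 0, 0, 0), (14, 0, 0, 0, 0), (13, 0, 0, 0, 0), (15, 0, 0, 0, 0), (14, 0, 0, 0, 0), (15, 0, 0, 0, 0), (2, 0, 0, 0, 0), (3, 0, 0, 0, 0), (2, 0, 0, 0, 0), (16, 0, 0, 0, 0), (3, 0, 0, 0, 0), (16, 0, 0, 0, 0), (17, 0, 0, 0, 0), (18, 0, 0, 0, 0), (17, 0, 0, 0, 0), (19, 0, 0, 0, 0), (18, 0, 0, 0, 0), (19, 0, 0, 0, 0), (0, 0, 0, 0, 0), (12, 0, 0, 0, 0), (0, 0, 0, 0, 0), (1, 0, 0, 0, 0), (12, 0, 0, 0, 0), (1, 0, 0, 0, 0), (4, 0, 0, 0, 0), (20, 0, 0, 0, 0), (4, 0, 0, 0, 0), (5, 0, 0, 0, 0), (20, 0, 0, 0, 0), (5, 0, 0, 0, 0), (21, 0, 0, 0, 0), (22, 0, 0, 0, 0), (21, 0, 0, 0, 0), (23, 0, 0, 0, 0),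 (22, 0, 0, 0, 0), (23, 0, 0, 0, 0), (24, 0, 0, 0, 0), (6, 0, 0, 0, 0), (24, 0, 0, 0, 0), (7, 0, 0, 0, 0), (6, 0, 0, 0, 0), (7, 0, 0, 0, 0), (13, 0, 0, 0, 0), (14, 0, 0, 0, 0), (13, 0, 0, 0, 0), (15, 0, 0, 0, 0), (14, 0, 0, 0, 0), (15, 0, 0, 0, 0), (4, 0, 0, 0, 0), (20, 0, 0, 0, 0), (4, 0, 0, 0, 0), (5, 0, 0, 0, 0), (20, 0, 0, 0, 0), (5, 0, 0, 0, 0), (8, 0, 0, 0, 0), (25, 0, 0, 0, 0), (8, 0, 0, 0, 0), (9, 0, 0, 0, 0), (25, 0, 0, 0, 0), (9, 0, 0, 0, 0), (26, 0, 0, 0, 0), (27, 0, 0, 0, 0), (26, 0, 0, 0, 0), (28, 0, 0, 0, 0), (27, 0, 0, 0, 0), (28, 0, 0, 0, 0), (2, 0, 0, 0, 0), (3, 0, 0, 0, 0), (2, 0, 0, 0, 0), (16, 0, 0, 0, 0), (3, 0, 0, 0, 0), (16, 0, 0, 0, 0), (21, 0, 0, 0, 0), (22, 0, 0, 0, 0), (21, 0, 0, 0, 0), (23, 0, 0, 0, 0), (22, 0, 0, 0, 0), (23, 0, 0, 0, 0), (8, 0, 0, 0, 0), (25, 0, 0, 0, 0), (8, 0, 0, 0, 0), (9, 0, 0, 0, 0), (25, 0, 0, 0, 0), (9,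 0, 0, 0, 0), (10, 0, 0, 0, 0), (29, 0, 0, 0, 0), (10, 0, 0, 0, 0), (11, 0, 0, 0, 0), (29, 0, 0, 0, 0), (11, 0, 0, 0, 0), (17, 0, 0, 0, 0), (18, 0, 0, 0, 0), (17, 0, 0, 0, 0), (19, 0, 0, 0, 0), (18, 0, 0, 0, 0), (19, 0, 0, 0, 0), (24, 0, 0, 0, 0), (6, 0, 0, 0, 0), (24, 0, 0, 0, 0), (7, 0, 0, 0, 0), (6, 0, 0, 0, 0), (7, 0, 0, 0, 0), (26, 0, 0, 0, 0), (27, 0, 0, 0, 0), (26, 0, 0, 0, 0), (28, 0, 0, 0, 0), (27, 0, 0, 0, 0), (28, 0, 0, 0, 0), (10, 0, 0, 0, 0), (29, 0, 0, 0, 0), (10, 0, 0, 0, 0), (11, 0, 0, 0, 0), (29, 0, 0, 0, 0), (11, 0, 0, 0, 0)],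
  [(8, 0, 0, 0, 0), (26, 0, 0, 0, 0), (8, 0, 0, 0, 0), (10, 0, 0, 0, 0), (26, 0, 0, 0, 0), (10, 0, 0, 0, 0), (21, 0, 0, 0, 0), (24, 0, 0, 0, 0), (21, 0, 0, 0, 0), (29, 0, 0, 0, 0), (24, 0, 0, 0, 0), (29, 0, 0, 0, 0), (4, 0, 0, 0, 0), (6, 0, 0, 0, 0), (4, 0, 0, 0, 0), (27, 0, 0, 0, 0), (6, 0, 0, 0, 0), (27, 0, 0, 0, 0), (20, 0, 0, 0, 0), (22, 0, 0, 0, 0), (20, 0, 0, 0, 0), (25, 0, 0, 0, 0), (22, 0, 0, 0, 0), (25, 0, 0, 0, 0), (8, 0, 0, 0, 0), (26, 0, 0, 0, 0), (8, 0, 0, 0, 0), (10, 0, 0, 0, 0), (26, 0, 0, 0, 0), (10, 0, 0, 0, 0), (2, 0, 0, 0, 0), (17, 0, 0, 0, 0), (2, 0, 0, 0, 0), (11, 0, 0, 0, 0), (17, 0, 0, 0, 0), (11, 0, 0, 0, 0), (13, 0, 0, 0, 0), (18, 0, 0, 0, 0), (13, 0, 0, 0, 0), (28, 0, 0, 0, 0), (18, 0, 0, 0, 0), (28, 0, 0, 0, 0), (14, 0, 0, 0, 0), (3, 0, 0, 0, 0), (14, 0, 0, 0, 0), (9, 0, 0, 0, 0), (3, 0, 0, 0, 0), (9, 0, 0, 0, 0), (21, 0, 0, 0,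 0), (24, 0, 0, 0, 0), (21, 0, 0, 0, 0), (29, 0, 0, 0, 0), (24, 0, 0, 0, 0), (29, 0, 0, 0, 0), (2, 0, 0, 0, 0), (17, 0, 0, 0, 0), (2, 0, 0, 0, 0), (11, 0, 0, 0, 0), (17, 0, 0, 0, 0), (11, 0, 0, 0, 0), (0, 0, 0, 0, 0), (19, 0, 0, 0, 0), (0, 0, 0, 0, 0), (7, 0, 0, 0, 0), (19, 0, 0, 0, 0), (7, 0, 0, 0, 0), (12, 0, 0, 0, 0), (16, 0, 0, 0, 0), (12, 0, 0, 0, 0), (23, 0, 0, 0, 0), (16, 0, 0, 0, 0), (23, 0, 0, 0, 0), (4, 0, 0, 0, 0), (6, 0, 0, 0, 0), (4, 0, 0, 0, 0), (27, 0, 0, 0, 0), (6, 0, 0, 0, 0), (27, 0, 0, 0, 0), (13, 0, 0, 0, 0), (18, 0, 0, 0, 0), (13, 0, 0, 0, 0), (28, 0, 0, 0, 0), (18, 0, 0, 0, 0), (28, 0, 0, 0, 0), (0, 0, 0, 0, 0), (19, 0, 0, 0, 0), (0, 0, 0, 0, 0), (7, 0, 0, 0, 0), (19, 0, 0, 0, 0), (7, 0, 0, 0, 0), (1, 0, 0, 0, 0), (15, 0, 0, 0, 0), (1, 0, 0, 0, 0), (5, 0, 0, 0, 0), (15, 0, 0, 0, 0), (5, 0, 0, 0, 0), (20, 0, 0, 0, 0), (22, 0, 0, 0, 0),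 (20, 0, 0, 0, 0), (25, 0, 0, 0, 0), (22, 0, 0, 0, 0), (25, 0, 0, 0, 0), (14, 0, 0, 0, 0), (3, 0, 0, 0, 0), (14, 0, 0, 0, 0), (9, 0, 0, 0, 0), (3, 0, 0, 0, 0), (9, 0, 0, 0, 0), (12, 0, 0, 0, 0), (16, 0, 0, 0, 0), (12, 0, 0, 0, 0), (23, 0, 0, 0, 0), (16, 0, 0, 0, 0), (23, 0, 0, 0, 0), (1, 0, 0, 0, 0), (15, 0, 0, 0, 0), (1, 0, 0, 0, 0), (5, 0, 0, 0, 0), (15, 0, 0, 0, 0), (5, 0, 0, 0, 0)]]

theorem tr63 : trK keys lk63 kl63 = true := by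
  decide +kernel

theorem x63_0 : expB 2 5 dg11 dg8 m63_0 (l63_0 ++ z63_0) w63_0 = true := by
  decide +kernel

theorem x63_1 : expB 2 5 dg11 dg8 m63_1 (l63_1 ++ z63_1) w63_1 = true := by
  decide +kernel

theorem x63_2 : expB 2 5 dg11 dg8 m63_2 (l63_2 ++ z63_2) w63_2 = true := by
  decide +kernel

theorem x63_3 : expB 2 5 dg11 dg8 m63_3 (l63_3 ++ z63_3) w63_3 = true := by
  decide +kernel

theorem x63_4 : expB 2 5 dg11 dg8 m63_4 (l63_4 ++ z63_4) w63_4 = true := by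
  decide +kernel

theorem x63_5 : expB 2 5 dg11 dg8 m63_5 (l63_5 ++ z63_5) w63_5 = true := by
  decide +kernel

theorem t63_0_0 : chkS lk63 2 5 [(1, m63_0)] l63_0
  [(82, 16, 16, 34891056, 52696656), (83, 16, 16, 34887216, 36968016), (72, 16, 16, 34887216, 36968016), (74, 16, 16, 34887216, 36968016), (123, 16, 16, 34891056, 52696656), (124, 16, 16, 34887216, 36968016), (118, 1, 1, 50618901, 50618901), (48, 16, 16, 33969201, 70391301), (48, 1, 1, 2184756, 36705606), (13, 1, 1, 34825476, 52446801), (72, 1, 1, 34891011, 52692561), (61, 1, 1, 35017731, 70387281), (136, 16, 16, 34956096, 54601296), (112, 16, 16, 33968961, 70329861), (118, 16, 16, 50603601, 34890501), (119, 16, 16, 50734161, 68313861), (136, 16, 16, 34944576, 37828176), (112, 16, 16, 33961281, 69285381), (112, 1, 1, 2180661, 33756486), (110, 16, 16, 33896001, 37828101), (61, 1, 1, 19092996, 36717921),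 (60, 1, 1, 34891011, 52692561), (112, 16, 16, 2180691, 34800966), (108, 16, 16, 33773121, 36783621)]
  [(13, -192), (48, 384), (60, -192), (61, 384), (72, -384), (74, 192), (82, 192), (83, -192), (108, 192), (110, 192), (112, -768), (118, -384), (119, 192), (123, 192), (124, -192), (136, 384)] = true := by
  decide +kernel

theorem t63_0_1 : chkS lk63 2 5 [(1, m63_0)] l63_1
  [(73, 16, 16, 34891056, 52696656), (75, 16, 16, 34891056, 52696656), (39, 1, 1, 69297411, 52823361), (39, 1, 1, 69293571, 37094721), (67, 16, 16, 34891056, 52696656), (59, 16, 16, 35017776, 70391376), (71, 16, 16, 35017776, 70391376), (57, 16, 16, 34948656, 37951056), (118, 16, 16, 34887216, 36968016), (119, 16, 16, 34887216, 36968016), (114, 16, 16, 34891056, 52696656), (12, 1, 1, 35017731, 70387281), (117, 16, 16, 35017776, 70391376), (46, 16, 16, 33900081, 37950981), (29, 1, 1, 85156866,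 56770641), (31, 1, 1, 85156866, 56770641), (115, 1, 1, 85206531, 40108881), (47, 1, 1, 67511571, 69600021), (38, 1, 1, 86074371, 56755521), (36, 1, 1, 86074371, 56755521), (105, 1, 1, 100869396, 102777621), (106, 16, 16, 50745921, 70345221), (29, 1, 1, 85149186, 40058961), (31, 1, 1, 85149186, 40058961), (68, 1, 1, 101995011, 104071761), (58, 1, 1, 68571651, 70648401), (38, 1, 1, 86066691, 40043841), (36, 1, 1, 86066691, 40043841), (30, 1, 1, 68498946, 38154321), (30, 1, 1, 68510466, 54927441), (116, 1, 1, 85337091, 73532241), (46, 1, 1, 67446291, 38142741), (70, 1, 1, 85344771, 73597521), (57, 1, 1, 68510211, 54919761), (9, 16, 16, 50619681, 52715781), (103, 16, 16, 33776961, 52512261), (118, 16, 16, 85221936, 56889936), (119, 16, 16, 85344816, 73601616), (48, 16, 16, 70345986, 52842561), (48, 16, 16, 70342146, 37113921), (114, 1, 1, 34891011, 52692561),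 (12, 16, 16, 35017776, 70391376), (117, 1, 1, 35017731, 70387281), (46, 1, 1, 33900051, 37946901), (73, 16, 16, 85206576, 40112976), (75, 16, 16, 85337136, 73536336), (67, 1, 1, 34891011, 52692561), (59, 1, 1, 35017731, 70387281), (71, 1, 1, 35017731, 70387281), (57, 1, 1, 34948611, 37946961), (29, 16, 16, 85156896, 56770896), (31, 16, 16, 85156896, 56770896), (68, 16, 16, 101983536, 103027536), (58, 16, 16, 68560176, 69604176), (47, 16, 16, 87122946, 56774721), (45, 16, 16, 84042801, 56759301), (106, 1, 1, 50745876, 70279701), (105, 16, 16, 100869441, 102843141), (29, 16, 16, 85149216, 40059216), (31, 16, 16, 85149216, 40059216), (115, 16, 16, 85221936, 56889936), (47, 16, 16, 67523121, 70652421), (47, 16, 16, 87115266, 40063041), (45, 16, 16, 84035121, 40047621), (30, 16, 16, 68498976, 38154576), (30, 16, 16, 68510496, 54927696), (70, 16, 16, 85337136,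 73536336), (57, 16, 16, 68494896, 38146896), (116, 16, 16, 85344816, 73601616), (46, 16, 16, 67461681, 54923781), (103, 1, 1, 33776916, 52446741), (9, 1, 1, 50619666, 52715541)]
  [(9, 192), (29, -384), (30, 384), (36, 192), (39, -192), (45, 192), (46, -192), (48, -192), (57, -192), (67, -192), (68, 192), (70, -192), (71, 192), (73, 192), (103, 192), (105, -192), (106, -192), (114, -192), (115, 192), (116, -192), (117, 192), (118, 192), (119, 0)] = true := by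
  decide +kernel

theorem t63_0_2 : chkS lk63 2 5 [(1, m63_0)] l63_2
  [(39, 16, 16, 19289136, 70391136), (11, 16, 16, 67331361, 52838661), (10, 1, 1, 84292116, 73413141), (37, 16, 16, 19220016, 37950816), (30, 1, 1, 85156866, 56770641), (116, 1, 1, 104072481, 103043331), (37, 1, 1, 86074371, 56755521), (127, 16, 16, 20336706, 70340706), (35, 1, 1, 68379906, 52838481), (120, 1, 1, 85206531, 40108881), (76, 1, 1, 85221891, 56885841), (125, 16, 16, 19948866, 52514916), (48, 1, 1, 20337696, 70406496), (13, 16, 16, 67331361, 52838661), (12, 16, 16, 50746401, 70410501), (46, 1, 1, 20268576, 37966176), (30, 16, 16, 85156896, 56770896), (69, 16, 16, 101983536, 103027536), (46, 16, 16, 87122946, 56774721), (127, 1, 1, 20336676, 70275426), (35, 16, 16, 68379936, 52838736), (76, 16, 16, 85206576, 40112976), (120, 16, 16, 85221936, 56889936), (125, 1, 1, 19948836, 52449636)]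
  [(10, -192), (11, -192), (12, -192), (13, -192), (30, -384), (35, 384), (37, 384), (39, 192), (46, 384), (48, 192), (69, 192), (76, -384), (116, 192), (120, -384), (125, 384), (127, -384)] = true := by
  decide +kernel

theorem t63_0_3 : chkS lk63 2 5 [(1, m63_0)] l63_3
  [(75, 16, 16, 34891056, 52696656), (73, 16, 16, 34891056, 52696656), (39, 1, 1, 69293571, 37094721), (39, 1, 1, 69297411, 52823361), (59, 16, 16, 35017776, 70391376), (67, 16, 16, 34891056, 52696656), (57, 16, 16, 34948656, 37951056), (71, 16, 16, 35017776, 70391376), (119, 16, 16, 34887216, 36968016), (118, 16, 16, 34887216, 36968016), (12, 1, 1, 35017731, 70387281), (114, 16, 16, 34891056, 52696656), (46, 16, 16, 33900081, 37950981), (117, 16, 16, 35017776, 70391376), (31, 1, 1, 85156866, 56770641), (29, 1, 1, 85156866, 56770641), (47, 1, 1, 67511571, 69600021), (115, 1, 1, 85206531,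 40108881), (36, 1, 1, 86074371, 56755521), (38, 1, 1, 86074371, 56755521), (106, 16, 16, 50745921, 70345221), (105, 1, 1, 100869396, 102777621), (31, 1, 1, 85149186, 40058961), (29, 1, 1, 85149186, 40058961), (58, 1, 1, 68571651, 70648401), (68, 1, 1, 101995011, 104071761), (36, 1, 1, 86066691, 40043841), (38, 1, 1, 86066691, 40043841), (30, 1, 1, 68510466, 54927441), (30, 1, 1, 68498946, 38154321), (46, 1, 1, 67446291, 38142741), (116, 1, 1, 85337091, 73532241), (57, 1, 1, 68510211, 54919761), (70, 1, 1, 85344771, 73597521), (103, 16, 16, 33776961, 52512261), (9, 16, 16, 50619681, 52715781), (119, 16, 16, 85344816, 73601616), (118, 16, 16, 85221936, 56889936), (48, 16, 16, 70342146, 37113921), (48, 16, 16, 70345986, 52842561), (12, 16, 16, 35017776, 70391376), (114, 1, 1, 34891011, 52692561), (46, 1, 1, 33900051, 37946901), (117, 1, 1, 35017731, 70387281),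 (75, 16, 16, 85337136, 73536336), (73, 16, 16, 85206576, 40112976), (59, 1, 1, 35017731, 70387281), (67, 1, 1, 34891011, 52692561), (57, 1, 1, 34948611, 37946961), (71, 1, 1, 35017731, 70387281), (31, 16, 16, 85156896, 56770896), (29, 16, 16, 85156896, 56770896), (58, 16, 16, 68560176, 69604176), (68, 16, 16, 101983536, 103027536), (45, 16, 16, 84042801, 56759301), (47, 16, 16, 87122946, 56774721), (105, 16, 16, 100869441, 102843141), (106, 1, 1, 50745876, 70279701), (31, 16, 16, 85149216, 40059216), (29, 16, 16, 85149216, 40059216), (47, 16, 16, 67523121, 70652421), (115, 16, 16, 85221936, 56889936), (45, 16, 16, 84035121, 40047621), (47, 16, 16, 87115266, 40063041), (30, 16, 16, 68510496, 54927696), (30, 16, 16, 68498976, 38154576), (57, 16, 16, 68494896, 38146896), (70, 16, 16, 85337136, 73536336), (46, 16, 16, 67461681, 54923781), (116, 16, 16, 85344816,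 73601616), (9, 1, 1, 50619666, 52715541), (103, 1, 1, 33776916, 52446741)]
  [(9, 192), (12, -192), (30, 384), (31, -384), (38, 192), (39, -192), (47, 384), (48, -192), (58, 192), (59, -192), (70, -192), (75, 192), (103, 192), (105, -192), (106, -192), (116, -192), (119, 192)] = true := by
  decide +kernel

theorem t63_0_4 : chkS lk63 2 5 [(1, m63_0)] l63_4
  [(32, 16, 16, 101930016, 103956816), (30, 16, 16, 51725856, 37970256), (78, 16, 16, 101983536, 103027536), (39, 1, 1, 102843651, 102958401), (121, 16, 16, 101995056, 104075856), (116, 16, 16, 70668306, 70668306), (48, 16, 16, 103892226, 102977601), (12, 1, 1, 100881426, 103956501), (32, 1, 1, 101929986, 103956561), (10, 16, 16, 101003841, 104935941), (30, 1, 1, 51725826, 37970001), (69, 1, 1, 68571651, 70648401)]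
  [(10, -384), (12, -384), (30, -768), (32, 768), (39, 384), (48, 384), (69, 384), (78, -384), (116, 384), (121, -384)] = true := by
  decide +kernel

theorem t63_0_5 : chkS lk63 2 5 [(1, m63_0)] l63_5
  [(33, 16, 16, 1266720, 3293520), (34, 16, 16, 1393440, 4399440), (80, 16, 16, 1320240, 2364240), (40, 1, 1, 2180355, 2295105), (122, 16, 16, 1331760, 3412560), (20, 1, 1, 1393155, 4391505), (24, 1, 1, 275730, 2371605), (19, 1, 1, 1201155, 3277905), (33, 1, 1, 1266690, 3293265), (16, 16, 16, 340545, 4272645), (34, 1, 1, 1393410, 4399185), (21, 16, 16, 206145, 2179845)]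
  [(16, -384), (19, -384), (20, 384), (21, 384), (24, 384), (33, 768), (34, -768), (40, 384), (80, -384), (122, -384)] = true := by
  decide +kernel

theorem t63_1_1 : chkS lk63 2 5 [(1, m63_1)] l63_1
  [(63, 1, 1, 87318786, 56905761), (64, 1, 1, 87441666, 73617441), (91, 1, 1, 72442371, 55968321), (90, 1, 1, 88236291, 56951841), (134, 16, 16, 33907521, 54601221), (91, 1, 1, 88481811, 73728786), (132, 16, 16, 33969201, 70391301), (132, 16, 16, 33968961, 70329861), (136, 16, 16, 50677281, 37970181), (112, 1, 1, 72757506, 72757281), (68, 1, 1, 55844886, 5530386), (69, 1, 1, 55844886, 5530386), (105, 1, 1, 72556806, 5653281), (127, 16, 16, 33969201, 70391301), (72, 1, 1, 55861506, 55861281), (74, 1, 1, 55861506, 55861281), (136, 16, 16, 50676321, 21193221), (112, 1, 1, 72757266, 72757266), (38, 1, 1, 54616581, 50684481), (37, 1, 1, 54616581, 50684481), (105,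 1, 1, 72556566, 5653266), (127, 16, 16, 33968961, 70329861), (68, 1, 1, 87319041, 56906241), (38, 1, 1, 70668546, 70668321), (62, 1, 1, 87318786, 56905761), (43, 1, 1, 69619971, 70649121), (88, 1, 1, 88236291, 56951841), (87, 1, 1, 87122436, 56644161), (69, 1, 1, 87441921, 73617921), (37, 1, 1, 70607106, 54939681), (127, 1, 1, 88482051, 73728801), (127, 1, 1, 88481811, 73728786), (43, 1, 1, 37970181, 50677281), (42, 1, 1, 69558531, 54920481), (87, 1, 1, 55844886, 5530386), (132, 1, 1, 87433476, 73421601), (96, 1, 1, 55861506, 55861281), (97, 1, 1, 55861506, 55861281), (111, 16, 16, 87122946, 56774721), (107, 1, 1, 55861506, 55861281), (137, 16, 16, 67449441, 21377541), (111, 1, 1, 55984146, 72572946), (129, 1, 1, 38162691, 70583841), (129, 1, 1, 38162451, 70583826), (135, 16, 16, 101000241, 104993541), (92, 1, 1, 38162691, 70583841), (68, 1, 1, 40120581,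 84162081), (70, 1, 1, 39072006, 5518881), (87, 1, 1, 40120581, 84162081), (133, 1, 1, 37113876, 70276626), (73, 1, 1, 39084051, 55838226), (75, 1, 1, 39084051, 55838226), (135, 16, 16, 101000001, 104932101), (92, 1, 1, 38162451, 70583826), (58, 1, 1, 37969941, 50677266), (57, 1, 1, 37969941, 50677266), (87, 1, 1, 40120341, 84162066), (133, 1, 1, 37114116, 70276641), (68, 16, 16, 103043856, 104080656), (58, 16, 16, 69620496, 70657296), (95, 1, 1, 55845126, 5530401), (51, 16, 16, 69619971, 70649121), (104, 1, 1, 55845126, 5530401), (105, 16, 16, 102847491, 103941441), (70, 16, 16, 86393616, 73606416), (57, 16, 16, 69559056, 54928656), (133, 16, 16, 84288561, 73536261), (133, 16, 16, 84288321, 73474821), (51, 1, 1, 37970181, 50677281), (50, 1, 1, 37970181, 50677281), (105, 1, 1, 40058901, 84100626), (129, 16, 16, 84288321, 73474821)]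
  [(37, 256), (38, 128), (42, -128), (43, -128), (50, -128), (51, -128), (57, 256), (58, 128), (62, 64), (63, 128), (64, 64), (68, -256), (69, 128), (70, 128), (72, -128), (73, -128), (74, -64), (75, -64), (87, 128), (88, -64), (90, -128), (91, -128), (95, 64), (96, 128), (97, 64), (104, -64), (105, 128), (107, -128), (111, -128), (127, -384), (129, 320), (132, 320), (133, -384), (134, -128), (135, 192), (136, 192), (137, -128)] = true := by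
  decide +kernel

theorem t63_1_2 : chkS lk63 2 5 [(1, m63_1)] l63_2
  [(44, 1, 1, 54939906, 70606881), (89, 16, 16, 19162416, 52696416), (91, 16, 16, 19284816, 68363616), (8, 1, 1, 105972516, 105914691), (61, 1, 1, 54939906, 70606881), (112, 16, 16, 20336706, 70340706), (36, 1, 1, 55665156, 55599681), (106, 16, 16, 19288131, 70321506), (76, 1, 1, 87319041, 56906241), (125, 16, 16, 18892371, 34800996), (41, 1, 1, 55730436, 55600161), (131, 1, 1, 73605381, 84296481), (55, 1, 1, 54939906, 70606881), (110, 1, 1, 21324576, 54862176), (111, 1, 1, 21385776, 70586976), (9, 16, 16, 34879056, 34879056), (39, 1, 1, 21385251, 70582626), (92, 1, 1, 21385251, 70582626), (36, 1, 1, 22241316, 55591266), (87, 1, 1, 23343141, 84160866), (76, 16, 16, 86270736, 56894736), (130, 16, 16, 67315281, 35013381), (49, 1, 1, 55730436, 55600161), (126, 1, 1, 23085861, 84091236)]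
  [(8, 192), (9, 192), (36, 384), (39, -192), (41, -192), (44, 192), (49, -192), (55, 192), (61, -192), (76, 384), (87, -192), (89, -192), (91, -192), (92, 192), (106, -192), (110, -192), (111, -192), (112, 192), (125, -192), (126, 192), (130, -192), (131, 192)] = true := by
  decide +kernel

theorem t63_1_3 : chkS lk63 2 5 [(1, m63_1)] l63_3
  [(64, 1, 1, 87441666, 73617441), (63, 1, 1, 87318786, 56905761), (90, 1, 1, 88236291, 56951841), (91, 1, 1, 72442371, 55968321), (91, 1, 1, 88481811, 73728786), (134, 16, 16, 33907521, 54601221), (132, 16, 16, 33968961, 70329861), (132, 16, 16, 33969201, 70391301), (112, 1, 1, 72757506, 72757281), (136, 16, 16, 50677281, 37970181), (69, 1, 1, 55844886, 5530386), (68, 1, 1, 55844886, 5530386), (127, 16, 16, 33969201, 70391301), (105, 1, 1, 72556806, 5653281), (74, 1, 1, 55861506, 55861281), (72, 1, 1, 55861506, 55861281),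 (112, 1, 1, 72757266, 72757266), (136, 16, 16, 50676321, 21193221), (37, 1, 1, 54616581, 50684481), (38, 1, 1, 54616581, 50684481), (127, 16, 16, 33968961, 70329861), (105, 1, 1, 72556566, 5653266), (38, 1, 1, 70668546, 70668321), (68, 1, 1, 87319041, 56906241), (43, 1, 1, 69619971, 70649121), (62, 1, 1, 87318786, 56905761), (87, 1, 1, 87122436, 56644161), (88, 1, 1, 88236291, 56951841), (37, 1, 1, 70607106, 54939681), (69, 1, 1, 87441921, 73617921), (127, 1, 1, 88481811, 73728786), (127, 1, 1, 88482051, 73728801), (42, 1, 1, 69558531, 54920481), (43, 1, 1, 37970181, 50677281), (132, 1, 1, 87433476, 73421601), (87, 1, 1, 55844886, 5530386), (97, 1, 1, 55861506, 55861281), (96, 1, 1, 55861506, 55861281), (107, 1, 1, 55861506, 55861281), (111, 16, 16, 87122946, 56774721), (111, 1, 1, 55984146, 72572946), (137, 16, 16, 67449441, 21377541), (129, 1, 1, 38162451,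 70583826), (129, 1, 1, 38162691, 70583841), (92, 1, 1, 38162691, 70583841), (135, 16, 16, 101000241, 104993541), (70, 1, 1, 39072006, 5518881), (68, 1, 1, 40120581, 84162081), (133, 1, 1, 37113876, 70276626), (87, 1, 1, 40120581, 84162081), (75, 1, 1, 39084051, 55838226), (73, 1, 1, 39084051, 55838226), (92, 1, 1, 38162451, 70583826), (135, 16, 16, 101000001, 104932101), (57, 1, 1, 37969941, 50677266), (58, 1, 1, 37969941, 50677266), (133, 1, 1, 37114116, 70276641), (87, 1, 1, 40120341, 84162066), (58, 16, 16, 69620496, 70657296), (68, 16, 16, 103043856, 104080656), (51, 16, 16, 69619971, 70649121), (95, 1, 1, 55845126, 5530401), (105, 16, 16, 102847491, 103941441), (104, 1, 1, 55845126, 5530401), (57, 16, 16, 69559056, 54928656), (70, 16, 16, 86393616, 73606416), (133, 16, 16, 84288321, 73474821), (133, 16, 16, 84288561, 73536261), (50, 1, 1, 37970181, 50677281),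 (51, 1, 1, 37970181, 50677281), (129, 16, 16, 84288321, 73474821), (105, 1, 1, 40058901, 84100626)]
  [(37, 128), (38, 64), (42, -64), (43, -64), (50, -64), (51, -64), (57, 128), (58, 64), (62, -64), (63, 64), (64, 128), (68, 256), (69, 64), (70, 64), (72, -64), (73, -64), (74, -128), (75, -128), (87, -128), (88, 64), (90, -64), (91, -256), (92, 192), (95, -64), (96, 64), (97, 128), (104, 64), (105, -128), (107, -64), (111, -256), (112, 192), (127, -192), (129, 256), (132, 256), (133, -192), (134, -64), (137, -64)] = true := by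
  decide +kernel

theorem t63_1_4 : chkS lk63 2 5 [(1, m63_1)] l63_4
  [(78, 1, 1, 106176531, 106169106), (69, 16, 16, 69620496, 70657296), (65, 1, 1, 104091906, 104091681), (92, 1, 1, 104944131, 104137281), (98, 1, 1, 106180866, 106180641), (51, 1, 1, 106111236, 105923361), (112, 16, 16, 103896066, 103960641), (58, 1, 1, 106110996, 105923346), (77, 1, 1, 106180866, 106180641), (38, 1, 1, 105984516, 105919041), (70, 1, 1, 70668801, 70668801), (43, 1, 1, 106111236, 105923361)]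
  [(38, -384), (43, 384), (51, 384), (58, -384), (65, -384), (69, -384), (70, -384), (77, 384), (78, 384), (92, 384), (98, -384), (112, 384)] = true := by
  decide +kernel

theorem t63_1_5 : chkS lk63 2 5 [(1, m63_1)] l63_5
  [(80, 1, 1, 5513235, 5505810), (21, 1, 1, 5447940, 5260065), (66, 1, 1, 3428610, 3428385), (94, 1, 1, 4346115, 3474465), (99, 1, 1, 5517570, 5517345), (54, 1, 1, 4399365, 344865), (113, 1, 1, 5517570, 5517345), (21, 16, 16, 2184195, 3278145), (79, 1, 1, 5517570, 5517345), (25, 16, 16, 2428995, 4261170), (25, 16, 16, 1254720, 2179920), (18, 1, 1, 2441475, 4392225)]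
  [(18, 384), (21, -768), (25, -768), (54, 384), (66, -384), (79, 384), (80, 384), (94, 384), (99, -384), (113, 384)] = true := by
  decide +kernel

theorem t63_2_2 : chkS lk63 2 5 [(1, m63_2)] l63_2
  [(4, 1, 1, 70668546, 70668321), (90, 16, 16, 34956336, 54662736), (90, 16, 16, 35017536, 70329936), (86, 16, 16, 35017776, 70391376), (60, 1, 1, 54939906, 70606881), (108, 16, 16, 51790416, 68379216), (57, 1, 1, 55730436, 55600161), (103, 16, 16, 20336706, 70340706), (57, 1, 1, 87319041, 56906241), (103, 16, 16, 51529296, 34825296), (42, 1, 1, 87318786, 56905761), (132, 1, 1, 73605381, 84296481), (6, 16, 16, 35017776, 70391376), (107, 16, 16, 68379936, 52838736), (107, 16, 16, 68563536, 68563536), (3, 16, 16, 35017776, 70391376), (11, 1, 1, 70668546, 70668321), (89, 16, 16, 68559696, 68559696), (37, 1, 1, 22241316, 55591266), (8, 16, 16, 101917776, 101860176),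 (37, 16, 16, 85222176, 56893776), (8, 1, 1, 23089956, 87040356), (50, 1, 1, 55730436, 55600161), (128, 16, 16, 102048576, 104932176)]
  [(3, 192), (4, 192), (6, 192), (8, -384), (11, -192), (37, 384), (42, -192), (50, -192), (57, 384), (60, -192), (86, 192), (89, 192), (90, -384), (103, -384), (107, -384), (108, 192), (128, 192), (132, 192)] = true := by
  decide +kernel

theorem t63_2_3 : chkS lk63 2 5 [(1, m63_2)] l63_3
  [(44, 1, 1, 70607106, 54939681), (44, 1, 1, 70668546, 70668321), (89, 16, 16, 34956336, 54662736), (91, 16, 16, 34956336, 54662736), (89, 16, 16, 35017536, 70329936), (91, 16, 16, 35017536, 70329936), (8, 1, 1, 90382356, 90194706), (8, 1, 1, 90382596, 90194721), (110, 16, 16, 51791136, 69427536), (112, 16, 16, 51791136, 69427536), (76, 1, 1, 55975956, 72377106), (70, 1, 1, 56893461, 84173586), (125, 16, 16, 35017776, 70391376), (9, 16,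 16, 21385731, 70582881), (61, 1, 1, 70607361, 54940161), (61, 1, 1, 70668801, 70668801), (110, 16, 16, 51790416, 68379216), (112, 16, 16, 51790416, 68379216), (76, 1, 1, 55730436, 55600161), (70, 1, 1, 56770821, 84108321), (125, 16, 16, 35017536, 70329936), (9, 16, 16, 21385251, 70582626), (36, 1, 1, 87441666, 73617441), (58, 1, 1, 87441921, 73617921), (41, 1, 1, 87441666, 73617441), (43, 1, 1, 87441666, 73617441), (131, 1, 1, 88236051, 56951826), (87, 1, 1, 105009411, 104137761), (36, 1, 1, 87318786, 56905761), (58, 1, 1, 87319041, 56906241), (106, 16, 16, 34817376, 19088976), (106, 16, 16, 34817616, 34817616), (41, 1, 1, 87318786, 56905761), (43, 1, 1, 87318786, 56905761), (131, 1, 1, 88482051, 73728801), (87, 1, 1, 105193491, 105186066), (55, 16, 16, 70607106, 54939681), (55, 16, 16, 70668546, 70668321), (110, 16, 16, 68379936, 52838736), (111, 16, 16,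 68379936, 52838736), (110, 16, 16, 68563536, 68563536), (111, 16, 16, 68563536, 68563536), (9, 1, 1, 19288896, 70329696), (9, 1, 1, 19289136, 70391136), (89, 16, 16, 85337136, 73536336), (92, 16, 16, 85337136, 73536336), (76, 1, 1, 39203076, 72365601), (69, 1, 1, 40120581, 84162081), (130, 1, 1, 38162451, 70583826), (8, 16, 16, 85141056, 39928656), (39, 16, 16, 68510496, 54927696), (39, 16, 16, 68571936, 70656336), (89, 16, 16, 85336896, 73474896), (92, 16, 16, 85336896, 73474896), (76, 1, 1, 39018516, 55592466), (69, 1, 1, 40058901, 84100626), (130, 1, 1, 38162691, 70583841), (8, 16, 16, 85140576, 23216976), (36, 16, 16, 85345056, 73605456), (38, 16, 16, 85345056, 73605456), (49, 16, 16, 87441666, 73617441), (51, 16, 16, 87441666, 73617441), (126, 16, 16, 101864496, 103945296), (106, 1, 1, 40120581, 84162081), (36, 16, 16, 85222176, 56893776), (38, 16, 16,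 85222176, 56893776), (87, 16, 16, 102048576, 104932176), (87, 16, 16, 102048816, 104993616), (49, 16, 16, 87318786, 56905761), (51, 16, 16, 87318786, 56905761), (126, 16, 16, 102048576, 104932176), (106, 1, 1, 40058901, 84100626)]
  [(38, 192), (39, -192), (43, -192), (44, 192), (51, -192), (55, 192), (58, 192), (61, -192), (69, 192), (70, 192), (91, -192), (111, -192), (131, 0)] = true := by
  decide +kernel

theorem t63_2_4 : chkS lk63 2 5 [(1, m63_2)] l63_4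
  [(39, 16, 16, 102056736, 105062736), (10, 1, 1, 106111236, 105923361), (44, 1, 1, 104153346, 105074721), (91, 16, 16, 101983536, 103027536), (55, 16, 16, 104153346, 105074721), (52, 16, 16, 104153346, 105074721), (109, 16, 16, 101926176, 102973776), (71, 1, 1, 73605141, 84296466), (61, 1, 1, 104153601, 105075201), (71, 1, 1, 73543941, 84292641), (59, 1, 1, 104153601, 105075201), (5, 1, 1, 104153346, 105074721)]
  [(5, 384), (10, -384), (39, 384), (44, -384), (52, 384), (55, -384), (59, -384), (61, 384), (71, -768), (91, 384), (109, 384)] = true := by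
  decide +kernel

theorem t63_2_5 : chkS lk63 2 5 [(1, m63_2)] l63_5
  [(40, 16, 16, 1393440, 4399440), (16, 1, 1, 5447940, 5260065), (14, 1, 1, 4534530, 4534305), (93, 16, 16, 1385520, 4330320), (56, 16, 16, 3490050, 4411425), (53, 16, 16, 3490050, 4411425), (22, 16, 16, 4273410, 2437185), (81, 1, 1, 5447700, 5260050), (26, 16, 16, 3477570, 4280370), (81, 1, 1, 5386500, 5256225), (16, 16, 16, 1254720, 2179920), (17, 1, 1, 3490050, 4411425)]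
  [(14, -384), (16, -768), (17, 384), (22, 384), (26, 384), (40, 384), (53, 384), (56, -384), (81, -768), (93, 384)] = true := by
  decide +kernel

theorem t63_3_3 : chkS lk63 2 5 [(1, m63_3)] l63_3
  [(63, 1, 1, 87441666, 73617441), (64, 1, 1, 87318786, 56905761), (91, 1, 1, 88236291, 56951841), (134, 16, 16, 33969201, 70391301), (90, 1, 1, 88481811, 73728786), (91, 1, 1, 72749091, 72745266), (132, 16, 16, 33907521, 54601221), (132, 16, 16, 33907761, 54662661), (108, 1, 1, 72757506, 72757281), (112, 1, 1, 88478496, 73736496), (37, 1, 1, 54923301, 67461426), (38, 1, 1, 54923301, 67461426), (127, 16, 16, 33907761, 54662661), (105, 1, 1, 72495366, 5649441), (72, 1, 1, 55984386, 72572961), (74, 1, 1, 55984386, 72572961), (108, 1, 1, 72757266, 72757266), (112, 1, 1, 88478256, 73732656), (69, 1, 1, 55722246, 5465121), (68, 1, 1, 55722246, 5465121), (127, 16, 16,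 33907521, 54601221), (105, 1, 1, 72495126, 5649426), (37, 1, 1, 70668546, 70668321), (69, 1, 1, 87319041, 56906241), (42, 1, 1, 69619971, 70649121), (43, 1, 1, 38154501, 67450401), (132, 1, 1, 87187476, 56644626), (87, 1, 1, 55722246, 5465121), (38, 1, 1, 70607106, 54939681), (68, 1, 1, 87441921, 73617921), (105, 1, 1, 88478256, 73732656), (105, 1, 1, 88478496, 73736496), (43, 1, 1, 69558531, 54920481), (62, 1, 1, 87441666, 73617441), (87, 1, 1, 87429156, 73421106), (88, 1, 1, 88481811, 73728786), (96, 1, 1, 55984386, 72572961), (97, 1, 1, 55984386, 72572961), (111, 1, 1, 55861506, 55861281), (137, 16, 16, 67327521, 37110021), (107, 1, 1, 55984146, 72572946), (111, 16, 16, 87429186, 73486386), (129, 1, 1, 38101011, 54855186), (129, 1, 1, 38101251, 54855201), (89, 1, 1, 39207171, 72549921), (92, 16, 16, 86381616, 73536816), (57, 1, 1, 38154501, 67450401),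 (58, 1, 1, 38154501, 67450401), (133, 1, 1, 37052436, 54547986), (87, 1, 1, 40059141, 84100641), (73, 1, 1, 39206931, 72549906), (75, 1, 1, 39206931, 72549906), (89, 1, 1, 39206931, 72549906), (92, 16, 16, 86381376, 73475376), (70, 1, 1, 39010326, 5457426), (68, 1, 1, 40058901, 84100626), (133, 1, 1, 37052676, 54548001), (87, 1, 1, 40058901, 84100626), (57, 16, 16, 69620496, 70657296), (70, 16, 16, 86270736, 56894736), (50, 1, 1, 38154501, 67450401), (51, 1, 1, 38154501, 67450401), (129, 16, 16, 84042801, 56759301), (105, 1, 1, 40120581, 84162081), (58, 16, 16, 69559056, 54928656), (68, 16, 16, 103105296, 105063696), (87, 16, 16, 103093056, 104932656), (87, 16, 16, 103093296, 104994096), (51, 16, 16, 69558531, 54920481), (95, 1, 1, 55722246, 5465121), (105, 16, 16, 103092291, 104924466), (104, 1, 1, 55722006, 5465106)]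
  [(37, -128), (38, 128), (42, 64), (43, -128), (50, 64), (51, -128), (57, -128), (58, 128), (62, -128), (63, 128), (64, 64), (68, 512), (69, 128), (70, 128), (72, -128), (73, -128), (74, -64), (75, -64), (87, -256), (88, 128), (89, 192), (90, -128), (91, -128), (95, -128), (96, 128), (97, 64), (104, 128), (105, -256), (107, -128), (108, 192), (111, -128), (129, 128), (132, 128), (134, -128), (137, -128)] = true := by
  decide +kernel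

theorem t63_3_4 : chkS lk63 2 5 [(1, m63_3)] l63_4
  [(39, 1, 1, 105189411, 105185586), (69, 16, 16, 69559056, 54928656), (44, 1, 1, 105197826, 105197601), (91, 16, 16, 103028016, 103028016), (55, 1, 1, 105197826, 105197601), (51, 1, 1, 106049796, 105919521), (111, 1, 1, 105190176, 105193776), (38, 1, 1, 106106916, 105922866), (61, 1, 1, 105197826, 105197601), (58, 1, 1, 106049796, 105919521), (70, 1, 1, 70607361, 54940161), (43, 1, 1, 106049796, 105919521)]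
  [(38, -384), (39, 384), (43, 384), (44, -384), (51, 384), (55, -384), (58, -384), (61, 384), (69, -384), (70, -384), (91, 384), (111, 384)] = true := by
  decide +kernel

theorem t63_3_5 : chkS lk63 2 5 [(1, m63_3)] l63_5
  [(40, 1, 1, 4526115, 4522290), (21, 1, 1, 5386500, 5256225), (14, 1, 1, 3490050, 4411425), (93, 1, 1, 5390595, 5440545), (56, 1, 1, 4534530, 4534305), (54, 1, 1, 4337925, 341025), (23, 16, 16, 1266720, 3293520), (25, 16, 16, 2184195, 3278145), (26, 16, 16, 1389120, 4272720), (21, 16, 16, 2428995, 4261170), (25, 16, 16, 1193280, 2176080), (18, 1, 1, 2380035, 3409185)]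
  [(14, -384), (18, 384), (21, -768), (23, 384), (25, -768), (26, 384), (40, 384), (54, 384), (56, -384), (93, 384)] = true := by
  decide +kernel

theorem t63_4_4 : chkS lk63 2 5 [(1, m63_4)] l63_4
  [(2, 16, 16, 106181136, 106181136), (64, 16, 16, 73736976, 88482576), (83, 16, 16, 105194256, 105194256), (74, 16, 16, 105063696, 103105296), (83, 16, 16, 105198081, 105198081), (75, 1, 1, 104988981, 100996131), (75, 16, 16, 105002241, 103101441), (64, 1, 1, 73732131, 88473906), (100, 16, 16, 105198096, 105198096), (97, 1, 1, 105058341, 101007666), (97, 16, 16, 105063696, 103105296), (74, 1, 1, 105058341, 101007666)]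
  [(2, 384), (64, -768), (74, 768), (75, 768), (83, -768), (97, -768), (100, 384)] = true := by
  decide +kernel

theorem t63_4_5 : chkS lk63 2 5 [(1, m63_4)] l63_5
  [(15, 16, 16, 5517840, 5517840), (14, 16, 16, 5448720, 5391120), (84, 16, 16, 4530960, 4530960), (26, 1, 1, 5317380, 5251905), (84, 16, 16, 4534785, 4534785), (40, 16, 16, 5517825, 5517825), (40, 1, 1, 5505330, 5509155), (14, 1, 1, 5443620, 5259570), (101, 16, 16, 4534800, 4534800), (56, 16, 16, 5509155, 5505330), (56, 1, 1, 5514000, 5514000), (26, 16, 16, 5309475, 5374275)]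
  [(14, -768), (15, 384), (26, 768), (40, 768), (56, -768), (84, -768), (101, 384)] = true := by
  decide +kernel

theorem t63_5_5 : chkS lk63 2 5 [(1, m63_5)] l63_5
  [(27, 16, 16, 274960, 274960), (0, 16, 16, 271120, 271120), (85, 16, 16, 271120, 271120), (28, 1, 1, 196900, 16675), (85, 16, 16, 274945, 274945), (7, 1, 1, 266275, 262450), (7, 16, 16, 271120, 271120), (0, 1, 1, 266275, 262450), (102, 16, 16, 274960, 274960), (1, 16, 16, 148225, 205825), (1, 1, 1, 131395, 66595), (28, 16, 16, 205825, 148225)]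
  [(0, -768), (1, -768), (7, 768), (27, 384), (28, 768), (85, -768), (102, 384)] = true := by
  decide +kernel

section

variable {κ ι : Type*} [Fintype κ] [Fintype ι] [Inhabited κ] [Inhabited ι]

noncomputable def F63_0 (E : Env κ ι) : (Fin 2 → κ) → (Fin 5 → ι) → ℝ := op2 (P11 κ) (P8 ι) (fB E 2 5 m63_0)

noncomputable def F63_1 (E : Env κ ι) : (Fin 2 → κ) → (Fin 5 → ι) → ℝ := op2 (P11 κ) (P8 ι) (fB E 2 5 m63_1)

noncomputable def F63_2 (E : Env κ ι) : (Fin 2 → κ) → (Fin 5 → ι) → ℝ := op2 (P11 κ) (P8 ι) (fB E 2 5 m63_2)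

noncomputable def F63_3 (E : Env κ ι) : (Fin 2 → κ) → (Fin 5 → ι) → ℝ := op2 (P11 κ) (P8 ι) (fB E 2 5 m63_3)

noncomputable def F63_4 (E : Env κ ι) : (Fin 2 → κ) → (Fin 5 → ι) → ℝ := op2 (P11 κ) (P8 ι) (fB E 2 5 m63_4)

noncomputable def F63_5 (E : Env κ ι) : (Fin 2 → κ) → (Fin 5 → ι) → ℝ := op2 (P11 κ) (P8 ι) (fB E 2 5 m63_5)

def r63_0_0 : List (ℕ × ℤ) := [(13, -192), (48, 384), (60, -192), (61, 384), (72, -384), (74, 192), (82, 192), (83, -192), (108, 192), (110, 192), (112, -768), (118, -384), (119, 192), (123, 192), (124, -192), (136, 384)]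

theorem h63_0_0 (E : Env κ ι) : ip (F63_0 E) (F63_0 E) = dotS (ek E lk63) r63_0_0 :=
  op_entryZ E lk63 2 5 _ _ _ _ (pg11 κ) (pg8 ι) m63_0 m63_0 l63_0 z63_0 w63_0 x63_0 (by decide) _ (chkS_sound E lk63 2 5 _ _ _ _ t63_0_0)

def r63_0_1 : List (ℕ × ℤ) := [(9, 192), (29, -384), (30, 384), (36, 192), (39, -192), (45, 192), (46, -192), (48, -192), (57, -192), (67, -192), (68, 192), (70, -192), (71, 192), (73, 192), (103, 192), (105, -192), (106, -192), (114, -192), (115, 192), (116, -192), (117, 192), (118, 192), (119, 0)]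

theorem h63_0_1 (E : Env κ ι) : ip (F63_0 E) (F63_1 E) = dotS (ek E lk63) r63_0_1 :=
  op_entryZ E lk63 2 5 _ _ _ _ (pg11 κ) (pg8 ι) m63_0 m63_1 l63_1 z63_1 w63_1 x63_1 (by decide) _ (chkS_sound E lk63 2 5 _ _ _ _ t63_0_1)

def r63_0_2 : List (ℕ × ℤ) := [(10, -192), (11, -192), (12, -192), (13, -192), (30, -384), (35, 384), (37, 384), (39, 192), (46, 384), (48, 192), (69, 192), (76, -384), (116, 192), (120, -384), (125, 384), (127, -384)]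

theorem h63_0_2 (E : Env κ ι) : ip (F63_0 E) (F63_2 E) = dotS (ek E lk63) r63_0_2 :=
  op_entryZ E lk63 2 5 _ _ _ _ (pg11 κ) (pg8 ι) m63_0 m63_2 l63_2 z63_2 w63_2 x63_2 (by decide) _ (chkS_sound E lk63 2 5 _ _ _ _ t63_0_2)

def r63_0_3 : List (ℕ × ℤ) := [(9, 192), (12, -192), (30, 384), (31, -384), (38, 192), (39, -192), (47, 384), (48, -192), (58, 192), (59, -192), (70, -192), (75, 192), (103, 192), (105, -192), (106, -192), (116, -192), (119, 192)]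

theorem h63_0_3 (E : Env κ ι) : ip (F63_0 E) (F63_3 E) = dotS (ek E lk63) r63_0_3 :=
  op_entryZ E lk63 2 5 _ _ _ _ (pg11 κ) (pg8 ι) m63_0 m63_3 l63_3 z63_3 w63_3 x63_3 (by decide) _ (chkS_sound E lk63 2 5 _ _ _ _ t63_0_3)

def r63_0_4 : List (ℕ × ℤ) := [(10, -384), (12, -384), (30, -768), (32, 768), (39, 384), (48, 384), (69, 384), (78, -384), (116, 384), (121, -384)]

theorem h63_0_4 (E : Env κ ι) : ip (F63_0 E) (F63_4 E) = dotS (ek E lk63) r63_0_4 :=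
  op_entryZ E lk63 2 5 _ _ _ _ (pg11 κ) (pg8 ι) m63_0 m63_4 l63_4 z63_4 w63_4 x63_4 (by decide) _ (chkS_sound E lk63 2 5 _ _ _ _ t63_0_4)

def r63_0_5 : List (ℕ × ℤ) := [(16, -384), (19, -384), (20, 384), (21, 384), (24, 384), (33, 768), (34, -768), (40, 384), (80, -384), (122, -384)]

theorem h63_0_5 (E : Env κ ι) : ip (F63_0 E) (F63_5 E) = dotS (ek E lk63) r63_0_5 :=
  op_entryZ E lk63 2 5 _ _ _ _ (pg11 κ) (pg8 ι) m63_0 m63_5 l63_5 z63_5 w63_5 x63_5 (by decide) _ (chkS_sound E lk63 2 5 _ _ _ _ t63_0_5)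

def r63_1_1 : List (ℕ × ℤ) := [(37, 256), (38, 128), (42, -128), (43, -128), (50, -128), (51, -128), (57, 256), (58, 128), (62, 64), (63, 128), (64, 64), (68, -256), (69, 128), (70, 128), (72, -128), (73, -128), (74, -64), (75, -64), (87, 128), (88, -64), (90, -128), (91, -128), (95, 64), (96, 128), (97, 64), (104, -64), (105, 128), (107, -128), (111, -128), (127, -384), (129, 320), (132, 320), (133, -384), (134, -128), (135, 192), (136, 192), (137, -128)]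

theorem h63_1_1 (E : Env κ ι) : ip (F63_1 E) (F63_1 E) = dotS (ek E lk63) r63_1_1 :=
  op_entryZ E lk63 2 5 _ _ _ _ (pg11 κ) (pg8 ι) m63_1 m63_1 l63_1 z63_1 w63_1 x63_1 (by decide) _ (chkS_sound E lk63 2 5 _ _ _ _ t63_1_1)

def r63_1_2 : List (ℕ × ℤ) := [(8, 192), (9, 192), (36, 384), (39, -192), (41, -192), (44, 192), (49, -192), (55, 192), (61, -192), (76, 384), (87, -192), (89, -192), (91, -192), (92, 192), (106, -192), (110, -192), (111, -192), (112, 192), (125, -192), (126, 192), (130, -192), (131, 192)]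

theorem h63_1_2 (E : Env κ ι) : ip (F63_1 E) (F63_2 E) = dotS (ek E lk63) r63_1_2 :=
  op_entryZ E lk63 2 5 _ _ _ _ (pg11 κ) (pg8 ι) m63_1 m63_2 l63_2 z63_2 w63_2 x63_2 (by decide) _ (chkS_sound E lk63 2 5 _ _ _ _ t63_1_2)

def r63_1_3 : List (ℕ × ℤ) := [(37, 128), (38, 64), (42, -64), (43, -64), (50, -64), (51, -64), (57, 128), (58, 64), (62, -64), (63, 64), (64, 128), (68, 256), (69, 64), (70, 64), (72, -64), (73, -64), (74, -128), (75, -128), (87, -128), (88, 64), (90, -64), (91, -256), (92, 192), (95, -64), (96, 64), (97, 128), (104, 64), (105, -128), (107, -64), (111, -256), (112, 192), (127, -192), (129, 256), (132, 256), (133, -192), (134, -64), (137, -64)]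

theorem h63_1_3 (E : Env κ ι) : ip (F63_1 E) (F63_3 E) = dotS (ek E lk63) r63_1_3 :=
  op_entryZ E lk63 2 5 _ _ _ _ (pg11 κ) (pg8 ι) m63_1 m63_3 l63_3 z63_3 w63_3 x63_3 (by decide) _ (chkS_sound E lk63 2 5 _ _ _ _ t63_1_3)

def r63_1_4 : List (ℕ × ℤ) := [(38, -384), (43, 384), (51, 384), (58, -384), (65, -384), (69, -384), (70, -384), (77, 384), (78, 384), (92, 384), (98, -384), (112, 384)]

theorem h63_1_4 (E : Env κ ι) : ip (F63_1 E) (F63_4 E) = dotS (ek E lk63) r63_1_4 :=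
  op_entryZ E lk63 2 5 _ _ _ _ (pg11 κ) (pg8 ι) m63_1 m63_4 l63_4 z63_4 w63_4 x63_4 (by decide) _ (chkS_sound E lk63 2 5 _ _ _ _ t63_1_4)

def r63_1_5 : List (ℕ × ℤ) := [(18, 384), (21, -768), (25, -768), (54, 384), (66, -384), (79, 384), (80, 384), (94, 384), (99, -384), (113, 384)]

theorem h63_1_5 (E : Env κ ι) : ip (F63_1 E) (F63_5 E) = dotS (ek E lk63) r63_1_5 :=
  op_entryZ E lk63 2 5 _ _ _ _ (pg11 κ) (pg8 ι) m63_1 m63_5 l63_5 z63_5 w63_5 x63_5 (by decide) _ (chkS_sound E lk63 2 5 _ _ _ _ t63_1_5)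

def r63_2_2 : List (ℕ × ℤ) := [(3, 192), (4, 192), (6, 192), (8, -384), (11, -192), (37, 384), (42, -192), (50, -192), (57, 384), (60, -192), (86, 192), (89, 192), (90, -384), (103, -384), (107, -384), (108, 192), (128, 192), (132, 192)]

theorem h63_2_2 (E : Env κ ι) : ip (F63_2 E) (F63_2 E) = dotS (ek E lk63) r63_2_2 :=
  op_entryZ E lk63 2 5 _ _ _ _ (pg11 κ) (pg8 ι) m63_2 m63_2 l63_2 z63_2 w63_2 x63_2 (by decide) _ (chkS_sound E lk63 2 5 _ _ _ _ t63_2_2)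

def r63_2_3 : List (ℕ × ℤ) := [(38, 192), (39, -192), (43, -192), (44, 192), (51, -192), (55, 192), (58, 192), (61, -192), (69, 192), (70, 192), (91, -192), (111, -192), (131, 0)]

theorem h63_2_3 (E : Env κ ι) : ip (F63_2 E) (F63_3 E) = dotS (ek E lk63) r63_2_3 :=
  op_entryZ E lk63 2 5 _ _ _ _ (pg11 κ) (pg8 ι) m63_2 m63_3 l63_3 z63_3 w63_3 x63_3 (by decide) _ (chkS_sound E lk63 2 5 _ _ _ _ t63_2_3)

def r63_2_4 : List (ℕ × ℤ) := [(5, 384), (10, -384), (39, 384), (44, -384), (52, 384), (55, -384), (59, -384), (61, 384), (71, -768), (91, 384), (109, 384)]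

theorem h63_2_4 (E : Env κ ι) : ip (F63_2 E) (F63_4 E) = dotS (ek E lk63) r63_2_4 :=
  op_entryZ E lk63 2 5 _ _ _ _ (pg11 κ) (pg8 ι) m63_2 m63_4 l63_4 z63_4 w63_4 x63_4 (by decide) _ (chkS_sound E lk63 2 5 _ _ _ _ t63_2_4)

def r63_2_5 : List (ℕ × ℤ) := [(14, -384), (16, -768), (17, 384), (22, 384), (26, 384), (40, 384), (53, 384), (56, -384), (81, -768), (93, 384)]

theorem h63_2_5 (E : Env κ ι) : ip (F63_2 E) (F63_5 E) = dotS (ek E lk63) r63_2_5 :=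
  op_entryZ E lk63 2 5 _ _ _ _ (pg11 κ) (pg8 ι) m63_2 m63_5 l63_5 z63_5 w63_5 x63_5 (by decide) _ (chkS_sound E lk63 2 5 _ _ _ _ t63_2_5)

def r63_3_3 : List (ℕ × ℤ) := [(37, -128), (38, 128), (42, 64), (43, -128), (50, 64), (51, -128), (57, -128), (58, 128), (62, -128), (63, 128), (64, 64), (68, 512), (69, 128), (70, 128), (72, -128), (73, -128), (74, -64), (75, -64), (87, -256), (88, 128), (89, 192), (90, -128), (91, -128), (95, -128), (96, 128), (97, 64), (104, 128), (105, -256), (107, -128), (108, 192), (111, -128), (129, 128), (132, 128), (134, -128), (137, -128)]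

theorem h63_3_3 (E : Env κ ι) : ip (F63_3 E) (F63_3 E) = dotS (ek E lk63) r63_3_3 :=
  op_entryZ E lk63 2 5 _ _ _ _ (pg11 κ) (pg8 ι) m63_3 m63_3 l63_3 z63_3 w63_3 x63_3 (by decide) _ (chkS_sound E lk63 2 5 _ _ _ _ t63_3_3)

def r63_3_4 : List (ℕ × ℤ) := [(38, -384), (39, 384), (43, 384), (44, -384), (51, 384), (55, -384), (58, -384), (61, 384), (69, -384), (70, -384), (91, 384), (111, 384)]

theorem h63_3_4 (E : Env κ ι) : ip (F63_3 E) (F63_4 E) = dotS (ek E lk63) r63_3_4 :=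
  op_entryZ E lk63 2 5 _ _ _ _ (pg11 κ) (pg8 ι) m63_3 m63_4 l63_4 z63_4 w63_4 x63_4 (by decide) _ (chkS_sound E lk63 2 5 _ _ _ _ t63_3_4)

def r63_3_5 : List (ℕ × ℤ) := [(14, -384), (18, 384), (21, -768), (23, 384), (25, -768), (26, 384), (40, 384), (54, 384), (56, -384), (93, 384)]

theorem h63_3_5 (E : Env κ ι) : ip (F63_3 E) (F63_5 E) = dotS (ek E lk63) r63_3_5 :=
  op_entryZ E lk63 2 5 _ _ _ _ (pg11 κ) (pg8 ι) m63_3 m63_5 l63_5 z63_5 w63_5 x63_5 (by decide) _ (chkS_sound E lk63 2 5 _ _ _ _ t63_3_5)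

def r63_4_4 : List (ℕ × ℤ) := [(2, 384), (64, -768), (74, 768), (75, 768), (83, -768), (97, -768), (100, 384)]

theorem h63_4_4 (E : Env κ ι) : ip (F63_4 E) (F63_4 E) = dotS (ek E lk63) r63_4_4 :=
  op_entryZ E lk63 2 5 _ _ _ _ (pg11 κ) (pg8 ι) m63_4 m63_4 l63_4 z63_4 w63_4 x63_4 (by decide) _ (chkS_sound E lk63 2 5 _ _ _ _ t63_4_4)

def r63_4_5 : List (ℕ × ℤ) := [(14, -768), (15, 384), (26, 768), (40, 768), (56, -768), (84, -768), (101, 384)]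

theorem h63_4_5 (E : Env κ ι) : ip (F63_4 E) (F63_5 E) = dotS (ek E lk63) r63_4_5 :=
  op_entryZ E lk63 2 5 _ _ _ _ (pg11 κ) (pg8 ι) m63_4 m63_5 l63_5 z63_5 w63_5 x63_5 (by decide) _ (chkS_sound E lk63 2 5 _ _ _ _ t63_4_5)

def r63_5_5 : List (ℕ × ℤ) := [(0, -768), (1, -768), (7, 768), (27, 384), (28, 768), (85, -768), (102, 384)]

theorem h63_5_5 (E : Env κ ι) : ip (F63_5 E) (F63_5 E) = dotS (ek E lk63) r63_5_5 :=
  op_entryZ E lk63 2 5 _ _ _ _ (pg11 κ) (pg8 ι) m63_5 m63_5 l63_5 z63_5 w63_5 x63_5 (by decide) _ (chkS_sound E lk63 2 5 _ _ _ _ t63_5_5)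

theorem row63_0 (E : Env κ ι) : RowG (ek E lk63) (F63_0 E) [F63_0 E, F63_1 E, F63_2 E, F63_3 E, F63_4 E, F63_5 E] [r63_0_0, r63_0_1, r63_0_2, r63_0_3, r63_0_4, r63_0_5] :=
  rowG_cons _ _ _ _ _ _ (h63_0_0 E) (rowG_cons _ _ _ _ _ _ (h63_0_1 E) (rowG_cons _ _ _ _ _ _ (h63_0_2 E) (rowG_cons _ _ _ _ _ _ (h63_0_3 E) (rowG_cons _ _ _ _ _ _ (h63_0_4 E) (rowG_cons _ _ _ _ _ _ (h63_0_5 E) (rowG_nil _ _))))))

theorem row63_1 (E : Env κ ι) : RowG (ek E lk63) (F63_1 E) [F63_1 E, F63_2 E, F63_3 E, F63_4 E, F63_5 E] [r63_1_1, r63_1_2, r63_1_3, r63_1_4, r63_1_5] :=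
  rowG_cons _ _ _ _ _ _ (h63_1_1 E) (rowG_cons _ _ _ _ _ _ (h63_1_2 E) (rowG_cons _ _ _ _ _ _ (h63_1_3 E) (rowG_cons _ _ _ _ _ _ (h63_1_4 E) (rowG_cons _ _ _ _ _ _ (h63_1_5 E) (rowG_nil _ _)))))

theorem row63_2 (E : Env κ ι) : RowG (ek E lk63) (F63_2 E) [F63_2 E, F63_3 E, F63_4 E, F63_5 E] [r63_2_2, r63_2_3, r63_2_4, r63_2_5] :=
  rowG_cons _ _ _ _ _ _ (h63_2_2 E) (rowG_cons _ _ _ _ _ _ (h63_2_3 E) (rowG_cons _ _ _ _ _ _ (h63_2_4 E) (rowG_cons _ _ _ _ _ _ (h63_2_5 E) (rowG_nil _ _))))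

theorem row63_3 (E : Env κ ι) : RowG (ek E lk63) (F63_3 E) [F63_3 E, F63_4 E, F63_5 E] [r63_3_3, r63_3_4, r63_3_5] :=
  rowG_cons _ _ _ _ _ _ (h63_3_3 E) (rowG_cons _ _ _ _ _ _ (h63_3_4 E) (rowG_cons _ _ _ _ _ _ (h63_3_5 E) (rowG_nil _ _)))

theorem row63_4 (E : Env κ ι) : RowG (ek E lk63) (F63_4 E) [F63_4 E, F63_5 E] [r63_4_4, r63_4_5] :=
  rowG_cons _ _ _ _ _ _ (h63_4_4 E) (rowG_cons _ _ _ _ _ _ (h63_4_5 E) (rowG_nil _ _))

theorem row63_5 (E : Env κ ι) : RowG (ek E lk63) (F63_5 E) [F63_5 E] [r63_5_5] :=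
  rowG_cons _ _ _ _ _ _ (h63_5_5 E) (rowG_nil _ _)

def tab63 : List (List (List (ℕ × ℤ))) := [[r63_0_0, r63_0_1, r63_0_2, r63_0_3, r63_0_4, r63_0_5], [r63_1_1, r63_1_2, r63_1_3, r63_1_4, r63_1_5], [r63_2_2, r63_2_3, r63_2_4, r63_2_5], [r63_3_3, r63_3_4, r63_3_5], [r63_4_4, r63_4_5], [r63_5_5]]

theorem tri63 (E : Env κ ι) : TriG (ek E lk63) [F63_0 E, F63_1 E, F63_2 E, F63_3 E, F63_4 E, F63_5 E] tab63 := by
  refine triG_cons _ _ _ _ _ (row63_0 E) ?_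
  refine triG_cons _ _ _ _ _ (row63_1 E) ?_
  refine triG_cons _ _ _ _ _ (row63_2 E) ?_
  refine triG_cons _ _ _ _ _ (row63_3 E) ?_
  refine triG_cons _ _ _ _ _ (row63_4 E) ?_
  refine triG_cons _ _ _ _ _ (row63_5 E) ?_
  exact triG_nil _

end

end YMBG
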