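import Pool.Agent.YM.BG.Ga0

set_option linter.unusedVariables false
set_option maxRecDepth 100000

open YMEng

namespace YMBG

def lk7 : List Key := [
  (1, 5, [(0, [0], [0, 1]), (0, [0], [0, 1]), (1, [], [2, 3]), (1, [], [2, 4]), (4, [], [4]), (4, [], [3])]),
  (1, 5, [(0, [0], [0, 1]), (0, [0], [0, 2]), (4, [], [2]), (4, [], [1]), (1, [], [3, 4]), (1, [], [3, 4])]),
  (3, 7, [(0, [0], [0, 1]), (0, [0], [0, 1]), (0, [1], [2, 3]), (0, [2], [2, 4]), (0, [2], [5, 6]), (0, [1], [5, 6]), (4, [], [4]), (4, [], [3])]),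
  (1, 7, [(0, [0], [0, 1]), (0, [0], [0, 1]), (1, [], [2, 3]), (1, [], [2, 3]), (1, [], [4, 5]), (1, [], [4, 6]), (4, [], [6]), (4, [], [5])]),
  (2, 7, [(0, [0], [0, 1]), (0, [0], [0, 1]), (0, [1], [2, 3]), (0, [1], [4, 5]), (1, [], [2, 6]), (1, [], [4, 5]), (4, [], [3]), (4, [], [6])]),
  (1, 5, [(0, [0], [0, 1]), (0, [0], [2, 3]), (1, [], [0, 4]), (1, [], [2, 3]), (4, [], [1]), (4, [], [4])]),
  (1, 5, [(0, [0], [0, 1]), (0, [0], [0, 1]), (1, [], [2, 3]), (1, [], [2, 3]), (4, [], [4]), (4, [], [4])]),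
  (2, 7, [(0, [0], [0, 1]), (0, [0], [2, 3]), (0, [1], [4, 5]), (0, [1], [4, 6]), (1, [], [0, 5]), (1, [], [2, 3]), (4, [], [1]), (4, [], [6])]),
  (2, 7, [(0, [0], [0, 1]), (0, [1], [0, 2]), (0, [0], [3, 4]), (0, [1], [5, 6]), (1, [], [1, 3]), (1, [], [5, 6]), (4, [], [2]), (4, [], [4])]),
  (2, 7, [(0, [0], [0, 1]), (0, [0], [2, 3]), (0, [1], [0, 4]), (0, [1], [4, 5]), (1, [], [1, 6]), (1, [], [2, 3]), (4, [], [5]), (4, [], [6])]),
  (2, 7, [(0, [0], [0, 1]), (0, [1], [0, 2]), (0, [1], [1, 3]), (0, [0], [4, 5]), (1, [], [2, 6]), (1, [], [4, 5]), (4, [], [3]), (4, [], [6])]),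
  (3, 7, [(0, [0], [0, 1]), (0, [1], [0, 2]), (0, [0], [2, 3]), (0, [2], [1, 4]), (0, [1], [5, 6]), (0, [2], [5, 6]), (4, [], [3]), (4, [], [4])]),
  (3, 7, [(0, [0], [0, 1]), (0, [1], [0, 2]), (0, [0], [3, 4]), (0, [1], [3, 4]), (0, [2], [1, 5]), (0, [2], [5, 6]), (4, [], [2]), (4, [], [6])]),
  (2, 6, [(0, [0], [0, 1]), (0, [0], [0, 1]), (0, [1], [2, 3]), (0, [1], [2, 4]), (1, [], [3, 5]), (4, [], [4]), (4, [], [5])]),
  (1, 6, [(0, [0], [0, 1]), (0, [0], [0, 1]), (1, [], [2, 3]), (1, [], [2, 4]), (1, [], [3, 5]), (4, [], [5]), (4, [], [4])]),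
  (1, 6, [(0, [0], [0, 1]), (0, [0], [2, 3]), (1, [], [0, 4]), (1, [], [4, 5]), (1, [], [2, 3]), (4, [], [1]), (4, [], [5])]),
  (1, 6, [(0, [0], [0, 1]), (0, [0], [0, 1]), (1, [], [2, 3]), (1, [], [2, 3]), (1, [], [4, 5]), (4, [], [4]), (4, [], [5])]),
  (1, 6, [(0, [0], [0, 1]), (0, [0], [0, 2]), (1, [], [1, 3]), (4, [], [2]), (4, [], [3]), (1, [], [4, 5]), (1, [], [4, 5])]),
  (2, 6, [(0, [0], [0, 1]), (0, [0], [2, 3]), (0, [1], [0, 4]), (0, [1], [4, 5]), (1, [], [2, 3]), (4, [], [1]), (4, [], [5])]),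
  (2, 6, [(0, [0], [0, 1]), (0, [0], [0, 1]), (0, [1], [2, 3]), (0, [1], [4, 5]), (1, [], [4, 5]), (4, [], [2]), (4, [], [3])]),
  (1, 6, [(0, [0], [0, 1]), (0, [0], [2, 3]), (1, [], [0, 2]), (4, [], [3]), (4, [], [1]), (1, [], [4, 5]), (1, [], [4, 5])]),
  (2, 6, [(0, [0], [0, 1]), (0, [0], [0, 1]), (0, [1], [2, 3]), (0, [1], [4, 5]), (1, [], [2, 4]), (4, [], [5]), (4, [], [3])]),
  (2, 6, [(0, [0], [0, 1]), (0, [1], [0, 2]), (0, [1], [1, 3]), (0, [0], [4, 5]), (1, [], [4, 5]), (4, [], [3]), (4, [], [2])]),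
  (2, 6, [(0, [0], [0, 1]), (0, [1], [0, 2]), (0, [1], [1, 3]), (0, [0], [4, 5]), (1, [], [2, 4]), (4, [], [3]), (4, [], [5])]),
  (2, 6, [(0, [0], [0, 1]), (0, [0], [2, 3]), (0, [1], [0, 4]), (0, [1], [4, 5]), (1, [], [2, 5]), (4, [], [1]), (4, [], [3])]),
  (2, 6, [(0, [0], [0, 1]), (0, [1], [2, 3]), (0, [0], [2, 4]), (0, [1], [0, 5]), (1, [], [1, 3]), (4, [], [5]), (4, [], [4])]),
  (2, 6, [(0, [0], [0, 1]), (0, [0], [2, 3]), (0, [1], [2, 4]), (0, [1], [0, 5]), (1, [], [1, 3]), (4, [], [5]), (4, [], [4])]),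
  (2, 6, [(0, [0], [0, 1]), (0, [1], [0, 2]), (0, [0], [2, 3]), (0, [1], [1, 4]), (1, [], [3, 5]), (4, [], [4]), (4, [], [5])]),
  (2, 6, [(0, [0], [0, 1]), (0, [0], [2, 3]), (0, [1], [0, 4]), (0, [1], [4, 5]), (1, [], [1, 2]), (4, [], [3]), (4, [], [5])]),
  (2, 6, [(0, [0], [0, 1]), (0, [0], [2, 3]), (0, [1], [0, 4]), (0, [1], [2, 4]), (1, [], [1, 5]), (4, [], [3]), (4, [], [5])]),
  (1, 5, [(0, [0], [0, 1]), (0, [0], [0, 2]), (1, [], [1, 3]), (1, [], [3, 4]), (4, [], [2]), (4, [], [4])]),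
  (3, 7, [(0, [0], [0, 1]), (0, [0], [0, 2]), (0, [1], [1, 2]), (4, [], [3]), (0, [2], [4, 5]), (0, [2], [4, 6]), (0, [1], [5, 6]), (4, [], [3])]),
  (3, 7, [(0, [0], [0, 1]), (0, [0], [0, 2]), (0, [1], [1, 2]), (4, [], [3]), (0, [2], [4, 5]), (0, [2], [4, 6]), (0, [1], [3, 6]), (4, [], [5])]),
  (3, 7, [(0, [0], [0, 1]), (0, [0], [0, 2]), (0, [1], [1, 2]), (4, [], [3]), (0, [2], [4, 5]), (0, [2], [4, 5]), (0, [1], [3, 6]), (4, [], [6])]),
  (3, 7, [(0, [0], [0, 1]), (0, [0], [0, 2]), (0, [1], [1, 2]), (4, [], [3]), (0, [2], [4, 5]), (0, [2], [3, 6]), (0, [1], [4, 6]), (4, [], [5])]),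
  (3, 7, [(0, [0], [0, 1]), (0, [0], [0, 2]), (0, [1], [1, 2]), (4, [], [3]), (0, [2], [4, 5]), (0, [2], [3, 6]), (0, [1], [4, 5]), (4, [], [6])]),
  (2, 7, [(0, [0], [0, 1]), (0, [0], [0, 2]), (0, [1], [1, 2]), (4, [], [3]), (0, [1], [4, 5]), (1, [], [4, 6]), (1, [], [3, 5]), (4, [], [6])]),
  (2, 7, [(0, [0], [0, 1]), (0, [0], [0, 2]), (0, [1], [1, 2]), (4, [], [3]), (0, [1], [4, 5]), (1, [], [4, 5]), (1, [], [3, 6]), (4, [], [6])]),
  (2, 6, [(0, [0], [0, 1]), (0, [0], [0, 2]), (0, [1], [1, 2]), (4, [], [3]), (0, [1], [4, 5]), (1, [], [4, 5]), (4, [], [3])]),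
  (2, 6, [(0, [0], [0, 1]), (0, [0], [0, 2]), (0, [1], [1, 2]), (4, [], [3]), (0, [1], [4, 5]), (1, [], [3, 4]), (4, [], [5])]),
  (3, 7, [(0, [0], [0, 1]), (0, [0], [0, 2]), (0, [1], [3, 2]), (4, [], [1]), (0, [2], [4, 5]), (0, [2], [4, 6]), (0, [1], [3, 6]), (4, [], [5])]),
  (3, 7, [(0, [0], [0, 1]), (0, [0], [0, 2]), (0, [1], [3, 2]), (4, [], [1]), (0, [2], [4, 5]), (0, [2], [4, 5]), (0, [1], [3, 6]), (4, [], [6])]),
  (3, 7, [(0, [0], [0, 1]), (0, [0], [0, 2]), (0, [1], [3, 2]), (4, [], [1]), (0, [2], [4, 5]), (0, [2], [3, 6]), (0, [1], [4, 6]), (4, [], [5])]),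
  (3, 7, [(0, [0], [0, 1]), (0, [0], [0, 2]), (0, [1], [3, 2]), (4, [], [1]), (0, [2], [4, 5]), (0, [2], [3, 4]), (0, [1], [5, 6]), (4, [], [6])]),
  (2, 7, [(0, [0], [0, 1]), (0, [0], [0, 2]), (0, [1], [3, 2]), (4, [], [1]), (0, [1], [4, 5]), (1, [], [4, 6]), (1, [], [3, 5]), (4, [], [6])]),
  (2, 6, [(0, [0], [0, 1]), (0, [0], [0, 2]), (0, [1], [3, 2]), (4, [], [1]), (0, [1], [3, 4]), (1, [], [4, 5]), (4, [], [5])]),
  (3, 7, [(0, [0], [0, 1]), (0, [0], [0, 1]), (0, [1], [2, 3]), (4, [], [3]), (0, [2], [4, 5]), (0, [2], [2, 6]), (0, [1], [4, 6]), (4, [], [5])]),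
  (3, 7, [(0, [0], [0, 1]), (0, [0], [0, 1]), (0, [1], [2, 3]), (4, [], [3]), (0, [2], [4, 5]), (0, [2], [2, 4]), (0, [1], [5, 6]), (4, [], [6])]),
  (2, 7, [(0, [0], [0, 1]), (0, [0], [0, 1]), (0, [1], [2, 3]), (4, [], [3]), (0, [1], [4, 5]), (1, [], [4, 6]), (1, [], [2, 5]), (4, [], [6])]),
  (3, 7, [(0, [0], [0, 1]), (0, [0], [2, 3]), (0, [1], [0, 3]), (4, [], [1]), (0, [2], [4, 5]), (0, [2], [2, 6]), (0, [1], [4, 6]), (4, [], [5])]),
  (3, 7, [(0, [0], [0, 1]), (0, [0], [2, 3]), (0, [1], [0, 3]), (4, [], [1]), (0, [2], [4, 5]), (0, [2], [2, 4]), (0, [1], [5, 6]), (4, [], [6])]),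
  (2, 7, [(0, [0], [0, 1]), (0, [0], [2, 3]), (0, [1], [0, 3]), (4, [], [1]), (0, [1], [4, 5]), (1, [], [4, 6]), (1, [], [2, 5]), (4, [], [6])]),
  (3, 7, [(0, [0], [0, 1]), (0, [0], [2, 3]), (0, [1], [0, 1]), (4, [], [3]), (0, [2], [4, 5]), (0, [2], [2, 6]), (0, [1], [4, 5]), (4, [], [6])]),
  (3, 7, [(0, [0], [0, 1]), (0, [0], [2, 3]), (0, [1], [0, 1]), (4, [], [3]), (0, [2], [4, 5]), (0, [2], [2, 4]), (0, [1], [5, 6]), (4, [], [6])]),
  (2, 7, [(0, [0], [0, 1]), (0, [0], [2, 3]), (0, [1], [0, 1]), (4, [], [3]), (0, [1], [4, 5]), (1, [], [4, 6]), (1, [], [2, 5]), (4, [], [6])]),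
  (2, 7, [(0, [0], [0, 1]), (0, [0], [2, 3]), (0, [1], [0, 1]), (4, [], [3]), (0, [1], [4, 5]), (1, [], [4, 5]), (1, [], [2, 6]), (4, [], [6])]),
  (2, 6, [(0, [0], [0, 1]), (0, [0], [2, 3]), (0, [1], [0, 1]), (4, [], [3]), (0, [1], [4, 5]), (1, [], [4, 5]), (4, [], [2])]),
  (2, 6, [(0, [0], [0, 1]), (0, [0], [2, 3]), (0, [1], [0, 1]), (4, [], [3]), (0, [1], [4, 5]), (1, [], [2, 4]), (4, [], [5])]),
  (2, 6, [(0, [0], [0, 1]), (0, [0], [2, 3]), (0, [1], [0, 1]), (4, [], [3]), (0, [1], [2, 4]), (1, [], [4, 5]), (4, [], [5])]),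
  (3, 7, [(0, [0], [0, 1]), (0, [0], [2, 0]), (0, [1], [1, 3]), (4, [], [3]), (0, [2], [4, 5]), (0, [2], [2, 4]), (0, [1], [5, 6]), (4, [], [6])]),
  (2, 7, [(0, [0], [0, 1]), (0, [0], [2, 0]), (0, [1], [1, 3]), (4, [], [3]), (0, [1], [4, 5]), (1, [], [4, 6]), (1, [], [2, 5]), (4, [], [6])]),
  (2, 7, [(0, [0], [0, 1]), (0, [0], [2, 0]), (0, [1], [1, 3]), (4, [], [3]), (0, [1], [4, 5]), (1, [], [4, 5]), (1, [], [2, 6]), (4, [], [6])]),
  (1, 7, [(0, [0], [0, 1]), (1, [], [0, 2]), (1, [], [1, 2]), (4, [], [3]), (0, [0], [4, 5]), (1, [], [4, 6]), (1, [], [5, 6]), (4, [], [3])]),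
  (1, 7, [(0, [0], [0, 1]), (1, [], [0, 2]), (1, [], [1, 2]), (4, [], [3]), (0, [0], [4, 5]), (1, [], [4, 6]), (1, [], [3, 6]), (4, [], [5])]),
  (1, 7, [(0, [0], [0, 1]), (1, [], [0, 2]), (1, [], [1, 2]), (4, [], [3]), (0, [0], [4, 5]), (1, [], [4, 6]), (1, [], [3, 5]), (4, [], [6])]),
  (1, 7, [(0, [0], [0, 1]), (1, [], [0, 2]), (1, [], [1, 2]), (4, [], [3]), (0, [0], [4, 5]), (1, [], [4, 5]), (1, [], [3, 6]), (4, [], [6])]),
  (1, 6, [(0, [0], [0, 1]), (1, [], [0, 2]), (1, [], [1, 2]), (4, [], [3]), (0, [0], [4, 5]), (1, [], [4, 5]), (4, [], [3])]),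
  (1, 6, [(0, [0], [0, 1]), (1, [], [0, 2]), (1, [], [1, 2]), (4, [], [3]), (0, [0], [4, 5]), (1, [], [3, 4]), (4, [], [5])]),
  (1, 7, [(0, [0], [0, 1]), (1, [], [0, 2]), (1, [], [3, 2]), (4, [], [1]), (0, [0], [4, 5]), (1, [], [4, 6]), (1, [], [3, 6]), (4, [], [5])]),
  (1, 7, [(0, [0], [0, 1]), (1, [], [0, 2]), (1, [], [3, 2]), (4, [], [1]), (0, [0], [4, 5]), (1, [], [4, 6]), (1, [], [3, 5]), (4, [], [6])]),
  (1, 6, [(0, [0], [0, 1]), (1, [], [0, 2]), (1, [], [3, 2]), (4, [], [1]), (0, [0], [4, 5]), (1, [], [3, 4]), (4, [], [5])]),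
  (1, 7, [(0, [0], [0, 1]), (1, [], [0, 2]), (1, [], [3, 2]), (4, [], [1]), (0, [0], [3, 4]), (1, [], [5, 6]), (1, [], [5, 6]), (4, [], [4])]),
  (1, 7, [(0, [0], [0, 1]), (1, [], [0, 2]), (1, [], [3, 2]), (4, [], [1]), (0, [0], [3, 4]), (1, [], [5, 6]), (1, [], [4, 5]), (4, [], [6])]),
  (1, 6, [(0, [0], [0, 1]), (1, [], [0, 2]), (1, [], [3, 2]), (4, [], [1]), (0, [0], [3, 4]), (1, [], [4, 5]), (4, [], [5])]),
  (1, 5, [(0, [0], [0, 1]), (1, [], [0, 2]), (1, [], [3, 2]), (4, [], [1]), (0, [0], [3, 4]), (4, [], [4])]),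
  (1, 7, [(0, [0], [0, 1]), (1, [], [0, 2]), (1, [], [3, 1]), (4, [], [2]), (0, [0], [4, 5]), (1, [], [4, 6]), (1, [], [3, 5]), (4, [], [6])]),
  (1, 7, [(0, [0], [0, 1]), (1, [], [0, 2]), (1, [], [3, 1]), (4, [], [2]), (0, [0], [4, 5]), (1, [], [4, 5]), (1, [], [3, 6]), (4, [], [6])]),
  (1, 6, [(0, [0], [0, 1]), (1, [], [0, 2]), (1, [], [3, 1]), (4, [], [2]), (0, [0], [4, 5]), (1, [], [4, 5]), (4, [], [3])]),
  (1, 7, [(0, [0], [0, 1]), (1, [], [0, 2]), (1, [], [3, 1]), (4, [], [2]), (0, [0], [3, 4]), (1, [], [5, 6]), (1, [], [5, 6]), (4, [], [4])]),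
  (1, 7, [(0, [0], [0, 1]), (1, [], [0, 2]), (1, [], [3, 1]), (4, [], [2]), (0, [0], [3, 4]), (1, [], [5, 6]), (1, [], [4, 5]), (4, [], [6])]),
  (1, 6, [(0, [0], [0, 1]), (1, [], [0, 2]), (1, [], [3, 1]), (4, [], [2]), (0, [0], [3, 4]), (1, [], [4, 5]), (4, [], [5])]),
  (1, 7, [(0, [0], [0, 1]), (1, [], [0, 1]), (1, [], [2, 3]), (4, [], [3]), (0, [0], [4, 5]), (1, [], [4, 5]), (1, [], [2, 6]), (4, [], [6])]),
  (1, 6, [(0, [0], [0, 1]), (1, [], [0, 1]), (1, [], [2, 3]), (4, [], [3]), (0, [0], [4, 5]), (1, [], [4, 5]), (4, [], [2])]),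
  (1, 5, [(0, [0], [0, 1]), (1, [], [0, 1]), (4, [], [2]), (0, [0], [3, 4]), (1, [], [3, 4]), (4, [], [2])]),
  (1, 6, [(0, [0], [0, 1]), (1, [], [2, 0]), (4, [], [1]), (0, [0], [2, 3]), (1, [], [4, 5]), (1, [], [3, 4]), (4, [], [5])]),
  (1, 7, [(0, [0], [0, 1]), (1, [], [2, 3]), (1, [], [2, 3]), (4, [], [1]), (0, [0], [0, 4]), (1, [], [5, 6]), (1, [], [4, 5]), (4, [], [6])]),
  (1, 7, [(0, [0], [0, 1]), (1, [], [2, 3]), (1, [], [1, 2]), (4, [], [3]), (0, [0], [0, 4]), (1, [], [5, 6]), (1, [], [4, 5]), (4, [], [6])]),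
  (1, 6, [(0, [0], [0, 1]), (1, [], [2, 3]), (1, [], [1, 2]), (4, [], [3]), (0, [0], [0, 4]), (1, [], [4, 5]), (4, [], [5])]),
  (1, 5, [(0, [0], [0, 1]), (1, [], [1, 2]), (4, [], [2]), (0, [0], [0, 3]), (1, [], [3, 4]), (4, [], [4])]),
  (3, 7, [(0, [0], [0, 1]), (0, [0], [0, 1]), (0, [1], [2, 3]), (4, [], [4]), (0, [2], [5, 6]), (0, [2], [2, 5]), (0, [1], [3, 6]), (4, [], [4])]),
  (2, 7, [(0, [0], [0, 1]), (0, [0], [0, 1]), (0, [1], [2, 3]), (4, [], [4]), (0, [1], [2, 5]), (1, [], [5, 6]), (1, [], [3, 4]), (4, [], [6])]),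
  (2, 7, [(0, [0], [0, 1]), (0, [0], [0, 1]), (0, [1], [2, 3]), (4, [], [4]), (0, [1], [2, 5]), (1, [], [4, 6]), (1, [], [3, 5]), (4, [], [6])]),
  (2, 6, [(0, [0], [0, 1]), (0, [0], [0, 1]), (0, [1], [2, 3]), (4, [], [4]), (0, [1], [2, 5]), (1, [], [3, 5]), (4, [], [4])]),
  (3, 7, [(0, [0], [0, 1]), (0, [0], [2, 0]), (0, [1], [3, 1]), (4, [], [4]), (0, [2], [5, 6]), (0, [2], [2, 5]), (0, [1], [3, 6]), (4, [], [4])]),
  (3, 7, [(0, [0], [0, 1]), (0, [0], [2, 0]), (0, [1], [3, 1]), (4, [], [4]), (0, [2], [5, 6]), (0, [2], [3, 5]), (0, [1], [2, 6]), (4, [], [4])]),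
  (3, 7, [(0, [0], [0, 1]), (0, [0], [2, 0]), (0, [1], [3, 1]), (4, [], [4]), (0, [2], [5, 6]), (0, [2], [4, 5]), (0, [1], [2, 3]), (4, [], [6])]),
  (3, 7, [(0, [0], [0, 1]), (0, [0], [2, 0]), (0, [1], [3, 1]), (4, [], [4]), (0, [2], [5, 6]), (0, [2], [2, 3]), (0, [1], [5, 6]), (4, [], [4])]),
  (3, 7, [(0, [0], [0, 1]), (0, [0], [2, 0]), (0, [1], [3, 1]), (4, [], [4]), (0, [2], [5, 6]), (0, [2], [2, 3]), (0, [1], [4, 5]), (4, [], [6])]),
  (3, 7, [(0, [0], [0, 1]), (0, [0], [2, 0]), (0, [1], [3, 1]), (4, [], [4]), (0, [2], [5, 6]), (0, [2], [3, 4]), (0, [1], [2, 5]), (4, [], [6])]),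
  (3, 7, [(0, [0], [0, 1]), (0, [0], [2, 0]), (0, [1], [3, 1]), (4, [], [4]), (0, [2], [2, 5]), (0, [2], [3, 6]), (0, [1], [5, 6]), (4, [], [4])]),
  (3, 7, [(0, [0], [0, 1]), (0, [0], [2, 0]), (0, [1], [3, 1]), (4, [], [4]), (0, [2], [3, 5]), (0, [2], [2, 6]), (0, [1], [4, 6]), (4, [], [5])]),
  (3, 7, [(0, [0], [0, 1]), (0, [0], [2, 0]), (0, [1], [3, 1]), (4, [], [4]), (0, [2], [4, 5]), (0, [2], [2, 6]), (0, [1], [3, 6]), (4, [], [5])]),
  (3, 7, [(0, [0], [0, 1]), (0, [0], [2, 0]), (0, [1], [3, 1]), (4, [], [4]), (0, [2], [4, 5]), (0, [2], [3, 6]), (0, [1], [2, 6]), (4, [], [5])]),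
  (2, 7, [(0, [0], [0, 1]), (0, [0], [2, 0]), (0, [1], [3, 1]), (4, [], [4]), (0, [1], [5, 6]), (1, [], [5, 6]), (1, [], [2, 3]), (4, [], [4])]),
  (2, 7, [(0, [0], [0, 1]), (0, [0], [2, 0]), (0, [1], [3, 1]), (4, [], [4]), (0, [1], [5, 6]), (1, [], [2, 5]), (1, [], [3, 6]), (4, [], [4])]),
  (2, 7, [(0, [0], [0, 1]), (0, [0], [2, 0]), (0, [1], [3, 1]), (4, [], [4]), (0, [1], [5, 6]), (1, [], [2, 5]), (1, [], [3, 4]), (4, [], [6])]),
  (2, 7, [(0, [0], [0, 1]), (0, [0], [2, 0]), (0, [1], [3, 1]), (4, [], [4]), (0, [1], [5, 6]), (1, [], [3, 5]), (1, [], [2, 4]), (4, [], [6])]),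
  (2, 7, [(0, [0], [0, 1]), (0, [0], [2, 0]), (0, [1], [3, 1]), (4, [], [4]), (0, [1], [5, 6]), (1, [], [4, 5]), (1, [], [2, 3]), (4, [], [6])]),
  (2, 7, [(0, [0], [0, 1]), (0, [0], [2, 0]), (0, [1], [3, 1]), (4, [], [4]), (0, [1], [2, 5]), (1, [], [5, 6]), (1, [], [3, 4]), (4, [], [6])]),
  (2, 7, [(0, [0], [0, 1]), (0, [0], [2, 0]), (0, [1], [3, 1]), (4, [], [4]), (0, [1], [3, 5]), (1, [], [5, 6]), (1, [], [2, 4]), (4, [], [6])]),
  (2, 7, [(0, [0], [0, 1]), (0, [0], [2, 0]), (0, [1], [3, 1]), (4, [], [4]), (0, [1], [2, 5]), (1, [], [4, 6]), (1, [], [3, 5]), (4, [], [6])]),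
  (2, 7, [(0, [0], [0, 1]), (0, [0], [2, 0]), (0, [1], [3, 1]), (4, [], [4]), (0, [1], [3, 5]), (1, [], [4, 6]), (1, [], [2, 5]), (4, [], [6])]),
  (2, 6, [(0, [0], [0, 1]), (0, [0], [2, 0]), (0, [1], [3, 1]), (4, [], [4]), (0, [1], [2, 5]), (1, [], [3, 5]), (4, [], [4])]),
  (2, 6, [(0, [0], [0, 1]), (0, [0], [2, 0]), (0, [1], [3, 1]), (4, [], [4]), (0, [1], [3, 5]), (1, [], [2, 5]), (4, [], [4])]),
  (2, 6, [(0, [0], [0, 1]), (0, [0], [2, 0]), (0, [1], [3, 1]), (4, [], [4]), (0, [1], [4, 5]), (1, [], [2, 3]), (4, [], [5])]),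
  (2, 7, [(0, [0], [0, 1]), (0, [0], [2, 0]), (0, [1], [3, 4]), (4, [], [1]), (0, [1], [5, 6]), (1, [], [2, 5]), (1, [], [3, 6]), (4, [], [4])]),
  (2, 7, [(0, [0], [0, 1]), (0, [0], [2, 0]), (0, [1], [3, 4]), (4, [], [1]), (0, [1], [3, 5]), (1, [], [5, 6]), (1, [], [2, 4]), (4, [], [6])]),
  (2, 7, [(0, [0], [0, 1]), (0, [0], [2, 0]), (0, [1], [3, 4]), (4, [], [1]), (0, [1], [3, 5]), (1, [], [2, 6]), (1, [], [4, 5]), (4, [], [6])]),
  (2, 6, [(0, [0], [0, 1]), (0, [0], [2, 0]), (0, [1], [3, 4]), (4, [], [1]), (0, [1], [3, 5]), (1, [], [2, 5]), (4, [], [4])]),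
  (2, 6, [(0, [0], [0, 1]), (0, [0], [2, 0]), (0, [1], [3, 4]), (4, [], [1]), (0, [1], [3, 5]), (1, [], [4, 5]), (4, [], [2])]),
  (3, 7, [(0, [0], [0, 1]), (0, [0], [2, 3]), (0, [1], [0, 1]), (4, [], [4]), (0, [2], [5, 6]), (0, [2], [2, 4]), (0, [1], [3, 5]), (4, [], [6])]),
  (3, 7, [(0, [0], [0, 1]), (0, [0], [2, 3]), (0, [1], [0, 1]), (4, [], [4]), (0, [2], [2, 5]), (0, [2], [3, 6]), (0, [1], [5, 6]), (4, [], [4])]),
  (3, 7, [(0, [0], [0, 1]), (0, [0], [2, 3]), (0, [1], [0, 1]), (4, [], [4]), (0, [2], [4, 5]), (0, [2], [2, 6]), (0, [1], [3, 6]), (4, [], [5])]),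
  (2, 7, [(0, [0], [0, 1]), (0, [0], [2, 3]), (0, [1], [0, 1]), (4, [], [4]), (0, [1], [2, 5]), (1, [], [5, 6]), (1, [], [3, 4]), (4, [], [6])]),
  (2, 7, [(0, [0], [0, 1]), (0, [0], [2, 3]), (0, [1], [0, 1]), (4, [], [4]), (0, [1], [2, 5]), (1, [], [4, 6]), (1, [], [3, 5]), (4, [], [6])]),
  (2, 6, [(0, [0], [0, 1]), (0, [0], [2, 3]), (0, [1], [0, 1]), (4, [], [4]), (0, [1], [2, 5]), (1, [], [3, 5]), (4, [], [4])]),
  (3, 7, [(0, [0], [0, 1]), (0, [0], [2, 3]), (0, [1], [4, 0]), (4, [], [1]), (0, [2], [5, 6]), (0, [2], [2, 4]), (0, [1], [3, 5]), (4, [], [6])]),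
  (3, 7, [(0, [0], [0, 1]), (0, [0], [2, 3]), (0, [1], [4, 0]), (4, [], [1]), (0, [2], [2, 5]), (0, [2], [3, 6]), (0, [1], [5, 6]), (4, [], [4])]),
  (3, 7, [(0, [0], [0, 1]), (0, [0], [2, 3]), (0, [1], [4, 0]), (4, [], [1]), (0, [2], [2, 5]), (0, [2], [4, 6]), (0, [1], [5, 6]), (4, [], [3])]),
  (3, 7, [(0, [0], [0, 1]), (0, [0], [2, 3]), (0, [1], [4, 0]), (4, [], [1]), (0, [2], [2, 5]), (0, [2], [4, 6]), (0, [1], [3, 6]), (4, [], [5])]),
  (3, 7, [(0, [0], [0, 1]), (0, [0], [2, 3]), (0, [1], [4, 0]), (4, [], [1]), (0, [2], [4, 5]), (0, [2], [2, 6]), (0, [1], [3, 6]), (4, [], [5])]),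
  (2, 7, [(0, [0], [0, 1]), (0, [0], [2, 3]), (0, [1], [4, 0]), (4, [], [1]), (0, [1], [5, 6]), (1, [], [5, 6]), (1, [], [2, 4]), (4, [], [3])]),
  (2, 7, [(0, [0], [0, 1]), (0, [0], [2, 3]), (0, [1], [4, 0]), (4, [], [1]), (0, [1], [5, 6]), (1, [], [2, 5]), (1, [], [4, 6]), (4, [], [3])]),
  (2, 7, [(0, [0], [0, 1]), (0, [0], [2, 3]), (0, [1], [4, 0]), (4, [], [1]), (0, [1], [5, 6]), (1, [], [2, 5]), (1, [], [3, 4]), (4, [], [6])]),
  (2, 7, [(0, [0], [0, 1]), (0, [0], [2, 3]), (0, [1], [4, 0]), (4, [], [1]), (0, [1], [2, 5]), (1, [], [5, 6]), (1, [], [3, 4]), (4, [], [6])]),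
  (2, 7, [(0, [0], [0, 1]), (0, [0], [2, 3]), (0, [1], [4, 0]), (4, [], [1]), (0, [1], [2, 5]), (1, [], [3, 6]), (1, [], [4, 5]), (4, [], [6])]),
  (2, 7, [(0, [0], [0, 1]), (0, [0], [2, 3]), (0, [1], [4, 0]), (4, [], [1]), (0, [1], [2, 5]), (1, [], [4, 6]), (1, [], [3, 5]), (4, [], [6])]),
  (2, 6, [(0, [0], [0, 1]), (0, [0], [2, 3]), (0, [1], [4, 0]), (4, [], [1]), (0, [1], [2, 5]), (1, [], [3, 5]), (4, [], [4])]),
  (3, 7, [(0, [0], [0, 1]), (0, [0], [2, 3]), (0, [1], [1, 3]), (4, [], [4]), (0, [2], [0, 5]), (0, [2], [2, 6]), (0, [1], [5, 6]), (4, [], [4])]),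
  (3, 7, [(0, [0], [0, 1]), (0, [0], [2, 3]), (0, [1], [1, 3]), (4, [], [4]), (0, [2], [4, 5]), (0, [2], [0, 6]), (0, [1], [2, 6]), (4, [], [5])]),
  (2, 7, [(0, [0], [0, 1]), (0, [0], [2, 3]), (0, [1], [1, 3]), (4, [], [4]), (0, [1], [5, 6]), (1, [], [5, 6]), (1, [], [0, 2]), (4, [], [4])]),
  (2, 7, [(0, [0], [0, 1]), (0, [0], [2, 3]), (0, [1], [1, 3]), (4, [], [4]), (0, [1], [5, 6]), (1, [], [0, 5]), (1, [], [2, 6]), (4, [], [4])]),
  (2, 7, [(0, [0], [0, 1]), (0, [0], [2, 3]), (0, [1], [1, 3]), (4, [], [4]), (0, [1], [5, 6]), (1, [], [0, 5]), (1, [], [2, 4]), (4, [], [6])]),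
  (2, 7, [(0, [0], [0, 1]), (0, [0], [2, 3]), (0, [1], [1, 3]), (4, [], [4]), (0, [1], [5, 6]), (1, [], [4, 5]), (1, [], [0, 2]), (4, [], [6])]),
  (2, 7, [(0, [0], [0, 1]), (0, [0], [2, 3]), (0, [1], [1, 3]), (4, [], [4]), (0, [1], [0, 5]), (1, [], [5, 6]), (1, [], [2, 4]), (4, [], [6])]),
  (2, 7, [(0, [0], [0, 1]), (0, [0], [2, 3]), (0, [1], [1, 3]), (4, [], [4]), (0, [1], [0, 5]), (1, [], [4, 6]), (1, [], [2, 5]), (4, [], [6])]),
  (2, 6, [(0, [0], [0, 1]), (0, [0], [2, 3]), (0, [1], [1, 3]), (4, [], [4]), (0, [1], [0, 5]), (1, [], [2, 5]), (4, [], [4])]),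
  (2, 7, [(0, [0], [0, 1]), (0, [0], [2, 3]), (0, [1], [4, 3]), (4, [], [1]), (0, [1], [5, 6]), (1, [], [5, 6]), (1, [], [2, 4]), (4, [], [0])]),
  (2, 7, [(0, [0], [0, 1]), (0, [0], [2, 3]), (0, [1], [4, 3]), (4, [], [1]), (0, [1], [5, 6]), (1, [], [2, 5]), (1, [], [4, 6]), (4, [], [0])]),
  (2, 7, [(0, [0], [0, 1]), (0, [0], [2, 3]), (0, [1], [4, 3]), (4, [], [1]), (0, [1], [5, 6]), (1, [], [0, 5]), (1, [], [2, 4]), (4, [], [6])]),
  (2, 7, [(0, [0], [0, 1]), (0, [0], [2, 3]), (0, [1], [4, 3]), (4, [], [1]), (0, [1], [5, 6]), (1, [], [2, 5]), (1, [], [0, 4]), (4, [], [6])]),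
  (2, 7, [(0, [0], [0, 1]), (0, [0], [2, 3]), (0, [1], [4, 3]), (4, [], [1]), (0, [1], [5, 6]), (1, [], [4, 5]), (1, [], [0, 2]), (4, [], [6])]),
  (2, 7, [(0, [0], [0, 1]), (0, [0], [2, 1]), (0, [1], [3, 4]), (4, [], [4]), (0, [1], [5, 6]), (1, [], [5, 6]), (1, [], [0, 2]), (4, [], [3])]),
  (2, 7, [(0, [0], [0, 1]), (0, [0], [2, 1]), (0, [1], [3, 4]), (4, [], [4]), (0, [1], [5, 6]), (1, [], [0, 5]), (1, [], [2, 6]), (4, [], [3])]),
  (2, 7, [(0, [0], [0, 1]), (0, [0], [2, 1]), (0, [1], [3, 4]), (4, [], [4]), (0, [1], [5, 6]), (1, [], [0, 5]), (1, [], [2, 3]), (4, [], [6])]),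
  (2, 7, [(0, [0], [0, 1]), (0, [0], [2, 1]), (0, [1], [3, 4]), (4, [], [4]), (0, [1], [5, 6]), (1, [], [3, 5]), (1, [], [0, 2]), (4, [], [6])]),
  (1, 7, [(0, [0], [0, 1]), (1, [], [2, 0]), (1, [], [3, 1]), (4, [], [4]), (0, [0], [5, 6]), (1, [], [2, 5]), (1, [], [3, 6]), (4, [], [4])]),
  (1, 7, [(0, [0], [0, 1]), (1, [], [2, 0]), (1, [], [3, 1]), (4, [], [4]), (0, [0], [2, 5]), (1, [], [5, 6]), (1, [], [3, 6]), (4, [], [4])]),
  (1, 7, [(0, [0], [0, 1]), (1, [], [2, 0]), (1, [], [3, 1]), (4, [], [4]), (0, [0], [2, 5]), (1, [], [3, 6]), (1, [], [4, 6]), (4, [], [5])]),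
  (1, 7, [(0, [0], [0, 1]), (1, [], [2, 0]), (1, [], [3, 1]), (4, [], [4]), (0, [0], [2, 5]), (1, [], [4, 6]), (1, [], [3, 5]), (4, [], [6])]),
  (1, 6, [(0, [0], [0, 1]), (1, [], [2, 0]), (1, [], [3, 1]), (4, [], [4]), (0, [0], [2, 5]), (1, [], [3, 5]), (4, [], [4])]),
  (1, 7, [(0, [0], [0, 1]), (1, [], [2, 0]), (1, [], [3, 1]), (4, [], [4]), (0, [0], [2, 3]), (1, [], [5, 6]), (1, [], [5, 6]), (4, [], [4])]),
  (1, 7, [(0, [0], [0, 1]), (1, [], [2, 0]), (1, [], [3, 1]), (4, [], [4]), (0, [0], [2, 3]), (1, [], [5, 6]), (1, [], [4, 5]), (4, [], [6])]),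
  (1, 7, [(0, [0], [0, 1]), (1, [], [1, 2]), (1, [], [3, 2]), (4, [], [4]), (0, [0], [0, 5]), (1, [], [5, 6]), (1, [], [3, 6]), (4, [], [4])]),
  (1, 7, [(0, [0], [0, 1]), (1, [], [1, 2]), (1, [], [3, 2]), (4, [], [4]), (0, [0], [0, 5]), (1, [], [5, 6]), (1, [], [3, 4]), (4, [], [6])]),
  (1, 7, [(0, [0], [0, 1]), (1, [], [1, 2]), (1, [], [3, 2]), (4, [], [4]), (0, [0], [0, 5]), (1, [], [3, 6]), (1, [], [4, 6]), (4, [], [5])]),
  (1, 7, [(0, [0], [0, 1]), (1, [], [1, 2]), (1, [], [3, 2]), (4, [], [4]), (0, [0], [0, 5]), (1, [], [4, 6]), (1, [], [3, 5]), (4, [], [6])]),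
  (1, 6, [(0, [0], [0, 1]), (1, [], [1, 2]), (1, [], [3, 2]), (4, [], [4]), (0, [0], [0, 5]), (1, [], [3, 5]), (4, [], [4])]),
  (1, 6, [(0, [0], [0, 1]), (1, [], [1, 2]), (1, [], [3, 2]), (4, [], [4]), (0, [0], [0, 5]), (1, [], [3, 4]), (4, [], [5])]),
  (1, 7, [(0, [0], [0, 1]), (1, [], [1, 2]), (1, [], [3, 2]), (4, [], [4]), (0, [0], [0, 3]), (1, [], [5, 6]), (1, [], [5, 6]), (4, [], [4])]),
  (1, 7, [(0, [0], [0, 1]), (1, [], [1, 2]), (1, [], [3, 2]), (4, [], [4]), (0, [0], [0, 3]), (1, [], [5, 6]), (1, [], [4, 5]), (4, [], [6])]),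
  (1, 6, [(0, [0], [0, 1]), (1, [], [1, 2]), (1, [], [3, 2]), (4, [], [4]), (0, [0], [0, 3]), (1, [], [4, 5]), (4, [], [5])]),
  (1, 5, [(0, [0], [0, 1]), (1, [], [1, 2]), (1, [], [3, 2]), (4, [], [4]), (0, [0], [0, 3]), (4, [], [4])]),
  (1, 7, [(0, [0], [0, 1]), (1, [], [1, 2]), (1, [], [3, 4]), (4, [], [2]), (0, [0], [0, 5]), (1, [], [5, 6]), (1, [], [3, 4]), (4, [], [6])]),
  (1, 7, [(0, [0], [0, 1]), (1, [], [2, 3]), (1, [], [4, 1]), (4, [], [3]), (0, [0], [0, 4]), (1, [], [5, 6]), (1, [], [5, 6]), (4, [], [2])]),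
  (1, 7, [(0, [0], [0, 1]), (1, [], [2, 3]), (1, [], [4, 1]), (4, [], [3]), (0, [0], [0, 4]), (1, [], [5, 6]), (1, [], [2, 5]), (4, [], [6])]),
  (1, 6, [(0, [0], [0, 1]), (1, [], [2, 3]), (1, [], [4, 1]), (4, [], [3]), (0, [0], [0, 4]), (1, [], [2, 5]), (4, [], [5])]),
  (1, 6, [(0, [0], [0, 1]), (1, [], [2, 1]), (4, [], [3]), (0, [0], [0, 2]), (1, [], [4, 5]), (1, [], [4, 5]), (4, [], [3])]),
  (1, 7, [(0, [0], [0, 1]), (1, [], [2, 3]), (1, [], [4, 2]), (4, [], [3]), (0, [0], [0, 1]), (1, [], [5, 6]), (1, [], [4, 5]), (4, [], [6])]),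
  (2, 7, [(0, [0], [0, 1]), (0, [0], [2, 1]), (0, [1], [3, 4]), (4, [], [5]), (0, [1], [3, 6]), (1, [], [0, 6]), (1, [], [2, 4]), (4, [], [5])]),
  (2, 7, [(0, [0], [0, 1]), (0, [0], [2, 1]), (0, [1], [3, 4]), (4, [], [5]), (0, [1], [3, 6]), (1, [], [4, 6]), (1, [], [0, 2]), (4, [], [5])]),
  (3, 7, [(0, [0], [0, 1]), (0, [0], [2, 3]), (0, [1], [4, 1]), (4, [], [5]), (0, [2], [0, 6]), (0, [2], [2, 4]), (0, [1], [3, 6]), (4, [], [5])]),
  (3, 7, [(0, [0], [0, 1]), (0, [0], [2, 3]), (0, [1], [4, 1]), (4, [], [5]), (0, [2], [2, 6]), (0, [2], [0, 4]), (0, [1], [3, 6]), (4, [], [5])]),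
  (2, 7, [(0, [0], [0, 1]), (0, [0], [2, 3]), (0, [1], [4, 1]), (4, [], [5]), (0, [1], [2, 6]), (1, [], [0, 6]), (1, [], [3, 4]), (4, [], [5])]),
  (2, 7, [(0, [0], [0, 1]), (0, [0], [2, 3]), (0, [1], [4, 1]), (4, [], [5]), (0, [1], [2, 6]), (1, [], [3, 6]), (1, [], [0, 4]), (4, [], [5])]),
  (2, 7, [(0, [0], [0, 1]), (0, [0], [2, 3]), (0, [1], [4, 1]), (4, [], [5]), (0, [1], [2, 6]), (1, [], [4, 6]), (1, [], [0, 3]), (4, [], [5])])]

def kl7 : List ℕ := [3, 4, 14, 19, 22, 31, 36, 42, 45, 50, 55, 57, 58, 64, 69, 70, 72, 74, 75, 76, 77, 78, 83, 84, 85, 86, 87, 88, 89, 90, 92, 94, 95, 96, 97, 98, 101, 102, 103, 104, 109, 110, 111, 112, 115, 118, 119, 120, 123, 125, 126, 129, 132, 133, 136, 137, 138, 139, 142, 144, 146, 147, 152, 153, 154, 155, 156, 157, 162, 163, 165, 167, 168, 169, 170, 172, 173, 174, 176, 177, 178, 181, 182, 185, 189, 196, 197, 198, 200, 204, 210, 211, 212, 216, 217,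 218, 219, 220, 221, 222, 223, 224, 225, 226, 227, 228, 229, 230, 233, 234, 236, 237, 238, 239, 240, 255, 259, 260, 261, 262, 267, 268, 269, 273, 274, 275, 284, 285, 286, 287, 288, 289, 291, 292, 295, 297, 298, 299, 302, 303, 304, 305, 306, 307, 309, 311, 312, 323, 324, 325, 326, 327, 332, 333, 334, 335, 345, 347, 348, 350, 351, 355, 356, 366, 367, 368, 369, 370, 371, 375, 376, 377, 378, 382, 394, 395, 396, 403, 417, 422, 423, 429, 430, 431, 432, 433]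

def m7_0 : Base := (1, 1, [(0, [1], [0, 5]), (0, [1], [1, 5]), (0, [0], [2, 3]), (4, [], [4])])

def l7_0 : Cov := [(60, 1, 1, [(0, [1], [0, 5]), (0, [1], [1, 5]), (0, [0], [2, 3]), (4, [], [4])]),
  (-60, 1, 1, [(0, [1], [0, 5]), (0, [1], [1, 5]), (0, [0], [2, 4]), (4, [], [3])]),
  (60, 1, 1, [(0, [1], [0, 5]), (0, [1], [2, 5]), (0, [0], [1, 3]), (4, [], [4])]),
  (-60, 1, 1, [(0, [1], [0, 5]), (0, [1], [2, 5]), (0, [0], [1, 4]), (4, [], [3])]),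
  (-60, 1, 1, [(0, [1], [1, 5]), (0, [1], [3, 5]), (0, [0], [2, 0]), (4, [], [4])]),
  (60, 1, 1, [(0, [1], [1, 5]), (0, [1], [3, 5]), (0, [0], [2, 4]), (4, [], [0])]),
  (60, 1, 1, [(0, [1], [1, 5]), (0, [1], [4, 5]), (0, [0], [2, 0]), (4, [], [3])]),
  (-60, 1, 1, [(0, [1], [1, 5]), (0, [1], [4, 5]), (0, [0], [2, 3]), (4, [], [0])]),
  (-60, 1, 1, [(0, [1], [2, 5]), (0, [1], [3, 5]), (0, [0], [1, 0]), (4, [], [4])]),
  (60, 1, 1, [(0, [1], [2, 5]), (0, [1], [3, 5]), (0, [0], [1, 4]), (4, [], [0])]),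
  (60, 1, 1, [(0, [1], [2, 5]), (0, [1], [4, 5]), (0, [0], [1, 0]), (4, [], [3])]),
  (-60, 1, 1, [(0, [1], [2, 5]), (0, [1], [4, 5]), (0, [0], [1, 3]), (4, [], [0])])]

def z7_0 : Cov := [(0, 1, 1, [(0, [1], [0, 5]), (0, [1], [1, 5]), (0, [0], [3, 4]), (4, [], [2])]),
  (0, 1, 1, [(0, [1], [0, 5]), (0, [1], [2, 5]), (0, [0], [3, 4]), (4, [], [1])]),
  (0, 1, 1, [(0, [1], [0, 5]), (0, [1], [3, 5]), (0, [0], [1, 2]), (4, [], [4])]),
  (0, 1, 1, [(0, [1], [0, 5]), (0, [1], [3, 5]), (0, [0], [1, 4]), (4, [], [2])]),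
  (0, 1, 1, [(0, [1], [0, 5]), (0, [1], [3, 5]), (0, [0], [2, 4]), (4, [], [1])]),
  (0, 1, 1, [(0, [1], [0, 5]), (0, [1], [4, 5]), (0, [0], [1, 2]), (4, [], [3])]),
  (0, 1, 1, [(0, [1], [0, 5]), (0, [1], [4, 5]), (0, [0], [1, 3]), (4, [], [2])]),
  (0, 1, 1, [(0, [1], [0, 5]), (0, [1], [4, 5]), (0, [0], [2, 3]), (4, [], [1])]),
  (0, 1, 1, [(0, [1], [1, 5]), (0, [1], [2, 5]), (0, [0], [0, 3]), (4, [], [4])]),
  (0, 1, 1, [(0, [1], [1, 5]), (0, [1], [2, 5]), (0, [0], [0, 4]), (4, [], [3])]),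
  (0, 1, 1, [(0, [1], [1, 5]), (0, [1], [2, 5]), (0, [0], [3, 4]), (4, [], [0])]),
  (0, 1, 1, [(0, [1], [3, 5]), (0, [1], [1, 5]), (0, [0], [0, 4]), (4, [], [2])]),
  (0, 1, 1, [(0, [1], [3, 5]), (0, [1], [2, 5]), (0, [0], [0, 4]), (4, [], [1])]),
  (0, 1, 1, [(0, [1], [3, 5]), (0, [1], [4, 5]), (0, [0], [1, 0]), (4, [], [2])]),
  (0, 1, 1, [(0, [1], [3, 5]), (0, [1], [4, 5]), (0, [0], [1, 2]), (4, [], [0])]),
  (0, 1, 1, [(0, [1], [3, 5]), (0, [1], [4, 5]), (0, [0], [2, 0]), (4, [], [1])]),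
  (0, 1, 1, [(0, [1], [4, 5]), (0, [1], [1, 5]), (0, [0], [0, 3]), (4, [], [2])]),
  (0, 1, 1, [(0, [1], [4, 5]), (0, [1], [2, 5]), (0, [0], [0, 3]), (4, [], [1])])]

def w7_0 : List (List Wit) := [[(0, 0, 0, 0, 0), (1, 0, 0, 0, 0), (0, 0, 0, 0, 0), (12, 0, 0, 0, 0), (1, 0, 0, 0, 0), (12, 0, 0, 0, 0), (2, 0, 0, 0, 0), (3, 0, 0, 0, 0), (2, 0, 0, 0, 0), (13, 0, 0, 0, 0), (3, 0, 0, 0, 0), (13, 0, 0, 0, 0), (14, 0, 0, 0, 0), (15, 0, 0, 0, 0), (14, 0, 0, 0, 0), (16, 0, 0, 0, 0), (17, 0, 0, 0, 0), (18, 0, 0, 0, 0), (17, 0, 0, 0, 0), (19, 0, 0, 0, 0), (0, 0, 0, 0, 0), (1, 0, 0, 0, 0), (20, 0, 0, 0, 0), (21, 0, 0, 0, 0), (20, 0, 0, 0, 0), (22, 0, 0, 0, 0), (21, 0, 0, 0, 0), (22, 0, 0, 0, 0), (4, 0, 0, 0, 0), (5, 0, 0, 0, 0), (6, 0, 0, 0, 0), (7, 0, 0, 0, 0), (2, 0, 0, 0, 0), (3, 0, 0, 0, 0), (20, 0, 0, 0, 0), (21, 0, 0, 0, 0), (20, 0, 0, 0, 0), (22, 0, 0, 0, 0), (21, 0, 0, 0, 0), (22, 0, 0,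 0, 0), (8, 0, 0, 0, 0), (9, 0, 0, 0, 0), (10, 0, 0, 0, 0), (11, 0, 0, 0, 0), (14, 0, 0, 0, 0), (15, 0, 0, 0, 0), (14, 0, 0, 0, 0), (16, 0, 0, 0, 0), (4, 0, 0, 0, 0), (23, 0, 0, 0, 0), (4, 0, 0, 0, 0), (5, 0, 0, 0, 0), (23, 0, 0, 0, 0), (5, 0, 0, 0, 0), (8, 0, 0, 0, 0), (24, 0, 0, 0, 0), (8, 0, 0, 0, 0), (9, 0, 0, 0, 0), (24, 0, 0, 0, 0), (9, 0, 0, 0, 0), (25, 0, 0, 0, 0), (26, 0, 0, 0, 0), (27, 0, 0, 0, 0), (26, 0, 0, 0, 0), (17, 0, 0, 0, 0), (18, 0, 0, 0, 0), (17, 0, 0, 0, 0), (19, 0, 0, 0, 0), (6, 0, 0, 0, 0), (28, 0, 0, 0, 0), (6, 0, 0, 0, 0), (7, 0, 0, 0, 0), (28, 0, 0, 0, 0), (7, 0, 0, 0, 0), (10, 0, 0, 0, 0), (29, 0, 0, 0, 0), (10, 0, 0, 0, 0), (11, 0, 0, 0, 0), (29, 0, 0, 0, 0), (11, 0, 0, 0, 0), (25, 0, 0, 0, 0), (26, 0, 0, 0, 0), (27, 0, 0, 0, 0), (26, 0, 0, 0, 0)]]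

def m7_1 : Base := (1, 1, [(0, [1], [0, 5]), (0, [1], [1, 2]), (0, [0], [3, 5]), (4, [], [4])])

def l7_1 : Cov := [(72, 1, 1, [(0, [1], [0, 5]), (0, [1], [1, 2]), (0, [0], [3, 5]), (4, [], [4])]),
  (-72, 1, 1, [(0, [1], [0, 5]), (0, [1], [1, 2]), (0, [0], [4, 5]), (4, [], [3])]),
  (24, 1, 1, [(0, [1], [0, 5]), (0, [1], [1, 3]), (0, [0], [2, 5]), (4, [], [4])]),
  (-24, 1, 1, [(0, [1], [0, 5]), (0, [1], [1, 3]), (0, [0], [4, 5]), (4, [], [2])]),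
  (-24, 1, 1, [(0, [1], [0, 5]), (0, [1], [1, 4]), (0, [0], [2, 5]), (4, [], [3])]),
  (24, 1, 1, [(0, [1], [0, 5]), (0, [1], [1, 4]), (0, [0], [3, 5]), (4, [], [2])]),
  (24, 1, 1, [(0, [1], [0, 5]), (0, [1], [2, 3]), (0, [0], [1, 5]), (4, [], [4])]),
  (-24, 1, 1, [(0, [1], [0, 5]), (0, [1], [2, 3]), (0, [0], [4, 5]), (4, [], [1])]),
  (-24, 1, 1, [(0, [1], [0, 5]), (0, [1], [2, 4]), (0, [0], [1, 5]), (4, [], [3])]),
  (24, 1, 1, [(0, [1], [0, 5]), (0, [1], [2, 4]), (0, [0], [3, 5]), (4, [], [1])]),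
  (24, 1, 1, [(0, [1], [1, 5]), (0, [1], [0, 2]), (0, [0], [3, 5]), (4, [], [4])]),
  (-24, 1, 1, [(0, [1], [1, 5]), (0, [1], [0, 2]), (0, [0], [4, 5]), (4, [], [3])]),
  (-24, 1, 1, [(0, [1], [1, 5]), (0, [1], [2, 3]), (0, [0], [0, 5]), (4, [], [4])]),
  (24, 1, 1, [(0, [1], [1, 5]), (0, [1], [2, 3]), (0, [0], [4, 5]), (4, [], [0])]),
  (24, 1, 1, [(0, [1], [1, 5]), (0, [1], [2, 4]), (0, [0], [0, 5]), (4, [], [3])]),
  (-24, 1, 1, [(0, [1], [1, 5]), (0, [1], [2, 4]), (0, [0], [3, 5]), (4, [], [0])]),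
  (24, 1, 1, [(0, [1], [2, 5]), (0, [1], [0, 1]), (0, [0], [3, 5]), (4, [], [4])]),
  (-24, 1, 1, [(0, [1], [2, 5]), (0, [1], [0, 1]), (0, [0], [4, 5]), (4, [], [3])]),
  (-24, 1, 1, [(0, [1], [2, 5]), (0, [1], [1, 3]), (0, [0], [0, 5]), (4, [], [4])]),
  (24, 1, 1, [(0, [1], [2, 5]), (0, [1], [1, 3]), (0, [0], [4, 5]), (4, [], [0])]),
  (24, 1, 1, [(0, [1], [2, 5]), (0, [1], [1, 4]), (0, [0], [0, 5]), (4, [], [3])]),
  (-24, 1, 1, [(0, [1], [2, 5]), (0, [1], [1, 4]), (0, [0], [3, 5]), (4, [], [0])]),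
  (-24, 1, 1, [(0, [1], [3, 5]), (0, [1], [0, 1]), (0, [0], [2, 5]), (4, [], [4])]),
  (24, 1, 1, [(0, [1], [3, 5]), (0, [1], [0, 1]), (0, [0], [4, 5]), (4, [], [2])]),
  (-24, 1, 1, [(0, [1], [3, 5]), (0, [1], [0, 2]), (0, [0], [1, 5]), (4, [], [4])]),
  (24, 1, 1, [(0, [1], [3, 5]), (0, [1], [0, 2]), (0, [0], [4, 5]), (4, [], [1])]),
  (-72, 1, 1, [(0, [1], [3, 5]), (0, [1], [1, 2]), (0, [0], [0, 5]), (4, [], [4])]),
  (72, 1, 1, [(0, [1], [3, 5]), (0, [1], [1, 2]), (0, [0], [4, 5]), (4, [], [0])]),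
  (-24, 1, 1, [(0, [1], [3, 5]), (0, [1], [1, 4]), (0, [0], [0, 5]), (4, [], [2])]),
  (24, 1, 1, [(0, [1], [3, 5]), (0, [1], [1, 4]), (0, [0], [2, 5]), (4, [], [0])]),
  (-24, 1, 1, [(0, [1], [3, 5]), (0, [1], [2, 4]), (0, [0], [0, 5]), (4, [], [1])]),
  (24, 1, 1, [(0, [1], [3, 5]), (0, [1], [2, 4]), (0, [0], [1, 5]), (4, [], [0])]),
  (24, 1, 1, [(0, [1], [4, 5]), (0, [1], [0, 1]), (0, [0], [2, 5]), (4, [], [3])]),
  (-24, 1, 1, [(0, [1], [4, 5]), (0, [1], [0, 1]), (0, [0], [3, 5]), (4, [], [2])]),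
  (24, 1, 1, [(0, [1], [4, 5]), (0, [1], [0, 2]), (0, [0], [1, 5]), (4, [], [3])]),
  (-24, 1, 1, [(0, [1], [4, 5]), (0, [1], [0, 2]), (0, [0], [3, 5]), (4, [], [1])]),
  (72, 1, 1, [(0, [1], [4, 5]), (0, [1], [1, 2]), (0, [0], [0, 5]), (4, [], [3])]),
  (-72, 1, 1, [(0, [1], [4, 5]), (0, [1], [1, 2]), (0, [0], [3, 5]), (4, [], [0])]),
  (24, 1, 1, [(0, [1], [4, 5]), (0, [1], [1, 3]), (0, [0], [0, 5]), (4, [], [2])]),
  (-24, 1, 1, [(0, [1], [4, 5]), (0, [1], [1, 3]), (0, [0], [2, 5]), (4, [], [0])]),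
  (24, 1, 1, [(0, [1], [4, 5]), (0, [1], [2, 3]), (0, [0], [0, 5]), (4, [], [1])]),
  (-24, 1, 1, [(0, [1], [4, 5]), (0, [1], [2, 3]), (0, [0], [1, 5]), (4, [], [0])])]

def z7_1 : Cov := []

def w7_1 : List (List Wit) := [[(0, 0, 0, 0, 0), (1, 0, 0, 0, 0), (2, 0, 0, 0, 0), (3, 0, 0, 0, 0), (4, 0, 0, 0, 0), (5, 0, 0, 0, 0), (0, 0, 0, 0, 0), (1, 0, 0, 0, 0), (6, 0, 0, 0, 0), (7, 0, 0, 0, 0), (8, 0, 0, 0, 0), (9, 0, 0, 0, 0), (2, 0, 0, 0, 0), (3, 0, 0, 0, 0), (6, 0, 0, 0, 0), (7, 0, 0, 0, 0), (4, 0, 0, 0, 0), (5, 0, 0, 0, 0), (8, 0, 0, 0, 0), (9, 0, 0, 0, 0), (10, 0, 0, 0, 0), (11, 0, 0, 0, 0), (10, 0, 0, 0, 0), (11, 0, 0, 0, 0), (12, 0, 0, 0, 0), (13, 0, 0, 0, 0), (14, 0, 0, 0, 0), (15, 0, 0, 0, 0), (12, 0, 0, 0, 0), (13, 0, 0, 0, 0), (14, 0, 0, 0, 0), (15, 0, 0, 0, 0), (16, 0, 0, 0, 0), (17, 0, 0, 0, 0), (16, 0, 0, 0, 0), (17, 0, 0, 0, 0), (18, 0, 0, 0, 0), (19, 0, 0, 0, 0), (20, 0,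 0, 0, 0), (21, 0, 0, 0, 0), (18, 0, 0, 0, 0), (19, 0, 0, 0, 0), (20, 0, 0, 0, 0), (21, 0, 0, 0, 0), (22, 0, 0, 0, 0), (23, 0, 0, 0, 0), (24, 0, 0, 0, 0), (25, 0, 0, 0, 0), (22, 0, 0, 0, 0), (23, 0, 0, 0, 0), (26, 0, 0, 0, 0), (27, 0, 0, 0, 0), (28, 0, 0, 0, 0), (29, 0, 0, 0, 0), (24, 0, 0, 0, 0), (25, 0, 0, 0, 0), (26, 0, 0, 0, 0), (27, 0, 0, 0, 0), (30, 0, 0, 0, 0), (31, 0, 0, 0, 0), (28, 0, 0, 0, 0), (29, 0, 0, 0, 0), (30, 0, 0, 0, 0), (31, 0, 0, 0, 0), (32, 0, 0, 0, 0), (33, 0, 0, 0, 0), (34, 0, 0, 0, 0), (35, 0, 0, 0, 0), (32, 0, 0, 0, 0), (33, 0, 0, 0, 0), (36, 0, 0, 0, 0), (37, 0, 0, 0, 0), (38, 0, 0, 0, 0), (39, 0, 0, 0, 0), (34, 0, 0, 0, 0), (35, 0, 0, 0, 0), (36, 0, 0, 0, 0), (37, 0, 0, 0, 0), (40, 0, 0, 0, 0), (41, 0, 0, 0, 0), (38, 0, 0, 0, 0), (39, 0, 0, 0, 0), (40, 0, 0, 0, 0), (41, 0, 0, 0, 0)]]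

def m7_2 : Base := (1, 1, [(0, [1], [0, 5]), (0, [1], [1, 3]), (0, [0], [2, 5]), (4, [], [4])])

def l7_2 : Cov := [(48, 1, 1, [(0, [1], [0, 5]), (0, [1], [1, 3]), (0, [0], [2, 5]), (4, [], [4])]),
  (-48, 1, 1, [(0, [1], [0, 5]), (0, [1], [1, 4]), (0, [0], [2, 5]), (4, [], [3])]),
  (24, 1, 1, [(0, [1], [0, 5]), (0, [1], [1, 2]), (0, [0], [3, 5]), (4, [], [4])]),
  (-12, 1, 1, [(0, [1], [0, 5]), (0, [1], [1, 4]), (0, [0], [3, 5]), (4, [], [2])]),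
  (-24, 1, 1, [(0, [1], [0, 5]), (0, [1], [1, 2]), (0, [0], [4, 5]), (4, [], [3])]),
  (12, 1, 1, [(0, [1], [0, 5]), (0, [1], [1, 3]), (0, [0], [4, 5]), (4, [], [2])]),
  (48, 1, 1, [(0, [1], [0, 5]), (0, [1], [2, 3]), (0, [0], [1, 5]), (4, [], [4])]),
  (-48, 1, 1, [(0, [1], [0, 5]), (0, [1], [2, 4]), (0, [0], [1, 5]), (4, [], [3])]),
  (-12, 1, 1, [(0, [1], [0, 5]), (0, [1], [2, 4]), (0, [0], [3, 5]), (4, [], [1])]),
  (12, 1, 1, [(0, [1], [0, 5]), (0, [1], [2, 3]), (0, [0], [4, 5]), (4, [], [1])]),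
  (12, 1, 1, [(0, [1], [1, 5]), (0, [1], [2, 3]), (0, [0], [0, 5]), (4, [], [4])]),
  (-12, 1, 1, [(0, [1], [1, 5]), (0, [1], [2, 4]), (0, [0], [0, 5]), (4, [], [3])]),
  (-12, 1, 1, [(0, [1], [1, 5]), (0, [1], [2, 0]), (0, [0], [3, 5]), (4, [], [4])]),
  (12, 1, 1, [(0, [1], [1, 5]), (0, [1], [2, 4]), (0, [0], [3, 5]), (4, [], [0])]),
  (12, 1, 1, [(0, [1], [1, 5]), (0, [1], [2, 0]), (0, [0], [4, 5]), (4, [], [3])]),
  (-12, 1, 1, [(0, [1], [1, 5]), (0, [1], [2, 3]), (0, [0], [4, 5]), (4, [], [0])]),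
  (12, 1, 1, [(0, [1], [2, 5]), (0, [1], [1, 3]), (0, [0], [0, 5]), (4, [], [4])]),
  (-12, 1, 1, [(0, [1], [2, 5]), (0, [1], [1, 4]), (0, [0], [0, 5]), (4, [], [3])]),
  (-12, 1, 1, [(0, [1], [2, 5]), (0, [1], [1, 0]), (0, [0], [3, 5]), (4, [], [4])]),
  (12, 1, 1, [(0, [1], [2, 5]), (0, [1], [1, 4]), (0, [0], [3, 5]), (4, [], [0])]),
  (12, 1, 1, [(0, [1], [2, 5]), (0, [1], [1, 0]), (0, [0], [4, 5]), (4, [], [3])]),
  (-12, 1, 1, [(0, [1], [2, 5]), (0, [1], [1, 3]), (0, [0], [4, 5]), (4, [], [0])]),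
  (-48, 1, 1, [(0, [1], [3, 5]), (0, [1], [0, 2]), (0, [0], [1, 5]), (4, [], [4])]),
  (-48, 1, 1, [(0, [1], [3, 5]), (0, [1], [0, 1]), (0, [0], [2, 5]), (4, [], [4])]),
  (-24, 1, 1, [(0, [1], [3, 5]), (0, [1], [1, 2]), (0, [0], [0, 5]), (4, [], [4])]),
  (12, 1, 1, [(0, [1], [3, 5]), (0, [1], [1, 4]), (0, [0], [0, 5]), (4, [], [2])]),
  (48, 1, 1, [(0, [1], [3, 5]), (0, [1], [1, 4]), (0, [0], [2, 5]), (4, [], [0])]),
  (-12, 1, 1, [(0, [1], [3, 5]), (0, [1], [1, 0]), (0, [0], [4, 5]), (4, [], [2])]),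
  (24, 1, 1, [(0, [1], [3, 5]), (0, [1], [1, 2]), (0, [0], [4, 5]), (4, [], [0])]),
  (12, 1, 1, [(0, [1], [3, 5]), (0, [1], [2, 4]), (0, [0], [0, 5]), (4, [], [1])]),
  (48, 1, 1, [(0, [1], [3, 5]), (0, [1], [2, 4]), (0, [0], [1, 5]), (4, [], [0])]),
  (-12, 1, 1, [(0, [1], [3, 5]), (0, [1], [2, 0]), (0, [0], [4, 5]), (4, [], [1])]),
  (48, 1, 1, [(0, [1], [4, 5]), (0, [1], [0, 2]), (0, [0], [1, 5]), (4, [], [3])]),
  (48, 1, 1, [(0, [1], [4, 5]), (0, [1], [0, 1]), (0, [0], [2, 5]), (4, [], [3])]),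
  (24, 1, 1, [(0, [1], [4, 5]), (0, [1], [1, 2]), (0, [0], [0, 5]), (4, [], [3])]),
  (-12, 1, 1, [(0, [1], [4, 5]), (0, [1], [1, 3]), (0, [0], [0, 5]), (4, [], [2])]),
  (-48, 1, 1, [(0, [1], [4, 5]), (0, [1], [1, 3]), (0, [0], [2, 5]), (4, [], [0])]),
  (12, 1, 1, [(0, [1], [4, 5]), (0, [1], [1, 0]), (0, [0], [3, 5]), (4, [], [2])]),
  (-24, 1, 1, [(0, [1], [4, 5]), (0, [1], [1, 2]), (0, [0], [3, 5]), (4, [], [0])]),
  (-12, 1, 1, [(0, [1], [4, 5]), (0, [1], [2, 3]), (0, [0], [0, 5]), (4, [], [1])]),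
  (-48, 1, 1, [(0, [1], [4, 5]), (0, [1], [2, 3]), (0, [0], [1, 5]), (4, [], [0])]),
  (12, 1, 1, [(0, [1], [4, 5]), (0, [1], [2, 0]), (0, [0], [3, 5]), (4, [], [1])])]

def z7_2 : Cov := [(0, 1, 1, [(0, [1], [0, 5]), (0, [1], [3, 4]), (0, [0], [1, 5]), (4, [], [2])]),
  (0, 1, 1, [(0, [1], [0, 5]), (0, [1], [3, 4]), (0, [0], [2, 5]), (4, [], [1])]),
  (0, 1, 1, [(0, [1], [1, 5]), (0, [1], [0, 3]), (0, [0], [2, 5]), (4, [], [4])]),
  (0, 1, 1, [(0, [1], [1, 5]), (0, [1], [0, 4]), (0, [0], [2, 5]), (4, [], [3])]),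
  (0, 1, 1, [(0, [1], [1, 5]), (0, [1], [3, 4]), (0, [0], [2, 5]), (4, [], [0])]),
  (0, 1, 1, [(0, [1], [2, 5]), (0, [1], [0, 3]), (0, [0], [1, 5]), (4, [], [4])]),
  (0, 1, 1, [(0, [1], [2, 5]), (0, [1], [0, 4]), (0, [0], [1, 5]), (4, [], [3])]),
  (0, 1, 1, [(0, [1], [2, 5]), (0, [1], [3, 4]), (0, [0], [1, 5]), (4, [], [0])]),
  (0, 1, 1, [(0, [1], [3, 5]), (0, [1], [0, 4]), (0, [0], [1, 5]), (4, [], [2])]),
  (0, 1, 1, [(0, [1], [3, 5]), (0, [1], [0, 4]), (0, [0], [2, 5]), (4, [], [1])]),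
  (0, 1, 1, [(0, [1], [4, 5]), (0, [1], [0, 3]), (0, [0], [1, 5]), (4, [], [2])]),
  (0, 1, 1, [(0, [1], [4, 5]), (0, [1], [0, 3]), (0, [0], [2, 5]), (4, [], [1])])]

def w7_2 : List (List Wit) := [[(0, 0, 0, 0, 0), (1, 0, 0, 0, 0), (2, 0, 0, 0, 0), (3, 0, 0, 0, 0), (4, 0, 0, 0, 0), (5, 0, 0, 0, 0), (6, 0, 0, 0, 0), (7, 0, 0, 0, 0), (2, 0, 0, 0, 0), (8, 0, 0, 0, 0), (4, 0, 0, 0, 0), (9, 0, 0, 0, 0), (6, 0, 0, 0, 0), (42, 0, 0, 0, 0), (0, 0, 0, 0, 0), (43, 0, 0, 0, 0), (7, 0, 0, 0, 0), (42, 0, 0, 0, 0), (1, 0, 0, 0, 0), (43, 0, 0, 0, 0), (44, 0, 0, 0, 0), (45, 0, 0, 0, 0), (10, 0, 0, 0, 0), (11, 0, 0, 0, 0), (12, 0, 0, 0, 0), (13, 0, 0, 0, 0), (14, 0, 0, 0, 0), (15, 0, 0, 0, 0), (44, 0, 0, 0, 0), (46, 0, 0, 0, 0), (45, 0, 0, 0, 0), (46, 0, 0, 0, 0), (47, 0, 0, 0, 0), (48, 0, 0, 0, 0), (16, 0, 0, 0, 0), (17, 0, 0, 0, 0), (18, 0, 0, 0, 0), (19, 0, 0, 0, 0), (20, 0, 0, 0, 0), (21, 0, 0,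 0, 0), (47, 0, 0, 0, 0), (49, 0, 0, 0, 0), (48, 0, 0, 0, 0), (49, 0, 0, 0, 0), (22, 0, 0, 0, 0), (50, 0, 0, 0, 0), (23, 0, 0, 0, 0), (51, 0, 0, 0, 0), (24, 0, 0, 0, 0), (25, 0, 0, 0, 0), (23, 0, 0, 0, 0), (26, 0, 0, 0, 0), (27, 0, 0, 0, 0), (28, 0, 0, 0, 0), (24, 0, 0, 0, 0), (29, 0, 0, 0, 0), (22, 0, 0, 0, 0), (30, 0, 0, 0, 0), (31, 0, 0, 0, 0), (28, 0, 0, 0, 0), (50, 0, 0, 0, 0), (30, 0, 0, 0, 0), (51, 0, 0, 0, 0), (26, 0, 0, 0, 0), (32, 0, 0, 0, 0), (52, 0, 0, 0, 0), (33, 0, 0, 0, 0), (53, 0, 0, 0, 0), (34, 0, 0, 0, 0), (35, 0, 0, 0, 0), (33, 0, 0, 0, 0), (36, 0, 0, 0, 0), (37, 0, 0, 0, 0), (38, 0, 0, 0, 0), (34, 0, 0, 0, 0), (39, 0, 0, 0, 0), (32, 0, 0, 0, 0), (40, 0, 0, 0, 0), (41, 0, 0, 0, 0), (38, 0, 0, 0, 0), (52, 0, 0, 0, 0), (40, 0, 0, 0, 0), (53, 0, 0, 0, 0), (36, 0, 0, 0, 0)]]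

def m7_3 : Base := (1, 1, [(0, [1], [0, 5]), (0, [1], [1, 3]), (0, [0], [2, 4]), (4, [], [5])])

def l7_3 : Cov := [(60, 1, 1, [(0, [1], [0, 5]), (0, [1], [1, 3]), (0, [0], [2, 4]), (4, [], [5])]),
  (-60, 1, 1, [(0, [1], [0, 5]), (0, [1], [1, 4]), (0, [0], [2, 3]), (4, [], [5])]),
  (60, 1, 1, [(0, [1], [0, 5]), (0, [1], [2, 3]), (0, [0], [1, 4]), (4, [], [5])]),
  (-60, 1, 1, [(0, [1], [0, 5]), (0, [1], [2, 4]), (0, [0], [1, 3]), (4, [], [5])]),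
  (-60, 1, 1, [(0, [1], [3, 5]), (0, [1], [0, 2]), (0, [0], [1, 4]), (4, [], [5])]),
  (-60, 1, 1, [(0, [1], [3, 5]), (0, [1], [0, 1]), (0, [0], [2, 4]), (4, [], [5])]),
  (60, 1, 1, [(0, [1], [3, 5]), (0, [1], [1, 4]), (0, [0], [0, 2]), (4, [], [5])]),
  (60, 1, 1, [(0, [1], [3, 5]), (0, [1], [2, 4]), (0, [0], [0, 1]), (4, [], [5])]),
  (60, 1, 1, [(0, [1], [4, 5]), (0, [1], [0, 2]), (0, [0], [1, 3]), (4, [], [5])]),
  (60, 1, 1, [(0, [1], [4, 5]), (0, [1], [0, 1]), (0, [0], [2, 3]), (4, [], [5])]),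
  (-60, 1, 1, [(0, [1], [4, 5]), (0, [1], [1, 3]), (0, [0], [0, 2]), (4, [], [5])]),
  (-60, 1, 1, [(0, [1], [4, 5]), (0, [1], [2, 3]), (0, [0], [0, 1]), (4, [], [5])])]

def z7_3 : Cov := [(0, 1, 1, [(0, [1], [0, 5]), (0, [1], [1, 2]), (0, [0], [3, 4]), (4, [], [5])]),
  (0, 1, 1, [(0, [1], [0, 5]), (0, [1], [3, 4]), (0, [0], [1, 2]), (4, [], [5])]),
  (0, 1, 1, [(0, [1], [1, 5]), (0, [1], [0, 3]), (0, [0], [2, 4]), (4, [], [5])]),
  (0, 1, 1, [(0, [1], [1, 5]), (0, [1], [0, 4]), (0, [0], [2, 3]), (4, [], [5])]),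
  (0, 1, 1, [(0, [1], [1, 5]), (0, [1], [2, 3]), (0, [0], [0, 4]), (4, [], [5])]),
  (0, 1, 1, [(0, [1], [1, 5]), (0, [1], [2, 4]), (0, [0], [0, 3]), (4, [], [5])]),
  (0, 1, 1, [(0, [1], [1, 5]), (0, [1], [2, 0]), (0, [0], [3, 4]), (4, [], [5])]),
  (0, 1, 1, [(0, [1], [1, 5]), (0, [1], [3, 4]), (0, [0], [2, 0]), (4, [], [5])]),
  (0, 1, 1, [(0, [1], [2, 5]), (0, [1], [0, 3]), (0, [0], [1, 4]), (4, [], [5])]),
  (0, 1, 1, [(0, [1], [2, 5]), (0, [1], [0, 4]), (0, [0], [1, 3]), (4, [], [5])]),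
  (0, 1, 1, [(0, [1], [2, 5]), (0, [1], [1, 3]), (0, [0], [0, 4]), (4, [], [5])]),
  (0, 1, 1, [(0, [1], [2, 5]), (0, [1], [1, 4]), (0, [0], [0, 3]), (4, [], [5])]),
  (0, 1, 1, [(0, [1], [2, 5]), (0, [1], [1, 0]), (0, [0], [3, 4]), (4, [], [5])]),
  (0, 1, 1, [(0, [1], [2, 5]), (0, [1], [3, 4]), (0, [0], [1, 0]), (4, [], [5])]),
  (0, 1, 1, [(0, [1], [3, 5]), (0, [1], [0, 4]), (0, [0], [1, 2]), (4, [], [5])]),
  (0, 1, 1, [(0, [1], [3, 5]), (0, [1], [1, 2]), (0, [0], [0, 4]), (4, [], [5])]),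
  (0, 1, 1, [(0, [1], [4, 5]), (0, [1], [0, 3]), (0, [0], [1, 2]), (4, [], [5])]),
  (0, 1, 1, [(0, [1], [4, 5]), (0, [1], [1, 2]), (0, [0], [0, 3]), (4, [], [5])])]

def w7_3 : List (List Wit) := [[(0, 0, 0, 0, 0), (1, 0, 0, 0, 0), (12, 0, 0, 0, 0), (1, 0, 0, 0, 0), (12, 0, 0, 0, 0), (0, 0, 0, 0, 0), (2, 0, 0, 0, 0), (3, 0, 0, 0, 0), (12, 0, 0, 0, 0), (3, 0, 0, 0, 0), (12, 0, 0, 0, 0), (2, 0, 0, 0, 0), (2, 0, 0, 0, 0), (13, 0, 0, 0, 0), (0, 0, 0, 0, 0), (13, 0, 0, 0, 0), (3, 0, 0, 0, 0), (13, 0, 0, 0, 0), (1, 0, 0, 0, 0), (13, 0, 0, 0, 0), (14, 0, 0, 0, 0), (15, 0, 0, 0, 0), (16, 0, 0, 0, 0), (17, 0, 0, 0, 0), (18, 0, 0, 0, 0), (17, 0, 0, 0, 0), (18, 0, 0, 0, 0), (16, 0, 0, 0, 0), (14, 0, 0, 0, 0), (19, 0, 0, 0, 0), (15, 0, 0, 0, 0), (19, 0, 0, 0, 0), (20, 0, 0, 0, 0), (21, 0, 0, 0, 0), (22, 0, 0, 0, 0), (23, 0, 0, 0, 0), (24, 0, 0, 0, 0), (23, 0, 0, 0, 0), (24, 0, 0, 0, 0), (22, 0,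 0, 0, 0), (20, 0, 0, 0, 0), (25, 0, 0, 0, 0), (21, 0, 0, 0, 0), (25, 0, 0, 0, 0), (4, 0, 0, 0, 0), (26, 0, 0, 0, 0), (5, 0, 0, 0, 0), (26, 0, 0, 0, 0), (27, 0, 0, 0, 0), (6, 0, 0, 0, 0), (5, 0, 0, 0, 0), (6, 0, 0, 0, 0), (5, 0, 0, 0, 0), (27, 0, 0, 0, 0), (27, 0, 0, 0, 0), (7, 0, 0, 0, 0), (4, 0, 0, 0, 0), (7, 0, 0, 0, 0), (4, 0, 0, 0, 0), (27, 0, 0, 0, 0), (26, 0, 0, 0, 0), (7, 0, 0, 0, 0), (26, 0, 0, 0, 0), (6, 0, 0, 0, 0), (8, 0, 0, 0, 0), (28, 0, 0, 0, 0), (9, 0, 0, 0, 0), (28, 0, 0, 0, 0), (29, 0, 0, 0, 0), (10, 0, 0, 0, 0), (9, 0, 0, 0, 0), (10, 0, 0, 0, 0), (9, 0, 0, 0, 0), (29, 0, 0, 0, 0), (29, 0, 0, 0, 0), (11, 0, 0, 0, 0), (8, 0, 0, 0, 0), (11, 0, 0, 0, 0), (8, 0, 0, 0, 0), (29, 0, 0, 0, 0), (28, 0, 0, 0, 0), (11, 0, 0, 0, 0), (28, 0, 0, 0, 0), (10, 0, 0, 0, 0)]]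

def m7_4 : Base := (1, 1, [(0, [1], [0, 5]), (0, [1], [1, 3]), (0, [0], [4, 5]), (4, [], [2])])

def l7_4 : Cov := [(48, 1, 1, [(0, [1], [0, 5]), (0, [1], [1, 3]), (0, [0], [4, 5]), (4, [], [2])]),
  (-48, 1, 1, [(0, [1], [0, 5]), (0, [1], [1, 4]), (0, [0], [3, 5]), (4, [], [2])]),
  (24, 1, 1, [(0, [1], [0, 5]), (0, [1], [1, 2]), (0, [0], [4, 5]), (4, [], [3])]),
  (-12, 1, 1, [(0, [1], [0, 5]), (0, [1], [1, 4]), (0, [0], [2, 5]), (4, [], [3])]),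
  (-24, 1, 1, [(0, [1], [0, 5]), (0, [1], [1, 2]), (0, [0], [3, 5]), (4, [], [4])]),
  (12, 1, 1, [(0, [1], [0, 5]), (0, [1], [1, 3]), (0, [0], [2, 5]), (4, [], [4])]),
  (48, 1, 1, [(0, [1], [0, 5]), (0, [1], [2, 3]), (0, [0], [4, 5]), (4, [], [1])]),
  (-48, 1, 1, [(0, [1], [0, 5]), (0, [1], [2, 4]), (0, [0], [3, 5]), (4, [], [1])]),
  (-12, 1, 1, [(0, [1], [0, 5]), (0, [1], [2, 4]), (0, [0], [1, 5]), (4, [], [3])]),
  (12, 1, 1, [(0, [1], [0, 5]), (0, [1], [2, 3]), (0, [0], [1, 5]), (4, [], [4])]),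
  (12, 1, 1, [(0, [1], [1, 5]), (0, [1], [2, 3]), (0, [0], [4, 5]), (4, [], [0])]),
  (-12, 1, 1, [(0, [1], [1, 5]), (0, [1], [2, 4]), (0, [0], [3, 5]), (4, [], [0])]),
  (-12, 1, 1, [(0, [1], [1, 5]), (0, [1], [2, 0]), (0, [0], [4, 5]), (4, [], [3])]),
  (12, 1, 1, [(0, [1], [1, 5]), (0, [1], [2, 4]), (0, [0], [0, 5]), (4, [], [3])]),
  (12, 1, 1, [(0, [1], [1, 5]), (0, [1], [2, 0]), (0, [0], [3, 5]), (4, [], [4])]),
  (-12, 1, 1, [(0, [1], [1, 5]), (0, [1], [2, 3]), (0, [0], [0, 5]), (4, [], [4])]),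
  (12, 1, 1, [(0, [1], [2, 5]), (0, [1], [1, 3]), (0, [0], [4, 5]), (4, [], [0])]),
  (-12, 1, 1, [(0, [1], [2, 5]), (0, [1], [1, 4]), (0, [0], [3, 5]), (4, [], [0])]),
  (-12, 1, 1, [(0, [1], [2, 5]), (0, [1], [1, 0]), (0, [0], [4, 5]), (4, [], [3])]),
  (12, 1, 1, [(0, [1], [2, 5]), (0, [1], [1, 4]), (0, [0], [0, 5]), (4, [], [3])]),
  (12, 1, 1, [(0, [1], [2, 5]), (0, [1], [1, 0]), (0, [0], [3, 5]), (4, [], [4])]),
  (-12, 1, 1, [(0, [1], [2, 5]), (0, [1], [1, 3]), (0, [0], [0, 5]), (4, [], [4])]),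
  (-48, 1, 1, [(0, [1], [3, 5]), (0, [1], [0, 2]), (0, [0], [4, 5]), (4, [], [1])]),
  (-48, 1, 1, [(0, [1], [3, 5]), (0, [1], [0, 1]), (0, [0], [4, 5]), (4, [], [2])]),
  (-24, 1, 1, [(0, [1], [3, 5]), (0, [1], [1, 2]), (0, [0], [4, 5]), (4, [], [0])]),
  (12, 1, 1, [(0, [1], [3, 5]), (0, [1], [1, 4]), (0, [0], [2, 5]), (4, [], [0])]),
  (48, 1, 1, [(0, [1], [3, 5]), (0, [1], [1, 4]), (0, [0], [0, 5]), (4, [], [2])]),
  (-12, 1, 1, [(0, [1], [3, 5]), (0, [1], [1, 0]), (0, [0], [2, 5]), (4, [], [4])]),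
  (24, 1, 1, [(0, [1], [3, 5]), (0, [1], [1, 2]), (0, [0], [0, 5]), (4, [], [4])]),
  (12, 1, 1, [(0, [1], [3, 5]), (0, [1], [2, 4]), (0, [0], [1, 5]), (4, [], [0])]),
  (48, 1, 1, [(0, [1], [3, 5]), (0, [1], [2, 4]), (0, [0], [0, 5]), (4, [], [1])]),
  (-12, 1, 1, [(0, [1], [3, 5]), (0, [1], [2, 0]), (0, [0], [1, 5]), (4, [], [4])]),
  (48, 1, 1, [(0, [1], [4, 5]), (0, [1], [0, 2]), (0, [0], [3, 5]), (4, [], [1])]),
  (48, 1, 1, [(0, [1], [4, 5]), (0, [1], [0, 1]), (0, [0], [3, 5]), (4, [], [2])]),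
  (24, 1, 1, [(0, [1], [4, 5]), (0, [1], [1, 2]), (0, [0], [3, 5]), (4, [], [0])]),
  (-12, 1, 1, [(0, [1], [4, 5]), (0, [1], [1, 3]), (0, [0], [2, 5]), (4, [], [0])]),
  (-48, 1, 1, [(0, [1], [4, 5]), (0, [1], [1, 3]), (0, [0], [0, 5]), (4, [], [2])]),
  (12, 1, 1, [(0, [1], [4, 5]), (0, [1], [1, 0]), (0, [0], [2, 5]), (4, [], [3])]),
  (-24, 1, 1, [(0, [1], [4, 5]), (0, [1], [1, 2]), (0, [0], [0, 5]), (4, [], [3])]),
  (-12, 1, 1, [(0, [1], [4, 5]), (0, [1], [2, 3]), (0, [0], [1, 5]), (4, [], [0])]),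
  (-48, 1, 1, [(0, [1], [4, 5]), (0, [1], [2, 3]), (0, [0], [0, 5]), (4, [], [1])]),
  (12, 1, 1, [(0, [1], [4, 5]), (0, [1], [2, 0]), (0, [0], [1, 5]), (4, [], [3])])]

def z7_4 : Cov := [(0, 1, 1, [(0, [1], [0, 5]), (0, [1], [3, 4]), (0, [0], [2, 5]), (4, [], [1])]),
  (0, 1, 1, [(0, [1], [0, 5]), (0, [1], [3, 4]), (0, [0], [1, 5]), (4, [], [2])]),
  (0, 1, 1, [(0, [1], [1, 5]), (0, [1], [0, 3]), (0, [0], [4, 5]), (4, [], [2])]),
  (0, 1, 1, [(0, [1], [1, 5]), (0, [1], [0, 4]), (0, [0], [3, 5]), (4, [], [2])]),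
  (0, 1, 1, [(0, [1], [1, 5]), (0, [1], [3, 4]), (0, [0], [0, 5]), (4, [], [2])]),
  (0, 1, 1, [(0, [1], [2, 5]), (0, [1], [0, 3]), (0, [0], [4, 5]), (4, [], [1])]),
  (0, 1, 1, [(0, [1], [2, 5]), (0, [1], [0, 4]), (0, [0], [3, 5]), (4, [], [1])]),
  (0, 1, 1, [(0, [1], [2, 5]), (0, [1], [3, 4]), (0, [0], [0, 5]), (4, [], [1])]),
  (0, 1, 1, [(0, [1], [3, 5]), (0, [1], [0, 4]), (0, [0], [2, 5]), (4, [], [1])]),
  (0, 1, 1, [(0, [1], [3, 5]), (0, [1], [0, 4]), (0, [0], [1, 5]), (4, [], [2])]),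
  (0, 1, 1, [(0, [1], [4, 5]), (0, [1], [0, 3]), (0, [0], [2, 5]), (4, [], [1])]),
  (0, 1, 1, [(0, [1], [4, 5]), (0, [1], [0, 3]), (0, [0], [1, 5]), (4, [], [2])])]

def w7_4 : List (List Wit) := [[(0, 0, 0, 0, 0), (1, 0, 0, 0, 0), (2, 0, 0, 0, 0), (3, 0, 0, 0, 0), (4, 0, 0, 0, 0), (5, 0, 0, 0, 0), (6, 0, 0, 0, 0), (7, 0, 0, 0, 0), (2, 0, 0, 0, 0), (8, 0, 0, 0, 0), (4, 0, 0, 0, 0), (9, 0, 0, 0, 0), (6, 0, 0, 0, 0), (42, 0, 0, 0, 0), (0, 0, 0, 0, 0), (43, 0, 0, 0, 0), (7, 0, 0, 0, 0), (42, 0, 0, 0, 0), (1, 0, 0, 0, 0), (43, 0, 0, 0, 0), (44, 0, 0, 0, 0), (45, 0, 0, 0, 0), (10, 0, 0, 0, 0), (11, 0, 0, 0, 0), (12, 0, 0, 0, 0), (13, 0, 0, 0, 0), (14, 0, 0, 0, 0), (15, 0, 0, 0, 0), (44, 0, 0, 0, 0), (46, 0, 0, 0, 0), (45, 0, 0, 0, 0), (46, 0, 0, 0, 0), (47, 0, 0, 0, 0), (48, 0, 0, 0, 0), (16, 0, 0, 0, 0), (17, 0, 0, 0, 0), (18, 0, 0, 0, 0), (19, 0, 0, 0, 0), (20, 0, 0, 0, 0), (21, 0, 0,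 0, 0), (47, 0, 0, 0, 0), (49, 0, 0, 0, 0), (48, 0, 0, 0, 0), (49, 0, 0, 0, 0), (22, 0, 0, 0, 0), (50, 0, 0, 0, 0), (23, 0, 0, 0, 0), (51, 0, 0, 0, 0), (24, 0, 0, 0, 0), (25, 0, 0, 0, 0), (23, 0, 0, 0, 0), (26, 0, 0, 0, 0), (27, 0, 0, 0, 0), (28, 0, 0, 0, 0), (24, 0, 0, 0, 0), (29, 0, 0, 0, 0), (22, 0, 0, 0, 0), (30, 0, 0, 0, 0), (31, 0, 0, 0, 0), (28, 0, 0, 0, 0), (50, 0, 0, 0, 0), (30, 0, 0, 0, 0), (51, 0, 0, 0, 0), (26, 0, 0, 0, 0), (32, 0, 0, 0, 0), (52, 0, 0, 0, 0), (33, 0, 0, 0, 0), (53, 0, 0, 0, 0), (34, 0, 0, 0, 0), (35, 0, 0, 0, 0), (33, 0, 0, 0, 0), (36, 0, 0, 0, 0), (37, 0, 0, 0, 0), (38, 0, 0, 0, 0), (34, 0, 0, 0, 0), (39, 0, 0, 0, 0), (32, 0, 0, 0, 0), (40, 0, 0, 0, 0), (41, 0, 0, 0, 0), (38, 0, 0, 0, 0), (52, 0, 0, 0, 0), (40, 0, 0, 0, 0), (53, 0, 0, 0, 0), (36, 0, 0, 0, 0)]]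

def m7_5 : Base := (0, 1, [(0, [0], [0, 5]), (1, [], [1, 5]), (1, [], [2, 3]), (4, [], [4])])

def l7_5 : Cov := [(48, 0, 1, [(0, [0], [0, 5]), (1, [], [1, 5]), (1, [], [2, 3]), (4, [], [4])]),
  (-48, 0, 1, [(0, [0], [0, 5]), (1, [], [1, 5]), (1, [], [2, 4]), (4, [], [3])]),
  (48, 0, 1, [(0, [0], [0, 5]), (1, [], [2, 5]), (1, [], [1, 3]), (4, [], [4])]),
  (-48, 0, 1, [(0, [0], [0, 5]), (1, [], [2, 5]), (1, [], [1, 4]), (4, [], [3])]),
  (24, 0, 1, [(0, [0], [0, 5]), (1, [], [3, 5]), (1, [], [1, 2]), (4, [], [4])]),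
  (-12, 0, 1, [(0, [0], [0, 5]), (1, [], [3, 5]), (1, [], [1, 4]), (4, [], [2])]),
  (-12, 0, 1, [(0, [0], [0, 5]), (1, [], [3, 5]), (1, [], [2, 4]), (4, [], [1])]),
  (-24, 0, 1, [(0, [0], [0, 5]), (1, [], [4, 5]), (1, [], [1, 2]), (4, [], [3])]),
  (12, 0, 1, [(0, [0], [0, 5]), (1, [], [4, 5]), (1, [], [1, 3]), (4, [], [2])]),
  (12, 0, 1, [(0, [0], [0, 5]), (1, [], [4, 5]), (1, [], [2, 3]), (4, [], [1])]),
  (12, 0, 1, [(0, [0], [1, 5]), (1, [], [0, 5]), (1, [], [2, 3]), (4, [], [4])]),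
  (-12, 0, 1, [(0, [0], [1, 5]), (1, [], [0, 5]), (1, [], [2, 4]), (4, [], [3])]),
  (-12, 0, 1, [(0, [0], [1, 5]), (1, [], [3, 5]), (1, [], [2, 0]), (4, [], [4])]),
  (12, 0, 1, [(0, [0], [1, 5]), (1, [], [3, 5]), (1, [], [2, 4]), (4, [], [0])]),
  (12, 0, 1, [(0, [0], [1, 5]), (1, [], [4, 5]), (1, [], [2, 0]), (4, [], [3])]),
  (-12, 0, 1, [(0, [0], [1, 5]), (1, [], [4, 5]), (1, [], [2, 3]), (4, [], [0])]),
  (12, 0, 1, [(0, [0], [2, 5]), (1, [], [0, 5]), (1, [], [1, 3]), (4, [], [4])]),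
  (-12, 0, 1, [(0, [0], [2, 5]), (1, [], [0, 5]), (1, [], [1, 4]), (4, [], [3])]),
  (-12, 0, 1, [(0, [0], [2, 5]), (1, [], [3, 5]), (1, [], [1, 0]), (4, [], [4])]),
  (12, 0, 1, [(0, [0], [2, 5]), (1, [], [3, 5]), (1, [], [1, 4]), (4, [], [0])]),
  (12, 0, 1, [(0, [0], [2, 5]), (1, [], [4, 5]), (1, [], [1, 0]), (4, [], [3])]),
  (-12, 0, 1, [(0, [0], [2, 5]), (1, [], [4, 5]), (1, [], [1, 3]), (4, [], [0])]),
  (-24, 0, 1, [(0, [0], [3, 5]), (1, [], [0, 5]), (1, [], [1, 2]), (4, [], [4])]),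
  (12, 0, 1, [(0, [0], [3, 5]), (1, [], [0, 5]), (1, [], [1, 4]), (4, [], [2])]),
  (12, 0, 1, [(0, [0], [3, 5]), (1, [], [0, 5]), (1, [], [2, 4]), (4, [], [1])]),
  (-48, 0, 1, [(0, [0], [3, 5]), (1, [], [1, 5]), (1, [], [0, 2]), (4, [], [4])]),
  (48, 0, 1, [(0, [0], [3, 5]), (1, [], [1, 5]), (1, [], [2, 4]), (4, [], [0])]),
  (-48, 0, 1, [(0, [0], [3, 5]), (1, [], [2, 5]), (1, [], [0, 1]), (4, [], [4])]),
  (48, 0, 1, [(0, [0], [3, 5]), (1, [], [2, 5]), (1, [], [1, 4]), (4, [], [0])]),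
  (-12, 0, 1, [(0, [0], [3, 5]), (1, [], [4, 5]), (1, [], [1, 0]), (4, [], [2])]),
  (24, 0, 1, [(0, [0], [3, 5]), (1, [], [4, 5]), (1, [], [1, 2]), (4, [], [0])]),
  (-12, 0, 1, [(0, [0], [3, 5]), (1, [], [4, 5]), (1, [], [2, 0]), (4, [], [1])]),
  (24, 0, 1, [(0, [0], [4, 5]), (1, [], [0, 5]), (1, [], [1, 2]), (4, [], [3])]),
  (-12, 0, 1, [(0, [0], [4, 5]), (1, [], [0, 5]), (1, [], [1, 3]), (4, [], [2])]),
  (-12, 0, 1, [(0, [0], [4, 5]), (1, [], [0, 5]), (1, [], [2, 3]), (4, [], [1])]),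
  (48, 0, 1, [(0, [0], [4, 5]), (1, [], [1, 5]), (1, [], [0, 2]), (4, [], [3])]),
  (-48, 0, 1, [(0, [0], [4, 5]), (1, [], [1, 5]), (1, [], [2, 3]), (4, [], [0])]),
  (48, 0, 1, [(0, [0], [4, 5]), (1, [], [2, 5]), (1, [], [0, 1]), (4, [], [3])]),
  (-48, 0, 1, [(0, [0], [4, 5]), (1, [], [2, 5]), (1, [], [1, 3]), (4, [], [0])]),
  (12, 0, 1, [(0, [0], [4, 5]), (1, [], [3, 5]), (1, [], [1, 0]), (4, [], [2])]),
  (-24, 0, 1, [(0, [0], [4, 5]), (1, [], [3, 5]), (1, [], [1, 2]), (4, [], [0])]),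
  (12, 0, 1, [(0, [0], [4, 5]), (1, [], [3, 5]), (1, [], [2, 0]), (4, [], [1])])]

def z7_5 : Cov := [(0, 0, 1, [(0, [0], [0, 5]), (1, [], [1, 5]), (1, [], [3, 4]), (4, [], [2])]),
  (0, 0, 1, [(0, [0], [0, 5]), (1, [], [2, 5]), (1, [], [3, 4]), (4, [], [1])]),
  (0, 0, 1, [(0, [0], [1, 5]), (1, [], [2, 5]), (1, [], [0, 3]), (4, [], [4])]),
  (0, 0, 1, [(0, [0], [1, 5]), (1, [], [2, 5]), (1, [], [0, 4]), (4, [], [3])]),
  (0, 0, 1, [(0, [0], [1, 5]), (1, [], [2, 5]), (1, [], [3, 4]), (4, [], [0])]),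
  (0, 0, 1, [(0, [0], [2, 5]), (1, [], [1, 5]), (1, [], [0, 3]), (4, [], [4])]),
  (0, 0, 1, [(0, [0], [2, 5]), (1, [], [1, 5]), (1, [], [0, 4]), (4, [], [3])]),
  (0, 0, 1, [(0, [0], [2, 5]), (1, [], [1, 5]), (1, [], [3, 4]), (4, [], [0])]),
  (0, 0, 1, [(0, [0], [3, 5]), (1, [], [1, 5]), (1, [], [0, 4]), (4, [], [2])]),
  (0, 0, 1, [(0, [0], [3, 5]), (1, [], [2, 5]), (1, [], [0, 4]), (4, [], [1])]),
  (0, 0, 1, [(0, [0], [4, 5]), (1, [], [1, 5]), (1, [], [0, 3]), (4, [], [2])]),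
  (0, 0, 1, [(0, [0], [4, 5]), (1, [], [2, 5]), (1, [], [0, 3]), (4, [], [1])])]

def w7_5 : List (List Wit) := [[(0, 0, 0, 0, 0), (1, 0, 0, 0, 0), (0, 0, 0, 0, 0), (42, 0, 0, 0, 0), (1, 0, 0, 0, 0), (42, 0, 0, 0, 0), (2, 0, 0, 0, 0), (3, 0, 0, 0, 0), (2, 0, 0, 0, 0), (43, 0, 0, 0, 0), (3, 0, 0, 0, 0), (43, 0, 0, 0, 0), (4, 0, 0, 0, 0), (5, 0, 0, 0, 0), (4, 0, 0, 0, 0), (6, 0, 0, 0, 0), (7, 0, 0, 0, 0), (8, 0, 0, 0, 0), (7, 0, 0, 0, 0), (9, 0, 0, 0, 0), (10, 0, 0, 0, 0), (11, 0, 0, 0, 0), (44, 0, 0, 0, 0), (45, 0, 0, 0, 0), (44, 0, 0, 0, 0), (46, 0, 0, 0, 0), (45, 0, 0, 0, 0), (46, 0, 0, 0, 0), (12, 0, 0, 0, 0), (13, 0, 0, 0, 0), (14, 0, 0, 0, 0), (15, 0, 0, 0, 0), (16, 0, 0, 0, 0), (17, 0, 0, 0, 0), (47, 0, 0, 0, 0), (48, 0, 0, 0, 0), (47, 0, 0, 0, 0), (49, 0, 0, 0, 0), (48, 0, 0, 0, 0), (49, 0, 0, 0, 0), (18, 0, 0, 0, 0), (19, 0, 0, 0, 0), (20, 0, 0, 0, 0), (21, 0, 0, 0, 0), (22,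 0, 0, 0, 0), (23, 0, 0, 0, 0), (22, 0, 0, 0, 0), (24, 0, 0, 0, 0), (25, 0, 0, 0, 0), (50, 0, 0, 0, 0), (25, 0, 0, 0, 0), (26, 0, 0, 0, 0), (50, 0, 0, 0, 0), (26, 0, 0, 0, 0), (27, 0, 0, 0, 0), (51, 0, 0, 0, 0), (27, 0, 0, 0, 0), (28, 0, 0, 0, 0), (51, 0, 0, 0, 0), (28, 0, 0, 0, 0), (29, 0, 0, 0, 0), (30, 0, 0, 0, 0), (31, 0, 0, 0, 0), (30, 0, 0, 0, 0), (32, 0, 0, 0, 0), (33, 0, 0, 0, 0), (32, 0, 0, 0, 0), (34, 0, 0, 0, 0), (35, 0, 0, 0, 0), (52, 0, 0, 0, 0), (35, 0, 0, 0, 0), (36, 0, 0, 0, 0), (52, 0, 0, 0, 0), (36, 0, 0, 0, 0), (37, 0, 0, 0, 0), (53, 0, 0, 0, 0), (37, 0, 0, 0, 0), (38, 0, 0, 0, 0), (53, 0, 0, 0, 0), (38, 0, 0, 0, 0), (39, 0, 0, 0, 0), (40, 0, 0, 0, 0), (41, 0, 0, 0, 0), (40, 0, 0, 0, 0)]]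

def m7_6 : Base := (0, 1, [(0, [0], [0, 5]), (1, [], [1, 2]), (1, [], [3, 5]), (4, [], [4])])

def l7_6 : Cov := [(72, 0, 1, [(0, [0], [0, 5]), (1, [], [1, 2]), (1, [], [3, 5]), (4, [], [4])]),
  (-72, 0, 1, [(0, [0], [0, 5]), (1, [], [1, 2]), (1, [], [4, 5]), (4, [], [3])]),
  (24, 0, 1, [(0, [0], [0, 5]), (1, [], [1, 3]), (1, [], [2, 5]), (4, [], [4])]),
  (-24, 0, 1, [(0, [0], [0, 5]), (1, [], [1, 3]), (1, [], [4, 5]), (4, [], [2])]),
  (-24, 0, 1, [(0, [0], [0, 5]), (1, [], [1, 4]), (1, [], [2, 5]), (4, [], [3])]),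
  (24, 0, 1, [(0, [0], [0, 5]), (1, [], [1, 4]), (1, [], [3, 5]), (4, [], [2])]),
  (24, 0, 1, [(0, [0], [0, 5]), (1, [], [2, 3]), (1, [], [1, 5]), (4, [], [4])]),
  (-24, 0, 1, [(0, [0], [0, 5]), (1, [], [2, 3]), (1, [], [4, 5]), (4, [], [1])]),
  (-24, 0, 1, [(0, [0], [0, 5]), (1, [], [2, 4]), (1, [], [1, 5]), (4, [], [3])]),
  (24, 0, 1, [(0, [0], [0, 5]), (1, [], [2, 4]), (1, [], [3, 5]), (4, [], [1])]),
  (24, 0, 1, [(0, [0], [1, 5]), (1, [], [0, 2]), (1, [], [3, 5]), (4, [], [4])]),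
  (-24, 0, 1, [(0, [0], [1, 5]), (1, [], [0, 2]), (1, [], [4, 5]), (4, [], [3])]),
  (-24, 0, 1, [(0, [0], [1, 5]), (1, [], [2, 3]), (1, [], [0, 5]), (4, [], [4])]),
  (24, 0, 1, [(0, [0], [1, 5]), (1, [], [2, 3]), (1, [], [4, 5]), (4, [], [0])]),
  (24, 0, 1, [(0, [0], [1, 5]), (1, [], [2, 4]), (1, [], [0, 5]), (4, [], [3])]),
  (-24, 0, 1, [(0, [0], [1, 5]), (1, [], [2, 4]), (1, [], [3, 5]), (4, [], [0])]),
  (24, 0, 1, [(0, [0], [2, 5]), (1, [], [0, 1]), (1, [], [3, 5]), (4, [], [4])]),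
  (-24, 0, 1, [(0, [0], [2, 5]), (1, [], [0, 1]), (1, [], [4, 5]), (4, [], [3])]),
  (-24, 0, 1, [(0, [0], [2, 5]), (1, [], [1, 3]), (1, [], [0, 5]), (4, [], [4])]),
  (24, 0, 1, [(0, [0], [2, 5]), (1, [], [1, 3]), (1, [], [4, 5]), (4, [], [0])]),
  (24, 0, 1, [(0, [0], [2, 5]), (1, [], [1, 4]), (1, [], [0, 5]), (4, [], [3])]),
  (-24, 0, 1, [(0, [0], [2, 5]), (1, [], [1, 4]), (1, [], [3, 5]), (4, [], [0])]),
  (-24, 0, 1, [(0, [0], [3, 5]), (1, [], [0, 1]), (1, [], [2, 5]), (4, [], [4])]),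
  (24, 0, 1, [(0, [0], [3, 5]), (1, [], [0, 1]), (1, [], [4, 5]), (4, [], [2])]),
  (-24, 0, 1, [(0, [0], [3, 5]), (1, [], [0, 2]), (1, [], [1, 5]), (4, [], [4])]),
  (24, 0, 1, [(0, [0], [3, 5]), (1, [], [0, 2]), (1, [], [4, 5]), (4, [], [1])]),
  (-72, 0, 1, [(0, [0], [3, 5]), (1, [], [1, 2]), (1, [], [0, 5]), (4, [], [4])]),
  (72, 0, 1, [(0, [0], [3, 5]), (1, [], [1, 2]), (1, [], [4, 5]), (4, [], [0])]),
  (-24, 0, 1, [(0, [0], [3, 5]), (1, [], [1, 4]), (1, [], [0, 5]), (4, [], [2])]),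
  (24, 0, 1, [(0, [0], [3, 5]), (1, [], [1, 4]), (1, [], [2, 5]), (4, [], [0])]),
  (-24, 0, 1, [(0, [0], [3, 5]), (1, [], [2, 4]), (1, [], [0, 5]), (4, [], [1])]),
  (24, 0, 1, [(0, [0], [3, 5]), (1, [], [2, 4]), (1, [], [1, 5]), (4, [], [0])]),
  (24, 0, 1, [(0, [0], [4, 5]), (1, [], [0, 1]), (1, [], [2, 5]), (4, [], [3])]),
  (-24, 0, 1, [(0, [0], [4, 5]), (1, [], [0, 1]), (1, [], [3, 5]), (4, [], [2])]),
  (24, 0, 1, [(0, [0], [4, 5]), (1, [], [0, 2]), (1, [], [1, 5]), (4, [], [3])]),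
  (-24, 0, 1, [(0, [0], [4, 5]), (1, [], [0, 2]), (1, [], [3, 5]), (4, [], [1])]),
  (72, 0, 1, [(0, [0], [4, 5]), (1, [], [1, 2]), (1, [], [0, 5]), (4, [], [3])]),
  (-72, 0, 1, [(0, [0], [4, 5]), (1, [], [1, 2]), (1, [], [3, 5]), (4, [], [0])]),
  (24, 0, 1, [(0, [0], [4, 5]), (1, [], [1, 3]), (1, [], [0, 5]), (4, [], [2])]),
  (-24, 0, 1, [(0, [0], [4, 5]), (1, [], [1, 3]), (1, [], [2, 5]), (4, [], [0])]),
  (24, 0, 1, [(0, [0], [4, 5]), (1, [], [2, 3]), (1, [], [0, 5]), (4, [], [1])]),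
  (-24, 0, 1, [(0, [0], [4, 5]), (1, [], [2, 3]), (1, [], [1, 5]), (4, [], [0])])]

def z7_6 : Cov := []

def w7_6 : List (List Wit) := [[(0, 0, 0, 0, 0), (1, 0, 0, 0, 0), (2, 0, 0, 0, 0), (3, 0, 0, 0, 0), (4, 0, 0, 0, 0), (5, 0, 0, 0, 0), (0, 0, 0, 0, 0), (1, 0, 0, 0, 0), (6, 0, 0, 0, 0), (7, 0, 0, 0, 0), (8, 0, 0, 0, 0), (9, 0, 0, 0, 0), (2, 0, 0, 0, 0), (3, 0, 0, 0, 0), (6, 0, 0, 0, 0), (7, 0, 0, 0, 0), (4, 0, 0, 0, 0), (5, 0, 0, 0, 0), (8, 0, 0, 0, 0), (9, 0, 0, 0, 0), (10, 0, 0, 0, 0), (11, 0, 0, 0, 0), (10, 0, 0, 0, 0), (11, 0, 0, 0, 0), (12, 0, 0, 0, 0), (13, 0, 0, 0, 0), (14, 0, 0, 0, 0), (15, 0, 0, 0, 0), (12, 0, 0, 0, 0), (13, 0, 0, 0, 0), (14, 0, 0, 0, 0), (15, 0, 0, 0, 0), (16, 0, 0, 0, 0), (17, 0, 0, 0, 0), (16, 0, 0, 0, 0), (17, 0, 0, 0, 0), (18, 0, 0, 0, 0), (19, 0, 0, 0, 0), (20, 0, 0, 0, 0), (21, 0, 0, 0, 0), (18, 0, 0, 0, 0), (19, 0, 0, 0, 0), (20, 0, 0, 0, 0), (21,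 0, 0, 0, 0), (22, 0, 0, 0, 0), (23, 0, 0, 0, 0), (24, 0, 0, 0, 0), (25, 0, 0, 0, 0), (22, 0, 0, 0, 0), (23, 0, 0, 0, 0), (26, 0, 0, 0, 0), (27, 0, 0, 0, 0), (28, 0, 0, 0, 0), (29, 0, 0, 0, 0), (24, 0, 0, 0, 0), (25, 0, 0, 0, 0), (26, 0, 0, 0, 0), (27, 0, 0, 0, 0), (30, 0, 0, 0, 0), (31, 0, 0, 0, 0), (28, 0, 0, 0, 0), (29, 0, 0, 0, 0), (30, 0, 0, 0, 0), (31, 0, 0, 0, 0), (32, 0, 0, 0, 0), (33, 0, 0, 0, 0), (34, 0, 0, 0, 0), (35, 0, 0, 0, 0), (32, 0, 0, 0, 0), (33, 0, 0, 0, 0), (36, 0, 0, 0, 0), (37, 0, 0, 0, 0), (38, 0, 0, 0, 0), (39, 0, 0, 0, 0), (34, 0, 0, 0, 0), (35, 0, 0, 0, 0), (36, 0, 0, 0, 0), (37, 0, 0, 0, 0), (40, 0, 0, 0, 0), (41, 0, 0, 0, 0), (38, 0, 0, 0, 0), (39, 0, 0, 0, 0), (40, 0, 0, 0, 0), (41, 0, 0, 0, 0)]]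

def m7_7 : Base := (0, 1, [(0, [0], [0, 5]), (1, [], [1, 3]), (1, [], [4, 5]), (4, [], [2])])

def l7_7 : Cov := [(48, 0, 1, [(0, [0], [0, 5]), (1, [], [1, 3]), (1, [], [4, 5]), (4, [], [2])]),
  (-48, 0, 1, [(0, [0], [0, 5]), (1, [], [1, 4]), (1, [], [3, 5]), (4, [], [2])]),
  (24, 0, 1, [(0, [0], [0, 5]), (1, [], [1, 2]), (1, [], [4, 5]), (4, [], [3])]),
  (-12, 0, 1, [(0, [0], [0, 5]), (1, [], [1, 4]), (1, [], [2, 5]), (4, [], [3])]),
  (-24, 0, 1, [(0, [0], [0, 5]), (1, [], [1, 2]), (1, [], [3, 5]), (4, [], [4])]),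
  (12, 0, 1, [(0, [0], [0, 5]), (1, [], [1, 3]), (1, [], [2, 5]), (4, [], [4])]),
  (48, 0, 1, [(0, [0], [0, 5]), (1, [], [2, 3]), (1, [], [4, 5]), (4, [], [1])]),
  (-48, 0, 1, [(0, [0], [0, 5]), (1, [], [2, 4]), (1, [], [3, 5]), (4, [], [1])]),
  (-12, 0, 1, [(0, [0], [0, 5]), (1, [], [2, 4]), (1, [], [1, 5]), (4, [], [3])]),
  (12, 0, 1, [(0, [0], [0, 5]), (1, [], [2, 3]), (1, [], [1, 5]), (4, [], [4])]),
  (12, 0, 1, [(0, [0], [1, 5]), (1, [], [2, 3]), (1, [], [4, 5]), (4, [], [0])]),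
  (-12, 0, 1, [(0, [0], [1, 5]), (1, [], [2, 4]), (1, [], [3, 5]), (4, [], [0])]),
  (-12, 0, 1, [(0, [0], [1, 5]), (1, [], [2, 0]), (1, [], [4, 5]), (4, [], [3])]),
  (12, 0, 1, [(0, [0], [1, 5]), (1, [], [2, 4]), (1, [], [0, 5]), (4, [], [3])]),
  (12, 0, 1, [(0, [0], [1, 5]), (1, [], [2, 0]), (1, [], [3, 5]), (4, [], [4])]),
  (-12, 0, 1, [(0, [0], [1, 5]), (1, [], [2, 3]), (1, [], [0, 5]), (4, [], [4])]),
  (12, 0, 1, [(0, [0], [2, 5]), (1, [], [1, 3]), (1, [], [4, 5]), (4, [], [0])]),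
  (-12, 0, 1, [(0, [0], [2, 5]), (1, [], [1, 4]), (1, [], [3, 5]), (4, [], [0])]),
  (-12, 0, 1, [(0, [0], [2, 5]), (1, [], [1, 0]), (1, [], [4, 5]), (4, [], [3])]),
  (12, 0, 1, [(0, [0], [2, 5]), (1, [], [1, 4]), (1, [], [0, 5]), (4, [], [3])]),
  (12, 0, 1, [(0, [0], [2, 5]), (1, [], [1, 0]), (1, [], [3, 5]), (4, [], [4])]),
  (-12, 0, 1, [(0, [0], [2, 5]), (1, [], [1, 3]), (1, [], [0, 5]), (4, [], [4])]),
  (-48, 0, 1, [(0, [0], [3, 5]), (1, [], [0, 2]), (1, [], [4, 5]), (4, [], [1])]),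
  (-48, 0, 1, [(0, [0], [3, 5]), (1, [], [0, 1]), (1, [], [4, 5]), (4, [], [2])]),
  (-24, 0, 1, [(0, [0], [3, 5]), (1, [], [1, 2]), (1, [], [4, 5]), (4, [], [0])]),
  (12, 0, 1, [(0, [0], [3, 5]), (1, [], [1, 4]), (1, [], [2, 5]), (4, [], [0])]),
  (48, 0, 1, [(0, [0], [3, 5]), (1, [], [1, 4]), (1, [], [0, 5]), (4, [], [2])]),
  (-12, 0, 1, [(0, [0], [3, 5]), (1, [], [1, 0]), (1, [], [2, 5]), (4, [], [4])]),
  (24, 0, 1, [(0, [0], [3, 5]), (1, [], [1, 2]), (1, [], [0, 5]), (4, [], [4])]),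
  (12, 0, 1, [(0, [0], [3, 5]), (1, [], [2, 4]), (1, [], [1, 5]), (4, [], [0])]),
  (48, 0, 1, [(0, [0], [3, 5]), (1, [], [2, 4]), (1, [], [0, 5]), (4, [], [1])]),
  (-12, 0, 1, [(0, [0], [3, 5]), (1, [], [2, 0]), (1, [], [1, 5]), (4, [], [4])]),
  (48, 0, 1, [(0, [0], [4, 5]), (1, [], [0, 2]), (1, [], [3, 5]), (4, [], [1])]),
  (48, 0, 1, [(0, [0], [4, 5]), (1, [], [0, 1]), (1, [], [3, 5]), (4, [], [2])]),
  (24, 0, 1, [(0, [0], [4, 5]), (1, [], [1, 2]), (1, [], [3, 5]), (4, [], [0])]),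
  (-12, 0, 1, [(0, [0], [4, 5]), (1, [], [1, 3]), (1, [], [2, 5]), (4, [], [0])]),
  (-48, 0, 1, [(0, [0], [4, 5]), (1, [], [1, 3]), (1, [], [0, 5]), (4, [], [2])]),
  (12, 0, 1, [(0, [0], [4, 5]), (1, [], [1, 0]), (1, [], [2, 5]), (4, [], [3])]),
  (-24, 0, 1, [(0, [0], [4, 5]), (1, [], [1, 2]), (1, [], [0, 5]), (4, [], [3])]),
  (-12, 0, 1, [(0, [0], [4, 5]), (1, [], [2, 3]), (1, [], [1, 5]), (4, [], [0])]),
  (-48, 0, 1, [(0, [0], [4, 5]), (1, [], [2, 3]), (1, [], [0, 5]), (4, [], [1])]),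
  (12, 0, 1, [(0, [0], [4, 5]), (1, [], [2, 0]), (1, [], [1, 5]), (4, [], [3])])]

def z7_7 : Cov := [(0, 0, 1, [(0, [0], [0, 5]), (1, [], [3, 4]), (1, [], [2, 5]), (4, [], [1])]),
  (0, 0, 1, [(0, [0], [0, 5]), (1, [], [3, 4]), (1, [], [1, 5]), (4, [], [2])]),
  (0, 0, 1, [(0, [0], [1, 5]), (1, [], [0, 3]), (1, [], [4, 5]), (4, [], [2])]),
  (0, 0, 1, [(0, [0], [1, 5]), (1, [], [0, 4]), (1, [], [3, 5]), (4, [], [2])]),
  (0, 0, 1, [(0, [0], [1, 5]), (1, [], [3, 4]), (1, [], [0, 5]), (4, [], [2])]),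
  (0, 0, 1, [(0, [0], [2, 5]), (1, [], [0, 3]), (1, [], [4, 5]), (4, [], [1])]),
  (0, 0, 1, [(0, [0], [2, 5]), (1, [], [0, 4]), (1, [], [3, 5]), (4, [], [1])]),
  (0, 0, 1, [(0, [0], [2, 5]), (1, [], [3, 4]), (1, [], [0, 5]), (4, [], [1])]),
  (0, 0, 1, [(0, [0], [3, 5]), (1, [], [0, 4]), (1, [], [2, 5]), (4, [], [1])]),
  (0, 0, 1, [(0, [0], [3, 5]), (1, [], [0, 4]), (1, [], [1, 5]), (4, [], [2])]),
  (0, 0, 1, [(0, [0], [4, 5]), (1, [], [0, 3]), (1, [], [2, 5]), (4, [], [1])]),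
  (0, 0, 1, [(0, [0], [4, 5]), (1, [], [0, 3]), (1, [], [1, 5]), (4, [], [2])])]

def w7_7 : List (List Wit) := [[(0, 0, 0, 0, 0), (1, 0, 0, 0, 0), (2, 0, 0, 0, 0), (3, 0, 0, 0, 0), (4, 0, 0, 0, 0), (5, 0, 0, 0, 0), (6, 0, 0, 0, 0), (7, 0, 0, 0, 0), (2, 0, 0, 0, 0), (8, 0, 0, 0, 0), (4, 0, 0, 0, 0), (9, 0, 0, 0, 0), (6, 0, 0, 0, 0), (42, 0, 0, 0, 0), (0, 0, 0, 0, 0), (43, 0, 0, 0, 0), (7, 0, 0, 0, 0), (42, 0, 0, 0, 0), (1, 0, 0, 0, 0), (43, 0, 0, 0, 0), (44, 0, 0, 0, 0), (45, 0, 0, 0, 0), (10, 0, 0, 0, 0), (11, 0, 0, 0, 0), (12, 0, 0, 0, 0), (13, 0, 0, 0, 0), (14, 0, 0, 0, 0), (15, 0, 0, 0, 0), (44, 0, 0, 0, 0), (46, 0, 0, 0, 0), (45, 0, 0, 0, 0), (46, 0, 0, 0, 0), (47, 0, 0, 0, 0), (48, 0, 0, 0, 0), (16, 0, 0, 0, 0), (17, 0, 0, 0, 0), (18, 0, 0, 0, 0), (19, 0, 0, 0, 0), (20, 0, 0, 0, 0), (21, 0, 0, 0, 0), (47, 0, 0, 0, 0), (49, 0, 0, 0, 0), (48, 0, 0, 0, 0), (49, 0, 0, 0, 0), (22,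 0, 0, 0, 0), (50, 0, 0, 0, 0), (23, 0, 0, 0, 0), (51, 0, 0, 0, 0), (24, 0, 0, 0, 0), (25, 0, 0, 0, 0), (23, 0, 0, 0, 0), (26, 0, 0, 0, 0), (27, 0, 0, 0, 0), (28, 0, 0, 0, 0), (24, 0, 0, 0, 0), (29, 0, 0, 0, 0), (22, 0, 0, 0, 0), (30, 0, 0, 0, 0), (31, 0, 0, 0, 0), (28, 0, 0, 0, 0), (50, 0, 0, 0, 0), (30, 0, 0, 0, 0), (51, 0, 0, 0, 0), (26, 0, 0, 0, 0), (32, 0, 0, 0, 0), (52, 0, 0, 0, 0), (33, 0, 0, 0, 0), (53, 0, 0, 0, 0), (34, 0, 0, 0, 0), (35, 0, 0, 0, 0), (33, 0, 0, 0, 0), (36, 0, 0, 0, 0), (37, 0, 0, 0, 0), (38, 0, 0, 0, 0), (34, 0, 0, 0, 0), (39, 0, 0, 0, 0), (32, 0, 0, 0, 0), (40, 0, 0, 0, 0), (41, 0, 0, 0, 0), (38, 0, 0, 0, 0), (52, 0, 0, 0, 0), (40, 0, 0, 0, 0), (53, 0, 0, 0, 0), (36, 0, 0, 0, 0)]]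

def m7_8 : Base := (0, 1, [(0, [0], [0, 1]), (1, [], [2, 3]), (1, [], [4, 5]), (4, [], [5])])

def l7_8 : Cov := [(60, 0, 1, [(0, [0], [0, 1]), (1, [], [2, 3]), (1, [], [4, 5]), (4, [], [5])]),
  (-60, 0, 1, [(0, [0], [0, 1]), (1, [], [2, 4]), (1, [], [3, 5]), (4, [], [5])]),
  (60, 0, 1, [(0, [0], [0, 2]), (1, [], [1, 3]), (1, [], [4, 5]), (4, [], [5])]),
  (-60, 0, 1, [(0, [0], [0, 2]), (1, [], [1, 4]), (1, [], [3, 5]), (4, [], [5])]),
  (-60, 0, 1, [(0, [0], [1, 3]), (1, [], [2, 0]), (1, [], [4, 5]), (4, [], [5])]),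
  (60, 0, 1, [(0, [0], [1, 3]), (1, [], [2, 4]), (1, [], [0, 5]), (4, [], [5])]),
  (60, 0, 1, [(0, [0], [1, 4]), (1, [], [2, 0]), (1, [], [3, 5]), (4, [], [5])]),
  (-60, 0, 1, [(0, [0], [1, 4]), (1, [], [2, 3]), (1, [], [0, 5]), (4, [], [5])]),
  (-60, 0, 1, [(0, [0], [2, 3]), (1, [], [1, 0]), (1, [], [4, 5]), (4, [], [5])]),
  (60, 0, 1, [(0, [0], [2, 3]), (1, [], [1, 4]), (1, [], [0, 5]), (4, [], [5])]),
  (60, 0, 1, [(0, [0], [2, 4]), (1, [], [1, 0]), (1, [], [3, 5]), (4, [], [5])]),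
  (-60, 0, 1, [(0, [0], [2, 4]), (1, [], [1, 3]), (1, [], [0, 5]), (4, [], [5])])]

def z7_8 : Cov := [(0, 0, 1, [(0, [0], [0, 1]), (1, [], [3, 4]), (1, [], [2, 5]), (4, [], [5])]),
  (0, 0, 1, [(0, [0], [0, 2]), (1, [], [3, 4]), (1, [], [1, 5]), (4, [], [5])]),
  (0, 0, 1, [(0, [0], [0, 3]), (1, [], [1, 2]), (1, [], [4, 5]), (4, [], [5])]),
  (0, 0, 1, [(0, [0], [0, 3]), (1, [], [1, 4]), (1, [], [2, 5]), (4, [], [5])]),
  (0, 0, 1, [(0, [0], [0, 3]), (1, [], [2, 4]), (1, [], [1, 5]), (4, [], [5])]),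
  (0, 0, 1, [(0, [0], [0, 4]), (1, [], [1, 2]), (1, [], [3, 5]), (4, [], [5])]),
  (0, 0, 1, [(0, [0], [0, 4]), (1, [], [1, 3]), (1, [], [2, 5]), (4, [], [5])]),
  (0, 0, 1, [(0, [0], [0, 4]), (1, [], [2, 3]), (1, [], [1, 5]), (4, [], [5])]),
  (0, 0, 1, [(0, [0], [1, 2]), (1, [], [0, 3]), (1, [], [4, 5]), (4, [], [5])]),
  (0, 0, 1, [(0, [0], [1, 2]), (1, [], [0, 4]), (1, [], [3, 5]), (4, [], [5])]),
  (0, 0, 1, [(0, [0], [1, 2]), (1, [], [3, 4]), (1, [], [0, 5]), (4, [], [5])]),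
  (0, 0, 1, [(0, [0], [3, 1]), (1, [], [0, 4]), (1, [], [2, 5]), (4, [], [5])]),
  (0, 0, 1, [(0, [0], [3, 2]), (1, [], [0, 4]), (1, [], [1, 5]), (4, [], [5])]),
  (0, 0, 1, [(0, [0], [3, 4]), (1, [], [1, 0]), (1, [], [2, 5]), (4, [], [5])]),
  (0, 0, 1, [(0, [0], [3, 4]), (1, [], [1, 2]), (1, [], [0, 5]), (4, [], [5])]),
  (0, 0, 1, [(0, [0], [3, 4]), (1, [], [2, 0]), (1, [], [1, 5]), (4, [], [5])]),
  (0, 0, 1, [(0, [0], [4, 1]), (1, [], [0, 3]), (1, [], [2, 5]), (4, [], [5])]),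
  (0, 0, 1, [(0, [0], [4, 2]), (1, [], [0, 3]), (1, [], [1, 5]), (4, [], [5])])]

def w7_8 : List (List Wit) := [[(0, 0, 0, 0, 0), (1, 0, 0, 0, 0), (0, 0, 0, 0, 0), (12, 0, 0, 0, 0), (1, 0, 0, 0, 0), (12, 0, 0, 0, 0), (2, 0, 0, 0, 0), (3, 0, 0, 0, 0), (2, 0, 0, 0, 0), (13, 0, 0, 0, 0), (3, 0, 0, 0, 0), (13, 0, 0, 0, 0), (14, 0, 0, 0, 0), (15, 0, 0, 0, 0), (14, 0, 0, 0, 0), (16, 0, 0, 0, 0), (17, 0, 0, 0, 0), (18, 0, 0, 0, 0), (17, 0, 0, 0, 0), (19, 0, 0, 0, 0), (0, 0, 0, 0, 0), (1, 0, 0, 0, 0), (20, 0, 0, 0, 0), (21, 0, 0, 0, 0), (20, 0, 0, 0, 0), (22, 0, 0, 0, 0), (21, 0, 0, 0, 0), (22, 0, 0, 0, 0), (4, 0, 0, 0, 0), (5, 0, 0, 0, 0), (6, 0, 0, 0, 0), (7, 0, 0, 0, 0), (2, 0, 0, 0, 0), (3, 0, 0, 0, 0), (20, 0, 0, 0, 0), (21, 0, 0, 0, 0), (20, 0, 0, 0, 0), (22, 0, 0, 0, 0), (21, 0, 0, 0, 0), (22, 0, 0, 0, 0), (8, 0, 0, 0, 0), (9, 0, 0, 0, 0), (10, 0, 0, 0, 0), (11, 0, 0, 0, 0), (14, 0,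 0, 0, 0), (15, 0, 0, 0, 0), (14, 0, 0, 0, 0), (16, 0, 0, 0, 0), (4, 0, 0, 0, 0), (23, 0, 0, 0, 0), (4, 0, 0, 0, 0), (5, 0, 0, 0, 0), (23, 0, 0, 0, 0), (5, 0, 0, 0, 0), (8, 0, 0, 0, 0), (24, 0, 0, 0, 0), (8, 0, 0, 0, 0), (9, 0, 0, 0, 0), (24, 0, 0, 0, 0), (9, 0, 0, 0, 0), (25, 0, 0, 0, 0), (26, 0, 0, 0, 0), (27, 0, 0, 0, 0), (26, 0, 0, 0, 0), (17, 0, 0, 0, 0), (18, 0, 0, 0, 0), (17, 0, 0, 0, 0), (19, 0, 0, 0, 0), (6, 0, 0, 0, 0), (28, 0, 0, 0, 0), (6, 0, 0, 0, 0), (7, 0, 0, 0, 0), (28, 0, 0, 0, 0), (7, 0, 0, 0, 0), (10, 0, 0, 0, 0), (29, 0, 0, 0, 0), (10, 0, 0, 0, 0), (11, 0, 0, 0, 0), (29, 0, 0, 0, 0), (11, 0, 0, 0, 0), (25, 0, 0, 0, 0), (26, 0, 0, 0, 0), (27, 0, 0, 0, 0), (26, 0, 0, 0, 0)]]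

def m7_9 : Base := (0, 0, [(0, [0], [0, 1]), (1, [], [2, 3]), (4, [], [4])])

def l7_9 : Cov := [(60, 0, 0, [(0, [0], [0, 1]), (1, [], [2, 3]), (4, [], [4])]),
  (-60, 0, 0, [(0, [0], [0, 1]), (1, [], [2, 4]), (4, [], [3])]),
  (60, 0, 0, [(0, [0], [0, 2]), (1, [], [1, 3]), (4, [], [4])]),
  (-60, 0, 0, [(0, [0], [0, 2]), (1, [], [1, 4]), (4, [], [3])]),
  (-60, 0, 0, [(0, [0], [1, 3]), (1, [], [2, 0]), (4, [], [4])]),
  (60, 0, 0, [(0, [0], [1, 3]), (1, [], [2, 4]), (4, [], [0])]),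
  (60, 0, 0, [(0, [0], [1, 4]), (1, [], [2, 0]), (4, [], [3])]),
  (-60, 0, 0, [(0, [0], [1, 4]), (1, [], [2, 3]), (4, [], [0])]),
  (-60, 0, 0, [(0, [0], [2, 3]), (1, [], [1, 0]), (4, [], [4])]),
  (60, 0, 0, [(0, [0], [2, 3]), (1, [], [1, 4]), (4, [], [0])]),
  (60, 0, 0, [(0, [0], [2, 4]), (1, [], [1, 0]), (4, [], [3])]),
  (-60, 0, 0, [(0, [0], [2, 4]), (1, [], [1, 3]), (4, [], [0])])]

def z7_9 : Cov := [(0, 0, 0, [(0, [0], [0, 1]), (1, [], [3, 4]), (4, [], [2])]),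
  (0, 0, 0, [(0, [0], [0, 2]), (1, [], [3, 4]), (4, [], [1])]),
  (0, 0, 0, [(0, [0], [0, 3]), (1, [], [1, 2]), (4, [], [4])]),
  (0, 0, 0, [(0, [0], [0, 3]), (1, [], [1, 4]), (4, [], [2])]),
  (0, 0, 0, [(0, [0], [0, 3]), (1, [], [2, 4]), (4, [], [1])]),
  (0, 0, 0, [(0, [0], [0, 4]), (1, [], [1, 2]), (4, [], [3])]),
  (0, 0, 0, [(0, [0], [0, 4]), (1, [], [1, 3]), (4, [], [2])]),
  (0, 0, 0, [(0, [0], [0, 4]), (1, [], [2, 3]), (4, [], [1])]),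
  (0, 0, 0, [(0, [0], [1, 2]), (1, [], [0, 3]), (4, [], [4])]),
  (0, 0, 0, [(0, [0], [1, 2]), (1, [], [0, 4]), (4, [], [3])]),
  (0, 0, 0, [(0, [0], [1, 2]), (1, [], [3, 4]), (4, [], [0])]),
  (0, 0, 0, [(0, [0], [3, 1]), (1, [], [0, 4]), (4, [], [2])]),
  (0, 0, 0, [(0, [0], [3, 2]), (1, [], [0, 4]), (4, [], [1])]),
  (0, 0, 0, [(0, [0], [3, 4]), (1, [], [1, 0]), (4, [], [2])]),
  (0, 0, 0, [(0, [0], [3, 4]), (1, [], [1, 2]), (4, [], [0])]),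
  (0, 0, 0, [(0, [0], [3, 4]), (1, [], [2, 0]), (4, [], [1])]),
  (0, 0, 0, [(0, [0], [4, 1]), (1, [], [0, 3]), (4, [], [2])]),
  (0, 0, 0, [(0, [0], [4, 2]), (1, [], [0, 3]), (4, [], [1])])]

def w7_9 : List (List Wit) := [[(0, 0, 0, 0, 0), (1, 0, 0, 0, 0), (0, 0, 0, 0, 0), (12, 0, 0, 0, 0), (1, 0, 0, 0, 0), (12, 0, 0, 0, 0), (2, 0, 0, 0, 0), (3, 0, 0, 0, 0), (2, 0, 0, 0, 0), (13, 0, 0, 0, 0), (3, 0, 0, 0, 0), (13, 0, 0, 0, 0), (14, 0, 0, 0, 0), (15, 0, 0, 0, 0), (14, 0, 0, 0, 0), (16, 0, 0, 0, 0), (17, 0, 0, 0, 0), (18, 0, 0, 0, 0), (17, 0, 0, 0, 0), (19, 0, 0, 0, 0), (0, 0, 0, 0, 0), (1, 0, 0, 0, 0), (20, 0, 0, 0, 0), (21, 0, 0, 0, 0), (20, 0, 0, 0, 0), (22, 0, 0, 0, 0), (21, 0, 0, 0, 0), (22, 0, 0, 0, 0), (4, 0, 0, 0, 0), (5, 0, 0, 0, 0), (6, 0, 0, 0, 0), (7, 0, 0, 0, 0), (2, 0, 0, 0, 0), (3, 0, 0, 0, 0), (20, 0, 0, 0, 0), (21, 0, 0, 0, 0), (20, 0, 0, 0, 0), (22, 0, 0, 0, 0), (21,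 0, 0, 0, 0), (22, 0, 0, 0, 0), (8, 0, 0, 0, 0), (9, 0, 0, 0, 0), (10, 0, 0, 0, 0), (11, 0, 0, 0, 0), (14, 0, 0, 0, 0), (15, 0, 0, 0, 0), (14, 0, 0, 0, 0), (16, 0, 0, 0, 0), (4, 0, 0, 0, 0), (23, 0, 0, 0, 0), (4, 0, 0, 0, 0), (5, 0, 0, 0, 0), (23, 0, 0, 0, 0), (5, 0, 0, 0, 0), (8, 0, 0, 0, 0), (24, 0, 0, 0, 0), (8, 0, 0, 0, 0), (9, 0, 0, 0, 0), (24, 0, 0, 0, 0), (9, 0, 0, 0, 0), (25, 0, 0, 0, 0), (26, 0, 0, 0, 0), (27, 0, 0, 0, 0), (26, 0, 0, 0, 0), (17, 0, 0, 0, 0), (18, 0, 0, 0, 0), (17, 0, 0, 0, 0), (19, 0, 0, 0, 0), (6, 0, 0, 0, 0), (28, 0, 0, 0, 0), (6, 0, 0, 0, 0), (7, 0, 0, 0, 0), (28, 0, 0, 0, 0), (7, 0, 0, 0, 0), (10, 0, 0, 0, 0), (29, 0, 0, 0, 0), (10, 0, 0, 0, 0), (11, 0, 0, 0, 0), (29, 0, 0, 0, 0), (11, 0, 0, 0, 0), (25, 0, 0, 0, 0), (26, 0, 0, 0, 0), (27, 0, 0, 0, 0), (26, 0, 0, 0, 0)]]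

theorem tr7 : trK keys lk7 kl7 = true := by
  decide +kernel

theorem x7_0 : expB 1 5 dg0 dg7 m7_0 (l7_0 ++ z7_0) w7_0 = true := by
  decide +kernel

theorem x7_1 : expB 1 5 dg0 dg7 m7_1 (l7_1 ++ z7_1) w7_1 = true := by
  decide +kernel

theorem x7_2 : expB 1 5 dg0 dg7 m7_2 (l7_2 ++ z7_2) w7_2 = true := by
  decide +kernel

theorem x7_3 : expB 1 5 dg0 dg7 m7_3 (l7_3 ++ z7_3) w7_3 = true := by
  decide +kernel

theorem x7_4 : expB 1 5 dg0 dg7 m7_4 (l7_4 ++ z7_4) w7_4 = true := by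
  decide +kernel

theorem x7_5 : expB 1 5 dg0 dg7 m7_5 (l7_5 ++ z7_5) w7_5 = true := by
  decide +kernel

theorem x7_6 : expB 1 5 dg0 dg7 m7_6 (l7_6 ++ z7_6) w7_6 = true := by
  decide +kernel

theorem x7_7 : expB 1 5 dg0 dg7 m7_7 (l7_7 ++ z7_7) w7_7 = true := by
  decide +kernel

theorem x7_8 : expB 1 5 dg0 dg7 m7_8 (l7_8 ++ z7_8) w7_8 = true := by
  decide +kernel

theorem x7_9 : expB 1 5 dg0 dg7 m7_9 (l7_9 ++ z7_9) w7_9 = true := by
  decide +kernel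

theorem t7_0_0 : chkS lk7 1 5 [(1, m7_0)] l7_0
  [(89, 528, 528, 87298146, 23351346), (95, 258, 33, 50619681, 52715781), (93, 258, 33, 50615841, 36987141), (59, 513, 513, 67331346, 52838421), (93, 513, 513, 84173601, 56893701), (40, 258, 33, 50684961, 54681861), (40, 528, 528, 70586466, 21385266), (41, 258, 33, 50746401, 70410501), (31, 513, 513, 67331361, 52838661), (32, 33, 258, 4399461, 17122086), (32, 513, 513, 67450401, 38154501), (40, 513, 513, 67450401, 38154501)]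
  [(31, -60), (32, 120), (40, 60), (41, -60), (59, -60), (89, 60), (95, -60)] = true := by
  decide +kernel

theorem t7_0_1 : chkS lk7 1 5 [(1, m7_0)] l7_1
  [(94, 258, 33, 50615841, 36987141), (98, 258, 33, 50619681, 52715781), (94, 258, 33, 50619681, 52715781), (98, 258, 33, 50615841, 36987141), (43, 288, 288, 38146131, 68486706), (43, 288, 288, 38142291, 68486691), (96, 258, 33, 50619681, 52715781), (12, 33, 258, 5391201, 22225926), (97, 258, 33, 50619681, 52715781), (43, 258, 33, 50742546, 69427221), (94, 258, 33, 100946721, 104079621), (98, 258, 33, 84296481, 73605381), (96, 513, 513, 50619681, 52715781), (12, 33, 258, 5391126, 5448726), (97, 513, 513, 50742561, 69427461), (43, 258, 33, 50742561, 69427461), (31, 258, 33, 100877601, 102973701), (34, 258, 33, 100881441, 103956741), (99, 513, 513, 50615841, 36987141), (42, 258, 33, 67450401, 38154501), (50, 288, 288, 54923346, 68509746),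 (32, 288, 288, 37945701, 17122851), (31, 258, 33, 100881441, 103956741), (34, 258, 33, 100877601, 102973701), (99, 258, 33, 84173601, 56893701), (42, 258, 33, 67461906, 54927381), (99, 513, 513, 50619681, 52715781), (42, 258, 33, 67461921, 54927621), (50, 288, 288, 54919506, 68509731), (32, 288, 288, 37949541, 17122866), (42, 513, 513, 50684946, 54681621), (42, 513, 513, 50684961, 54681861), (32, 258, 33, 100881441, 103956741), (32, 258, 33, 100877601, 102973701), (100, 258, 33, 100946721, 104079621), (43, 258, 33, 84296466, 73605141), (100, 513, 513, 50677281, 37970181), (43, 258, 33, 84296481, 73605381), (100, 513, 513, 50684961, 54681861), (43, 258, 33, 84292641, 73543941), (12, 288, 288, 5391201, 22225926), (12, 288, 288, 5391126, 5448726)]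
  [(42, 120), (43, -120), (94, 120), (98, -120), (99, -120), (100, 120)] = true := by
  decide +kernel

theorem t7_0_2 : chkS lk7 1 5 [(1, m7_0)] l7_2
  [(94, 258, 33, 50619681, 52715781), (43, 288, 288, 38146131, 68486706), (94, 258, 33, 50615841, 36987141), (43, 288, 288, 38142291, 68486691), (98, 258, 33, 50619681, 52715781), (98, 258, 33, 50615841, 36987141), (96, 258, 33, 50619681, 52715781), (97, 258, 33, 50619681, 52715781), (43, 258, 33, 50742546, 69427221), (12, 33, 258, 5391201, 22225926), (96, 513, 513, 50619681, 52715781), (97, 513, 513, 50742561, 69427461), (94, 258, 33, 100946721, 104079621), (43, 258, 33, 50742561, 69427461), (98, 258, 33, 84296481, 73605381), (12, 33, 258, 5391126, 5448726), (99, 513, 513, 50615841, 36987141), (50, 288, 288, 54923346, 68509746), (31, 258, 33, 100877601, 102973701), (32, 288, 288, 37945701, 17122851), (34, 258, 33, 100881441, 103956741),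 (42, 258, 33, 67450401, 38154501), (99, 258, 33, 84173601, 56893701), (31, 258, 33, 100881441, 103956741), (99, 513, 513, 50619681, 52715781), (50, 288, 288, 54919506, 68509731), (32, 288, 288, 37949541, 17122866), (34, 258, 33, 100877601, 102973701), (42, 258, 33, 67461921, 54927621), (42, 513, 513, 50684946, 54681621), (42, 513, 513, 50684961, 54681861), (42, 258, 33, 67461906, 54927381), (100, 258, 33, 100946721, 104079621), (32, 258, 33, 100881441, 103956741), (100, 513, 513, 50677281, 37970181), (100, 513, 513, 50684961, 54681861), (43, 258, 33, 84292641, 73543941), (32, 258, 33, 100877601, 102973701), (43, 258, 33, 84296481, 73605381), (12, 288, 288, 5391201, 22225926), (12, 288, 288, 5391126, 5448726), (43, 258, 33, 84296466, 73605141)]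
  [(12, -60), (31, -60), (32, 120), (42, 60), (43, -120), (94, 60), (96, 60), (97, -60), (99, -60), (100, 60)] = true := by
  decide +kernel

theorem t7_0_3 : chkS lk7 1 5 [(1, m7_0)] l7_3
  [(43, 288, 288, 104931381, 100995906), (47, 288, 288, 54923346, 68509746), (53, 288, 288, 105058341, 101007666), (59, 258, 33, 50742561, 69427461), (50, 33, 258, 21365586, 68493411), (32, 258, 33, 50684961, 54681861), (59, 258, 33, 100881426, 103956501), (34, 513, 513, 50684961, 54681861), (101, 513, 513, 84162066, 40120341), (33, 258, 33, 50746401, 70410501), (101, 513, 513, 84173601, 56893701), (35, 513, 513, 50746401, 70410501)]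
  [(32, -60), (33, 60), (34, 60), (35, -60), (43, 60), (47, -60), (50, -60), (53, 60), (101, 0)] = true := by
  decide +kernel

theorem t7_0_4 : chkS lk7 1 5 [(1, m7_0)] l7_4
  [(98, 258, 33, 50615841, 36987141), (43, 288, 288, 38142291, 68486691), (98, 258, 33, 50619681, 52715781), (43, 288, 288, 38146131, 68486706), (94, 258, 33, 50615841, 36987141), (94, 258, 33, 50619681, 52715781), (12, 33, 258, 5391201, 22225926), (43, 258, 33, 50742546, 69427221), (97, 258, 33, 50619681, 52715781), (96, 258, 33, 50619681, 52715781), (12, 33, 258, 5391126, 5448726), (43, 258, 33, 50742561, 69427461), (98, 258, 33, 84296481, 73605381), (97, 513, 513, 50742561, 69427461), (94, 258, 33, 100946721, 104079621), (96, 513, 513, 50619681, 52715781), (42, 258, 33, 67450401, 38154501), (32, 288, 288, 37945701, 17122851), (34, 258, 33, 100881441, 103956741), (50, 288, 288, 54923346, 68509746), (31, 258,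 33, 100877601, 102973701), (99, 513, 513, 50615841, 36987141), (42, 258, 33, 67461906, 54927381), (34, 258, 33, 100877601, 102973701), (42, 258, 33, 67461921, 54927621), (32, 288, 288, 37949541, 17122866), (50, 288, 288, 54919506, 68509731), (31, 258, 33, 100881441, 103956741), (99, 513, 513, 50619681, 52715781), (42, 513, 513, 50684961, 54681861), (42, 513, 513, 50684946, 54681621), (99, 258, 33, 84173601, 56893701), (43, 258, 33, 84296466, 73605141), (32, 258, 33, 100877601, 102973701), (43, 258, 33, 84296481, 73605381), (43, 258, 33, 84292641, 73543941), (100, 513, 513, 50684961, 54681861), (32, 258, 33, 100881441, 103956741), (100, 513, 513, 50677281, 37970181), (12, 288, 288, 5391126, 5448726), (12, 288, 288, 5391201, 22225926), (100, 258, 33, 100946721, 104079621)]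
  [(32, 60), (34, -60), (43, -60), (50, 60), (98, 60), (100, -60)] = true := by
  decide +kernel

theorem t7_0_5 : chkS lk7 1 5 [(1, m7_0)] l7_5
  [(103, 1, 1, 50619681, 52715781), (107, 1, 1, 50619681, 52715781), (104, 1, 1, 50615841, 36987141), (106, 1, 1, 50619681, 52715781), (104, 1, 1, 50619681, 52715781), (106, 1, 1, 50615841, 36987141), (44, 1, 1, 50746386, 70410261), (105, 1, 1, 50619681, 52715781), (105, 1, 1, 50615841, 36987141), (9, 16, 16, 21377616, 68498016), (103, 1, 1, 50619666, 52715541), (107, 1, 1, 50619666, 52715541), (104, 1, 1, 50619666, 52715541), (44, 1, 1, 50746401, 70410501), (105, 1, 1, 50619666, 52715541), (9, 16, 16, 21377541, 67449441), (179, 1, 1, 102056736, 105062736), (116, 16, 16, 37097556, 68179506), (180, 1, 1, 102056736, 105062736), (117, 1, 1, 84296481, 73605381), (117, 16, 16, 37097556, 68179506), (116, 1, 1, 84296481, 73605381), (179, 1, 1, 102052896,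 105001296), (116, 16, 16, 37093716, 68179491), (116, 1, 1, 67515666, 69611541), (179, 1, 1, 68498976, 38154576), (116, 1, 1, 67515681, 69611781), (180, 1, 1, 102052896, 105001296), (117, 1, 1, 84292641, 73543941), (117, 16, 16, 37093716, 68179491), (116, 1, 1, 84292641, 73543941), (116, 1, 1, 84292626, 73543701), (154, 1, 1, 85345056, 73605456), (154, 1, 1, 85341216, 73544016), (7, 16, 16, 4272741, 17117766), (154, 1, 1, 51668256, 52715856), (7, 16, 16, 4272726, 1389126), (155, 1, 1, 85345056, 73605456), (115, 1, 1, 50615841, 36987141), (155, 1, 1, 85341216, 73544016), (115, 1, 1, 50619681, 52715781), (115, 1, 1, 50619666, 52715541)]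
  [(7, -60), (103, 60), (104, 60), (106, -60), (107, -60), (115, -60), (116, 60), (117, 60), (154, 60), (155, 60), (179, -60), (180, -60)] = true := by
  decide +kernel

theorem t7_0_6 : chkS lk7 1 5 [(1, m7_0)] l7_6
  [(104, 1, 1, 50619681, 52715781), (105, 1, 1, 50619681, 52715781), (104, 1, 1, 50615841, 36987141), (105, 1, 1, 50615841, 36987141), (106, 1, 1, 50619681, 52715781), (106, 1, 1, 50615841, 36987141), (103, 1, 1, 50619681, 52715781), (9, 16, 16, 21377616, 68498016), (107, 1, 1, 50619681, 52715781), (44, 1, 1, 50746386, 70410261), (104, 1, 1, 50619666, 52715541), (105, 1, 1, 50619666, 52715541), (103, 1, 1, 50619666, 52715541), (9, 16, 16, 21377541, 67449441), (107, 1, 1, 50619666, 52715541), (44, 1, 1, 50746401, 70410501), (180, 1, 1, 102056736, 105062736), (117, 16, 16, 37097556, 68179506), (179, 1, 1, 102056736, 105062736), (116, 1, 1, 84296481, 73605381), (116, 16, 16,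 37097556, 68179506), (117, 1, 1, 84296481, 73605381), (180, 1, 1, 102052896, 105001296), (117, 16, 16, 37093716, 68179491), (179, 1, 1, 68498976, 38154576), (116, 1, 1, 84292626, 73543701), (179, 1, 1, 102052896, 105001296), (116, 1, 1, 84292641, 73543941), (116, 16, 16, 37093716, 68179491), (117, 1, 1, 84292641, 73543941), (116, 1, 1, 67515666, 69611541), (116, 1, 1, 67515681, 69611781), (155, 1, 1, 85345056, 73605456), (155, 1, 1, 85341216, 73544016), (154, 1, 1, 51668256, 52715856), (115, 1, 1, 50619666, 52715541), (154, 1, 1, 85345056, 73605456), (115, 1, 1, 50619681, 52715781), (154, 1, 1, 85341216, 73544016), (115, 1, 1, 50615841, 36987141), (7, 16, 16, 4272741, 17117766), (7, 16, 16, 4272726, 1389126)]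
  [(104, 120), (105, -120), (115, -120), (116, 120), (154, 120), (179, -120), (180, 0)] = true := by
  decide +kernel

theorem t7_0_7 : chkS lk7 1 5 [(1, m7_0)] l7_7
  [(105, 1, 1, 50615841, 36987141), (106, 1, 1, 50615841, 36987141), (105, 1, 1, 50619681, 52715781), (106, 1, 1, 50619681, 52715781), (104, 1, 1, 50619681, 52715781), (104, 1, 1, 50615841, 36987141), (9, 16, 16, 21377616, 68498016), (44, 1, 1, 50746386, 70410261), (107, 1, 1, 50619681, 52715781), (103, 1, 1, 50619681, 52715781), (9, 16, 16, 21377541, 67449441), (44, 1, 1, 50746401, 70410501), (105, 1, 1, 50619666, 52715541), (107, 1, 1, 50619666, 52715541), (104, 1, 1, 50619666, 52715541), (103, 1, 1, 50619666, 52715541), (116, 1, 1, 84296481, 73605381), (117, 1, 1, 84296481, 73605381), (117, 16, 16, 37097556, 68179506), (116, 16, 16, 37097556, 68179506), (180, 1, 1, 102056736, 105062736), (179, 1, 1, 102056736, 105062736),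 (116, 1, 1, 84292626, 73543701), (117, 16, 16, 37093716, 68179491), (116, 1, 1, 84292641, 73543941), (117, 1, 1, 84292641, 73543941), (116, 16, 16, 37093716, 68179491), (180, 1, 1, 102052896, 105001296), (179, 1, 1, 102052896, 105001296), (116, 1, 1, 67515681, 69611781), (116, 1, 1, 67515666, 69611541), (179, 1, 1, 68498976, 38154576), (115, 1, 1, 50619666, 52715541), (155, 1, 1, 85341216, 73544016), (115, 1, 1, 50619681, 52715781), (115, 1, 1, 50615841, 36987141), (154, 1, 1, 85341216, 73544016), (155, 1, 1, 85345056, 73605456), (154, 1, 1, 85345056, 73605456), (7, 16, 16, 4272726, 1389126), (7, 16, 16, 4272741, 17117766), (154, 1, 1, 51668256, 52715856)]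
  [(7, -60), (9, 60), (44, -60), (105, 60), (106, -60), (115, 60), (116, 60), (117, -60), (154, -60), (155, 60), (180, 0)] = true := by
  decide +kernel

theorem t7_0_8 : chkS lk7 1 5 [(1, m7_0)] l7_8
  [(37, 1, 1, 100881441, 103956741), (36, 1, 1, 50746401, 70410501), (111, 1, 1, 100946721, 104079621), (109, 1, 1, 100946721, 104079621), (111, 1, 1, 100939026, 103034901), (109, 1, 1, 67515666, 69611541), (60, 1, 1, 100877586, 102973461), (61, 1, 1, 100881426, 103956501), (91, 16, 16, 103026771, 101975346), (90, 16, 16, 69603411, 68551986), (117, 16, 16, 103882836, 101733186), (116, 16, 16, 103882821, 100750146)]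
  [(36, -60), (37, 60), (60, 60), (61, -60), (90, 60), (91, -60), (116, -60), (117, 60)] = true := by
  decide +kernel

theorem t7_0_9 : chkS lk7 1 5 [(1, m7_0)] l7_9
  [(38, 1, 1, 218145, 3293445), (39, 1, 1, 218145, 3293445), (113, 1, 1, 283425, 3416325), (45, 16, 16, 3477570, 4280370), (113, 1, 1, 275730, 2371605), (45, 1, 1, 341025, 4337925), (24, 16, 16, 4272645, 340545), (18, 16, 16, 4272645, 340545), (92, 16, 16, 2363475, 1312050), (13, 16, 16, 2428980, 4199730), (119, 16, 16, 3280980, 1070130), (118, 1, 1, 283425, 3416325)]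
  [(13, 60), (18, -60), (24, 60), (38, 60), (39, -60), (92, -60), (118, -60), (119, 60)] = true := by
  decide +kernel

theorem t7_1_1 : chkS lk7 1 5 [(1, m7_1)] l7_1
  [(96, 528, 528, 34866771, 34866771), (120, 258, 33, 86393091, 73598241), (181, 513, 513, 102056736, 105062736), (126, 258, 33, 86393091, 73598241), (126, 528, 528, 33952596, 68167221), (97, 528, 528, 34997331, 68290131), (181, 513, 513, 102056496, 105058896), (126, 258, 33, 86392851, 73598226), (126, 528, 528, 33953076, 69211701), (97, 528, 528, 34997571, 69273171), (99, 528, 528, 34866771, 34866771), (128, 528, 528, 33756756, 34620981), (138, 528, 528, 34866531, 19138131), (129, 288, 288, 2176581, 33633606), (49, 528, 528, 33887331, 21104181), (50, 18, 18, 38879286, 5445186), (99, 528, 528, 34866531, 19138131), (128, 528, 528, 33756516, 18892341), (138, 528, 528, 34866771, 34866771), (129, 288, 288, 2176101, 16921926),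 (49, 528, 528, 33887811, 37815861), (50, 18, 18, 38880006, 5449281), (138, 258, 33, 100946481, 104075781), (49, 258, 33, 69558531, 54920481), (138, 258, 33, 100946721, 104079621), (49, 258, 33, 69558291, 54920466), (121, 258, 33, 87318786, 56905761), (11, 288, 288, 34801236, 34621011), (127, 258, 33, 87318786, 56905761), (129, 513, 513, 101008161, 105062661), (127, 258, 33, 87318546, 56905746), (129, 513, 513, 101007921, 105058821), (129, 528, 528, 33887076, 20981301), (50, 258, 33, 86393091, 73598241), (129, 528, 528, 33887796, 37754421), (50, 258, 33, 86392851, 73598226), (11, 528, 528, 19150416, 34878816), (53, 258, 33, 86393091, 73598241), (129, 33, 258, 6370596, 85995846), (126, 513, 513, 84296481, 73605381), (129, 33, 258, 6369876, 84947526), (126, 513, 513, 84296241, 73601541)]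
  [(11, 144), (49, 96), (50, -96), (53, -72), (96, 72), (97, 48), (99, 48), (120, -72), (121, -72), (126, -144), (127, -48), (128, -48), (129, 192), (138, -96), (181, 48)] = true := by
  decide +kernel

theorem t7_1_2 : chkS lk7 1 5 [(1, m7_1)] l7_2
  [(181, 513, 513, 102056736, 105062736), (126, 528, 528, 33952596, 68167221), (96, 528, 528, 34866771, 34866771), (97, 528, 528, 34997331, 68290131), (120, 258, 33, 86393091, 73598241), (126, 258, 33, 86393091, 73598241), (181, 513, 513, 102056496, 105058896), (126, 528, 528, 33953076, 69211701), (97, 528, 528, 34997571, 69273171), (126, 258, 33, 86392851, 73598226), (138, 528, 528, 34866531, 19138131), (49, 528, 528, 33887331, 21104181), (99, 528, 528, 34866771, 34866771), (50, 18, 18, 38879286, 5445186), (128, 528, 528, 33756756, 34620981), (129, 288, 288, 2176581, 33633606), (138, 528, 528, 34866771, 34866771), (49, 528, 528, 33887811,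 37815861), (99, 528, 528, 34866531, 19138131), (50, 18, 18, 38880006, 5449281), (128, 528, 528, 33756516, 18892341), (129, 288, 288, 2176101, 16921926), (138, 258, 33, 100946721, 104079621), (138, 258, 33, 100946481, 104075781), (121, 258, 33, 87318786, 56905761), (127, 258, 33, 87318786, 56905761), (129, 513, 513, 101008161, 105062661), (49, 258, 33, 69558531, 54920481), (11, 288, 288, 34801236, 34621011), (127, 258, 33, 87318546, 56905746), (129, 513, 513, 101007921, 105058821), (49, 258, 33, 69558291, 54920466), (129, 528, 528, 33887796, 37754421), (129, 528, 528, 33887076, 20981301), (11, 528, 528, 19150416, 34878816), (129, 33, 258, 6370596, 85995846), (126, 513, 513, 84296481, 73605381), (50, 258, 33, 86393091, 73598241), (53, 258, 33, 86393091, 73598241), (129, 33, 258, 6369876, 84947526), (126, 513, 513, 84296241, 73601541), (50, 258, 33, 86392851, 73598226)]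
  [(11, 48), (49, -48), (50, 48), (53, -24), (96, 24), (97, -24), (99, -24), (120, -24), (121, -24), (126, -168), (127, 24), (128, 24), (129, 144), (138, -72), (181, 96)] = true := by
  decide +kernel

theorem t7_1_3 : chkS lk7 1 5 [(1, m7_1)] l7_3
  [(126, 18, 18, 21374256, 69538656), (98, 528, 528, 68551251, 68551251), (126, 18, 18, 21373776, 68494176), (98, 528, 528, 68551971, 69599571), (129, 528, 528, 87106566, 6443841), (129, 528, 528, 87105606, 6378306), (128, 33, 258, 21169446, 2441571), (128, 33, 258, 21168726, 1393251), (102, 528, 528, 85198371, 40108371), (102, 528, 528, 85197411, 23331411), (139, 513, 513, 86270211, 56886561), (139, 513, 513, 86269971, 56886546)]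
  [(98, -120), (102, 120), (126, 120), (128, 120), (129, -120), (139, -120)] = true := by
  decide +kernel

theorem t7_1_4 : chkS lk7 1 5 [(1, m7_1)] l7_4
  [(126, 258, 33, 86393091, 73598241), (97, 528, 528, 34997331, 68290131), (120, 258, 33, 86393091, 73598241), (126, 528, 528, 33952596, 68167221), (96, 528, 528, 34866771, 34866771), (181, 513, 513, 102056736, 105062736), (126, 258, 33, 86392851, 73598226), (97, 528, 528, 34997571, 69273171), (126, 528, 528, 33953076, 69211701), (181, 513, 513, 102056496, 105058896), (129, 288, 288, 2176581, 33633606), (50, 18, 18, 38879286, 5445186), (128, 528, 528, 33756756, 34620981), (49, 528, 528, 33887331, 21104181), (99, 528, 528, 34866771, 34866771), (138, 528, 528, 34866531, 19138131), (129, 288, 288, 2176101, 16921926), (50, 18, 18, 38880006, 5449281), (128, 528, 528, 33756516, 18892341), (49, 528, 528, 33887811, 37815861), (99, 528, 528,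 34866531, 19138131), (138, 528, 528, 34866771, 34866771), (49, 258, 33, 69558291, 54920466), (49, 258, 33, 69558531, 54920481), (11, 288, 288, 34801236, 34621011), (129, 513, 513, 101008161, 105062661), (127, 258, 33, 87318786, 56905761), (138, 258, 33, 100946481, 104075781), (121, 258, 33, 87318786, 56905761), (129, 513, 513, 101007921, 105058821), (127, 258, 33, 87318546, 56905746), (138, 258, 33, 100946721, 104079621), (50, 258, 33, 86392851, 73598226), (50, 258, 33, 86393091, 73598241), (53, 258, 33, 86393091, 73598241), (126, 513, 513, 84296481, 73605381), (129, 33, 258, 6370596, 85995846), (129, 528, 528, 33887076, 20981301), (11, 528, 528, 19150416, 34878816), (126, 513, 513, 84296241, 73601541), (129, 33, 258, 6369876, 84947526), (129, 528, 528, 33887796, 37754421)]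
  [(11, -48), (49, -72), (50, 72), (53, 24), (96, -24), (97, -96), (99, 24), (120, 24), (121, 24), (126, 48), (127, 96), (128, -24), (129, -24), (138, -48), (181, 24)] = true := by
  decide +kernel

theorem t7_1_5 : chkS lk7 1 5 [(1, m7_1)] l7_5
  [(141, 16, 16, 34866531, 19138131), (51, 16, 16, 33952851, 68290101), (141, 16, 16, 34866771, 34866771), (51, 16, 16, 33953091, 69273141), (140, 16, 16, 34866771, 34866771), (143, 16, 16, 34866771, 34866771), (143, 16, 16, 34866531, 19138131), (10, 1, 1, 35009856, 69285456), (142, 16, 16, 34866771, 34866771), (142, 16, 16, 34866531, 19138131), (183, 1, 1, 102056736, 105062736), (134, 16, 16, 50730276, 69230901), (185, 1, 1, 102056736, 105062736), (135, 1, 1, 84296481, 73605381), (135, 16, 16, 50730276, 69230901), (134, 1, 1, 84296481, 73605381), (183, 1, 1, 102056496, 105058896), (134, 16, 16, 50729556, 68182581), (185, 1, 1, 102056496, 105058896),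 (135, 1, 1, 84296241, 73601541), (135, 16, 16, 50729556, 68182581), (134, 1, 1, 84296241, 73601541), (103, 16, 16, 34866771, 34866771), (107, 16, 16, 34866771, 34866771), (107, 16, 16, 34866531, 19138131), (104, 16, 16, 34866771, 34866771), (60, 16, 16, 34997331, 68290131), (104, 16, 16, 34866531, 19138131), (60, 16, 16, 34997571, 69273171), (106, 16, 16, 34866771, 34866771), (61, 16, 16, 34997571, 69273171), (106, 16, 16, 34866531, 19138131), (131, 16, 16, 33756756, 34620981), (150, 1, 1, 87441666, 73617441), (150, 1, 1, 87441426, 73617426), (132, 16, 16, 33756756, 34620981), (133, 1, 1, 84296481, 73605381), (132, 16, 16, 33756516, 18892341), (133, 1, 1, 84296241, 73601541), (151, 1, 1, 87441666, 73617441), (8, 16, 16, 50599506, 34889781), (151, 1, 1, 87441426, 73617426)]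
  [(8, -24), (10, -24), (51, -96), (60, 96), (61, 24), (103, -24), (104, -96), (106, -24), (107, 24), (131, 24), (132, 96), (133, -96), (134, -48), (135, 48), (140, 24), (141, 96), (142, 24), (143, -24), (150, -24), (151, 24), (183, 24), (185, -24)] = true := by
  decide +kernel

theorem t7_1_6 : chkS lk7 1 5 [(1, m7_1)] l7_6
  [(140, 16, 16, 34866771, 34866771), (10, 1, 1, 35009856, 69285456), (141, 16, 16, 34866771, 34866771), (142, 16, 16, 34866771, 34866771), (51, 16, 16, 33953091, 69273141), (143, 16, 16, 34866771, 34866771), (141, 16, 16, 34866531, 19138131), (142, 16, 16, 34866531, 19138131), (51, 16, 16, 33952851, 68290101), (143, 16, 16, 34866531, 19138131), (185, 1, 1, 102056736, 105062736), (135, 16, 16, 50730276, 69230901), (183, 1, 1, 102056736, 105062736), (134, 1, 1, 84296481, 73605381), (134, 16, 16, 50730276, 69230901), (135, 1, 1, 84296481, 73605381), (185, 1, 1, 102056496,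 105058896), (135, 16, 16, 50729556, 68182581), (183, 1, 1, 102056496, 105058896), (134, 1, 1, 84296241, 73601541), (134, 16, 16, 50729556, 68182581), (135, 1, 1, 84296241, 73601541), (104, 16, 16, 34866531, 19138131), (106, 16, 16, 34866771, 34866771), (104, 16, 16, 34866771, 34866771), (106, 16, 16, 34866531, 19138131), (103, 16, 16, 34866771, 34866771), (61, 16, 16, 34997571, 69273171), (107, 16, 16, 34866771, 34866771), (60, 16, 16, 34997571, 69273171), (107, 16, 16, 34866531, 19138131), (60, 16, 16, 34997331, 68290131), (132, 16, 16, 33756516, 18892341), (151, 1, 1, 87441666, 73617441), (132, 16, 16, 33756756, 34620981), (151, 1, 1, 87441426, 73617426), (131, 16, 16, 33756756, 34620981), (8, 16, 16, 50599506, 34889781), (150, 1, 1, 87441666, 73617441), (133, 1, 1, 84296241, 73601541), (150, 1, 1, 87441426, 73617426), (133, 1, 1, 84296481, 73605381)]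
  [(8, -72), (10, -72), (51, -48), (60, 48), (61, 72), (103, -72), (104, -48), (106, 48), (107, -48), (131, 72), (132, 48), (133, -48), (134, 96), (135, -96), (140, 72), (141, 48), (142, -48), (143, 48), (150, 48), (151, -48), (183, -48), (185, 48)] = true := by
  decide +kernel

theorem t7_1_7 : chkS lk7 1 5 [(1, m7_1)] l7_7
  [(142, 16, 16, 34866771, 34866771), (143, 16, 16, 34866771, 34866771), (10, 1, 1, 35009856, 69285456), (51, 16, 16, 33953091, 69273141), (140, 16, 16, 34866771, 34866771), (141, 16, 16, 34866771, 34866771), (142, 16, 16, 34866531, 19138131), (143, 16, 16, 34866531, 19138131), (51, 16, 16, 33952851, 68290101), (141, 16, 16, 34866531, 19138131), (134, 1, 1, 84296481, 73605381), (135, 1, 1, 84296481, 73605381), (135, 16, 16, 50730276, 69230901), (134, 16, 16, 50730276, 69230901), (185, 1, 1, 102056736, 105062736), (183, 1, 1, 102056736, 105062736), (134, 1, 1, 84296241,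 73601541), (135, 1, 1, 84296241, 73601541), (135, 16, 16, 50729556, 68182581), (134, 16, 16, 50729556, 68182581), (185, 1, 1, 102056496, 105058896), (183, 1, 1, 102056496, 105058896), (106, 16, 16, 34866531, 19138131), (106, 16, 16, 34866771, 34866771), (61, 16, 16, 34997571, 69273171), (60, 16, 16, 34997571, 69273171), (107, 16, 16, 34866771, 34866771), (104, 16, 16, 34866531, 19138131), (103, 16, 16, 34866771, 34866771), (60, 16, 16, 34997331, 68290131), (107, 16, 16, 34866531, 19138131), (104, 16, 16, 34866771, 34866771), (151, 1, 1, 87441426, 73617426), (151, 1, 1, 87441666, 73617441), (8, 16, 16, 50599506, 34889781), (133, 1, 1, 84296241, 73601541), (150, 1, 1, 87441666, 73617441), (132, 16, 16, 33756516, 18892341), (131, 16, 16, 33756756, 34620981), (133, 1, 1, 84296481, 73605381), (150, 1, 1, 87441426, 73617426), (132, 16, 16, 33756756, 34620981)]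
  [(8, 24), (10, 24), (51, -24), (60, 24), (61, -24), (103, 24), (104, -24), (106, -96), (107, 96), (131, -24), (132, 24), (133, -24), (134, 48), (135, -48), (140, -24), (141, 24), (142, 96), (143, -96), (150, -96), (151, 96), (183, -24), (185, 24)] = true := by
  decide +kernel

theorem t7_1_8 : chkS lk7 1 5 [(1, m7_1)] l7_8
  [(145, 1, 1, 100946481, 104075781), (144, 1, 1, 100946481, 104075781), (145, 1, 1, 100946721, 104079621), (144, 1, 1, 100946721, 104079621), (110, 16, 16, 101975331, 103022931), (108, 16, 16, 68551971, 69599571), (135, 16, 16, 102839301, 100808001), (134, 16, 16, 102839301, 100808001), (110, 16, 16, 101974611, 101974611), (108, 16, 16, 68551251, 68551251), (135, 16, 16, 102838341, 100742466), (134, 16, 16, 102838341, 100742466)]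
  [(108, 120), (110, -120), (134, -120), (135, 120), (144, -120), (145, 120)] = true := by
  decide +kernel

theorem t7_1_9 : chkS lk7 1 5 [(1, m7_1)] l7_9
  [(146, 1, 1, 283185, 3412485), (27, 1, 1, 1393440, 4399440), (146, 1, 1, 283425, 3416325), (27, 1, 1, 1393200, 4395600), (112, 16, 16, 1312035, 2359635), (29, 1, 1, 2441475, 4392225), (26, 1, 1, 283425, 3416325), (25, 1, 1, 2437380, 4207905), (112, 16, 16, 1311315, 1311315), (29, 1, 1, 2441235, 4392210), (26, 1, 1, 283185, 3412485), (25, 1, 1, 2437140, 4207890)]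
  [(25, -120), (26, 120), (27, -120), (29, 120), (112, -120), (146, 120)] = true := by
  decide +kernel

theorem t7_2_2 : chkS lk7 1 5 [(1, m7_2)] l7_2
  [(96, 528, 528, 34889811, 51643986), (97, 528, 528, 35012691, 68355666), (181, 513, 513, 102052896, 105001296), (126, 528, 528, 33960276, 68171301), (126, 258, 33, 86381571, 73532721), (120, 258, 33, 86381571, 73532721), (181, 513, 513, 102048816, 104993616), (126, 513, 513, 70653186, 69619761), (126, 513, 513, 70649106, 69619731), (126, 258, 33, 86377491, 73532691), (138, 528, 528, 34885731, 20186706), (129, 33, 258, 54612006, 3498306), (182, 513, 513, 102052896, 105001296), (130, 513, 513, 101004321, 105001221), (130, 258, 33, 69539331, 38143281), (129, 288, 288, 2188101, 50406726), (121, 258, 33, 87299586, 40128561), (127, 258, 33, 87299586, 40128561), (138, 258, 33, 100934961, 103027461), (129, 513, 513, 101004321, 105001221),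 (49, 258, 33, 69539331, 38143281), (11, 288, 288, 34824276, 51398226), (182, 513, 513, 102048816, 104993616), (99, 528, 528, 34885731, 20186706), (138, 528, 528, 34889811, 51643986), (49, 528, 528, 33907011, 54593061), (50, 18, 18, 38876166, 5387841), (128, 528, 528, 33771876, 19940901), (129, 288, 288, 2179941, 16983366), (129, 33, 258, 54599766, 1401666), (130, 513, 513, 101000241, 104993541), (130, 258, 33, 69535251, 38143251), (130, 513, 513, 70587906, 38162481), (50, 258, 33, 86381571, 73532721), (129, 33, 258, 6378276, 87040326), (11, 528, 528, 19161936, 51651936), (53, 258, 33, 86381571, 73532721), (129, 528, 528, 33894756, 20985381), (126, 513, 513, 84292641, 73543941), (129, 33, 258, 6366036, 84943686), (126, 513, 513, 84288561, 73536261), (130, 513, 513, 70583826, 38162451)]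
  [(11, -24), (49, 24), (50, 96), (53, -48), (96, 48), (97, -48), (99, -48), (120, 12), (121, 12), (126, -156), (127, -12), (128, -12), (129, 48), (130, 120), (138, -24), (181, 72), (182, -60)] = true := by
  decide +kernel

theorem t7_2_3 : chkS lk7 1 5 [(1, m7_2)] l7_3
  [(12, 258, 33, 35013936, 69408336), (98, 528, 528, 68558931, 68551506), (126, 18, 18, 21377616, 68498016), (120, 513, 513, 70653186, 69619761), (130, 18, 18, 23396931, 88146531), (42, 528, 528, 86065251, 23266626), (34, 528, 528, 51732546, 54616146), (128, 18, 18, 22217286, 5325411), (122, 513, 513, 87299586, 40128561), (102, 528, 528, 85205091, 23331666), (35, 528, 528, 51793986, 70344786), (139, 513, 513, 86246931, 40109331)]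
  [(12, 60), (34, 60), (35, -60), (42, -60), (98, -60), (102, 60), (120, -60), (122, 60), (126, 60), (128, 60), (130, -60), (139, -60)] = true := by
  decide +kernel

theorem t7_2_4 : chkS lk7 1 5 [(1, m7_2)] l7_4
  [(120, 258, 33, 86381571, 73532721), (126, 528, 528, 33960276, 68171301), (126, 258, 33, 86381571, 73532721), (97, 528, 528, 35012691, 68355666), (181, 513, 513, 102052896, 105001296), (96, 528, 528, 34889811, 51643986), (126, 258, 33, 86377491, 73532691), (126, 513, 513, 70649106, 69619731), (126, 513, 513, 70653186, 69619761), (181, 513, 513, 102048816, 104993616), (129, 288, 288, 2188101, 50406726), (130, 513, 513, 101004321, 105001221), (130, 258, 33, 69539331, 38143281), (129, 33, 258, 54612006, 3498306), (182, 513, 513, 102052896, 105001296), (138, 528, 528, 34885731, 20186706), (11, 288, 288, 34824276, 51398226), (129, 513, 513, 101004321, 105001221), (49, 258, 33,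 69539331, 38143281), (127, 258, 33, 87299586, 40128561), (138, 258, 33, 100934961, 103027461), (121, 258, 33, 87299586, 40128561), (130, 258, 33, 69535251, 38143251), (128, 528, 528, 33771876, 19940901), (129, 288, 288, 2179941, 16983366), (50, 18, 18, 38876166, 5387841), (49, 528, 528, 33907011, 54593061), (99, 528, 528, 34885731, 20186706), (138, 528, 528, 34889811, 51643986), (130, 513, 513, 101000241, 104993541), (129, 33, 258, 54599766, 1401666), (182, 513, 513, 102048816, 104993616), (130, 513, 513, 70583826, 38162451), (129, 528, 528, 33894756, 20985381), (126, 513, 513, 84292641, 73543941), (53, 258, 33, 86381571, 73532721), (11, 528, 528, 19161936, 51651936), (50, 258, 33, 86381571, 73532721), (129, 33, 258, 6378276, 87040326), (126, 513, 513, 84288561, 73536261), (129, 33, 258, 6366036, 84943686), (130, 513, 513, 70587906, 38162481)]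
  [(11, -36), (49, 36), (50, 24), (53, -12), (96, 12), (97, -12), (99, -12), (120, 48), (121, -12), (126, -24), (127, 12), (128, -48), (129, 12), (138, 24), (181, -12), (182, 0)] = true := by
  decide +kernel

theorem t7_2_5 : chkS lk7 1 5 [(1, m7_2)] l7_5
  [(141, 16, 16, 34885731, 20186706), (142, 16, 16, 3433041, 51663366), (140, 16, 16, 34889811, 51643986), (143, 16, 16, 34889811, 51643986), (141, 16, 16, 34889811, 51643986), (51, 16, 16, 33968451, 70321701), (142, 16, 16, 3428961, 20206086), (142, 16, 16, 34889811, 51643986), (10, 1, 1, 35017536, 70329936), (142, 16, 16, 34885731, 20186706), (183, 1, 1, 102052896, 105001296), (134, 1, 1, 69604611, 69600561), (184, 1, 1, 102052896, 105001296), (136, 1, 1, 84292641, 73543941), (136, 1, 1, 69604611, 69600561), (134, 1, 1, 84292641, 73543941), (103, 16, 16, 34889811, 51643986), (107, 16, 16, 34889811, 51643986), (104, 16, 16, 34885731,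 20186706), (60, 16, 16, 35016771, 70321746), (106, 16, 16, 34889811, 51643986), (61, 16, 16, 35016771, 70321746), (183, 1, 1, 102048816, 104993616), (134, 16, 16, 50733396, 68182821), (134, 1, 1, 69600531, 69600531), (184, 1, 1, 102048816, 104993616), (136, 1, 1, 84288561, 73536261), (185, 1, 1, 102048816, 104993616), (135, 1, 1, 84288561, 73536261), (135, 16, 16, 50733396, 68182821), (134, 1, 1, 84288561, 73536261), (136, 1, 1, 69600531, 69600531), (150, 1, 1, 87430146, 73551921), (131, 16, 16, 33775956, 51398181), (150, 1, 1, 87426066, 73551891), (149, 1, 1, 87430146, 73551921), (133, 1, 1, 84292641, 73543941), (151, 1, 1, 87430146, 73551921), (8, 16, 16, 50618706, 51666981), (132, 16, 16, 33771876, 19940901), (133, 1, 1, 84288561, 73536261), (149, 1, 1, 87426066, 73551891)]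
  [(8, -48), (10, 12), (51, -12), (60, 12), (61, -12), (103, 12), (104, -12), (106, 12), (107, -12), (131, -12), (132, 12), (133, -72), (134, 24), (135, 36), (136, 60), (140, 48), (141, 72), (142, -72), (143, -48), (149, 60), (150, 12), (151, 48), (183, -12), (184, -60), (185, -48)] = true := by
  decide +kernel

theorem t7_2_6 : chkS lk7 1 5 [(1, m7_2)] l7_6
  [(141, 16, 16, 34889811, 51643986), (142, 16, 16, 34889811, 51643986), (140, 16, 16, 34889811, 51643986), (10, 1, 1, 35017536, 70329936), (143, 16, 16, 34889811, 51643986), (51, 16, 16, 33968451, 70321701), (141, 16, 16, 34885731, 20186706), (142, 16, 16, 34885731, 20186706), (142, 16, 16, 3433041, 51663366), (142, 16, 16, 3428961, 20206086), (184, 1, 1, 102052896, 105001296), (136, 1, 1, 69604611, 69600561), (183, 1, 1, 102052896, 105001296), (134, 1, 1, 84292641, 73543941), (134, 1, 1, 69604611, 69600561), (136, 1, 1, 84292641,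 73543941), (104, 16, 16, 34885731, 20186706), (106, 16, 16, 34889811, 51643986), (103, 16, 16, 34889811, 51643986), (61, 16, 16, 35016771, 70321746), (107, 16, 16, 34889811, 51643986), (60, 16, 16, 35016771, 70321746), (185, 1, 1, 102048816, 104993616), (135, 16, 16, 50733396, 68182821), (184, 1, 1, 102048816, 104993616), (136, 1, 1, 69600531, 69600531), (183, 1, 1, 102048816, 104993616), (134, 1, 1, 84288561, 73536261), (134, 16, 16, 50733396, 68182821), (135, 1, 1, 84288561, 73536261), (134, 1, 1, 69600531, 69600531), (136, 1, 1, 84288561, 73536261), (151, 1, 1, 87430146, 73551921), (132, 16, 16, 33771876, 19940901), (149, 1, 1, 87430146, 73551921), (149, 1, 1, 87426066, 73551891), (150, 1, 1, 87430146, 73551921), (133, 1, 1, 84288561, 73536261), (131, 16, 16, 33775956, 51398181), (8, 16, 16, 50618706, 51666981), (150, 1, 1, 87426066, 73551891), (133, 1, 1, 84292641, 73543941)]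
  [(8, -24), (10, -24), (51, 24), (60, -24), (61, 24), (103, -24), (104, 24), (106, -24), (107, 24), (131, 24), (132, -24), (133, -96), (134, 72), (135, 48), (140, 24), (141, 96), (142, -96), (143, -24), (150, 96), (151, 24), (183, -96), (185, -24)] = true := by
  decide +kernel

theorem t7_2_7 : chkS lk7 1 5 [(1, m7_2)] l7_7
  [(10, 1, 1, 35017536, 70329936), (51, 16, 16, 33968451, 70321701), (142, 16, 16, 34889811, 51643986), (143, 16, 16, 34889811, 51643986), (141, 16, 16, 34889811, 51643986), (140, 16, 16, 34889811, 51643986), (142, 16, 16, 34885731, 20186706), (142, 16, 16, 3428961, 20206086), (142, 16, 16, 3433041, 51663366), (141, 16, 16, 34885731, 20186706), (134, 1, 1, 84292641, 73543941), (136, 1, 1, 84292641, 73543941), (136, 1, 1, 69604611, 69600561), (134, 1, 1, 69604611, 69600561), (184, 1, 1, 102052896, 105001296), (183, 1, 1, 102052896, 105001296), (61, 16, 16, 35016771,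 70321746), (60, 16, 16, 35016771, 70321746), (106, 16, 16, 34889811, 51643986), (107, 16, 16, 34889811, 51643986), (104, 16, 16, 34885731, 20186706), (103, 16, 16, 34889811, 51643986), (136, 1, 1, 69600531, 69600531), (135, 16, 16, 50733396, 68182821), (134, 1, 1, 84288561, 73536261), (135, 1, 1, 84288561, 73536261), (134, 16, 16, 50733396, 68182821), (185, 1, 1, 102048816, 104993616), (183, 1, 1, 102048816, 104993616), (136, 1, 1, 84288561, 73536261), (134, 1, 1, 69600531, 69600531), (184, 1, 1, 102048816, 104993616), (149, 1, 1, 87426066, 73551891), (132, 16, 16, 33771876, 19940901), (133, 1, 1, 84288561, 73536261), (8, 16, 16, 50618706, 51666981), (131, 16, 16, 33775956, 51398181), (151, 1, 1, 87430146, 73551921), (150, 1, 1, 87430146, 73551921), (133, 1, 1, 84292641, 73543941), (150, 1, 1, 87426066, 73551891), (149, 1, 1, 87430146, 73551921)]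
  [(8, -12), (10, 48), (51, -48), (60, -12), (61, 12), (103, -12), (104, 12), (106, -12), (107, 12), (131, -48), (132, 48), (133, 12), (134, 96), (135, -36), (136, -60), (140, 12), (141, -12), (142, 12), (143, -12), (149, 60), (150, -72), (151, 12), (183, 12), (185, -12)] = true := by
  decide +kernel

theorem t7_2_8 : chkS lk7 1 5 [(1, m7_2)] l7_8
  [(145, 1, 1, 100934961, 103027461), (144, 1, 1, 67511601, 69604101), (37, 16, 16, 101929026, 103891026), (36, 16, 16, 51793986, 70344786), (124, 1, 1, 103027971, 103023921), (123, 1, 1, 69604611, 69600561), (136, 16, 16, 102843141, 100869441), (134, 16, 16, 102843141, 100869441), (110, 16, 16, 101982291, 101974866), (108, 16, 16, 68558931, 68551506), (44, 16, 16, 102842451, 101909826), (9, 1, 1, 101004321, 105001221)]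
  [(9, -60), (36, -60), (37, 60), (44, 60), (108, 60), (110, -60), (123, 60), (124, -60), (134, -60), (136, 60), (144, -60), (145, 60)] = true := by
  decide +kernel

theorem t7_2_9 : chkS lk7 1 5 [(1, m7_2)] l7_9
  [(146, 1, 1, 271665, 2364165), (27, 16, 16, 2442000, 4400400), (38, 16, 16, 1265730, 3227730), (39, 16, 16, 1265730, 3227730), (125, 1, 1, 2364675, 2360625), (58, 1, 1, 2429955, 4326705), (137, 1, 1, 2364675, 2360625), (25, 1, 1, 2429700, 4203825), (112, 16, 16, 1318995, 1311570), (29, 1, 1, 2425875, 4326675), (28, 1, 1, 341025, 4337925), (18, 1, 1, 341025, 4337925)]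
  [(18, -60), (25, -60), (27, -60), (28, 60), (29, 60), (38, 60), (39, -60), (58, 60), (112, -60), (125, -60), (137, 60), (146, 60)] = true := by
  decide +kernel

theorem t7_3_3 : chkS lk7 1 5 [(1, m7_3)] l7_3
  [(2, 528, 528, 70344786, 51793986), (97, 288, 288, 73474101, 84284226), (97, 288, 288, 73412901, 84291876), (52, 513, 513, 104141826, 105009201), (100, 288, 288, 72376611, 55968036), (46, 528, 528, 87113826, 23285826), (50, 18, 18, 23200821, 84022371), (11, 513, 513, 70653186, 69619761), (11, 33, 258, 54681681, 51733506), (50, 258, 33, 102048816, 104993616), (53, 258, 33, 104141826, 105009201), (49, 513, 513, 85206576, 40112976)]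
  [(2, 60), (11, 120), (46, -60), (49, -60), (50, 120), (52, -60), (53, -60), (100, -60)] = true := by
  decide +kernel

theorem t7_3_4 : chkS lk7 1 5 [(1, m7_3)] l7_4
  [(12, 18, 18, 19220016, 37950816), (126, 258, 33, 68494896, 38146896), (98, 288, 288, 39862581, 84088356), (98, 288, 288, 39927861, 84088386), (126, 258, 33, 68560176, 69604176), (12, 18, 18, 19285296, 69408096), (98, 288, 288, 39858501, 83965476), (120, 288, 288, 56696901, 83977026), (120, 288, 288, 56705061, 84107586), (126, 258, 33, 68564256, 69611856), (102, 288, 288, 38809956, 22033956), (122, 288, 288, 55648356, 22045506), (98, 288, 288, 37773651, 51709476), (120, 288, 288, 54616146, 51732546), (130, 258, 33, 102048816, 104993616), (129, 288, 288, 55656546, 22241346), (35, 288, 288, 36720966, 3233316), (139, 33, 258, 38888196, 55584321), (34, 288, 288, 36720966, 3233316), (128, 513, 513, 68498976, 38154576), (49,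 258, 33, 102048816, 104993616), (11, 288, 288, 4416081, 51724806), (98, 288, 288, 37769571, 20252196), (42, 288, 288, 38809956, 22033956), (102, 288, 288, 38822196, 55580196), (102, 288, 288, 38887476, 55580226), (129, 288, 288, 55599426, 55664676), (42, 288, 288, 38875236, 22033986), (129, 288, 288, 55664706, 55664706), (122, 288, 288, 55664676, 55599426), (120, 288, 288, 54612066, 20275266), (130, 258, 33, 102052896, 105001296), (128, 258, 33, 85337136, 73536336), (49, 258, 33, 101983536, 103027536), (139, 33, 258, 39018756, 55592481), (35, 288, 288, 36786246, 3233346), (11, 288, 288, 4350801, 51717126), (34, 288, 288, 36786246, 3233346), (128, 513, 513, 68564256, 69611856), (139, 33, 258, 38994276, 22038051), (128, 513, 513, 68560176, 69604176), (128, 258, 33, 85341216, 73544016)]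
  [(11, -60), (12, 60), (42, -60), (49, 60), (126, -60), (129, 60), (139, 0)] = true := by
  decide +kernel

theorem t7_3_5 : chkS lk7 1 5 [(1, m7_3)] l7_5
  [(133, 1, 1, 68560176, 69604176), (131, 1, 1, 68564256, 69611856), (8, 16, 16, 19161936, 51651936), (132, 1, 1, 68498976, 38154576), (133, 1, 1, 68564256, 69611856), (133, 1, 1, 68498976, 38154576), (131, 1, 1, 68560176, 69604176), (132, 1, 1, 68564256, 69611856), (8, 16, 16, 19096656, 51529056), (132, 1, 1, 68560176, 69604176), (150, 1, 1, 68560176, 69604176), (131, 1, 1, 70653186, 69619761), (149, 1, 1, 68560176, 69604176), (147, 1, 1, 68560176, 69604176), (132, 1, 1, 70653186, 69619761), (148, 1, 1, 68560176, 69604176), (7, 1, 1, 85341216, 73544016), (154, 16, 16, 37773651, 51709476), (115, 16, 16, 37834851, 20252226), (153, 16, 16, 37773651, 51709476), (155, 16, 16, 37773651, 51709476), (152, 16, 16, 37773651, 51709476), (150,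 1, 1, 68564256, 69611856), (150, 1, 1, 68498976, 38154576), (131, 1, 1, 70649106, 69619731), (149, 1, 1, 68564256, 69611856), (147, 1, 1, 68564256, 69611856), (151, 1, 1, 68564256, 69611856), (148, 1, 1, 68498976, 38154576), (151, 1, 1, 68498976, 38154576), (148, 1, 1, 68564256, 69611856), (132, 1, 1, 70649106, 69619731), (154, 16, 16, 37838931, 51709506), (7, 1, 1, 85210656, 40120656), (154, 16, 16, 37834851, 20252226), (154, 16, 16, 39927861, 84088386), (153, 16, 16, 37834851, 20252226), (155, 16, 16, 37838931, 51709506), (152, 16, 16, 37838931, 51709506), (115, 16, 16, 37769571, 20252196), (153, 16, 16, 37838931, 51709506), (154, 16, 16, 39923781, 83965506)]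
  [(8, 60), (131, -60), (132, -60), (133, 60), (147, 60), (148, 60), (149, -60), (151, -60), (152, -60), (153, -60), (154, 60), (155, 60)] = true := by
  decide +kernel

theorem t7_3_6 : chkS lk7 1 5 [(1, m7_3)] l7_6
  [(133, 1, 1, 68564256, 69611856), (132, 1, 1, 68564256, 69611856), (8, 16, 16, 19161936, 51651936), (8, 16, 16, 19096656, 51529056), (132, 1, 1, 68498976, 38154576), (133, 1, 1, 68498976, 38154576), (133, 1, 1, 68560176, 69604176), (132, 1, 1, 68560176, 69604176), (131, 1, 1, 68564256, 69611856), (131, 1, 1, 68560176, 69604176), (149, 1, 1, 68560176, 69604176), (132, 1, 1, 70653186, 69619761), (150, 1, 1, 68560176, 69604176), (148, 1, 1, 68560176, 69604176), (131, 1, 1, 70653186, 69619761), (147, 1, 1, 68560176, 69604176), (115, 16, 16, 37834851, 20252226), (155, 16, 16, 37773651, 51709476), (7, 1, 1, 85341216, 73544016), (152, 16, 16, 37773651, 51709476), (154, 16, 16,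 37773651, 51709476), (153, 16, 16, 37773651, 51709476), (151, 1, 1, 68564256, 69611856), (151, 1, 1, 68498976, 38154576), (149, 1, 1, 68564256, 69611856), (132, 1, 1, 70649106, 69619731), (150, 1, 1, 68564256, 69611856), (148, 1, 1, 68564256, 69611856), (150, 1, 1, 68498976, 38154576), (148, 1, 1, 68498976, 38154576), (131, 1, 1, 70649106, 69619731), (147, 1, 1, 68564256, 69611856), (155, 16, 16, 37838931, 51709506), (115, 16, 16, 37769571, 20252196), (154, 16, 16, 39927861, 84088386), (154, 16, 16, 39923781, 83965506), (154, 16, 16, 37838931, 51709506), (153, 16, 16, 37838931, 51709506), (7, 1, 1, 85210656, 40120656), (152, 16, 16, 37838931, 51709506), (154, 16, 16, 37834851, 20252226), (153, 16, 16, 37834851, 20252226)]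
  [(132, -120), (133, 120), (148, 120), (150, -120), (153, -120), (154, 120), (155, 0)] = true := by
  decide +kernel

theorem t7_3_7 : chkS lk7 1 5 [(1, m7_3)] l7_7
  [(8, 16, 16, 19096656, 51529056), (133, 1, 1, 68498976, 38154576), (132, 1, 1, 68564256, 69611856), (132, 1, 1, 68498976, 38154576), (133, 1, 1, 68564256, 69611856), (8, 16, 16, 19161936, 51651936), (132, 1, 1, 68560176, 69604176), (131, 1, 1, 68560176, 69604176), (131, 1, 1, 68564256, 69611856), (133, 1, 1, 68560176, 69604176), (148, 1, 1, 68560176, 69604176), (147, 1, 1, 68560176, 69604176), (132, 1, 1, 70653186, 69619761), (131, 1, 1, 70653186, 69619761), (149, 1, 1, 68560176, 69604176), (150, 1, 1, 68560176, 69604176), (152, 16, 16, 37773651, 51709476), (153, 16, 16, 37773651, 51709476), (155, 16, 16, 37773651, 51709476), (154, 16, 16, 37773651, 51709476), (115, 16, 16, 37834851, 20252226), (7, 1, 1, 85341216, 73544016),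 (132, 1, 1, 70649106, 69619731), (151, 1, 1, 68498976, 38154576), (148, 1, 1, 68564256, 69611856), (148, 1, 1, 68498976, 38154576), (150, 1, 1, 68498976, 38154576), (151, 1, 1, 68564256, 69611856), (150, 1, 1, 68564256, 69611856), (147, 1, 1, 68564256, 69611856), (131, 1, 1, 70649106, 69619731), (149, 1, 1, 68564256, 69611856), (154, 16, 16, 39923781, 83965506), (115, 16, 16, 37769571, 20252196), (153, 16, 16, 37838931, 51709506), (152, 16, 16, 37838931, 51709506), (7, 1, 1, 85210656, 40120656), (155, 16, 16, 37838931, 51709506), (154, 16, 16, 37838931, 51709506), (153, 16, 16, 37834851, 20252226), (154, 16, 16, 37834851, 20252226), (154, 16, 16, 39927861, 84088386)]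
  [(7, -60), (8, 60), (115, 60), (133, -60), (150, 60), (151, -60), (155, 0)] = true := by
  decide +kernel

theorem t7_3_8 : chkS lk7 1 5 [(1, m7_3)] l7_8
  [(51, 1, 1, 101983536, 103027536), (10, 16, 16, 104145921, 105009921), (61, 16, 16, 103960641, 103896066), (60, 16, 16, 103956561, 101929986), (54, 1, 1, 104076546, 103043121), (55, 1, 1, 104141826, 105009201), (105, 16, 16, 73413141, 84292116), (107, 16, 16, 73413141, 84292116), (106, 16, 16, 73535541, 84284466), (107, 16, 16, 73535541, 84284466), (48, 16, 16, 103891026, 101929026), (4, 16, 16, 103895106, 103895106)]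
  [(4, -60), (10, -60), (48, 60), (51, 60), (54, -60), (55, 60), (60, -60), (61, 60), (105, 60), (106, -60), (107, 0)] = true := by
  decide +kernel

theorem t7_3_9 : chkS lk7 1 5 [(1, m7_3)] l7_9
  [(23, 16, 16, 3482625, 4346625), (22, 16, 16, 2438160, 4338960), (18, 1, 1, 1389600, 4338000), (24, 1, 1, 1389600, 4338000), (57, 1, 1, 3478530, 4345905), (56, 1, 1, 3478530, 4345905), (24, 1, 1, 3413250, 2379825), (114, 16, 16, 5255700, 5255700), (28, 1, 1, 3474450, 4345875), (114, 16, 16, 5378100, 5248050), (21, 16, 16, 3231810, 3231810), (19, 16, 16, 3231810, 3231810)]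
  [(18, 60), (19, -60), (21, 60), (22, -60), (23, 60), (28, -60), (56, 60), (57, -60), (114, 0)] = true := by
  decide +kernel

theorem t7_4_4 : chkS lk7 1 5 [(1, m7_4)] l7_4
  [(96, 528, 528, 34628691, 51512916), (181, 513, 513, 101987616, 103035216), (97, 528, 528, 34621011, 34801236), (126, 258, 33, 86251011, 40109361), (126, 528, 528, 33633876, 34616901), (120, 258, 33, 86251011, 40109361), (97, 528, 528, 34625091, 36767316), (126, 513, 513, 70583826, 38162451), (126, 513, 513, 70587906, 38162481), (126, 528, 528, 33642036, 36705861), (50, 18, 18, 39059766, 5510691), (130, 513, 513, 100939041, 103035141), (100, 528, 528, 34620771, 19072596), (129, 33, 258, 54546726, 3498276), (130, 528, 528, 33633636, 18888261), (49, 528, 528, 33637731, 19072581), (53, 258, 33, 86251011, 40109361), (126, 513, 513, 84162081, 40120581), (50, 258, 33, 86251011, 40109361), (129, 33, 258, 6508836, 87048486),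 (129, 528, 528, 33633636, 18888261), (11, 528, 528, 19096656, 51529056), (100, 528, 528, 34628931, 52495956), (99, 528, 528, 34624611, 20055636), (50, 18, 18, 39072006, 5518881), (129, 288, 288, 2310501, 16991526), (138, 528, 528, 34628691, 51512916), (128, 528, 528, 33641316, 19932741), (49, 528, 528, 33645891, 52495941), (130, 513, 513, 100934961, 103027461), (129, 33, 258, 54534486, 1401636), (130, 528, 528, 33645876, 52434501), (129, 513, 513, 70649106, 69619731), (138, 258, 33, 101000241, 104993541), (129, 513, 513, 100939041, 103035141), (11, 288, 288, 34628436, 51390036), (121, 258, 33, 87430146, 73551921), (49, 258, 33, 69604611, 69600561), (127, 258, 33, 87430146, 73551921), (129, 513, 513, 100934961, 103027461), (127, 258, 33, 87426066, 73551891), (129, 513, 513, 70653186, 69619761)]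
  [(11, -24), (49, 24), (50, -24), (53, 12), (96, 48), (97, 72), (99, -48), (100, -60), (120, 12), (121, -48), (126, -96), (127, -72), (128, -12), (129, 168), (138, 96), (181, -48)] = true := by
  decide +kernel

theorem t7_4_5 : chkS lk7 1 5 [(1, m7_4)] l7_5
  [(51, 16, 16, 33637971, 34801221), (142, 16, 16, 3302481, 51532806), (10, 1, 1, 34821696, 36783696), (142, 16, 16, 34628691, 51512916), (51, 16, 16, 33642051, 36767301), (141, 16, 16, 34628691, 51512916), (142, 16, 16, 3298401, 20075526), (143, 16, 16, 34628691, 51512916), (140, 16, 16, 34628691, 51512916), (143, 16, 16, 34624611, 20055636), (134, 16, 16, 50419236, 36725061), (134, 1, 1, 69539331, 38143281), (136, 16, 16, 50419236, 36725061), (136, 1, 1, 84162081, 40120581), (135, 1, 1, 69539331, 38143281), (135, 1, 1, 84162081, 40120581), (131, 16, 16, 33645396, 51390021), (150, 1, 1, 87299586, 40128561), (132, 16, 16, 33641316,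 19932741), (133, 1, 1, 84158001, 40112901), (151, 1, 1, 87299586, 40128561), (8, 16, 16, 50422866, 51535941), (134, 16, 16, 50406996, 34628421), (183, 1, 1, 101983536, 103027536), (134, 1, 1, 69535251, 38143251), (136, 16, 16, 50406996, 34628421), (136, 1, 1, 84158001, 40112901), (135, 16, 16, 50406996, 34628421), (134, 1, 1, 84158001, 40112901), (185, 1, 1, 101983536, 103027536), (135, 1, 1, 84158001, 40112901), (135, 1, 1, 69535251, 38143251), (107, 16, 16, 34628691, 51512916), (103, 16, 16, 34628691, 51512916), (107, 16, 16, 34624611, 20055636), (105, 16, 16, 34628691, 51512916), (60, 16, 16, 34621011, 34801236), (106, 16, 16, 34628691, 51512916), (61, 16, 16, 34625091, 36767316), (104, 16, 16, 34624611, 20055636), (60, 16, 16, 34625091, 36767316), (105, 16, 16, 34624611, 20055636)]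
  [(8, -12), (10, 48), (51, 72), (60, -72), (61, -48), (103, -12), (104, 12), (105, 60), (106, 48), (107, 12), (131, 12), (132, -12), (133, 12), (134, 36), (135, -36), (140, 12), (141, -12), (142, -108), (143, -12), (150, -12), (151, 12), (183, 12), (185, -12)] = true := by
  decide +kernel

theorem t7_4_6 : chkS lk7 1 5 [(1, m7_4)] l7_6
  [(51, 16, 16, 33642051, 36767301), (143, 16, 16, 34628691, 51512916), (10, 1, 1, 34821696, 36783696), (140, 16, 16, 34628691, 51512916), (142, 16, 16, 34628691, 51512916), (141, 16, 16, 34628691, 51512916), (51, 16, 16, 33637971, 34801221), (143, 16, 16, 34624611, 20055636), (142, 16, 16, 3302481, 51532806), (142, 16, 16, 3298401, 20075526), (136, 16, 16, 50419236, 36725061), (135, 1, 1, 69539331, 38143281), (134, 16, 16, 50419236, 36725061), (135, 1, 1, 84162081, 40120581), (134, 1, 1, 69539331, 38143281), (136, 1, 1, 84162081, 40120581), (132, 16,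 16, 33641316, 19932741), (151, 1, 1, 87299586, 40128561), (131, 16, 16, 33645396, 51390021), (8, 16, 16, 50422866, 51535941), (150, 1, 1, 87299586, 40128561), (133, 1, 1, 84158001, 40112901), (135, 16, 16, 50406996, 34628421), (185, 1, 1, 101983536, 103027536), (136, 16, 16, 50406996, 34628421), (135, 1, 1, 69535251, 38143251), (134, 16, 16, 50406996, 34628421), (135, 1, 1, 84158001, 40112901), (183, 1, 1, 101983536, 103027536), (134, 1, 1, 84158001, 40112901), (134, 1, 1, 69535251, 38143251), (136, 1, 1, 84158001, 40112901), (106, 16, 16, 34628691, 51512916), (104, 16, 16, 34624611, 20055636), (105, 16, 16, 34628691, 51512916), (105, 16, 16, 34624611, 20055636), (107, 16, 16, 34628691, 51512916), (60, 16, 16, 34625091, 36767316), (103, 16, 16, 34628691, 51512916), (61, 16, 16, 34625091, 36767316), (107, 16, 16, 34624611, 20055636), (60, 16, 16, 34621011, 34801236)]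
  [(8, 24), (10, 24), (51, 96), (60, -96), (61, -24), (103, 24), (104, -24), (106, 24), (107, 96), (131, -24), (132, 24), (133, -24), (134, -72), (135, 72), (140, -24), (141, 24), (142, -24), (143, -96), (150, 24), (151, -24), (183, -24), (185, 24)] = true := by
  decide +kernel

theorem t7_4_7 : chkS lk7 1 5 [(1, m7_4)] l7_7
  [(140, 16, 16, 34628691, 51512916), (141, 16, 16, 34628691, 51512916), (143, 16, 16, 34628691, 51512916), (142, 16, 16, 34628691, 51512916), (51, 16, 16, 33642051, 36767301), (10, 1, 1, 34821696, 36783696), (143, 16, 16, 34624611, 20055636), (142, 16, 16, 3298401, 20075526), (142, 16, 16, 3302481, 51532806), (51, 16, 16, 33637971, 34801221), (135, 1, 1, 84162081, 40120581), (136, 1, 1, 84162081, 40120581), (135, 1, 1, 69539331, 38143281), (134, 1, 1, 69539331, 38143281), (136, 16, 16, 50419236, 36725061), (134, 16, 16, 50419236, 36725061), (8, 16, 16, 50422866,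 51535941), (133, 1, 1, 84158001, 40112901), (151, 1, 1, 87299586, 40128561), (150, 1, 1, 87299586, 40128561), (132, 16, 16, 33641316, 19932741), (131, 16, 16, 33645396, 51390021), (135, 1, 1, 69535251, 38143251), (185, 1, 1, 101983536, 103027536), (135, 1, 1, 84158001, 40112901), (134, 1, 1, 84158001, 40112901), (183, 1, 1, 101983536, 103027536), (135, 16, 16, 50406996, 34628421), (134, 16, 16, 50406996, 34628421), (136, 1, 1, 84158001, 40112901), (134, 1, 1, 69535251, 38143251), (136, 16, 16, 50406996, 34628421), (105, 16, 16, 34624611, 20055636), (104, 16, 16, 34624611, 20055636), (60, 16, 16, 34625091, 36767316), (61, 16, 16, 34625091, 36767316), (103, 16, 16, 34628691, 51512916), (106, 16, 16, 34628691, 51512916), (107, 16, 16, 34628691, 51512916), (60, 16, 16, 34621011, 34801236), (107, 16, 16, 34624611, 20055636), (105, 16, 16, 34628691, 51512916)]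
  [(8, 12), (10, 12), (51, -12), (60, 12), (61, -12), (103, -48), (104, 48), (105, 60), (106, 12), (107, -72), (131, -12), (132, 12), (133, -12), (134, 84), (135, -84), (140, 48), (141, -48), (142, -72), (143, 72), (150, 12), (151, -12), (183, 48), (185, -48)] = true := by
  decide +kernel

theorem t7_4_8 : chkS lk7 1 5 [(1, m7_4)] l7_8
  [(144, 1, 1, 101000241, 104993541), (144, 1, 1, 67446321, 38146821), (10, 1, 1, 100815681, 103883781), (51, 16, 16, 103956816, 101930016), (123, 1, 1, 103093251, 104990001), (123, 1, 1, 69539331, 38143281), (108, 16, 16, 101733411, 103940436), (108, 16, 16, 68179491, 37093716), (135, 16, 16, 102957381, 100746531), (134, 16, 16, 102957381, 100746531), (44, 16, 16, 102777171, 101909796), (9, 1, 1, 100939041, 103035141)]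
  [(9, -60), (10, 60), (44, 60), (51, -60), (134, 60), (135, -60), (144, 0)] = true := by
  decide +kernel

theorem t7_4_9 : chkS lk7 1 5 [(1, m7_4)] l7_9
  [(27, 1, 1, 1324320, 2371920), (27, 16, 16, 2311440, 2311440), (22, 1, 1, 1266240, 3228240), (23, 1, 1, 152385, 3220485), (58, 16, 16, 2299140, 2114865), (58, 1, 1, 2364675, 2360625), (29, 1, 1, 275745, 2371845), (29, 1, 1, 2364675, 2360625), (26, 1, 1, 336945, 4330245), (25, 1, 1, 2295060, 2114835), (28, 1, 1, 275745, 2371845), (18, 1, 1, 275745, 2371845)]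
  [(18, -60), (22, 60), (23, -60), (25, 60), (26, -60), (28, 60), (58, 0)] = true := by
  decide +kernel

theorem t7_5_5 : chkS lk7 1 5 [(1, m7_5)] l7_5
  [(169, 0, 0, 51668256, 52715856), (170, 0, 0, 51668256, 52715856), (163, 0, 0, 85210656, 40120656), (86, 0, 0, 68379936, 52838736), (163, 0, 0, 85222176, 56893776), (86, 0, 0, 68376096, 37110096), (164, 0, 0, 22291296, 22291296), (164, 0, 0, 85345056, 73605456), (164, 0, 0, 85341216, 73544016), (173, 0, 0, 85345056, 73605456), (161, 0, 0, 34891056, 52696656), (162, 0, 0, 34891056, 52696656), (157, 0, 0, 84173601, 56893701), (158, 0, 0, 19150341, 33830241), (79, 0, 0, 3302676, 52450326), (78, 0, 0, 3302676, 52450326), (157, 0, 0, 34891056, 52696656), (79, 0, 0, 21373011, 68485986), (62, 0, 0, 85156896, 56770896), (63, 0, 0, 21176421, 17122146), (64, 0, 0, 85156896, 56770896), (69, 0, 0, 67515681, 69611781), (157, 0, 0, 34887216, 36968016),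 (79, 0, 0, 21365331, 68485731), (79, 0, 0, 50742561, 69427461), (156, 0, 0, 101995056, 104075856), (72, 0, 0, 50742561, 69427461), (62, 0, 0, 85149216, 40059216), (63, 0, 0, 21168741, 17121891), (64, 0, 0, 85149216, 40059216), (69, 0, 0, 67523361, 70656261), (75, 0, 0, 67523361, 70656261), (158, 0, 0, 34948656, 37951056), (158, 0, 0, 34956336, 54662736), (78, 0, 0, 50619681, 52715781), (72, 0, 0, 3237156, 52449606), (71, 0, 0, 50619681, 52715781), (63, 0, 0, 68498976, 38154576), (68, 0, 0, 67450401, 38154501), (63, 0, 0, 68510496, 54927696), (68, 0, 0, 67461921, 54927621), (69, 0, 0, 4268901, 17113926)]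
  [(62, -60), (63, 120), (68, -72), (69, 24), (71, -48), (72, 96), (75, -12), (78, -24), (79, 24), (86, -60), (156, -48), (157, -24), (158, 24), (161, 12), (162, -12), (163, 72), (164, -24), (169, 48), (170, -48), (173, 12)] = true := by
  decide +kernel

theorem t7_5_6 : chkS lk7 1 5 [(1, m7_5)] l7_6
  [(163, 0, 0, 85222176, 56893776), (164, 0, 0, 85345056, 73605456), (163, 0, 0, 85210656, 40120656), (164, 0, 0, 85341216, 73544016), (86, 0, 0, 68379936, 52838736), (86, 0, 0, 68376096, 37110096), (169, 0, 0, 51668256, 52715856), (173, 0, 0, 85345056, 73605456), (170, 0, 0, 51668256, 52715856), (164, 0, 0, 22291296, 22291296), (157, 0, 0, 84173601, 56893701), (79, 0, 0, 3302676, 52450326), (161, 0, 0, 34891056, 52696656), (78, 0, 0, 3302676, 52450326), (162, 0, 0, 34891056, 52696656), (158, 0, 0, 19150341, 33830241), (62, 0, 0, 85156896, 56770896), (64, 0, 0, 85156896, 56770896), (157,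 0, 0, 34891056, 52696656), (69, 0, 0, 67515681, 69611781), (79, 0, 0, 21373011, 68485986), (63, 0, 0, 21176421, 17122146), (62, 0, 0, 85149216, 40059216), (64, 0, 0, 85149216, 40059216), (156, 0, 0, 101995056, 104075856), (75, 0, 0, 67523361, 70656261), (157, 0, 0, 34887216, 36968016), (69, 0, 0, 67523361, 70656261), (79, 0, 0, 21365331, 68485731), (63, 0, 0, 21168741, 17121891), (79, 0, 0, 50742561, 69427461), (72, 0, 0, 50742561, 69427461), (63, 0, 0, 68498976, 38154576), (63, 0, 0, 68510496, 54927696), (72, 0, 0, 3237156, 52449606), (69, 0, 0, 4268901, 17113926), (158, 0, 0, 34948656, 37951056), (68, 0, 0, 67461921, 54927621), (158, 0, 0, 34956336, 54662736), (68, 0, 0, 67450401, 38154501), (78, 0, 0, 50619681, 52715781), (71, 0, 0, 50619681, 52715781)]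
  [(68, -96), (69, 72), (71, -24), (72, 48), (75, 24), (78, 48), (79, -48), (156, -24), (157, -72), (158, 72), (161, -24), (162, 24), (163, 96), (164, -72), (169, 24), (170, -24), (173, -24)] = true := by
  decide +kernel

theorem t7_5_7 : chkS lk7 1 5 [(1, m7_5)] l7_7
  [(164, 0, 0, 85341216, 73544016), (86, 0, 0, 68376096, 37110096), (164, 0, 0, 85345056, 73605456), (86, 0, 0, 68379936, 52838736), (163, 0, 0, 85222176, 56893776), (163, 0, 0, 85210656, 40120656), (173, 0, 0, 85345056, 73605456), (164, 0, 0, 22291296, 22291296), (170, 0, 0, 51668256, 52715856), (169, 0, 0, 51668256, 52715856), (78, 0, 0, 3302676, 52450326), (158, 0, 0, 19150341, 33830241), (79, 0, 0, 3302676, 52450326), (162, 0, 0, 34891056, 52696656), (157, 0, 0, 84173601, 56893701), (161, 0, 0, 34891056, 52696656), (69, 0, 0, 67515681, 69611781), (63, 0, 0, 21176421, 17122146), (64, 0, 0, 85156896, 56770896), (79,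 0, 0, 21373011, 68485986), (62, 0, 0, 85156896, 56770896), (157, 0, 0, 34891056, 52696656), (75, 0, 0, 67523361, 70656261), (64, 0, 0, 85149216, 40059216), (69, 0, 0, 67523361, 70656261), (63, 0, 0, 21168741, 17121891), (79, 0, 0, 21365331, 68485731), (62, 0, 0, 85149216, 40059216), (157, 0, 0, 34887216, 36968016), (72, 0, 0, 50742561, 69427461), (79, 0, 0, 50742561, 69427461), (156, 0, 0, 101995056, 104075856), (69, 0, 0, 4268901, 17113926), (63, 0, 0, 68510496, 54927696), (68, 0, 0, 67461921, 54927621), (68, 0, 0, 67450401, 38154501), (158, 0, 0, 34956336, 54662736), (63, 0, 0, 68498976, 38154576), (158, 0, 0, 34948656, 37951056), (71, 0, 0, 50619681, 52715781), (78, 0, 0, 50619681, 52715781), (72, 0, 0, 3237156, 52449606)]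
  [(63, 60), (64, -60), (68, 12), (69, 36), (71, -12), (72, 24), (75, -48), (78, -36), (79, 96), (86, -60), (156, -12), (157, 24), (158, -84), (161, -12), (162, 12), (163, -12), (164, 24), (169, 12), (170, -12), (173, 48)] = true := by
  decide +kernel

theorem t7_5_8 : chkS lk7 1 5 [(1, m7_5)] l7_8
  [(174, 0, 0, 51537216, 52520016), (175, 0, 0, 101929536, 103891536), (166, 0, 0, 101987616, 103035216), (86, 0, 0, 101930016, 103956816), (159, 0, 0, 100946721, 104079621), (79, 0, 0, 35013936, 69408336), (158, 0, 0, 67461921, 54927621), (78, 0, 0, 34891056, 52696656), (65, 0, 0, 101930016, 103956816), (76, 0, 0, 35017776, 70391376), (63, 0, 0, 51733536, 54681936), (69, 0, 0, 105979956, 105911106)]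
  [(63, 60), (65, -60), (69, -60), (76, 60), (78, -60), (79, 60), (86, -60), (158, 60), (159, -60), (166, 60), (174, 60), (175, -60)] = true := by
  decide +kernel

theorem t7_5_9 : chkS lk7 1 5 [(1, m7_5)] l7_9
  [(177, 0, 0, 1266720, 3293520), (176, 0, 0, 1389120, 4272720), (167, 0, 0, 1324320, 2371920), (87, 0, 0, 1266720, 3293520), (160, 0, 0, 283425, 3416325), (84, 0, 0, 341025, 4337925), (84, 0, 0, 2184195, 3278145), (20, 0, 0, 218145, 3293445), (66, 0, 0, 1266720, 3293520), (15, 0, 0, 340545, 4272645), (67, 0, 0, 1389600, 4338000), (70, 0, 0, 341025, 4337925)]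
  [(15, 60), (20, -60), (66, -60), (67, 60), (70, -60), (84, 120), (87, -60), (160, -60), (167, 60), (176, -60), (177, 60)] = true := by
  decide +kernel

theorem t7_6_6 : chkS lk7 1 5 [(1, m7_6)] l7_6
  [(169, 0, 0, 51652176, 34890576), (173, 0, 0, 85337136, 73536336), (163, 0, 0, 85206576, 40112976), (164, 0, 0, 85337136, 73536336), (164, 0, 0, 22307376, 55841376), (170, 0, 0, 51652176, 34890576), (163, 0, 0, 85205856, 23339856), (164, 0, 0, 85336896, 73474896), (164, 0, 0, 22307616, 55845216), (170, 0, 0, 51651936, 19161936), (156, 0, 0, 101986896, 101986896), (75, 0, 0, 67511121, 68559621), (157, 0, 0, 34879056, 34879056), (69, 0, 0, 67511121, 68559621), (79, 0, 0, 50734401, 69296901), (72, 0, 0, 50734401, 69296901), (156, 0, 0, 101987616, 103035216), (75, 0, 0, 67511601, 69604101), (157, 0, 0, 34878816, 19150416), (69, 0, 0, 67511601, 69604101), (79, 0, 0, 50734161, 68313861),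 (72, 0, 0, 50734161, 68313861), (157, 0, 0, 84158001, 40112901), (79, 0, 0, 3282516, 34624566), (157, 0, 0, 84157281, 23339781), (79, 0, 0, 3282276, 18895926), (161, 0, 0, 34879056, 34879056), (78, 0, 0, 3282516, 34624566), (162, 0, 0, 34879056, 34879056), (158, 0, 0, 19137381, 17048931), (162, 0, 0, 34878816, 19150416), (158, 0, 0, 19138101, 33822051), (69, 0, 0, 4284981, 50664006), (72, 0, 0, 3221076, 34624326), (69, 0, 0, 4285221, 50667846), (72, 0, 0, 3220836, 18895686), (78, 0, 0, 50603601, 34890501), (71, 0, 0, 50603601, 34890501), (158, 0, 0, 34944096, 21116496), (68, 0, 0, 67446321, 38146821), (158, 0, 0, 34944576, 37828176), (68, 0, 0, 67445601, 21373701)]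
  [(68, -48), (69, 96), (71, -72), (72, -96), (75, -48), (78, 144), (79, 96), (156, 48), (157, -96), (158, 96), (161, -72), (162, -48), (163, 48), (164, -96), (169, 72), (170, 48), (173, -72)] = true := by
  decide +kernel

theorem t7_6_7 : chkS lk7 1 5 [(1, m7_6)] l7_7
  [(164, 0, 0, 85337136, 73536336), (170, 0, 0, 51652176, 34890576), (173, 0, 0, 85337136, 73536336), (164, 0, 0, 22307376, 55841376), (169, 0, 0, 51652176, 34890576), (163, 0, 0, 85206576, 40112976), (164, 0, 0, 85336896, 73474896), (170, 0, 0, 51651936, 19161936), (164, 0, 0, 22307616, 55845216), (163, 0, 0, 85205856, 23339856), (69, 0, 0, 67511121, 68559621), (72, 0, 0, 50734401, 69296901), (75, 0, 0, 67511121, 68559621), (79, 0, 0, 50734401, 69296901), (156, 0, 0, 101986896, 101986896), (157, 0, 0, 34879056, 34879056), (69, 0, 0, 67511601, 69604101), (72, 0, 0, 50734161, 68313861), (75, 0, 0, 67511601, 69604101),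 (79, 0, 0, 50734161, 68313861), (156, 0, 0, 101987616, 103035216), (157, 0, 0, 34878816, 19150416), (79, 0, 0, 3282276, 18895926), (79, 0, 0, 3282516, 34624566), (78, 0, 0, 3282516, 34624566), (158, 0, 0, 19137381, 17048931), (162, 0, 0, 34879056, 34879056), (157, 0, 0, 84158001, 40112901), (161, 0, 0, 34879056, 34879056), (158, 0, 0, 19138101, 33822051), (162, 0, 0, 34878816, 19150416), (157, 0, 0, 84157281, 23339781), (72, 0, 0, 3220836, 18895686), (72, 0, 0, 3221076, 34624326), (71, 0, 0, 50603601, 34890501), (68, 0, 0, 67446321, 38146821), (158, 0, 0, 34944096, 21116496), (69, 0, 0, 4284981, 50664006), (78, 0, 0, 50603601, 34890501), (68, 0, 0, 67445601, 21373701), (158, 0, 0, 34944576, 37828176), (69, 0, 0, 4285221, 50667846)]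
  [(68, -24), (69, 48), (71, 24), (72, 72), (75, -24), (78, -48), (79, -72), (156, 24), (157, -48), (158, -72), (161, 24), (162, 96), (163, 24), (164, 72), (169, -24), (170, -96), (173, 24)] = true := by
  decide +kernel

theorem t7_6_8 : chkS lk7 1 5 [(1, m7_6)] l7_8
  [(166, 0, 0, 101983056, 101983056), (86, 0, 0, 51782976, 69296976), (166, 0, 0, 101983536, 103027536), (86, 0, 0, 51782736, 68313936), (159, 0, 0, 100934481, 101982981), (79, 0, 0, 35009856, 69285456), (72, 0, 0, 104944131, 104137281), (69, 0, 0, 105984516, 105919041), (159, 0, 0, 100934961, 103027461), (79, 0, 0, 35009616, 68302416), (72, 0, 0, 104943651, 104137026), (69, 0, 0, 105984036, 105918786)]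
  [(69, -120), (72, 120), (79, 120), (86, -120), (159, -120), (166, 120)] = true := by
  decide +kernel

theorem t7_6_9 : chkS lk7 1 5 [(1, m7_6)] l7_9
  [(167, 0, 0, 1319760, 1319760), (87, 0, 0, 4411920, 3490320), (167, 0, 0, 1320240, 2364240), (87, 0, 0, 4411680, 3490080), (160, 0, 0, 271185, 1319685), (84, 0, 0, 336945, 4330245), (73, 0, 0, 4280835, 3473985), (70, 0, 0, 336705, 4268805), (160, 0, 0, 271665, 2364165), (84, 0, 0, 336705, 4268805), (73, 0, 0, 4280355, 3473730), (70, 0, 0, 336945, 4330245)]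
  [(70, -120), (73, 120), (84, 120), (87, -120), (160, -120), (167, 120)] = true := by
  decide +kernel

theorem t7_7_7 : chkS lk7 1 5 [(1, m7_7)] l7_7
  [(169, 0, 0, 51536976, 51536976), (163, 0, 0, 85091376, 56759376), (170, 0, 0, 51536976, 51536976), (164, 0, 0, 85083696, 40047696), (164, 0, 0, 22422576, 72487776), (173, 0, 0, 85083696, 40047696), (170, 0, 0, 51532896, 20079696), (86, 0, 0, 68309856, 20325456), (86, 0, 0, 68313936, 51782736), (164, 0, 0, 22426656, 72495456), (72, 0, 0, 50484801, 36791301), (63, 0, 0, 21373701, 67445601), (75, 0, 0, 85156416, 56705616), (79, 0, 0, 21308931, 38077281), (64, 0, 0, 22226436, 38814561), (79, 0, 0, 50484801, 36791301), (71, 0, 0, 50488401, 51536901), (68, 0, 0, 67265841, 52827141), (72, 0, 0, 3301716, 51401766), (158, 0, 0, 34817376, 19088976), (69, 0, 0, 4596021, 67441446), (78, 0, 0, 50488401, 51536901), (75, 0, 0, 85148256, 23282256),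 (156, 0, 0, 101930016, 103956816), (72, 0, 0, 50480721, 34825221), (69, 0, 0, 67262001, 37098501), (157, 0, 0, 34821216, 20072016), (75, 0, 0, 67262001, 37098501), (79, 0, 0, 50480721, 34825221), (63, 0, 0, 21365541, 67445091), (79, 0, 0, 21300771, 38076771), (64, 0, 0, 22218276, 38814051), (79, 0, 0, 68375136, 20333136), (157, 0, 0, 84042801, 56759301), (158, 0, 0, 18887781, 16921956), (78, 0, 0, 3236436, 51401286), (161, 0, 0, 34825296, 51529296), (79, 0, 0, 3236436, 51401286), (162, 0, 0, 34825296, 51529296), (158, 0, 0, 18900021, 50468196), (162, 0, 0, 34821216, 20072016), (79, 0, 0, 68379216, 51790416)]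
  [(68, -12), (69, 24), (71, 12), (72, -24), (75, -72), (78, -24), (79, 144), (86, -60), (156, -48), (157, 96), (158, 24), (161, -48), (162, -72), (163, -48), (164, -24), (169, 48), (170, 72), (173, 12)] = true := by
  decide +kernel

theorem t7_7_8 : chkS lk7 1 5 [(1, m7_7)] l7_8
  [(86, 0, 0, 51533376, 36791376), (86, 0, 0, 101864256, 103883856), (85, 0, 0, 105197856, 105197856), (165, 0, 0, 68314416, 52827216), (76, 0, 0, 101929536, 103891536), (76, 0, 0, 34821696, 36783696), (79, 0, 0, 101929536, 103891536), (79, 0, 0, 34821696, 36783696), (72, 0, 0, 105185571, 105185571), (69, 0, 0, 106103076, 105922851), (158, 0, 0, 67265841, 52827141), (78, 0, 0, 34825296, 51529296)]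
  [(69, 60), (72, -60), (78, -60), (85, 60), (158, 60), (165, -60)] = true := by
  decide +kernel

theorem t7_7_9 : chkS lk7 1 5 [(1, m7_7)] l7_9
  [(87, 0, 0, 4530960, 4530960), (87, 0, 0, 1200960, 3220560), (17, 0, 0, 1266240, 3228240), (168, 0, 0, 1197360, 2298960), (77, 0, 0, 1266240, 3228240), (15, 0, 0, 275745, 2371845), (80, 0, 0, 1266240, 3228240), (84, 0, 0, 148785, 2298885), (73, 0, 0, 4522275, 4522275), (70, 0, 0, 148785, 2298885), (84, 0, 0, 2117955, 3212580), (20, 0, 0, 152385, 3220485)]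
  [(15, 60), (17, 60), (20, -60), (70, 60), (73, -60), (77, -60), (80, 60), (168, -60)] = true := by
  decide +kernel

theorem t7_8_8 : chkS lk7 1 5 [(1, m7_8)] l7_8
  [(3, 0, 0, 106181136, 106181136), (178, 0, 0, 103961616, 103961616), (170, 0, 0, 105194256, 105194256), (86, 0, 0, 103961616, 103961616), (170, 0, 0, 105198081, 105198081), (164, 0, 0, 105058821, 101007921), (164, 0, 0, 73740801, 88486401), (173, 0, 0, 40190721, 88286721), (81, 0, 0, 103961616, 103961616), (76, 0, 0, 40064016, 87180816), (76, 0, 0, 102773076, 101725476), (75, 0, 0, 40121616, 86259216)]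
  [(3, 60), (75, -60), (76, 120), (81, -60), (86, -60), (164, 120), (173, -60), (178, -60)] = true := by
  decide +kernel

theorem t7_8_9 : chkS lk7 1 5 [(1, m7_8)] l7_9
  [(16, 0, 0, 5517840, 5517840), (14, 0, 0, 5456400, 5456400), (171, 0, 0, 4530960, 4530960), (87, 0, 0, 3298320, 3298320), (171, 0, 0, 4534785, 4534785), (168, 0, 0, 4395525, 344625), (87, 0, 0, 5517825, 5517825), (17, 0, 0, 3232770, 3297345), (82, 0, 0, 3298320, 3298320), (15, 0, 0, 5517825, 5517825), (77, 0, 0, 3219540, 1069890), (73, 0, 0, 5513985, 5513985)]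
  [(14, -60), (15, 60), (16, 60), (17, -60), (73, -60), (77, 60), (82, -60), (168, 60), (171, 0)] = true := by
  decide +kernel

theorem t7_9_9 : chkS lk7 1 5 [(1, m7_9)] l7_9
  [(6, 0, 0, 274960, 274960), (0, 0, 0, 274960, 274960), (172, 0, 0, 271120, 271120), (88, 0, 0, 148240, 205840), (172, 0, 0, 274945, 274945), (30, 0, 0, 267010, 270385), (30, 0, 0, 148225, 205825), (1, 0, 0, 148225, 205825), (83, 0, 0, 148240, 205840), (5, 0, 0, 274945, 274945), (5, 0, 0, 81970, 200770), (74, 0, 0, 271105, 271105)]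
  [(0, -60), (1, -60), (5, 120), (6, 60), (30, 120), (74, -60), (83, -60), (88, -60), (172, 0)] = true := by
  decide +kernel

section

variable {κ ι : Type*} [Fintype κ] [Fintype ι] [Inhabited κ] [Inhabited ι]

noncomputable def F7_0 (E : Env κ ι) : (Fin 1 → κ) → (Fin 5 → ι) → ℝ := op2 (P0 κ) (P7 ι) (fB E 1 5 m7_0)

noncomputable def F7_1 (E : Env κ ι) : (Fin 1 → κ) → (Fin 5 → ι) → ℝ := op2 (P0 κ) (P7 ι) (fB E 1 5 m7_1)

noncomputable def F7_2 (E : Env κ ι) : (Fin 1 → κ) → (Fin 5 → ι) → ℝ := op2 (P0 κ) (P7 ι) (fB E 1 5 m7_2)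

noncomputable def F7_3 (E : Env κ ι) : (Fin 1 → κ) → (Fin 5 → ι) → ℝ := op2 (P0 κ) (P7 ι) (fB E 1 5 m7_3)

noncomputable def F7_4 (E : Env κ ι) : (Fin 1 → κ) → (Fin 5 → ι) → ℝ := op2 (P0 κ) (P7 ι) (fB E 1 5 m7_4)

noncomputable def F7_5 (E : Env κ ι) : (Fin 1 → κ) → (Fin 5 → ι) → ℝ := op2 (P0 κ) (P7 ι) (fB E 1 5 m7_5)

noncomputable def F7_6 (E : Env κ ι) : (Fin 1 → κ) → (Fin 5 → ι) → ℝ := op2 (P0 κ) (P7 ι) (fB E 1 5 m7_6)

noncomputable def F7_7 (E : Env κ ι) : (Fin 1 → κ) → (Fin 5 → ι) → ℝ := op2 (P0 κ) (P7 ι) (fB E 1 5 m7_7)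

noncomputable def F7_8 (E : Env κ ι) : (Fin 1 → κ) → (Fin 5 → ι) → ℝ := op2 (P0 κ) (P7 ι) (fB E 1 5 m7_8)

noncomputable def F7_9 (E : Env κ ι) : (Fin 1 → κ) → (Fin 5 → ι) → ℝ := op2 (P0 κ) (P7 ι) (fB E 1 5 m7_9)

def r7_0_0 : List (ℕ × ℤ) := [(31, -60), (32, 120), (40, 60), (41, -60), (59, -60), (89, 60), (95, -60)]

theorem h7_0_0 (E : Env κ ι) : ip (F7_0 E) (F7_0 E) = dotS (ek E lk7) r7_0_0 :=
  op_entryZ E lk7 1 5 _ _ _ _ (pg0 κ) (pg7 ι) m7_0 m7_0 l7_0 z7_0 w7_0 x7_0 (by decide) _ (chkS_sound E lk7 1 5 _ _ _ _ t7_0_0)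

def r7_0_1 : List (ℕ × ℤ) := [(42, 120), (43, -120), (94, 120), (98, -120), (99, -120), (100, 120)]

theorem h7_0_1 (E : Env κ ι) : ip (F7_0 E) (F7_1 E) = dotS (ek E lk7) r7_0_1 :=
  op_entryZ E lk7 1 5 _ _ _ _ (pg0 κ) (pg7 ι) m7_0 m7_1 l7_1 z7_1 w7_1 x7_1 (by decide) _ (chkS_sound E lk7 1 5 _ _ _ _ t7_0_1)

def r7_0_2 : List (ℕ × ℤ) := [(12, -60), (31, -60), (32, 120), (42, 60), (43, -120), (94, 60), (96, 60), (97, -60), (99, -60), (100, 60)]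

theorem h7_0_2 (E : Env κ ι) : ip (F7_0 E) (F7_2 E) = dotS (ek E lk7) r7_0_2 :=
  op_entryZ E lk7 1 5 _ _ _ _ (pg0 κ) (pg7 ι) m7_0 m7_2 l7_2 z7_2 w7_2 x7_2 (by decide) _ (chkS_sound E lk7 1 5 _ _ _ _ t7_0_2)

def r7_0_3 : List (ℕ × ℤ) := [(32, -60), (33, 60), (34, 60), (35, -60), (43, 60), (47, -60), (50, -60), (53, 60), (101, 0)]

theorem h7_0_3 (E : Env κ ι) : ip (F7_0 E) (F7_3 E) = dotS (ek E lk7) r7_0_3 :=
  op_entryZ E lk7 1 5 _ _ _ _ (pg0 κ) (pg7 ι) m7_0 m7_3 l7_3 z7_3 w7_3 x7_3 (by decide) _ (chkS_sound E lk7 1 5 _ _ _ _ t7_0_3)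

def r7_0_4 : List (ℕ × ℤ) := [(32, 60), (34, -60), (43, -60), (50, 60), (98, 60), (100, -60)]

theorem h7_0_4 (E : Env κ ι) : ip (F7_0 E) (F7_4 E) = dotS (ek E lk7) r7_0_4 :=
  op_entryZ E lk7 1 5 _ _ _ _ (pg0 κ) (pg7 ι) m7_0 m7_4 l7_4 z7_4 w7_4 x7_4 (by decide) _ (chkS_sound E lk7 1 5 _ _ _ _ t7_0_4)

def r7_0_5 : List (ℕ × ℤ) := [(7, -60), (103, 60), (104, 60), (106, -60), (107, -60), (115, -60), (116, 60), (117, 60), (154, 60), (155, 60), (179, -60), (180, -60)]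

theorem h7_0_5 (E : Env κ ι) : ip (F7_0 E) (F7_5 E) = dotS (ek E lk7) r7_0_5 :=
  op_entryZ E lk7 1 5 _ _ _ _ (pg0 κ) (pg7 ι) m7_0 m7_5 l7_5 z7_5 w7_5 x7_5 (by decide) _ (chkS_sound E lk7 1 5 _ _ _ _ t7_0_5)

def r7_0_6 : List (ℕ × ℤ) := [(104, 120), (105, -120), (115, -120), (116, 120), (154, 120), (179, -120), (180, 0)]

theorem h7_0_6 (E : Env κ ι) : ip (F7_0 E) (F7_6 E) = dotS (ek E lk7) r7_0_6 :=
  op_entryZ E lk7 1 5 _ _ _ _ (pg0 κ) (pg7 ι) m7_0 m7_6 l7_6 z7_6 w7_6 x7_6 (by decide) _ (chkS_sound E lk7 1 5 _ _ _ _ t7_0_6)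

def r7_0_7 : List (ℕ × ℤ) := [(7, -60), (9, 60), (44, -60), (105, 60), (106, -60), (115, 60), (116, 60), (117, -60), (154, -60), (155, 60), (180, 0)]

theorem h7_0_7 (E : Env κ ι) : ip (F7_0 E) (F7_7 E) = dotS (ek E lk7) r7_0_7 :=
  op_entryZ E lk7 1 5 _ _ _ _ (pg0 κ) (pg7 ι) m7_0 m7_7 l7_7 z7_7 w7_7 x7_7 (by decide) _ (chkS_sound E lk7 1 5 _ _ _ _ t7_0_7)

def r7_0_8 : List (ℕ × ℤ) := [(36, -60), (37, 60), (60, 60), (61, -60), (90, 60), (91, -60), (116, -60), (117, 60)]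

theorem h7_0_8 (E : Env κ ι) : ip (F7_0 E) (F7_8 E) = dotS (ek E lk7) r7_0_8 :=
  op_entryZ E lk7 1 5 _ _ _ _ (pg0 κ) (pg7 ι) m7_0 m7_8 l7_8 z7_8 w7_8 x7_8 (by decide) _ (chkS_sound E lk7 1 5 _ _ _ _ t7_0_8)

def r7_0_9 : List (ℕ × ℤ) := [(13, 60), (18, -60), (24, 60), (38, 60), (39, -60), (92, -60), (118, -60), (119, 60)]

theorem h7_0_9 (E : Env κ ι) : ip (F7_0 E) (F7_9 E) = dotS (ek E lk7) r7_0_9 :=
  op_entryZ E lk7 1 5 _ _ _ _ (pg0 κ) (pg7 ι) m7_0 m7_9 l7_9 z7_9 w7_9 x7_9 (by decide) _ (chkS_sound E lk7 1 5 _ _ _ _ t7_0_9)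

def r7_1_1 : List (ℕ × ℤ) := [(11, 144), (49, 96), (50, -96), (53, -72), (96, 72), (97, 48), (99, 48), (120, -72), (121, -72), (126, -144), (127, -48), (128, -48), (129, 192), (138, -96), (181, 48)]

theorem h7_1_1 (E : Env κ ι) : ip (F7_1 E) (F7_1 E) = dotS (ek E lk7) r7_1_1 :=
  op_entryZ E lk7 1 5 _ _ _ _ (pg0 κ) (pg7 ι) m7_1 m7_1 l7_1 z7_1 w7_1 x7_1 (by decide) _ (chkS_sound E lk7 1 5 _ _ _ _ t7_1_1)

def r7_1_2 : List (ℕ × ℤ) := [(11, 48), (49, -48), (50, 48), (53, -24), (96, 24), (97, -24), (99, -24), (120, -24), (121, -24), (126, -168), (127, 24), (128, 24), (129, 144), (138, -72), (181, 96)]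

theorem h7_1_2 (E : Env κ ι) : ip (F7_1 E) (F7_2 E) = dotS (ek E lk7) r7_1_2 :=
  op_entryZ E lk7 1 5 _ _ _ _ (pg0 κ) (pg7 ι) m7_1 m7_2 l7_2 z7_2 w7_2 x7_2 (by decide) _ (chkS_sound E lk7 1 5 _ _ _ _ t7_1_2)

def r7_1_3 : List (ℕ × ℤ) := [(98, -120), (102, 120), (126, 120), (128, 120), (129, -120), (139, -120)]

theorem h7_1_3 (E : Env κ ι) : ip (F7_1 E) (F7_3 E) = dotS (ek E lk7) r7_1_3 :=
  op_entryZ E lk7 1 5 _ _ _ _ (pg0 κ) (pg7 ι) m7_1 m7_3 l7_3 z7_3 w7_3 x7_3 (by decide) _ (chkS_sound E lk7 1 5 _ _ _ _ t7_1_3)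

def r7_1_4 : List (ℕ × ℤ) := [(11, -48), (49, -72), (50, 72), (53, 24), (96, -24), (97, -96), (99, 24), (120, 24), (121, 24), (126, 48), (127, 96), (128, -24), (129, -24), (138, -48), (181, 24)]

theorem h7_1_4 (E : Env κ ι) : ip (F7_1 E) (F7_4 E) = dotS (ek E lk7) r7_1_4 :=
  op_entryZ E lk7 1 5 _ _ _ _ (pg0 κ) (pg7 ι) m7_1 m7_4 l7_4 z7_4 w7_4 x7_4 (by decide) _ (chkS_sound E lk7 1 5 _ _ _ _ t7_1_4)

def r7_1_5 : List (ℕ × ℤ) := [(8, -24), (10, -24), (51, -96), (60, 96), (61, 24), (103, -24), (104, -96), (106, -24), (107, 24), (131, 24), (132, 96), (133, -96), (134, -48), (135, 48), (140, 24), (141, 96), (142, 24), (143, -24), (150, -24), (151, 24), (183, 24), (185, -24)]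

theorem h7_1_5 (E : Env κ ι) : ip (F7_1 E) (F7_5 E) = dotS (ek E lk7) r7_1_5 :=
  op_entryZ E lk7 1 5 _ _ _ _ (pg0 κ) (pg7 ι) m7_1 m7_5 l7_5 z7_5 w7_5 x7_5 (by decide) _ (chkS_sound E lk7 1 5 _ _ _ _ t7_1_5)

def r7_1_6 : List (ℕ × ℤ) := [(8, -72), (10, -72), (51, -48), (60, 48), (61, 72), (103, -72), (104, -48), (106, 48), (107, -48), (131, 72), (132, 48), (133, -48), (134, 96), (135, -96), (140, 72), (141, 48), (142, -48), (143, 48), (150, 48), (151, -48), (183, -48), (185, 48)]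

theorem h7_1_6 (E : Env κ ι) : ip (F7_1 E) (F7_6 E) = dotS (ek E lk7) r7_1_6 :=
  op_entryZ E lk7 1 5 _ _ _ _ (pg0 κ) (pg7 ι) m7_1 m7_6 l7_6 z7_6 w7_6 x7_6 (by decide) _ (chkS_sound E lk7 1 5 _ _ _ _ t7_1_6)

def r7_1_7 : List (ℕ × ℤ) := [(8, 24), (10, 24), (51, -24), (60, 24), (61, -24), (103, 24), (104, -24), (106, -96), (107, 96), (131, -24), (132, 24), (133, -24), (134, 48), (135, -48), (140, -24), (141, 24), (142, 96), (143, -96), (150, -96), (151, 96), (183, -24), (185, 24)]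

theorem h7_1_7 (E : Env κ ι) : ip (F7_1 E) (F7_7 E) = dotS (ek E lk7) r7_1_7 :=
  op_entryZ E lk7 1 5 _ _ _ _ (pg0 κ) (pg7 ι) m7_1 m7_7 l7_7 z7_7 w7_7 x7_7 (by decide) _ (chkS_sound E lk7 1 5 _ _ _ _ t7_1_7)

def r7_1_8 : List (ℕ × ℤ) := [(108, 120), (110, -120), (134, -120), (135, 120), (144, -120), (145, 120)]

theorem h7_1_8 (E : Env κ ι) : ip (F7_1 E) (F7_8 E) = dotS (ek E lk7) r7_1_8 :=
  op_entryZ E lk7 1 5 _ _ _ _ (pg0 κ) (pg7 ι) m7_1 m7_8 l7_8 z7_8 w7_8 x7_8 (by decide) _ (chkS_sound E lk7 1 5 _ _ _ _ t7_1_8)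

def r7_1_9 : List (ℕ × ℤ) := [(25, -120), (26, 120), (27, -120), (29, 120), (112, -120), (146, 120)]

theorem h7_1_9 (E : Env κ ι) : ip (F7_1 E) (F7_9 E) = dotS (ek E lk7) r7_1_9 :=
  op_entryZ E lk7 1 5 _ _ _ _ (pg0 κ) (pg7 ι) m7_1 m7_9 l7_9 z7_9 w7_9 x7_9 (by decide) _ (chkS_sound E lk7 1 5 _ _ _ _ t7_1_9)

def r7_2_2 : List (ℕ × ℤ) := [(11, -24), (49, 24), (50, 96), (53, -48), (96, 48), (97, -48), (99, -48), (120, 12), (121, 12), (126, -156), (127, -12), (128, -12), (129, 48), (130, 120), (138, -24), (181, 72), (182, -60)]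

theorem h7_2_2 (E : Env κ ι) : ip (F7_2 E) (F7_2 E) = dotS (ek E lk7) r7_2_2 :=
  op_entryZ E lk7 1 5 _ _ _ _ (pg0 κ) (pg7 ι) m7_2 m7_2 l7_2 z7_2 w7_2 x7_2 (by decide) _ (chkS_sound E lk7 1 5 _ _ _ _ t7_2_2)

def r7_2_3 : List (ℕ × ℤ) := [(12, 60), (34, 60), (35, -60), (42, -60), (98, -60), (102, 60), (120, -60), (122, 60), (126, 60), (128, 60), (130, -60), (139, -60)]

theorem h7_2_3 (E : Env κ ι) : ip (F7_2 E) (F7_3 E) = dotS (ek E lk7) r7_2_3 :=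
  op_entryZ E lk7 1 5 _ _ _ _ (pg0 κ) (pg7 ι) m7_2 m7_3 l7_3 z7_3 w7_3 x7_3 (by decide) _ (chkS_sound E lk7 1 5 _ _ _ _ t7_2_3)

def r7_2_4 : List (ℕ × ℤ) := [(11, -36), (49, 36), (50, 24), (53, -12), (96, 12), (97, -12), (99, -12), (120, 48), (121, -12), (126, -24), (127, 12), (128, -48), (129, 12), (138, 24), (181, -12), (182, 0)]

theorem h7_2_4 (E : Env κ ι) : ip (F7_2 E) (F7_4 E) = dotS (ek E lk7) r7_2_4 :=
  op_entryZ E lk7 1 5 _ _ _ _ (pg0 κ) (pg7 ι) m7_2 m7_4 l7_4 z7_4 w7_4 x7_4 (by decide) _ (chkS_sound E lk7 1 5 _ _ _ _ t7_2_4)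

def r7_2_5 : List (ℕ × ℤ) := [(8, -48), (10, 12), (51, -12), (60, 12), (61, -12), (103, 12), (104, -12), (106, 12), (107, -12), (131, -12), (132, 12), (133, -72), (134, 24), (135, 36), (136, 60), (140, 48), (141, 72), (142, -72), (143, -48), (149, 60), (150, 12), (151, 48), (183, -12), (184, -60), (185, -48)]

theorem h7_2_5 (E : Env κ ι) : ip (F7_2 E) (F7_5 E) = dotS (ek E lk7) r7_2_5 :=
  op_entryZ E lk7 1 5 _ _ _ _ (pg0 κ) (pg7 ι) m7_2 m7_5 l7_5 z7_5 w7_5 x7_5 (by decide) _ (chkS_sound E lk7 1 5 _ _ _ _ t7_2_5)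

def r7_2_6 : List (ℕ × ℤ) := [(8, -24), (10, -24), (51, 24), (60, -24), (61, 24), (103, -24), (104, 24), (106, -24), (107, 24), (131, 24), (132, -24), (133, -96), (134, 72), (135, 48), (140, 24), (141, 96), (142, -96), (143, -24), (150, 96), (151, 24), (183, -96), (185, -24)]

theorem h7_2_6 (E : Env κ ι) : ip (F7_2 E) (F7_6 E) = dotS (ek E lk7) r7_2_6 :=
  op_entryZ E lk7 1 5 _ _ _ _ (pg0 κ) (pg7 ι) m7_2 m7_6 l7_6 z7_6 w7_6 x7_6 (by decide) _ (chkS_sound E lk7 1 5 _ _ _ _ t7_2_6)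

def r7_2_7 : List (ℕ × ℤ) := [(8, -12), (10, 48), (51, -48), (60, -12), (61, 12), (103, -12), (104, 12), (106, -12), (107, 12), (131, -48), (132, 48), (133, 12), (134, 96), (135, -36), (136, -60), (140, 12), (141, -12), (142, 12), (143, -12), (149, 60), (150, -72), (151, 12), (183, 12), (185, -12)]

theorem h7_2_7 (E : Env κ ι) : ip (F7_2 E) (F7_7 E) = dotS (ek E lk7) r7_2_7 :=
  op_entryZ E lk7 1 5 _ _ _ _ (pg0 κ) (pg7 ι) m7_2 m7_7 l7_7 z7_7 w7_7 x7_7 (by decide) _ (chkS_sound E lk7 1 5 _ _ _ _ t7_2_7)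

def r7_2_8 : List (ℕ × ℤ) := [(9, -60), (36, -60), (37, 60), (44, 60), (108, 60), (110, -60), (123, 60), (124, -60), (134, -60), (136, 60), (144, -60), (145, 60)]

theorem h7_2_8 (E : Env κ ι) : ip (F7_2 E) (F7_8 E) = dotS (ek E lk7) r7_2_8 :=
  op_entryZ E lk7 1 5 _ _ _ _ (pg0 κ) (pg7 ι) m7_2 m7_8 l7_8 z7_8 w7_8 x7_8 (by decide) _ (chkS_sound E lk7 1 5 _ _ _ _ t7_2_8)

def r7_2_9 : List (ℕ × ℤ) := [(18, -60), (25, -60), (27, -60), (28, 60), (29, 60), (38, 60), (39, -60), (58, 60), (112, -60), (125, -60), (137, 60), (146, 60)]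

theorem h7_2_9 (E : Env κ ι) : ip (F7_2 E) (F7_9 E) = dotS (ek E lk7) r7_2_9 :=
  op_entryZ E lk7 1 5 _ _ _ _ (pg0 κ) (pg7 ι) m7_2 m7_9 l7_9 z7_9 w7_9 x7_9 (by decide) _ (chkS_sound E lk7 1 5 _ _ _ _ t7_2_9)

def r7_3_3 : List (ℕ × ℤ) := [(2, 60), (11, 120), (46, -60), (49, -60), (50, 120), (52, -60), (53, -60), (100, -60)]

theorem h7_3_3 (E : Env κ ι) : ip (F7_3 E) (F7_3 E) = dotS (ek E lk7) r7_3_3 :=
  op_entryZ E lk7 1 5 _ _ _ _ (pg0 κ) (pg7 ι) m7_3 m7_3 l7_3 z7_3 w7_3 x7_3 (by decide) _ (chkS_sound E lk7 1 5 _ _ _ _ t7_3_3)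

def r7_3_4 : List (ℕ × ℤ) := [(11, -60), (12, 60), (42, -60), (49, 60), (126, -60), (129, 60), (139, 0)]

theorem h7_3_4 (E : Env κ ι) : ip (F7_3 E) (F7_4 E) = dotS (ek E lk7) r7_3_4 :=
  op_entryZ E lk7 1 5 _ _ _ _ (pg0 κ) (pg7 ι) m7_3 m7_4 l7_4 z7_4 w7_4 x7_4 (by decide) _ (chkS_sound E lk7 1 5 _ _ _ _ t7_3_4)

def r7_3_5 : List (ℕ × ℤ) := [(8, 60), (131, -60), (132, -60), (133, 60), (147, 60), (148, 60), (149, -60), (151, -60), (152, -60), (153, -60), (154, 60), (155, 60)]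

theorem h7_3_5 (E : Env κ ι) : ip (F7_3 E) (F7_5 E) = dotS (ek E lk7) r7_3_5 :=
  op_entryZ E lk7 1 5 _ _ _ _ (pg0 κ) (pg7 ι) m7_3 m7_5 l7_5 z7_5 w7_5 x7_5 (by decide) _ (chkS_sound E lk7 1 5 _ _ _ _ t7_3_5)

def r7_3_6 : List (ℕ × ℤ) := [(132, -120), (133, 120), (148, 120), (150, -120), (153, -120), (154, 120), (155, 0)]

theorem h7_3_6 (E : Env κ ι) : ip (F7_3 E) (F7_6 E) = dotS (ek E lk7) r7_3_6 :=
  op_entryZ E lk7 1 5 _ _ _ _ (pg0 κ) (pg7 ι) m7_3 m7_6 l7_6 z7_6 w7_6 x7_6 (by decide) _ (chkS_sound E lk7 1 5 _ _ _ _ t7_3_6)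

def r7_3_7 : List (ℕ × ℤ) := [(7, -60), (8, 60), (115, 60), (133, -60), (150, 60), (151, -60), (155, 0)]

theorem h7_3_7 (E : Env κ ι) : ip (F7_3 E) (F7_7 E) = dotS (ek E lk7) r7_3_7 :=
  op_entryZ E lk7 1 5 _ _ _ _ (pg0 κ) (pg7 ι) m7_3 m7_7 l7_7 z7_7 w7_7 x7_7 (by decide) _ (chkS_sound E lk7 1 5 _ _ _ _ t7_3_7)

def r7_3_8 : List (ℕ × ℤ) := [(4, -60), (10, -60), (48, 60), (51, 60), (54, -60), (55, 60), (60, -60), (61, 60), (105, 60), (106, -60), (107, 0)]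

theorem h7_3_8 (E : Env κ ι) : ip (F7_3 E) (F7_8 E) = dotS (ek E lk7) r7_3_8 :=
  op_entryZ E lk7 1 5 _ _ _ _ (pg0 κ) (pg7 ι) m7_3 m7_8 l7_8 z7_8 w7_8 x7_8 (by decide) _ (chkS_sound E lk7 1 5 _ _ _ _ t7_3_8)

def r7_3_9 : List (ℕ × ℤ) := [(18, 60), (19, -60), (21, 60), (22, -60), (23, 60), (28, -60), (56, 60), (57, -60), (114, 0)]

theorem h7_3_9 (E : Env κ ι) : ip (F7_3 E) (F7_9 E) = dotS (ek E lk7) r7_3_9 :=
  op_entryZ E lk7 1 5 _ _ _ _ (pg0 κ) (pg7 ι) m7_3 m7_9 l7_9 z7_9 w7_9 x7_9 (by decide) _ (chkS_sound E lk7 1 5 _ _ _ _ t7_3_9)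

def r7_4_4 : List (ℕ × ℤ) := [(11, -24), (49, 24), (50, -24), (53, 12), (96, 48), (97, 72), (99, -48), (100, -60), (120, 12), (121, -48), (126, -96), (127, -72), (128, -12), (129, 168), (138, 96), (181, -48)]

theorem h7_4_4 (E : Env κ ι) : ip (F7_4 E) (F7_4 E) = dotS (ek E lk7) r7_4_4 :=
  op_entryZ E lk7 1 5 _ _ _ _ (pg0 κ) (pg7 ι) m7_4 m7_4 l7_4 z7_4 w7_4 x7_4 (by decide) _ (chkS_sound E lk7 1 5 _ _ _ _ t7_4_4)

def r7_4_5 : List (ℕ × ℤ) := [(8, -12), (10, 48), (51, 72), (60, -72), (61, -48), (103, -12), (104, 12), (105, 60), (106, 48), (107, 12), (131, 12), (132, -12), (133, 12), (134, 36), (135, -36), (140, 12), (141, -12), (142, -108), (143, -12), (150, -12), (151, 12), (183, 12), (185, -12)]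

theorem h7_4_5 (E : Env κ ι) : ip (F7_4 E) (F7_5 E) = dotS (ek E lk7) r7_4_5 :=
  op_entryZ E lk7 1 5 _ _ _ _ (pg0 κ) (pg7 ι) m7_4 m7_5 l7_5 z7_5 w7_5 x7_5 (by decide) _ (chkS_sound E lk7 1 5 _ _ _ _ t7_4_5)

def r7_4_6 : List (ℕ × ℤ) := [(8, 24), (10, 24), (51, 96), (60, -96), (61, -24), (103, 24), (104, -24), (106, 24), (107, 96), (131, -24), (132, 24), (133, -24), (134, -72), (135, 72), (140, -24), (141, 24), (142, -24), (143, -96), (150, 24), (151, -24), (183, -24), (185, 24)]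

theorem h7_4_6 (E : Env κ ι) : ip (F7_4 E) (F7_6 E) = dotS (ek E lk7) r7_4_6 :=
  op_entryZ E lk7 1 5 _ _ _ _ (pg0 κ) (pg7 ι) m7_4 m7_6 l7_6 z7_6 w7_6 x7_6 (by decide) _ (chkS_sound E lk7 1 5 _ _ _ _ t7_4_6)

def r7_4_7 : List (ℕ × ℤ) := [(8, 12), (10, 12), (51, -12), (60, 12), (61, -12), (103, -48), (104, 48), (105, 60), (106, 12), (107, -72), (131, -12), (132, 12), (133, -12), (134, 84), (135, -84), (140, 48), (141, -48), (142, -72), (143, 72), (150, 12), (151, -12), (183, 48), (185, -48)]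

theorem h7_4_7 (E : Env κ ι) : ip (F7_4 E) (F7_7 E) = dotS (ek E lk7) r7_4_7 :=
  op_entryZ E lk7 1 5 _ _ _ _ (pg0 κ) (pg7 ι) m7_4 m7_7 l7_7 z7_7 w7_7 x7_7 (by decide) _ (chkS_sound E lk7 1 5 _ _ _ _ t7_4_7)

def r7_4_8 : List (ℕ × ℤ) := [(9, -60), (10, 60), (44, 60), (51, -60), (134, 60), (135, -60), (144, 0)]

theorem h7_4_8 (E : Env κ ι) : ip (F7_4 E) (F7_8 E) = dotS (ek E lk7) r7_4_8 :=
  op_entryZ E lk7 1 5 _ _ _ _ (pg0 κ) (pg7 ι) m7_4 m7_8 l7_8 z7_8 w7_8 x7_8 (by decide) _ (chkS_sound E lk7 1 5 _ _ _ _ t7_4_8)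

def r7_4_9 : List (ℕ × ℤ) := [(18, -60), (22, 60), (23, -60), (25, 60), (26, -60), (28, 60), (58, 0)]

theorem h7_4_9 (E : Env κ ι) : ip (F7_4 E) (F7_9 E) = dotS (ek E lk7) r7_4_9 :=
  op_entryZ E lk7 1 5 _ _ _ _ (pg0 κ) (pg7 ι) m7_4 m7_9 l7_9 z7_9 w7_9 x7_9 (by decide) _ (chkS_sound E lk7 1 5 _ _ _ _ t7_4_9)

def r7_5_5 : List (ℕ × ℤ) := [(62, -60), (63, 120), (68, -72), (69, 24), (71, -48), (72, 96), (75, -12), (78, -24), (79, 24), (86, -60), (156, -48), (157, -24), (158, 24), (161, 12), (162, -12), (163, 72), (164, -24), (169, 48), (170, -48), (173, 12)]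

theorem h7_5_5 (E : Env κ ι) : ip (F7_5 E) (F7_5 E) = dotS (ek E lk7) r7_5_5 :=
  op_entryZ E lk7 1 5 _ _ _ _ (pg0 κ) (pg7 ι) m7_5 m7_5 l7_5 z7_5 w7_5 x7_5 (by decide) _ (chkS_sound E lk7 1 5 _ _ _ _ t7_5_5)

def r7_5_6 : List (ℕ × ℤ) := [(68, -96), (69, 72), (71, -24), (72, 48), (75, 24), (78, 48), (79, -48), (156, -24), (157, -72), (158, 72), (161, -24), (162, 24), (163, 96), (164, -72), (169, 24), (170, -24), (173, -24)]

theorem h7_5_6 (E : Env κ ι) : ip (F7_5 E) (F7_6 E) = dotS (ek E lk7) r7_5_6 :=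
  op_entryZ E lk7 1 5 _ _ _ _ (pg0 κ) (pg7 ι) m7_5 m7_6 l7_6 z7_6 w7_6 x7_6 (by decide) _ (chkS_sound E lk7 1 5 _ _ _ _ t7_5_6)

def r7_5_7 : List (ℕ × ℤ) := [(63, 60), (64, -60), (68, 12), (69, 36), (71, -12), (72, 24), (75, -48), (78, -36), (79, 96), (86, -60), (156, -12), (157, 24), (158, -84), (161, -12), (162, 12), (163, -12), (164, 24), (169, 12), (170, -12), (173, 48)]

theorem h7_5_7 (E : Env κ ι) : ip (F7_5 E) (F7_7 E) = dotS (ek E lk7) r7_5_7 :=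
  op_entryZ E lk7 1 5 _ _ _ _ (pg0 κ) (pg7 ι) m7_5 m7_7 l7_7 z7_7 w7_7 x7_7 (by decide) _ (chkS_sound E lk7 1 5 _ _ _ _ t7_5_7)

def r7_5_8 : List (ℕ × ℤ) := [(63, 60), (65, -60), (69, -60), (76, 60), (78, -60), (79, 60), (86, -60), (158, 60), (159, -60), (166, 60), (174, 60), (175, -60)]

theorem h7_5_8 (E : Env κ ι) : ip (F7_5 E) (F7_8 E) = dotS (ek E lk7) r7_5_8 :=
  op_entryZ E lk7 1 5 _ _ _ _ (pg0 κ) (pg7 ι) m7_5 m7_8 l7_8 z7_8 w7_8 x7_8 (by decide) _ (chkS_sound E lk7 1 5 _ _ _ _ t7_5_8)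

def r7_5_9 : List (ℕ × ℤ) := [(15, 60), (20, -60), (66, -60), (67, 60), (70, -60), (84, 120), (87, -60), (160, -60), (167, 60), (176, -60), (177, 60)]

theorem h7_5_9 (E : Env κ ι) : ip (F7_5 E) (F7_9 E) = dotS (ek E lk7) r7_5_9 :=
  op_entryZ E lk7 1 5 _ _ _ _ (pg0 κ) (pg7 ι) m7_5 m7_9 l7_9 z7_9 w7_9 x7_9 (by decide) _ (chkS_sound E lk7 1 5 _ _ _ _ t7_5_9)

def r7_6_6 : List (ℕ × ℤ) := [(68, -48), (69, 96), (71, -72), (72, -96), (75, -48), (78, 144), (79, 96), (156, 48), (157, -96), (158, 96), (161, -72), (162, -48), (163, 48), (164, -96), (169, 72), (170, 48), (173, -72)]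

theorem h7_6_6 (E : Env κ ι) : ip (F7_6 E) (F7_6 E) = dotS (ek E lk7) r7_6_6 :=
  op_entryZ E lk7 1 5 _ _ _ _ (pg0 κ) (pg7 ι) m7_6 m7_6 l7_6 z7_6 w7_6 x7_6 (by decide) _ (chkS_sound E lk7 1 5 _ _ _ _ t7_6_6)

def r7_6_7 : List (ℕ × ℤ) := [(68, -24), (69, 48), (71, 24), (72, 72), (75, -24), (78, -48), (79, -72), (156, 24), (157, -48), (158, -72), (161, 24), (162, 96), (163, 24), (164, 72), (169, -24), (170, -96), (173, 24)]

theorem h7_6_7 (E : Env κ ι) : ip (F7_6 E) (F7_7 E) = dotS (ek E lk7) r7_6_7 :=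
  op_entryZ E lk7 1 5 _ _ _ _ (pg0 κ) (pg7 ι) m7_6 m7_7 l7_7 z7_7 w7_7 x7_7 (by decide) _ (chkS_sound E lk7 1 5 _ _ _ _ t7_6_7)

def r7_6_8 : List (ℕ × ℤ) := [(69, -120), (72, 120), (79, 120), (86, -120), (159, -120), (166, 120)]

theorem h7_6_8 (E : Env κ ι) : ip (F7_6 E) (F7_8 E) = dotS (ek E lk7) r7_6_8 :=
  op_entryZ E lk7 1 5 _ _ _ _ (pg0 κ) (pg7 ι) m7_6 m7_8 l7_8 z7_8 w7_8 x7_8 (by decide) _ (chkS_sound E lk7 1 5 _ _ _ _ t7_6_8)

def r7_6_9 : List (ℕ × ℤ) := [(70, -120), (73, 120), (84, 120), (87, -120), (160, -120), (167, 120)]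

theorem h7_6_9 (E : Env κ ι) : ip (F7_6 E) (F7_9 E) = dotS (ek E lk7) r7_6_9 :=
  op_entryZ E lk7 1 5 _ _ _ _ (pg0 κ) (pg7 ι) m7_6 m7_9 l7_9 z7_9 w7_9 x7_9 (by decide) _ (chkS_sound E lk7 1 5 _ _ _ _ t7_6_9)

def r7_7_7 : List (ℕ × ℤ) := [(68, -12), (69, 24), (71, 12), (72, -24), (75, -72), (78, -24), (79, 144), (86, -60), (156, -48), (157, 96), (158, 24), (161, -48), (162, -72), (163, -48), (164, -24), (169, 48), (170, 72), (173, 12)]

theorem h7_7_7 (E : Env κ ι) : ip (F7_7 E) (F7_7 E) = dotS (ek E lk7) r7_7_7 :=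
  op_entryZ E lk7 1 5 _ _ _ _ (pg0 κ) (pg7 ι) m7_7 m7_7 l7_7 z7_7 w7_7 x7_7 (by decide) _ (chkS_sound E lk7 1 5 _ _ _ _ t7_7_7)

def r7_7_8 : List (ℕ × ℤ) := [(69, 60), (72, -60), (78, -60), (85, 60), (158, 60), (165, -60)]

theorem h7_7_8 (E : Env κ ι) : ip (F7_7 E) (F7_8 E) = dotS (ek E lk7) r7_7_8 :=
  op_entryZ E lk7 1 5 _ _ _ _ (pg0 κ) (pg7 ι) m7_7 m7_8 l7_8 z7_8 w7_8 x7_8 (by decide) _ (chkS_sound E lk7 1 5 _ _ _ _ t7_7_8)

def r7_7_9 : List (ℕ × ℤ) := [(15, 60), (17, 60), (20, -60), (70, 60), (73, -60), (77, -60), (80, 60), (168, -60)]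

theorem h7_7_9 (E : Env κ ι) : ip (F7_7 E) (F7_9 E) = dotS (ek E lk7) r7_7_9 :=
  op_entryZ E lk7 1 5 _ _ _ _ (pg0 κ) (pg7 ι) m7_7 m7_9 l7_9 z7_9 w7_9 x7_9 (by decide) _ (chkS_sound E lk7 1 5 _ _ _ _ t7_7_9)

def r7_8_8 : List (ℕ × ℤ) := [(3, 60), (75, -60), (76, 120), (81, -60), (86, -60), (164, 120), (173, -60), (178, -60)]

theorem h7_8_8 (E : Env κ ι) : ip (F7_8 E) (F7_8 E) = dotS (ek E lk7) r7_8_8 :=
  op_entryZ E lk7 1 5 _ _ _ _ (pg0 κ) (pg7 ι) m7_8 m7_8 l7_8 z7_8 w7_8 x7_8 (by decide) _ (chkS_sound E lk7 1 5 _ _ _ _ t7_8_8)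

def r7_8_9 : List (ℕ × ℤ) := [(14, -60), (15, 60), (16, 60), (17, -60), (73, -60), (77, 60), (82, -60), (168, 60), (171, 0)]

theorem h7_8_9 (E : Env κ ι) : ip (F7_8 E) (F7_9 E) = dotS (ek E lk7) r7_8_9 :=
  op_entryZ E lk7 1 5 _ _ _ _ (pg0 κ) (pg7 ι) m7_8 m7_9 l7_9 z7_9 w7_9 x7_9 (by decide) _ (chkS_sound E lk7 1 5 _ _ _ _ t7_8_9)

def r7_9_9 : List (ℕ × ℤ) := [(0, -60), (1, -60), (5, 120), (6, 60), (30, 120), (74, -60), (83, -60), (88, -60), (172, 0)]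

theorem h7_9_9 (E : Env κ ι) : ip (F7_9 E) (F7_9 E) = dotS (ek E lk7) r7_9_9 :=
  op_entryZ E lk7 1 5 _ _ _ _ (pg0 κ) (pg7 ι) m7_9 m7_9 l7_9 z7_9 w7_9 x7_9 (by decide) _ (chkS_sound E lk7 1 5 _ _ _ _ t7_9_9)

theorem row7_0 (E : Env κ ι) : RowG (ek E lk7) (F7_0 E) [F7_0 E, F7_1 E, F7_2 E, F7_3 E, F7_4 E, F7_5 E, F7_6 E, F7_7 E, F7_8 E, F7_9 E] [r7_0_0, r7_0_1, r7_0_2, r7_0_3, r7_0_4, r7_0_5, r7_0_6, r7_0_7, r7_0_8, r7_0_9] :=
  rowG_cons _ _ _ _ _ _ (h7_0_0 E) (rowG_cons _ _ _ _ _ _ (h7_0_1 E) (rowG_cons _ _ _ _ _ _ (h7_0_2 E) (rowG_cons _ _ _ _ _ _ (h7_0_3 E) (rowG_cons _ _ _ _ _ _ (h7_0_4 E) (rowG_cons _ _ _ _ _ _ (h7_0_5 E) (rowG_cons _ _ _ _ _ _ (h7_0_6 E) (rowG_cons _ _ _ _ _ _ (h7_0_7 E) (rowG_cons _ _ _ _ _ _ (h7_0_8 E) (rowG_cons _ _ _ _ _ _ (h7_0_9 E) (rowG_nil _ _))))))))))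

theorem row7_1 (E : Env κ ι) : RowG (ek E lk7) (F7_1 E) [F7_1 E, F7_2 E, F7_3 E, F7_4 E, F7_5 E, F7_6 E, F7_7 E, F7_8 E, F7_9 E] [r7_1_1, r7_1_2, r7_1_3, r7_1_4, r7_1_5, r7_1_6, r7_1_7, r7_1_8, r7_1_9] :=
  rowG_cons _ _ _ _ _ _ (h7_1_1 E) (rowG_cons _ _ _ _ _ _ (h7_1_2 E) (rowG_cons _ _ _ _ _ _ (h7_1_3 E) (rowG_cons _ _ _ _ _ _ (h7_1_4 E) (rowG_cons _ _ _ _ _ _ (h7_1_5 E) (rowG_cons _ _ _ _ _ _ (h7_1_6 E) (rowG_cons _ _ _ _ _ _ (h7_1_7 E) (rowG_cons _ _ _ _ _ _ (h7_1_8 E) (rowG_cons _ _ _ _ _ _ (h7_1_9 E) (rowG_nil _ _)))))))))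

theorem row7_2 (E : Env κ ι) : RowG (ek E lk7) (F7_2 E) [F7_2 E, F7_3 E, F7_4 E, F7_5 E, F7_6 E, F7_7 E, F7_8 E, F7_9 E] [r7_2_2, r7_2_3, r7_2_4, r7_2_5, r7_2_6, r7_2_7, r7_2_8, r7_2_9] :=
  rowG_cons _ _ _ _ _ _ (h7_2_2 E) (rowG_cons _ _ _ _ _ _ (h7_2_3 E) (rowG_cons _ _ _ _ _ _ (h7_2_4 E) (rowG_cons _ _ _ _ _ _ (h7_2_5 E) (rowG_cons _ _ _ _ _ _ (h7_2_6 E) (rowG_cons _ _ _ _ _ _ (h7_2_7 E) (rowG_cons _ _ _ _ _ _ (h7_2_8 E) (rowG_cons _ _ _ _ _ _ (h7_2_9 E) (rowG_nil _ _))))))))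

theorem row7_3 (E : Env κ ι) : RowG (ek E lk7) (F7_3 E) [F7_3 E, F7_4 E, F7_5 E, F7_6 E, F7_7 E, F7_8 E, F7_9 E] [r7_3_3, r7_3_4, r7_3_5, r7_3_6, r7_3_7, r7_3_8, r7_3_9] :=
  rowG_cons _ _ _ _ _ _ (h7_3_3 E) (rowG_cons _ _ _ _ _ _ (h7_3_4 E) (rowG_cons _ _ _ _ _ _ (h7_3_5 E) (rowG_cons _ _ _ _ _ _ (h7_3_6 E) (rowG_cons _ _ _ _ _ _ (h7_3_7 E) (rowG_cons _ _ _ _ _ _ (h7_3_8 E) (rowG_cons _ _ _ _ _ _ (h7_3_9 E) (rowG_nil _ _)))))))

theorem row7_4 (E : Env κ ι) : RowG (ek E lk7) (F7_4 E) [F7_4 E, F7_5 E, F7_6 E, F7_7 E, F7_8 E, F7_9 E] [r7_4_4, r7_4_5, r7_4_6, r7_4_7, r7_4_8, r7_4_9] :=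
  rowG_cons _ _ _ _ _ _ (h7_4_4 E) (rowG_cons _ _ _ _ _ _ (h7_4_5 E) (rowG_cons _ _ _ _ _ _ (h7_4_6 E) (rowG_cons _ _ _ _ _ _ (h7_4_7 E) (rowG_cons _ _ _ _ _ _ (h7_4_8 E) (rowG_cons _ _ _ _ _ _ (h7_4_9 E) (rowG_nil _ _))))))

theorem row7_5 (E : Env κ ι) : RowG (ek E lk7) (F7_5 E) [F7_5 E, F7_6 E, F7_7 E, F7_8 E, F7_9 E] [r7_5_5, r7_5_6, r7_5_7, r7_5_8, r7_5_9] :=
  rowG_cons _ _ _ _ _ _ (h7_5_5 E) (rowG_cons _ _ _ _ _ _ (h7_5_6 E) (rowG_cons _ _ _ _ _ _ (h7_5_7 E) (rowG_cons _ _ _ _ _ _ (h7_5_8 E) (rowG_cons _ _ _ _ _ _ (h7_5_9 E) (rowG_nil _ _)))))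

theorem row7_6 (E : Env κ ι) : RowG (ek E lk7) (F7_6 E) [F7_6 E, F7_7 E, F7_8 E, F7_9 E] [r7_6_6, r7_6_7, r7_6_8, r7_6_9] :=
  rowG_cons _ _ _ _ _ _ (h7_6_6 E) (rowG_cons _ _ _ _ _ _ (h7_6_7 E) (rowG_cons _ _ _ _ _ _ (h7_6_8 E) (rowG_cons _ _ _ _ _ _ (h7_6_9 E) (rowG_nil _ _))))

theorem row7_7 (E : Env κ ι) : RowG (ek E lk7) (F7_7 E) [F7_7 E, F7_8 E, F7_9 E] [r7_7_7, r7_7_8, r7_7_9] :=
  rowG_cons _ _ _ _ _ _ (h7_7_7 E) (rowG_cons _ _ _ _ _ _ (h7_7_8 E) (rowG_cons _ _ _ _ _ _ (h7_7_9 E) (rowG_nil _ _)))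

theorem row7_8 (E : Env κ ι) : RowG (ek E lk7) (F7_8 E) [F7_8 E, F7_9 E] [r7_8_8, r7_8_9] :=
  rowG_cons _ _ _ _ _ _ (h7_8_8 E) (rowG_cons _ _ _ _ _ _ (h7_8_9 E) (rowG_nil _ _))

theorem row7_9 (E : Env κ ι) : RowG (ek E lk7) (F7_9 E) [F7_9 E] [r7_9_9] :=
  rowG_cons _ _ _ _ _ _ (h7_9_9 E) (rowG_nil _ _)

def tab7 : List (List (List (ℕ × ℤ))) := [[r7_0_0, r7_0_1, r7_0_2, r7_0_3, r7_0_4, r7_0_5, r7_0_6, r7_0_7, r7_0_8, r7_0_9], [r7_1_1, r7_1_2, r7_1_3, r7_1_4, r7_1_5, r7_1_6, r7_1_7, r7_1_8, r7_1_9], [r7_2_2, r7_2_3, r7_2_4, r7_2_5, r7_2_6, r7_2_7, r7_2_8, r7_2_9], [r7_3_3, r7_3_4, r7_3_5, r7_3_6, r7_3_7, r7_3_8, r7_3_9], [r7_4_4, r7_4_5, r7_4_6, r7_4_7, r7_4_8, r7_4_9], [r7_5_5, r7_5_6, r7_5_7, r7_5_8, r7_5_9], [r7_6_6, r7_6_7, r7_6_8, r7_6_9], [r7_7_7, r7_7_8, r7_7_9], [r7_8_8, r7_8_9], [r7_9_9]]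

theorem tri7 (E : Env κ ι) : TriG (ek E lk7) [F7_0 E, F7_1 E, F7_2 E, F7_3 E, F7_4 E, F7_5 E, F7_6 E, F7_7 E, F7_8 E, F7_9 E] tab7 := by
  refine triG_cons _ _ _ _ _ (row7_0 E) ?_
  refine triG_cons _ _ _ _ _ (row7_1 E) ?_
  refine triG_cons _ _ _ _ _ (row7_2 E) ?_
  refine triG_cons _ _ _ _ _ (row7_3 E) ?_
  refine triG_cons _ _ _ _ _ (row7_4 E) ?_
  refine triG_cons _ _ _ _ _ (row7_5 E) ?_
  refine triG_cons _ _ _ _ _ (row7_6 E) ?_
  refine triG_cons _ _ _ _ _ (row7_7 E) ?_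
  refine triG_cons _ _ _ _ _ (row7_8 E) ?_
  refine triG_cons _ _ _ _ _ (row7_9 E) ?_
  exact triG_nil _

end

end YMBG
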