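import Pool.Agent.YM.BG.Ga0
import Pool.Agent.YM.BG.Ga1

set_option linter.unusedVariables false
set_option maxRecDepth 100000

open YMEng

namespace YMBG

def lk64 : List Key := [
  (2, 7, [(0, [0], [0, 1]), (0, [1], [0, 2]), (0, [1], [3, 4]), (0, [0], [5, 6]), (1, [], [5, 6]), (1, [], [3, 4]), (4, [], [2]), (4, [], [1])]),
  (2, 7, [(0, [0], [0, 1]), (0, [0], [0, 1]), (0, [1], [2, 3]), (0, [1], [2, 4]), (4, [], [4]), (4, [], [3]), (1, [], [5, 6]), (1, [], [5, 6])]),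
  (2, 7, [(0, [0], [0, 1]), (0, [1], [0, 2]), (0, [1], [3, 4]), (0, [0], [3, 4]), (4, [], [2]), (4, [], [1]), (1, [], [5, 6]), (1, [], [5, 6])]),
  (2, 7, [(0, [0], [0, 1]), (0, [0], [2, 3]), (0, [1], [4, 5]), (0, [1], [4, 6]), (1, [], [0, 5]), (1, [], [2, 3]), (4, [], [1]), (4, [], [6])]),
  (2, 7, [(0, [0], [0, 1]), (0, [1], [0, 2]), (0, [0], [3, 4]), (0, [1], [5, 6]), (1, [], [1, 3]), (1, [], [5, 6]), (4, [], [2]), (4, [], [4])]),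
  (2, 7, [(0, [0], [0, 1]), (0, [0], [2, 3]), (0, [1], [0, 4]), (0, [1], [4, 5]), (1, [], [1, 6]), (1, [], [2, 3]), (4, [], [5]), (4, [], [6])]),
  (2, 7, [(0, [0], [0, 1]), (0, [1], [0, 2]), (0, [1], [2, 3]), (0, [0], [1, 4]), (4, [], [4]), (4, [], [3]), (1, [], [5, 6]), (1, [], [5, 6])]),
  (2, 7, [(0, [0], [0, 1]), (0, [1], [0, 2]), (0, [1], [1, 3]), (0, [0], [4, 5]), (1, [], [2, 6]), (1, [], [4, 5]), (4, [], [3]), (4, [], [6])]),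
  (2, 7, [(0, [0], [0, 1]), (0, [1], [0, 2]), (0, [0], [2, 3]), (0, [1], [1, 4]), (4, [], [4]), (4, [], [3]), (1, [], [5, 6]), (1, [], [5, 6])]),
  (2, 7, [(0, [0], [0, 1]), (0, [0], [0, 2]), (0, [1], [1, 2]), (4, [], [3]), (0, [1], [4, 5]), (1, [], [4, 6]), (1, [], [5, 6]), (4, [], [3])]),
  (2, 7, [(0, [0], [0, 1]), (0, [0], [0, 2]), (0, [1], [1, 2]), (4, [], [3]), (0, [1], [4, 5]), (1, [], [4, 6]), (1, [], [3, 6]), (4, [], [5])]),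
  (2, 7, [(0, [0], [0, 1]), (0, [0], [0, 2]), (0, [1], [1, 2]), (4, [], [3]), (0, [1], [4, 5]), (1, [], [4, 6]), (1, [], [3, 5]), (4, [], [6])]),
  (2, 7, [(0, [0], [0, 1]), (0, [0], [0, 2]), (0, [1], [1, 2]), (4, [], [3]), (0, [1], [3, 4]), (1, [], [5, 6]), (1, [], [5, 6]), (4, [], [4])]),
  (2, 7, [(0, [0], [0, 1]), (0, [0], [0, 2]), (0, [1], [3, 2]), (4, [], [1]), (0, [1], [4, 5]), (1, [], [4, 6]), (1, [], [5, 6]), (4, [], [3])]),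
  (2, 7, [(0, [0], [0, 1]), (0, [0], [0, 2]), (0, [1], [3, 2]), (4, [], [1]), (0, [1], [4, 5]), (1, [], [4, 6]), (1, [], [3, 6]), (4, [], [5])]),
  (2, 7, [(0, [0], [0, 1]), (0, [0], [0, 2]), (0, [1], [3, 2]), (4, [], [1]), (0, [1], [4, 5]), (1, [], [4, 6]), (1, [], [3, 5]), (4, [], [6])]),
  (2, 7, [(0, [0], [0, 1]), (0, [0], [0, 2]), (0, [1], [3, 2]), (4, [], [1]), (0, [1], [3, 4]), (1, [], [5, 6]), (1, [], [4, 5]), (4, [], [6])]),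
  (2, 7, [(0, [0], [0, 1]), (0, [0], [0, 1]), (0, [1], [2, 3]), (4, [], [3]), (0, [1], [4, 5]), (1, [], [4, 6]), (1, [], [5, 6]), (4, [], [2])]),
  (2, 7, [(0, [0], [0, 1]), (0, [0], [0, 1]), (0, [1], [2, 3]), (4, [], [3]), (0, [1], [4, 5]), (1, [], [4, 6]), (1, [], [2, 6]), (4, [], [5])]),
  (2, 7, [(0, [0], [0, 1]), (0, [0], [0, 1]), (0, [1], [2, 3]), (4, [], [3]), (0, [1], [4, 5]), (1, [], [4, 6]), (1, [], [2, 5]), (4, [], [6])]),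
  (2, 7, [(0, [0], [0, 1]), (0, [0], [0, 1]), (0, [1], [2, 3]), (4, [], [3]), (0, [1], [2, 4]), (1, [], [5, 6]), (1, [], [4, 5]), (4, [], [6])]),
  (2, 7, [(0, [0], [0, 1]), (0, [0], [2, 3]), (0, [1], [0, 3]), (4, [], [1]), (0, [1], [4, 5]), (1, [], [4, 6]), (1, [], [5, 6]), (4, [], [2])]),
  (2, 7, [(0, [0], [0, 1]), (0, [0], [2, 3]), (0, [1], [0, 3]), (4, [], [1]), (0, [1], [4, 5]), (1, [], [4, 6]), (1, [], [2, 6]), (4, [], [5])]),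
  (2, 7, [(0, [0], [0, 1]), (0, [0], [2, 3]), (0, [1], [0, 3]), (4, [], [1]), (0, [1], [4, 5]), (1, [], [4, 6]), (1, [], [2, 5]), (4, [], [6])]),
  (2, 7, [(0, [0], [0, 1]), (0, [0], [2, 3]), (0, [1], [0, 3]), (4, [], [1]), (0, [1], [2, 4]), (1, [], [5, 6]), (1, [], [4, 5]), (4, [], [6])]),
  (2, 7, [(0, [0], [0, 1]), (0, [0], [2, 3]), (0, [1], [0, 1]), (4, [], [3]), (0, [1], [4, 5]), (1, [], [4, 6]), (1, [], [5, 6]), (4, [], [2])]),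
  (2, 7, [(0, [0], [0, 1]), (0, [0], [2, 3]), (0, [1], [0, 1]), (4, [], [3]), (0, [1], [4, 5]), (1, [], [4, 6]), (1, [], [2, 6]), (4, [], [5])]),
  (2, 7, [(0, [0], [0, 1]), (0, [0], [2, 3]), (0, [1], [0, 1]), (4, [], [3]), (0, [1], [4, 5]), (1, [], [4, 6]), (1, [], [2, 5]), (4, [], [6])]),
  (2, 7, [(0, [0], [0, 1]), (0, [0], [2, 3]), (0, [1], [0, 1]), (4, [], [3]), (0, [1], [2, 4]), (1, [], [5, 6]), (1, [], [4, 5]), (4, [], [6])]),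
  (2, 7, [(0, [0], [0, 1]), (0, [0], [2, 0]), (0, [1], [1, 3]), (4, [], [3]), (0, [1], [4, 5]), (1, [], [4, 6]), (1, [], [2, 6]), (4, [], [5])]),
  (2, 7, [(0, [0], [0, 1]), (0, [0], [2, 0]), (0, [1], [1, 3]), (4, [], [3]), (0, [1], [4, 5]), (1, [], [4, 6]), (1, [], [2, 5]), (4, [], [6])]),
  (2, 7, [(0, [0], [0, 1]), (0, [0], [2, 0]), (0, [1], [1, 3]), (4, [], [3]), (0, [1], [4, 5]), (1, [], [4, 5]), (1, [], [2, 6]), (4, [], [6])]),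
  (2, 7, [(0, [0], [0, 1]), (0, [0], [2, 0]), (0, [1], [1, 3]), (4, [], [3]), (0, [1], [2, 4]), (1, [], [5, 6]), (1, [], [5, 6]), (4, [], [4])]),
  (2, 7, [(0, [0], [0, 1]), (0, [0], [2, 0]), (0, [1], [1, 3]), (4, [], [3]), (0, [1], [2, 4]), (1, [], [5, 6]), (1, [], [4, 5]), (4, [], [6])]),
  (2, 7, [(0, [0], [0, 1]), (0, [0], [0, 1]), (0, [1], [2, 3]), (4, [], [4]), (0, [1], [5, 6]), (1, [], [2, 5]), (1, [], [3, 6]), (4, [], [4])]),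
  (2, 7, [(0, [0], [0, 1]), (0, [0], [0, 1]), (0, [1], [2, 3]), (4, [], [4]), (0, [1], [2, 5]), (1, [], [5, 6]), (1, [], [3, 6]), (4, [], [4])]),
  (2, 7, [(0, [0], [0, 1]), (0, [0], [0, 1]), (0, [1], [2, 3]), (4, [], [4]), (0, [1], [2, 5]), (1, [], [5, 6]), (1, [], [3, 4]), (4, [], [6])]),
  (2, 7, [(0, [0], [0, 1]), (0, [0], [2, 0]), (0, [1], [3, 1]), (4, [], [4]), (0, [1], [5, 6]), (1, [], [5, 6]), (1, [], [2, 3]), (4, [], [4])]),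
  (2, 7, [(0, [0], [0, 1]), (0, [0], [2, 0]), (0, [1], [3, 1]), (4, [], [4]), (0, [1], [5, 6]), (1, [], [2, 5]), (1, [], [3, 6]), (4, [], [4])]),
  (2, 7, [(0, [0], [0, 1]), (0, [0], [2, 0]), (0, [1], [3, 1]), (4, [], [4]), (0, [1], [5, 6]), (1, [], [2, 5]), (1, [], [3, 4]), (4, [], [6])]),
  (2, 7, [(0, [0], [0, 1]), (0, [0], [2, 0]), (0, [1], [3, 1]), (4, [], [4]), (0, [1], [5, 6]), (1, [], [3, 5]), (1, [], [2, 4]), (4, [], [6])]),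
  (2, 7, [(0, [0], [0, 1]), (0, [0], [2, 0]), (0, [1], [3, 1]), (4, [], [4]), (0, [1], [5, 6]), (1, [], [4, 5]), (1, [], [2, 3]), (4, [], [6])]),
  (2, 7, [(0, [0], [0, 1]), (0, [0], [2, 0]), (0, [1], [3, 1]), (4, [], [4]), (0, [1], [2, 5]), (1, [], [5, 6]), (1, [], [3, 6]), (4, [], [4])]),
  (2, 7, [(0, [0], [0, 1]), (0, [0], [2, 0]), (0, [1], [3, 1]), (4, [], [4]), (0, [1], [3, 5]), (1, [], [5, 6]), (1, [], [2, 6]), (4, [], [4])]),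
  (2, 7, [(0, [0], [0, 1]), (0, [0], [2, 0]), (0, [1], [3, 1]), (4, [], [4]), (0, [1], [2, 5]), (1, [], [5, 6]), (1, [], [3, 4]), (4, [], [6])]),
  (2, 7, [(0, [0], [0, 1]), (0, [0], [2, 0]), (0, [1], [3, 1]), (4, [], [4]), (0, [1], [3, 5]), (1, [], [5, 6]), (1, [], [2, 4]), (4, [], [6])]),
  (2, 7, [(0, [0], [0, 1]), (0, [0], [2, 0]), (0, [1], [3, 1]), (4, [], [4]), (0, [1], [4, 5]), (1, [], [2, 6]), (1, [], [3, 6]), (4, [], [5])]),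
  (2, 7, [(0, [0], [0, 1]), (0, [0], [2, 0]), (0, [1], [3, 1]), (4, [], [4]), (0, [1], [2, 3]), (1, [], [5, 6]), (1, [], [5, 6]), (4, [], [4])]),
  (2, 7, [(0, [0], [0, 1]), (0, [0], [2, 0]), (0, [1], [3, 1]), (4, [], [4]), (0, [1], [2, 3]), (1, [], [5, 6]), (1, [], [4, 5]), (4, [], [6])]),
  (2, 7, [(0, [0], [0, 1]), (0, [0], [2, 0]), (0, [1], [3, 4]), (4, [], [1]), (0, [1], [5, 6]), (1, [], [5, 6]), (1, [], [3, 4]), (4, [], [2])]),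
  (2, 7, [(0, [0], [0, 1]), (0, [0], [2, 0]), (0, [1], [3, 4]), (4, [], [1]), (0, [1], [5, 6]), (1, [], [2, 5]), (1, [], [3, 6]), (4, [], [4])]),
  (2, 7, [(0, [0], [0, 1]), (0, [0], [2, 0]), (0, [1], [3, 4]), (4, [], [1]), (0, [1], [5, 6]), (1, [], [3, 5]), (1, [], [4, 6]), (4, [], [2])]),
  (2, 7, [(0, [0], [0, 1]), (0, [0], [2, 0]), (0, [1], [3, 4]), (4, [], [1]), (0, [1], [3, 5]), (1, [], [5, 6]), (1, [], [2, 6]), (4, [], [4])]),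
  (2, 7, [(0, [0], [0, 1]), (0, [0], [2, 0]), (0, [1], [3, 4]), (4, [], [1]), (0, [1], [3, 5]), (1, [], [5, 6]), (1, [], [4, 6]), (4, [], [2])]),
  (2, 7, [(0, [0], [0, 1]), (0, [0], [2, 0]), (0, [1], [3, 4]), (4, [], [1]), (0, [1], [3, 5]), (1, [], [5, 6]), (1, [], [2, 4]), (4, [], [6])]),
  (2, 7, [(0, [0], [0, 1]), (0, [0], [2, 0]), (0, [1], [3, 4]), (4, [], [1]), (0, [1], [3, 5]), (1, [], [2, 6]), (1, [], [4, 5]), (4, [], [6])]),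
  (2, 7, [(0, [0], [0, 1]), (0, [0], [2, 3]), (0, [1], [0, 1]), (4, [], [4]), (0, [1], [5, 6]), (1, [], [2, 5]), (1, [], [3, 6]), (4, [], [4])]),
  (2, 7, [(0, [0], [0, 1]), (0, [0], [2, 3]), (0, [1], [0, 1]), (4, [], [4]), (0, [1], [2, 5]), (1, [], [5, 6]), (1, [], [3, 6]), (4, [], [4])]),
  (2, 7, [(0, [0], [0, 1]), (0, [0], [2, 3]), (0, [1], [0, 1]), (4, [], [4]), (0, [1], [2, 5]), (1, [], [5, 6]), (1, [], [3, 4]), (4, [], [6])]),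
  (2, 7, [(0, [0], [0, 1]), (0, [0], [2, 3]), (0, [1], [4, 0]), (4, [], [1]), (0, [1], [5, 6]), (1, [], [5, 6]), (1, [], [2, 4]), (4, [], [3])]),
  (2, 7, [(0, [0], [0, 1]), (0, [0], [2, 3]), (0, [1], [4, 0]), (4, [], [1]), (0, [1], [5, 6]), (1, [], [2, 5]), (1, [], [3, 6]), (4, [], [4])]),
  (2, 7, [(0, [0], [0, 1]), (0, [0], [2, 3]), (0, [1], [4, 0]), (4, [], [1]), (0, [1], [5, 6]), (1, [], [2, 5]), (1, [], [4, 6]), (4, [], [3])]),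
  (2, 7, [(0, [0], [0, 1]), (0, [0], [2, 3]), (0, [1], [4, 0]), (4, [], [1]), (0, [1], [5, 6]), (1, [], [2, 5]), (1, [], [3, 4]), (4, [], [6])]),
  (2, 7, [(0, [0], [0, 1]), (0, [0], [2, 3]), (0, [1], [4, 0]), (4, [], [1]), (0, [1], [2, 5]), (1, [], [5, 6]), (1, [], [3, 6]), (4, [], [4])]),
  (2, 7, [(0, [0], [0, 1]), (0, [0], [2, 3]), (0, [1], [4, 0]), (4, [], [1]), (0, [1], [2, 5]), (1, [], [5, 6]), (1, [], [4, 6]), (4, [], [3])]),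
  (2, 7, [(0, [0], [0, 1]), (0, [0], [2, 3]), (0, [1], [4, 0]), (4, [], [1]), (0, [1], [2, 5]), (1, [], [3, 6]), (1, [], [4, 6]), (4, [], [5])]),
  (2, 7, [(0, [0], [0, 1]), (0, [0], [2, 3]), (0, [1], [4, 0]), (4, [], [1]), (0, [1], [2, 5]), (1, [], [3, 6]), (1, [], [4, 5]), (4, [], [6])]),
  (2, 7, [(0, [0], [0, 1]), (0, [0], [2, 3]), (0, [1], [4, 0]), (4, [], [1]), (0, [1], [2, 5]), (1, [], [4, 6]), (1, [], [3, 5]), (4, [], [6])]),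
  (2, 7, [(0, [0], [0, 1]), (0, [0], [2, 3]), (0, [1], [1, 3]), (4, [], [4]), (0, [1], [5, 6]), (1, [], [5, 6]), (1, [], [0, 2]), (4, [], [4])]),
  (2, 7, [(0, [0], [0, 1]), (0, [0], [2, 3]), (0, [1], [1, 3]), (4, [], [4]), (0, [1], [5, 6]), (1, [], [0, 5]), (1, [], [2, 6]), (4, [], [4])]),
  (2, 7, [(0, [0], [0, 1]), (0, [0], [2, 3]), (0, [1], [1, 3]), (4, [], [4]), (0, [1], [5, 6]), (1, [], [0, 5]), (1, [], [2, 4]), (4, [], [6])]),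
  (2, 7, [(0, [0], [0, 1]), (0, [0], [2, 3]), (0, [1], [1, 3]), (4, [], [4]), (0, [1], [5, 6]), (1, [], [4, 5]), (1, [], [0, 2]), (4, [], [6])]),
  (2, 7, [(0, [0], [0, 1]), (0, [0], [2, 3]), (0, [1], [1, 3]), (4, [], [4]), (0, [1], [0, 5]), (1, [], [5, 6]), (1, [], [2, 6]), (4, [], [4])]),
  (2, 7, [(0, [0], [0, 1]), (0, [0], [2, 3]), (0, [1], [1, 3]), (4, [], [4]), (0, [1], [0, 5]), (1, [], [5, 6]), (1, [], [2, 4]), (4, [], [6])]),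
  (2, 7, [(0, [0], [0, 1]), (0, [0], [2, 3]), (0, [1], [1, 3]), (4, [], [4]), (0, [1], [4, 5]), (1, [], [0, 6]), (1, [], [2, 6]), (4, [], [5])]),
  (2, 7, [(0, [0], [0, 1]), (0, [0], [2, 3]), (0, [1], [1, 3]), (4, [], [4]), (0, [1], [0, 2]), (1, [], [5, 6]), (1, [], [5, 6]), (4, [], [4])]),
  (2, 7, [(0, [0], [0, 1]), (0, [0], [2, 3]), (0, [1], [1, 3]), (4, [], [4]), (0, [1], [0, 2]), (1, [], [5, 6]), (1, [], [4, 5]), (4, [], [6])]),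
  (2, 7, [(0, [0], [0, 1]), (0, [0], [2, 3]), (0, [1], [4, 3]), (4, [], [1]), (0, [1], [5, 6]), (1, [], [5, 6]), (1, [], [2, 4]), (4, [], [0])]),
  (2, 7, [(0, [0], [0, 1]), (0, [0], [2, 3]), (0, [1], [4, 3]), (4, [], [1]), (0, [1], [5, 6]), (1, [], [2, 5]), (1, [], [4, 6]), (4, [], [0])]),
  (2, 7, [(0, [0], [0, 1]), (0, [0], [2, 3]), (0, [1], [4, 3]), (4, [], [1]), (0, [1], [5, 6]), (1, [], [0, 5]), (1, [], [2, 4]), (4, [], [6])]),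
  (2, 7, [(0, [0], [0, 1]), (0, [0], [2, 3]), (0, [1], [4, 3]), (4, [], [1]), (0, [1], [5, 6]), (1, [], [2, 5]), (1, [], [0, 4]), (4, [], [6])]),
  (2, 7, [(0, [0], [0, 1]), (0, [0], [2, 3]), (0, [1], [4, 3]), (4, [], [1]), (0, [1], [5, 6]), (1, [], [4, 5]), (1, [], [0, 2]), (4, [], [6])]),
  (2, 7, [(0, [0], [0, 1]), (0, [0], [2, 1]), (0, [1], [3, 4]), (4, [], [4]), (0, [1], [5, 6]), (1, [], [5, 6]), (1, [], [0, 2]), (4, [], [3])]),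
  (2, 7, [(0, [0], [0, 1]), (0, [0], [2, 1]), (0, [1], [3, 4]), (4, [], [4]), (0, [1], [5, 6]), (1, [], [0, 5]), (1, [], [2, 6]), (4, [], [3])]),
  (2, 7, [(0, [0], [0, 1]), (0, [0], [2, 1]), (0, [1], [3, 4]), (4, [], [4]), (0, [1], [5, 6]), (1, [], [0, 5]), (1, [], [2, 3]), (4, [], [6])]),
  (2, 7, [(0, [0], [0, 1]), (0, [0], [2, 1]), (0, [1], [3, 4]), (4, [], [4]), (0, [1], [5, 6]), (1, [], [3, 5]), (1, [], [0, 2]), (4, [], [6])]),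
  (2, 7, [(0, [0], [0, 1]), (0, [0], [2, 1]), (0, [1], [3, 4]), (4, [], [5]), (0, [1], [3, 6]), (1, [], [0, 6]), (1, [], [2, 4]), (4, [], [5])]),
  (2, 7, [(0, [0], [0, 1]), (0, [0], [2, 1]), (0, [1], [3, 4]), (4, [], [5]), (0, [1], [3, 6]), (1, [], [4, 6]), (1, [], [0, 2]), (4, [], [5])]),
  (2, 7, [(0, [0], [0, 1]), (0, [0], [2, 3]), (0, [1], [4, 1]), (4, [], [5]), (0, [1], [2, 6]), (1, [], [3, 6]), (1, [], [0, 4]), (4, [], [5])]),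
  (2, 7, [(0, [0], [0, 1]), (0, [0], [2, 3]), (0, [1], [4, 1]), (4, [], [5]), (0, [1], [2, 6]), (1, [], [4, 6]), (1, [], [0, 3]), (4, [], [5])])]

def kl64 : List ℕ := [10, 12, 26, 42, 45, 50, 51, 55, 56, 99, 100, 101, 106, 113, 114, 115, 117, 121, 122, 123, 124, 127, 128, 129, 131, 134, 135, 136, 141, 145, 146, 147, 149, 150, 208, 209, 210, 226, 227, 228, 229, 230, 231, 232, 233, 234, 235, 244, 245, 254, 255, 256, 257, 258, 259, 260, 271, 272, 273, 289, 290, 291, 292, 293, 294, 296, 297, 298, 304, 305, 306, 307, 308, 309, 310, 316, 317, 323, 324, 325, 326, 327, 332, 333, 334, 335, 422, 423, 432, 433]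

def m64_0 : Base := (0, 1, [(0, [0], [0, 5]), (0, [1], [1, 5]), (1, [], [2, 3]), (4, [], [4])])

def l64_0 : Cov := [(64, 0, 1, [(0, [0], [0, 5]), (0, [1], [1, 5]), (1, [], [2, 3]), (4, [], [4])]),
  (-64, 0, 1, [(0, [0], [0, 5]), (0, [1], [1, 5]), (1, [], [3, 4]), (4, [], [2])]),
  (128, 0, 1, [(0, [0], [0, 5]), (0, [1], [2, 5]), (1, [], [1, 4]), (4, [], [3])]),
  (-128, 0, 1, [(0, [0], [0, 5]), (0, [1], [2, 5]), (1, [], [3, 4]), (4, [], [1])]),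
  (-64, 0, 1, [(0, [0], [0, 5]), (0, [1], [3, 5]), (1, [], [1, 2]), (4, [], [4])]),
  (64, 0, 1, [(0, [0], [0, 5]), (0, [1], [3, 5]), (1, [], [1, 4]), (4, [], [2])]),
  (-128, 0, 1, [(0, [0], [0, 5]), (0, [1], [4, 5]), (1, [], [1, 2]), (4, [], [3])]),
  (128, 0, 1, [(0, [0], [0, 5]), (0, [1], [4, 5]), (1, [], [2, 3]), (4, [], [1])]),
  (-64, 0, 1, [(0, [0], [1, 5]), (0, [1], [0, 5]), (1, [], [2, 3]), (4, [], [4])]),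
  (64, 0, 1, [(0, [0], [1, 5]), (0, [1], [0, 5]), (1, [], [3, 4]), (4, [], [2])]),
  (64, 0, 1, [(0, [0], [1, 5]), (0, [1], [2, 5]), (1, [], [0, 3]), (4, [], [4])]),
  (-64, 0, 1, [(0, [0], [1, 5]), (0, [1], [2, 5]), (1, [], [3, 4]), (4, [], [0])]),
  (-64, 0, 1, [(0, [0], [1, 5]), (0, [1], [4, 5]), (1, [], [0, 3]), (4, [], [2])]),
  (64, 0, 1, [(0, [0], [1, 5]), (0, [1], [4, 5]), (1, [], [2, 3]), (4, [], [0])]),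
  (-128, 0, 1, [(0, [0], [2, 5]), (0, [1], [0, 5]), (1, [], [1, 4]), (4, [], [3])]),
  (128, 0, 1, [(0, [0], [2, 5]), (0, [1], [0, 5]), (1, [], [3, 4]), (4, [], [1])]),
  (-64, 0, 1, [(0, [0], [2, 5]), (0, [1], [1, 5]), (1, [], [0, 3]), (4, [], [4])]),
  (64, 0, 1, [(0, [0], [2, 5]), (0, [1], [1, 5]), (1, [], [3, 4]), (4, [], [0])]),
  (64, 0, 1, [(0, [0], [2, 5]), (0, [1], [3, 5]), (1, [], [0, 1]), (4, [], [4])]),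
  (-64, 0, 1, [(0, [0], [2, 5]), (0, [1], [3, 5]), (1, [], [1, 4]), (4, [], [0])]),
  (128, 0, 1, [(0, [0], [2, 5]), (0, [1], [4, 5]), (1, [], [0, 1]), (4, [], [3])]),
  (-128, 0, 1, [(0, [0], [2, 5]), (0, [1], [4, 5]), (1, [], [0, 3]), (4, [], [1])]),
  (64, 0, 1, [(0, [0], [3, 5]), (0, [1], [0, 5]), (1, [], [1, 2]), (4, [], [4])]),
  (-64, 0, 1, [(0, [0], [3, 5]), (0, [1], [0, 5]), (1, [], [1, 4]), (4, [], [2])]),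
  (-64, 0, 1, [(0, [0], [3, 5]), (0, [1], [2, 5]), (1, [], [0, 1]), (4, [], [4])]),
  (64, 0, 1, [(0, [0], [3, 5]), (0, [1], [2, 5]), (1, [], [1, 4]), (4, [], [0])]),
  (64, 0, 1, [(0, [0], [3, 5]), (0, [1], [4, 5]), (1, [], [0, 1]), (4, [], [2])]),
  (-64, 0, 1, [(0, [0], [3, 5]), (0, [1], [4, 5]), (1, [], [1, 2]), (4, [], [0])]),
  (128, 0, 1, [(0, [0], [4, 5]), (0, [1], [0, 5]), (1, [], [1, 2]), (4, [], [3])]),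
  (-128, 0, 1, [(0, [0], [4, 5]), (0, [1], [0, 5]), (1, [], [2, 3]), (4, [], [1])]),
  (64, 0, 1, [(0, [0], [4, 5]), (0, [1], [1, 5]), (1, [], [0, 3]), (4, [], [2])]),
  (-64, 0, 1, [(0, [0], [4, 5]), (0, [1], [1, 5]), (1, [], [2, 3]), (4, [], [0])]),
  (-128, 0, 1, [(0, [0], [4, 5]), (0, [1], [2, 5]), (1, [], [0, 1]), (4, [], [3])]),
  (128, 0, 1, [(0, [0], [4, 5]), (0, [1], [2, 5]), (1, [], [0, 3]), (4, [], [1])]),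
  (-64, 0, 1, [(0, [0], [4, 5]), (0, [1], [3, 5]), (1, [], [0, 1]), (4, [], [2])]),
  (64, 0, 1, [(0, [0], [4, 5]), (0, [1], [3, 5]), (1, [], [1, 2]), (4, [], [0])])]

def z64_0 : Cov := [(0, 0, 1, [(0, [0], [0, 5]), (0, [1], [1, 5]), (1, [], [2, 4]), (4, [], [3])]),
  (0, 0, 1, [(0, [0], [0, 5]), (0, [1], [2, 5]), (1, [], [1, 3]), (4, [], [4])]),
  (0, 0, 1, [(0, [0], [0, 5]), (0, [1], [3, 5]), (1, [], [2, 4]), (4, [], [1])]),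
  (0, 0, 1, [(0, [0], [0, 5]), (0, [1], [4, 5]), (1, [], [1, 3]), (4, [], [2])]),
  (0, 0, 1, [(0, [0], [1, 5]), (0, [1], [0, 5]), (1, [], [2, 4]), (4, [], [3])]),
  (0, 0, 1, [(0, [0], [1, 5]), (0, [1], [2, 5]), (1, [], [0, 4]), (4, [], [3])]),
  (0, 0, 1, [(0, [0], [1, 5]), (0, [1], [3, 5]), (1, [], [0, 2]), (4, [], [4])]),
  (0, 0, 1, [(0, [0], [1, 5]), (0, [1], [3, 5]), (1, [], [0, 4]), (4, [], [2])]),
  (0, 0, 1, [(0, [0], [1, 5]), (0, [1], [3, 5]), (1, [], [2, 4]), (4, [], [0])]),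
  (0, 0, 1, [(0, [0], [1, 5]), (0, [1], [4, 5]), (1, [], [0, 2]), (4, [], [3])]),
  (0, 0, 1, [(0, [0], [2, 5]), (0, [1], [0, 5]), (1, [], [1, 3]), (4, [], [4])]),
  (0, 0, 1, [(0, [0], [2, 5]), (0, [1], [1, 5]), (1, [], [0, 4]), (4, [], [3])]),
  (0, 0, 1, [(0, [0], [2, 5]), (0, [1], [3, 5]), (1, [], [0, 4]), (4, [], [1])]),
  (0, 0, 1, [(0, [0], [2, 5]), (0, [1], [4, 5]), (1, [], [1, 3]), (4, [], [0])]),
  (0, 0, 1, [(0, [0], [3, 5]), (0, [1], [0, 5]), (1, [], [2, 4]), (4, [], [1])]),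
  (0, 0, 1, [(0, [0], [3, 5]), (0, [1], [1, 5]), (1, [], [0, 2]), (4, [], [4])]),
  (0, 0, 1, [(0, [0], [3, 5]), (0, [1], [1, 5]), (1, [], [0, 4]), (4, [], [2])]),
  (0, 0, 1, [(0, [0], [3, 5]), (0, [1], [1, 5]), (1, [], [2, 4]), (4, [], [0])]),
  (0, 0, 1, [(0, [0], [3, 5]), (0, [1], [2, 5]), (1, [], [0, 4]), (4, [], [1])]),
  (0, 0, 1, [(0, [0], [3, 5]), (0, [1], [4, 5]), (1, [], [0, 2]), (4, [], [1])]),
  (0, 0, 1, [(0, [0], [4, 5]), (0, [1], [0, 5]), (1, [], [1, 3]), (4, [], [2])]),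
  (0, 0, 1, [(0, [0], [4, 5]), (0, [1], [1, 5]), (1, [], [0, 2]), (4, [], [3])]),
  (0, 0, 1, [(0, [0], [4, 5]), (0, [1], [2, 5]), (1, [], [1, 3]), (4, [], [0])]),
  (0, 0, 1, [(0, [0], [4, 5]), (0, [1], [3, 5]), (1, [], [0, 2]), (4, [], [1])])]

def w64_0 : List (List Wit) := [[(0, 0, 0, 0, 0), (36, 0, 0, 0, 0), (0, 0, 0, 0, 0), (1, 0, 0, 0, 0), (36, 0, 0, 0, 0), (1, 0, 0, 0, 0), (37, 0, 0, 0, 0), (2, 0, 0, 0, 0), (37, 0, 0, 0, 0), (3, 0, 0, 0, 0), (2, 0, 0, 0, 0), (3, 0, 0, 0, 0), (4, 0, 0, 0, 0), (5, 0, 0, 0, 0), (4, 0, 0, 0, 0), (38, 0, 0, 0, 0), (5, 0, 0, 0, 0), (38, 0, 0, 0, 0), (6, 0, 0, 0, 0), (39, 0, 0, 0, 0), (6, 0, 0, 0, 0), (7, 0, 0, 0, 0), (39, 0, 0, 0, 0), (7, 0, 0, 0, 0), (8, 0, 0, 0, 0), (40, 0, 0, 0, 0), (8, 0, 0, 0, 0), (9, 0, 0, 0, 0), (40, 0, 0, 0, 0), (9, 0, 0, 0, 0), (10, 0, 0, 0, 0), (41, 0, 0,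 0, 0), (10, 0, 0, 0, 0), (11, 0, 0, 0, 0), (41, 0, 0, 0, 0), (11, 0, 0, 0, 0), (42, 0, 0, 0, 0), (43, 0, 0, 0, 0), (42, 0, 0, 0, 0), (44, 0, 0, 0, 0), (43, 0, 0, 0, 0), (44, 0, 0, 0, 0), (45, 0, 0, 0, 0), (12, 0, 0, 0, 0), (45, 0, 0, 0, 0), (13, 0, 0, 0, 0), (12, 0, 0, 0, 0), (13, 0, 0, 0, 0), (46, 0, 0, 0, 0), (14, 0, 0, 0, 0), (46, 0, 0, 0, 0), (15, 0, 0, 0, 0), (14, 0, 0, 0, 0), (15, 0, 0, 0, 0), (16, 0, 0, 0, 0), (47, 0, 0, 0, 0), (16, 0, 0, 0, 0), (17, 0, 0, 0, 0), (47, 0, 0, 0, 0), (17, 0, 0, 0, 0), (18, 0, 0, 0, 0), (48, 0, 0, 0, 0), (18, 0, 0, 0, 0), (19, 0, 0, 0, 0), (48, 0, 0, 0, 0), (19, 0, 0, 0, 0), (20, 0, 0, 0, 0), (21, 0, 0, 0, 0), (20, 0, 0, 0, 0), (49, 0, 0, 0, 0), (21, 0, 0, 0, 0), (49, 0, 0, 0, 0), (22, 0, 0, 0, 0), (23, 0, 0, 0, 0), (22, 0, 0, 0, 0), (50, 0, 0, 0, 0), (23, 0, 0, 0, 0), (50, 0, 0,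 0, 0), (51, 0, 0, 0, 0), (52, 0, 0, 0, 0), (51, 0, 0, 0, 0), (53, 0, 0, 0, 0), (52, 0, 0, 0, 0), (53, 0, 0, 0, 0), (24, 0, 0, 0, 0), (54, 0, 0, 0, 0), (24, 0, 0, 0, 0), (25, 0, 0, 0, 0), (54, 0, 0, 0, 0), (25, 0, 0, 0, 0), (26, 0, 0, 0, 0), (55, 0, 0, 0, 0), (26, 0, 0, 0, 0), (27, 0, 0, 0, 0), (55, 0, 0, 0, 0), (27, 0, 0, 0, 0), (28, 0, 0, 0, 0), (56, 0, 0, 0, 0), (28, 0, 0, 0, 0), (29, 0, 0, 0, 0), (56, 0, 0, 0, 0), (29, 0, 0, 0, 0), (57, 0, 0, 0, 0), (30, 0, 0, 0, 0), (57, 0, 0, 0, 0), (31, 0, 0, 0, 0), (30, 0, 0, 0, 0), (31, 0, 0, 0, 0), (32, 0, 0, 0, 0), (33, 0, 0, 0, 0), (32, 0, 0, 0, 0), (58, 0, 0, 0, 0), (33, 0, 0, 0, 0), (58, 0, 0, 0, 0), (34, 0, 0, 0, 0), (59, 0, 0, 0, 0), (34, 0, 0, 0, 0), (35, 0, 0, 0, 0), (59, 0, 0, 0, 0), (35, 0, 0, 0, 0)],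
  [(8, 0, 0, 0, 0), (40, 0, 0, 0, 0), (8, 0, 0, 0, 0), (9, 0, 0, 0, 0), (40, 0, 0, 0, 0), (9, 0, 0, 0, 0), (46, 0, 0, 0, 0), (14, 0, 0, 0, 0), (46, 0, 0, 0, 0), (15, 0, 0, 0, 0), (14, 0, 0, 0, 0), (15, 0, 0, 0, 0), (22, 0, 0, 0, 0), (23, 0, 0, 0, 0), (22, 0, 0, 0, 0), (50, 0, 0, 0, 0), (23, 0, 0, 0, 0), (50, 0, 0, 0, 0), (28, 0, 0, 0, 0), (56, 0, 0, 0, 0), (28, 0, 0, 0, 0), (29, 0, 0, 0, 0), (56, 0, 0, 0, 0), (29, 0, 0, 0, 0), (0, 0, 0, 0, 0), (36, 0, 0, 0, 0), (0, 0, 0, 0, 0), (1, 0, 0, 0, 0), (36, 0, 0, 0, 0), (1, 0, 0, 0, 0), (16, 0, 0, 0, 0), (47, 0, 0, 0, 0), (16, 0, 0, 0, 0), (17, 0, 0, 0, 0), (47, 0, 0, 0, 0), (17, 0, 0, 0, 0), (51, 0, 0, 0, 0), (52, 0, 0, 0, 0), (51, 0, 0, 0, 0), (53, 0, 0, 0, 0), (52, 0, 0, 0, 0), (53, 0, 0, 0, 0), (57, 0, 0, 0, 0), (30, 0, 0, 0, 0), (57, 0, 0, 0, 0), (31, 0, 0, 0, 0), (30,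 0, 0, 0, 0), (31, 0, 0, 0, 0), (37, 0, 0, 0, 0), (2, 0, 0, 0, 0), (37, 0, 0, 0, 0), (3, 0, 0, 0, 0), (2, 0, 0, 0, 0), (3, 0, 0, 0, 0), (10, 0, 0, 0, 0), (41, 0, 0, 0, 0), (10, 0, 0, 0, 0), (11, 0, 0, 0, 0), (41, 0, 0, 0, 0), (11, 0, 0, 0, 0), (24, 0, 0, 0, 0), (54, 0, 0, 0, 0), (24, 0, 0, 0, 0), (25, 0, 0, 0, 0), (54, 0, 0, 0, 0), (25, 0, 0, 0, 0), (32, 0, 0, 0, 0), (33, 0, 0, 0, 0), (32, 0, 0, 0, 0), (58, 0, 0, 0, 0), (33, 0, 0, 0, 0), (58, 0, 0, 0, 0), (4, 0, 0, 0, 0), (5, 0, 0, 0, 0), (4, 0, 0, 0, 0), (38, 0, 0, 0, 0), (5, 0, 0, 0, 0), (38, 0, 0, 0, 0), (42, 0, 0, 0, 0), (43, 0, 0, 0, 0), (42, 0, 0, 0, 0), (44, 0, 0, 0, 0), (43, 0, 0, 0, 0), (44, 0, 0, 0, 0), (18, 0, 0, 0, 0), (48, 0, 0, 0, 0), (18, 0, 0, 0, 0), (19, 0, 0, 0, 0), (48, 0, 0, 0, 0), (19, 0, 0, 0, 0), (34, 0, 0, 0, 0), (59, 0, 0, 0, 0), (34, 0, 0, 0,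 0), (35, 0, 0, 0, 0), (59, 0, 0, 0, 0), (35, 0, 0, 0, 0), (6, 0, 0, 0, 0), (39, 0, 0, 0, 0), (6, 0, 0, 0, 0), (7, 0, 0, 0, 0), (39, 0, 0, 0, 0), (7, 0, 0, 0, 0), (45, 0, 0, 0, 0), (12, 0, 0, 0, 0), (45, 0, 0, 0, 0), (13, 0, 0, 0, 0), (12, 0, 0, 0, 0), (13, 0, 0, 0, 0), (20, 0, 0, 0, 0), (21, 0, 0, 0, 0), (20, 0, 0, 0, 0), (49, 0, 0, 0, 0), (21, 0, 0, 0, 0), (49, 0, 0, 0, 0), (26, 0, 0, 0, 0), (55, 0, 0, 0, 0), (26, 0, 0, 0, 0), (27, 0, 0, 0, 0), (55, 0, 0, 0, 0), (27, 0, 0, 0, 0)]]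

def m64_1 : Base := (0, 1, [(0, [0], [0, 5]), (0, [1], [1, 2]), (1, [], [3, 5]), (4, [], [4])])

def l64_1 : Cov := [(128, 0, 1, [(0, [0], [0, 5]), (0, [1], [1, 2]), (1, [], [3, 5]), (4, [], [4])]),
  (64, 0, 1, [(0, [0], [0, 5]), (0, [1], [1, 2]), (1, [], [4, 5]), (4, [], [3])]),
  (-64, 0, 1, [(0, [0], [0, 5]), (0, [1], [1, 4]), (1, [], [2, 5]), (4, [], [3])]),
  (-128, 0, 1, [(0, [0], [0, 5]), (0, [1], [1, 4]), (1, [], [3, 5]), (4, [], [2])]),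
  (-128, 0, 1, [(0, [0], [0, 5]), (0, [1], [2, 3]), (1, [], [1, 5]), (4, [], [4])]),
  (-64, 0, 1, [(0, [0], [0, 5]), (0, [1], [2, 3]), (1, [], [4, 5]), (4, [], [1])]),
  (128, 0, 1, [(0, [0], [0, 5]), (0, [1], [3, 4]), (1, [], [1, 5]), (4, [], [2])]),
  (64, 0, 1, [(0, [0], [0, 5]), (0, [1], [3, 4]), (1, [], [2, 5]), (4, [], [1])]),
  (64, 0, 1, [(0, [0], [1, 5]), (0, [1], [0, 3]), (1, [], [2, 5]), (4, [], [4])]),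
  (-64, 0, 1, [(0, [0], [1, 5]), (0, [1], [0, 3]), (1, [], [4, 5]), (4, [], [2])]),
  (-64, 0, 1, [(0, [0], [1, 5]), (0, [1], [2, 3]), (1, [], [0, 5]), (4, [], [4])]),
  (64, 0, 1, [(0, [0], [1, 5]), (0, [1], [2, 3]), (1, [], [4, 5]), (4, [], [0])]),
  (64, 0, 1, [(0, [0], [1, 5]), (0, [1], [3, 4]), (1, [], [0, 5]), (4, [], [2])]),
  (-64, 0, 1, [(0, [0], [1, 5]), (0, [1], [3, 4]), (1, [], [2, 5]), (4, [], [0])]),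
  (-128, 0, 1, [(0, [0], [2, 5]), (0, [1], [0, 1]), (1, [], [3, 5]), (4, [], [4])]),
  (-64, 0, 1, [(0, [0], [2, 5]), (0, [1], [0, 1]), (1, [], [4, 5]), (4, [], [3])]),
  (128, 0, 1, [(0, [0], [2, 5]), (0, [1], [0, 3]), (1, [], [1, 5]), (4, [], [4])]),
  (64, 0, 1, [(0, [0], [2, 5]), (0, [1], [0, 3]), (1, [], [4, 5]), (4, [], [1])]),
  (64, 0, 1, [(0, [0], [2, 5]), (0, [1], [1, 4]), (1, [], [0, 5]), (4, [], [3])]),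
  (128, 0, 1, [(0, [0], [2, 5]), (0, [1], [1, 4]), (1, [], [3, 5]), (4, [], [0])]),
  (-64, 0, 1, [(0, [0], [2, 5]), (0, [1], [3, 4]), (1, [], [0, 5]), (4, [], [1])]),
  (-128, 0, 1, [(0, [0], [2, 5]), (0, [1], [3, 4]), (1, [], [1, 5]), (4, [], [0])]),
  (-64, 0, 1, [(0, [0], [3, 5]), (0, [1], [0, 1]), (1, [], [2, 5]), (4, [], [4])]),
  (64, 0, 1, [(0, [0], [3, 5]), (0, [1], [0, 1]), (1, [], [4, 5]), (4, [], [2])]),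
  (64, 0, 1, [(0, [0], [3, 5]), (0, [1], [1, 2]), (1, [], [0, 5]), (4, [], [4])]),
  (-64, 0, 1, [(0, [0], [3, 5]), (0, [1], [1, 2]), (1, [], [4, 5]), (4, [], [0])]),
  (-64, 0, 1, [(0, [0], [3, 5]), (0, [1], [1, 4]), (1, [], [0, 5]), (4, [], [2])]),
  (64, 0, 1, [(0, [0], [3, 5]), (0, [1], [1, 4]), (1, [], [2, 5]), (4, [], [0])]),
  (64, 0, 1, [(0, [0], [4, 5]), (0, [1], [0, 1]), (1, [], [2, 5]), (4, [], [3])]),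
  (128, 0, 1, [(0, [0], [4, 5]), (0, [1], [0, 1]), (1, [], [3, 5]), (4, [], [2])]),
  (-128, 0, 1, [(0, [0], [4, 5]), (0, [1], [0, 3]), (1, [], [1, 5]), (4, [], [2])]),
  (-64, 0, 1, [(0, [0], [4, 5]), (0, [1], [0, 3]), (1, [], [2, 5]), (4, [], [1])]),
  (-64, 0, 1, [(0, [0], [4, 5]), (0, [1], [1, 2]), (1, [], [0, 5]), (4, [], [3])]),
  (-128, 0, 1, [(0, [0], [4, 5]), (0, [1], [1, 2]), (1, [], [3, 5]), (4, [], [0])]),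
  (64, 0, 1, [(0, [0], [4, 5]), (0, [1], [2, 3]), (1, [], [0, 5]), (4, [], [1])]),
  (128, 0, 1, [(0, [0], [4, 5]), (0, [1], [2, 3]), (1, [], [1, 5]), (4, [], [0])]),
  (-128, 0, 1, [(0, [1], [0, 5]), (0, [0], [1, 2]), (1, [], [3, 5]), (4, [], [4])]),
  (-64, 0, 1, [(0, [1], [0, 5]), (0, [0], [1, 2]), (1, [], [4, 5]), (4, [], [3])]),
  (64, 0, 1, [(0, [1], [0, 5]), (0, [0], [1, 4]), (1, [], [2, 5]), (4, [], [3])]),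
  (128, 0, 1, [(0, [1], [0, 5]), (0, [0], [1, 4]), (1, [], [3, 5]), (4, [], [2])]),
  (128, 0, 1, [(0, [1], [0, 5]), (0, [0], [2, 3]), (1, [], [1, 5]), (4, [], [4])]),
  (64, 0, 1, [(0, [1], [0, 5]), (0, [0], [2, 3]), (1, [], [4, 5]), (4, [], [1])]),
  (-128, 0, 1, [(0, [1], [0, 5]), (0, [0], [3, 4]), (1, [], [1, 5]), (4, [], [2])]),
  (-64, 0, 1, [(0, [1], [0, 5]), (0, [0], [3, 4]), (1, [], [2, 5]), (4, [], [1])]),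
  (-64, 0, 1, [(0, [1], [1, 5]), (0, [0], [0, 3]), (1, [], [2, 5]), (4, [], [4])]),
  (64, 0, 1, [(0, [1], [1, 5]), (0, [0], [0, 3]), (1, [], [4, 5]), (4, [], [2])]),
  (64, 0, 1, [(0, [1], [1, 5]), (0, [0], [2, 3]), (1, [], [0, 5]), (4, [], [4])]),
  (-64, 0, 1, [(0, [1], [1, 5]), (0, [0], [2, 3]), (1, [], [4, 5]), (4, [], [0])]),
  (-64, 0, 1, [(0, [1], [1, 5]), (0, [0], [3, 4]), (1, [], [0, 5]), (4, [], [2])]),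
  (64, 0, 1, [(0, [1], [1, 5]), (0, [0], [3, 4]), (1, [], [2, 5]), (4, [], [0])]),
  (128, 0, 1, [(0, [1], [2, 5]), (0, [0], [0, 1]), (1, [], [3, 5]), (4, [], [4])]),
  (64, 0, 1, [(0, [1], [2, 5]), (0, [0], [0, 1]), (1, [], [4, 5]), (4, [], [3])]),
  (-128, 0, 1, [(0, [1], [2, 5]), (0, [0], [0, 3]), (1, [], [1, 5]), (4, [], [4])]),
  (-64, 0, 1, [(0, [1], [2, 5]), (0, [0], [0, 3]), (1, [], [4, 5]), (4, [], [1])]),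
  (-64, 0, 1, [(0, [1], [2, 5]), (0, [0], [1, 4]), (1, [], [0, 5]), (4, [], [3])]),
  (-128, 0, 1, [(0, [1], [2, 5]), (0, [0], [1, 4]), (1, [], [3, 5]), (4, [], [0])]),
  (64, 0, 1, [(0, [1], [2, 5]), (0, [0], [3, 4]), (1, [], [0, 5]), (4, [], [1])]),
  (128, 0, 1, [(0, [1], [2, 5]), (0, [0], [3, 4]), (1, [], [1, 5]), (4, [], [0])]),
  (64, 0, 1, [(0, [1], [3, 5]), (0, [0], [0, 1]), (1, [], [2, 5]), (4, [], [4])]),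
  (-64, 0, 1, [(0, [1], [3, 5]), (0, [0], [0, 1]), (1, [], [4, 5]), (4, [], [2])]),
  (-64, 0, 1, [(0, [1], [3, 5]), (0, [0], [1, 2]), (1, [], [0, 5]), (4, [], [4])]),
  (64, 0, 1, [(0, [1], [3, 5]), (0, [0], [1, 2]), (1, [], [4, 5]), (4, [], [0])]),
  (64, 0, 1, [(0, [1], [3, 5]), (0, [0], [1, 4]), (1, [], [0, 5]), (4, [], [2])]),
  (-64, 0, 1, [(0, [1], [3, 5]), (0, [0], [1, 4]), (1, [], [2, 5]), (4, [], [0])]),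
  (-64, 0, 1, [(0, [1], [4, 5]), (0, [0], [0, 1]), (1, [], [2, 5]), (4, [], [3])]),
  (-128, 0, 1, [(0, [1], [4, 5]), (0, [0], [0, 1]), (1, [], [3, 5]), (4, [], [2])]),
  (128, 0, 1, [(0, [1], [4, 5]), (0, [0], [0, 3]), (1, [], [1, 5]), (4, [], [2])]),
  (64, 0, 1, [(0, [1], [4, 5]), (0, [0], [0, 3]), (1, [], [2, 5]), (4, [], [1])]),
  (64, 0, 1, [(0, [1], [4, 5]), (0, [0], [1, 2]), (1, [], [0, 5]), (4, [], [3])]),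
  (128, 0, 1, [(0, [1], [4, 5]), (0, [0], [1, 2]), (1, [], [3, 5]), (4, [], [0])]),
  (-64, 0, 1, [(0, [1], [4, 5]), (0, [0], [2, 3]), (1, [], [0, 5]), (4, [], [1])]),
  (-128, 0, 1, [(0, [1], [4, 5]), (0, [0], [2, 3]), (1, [], [1, 5]), (4, [], [0])])]

def z64_1 : Cov := [(0, 0, 1, [(0, [0], [0, 5]), (0, [1], [1, 3]), (1, [], [2, 5]), (4, [], [4])]),
  (0, 0, 1, [(0, [0], [0, 5]), (0, [1], [1, 3]), (1, [], [4, 5]), (4, [], [2])]),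
  (0, 0, 1, [(0, [0], [0, 5]), (0, [1], [2, 4]), (1, [], [1, 5]), (4, [], [3])]),
  (0, 0, 1, [(0, [0], [0, 5]), (0, [1], [2, 4]), (1, [], [3, 5]), (4, [], [1])]),
  (0, 0, 1, [(0, [0], [1, 5]), (0, [1], [0, 2]), (1, [], [3, 5]), (4, [], [4])]),
  (0, 0, 1, [(0, [0], [1, 5]), (0, [1], [0, 2]), (1, [], [4, 5]), (4, [], [3])]),
  (0, 0, 1, [(0, [0], [1, 5]), (0, [1], [0, 4]), (1, [], [2, 5]), (4, [], [3])]),
  (0, 0, 1, [(0, [0], [1, 5]), (0, [1], [0, 4]), (1, [], [3, 5]), (4, [], [2])]),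
  (0, 0, 1, [(0, [0], [1, 5]), (0, [1], [2, 4]), (1, [], [0, 5]), (4, [], [3])]),
  (0, 0, 1, [(0, [0], [1, 5]), (0, [1], [2, 4]), (1, [], [3, 5]), (4, [], [0])]),
  (0, 0, 1, [(0, [0], [2, 5]), (0, [1], [0, 4]), (1, [], [1, 5]), (4, [], [3])]),
  (0, 0, 1, [(0, [0], [2, 5]), (0, [1], [0, 4]), (1, [], [3, 5]), (4, [], [1])]),
  (0, 0, 1, [(0, [0], [2, 5]), (0, [1], [1, 3]), (1, [], [0, 5]), (4, [], [4])]),
  (0, 0, 1, [(0, [0], [2, 5]), (0, [1], [1, 3]), (1, [], [4, 5]), (4, [], [0])]),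
  (0, 0, 1, [(0, [0], [3, 5]), (0, [1], [0, 2]), (1, [], [1, 5]), (4, [], [4])]),
  (0, 0, 1, [(0, [0], [3, 5]), (0, [1], [0, 2]), (1, [], [4, 5]), (4, [], [1])]),
  (0, 0, 1, [(0, [0], [3, 5]), (0, [1], [0, 4]), (1, [], [1, 5]), (4, [], [2])]),
  (0, 0, 1, [(0, [0], [3, 5]), (0, [1], [0, 4]), (1, [], [2, 5]), (4, [], [1])]),
  (0, 0, 1, [(0, [0], [3, 5]), (0, [1], [2, 4]), (1, [], [0, 5]), (4, [], [1])]),
  (0, 0, 1, [(0, [0], [3, 5]), (0, [1], [2, 4]), (1, [], [1, 5]), (4, [], [0])]),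
  (0, 0, 1, [(0, [0], [4, 5]), (0, [1], [0, 2]), (1, [], [1, 5]), (4, [], [3])]),
  (0, 0, 1, [(0, [0], [4, 5]), (0, [1], [0, 2]), (1, [], [3, 5]), (4, [], [1])]),
  (0, 0, 1, [(0, [0], [4, 5]), (0, [1], [1, 3]), (1, [], [0, 5]), (4, [], [2])]),
  (0, 0, 1, [(0, [0], [4, 5]), (0, [1], [1, 3]), (1, [], [2, 5]), (4, [], [0])]),
  (0, 0, 1, [(0, [1], [0, 5]), (0, [0], [1, 3]), (1, [], [2, 5]), (4, [], [4])]),
  (0, 0, 1, [(0, [1], [0, 5]), (0, [0], [1, 3]), (1, [], [4, 5]), (4, [], [2])]),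
  (0, 0, 1, [(0, [1], [0, 5]), (0, [0], [2, 4]), (1, [], [1, 5]), (4, [], [3])]),
  (0, 0, 1, [(0, [1], [0, 5]), (0, [0], [2, 4]), (1, [], [3, 5]), (4, [], [1])]),
  (0, 0, 1, [(0, [1], [1, 5]), (0, [0], [0, 2]), (1, [], [3, 5]), (4, [], [4])]),
  (0, 0, 1, [(0, [1], [1, 5]), (0, [0], [0, 2]), (1, [], [4, 5]), (4, [], [3])]),
  (0, 0, 1, [(0, [1], [1, 5]), (0, [0], [0, 4]), (1, [], [2, 5]), (4, [], [3])]),
  (0, 0, 1, [(0, [1], [1, 5]), (0, [0], [0, 4]), (1, [], [3, 5]), (4, [], [2])]),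
  (0, 0, 1, [(0, [1], [1, 5]), (0, [0], [2, 4]), (1, [], [0, 5]), (4, [], [3])]),
  (0, 0, 1, [(0, [1], [1, 5]), (0, [0], [2, 4]), (1, [], [3, 5]), (4, [], [0])]),
  (0, 0, 1, [(0, [1], [2, 5]), (0, [0], [0, 4]), (1, [], [1, 5]), (4, [], [3])]),
  (0, 0, 1, [(0, [1], [2, 5]), (0, [0], [0, 4]), (1, [], [3, 5]), (4, [], [1])]),
  (0, 0, 1, [(0, [1], [2, 5]), (0, [0], [1, 3]), (1, [], [0, 5]), (4, [], [4])]),
  (0, 0, 1, [(0, [1], [2, 5]), (0, [0], [1, 3]), (1, [], [4, 5]), (4, [], [0])]),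
  (0, 0, 1, [(0, [1], [3, 5]), (0, [0], [0, 2]), (1, [], [1, 5]), (4, [], [4])]),
  (0, 0, 1, [(0, [1], [3, 5]), (0, [0], [0, 2]), (1, [], [4, 5]), (4, [], [1])]),
  (0, 0, 1, [(0, [1], [3, 5]), (0, [0], [0, 4]), (1, [], [1, 5]), (4, [], [2])]),
  (0, 0, 1, [(0, [1], [3, 5]), (0, [0], [0, 4]), (1, [], [2, 5]), (4, [], [1])]),
  (0, 0, 1, [(0, [1], [3, 5]), (0, [0], [2, 4]), (1, [], [0, 5]), (4, [], [1])]),
  (0, 0, 1, [(0, [1], [3, 5]), (0, [0], [2, 4]), (1, [], [1, 5]), (4, [], [0])]),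
  (0, 0, 1, [(0, [1], [4, 5]), (0, [0], [0, 2]), (1, [], [1, 5]), (4, [], [3])]),
  (0, 0, 1, [(0, [1], [4, 5]), (0, [0], [0, 2]), (1, [], [3, 5]), (4, [], [1])]),
  (0, 0, 1, [(0, [1], [4, 5]), (0, [0], [1, 3]), (1, [], [0, 5]), (4, [], [2])]),
  (0, 0, 1, [(0, [1], [4, 5]), (0, [0], [1, 3]), (1, [], [2, 5]), (4, [], [0])])]

def w64_1 : List (List Wit) := [[(0, 0, 0, 0, 0), (1, 0, 0, 0, 0), (72, 0, 0, 0, 0), (73, 0, 0, 0, 0), (2, 0, 0, 0, 0), (3, 0, 0, 0, 0), (0, 0, 0, 0, 0), (1, 0, 0, 0, 0), (4, 0, 0, 0, 0), (5, 0, 0, 0, 0), (74, 0, 0, 0, 0), (75, 0, 0, 0, 0), (72, 0, 0, 0, 0), (73, 0, 0, 0, 0), (4, 0, 0, 0, 0), (5, 0, 0, 0, 0), (6, 0, 0, 0, 0), (7, 0, 0, 0, 0), (2, 0, 0, 0, 0), (3, 0, 0, 0, 0), (74, 0, 0, 0, 0), (75, 0, 0, 0, 0), (6, 0, 0, 0, 0), (7, 0, 0, 0, 0), (76, 0, 0, 0, 0), (77, 0, 0, 0, 0), (8, 0, 0, 0, 0),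 (9, 0, 0, 0, 0), (78, 0, 0, 0, 0), (79, 0, 0, 0, 0), (76, 0, 0, 0, 0), (77, 0, 0, 0, 0), (10, 0, 0, 0, 0), (11, 0, 0, 0, 0), (80, 0, 0, 0, 0), (81, 0, 0, 0, 0), (8, 0, 0, 0, 0), (9, 0, 0, 0, 0), (10, 0, 0, 0, 0), (11, 0, 0, 0, 0), (12, 0, 0, 0, 0), (13, 0, 0, 0, 0), (78, 0, 0, 0, 0), (79, 0, 0, 0, 0), (80, 0, 0, 0, 0), (81, 0, 0, 0, 0), (12, 0, 0, 0, 0), (13, 0, 0, 0, 0), (14, 0, 0, 0, 0), (15, 0, 0, 0, 0), (16, 0, 0, 0, 0), (17, 0, 0, 0, 0), (82, 0, 0, 0, 0), (83, 0, 0, 0, 0), (14, 0, 0, 0, 0), (15, 0, 0, 0, 0), (84, 0, 0, 0, 0), (85, 0, 0, 0, 0), (18, 0, 0, 0, 0), (19, 0, 0, 0, 0), (16, 0, 0, 0, 0), (17, 0, 0, 0, 0), (84, 0, 0, 0, 0), (85, 0, 0, 0, 0), (20, 0, 0, 0, 0), (21, 0, 0, 0, 0), (82, 0, 0, 0, 0), (83, 0, 0, 0, 0), (18, 0, 0, 0, 0), (19, 0, 0, 0, 0), (20, 0, 0, 0, 0), (21, 0, 0, 0, 0), (22, 0, 0, 0, 0), (23,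 0, 0, 0, 0), (86, 0, 0, 0, 0), (87, 0, 0, 0, 0), (88, 0, 0, 0, 0), (89, 0, 0, 0, 0), (22, 0, 0, 0, 0), (23, 0, 0, 0, 0), (24, 0, 0, 0, 0), (25, 0, 0, 0, 0), (26, 0, 0, 0, 0), (27, 0, 0, 0, 0), (86, 0, 0, 0, 0), (87, 0, 0, 0, 0), (24, 0, 0, 0, 0), (25, 0, 0, 0, 0), (90, 0, 0, 0, 0), (91, 0, 0, 0, 0), (88, 0, 0, 0, 0), (89, 0, 0, 0, 0), (26, 0, 0, 0, 0), (27, 0, 0, 0, 0), (90, 0, 0, 0, 0), (91, 0, 0, 0, 0), (28, 0, 0, 0, 0), (29, 0, 0, 0, 0), (92, 0, 0, 0, 0), (93, 0, 0, 0, 0), (30, 0, 0, 0, 0), (31, 0, 0, 0, 0), (28, 0, 0, 0, 0), (29, 0, 0, 0, 0), (32, 0, 0, 0, 0), (33, 0, 0, 0, 0), (94, 0, 0, 0, 0), (95, 0, 0, 0, 0), (92, 0, 0, 0, 0), (93, 0, 0, 0, 0), (32, 0, 0, 0, 0), (33, 0, 0, 0, 0), (34, 0, 0, 0, 0), (35, 0, 0, 0, 0), (30, 0, 0, 0, 0), (31, 0, 0, 0, 0), (94, 0, 0, 0, 0), (95, 0, 0, 0, 0), (34, 0, 0, 0, 0), (35,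 0, 0, 0, 0)],
  [(36, 0, 0, 0, 0), (37, 0, 0, 0, 0), (96, 0, 0, 0, 0), (97, 0, 0, 0, 0), (38, 0, 0, 0, 0), (39, 0, 0, 0, 0), (36, 0, 0, 0, 0), (37, 0, 0, 0, 0), (40, 0, 0, 0, 0), (41, 0, 0, 0, 0), (98, 0, 0, 0, 0), (99, 0, 0, 0, 0), (96, 0, 0, 0, 0), (97, 0, 0, 0, 0), (40, 0, 0, 0, 0), (41, 0, 0, 0, 0), (42, 0, 0, 0, 0), (43, 0, 0, 0, 0), (38, 0, 0, 0, 0), (39, 0, 0, 0, 0), (98, 0, 0, 0, 0), (99, 0, 0, 0, 0), (42, 0, 0, 0, 0), (43, 0, 0, 0, 0), (100, 0, 0, 0, 0), (101, 0, 0, 0, 0), (44, 0, 0, 0, 0), (45, 0, 0, 0, 0), (102, 0, 0, 0, 0), (103, 0, 0, 0, 0), (100, 0, 0, 0, 0), (101, 0, 0, 0, 0), (46, 0, 0, 0, 0), (47, 0, 0, 0, 0), (104, 0, 0, 0, 0), (105, 0, 0, 0, 0), (44, 0, 0, 0, 0), (45, 0, 0, 0, 0), (46, 0, 0, 0, 0), (47, 0, 0, 0, 0), (48, 0, 0, 0, 0), (49, 0, 0, 0, 0), (102, 0, 0, 0, 0), (103, 0, 0, 0, 0), (104, 0,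 0, 0, 0), (105, 0, 0, 0, 0), (48, 0, 0, 0, 0), (49, 0, 0, 0, 0), (50, 0, 0, 0, 0), (51, 0, 0, 0, 0), (52, 0, 0, 0, 0), (53, 0, 0, 0, 0), (106, 0, 0, 0, 0), (107, 0, 0, 0, 0), (50, 0, 0, 0, 0), (51, 0, 0, 0, 0), (108, 0, 0, 0, 0), (109, 0, 0, 0, 0), (54, 0, 0, 0, 0), (55, 0, 0, 0, 0), (52, 0, 0, 0, 0), (53, 0, 0, 0, 0), (108, 0, 0, 0, 0), (109, 0, 0, 0, 0), (56, 0, 0, 0, 0), (57, 0, 0, 0, 0), (106, 0, 0, 0, 0), (107, 0, 0, 0, 0), (54, 0, 0, 0, 0), (55, 0, 0, 0, 0), (56, 0, 0, 0, 0), (57, 0, 0, 0, 0), (58, 0, 0, 0, 0), (59, 0, 0, 0, 0), (110, 0, 0, 0, 0), (111, 0, 0, 0, 0), (112, 0, 0, 0, 0), (113, 0, 0, 0, 0), (58, 0, 0, 0, 0), (59, 0, 0, 0, 0), (60, 0, 0, 0, 0), (61, 0, 0, 0, 0), (62, 0, 0, 0, 0), (63, 0, 0, 0, 0), (110, 0, 0, 0, 0), (111, 0, 0, 0, 0), (60, 0, 0, 0, 0), (61, 0, 0, 0, 0), (114, 0, 0, 0, 0), (115, 0, 0,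 0, 0), (112, 0, 0, 0, 0), (113, 0, 0, 0, 0), (62, 0, 0, 0, 0), (63, 0, 0, 0, 0), (114, 0, 0, 0, 0), (115, 0, 0, 0, 0), (64, 0, 0, 0, 0), (65, 0, 0, 0, 0), (116, 0, 0, 0, 0), (117, 0, 0, 0, 0), (66, 0, 0, 0, 0), (67, 0, 0, 0, 0), (64, 0, 0, 0, 0), (65, 0, 0, 0, 0), (68, 0, 0, 0, 0), (69, 0, 0, 0, 0), (118, 0, 0, 0, 0), (119, 0, 0, 0, 0), (116, 0, 0, 0, 0), (117, 0, 0, 0, 0), (68, 0, 0, 0, 0), (69, 0, 0, 0, 0), (70, 0, 0, 0, 0), (71, 0, 0, 0, 0), (66, 0, 0, 0, 0), (67, 0, 0, 0, 0), (118, 0, 0, 0, 0), (119, 0, 0, 0, 0), (70, 0, 0, 0, 0), (71, 0, 0, 0, 0)]]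

def m64_2 : Base := (0, 1, [(0, [0], [0, 5]), (0, [1], [1, 2]), (1, [], [3, 4]), (4, [], [5])])

def l64_2 : Cov := [(192, 0, 1, [(0, [0], [0, 5]), (0, [1], [1, 2]), (1, [], [3, 4]), (4, [], [5])]),
  (-192, 0, 1, [(0, [0], [0, 5]), (0, [1], [1, 4]), (1, [], [2, 3]), (4, [], [5])]),
  (-192, 0, 1, [(0, [0], [0, 5]), (0, [1], [2, 3]), (1, [], [1, 4]), (4, [], [5])]),
  (192, 0, 1, [(0, [0], [0, 5]), (0, [1], [3, 4]), (1, [], [1, 2]), (4, [], [5])]),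
  (-192, 0, 1, [(0, [0], [2, 5]), (0, [1], [0, 1]), (1, [], [3, 4]), (4, [], [5])]),
  (192, 0, 1, [(0, [0], [2, 5]), (0, [1], [0, 3]), (1, [], [1, 4]), (4, [], [5])]),
  (192, 0, 1, [(0, [0], [2, 5]), (0, [1], [1, 4]), (1, [], [0, 3]), (4, [], [5])]),
  (-192, 0, 1, [(0, [0], [2, 5]), (0, [1], [3, 4]), (1, [], [0, 1]), (4, [], [5])]),
  (192, 0, 1, [(0, [0], [4, 5]), (0, [1], [0, 1]), (1, [], [2, 3]), (4, [], [5])]),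
  (-192, 0, 1, [(0, [0], [4, 5]), (0, [1], [0, 3]), (1, [], [1, 2]), (4, [], [5])]),
  (-192, 0, 1, [(0, [0], [4, 5]), (0, [1], [1, 2]), (1, [], [0, 3]), (4, [], [5])]),
  (192, 0, 1, [(0, [0], [4, 5]), (0, [1], [2, 3]), (1, [], [0, 1]), (4, [], [5])]),
  (-192, 0, 1, [(0, [1], [0, 5]), (0, [0], [1, 2]), (1, [], [3, 4]), (4, [], [5])]),
  (192, 0, 1, [(0, [1], [0, 5]), (0, [0], [1, 4]), (1, [], [2, 3]), (4, [], [5])]),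
  (192, 0, 1, [(0, [1], [0, 5]), (0, [0], [2, 3]), (1, [], [1, 4]), (4, [], [5])]),
  (-192, 0, 1, [(0, [1], [0, 5]), (0, [0], [3, 4]), (1, [], [1, 2]), (4, [], [5])]),
  (192, 0, 1, [(0, [1], [2, 5]), (0, [0], [0, 1]), (1, [], [3, 4]), (4, [], [5])]),
  (-192, 0, 1, [(0, [1], [2, 5]), (0, [0], [0, 3]), (1, [], [1, 4]), (4, [], [5])]),
  (-192, 0, 1, [(0, [1], [2, 5]), (0, [0], [1, 4]), (1, [], [0, 3]), (4, [], [5])]),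
  (192, 0, 1, [(0, [1], [2, 5]), (0, [0], [3, 4]), (1, [], [0, 1]), (4, [], [5])]),
  (-192, 0, 1, [(0, [1], [4, 5]), (0, [0], [0, 1]), (1, [], [2, 3]), (4, [], [5])]),
  (192, 0, 1, [(0, [1], [4, 5]), (0, [0], [0, 3]), (1, [], [1, 2]), (4, [], [5])]),
  (192, 0, 1, [(0, [1], [4, 5]), (0, [0], [1, 2]), (1, [], [0, 3]), (4, [], [5])]),
  (-192, 0, 1, [(0, [1], [4, 5]), (0, [0], [2, 3]), (1, [], [0, 1]), (4, [], [5])])]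

def z64_2 : Cov := [(0, 0, 1, [(0, [0], [0, 5]), (0, [1], [1, 3]), (1, [], [2, 4]), (4, [], [5])]),
  (0, 0, 1, [(0, [0], [0, 5]), (0, [1], [2, 4]), (1, [], [1, 3]), (4, [], [5])]),
  (0, 0, 1, [(0, [0], [1, 5]), (0, [1], [0, 2]), (1, [], [3, 4]), (4, [], [5])]),
  (0, 0, 1, [(0, [0], [1, 5]), (0, [1], [0, 3]), (1, [], [2, 4]), (4, [], [5])]),
  (0, 0, 1, [(0, [0], [1, 5]), (0, [1], [0, 4]), (1, [], [2, 3]), (4, [], [5])]),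
  (0, 0, 1, [(0, [0], [1, 5]), (0, [1], [2, 3]), (1, [], [0, 4]), (4, [], [5])]),
  (0, 0, 1, [(0, [0], [1, 5]), (0, [1], [2, 4]), (1, [], [0, 3]), (4, [], [5])]),
  (0, 0, 1, [(0, [0], [1, 5]), (0, [1], [3, 4]), (1, [], [0, 2]), (4, [], [5])]),
  (0, 0, 1, [(0, [0], [2, 5]), (0, [1], [0, 4]), (1, [], [1, 3]), (4, [], [5])]),
  (0, 0, 1, [(0, [0], [2, 5]), (0, [1], [1, 3]), (1, [], [0, 4]), (4, [], [5])]),
  (0, 0, 1, [(0, [0], [3, 5]), (0, [1], [0, 1]), (1, [], [2, 4]), (4, [], [5])]),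
  (0, 0, 1, [(0, [0], [3, 5]), (0, [1], [0, 2]), (1, [], [1, 4]), (4, [], [5])]),
  (0, 0, 1, [(0, [0], [3, 5]), (0, [1], [0, 4]), (1, [], [1, 2]), (4, [], [5])]),
  (0, 0, 1, [(0, [0], [3, 5]), (0, [1], [1, 2]), (1, [], [0, 4]), (4, [], [5])]),
  (0, 0, 1, [(0, [0], [3, 5]), (0, [1], [1, 4]), (1, [], [0, 2]), (4, [], [5])]),
  (0, 0, 1, [(0, [0], [3, 5]), (0, [1], [2, 4]), (1, [], [0, 1]), (4, [], [5])]),
  (0, 0, 1, [(0, [0], [4, 5]), (0, [1], [0, 2]), (1, [], [1, 3]), (4, [], [5])]),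
  (0, 0, 1, [(0, [0], [4, 5]), (0, [1], [1, 3]), (1, [], [0, 2]), (4, [], [5])]),
  (0, 0, 1, [(0, [1], [0, 5]), (0, [0], [1, 3]), (1, [], [2, 4]), (4, [], [5])]),
  (0, 0, 1, [(0, [1], [0, 5]), (0, [0], [2, 4]), (1, [], [1, 3]), (4, [], [5])]),
  (0, 0, 1, [(0, [1], [1, 5]), (0, [0], [0, 2]), (1, [], [3, 4]), (4, [], [5])]),
  (0, 0, 1, [(0, [1], [1, 5]), (0, [0], [0, 3]), (1, [], [2, 4]), (4, [], [5])]),
  (0, 0, 1, [(0, [1], [1, 5]), (0, [0], [0, 4]), (1, [], [2, 3]), (4, [], [5])]),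
  (0, 0, 1, [(0, [1], [1, 5]), (0, [0], [2, 3]), (1, [], [0, 4]), (4, [], [5])]),
  (0, 0, 1, [(0, [1], [1, 5]), (0, [0], [2, 4]), (1, [], [0, 3]), (4, [], [5])]),
  (0, 0, 1, [(0, [1], [1, 5]), (0, [0], [3, 4]), (1, [], [0, 2]), (4, [], [5])]),
  (0, 0, 1, [(0, [1], [2, 5]), (0, [0], [0, 4]), (1, [], [1, 3]), (4, [], [5])]),
  (0, 0, 1, [(0, [1], [2, 5]), (0, [0], [1, 3]), (1, [], [0, 4]), (4, [], [5])]),
  (0, 0, 1, [(0, [1], [3, 5]), (0, [0], [0, 1]), (1, [], [2, 4]), (4, [], [5])]),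
  (0, 0, 1, [(0, [1], [3, 5]), (0, [0], [0, 2]), (1, [], [1, 4]), (4, [], [5])]),
  (0, 0, 1, [(0, [1], [3, 5]), (0, [0], [0, 4]), (1, [], [1, 2]), (4, [], [5])]),
  (0, 0, 1, [(0, [1], [3, 5]), (0, [0], [1, 2]), (1, [], [0, 4]), (4, [], [5])]),
  (0, 0, 1, [(0, [1], [3, 5]), (0, [0], [1, 4]), (1, [], [0, 2]), (4, [], [5])]),
  (0, 0, 1, [(0, [1], [3, 5]), (0, [0], [2, 4]), (1, [], [0, 1]), (4, [], [5])]),
  (0, 0, 1, [(0, [1], [4, 5]), (0, [0], [0, 2]), (1, [], [1, 3]), (4, [], [5])]),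
  (0, 0, 1, [(0, [1], [4, 5]), (0, [0], [1, 3]), (1, [], [0, 2]), (4, [], [5])])]

def w64_2 : List (List Wit) := [[(0, 0, 0, 0, 0), (0, 0, 0, 0, 0), (24, 0, 0, 0, 0), (24, 0, 0, 0, 0), (1, 0, 0, 0, 0), (1, 0, 0, 0, 0), (0, 0, 0, 0, 0), (0, 0, 0, 0, 0), (2, 0, 0, 0, 0), (2, 0, 0, 0, 0), (25, 0, 0, 0, 0), (25, 0, 0, 0, 0), (24, 0, 0, 0, 0), (24, 0, 0, 0, 0), (2, 0, 0, 0, 0), (2, 0, 0, 0, 0), (3, 0, 0, 0, 0), (3, 0, 0, 0, 0), (1, 0, 0, 0, 0), (1, 0, 0, 0, 0), (25, 0, 0, 0, 0), (25, 0, 0, 0, 0), (3, 0, 0, 0, 0), (3, 0, 0, 0, 0), (26, 0, 0, 0, 0), (26, 0, 0, 0, 0), (27, 0, 0, 0, 0), (27, 0, 0, 0, 0), (28, 0, 0, 0, 0), (28, 0, 0, 0, 0), (26, 0, 0, 0, 0), (26, 0, 0, 0, 0), (29, 0, 0, 0, 0), (29, 0, 0, 0, 0), (30, 0, 0, 0, 0), (30, 0, 0, 0, 0), (27, 0, 0, 0, 0), (27, 0, 0, 0, 0), (29, 0, 0, 0, 0), (29, 0, 0, 0, 0), (31, 0,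 0, 0, 0), (31, 0, 0, 0, 0), (28, 0, 0, 0, 0), (28, 0, 0, 0, 0), (30, 0, 0, 0, 0), (30, 0, 0, 0, 0), (31, 0, 0, 0, 0), (31, 0, 0, 0, 0), (4, 0, 0, 0, 0), (4, 0, 0, 0, 0), (5, 0, 0, 0, 0), (5, 0, 0, 0, 0), (32, 0, 0, 0, 0), (32, 0, 0, 0, 0), (4, 0, 0, 0, 0), (4, 0, 0, 0, 0), (33, 0, 0, 0, 0), (33, 0, 0, 0, 0), (6, 0, 0, 0, 0), (6, 0, 0, 0, 0), (5, 0, 0, 0, 0), (5, 0, 0, 0, 0), (33, 0, 0, 0, 0), (33, 0, 0, 0, 0), (7, 0, 0, 0, 0), (7, 0, 0, 0, 0), (32, 0, 0, 0, 0), (32, 0, 0, 0, 0), (6, 0, 0, 0, 0), (6, 0, 0, 0, 0), (7, 0, 0, 0, 0), (7, 0, 0, 0, 0), (34, 0, 0, 0, 0), (34, 0, 0, 0, 0), (35, 0, 0, 0, 0), (35, 0, 0, 0, 0), (36, 0, 0, 0, 0), (36, 0, 0, 0, 0), (34, 0, 0, 0, 0), (34, 0, 0, 0, 0), (37, 0, 0, 0, 0), (37, 0, 0, 0, 0), (38, 0, 0, 0, 0), (38, 0, 0, 0, 0), (35, 0, 0, 0, 0), (35, 0, 0, 0, 0), (37, 0, 0, 0, 0), (37, 0,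 0, 0, 0), (39, 0, 0, 0, 0), (39, 0, 0, 0, 0), (36, 0, 0, 0, 0), (36, 0, 0, 0, 0), (38, 0, 0, 0, 0), (38, 0, 0, 0, 0), (39, 0, 0, 0, 0), (39, 0, 0, 0, 0), (8, 0, 0, 0, 0), (8, 0, 0, 0, 0), (40, 0, 0, 0, 0), (40, 0, 0, 0, 0), (9, 0, 0, 0, 0), (9, 0, 0, 0, 0), (8, 0, 0, 0, 0), (8, 0, 0, 0, 0), (10, 0, 0, 0, 0), (10, 0, 0, 0, 0), (41, 0, 0, 0, 0), (41, 0, 0, 0, 0), (40, 0, 0, 0, 0), (40, 0, 0, 0, 0), (10, 0, 0, 0, 0), (10, 0, 0, 0, 0), (11, 0, 0, 0, 0), (11, 0, 0, 0, 0), (9, 0, 0, 0, 0), (9, 0, 0, 0, 0), (41, 0, 0, 0, 0), (41, 0, 0, 0, 0), (11, 0, 0, 0, 0), (11, 0, 0, 0, 0)],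
  [(12, 0, 0, 0, 0), (12, 0, 0, 0, 0), (42, 0, 0, 0, 0), (42, 0, 0, 0, 0), (13, 0, 0, 0, 0), (13, 0, 0, 0, 0), (12, 0, 0, 0, 0), (12, 0, 0, 0, 0), (14, 0, 0, 0, 0), (14, 0, 0, 0, 0), (43, 0, 0, 0, 0), (43, 0, 0, 0, 0), (42, 0, 0, 0, 0), (42, 0, 0, 0, 0), (14, 0, 0, 0, 0), (14, 0, 0, 0, 0), (15, 0, 0, 0, 0), (15, 0, 0, 0, 0), (13, 0, 0, 0, 0), (13, 0, 0, 0, 0), (43, 0, 0, 0, 0), (43, 0, 0, 0, 0), (15, 0, 0, 0, 0), (15, 0, 0, 0, 0), (44, 0, 0, 0, 0), (44, 0, 0, 0, 0), (45, 0, 0, 0, 0), (45, 0, 0, 0, 0), (46, 0, 0, 0, 0), (46, 0, 0, 0, 0), (44, 0, 0, 0, 0), (44, 0, 0, 0, 0), (47, 0, 0, 0, 0), (47, 0, 0, 0, 0), (48, 0, 0, 0, 0), (48, 0, 0, 0, 0), (45, 0, 0, 0, 0), (45, 0, 0, 0, 0), (47, 0, 0, 0, 0), (47, 0, 0, 0, 0), (49, 0, 0, 0, 0), (49, 0, 0, 0, 0), (46, 0, 0, 0, 0), (46, 0, 0, 0, 0), (48, 0, 0, 0, 0), (48, 0, 0, 0, 0),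 (49, 0, 0, 0, 0), (49, 0, 0, 0, 0), (16, 0, 0, 0, 0), (16, 0, 0, 0, 0), (17, 0, 0, 0, 0), (17, 0, 0, 0, 0), (50, 0, 0, 0, 0), (50, 0, 0, 0, 0), (16, 0, 0, 0, 0), (16, 0, 0, 0, 0), (51, 0, 0, 0, 0), (51, 0, 0, 0, 0), (18, 0, 0, 0, 0), (18, 0, 0, 0, 0), (17, 0, 0, 0, 0), (17, 0, 0, 0, 0), (51, 0, 0, 0, 0), (51, 0, 0, 0, 0), (19, 0, 0, 0, 0), (19, 0, 0, 0, 0), (50, 0, 0, 0, 0), (50, 0, 0, 0, 0), (18, 0, 0, 0, 0), (18, 0, 0, 0, 0), (19, 0, 0, 0, 0), (19, 0, 0, 0, 0), (52, 0, 0, 0, 0), (52, 0, 0, 0, 0), (53, 0, 0, 0, 0), (53, 0, 0, 0, 0), (54, 0, 0, 0, 0), (54, 0, 0, 0, 0), (52, 0, 0, 0, 0), (52, 0, 0, 0, 0), (55, 0, 0, 0, 0), (55, 0, 0, 0, 0), (56, 0, 0, 0, 0), (56, 0, 0, 0, 0), (53, 0, 0, 0, 0), (53, 0, 0, 0, 0), (55, 0, 0, 0, 0), (55, 0, 0, 0, 0), (57, 0, 0, 0, 0), (57, 0, 0, 0, 0), (54, 0, 0, 0, 0), (54, 0, 0, 0, 0),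 (56, 0, 0, 0, 0), (56, 0, 0, 0, 0), (57, 0, 0, 0, 0), (57, 0, 0, 0, 0), (20, 0, 0, 0, 0), (20, 0, 0, 0, 0), (58, 0, 0, 0, 0), (58, 0, 0, 0, 0), (21, 0, 0, 0, 0), (21, 0, 0, 0, 0), (20, 0, 0, 0, 0), (20, 0, 0, 0, 0), (22, 0, 0, 0, 0), (22, 0, 0, 0, 0), (59, 0, 0, 0, 0), (59, 0, 0, 0, 0), (58, 0, 0, 0, 0), (58, 0, 0, 0, 0), (22, 0, 0, 0, 0), (22, 0, 0, 0, 0), (23, 0, 0, 0, 0), (23, 0, 0, 0, 0), (21, 0, 0, 0, 0), (21, 0, 0, 0, 0), (59, 0, 0, 0, 0), (59, 0, 0, 0, 0), (23, 0, 0, 0, 0), (23, 0, 0, 0, 0)]]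

def m64_3 : Base := (0, 1, [(0, [0], [0, 5]), (0, [1], [1, 2]), (1, [], [4, 5]), (4, [], [3])])

def l64_3 : Cov := [(128, 0, 1, [(0, [0], [0, 5]), (0, [1], [1, 2]), (1, [], [4, 5]), (4, [], [3])]),
  (64, 0, 1, [(0, [0], [0, 5]), (0, [1], [1, 2]), (1, [], [3, 5]), (4, [], [4])]),
  (-64, 0, 1, [(0, [0], [0, 5]), (0, [1], [1, 4]), (1, [], [3, 5]), (4, [], [2])]),
  (-128, 0, 1, [(0, [0], [0, 5]), (0, [1], [1, 4]), (1, [], [2, 5]), (4, [], [3])]),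
  (-128, 0, 1, [(0, [0], [0, 5]), (0, [1], [2, 3]), (1, [], [4, 5]), (4, [], [1])]),
  (-64, 0, 1, [(0, [0], [0, 5]), (0, [1], [2, 3]), (1, [], [1, 5]), (4, [], [4])]),
  (128, 0, 1, [(0, [0], [0, 5]), (0, [1], [3, 4]), (1, [], [2, 5]), (4, [], [1])]),
  (64, 0, 1, [(0, [0], [0, 5]), (0, [1], [3, 4]), (1, [], [1, 5]), (4, [], [2])]),
  (64, 0, 1, [(0, [0], [1, 5]), (0, [1], [0, 3]), (1, [], [4, 5]), (4, [], [2])]),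
  (-64, 0, 1, [(0, [0], [1, 5]), (0, [1], [0, 3]), (1, [], [2, 5]), (4, [], [4])]),
  (-64, 0, 1, [(0, [0], [1, 5]), (0, [1], [2, 3]), (1, [], [4, 5]), (4, [], [0])]),
  (64, 0, 1, [(0, [0], [1, 5]), (0, [1], [2, 3]), (1, [], [0, 5]), (4, [], [4])]),
  (64, 0, 1, [(0, [0], [1, 5]), (0, [1], [3, 4]), (1, [], [2, 5]), (4, [], [0])]),
  (-64, 0, 1, [(0, [0], [1, 5]), (0, [1], [3, 4]), (1, [], [0, 5]), (4, [], [2])]),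
  (-128, 0, 1, [(0, [0], [2, 5]), (0, [1], [0, 1]), (1, [], [4, 5]), (4, [], [3])]),
  (-64, 0, 1, [(0, [0], [2, 5]), (0, [1], [0, 1]), (1, [], [3, 5]), (4, [], [4])]),
  (128, 0, 1, [(0, [0], [2, 5]), (0, [1], [0, 3]), (1, [], [4, 5]), (4, [], [1])]),
  (64, 0, 1, [(0, [0], [2, 5]), (0, [1], [0, 3]), (1, [], [1, 5]), (4, [], [4])]),
  (64, 0, 1, [(0, [0], [2, 5]), (0, [1], [1, 4]), (1, [], [3, 5]), (4, [], [0])]),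
  (128, 0, 1, [(0, [0], [2, 5]), (0, [1], [1, 4]), (1, [], [0, 5]), (4, [], [3])]),
  (-64, 0, 1, [(0, [0], [2, 5]), (0, [1], [3, 4]), (1, [], [1, 5]), (4, [], [0])]),
  (-128, 0, 1, [(0, [0], [2, 5]), (0, [1], [3, 4]), (1, [], [0, 5]), (4, [], [1])]),
  (-64, 0, 1, [(0, [0], [3, 5]), (0, [1], [0, 1]), (1, [], [4, 5]), (4, [], [2])]),
  (64, 0, 1, [(0, [0], [3, 5]), (0, [1], [0, 1]), (1, [], [2, 5]), (4, [], [4])]),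
  (64, 0, 1, [(0, [0], [3, 5]), (0, [1], [1, 2]), (1, [], [4, 5]), (4, [], [0])]),
  (-64, 0, 1, [(0, [0], [3, 5]), (0, [1], [1, 2]), (1, [], [0, 5]), (4, [], [4])]),
  (-64, 0, 1, [(0, [0], [3, 5]), (0, [1], [1, 4]), (1, [], [2, 5]), (4, [], [0])]),
  (64, 0, 1, [(0, [0], [3, 5]), (0, [1], [1, 4]), (1, [], [0, 5]), (4, [], [2])]),
  (64, 0, 1, [(0, [0], [4, 5]), (0, [1], [0, 1]), (1, [], [3, 5]), (4, [], [2])]),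
  (128, 0, 1, [(0, [0], [4, 5]), (0, [1], [0, 1]), (1, [], [2, 5]), (4, [], [3])]),
  (-128, 0, 1, [(0, [0], [4, 5]), (0, [1], [0, 3]), (1, [], [2, 5]), (4, [], [1])]),
  (-64, 0, 1, [(0, [0], [4, 5]), (0, [1], [0, 3]), (1, [], [1, 5]), (4, [], [2])]),
  (-64, 0, 1, [(0, [0], [4, 5]), (0, [1], [1, 2]), (1, [], [3, 5]), (4, [], [0])]),
  (-128, 0, 1, [(0, [0], [4, 5]), (0, [1], [1, 2]), (1, [], [0, 5]), (4, [], [3])]),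
  (64, 0, 1, [(0, [0], [4, 5]), (0, [1], [2, 3]), (1, [], [1, 5]), (4, [], [0])]),
  (128, 0, 1, [(0, [0], [4, 5]), (0, [1], [2, 3]), (1, [], [0, 5]), (4, [], [1])]),
  (-128, 0, 1, [(0, [1], [0, 5]), (0, [0], [1, 2]), (1, [], [4, 5]), (4, [], [3])]),
  (-64, 0, 1, [(0, [1], [0, 5]), (0, [0], [1, 2]), (1, [], [3, 5]), (4, [], [4])]),
  (64, 0, 1, [(0, [1], [0, 5]), (0, [0], [1, 4]), (1, [], [3, 5]), (4, [], [2])]),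
  (128, 0, 1, [(0, [1], [0, 5]), (0, [0], [1, 4]), (1, [], [2, 5]), (4, [], [3])]),
  (128, 0, 1, [(0, [1], [0, 5]), (0, [0], [2, 3]), (1, [], [4, 5]), (4, [], [1])]),
  (64, 0, 1, [(0, [1], [0, 5]), (0, [0], [2, 3]), (1, [], [1, 5]), (4, [], [4])]),
  (-128, 0, 1, [(0, [1], [0, 5]), (0, [0], [3, 4]), (1, [], [2, 5]), (4, [], [1])]),
  (-64, 0, 1, [(0, [1], [0, 5]), (0, [0], [3, 4]), (1, [], [1, 5]), (4, [], [2])]),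
  (-64, 0, 1, [(0, [1], [1, 5]), (0, [0], [0, 3]), (1, [], [4, 5]), (4, [], [2])]),
  (64, 0, 1, [(0, [1], [1, 5]), (0, [0], [0, 3]), (1, [], [2, 5]), (4, [], [4])]),
  (64, 0, 1, [(0, [1], [1, 5]), (0, [0], [2, 3]), (1, [], [4, 5]), (4, [], [0])]),
  (-64, 0, 1, [(0, [1], [1, 5]), (0, [0], [2, 3]), (1, [], [0, 5]), (4, [], [4])]),
  (-64, 0, 1, [(0, [1], [1, 5]), (0, [0], [3, 4]), (1, [], [2, 5]), (4, [], [0])]),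
  (64, 0, 1, [(0, [1], [1, 5]), (0, [0], [3, 4]), (1, [], [0, 5]), (4, [], [2])]),
  (128, 0, 1, [(0, [1], [2, 5]), (0, [0], [0, 1]), (1, [], [4, 5]), (4, [], [3])]),
  (64, 0, 1, [(0, [1], [2, 5]), (0, [0], [0, 1]), (1, [], [3, 5]), (4, [], [4])]),
  (-128, 0, 1, [(0, [1], [2, 5]), (0, [0], [0, 3]), (1, [], [4, 5]), (4, [], [1])]),
  (-64, 0, 1, [(0, [1], [2, 5]), (0, [0], [0, 3]), (1, [], [1, 5]), (4, [], [4])]),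
  (-64, 0, 1, [(0, [1], [2, 5]), (0, [0], [1, 4]), (1, [], [3, 5]), (4, [], [0])]),
  (-128, 0, 1, [(0, [1], [2, 5]), (0, [0], [1, 4]), (1, [], [0, 5]), (4, [], [3])]),
  (64, 0, 1, [(0, [1], [2, 5]), (0, [0], [3, 4]), (1, [], [1, 5]), (4, [], [0])]),
  (128, 0, 1, [(0, [1], [2, 5]), (0, [0], [3, 4]), (1, [], [0, 5]), (4, [], [1])]),
  (64, 0, 1, [(0, [1], [3, 5]), (0, [0], [0, 1]), (1, [], [4, 5]), (4, [], [2])]),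
  (-64, 0, 1, [(0, [1], [3, 5]), (0, [0], [0, 1]), (1, [], [2, 5]), (4, [], [4])]),
  (-64, 0, 1, [(0, [1], [3, 5]), (0, [0], [1, 2]), (1, [], [4, 5]), (4, [], [0])]),
  (64, 0, 1, [(0, [1], [3, 5]), (0, [0], [1, 2]), (1, [], [0, 5]), (4, [], [4])]),
  (64, 0, 1, [(0, [1], [3, 5]), (0, [0], [1, 4]), (1, [], [2, 5]), (4, [], [0])]),
  (-64, 0, 1, [(0, [1], [3, 5]), (0, [0], [1, 4]), (1, [], [0, 5]), (4, [], [2])]),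
  (-64, 0, 1, [(0, [1], [4, 5]), (0, [0], [0, 1]), (1, [], [3, 5]), (4, [], [2])]),
  (-128, 0, 1, [(0, [1], [4, 5]), (0, [0], [0, 1]), (1, [], [2, 5]), (4, [], [3])]),
  (128, 0, 1, [(0, [1], [4, 5]), (0, [0], [0, 3]), (1, [], [2, 5]), (4, [], [1])]),
  (64, 0, 1, [(0, [1], [4, 5]), (0, [0], [0, 3]), (1, [], [1, 5]), (4, [], [2])]),
  (64, 0, 1, [(0, [1], [4, 5]), (0, [0], [1, 2]), (1, [], [3, 5]), (4, [], [0])]),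
  (128, 0, 1, [(0, [1], [4, 5]), (0, [0], [1, 2]), (1, [], [0, 5]), (4, [], [3])]),
  (-64, 0, 1, [(0, [1], [4, 5]), (0, [0], [2, 3]), (1, [], [1, 5]), (4, [], [0])]),
  (-128, 0, 1, [(0, [1], [4, 5]), (0, [0], [2, 3]), (1, [], [0, 5]), (4, [], [1])])]

def z64_3 : Cov := [(0, 0, 1, [(0, [0], [0, 5]), (0, [1], [1, 3]), (1, [], [4, 5]), (4, [], [2])]),
  (0, 0, 1, [(0, [0], [0, 5]), (0, [1], [1, 3]), (1, [], [2, 5]), (4, [], [4])]),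
  (0, 0, 1, [(0, [0], [0, 5]), (0, [1], [2, 4]), (1, [], [3, 5]), (4, [], [1])]),
  (0, 0, 1, [(0, [0], [0, 5]), (0, [1], [2, 4]), (1, [], [1, 5]), (4, [], [3])]),
  (0, 0, 1, [(0, [0], [1, 5]), (0, [1], [0, 2]), (1, [], [4, 5]), (4, [], [3])]),
  (0, 0, 1, [(0, [0], [1, 5]), (0, [1], [0, 2]), (1, [], [3, 5]), (4, [], [4])]),
  (0, 0, 1, [(0, [0], [1, 5]), (0, [1], [0, 4]), (1, [], [3, 5]), (4, [], [2])]),
  (0, 0, 1, [(0, [0], [1, 5]), (0, [1], [0, 4]), (1, [], [2, 5]), (4, [], [3])]),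
  (0, 0, 1, [(0, [0], [1, 5]), (0, [1], [2, 4]), (1, [], [3, 5]), (4, [], [0])]),
  (0, 0, 1, [(0, [0], [1, 5]), (0, [1], [2, 4]), (1, [], [0, 5]), (4, [], [3])]),
  (0, 0, 1, [(0, [0], [2, 5]), (0, [1], [0, 4]), (1, [], [3, 5]), (4, [], [1])]),
  (0, 0, 1, [(0, [0], [2, 5]), (0, [1], [0, 4]), (1, [], [1, 5]), (4, [], [3])]),
  (0, 0, 1, [(0, [0], [2, 5]), (0, [1], [1, 3]), (1, [], [4, 5]), (4, [], [0])]),
  (0, 0, 1, [(0, [0], [2, 5]), (0, [1], [1, 3]), (1, [], [0, 5]), (4, [], [4])]),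
  (0, 0, 1, [(0, [0], [3, 5]), (0, [1], [0, 2]), (1, [], [4, 5]), (4, [], [1])]),
  (0, 0, 1, [(0, [0], [3, 5]), (0, [1], [0, 2]), (1, [], [1, 5]), (4, [], [4])]),
  (0, 0, 1, [(0, [0], [3, 5]), (0, [1], [0, 4]), (1, [], [2, 5]), (4, [], [1])]),
  (0, 0, 1, [(0, [0], [3, 5]), (0, [1], [0, 4]), (1, [], [1, 5]), (4, [], [2])]),
  (0, 0, 1, [(0, [0], [3, 5]), (0, [1], [2, 4]), (1, [], [1, 5]), (4, [], [0])]),
  (0, 0, 1, [(0, [0], [3, 5]), (0, [1], [2, 4]), (1, [], [0, 5]), (4, [], [1])]),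
  (0, 0, 1, [(0, [0], [4, 5]), (0, [1], [0, 2]), (1, [], [3, 5]), (4, [], [1])]),
  (0, 0, 1, [(0, [0], [4, 5]), (0, [1], [0, 2]), (1, [], [1, 5]), (4, [], [3])]),
  (0, 0, 1, [(0, [0], [4, 5]), (0, [1], [1, 3]), (1, [], [2, 5]), (4, [], [0])]),
  (0, 0, 1, [(0, [0], [4, 5]), (0, [1], [1, 3]), (1, [], [0, 5]), (4, [], [2])]),
  (0, 0, 1, [(0, [1], [0, 5]), (0, [0], [1, 3]), (1, [], [4, 5]), (4, [], [2])]),
  (0, 0, 1, [(0, [1], [0, 5]), (0, [0], [1, 3]), (1, [], [2, 5]), (4, [], [4])]),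
  (0, 0, 1, [(0, [1], [0, 5]), (0, [0], [2, 4]), (1, [], [3, 5]), (4, [], [1])]),
  (0, 0, 1, [(0, [1], [0, 5]), (0, [0], [2, 4]), (1, [], [1, 5]), (4, [], [3])]),
  (0, 0, 1, [(0, [1], [1, 5]), (0, [0], [0, 2]), (1, [], [4, 5]), (4, [], [3])]),
  (0, 0, 1, [(0, [1], [1, 5]), (0, [0], [0, 2]), (1, [], [3, 5]), (4, [], [4])]),
  (0, 0, 1, [(0, [1], [1, 5]), (0, [0], [0, 4]), (1, [], [3, 5]), (4, [], [2])]),
  (0, 0, 1, [(0, [1], [1, 5]), (0, [0], [0, 4]), (1, [], [2, 5]), (4, [], [3])]),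
  (0, 0, 1, [(0, [1], [1, 5]), (0, [0], [2, 4]), (1, [], [3, 5]), (4, [], [0])]),
  (0, 0, 1, [(0, [1], [1, 5]), (0, [0], [2, 4]), (1, [], [0, 5]), (4, [], [3])]),
  (0, 0, 1, [(0, [1], [2, 5]), (0, [0], [0, 4]), (1, [], [3, 5]), (4, [], [1])]),
  (0, 0, 1, [(0, [1], [2, 5]), (0, [0], [0, 4]), (1, [], [1, 5]), (4, [], [3])]),
  (0, 0, 1, [(0, [1], [2, 5]), (0, [0], [1, 3]), (1, [], [4, 5]), (4, [], [0])]),
  (0, 0, 1, [(0, [1], [2, 5]), (0, [0], [1, 3]), (1, [], [0, 5]), (4, [], [4])]),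
  (0, 0, 1, [(0, [1], [3, 5]), (0, [0], [0, 2]), (1, [], [4, 5]), (4, [], [1])]),
  (0, 0, 1, [(0, [1], [3, 5]), (0, [0], [0, 2]), (1, [], [1, 5]), (4, [], [4])]),
  (0, 0, 1, [(0, [1], [3, 5]), (0, [0], [0, 4]), (1, [], [2, 5]), (4, [], [1])]),
  (0, 0, 1, [(0, [1], [3, 5]), (0, [0], [0, 4]), (1, [], [1, 5]), (4, [], [2])]),
  (0, 0, 1, [(0, [1], [3, 5]), (0, [0], [2, 4]), (1, [], [1, 5]), (4, [], [0])]),
  (0, 0, 1, [(0, [1], [3, 5]), (0, [0], [2, 4]), (1, [], [0, 5]), (4, [], [1])]),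
  (0, 0, 1, [(0, [1], [4, 5]), (0, [0], [0, 2]), (1, [], [3, 5]), (4, [], [1])]),
  (0, 0, 1, [(0, [1], [4, 5]), (0, [0], [0, 2]), (1, [], [1, 5]), (4, [], [3])]),
  (0, 0, 1, [(0, [1], [4, 5]), (0, [0], [1, 3]), (1, [], [2, 5]), (4, [], [0])]),
  (0, 0, 1, [(0, [1], [4, 5]), (0, [0], [1, 3]), (1, [], [0, 5]), (4, [], [2])])]

def w64_3 : List (List Wit) := [[(0, 0, 0, 0, 0), (1, 0, 0, 0, 0), (72, 0, 0, 0, 0), (73, 0, 0, 0, 0), (2, 0, 0, 0, 0), (3, 0, 0, 0, 0), (0, 0, 0, 0, 0), (1, 0, 0, 0, 0), (4, 0, 0, 0, 0), (5, 0, 0, 0, 0), (74, 0, 0, 0, 0), (75, 0, 0, 0, 0), (72, 0, 0, 0, 0), (73, 0, 0, 0, 0), (4, 0, 0, 0, 0), (5, 0, 0, 0, 0), (6, 0, 0, 0, 0), (7, 0, 0, 0, 0), (2, 0, 0, 0, 0), (3, 0, 0, 0, 0), (74, 0, 0, 0, 0), (75, 0, 0, 0, 0), (6, 0, 0, 0, 0), (7, 0, 0, 0, 0), (76, 0, 0, 0, 0), (77, 0, 0, 0, 0), (8, 0, 0, 0, 0),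 (9, 0, 0, 0, 0), (78, 0, 0, 0, 0), (79, 0, 0, 0, 0), (76, 0, 0, 0, 0), (77, 0, 0, 0, 0), (10, 0, 0, 0, 0), (11, 0, 0, 0, 0), (80, 0, 0, 0, 0), (81, 0, 0, 0, 0), (8, 0, 0, 0, 0), (9, 0, 0, 0, 0), (10, 0, 0, 0, 0), (11, 0, 0, 0, 0), (12, 0, 0, 0, 0), (13, 0, 0, 0, 0), (78, 0, 0, 0, 0), (79, 0, 0, 0, 0), (80, 0, 0, 0, 0), (81, 0, 0, 0, 0), (12, 0, 0, 0, 0), (13, 0, 0, 0, 0), (14, 0, 0, 0, 0), (15, 0, 0, 0, 0), (16, 0, 0, 0, 0), (17, 0, 0, 0, 0), (82, 0, 0, 0, 0), (83, 0, 0, 0, 0), (14, 0, 0, 0, 0), (15, 0, 0, 0, 0), (84, 0, 0, 0, 0), (85, 0, 0, 0, 0), (18, 0, 0, 0, 0), (19, 0, 0, 0, 0), (16, 0, 0, 0, 0), (17, 0, 0, 0, 0), (84, 0, 0, 0, 0), (85, 0, 0, 0, 0), (20, 0, 0, 0, 0), (21, 0, 0, 0, 0), (82, 0, 0, 0, 0), (83, 0, 0, 0, 0), (18, 0, 0, 0, 0), (19, 0, 0, 0, 0), (20, 0, 0, 0, 0), (21, 0, 0, 0, 0), (22, 0, 0, 0, 0), (23,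 0, 0, 0, 0), (86, 0, 0, 0, 0), (87, 0, 0, 0, 0), (88, 0, 0, 0, 0), (89, 0, 0, 0, 0), (22, 0, 0, 0, 0), (23, 0, 0, 0, 0), (24, 0, 0, 0, 0), (25, 0, 0, 0, 0), (26, 0, 0, 0, 0), (27, 0, 0, 0, 0), (86, 0, 0, 0, 0), (87, 0, 0, 0, 0), (24, 0, 0, 0, 0), (25, 0, 0, 0, 0), (90, 0, 0, 0, 0), (91, 0, 0, 0, 0), (88, 0, 0, 0, 0), (89, 0, 0, 0, 0), (26, 0, 0, 0, 0), (27, 0, 0, 0, 0), (90, 0, 0, 0, 0), (91, 0, 0, 0, 0), (28, 0, 0, 0, 0), (29, 0, 0, 0, 0), (92, 0, 0, 0, 0), (93, 0, 0, 0, 0), (30, 0, 0, 0, 0), (31, 0, 0, 0, 0), (28, 0, 0, 0, 0), (29, 0, 0, 0, 0), (32, 0, 0, 0, 0), (33, 0, 0, 0, 0), (94, 0, 0, 0, 0), (95, 0, 0, 0, 0), (92, 0, 0, 0, 0), (93, 0, 0, 0, 0), (32, 0, 0, 0, 0), (33, 0, 0, 0, 0), (34, 0, 0, 0, 0), (35, 0, 0, 0, 0), (30, 0, 0, 0, 0), (31, 0, 0, 0, 0), (94, 0, 0, 0, 0), (95, 0, 0, 0, 0), (34, 0, 0, 0, 0), (35,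 0, 0, 0, 0)],
  [(36, 0, 0, 0, 0), (37, 0, 0, 0, 0), (96, 0, 0, 0, 0), (97, 0, 0, 0, 0), (38, 0, 0, 0, 0), (39, 0, 0, 0, 0), (36, 0, 0, 0, 0), (37, 0, 0, 0, 0), (40, 0, 0, 0, 0), (41, 0, 0, 0, 0), (98, 0, 0, 0, 0), (99, 0, 0, 0, 0), (96, 0, 0, 0, 0), (97, 0, 0, 0, 0), (40, 0, 0, 0, 0), (41, 0, 0, 0, 0), (42, 0, 0, 0, 0), (43, 0, 0, 0, 0), (38, 0, 0, 0, 0), (39, 0, 0, 0, 0), (98, 0, 0, 0, 0), (99, 0, 0, 0, 0), (42, 0, 0, 0, 0), (43, 0, 0, 0, 0), (100, 0, 0, 0, 0), (101, 0, 0, 0, 0), (44, 0, 0, 0, 0), (45, 0, 0, 0, 0), (102, 0, 0, 0, 0), (103, 0, 0, 0, 0), (100, 0, 0, 0, 0), (101, 0, 0, 0, 0), (46, 0, 0, 0, 0), (47, 0, 0, 0, 0), (104, 0, 0, 0, 0), (105, 0, 0, 0, 0), (44, 0, 0, 0, 0), (45, 0, 0, 0, 0), (46, 0, 0, 0, 0), (47, 0, 0, 0, 0), (48, 0, 0, 0, 0), (49, 0, 0, 0, 0), (102, 0, 0, 0, 0), (103, 0, 0, 0, 0), (104, 0,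 0, 0, 0), (105, 0, 0, 0, 0), (48, 0, 0, 0, 0), (49, 0, 0, 0, 0), (50, 0, 0, 0, 0), (51, 0, 0, 0, 0), (52, 0, 0, 0, 0), (53, 0, 0, 0, 0), (106, 0, 0, 0, 0), (107, 0, 0, 0, 0), (50, 0, 0, 0, 0), (51, 0, 0, 0, 0), (108, 0, 0, 0, 0), (109, 0, 0, 0, 0), (54, 0, 0, 0, 0), (55, 0, 0, 0, 0), (52, 0, 0, 0, 0), (53, 0, 0, 0, 0), (108, 0, 0, 0, 0), (109, 0, 0, 0, 0), (56, 0, 0, 0, 0), (57, 0, 0, 0, 0), (106, 0, 0, 0, 0), (107, 0, 0, 0, 0), (54, 0, 0, 0, 0), (55, 0, 0, 0, 0), (56, 0, 0, 0, 0), (57, 0, 0, 0, 0), (58, 0, 0, 0, 0), (59, 0, 0, 0, 0), (110, 0, 0, 0, 0), (111, 0, 0, 0, 0), (112, 0, 0, 0, 0), (113, 0, 0, 0, 0), (58, 0, 0, 0, 0), (59, 0, 0, 0, 0), (60, 0, 0, 0, 0), (61, 0, 0, 0, 0), (62, 0, 0, 0, 0), (63, 0, 0, 0, 0), (110, 0, 0, 0, 0), (111, 0, 0, 0, 0), (60, 0, 0, 0, 0), (61, 0, 0, 0, 0), (114, 0, 0, 0, 0), (115, 0, 0,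 0, 0), (112, 0, 0, 0, 0), (113, 0, 0, 0, 0), (62, 0, 0, 0, 0), (63, 0, 0, 0, 0), (114, 0, 0, 0, 0), (115, 0, 0, 0, 0), (64, 0, 0, 0, 0), (65, 0, 0, 0, 0), (116, 0, 0, 0, 0), (117, 0, 0, 0, 0), (66, 0, 0, 0, 0), (67, 0, 0, 0, 0), (64, 0, 0, 0, 0), (65, 0, 0, 0, 0), (68, 0, 0, 0, 0), (69, 0, 0, 0, 0), (118, 0, 0, 0, 0), (119, 0, 0, 0, 0), (116, 0, 0, 0, 0), (117, 0, 0, 0, 0), (68, 0, 0, 0, 0), (69, 0, 0, 0, 0), (70, 0, 0, 0, 0), (71, 0, 0, 0, 0), (66, 0, 0, 0, 0), (67, 0, 0, 0, 0), (118, 0, 0, 0, 0), (119, 0, 0, 0, 0), (70, 0, 0, 0, 0), (71, 0, 0, 0, 0)]]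

theorem tr64 : trK keys lk64 kl64 = true := by
  decide +kernel

theorem x64_0 : expB 2 5 dg12 dg8 m64_0 (l64_0 ++ z64_0) w64_0 = true := by
  decide +kernel

theorem x64_1 : expB 2 5 dg12 dg8 m64_1 (l64_1 ++ z64_1) w64_1 = true := by
  decide +kernel

theorem x64_2 : expB 2 5 dg12 dg8 m64_2 (l64_2 ++ z64_2) w64_2 = true := by
  decide +kernel

theorem x64_3 : expB 2 5 dg12 dg8 m64_3 (l64_3 ++ z64_3) w64_3 = true := by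
  decide +kernel

theorem t64_0_0 : chkS lk64 2 5 [(1, m64_0)] l64_0
  [(47, 16, 16, 34891056, 52696656), (48, 16, 16, 34887216, 36968016), (44, 16, 16, 34891056, 52696656), (33, 16, 16, 35017776, 70391376), (42, 16, 16, 34887216, 36968016), (44, 16, 16, 34887216, 36968016), (33, 16, 16, 19096896, 52512096), (32, 16, 16, 34891056, 52696656), (75, 16, 16, 34891056, 52696656), (76, 16, 16, 34887216, 36968016), (72, 1, 1, 50618901, 50618901), (24, 16, 16, 33969201, 70391301), (24, 1, 1, 2184756, 36705606), (8, 1, 1, 34825476, 52446801), (73, 16, 16, 50741841, 68379141), (24, 1, 1, 33969171, 70387221), (42, 1, 1, 34891011, 52692561), (33, 1, 1, 35017731, 70387281), (88, 16, 16, 34956096, 54601296), (67, 16, 16, 33968961, 70329861), (67, 1, 1, 2188341, 50468166), (64, 1, 1, 33776916, 52446741), (72, 16, 16, 50603601, 34890501),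 (73, 16, 16, 50734161, 68313861), (88, 16, 16, 34944576, 37828176), (67, 16, 16, 33961281, 69285381), (67, 1, 1, 2180661, 33756486), (65, 16, 16, 33896001, 37828101), (24, 16, 16, 2188611, 52495686), (8, 16, 16, 34825536, 52512336), (33, 1, 1, 19092996, 36717921), (32, 1, 1, 34891011, 52692561), (67, 16, 16, 2188371, 51512646), (65, 1, 1, 33907476, 54535701), (67, 16, 16, 2180691, 34800966), (64, 16, 16, 33773121, 36783621)]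
  [(8, -64), (24, 128), (32, 64), (33, -128), (42, -128), (44, 192), (47, 64), (48, -64), (64, -64), (65, 64), (72, 128), (73, -192), (75, -64), (76, 64), (88, 0)] = true := by
  decide +kernel

theorem t64_0_1 : chkS lk64 2 5 [(1, m64_0)] l64_1
  [(43, 16, 16, 34891056, 52696656), (45, 16, 16, 34891056, 52696656), (16, 1, 1, 69297411, 52823361), (16, 1, 1, 69293571, 37094721), (37, 16, 16, 34891056, 52696656), (31, 16, 16, 35017776, 70391376), (41, 16, 16, 35017776, 70391376), (29, 16, 16, 34948656, 37951056), (72, 16, 16, 34887216, 36968016), (73, 16, 16, 34887216, 36968016), (68, 16, 16, 34891056, 52696656), (7, 1, 1, 35017731, 70387281), (71, 16, 16, 35017776, 70391376), (22, 16, 16, 33900081, 37950981), (9, 1, 1, 85156866, 56770641), (11, 1, 1, 85156866, 56770641), (69, 1, 1, 85206531, 40108881), (23, 1, 1, 67511571,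 69600021), (15, 1, 1, 86074371, 56755521), (13, 1, 1, 86074371, 56755521), (61, 1, 1, 100869396, 102777621), (62, 16, 16, 50745921, 70345221), (9, 1, 1, 85149186, 40058961), (11, 1, 1, 85149186, 40058961), (38, 1, 1, 101995011, 104071761), (30, 1, 1, 68571651, 70648401), (15, 1, 1, 86066691, 40043841), (13, 1, 1, 86066691, 40043841), (10, 1, 1, 68498946, 38154321), (10, 1, 1, 68510466, 54927441), (70, 1, 1, 85337091, 73532241), (22, 1, 1, 67446291, 38142741), (40, 1, 1, 85344771, 73597521), (29, 1, 1, 68510211, 54919761), (4, 16, 16, 50619681, 52715781), (59, 16, 16, 33776961, 52512261), (72, 16, 16, 85221936, 56889936), (73, 16, 16, 85344816, 73601616), (24, 16, 16, 70345986, 52842561), (24, 16, 16, 70342146, 37113921), (68, 1, 1, 34891011, 52692561), (7, 16, 16, 35017776, 70391376), (71, 1, 1, 35017731, 70387281),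 (22, 1, 1, 33900051, 37946901), (43, 16, 16, 85206576, 40112976), (45, 16, 16, 85337136, 73536336), (37, 1, 1, 34891011, 52692561), (31, 1, 1, 35017731, 70387281), (41, 1, 1, 35017731, 70387281), (29, 1, 1, 34948611, 37946961), (9, 16, 16, 85156896, 56770896), (11, 16, 16, 85156896, 56770896), (38, 16, 16, 101983536, 103027536), (30, 16, 16, 68560176, 69604176), (23, 16, 16, 87122946, 56774721), (21, 16, 16, 84042801, 56759301), (62, 1, 1, 50745876, 70279701), (61, 16, 16, 100869441, 102843141), (9, 16, 16, 85149216, 40059216), (11, 16, 16, 85149216, 40059216), (69, 16, 16, 85221936, 56889936), (23, 16, 16, 67523121, 70652421), (23, 16, 16, 87115266, 40063041), (21, 16, 16, 84035121, 40047621), (10, 16, 16, 68498976, 38154576), (10, 16, 16, 68510496, 54927696), (40, 16, 16, 85337136, 73536336), (29, 16, 16, 68494896,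 38146896), (70, 16, 16, 85344816, 73601616), (22, 16, 16, 67461681, 54923781), (59, 1, 1, 33776916, 52446741), (4, 1, 1, 50619666, 52715541)]
  [(4, -64), (7, 128), (13, 192), (16, -192), (21, -192), (22, -64), (23, 128), (24, 192), (29, 64), (30, -128), (31, -128), (37, -64), (38, -64), (40, 64), (41, 64), (43, 64), (45, 128), (59, 64), (61, 64), (62, -64), (68, 64), (69, 64), (70, -64), (71, -64), (72, -64), (73, -128)] = true := by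
  decide +kernel

theorem t64_0_2 : chkS lk64 2 5 [(1, m64_0)] l64_2
  [(16, 16, 16, 19289136, 70391136), (6, 16, 16, 67331361, 52838661), (5, 1, 1, 84292116, 73413141), (14, 16, 16, 19220016, 37950816), (10, 1, 1, 85156866, 56770641), (70, 1, 1, 104072481, 103043331), (14, 1, 1, 86074371, 56755521), (79, 16, 16, 20336706, 70340706), (12, 1, 1, 68379906, 52838481), (74, 1, 1, 85206531, 40108881), (46, 1, 1, 85221891, 56885841), (77, 16, 16, 19948866, 52514916), (24, 1, 1, 20337696, 70406496), (8, 16, 16, 67331361, 52838661), (7, 16, 16, 50746401, 70410501), (22, 1, 1, 20268576, 37966176), (10, 16, 16, 85156896, 56770896), (39, 16, 16, 101983536, 103027536), (22, 16, 16, 87122946, 56774721), (79, 1, 1, 20336676, 70275426), (12, 16, 16, 68379936, 52838736), (46, 16, 16, 85206576, 40112976), (74, 16, 16, 85221936, 56889936),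 (77, 1, 1, 19948836, 52449636)]
  [(5, -192), (6, -192), (7, 192), (8, 192), (14, 384), (16, 192), (22, -384), (24, -192), (39, -192), (70, 192), (79, 0)] = true := by
  decide +kernel

theorem t64_0_3 : chkS lk64 2 5 [(1, m64_0)] l64_3
  [(45, 16, 16, 34891056, 52696656), (43, 16, 16, 34891056, 52696656), (16, 1, 1, 69293571, 37094721), (16, 1, 1, 69297411, 52823361), (31, 16, 16, 35017776, 70391376), (37, 16, 16, 34891056, 52696656), (29, 16, 16, 34948656, 37951056), (41, 16, 16, 35017776, 70391376), (73, 16, 16, 34887216, 36968016), (72, 16, 16, 34887216, 36968016), (7, 1, 1, 35017731, 70387281), (68, 16, 16, 34891056, 52696656), (22, 16, 16, 33900081, 37950981), (71, 16, 16, 35017776, 70391376), (11, 1, 1, 85156866, 56770641), (9, 1, 1, 85156866, 56770641), (23, 1, 1, 67511571, 69600021), (69, 1, 1, 85206531, 40108881),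 (13, 1, 1, 86074371, 56755521), (15, 1, 1, 86074371, 56755521), (62, 16, 16, 50745921, 70345221), (61, 1, 1, 100869396, 102777621), (11, 1, 1, 85149186, 40058961), (9, 1, 1, 85149186, 40058961), (30, 1, 1, 68571651, 70648401), (38, 1, 1, 101995011, 104071761), (13, 1, 1, 86066691, 40043841), (15, 1, 1, 86066691, 40043841), (10, 1, 1, 68510466, 54927441), (10, 1, 1, 68498946, 38154321), (22, 1, 1, 67446291, 38142741), (70, 1, 1, 85337091, 73532241), (29, 1, 1, 68510211, 54919761), (40, 1, 1, 85344771, 73597521), (59, 16, 16, 33776961, 52512261), (4, 16, 16, 50619681, 52715781), (73, 16, 16, 85344816, 73601616), (72, 16, 16, 85221936, 56889936), (24, 16, 16, 70342146, 37113921), (24, 16, 16, 70345986, 52842561), (7, 16, 16, 35017776, 70391376), (68, 1, 1, 34891011, 52692561), (22, 1, 1, 33900051, 37946901), (71, 1, 1,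 35017731, 70387281), (45, 16, 16, 85337136, 73536336), (43, 16, 16, 85206576, 40112976), (31, 1, 1, 35017731, 70387281), (37, 1, 1, 34891011, 52692561), (29, 1, 1, 34948611, 37946961), (41, 1, 1, 35017731, 70387281), (11, 16, 16, 85156896, 56770896), (9, 16, 16, 85156896, 56770896), (30, 16, 16, 68560176, 69604176), (38, 16, 16, 101983536, 103027536), (21, 16, 16, 84042801, 56759301), (23, 16, 16, 87122946, 56774721), (61, 16, 16, 100869441, 102843141), (62, 1, 1, 50745876, 70279701), (11, 16, 16, 85149216, 40059216), (9, 16, 16, 85149216, 40059216), (23, 16, 16, 67523121, 70652421), (69, 16, 16, 85221936, 56889936), (21, 16, 16, 84035121, 40047621), (23, 16, 16, 87115266, 40063041), (10, 16, 16, 68510496, 54927696), (10, 16, 16, 68498976, 38154576), (29, 16, 16, 68494896, 38146896), (40, 16, 16, 85337136, 73536336),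 (22, 16, 16, 67461681, 54923781), (70, 16, 16, 85344816, 73601616), (4, 1, 1, 50619666, 52715541), (59, 1, 1, 33776916, 52446741)]
  [(4, 64), (7, 64), (15, 192), (16, -192), (22, -128), (23, -128), (24, 192), (29, 128), (30, -64), (31, -64), (37, -128), (38, -128), (40, -64), (41, 128), (43, 128), (45, 64), (59, -64), (61, -64), (62, 64), (68, 128), (69, 128), (70, 64), (71, -128), (72, -128), (73, -64)] = true := by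
  decide +kernel

theorem t64_1_1 : chkS lk64 2 5 [(1, m64_1)] l64_1
  [(35, 1, 1, 87318786, 56905761), (36, 1, 1, 87441666, 73617441), (54, 1, 1, 72442371, 55968321), (53, 1, 1, 88236291, 56951841), (86, 16, 16, 33907521, 54601221), (54, 1, 1, 88481811, 73728786), (84, 16, 16, 33969201, 70391301), (84, 16, 16, 33968961, 70329861), (88, 16, 16, 50677281, 37970181), (67, 1, 1, 72757506, 72757281), (38, 1, 1, 55844886, 5530386), (39, 1, 1, 55844886, 5530386), (61, 1, 1, 72556806, 5653281), (79, 16, 16, 33969201, 70391301), (42, 1, 1, 55861506, 55861281), (44, 1, 1, 55861506, 55861281), (88, 16, 16, 50676321, 21193221), (67, 1, 1, 72757266, 72757266), (15, 1, 1, 54616581, 50684481), (14, 1, 1, 54616581, 50684481), (61, 1, 1, 72556566, 5653266), (79, 16, 16, 33968961, 70329861), (38, 1, 1, 87319041, 56906241), (15, 1, 1,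 70668546, 70668321), (34, 1, 1, 87318786, 56905761), (19, 1, 1, 69619971, 70649121), (51, 1, 1, 88236291, 56951841), (50, 1, 1, 87122436, 56644161), (39, 1, 1, 87441921, 73617921), (14, 1, 1, 70607106, 54939681), (79, 1, 1, 88482051, 73728801), (79, 1, 1, 88481811, 73728786), (19, 1, 1, 37970181, 50677281), (18, 1, 1, 69558531, 54920481), (50, 1, 1, 55844886, 5530386), (84, 1, 1, 87433476, 73421601), (57, 1, 1, 55861506, 55861281), (58, 1, 1, 55861506, 55861281), (66, 16, 16, 87122946, 56774721), (63, 1, 1, 55861506, 55861281), (89, 16, 16, 67449441, 21377541), (66, 1, 1, 55984146, 72572946), (81, 1, 1, 38162691, 70583841), (81, 1, 1, 38162451, 70583826), (87, 16, 16, 101000241, 104993541), (55, 1, 1, 38162691, 70583841), (38, 1, 1, 40120581, 84162081), (40, 1, 1, 39072006, 5518881), (50, 1, 1, 40120581, 84162081), (85,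 1, 1, 37113876, 70276626), (43, 1, 1, 39084051, 55838226), (45, 1, 1, 39084051, 55838226), (87, 16, 16, 101000001, 104932101), (55, 1, 1, 38162451, 70583826), (30, 1, 1, 37969941, 50677266), (29, 1, 1, 37969941, 50677266), (50, 1, 1, 40120341, 84162066), (85, 1, 1, 37114116, 70276641), (38, 16, 16, 103043856, 104080656), (30, 16, 16, 69620496, 70657296), (56, 1, 1, 55845126, 5530401), (27, 16, 16, 69619971, 70649121), (60, 1, 1, 55845126, 5530401), (61, 16, 16, 102847491, 103941441), (40, 16, 16, 86393616, 73606416), (29, 16, 16, 69559056, 54928656), (85, 16, 16, 84288561, 73536261), (85, 16, 16, 84288321, 73474821), (27, 1, 1, 37970181, 50677281), (26, 1, 1, 37970181, 50677281), (61, 1, 1, 40058901, 84100626), (81, 16, 16, 84288321, 73474821)]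
  [(14, 256), (15, 128), (18, -128), (19, -128), (26, 128), (27, 128), (29, -256), (30, -128), (34, 64), (35, 128), (36, 64), (39, 128), (40, -128), (42, -128), (43, 128), (44, -64), (45, 64), (50, 128), (51, -64), (53, -128), (54, -128), (56, -64), (57, -128), (58, -64), (60, 64), (61, -128), (63, 128), (66, 128), (79, -384), (81, -320), (84, 320), (85, 384), (86, -128), (87, -192), (88, 192), (89, 128)] = true := by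
  decide +kernel

theorem t64_1_2 : chkS lk64 2 5 [(1, m64_1)] l64_2
  [(20, 1, 1, 54939906, 70606881), (52, 16, 16, 19162416, 52696416), (54, 16, 16, 19284816, 68363616), (3, 1, 1, 105972516, 105914691), (33, 1, 1, 54939906, 70606881), (67, 16, 16, 20336706, 70340706), (13, 1, 1, 55665156, 55599681), (62, 16, 16, 19288131, 70321506), (46, 1, 1, 87319041, 56906241), (77, 16, 16, 18892371, 34800996), (17, 1, 1, 55730436, 55600161), (83, 1, 1, 73605381, 84296481), (28, 1, 1, 54939906, 70606881), (65, 1, 1, 21324576, 54862176), (66, 1, 1, 21385776, 70586976), (4, 16, 16, 34879056, 34879056), (16, 1, 1, 21385251, 70582626), (55, 1, 1, 21385251, 70582626), (13, 1, 1, 22241316, 55591266), (50, 1, 1, 23343141, 84160866), (46, 16, 16, 86270736, 56894736), (82, 16, 16, 67315281, 35013381), (25, 1, 1, 55730436, 55600161), (78,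 1, 1, 23085861, 84091236)]
  [(3, 192), (4, -192), (16, 192), (17, -192), (20, 192), (25, 192), (28, -192), (33, -192), (50, 192), (52, -192), (54, -192), (55, -192), (62, -192), (65, 192), (66, 192), (67, 192), (77, -192), (78, -192), (82, 192), (83, 192)] = true := by
  decide +kernel

theorem t64_1_3 : chkS lk64 2 5 [(1, m64_1)] l64_3
  [(36, 1, 1, 87441666, 73617441), (35, 1, 1, 87318786, 56905761), (53, 1, 1, 88236291, 56951841), (54, 1, 1, 72442371, 55968321), (54, 1, 1, 88481811, 73728786), (86, 16, 16, 33907521, 54601221), (84, 16, 16, 33968961, 70329861), (84, 16, 16, 33969201, 70391301), (67, 1, 1, 72757506, 72757281), (88, 16, 16, 50677281, 37970181), (39, 1, 1, 55844886, 5530386), (38, 1, 1, 55844886, 5530386), (79, 16, 16, 33969201, 70391301), (61, 1, 1, 72556806, 5653281), (44, 1, 1, 55861506, 55861281),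 (42, 1, 1, 55861506, 55861281), (67, 1, 1, 72757266, 72757266), (88, 16, 16, 50676321, 21193221), (14, 1, 1, 54616581, 50684481), (15, 1, 1, 54616581, 50684481), (79, 16, 16, 33968961, 70329861), (61, 1, 1, 72556566, 5653266), (15, 1, 1, 70668546, 70668321), (38, 1, 1, 87319041, 56906241), (19, 1, 1, 69619971, 70649121), (34, 1, 1, 87318786, 56905761), (50, 1, 1, 87122436, 56644161), (51, 1, 1, 88236291, 56951841), (14, 1, 1, 70607106, 54939681), (39, 1, 1, 87441921, 73617921), (79, 1, 1, 88481811, 73728786), (79, 1, 1, 88482051, 73728801), (18, 1, 1, 69558531, 54920481), (19, 1, 1, 37970181, 50677281), (84, 1, 1, 87433476, 73421601), (50, 1, 1, 55844886, 5530386), (58, 1, 1, 55861506, 55861281), (57, 1, 1, 55861506, 55861281), (63, 1, 1, 55861506, 55861281), (66, 16, 16, 87122946, 56774721), (66, 1, 1, 55984146, 72572946),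 (89, 16, 16, 67449441, 21377541), (81, 1, 1, 38162451, 70583826), (81, 1, 1, 38162691, 70583841), (55, 1, 1, 38162691, 70583841), (87, 16, 16, 101000241, 104993541), (40, 1, 1, 39072006, 5518881), (38, 1, 1, 40120581, 84162081), (85, 1, 1, 37113876, 70276626), (50, 1, 1, 40120581, 84162081), (45, 1, 1, 39084051, 55838226), (43, 1, 1, 39084051, 55838226), (55, 1, 1, 38162451, 70583826), (87, 16, 16, 101000001, 104932101), (29, 1, 1, 37969941, 50677266), (30, 1, 1, 37969941, 50677266), (85, 1, 1, 37114116, 70276641), (50, 1, 1, 40120341, 84162066), (30, 16, 16, 69620496, 70657296), (38, 16, 16, 103043856, 104080656), (27, 16, 16, 69619971, 70649121), (56, 1, 1, 55845126, 5530401), (61, 16, 16, 102847491, 103941441), (60, 1, 1, 55845126, 5530401), (29, 16, 16, 69559056, 54928656), (40, 16, 16, 86393616, 73606416), (85,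 16, 16, 84288321, 73474821), (85, 16, 16, 84288561, 73536261), (26, 1, 1, 37970181, 50677281), (27, 1, 1, 37970181, 50677281), (81, 16, 16, 84288321, 73474821), (61, 1, 1, 40058901, 84100626)]
  [(14, 128), (15, 64), (18, -64), (19, -64), (26, 64), (27, 64), (29, -128), (30, -64), (34, -64), (35, 64), (36, 128), (39, 64), (40, -64), (42, -64), (43, 64), (44, -128), (45, 128), (50, 256), (51, 64), (53, -64), (54, -256), (55, -192), (56, 64), (57, -64), (58, -128), (60, -64), (61, -256), (63, 64), (66, 256), (67, 192), (79, -192), (81, -256), (84, 256), (85, 192), (86, -64), (89, 64)] = true := by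
  decide +kernel

theorem t64_2_2 : chkS lk64 2 5 [(1, m64_2)] l64_2
  [(1, 1, 1, 70668546, 70668321), (53, 16, 16, 34956336, 54662736), (53, 16, 16, 35017536, 70329936), (49, 16, 16, 35017776, 70391376), (32, 1, 1, 54939906, 70606881), (64, 16, 16, 51790416, 68379216), (29, 1, 1, 55730436, 55600161), (59, 16, 16, 20336706, 70340706), (29, 1, 1, 87319041, 56906241), (59, 16, 16, 51529296, 34825296), (18, 1, 1, 87318786, 56905761), (84, 1, 1, 73605381, 84296481), (2, 16, 16, 35017776, 70391376), (63, 16, 16, 68379936, 52838736), (63, 16, 16, 68563536, 68563536), (0, 16, 16, 35017776, 70391376), (6, 1, 1, 70668546, 70668321), (52, 16, 16, 68559696, 68559696), (14, 1, 1, 22241316, 55591266), (3, 16, 16, 101917776, 101860176), (14, 16, 16, 85222176, 56893776), (3, 1, 1, 23089956, 87040356), (26, 1, 1, 55730436, 55600161),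 (80, 16, 16, 102048576, 104932176)]
  [(0, -192), (1, 192), (2, -192), (3, 384), (6, 192), (14, -384), (18, -192), (26, 192), (29, 384), (32, -192), (49, 192), (52, -192), (53, -384), (59, -384), (63, 384), (64, 192), (80, -192), (84, 192)] = true := by
  decide +kernel

theorem t64_2_3 : chkS lk64 2 5 [(1, m64_2)] l64_3
  [(20, 1, 1, 70607106, 54939681), (20, 1, 1, 70668546, 70668321), (52, 16, 16, 34956336, 54662736), (54, 16, 16, 34956336, 54662736), (52, 16, 16, 35017536, 70329936), (54, 16, 16, 35017536, 70329936), (3, 1, 1, 90382356, 90194706), (3, 1, 1, 90382596, 90194721), (65, 16, 16, 51791136, 69427536), (67, 16, 16, 51791136, 69427536), (46, 1, 1, 55975956, 72377106), (40, 1, 1, 56893461, 84173586), (77, 16, 16, 35017776, 70391376), (4, 16, 16, 21385731, 70582881), (33, 1, 1, 70607361, 54940161), (33, 1, 1,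 70668801, 70668801), (65, 16, 16, 51790416, 68379216), (67, 16, 16, 51790416, 68379216), (46, 1, 1, 55730436, 55600161), (40, 1, 1, 56770821, 84108321), (77, 16, 16, 35017536, 70329936), (4, 16, 16, 21385251, 70582626), (13, 1, 1, 87441666, 73617441), (30, 1, 1, 87441921, 73617921), (17, 1, 1, 87441666, 73617441), (19, 1, 1, 87441666, 73617441), (83, 1, 1, 88236051, 56951826), (50, 1, 1, 105009411, 104137761), (13, 1, 1, 87318786, 56905761), (30, 1, 1, 87319041, 56906241), (62, 16, 16, 34817376, 19088976), (62, 16, 16, 34817616, 34817616), (17, 1, 1, 87318786, 56905761), (19, 1, 1, 87318786, 56905761), (83, 1, 1, 88482051, 73728801), (50, 1, 1, 105193491, 105186066), (28, 16, 16, 70607106, 54939681), (28, 16, 16, 70668546, 70668321), (65, 16, 16, 68379936, 52838736), (66, 16, 16, 68379936, 52838736), (65, 16, 16, 68563536,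 68563536), (66, 16, 16, 68563536, 68563536), (4, 1, 1, 19288896, 70329696), (4, 1, 1, 19289136, 70391136), (52, 16, 16, 85337136, 73536336), (55, 16, 16, 85337136, 73536336), (46, 1, 1, 39203076, 72365601), (39, 1, 1, 40120581, 84162081), (82, 1, 1, 38162451, 70583826), (3, 16, 16, 85141056, 39928656), (16, 16, 16, 68510496, 54927696), (16, 16, 16, 68571936, 70656336), (52, 16, 16, 85336896, 73474896), (55, 16, 16, 85336896, 73474896), (46, 1, 1, 39018516, 55592466), (39, 1, 1, 40058901, 84100626), (82, 1, 1, 38162691, 70583841), (3, 16, 16, 85140576, 23216976), (13, 16, 16, 85345056, 73605456), (15, 16, 16, 85345056, 73605456), (25, 16, 16, 87441666, 73617441), (27, 16, 16, 87441666, 73617441), (78, 16, 16, 101864496, 103945296), (62, 1, 1, 40120581, 84162081), (13, 16, 16, 85222176, 56893776), (15, 16, 16, 85222176,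 56893776), (50, 16, 16, 102048576, 104932176), (50, 16, 16, 102048816, 104993616), (25, 16, 16, 87318786, 56905761), (27, 16, 16, 87318786, 56905761), (78, 16, 16, 102048576, 104932176), (62, 1, 1, 40058901, 84100626)]
  [(3, 384), (4, -384), (15, -192), (16, 192), (19, -192), (20, 192), (27, 192), (28, -192), (30, 192), (33, -192), (39, -192), (40, 192), (50, 384), (52, -384), (54, -192), (62, -384), (65, 384), (66, 192), (83, 0)] = true := by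
  decide +kernel

theorem t64_3_3 : chkS lk64 2 5 [(1, m64_3)] l64_3
  [(35, 1, 1, 87441666, 73617441), (36, 1, 1, 87318786, 56905761), (54, 1, 1, 88236291, 56951841), (86, 16, 16, 33969201, 70391301), (53, 1, 1, 88481811, 73728786), (54, 1, 1, 72749091, 72745266), (84, 16, 16, 33907521, 54601221), (84, 16, 16, 33907761, 54662661), (64, 1, 1, 72757506, 72757281), (67, 1, 1, 88478496, 73736496), (14, 1, 1, 54923301, 67461426), (15, 1, 1, 54923301, 67461426), (79, 16, 16, 33907761, 54662661), (61, 1, 1, 72495366, 5649441), (42, 1, 1, 55984386, 72572961), (44, 1, 1, 55984386, 72572961), (64, 1, 1, 72757266, 72757266), (67, 1, 1, 88478256, 73732656), (39, 1, 1, 55722246, 5465121), (38, 1, 1, 55722246, 5465121), (79, 16, 16, 33907521, 54601221), (61, 1, 1, 72495126, 5649426), (14, 1, 1, 70668546, 70668321), (39, 1, 1, 87319041,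 56906241), (18, 1, 1, 69619971, 70649121), (19, 1, 1, 38154501, 67450401), (84, 1, 1, 87187476, 56644626), (50, 1, 1, 55722246, 5465121), (15, 1, 1, 70607106, 54939681), (38, 1, 1, 87441921, 73617921), (61, 1, 1, 88478256, 73732656), (61, 1, 1, 88478496, 73736496), (19, 1, 1, 69558531, 54920481), (34, 1, 1, 87441666, 73617441), (50, 1, 1, 87429156, 73421106), (51, 1, 1, 88481811, 73728786), (57, 1, 1, 55984386, 72572961), (58, 1, 1, 55984386, 72572961), (66, 1, 1, 55861506, 55861281), (89, 16, 16, 67327521, 37110021), (63, 1, 1, 55984146, 72572946), (66, 16, 16, 87429186, 73486386), (81, 1, 1, 38101011, 54855186), (81, 1, 1, 38101251, 54855201), (52, 1, 1, 39207171, 72549921), (55, 16, 16, 86381616, 73536816), (29, 1, 1, 38154501, 67450401), (30, 1, 1, 38154501, 67450401), (85, 1, 1, 37052436, 54547986), (50, 1, 1, 40059141,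 84100641), (43, 1, 1, 39206931, 72549906), (45, 1, 1, 39206931, 72549906), (52, 1, 1, 39206931, 72549906), (55, 16, 16, 86381376, 73475376), (40, 1, 1, 39010326, 5457426), (38, 1, 1, 40058901, 84100626), (85, 1, 1, 37052676, 54548001), (50, 1, 1, 40058901, 84100626), (29, 16, 16, 69620496, 70657296), (40, 16, 16, 86270736, 56894736), (26, 1, 1, 38154501, 67450401), (27, 1, 1, 38154501, 67450401), (81, 16, 16, 84042801, 56759301), (61, 1, 1, 40120581, 84162081), (30, 16, 16, 69559056, 54928656), (38, 16, 16, 103105296, 105063696), (50, 16, 16, 103093056, 104932656), (50, 16, 16, 103093296, 104994096), (27, 16, 16, 69558531, 54920481), (56, 1, 1, 55722246, 5465121), (61, 16, 16, 103092291, 104924466), (60, 1, 1, 55722006, 5465106)]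
  [(14, -128), (15, 128), (18, 64), (19, -128), (26, -64), (27, 128), (29, 128), (30, -128), (34, -128), (35, 128), (36, 64), (39, 128), (40, -128), (42, -128), (43, 128), (44, -64), (45, 64), (50, 512), (51, 128), (52, -192), (53, -128), (54, -128), (56, 128), (57, -128), (58, -64), (60, -128), (61, -512), (63, 128), (64, 192), (66, 128), (81, -128), (84, 128), (86, -128), (89, 128)] = true := by
  decide +kernel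

section

variable {κ ι : Type*} [Fintype κ] [Fintype ι] [Inhabited κ] [Inhabited ι]

noncomputable def F64_0 (E : Env κ ι) : (Fin 2 → κ) → (Fin 5 → ι) → ℝ := op2 (P12 κ) (P8 ι) (fB E 2 5 m64_0)

noncomputable def F64_1 (E : Env κ ι) : (Fin 2 → κ) → (Fin 5 → ι) → ℝ := op2 (P12 κ) (P8 ι) (fB E 2 5 m64_1)

noncomputable def F64_2 (E : Env κ ι) : (Fin 2 → κ) → (Fin 5 → ι) → ℝ := op2 (P12 κ) (P8 ι) (fB E 2 5 m64_2)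

noncomputable def F64_3 (E : Env κ ι) : (Fin 2 → κ) → (Fin 5 → ι) → ℝ := op2 (P12 κ) (P8 ι) (fB E 2 5 m64_3)

def r64_0_0 : List (ℕ × ℤ) := [(8, -64), (24, 128), (32, 64), (33, -128), (42, -128), (44, 192), (47, 64), (48, -64), (64, -64), (65, 64), (72, 128), (73, -192), (75, -64), (76, 64), (88, 0)]

theorem h64_0_0 (E : Env κ ι) : ip (F64_0 E) (F64_0 E) = dotS (ek E lk64) r64_0_0 :=
  op_entryZ E lk64 2 5 _ _ _ _ (pg12 κ) (pg8 ι) m64_0 m64_0 l64_0 z64_0 w64_0 x64_0 (by decide) _ (chkS_sound E lk64 2 5 _ _ _ _ t64_0_0)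

def r64_0_1 : List (ℕ × ℤ) := [(4, -64), (7, 128), (13, 192), (16, -192), (21, -192), (22, -64), (23, 128), (24, 192), (29, 64), (30, -128), (31, -128), (37, -64), (38, -64), (40, 64), (41, 64), (43, 64), (45, 128), (59, 64), (61, 64), (62, -64), (68, 64), (69, 64), (70, -64), (71, -64), (72, -64), (73, -128)]

theorem h64_0_1 (E : Env κ ι) : ip (F64_0 E) (F64_1 E) = dotS (ek E lk64) r64_0_1 :=
  op_entryZ E lk64 2 5 _ _ _ _ (pg12 κ) (pg8 ι) m64_0 m64_1 l64_1 z64_1 w64_1 x64_1 (by decide) _ (chkS_sound E lk64 2 5 _ _ _ _ t64_0_1)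

def r64_0_2 : List (ℕ × ℤ) := [(5, -192), (6, -192), (7, 192), (8, 192), (14, 384), (16, 192), (22, -384), (24, -192), (39, -192), (70, 192), (79, 0)]

theorem h64_0_2 (E : Env κ ι) : ip (F64_0 E) (F64_2 E) = dotS (ek E lk64) r64_0_2 :=
  op_entryZ E lk64 2 5 _ _ _ _ (pg12 κ) (pg8 ι) m64_0 m64_2 l64_2 z64_2 w64_2 x64_2 (by decide) _ (chkS_sound E lk64 2 5 _ _ _ _ t64_0_2)

def r64_0_3 : List (ℕ × ℤ) := [(4, 64), (7, 64), (15, 192), (16, -192), (22, -128), (23, -128), (24, 192), (29, 128), (30, -64), (31, -64), (37, -128), (38, -128), (40, -64), (41, 128), (43, 128), (45, 64), (59, -64), (61, -64), (62, 64), (68, 128), (69, 128), (70, 64), (71, -128), (72, -128), (73, -64)]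

theorem h64_0_3 (E : Env κ ι) : ip (F64_0 E) (F64_3 E) = dotS (ek E lk64) r64_0_3 :=
  op_entryZ E lk64 2 5 _ _ _ _ (pg12 κ) (pg8 ι) m64_0 m64_3 l64_3 z64_3 w64_3 x64_3 (by decide) _ (chkS_sound E lk64 2 5 _ _ _ _ t64_0_3)

def r64_1_1 : List (ℕ × ℤ) := [(14, 256), (15, 128), (18, -128), (19, -128), (26, 128), (27, 128), (29, -256), (30, -128), (34, 64), (35, 128), (36, 64), (39, 128), (40, -128), (42, -128), (43, 128), (44, -64), (45, 64), (50, 128), (51, -64), (53, -128), (54, -128), (56, -64), (57, -128), (58, -64), (60, 64), (61, -128), (63, 128), (66, 128), (79, -384), (81, -320), (84, 320), (85, 384), (86, -128), (87, -192), (88, 192), (89, 128)]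

theorem h64_1_1 (E : Env κ ι) : ip (F64_1 E) (F64_1 E) = dotS (ek E lk64) r64_1_1 :=
  op_entryZ E lk64 2 5 _ _ _ _ (pg12 κ) (pg8 ι) m64_1 m64_1 l64_1 z64_1 w64_1 x64_1 (by decide) _ (chkS_sound E lk64 2 5 _ _ _ _ t64_1_1)

def r64_1_2 : List (ℕ × ℤ) := [(3, 192), (4, -192), (16, 192), (17, -192), (20, 192), (25, 192), (28, -192), (33, -192), (50, 192), (52, -192), (54, -192), (55, -192), (62, -192), (65, 192), (66, 192), (67, 192), (77, -192), (78, -192), (82, 192), (83, 192)]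

theorem h64_1_2 (E : Env κ ι) : ip (F64_1 E) (F64_2 E) = dotS (ek E lk64) r64_1_2 :=
  op_entryZ E lk64 2 5 _ _ _ _ (pg12 κ) (pg8 ι) m64_1 m64_2 l64_2 z64_2 w64_2 x64_2 (by decide) _ (chkS_sound E lk64 2 5 _ _ _ _ t64_1_2)

def r64_1_3 : List (ℕ × ℤ) := [(14, 128), (15, 64), (18, -64), (19, -64), (26, 64), (27, 64), (29, -128), (30, -64), (34, -64), (35, 64), (36, 128), (39, 64), (40, -64), (42, -64), (43, 64), (44, -128), (45, 128), (50, 256), (51, 64), (53, -64), (54, -256), (55, -192), (56, 64), (57, -64), (58, -128), (60, -64), (61, -256), (63, 64), (66, 256), (67, 192), (79, -192), (81, -256), (84, 256), (85, 192), (86, -64), (89, 64)]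

theorem h64_1_3 (E : Env κ ι) : ip (F64_1 E) (F64_3 E) = dotS (ek E lk64) r64_1_3 :=
  op_entryZ E lk64 2 5 _ _ _ _ (pg12 κ) (pg8 ι) m64_1 m64_3 l64_3 z64_3 w64_3 x64_3 (by decide) _ (chkS_sound E lk64 2 5 _ _ _ _ t64_1_3)

def r64_2_2 : List (ℕ × ℤ) := [(0, -192), (1, 192), (2, -192), (3, 384), (6, 192), (14, -384), (18, -192), (26, 192), (29, 384), (32, -192), (49, 192), (52, -192), (53, -384), (59, -384), (63, 384), (64, 192), (80, -192), (84, 192)]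

theorem h64_2_2 (E : Env κ ι) : ip (F64_2 E) (F64_2 E) = dotS (ek E lk64) r64_2_2 :=
  op_entryZ E lk64 2 5 _ _ _ _ (pg12 κ) (pg8 ι) m64_2 m64_2 l64_2 z64_2 w64_2 x64_2 (by decide) _ (chkS_sound E lk64 2 5 _ _ _ _ t64_2_2)

def r64_2_3 : List (ℕ × ℤ) := [(3, 384), (4, -384), (15, -192), (16, 192), (19, -192), (20, 192), (27, 192), (28, -192), (30, 192), (33, -192), (39, -192), (40, 192), (50, 384), (52, -384), (54, -192), (62, -384), (65, 384), (66, 192), (83, 0)]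

theorem h64_2_3 (E : Env κ ι) : ip (F64_2 E) (F64_3 E) = dotS (ek E lk64) r64_2_3 :=
  op_entryZ E lk64 2 5 _ _ _ _ (pg12 κ) (pg8 ι) m64_2 m64_3 l64_3 z64_3 w64_3 x64_3 (by decide) _ (chkS_sound E lk64 2 5 _ _ _ _ t64_2_3)

def r64_3_3 : List (ℕ × ℤ) := [(14, -128), (15, 128), (18, 64), (19, -128), (26, -64), (27, 128), (29, 128), (30, -128), (34, -128), (35, 128), (36, 64), (39, 128), (40, -128), (42, -128), (43, 128), (44, -64), (45, 64), (50, 512), (51, 128), (52, -192), (53, -128), (54, -128), (56, 128), (57, -128), (58, -64), (60, -128), (61, -512), (63, 128), (64, 192), (66, 128), (81, -128), (84, 128), (86, -128), (89, 128)]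

theorem h64_3_3 (E : Env κ ι) : ip (F64_3 E) (F64_3 E) = dotS (ek E lk64) r64_3_3 :=
  op_entryZ E lk64 2 5 _ _ _ _ (pg12 κ) (pg8 ι) m64_3 m64_3 l64_3 z64_3 w64_3 x64_3 (by decide) _ (chkS_sound E lk64 2 5 _ _ _ _ t64_3_3)

theorem row64_0 (E : Env κ ι) : RowG (ek E lk64) (F64_0 E) [F64_0 E, F64_1 E, F64_2 E, F64_3 E] [r64_0_0, r64_0_1, r64_0_2, r64_0_3] :=
  rowG_cons _ _ _ _ _ _ (h64_0_0 E) (rowG_cons _ _ _ _ _ _ (h64_0_1 E) (rowG_cons _ _ _ _ _ _ (h64_0_2 E) (rowG_cons _ _ _ _ _ _ (h64_0_3 E) (rowG_nil _ _))))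

theorem row64_1 (E : Env κ ι) : RowG (ek E lk64) (F64_1 E) [F64_1 E, F64_2 E, F64_3 E] [r64_1_1, r64_1_2, r64_1_3] :=
  rowG_cons _ _ _ _ _ _ (h64_1_1 E) (rowG_cons _ _ _ _ _ _ (h64_1_2 E) (rowG_cons _ _ _ _ _ _ (h64_1_3 E) (rowG_nil _ _)))

theorem row64_2 (E : Env κ ι) : RowG (ek E lk64) (F64_2 E) [F64_2 E, F64_3 E] [r64_2_2, r64_2_3] :=
  rowG_cons _ _ _ _ _ _ (h64_2_2 E) (rowG_cons _ _ _ _ _ _ (h64_2_3 E) (rowG_nil _ _))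

theorem row64_3 (E : Env κ ι) : RowG (ek E lk64) (F64_3 E) [F64_3 E] [r64_3_3] :=
  rowG_cons _ _ _ _ _ _ (h64_3_3 E) (rowG_nil _ _)

def tab64 : List (List (List (ℕ × ℤ))) := [[r64_0_0, r64_0_1, r64_0_2, r64_0_3], [r64_1_1, r64_1_2, r64_1_3], [r64_2_2, r64_2_3], [r64_3_3]]

theorem tri64 (E : Env κ ι) : TriG (ek E lk64) [F64_0 E, F64_1 E, F64_2 E, F64_3 E] tab64 := by
  refine triG_cons _ _ _ _ _ (row64_0 E) ?_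
  refine triG_cons _ _ _ _ _ (row64_1 E) ?_
  refine triG_cons _ _ _ _ _ (row64_2 E) ?_
  refine triG_cons _ _ _ _ _ (row64_3 E) ?_
  exact triG_nil _

end

def lk65 : List Key := [
  (2, 7, [(0, [0], [0, 1]), (0, [0], [0, 2]), (0, [1], [3, 2]), (4, [], [1]), (0, [1], [4, 5]), (1, [], [4, 6]), (1, [], [3, 6]), (4, [], [5])]),
  (2, 7, [(0, [0], [0, 1]), (0, [0], [0, 2]), (0, [1], [3, 2]), (4, [], [1]), (0, [1], [4, 5]), (1, [], [4, 6]), (1, [], [3, 5]), (4, [], [6])]),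
  (2, 7, [(0, [0], [0, 1]), (0, [0], [0, 1]), (0, [1], [2, 3]), (4, [], [3]), (0, [1], [4, 5]), (1, [], [4, 6]), (1, [], [2, 6]), (4, [], [5])]),
  (2, 7, [(0, [0], [0, 1]), (0, [0], [0, 1]), (0, [1], [2, 3]), (4, [], [3]), (0, [1], [4, 5]), (1, [], [4, 6]), (1, [], [2, 5]), (4, [], [6])]),
  (2, 7, [(0, [0], [0, 1]), (0, [0], [2, 3]), (0, [1], [0, 1]), (4, [], [3]), (0, [1], [4, 5]), (1, [], [4, 6]), (1, [], [2, 6]), (4, [], [5])]),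
  (2, 7, [(0, [0], [0, 1]), (0, [0], [2, 3]), (0, [1], [0, 1]), (4, [], [3]), (0, [1], [4, 5]), (1, [], [4, 6]), (1, [], [2, 5]), (4, [], [6])]),
  (2, 7, [(0, [0], [0, 1]), (0, [0], [2, 0]), (0, [1], [1, 3]), (4, [], [3]), (0, [1], [4, 5]), (1, [], [4, 6]), (1, [], [2, 6]), (4, [], [5])]),
  (2, 7, [(0, [0], [0, 1]), (0, [0], [2, 0]), (0, [1], [1, 3]), (4, [], [3]), (0, [1], [4, 5]), (1, [], [4, 6]), (1, [], [2, 5]), (4, [], [6])]),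
  (2, 7, [(0, [0], [0, 1]), (0, [0], [0, 1]), (0, [1], [2, 3]), (4, [], [4]), (0, [1], [5, 6]), (1, [], [2, 5]), (1, [], [3, 6]), (4, [], [4])]),
  (2, 7, [(0, [0], [0, 1]), (0, [0], [0, 1]), (0, [1], [2, 3]), (4, [], [4]), (0, [1], [2, 5]), (1, [], [5, 6]), (1, [], [3, 6]), (4, [], [4])]),
  (2, 7, [(0, [0], [0, 1]), (0, [0], [0, 1]), (0, [1], [2, 3]), (4, [], [4]), (0, [1], [2, 5]), (1, [], [5, 6]), (1, [], [3, 4]), (4, [], [6])]),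
  (2, 7, [(0, [0], [0, 1]), (0, [0], [2, 0]), (0, [1], [3, 1]), (4, [], [4]), (0, [1], [5, 6]), (1, [], [2, 5]), (1, [], [3, 6]), (4, [], [4])]),
  (2, 7, [(0, [0], [0, 1]), (0, [0], [2, 0]), (0, [1], [3, 1]), (4, [], [4]), (0, [1], [5, 6]), (1, [], [2, 5]), (1, [], [3, 4]), (4, [], [6])]),
  (2, 7, [(0, [0], [0, 1]), (0, [0], [2, 0]), (0, [1], [3, 1]), (4, [], [4]), (0, [1], [5, 6]), (1, [], [3, 5]), (1, [], [2, 4]), (4, [], [6])]),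
  (2, 7, [(0, [0], [0, 1]), (0, [0], [2, 0]), (0, [1], [3, 1]), (4, [], [4]), (0, [1], [2, 5]), (1, [], [5, 6]), (1, [], [3, 6]), (4, [], [4])]),
  (2, 7, [(0, [0], [0, 1]), (0, [0], [2, 0]), (0, [1], [3, 1]), (4, [], [4]), (0, [1], [3, 5]), (1, [], [5, 6]), (1, [], [2, 6]), (4, [], [4])]),
  (2, 7, [(0, [0], [0, 1]), (0, [0], [2, 0]), (0, [1], [3, 1]), (4, [], [4]), (0, [1], [2, 5]), (1, [], [5, 6]), (1, [], [3, 4]), (4, [], [6])]),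
  (2, 7, [(0, [0], [0, 1]), (0, [0], [2, 0]), (0, [1], [3, 1]), (4, [], [4]), (0, [1], [3, 5]), (1, [], [5, 6]), (1, [], [2, 4]), (4, [], [6])]),
  (2, 7, [(0, [0], [0, 1]), (0, [0], [2, 0]), (0, [1], [3, 4]), (4, [], [1]), (0, [1], [5, 6]), (1, [], [2, 5]), (1, [], [3, 6]), (4, [], [4])]),
  (2, 7, [(0, [0], [0, 1]), (0, [0], [2, 0]), (0, [1], [3, 4]), (4, [], [1]), (0, [1], [5, 6]), (1, [], [3, 5]), (1, [], [4, 6]), (4, [], [2])]),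
  (2, 7, [(0, [0], [0, 1]), (0, [0], [2, 0]), (0, [1], [3, 4]), (4, [], [1]), (0, [1], [3, 5]), (1, [], [5, 6]), (1, [], [4, 6]), (4, [], [2])]),
  (2, 7, [(0, [0], [0, 1]), (0, [0], [2, 0]), (0, [1], [3, 4]), (4, [], [1]), (0, [1], [3, 5]), (1, [], [5, 6]), (1, [], [2, 4]), (4, [], [6])]),
  (2, 7, [(0, [0], [0, 1]), (0, [0], [2, 3]), (0, [1], [0, 1]), (4, [], [4]), (0, [1], [5, 6]), (1, [], [2, 5]), (1, [], [3, 6]), (4, [], [4])]),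
  (2, 7, [(0, [0], [0, 1]), (0, [0], [2, 3]), (0, [1], [0, 1]), (4, [], [4]), (0, [1], [2, 5]), (1, [], [5, 6]), (1, [], [3, 6]), (4, [], [4])]),
  (2, 7, [(0, [0], [0, 1]), (0, [0], [2, 3]), (0, [1], [0, 1]), (4, [], [4]), (0, [1], [2, 5]), (1, [], [5, 6]), (1, [], [3, 4]), (4, [], [6])]),
  (2, 7, [(0, [0], [0, 1]), (0, [0], [2, 3]), (0, [1], [4, 0]), (4, [], [1]), (0, [1], [5, 6]), (1, [], [2, 5]), (1, [], [3, 6]), (4, [], [4])]),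
  (2, 7, [(0, [0], [0, 1]), (0, [0], [2, 3]), (0, [1], [4, 0]), (4, [], [1]), (0, [1], [5, 6]), (1, [], [2, 5]), (1, [], [4, 6]), (4, [], [3])]),
  (2, 7, [(0, [0], [0, 1]), (0, [0], [2, 3]), (0, [1], [4, 0]), (4, [], [1]), (0, [1], [2, 5]), (1, [], [5, 6]), (1, [], [3, 6]), (4, [], [4])]),
  (2, 7, [(0, [0], [0, 1]), (0, [0], [2, 3]), (0, [1], [4, 0]), (4, [], [1]), (0, [1], [2, 5]), (1, [], [3, 6]), (1, [], [4, 5]), (4, [], [6])]),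
  (2, 7, [(0, [0], [0, 1]), (0, [0], [2, 3]), (0, [1], [4, 3]), (4, [], [1]), (0, [1], [5, 6]), (1, [], [4, 5]), (1, [], [0, 2]), (4, [], [6])]),
  (2, 7, [(0, [0], [0, 1]), (0, [0], [2, 1]), (0, [1], [3, 4]), (4, [], [4]), (0, [1], [5, 6]), (1, [], [0, 5]), (1, [], [2, 3]), (4, [], [6])]),
  (2, 7, [(0, [0], [0, 1]), (0, [0], [2, 1]), (0, [1], [3, 4]), (4, [], [5]), (0, [1], [3, 6]), (1, [], [0, 6]), (1, [], [2, 4]), (4, [], [5])]),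
  (2, 7, [(0, [0], [0, 1]), (0, [0], [2, 3]), (0, [1], [4, 1]), (4, [], [5]), (0, [1], [2, 6]), (1, [], [4, 6]), (1, [], [0, 3]), (4, [], [5])])]

def kl65 : List ℕ := [114, 115, 122, 123, 135, 136, 145, 146, 208, 209, 210, 227, 228, 229, 231, 232, 233, 234, 255, 256, 258, 259, 271, 272, 273, 290, 291, 293, 297, 327, 334, 422, 433]

def m65_0 : Base := (0, 1, [(0, [0], [0, 5]), (0, [1], [1, 2]), (1, [], [3, 5]), (4, [], [4])])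

def l65_0 : Cov := [(120, 0, 1, [(0, [0], [0, 5]), (0, [1], [1, 2]), (1, [], [3, 5]), (4, [], [4])]),
  (-120, 0, 1, [(0, [0], [0, 5]), (0, [1], [1, 2]), (1, [], [4, 5]), (4, [], [3])]),
  (-120, 0, 1, [(0, [0], [0, 5]), (0, [1], [1, 3]), (1, [], [2, 5]), (4, [], [4])]),
  (120, 0, 1, [(0, [0], [0, 5]), (0, [1], [1, 3]), (1, [], [4, 5]), (4, [], [2])]),
  (120, 0, 1, [(0, [0], [0, 5]), (0, [1], [1, 4]), (1, [], [2, 5]), (4, [], [3])]),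
  (-120, 0, 1, [(0, [0], [0, 5]), (0, [1], [1, 4]), (1, [], [3, 5]), (4, [], [2])]),
  (-120, 0, 1, [(0, [0], [2, 5]), (0, [1], [0, 1]), (1, [], [3, 5]), (4, [], [4])]),
  (120, 0, 1, [(0, [0], [2, 5]), (0, [1], [0, 1]), (1, [], [4, 5]), (4, [], [3])]),
  (120, 0, 1, [(0, [0], [2, 5]), (0, [1], [1, 3]), (1, [], [0, 5]), (4, [], [4])]),
  (-120, 0, 1, [(0, [0], [2, 5]), (0, [1], [1, 3]), (1, [], [4, 5]), (4, [], [0])]),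
  (-120, 0, 1, [(0, [0], [2, 5]), (0, [1], [1, 4]), (1, [], [0, 5]), (4, [], [3])]),
  (120, 0, 1, [(0, [0], [2, 5]), (0, [1], [1, 4]), (1, [], [3, 5]), (4, [], [0])]),
  (120, 0, 1, [(0, [0], [3, 5]), (0, [1], [0, 1]), (1, [], [2, 5]), (4, [], [4])]),
  (-120, 0, 1, [(0, [0], [3, 5]), (0, [1], [0, 1]), (1, [], [4, 5]), (4, [], [2])]),
  (-120, 0, 1, [(0, [0], [3, 5]), (0, [1], [1, 2]), (1, [], [0, 5]), (4, [], [4])]),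
  (120, 0, 1, [(0, [0], [3, 5]), (0, [1], [1, 2]), (1, [], [4, 5]), (4, [], [0])]),
  (120, 0, 1, [(0, [0], [3, 5]), (0, [1], [1, 4]), (1, [], [0, 5]), (4, [], [2])]),
  (-120, 0, 1, [(0, [0], [3, 5]), (0, [1], [1, 4]), (1, [], [2, 5]), (4, [], [0])]),
  (-120, 0, 1, [(0, [0], [4, 5]), (0, [1], [0, 1]), (1, [], [2, 5]), (4, [], [3])]),
  (120, 0, 1, [(0, [0], [4, 5]), (0, [1], [0, 1]), (1, [], [3, 5]), (4, [], [2])]),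
  (120, 0, 1, [(0, [0], [4, 5]), (0, [1], [1, 2]), (1, [], [0, 5]), (4, [], [3])]),
  (-120, 0, 1, [(0, [0], [4, 5]), (0, [1], [1, 2]), (1, [], [3, 5]), (4, [], [0])]),
  (-120, 0, 1, [(0, [0], [4, 5]), (0, [1], [1, 3]), (1, [], [0, 5]), (4, [], [2])]),
  (120, 0, 1, [(0, [0], [4, 5]), (0, [1], [1, 3]), (1, [], [2, 5]), (4, [], [0])]),
  (120, 0, 1, [(0, [1], [0, 5]), (0, [0], [1, 2]), (1, [], [3, 5]), (4, [], [4])]),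
  (-120, 0, 1, [(0, [1], [0, 5]), (0, [0], [1, 2]), (1, [], [4, 5]), (4, [], [3])]),
  (-120, 0, 1, [(0, [1], [0, 5]), (0, [0], [1, 3]), (1, [], [2, 5]), (4, [], [4])]),
  (120, 0, 1, [(0, [1], [0, 5]), (0, [0], [1, 3]), (1, [], [4, 5]), (4, [], [2])]),
  (120, 0, 1, [(0, [1], [0, 5]), (0, [0], [1, 4]), (1, [], [2, 5]), (4, [], [3])]),
  (-120, 0, 1, [(0, [1], [0, 5]), (0, [0], [1, 4]), (1, [], [3, 5]), (4, [], [2])]),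
  (-120, 0, 1, [(0, [1], [2, 5]), (0, [0], [0, 1]), (1, [], [3, 5]), (4, [], [4])]),
  (120, 0, 1, [(0, [1], [2, 5]), (0, [0], [0, 1]), (1, [], [4, 5]), (4, [], [3])]),
  (120, 0, 1, [(0, [1], [2, 5]), (0, [0], [1, 3]), (1, [], [0, 5]), (4, [], [4])]),
  (-120, 0, 1, [(0, [1], [2, 5]), (0, [0], [1, 3]), (1, [], [4, 5]), (4, [], [0])]),
  (-120, 0, 1, [(0, [1], [2, 5]), (0, [0], [1, 4]), (1, [], [0, 5]), (4, [], [3])]),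
  (120, 0, 1, [(0, [1], [2, 5]), (0, [0], [1, 4]), (1, [], [3, 5]), (4, [], [0])]),
  (120, 0, 1, [(0, [1], [3, 5]), (0, [0], [0, 1]), (1, [], [2, 5]), (4, [], [4])]),
  (-120, 0, 1, [(0, [1], [3, 5]), (0, [0], [0, 1]), (1, [], [4, 5]), (4, [], [2])]),
  (-120, 0, 1, [(0, [1], [3, 5]), (0, [0], [1, 2]), (1, [], [0, 5]), (4, [], [4])]),
  (120, 0, 1, [(0, [1], [3, 5]), (0, [0], [1, 2]), (1, [], [4, 5]), (4, [], [0])]),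
  (120, 0, 1, [(0, [1], [3, 5]), (0, [0], [1, 4]), (1, [], [0, 5]), (4, [], [2])]),
  (-120, 0, 1, [(0, [1], [3, 5]), (0, [0], [1, 4]), (1, [], [2, 5]), (4, [], [0])]),
  (-120, 0, 1, [(0, [1], [4, 5]), (0, [0], [0, 1]), (1, [], [2, 5]), (4, [], [3])]),
  (120, 0, 1, [(0, [1], [4, 5]), (0, [0], [0, 1]), (1, [], [3, 5]), (4, [], [2])]),
  (120, 0, 1, [(0, [1], [4, 5]), (0, [0], [1, 2]), (1, [], [0, 5]), (4, [], [3])]),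
  (-120, 0, 1, [(0, [1], [4, 5]), (0, [0], [1, 2]), (1, [], [3, 5]), (4, [], [0])]),
  (-120, 0, 1, [(0, [1], [4, 5]), (0, [0], [1, 3]), (1, [], [0, 5]), (4, [], [2])]),
  (120, 0, 1, [(0, [1], [4, 5]), (0, [0], [1, 3]), (1, [], [2, 5]), (4, [], [0])])]

def z65_0 : Cov := [(0, 0, 1, [(0, [0], [0, 5]), (0, [1], [2, 3]), (1, [], [1, 5]), (4, [], [4])]),
  (0, 0, 1, [(0, [0], [0, 5]), (0, [1], [2, 3]), (1, [], [4, 5]), (4, [], [1])]),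
  (0, 0, 1, [(0, [0], [0, 5]), (0, [1], [2, 4]), (1, [], [1, 5]), (4, [], [3])]),
  (0, 0, 1, [(0, [0], [0, 5]), (0, [1], [2, 4]), (1, [], [3, 5]), (4, [], [1])]),
  (0, 0, 1, [(0, [0], [0, 5]), (0, [1], [3, 4]), (1, [], [1, 5]), (4, [], [2])]),
  (0, 0, 1, [(0, [0], [0, 5]), (0, [1], [3, 4]), (1, [], [2, 5]), (4, [], [1])]),
  (0, 0, 1, [(0, [0], [1, 5]), (0, [1], [0, 2]), (1, [], [3, 5]), (4, [], [4])]),
  (0, 0, 1, [(0, [0], [1, 5]), (0, [1], [0, 2]), (1, [], [4, 5]), (4, [], [3])]),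
  (0, 0, 1, [(0, [0], [1, 5]), (0, [1], [0, 3]), (1, [], [2, 5]), (4, [], [4])]),
  (0, 0, 1, [(0, [0], [1, 5]), (0, [1], [0, 3]), (1, [], [4, 5]), (4, [], [2])]),
  (0, 0, 1, [(0, [0], [1, 5]), (0, [1], [0, 4]), (1, [], [2, 5]), (4, [], [3])]),
  (0, 0, 1, [(0, [0], [1, 5]), (0, [1], [0, 4]), (1, [], [3, 5]), (4, [], [2])]),
  (0, 0, 1, [(0, [0], [1, 5]), (0, [1], [2, 3]), (1, [], [0, 5]), (4, [], [4])]),
  (0, 0, 1, [(0, [0], [1, 5]), (0, [1], [2, 3]), (1, [], [4, 5]), (4, [], [0])]),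
  (0, 0, 1, [(0, [0], [1, 5]), (0, [1], [2, 4]), (1, [], [0, 5]), (4, [], [3])]),
  (0, 0, 1, [(0, [0], [1, 5]), (0, [1], [2, 4]), (1, [], [3, 5]), (4, [], [0])]),
  (0, 0, 1, [(0, [0], [1, 5]), (0, [1], [3, 4]), (1, [], [0, 5]), (4, [], [2])]),
  (0, 0, 1, [(0, [0], [1, 5]), (0, [1], [3, 4]), (1, [], [2, 5]), (4, [], [0])]),
  (0, 0, 1, [(0, [0], [2, 5]), (0, [1], [0, 3]), (1, [], [1, 5]), (4, [], [4])]),
  (0, 0, 1, [(0, [0], [2, 5]), (0, [1], [0, 3]), (1, [], [4, 5]), (4, [], [1])]),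
  (0, 0, 1, [(0, [0], [2, 5]), (0, [1], [0, 4]), (1, [], [1, 5]), (4, [], [3])]),
  (0, 0, 1, [(0, [0], [2, 5]), (0, [1], [0, 4]), (1, [], [3, 5]), (4, [], [1])]),
  (0, 0, 1, [(0, [0], [2, 5]), (0, [1], [3, 4]), (1, [], [0, 5]), (4, [], [1])]),
  (0, 0, 1, [(0, [0], [2, 5]), (0, [1], [3, 4]), (1, [], [1, 5]), (4, [], [0])]),
  (0, 0, 1, [(0, [0], [3, 5]), (0, [1], [0, 2]), (1, [], [1, 5]), (4, [], [4])]),
  (0, 0, 1, [(0, [0], [3, 5]), (0, [1], [0, 2]), (1, [], [4, 5]), (4, [], [1])]),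
  (0, 0, 1, [(0, [0], [3, 5]), (0, [1], [0, 4]), (1, [], [1, 5]), (4, [], [2])]),
  (0, 0, 1, [(0, [0], [3, 5]), (0, [1], [0, 4]), (1, [], [2, 5]), (4, [], [1])]),
  (0, 0, 1, [(0, [0], [3, 5]), (0, [1], [2, 4]), (1, [], [0, 5]), (4, [], [1])]),
  (0, 0, 1, [(0, [0], [3, 5]), (0, [1], [2, 4]), (1, [], [1, 5]), (4, [], [0])]),
  (0, 0, 1, [(0, [0], [4, 5]), (0, [1], [0, 2]), (1, [], [1, 5]), (4, [], [3])]),
  (0, 0, 1, [(0, [0], [4, 5]), (0, [1], [0, 2]), (1, [], [3, 5]), (4, [], [1])]),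
  (0, 0, 1, [(0, [0], [4, 5]), (0, [1], [0, 3]), (1, [], [1, 5]), (4, [], [2])]),
  (0, 0, 1, [(0, [0], [4, 5]), (0, [1], [0, 3]), (1, [], [2, 5]), (4, [], [1])]),
  (0, 0, 1, [(0, [0], [4, 5]), (0, [1], [2, 3]), (1, [], [0, 5]), (4, [], [1])]),
  (0, 0, 1, [(0, [0], [4, 5]), (0, [1], [2, 3]), (1, [], [1, 5]), (4, [], [0])]),
  (0, 0, 1, [(0, [1], [0, 5]), (0, [0], [2, 3]), (1, [], [1, 5]), (4, [], [4])]),
  (0, 0, 1, [(0, [1], [0, 5]), (0, [0], [2, 3]), (1, [], [4, 5]), (4, [], [1])]),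
  (0, 0, 1, [(0, [1], [0, 5]), (0, [0], [2, 4]), (1, [], [1, 5]), (4, [], [3])]),
  (0, 0, 1, [(0, [1], [0, 5]), (0, [0], [2, 4]), (1, [], [3, 5]), (4, [], [1])]),
  (0, 0, 1, [(0, [1], [0, 5]), (0, [0], [3, 4]), (1, [], [1, 5]), (4, [], [2])]),
  (0, 0, 1, [(0, [1], [0, 5]), (0, [0], [3, 4]), (1, [], [2, 5]), (4, [], [1])]),
  (0, 0, 1, [(0, [1], [1, 5]), (0, [0], [0, 2]), (1, [], [3, 5]), (4, [], [4])]),
  (0, 0, 1, [(0, [1], [1, 5]), (0, [0], [0, 2]), (1, [], [4, 5]), (4, [], [3])]),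
  (0, 0, 1, [(0, [1], [1, 5]), (0, [0], [0, 3]), (1, [], [2, 5]), (4, [], [4])]),
  (0, 0, 1, [(0, [1], [1, 5]), (0, [0], [0, 3]), (1, [], [4, 5]), (4, [], [2])]),
  (0, 0, 1, [(0, [1], [1, 5]), (0, [0], [0, 4]), (1, [], [2, 5]), (4, [], [3])]),
  (0, 0, 1, [(0, [1], [1, 5]), (0, [0], [0, 4]), (1, [], [3, 5]), (4, [], [2])]),
  (0, 0, 1, [(0, [1], [1, 5]), (0, [0], [2, 3]), (1, [], [0, 5]), (4, [], [4])]),
  (0, 0, 1, [(0, [1], [1, 5]), (0, [0], [2, 3]), (1, [], [4, 5]), (4, [], [0])]),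
  (0, 0, 1, [(0, [1], [1, 5]), (0, [0], [2, 4]), (1, [], [0, 5]), (4, [], [3])]),
  (0, 0, 1, [(0, [1], [1, 5]), (0, [0], [2, 4]), (1, [], [3, 5]), (4, [], [0])]),
  (0, 0, 1, [(0, [1], [1, 5]), (0, [0], [3, 4]), (1, [], [0, 5]), (4, [], [2])]),
  (0, 0, 1, [(0, [1], [1, 5]), (0, [0], [3, 4]), (1, [], [2, 5]), (4, [], [0])]),
  (0, 0, 1, [(0, [1], [2, 5]), (0, [0], [0, 3]), (1, [], [1, 5]), (4, [], [4])]),
  (0, 0, 1, [(0, [1], [2, 5]), (0, [0], [0, 3]), (1, [], [4, 5]), (4, [], [1])]),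
  (0, 0, 1, [(0, [1], [2, 5]), (0, [0], [0, 4]), (1, [], [1, 5]), (4, [], [3])]),
  (0, 0, 1, [(0, [1], [2, 5]), (0, [0], [0, 4]), (1, [], [3, 5]), (4, [], [1])]),
  (0, 0, 1, [(0, [1], [2, 5]), (0, [0], [3, 4]), (1, [], [0, 5]), (4, [], [1])]),
  (0, 0, 1, [(0, [1], [2, 5]), (0, [0], [3, 4]), (1, [], [1, 5]), (4, [], [0])]),
  (0, 0, 1, [(0, [1], [3, 5]), (0, [0], [0, 2]), (1, [], [1, 5]), (4, [], [4])]),
  (0, 0, 1, [(0, [1], [3, 5]), (0, [0], [0, 2]), (1, [], [4, 5]), (4, [], [1])]),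
  (0, 0, 1, [(0, [1], [3, 5]), (0, [0], [0, 4]), (1, [], [1, 5]), (4, [], [2])]),
  (0, 0, 1, [(0, [1], [3, 5]), (0, [0], [0, 4]), (1, [], [2, 5]), (4, [], [1])]),
  (0, 0, 1, [(0, [1], [3, 5]), (0, [0], [2, 4]), (1, [], [0, 5]), (4, [], [1])]),
  (0, 0, 1, [(0, [1], [3, 5]), (0, [0], [2, 4]), (1, [], [1, 5]), (4, [], [0])]),
  (0, 0, 1, [(0, [1], [4, 5]), (0, [0], [0, 2]), (1, [], [1, 5]), (4, [], [3])]),
  (0, 0, 1, [(0, [1], [4, 5]), (0, [0], [0, 2]), (1, [], [3, 5]), (4, [], [1])]),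
  (0, 0, 1, [(0, [1], [4, 5]), (0, [0], [0, 3]), (1, [], [1, 5]), (4, [], [2])]),
  (0, 0, 1, [(0, [1], [4, 5]), (0, [0], [0, 3]), (1, [], [2, 5]), (4, [], [1])]),
  (0, 0, 1, [(0, [1], [4, 5]), (0, [0], [2, 3]), (1, [], [0, 5]), (4, [], [1])]),
  (0, 0, 1, [(0, [1], [4, 5]), (0, [0], [2, 3]), (1, [], [1, 5]), (4, [], [0])])]

def w65_0 : List (List Wit) := [[(0, 0, 0, 0, 0), (1, 0, 0, 0, 0), (2, 0, 0, 0, 0), (3, 0, 0, 0, 0), (4, 0, 0, 0, 0), (5, 0, 0, 0, 0), (0, 0, 0, 0, 0), (1, 0, 0, 0, 0), (48, 0, 0, 0, 0), (49, 0, 0, 0, 0), (50, 0, 0, 0, 0), (51, 0, 0, 0, 0), (2, 0, 0, 0, 0), (3, 0, 0, 0, 0), (48, 0, 0, 0, 0), (49, 0, 0, 0, 0), (52, 0, 0, 0, 0), (53, 0, 0, 0, 0), (4, 0, 0, 0, 0), (5, 0, 0, 0, 0), (50, 0, 0, 0, 0), (51, 0, 0, 0, 0), (52, 0, 0, 0, 0), (53, 0, 0, 0, 0), (54, 0, 0, 0, 0), (55, 0, 0, 0, 0), (56, 0, 0,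 0, 0), (57, 0, 0, 0, 0), (58, 0, 0, 0, 0), (59, 0, 0, 0, 0), (54, 0, 0, 0, 0), (55, 0, 0, 0, 0), (60, 0, 0, 0, 0), (61, 0, 0, 0, 0), (62, 0, 0, 0, 0), (63, 0, 0, 0, 0), (56, 0, 0, 0, 0), (57, 0, 0, 0, 0), (60, 0, 0, 0, 0), (61, 0, 0, 0, 0), (64, 0, 0, 0, 0), (65, 0, 0, 0, 0), (58, 0, 0, 0, 0), (59, 0, 0, 0, 0), (62, 0, 0, 0, 0), (63, 0, 0, 0, 0), (64, 0, 0, 0, 0), (65, 0, 0, 0, 0), (6, 0, 0, 0, 0), (7, 0, 0, 0, 0), (66, 0, 0, 0, 0), (67, 0, 0, 0, 0), (68, 0, 0, 0, 0), (69, 0, 0, 0, 0), (6, 0, 0, 0, 0), (7, 0, 0, 0, 0), (8, 0, 0, 0, 0), (9, 0, 0, 0, 0), (10, 0, 0, 0, 0), (11, 0, 0, 0, 0), (66, 0, 0, 0, 0), (67, 0, 0, 0, 0), (8, 0, 0, 0, 0), (9, 0, 0, 0, 0), (70, 0, 0, 0, 0), (71, 0, 0, 0, 0), (68, 0, 0, 0, 0), (69, 0, 0, 0, 0), (10, 0, 0, 0, 0), (11, 0, 0, 0, 0), (70, 0, 0, 0, 0), (71, 0, 0, 0, 0), (12, 0, 0, 0, 0), (13,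 0, 0, 0, 0), (72, 0, 0, 0, 0), (73, 0, 0, 0, 0), (74, 0, 0, 0, 0), (75, 0, 0, 0, 0), (12, 0, 0, 0, 0), (13, 0, 0, 0, 0), (14, 0, 0, 0, 0), (15, 0, 0, 0, 0), (16, 0, 0, 0, 0), (17, 0, 0, 0, 0), (72, 0, 0, 0, 0), (73, 0, 0, 0, 0), (14, 0, 0, 0, 0), (15, 0, 0, 0, 0), (76, 0, 0, 0, 0), (77, 0, 0, 0, 0), (74, 0, 0, 0, 0), (75, 0, 0, 0, 0), (16, 0, 0, 0, 0), (17, 0, 0, 0, 0), (76, 0, 0, 0, 0), (77, 0, 0, 0, 0), (18, 0, 0, 0, 0), (19, 0, 0, 0, 0), (78, 0, 0, 0, 0), (79, 0, 0, 0, 0), (80, 0, 0, 0, 0), (81, 0, 0, 0, 0), (18, 0, 0, 0, 0), (19, 0, 0, 0, 0), (20, 0, 0, 0, 0), (21, 0, 0, 0, 0), (22, 0, 0, 0, 0), (23, 0, 0, 0, 0), (78, 0, 0, 0, 0), (79, 0, 0, 0, 0), (20, 0, 0, 0, 0), (21, 0, 0, 0, 0), (82, 0, 0, 0, 0), (83, 0, 0, 0, 0), (80, 0, 0, 0, 0), (81, 0, 0, 0, 0), (22, 0, 0, 0, 0), (23, 0, 0, 0, 0), (82, 0, 0, 0, 0), (83,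 0, 0, 0, 0)],
  [(24, 0, 0, 0, 0), (25, 0, 0, 0, 0), (26, 0, 0, 0, 0), (27, 0, 0, 0, 0), (28, 0, 0, 0, 0), (29, 0, 0, 0, 0), (24, 0, 0, 0, 0), (25, 0, 0, 0, 0), (84, 0, 0, 0, 0), (85, 0, 0, 0, 0), (86, 0, 0, 0, 0), (87, 0, 0, 0, 0), (26, 0, 0, 0, 0), (27, 0, 0, 0, 0), (84, 0, 0, 0, 0), (85, 0, 0, 0, 0), (88, 0, 0, 0, 0), (89, 0, 0, 0, 0), (28, 0, 0, 0, 0), (29, 0, 0, 0, 0), (86, 0, 0, 0, 0), (87, 0, 0, 0, 0), (88, 0, 0, 0, 0), (89, 0, 0, 0, 0), (90, 0, 0, 0, 0), (91, 0, 0, 0, 0), (92, 0, 0, 0, 0), (93, 0, 0, 0, 0), (94, 0, 0, 0, 0), (95, 0, 0, 0, 0), (90, 0, 0, 0, 0), (91, 0, 0, 0, 0), (96, 0, 0, 0, 0), (97, 0, 0, 0, 0), (98, 0, 0, 0, 0), (99, 0, 0, 0, 0), (92, 0, 0, 0, 0), (93, 0, 0, 0, 0), (96, 0, 0, 0, 0), (97, 0, 0, 0, 0), (100, 0, 0, 0, 0), (101, 0, 0, 0, 0), (94, 0, 0, 0, 0), (95, 0, 0, 0, 0), (98, 0, 0, 0, 0),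 (99, 0, 0, 0, 0), (100, 0, 0, 0, 0), (101, 0, 0, 0, 0), (30, 0, 0, 0, 0), (31, 0, 0, 0, 0), (102, 0, 0, 0, 0), (103, 0, 0, 0, 0), (104, 0, 0, 0, 0), (105, 0, 0, 0, 0), (30, 0, 0, 0, 0), (31, 0, 0, 0, 0), (32, 0, 0, 0, 0), (33, 0, 0, 0, 0), (34, 0, 0, 0, 0), (35, 0, 0, 0, 0), (102, 0, 0, 0, 0), (103, 0, 0, 0, 0), (32, 0, 0, 0, 0), (33, 0, 0, 0, 0), (106, 0, 0, 0, 0), (107, 0, 0, 0, 0), (104, 0, 0, 0, 0), (105, 0, 0, 0, 0), (34, 0, 0, 0, 0), (35, 0, 0, 0, 0), (106, 0, 0, 0, 0), (107, 0, 0, 0, 0), (36, 0, 0, 0, 0), (37, 0, 0, 0, 0), (108, 0, 0, 0, 0), (109, 0, 0, 0, 0), (110, 0, 0, 0, 0), (111, 0, 0, 0, 0), (36, 0, 0, 0, 0), (37, 0, 0, 0, 0), (38, 0, 0, 0, 0), (39, 0, 0, 0, 0), (40, 0, 0, 0, 0), (41, 0, 0, 0, 0), (108, 0, 0, 0, 0), (109, 0, 0, 0, 0), (38, 0, 0, 0, 0), (39, 0, 0, 0, 0), (112, 0, 0, 0, 0), (113, 0, 0, 0,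 0), (110, 0, 0, 0, 0), (111, 0, 0, 0, 0), (40, 0, 0, 0, 0), (41, 0, 0, 0, 0), (112, 0, 0, 0, 0), (113, 0, 0, 0, 0), (42, 0, 0, 0, 0), (43, 0, 0, 0, 0), (114, 0, 0, 0, 0), (115, 0, 0, 0, 0), (116, 0, 0, 0, 0), (117, 0, 0, 0, 0), (42, 0, 0, 0, 0), (43, 0, 0, 0, 0), (44, 0, 0, 0, 0), (45, 0, 0, 0, 0), (46, 0, 0, 0, 0), (47, 0, 0, 0, 0), (114, 0, 0, 0, 0), (115, 0, 0, 0, 0), (44, 0, 0, 0, 0), (45, 0, 0, 0, 0), (118, 0, 0, 0, 0), (119, 0, 0, 0, 0), (116, 0, 0, 0, 0), (117, 0, 0, 0, 0), (46, 0, 0, 0, 0), (47, 0, 0, 0, 0), (118, 0, 0, 0, 0), (119, 0, 0, 0, 0)]]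

theorem tr65 : trK keys lk65 kl65 = true := by
  decide +kernel

theorem x65_0 : expB 2 5 dg11 dg9 m65_0 (l65_0 ++ z65_0) w65_0 = true := by
  decide +kernel

theorem t65_0_0 : chkS lk65 2 5 [(1, m65_0)] l65_0
  [(9, 1, 1, 87318786, 56905761), (10, 1, 1, 87441666, 73617441), (31, 16, 16, 33907761, 54662661), (21, 1, 1, 88482051, 73728801), (21, 1, 1, 72442371, 55968321), (20, 1, 1, 88236291, 56951841), (14, 1, 1, 55861506, 55861281), (16, 1, 1, 55861506, 55861281), (11, 1, 1, 55845126, 5530401), (12, 1, 1, 55845126, 5530401), (1, 1, 1, 54616581, 50684481), (0, 1, 1, 54616581, 50684481), (11, 1, 1, 87319041, 56906241), (1, 1, 1, 70668546, 70668321), (8, 1, 1, 87318786, 56905761), (3, 1, 1, 69619971, 70649121), (19, 1, 1, 88236291, 56951841), (18, 1, 1, 87122436, 56644161), (12, 1, 1, 87441921, 73617921), (0, 1, 1, 70607106,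 54939681), (3, 1, 1, 37970181, 50677281), (2, 1, 1, 69558531, 54920481), (18, 1, 1, 55845126, 5530401), (30, 1, 1, 87433236, 73421586), (23, 1, 1, 55861506, 55861281), (24, 1, 1, 55861506, 55861281), (32, 16, 16, 67450401, 38154501), (28, 1, 1, 55984386, 72572961), (28, 16, 16, 87122946, 56774721), (27, 1, 1, 55861506, 55861281), (15, 1, 1, 39084051, 55838226), (17, 1, 1, 39084051, 55838226), (11, 1, 1, 40120341, 84162066), (13, 1, 1, 39071766, 5518866), (7, 1, 1, 37969941, 50677266), (6, 1, 1, 37969941, 50677266), (11, 16, 16, 103043856, 104080656), (7, 16, 16, 69620496, 70657296), (22, 1, 1, 55845126, 5530401), (5, 16, 16, 69619971, 70649121), (25, 1, 1, 55845126, 5530401), (26, 16, 16, 102847491, 103941441), (13, 16, 16, 86393616, 73606416), (6, 16, 16, 69559056, 54928656), (5, 1, 1, 37970181, 50677281), (4, 1, 1,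 37970181, 50677281), (26, 1, 1, 40059141, 84100641), (29, 16, 16, 84288561, 73536261)]
  [(0, 240), (1, -240), (2, -120), (3, 240), (4, -120), (5, 240), (6, 240), (7, -240), (8, -120), (9, 120), (10, -120), (11, 480), (12, -240), (13, -240), (14, -120), (15, -120), (16, 120), (17, 120), (18, -240), (19, 120), (20, -120), (21, 240), (22, -120), (23, 120), (24, -120), (25, 120), (26, -240), (27, -120), (28, 240), (29, 120), (30, 120), (31, -120), (32, -120)] = true := by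
  decide +kernel

section

variable {κ ι : Type*} [Fintype κ] [Fintype ι] [Inhabited κ] [Inhabited ι]

noncomputable def F65_0 (E : Env κ ι) : (Fin 2 → κ) → (Fin 5 → ι) → ℝ := op2 (P11 κ) (P9 ι) (fB E 2 5 m65_0)

def r65_0_0 : List (ℕ × ℤ) := [(0, 240), (1, -240), (2, -120), (3, 240), (4, -120), (5, 240), (6, 240), (7, -240), (8, -120), (9, 120), (10, -120), (11, 480), (12, -240), (13, -240), (14, -120), (15, -120), (16, 120), (17, 120), (18, -240), (19, 120), (20, -120), (21, 240), (22, -120), (23, 120), (24, -120), (25, 120), (26, -240), (27, -120), (28, 240), (29, 120), (30, 120), (31, -120), (32, -120)]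

theorem h65_0_0 (E : Env κ ι) : ip (F65_0 E) (F65_0 E) = dotS (ek E lk65) r65_0_0 :=
  op_entryZ E lk65 2 5 _ _ _ _ (pg11 κ) (pg9 ι) m65_0 m65_0 l65_0 z65_0 w65_0 x65_0 (by decide) _ (chkS_sound E lk65 2 5 _ _ _ _ t65_0_0)

theorem row65_0 (E : Env κ ι) : RowG (ek E lk65) (F65_0 E) [F65_0 E] [r65_0_0] :=
  rowG_cons _ _ _ _ _ _ (h65_0_0 E) (rowG_nil _ _)

def tab65 : List (List (List (ℕ × ℤ))) := [[r65_0_0]]

theorem tri65 (E : Env κ ι) : TriG (ek E lk65) [F65_0 E] tab65 := by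
  refine triG_cons _ _ _ _ _ (row65_0 E) ?_
  exact triG_nil _

end

def lk66 : List Key := [
  (2, 7, [(0, [0], [0, 1]), (0, [1], [0, 2]), (0, [0], [3, 4]), (0, [1], [5, 6]), (1, [], [1, 3]), (1, [], [5, 6]), (4, [], [2]), (4, [], [4])]),
  (2, 7, [(0, [0], [0, 1]), (0, [1], [0, 2]), (0, [1], [1, 3]), (0, [0], [4, 5]), (1, [], [2, 6]), (1, [], [4, 5]), (4, [], [3]), (4, [], [6])]),
  (2, 7, [(0, [0], [0, 1]), (0, [1], [0, 2]), (0, [0], [2, 3]), (0, [1], [1, 4]), (4, [], [4]), (4, [], [3]), (1, [], [5, 6]), (1, [], [5, 6])]),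
  (2, 7, [(0, [0], [0, 1]), (0, [0], [0, 2]), (0, [1], [3, 2]), (4, [], [1]), (0, [1], [4, 5]), (1, [], [4, 6]), (1, [], [3, 6]), (4, [], [5])]),
  (2, 7, [(0, [0], [0, 1]), (0, [0], [0, 2]), (0, [1], [3, 2]), (4, [], [1]), (0, [1], [4, 5]), (1, [], [4, 6]), (1, [], [3, 5]), (4, [], [6])]),
  (2, 7, [(0, [0], [0, 1]), (0, [0], [0, 1]), (0, [1], [2, 3]), (4, [], [3]), (0, [1], [4, 5]), (1, [], [4, 6]), (1, [], [2, 6]), (4, [], [5])]),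
  (2, 7, [(0, [0], [0, 1]), (0, [0], [0, 1]), (0, [1], [2, 3]), (4, [], [3]), (0, [1], [4, 5]), (1, [], [4, 6]), (1, [], [2, 5]), (4, [], [6])]),
  (2, 7, [(0, [0], [0, 1]), (0, [0], [2, 3]), (0, [1], [0, 3]), (4, [], [1]), (0, [1], [4, 5]), (1, [], [4, 6]), (1, [], [2, 6]), (4, [], [5])]),
  (2, 7, [(0, [0], [0, 1]), (0, [0], [2, 3]), (0, [1], [0, 3]), (4, [], [1]), (0, [1], [4, 5]), (1, [], [4, 6]), (1, [], [2, 5]), (4, [], [6])]),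
  (2, 7, [(0, [0], [0, 1]), (0, [0], [2, 3]), (0, [1], [0, 3]), (4, [], [1]), (0, [1], [2, 4]), (1, [], [5, 6]), (1, [], [4, 5]), (4, [], [6])]),
  (2, 7, [(0, [0], [0, 1]), (0, [0], [2, 3]), (0, [1], [0, 1]), (4, [], [3]), (0, [1], [4, 5]), (1, [], [4, 6]), (1, [], [2, 6]), (4, [], [5])]),
  (2, 7, [(0, [0], [0, 1]), (0, [0], [2, 3]), (0, [1], [0, 1]), (4, [], [3]), (0, [1], [4, 5]), (1, [], [4, 6]), (1, [], [2, 5]), (4, [], [6])]),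
  (2, 7, [(0, [0], [0, 1]), (0, [0], [2, 0]), (0, [1], [1, 3]), (4, [], [3]), (0, [1], [4, 5]), (1, [], [4, 6]), (1, [], [2, 6]), (4, [], [5])]),
  (2, 7, [(0, [0], [0, 1]), (0, [0], [2, 0]), (0, [1], [1, 3]), (4, [], [3]), (0, [1], [4, 5]), (1, [], [4, 6]), (1, [], [2, 5]), (4, [], [6])]),
  (2, 7, [(0, [0], [0, 1]), (0, [0], [2, 0]), (0, [1], [1, 3]), (4, [], [3]), (0, [1], [4, 5]), (1, [], [4, 5]), (1, [], [2, 6]), (4, [], [6])]),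
  (2, 7, [(0, [0], [0, 1]), (0, [0], [2, 0]), (0, [1], [1, 3]), (4, [], [3]), (0, [1], [2, 4]), (1, [], [5, 6]), (1, [], [5, 6]), (4, [], [4])]),
  (2, 7, [(0, [0], [0, 1]), (0, [0], [2, 0]), (0, [1], [1, 3]), (4, [], [3]), (0, [1], [2, 4]), (1, [], [5, 6]), (1, [], [4, 5]), (4, [], [6])]),
  (2, 7, [(0, [0], [0, 1]), (0, [0], [0, 1]), (0, [1], [2, 3]), (4, [], [4]), (0, [1], [5, 6]), (1, [], [2, 5]), (1, [], [3, 6]), (4, [], [4])]),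
  (2, 7, [(0, [0], [0, 1]), (0, [0], [0, 1]), (0, [1], [2, 3]), (4, [], [4]), (0, [1], [2, 5]), (1, [], [5, 6]), (1, [], [3, 6]), (4, [], [4])]),
  (2, 7, [(0, [0], [0, 1]), (0, [0], [0, 1]), (0, [1], [2, 3]), (4, [], [4]), (0, [1], [2, 5]), (1, [], [5, 6]), (1, [], [3, 4]), (4, [], [6])]),
  (2, 7, [(0, [0], [0, 1]), (0, [0], [2, 0]), (0, [1], [3, 1]), (4, [], [4]), (0, [1], [5, 6]), (1, [], [5, 6]), (1, [], [2, 3]), (4, [], [4])]),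
  (2, 7, [(0, [0], [0, 1]), (0, [0], [2, 0]), (0, [1], [3, 1]), (4, [], [4]), (0, [1], [5, 6]), (1, [], [2, 5]), (1, [], [3, 6]), (4, [], [4])]),
  (2, 7, [(0, [0], [0, 1]), (0, [0], [2, 0]), (0, [1], [3, 1]), (4, [], [4]), (0, [1], [5, 6]), (1, [], [2, 5]), (1, [], [3, 4]), (4, [], [6])]),
  (2, 7, [(0, [0], [0, 1]), (0, [0], [2, 0]), (0, [1], [3, 1]), (4, [], [4]), (0, [1], [5, 6]), (1, [], [3, 5]), (1, [], [2, 4]), (4, [], [6])]),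
  (2, 7, [(0, [0], [0, 1]), (0, [0], [2, 0]), (0, [1], [3, 1]), (4, [], [4]), (0, [1], [5, 6]), (1, [], [4, 5]), (1, [], [2, 3]), (4, [], [6])]),
  (2, 7, [(0, [0], [0, 1]), (0, [0], [2, 0]), (0, [1], [3, 1]), (4, [], [4]), (0, [1], [2, 5]), (1, [], [5, 6]), (1, [], [3, 6]), (4, [], [4])]),
  (2, 7, [(0, [0], [0, 1]), (0, [0], [2, 0]), (0, [1], [3, 1]), (4, [], [4]), (0, [1], [3, 5]), (1, [], [5, 6]), (1, [], [2, 6]), (4, [], [4])]),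
  (2, 7, [(0, [0], [0, 1]), (0, [0], [2, 0]), (0, [1], [3, 1]), (4, [], [4]), (0, [1], [2, 5]), (1, [], [5, 6]), (1, [], [3, 4]), (4, [], [6])]),
  (2, 7, [(0, [0], [0, 1]), (0, [0], [2, 0]), (0, [1], [3, 1]), (4, [], [4]), (0, [1], [3, 5]), (1, [], [5, 6]), (1, [], [2, 4]), (4, [], [6])]),
  (2, 7, [(0, [0], [0, 1]), (0, [0], [2, 0]), (0, [1], [3, 1]), (4, [], [4]), (0, [1], [2, 3]), (1, [], [5, 6]), (1, [], [5, 6]), (4, [], [4])]),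
  (2, 7, [(0, [0], [0, 1]), (0, [0], [2, 0]), (0, [1], [3, 1]), (4, [], [4]), (0, [1], [2, 3]), (1, [], [5, 6]), (1, [], [4, 5]), (4, [], [6])]),
  (2, 7, [(0, [0], [0, 1]), (0, [0], [2, 0]), (0, [1], [3, 4]), (4, [], [1]), (0, [1], [5, 6]), (1, [], [2, 5]), (1, [], [3, 6]), (4, [], [4])]),
  (2, 7, [(0, [0], [0, 1]), (0, [0], [2, 0]), (0, [1], [3, 4]), (4, [], [1]), (0, [1], [5, 6]), (1, [], [3, 5]), (1, [], [4, 6]), (4, [], [2])]),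
  (2, 7, [(0, [0], [0, 1]), (0, [0], [2, 0]), (0, [1], [3, 4]), (4, [], [1]), (0, [1], [3, 5]), (1, [], [5, 6]), (1, [], [4, 6]), (4, [], [2])]),
  (2, 7, [(0, [0], [0, 1]), (0, [0], [2, 0]), (0, [1], [3, 4]), (4, [], [1]), (0, [1], [3, 5]), (1, [], [5, 6]), (1, [], [2, 4]), (4, [], [6])]),
  (2, 7, [(0, [0], [0, 1]), (0, [0], [2, 3]), (0, [1], [0, 1]), (4, [], [4]), (0, [1], [5, 6]), (1, [], [2, 5]), (1, [], [3, 6]), (4, [], [4])]),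
  (2, 7, [(0, [0], [0, 1]), (0, [0], [2, 3]), (0, [1], [0, 1]), (4, [], [4]), (0, [1], [2, 5]), (1, [], [5, 6]), (1, [], [3, 6]), (4, [], [4])]),
  (2, 7, [(0, [0], [0, 1]), (0, [0], [2, 3]), (0, [1], [0, 1]), (4, [], [4]), (0, [1], [2, 5]), (1, [], [5, 6]), (1, [], [3, 4]), (4, [], [6])]),
  (2, 7, [(0, [0], [0, 1]), (0, [0], [2, 3]), (0, [1], [4, 0]), (4, [], [1]), (0, [1], [5, 6]), (1, [], [5, 6]), (1, [], [2, 4]), (4, [], [3])]),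
  (2, 7, [(0, [0], [0, 1]), (0, [0], [2, 3]), (0, [1], [4, 0]), (4, [], [1]), (0, [1], [5, 6]), (1, [], [2, 5]), (1, [], [3, 6]), (4, [], [4])]),
  (2, 7, [(0, [0], [0, 1]), (0, [0], [2, 3]), (0, [1], [4, 0]), (4, [], [1]), (0, [1], [5, 6]), (1, [], [2, 5]), (1, [], [4, 6]), (4, [], [3])]),
  (2, 7, [(0, [0], [0, 1]), (0, [0], [2, 3]), (0, [1], [4, 0]), (4, [], [1]), (0, [1], [5, 6]), (1, [], [2, 5]), (1, [], [3, 4]), (4, [], [6])]),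
  (2, 7, [(0, [0], [0, 1]), (0, [0], [2, 3]), (0, [1], [4, 0]), (4, [], [1]), (0, [1], [2, 5]), (1, [], [5, 6]), (1, [], [3, 6]), (4, [], [4])]),
  (2, 7, [(0, [0], [0, 1]), (0, [0], [2, 3]), (0, [1], [4, 0]), (4, [], [1]), (0, [1], [2, 5]), (1, [], [5, 6]), (1, [], [4, 6]), (4, [], [3])]),
  (2, 7, [(0, [0], [0, 1]), (0, [0], [2, 3]), (0, [1], [4, 0]), (4, [], [1]), (0, [1], [2, 5]), (1, [], [3, 6]), (1, [], [4, 6]), (4, [], [5])]),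
  (2, 7, [(0, [0], [0, 1]), (0, [0], [2, 3]), (0, [1], [4, 0]), (4, [], [1]), (0, [1], [2, 5]), (1, [], [3, 6]), (1, [], [4, 5]), (4, [], [6])]),
  (2, 7, [(0, [0], [0, 1]), (0, [0], [2, 3]), (0, [1], [1, 3]), (4, [], [4]), (0, [1], [5, 6]), (1, [], [5, 6]), (1, [], [0, 2]), (4, [], [4])]),
  (2, 7, [(0, [0], [0, 1]), (0, [0], [2, 3]), (0, [1], [1, 3]), (4, [], [4]), (0, [1], [5, 6]), (1, [], [0, 5]), (1, [], [2, 6]), (4, [], [4])]),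
  (2, 7, [(0, [0], [0, 1]), (0, [0], [2, 3]), (0, [1], [1, 3]), (4, [], [4]), (0, [1], [5, 6]), (1, [], [0, 5]), (1, [], [2, 4]), (4, [], [6])]),
  (2, 7, [(0, [0], [0, 1]), (0, [0], [2, 3]), (0, [1], [1, 3]), (4, [], [4]), (0, [1], [5, 6]), (1, [], [4, 5]), (1, [], [0, 2]), (4, [], [6])]),
  (2, 7, [(0, [0], [0, 1]), (0, [0], [2, 3]), (0, [1], [1, 3]), (4, [], [4]), (0, [1], [0, 5]), (1, [], [5, 6]), (1, [], [2, 6]), (4, [], [4])]),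
  (2, 7, [(0, [0], [0, 1]), (0, [0], [2, 3]), (0, [1], [1, 3]), (4, [], [4]), (0, [1], [0, 5]), (1, [], [5, 6]), (1, [], [2, 4]), (4, [], [6])]),
  (2, 7, [(0, [0], [0, 1]), (0, [0], [2, 3]), (0, [1], [1, 3]), (4, [], [4]), (0, [1], [0, 2]), (1, [], [5, 6]), (1, [], [5, 6]), (4, [], [4])]),
  (2, 7, [(0, [0], [0, 1]), (0, [0], [2, 3]), (0, [1], [1, 3]), (4, [], [4]), (0, [1], [0, 2]), (1, [], [5, 6]), (1, [], [4, 5]), (4, [], [6])]),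
  (2, 7, [(0, [0], [0, 1]), (0, [0], [2, 3]), (0, [1], [4, 3]), (4, [], [1]), (0, [1], [5, 6]), (1, [], [4, 5]), (1, [], [0, 2]), (4, [], [6])]),
  (2, 7, [(0, [0], [0, 1]), (0, [0], [2, 1]), (0, [1], [3, 4]), (4, [], [4]), (0, [1], [5, 6]), (1, [], [0, 5]), (1, [], [2, 3]), (4, [], [6])]),
  (2, 7, [(0, [0], [0, 1]), (0, [0], [2, 1]), (0, [1], [3, 4]), (4, [], [5]), (0, [1], [3, 6]), (1, [], [0, 6]), (1, [], [2, 4]), (4, [], [5])]),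
  (2, 7, [(0, [0], [0, 1]), (0, [0], [2, 3]), (0, [1], [4, 1]), (4, [], [5]), (0, [1], [2, 6]), (1, [], [4, 6]), (1, [], [0, 3]), (4, [], [5])])]

def kl66 : List ℕ := [45, 55, 56, 114, 115, 122, 123, 128, 129, 131, 135, 136, 145, 146, 147, 149, 150, 208, 209, 210, 226, 227, 228, 229, 230, 231, 232, 233, 234, 244, 245, 255, 256, 258, 259, 271, 272, 273, 289, 290, 291, 292, 293, 294, 296, 297, 304, 305, 306, 307, 308, 309, 316, 317, 327, 334, 422, 433]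

def m66_0 : Base := (0, 1, [(0, [0], [0, 5]), (0, [1], [1, 2]), (1, [], [3, 5]), (4, [], [4])])

def l66_0 : Cov := [(120, 0, 1, [(0, [0], [0, 5]), (0, [1], [1, 2]), (1, [], [3, 5]), (4, [], [4])]),
  (-120, 0, 1, [(0, [0], [0, 5]), (0, [1], [1, 2]), (1, [], [4, 5]), (4, [], [3])]),
  (-120, 0, 1, [(0, [0], [0, 5]), (0, [1], [1, 3]), (1, [], [2, 5]), (4, [], [4])]),
  (120, 0, 1, [(0, [0], [0, 5]), (0, [1], [1, 3]), (1, [], [4, 5]), (4, [], [2])]),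
  (120, 0, 1, [(0, [0], [0, 5]), (0, [1], [1, 4]), (1, [], [2, 5]), (4, [], [3])]),
  (-120, 0, 1, [(0, [0], [0, 5]), (0, [1], [1, 4]), (1, [], [3, 5]), (4, [], [2])]),
  (-120, 0, 1, [(0, [0], [2, 5]), (0, [1], [0, 1]), (1, [], [3, 5]), (4, [], [4])]),
  (120, 0, 1, [(0, [0], [2, 5]), (0, [1], [0, 1]), (1, [], [4, 5]), (4, [], [3])]),
  (120, 0, 1, [(0, [0], [2, 5]), (0, [1], [1, 3]), (1, [], [0, 5]), (4, [], [4])]),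
  (-120, 0, 1, [(0, [0], [2, 5]), (0, [1], [1, 3]), (1, [], [4, 5]), (4, [], [0])]),
  (-120, 0, 1, [(0, [0], [2, 5]), (0, [1], [1, 4]), (1, [], [0, 5]), (4, [], [3])]),
  (120, 0, 1, [(0, [0], [2, 5]), (0, [1], [1, 4]), (1, [], [3, 5]), (4, [], [0])]),
  (120, 0, 1, [(0, [0], [3, 5]), (0, [1], [0, 1]), (1, [], [2, 5]), (4, [], [4])]),
  (-120, 0, 1, [(0, [0], [3, 5]), (0, [1], [0, 1]), (1, [], [4, 5]), (4, [], [2])]),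
  (-120, 0, 1, [(0, [0], [3, 5]), (0, [1], [1, 2]), (1, [], [0, 5]), (4, [], [4])]),
  (120, 0, 1, [(0, [0], [3, 5]), (0, [1], [1, 2]), (1, [], [4, 5]), (4, [], [0])]),
  (120, 0, 1, [(0, [0], [3, 5]), (0, [1], [1, 4]), (1, [], [0, 5]), (4, [], [2])]),
  (-120, 0, 1, [(0, [0], [3, 5]), (0, [1], [1, 4]), (1, [], [2, 5]), (4, [], [0])]),
  (-120, 0, 1, [(0, [0], [4, 5]), (0, [1], [0, 1]), (1, [], [2, 5]), (4, [], [3])]),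
  (120, 0, 1, [(0, [0], [4, 5]), (0, [1], [0, 1]), (1, [], [3, 5]), (4, [], [2])]),
  (120, 0, 1, [(0, [0], [4, 5]), (0, [1], [1, 2]), (1, [], [0, 5]), (4, [], [3])]),
  (-120, 0, 1, [(0, [0], [4, 5]), (0, [1], [1, 2]), (1, [], [3, 5]), (4, [], [0])]),
  (-120, 0, 1, [(0, [0], [4, 5]), (0, [1], [1, 3]), (1, [], [0, 5]), (4, [], [2])]),
  (120, 0, 1, [(0, [0], [4, 5]), (0, [1], [1, 3]), (1, [], [2, 5]), (4, [], [0])]),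
  (-120, 0, 1, [(0, [1], [0, 5]), (0, [0], [1, 2]), (1, [], [3, 5]), (4, [], [4])]),
  (120, 0, 1, [(0, [1], [0, 5]), (0, [0], [1, 2]), (1, [], [4, 5]), (4, [], [3])]),
  (120, 0, 1, [(0, [1], [0, 5]), (0, [0], [1, 3]), (1, [], [2, 5]), (4, [], [4])]),
  (-120, 0, 1, [(0, [1], [0, 5]), (0, [0], [1, 3]), (1, [], [4, 5]), (4, [], [2])]),
  (-120, 0, 1, [(0, [1], [0, 5]), (0, [0], [1, 4]), (1, [], [2, 5]), (4, [], [3])]),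
  (120, 0, 1, [(0, [1], [0, 5]), (0, [0], [1, 4]), (1, [], [3, 5]), (4, [], [2])]),
  (120, 0, 1, [(0, [1], [2, 5]), (0, [0], [0, 1]), (1, [], [3, 5]), (4, [], [4])]),
  (-120, 0, 1, [(0, [1], [2, 5]), (0, [0], [0, 1]), (1, [], [4, 5]), (4, [], [3])]),
  (-120, 0, 1, [(0, [1], [2, 5]), (0, [0], [1, 3]), (1, [], [0, 5]), (4, [], [4])]),
  (120, 0, 1, [(0, [1], [2, 5]), (0, [0], [1, 3]), (1, [], [4, 5]), (4, [], [0])]),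
  (120, 0, 1, [(0, [1], [2, 5]), (0, [0], [1, 4]), (1, [], [0, 5]), (4, [], [3])]),
  (-120, 0, 1, [(0, [1], [2, 5]), (0, [0], [1, 4]), (1, [], [3, 5]), (4, [], [0])]),
  (-120, 0, 1, [(0, [1], [3, 5]), (0, [0], [0, 1]), (1, [], [2, 5]), (4, [], [4])]),
  (120, 0, 1, [(0, [1], [3, 5]), (0, [0], [0, 1]), (1, [], [4, 5]), (4, [], [2])]),
  (120, 0, 1, [(0, [1], [3, 5]), (0, [0], [1, 2]), (1, [], [0, 5]), (4, [], [4])]),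
  (-120, 0, 1, [(0, [1], [3, 5]), (0, [0], [1, 2]), (1, [], [4, 5]), (4, [], [0])]),
  (-120, 0, 1, [(0, [1], [3, 5]), (0, [0], [1, 4]), (1, [], [0, 5]), (4, [], [2])]),
  (120, 0, 1, [(0, [1], [3, 5]), (0, [0], [1, 4]), (1, [], [2, 5]), (4, [], [0])]),
  (120, 0, 1, [(0, [1], [4, 5]), (0, [0], [0, 1]), (1, [], [2, 5]), (4, [], [3])]),
  (-120, 0, 1, [(0, [1], [4, 5]), (0, [0], [0, 1]), (1, [], [3, 5]), (4, [], [2])]),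
  (-120, 0, 1, [(0, [1], [4, 5]), (0, [0], [1, 2]), (1, [], [0, 5]), (4, [], [3])]),
  (120, 0, 1, [(0, [1], [4, 5]), (0, [0], [1, 2]), (1, [], [3, 5]), (4, [], [0])]),
  (120, 0, 1, [(0, [1], [4, 5]), (0, [0], [1, 3]), (1, [], [0, 5]), (4, [], [2])]),
  (-120, 0, 1, [(0, [1], [4, 5]), (0, [0], [1, 3]), (1, [], [2, 5]), (4, [], [0])])]

def z66_0 : Cov := [(0, 0, 1, [(0, [0], [0, 5]), (0, [1], [2, 3]), (1, [], [1, 5]), (4, [], [4])]),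
  (0, 0, 1, [(0, [0], [0, 5]), (0, [1], [2, 3]), (1, [], [4, 5]), (4, [], [1])]),
  (0, 0, 1, [(0, [0], [0, 5]), (0, [1], [2, 4]), (1, [], [1, 5]), (4, [], [3])]),
  (0, 0, 1, [(0, [0], [0, 5]), (0, [1], [2, 4]), (1, [], [3, 5]), (4, [], [1])]),
  (0, 0, 1, [(0, [0], [0, 5]), (0, [1], [3, 4]), (1, [], [1, 5]), (4, [], [2])]),
  (0, 0, 1, [(0, [0], [0, 5]), (0, [1], [3, 4]), (1, [], [2, 5]), (4, [], [1])]),
  (0, 0, 1, [(0, [0], [1, 5]), (0, [1], [0, 2]), (1, [], [3, 5]), (4, [], [4])]),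
  (0, 0, 1, [(0, [0], [1, 5]), (0, [1], [0, 2]), (1, [], [4, 5]), (4, [], [3])]),
  (0, 0, 1, [(0, [0], [1, 5]), (0, [1], [0, 3]), (1, [], [2, 5]), (4, [], [4])]),
  (0, 0, 1, [(0, [0], [1, 5]), (0, [1], [0, 3]), (1, [], [4, 5]), (4, [], [2])]),
  (0, 0, 1, [(0, [0], [1, 5]), (0, [1], [0, 4]), (1, [], [2, 5]), (4, [], [3])]),
  (0, 0, 1, [(0, [0], [1, 5]), (0, [1], [0, 4]), (1, [], [3, 5]), (4, [], [2])]),
  (0, 0, 1, [(0, [0], [1, 5]), (0, [1], [2, 3]), (1, [], [0, 5]), (4, [], [4])]),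
  (0, 0, 1, [(0, [0], [1, 5]), (0, [1], [2, 3]), (1, [], [4, 5]), (4, [], [0])]),
  (0, 0, 1, [(0, [0], [1, 5]), (0, [1], [2, 4]), (1, [], [0, 5]), (4, [], [3])]),
  (0, 0, 1, [(0, [0], [1, 5]), (0, [1], [2, 4]), (1, [], [3, 5]), (4, [], [0])]),
  (0, 0, 1, [(0, [0], [1, 5]), (0, [1], [3, 4]), (1, [], [0, 5]), (4, [], [2])]),
  (0, 0, 1, [(0, [0], [1, 5]), (0, [1], [3, 4]), (1, [], [2, 5]), (4, [], [0])]),
  (0, 0, 1, [(0, [0], [2, 5]), (0, [1], [0, 3]), (1, [], [1, 5]), (4, [], [4])]),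
  (0, 0, 1, [(0, [0], [2, 5]), (0, [1], [0, 3]), (1, [], [4, 5]), (4, [], [1])]),
  (0, 0, 1, [(0, [0], [2, 5]), (0, [1], [0, 4]), (1, [], [1, 5]), (4, [], [3])]),
  (0, 0, 1, [(0, [0], [2, 5]), (0, [1], [0, 4]), (1, [], [3, 5]), (4, [], [1])]),
  (0, 0, 1, [(0, [0], [2, 5]), (0, [1], [3, 4]), (1, [], [0, 5]), (4, [], [1])]),
  (0, 0, 1, [(0, [0], [2, 5]), (0, [1], [3, 4]), (1, [], [1, 5]), (4, [], [0])]),
  (0, 0, 1, [(0, [0], [3, 5]), (0, [1], [0, 2]), (1, [], [1, 5]), (4, [], [4])]),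
  (0, 0, 1, [(0, [0], [3, 5]), (0, [1], [0, 2]), (1, [], [4, 5]), (4, [], [1])]),
  (0, 0, 1, [(0, [0], [3, 5]), (0, [1], [0, 4]), (1, [], [1, 5]), (4, [], [2])]),
  (0, 0, 1, [(0, [0], [3, 5]), (0, [1], [0, 4]), (1, [], [2, 5]), (4, [], [1])]),
  (0, 0, 1, [(0, [0], [3, 5]), (0, [1], [2, 4]), (1, [], [0, 5]), (4, [], [1])]),
  (0, 0, 1, [(0, [0], [3, 5]), (0, [1], [2, 4]), (1, [], [1, 5]), (4, [], [0])]),
  (0, 0, 1, [(0, [0], [4, 5]), (0, [1], [0, 2]), (1, [], [1, 5]), (4, [], [3])]),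
  (0, 0, 1, [(0, [0], [4, 5]), (0, [1], [0, 2]), (1, [], [3, 5]), (4, [], [1])]),
  (0, 0, 1, [(0, [0], [4, 5]), (0, [1], [0, 3]), (1, [], [1, 5]), (4, [], [2])]),
  (0, 0, 1, [(0, [0], [4, 5]), (0, [1], [0, 3]), (1, [], [2, 5]), (4, [], [1])]),
  (0, 0, 1, [(0, [0], [4, 5]), (0, [1], [2, 3]), (1, [], [0, 5]), (4, [], [1])]),
  (0, 0, 1, [(0, [0], [4, 5]), (0, [1], [2, 3]), (1, [], [1, 5]), (4, [], [0])]),
  (0, 0, 1, [(0, [1], [0, 5]), (0, [0], [2, 3]), (1, [], [1, 5]), (4, [], [4])]),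
  (0, 0, 1, [(0, [1], [0, 5]), (0, [0], [2, 3]), (1, [], [4, 5]), (4, [], [1])]),
  (0, 0, 1, [(0, [1], [0, 5]), (0, [0], [2, 4]), (1, [], [1, 5]), (4, [], [3])]),
  (0, 0, 1, [(0, [1], [0, 5]), (0, [0], [2, 4]), (1, [], [3, 5]), (4, [], [1])]),
  (0, 0, 1, [(0, [1], [0, 5]), (0, [0], [3, 4]), (1, [], [1, 5]), (4, [], [2])]),
  (0, 0, 1, [(0, [1], [0, 5]), (0, [0], [3, 4]), (1, [], [2, 5]), (4, [], [1])]),
  (0, 0, 1, [(0, [1], [1, 5]), (0, [0], [0, 2]), (1, [], [3, 5]), (4, [], [4])]),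
  (0, 0, 1, [(0, [1], [1, 5]), (0, [0], [0, 2]), (1, [], [4, 5]), (4, [], [3])]),
  (0, 0, 1, [(0, [1], [1, 5]), (0, [0], [0, 3]), (1, [], [2, 5]), (4, [], [4])]),
  (0, 0, 1, [(0, [1], [1, 5]), (0, [0], [0, 3]), (1, [], [4, 5]), (4, [], [2])]),
  (0, 0, 1, [(0, [1], [1, 5]), (0, [0], [0, 4]), (1, [], [2, 5]), (4, [], [3])]),
  (0, 0, 1, [(0, [1], [1, 5]), (0, [0], [0, 4]), (1, [], [3, 5]), (4, [], [2])]),
  (0, 0, 1, [(0, [1], [1, 5]), (0, [0], [2, 3]), (1, [], [0, 5]), (4, [], [4])]),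
  (0, 0, 1, [(0, [1], [1, 5]), (0, [0], [2, 3]), (1, [], [4, 5]), (4, [], [0])]),
  (0, 0, 1, [(0, [1], [1, 5]), (0, [0], [2, 4]), (1, [], [0, 5]), (4, [], [3])]),
  (0, 0, 1, [(0, [1], [1, 5]), (0, [0], [2, 4]), (1, [], [3, 5]), (4, [], [0])]),
  (0, 0, 1, [(0, [1], [1, 5]), (0, [0], [3, 4]), (1, [], [0, 5]), (4, [], [2])]),
  (0, 0, 1, [(0, [1], [1, 5]), (0, [0], [3, 4]), (1, [], [2, 5]), (4, [], [0])]),
  (0, 0, 1, [(0, [1], [2, 5]), (0, [0], [0, 3]), (1, [], [1, 5]), (4, [], [4])]),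
  (0, 0, 1, [(0, [1], [2, 5]), (0, [0], [0, 3]), (1, [], [4, 5]), (4, [], [1])]),
  (0, 0, 1, [(0, [1], [2, 5]), (0, [0], [0, 4]), (1, [], [1, 5]), (4, [], [3])]),
  (0, 0, 1, [(0, [1], [2, 5]), (0, [0], [0, 4]), (1, [], [3, 5]), (4, [], [1])]),
  (0, 0, 1, [(0, [1], [2, 5]), (0, [0], [3, 4]), (1, [], [0, 5]), (4, [], [1])]),
  (0, 0, 1, [(0, [1], [2, 5]), (0, [0], [3, 4]), (1, [], [1, 5]), (4, [], [0])]),
  (0, 0, 1, [(0, [1], [3, 5]), (0, [0], [0, 2]), (1, [], [1, 5]), (4, [], [4])]),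
  (0, 0, 1, [(0, [1], [3, 5]), (0, [0], [0, 2]), (1, [], [4, 5]), (4, [], [1])]),
  (0, 0, 1, [(0, [1], [3, 5]), (0, [0], [0, 4]), (1, [], [1, 5]), (4, [], [2])]),
  (0, 0, 1, [(0, [1], [3, 5]), (0, [0], [0, 4]), (1, [], [2, 5]), (4, [], [1])]),
  (0, 0, 1, [(0, [1], [3, 5]), (0, [0], [2, 4]), (1, [], [0, 5]), (4, [], [1])]),
  (0, 0, 1, [(0, [1], [3, 5]), (0, [0], [2, 4]), (1, [], [1, 5]), (4, [], [0])]),
  (0, 0, 1, [(0, [1], [4, 5]), (0, [0], [0, 2]), (1, [], [1, 5]), (4, [], [3])]),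
  (0, 0, 1, [(0, [1], [4, 5]), (0, [0], [0, 2]), (1, [], [3, 5]), (4, [], [1])]),
  (0, 0, 1, [(0, [1], [4, 5]), (0, [0], [0, 3]), (1, [], [1, 5]), (4, [], [2])]),
  (0, 0, 1, [(0, [1], [4, 5]), (0, [0], [0, 3]), (1, [], [2, 5]), (4, [], [1])]),
  (0, 0, 1, [(0, [1], [4, 5]), (0, [0], [2, 3]), (1, [], [0, 5]), (4, [], [1])]),
  (0, 0, 1, [(0, [1], [4, 5]), (0, [0], [2, 3]), (1, [], [1, 5]), (4, [], [0])])]

def w66_0 : List (List Wit) := [[(0, 0, 0, 0, 0), (1, 0, 0, 0, 0), (2, 0, 0, 0, 0), (3, 0, 0, 0, 0), (4, 0, 0, 0, 0), (5, 0, 0, 0, 0), (0, 0, 0, 0, 0), (1, 0, 0, 0, 0), (48, 0, 0, 0, 0), (49, 0, 0, 0, 0), (50, 0, 0, 0, 0), (51, 0, 0, 0, 0), (2, 0, 0, 0, 0), (3, 0, 0, 0, 0), (48, 0, 0, 0, 0), (49, 0, 0, 0, 0), (52, 0, 0, 0, 0), (53, 0, 0, 0, 0), (4, 0, 0, 0, 0), (5, 0, 0, 0, 0), (50, 0, 0, 0, 0), (51, 0, 0, 0, 0),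 (52, 0, 0, 0, 0), (53, 0, 0, 0, 0), (54, 0, 0, 0, 0), (55, 0, 0, 0, 0), (56, 0, 0, 0, 0), (57, 0, 0, 0, 0), (58, 0, 0, 0, 0), (59, 0, 0, 0, 0), (54, 0, 0, 0, 0), (55, 0, 0, 0, 0), (60, 0, 0, 0, 0), (61, 0, 0, 0, 0), (62, 0, 0, 0, 0), (63, 0, 0, 0, 0), (56, 0, 0, 0, 0), (57, 0, 0, 0, 0), (60, 0, 0, 0, 0), (61, 0, 0, 0, 0), (64, 0, 0, 0, 0), (65, 0, 0, 0, 0), (58, 0, 0, 0, 0), (59, 0, 0, 0, 0), (62, 0, 0, 0, 0), (63, 0, 0, 0, 0), (64, 0, 0, 0, 0), (65, 0, 0, 0, 0), (6, 0, 0, 0, 0), (7, 0, 0, 0, 0), (66, 0, 0, 0, 0), (67, 0, 0, 0, 0), (68, 0, 0, 0, 0), (69, 0, 0, 0, 0), (6, 0, 0, 0, 0), (7, 0, 0, 0, 0), (8, 0, 0, 0, 0), (9, 0, 0, 0, 0), (10, 0, 0, 0, 0), (11, 0, 0, 0, 0), (66, 0, 0, 0, 0), (67, 0, 0, 0, 0), (8, 0, 0, 0, 0), (9, 0, 0, 0, 0), (70, 0, 0, 0, 0), (71, 0, 0, 0, 0), (68, 0, 0, 0, 0), (69, 0, 0, 0, 0), (10, 0,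 0, 0, 0), (11, 0, 0, 0, 0), (70, 0, 0, 0, 0), (71, 0, 0, 0, 0), (12, 0, 0, 0, 0), (13, 0, 0, 0, 0), (72, 0, 0, 0, 0), (73, 0, 0, 0, 0), (74, 0, 0, 0, 0), (75, 0, 0, 0, 0), (12, 0, 0, 0, 0), (13, 0, 0, 0, 0), (14, 0, 0, 0, 0), (15, 0, 0, 0, 0), (16, 0, 0, 0, 0), (17, 0, 0, 0, 0), (72, 0, 0, 0, 0), (73, 0, 0, 0, 0), (14, 0, 0, 0, 0), (15, 0, 0, 0, 0), (76, 0, 0, 0, 0), (77, 0, 0, 0, 0), (74, 0, 0, 0, 0), (75, 0, 0, 0, 0), (16, 0, 0, 0, 0), (17, 0, 0, 0, 0), (76, 0, 0, 0, 0), (77, 0, 0, 0, 0), (18, 0, 0, 0, 0), (19, 0, 0, 0, 0), (78, 0, 0, 0, 0), (79, 0, 0, 0, 0), (80, 0, 0, 0, 0), (81, 0, 0, 0, 0), (18, 0, 0, 0, 0), (19, 0, 0, 0, 0), (20, 0, 0, 0, 0), (21, 0, 0, 0, 0), (22, 0, 0, 0, 0), (23, 0, 0, 0, 0), (78, 0, 0, 0, 0), (79, 0, 0, 0, 0), (20, 0, 0, 0, 0), (21, 0, 0, 0, 0), (82, 0, 0, 0, 0), (83, 0, 0, 0, 0), (80, 0,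 0, 0, 0), (81, 0, 0, 0, 0), (22, 0, 0, 0, 0), (23, 0, 0, 0, 0), (82, 0, 0, 0, 0), (83, 0, 0, 0, 0)],
  [(24, 0, 0, 0, 0), (25, 0, 0, 0, 0), (26, 0, 0, 0, 0), (27, 0, 0, 0, 0), (28, 0, 0, 0, 0), (29, 0, 0, 0, 0), (24, 0, 0, 0, 0), (25, 0, 0, 0, 0), (84, 0, 0, 0, 0), (85, 0, 0, 0, 0), (86, 0, 0, 0, 0), (87, 0, 0, 0, 0), (26, 0, 0, 0, 0), (27, 0, 0, 0, 0), (84, 0, 0, 0, 0), (85, 0, 0, 0, 0), (88, 0, 0, 0, 0), (89, 0, 0, 0, 0), (28, 0, 0, 0, 0), (29, 0, 0, 0, 0), (86, 0, 0, 0, 0), (87, 0, 0, 0, 0), (88, 0, 0, 0, 0), (89, 0, 0, 0, 0), (90, 0, 0, 0, 0), (91, 0, 0, 0, 0), (92, 0, 0, 0, 0), (93, 0, 0, 0, 0), (94, 0, 0, 0, 0), (95, 0, 0, 0, 0), (90, 0, 0, 0, 0), (91, 0, 0, 0, 0), (96, 0, 0, 0, 0), (97, 0, 0, 0, 0), (98, 0, 0, 0, 0), (99, 0, 0, 0, 0), (92, 0, 0, 0, 0), (93, 0, 0, 0, 0), (96, 0, 0, 0, 0), (97, 0, 0, 0, 0), (100,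 0, 0, 0, 0), (101, 0, 0, 0, 0), (94, 0, 0, 0, 0), (95, 0, 0, 0, 0), (98, 0, 0, 0, 0), (99, 0, 0, 0, 0), (100, 0, 0, 0, 0), (101, 0, 0, 0, 0), (30, 0, 0, 0, 0), (31, 0, 0, 0, 0), (102, 0, 0, 0, 0), (103, 0, 0, 0, 0), (104, 0, 0, 0, 0), (105, 0, 0, 0, 0), (30, 0, 0, 0, 0), (31, 0, 0, 0, 0), (32, 0, 0, 0, 0), (33, 0, 0, 0, 0), (34, 0, 0, 0, 0), (35, 0, 0, 0, 0), (102, 0, 0, 0, 0), (103, 0, 0, 0, 0), (32, 0, 0, 0, 0), (33, 0, 0, 0, 0), (106, 0, 0, 0, 0), (107, 0, 0, 0, 0), (104, 0, 0, 0, 0), (105, 0, 0, 0, 0), (34, 0, 0, 0, 0), (35, 0, 0, 0, 0), (106, 0, 0, 0, 0), (107, 0, 0, 0, 0), (36, 0, 0, 0, 0), (37, 0, 0, 0, 0), (108, 0, 0, 0, 0), (109, 0, 0, 0, 0), (110, 0, 0, 0, 0), (111, 0, 0, 0, 0), (36, 0, 0, 0, 0), (37, 0, 0, 0, 0), (38, 0, 0, 0, 0), (39, 0, 0, 0, 0), (40, 0, 0, 0, 0), (41, 0, 0, 0, 0), (108, 0, 0, 0, 0), (109,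 0, 0, 0, 0), (38, 0, 0, 0, 0), (39, 0, 0, 0, 0), (112, 0, 0, 0, 0), (113, 0, 0, 0, 0), (110, 0, 0, 0, 0), (111, 0, 0, 0, 0), (40, 0, 0, 0, 0), (41, 0, 0, 0, 0), (112, 0, 0, 0, 0), (113, 0, 0, 0, 0), (42, 0, 0, 0, 0), (43, 0, 0, 0, 0), (114, 0, 0, 0, 0), (115, 0, 0, 0, 0), (116, 0, 0, 0, 0), (117, 0, 0, 0, 0), (42, 0, 0, 0, 0), (43, 0, 0, 0, 0), (44, 0, 0, 0, 0), (45, 0, 0, 0, 0), (46, 0, 0, 0, 0), (47, 0, 0, 0, 0), (114, 0, 0, 0, 0), (115, 0, 0, 0, 0), (44, 0, 0, 0, 0), (45, 0, 0, 0, 0), (118, 0, 0, 0, 0), (119, 0, 0, 0, 0), (116, 0, 0, 0, 0), (117, 0, 0, 0, 0), (46, 0, 0, 0, 0), (47, 0, 0, 0, 0), (118, 0, 0, 0, 0), (119, 0, 0, 0, 0)]]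

def m66_1 : Base := (0, 1, [(0, [0], [0, 5]), (0, [1], [2, 5]), (1, [], [1, 3]), (4, [], [4])])

def l66_1 : Cov := [(240, 0, 1, [(0, [0], [0, 5]), (0, [1], [2, 5]), (1, [], [1, 3]), (4, [], [4])]),
  (-240, 0, 1, [(0, [0], [0, 5]), (0, [1], [2, 5]), (1, [], [1, 4]), (4, [], [3])]),
  (-240, 0, 1, [(0, [0], [0, 5]), (0, [1], [3, 5]), (1, [], [1, 2]), (4, [], [4])]),
  (240, 0, 1, [(0, [0], [0, 5]), (0, [1], [3, 5]), (1, [], [1, 4]), (4, [], [2])]),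
  (240, 0, 1, [(0, [0], [0, 5]), (0, [1], [4, 5]), (1, [], [1, 2]), (4, [], [3])]),
  (-240, 0, 1, [(0, [0], [0, 5]), (0, [1], [4, 5]), (1, [], [1, 3]), (4, [], [2])]),
  (240, 0, 1, [(0, [0], [2, 5]), (0, [1], [3, 5]), (1, [], [0, 1]), (4, [], [4])]),
  (-240, 0, 1, [(0, [0], [2, 5]), (0, [1], [4, 5]), (1, [], [0, 1]), (4, [], [3])]),
  (-240, 0, 1, [(0, [0], [2, 5]), (0, [1], [0, 5]), (1, [], [1, 3]), (4, [], [4])]),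
  (240, 0, 1, [(0, [0], [2, 5]), (0, [1], [0, 5]), (1, [], [1, 4]), (4, [], [3])]),
  (-240, 0, 1, [(0, [0], [2, 5]), (0, [1], [3, 5]), (1, [], [1, 4]), (4, [], [0])]),
  (240, 0, 1, [(0, [0], [2, 5]), (0, [1], [4, 5]), (1, [], [1, 3]), (4, [], [0])]),
  (-240, 0, 1, [(0, [0], [3, 5]), (0, [1], [2, 5]), (1, [], [0, 1]), (4, [], [4])]),
  (240, 0, 1, [(0, [0], [3, 5]), (0, [1], [4, 5]), (1, [], [0, 1]), (4, [], [2])]),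
  (240, 0, 1, [(0, [0], [3, 5]), (0, [1], [0, 5]), (1, [], [1, 2]), (4, [], [4])]),
  (-240, 0, 1, [(0, [0], [3, 5]), (0, [1], [0, 5]), (1, [], [1, 4]), (4, [], [2])]),
  (240, 0, 1, [(0, [0], [3, 5]), (0, [1], [2, 5]), (1, [], [1, 4]), (4, [], [0])]),
  (-240, 0, 1, [(0, [0], [3, 5]), (0, [1], [4, 5]), (1, [], [1, 2]), (4, [], [0])]),
  (240, 0, 1, [(0, [0], [4, 5]), (0, [1], [2, 5]), (1, [], [0, 1]), (4, [], [3])]),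
  (-240, 0, 1, [(0, [0], [4, 5]), (0, [1], [3, 5]), (1, [], [0, 1]), (4, [], [2])]),
  (-240, 0, 1, [(0, [0], [4, 5]), (0, [1], [0, 5]), (1, [], [1, 2]), (4, [], [3])]),
  (240, 0, 1, [(0, [0], [4, 5]), (0, [1], [0, 5]), (1, [], [1, 3]), (4, [], [2])]),
  (-240, 0, 1, [(0, [0], [4, 5]), (0, [1], [2, 5]), (1, [], [1, 3]), (4, [], [0])]),
  (240, 0, 1, [(0, [0], [4, 5]), (0, [1], [3, 5]), (1, [], [1, 2]), (4, [], [0])])]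

def z66_1 : Cov := [(0, 0, 1, [(0, [0], [0, 5]), (0, [1], [1, 5]), (1, [], [2, 3]), (4, [], [4])]),
  (0, 0, 1, [(0, [0], [0, 5]), (0, [1], [1, 5]), (1, [], [2, 4]), (4, [], [3])]),
  (0, 0, 1, [(0, [0], [0, 5]), (0, [1], [3, 5]), (1, [], [2, 4]), (4, [], [1])]),
  (0, 0, 1, [(0, [0], [0, 5]), (0, [1], [4, 5]), (1, [], [2, 3]), (4, [], [1])]),
  (0, 0, 1, [(0, [0], [0, 5]), (0, [1], [1, 5]), (1, [], [3, 4]), (4, [], [2])]),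
  (0, 0, 1, [(0, [0], [0, 5]), (0, [1], [2, 5]), (1, [], [3, 4]), (4, [], [1])]),
  (0, 0, 1, [(0, [0], [1, 5]), (0, [1], [2, 5]), (1, [], [0, 3]), (4, [], [4])]),
  (0, 0, 1, [(0, [0], [1, 5]), (0, [1], [2, 5]), (1, [], [0, 4]), (4, [], [3])]),
  (0, 0, 1, [(0, [0], [1, 5]), (0, [1], [3, 5]), (1, [], [0, 2]), (4, [], [4])]),
  (0, 0, 1, [(0, [0], [1, 5]), (0, [1], [3, 5]), (1, [], [0, 4]), (4, [], [2])]),
  (0, 0, 1, [(0, [0], [1, 5]), (0, [1], [4, 5]), (1, [], [0, 2]), (4, [], [3])]),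
  (0, 0, 1, [(0, [0], [1, 5]), (0, [1], [4, 5]), (1, [], [0, 3]), (4, [], [2])]),
  (0, 0, 1, [(0, [0], [1, 5]), (0, [1], [0, 5]), (1, [], [2, 3]), (4, [], [4])]),
  (0, 0, 1, [(0, [0], [1, 5]), (0, [1], [0, 5]), (1, [], [2, 4]), (4, [], [3])]),
  (0, 0, 1, [(0, [0], [1, 5]), (0, [1], [3, 5]), (1, [], [2, 4]), (4, [], [0])]),
  (0, 0, 1, [(0, [0], [1, 5]), (0, [1], [4, 5]), (1, [], [2, 3]), (4, [], [0])]),
  (0, 0, 1, [(0, [0], [1, 5]), (0, [1], [0, 5]), (1, [], [3, 4]), (4, [], [2])]),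
  (0, 0, 1, [(0, [0], [1, 5]), (0, [1], [2, 5]), (1, [], [3, 4]), (4, [], [0])]),
  (0, 0, 1, [(0, [0], [2, 5]), (0, [1], [1, 5]), (1, [], [0, 3]), (4, [], [4])]),
  (0, 0, 1, [(0, [0], [2, 5]), (0, [1], [1, 5]), (1, [], [0, 4]), (4, [], [3])]),
  (0, 0, 1, [(0, [0], [2, 5]), (0, [1], [3, 5]), (1, [], [0, 4]), (4, [], [1])]),
  (0, 0, 1, [(0, [0], [2, 5]), (0, [1], [4, 5]), (1, [], [0, 3]), (4, [], [1])]),
  (0, 0, 1, [(0, [0], [2, 5]), (0, [1], [0, 5]), (1, [], [3, 4]), (4, [], [1])]),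
  (0, 0, 1, [(0, [0], [2, 5]), (0, [1], [1, 5]), (1, [], [3, 4]), (4, [], [0])]),
  (0, 0, 1, [(0, [0], [3, 5]), (0, [1], [1, 5]), (1, [], [0, 2]), (4, [], [4])]),
  (0, 0, 1, [(0, [0], [3, 5]), (0, [1], [1, 5]), (1, [], [0, 4]), (4, [], [2])]),
  (0, 0, 1, [(0, [0], [3, 5]), (0, [1], [2, 5]), (1, [], [0, 4]), (4, [], [1])]),
  (0, 0, 1, [(0, [0], [3, 5]), (0, [1], [4, 5]), (1, [], [0, 2]), (4, [], [1])]),
  (0, 0, 1, [(0, [0], [3, 5]), (0, [1], [0, 5]), (1, [], [2, 4]), (4, [], [1])]),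
  (0, 0, 1, [(0, [0], [3, 5]), (0, [1], [1, 5]), (1, [], [2, 4]), (4, [], [0])]),
  (0, 0, 1, [(0, [0], [4, 5]), (0, [1], [1, 5]), (1, [], [0, 2]), (4, [], [3])]),
  (0, 0, 1, [(0, [0], [4, 5]), (0, [1], [1, 5]), (1, [], [0, 3]), (4, [], [2])]),
  (0, 0, 1, [(0, [0], [4, 5]), (0, [1], [2, 5]), (1, [], [0, 3]), (4, [], [1])]),
  (0, 0, 1, [(0, [0], [4, 5]), (0, [1], [3, 5]), (1, [], [0, 2]), (4, [], [1])]),
  (0, 0, 1, [(0, [0], [4, 5]), (0, [1], [0, 5]), (1, [], [2, 3]), (4, [], [1])]),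
  (0, 0, 1, [(0, [0], [4, 5]), (0, [1], [1, 5]), (1, [], [2, 3]), (4, [], [0])])]

def w66_1 : List (List Wit) := [[(0, 0, 0, 0, 0), (1, 0, 0, 0, 0), (2, 0, 0, 0, 0), (3, 0, 0, 0, 0), (4, 0, 0, 0, 0), (5, 0, 0, 0, 0), (24, 0, 0, 0, 0), (25, 0, 0, 0, 0), (2, 0, 0, 0, 0), (26, 0, 0, 0, 0), (4, 0, 0, 0, 0), (27, 0, 0, 0, 0), (24, 0, 0, 0, 0), (28, 0, 0, 0, 0), (0, 0, 0, 0, 0), (29, 0, 0, 0, 0), (5, 0, 0, 0, 0), (27, 0, 0, 0, 0), (25, 0, 0, 0, 0), (28, 0, 0, 0, 0), (1, 0, 0, 0, 0), (29, 0, 0, 0, 0), (3, 0, 0, 0, 0), (26, 0, 0, 0, 0), (30, 0, 0, 0, 0), (31, 0, 0, 0, 0), (32, 0, 0, 0, 0), (33, 0, 0, 0, 0), (34, 0, 0, 0, 0), (35, 0, 0, 0, 0), (36, 0, 0, 0, 0), (37, 0, 0, 0, 0), (32, 0, 0, 0, 0), (38, 0, 0, 0, 0), (34, 0, 0, 0, 0), (39, 0, 0, 0, 0), (36, 0, 0, 0, 0), (40, 0, 0, 0, 0), (30, 0, 0, 0, 0), (41, 0, 0, 0, 0), (35,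 0, 0, 0, 0), (39, 0, 0, 0, 0), (37, 0, 0, 0, 0), (40, 0, 0, 0, 0), (31, 0, 0, 0, 0), (41, 0, 0, 0, 0), (33, 0, 0, 0, 0), (38, 0, 0, 0, 0), (42, 0, 0, 0, 0), (43, 0, 0, 0, 0), (6, 0, 0, 0, 0), (44, 0, 0, 0, 0), (7, 0, 0, 0, 0), (45, 0, 0, 0, 0), (8, 0, 0, 0, 0), (9, 0, 0, 0, 0), (6, 0, 0, 0, 0), (10, 0, 0, 0, 0), (7, 0, 0, 0, 0), (11, 0, 0, 0, 0), (8, 0, 0, 0, 0), (46, 0, 0, 0, 0), (42, 0, 0, 0, 0), (47, 0, 0, 0, 0), (45, 0, 0, 0, 0), (11, 0, 0, 0, 0), (9, 0, 0, 0, 0), (46, 0, 0, 0, 0), (43, 0, 0, 0, 0), (47, 0, 0, 0, 0), (44, 0, 0, 0, 0), (10, 0, 0, 0, 0), (48, 0, 0, 0, 0), (49, 0, 0, 0, 0), (12, 0, 0, 0, 0), (50, 0, 0, 0, 0), (13, 0, 0, 0, 0), (51, 0, 0, 0, 0), (14, 0, 0, 0, 0), (15, 0, 0, 0, 0), (12, 0, 0, 0, 0), (16, 0, 0, 0, 0), (13, 0, 0, 0, 0), (17, 0, 0, 0, 0), (14, 0, 0, 0, 0), (52, 0, 0, 0, 0), (48, 0, 0, 0,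 0), (53, 0, 0, 0, 0), (51, 0, 0, 0, 0), (17, 0, 0, 0, 0), (15, 0, 0, 0, 0), (52, 0, 0, 0, 0), (49, 0, 0, 0, 0), (53, 0, 0, 0, 0), (50, 0, 0, 0, 0), (16, 0, 0, 0, 0), (54, 0, 0, 0, 0), (55, 0, 0, 0, 0), (18, 0, 0, 0, 0), (56, 0, 0, 0, 0), (19, 0, 0, 0, 0), (57, 0, 0, 0, 0), (20, 0, 0, 0, 0), (21, 0, 0, 0, 0), (18, 0, 0, 0, 0), (22, 0, 0, 0, 0), (19, 0, 0, 0, 0), (23, 0, 0, 0, 0), (20, 0, 0, 0, 0), (58, 0, 0, 0, 0), (54, 0, 0, 0, 0), (59, 0, 0, 0, 0), (57, 0, 0, 0, 0), (23, 0, 0, 0, 0), (21, 0, 0, 0, 0), (58, 0, 0, 0, 0), (55, 0, 0, 0, 0), (59, 0, 0, 0, 0), (56, 0, 0, 0, 0), (22, 0, 0, 0, 0)],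
  [(8, 0, 0, 0, 0), (9, 0, 0, 0, 0), (14, 0, 0, 0, 0), (15, 0, 0, 0, 0), (20, 0, 0, 0, 0), (21, 0, 0, 0, 0), (36, 0, 0, 0, 0), (37, 0, 0, 0, 0), (14, 0, 0, 0, 0), (52, 0, 0, 0, 0), (20, 0, 0, 0, 0), (58, 0, 0, 0, 0), (36, 0, 0, 0, 0), (40, 0, 0, 0, 0), (8, 0, 0, 0, 0), (46, 0, 0, 0, 0), (21, 0, 0, 0, 0), (58, 0, 0, 0, 0), (37, 0, 0, 0, 0), (40, 0, 0, 0, 0), (9, 0, 0, 0, 0), (46, 0, 0, 0, 0), (15, 0, 0, 0, 0), (52, 0, 0, 0, 0), (42, 0, 0, 0, 0), (43, 0, 0, 0, 0), (48, 0, 0, 0, 0), (49, 0, 0, 0, 0), (54, 0, 0, 0, 0), (55, 0, 0, 0, 0), (24, 0, 0, 0, 0), (25, 0, 0, 0, 0), (48, 0, 0, 0, 0), (53, 0, 0, 0, 0), (54, 0, 0, 0, 0), (59, 0, 0, 0, 0), (24, 0, 0, 0, 0), (28, 0, 0, 0, 0), (42, 0, 0, 0, 0), (47, 0, 0, 0, 0), (55, 0, 0, 0, 0), (59, 0, 0, 0, 0), (25, 0, 0, 0, 0), (28, 0, 0, 0, 0), (43, 0, 0, 0, 0), (47, 0, 0, 0, 0), (49,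 0, 0, 0, 0), (53, 0, 0, 0, 0), (30, 0, 0, 0, 0), (31, 0, 0, 0, 0), (12, 0, 0, 0, 0), (50, 0, 0, 0, 0), (18, 0, 0, 0, 0), (56, 0, 0, 0, 0), (0, 0, 0, 0, 0), (1, 0, 0, 0, 0), (12, 0, 0, 0, 0), (16, 0, 0, 0, 0), (18, 0, 0, 0, 0), (22, 0, 0, 0, 0), (0, 0, 0, 0, 0), (29, 0, 0, 0, 0), (30, 0, 0, 0, 0), (41, 0, 0, 0, 0), (56, 0, 0, 0, 0), (22, 0, 0, 0, 0), (1, 0, 0, 0, 0), (29, 0, 0, 0, 0), (31, 0, 0, 0, 0), (41, 0, 0, 0, 0), (50, 0, 0, 0, 0), (16, 0, 0, 0, 0), (32, 0, 0, 0, 0), (33, 0, 0, 0, 0), (6, 0, 0, 0, 0), (44, 0, 0, 0, 0), (19, 0, 0, 0, 0), (57, 0, 0, 0, 0), (2, 0, 0, 0, 0), (3, 0, 0, 0, 0), (6, 0, 0, 0, 0), (10, 0, 0, 0, 0), (19, 0, 0, 0, 0), (23, 0, 0, 0, 0), (2, 0, 0, 0, 0), (26, 0, 0, 0, 0), (32, 0, 0, 0, 0), (38, 0, 0, 0, 0), (57, 0, 0, 0, 0), (23, 0, 0, 0, 0), (3, 0, 0, 0, 0), (26, 0, 0, 0, 0), (33, 0, 0, 0, 0),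 (38, 0, 0, 0, 0), (44, 0, 0, 0, 0), (10, 0, 0, 0, 0), (34, 0, 0, 0, 0), (35, 0, 0, 0, 0), (7, 0, 0, 0, 0), (45, 0, 0, 0, 0), (13, 0, 0, 0, 0), (51, 0, 0, 0, 0), (4, 0, 0, 0, 0), (5, 0, 0, 0, 0), (7, 0, 0, 0, 0), (11, 0, 0, 0, 0), (13, 0, 0, 0, 0), (17, 0, 0, 0, 0), (4, 0, 0, 0, 0), (27, 0, 0, 0, 0), (34, 0, 0, 0, 0), (39, 0, 0, 0, 0), (51, 0, 0, 0, 0), (17, 0, 0, 0, 0), (5, 0, 0, 0, 0), (27, 0, 0, 0, 0), (35, 0, 0, 0, 0), (39, 0, 0, 0, 0), (45, 0, 0, 0, 0), (11, 0, 0, 0, 0)]]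

theorem tr66 : trK keys lk66 kl66 = true := by
  decide +kernel

theorem x66_0 : expB 2 5 dg12 dg9 m66_0 (l66_0 ++ z66_0) w66_0 = true := by
  decide +kernel

theorem x66_1 : expB 2 5 dg12 dg9 m66_1 (l66_1 ++ z66_1) w66_1 = true := by
  decide +kernel

theorem t66_0_0 : chkS lk66 2 5 [(1, m66_0)] l66_0
  [(18, 1, 1, 87318786, 56905761), (19, 1, 1, 87441666, 73617441), (56, 16, 16, 33907761, 54662661), (34, 1, 1, 88482051, 73728801), (34, 1, 1, 72442371, 55968321), (33, 1, 1, 88236291, 56951841), (25, 1, 1, 55861506, 55861281), (27, 1, 1, 55861506, 55861281), (21, 1, 1, 55845126, 5530401), (22, 1, 1, 55845126, 5530401), (4, 1, 1, 54616581, 50684481), (3, 1, 1, 54616581, 50684481), (21, 1, 1, 87319041, 56906241), (4, 1, 1, 70668546, 70668321), (17, 1, 1, 87318786, 56905761), (6, 1, 1, 69619971, 70649121), (32, 1, 1, 88236291,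 56951841), (31, 1, 1, 87122436, 56644161), (22, 1, 1, 87441921, 73617921), (3, 1, 1, 70607106, 54939681), (6, 1, 1, 37970181, 50677281), (5, 1, 1, 69558531, 54920481), (31, 1, 1, 55845126, 5530401), (55, 1, 1, 87433236, 73421586), (36, 1, 1, 55861506, 55861281), (37, 1, 1, 55861506, 55861281), (57, 16, 16, 67450401, 38154501), (45, 1, 1, 55984386, 72572961), (45, 16, 16, 87122946, 56774721), (42, 1, 1, 55861506, 55861281), (26, 1, 1, 39084051, 55838226), (28, 1, 1, 39084051, 55838226), (21, 1, 1, 40120341, 84162066), (23, 1, 1, 39071766, 5518866), (13, 1, 1, 37969941, 50677266), (12, 1, 1, 37969941, 50677266), (21, 16, 16, 103043856, 104080656), (13, 16, 16, 69620496, 70657296), (35, 1, 1, 55845126, 5530401), (11, 16, 16, 69619971, 70649121), (39, 1, 1, 55845126, 5530401), (40, 16, 16, 102847491, 103941441), (23, 16,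 16, 86393616, 73606416), (12, 16, 16, 69559056, 54928656), (11, 1, 1, 37970181, 50677281), (10, 1, 1, 37970181, 50677281), (40, 1, 1, 40059141, 84100641), (54, 16, 16, 84288561, 73536261)]
  [(3, 240), (4, -240), (5, -120), (6, 240), (10, 120), (11, -240), (12, -240), (13, 240), (17, -120), (18, 120), (19, -120), (22, -240), (23, 240), (25, -120), (26, 120), (27, 120), (28, -120), (31, -240), (32, 120), (33, -120), (34, 240), (35, 120), (36, -120), (37, 120), (39, -120), (40, 240), (42, 120), (45, -240), (54, -120), (55, 120), (56, -120), (57, 120)] = true := by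
  decide +kernel

theorem t66_0_1 : chkS lk66 2 5 [(1, m66_0)] l66_1
  [(26, 16, 16, 19161936, 51651936), (28, 16, 16, 19284816, 68363616), (20, 16, 16, 19150416, 34878816), (24, 16, 16, 19150416, 34878816), (14, 16, 16, 19096896, 52512096), (12, 16, 16, 19096896, 52512096), (47, 1, 1, 56893701, 84173601), (8, 1, 1, 4285221, 50667846), (50, 16, 16, 19161171, 51643746), (51, 16, 16, 19284051, 68355426), (48, 1, 1, 22283046, 5513571), (7, 1, 1, 4285221, 50667846), (21, 1, 1, 23343141, 84160866), (40, 1, 1, 6374181, 84091206), (46, 16, 16, 50603601, 34890501), (49, 16, 16, 50603601, 34890501), (23, 1, 1, 22294566, 5517666), (0, 16, 16, 3282516, 34624566), (13, 1, 1, 21192741, 50676066), (41, 16, 16, 3229266, 34820166), (1, 1, 1, 19096896, 52512096), (7, 16, 16, 2188611, 52495686), (12, 1, 1, 21192741, 50676066), (38, 16,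 16, 2180691, 34800966)]
  [(0, -240), (1, -240), (7, 480), (8, -240), (12, -480), (13, 240), (14, 240), (20, -240), (21, -240), (23, 240), (24, 240), (26, 240), (28, -240), (38, 240), (40, 240), (41, -240), (46, 240), (47, 240), (48, -240), (49, -240), (50, -240), (51, 240)] = true := by
  decide +kernel

theorem t66_1_1 : chkS lk66 2 5 [(1, m66_1)] l66_1
  [(29, 16, 16, 34890576, 51652176), (30, 16, 16, 34890576, 51652176), (25, 16, 16, 34886496, 20194896), (16, 16, 16, 35013456, 68363856), (16, 16, 16, 19096656, 51529056), (15, 16, 16, 34890576, 51652176), (50, 1, 1, 50602341, 17064741), (9, 1, 1, 2188116, 51389766), (52, 16, 16, 34890576, 51652176), (53, 16, 16, 34890576, 51652176), (9, 16, 16, 33964881, 68363781), (2, 1, 1, 34824276, 51398226), (25, 1, 1, 34885731, 20186706), (43, 1, 1, 33771876, 19940901), (50,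 16, 16, 50603361, 19161861), (9, 1, 1, 33964371, 68355621), (16, 1, 1, 35012691, 68355666), (44, 16, 16, 33895521, 21116421), (16, 1, 1, 19095636, 51397986), (44, 1, 1, 33894756, 20985381), (9, 16, 16, 2188371, 51512646), (2, 16, 16, 34825296, 51529296), (15, 1, 1, 34889811, 51643986), (43, 16, 16, 33772641, 20071941)]
  [(2, 480), (9, -960), (15, -480), (16, 960), (25, -480), (29, 240), (30, -240), (43, 480), (44, -480), (50, 480), (52, -240), (53, 240)] = true := by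
  decide +kernel

section

variable {κ ι : Type*} [Fintype κ] [Fintype ι] [Inhabited κ] [Inhabited ι]

noncomputable def F66_0 (E : Env κ ι) : (Fin 2 → κ) → (Fin 5 → ι) → ℝ := op2 (P12 κ) (P9 ι) (fB E 2 5 m66_0)

noncomputable def F66_1 (E : Env κ ι) : (Fin 2 → κ) → (Fin 5 → ι) → ℝ := op2 (P12 κ) (P9 ι) (fB E 2 5 m66_1)

def r66_0_0 : List (ℕ × ℤ) := [(3, 240), (4, -240), (5, -120), (6, 240), (10, 120), (11, -240), (12, -240), (13, 240), (17, -120), (18, 120), (19, -120), (22, -240), (23, 240), (25, -120), (26, 120), (27, 120), (28, -120), (31, -240), (32, 120), (33, -120), (34, 240), (35, 120), (36, -120), (37, 120), (39, -120), (40, 240), (42, 120), (45, -240), (54, -120), (55, 120), (56, -120), (57, 120)]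

theorem h66_0_0 (E : Env κ ι) : ip (F66_0 E) (F66_0 E) = dotS (ek E lk66) r66_0_0 :=
  op_entryZ E lk66 2 5 _ _ _ _ (pg12 κ) (pg9 ι) m66_0 m66_0 l66_0 z66_0 w66_0 x66_0 (by decide) _ (chkS_sound E lk66 2 5 _ _ _ _ t66_0_0)

def r66_0_1 : List (ℕ × ℤ) := [(0, -240), (1, -240), (7, 480), (8, -240), (12, -480), (13, 240), (14, 240), (20, -240), (21, -240), (23, 240), (24, 240), (26, 240), (28, -240), (38, 240), (40, 240), (41, -240), (46, 240), (47, 240), (48, -240), (49, -240), (50, -240), (51, 240)]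

theorem h66_0_1 (E : Env κ ι) : ip (F66_0 E) (F66_1 E) = dotS (ek E lk66) r66_0_1 :=
  op_entryZ E lk66 2 5 _ _ _ _ (pg12 κ) (pg9 ι) m66_0 m66_1 l66_1 z66_1 w66_1 x66_1 (by decide) _ (chkS_sound E lk66 2 5 _ _ _ _ t66_0_1)

def r66_1_1 : List (ℕ × ℤ) := [(2, 480), (9, -960), (15, -480), (16, 960), (25, -480), (29, 240), (30, -240), (43, 480), (44, -480), (50, 480), (52, -240), (53, 240)]

theorem h66_1_1 (E : Env κ ι) : ip (F66_1 E) (F66_1 E) = dotS (ek E lk66) r66_1_1 :=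
  op_entryZ E lk66 2 5 _ _ _ _ (pg12 κ) (pg9 ι) m66_1 m66_1 l66_1 z66_1 w66_1 x66_1 (by decide) _ (chkS_sound E lk66 2 5 _ _ _ _ t66_1_1)

theorem row66_0 (E : Env κ ι) : RowG (ek E lk66) (F66_0 E) [F66_0 E, F66_1 E] [r66_0_0, r66_0_1] :=
  rowG_cons _ _ _ _ _ _ (h66_0_0 E) (rowG_cons _ _ _ _ _ _ (h66_0_1 E) (rowG_nil _ _))

theorem row66_1 (E : Env κ ι) : RowG (ek E lk66) (F66_1 E) [F66_1 E] [r66_1_1] :=
  rowG_cons _ _ _ _ _ _ (h66_1_1 E) (rowG_nil _ _)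

def tab66 : List (List (List (ℕ × ℤ))) := [[r66_0_0, r66_0_1], [r66_1_1]]

theorem tri66 (E : Env κ ι) : TriG (ek E lk66) [F66_0 E, F66_1 E] tab66 := by
  refine triG_cons _ _ _ _ _ (row66_0 E) ?_
  refine triG_cons _ _ _ _ _ (row66_1 E) ?_
  exact triG_nil _

end

def lk67 : List Key := [
  (1, 3, [(0, [0], [0, 1]), (0, [0], [0, 2]), (4, [], [2]), (4, [], [1])]),
  (1, 5, [(0, [0], [0, 1]), (0, [0], [2, 3]), (1, [], [0, 4]), (1, [], [2, 3]), (4, [], [1]), (4, [], [4])]),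
  (1, 4, [(0, [0], [0, 1]), (0, [0], [0, 2]), (1, [], [1, 3]), (4, [], [2]), (4, [], [3])]),
  (1, 4, [(0, [0], [0, 1]), (0, [0], [2, 3]), (1, [], [2, 3]), (4, [], [0]), (4, [], [1])]),
  (1, 4, [(0, [0], [0, 1]), (0, [0], [2, 3]), (1, [], [0, 2]), (4, [], [3]), (4, [], [1])]),
  (1, 5, [(0, [0], [0, 1]), (1, [], [0, 2]), (1, [], [3, 2]), (4, [], [1]), (0, [0], [3, 4]), (4, [], [4])]),
  (1, 5, [(0, [0], [0, 1]), (1, [], [0, 2]), (1, [], [3, 1]), (4, [], [2]), (0, [0], [3, 4]), (4, [], [4])]),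
  (1, 5, [(0, [0], [0, 1]), (1, [], [0, 1]), (4, [], [2]), (0, [0], [3, 4]), (1, [], [3, 4]), (4, [], [2])]),
  (1, 5, [(0, [0], [0, 1]), (1, [], [1, 2]), (4, [], [2]), (0, [0], [0, 3]), (1, [], [3, 4]), (4, [], [4])])]

def kl67 : List ℕ := [1, 31, 60, 79, 80, 170, 179, 185, 200]

def m67_0 : Base := (0, 2, [(0, [0], [1, 2]), (1, [], [1, 2]), (4, [], [0])])

def l67_0 : Cov := [(1, 0, 2, [(0, [0], [1, 2]), (1, [], [1, 2]), (4, [], [0])])]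

def z67_0 : Cov := []

def w67_0 : List (List Wit) := [[(0, 0, 0, 16, 16)]]

def m67_1 : Base := (0, 2, [(0, [0], [1, 2]), (1, [], [0, 1]), (4, [], [2])])

def l67_1 : Cov := [(1, 0, 2, [(0, [0], [1, 2]), (1, [], [0, 1]), (4, [], [2])])]

def z67_1 : Cov := []

def w67_1 : List (List Wit) := [[(0, 0, 0, 16, 16)]]

def m67_2 : Base := (0, 2, [(0, [0], [0, 1]), (1, [], [1, 2]), (4, [], [2])])

def l67_2 : Cov := [(1, 0, 2, [(0, [0], [0, 1]), (1, [], [1, 2]), (4, [], [2])])]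

def z67_2 : Cov := []

def w67_2 : List (List Wit) := [[(0, 0, 0, 16, 16)]]

def m67_3 : Base := (0, 1, [(0, [0], [0, 1]), (4, [], [1])])

def l67_3 : Cov := [(1, 0, 1, [(0, [0], [0, 1]), (4, [], [1])])]

def z67_3 : Cov := []

def w67_3 : List (List Wit) := [[(0, 0, 0, 0, 0)]]

theorem tr67 : trK keys lk67 kl67 = true := by
  decide +kernel

theorem x67_0 : expB 1 1 dg0 dg0 m67_0 (l67_0 ++ z67_0) w67_0 = true := by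
  decide +kernel

theorem x67_1 : expB 1 1 dg0 dg0 m67_1 (l67_1 ++ z67_1) w67_1 = true := by
  decide +kernel

theorem x67_2 : expB 1 1 dg0 dg0 m67_2 (l67_2 ++ z67_2) w67_2 = true := by
  decide +kernel

theorem x67_3 : expB 1 1 dg0 dg0 m67_3 (l67_3 ++ z67_3) w67_3 = true := by
  decide +kernel

theorem t67_0_0 : chkS lk67 1 1 [(1, m67_0)] l67_0
  [(7, 0, 0, 274690, 274465)]
  [(7, 1)] = true := by
  decide +kernel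

theorem t67_0_1 : chkS lk67 1 1 [(1, m67_0)] l67_1
  [(1, 0, 0, 66340, 8515)]
  [(1, 1)] = true := by
  decide +kernel

theorem t67_0_2 : chkS lk67 1 1 [(1, m67_0)] l67_2
  [(1, 0, 0, 262945, 270595)]
  [(1, 1)] = true := by
  decide +kernel

theorem t67_0_3 : chkS lk67 1 1 [(1, m67_0)] l67_3
  [(3, 0, 0, 4896, 8496)]
  [(3, 1)] = true := by
  decide +kernel

theorem t67_1_1 : chkS lk67 1 1 [(1, m67_1)] l67_1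
  [(5, 0, 0, 274690, 274465)]
  [(5, 1)] = true := by
  decide +kernel

theorem t67_1_2 : chkS lk67 1 1 [(1, m67_1)] l67_2
  [(6, 0, 0, 132145, 136195)]
  [(6, 1)] = true := by
  decide +kernel

theorem t67_1_3 : chkS lk67 1 1 [(1, m67_1)] l67_3
  [(4, 0, 0, 12546, 12321)]
  [(4, 1)] = true := by
  decide +kernel

theorem t67_2_2 : chkS lk67 1 1 [(1, m67_2)] l67_2
  [(8, 0, 0, 274960, 274960)]
  [(8, 1)] = true := by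
  decide +kernel

theorem t67_2_3 : chkS lk67 1 1 [(1, m67_2)] l67_3
  [(2, 0, 0, 8976, 8976)]
  [(2, 1)] = true := by
  decide +kernel

theorem t67_3_3 : chkS lk67 1 1 [(1, m67_3)] l67_3
  [(0, 0, 0, 528, 528)]
  [(0, 1)] = true := by
  decide +kernel

section

variable {κ ι : Type*} [Fintype κ] [Fintype ι] [Inhabited κ] [Inhabited ι]

noncomputable def F67_0 (E : Env κ ι) : (Fin 1 → κ) → (Fin 1 → ι) → ℝ := op2 (P0 κ) (P0 ι) (fB E 1 1 m67_0)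

noncomputable def F67_1 (E : Env κ ι) : (Fin 1 → κ) → (Fin 1 → ι) → ℝ := op2 (P0 κ) (P0 ι) (fB E 1 1 m67_1)

noncomputable def F67_2 (E : Env κ ι) : (Fin 1 → κ) → (Fin 1 → ι) → ℝ := op2 (P0 κ) (P0 ι) (fB E 1 1 m67_2)

noncomputable def F67_3 (E : Env κ ι) : (Fin 1 → κ) → (Fin 1 → ι) → ℝ := op2 (P0 κ) (P0 ι) (fB E 1 1 m67_3)

def r67_0_0 : List (ℕ × ℤ) := [(7, 1)]

theorem h67_0_0 (E : Env κ ι) : ip (F67_0 E) (F67_0 E) = dotS (ek E lk67) r67_0_0 :=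
  op_entryZ E lk67 1 1 _ _ _ _ (pg0 κ) (pg0 ι) m67_0 m67_0 l67_0 z67_0 w67_0 x67_0 (by decide) _ (chkS_sound E lk67 1 1 _ _ _ _ t67_0_0)

def r67_0_1 : List (ℕ × ℤ) := [(1, 1)]

theorem h67_0_1 (E : Env κ ι) : ip (F67_0 E) (F67_1 E) = dotS (ek E lk67) r67_0_1 :=
  op_entryZ E lk67 1 1 _ _ _ _ (pg0 κ) (pg0 ι) m67_0 m67_1 l67_1 z67_1 w67_1 x67_1 (by decide) _ (chkS_sound E lk67 1 1 _ _ _ _ t67_0_1)

def r67_0_2 : List (ℕ × ℤ) := [(1, 1)]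

theorem h67_0_2 (E : Env κ ι) : ip (F67_0 E) (F67_2 E) = dotS (ek E lk67) r67_0_2 :=
  op_entryZ E lk67 1 1 _ _ _ _ (pg0 κ) (pg0 ι) m67_0 m67_2 l67_2 z67_2 w67_2 x67_2 (by decide) _ (chkS_sound E lk67 1 1 _ _ _ _ t67_0_2)

def r67_0_3 : List (ℕ × ℤ) := [(3, 1)]

theorem h67_0_3 (E : Env κ ι) : ip (F67_0 E) (F67_3 E) = dotS (ek E lk67) r67_0_3 :=
  op_entryZ E lk67 1 1 _ _ _ _ (pg0 κ) (pg0 ι) m67_0 m67_3 l67_3 z67_3 w67_3 x67_3 (by decide) _ (chkS_sound E lk67 1 1 _ _ _ _ t67_0_3)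

def r67_1_1 : List (ℕ × ℤ) := [(5, 1)]

theorem h67_1_1 (E : Env κ ι) : ip (F67_1 E) (F67_1 E) = dotS (ek E lk67) r67_1_1 :=
  op_entryZ E lk67 1 1 _ _ _ _ (pg0 κ) (pg0 ι) m67_1 m67_1 l67_1 z67_1 w67_1 x67_1 (by decide) _ (chkS_sound E lk67 1 1 _ _ _ _ t67_1_1)

def r67_1_2 : List (ℕ × ℤ) := [(6, 1)]

theorem h67_1_2 (E : Env κ ι) : ip (F67_1 E) (F67_2 E) = dotS (ek E lk67) r67_1_2 :=
  op_entryZ E lk67 1 1 _ _ _ _ (pg0 κ) (pg0 ι) m67_1 m67_2 l67_2 z67_2 w67_2 x67_2 (by decide) _ (chkS_sound E lk67 1 1 _ _ _ _ t67_1_2)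

def r67_1_3 : List (ℕ × ℤ) := [(4, 1)]

theorem h67_1_3 (E : Env κ ι) : ip (F67_1 E) (F67_3 E) = dotS (ek E lk67) r67_1_3 :=
  op_entryZ E lk67 1 1 _ _ _ _ (pg0 κ) (pg0 ι) m67_1 m67_3 l67_3 z67_3 w67_3 x67_3 (by decide) _ (chkS_sound E lk67 1 1 _ _ _ _ t67_1_3)

def r67_2_2 : List (ℕ × ℤ) := [(8, 1)]

theorem h67_2_2 (E : Env κ ι) : ip (F67_2 E) (F67_2 E) = dotS (ek E lk67) r67_2_2 :=
  op_entryZ E lk67 1 1 _ _ _ _ (pg0 κ) (pg0 ι) m67_2 m67_2 l67_2 z67_2 w67_2 x67_2 (by decide) _ (chkS_sound E lk67 1 1 _ _ _ _ t67_2_2)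

def r67_2_3 : List (ℕ × ℤ) := [(2, 1)]

theorem h67_2_3 (E : Env κ ι) : ip (F67_2 E) (F67_3 E) = dotS (ek E lk67) r67_2_3 :=
  op_entryZ E lk67 1 1 _ _ _ _ (pg0 κ) (pg0 ι) m67_2 m67_3 l67_3 z67_3 w67_3 x67_3 (by decide) _ (chkS_sound E lk67 1 1 _ _ _ _ t67_2_3)

def r67_3_3 : List (ℕ × ℤ) := [(0, 1)]

theorem h67_3_3 (E : Env κ ι) : ip (F67_3 E) (F67_3 E) = dotS (ek E lk67) r67_3_3 :=
  op_entryZ E lk67 1 1 _ _ _ _ (pg0 κ) (pg0 ι) m67_3 m67_3 l67_3 z67_3 w67_3 x67_3 (by decide) _ (chkS_sound E lk67 1 1 _ _ _ _ t67_3_3)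

theorem row67_0 (E : Env κ ι) : RowG (ek E lk67) (F67_0 E) [F67_0 E, F67_1 E, F67_2 E, F67_3 E] [r67_0_0, r67_0_1, r67_0_2, r67_0_3] :=
  rowG_cons _ _ _ _ _ _ (h67_0_0 E) (rowG_cons _ _ _ _ _ _ (h67_0_1 E) (rowG_cons _ _ _ _ _ _ (h67_0_2 E) (rowG_cons _ _ _ _ _ _ (h67_0_3 E) (rowG_nil _ _))))

theorem row67_1 (E : Env κ ι) : RowG (ek E lk67) (F67_1 E) [F67_1 E, F67_2 E, F67_3 E] [r67_1_1, r67_1_2, r67_1_3] :=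
  rowG_cons _ _ _ _ _ _ (h67_1_1 E) (rowG_cons _ _ _ _ _ _ (h67_1_2 E) (rowG_cons _ _ _ _ _ _ (h67_1_3 E) (rowG_nil _ _)))

theorem row67_2 (E : Env κ ι) : RowG (ek E lk67) (F67_2 E) [F67_2 E, F67_3 E] [r67_2_2, r67_2_3] :=
  rowG_cons _ _ _ _ _ _ (h67_2_2 E) (rowG_cons _ _ _ _ _ _ (h67_2_3 E) (rowG_nil _ _))

theorem row67_3 (E : Env κ ι) : RowG (ek E lk67) (F67_3 E) [F67_3 E] [r67_3_3] :=
  rowG_cons _ _ _ _ _ _ (h67_3_3 E) (rowG_nil _ _)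

def tab67 : List (List (List (ℕ × ℤ))) := [[r67_0_0, r67_0_1, r67_0_2, r67_0_3], [r67_1_1, r67_1_2, r67_1_3], [r67_2_2, r67_2_3], [r67_3_3]]

theorem tri67 (E : Env κ ι) : TriG (ek E lk67) [F67_0 E, F67_1 E, F67_2 E, F67_3 E] tab67 := by
  refine triG_cons _ _ _ _ _ (row67_0 E) ?_
  refine triG_cons _ _ _ _ _ (row67_1 E) ?_
  refine triG_cons _ _ _ _ _ (row67_2 E) ?_
  refine triG_cons _ _ _ _ _ (row67_3 E) ?_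
  exact triG_nil _

end

def lk68 : List Key := [
  (1, 3, [(2, [0], [0, 1, 2]), (2, [0], [0, 1, 2])]),
  (1, 3, [(0, [0], [0, 1]), (0, [0], [0, 2]), (4, [], [2]), (4, [], [1])]),
  (1, 4, [(0, [0], [0, 1]), (1, [], [2, 3]), (2, [0], [0, 1, 2]), (4, [], [3])]),
  (1, 5, [(0, [0], [0, 1]), (0, [0], [0, 1]), (1, [], [2, 3]), (1, [], [2, 4]), (4, [], [4]), (4, [], [3])]),
  (1, 5, [(0, [0], [0, 1]), (0, [0], [0, 2]), (4, [], [2]), (4, [], [1]), (1, [], [3, 4]), (1, [], [3, 4])]),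
  (1, 5, [(0, [0], [0, 1]), (0, [0], [2, 3]), (1, [], [0, 4]), (1, [], [2, 3]), (4, [], [1]), (4, [], [4])]),
  (1, 4, [(0, [0], [0, 1]), (1, [], [2, 3]), (2, [0], [0, 2, 3]), (4, [], [1])]),
  (1, 3, [(0, [0], [0, 1]), (0, [0], [0, 1]), (4, [], [2]), (4, [], [2])]),
  (1, 3, [(0, [0], [0, 1]), (2, [0], [0, 1, 2]), (4, [], [2])]),
  (1, 4, [(0, [0], [0, 1]), (0, [0], [0, 2]), (1, [], [1, 3]), (4, [], [2]), (4, [], [3])]),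
  (1, 4, [(0, [0], [0, 1]), (0, [0], [0, 1]), (1, [], [2, 3]), (4, [], [2]), (4, [], [3])]),
  (1, 4, [(0, [0], [0, 1]), (0, [0], [2, 3]), (1, [], [2, 3]), (4, [], [0]), (4, [], [1])]),
  (1, 4, [(0, [0], [0, 1]), (0, [0], [2, 3]), (1, [], [0, 2]), (4, [], [3]), (4, [], [1])]),
  (1, 5, [(0, [0], [0, 1]), (0, [0], [0, 2]), (1, [], [1, 3]), (1, [], [3, 4]), (4, [], [2]), (4, [], [4])]),
  (1, 5, [(0, [0], [0, 1]), (1, [], [0, 2]), (1, [], [1, 2]), (4, [], [3]), (0, [0], [3, 4]), (4, [], [4])]),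
  (1, 5, [(0, [0], [0, 1]), (1, [], [0, 2]), (1, [], [3, 2]), (4, [], [1]), (0, [0], [3, 4]), (4, [], [4])]),
  (1, 5, [(0, [0], [0, 1]), (1, [], [0, 2]), (1, [], [3, 1]), (4, [], [2]), (0, [0], [3, 4]), (4, [], [4])]),
  (1, 5, [(0, [0], [0, 1]), (1, [], [1, 2]), (4, [], [2]), (0, [0], [0, 3]), (1, [], [3, 4]), (4, [], [4])]),
  (1, 5, [(0, [0], [0, 1]), (1, [], [2, 0]), (1, [], [3, 1]), (4, [], [4]), (0, [0], [2, 3]), (4, [], [4])]),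
  (1, 5, [(0, [0], [0, 1]), (1, [], [1, 2]), (1, [], [3, 2]), (4, [], [4]), (0, [0], [0, 3]), (4, [], [4])]),
  (1, 5, [(0, [0], [0, 1]), (1, [], [2, 3]), (1, [], [4, 1]), (4, [], [3]), (0, [0], [0, 4]), (4, [], [2])]),
  (1, 4, [(0, [0], [0, 1]), (1, [], [2, 1]), (4, [], [3]), (0, [0], [0, 2]), (4, [], [3])]),
  (1, 4, [(0, [0], [0, 1]), (1, [], [2, 1]), (4, [], [3]), (2, [0], [0, 2, 3])])]

def kl68 : List ℕ := [0, 1, 2, 3, 4, 31, 32, 35, 59, 60, 61, 79, 80, 92, 160, 170, 179, 200, 358, 378, 397, 404, 405]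

def m68_0 : Base := (0, 1, [(0, [0], [0, 3]), (1, [], [1, 3]), (4, [], [2])])

def l68_0 : Cov := [(6, 0, 1, [(0, [0], [0, 3]), (1, [], [1, 3]), (4, [], [2])]),
  (6, 0, 1, [(0, [0], [0, 3]), (1, [], [2, 3]), (4, [], [1])]),
  (6, 0, 1, [(0, [0], [1, 3]), (1, [], [0, 3]), (4, [], [2])]),
  (6, 0, 1, [(0, [0], [1, 3]), (1, [], [2, 3]), (4, [], [0])]),
  (6, 0, 1, [(0, [0], [2, 3]), (1, [], [0, 3]), (4, [], [1])]),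
  (6, 0, 1, [(0, [0], [2, 3]), (1, [], [1, 3]), (4, [], [0])])]

def z68_0 : Cov := []

def w68_0 : List (List Wit) := [[(0, 0, 0, 0, 0), (1, 0, 0, 0, 0), (2, 0, 0, 0, 0), (3, 0, 0, 0, 0), (4, 0, 0, 0, 0), (5, 0, 0, 0, 0)]]

def m68_1 : Base := (0, 1, [(0, [0], [0, 3]), (1, [], [1, 2]), (4, [], [3])])

def l68_1 : Cov := [(12, 0, 1, [(0, [0], [0, 3]), (1, [], [1, 2]), (4, [], [3])]),
  (12, 0, 1, [(0, [0], [1, 3]), (1, [], [0, 2]), (4, [], [3])]),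
  (12, 0, 1, [(0, [0], [2, 3]), (1, [], [0, 1]), (4, [], [3])])]

def z68_1 : Cov := []

def w68_1 : List (List Wit) := [[(0, 0, 0, 0, 0), (0, 0, 0, 0, 0), (1, 0, 0, 0, 0), (1, 0, 0, 0, 0), (2, 0, 0, 0, 0), (2, 0, 0, 0, 0)]]

def m68_2 : Base := (0, 1, [(0, [0], [0, 1]), (1, [], [2, 3]), (4, [], [3])])

def l68_2 : Cov := [(12, 0, 1, [(0, [0], [0, 1]), (1, [], [2, 3]), (4, [], [3])]),
  (12, 0, 1, [(0, [0], [0, 2]), (1, [], [1, 3]), (4, [], [3])]),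
  (12, 0, 1, [(0, [0], [1, 2]), (1, [], [0, 3]), (4, [], [3])])]

def z68_2 : Cov := []

def w68_2 : List (List Wit) := [[(0, 0, 0, 0, 0), (1, 0, 0, 0, 0), (0, 0, 0, 0, 0), (2, 0, 0, 0, 0), (1, 0, 0, 0, 0), (2, 0, 0, 0, 0)]]

def m68_3 : Base := (0, 0, [(0, [0], [0, 1]), (4, [], [2])])

def l68_3 : Cov := [(12, 0, 0, [(0, [0], [0, 1]), (4, [], [2])]),
  (12, 0, 0, [(0, [0], [0, 2]), (4, [], [1])]),
  (12, 0, 0, [(0, [0], [1, 2]), (4, [], [0])])]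

def z68_3 : Cov := []

def w68_3 : List (List Wit) := [[(0, 0, 0, 0, 0), (1, 0, 0, 0, 0), (0, 0, 0, 0, 0), (2, 0, 0, 0, 0), (1, 0, 0, 0, 0), (2, 0, 0, 0, 0)]]

def m68_4 : Base := (0, 0, [(2, [0], [0, 1, 2])])

def l68_4 : Cov := [(36, 0, 0, [(2, [0], [0, 1, 2])])]

def z68_4 : Cov := []

def w68_4 : List (List Wit) := [[(0, 0, 0, 0, 0), (0, 0, 0, 0, 0), (0, 0, 0, 0, 0), (0, 0, 0, 0, 0), (0, 0, 0, 0, 0), (0, 0, 0, 0, 0)]]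

theorem tr68 : trK keys lk68 kl68 = true := by
  decide +kernel

theorem x68_0 : expB 1 3 dg0 dg1 m68_0 (l68_0 ++ z68_0) w68_0 = true := by
  decide +kernel

theorem x68_1 : expB 1 3 dg0 dg1 m68_1 (l68_1 ++ z68_1) w68_1 = true := by
  decide +kernel

theorem x68_2 : expB 1 3 dg0 dg1 m68_2 (l68_2 ++ z68_2) w68_2 = true := by
  decide +kernel

theorem x68_3 : expB 1 3 dg0 dg1 m68_3 (l68_3 ++ z68_3) w68_3 = true := by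
  decide +kernel

theorem x68_4 : expB 1 3 dg0 dg1 m68_4 (l68_4 ++ z68_4) w68_4 = true := by
  decide +kernel

theorem t68_0_0 : chkS lk68 1 3 [(1, m68_0)] l68_0
  [(19, 0, 0, 201760, 147760), (17, 0, 0, 201760, 147760), (18, 0, 0, 136240, 136240), (16, 0, 0, 12820, 12820), (16, 0, 0, 197665, 147715), (15, 0, 0, 197665, 147715)]
  [(15, 6), (16, 12), (17, 6), (18, 6), (19, 6)] = true := by
  decide +kernel

theorem t68_0_1 : chkS lk68 1 3 [(1, m68_0)] l68_1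
  [(13, 0, 0, 136240, 136240), (16, 0, 0, 266800, 266800), (14, 0, 0, 267040, 270640)]
  [(13, 12), (14, 12), (16, 12)] = true := by
  decide +kernel

theorem t68_0_2 : chkS lk68 1 3 [(1, m68_0)] l68_2
  [(20, 0, 0, 201280, 82480), (13, 0, 0, 266800, 266800), (16, 0, 0, 136240, 136240)]
  [(13, 12), (16, 12), (20, 12)] = true := by
  decide +kernel

theorem t68_0_3 : chkS lk68 1 3 [(1, m68_0)] l68_3
  [(21, 0, 0, 4896, 8496), (9, 0, 0, 4656, 4656), (12, 0, 0, 801, 8451)]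
  [(9, 12), (12, 12), (21, 12)] = true := by
  decide +kernel

theorem t68_0_4 : chkS lk68 1 3 [(1, m68_0)] l68_4
  [(22, 0, 0, 4896, 8496)]
  [(22, 36)] = true := by
  decide +kernel

theorem t68_1_1 : chkS lk68 1 3 [(1, m68_1)] l68_1
  [(4, 0, 0, 136240, 136240), (15, 0, 0, 266800, 266800), (15, 0, 0, 267040, 270640)]
  [(4, 12), (15, 24)] = true := by
  decide +kernel

theorem t68_1_2 : chkS lk68 1 3 [(1, m68_1)] l68_2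
  [(13, 0, 0, 271120, 271120), (13, 0, 0, 270640, 267040), (5, 0, 0, 267040, 270640)]
  [(5, 12), (13, 24)] = true := by
  decide +kernel

theorem t68_1_3 : chkS lk68 1 3 [(1, m68_1)] l68_3
  [(9, 0, 0, 8976, 8976), (9, 0, 0, 8496, 4896), (11, 0, 0, 4896, 8496)]
  [(9, 24), (11, 12)] = true := by
  decide +kernel

theorem t68_1_4 : chkS lk68 1 3 [(1, m68_1)] l68_4
  [(6, 0, 0, 4896, 8496)]
  [(6, 36)] = true := by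
  decide +kernel

theorem t68_2_2 : chkS lk68 1 3 [(1, m68_2)] l68_2
  [(3, 0, 0, 274960, 274960), (17, 0, 0, 148240, 205840), (17, 0, 0, 148225, 205825)]
  [(3, 12), (17, 24)] = true := by
  decide +kernel

theorem t68_2_3 : chkS lk68 1 3 [(1, m68_2)] l68_3
  [(10, 0, 0, 12816, 12816), (9, 0, 0, 12576, 12576), (9, 0, 0, 12546, 12321)]
  [(9, 24), (10, 12)] = true := by
  decide +kernel

theorem t68_2_4 : chkS lk68 1 3 [(1, m68_2)] l68_4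
  [(2, 0, 0, 12816, 12816)]
  [(2, 36)] = true := by
  decide +kernel

theorem t68_3_3 : chkS lk68 1 3 [(1, m68_3)] l68_3
  [(7, 0, 0, 528, 528), (1, 0, 0, 528, 528), (1, 0, 0, 513, 513)]
  [(1, 24), (7, 12)] = true := by
  decide +kernel

theorem t68_3_4 : chkS lk68 1 3 [(1, m68_3)] l68_4
  [(8, 0, 0, 528, 528)]
  [(8, 36)] = true := by
  decide +kernel

theorem t68_4_4 : chkS lk68 1 3 [(1, m68_4)] l68_4
  [(0, 0, 0, 528, 528)]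
  [(0, 36)] = true := by
  decide +kernel

section

variable {κ ι : Type*} [Fintype κ] [Fintype ι] [Inhabited κ] [Inhabited ι]

noncomputable def F68_0 (E : Env κ ι) : (Fin 1 → κ) → (Fin 3 → ι) → ℝ := op2 (P0 κ) (P1 ι) (fB E 1 3 m68_0)

noncomputable def F68_1 (E : Env κ ι) : (Fin 1 → κ) → (Fin 3 → ι) → ℝ := op2 (P0 κ) (P1 ι) (fB E 1 3 m68_1)

noncomputable def F68_2 (E : Env κ ι) : (Fin 1 → κ) → (Fin 3 → ι) → ℝ := op2 (P0 κ) (P1 ι) (fB E 1 3 m68_2)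

noncomputable def F68_3 (E : Env κ ι) : (Fin 1 → κ) → (Fin 3 → ι) → ℝ := op2 (P0 κ) (P1 ι) (fB E 1 3 m68_3)

noncomputable def F68_4 (E : Env κ ι) : (Fin 1 → κ) → (Fin 3 → ι) → ℝ := op2 (P0 κ) (P1 ι) (fB E 1 3 m68_4)

def r68_0_0 : List (ℕ × ℤ) := [(15, 6), (16, 12), (17, 6), (18, 6), (19, 6)]

theorem h68_0_0 (E : Env κ ι) : ip (F68_0 E) (F68_0 E) = dotS (ek E lk68) r68_0_0 :=
  op_entryZ E lk68 1 3 _ _ _ _ (pg0 κ) (pg1 ι) m68_0 m68_0 l68_0 z68_0 w68_0 x68_0 (by decide) _ (chkS_sound E lk68 1 3 _ _ _ _ t68_0_0)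

def r68_0_1 : List (ℕ × ℤ) := [(13, 12), (14, 12), (16, 12)]

theorem h68_0_1 (E : Env κ ι) : ip (F68_0 E) (F68_1 E) = dotS (ek E lk68) r68_0_1 :=
  op_entryZ E lk68 1 3 _ _ _ _ (pg0 κ) (pg1 ι) m68_0 m68_1 l68_1 z68_1 w68_1 x68_1 (by decide) _ (chkS_sound E lk68 1 3 _ _ _ _ t68_0_1)

def r68_0_2 : List (ℕ × ℤ) := [(13, 12), (16, 12), (20, 12)]

theorem h68_0_2 (E : Env κ ι) : ip (F68_0 E) (F68_2 E) = dotS (ek E lk68) r68_0_2 :=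
  op_entryZ E lk68 1 3 _ _ _ _ (pg0 κ) (pg1 ι) m68_0 m68_2 l68_2 z68_2 w68_2 x68_2 (by decide) _ (chkS_sound E lk68 1 3 _ _ _ _ t68_0_2)

def r68_0_3 : List (ℕ × ℤ) := [(9, 12), (12, 12), (21, 12)]

theorem h68_0_3 (E : Env κ ι) : ip (F68_0 E) (F68_3 E) = dotS (ek E lk68) r68_0_3 :=
  op_entryZ E lk68 1 3 _ _ _ _ (pg0 κ) (pg1 ι) m68_0 m68_3 l68_3 z68_3 w68_3 x68_3 (by decide) _ (chkS_sound E lk68 1 3 _ _ _ _ t68_0_3)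

def r68_0_4 : List (ℕ × ℤ) := [(22, 36)]

theorem h68_0_4 (E : Env κ ι) : ip (F68_0 E) (F68_4 E) = dotS (ek E lk68) r68_0_4 :=
  op_entryZ E lk68 1 3 _ _ _ _ (pg0 κ) (pg1 ι) m68_0 m68_4 l68_4 z68_4 w68_4 x68_4 (by decide) _ (chkS_sound E lk68 1 3 _ _ _ _ t68_0_4)

def r68_1_1 : List (ℕ × ℤ) := [(4, 12), (15, 24)]

theorem h68_1_1 (E : Env κ ι) : ip (F68_1 E) (F68_1 E) = dotS (ek E lk68) r68_1_1 :=
  op_entryZ E lk68 1 3 _ _ _ _ (pg0 κ) (pg1 ι) m68_1 m68_1 l68_1 z68_1 w68_1 x68_1 (by decide) _ (chkS_sound E lk68 1 3 _ _ _ _ t68_1_1)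

def r68_1_2 : List (ℕ × ℤ) := [(5, 12), (13, 24)]

theorem h68_1_2 (E : Env κ ι) : ip (F68_1 E) (F68_2 E) = dotS (ek E lk68) r68_1_2 :=
  op_entryZ E lk68 1 3 _ _ _ _ (pg0 κ) (pg1 ι) m68_1 m68_2 l68_2 z68_2 w68_2 x68_2 (by decide) _ (chkS_sound E lk68 1 3 _ _ _ _ t68_1_2)

def r68_1_3 : List (ℕ × ℤ) := [(9, 24), (11, 12)]

theorem h68_1_3 (E : Env κ ι) : ip (F68_1 E) (F68_3 E) = dotS (ek E lk68) r68_1_3 :=
  op_entryZ E lk68 1 3 _ _ _ _ (pg0 κ) (pg1 ι) m68_1 m68_3 l68_3 z68_3 w68_3 x68_3 (by decide) _ (chkS_sound E lk68 1 3 _ _ _ _ t68_1_3)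

def r68_1_4 : List (ℕ × ℤ) := [(6, 36)]

theorem h68_1_4 (E : Env κ ι) : ip (F68_1 E) (F68_4 E) = dotS (ek E lk68) r68_1_4 :=
  op_entryZ E lk68 1 3 _ _ _ _ (pg0 κ) (pg1 ι) m68_1 m68_4 l68_4 z68_4 w68_4 x68_4 (by decide) _ (chkS_sound E lk68 1 3 _ _ _ _ t68_1_4)

def r68_2_2 : List (ℕ × ℤ) := [(3, 12), (17, 24)]

theorem h68_2_2 (E : Env κ ι) : ip (F68_2 E) (F68_2 E) = dotS (ek E lk68) r68_2_2 :=
  op_entryZ E lk68 1 3 _ _ _ _ (pg0 κ) (pg1 ι) m68_2 m68_2 l68_2 z68_2 w68_2 x68_2 (by decide) _ (chkS_sound E lk68 1 3 _ _ _ _ t68_2_2)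

def r68_2_3 : List (ℕ × ℤ) := [(9, 24), (10, 12)]

theorem h68_2_3 (E : Env κ ι) : ip (F68_2 E) (F68_3 E) = dotS (ek E lk68) r68_2_3 :=
  op_entryZ E lk68 1 3 _ _ _ _ (pg0 κ) (pg1 ι) m68_2 m68_3 l68_3 z68_3 w68_3 x68_3 (by decide) _ (chkS_sound E lk68 1 3 _ _ _ _ t68_2_3)

def r68_2_4 : List (ℕ × ℤ) := [(2, 36)]

theorem h68_2_4 (E : Env κ ι) : ip (F68_2 E) (F68_4 E) = dotS (ek E lk68) r68_2_4 :=
  op_entryZ E lk68 1 3 _ _ _ _ (pg0 κ) (pg1 ι) m68_2 m68_4 l68_4 z68_4 w68_4 x68_4 (by decide) _ (chkS_sound E lk68 1 3 _ _ _ _ t68_2_4)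

def r68_3_3 : List (ℕ × ℤ) := [(1, 24), (7, 12)]

theorem h68_3_3 (E : Env κ ι) : ip (F68_3 E) (F68_3 E) = dotS (ek E lk68) r68_3_3 :=
  op_entryZ E lk68 1 3 _ _ _ _ (pg0 κ) (pg1 ι) m68_3 m68_3 l68_3 z68_3 w68_3 x68_3 (by decide) _ (chkS_sound E lk68 1 3 _ _ _ _ t68_3_3)

def r68_3_4 : List (ℕ × ℤ) := [(8, 36)]

theorem h68_3_4 (E : Env κ ι) : ip (F68_3 E) (F68_4 E) = dotS (ek E lk68) r68_3_4 :=
  op_entryZ E lk68 1 3 _ _ _ _ (pg0 κ) (pg1 ι) m68_3 m68_4 l68_4 z68_4 w68_4 x68_4 (by decide) _ (chkS_sound E lk68 1 3 _ _ _ _ t68_3_4)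

def r68_4_4 : List (ℕ × ℤ) := [(0, 36)]

theorem h68_4_4 (E : Env κ ι) : ip (F68_4 E) (F68_4 E) = dotS (ek E lk68) r68_4_4 :=
  op_entryZ E lk68 1 3 _ _ _ _ (pg0 κ) (pg1 ι) m68_4 m68_4 l68_4 z68_4 w68_4 x68_4 (by decide) _ (chkS_sound E lk68 1 3 _ _ _ _ t68_4_4)

theorem row68_0 (E : Env κ ι) : RowG (ek E lk68) (F68_0 E) [F68_0 E, F68_1 E, F68_2 E, F68_3 E, F68_4 E] [r68_0_0, r68_0_1, r68_0_2, r68_0_3, r68_0_4] :=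
  rowG_cons _ _ _ _ _ _ (h68_0_0 E) (rowG_cons _ _ _ _ _ _ (h68_0_1 E) (rowG_cons _ _ _ _ _ _ (h68_0_2 E) (rowG_cons _ _ _ _ _ _ (h68_0_3 E) (rowG_cons _ _ _ _ _ _ (h68_0_4 E) (rowG_nil _ _)))))

theorem row68_1 (E : Env κ ι) : RowG (ek E lk68) (F68_1 E) [F68_1 E, F68_2 E, F68_3 E, F68_4 E] [r68_1_1, r68_1_2, r68_1_3, r68_1_4] :=
  rowG_cons _ _ _ _ _ _ (h68_1_1 E) (rowG_cons _ _ _ _ _ _ (h68_1_2 E) (rowG_cons _ _ _ _ _ _ (h68_1_3 E) (rowG_cons _ _ _ _ _ _ (h68_1_4 E) (rowG_nil _ _))))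

theorem row68_2 (E : Env κ ι) : RowG (ek E lk68) (F68_2 E) [F68_2 E, F68_3 E, F68_4 E] [r68_2_2, r68_2_3, r68_2_4] :=
  rowG_cons _ _ _ _ _ _ (h68_2_2 E) (rowG_cons _ _ _ _ _ _ (h68_2_3 E) (rowG_cons _ _ _ _ _ _ (h68_2_4 E) (rowG_nil _ _)))

theorem row68_3 (E : Env κ ι) : RowG (ek E lk68) (F68_3 E) [F68_3 E, F68_4 E] [r68_3_3, r68_3_4] :=
  rowG_cons _ _ _ _ _ _ (h68_3_3 E) (rowG_cons _ _ _ _ _ _ (h68_3_4 E) (rowG_nil _ _))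

theorem row68_4 (E : Env κ ι) : RowG (ek E lk68) (F68_4 E) [F68_4 E] [r68_4_4] :=
  rowG_cons _ _ _ _ _ _ (h68_4_4 E) (rowG_nil _ _)

def tab68 : List (List (List (ℕ × ℤ))) := [[r68_0_0, r68_0_1, r68_0_2, r68_0_3, r68_0_4], [r68_1_1, r68_1_2, r68_1_3, r68_1_4], [r68_2_2, r68_2_3, r68_2_4], [r68_3_3, r68_3_4], [r68_4_4]]

theorem tri68 (E : Env κ ι) : TriG (ek E lk68) [F68_0 E, F68_1 E, F68_2 E, F68_3 E, F68_4 E] tab68 := by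
  refine triG_cons _ _ _ _ _ (row68_0 E) ?_
  refine triG_cons _ _ _ _ _ (row68_1 E) ?_
  refine triG_cons _ _ _ _ _ (row68_2 E) ?_
  refine triG_cons _ _ _ _ _ (row68_3 E) ?_
  refine triG_cons _ _ _ _ _ (row68_4 E) ?_
  exact triG_nil _

end

def lk69 : List Key := [
  (1, 3, [(0, [0], [0, 1]), (0, [0], [0, 2]), (4, [], [2]), (4, [], [1])]),
  (1, 5, [(0, [0], [0, 1]), (0, [0], [0, 1]), (1, [], [2, 3]), (1, [], [2, 4]), (4, [], [4]), (4, [], [3])]),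
  (1, 5, [(0, [0], [0, 1]), (0, [0], [0, 2]), (4, [], [2]), (4, [], [1]), (1, [], [3, 4]), (1, [], [3, 4])]),
  (1, 5, [(0, [0], [0, 1]), (0, [0], [2, 3]), (1, [], [0, 4]), (1, [], [2, 3]), (4, [], [1]), (4, [], [4])]),
  (1, 3, [(0, [0], [0, 1]), (0, [0], [0, 1]), (4, [], [2]), (4, [], [2])]),
  (1, 4, [(0, [0], [0, 1]), (0, [0], [0, 2]), (1, [], [1, 3]), (4, [], [2]), (4, [], [3])]),
  (1, 4, [(0, [0], [0, 1]), (0, [0], [0, 1]), (1, [], [2, 3]), (4, [], [2]), (4, [], [3])]),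
  (1, 4, [(0, [0], [0, 1]), (0, [0], [2, 3]), (1, [], [2, 3]), (4, [], [0]), (4, [], [1])]),
  (1, 4, [(0, [0], [0, 1]), (0, [0], [2, 3]), (1, [], [0, 2]), (4, [], [3]), (4, [], [1])]),
  (1, 5, [(0, [0], [0, 1]), (0, [0], [0, 2]), (1, [], [1, 3]), (1, [], [3, 4]), (4, [], [2]), (4, [], [4])]),
  (1, 5, [(0, [0], [0, 1]), (1, [], [0, 2]), (1, [], [1, 2]), (4, [], [3]), (0, [0], [3, 4]), (4, [], [4])]),
  (1, 5, [(0, [0], [0, 1]), (1, [], [0, 2]), (1, [], [3, 2]), (4, [], [1]), (0, [0], [3, 4]), (4, [], [4])]),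
  (1, 5, [(0, [0], [0, 1]), (1, [], [0, 2]), (1, [], [3, 1]), (4, [], [2]), (0, [0], [3, 4]), (4, [], [4])]),
  (1, 5, [(0, [0], [0, 1]), (1, [], [1, 2]), (4, [], [2]), (0, [0], [0, 3]), (1, [], [3, 4]), (4, [], [4])]),
  (1, 5, [(0, [0], [0, 1]), (1, [], [2, 0]), (1, [], [3, 1]), (4, [], [4]), (0, [0], [2, 3]), (4, [], [4])]),
  (1, 5, [(0, [0], [0, 1]), (1, [], [1, 2]), (1, [], [3, 2]), (4, [], [4]), (0, [0], [0, 3]), (4, [], [4])]),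
  (1, 5, [(0, [0], [0, 1]), (1, [], [2, 3]), (1, [], [4, 1]), (4, [], [3]), (0, [0], [0, 4]), (4, [], [2])]),
  (1, 4, [(0, [0], [0, 1]), (1, [], [2, 1]), (4, [], [3]), (0, [0], [0, 2]), (4, [], [3])])]

def kl69 : List ℕ := [1, 3, 4, 31, 35, 60, 61, 79, 80, 92, 160, 170, 179, 200, 358, 378, 397, 404]

def m69_0 : Base := (0, 1, [(0, [0], [0, 3]), (1, [], [1, 3]), (4, [], [2])])

def l69_0 : Cov := [(4, 0, 1, [(0, [0], [0, 3]), (1, [], [1, 3]), (4, [], [2])]),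
  (2, 0, 1, [(0, [0], [0, 3]), (1, [], [2, 3]), (4, [], [1])]),
  (2, 0, 1, [(0, [0], [1, 3]), (1, [], [0, 3]), (4, [], [2])]),
  (-2, 0, 1, [(0, [0], [1, 3]), (1, [], [2, 3]), (4, [], [0])]),
  (-2, 0, 1, [(0, [0], [2, 3]), (1, [], [0, 3]), (4, [], [1])]),
  (-4, 0, 1, [(0, [0], [2, 3]), (1, [], [1, 3]), (4, [], [0])])]

def z69_0 : Cov := []

def w69_0 : List (List Wit) := [[(0, 0, 0, 0, 0), (1, 0, 0, 0, 0), (2, 0, 0, 0, 0), (3, 0, 0, 0, 0), (4, 0, 0, 0, 0), (5, 0, 0, 0, 0)]]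

def m69_1 : Base := (0, 1, [(0, [0], [0, 3]), (1, [], [1, 2]), (4, [], [3])])

def l69_1 : Cov := [(6, 0, 1, [(0, [0], [0, 3]), (1, [], [1, 2]), (4, [], [3])]),
  (-6, 0, 1, [(0, [0], [2, 3]), (1, [], [0, 1]), (4, [], [3])])]

def z69_1 : Cov := [(0, 0, 1, [(0, [0], [1, 3]), (1, [], [0, 2]), (4, [], [3])])]

def w69_1 : List (List Wit) := [[(0, 0, 0, 0, 0), (0, 0, 0, 0, 0), (2, 0, 0, 0, 0), (2, 0, 0, 0, 0), (1, 0, 0, 0, 0), (1, 0, 0, 0, 0)]]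

def m69_2 : Base := (0, 1, [(0, [0], [0, 3]), (1, [], [2, 3]), (4, [], [1])])

def l69_2 : Cov := [(4, 0, 1, [(0, [0], [0, 3]), (1, [], [2, 3]), (4, [], [1])]),
  (2, 0, 1, [(0, [0], [0, 3]), (1, [], [1, 3]), (4, [], [2])]),
  (2, 0, 1, [(0, [0], [1, 3]), (1, [], [2, 3]), (4, [], [0])]),
  (-2, 0, 1, [(0, [0], [1, 3]), (1, [], [0, 3]), (4, [], [2])]),
  (-2, 0, 1, [(0, [0], [2, 3]), (1, [], [1, 3]), (4, [], [0])]),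
  (-4, 0, 1, [(0, [0], [2, 3]), (1, [], [0, 3]), (4, [], [1])])]

def z69_2 : Cov := []

def w69_2 : List (List Wit) := [[(0, 0, 0, 0, 0), (1, 0, 0, 0, 0), (2, 0, 0, 0, 0), (3, 0, 0, 0, 0), (4, 0, 0, 0, 0), (5, 0, 0, 0, 0)]]

def m69_3 : Base := (0, 1, [(0, [0], [0, 1]), (1, [], [2, 3]), (4, [], [3])])

def l69_3 : Cov := [(6, 0, 1, [(0, [0], [0, 1]), (1, [], [2, 3]), (4, [], [3])]),
  (-6, 0, 1, [(0, [0], [1, 2]), (1, [], [0, 3]), (4, [], [3])])]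

def z69_3 : Cov := [(0, 0, 1, [(0, [0], [0, 2]), (1, [], [1, 3]), (4, [], [3])])]

def w69_3 : List (List Wit) := [[(0, 0, 0, 0, 0), (2, 0, 0, 0, 0), (0, 0, 0, 0, 0), (1, 0, 0, 0, 0), (2, 0, 0, 0, 0), (1, 0, 0, 0, 0)]]

def m69_4 : Base := (0, 0, [(0, [0], [0, 1]), (4, [], [2])])

def l69_4 : Cov := [(6, 0, 0, [(0, [0], [0, 1]), (4, [], [2])]),
  (-6, 0, 0, [(0, [0], [1, 2]), (4, [], [0])])]

def z69_4 : Cov := [(0, 0, 0, [(0, [0], [0, 2]), (4, [], [1])])]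

def w69_4 : List (List Wit) := [[(0, 0, 0, 0, 0), (2, 0, 0, 0, 0), (0, 0, 0, 0, 0), (1, 0, 0, 0, 0), (2, 0, 0, 0, 0), (1, 0, 0, 0, 0)]]

theorem tr69 : trK keys lk69 kl69 = true := by
  decide +kernel

theorem x69_0 : expB 1 3 dg0 dg2 m69_0 (l69_0 ++ z69_0) w69_0 = true := by
  decide +kernel

theorem x69_1 : expB 1 3 dg0 dg2 m69_1 (l69_1 ++ z69_1) w69_1 = true := by
  decide +kernel

theorem x69_2 : expB 1 3 dg0 dg2 m69_2 (l69_2 ++ z69_2) w69_2 = true := by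
  decide +kernel

theorem x69_3 : expB 1 3 dg0 dg2 m69_3 (l69_3 ++ z69_3) w69_3 = true := by
  decide +kernel

theorem x69_4 : expB 1 3 dg0 dg2 m69_4 (l69_4 ++ z69_4) w69_4 = true := by
  decide +kernel

theorem t69_0_0 : chkS lk69 1 3 [(1, m69_0)] l69_0
  [(15, 0, 0, 201760, 147760), (13, 0, 0, 201760, 147760), (14, 0, 0, 136240, 136240), (12, 0, 0, 12820, 12820), (12, 0, 0, 197665, 147715), (11, 0, 0, 197665, 147715)]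
  [(11, -4), (12, -4), (13, 2), (14, 2), (15, 4)] = true := by
  decide +kernel

theorem t69_0_1 : chkS lk69 1 3 [(1, m69_0)] l69_1
  [(9, 0, 0, 136240, 136240), (10, 0, 0, 267040, 270640)]
  [(9, 6), (10, -6)] = true := by
  decide +kernel

theorem t69_0_2 : chkS lk69 1 3 [(1, m69_0)] l69_2
  [(13, 0, 0, 201760, 147760), (15, 0, 0, 201760, 147760), (12, 0, 0, 12820, 12820), (14, 0, 0, 136240, 136240), (11, 0, 0, 197665, 147715), (12, 0, 0, 197665, 147715)]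
  [(11, -2), (12, -2), (13, 4), (14, -2), (15, 2)] = true := by
  decide +kernel

theorem t69_0_3 : chkS lk69 1 3 [(1, m69_0)] l69_3
  [(16, 0, 0, 201280, 82480), (12, 0, 0, 136240, 136240)]
  [(12, -6), (16, 6)] = true := by
  decide +kernel

theorem t69_0_4 : chkS lk69 1 3 [(1, m69_0)] l69_4
  [(17, 0, 0, 4896, 8496), (8, 0, 0, 801, 8451)]
  [(8, -6), (17, 6)] = true := by
  decide +kernel

theorem t69_1_1 : chkS lk69 1 3 [(1, m69_1)] l69_1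
  [(2, 0, 0, 136240, 136240), (11, 0, 0, 267040, 270640)]
  [(2, 6), (11, -6)] = true := by
  decide +kernel

theorem t69_1_2 : chkS lk69 1 3 [(1, m69_1)] l69_2
  [(9, 0, 0, 74560, 74560), (9, 0, 0, 74800, 136000), (10, 0, 0, 82435, 197185), (12, 0, 0, 82435, 197185), (10, 0, 0, 81955, 196930), (12, 0, 0, 81955, 196930)]
  [(9, 6), (12, -6)] = true := by
  decide +kernel

theorem t69_1_3 : chkS lk69 1 3 [(1, m69_1)] l69_3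
  [(9, 0, 0, 271120, 271120), (3, 0, 0, 267040, 270640)]
  [(3, -6), (9, 6)] = true := by
  decide +kernel

theorem t69_1_4 : chkS lk69 1 3 [(1, m69_1)] l69_4
  [(5, 0, 0, 8976, 8976), (7, 0, 0, 4896, 8496)]
  [(5, 6), (7, -6)] = true := by
  decide +kernel

theorem t69_2_2 : chkS lk69 1 3 [(1, m69_2)] l69_2
  [(15, 0, 0, 201280, 82480), (13, 0, 0, 201280, 82480), (11, 0, 0, 197185, 82435), (12, 0, 0, 197185, 82435), (12, 0, 0, 12580, 12580), (14, 0, 0, 136000, 74800)]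
  [(11, 2), (12, -4), (13, 2), (14, -4), (15, 4)] = true := by
  decide +kernel

theorem t69_2_3 : chkS lk69 1 3 [(1, m69_2)] l69_3
  [(9, 0, 0, 267040, 270640), (12, 0, 0, 136000, 74800)]
  [(9, 6), (12, -6)] = true := by
  decide +kernel

theorem t69_2_4 : chkS lk69 1 3 [(1, m69_2)] l69_4
  [(5, 0, 0, 4896, 8496), (8, 0, 0, 561, 4611)]
  [(5, 6), (8, -6)] = true := by
  decide +kernel

theorem t69_3_3 : chkS lk69 1 3 [(1, m69_3)] l69_3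
  [(1, 0, 0, 274960, 274960), (13, 0, 0, 148225, 205825)]
  [(1, 6), (13, -6)] = true := by
  decide +kernel

theorem t69_3_4 : chkS lk69 1 3 [(1, m69_3)] l69_4
  [(6, 0, 0, 12816, 12816), (5, 0, 0, 12546, 12321)]
  [(5, -6), (6, 6)] = true := by
  decide +kernel

theorem t69_4_4 : chkS lk69 1 3 [(1, m69_4)] l69_4
  [(4, 0, 0, 528, 528), (0, 0, 0, 513, 513)]
  [(0, -6), (4, 6)] = true := by
  decide +kernel

section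

variable {κ ι : Type*} [Fintype κ] [Fintype ι] [Inhabited κ] [Inhabited ι]

noncomputable def F69_0 (E : Env κ ι) : (Fin 1 → κ) → (Fin 3 → ι) → ℝ := op2 (P0 κ) (P2 ι) (fB E 1 3 m69_0)

noncomputable def F69_1 (E : Env κ ι) : (Fin 1 → κ) → (Fin 3 → ι) → ℝ := op2 (P0 κ) (P2 ι) (fB E 1 3 m69_1)

noncomputable def F69_2 (E : Env κ ι) : (Fin 1 → κ) → (Fin 3 → ι) → ℝ := op2 (P0 κ) (P2 ι) (fB E 1 3 m69_2)

noncomputable def F69_3 (E : Env κ ι) : (Fin 1 → κ) → (Fin 3 → ι) → ℝ := op2 (P0 κ) (P2 ι) (fB E 1 3 m69_3)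

noncomputable def F69_4 (E : Env κ ι) : (Fin 1 → κ) → (Fin 3 → ι) → ℝ := op2 (P0 κ) (P2 ι) (fB E 1 3 m69_4)

def r69_0_0 : List (ℕ × ℤ) := [(11, -4), (12, -4), (13, 2), (14, 2), (15, 4)]

theorem h69_0_0 (E : Env κ ι) : ip (F69_0 E) (F69_0 E) = dotS (ek E lk69) r69_0_0 :=
  op_entryZ E lk69 1 3 _ _ _ _ (pg0 κ) (pg2 ι) m69_0 m69_0 l69_0 z69_0 w69_0 x69_0 (by decide) _ (chkS_sound E lk69 1 3 _ _ _ _ t69_0_0)

def r69_0_1 : List (ℕ × ℤ) := [(9, 6), (10, -6)]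

theorem h69_0_1 (E : Env κ ι) : ip (F69_0 E) (F69_1 E) = dotS (ek E lk69) r69_0_1 :=
  op_entryZ E lk69 1 3 _ _ _ _ (pg0 κ) (pg2 ι) m69_0 m69_1 l69_1 z69_1 w69_1 x69_1 (by decide) _ (chkS_sound E lk69 1 3 _ _ _ _ t69_0_1)

def r69_0_2 : List (ℕ × ℤ) := [(11, -2), (12, -2), (13, 4), (14, -2), (15, 2)]

theorem h69_0_2 (E : Env κ ι) : ip (F69_0 E) (F69_2 E) = dotS (ek E lk69) r69_0_2 :=
  op_entryZ E lk69 1 3 _ _ _ _ (pg0 κ) (pg2 ι) m69_0 m69_2 l69_2 z69_2 w69_2 x69_2 (by decide) _ (chkS_sound E lk69 1 3 _ _ _ _ t69_0_2)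

def r69_0_3 : List (ℕ × ℤ) := [(12, -6), (16, 6)]

theorem h69_0_3 (E : Env κ ι) : ip (F69_0 E) (F69_3 E) = dotS (ek E lk69) r69_0_3 :=
  op_entryZ E lk69 1 3 _ _ _ _ (pg0 κ) (pg2 ι) m69_0 m69_3 l69_3 z69_3 w69_3 x69_3 (by decide) _ (chkS_sound E lk69 1 3 _ _ _ _ t69_0_3)

def r69_0_4 : List (ℕ × ℤ) := [(8, -6), (17, 6)]

theorem h69_0_4 (E : Env κ ι) : ip (F69_0 E) (F69_4 E) = dotS (ek E lk69) r69_0_4 :=
  op_entryZ E lk69 1 3 _ _ _ _ (pg0 κ) (pg2 ι) m69_0 m69_4 l69_4 z69_4 w69_4 x69_4 (by decide) _ (chkS_sound E lk69 1 3 _ _ _ _ t69_0_4)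

def r69_1_1 : List (ℕ × ℤ) := [(2, 6), (11, -6)]

theorem h69_1_1 (E : Env κ ι) : ip (F69_1 E) (F69_1 E) = dotS (ek E lk69) r69_1_1 :=
  op_entryZ E lk69 1 3 _ _ _ _ (pg0 κ) (pg2 ι) m69_1 m69_1 l69_1 z69_1 w69_1 x69_1 (by decide) _ (chkS_sound E lk69 1 3 _ _ _ _ t69_1_1)

def r69_1_2 : List (ℕ × ℤ) := [(9, 6), (12, -6)]

theorem h69_1_2 (E : Env κ ι) : ip (F69_1 E) (F69_2 E) = dotS (ek E lk69) r69_1_2 :=
  op_entryZ E lk69 1 3 _ _ _ _ (pg0 κ) (pg2 ι) m69_1 m69_2 l69_2 z69_2 w69_2 x69_2 (by decide) _ (chkS_sound E lk69 1 3 _ _ _ _ t69_1_2)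

def r69_1_3 : List (ℕ × ℤ) := [(3, -6), (9, 6)]

theorem h69_1_3 (E : Env κ ι) : ip (F69_1 E) (F69_3 E) = dotS (ek E lk69) r69_1_3 :=
  op_entryZ E lk69 1 3 _ _ _ _ (pg0 κ) (pg2 ι) m69_1 m69_3 l69_3 z69_3 w69_3 x69_3 (by decide) _ (chkS_sound E lk69 1 3 _ _ _ _ t69_1_3)

def r69_1_4 : List (ℕ × ℤ) := [(5, 6), (7, -6)]

theorem h69_1_4 (E : Env κ ι) : ip (F69_1 E) (F69_4 E) = dotS (ek E lk69) r69_1_4 :=
  op_entryZ E lk69 1 3 _ _ _ _ (pg0 κ) (pg2 ι) m69_1 m69_4 l69_4 z69_4 w69_4 x69_4 (by decide) _ (chkS_sound E lk69 1 3 _ _ _ _ t69_1_4)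

def r69_2_2 : List (ℕ × ℤ) := [(11, 2), (12, -4), (13, 2), (14, -4), (15, 4)]

theorem h69_2_2 (E : Env κ ι) : ip (F69_2 E) (F69_2 E) = dotS (ek E lk69) r69_2_2 :=
  op_entryZ E lk69 1 3 _ _ _ _ (pg0 κ) (pg2 ι) m69_2 m69_2 l69_2 z69_2 w69_2 x69_2 (by decide) _ (chkS_sound E lk69 1 3 _ _ _ _ t69_2_2)

def r69_2_3 : List (ℕ × ℤ) := [(9, 6), (12, -6)]

theorem h69_2_3 (E : Env κ ι) : ip (F69_2 E) (F69_3 E) = dotS (ek E lk69) r69_2_3 :=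
  op_entryZ E lk69 1 3 _ _ _ _ (pg0 κ) (pg2 ι) m69_2 m69_3 l69_3 z69_3 w69_3 x69_3 (by decide) _ (chkS_sound E lk69 1 3 _ _ _ _ t69_2_3)

def r69_2_4 : List (ℕ × ℤ) := [(5, 6), (8, -6)]

theorem h69_2_4 (E : Env κ ι) : ip (F69_2 E) (F69_4 E) = dotS (ek E lk69) r69_2_4 :=
  op_entryZ E lk69 1 3 _ _ _ _ (pg0 κ) (pg2 ι) m69_2 m69_4 l69_4 z69_4 w69_4 x69_4 (by decide) _ (chkS_sound E lk69 1 3 _ _ _ _ t69_2_4)

def r69_3_3 : List (ℕ × ℤ) := [(1, 6), (13, -6)]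

theorem h69_3_3 (E : Env κ ι) : ip (F69_3 E) (F69_3 E) = dotS (ek E lk69) r69_3_3 :=
  op_entryZ E lk69 1 3 _ _ _ _ (pg0 κ) (pg2 ι) m69_3 m69_3 l69_3 z69_3 w69_3 x69_3 (by decide) _ (chkS_sound E lk69 1 3 _ _ _ _ t69_3_3)

def r69_3_4 : List (ℕ × ℤ) := [(5, -6), (6, 6)]

theorem h69_3_4 (E : Env κ ι) : ip (F69_3 E) (F69_4 E) = dotS (ek E lk69) r69_3_4 :=
  op_entryZ E lk69 1 3 _ _ _ _ (pg0 κ) (pg2 ι) m69_3 m69_4 l69_4 z69_4 w69_4 x69_4 (by decide) _ (chkS_sound E lk69 1 3 _ _ _ _ t69_3_4)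

def r69_4_4 : List (ℕ × ℤ) := [(0, -6), (4, 6)]

theorem h69_4_4 (E : Env κ ι) : ip (F69_4 E) (F69_4 E) = dotS (ek E lk69) r69_4_4 :=
  op_entryZ E lk69 1 3 _ _ _ _ (pg0 κ) (pg2 ι) m69_4 m69_4 l69_4 z69_4 w69_4 x69_4 (by decide) _ (chkS_sound E lk69 1 3 _ _ _ _ t69_4_4)

theorem row69_0 (E : Env κ ι) : RowG (ek E lk69) (F69_0 E) [F69_0 E, F69_1 E, F69_2 E, F69_3 E, F69_4 E] [r69_0_0, r69_0_1, r69_0_2, r69_0_3, r69_0_4] :=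
  rowG_cons _ _ _ _ _ _ (h69_0_0 E) (rowG_cons _ _ _ _ _ _ (h69_0_1 E) (rowG_cons _ _ _ _ _ _ (h69_0_2 E) (rowG_cons _ _ _ _ _ _ (h69_0_3 E) (rowG_cons _ _ _ _ _ _ (h69_0_4 E) (rowG_nil _ _)))))

theorem row69_1 (E : Env κ ι) : RowG (ek E lk69) (F69_1 E) [F69_1 E, F69_2 E, F69_3 E, F69_4 E] [r69_1_1, r69_1_2, r69_1_3, r69_1_4] :=
  rowG_cons _ _ _ _ _ _ (h69_1_1 E) (rowG_cons _ _ _ _ _ _ (h69_1_2 E) (rowG_cons _ _ _ _ _ _ (h69_1_3 E) (rowG_cons _ _ _ _ _ _ (h69_1_4 E) (rowG_nil _ _))))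

theorem row69_2 (E : Env κ ι) : RowG (ek E lk69) (F69_2 E) [F69_2 E, F69_3 E, F69_4 E] [r69_2_2, r69_2_3, r69_2_4] :=
  rowG_cons _ _ _ _ _ _ (h69_2_2 E) (rowG_cons _ _ _ _ _ _ (h69_2_3 E) (rowG_cons _ _ _ _ _ _ (h69_2_4 E) (rowG_nil _ _)))

theorem row69_3 (E : Env κ ι) : RowG (ek E lk69) (F69_3 E) [F69_3 E, F69_4 E] [r69_3_3, r69_3_4] :=
  rowG_cons _ _ _ _ _ _ (h69_3_3 E) (rowG_cons _ _ _ _ _ _ (h69_3_4 E) (rowG_nil _ _))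

theorem row69_4 (E : Env κ ι) : RowG (ek E lk69) (F69_4 E) [F69_4 E] [r69_4_4] :=
  rowG_cons _ _ _ _ _ _ (h69_4_4 E) (rowG_nil _ _)

def tab69 : List (List (List (ℕ × ℤ))) := [[r69_0_0, r69_0_1, r69_0_2, r69_0_3, r69_0_4], [r69_1_1, r69_1_2, r69_1_3, r69_1_4], [r69_2_2, r69_2_3, r69_2_4], [r69_3_3, r69_3_4], [r69_4_4]]

theorem tri69 (E : Env κ ι) : TriG (ek E lk69) [F69_0 E, F69_1 E, F69_2 E, F69_3 E, F69_4 E] tab69 := by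
  refine triG_cons _ _ _ _ _ (row69_0 E) ?_
  refine triG_cons _ _ _ _ _ (row69_1 E) ?_
  refine triG_cons _ _ _ _ _ (row69_2 E) ?_
  refine triG_cons _ _ _ _ _ (row69_3 E) ?_
  refine triG_cons _ _ _ _ _ (row69_4 E) ?_
  exact triG_nil _

end

def lk70 : List Key := [
  (1, 5, [(0, [0], [0, 1]), (1, [], [0, 2]), (1, [], [3, 2]), (4, [], [1]), (0, [0], [3, 4]), (4, [], [4])]),
  (1, 5, [(0, [0], [0, 1]), (1, [], [0, 2]), (1, [], [3, 1]), (4, [], [2]), (0, [0], [3, 4]), (4, [], [4])]),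
  (1, 5, [(0, [0], [0, 1]), (1, [], [1, 2]), (4, [], [2]), (0, [0], [0, 3]), (1, [], [3, 4]), (4, [], [4])]),
  (1, 5, [(0, [0], [0, 1]), (1, [], [2, 0]), (1, [], [3, 1]), (4, [], [4]), (0, [0], [2, 3]), (4, [], [4])]),
  (1, 5, [(0, [0], [0, 1]), (1, [], [1, 2]), (1, [], [3, 2]), (4, [], [4]), (0, [0], [0, 3]), (4, [], [4])])]

def kl70 : List ℕ := [170, 179, 200, 358, 378]

def m70_0 : Base := (0, 1, [(0, [0], [0, 3]), (1, [], [1, 3]), (4, [], [2])])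

def l70_0 : Cov := [(6, 0, 1, [(0, [0], [0, 3]), (1, [], [1, 3]), (4, [], [2])]),
  (-6, 0, 1, [(0, [0], [0, 3]), (1, [], [2, 3]), (4, [], [1])]),
  (-6, 0, 1, [(0, [0], [1, 3]), (1, [], [0, 3]), (4, [], [2])]),
  (6, 0, 1, [(0, [0], [1, 3]), (1, [], [2, 3]), (4, [], [0])]),
  (6, 0, 1, [(0, [0], [2, 3]), (1, [], [0, 3]), (4, [], [1])]),
  (-6, 0, 1, [(0, [0], [2, 3]), (1, [], [1, 3]), (4, [], [0])])]

def z70_0 : Cov := []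

def w70_0 : List (List Wit) := [[(0, 0, 0, 0, 0), (1, 0, 0, 0, 0), (2, 0, 0, 0, 0), (3, 0, 0, 0, 0), (4, 0, 0, 0, 0), (5, 0, 0, 0, 0)]]

theorem tr70 : trK keys lk70 kl70 = true := by
  decide +kernel

theorem x70_0 : expB 1 3 dg0 dg3 m70_0 (l70_0 ++ z70_0) w70_0 = true := by
  decide +kernel

theorem t70_0_0 : chkS lk70 1 3 [(1, m70_0)] l70_0
  [(4, 0, 0, 201760, 147760), (2, 0, 0, 201760, 147760), (3, 0, 0, 136240, 136240), (1, 0, 0, 12820, 12820), (1, 0, 0, 197665, 147715), (0, 0, 0, 197665, 147715)]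
  [(0, -6), (1, 12), (2, -6), (3, -6), (4, 6)] = true := by
  decide +kernel

section

variable {κ ι : Type*} [Fintype κ] [Fintype ι] [Inhabited κ] [Inhabited ι]

noncomputable def F70_0 (E : Env κ ι) : (Fin 1 → κ) → (Fin 3 → ι) → ℝ := op2 (P0 κ) (P3 ι) (fB E 1 3 m70_0)

def r70_0_0 : List (ℕ × ℤ) := [(0, -6), (1, 12), (2, -6), (3, -6), (4, 6)]

theorem h70_0_0 (E : Env κ ι) : ip (F70_0 E) (F70_0 E) = dotS (ek E lk70) r70_0_0 :=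
  op_entryZ E lk70 1 3 _ _ _ _ (pg0 κ) (pg3 ι) m70_0 m70_0 l70_0 z70_0 w70_0 x70_0 (by decide) _ (chkS_sound E lk70 1 3 _ _ _ _ t70_0_0)

theorem row70_0 (E : Env κ ι) : RowG (ek E lk70) (F70_0 E) [F70_0 E] [r70_0_0] :=
  rowG_cons _ _ _ _ _ _ (h70_0_0 E) (rowG_nil _ _)

def tab70 : List (List (List (ℕ × ℤ))) := [[r70_0_0]]

theorem tri70 (E : Env κ ι) : TriG (ek E lk70) [F70_0 E] tab70 := by
  refine triG_cons _ _ _ _ _ (row70_0 E) ?_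
  exact triG_nil _

end

def lk71 : List Key := [
  (1, 5, [(0, [0], [0, 1]), (0, [0], [0, 1]), (1, [], [2, 3]), (1, [], [2, 4]), (4, [], [4]), (4, [], [3])]),
  (1, 5, [(0, [0], [0, 1]), (0, [0], [0, 2]), (4, [], [2]), (4, [], [1]), (1, [], [3, 4]), (1, [], [3, 4])]),
  (1, 5, [(0, [0], [0, 1]), (0, [0], [2, 3]), (1, [], [0, 4]), (1, [], [2, 3]), (4, [], [1]), (4, [], [4])]),
  (1, 5, [(0, [0], [0, 1]), (0, [0], [0, 1]), (1, [], [2, 3]), (1, [], [2, 3]), (4, [], [4]), (4, [], [4])]),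
  (1, 5, [(0, [0], [0, 1]), (0, [0], [0, 2]), (1, [], [1, 3]), (1, [], [3, 4]), (4, [], [2]), (4, [], [4])]),
  (1, 5, [(0, [0], [0, 1]), (1, [], [0, 2]), (1, [], [3, 2]), (4, [], [1]), (0, [0], [3, 4]), (4, [], [4])]),
  (1, 5, [(0, [0], [0, 1]), (1, [], [0, 1]), (4, [], [2]), (0, [0], [3, 4]), (1, [], [3, 4]), (4, [], [2])]),
  (1, 5, [(0, [0], [0, 1]), (1, [], [1, 2]), (4, [], [2]), (0, [0], [0, 3]), (1, [], [3, 4]), (4, [], [4])]),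
  (1, 5, [(0, [0], [0, 1]), (1, [], [1, 2]), (1, [], [3, 2]), (4, [], [4]), (0, [0], [0, 3]), (4, [], [4])])]

def kl71 : List ℕ := [3, 4, 31, 36, 92, 170, 185, 200, 378]

def m71_0 : Base := (0, 0, [(0, [0], [0, 1]), (1, [], [2, 3]), (4, [], [4])])

def l71_0 : Cov := [(480, 0, 0, [(0, [0], [0, 1]), (1, [], [2, 3]), (4, [], [4])]),
  (480, 0, 0, [(0, [0], [0, 1]), (1, [], [2, 4]), (4, [], [3])]),
  (480, 0, 0, [(0, [0], [0, 1]), (1, [], [3, 4]), (4, [], [2])]),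
  (480, 0, 0, [(0, [0], [0, 2]), (1, [], [1, 3]), (4, [], [4])]),
  (480, 0, 0, [(0, [0], [0, 2]), (1, [], [1, 4]), (4, [], [3])]),
  (480, 0, 0, [(0, [0], [0, 2]), (1, [], [3, 4]), (4, [], [1])]),
  (480, 0, 0, [(0, [0], [0, 3]), (1, [], [1, 2]), (4, [], [4])]),
  (480, 0, 0, [(0, [0], [0, 3]), (1, [], [1, 4]), (4, [], [2])]),
  (480, 0, 0, [(0, [0], [0, 3]), (1, [], [2, 4]), (4, [], [1])]),
  (480, 0, 0, [(0, [0], [0, 4]), (1, [], [1, 2]), (4, [], [3])]),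
  (480, 0, 0, [(0, [0], [0, 4]), (1, [], [1, 3]), (4, [], [2])]),
  (480, 0, 0, [(0, [0], [0, 4]), (1, [], [2, 3]), (4, [], [1])]),
  (480, 0, 0, [(0, [0], [1, 2]), (1, [], [0, 3]), (4, [], [4])]),
  (480, 0, 0, [(0, [0], [1, 2]), (1, [], [0, 4]), (4, [], [3])]),
  (480, 0, 0, [(0, [0], [1, 2]), (1, [], [3, 4]), (4, [], [0])]),
  (480, 0, 0, [(0, [0], [1, 3]), (1, [], [0, 2]), (4, [], [4])]),
  (480, 0, 0, [(0, [0], [1, 3]), (1, [], [0, 4]), (4, [], [2])]),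
  (480, 0, 0, [(0, [0], [1, 3]), (1, [], [2, 4]), (4, [], [0])]),
  (480, 0, 0, [(0, [0], [1, 4]), (1, [], [0, 2]), (4, [], [3])]),
  (480, 0, 0, [(0, [0], [1, 4]), (1, [], [0, 3]), (4, [], [2])]),
  (480, 0, 0, [(0, [0], [1, 4]), (1, [], [2, 3]), (4, [], [0])]),
  (480, 0, 0, [(0, [0], [2, 3]), (1, [], [0, 1]), (4, [], [4])]),
  (480, 0, 0, [(0, [0], [2, 3]), (1, [], [0, 4]), (4, [], [1])]),
  (480, 0, 0, [(0, [0], [2, 3]), (1, [], [1, 4]), (4, [], [0])]),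
  (480, 0, 0, [(0, [0], [2, 4]), (1, [], [0, 1]), (4, [], [3])]),
  (480, 0, 0, [(0, [0], [2, 4]), (1, [], [0, 3]), (4, [], [1])]),
  (480, 0, 0, [(0, [0], [2, 4]), (1, [], [1, 3]), (4, [], [0])]),
  (480, 0, 0, [(0, [0], [3, 4]), (1, [], [0, 1]), (4, [], [2])]),
  (480, 0, 0, [(0, [0], [3, 4]), (1, [], [0, 2]), (4, [], [1])]),
  (480, 0, 0, [(0, [0], [3, 4]), (1, [], [1, 2]), (4, [], [0])])]

def z71_0 : Cov := []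

def w71_0 : List (List Wit) := [[(0, 0, 0, 0, 0), (1, 0, 0, 0, 0), (0, 0, 0, 0, 0), (2, 0, 0, 0, 0), (1, 0, 0, 0, 0), (2, 0, 0, 0, 0), (3, 0, 0, 0, 0), (4, 0, 0, 0, 0), (3, 0, 0, 0, 0), (5, 0, 0, 0, 0), (4, 0, 0, 0, 0), (5, 0, 0, 0, 0), (6, 0, 0, 0, 0), (7, 0, 0, 0, 0), (6, 0, 0, 0, 0), (8, 0, 0, 0, 0), (7, 0, 0, 0, 0), (8, 0, 0, 0, 0), (9, 0, 0, 0, 0), (10, 0, 0, 0, 0), (9, 0, 0, 0, 0), (11, 0, 0, 0, 0), (10, 0, 0, 0, 0), (11, 0, 0, 0, 0), (0, 0, 0, 0, 0), (1, 0, 0, 0, 0), (0, 0, 0, 0, 0), (2, 0, 0, 0, 0), (1, 0, 0, 0, 0), (2, 0, 0, 0, 0), (12, 0, 0, 0, 0), (13, 0, 0, 0, 0), (12, 0, 0, 0, 0), (14, 0, 0, 0, 0), (13, 0, 0, 0, 0), (14, 0, 0, 0, 0), (15, 0, 0, 0, 0), (16, 0, 0, 0, 0), (15, 0, 0, 0, 0), (17, 0, 0, 0, 0), (16, 0, 0, 0, 0), (17, 0, 0, 0, 0), (18, 0, 0, 0, 0), (19, 0, 0, 0, 0), (18, 0, 0, 0, 0), (20, 0, 0,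 0, 0), (19, 0, 0, 0, 0), (20, 0, 0, 0, 0), (3, 0, 0, 0, 0), (4, 0, 0, 0, 0), (3, 0, 0, 0, 0), (5, 0, 0, 0, 0), (4, 0, 0, 0, 0), (5, 0, 0, 0, 0), (12, 0, 0, 0, 0), (13, 0, 0, 0, 0), (12, 0, 0, 0, 0), (14, 0, 0, 0, 0), (13, 0, 0, 0, 0), (14, 0, 0, 0, 0), (21, 0, 0, 0, 0), (22, 0, 0, 0, 0), (21, 0, 0, 0, 0), (23, 0, 0, 0, 0), (22, 0, 0, 0, 0), (23, 0, 0, 0, 0), (24, 0, 0, 0, 0), (25, 0, 0, 0, 0), (24, 0, 0, 0, 0), (26, 0, 0, 0, 0), (25, 0, 0, 0, 0), (26, 0, 0, 0, 0), (6, 0, 0, 0, 0), (7, 0, 0, 0, 0), (6, 0, 0, 0, 0), (8, 0, 0, 0, 0), (7, 0, 0, 0, 0), (8, 0, 0, 0, 0), (15, 0, 0, 0, 0), (16, 0, 0, 0, 0), (15, 0, 0, 0, 0), (17, 0, 0, 0, 0), (16, 0, 0, 0, 0), (17, 0, 0, 0, 0), (21, 0, 0, 0, 0), (22, 0, 0, 0, 0), (21, 0, 0, 0, 0), (23, 0, 0, 0, 0), (22, 0, 0, 0, 0), (23, 0, 0, 0, 0), (27, 0, 0, 0, 0), (28, 0, 0, 0, 0), (27,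 0, 0, 0, 0), (29, 0, 0, 0, 0), (28, 0, 0, 0, 0), (29, 0, 0, 0, 0), (9, 0, 0, 0, 0), (10, 0, 0, 0, 0), (9, 0, 0, 0, 0), (11, 0, 0, 0, 0), (10, 0, 0, 0, 0), (11, 0, 0, 0, 0), (18, 0, 0, 0, 0), (19, 0, 0, 0, 0), (18, 0, 0, 0, 0), (20, 0, 0, 0, 0), (19, 0, 0, 0, 0), (20, 0, 0, 0, 0), (24, 0, 0, 0, 0), (25, 0, 0, 0, 0), (24, 0, 0, 0, 0), (26, 0, 0, 0, 0), (25, 0, 0, 0, 0), (26, 0, 0, 0, 0), (27, 0, 0, 0, 0), (28, 0, 0, 0, 0), (27, 0, 0, 0, 0), (29, 0, 0, 0, 0), (28, 0, 0, 0, 0), (29, 0, 0, 0, 0)]]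

theorem tr71 : trK keys lk71 kl71 = true := by
  decide +kernel

theorem x71_0 : expB 1 5 dg0 dg4 m71_0 (l71_0 ++ z71_0) w71_0 = true := by
  decide +kernel

theorem t71_0_0 : chkS lk71 1 5 [(1, m71_0)] l71_0
  [(3, 0, 0, 274960, 274960), (0, 0, 0, 274960, 274960), (0, 0, 0, 271120, 271120), (8, 0, 0, 271120, 271120), (7, 0, 0, 148240, 205840), (4, 0, 0, 274720, 274720), (8, 0, 0, 274960, 274960), (7, 0, 0, 144400, 144400), (4, 0, 0, 267040, 270640), (4, 0, 0, 148240, 205840), (4, 0, 0, 144400, 144400), (1, 0, 0, 148240, 205840), (8, 0, 0, 271105, 271105), (7, 0, 0, 148225, 205825), (4, 0, 0, 274690, 274465), (8, 0, 0, 274945, 274945), (7, 0, 0, 144385, 144385), (4, 0, 0, 267010, 270385), (4, 0, 0, 148225, 205825), (4, 0, 0, 144385, 144385), (1, 0, 0, 148225, 205825), (6, 0, 0, 148240, 205840), (2, 0, 0, 274960, 274960),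 (2, 0, 0, 274945, 274945), (2, 0, 0, 81970, 200770), (5, 0, 0, 271120, 271120), (5, 0, 0, 271105, 271105), (2, 0, 0, 66610, 135235), (5, 0, 0, 274960, 274960), (5, 0, 0, 274945, 274945)]
  [(0, 960), (1, 960), (2, 1920), (3, 480), (4, 3840), (5, 1920), (6, 480), (7, 1920), (8, 1920)] = true := by
  decide +kernel

section

variable {κ ι : Type*} [Fintype κ] [Fintype ι] [Inhabited κ] [Inhabited ι]

noncomputable def F71_0 (E : Env κ ι) : (Fin 1 → κ) → (Fin 5 → ι) → ℝ := op2 (P0 κ) (P4 ι) (fB E 1 5 m71_0)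

def r71_0_0 : List (ℕ × ℤ) := [(0, 960), (1, 960), (2, 1920), (3, 480), (4, 3840), (5, 1920), (6, 480), (7, 1920), (8, 1920)]

theorem h71_0_0 (E : Env κ ι) : ip (F71_0 E) (F71_0 E) = dotS (ek E lk71) r71_0_0 :=
  op_entryZ E lk71 1 5 _ _ _ _ (pg0 κ) (pg4 ι) m71_0 m71_0 l71_0 z71_0 w71_0 x71_0 (by decide) _ (chkS_sound E lk71 1 5 _ _ _ _ t71_0_0)

theorem row71_0 (E : Env κ ι) : RowG (ek E lk71) (F71_0 E) [F71_0 E] [r71_0_0] :=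
  rowG_cons _ _ _ _ _ _ (h71_0_0 E) (rowG_nil _ _)

def tab71 : List (List (List (ℕ × ℤ))) := [[r71_0_0]]

theorem tri71 (E : Env κ ι) : TriG (ek E lk71) [F71_0 E] tab71 := by
  refine triG_cons _ _ _ _ _ (row71_0 E) ?_
  exact triG_nil _

end

def lk72 : List Key := [
  (1, 5, [(0, [0], [0, 1]), (0, [0], [0, 1]), (1, [], [2, 3]), (1, [], [2, 4]), (4, [], [4]), (4, [], [3])]),
  (1, 5, [(0, [0], [0, 1]), (0, [0], [0, 2]), (4, [], [2]), (4, [], [1]), (1, [], [3, 4]), (1, [], [3, 4])]),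
  (1, 5, [(0, [0], [0, 1]), (0, [0], [2, 3]), (1, [], [0, 4]), (1, [], [2, 3]), (4, [], [1]), (4, [], [4])]),
  (1, 5, [(0, [0], [0, 1]), (0, [0], [0, 1]), (1, [], [2, 3]), (1, [], [2, 3]), (4, [], [4]), (4, [], [4])]),
  (1, 5, [(0, [0], [0, 1]), (0, [0], [0, 2]), (1, [], [1, 3]), (1, [], [3, 4]), (4, [], [2]), (4, [], [4])]),
  (1, 5, [(0, [0], [0, 1]), (1, [], [0, 2]), (1, [], [3, 2]), (4, [], [1]), (0, [0], [3, 4]), (4, [], [4])]),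
  (1, 5, [(0, [0], [0, 1]), (1, [], [0, 1]), (4, [], [2]), (0, [0], [3, 4]), (1, [], [3, 4]), (4, [], [2])]),
  (1, 5, [(0, [0], [0, 1]), (1, [], [1, 2]), (4, [], [2]), (0, [0], [0, 3]), (1, [], [3, 4]), (4, [], [4])]),
  (1, 5, [(0, [0], [0, 1]), (1, [], [1, 2]), (1, [], [3, 2]), (4, [], [4]), (0, [0], [0, 3]), (4, [], [4])])]

def kl72 : List ℕ := [3, 4, 31, 36, 92, 170, 185, 200, 378]

def m72_0 : Base := (0, 0, [(0, [0], [0, 1]), (1, [], [2, 3]), (4, [], [4])])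

def l72_0 : Cov := [(144, 0, 0, [(0, [0], [0, 1]), (1, [], [2, 3]), (4, [], [4])]),
  (48, 0, 0, [(0, [0], [0, 1]), (1, [], [2, 4]), (4, [], [3])]),
  (48, 0, 0, [(0, [0], [0, 1]), (1, [], [3, 4]), (4, [], [2])]),
  (144, 0, 0, [(0, [0], [0, 2]), (1, [], [1, 3]), (4, [], [4])]),
  (48, 0, 0, [(0, [0], [0, 2]), (1, [], [1, 4]), (4, [], [3])]),
  (48, 0, 0, [(0, [0], [0, 2]), (1, [], [3, 4]), (4, [], [1])]),
  (144, 0, 0, [(0, [0], [0, 3]), (1, [], [1, 2]), (4, [], [4])]),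
  (48, 0, 0, [(0, [0], [0, 3]), (1, [], [1, 4]), (4, [], [2])]),
  (48, 0, 0, [(0, [0], [0, 3]), (1, [], [2, 4]), (4, [], [1])]),
  (96, 0, 0, [(0, [0], [1, 2]), (1, [], [0, 3]), (4, [], [4])]),
  (-96, 0, 0, [(0, [0], [1, 2]), (1, [], [3, 4]), (4, [], [0])]),
  (96, 0, 0, [(0, [0], [1, 3]), (1, [], [0, 2]), (4, [], [4])]),
  (-96, 0, 0, [(0, [0], [1, 3]), (1, [], [2, 4]), (4, [], [0])]),
  (-144, 0, 0, [(0, [0], [1, 4]), (1, [], [2, 3]), (4, [], [0])]),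
  (96, 0, 0, [(0, [0], [2, 3]), (1, [], [0, 1]), (4, [], [4])]),
  (-96, 0, 0, [(0, [0], [2, 3]), (1, [], [1, 4]), (4, [], [0])]),
  (-144, 0, 0, [(0, [0], [2, 4]), (1, [], [1, 3]), (4, [], [0])]),
  (-144, 0, 0, [(0, [0], [3, 4]), (1, [], [1, 2]), (4, [], [0])]),
  (-48, 0, 0, [(0, [0], [4, 1]), (1, [], [0, 2]), (4, [], [3])]),
  (-48, 0, 0, [(0, [0], [4, 1]), (1, [], [0, 3]), (4, [], [2])]),
  (-48, 0, 0, [(0, [0], [4, 2]), (1, [], [0, 1]), (4, [], [3])]),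
  (-48, 0, 0, [(0, [0], [4, 2]), (1, [], [0, 3]), (4, [], [1])]),
  (-48, 0, 0, [(0, [0], [4, 3]), (1, [], [0, 1]), (4, [], [2])]),
  (-48, 0, 0, [(0, [0], [4, 3]), (1, [], [0, 2]), (4, [], [1])])]

def z72_0 : Cov := [(0, 0, 0, [(0, [0], [0, 4]), (1, [], [1, 2]), (4, [], [3])]),
  (0, 0, 0, [(0, [0], [0, 4]), (1, [], [1, 3]), (4, [], [2])]),
  (0, 0, 0, [(0, [0], [0, 4]), (1, [], [2, 3]), (4, [], [1])])]

def w72_0 : List (List Wit) := [[(0, 0, 0, 0, 0), (1, 0, 0, 0, 0), (0, 0, 0, 0, 0), (2, 0, 0, 0, 0), (1, 0, 0, 0, 0), (2, 0, 0, 0, 0), (3, 0, 0, 0, 0), (4, 0, 0, 0, 0), (3, 0, 0, 0, 0), (5, 0, 0, 0, 0), (4, 0, 0, 0, 0), (5, 0, 0, 0, 0), (6, 0, 0, 0, 0), (7, 0, 0, 0, 0), (6, 0, 0, 0, 0), (8, 0, 0, 0, 0), (7, 0, 0, 0, 0), (8, 0, 0, 0, 0), (24, 0, 0, 0, 0), (25, 0, 0, 0, 0), (24, 0, 0, 0, 0), (26, 0, 0, 0, 0), (25, 0,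 0, 0, 0), (26, 0, 0, 0, 0), (0, 0, 0, 0, 0), (0, 0, 0, 0, 0), (9, 0, 0, 0, 0), (9, 0, 0, 0, 0), (10, 0, 0, 0, 0), (10, 0, 0, 0, 0), (11, 0, 0, 0, 0), (11, 0, 0, 0, 0), (12, 0, 0, 0, 0), (12, 0, 0, 0, 0), (13, 0, 0, 0, 0), (13, 0, 0, 0, 0), (3, 0, 0, 0, 0), (3, 0, 0, 0, 0), (9, 0, 0, 0, 0), (9, 0, 0, 0, 0), (10, 0, 0, 0, 0), (10, 0, 0, 0, 0), (14, 0, 0, 0, 0), (14, 0, 0, 0, 0), (15, 0, 0, 0, 0), (15, 0, 0, 0, 0), (16, 0, 0, 0, 0), (16, 0, 0, 0, 0), (6, 0, 0, 0, 0), (6, 0, 0, 0, 0), (11, 0, 0, 0, 0), (11, 0, 0, 0, 0), (12, 0, 0, 0, 0), (12, 0, 0, 0, 0), (14, 0, 0, 0, 0), (14, 0, 0, 0, 0), (15, 0, 0, 0, 0), (15, 0, 0, 0, 0), (17, 0, 0, 0, 0), (17, 0, 0, 0, 0), (24, 0, 0, 0, 0), (25, 0, 0, 0, 0), (24, 0, 0, 0, 0), (26, 0, 0, 0, 0), (25, 0, 0, 0, 0), (26, 0, 0, 0, 0), (18, 0, 0, 0, 0), (19, 0, 0, 0, 0), (18, 0, 0, 0, 0),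 (13, 0, 0, 0, 0), (19, 0, 0, 0, 0), (13, 0, 0, 0, 0), (20, 0, 0, 0, 0), (21, 0, 0, 0, 0), (20, 0, 0, 0, 0), (16, 0, 0, 0, 0), (21, 0, 0, 0, 0), (16, 0, 0, 0, 0), (22, 0, 0, 0, 0), (23, 0, 0, 0, 0), (22, 0, 0, 0, 0), (17, 0, 0, 0, 0), (23, 0, 0, 0, 0), (17, 0, 0, 0, 0)]]

def m72_1 : Base := (0, 0, [(0, [0], [0, 1]), (1, [], [2, 4]), (4, [], [3])])

def l72_1 : Cov := [(96, 0, 0, [(0, [0], [0, 1]), (1, [], [2, 4]), (4, [], [3])]),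
  (48, 0, 0, [(0, [0], [0, 1]), (1, [], [2, 3]), (4, [], [4])]),
  (96, 0, 0, [(0, [0], [0, 1]), (1, [], [3, 4]), (4, [], [2])]),
  (96, 0, 0, [(0, [0], [0, 2]), (1, [], [1, 4]), (4, [], [3])]),
  (48, 0, 0, [(0, [0], [0, 2]), (1, [], [1, 3]), (4, [], [4])]),
  (96, 0, 0, [(0, [0], [0, 2]), (1, [], [3, 4]), (4, [], [1])]),
  (96, 0, 0, [(0, [0], [0, 3]), (1, [], [1, 4]), (4, [], [2])]),
  (48, 0, 0, [(0, [0], [0, 3]), (1, [], [1, 2]), (4, [], [4])]),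
  (96, 0, 0, [(0, [0], [0, 3]), (1, [], [2, 4]), (4, [], [1])]),
  (48, 0, 0, [(0, [0], [1, 2]), (1, [], [3, 4]), (4, [], [0])]),
  (-48, 0, 0, [(0, [0], [1, 2]), (1, [], [3, 0]), (4, [], [4])]),
  (48, 0, 0, [(0, [0], [1, 3]), (1, [], [2, 4]), (4, [], [0])]),
  (-48, 0, 0, [(0, [0], [1, 3]), (1, [], [2, 0]), (4, [], [4])]),
  (-96, 0, 0, [(0, [0], [1, 4]), (1, [], [2, 0]), (4, [], [3])]),
  (-96, 0, 0, [(0, [0], [1, 4]), (1, [], [3, 0]), (4, [], [2])]),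
  (48, 0, 0, [(0, [0], [2, 3]), (1, [], [1, 4]), (4, [], [0])]),
  (-48, 0, 0, [(0, [0], [2, 3]), (1, [], [1, 0]), (4, [], [4])]),
  (-96, 0, 0, [(0, [0], [2, 4]), (1, [], [1, 0]), (4, [], [3])]),
  (-96, 0, 0, [(0, [0], [2, 4]), (1, [], [3, 0]), (4, [], [1])]),
  (-96, 0, 0, [(0, [0], [3, 4]), (1, [], [1, 0]), (4, [], [2])]),
  (-96, 0, 0, [(0, [0], [3, 4]), (1, [], [2, 0]), (4, [], [1])]),
  (-48, 0, 0, [(0, [0], [4, 1]), (1, [], [2, 3]), (4, [], [0])]),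
  (-48, 0, 0, [(0, [0], [4, 2]), (1, [], [1, 3]), (4, [], [0])]),
  (-48, 0, 0, [(0, [0], [4, 3]), (1, [], [1, 2]), (4, [], [0])])]

def z72_1 : Cov := [(0, 0, 0, [(0, [0], [0, 4]), (1, [], [1, 3]), (4, [], [2])]),
  (0, 0, 0, [(0, [0], [0, 4]), (1, [], [1, 2]), (4, [], [3])]),
  (0, 0, 0, [(0, [0], [0, 4]), (1, [], [2, 3]), (4, [], [1])]),
  (0, 0, 0, [(0, [0], [1, 2]), (1, [], [0, 4]), (4, [], [3])]),
  (0, 0, 0, [(0, [0], [1, 3]), (1, [], [0, 4]), (4, [], [2])]),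
  (0, 0, 0, [(0, [0], [2, 3]), (1, [], [0, 4]), (4, [], [1])])]

def w72_1 : List (List Wit) := [[(0, 0, 0, 0, 0), (1, 0, 0, 0, 0), (2, 0, 0, 0, 0), (1, 0, 0, 0, 0), (2, 0, 0, 0, 0), (0, 0, 0, 0, 0), (3, 0, 0, 0, 0), (4, 0, 0, 0, 0), (5, 0, 0, 0, 0), (4, 0, 0, 0, 0), (5, 0, 0, 0, 0), (3, 0, 0, 0, 0), (6, 0, 0, 0, 0), (7, 0, 0, 0, 0), (8, 0, 0, 0, 0), (7, 0, 0, 0, 0), (8, 0, 0, 0, 0), (6, 0, 0, 0, 0), (24, 0, 0, 0, 0), (25, 0, 0, 0, 0), (26, 0, 0, 0, 0), (25, 0, 0, 0, 0), (26, 0, 0, 0, 0), (24, 0, 0, 0, 0), (0, 0, 0, 0, 0), (2, 0, 0, 0, 0), (27, 0, 0, 0, 0), (9, 0, 0, 0, 0), (10, 0, 0, 0, 0), (27, 0, 0, 0, 0), (28, 0, 0, 0, 0), (11, 0, 0, 0, 0), (12, 0, 0, 0, 0), (28, 0, 0, 0, 0), (13, 0, 0, 0, 0), (14, 0, 0, 0, 0), (3, 0, 0, 0, 0), (5, 0, 0, 0, 0), (27, 0, 0, 0, 0), (9, 0, 0, 0, 0), (10, 0, 0, 0, 0), (27, 0, 0, 0, 0),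 (29, 0, 0, 0, 0), (15, 0, 0, 0, 0), (16, 0, 0, 0, 0), (29, 0, 0, 0, 0), (17, 0, 0, 0, 0), (18, 0, 0, 0, 0), (6, 0, 0, 0, 0), (8, 0, 0, 0, 0), (28, 0, 0, 0, 0), (11, 0, 0, 0, 0), (12, 0, 0, 0, 0), (28, 0, 0, 0, 0), (29, 0, 0, 0, 0), (15, 0, 0, 0, 0), (16, 0, 0, 0, 0), (29, 0, 0, 0, 0), (19, 0, 0, 0, 0), (20, 0, 0, 0, 0), (24, 0, 0, 0, 0), (25, 0, 0, 0, 0), (26, 0, 0, 0, 0), (25, 0, 0, 0, 0), (26, 0, 0, 0, 0), (24, 0, 0, 0, 0), (14, 0, 0, 0, 0), (13, 0, 0, 0, 0), (21, 0, 0, 0, 0), (13, 0, 0, 0, 0), (21, 0, 0, 0, 0), (14, 0, 0, 0, 0), (18, 0, 0, 0, 0), (17, 0, 0, 0, 0), (22, 0, 0, 0, 0), (17, 0, 0, 0, 0), (22, 0, 0, 0, 0), (18, 0, 0, 0, 0), (20, 0, 0, 0, 0), (19, 0, 0, 0, 0), (23, 0, 0, 0, 0), (19, 0, 0, 0, 0), (23, 0, 0, 0, 0), (20, 0, 0, 0, 0)]]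

theorem tr72 : trK keys lk72 kl72 = true := by
  decide +kernel

theorem x72_0 : expB 1 5 dg0 dg5 m72_0 (l72_0 ++ z72_0) w72_0 = true := by
  decide +kernel

theorem x72_1 : expB 1 5 dg0 dg5 m72_1 (l72_1 ++ z72_1) w72_1 = true := by
  decide +kernel

theorem t72_0_0 : chkS lk72 1 5 [(1, m72_0)] l72_0
  [(3, 0, 0, 274960, 274960), (0, 0, 0, 274960, 274960), (0, 0, 0, 271120, 271120), (8, 0, 0, 271120, 271120), (7, 0, 0, 148240, 205840), (4, 0, 0, 274720, 274720), (8, 0, 0, 274960, 274960), (7, 0, 0, 144400, 144400), (4, 0, 0, 267040, 270640), (8, 0, 0, 271105, 271105), (4, 0, 0, 274690, 274465), (8, 0, 0, 274945, 274945), (4, 0, 0, 267010, 270385), (1, 0, 0, 148225, 205825), (6, 0, 0, 148240, 205840), (2, 0, 0, 274945, 274945), (5, 0, 0, 271105, 271105), (5, 0, 0, 274945, 274945), (4, 0, 0, 148225, 205825), (4, 0, 0,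 144385, 144385), (2, 0, 0, 81970, 200770), (5, 0, 0, 271120, 271120), (2, 0, 0, 66610, 135235), (5, 0, 0, 274960, 274960)]
  [(0, 96), (1, -144), (2, -192), (3, 144), (4, -192), (5, -384), (6, 96), (7, 96), (8, 480)] = true := by
  decide +kernel

theorem t72_0_1 : chkS lk72 1 5 [(1, m72_0)] l72_1
  [(0, 0, 0, 274960, 274960), (3, 0, 0, 274960, 274960), (0, 0, 0, 271120, 271120), (7, 0, 0, 148240, 205840), (8, 0, 0, 271120, 271120), (4, 0, 0, 274720, 274720), (7, 0, 0, 144400, 144400), (8, 0, 0, 274960, 274960), (4, 0, 0, 267040, 270640), (4, 0, 0, 274690, 274465), (8, 0, 0, 271105, 271105), (4, 0, 0, 267010, 270385), (8, 0, 0, 274945, 274945), (4, 0, 0, 148225, 205825), (4, 0, 0, 144385, 144385), (2, 0, 0, 274945, 274945), (6, 0, 0, 148240, 205840), (2, 0, 0, 81970, 200770), (5, 0, 0, 271120, 271120), (2, 0, 0, 66610,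 135235), (5, 0, 0, 274960, 274960), (1, 0, 0, 148225, 205825), (5, 0, 0, 271105, 271105), (5, 0, 0, 274945, 274945)]
  [(0, 192), (1, -48), (2, -144), (3, 48), (4, 96), (5, -288), (6, -48), (7, 192), (8, 0)] = true := by
  decide +kernel

theorem t72_1_1 : chkS lk72 1 5 [(1, m72_1)] l72_1
  [(3, 0, 0, 213520, 213520), (0, 0, 0, 213520, 213520), (0, 0, 0, 148240, 205840), (8, 0, 0, 148240, 205840), (7, 0, 0, 271120, 271120), (4, 0, 0, 213280, 213280), (4, 0, 0, 205840, 148240), (4, 0, 0, 271120, 271120), (1, 0, 0, 271120, 271120), (4, 0, 0, 213250, 213025), (7, 0, 0, 271105, 271105), (1, 0, 0, 271105, 271105), (4, 0, 0, 271105, 271105), (8, 0, 0, 213505, 213505), (7, 0, 0, 205825, 148225), (5, 0, 0, 148225, 205825), (2, 0, 0, 266290, 266290), (6, 0, 0, 271120, 271120), (2, 0, 0, 213520, 213520), (2, 0, 0, 5170, 135220),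 (5, 0, 0, 213520, 213520), (4, 0, 0, 82690, 204865), (2, 0, 0, 148225, 205825), (5, 0, 0, 213505, 213505)]
  [(0, 144), (1, 144), (2, -288), (3, 96), (4, 192), (5, -96), (6, -96), (7, -96), (8, 0)] = true := by
  decide +kernel

section

variable {κ ι : Type*} [Fintype κ] [Fintype ι] [Inhabited κ] [Inhabited ι]

noncomputable def F72_0 (E : Env κ ι) : (Fin 1 → κ) → (Fin 5 → ι) → ℝ := op2 (P0 κ) (P5 ι) (fB E 1 5 m72_0)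

noncomputable def F72_1 (E : Env κ ι) : (Fin 1 → κ) → (Fin 5 → ι) → ℝ := op2 (P0 κ) (P5 ι) (fB E 1 5 m72_1)

def r72_0_0 : List (ℕ × ℤ) := [(0, 96), (1, -144), (2, -192), (3, 144), (4, -192), (5, -384), (6, 96), (7, 96), (8, 480)]

theorem h72_0_0 (E : Env κ ι) : ip (F72_0 E) (F72_0 E) = dotS (ek E lk72) r72_0_0 :=
  op_entryZ E lk72 1 5 _ _ _ _ (pg0 κ) (pg5 ι) m72_0 m72_0 l72_0 z72_0 w72_0 x72_0 (by decide) _ (chkS_sound E lk72 1 5 _ _ _ _ t72_0_0)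

def r72_0_1 : List (ℕ × ℤ) := [(0, 192), (1, -48), (2, -144), (3, 48), (4, 96), (5, -288), (6, -48), (7, 192), (8, 0)]

theorem h72_0_1 (E : Env κ ι) : ip (F72_0 E) (F72_1 E) = dotS (ek E lk72) r72_0_1 :=
  op_entryZ E lk72 1 5 _ _ _ _ (pg0 κ) (pg5 ι) m72_0 m72_1 l72_1 z72_1 w72_1 x72_1 (by decide) _ (chkS_sound E lk72 1 5 _ _ _ _ t72_0_1)

def r72_1_1 : List (ℕ × ℤ) := [(0, 144), (1, 144), (2, -288), (3, 96), (4, 192), (5, -96), (6, -96), (7, -96), (8, 0)]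

theorem h72_1_1 (E : Env κ ι) : ip (F72_1 E) (F72_1 E) = dotS (ek E lk72) r72_1_1 :=
  op_entryZ E lk72 1 5 _ _ _ _ (pg0 κ) (pg5 ι) m72_1 m72_1 l72_1 z72_1 w72_1 x72_1 (by decide) _ (chkS_sound E lk72 1 5 _ _ _ _ t72_1_1)

theorem row72_0 (E : Env κ ι) : RowG (ek E lk72) (F72_0 E) [F72_0 E, F72_1 E] [r72_0_0, r72_0_1] :=
  rowG_cons _ _ _ _ _ _ (h72_0_0 E) (rowG_cons _ _ _ _ _ _ (h72_0_1 E) (rowG_nil _ _))

theorem row72_1 (E : Env κ ι) : RowG (ek E lk72) (F72_1 E) [F72_1 E] [r72_1_1] :=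
  rowG_cons _ _ _ _ _ _ (h72_1_1 E) (rowG_nil _ _)

def tab72 : List (List (List (ℕ × ℤ))) := [[r72_0_0, r72_0_1], [r72_1_1]]

theorem tri72 (E : Env κ ι) : TriG (ek E lk72) [F72_0 E, F72_1 E] tab72 := by
  refine triG_cons _ _ _ _ _ (row72_0 E) ?_
  refine triG_cons _ _ _ _ _ (row72_1 E) ?_
  exact triG_nil _

end

def lk73 : List Key := [
  (1, 5, [(0, [0], [0, 1]), (0, [0], [0, 1]), (1, [], [2, 3]), (1, [], [2, 4]), (4, [], [4]), (4, [], [3])]),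
  (1, 5, [(0, [0], [0, 1]), (0, [0], [0, 2]), (4, [], [2]), (4, [], [1]), (1, [], [3, 4]), (1, [], [3, 4])]),
  (1, 5, [(0, [0], [0, 1]), (0, [0], [2, 3]), (1, [], [0, 4]), (1, [], [2, 3]), (4, [], [1]), (4, [], [4])]),
  (1, 5, [(0, [0], [0, 1]), (0, [0], [0, 1]), (1, [], [2, 3]), (1, [], [2, 3]), (4, [], [4]), (4, [], [4])]),
  (1, 5, [(0, [0], [0, 1]), (0, [0], [0, 2]), (1, [], [1, 3]), (1, [], [3, 4]), (4, [], [2]), (4, [], [4])]),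
  (1, 5, [(0, [0], [0, 1]), (1, [], [0, 2]), (1, [], [3, 2]), (4, [], [1]), (0, [0], [3, 4]), (4, [], [4])]),
  (1, 5, [(0, [0], [0, 1]), (1, [], [0, 1]), (4, [], [2]), (0, [0], [3, 4]), (1, [], [3, 4]), (4, [], [2])]),
  (1, 5, [(0, [0], [0, 1]), (1, [], [1, 2]), (4, [], [2]), (0, [0], [0, 3]), (1, [], [3, 4]), (4, [], [4])]),
  (1, 5, [(0, [0], [0, 1]), (1, [], [1, 2]), (1, [], [3, 2]), (4, [], [4]), (0, [0], [0, 3]), (4, [], [4])])]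

def kl73 : List ℕ := [3, 4, 31, 36, 92, 170, 185, 200, 378]

def m73_0 : Base := (0, 0, [(0, [0], [0, 1]), (1, [], [2, 3]), (4, [], [4])])

def l73_0 : Cov := [(108, 0, 0, [(0, [0], [0, 1]), (1, [], [2, 3]), (4, [], [4])]),
  (108, 0, 0, [(0, [0], [0, 1]), (1, [], [2, 4]), (4, [], [3])]),
  (72, 0, 0, [(0, [0], [0, 1]), (1, [], [3, 4]), (4, [], [2])]),
  (36, 0, 0, [(0, [0], [0, 2]), (1, [], [1, 3]), (4, [], [4])]),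
  (-36, 0, 0, [(0, [0], [0, 2]), (1, [], [3, 4]), (4, [], [1])]),
  (-108, 0, 0, [(0, [0], [0, 4]), (1, [], [1, 2]), (4, [], [3])]),
  (-72, 0, 0, [(0, [0], [0, 4]), (1, [], [1, 3]), (4, [], [2])]),
  (-108, 0, 0, [(0, [0], [0, 4]), (1, [], [2, 3]), (4, [], [1])]),
  (36, 0, 0, [(0, [0], [1, 2]), (1, [], [0, 4]), (4, [], [3])]),
  (-36, 0, 0, [(0, [0], [1, 2]), (1, [], [3, 4]), (4, [], [0])]),
  (-108, 0, 0, [(0, [0], [1, 3]), (1, [], [0, 2]), (4, [], [4])]),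
  (-72, 0, 0, [(0, [0], [1, 3]), (1, [], [0, 4]), (4, [], [2])]),
  (-108, 0, 0, [(0, [0], [1, 3]), (1, [], [2, 4]), (4, [], [0])]),
  (-36, 0, 0, [(0, [0], [2, 3]), (1, [], [0, 1]), (4, [], [4])]),
  (36, 0, 0, [(0, [0], [2, 3]), (1, [], [0, 4]), (4, [], [1])]),
  (-36, 0, 0, [(0, [0], [2, 4]), (1, [], [0, 1]), (4, [], [3])]),
  (36, 0, 0, [(0, [0], [2, 4]), (1, [], [1, 3]), (4, [], [0])]),
  (72, 0, 0, [(0, [0], [3, 4]), (1, [], [0, 1]), (4, [], [2])]),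
  (108, 0, 0, [(0, [0], [3, 4]), (1, [], [0, 2]), (4, [], [1])]),
  (108, 0, 0, [(0, [0], [3, 4]), (1, [], [1, 2]), (4, [], [0])])]

def z73_0 : Cov := [(0, 0, 0, [(0, [0], [0, 2]), (1, [], [1, 4]), (4, [], [3])]),
  (0, 0, 0, [(0, [0], [0, 3]), (1, [], [1, 2]), (4, [], [4])]),
  (0, 0, 0, [(0, [0], [0, 3]), (1, [], [1, 4]), (4, [], [2])]),
  (0, 0, 0, [(0, [0], [0, 3]), (1, [], [2, 4]), (4, [], [1])]),
  (0, 0, 0, [(0, [0], [1, 2]), (1, [], [0, 3]), (4, [], [4])]),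
  (0, 0, 0, [(0, [0], [1, 4]), (1, [], [0, 2]), (4, [], [3])]),
  (0, 0, 0, [(0, [0], [1, 4]), (1, [], [0, 3]), (4, [], [2])]),
  (0, 0, 0, [(0, [0], [1, 4]), (1, [], [2, 3]), (4, [], [0])]),
  (0, 0, 0, [(0, [0], [2, 3]), (1, [], [1, 4]), (4, [], [0])]),
  (0, 0, 0, [(0, [0], [2, 4]), (1, [], [0, 3]), (4, [], [1])])]

def w73_0 : List (List Wit) := [[(0, 0, 0, 0, 0), (1, 0, 0, 0, 0), (0, 0, 0, 0, 0), (2, 0, 0, 0, 0), (1, 0, 0, 0, 0), (2, 0, 0, 0, 0), (3, 0, 0, 0, 0), (20, 0, 0, 0, 0), (3, 0, 0, 0, 0), (4, 0, 0, 0, 0), (20, 0, 0, 0, 0), (4, 0, 0, 0, 0), (21, 0, 0, 0, 0), (22, 0, 0, 0, 0), (21, 0, 0, 0, 0), (23, 0, 0, 0, 0), (22, 0, 0, 0, 0), (23, 0, 0, 0, 0), (5, 0, 0, 0, 0), (6, 0, 0, 0, 0), (5, 0, 0, 0, 0), (7, 0, 0, 0, 0), (6, 0, 0, 0, 0), (7, 0, 0, 0, 0), (0, 0, 0, 0, 0), (1, 0, 0, 0, 0), (0, 0, 0, 0, 0), (2, 0,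 0, 0, 0), (1, 0, 0, 0, 0), (2, 0, 0, 0, 0), (24, 0, 0, 0, 0), (8, 0, 0, 0, 0), (24, 0, 0, 0, 0), (9, 0, 0, 0, 0), (8, 0, 0, 0, 0), (9, 0, 0, 0, 0), (10, 0, 0, 0, 0), (11, 0, 0, 0, 0), (10, 0, 0, 0, 0), (12, 0, 0, 0, 0), (11, 0, 0, 0, 0), (12, 0, 0, 0, 0), (25, 0, 0, 0, 0), (26, 0, 0, 0, 0), (25, 0, 0, 0, 0), (27, 0, 0, 0, 0), (26, 0, 0, 0, 0), (27, 0, 0, 0, 0), (3, 0, 0, 0, 0), (20, 0, 0, 0, 0), (3, 0, 0, 0, 0), (4, 0, 0, 0, 0), (20, 0, 0, 0, 0), (4, 0, 0, 0, 0), (24, 0, 0, 0, 0), (8, 0, 0, 0, 0), (24, 0, 0, 0, 0), (9, 0, 0, 0, 0), (8, 0, 0, 0, 0), (9, 0, 0, 0, 0), (13, 0, 0, 0, 0), (14, 0, 0, 0, 0), (13, 0, 0, 0, 0), (28, 0, 0, 0, 0), (14, 0, 0, 0, 0), (28, 0, 0, 0, 0), (15, 0, 0, 0, 0), (29, 0, 0, 0, 0), (15, 0, 0, 0, 0), (16, 0, 0, 0, 0), (29, 0, 0, 0, 0), (16, 0, 0, 0, 0), (21, 0, 0, 0, 0), (22, 0, 0, 0, 0), (21,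 0, 0, 0, 0), (23, 0, 0, 0, 0), (22, 0, 0, 0, 0), (23, 0, 0, 0, 0), (10, 0, 0, 0, 0), (11, 0, 0, 0, 0), (10, 0, 0, 0, 0), (12, 0, 0, 0, 0), (11, 0, 0, 0, 0), (12, 0, 0, 0, 0), (13, 0, 0, 0, 0), (14, 0, 0, 0, 0), (13, 0, 0, 0, 0), (28, 0, 0, 0, 0), (14, 0, 0, 0, 0), (28, 0, 0, 0, 0), (17, 0, 0, 0, 0), (18, 0, 0, 0, 0), (17, 0, 0, 0, 0), (19, 0, 0, 0, 0), (18, 0, 0, 0, 0), (19, 0, 0, 0, 0), (5, 0, 0, 0, 0), (6, 0, 0, 0, 0), (5, 0, 0, 0, 0), (7, 0, 0, 0, 0), (6, 0, 0, 0, 0), (7, 0, 0, 0, 0), (25, 0, 0, 0, 0), (26, 0, 0, 0, 0), (25, 0, 0, 0, 0), (27, 0, 0, 0, 0), (26, 0, 0, 0, 0), (27, 0, 0, 0, 0), (15, 0, 0, 0, 0), (29, 0, 0, 0, 0), (15, 0, 0, 0, 0), (16, 0, 0, 0, 0), (29, 0, 0, 0, 0), (16, 0, 0, 0, 0), (17, 0, 0, 0, 0), (18, 0, 0, 0, 0), (17, 0, 0, 0, 0), (19, 0, 0, 0, 0), (18, 0, 0, 0, 0), (19, 0, 0, 0, 0)]]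

def m73_1 : Base := (0, 0, [(0, [0], [0, 1]), (1, [], [3, 4]), (4, [], [2])])

def l73_1 : Cov := [(144, 0, 0, [(0, [0], [0, 1]), (1, [], [3, 4]), (4, [], [2])]),
  (72, 0, 0, [(0, [0], [0, 1]), (1, [], [2, 4]), (4, [], [3])]),
  (72, 0, 0, [(0, [0], [0, 1]), (1, [], [2, 3]), (4, [], [4])]),
  (72, 0, 0, [(0, [0], [0, 2]), (1, [], [3, 4]), (4, [], [1])]),
  (-72, 0, 0, [(0, [0], [0, 2]), (1, [], [1, 3]), (4, [], [4])]),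
  (-72, 0, 0, [(0, [0], [0, 4]), (1, [], [2, 3]), (4, [], [1])]),
  (-144, 0, 0, [(0, [0], [0, 4]), (1, [], [1, 3]), (4, [], [2])]),
  (-72, 0, 0, [(0, [0], [0, 4]), (1, [], [1, 2]), (4, [], [3])]),
  (72, 0, 0, [(0, [0], [1, 2]), (1, [], [3, 4]), (4, [], [0])]),
  (-72, 0, 0, [(0, [0], [1, 2]), (1, [], [0, 4]), (4, [], [3])]),
  (-72, 0, 0, [(0, [0], [1, 3]), (1, [], [2, 4]), (4, [], [0])]),
  (-144, 0, 0, [(0, [0], [1, 3]), (1, [], [0, 4]), (4, [], [2])]),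
  (-72, 0, 0, [(0, [0], [1, 3]), (1, [], [0, 2]), (4, [], [4])]),
  (-72, 0, 0, [(0, [0], [2, 3]), (1, [], [0, 4]), (4, [], [1])]),
  (72, 0, 0, [(0, [0], [2, 3]), (1, [], [0, 1]), (4, [], [4])]),
  (-72, 0, 0, [(0, [0], [2, 4]), (1, [], [1, 3]), (4, [], [0])]),
  (72, 0, 0, [(0, [0], [2, 4]), (1, [], [0, 1]), (4, [], [3])]),
  (72, 0, 0, [(0, [0], [3, 4]), (1, [], [1, 2]), (4, [], [0])]),
  (72, 0, 0, [(0, [0], [3, 4]), (1, [], [0, 2]), (4, [], [1])]),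
  (144, 0, 0, [(0, [0], [3, 4]), (1, [], [0, 1]), (4, [], [2])])]

def z73_1 : Cov := [(0, 0, 0, [(0, [0], [0, 2]), (1, [], [1, 4]), (4, [], [3])]),
  (0, 0, 0, [(0, [0], [0, 3]), (1, [], [2, 4]), (4, [], [1])]),
  (0, 0, 0, [(0, [0], [0, 3]), (1, [], [1, 4]), (4, [], [2])]),
  (0, 0, 0, [(0, [0], [0, 3]), (1, [], [1, 2]), (4, [], [4])]),
  (0, 0, 0, [(0, [0], [1, 2]), (1, [], [0, 3]), (4, [], [4])]),
  (0, 0, 0, [(0, [0], [1, 4]), (1, [], [2, 3]), (4, [], [0])]),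
  (0, 0, 0, [(0, [0], [1, 4]), (1, [], [0, 3]), (4, [], [2])]),
  (0, 0, 0, [(0, [0], [1, 4]), (1, [], [0, 2]), (4, [], [3])]),
  (0, 0, 0, [(0, [0], [2, 3]), (1, [], [1, 4]), (4, [], [0])]),
  (0, 0, 0, [(0, [0], [2, 4]), (1, [], [0, 3]), (4, [], [1])])]

def w73_1 : List (List Wit) := [[(0, 0, 0, 0, 0), (0, 0, 0, 0, 0), (1, 0, 0, 0, 0), (1, 0, 0, 0, 0), (2, 0, 0, 0, 0), (2, 0, 0, 0, 0), (3, 0, 0, 0, 0), (3, 0, 0, 0, 0), (20, 0, 0, 0, 0), (20, 0, 0, 0, 0), (4, 0, 0, 0, 0), (4, 0, 0, 0, 0), (21, 0, 0, 0, 0), (21, 0, 0, 0, 0), (22, 0, 0, 0, 0), (22, 0, 0, 0, 0), (23, 0, 0, 0, 0), (23, 0, 0, 0, 0), (5, 0, 0, 0, 0), (5, 0, 0, 0, 0), (6, 0, 0, 0, 0), (6, 0, 0, 0, 0), (7, 0, 0, 0, 0), (7, 0, 0, 0, 0), (0, 0, 0, 0, 0), (0, 0, 0, 0, 0), (1, 0, 0, 0, 0), (1, 0, 0, 0, 0), (2, 0, 0, 0, 0), (2, 0, 0, 0, 0), (8, 0, 0, 0, 0), (8,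 0, 0, 0, 0), (9, 0, 0, 0, 0), (9, 0, 0, 0, 0), (24, 0, 0, 0, 0), (24, 0, 0, 0, 0), (10, 0, 0, 0, 0), (10, 0, 0, 0, 0), (11, 0, 0, 0, 0), (11, 0, 0, 0, 0), (12, 0, 0, 0, 0), (12, 0, 0, 0, 0), (25, 0, 0, 0, 0), (25, 0, 0, 0, 0), (26, 0, 0, 0, 0), (26, 0, 0, 0, 0), (27, 0, 0, 0, 0), (27, 0, 0, 0, 0), (3, 0, 0, 0, 0), (3, 0, 0, 0, 0), (20, 0, 0, 0, 0), (20, 0, 0, 0, 0), (4, 0, 0, 0, 0), (4, 0, 0, 0, 0), (8, 0, 0, 0, 0), (8, 0, 0, 0, 0), (9, 0, 0, 0, 0), (9, 0, 0, 0, 0), (24, 0, 0, 0, 0), (24, 0, 0, 0, 0), (28, 0, 0, 0, 0), (28, 0, 0, 0, 0), (13, 0, 0, 0, 0), (13, 0, 0, 0, 0), (14, 0, 0, 0, 0), (14, 0, 0, 0, 0), (15, 0, 0, 0, 0), (15, 0, 0, 0, 0), (29, 0, 0, 0, 0), (29, 0, 0, 0, 0), (16, 0, 0, 0, 0), (16, 0, 0, 0, 0), (21, 0, 0, 0, 0), (21, 0, 0, 0, 0), (22, 0, 0, 0, 0), (22, 0, 0, 0, 0), (23, 0, 0, 0, 0), (23, 0, 0, 0, 0),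 (10, 0, 0, 0, 0), (10, 0, 0, 0, 0), (11, 0, 0, 0, 0), (11, 0, 0, 0, 0), (12, 0, 0, 0, 0), (12, 0, 0, 0, 0), (28, 0, 0, 0, 0), (28, 0, 0, 0, 0), (13, 0, 0, 0, 0), (13, 0, 0, 0, 0), (14, 0, 0, 0, 0), (14, 0, 0, 0, 0), (17, 0, 0, 0, 0), (17, 0, 0, 0, 0), (18, 0, 0, 0, 0), (18, 0, 0, 0, 0), (19, 0, 0, 0, 0), (19, 0, 0, 0, 0), (5, 0, 0, 0, 0), (5, 0, 0, 0, 0), (6, 0, 0, 0, 0), (6, 0, 0, 0, 0), (7, 0, 0, 0, 0), (7, 0, 0, 0, 0), (25, 0, 0, 0, 0), (25, 0, 0, 0, 0), (26, 0, 0, 0, 0), (26, 0, 0, 0, 0), (27, 0, 0, 0, 0), (27, 0, 0, 0, 0), (15, 0, 0, 0, 0), (15, 0, 0, 0, 0), (29, 0, 0, 0, 0), (29, 0, 0, 0, 0), (16, 0, 0, 0, 0), (16, 0, 0, 0, 0), (17, 0, 0, 0, 0), (17, 0, 0, 0, 0), (18, 0, 0, 0, 0), (18, 0, 0, 0, 0), (19, 0, 0, 0, 0), (19, 0, 0, 0, 0)]]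

theorem tr73 : trK keys lk73 kl73 = true := by
  decide +kernel

theorem x73_0 : expB 1 5 dg0 dg6 m73_0 (l73_0 ++ z73_0) w73_0 = true := by
  decide +kernel

theorem x73_1 : expB 1 5 dg0 dg6 m73_1 (l73_1 ++ z73_1) w73_1 = true := by
  decide +kernel

theorem t73_0_0 : chkS lk73 1 5 [(1, m73_0)] l73_0
  [(3, 0, 0, 274960, 274960), (0, 0, 0, 274960, 274960), (0, 0, 0, 271120, 271120), (8, 0, 0, 271120, 271120), (4, 0, 0, 274720, 274720), (4, 0, 0, 148240, 205840), (4, 0, 0, 144400, 144400), (1, 0, 0, 148240, 205840), (7, 0, 0, 148225, 205825), (4, 0, 0, 274690, 274465), (8, 0, 0, 274945, 274945), (7, 0, 0, 144385, 144385), (4, 0, 0, 267010, 270385), (6, 0, 0, 148240, 205840), (2, 0, 0, 274960, 274960), (2, 0, 0, 81970, 200770), (5, 0, 0, 271105, 271105), (2, 0, 0, 66610, 135235), (5, 0, 0, 274960, 274960), (5, 0, 0, 274945,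 274945)]
  [(0, 180), (1, -108), (2, 72), (3, 108), (4, -360), (5, 252), (6, -36), (7, -36), (8, -72)] = true := by
  decide +kernel

theorem t73_0_1 : chkS lk73 1 5 [(1, m73_0)] l73_1
  [(0, 0, 0, 271120, 271120), (0, 0, 0, 274960, 274960), (3, 0, 0, 274960, 274960), (4, 0, 0, 274720, 274720), (8, 0, 0, 271120, 271120), (1, 0, 0, 148240, 205840), (4, 0, 0, 144400, 144400), (4, 0, 0, 148240, 205840), (4, 0, 0, 274690, 274465), (7, 0, 0, 148225, 205825), (4, 0, 0, 267010, 270385), (7, 0, 0, 144385, 144385), (8, 0, 0, 274945, 274945), (2, 0, 0, 274960, 274960), (6, 0, 0, 148240, 205840), (5, 0, 0, 271105, 271105), (2, 0, 0, 81970, 200770), (5, 0, 0, 274945, 274945), (5, 0, 0, 274960, 274960), (2, 0, 0, 66610, 135235)]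
  [(0, 216), (1, -72), (2, 144), (3, 72), (4, -144), (5, 72), (6, 72), (7, -216), (8, -144)] = true := by
  decide +kernel

theorem t73_1_1 : chkS lk73 1 5 [(1, m73_1)] l73_1
  [(3, 0, 0, 205840, 148240), (0, 0, 0, 144400, 144400), (0, 0, 0, 205840, 148240), (1, 0, 0, 274960, 274960), (4, 0, 0, 274960, 274960), (4, 0, 0, 78880, 143680), (8, 0, 0, 205840, 148240), (7, 0, 0, 213520, 213520), (1, 0, 0, 274945, 274945), (4, 0, 0, 213505, 213505), (4, 0, 0, 201730, 147505), (8, 0, 0, 144385, 144385), (7, 0, 0, 274945, 274945), (5, 0, 0, 144400, 144400), (2, 0, 0, 262450, 266275), (5, 0, 0, 205825, 148225), (2, 0, 0, 16690, 200740), (2, 0, 0, 205825, 148225), (2, 0, 0, 205840, 148240), (6, 0, 0, 274960, 274960)]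
  [(0, 144), (1, 144), (2, 288), (3, 144), (4, -288), (5, -144), (6, 144), (7, -144), (8, -288)] = true := by
  decide +kernel

section

variable {κ ι : Type*} [Fintype κ] [Fintype ι] [Inhabited κ] [Inhabited ι]

noncomputable def F73_0 (E : Env κ ι) : (Fin 1 → κ) → (Fin 5 → ι) → ℝ := op2 (P0 κ) (P6 ι) (fB E 1 5 m73_0)

noncomputable def F73_1 (E : Env κ ι) : (Fin 1 → κ) → (Fin 5 → ι) → ℝ := op2 (P0 κ) (P6 ι) (fB E 1 5 m73_1)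

def r73_0_0 : List (ℕ × ℤ) := [(0, 180), (1, -108), (2, 72), (3, 108), (4, -360), (5, 252), (6, -36), (7, -36), (8, -72)]

theorem h73_0_0 (E : Env κ ι) : ip (F73_0 E) (F73_0 E) = dotS (ek E lk73) r73_0_0 :=
  op_entryZ E lk73 1 5 _ _ _ _ (pg0 κ) (pg6 ι) m73_0 m73_0 l73_0 z73_0 w73_0 x73_0 (by decide) _ (chkS_sound E lk73 1 5 _ _ _ _ t73_0_0)

def r73_0_1 : List (ℕ × ℤ) := [(0, 216), (1, -72), (2, 144), (3, 72), (4, -144), (5, 72), (6, 72), (7, -216), (8, -144)]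

theorem h73_0_1 (E : Env κ ι) : ip (F73_0 E) (F73_1 E) = dotS (ek E lk73) r73_0_1 :=
  op_entryZ E lk73 1 5 _ _ _ _ (pg0 κ) (pg6 ι) m73_0 m73_1 l73_1 z73_1 w73_1 x73_1 (by decide) _ (chkS_sound E lk73 1 5 _ _ _ _ t73_0_1)

def r73_1_1 : List (ℕ × ℤ) := [(0, 144), (1, 144), (2, 288), (3, 144), (4, -288), (5, -144), (6, 144), (7, -144), (8, -288)]

theorem h73_1_1 (E : Env κ ι) : ip (F73_1 E) (F73_1 E) = dotS (ek E lk73) r73_1_1 :=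
  op_entryZ E lk73 1 5 _ _ _ _ (pg0 κ) (pg6 ι) m73_1 m73_1 l73_1 z73_1 w73_1 x73_1 (by decide) _ (chkS_sound E lk73 1 5 _ _ _ _ t73_1_1)

theorem row73_0 (E : Env κ ι) : RowG (ek E lk73) (F73_0 E) [F73_0 E, F73_1 E] [r73_0_0, r73_0_1] :=
  rowG_cons _ _ _ _ _ _ (h73_0_0 E) (rowG_cons _ _ _ _ _ _ (h73_0_1 E) (rowG_nil _ _))

theorem row73_1 (E : Env κ ι) : RowG (ek E lk73) (F73_1 E) [F73_1 E] [r73_1_1] :=
  rowG_cons _ _ _ _ _ _ (h73_1_1 E) (rowG_nil _ _)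

def tab73 : List (List (List (ℕ × ℤ))) := [[r73_0_0, r73_0_1], [r73_1_1]]

theorem tri73 (E : Env κ ι) : TriG (ek E lk73) [F73_0 E, F73_1 E] tab73 := by
  refine triG_cons _ _ _ _ _ (row73_0 E) ?_
  refine triG_cons _ _ _ _ _ (row73_1 E) ?_
  exact triG_nil _

end

def lk74 : List Key := [
  (1, 5, [(0, [0], [0, 1]), (0, [0], [0, 1]), (1, [], [2, 3]), (1, [], [2, 4]), (4, [], [4]), (4, [], [3])]),
  (1, 5, [(0, [0], [0, 1]), (0, [0], [0, 2]), (4, [], [2]), (4, [], [1]), (1, [], [3, 4]), (1, [], [3, 4])]),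
  (1, 5, [(0, [0], [0, 1]), (0, [0], [2, 3]), (1, [], [0, 4]), (1, [], [2, 3]), (4, [], [1]), (4, [], [4])]),
  (1, 5, [(0, [0], [0, 1]), (0, [0], [0, 1]), (1, [], [2, 3]), (1, [], [2, 3]), (4, [], [4]), (4, [], [4])]),
  (1, 5, [(0, [0], [0, 1]), (0, [0], [0, 2]), (1, [], [1, 3]), (1, [], [3, 4]), (4, [], [2]), (4, [], [4])]),
  (1, 5, [(0, [0], [0, 1]), (1, [], [0, 2]), (1, [], [3, 2]), (4, [], [1]), (0, [0], [3, 4]), (4, [], [4])]),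
  (1, 5, [(0, [0], [0, 1]), (1, [], [0, 1]), (4, [], [2]), (0, [0], [3, 4]), (1, [], [3, 4]), (4, [], [2])]),
  (1, 5, [(0, [0], [0, 1]), (1, [], [1, 2]), (4, [], [2]), (0, [0], [0, 3]), (1, [], [3, 4]), (4, [], [4])]),
  (1, 5, [(0, [0], [0, 1]), (1, [], [1, 2]), (1, [], [3, 2]), (4, [], [4]), (0, [0], [0, 3]), (4, [], [4])])]

def kl74 : List ℕ := [3, 4, 31, 36, 92, 170, 185, 200, 378]

def m74_0 : Base := (0, 0, [(0, [0], [0, 1]), (1, [], [2, 3]), (4, [], [4])])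

def l74_0 : Cov := [(60, 0, 0, [(0, [0], [0, 1]), (1, [], [2, 3]), (4, [], [4])]),
  (-60, 0, 0, [(0, [0], [0, 1]), (1, [], [2, 4]), (4, [], [3])]),
  (60, 0, 0, [(0, [0], [0, 2]), (1, [], [1, 3]), (4, [], [4])]),
  (-60, 0, 0, [(0, [0], [0, 2]), (1, [], [1, 4]), (4, [], [3])]),
  (-60, 0, 0, [(0, [0], [1, 3]), (1, [], [2, 0]), (4, [], [4])]),
  (60, 0, 0, [(0, [0], [1, 3]), (1, [], [2, 4]), (4, [], [0])]),
  (60, 0, 0, [(0, [0], [1, 4]), (1, [], [2, 0]), (4, [], [3])]),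
  (-60, 0, 0, [(0, [0], [1, 4]), (1, [], [2, 3]), (4, [], [0])]),
  (-60, 0, 0, [(0, [0], [2, 3]), (1, [], [1, 0]), (4, [], [4])]),
  (60, 0, 0, [(0, [0], [2, 3]), (1, [], [1, 4]), (4, [], [0])]),
  (60, 0, 0, [(0, [0], [2, 4]), (1, [], [1, 0]), (4, [], [3])]),
  (-60, 0, 0, [(0, [0], [2, 4]), (1, [], [1, 3]), (4, [], [0])])]

def z74_0 : Cov := [(0, 0, 0, [(0, [0], [0, 1]), (1, [], [3, 4]), (4, [], [2])]),
  (0, 0, 0, [(0, [0], [0, 2]), (1, [], [3, 4]), (4, [], [1])]),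
  (0, 0, 0, [(0, [0], [0, 3]), (1, [], [1, 2]), (4, [], [4])]),
  (0, 0, 0, [(0, [0], [0, 3]), (1, [], [1, 4]), (4, [], [2])]),
  (0, 0, 0, [(0, [0], [0, 3]), (1, [], [2, 4]), (4, [], [1])]),
  (0, 0, 0, [(0, [0], [0, 4]), (1, [], [1, 2]), (4, [], [3])]),
  (0, 0, 0, [(0, [0], [0, 4]), (1, [], [1, 3]), (4, [], [2])]),
  (0, 0, 0, [(0, [0], [0, 4]), (1, [], [2, 3]), (4, [], [1])]),
  (0, 0, 0, [(0, [0], [1, 2]), (1, [], [0, 3]), (4, [], [4])]),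
  (0, 0, 0, [(0, [0], [1, 2]), (1, [], [0, 4]), (4, [], [3])]),
  (0, 0, 0, [(0, [0], [1, 2]), (1, [], [3, 4]), (4, [], [0])]),
  (0, 0, 0, [(0, [0], [3, 1]), (1, [], [0, 4]), (4, [], [2])]),
  (0, 0, 0, [(0, [0], [3, 2]), (1, [], [0, 4]), (4, [], [1])]),
  (0, 0, 0, [(0, [0], [3, 4]), (1, [], [1, 0]), (4, [], [2])]),
  (0, 0, 0, [(0, [0], [3, 4]), (1, [], [1, 2]), (4, [], [0])]),
  (0, 0, 0, [(0, [0], [3, 4]), (1, [], [2, 0]), (4, [], [1])]),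
  (0, 0, 0, [(0, [0], [4, 1]), (1, [], [0, 3]), (4, [], [2])]),
  (0, 0, 0, [(0, [0], [4, 2]), (1, [], [0, 3]), (4, [], [1])])]

def w74_0 : List (List Wit) := [[(0, 0, 0, 0, 0), (1, 0, 0, 0, 0), (0, 0, 0, 0, 0), (12, 0, 0, 0, 0), (1, 0, 0, 0, 0), (12, 0, 0, 0, 0), (2, 0, 0, 0, 0), (3, 0, 0, 0, 0), (2, 0, 0, 0, 0), (13, 0, 0, 0, 0), (3, 0, 0, 0, 0), (13, 0, 0, 0, 0), (14, 0, 0, 0, 0), (15, 0, 0, 0, 0), (14, 0, 0, 0, 0), (16, 0, 0, 0, 0), (17, 0, 0, 0, 0), (18, 0, 0, 0, 0), (17, 0, 0, 0, 0), (19, 0, 0, 0, 0), (0, 0, 0, 0, 0), (1, 0, 0, 0, 0), (20, 0, 0, 0, 0), (21, 0, 0, 0, 0), (20, 0, 0, 0, 0), (22, 0, 0, 0, 0), (21, 0, 0, 0, 0), (22, 0, 0, 0, 0), (4, 0, 0, 0, 0), (5, 0, 0, 0, 0), (6, 0, 0, 0, 0), (7, 0, 0, 0, 0), (2, 0, 0, 0, 0), (3, 0, 0, 0, 0), (20, 0, 0, 0, 0), (21, 0, 0, 0, 0), (20, 0, 0, 0, 0), (22, 0, 0, 0, 0),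 (21, 0, 0, 0, 0), (22, 0, 0, 0, 0), (8, 0, 0, 0, 0), (9, 0, 0, 0, 0), (10, 0, 0, 0, 0), (11, 0, 0, 0, 0), (14, 0, 0, 0, 0), (15, 0, 0, 0, 0), (14, 0, 0, 0, 0), (16, 0, 0, 0, 0), (4, 0, 0, 0, 0), (23, 0, 0, 0, 0), (4, 0, 0, 0, 0), (5, 0, 0, 0, 0), (23, 0, 0, 0, 0), (5, 0, 0, 0, 0), (8, 0, 0, 0, 0), (24, 0, 0, 0, 0), (8, 0, 0, 0, 0), (9, 0, 0, 0, 0), (24, 0, 0, 0, 0), (9, 0, 0, 0, 0), (25, 0, 0, 0, 0), (26, 0, 0, 0, 0), (27, 0, 0, 0, 0), (26, 0, 0, 0, 0), (17, 0, 0, 0, 0), (18, 0, 0, 0, 0), (17, 0, 0, 0, 0), (19, 0, 0, 0, 0), (6, 0, 0, 0, 0), (28, 0, 0, 0, 0), (6, 0, 0, 0, 0), (7, 0, 0, 0, 0), (28, 0, 0, 0, 0), (7, 0, 0, 0, 0), (10, 0, 0, 0, 0), (29, 0, 0, 0, 0), (10, 0, 0, 0, 0), (11, 0, 0, 0, 0), (29, 0, 0, 0, 0), (11, 0, 0, 0, 0), (25, 0, 0, 0, 0), (26, 0, 0, 0, 0), (27, 0, 0, 0, 0), (26, 0, 0, 0, 0)]]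

theorem tr74 : trK keys lk74 kl74 = true := by
  decide +kernel

theorem x74_0 : expB 1 5 dg0 dg7 m74_0 (l74_0 ++ z74_0) w74_0 = true := by
  decide +kernel

theorem t74_0_0 : chkS lk74 1 5 [(1, m74_0)] l74_0
  [(3, 0, 0, 274960, 274960), (0, 0, 0, 274960, 274960), (8, 0, 0, 271120, 271120), (7, 0, 0, 148240, 205840), (8, 0, 0, 274945, 274945), (4, 0, 0, 267010, 270385), (4, 0, 0, 148225, 205825), (1, 0, 0, 148225, 205825), (6, 0, 0, 148240, 205840), (2, 0, 0, 274945, 274945), (2, 0, 0, 81970, 200770), (5, 0, 0, 271105, 271105)]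
  [(0, -60), (1, -60), (2, 120), (3, 60), (4, 120), (5, -60), (6, -60), (7, -60), (8, 0)] = true := by
  decide +kernel

section

variable {κ ι : Type*} [Fintype κ] [Fintype ι] [Inhabited κ] [Inhabited ι]

noncomputable def F74_0 (E : Env κ ι) : (Fin 1 → κ) → (Fin 5 → ι) → ℝ := op2 (P0 κ) (P7 ι) (fB E 1 5 m74_0)

def r74_0_0 : List (ℕ × ℤ) := [(0, -60), (1, -60), (2, 120), (3, 60), (4, 120), (5, -60), (6, -60), (7, -60), (8, 0)]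

theorem h74_0_0 (E : Env κ ι) : ip (F74_0 E) (F74_0 E) = dotS (ek E lk74) r74_0_0 :=
  op_entryZ E lk74 1 5 _ _ _ _ (pg0 κ) (pg7 ι) m74_0 m74_0 l74_0 z74_0 w74_0 x74_0 (by decide) _ (chkS_sound E lk74 1 5 _ _ _ _ t74_0_0)

theorem row74_0 (E : Env κ ι) : RowG (ek E lk74) (F74_0 E) [F74_0 E] [r74_0_0] :=
  rowG_cons _ _ _ _ _ _ (h74_0_0 E) (rowG_nil _ _)

def tab74 : List (List (List (ℕ × ℤ))) := [[r74_0_0]]

theorem tri74 (E : Env κ ι) : TriG (ek E lk74) [F74_0 E] tab74 := by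
  refine triG_cons _ _ _ _ _ (row74_0 E) ?_
  exact triG_nil _

end

def lk75 : List Key := [
  (1, 5, [(0, [0], [0, 1]), (0, [0], [0, 1]), (1, [], [2, 3]), (1, [], [2, 4]), (4, [], [4]), (4, [], [3])]),
  (1, 5, [(0, [0], [0, 1]), (0, [0], [0, 2]), (4, [], [2]), (4, [], [1]), (1, [], [3, 4]), (1, [], [3, 4])]),
  (1, 5, [(0, [0], [0, 1]), (0, [0], [2, 3]), (1, [], [0, 4]), (1, [], [2, 3]), (4, [], [1]), (4, [], [4])]),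
  (1, 5, [(0, [0], [0, 1]), (0, [0], [0, 1]), (1, [], [2, 3]), (1, [], [2, 3]), (4, [], [4]), (4, [], [4])]),
  (1, 5, [(0, [0], [0, 1]), (0, [0], [0, 2]), (1, [], [1, 3]), (1, [], [3, 4]), (4, [], [2]), (4, [], [4])]),
  (1, 5, [(0, [0], [0, 1]), (1, [], [0, 2]), (1, [], [3, 2]), (4, [], [1]), (0, [0], [3, 4]), (4, [], [4])]),
  (1, 5, [(0, [0], [0, 1]), (1, [], [0, 1]), (4, [], [2]), (0, [0], [3, 4]), (1, [], [3, 4]), (4, [], [2])]),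
  (1, 5, [(0, [0], [0, 1]), (1, [], [1, 2]), (4, [], [2]), (0, [0], [0, 3]), (1, [], [3, 4]), (4, [], [4])]),
  (1, 5, [(0, [0], [0, 1]), (1, [], [1, 2]), (1, [], [3, 2]), (4, [], [4]), (0, [0], [0, 3]), (4, [], [4])])]

def kl75 : List ℕ := [3, 4, 31, 36, 92, 170, 185, 200, 378]

def m75_0 : Base := (0, 0, [(0, [0], [0, 1]), (1, [], [2, 3]), (4, [], [4])])

def l75_0 : Cov := [(96, 0, 0, [(0, [0], [0, 1]), (1, [], [2, 3]), (4, [], [4])]),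
  (-96, 0, 0, [(0, [0], [0, 1]), (1, [], [3, 4]), (4, [], [2])]),
  (-96, 0, 0, [(0, [0], [0, 3]), (1, [], [1, 2]), (4, [], [4])]),
  (96, 0, 0, [(0, [0], [0, 3]), (1, [], [1, 4]), (4, [], [2])]),
  (-96, 0, 0, [(0, [0], [1, 2]), (1, [], [0, 3]), (4, [], [4])]),
  (96, 0, 0, [(0, [0], [1, 2]), (1, [], [3, 4]), (4, [], [0])]),
  (96, 0, 0, [(0, [0], [1, 4]), (1, [], [0, 3]), (4, [], [2])]),
  (-96, 0, 0, [(0, [0], [1, 4]), (1, [], [2, 3]), (4, [], [0])]),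
  (96, 0, 0, [(0, [0], [2, 3]), (1, [], [0, 1]), (4, [], [4])]),
  (-96, 0, 0, [(0, [0], [2, 3]), (1, [], [1, 4]), (4, [], [0])]),
  (-96, 0, 0, [(0, [0], [3, 4]), (1, [], [0, 1]), (4, [], [2])]),
  (96, 0, 0, [(0, [0], [3, 4]), (1, [], [1, 2]), (4, [], [0])])]

def z75_0 : Cov := [(0, 0, 0, [(0, [0], [0, 1]), (1, [], [2, 4]), (4, [], [3])]),
  (0, 0, 0, [(0, [0], [0, 2]), (1, [], [1, 3]), (4, [], [4])]),
  (0, 0, 0, [(0, [0], [0, 2]), (1, [], [1, 4]), (4, [], [3])]),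
  (0, 0, 0, [(0, [0], [0, 2]), (1, [], [3, 4]), (4, [], [1])]),
  (0, 0, 0, [(0, [0], [0, 3]), (1, [], [2, 4]), (4, [], [1])]),
  (0, 0, 0, [(0, [0], [0, 4]), (1, [], [1, 2]), (4, [], [3])]),
  (0, 0, 0, [(0, [0], [0, 4]), (1, [], [1, 3]), (4, [], [2])]),
  (0, 0, 0, [(0, [0], [0, 4]), (1, [], [2, 3]), (4, [], [1])]),
  (0, 0, 0, [(0, [0], [1, 2]), (1, [], [0, 4]), (4, [], [3])]),
  (0, 0, 0, [(0, [0], [1, 3]), (1, [], [0, 2]), (4, [], [4])]),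
  (0, 0, 0, [(0, [0], [1, 3]), (1, [], [0, 4]), (4, [], [2])]),
  (0, 0, 0, [(0, [0], [1, 3]), (1, [], [2, 4]), (4, [], [0])]),
  (0, 0, 0, [(0, [0], [1, 4]), (1, [], [0, 2]), (4, [], [3])]),
  (0, 0, 0, [(0, [0], [2, 3]), (1, [], [0, 4]), (4, [], [1])]),
  (0, 0, 0, [(0, [0], [2, 4]), (1, [], [0, 1]), (4, [], [3])]),
  (0, 0, 0, [(0, [0], [2, 4]), (1, [], [0, 3]), (4, [], [1])]),
  (0, 0, 0, [(0, [0], [2, 4]), (1, [], [1, 3]), (4, [], [0])]),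
  (0, 0, 0, [(0, [0], [3, 4]), (1, [], [0, 2]), (4, [], [1])])]

def w75_0 : List (List Wit) := [[(0, 0, 0, 0, 0), (12, 0, 0, 0, 0), (0, 0, 0, 0, 0), (1, 0, 0, 0, 0), (12, 0, 0, 0, 0), (1, 0, 0, 0, 0), (13, 0, 0, 0, 0), (14, 0, 0, 0, 0), (13, 0, 0, 0, 0), (15, 0, 0, 0, 0), (14, 0, 0, 0, 0), (15, 0, 0, 0, 0), (2, 0, 0, 0, 0), (3, 0, 0, 0, 0), (2, 0, 0, 0, 0), (16, 0, 0, 0, 0), (3, 0, 0, 0, 0), (16, 0, 0, 0, 0), (17, 0, 0, 0, 0), (18, 0, 0, 0, 0), (17, 0, 0, 0, 0), (19, 0, 0, 0, 0), (18, 0, 0, 0, 0), (19, 0, 0, 0, 0), (0, 0, 0, 0, 0), (12, 0, 0, 0, 0), (0, 0, 0, 0, 0), (1, 0, 0, 0, 0), (12, 0, 0, 0, 0), (1, 0, 0, 0, 0), (4, 0, 0, 0, 0), (20, 0, 0, 0, 0), (4, 0, 0, 0, 0), (5, 0, 0, 0, 0), (20, 0, 0, 0, 0), (5, 0, 0, 0, 0), (21, 0, 0, 0, 0), (22, 0, 0, 0, 0), (21, 0, 0, 0, 0), (23, 0, 0, 0, 0), (22, 0, 0, 0, 0), (23, 0,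 0, 0, 0), (24, 0, 0, 0, 0), (6, 0, 0, 0, 0), (24, 0, 0, 0, 0), (7, 0, 0, 0, 0), (6, 0, 0, 0, 0), (7, 0, 0, 0, 0), (13, 0, 0, 0, 0), (14, 0, 0, 0, 0), (13, 0, 0, 0, 0), (15, 0, 0, 0, 0), (14, 0, 0, 0, 0), (15, 0, 0, 0, 0), (4, 0, 0, 0, 0), (20, 0, 0, 0, 0), (4, 0, 0, 0, 0), (5, 0, 0, 0, 0), (20, 0, 0, 0, 0), (5, 0, 0, 0, 0), (8, 0, 0, 0, 0), (25, 0, 0, 0, 0), (8, 0, 0, 0, 0), (9, 0, 0, 0, 0), (25, 0, 0, 0, 0), (9, 0, 0, 0, 0), (26, 0, 0, 0, 0), (27, 0, 0, 0, 0), (26, 0, 0, 0, 0), (28, 0, 0, 0, 0), (27, 0, 0, 0, 0), (28, 0, 0, 0, 0), (2, 0, 0, 0, 0), (3, 0, 0, 0, 0), (2, 0, 0, 0, 0), (16, 0, 0, 0, 0), (3, 0, 0, 0, 0), (16, 0, 0, 0, 0), (21, 0, 0, 0, 0), (22, 0, 0, 0, 0), (21, 0, 0, 0, 0), (23, 0, 0, 0, 0), (22, 0, 0, 0, 0), (23, 0, 0, 0, 0), (8, 0, 0, 0, 0), (25, 0, 0, 0, 0), (8, 0, 0, 0, 0), (9, 0, 0, 0, 0), (25, 0, 0,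 0, 0), (9, 0, 0, 0, 0), (10, 0, 0, 0, 0), (29, 0, 0, 0, 0), (10, 0, 0, 0, 0), (11, 0, 0, 0, 0), (29, 0, 0, 0, 0), (11, 0, 0, 0, 0), (17, 0, 0, 0, 0), (18, 0, 0, 0, 0), (17, 0, 0, 0, 0), (19, 0, 0, 0, 0), (18, 0, 0, 0, 0), (19, 0, 0, 0, 0), (24, 0, 0, 0, 0), (6, 0, 0, 0, 0), (24, 0, 0, 0, 0), (7, 0, 0, 0, 0), (6, 0, 0, 0, 0), (7, 0, 0, 0, 0), (26, 0, 0, 0, 0), (27, 0, 0, 0, 0), (26, 0, 0, 0, 0), (28, 0, 0, 0, 0), (27, 0, 0, 0, 0), (28, 0, 0, 0, 0), (10, 0, 0, 0, 0), (29, 0, 0, 0, 0), (10, 0, 0, 0, 0), (11, 0, 0, 0, 0), (29, 0, 0, 0, 0), (11, 0, 0, 0, 0)]]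

theorem tr75 : trK keys lk75 kl75 = true := by
  decide +kernel

theorem x75_0 : expB 1 5 dg0 dg8 m75_0 (l75_0 ++ z75_0) w75_0 = true := by
  decide +kernel

theorem t75_0_0 : chkS lk75 1 5 [(1, m75_0)] l75_0
  [(3, 0, 0, 274960, 274960), (0, 0, 0, 271120, 271120), (8, 0, 0, 274960, 274960), (7, 0, 0, 144400, 144400), (8, 0, 0, 271105, 271105), (4, 0, 0, 274690, 274465), (4, 0, 0, 144385, 144385), (1, 0, 0, 148225, 205825), (6, 0, 0, 148240, 205840), (2, 0, 0, 274945, 274945), (2, 0, 0, 66610, 135235), (5, 0, 0, 274945, 274945)]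
  [(0, -96), (1, -96), (2, -192), (3, 96), (4, 192), (5, 96), (6, 96), (7, 96), (8, -192)] = true := by
  decide +kernel

section

variable {κ ι : Type*} [Fintype κ] [Fintype ι] [Inhabited κ] [Inhabited ι]

noncomputable def F75_0 (E : Env κ ι) : (Fin 1 → κ) → (Fin 5 → ι) → ℝ := op2 (P0 κ) (P8 ι) (fB E 1 5 m75_0)

def r75_0_0 : List (ℕ × ℤ) := [(0, -96), (1, -96), (2, -192), (3, 96), (4, 192), (5, 96), (6, 96), (7, 96), (8, -192)]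

theorem h75_0_0 (E : Env κ ι) : ip (F75_0 E) (F75_0 E) = dotS (ek E lk75) r75_0_0 :=
  op_entryZ E lk75 1 5 _ _ _ _ (pg0 κ) (pg8 ι) m75_0 m75_0 l75_0 z75_0 w75_0 x75_0 (by decide) _ (chkS_sound E lk75 1 5 _ _ _ _ t75_0_0)

theorem row75_0 (E : Env κ ι) : RowG (ek E lk75) (F75_0 E) [F75_0 E] [r75_0_0] :=
  rowG_cons _ _ _ _ _ _ (h75_0_0 E) (rowG_nil _ _)

def tab75 : List (List (List (ℕ × ℤ))) := [[r75_0_0]]

theorem tri75 (E : Env κ ι) : TriG (ek E lk75) [F75_0 E] tab75 := by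
  refine triG_cons _ _ _ _ _ (row75_0 E) ?_
  exact triG_nil _

end

def lk76 : List Key := [
  (2, 5, [(0, [0], [0, 1]), (0, [0], [0, 1]), (0, [1], [2, 3]), (0, [1], [2, 4]), (4, [], [4]), (4, [], [3])]),
  (2, 5, [(0, [0], [0, 1]), (0, [1], [0, 2]), (0, [1], [2, 3]), (0, [0], [1, 4]), (4, [], [4]), (4, [], [3])]),
  (2, 5, [(0, [0], [0, 1]), (0, [0], [0, 1]), (0, [1], [2, 3]), (0, [1], [2, 3]), (4, [], [4]), (4, [], [4])])]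

def kl76 : List ℕ := [5, 33, 91]

def m76_0 : Base := (1, 2, [(0, [0], [1, 2]), (0, [0], [1, 2]), (4, [], [0])])

def l76_0 : Cov := [(1, 1, 2, [(0, [0], [1, 2]), (0, [0], [1, 2]), (4, [], [0])])]

def z76_0 : Cov := []

def w76_0 : List (List Wit) := [[(0, 0, 0, 16, 16)]]

def m76_1 : Base := (1, 2, [(0, [0], [1, 2]), (0, [0], [0, 1]), (4, [], [2])])

def l76_1 : Cov := [(1, 1, 2, [(0, [0], [1, 2]), (0, [0], [0, 1]), (4, [], [2])])]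

def z76_1 : Cov := []

def w76_1 : List (List Wit) := [[(0, 0, 0, 16, 16)]]

theorem tr76 : trK keys lk76 kl76 = true := by
  decide +kernel

theorem x76_0 : expB 0 1 dg10 dg0 m76_0 (l76_0 ++ z76_0) w76_0 = true := by
  decide +kernel

theorem x76_1 : expB 0 1 dg10 dg0 m76_1 (l76_1 ++ z76_1) w76_1 = true := by
  decide +kernel

theorem t76_0_0 : chkS lk76 0 1 [(1, m76_0)] l76_0
  [(2, 16, 16, 205060, 17185)]
  [(2, 1)] = true := by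
  decide +kernel

theorem t76_0_1 : chkS lk76 0 1 [(1, m76_0)] l76_1
  [(0, 16, 16, 205060, 17185)]
  [(0, 1)] = true := by
  decide +kernel

theorem t76_1_1 : chkS lk76 0 1 [(1, m76_1)] l76_1
  [(1, 16, 16, 205840, 148240)]
  [(1, 1)] = true := by
  decide +kernel

section

variable {κ ι : Type*} [Fintype κ] [Fintype ι] [Inhabited κ] [Inhabited ι]

noncomputable def F76_0 (E : Env κ ι) : (Fin 0 → κ) → (Fin 1 → ι) → ℝ := op2 (P10 κ) (P0 ι) (fB E 0 1 m76_0)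

noncomputable def F76_1 (E : Env κ ι) : (Fin 0 → κ) → (Fin 1 → ι) → ℝ := op2 (P10 κ) (P0 ι) (fB E 0 1 m76_1)

def r76_0_0 : List (ℕ × ℤ) := [(2, 1)]

theorem h76_0_0 (E : Env κ ι) : ip (F76_0 E) (F76_0 E) = dotS (ek E lk76) r76_0_0 :=
  op_entryZ E lk76 0 1 _ _ _ _ (pg10 κ) (pg0 ι) m76_0 m76_0 l76_0 z76_0 w76_0 x76_0 (by decide) _ (chkS_sound E lk76 0 1 _ _ _ _ t76_0_0)

def r76_0_1 : List (ℕ × ℤ) := [(0, 1)]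

theorem h76_0_1 (E : Env κ ι) : ip (F76_0 E) (F76_1 E) = dotS (ek E lk76) r76_0_1 :=
  op_entryZ E lk76 0 1 _ _ _ _ (pg10 κ) (pg0 ι) m76_0 m76_1 l76_1 z76_1 w76_1 x76_1 (by decide) _ (chkS_sound E lk76 0 1 _ _ _ _ t76_0_1)

def r76_1_1 : List (ℕ × ℤ) := [(1, 1)]

theorem h76_1_1 (E : Env κ ι) : ip (F76_1 E) (F76_1 E) = dotS (ek E lk76) r76_1_1 :=
  op_entryZ E lk76 0 1 _ _ _ _ (pg10 κ) (pg0 ι) m76_1 m76_1 l76_1 z76_1 w76_1 x76_1 (by decide) _ (chkS_sound E lk76 0 1 _ _ _ _ t76_1_1)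

theorem row76_0 (E : Env κ ι) : RowG (ek E lk76) (F76_0 E) [F76_0 E, F76_1 E] [r76_0_0, r76_0_1] :=
  rowG_cons _ _ _ _ _ _ (h76_0_0 E) (rowG_cons _ _ _ _ _ _ (h76_0_1 E) (rowG_nil _ _))

theorem row76_1 (E : Env κ ι) : RowG (ek E lk76) (F76_1 E) [F76_1 E] [r76_1_1] :=
  rowG_cons _ _ _ _ _ _ (h76_1_1 E) (rowG_nil _ _)

def tab76 : List (List (List (ℕ × ℤ))) := [[r76_0_0, r76_0_1], [r76_1_1]]

theorem tri76 (E : Env κ ι) : TriG (ek E lk76) [F76_0 E, F76_1 E] tab76 := by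
  refine triG_cons _ _ _ _ _ (row76_0 E) ?_
  refine triG_cons _ _ _ _ _ (row76_1 E) ?_
  exact triG_nil _

end

def lk77 : List Key := [
  (2, 5, [(0, [0], [0, 1]), (0, [1], [0, 2]), (0, [1], [3, 4]), (0, [0], [3, 4]), (4, [], [2]), (4, [], [1])]),
  (2, 5, [(0, [0], [0, 1]), (0, [1], [0, 2]), (0, [1], [2, 3]), (0, [0], [1, 4]), (4, [], [4]), (4, [], [3])]),
  (2, 5, [(0, [0], [0, 1]), (0, [1], [0, 2]), (0, [0], [2, 3]), (0, [1], [1, 4]), (4, [], [4]), (4, [], [3])]),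
  (2, 5, [(0, [0], [0, 1]), (0, [0], [2, 3]), (0, [1], [2, 4]), (0, [1], [0, 4]), (4, [], [3]), (4, [], [1])]),
  (2, 5, [(0, [0], [0, 1]), (0, [0], [0, 2]), (0, [1], [1, 2]), (4, [], [3]), (0, [1], [3, 4]), (4, [], [4])]),
  (2, 5, [(0, [0], [0, 1]), (0, [0], [2, 0]), (0, [1], [3, 1]), (4, [], [4]), (0, [1], [2, 3]), (4, [], [4])])]

def kl77 : List ℕ := [6, 33, 34, 93, 107, 247]

def m77_0 : Base := (1, 1, [(0, [0], [0, 3]), (0, [0], [1, 3]), (4, [], [2])])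

def l77_0 : Cov := [(12, 1, 1, [(0, [0], [0, 3]), (0, [0], [1, 3]), (4, [], [2])]),
  (12, 1, 1, [(0, [0], [0, 3]), (0, [0], [2, 3]), (4, [], [1])]),
  (12, 1, 1, [(0, [0], [1, 3]), (0, [0], [2, 3]), (4, [], [0])])]

def z77_0 : Cov := []

def w77_0 : List (List Wit) := [[(0, 0, 0, 0, 0), (1, 0, 0, 0, 0), (0, 0, 0, 0, 0), (2, 0, 0, 0, 0), (1, 0, 0, 0, 0), (2, 0, 0, 0, 0)]]

def m77_1 : Base := (1, 1, [(0, [0], [0, 3]), (0, [0], [1, 2]), (4, [], [3])])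

def l77_1 : Cov := [(12, 1, 1, [(0, [0], [0, 3]), (0, [0], [1, 2]), (4, [], [3])]),
  (12, 1, 1, [(0, [0], [1, 3]), (0, [0], [0, 2]), (4, [], [3])]),
  (12, 1, 1, [(0, [0], [2, 3]), (0, [0], [0, 1]), (4, [], [3])])]

def z77_1 : Cov := []

def w77_1 : List (List Wit) := [[(0, 0, 0, 0, 0), (0, 0, 0, 0, 0), (1, 0, 0, 0, 0), (1, 0, 0, 0, 0), (2, 0, 0, 0, 0), (2, 0, 0, 0, 0)]]

theorem tr77 : trK keys lk77 kl77 = true := by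
  decide +kernel

theorem x77_0 : expB 0 3 dg10 dg1 m77_0 (l77_0 ++ z77_0) w77_0 = true := by
  decide +kernel

theorem x77_1 : expB 0 3 dg10 dg1 m77_1 (l77_1 ++ z77_1) w77_1 = true := by
  decide +kernel

theorem t77_0_0 : chkS lk77 0 3 [(1, m77_0)] l77_0
  [(5, 16, 16, 197665, 147715), (1, 16, 16, 136000, 74800), (1, 16, 16, 135940, 9265)]
  [(1, 24), (5, 12)] = true := by
  decide +kernel

theorem t77_0_1 : chkS lk77 0 3 [(1, m77_0)] l77_1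
  [(3, 1, 1, 82720, 205120), (3, 1, 1, 82690, 204865), (4, 16, 16, 262945, 270595)]
  [(3, 24), (4, 12)] = true := by
  decide +kernel

theorem t77_1_1 : chkS lk77 0 3 [(1, m77_1)] l77_1
  [(0, 16, 16, 136240, 136240), (2, 16, 16, 274450, 274450), (2, 16, 16, 274690, 274465)]
  [(0, 12), (2, 24)] = true := by
  decide +kernel

section

variable {κ ι : Type*} [Fintype κ] [Fintype ι] [Inhabited κ] [Inhabited ι]

noncomputable def F77_0 (E : Env κ ι) : (Fin 0 → κ) → (Fin 3 → ι) → ℝ := op2 (P10 κ) (P1 ι) (fB E 0 3 m77_0)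

noncomputable def F77_1 (E : Env κ ι) : (Fin 0 → κ) → (Fin 3 → ι) → ℝ := op2 (P10 κ) (P1 ι) (fB E 0 3 m77_1)

def r77_0_0 : List (ℕ × ℤ) := [(1, 24), (5, 12)]

theorem h77_0_0 (E : Env κ ι) : ip (F77_0 E) (F77_0 E) = dotS (ek E lk77) r77_0_0 :=
  op_entryZ E lk77 0 3 _ _ _ _ (pg10 κ) (pg1 ι) m77_0 m77_0 l77_0 z77_0 w77_0 x77_0 (by decide) _ (chkS_sound E lk77 0 3 _ _ _ _ t77_0_0)

def r77_0_1 : List (ℕ × ℤ) := [(3, 24), (4, 12)]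

theorem h77_0_1 (E : Env κ ι) : ip (F77_0 E) (F77_1 E) = dotS (ek E lk77) r77_0_1 :=
  op_entryZ E lk77 0 3 _ _ _ _ (pg10 κ) (pg1 ι) m77_0 m77_1 l77_1 z77_1 w77_1 x77_1 (by decide) _ (chkS_sound E lk77 0 3 _ _ _ _ t77_0_1)

def r77_1_1 : List (ℕ × ℤ) := [(0, 12), (2, 24)]

theorem h77_1_1 (E : Env κ ι) : ip (F77_1 E) (F77_1 E) = dotS (ek E lk77) r77_1_1 :=
  op_entryZ E lk77 0 3 _ _ _ _ (pg10 κ) (pg1 ι) m77_1 m77_1 l77_1 z77_1 w77_1 x77_1 (by decide) _ (chkS_sound E lk77 0 3 _ _ _ _ t77_1_1)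

theorem row77_0 (E : Env κ ι) : RowG (ek E lk77) (F77_0 E) [F77_0 E, F77_1 E] [r77_0_0, r77_0_1] :=
  rowG_cons _ _ _ _ _ _ (h77_0_0 E) (rowG_cons _ _ _ _ _ _ (h77_0_1 E) (rowG_nil _ _))

theorem row77_1 (E : Env κ ι) : RowG (ek E lk77) (F77_1 E) [F77_1 E] [r77_1_1] :=
  rowG_cons _ _ _ _ _ _ (h77_1_1 E) (rowG_nil _ _)

def tab77 : List (List (List (ℕ × ℤ))) := [[r77_0_0, r77_0_1], [r77_1_1]]

theorem tri77 (E : Env κ ι) : TriG (ek E lk77) [F77_0 E, F77_1 E] tab77 := by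
  refine triG_cons _ _ _ _ _ (row77_0 E) ?_
  refine triG_cons _ _ _ _ _ (row77_1 E) ?_
  exact triG_nil _

end

def lk78 : List Key := [
  (2, 5, [(0, [0], [0, 1]), (0, [1], [0, 2]), (0, [1], [3, 4]), (0, [0], [3, 4]), (4, [], [2]), (4, [], [1])]),
  (2, 5, [(0, [0], [0, 1]), (0, [1], [0, 2]), (0, [1], [2, 3]), (0, [0], [1, 4]), (4, [], [4]), (4, [], [3])]),
  (2, 5, [(0, [0], [0, 1]), (0, [1], [0, 2]), (0, [0], [2, 3]), (0, [1], [1, 4]), (4, [], [4]), (4, [], [3])]),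
  (2, 5, [(0, [0], [0, 1]), (0, [0], [2, 3]), (0, [1], [2, 4]), (0, [1], [0, 4]), (4, [], [3]), (4, [], [1])]),
  (2, 5, [(0, [0], [0, 1]), (0, [0], [0, 2]), (0, [1], [1, 2]), (4, [], [3]), (0, [1], [3, 4]), (4, [], [4])]),
  (2, 5, [(0, [0], [0, 1]), (0, [0], [2, 0]), (0, [1], [3, 1]), (4, [], [4]), (0, [1], [2, 3]), (4, [], [4])])]

def kl78 : List ℕ := [6, 33, 34, 93, 107, 247]

def m78_0 : Base := (1, 1, [(0, [0], [0, 3]), (0, [0], [1, 3]), (4, [], [2])])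

def l78_0 : Cov := [(6, 1, 1, [(0, [0], [0, 3]), (0, [0], [1, 3]), (4, [], [2])]),
  (-6, 1, 1, [(0, [0], [1, 3]), (0, [0], [2, 3]), (4, [], [0])])]

def z78_0 : Cov := [(0, 1, 1, [(0, [0], [0, 3]), (0, [0], [2, 3]), (4, [], [1])])]

def w78_0 : List (List Wit) := [[(0, 0, 0, 0, 0), (2, 0, 0, 0, 0), (0, 0, 0, 0, 0), (1, 0, 0, 0, 0), (2, 0, 0, 0, 0), (1, 0, 0, 0, 0)]]

def m78_1 : Base := (1, 1, [(0, [0], [0, 3]), (0, [0], [1, 2]), (4, [], [3])])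

def l78_1 : Cov := [(6, 1, 1, [(0, [0], [0, 3]), (0, [0], [1, 2]), (4, [], [3])]),
  (-6, 1, 1, [(0, [0], [2, 3]), (0, [0], [0, 1]), (4, [], [3])])]

def z78_1 : Cov := [(0, 1, 1, [(0, [0], [1, 3]), (0, [0], [0, 2]), (4, [], [3])])]

def w78_1 : List (List Wit) := [[(0, 0, 0, 0, 0), (0, 0, 0, 0, 0), (2, 0, 0, 0, 0), (2, 0, 0, 0, 0), (1, 0, 0, 0, 0), (1, 0, 0, 0, 0)]]

theorem tr78 : trK keys lk78 kl78 = true := by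
  decide +kernel

theorem x78_0 : expB 0 3 dg10 dg2 m78_0 (l78_0 ++ z78_0) w78_0 = true := by
  decide +kernel

theorem x78_1 : expB 0 3 dg10 dg2 m78_1 (l78_1 ++ z78_1) w78_1 = true := by
  decide +kernel

theorem t78_0_0 : chkS lk78 0 3 [(1, m78_0)] l78_0
  [(5, 16, 16, 197665, 147715), (1, 16, 16, 135940, 9265)]
  [(1, -6), (5, 6)] = true := by
  decide +kernel

theorem t78_0_1 : chkS lk78 0 3 [(1, m78_0)] l78_1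
  [(3, 1, 1, 82720, 205120), (4, 16, 16, 262945, 270595)]
  [(3, 6), (4, -6)] = true := by
  decide +kernel

theorem t78_1_1 : chkS lk78 0 3 [(1, m78_1)] l78_1
  [(0, 16, 16, 136240, 136240), (2, 16, 16, 274690, 274465)]
  [(0, 6), (2, -6)] = true := by
  decide +kernel

section

variable {κ ι : Type*} [Fintype κ] [Fintype ι] [Inhabited κ] [Inhabited ι]

noncomputable def F78_0 (E : Env κ ι) : (Fin 0 → κ) → (Fin 3 → ι) → ℝ := op2 (P10 κ) (P2 ι) (fB E 0 3 m78_0)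

noncomputable def F78_1 (E : Env κ ι) : (Fin 0 → κ) → (Fin 3 → ι) → ℝ := op2 (P10 κ) (P2 ι) (fB E 0 3 m78_1)

def r78_0_0 : List (ℕ × ℤ) := [(1, -6), (5, 6)]

theorem h78_0_0 (E : Env κ ι) : ip (F78_0 E) (F78_0 E) = dotS (ek E lk78) r78_0_0 :=
  op_entryZ E lk78 0 3 _ _ _ _ (pg10 κ) (pg2 ι) m78_0 m78_0 l78_0 z78_0 w78_0 x78_0 (by decide) _ (chkS_sound E lk78 0 3 _ _ _ _ t78_0_0)

def r78_0_1 : List (ℕ × ℤ) := [(3, 6), (4, -6)]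

theorem h78_0_1 (E : Env κ ι) : ip (F78_0 E) (F78_1 E) = dotS (ek E lk78) r78_0_1 :=
  op_entryZ E lk78 0 3 _ _ _ _ (pg10 κ) (pg2 ι) m78_0 m78_1 l78_1 z78_1 w78_1 x78_1 (by decide) _ (chkS_sound E lk78 0 3 _ _ _ _ t78_0_1)

def r78_1_1 : List (ℕ × ℤ) := [(0, 6), (2, -6)]

theorem h78_1_1 (E : Env κ ι) : ip (F78_1 E) (F78_1 E) = dotS (ek E lk78) r78_1_1 :=
  op_entryZ E lk78 0 3 _ _ _ _ (pg10 κ) (pg2 ι) m78_1 m78_1 l78_1 z78_1 w78_1 x78_1 (by decide) _ (chkS_sound E lk78 0 3 _ _ _ _ t78_1_1)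

theorem row78_0 (E : Env κ ι) : RowG (ek E lk78) (F78_0 E) [F78_0 E, F78_1 E] [r78_0_0, r78_0_1] :=
  rowG_cons _ _ _ _ _ _ (h78_0_0 E) (rowG_cons _ _ _ _ _ _ (h78_0_1 E) (rowG_nil _ _))

theorem row78_1 (E : Env κ ι) : RowG (ek E lk78) (F78_1 E) [F78_1 E] [r78_1_1] :=
  rowG_cons _ _ _ _ _ _ (h78_1_1 E) (rowG_nil _ _)

def tab78 : List (List (List (ℕ × ℤ))) := [[r78_0_0, r78_0_1], [r78_1_1]]

theorem tri78 (E : Env κ ι) : TriG (ek E lk78) [F78_0 E, F78_1 E] tab78 := by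
  refine triG_cons _ _ _ _ _ (row78_0 E) ?_
  refine triG_cons _ _ _ _ _ (row78_1 E) ?_
  exact triG_nil _

end

def lk79 : List Key := [
  (2, 5, [(0, [0], [0, 1]), (0, [1], [0, 2]), (0, [1], [3, 4]), (0, [0], [3, 4]), (4, [], [2]), (4, [], [1])]),
  (2, 5, [(0, [0], [0, 1]), (0, [1], [0, 2]), (0, [0], [2, 3]), (0, [1], [1, 4]), (4, [], [4]), (4, [], [3])]),
  (2, 5, [(0, [0], [0, 1]), (0, [0], [2, 3]), (0, [1], [0, 1]), (4, [], [4]), (0, [1], [2, 3]), (4, [], [4])]),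
  (2, 5, [(0, [0], [0, 1]), (0, [0], [2, 3]), (0, [1], [1, 3]), (4, [], [4]), (0, [1], [0, 2]), (4, [], [4])])]

def kl79 : List ℕ := [6, 34, 280, 319]

def m79_0 : Base := (1, 0, [(0, [0], [0, 1]), (0, [0], [2, 3]), (4, [], [4])])

def l79_0 : Cov := [(960, 1, 0, [(0, [0], [0, 1]), (0, [0], [2, 3]), (4, [], [4])]),
  (960, 1, 0, [(0, [0], [0, 1]), (0, [0], [2, 4]), (4, [], [3])]),
  (960, 1, 0, [(0, [0], [0, 1]), (0, [0], [3, 4]), (4, [], [2])]),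
  (960, 1, 0, [(0, [0], [0, 2]), (0, [0], [1, 3]), (4, [], [4])]),
  (960, 1, 0, [(0, [0], [0, 2]), (0, [0], [1, 4]), (4, [], [3])]),
  (960, 1, 0, [(0, [0], [0, 2]), (0, [0], [3, 4]), (4, [], [1])]),
  (960, 1, 0, [(0, [0], [0, 3]), (0, [0], [1, 2]), (4, [], [4])]),
  (960, 1, 0, [(0, [0], [0, 3]), (0, [0], [1, 4]), (4, [], [2])]),
  (960, 1, 0, [(0, [0], [0, 3]), (0, [0], [2, 4]), (4, [], [1])]),
  (960, 1, 0, [(0, [0], [0, 4]), (0, [0], [1, 2]), (4, [], [3])]),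
  (960, 1, 0, [(0, [0], [0, 4]), (0, [0], [1, 3]), (4, [], [2])]),
  (960, 1, 0, [(0, [0], [0, 4]), (0, [0], [2, 3]), (4, [], [1])]),
  (960, 1, 0, [(0, [0], [1, 2]), (0, [0], [3, 4]), (4, [], [0])]),
  (960, 1, 0, [(0, [0], [1, 3]), (0, [0], [2, 4]), (4, [], [0])]),
  (960, 1, 0, [(0, [0], [1, 4]), (0, [0], [2, 3]), (4, [], [0])])]

def z79_0 : Cov := []

def w79_0 : List (List Wit) := [[(0, 0, 0, 0, 0), (1, 0, 0, 0, 0), (0, 0, 0, 0, 0), (2, 0, 0, 0, 0), (1, 0, 0, 0, 0), (2, 0, 0, 0, 0), (3, 0, 0, 0, 0), (4, 0, 0, 0, 0), (3, 0, 0, 0, 0), (5, 0, 0, 0, 0), (4, 0, 0, 0, 0), (5, 0, 0, 0, 0), (6, 0, 0, 0, 0), (7, 0, 0, 0, 0), (6, 0, 0, 0, 0), (8, 0, 0, 0, 0), (7, 0, 0, 0, 0), (8, 0, 0, 0, 0), (9, 0, 0, 0, 0), (10, 0, 0, 0, 0), (9, 0, 0, 0, 0), (11, 0, 0, 0, 0), (10, 0, 0, 0, 0), (11, 0, 0, 0, 0), (0, 0, 0, 0, 0), (1, 0,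 0, 0, 0), (0, 0, 0, 0, 0), (2, 0, 0, 0, 0), (1, 0, 0, 0, 0), (2, 0, 0, 0, 0), (6, 0, 0, 0, 0), (9, 0, 0, 0, 0), (6, 0, 0, 0, 0), (12, 0, 0, 0, 0), (9, 0, 0, 0, 0), (12, 0, 0, 0, 0), (3, 0, 0, 0, 0), (10, 0, 0, 0, 0), (3, 0, 0, 0, 0), (13, 0, 0, 0, 0), (10, 0, 0, 0, 0), (13, 0, 0, 0, 0), (4, 0, 0, 0, 0), (7, 0, 0, 0, 0), (4, 0, 0, 0, 0), (14, 0, 0, 0, 0), (7, 0, 0, 0, 0), (14, 0, 0, 0, 0), (3, 0, 0, 0, 0), (4, 0, 0, 0, 0), (3, 0, 0, 0, 0), (5, 0, 0, 0, 0), (4, 0, 0, 0, 0), (5, 0, 0, 0, 0), (6, 0, 0, 0, 0), (9, 0, 0, 0, 0), (6, 0, 0, 0, 0), (12, 0, 0, 0, 0), (9, 0, 0, 0, 0), (12, 0, 0, 0, 0), (0, 0, 0, 0, 0), (11, 0, 0, 0, 0), (0, 0, 0, 0, 0), (14, 0, 0, 0, 0), (11, 0, 0, 0, 0), (14, 0, 0, 0, 0), (1, 0, 0, 0, 0), (8, 0, 0, 0, 0), (1, 0, 0, 0, 0), (13, 0, 0, 0, 0), (8, 0, 0, 0, 0), (13, 0, 0, 0, 0), (6, 0, 0, 0, 0), (7,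 0, 0, 0, 0), (6, 0, 0, 0, 0), (8, 0, 0, 0, 0), (7, 0, 0, 0, 0), (8, 0, 0, 0, 0), (3, 0, 0, 0, 0), (10, 0, 0, 0, 0), (3, 0, 0, 0, 0), (13, 0, 0, 0, 0), (10, 0, 0, 0, 0), (13, 0, 0, 0, 0), (0, 0, 0, 0, 0), (11, 0, 0, 0, 0), (0, 0, 0, 0, 0), (14, 0, 0, 0, 0), (11, 0, 0, 0, 0), (14, 0, 0, 0, 0), (2, 0, 0, 0, 0), (5, 0, 0, 0, 0), (2, 0, 0, 0, 0), (12, 0, 0, 0, 0), (5, 0, 0, 0, 0), (12, 0, 0, 0, 0), (9, 0, 0, 0, 0), (10, 0, 0, 0, 0), (9, 0, 0, 0, 0), (11, 0, 0, 0, 0), (10, 0, 0, 0, 0), (11, 0, 0, 0, 0), (4, 0, 0, 0, 0), (7, 0, 0, 0, 0), (4, 0, 0, 0, 0), (14, 0, 0, 0, 0), (7, 0, 0, 0, 0), (14, 0, 0, 0, 0), (1, 0, 0, 0, 0), (8, 0, 0, 0, 0), (1, 0, 0, 0, 0), (13, 0, 0, 0, 0), (8, 0, 0, 0, 0), (13, 0, 0, 0, 0), (2, 0, 0, 0, 0), (5, 0, 0, 0, 0), (2, 0, 0, 0, 0), (12, 0, 0, 0, 0), (5, 0, 0, 0, 0), (12, 0, 0, 0, 0)]]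

theorem tr79 : trK keys lk79 kl79 = true := by
  decide +kernel

theorem x79_0 : expB 0 5 dg10 dg4 m79_0 (l79_0 ++ z79_0) w79_0 = true := by
  decide +kernel

theorem t79_0_0 : chkS lk79 0 5 [(1, m79_0)] l79_0
  [(2, 16, 16, 274960, 274960), (0, 16, 16, 135235, 66610), (0, 16, 16, 131395, 66595), (3, 16, 16, 274960, 274960), (1, 16, 16, 274960, 274960), (1, 16, 16, 266290, 266290), (3, 16, 16, 271120, 271120), (1, 16, 16, 271120, 271120), (1, 16, 16, 262450, 266275), (1, 16, 16, 274945, 274945), (1, 16, 16, 271105, 271105), (0, 16, 16, 148240, 205840), (1, 16, 16, 266275, 262450), (1, 16, 16, 262435, 262435), (0, 16, 16, 148225, 205825)]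
  [(0, 3840), (1, 7680), (2, 960), (3, 1920)] = true := by
  decide +kernel

section

variable {κ ι : Type*} [Fintype κ] [Fintype ι] [Inhabited κ] [Inhabited ι]

noncomputable def F79_0 (E : Env κ ι) : (Fin 0 → κ) → (Fin 5 → ι) → ℝ := op2 (P10 κ) (P4 ι) (fB E 0 5 m79_0)

def r79_0_0 : List (ℕ × ℤ) := [(0, 3840), (1, 7680), (2, 960), (3, 1920)]

theorem h79_0_0 (E : Env κ ι) : ip (F79_0 E) (F79_0 E) = dotS (ek E lk79) r79_0_0 :=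
  op_entryZ E lk79 0 5 _ _ _ _ (pg10 κ) (pg4 ι) m79_0 m79_0 l79_0 z79_0 w79_0 x79_0 (by decide) _ (chkS_sound E lk79 0 5 _ _ _ _ t79_0_0)

theorem row79_0 (E : Env κ ι) : RowG (ek E lk79) (F79_0 E) [F79_0 E] [r79_0_0] :=
  rowG_cons _ _ _ _ _ _ (h79_0_0 E) (rowG_nil _ _)

def tab79 : List (List (List (ℕ × ℤ))) := [[r79_0_0]]

theorem tri79 (E : Env κ ι) : TriG (ek E lk79) [F79_0 E] tab79 := by
  refine triG_cons _ _ _ _ _ (row79_0 E) ?_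
  exact triG_nil _

end

def lk80 : List Key := [
  (2, 5, [(0, [0], [0, 1]), (0, [1], [0, 2]), (0, [1], [3, 4]), (0, [0], [3, 4]), (4, [], [2]), (4, [], [1])]),
  (2, 5, [(0, [0], [0, 1]), (0, [1], [0, 2]), (0, [0], [2, 3]), (0, [1], [1, 4]), (4, [], [4]), (4, [], [3])]),
  (2, 5, [(0, [0], [0, 1]), (0, [0], [2, 3]), (0, [1], [0, 1]), (4, [], [4]), (0, [1], [2, 3]), (4, [], [4])]),
  (2, 5, [(0, [0], [0, 1]), (0, [0], [2, 3]), (0, [1], [1, 3]), (4, [], [4]), (0, [1], [0, 2]), (4, [], [4])])]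

def kl80 : List ℕ := [6, 34, 280, 319]

def m80_0 : Base := (1, 0, [(0, [0], [0, 1]), (0, [0], [2, 3]), (4, [], [4])])

def l80_0 : Cov := [(240, 1, 0, [(0, [0], [0, 1]), (0, [0], [2, 3]), (4, [], [4])]),
  (240, 1, 0, [(0, [0], [0, 2]), (0, [0], [1, 3]), (4, [], [4])]),
  (240, 1, 0, [(0, [0], [0, 3]), (0, [0], [1, 2]), (4, [], [4])]),
  (-240, 1, 0, [(0, [0], [1, 2]), (0, [0], [3, 4]), (4, [], [0])]),
  (-240, 1, 0, [(0, [0], [1, 3]), (0, [0], [2, 4]), (4, [], [0])]),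
  (-240, 1, 0, [(0, [0], [1, 4]), (0, [0], [2, 3]), (4, [], [0])])]

def z80_0 : Cov := [(0, 1, 0, [(0, [0], [0, 1]), (0, [0], [2, 4]), (4, [], [3])]),
  (0, 1, 0, [(0, [0], [0, 1]), (0, [0], [3, 4]), (4, [], [2])]),
  (0, 1, 0, [(0, [0], [0, 2]), (0, [0], [1, 4]), (4, [], [3])]),
  (0, 1, 0, [(0, [0], [0, 2]), (0, [0], [3, 4]), (4, [], [1])]),
  (0, 1, 0, [(0, [0], [0, 3]), (0, [0], [1, 4]), (4, [], [2])]),
  (0, 1, 0, [(0, [0], [0, 3]), (0, [0], [2, 4]), (4, [], [1])]),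
  (0, 1, 0, [(0, [0], [0, 4]), (0, [0], [1, 2]), (4, [], [3])]),
  (0, 1, 0, [(0, [0], [0, 4]), (0, [0], [1, 3]), (4, [], [2])]),
  (0, 1, 0, [(0, [0], [0, 4]), (0, [0], [2, 3]), (4, [], [1])])]

def w80_0 : List (List Wit) := [[(0, 0, 0, 0, 0), (6, 0, 0, 0, 0), (0, 0, 0, 0, 0), (7, 0, 0, 0, 0), (6, 0, 0, 0, 0), (7, 0, 0, 0, 0), (1, 0, 0, 0, 0), (8, 0, 0, 0, 0), (1, 0, 0, 0, 0), (9, 0, 0, 0, 0), (8, 0, 0, 0, 0), (9, 0, 0, 0, 0), (2, 0, 0, 0, 0), (10, 0, 0, 0, 0), (2, 0, 0, 0, 0), (11, 0, 0, 0, 0), (10, 0, 0, 0, 0), (11, 0, 0, 0, 0), (12, 0, 0, 0, 0), (13, 0, 0, 0, 0), (12, 0, 0, 0, 0), (14, 0, 0, 0, 0), (13, 0, 0, 0, 0), (14, 0, 0, 0, 0), (0, 0, 0, 0, 0), (0, 0, 0, 0, 0), (2, 0, 0, 0, 0), (2, 0, 0, 0, 0), (3, 0, 0, 0, 0), (3, 0, 0, 0, 0), (1, 0, 0, 0, 0), (1, 0, 0, 0, 0), (4, 0, 0, 0, 0), (4, 0, 0, 0, 0), (5, 0, 0, 0,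 0), (5, 0, 0, 0, 0), (1, 0, 0, 0, 0), (1, 0, 0, 0, 0), (2, 0, 0, 0, 0), (2, 0, 0, 0, 0), (3, 0, 0, 0, 0), (3, 0, 0, 0, 0), (0, 0, 0, 0, 0), (0, 0, 0, 0, 0), (5, 0, 0, 0, 0), (5, 0, 0, 0, 0), (4, 0, 0, 0, 0), (4, 0, 0, 0, 0), (2, 0, 0, 0, 0), (2, 0, 0, 0, 0), (1, 0, 0, 0, 0), (1, 0, 0, 0, 0), (4, 0, 0, 0, 0), (4, 0, 0, 0, 0), (0, 0, 0, 0, 0), (0, 0, 0, 0, 0), (5, 0, 0, 0, 0), (5, 0, 0, 0, 0), (3, 0, 0, 0, 0), (3, 0, 0, 0, 0), (12, 0, 0, 0, 0), (13, 0, 0, 0, 0), (12, 0, 0, 0, 0), (14, 0, 0, 0, 0), (13, 0, 0, 0, 0), (14, 0, 0, 0, 0), (8, 0, 0, 0, 0), (10, 0, 0, 0, 0), (8, 0, 0, 0, 0), (5, 0, 0, 0, 0), (10, 0, 0, 0, 0), (5, 0, 0, 0, 0), (6, 0, 0, 0, 0), (11, 0, 0, 0, 0), (6, 0, 0, 0, 0), (4, 0, 0, 0, 0), (11, 0, 0, 0, 0), (4, 0, 0, 0, 0), (7, 0, 0, 0, 0), (9, 0, 0, 0, 0), (7, 0, 0, 0, 0), (3, 0, 0, 0, 0), (9, 0, 0, 0, 0),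 (3, 0, 0, 0, 0)]]

theorem tr80 : trK keys lk80 kl80 = true := by
  decide +kernel

theorem x80_0 : expB 0 5 dg10 dg5 m80_0 (l80_0 ++ z80_0) w80_0 = true := by
  decide +kernel

theorem t80_0_0 : chkS lk80 0 5 [(1, m80_0)] l80_0
  [(2, 16, 16, 274960, 274960), (3, 16, 16, 274960, 274960), (3, 16, 16, 271120, 271120), (1, 16, 16, 266275, 262450), (1, 16, 16, 262435, 262435), (0, 16, 16, 148225, 205825)]
  [(0, -240), (1, -480), (2, 240), (3, 480)] = true := by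
  decide +kernel

section

variable {κ ι : Type*} [Fintype κ] [Fintype ι] [Inhabited κ] [Inhabited ι]

noncomputable def F80_0 (E : Env κ ι) : (Fin 0 → κ) → (Fin 5 → ι) → ℝ := op2 (P10 κ) (P5 ι) (fB E 0 5 m80_0)

def r80_0_0 : List (ℕ × ℤ) := [(0, -240), (1, -480), (2, 240), (3, 480)]

theorem h80_0_0 (E : Env κ ι) : ip (F80_0 E) (F80_0 E) = dotS (ek E lk80) r80_0_0 :=
  op_entryZ E lk80 0 5 _ _ _ _ (pg10 κ) (pg5 ι) m80_0 m80_0 l80_0 z80_0 w80_0 x80_0 (by decide) _ (chkS_sound E lk80 0 5 _ _ _ _ t80_0_0)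

theorem row80_0 (E : Env κ ι) : RowG (ek E lk80) (F80_0 E) [F80_0 E] [r80_0_0] :=
  rowG_cons _ _ _ _ _ _ (h80_0_0 E) (rowG_nil _ _)

def tab80 : List (List (List (ℕ × ℤ))) := [[r80_0_0]]

theorem tri80 (E : Env κ ι) : TriG (ek E lk80) [F80_0 E] tab80 := by
  refine triG_cons _ _ _ _ _ (row80_0 E) ?_
  exact triG_nil _

end

def lk81 : List Key := [
  (2, 5, [(0, [0], [0, 1]), (0, [1], [0, 2]), (0, [1], [3, 4]), (0, [0], [3, 4]), (4, [], [2]), (4, [], [1])]),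
  (2, 5, [(0, [0], [0, 1]), (0, [1], [0, 2]), (0, [0], [2, 3]), (0, [1], [1, 4]), (4, [], [4]), (4, [], [3])]),
  (2, 5, [(0, [0], [0, 1]), (0, [0], [2, 3]), (0, [1], [0, 1]), (4, [], [4]), (0, [1], [2, 3]), (4, [], [4])]),
  (2, 5, [(0, [0], [0, 1]), (0, [0], [2, 3]), (0, [1], [1, 3]), (4, [], [4]), (0, [1], [0, 2]), (4, [], [4])])]

def kl81 : List ℕ := [6, 34, 280, 319]

def m81_0 : Base := (1, 0, [(0, [0], [0, 1]), (0, [0], [2, 3]), (4, [], [4])])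

def l81_0 : Cov := [(72, 1, 0, [(0, [0], [0, 1]), (0, [0], [2, 3]), (4, [], [4])]),
  (72, 1, 0, [(0, [0], [0, 1]), (0, [0], [2, 4]), (4, [], [3])]),
  (144, 1, 0, [(0, [0], [0, 1]), (0, [0], [3, 4]), (4, [], [2])]),
  (-72, 1, 0, [(0, [0], [0, 2]), (0, [0], [1, 3]), (4, [], [4])]),
  (72, 1, 0, [(0, [0], [0, 2]), (0, [0], [3, 4]), (4, [], [1])]),
  (-72, 1, 0, [(0, [0], [0, 4]), (0, [0], [1, 2]), (4, [], [3])]),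
  (-144, 1, 0, [(0, [0], [0, 4]), (0, [0], [1, 3]), (4, [], [2])]),
  (-72, 1, 0, [(0, [0], [0, 4]), (0, [0], [2, 3]), (4, [], [1])]),
  (72, 1, 0, [(0, [0], [1, 2]), (0, [0], [3, 4]), (4, [], [0])]),
  (-72, 1, 0, [(0, [0], [1, 3]), (0, [0], [2, 4]), (4, [], [0])])]

def z81_0 : Cov := [(0, 1, 0, [(0, [0], [0, 2]), (0, [0], [1, 4]), (4, [], [3])]),
  (0, 1, 0, [(0, [0], [0, 3]), (0, [0], [1, 2]), (4, [], [4])]),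
  (0, 1, 0, [(0, [0], [0, 3]), (0, [0], [1, 4]), (4, [], [2])]),
  (0, 1, 0, [(0, [0], [0, 3]), (0, [0], [2, 4]), (4, [], [1])]),
  (0, 1, 0, [(0, [0], [1, 4]), (0, [0], [2, 3]), (4, [], [0])])]

def w81_0 : List (List Wit) := [[(0, 0, 0, 0, 0), (1, 0, 0, 0, 0), (0, 0, 0, 0, 0), (2, 0, 0, 0, 0), (1, 0, 0, 0, 0), (2, 0, 0, 0, 0), (3, 0, 0, 0, 0), (10, 0, 0, 0, 0), (3, 0, 0, 0, 0), (4, 0, 0, 0, 0), (10, 0, 0, 0, 0), (4, 0, 0, 0, 0), (11, 0, 0, 0, 0), (12, 0, 0, 0, 0), (11, 0, 0, 0, 0), (13, 0, 0, 0, 0), (12, 0, 0, 0, 0), (13, 0, 0, 0, 0), (5, 0, 0, 0, 0), (6, 0, 0, 0, 0), (5, 0, 0, 0, 0), (7, 0, 0, 0, 0), (6, 0, 0, 0, 0), (7, 0, 0, 0, 0), (0, 0, 0, 0, 0), (1, 0, 0, 0, 0), (0, 0, 0, 0, 0), (2, 0, 0, 0, 0), (1, 0, 0, 0, 0), (2, 0, 0, 0, 0), (11, 0, 0, 0, 0), (5, 0, 0, 0, 0), (11, 0, 0, 0, 0), (8, 0, 0, 0, 0), (5, 0, 0, 0,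 0), (8, 0, 0, 0, 0), (3, 0, 0, 0, 0), (6, 0, 0, 0, 0), (3, 0, 0, 0, 0), (9, 0, 0, 0, 0), (6, 0, 0, 0, 0), (9, 0, 0, 0, 0), (10, 0, 0, 0, 0), (12, 0, 0, 0, 0), (10, 0, 0, 0, 0), (14, 0, 0, 0, 0), (12, 0, 0, 0, 0), (14, 0, 0, 0, 0), (3, 0, 0, 0, 0), (10, 0, 0, 0, 0), (3, 0, 0, 0, 0), (4, 0, 0, 0, 0), (10, 0, 0, 0, 0), (4, 0, 0, 0, 0), (11, 0, 0, 0, 0), (5, 0, 0, 0, 0), (11, 0, 0, 0, 0), (8, 0, 0, 0, 0), (5, 0, 0, 0, 0), (8, 0, 0, 0, 0), (0, 0, 0, 0, 0), (7, 0, 0, 0, 0), (0, 0, 0, 0, 0), (14, 0, 0, 0, 0), (7, 0, 0, 0, 0), (14, 0, 0, 0, 0), (1, 0, 0, 0, 0), (13, 0, 0, 0, 0), (1, 0, 0, 0, 0), (9, 0, 0, 0, 0), (13, 0, 0, 0, 0), (9, 0, 0, 0, 0), (11, 0, 0, 0, 0), (12, 0, 0, 0, 0), (11, 0, 0, 0, 0), (13, 0, 0, 0, 0), (12, 0, 0, 0, 0), (13, 0, 0, 0, 0), (3, 0, 0, 0, 0), (6, 0, 0, 0, 0), (3, 0, 0, 0, 0), (9, 0, 0, 0, 0), (6, 0,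 0, 0, 0), (9, 0, 0, 0, 0), (0, 0, 0, 0, 0), (7, 0, 0, 0, 0), (0, 0, 0, 0, 0), (14, 0, 0, 0, 0), (7, 0, 0, 0, 0), (14, 0, 0, 0, 0), (2, 0, 0, 0, 0), (4, 0, 0, 0, 0), (2, 0, 0, 0, 0), (8, 0, 0, 0, 0), (4, 0, 0, 0, 0), (8, 0, 0, 0, 0), (5, 0, 0, 0, 0), (6, 0, 0, 0, 0), (5, 0, 0, 0, 0), (7, 0, 0, 0, 0), (6, 0, 0, 0, 0), (7, 0, 0, 0, 0), (10, 0, 0, 0, 0), (12, 0, 0, 0, 0), (10, 0, 0, 0, 0), (14, 0, 0, 0, 0), (12, 0, 0, 0, 0), (14, 0, 0, 0, 0), (1, 0, 0, 0, 0), (13, 0, 0, 0, 0), (1, 0, 0, 0, 0), (9, 0, 0, 0, 0), (13, 0, 0, 0, 0), (9, 0, 0, 0, 0), (2, 0, 0, 0, 0), (4, 0, 0, 0, 0), (2, 0, 0, 0, 0), (8, 0, 0, 0, 0), (4, 0, 0, 0, 0), (8, 0, 0, 0, 0)]]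

theorem tr81 : trK keys lk81 kl81 = true := by
  decide +kernel

theorem x81_0 : expB 0 5 dg10 dg6 m81_0 (l81_0 ++ z81_0) w81_0 = true := by
  decide +kernel

theorem t81_0_0 : chkS lk81 0 5 [(1, m81_0)] l81_0
  [(2, 16, 16, 274960, 274960), (0, 16, 16, 135235, 66610), (0, 16, 16, 131395, 66595), (3, 16, 16, 274960, 274960), (1, 16, 16, 266290, 266290), (1, 16, 16, 274945, 274945), (1, 16, 16, 271105, 271105), (0, 16, 16, 148240, 205840), (1, 16, 16, 266275, 262450), (1, 16, 16, 262435, 262435)]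
  [(0, 144), (1, -144), (2, 72), (3, -72)] = true := by
  decide +kernel

section

variable {κ ι : Type*} [Fintype κ] [Fintype ι] [Inhabited κ] [Inhabited ι]

noncomputable def F81_0 (E : Env κ ι) : (Fin 0 → κ) → (Fin 5 → ι) → ℝ := op2 (P10 κ) (P6 ι) (fB E 0 5 m81_0)

def r81_0_0 : List (ℕ × ℤ) := [(0, 144), (1, -144), (2, 72), (3, -72)]

theorem h81_0_0 (E : Env κ ι) : ip (F81_0 E) (F81_0 E) = dotS (ek E lk81) r81_0_0 :=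
  op_entryZ E lk81 0 5 _ _ _ _ (pg10 κ) (pg6 ι) m81_0 m81_0 l81_0 z81_0 w81_0 x81_0 (by decide) _ (chkS_sound E lk81 0 5 _ _ _ _ t81_0_0)

theorem row81_0 (E : Env κ ι) : RowG (ek E lk81) (F81_0 E) [F81_0 E] [r81_0_0] :=
  rowG_cons _ _ _ _ _ _ (h81_0_0 E) (rowG_nil _ _)

def tab81 : List (List (List (ℕ × ℤ))) := [[r81_0_0]]

theorem tri81 (E : Env κ ι) : TriG (ek E lk81) [F81_0 E] tab81 := by
  refine triG_cons _ _ _ _ _ (row81_0 E) ?_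
  exact triG_nil _

end

def lk82 : List Key := [
  (2, 5, [(0, [0], [0, 1]), (0, [1], [0, 2]), (0, [1], [3, 4]), (0, [0], [3, 4]), (4, [], [2]), (4, [], [1])]),
  (2, 5, [(0, [0], [0, 1]), (0, [1], [0, 2]), (0, [0], [2, 3]), (0, [1], [1, 4]), (4, [], [4]), (4, [], [3])]),
  (2, 5, [(0, [0], [0, 1]), (0, [0], [2, 3]), (0, [1], [0, 1]), (4, [], [4]), (0, [1], [2, 3]), (4, [], [4])]),
  (2, 5, [(0, [0], [0, 1]), (0, [0], [2, 3]), (0, [1], [1, 3]), (4, [], [4]), (0, [1], [0, 2]), (4, [], [4])])]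

def kl82 : List ℕ := [6, 34, 280, 319]

def m82_0 : Base := (1, 0, [(0, [0], [0, 1]), (0, [0], [2, 3]), (4, [], [4])])

def l82_0 : Cov := [(192, 1, 0, [(0, [0], [0, 1]), (0, [0], [2, 3]), (4, [], [4])]),
  (-192, 1, 0, [(0, [0], [0, 1]), (0, [0], [3, 4]), (4, [], [2])]),
  (-192, 1, 0, [(0, [0], [0, 3]), (0, [0], [1, 2]), (4, [], [4])]),
  (192, 1, 0, [(0, [0], [0, 3]), (0, [0], [1, 4]), (4, [], [2])]),
  (192, 1, 0, [(0, [0], [1, 2]), (0, [0], [3, 4]), (4, [], [0])]),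
  (-192, 1, 0, [(0, [0], [1, 4]), (0, [0], [2, 3]), (4, [], [0])])]

def z82_0 : Cov := [(0, 1, 0, [(0, [0], [0, 1]), (0, [0], [2, 4]), (4, [], [3])]),
  (0, 1, 0, [(0, [0], [0, 2]), (0, [0], [1, 3]), (4, [], [4])]),
  (0, 1, 0, [(0, [0], [0, 2]), (0, [0], [1, 4]), (4, [], [3])]),
  (0, 1, 0, [(0, [0], [0, 2]), (0, [0], [3, 4]), (4, [], [1])]),
  (0, 1, 0, [(0, [0], [0, 3]), (0, [0], [2, 4]), (4, [], [1])]),
  (0, 1, 0, [(0, [0], [0, 4]), (0, [0], [1, 2]), (4, [], [3])]),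
  (0, 1, 0, [(0, [0], [0, 4]), (0, [0], [1, 3]), (4, [], [2])]),
  (0, 1, 0, [(0, [0], [0, 4]), (0, [0], [2, 3]), (4, [], [1])]),
  (0, 1, 0, [(0, [0], [1, 3]), (0, [0], [2, 4]), (4, [], [0])])]

def w82_0 : List (List Wit) := [[(0, 0, 0, 0, 0), (6, 0, 0, 0, 0), (0, 0, 0, 0, 0), (1, 0, 0, 0, 0), (6, 0, 0, 0, 0), (1, 0, 0, 0, 0), (7, 0, 0, 0, 0), (8, 0, 0, 0, 0), (7, 0, 0, 0, 0), (9, 0, 0, 0, 0), (8, 0, 0, 0, 0), (9, 0, 0, 0, 0), (2, 0, 0, 0, 0), (3, 0, 0, 0, 0), (2, 0, 0, 0, 0), (10, 0, 0, 0, 0), (3, 0, 0, 0, 0), (10, 0, 0, 0, 0), (11, 0, 0, 0, 0), (12, 0, 0, 0, 0), (11, 0, 0, 0, 0), (13, 0, 0, 0, 0), (12, 0, 0, 0, 0), (13, 0, 0, 0, 0), (0, 0, 0, 0, 0), (6, 0, 0, 0, 0), (0, 0, 0, 0, 0), (1, 0, 0, 0, 0), (6, 0, 0, 0, 0), (1, 0, 0, 0, 0), (2, 0, 0, 0, 0), (11, 0, 0, 0, 0), (2, 0, 0, 0, 0), (4, 0, 0, 0, 0), (11, 0, 0, 0,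 0), (4, 0, 0, 0, 0), (7, 0, 0, 0, 0), (12, 0, 0, 0, 0), (7, 0, 0, 0, 0), (14, 0, 0, 0, 0), (12, 0, 0, 0, 0), (14, 0, 0, 0, 0), (8, 0, 0, 0, 0), (3, 0, 0, 0, 0), (8, 0, 0, 0, 0), (5, 0, 0, 0, 0), (3, 0, 0, 0, 0), (5, 0, 0, 0, 0), (7, 0, 0, 0, 0), (8, 0, 0, 0, 0), (7, 0, 0, 0, 0), (9, 0, 0, 0, 0), (8, 0, 0, 0, 0), (9, 0, 0, 0, 0), (2, 0, 0, 0, 0), (11, 0, 0, 0, 0), (2, 0, 0, 0, 0), (4, 0, 0, 0, 0), (11, 0, 0, 0, 0), (4, 0, 0, 0, 0), (0, 0, 0, 0, 0), (13, 0, 0, 0, 0), (0, 0, 0, 0, 0), (5, 0, 0, 0, 0), (13, 0, 0, 0, 0), (5, 0, 0, 0, 0), (6, 0, 0, 0, 0), (10, 0, 0, 0, 0), (6, 0, 0, 0, 0), (14, 0, 0, 0, 0), (10, 0, 0, 0, 0), (14, 0, 0, 0, 0), (2, 0, 0, 0, 0), (3, 0, 0, 0, 0), (2, 0, 0, 0, 0), (10, 0, 0, 0, 0), (3, 0, 0, 0, 0), (10, 0, 0, 0, 0), (7, 0, 0, 0, 0), (12, 0, 0, 0, 0), (7, 0, 0, 0, 0), (14, 0, 0, 0, 0), (12, 0, 0,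 0, 0), (14, 0, 0, 0, 0), (0, 0, 0, 0, 0), (13, 0, 0, 0, 0), (0, 0, 0, 0, 0), (5, 0, 0, 0, 0), (13, 0, 0, 0, 0), (5, 0, 0, 0, 0), (1, 0, 0, 0, 0), (9, 0, 0, 0, 0), (1, 0, 0, 0, 0), (4, 0, 0, 0, 0), (9, 0, 0, 0, 0), (4, 0, 0, 0, 0), (11, 0, 0, 0, 0), (12, 0, 0, 0, 0), (11, 0, 0, 0, 0), (13, 0, 0, 0, 0), (12, 0, 0, 0, 0), (13, 0, 0, 0, 0), (8, 0, 0, 0, 0), (3, 0, 0, 0, 0), (8, 0, 0, 0, 0), (5, 0, 0, 0, 0), (3, 0, 0, 0, 0), (5, 0, 0, 0, 0), (6, 0, 0, 0, 0), (10, 0, 0, 0, 0), (6, 0, 0, 0, 0), (14, 0, 0, 0, 0), (10, 0, 0, 0, 0), (14, 0, 0, 0, 0), (1, 0, 0, 0, 0), (9, 0, 0, 0, 0), (1, 0, 0, 0, 0), (4, 0, 0, 0, 0), (9, 0, 0, 0, 0), (4, 0, 0, 0, 0)]]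

theorem tr82 : trK keys lk82 kl82 = true := by
  decide +kernel

theorem x82_0 : expB 0 5 dg10 dg8 m82_0 (l82_0 ++ z82_0) w82_0 = true := by
  decide +kernel

theorem t82_0_0 : chkS lk82 0 5 [(1, m82_0)] l82_0
  [(2, 16, 16, 274960, 274960), (0, 16, 16, 131395, 66595), (3, 16, 16, 271120, 271120), (1, 16, 16, 271120, 271120), (1, 16, 16, 266275, 262450), (0, 16, 16, 148225, 205825)]
  [(0, -384), (1, 384), (2, 192), (3, -192)] = true := by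
  decide +kernel

section

variable {κ ι : Type*} [Fintype κ] [Fintype ι] [Inhabited κ] [Inhabited ι]

noncomputable def F82_0 (E : Env κ ι) : (Fin 0 → κ) → (Fin 5 → ι) → ℝ := op2 (P10 κ) (P8 ι) (fB E 0 5 m82_0)

def r82_0_0 : List (ℕ × ℤ) := [(0, -384), (1, 384), (2, 192), (3, -192)]

theorem h82_0_0 (E : Env κ ι) : ip (F82_0 E) (F82_0 E) = dotS (ek E lk82) r82_0_0 :=
  op_entryZ E lk82 0 5 _ _ _ _ (pg10 κ) (pg8 ι) m82_0 m82_0 l82_0 z82_0 w82_0 x82_0 (by decide) _ (chkS_sound E lk82 0 5 _ _ _ _ t82_0_0)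

theorem row82_0 (E : Env κ ι) : RowG (ek E lk82) (F82_0 E) [F82_0 E] [r82_0_0] :=
  rowG_cons _ _ _ _ _ _ (h82_0_0 E) (rowG_nil _ _)

def tab82 : List (List (List (ℕ × ℤ))) := [[r82_0_0]]

theorem tri82 (E : Env κ ι) : TriG (ek E lk82) [F82_0 E] tab82 := by
  refine triG_cons _ _ _ _ _ (row82_0 E) ?_
  exact triG_nil _

end

def lk83 : List Key := [
  (2, 5, [(0, [0], [0, 1]), (0, [1], [0, 2]), (0, [1], [3, 4]), (0, [0], [3, 4]), (4, [], [2]), (4, [], [1])]),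
  (2, 5, [(0, [0], [0, 1]), (0, [1], [0, 2]), (0, [0], [2, 3]), (0, [1], [1, 4]), (4, [], [4]), (4, [], [3])]),
  (2, 5, [(0, [0], [0, 1]), (0, [0], [2, 3]), (0, [1], [2, 4]), (0, [1], [0, 4]), (4, [], [3]), (4, [], [1])]),
  (2, 5, [(0, [0], [0, 1]), (0, [0], [2, 3]), (0, [1], [0, 1]), (4, [], [4]), (0, [1], [2, 3]), (4, [], [4])])]

def kl83 : List ℕ := [6, 34, 93, 280]

def m83_0 : Base := (0, 2, [(0, [0], [1, 2]), (0, [1], [1, 2]), (4, [], [0])])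

def l83_0 : Cov := [(4, 0, 2, [(0, [0], [1, 2]), (0, [1], [1, 2]), (4, [], [0])])]

def z83_0 : Cov := []

def w83_0 : List (List Wit) := [[(0, 0, 0, 16, 16)],
  [(0, 0, 0, 16, 16)]]

def m83_1 : Base := (0, 2, [(0, [0], [1, 2]), (0, [1], [0, 1]), (4, [], [2])])

def l83_1 : Cov := [(2, 0, 2, [(0, [0], [1, 2]), (0, [1], [0, 1]), (4, [], [2])]),
  (2, 0, 2, [(0, [1], [1, 2]), (0, [0], [0, 1]), (4, [], [2])])]

def z83_1 : Cov := []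

def w83_1 : List (List Wit) := [[(0, 0, 0, 16, 16)],
  [(1, 0, 0, 16, 16)]]

theorem tr83 : trK keys lk83 kl83 = true := by
  decide +kernel

theorem x83_0 : expB 2 1 dg11 dg0 m83_0 (l83_0 ++ z83_0) w83_0 = true := by
  decide +kernel

theorem x83_1 : expB 2 1 dg11 dg0 m83_1 (l83_1 ++ z83_1) w83_1 = true := by
  decide +kernel

theorem t83_0_0 : chkS lk83 2 1 [(1, m83_0)] l83_0
  [(3, 16, 16, 205060, 17185)]
  [(3, 4)] = true := by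
  decide +kernel

theorem t83_0_1 : chkS lk83 2 1 [(1, m83_0)] l83_1
  [(0, 16, 16, 66610, 135235), (0, 1, 1, 66610, 135235)]
  [(0, 4)] = true := by
  decide +kernel

theorem t83_1_1 : chkS lk83 2 1 [(1, m83_1)] l83_1
  [(2, 16, 16, 205060, 17185), (1, 1, 1, 205840, 148240)]
  [(1, 2), (2, 2)] = true := by
  decide +kernel

section

variable {κ ι : Type*} [Fintype κ] [Fintype ι] [Inhabited κ] [Inhabited ι]

noncomputable def F83_0 (E : Env κ ι) : (Fin 2 → κ) → (Fin 1 → ι) → ℝ := op2 (P11 κ) (P0 ι) (fB E 2 1 m83_0)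

noncomputable def F83_1 (E : Env κ ι) : (Fin 2 → κ) → (Fin 1 → ι) → ℝ := op2 (P11 κ) (P0 ι) (fB E 2 1 m83_1)

def r83_0_0 : List (ℕ × ℤ) := [(3, 4)]

theorem h83_0_0 (E : Env κ ι) : ip (F83_0 E) (F83_0 E) = dotS (ek E lk83) r83_0_0 :=
  op_entryZ E lk83 2 1 _ _ _ _ (pg11 κ) (pg0 ι) m83_0 m83_0 l83_0 z83_0 w83_0 x83_0 (by decide) _ (chkS_sound E lk83 2 1 _ _ _ _ t83_0_0)

def r83_0_1 : List (ℕ × ℤ) := [(0, 4)]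

theorem h83_0_1 (E : Env κ ι) : ip (F83_0 E) (F83_1 E) = dotS (ek E lk83) r83_0_1 :=
  op_entryZ E lk83 2 1 _ _ _ _ (pg11 κ) (pg0 ι) m83_0 m83_1 l83_1 z83_1 w83_1 x83_1 (by decide) _ (chkS_sound E lk83 2 1 _ _ _ _ t83_0_1)

def r83_1_1 : List (ℕ × ℤ) := [(1, 2), (2, 2)]

theorem h83_1_1 (E : Env κ ι) : ip (F83_1 E) (F83_1 E) = dotS (ek E lk83) r83_1_1 :=
  op_entryZ E lk83 2 1 _ _ _ _ (pg11 κ) (pg0 ι) m83_1 m83_1 l83_1 z83_1 w83_1 x83_1 (by decide) _ (chkS_sound E lk83 2 1 _ _ _ _ t83_1_1)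

theorem row83_0 (E : Env κ ι) : RowG (ek E lk83) (F83_0 E) [F83_0 E, F83_1 E] [r83_0_0, r83_0_1] :=
  rowG_cons _ _ _ _ _ _ (h83_0_0 E) (rowG_cons _ _ _ _ _ _ (h83_0_1 E) (rowG_nil _ _))

theorem row83_1 (E : Env κ ι) : RowG (ek E lk83) (F83_1 E) [F83_1 E] [r83_1_1] :=
  rowG_cons _ _ _ _ _ _ (h83_1_1 E) (rowG_nil _ _)

def tab83 : List (List (List (ℕ × ℤ))) := [[r83_0_0, r83_0_1], [r83_1_1]]

theorem tri83 (E : Env κ ι) : TriG (ek E lk83) [F83_0 E, F83_1 E] tab83 := by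
  refine triG_cons _ _ _ _ _ (row83_0 E) ?_
  refine triG_cons _ _ _ _ _ (row83_1 E) ?_
  exact triG_nil _

end

def lk84 : List Key := [
  (2, 5, [(0, [0], [0, 1]), (0, [1], [0, 2]), (0, [0], [2, 3]), (0, [1], [1, 4]), (4, [], [4]), (4, [], [3])]),
  (2, 5, [(0, [0], [0, 1]), (0, [0], [2, 3]), (0, [1], [2, 4]), (0, [1], [0, 4]), (4, [], [3]), (4, [], [1])])]

def kl84 : List ℕ := [34, 93]

def m84_0 : Base := (0, 2, [(0, [0], [1, 2]), (0, [1], [0, 1]), (4, [], [2])])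

def l84_0 : Cov := [(2, 0, 2, [(0, [0], [1, 2]), (0, [1], [0, 1]), (4, [], [2])]),
  (-2, 0, 2, [(0, [1], [1, 2]), (0, [0], [0, 1]), (4, [], [2])])]

def z84_0 : Cov := []

def w84_0 : List (List Wit) := [[(0, 0, 0, 16, 16)],
  [(1, 0, 0, 16, 16)]]

theorem tr84 : trK keys lk84 kl84 = true := by
  decide +kernel

theorem x84_0 : expB 2 1 dg12 dg0 m84_0 (l84_0 ++ z84_0) w84_0 = true := by
  decide +kernel

theorem t84_0_0 : chkS lk84 2 1 [(1, m84_0)] l84_0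
  [(1, 16, 16, 205060, 17185), (0, 1, 1, 205840, 148240)]
  [(0, -2), (1, 2)] = true := by
  decide +kernel

section

variable {κ ι : Type*} [Fintype κ] [Fintype ι] [Inhabited κ] [Inhabited ι]

noncomputable def F84_0 (E : Env κ ι) : (Fin 2 → κ) → (Fin 1 → ι) → ℝ := op2 (P12 κ) (P0 ι) (fB E 2 1 m84_0)

def r84_0_0 : List (ℕ × ℤ) := [(0, -2), (1, 2)]

theorem h84_0_0 (E : Env κ ι) : ip (F84_0 E) (F84_0 E) = dotS (ek E lk84) r84_0_0 :=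
  op_entryZ E lk84 2 1 _ _ _ _ (pg12 κ) (pg0 ι) m84_0 m84_0 l84_0 z84_0 w84_0 x84_0 (by decide) _ (chkS_sound E lk84 2 1 _ _ _ _ t84_0_0)

theorem row84_0 (E : Env κ ι) : RowG (ek E lk84) (F84_0 E) [F84_0 E] [r84_0_0] :=
  rowG_cons _ _ _ _ _ _ (h84_0_0 E) (rowG_nil _ _)

def tab84 : List (List (List (ℕ × ℤ))) := [[r84_0_0]]

theorem tri84 (E : Env κ ι) : TriG (ek E lk84) [F84_0 E] tab84 := by
  refine triG_cons _ _ _ _ _ (row84_0 E) ?_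
  exact triG_nil _

end

def lk85 : List Key := [
  (2, 5, [(0, [0], [0, 1]), (0, [0], [0, 1]), (0, [1], [2, 3]), (0, [1], [2, 4]), (4, [], [4]), (4, [], [3])]),
  (2, 5, [(0, [0], [0, 1]), (0, [1], [0, 2]), (0, [1], [3, 4]), (0, [0], [3, 4]), (4, [], [2]), (4, [], [1])]),
  (2, 5, [(0, [0], [0, 1]), (0, [1], [0, 2]), (0, [1], [2, 3]), (0, [0], [1, 4]), (4, [], [4]), (4, [], [3])]),
  (2, 5, [(0, [0], [0, 1]), (0, [1], [0, 2]), (0, [0], [2, 3]), (0, [1], [1, 4]), (4, [], [4]), (4, [], [3])]),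
  (2, 5, [(0, [0], [0, 1]), (0, [0], [2, 3]), (0, [1], [2, 4]), (0, [1], [0, 4]), (4, [], [3]), (4, [], [1])]),
  (2, 5, [(0, [0], [0, 1]), (0, [0], [0, 2]), (0, [1], [1, 2]), (4, [], [3]), (0, [1], [3, 4]), (4, [], [4])]),
  (2, 5, [(0, [0], [0, 1]), (0, [0], [2, 0]), (0, [1], [3, 1]), (4, [], [4]), (0, [1], [2, 3]), (4, [], [4])]),
  (2, 5, [(0, [0], [0, 1]), (0, [0], [2, 3]), (0, [1], [1, 3]), (4, [], [4]), (0, [1], [0, 2]), (4, [], [4])])]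

def kl85 : List ℕ := [5, 6, 33, 34, 93, 107, 247, 319]

def m85_0 : Base := (0, 1, [(0, [0], [0, 3]), (0, [1], [1, 3]), (4, [], [2])])

def l85_0 : Cov := [(24, 0, 1, [(0, [0], [0, 3]), (0, [1], [1, 3]), (4, [], [2])]),
  (24, 0, 1, [(0, [0], [0, 3]), (0, [1], [2, 3]), (4, [], [1])]),
  (24, 0, 1, [(0, [0], [1, 3]), (0, [1], [0, 3]), (4, [], [2])]),
  (24, 0, 1, [(0, [0], [1, 3]), (0, [1], [2, 3]), (4, [], [0])]),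
  (24, 0, 1, [(0, [0], [2, 3]), (0, [1], [0, 3]), (4, [], [1])]),
  (24, 0, 1, [(0, [0], [2, 3]), (0, [1], [1, 3]), (4, [], [0])])]

def z85_0 : Cov := []

def w85_0 : List (List Wit) := [[(0, 0, 0, 0, 0), (1, 0, 0, 0, 0), (2, 0, 0, 0, 0), (3, 0, 0, 0, 0), (4, 0, 0, 0, 0), (5, 0, 0, 0, 0)],
  [(2, 0, 0, 0, 0), (4, 0, 0, 0, 0), (0, 0, 0, 0, 0), (5, 0, 0, 0, 0), (1, 0, 0, 0, 0), (3, 0, 0, 0, 0)]]

def m85_1 : Base := (0, 1, [(0, [0], [0, 3]), (0, [1], [1, 2]), (4, [], [3])])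

def l85_1 : Cov := [(24, 0, 1, [(0, [0], [0, 3]), (0, [1], [1, 2]), (4, [], [3])]),
  (24, 0, 1, [(0, [0], [1, 3]), (0, [1], [0, 2]), (4, [], [3])]),
  (24, 0, 1, [(0, [0], [2, 3]), (0, [1], [0, 1]), (4, [], [3])]),
  (24, 0, 1, [(0, [1], [0, 3]), (0, [0], [1, 2]), (4, [], [3])]),
  (24, 0, 1, [(0, [1], [1, 3]), (0, [0], [0, 2]), (4, [], [3])]),
  (24, 0, 1, [(0, [1], [2, 3]), (0, [0], [0, 1]), (4, [], [3])])]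

def z85_1 : Cov := []

def w85_1 : List (List Wit) := [[(0, 0, 0, 0, 0), (0, 0, 0, 0, 0), (1, 0, 0, 0, 0), (1, 0, 0, 0, 0), (2, 0, 0, 0, 0), (2, 0, 0, 0, 0)],
  [(3, 0, 0, 0, 0), (3, 0, 0, 0, 0), (4, 0, 0, 0, 0), (4, 0, 0, 0, 0), (5, 0, 0, 0, 0), (5, 0, 0, 0, 0)]]

theorem tr85 : trK keys lk85 kl85 = true := by
  decide +kernel

theorem x85_0 : expB 2 3 dg11 dg1 m85_0 (l85_0 ++ z85_0) w85_0 = true := by
  decide +kernel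

theorem x85_1 : expB 2 3 dg11 dg1 m85_1 (l85_1 ++ z85_1) w85_1 = true := by
  decide +kernel

theorem t85_0_0 : chkS lk85 2 3 [(1, m85_0)] l85_0
  [(6, 16, 16, 136240, 136240), (4, 1, 1, 131860, 9235), (7, 16, 16, 136240, 136240), (3, 1, 1, 135940, 9265), (3, 16, 16, 136000, 74800), (4, 16, 16, 131905, 74755)]
  [(3, 48), (4, 48), (6, 24), (7, 24)] = true := by
  decide +kernel

theorem t85_0_1 : chkS lk85 2 3 [(1, m85_0)] l85_1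
  [(2, 16, 16, 262945, 270595), (3, 16, 16, 197665, 147715), (5, 1, 1, 267010, 270385), (3, 16, 16, 262945, 270595), (2, 16, 16, 197665, 147715), (5, 16, 16, 267040, 270640)]
  [(2, 48), (3, 48), (5, 48)] = true := by
  decide +kernel

theorem t85_1_1 : chkS lk85 2 3 [(1, m85_1)] l85_1
  [(0, 1, 1, 274690, 274465), (4, 16, 16, 201760, 147760), (4, 16, 16, 201280, 82480), (1, 16, 16, 136240, 136240), (2, 1, 1, 274450, 274450), (2, 1, 1, 274690, 274465)]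
  [(0, 24), (1, 24), (2, 48), (4, 48)] = true := by
  decide +kernel

section

variable {κ ι : Type*} [Fintype κ] [Fintype ι] [Inhabited κ] [Inhabited ι]

noncomputable def F85_0 (E : Env κ ι) : (Fin 2 → κ) → (Fin 3 → ι) → ℝ := op2 (P11 κ) (P1 ι) (fB E 2 3 m85_0)

noncomputable def F85_1 (E : Env κ ι) : (Fin 2 → κ) → (Fin 3 → ι) → ℝ := op2 (P11 κ) (P1 ι) (fB E 2 3 m85_1)

def r85_0_0 : List (ℕ × ℤ) := [(3, 48), (4, 48), (6, 24), (7, 24)]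

theorem h85_0_0 (E : Env κ ι) : ip (F85_0 E) (F85_0 E) = dotS (ek E lk85) r85_0_0 :=
  op_entryZ E lk85 2 3 _ _ _ _ (pg11 κ) (pg1 ι) m85_0 m85_0 l85_0 z85_0 w85_0 x85_0 (by decide) _ (chkS_sound E lk85 2 3 _ _ _ _ t85_0_0)

def r85_0_1 : List (ℕ × ℤ) := [(2, 48), (3, 48), (5, 48)]

theorem h85_0_1 (E : Env κ ι) : ip (F85_0 E) (F85_1 E) = dotS (ek E lk85) r85_0_1 :=
  op_entryZ E lk85 2 3 _ _ _ _ (pg11 κ) (pg1 ι) m85_0 m85_1 l85_1 z85_1 w85_1 x85_1 (by decide) _ (chkS_sound E lk85 2 3 _ _ _ _ t85_0_1)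

def r85_1_1 : List (ℕ × ℤ) := [(0, 24), (1, 24), (2, 48), (4, 48)]

theorem h85_1_1 (E : Env κ ι) : ip (F85_1 E) (F85_1 E) = dotS (ek E lk85) r85_1_1 :=
  op_entryZ E lk85 2 3 _ _ _ _ (pg11 κ) (pg1 ι) m85_1 m85_1 l85_1 z85_1 w85_1 x85_1 (by decide) _ (chkS_sound E lk85 2 3 _ _ _ _ t85_1_1)

theorem row85_0 (E : Env κ ι) : RowG (ek E lk85) (F85_0 E) [F85_0 E, F85_1 E] [r85_0_0, r85_0_1] :=
  rowG_cons _ _ _ _ _ _ (h85_0_0 E) (rowG_cons _ _ _ _ _ _ (h85_0_1 E) (rowG_nil _ _))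

theorem row85_1 (E : Env κ ι) : RowG (ek E lk85) (F85_1 E) [F85_1 E] [r85_1_1] :=
  rowG_cons _ _ _ _ _ _ (h85_1_1 E) (rowG_nil _ _)

def tab85 : List (List (List (ℕ × ℤ))) := [[r85_0_0, r85_0_1], [r85_1_1]]

theorem tri85 (E : Env κ ι) : TriG (ek E lk85) [F85_0 E, F85_1 E] tab85 := by
  refine triG_cons _ _ _ _ _ (row85_0 E) ?_
  refine triG_cons _ _ _ _ _ (row85_1 E) ?_
  exact triG_nil _

end

def lk86 : List Key := [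
  (2, 5, [(0, [0], [0, 1]), (0, [0], [0, 1]), (0, [1], [2, 3]), (0, [1], [2, 4]), (4, [], [4]), (4, [], [3])]),
  (2, 5, [(0, [0], [0, 1]), (0, [1], [0, 2]), (0, [1], [3, 4]), (0, [0], [3, 4]), (4, [], [2]), (4, [], [1])]),
  (2, 5, [(0, [0], [0, 1]), (0, [1], [0, 2]), (0, [1], [2, 3]), (0, [0], [1, 4]), (4, [], [4]), (4, [], [3])]),
  (2, 5, [(0, [0], [0, 1]), (0, [0], [2, 3]), (0, [1], [2, 4]), (0, [1], [0, 4]), (4, [], [3]), (4, [], [1])])]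

def kl86 : List ℕ := [5, 6, 33, 93]

def m86_0 : Base := (0, 1, [(0, [0], [0, 3]), (0, [1], [1, 2]), (4, [], [3])])

def l86_0 : Cov := [(24, 0, 1, [(0, [0], [0, 3]), (0, [1], [1, 2]), (4, [], [3])]),
  (24, 0, 1, [(0, [0], [1, 3]), (0, [1], [0, 2]), (4, [], [3])]),
  (24, 0, 1, [(0, [0], [2, 3]), (0, [1], [0, 1]), (4, [], [3])]),
  (-24, 0, 1, [(0, [1], [0, 3]), (0, [0], [1, 2]), (4, [], [3])]),
  (-24, 0, 1, [(0, [1], [1, 3]), (0, [0], [0, 2]), (4, [], [3])]),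
  (-24, 0, 1, [(0, [1], [2, 3]), (0, [0], [0, 1]), (4, [], [3])])]

def z86_0 : Cov := []

def w86_0 : List (List Wit) := [[(0, 0, 0, 0, 0), (0, 0, 0, 0, 0), (1, 0, 0, 0, 0), (1, 0, 0, 0, 0), (2, 0, 0, 0, 0), (2, 0, 0, 0, 0)],
  [(3, 0, 0, 0, 0), (3, 0, 0, 0, 0), (4, 0, 0, 0, 0), (4, 0, 0, 0, 0), (5, 0, 0, 0, 0), (5, 0, 0, 0, 0)]]

theorem tr86 : trK keys lk86 kl86 = true := by
  decide +kernel

theorem x86_0 : expB 2 3 dg12 dg1 m86_0 (l86_0 ++ z86_0) w86_0 = true := by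
  decide +kernel

theorem t86_0_0 : chkS lk86 2 3 [(1, m86_0)] l86_0
  [(0, 1, 1, 274690, 274465), (3, 16, 16, 201760, 147760), (3, 16, 16, 201280, 82480), (1, 16, 16, 136240, 136240), (2, 1, 1, 274450, 274450), (2, 1, 1, 274690, 274465)]
  [(0, 24), (1, -24), (2, -48), (3, 48)] = true := by
  decide +kernel

section

variable {κ ι : Type*} [Fintype κ] [Fintype ι] [Inhabited κ] [Inhabited ι]

noncomputable def F86_0 (E : Env κ ι) : (Fin 2 → κ) → (Fin 3 → ι) → ℝ := op2 (P12 κ) (P1 ι) (fB E 2 3 m86_0)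

def r86_0_0 : List (ℕ × ℤ) := [(0, 24), (1, -24), (2, -48), (3, 48)]

theorem h86_0_0 (E : Env κ ι) : ip (F86_0 E) (F86_0 E) = dotS (ek E lk86) r86_0_0 :=
  op_entryZ E lk86 2 3 _ _ _ _ (pg12 κ) (pg1 ι) m86_0 m86_0 l86_0 z86_0 w86_0 x86_0 (by decide) _ (chkS_sound E lk86 2 3 _ _ _ _ t86_0_0)

theorem row86_0 (E : Env κ ι) : RowG (ek E lk86) (F86_0 E) [F86_0 E] [r86_0_0] :=
  rowG_cons _ _ _ _ _ _ (h86_0_0 E) (rowG_nil _ _)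

def tab86 : List (List (List (ℕ × ℤ))) := [[r86_0_0]]

theorem tri86 (E : Env κ ι) : TriG (ek E lk86) [F86_0 E] tab86 := by
  refine triG_cons _ _ _ _ _ (row86_0 E) ?_
  exact triG_nil _

end

def lk87 : List Key := [
  (2, 5, [(0, [0], [0, 1]), (0, [0], [0, 1]), (0, [1], [2, 3]), (0, [1], [2, 4]), (4, [], [4]), (4, [], [3])]),
  (2, 5, [(0, [0], [0, 1]), (0, [1], [0, 2]), (0, [1], [3, 4]), (0, [0], [3, 4]), (4, [], [2]), (4, [], [1])]),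
  (2, 5, [(0, [0], [0, 1]), (0, [1], [0, 2]), (0, [1], [2, 3]), (0, [0], [1, 4]), (4, [], [4]), (4, [], [3])]),
  (2, 5, [(0, [0], [0, 1]), (0, [1], [0, 2]), (0, [0], [2, 3]), (0, [1], [1, 4]), (4, [], [4]), (4, [], [3])]),
  (2, 5, [(0, [0], [0, 1]), (0, [0], [2, 3]), (0, [1], [2, 4]), (0, [1], [0, 4]), (4, [], [3]), (4, [], [1])]),
  (2, 5, [(0, [0], [0, 1]), (0, [0], [0, 2]), (0, [1], [1, 2]), (4, [], [3]), (0, [1], [3, 4]), (4, [], [4])]),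
  (2, 5, [(0, [0], [0, 1]), (0, [0], [2, 0]), (0, [1], [3, 1]), (4, [], [4]), (0, [1], [2, 3]), (4, [], [4])]),
  (2, 5, [(0, [0], [0, 1]), (0, [0], [2, 3]), (0, [1], [1, 3]), (4, [], [4]), (0, [1], [0, 2]), (4, [], [4])])]

def kl87 : List ℕ := [5, 6, 33, 34, 93, 107, 247, 319]

def m87_0 : Base := (0, 1, [(0, [0], [0, 3]), (0, [1], [1, 3]), (4, [], [2])])

def l87_0 : Cov := [(12, 0, 1, [(0, [0], [0, 3]), (0, [1], [1, 3]), (4, [], [2])]),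
  (12, 0, 1, [(0, [0], [1, 3]), (0, [1], [0, 3]), (4, [], [2])]),
  (-12, 0, 1, [(0, [0], [1, 3]), (0, [1], [2, 3]), (4, [], [0])]),
  (-12, 0, 1, [(0, [0], [2, 3]), (0, [1], [1, 3]), (4, [], [0])])]

def z87_0 : Cov := [(0, 0, 1, [(0, [0], [0, 3]), (0, [1], [2, 3]), (4, [], [1])]),
  (0, 0, 1, [(0, [0], [2, 3]), (0, [1], [0, 3]), (4, [], [1])])]

def w87_0 : List (List Wit) := [[(0, 0, 0, 0, 0), (4, 0, 0, 0, 0), (1, 0, 0, 0, 0), (2, 0, 0, 0, 0), (5, 0, 0, 0, 0), (3, 0, 0, 0, 0)],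
  [(1, 0, 0, 0, 0), (5, 0, 0, 0, 0), (0, 0, 0, 0, 0), (3, 0, 0, 0, 0), (4, 0, 0, 0, 0), (2, 0, 0, 0, 0)]]

def m87_1 : Base := (0, 1, [(0, [0], [0, 3]), (0, [1], [1, 2]), (4, [], [3])])

def l87_1 : Cov := [(12, 0, 1, [(0, [0], [0, 3]), (0, [1], [1, 2]), (4, [], [3])]),
  (-12, 0, 1, [(0, [0], [2, 3]), (0, [1], [0, 1]), (4, [], [3])]),
  (12, 0, 1, [(0, [1], [0, 3]), (0, [0], [1, 2]), (4, [], [3])]),
  (-12, 0, 1, [(0, [1], [2, 3]), (0, [0], [0, 1]), (4, [], [3])])]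

def z87_1 : Cov := [(0, 0, 1, [(0, [0], [1, 3]), (0, [1], [0, 2]), (4, [], [3])]),
  (0, 0, 1, [(0, [1], [1, 3]), (0, [0], [0, 2]), (4, [], [3])])]

def w87_1 : List (List Wit) := [[(0, 0, 0, 0, 0), (0, 0, 0, 0, 0), (4, 0, 0, 0, 0), (4, 0, 0, 0, 0), (1, 0, 0, 0, 0), (1, 0, 0, 0, 0)],
  [(2, 0, 0, 0, 0), (2, 0, 0, 0, 0), (5, 0, 0, 0, 0), (5, 0, 0, 0, 0), (3, 0, 0, 0, 0), (3, 0, 0, 0, 0)]]

theorem tr87 : trK keys lk87 kl87 = true := by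
  decide +kernel

theorem x87_0 : expB 2 3 dg11 dg2 m87_0 (l87_0 ++ z87_0) w87_0 = true := by
  decide +kernel

theorem x87_1 : expB 2 3 dg11 dg2 m87_1 (l87_1 ++ z87_1) w87_1 = true := by
  decide +kernel

theorem t87_0_0 : chkS lk87 2 3 [(1, m87_0)] l87_0
  [(6, 16, 16, 136240, 136240), (7, 16, 16, 136240, 136240), (3, 1, 1, 135940, 9265), (4, 16, 16, 131905, 74755)]
  [(3, -12), (4, -12), (6, 12), (7, 12)] = true := by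
  decide +kernel

theorem t87_0_1 : chkS lk87 2 3 [(1, m87_0)] l87_1
  [(2, 16, 16, 262945, 270595), (5, 1, 1, 267010, 270385), (3, 16, 16, 262945, 270595), (5, 16, 16, 267040, 270640)]
  [(2, 12), (3, 12), (5, -24)] = true := by
  decide +kernel

theorem t87_1_1 : chkS lk87 2 3 [(1, m87_1)] l87_1
  [(0, 1, 1, 274690, 274465), (4, 16, 16, 201280, 82480), (1, 16, 16, 136240, 136240), (2, 1, 1, 274690, 274465)]
  [(0, 12), (1, 12), (2, -12), (4, -12)] = true := by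
  decide +kernel

section

variable {κ ι : Type*} [Fintype κ] [Fintype ι] [Inhabited κ] [Inhabited ι]

noncomputable def F87_0 (E : Env κ ι) : (Fin 2 → κ) → (Fin 3 → ι) → ℝ := op2 (P11 κ) (P2 ι) (fB E 2 3 m87_0)

noncomputable def F87_1 (E : Env κ ι) : (Fin 2 → κ) → (Fin 3 → ι) → ℝ := op2 (P11 κ) (P2 ι) (fB E 2 3 m87_1)

def r87_0_0 : List (ℕ × ℤ) := [(3, -12), (4, -12), (6, 12), (7, 12)]

theorem h87_0_0 (E : Env κ ι) : ip (F87_0 E) (F87_0 E) = dotS (ek E lk87) r87_0_0 :=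
  op_entryZ E lk87 2 3 _ _ _ _ (pg11 κ) (pg2 ι) m87_0 m87_0 l87_0 z87_0 w87_0 x87_0 (by decide) _ (chkS_sound E lk87 2 3 _ _ _ _ t87_0_0)

def r87_0_1 : List (ℕ × ℤ) := [(2, 12), (3, 12), (5, -24)]

theorem h87_0_1 (E : Env κ ι) : ip (F87_0 E) (F87_1 E) = dotS (ek E lk87) r87_0_1 :=
  op_entryZ E lk87 2 3 _ _ _ _ (pg11 κ) (pg2 ι) m87_0 m87_1 l87_1 z87_1 w87_1 x87_1 (by decide) _ (chkS_sound E lk87 2 3 _ _ _ _ t87_0_1)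

def r87_1_1 : List (ℕ × ℤ) := [(0, 12), (1, 12), (2, -12), (4, -12)]

theorem h87_1_1 (E : Env κ ι) : ip (F87_1 E) (F87_1 E) = dotS (ek E lk87) r87_1_1 :=
  op_entryZ E lk87 2 3 _ _ _ _ (pg11 κ) (pg2 ι) m87_1 m87_1 l87_1 z87_1 w87_1 x87_1 (by decide) _ (chkS_sound E lk87 2 3 _ _ _ _ t87_1_1)

theorem row87_0 (E : Env κ ι) : RowG (ek E lk87) (F87_0 E) [F87_0 E, F87_1 E] [r87_0_0, r87_0_1] :=
  rowG_cons _ _ _ _ _ _ (h87_0_0 E) (rowG_cons _ _ _ _ _ _ (h87_0_1 E) (rowG_nil _ _))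

theorem row87_1 (E : Env κ ι) : RowG (ek E lk87) (F87_1 E) [F87_1 E] [r87_1_1] :=
  rowG_cons _ _ _ _ _ _ (h87_1_1 E) (rowG_nil _ _)

def tab87 : List (List (List (ℕ × ℤ))) := [[r87_0_0, r87_0_1], [r87_1_1]]

theorem tri87 (E : Env κ ι) : TriG (ek E lk87) [F87_0 E, F87_1 E] tab87 := by
  refine triG_cons _ _ _ _ _ (row87_0 E) ?_
  refine triG_cons _ _ _ _ _ (row87_1 E) ?_
  exact triG_nil _

end

def lk88 : List Key := [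
  (2, 5, [(0, [0], [0, 1]), (0, [0], [0, 1]), (0, [1], [2, 3]), (0, [1], [2, 4]), (4, [], [4]), (4, [], [3])]),
  (2, 5, [(0, [0], [0, 1]), (0, [1], [0, 2]), (0, [1], [3, 4]), (0, [0], [3, 4]), (4, [], [2]), (4, [], [1])]),
  (2, 5, [(0, [0], [0, 1]), (0, [1], [0, 2]), (0, [1], [2, 3]), (0, [0], [1, 4]), (4, [], [4]), (4, [], [3])]),
  (2, 5, [(0, [0], [0, 1]), (0, [1], [0, 2]), (0, [0], [2, 3]), (0, [1], [1, 4]), (4, [], [4]), (4, [], [3])]),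
  (2, 5, [(0, [0], [0, 1]), (0, [0], [2, 3]), (0, [1], [2, 4]), (0, [1], [0, 4]), (4, [], [3]), (4, [], [1])]),
  (2, 5, [(0, [0], [0, 1]), (0, [0], [0, 2]), (0, [1], [1, 2]), (4, [], [3]), (0, [1], [3, 4]), (4, [], [4])]),
  (2, 5, [(0, [0], [0, 1]), (0, [0], [2, 0]), (0, [1], [3, 1]), (4, [], [4]), (0, [1], [2, 3]), (4, [], [4])]),
  (2, 5, [(0, [0], [0, 1]), (0, [0], [2, 3]), (0, [1], [1, 3]), (4, [], [4]), (0, [1], [0, 2]), (4, [], [4])])]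

def kl88 : List ℕ := [5, 6, 33, 34, 93, 107, 247, 319]

def m88_0 : Base := (0, 1, [(0, [0], [0, 3]), (0, [1], [1, 3]), (4, [], [2])])

def l88_0 : Cov := [(4, 0, 1, [(0, [0], [0, 3]), (0, [1], [1, 3]), (4, [], [2])]),
  (8, 0, 1, [(0, [0], [0, 3]), (0, [1], [2, 3]), (4, [], [1])]),
  (-4, 0, 1, [(0, [0], [1, 3]), (0, [1], [0, 3]), (4, [], [2])]),
  (4, 0, 1, [(0, [0], [1, 3]), (0, [1], [2, 3]), (4, [], [0])]),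
  (-8, 0, 1, [(0, [0], [2, 3]), (0, [1], [0, 3]), (4, [], [1])]),
  (-4, 0, 1, [(0, [0], [2, 3]), (0, [1], [1, 3]), (4, [], [0])])]

def z88_0 : Cov := []

def w88_0 : List (List Wit) := [[(0, 0, 0, 0, 0), (1, 0, 0, 0, 0), (2, 0, 0, 0, 0), (3, 0, 0, 0, 0), (4, 0, 0, 0, 0), (5, 0, 0, 0, 0)],
  [(2, 0, 0, 0, 0), (4, 0, 0, 0, 0), (0, 0, 0, 0, 0), (5, 0, 0, 0, 0), (1, 0, 0, 0, 0), (3, 0, 0, 0, 0)]]

def m88_1 : Base := (0, 1, [(0, [0], [0, 3]), (0, [1], [1, 2]), (4, [], [3])])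

def l88_1 : Cov := [(12, 0, 1, [(0, [0], [0, 3]), (0, [1], [1, 2]), (4, [], [3])]),
  (-12, 0, 1, [(0, [0], [2, 3]), (0, [1], [0, 1]), (4, [], [3])]),
  (-12, 0, 1, [(0, [1], [0, 3]), (0, [0], [1, 2]), (4, [], [3])]),
  (12, 0, 1, [(0, [1], [2, 3]), (0, [0], [0, 1]), (4, [], [3])])]

def z88_1 : Cov := [(0, 0, 1, [(0, [0], [1, 3]), (0, [1], [0, 2]), (4, [], [3])]),
  (0, 0, 1, [(0, [1], [1, 3]), (0, [0], [0, 2]), (4, [], [3])])]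

def w88_1 : List (List Wit) := [[(0, 0, 0, 0, 0), (0, 0, 0, 0, 0), (4, 0, 0, 0, 0), (4, 0, 0, 0, 0), (1, 0, 0, 0, 0), (1, 0, 0, 0, 0)],
  [(2, 0, 0, 0, 0), (2, 0, 0, 0, 0), (5, 0, 0, 0, 0), (5, 0, 0, 0, 0), (3, 0, 0, 0, 0), (3, 0, 0, 0, 0)]]

theorem tr88 : trK keys lk88 kl88 = true := by
  decide +kernel

theorem x88_0 : expB 2 3 dg12 dg2 m88_0 (l88_0 ++ z88_0) w88_0 = true := by
  decide +kernel

theorem x88_1 : expB 2 3 dg12 dg2 m88_1 (l88_1 ++ z88_1) w88_1 = true := by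
  decide +kernel

theorem t88_0_0 : chkS lk88 2 3 [(1, m88_0)] l88_0
  [(6, 16, 16, 136240, 136240), (4, 1, 1, 131860, 9235), (7, 16, 16, 136240, 136240), (3, 1, 1, 135940, 9265), (3, 16, 16, 136000, 74800), (4, 16, 16, 131905, 74755)]
  [(3, -4), (4, 4), (6, 4), (7, -4)] = true := by
  decide +kernel

theorem t88_0_1 : chkS lk88 2 3 [(1, m88_0)] l88_1
  [(2, 16, 16, 262945, 270595), (5, 1, 1, 267010, 270385), (3, 16, 16, 262945, 270595), (5, 16, 16, 267040, 270640)]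
  [(2, 12), (3, -12), (5, 0)] = true := by
  decide +kernel

theorem t88_1_1 : chkS lk88 2 3 [(1, m88_1)] l88_1
  [(0, 1, 1, 274690, 274465), (4, 16, 16, 201280, 82480), (1, 16, 16, 136240, 136240), (2, 1, 1, 274690, 274465)]
  [(0, 12), (1, -12), (2, 12), (4, -12)] = true := by
  decide +kernel

section

variable {κ ι : Type*} [Fintype κ] [Fintype ι] [Inhabited κ] [Inhabited ι]

noncomputable def F88_0 (E : Env κ ι) : (Fin 2 → κ) → (Fin 3 → ι) → ℝ := op2 (P12 κ) (P2 ι) (fB E 2 3 m88_0)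

noncomputable def F88_1 (E : Env κ ι) : (Fin 2 → κ) → (Fin 3 → ι) → ℝ := op2 (P12 κ) (P2 ι) (fB E 2 3 m88_1)

def r88_0_0 : List (ℕ × ℤ) := [(3, -4), (4, 4), (6, 4), (7, -4)]

theorem h88_0_0 (E : Env κ ι) : ip (F88_0 E) (F88_0 E) = dotS (ek E lk88) r88_0_0 :=
  op_entryZ E lk88 2 3 _ _ _ _ (pg12 κ) (pg2 ι) m88_0 m88_0 l88_0 z88_0 w88_0 x88_0 (by decide) _ (chkS_sound E lk88 2 3 _ _ _ _ t88_0_0)

def r88_0_1 : List (ℕ × ℤ) := [(2, 12), (3, -12), (5, 0)]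

theorem h88_0_1 (E : Env κ ι) : ip (F88_0 E) (F88_1 E) = dotS (ek E lk88) r88_0_1 :=
  op_entryZ E lk88 2 3 _ _ _ _ (pg12 κ) (pg2 ι) m88_0 m88_1 l88_1 z88_1 w88_1 x88_1 (by decide) _ (chkS_sound E lk88 2 3 _ _ _ _ t88_0_1)

def r88_1_1 : List (ℕ × ℤ) := [(0, 12), (1, -12), (2, 12), (4, -12)]

theorem h88_1_1 (E : Env κ ι) : ip (F88_1 E) (F88_1 E) = dotS (ek E lk88) r88_1_1 :=
  op_entryZ E lk88 2 3 _ _ _ _ (pg12 κ) (pg2 ι) m88_1 m88_1 l88_1 z88_1 w88_1 x88_1 (by decide) _ (chkS_sound E lk88 2 3 _ _ _ _ t88_1_1)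

theorem row88_0 (E : Env κ ι) : RowG (ek E lk88) (F88_0 E) [F88_0 E, F88_1 E] [r88_0_0, r88_0_1] :=
  rowG_cons _ _ _ _ _ _ (h88_0_0 E) (rowG_cons _ _ _ _ _ _ (h88_0_1 E) (rowG_nil _ _))

theorem row88_1 (E : Env κ ι) : RowG (ek E lk88) (F88_1 E) [F88_1 E] [r88_1_1] :=
  rowG_cons _ _ _ _ _ _ (h88_1_1 E) (rowG_nil _ _)

def tab88 : List (List (List (ℕ × ℤ))) := [[r88_0_0, r88_0_1], [r88_1_1]]

theorem tri88 (E : Env κ ι) : TriG (ek E lk88) [F88_0 E, F88_1 E] tab88 := by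
  refine triG_cons _ _ _ _ _ (row88_0 E) ?_
  refine triG_cons _ _ _ _ _ (row88_1 E) ?_
  exact triG_nil _

end

def lk89 : List Key := [
  (2, 5, [(0, [0], [0, 1]), (0, [1], [0, 2]), (0, [0], [2, 3]), (0, [1], [1, 4]), (4, [], [4]), (4, [], [3])]),
  (2, 5, [(0, [0], [0, 1]), (0, [0], [2, 3]), (0, [1], [2, 4]), (0, [1], [0, 4]), (4, [], [3]), (4, [], [1])]),
  (2, 5, [(0, [0], [0, 1]), (0, [0], [2, 0]), (0, [1], [3, 1]), (4, [], [4]), (0, [1], [2, 3]), (4, [], [4])]),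
  (2, 5, [(0, [0], [0, 1]), (0, [0], [2, 3]), (0, [1], [1, 3]), (4, [], [4]), (0, [1], [0, 2]), (4, [], [4])])]

def kl89 : List ℕ := [34, 93, 247, 319]

def m89_0 : Base := (0, 1, [(0, [0], [0, 3]), (0, [1], [1, 3]), (4, [], [2])])

def l89_0 : Cov := [(24, 0, 1, [(0, [0], [0, 3]), (0, [1], [1, 3]), (4, [], [2])]),
  (-24, 0, 1, [(0, [0], [0, 3]), (0, [1], [2, 3]), (4, [], [1])]),
  (-24, 0, 1, [(0, [0], [1, 3]), (0, [1], [0, 3]), (4, [], [2])]),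
  (24, 0, 1, [(0, [0], [1, 3]), (0, [1], [2, 3]), (4, [], [0])]),
  (24, 0, 1, [(0, [0], [2, 3]), (0, [1], [0, 3]), (4, [], [1])]),
  (-24, 0, 1, [(0, [0], [2, 3]), (0, [1], [1, 3]), (4, [], [0])])]

def z89_0 : Cov := []

def w89_0 : List (List Wit) := [[(0, 0, 0, 0, 0), (1, 0, 0, 0, 0), (2, 0, 0, 0, 0), (3, 0, 0, 0, 0), (4, 0, 0, 0, 0), (5, 0, 0, 0, 0)],
  [(2, 0, 0, 0, 0), (4, 0, 0, 0, 0), (0, 0, 0, 0, 0), (5, 0, 0, 0, 0), (1, 0, 0, 0, 0), (3, 0, 0, 0, 0)]]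

theorem tr89 : trK keys lk89 kl89 = true := by
  decide +kernel

theorem x89_0 : expB 2 3 dg12 dg3 m89_0 (l89_0 ++ z89_0) w89_0 = true := by
  decide +kernel

theorem t89_0_0 : chkS lk89 2 3 [(1, m89_0)] l89_0
  [(2, 16, 16, 136240, 136240), (1, 1, 1, 131860, 9235), (3, 16, 16, 136240, 136240), (0, 1, 1, 135940, 9265), (0, 16, 16, 136000, 74800), (1, 16, 16, 131905, 74755)]
  [(0, 48), (1, -48), (2, 24), (3, -24)] = true := by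
  decide +kernel

section

variable {κ ι : Type*} [Fintype κ] [Fintype ι] [Inhabited κ] [Inhabited ι]

noncomputable def F89_0 (E : Env κ ι) : (Fin 2 → κ) → (Fin 3 → ι) → ℝ := op2 (P12 κ) (P3 ι) (fB E 2 3 m89_0)

def r89_0_0 : List (ℕ × ℤ) := [(0, 48), (1, -48), (2, 24), (3, -24)]

theorem h89_0_0 (E : Env κ ι) : ip (F89_0 E) (F89_0 E) = dotS (ek E lk89) r89_0_0 :=
  op_entryZ E lk89 2 3 _ _ _ _ (pg12 κ) (pg3 ι) m89_0 m89_0 l89_0 z89_0 w89_0 x89_0 (by decide) _ (chkS_sound E lk89 2 3 _ _ _ _ t89_0_0)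

theorem row89_0 (E : Env κ ι) : RowG (ek E lk89) (F89_0 E) [F89_0 E] [r89_0_0] :=
  rowG_cons _ _ _ _ _ _ (h89_0_0 E) (rowG_nil _ _)

def tab89 : List (List (List (ℕ × ℤ))) := [[r89_0_0]]

theorem tri89 (E : Env κ ι) : TriG (ek E lk89) [F89_0 E] tab89 := by
  refine triG_cons _ _ _ _ _ (row89_0 E) ?_
  exact triG_nil _

end

def lk90 : List Key := [
  (2, 5, [(0, [0], [0, 1]), (0, [0], [0, 1]), (0, [1], [2, 3]), (0, [1], [2, 4]), (4, [], [4]), (4, [], [3])]),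
  (2, 5, [(0, [0], [0, 1]), (0, [1], [0, 2]), (0, [1], [3, 4]), (0, [0], [3, 4]), (4, [], [2]), (4, [], [1])]),
  (2, 5, [(0, [0], [0, 1]), (0, [1], [0, 2]), (0, [1], [2, 3]), (0, [0], [1, 4]), (4, [], [4]), (4, [], [3])]),
  (2, 5, [(0, [0], [0, 1]), (0, [0], [0, 1]), (0, [1], [2, 3]), (0, [1], [2, 3]), (4, [], [4]), (4, [], [4])]),
  (2, 5, [(0, [0], [0, 1]), (0, [0], [2, 3]), (0, [1], [2, 4]), (0, [1], [0, 4]), (4, [], [3]), (4, [], [1])]),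
  (2, 5, [(0, [0], [0, 1]), (0, [0], [2, 0]), (0, [1], [3, 1]), (4, [], [4]), (0, [1], [2, 3]), (4, [], [4])]),
  (2, 5, [(0, [0], [0, 1]), (0, [0], [2, 3]), (0, [1], [0, 1]), (4, [], [4]), (0, [1], [2, 3]), (4, [], [4])])]

def kl90 : List ℕ := [5, 6, 33, 91, 93, 247, 280]

def m90_0 : Base := (0, 0, [(0, [0], [0, 1]), (0, [1], [2, 3]), (4, [], [4])])

def l90_0 : Cov := [(1920, 0, 0, [(0, [0], [0, 1]), (0, [1], [2, 3]), (4, [], [4])]),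
  (1920, 0, 0, [(0, [0], [0, 1]), (0, [1], [2, 4]), (4, [], [3])]),
  (1920, 0, 0, [(0, [0], [0, 1]), (0, [1], [3, 4]), (4, [], [2])]),
  (1920, 0, 0, [(0, [0], [0, 2]), (0, [1], [1, 3]), (4, [], [4])]),
  (1920, 0, 0, [(0, [0], [0, 2]), (0, [1], [1, 4]), (4, [], [3])]),
  (1920, 0, 0, [(0, [0], [0, 2]), (0, [1], [3, 4]), (4, [], [1])]),
  (1920, 0, 0, [(0, [0], [0, 3]), (0, [1], [1, 2]), (4, [], [4])]),
  (1920, 0, 0, [(0, [0], [0, 3]), (0, [1], [1, 4]), (4, [], [2])]),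
  (1920, 0, 0, [(0, [0], [0, 3]), (0, [1], [2, 4]), (4, [], [1])]),
  (1920, 0, 0, [(0, [0], [0, 4]), (0, [1], [1, 2]), (4, [], [3])]),
  (1920, 0, 0, [(0, [0], [0, 4]), (0, [1], [1, 3]), (4, [], [2])]),
  (1920, 0, 0, [(0, [0], [0, 4]), (0, [1], [2, 3]), (4, [], [1])]),
  (1920, 0, 0, [(0, [0], [1, 2]), (0, [1], [0, 3]), (4, [], [4])]),
  (1920, 0, 0, [(0, [0], [1, 2]), (0, [1], [0, 4]), (4, [], [3])]),
  (1920, 0, 0, [(0, [0], [1, 2]), (0, [1], [3, 4]), (4, [], [0])]),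
  (1920, 0, 0, [(0, [0], [1, 3]), (0, [1], [0, 2]), (4, [], [4])]),
  (1920, 0, 0, [(0, [0], [1, 3]), (0, [1], [0, 4]), (4, [], [2])]),
  (1920, 0, 0, [(0, [0], [1, 3]), (0, [1], [2, 4]), (4, [], [0])]),
  (1920, 0, 0, [(0, [0], [1, 4]), (0, [1], [0, 2]), (4, [], [3])]),
  (1920, 0, 0, [(0, [0], [1, 4]), (0, [1], [0, 3]), (4, [], [2])]),
  (1920, 0, 0, [(0, [0], [1, 4]), (0, [1], [2, 3]), (4, [], [0])]),
  (1920, 0, 0, [(0, [0], [2, 3]), (0, [1], [0, 1]), (4, [], [4])]),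
  (1920, 0, 0, [(0, [0], [2, 3]), (0, [1], [0, 4]), (4, [], [1])]),
  (1920, 0, 0, [(0, [0], [2, 3]), (0, [1], [1, 4]), (4, [], [0])]),
  (1920, 0, 0, [(0, [0], [2, 4]), (0, [1], [0, 1]), (4, [], [3])]),
  (1920, 0, 0, [(0, [0], [2, 4]), (0, [1], [0, 3]), (4, [], [1])]),
  (1920, 0, 0, [(0, [0], [2, 4]), (0, [1], [1, 3]), (4, [], [0])]),
  (1920, 0, 0, [(0, [0], [3, 4]), (0, [1], [0, 1]), (4, [], [2])]),
  (1920, 0, 0, [(0, [0], [3, 4]), (0, [1], [0, 2]), (4, [], [1])]),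
  (1920, 0, 0, [(0, [0], [3, 4]), (0, [1], [1, 2]), (4, [], [0])])]

def z90_0 : Cov := []

def w90_0 : List (List Wit) := [[(0, 0, 0, 0, 0), (1, 0, 0, 0, 0), (0, 0, 0, 0, 0), (2, 0, 0, 0, 0), (1, 0, 0, 0, 0), (2, 0, 0, 0, 0), (3, 0, 0, 0, 0), (4, 0, 0, 0, 0), (3, 0, 0, 0, 0), (5, 0, 0, 0, 0), (4, 0, 0, 0, 0), (5, 0, 0, 0, 0), (6, 0, 0, 0, 0), (7, 0, 0, 0, 0), (6, 0, 0, 0, 0), (8, 0, 0, 0, 0), (7, 0, 0, 0, 0), (8, 0, 0, 0, 0), (9, 0, 0, 0, 0), (10, 0, 0, 0, 0), (9, 0, 0, 0, 0), (11, 0, 0, 0, 0), (10, 0, 0, 0, 0), (11, 0, 0, 0, 0), (0, 0, 0, 0, 0), (1, 0, 0, 0, 0), (0, 0, 0, 0, 0), (2, 0, 0, 0, 0), (1, 0, 0, 0, 0), (2, 0, 0, 0, 0), (12, 0, 0, 0, 0), (13, 0, 0, 0, 0), (12, 0, 0, 0, 0), (14, 0, 0, 0, 0), (13, 0, 0, 0, 0), (14, 0, 0, 0, 0), (15, 0, 0, 0, 0), (16, 0, 0, 0, 0), (15, 0, 0, 0, 0), (17, 0, 0, 0, 0), (16, 0, 0,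 0, 0), (17, 0, 0, 0, 0), (18, 0, 0, 0, 0), (19, 0, 0, 0, 0), (18, 0, 0, 0, 0), (20, 0, 0, 0, 0), (19, 0, 0, 0, 0), (20, 0, 0, 0, 0), (3, 0, 0, 0, 0), (4, 0, 0, 0, 0), (3, 0, 0, 0, 0), (5, 0, 0, 0, 0), (4, 0, 0, 0, 0), (5, 0, 0, 0, 0), (12, 0, 0, 0, 0), (13, 0, 0, 0, 0), (12, 0, 0, 0, 0), (14, 0, 0, 0, 0), (13, 0, 0, 0, 0), (14, 0, 0, 0, 0), (21, 0, 0, 0, 0), (22, 0, 0, 0, 0), (21, 0, 0, 0, 0), (23, 0, 0, 0, 0), (22, 0, 0, 0, 0), (23, 0, 0, 0, 0), (24, 0, 0, 0, 0), (25, 0, 0, 0, 0), (24, 0, 0, 0, 0), (26, 0, 0, 0, 0), (25, 0, 0, 0, 0), (26, 0, 0, 0, 0), (6, 0, 0, 0, 0), (7, 0, 0, 0, 0), (6, 0, 0, 0, 0), (8, 0, 0, 0, 0), (7, 0, 0, 0, 0), (8, 0, 0, 0, 0), (15, 0, 0, 0, 0), (16, 0, 0, 0, 0), (15, 0, 0, 0, 0), (17, 0, 0, 0, 0), (16, 0, 0, 0, 0), (17, 0, 0, 0, 0), (21, 0, 0, 0, 0), (22, 0, 0, 0, 0), (21, 0, 0, 0, 0), (23,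 0, 0, 0, 0), (22, 0, 0, 0, 0), (23, 0, 0, 0, 0), (27, 0, 0, 0, 0), (28, 0, 0, 0, 0), (27, 0, 0, 0, 0), (29, 0, 0, 0, 0), (28, 0, 0, 0, 0), (29, 0, 0, 0, 0), (9, 0, 0, 0, 0), (10, 0, 0, 0, 0), (9, 0, 0, 0, 0), (11, 0, 0, 0, 0), (10, 0, 0, 0, 0), (11, 0, 0, 0, 0), (18, 0, 0, 0, 0), (19, 0, 0, 0, 0), (18, 0, 0, 0, 0), (20, 0, 0, 0, 0), (19, 0, 0, 0, 0), (20, 0, 0, 0, 0), (24, 0, 0, 0, 0), (25, 0, 0, 0, 0), (24, 0, 0, 0, 0), (26, 0, 0, 0, 0), (25, 0, 0, 0, 0), (26, 0, 0, 0, 0), (27, 0, 0, 0, 0), (28, 0, 0, 0, 0), (27, 0, 0, 0, 0), (29, 0, 0, 0, 0), (28, 0, 0, 0, 0), (29, 0, 0, 0, 0)],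
  [(21, 0, 0, 0, 0), (24, 0, 0, 0, 0), (21, 0, 0, 0, 0), (27, 0, 0, 0, 0), (24, 0, 0, 0, 0), (27, 0, 0, 0, 0), (15, 0, 0, 0, 0), (18, 0, 0, 0, 0), (15, 0, 0, 0, 0), (28, 0, 0, 0, 0), (18, 0, 0, 0, 0), (28, 0, 0, 0, 0), (12, 0, 0, 0, 0), (19, 0, 0, 0, 0), (12, 0, 0, 0, 0), (25, 0, 0, 0, 0), (19, 0, 0, 0, 0), (25, 0, 0, 0, 0), (13, 0, 0, 0, 0), (16, 0, 0, 0, 0), (13, 0, 0, 0, 0), (22, 0, 0, 0, 0), (16, 0, 0, 0, 0), (22, 0, 0, 0, 0), (21, 0, 0, 0, 0), (24, 0, 0, 0, 0), (21, 0, 0, 0, 0), (27, 0, 0, 0, 0), (24, 0, 0, 0, 0), (27, 0, 0, 0, 0), (6, 0, 0, 0, 0), (9, 0, 0, 0, 0), (6, 0, 0, 0, 0), (29, 0, 0, 0, 0), (9, 0, 0, 0, 0), (29, 0, 0, 0, 0), (3, 0, 0, 0, 0), (10, 0, 0, 0, 0), (3, 0, 0, 0, 0), (26, 0, 0, 0, 0), (10, 0, 0, 0, 0), (26, 0, 0, 0, 0), (4, 0, 0, 0, 0), (7, 0, 0, 0, 0), (4, 0, 0, 0, 0), (23, 0, 0, 0, 0), (7, 0,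 0, 0, 0), (23, 0, 0, 0, 0), (15, 0, 0, 0, 0), (18, 0, 0, 0, 0), (15, 0, 0, 0, 0), (28, 0, 0, 0, 0), (18, 0, 0, 0, 0), (28, 0, 0, 0, 0), (6, 0, 0, 0, 0), (9, 0, 0, 0, 0), (6, 0, 0, 0, 0), (29, 0, 0, 0, 0), (9, 0, 0, 0, 0), (29, 0, 0, 0, 0), (0, 0, 0, 0, 0), (11, 0, 0, 0, 0), (0, 0, 0, 0, 0), (20, 0, 0, 0, 0), (11, 0, 0, 0, 0), (20, 0, 0, 0, 0), (1, 0, 0, 0, 0), (8, 0, 0, 0, 0), (1, 0, 0, 0, 0), (17, 0, 0, 0, 0), (8, 0, 0, 0, 0), (17, 0, 0, 0, 0), (12, 0, 0, 0, 0), (19, 0, 0, 0, 0), (12, 0, 0, 0, 0), (25, 0, 0, 0, 0), (19, 0, 0, 0, 0), (25, 0, 0, 0, 0), (3, 0, 0, 0, 0), (10, 0, 0, 0, 0), (3, 0, 0, 0, 0), (26, 0, 0, 0, 0), (10, 0, 0, 0, 0), (26, 0, 0, 0, 0), (0, 0, 0, 0, 0), (11, 0, 0, 0, 0), (0, 0, 0, 0, 0), (20, 0, 0, 0, 0), (11, 0, 0, 0, 0), (20, 0, 0, 0, 0), (2, 0, 0, 0, 0), (5, 0, 0, 0, 0), (2, 0, 0, 0, 0), (14, 0,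 0, 0, 0), (5, 0, 0, 0, 0), (14, 0, 0, 0, 0), (13, 0, 0, 0, 0), (16, 0, 0, 0, 0), (13, 0, 0, 0, 0), (22, 0, 0, 0, 0), (16, 0, 0, 0, 0), (22, 0, 0, 0, 0), (4, 0, 0, 0, 0), (7, 0, 0, 0, 0), (4, 0, 0, 0, 0), (23, 0, 0, 0, 0), (7, 0, 0, 0, 0), (23, 0, 0, 0, 0), (1, 0, 0, 0, 0), (8, 0, 0, 0, 0), (1, 0, 0, 0, 0), (17, 0, 0, 0, 0), (8, 0, 0, 0, 0), (17, 0, 0, 0, 0), (2, 0, 0, 0, 0), (5, 0, 0, 0, 0), (2, 0, 0, 0, 0), (14, 0, 0, 0, 0), (5, 0, 0, 0, 0), (14, 0, 0, 0, 0)]]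

theorem tr90 : trK keys lk90 kl90 = true := by
  decide +kernel

theorem x90_0 : expB 2 5 dg11 dg4 m90_0 (l90_0 ++ z90_0) w90_0 = true := by
  decide +kernel

theorem t90_0_0 : chkS lk90 2 5 [(1, m90_0)] l90_0
  [(3, 16, 16, 274960, 274960), (0, 16, 16, 274960, 274960), (0, 16, 16, 271120, 271120), (5, 16, 16, 274960, 274960), (4, 1, 1, 200740, 16690), (2, 1, 1, 266290, 266290), (5, 16, 16, 271120, 271120), (4, 1, 1, 196900, 16675), (2, 1, 1, 262450, 266275), (2, 16, 16, 274945, 274945), (2, 16, 16, 271105, 271105), (0, 1, 1, 266290, 266290), (5, 16, 16, 274945, 274945), (4, 1, 1, 200770, 81970), (2, 1, 1, 266275, 262450), (5, 16, 16, 271105, 271105), (4, 1, 1, 196930, 81955), (2, 1, 1, 262435, 262435), (2, 16, 16, 274960, 274960), (2, 16, 16, 271120, 271120), (0, 1, 1, 266275, 262450), (6, 16, 16, 274960, 274960),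 (1, 16, 16, 148240, 205840), (1, 16, 16, 148225, 205825), (1, 1, 1, 135235, 66610), (4, 16, 16, 213520, 213520), (4, 16, 16, 213505, 213505), (1, 1, 1, 131395, 66595), (4, 16, 16, 205840, 148240), (4, 16, 16, 205825, 148225)]
  [(0, 7680), (1, 7680), (2, 15360), (3, 1920), (4, 15360), (5, 7680), (6, 1920)] = true := by
  decide +kernel

section

variable {κ ι : Type*} [Fintype κ] [Fintype ι] [Inhabited κ] [Inhabited ι]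

noncomputable def F90_0 (E : Env κ ι) : (Fin 2 → κ) → (Fin 5 → ι) → ℝ := op2 (P11 κ) (P4 ι) (fB E 2 5 m90_0)

def r90_0_0 : List (ℕ × ℤ) := [(0, 7680), (1, 7680), (2, 15360), (3, 1920), (4, 15360), (5, 7680), (6, 1920)]

theorem h90_0_0 (E : Env κ ι) : ip (F90_0 E) (F90_0 E) = dotS (ek E lk90) r90_0_0 :=
  op_entryZ E lk90 2 5 _ _ _ _ (pg11 κ) (pg4 ι) m90_0 m90_0 l90_0 z90_0 w90_0 x90_0 (by decide) _ (chkS_sound E lk90 2 5 _ _ _ _ t90_0_0)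

theorem row90_0 (E : Env κ ι) : RowG (ek E lk90) (F90_0 E) [F90_0 E] [r90_0_0] :=
  rowG_cons _ _ _ _ _ _ (h90_0_0 E) (rowG_nil _ _)

def tab90 : List (List (List (ℕ × ℤ))) := [[r90_0_0]]

theorem tri90 (E : Env κ ι) : TriG (ek E lk90) [F90_0 E] tab90 := by
  refine triG_cons _ _ _ _ _ (row90_0 E) ?_
  exact triG_nil _

end

def lk91 : List Key := [
  (2, 5, [(0, [0], [0, 1]), (0, [0], [0, 1]), (0, [1], [2, 3]), (0, [1], [2, 4]), (4, [], [4]), (4, [], [3])]),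
  (2, 5, [(0, [0], [0, 1]), (0, [1], [0, 2]), (0, [1], [3, 4]), (0, [0], [3, 4]), (4, [], [2]), (4, [], [1])]),
  (2, 5, [(0, [0], [0, 1]), (0, [1], [0, 2]), (0, [1], [2, 3]), (0, [0], [1, 4]), (4, [], [4]), (4, [], [3])]),
  (2, 5, [(0, [0], [0, 1]), (0, [0], [0, 1]), (0, [1], [2, 3]), (0, [1], [2, 3]), (4, [], [4]), (4, [], [4])]),
  (2, 5, [(0, [0], [0, 1]), (0, [0], [2, 3]), (0, [1], [2, 4]), (0, [1], [0, 4]), (4, [], [3]), (4, [], [1])]),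
  (2, 5, [(0, [0], [0, 1]), (0, [0], [2, 0]), (0, [1], [3, 1]), (4, [], [4]), (0, [1], [2, 3]), (4, [], [4])]),
  (2, 5, [(0, [0], [0, 1]), (0, [0], [2, 3]), (0, [1], [0, 1]), (4, [], [4]), (0, [1], [2, 3]), (4, [], [4])])]

def kl91 : List ℕ := [5, 6, 33, 91, 93, 247, 280]

def m91_0 : Base := (0, 0, [(0, [0], [0, 1]), (0, [1], [2, 3]), (4, [], [4])])

def l91_0 : Cov := [(480, 0, 0, [(0, [0], [0, 1]), (0, [1], [2, 3]), (4, [], [4])]),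
  (480, 0, 0, [(0, [0], [0, 2]), (0, [1], [1, 3]), (4, [], [4])]),
  (480, 0, 0, [(0, [0], [0, 3]), (0, [1], [1, 2]), (4, [], [4])]),
  (480, 0, 0, [(0, [0], [1, 2]), (0, [1], [0, 3]), (4, [], [4])]),
  (-480, 0, 0, [(0, [0], [1, 2]), (0, [1], [3, 4]), (4, [], [0])]),
  (480, 0, 0, [(0, [0], [1, 3]), (0, [1], [0, 2]), (4, [], [4])]),
  (-480, 0, 0, [(0, [0], [1, 3]), (0, [1], [2, 4]), (4, [], [0])]),
  (-480, 0, 0, [(0, [0], [1, 4]), (0, [1], [2, 3]), (4, [], [0])]),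
  (480, 0, 0, [(0, [0], [2, 3]), (0, [1], [0, 1]), (4, [], [4])]),
  (-480, 0, 0, [(0, [0], [2, 3]), (0, [1], [1, 4]), (4, [], [0])]),
  (-480, 0, 0, [(0, [0], [2, 4]), (0, [1], [1, 3]), (4, [], [0])]),
  (-480, 0, 0, [(0, [0], [3, 4]), (0, [1], [1, 2]), (4, [], [0])])]

def z91_0 : Cov := [(0, 0, 0, [(0, [0], [0, 1]), (0, [1], [2, 4]), (4, [], [3])]),
  (0, 0, 0, [(0, [0], [0, 1]), (0, [1], [3, 4]), (4, [], [2])]),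
  (0, 0, 0, [(0, [0], [0, 2]), (0, [1], [1, 4]), (4, [], [3])]),
  (0, 0, 0, [(0, [0], [0, 2]), (0, [1], [3, 4]), (4, [], [1])]),
  (0, 0, 0, [(0, [0], [0, 3]), (0, [1], [1, 4]), (4, [], [2])]),
  (0, 0, 0, [(0, [0], [0, 3]), (0, [1], [2, 4]), (4, [], [1])]),
  (0, 0, 0, [(0, [0], [0, 4]), (0, [1], [1, 2]), (4, [], [3])]),
  (0, 0, 0, [(0, [0], [0, 4]), (0, [1], [1, 3]), (4, [], [2])]),
  (0, 0, 0, [(0, [0], [0, 4]), (0, [1], [2, 3]), (4, [], [1])]),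
  (0, 0, 0, [(0, [0], [4, 1]), (0, [1], [0, 2]), (4, [], [3])]),
  (0, 0, 0, [(0, [0], [4, 1]), (0, [1], [0, 3]), (4, [], [2])]),
  (0, 0, 0, [(0, [0], [4, 2]), (0, [1], [0, 1]), (4, [], [3])]),
  (0, 0, 0, [(0, [0], [4, 2]), (0, [1], [0, 3]), (4, [], [1])]),
  (0, 0, 0, [(0, [0], [4, 3]), (0, [1], [0, 1]), (4, [], [2])]),
  (0, 0, 0, [(0, [0], [4, 3]), (0, [1], [0, 2]), (4, [], [1])]),
  (0, 0, 0, [(0, [1], [0, 4]), (0, [0], [1, 2]), (4, [], [3])]),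
  (0, 0, 0, [(0, [1], [0, 4]), (0, [0], [1, 3]), (4, [], [2])]),
  (0, 0, 0, [(0, [1], [0, 4]), (0, [0], [2, 3]), (4, [], [1])])]

def w91_0 : List (List Wit) := [[(0, 0, 0, 0, 0), (12, 0, 0, 0, 0), (0, 0, 0, 0, 0), (13, 0, 0, 0, 0), (12, 0, 0, 0, 0), (13, 0, 0, 0, 0), (1, 0, 0, 0, 0), (14, 0, 0, 0, 0), (1, 0, 0, 0, 0), (15, 0, 0, 0, 0), (14, 0, 0, 0, 0), (15, 0, 0, 0, 0), (2, 0, 0, 0, 0), (16, 0, 0, 0, 0), (2, 0, 0, 0, 0), (17, 0, 0, 0, 0), (16, 0, 0, 0, 0), (17, 0, 0, 0, 0), (18, 0, 0, 0, 0), (19, 0, 0, 0, 0), (18, 0, 0, 0, 0), (20, 0, 0, 0, 0), (19, 0, 0, 0, 0), (20, 0, 0, 0, 0), (0, 0, 0, 0, 0), (0, 0, 0, 0, 0), (3, 0, 0, 0, 0), (3, 0, 0, 0, 0), (4, 0, 0, 0, 0), (4, 0, 0, 0, 0), (5, 0, 0, 0, 0), (5, 0, 0, 0, 0), (6, 0, 0, 0, 0), (6, 0, 0, 0, 0), (7, 0, 0, 0, 0), (7, 0, 0, 0, 0), (1, 0, 0, 0, 0), (1, 0, 0, 0, 0),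 (3, 0, 0, 0, 0), (3, 0, 0, 0, 0), (4, 0, 0, 0, 0), (4, 0, 0, 0, 0), (8, 0, 0, 0, 0), (8, 0, 0, 0, 0), (9, 0, 0, 0, 0), (9, 0, 0, 0, 0), (10, 0, 0, 0, 0), (10, 0, 0, 0, 0), (2, 0, 0, 0, 0), (2, 0, 0, 0, 0), (5, 0, 0, 0, 0), (5, 0, 0, 0, 0), (6, 0, 0, 0, 0), (6, 0, 0, 0, 0), (8, 0, 0, 0, 0), (8, 0, 0, 0, 0), (9, 0, 0, 0, 0), (9, 0, 0, 0, 0), (11, 0, 0, 0, 0), (11, 0, 0, 0, 0), (18, 0, 0, 0, 0), (19, 0, 0, 0, 0), (18, 0, 0, 0, 0), (20, 0, 0, 0, 0), (19, 0, 0, 0, 0), (20, 0, 0, 0, 0), (21, 0, 0, 0, 0), (22, 0, 0, 0, 0), (21, 0, 0, 0, 0), (7, 0, 0, 0, 0), (22, 0, 0, 0, 0), (7, 0, 0, 0, 0), (23, 0, 0, 0, 0), (24, 0, 0, 0, 0), (23, 0, 0, 0, 0), (10, 0, 0, 0, 0), (24, 0, 0, 0, 0), (10, 0, 0, 0, 0), (25, 0, 0, 0, 0), (26, 0, 0, 0, 0), (25, 0, 0, 0, 0), (11, 0, 0, 0, 0), (26, 0, 0, 0, 0), (11, 0, 0, 0, 0)],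
  [(8, 0, 0, 0, 0), (23, 0, 0, 0, 0), (8, 0, 0, 0, 0), (25, 0, 0, 0, 0), (23, 0, 0, 0, 0), (25, 0, 0, 0, 0), (5, 0, 0, 0, 0), (21, 0, 0, 0, 0), (5, 0, 0, 0, 0), (26, 0, 0, 0, 0), (21, 0, 0, 0, 0), (26, 0, 0, 0, 0), (3, 0, 0, 0, 0), (22, 0, 0, 0, 0), (3, 0, 0, 0, 0), (24, 0, 0, 0, 0), (22, 0, 0, 0, 0), (24, 0, 0, 0, 0), (27, 0, 0, 0, 0), (28, 0, 0, 0, 0), (27, 0, 0, 0, 0), (29, 0, 0, 0, 0), (28, 0, 0, 0, 0), (29, 0, 0, 0, 0), (8, 0, 0, 0, 0), (8, 0, 0, 0, 0), (2, 0, 0, 0, 0), (2, 0, 0, 0, 0), (11, 0, 0, 0, 0), (11, 0, 0, 0, 0), (1, 0, 0, 0, 0), (1, 0, 0, 0, 0), (10, 0, 0, 0, 0), (10, 0, 0, 0, 0), (9, 0, 0, 0, 0), (9, 0, 0, 0, 0), (5, 0, 0, 0, 0), (5, 0, 0, 0, 0), (2, 0, 0, 0, 0), (2, 0, 0, 0, 0), (11, 0, 0, 0, 0), (11, 0, 0, 0, 0), (0, 0, 0, 0, 0), (0, 0, 0, 0, 0), (7, 0, 0, 0, 0), (7, 0, 0, 0, 0), (6, 0, 0, 0, 0), (6,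 0, 0, 0, 0), (3, 0, 0, 0, 0), (3, 0, 0, 0, 0), (1, 0, 0, 0, 0), (1, 0, 0, 0, 0), (10, 0, 0, 0, 0), (10, 0, 0, 0, 0), (0, 0, 0, 0, 0), (0, 0, 0, 0, 0), (7, 0, 0, 0, 0), (7, 0, 0, 0, 0), (4, 0, 0, 0, 0), (4, 0, 0, 0, 0), (27, 0, 0, 0, 0), (28, 0, 0, 0, 0), (27, 0, 0, 0, 0), (29, 0, 0, 0, 0), (28, 0, 0, 0, 0), (29, 0, 0, 0, 0), (14, 0, 0, 0, 0), (16, 0, 0, 0, 0), (14, 0, 0, 0, 0), (9, 0, 0, 0, 0), (16, 0, 0, 0, 0), (9, 0, 0, 0, 0), (12, 0, 0, 0, 0), (17, 0, 0, 0, 0), (12, 0, 0, 0, 0), (6, 0, 0, 0, 0), (17, 0, 0, 0, 0), (6, 0, 0, 0, 0), (13, 0, 0, 0, 0), (15, 0, 0, 0, 0), (13, 0, 0, 0, 0), (4, 0, 0, 0, 0), (15, 0, 0, 0, 0), (4, 0, 0, 0, 0)]]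

theorem tr91 : trK keys lk91 kl91 = true := by
  decide +kernel

theorem x91_0 : expB 2 5 dg11 dg5 m91_0 (l91_0 ++ z91_0) w91_0 = true := by
  decide +kernel

theorem t91_0_0 : chkS lk91 2 5 [(1, m91_0)] l91_0
  [(3, 16, 16, 274960, 274960), (5, 16, 16, 274960, 274960), (5, 16, 16, 271120, 271120), (5, 16, 16, 274945, 274945), (2, 1, 1, 266275, 262450), (5, 16, 16, 271105, 271105), (2, 1, 1, 262435, 262435), (0, 1, 1, 266275, 262450), (6, 16, 16, 274960, 274960), (1, 16, 16, 148225, 205825), (4, 16, 16, 213505, 213505), (4, 16, 16, 205825, 148225)]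
  [(0, -480), (1, -480), (2, -960), (3, 480), (4, -960), (5, 1920), (6, 480)] = true := by
  decide +kernel

section

variable {κ ι : Type*} [Fintype κ] [Fintype ι] [Inhabited κ] [Inhabited ι]

noncomputable def F91_0 (E : Env κ ι) : (Fin 2 → κ) → (Fin 5 → ι) → ℝ := op2 (P11 κ) (P5 ι) (fB E 2 5 m91_0)

def r91_0_0 : List (ℕ × ℤ) := [(0, -480), (1, -480), (2, -960), (3, 480), (4, -960), (5, 1920), (6, 480)]

theorem h91_0_0 (E : Env κ ι) : ip (F91_0 E) (F91_0 E) = dotS (ek E lk91) r91_0_0 :=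
  op_entryZ E lk91 2 5 _ _ _ _ (pg11 κ) (pg5 ι) m91_0 m91_0 l91_0 z91_0 w91_0 x91_0 (by decide) _ (chkS_sound E lk91 2 5 _ _ _ _ t91_0_0)

theorem row91_0 (E : Env κ ι) : RowG (ek E lk91) (F91_0 E) [F91_0 E] [r91_0_0] :=
  rowG_cons _ _ _ _ _ _ (h91_0_0 E) (rowG_nil _ _)

def tab91 : List (List (List (ℕ × ℤ))) := [[r91_0_0]]

theorem tri91 (E : Env κ ι) : TriG (ek E lk91) [F91_0 E] tab91 := by
  refine triG_cons _ _ _ _ _ (row91_0 E) ?_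
  exact triG_nil _

end

def lk92 : List Key := [
  (2, 5, [(0, [0], [0, 1]), (0, [0], [0, 1]), (0, [1], [2, 3]), (0, [1], [2, 4]), (4, [], [4]), (4, [], [3])]),
  (2, 5, [(0, [0], [0, 1]), (0, [1], [0, 2]), (0, [1], [3, 4]), (0, [0], [3, 4]), (4, [], [2]), (4, [], [1])]),
  (2, 5, [(0, [0], [0, 1]), (0, [1], [0, 2]), (0, [1], [2, 3]), (0, [0], [1, 4]), (4, [], [4]), (4, [], [3])]),
  (2, 5, [(0, [0], [0, 1]), (0, [0], [0, 1]), (0, [1], [2, 3]), (0, [1], [2, 3]), (4, [], [4]), (4, [], [4])]),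
  (2, 5, [(0, [0], [0, 1]), (0, [0], [2, 3]), (0, [1], [2, 4]), (0, [1], [0, 4]), (4, [], [3]), (4, [], [1])]),
  (2, 5, [(0, [0], [0, 1]), (0, [0], [2, 0]), (0, [1], [3, 1]), (4, [], [4]), (0, [1], [2, 3]), (4, [], [4])]),
  (2, 5, [(0, [0], [0, 1]), (0, [0], [2, 3]), (0, [1], [0, 1]), (4, [], [4]), (0, [1], [2, 3]), (4, [], [4])])]

def kl92 : List ℕ := [5, 6, 33, 91, 93, 247, 280]

def m92_0 : Base := (0, 0, [(0, [0], [0, 1]), (0, [1], [2, 3]), (4, [], [4])])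

def l92_0 : Cov := [(96, 0, 0, [(0, [0], [0, 1]), (0, [1], [2, 3]), (4, [], [4])]),
  (192, 0, 0, [(0, [0], [0, 1]), (0, [1], [2, 4]), (4, [], [3])]),
  (192, 0, 0, [(0, [0], [0, 1]), (0, [1], [3, 4]), (4, [], [2])]),
  (96, 0, 0, [(0, [0], [0, 2]), (0, [1], [1, 3]), (4, [], [4])]),
  (192, 0, 0, [(0, [0], [0, 2]), (0, [1], [1, 4]), (4, [], [3])]),
  (192, 0, 0, [(0, [0], [0, 2]), (0, [1], [3, 4]), (4, [], [1])]),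
  (96, 0, 0, [(0, [0], [0, 3]), (0, [1], [1, 2]), (4, [], [4])]),
  (192, 0, 0, [(0, [0], [0, 3]), (0, [1], [1, 4]), (4, [], [2])]),
  (192, 0, 0, [(0, [0], [0, 3]), (0, [1], [2, 4]), (4, [], [1])]),
  (-96, 0, 0, [(0, [0], [1, 2]), (0, [1], [0, 3]), (4, [], [4])]),
  (96, 0, 0, [(0, [0], [1, 2]), (0, [1], [3, 4]), (4, [], [0])]),
  (-96, 0, 0, [(0, [0], [1, 3]), (0, [1], [0, 2]), (4, [], [4])]),
  (96, 0, 0, [(0, [0], [1, 3]), (0, [1], [2, 4]), (4, [], [0])]),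
  (-96, 0, 0, [(0, [0], [1, 4]), (0, [1], [2, 3]), (4, [], [0])]),
  (-96, 0, 0, [(0, [0], [2, 3]), (0, [1], [0, 1]), (4, [], [4])]),
  (96, 0, 0, [(0, [0], [2, 3]), (0, [1], [1, 4]), (4, [], [0])]),
  (-96, 0, 0, [(0, [0], [2, 4]), (0, [1], [1, 3]), (4, [], [0])]),
  (-96, 0, 0, [(0, [0], [3, 4]), (0, [1], [1, 2]), (4, [], [0])]),
  (-192, 0, 0, [(0, [0], [4, 1]), (0, [1], [0, 2]), (4, [], [3])]),
  (-192, 0, 0, [(0, [0], [4, 1]), (0, [1], [0, 3]), (4, [], [2])]),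
  (-192, 0, 0, [(0, [0], [4, 2]), (0, [1], [0, 1]), (4, [], [3])]),
  (-192, 0, 0, [(0, [0], [4, 2]), (0, [1], [0, 3]), (4, [], [1])]),
  (-192, 0, 0, [(0, [0], [4, 3]), (0, [1], [0, 1]), (4, [], [2])]),
  (-192, 0, 0, [(0, [0], [4, 3]), (0, [1], [0, 2]), (4, [], [1])])]

def z92_0 : Cov := [(0, 0, 0, [(0, [0], [0, 4]), (0, [1], [1, 2]), (4, [], [3])]),
  (0, 0, 0, [(0, [0], [0, 4]), (0, [1], [1, 3]), (4, [], [2])]),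
  (0, 0, 0, [(0, [0], [0, 4]), (0, [1], [2, 3]), (4, [], [1])]),
  (0, 0, 0, [(0, [1], [0, 4]), (0, [0], [1, 2]), (4, [], [3])]),
  (0, 0, 0, [(0, [1], [0, 4]), (0, [0], [1, 3]), (4, [], [2])]),
  (0, 0, 0, [(0, [1], [0, 4]), (0, [0], [2, 3]), (4, [], [1])])]

def w92_0 : List (List Wit) := [[(0, 0, 0, 0, 0), (1, 0, 0, 0, 0), (0, 0, 0, 0, 0), (2, 0, 0, 0, 0), (1, 0, 0, 0, 0), (2, 0, 0, 0, 0), (3, 0, 0, 0, 0), (4, 0, 0, 0, 0), (3, 0, 0, 0, 0), (5, 0, 0, 0, 0), (4, 0, 0, 0, 0), (5, 0, 0, 0, 0), (6, 0, 0, 0, 0), (7, 0, 0, 0, 0), (6, 0, 0, 0, 0), (8, 0, 0, 0, 0), (7, 0, 0, 0, 0), (8, 0, 0, 0, 0), (24, 0, 0, 0, 0), (25, 0, 0, 0, 0), (24, 0, 0, 0, 0), (26, 0, 0, 0, 0), (25, 0, 0, 0, 0), (26, 0, 0, 0, 0), (0, 0, 0, 0, 0), (0, 0, 0, 0, 0), (9, 0, 0, 0, 0), (9, 0, 0, 0, 0), (10, 0, 0, 0, 0), (10, 0, 0, 0, 0), (11, 0, 0, 0, 0),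 (11, 0, 0, 0, 0), (12, 0, 0, 0, 0), (12, 0, 0, 0, 0), (13, 0, 0, 0, 0), (13, 0, 0, 0, 0), (3, 0, 0, 0, 0), (3, 0, 0, 0, 0), (9, 0, 0, 0, 0), (9, 0, 0, 0, 0), (10, 0, 0, 0, 0), (10, 0, 0, 0, 0), (14, 0, 0, 0, 0), (14, 0, 0, 0, 0), (15, 0, 0, 0, 0), (15, 0, 0, 0, 0), (16, 0, 0, 0, 0), (16, 0, 0, 0, 0), (6, 0, 0, 0, 0), (6, 0, 0, 0, 0), (11, 0, 0, 0, 0), (11, 0, 0, 0, 0), (12, 0, 0, 0, 0), (12, 0, 0, 0, 0), (14, 0, 0, 0, 0), (14, 0, 0, 0, 0), (15, 0, 0, 0, 0), (15, 0, 0, 0, 0), (17, 0, 0, 0, 0), (17, 0, 0, 0, 0), (24, 0, 0, 0, 0), (25, 0, 0, 0, 0), (24, 0, 0, 0, 0), (26, 0, 0, 0, 0), (25, 0, 0, 0, 0), (26, 0, 0, 0, 0), (18, 0, 0, 0, 0), (19, 0, 0, 0, 0), (18, 0, 0, 0, 0), (13, 0, 0, 0, 0), (19, 0, 0, 0, 0), (13, 0, 0, 0, 0), (20, 0, 0, 0, 0), (21, 0, 0, 0, 0), (20, 0, 0, 0, 0), (16, 0, 0, 0, 0), (21, 0, 0, 0, 0), (16, 0,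 0, 0, 0), (22, 0, 0, 0, 0), (23, 0, 0, 0, 0), (22, 0, 0, 0, 0), (17, 0, 0, 0, 0), (23, 0, 0, 0, 0), (17, 0, 0, 0, 0)],
  [(14, 0, 0, 0, 0), (20, 0, 0, 0, 0), (14, 0, 0, 0, 0), (22, 0, 0, 0, 0), (20, 0, 0, 0, 0), (22, 0, 0, 0, 0), (11, 0, 0, 0, 0), (18, 0, 0, 0, 0), (11, 0, 0, 0, 0), (23, 0, 0, 0, 0), (18, 0, 0, 0, 0), (23, 0, 0, 0, 0), (9, 0, 0, 0, 0), (19, 0, 0, 0, 0), (9, 0, 0, 0, 0), (21, 0, 0, 0, 0), (19, 0, 0, 0, 0), (21, 0, 0, 0, 0), (27, 0, 0, 0, 0), (28, 0, 0, 0, 0), (27, 0, 0, 0, 0), (29, 0, 0, 0, 0), (28, 0, 0, 0, 0), (29, 0, 0, 0, 0), (14, 0, 0, 0, 0), (14, 0, 0, 0, 0), (6, 0, 0, 0, 0), (6, 0, 0, 0, 0), (17, 0, 0, 0, 0), (17, 0, 0, 0, 0), (3, 0, 0, 0, 0), (3, 0, 0, 0, 0), (16, 0, 0, 0, 0), (16, 0, 0, 0, 0), (15, 0, 0, 0, 0), (15, 0, 0, 0, 0), (11, 0, 0, 0, 0), (11, 0, 0, 0, 0), (6, 0, 0, 0, 0), (6, 0, 0, 0,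 0), (17, 0, 0, 0, 0), (17, 0, 0, 0, 0), (0, 0, 0, 0, 0), (0, 0, 0, 0, 0), (13, 0, 0, 0, 0), (13, 0, 0, 0, 0), (12, 0, 0, 0, 0), (12, 0, 0, 0, 0), (9, 0, 0, 0, 0), (9, 0, 0, 0, 0), (3, 0, 0, 0, 0), (3, 0, 0, 0, 0), (16, 0, 0, 0, 0), (16, 0, 0, 0, 0), (0, 0, 0, 0, 0), (0, 0, 0, 0, 0), (13, 0, 0, 0, 0), (13, 0, 0, 0, 0), (10, 0, 0, 0, 0), (10, 0, 0, 0, 0), (27, 0, 0, 0, 0), (28, 0, 0, 0, 0), (27, 0, 0, 0, 0), (29, 0, 0, 0, 0), (28, 0, 0, 0, 0), (29, 0, 0, 0, 0), (4, 0, 0, 0, 0), (7, 0, 0, 0, 0), (4, 0, 0, 0, 0), (15, 0, 0, 0, 0), (7, 0, 0, 0, 0), (15, 0, 0, 0, 0), (1, 0, 0, 0, 0), (8, 0, 0, 0, 0), (1, 0, 0, 0, 0), (12, 0, 0, 0, 0), (8, 0, 0, 0, 0), (12, 0, 0, 0, 0), (2, 0, 0, 0, 0), (5, 0, 0, 0, 0), (2, 0, 0, 0, 0), (10, 0, 0, 0, 0), (5, 0, 0, 0, 0), (10, 0, 0, 0, 0)]]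

theorem tr92 : trK keys lk92 kl92 = true := by
  decide +kernel

theorem x92_0 : expB 2 5 dg12 dg5 m92_0 (l92_0 ++ z92_0) w92_0 = true := by
  decide +kernel

theorem t92_0_0 : chkS lk92 2 5 [(1, m92_0)] l92_0
  [(3, 16, 16, 274960, 274960), (0, 16, 16, 274960, 274960), (0, 16, 16, 271120, 271120), (5, 16, 16, 274960, 274960), (4, 1, 1, 200740, 16690), (2, 1, 1, 266290, 266290), (5, 16, 16, 271120, 271120), (4, 1, 1, 196900, 16675), (2, 1, 1, 262450, 266275), (5, 16, 16, 274945, 274945), (2, 1, 1, 266275, 262450), (5, 16, 16, 271105, 271105), (2, 1, 1, 262435, 262435), (0, 1, 1, 266275, 262450), (6, 16, 16, 274960, 274960), (1, 16, 16, 148225, 205825), (4, 16, 16, 213505, 213505), (4, 16, 16, 205825, 148225), (2, 16, 16, 274960, 274960), (2, 16, 16, 271120, 271120), (1, 1, 1, 135235, 66610), (4, 16, 16, 213520, 213520),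 (1, 1, 1, 131395, 66595), (4, 16, 16, 205840, 148240)]
  [(0, 288), (1, -288), (2, 192), (3, 96), (4, -192), (6, -96)] = true := by
  decide +kernel

section

variable {κ ι : Type*} [Fintype κ] [Fintype ι] [Inhabited κ] [Inhabited ι]

noncomputable def F92_0 (E : Env κ ι) : (Fin 2 → κ) → (Fin 5 → ι) → ℝ := op2 (P12 κ) (P5 ι) (fB E 2 5 m92_0)

def r92_0_0 : List (ℕ × ℤ) := [(0, 288), (1, -288), (2, 192), (3, 96), (4, -192), (6, -96)]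

theorem h92_0_0 (E : Env κ ι) : ip (F92_0 E) (F92_0 E) = dotS (ek E lk92) r92_0_0 :=
  op_entryZ E lk92 2 5 _ _ _ _ (pg12 κ) (pg5 ι) m92_0 m92_0 l92_0 z92_0 w92_0 x92_0 (by decide) _ (chkS_sound E lk92 2 5 _ _ _ _ t92_0_0)

theorem row92_0 (E : Env κ ι) : RowG (ek E lk92) (F92_0 E) [F92_0 E] [r92_0_0] :=
  rowG_cons _ _ _ _ _ _ (h92_0_0 E) (rowG_nil _ _)

def tab92 : List (List (List (ℕ × ℤ))) := [[r92_0_0]]

theorem tri92 (E : Env κ ι) : TriG (ek E lk92) [F92_0 E] tab92 := by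
  refine triG_cons _ _ _ _ _ (row92_0 E) ?_
  exact triG_nil _

end

def lk93 : List Key := [
  (2, 5, [(0, [0], [0, 1]), (0, [0], [0, 1]), (0, [1], [2, 3]), (0, [1], [2, 4]), (4, [], [4]), (4, [], [3])]),
  (2, 5, [(0, [0], [0, 1]), (0, [1], [0, 2]), (0, [1], [3, 4]), (0, [0], [3, 4]), (4, [], [2]), (4, [], [1])]),
  (2, 5, [(0, [0], [0, 1]), (0, [1], [0, 2]), (0, [1], [2, 3]), (0, [0], [1, 4]), (4, [], [4]), (4, [], [3])]),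
  (2, 5, [(0, [0], [0, 1]), (0, [0], [0, 1]), (0, [1], [2, 3]), (0, [1], [2, 3]), (4, [], [4]), (4, [], [4])]),
  (2, 5, [(0, [0], [0, 1]), (0, [0], [2, 3]), (0, [1], [2, 4]), (0, [1], [0, 4]), (4, [], [3]), (4, [], [1])]),
  (2, 5, [(0, [0], [0, 1]), (0, [0], [2, 0]), (0, [1], [3, 1]), (4, [], [4]), (0, [1], [2, 3]), (4, [], [4])]),
  (2, 5, [(0, [0], [0, 1]), (0, [0], [2, 3]), (0, [1], [0, 1]), (4, [], [4]), (0, [1], [2, 3]), (4, [], [4])])]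

def kl93 : List ℕ := [5, 6, 33, 91, 93, 247, 280]

def m93_0 : Base := (0, 0, [(0, [0], [0, 1]), (0, [1], [2, 3]), (4, [], [4])])

def l93_0 : Cov := [(144, 0, 0, [(0, [0], [0, 1]), (0, [1], [2, 3]), (4, [], [4])]),
  (144, 0, 0, [(0, [0], [0, 1]), (0, [1], [2, 4]), (4, [], [3])]),
  (288, 0, 0, [(0, [0], [0, 1]), (0, [1], [3, 4]), (4, [], [2])]),
  (-144, 0, 0, [(0, [0], [0, 2]), (0, [1], [1, 3]), (4, [], [4])]),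
  (144, 0, 0, [(0, [0], [0, 2]), (0, [1], [3, 4]), (4, [], [1])]),
  (-144, 0, 0, [(0, [0], [0, 4]), (0, [1], [1, 2]), (4, [], [3])]),
  (-288, 0, 0, [(0, [0], [0, 4]), (0, [1], [1, 3]), (4, [], [2])]),
  (-144, 0, 0, [(0, [0], [0, 4]), (0, [1], [2, 3]), (4, [], [1])]),
  (-144, 0, 0, [(0, [0], [1, 2]), (0, [1], [0, 4]), (4, [], [3])]),
  (144, 0, 0, [(0, [0], [1, 2]), (0, [1], [3, 4]), (4, [], [0])]),
  (-144, 0, 0, [(0, [0], [1, 3]), (0, [1], [0, 2]), (4, [], [4])]),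
  (-288, 0, 0, [(0, [0], [1, 3]), (0, [1], [0, 4]), (4, [], [2])]),
  (-144, 0, 0, [(0, [0], [1, 3]), (0, [1], [2, 4]), (4, [], [0])]),
  (144, 0, 0, [(0, [0], [2, 3]), (0, [1], [0, 1]), (4, [], [4])]),
  (-144, 0, 0, [(0, [0], [2, 3]), (0, [1], [0, 4]), (4, [], [1])]),
  (144, 0, 0, [(0, [0], [2, 4]), (0, [1], [0, 1]), (4, [], [3])]),
  (-144, 0, 0, [(0, [0], [2, 4]), (0, [1], [1, 3]), (4, [], [0])]),
  (288, 0, 0, [(0, [0], [3, 4]), (0, [1], [0, 1]), (4, [], [2])]),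
  (144, 0, 0, [(0, [0], [3, 4]), (0, [1], [0, 2]), (4, [], [1])]),
  (144, 0, 0, [(0, [0], [3, 4]), (0, [1], [1, 2]), (4, [], [0])])]

def z93_0 : Cov := [(0, 0, 0, [(0, [0], [0, 2]), (0, [1], [1, 4]), (4, [], [3])]),
  (0, 0, 0, [(0, [0], [0, 3]), (0, [1], [1, 2]), (4, [], [4])]),
  (0, 0, 0, [(0, [0], [0, 3]), (0, [1], [1, 4]), (4, [], [2])]),
  (0, 0, 0, [(0, [0], [0, 3]), (0, [1], [2, 4]), (4, [], [1])]),
  (0, 0, 0, [(0, [0], [1, 2]), (0, [1], [0, 3]), (4, [], [4])]),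
  (0, 0, 0, [(0, [0], [1, 4]), (0, [1], [0, 2]), (4, [], [3])]),
  (0, 0, 0, [(0, [0], [1, 4]), (0, [1], [0, 3]), (4, [], [2])]),
  (0, 0, 0, [(0, [0], [1, 4]), (0, [1], [2, 3]), (4, [], [0])]),
  (0, 0, 0, [(0, [0], [2, 3]), (0, [1], [1, 4]), (4, [], [0])]),
  (0, 0, 0, [(0, [0], [2, 4]), (0, [1], [0, 3]), (4, [], [1])])]

def w93_0 : List (List Wit) := [[(0, 0, 0, 0, 0), (1, 0, 0, 0, 0), (0, 0, 0, 0, 0), (2, 0, 0, 0, 0), (1, 0, 0, 0, 0), (2, 0, 0, 0, 0), (3, 0, 0, 0, 0), (20, 0, 0, 0, 0), (3, 0, 0, 0, 0), (4, 0, 0, 0, 0), (20, 0, 0, 0, 0), (4, 0, 0, 0, 0), (21, 0, 0, 0, 0), (22, 0, 0, 0, 0), (21, 0, 0, 0, 0), (23, 0, 0, 0, 0), (22, 0, 0, 0, 0), (23, 0, 0, 0, 0), (5, 0, 0, 0, 0), (6, 0, 0, 0, 0), (5, 0, 0, 0, 0), (7, 0, 0, 0, 0), (6, 0, 0, 0, 0), (7, 0, 0, 0, 0), (0, 0, 0, 0, 0), (1, 0, 0, 0, 0), (0, 0, 0, 0, 0), (2,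 0, 0, 0, 0), (1, 0, 0, 0, 0), (2, 0, 0, 0, 0), (24, 0, 0, 0, 0), (8, 0, 0, 0, 0), (24, 0, 0, 0, 0), (9, 0, 0, 0, 0), (8, 0, 0, 0, 0), (9, 0, 0, 0, 0), (10, 0, 0, 0, 0), (11, 0, 0, 0, 0), (10, 0, 0, 0, 0), (12, 0, 0, 0, 0), (11, 0, 0, 0, 0), (12, 0, 0, 0, 0), (25, 0, 0, 0, 0), (26, 0, 0, 0, 0), (25, 0, 0, 0, 0), (27, 0, 0, 0, 0), (26, 0, 0, 0, 0), (27, 0, 0, 0, 0), (3, 0, 0, 0, 0), (20, 0, 0, 0, 0), (3, 0, 0, 0, 0), (4, 0, 0, 0, 0), (20, 0, 0, 0, 0), (4, 0, 0, 0, 0), (24, 0, 0, 0, 0), (8, 0, 0, 0, 0), (24, 0, 0, 0, 0), (9, 0, 0, 0, 0), (8, 0, 0, 0, 0), (9, 0, 0, 0, 0), (13, 0, 0, 0, 0), (14, 0, 0, 0, 0), (13, 0, 0, 0, 0), (28, 0, 0, 0, 0), (14, 0, 0, 0, 0), (28, 0, 0, 0, 0), (15, 0, 0, 0, 0), (29, 0, 0, 0, 0), (15, 0, 0, 0, 0), (16, 0, 0, 0, 0), (29, 0, 0, 0, 0), (16, 0, 0, 0, 0), (21, 0, 0, 0, 0), (22, 0, 0, 0, 0), (21,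 0, 0, 0, 0), (23, 0, 0, 0, 0), (22, 0, 0, 0, 0), (23, 0, 0, 0, 0), (10, 0, 0, 0, 0), (11, 0, 0, 0, 0), (10, 0, 0, 0, 0), (12, 0, 0, 0, 0), (11, 0, 0, 0, 0), (12, 0, 0, 0, 0), (13, 0, 0, 0, 0), (14, 0, 0, 0, 0), (13, 0, 0, 0, 0), (28, 0, 0, 0, 0), (14, 0, 0, 0, 0), (28, 0, 0, 0, 0), (17, 0, 0, 0, 0), (18, 0, 0, 0, 0), (17, 0, 0, 0, 0), (19, 0, 0, 0, 0), (18, 0, 0, 0, 0), (19, 0, 0, 0, 0), (5, 0, 0, 0, 0), (6, 0, 0, 0, 0), (5, 0, 0, 0, 0), (7, 0, 0, 0, 0), (6, 0, 0, 0, 0), (7, 0, 0, 0, 0), (25, 0, 0, 0, 0), (26, 0, 0, 0, 0), (25, 0, 0, 0, 0), (27, 0, 0, 0, 0), (26, 0, 0, 0, 0), (27, 0, 0, 0, 0), (15, 0, 0, 0, 0), (29, 0, 0, 0, 0), (15, 0, 0, 0, 0), (16, 0, 0, 0, 0), (29, 0, 0, 0, 0), (16, 0, 0, 0, 0), (17, 0, 0, 0, 0), (18, 0, 0, 0, 0), (17, 0, 0, 0, 0), (19, 0, 0, 0, 0), (18, 0, 0, 0, 0), (19, 0, 0, 0, 0)],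
  [(13, 0, 0, 0, 0), (15, 0, 0, 0, 0), (13, 0, 0, 0, 0), (17, 0, 0, 0, 0), (15, 0, 0, 0, 0), (17, 0, 0, 0, 0), (10, 0, 0, 0, 0), (25, 0, 0, 0, 0), (10, 0, 0, 0, 0), (18, 0, 0, 0, 0), (25, 0, 0, 0, 0), (18, 0, 0, 0, 0), (24, 0, 0, 0, 0), (26, 0, 0, 0, 0), (24, 0, 0, 0, 0), (29, 0, 0, 0, 0), (26, 0, 0, 0, 0), (29, 0, 0, 0, 0), (8, 0, 0, 0, 0), (11, 0, 0, 0, 0), (8, 0, 0, 0, 0), (14, 0, 0, 0, 0), (11, 0, 0, 0, 0), (14, 0, 0, 0, 0), (13, 0, 0, 0, 0), (15, 0, 0, 0, 0), (13, 0, 0, 0, 0), (17, 0, 0, 0, 0), (15, 0, 0, 0, 0), (17, 0, 0, 0, 0), (21, 0, 0, 0, 0), (5, 0, 0, 0, 0), (21, 0, 0, 0, 0), (19, 0, 0, 0, 0), (5, 0, 0, 0, 0), (19, 0, 0, 0, 0), (3, 0, 0, 0, 0), (6, 0, 0, 0, 0), (3, 0, 0, 0, 0), (16, 0, 0, 0, 0), (6, 0, 0, 0, 0), (16, 0, 0, 0, 0), (20, 0, 0, 0, 0), (22, 0, 0, 0, 0), (20, 0, 0, 0, 0), (28, 0, 0, 0, 0), (22,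 0, 0, 0, 0), (28, 0, 0, 0, 0), (10, 0, 0, 0, 0), (25, 0, 0, 0, 0), (10, 0, 0, 0, 0), (18, 0, 0, 0, 0), (25, 0, 0, 0, 0), (18, 0, 0, 0, 0), (21, 0, 0, 0, 0), (5, 0, 0, 0, 0), (21, 0, 0, 0, 0), (19, 0, 0, 0, 0), (5, 0, 0, 0, 0), (19, 0, 0, 0, 0), (0, 0, 0, 0, 0), (7, 0, 0, 0, 0), (0, 0, 0, 0, 0), (27, 0, 0, 0, 0), (7, 0, 0, 0, 0), (27, 0, 0, 0, 0), (1, 0, 0, 0, 0), (23, 0, 0, 0, 0), (1, 0, 0, 0, 0), (12, 0, 0, 0, 0), (23, 0, 0, 0, 0), (12, 0, 0, 0, 0), (24, 0, 0, 0, 0), (26, 0, 0, 0, 0), (24, 0, 0, 0, 0), (29, 0, 0, 0, 0), (26, 0, 0, 0, 0), (29, 0, 0, 0, 0), (3, 0, 0, 0, 0), (6, 0, 0, 0, 0), (3, 0, 0, 0, 0), (16, 0, 0, 0, 0), (6, 0, 0, 0, 0), (16, 0, 0, 0, 0), (0, 0, 0, 0, 0), (7, 0, 0, 0, 0), (0, 0, 0, 0, 0), (27, 0, 0, 0, 0), (7, 0, 0, 0, 0), (27, 0, 0, 0, 0), (2, 0, 0, 0, 0), (4, 0, 0, 0, 0), (2, 0, 0, 0, 0), (9, 0,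 0, 0, 0), (4, 0, 0, 0, 0), (9, 0, 0, 0, 0), (8, 0, 0, 0, 0), (11, 0, 0, 0, 0), (8, 0, 0, 0, 0), (14, 0, 0, 0, 0), (11, 0, 0, 0, 0), (14, 0, 0, 0, 0), (20, 0, 0, 0, 0), (22, 0, 0, 0, 0), (20, 0, 0, 0, 0), (28, 0, 0, 0, 0), (22, 0, 0, 0, 0), (28, 0, 0, 0, 0), (1, 0, 0, 0, 0), (23, 0, 0, 0, 0), (1, 0, 0, 0, 0), (12, 0, 0, 0, 0), (23, 0, 0, 0, 0), (12, 0, 0, 0, 0), (2, 0, 0, 0, 0), (4, 0, 0, 0, 0), (2, 0, 0, 0, 0), (9, 0, 0, 0, 0), (4, 0, 0, 0, 0), (9, 0, 0, 0, 0)]]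

theorem tr93 : trK keys lk93 kl93 = true := by
  decide +kernel

theorem x93_0 : expB 2 5 dg11 dg6 m93_0 (l93_0 ++ z93_0) w93_0 = true := by
  decide +kernel

theorem t93_0_0 : chkS lk93 2 5 [(1, m93_0)] l93_0
  [(3, 16, 16, 274960, 274960), (0, 16, 16, 274960, 274960), (0, 16, 16, 271120, 271120), (5, 16, 16, 274960, 274960), (2, 1, 1, 266290, 266290), (2, 16, 16, 274945, 274945), (2, 16, 16, 271105, 271105), (0, 1, 1, 266290, 266290), (4, 1, 1, 200770, 81970), (2, 1, 1, 266275, 262450), (5, 16, 16, 271105, 271105), (4, 1, 1, 196930, 81955), (2, 1, 1, 262435, 262435), (6, 16, 16, 274960, 274960), (1, 16, 16, 148240, 205840), (1, 1, 1, 135235, 66610), (4, 16, 16, 213505, 213505), (1, 1, 1, 131395, 66595), (4, 16, 16, 205840, 148240), (4, 16, 16, 205825, 148225)]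
  [(0, 288), (1, 288), (2, -288), (3, 144), (4, -288), (5, -288), (6, 144)] = true := by
  decide +kernel

section

variable {κ ι : Type*} [Fintype κ] [Fintype ι] [Inhabited κ] [Inhabited ι]

noncomputable def F93_0 (E : Env κ ι) : (Fin 2 → κ) → (Fin 5 → ι) → ℝ := op2 (P11 κ) (P6 ι) (fB E 2 5 m93_0)

def r93_0_0 : List (ℕ × ℤ) := [(0, 288), (1, 288), (2, -288), (3, 144), (4, -288), (5, -288), (6, 144)]

theorem h93_0_0 (E : Env κ ι) : ip (F93_0 E) (F93_0 E) = dotS (ek E lk93) r93_0_0 :=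
  op_entryZ E lk93 2 5 _ _ _ _ (pg11 κ) (pg6 ι) m93_0 m93_0 l93_0 z93_0 w93_0 x93_0 (by decide) _ (chkS_sound E lk93 2 5 _ _ _ _ t93_0_0)

theorem row93_0 (E : Env κ ι) : RowG (ek E lk93) (F93_0 E) [F93_0 E] [r93_0_0] :=
  rowG_cons _ _ _ _ _ _ (h93_0_0 E) (rowG_nil _ _)

def tab93 : List (List (List (ℕ × ℤ))) := [[r93_0_0]]

theorem tri93 (E : Env κ ι) : TriG (ek E lk93) [F93_0 E] tab93 := by
  refine triG_cons _ _ _ _ _ (row93_0 E) ?_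
  exact triG_nil _

end

def lk94 : List Key := [
  (2, 5, [(0, [0], [0, 1]), (0, [0], [0, 1]), (0, [1], [2, 3]), (0, [1], [2, 4]), (4, [], [4]), (4, [], [3])]),
  (2, 5, [(0, [0], [0, 1]), (0, [1], [0, 2]), (0, [1], [3, 4]), (0, [0], [3, 4]), (4, [], [2]), (4, [], [1])]),
  (2, 5, [(0, [0], [0, 1]), (0, [1], [0, 2]), (0, [1], [2, 3]), (0, [0], [1, 4]), (4, [], [4]), (4, [], [3])]),
  (2, 5, [(0, [0], [0, 1]), (0, [0], [0, 1]), (0, [1], [2, 3]), (0, [1], [2, 3]), (4, [], [4]), (4, [], [4])]),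
  (2, 5, [(0, [0], [0, 1]), (0, [0], [2, 3]), (0, [1], [2, 4]), (0, [1], [0, 4]), (4, [], [3]), (4, [], [1])]),
  (2, 5, [(0, [0], [0, 1]), (0, [0], [2, 0]), (0, [1], [3, 1]), (4, [], [4]), (0, [1], [2, 3]), (4, [], [4])]),
  (2, 5, [(0, [0], [0, 1]), (0, [0], [2, 3]), (0, [1], [0, 1]), (4, [], [4]), (0, [1], [2, 3]), (4, [], [4])])]

def kl94 : List ℕ := [5, 6, 33, 91, 93, 247, 280]

def m94_0 : Base := (0, 0, [(0, [0], [0, 1]), (0, [1], [2, 3]), (4, [], [4])])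

def l94_0 : Cov := [(288, 0, 0, [(0, [0], [0, 1]), (0, [1], [2, 3]), (4, [], [4])]),
  (288, 0, 0, [(0, [0], [0, 1]), (0, [1], [2, 4]), (4, [], [3])]),
  (288, 0, 0, [(0, [0], [0, 2]), (0, [1], [1, 3]), (4, [], [4])]),
  (-288, 0, 0, [(0, [0], [0, 2]), (0, [1], [3, 4]), (4, [], [1])]),
  (-288, 0, 0, [(0, [0], [0, 4]), (0, [1], [1, 2]), (4, [], [3])]),
  (-288, 0, 0, [(0, [0], [0, 4]), (0, [1], [2, 3]), (4, [], [1])]),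
  (288, 0, 0, [(0, [0], [1, 2]), (0, [1], [0, 4]), (4, [], [3])]),
  (-288, 0, 0, [(0, [0], [1, 2]), (0, [1], [3, 4]), (4, [], [0])]),
  (-288, 0, 0, [(0, [0], [1, 3]), (0, [1], [0, 2]), (4, [], [4])]),
  (-288, 0, 0, [(0, [0], [1, 3]), (0, [1], [2, 4]), (4, [], [0])]),
  (-288, 0, 0, [(0, [0], [2, 3]), (0, [1], [0, 1]), (4, [], [4])]),
  (288, 0, 0, [(0, [0], [2, 3]), (0, [1], [0, 4]), (4, [], [1])]),
  (-288, 0, 0, [(0, [0], [2, 4]), (0, [1], [0, 1]), (4, [], [3])]),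
  (288, 0, 0, [(0, [0], [2, 4]), (0, [1], [1, 3]), (4, [], [0])]),
  (288, 0, 0, [(0, [0], [3, 4]), (0, [1], [0, 2]), (4, [], [1])]),
  (288, 0, 0, [(0, [0], [3, 4]), (0, [1], [1, 2]), (4, [], [0])])]

def z94_0 : Cov := [(0, 0, 0, [(0, [0], [0, 1]), (0, [1], [3, 4]), (4, [], [2])]),
  (0, 0, 0, [(0, [0], [0, 2]), (0, [1], [1, 4]), (4, [], [3])]),
  (0, 0, 0, [(0, [0], [0, 3]), (0, [1], [1, 2]), (4, [], [4])]),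
  (0, 0, 0, [(0, [0], [0, 3]), (0, [1], [1, 4]), (4, [], [2])]),
  (0, 0, 0, [(0, [0], [0, 3]), (0, [1], [2, 4]), (4, [], [1])]),
  (0, 0, 0, [(0, [0], [0, 4]), (0, [1], [1, 3]), (4, [], [2])]),
  (0, 0, 0, [(0, [0], [1, 2]), (0, [1], [0, 3]), (4, [], [4])]),
  (0, 0, 0, [(0, [0], [1, 3]), (0, [1], [0, 4]), (4, [], [2])]),
  (0, 0, 0, [(0, [0], [1, 4]), (0, [1], [0, 2]), (4, [], [3])]),
  (0, 0, 0, [(0, [0], [1, 4]), (0, [1], [0, 3]), (4, [], [2])]),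
  (0, 0, 0, [(0, [0], [1, 4]), (0, [1], [2, 3]), (4, [], [0])]),
  (0, 0, 0, [(0, [0], [2, 3]), (0, [1], [1, 4]), (4, [], [0])]),
  (0, 0, 0, [(0, [0], [2, 4]), (0, [1], [0, 3]), (4, [], [1])]),
  (0, 0, 0, [(0, [0], [3, 4]), (0, [1], [0, 1]), (4, [], [2])])]

def w94_0 : List (List Wit) := [[(0, 0, 0, 0, 0), (1, 0, 0, 0, 0), (0, 0, 0, 0, 0), (16, 0, 0, 0, 0), (1, 0, 0, 0, 0), (16, 0, 0, 0, 0), (2, 0, 0, 0, 0), (17, 0, 0, 0, 0), (2, 0, 0, 0, 0), (3, 0, 0, 0, 0), (17, 0, 0, 0, 0), (3, 0, 0, 0, 0), (18, 0, 0, 0, 0), (19, 0, 0, 0, 0), (18, 0, 0, 0, 0), (20, 0, 0, 0, 0), (19, 0, 0, 0, 0), (20, 0, 0, 0, 0), (4, 0, 0, 0, 0), (21, 0, 0, 0, 0), (4, 0, 0, 0, 0), (5, 0, 0, 0, 0), (21, 0, 0, 0, 0), (5, 0, 0, 0, 0), (0, 0, 0, 0, 0), (1, 0, 0, 0, 0), (0, 0, 0, 0, 0), (16, 0, 0, 0, 0), (1, 0, 0, 0, 0), (16, 0, 0, 0, 0), (22, 0, 0,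 0, 0), (6, 0, 0, 0, 0), (22, 0, 0, 0, 0), (7, 0, 0, 0, 0), (6, 0, 0, 0, 0), (7, 0, 0, 0, 0), (8, 0, 0, 0, 0), (23, 0, 0, 0, 0), (8, 0, 0, 0, 0), (9, 0, 0, 0, 0), (23, 0, 0, 0, 0), (9, 0, 0, 0, 0), (24, 0, 0, 0, 0), (25, 0, 0, 0, 0), (24, 0, 0, 0, 0), (26, 0, 0, 0, 0), (25, 0, 0, 0, 0), (26, 0, 0, 0, 0), (2, 0, 0, 0, 0), (17, 0, 0, 0, 0), (2, 0, 0, 0, 0), (3, 0, 0, 0, 0), (17, 0, 0, 0, 0), (3, 0, 0, 0, 0), (22, 0, 0, 0, 0), (6, 0, 0, 0, 0), (22, 0, 0, 0, 0), (7, 0, 0, 0, 0), (6, 0, 0, 0, 0), (7, 0, 0, 0, 0), (10, 0, 0, 0, 0), (11, 0, 0, 0, 0), (10, 0, 0, 0, 0), (27, 0, 0, 0, 0), (11, 0, 0, 0, 0), (27, 0, 0, 0, 0), (12, 0, 0, 0, 0), (28, 0, 0, 0, 0), (12, 0, 0, 0, 0), (13, 0, 0, 0, 0), (28, 0, 0, 0, 0), (13, 0, 0, 0, 0), (18, 0, 0, 0, 0), (19, 0, 0, 0, 0), (18, 0, 0, 0, 0), (20, 0, 0, 0, 0), (19, 0, 0, 0, 0), (20, 0, 0,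 0, 0), (8, 0, 0, 0, 0), (23, 0, 0, 0, 0), (8, 0, 0, 0, 0), (9, 0, 0, 0, 0), (23, 0, 0, 0, 0), (9, 0, 0, 0, 0), (10, 0, 0, 0, 0), (11, 0, 0, 0, 0), (10, 0, 0, 0, 0), (27, 0, 0, 0, 0), (11, 0, 0, 0, 0), (27, 0, 0, 0, 0), (29, 0, 0, 0, 0), (14, 0, 0, 0, 0), (29, 0, 0, 0, 0), (15, 0, 0, 0, 0), (14, 0, 0, 0, 0), (15, 0, 0, 0, 0), (4, 0, 0, 0, 0), (21, 0, 0, 0, 0), (4, 0, 0, 0, 0), (5, 0, 0, 0, 0), (21, 0, 0, 0, 0), (5, 0, 0, 0, 0), (24, 0, 0, 0, 0), (25, 0, 0, 0, 0), (24, 0, 0, 0, 0), (26, 0, 0, 0, 0), (25, 0, 0, 0, 0), (26, 0, 0, 0, 0), (12, 0, 0, 0, 0), (28, 0, 0, 0, 0), (12, 0, 0, 0, 0), (13, 0, 0, 0, 0), (28, 0, 0, 0, 0), (13, 0, 0, 0, 0), (29, 0, 0, 0, 0), (14, 0, 0, 0, 0), (29, 0, 0, 0, 0), (15, 0, 0, 0, 0), (14, 0, 0, 0, 0), (15, 0, 0, 0, 0)],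
  [(10, 0, 0, 0, 0), (12, 0, 0, 0, 0), (10, 0, 0, 0, 0), (29, 0, 0, 0, 0), (12, 0, 0, 0, 0), (29, 0, 0, 0, 0), (8, 0, 0, 0, 0), (24, 0, 0, 0, 0), (8, 0, 0, 0, 0), (14, 0, 0, 0, 0), (24, 0, 0, 0, 0), (14, 0, 0, 0, 0), (22, 0, 0, 0, 0), (25, 0, 0, 0, 0), (22, 0, 0, 0, 0), (28, 0, 0, 0, 0), (25, 0, 0, 0, 0), (28, 0, 0, 0, 0), (6, 0, 0, 0, 0), (23, 0, 0, 0, 0), (6, 0, 0, 0, 0), (11, 0, 0, 0, 0), (23, 0, 0, 0, 0), (11, 0, 0, 0, 0), (10, 0, 0, 0, 0), (12, 0, 0, 0, 0), (10, 0, 0, 0, 0), (29, 0, 0, 0, 0), (12, 0, 0, 0, 0), (29, 0, 0, 0, 0), (18, 0, 0, 0, 0), (4, 0, 0, 0, 0), (18, 0, 0, 0, 0), (15, 0, 0, 0, 0), (4, 0, 0, 0, 0), (15, 0, 0, 0, 0), (2, 0, 0, 0, 0), (21, 0, 0, 0, 0), (2, 0, 0, 0, 0), (13, 0, 0, 0, 0), (21, 0, 0, 0, 0), (13, 0, 0, 0, 0), (17, 0, 0, 0, 0), (19, 0, 0, 0, 0), (17, 0, 0, 0, 0), (27, 0, 0, 0, 0), (19,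 0, 0, 0, 0), (27, 0, 0, 0, 0), (8, 0, 0, 0, 0), (24, 0, 0, 0, 0), (8, 0, 0, 0, 0), (14, 0, 0, 0, 0), (24, 0, 0, 0, 0), (14, 0, 0, 0, 0), (18, 0, 0, 0, 0), (4, 0, 0, 0, 0), (18, 0, 0, 0, 0), (15, 0, 0, 0, 0), (4, 0, 0, 0, 0), (15, 0, 0, 0, 0), (0, 0, 0, 0, 0), (5, 0, 0, 0, 0), (0, 0, 0, 0, 0), (26, 0, 0, 0, 0), (5, 0, 0, 0, 0), (26, 0, 0, 0, 0), (1, 0, 0, 0, 0), (20, 0, 0, 0, 0), (1, 0, 0, 0, 0), (9, 0, 0, 0, 0), (20, 0, 0, 0, 0), (9, 0, 0, 0, 0), (22, 0, 0, 0, 0), (25, 0, 0, 0, 0), (22, 0, 0, 0, 0), (28, 0, 0, 0, 0), (25, 0, 0, 0, 0), (28, 0, 0, 0, 0), (2, 0, 0, 0, 0), (21, 0, 0, 0, 0), (2, 0, 0, 0, 0), (13, 0, 0, 0, 0), (21, 0, 0, 0, 0), (13, 0, 0, 0, 0), (0, 0, 0, 0, 0), (5, 0, 0, 0, 0), (0, 0, 0, 0, 0), (26, 0, 0, 0, 0), (5, 0, 0, 0, 0), (26, 0, 0, 0, 0), (16, 0, 0, 0, 0), (3, 0, 0, 0, 0), (16, 0, 0, 0, 0), (7, 0,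 0, 0, 0), (3, 0, 0, 0, 0), (7, 0, 0, 0, 0), (6, 0, 0, 0, 0), (23, 0, 0, 0, 0), (6, 0, 0, 0, 0), (11, 0, 0, 0, 0), (23, 0, 0, 0, 0), (11, 0, 0, 0, 0), (17, 0, 0, 0, 0), (19, 0, 0, 0, 0), (17, 0, 0, 0, 0), (27, 0, 0, 0, 0), (19, 0, 0, 0, 0), (27, 0, 0, 0, 0), (1, 0, 0, 0, 0), (20, 0, 0, 0, 0), (1, 0, 0, 0, 0), (9, 0, 0, 0, 0), (20, 0, 0, 0, 0), (9, 0, 0, 0, 0), (16, 0, 0, 0, 0), (3, 0, 0, 0, 0), (16, 0, 0, 0, 0), (7, 0, 0, 0, 0), (3, 0, 0, 0, 0), (7, 0, 0, 0, 0)]]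

theorem tr94 : trK keys lk94 kl94 = true := by
  decide +kernel

theorem x94_0 : expB 2 5 dg12 dg6 m94_0 (l94_0 ++ z94_0) w94_0 = true := by
  decide +kernel

theorem t94_0_0 : chkS lk94 2 5 [(1, m94_0)] l94_0
  [(3, 16, 16, 274960, 274960), (0, 16, 16, 274960, 274960), (5, 16, 16, 274960, 274960), (2, 1, 1, 266290, 266290), (2, 16, 16, 274945, 274945), (0, 1, 1, 266290, 266290), (4, 1, 1, 200770, 81970), (2, 1, 1, 266275, 262450), (5, 16, 16, 271105, 271105), (2, 1, 1, 262435, 262435), (6, 16, 16, 274960, 274960), (1, 16, 16, 148240, 205840), (1, 1, 1, 135235, 66610), (4, 16, 16, 213505, 213505), (4, 16, 16, 205840, 148240), (4, 16, 16, 205825, 148225)]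
  [(2, -1152), (3, 288), (4, 1152), (6, -288)] = true := by
  decide +kernel

section

variable {κ ι : Type*} [Fintype κ] [Fintype ι] [Inhabited κ] [Inhabited ι]

noncomputable def F94_0 (E : Env κ ι) : (Fin 2 → κ) → (Fin 5 → ι) → ℝ := op2 (P12 κ) (P6 ι) (fB E 2 5 m94_0)

def r94_0_0 : List (ℕ × ℤ) := [(2, -1152), (3, 288), (4, 1152), (6, -288)]

theorem h94_0_0 (E : Env κ ι) : ip (F94_0 E) (F94_0 E) = dotS (ek E lk94) r94_0_0 :=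
  op_entryZ E lk94 2 5 _ _ _ _ (pg12 κ) (pg6 ι) m94_0 m94_0 l94_0 z94_0 w94_0 x94_0 (by decide) _ (chkS_sound E lk94 2 5 _ _ _ _ t94_0_0)

theorem row94_0 (E : Env κ ι) : RowG (ek E lk94) (F94_0 E) [F94_0 E] [r94_0_0] :=
  rowG_cons _ _ _ _ _ _ (h94_0_0 E) (rowG_nil _ _)

def tab94 : List (List (List (ℕ × ℤ))) := [[r94_0_0]]

theorem tri94 (E : Env κ ι) : TriG (ek E lk94) [F94_0 E] tab94 := by
  refine triG_cons _ _ _ _ _ (row94_0 E) ?_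
  exact triG_nil _

end

def lk95 : List Key := [
  (2, 5, [(0, [0], [0, 1]), (0, [0], [0, 1]), (0, [1], [2, 3]), (0, [1], [2, 4]), (4, [], [4]), (4, [], [3])]),
  (2, 5, [(0, [0], [0, 1]), (0, [1], [0, 2]), (0, [1], [3, 4]), (0, [0], [3, 4]), (4, [], [2]), (4, [], [1])]),
  (2, 5, [(0, [0], [0, 1]), (0, [1], [0, 2]), (0, [1], [2, 3]), (0, [0], [1, 4]), (4, [], [4]), (4, [], [3])]),
  (2, 5, [(0, [0], [0, 1]), (0, [0], [0, 1]), (0, [1], [2, 3]), (0, [1], [2, 3]), (4, [], [4]), (4, [], [4])]),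
  (2, 5, [(0, [0], [0, 1]), (0, [0], [2, 3]), (0, [1], [2, 4]), (0, [1], [0, 4]), (4, [], [3]), (4, [], [1])]),
  (2, 5, [(0, [0], [0, 1]), (0, [0], [2, 0]), (0, [1], [3, 1]), (4, [], [4]), (0, [1], [2, 3]), (4, [], [4])]),
  (2, 5, [(0, [0], [0, 1]), (0, [0], [2, 3]), (0, [1], [0, 1]), (4, [], [4]), (0, [1], [2, 3]), (4, [], [4])])]

def kl95 : List ℕ := [5, 6, 33, 91, 93, 247, 280]

def m95_0 : Base := (0, 0, [(0, [0], [0, 1]), (0, [1], [2, 3]), (4, [], [4])])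

def l95_0 : Cov := [(240, 0, 0, [(0, [0], [0, 1]), (0, [1], [2, 3]), (4, [], [4])]),
  (-240, 0, 0, [(0, [0], [0, 1]), (0, [1], [2, 4]), (4, [], [3])]),
  (240, 0, 0, [(0, [0], [0, 2]), (0, [1], [1, 3]), (4, [], [4])]),
  (-240, 0, 0, [(0, [0], [0, 2]), (0, [1], [1, 4]), (4, [], [3])]),
  (-240, 0, 0, [(0, [0], [1, 3]), (0, [1], [2, 0]), (4, [], [4])]),
  (240, 0, 0, [(0, [0], [1, 3]), (0, [1], [2, 4]), (4, [], [0])]),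
  (240, 0, 0, [(0, [0], [1, 4]), (0, [1], [2, 0]), (4, [], [3])]),
  (-240, 0, 0, [(0, [0], [1, 4]), (0, [1], [2, 3]), (4, [], [0])]),
  (-240, 0, 0, [(0, [0], [2, 3]), (0, [1], [1, 0]), (4, [], [4])]),
  (240, 0, 0, [(0, [0], [2, 3]), (0, [1], [1, 4]), (4, [], [0])]),
  (240, 0, 0, [(0, [0], [2, 4]), (0, [1], [1, 0]), (4, [], [3])]),
  (-240, 0, 0, [(0, [0], [2, 4]), (0, [1], [1, 3]), (4, [], [0])])]

def z95_0 : Cov := [(0, 0, 0, [(0, [0], [0, 1]), (0, [1], [3, 4]), (4, [], [2])]),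
  (0, 0, 0, [(0, [0], [0, 2]), (0, [1], [3, 4]), (4, [], [1])]),
  (0, 0, 0, [(0, [0], [0, 3]), (0, [1], [1, 2]), (4, [], [4])]),
  (0, 0, 0, [(0, [0], [0, 3]), (0, [1], [1, 4]), (4, [], [2])]),
  (0, 0, 0, [(0, [0], [0, 3]), (0, [1], [2, 4]), (4, [], [1])]),
  (0, 0, 0, [(0, [0], [0, 4]), (0, [1], [1, 2]), (4, [], [3])]),
  (0, 0, 0, [(0, [0], [0, 4]), (0, [1], [1, 3]), (4, [], [2])]),
  (0, 0, 0, [(0, [0], [0, 4]), (0, [1], [2, 3]), (4, [], [1])]),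
  (0, 0, 0, [(0, [0], [1, 2]), (0, [1], [0, 3]), (4, [], [4])]),
  (0, 0, 0, [(0, [0], [1, 2]), (0, [1], [0, 4]), (4, [], [3])]),
  (0, 0, 0, [(0, [0], [1, 2]), (0, [1], [3, 4]), (4, [], [0])]),
  (0, 0, 0, [(0, [0], [3, 1]), (0, [1], [0, 4]), (4, [], [2])]),
  (0, 0, 0, [(0, [0], [3, 2]), (0, [1], [0, 4]), (4, [], [1])]),
  (0, 0, 0, [(0, [0], [3, 4]), (0, [1], [1, 0]), (4, [], [2])]),
  (0, 0, 0, [(0, [0], [3, 4]), (0, [1], [1, 2]), (4, [], [0])]),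
  (0, 0, 0, [(0, [0], [3, 4]), (0, [1], [2, 0]), (4, [], [1])]),
  (0, 0, 0, [(0, [0], [4, 1]), (0, [1], [0, 3]), (4, [], [2])]),
  (0, 0, 0, [(0, [0], [4, 2]), (0, [1], [0, 3]), (4, [], [1])])]

def w95_0 : List (List Wit) := [[(0, 0, 0, 0, 0), (1, 0, 0, 0, 0), (0, 0, 0, 0, 0), (12, 0, 0, 0, 0), (1, 0, 0, 0, 0), (12, 0, 0, 0, 0), (2, 0, 0, 0, 0), (3, 0, 0, 0, 0), (2, 0, 0, 0, 0), (13, 0, 0, 0, 0), (3, 0, 0, 0, 0), (13, 0, 0, 0, 0), (14, 0, 0, 0, 0), (15, 0, 0, 0, 0), (14, 0, 0, 0, 0), (16, 0, 0, 0, 0), (17, 0, 0, 0, 0), (18, 0, 0, 0, 0), (17, 0, 0, 0, 0), (19, 0, 0, 0, 0), (0, 0, 0, 0, 0), (1, 0, 0, 0, 0), (20, 0, 0, 0, 0), (21, 0, 0, 0, 0), (20, 0, 0, 0, 0), (22, 0, 0, 0, 0), (21, 0, 0, 0, 0), (22, 0, 0, 0, 0), (4, 0, 0, 0, 0), (5, 0, 0, 0, 0), (6, 0, 0, 0, 0), (7, 0, 0, 0, 0), (2, 0, 0, 0, 0), (3, 0, 0, 0, 0), (20,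 0, 0, 0, 0), (21, 0, 0, 0, 0), (20, 0, 0, 0, 0), (22, 0, 0, 0, 0), (21, 0, 0, 0, 0), (22, 0, 0, 0, 0), (8, 0, 0, 0, 0), (9, 0, 0, 0, 0), (10, 0, 0, 0, 0), (11, 0, 0, 0, 0), (14, 0, 0, 0, 0), (15, 0, 0, 0, 0), (14, 0, 0, 0, 0), (16, 0, 0, 0, 0), (4, 0, 0, 0, 0), (23, 0, 0, 0, 0), (4, 0, 0, 0, 0), (5, 0, 0, 0, 0), (23, 0, 0, 0, 0), (5, 0, 0, 0, 0), (8, 0, 0, 0, 0), (24, 0, 0, 0, 0), (8, 0, 0, 0, 0), (9, 0, 0, 0, 0), (24, 0, 0, 0, 0), (9, 0, 0, 0, 0), (25, 0, 0, 0, 0), (26, 0, 0, 0, 0), (27, 0, 0, 0, 0), (26, 0, 0, 0, 0), (17, 0, 0, 0, 0), (18, 0, 0, 0, 0), (17, 0, 0, 0, 0), (19, 0, 0, 0, 0), (6, 0, 0, 0, 0), (28, 0, 0, 0, 0), (6, 0, 0, 0, 0), (7, 0, 0, 0, 0), (28, 0, 0, 0, 0), (7, 0, 0, 0, 0), (10, 0, 0, 0, 0), (29, 0, 0, 0, 0), (10, 0, 0, 0, 0), (11, 0, 0, 0, 0), (29, 0, 0, 0, 0), (11, 0, 0, 0, 0), (25, 0, 0, 0, 0), (26,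 0, 0, 0, 0), (27, 0, 0, 0, 0), (26, 0, 0, 0, 0)],
  [(8, 0, 0, 0, 0), (10, 0, 0, 0, 0), (8, 0, 0, 0, 0), (25, 0, 0, 0, 0), (10, 0, 0, 0, 0), (25, 0, 0, 0, 0), (4, 0, 0, 0, 0), (6, 0, 0, 0, 0), (4, 0, 0, 0, 0), (27, 0, 0, 0, 0), (6, 0, 0, 0, 0), (27, 0, 0, 0, 0), (20, 0, 0, 0, 0), (28, 0, 0, 0, 0), (20, 0, 0, 0, 0), (29, 0, 0, 0, 0), (21, 0, 0, 0, 0), (23, 0, 0, 0, 0), (21, 0, 0, 0, 0), (24, 0, 0, 0, 0), (8, 0, 0, 0, 0), (10, 0, 0, 0, 0), (14, 0, 0, 0, 0), (17, 0, 0, 0, 0), (14, 0, 0, 0, 0), (26, 0, 0, 0, 0), (17, 0, 0, 0, 0), (26, 0, 0, 0, 0), (2, 0, 0, 0, 0), (11, 0, 0, 0, 0), (3, 0, 0, 0, 0), (9, 0, 0, 0, 0), (4, 0, 0, 0, 0), (6, 0, 0, 0, 0), (14, 0, 0, 0, 0), (17, 0, 0, 0, 0), (14, 0, 0, 0, 0), (26, 0, 0, 0, 0), (17, 0, 0, 0, 0), (26, 0, 0, 0, 0), (0, 0, 0, 0, 0), (7, 0, 0, 0, 0), (1, 0, 0, 0, 0), (5, 0, 0, 0, 0),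 (20, 0, 0, 0, 0), (28, 0, 0, 0, 0), (20, 0, 0, 0, 0), (29, 0, 0, 0, 0), (2, 0, 0, 0, 0), (18, 0, 0, 0, 0), (2, 0, 0, 0, 0), (11, 0, 0, 0, 0), (18, 0, 0, 0, 0), (11, 0, 0, 0, 0), (0, 0, 0, 0, 0), (19, 0, 0, 0, 0), (0, 0, 0, 0, 0), (7, 0, 0, 0, 0), (19, 0, 0, 0, 0), (7, 0, 0, 0, 0), (12, 0, 0, 0, 0), (22, 0, 0, 0, 0), (13, 0, 0, 0, 0), (22, 0, 0, 0, 0), (21, 0, 0, 0, 0), (23, 0, 0, 0, 0), (21, 0, 0, 0, 0), (24, 0, 0, 0, 0), (3, 0, 0, 0, 0), (15, 0, 0, 0, 0), (3, 0, 0, 0, 0), (9, 0, 0, 0, 0), (15, 0, 0, 0, 0), (9, 0, 0, 0, 0), (1, 0, 0, 0, 0), (16, 0, 0, 0, 0), (1, 0, 0, 0, 0), (5, 0, 0, 0, 0), (16, 0, 0, 0, 0), (5, 0, 0, 0, 0), (12, 0, 0, 0, 0), (22, 0, 0, 0, 0), (13, 0, 0, 0, 0), (22, 0, 0, 0, 0)]]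

theorem tr95 : trK keys lk95 kl95 = true := by
  decide +kernel

theorem x95_0 : expB 2 5 dg12 dg7 m95_0 (l95_0 ++ z95_0) w95_0 = true := by
  decide +kernel

theorem t95_0_0 : chkS lk95 2 5 [(1, m95_0)] l95_0
  [(3, 16, 16, 274960, 274960), (0, 16, 16, 274960, 274960), (5, 16, 16, 274960, 274960), (4, 1, 1, 200740, 16690), (5, 16, 16, 271105, 271105), (2, 1, 1, 262435, 262435), (2, 16, 16, 274960, 274960), (0, 1, 1, 266275, 262450), (6, 16, 16, 274960, 274960), (1, 16, 16, 148225, 205825), (1, 1, 1, 135235, 66610), (4, 16, 16, 213505, 213505)]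
  [(0, -480), (1, 480), (2, 480), (3, 240), (4, -480), (6, -240)] = true := by
  decide +kernel

section

variable {κ ι : Type*} [Fintype κ] [Fintype ι] [Inhabited κ] [Inhabited ι]

noncomputable def F95_0 (E : Env κ ι) : (Fin 2 → κ) → (Fin 5 → ι) → ℝ := op2 (P12 κ) (P7 ι) (fB E 2 5 m95_0)

def r95_0_0 : List (ℕ × ℤ) := [(0, -480), (1, 480), (2, 480), (3, 240), (4, -480), (6, -240)]

theorem h95_0_0 (E : Env κ ι) : ip (F95_0 E) (F95_0 E) = dotS (ek E lk95) r95_0_0 :=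
  op_entryZ E lk95 2 5 _ _ _ _ (pg12 κ) (pg7 ι) m95_0 m95_0 l95_0 z95_0 w95_0 x95_0 (by decide) _ (chkS_sound E lk95 2 5 _ _ _ _ t95_0_0)

theorem row95_0 (E : Env κ ι) : RowG (ek E lk95) (F95_0 E) [F95_0 E] [r95_0_0] :=
  rowG_cons _ _ _ _ _ _ (h95_0_0 E) (rowG_nil _ _)

def tab95 : List (List (List (ℕ × ℤ))) := [[r95_0_0]]

theorem tri95 (E : Env κ ι) : TriG (ek E lk95) [F95_0 E] tab95 := by
  refine triG_cons _ _ _ _ _ (row95_0 E) ?_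
  exact triG_nil _

end

def lk96 : List Key := [
  (2, 5, [(0, [0], [0, 1]), (0, [0], [0, 1]), (0, [1], [2, 3]), (0, [1], [2, 4]), (4, [], [4]), (4, [], [3])]),
  (2, 5, [(0, [0], [0, 1]), (0, [1], [0, 2]), (0, [1], [3, 4]), (0, [0], [3, 4]), (4, [], [2]), (4, [], [1])]),
  (2, 5, [(0, [0], [0, 1]), (0, [1], [0, 2]), (0, [1], [2, 3]), (0, [0], [1, 4]), (4, [], [4]), (4, [], [3])]),
  (2, 5, [(0, [0], [0, 1]), (0, [0], [0, 1]), (0, [1], [2, 3]), (0, [1], [2, 3]), (4, [], [4]), (4, [], [4])]),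
  (2, 5, [(0, [0], [0, 1]), (0, [0], [2, 3]), (0, [1], [2, 4]), (0, [1], [0, 4]), (4, [], [3]), (4, [], [1])]),
  (2, 5, [(0, [0], [0, 1]), (0, [0], [2, 0]), (0, [1], [3, 1]), (4, [], [4]), (0, [1], [2, 3]), (4, [], [4])]),
  (2, 5, [(0, [0], [0, 1]), (0, [0], [2, 3]), (0, [1], [0, 1]), (4, [], [4]), (0, [1], [2, 3]), (4, [], [4])])]

def kl96 : List ℕ := [5, 6, 33, 91, 93, 247, 280]

def m96_0 : Base := (0, 0, [(0, [0], [0, 1]), (0, [1], [2, 3]), (4, [], [4])])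

def l96_0 : Cov := [(384, 0, 0, [(0, [0], [0, 1]), (0, [1], [2, 3]), (4, [], [4])]),
  (-384, 0, 0, [(0, [0], [0, 1]), (0, [1], [3, 4]), (4, [], [2])]),
  (-384, 0, 0, [(0, [0], [0, 3]), (0, [1], [1, 2]), (4, [], [4])]),
  (384, 0, 0, [(0, [0], [0, 3]), (0, [1], [1, 4]), (4, [], [2])]),
  (-384, 0, 0, [(0, [0], [1, 2]), (0, [1], [0, 3]), (4, [], [4])]),
  (384, 0, 0, [(0, [0], [1, 2]), (0, [1], [3, 4]), (4, [], [0])]),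
  (384, 0, 0, [(0, [0], [1, 4]), (0, [1], [0, 3]), (4, [], [2])]),
  (-384, 0, 0, [(0, [0], [1, 4]), (0, [1], [2, 3]), (4, [], [0])]),
  (384, 0, 0, [(0, [0], [2, 3]), (0, [1], [0, 1]), (4, [], [4])]),
  (-384, 0, 0, [(0, [0], [2, 3]), (0, [1], [1, 4]), (4, [], [0])]),
  (-384, 0, 0, [(0, [0], [3, 4]), (0, [1], [0, 1]), (4, [], [2])]),
  (384, 0, 0, [(0, [0], [3, 4]), (0, [1], [1, 2]), (4, [], [0])])]

def z96_0 : Cov := [(0, 0, 0, [(0, [0], [0, 1]), (0, [1], [2, 4]), (4, [], [3])]),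
  (0, 0, 0, [(0, [0], [0, 2]), (0, [1], [1, 3]), (4, [], [4])]),
  (0, 0, 0, [(0, [0], [0, 2]), (0, [1], [1, 4]), (4, [], [3])]),
  (0, 0, 0, [(0, [0], [0, 2]), (0, [1], [3, 4]), (4, [], [1])]),
  (0, 0, 0, [(0, [0], [0, 3]), (0, [1], [2, 4]), (4, [], [1])]),
  (0, 0, 0, [(0, [0], [0, 4]), (0, [1], [1, 2]), (4, [], [3])]),
  (0, 0, 0, [(0, [0], [0, 4]), (0, [1], [1, 3]), (4, [], [2])]),
  (0, 0, 0, [(0, [0], [0, 4]), (0, [1], [2, 3]), (4, [], [1])]),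
  (0, 0, 0, [(0, [0], [1, 2]), (0, [1], [0, 4]), (4, [], [3])]),
  (0, 0, 0, [(0, [0], [1, 3]), (0, [1], [0, 2]), (4, [], [4])]),
  (0, 0, 0, [(0, [0], [1, 3]), (0, [1], [0, 4]), (4, [], [2])]),
  (0, 0, 0, [(0, [0], [1, 3]), (0, [1], [2, 4]), (4, [], [0])]),
  (0, 0, 0, [(0, [0], [1, 4]), (0, [1], [0, 2]), (4, [], [3])]),
  (0, 0, 0, [(0, [0], [2, 3]), (0, [1], [0, 4]), (4, [], [1])]),
  (0, 0, 0, [(0, [0], [2, 4]), (0, [1], [0, 1]), (4, [], [3])]),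
  (0, 0, 0, [(0, [0], [2, 4]), (0, [1], [0, 3]), (4, [], [1])]),
  (0, 0, 0, [(0, [0], [2, 4]), (0, [1], [1, 3]), (4, [], [0])]),
  (0, 0, 0, [(0, [0], [3, 4]), (0, [1], [0, 2]), (4, [], [1])])]

def w96_0 : List (List Wit) := [[(0, 0, 0, 0, 0), (12, 0, 0, 0, 0), (0, 0, 0, 0, 0), (1, 0, 0, 0, 0), (12, 0, 0, 0, 0), (1, 0, 0, 0, 0), (13, 0, 0, 0, 0), (14, 0, 0, 0, 0), (13, 0, 0, 0, 0), (15, 0, 0, 0, 0), (14, 0, 0, 0, 0), (15, 0, 0, 0, 0), (2, 0, 0, 0, 0), (3, 0, 0, 0, 0), (2, 0, 0, 0, 0), (16, 0, 0, 0, 0), (3, 0, 0, 0, 0), (16, 0, 0, 0, 0), (17, 0, 0, 0, 0), (18, 0, 0, 0, 0), (17, 0, 0, 0, 0), (19, 0, 0, 0, 0), (18, 0, 0, 0, 0), (19, 0, 0, 0, 0), (0, 0, 0, 0, 0), (12, 0, 0, 0, 0), (0, 0, 0, 0, 0), (1, 0, 0, 0, 0), (12, 0, 0, 0, 0), (1, 0, 0, 0, 0), (4, 0, 0, 0, 0), (20, 0, 0, 0, 0), (4, 0, 0, 0, 0), (5, 0, 0, 0, 0), (20,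 0, 0, 0, 0), (5, 0, 0, 0, 0), (21, 0, 0, 0, 0), (22, 0, 0, 0, 0), (21, 0, 0, 0, 0), (23, 0, 0, 0, 0), (22, 0, 0, 0, 0), (23, 0, 0, 0, 0), (24, 0, 0, 0, 0), (6, 0, 0, 0, 0), (24, 0, 0, 0, 0), (7, 0, 0, 0, 0), (6, 0, 0, 0, 0), (7, 0, 0, 0, 0), (13, 0, 0, 0, 0), (14, 0, 0, 0, 0), (13, 0, 0, 0, 0), (15, 0, 0, 0, 0), (14, 0, 0, 0, 0), (15, 0, 0, 0, 0), (4, 0, 0, 0, 0), (20, 0, 0, 0, 0), (4, 0, 0, 0, 0), (5, 0, 0, 0, 0), (20, 0, 0, 0, 0), (5, 0, 0, 0, 0), (8, 0, 0, 0, 0), (25, 0, 0, 0, 0), (8, 0, 0, 0, 0), (9, 0, 0, 0, 0), (25, 0, 0, 0, 0), (9, 0, 0, 0, 0), (26, 0, 0, 0, 0), (27, 0, 0, 0, 0), (26, 0, 0, 0, 0), (28, 0, 0, 0, 0), (27, 0, 0, 0, 0), (28, 0, 0, 0, 0), (2, 0, 0, 0, 0), (3, 0, 0, 0, 0), (2, 0, 0, 0, 0), (16, 0, 0, 0, 0), (3, 0, 0, 0, 0), (16, 0, 0, 0, 0), (21, 0, 0, 0, 0), (22, 0, 0, 0, 0), (21, 0, 0, 0, 0), (23,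 0, 0, 0, 0), (22, 0, 0, 0, 0), (23, 0, 0, 0, 0), (8, 0, 0, 0, 0), (25, 0, 0, 0, 0), (8, 0, 0, 0, 0), (9, 0, 0, 0, 0), (25, 0, 0, 0, 0), (9, 0, 0, 0, 0), (10, 0, 0, 0, 0), (29, 0, 0, 0, 0), (10, 0, 0, 0, 0), (11, 0, 0, 0, 0), (29, 0, 0, 0, 0), (11, 0, 0, 0, 0), (17, 0, 0, 0, 0), (18, 0, 0, 0, 0), (17, 0, 0, 0, 0), (19, 0, 0, 0, 0), (18, 0, 0, 0, 0), (19, 0, 0, 0, 0), (24, 0, 0, 0, 0), (6, 0, 0, 0, 0), (24, 0, 0, 0, 0), (7, 0, 0, 0, 0), (6, 0, 0, 0, 0), (7, 0, 0, 0, 0), (26, 0, 0, 0, 0), (27, 0, 0, 0, 0), (26, 0, 0, 0, 0), (28, 0, 0, 0, 0), (27, 0, 0, 0, 0), (28, 0, 0, 0, 0), (10, 0, 0, 0, 0), (29, 0, 0, 0, 0), (10, 0, 0, 0, 0), (11, 0, 0, 0, 0), (29, 0, 0, 0, 0), (11, 0, 0, 0, 0)],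
  [(8, 0, 0, 0, 0), (26, 0, 0, 0, 0), (8, 0, 0, 0, 0), (10, 0, 0, 0, 0), (26, 0, 0, 0, 0), (10, 0, 0, 0, 0), (21, 0, 0, 0, 0), (24, 0, 0, 0, 0), (21, 0, 0, 0, 0), (29, 0, 0, 0, 0), (24, 0, 0, 0, 0), (29, 0, 0, 0, 0), (4, 0, 0, 0, 0), (6, 0, 0, 0, 0), (4, 0, 0, 0, 0), (27, 0, 0, 0, 0), (6, 0, 0, 0, 0), (27, 0, 0, 0, 0), (20, 0, 0, 0, 0), (22, 0, 0, 0, 0), (20, 0, 0, 0, 0), (25, 0, 0, 0, 0), (22, 0, 0, 0, 0), (25, 0, 0, 0, 0), (8, 0, 0, 0, 0), (26, 0, 0, 0, 0), (8, 0, 0, 0, 0), (10, 0, 0, 0, 0), (26, 0, 0, 0, 0), (10, 0, 0, 0, 0), (2, 0, 0, 0, 0), (17, 0, 0, 0, 0), (2, 0, 0, 0, 0), (11, 0, 0, 0, 0), (17, 0, 0, 0, 0), (11, 0, 0, 0, 0), (13, 0, 0, 0, 0), (18, 0, 0, 0, 0), (13, 0, 0, 0, 0), (28, 0, 0, 0, 0), (18, 0, 0, 0, 0), (28, 0, 0, 0, 0), (14, 0, 0, 0, 0), (3, 0, 0, 0, 0), (14, 0, 0, 0, 0), (9, 0, 0, 0, 0), (3, 0, 0,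 0, 0), (9, 0, 0, 0, 0), (21, 0, 0, 0, 0), (24, 0, 0, 0, 0), (21, 0, 0, 0, 0), (29, 0, 0, 0, 0), (24, 0, 0, 0, 0), (29, 0, 0, 0, 0), (2, 0, 0, 0, 0), (17, 0, 0, 0, 0), (2, 0, 0, 0, 0), (11, 0, 0, 0, 0), (17, 0, 0, 0, 0), (11, 0, 0, 0, 0), (0, 0, 0, 0, 0), (19, 0, 0, 0, 0), (0, 0, 0, 0, 0), (7, 0, 0, 0, 0), (19, 0, 0, 0, 0), (7, 0, 0, 0, 0), (12, 0, 0, 0, 0), (16, 0, 0, 0, 0), (12, 0, 0, 0, 0), (23, 0, 0, 0, 0), (16, 0, 0, 0, 0), (23, 0, 0, 0, 0), (4, 0, 0, 0, 0), (6, 0, 0, 0, 0), (4, 0, 0, 0, 0), (27, 0, 0, 0, 0), (6, 0, 0, 0, 0), (27, 0, 0, 0, 0), (13, 0, 0, 0, 0), (18, 0, 0, 0, 0), (13, 0, 0, 0, 0), (28, 0, 0, 0, 0), (18, 0, 0, 0, 0), (28, 0, 0, 0, 0), (0, 0, 0, 0, 0), (19, 0, 0, 0, 0), (0, 0, 0, 0, 0), (7, 0, 0, 0, 0), (19, 0, 0, 0, 0), (7, 0, 0, 0, 0), (1, 0, 0, 0, 0), (15, 0, 0, 0, 0), (1, 0, 0, 0, 0), (5, 0, 0,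 0, 0), (15, 0, 0, 0, 0), (5, 0, 0, 0, 0), (20, 0, 0, 0, 0), (22, 0, 0, 0, 0), (20, 0, 0, 0, 0), (25, 0, 0, 0, 0), (22, 0, 0, 0, 0), (25, 0, 0, 0, 0), (14, 0, 0, 0, 0), (3, 0, 0, 0, 0), (14, 0, 0, 0, 0), (9, 0, 0, 0, 0), (3, 0, 0, 0, 0), (9, 0, 0, 0, 0), (12, 0, 0, 0, 0), (16, 0, 0, 0, 0), (12, 0, 0, 0, 0), (23, 0, 0, 0, 0), (16, 0, 0, 0, 0), (23, 0, 0, 0, 0), (1, 0, 0, 0, 0), (15, 0, 0, 0, 0), (1, 0, 0, 0, 0), (5, 0, 0, 0, 0), (15, 0, 0, 0, 0), (5, 0, 0, 0, 0)]]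

theorem tr96 : trK keys lk96 kl96 = true := by
  decide +kernel

theorem x96_0 : expB 2 5 dg11 dg8 m96_0 (l96_0 ++ z96_0) w96_0 = true := by
  decide +kernel

theorem t96_0_0 : chkS lk96 2 5 [(1, m96_0)] l96_0
  [(3, 16, 16, 274960, 274960), (0, 16, 16, 271120, 271120), (5, 16, 16, 271120, 271120), (4, 1, 1, 196900, 16675), (5, 16, 16, 274945, 274945), (2, 1, 1, 266275, 262450), (2, 16, 16, 271120, 271120), (0, 1, 1, 266275, 262450), (6, 16, 16, 274960, 274960), (1, 16, 16, 148225, 205825), (1, 1, 1, 131395, 66595), (4, 16, 16, 205825, 148225)]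
  [(0, -768), (1, -768), (2, 768), (3, 384), (4, 768), (5, -768), (6, 384)] = true := by
  decide +kernel

section

variable {κ ι : Type*} [Fintype κ] [Fintype ι] [Inhabited κ] [Inhabited ι]

noncomputable def F96_0 (E : Env κ ι) : (Fin 2 → κ) → (Fin 5 → ι) → ℝ := op2 (P11 κ) (P8 ι) (fB E 2 5 m96_0)

def r96_0_0 : List (ℕ × ℤ) := [(0, -768), (1, -768), (2, 768), (3, 384), (4, 768), (5, -768), (6, 384)]

theorem h96_0_0 (E : Env κ ι) : ip (F96_0 E) (F96_0 E) = dotS (ek E lk96) r96_0_0 :=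
  op_entryZ E lk96 2 5 _ _ _ _ (pg11 κ) (pg8 ι) m96_0 m96_0 l96_0 z96_0 w96_0 x96_0 (by decide) _ (chkS_sound E lk96 2 5 _ _ _ _ t96_0_0)

theorem row96_0 (E : Env κ ι) : RowG (ek E lk96) (F96_0 E) [F96_0 E] [r96_0_0] :=
  rowG_cons _ _ _ _ _ _ (h96_0_0 E) (rowG_nil _ _)

def tab96 : List (List (List (ℕ × ℤ))) := [[r96_0_0]]

theorem tri96 (E : Env κ ι) : TriG (ek E lk96) [F96_0 E] tab96 := by
  refine triG_cons _ _ _ _ _ (row96_0 E) ?_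
  exact triG_nil _

end

end YMBG
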