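import Pool.Agent.YM.BG.Ga0
import Pool.Agent.YM.BG.Ga1

set_option linter.unusedVariables false
set_option maxRecDepth 100000

open YMEng

namespace YMBG

def lk8 : List Key := [
  (1, 5, [(0, [0], [0, 1]), (0, [0], [0, 1]), (1, [], [2, 3]), (1, [], [2, 4]), (4, [], [4]), (4, [], [3])]),
  (1, 5, [(0, [0], [0, 1]), (0, [0], [0, 2]), (4, [], [2]), (4, [], [1]), (1, [], [3, 4]), (1, [], [3, 4])]),
  (2, 7, [(0, [0], [0, 1]), (0, [1], [0, 2]), (0, [1], [3, 4]), (0, [0], [5, 6]), (1, [], [5, 6]), (1, [], [3, 4]), (4, [], [2]), (4, [], [1])]),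
  (3, 7, [(0, [0], [0, 1]), (0, [0], [0, 1]), (0, [1], [2, 3]), (0, [2], [2, 4]), (0, [2], [5, 6]), (0, [1], [5, 6]), (4, [], [4]), (4, [], [3])]),
  (1, 7, [(0, [0], [0, 1]), (0, [0], [0, 1]), (1, [], [2, 3]), (1, [], [2, 3]), (1, [], [4, 5]), (1, [], [4, 6]), (4, [], [6]), (4, [], [5])]),
  (1, 7, [(0, [0], [0, 1]), (0, [0], [2, 3]), (1, [], [0, 4]), (1, [], [2, 3]), (4, [], [1]), (4, [], [4]), (1, [], [5, 6]), (1, [], [5, 6])]),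
  (2, 7, [(0, [0], [0, 1]), (0, [0], [0, 1]), (0, [1], [2, 3]), (0, [1], [4, 5]), (1, [], [2, 6]), (1, [], [4, 5]), (4, [], [3]), (4, [], [6])]),
  (1, 7, [(0, [0], [0, 1]), (0, [0], [0, 2]), (4, [], [2]), (4, [], [1]), (1, [], [3, 4]), (1, [], [3, 4]), (1, [], [5, 6]), (1, [], [5, 6])]),
  (1, 5, [(0, [0], [0, 1]), (0, [0], [2, 3]), (1, [], [0, 4]), (1, [], [2, 3]), (4, [], [1]), (4, [], [4])]),
  (1, 5, [(0, [0], [0, 1]), (0, [0], [0, 1]), (1, [], [2, 3]), (1, [], [2, 3]), (4, [], [4]), (4, [], [4])]),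
  (2, 7, [(0, [0], [0, 1]), (0, [0], [2, 3]), (0, [1], [4, 5]), (0, [1], [4, 6]), (1, [], [0, 5]), (1, [], [2, 3]), (4, [], [1]), (4, [], [6])]),
  (2, 7, [(0, [0], [0, 1]), (0, [1], [0, 2]), (0, [0], [3, 4]), (0, [1], [5, 6]), (1, [], [1, 3]), (1, [], [5, 6]), (4, [], [2]), (4, [], [4])]),
  (2, 7, [(0, [0], [0, 1]), (0, [0], [2, 3]), (0, [1], [0, 4]), (0, [1], [4, 5]), (1, [], [1, 6]), (1, [], [2, 3]), (4, [], [5]), (4, [], [6])]),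
  (2, 7, [(0, [0], [0, 1]), (0, [1], [0, 2]), (0, [1], [1, 3]), (0, [0], [4, 5]), (1, [], [2, 6]), (1, [], [4, 5]), (4, [], [3]), (4, [], [6])]),
  (3, 7, [(0, [0], [0, 1]), (0, [1], [0, 2]), (0, [0], [2, 3]), (0, [2], [1, 4]), (0, [1], [5, 6]), (0, [2], [5, 6]), (4, [], [3]), (4, [], [4])]),
  (3, 7, [(0, [0], [0, 1]), (0, [1], [0, 2]), (0, [0], [3, 4]), (0, [1], [3, 4]), (0, [2], [1, 5]), (0, [2], [5, 6]), (4, [], [2]), (4, [], [6])]),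
  (2, 6, [(0, [0], [0, 1]), (0, [0], [0, 1]), (0, [1], [2, 3]), (0, [1], [2, 4]), (1, [], [3, 5]), (4, [], [4]), (4, [], [5])]),
  (1, 6, [(0, [0], [0, 1]), (0, [0], [0, 1]), (1, [], [2, 3]), (1, [], [2, 4]), (1, [], [3, 5]), (4, [], [5]), (4, [], [4])]),
  (1, 6, [(0, [0], [0, 1]), (0, [0], [2, 3]), (1, [], [0, 4]), (1, [], [4, 5]), (1, [], [2, 3]), (4, [], [1]), (4, [], [5])]),
  (1, 6, [(0, [0], [0, 1]), (0, [0], [0, 1]), (1, [], [2, 3]), (1, [], [2, 3]), (1, [], [4, 5]), (4, [], [4]), (4, [], [5])]),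
  (1, 6, [(0, [0], [0, 1]), (0, [0], [2, 3]), (1, [], [2, 3]), (4, [], [0]), (4, [], [1]), (1, [], [4, 5]), (1, [], [4, 5])]),
  (1, 6, [(0, [0], [0, 1]), (0, [0], [0, 2]), (1, [], [1, 3]), (4, [], [2]), (4, [], [3]), (1, [], [4, 5]), (1, [], [4, 5])]),
  (2, 6, [(0, [0], [0, 1]), (0, [0], [2, 3]), (0, [1], [0, 4]), (0, [1], [4, 5]), (1, [], [2, 3]), (4, [], [1]), (4, [], [5])]),
  (2, 6, [(0, [0], [0, 1]), (0, [0], [0, 1]), (0, [1], [2, 3]), (0, [1], [4, 5]), (1, [], [4, 5]), (4, [], [2]), (4, [], [3])]),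
  (1, 6, [(0, [0], [0, 1]), (0, [0], [2, 3]), (1, [], [0, 2]), (4, [], [3]), (4, [], [1]), (1, [], [4, 5]), (1, [], [4, 5])]),
  (2, 6, [(0, [0], [0, 1]), (0, [0], [0, 1]), (0, [1], [2, 3]), (0, [1], [4, 5]), (1, [], [2, 4]), (4, [], [5]), (4, [], [3])]),
  (2, 6, [(0, [0], [0, 1]), (0, [1], [0, 2]), (0, [1], [1, 3]), (0, [0], [4, 5]), (1, [], [4, 5]), (4, [], [3]), (4, [], [2])]),
  (2, 6, [(0, [0], [0, 1]), (0, [1], [0, 2]), (0, [1], [1, 3]), (0, [0], [4, 5]), (1, [], [2, 4]), (4, [], [3]), (4, [], [5])]),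
  (2, 6, [(0, [0], [0, 1]), (0, [0], [2, 3]), (0, [1], [0, 4]), (0, [1], [4, 5]), (1, [], [2, 5]), (4, [], [1]), (4, [], [3])]),
  (2, 6, [(0, [0], [0, 1]), (0, [1], [2, 3]), (0, [0], [2, 4]), (0, [1], [0, 5]), (1, [], [1, 3]), (4, [], [5]), (4, [], [4])]),
  (2, 6, [(0, [0], [0, 1]), (0, [0], [2, 3]), (0, [1], [2, 4]), (0, [1], [0, 5]), (1, [], [1, 3]), (4, [], [5]), (4, [], [4])]),
  (2, 6, [(0, [0], [0, 1]), (0, [1], [0, 2]), (0, [0], [2, 3]), (0, [1], [1, 4]), (1, [], [3, 5]), (4, [], [4]), (4, [], [5])]),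
  (2, 6, [(0, [0], [0, 1]), (0, [0], [2, 3]), (0, [1], [0, 4]), (0, [1], [4, 5]), (1, [], [1, 2]), (4, [], [3]), (4, [], [5])]),
  (2, 6, [(0, [0], [0, 1]), (0, [0], [2, 3]), (0, [1], [0, 4]), (0, [1], [2, 4]), (1, [], [1, 5]), (4, [], [3]), (4, [], [5])]),
  (1, 5, [(0, [0], [0, 1]), (0, [0], [0, 2]), (1, [], [1, 3]), (1, [], [3, 4]), (4, [], [2]), (4, [], [4])]),
  (3, 7, [(0, [0], [0, 1]), (0, [0], [0, 2]), (0, [1], [1, 2]), (4, [], [3]), (0, [2], [4, 5]), (0, [2], [4, 6]), (0, [1], [5, 6]), (4, [], [3])]),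
  (3, 7, [(0, [0], [0, 1]), (0, [0], [0, 2]), (0, [1], [1, 2]), (4, [], [3]), (0, [2], [4, 5]), (0, [2], [4, 6]), (0, [1], [3, 6]), (4, [], [5])]),
  (3, 7, [(0, [0], [0, 1]), (0, [0], [0, 2]), (0, [1], [1, 2]), (4, [], [3]), (0, [2], [4, 5]), (0, [2], [4, 5]), (0, [1], [3, 6]), (4, [], [6])]),
  (3, 7, [(0, [0], [0, 1]), (0, [0], [0, 2]), (0, [1], [1, 2]), (4, [], [3]), (0, [2], [4, 5]), (0, [2], [3, 6]), (0, [1], [4, 6]), (4, [], [5])]),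
  (3, 7, [(0, [0], [0, 1]), (0, [0], [0, 2]), (0, [1], [1, 2]), (4, [], [3]), (0, [2], [4, 5]), (0, [2], [3, 6]), (0, [1], [4, 5]), (4, [], [6])]),
  (2, 7, [(0, [0], [0, 1]), (0, [0], [0, 2]), (0, [1], [1, 2]), (4, [], [3]), (0, [1], [4, 5]), (1, [], [4, 6]), (1, [], [3, 5]), (4, [], [6])]),
  (2, 7, [(0, [0], [0, 1]), (0, [0], [0, 2]), (0, [1], [1, 2]), (4, [], [3]), (0, [1], [4, 5]), (1, [], [4, 5]), (1, [], [3, 6]), (4, [], [6])]),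
  (2, 6, [(0, [0], [0, 1]), (0, [0], [0, 2]), (0, [1], [1, 2]), (4, [], [3]), (0, [1], [4, 5]), (1, [], [4, 5]), (4, [], [3])]),
  (2, 6, [(0, [0], [0, 1]), (0, [0], [0, 2]), (0, [1], [1, 2]), (4, [], [3]), (0, [1], [4, 5]), (1, [], [3, 4]), (4, [], [5])]),
  (3, 7, [(0, [0], [0, 1]), (0, [0], [0, 2]), (0, [1], [3, 2]), (4, [], [1]), (0, [2], [4, 5]), (0, [2], [4, 6]), (0, [1], [3, 6]), (4, [], [5])]),
  (3, 7, [(0, [0], [0, 1]), (0, [0], [0, 2]), (0, [1], [3, 2]), (4, [], [1]), (0, [2], [4, 5]), (0, [2], [4, 5]), (0, [1], [3, 6]), (4, [], [6])]),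
  (3, 7, [(0, [0], [0, 1]), (0, [0], [0, 2]), (0, [1], [3, 2]), (4, [], [1]), (0, [2], [4, 5]), (0, [2], [3, 6]), (0, [1], [4, 6]), (4, [], [5])]),
  (3, 7, [(0, [0], [0, 1]), (0, [0], [0, 2]), (0, [1], [3, 2]), (4, [], [1]), (0, [2], [4, 5]), (0, [2], [3, 4]), (0, [1], [5, 6]), (4, [], [6])]),
  (2, 7, [(0, [0], [0, 1]), (0, [0], [0, 2]), (0, [1], [3, 2]), (4, [], [1]), (0, [1], [4, 5]), (1, [], [4, 6]), (1, [], [3, 5]), (4, [], [6])]),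
  (2, 6, [(0, [0], [0, 1]), (0, [0], [0, 2]), (0, [1], [3, 2]), (4, [], [1]), (0, [1], [3, 4]), (1, [], [4, 5]), (4, [], [5])]),
  (3, 7, [(0, [0], [0, 1]), (0, [0], [0, 1]), (0, [1], [2, 3]), (4, [], [3]), (0, [2], [4, 5]), (0, [2], [2, 6]), (0, [1], [4, 6]), (4, [], [5])]),
  (3, 7, [(0, [0], [0, 1]), (0, [0], [0, 1]), (0, [1], [2, 3]), (4, [], [3]), (0, [2], [4, 5]), (0, [2], [2, 4]), (0, [1], [5, 6]), (4, [], [6])]),
  (2, 7, [(0, [0], [0, 1]), (0, [0], [0, 1]), (0, [1], [2, 3]), (4, [], [3]), (0, [1], [4, 5]), (1, [], [4, 6]), (1, [], [2, 5]), (4, [], [6])]),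
  (3, 7, [(0, [0], [0, 1]), (0, [0], [2, 3]), (0, [1], [0, 3]), (4, [], [1]), (0, [2], [4, 5]), (0, [2], [2, 6]), (0, [1], [4, 6]), (4, [], [5])]),
  (3, 7, [(0, [0], [0, 1]), (0, [0], [2, 3]), (0, [1], [0, 3]), (4, [], [1]), (0, [2], [4, 5]), (0, [2], [2, 4]), (0, [1], [5, 6]), (4, [], [6])]),
  (2, 7, [(0, [0], [0, 1]), (0, [0], [2, 3]), (0, [1], [0, 3]), (4, [], [1]), (0, [1], [4, 5]), (1, [], [4, 6]), (1, [], [2, 5]), (4, [], [6])]),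
  (3, 7, [(0, [0], [0, 1]), (0, [0], [2, 3]), (0, [1], [0, 1]), (4, [], [3]), (0, [2], [4, 5]), (0, [2], [2, 6]), (0, [1], [4, 5]), (4, [], [6])]),
  (3, 7, [(0, [0], [0, 1]), (0, [0], [2, 3]), (0, [1], [0, 1]), (4, [], [3]), (0, [2], [4, 5]), (0, [2], [2, 4]), (0, [1], [5, 6]), (4, [], [6])]),
  (2, 7, [(0, [0], [0, 1]), (0, [0], [2, 3]), (0, [1], [0, 1]), (4, [], [3]), (0, [1], [4, 5]), (1, [], [4, 6]), (1, [], [2, 5]), (4, [], [6])]),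
  (2, 7, [(0, [0], [0, 1]), (0, [0], [2, 3]), (0, [1], [0, 1]), (4, [], [3]), (0, [1], [4, 5]), (1, [], [4, 5]), (1, [], [2, 6]), (4, [], [6])]),
  (2, 6, [(0, [0], [0, 1]), (0, [0], [2, 3]), (0, [1], [0, 1]), (4, [], [3]), (0, [1], [4, 5]), (1, [], [4, 5]), (4, [], [2])]),
  (2, 6, [(0, [0], [0, 1]), (0, [0], [2, 3]), (0, [1], [0, 1]), (4, [], [3]), (0, [1], [4, 5]), (1, [], [2, 4]), (4, [], [5])]),
  (2, 6, [(0, [0], [0, 1]), (0, [0], [2, 3]), (0, [1], [0, 1]), (4, [], [3]), (0, [1], [2, 4]), (1, [], [4, 5]), (4, [], [5])]),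
  (3, 7, [(0, [0], [0, 1]), (0, [0], [2, 0]), (0, [1], [1, 3]), (4, [], [3]), (0, [2], [4, 5]), (0, [2], [2, 4]), (0, [1], [5, 6]), (4, [], [6])]),
  (2, 7, [(0, [0], [0, 1]), (0, [0], [2, 0]), (0, [1], [1, 3]), (4, [], [3]), (0, [1], [4, 5]), (1, [], [4, 6]), (1, [], [2, 5]), (4, [], [6])]),
  (2, 7, [(0, [0], [0, 1]), (0, [0], [2, 0]), (0, [1], [1, 3]), (4, [], [3]), (0, [1], [4, 5]), (1, [], [4, 5]), (1, [], [2, 6]), (4, [], [6])]),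
  (1, 7, [(0, [0], [0, 1]), (1, [], [0, 2]), (1, [], [1, 2]), (4, [], [3]), (0, [0], [4, 5]), (1, [], [4, 6]), (1, [], [5, 6]), (4, [], [3])]),
  (1, 7, [(0, [0], [0, 1]), (1, [], [0, 2]), (1, [], [1, 2]), (4, [], [3]), (0, [0], [4, 5]), (1, [], [4, 6]), (1, [], [3, 6]), (4, [], [5])]),
  (1, 7, [(0, [0], [0, 1]), (1, [], [0, 2]), (1, [], [1, 2]), (4, [], [3]), (0, [0], [4, 5]), (1, [], [4, 6]), (1, [], [3, 5]), (4, [], [6])]),
  (1, 7, [(0, [0], [0, 1]), (1, [], [0, 2]), (1, [], [1, 2]), (4, [], [3]), (0, [0], [4, 5]), (1, [], [4, 5]), (1, [], [3, 6]), (4, [], [6])]),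
  (1, 6, [(0, [0], [0, 1]), (1, [], [0, 2]), (1, [], [1, 2]), (4, [], [3]), (0, [0], [4, 5]), (1, [], [4, 5]), (4, [], [3])]),
  (1, 6, [(0, [0], [0, 1]), (1, [], [0, 2]), (1, [], [1, 2]), (4, [], [3]), (0, [0], [4, 5]), (1, [], [3, 4]), (4, [], [5])]),
  (1, 7, [(0, [0], [0, 1]), (1, [], [0, 2]), (1, [], [1, 2]), (4, [], [3]), (0, [0], [3, 4]), (1, [], [5, 6]), (1, [], [5, 6]), (4, [], [4])]),
  (1, 7, [(0, [0], [0, 1]), (1, [], [0, 2]), (1, [], [3, 2]), (4, [], [1]), (0, [0], [4, 5]), (1, [], [4, 6]), (1, [], [3, 6]), (4, [], [5])]),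
  (1, 7, [(0, [0], [0, 1]), (1, [], [0, 2]), (1, [], [3, 2]), (4, [], [1]), (0, [0], [4, 5]), (1, [], [4, 6]), (1, [], [3, 5]), (4, [], [6])]),
  (1, 7, [(0, [0], [0, 1]), (1, [], [0, 2]), (1, [], [3, 2]), (4, [], [1]), (0, [0], [4, 5]), (1, [], [4, 5]), (1, [], [3, 6]), (4, [], [6])]),
  (1, 6, [(0, [0], [0, 1]), (1, [], [0, 2]), (1, [], [3, 2]), (4, [], [1]), (0, [0], [4, 5]), (1, [], [3, 4]), (4, [], [5])]),
  (1, 7, [(0, [0], [0, 1]), (1, [], [0, 2]), (1, [], [3, 2]), (4, [], [1]), (0, [0], [3, 4]), (1, [], [5, 6]), (1, [], [5, 6]), (4, [], [4])]),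
  (1, 7, [(0, [0], [0, 1]), (1, [], [0, 2]), (1, [], [3, 2]), (4, [], [1]), (0, [0], [3, 4]), (1, [], [5, 6]), (1, [], [4, 5]), (4, [], [6])]),
  (1, 6, [(0, [0], [0, 1]), (1, [], [0, 2]), (1, [], [3, 2]), (4, [], [1]), (0, [0], [3, 4]), (1, [], [4, 5]), (4, [], [5])]),
  (1, 5, [(0, [0], [0, 1]), (1, [], [0, 2]), (1, [], [3, 2]), (4, [], [1]), (0, [0], [3, 4]), (4, [], [4])]),
  (1, 7, [(0, [0], [0, 1]), (1, [], [0, 2]), (1, [], [3, 1]), (4, [], [2]), (0, [0], [4, 5]), (1, [], [4, 6]), (1, [], [3, 5]), (4, [], [6])]),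
  (1, 7, [(0, [0], [0, 1]), (1, [], [0, 2]), (1, [], [3, 1]), (4, [], [2]), (0, [0], [4, 5]), (1, [], [4, 5]), (1, [], [3, 6]), (4, [], [6])]),
  (1, 6, [(0, [0], [0, 1]), (1, [], [0, 2]), (1, [], [3, 1]), (4, [], [2]), (0, [0], [4, 5]), (1, [], [4, 5]), (4, [], [3])]),
  (1, 7, [(0, [0], [0, 1]), (1, [], [0, 2]), (1, [], [3, 1]), (4, [], [2]), (0, [0], [3, 4]), (1, [], [5, 6]), (1, [], [5, 6]), (4, [], [4])]),
  (1, 7, [(0, [0], [0, 1]), (1, [], [0, 2]), (1, [], [3, 1]), (4, [], [2]), (0, [0], [3, 4]), (1, [], [5, 6]), (1, [], [4, 5]), (4, [], [6])]),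
  (1, 6, [(0, [0], [0, 1]), (1, [], [0, 2]), (1, [], [3, 1]), (4, [], [2]), (0, [0], [3, 4]), (1, [], [4, 5]), (4, [], [5])]),
  (1, 7, [(0, [0], [0, 1]), (1, [], [0, 1]), (1, [], [2, 3]), (4, [], [3]), (0, [0], [4, 5]), (1, [], [4, 5]), (1, [], [2, 6]), (4, [], [6])]),
  (1, 6, [(0, [0], [0, 1]), (1, [], [0, 1]), (1, [], [2, 3]), (4, [], [3]), (0, [0], [4, 5]), (1, [], [4, 5]), (4, [], [2])]),
  (1, 5, [(0, [0], [0, 1]), (1, [], [0, 1]), (4, [], [2]), (0, [0], [3, 4]), (1, [], [3, 4]), (4, [], [2])]),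
  (1, 6, [(0, [0], [0, 1]), (1, [], [2, 0]), (4, [], [1]), (0, [0], [2, 3]), (1, [], [4, 5]), (1, [], [3, 4]), (4, [], [5])]),
  (1, 7, [(0, [0], [0, 1]), (1, [], [2, 3]), (1, [], [2, 3]), (4, [], [1]), (0, [0], [0, 4]), (1, [], [5, 6]), (1, [], [4, 5]), (4, [], [6])]),
  (1, 7, [(0, [0], [0, 1]), (1, [], [2, 3]), (1, [], [1, 2]), (4, [], [3]), (0, [0], [0, 4]), (1, [], [5, 6]), (1, [], [4, 5]), (4, [], [6])]),
  (1, 6, [(0, [0], [0, 1]), (1, [], [2, 3]), (1, [], [1, 2]), (4, [], [3]), (0, [0], [0, 4]), (1, [], [4, 5]), (4, [], [5])]),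
  (1, 5, [(0, [0], [0, 1]), (1, [], [1, 2]), (4, [], [2]), (0, [0], [0, 3]), (1, [], [3, 4]), (4, [], [4])]),
  (3, 7, [(0, [0], [0, 1]), (0, [0], [0, 1]), (0, [1], [2, 3]), (4, [], [4]), (0, [2], [5, 6]), (0, [2], [2, 5]), (0, [1], [3, 6]), (4, [], [4])]),
  (2, 7, [(0, [0], [0, 1]), (0, [0], [0, 1]), (0, [1], [2, 3]), (4, [], [4]), (0, [1], [2, 5]), (1, [], [5, 6]), (1, [], [3, 4]), (4, [], [6])]),
  (2, 7, [(0, [0], [0, 1]), (0, [0], [0, 1]), (0, [1], [2, 3]), (4, [], [4]), (0, [1], [2, 5]), (1, [], [4, 6]), (1, [], [3, 5]), (4, [], [6])]),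
  (2, 6, [(0, [0], [0, 1]), (0, [0], [0, 1]), (0, [1], [2, 3]), (4, [], [4]), (0, [1], [2, 5]), (1, [], [3, 5]), (4, [], [4])]),
  (3, 7, [(0, [0], [0, 1]), (0, [0], [2, 0]), (0, [1], [3, 1]), (4, [], [4]), (0, [2], [5, 6]), (0, [2], [2, 5]), (0, [1], [3, 6]), (4, [], [4])]),
  (3, 7, [(0, [0], [0, 1]), (0, [0], [2, 0]), (0, [1], [3, 1]), (4, [], [4]), (0, [2], [5, 6]), (0, [2], [3, 5]), (0, [1], [2, 6]), (4, [], [4])]),
  (3, 7, [(0, [0], [0, 1]), (0, [0], [2, 0]), (0, [1], [3, 1]), (4, [], [4]), (0, [2], [5, 6]), (0, [2], [4, 5]), (0, [1], [2, 3]), (4, [], [6])]),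
  (3, 7, [(0, [0], [0, 1]), (0, [0], [2, 0]), (0, [1], [3, 1]), (4, [], [4]), (0, [2], [5, 6]), (0, [2], [2, 3]), (0, [1], [5, 6]), (4, [], [4])]),
  (3, 7, [(0, [0], [0, 1]), (0, [0], [2, 0]), (0, [1], [3, 1]), (4, [], [4]), (0, [2], [5, 6]), (0, [2], [2, 3]), (0, [1], [4, 5]), (4, [], [6])]),
  (3, 7, [(0, [0], [0, 1]), (0, [0], [2, 0]), (0, [1], [3, 1]), (4, [], [4]), (0, [2], [5, 6]), (0, [2], [3, 4]), (0, [1], [2, 5]), (4, [], [6])]),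
  (3, 7, [(0, [0], [0, 1]), (0, [0], [2, 0]), (0, [1], [3, 1]), (4, [], [4]), (0, [2], [2, 5]), (0, [2], [3, 6]), (0, [1], [5, 6]), (4, [], [4])]),
  (3, 7, [(0, [0], [0, 1]), (0, [0], [2, 0]), (0, [1], [3, 1]), (4, [], [4]), (0, [2], [3, 5]), (0, [2], [2, 6]), (0, [1], [4, 6]), (4, [], [5])]),
  (3, 7, [(0, [0], [0, 1]), (0, [0], [2, 0]), (0, [1], [3, 1]), (4, [], [4]), (0, [2], [4, 5]), (0, [2], [2, 6]), (0, [1], [3, 6]), (4, [], [5])]),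
  (3, 7, [(0, [0], [0, 1]), (0, [0], [2, 0]), (0, [1], [3, 1]), (4, [], [4]), (0, [2], [4, 5]), (0, [2], [3, 6]), (0, [1], [2, 6]), (4, [], [5])]),
  (2, 7, [(0, [0], [0, 1]), (0, [0], [2, 0]), (0, [1], [3, 1]), (4, [], [4]), (0, [1], [5, 6]), (1, [], [5, 6]), (1, [], [2, 3]), (4, [], [4])]),
  (2, 7, [(0, [0], [0, 1]), (0, [0], [2, 0]), (0, [1], [3, 1]), (4, [], [4]), (0, [1], [5, 6]), (1, [], [2, 5]), (1, [], [3, 6]), (4, [], [4])]),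
  (2, 7, [(0, [0], [0, 1]), (0, [0], [2, 0]), (0, [1], [3, 1]), (4, [], [4]), (0, [1], [5, 6]), (1, [], [2, 5]), (1, [], [3, 4]), (4, [], [6])]),
  (2, 7, [(0, [0], [0, 1]), (0, [0], [2, 0]), (0, [1], [3, 1]), (4, [], [4]), (0, [1], [5, 6]), (1, [], [3, 5]), (1, [], [2, 4]), (4, [], [6])]),
  (2, 7, [(0, [0], [0, 1]), (0, [0], [2, 0]), (0, [1], [3, 1]), (4, [], [4]), (0, [1], [5, 6]), (1, [], [4, 5]), (1, [], [2, 3]), (4, [], [6])]),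
  (2, 7, [(0, [0], [0, 1]), (0, [0], [2, 0]), (0, [1], [3, 1]), (4, [], [4]), (0, [1], [2, 5]), (1, [], [5, 6]), (1, [], [3, 4]), (4, [], [6])]),
  (2, 7, [(0, [0], [0, 1]), (0, [0], [2, 0]), (0, [1], [3, 1]), (4, [], [4]), (0, [1], [3, 5]), (1, [], [5, 6]), (1, [], [2, 4]), (4, [], [6])]),
  (2, 7, [(0, [0], [0, 1]), (0, [0], [2, 0]), (0, [1], [3, 1]), (4, [], [4]), (0, [1], [2, 5]), (1, [], [4, 6]), (1, [], [3, 5]), (4, [], [6])]),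
  (2, 7, [(0, [0], [0, 1]), (0, [0], [2, 0]), (0, [1], [3, 1]), (4, [], [4]), (0, [1], [3, 5]), (1, [], [4, 6]), (1, [], [2, 5]), (4, [], [6])]),
  (2, 6, [(0, [0], [0, 1]), (0, [0], [2, 0]), (0, [1], [3, 1]), (4, [], [4]), (0, [1], [2, 5]), (1, [], [3, 5]), (4, [], [4])]),
  (2, 6, [(0, [0], [0, 1]), (0, [0], [2, 0]), (0, [1], [3, 1]), (4, [], [4]), (0, [1], [3, 5]), (1, [], [2, 5]), (4, [], [4])]),
  (2, 6, [(0, [0], [0, 1]), (0, [0], [2, 0]), (0, [1], [3, 1]), (4, [], [4]), (0, [1], [4, 5]), (1, [], [2, 3]), (4, [], [5])]),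
  (3, 7, [(0, [0], [0, 1]), (0, [0], [2, 0]), (0, [1], [3, 4]), (4, [], [1]), (0, [2], [5, 6]), (0, [2], [3, 4]), (0, [1], [5, 6]), (4, [], [2])]),
  (3, 7, [(0, [0], [0, 1]), (0, [0], [2, 0]), (0, [1], [3, 4]), (4, [], [1]), (0, [2], [3, 5]), (0, [2], [4, 6]), (0, [1], [5, 6]), (4, [], [2])]),
  (2, 7, [(0, [0], [0, 1]), (0, [0], [2, 0]), (0, [1], [3, 4]), (4, [], [1]), (0, [1], [5, 6]), (1, [], [5, 6]), (1, [], [3, 4]), (4, [], [2])]),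
  (2, 7, [(0, [0], [0, 1]), (0, [0], [2, 0]), (0, [1], [3, 4]), (4, [], [1]), (0, [1], [5, 6]), (1, [], [2, 5]), (1, [], [3, 6]), (4, [], [4])]),
  (2, 7, [(0, [0], [0, 1]), (0, [0], [2, 0]), (0, [1], [3, 4]), (4, [], [1]), (0, [1], [5, 6]), (1, [], [3, 5]), (1, [], [4, 6]), (4, [], [2])]),
  (2, 7, [(0, [0], [0, 1]), (0, [0], [2, 0]), (0, [1], [3, 4]), (4, [], [1]), (0, [1], [3, 5]), (1, [], [5, 6]), (1, [], [2, 4]), (4, [], [6])]),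
  (2, 7, [(0, [0], [0, 1]), (0, [0], [2, 0]), (0, [1], [3, 4]), (4, [], [1]), (0, [1], [3, 5]), (1, [], [2, 6]), (1, [], [4, 5]), (4, [], [6])]),
  (2, 6, [(0, [0], [0, 1]), (0, [0], [2, 0]), (0, [1], [3, 4]), (4, [], [1]), (0, [1], [3, 5]), (1, [], [2, 5]), (4, [], [4])]),
  (2, 6, [(0, [0], [0, 1]), (0, [0], [2, 0]), (0, [1], [3, 4]), (4, [], [1]), (0, [1], [3, 5]), (1, [], [4, 5]), (4, [], [2])]),
  (3, 7, [(0, [0], [0, 1]), (0, [0], [2, 3]), (0, [1], [0, 1]), (4, [], [4]), (0, [2], [5, 6]), (0, [2], [2, 4]), (0, [1], [3, 5]), (4, [], [6])]),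
  (3, 7, [(0, [0], [0, 1]), (0, [0], [2, 3]), (0, [1], [0, 1]), (4, [], [4]), (0, [2], [2, 5]), (0, [2], [3, 6]), (0, [1], [5, 6]), (4, [], [4])]),
  (3, 7, [(0, [0], [0, 1]), (0, [0], [2, 3]), (0, [1], [0, 1]), (4, [], [4]), (0, [2], [4, 5]), (0, [2], [2, 6]), (0, [1], [3, 6]), (4, [], [5])]),
  (2, 7, [(0, [0], [0, 1]), (0, [0], [2, 3]), (0, [1], [0, 1]), (4, [], [4]), (0, [1], [2, 5]), (1, [], [5, 6]), (1, [], [3, 4]), (4, [], [6])]),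
  (2, 7, [(0, [0], [0, 1]), (0, [0], [2, 3]), (0, [1], [0, 1]), (4, [], [4]), (0, [1], [2, 5]), (1, [], [4, 6]), (1, [], [3, 5]), (4, [], [6])]),
  (2, 6, [(0, [0], [0, 1]), (0, [0], [2, 3]), (0, [1], [0, 1]), (4, [], [4]), (0, [1], [2, 5]), (1, [], [3, 5]), (4, [], [4])]),
  (3, 7, [(0, [0], [0, 1]), (0, [0], [2, 3]), (0, [1], [4, 0]), (4, [], [1]), (0, [2], [5, 6]), (0, [2], [2, 4]), (0, [1], [3, 5]), (4, [], [6])]),
  (3, 7, [(0, [0], [0, 1]), (0, [0], [2, 3]), (0, [1], [4, 0]), (4, [], [1]), (0, [2], [2, 5]), (0, [2], [3, 6]), (0, [1], [5, 6]), (4, [], [4])]),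
  (3, 7, [(0, [0], [0, 1]), (0, [0], [2, 3]), (0, [1], [4, 0]), (4, [], [1]), (0, [2], [2, 5]), (0, [2], [4, 6]), (0, [1], [5, 6]), (4, [], [3])]),
  (3, 7, [(0, [0], [0, 1]), (0, [0], [2, 3]), (0, [1], [4, 0]), (4, [], [1]), (0, [2], [2, 5]), (0, [2], [4, 6]), (0, [1], [3, 6]), (4, [], [5])]),
  (3, 7, [(0, [0], [0, 1]), (0, [0], [2, 3]), (0, [1], [4, 0]), (4, [], [1]), (0, [2], [4, 5]), (0, [2], [2, 6]), (0, [1], [3, 6]), (4, [], [5])]),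
  (2, 7, [(0, [0], [0, 1]), (0, [0], [2, 3]), (0, [1], [4, 0]), (4, [], [1]), (0, [1], [5, 6]), (1, [], [5, 6]), (1, [], [2, 4]), (4, [], [3])]),
  (2, 7, [(0, [0], [0, 1]), (0, [0], [2, 3]), (0, [1], [4, 0]), (4, [], [1]), (0, [1], [5, 6]), (1, [], [2, 5]), (1, [], [3, 6]), (4, [], [4])]),
  (2, 7, [(0, [0], [0, 1]), (0, [0], [2, 3]), (0, [1], [4, 0]), (4, [], [1]), (0, [1], [5, 6]), (1, [], [2, 5]), (1, [], [4, 6]), (4, [], [3])]),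
  (2, 7, [(0, [0], [0, 1]), (0, [0], [2, 3]), (0, [1], [4, 0]), (4, [], [1]), (0, [1], [5, 6]), (1, [], [2, 5]), (1, [], [3, 4]), (4, [], [6])]),
  (2, 7, [(0, [0], [0, 1]), (0, [0], [2, 3]), (0, [1], [4, 0]), (4, [], [1]), (0, [1], [2, 5]), (1, [], [5, 6]), (1, [], [3, 4]), (4, [], [6])]),
  (2, 7, [(0, [0], [0, 1]), (0, [0], [2, 3]), (0, [1], [4, 0]), (4, [], [1]), (0, [1], [2, 5]), (1, [], [3, 6]), (1, [], [4, 5]), (4, [], [6])]),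
  (2, 7, [(0, [0], [0, 1]), (0, [0], [2, 3]), (0, [1], [4, 0]), (4, [], [1]), (0, [1], [2, 5]), (1, [], [4, 6]), (1, [], [3, 5]), (4, [], [6])]),
  (2, 6, [(0, [0], [0, 1]), (0, [0], [2, 3]), (0, [1], [4, 0]), (4, [], [1]), (0, [1], [2, 5]), (1, [], [3, 5]), (4, [], [4])]),
  (3, 7, [(0, [0], [0, 1]), (0, [0], [2, 3]), (0, [1], [1, 3]), (4, [], [4]), (0, [2], [0, 5]), (0, [2], [2, 6]), (0, [1], [5, 6]), (4, [], [4])]),
  (3, 7, [(0, [0], [0, 1]), (0, [0], [2, 3]), (0, [1], [1, 3]), (4, [], [4]), (0, [2], [4, 5]), (0, [2], [0, 6]), (0, [1], [2, 6]), (4, [], [5])]),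
  (2, 7, [(0, [0], [0, 1]), (0, [0], [2, 3]), (0, [1], [1, 3]), (4, [], [4]), (0, [1], [5, 6]), (1, [], [5, 6]), (1, [], [0, 2]), (4, [], [4])]),
  (2, 7, [(0, [0], [0, 1]), (0, [0], [2, 3]), (0, [1], [1, 3]), (4, [], [4]), (0, [1], [5, 6]), (1, [], [0, 5]), (1, [], [2, 6]), (4, [], [4])]),
  (2, 7, [(0, [0], [0, 1]), (0, [0], [2, 3]), (0, [1], [1, 3]), (4, [], [4]), (0, [1], [5, 6]), (1, [], [0, 5]), (1, [], [2, 4]), (4, [], [6])]),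
  (2, 7, [(0, [0], [0, 1]), (0, [0], [2, 3]), (0, [1], [1, 3]), (4, [], [4]), (0, [1], [5, 6]), (1, [], [4, 5]), (1, [], [0, 2]), (4, [], [6])]),
  (2, 7, [(0, [0], [0, 1]), (0, [0], [2, 3]), (0, [1], [1, 3]), (4, [], [4]), (0, [1], [0, 5]), (1, [], [5, 6]), (1, [], [2, 4]), (4, [], [6])]),
  (2, 7, [(0, [0], [0, 1]), (0, [0], [2, 3]), (0, [1], [1, 3]), (4, [], [4]), (0, [1], [0, 5]), (1, [], [4, 6]), (1, [], [2, 5]), (4, [], [6])]),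
  (2, 6, [(0, [0], [0, 1]), (0, [0], [2, 3]), (0, [1], [1, 3]), (4, [], [4]), (0, [1], [0, 5]), (1, [], [2, 5]), (4, [], [4])]),
  (2, 6, [(0, [0], [0, 1]), (0, [0], [2, 3]), (0, [1], [1, 3]), (4, [], [4]), (0, [1], [4, 5]), (1, [], [0, 2]), (4, [], [5])]),
  (2, 7, [(0, [0], [0, 1]), (0, [0], [2, 3]), (0, [1], [4, 3]), (4, [], [1]), (0, [1], [5, 6]), (1, [], [5, 6]), (1, [], [2, 4]), (4, [], [0])]),
  (2, 7, [(0, [0], [0, 1]), (0, [0], [2, 3]), (0, [1], [4, 3]), (4, [], [1]), (0, [1], [5, 6]), (1, [], [2, 5]), (1, [], [4, 6]), (4, [], [0])]),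
  (2, 7, [(0, [0], [0, 1]), (0, [0], [2, 3]), (0, [1], [4, 3]), (4, [], [1]), (0, [1], [5, 6]), (1, [], [0, 5]), (1, [], [2, 4]), (4, [], [6])]),
  (2, 7, [(0, [0], [0, 1]), (0, [0], [2, 3]), (0, [1], [4, 3]), (4, [], [1]), (0, [1], [5, 6]), (1, [], [2, 5]), (1, [], [0, 4]), (4, [], [6])]),
  (2, 7, [(0, [0], [0, 1]), (0, [0], [2, 3]), (0, [1], [4, 3]), (4, [], [1]), (0, [1], [5, 6]), (1, [], [4, 5]), (1, [], [0, 2]), (4, [], [6])]),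
  (2, 7, [(0, [0], [0, 1]), (0, [0], [2, 1]), (0, [1], [3, 4]), (4, [], [4]), (0, [1], [5, 6]), (1, [], [5, 6]), (1, [], [0, 2]), (4, [], [3])]),
  (2, 7, [(0, [0], [0, 1]), (0, [0], [2, 1]), (0, [1], [3, 4]), (4, [], [4]), (0, [1], [5, 6]), (1, [], [0, 5]), (1, [], [2, 6]), (4, [], [3])]),
  (2, 7, [(0, [0], [0, 1]), (0, [0], [2, 1]), (0, [1], [3, 4]), (4, [], [4]), (0, [1], [5, 6]), (1, [], [0, 5]), (1, [], [2, 3]), (4, [], [6])]),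
  (2, 7, [(0, [0], [0, 1]), (0, [0], [2, 1]), (0, [1], [3, 4]), (4, [], [4]), (0, [1], [5, 6]), (1, [], [3, 5]), (1, [], [0, 2]), (4, [], [6])]),
  (1, 7, [(0, [0], [0, 1]), (1, [], [2, 0]), (1, [], [3, 1]), (4, [], [4]), (0, [0], [5, 6]), (1, [], [2, 5]), (1, [], [3, 6]), (4, [], [4])]),
  (1, 7, [(0, [0], [0, 1]), (1, [], [2, 0]), (1, [], [3, 1]), (4, [], [4]), (0, [0], [5, 6]), (1, [], [4, 5]), (1, [], [2, 3]), (4, [], [6])]),
  (1, 7, [(0, [0], [0, 1]), (1, [], [2, 0]), (1, [], [3, 1]), (4, [], [4]), (0, [0], [2, 5]), (1, [], [5, 6]), (1, [], [3, 6]), (4, [], [4])]),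
  (1, 7, [(0, [0], [0, 1]), (1, [], [2, 0]), (1, [], [3, 1]), (4, [], [4]), (0, [0], [2, 5]), (1, [], [3, 6]), (1, [], [4, 6]), (4, [], [5])]),
  (1, 7, [(0, [0], [0, 1]), (1, [], [2, 0]), (1, [], [3, 1]), (4, [], [4]), (0, [0], [4, 5]), (1, [], [2, 6]), (1, [], [3, 6]), (4, [], [5])]),
  (1, 7, [(0, [0], [0, 1]), (1, [], [2, 0]), (1, [], [3, 1]), (4, [], [4]), (0, [0], [2, 5]), (1, [], [4, 6]), (1, [], [3, 5]), (4, [], [6])]),
  (1, 6, [(0, [0], [0, 1]), (1, [], [2, 0]), (1, [], [3, 1]), (4, [], [4]), (0, [0], [2, 5]), (1, [], [3, 5]), (4, [], [4])]),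
  (1, 6, [(0, [0], [0, 1]), (1, [], [2, 0]), (1, [], [3, 1]), (4, [], [4]), (0, [0], [4, 5]), (1, [], [2, 3]), (4, [], [5])]),
  (1, 7, [(0, [0], [0, 1]), (1, [], [2, 0]), (1, [], [3, 1]), (4, [], [4]), (0, [0], [2, 3]), (1, [], [5, 6]), (1, [], [5, 6]), (4, [], [4])]),
  (1, 7, [(0, [0], [0, 1]), (1, [], [2, 0]), (1, [], [3, 1]), (4, [], [4]), (0, [0], [2, 3]), (1, [], [5, 6]), (1, [], [4, 5]), (4, [], [6])]),
  (1, 7, [(0, [0], [0, 1]), (1, [], [1, 2]), (1, [], [3, 2]), (4, [], [4]), (0, [0], [0, 5]), (1, [], [5, 6]), (1, [], [3, 6]), (4, [], [4])]),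
  (1, 7, [(0, [0], [0, 1]), (1, [], [1, 2]), (1, [], [3, 2]), (4, [], [4]), (0, [0], [0, 5]), (1, [], [5, 6]), (1, [], [3, 4]), (4, [], [6])]),
  (1, 7, [(0, [0], [0, 1]), (1, [], [1, 2]), (1, [], [3, 2]), (4, [], [4]), (0, [0], [0, 5]), (1, [], [3, 6]), (1, [], [4, 6]), (4, [], [5])]),
  (1, 7, [(0, [0], [0, 1]), (1, [], [1, 2]), (1, [], [3, 2]), (4, [], [4]), (0, [0], [0, 5]), (1, [], [4, 6]), (1, [], [3, 5]), (4, [], [6])]),
  (1, 6, [(0, [0], [0, 1]), (1, [], [1, 2]), (1, [], [3, 2]), (4, [], [4]), (0, [0], [0, 5]), (1, [], [3, 5]), (4, [], [4])]),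
  (1, 6, [(0, [0], [0, 1]), (1, [], [1, 2]), (1, [], [3, 2]), (4, [], [4]), (0, [0], [0, 5]), (1, [], [3, 4]), (4, [], [5])]),
  (1, 7, [(0, [0], [0, 1]), (1, [], [1, 2]), (1, [], [3, 2]), (4, [], [4]), (0, [0], [0, 3]), (1, [], [5, 6]), (1, [], [5, 6]), (4, [], [4])]),
  (1, 7, [(0, [0], [0, 1]), (1, [], [1, 2]), (1, [], [3, 2]), (4, [], [4]), (0, [0], [0, 3]), (1, [], [5, 6]), (1, [], [4, 5]), (4, [], [6])]),
  (1, 6, [(0, [0], [0, 1]), (1, [], [1, 2]), (1, [], [3, 2]), (4, [], [4]), (0, [0], [0, 3]), (1, [], [4, 5]), (4, [], [5])]),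
  (1, 5, [(0, [0], [0, 1]), (1, [], [1, 2]), (1, [], [3, 2]), (4, [], [4]), (0, [0], [0, 3]), (4, [], [4])]),
  (1, 7, [(0, [0], [0, 1]), (1, [], [1, 2]), (1, [], [3, 4]), (4, [], [2]), (0, [0], [0, 5]), (1, [], [5, 6]), (1, [], [3, 4]), (4, [], [6])]),
  (1, 7, [(0, [0], [0, 1]), (1, [], [2, 3]), (1, [], [4, 3]), (4, [], [1]), (0, [0], [0, 5]), (1, [], [2, 6]), (1, [], [4, 6]), (4, [], [5])]),
  (1, 7, [(0, [0], [0, 1]), (1, [], [2, 3]), (1, [], [4, 1]), (4, [], [3]), (0, [0], [0, 4]), (1, [], [5, 6]), (1, [], [5, 6]), (4, [], [2])]),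
  (1, 7, [(0, [0], [0, 1]), (1, [], [2, 3]), (1, [], [4, 1]), (4, [], [3]), (0, [0], [0, 4]), (1, [], [5, 6]), (1, [], [2, 5]), (4, [], [6])]),
  (1, 6, [(0, [0], [0, 1]), (1, [], [2, 3]), (1, [], [4, 1]), (4, [], [3]), (0, [0], [0, 4]), (1, [], [2, 5]), (4, [], [5])]),
  (1, 6, [(0, [0], [0, 1]), (1, [], [2, 1]), (4, [], [3]), (0, [0], [0, 2]), (1, [], [4, 5]), (1, [], [4, 5]), (4, [], [3])]),
  (1, 7, [(0, [0], [0, 1]), (1, [], [2, 3]), (1, [], [4, 2]), (4, [], [3]), (0, [0], [0, 1]), (1, [], [5, 6]), (1, [], [4, 5]), (4, [], [6])]),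
  (2, 7, [(0, [0], [0, 1]), (0, [0], [2, 1]), (0, [1], [3, 4]), (4, [], [5]), (0, [1], [3, 6]), (1, [], [0, 6]), (1, [], [2, 4]), (4, [], [5])]),
  (2, 7, [(0, [0], [0, 1]), (0, [0], [2, 1]), (0, [1], [3, 4]), (4, [], [5]), (0, [1], [3, 6]), (1, [], [4, 6]), (1, [], [0, 2]), (4, [], [5])]),
  (3, 7, [(0, [0], [0, 1]), (0, [0], [2, 3]), (0, [1], [4, 1]), (4, [], [5]), (0, [2], [0, 6]), (0, [2], [2, 4]), (0, [1], [3, 6]), (4, [], [5])]),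
  (3, 7, [(0, [0], [0, 1]), (0, [0], [2, 3]), (0, [1], [4, 1]), (4, [], [5]), (0, [2], [2, 6]), (0, [2], [0, 4]), (0, [1], [3, 6]), (4, [], [5])]),
  (2, 7, [(0, [0], [0, 1]), (0, [0], [2, 3]), (0, [1], [4, 1]), (4, [], [5]), (0, [1], [2, 6]), (1, [], [0, 6]), (1, [], [3, 4]), (4, [], [5])]),
  (2, 7, [(0, [0], [0, 1]), (0, [0], [2, 3]), (0, [1], [4, 1]), (4, [], [5]), (0, [1], [2, 6]), (1, [], [3, 6]), (1, [], [0, 4]), (4, [], [5])]),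
  (2, 7, [(0, [0], [0, 1]), (0, [0], [2, 3]), (0, [1], [4, 1]), (4, [], [5]), (0, [1], [2, 6]), (1, [], [4, 6]), (1, [], [0, 3]), (4, [], [5])])]

def kl8 : List ℕ := [3, 4, 10, 14, 19, 20, 22, 25, 31, 36, 42, 45, 50, 55, 57, 58, 64, 69, 70, 72, 73, 74, 75, 76, 77, 78, 83, 84, 85, 86, 87, 88, 89, 90, 92, 94, 95, 96, 97, 98, 101, 102, 103, 104, 109, 110, 111, 112, 115, 118, 119, 120, 123, 125, 126, 129, 132, 133, 136, 137, 138, 139, 142, 144, 146, 147, 152, 153, 154, 155, 156, 157, 159, 162, 163, 164, 165, 167, 168, 169, 170, 172, 173, 174, 176, 177, 178, 181, 182, 185, 189, 196, 197, 198, 200, 204, 210, 211, 212, 216, 217, 218, 219, 220, 221, 222, 223, 224, 225, 226, 227, 228, 229, 230, 233, 234, 236, 237, 238, 239, 240, 252, 253, 254, 255, 256, 259, 260, 261, 262, 267, 268, 269, 273, 274, 275, 284, 285, 286, 287, 288, 289, 290, 291, 292, 295, 297, 298, 299,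 302, 303, 304, 305, 306, 307, 309, 311, 312, 313, 323, 324, 325, 326, 327, 332, 333, 334, 335, 345, 346, 347, 348, 349, 350, 351, 352, 355, 356, 366, 367, 368, 369, 370, 371, 375, 376, 377, 378, 382, 387, 394, 395, 396, 403, 417, 422, 423, 429, 430, 431, 432, 433]

def m8_0 : Base := (1, 1, [(0, [1], [0, 5]), (0, [1], [1, 5]), (0, [0], [2, 3]), (4, [], [4])])

def l8_0 : Cov := [(96, 1, 1, [(0, [1], [0, 5]), (0, [1], [1, 5]), (0, [0], [2, 3]), (4, [], [4])]),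
  (-96, 1, 1, [(0, [1], [0, 5]), (0, [1], [1, 5]), (0, [0], [3, 4]), (4, [], [2])]),
  (-96, 1, 1, [(0, [1], [0, 5]), (0, [1], [3, 5]), (0, [0], [1, 2]), (4, [], [4])]),
  (96, 1, 1, [(0, [1], [0, 5]), (0, [1], [3, 5]), (0, [0], [1, 4]), (4, [], [2])]),
  (-96, 1, 1, [(0, [1], [1, 5]), (0, [1], [2, 5]), (0, [0], [0, 3]), (4, [], [4])]),
  (96, 1, 1, [(0, [1], [1, 5]), (0, [1], [2, 5]), (0, [0], [3, 4]), (4, [], [0])]),
  (96, 1, 1, [(0, [1], [1, 5]), (0, [1], [4, 5]), (0, [0], [0, 3]), (4, [], [2])]),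
  (-96, 1, 1, [(0, [1], [1, 5]), (0, [1], [4, 5]), (0, [0], [2, 3]), (4, [], [0])]),
  (96, 1, 1, [(0, [1], [2, 5]), (0, [1], [3, 5]), (0, [0], [0, 1]), (4, [], [4])]),
  (-96, 1, 1, [(0, [1], [2, 5]), (0, [1], [3, 5]), (0, [0], [1, 4]), (4, [], [0])]),
  (-96, 1, 1, [(0, [1], [3, 5]), (0, [1], [4, 5]), (0, [0], [0, 1]), (4, [], [2])]),
  (96, 1, 1, [(0, [1], [3, 5]), (0, [1], [4, 5]), (0, [0], [1, 2]), (4, [], [0])])]

def z8_0 : Cov := [(0, 1, 1, [(0, [1], [0, 5]), (0, [1], [1, 5]), (0, [0], [2, 4]), (4, [], [3])]),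
  (0, 1, 1, [(0, [1], [0, 5]), (0, [1], [2, 5]), (0, [0], [1, 3]), (4, [], [4])]),
  (0, 1, 1, [(0, [1], [0, 5]), (0, [1], [2, 5]), (0, [0], [1, 4]), (4, [], [3])]),
  (0, 1, 1, [(0, [1], [0, 5]), (0, [1], [2, 5]), (0, [0], [3, 4]), (4, [], [1])]),
  (0, 1, 1, [(0, [1], [0, 5]), (0, [1], [3, 5]), (0, [0], [2, 4]), (4, [], [1])]),
  (0, 1, 1, [(0, [1], [0, 5]), (0, [1], [4, 5]), (0, [0], [1, 2]), (4, [], [3])]),
  (0, 1, 1, [(0, [1], [0, 5]), (0, [1], [4, 5]), (0, [0], [1, 3]), (4, [], [2])]),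
  (0, 1, 1, [(0, [1], [0, 5]), (0, [1], [4, 5]), (0, [0], [2, 3]), (4, [], [1])]),
  (0, 1, 1, [(0, [1], [1, 5]), (0, [1], [2, 5]), (0, [0], [0, 4]), (4, [], [3])]),
  (0, 1, 1, [(0, [1], [1, 5]), (0, [1], [3, 5]), (0, [0], [0, 2]), (4, [], [4])]),
  (0, 1, 1, [(0, [1], [1, 5]), (0, [1], [3, 5]), (0, [0], [0, 4]), (4, [], [2])]),
  (0, 1, 1, [(0, [1], [1, 5]), (0, [1], [3, 5]), (0, [0], [2, 4]), (4, [], [0])]),
  (0, 1, 1, [(0, [1], [1, 5]), (0, [1], [4, 5]), (0, [0], [0, 2]), (4, [], [3])]),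
  (0, 1, 1, [(0, [1], [2, 5]), (0, [1], [3, 5]), (0, [0], [0, 4]), (4, [], [1])]),
  (0, 1, 1, [(0, [1], [2, 5]), (0, [1], [4, 5]), (0, [0], [0, 1]), (4, [], [3])]),
  (0, 1, 1, [(0, [1], [2, 5]), (0, [1], [4, 5]), (0, [0], [0, 3]), (4, [], [1])]),
  (0, 1, 1, [(0, [1], [2, 5]), (0, [1], [4, 5]), (0, [0], [1, 3]), (4, [], [0])]),
  (0, 1, 1, [(0, [1], [3, 5]), (0, [1], [4, 5]), (0, [0], [0, 2]), (4, [], [1])])]

def w8_0 : List (List Wit) := [[(0, 0, 0, 0, 0), (12, 0, 0, 0, 0), (0, 0, 0, 0, 0), (1, 0, 0, 0, 0), (12, 0, 0, 0, 0), (1, 0, 0, 0, 0), (13, 0, 0, 0, 0), (14, 0, 0, 0, 0), (13, 0, 0, 0, 0), (15, 0, 0, 0, 0), (14, 0, 0, 0, 0), (15, 0, 0, 0, 0), (2, 0, 0, 0, 0), (3, 0, 0, 0, 0), (2, 0, 0, 0, 0), (16, 0, 0, 0, 0), (3, 0, 0, 0, 0), (16, 0, 0, 0, 0), (17, 0, 0, 0, 0), (18, 0, 0, 0, 0), (17, 0, 0, 0, 0), (19, 0, 0, 0, 0), (18, 0, 0, 0, 0), (19, 0, 0, 0, 0),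 (0, 0, 0, 0, 0), (12, 0, 0, 0, 0), (0, 0, 0, 0, 0), (1, 0, 0, 0, 0), (12, 0, 0, 0, 0), (1, 0, 0, 0, 0), (4, 0, 0, 0, 0), (20, 0, 0, 0, 0), (4, 0, 0, 0, 0), (5, 0, 0, 0, 0), (20, 0, 0, 0, 0), (5, 0, 0, 0, 0), (21, 0, 0, 0, 0), (22, 0, 0, 0, 0), (21, 0, 0, 0, 0), (23, 0, 0, 0, 0), (22, 0, 0, 0, 0), (23, 0, 0, 0, 0), (24, 0, 0, 0, 0), (6, 0, 0, 0, 0), (24, 0, 0, 0, 0), (7, 0, 0, 0, 0), (6, 0, 0, 0, 0), (7, 0, 0, 0, 0), (13, 0, 0, 0, 0), (14, 0, 0, 0, 0), (13, 0, 0, 0, 0), (15, 0, 0, 0, 0), (14, 0, 0, 0, 0), (15, 0, 0, 0, 0), (4, 0, 0, 0, 0), (20, 0, 0, 0, 0), (4, 0, 0, 0, 0), (5, 0, 0, 0, 0), (20, 0, 0, 0, 0), (5, 0, 0, 0, 0), (8, 0, 0, 0, 0), (25, 0, 0, 0, 0), (8, 0, 0, 0, 0), (9, 0, 0, 0, 0), (25, 0, 0, 0, 0), (9, 0, 0, 0, 0), (26, 0, 0, 0, 0), (27, 0, 0, 0, 0), (26, 0, 0, 0, 0), (28, 0, 0, 0, 0), (27, 0, 0, 0, 0), (28, 0, 0, 0, 0), (2, 0, 0, 0, 0), (3, 0, 0,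 0, 0), (2, 0, 0, 0, 0), (16, 0, 0, 0, 0), (3, 0, 0, 0, 0), (16, 0, 0, 0, 0), (21, 0, 0, 0, 0), (22, 0, 0, 0, 0), (21, 0, 0, 0, 0), (23, 0, 0, 0, 0), (22, 0, 0, 0, 0), (23, 0, 0, 0, 0), (8, 0, 0, 0, 0), (25, 0, 0, 0, 0), (8, 0, 0, 0, 0), (9, 0, 0, 0, 0), (25, 0, 0, 0, 0), (9, 0, 0, 0, 0), (10, 0, 0, 0, 0), (29, 0, 0, 0, 0), (10, 0, 0, 0, 0), (11, 0, 0, 0, 0), (29, 0, 0, 0, 0), (11, 0, 0, 0, 0), (17, 0, 0, 0, 0), (18, 0, 0, 0, 0), (17, 0, 0, 0, 0), (19, 0, 0, 0, 0), (18, 0, 0, 0, 0), (19, 0, 0, 0, 0), (24, 0, 0, 0, 0), (6, 0, 0, 0, 0), (24, 0, 0, 0, 0), (7, 0, 0, 0, 0), (6, 0, 0, 0, 0), (7, 0, 0, 0, 0), (26, 0, 0, 0, 0), (27, 0, 0, 0, 0), (26, 0, 0, 0, 0), (28, 0, 0, 0, 0), (27, 0, 0, 0, 0), (28, 0, 0, 0, 0), (10, 0, 0, 0, 0), (29, 0, 0, 0, 0), (10, 0, 0, 0, 0), (11, 0, 0, 0, 0), (29, 0, 0, 0, 0), (11, 0, 0, 0, 0)]]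

def m8_1 : Base := (1, 1, [(0, [1], [0, 5]), (0, [1], [1, 2]), (0, [0], [3, 5]), (4, [], [4])])

def l8_1 : Cov := [(64, 1, 1, [(0, [1], [0, 5]), (0, [1], [1, 2]), (0, [0], [3, 5]), (4, [], [4])]),
  (32, 1, 1, [(0, [1], [0, 5]), (0, [1], [1, 2]), (0, [0], [4, 5]), (4, [], [3])]),
  (-32, 1, 1, [(0, [1], [0, 5]), (0, [1], [1, 4]), (0, [0], [2, 5]), (4, [], [3])]),
  (-64, 1, 1, [(0, [1], [0, 5]), (0, [1], [1, 4]), (0, [0], [3, 5]), (4, [], [2])]),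
  (-64, 1, 1, [(0, [1], [0, 5]), (0, [1], [2, 3]), (0, [0], [1, 5]), (4, [], [4])]),
  (-32, 1, 1, [(0, [1], [0, 5]), (0, [1], [2, 3]), (0, [0], [4, 5]), (4, [], [1])]),
  (64, 1, 1, [(0, [1], [0, 5]), (0, [1], [3, 4]), (0, [0], [1, 5]), (4, [], [2])]),
  (32, 1, 1, [(0, [1], [0, 5]), (0, [1], [3, 4]), (0, [0], [2, 5]), (4, [], [1])]),
  (32, 1, 1, [(0, [1], [1, 5]), (0, [1], [0, 3]), (0, [0], [2, 5]), (4, [], [4])]),
  (-32, 1, 1, [(0, [1], [1, 5]), (0, [1], [0, 3]), (0, [0], [4, 5]), (4, [], [2])]),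
  (-32, 1, 1, [(0, [1], [1, 5]), (0, [1], [2, 3]), (0, [0], [0, 5]), (4, [], [4])]),
  (32, 1, 1, [(0, [1], [1, 5]), (0, [1], [2, 3]), (0, [0], [4, 5]), (4, [], [0])]),
  (32, 1, 1, [(0, [1], [1, 5]), (0, [1], [3, 4]), (0, [0], [0, 5]), (4, [], [2])]),
  (-32, 1, 1, [(0, [1], [1, 5]), (0, [1], [3, 4]), (0, [0], [2, 5]), (4, [], [0])]),
  (-64, 1, 1, [(0, [1], [2, 5]), (0, [1], [0, 1]), (0, [0], [3, 5]), (4, [], [4])]),
  (-32, 1, 1, [(0, [1], [2, 5]), (0, [1], [0, 1]), (0, [0], [4, 5]), (4, [], [3])]),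
  (64, 1, 1, [(0, [1], [2, 5]), (0, [1], [0, 3]), (0, [0], [1, 5]), (4, [], [4])]),
  (32, 1, 1, [(0, [1], [2, 5]), (0, [1], [0, 3]), (0, [0], [4, 5]), (4, [], [1])]),
  (32, 1, 1, [(0, [1], [2, 5]), (0, [1], [1, 4]), (0, [0], [0, 5]), (4, [], [3])]),
  (64, 1, 1, [(0, [1], [2, 5]), (0, [1], [1, 4]), (0, [0], [3, 5]), (4, [], [0])]),
  (-32, 1, 1, [(0, [1], [2, 5]), (0, [1], [3, 4]), (0, [0], [0, 5]), (4, [], [1])]),
  (-64, 1, 1, [(0, [1], [2, 5]), (0, [1], [3, 4]), (0, [0], [1, 5]), (4, [], [0])]),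
  (-32, 1, 1, [(0, [1], [3, 5]), (0, [1], [0, 1]), (0, [0], [2, 5]), (4, [], [4])]),
  (32, 1, 1, [(0, [1], [3, 5]), (0, [1], [0, 1]), (0, [0], [4, 5]), (4, [], [2])]),
  (32, 1, 1, [(0, [1], [3, 5]), (0, [1], [1, 2]), (0, [0], [0, 5]), (4, [], [4])]),
  (-32, 1, 1, [(0, [1], [3, 5]), (0, [1], [1, 2]), (0, [0], [4, 5]), (4, [], [0])]),
  (-32, 1, 1, [(0, [1], [3, 5]), (0, [1], [1, 4]), (0, [0], [0, 5]), (4, [], [2])]),
  (32, 1, 1, [(0, [1], [3, 5]), (0, [1], [1, 4]), (0, [0], [2, 5]), (4, [], [0])]),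
  (32, 1, 1, [(0, [1], [4, 5]), (0, [1], [0, 1]), (0, [0], [2, 5]), (4, [], [3])]),
  (64, 1, 1, [(0, [1], [4, 5]), (0, [1], [0, 1]), (0, [0], [3, 5]), (4, [], [2])]),
  (-64, 1, 1, [(0, [1], [4, 5]), (0, [1], [0, 3]), (0, [0], [1, 5]), (4, [], [2])]),
  (-32, 1, 1, [(0, [1], [4, 5]), (0, [1], [0, 3]), (0, [0], [2, 5]), (4, [], [1])]),
  (-32, 1, 1, [(0, [1], [4, 5]), (0, [1], [1, 2]), (0, [0], [0, 5]), (4, [], [3])]),
  (-64, 1, 1, [(0, [1], [4, 5]), (0, [1], [1, 2]), (0, [0], [3, 5]), (4, [], [0])]),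
  (32, 1, 1, [(0, [1], [4, 5]), (0, [1], [2, 3]), (0, [0], [0, 5]), (4, [], [1])]),
  (64, 1, 1, [(0, [1], [4, 5]), (0, [1], [2, 3]), (0, [0], [1, 5]), (4, [], [0])])]

def z8_1 : Cov := [(0, 1, 1, [(0, [1], [0, 5]), (0, [1], [1, 3]), (0, [0], [2, 5]), (4, [], [4])]),
  (0, 1, 1, [(0, [1], [0, 5]), (0, [1], [1, 3]), (0, [0], [4, 5]), (4, [], [2])]),
  (0, 1, 1, [(0, [1], [0, 5]), (0, [1], [2, 4]), (0, [0], [1, 5]), (4, [], [3])]),
  (0, 1, 1, [(0, [1], [0, 5]), (0, [1], [2, 4]), (0, [0], [3, 5]), (4, [], [1])]),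
  (0, 1, 1, [(0, [1], [1, 5]), (0, [1], [0, 2]), (0, [0], [3, 5]), (4, [], [4])]),
  (0, 1, 1, [(0, [1], [1, 5]), (0, [1], [0, 2]), (0, [0], [4, 5]), (4, [], [3])]),
  (0, 1, 1, [(0, [1], [1, 5]), (0, [1], [0, 4]), (0, [0], [2, 5]), (4, [], [3])]),
  (0, 1, 1, [(0, [1], [1, 5]), (0, [1], [0, 4]), (0, [0], [3, 5]), (4, [], [2])]),
  (0, 1, 1, [(0, [1], [1, 5]), (0, [1], [2, 4]), (0, [0], [0, 5]), (4, [], [3])]),
  (0, 1, 1, [(0, [1], [1, 5]), (0, [1], [2, 4]), (0, [0], [3, 5]), (4, [], [0])]),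
  (0, 1, 1, [(0, [1], [2, 5]), (0, [1], [0, 4]), (0, [0], [1, 5]), (4, [], [3])]),
  (0, 1, 1, [(0, [1], [2, 5]), (0, [1], [0, 4]), (0, [0], [3, 5]), (4, [], [1])]),
  (0, 1, 1, [(0, [1], [2, 5]), (0, [1], [1, 3]), (0, [0], [0, 5]), (4, [], [4])]),
  (0, 1, 1, [(0, [1], [2, 5]), (0, [1], [1, 3]), (0, [0], [4, 5]), (4, [], [0])]),
  (0, 1, 1, [(0, [1], [3, 5]), (0, [1], [0, 2]), (0, [0], [1, 5]), (4, [], [4])]),
  (0, 1, 1, [(0, [1], [3, 5]), (0, [1], [0, 2]), (0, [0], [4, 5]), (4, [], [1])]),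
  (0, 1, 1, [(0, [1], [3, 5]), (0, [1], [0, 4]), (0, [0], [1, 5]), (4, [], [2])]),
  (0, 1, 1, [(0, [1], [3, 5]), (0, [1], [0, 4]), (0, [0], [2, 5]), (4, [], [1])]),
  (0, 1, 1, [(0, [1], [3, 5]), (0, [1], [2, 4]), (0, [0], [0, 5]), (4, [], [1])]),
  (0, 1, 1, [(0, [1], [3, 5]), (0, [1], [2, 4]), (0, [0], [1, 5]), (4, [], [0])]),
  (0, 1, 1, [(0, [1], [4, 5]), (0, [1], [0, 2]), (0, [0], [1, 5]), (4, [], [3])]),
  (0, 1, 1, [(0, [1], [4, 5]), (0, [1], [0, 2]), (0, [0], [3, 5]), (4, [], [1])]),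
  (0, 1, 1, [(0, [1], [4, 5]), (0, [1], [1, 3]), (0, [0], [0, 5]), (4, [], [2])]),
  (0, 1, 1, [(0, [1], [4, 5]), (0, [1], [1, 3]), (0, [0], [2, 5]), (4, [], [0])])]

def w8_1 : List (List Wit) := [[(0, 0, 0, 0, 0), (1, 0, 0, 0, 0), (36, 0, 0, 0, 0), (37, 0, 0, 0, 0), (2, 0, 0, 0, 0), (3, 0, 0, 0, 0), (0, 0, 0, 0, 0), (1, 0, 0, 0, 0), (4, 0, 0, 0, 0), (5, 0, 0, 0, 0), (38, 0, 0, 0, 0), (39, 0, 0, 0, 0), (36, 0, 0, 0, 0), (37, 0, 0, 0, 0), (4, 0, 0, 0, 0), (5, 0, 0, 0, 0), (6, 0, 0, 0, 0), (7, 0, 0, 0, 0), (2, 0, 0, 0, 0), (3, 0, 0, 0, 0), (38, 0, 0, 0, 0), (39, 0, 0, 0, 0), (6, 0, 0, 0, 0), (7, 0, 0, 0, 0), (40, 0, 0, 0, 0), (41, 0, 0, 0, 0), (8, 0, 0, 0, 0), (9, 0, 0, 0, 0), (42, 0, 0, 0, 0), (43, 0, 0, 0, 0), (40, 0, 0, 0, 0), (41, 0, 0, 0, 0), (10, 0, 0, 0, 0), (11, 0, 0, 0, 0), (44, 0, 0, 0, 0), (45, 0, 0, 0, 0), (8, 0, 0, 0, 0), (9, 0, 0, 0, 0), (10, 0,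 0, 0, 0), (11, 0, 0, 0, 0), (12, 0, 0, 0, 0), (13, 0, 0, 0, 0), (42, 0, 0, 0, 0), (43, 0, 0, 0, 0), (44, 0, 0, 0, 0), (45, 0, 0, 0, 0), (12, 0, 0, 0, 0), (13, 0, 0, 0, 0), (14, 0, 0, 0, 0), (15, 0, 0, 0, 0), (16, 0, 0, 0, 0), (17, 0, 0, 0, 0), (46, 0, 0, 0, 0), (47, 0, 0, 0, 0), (14, 0, 0, 0, 0), (15, 0, 0, 0, 0), (48, 0, 0, 0, 0), (49, 0, 0, 0, 0), (18, 0, 0, 0, 0), (19, 0, 0, 0, 0), (16, 0, 0, 0, 0), (17, 0, 0, 0, 0), (48, 0, 0, 0, 0), (49, 0, 0, 0, 0), (20, 0, 0, 0, 0), (21, 0, 0, 0, 0), (46, 0, 0, 0, 0), (47, 0, 0, 0, 0), (18, 0, 0, 0, 0), (19, 0, 0, 0, 0), (20, 0, 0, 0, 0), (21, 0, 0, 0, 0), (22, 0, 0, 0, 0), (23, 0, 0, 0, 0), (50, 0, 0, 0, 0), (51, 0, 0, 0, 0), (52, 0, 0, 0, 0), (53, 0, 0, 0, 0), (22, 0, 0, 0, 0), (23, 0, 0, 0, 0), (24, 0, 0, 0, 0), (25, 0, 0, 0, 0), (26, 0, 0, 0, 0), (27, 0, 0, 0, 0), (50, 0, 0, 0, 0), (51, 0, 0, 0, 0), (24, 0, 0, 0, 0),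 (25, 0, 0, 0, 0), (54, 0, 0, 0, 0), (55, 0, 0, 0, 0), (52, 0, 0, 0, 0), (53, 0, 0, 0, 0), (26, 0, 0, 0, 0), (27, 0, 0, 0, 0), (54, 0, 0, 0, 0), (55, 0, 0, 0, 0), (28, 0, 0, 0, 0), (29, 0, 0, 0, 0), (56, 0, 0, 0, 0), (57, 0, 0, 0, 0), (30, 0, 0, 0, 0), (31, 0, 0, 0, 0), (28, 0, 0, 0, 0), (29, 0, 0, 0, 0), (32, 0, 0, 0, 0), (33, 0, 0, 0, 0), (58, 0, 0, 0, 0), (59, 0, 0, 0, 0), (56, 0, 0, 0, 0), (57, 0, 0, 0, 0), (32, 0, 0, 0, 0), (33, 0, 0, 0, 0), (34, 0, 0, 0, 0), (35, 0, 0, 0, 0), (30, 0, 0, 0, 0), (31, 0, 0, 0, 0), (58, 0, 0, 0, 0), (59, 0, 0, 0, 0), (34, 0, 0, 0, 0), (35, 0, 0, 0, 0)]]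

def m8_2 : Base := (1, 1, [(0, [1], [0, 5]), (0, [1], [1, 2]), (0, [0], [3, 4]), (4, [], [5])])

def l8_2 : Cov := [(96, 1, 1, [(0, [1], [0, 5]), (0, [1], [1, 2]), (0, [0], [3, 4]), (4, [], [5])]),
  (-96, 1, 1, [(0, [1], [0, 5]), (0, [1], [1, 4]), (0, [0], [2, 3]), (4, [], [5])]),
  (-96, 1, 1, [(0, [1], [0, 5]), (0, [1], [2, 3]), (0, [0], [1, 4]), (4, [], [5])]),
  (96, 1, 1, [(0, [1], [0, 5]), (0, [1], [3, 4]), (0, [0], [1, 2]), (4, [], [5])]),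
  (-96, 1, 1, [(0, [1], [2, 5]), (0, [1], [0, 1]), (0, [0], [3, 4]), (4, [], [5])]),
  (96, 1, 1, [(0, [1], [2, 5]), (0, [1], [0, 3]), (0, [0], [1, 4]), (4, [], [5])]),
  (96, 1, 1, [(0, [1], [2, 5]), (0, [1], [1, 4]), (0, [0], [0, 3]), (4, [], [5])]),
  (-96, 1, 1, [(0, [1], [2, 5]), (0, [1], [3, 4]), (0, [0], [0, 1]), (4, [], [5])]),
  (96, 1, 1, [(0, [1], [4, 5]), (0, [1], [0, 1]), (0, [0], [2, 3]), (4, [], [5])]),
  (-96, 1, 1, [(0, [1], [4, 5]), (0, [1], [0, 3]), (0, [0], [1, 2]), (4, [], [5])]),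
  (-96, 1, 1, [(0, [1], [4, 5]), (0, [1], [1, 2]), (0, [0], [0, 3]), (4, [], [5])]),
  (96, 1, 1, [(0, [1], [4, 5]), (0, [1], [2, 3]), (0, [0], [0, 1]), (4, [], [5])])]

def z8_2 : Cov := [(0, 1, 1, [(0, [1], [0, 5]), (0, [1], [1, 3]), (0, [0], [2, 4]), (4, [], [5])]),
  (0, 1, 1, [(0, [1], [0, 5]), (0, [1], [2, 4]), (0, [0], [1, 3]), (4, [], [5])]),
  (0, 1, 1, [(0, [1], [1, 5]), (0, [1], [0, 2]), (0, [0], [3, 4]), (4, [], [5])]),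
  (0, 1, 1, [(0, [1], [1, 5]), (0, [1], [0, 3]), (0, [0], [2, 4]), (4, [], [5])]),
  (0, 1, 1, [(0, [1], [1, 5]), (0, [1], [0, 4]), (0, [0], [2, 3]), (4, [], [5])]),
  (0, 1, 1, [(0, [1], [1, 5]), (0, [1], [2, 3]), (0, [0], [0, 4]), (4, [], [5])]),
  (0, 1, 1, [(0, [1], [1, 5]), (0, [1], [2, 4]), (0, [0], [0, 3]), (4, [], [5])]),
  (0, 1, 1, [(0, [1], [1, 5]), (0, [1], [3, 4]), (0, [0], [0, 2]), (4, [], [5])]),
  (0, 1, 1, [(0, [1], [2, 5]), (0, [1], [0, 4]), (0, [0], [1, 3]), (4, [], [5])]),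
  (0, 1, 1, [(0, [1], [2, 5]), (0, [1], [1, 3]), (0, [0], [0, 4]), (4, [], [5])]),
  (0, 1, 1, [(0, [1], [3, 5]), (0, [1], [0, 1]), (0, [0], [2, 4]), (4, [], [5])]),
  (0, 1, 1, [(0, [1], [3, 5]), (0, [1], [0, 2]), (0, [0], [1, 4]), (4, [], [5])]),
  (0, 1, 1, [(0, [1], [3, 5]), (0, [1], [0, 4]), (0, [0], [1, 2]), (4, [], [5])]),
  (0, 1, 1, [(0, [1], [3, 5]), (0, [1], [1, 2]), (0, [0], [0, 4]), (4, [], [5])]),
  (0, 1, 1, [(0, [1], [3, 5]), (0, [1], [1, 4]), (0, [0], [0, 2]), (4, [], [5])]),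
  (0, 1, 1, [(0, [1], [3, 5]), (0, [1], [2, 4]), (0, [0], [0, 1]), (4, [], [5])]),
  (0, 1, 1, [(0, [1], [4, 5]), (0, [1], [0, 2]), (0, [0], [1, 3]), (4, [], [5])]),
  (0, 1, 1, [(0, [1], [4, 5]), (0, [1], [1, 3]), (0, [0], [0, 2]), (4, [], [5])])]

def w8_2 : List (List Wit) := [[(0, 0, 0, 0, 0), (0, 0, 0, 0, 0), (12, 0, 0, 0, 0), (12, 0, 0, 0, 0), (1, 0, 0, 0, 0), (1, 0, 0, 0, 0), (0, 0, 0, 0, 0), (0, 0, 0, 0, 0), (2, 0, 0, 0, 0), (2, 0, 0, 0, 0), (13, 0, 0, 0, 0), (13, 0, 0, 0, 0), (12, 0, 0, 0, 0), (12, 0, 0, 0, 0), (2, 0, 0, 0, 0), (2, 0, 0, 0, 0), (3, 0, 0, 0, 0), (3, 0, 0, 0, 0), (1, 0, 0, 0, 0), (1, 0, 0, 0, 0), (13, 0, 0, 0, 0), (13, 0, 0, 0, 0), (3, 0, 0, 0, 0), (3, 0, 0, 0, 0), (14, 0, 0, 0, 0), (14, 0, 0, 0, 0), (15, 0, 0, 0, 0), (15, 0, 0, 0, 0), (16, 0, 0, 0, 0), (16, 0, 0, 0, 0), (14, 0, 0, 0, 0), (14, 0, 0, 0, 0), (17, 0, 0, 0, 0), (17, 0, 0,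 0, 0), (18, 0, 0, 0, 0), (18, 0, 0, 0, 0), (15, 0, 0, 0, 0), (15, 0, 0, 0, 0), (17, 0, 0, 0, 0), (17, 0, 0, 0, 0), (19, 0, 0, 0, 0), (19, 0, 0, 0, 0), (16, 0, 0, 0, 0), (16, 0, 0, 0, 0), (18, 0, 0, 0, 0), (18, 0, 0, 0, 0), (19, 0, 0, 0, 0), (19, 0, 0, 0, 0), (4, 0, 0, 0, 0), (4, 0, 0, 0, 0), (5, 0, 0, 0, 0), (5, 0, 0, 0, 0), (20, 0, 0, 0, 0), (20, 0, 0, 0, 0), (4, 0, 0, 0, 0), (4, 0, 0, 0, 0), (21, 0, 0, 0, 0), (21, 0, 0, 0, 0), (6, 0, 0, 0, 0), (6, 0, 0, 0, 0), (5, 0, 0, 0, 0), (5, 0, 0, 0, 0), (21, 0, 0, 0, 0), (21, 0, 0, 0, 0), (7, 0, 0, 0, 0), (7, 0, 0, 0, 0), (20, 0, 0, 0, 0), (20, 0, 0, 0, 0), (6, 0, 0, 0, 0), (6, 0, 0, 0, 0), (7, 0, 0, 0, 0), (7, 0, 0, 0, 0), (22, 0, 0, 0, 0), (22, 0, 0, 0, 0), (23, 0, 0, 0, 0), (23, 0, 0, 0, 0), (24, 0, 0, 0, 0), (24, 0, 0, 0, 0), (22, 0, 0, 0, 0), (22, 0, 0, 0, 0), (25, 0, 0, 0, 0), (25, 0, 0, 0, 0), (26, 0, 0, 0, 0),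 (26, 0, 0, 0, 0), (23, 0, 0, 0, 0), (23, 0, 0, 0, 0), (25, 0, 0, 0, 0), (25, 0, 0, 0, 0), (27, 0, 0, 0, 0), (27, 0, 0, 0, 0), (24, 0, 0, 0, 0), (24, 0, 0, 0, 0), (26, 0, 0, 0, 0), (26, 0, 0, 0, 0), (27, 0, 0, 0, 0), (27, 0, 0, 0, 0), (8, 0, 0, 0, 0), (8, 0, 0, 0, 0), (28, 0, 0, 0, 0), (28, 0, 0, 0, 0), (9, 0, 0, 0, 0), (9, 0, 0, 0, 0), (8, 0, 0, 0, 0), (8, 0, 0, 0, 0), (10, 0, 0, 0, 0), (10, 0, 0, 0, 0), (29, 0, 0, 0, 0), (29, 0, 0, 0, 0), (28, 0, 0, 0, 0), (28, 0, 0, 0, 0), (10, 0, 0, 0, 0), (10, 0, 0, 0, 0), (11, 0, 0, 0, 0), (11, 0, 0, 0, 0), (9, 0, 0, 0, 0), (9, 0, 0, 0, 0), (29, 0, 0, 0, 0), (29, 0, 0, 0, 0), (11, 0, 0, 0, 0), (11, 0, 0, 0, 0)]]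

def m8_3 : Base := (1, 1, [(0, [1], [0, 5]), (0, [1], [1, 2]), (0, [0], [4, 5]), (4, [], [3])])

def l8_3 : Cov := [(64, 1, 1, [(0, [1], [0, 5]), (0, [1], [1, 2]), (0, [0], [4, 5]), (4, [], [3])]),
  (32, 1, 1, [(0, [1], [0, 5]), (0, [1], [1, 2]), (0, [0], [3, 5]), (4, [], [4])]),
  (-32, 1, 1, [(0, [1], [0, 5]), (0, [1], [1, 4]), (0, [0], [3, 5]), (4, [], [2])]),
  (-64, 1, 1, [(0, [1], [0, 5]), (0, [1], [1, 4]), (0, [0], [2, 5]), (4, [], [3])]),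
  (-64, 1, 1, [(0, [1], [0, 5]), (0, [1], [2, 3]), (0, [0], [4, 5]), (4, [], [1])]),
  (-32, 1, 1, [(0, [1], [0, 5]), (0, [1], [2, 3]), (0, [0], [1, 5]), (4, [], [4])]),
  (64, 1, 1, [(0, [1], [0, 5]), (0, [1], [3, 4]), (0, [0], [2, 5]), (4, [], [1])]),
  (32, 1, 1, [(0, [1], [0, 5]), (0, [1], [3, 4]), (0, [0], [1, 5]), (4, [], [2])]),
  (32, 1, 1, [(0, [1], [1, 5]), (0, [1], [0, 3]), (0, [0], [4, 5]), (4, [], [2])]),
  (-32, 1, 1, [(0, [1], [1, 5]), (0, [1], [0, 3]), (0, [0], [2, 5]), (4, [], [4])]),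
  (-32, 1, 1, [(0, [1], [1, 5]), (0, [1], [2, 3]), (0, [0], [4, 5]), (4, [], [0])]),
  (32, 1, 1, [(0, [1], [1, 5]), (0, [1], [2, 3]), (0, [0], [0, 5]), (4, [], [4])]),
  (32, 1, 1, [(0, [1], [1, 5]), (0, [1], [3, 4]), (0, [0], [2, 5]), (4, [], [0])]),
  (-32, 1, 1, [(0, [1], [1, 5]), (0, [1], [3, 4]), (0, [0], [0, 5]), (4, [], [2])]),
  (-64, 1, 1, [(0, [1], [2, 5]), (0, [1], [0, 1]), (0, [0], [4, 5]), (4, [], [3])]),
  (-32, 1, 1, [(0, [1], [2, 5]), (0, [1], [0, 1]), (0, [0], [3, 5]), (4, [], [4])]),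
  (64, 1, 1, [(0, [1], [2, 5]), (0, [1], [0, 3]), (0, [0], [4, 5]), (4, [], [1])]),
  (32, 1, 1, [(0, [1], [2, 5]), (0, [1], [0, 3]), (0, [0], [1, 5]), (4, [], [4])]),
  (32, 1, 1, [(0, [1], [2, 5]), (0, [1], [1, 4]), (0, [0], [3, 5]), (4, [], [0])]),
  (64, 1, 1, [(0, [1], [2, 5]), (0, [1], [1, 4]), (0, [0], [0, 5]), (4, [], [3])]),
  (-32, 1, 1, [(0, [1], [2, 5]), (0, [1], [3, 4]), (0, [0], [1, 5]), (4, [], [0])]),
  (-64, 1, 1, [(0, [1], [2, 5]), (0, [1], [3, 4]), (0, [0], [0, 5]), (4, [], [1])]),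
  (-32, 1, 1, [(0, [1], [3, 5]), (0, [1], [0, 1]), (0, [0], [4, 5]), (4, [], [2])]),
  (32, 1, 1, [(0, [1], [3, 5]), (0, [1], [0, 1]), (0, [0], [2, 5]), (4, [], [4])]),
  (32, 1, 1, [(0, [1], [3, 5]), (0, [1], [1, 2]), (0, [0], [4, 5]), (4, [], [0])]),
  (-32, 1, 1, [(0, [1], [3, 5]), (0, [1], [1, 2]), (0, [0], [0, 5]), (4, [], [4])]),
  (-32, 1, 1, [(0, [1], [3, 5]), (0, [1], [1, 4]), (0, [0], [2, 5]), (4, [], [0])]),
  (32, 1, 1, [(0, [1], [3, 5]), (0, [1], [1, 4]), (0, [0], [0, 5]), (4, [], [2])]),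
  (32, 1, 1, [(0, [1], [4, 5]), (0, [1], [0, 1]), (0, [0], [3, 5]), (4, [], [2])]),
  (64, 1, 1, [(0, [1], [4, 5]), (0, [1], [0, 1]), (0, [0], [2, 5]), (4, [], [3])]),
  (-64, 1, 1, [(0, [1], [4, 5]), (0, [1], [0, 3]), (0, [0], [2, 5]), (4, [], [1])]),
  (-32, 1, 1, [(0, [1], [4, 5]), (0, [1], [0, 3]), (0, [0], [1, 5]), (4, [], [2])]),
  (-32, 1, 1, [(0, [1], [4, 5]), (0, [1], [1, 2]), (0, [0], [3, 5]), (4, [], [0])]),
  (-64, 1, 1, [(0, [1], [4, 5]), (0, [1], [1, 2]), (0, [0], [0, 5]), (4, [], [3])]),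
  (32, 1, 1, [(0, [1], [4, 5]), (0, [1], [2, 3]), (0, [0], [1, 5]), (4, [], [0])]),
  (64, 1, 1, [(0, [1], [4, 5]), (0, [1], [2, 3]), (0, [0], [0, 5]), (4, [], [1])])]

def z8_3 : Cov := [(0, 1, 1, [(0, [1], [0, 5]), (0, [1], [1, 3]), (0, [0], [4, 5]), (4, [], [2])]),
  (0, 1, 1, [(0, [1], [0, 5]), (0, [1], [1, 3]), (0, [0], [2, 5]), (4, [], [4])]),
  (0, 1, 1, [(0, [1], [0, 5]), (0, [1], [2, 4]), (0, [0], [3, 5]), (4, [], [1])]),
  (0, 1, 1, [(0, [1], [0, 5]), (0, [1], [2, 4]), (0, [0], [1, 5]), (4, [], [3])]),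
  (0, 1, 1, [(0, [1], [1, 5]), (0, [1], [0, 2]), (0, [0], [4, 5]), (4, [], [3])]),
  (0, 1, 1, [(0, [1], [1, 5]), (0, [1], [0, 2]), (0, [0], [3, 5]), (4, [], [4])]),
  (0, 1, 1, [(0, [1], [1, 5]), (0, [1], [0, 4]), (0, [0], [3, 5]), (4, [], [2])]),
  (0, 1, 1, [(0, [1], [1, 5]), (0, [1], [0, 4]), (0, [0], [2, 5]), (4, [], [3])]),
  (0, 1, 1, [(0, [1], [1, 5]), (0, [1], [2, 4]), (0, [0], [3, 5]), (4, [], [0])]),
  (0, 1, 1, [(0, [1], [1, 5]), (0, [1], [2, 4]), (0, [0], [0, 5]), (4, [], [3])]),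
  (0, 1, 1, [(0, [1], [2, 5]), (0, [1], [0, 4]), (0, [0], [3, 5]), (4, [], [1])]),
  (0, 1, 1, [(0, [1], [2, 5]), (0, [1], [0, 4]), (0, [0], [1, 5]), (4, [], [3])]),
  (0, 1, 1, [(0, [1], [2, 5]), (0, [1], [1, 3]), (0, [0], [4, 5]), (4, [], [0])]),
  (0, 1, 1, [(0, [1], [2, 5]), (0, [1], [1, 3]), (0, [0], [0, 5]), (4, [], [4])]),
  (0, 1, 1, [(0, [1], [3, 5]), (0, [1], [0, 2]), (0, [0], [4, 5]), (4, [], [1])]),
  (0, 1, 1, [(0, [1], [3, 5]), (0, [1], [0, 2]), (0, [0], [1, 5]), (4, [], [4])]),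
  (0, 1, 1, [(0, [1], [3, 5]), (0, [1], [0, 4]), (0, [0], [2, 5]), (4, [], [1])]),
  (0, 1, 1, [(0, [1], [3, 5]), (0, [1], [0, 4]), (0, [0], [1, 5]), (4, [], [2])]),
  (0, 1, 1, [(0, [1], [3, 5]), (0, [1], [2, 4]), (0, [0], [1, 5]), (4, [], [0])]),
  (0, 1, 1, [(0, [1], [3, 5]), (0, [1], [2, 4]), (0, [0], [0, 5]), (4, [], [1])]),
  (0, 1, 1, [(0, [1], [4, 5]), (0, [1], [0, 2]), (0, [0], [3, 5]), (4, [], [1])]),
  (0, 1, 1, [(0, [1], [4, 5]), (0, [1], [0, 2]), (0, [0], [1, 5]), (4, [], [3])]),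
  (0, 1, 1, [(0, [1], [4, 5]), (0, [1], [1, 3]), (0, [0], [2, 5]), (4, [], [0])]),
  (0, 1, 1, [(0, [1], [4, 5]), (0, [1], [1, 3]), (0, [0], [0, 5]), (4, [], [2])])]

def w8_3 : List (List Wit) := [[(0, 0, 0, 0, 0), (1, 0, 0, 0, 0), (36, 0, 0, 0, 0), (37, 0, 0, 0, 0), (2, 0, 0, 0, 0), (3, 0, 0, 0, 0), (0, 0, 0, 0, 0), (1, 0, 0, 0, 0), (4, 0, 0, 0, 0), (5, 0, 0, 0, 0), (38, 0, 0, 0, 0), (39, 0, 0, 0, 0), (36, 0, 0, 0, 0), (37, 0, 0, 0, 0), (4, 0, 0, 0, 0), (5, 0, 0, 0, 0), (6, 0, 0, 0, 0), (7, 0, 0, 0, 0), (2, 0, 0, 0, 0), (3, 0, 0, 0, 0), (38, 0, 0, 0, 0), (39, 0, 0, 0, 0), (6, 0, 0, 0, 0), (7, 0, 0, 0, 0), (40, 0, 0, 0, 0), (41, 0, 0, 0, 0), (8, 0, 0, 0, 0), (9, 0, 0, 0, 0), (42, 0, 0, 0, 0), (43, 0, 0, 0, 0), (40, 0, 0, 0, 0), (41, 0, 0, 0, 0), (10, 0, 0, 0, 0), (11, 0, 0, 0, 0), (44, 0, 0, 0, 0), (45, 0, 0, 0, 0), (8, 0, 0, 0, 0), (9, 0, 0, 0, 0), (10, 0,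 0, 0, 0), (11, 0, 0, 0, 0), (12, 0, 0, 0, 0), (13, 0, 0, 0, 0), (42, 0, 0, 0, 0), (43, 0, 0, 0, 0), (44, 0, 0, 0, 0), (45, 0, 0, 0, 0), (12, 0, 0, 0, 0), (13, 0, 0, 0, 0), (14, 0, 0, 0, 0), (15, 0, 0, 0, 0), (16, 0, 0, 0, 0), (17, 0, 0, 0, 0), (46, 0, 0, 0, 0), (47, 0, 0, 0, 0), (14, 0, 0, 0, 0), (15, 0, 0, 0, 0), (48, 0, 0, 0, 0), (49, 0, 0, 0, 0), (18, 0, 0, 0, 0), (19, 0, 0, 0, 0), (16, 0, 0, 0, 0), (17, 0, 0, 0, 0), (48, 0, 0, 0, 0), (49, 0, 0, 0, 0), (20, 0, 0, 0, 0), (21, 0, 0, 0, 0), (46, 0, 0, 0, 0), (47, 0, 0, 0, 0), (18, 0, 0, 0, 0), (19, 0, 0, 0, 0), (20, 0, 0, 0, 0), (21, 0, 0, 0, 0), (22, 0, 0, 0, 0), (23, 0, 0, 0, 0), (50, 0, 0, 0, 0), (51, 0, 0, 0, 0), (52, 0, 0, 0, 0), (53, 0, 0, 0, 0), (22, 0, 0, 0, 0), (23, 0, 0, 0, 0), (24, 0, 0, 0, 0), (25, 0, 0, 0, 0), (26, 0, 0, 0, 0), (27, 0, 0, 0, 0), (50, 0, 0, 0, 0), (51, 0, 0, 0, 0), (24, 0, 0, 0, 0),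 (25, 0, 0, 0, 0), (54, 0, 0, 0, 0), (55, 0, 0, 0, 0), (52, 0, 0, 0, 0), (53, 0, 0, 0, 0), (26, 0, 0, 0, 0), (27, 0, 0, 0, 0), (54, 0, 0, 0, 0), (55, 0, 0, 0, 0), (28, 0, 0, 0, 0), (29, 0, 0, 0, 0), (56, 0, 0, 0, 0), (57, 0, 0, 0, 0), (30, 0, 0, 0, 0), (31, 0, 0, 0, 0), (28, 0, 0, 0, 0), (29, 0, 0, 0, 0), (32, 0, 0, 0, 0), (33, 0, 0, 0, 0), (58, 0, 0, 0, 0), (59, 0, 0, 0, 0), (56, 0, 0, 0, 0), (57, 0, 0, 0, 0), (32, 0, 0, 0, 0), (33, 0, 0, 0, 0), (34, 0, 0, 0, 0), (35, 0, 0, 0, 0), (30, 0, 0, 0, 0), (31, 0, 0, 0, 0), (58, 0, 0, 0, 0), (59, 0, 0, 0, 0), (34, 0, 0, 0, 0), (35, 0, 0, 0, 0)]]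

def m8_4 : Base := (1, 1, [(0, [1], [0, 1]), (0, [1], [2, 3]), (0, [0], [4, 5]), (4, [], [5])])

def l8_4 : Cov := [(192, 1, 1, [(0, [1], [0, 1]), (0, [1], [2, 3]), (0, [0], [4, 5]), (4, [], [5])]),
  (-192, 1, 1, [(0, [1], [0, 1]), (0, [1], [3, 4]), (0, [0], [2, 5]), (4, [], [5])]),
  (-192, 1, 1, [(0, [1], [0, 3]), (0, [1], [1, 2]), (0, [0], [4, 5]), (4, [], [5])]),
  (192, 1, 1, [(0, [1], [0, 3]), (0, [1], [1, 4]), (0, [0], [2, 5]), (4, [], [5])]),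
  (192, 1, 1, [(0, [1], [1, 2]), (0, [1], [3, 4]), (0, [0], [0, 5]), (4, [], [5])]),
  (-192, 1, 1, [(0, [1], [1, 4]), (0, [1], [2, 3]), (0, [0], [0, 5]), (4, [], [5])])]

def z8_4 : Cov := [(0, 1, 1, [(0, [1], [0, 1]), (0, [1], [2, 4]), (0, [0], [3, 5]), (4, [], [5])]),
  (0, 1, 1, [(0, [1], [0, 2]), (0, [1], [1, 3]), (0, [0], [4, 5]), (4, [], [5])]),
  (0, 1, 1, [(0, [1], [0, 2]), (0, [1], [1, 4]), (0, [0], [3, 5]), (4, [], [5])]),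
  (0, 1, 1, [(0, [1], [0, 2]), (0, [1], [3, 4]), (0, [0], [1, 5]), (4, [], [5])]),
  (0, 1, 1, [(0, [1], [0, 3]), (0, [1], [2, 4]), (0, [0], [1, 5]), (4, [], [5])]),
  (0, 1, 1, [(0, [1], [0, 4]), (0, [1], [1, 2]), (0, [0], [3, 5]), (4, [], [5])]),
  (0, 1, 1, [(0, [1], [0, 4]), (0, [1], [1, 3]), (0, [0], [2, 5]), (4, [], [5])]),
  (0, 1, 1, [(0, [1], [0, 4]), (0, [1], [2, 3]), (0, [0], [1, 5]), (4, [], [5])]),
  (0, 1, 1, [(0, [1], [1, 3]), (0, [1], [2, 4]), (0, [0], [0, 5]), (4, [], [5])])]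

def w8_4 : List (List Wit) := [[(0, 0, 0, 0, 0), (6, 0, 0, 0, 0), (0, 0, 0, 0, 0), (1, 0, 0, 0, 0), (6, 0, 0, 0, 0), (1, 0, 0, 0, 0), (7, 0, 0, 0, 0), (8, 0, 0, 0, 0), (7, 0, 0, 0, 0), (9, 0, 0, 0, 0), (8, 0, 0, 0, 0), (9, 0, 0, 0, 0), (2, 0, 0, 0, 0), (3, 0, 0, 0, 0), (2, 0, 0, 0, 0), (10, 0, 0, 0, 0), (3, 0, 0, 0, 0), (10, 0, 0, 0, 0), (11, 0, 0, 0, 0), (12, 0, 0, 0, 0), (11, 0, 0, 0, 0), (13, 0, 0, 0, 0), (12, 0, 0, 0, 0), (13, 0, 0, 0, 0), (0, 0, 0, 0, 0), (6, 0, 0, 0, 0), (0, 0, 0, 0, 0), (1, 0, 0, 0, 0), (6, 0, 0, 0, 0), (1, 0, 0, 0, 0), (2, 0, 0, 0, 0), (11, 0, 0, 0, 0), (2, 0, 0, 0, 0), (4, 0, 0, 0, 0), (11, 0, 0, 0, 0), (4, 0, 0, 0, 0), (7, 0, 0, 0, 0), (12, 0, 0, 0, 0), (7, 0, 0, 0, 0), (14, 0, 0, 0, 0), (12, 0, 0, 0, 0), (14, 0, 0, 0, 0), (8, 0, 0, 0, 0), (3, 0, 0, 0, 0), (8, 0, 0, 0, 0), (5, 0, 0, 0, 0), (3, 0, 0, 0, 0), (5, 0, 0, 0, 0), (7, 0, 0,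 0, 0), (8, 0, 0, 0, 0), (7, 0, 0, 0, 0), (9, 0, 0, 0, 0), (8, 0, 0, 0, 0), (9, 0, 0, 0, 0), (2, 0, 0, 0, 0), (11, 0, 0, 0, 0), (2, 0, 0, 0, 0), (4, 0, 0, 0, 0), (11, 0, 0, 0, 0), (4, 0, 0, 0, 0), (0, 0, 0, 0, 0), (13, 0, 0, 0, 0), (0, 0, 0, 0, 0), (5, 0, 0, 0, 0), (13, 0, 0, 0, 0), (5, 0, 0, 0, 0), (6, 0, 0, 0, 0), (10, 0, 0, 0, 0), (6, 0, 0, 0, 0), (14, 0, 0, 0, 0), (10, 0, 0, 0, 0), (14, 0, 0, 0, 0), (2, 0, 0, 0, 0), (3, 0, 0, 0, 0), (2, 0, 0, 0, 0), (10, 0, 0, 0, 0), (3, 0, 0, 0, 0), (10, 0, 0, 0, 0), (7, 0, 0, 0, 0), (12, 0, 0, 0, 0), (7, 0, 0, 0, 0), (14, 0, 0, 0, 0), (12, 0, 0, 0, 0), (14, 0, 0, 0, 0), (0, 0, 0, 0, 0), (13, 0, 0, 0, 0), (0, 0, 0, 0, 0), (5, 0, 0, 0, 0), (13, 0, 0, 0, 0), (5, 0, 0, 0, 0), (1, 0, 0, 0, 0), (9, 0, 0, 0, 0), (1, 0, 0, 0, 0), (4, 0, 0, 0, 0), (9, 0, 0, 0, 0), (4, 0, 0, 0, 0), (11, 0, 0, 0, 0), (12, 0, 0, 0, 0), (11, 0, 0, 0,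 0), (13, 0, 0, 0, 0), (12, 0, 0, 0, 0), (13, 0, 0, 0, 0), (8, 0, 0, 0, 0), (3, 0, 0, 0, 0), (8, 0, 0, 0, 0), (5, 0, 0, 0, 0), (3, 0, 0, 0, 0), (5, 0, 0, 0, 0), (6, 0, 0, 0, 0), (10, 0, 0, 0, 0), (6, 0, 0, 0, 0), (14, 0, 0, 0, 0), (10, 0, 0, 0, 0), (14, 0, 0, 0, 0), (1, 0, 0, 0, 0), (9, 0, 0, 0, 0), (1, 0, 0, 0, 0), (4, 0, 0, 0, 0), (9, 0, 0, 0, 0), (4, 0, 0, 0, 0)]]

def m8_5 : Base := (0, 1, [(0, [0], [0, 5]), (1, [], [1, 5]), (1, [], [2, 3]), (4, [], [4])])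

def l8_5 : Cov := [(64, 0, 1, [(0, [0], [0, 5]), (1, [], [1, 5]), (1, [], [2, 3]), (4, [], [4])]),
  (-64, 0, 1, [(0, [0], [0, 5]), (1, [], [1, 5]), (1, [], [3, 4]), (4, [], [2])]),
  (32, 0, 1, [(0, [0], [0, 5]), (1, [], [2, 5]), (1, [], [1, 4]), (4, [], [3])]),
  (-32, 0, 1, [(0, [0], [0, 5]), (1, [], [2, 5]), (1, [], [3, 4]), (4, [], [1])]),
  (-64, 0, 1, [(0, [0], [0, 5]), (1, [], [3, 5]), (1, [], [1, 2]), (4, [], [4])]),
  (64, 0, 1, [(0, [0], [0, 5]), (1, [], [3, 5]), (1, [], [1, 4]), (4, [], [2])]),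
  (-32, 0, 1, [(0, [0], [0, 5]), (1, [], [4, 5]), (1, [], [1, 2]), (4, [], [3])]),
  (32, 0, 1, [(0, [0], [0, 5]), (1, [], [4, 5]), (1, [], [2, 3]), (4, [], [1])]),
  (32, 0, 1, [(0, [0], [1, 5]), (1, [], [0, 5]), (1, [], [2, 3]), (4, [], [4])]),
  (-32, 0, 1, [(0, [0], [1, 5]), (1, [], [0, 5]), (1, [], [3, 4]), (4, [], [2])]),
  (-32, 0, 1, [(0, [0], [1, 5]), (1, [], [2, 5]), (1, [], [0, 3]), (4, [], [4])]),
  (32, 0, 1, [(0, [0], [1, 5]), (1, [], [2, 5]), (1, [], [3, 4]), (4, [], [0])]),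
  (32, 0, 1, [(0, [0], [1, 5]), (1, [], [4, 5]), (1, [], [0, 3]), (4, [], [2])]),
  (-32, 0, 1, [(0, [0], [1, 5]), (1, [], [4, 5]), (1, [], [2, 3]), (4, [], [0])]),
  (-32, 0, 1, [(0, [0], [2, 5]), (1, [], [0, 5]), (1, [], [1, 4]), (4, [], [3])]),
  (32, 0, 1, [(0, [0], [2, 5]), (1, [], [0, 5]), (1, [], [3, 4]), (4, [], [1])]),
  (-64, 0, 1, [(0, [0], [2, 5]), (1, [], [1, 5]), (1, [], [0, 3]), (4, [], [4])]),
  (64, 0, 1, [(0, [0], [2, 5]), (1, [], [1, 5]), (1, [], [3, 4]), (4, [], [0])]),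
  (64, 0, 1, [(0, [0], [2, 5]), (1, [], [3, 5]), (1, [], [0, 1]), (4, [], [4])]),
  (-64, 0, 1, [(0, [0], [2, 5]), (1, [], [3, 5]), (1, [], [1, 4]), (4, [], [0])]),
  (32, 0, 1, [(0, [0], [2, 5]), (1, [], [4, 5]), (1, [], [0, 1]), (4, [], [3])]),
  (-32, 0, 1, [(0, [0], [2, 5]), (1, [], [4, 5]), (1, [], [0, 3]), (4, [], [1])]),
  (-32, 0, 1, [(0, [0], [3, 5]), (1, [], [0, 5]), (1, [], [1, 2]), (4, [], [4])]),
  (32, 0, 1, [(0, [0], [3, 5]), (1, [], [0, 5]), (1, [], [1, 4]), (4, [], [2])]),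
  (32, 0, 1, [(0, [0], [3, 5]), (1, [], [2, 5]), (1, [], [0, 1]), (4, [], [4])]),
  (-32, 0, 1, [(0, [0], [3, 5]), (1, [], [2, 5]), (1, [], [1, 4]), (4, [], [0])]),
  (-32, 0, 1, [(0, [0], [3, 5]), (1, [], [4, 5]), (1, [], [0, 1]), (4, [], [2])]),
  (32, 0, 1, [(0, [0], [3, 5]), (1, [], [4, 5]), (1, [], [1, 2]), (4, [], [0])]),
  (32, 0, 1, [(0, [0], [4, 5]), (1, [], [0, 5]), (1, [], [1, 2]), (4, [], [3])]),
  (-32, 0, 1, [(0, [0], [4, 5]), (1, [], [0, 5]), (1, [], [2, 3]), (4, [], [1])]),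
  (64, 0, 1, [(0, [0], [4, 5]), (1, [], [1, 5]), (1, [], [0, 3]), (4, [], [2])]),
  (-64, 0, 1, [(0, [0], [4, 5]), (1, [], [1, 5]), (1, [], [2, 3]), (4, [], [0])]),
  (-32, 0, 1, [(0, [0], [4, 5]), (1, [], [2, 5]), (1, [], [0, 1]), (4, [], [3])]),
  (32, 0, 1, [(0, [0], [4, 5]), (1, [], [2, 5]), (1, [], [0, 3]), (4, [], [1])]),
  (-64, 0, 1, [(0, [0], [4, 5]), (1, [], [3, 5]), (1, [], [0, 1]), (4, [], [2])]),
  (64, 0, 1, [(0, [0], [4, 5]), (1, [], [3, 5]), (1, [], [1, 2]), (4, [], [0])])]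

def z8_5 : Cov := [(0, 0, 1, [(0, [0], [0, 5]), (1, [], [1, 5]), (1, [], [2, 4]), (4, [], [3])]),
  (0, 0, 1, [(0, [0], [0, 5]), (1, [], [2, 5]), (1, [], [1, 3]), (4, [], [4])]),
  (0, 0, 1, [(0, [0], [0, 5]), (1, [], [3, 5]), (1, [], [2, 4]), (4, [], [1])]),
  (0, 0, 1, [(0, [0], [0, 5]), (1, [], [4, 5]), (1, [], [1, 3]), (4, [], [2])]),
  (0, 0, 1, [(0, [0], [1, 5]), (1, [], [0, 5]), (1, [], [2, 4]), (4, [], [3])]),
  (0, 0, 1, [(0, [0], [1, 5]), (1, [], [2, 5]), (1, [], [0, 4]), (4, [], [3])]),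
  (0, 0, 1, [(0, [0], [1, 5]), (1, [], [3, 5]), (1, [], [0, 2]), (4, [], [4])]),
  (0, 0, 1, [(0, [0], [1, 5]), (1, [], [3, 5]), (1, [], [0, 4]), (4, [], [2])]),
  (0, 0, 1, [(0, [0], [1, 5]), (1, [], [3, 5]), (1, [], [2, 4]), (4, [], [0])]),
  (0, 0, 1, [(0, [0], [1, 5]), (1, [], [4, 5]), (1, [], [0, 2]), (4, [], [3])]),
  (0, 0, 1, [(0, [0], [2, 5]), (1, [], [0, 5]), (1, [], [1, 3]), (4, [], [4])]),
  (0, 0, 1, [(0, [0], [2, 5]), (1, [], [1, 5]), (1, [], [0, 4]), (4, [], [3])]),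
  (0, 0, 1, [(0, [0], [2, 5]), (1, [], [3, 5]), (1, [], [0, 4]), (4, [], [1])]),
  (0, 0, 1, [(0, [0], [2, 5]), (1, [], [4, 5]), (1, [], [1, 3]), (4, [], [0])]),
  (0, 0, 1, [(0, [0], [3, 5]), (1, [], [0, 5]), (1, [], [2, 4]), (4, [], [1])]),
  (0, 0, 1, [(0, [0], [3, 5]), (1, [], [1, 5]), (1, [], [0, 2]), (4, [], [4])]),
  (0, 0, 1, [(0, [0], [3, 5]), (1, [], [1, 5]), (1, [], [0, 4]), (4, [], [2])]),
  (0, 0, 1, [(0, [0], [3, 5]), (1, [], [1, 5]), (1, [], [2, 4]), (4, [], [0])]),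
  (0, 0, 1, [(0, [0], [3, 5]), (1, [], [2, 5]), (1, [], [0, 4]), (4, [], [1])]),
  (0, 0, 1, [(0, [0], [3, 5]), (1, [], [4, 5]), (1, [], [0, 2]), (4, [], [1])]),
  (0, 0, 1, [(0, [0], [4, 5]), (1, [], [0, 5]), (1, [], [1, 3]), (4, [], [2])]),
  (0, 0, 1, [(0, [0], [4, 5]), (1, [], [1, 5]), (1, [], [0, 2]), (4, [], [3])]),
  (0, 0, 1, [(0, [0], [4, 5]), (1, [], [2, 5]), (1, [], [1, 3]), (4, [], [0])]),
  (0, 0, 1, [(0, [0], [4, 5]), (1, [], [3, 5]), (1, [], [0, 2]), (4, [], [1])])]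

def w8_5 : List (List Wit) := [[(0, 0, 0, 0, 0), (36, 0, 0, 0, 0), (0, 0, 0, 0, 0), (1, 0, 0, 0, 0), (36, 0, 0, 0, 0), (1, 0, 0, 0, 0), (37, 0, 0, 0, 0), (2, 0, 0, 0, 0), (37, 0, 0, 0, 0), (3, 0, 0, 0, 0), (2, 0, 0, 0, 0), (3, 0, 0, 0, 0), (4, 0, 0, 0, 0), (5, 0, 0, 0, 0), (4, 0, 0, 0, 0), (38, 0, 0, 0, 0), (5, 0, 0, 0, 0), (38, 0, 0, 0, 0), (6, 0, 0, 0, 0), (39, 0, 0, 0, 0), (6, 0, 0, 0, 0), (7, 0, 0, 0, 0), (39, 0, 0, 0, 0), (7, 0, 0, 0, 0), (8, 0, 0, 0, 0), (40, 0, 0, 0, 0), (8, 0, 0, 0, 0), (9, 0, 0, 0, 0), (40, 0, 0, 0, 0), (9, 0, 0, 0, 0), (10, 0, 0, 0, 0), (41, 0, 0, 0, 0), (10, 0, 0, 0, 0), (11, 0, 0, 0, 0), (41, 0, 0, 0, 0), (11, 0, 0, 0, 0), (42, 0, 0, 0, 0), (43, 0, 0, 0, 0), (42, 0, 0, 0, 0), (44, 0, 0, 0, 0), (43, 0, 0, 0, 0), (44, 0, 0, 0, 0), (45, 0, 0, 0, 0), (12, 0, 0, 0, 0), (45, 0, 0, 0, 0), (13, 0, 0, 0, 0), (12, 0, 0, 0, 0), (13, 0, 0, 0,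 0), (46, 0, 0, 0, 0), (14, 0, 0, 0, 0), (46, 0, 0, 0, 0), (15, 0, 0, 0, 0), (14, 0, 0, 0, 0), (15, 0, 0, 0, 0), (16, 0, 0, 0, 0), (47, 0, 0, 0, 0), (16, 0, 0, 0, 0), (17, 0, 0, 0, 0), (47, 0, 0, 0, 0), (17, 0, 0, 0, 0), (18, 0, 0, 0, 0), (48, 0, 0, 0, 0), (18, 0, 0, 0, 0), (19, 0, 0, 0, 0), (48, 0, 0, 0, 0), (19, 0, 0, 0, 0), (20, 0, 0, 0, 0), (21, 0, 0, 0, 0), (20, 0, 0, 0, 0), (49, 0, 0, 0, 0), (21, 0, 0, 0, 0), (49, 0, 0, 0, 0), (22, 0, 0, 0, 0), (23, 0, 0, 0, 0), (22, 0, 0, 0, 0), (50, 0, 0, 0, 0), (23, 0, 0, 0, 0), (50, 0, 0, 0, 0), (51, 0, 0, 0, 0), (52, 0, 0, 0, 0), (51, 0, 0, 0, 0), (53, 0, 0, 0, 0), (52, 0, 0, 0, 0), (53, 0, 0, 0, 0), (24, 0, 0, 0, 0), (54, 0, 0, 0, 0), (24, 0, 0, 0, 0), (25, 0, 0, 0, 0), (54, 0, 0, 0, 0), (25, 0, 0, 0, 0), (26, 0, 0, 0, 0), (55, 0, 0, 0, 0), (26, 0, 0, 0, 0), (27, 0, 0, 0, 0), (55, 0, 0, 0, 0), (27, 0, 0, 0, 0), (28,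 0, 0, 0, 0), (56, 0, 0, 0, 0), (28, 0, 0, 0, 0), (29, 0, 0, 0, 0), (56, 0, 0, 0, 0), (29, 0, 0, 0, 0), (57, 0, 0, 0, 0), (30, 0, 0, 0, 0), (57, 0, 0, 0, 0), (31, 0, 0, 0, 0), (30, 0, 0, 0, 0), (31, 0, 0, 0, 0), (32, 0, 0, 0, 0), (33, 0, 0, 0, 0), (32, 0, 0, 0, 0), (58, 0, 0, 0, 0), (33, 0, 0, 0, 0), (58, 0, 0, 0, 0), (34, 0, 0, 0, 0), (59, 0, 0, 0, 0), (34, 0, 0, 0, 0), (35, 0, 0, 0, 0), (59, 0, 0, 0, 0), (35, 0, 0, 0, 0)]]

def m8_6 : Base := (0, 1, [(0, [0], [0, 5]), (1, [], [1, 2]), (1, [], [3, 4]), (4, [], [5])])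

def l8_6 : Cov := [(192, 0, 1, [(0, [0], [0, 5]), (1, [], [1, 2]), (1, [], [3, 4]), (4, [], [5])]),
  (-192, 0, 1, [(0, [0], [0, 5]), (1, [], [1, 4]), (1, [], [2, 3]), (4, [], [5])]),
  (-192, 0, 1, [(0, [0], [2, 5]), (1, [], [0, 1]), (1, [], [3, 4]), (4, [], [5])]),
  (192, 0, 1, [(0, [0], [2, 5]), (1, [], [0, 3]), (1, [], [1, 4]), (4, [], [5])]),
  (192, 0, 1, [(0, [0], [4, 5]), (1, [], [0, 1]), (1, [], [2, 3]), (4, [], [5])]),
  (-192, 0, 1, [(0, [0], [4, 5]), (1, [], [0, 3]), (1, [], [1, 2]), (4, [], [5])])]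

def z8_6 : Cov := [(0, 0, 1, [(0, [0], [0, 5]), (1, [], [1, 3]), (1, [], [2, 4]), (4, [], [5])]),
  (0, 0, 1, [(0, [0], [1, 5]), (1, [], [0, 2]), (1, [], [3, 4]), (4, [], [5])]),
  (0, 0, 1, [(0, [0], [1, 5]), (1, [], [0, 3]), (1, [], [2, 4]), (4, [], [5])]),
  (0, 0, 1, [(0, [0], [1, 5]), (1, [], [0, 4]), (1, [], [2, 3]), (4, [], [5])]),
  (0, 0, 1, [(0, [0], [2, 5]), (1, [], [0, 4]), (1, [], [1, 3]), (4, [], [5])]),
  (0, 0, 1, [(0, [0], [3, 5]), (1, [], [0, 1]), (1, [], [2, 4]), (4, [], [5])]),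
  (0, 0, 1, [(0, [0], [3, 5]), (1, [], [0, 2]), (1, [], [1, 4]), (4, [], [5])]),
  (0, 0, 1, [(0, [0], [3, 5]), (1, [], [0, 4]), (1, [], [1, 2]), (4, [], [5])]),
  (0, 0, 1, [(0, [0], [4, 5]), (1, [], [0, 2]), (1, [], [1, 3]), (4, [], [5])])]

def w8_6 : List (List Wit) := [[(0, 0, 0, 0, 0), (0, 0, 0, 0, 0), (6, 0, 0, 0, 0), (6, 0, 0, 0, 0), (1, 0, 0, 0, 0), (1, 0, 0, 0, 0), (0, 0, 0, 0, 0), (0, 0, 0, 0, 0), (1, 0, 0, 0, 0), (1, 0, 0, 0, 0), (6, 0, 0, 0, 0), (6, 0, 0, 0, 0), (6, 0, 0, 0, 0), (6, 0, 0, 0, 0), (1, 0, 0, 0, 0), (1, 0, 0, 0, 0), (0, 0, 0, 0, 0), (0, 0, 0, 0, 0), (1, 0, 0, 0, 0), (1, 0, 0, 0, 0), (6, 0, 0, 0, 0), (6, 0, 0, 0, 0), (0, 0, 0, 0, 0), (0, 0, 0, 0, 0), (7, 0, 0, 0, 0), (7, 0, 0, 0, 0), (8, 0, 0, 0, 0), (8, 0, 0, 0, 0), (9, 0, 0, 0, 0), (9, 0, 0, 0, 0), (7, 0, 0, 0, 0), (7, 0, 0, 0, 0), (9, 0, 0, 0, 0), (9, 0, 0, 0, 0), (8, 0, 0, 0, 0),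 (8, 0, 0, 0, 0), (8, 0, 0, 0, 0), (8, 0, 0, 0, 0), (9, 0, 0, 0, 0), (9, 0, 0, 0, 0), (7, 0, 0, 0, 0), (7, 0, 0, 0, 0), (9, 0, 0, 0, 0), (9, 0, 0, 0, 0), (8, 0, 0, 0, 0), (8, 0, 0, 0, 0), (7, 0, 0, 0, 0), (7, 0, 0, 0, 0), (2, 0, 0, 0, 0), (2, 0, 0, 0, 0), (3, 0, 0, 0, 0), (3, 0, 0, 0, 0), (10, 0, 0, 0, 0), (10, 0, 0, 0, 0), (2, 0, 0, 0, 0), (2, 0, 0, 0, 0), (10, 0, 0, 0, 0), (10, 0, 0, 0, 0), (3, 0, 0, 0, 0), (3, 0, 0, 0, 0), (3, 0, 0, 0, 0), (3, 0, 0, 0, 0), (10, 0, 0, 0, 0), (10, 0, 0, 0, 0), (2, 0, 0, 0, 0), (2, 0, 0, 0, 0), (10, 0, 0, 0, 0), (10, 0, 0, 0, 0), (3, 0, 0, 0, 0), (3, 0, 0, 0, 0), (2, 0, 0, 0, 0), (2, 0, 0, 0, 0), (11, 0, 0, 0, 0), (11, 0, 0, 0, 0), (12, 0, 0, 0, 0), (12, 0, 0, 0, 0), (13, 0, 0, 0, 0), (13, 0, 0, 0, 0), (11, 0, 0, 0, 0), (11, 0, 0, 0, 0), (13, 0, 0, 0, 0), (13, 0, 0, 0, 0), (12, 0, 0, 0, 0), (12, 0, 0, 0, 0), (12, 0, 0, 0, 0),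 (12, 0, 0, 0, 0), (13, 0, 0, 0, 0), (13, 0, 0, 0, 0), (11, 0, 0, 0, 0), (11, 0, 0, 0, 0), (13, 0, 0, 0, 0), (13, 0, 0, 0, 0), (12, 0, 0, 0, 0), (12, 0, 0, 0, 0), (11, 0, 0, 0, 0), (11, 0, 0, 0, 0), (4, 0, 0, 0, 0), (4, 0, 0, 0, 0), (14, 0, 0, 0, 0), (14, 0, 0, 0, 0), (5, 0, 0, 0, 0), (5, 0, 0, 0, 0), (4, 0, 0, 0, 0), (4, 0, 0, 0, 0), (5, 0, 0, 0, 0), (5, 0, 0, 0, 0), (14, 0, 0, 0, 0), (14, 0, 0, 0, 0), (14, 0, 0, 0, 0), (14, 0, 0, 0, 0), (5, 0, 0, 0, 0), (5, 0, 0, 0, 0), (4, 0, 0, 0, 0), (4, 0, 0, 0, 0), (5, 0, 0, 0, 0), (5, 0, 0, 0, 0), (14, 0, 0, 0, 0), (14, 0, 0, 0, 0), (4, 0, 0, 0, 0), (4, 0, 0, 0, 0)]]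

def m8_7 : Base := (0, 1, [(0, [0], [0, 5]), (1, [], [1, 2]), (1, [], [4, 5]), (4, [], [3])])

def l8_7 : Cov := [(64, 0, 1, [(0, [0], [0, 5]), (1, [], [1, 2]), (1, [], [4, 5]), (4, [], [3])]),
  (32, 0, 1, [(0, [0], [0, 5]), (1, [], [1, 2]), (1, [], [3, 5]), (4, [], [4])]),
  (-32, 0, 1, [(0, [0], [0, 5]), (1, [], [1, 4]), (1, [], [3, 5]), (4, [], [2])]),
  (-64, 0, 1, [(0, [0], [0, 5]), (1, [], [1, 4]), (1, [], [2, 5]), (4, [], [3])]),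
  (-64, 0, 1, [(0, [0], [0, 5]), (1, [], [2, 3]), (1, [], [4, 5]), (4, [], [1])]),
  (-32, 0, 1, [(0, [0], [0, 5]), (1, [], [2, 3]), (1, [], [1, 5]), (4, [], [4])]),
  (64, 0, 1, [(0, [0], [0, 5]), (1, [], [3, 4]), (1, [], [2, 5]), (4, [], [1])]),
  (32, 0, 1, [(0, [0], [0, 5]), (1, [], [3, 4]), (1, [], [1, 5]), (4, [], [2])]),
  (32, 0, 1, [(0, [0], [1, 5]), (1, [], [0, 3]), (1, [], [4, 5]), (4, [], [2])]),
  (-32, 0, 1, [(0, [0], [1, 5]), (1, [], [0, 3]), (1, [], [2, 5]), (4, [], [4])]),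
  (-32, 0, 1, [(0, [0], [1, 5]), (1, [], [2, 3]), (1, [], [4, 5]), (4, [], [0])]),
  (32, 0, 1, [(0, [0], [1, 5]), (1, [], [2, 3]), (1, [], [0, 5]), (4, [], [4])]),
  (32, 0, 1, [(0, [0], [1, 5]), (1, [], [3, 4]), (1, [], [2, 5]), (4, [], [0])]),
  (-32, 0, 1, [(0, [0], [1, 5]), (1, [], [3, 4]), (1, [], [0, 5]), (4, [], [2])]),
  (-64, 0, 1, [(0, [0], [2, 5]), (1, [], [0, 1]), (1, [], [4, 5]), (4, [], [3])]),
  (-32, 0, 1, [(0, [0], [2, 5]), (1, [], [0, 1]), (1, [], [3, 5]), (4, [], [4])]),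
  (64, 0, 1, [(0, [0], [2, 5]), (1, [], [0, 3]), (1, [], [4, 5]), (4, [], [1])]),
  (32, 0, 1, [(0, [0], [2, 5]), (1, [], [0, 3]), (1, [], [1, 5]), (4, [], [4])]),
  (32, 0, 1, [(0, [0], [2, 5]), (1, [], [1, 4]), (1, [], [3, 5]), (4, [], [0])]),
  (64, 0, 1, [(0, [0], [2, 5]), (1, [], [1, 4]), (1, [], [0, 5]), (4, [], [3])]),
  (-32, 0, 1, [(0, [0], [2, 5]), (1, [], [3, 4]), (1, [], [1, 5]), (4, [], [0])]),
  (-64, 0, 1, [(0, [0], [2, 5]), (1, [], [3, 4]), (1, [], [0, 5]), (4, [], [1])]),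
  (-32, 0, 1, [(0, [0], [3, 5]), (1, [], [0, 1]), (1, [], [4, 5]), (4, [], [2])]),
  (32, 0, 1, [(0, [0], [3, 5]), (1, [], [0, 1]), (1, [], [2, 5]), (4, [], [4])]),
  (32, 0, 1, [(0, [0], [3, 5]), (1, [], [1, 2]), (1, [], [4, 5]), (4, [], [0])]),
  (-32, 0, 1, [(0, [0], [3, 5]), (1, [], [1, 2]), (1, [], [0, 5]), (4, [], [4])]),
  (-32, 0, 1, [(0, [0], [3, 5]), (1, [], [1, 4]), (1, [], [2, 5]), (4, [], [0])]),
  (32, 0, 1, [(0, [0], [3, 5]), (1, [], [1, 4]), (1, [], [0, 5]), (4, [], [2])]),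
  (32, 0, 1, [(0, [0], [4, 5]), (1, [], [0, 1]), (1, [], [3, 5]), (4, [], [2])]),
  (64, 0, 1, [(0, [0], [4, 5]), (1, [], [0, 1]), (1, [], [2, 5]), (4, [], [3])]),
  (-64, 0, 1, [(0, [0], [4, 5]), (1, [], [0, 3]), (1, [], [2, 5]), (4, [], [1])]),
  (-32, 0, 1, [(0, [0], [4, 5]), (1, [], [0, 3]), (1, [], [1, 5]), (4, [], [2])]),
  (-32, 0, 1, [(0, [0], [4, 5]), (1, [], [1, 2]), (1, [], [3, 5]), (4, [], [0])]),
  (-64, 0, 1, [(0, [0], [4, 5]), (1, [], [1, 2]), (1, [], [0, 5]), (4, [], [3])]),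
  (32, 0, 1, [(0, [0], [4, 5]), (1, [], [2, 3]), (1, [], [1, 5]), (4, [], [0])]),
  (64, 0, 1, [(0, [0], [4, 5]), (1, [], [2, 3]), (1, [], [0, 5]), (4, [], [1])])]

def z8_7 : Cov := [(0, 0, 1, [(0, [0], [0, 5]), (1, [], [1, 3]), (1, [], [4, 5]), (4, [], [2])]),
  (0, 0, 1, [(0, [0], [0, 5]), (1, [], [1, 3]), (1, [], [2, 5]), (4, [], [4])]),
  (0, 0, 1, [(0, [0], [0, 5]), (1, [], [2, 4]), (1, [], [3, 5]), (4, [], [1])]),
  (0, 0, 1, [(0, [0], [0, 5]), (1, [], [2, 4]), (1, [], [1, 5]), (4, [], [3])]),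
  (0, 0, 1, [(0, [0], [1, 5]), (1, [], [0, 2]), (1, [], [4, 5]), (4, [], [3])]),
  (0, 0, 1, [(0, [0], [1, 5]), (1, [], [0, 2]), (1, [], [3, 5]), (4, [], [4])]),
  (0, 0, 1, [(0, [0], [1, 5]), (1, [], [0, 4]), (1, [], [3, 5]), (4, [], [2])]),
  (0, 0, 1, [(0, [0], [1, 5]), (1, [], [0, 4]), (1, [], [2, 5]), (4, [], [3])]),
  (0, 0, 1, [(0, [0], [1, 5]), (1, [], [2, 4]), (1, [], [3, 5]), (4, [], [0])]),
  (0, 0, 1, [(0, [0], [1, 5]), (1, [], [2, 4]), (1, [], [0, 5]), (4, [], [3])]),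
  (0, 0, 1, [(0, [0], [2, 5]), (1, [], [0, 4]), (1, [], [3, 5]), (4, [], [1])]),
  (0, 0, 1, [(0, [0], [2, 5]), (1, [], [0, 4]), (1, [], [1, 5]), (4, [], [3])]),
  (0, 0, 1, [(0, [0], [2, 5]), (1, [], [1, 3]), (1, [], [4, 5]), (4, [], [0])]),
  (0, 0, 1, [(0, [0], [2, 5]), (1, [], [1, 3]), (1, [], [0, 5]), (4, [], [4])]),
  (0, 0, 1, [(0, [0], [3, 5]), (1, [], [0, 2]), (1, [], [4, 5]), (4, [], [1])]),
  (0, 0, 1, [(0, [0], [3, 5]), (1, [], [0, 2]), (1, [], [1, 5]), (4, [], [4])]),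
  (0, 0, 1, [(0, [0], [3, 5]), (1, [], [0, 4]), (1, [], [2, 5]), (4, [], [1])]),
  (0, 0, 1, [(0, [0], [3, 5]), (1, [], [0, 4]), (1, [], [1, 5]), (4, [], [2])]),
  (0, 0, 1, [(0, [0], [3, 5]), (1, [], [2, 4]), (1, [], [1, 5]), (4, [], [0])]),
  (0, 0, 1, [(0, [0], [3, 5]), (1, [], [2, 4]), (1, [], [0, 5]), (4, [], [1])]),
  (0, 0, 1, [(0, [0], [4, 5]), (1, [], [0, 2]), (1, [], [3, 5]), (4, [], [1])]),
  (0, 0, 1, [(0, [0], [4, 5]), (1, [], [0, 2]), (1, [], [1, 5]), (4, [], [3])]),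
  (0, 0, 1, [(0, [0], [4, 5]), (1, [], [1, 3]), (1, [], [2, 5]), (4, [], [0])]),
  (0, 0, 1, [(0, [0], [4, 5]), (1, [], [1, 3]), (1, [], [0, 5]), (4, [], [2])])]

def w8_7 : List (List Wit) := [[(0, 0, 0, 0, 0), (1, 0, 0, 0, 0), (36, 0, 0, 0, 0), (37, 0, 0, 0, 0), (2, 0, 0, 0, 0), (3, 0, 0, 0, 0), (0, 0, 0, 0, 0), (1, 0, 0, 0, 0), (4, 0, 0, 0, 0), (5, 0, 0, 0, 0), (38, 0, 0, 0, 0), (39, 0, 0, 0, 0), (36, 0, 0, 0, 0), (37, 0, 0, 0, 0), (4, 0, 0, 0, 0), (5, 0, 0, 0, 0), (6, 0, 0, 0, 0), (7, 0, 0, 0, 0), (2, 0, 0, 0, 0), (3, 0, 0, 0, 0), (38, 0, 0, 0, 0), (39, 0, 0, 0, 0), (6, 0, 0, 0, 0), (7, 0, 0, 0, 0), (40, 0, 0, 0, 0), (41, 0, 0, 0, 0), (8, 0, 0, 0, 0), (9, 0, 0, 0, 0), (42, 0, 0, 0, 0), (43, 0, 0, 0, 0), (40, 0, 0, 0, 0), (41, 0, 0, 0, 0), (10, 0, 0, 0, 0), (11, 0, 0, 0, 0), (44, 0, 0, 0, 0), (45, 0, 0, 0, 0), (8, 0, 0, 0, 0), (9, 0, 0, 0, 0), (10, 0, 0, 0,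 0), (11, 0, 0, 0, 0), (12, 0, 0, 0, 0), (13, 0, 0, 0, 0), (42, 0, 0, 0, 0), (43, 0, 0, 0, 0), (44, 0, 0, 0, 0), (45, 0, 0, 0, 0), (12, 0, 0, 0, 0), (13, 0, 0, 0, 0), (14, 0, 0, 0, 0), (15, 0, 0, 0, 0), (16, 0, 0, 0, 0), (17, 0, 0, 0, 0), (46, 0, 0, 0, 0), (47, 0, 0, 0, 0), (14, 0, 0, 0, 0), (15, 0, 0, 0, 0), (48, 0, 0, 0, 0), (49, 0, 0, 0, 0), (18, 0, 0, 0, 0), (19, 0, 0, 0, 0), (16, 0, 0, 0, 0), (17, 0, 0, 0, 0), (48, 0, 0, 0, 0), (49, 0, 0, 0, 0), (20, 0, 0, 0, 0), (21, 0, 0, 0, 0), (46, 0, 0, 0, 0), (47, 0, 0, 0, 0), (18, 0, 0, 0, 0), (19, 0, 0, 0, 0), (20, 0, 0, 0, 0), (21, 0, 0, 0, 0), (22, 0, 0, 0, 0), (23, 0, 0, 0, 0), (50, 0, 0, 0, 0), (51, 0, 0, 0, 0), (52, 0, 0, 0, 0), (53, 0, 0, 0, 0), (22, 0, 0, 0, 0), (23, 0, 0, 0, 0), (24, 0, 0, 0, 0), (25, 0, 0, 0, 0), (26, 0, 0, 0, 0), (27, 0, 0, 0, 0), (50, 0, 0, 0, 0), (51, 0, 0, 0, 0), (24, 0, 0, 0, 0), (25,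 0, 0, 0, 0), (54, 0, 0, 0, 0), (55, 0, 0, 0, 0), (52, 0, 0, 0, 0), (53, 0, 0, 0, 0), (26, 0, 0, 0, 0), (27, 0, 0, 0, 0), (54, 0, 0, 0, 0), (55, 0, 0, 0, 0), (28, 0, 0, 0, 0), (29, 0, 0, 0, 0), (56, 0, 0, 0, 0), (57, 0, 0, 0, 0), (30, 0, 0, 0, 0), (31, 0, 0, 0, 0), (28, 0, 0, 0, 0), (29, 0, 0, 0, 0), (32, 0, 0, 0, 0), (33, 0, 0, 0, 0), (58, 0, 0, 0, 0), (59, 0, 0, 0, 0), (56, 0, 0, 0, 0), (57, 0, 0, 0, 0), (32, 0, 0, 0, 0), (33, 0, 0, 0, 0), (34, 0, 0, 0, 0), (35, 0, 0, 0, 0), (30, 0, 0, 0, 0), (31, 0, 0, 0, 0), (58, 0, 0, 0, 0), (59, 0, 0, 0, 0), (34, 0, 0, 0, 0), (35, 0, 0, 0, 0)]]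

def m8_8 : Base := (0, 1, [(0, [0], [0, 1]), (1, [], [2, 5]), (1, [], [3, 4]), (4, [], [5])])

def l8_8 : Cov := [(96, 0, 1, [(0, [0], [0, 1]), (1, [], [2, 5]), (1, [], [3, 4]), (4, [], [5])]),
  (-96, 0, 1, [(0, [0], [0, 1]), (1, [], [4, 5]), (1, [], [2, 3]), (4, [], [5])]),
  (-96, 0, 1, [(0, [0], [0, 3]), (1, [], [2, 5]), (1, [], [1, 4]), (4, [], [5])]),
  (96, 0, 1, [(0, [0], [0, 3]), (1, [], [4, 5]), (1, [], [1, 2]), (4, [], [5])]),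
  (-96, 0, 1, [(0, [0], [1, 2]), (1, [], [0, 5]), (1, [], [3, 4]), (4, [], [5])]),
  (96, 0, 1, [(0, [0], [1, 2]), (1, [], [4, 5]), (1, [], [0, 3]), (4, [], [5])]),
  (96, 0, 1, [(0, [0], [1, 4]), (1, [], [0, 5]), (1, [], [2, 3]), (4, [], [5])]),
  (-96, 0, 1, [(0, [0], [1, 4]), (1, [], [2, 5]), (1, [], [0, 3]), (4, [], [5])]),
  (96, 0, 1, [(0, [0], [2, 3]), (1, [], [0, 5]), (1, [], [1, 4]), (4, [], [5])]),
  (-96, 0, 1, [(0, [0], [2, 3]), (1, [], [4, 5]), (1, [], [0, 1]), (4, [], [5])]),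
  (-96, 0, 1, [(0, [0], [3, 4]), (1, [], [0, 5]), (1, [], [1, 2]), (4, [], [5])]),
  (96, 0, 1, [(0, [0], [3, 4]), (1, [], [2, 5]), (1, [], [0, 1]), (4, [], [5])])]

def z8_8 : Cov := [(0, 0, 1, [(0, [0], [0, 1]), (1, [], [3, 5]), (1, [], [2, 4]), (4, [], [5])]),
  (0, 0, 1, [(0, [0], [0, 2]), (1, [], [1, 5]), (1, [], [3, 4]), (4, [], [5])]),
  (0, 0, 1, [(0, [0], [0, 2]), (1, [], [3, 5]), (1, [], [1, 4]), (4, [], [5])]),
  (0, 0, 1, [(0, [0], [0, 2]), (1, [], [4, 5]), (1, [], [1, 3]), (4, [], [5])]),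
  (0, 0, 1, [(0, [0], [0, 3]), (1, [], [1, 5]), (1, [], [2, 4]), (4, [], [5])]),
  (0, 0, 1, [(0, [0], [0, 4]), (1, [], [1, 5]), (1, [], [2, 3]), (4, [], [5])]),
  (0, 0, 1, [(0, [0], [0, 4]), (1, [], [2, 5]), (1, [], [1, 3]), (4, [], [5])]),
  (0, 0, 1, [(0, [0], [0, 4]), (1, [], [3, 5]), (1, [], [1, 2]), (4, [], [5])]),
  (0, 0, 1, [(0, [0], [1, 2]), (1, [], [3, 5]), (1, [], [0, 4]), (4, [], [5])]),
  (0, 0, 1, [(0, [0], [1, 3]), (1, [], [0, 5]), (1, [], [2, 4]), (4, [], [5])]),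
  (0, 0, 1, [(0, [0], [1, 3]), (1, [], [2, 5]), (1, [], [0, 4]), (4, [], [5])]),
  (0, 0, 1, [(0, [0], [1, 3]), (1, [], [4, 5]), (1, [], [0, 2]), (4, [], [5])]),
  (0, 0, 1, [(0, [0], [1, 4]), (1, [], [3, 5]), (1, [], [0, 2]), (4, [], [5])]),
  (0, 0, 1, [(0, [0], [2, 3]), (1, [], [1, 5]), (1, [], [0, 4]), (4, [], [5])]),
  (0, 0, 1, [(0, [0], [2, 4]), (1, [], [0, 5]), (1, [], [1, 3]), (4, [], [5])]),
  (0, 0, 1, [(0, [0], [2, 4]), (1, [], [1, 5]), (1, [], [0, 3]), (4, [], [5])]),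
  (0, 0, 1, [(0, [0], [2, 4]), (1, [], [3, 5]), (1, [], [0, 1]), (4, [], [5])]),
  (0, 0, 1, [(0, [0], [3, 4]), (1, [], [1, 5]), (1, [], [0, 2]), (4, [], [5])])]

def w8_8 : List (List Wit) := [[(0, 0, 0, 0, 0), (0, 0, 0, 0, 0), (12, 0, 0, 0, 0), (12, 0, 0, 0, 0), (1, 0, 0, 0, 0), (1, 0, 0, 0, 0), (13, 0, 0, 0, 0), (13, 0, 0, 0, 0), (14, 0, 0, 0, 0), (14, 0, 0, 0, 0), (15, 0, 0, 0, 0), (15, 0, 0, 0, 0), (16, 0, 0, 0, 0), (16, 0, 0, 0, 0), (2, 0, 0, 0, 0), (2, 0, 0, 0, 0), (3, 0, 0, 0, 0), (3, 0, 0, 0, 0), (17, 0, 0, 0, 0), (17, 0, 0, 0, 0), (18, 0, 0, 0, 0), (18, 0, 0, 0, 0), (19, 0, 0, 0, 0), (19, 0, 0, 0, 0), (0, 0, 0, 0, 0), (0, 0, 0, 0, 0), (12, 0, 0, 0, 0), (12, 0, 0, 0, 0), (1, 0, 0, 0, 0), (1, 0, 0, 0, 0), (4, 0, 0, 0, 0), (4, 0, 0, 0, 0), (20, 0, 0, 0, 0), (20, 0, 0, 0, 0), (5, 0, 0, 0, 0), (5, 0, 0, 0, 0), (21, 0, 0, 0, 0), (21, 0, 0, 0, 0), (22, 0,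 0, 0, 0), (22, 0, 0, 0, 0), (23, 0, 0, 0, 0), (23, 0, 0, 0, 0), (6, 0, 0, 0, 0), (6, 0, 0, 0, 0), (7, 0, 0, 0, 0), (7, 0, 0, 0, 0), (24, 0, 0, 0, 0), (24, 0, 0, 0, 0), (13, 0, 0, 0, 0), (13, 0, 0, 0, 0), (14, 0, 0, 0, 0), (14, 0, 0, 0, 0), (15, 0, 0, 0, 0), (15, 0, 0, 0, 0), (4, 0, 0, 0, 0), (4, 0, 0, 0, 0), (20, 0, 0, 0, 0), (20, 0, 0, 0, 0), (5, 0, 0, 0, 0), (5, 0, 0, 0, 0), (8, 0, 0, 0, 0), (8, 0, 0, 0, 0), (25, 0, 0, 0, 0), (25, 0, 0, 0, 0), (9, 0, 0, 0, 0), (9, 0, 0, 0, 0), (26, 0, 0, 0, 0), (26, 0, 0, 0, 0), (27, 0, 0, 0, 0), (27, 0, 0, 0, 0), (28, 0, 0, 0, 0), (28, 0, 0, 0, 0), (16, 0, 0, 0, 0), (16, 0, 0, 0, 0), (2, 0, 0, 0, 0), (2, 0, 0, 0, 0), (3, 0, 0, 0, 0), (3, 0, 0, 0, 0), (21, 0, 0, 0, 0), (21, 0, 0, 0, 0), (22, 0, 0, 0, 0), (22, 0, 0, 0, 0), (23, 0, 0, 0, 0), (23, 0, 0, 0, 0), (8, 0, 0, 0, 0), (8, 0, 0, 0, 0), (25, 0, 0, 0, 0), (25, 0, 0, 0, 0),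 (9, 0, 0, 0, 0), (9, 0, 0, 0, 0), (10, 0, 0, 0, 0), (10, 0, 0, 0, 0), (29, 0, 0, 0, 0), (29, 0, 0, 0, 0), (11, 0, 0, 0, 0), (11, 0, 0, 0, 0), (17, 0, 0, 0, 0), (17, 0, 0, 0, 0), (18, 0, 0, 0, 0), (18, 0, 0, 0, 0), (19, 0, 0, 0, 0), (19, 0, 0, 0, 0), (6, 0, 0, 0, 0), (6, 0, 0, 0, 0), (7, 0, 0, 0, 0), (7, 0, 0, 0, 0), (24, 0, 0, 0, 0), (24, 0, 0, 0, 0), (26, 0, 0, 0, 0), (26, 0, 0, 0, 0), (27, 0, 0, 0, 0), (27, 0, 0, 0, 0), (28, 0, 0, 0, 0), (28, 0, 0, 0, 0), (10, 0, 0, 0, 0), (10, 0, 0, 0, 0), (29, 0, 0, 0, 0), (29, 0, 0, 0, 0), (11, 0, 0, 0, 0), (11, 0, 0, 0, 0)]]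

def m8_9 : Base := (0, 0, [(0, [0], [0, 1]), (1, [], [2, 3]), (4, [], [4])])

def l8_9 : Cov := [(96, 0, 0, [(0, [0], [0, 1]), (1, [], [2, 3]), (4, [], [4])]),
  (-96, 0, 0, [(0, [0], [0, 1]), (1, [], [3, 4]), (4, [], [2])]),
  (-96, 0, 0, [(0, [0], [0, 3]), (1, [], [1, 2]), (4, [], [4])]),
  (96, 0, 0, [(0, [0], [0, 3]), (1, [], [1, 4]), (4, [], [2])]),
  (-96, 0, 0, [(0, [0], [1, 2]), (1, [], [0, 3]), (4, [], [4])]),
  (96, 0, 0, [(0, [0], [1, 2]), (1, [], [3, 4]), (4, [], [0])]),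
  (96, 0, 0, [(0, [0], [1, 4]), (1, [], [0, 3]), (4, [], [2])]),
  (-96, 0, 0, [(0, [0], [1, 4]), (1, [], [2, 3]), (4, [], [0])]),
  (96, 0, 0, [(0, [0], [2, 3]), (1, [], [0, 1]), (4, [], [4])]),
  (-96, 0, 0, [(0, [0], [2, 3]), (1, [], [1, 4]), (4, [], [0])]),
  (-96, 0, 0, [(0, [0], [3, 4]), (1, [], [0, 1]), (4, [], [2])]),
  (96, 0, 0, [(0, [0], [3, 4]), (1, [], [1, 2]), (4, [], [0])])]

def z8_9 : Cov := [(0, 0, 0, [(0, [0], [0, 1]), (1, [], [2, 4]), (4, [], [3])]),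
  (0, 0, 0, [(0, [0], [0, 2]), (1, [], [1, 3]), (4, [], [4])]),
  (0, 0, 0, [(0, [0], [0, 2]), (1, [], [1, 4]), (4, [], [3])]),
  (0, 0, 0, [(0, [0], [0, 2]), (1, [], [3, 4]), (4, [], [1])]),
  (0, 0, 0, [(0, [0], [0, 3]), (1, [], [2, 4]), (4, [], [1])]),
  (0, 0, 0, [(0, [0], [0, 4]), (1, [], [1, 2]), (4, [], [3])]),
  (0, 0, 0, [(0, [0], [0, 4]), (1, [], [1, 3]), (4, [], [2])]),
  (0, 0, 0, [(0, [0], [0, 4]), (1, [], [2, 3]), (4, [], [1])]),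
  (0, 0, 0, [(0, [0], [1, 2]), (1, [], [0, 4]), (4, [], [3])]),
  (0, 0, 0, [(0, [0], [1, 3]), (1, [], [0, 2]), (4, [], [4])]),
  (0, 0, 0, [(0, [0], [1, 3]), (1, [], [0, 4]), (4, [], [2])]),
  (0, 0, 0, [(0, [0], [1, 3]), (1, [], [2, 4]), (4, [], [0])]),
  (0, 0, 0, [(0, [0], [1, 4]), (1, [], [0, 2]), (4, [], [3])]),
  (0, 0, 0, [(0, [0], [2, 3]), (1, [], [0, 4]), (4, [], [1])]),
  (0, 0, 0, [(0, [0], [2, 4]), (1, [], [0, 1]), (4, [], [3])]),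
  (0, 0, 0, [(0, [0], [2, 4]), (1, [], [0, 3]), (4, [], [1])]),
  (0, 0, 0, [(0, [0], [2, 4]), (1, [], [1, 3]), (4, [], [0])]),
  (0, 0, 0, [(0, [0], [3, 4]), (1, [], [0, 2]), (4, [], [1])])]

def w8_9 : List (List Wit) := [[(0, 0, 0, 0, 0), (12, 0, 0, 0, 0), (0, 0, 0, 0, 0), (1, 0, 0, 0, 0), (12, 0, 0, 0, 0), (1, 0, 0, 0, 0), (13, 0, 0, 0, 0), (14, 0, 0, 0, 0), (13, 0, 0, 0, 0), (15, 0, 0, 0, 0), (14, 0, 0, 0, 0), (15, 0, 0, 0, 0), (2, 0, 0, 0, 0), (3, 0, 0, 0, 0), (2, 0, 0, 0, 0), (16, 0, 0, 0, 0), (3, 0, 0, 0, 0), (16, 0, 0, 0, 0), (17, 0, 0, 0, 0), (18, 0, 0, 0, 0), (17, 0, 0, 0, 0), (19, 0, 0, 0, 0), (18, 0, 0, 0, 0), (19, 0, 0, 0, 0), (0, 0, 0, 0, 0), (12, 0, 0, 0, 0), (0, 0, 0, 0, 0), (1, 0, 0, 0, 0), (12, 0, 0, 0, 0), (1, 0, 0, 0, 0), (4, 0, 0, 0, 0), (20, 0, 0, 0, 0), (4, 0, 0, 0, 0), (5, 0, 0, 0, 0), (20, 0, 0, 0, 0), (5, 0, 0, 0, 0), (21, 0, 0, 0,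 0), (22, 0, 0, 0, 0), (21, 0, 0, 0, 0), (23, 0, 0, 0, 0), (22, 0, 0, 0, 0), (23, 0, 0, 0, 0), (24, 0, 0, 0, 0), (6, 0, 0, 0, 0), (24, 0, 0, 0, 0), (7, 0, 0, 0, 0), (6, 0, 0, 0, 0), (7, 0, 0, 0, 0), (13, 0, 0, 0, 0), (14, 0, 0, 0, 0), (13, 0, 0, 0, 0), (15, 0, 0, 0, 0), (14, 0, 0, 0, 0), (15, 0, 0, 0, 0), (4, 0, 0, 0, 0), (20, 0, 0, 0, 0), (4, 0, 0, 0, 0), (5, 0, 0, 0, 0), (20, 0, 0, 0, 0), (5, 0, 0, 0, 0), (8, 0, 0, 0, 0), (25, 0, 0, 0, 0), (8, 0, 0, 0, 0), (9, 0, 0, 0, 0), (25, 0, 0, 0, 0), (9, 0, 0, 0, 0), (26, 0, 0, 0, 0), (27, 0, 0, 0, 0), (26, 0, 0, 0, 0), (28, 0, 0, 0, 0), (27, 0, 0, 0, 0), (28, 0, 0, 0, 0), (2, 0, 0, 0, 0), (3, 0, 0, 0, 0), (2, 0, 0, 0, 0), (16, 0, 0, 0, 0), (3, 0, 0, 0, 0), (16, 0, 0, 0, 0), (21, 0, 0, 0, 0), (22, 0, 0, 0, 0), (21, 0, 0, 0, 0), (23, 0, 0, 0, 0), (22, 0, 0, 0, 0), (23, 0, 0, 0, 0), (8, 0, 0, 0, 0), (25, 0, 0, 0, 0), (8,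 0, 0, 0, 0), (9, 0, 0, 0, 0), (25, 0, 0, 0, 0), (9, 0, 0, 0, 0), (10, 0, 0, 0, 0), (29, 0, 0, 0, 0), (10, 0, 0, 0, 0), (11, 0, 0, 0, 0), (29, 0, 0, 0, 0), (11, 0, 0, 0, 0), (17, 0, 0, 0, 0), (18, 0, 0, 0, 0), (17, 0, 0, 0, 0), (19, 0, 0, 0, 0), (18, 0, 0, 0, 0), (19, 0, 0, 0, 0), (24, 0, 0, 0, 0), (6, 0, 0, 0, 0), (24, 0, 0, 0, 0), (7, 0, 0, 0, 0), (6, 0, 0, 0, 0), (7, 0, 0, 0, 0), (26, 0, 0, 0, 0), (27, 0, 0, 0, 0), (26, 0, 0, 0, 0), (28, 0, 0, 0, 0), (27, 0, 0, 0, 0), (28, 0, 0, 0, 0), (10, 0, 0, 0, 0), (29, 0, 0, 0, 0), (10, 0, 0, 0, 0), (11, 0, 0, 0, 0), (29, 0, 0, 0, 0), (11, 0, 0, 0, 0)]]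

theorem tr8 : trK keys lk8 kl8 = true := by
  decide +kernel

theorem x8_0 : expB 1 5 dg0 dg8 m8_0 (l8_0 ++ z8_0) w8_0 = true := by
  decide +kernel

theorem x8_1 : expB 1 5 dg0 dg8 m8_1 (l8_1 ++ z8_1) w8_1 = true := by
  decide +kernel

theorem x8_2 : expB 1 5 dg0 dg8 m8_2 (l8_2 ++ z8_2) w8_2 = true := by
  decide +kernel

theorem x8_3 : expB 1 5 dg0 dg8 m8_3 (l8_3 ++ z8_3) w8_3 = true := by
  decide +kernel

theorem x8_4 : expB 1 5 dg0 dg8 m8_4 (l8_4 ++ z8_4) w8_4 = true := by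
  decide +kernel

theorem x8_5 : expB 1 5 dg0 dg8 m8_5 (l8_5 ++ z8_5) w8_5 = true := by
  decide +kernel

theorem x8_6 : expB 1 5 dg0 dg8 m8_6 (l8_6 ++ z8_6) w8_6 = true := by
  decide +kernel

theorem x8_7 : expB 1 5 dg0 dg8 m8_7 (l8_7 ++ z8_7) w8_7 = true := by
  decide +kernel

theorem x8_8 : expB 1 5 dg0 dg8 m8_8 (l8_8 ++ z8_8) w8_8 = true := by
  decide +kernel

theorem x8_9 : expB 1 5 dg0 dg8 m8_9 (l8_9 ++ z8_9) w8_9 = true := by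
  decide +kernel

theorem t8_0_0 : chkS lk8 1 5 [(1, m8_0)] l8_0
  [(95, 528, 528, 87298146, 23351346), (101, 258, 33, 50615841, 36987141), (99, 258, 33, 50619681, 52715781), (63, 513, 513, 67327506, 37109781), (99, 513, 513, 84162081, 40120581), (44, 258, 33, 50677281, 37970181), (44, 528, 528, 70582626, 21385251), (45, 258, 33, 50746401, 70410501), (35, 513, 513, 67331361, 52838661), (36, 33, 258, 4399461, 17122086), (36, 513, 513, 67461921, 54927621), (44, 513, 513, 67461921, 54927621)]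
  [(35, 96), (36, -192), (44, 288), (45, -96), (63, 96), (95, 96), (99, -192), (101, -96)] = true := by
  decide +kernel

theorem t8_0_1 : chkS lk8 1 5 [(1, m8_0)] l8_1
  [(100, 258, 33, 50615841, 36987141), (104, 258, 33, 50619681, 52715781), (47, 288, 288, 38146131, 68486706), (47, 288, 288, 38142291, 68486691), (102, 258, 33, 50619681, 52715781), (15, 33, 258, 5391201, 22225926), (103, 258, 33, 50615841, 36987141), (47, 258, 33, 50746386, 70410261), (100, 258, 33, 100939041, 103035141), (104, 258, 33, 84292641, 73543941), (102, 513, 513, 50619681, 52715781), (15, 33, 258, 5391126, 5448726), (103, 513, 513, 50746401, 70410501), (47, 258, 33, 50746401, 70410501), (35, 258, 33, 100877601, 102973701), (38, 258, 33, 100881441, 103956741), (105, 258, 33, 84162081, 40120581), (46, 258, 33, 67450386, 38154261), (54, 288, 288, 54923346, 68509746), (36, 288, 288, 37945701,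 17122851), (46, 513, 513, 50677266, 37969941), (46, 513, 513, 50677281, 37970181), (35, 258, 33, 100881441, 103956741), (38, 258, 33, 100877601, 102973701), (105, 513, 513, 50619681, 52715781), (46, 258, 33, 67461921, 54927621), (54, 288, 288, 54919506, 68509731), (36, 288, 288, 37949541, 17122866), (36, 258, 33, 100881441, 103956741), (36, 258, 33, 100877601, 102973701), (106, 258, 33, 100939041, 103035141), (47, 258, 33, 84292626, 73543701), (106, 513, 513, 50677281, 37970181), (47, 258, 33, 84296481, 73605381), (15, 288, 288, 5391201, 22225926), (15, 288, 288, 5391126, 5448726)]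
  [(15, 96), (35, -96), (36, 192), (46, -96), (47, -192), (100, 96), (102, -96), (103, 96), (105, 96), (106, -96)] = true := by
  decide +kernel

theorem t8_0_2 : chkS lk8 1 5 [(1, m8_0)] l8_2
  [(47, 288, 288, 104923701, 100995651), (51, 288, 288, 54923346, 68509746), (57, 288, 288, 105058341, 101007666), (63, 258, 33, 50746401, 70410501), (36, 258, 33, 50677281, 37970181), (54, 33, 258, 21377106, 68497506), (63, 258, 33, 100877586, 102973461), (38, 513, 513, 84108321, 56770821), (37, 258, 33, 50746401, 70410501), (107, 513, 513, 84173586, 56893461), (107, 513, 513, 84162081, 40120581), (39, 513, 513, 50746401, 70410501)]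
  [(36, -96), (37, 96), (38, -96), (39, 96), (47, 96), (51, -96), (54, 96), (57, -96), (63, 192), (107, -192)] = true := by
  decide +kernel

theorem t8_0_3 : chkS lk8 1 5 [(1, m8_0)] l8_3
  [(104, 258, 33, 50619681, 52715781), (100, 258, 33, 50615841, 36987141), (47, 288, 288, 38142291, 68486691), (47, 288, 288, 38146131, 68486706), (15, 33, 258, 5391201, 22225926), (102, 258, 33, 50619681, 52715781), (47, 258, 33, 50746386, 70410261), (103, 258, 33, 50615841, 36987141), (104, 258, 33, 84292641, 73543941), (100, 258, 33, 100939041, 103035141), (15, 33, 258, 5391126, 5448726), (102, 513, 513, 50619681, 52715781), (47, 258, 33, 50746401, 70410501), (103, 513, 513, 50746401, 70410501), (38, 258, 33, 100881441, 103956741), (35, 258, 33, 100877601, 102973701), (46, 258, 33, 67450386, 38154261), (105, 258, 33, 84162081, 40120581), (36, 288, 288, 37945701, 17122851),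 (54, 288, 288, 54923346, 68509746), (46, 513, 513, 50677281, 37970181), (46, 513, 513, 50677266, 37969941), (38, 258, 33, 100877601, 102973701), (35, 258, 33, 100881441, 103956741), (46, 258, 33, 67461921, 54927621), (105, 513, 513, 50619681, 52715781), (36, 288, 288, 37949541, 17122866), (54, 288, 288, 54919506, 68509731), (36, 258, 33, 100877601, 102973701), (36, 258, 33, 100881441, 103956741), (47, 258, 33, 84292626, 73543701), (106, 258, 33, 100939041, 103035141), (47, 258, 33, 84296481, 73605381), (106, 513, 513, 50677281, 37970181), (15, 288, 288, 5391126, 5448726), (15, 288, 288, 5391201, 22225926)]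
  [(36, 96), (38, -96), (47, -96), (54, 96), (104, 96), (106, -96)] = true := by
  decide +kernel

theorem t8_0_4 : chkS lk8 1 5 [(1, m8_0)] l8_4
  [(39, 258, 33, 50746401, 70410501), (36, 258, 33, 84108321, 56770821), (108, 258, 33, 84162081, 40120581), (47, 288, 288, 21373011, 68485986), (54, 33, 258, 104923941, 100999491), (57, 288, 288, 54923346, 68509746)]
  [(36, -192), (39, 192), (47, 192), (54, 192), (57, -192), (108, -192)] = true := by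
  decide +kernel

theorem t8_0_5 : chkS lk8 1 5 [(1, m8_0)] l8_5
  [(109, 1, 1, 50619681, 52715781), (113, 1, 1, 50615841, 36987141), (112, 1, 1, 50619681, 52715781), (48, 1, 1, 50742546, 69427221), (110, 1, 1, 50619681, 52715781), (112, 1, 1, 50615841, 36987141), (111, 1, 1, 50619681, 52715781), (12, 16, 16, 21377616, 68498016), (109, 1, 1, 50619666, 52715541), (113, 1, 1, 50615826, 36986901), (110, 1, 1, 50615826, 36986901), (48, 1, 1, 50742561, 69427461), (111, 1, 1, 50615826, 36986901), (12, 16, 16, 21377541, 67449441), (126, 16, 16, 37097556, 68179506), (126, 1, 1, 67523346, 70656021), (195, 1, 1, 68510496, 54927696), (126, 1, 1, 67523361, 70656261), (196, 1, 1, 102056736, 105062736), (127, 1, 1, 84296481, 73605381), (127, 16, 16, 37097556, 68179506), (126, 1, 1, 84296466, 73605141), (195, 1, 1, 102052896, 105001296), (126, 16, 16, 37093716, 68179491), (196,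 1, 1, 102052896, 105001296), (127, 1, 1, 84292641, 73543941), (127, 16, 16, 37093716, 68179491), (126, 1, 1, 84292641, 73543941), (166, 1, 1, 85345056, 73605456), (10, 16, 16, 4272741, 17117766), (166, 1, 1, 51664416, 36987216), (10, 16, 16, 4272726, 1389126), (167, 1, 1, 85345056, 73605456), (124, 1, 1, 50615826, 36986901), (167, 1, 1, 85341216, 73544016), (124, 1, 1, 50619681, 52715781)]
  [(10, -96), (109, 96), (110, -96), (112, 96), (113, -96), (124, 96), (126, 96), (127, -96), (166, 96), (167, -96), (195, -96), (196, 96)] = true := by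
  decide +kernel

theorem t8_0_6 : chkS lk8 1 5 [(1, m8_0)] l8_6
  [(64, 1, 1, 50742561, 69427461), (65, 1, 1, 50746401, 70410501), (127, 16, 16, 20324436, 68178786), (126, 16, 16, 20324436, 68178786), (164, 1, 1, 68379936, 52838736), (165, 1, 1, 68376096, 37110096)]
  [(64, 192), (65, -192), (126, 192), (127, -192), (164, 192), (165, -192)] = true := by
  decide +kernel

theorem t8_0_7 : chkS lk8 1 5 [(1, m8_0)] l8_7
  [(111, 1, 1, 50619681, 52715781), (110, 1, 1, 50619681, 52715781), (112, 1, 1, 50615841, 36987141), (112, 1, 1, 50619681, 52715781), (12, 16, 16, 21377616, 68498016), (109, 1, 1, 50619681, 52715781), (48, 1, 1, 50742546, 69427221), (113, 1, 1, 50615841, 36987141), (111, 1, 1, 50615826, 36986901), (110, 1, 1, 50615826, 36986901), (12, 16, 16, 21377541, 67449441), (109, 1, 1, 50619666, 52715541), (48, 1, 1, 50742561, 69427461), (113, 1, 1, 50615826,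 36986901), (127, 16, 16, 37097556, 68179506), (196, 1, 1, 102056736, 105062736), (126, 1, 1, 84296466, 73605141), (195, 1, 1, 68510496, 54927696), (127, 1, 1, 84296481, 73605381), (126, 16, 16, 37097556, 68179506), (126, 1, 1, 67523361, 70656261), (126, 1, 1, 67523346, 70656021), (127, 16, 16, 37093716, 68179491), (196, 1, 1, 102052896, 105001296), (126, 1, 1, 84292641, 73543941), (195, 1, 1, 102052896, 105001296), (127, 1, 1, 84292641, 73543941), (126, 16, 16, 37093716, 68179491), (167, 1, 1, 85341216, 73544016), (167, 1, 1, 85345056, 73605456), (124, 1, 1, 50615826, 36986901), (166, 1, 1, 51664416, 36987216), (124, 1, 1, 50619681, 52715781), (166, 1, 1, 85345056, 73605456), (10, 16, 16, 4272726, 1389126), (10, 16, 16, 4272741, 17117766)]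
  [(10, 96), (12, -96), (48, 96), (111, 96), (112, -96), (124, -96), (126, 96), (127, -96), (166, -96), (167, 96), (196, 0)] = true := by
  decide +kernel

theorem t8_0_8 : chkS lk8 1 5 [(1, m8_0)] l8_8
  [(40, 1, 1, 100881441, 103956741), (41, 1, 1, 100881441, 103956741), (115, 1, 1, 100939041, 103035141), (117, 1, 1, 100939041, 103035141), (115, 1, 1, 67523346, 70656021), (117, 1, 1, 100946706, 104079381), (65, 1, 1, 100881426, 103956501), (64, 1, 1, 100881426, 103956501), (96, 16, 16, 69603411, 68551986), (97, 16, 16, 103026771, 101975346), (126, 16, 16, 103875141, 100749891), (127, 16, 16, 103875156, 101732931)]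
  [(40, 96), (41, -96), (64, -96), (65, 96), (96, 96), (97, -96), (115, -192), (117, 192), (126, -96), (127, 96)] = true := by
  decide +kernel

theorem t8_0_9 : chkS lk8 1 5 [(1, m8_0)] l8_9
  [(42, 1, 1, 218145, 3293445), (43, 1, 1, 214305, 2310405), (119, 1, 1, 275745, 2371845), (49, 16, 16, 3473730, 4280355), (119, 1, 1, 283410, 3416085), (49, 1, 1, 344865, 4399365), (28, 16, 16, 4268805, 336705), (22, 16, 16, 4272645, 340545), (98, 16, 16, 2363475, 1312050), (16, 16, 16, 2428980, 4199730), (129, 16, 16, 3277140, 1070115), (128, 1, 1, 275745, 2371845)]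
  [(16, -96), (22, -96), (28, 96), (42, 96), (43, -96), (49, 192), (98, 96), (119, -192), (128, 96), (129, -96)] = true := by
  decide +kernel

theorem t8_1_1 : chkS lk8 1 5 [(1, m8_1)] l8_1
  [(102, 528, 528, 34866771, 34866771), (130, 258, 33, 86393091, 73598241), (136, 528, 528, 33952596, 68167221), (103, 528, 528, 34997331, 68290131), (197, 513, 513, 102056496, 105058896), (136, 258, 33, 86392851, 73598226), (136, 513, 513, 70668546, 70668321), (136, 513, 513, 70668306, 70668306), (198, 513, 513, 102056736, 105062736), (140, 258, 33, 69558531, 54920481), (149, 528, 528, 34866531, 19138131), (139, 288, 288, 2176581, 33633606), (139, 33, 258, 54592806, 2449731), (140, 513, 513, 101008161, 105062661), (105, 528, 528, 34866531, 19138131), (138, 528, 528, 33756516, 18892341), (198, 513, 513, 102056496, 105058896), (140, 258, 33, 69558291, 54920466), (53, 528,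 528, 33887811, 37815861), (54, 18, 18, 38880006, 5449281), (139, 33, 258, 54592086, 1401411), (140, 513, 513, 101007921, 105058821), (149, 258, 33, 100946481, 104075781), (53, 258, 33, 69558531, 54920481), (131, 258, 33, 87318786, 56905761), (14, 288, 288, 34801236, 34621011), (137, 258, 33, 87318786, 56905761), (139, 513, 513, 101008161, 105062661), (139, 528, 528, 33887076, 20981301), (54, 258, 33, 86393091, 73598241), (140, 513, 513, 70607106, 54939681), (140, 513, 513, 70606866, 54939666), (14, 528, 528, 19150416, 34878816), (57, 258, 33, 86393091, 73598241), (139, 33, 258, 6369876, 84947526), (136, 513, 513, 84296241, 73601541)]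
  [(14, -64), (53, 64), (54, 128), (57, -64), (102, 64), (103, -64), (105, -64), (130, 32), (131, 32), (136, 96), (137, -32), (138, -32), (139, 128), (140, -192), (149, -64), (197, -64), (198, 96)] = true := by
  decide +kernel

theorem t8_1_2 : chkS lk8 1 5 [(1, m8_1)] l8_2
  [(15, 258, 33, 35017776, 70391376), (104, 528, 528, 68551251, 68551251), (136, 18, 18, 21373776, 68494176), (130, 513, 513, 70668546, 70668321), (46, 528, 528, 86049891, 23201091), (140, 18, 18, 23404611, 88146786), (38, 528, 528, 51709506, 37838931), (138, 18, 18, 22224966, 5325666), (108, 528, 528, 85197411, 23331411), (132, 513, 513, 87318786, 56905761), (39, 528, 528, 51774786, 69296211), (150, 513, 513, 86269971, 56886546)]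
  [(15, 96), (38, 96), (39, -96), (46, -96), (104, -96), (108, 96), (130, 96), (132, -96), (136, -96), (138, -96), (140, 96), (150, 96)] = true := by
  decide +kernel

theorem t8_1_3 : chkS lk8 1 5 [(1, m8_1)] l8_3
  [(130, 258, 33, 86393091, 73598241), (102, 528, 528, 34866771, 34866771), (103, 528, 528, 34997331, 68290131), (136, 528, 528, 33952596, 68167221), (136, 258, 33, 86392851, 73598226), (197, 513, 513, 102056496, 105058896), (136, 513, 513, 70668306, 70668306), (136, 513, 513, 70668546, 70668321), (140, 258, 33, 69558531, 54920481), (198, 513, 513, 102056736, 105062736), (139, 288, 288, 2176581, 33633606), (149, 528, 528, 34866531, 19138131), (140, 513, 513, 101008161, 105062661), (139, 33, 258, 54592806, 2449731), (138, 528, 528, 33756516, 18892341), (105, 528, 528, 34866531, 19138131), (140, 258, 33, 69558291, 54920466), (198, 513, 513, 102056496,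 105058896), (54, 18, 18, 38880006, 5449281), (53, 528, 528, 33887811, 37815861), (140, 513, 513, 101007921, 105058821), (139, 33, 258, 54592086, 1401411), (53, 258, 33, 69558531, 54920481), (149, 258, 33, 100946481, 104075781), (14, 288, 288, 34801236, 34621011), (131, 258, 33, 87318786, 56905761), (139, 513, 513, 101008161, 105062661), (137, 258, 33, 87318786, 56905761), (54, 258, 33, 86393091, 73598241), (139, 528, 528, 33887076, 20981301), (140, 513, 513, 70606866, 54939666), (140, 513, 513, 70607106, 54939681), (57, 258, 33, 86393091, 73598241), (14, 528, 528, 19150416, 34878816), (136, 513, 513, 84296241, 73601541), (139, 33, 258, 6369876, 84947526)]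
  [(14, -32), (53, 32), (54, 64), (57, -32), (102, 32), (103, -32), (105, -32), (130, 64), (131, -32), (137, 32), (138, -64), (139, -32), (149, 64), (197, -32), (198, 0)] = true := by
  decide +kernel

theorem t8_1_4 : chkS lk8 1 5 [(1, m8_1)] l8_4
  [(150, 258, 33, 84173361, 56889861), (139, 528, 528, 20258886, 4281186), (132, 258, 33, 86270211, 56886561), (140, 18, 18, 90252291, 90309441), (14, 528, 528, 50599506, 34889781), (53, 18, 18, 90252036, 90186561)]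
  [(14, 192), (53, -192), (132, -192), (139, -192), (140, 192), (150, 192)] = true := by
  decide +kernel

theorem t8_1_5 : chkS lk8 1 5 [(1, m8_1)] l8_5
  [(152, 16, 16, 34866531, 19138131), (153, 16, 16, 3417681, 34886406), (55, 16, 16, 33953091, 69273141), (153, 16, 16, 3417441, 19157766), (151, 16, 16, 34866771, 34866771), (154, 16, 16, 34866771, 34866771), (13, 1, 1, 35009856, 69285456), (153, 16, 16, 34866531, 19138131), (199, 1, 1, 102056736, 105062736), (145, 1, 1, 69619971, 70649121), (200, 1, 1, 102056736, 105062736), (147, 1, 1, 84296481, 73605381), (147, 1, 1, 69619971, 70649121), (145, 1, 1, 84296481, 73605381), (145, 16, 16, 50729556, 68182581), (145, 1, 1, 69619731, 70649106), (200, 1, 1, 102056496, 105058896), (147, 1, 1, 84296241, 73601541), (201, 1, 1, 102056496, 105058896), (146, 1, 1, 84296241, 73601541), (146, 16, 16, 50729556, 68182581),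 (147, 1, 1, 69619731, 70649106), (109, 16, 16, 34866771, 34866771), (113, 16, 16, 34866771, 34866771), (110, 16, 16, 34866531, 19138131), (64, 16, 16, 34997571, 69273171), (112, 16, 16, 34866771, 34866771), (65, 16, 16, 34997571, 69273171), (141, 16, 16, 33756756, 34620981), (162, 1, 1, 87441426, 73617426), (161, 1, 1, 87441666, 73617441), (144, 1, 1, 84296481, 73605381), (143, 16, 16, 33756516, 18892341), (161, 1, 1, 87441426, 73617426), (163, 1, 1, 87441666, 73617441), (11, 16, 16, 50599506, 34889781)]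
  [(11, 64), (13, -32), (55, 32), (64, -32), (65, 32), (109, -32), (110, 32), (112, -32), (113, 32), (141, 32), (143, -32), (144, -64), (145, -64), (146, -32), (147, 96), (151, -64), (152, 64), (153, -64), (154, 64), (161, 96), (162, -32), (163, -64), (199, 32), (200, -96), (201, 64)] = true := by
  decide +kernel

theorem t8_1_6 : chkS lk8 1 5 [(1, m8_1)] l8_6
  [(13, 1, 1, 50734401, 69296901), (55, 16, 16, 20325696, 69292896), (146, 16, 16, 19279941, 67188066), (147, 16, 16, 19279941, 67188066), (160, 16, 16, 19932516, 18895716), (159, 16, 16, 19932756, 34624356)]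
  [(13, 192), (55, -192), (146, -192), (147, 192), (159, -192), (160, 192)] = true := by
  decide +kernel

theorem t8_1_7 : chkS lk8 1 5 [(1, m8_1)] l8_7
  [(13, 1, 1, 35009856, 69285456), (151, 16, 16, 34866771, 34866771), (154, 16, 16, 34866771, 34866771), (55, 16, 16, 33953091, 69273141), (153, 16, 16, 34866531, 19138131), (152, 16, 16, 34866531, 19138131), (153, 16, 16, 3417441, 19157766), (153, 16, 16, 3417681, 34886406), (147, 1, 1, 69619971, 70649121), (200, 1, 1, 102056736, 105062736), (145, 1, 1, 84296481, 73605381), (199, 1, 1, 102056736, 105062736), (147, 1, 1, 84296481, 73605381), (145, 1, 1, 69619971, 70649121), (146, 16, 16, 50729556, 68182581), (201, 1, 1, 102056496, 105058896), (147, 1, 1, 69619731, 70649106), (200, 1, 1, 102056496, 105058896), (146, 1, 1, 84296241, 73601541), (145, 16, 16, 50729556, 68182581), (147, 1, 1, 84296241, 73601541),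 (145, 1, 1, 69619731, 70649106), (112, 16, 16, 34866771, 34866771), (110, 16, 16, 34866531, 19138131), (65, 16, 16, 34997571, 69273171), (109, 16, 16, 34866771, 34866771), (64, 16, 16, 34997571, 69273171), (113, 16, 16, 34866771, 34866771), (163, 1, 1, 87441666, 73617441), (143, 16, 16, 33756516, 18892341), (161, 1, 1, 87441426, 73617426), (161, 1, 1, 87441666, 73617441), (11, 16, 16, 50599506, 34889781), (141, 16, 16, 33756756, 34620981), (144, 1, 1, 84296481, 73605381), (162, 1, 1, 87441426, 73617426)]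
  [(11, -32), (13, 64), (55, -64), (64, -32), (65, 32), (109, -32), (110, 32), (112, -32), (113, 32), (141, -64), (143, 64), (144, 32), (145, -64), (146, -32), (147, 96), (151, 32), (152, -32), (153, 32), (154, -32), (161, -96), (162, 64), (163, 32), (199, 32), (201, -32)] = true := by
  decide +kernel

theorem t8_1_8 : chkS lk8 1 5 [(1, m8_1)] l8_8
  [(155, 1, 1, 67523121, 70652421), (156, 1, 1, 100946481, 104075781), (40, 16, 16, 51774786, 69296211), (41, 16, 16, 101909826, 102842451), (133, 1, 1, 69619971, 70649121), (134, 1, 1, 103043331, 104072481), (145, 16, 16, 102839301, 100808001), (147, 16, 16, 102839301, 100808001), (114, 16, 16, 68551251, 68551251), (116, 16, 16, 101974611, 101974611), (12, 1, 1, 101008161, 105062661), (48, 16, 16, 102827091, 101844291)]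
  [(12, -96), (40, -96), (41, 96), (48, 96), (114, 96), (116, -96), (133, -96), (134, 96), (145, 96), (147, -96), (155, 96), (156, -96)] = true := by
  decide +kernel

theorem t8_1_9 : chkS lk8 1 5 [(1, m8_1)] l8_9
  [(157, 1, 1, 283185, 3412485), (31, 16, 16, 2438160, 4338960), (42, 16, 16, 1246530, 2179155), (43, 16, 16, 1246530, 2179155), (135, 1, 1, 2380035, 3409185), (62, 1, 1, 2441475, 4392225), (148, 1, 1, 2380035, 3409185), (29, 1, 1, 2437380, 4207905), (118, 16, 16, 1311315, 1311315), (33, 1, 1, 2441235, 4392210), (32, 1, 1, 344865, 4399365), (22, 1, 1, 344865, 4399365)]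
  [(22, 96), (29, -96), (31, -96), (32, -96), (33, -96), (42, -96), (43, 96), (62, 96), (118, 96), (135, -96), (148, 96), (157, 96)] = true := by
  decide +kernel

theorem t8_2_2 : chkS lk8 1 5 [(1, m8_2)] l8_2
  [(3, 528, 528, 70321746, 35016771), (103, 288, 288, 73466421, 84283971), (103, 288, 288, 73405221, 84287796), (56, 513, 513, 104153346, 105074721), (50, 528, 528, 87098466, 23220291), (106, 288, 288, 72357411, 39190836), (54, 18, 18, 23216181, 84087906), (14, 513, 513, 70668546, 70668321), (54, 258, 33, 102056496, 105058896), (14, 33, 258, 54658641, 34956291), (57, 258, 33, 104153346, 105074721), (53, 513, 513, 85221936, 56889936)]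
  [(3, 96), (14, -192), (50, -96), (53, 96), (54, 192), (56, 96), (57, -96), (103, -192), (106, 96)] = true := by
  decide +kernel

theorem t8_2_3 : chkS lk8 1 5 [(1, m8_2)] l8_3
  [(15, 18, 18, 19227696, 54662496), (15, 18, 18, 19289136, 70391136), (104, 288, 288, 39912501, 84022851), (136, 258, 33, 68510256, 54923856), (104, 288, 288, 39850821, 83961396), (136, 258, 33, 68571936, 70656336), (130, 288, 288, 56689221, 83976771), (130, 288, 288, 56689701, 84042051), (104, 288, 288, 37754451, 34932276), (140, 258, 33, 102056496, 105058896), (108, 288, 288, 38802276, 22029876), (139, 288, 288, 55641186, 22175811), (132, 288, 288, 55640676, 22045251), (130, 288, 288, 54593106, 34955331), (46, 288, 288, 38802276, 22029876), (46, 288, 288, 38863716, 22029891), (104, 288, 288, 37754211, 19203636), (140, 258, 33, 102056736, 105062736), (108, 288, 288, 38864436, 38803011),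 (139, 288, 288, 55580226, 38887476), (132, 288, 288, 55641636, 38822211), (130, 288, 288, 54592866, 19226691), (38, 288, 288, 38802276, 22029876), (53, 258, 33, 102056496, 105058896), (39, 288, 288, 36705606, 2184756), (14, 288, 288, 4400721, 34947846), (150, 33, 258, 38876676, 38811201), (138, 513, 513, 68510496, 54927696), (38, 288, 288, 38863716, 22029891), (53, 258, 33, 101995056, 104075856), (138, 258, 33, 85344816, 73601616), (138, 258, 33, 85345056, 73605456), (39, 288, 288, 36767046, 2184771), (14, 288, 288, 4339281, 34944006), (150, 33, 258, 38998116, 22038066), (138, 513, 513, 68571696, 70652496)]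
  [(14, -96), (15, 96), (46, -96), (53, 96), (136, -96), (139, 96), (150, 0)] = true := by
  decide +kernel

theorem t8_2_4 : chkS lk8 1 5 [(1, m8_2)] l8_4
  [(46, 288, 288, 22029156, 22029156), (14, 258, 33, 70668546, 70668321), (15, 18, 18, 103093296, 104994096), (139, 258, 33, 85344816, 73601616), (56, 258, 33, 104153346, 105074721), (137, 513, 513, 68510496, 54927696)]
  [(14, -192), (15, -192), (46, 192), (56, 192), (137, -192), (139, 192)] = true := by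
  decide +kernel

theorem t8_2_5 : chkS lk8 1 5 [(1, m8_2)] l8_5
  [(144, 1, 1, 68571696, 70652496), (141, 1, 1, 68571936, 70656336), (144, 1, 1, 68510496, 54927696), (141, 1, 1, 68571696, 70652496), (11, 16, 16, 19150416, 34878816), (143, 1, 1, 68510496, 54927696), (11, 16, 16, 19088976, 34817376), (143, 1, 1, 68571696, 70652496), (162, 1, 1, 68571696, 70652496), (141, 1, 1, 70668546, 70668321), (161, 1, 1, 68571696, 70652496), (159, 1, 1, 68571696, 70652496), (143, 1, 1, 70668546, 70668321), (160, 1, 1, 68571696, 70652496), (162, 1, 1, 68510496, 54927696), (141, 1, 1, 70668306, 70668306), (161, 1, 1, 68571936, 70656336), (159, 1, 1, 68571936, 70656336), (163, 1, 1, 68571936, 70656336), (160, 1, 1, 68510496, 54927696), (163, 1, 1, 68510496, 54927696), (143, 1, 1, 70668306, 70668306), (10, 1, 1, 85345056, 73605456), (166, 16, 16, 37754451, 34932276), (124, 16,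 16, 37815651, 19203651), (165, 16, 16, 37754451, 34932276), (167, 16, 16, 37754451, 34932276), (164, 16, 16, 37754451, 34932276), (10, 1, 1, 85222176, 56893776), (166, 16, 16, 37815651, 19203651), (166, 16, 16, 39912501, 84022851), (165, 16, 16, 37815651, 19203651), (124, 16, 16, 37754211, 19203636), (166, 16, 16, 39912261, 83961411), (167, 16, 16, 37815891, 34932291), (164, 16, 16, 37815891, 34932291)]
  [(11, -96), (141, -96), (143, 96), (144, 96), (159, 96), (160, -96), (161, -96), (163, 96), (164, 96), (165, -96), (166, 96), (167, -96)] = true := by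
  decide +kernel

theorem t8_2_6 : chkS lk8 1 5 [(1, m8_2)] l8_6
  [(2, 1, 1, 34879056, 34879056), (142, 1, 1, 68510496, 54927696), (11, 1, 1, 38162451, 70583826), (144, 16, 16, 23273541, 83968866), (124, 16, 16, 20981091, 19202916), (10, 1, 1, 101995296, 104079696)]
  [(2, 192), (10, -192), (11, -192), (124, 192), (142, -192), (144, 192)] = true := by
  decide +kernel

theorem t8_2_7 : chkS lk8 1 5 [(1, m8_2)] l8_7
  [(11, 16, 16, 19088976, 34817376), (11, 16, 16, 19150416, 34878816), (143, 1, 1, 68510496, 54927696), (144, 1, 1, 68510496, 54927696), (143, 1, 1, 68571696, 70652496), (144, 1, 1, 68571696, 70652496), (141, 1, 1, 68571696, 70652496), (141, 1, 1, 68571936, 70656336), (143, 1, 1, 70668546, 70668321), (161, 1, 1, 68571696, 70652496), (160, 1, 1, 68571696, 70652496), (162, 1, 1, 68571696, 70652496), (159, 1, 1, 68571696, 70652496), (141, 1, 1, 70668546,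 70668321), (163, 1, 1, 68510496, 54927696), (163, 1, 1, 68571936, 70656336), (143, 1, 1, 70668306, 70668306), (161, 1, 1, 68571936, 70656336), (160, 1, 1, 68510496, 54927696), (162, 1, 1, 68510496, 54927696), (159, 1, 1, 68571936, 70656336), (141, 1, 1, 70668306, 70668306), (167, 16, 16, 37754451, 34932276), (124, 16, 16, 37815651, 19203651), (164, 16, 16, 37754451, 34932276), (10, 1, 1, 85345056, 73605456), (165, 16, 16, 37754451, 34932276), (166, 16, 16, 37754451, 34932276), (167, 16, 16, 37815891, 34932291), (124, 16, 16, 37754211, 19203636), (166, 16, 16, 39912261, 83961411), (166, 16, 16, 39912501, 84022851), (164, 16, 16, 37815891, 34932291), (10, 1, 1, 85222176, 56893776), (165, 16, 16, 37815651, 19203651), (166, 16, 16, 37815651, 19203651)]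
  [(10, -96), (11, 96), (124, 96), (144, -96), (162, 96), (163, -96), (167, 0)] = true := by
  decide +kernel

theorem t8_2_8 : chkS lk8 1 5 [(1, m8_2)] l8_8
  [(13, 16, 16, 104153601, 105075201), (55, 1, 1, 101995056, 104075856), (64, 16, 16, 103941201, 101864451), (65, 16, 16, 103941441, 102847491), (59, 1, 1, 104153346, 105074721), (58, 1, 1, 104091906, 104091681), (113, 16, 16, 73409301, 84288276), (111, 16, 16, 73409301, 84288276), (113, 16, 16, 73531701, 84284451), (112, 16, 16, 73531701, 84284451), (6, 16, 16, 103875906, 102846531), (52, 16, 16, 103875666, 101863491)]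
  [(6, -96), (13, 96), (52, 96), (55, -96), (58, 96), (59, -96), (64, -96), (65, 96), (111, -96), (112, -96), (113, 192)] = true := by
  decide +kernel

theorem t8_2_9 : chkS lk8 1 5 [(1, m8_2)] l8_9
  [(27, 16, 16, 3490305, 4411905), (26, 16, 16, 2442000, 4400400), (22, 1, 1, 1393440, 4399440), (28, 1, 1, 1393440, 4399440), (61, 1, 1, 3490050, 4411425), (60, 1, 1, 3490050, 4411425), (28, 1, 1, 3428610, 3428385), (120, 16, 16, 5251860, 5251860), (32, 1, 1, 3489810, 4411410), (120, 16, 16, 5374260, 5248035), (25, 16, 16, 3212610, 2183235), (23, 16, 16, 3212610, 2183235)]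
  [(22, -96), (23, 96), (25, -96), (26, -96), (27, 96), (28, 192), (32, 96), (60, 96), (61, -96), (120, -192)] = true := by
  decide +kernel

theorem t8_3_3 : chkS lk8 1 5 [(1, m8_3)] l8_3
  [(102, 528, 528, 34621011, 34801236), (130, 258, 33, 86270211, 56886561), (136, 258, 33, 86270211, 56886561), (197, 513, 513, 101995296, 104079696), (103, 528, 528, 34628931, 52495956), (136, 528, 528, 33645876, 52434501), (136, 513, 513, 70606866, 54939666), (136, 513, 513, 70607106, 54939681), (106, 528, 528, 34624611, 20055636), (140, 528, 528, 33641316, 19932741), (54, 18, 18, 39063606, 5510706), (53, 528, 528, 33641571, 20055621), (140, 513, 513, 100946721, 104079621), (139, 33, 258, 54531366, 2449716), (105, 528, 528, 34620771, 19072596), (138, 528, 528, 33633636, 18888261), (106, 528, 528, 34625091, 36767316), (140, 528, 528, 33642036, 36705861), (139, 288, 288, 2298981,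 16926006), (149, 528, 528, 34621011, 34801236), (140, 513, 513, 100946481, 104075781), (139, 33, 258, 54530646, 1401396), (54, 258, 33, 86270211, 56886561), (139, 528, 528, 33641316, 19932741), (57, 258, 33, 86270211, 56886561), (14, 528, 528, 19088976, 34817376), (136, 513, 513, 84173601, 56893701), (139, 33, 258, 6493476, 85999926), (53, 258, 33, 69619971, 70649121), (149, 258, 33, 101007921, 105058821), (139, 513, 513, 70668306, 70668306), (139, 513, 513, 70668546, 70668321), (14, 288, 288, 34616916, 34616916), (131, 258, 33, 87441666, 73617441), (139, 513, 513, 100946481, 104075781), (137, 258, 33, 87441426, 73617426)]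
  [(14, -64), (53, 64), (54, -64), (57, 32), (102, 64), (103, -64), (105, -64), (106, 96), (130, 32), (131, -64), (137, 64), (138, -32), (139, -64), (149, 128), (197, -64)] = true := by
  decide +kernel

theorem t8_3_4 : chkS lk8 1 5 [(1, m8_3)] l8_4
  [(46, 528, 528, 18895971, 20055396), (139, 528, 528, 20074566, 3232866), (15, 258, 33, 102048816, 104993616), (136, 18, 18, 104994096, 103093296), (14, 528, 528, 50415186, 34824261), (53, 18, 18, 90312756, 90182706)]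
  [(14, 192), (15, -192), (46, 192), (53, -192), (136, 192), (139, -192)] = true := by
  decide +kernel

theorem t8_3_5 : chkS lk8 1 5 [(1, m8_3)] l8_5
  [(55, 16, 16, 33645651, 51512901), (153, 16, 16, 3294801, 34821126), (152, 16, 16, 34621011, 34801236), (153, 16, 16, 3294561, 19092486), (13, 1, 1, 34825536, 52512336), (153, 16, 16, 34621011, 34801236), (151, 16, 16, 34621011, 34801236), (154, 16, 16, 34620771, 19072596), (145, 16, 16, 50423076, 52453701), (145, 1, 1, 69558531, 54920481), (147, 16, 16, 50423076, 52453701), (147, 1, 1, 84173601, 56893701), (146, 1, 1, 69558531, 54920481), (146, 1, 1, 84173601, 56893701), (199, 1, 1, 101995056, 104075856), (145, 1, 1, 69558291, 54920466), (147, 16, 16, 50422356, 51405381), (147, 1, 1, 84173361, 56889861), (146, 16, 16, 50422356, 51405381), (145, 1, 1, 84173361, 56889861), (201, 1, 1, 101995056, 104075856), (146,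 1, 1, 69558291, 54920466), (141, 16, 16, 33633876, 34616901), (162, 1, 1, 87318786, 56905761), (143, 16, 16, 33633636, 18888261), (144, 1, 1, 84173361, 56889861), (163, 1, 1, 87318786, 56905761), (11, 16, 16, 50415186, 34824261), (109, 16, 16, 34621011, 34801236), (113, 16, 16, 34620771, 19072596), (111, 16, 16, 34621011, 34801236), (64, 16, 16, 34628691, 51512916), (110, 16, 16, 34620771, 19072596), (111, 16, 16, 34620771, 19072596), (112, 16, 16, 34621011, 34801236), (65, 16, 16, 34628931, 52495956)]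
  [(11, 32), (13, -64), (55, 64), (64, -64), (65, 64), (109, 32), (110, -32), (111, 96), (112, -64), (113, -32), (141, -32), (143, 32), (144, -32), (145, -32), (146, 32), (151, -32), (152, 32), (153, -32), (154, 32), (162, 32), (163, -32), (199, -32), (201, 32)] = true := by
  decide +kernel

theorem t8_3_6 : chkS lk8 1 5 [(1, m8_3)] l8_6
  [(13, 1, 1, 50488641, 52519941), (55, 16, 16, 20079696, 51532896), (146, 16, 16, 19095621, 50414946), (145, 16, 16, 19095621, 50414946), (48, 16, 16, 18900051, 51512676), (12, 1, 1, 84173601, 56893701)]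
  [(12, -192), (13, 192), (48, 192), (55, -192), (145, 192), (146, -192)] = true := by
  decide +kernel

theorem t8_3_7 : chkS lk8 1 5 [(1, m8_3)] l8_7
  [(151, 16, 16, 34621011, 34801236), (13, 1, 1, 34825536, 52512336), (153, 16, 16, 34621011, 34801236), (152, 16, 16, 34621011, 34801236), (154, 16, 16, 34620771, 19072596), (55, 16, 16, 33645651, 51512901), (153, 16, 16, 3294561, 19092486), (153, 16, 16, 3294801, 34821126), (146, 1, 1, 69558531, 54920481), (147, 16, 16, 50423076, 52453701), (146, 1, 1, 84173601, 56893701), (145, 16, 16, 50423076, 52453701), (147, 1, 1, 84173601, 56893701), (145, 1, 1, 69558531, 54920481), (201, 1, 1, 101995056, 104075856), (146, 16, 16, 50422356, 51405381), (146, 1, 1, 69558291, 54920466), (147, 16, 16, 50422356, 51405381), (145, 1, 1, 84173361, 56889861), (199, 1, 1, 101995056, 104075856), (147, 1, 1, 84173361, 56889861), (145,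 1, 1, 69558291, 54920466), (163, 1, 1, 87318786, 56905761), (143, 16, 16, 33633636, 18888261), (11, 16, 16, 50415186, 34824261), (141, 16, 16, 33633876, 34616901), (144, 1, 1, 84173361, 56889861), (162, 1, 1, 87318786, 56905761), (112, 16, 16, 34621011, 34801236), (110, 16, 16, 34620771, 19072596), (111, 16, 16, 34620771, 19072596), (111, 16, 16, 34621011, 34801236), (65, 16, 16, 34628931, 52495956), (109, 16, 16, 34621011, 34801236), (64, 16, 16, 34628691, 51512916), (113, 16, 16, 34620771, 19072596)]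
  [(11, 32), (13, 32), (55, -32), (64, 32), (65, -32), (109, -64), (110, 64), (111, -96), (112, 32), (113, 64), (141, -32), (143, 32), (144, -32), (145, -32), (146, 32), (151, 64), (152, -64), (153, 64), (154, -64), (162, 32), (163, -32), (199, 64), (201, -64)] = true := by
  decide +kernel

theorem t8_3_8 : chkS lk8 1 5 [(1, m8_3)] l8_8
  [(155, 1, 1, 67461681, 54923781), (155, 1, 1, 101007921, 105058821), (55, 16, 16, 103945296, 101864496), (13, 1, 1, 100808001, 102839301), (133, 1, 1, 69558531, 54920481), (133, 1, 1, 103104771, 105055521), (114, 16, 16, 68183331, 52822356), (114, 16, 16, 101729571, 102957396), (145, 16, 16, 102961221, 100746546), (146, 16, 16, 102961221, 100746546), (12, 1, 1, 100946721, 104079621), (48, 16, 16, 102765651, 101844276)]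
  [(12, -96), (13, 96), (48, 96), (55, -96), (145, 96), (146, -96), (155, 0)] = true := by
  decide +kernel

theorem t8_3_9 : chkS lk8 1 5 [(1, m8_3)] l8_9
  [(31, 1, 1, 1332000, 3416400), (31, 16, 16, 2315280, 3294480), (26, 1, 1, 1254720, 2179920), (27, 1, 1, 144705, 2176005), (62, 16, 16, 2314500, 3163425), (62, 1, 1, 2380035, 3409185), (33, 1, 1, 283425, 3416325), (33, 1, 1, 2380035, 3409185), (30, 1, 1, 344625, 4395525), (29, 1, 1, 2314260, 3163410), (32, 1, 1, 283425, 3416325), (22, 1, 1, 283425, 3416325)]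
  [(22, 96), (26, -96), (27, 96), (29, -96), (30, 96), (32, -96), (62, 0)] = true := by
  decide +kernel

theorem t8_4_4 : chkS lk8 1 5 [(1, m8_4)] l8_4
  [(121, 528, 528, 34628931, 52495956), (130, 258, 33, 73740816, 88486416), (122, 528, 528, 34625091, 36767316), (138, 288, 288, 51401286, 3236436), (138, 288, 288, 51398226, 34824276), (130, 258, 33, 73732146, 88477746)]
  [(121, 192), (122, -192), (130, -384), (138, 384)] = true := by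
  decide +kernel

theorem t8_4_5 : chkS lk8 1 5 [(1, m8_4)] l8_5
  [(159, 16, 16, 34628931, 52495956), (161, 1, 1, 73728291, 88473891), (162, 1, 1, 73732131, 88473906), (144, 1, 1, 73736976, 88482576), (160, 16, 16, 34625091, 36767316), (162, 1, 1, 73728291, 88473891), (163, 1, 1, 73732131, 88473906), (11, 16, 16, 21194016, 52773216), (159, 16, 16, 34628916, 52434516), (161, 1, 1, 73728306, 88477731), (160, 16, 16, 34628916, 52434516), (144, 1, 1, 73736961, 88482561), (163, 1, 1, 73728306, 88477731), (11, 16, 16, 21193986, 52772961), (144, 1, 1, 73732131, 88473906), (162, 1, 1, 73736976, 88482576), (160, 16, 16, 34620246, 1254996), (162, 1, 1, 73736961, 88482561), (159, 16, 16, 34620261, 16983636), (161, 1, 1, 73736961, 88482561), (11, 16, 16, 21176421, 17122146), (163, 1, 1, 73736976, 88482576), (160, 16, 16, 34616421, 16922196), (144, 1, 1, 73728291, 88473891),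 (159, 16, 16, 34616421, 16922196), (161, 1, 1, 73740801, 88486401), (11, 16, 16, 21168741, 17121891), (163, 1, 1, 73740801, 88486401), (124, 16, 16, 34620261, 16983636), (10, 1, 1, 90452496, 90452496), (124, 16, 16, 34616406, 1193556), (10, 1, 1, 90452481, 90452481), (10, 1, 1, 90443826, 90443826), (124, 16, 16, 34628931, 52495956), (10, 1, 1, 90439986, 90443811), (124, 16, 16, 34625076, 36705876)]
  [(10, -192), (124, 192), (159, 192), (160, -192), (161, -192), (162, 192), (163, 0)] = true := by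
  decide +kernel

theorem t8_4_6 : chkS lk8 1 5 [(1, m8_4)] l8_6
  [(143, 16, 16, 20076096, 36787296), (141, 16, 16, 20079936, 52515936), (141, 16, 16, 20070501, 16995426), (143, 16, 16, 20070486, 1266786), (123, 16, 16, 34628931, 52495956), (125, 16, 16, 34625091, 36767316)]
  [(123, 192), (125, -192), (141, -384), (143, 384)] = true := by
  decide +kernel

theorem t8_4_7 : chkS lk8 1 5 [(1, m8_4)] l8_7
  [(163, 1, 1, 73732131, 88473906), (160, 16, 16, 34625091, 36767316), (162, 1, 1, 73728291, 88473891), (162, 1, 1, 73732131, 88473906), (11, 16, 16, 21194016, 52773216), (159, 16, 16, 34628931, 52495956), (144, 1, 1, 73736976, 88482576), (161, 1, 1, 73728291, 88473891), (163, 1, 1, 73728306, 88477731), (160, 16, 16, 34628916, 52434516), (11, 16, 16, 21193986, 52772961), (159, 16, 16, 34628916, 52434516), (144, 1, 1, 73736961, 88482561), (161, 1, 1, 73728306,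 88477731), (11, 16, 16, 21176421, 17122146), (159, 16, 16, 34620261, 16983636), (163, 1, 1, 73736976, 88482576), (160, 16, 16, 34620246, 1254996), (161, 1, 1, 73736961, 88482561), (144, 1, 1, 73732131, 88473906), (162, 1, 1, 73736961, 88482561), (162, 1, 1, 73736976, 88482576), (11, 16, 16, 21168741, 17121891), (159, 16, 16, 34616421, 16922196), (163, 1, 1, 73740801, 88486401), (160, 16, 16, 34616421, 16922196), (161, 1, 1, 73740801, 88486401), (144, 1, 1, 73728291, 88473891), (10, 1, 1, 90439986, 90443811), (10, 1, 1, 90443826, 90443826), (124, 16, 16, 34628931, 52495956), (124, 16, 16, 34616406, 1193556), (124, 16, 16, 34625076, 36705876), (124, 16, 16, 34620261, 16983636), (10, 1, 1, 90452481, 90452481), (10, 1, 1, 90452496, 90452496)]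
  [(10, 192), (11, -192), (124, -192), (144, 192), (162, -192), (163, 192)] = true := by
  decide +kernel

theorem t8_4_8 : chkS lk8 1 5 [(1, m8_4)] l8_8
  [(58, 16, 16, 103961616, 103961616), (59, 16, 16, 103961616, 103961616), (153, 1, 1, 73740801, 88486401), (154, 1, 1, 73740801, 88486401), (153, 1, 1, 73728306, 88477731), (154, 1, 1, 73736976, 88482576), (12, 1, 1, 106181121, 106181121), (48, 16, 16, 101733411, 103940436), (58, 16, 16, 103944276, 101733426), (59, 16, 16, 103944276, 101733426), (48, 16, 16, 101720916, 101720916), (12, 1, 1, 106168626, 106172451)]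
  [(12, 192), (48, -192), (58, 192), (59, -192), (153, -192), (154, 192)] = true := by
  decide +kernel

theorem t8_4_9 : chkS lk8 1 5 [(1, m8_4)] l8_9
  [(60, 16, 16, 3298320, 3298320), (61, 1, 1, 5514000, 5514000), (158, 1, 1, 5517825, 5517825), (27, 16, 16, 5509920, 5513520), (158, 1, 1, 5514000, 5514000), (27, 16, 16, 5513235, 5505810), (32, 1, 1, 5513985, 5513985), (22, 1, 1, 5517825, 5517825), (60, 16, 16, 3280980, 1070130), (61, 1, 1, 5509155, 5505330), (22, 1, 1, 5505330, 5509155), (32, 1, 1, 5505315, 5505315)]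
  [(22, -192), (27, 192), (32, 192), (60, 192), (61, -192), (158, -192)] = true := by
  decide +kernel

theorem t8_5_5 : chkS lk8 1 5 [(1, m8_5)] l8_5
  [(184, 0, 0, 51668256, 52715856), (185, 0, 0, 51664416, 36987216), (92, 0, 0, 68379936, 52838736), (179, 0, 0, 22295136, 22295136), (178, 0, 0, 85222176, 56893776), (92, 0, 0, 68376096, 37110096), (179, 0, 0, 85345056, 73605456), (188, 0, 0, 85345056, 73605456), (176, 0, 0, 34891056, 52696656), (177, 0, 0, 34887216, 36968016), (170, 0, 0, 84162081, 40120581), (171, 0, 0, 19161861, 50603361), (85, 0, 0, 3298836, 36721686), (84, 0, 0, 3302676, 52450326), (85, 0, 0, 21373011, 68485986), (85, 0, 0, 50746401, 70410501), (168, 0, 0, 101983536, 103027536), (78, 0, 0, 50746401, 70410501), (66, 0, 0, 85156896, 56770896), (67, 0, 0, 21176421, 17122146), (68, 0, 0, 85156896, 56770896), (81, 0, 0, 67515681, 69611781), (170,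 0, 0, 34887216, 36968016), (85, 0, 0, 21365331, 68485731), (66, 0, 0, 85149216, 40059216), (67, 0, 0, 21168741, 17121891), (68, 0, 0, 85149216, 40059216), (74, 0, 0, 67523361, 70656261), (171, 0, 0, 34948656, 37951056), (84, 0, 0, 50619681, 52715781), (78, 0, 0, 3233316, 36720966), (77, 0, 0, 50619681, 52715781), (67, 0, 0, 68498976, 38154576), (74, 0, 0, 4272741, 17117766), (67, 0, 0, 68510496, 54927696), (73, 0, 0, 67461921, 54927621)]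
  [(66, 96), (67, -192), (73, 64), (74, 64), (77, -64), (78, 128), (81, -32), (84, -64), (85, 64), (92, 96), (168, -64), (170, -64), (171, 64), (176, 32), (177, -32), (178, -64), (179, -64), (184, 64), (185, -64), (188, 32)] = true := by
  decide +kernel

theorem t8_5_6 : chkS lk8 1 5 [(1, m8_5)] l8_6
  [(180, 0, 0, 85222176, 56893776), (91, 0, 0, 21377616, 68498016), (67, 0, 0, 85156896, 56770896), (78, 0, 0, 21373011, 68485986), (72, 0, 0, 68379936, 52838736), (172, 0, 0, 85206576, 40112976)]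
  [(67, -192), (72, 192), (78, 192), (91, -192), (172, -192), (180, 192)] = true := by
  decide +kernel

theorem t8_5_7 : chkS lk8 1 5 [(1, m8_5)] l8_7
  [(179, 0, 0, 85345056, 73605456), (178, 0, 0, 85222176, 56893776), (92, 0, 0, 68376096, 37110096), (92, 0, 0, 68379936, 52838736), (188, 0, 0, 85345056, 73605456), (184, 0, 0, 51668256, 52715856), (179, 0, 0, 22295136, 22295136), (185, 0, 0, 51664416, 36987216), (85, 0, 0, 3298836, 36721686), (170, 0, 0, 84162081, 40120581), (84, 0, 0, 3302676, 52450326), (176, 0, 0, 34891056, 52696656), (171, 0, 0, 19161861, 50603361), (177, 0, 0, 34887216, 36968016), (68, 0, 0, 85156896, 56770896), (66, 0, 0, 85156896, 56770896), (81, 0, 0, 67515681, 69611781), (168, 0, 0, 101983536, 103027536), (67, 0, 0, 21176421, 17122146), (85, 0, 0, 21373011, 68485986), (78, 0, 0, 50746401, 70410501), (85, 0, 0, 50746401, 70410501), (68,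 0, 0, 85149216, 40059216), (66, 0, 0, 85149216, 40059216), (74, 0, 0, 67523361, 70656261), (170, 0, 0, 34887216, 36968016), (67, 0, 0, 21168741, 17121891), (85, 0, 0, 21365331, 68485731), (67, 0, 0, 68510496, 54927696), (67, 0, 0, 68498976, 38154576), (74, 0, 0, 4272741, 17117766), (78, 0, 0, 3233316, 36720966), (73, 0, 0, 67461921, 54927621), (171, 0, 0, 34948656, 37951056), (77, 0, 0, 50619681, 52715781), (84, 0, 0, 50619681, 52715781)]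
  [(67, 96), (68, -96), (73, -32), (74, -32), (77, 32), (78, -64), (81, 64), (84, 32), (85, 64), (92, -96), (168, 32), (170, -64), (171, -32), (176, 32), (177, -32), (178, 32), (179, 128), (184, -32), (185, 32), (188, -64)] = true := by
  decide +kernel

theorem t8_5_8 : chkS lk8 1 5 [(1, m8_5)] l8_8
  [(191, 0, 0, 51794496, 70345296), (190, 0, 0, 51537216, 52520016), (92, 0, 0, 101926176, 102973776), (181, 0, 0, 101995296, 104079696), (85, 0, 0, 35017776, 70391376), (173, 0, 0, 100939041, 103035141), (84, 0, 0, 34891056, 52696656), (171, 0, 0, 67450401, 38154501), (82, 0, 0, 35017776, 70391376), (69, 0, 0, 101930016, 103956816), (74, 0, 0, 105972276, 105910851), (67, 0, 0, 51725856, 37970256)]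
  [(67, 96), (69, -96), (74, -96), (82, 96), (84, 96), (85, -96), (92, -96), (171, -96), (173, 96), (181, 96), (190, -96), (191, 96)] = true := by
  decide +kernel

theorem t8_5_9 : chkS lk8 1 5 [(1, m8_5)] l8_9
  [(193, 0, 0, 1266720, 3293520), (192, 0, 0, 1385280, 4268880), (182, 0, 0, 1332000, 3416400), (93, 0, 0, 1262880, 2310480), (174, 0, 0, 275745, 2371845), (90, 0, 0, 344865, 4399365), (90, 0, 0, 2180355, 2295105), (24, 0, 0, 218145, 3293445), (70, 0, 0, 1266720, 3293520), (18, 0, 0, 340545, 4272645), (71, 0, 0, 1393440, 4399440), (76, 0, 0, 344865, 4399365)]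
  [(18, -96), (24, -96), (70, 96), (71, -96), (76, 96), (90, 192), (93, 96), (174, -96), (182, -96), (192, -96), (193, 96)] = true := by
  decide +kernel

theorem t8_6_6 : chkS lk8 1 5 [(1, m8_6)] l8_6
  [(7, 0, 0, 35017776, 70391376), (189, 0, 0, 85345056, 73605456), (77, 0, 0, 68571936, 70656336), (73, 0, 0, 85140576, 23216976), (73, 0, 0, 85222176, 56893776), (77, 0, 0, 68363856, 35013456)]
  [(7, 192), (73, 384), (77, -384), (189, -192)] = true := by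
  decide +kernel

theorem t8_6_7 : chkS lk8 1 5 [(1, m8_6)] l8_7
  [(91, 0, 0, 68510496, 54927696), (91, 0, 0, 68571936, 70656336), (180, 0, 0, 22226016, 22168416), (180, 0, 0, 22430256, 72553056), (180, 0, 0, 22165056, 38876256), (180, 0, 0, 22307616, 55845216), (91, 0, 0, 68363616, 19284816), (91, 0, 0, 68363856, 35013456), (74, 0, 0, 85141056, 39928656), (67, 0, 0, 22241796, 55591521), (172, 0, 0, 22241796, 55591521), (171, 0, 0, 5530386, 55844886), (72, 0, 0, 21385731, 70582881), (84, 0, 0, 21385731, 70582881), (78, 0, 0, 68510496, 54927696), (78, 0, 0, 68571936, 70656336), (74, 0, 0, 85140576, 23216976), (67, 0, 0, 22241316, 55591266), (172, 0, 0, 22425636, 72364386), (171, 0, 0, 5652786, 72552486), (72, 0, 0, 21385251, 70582626), (84, 0, 0, 21385251, 70582626), (67, 0, 0, 22152036, 22029411), (74, 0, 0, 85345056, 73605456), (72, 0, 0, 21104211, 34931811),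 (84, 0, 0, 21104211, 34931811), (172, 0, 0, 22152036, 22029411), (171, 0, 0, 5444706, 22167606), (67, 0, 0, 22029156, 22029156), (74, 0, 0, 85222176, 56893776), (78, 0, 0, 68363616, 19284816), (78, 0, 0, 68363856, 35013456), (72, 0, 0, 20981331, 34931556), (84, 0, 0, 20981331, 34931556), (172, 0, 0, 22029876, 38802276), (171, 0, 0, 5322306, 38875206)]
  [(74, 192), (78, -192), (84, -192), (91, 192), (171, 192), (180, -192)] = true := by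
  decide +kernel

theorem t8_6_8 : chkS lk8 1 5 [(1, m8_6)] l8_8
  [(91, 0, 0, 101918016, 102843216), (180, 0, 0, 72757776, 72757776), (180, 0, 0, 72488496, 39195696), (91, 0, 0, 102056736, 105062736), (5, 0, 0, 68571936, 70656336), (75, 0, 0, 101918016, 102843216), (169, 0, 0, 73478661, 84292161), (78, 0, 0, 101918016, 102843216), (169, 0, 0, 73601061, 84295986), (78, 0, 0, 102056736, 105062736), (5, 0, 0, 68363856, 35013456), (75, 0, 0, 102056736, 105062736)]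
  [(5, -192), (75, 192), (78, -192), (91, 192), (169, 192), (180, -192)] = true := by
  decide +kernel

theorem t8_6_9 : chkS lk8 1 5 [(1, m8_6)] l8_9
  [(183, 0, 0, 5517840, 5517840), (21, 0, 0, 2442000, 4400400), (21, 0, 0, 2299200, 2180400), (183, 0, 0, 5379120, 5379120), (18, 0, 0, 1393440, 4399440), (20, 0, 0, 1393440, 4399440), (79, 0, 0, 1254720, 2179920), (175, 0, 0, 5321220, 5255745), (79, 0, 0, 1393440, 4399440), (175, 0, 0, 5443620, 5259570), (18, 0, 0, 1254720, 2179920), (20, 0, 0, 1254720, 2179920)]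
  [(18, -192), (20, 192), (21, -192), (79, 192), (175, -192), (183, 192)] = true := by
  decide +kernel

theorem t8_7_7 : chkS lk8 1 5 [(1, m8_7)] l8_7
  [(184, 0, 0, 51529296, 34825296), (188, 0, 0, 85091376, 56759376), (179, 0, 0, 85091376, 56759376), (178, 0, 0, 85083696, 40047696), (185, 0, 0, 51529056, 19096656), (179, 0, 0, 22430496, 72556896), (92, 0, 0, 68302176, 19280976), (92, 0, 0, 68302416, 35009616), (81, 0, 0, 85141056, 39928656), (68, 0, 0, 22241796, 55591521), (78, 0, 0, 50488641, 52519941), (85, 0, 0, 50488641, 52519941), (67, 0, 0, 21377541, 67449441), (85, 0, 0, 21324291, 54854241), (168, 0, 0, 101926176, 102973776), (81, 0, 0, 67265841, 52827141), (81, 0, 0, 85140576, 23216976), (68, 0, 0, 22241316, 55591266), (74, 0, 0, 67265841, 52827141), (170, 0, 0, 34817376, 19088976), (67, 0, 0, 21377061, 67449186), (85, 0, 0, 21323811, 54853986), (78,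 0, 0, 3282516, 34624566), (74, 0, 0, 4592181, 67441206), (77, 0, 0, 50480721, 34825221), (84, 0, 0, 50480721, 34825221), (73, 0, 0, 67262001, 37098501), (171, 0, 0, 34821216, 20072016), (85, 0, 0, 3221076, 34624326), (170, 0, 0, 84035121, 40047621), (85, 0, 0, 68363616, 19284816), (85, 0, 0, 68363856, 35013456), (84, 0, 0, 3221076, 34624326), (176, 0, 0, 34817616, 34817616), (171, 0, 0, 18892341, 33756516), (177, 0, 0, 34817376, 19088976)]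
  [(73, -32), (74, 64), (77, 32), (78, -64), (81, 64), (84, -64), (85, -128), (92, 96), (168, -64), (170, 128), (171, 64), (176, -64), (177, 64), (178, -64), (179, -64), (184, 64), (185, -64), (188, 32)] = true := by
  decide +kernel

theorem t8_7_8 : chkS lk8 1 5 [(1, m8_7)] l8_8
  [(92, 0, 0, 101856576, 102839376), (92, 0, 0, 51537216, 52520016), (180, 0, 0, 68310576, 37098576), (91, 0, 0, 105190176, 105193776), (82, 0, 0, 34825536, 52512336), (82, 0, 0, 101918016, 102843216), (85, 0, 0, 34825536, 52512336), (85, 0, 0, 101918016, 102843216), (74, 0, 0, 106106916, 105922866), (78, 0, 0, 105189411, 105185586), (84, 0, 0, 34817616, 34817616), (171, 0, 0, 67262001, 37098501)]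
  [(74, 96), (78, -96), (84, -96), (91, 96), (171, 96), (180, -96)] = true := by
  decide +kernel

theorem t8_7_9 : chkS lk8 1 5 [(1, m8_7)] l8_9
  [(93, 0, 0, 4534800, 4534800), (93, 0, 0, 1193280, 2176080), (21, 0, 0, 1254720, 2179920), (183, 0, 0, 1201200, 3282000), (83, 0, 0, 1254720, 2179920), (18, 0, 0, 283425, 3416325), (86, 0, 0, 1254720, 2179920), (90, 0, 0, 152625, 3281925), (79, 0, 0, 4526115, 4522290), (76, 0, 0, 152625, 3281925), (90, 0, 0, 2102595, 2164020), (24, 0, 0, 144705, 2176005)]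
  [(18, 96), (21, -96), (24, 96), (76, -96), (79, 96), (83, -96), (86, 96), (90, -192), (183, 96)] = true := by
  decide +kernel

theorem t8_8_8 : chkS lk8 1 5 [(1, m8_8)] l8_8
  [(4, 0, 0, 106112016, 106054416), (194, 0, 0, 104153616, 105075216), (185, 0, 0, 105002256, 103101456), (92, 0, 0, 104153616, 105075216), (188, 0, 0, 40121601, 86259201), (179, 0, 0, 73606401, 86393601), (179, 0, 0, 104932101, 101000001), (185, 0, 0, 105063681, 103105281), (81, 0, 0, 40064016, 87180816), (82, 0, 0, 102961236, 101729586), (82, 0, 0, 40190736, 88286736), (87, 0, 0, 104153616, 105075216)]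
  [(4, 96), (81, 96), (82, -192), (87, 96), (92, 96), (179, 192), (185, -192), (188, -96), (194, -96)] = true := by
  decide +kernel

theorem t8_8_9 : chkS lk8 1 5 [(1, m8_8)] l8_9
  [(17, 0, 0, 4534800, 4534800), (19, 0, 0, 5448720, 5391120), (93, 0, 0, 3490320, 4411920), (186, 0, 0, 4338960, 2438160), (93, 0, 0, 5448705, 5391105), (21, 0, 0, 3490050, 4411425), (186, 0, 0, 4400385, 2441985), (183, 0, 0, 4268805, 336705), (83, 0, 0, 2297940, 1066290), (79, 0, 0, 5387265, 5387265), (88, 0, 0, 3490320, 4411920), (18, 0, 0, 5448705, 5391105)]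
  [(17, 96), (18, 96), (19, -96), (21, 96), (79, -96), (83, 96), (88, -96), (93, -192), (183, -96), (186, 192)] = true := by
  decide +kernel

theorem t8_9_9 : chkS lk8 1 5 [(1, m8_9)] l8_9
  [(9, 0, 0, 274960, 274960), (0, 0, 0, 271120, 271120), (187, 0, 0, 274960, 274960), (94, 0, 0, 144400, 144400), (187, 0, 0, 271105, 271105), (34, 0, 0, 274690, 274465), (34, 0, 0, 144385, 144385), (1, 0, 0, 148225, 205825), (89, 0, 0, 148240, 205840), (8, 0, 0, 274945, 274945), (8, 0, 0, 66610, 135235), (80, 0, 0, 274945, 274945)]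
  [(0, -96), (1, -96), (8, -192), (9, 96), (34, 192), (80, 96), (89, 96), (94, 96), (187, -192)] = true := by
  decide +kernel

section

variable {κ ι : Type*} [Fintype κ] [Fintype ι] [Inhabited κ] [Inhabited ι]

noncomputable def F8_0 (E : Env κ ι) : (Fin 1 → κ) → (Fin 5 → ι) → ℝ := op2 (P0 κ) (P8 ι) (fB E 1 5 m8_0)

noncomputable def F8_1 (E : Env κ ι) : (Fin 1 → κ) → (Fin 5 → ι) → ℝ := op2 (P0 κ) (P8 ι) (fB E 1 5 m8_1)

noncomputable def F8_2 (E : Env κ ι) : (Fin 1 → κ) → (Fin 5 → ι) → ℝ := op2 (P0 κ) (P8 ι) (fB E 1 5 m8_2)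

noncomputable def F8_3 (E : Env κ ι) : (Fin 1 → κ) → (Fin 5 → ι) → ℝ := op2 (P0 κ) (P8 ι) (fB E 1 5 m8_3)

noncomputable def F8_4 (E : Env κ ι) : (Fin 1 → κ) → (Fin 5 → ι) → ℝ := op2 (P0 κ) (P8 ι) (fB E 1 5 m8_4)

noncomputable def F8_5 (E : Env κ ι) : (Fin 1 → κ) → (Fin 5 → ι) → ℝ := op2 (P0 κ) (P8 ι) (fB E 1 5 m8_5)

noncomputable def F8_6 (E : Env κ ι) : (Fin 1 → κ) → (Fin 5 → ι) → ℝ := op2 (P0 κ) (P8 ι) (fB E 1 5 m8_6)

noncomputable def F8_7 (E : Env κ ι) : (Fin 1 → κ) → (Fin 5 → ι) → ℝ := op2 (P0 κ) (P8 ι) (fB E 1 5 m8_7)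

noncomputable def F8_8 (E : Env κ ι) : (Fin 1 → κ) → (Fin 5 → ι) → ℝ := op2 (P0 κ) (P8 ι) (fB E 1 5 m8_8)

noncomputable def F8_9 (E : Env κ ι) : (Fin 1 → κ) → (Fin 5 → ι) → ℝ := op2 (P0 κ) (P8 ι) (fB E 1 5 m8_9)

def r8_0_0 : List (ℕ × ℤ) := [(35, 96), (36, -192), (44, 288), (45, -96), (63, 96), (95, 96), (99, -192), (101, -96)]

theorem h8_0_0 (E : Env κ ι) : ip (F8_0 E) (F8_0 E) = dotS (ek E lk8) r8_0_0 :=
  op_entryZ E lk8 1 5 _ _ _ _ (pg0 κ) (pg8 ι) m8_0 m8_0 l8_0 z8_0 w8_0 x8_0 (by decide) _ (chkS_sound E lk8 1 5 _ _ _ _ t8_0_0)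

def r8_0_1 : List (ℕ × ℤ) := [(15, 96), (35, -96), (36, 192), (46, -96), (47, -192), (100, 96), (102, -96), (103, 96), (105, 96), (106, -96)]

theorem h8_0_1 (E : Env κ ι) : ip (F8_0 E) (F8_1 E) = dotS (ek E lk8) r8_0_1 :=
  op_entryZ E lk8 1 5 _ _ _ _ (pg0 κ) (pg8 ι) m8_0 m8_1 l8_1 z8_1 w8_1 x8_1 (by decide) _ (chkS_sound E lk8 1 5 _ _ _ _ t8_0_1)

def r8_0_2 : List (ℕ × ℤ) := [(36, -96), (37, 96), (38, -96), (39, 96), (47, 96), (51, -96), (54, 96), (57, -96), (63, 192), (107, -192)]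

theorem h8_0_2 (E : Env κ ι) : ip (F8_0 E) (F8_2 E) = dotS (ek E lk8) r8_0_2 :=
  op_entryZ E lk8 1 5 _ _ _ _ (pg0 κ) (pg8 ι) m8_0 m8_2 l8_2 z8_2 w8_2 x8_2 (by decide) _ (chkS_sound E lk8 1 5 _ _ _ _ t8_0_2)

def r8_0_3 : List (ℕ × ℤ) := [(36, 96), (38, -96), (47, -96), (54, 96), (104, 96), (106, -96)]

theorem h8_0_3 (E : Env κ ι) : ip (F8_0 E) (F8_3 E) = dotS (ek E lk8) r8_0_3 :=
  op_entryZ E lk8 1 5 _ _ _ _ (pg0 κ) (pg8 ι) m8_0 m8_3 l8_3 z8_3 w8_3 x8_3 (by decide) _ (chkS_sound E lk8 1 5 _ _ _ _ t8_0_3)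

def r8_0_4 : List (ℕ × ℤ) := [(36, -192), (39, 192), (47, 192), (54, 192), (57, -192), (108, -192)]

theorem h8_0_4 (E : Env κ ι) : ip (F8_0 E) (F8_4 E) = dotS (ek E lk8) r8_0_4 :=
  op_entryZ E lk8 1 5 _ _ _ _ (pg0 κ) (pg8 ι) m8_0 m8_4 l8_4 z8_4 w8_4 x8_4 (by decide) _ (chkS_sound E lk8 1 5 _ _ _ _ t8_0_4)

def r8_0_5 : List (ℕ × ℤ) := [(10, -96), (109, 96), (110, -96), (112, 96), (113, -96), (124, 96), (126, 96), (127, -96), (166, 96), (167, -96), (195, -96), (196, 96)]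

theorem h8_0_5 (E : Env κ ι) : ip (F8_0 E) (F8_5 E) = dotS (ek E lk8) r8_0_5 :=
  op_entryZ E lk8 1 5 _ _ _ _ (pg0 κ) (pg8 ι) m8_0 m8_5 l8_5 z8_5 w8_5 x8_5 (by decide) _ (chkS_sound E lk8 1 5 _ _ _ _ t8_0_5)

def r8_0_6 : List (ℕ × ℤ) := [(64, 192), (65, -192), (126, 192), (127, -192), (164, 192), (165, -192)]

theorem h8_0_6 (E : Env κ ι) : ip (F8_0 E) (F8_6 E) = dotS (ek E lk8) r8_0_6 :=
  op_entryZ E lk8 1 5 _ _ _ _ (pg0 κ) (pg8 ι) m8_0 m8_6 l8_6 z8_6 w8_6 x8_6 (by decide) _ (chkS_sound E lk8 1 5 _ _ _ _ t8_0_6)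

def r8_0_7 : List (ℕ × ℤ) := [(10, 96), (12, -96), (48, 96), (111, 96), (112, -96), (124, -96), (126, 96), (127, -96), (166, -96), (167, 96), (196, 0)]

theorem h8_0_7 (E : Env κ ι) : ip (F8_0 E) (F8_7 E) = dotS (ek E lk8) r8_0_7 :=
  op_entryZ E lk8 1 5 _ _ _ _ (pg0 κ) (pg8 ι) m8_0 m8_7 l8_7 z8_7 w8_7 x8_7 (by decide) _ (chkS_sound E lk8 1 5 _ _ _ _ t8_0_7)

def r8_0_8 : List (ℕ × ℤ) := [(40, 96), (41, -96), (64, -96), (65, 96), (96, 96), (97, -96), (115, -192), (117, 192), (126, -96), (127, 96)]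

theorem h8_0_8 (E : Env κ ι) : ip (F8_0 E) (F8_8 E) = dotS (ek E lk8) r8_0_8 :=
  op_entryZ E lk8 1 5 _ _ _ _ (pg0 κ) (pg8 ι) m8_0 m8_8 l8_8 z8_8 w8_8 x8_8 (by decide) _ (chkS_sound E lk8 1 5 _ _ _ _ t8_0_8)

def r8_0_9 : List (ℕ × ℤ) := [(16, -96), (22, -96), (28, 96), (42, 96), (43, -96), (49, 192), (98, 96), (119, -192), (128, 96), (129, -96)]

theorem h8_0_9 (E : Env κ ι) : ip (F8_0 E) (F8_9 E) = dotS (ek E lk8) r8_0_9 :=
  op_entryZ E lk8 1 5 _ _ _ _ (pg0 κ) (pg8 ι) m8_0 m8_9 l8_9 z8_9 w8_9 x8_9 (by decide) _ (chkS_sound E lk8 1 5 _ _ _ _ t8_0_9)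

def r8_1_1 : List (ℕ × ℤ) := [(14, -64), (53, 64), (54, 128), (57, -64), (102, 64), (103, -64), (105, -64), (130, 32), (131, 32), (136, 96), (137, -32), (138, -32), (139, 128), (140, -192), (149, -64), (197, -64), (198, 96)]

theorem h8_1_1 (E : Env κ ι) : ip (F8_1 E) (F8_1 E) = dotS (ek E lk8) r8_1_1 :=
  op_entryZ E lk8 1 5 _ _ _ _ (pg0 κ) (pg8 ι) m8_1 m8_1 l8_1 z8_1 w8_1 x8_1 (by decide) _ (chkS_sound E lk8 1 5 _ _ _ _ t8_1_1)

def r8_1_2 : List (ℕ × ℤ) := [(15, 96), (38, 96), (39, -96), (46, -96), (104, -96), (108, 96), (130, 96), (132, -96), (136, -96), (138, -96), (140, 96), (150, 96)]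

theorem h8_1_2 (E : Env κ ι) : ip (F8_1 E) (F8_2 E) = dotS (ek E lk8) r8_1_2 :=
  op_entryZ E lk8 1 5 _ _ _ _ (pg0 κ) (pg8 ι) m8_1 m8_2 l8_2 z8_2 w8_2 x8_2 (by decide) _ (chkS_sound E lk8 1 5 _ _ _ _ t8_1_2)

def r8_1_3 : List (ℕ × ℤ) := [(14, -32), (53, 32), (54, 64), (57, -32), (102, 32), (103, -32), (105, -32), (130, 64), (131, -32), (137, 32), (138, -64), (139, -32), (149, 64), (197, -32), (198, 0)]

theorem h8_1_3 (E : Env κ ι) : ip (F8_1 E) (F8_3 E) = dotS (ek E lk8) r8_1_3 :=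
  op_entryZ E lk8 1 5 _ _ _ _ (pg0 κ) (pg8 ι) m8_1 m8_3 l8_3 z8_3 w8_3 x8_3 (by decide) _ (chkS_sound E lk8 1 5 _ _ _ _ t8_1_3)

def r8_1_4 : List (ℕ × ℤ) := [(14, 192), (53, -192), (132, -192), (139, -192), (140, 192), (150, 192)]

theorem h8_1_4 (E : Env κ ι) : ip (F8_1 E) (F8_4 E) = dotS (ek E lk8) r8_1_4 :=
  op_entryZ E lk8 1 5 _ _ _ _ (pg0 κ) (pg8 ι) m8_1 m8_4 l8_4 z8_4 w8_4 x8_4 (by decide) _ (chkS_sound E lk8 1 5 _ _ _ _ t8_1_4)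

def r8_1_5 : List (ℕ × ℤ) := [(11, 64), (13, -32), (55, 32), (64, -32), (65, 32), (109, -32), (110, 32), (112, -32), (113, 32), (141, 32), (143, -32), (144, -64), (145, -64), (146, -32), (147, 96), (151, -64), (152, 64), (153, -64), (154, 64), (161, 96), (162, -32), (163, -64), (199, 32), (200, -96), (201, 64)]

theorem h8_1_5 (E : Env κ ι) : ip (F8_1 E) (F8_5 E) = dotS (ek E lk8) r8_1_5 :=
  op_entryZ E lk8 1 5 _ _ _ _ (pg0 κ) (pg8 ι) m8_1 m8_5 l8_5 z8_5 w8_5 x8_5 (by decide) _ (chkS_sound E lk8 1 5 _ _ _ _ t8_1_5)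

def r8_1_6 : List (ℕ × ℤ) := [(13, 192), (55, -192), (146, -192), (147, 192), (159, -192), (160, 192)]

theorem h8_1_6 (E : Env κ ι) : ip (F8_1 E) (F8_6 E) = dotS (ek E lk8) r8_1_6 :=
  op_entryZ E lk8 1 5 _ _ _ _ (pg0 κ) (pg8 ι) m8_1 m8_6 l8_6 z8_6 w8_6 x8_6 (by decide) _ (chkS_sound E lk8 1 5 _ _ _ _ t8_1_6)

def r8_1_7 : List (ℕ × ℤ) := [(11, -32), (13, 64), (55, -64), (64, -32), (65, 32), (109, -32), (110, 32), (112, -32), (113, 32), (141, -64), (143, 64), (144, 32), (145, -64), (146, -32), (147, 96), (151, 32), (152, -32), (153, 32), (154, -32), (161, -96), (162, 64), (163, 32), (199, 32), (201, -32)]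

theorem h8_1_7 (E : Env κ ι) : ip (F8_1 E) (F8_7 E) = dotS (ek E lk8) r8_1_7 :=
  op_entryZ E lk8 1 5 _ _ _ _ (pg0 κ) (pg8 ι) m8_1 m8_7 l8_7 z8_7 w8_7 x8_7 (by decide) _ (chkS_sound E lk8 1 5 _ _ _ _ t8_1_7)

def r8_1_8 : List (ℕ × ℤ) := [(12, -96), (40, -96), (41, 96), (48, 96), (114, 96), (116, -96), (133, -96), (134, 96), (145, 96), (147, -96), (155, 96), (156, -96)]

theorem h8_1_8 (E : Env κ ι) : ip (F8_1 E) (F8_8 E) = dotS (ek E lk8) r8_1_8 :=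
  op_entryZ E lk8 1 5 _ _ _ _ (pg0 κ) (pg8 ι) m8_1 m8_8 l8_8 z8_8 w8_8 x8_8 (by decide) _ (chkS_sound E lk8 1 5 _ _ _ _ t8_1_8)

def r8_1_9 : List (ℕ × ℤ) := [(22, 96), (29, -96), (31, -96), (32, -96), (33, -96), (42, -96), (43, 96), (62, 96), (118, 96), (135, -96), (148, 96), (157, 96)]

theorem h8_1_9 (E : Env κ ι) : ip (F8_1 E) (F8_9 E) = dotS (ek E lk8) r8_1_9 :=
  op_entryZ E lk8 1 5 _ _ _ _ (pg0 κ) (pg8 ι) m8_1 m8_9 l8_9 z8_9 w8_9 x8_9 (by decide) _ (chkS_sound E lk8 1 5 _ _ _ _ t8_1_9)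

def r8_2_2 : List (ℕ × ℤ) := [(3, 96), (14, -192), (50, -96), (53, 96), (54, 192), (56, 96), (57, -96), (103, -192), (106, 96)]

theorem h8_2_2 (E : Env κ ι) : ip (F8_2 E) (F8_2 E) = dotS (ek E lk8) r8_2_2 :=
  op_entryZ E lk8 1 5 _ _ _ _ (pg0 κ) (pg8 ι) m8_2 m8_2 l8_2 z8_2 w8_2 x8_2 (by decide) _ (chkS_sound E lk8 1 5 _ _ _ _ t8_2_2)

def r8_2_3 : List (ℕ × ℤ) := [(14, -96), (15, 96), (46, -96), (53, 96), (136, -96), (139, 96), (150, 0)]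

theorem h8_2_3 (E : Env κ ι) : ip (F8_2 E) (F8_3 E) = dotS (ek E lk8) r8_2_3 :=
  op_entryZ E lk8 1 5 _ _ _ _ (pg0 κ) (pg8 ι) m8_2 m8_3 l8_3 z8_3 w8_3 x8_3 (by decide) _ (chkS_sound E lk8 1 5 _ _ _ _ t8_2_3)

def r8_2_4 : List (ℕ × ℤ) := [(14, -192), (15, -192), (46, 192), (56, 192), (137, -192), (139, 192)]

theorem h8_2_4 (E : Env κ ι) : ip (F8_2 E) (F8_4 E) = dotS (ek E lk8) r8_2_4 :=
  op_entryZ E lk8 1 5 _ _ _ _ (pg0 κ) (pg8 ι) m8_2 m8_4 l8_4 z8_4 w8_4 x8_4 (by decide) _ (chkS_sound E lk8 1 5 _ _ _ _ t8_2_4)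

def r8_2_5 : List (ℕ × ℤ) := [(11, -96), (141, -96), (143, 96), (144, 96), (159, 96), (160, -96), (161, -96), (163, 96), (164, 96), (165, -96), (166, 96), (167, -96)]

theorem h8_2_5 (E : Env κ ι) : ip (F8_2 E) (F8_5 E) = dotS (ek E lk8) r8_2_5 :=
  op_entryZ E lk8 1 5 _ _ _ _ (pg0 κ) (pg8 ι) m8_2 m8_5 l8_5 z8_5 w8_5 x8_5 (by decide) _ (chkS_sound E lk8 1 5 _ _ _ _ t8_2_5)

def r8_2_6 : List (ℕ × ℤ) := [(2, 192), (10, -192), (11, -192), (124, 192), (142, -192), (144, 192)]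

theorem h8_2_6 (E : Env κ ι) : ip (F8_2 E) (F8_6 E) = dotS (ek E lk8) r8_2_6 :=
  op_entryZ E lk8 1 5 _ _ _ _ (pg0 κ) (pg8 ι) m8_2 m8_6 l8_6 z8_6 w8_6 x8_6 (by decide) _ (chkS_sound E lk8 1 5 _ _ _ _ t8_2_6)

def r8_2_7 : List (ℕ × ℤ) := [(10, -96), (11, 96), (124, 96), (144, -96), (162, 96), (163, -96), (167, 0)]

theorem h8_2_7 (E : Env κ ι) : ip (F8_2 E) (F8_7 E) = dotS (ek E lk8) r8_2_7 :=
  op_entryZ E lk8 1 5 _ _ _ _ (pg0 κ) (pg8 ι) m8_2 m8_7 l8_7 z8_7 w8_7 x8_7 (by decide) _ (chkS_sound E lk8 1 5 _ _ _ _ t8_2_7)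

def r8_2_8 : List (ℕ × ℤ) := [(6, -96), (13, 96), (52, 96), (55, -96), (58, 96), (59, -96), (64, -96), (65, 96), (111, -96), (112, -96), (113, 192)]

theorem h8_2_8 (E : Env κ ι) : ip (F8_2 E) (F8_8 E) = dotS (ek E lk8) r8_2_8 :=
  op_entryZ E lk8 1 5 _ _ _ _ (pg0 κ) (pg8 ι) m8_2 m8_8 l8_8 z8_8 w8_8 x8_8 (by decide) _ (chkS_sound E lk8 1 5 _ _ _ _ t8_2_8)

def r8_2_9 : List (ℕ × ℤ) := [(22, -96), (23, 96), (25, -96), (26, -96), (27, 96), (28, 192), (32, 96), (60, 96), (61, -96), (120, -192)]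

theorem h8_2_9 (E : Env κ ι) : ip (F8_2 E) (F8_9 E) = dotS (ek E lk8) r8_2_9 :=
  op_entryZ E lk8 1 5 _ _ _ _ (pg0 κ) (pg8 ι) m8_2 m8_9 l8_9 z8_9 w8_9 x8_9 (by decide) _ (chkS_sound E lk8 1 5 _ _ _ _ t8_2_9)

def r8_3_3 : List (ℕ × ℤ) := [(14, -64), (53, 64), (54, -64), (57, 32), (102, 64), (103, -64), (105, -64), (106, 96), (130, 32), (131, -64), (137, 64), (138, -32), (139, -64), (149, 128), (197, -64)]

theorem h8_3_3 (E : Env κ ι) : ip (F8_3 E) (F8_3 E) = dotS (ek E lk8) r8_3_3 :=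
  op_entryZ E lk8 1 5 _ _ _ _ (pg0 κ) (pg8 ι) m8_3 m8_3 l8_3 z8_3 w8_3 x8_3 (by decide) _ (chkS_sound E lk8 1 5 _ _ _ _ t8_3_3)

def r8_3_4 : List (ℕ × ℤ) := [(14, 192), (15, -192), (46, 192), (53, -192), (136, 192), (139, -192)]

theorem h8_3_4 (E : Env κ ι) : ip (F8_3 E) (F8_4 E) = dotS (ek E lk8) r8_3_4 :=
  op_entryZ E lk8 1 5 _ _ _ _ (pg0 κ) (pg8 ι) m8_3 m8_4 l8_4 z8_4 w8_4 x8_4 (by decide) _ (chkS_sound E lk8 1 5 _ _ _ _ t8_3_4)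

def r8_3_5 : List (ℕ × ℤ) := [(11, 32), (13, -64), (55, 64), (64, -64), (65, 64), (109, 32), (110, -32), (111, 96), (112, -64), (113, -32), (141, -32), (143, 32), (144, -32), (145, -32), (146, 32), (151, -32), (152, 32), (153, -32), (154, 32), (162, 32), (163, -32), (199, -32), (201, 32)]

theorem h8_3_5 (E : Env κ ι) : ip (F8_3 E) (F8_5 E) = dotS (ek E lk8) r8_3_5 :=
  op_entryZ E lk8 1 5 _ _ _ _ (pg0 κ) (pg8 ι) m8_3 m8_5 l8_5 z8_5 w8_5 x8_5 (by decide) _ (chkS_sound E lk8 1 5 _ _ _ _ t8_3_5)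

def r8_3_6 : List (ℕ × ℤ) := [(12, -192), (13, 192), (48, 192), (55, -192), (145, 192), (146, -192)]

theorem h8_3_6 (E : Env κ ι) : ip (F8_3 E) (F8_6 E) = dotS (ek E lk8) r8_3_6 :=
  op_entryZ E lk8 1 5 _ _ _ _ (pg0 κ) (pg8 ι) m8_3 m8_6 l8_6 z8_6 w8_6 x8_6 (by decide) _ (chkS_sound E lk8 1 5 _ _ _ _ t8_3_6)

def r8_3_7 : List (ℕ × ℤ) := [(11, 32), (13, 32), (55, -32), (64, 32), (65, -32), (109, -64), (110, 64), (111, -96), (112, 32), (113, 64), (141, -32), (143, 32), (144, -32), (145, -32), (146, 32), (151, 64), (152, -64), (153, 64), (154, -64), (162, 32), (163, -32), (199, 64), (201, -64)]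

theorem h8_3_7 (E : Env κ ι) : ip (F8_3 E) (F8_7 E) = dotS (ek E lk8) r8_3_7 :=
  op_entryZ E lk8 1 5 _ _ _ _ (pg0 κ) (pg8 ι) m8_3 m8_7 l8_7 z8_7 w8_7 x8_7 (by decide) _ (chkS_sound E lk8 1 5 _ _ _ _ t8_3_7)

def r8_3_8 : List (ℕ × ℤ) := [(12, -96), (13, 96), (48, 96), (55, -96), (145, 96), (146, -96), (155, 0)]

theorem h8_3_8 (E : Env κ ι) : ip (F8_3 E) (F8_8 E) = dotS (ek E lk8) r8_3_8 :=
  op_entryZ E lk8 1 5 _ _ _ _ (pg0 κ) (pg8 ι) m8_3 m8_8 l8_8 z8_8 w8_8 x8_8 (by decide) _ (chkS_sound E lk8 1 5 _ _ _ _ t8_3_8)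

def r8_3_9 : List (ℕ × ℤ) := [(22, 96), (26, -96), (27, 96), (29, -96), (30, 96), (32, -96), (62, 0)]

theorem h8_3_9 (E : Env κ ι) : ip (F8_3 E) (F8_9 E) = dotS (ek E lk8) r8_3_9 :=
  op_entryZ E lk8 1 5 _ _ _ _ (pg0 κ) (pg8 ι) m8_3 m8_9 l8_9 z8_9 w8_9 x8_9 (by decide) _ (chkS_sound E lk8 1 5 _ _ _ _ t8_3_9)

def r8_4_4 : List (ℕ × ℤ) := [(121, 192), (122, -192), (130, -384), (138, 384)]

theorem h8_4_4 (E : Env κ ι) : ip (F8_4 E) (F8_4 E) = dotS (ek E lk8) r8_4_4 :=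
  op_entryZ E lk8 1 5 _ _ _ _ (pg0 κ) (pg8 ι) m8_4 m8_4 l8_4 z8_4 w8_4 x8_4 (by decide) _ (chkS_sound E lk8 1 5 _ _ _ _ t8_4_4)

def r8_4_5 : List (ℕ × ℤ) := [(10, -192), (124, 192), (159, 192), (160, -192), (161, -192), (162, 192), (163, 0)]

theorem h8_4_5 (E : Env κ ι) : ip (F8_4 E) (F8_5 E) = dotS (ek E lk8) r8_4_5 :=
  op_entryZ E lk8 1 5 _ _ _ _ (pg0 κ) (pg8 ι) m8_4 m8_5 l8_5 z8_5 w8_5 x8_5 (by decide) _ (chkS_sound E lk8 1 5 _ _ _ _ t8_4_5)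

def r8_4_6 : List (ℕ × ℤ) := [(123, 192), (125, -192), (141, -384), (143, 384)]

theorem h8_4_6 (E : Env κ ι) : ip (F8_4 E) (F8_6 E) = dotS (ek E lk8) r8_4_6 :=
  op_entryZ E lk8 1 5 _ _ _ _ (pg0 κ) (pg8 ι) m8_4 m8_6 l8_6 z8_6 w8_6 x8_6 (by decide) _ (chkS_sound E lk8 1 5 _ _ _ _ t8_4_6)

def r8_4_7 : List (ℕ × ℤ) := [(10, 192), (11, -192), (124, -192), (144, 192), (162, -192), (163, 192)]

theorem h8_4_7 (E : Env κ ι) : ip (F8_4 E) (F8_7 E) = dotS (ek E lk8) r8_4_7 :=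
  op_entryZ E lk8 1 5 _ _ _ _ (pg0 κ) (pg8 ι) m8_4 m8_7 l8_7 z8_7 w8_7 x8_7 (by decide) _ (chkS_sound E lk8 1 5 _ _ _ _ t8_4_7)

def r8_4_8 : List (ℕ × ℤ) := [(12, 192), (48, -192), (58, 192), (59, -192), (153, -192), (154, 192)]

theorem h8_4_8 (E : Env κ ι) : ip (F8_4 E) (F8_8 E) = dotS (ek E lk8) r8_4_8 :=
  op_entryZ E lk8 1 5 _ _ _ _ (pg0 κ) (pg8 ι) m8_4 m8_8 l8_8 z8_8 w8_8 x8_8 (by decide) _ (chkS_sound E lk8 1 5 _ _ _ _ t8_4_8)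

def r8_4_9 : List (ℕ × ℤ) := [(22, -192), (27, 192), (32, 192), (60, 192), (61, -192), (158, -192)]

theorem h8_4_9 (E : Env κ ι) : ip (F8_4 E) (F8_9 E) = dotS (ek E lk8) r8_4_9 :=
  op_entryZ E lk8 1 5 _ _ _ _ (pg0 κ) (pg8 ι) m8_4 m8_9 l8_9 z8_9 w8_9 x8_9 (by decide) _ (chkS_sound E lk8 1 5 _ _ _ _ t8_4_9)

def r8_5_5 : List (ℕ × ℤ) := [(66, 96), (67, -192), (73, 64), (74, 64), (77, -64), (78, 128), (81, -32), (84, -64), (85, 64), (92, 96), (168, -64), (170, -64), (171, 64), (176, 32), (177, -32), (178, -64), (179, -64), (184, 64), (185, -64), (188, 32)]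

theorem h8_5_5 (E : Env κ ι) : ip (F8_5 E) (F8_5 E) = dotS (ek E lk8) r8_5_5 :=
  op_entryZ E lk8 1 5 _ _ _ _ (pg0 κ) (pg8 ι) m8_5 m8_5 l8_5 z8_5 w8_5 x8_5 (by decide) _ (chkS_sound E lk8 1 5 _ _ _ _ t8_5_5)

def r8_5_6 : List (ℕ × ℤ) := [(67, -192), (72, 192), (78, 192), (91, -192), (172, -192), (180, 192)]

theorem h8_5_6 (E : Env κ ι) : ip (F8_5 E) (F8_6 E) = dotS (ek E lk8) r8_5_6 :=
  op_entryZ E lk8 1 5 _ _ _ _ (pg0 κ) (pg8 ι) m8_5 m8_6 l8_6 z8_6 w8_6 x8_6 (by decide) _ (chkS_sound E lk8 1 5 _ _ _ _ t8_5_6)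

def r8_5_7 : List (ℕ × ℤ) := [(67, 96), (68, -96), (73, -32), (74, -32), (77, 32), (78, -64), (81, 64), (84, 32), (85, 64), (92, -96), (168, 32), (170, -64), (171, -32), (176, 32), (177, -32), (178, 32), (179, 128), (184, -32), (185, 32), (188, -64)]

theorem h8_5_7 (E : Env κ ι) : ip (F8_5 E) (F8_7 E) = dotS (ek E lk8) r8_5_7 :=
  op_entryZ E lk8 1 5 _ _ _ _ (pg0 κ) (pg8 ι) m8_5 m8_7 l8_7 z8_7 w8_7 x8_7 (by decide) _ (chkS_sound E lk8 1 5 _ _ _ _ t8_5_7)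

def r8_5_8 : List (ℕ × ℤ) := [(67, 96), (69, -96), (74, -96), (82, 96), (84, 96), (85, -96), (92, -96), (171, -96), (173, 96), (181, 96), (190, -96), (191, 96)]

theorem h8_5_8 (E : Env κ ι) : ip (F8_5 E) (F8_8 E) = dotS (ek E lk8) r8_5_8 :=
  op_entryZ E lk8 1 5 _ _ _ _ (pg0 κ) (pg8 ι) m8_5 m8_8 l8_8 z8_8 w8_8 x8_8 (by decide) _ (chkS_sound E lk8 1 5 _ _ _ _ t8_5_8)

def r8_5_9 : List (ℕ × ℤ) := [(18, -96), (24, -96), (70, 96), (71, -96), (76, 96), (90, 192), (93, 96), (174, -96), (182, -96), (192, -96), (193, 96)]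

theorem h8_5_9 (E : Env κ ι) : ip (F8_5 E) (F8_9 E) = dotS (ek E lk8) r8_5_9 :=
  op_entryZ E lk8 1 5 _ _ _ _ (pg0 κ) (pg8 ι) m8_5 m8_9 l8_9 z8_9 w8_9 x8_9 (by decide) _ (chkS_sound E lk8 1 5 _ _ _ _ t8_5_9)

def r8_6_6 : List (ℕ × ℤ) := [(7, 192), (73, 384), (77, -384), (189, -192)]

theorem h8_6_6 (E : Env κ ι) : ip (F8_6 E) (F8_6 E) = dotS (ek E lk8) r8_6_6 :=
  op_entryZ E lk8 1 5 _ _ _ _ (pg0 κ) (pg8 ι) m8_6 m8_6 l8_6 z8_6 w8_6 x8_6 (by decide) _ (chkS_sound E lk8 1 5 _ _ _ _ t8_6_6)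

def r8_6_7 : List (ℕ × ℤ) := [(74, 192), (78, -192), (84, -192), (91, 192), (171, 192), (180, -192)]

theorem h8_6_7 (E : Env κ ι) : ip (F8_6 E) (F8_7 E) = dotS (ek E lk8) r8_6_7 :=
  op_entryZ E lk8 1 5 _ _ _ _ (pg0 κ) (pg8 ι) m8_6 m8_7 l8_7 z8_7 w8_7 x8_7 (by decide) _ (chkS_sound E lk8 1 5 _ _ _ _ t8_6_7)

def r8_6_8 : List (ℕ × ℤ) := [(5, -192), (75, 192), (78, -192), (91, 192), (169, 192), (180, -192)]

theorem h8_6_8 (E : Env κ ι) : ip (F8_6 E) (F8_8 E) = dotS (ek E lk8) r8_6_8 :=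
  op_entryZ E lk8 1 5 _ _ _ _ (pg0 κ) (pg8 ι) m8_6 m8_8 l8_8 z8_8 w8_8 x8_8 (by decide) _ (chkS_sound E lk8 1 5 _ _ _ _ t8_6_8)

def r8_6_9 : List (ℕ × ℤ) := [(18, -192), (20, 192), (21, -192), (79, 192), (175, -192), (183, 192)]

theorem h8_6_9 (E : Env κ ι) : ip (F8_6 E) (F8_9 E) = dotS (ek E lk8) r8_6_9 :=
  op_entryZ E lk8 1 5 _ _ _ _ (pg0 κ) (pg8 ι) m8_6 m8_9 l8_9 z8_9 w8_9 x8_9 (by decide) _ (chkS_sound E lk8 1 5 _ _ _ _ t8_6_9)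

def r8_7_7 : List (ℕ × ℤ) := [(73, -32), (74, 64), (77, 32), (78, -64), (81, 64), (84, -64), (85, -128), (92, 96), (168, -64), (170, 128), (171, 64), (176, -64), (177, 64), (178, -64), (179, -64), (184, 64), (185, -64), (188, 32)]

theorem h8_7_7 (E : Env κ ι) : ip (F8_7 E) (F8_7 E) = dotS (ek E lk8) r8_7_7 :=
  op_entryZ E lk8 1 5 _ _ _ _ (pg0 κ) (pg8 ι) m8_7 m8_7 l8_7 z8_7 w8_7 x8_7 (by decide) _ (chkS_sound E lk8 1 5 _ _ _ _ t8_7_7)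

def r8_7_8 : List (ℕ × ℤ) := [(74, 96), (78, -96), (84, -96), (91, 96), (171, 96), (180, -96)]

theorem h8_7_8 (E : Env κ ι) : ip (F8_7 E) (F8_8 E) = dotS (ek E lk8) r8_7_8 :=
  op_entryZ E lk8 1 5 _ _ _ _ (pg0 κ) (pg8 ι) m8_7 m8_8 l8_8 z8_8 w8_8 x8_8 (by decide) _ (chkS_sound E lk8 1 5 _ _ _ _ t8_7_8)

def r8_7_9 : List (ℕ × ℤ) := [(18, 96), (21, -96), (24, 96), (76, -96), (79, 96), (83, -96), (86, 96), (90, -192), (183, 96)]

theorem h8_7_9 (E : Env κ ι) : ip (F8_7 E) (F8_9 E) = dotS (ek E lk8) r8_7_9 :=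
  op_entryZ E lk8 1 5 _ _ _ _ (pg0 κ) (pg8 ι) m8_7 m8_9 l8_9 z8_9 w8_9 x8_9 (by decide) _ (chkS_sound E lk8 1 5 _ _ _ _ t8_7_9)

def r8_8_8 : List (ℕ × ℤ) := [(4, 96), (81, 96), (82, -192), (87, 96), (92, 96), (179, 192), (185, -192), (188, -96), (194, -96)]

theorem h8_8_8 (E : Env κ ι) : ip (F8_8 E) (F8_8 E) = dotS (ek E lk8) r8_8_8 :=
  op_entryZ E lk8 1 5 _ _ _ _ (pg0 κ) (pg8 ι) m8_8 m8_8 l8_8 z8_8 w8_8 x8_8 (by decide) _ (chkS_sound E lk8 1 5 _ _ _ _ t8_8_8)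

def r8_8_9 : List (ℕ × ℤ) := [(17, 96), (18, 96), (19, -96), (21, 96), (79, -96), (83, 96), (88, -96), (93, -192), (183, -96), (186, 192)]

theorem h8_8_9 (E : Env κ ι) : ip (F8_8 E) (F8_9 E) = dotS (ek E lk8) r8_8_9 :=
  op_entryZ E lk8 1 5 _ _ _ _ (pg0 κ) (pg8 ι) m8_8 m8_9 l8_9 z8_9 w8_9 x8_9 (by decide) _ (chkS_sound E lk8 1 5 _ _ _ _ t8_8_9)

def r8_9_9 : List (ℕ × ℤ) := [(0, -96), (1, -96), (8, -192), (9, 96), (34, 192), (80, 96), (89, 96), (94, 96), (187, -192)]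

theorem h8_9_9 (E : Env κ ι) : ip (F8_9 E) (F8_9 E) = dotS (ek E lk8) r8_9_9 :=
  op_entryZ E lk8 1 5 _ _ _ _ (pg0 κ) (pg8 ι) m8_9 m8_9 l8_9 z8_9 w8_9 x8_9 (by decide) _ (chkS_sound E lk8 1 5 _ _ _ _ t8_9_9)

theorem row8_0 (E : Env κ ι) : RowG (ek E lk8) (F8_0 E) [F8_0 E, F8_1 E, F8_2 E, F8_3 E, F8_4 E, F8_5 E, F8_6 E, F8_7 E, F8_8 E, F8_9 E] [r8_0_0, r8_0_1, r8_0_2, r8_0_3, r8_0_4, r8_0_5, r8_0_6, r8_0_7, r8_0_8, r8_0_9] :=
  rowG_cons _ _ _ _ _ _ (h8_0_0 E) (rowG_cons _ _ _ _ _ _ (h8_0_1 E) (rowG_cons _ _ _ _ _ _ (h8_0_2 E) (rowG_cons _ _ _ _ _ _ (h8_0_3 E) (rowG_cons _ _ _ _ _ _ (h8_0_4 E) (rowG_cons _ _ _ _ _ _ (h8_0_5 E) (rowG_cons _ _ _ _ _ _ (h8_0_6 E) (rowG_cons _ _ _ _ _ _ (h8_0_7 E) (rowG_cons _ _ _ _ _ _ (h8_0_8 E) (rowG_cons _ _ _ _ _ _ (h8_0_9 E) (rowG_nil _ _))))))))))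

theorem row8_1 (E : Env κ ι) : RowG (ek E lk8) (F8_1 E) [F8_1 E, F8_2 E, F8_3 E, F8_4 E, F8_5 E, F8_6 E, F8_7 E, F8_8 E, F8_9 E] [r8_1_1, r8_1_2, r8_1_3, r8_1_4, r8_1_5, r8_1_6, r8_1_7, r8_1_8, r8_1_9] :=
  rowG_cons _ _ _ _ _ _ (h8_1_1 E) (rowG_cons _ _ _ _ _ _ (h8_1_2 E) (rowG_cons _ _ _ _ _ _ (h8_1_3 E) (rowG_cons _ _ _ _ _ _ (h8_1_4 E) (rowG_cons _ _ _ _ _ _ (h8_1_5 E) (rowG_cons _ _ _ _ _ _ (h8_1_6 E) (rowG_cons _ _ _ _ _ _ (h8_1_7 E) (rowG_cons _ _ _ _ _ _ (h8_1_8 E) (rowG_cons _ _ _ _ _ _ (h8_1_9 E) (rowG_nil _ _)))))))))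

theorem row8_2 (E : Env κ ι) : RowG (ek E lk8) (F8_2 E) [F8_2 E, F8_3 E, F8_4 E, F8_5 E, F8_6 E, F8_7 E, F8_8 E, F8_9 E] [r8_2_2, r8_2_3, r8_2_4, r8_2_5, r8_2_6, r8_2_7, r8_2_8, r8_2_9] :=
  rowG_cons _ _ _ _ _ _ (h8_2_2 E) (rowG_cons _ _ _ _ _ _ (h8_2_3 E) (rowG_cons _ _ _ _ _ _ (h8_2_4 E) (rowG_cons _ _ _ _ _ _ (h8_2_5 E) (rowG_cons _ _ _ _ _ _ (h8_2_6 E) (rowG_cons _ _ _ _ _ _ (h8_2_7 E) (rowG_cons _ _ _ _ _ _ (h8_2_8 E) (rowG_cons _ _ _ _ _ _ (h8_2_9 E) (rowG_nil _ _))))))))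

theorem row8_3 (E : Env κ ι) : RowG (ek E lk8) (F8_3 E) [F8_3 E, F8_4 E, F8_5 E, F8_6 E, F8_7 E, F8_8 E, F8_9 E] [r8_3_3, r8_3_4, r8_3_5, r8_3_6, r8_3_7, r8_3_8, r8_3_9] :=
  rowG_cons _ _ _ _ _ _ (h8_3_3 E) (rowG_cons _ _ _ _ _ _ (h8_3_4 E) (rowG_cons _ _ _ _ _ _ (h8_3_5 E) (rowG_cons _ _ _ _ _ _ (h8_3_6 E) (rowG_cons _ _ _ _ _ _ (h8_3_7 E) (rowG_cons _ _ _ _ _ _ (h8_3_8 E) (rowG_cons _ _ _ _ _ _ (h8_3_9 E) (rowG_nil _ _)))))))

theorem row8_4 (E : Env κ ι) : RowG (ek E lk8) (F8_4 E) [F8_4 E, F8_5 E, F8_6 E, F8_7 E, F8_8 E, F8_9 E] [r8_4_4, r8_4_5, r8_4_6, r8_4_7, r8_4_8, r8_4_9] :=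
  rowG_cons _ _ _ _ _ _ (h8_4_4 E) (rowG_cons _ _ _ _ _ _ (h8_4_5 E) (rowG_cons _ _ _ _ _ _ (h8_4_6 E) (rowG_cons _ _ _ _ _ _ (h8_4_7 E) (rowG_cons _ _ _ _ _ _ (h8_4_8 E) (rowG_cons _ _ _ _ _ _ (h8_4_9 E) (rowG_nil _ _))))))

theorem row8_5 (E : Env κ ι) : RowG (ek E lk8) (F8_5 E) [F8_5 E, F8_6 E, F8_7 E, F8_8 E, F8_9 E] [r8_5_5, r8_5_6, r8_5_7, r8_5_8, r8_5_9] :=
  rowG_cons _ _ _ _ _ _ (h8_5_5 E) (rowG_cons _ _ _ _ _ _ (h8_5_6 E) (rowG_cons _ _ _ _ _ _ (h8_5_7 E) (rowG_cons _ _ _ _ _ _ (h8_5_8 E) (rowG_cons _ _ _ _ _ _ (h8_5_9 E) (rowG_nil _ _)))))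

theorem row8_6 (E : Env κ ι) : RowG (ek E lk8) (F8_6 E) [F8_6 E, F8_7 E, F8_8 E, F8_9 E] [r8_6_6, r8_6_7, r8_6_8, r8_6_9] :=
  rowG_cons _ _ _ _ _ _ (h8_6_6 E) (rowG_cons _ _ _ _ _ _ (h8_6_7 E) (rowG_cons _ _ _ _ _ _ (h8_6_8 E) (rowG_cons _ _ _ _ _ _ (h8_6_9 E) (rowG_nil _ _))))

theorem row8_7 (E : Env κ ι) : RowG (ek E lk8) (F8_7 E) [F8_7 E, F8_8 E, F8_9 E] [r8_7_7, r8_7_8, r8_7_9] :=
  rowG_cons _ _ _ _ _ _ (h8_7_7 E) (rowG_cons _ _ _ _ _ _ (h8_7_8 E) (rowG_cons _ _ _ _ _ _ (h8_7_9 E) (rowG_nil _ _)))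

theorem row8_8 (E : Env κ ι) : RowG (ek E lk8) (F8_8 E) [F8_8 E, F8_9 E] [r8_8_8, r8_8_9] :=
  rowG_cons _ _ _ _ _ _ (h8_8_8 E) (rowG_cons _ _ _ _ _ _ (h8_8_9 E) (rowG_nil _ _))

theorem row8_9 (E : Env κ ι) : RowG (ek E lk8) (F8_9 E) [F8_9 E] [r8_9_9] :=
  rowG_cons _ _ _ _ _ _ (h8_9_9 E) (rowG_nil _ _)

def tab8 : List (List (List (ℕ × ℤ))) := [[r8_0_0, r8_0_1, r8_0_2, r8_0_3, r8_0_4, r8_0_5, r8_0_6, r8_0_7, r8_0_8, r8_0_9], [r8_1_1, r8_1_2, r8_1_3, r8_1_4, r8_1_5, r8_1_6, r8_1_7, r8_1_8, r8_1_9], [r8_2_2, r8_2_3, r8_2_4, r8_2_5, r8_2_6, r8_2_7, r8_2_8, r8_2_9], [r8_3_3, r8_3_4, r8_3_5, r8_3_6, r8_3_7, r8_3_8, r8_3_9], [r8_4_4, r8_4_5, r8_4_6, r8_4_7, r8_4_8, r8_4_9], [r8_5_5, r8_5_6, r8_5_7, r8_5_8, r8_5_9], [r8_6_6, r8_6_7, r8_6_8, r8_6_9], [r8_7_7, r8_7_8, r8_7_9], [r8_8_8, r8_8_9], [r8_9_9]]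

theorem tri8 (E : Env κ ι) : TriG (ek E lk8) [F8_0 E, F8_1 E, F8_2 E, F8_3 E, F8_4 E, F8_5 E, F8_6 E, F8_7 E, F8_8 E, F8_9 E] tab8 := by
  refine triG_cons _ _ _ _ _ (row8_0 E) ?_
  refine triG_cons _ _ _ _ _ (row8_1 E) ?_
  refine triG_cons _ _ _ _ _ (row8_2 E) ?_
  refine triG_cons _ _ _ _ _ (row8_3 E) ?_
  refine triG_cons _ _ _ _ _ (row8_4 E) ?_
  refine triG_cons _ _ _ _ _ (row8_5 E) ?_
  refine triG_cons _ _ _ _ _ (row8_6 E) ?_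
  refine triG_cons _ _ _ _ _ (row8_7 E) ?_
  refine triG_cons _ _ _ _ _ (row8_8 E) ?_
  refine triG_cons _ _ _ _ _ (row8_9 E) ?_
  exact triG_nil _

end

def lk9 : List Key := [
  (2, 7, [(0, [0], [0, 1]), (0, [1], [0, 2]), (0, [0], [3, 4]), (0, [1], [5, 6]), (1, [], [1, 3]), (1, [], [5, 6]), (4, [], [2]), (4, [], [4])]),
  (2, 7, [(0, [0], [0, 1]), (0, [1], [0, 2]), (0, [1], [1, 3]), (0, [0], [4, 5]), (1, [], [2, 6]), (1, [], [4, 5]), (4, [], [3]), (4, [], [6])]),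
  (3, 7, [(0, [0], [0, 1]), (0, [1], [0, 2]), (0, [0], [2, 3]), (0, [2], [1, 4]), (0, [1], [5, 6]), (0, [2], [5, 6]), (4, [], [3]), (4, [], [4])]),
  (3, 7, [(0, [0], [0, 1]), (0, [0], [2, 3]), (0, [1], [0, 3]), (4, [], [1]), (0, [2], [4, 5]), (0, [2], [2, 6]), (0, [1], [4, 6]), (4, [], [5])]),
  (3, 7, [(0, [0], [0, 1]), (0, [0], [2, 3]), (0, [1], [0, 3]), (4, [], [1]), (0, [2], [4, 5]), (0, [2], [2, 4]), (0, [1], [5, 6]), (4, [], [6])]),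
  (2, 7, [(0, [0], [0, 1]), (0, [0], [2, 3]), (0, [1], [0, 3]), (4, [], [1]), (0, [1], [4, 5]), (1, [], [4, 6]), (1, [], [2, 5]), (4, [], [6])]),
  (3, 7, [(0, [0], [0, 1]), (0, [0], [2, 3]), (0, [1], [0, 1]), (4, [], [3]), (0, [2], [4, 5]), (0, [2], [2, 4]), (0, [1], [5, 6]), (4, [], [6])]),
  (2, 7, [(0, [0], [0, 1]), (0, [0], [2, 0]), (0, [1], [1, 3]), (4, [], [3]), (0, [1], [4, 5]), (1, [], [4, 6]), (1, [], [2, 5]), (4, [], [6])]),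
  (2, 7, [(0, [0], [0, 1]), (0, [0], [2, 0]), (0, [1], [1, 3]), (4, [], [3]), (0, [1], [4, 5]), (1, [], [4, 5]), (1, [], [2, 6]), (4, [], [6])]),
  (1, 7, [(0, [0], [0, 1]), (1, [], [0, 2]), (1, [], [3, 2]), (4, [], [1]), (0, [0], [4, 5]), (1, [], [4, 6]), (1, [], [3, 6]), (4, [], [5])]),
  (1, 7, [(0, [0], [0, 1]), (1, [], [0, 2]), (1, [], [3, 2]), (4, [], [1]), (0, [0], [4, 5]), (1, [], [4, 6]), (1, [], [3, 5]), (4, [], [6])]),
  (1, 7, [(0, [0], [0, 1]), (1, [], [0, 2]), (1, [], [3, 2]), (4, [], [1]), (0, [0], [3, 4]), (1, [], [5, 6]), (1, [], [5, 6]), (4, [], [4])]),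
  (1, 7, [(0, [0], [0, 1]), (1, [], [0, 2]), (1, [], [3, 2]), (4, [], [1]), (0, [0], [3, 4]), (1, [], [5, 6]), (1, [], [4, 5]), (4, [], [6])]),
  (1, 7, [(0, [0], [0, 1]), (1, [], [0, 2]), (1, [], [3, 1]), (4, [], [2]), (0, [0], [4, 5]), (1, [], [4, 6]), (1, [], [3, 5]), (4, [], [6])]),
  (1, 7, [(0, [0], [0, 1]), (1, [], [0, 2]), (1, [], [3, 1]), (4, [], [2]), (0, [0], [3, 4]), (1, [], [5, 6]), (1, [], [5, 6]), (4, [], [4])]),
  (1, 7, [(0, [0], [0, 1]), (1, [], [0, 2]), (1, [], [3, 1]), (4, [], [2]), (0, [0], [3, 4]), (1, [], [5, 6]), (1, [], [4, 5]), (4, [], [6])]),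
  (3, 7, [(0, [0], [0, 1]), (0, [0], [2, 0]), (0, [1], [3, 1]), (4, [], [4]), (0, [2], [5, 6]), (0, [2], [2, 3]), (0, [1], [5, 6]), (4, [], [4])]),
  (3, 7, [(0, [0], [0, 1]), (0, [0], [2, 0]), (0, [1], [3, 1]), (4, [], [4]), (0, [2], [5, 6]), (0, [2], [2, 3]), (0, [1], [4, 5]), (4, [], [6])]),
  (3, 7, [(0, [0], [0, 1]), (0, [0], [2, 0]), (0, [1], [3, 1]), (4, [], [4]), (0, [2], [2, 5]), (0, [2], [3, 6]), (0, [1], [5, 6]), (4, [], [4])]),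
  (2, 7, [(0, [0], [0, 1]), (0, [0], [2, 0]), (0, [1], [3, 1]), (4, [], [4]), (0, [1], [5, 6]), (1, [], [5, 6]), (1, [], [2, 3]), (4, [], [4])]),
  (2, 7, [(0, [0], [0, 1]), (0, [0], [2, 0]), (0, [1], [3, 1]), (4, [], [4]), (0, [1], [5, 6]), (1, [], [2, 5]), (1, [], [3, 6]), (4, [], [4])]),
  (2, 7, [(0, [0], [0, 1]), (0, [0], [2, 0]), (0, [1], [3, 1]), (4, [], [4]), (0, [1], [5, 6]), (1, [], [3, 5]), (1, [], [2, 4]), (4, [], [6])]),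
  (2, 7, [(0, [0], [0, 1]), (0, [0], [2, 0]), (0, [1], [3, 1]), (4, [], [4]), (0, [1], [5, 6]), (1, [], [4, 5]), (1, [], [2, 3]), (4, [], [6])]),
  (3, 7, [(0, [0], [0, 1]), (0, [0], [2, 3]), (0, [1], [0, 1]), (4, [], [4]), (0, [2], [5, 6]), (0, [2], [2, 4]), (0, [1], [3, 5]), (4, [], [6])]),
  (3, 7, [(0, [0], [0, 1]), (0, [0], [2, 3]), (0, [1], [0, 1]), (4, [], [4]), (0, [2], [2, 5]), (0, [2], [3, 6]), (0, [1], [5, 6]), (4, [], [4])]),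
  (3, 7, [(0, [0], [0, 1]), (0, [0], [2, 3]), (0, [1], [4, 0]), (4, [], [1]), (0, [2], [5, 6]), (0, [2], [2, 4]), (0, [1], [3, 5]), (4, [], [6])]),
  (3, 7, [(0, [0], [0, 1]), (0, [0], [2, 3]), (0, [1], [4, 0]), (4, [], [1]), (0, [2], [2, 5]), (0, [2], [3, 6]), (0, [1], [5, 6]), (4, [], [4])]),
  (3, 7, [(0, [0], [0, 1]), (0, [0], [2, 3]), (0, [1], [4, 0]), (4, [], [1]), (0, [2], [2, 5]), (0, [2], [4, 6]), (0, [1], [5, 6]), (4, [], [3])]),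
  (3, 7, [(0, [0], [0, 1]), (0, [0], [2, 3]), (0, [1], [4, 0]), (4, [], [1]), (0, [2], [2, 5]), (0, [2], [4, 6]), (0, [1], [3, 6]), (4, [], [5])]),
  (2, 7, [(0, [0], [0, 1]), (0, [0], [2, 3]), (0, [1], [4, 0]), (4, [], [1]), (0, [1], [5, 6]), (1, [], [5, 6]), (1, [], [2, 4]), (4, [], [3])]),
  (2, 7, [(0, [0], [0, 1]), (0, [0], [2, 3]), (0, [1], [4, 0]), (4, [], [1]), (0, [1], [5, 6]), (1, [], [2, 5]), (1, [], [4, 6]), (4, [], [3])]),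
  (2, 7, [(0, [0], [0, 1]), (0, [0], [2, 3]), (0, [1], [4, 0]), (4, [], [1]), (0, [1], [5, 6]), (1, [], [2, 5]), (1, [], [3, 4]), (4, [], [6])]),
  (2, 7, [(0, [0], [0, 1]), (0, [0], [2, 3]), (0, [1], [4, 0]), (4, [], [1]), (0, [1], [2, 5]), (1, [], [5, 6]), (1, [], [3, 4]), (4, [], [6])]),
  (2, 7, [(0, [0], [0, 1]), (0, [0], [2, 3]), (0, [1], [4, 0]), (4, [], [1]), (0, [1], [2, 5]), (1, [], [3, 6]), (1, [], [4, 5]), (4, [], [6])]),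
  (3, 7, [(0, [0], [0, 1]), (0, [0], [2, 3]), (0, [1], [1, 3]), (4, [], [4]), (0, [2], [0, 5]), (0, [2], [2, 6]), (0, [1], [5, 6]), (4, [], [4])]),
  (2, 7, [(0, [0], [0, 1]), (0, [0], [2, 3]), (0, [1], [1, 3]), (4, [], [4]), (0, [1], [5, 6]), (1, [], [5, 6]), (1, [], [0, 2]), (4, [], [4])]),
  (2, 7, [(0, [0], [0, 1]), (0, [0], [2, 3]), (0, [1], [1, 3]), (4, [], [4]), (0, [1], [5, 6]), (1, [], [0, 5]), (1, [], [2, 6]), (4, [], [4])]),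
  (2, 7, [(0, [0], [0, 1]), (0, [0], [2, 3]), (0, [1], [1, 3]), (4, [], [4]), (0, [1], [5, 6]), (1, [], [0, 5]), (1, [], [2, 4]), (4, [], [6])]),
  (2, 7, [(0, [0], [0, 1]), (0, [0], [2, 3]), (0, [1], [1, 3]), (4, [], [4]), (0, [1], [5, 6]), (1, [], [4, 5]), (1, [], [0, 2]), (4, [], [6])]),
  (2, 7, [(0, [0], [0, 1]), (0, [0], [2, 3]), (0, [1], [4, 3]), (4, [], [1]), (0, [1], [5, 6]), (1, [], [2, 5]), (1, [], [0, 4]), (4, [], [6])]),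
  (2, 7, [(0, [0], [0, 1]), (0, [0], [2, 3]), (0, [1], [4, 3]), (4, [], [1]), (0, [1], [5, 6]), (1, [], [4, 5]), (1, [], [0, 2]), (4, [], [6])]),
  (1, 7, [(0, [0], [0, 1]), (1, [], [2, 0]), (1, [], [3, 1]), (4, [], [4]), (0, [0], [5, 6]), (1, [], [2, 5]), (1, [], [3, 6]), (4, [], [4])]),
  (1, 7, [(0, [0], [0, 1]), (1, [], [2, 0]), (1, [], [3, 1]), (4, [], [4]), (0, [0], [2, 5]), (1, [], [5, 6]), (1, [], [3, 6]), (4, [], [4])]),
  (1, 7, [(0, [0], [0, 1]), (1, [], [2, 0]), (1, [], [3, 1]), (4, [], [4]), (0, [0], [2, 5]), (1, [], [3, 6]), (1, [], [4, 6]), (4, [], [5])]),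
  (1, 7, [(0, [0], [0, 1]), (1, [], [2, 0]), (1, [], [3, 1]), (4, [], [4]), (0, [0], [2, 3]), (1, [], [5, 6]), (1, [], [5, 6]), (4, [], [4])]),
  (1, 7, [(0, [0], [0, 1]), (1, [], [2, 0]), (1, [], [3, 1]), (4, [], [4]), (0, [0], [2, 3]), (1, [], [5, 6]), (1, [], [4, 5]), (4, [], [6])]),
  (1, 7, [(0, [0], [0, 1]), (1, [], [1, 2]), (1, [], [3, 2]), (4, [], [4]), (0, [0], [0, 5]), (1, [], [5, 6]), (1, [], [3, 6]), (4, [], [4])]),
  (1, 7, [(0, [0], [0, 1]), (1, [], [1, 2]), (1, [], [3, 2]), (4, [], [4]), (0, [0], [0, 5]), (1, [], [5, 6]), (1, [], [3, 4]), (4, [], [6])]),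
  (1, 7, [(0, [0], [0, 1]), (1, [], [1, 2]), (1, [], [3, 2]), (4, [], [4]), (0, [0], [0, 3]), (1, [], [5, 6]), (1, [], [5, 6]), (4, [], [4])]),
  (1, 7, [(0, [0], [0, 1]), (1, [], [1, 2]), (1, [], [3, 2]), (4, [], [4]), (0, [0], [0, 3]), (1, [], [5, 6]), (1, [], [4, 5]), (4, [], [6])]),
  (1, 7, [(0, [0], [0, 1]), (1, [], [1, 2]), (1, [], [3, 4]), (4, [], [2]), (0, [0], [0, 5]), (1, [], [5, 6]), (1, [], [3, 4]), (4, [], [6])]),
  (3, 7, [(0, [0], [0, 1]), (0, [0], [2, 3]), (0, [1], [4, 1]), (4, [], [5]), (0, [2], [0, 6]), (0, [2], [2, 4]), (0, [1], [3, 6]), (4, [], [5])]),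
  (2, 7, [(0, [0], [0, 1]), (0, [0], [2, 3]), (0, [1], [4, 1]), (4, [], [5]), (0, [1], [2, 6]), (1, [], [0, 6]), (1, [], [3, 4]), (4, [], [5])]),
  (2, 7, [(0, [0], [0, 1]), (0, [0], [2, 3]), (0, [1], [4, 1]), (4, [], [5]), (0, [1], [2, 6]), (1, [], [4, 6]), (1, [], [0, 3]), (4, [], [5])])]

def kl9 : List ℕ := [45, 55, 57, 125, 126, 129, 133, 146, 147, 162, 163, 167, 168, 172, 176, 177, 219, 220, 222, 226, 227, 229, 230, 267, 268, 284, 285, 286, 287, 289, 291, 292, 295, 297, 302, 304, 305, 306, 307, 326, 327, 345, 347, 348, 355, 356, 366, 367, 375, 376, 382, 429, 431, 433]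

def m9_0 : Base := (1, 1, [(0, [1], [0, 5]), (0, [1], [1, 2]), (0, [0], [3, 5]), (4, [], [4])])

def l9_0 : Cov := [(60, 1, 1, [(0, [1], [0, 5]), (0, [1], [1, 2]), (0, [0], [3, 5]), (4, [], [4])]),
  (-60, 1, 1, [(0, [1], [0, 5]), (0, [1], [1, 2]), (0, [0], [4, 5]), (4, [], [3])]),
  (-60, 1, 1, [(0, [1], [0, 5]), (0, [1], [1, 3]), (0, [0], [2, 5]), (4, [], [4])]),
  (60, 1, 1, [(0, [1], [0, 5]), (0, [1], [1, 3]), (0, [0], [4, 5]), (4, [], [2])]),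
  (60, 1, 1, [(0, [1], [0, 5]), (0, [1], [1, 4]), (0, [0], [2, 5]), (4, [], [3])]),
  (-60, 1, 1, [(0, [1], [0, 5]), (0, [1], [1, 4]), (0, [0], [3, 5]), (4, [], [2])]),
  (-60, 1, 1, [(0, [1], [2, 5]), (0, [1], [0, 1]), (0, [0], [3, 5]), (4, [], [4])]),
  (60, 1, 1, [(0, [1], [2, 5]), (0, [1], [0, 1]), (0, [0], [4, 5]), (4, [], [3])]),
  (60, 1, 1, [(0, [1], [2, 5]), (0, [1], [1, 3]), (0, [0], [0, 5]), (4, [], [4])]),
  (-60, 1, 1, [(0, [1], [2, 5]), (0, [1], [1, 3]), (0, [0], [4, 5]), (4, [], [0])]),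
  (-60, 1, 1, [(0, [1], [2, 5]), (0, [1], [1, 4]), (0, [0], [0, 5]), (4, [], [3])]),
  (60, 1, 1, [(0, [1], [2, 5]), (0, [1], [1, 4]), (0, [0], [3, 5]), (4, [], [0])]),
  (60, 1, 1, [(0, [1], [3, 5]), (0, [1], [0, 1]), (0, [0], [2, 5]), (4, [], [4])]),
  (-60, 1, 1, [(0, [1], [3, 5]), (0, [1], [0, 1]), (0, [0], [4, 5]), (4, [], [2])]),
  (-60, 1, 1, [(0, [1], [3, 5]), (0, [1], [1, 2]), (0, [0], [0, 5]), (4, [], [4])]),
  (60, 1, 1, [(0, [1], [3, 5]), (0, [1], [1, 2]), (0, [0], [4, 5]), (4, [], [0])]),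
  (60, 1, 1, [(0, [1], [3, 5]), (0, [1], [1, 4]), (0, [0], [0, 5]), (4, [], [2])]),
  (-60, 1, 1, [(0, [1], [3, 5]), (0, [1], [1, 4]), (0, [0], [2, 5]), (4, [], [0])]),
  (-60, 1, 1, [(0, [1], [4, 5]), (0, [1], [0, 1]), (0, [0], [2, 5]), (4, [], [3])]),
  (60, 1, 1, [(0, [1], [4, 5]), (0, [1], [0, 1]), (0, [0], [3, 5]), (4, [], [2])]),
  (60, 1, 1, [(0, [1], [4, 5]), (0, [1], [1, 2]), (0, [0], [0, 5]), (4, [], [3])]),
  (-60, 1, 1, [(0, [1], [4, 5]), (0, [1], [1, 2]), (0, [0], [3, 5]), (4, [], [0])]),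
  (-60, 1, 1, [(0, [1], [4, 5]), (0, [1], [1, 3]), (0, [0], [0, 5]), (4, [], [2])]),
  (60, 1, 1, [(0, [1], [4, 5]), (0, [1], [1, 3]), (0, [0], [2, 5]), (4, [], [0])])]

def z9_0 : Cov := [(0, 1, 1, [(0, [1], [0, 5]), (0, [1], [2, 3]), (0, [0], [1, 5]), (4, [], [4])]),
  (0, 1, 1, [(0, [1], [0, 5]), (0, [1], [2, 3]), (0, [0], [4, 5]), (4, [], [1])]),
  (0, 1, 1, [(0, [1], [0, 5]), (0, [1], [2, 4]), (0, [0], [1, 5]), (4, [], [3])]),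
  (0, 1, 1, [(0, [1], [0, 5]), (0, [1], [2, 4]), (0, [0], [3, 5]), (4, [], [1])]),
  (0, 1, 1, [(0, [1], [0, 5]), (0, [1], [3, 4]), (0, [0], [1, 5]), (4, [], [2])]),
  (0, 1, 1, [(0, [1], [0, 5]), (0, [1], [3, 4]), (0, [0], [2, 5]), (4, [], [1])]),
  (0, 1, 1, [(0, [1], [1, 5]), (0, [1], [0, 2]), (0, [0], [3, 5]), (4, [], [4])]),
  (0, 1, 1, [(0, [1], [1, 5]), (0, [1], [0, 2]), (0, [0], [4, 5]), (4, [], [3])]),
  (0, 1, 1, [(0, [1], [1, 5]), (0, [1], [0, 3]), (0, [0], [2, 5]), (4, [], [4])]),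
  (0, 1, 1, [(0, [1], [1, 5]), (0, [1], [0, 3]), (0, [0], [4, 5]), (4, [], [2])]),
  (0, 1, 1, [(0, [1], [1, 5]), (0, [1], [0, 4]), (0, [0], [2, 5]), (4, [], [3])]),
  (0, 1, 1, [(0, [1], [1, 5]), (0, [1], [0, 4]), (0, [0], [3, 5]), (4, [], [2])]),
  (0, 1, 1, [(0, [1], [1, 5]), (0, [1], [2, 3]), (0, [0], [0, 5]), (4, [], [4])]),
  (0, 1, 1, [(0, [1], [1, 5]), (0, [1], [2, 3]), (0, [0], [4, 5]), (4, [], [0])]),
  (0, 1, 1, [(0, [1], [1, 5]), (0, [1], [2, 4]), (0, [0], [0, 5]), (4, [], [3])]),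
  (0, 1, 1, [(0, [1], [1, 5]), (0, [1], [2, 4]), (0, [0], [3, 5]), (4, [], [0])]),
  (0, 1, 1, [(0, [1], [1, 5]), (0, [1], [3, 4]), (0, [0], [0, 5]), (4, [], [2])]),
  (0, 1, 1, [(0, [1], [1, 5]), (0, [1], [3, 4]), (0, [0], [2, 5]), (4, [], [0])]),
  (0, 1, 1, [(0, [1], [2, 5]), (0, [1], [0, 3]), (0, [0], [1, 5]), (4, [], [4])]),
  (0, 1, 1, [(0, [1], [2, 5]), (0, [1], [0, 3]), (0, [0], [4, 5]), (4, [], [1])]),
  (0, 1, 1, [(0, [1], [2, 5]), (0, [1], [0, 4]), (0, [0], [1, 5]), (4, [], [3])]),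
  (0, 1, 1, [(0, [1], [2, 5]), (0, [1], [0, 4]), (0, [0], [3, 5]), (4, [], [1])]),
  (0, 1, 1, [(0, [1], [2, 5]), (0, [1], [3, 4]), (0, [0], [0, 5]), (4, [], [1])]),
  (0, 1, 1, [(0, [1], [2, 5]), (0, [1], [3, 4]), (0, [0], [1, 5]), (4, [], [0])]),
  (0, 1, 1, [(0, [1], [3, 5]), (0, [1], [0, 2]), (0, [0], [1, 5]), (4, [], [4])]),
  (0, 1, 1, [(0, [1], [3, 5]), (0, [1], [0, 2]), (0, [0], [4, 5]), (4, [], [1])]),
  (0, 1, 1, [(0, [1], [3, 5]), (0, [1], [0, 4]), (0, [0], [1, 5]), (4, [], [2])]),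
  (0, 1, 1, [(0, [1], [3, 5]), (0, [1], [0, 4]), (0, [0], [2, 5]), (4, [], [1])]),
  (0, 1, 1, [(0, [1], [3, 5]), (0, [1], [2, 4]), (0, [0], [0, 5]), (4, [], [1])]),
  (0, 1, 1, [(0, [1], [3, 5]), (0, [1], [2, 4]), (0, [0], [1, 5]), (4, [], [0])]),
  (0, 1, 1, [(0, [1], [4, 5]), (0, [1], [0, 2]), (0, [0], [1, 5]), (4, [], [3])]),
  (0, 1, 1, [(0, [1], [4, 5]), (0, [1], [0, 2]), (0, [0], [3, 5]), (4, [], [1])]),
  (0, 1, 1, [(0, [1], [4, 5]), (0, [1], [0, 3]), (0, [0], [1, 5]), (4, [], [2])]),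
  (0, 1, 1, [(0, [1], [4, 5]), (0, [1], [0, 3]), (0, [0], [2, 5]), (4, [], [1])]),
  (0, 1, 1, [(0, [1], [4, 5]), (0, [1], [2, 3]), (0, [0], [0, 5]), (4, [], [1])]),
  (0, 1, 1, [(0, [1], [4, 5]), (0, [1], [2, 3]), (0, [0], [1, 5]), (4, [], [0])])]

def w9_0 : List (List Wit) := [[(0, 0, 0, 0, 0), (1, 0, 0, 0, 0), (2, 0, 0, 0, 0), (3, 0, 0, 0, 0), (4, 0, 0, 0, 0), (5, 0, 0, 0, 0), (0, 0, 0, 0, 0), (1, 0, 0, 0, 0), (24, 0, 0, 0, 0), (25, 0, 0, 0, 0), (26, 0, 0, 0, 0), (27, 0, 0, 0, 0), (2, 0, 0, 0, 0), (3, 0, 0, 0, 0), (24, 0, 0, 0, 0), (25, 0, 0, 0, 0), (28, 0, 0, 0, 0), (29, 0, 0, 0, 0), (4, 0, 0, 0, 0), (5, 0, 0, 0, 0), (26, 0, 0, 0, 0), (27, 0, 0, 0, 0), (28, 0, 0, 0, 0), (29, 0, 0, 0, 0), (30, 0, 0, 0, 0), (31, 0, 0, 0, 0), (32, 0, 0, 0, 0), (33, 0, 0, 0, 0), (34, 0, 0, 0, 0), (35, 0, 0, 0, 0), (30, 0, 0, 0, 0), (31, 0, 0, 0, 0), (36, 0, 0, 0, 0), (37, 0,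 0, 0, 0), (38, 0, 0, 0, 0), (39, 0, 0, 0, 0), (32, 0, 0, 0, 0), (33, 0, 0, 0, 0), (36, 0, 0, 0, 0), (37, 0, 0, 0, 0), (40, 0, 0, 0, 0), (41, 0, 0, 0, 0), (34, 0, 0, 0, 0), (35, 0, 0, 0, 0), (38, 0, 0, 0, 0), (39, 0, 0, 0, 0), (40, 0, 0, 0, 0), (41, 0, 0, 0, 0), (6, 0, 0, 0, 0), (7, 0, 0, 0, 0), (42, 0, 0, 0, 0), (43, 0, 0, 0, 0), (44, 0, 0, 0, 0), (45, 0, 0, 0, 0), (6, 0, 0, 0, 0), (7, 0, 0, 0, 0), (8, 0, 0, 0, 0), (9, 0, 0, 0, 0), (10, 0, 0, 0, 0), (11, 0, 0, 0, 0), (42, 0, 0, 0, 0), (43, 0, 0, 0, 0), (8, 0, 0, 0, 0), (9, 0, 0, 0, 0), (46, 0, 0, 0, 0), (47, 0, 0, 0, 0), (44, 0, 0, 0, 0), (45, 0, 0, 0, 0), (10, 0, 0, 0, 0), (11, 0, 0, 0, 0), (46, 0, 0, 0, 0), (47, 0, 0, 0, 0), (12, 0, 0, 0, 0), (13, 0, 0, 0, 0), (48, 0, 0, 0, 0), (49, 0, 0, 0, 0), (50, 0, 0, 0, 0), (51, 0, 0, 0, 0), (12, 0, 0, 0, 0), (13, 0, 0, 0, 0), (14, 0, 0, 0, 0), (15, 0, 0, 0, 0), (16,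 0, 0, 0, 0), (17, 0, 0, 0, 0), (48, 0, 0, 0, 0), (49, 0, 0, 0, 0), (14, 0, 0, 0, 0), (15, 0, 0, 0, 0), (52, 0, 0, 0, 0), (53, 0, 0, 0, 0), (50, 0, 0, 0, 0), (51, 0, 0, 0, 0), (16, 0, 0, 0, 0), (17, 0, 0, 0, 0), (52, 0, 0, 0, 0), (53, 0, 0, 0, 0), (18, 0, 0, 0, 0), (19, 0, 0, 0, 0), (54, 0, 0, 0, 0), (55, 0, 0, 0, 0), (56, 0, 0, 0, 0), (57, 0, 0, 0, 0), (18, 0, 0, 0, 0), (19, 0, 0, 0, 0), (20, 0, 0, 0, 0), (21, 0, 0, 0, 0), (22, 0, 0, 0, 0), (23, 0, 0, 0, 0), (54, 0, 0, 0, 0), (55, 0, 0, 0, 0), (20, 0, 0, 0, 0), (21, 0, 0, 0, 0), (58, 0, 0, 0, 0), (59, 0, 0, 0, 0), (56, 0, 0, 0, 0), (57, 0, 0, 0, 0), (22, 0, 0, 0, 0), (23, 0, 0, 0, 0), (58, 0, 0, 0, 0), (59, 0, 0, 0, 0)]]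

def m9_1 : Base := (0, 1, [(0, [0], [0, 5]), (1, [], [1, 2]), (1, [], [3, 5]), (4, [], [4])])

def l9_1 : Cov := [(60, 0, 1, [(0, [0], [0, 5]), (1, [], [1, 2]), (1, [], [3, 5]), (4, [], [4])]),
  (-60, 0, 1, [(0, [0], [0, 5]), (1, [], [1, 2]), (1, [], [4, 5]), (4, [], [3])]),
  (-60, 0, 1, [(0, [0], [0, 5]), (1, [], [1, 3]), (1, [], [2, 5]), (4, [], [4])]),
  (60, 0, 1, [(0, [0], [0, 5]), (1, [], [1, 3]), (1, [], [4, 5]), (4, [], [2])]),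
  (60, 0, 1, [(0, [0], [0, 5]), (1, [], [1, 4]), (1, [], [2, 5]), (4, [], [3])]),
  (-60, 0, 1, [(0, [0], [0, 5]), (1, [], [1, 4]), (1, [], [3, 5]), (4, [], [2])]),
  (-60, 0, 1, [(0, [0], [2, 5]), (1, [], [0, 1]), (1, [], [3, 5]), (4, [], [4])]),
  (60, 0, 1, [(0, [0], [2, 5]), (1, [], [0, 1]), (1, [], [4, 5]), (4, [], [3])]),
  (60, 0, 1, [(0, [0], [2, 5]), (1, [], [1, 3]), (1, [], [0, 5]), (4, [], [4])]),
  (-60, 0, 1, [(0, [0], [2, 5]), (1, [], [1, 3]), (1, [], [4, 5]), (4, [], [0])]),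
  (-60, 0, 1, [(0, [0], [2, 5]), (1, [], [1, 4]), (1, [], [0, 5]), (4, [], [3])]),
  (60, 0, 1, [(0, [0], [2, 5]), (1, [], [1, 4]), (1, [], [3, 5]), (4, [], [0])]),
  (60, 0, 1, [(0, [0], [3, 5]), (1, [], [0, 1]), (1, [], [2, 5]), (4, [], [4])]),
  (-60, 0, 1, [(0, [0], [3, 5]), (1, [], [0, 1]), (1, [], [4, 5]), (4, [], [2])]),
  (-60, 0, 1, [(0, [0], [3, 5]), (1, [], [1, 2]), (1, [], [0, 5]), (4, [], [4])]),
  (60, 0, 1, [(0, [0], [3, 5]), (1, [], [1, 2]), (1, [], [4, 5]), (4, [], [0])]),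
  (60, 0, 1, [(0, [0], [3, 5]), (1, [], [1, 4]), (1, [], [0, 5]), (4, [], [2])]),
  (-60, 0, 1, [(0, [0], [3, 5]), (1, [], [1, 4]), (1, [], [2, 5]), (4, [], [0])]),
  (-60, 0, 1, [(0, [0], [4, 5]), (1, [], [0, 1]), (1, [], [2, 5]), (4, [], [3])]),
  (60, 0, 1, [(0, [0], [4, 5]), (1, [], [0, 1]), (1, [], [3, 5]), (4, [], [2])]),
  (60, 0, 1, [(0, [0], [4, 5]), (1, [], [1, 2]), (1, [], [0, 5]), (4, [], [3])]),
  (-60, 0, 1, [(0, [0], [4, 5]), (1, [], [1, 2]), (1, [], [3, 5]), (4, [], [0])]),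
  (-60, 0, 1, [(0, [0], [4, 5]), (1, [], [1, 3]), (1, [], [0, 5]), (4, [], [2])]),
  (60, 0, 1, [(0, [0], [4, 5]), (1, [], [1, 3]), (1, [], [2, 5]), (4, [], [0])])]

def z9_1 : Cov := [(0, 0, 1, [(0, [0], [0, 5]), (1, [], [2, 3]), (1, [], [1, 5]), (4, [], [4])]),
  (0, 0, 1, [(0, [0], [0, 5]), (1, [], [2, 3]), (1, [], [4, 5]), (4, [], [1])]),
  (0, 0, 1, [(0, [0], [0, 5]), (1, [], [2, 4]), (1, [], [1, 5]), (4, [], [3])]),
  (0, 0, 1, [(0, [0], [0, 5]), (1, [], [2, 4]), (1, [], [3, 5]), (4, [], [1])]),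
  (0, 0, 1, [(0, [0], [0, 5]), (1, [], [3, 4]), (1, [], [1, 5]), (4, [], [2])]),
  (0, 0, 1, [(0, [0], [0, 5]), (1, [], [3, 4]), (1, [], [2, 5]), (4, [], [1])]),
  (0, 0, 1, [(0, [0], [1, 5]), (1, [], [0, 2]), (1, [], [3, 5]), (4, [], [4])]),
  (0, 0, 1, [(0, [0], [1, 5]), (1, [], [0, 2]), (1, [], [4, 5]), (4, [], [3])]),
  (0, 0, 1, [(0, [0], [1, 5]), (1, [], [0, 3]), (1, [], [2, 5]), (4, [], [4])]),
  (0, 0, 1, [(0, [0], [1, 5]), (1, [], [0, 3]), (1, [], [4, 5]), (4, [], [2])]),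
  (0, 0, 1, [(0, [0], [1, 5]), (1, [], [0, 4]), (1, [], [2, 5]), (4, [], [3])]),
  (0, 0, 1, [(0, [0], [1, 5]), (1, [], [0, 4]), (1, [], [3, 5]), (4, [], [2])]),
  (0, 0, 1, [(0, [0], [1, 5]), (1, [], [2, 3]), (1, [], [0, 5]), (4, [], [4])]),
  (0, 0, 1, [(0, [0], [1, 5]), (1, [], [2, 3]), (1, [], [4, 5]), (4, [], [0])]),
  (0, 0, 1, [(0, [0], [1, 5]), (1, [], [2, 4]), (1, [], [0, 5]), (4, [], [3])]),
  (0, 0, 1, [(0, [0], [1, 5]), (1, [], [2, 4]), (1, [], [3, 5]), (4, [], [0])]),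
  (0, 0, 1, [(0, [0], [1, 5]), (1, [], [3, 4]), (1, [], [0, 5]), (4, [], [2])]),
  (0, 0, 1, [(0, [0], [1, 5]), (1, [], [3, 4]), (1, [], [2, 5]), (4, [], [0])]),
  (0, 0, 1, [(0, [0], [2, 5]), (1, [], [0, 3]), (1, [], [1, 5]), (4, [], [4])]),
  (0, 0, 1, [(0, [0], [2, 5]), (1, [], [0, 3]), (1, [], [4, 5]), (4, [], [1])]),
  (0, 0, 1, [(0, [0], [2, 5]), (1, [], [0, 4]), (1, [], [1, 5]), (4, [], [3])]),
  (0, 0, 1, [(0, [0], [2, 5]), (1, [], [0, 4]), (1, [], [3, 5]), (4, [], [1])]),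
  (0, 0, 1, [(0, [0], [2, 5]), (1, [], [3, 4]), (1, [], [0, 5]), (4, [], [1])]),
  (0, 0, 1, [(0, [0], [2, 5]), (1, [], [3, 4]), (1, [], [1, 5]), (4, [], [0])]),
  (0, 0, 1, [(0, [0], [3, 5]), (1, [], [0, 2]), (1, [], [1, 5]), (4, [], [4])]),
  (0, 0, 1, [(0, [0], [3, 5]), (1, [], [0, 2]), (1, [], [4, 5]), (4, [], [1])]),
  (0, 0, 1, [(0, [0], [3, 5]), (1, [], [0, 4]), (1, [], [1, 5]), (4, [], [2])]),
  (0, 0, 1, [(0, [0], [3, 5]), (1, [], [0, 4]), (1, [], [2, 5]), (4, [], [1])]),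
  (0, 0, 1, [(0, [0], [3, 5]), (1, [], [2, 4]), (1, [], [0, 5]), (4, [], [1])]),
  (0, 0, 1, [(0, [0], [3, 5]), (1, [], [2, 4]), (1, [], [1, 5]), (4, [], [0])]),
  (0, 0, 1, [(0, [0], [4, 5]), (1, [], [0, 2]), (1, [], [1, 5]), (4, [], [3])]),
  (0, 0, 1, [(0, [0], [4, 5]), (1, [], [0, 2]), (1, [], [3, 5]), (4, [], [1])]),
  (0, 0, 1, [(0, [0], [4, 5]), (1, [], [0, 3]), (1, [], [1, 5]), (4, [], [2])]),
  (0, 0, 1, [(0, [0], [4, 5]), (1, [], [0, 3]), (1, [], [2, 5]), (4, [], [1])]),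
  (0, 0, 1, [(0, [0], [4, 5]), (1, [], [2, 3]), (1, [], [0, 5]), (4, [], [1])]),
  (0, 0, 1, [(0, [0], [4, 5]), (1, [], [2, 3]), (1, [], [1, 5]), (4, [], [0])])]

def w9_1 : List (List Wit) := [[(0, 0, 0, 0, 0), (1, 0, 0, 0, 0), (2, 0, 0, 0, 0), (3, 0, 0, 0, 0), (4, 0, 0, 0, 0), (5, 0, 0, 0, 0), (0, 0, 0, 0, 0), (1, 0, 0, 0, 0), (24, 0, 0, 0, 0), (25, 0, 0, 0, 0), (26, 0, 0, 0, 0), (27, 0, 0, 0, 0), (2, 0, 0, 0, 0), (3, 0, 0, 0, 0), (24, 0, 0, 0, 0), (25, 0, 0, 0, 0), (28, 0, 0, 0, 0), (29, 0, 0, 0, 0), (4, 0, 0, 0, 0), (5, 0, 0, 0, 0), (26, 0, 0, 0, 0), (27, 0, 0, 0, 0), (28, 0, 0, 0, 0), (29, 0, 0, 0, 0), (30, 0, 0, 0, 0), (31, 0, 0, 0, 0), (32, 0, 0, 0, 0), (33, 0, 0, 0, 0), (34, 0, 0, 0, 0), (35, 0, 0, 0, 0), (30, 0, 0, 0, 0), (31, 0, 0, 0, 0), (36, 0, 0, 0, 0), (37, 0, 0, 0, 0), (38, 0, 0, 0, 0), (39, 0, 0, 0, 0), (32, 0, 0, 0, 0), (33, 0, 0, 0, 0), (36,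 0, 0, 0, 0), (37, 0, 0, 0, 0), (40, 0, 0, 0, 0), (41, 0, 0, 0, 0), (34, 0, 0, 0, 0), (35, 0, 0, 0, 0), (38, 0, 0, 0, 0), (39, 0, 0, 0, 0), (40, 0, 0, 0, 0), (41, 0, 0, 0, 0), (6, 0, 0, 0, 0), (7, 0, 0, 0, 0), (42, 0, 0, 0, 0), (43, 0, 0, 0, 0), (44, 0, 0, 0, 0), (45, 0, 0, 0, 0), (6, 0, 0, 0, 0), (7, 0, 0, 0, 0), (8, 0, 0, 0, 0), (9, 0, 0, 0, 0), (10, 0, 0, 0, 0), (11, 0, 0, 0, 0), (42, 0, 0, 0, 0), (43, 0, 0, 0, 0), (8, 0, 0, 0, 0), (9, 0, 0, 0, 0), (46, 0, 0, 0, 0), (47, 0, 0, 0, 0), (44, 0, 0, 0, 0), (45, 0, 0, 0, 0), (10, 0, 0, 0, 0), (11, 0, 0, 0, 0), (46, 0, 0, 0, 0), (47, 0, 0, 0, 0), (12, 0, 0, 0, 0), (13, 0, 0, 0, 0), (48, 0, 0, 0, 0), (49, 0, 0, 0, 0), (50, 0, 0, 0, 0), (51, 0, 0, 0, 0), (12, 0, 0, 0, 0), (13, 0, 0, 0, 0), (14, 0, 0, 0, 0), (15, 0, 0, 0, 0), (16, 0, 0, 0, 0), (17, 0, 0, 0, 0), (48, 0, 0, 0, 0), (49, 0, 0, 0, 0), (14, 0, 0, 0, 0), (15,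 0, 0, 0, 0), (52, 0, 0, 0, 0), (53, 0, 0, 0, 0), (50, 0, 0, 0, 0), (51, 0, 0, 0, 0), (16, 0, 0, 0, 0), (17, 0, 0, 0, 0), (52, 0, 0, 0, 0), (53, 0, 0, 0, 0), (18, 0, 0, 0, 0), (19, 0, 0, 0, 0), (54, 0, 0, 0, 0), (55, 0, 0, 0, 0), (56, 0, 0, 0, 0), (57, 0, 0, 0, 0), (18, 0, 0, 0, 0), (19, 0, 0, 0, 0), (20, 0, 0, 0, 0), (21, 0, 0, 0, 0), (22, 0, 0, 0, 0), (23, 0, 0, 0, 0), (54, 0, 0, 0, 0), (55, 0, 0, 0, 0), (20, 0, 0, 0, 0), (21, 0, 0, 0, 0), (58, 0, 0, 0, 0), (59, 0, 0, 0, 0), (56, 0, 0, 0, 0), (57, 0, 0, 0, 0), (22, 0, 0, 0, 0), (23, 0, 0, 0, 0), (58, 0, 0, 0, 0), (59, 0, 0, 0, 0)]]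

theorem tr9 : trK keys lk9 kl9 = true := by
  decide +kernel

theorem x9_0 : expB 1 5 dg0 dg9 m9_0 (l9_0 ++ z9_0) w9_0 = true := by
  decide +kernel

theorem x9_1 : expB 1 5 dg0 dg9 m9_1 (l9_1 ++ z9_1) w9_1 = true := by
  decide +kernel

theorem t9_0_0 : chkS lk9 1 5 [(1, m9_0)] l9_0
  [(16, 528, 528, 34866771, 34866771), (23, 258, 33, 86393091, 73598241), (51, 513, 513, 102056736, 105062736), (25, 258, 33, 86393091, 73598241), (25, 528, 528, 33952596, 68167221), (17, 528, 528, 34997331, 68290131), (18, 528, 528, 34866531, 19138131), (27, 528, 528, 33756516, 18892341), (34, 528, 528, 34866771, 34866771), (28, 288, 288, 2176101, 16921926), (3, 528, 528, 33887811, 37815861), (4, 18, 18, 38880006, 5449281), (34, 258, 33, 100946481, 104075781), (3, 258, 33, 69558531, 54920481), (24, 258, 33, 87318786, 56905761), (2, 288, 288, 34801236, 34621011), (26, 258, 33, 87318786,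 56905761), (28, 513, 513, 101008161, 105062661), (28, 528, 528, 33887076, 20981301), (4, 258, 33, 86393091, 73598241), (2, 528, 528, 19150416, 34878816), (6, 258, 33, 86393091, 73598241), (28, 33, 258, 6370596, 85995846), (25, 513, 513, 84296481, 73605381)]
  [(2, 120), (3, -120), (4, 120), (6, -60), (16, 60), (17, -60), (18, -60), (23, -60), (24, -60), (25, 180), (26, 60), (27, 60), (28, -240), (34, 120), (51, -60)] = true := by
  decide +kernel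

theorem t9_0_1 : chkS lk9 1 5 [(1, m9_0)] l9_1
  [(35, 16, 16, 34866771, 34866771), (1, 1, 1, 35009856, 69285456), (36, 16, 16, 34866771, 34866771), (37, 16, 16, 34866771, 34866771), (5, 16, 16, 33953091, 69273141), (38, 16, 16, 34866771, 34866771), (53, 1, 1, 102056496, 105058896), (33, 16, 16, 50729556, 68182581), (52, 1, 1, 102056496, 105058896), (32, 1, 1, 84296241, 73601541), (32, 16, 16, 50729556, 68182581), (33, 1, 1, 84296241, 73601541), (20, 16, 16, 34866531, 19138131), (21, 16, 16, 34866771, 34866771), (19, 16, 16, 34866771, 34866771), (8, 16, 16, 34997571, 69273171), (22, 16, 16, 34866771, 34866771), (7, 16, 16, 34997571, 69273171), (30, 16, 16, 33756516, 18892341), (40, 1, 1, 87441666, 73617441), (29, 16, 16, 33756756, 34620981), (0, 16, 16, 50599506, 34889781), (39, 1, 1, 87441666, 73617441), (31, 1, 1, 84296241, 73601541)]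
  [(0, -60), (1, -60), (5, 60), (7, -60), (8, 60), (19, -60), (20, 60), (21, -60), (22, 60), (29, 60), (30, -60), (31, 60), (32, -120), (33, 120), (35, 60), (36, -60), (37, 60), (38, -60), (39, -60), (40, 60), (52, 60), (53, -60)] = true := by
  decide +kernel

theorem t9_1_1 : chkS lk9 1 5 [(1, m9_1)] l9_1
  [(48, 0, 0, 51652176, 34890576), (50, 0, 0, 85337136, 73536336), (46, 0, 0, 85206576, 40112976), (47, 0, 0, 85337136, 73536336), (47, 0, 0, 22307376, 55841376), (49, 0, 0, 51652176, 34890576), (41, 0, 0, 101987616, 103035216), (13, 0, 0, 67511601, 69604101), (42, 0, 0, 34878816, 19150416), (10, 0, 0, 67511601, 69604101), (15, 0, 0, 50734161, 68313861), (12, 0, 0, 50734161, 68313861), (42, 0, 0, 84158001, 40112901), (15, 0, 0, 3282516, 34624566), (44, 0, 0, 34879056, 34879056), (14, 0, 0, 3282516, 34624566), (45, 0, 0, 34879056, 34879056), (43, 0, 0, 19137381,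 17048931), (10, 0, 0, 4284981, 50664006), (12, 0, 0, 3221076, 34624326), (14, 0, 0, 50603601, 34890501), (11, 0, 0, 50603601, 34890501), (43, 0, 0, 34944096, 21116496), (9, 0, 0, 67446321, 38146821)]
  [(9, 60), (10, -120), (11, -60), (12, 120), (13, 60), (14, 120), (15, -120), (41, -60), (42, 120), (43, -120), (44, -60), (45, 60), (46, -60), (47, 120), (48, 60), (49, -60), (50, -60)] = true := by
  decide +kernel

section

variable {κ ι : Type*} [Fintype κ] [Fintype ι] [Inhabited κ] [Inhabited ι]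

noncomputable def F9_0 (E : Env κ ι) : (Fin 1 → κ) → (Fin 5 → ι) → ℝ := op2 (P0 κ) (P9 ι) (fB E 1 5 m9_0)

noncomputable def F9_1 (E : Env κ ι) : (Fin 1 → κ) → (Fin 5 → ι) → ℝ := op2 (P0 κ) (P9 ι) (fB E 1 5 m9_1)

def r9_0_0 : List (ℕ × ℤ) := [(2, 120), (3, -120), (4, 120), (6, -60), (16, 60), (17, -60), (18, -60), (23, -60), (24, -60), (25, 180), (26, 60), (27, 60), (28, -240), (34, 120), (51, -60)]

theorem h9_0_0 (E : Env κ ι) : ip (F9_0 E) (F9_0 E) = dotS (ek E lk9) r9_0_0 :=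
  op_entryZ E lk9 1 5 _ _ _ _ (pg0 κ) (pg9 ι) m9_0 m9_0 l9_0 z9_0 w9_0 x9_0 (by decide) _ (chkS_sound E lk9 1 5 _ _ _ _ t9_0_0)

def r9_0_1 : List (ℕ × ℤ) := [(0, -60), (1, -60), (5, 60), (7, -60), (8, 60), (19, -60), (20, 60), (21, -60), (22, 60), (29, 60), (30, -60), (31, 60), (32, -120), (33, 120), (35, 60), (36, -60), (37, 60), (38, -60), (39, -60), (40, 60), (52, 60), (53, -60)]

theorem h9_0_1 (E : Env κ ι) : ip (F9_0 E) (F9_1 E) = dotS (ek E lk9) r9_0_1 :=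
  op_entryZ E lk9 1 5 _ _ _ _ (pg0 κ) (pg9 ι) m9_0 m9_1 l9_1 z9_1 w9_1 x9_1 (by decide) _ (chkS_sound E lk9 1 5 _ _ _ _ t9_0_1)

def r9_1_1 : List (ℕ × ℤ) := [(9, 60), (10, -120), (11, -60), (12, 120), (13, 60), (14, 120), (15, -120), (41, -60), (42, 120), (43, -120), (44, -60), (45, 60), (46, -60), (47, 120), (48, 60), (49, -60), (50, -60)]

theorem h9_1_1 (E : Env κ ι) : ip (F9_1 E) (F9_1 E) = dotS (ek E lk9) r9_1_1 :=
  op_entryZ E lk9 1 5 _ _ _ _ (pg0 κ) (pg9 ι) m9_1 m9_1 l9_1 z9_1 w9_1 x9_1 (by decide) _ (chkS_sound E lk9 1 5 _ _ _ _ t9_1_1)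

theorem row9_0 (E : Env κ ι) : RowG (ek E lk9) (F9_0 E) [F9_0 E, F9_1 E] [r9_0_0, r9_0_1] :=
  rowG_cons _ _ _ _ _ _ (h9_0_0 E) (rowG_cons _ _ _ _ _ _ (h9_0_1 E) (rowG_nil _ _))

theorem row9_1 (E : Env κ ι) : RowG (ek E lk9) (F9_1 E) [F9_1 E] [r9_1_1] :=
  rowG_cons _ _ _ _ _ _ (h9_1_1 E) (rowG_nil _ _)

def tab9 : List (List (List (ℕ × ℤ))) := [[r9_0_0, r9_0_1], [r9_1_1]]

theorem tri9 (E : Env κ ι) : TriG (ek E lk9) [F9_0 E, F9_1 E] tab9 := by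
  refine triG_cons _ _ _ _ _ (row9_0 E) ?_
  refine triG_cons _ _ _ _ _ (row9_1 E) ?_
  exact triG_nil _

end

def lk10 : List Key := [
  (3, 7, [(0, [0], [0, 1]), (0, [1], [0, 2]), (0, [0], [2, 3]), (0, [2], [1, 4]), (0, [1], [5, 6]), (0, [2], [5, 6]), (4, [], [3]), (4, [], [4])]),
  (3, 7, [(0, [0], [0, 1]), (0, [1], [0, 2]), (0, [0], [3, 4]), (0, [1], [3, 4]), (0, [2], [1, 5]), (0, [2], [5, 6]), (4, [], [2]), (4, [], [6])]),
  (3, 7, [(0, [0], [0, 1]), (0, [0], [2, 3]), (0, [1], [0, 1]), (4, [], [3]), (0, [2], [4, 5]), (0, [2], [2, 6]), (0, [1], [4, 5]), (4, [], [6])]),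
  (3, 7, [(0, [0], [0, 1]), (0, [0], [2, 0]), (0, [1], [3, 1]), (4, [], [4]), (0, [2], [5, 6]), (0, [2], [3, 4]), (0, [1], [2, 5]), (4, [], [6])]),
  (3, 7, [(0, [0], [0, 1]), (0, [0], [2, 0]), (0, [1], [3, 1]), (4, [], [4]), (0, [2], [3, 5]), (0, [2], [2, 6]), (0, [1], [4, 6]), (4, [], [5])]),
  (3, 7, [(0, [0], [0, 1]), (0, [0], [2, 0]), (0, [1], [3, 4]), (4, [], [1]), (0, [2], [5, 6]), (0, [2], [3, 4]), (0, [1], [5, 6]), (4, [], [2])]),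
  (3, 7, [(0, [0], [0, 1]), (0, [0], [2, 3]), (0, [1], [0, 1]), (4, [], [4]), (0, [2], [5, 6]), (0, [2], [2, 4]), (0, [1], [3, 5]), (4, [], [6])]),
  (3, 7, [(0, [0], [0, 1]), (0, [0], [2, 3]), (0, [1], [0, 1]), (4, [], [4]), (0, [2], [4, 5]), (0, [2], [2, 6]), (0, [1], [3, 6]), (4, [], [5])]),
  (3, 7, [(0, [0], [0, 1]), (0, [0], [2, 3]), (0, [1], [4, 0]), (4, [], [1]), (0, [2], [5, 6]), (0, [2], [2, 4]), (0, [1], [3, 5]), (4, [], [6])]),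
  (3, 7, [(0, [0], [0, 1]), (0, [0], [2, 3]), (0, [1], [4, 0]), (4, [], [1]), (0, [2], [2, 5]), (0, [2], [4, 6]), (0, [1], [5, 6]), (4, [], [3])]),
  (3, 7, [(0, [0], [0, 1]), (0, [0], [2, 3]), (0, [1], [4, 0]), (4, [], [1]), (0, [2], [2, 5]), (0, [2], [4, 6]), (0, [1], [3, 6]), (4, [], [5])]),
  (3, 7, [(0, [0], [0, 1]), (0, [0], [2, 3]), (0, [1], [4, 0]), (4, [], [1]), (0, [2], [4, 5]), (0, [2], [2, 6]), (0, [1], [3, 6]), (4, [], [5])]),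
  (3, 7, [(0, [0], [0, 1]), (0, [0], [2, 3]), (0, [1], [4, 1]), (4, [], [5]), (0, [2], [2, 6]), (0, [2], [0, 4]), (0, [1], [3, 6]), (4, [], [5])])]

def kl10 : List ℕ := [57, 58, 132, 221, 223, 252, 267, 269, 284, 286, 287, 288, 430]

def m10_0 : Base := (0, 3, [(0, [0], [1, 2]), (0, [1], [1, 3]), (0, [2], [2, 3]), (4, [], [0])])

def l10_0 : Cov := [(36, 0, 3, [(0, [0], [1, 2]), (0, [1], [1, 3]), (0, [2], [2, 3]), (4, [], [0])])]

def z10_0 : Cov := []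

def w10_0 : List (List Wit) := [[(0, 0, 0, 528, 528)],
  [(0, 0, 0, 513, 513)],
  [(0, 0, 0, 288, 288)],
  [(0, 0, 0, 258, 33)],
  [(0, 0, 0, 33, 258)],
  [(0, 0, 0, 18, 18)]]

def m10_1 : Base := (0, 3, [(0, [0], [1, 2]), (0, [1], [1, 3]), (0, [2], [0, 3]), (4, [], [2])])

def l10_1 : Cov := [(6, 0, 3, [(0, [0], [1, 2]), (0, [1], [1, 3]), (0, [2], [0, 3]), (4, [], [2])]),
  (6, 0, 3, [(0, [0], [1, 2]), (0, [2], [1, 3]), (0, [1], [0, 3]), (4, [], [2])]),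
  (6, 0, 3, [(0, [1], [1, 2]), (0, [0], [1, 3]), (0, [2], [0, 3]), (4, [], [2])]),
  (6, 0, 3, [(0, [1], [1, 2]), (0, [2], [1, 3]), (0, [0], [0, 3]), (4, [], [2])]),
  (6, 0, 3, [(0, [2], [1, 2]), (0, [0], [1, 3]), (0, [1], [0, 3]), (4, [], [2])]),
  (6, 0, 3, [(0, [2], [1, 2]), (0, [1], [1, 3]), (0, [0], [0, 3]), (4, [], [2])])]

def z10_1 : Cov := []

def w10_1 : List (List Wit) := [[(0, 0, 0, 528, 528)],
  [(1, 0, 0, 528, 528)],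
  [(2, 0, 0, 528, 528)],
  [(3, 0, 0, 528, 528)],
  [(4, 0, 0, 528, 528)],
  [(5, 0, 0, 528, 528)]]

def m10_2 : Base := (0, 3, [(0, [0], [1, 2]), (0, [1], [1, 2]), (0, [2], [0, 3]), (4, [], [3])])

def l10_2 : Cov := [(12, 0, 3, [(0, [0], [1, 2]), (0, [1], [1, 2]), (0, [2], [0, 3]), (4, [], [3])]),
  (12, 0, 3, [(0, [0], [1, 2]), (0, [2], [1, 2]), (0, [1], [0, 3]), (4, [], [3])]),
  (12, 0, 3, [(0, [1], [1, 2]), (0, [2], [1, 2]), (0, [0], [0, 3]), (4, [], [3])])]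

def z10_2 : Cov := []

def w10_2 : List (List Wit) := [[(0, 0, 0, 528, 528)],
  [(1, 0, 0, 528, 528)],
  [(0, 0, 0, 528, 528)],
  [(2, 0, 0, 528, 528)],
  [(1, 0, 0, 528, 528)],
  [(2, 0, 0, 528, 528)]]

theorem tr10 : trK keys lk10 kl10 = true := by
  decide +kernel

theorem x10_0 : expB 3 1 dg1 dg0 m10_0 (l10_0 ++ z10_0) w10_0 = true := by
  decide +kernel

theorem x10_1 : expB 3 1 dg1 dg0 m10_1 (l10_1 ++ z10_1) w10_1 = true := by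
  decide +kernel

theorem x10_2 : expB 3 1 dg1 dg0 m10_2 (l10_2 ++ z10_2) w10_2 = true := by
  decide +kernel

theorem t10_0_0 : chkS lk10 3 1 [(1, m10_0)] l10_0
  [(12, 288, 288, 103956741, 100881441)]
  [(12, 36)] = true := by
  decide +kernel

theorem t10_0_1 : chkS lk10 3 1 [(1, m10_0)] l10_1
  [(11, 528, 528, 68182581, 50729556), (11, 288, 288, 68182821, 50733396), (11, 513, 513, 68167221, 33952596), (11, 258, 33, 68171301, 33960276), (11, 33, 258, 68166501, 17179476), (11, 18, 18, 68170341, 17183316)]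
  [(11, 36)] = true := by
  decide +kernel

theorem t10_0_2 : chkS lk10 3 1 [(1, m10_0)] l10_2
  [(7, 528, 528, 84959796, 56627796), (7, 288, 288, 84960036, 56631636), (7, 258, 33, 84948516, 39858516)]
  [(7, 36)] = true := by
  decide +kernel

theorem t10_1_1 : chkS lk10 3 1 [(1, m10_1)] l10_1
  [(3, 18, 18, 40178736, 88217136), (9, 528, 528, 87179526, 6509601), (4, 18, 18, 38147376, 69539376), (10, 258, 33, 68171046, 2502996), (10, 528, 528, 55722246, 5465121), (8, 528, 528, 56967426, 88301601)]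
  [(3, 6), (4, 6), (8, 6), (9, 6), (10, 12)] = true := by
  decide +kernel

theorem t10_1_2 : chkS lk10 3 1 [(1, m10_1)] l10_2
  [(1, 513, 513, 105058821, 101007921), (0, 258, 33, 56951826, 88236051), (6, 258, 33, 101725221, 100806996)]
  [(0, 12), (1, 12), (6, 12)] = true := by
  decide +kernel

theorem t10_2_2 : chkS lk10 3 1 [(1, m10_2)] l10_2
  [(5, 33, 258, 40178736, 88217136), (2, 513, 513, 55861506, 55861281), (2, 528, 528, 55861506, 55861281)]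
  [(2, 24), (5, 12)] = true := by
  decide +kernel

section

variable {κ ι : Type*} [Fintype κ] [Fintype ι] [Inhabited κ] [Inhabited ι]

noncomputable def F10_0 (E : Env κ ι) : (Fin 3 → κ) → (Fin 1 → ι) → ℝ := op2 (P1 κ) (P0 ι) (fB E 3 1 m10_0)

noncomputable def F10_1 (E : Env κ ι) : (Fin 3 → κ) → (Fin 1 → ι) → ℝ := op2 (P1 κ) (P0 ι) (fB E 3 1 m10_1)

noncomputable def F10_2 (E : Env κ ι) : (Fin 3 → κ) → (Fin 1 → ι) → ℝ := op2 (P1 κ) (P0 ι) (fB E 3 1 m10_2)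

def r10_0_0 : List (ℕ × ℤ) := [(12, 36)]

theorem h10_0_0 (E : Env κ ι) : ip (F10_0 E) (F10_0 E) = dotS (ek E lk10) r10_0_0 :=
  op_entryZ E lk10 3 1 _ _ _ _ (pg1 κ) (pg0 ι) m10_0 m10_0 l10_0 z10_0 w10_0 x10_0 (by decide) _ (chkS_sound E lk10 3 1 _ _ _ _ t10_0_0)

def r10_0_1 : List (ℕ × ℤ) := [(11, 36)]

theorem h10_0_1 (E : Env κ ι) : ip (F10_0 E) (F10_1 E) = dotS (ek E lk10) r10_0_1 :=
  op_entryZ E lk10 3 1 _ _ _ _ (pg1 κ) (pg0 ι) m10_0 m10_1 l10_1 z10_1 w10_1 x10_1 (by decide) _ (chkS_sound E lk10 3 1 _ _ _ _ t10_0_1)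

def r10_0_2 : List (ℕ × ℤ) := [(7, 36)]

theorem h10_0_2 (E : Env κ ι) : ip (F10_0 E) (F10_2 E) = dotS (ek E lk10) r10_0_2 :=
  op_entryZ E lk10 3 1 _ _ _ _ (pg1 κ) (pg0 ι) m10_0 m10_2 l10_2 z10_2 w10_2 x10_2 (by decide) _ (chkS_sound E lk10 3 1 _ _ _ _ t10_0_2)

def r10_1_1 : List (ℕ × ℤ) := [(3, 6), (4, 6), (8, 6), (9, 6), (10, 12)]

theorem h10_1_1 (E : Env κ ι) : ip (F10_1 E) (F10_1 E) = dotS (ek E lk10) r10_1_1 :=
  op_entryZ E lk10 3 1 _ _ _ _ (pg1 κ) (pg0 ι) m10_1 m10_1 l10_1 z10_1 w10_1 x10_1 (by decide) _ (chkS_sound E lk10 3 1 _ _ _ _ t10_1_1)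

def r10_1_2 : List (ℕ × ℤ) := [(0, 12), (1, 12), (6, 12)]

theorem h10_1_2 (E : Env κ ι) : ip (F10_1 E) (F10_2 E) = dotS (ek E lk10) r10_1_2 :=
  op_entryZ E lk10 3 1 _ _ _ _ (pg1 κ) (pg0 ι) m10_1 m10_2 l10_2 z10_2 w10_2 x10_2 (by decide) _ (chkS_sound E lk10 3 1 _ _ _ _ t10_1_2)

def r10_2_2 : List (ℕ × ℤ) := [(2, 24), (5, 12)]

theorem h10_2_2 (E : Env κ ι) : ip (F10_2 E) (F10_2 E) = dotS (ek E lk10) r10_2_2 :=
  op_entryZ E lk10 3 1 _ _ _ _ (pg1 κ) (pg0 ι) m10_2 m10_2 l10_2 z10_2 w10_2 x10_2 (by decide) _ (chkS_sound E lk10 3 1 _ _ _ _ t10_2_2)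

theorem row10_0 (E : Env κ ι) : RowG (ek E lk10) (F10_0 E) [F10_0 E, F10_1 E, F10_2 E] [r10_0_0, r10_0_1, r10_0_2] :=
  rowG_cons _ _ _ _ _ _ (h10_0_0 E) (rowG_cons _ _ _ _ _ _ (h10_0_1 E) (rowG_cons _ _ _ _ _ _ (h10_0_2 E) (rowG_nil _ _)))

theorem row10_1 (E : Env κ ι) : RowG (ek E lk10) (F10_1 E) [F10_1 E, F10_2 E] [r10_1_1, r10_1_2] :=
  rowG_cons _ _ _ _ _ _ (h10_1_1 E) (rowG_cons _ _ _ _ _ _ (h10_1_2 E) (rowG_nil _ _))

theorem row10_2 (E : Env κ ι) : RowG (ek E lk10) (F10_2 E) [F10_2 E] [r10_2_2] :=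
  rowG_cons _ _ _ _ _ _ (h10_2_2 E) (rowG_nil _ _)

def tab10 : List (List (List (ℕ × ℤ))) := [[r10_0_0, r10_0_1, r10_0_2], [r10_1_1, r10_1_2], [r10_2_2]]

theorem tri10 (E : Env κ ι) : TriG (ek E lk10) [F10_0 E, F10_1 E, F10_2 E] tab10 := by
  refine triG_cons _ _ _ _ _ (row10_0 E) ?_
  refine triG_cons _ _ _ _ _ (row10_1 E) ?_
  refine triG_cons _ _ _ _ _ (row10_2 E) ?_
  exact triG_nil _

end

def lk11 : List Key := [
  (3, 7, [(0, [0], [0, 1]), (0, [1], [0, 2]), (0, [0], [2, 3]), (0, [2], [1, 4]), (0, [1], [5, 6]), (0, [2], [5, 6]), (4, [], [3]), (4, [], [4])]),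
  (3, 7, [(0, [0], [0, 1]), (0, [1], [0, 2]), (0, [0], [3, 4]), (0, [1], [3, 4]), (0, [2], [1, 5]), (0, [2], [5, 6]), (4, [], [2]), (4, [], [6])]),
  (3, 7, [(0, [0], [0, 1]), (0, [0], [2, 3]), (0, [1], [0, 1]), (4, [], [3]), (0, [2], [4, 5]), (0, [2], [2, 6]), (0, [1], [4, 5]), (4, [], [6])]),
  (3, 7, [(0, [0], [0, 1]), (0, [0], [2, 0]), (0, [1], [3, 1]), (4, [], [4]), (0, [2], [5, 6]), (0, [2], [3, 4]), (0, [1], [2, 5]), (4, [], [6])]),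
  (3, 7, [(0, [0], [0, 1]), (0, [0], [2, 0]), (0, [1], [3, 1]), (4, [], [4]), (0, [2], [3, 5]), (0, [2], [2, 6]), (0, [1], [4, 6]), (4, [], [5])]),
  (3, 7, [(0, [0], [0, 1]), (0, [0], [2, 0]), (0, [1], [3, 4]), (4, [], [1]), (0, [2], [5, 6]), (0, [2], [3, 4]), (0, [1], [5, 6]), (4, [], [2])]),
  (3, 7, [(0, [0], [0, 1]), (0, [0], [2, 3]), (0, [1], [0, 1]), (4, [], [4]), (0, [2], [5, 6]), (0, [2], [2, 4]), (0, [1], [3, 5]), (4, [], [6])]),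
  (3, 7, [(0, [0], [0, 1]), (0, [0], [2, 3]), (0, [1], [4, 0]), (4, [], [1]), (0, [2], [5, 6]), (0, [2], [2, 4]), (0, [1], [3, 5]), (4, [], [6])]),
  (3, 7, [(0, [0], [0, 1]), (0, [0], [2, 3]), (0, [1], [4, 0]), (4, [], [1]), (0, [2], [2, 5]), (0, [2], [4, 6]), (0, [1], [5, 6]), (4, [], [3])]),
  (3, 7, [(0, [0], [0, 1]), (0, [0], [2, 3]), (0, [1], [4, 0]), (4, [], [1]), (0, [2], [2, 5]), (0, [2], [4, 6]), (0, [1], [3, 6]), (4, [], [5])])]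

def kl11 : List ℕ := [57, 58, 132, 221, 223, 252, 267, 284, 286, 287]

def m11_0 : Base := (0, 3, [(0, [0], [1, 2]), (0, [1], [1, 3]), (0, [2], [0, 3]), (4, [], [2])])

def l11_0 : Cov := [(4, 0, 3, [(0, [0], [1, 2]), (0, [1], [1, 3]), (0, [2], [0, 3]), (4, [], [2])]),
  (2, 0, 3, [(0, [0], [1, 2]), (0, [2], [1, 3]), (0, [1], [0, 3]), (4, [], [2])]),
  (2, 0, 3, [(0, [1], [1, 2]), (0, [0], [1, 3]), (0, [2], [0, 3]), (4, [], [2])]),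
  (-2, 0, 3, [(0, [1], [1, 2]), (0, [2], [1, 3]), (0, [0], [0, 3]), (4, [], [2])]),
  (-2, 0, 3, [(0, [2], [1, 2]), (0, [0], [1, 3]), (0, [1], [0, 3]), (4, [], [2])]),
  (-4, 0, 3, [(0, [2], [1, 2]), (0, [1], [1, 3]), (0, [0], [0, 3]), (4, [], [2])])]

def z11_0 : Cov := []

def w11_0 : List (List Wit) := [[(0, 0, 0, 528, 528)],
  [(1, 0, 0, 528, 528)],
  [(2, 0, 0, 528, 528)],
  [(3, 0, 0, 528, 528)],
  [(4, 0, 0, 528, 528)],
  [(5, 0, 0, 528, 528)]]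

def m11_1 : Base := (0, 3, [(0, [0], [1, 2]), (0, [1], [1, 3]), (0, [2], [0, 2]), (4, [], [3])])

def l11_1 : Cov := [(4, 0, 3, [(0, [0], [1, 2]), (0, [1], [1, 3]), (0, [2], [0, 2]), (4, [], [3])]),
  (2, 0, 3, [(0, [0], [1, 2]), (0, [2], [1, 3]), (0, [1], [0, 2]), (4, [], [3])]),
  (2, 0, 3, [(0, [1], [1, 2]), (0, [0], [1, 3]), (0, [2], [0, 2]), (4, [], [3])]),
  (-2, 0, 3, [(0, [1], [1, 2]), (0, [2], [1, 3]), (0, [0], [0, 2]), (4, [], [3])]),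
  (-2, 0, 3, [(0, [2], [1, 2]), (0, [0], [1, 3]), (0, [1], [0, 2]), (4, [], [3])]),
  (-4, 0, 3, [(0, [2], [1, 2]), (0, [1], [1, 3]), (0, [0], [0, 2]), (4, [], [3])])]

def z11_1 : Cov := []

def w11_1 : List (List Wit) := [[(0, 0, 0, 528, 528)],
  [(1, 0, 0, 528, 528)],
  [(2, 0, 0, 528, 528)],
  [(3, 0, 0, 528, 528)],
  [(4, 0, 0, 528, 528)],
  [(5, 0, 0, 528, 528)]]

def m11_2 : Base := (0, 3, [(0, [0], [1, 2]), (0, [1], [1, 2]), (0, [2], [0, 3]), (4, [], [3])])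

def l11_2 : Cov := [(6, 0, 3, [(0, [0], [1, 2]), (0, [1], [1, 2]), (0, [2], [0, 3]), (4, [], [3])]),
  (-6, 0, 3, [(0, [1], [1, 2]), (0, [2], [1, 2]), (0, [0], [0, 3]), (4, [], [3])])]

def z11_2 : Cov := [(0, 0, 3, [(0, [0], [1, 2]), (0, [2], [1, 2]), (0, [1], [0, 3]), (4, [], [3])])]

def w11_2 : List (List Wit) := [[(0, 0, 0, 528, 528)],
  [(2, 0, 0, 528, 528)],
  [(0, 0, 0, 528, 528)],
  [(1, 0, 0, 528, 528)],
  [(2, 0, 0, 528, 528)],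
  [(1, 0, 0, 528, 528)]]

theorem tr11 : trK keys lk11 kl11 = true := by
  decide +kernel

theorem x11_0 : expB 3 1 dg2 dg0 m11_0 (l11_0 ++ z11_0) w11_0 = true := by
  decide +kernel

theorem x11_1 : expB 3 1 dg2 dg0 m11_1 (l11_1 ++ z11_1) w11_1 = true := by
  decide +kernel

theorem x11_2 : expB 3 1 dg2 dg0 m11_2 (l11_2 ++ z11_2) w11_2 = true := by
  decide +kernel

theorem t11_0_0 : chkS lk11 3 1 [(1, m11_0)] l11_0
  [(3, 18, 18, 40178736, 88217136), (8, 528, 528, 87179526, 6509601), (4, 18, 18, 38147376, 69539376), (9, 258, 33, 68171046, 2502996), (9, 528, 528, 55722246, 5465121), (7, 528, 528, 56967426, 88301601)]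
  [(3, 4), (4, 2), (7, -4), (8, 2), (9, -4)] = true := by
  decide +kernel

theorem t11_0_1 : chkS lk11 3 1 [(1, m11_0)] l11_1
  [(4, 18, 18, 69604656, 69604656), (9, 528, 528, 87179526, 6509601), (3, 18, 18, 103093296, 104994096), (7, 528, 528, 104153346, 105074721), (8, 528, 528, 55722246, 5465121), (9, 258, 33, 20985126, 2437476)]
  [(3, 2), (4, 4), (7, -2), (8, -2), (9, -2)] = true := by
  decide +kernel

theorem t11_0_2 : chkS lk11 3 1 [(1, m11_0)] l11_2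
  [(1, 513, 513, 105058821, 101007921), (6, 258, 33, 101725221, 100806996)]
  [(1, 6), (6, -6)] = true := by
  decide +kernel

theorem t11_1_1 : chkS lk11 3 1 [(1, m11_1)] l11_1
  [(3, 33, 258, 103104816, 105059616), (7, 513, 513, 104141826, 105009201), (4, 33, 258, 69620016, 70653216), (9, 513, 513, 87168006, 6444081), (9, 288, 288, 20992806, 3481956), (8, 513, 513, 55710726, 5399601)]
  [(3, 4), (4, 2), (7, 2), (8, -4), (9, -4)] = true := by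
  decide +kernel

theorem t11_1_2 : chkS lk11 3 1 [(1, m11_1)] l11_2
  [(1, 528, 528, 105062661, 101008161), (0, 288, 288, 56967186, 88301586)]
  [(0, -6), (1, 6)] = true := by
  decide +kernel

theorem t11_2_2 : chkS lk11 3 1 [(1, m11_2)] l11_2
  [(5, 33, 258, 40178736, 88217136), (2, 528, 528, 55861506, 55861281)]
  [(2, -6), (5, 6)] = true := by
  decide +kernel

section

variable {κ ι : Type*} [Fintype κ] [Fintype ι] [Inhabited κ] [Inhabited ι]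

noncomputable def F11_0 (E : Env κ ι) : (Fin 3 → κ) → (Fin 1 → ι) → ℝ := op2 (P2 κ) (P0 ι) (fB E 3 1 m11_0)

noncomputable def F11_1 (E : Env κ ι) : (Fin 3 → κ) → (Fin 1 → ι) → ℝ := op2 (P2 κ) (P0 ι) (fB E 3 1 m11_1)

noncomputable def F11_2 (E : Env κ ι) : (Fin 3 → κ) → (Fin 1 → ι) → ℝ := op2 (P2 κ) (P0 ι) (fB E 3 1 m11_2)

def r11_0_0 : List (ℕ × ℤ) := [(3, 4), (4, 2), (7, -4), (8, 2), (9, -4)]

theorem h11_0_0 (E : Env κ ι) : ip (F11_0 E) (F11_0 E) = dotS (ek E lk11) r11_0_0 :=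
  op_entryZ E lk11 3 1 _ _ _ _ (pg2 κ) (pg0 ι) m11_0 m11_0 l11_0 z11_0 w11_0 x11_0 (by decide) _ (chkS_sound E lk11 3 1 _ _ _ _ t11_0_0)

def r11_0_1 : List (ℕ × ℤ) := [(3, 2), (4, 4), (7, -2), (8, -2), (9, -2)]

theorem h11_0_1 (E : Env κ ι) : ip (F11_0 E) (F11_1 E) = dotS (ek E lk11) r11_0_1 :=
  op_entryZ E lk11 3 1 _ _ _ _ (pg2 κ) (pg0 ι) m11_0 m11_1 l11_1 z11_1 w11_1 x11_1 (by decide) _ (chkS_sound E lk11 3 1 _ _ _ _ t11_0_1)

def r11_0_2 : List (ℕ × ℤ) := [(1, 6), (6, -6)]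

theorem h11_0_2 (E : Env κ ι) : ip (F11_0 E) (F11_2 E) = dotS (ek E lk11) r11_0_2 :=
  op_entryZ E lk11 3 1 _ _ _ _ (pg2 κ) (pg0 ι) m11_0 m11_2 l11_2 z11_2 w11_2 x11_2 (by decide) _ (chkS_sound E lk11 3 1 _ _ _ _ t11_0_2)

def r11_1_1 : List (ℕ × ℤ) := [(3, 4), (4, 2), (7, 2), (8, -4), (9, -4)]

theorem h11_1_1 (E : Env κ ι) : ip (F11_1 E) (F11_1 E) = dotS (ek E lk11) r11_1_1 :=
  op_entryZ E lk11 3 1 _ _ _ _ (pg2 κ) (pg0 ι) m11_1 m11_1 l11_1 z11_1 w11_1 x11_1 (by decide) _ (chkS_sound E lk11 3 1 _ _ _ _ t11_1_1)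

def r11_1_2 : List (ℕ × ℤ) := [(0, -6), (1, 6)]

theorem h11_1_2 (E : Env κ ι) : ip (F11_1 E) (F11_2 E) = dotS (ek E lk11) r11_1_2 :=
  op_entryZ E lk11 3 1 _ _ _ _ (pg2 κ) (pg0 ι) m11_1 m11_2 l11_2 z11_2 w11_2 x11_2 (by decide) _ (chkS_sound E lk11 3 1 _ _ _ _ t11_1_2)

def r11_2_2 : List (ℕ × ℤ) := [(2, -6), (5, 6)]

theorem h11_2_2 (E : Env κ ι) : ip (F11_2 E) (F11_2 E) = dotS (ek E lk11) r11_2_2 :=
  op_entryZ E lk11 3 1 _ _ _ _ (pg2 κ) (pg0 ι) m11_2 m11_2 l11_2 z11_2 w11_2 x11_2 (by decide) _ (chkS_sound E lk11 3 1 _ _ _ _ t11_2_2)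

theorem row11_0 (E : Env κ ι) : RowG (ek E lk11) (F11_0 E) [F11_0 E, F11_1 E, F11_2 E] [r11_0_0, r11_0_1, r11_0_2] :=
  rowG_cons _ _ _ _ _ _ (h11_0_0 E) (rowG_cons _ _ _ _ _ _ (h11_0_1 E) (rowG_cons _ _ _ _ _ _ (h11_0_2 E) (rowG_nil _ _)))

theorem row11_1 (E : Env κ ι) : RowG (ek E lk11) (F11_1 E) [F11_1 E, F11_2 E] [r11_1_1, r11_1_2] :=
  rowG_cons _ _ _ _ _ _ (h11_1_1 E) (rowG_cons _ _ _ _ _ _ (h11_1_2 E) (rowG_nil _ _))

theorem row11_2 (E : Env κ ι) : RowG (ek E lk11) (F11_2 E) [F11_2 E] [r11_2_2] :=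
  rowG_cons _ _ _ _ _ _ (h11_2_2 E) (rowG_nil _ _)

def tab11 : List (List (List (ℕ × ℤ))) := [[r11_0_0, r11_0_1, r11_0_2], [r11_1_1, r11_1_2], [r11_2_2]]

theorem tri11 (E : Env κ ι) : TriG (ek E lk11) [F11_0 E, F11_1 E, F11_2 E] tab11 := by
  refine triG_cons _ _ _ _ _ (row11_0 E) ?_
  refine triG_cons _ _ _ _ _ (row11_1 E) ?_
  refine triG_cons _ _ _ _ _ (row11_2 E) ?_
  exact triG_nil _

end

def lk12 : List Key := [
  (3, 7, [(0, [0], [0, 1]), (0, [0], [2, 0]), (0, [1], [3, 1]), (4, [], [4]), (0, [2], [5, 6]), (0, [2], [3, 4]), (0, [1], [2, 5]), (4, [], [6])]),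
  (3, 7, [(0, [0], [0, 1]), (0, [0], [2, 0]), (0, [1], [3, 1]), (4, [], [4]), (0, [2], [3, 5]), (0, [2], [2, 6]), (0, [1], [4, 6]), (4, [], [5])]),
  (3, 7, [(0, [0], [0, 1]), (0, [0], [2, 3]), (0, [1], [4, 0]), (4, [], [1]), (0, [2], [5, 6]), (0, [2], [2, 4]), (0, [1], [3, 5]), (4, [], [6])]),
  (3, 7, [(0, [0], [0, 1]), (0, [0], [2, 3]), (0, [1], [4, 0]), (4, [], [1]), (0, [2], [2, 5]), (0, [2], [4, 6]), (0, [1], [5, 6]), (4, [], [3])]),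
  (3, 7, [(0, [0], [0, 1]), (0, [0], [2, 3]), (0, [1], [4, 0]), (4, [], [1]), (0, [2], [2, 5]), (0, [2], [4, 6]), (0, [1], [3, 6]), (4, [], [5])])]

def kl12 : List ℕ := [221, 223, 284, 286, 287]

def m12_0 : Base := (0, 3, [(0, [0], [1, 2]), (0, [1], [1, 3]), (0, [2], [0, 3]), (4, [], [2])])

def l12_0 : Cov := [(6, 0, 3, [(0, [0], [1, 2]), (0, [1], [1, 3]), (0, [2], [0, 3]), (4, [], [2])]),
  (-6, 0, 3, [(0, [0], [1, 2]), (0, [2], [1, 3]), (0, [1], [0, 3]), (4, [], [2])]),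
  (-6, 0, 3, [(0, [1], [1, 2]), (0, [0], [1, 3]), (0, [2], [0, 3]), (4, [], [2])]),
  (6, 0, 3, [(0, [1], [1, 2]), (0, [2], [1, 3]), (0, [0], [0, 3]), (4, [], [2])]),
  (6, 0, 3, [(0, [2], [1, 2]), (0, [0], [1, 3]), (0, [1], [0, 3]), (4, [], [2])]),
  (-6, 0, 3, [(0, [2], [1, 2]), (0, [1], [1, 3]), (0, [0], [0, 3]), (4, [], [2])])]

def z12_0 : Cov := []

def w12_0 : List (List Wit) := [[(0, 0, 0, 528, 528)],
  [(1, 0, 0, 528, 528)],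
  [(2, 0, 0, 528, 528)],
  [(3, 0, 0, 528, 528)],
  [(4, 0, 0, 528, 528)],
  [(5, 0, 0, 528, 528)]]

theorem tr12 : trK keys lk12 kl12 = true := by
  decide +kernel

theorem x12_0 : expB 3 1 dg3 dg0 m12_0 (l12_0 ++ z12_0) w12_0 = true := by
  decide +kernel

theorem t12_0_0 : chkS lk12 3 1 [(1, m12_0)] l12_0
  [(0, 18, 18, 40178736, 88217136), (3, 528, 528, 87179526, 6509601), (1, 18, 18, 38147376, 69539376), (4, 258, 33, 68171046, 2502996), (4, 528, 528, 55722246, 5465121), (2, 528, 528, 56967426, 88301601)]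
  [(0, 6), (1, -6), (2, -6), (3, -6), (4, 12)] = true := by
  decide +kernel

section

variable {κ ι : Type*} [Fintype κ] [Fintype ι] [Inhabited κ] [Inhabited ι]

noncomputable def F12_0 (E : Env κ ι) : (Fin 3 → κ) → (Fin 1 → ι) → ℝ := op2 (P3 κ) (P0 ι) (fB E 3 1 m12_0)

def r12_0_0 : List (ℕ × ℤ) := [(0, 6), (1, -6), (2, -6), (3, -6), (4, 12)]

theorem h12_0_0 (E : Env κ ι) : ip (F12_0 E) (F12_0 E) = dotS (ek E lk12) r12_0_0 :=
  op_entryZ E lk12 3 1 _ _ _ _ (pg3 κ) (pg0 ι) m12_0 m12_0 l12_0 z12_0 w12_0 x12_0 (by decide) _ (chkS_sound E lk12 3 1 _ _ _ _ t12_0_0)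

theorem row12_0 (E : Env κ ι) : RowG (ek E lk12) (F12_0 E) [F12_0 E] [r12_0_0] :=
  rowG_cons _ _ _ _ _ _ (h12_0_0 E) (rowG_nil _ _)

def tab12 : List (List (List (ℕ × ℤ))) := [[r12_0_0]]

theorem tri12 (E : Env κ ι) : TriG (ek E lk12) [F12_0 E] tab12 := by
  refine triG_cons _ _ _ _ _ (row12_0 E) ?_
  exact triG_nil _

end

def lk13 : List Key := [
  (3, 7, [(0, [0], [0, 1]), (0, [0], [0, 1]), (0, [1], [2, 3]), (0, [2], [2, 4]), (0, [2], [5, 6]), (0, [1], [5, 6]), (4, [], [4]), (4, [], [3])]),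
  (3, 7, [(0, [0], [0, 1]), (0, [1], [0, 2]), (0, [0], [2, 3]), (0, [2], [1, 4]), (0, [1], [5, 6]), (0, [2], [5, 6]), (4, [], [3]), (4, [], [4])]),
  (3, 7, [(0, [0], [0, 1]), (0, [1], [0, 2]), (0, [0], [3, 4]), (0, [1], [3, 4]), (0, [2], [1, 5]), (0, [2], [5, 6]), (4, [], [2]), (4, [], [6])]),
  (3, 7, [(0, [0], [0, 1]), (0, [0], [0, 2]), (0, [1], [1, 2]), (4, [], [3]), (0, [2], [4, 5]), (0, [2], [4, 6]), (0, [1], [3, 6]), (4, [], [5])]),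
  (3, 7, [(0, [0], [0, 1]), (0, [0], [0, 2]), (0, [1], [1, 2]), (4, [], [3]), (0, [2], [4, 5]), (0, [2], [3, 6]), (0, [1], [4, 6]), (4, [], [5])]),
  (3, 7, [(0, [0], [0, 1]), (0, [0], [0, 2]), (0, [1], [1, 2]), (4, [], [3]), (0, [2], [4, 5]), (0, [2], [3, 6]), (0, [1], [4, 5]), (4, [], [6])]),
  (3, 7, [(0, [0], [0, 1]), (0, [0], [0, 2]), (0, [1], [3, 2]), (4, [], [1]), (0, [2], [4, 5]), (0, [2], [4, 6]), (0, [1], [3, 6]), (4, [], [5])]),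
  (3, 7, [(0, [0], [0, 1]), (0, [0], [0, 2]), (0, [1], [3, 2]), (4, [], [1]), (0, [2], [4, 5]), (0, [2], [3, 6]), (0, [1], [4, 6]), (4, [], [5])]),
  (3, 7, [(0, [0], [0, 1]), (0, [0], [0, 2]), (0, [1], [3, 2]), (4, [], [1]), (0, [2], [4, 5]), (0, [2], [3, 4]), (0, [1], [5, 6]), (4, [], [6])]),
  (3, 7, [(0, [0], [0, 1]), (0, [0], [0, 1]), (0, [1], [2, 3]), (4, [], [3]), (0, [2], [4, 5]), (0, [2], [2, 6]), (0, [1], [4, 6]), (4, [], [5])]),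
  (3, 7, [(0, [0], [0, 1]), (0, [0], [0, 1]), (0, [1], [2, 3]), (4, [], [3]), (0, [2], [4, 5]), (0, [2], [2, 4]), (0, [1], [5, 6]), (4, [], [6])]),
  (3, 7, [(0, [0], [0, 1]), (0, [0], [2, 3]), (0, [1], [0, 3]), (4, [], [1]), (0, [2], [4, 5]), (0, [2], [2, 6]), (0, [1], [4, 6]), (4, [], [5])]),
  (3, 7, [(0, [0], [0, 1]), (0, [0], [2, 3]), (0, [1], [0, 3]), (4, [], [1]), (0, [2], [4, 5]), (0, [2], [2, 4]), (0, [1], [5, 6]), (4, [], [6])]),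
  (3, 7, [(0, [0], [0, 1]), (0, [0], [2, 3]), (0, [1], [0, 1]), (4, [], [3]), (0, [2], [4, 5]), (0, [2], [2, 6]), (0, [1], [4, 5]), (4, [], [6])]),
  (3, 7, [(0, [0], [0, 1]), (0, [0], [2, 3]), (0, [1], [0, 1]), (4, [], [3]), (0, [2], [4, 5]), (0, [2], [2, 4]), (0, [1], [5, 6]), (4, [], [6])]),
  (3, 7, [(0, [0], [0, 1]), (0, [0], [2, 0]), (0, [1], [1, 3]), (4, [], [3]), (0, [2], [4, 5]), (0, [2], [2, 4]), (0, [1], [5, 6]), (4, [], [6])]),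
  (3, 7, [(0, [0], [0, 1]), (0, [0], [0, 1]), (0, [1], [2, 3]), (4, [], [4]), (0, [2], [5, 6]), (0, [2], [2, 3]), (0, [1], [5, 6]), (4, [], [4])]),
  (3, 7, [(0, [0], [0, 1]), (0, [0], [2, 0]), (0, [1], [3, 1]), (4, [], [4]), (0, [2], [5, 6]), (0, [2], [3, 5]), (0, [1], [2, 6]), (4, [], [4])]),
  (3, 7, [(0, [0], [0, 1]), (0, [0], [2, 0]), (0, [1], [3, 1]), (4, [], [4]), (0, [2], [5, 6]), (0, [2], [4, 5]), (0, [1], [2, 3]), (4, [], [6])]),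
  (3, 7, [(0, [0], [0, 1]), (0, [0], [2, 0]), (0, [1], [3, 1]), (4, [], [4]), (0, [2], [5, 6]), (0, [2], [2, 3]), (0, [1], [5, 6]), (4, [], [4])]),
  (3, 7, [(0, [0], [0, 1]), (0, [0], [2, 0]), (0, [1], [3, 1]), (4, [], [4]), (0, [2], [5, 6]), (0, [2], [2, 3]), (0, [1], [4, 5]), (4, [], [6])]),
  (3, 7, [(0, [0], [0, 1]), (0, [0], [2, 0]), (0, [1], [3, 1]), (4, [], [4]), (0, [2], [5, 6]), (0, [2], [3, 4]), (0, [1], [2, 5]), (4, [], [6])]),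
  (3, 7, [(0, [0], [0, 1]), (0, [0], [2, 0]), (0, [1], [3, 1]), (4, [], [4]), (0, [2], [2, 5]), (0, [2], [3, 6]), (0, [1], [5, 6]), (4, [], [4])]),
  (3, 7, [(0, [0], [0, 1]), (0, [0], [2, 0]), (0, [1], [3, 1]), (4, [], [4]), (0, [2], [3, 5]), (0, [2], [2, 6]), (0, [1], [4, 6]), (4, [], [5])]),
  (3, 7, [(0, [0], [0, 1]), (0, [0], [2, 0]), (0, [1], [3, 1]), (4, [], [4]), (0, [2], [4, 5]), (0, [2], [2, 6]), (0, [1], [3, 6]), (4, [], [5])]),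
  (3, 7, [(0, [0], [0, 1]), (0, [0], [2, 0]), (0, [1], [3, 1]), (4, [], [4]), (0, [2], [4, 5]), (0, [2], [3, 6]), (0, [1], [2, 6]), (4, [], [5])]),
  (3, 7, [(0, [0], [0, 1]), (0, [0], [2, 0]), (0, [1], [3, 4]), (4, [], [1]), (0, [2], [5, 6]), (0, [2], [3, 4]), (0, [1], [5, 6]), (4, [], [2])]),
  (3, 7, [(0, [0], [0, 1]), (0, [0], [2, 0]), (0, [1], [3, 4]), (4, [], [1]), (0, [2], [3, 5]), (0, [2], [4, 6]), (0, [1], [5, 6]), (4, [], [2])]),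
  (3, 7, [(0, [0], [0, 1]), (0, [0], [2, 3]), (0, [1], [0, 1]), (4, [], [4]), (0, [2], [5, 6]), (0, [2], [2, 3]), (0, [1], [5, 6]), (4, [], [4])]),
  (3, 7, [(0, [0], [0, 1]), (0, [0], [2, 3]), (0, [1], [0, 1]), (4, [], [4]), (0, [2], [5, 6]), (0, [2], [2, 4]), (0, [1], [3, 5]), (4, [], [6])]),
  (3, 7, [(0, [0], [0, 1]), (0, [0], [2, 3]), (0, [1], [0, 1]), (4, [], [4]), (0, [2], [2, 5]), (0, [2], [3, 6]), (0, [1], [5, 6]), (4, [], [4])]),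
  (3, 7, [(0, [0], [0, 1]), (0, [0], [2, 3]), (0, [1], [0, 1]), (4, [], [4]), (0, [2], [4, 5]), (0, [2], [2, 6]), (0, [1], [3, 6]), (4, [], [5])]),
  (3, 7, [(0, [0], [0, 1]), (0, [0], [2, 3]), (0, [1], [4, 0]), (4, [], [1]), (0, [2], [5, 6]), (0, [2], [2, 4]), (0, [1], [3, 5]), (4, [], [6])]),
  (3, 7, [(0, [0], [0, 1]), (0, [0], [2, 3]), (0, [1], [4, 0]), (4, [], [1]), (0, [2], [2, 5]), (0, [2], [3, 6]), (0, [1], [5, 6]), (4, [], [4])]),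
  (3, 7, [(0, [0], [0, 1]), (0, [0], [2, 3]), (0, [1], [4, 0]), (4, [], [1]), (0, [2], [2, 5]), (0, [2], [4, 6]), (0, [1], [5, 6]), (4, [], [3])]),
  (3, 7, [(0, [0], [0, 1]), (0, [0], [2, 3]), (0, [1], [4, 0]), (4, [], [1]), (0, [2], [2, 5]), (0, [2], [4, 6]), (0, [1], [3, 6]), (4, [], [5])]),
  (3, 7, [(0, [0], [0, 1]), (0, [0], [2, 3]), (0, [1], [4, 0]), (4, [], [1]), (0, [2], [4, 5]), (0, [2], [2, 6]), (0, [1], [3, 6]), (4, [], [5])]),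
  (3, 7, [(0, [0], [0, 1]), (0, [0], [2, 3]), (0, [1], [1, 3]), (4, [], [4]), (0, [2], [0, 5]), (0, [2], [2, 6]), (0, [1], [5, 6]), (4, [], [4])]),
  (3, 7, [(0, [0], [0, 1]), (0, [0], [2, 3]), (0, [1], [1, 3]), (4, [], [4]), (0, [2], [4, 5]), (0, [2], [0, 6]), (0, [1], [2, 6]), (4, [], [5])]),
  (3, 7, [(0, [0], [0, 1]), (0, [0], [2, 3]), (0, [1], [4, 1]), (4, [], [5]), (0, [2], [0, 6]), (0, [2], [2, 4]), (0, [1], [3, 6]), (4, [], [5])])]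

def kl13 : List ℕ := [14, 57, 58, 95, 97, 98, 109, 111, 112, 119, 120, 125, 126, 132, 133, 144, 205, 217, 218, 219, 220, 221, 222, 223, 224, 225, 252, 253, 266, 267, 268, 269, 284, 285, 286, 287, 288, 302, 303, 429]

def m13_0 : Base := (0, 2, [(0, [0], [3, 4]), (0, [1], [3, 4]), (0, [2], [0, 1]), (4, [], [2])])

def l13_0 : Cov := [(144, 0, 2, [(0, [0], [3, 4]), (0, [1], [3, 4]), (0, [2], [0, 1]), (4, [], [2])]),
  (144, 0, 2, [(0, [0], [3, 4]), (0, [1], [3, 4]), (0, [2], [0, 2]), (4, [], [1])]),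
  (144, 0, 2, [(0, [0], [3, 4]), (0, [1], [3, 4]), (0, [2], [1, 2]), (4, [], [0])]),
  (144, 0, 2, [(0, [0], [3, 4]), (0, [2], [3, 4]), (0, [1], [0, 1]), (4, [], [2])]),
  (144, 0, 2, [(0, [0], [3, 4]), (0, [2], [3, 4]), (0, [1], [0, 2]), (4, [], [1])]),
  (144, 0, 2, [(0, [0], [3, 4]), (0, [2], [3, 4]), (0, [1], [1, 2]), (4, [], [0])]),
  (144, 0, 2, [(0, [1], [3, 4]), (0, [2], [3, 4]), (0, [0], [0, 1]), (4, [], [2])]),
  (144, 0, 2, [(0, [1], [3, 4]), (0, [2], [3, 4]), (0, [0], [0, 2]), (4, [], [1])]),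
  (144, 0, 2, [(0, [1], [3, 4]), (0, [2], [3, 4]), (0, [0], [1, 2]), (4, [], [0])])]

def z13_0 : Cov := []

def w13_0 : List (List Wit) := [[(0, 0, 0, 16, 16), (1, 0, 0, 16, 16), (0, 0, 0, 16, 16), (2, 0, 0, 16, 16), (1, 0, 0, 16, 16), (2, 0, 0, 16, 16)],
  [(3, 0, 0, 16, 16), (4, 0, 0, 16, 16), (3, 0, 0, 16, 16), (5, 0, 0, 16, 16), (4, 0, 0, 16, 16), (5, 0, 0, 16, 16)],
  [(0, 0, 0, 16, 16), (1, 0, 0, 16, 16), (0, 0, 0, 16, 16), (2, 0, 0, 16, 16), (1, 0, 0, 16, 16), (2, 0, 0, 16, 16)],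
  [(6, 0, 0, 16, 16), (7, 0, 0, 16, 16), (6, 0, 0, 16, 16), (8, 0, 0, 16, 16), (7, 0, 0, 16, 16), (8, 0, 0, 16, 16)],
  [(3, 0, 0, 16, 16), (4, 0, 0, 16, 16), (3, 0, 0, 16, 16), (5, 0, 0, 16, 16), (4, 0, 0, 16, 16), (5, 0, 0, 16, 16)],
  [(6, 0, 0, 16, 16), (7, 0, 0, 16, 16), (6, 0, 0, 16, 16), (8, 0, 0, 16, 16), (7, 0, 0, 16, 16), (8, 0, 0, 16, 16)]]

def m13_1 : Base := (0, 2, [(0, [0], [3, 4]), (0, [1], [0, 3]), (0, [2], [1, 4]), (4, [], [2])])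

def l13_1 : Cov := [(72, 0, 2, [(0, [0], [3, 4]), (0, [1], [0, 3]), (0, [2], [1, 4]), (4, [], [2])]),
  (72, 0, 2, [(0, [0], [3, 4]), (0, [1], [0, 3]), (0, [2], [2, 4]), (4, [], [1])]),
  (72, 0, 2, [(0, [0], [3, 4]), (0, [1], [1, 3]), (0, [2], [0, 4]), (4, [], [2])]),
  (72, 0, 2, [(0, [0], [3, 4]), (0, [1], [1, 3]), (0, [2], [2, 4]), (4, [], [0])]),
  (72, 0, 2, [(0, [0], [3, 4]), (0, [1], [2, 3]), (0, [2], [0, 4]), (4, [], [1])]),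
  (72, 0, 2, [(0, [0], [3, 4]), (0, [1], [2, 3]), (0, [2], [1, 4]), (4, [], [0])]),
  (72, 0, 2, [(0, [1], [3, 4]), (0, [0], [0, 3]), (0, [2], [1, 4]), (4, [], [2])]),
  (72, 0, 2, [(0, [1], [3, 4]), (0, [0], [0, 3]), (0, [2], [2, 4]), (4, [], [1])]),
  (72, 0, 2, [(0, [1], [3, 4]), (0, [0], [1, 3]), (0, [2], [0, 4]), (4, [], [2])]),
  (72, 0, 2, [(0, [1], [3, 4]), (0, [0], [1, 3]), (0, [2], [2, 4]), (4, [], [0])]),
  (72, 0, 2, [(0, [1], [3, 4]), (0, [0], [2, 3]), (0, [2], [0, 4]), (4, [], [1])]),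
  (72, 0, 2, [(0, [1], [3, 4]), (0, [0], [2, 3]), (0, [2], [1, 4]), (4, [], [0])]),
  (72, 0, 2, [(0, [2], [3, 4]), (0, [0], [0, 3]), (0, [1], [1, 4]), (4, [], [2])]),
  (72, 0, 2, [(0, [2], [3, 4]), (0, [0], [0, 3]), (0, [1], [2, 4]), (4, [], [1])]),
  (72, 0, 2, [(0, [2], [3, 4]), (0, [0], [1, 3]), (0, [1], [0, 4]), (4, [], [2])]),
  (72, 0, 2, [(0, [2], [3, 4]), (0, [0], [1, 3]), (0, [1], [2, 4]), (4, [], [0])]),
  (72, 0, 2, [(0, [2], [3, 4]), (0, [0], [2, 3]), (0, [1], [0, 4]), (4, [], [1])]),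
  (72, 0, 2, [(0, [2], [3, 4]), (0, [0], [2, 3]), (0, [1], [1, 4]), (4, [], [0])])]

def z13_1 : Cov := []

def w13_1 : List (List Wit) := [[(0, 0, 0, 16, 16), (1, 0, 0, 16, 16), (2, 0, 0, 16, 16), (3, 0, 0, 16, 16), (4, 0, 0, 16, 16), (5, 0, 0, 16, 16)],
  [(2, 0, 0, 1, 1), (4, 0, 0, 1, 1), (0, 0, 0, 1, 1), (5, 0, 0, 1, 1), (1, 0, 0, 1, 1), (3, 0, 0, 1, 1)],
  [(6, 0, 0, 16, 16), (7, 0, 0, 16, 16), (8, 0, 0, 16, 16), (9, 0, 0, 16, 16), (10, 0, 0, 16, 16), (11, 0, 0, 16, 16)],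
  [(8, 0, 0, 1, 1), (10, 0, 0, 1, 1), (6, 0, 0, 1, 1), (11, 0, 0, 1, 1), (7, 0, 0, 1, 1), (9, 0, 0, 1, 1)],
  [(12, 0, 0, 16, 16), (13, 0, 0, 16, 16), (14, 0, 0, 16, 16), (15, 0, 0, 16, 16), (16, 0, 0, 16, 16), (17, 0, 0, 16, 16)],
  [(14, 0, 0, 1, 1), (16, 0, 0, 1, 1), (12, 0, 0, 1, 1), (17, 0, 0, 1, 1), (13, 0, 0, 1, 1), (15, 0, 0, 1, 1)]]

def m13_2 : Base := (0, 2, [(0, [0], [3, 4]), (0, [1], [0, 3]), (0, [2], [1, 2]), (4, [], [4])])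

def l13_2 : Cov := [(72, 0, 2, [(0, [0], [3, 4]), (0, [1], [0, 3]), (0, [2], [1, 2]), (4, [], [4])]),
  (72, 0, 2, [(0, [0], [3, 4]), (0, [1], [1, 3]), (0, [2], [0, 2]), (4, [], [4])]),
  (72, 0, 2, [(0, [0], [3, 4]), (0, [1], [2, 3]), (0, [2], [0, 1]), (4, [], [4])]),
  (72, 0, 2, [(0, [0], [3, 4]), (0, [2], [0, 3]), (0, [1], [1, 2]), (4, [], [4])]),
  (72, 0, 2, [(0, [0], [3, 4]), (0, [2], [1, 3]), (0, [1], [0, 2]), (4, [], [4])]),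
  (72, 0, 2, [(0, [0], [3, 4]), (0, [2], [2, 3]), (0, [1], [0, 1]), (4, [], [4])]),
  (72, 0, 2, [(0, [1], [3, 4]), (0, [0], [0, 3]), (0, [2], [1, 2]), (4, [], [4])]),
  (72, 0, 2, [(0, [1], [3, 4]), (0, [0], [1, 3]), (0, [2], [0, 2]), (4, [], [4])]),
  (72, 0, 2, [(0, [1], [3, 4]), (0, [0], [2, 3]), (0, [2], [0, 1]), (4, [], [4])]),
  (72, 0, 2, [(0, [1], [3, 4]), (0, [2], [0, 3]), (0, [0], [1, 2]), (4, [], [4])]),
  (72, 0, 2, [(0, [1], [3, 4]), (0, [2], [1, 3]), (0, [0], [0, 2]), (4, [], [4])]),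
  (72, 0, 2, [(0, [1], [3, 4]), (0, [2], [2, 3]), (0, [0], [0, 1]), (4, [], [4])]),
  (72, 0, 2, [(0, [2], [3, 4]), (0, [0], [0, 3]), (0, [1], [1, 2]), (4, [], [4])]),
  (72, 0, 2, [(0, [2], [3, 4]), (0, [0], [1, 3]), (0, [1], [0, 2]), (4, [], [4])]),
  (72, 0, 2, [(0, [2], [3, 4]), (0, [0], [2, 3]), (0, [1], [0, 1]), (4, [], [4])]),
  (72, 0, 2, [(0, [2], [3, 4]), (0, [1], [0, 3]), (0, [0], [1, 2]), (4, [], [4])]),
  (72, 0, 2, [(0, [2], [3, 4]), (0, [1], [1, 3]), (0, [0], [0, 2]), (4, [], [4])]),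
  (72, 0, 2, [(0, [2], [3, 4]), (0, [1], [2, 3]), (0, [0], [0, 1]), (4, [], [4])])]

def z13_2 : Cov := []

def w13_2 : List (List Wit) := [[(0, 0, 0, 16, 16), (0, 0, 0, 16, 16), (1, 0, 0, 16, 16), (1, 0, 0, 16, 16), (2, 0, 0, 16, 16), (2, 0, 0, 16, 16)],
  [(3, 0, 0, 16, 16), (3, 0, 0, 16, 16), (4, 0, 0, 16, 16), (4, 0, 0, 16, 16), (5, 0, 0, 16, 16), (5, 0, 0, 16, 16)],
  [(6, 0, 0, 16, 16), (6, 0, 0, 16, 16), (7, 0, 0, 16, 16), (7, 0, 0, 16, 16), (8, 0, 0, 16, 16), (8, 0, 0, 16, 16)],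
  [(9, 0, 0, 16, 16), (9, 0, 0, 16, 16), (10, 0, 0, 16, 16), (10, 0, 0, 16, 16), (11, 0, 0, 16, 16), (11, 0, 0, 16, 16)],
  [(12, 0, 0, 16, 16), (12, 0, 0, 16, 16), (13, 0, 0, 16, 16), (13, 0, 0, 16, 16), (14, 0, 0, 16, 16), (14, 0, 0, 16, 16)],
  [(15, 0, 0, 16, 16), (15, 0, 0, 16, 16), (16, 0, 0, 16, 16), (16, 0, 0, 16, 16), (17, 0, 0, 16, 16), (17, 0, 0, 16, 16)]]

def m13_3 : Base := (0, 2, [(0, [0], [0, 3]), (0, [1], [1, 4]), (0, [2], [2, 4]), (4, [], [3])])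

def l13_3 : Cov := [(72, 0, 2, [(0, [0], [0, 3]), (0, [1], [1, 4]), (0, [2], [2, 4]), (4, [], [3])]),
  (72, 0, 2, [(0, [0], [0, 3]), (0, [1], [2, 4]), (0, [2], [1, 4]), (4, [], [3])]),
  (72, 0, 2, [(0, [0], [1, 3]), (0, [1], [0, 4]), (0, [2], [2, 4]), (4, [], [3])]),
  (72, 0, 2, [(0, [0], [1, 3]), (0, [1], [2, 4]), (0, [2], [0, 4]), (4, [], [3])]),
  (72, 0, 2, [(0, [0], [2, 3]), (0, [1], [0, 4]), (0, [2], [1, 4]), (4, [], [3])]),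
  (72, 0, 2, [(0, [0], [2, 3]), (0, [1], [1, 4]), (0, [2], [0, 4]), (4, [], [3])]),
  (72, 0, 2, [(0, [1], [0, 3]), (0, [0], [1, 4]), (0, [2], [2, 4]), (4, [], [3])]),
  (72, 0, 2, [(0, [1], [0, 3]), (0, [0], [2, 4]), (0, [2], [1, 4]), (4, [], [3])]),
  (72, 0, 2, [(0, [1], [1, 3]), (0, [0], [0, 4]), (0, [2], [2, 4]), (4, [], [3])]),
  (72, 0, 2, [(0, [1], [1, 3]), (0, [0], [2, 4]), (0, [2], [0, 4]), (4, [], [3])]),
  (72, 0, 2, [(0, [1], [2, 3]), (0, [0], [0, 4]), (0, [2], [1, 4]), (4, [], [3])]),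
  (72, 0, 2, [(0, [1], [2, 3]), (0, [0], [1, 4]), (0, [2], [0, 4]), (4, [], [3])]),
  (72, 0, 2, [(0, [2], [0, 3]), (0, [0], [1, 4]), (0, [1], [2, 4]), (4, [], [3])]),
  (72, 0, 2, [(0, [2], [0, 3]), (0, [0], [2, 4]), (0, [1], [1, 4]), (4, [], [3])]),
  (72, 0, 2, [(0, [2], [1, 3]), (0, [0], [0, 4]), (0, [1], [2, 4]), (4, [], [3])]),
  (72, 0, 2, [(0, [2], [1, 3]), (0, [0], [2, 4]), (0, [1], [0, 4]), (4, [], [3])]),
  (72, 0, 2, [(0, [2], [2, 3]), (0, [0], [0, 4]), (0, [1], [1, 4]), (4, [], [3])]),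
  (72, 0, 2, [(0, [2], [2, 3]), (0, [0], [1, 4]), (0, [1], [0, 4]), (4, [], [3])])]

def z13_3 : Cov := []

def w13_3 : List (List Wit) := [[(0, 0, 0, 16, 16), (1, 0, 0, 16, 16), (2, 0, 0, 16, 16), (3, 0, 0, 16, 16), (4, 0, 0, 16, 16), (5, 0, 0, 16, 16)],
  [(1, 0, 0, 16, 16), (0, 0, 0, 16, 16), (3, 0, 0, 16, 16), (2, 0, 0, 16, 16), (5, 0, 0, 16, 16), (4, 0, 0, 16, 16)],
  [(6, 0, 0, 16, 16), (7, 0, 0, 16, 16), (8, 0, 0, 16, 16), (9, 0, 0, 16, 16), (10, 0, 0, 16, 16), (11, 0, 0, 16, 16)],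
  [(7, 0, 0, 16, 16), (6, 0, 0, 16, 16), (9, 0, 0, 16, 16), (8, 0, 0, 16, 16), (11, 0, 0, 16, 16), (10, 0, 0, 16, 16)],
  [(12, 0, 0, 16, 16), (13, 0, 0, 16, 16), (14, 0, 0, 16, 16), (15, 0, 0, 16, 16), (16, 0, 0, 16, 16), (17, 0, 0, 16, 16)],
  [(13, 0, 0, 16, 16), (12, 0, 0, 16, 16), (15, 0, 0, 16, 16), (14, 0, 0, 16, 16), (17, 0, 0, 16, 16), (16, 0, 0, 16, 16)]]

theorem tr13 : trK keys lk13 kl13 = true := by
  decide +kernel

theorem x13_0 : expB 3 3 dg1 dg1 m13_0 (l13_0 ++ z13_0) w13_0 = true := by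
  decide +kernel

theorem x13_1 : expB 3 3 dg1 dg1 m13_1 (l13_1 ++ z13_1) w13_1 = true := by
  decide +kernel

theorem x13_2 : expB 3 3 dg1 dg1 m13_2 (l13_2 ++ z13_2) w13_2 = true := by
  decide +kernel

theorem x13_3 : expB 3 3 dg1 dg1 m13_3 (l13_3 ++ z13_3) w13_3 = true := by
  decide +kernel

theorem t13_0_0 : chkS lk13 3 3 [(1, m13_0)] l13_0
  [(16, 33, 258, 106112016, 106054416), (26, 33, 258, 106181136, 106181136), (26, 33, 258, 106181121, 106181121), (28, 528, 528, 52495461, 16934211), (13, 513, 513, 88146786, 23404611), (13, 513, 513, 88146726, 6627651), (28, 528, 528, 105972786, 106041411), (13, 528, 528, 88146786, 23404611), (13, 528, 528, 88146726, 6627651)]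
  [(13, 576), (16, 144), (26, 288), (28, 288)] = true := by
  decide +kernel

theorem t13_0_1 : chkS lk13 3 3 [(1, m13_0)] l13_1
  [(19, 18, 18, 37114881, 70407681), (29, 528, 528, 36766821, 16930371), (19, 18, 18, 37114896, 70407696), (29, 528, 528, 36766806, 1201731), (2, 528, 528, 17052261, 17052261), (2, 528, 528, 17052246, 1323621), (19, 33, 258, 37114881, 70407681), (29, 528, 528, 87098946, 39931971), (19, 33, 258, 37114896, 70407696), (29, 528, 528, 87098916, 39866691), (2, 513, 513, 17052261, 17052261), (2, 513, 513, 17052246, 1323621), (30, 528, 528, 103875666, 101863491), (1, 33, 258, 17191986, 70389861), (30, 528, 528, 103875621, 100815171), (1, 33, 258, 17191971, 70386021), (1, 18, 18, 1463346, 70389846), (1, 18, 18, 1463331, 70386006)]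
  [(1, 288), (2, 288), (19, 288), (29, 288), (30, 144)] = true := by
  decide +kernel

theorem t13_0_2 : chkS lk13 3 3 [(1, m13_0)] l13_2
  [(2, 513, 513, 33830481, 34878981), (2, 513, 513, 33830421, 33830421), (0, 33, 258, 52843536, 70411536), (14, 528, 528, 52495956, 34628931), (14, 528, 528, 52495941, 33645891), (13, 528, 528, 52495956, 34628931), (2, 528, 528, 33830481, 34878981), (2, 528, 528, 33830421, 33830421), (0, 18, 18, 52843536, 70411536), (14, 528, 528, 105972516, 105914691), (14, 528, 528, 105972546, 105979971), (13, 513, 513, 52495956, 34628931), (1, 33, 258, 52843536, 70411536), (1, 33, 258, 52843521, 70411521), (13, 528, 528, 102826836, 101721411), (1, 18, 18, 52843536, 70411536), (1, 18, 18, 52843521, 70411521), (13, 513, 513, 102826836, 101721411)]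
  [(0, 144), (1, 288), (2, 288), (13, 288), (14, 288)] = true := by
  decide +kernel

theorem t13_0_3 : chkS lk13 3 3 [(1, m13_0)] l13_3
  [(1, 18, 18, 38163201, 70592001), (14, 528, 528, 87098946, 39931971), (1, 18, 18, 38163216, 70592016), (14, 528, 528, 87098916, 39866691), (5, 18, 18, 37045761, 37967361), (5, 18, 18, 37045776, 37967376), (1, 33, 258, 38163201, 70592001), (14, 528, 528, 39912261, 83961411), (1, 33, 258, 38163216, 70592016), (14, 528, 528, 39912276, 84944451), (5, 33, 258, 37045761, 37967361), (5, 33, 258, 37045776, 37967376), (2, 528, 528, 6566421, 84161046), (2, 513, 513, 6566421, 84161046), (2, 528, 528, 6566481, 85209606), (2, 513, 513, 6566481, 85209606), (31, 528, 528, 55641186, 22175811), (31, 528, 528, 55641126, 5398851)]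
  [(1, 288), (2, 288), (5, 288), (14, 288), (31, 144)] = true := by
  decide +kernel

theorem t13_1_1 : chkS lk13 3 3 [(1, m13_1)] l13_1
  [(17, 513, 513, 102962256, 101860656), (21, 513, 513, 86185536, 39929136), (39, 288, 288, 52495686, 2188611), (32, 513, 513, 87295521, 40128771), (32, 33, 258, 55592466, 39018516), (21, 33, 258, 38876676, 38811201), (22, 33, 258, 38876166, 5387841), (34, 33, 258, 38814486, 5449236), (37, 288, 288, 102827061, 100799811), (35, 513, 513, 36963681, 19158531), (35, 528, 528, 67252566, 1455141), (23, 33, 258, 39924741, 84031041), (37, 528, 528, 102765651, 101844276), (35, 33, 258, 36717846, 2315796), (22, 513, 513, 38999136, 22169136), (34, 513, 513, 39060321, 22291971), (23, 513, 513, 40047696, 85083696), (35, 288, 288, 67314021, 17187621)]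
  [(17, 72), (21, 144), (22, 144), (23, 144), (32, 144), (34, 144), (35, 288), (37, 144), (39, 72)] = true := by
  decide +kernel

theorem t13_1_2 : chkS lk13 3 3 [(1, m13_1)] l13_2
  [(8, 33, 258, 106049796, 105919521), (32, 528, 528, 16922181, 33633381), (20, 33, 258, 72431106, 39202881), (32, 288, 288, 16983636, 34620261), (8, 513, 513, 106111296, 105988896), (20, 513, 513, 72554016, 39207216), (7, 33, 258, 88224006, 6632481), (35, 513, 513, 17184066, 69283941), (20, 33, 258, 105985026, 106049601), (11, 258, 33, 17179971, 69272421), (12, 528, 528, 106049856, 105985056), (33, 258, 33, 17183826, 68300901), (35, 33, 258, 16999716, 52445541), (7, 513, 513, 88285536, 23413536), (20, 513, 513, 106107936, 106053936), (12, 288, 288, 106111236, 105923361), (11, 18, 18, 16934196, 52434021), (33, 18, 18, 16999461, 50479461)]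
  [(7, 144), (8, 144), (11, 144), (12, 144), (20, 288), (32, 144), (33, 144), (35, 144)] = true := by
  decide +kernel

theorem t13_1_3 : chkS lk13 3 3 [(1, m13_1)] l13_3
  [(11, 528, 528, 68302176, 19280976), (12, 528, 528, 85079616, 39924816), (12, 288, 288, 85140996, 39863121), (11, 288, 288, 68363526, 2507601), (24, 258, 33, 22422576, 72487776), (38, 258, 33, 55968801, 72507651), (7, 513, 513, 68363616, 19284816), (8, 513, 513, 85141056, 39928656), (35, 33, 258, 5464356, 55591206), (32, 258, 33, 85206531, 40108881), (25, 33, 258, 38876166, 5387841), (38, 288, 288, 38863926, 5379651), (35, 513, 513, 5648706, 72429606), (32, 18, 18, 85083696, 40047696), (7, 33, 258, 68302086, 2503761), (8, 33, 258, 85079556, 39859281), (38, 528, 528, 38802531, 22152756), (25, 513, 513, 38999136, 22169136)]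
  [(7, 144), (8, 144), (11, 144), (12, 144), (24, 72), (25, 144), (32, 144), (35, 144), (38, 216)] = true := by
  decide +kernel

theorem t13_2_2 : chkS lk13 3 3 [(1, m13_2)] l13_2
  [(10, 33, 258, 106111236, 105923361), (21, 18, 18, 70668306, 70668306), (21, 18, 18, 70668546, 70668321), (29, 18, 18, 69619971, 70649121), (15, 513, 513, 106107456, 105988656), (15, 513, 513, 106107936, 106053936), (9, 33, 258, 88285446, 6636321), (23, 33, 258, 87318546, 56905746), (23, 33, 258, 87318786, 56905761), (1, 258, 33, 52696656, 34891056), (12, 528, 528, 105972291, 105972291), (12, 528, 528, 105972771, 106037571), (1, 528, 528, 68363856, 35013456), (12, 33, 258, 17191476, 70259301), (12, 33, 258, 17191716, 70263141), (14, 33, 258, 52842756, 70280481), (11, 528, 528, 88146531, 23396931), (11, 528, 528, 88147491, 40173891)]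
  [(1, 144), (9, 72), (10, 72), (11, 144), (12, 288), (14, 72), (15, 144), (21, 144), (23, 144), (29, 72)] = true := by
  decide +kernel

theorem t13_2_3 : chkS lk13 3 3 [(1, m13_2)] l13_3
  [(4, 18, 18, 39018516, 55592466), (4, 18, 18, 39018756, 55592481), (15, 513, 513, 40047696, 85083696), (34, 528, 528, 103875876, 102781251), (15, 513, 513, 40047936, 86066736), (34, 528, 528, 103875156, 101732931), (3, 33, 258, 39018516, 55592466), (3, 33, 258, 39018756, 55592481), (12, 528, 528, 39912531, 85067331), (35, 258, 33, 102048771, 104989521), (12, 528, 528, 39912771, 86050371), (35, 258, 33, 102047811, 104923986), (36, 528, 528, 55641636, 38822211), (36, 528, 528, 55640676, 22045251), (7, 18, 18, 51724806, 4416081), (8, 33, 258, 51794436, 70279761), (7, 18, 18, 51724326, 4415826), (8, 33, 258, 51793956, 70279506)]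
  [(3, 144), (4, 144), (7, 144), (8, 144), (12, 144), (15, 144), (34, 144), (35, 144), (36, 144)] = true := by
  decide +kernel

theorem t13_3_3 : chkS lk13 3 3 [(1, m13_3)] l13_3
  [(18, 258, 33, 39928581, 84092481), (27, 528, 528, 86251056, 40113456), (21, 18, 18, 37838901, 50665026), (34, 288, 288, 70587936, 38162736), (34, 528, 528, 70586976, 21385776), (21, 258, 33, 37839621, 50669121), (20, 18, 18, 37838901, 50665026), (33, 528, 528, 54858336, 21324336), (6, 288, 288, 39195456, 72427056), (7, 258, 33, 101864196, 103818321), (7, 288, 288, 39195696, 72488496), (11, 288, 288, 55972896, 72507696), (33, 288, 288, 54859296, 38101296), (20, 258, 33, 37839621, 50669121), (7, 528, 528, 39195456, 72427056), (11, 528, 528, 55972416, 72442416), (6, 528, 528, 39195696, 72488496), (7, 18, 18, 101863476, 103814226)]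
  [(6, 144), (7, 288), (11, 144), (18, 72), (20, 144), (21, 144), (27, 72), (33, 144), (34, 144)] = true := by
  decide +kernel

section

variable {κ ι : Type*} [Fintype κ] [Fintype ι] [Inhabited κ] [Inhabited ι]

noncomputable def F13_0 (E : Env κ ι) : (Fin 3 → κ) → (Fin 3 → ι) → ℝ := op2 (P1 κ) (P1 ι) (fB E 3 3 m13_0)

noncomputable def F13_1 (E : Env κ ι) : (Fin 3 → κ) → (Fin 3 → ι) → ℝ := op2 (P1 κ) (P1 ι) (fB E 3 3 m13_1)

noncomputable def F13_2 (E : Env κ ι) : (Fin 3 → κ) → (Fin 3 → ι) → ℝ := op2 (P1 κ) (P1 ι) (fB E 3 3 m13_2)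

noncomputable def F13_3 (E : Env κ ι) : (Fin 3 → κ) → (Fin 3 → ι) → ℝ := op2 (P1 κ) (P1 ι) (fB E 3 3 m13_3)

def r13_0_0 : List (ℕ × ℤ) := [(13, 576), (16, 144), (26, 288), (28, 288)]

theorem h13_0_0 (E : Env κ ι) : ip (F13_0 E) (F13_0 E) = dotS (ek E lk13) r13_0_0 :=
  op_entryZ E lk13 3 3 _ _ _ _ (pg1 κ) (pg1 ι) m13_0 m13_0 l13_0 z13_0 w13_0 x13_0 (by decide) _ (chkS_sound E lk13 3 3 _ _ _ _ t13_0_0)

def r13_0_1 : List (ℕ × ℤ) := [(1, 288), (2, 288), (19, 288), (29, 288), (30, 144)]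

theorem h13_0_1 (E : Env κ ι) : ip (F13_0 E) (F13_1 E) = dotS (ek E lk13) r13_0_1 :=
  op_entryZ E lk13 3 3 _ _ _ _ (pg1 κ) (pg1 ι) m13_0 m13_1 l13_1 z13_1 w13_1 x13_1 (by decide) _ (chkS_sound E lk13 3 3 _ _ _ _ t13_0_1)

def r13_0_2 : List (ℕ × ℤ) := [(0, 144), (1, 288), (2, 288), (13, 288), (14, 288)]

theorem h13_0_2 (E : Env κ ι) : ip (F13_0 E) (F13_2 E) = dotS (ek E lk13) r13_0_2 :=
  op_entryZ E lk13 3 3 _ _ _ _ (pg1 κ) (pg1 ι) m13_0 m13_2 l13_2 z13_2 w13_2 x13_2 (by decide) _ (chkS_sound E lk13 3 3 _ _ _ _ t13_0_2)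

def r13_0_3 : List (ℕ × ℤ) := [(1, 288), (2, 288), (5, 288), (14, 288), (31, 144)]

theorem h13_0_3 (E : Env κ ι) : ip (F13_0 E) (F13_3 E) = dotS (ek E lk13) r13_0_3 :=
  op_entryZ E lk13 3 3 _ _ _ _ (pg1 κ) (pg1 ι) m13_0 m13_3 l13_3 z13_3 w13_3 x13_3 (by decide) _ (chkS_sound E lk13 3 3 _ _ _ _ t13_0_3)

def r13_1_1 : List (ℕ × ℤ) := [(17, 72), (21, 144), (22, 144), (23, 144), (32, 144), (34, 144), (35, 288), (37, 144), (39, 72)]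

theorem h13_1_1 (E : Env κ ι) : ip (F13_1 E) (F13_1 E) = dotS (ek E lk13) r13_1_1 :=
  op_entryZ E lk13 3 3 _ _ _ _ (pg1 κ) (pg1 ι) m13_1 m13_1 l13_1 z13_1 w13_1 x13_1 (by decide) _ (chkS_sound E lk13 3 3 _ _ _ _ t13_1_1)

def r13_1_2 : List (ℕ × ℤ) := [(7, 144), (8, 144), (11, 144), (12, 144), (20, 288), (32, 144), (33, 144), (35, 144)]

theorem h13_1_2 (E : Env κ ι) : ip (F13_1 E) (F13_2 E) = dotS (ek E lk13) r13_1_2 :=
  op_entryZ E lk13 3 3 _ _ _ _ (pg1 κ) (pg1 ι) m13_1 m13_2 l13_2 z13_2 w13_2 x13_2 (by decide) _ (chkS_sound E lk13 3 3 _ _ _ _ t13_1_2)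

def r13_1_3 : List (ℕ × ℤ) := [(7, 144), (8, 144), (11, 144), (12, 144), (24, 72), (25, 144), (32, 144), (35, 144), (38, 216)]

theorem h13_1_3 (E : Env κ ι) : ip (F13_1 E) (F13_3 E) = dotS (ek E lk13) r13_1_3 :=
  op_entryZ E lk13 3 3 _ _ _ _ (pg1 κ) (pg1 ι) m13_1 m13_3 l13_3 z13_3 w13_3 x13_3 (by decide) _ (chkS_sound E lk13 3 3 _ _ _ _ t13_1_3)

def r13_2_2 : List (ℕ × ℤ) := [(1, 144), (9, 72), (10, 72), (11, 144), (12, 288), (14, 72), (15, 144), (21, 144), (23, 144), (29, 72)]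

theorem h13_2_2 (E : Env κ ι) : ip (F13_2 E) (F13_2 E) = dotS (ek E lk13) r13_2_2 :=
  op_entryZ E lk13 3 3 _ _ _ _ (pg1 κ) (pg1 ι) m13_2 m13_2 l13_2 z13_2 w13_2 x13_2 (by decide) _ (chkS_sound E lk13 3 3 _ _ _ _ t13_2_2)

def r13_2_3 : List (ℕ × ℤ) := [(3, 144), (4, 144), (7, 144), (8, 144), (12, 144), (15, 144), (34, 144), (35, 144), (36, 144)]

theorem h13_2_3 (E : Env κ ι) : ip (F13_2 E) (F13_3 E) = dotS (ek E lk13) r13_2_3 :=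
  op_entryZ E lk13 3 3 _ _ _ _ (pg1 κ) (pg1 ι) m13_2 m13_3 l13_3 z13_3 w13_3 x13_3 (by decide) _ (chkS_sound E lk13 3 3 _ _ _ _ t13_2_3)

def r13_3_3 : List (ℕ × ℤ) := [(6, 144), (7, 288), (11, 144), (18, 72), (20, 144), (21, 144), (27, 72), (33, 144), (34, 144)]

theorem h13_3_3 (E : Env κ ι) : ip (F13_3 E) (F13_3 E) = dotS (ek E lk13) r13_3_3 :=
  op_entryZ E lk13 3 3 _ _ _ _ (pg1 κ) (pg1 ι) m13_3 m13_3 l13_3 z13_3 w13_3 x13_3 (by decide) _ (chkS_sound E lk13 3 3 _ _ _ _ t13_3_3)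

theorem row13_0 (E : Env κ ι) : RowG (ek E lk13) (F13_0 E) [F13_0 E, F13_1 E, F13_2 E, F13_3 E] [r13_0_0, r13_0_1, r13_0_2, r13_0_3] :=
  rowG_cons _ _ _ _ _ _ (h13_0_0 E) (rowG_cons _ _ _ _ _ _ (h13_0_1 E) (rowG_cons _ _ _ _ _ _ (h13_0_2 E) (rowG_cons _ _ _ _ _ _ (h13_0_3 E) (rowG_nil _ _))))

theorem row13_1 (E : Env κ ι) : RowG (ek E lk13) (F13_1 E) [F13_1 E, F13_2 E, F13_3 E] [r13_1_1, r13_1_2, r13_1_3] :=
  rowG_cons _ _ _ _ _ _ (h13_1_1 E) (rowG_cons _ _ _ _ _ _ (h13_1_2 E) (rowG_cons _ _ _ _ _ _ (h13_1_3 E) (rowG_nil _ _)))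

theorem row13_2 (E : Env κ ι) : RowG (ek E lk13) (F13_2 E) [F13_2 E, F13_3 E] [r13_2_2, r13_2_3] :=
  rowG_cons _ _ _ _ _ _ (h13_2_2 E) (rowG_cons _ _ _ _ _ _ (h13_2_3 E) (rowG_nil _ _))

theorem row13_3 (E : Env κ ι) : RowG (ek E lk13) (F13_3 E) [F13_3 E] [r13_3_3] :=
  rowG_cons _ _ _ _ _ _ (h13_3_3 E) (rowG_nil _ _)

def tab13 : List (List (List (ℕ × ℤ))) := [[r13_0_0, r13_0_1, r13_0_2, r13_0_3], [r13_1_1, r13_1_2, r13_1_3], [r13_2_2, r13_2_3], [r13_3_3]]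

theorem tri13 (E : Env κ ι) : TriG (ek E lk13) [F13_0 E, F13_1 E, F13_2 E, F13_3 E] tab13 := by
  refine triG_cons _ _ _ _ _ (row13_0 E) ?_
  refine triG_cons _ _ _ _ _ (row13_1 E) ?_
  refine triG_cons _ _ _ _ _ (row13_2 E) ?_
  refine triG_cons _ _ _ _ _ (row13_3 E) ?_
  exact triG_nil _

end

def lk14 : List Key := [
  (3, 7, [(0, [0], [0, 1]), (0, [0], [0, 1]), (0, [1], [2, 3]), (0, [2], [2, 4]), (0, [2], [5, 6]), (0, [1], [5, 6]), (4, [], [4]), (4, [], [3])]),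
  (3, 7, [(0, [0], [0, 1]), (0, [1], [0, 2]), (0, [0], [2, 3]), (0, [2], [1, 4]), (0, [1], [5, 6]), (0, [2], [5, 6]), (4, [], [3]), (4, [], [4])]),
  (3, 7, [(0, [0], [0, 1]), (0, [1], [0, 2]), (0, [0], [3, 4]), (0, [1], [3, 4]), (0, [2], [1, 5]), (0, [2], [5, 6]), (4, [], [2]), (4, [], [6])]),
  (3, 7, [(0, [0], [0, 1]), (0, [0], [0, 2]), (0, [1], [1, 2]), (4, [], [3]), (0, [2], [4, 5]), (0, [2], [4, 6]), (0, [1], [3, 6]), (4, [], [5])]),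
  (3, 7, [(0, [0], [0, 1]), (0, [0], [0, 2]), (0, [1], [1, 2]), (4, [], [3]), (0, [2], [4, 5]), (0, [2], [3, 6]), (0, [1], [4, 6]), (4, [], [5])]),
  (3, 7, [(0, [0], [0, 1]), (0, [0], [0, 2]), (0, [1], [1, 2]), (4, [], [3]), (0, [2], [4, 5]), (0, [2], [3, 6]), (0, [1], [4, 5]), (4, [], [6])]),
  (3, 7, [(0, [0], [0, 1]), (0, [0], [0, 2]), (0, [1], [3, 2]), (4, [], [1]), (0, [2], [4, 5]), (0, [2], [4, 6]), (0, [1], [3, 6]), (4, [], [5])]),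
  (3, 7, [(0, [0], [0, 1]), (0, [0], [0, 2]), (0, [1], [3, 2]), (4, [], [1]), (0, [2], [4, 5]), (0, [2], [3, 6]), (0, [1], [4, 6]), (4, [], [5])]),
  (3, 7, [(0, [0], [0, 1]), (0, [0], [0, 2]), (0, [1], [3, 2]), (4, [], [1]), (0, [2], [4, 5]), (0, [2], [3, 4]), (0, [1], [5, 6]), (4, [], [6])]),
  (3, 7, [(0, [0], [0, 1]), (0, [0], [0, 1]), (0, [1], [2, 3]), (4, [], [3]), (0, [2], [4, 5]), (0, [2], [2, 6]), (0, [1], [4, 6]), (4, [], [5])]),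
  (3, 7, [(0, [0], [0, 1]), (0, [0], [0, 1]), (0, [1], [2, 3]), (4, [], [3]), (0, [2], [4, 5]), (0, [2], [2, 4]), (0, [1], [5, 6]), (4, [], [6])]),
  (3, 7, [(0, [0], [0, 1]), (0, [0], [2, 3]), (0, [1], [0, 3]), (4, [], [1]), (0, [2], [4, 5]), (0, [2], [2, 6]), (0, [1], [4, 6]), (4, [], [5])]),
  (3, 7, [(0, [0], [0, 1]), (0, [0], [2, 3]), (0, [1], [0, 3]), (4, [], [1]), (0, [2], [4, 5]), (0, [2], [2, 4]), (0, [1], [5, 6]), (4, [], [6])]),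
  (3, 7, [(0, [0], [0, 1]), (0, [0], [2, 3]), (0, [1], [0, 1]), (4, [], [3]), (0, [2], [4, 5]), (0, [2], [2, 6]), (0, [1], [4, 5]), (4, [], [6])]),
  (3, 7, [(0, [0], [0, 1]), (0, [0], [2, 3]), (0, [1], [0, 1]), (4, [], [3]), (0, [2], [4, 5]), (0, [2], [2, 4]), (0, [1], [5, 6]), (4, [], [6])]),
  (3, 7, [(0, [0], [0, 1]), (0, [0], [2, 0]), (0, [1], [1, 3]), (4, [], [3]), (0, [2], [4, 5]), (0, [2], [2, 4]), (0, [1], [5, 6]), (4, [], [6])]),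
  (3, 7, [(0, [0], [0, 1]), (0, [0], [0, 1]), (0, [1], [2, 3]), (4, [], [4]), (0, [2], [5, 6]), (0, [2], [2, 3]), (0, [1], [5, 6]), (4, [], [4])]),
  (3, 7, [(0, [0], [0, 1]), (0, [0], [2, 0]), (0, [1], [3, 1]), (4, [], [4]), (0, [2], [5, 6]), (0, [2], [3, 5]), (0, [1], [2, 6]), (4, [], [4])]),
  (3, 7, [(0, [0], [0, 1]), (0, [0], [2, 0]), (0, [1], [3, 1]), (4, [], [4]), (0, [2], [5, 6]), (0, [2], [4, 5]), (0, [1], [2, 3]), (4, [], [6])]),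
  (3, 7, [(0, [0], [0, 1]), (0, [0], [2, 0]), (0, [1], [3, 1]), (4, [], [4]), (0, [2], [5, 6]), (0, [2], [2, 3]), (0, [1], [5, 6]), (4, [], [4])]),
  (3, 7, [(0, [0], [0, 1]), (0, [0], [2, 0]), (0, [1], [3, 1]), (4, [], [4]), (0, [2], [5, 6]), (0, [2], [2, 3]), (0, [1], [4, 5]), (4, [], [6])]),
  (3, 7, [(0, [0], [0, 1]), (0, [0], [2, 0]), (0, [1], [3, 1]), (4, [], [4]), (0, [2], [5, 6]), (0, [2], [3, 4]), (0, [1], [2, 5]), (4, [], [6])]),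
  (3, 7, [(0, [0], [0, 1]), (0, [0], [2, 0]), (0, [1], [3, 1]), (4, [], [4]), (0, [2], [2, 5]), (0, [2], [3, 6]), (0, [1], [5, 6]), (4, [], [4])]),
  (3, 7, [(0, [0], [0, 1]), (0, [0], [2, 0]), (0, [1], [3, 1]), (4, [], [4]), (0, [2], [3, 5]), (0, [2], [2, 6]), (0, [1], [4, 6]), (4, [], [5])]),
  (3, 7, [(0, [0], [0, 1]), (0, [0], [2, 0]), (0, [1], [3, 1]), (4, [], [4]), (0, [2], [4, 5]), (0, [2], [2, 6]), (0, [1], [3, 6]), (4, [], [5])]),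
  (3, 7, [(0, [0], [0, 1]), (0, [0], [2, 0]), (0, [1], [3, 1]), (4, [], [4]), (0, [2], [4, 5]), (0, [2], [3, 6]), (0, [1], [2, 6]), (4, [], [5])]),
  (3, 7, [(0, [0], [0, 1]), (0, [0], [2, 0]), (0, [1], [3, 4]), (4, [], [1]), (0, [2], [5, 6]), (0, [2], [3, 4]), (0, [1], [5, 6]), (4, [], [2])]),
  (3, 7, [(0, [0], [0, 1]), (0, [0], [2, 0]), (0, [1], [3, 4]), (4, [], [1]), (0, [2], [3, 5]), (0, [2], [4, 6]), (0, [1], [5, 6]), (4, [], [2])]),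
  (3, 7, [(0, [0], [0, 1]), (0, [0], [2, 3]), (0, [1], [0, 1]), (4, [], [4]), (0, [2], [5, 6]), (0, [2], [2, 3]), (0, [1], [5, 6]), (4, [], [4])]),
  (3, 7, [(0, [0], [0, 1]), (0, [0], [2, 3]), (0, [1], [0, 1]), (4, [], [4]), (0, [2], [5, 6]), (0, [2], [2, 4]), (0, [1], [3, 5]), (4, [], [6])]),
  (3, 7, [(0, [0], [0, 1]), (0, [0], [2, 3]), (0, [1], [0, 1]), (4, [], [4]), (0, [2], [2, 5]), (0, [2], [3, 6]), (0, [1], [5, 6]), (4, [], [4])]),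
  (3, 7, [(0, [0], [0, 1]), (0, [0], [2, 3]), (0, [1], [0, 1]), (4, [], [4]), (0, [2], [4, 5]), (0, [2], [2, 6]), (0, [1], [3, 6]), (4, [], [5])]),
  (3, 7, [(0, [0], [0, 1]), (0, [0], [2, 3]), (0, [1], [4, 0]), (4, [], [1]), (0, [2], [5, 6]), (0, [2], [2, 4]), (0, [1], [3, 5]), (4, [], [6])]),
  (3, 7, [(0, [0], [0, 1]), (0, [0], [2, 3]), (0, [1], [4, 0]), (4, [], [1]), (0, [2], [2, 5]), (0, [2], [3, 6]), (0, [1], [5, 6]), (4, [], [4])]),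
  (3, 7, [(0, [0], [0, 1]), (0, [0], [2, 3]), (0, [1], [4, 0]), (4, [], [1]), (0, [2], [2, 5]), (0, [2], [4, 6]), (0, [1], [5, 6]), (4, [], [3])]),
  (3, 7, [(0, [0], [0, 1]), (0, [0], [2, 3]), (0, [1], [4, 0]), (4, [], [1]), (0, [2], [2, 5]), (0, [2], [4, 6]), (0, [1], [3, 6]), (4, [], [5])]),
  (3, 7, [(0, [0], [0, 1]), (0, [0], [2, 3]), (0, [1], [4, 0]), (4, [], [1]), (0, [2], [4, 5]), (0, [2], [2, 6]), (0, [1], [3, 6]), (4, [], [5])]),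
  (3, 7, [(0, [0], [0, 1]), (0, [0], [2, 3]), (0, [1], [1, 3]), (4, [], [4]), (0, [2], [0, 5]), (0, [2], [2, 6]), (0, [1], [5, 6]), (4, [], [4])]),
  (3, 7, [(0, [0], [0, 1]), (0, [0], [2, 3]), (0, [1], [1, 3]), (4, [], [4]), (0, [2], [4, 5]), (0, [2], [0, 6]), (0, [1], [2, 6]), (4, [], [5])]),
  (3, 7, [(0, [0], [0, 1]), (0, [0], [2, 3]), (0, [1], [4, 1]), (4, [], [5]), (0, [2], [0, 6]), (0, [2], [2, 4]), (0, [1], [3, 6]), (4, [], [5])])]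

def kl14 : List ℕ := [14, 57, 58, 95, 97, 98, 109, 111, 112, 119, 120, 125, 126, 132, 133, 144, 205, 217, 218, 219, 220, 221, 222, 223, 224, 225, 252, 253, 266, 267, 268, 269, 284, 285, 286, 287, 288, 302, 303, 429]

def m14_0 : Base := (0, 2, [(0, [0], [3, 4]), (0, [1], [3, 4]), (0, [2], [0, 1]), (4, [], [2])])

def l14_0 : Cov := [(72, 0, 2, [(0, [0], [3, 4]), (0, [1], [3, 4]), (0, [2], [0, 1]), (4, [], [2])]),
  (72, 0, 2, [(0, [0], [3, 4]), (0, [1], [3, 4]), (0, [2], [0, 2]), (4, [], [1])]),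
  (72, 0, 2, [(0, [0], [3, 4]), (0, [1], [3, 4]), (0, [2], [1, 2]), (4, [], [0])]),
  (-72, 0, 2, [(0, [1], [3, 4]), (0, [2], [3, 4]), (0, [0], [0, 1]), (4, [], [2])]),
  (-72, 0, 2, [(0, [1], [3, 4]), (0, [2], [3, 4]), (0, [0], [0, 2]), (4, [], [1])]),
  (-72, 0, 2, [(0, [1], [3, 4]), (0, [2], [3, 4]), (0, [0], [1, 2]), (4, [], [0])])]

def z14_0 : Cov := [(0, 0, 2, [(0, [0], [3, 4]), (0, [2], [3, 4]), (0, [1], [0, 1]), (4, [], [2])]),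
  (0, 0, 2, [(0, [0], [3, 4]), (0, [2], [3, 4]), (0, [1], [0, 2]), (4, [], [1])]),
  (0, 0, 2, [(0, [0], [3, 4]), (0, [2], [3, 4]), (0, [1], [1, 2]), (4, [], [0])])]

def w14_0 : List (List Wit) := [[(0, 0, 0, 16, 16), (1, 0, 0, 16, 16), (0, 0, 0, 16, 16), (2, 0, 0, 16, 16), (1, 0, 0, 16, 16), (2, 0, 0, 16, 16)],
  [(6, 0, 0, 16, 16), (7, 0, 0, 16, 16), (6, 0, 0, 16, 16), (8, 0, 0, 16, 16), (7, 0, 0, 16, 16), (8, 0, 0, 16, 16)],
  [(0, 0, 0, 16, 16), (1, 0, 0, 16, 16), (0, 0, 0, 16, 16), (2, 0, 0, 16, 16), (1, 0, 0, 16, 16), (2, 0, 0, 16, 16)],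
  [(3, 0, 0, 16, 16), (4, 0, 0, 16, 16), (3, 0, 0, 16, 16), (5, 0, 0, 16, 16), (4, 0, 0, 16, 16), (5, 0, 0, 16, 16)],
  [(6, 0, 0, 16, 16), (7, 0, 0, 16, 16), (6, 0, 0, 16, 16), (8, 0, 0, 16, 16), (7, 0, 0, 16, 16), (8, 0, 0, 16, 16)],
  [(3, 0, 0, 16, 16), (4, 0, 0, 16, 16), (3, 0, 0, 16, 16), (5, 0, 0, 16, 16), (4, 0, 0, 16, 16), (5, 0, 0, 16, 16)]]

def m14_1 : Base := (0, 2, [(0, [0], [3, 4]), (0, [1], [0, 3]), (0, [2], [1, 4]), (4, [], [2])])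

def l14_1 : Cov := [(36, 0, 2, [(0, [0], [3, 4]), (0, [1], [0, 3]), (0, [2], [1, 4]), (4, [], [2])]),
  (36, 0, 2, [(0, [0], [3, 4]), (0, [1], [0, 3]), (0, [2], [2, 4]), (4, [], [1])]),
  (36, 0, 2, [(0, [0], [3, 4]), (0, [1], [1, 3]), (0, [2], [0, 4]), (4, [], [2])]),
  (36, 0, 2, [(0, [0], [3, 4]), (0, [1], [1, 3]), (0, [2], [2, 4]), (4, [], [0])]),
  (36, 0, 2, [(0, [0], [3, 4]), (0, [1], [2, 3]), (0, [2], [0, 4]), (4, [], [1])]),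
  (36, 0, 2, [(0, [0], [3, 4]), (0, [1], [2, 3]), (0, [2], [1, 4]), (4, [], [0])]),
  (-36, 0, 2, [(0, [2], [3, 4]), (0, [0], [0, 3]), (0, [1], [1, 4]), (4, [], [2])]),
  (-36, 0, 2, [(0, [2], [3, 4]), (0, [0], [0, 3]), (0, [1], [2, 4]), (4, [], [1])]),
  (-36, 0, 2, [(0, [2], [3, 4]), (0, [0], [1, 3]), (0, [1], [0, 4]), (4, [], [2])]),
  (-36, 0, 2, [(0, [2], [3, 4]), (0, [0], [1, 3]), (0, [1], [2, 4]), (4, [], [0])]),
  (-36, 0, 2, [(0, [2], [3, 4]), (0, [0], [2, 3]), (0, [1], [0, 4]), (4, [], [1])]),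
  (-36, 0, 2, [(0, [2], [3, 4]), (0, [0], [2, 3]), (0, [1], [1, 4]), (4, [], [0])])]

def z14_1 : Cov := [(0, 0, 2, [(0, [1], [3, 4]), (0, [0], [0, 3]), (0, [2], [1, 4]), (4, [], [2])]),
  (0, 0, 2, [(0, [1], [3, 4]), (0, [0], [0, 3]), (0, [2], [2, 4]), (4, [], [1])]),
  (0, 0, 2, [(0, [1], [3, 4]), (0, [0], [1, 3]), (0, [2], [0, 4]), (4, [], [2])]),
  (0, 0, 2, [(0, [1], [3, 4]), (0, [0], [1, 3]), (0, [2], [2, 4]), (4, [], [0])]),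
  (0, 0, 2, [(0, [1], [3, 4]), (0, [0], [2, 3]), (0, [2], [0, 4]), (4, [], [1])]),
  (0, 0, 2, [(0, [1], [3, 4]), (0, [0], [2, 3]), (0, [2], [1, 4]), (4, [], [0])])]

def w14_1 : List (List Wit) := [[(0, 0, 0, 16, 16), (1, 0, 0, 16, 16), (2, 0, 0, 16, 16), (3, 0, 0, 16, 16), (4, 0, 0, 16, 16), (5, 0, 0, 16, 16)],
  [(2, 0, 0, 1, 1), (4, 0, 0, 1, 1), (0, 0, 0, 1, 1), (5, 0, 0, 1, 1), (1, 0, 0, 1, 1), (3, 0, 0, 1, 1)],
  [(12, 0, 0, 16, 16), (13, 0, 0, 16, 16), (14, 0, 0, 16, 16), (15, 0, 0, 16, 16), (16, 0, 0, 16, 16), (17, 0, 0, 16, 16)],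
  [(14, 0, 0, 1, 1), (16, 0, 0, 1, 1), (12, 0, 0, 1, 1), (17, 0, 0, 1, 1), (13, 0, 0, 1, 1), (15, 0, 0, 1, 1)],
  [(6, 0, 0, 16, 16), (7, 0, 0, 16, 16), (8, 0, 0, 16, 16), (9, 0, 0, 16, 16), (10, 0, 0, 16, 16), (11, 0, 0, 16, 16)],
  [(8, 0, 0, 1, 1), (10, 0, 0, 1, 1), (6, 0, 0, 1, 1), (11, 0, 0, 1, 1), (7, 0, 0, 1, 1), (9, 0, 0, 1, 1)]]

def m14_2 : Base := (0, 2, [(0, [0], [3, 4]), (0, [1], [0, 3]), (0, [2], [1, 2]), (4, [], [4])])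

def l14_2 : Cov := [(48, 0, 2, [(0, [0], [3, 4]), (0, [1], [0, 3]), (0, [2], [1, 2]), (4, [], [4])]),
  (48, 0, 2, [(0, [0], [3, 4]), (0, [1], [1, 3]), (0, [2], [0, 2]), (4, [], [4])]),
  (48, 0, 2, [(0, [0], [3, 4]), (0, [1], [2, 3]), (0, [2], [0, 1]), (4, [], [4])]),
  (24, 0, 2, [(0, [0], [3, 4]), (0, [2], [0, 3]), (0, [1], [1, 2]), (4, [], [4])]),
  (24, 0, 2, [(0, [0], [3, 4]), (0, [2], [1, 3]), (0, [1], [0, 2]), (4, [], [4])]),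
  (24, 0, 2, [(0, [0], [3, 4]), (0, [2], [2, 3]), (0, [1], [0, 1]), (4, [], [4])]),
  (24, 0, 2, [(0, [1], [3, 4]), (0, [0], [0, 3]), (0, [2], [1, 2]), (4, [], [4])]),
  (24, 0, 2, [(0, [1], [3, 4]), (0, [0], [1, 3]), (0, [2], [0, 2]), (4, [], [4])]),
  (24, 0, 2, [(0, [1], [3, 4]), (0, [0], [2, 3]), (0, [2], [0, 1]), (4, [], [4])]),
  (-24, 0, 2, [(0, [1], [3, 4]), (0, [2], [0, 3]), (0, [0], [1, 2]), (4, [], [4])]),
  (-24, 0, 2, [(0, [1], [3, 4]), (0, [2], [1, 3]), (0, [0], [0, 2]), (4, [], [4])]),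
  (-24, 0, 2, [(0, [1], [3, 4]), (0, [2], [2, 3]), (0, [0], [0, 1]), (4, [], [4])]),
  (-24, 0, 2, [(0, [2], [3, 4]), (0, [0], [0, 3]), (0, [1], [1, 2]), (4, [], [4])]),
  (-24, 0, 2, [(0, [2], [3, 4]), (0, [0], [1, 3]), (0, [1], [0, 2]), (4, [], [4])]),
  (-24, 0, 2, [(0, [2], [3, 4]), (0, [0], [2, 3]), (0, [1], [0, 1]), (4, [], [4])]),
  (-48, 0, 2, [(0, [2], [3, 4]), (0, [1], [0, 3]), (0, [0], [1, 2]), (4, [], [4])]),
  (-48, 0, 2, [(0, [2], [3, 4]), (0, [1], [1, 3]), (0, [0], [0, 2]), (4, [], [4])]),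
  (-48, 0, 2, [(0, [2], [3, 4]), (0, [1], [2, 3]), (0, [0], [0, 1]), (4, [], [4])])]

def z14_2 : Cov := []

def w14_2 : List (List Wit) := [[(0, 0, 0, 16, 16), (0, 0, 0, 16, 16), (1, 0, 0, 16, 16), (1, 0, 0, 16, 16), (2, 0, 0, 16, 16), (2, 0, 0, 16, 16)],
  [(3, 0, 0, 16, 16), (3, 0, 0, 16, 16), (4, 0, 0, 16, 16), (4, 0, 0, 16, 16), (5, 0, 0, 16, 16), (5, 0, 0, 16, 16)],
  [(6, 0, 0, 16, 16), (6, 0, 0, 16, 16), (7, 0, 0, 16, 16), (7, 0, 0, 16, 16), (8, 0, 0, 16, 16), (8, 0, 0, 16, 16)],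
  [(9, 0, 0, 16, 16), (9, 0, 0, 16, 16), (10, 0, 0, 16, 16), (10, 0, 0, 16, 16), (11, 0, 0, 16, 16), (11, 0, 0, 16, 16)],
  [(12, 0, 0, 16, 16), (12, 0, 0, 16, 16), (13, 0, 0, 16, 16), (13, 0, 0, 16, 16), (14, 0, 0, 16, 16), (14, 0, 0, 16, 16)],
  [(15, 0, 0, 16, 16), (15, 0, 0, 16, 16), (16, 0, 0, 16, 16), (16, 0, 0, 16, 16), (17, 0, 0, 16, 16), (17, 0, 0, 16, 16)]]

def m14_3 : Base := (0, 2, [(0, [0], [3, 4]), (0, [1], [0, 1]), (0, [2], [2, 3]), (4, [], [4])])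

def l14_3 : Cov := [(48, 0, 2, [(0, [0], [3, 4]), (0, [1], [0, 1]), (0, [2], [2, 3]), (4, [], [4])]),
  (48, 0, 2, [(0, [0], [3, 4]), (0, [1], [0, 2]), (0, [2], [1, 3]), (4, [], [4])]),
  (48, 0, 2, [(0, [0], [3, 4]), (0, [1], [1, 2]), (0, [2], [0, 3]), (4, [], [4])]),
  (24, 0, 2, [(0, [0], [3, 4]), (0, [2], [0, 1]), (0, [1], [2, 3]), (4, [], [4])]),
  (24, 0, 2, [(0, [0], [3, 4]), (0, [2], [0, 2]), (0, [1], [1, 3]), (4, [], [4])]),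
  (24, 0, 2, [(0, [0], [3, 4]), (0, [2], [1, 2]), (0, [1], [0, 3]), (4, [], [4])]),
  (24, 0, 2, [(0, [1], [3, 4]), (0, [0], [0, 1]), (0, [2], [2, 3]), (4, [], [4])]),
  (24, 0, 2, [(0, [1], [3, 4]), (0, [0], [0, 2]), (0, [2], [1, 3]), (4, [], [4])]),
  (24, 0, 2, [(0, [1], [3, 4]), (0, [0], [1, 2]), (0, [2], [0, 3]), (4, [], [4])]),
  (-24, 0, 2, [(0, [1], [3, 4]), (0, [2], [0, 1]), (0, [0], [2, 3]), (4, [], [4])]),
  (-24, 0, 2, [(0, [1], [3, 4]), (0, [2], [0, 2]), (0, [0], [1, 3]), (4, [], [4])]),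
  (-24, 0, 2, [(0, [1], [3, 4]), (0, [2], [1, 2]), (0, [0], [0, 3]), (4, [], [4])]),
  (-24, 0, 2, [(0, [2], [3, 4]), (0, [0], [0, 1]), (0, [1], [2, 3]), (4, [], [4])]),
  (-24, 0, 2, [(0, [2], [3, 4]), (0, [0], [0, 2]), (0, [1], [1, 3]), (4, [], [4])]),
  (-24, 0, 2, [(0, [2], [3, 4]), (0, [0], [1, 2]), (0, [1], [0, 3]), (4, [], [4])]),
  (-48, 0, 2, [(0, [2], [3, 4]), (0, [1], [0, 1]), (0, [0], [2, 3]), (4, [], [4])]),
  (-48, 0, 2, [(0, [2], [3, 4]), (0, [1], [0, 2]), (0, [0], [1, 3]), (4, [], [4])]),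
  (-48, 0, 2, [(0, [2], [3, 4]), (0, [1], [1, 2]), (0, [0], [0, 3]), (4, [], [4])])]

def z14_3 : Cov := []

def w14_3 : List (List Wit) := [[(0, 0, 0, 16, 16), (1, 0, 0, 16, 16), (0, 0, 0, 16, 16), (2, 0, 0, 16, 16), (1, 0, 0, 16, 16), (2, 0, 0, 16, 16)],
  [(3, 0, 0, 16, 16), (4, 0, 0, 16, 16), (3, 0, 0, 16, 16), (5, 0, 0, 16, 16), (4, 0, 0, 16, 16), (5, 0, 0, 16, 16)],
  [(6, 0, 0, 16, 16), (7, 0, 0, 16, 16), (6, 0, 0, 16, 16), (8, 0, 0, 16, 16), (7, 0, 0, 16, 16), (8, 0, 0, 16, 16)],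
  [(9, 0, 0, 16, 16), (10, 0, 0, 16, 16), (9, 0, 0, 16, 16), (11, 0, 0, 16, 16), (10, 0, 0, 16, 16), (11, 0, 0, 16, 16)],
  [(12, 0, 0, 16, 16), (13, 0, 0, 16, 16), (12, 0, 0, 16, 16), (14, 0, 0, 16, 16), (13, 0, 0, 16, 16), (14, 0, 0, 16, 16)],
  [(15, 0, 0, 16, 16), (16, 0, 0, 16, 16), (15, 0, 0, 16, 16), (17, 0, 0, 16, 16), (16, 0, 0, 16, 16), (17, 0, 0, 16, 16)]]

def m14_4 : Base := (0, 2, [(0, [0], [0, 3]), (0, [1], [1, 4]), (0, [2], [2, 4]), (4, [], [3])])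

def l14_4 : Cov := [(36, 0, 2, [(0, [0], [0, 3]), (0, [1], [1, 4]), (0, [2], [2, 4]), (4, [], [3])]),
  (36, 0, 2, [(0, [0], [0, 3]), (0, [1], [2, 4]), (0, [2], [1, 4]), (4, [], [3])]),
  (36, 0, 2, [(0, [0], [1, 3]), (0, [1], [0, 4]), (0, [2], [2, 4]), (4, [], [3])]),
  (36, 0, 2, [(0, [0], [1, 3]), (0, [1], [2, 4]), (0, [2], [0, 4]), (4, [], [3])]),
  (36, 0, 2, [(0, [0], [2, 3]), (0, [1], [0, 4]), (0, [2], [1, 4]), (4, [], [3])]),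
  (36, 0, 2, [(0, [0], [2, 3]), (0, [1], [1, 4]), (0, [2], [0, 4]), (4, [], [3])]),
  (-36, 0, 2, [(0, [2], [0, 3]), (0, [0], [1, 4]), (0, [1], [2, 4]), (4, [], [3])]),
  (-36, 0, 2, [(0, [2], [0, 3]), (0, [0], [2, 4]), (0, [1], [1, 4]), (4, [], [3])]),
  (-36, 0, 2, [(0, [2], [1, 3]), (0, [0], [0, 4]), (0, [1], [2, 4]), (4, [], [3])]),
  (-36, 0, 2, [(0, [2], [1, 3]), (0, [0], [2, 4]), (0, [1], [0, 4]), (4, [], [3])]),
  (-36, 0, 2, [(0, [2], [2, 3]), (0, [0], [0, 4]), (0, [1], [1, 4]), (4, [], [3])]),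
  (-36, 0, 2, [(0, [2], [2, 3]), (0, [0], [1, 4]), (0, [1], [0, 4]), (4, [], [3])])]

def z14_4 : Cov := [(0, 0, 2, [(0, [1], [0, 3]), (0, [0], [1, 4]), (0, [2], [2, 4]), (4, [], [3])]),
  (0, 0, 2, [(0, [1], [0, 3]), (0, [0], [2, 4]), (0, [2], [1, 4]), (4, [], [3])]),
  (0, 0, 2, [(0, [1], [1, 3]), (0, [0], [0, 4]), (0, [2], [2, 4]), (4, [], [3])]),
  (0, 0, 2, [(0, [1], [1, 3]), (0, [0], [2, 4]), (0, [2], [0, 4]), (4, [], [3])]),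
  (0, 0, 2, [(0, [1], [2, 3]), (0, [0], [0, 4]), (0, [2], [1, 4]), (4, [], [3])]),
  (0, 0, 2, [(0, [1], [2, 3]), (0, [0], [1, 4]), (0, [2], [0, 4]), (4, [], [3])])]

def w14_4 : List (List Wit) := [[(0, 0, 0, 16, 16), (1, 0, 0, 16, 16), (2, 0, 0, 16, 16), (3, 0, 0, 16, 16), (4, 0, 0, 16, 16), (5, 0, 0, 16, 16)],
  [(1, 0, 0, 16, 16), (0, 0, 0, 16, 16), (3, 0, 0, 16, 16), (2, 0, 0, 16, 16), (5, 0, 0, 16, 16), (4, 0, 0, 16, 16)],
  [(12, 0, 0, 16, 16), (13, 0, 0, 16, 16), (14, 0, 0, 16, 16), (15, 0, 0, 16, 16), (16, 0, 0, 16, 16), (17, 0, 0, 16, 16)],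
  [(13, 0, 0, 16, 16), (12, 0, 0, 16, 16), (15, 0, 0, 16, 16), (14, 0, 0, 16, 16), (17, 0, 0, 16, 16), (16, 0, 0, 16, 16)],
  [(6, 0, 0, 16, 16), (7, 0, 0, 16, 16), (8, 0, 0, 16, 16), (9, 0, 0, 16, 16), (10, 0, 0, 16, 16), (11, 0, 0, 16, 16)],
  [(7, 0, 0, 16, 16), (6, 0, 0, 16, 16), (9, 0, 0, 16, 16), (8, 0, 0, 16, 16), (11, 0, 0, 16, 16), (10, 0, 0, 16, 16)]]

theorem tr14 : trK keys lk14 kl14 = true := by
  decide +kernel

theorem x14_0 : expB 3 3 dg2 dg1 m14_0 (l14_0 ++ z14_0) w14_0 = true := by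
  decide +kernel

theorem x14_1 : expB 3 3 dg2 dg1 m14_1 (l14_1 ++ z14_1) w14_1 = true := by
  decide +kernel

theorem x14_2 : expB 3 3 dg2 dg1 m14_2 (l14_2 ++ z14_2) w14_2 = true := by
  decide +kernel

theorem x14_3 : expB 3 3 dg2 dg1 m14_3 (l14_3 ++ z14_3) w14_3 = true := by
  decide +kernel

theorem x14_4 : expB 3 3 dg2 dg1 m14_4 (l14_4 ++ z14_4) w14_4 = true := by
  decide +kernel

theorem t14_0_0 : chkS lk14 3 3 [(1, m14_0)] l14_0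
  [(16, 33, 258, 106112016, 106054416), (26, 33, 258, 106181136, 106181136), (26, 33, 258, 106181121, 106181121), (28, 528, 528, 105972786, 106041411), (13, 528, 528, 88146786, 23404611), (13, 528, 528, 88146726, 6627651)]
  [(13, -144), (16, 72), (26, 144), (28, -72)] = true := by
  decide +kernel

theorem t14_0_1 : chkS lk14 3 3 [(1, m14_0)] l14_1
  [(19, 18, 18, 37114881, 70407681), (29, 528, 528, 36766821, 16930371), (19, 18, 18, 37114896, 70407696), (29, 528, 528, 36766806, 1201731), (2, 528, 528, 17052261, 17052261), (2, 528, 528, 17052246, 1323621), (30, 528, 528, 103875666, 101863491), (1, 33, 258, 17191986, 70389861), (30, 528, 528, 103875621, 100815171), (1, 33, 258, 17191971, 70386021), (1, 18, 18, 1463346, 70389846), (1, 18, 18, 1463331, 70386006)]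
  [(1, -144), (2, 72), (19, 72), (29, 72), (30, -72)] = true := by
  decide +kernel

theorem t14_0_2 : chkS lk14 3 3 [(1, m14_0)] l14_2
  [(2, 513, 513, 33830481, 34878981), (2, 513, 513, 33830421, 33830421), (0, 33, 258, 52843536, 70411536), (14, 528, 528, 52495956, 34628931), (14, 528, 528, 52495941, 33645891), (13, 528, 528, 52495956, 34628931), (2, 528, 528, 33830481, 34878981), (2, 528, 528, 33830421, 33830421), (0, 18, 18, 52843536, 70411536), (14, 528, 528, 105972516, 105914691), (14, 528, 528, 105972546, 105979971), (13, 513, 513, 52495956, 34628931), (1, 33, 258, 52843536, 70411536), (1, 33, 258, 52843521, 70411521), (13, 528, 528, 102826836, 101721411), (1, 18, 18, 52843536, 70411536), (1, 18, 18, 52843521, 70411521), (13, 513, 513, 102826836, 101721411)]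
  [(0, 72), (1, -144), (2, 144), (13, -72), (14, 0)] = true := by
  decide +kernel

theorem t14_0_3 : chkS lk14 3 3 [(1, m14_0)] l14_3
  [(13, 528, 528, 52495956, 34628931), (14, 528, 528, 52495941, 33645891), (14, 528, 528, 52495956, 34628931), (0, 33, 258, 52843536, 70411536), (2, 513, 513, 33830421, 33830421), (2, 513, 513, 33830481, 34878981), (13, 513, 513, 52495956, 34628931), (14, 528, 528, 105972546, 105979971), (14, 528, 528, 105972516, 105914691), (0, 18, 18, 52843536, 70411536), (2, 528, 528, 33830421, 33830421), (2, 528, 528, 33830481, 34878981), (13, 513, 513, 102826836, 101721411), (1, 18, 18, 52843521, 70411521), (1, 18, 18, 52843536, 70411536), (13, 528, 528, 102826836, 101721411), (1, 33, 258, 52843521, 70411521), (1, 33, 258, 52843536, 70411536)]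
  [(1, -144), (14, 144)] = true := by
  decide +kernel

theorem t14_0_4 : chkS lk14 3 3 [(1, m14_0)] l14_4
  [(1, 18, 18, 38163201, 70592001), (14, 528, 528, 87098946, 39931971), (1, 18, 18, 38163216, 70592016), (14, 528, 528, 87098916, 39866691), (5, 18, 18, 37045761, 37967361), (5, 18, 18, 37045776, 37967376), (2, 528, 528, 6566421, 84161046), (2, 513, 513, 6566421, 84161046), (2, 528, 528, 6566481, 85209606), (2, 513, 513, 6566481, 85209606), (31, 528, 528, 55641186, 22175811), (31, 528, 528, 55641126, 5398851)]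
  [(1, 72), (2, -144), (5, 72), (14, 72), (31, -72)] = true := by
  decide +kernel

theorem t14_1_1 : chkS lk14 3 3 [(1, m14_1)] l14_1
  [(17, 513, 513, 102962256, 101860656), (21, 513, 513, 86185536, 39929136), (39, 288, 288, 52495686, 2188611), (32, 513, 513, 87295521, 40128771), (32, 33, 258, 55592466, 39018516), (21, 33, 258, 38876676, 38811201), (37, 528, 528, 102765651, 101844276), (35, 33, 258, 36717846, 2315796), (22, 513, 513, 38999136, 22169136), (34, 513, 513, 39060321, 22291971), (23, 513, 513, 40047696, 85083696), (35, 288, 288, 67314021, 17187621)]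
  [(17, 36), (21, 72), (22, -36), (23, -36), (32, 72), (34, -36), (35, -72), (37, -36), (39, 36)] = true := by
  decide +kernel

theorem t14_1_2 : chkS lk14 3 3 [(1, m14_1)] l14_2
  [(8, 33, 258, 106049796, 105919521), (32, 528, 528, 16922181, 33633381), (20, 33, 258, 72431106, 39202881), (32, 288, 288, 16983636, 34620261), (8, 513, 513, 106111296, 105988896), (20, 513, 513, 72554016, 39207216), (7, 33, 258, 88224006, 6632481), (35, 513, 513, 17184066, 69283941), (20, 33, 258, 105985026, 106049601), (11, 258, 33, 17179971, 69272421), (12, 528, 528, 106049856, 105985056), (33, 258, 33, 17183826, 68300901), (35, 33, 258, 16999716, 52445541), (7, 513, 513, 88285536, 23413536), (20, 513, 513, 106107936, 106053936), (12, 288, 288, 106111236, 105923361), (11, 18, 18, 16934196, 52434021), (33, 18, 18, 16999461, 50479461)]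
  [(8, 72), (11, -72), (12, -72), (20, 72), (32, 72), (33, -72), (35, 0)] = true := by
  decide +kernel

theorem t14_1_3 : chkS lk14 3 3 [(1, m14_1)] l14_3
  [(20, 513, 513, 72554016, 39207216), (8, 513, 513, 106111296, 105988896), (32, 288, 288, 16983636, 34620261), (20, 33, 258, 72431106, 39202881), (32, 528, 528, 16922181, 33633381), (8, 33, 258, 106049796, 105919521), (33, 258, 33, 17183826, 68300901), (12, 528, 528, 106049856, 105985056), (11, 258, 33, 17179971, 69272421), (20, 33, 258, 105985026, 106049601), (35, 513, 513, 17184066, 69283941), (7, 33, 258, 88224006, 6632481), (33, 18, 18, 16999461, 50479461), (11, 18, 18, 16934196, 52434021), (12, 288, 288, 106111236, 105923361), (20, 513, 513, 106107936, 106053936), (7, 513, 513, 88285536, 23413536), (35, 33, 258, 16999716, 52445541)]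
  [(7, -72), (8, 72), (32, 72), (35, -72)] = true := by
  decide +kernel

theorem t14_1_4 : chkS lk14 3 3 [(1, m14_1)] l14_4
  [(11, 528, 528, 68302176, 19280976), (12, 528, 528, 85079616, 39924816), (12, 288, 288, 85140996, 39863121), (11, 288, 288, 68363526, 2507601), (24, 258, 33, 22422576, 72487776), (38, 258, 33, 55968801, 72507651), (35, 513, 513, 5648706, 72429606), (32, 18, 18, 85083696, 40047696), (7, 33, 258, 68302086, 2503761), (8, 33, 258, 85079556, 39859281), (38, 528, 528, 38802531, 22152756), (25, 513, 513, 38999136, 22169136)]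
  [(7, -36), (8, -36), (11, 72), (12, 72), (24, 36), (25, -36), (32, -36), (35, -36), (38, 0)] = true := by
  decide +kernel

theorem t14_2_2 : chkS lk14 3 3 [(1, m14_2)] l14_2
  [(10, 33, 258, 106111236, 105923361), (21, 18, 18, 70668306, 70668306), (21, 18, 18, 70668546, 70668321), (29, 18, 18, 69619971, 70649121), (15, 513, 513, 106107456, 105988656), (15, 513, 513, 106107936, 106053936), (9, 33, 258, 88285446, 6636321), (23, 33, 258, 87318546, 56905746), (23, 33, 258, 87318786, 56905761), (1, 258, 33, 52696656, 34891056), (12, 528, 528, 105972291, 105972291), (12, 528, 528, 105972771, 106037571), (1, 528, 528, 68363856, 35013456), (12, 33, 258, 17191476, 70259301), (12, 33, 258, 17191716, 70263141), (14, 33, 258, 52842756, 70280481), (11, 528, 528, 88146531, 23396931), (11, 528, 528, 88147491, 40173891)]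
  [(1, -48), (9, 24), (10, 48), (11, -96), (12, -96), (14, -48), (15, 48), (21, 96), (23, 48), (29, 24)] = true := by
  decide +kernel

theorem t14_2_3 : chkS lk14 3 3 [(1, m14_2)] l14_3
  [(15, 513, 513, 106107936, 106053936), (15, 513, 513, 106107456, 105988656), (29, 18, 18, 69619971, 70649121), (21, 18, 18, 70668546, 70668321), (21, 18, 18, 70668306, 70668306), (10, 33, 258, 106111236, 105923361), (12, 528, 528, 105972771, 106037571), (12, 528, 528, 105972291, 105972291), (1, 258, 33, 52696656, 34891056), (23, 33, 258, 87318786, 56905761), (23, 33, 258, 87318546, 56905746), (9, 33, 258, 88285446, 6636321), (11, 528, 528, 88147491, 40173891), (11, 528, 528, 88146531, 23396931), (14, 33, 258, 52842756, 70280481), (12, 33, 258, 17191716, 70263141), (12, 33, 258, 17191476, 70259301), (1, 528, 528, 68363856, 35013456)]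
  [(1, -24), (9, -24), (10, 24), (11, -48), (12, -48), (14, -24), (15, 96), (21, 48), (23, -48), (29, 48)] = true := by
  decide +kernel

theorem t14_2_4 : chkS lk14 3 3 [(1, m14_2)] l14_4
  [(4, 18, 18, 39018516, 55592466), (4, 18, 18, 39018756, 55592481), (15, 513, 513, 40047696, 85083696), (34, 528, 528, 103875876, 102781251), (15, 513, 513, 40047936, 86066736), (34, 528, 528, 103875156, 101732931), (36, 528, 528, 55641636, 38822211), (36, 528, 528, 55640676, 22045251), (7, 18, 18, 51724806, 4416081), (8, 33, 258, 51794436, 70279761), (7, 18, 18, 51724326, 4415826), (8, 33, 258, 51793956, 70279506)]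
  [(4, 72), (7, -72), (8, -72), (15, 72), (34, 72), (36, -72)] = true := by
  decide +kernel

theorem t14_3_3 : chkS lk14 3 3 [(1, m14_3)] l14_3
  [(10, 513, 513, 106112016, 106054416), (21, 258, 33, 70668816, 70668816), (21, 258, 33, 70668801, 70668801), (29, 258, 33, 69620496, 70657296), (15, 33, 258, 106106946, 105988146), (15, 33, 258, 106106916, 105922866), (14, 513, 513, 52843536, 70411536), (11, 288, 288, 88146786, 23404611), (11, 288, 288, 88146726, 6627651), (1, 288, 288, 68362341, 17187666), (12, 513, 513, 17191986, 70389861), (12, 513, 513, 17191971, 70386021), (1, 18, 18, 52695141, 17065266), (12, 288, 288, 105972546, 105979971), (12, 288, 288, 105972516, 105914691), (9, 513, 513, 88286736, 40190736), (23, 513, 513, 87319056, 56906256), (23, 513, 513, 87319041, 56906241)]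
  [(1, -48), (9, -48), (10, 48), (11, 48), (12, -96), (14, 24), (15, 48), (21, 96), (23, -96), (29, 24)] = true := by
  decide +kernel

theorem t14_3_4 : chkS lk14 3 3 [(1, m14_3)] l14_4
  [(15, 513, 513, 37114881, 70407681), (34, 288, 288, 103875666, 101863491), (15, 513, 513, 37114896, 70407696), (34, 288, 288, 103875621, 100815171), (4, 258, 33, 39019536, 55723536), (4, 258, 33, 39019521, 55723521), (35, 18, 18, 102048576, 104932176), (12, 288, 288, 39912261, 83961411), (35, 18, 18, 102048516, 104866641), (12, 288, 288, 39912276, 84944451), (3, 513, 513, 39019521, 55723521), (3, 513, 513, 39019536, 55723536)]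
  [(3, -72), (4, 72), (12, -72), (15, 72), (34, 72), (35, -72)] = true := by
  decide +kernel

theorem t14_4_4 : chkS lk14 3 3 [(1, m14_4)] l14_4
  [(18, 258, 33, 39928581, 84092481), (27, 528, 528, 86251056, 40113456), (21, 18, 18, 37838901, 50665026), (34, 288, 288, 70587936, 38162736), (34, 528, 528, 70586976, 21385776), (21, 258, 33, 37839621, 50669121), (33, 288, 288, 54859296, 38101296), (20, 258, 33, 37839621, 50669121), (7, 528, 528, 39195456, 72427056), (11, 528, 528, 55972416, 72442416), (6, 528, 528, 39195696, 72488496), (7, 18, 18, 101863476, 103814226)]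
  [(6, -36), (7, -72), (11, -36), (18, 36), (20, -36), (21, 72), (27, 36), (33, -36), (34, 72)] = true := by
  decide +kernel

section

variable {κ ι : Type*} [Fintype κ] [Fintype ι] [Inhabited κ] [Inhabited ι]

noncomputable def F14_0 (E : Env κ ι) : (Fin 3 → κ) → (Fin 3 → ι) → ℝ := op2 (P2 κ) (P1 ι) (fB E 3 3 m14_0)

noncomputable def F14_1 (E : Env κ ι) : (Fin 3 → κ) → (Fin 3 → ι) → ℝ := op2 (P2 κ) (P1 ι) (fB E 3 3 m14_1)

noncomputable def F14_2 (E : Env κ ι) : (Fin 3 → κ) → (Fin 3 → ι) → ℝ := op2 (P2 κ) (P1 ι) (fB E 3 3 m14_2)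

noncomputable def F14_3 (E : Env κ ι) : (Fin 3 → κ) → (Fin 3 → ι) → ℝ := op2 (P2 κ) (P1 ι) (fB E 3 3 m14_3)

noncomputable def F14_4 (E : Env κ ι) : (Fin 3 → κ) → (Fin 3 → ι) → ℝ := op2 (P2 κ) (P1 ι) (fB E 3 3 m14_4)

def r14_0_0 : List (ℕ × ℤ) := [(13, -144), (16, 72), (26, 144), (28, -72)]

theorem h14_0_0 (E : Env κ ι) : ip (F14_0 E) (F14_0 E) = dotS (ek E lk14) r14_0_0 :=
  op_entryZ E lk14 3 3 _ _ _ _ (pg2 κ) (pg1 ι) m14_0 m14_0 l14_0 z14_0 w14_0 x14_0 (by decide) _ (chkS_sound E lk14 3 3 _ _ _ _ t14_0_0)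

def r14_0_1 : List (ℕ × ℤ) := [(1, -144), (2, 72), (19, 72), (29, 72), (30, -72)]

theorem h14_0_1 (E : Env κ ι) : ip (F14_0 E) (F14_1 E) = dotS (ek E lk14) r14_0_1 :=
  op_entryZ E lk14 3 3 _ _ _ _ (pg2 κ) (pg1 ι) m14_0 m14_1 l14_1 z14_1 w14_1 x14_1 (by decide) _ (chkS_sound E lk14 3 3 _ _ _ _ t14_0_1)

def r14_0_2 : List (ℕ × ℤ) := [(0, 72), (1, -144), (2, 144), (13, -72), (14, 0)]

theorem h14_0_2 (E : Env κ ι) : ip (F14_0 E) (F14_2 E) = dotS (ek E lk14) r14_0_2 :=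
  op_entryZ E lk14 3 3 _ _ _ _ (pg2 κ) (pg1 ι) m14_0 m14_2 l14_2 z14_2 w14_2 x14_2 (by decide) _ (chkS_sound E lk14 3 3 _ _ _ _ t14_0_2)

def r14_0_3 : List (ℕ × ℤ) := [(1, -144), (14, 144)]

theorem h14_0_3 (E : Env κ ι) : ip (F14_0 E) (F14_3 E) = dotS (ek E lk14) r14_0_3 :=
  op_entryZ E lk14 3 3 _ _ _ _ (pg2 κ) (pg1 ι) m14_0 m14_3 l14_3 z14_3 w14_3 x14_3 (by decide) _ (chkS_sound E lk14 3 3 _ _ _ _ t14_0_3)

def r14_0_4 : List (ℕ × ℤ) := [(1, 72), (2, -144), (5, 72), (14, 72), (31, -72)]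

theorem h14_0_4 (E : Env κ ι) : ip (F14_0 E) (F14_4 E) = dotS (ek E lk14) r14_0_4 :=
  op_entryZ E lk14 3 3 _ _ _ _ (pg2 κ) (pg1 ι) m14_0 m14_4 l14_4 z14_4 w14_4 x14_4 (by decide) _ (chkS_sound E lk14 3 3 _ _ _ _ t14_0_4)

def r14_1_1 : List (ℕ × ℤ) := [(17, 36), (21, 72), (22, -36), (23, -36), (32, 72), (34, -36), (35, -72), (37, -36), (39, 36)]

theorem h14_1_1 (E : Env κ ι) : ip (F14_1 E) (F14_1 E) = dotS (ek E lk14) r14_1_1 :=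
  op_entryZ E lk14 3 3 _ _ _ _ (pg2 κ) (pg1 ι) m14_1 m14_1 l14_1 z14_1 w14_1 x14_1 (by decide) _ (chkS_sound E lk14 3 3 _ _ _ _ t14_1_1)

def r14_1_2 : List (ℕ × ℤ) := [(8, 72), (11, -72), (12, -72), (20, 72), (32, 72), (33, -72), (35, 0)]

theorem h14_1_2 (E : Env κ ι) : ip (F14_1 E) (F14_2 E) = dotS (ek E lk14) r14_1_2 :=
  op_entryZ E lk14 3 3 _ _ _ _ (pg2 κ) (pg1 ι) m14_1 m14_2 l14_2 z14_2 w14_2 x14_2 (by decide) _ (chkS_sound E lk14 3 3 _ _ _ _ t14_1_2)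

def r14_1_3 : List (ℕ × ℤ) := [(7, -72), (8, 72), (32, 72), (35, -72)]

theorem h14_1_3 (E : Env κ ι) : ip (F14_1 E) (F14_3 E) = dotS (ek E lk14) r14_1_3 :=
  op_entryZ E lk14 3 3 _ _ _ _ (pg2 κ) (pg1 ι) m14_1 m14_3 l14_3 z14_3 w14_3 x14_3 (by decide) _ (chkS_sound E lk14 3 3 _ _ _ _ t14_1_3)

def r14_1_4 : List (ℕ × ℤ) := [(7, -36), (8, -36), (11, 72), (12, 72), (24, 36), (25, -36), (32, -36), (35, -36), (38, 0)]

theorem h14_1_4 (E : Env κ ι) : ip (F14_1 E) (F14_4 E) = dotS (ek E lk14) r14_1_4 :=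
  op_entryZ E lk14 3 3 _ _ _ _ (pg2 κ) (pg1 ι) m14_1 m14_4 l14_4 z14_4 w14_4 x14_4 (by decide) _ (chkS_sound E lk14 3 3 _ _ _ _ t14_1_4)

def r14_2_2 : List (ℕ × ℤ) := [(1, -48), (9, 24), (10, 48), (11, -96), (12, -96), (14, -48), (15, 48), (21, 96), (23, 48), (29, 24)]

theorem h14_2_2 (E : Env κ ι) : ip (F14_2 E) (F14_2 E) = dotS (ek E lk14) r14_2_2 :=
  op_entryZ E lk14 3 3 _ _ _ _ (pg2 κ) (pg1 ι) m14_2 m14_2 l14_2 z14_2 w14_2 x14_2 (by decide) _ (chkS_sound E lk14 3 3 _ _ _ _ t14_2_2)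

def r14_2_3 : List (ℕ × ℤ) := [(1, -24), (9, -24), (10, 24), (11, -48), (12, -48), (14, -24), (15, 96), (21, 48), (23, -48), (29, 48)]

theorem h14_2_3 (E : Env κ ι) : ip (F14_2 E) (F14_3 E) = dotS (ek E lk14) r14_2_3 :=
  op_entryZ E lk14 3 3 _ _ _ _ (pg2 κ) (pg1 ι) m14_2 m14_3 l14_3 z14_3 w14_3 x14_3 (by decide) _ (chkS_sound E lk14 3 3 _ _ _ _ t14_2_3)

def r14_2_4 : List (ℕ × ℤ) := [(4, 72), (7, -72), (8, -72), (15, 72), (34, 72), (36, -72)]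

theorem h14_2_4 (E : Env κ ι) : ip (F14_2 E) (F14_4 E) = dotS (ek E lk14) r14_2_4 :=
  op_entryZ E lk14 3 3 _ _ _ _ (pg2 κ) (pg1 ι) m14_2 m14_4 l14_4 z14_4 w14_4 x14_4 (by decide) _ (chkS_sound E lk14 3 3 _ _ _ _ t14_2_4)

def r14_3_3 : List (ℕ × ℤ) := [(1, -48), (9, -48), (10, 48), (11, 48), (12, -96), (14, 24), (15, 48), (21, 96), (23, -96), (29, 24)]

theorem h14_3_3 (E : Env κ ι) : ip (F14_3 E) (F14_3 E) = dotS (ek E lk14) r14_3_3 :=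
  op_entryZ E lk14 3 3 _ _ _ _ (pg2 κ) (pg1 ι) m14_3 m14_3 l14_3 z14_3 w14_3 x14_3 (by decide) _ (chkS_sound E lk14 3 3 _ _ _ _ t14_3_3)

def r14_3_4 : List (ℕ × ℤ) := [(3, -72), (4, 72), (12, -72), (15, 72), (34, 72), (35, -72)]

theorem h14_3_4 (E : Env κ ι) : ip (F14_3 E) (F14_4 E) = dotS (ek E lk14) r14_3_4 :=
  op_entryZ E lk14 3 3 _ _ _ _ (pg2 κ) (pg1 ι) m14_3 m14_4 l14_4 z14_4 w14_4 x14_4 (by decide) _ (chkS_sound E lk14 3 3 _ _ _ _ t14_3_4)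

def r14_4_4 : List (ℕ × ℤ) := [(6, -36), (7, -72), (11, -36), (18, 36), (20, -36), (21, 72), (27, 36), (33, -36), (34, 72)]

theorem h14_4_4 (E : Env κ ι) : ip (F14_4 E) (F14_4 E) = dotS (ek E lk14) r14_4_4 :=
  op_entryZ E lk14 3 3 _ _ _ _ (pg2 κ) (pg1 ι) m14_4 m14_4 l14_4 z14_4 w14_4 x14_4 (by decide) _ (chkS_sound E lk14 3 3 _ _ _ _ t14_4_4)

theorem row14_0 (E : Env κ ι) : RowG (ek E lk14) (F14_0 E) [F14_0 E, F14_1 E, F14_2 E, F14_3 E, F14_4 E] [r14_0_0, r14_0_1, r14_0_2, r14_0_3, r14_0_4] :=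
  rowG_cons _ _ _ _ _ _ (h14_0_0 E) (rowG_cons _ _ _ _ _ _ (h14_0_1 E) (rowG_cons _ _ _ _ _ _ (h14_0_2 E) (rowG_cons _ _ _ _ _ _ (h14_0_3 E) (rowG_cons _ _ _ _ _ _ (h14_0_4 E) (rowG_nil _ _)))))

theorem row14_1 (E : Env κ ι) : RowG (ek E lk14) (F14_1 E) [F14_1 E, F14_2 E, F14_3 E, F14_4 E] [r14_1_1, r14_1_2, r14_1_3, r14_1_4] :=
  rowG_cons _ _ _ _ _ _ (h14_1_1 E) (rowG_cons _ _ _ _ _ _ (h14_1_2 E) (rowG_cons _ _ _ _ _ _ (h14_1_3 E) (rowG_cons _ _ _ _ _ _ (h14_1_4 E) (rowG_nil _ _))))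

theorem row14_2 (E : Env κ ι) : RowG (ek E lk14) (F14_2 E) [F14_2 E, F14_3 E, F14_4 E] [r14_2_2, r14_2_3, r14_2_4] :=
  rowG_cons _ _ _ _ _ _ (h14_2_2 E) (rowG_cons _ _ _ _ _ _ (h14_2_3 E) (rowG_cons _ _ _ _ _ _ (h14_2_4 E) (rowG_nil _ _)))

theorem row14_3 (E : Env κ ι) : RowG (ek E lk14) (F14_3 E) [F14_3 E, F14_4 E] [r14_3_3, r14_3_4] :=
  rowG_cons _ _ _ _ _ _ (h14_3_3 E) (rowG_cons _ _ _ _ _ _ (h14_3_4 E) (rowG_nil _ _))

theorem row14_4 (E : Env κ ι) : RowG (ek E lk14) (F14_4 E) [F14_4 E] [r14_4_4] :=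
  rowG_cons _ _ _ _ _ _ (h14_4_4 E) (rowG_nil _ _)

def tab14 : List (List (List (ℕ × ℤ))) := [[r14_0_0, r14_0_1, r14_0_2, r14_0_3, r14_0_4], [r14_1_1, r14_1_2, r14_1_3, r14_1_4], [r14_2_2, r14_2_3, r14_2_4], [r14_3_3, r14_3_4], [r14_4_4]]

theorem tri14 (E : Env κ ι) : TriG (ek E lk14) [F14_0 E, F14_1 E, F14_2 E, F14_3 E, F14_4 E] tab14 := by
  refine triG_cons _ _ _ _ _ (row14_0 E) ?_
  refine triG_cons _ _ _ _ _ (row14_1 E) ?_
  refine triG_cons _ _ _ _ _ (row14_2 E) ?_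
  refine triG_cons _ _ _ _ _ (row14_3 E) ?_
  refine triG_cons _ _ _ _ _ (row14_4 E) ?_
  exact triG_nil _

end

def lk15 : List Key := [
  (3, 7, [(0, [0], [0, 1]), (0, [1], [0, 2]), (0, [0], [2, 3]), (0, [2], [1, 4]), (0, [1], [5, 6]), (0, [2], [5, 6]), (4, [], [3]), (4, [], [4])]),
  (3, 7, [(0, [0], [0, 1]), (0, [0], [0, 1]), (0, [1], [2, 3]), (4, [], [3]), (0, [2], [4, 5]), (0, [2], [2, 6]), (0, [1], [4, 6]), (4, [], [5])]),
  (3, 7, [(0, [0], [0, 1]), (0, [0], [0, 1]), (0, [1], [2, 3]), (4, [], [3]), (0, [2], [4, 5]), (0, [2], [2, 4]), (0, [1], [5, 6]), (4, [], [6])]),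
  (3, 7, [(0, [0], [0, 1]), (0, [0], [2, 3]), (0, [1], [0, 3]), (4, [], [1]), (0, [2], [4, 5]), (0, [2], [2, 6]), (0, [1], [4, 6]), (4, [], [5])]),
  (3, 7, [(0, [0], [0, 1]), (0, [0], [2, 3]), (0, [1], [0, 3]), (4, [], [1]), (0, [2], [4, 5]), (0, [2], [2, 4]), (0, [1], [5, 6]), (4, [], [6])]),
  (3, 7, [(0, [0], [0, 1]), (0, [0], [2, 3]), (0, [1], [0, 1]), (4, [], [3]), (0, [2], [4, 5]), (0, [2], [2, 4]), (0, [1], [5, 6]), (4, [], [6])]),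
  (3, 7, [(0, [0], [0, 1]), (0, [0], [2, 0]), (0, [1], [1, 3]), (4, [], [3]), (0, [2], [4, 5]), (0, [2], [2, 4]), (0, [1], [5, 6]), (4, [], [6])]),
  (3, 7, [(0, [0], [0, 1]), (0, [0], [2, 0]), (0, [1], [3, 1]), (4, [], [4]), (0, [2], [5, 6]), (0, [2], [3, 4]), (0, [1], [2, 5]), (4, [], [6])]),
  (3, 7, [(0, [0], [0, 1]), (0, [0], [2, 0]), (0, [1], [3, 1]), (4, [], [4]), (0, [2], [3, 5]), (0, [2], [2, 6]), (0, [1], [4, 6]), (4, [], [5])]),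
  (3, 7, [(0, [0], [0, 1]), (0, [0], [2, 3]), (0, [1], [0, 1]), (4, [], [4]), (0, [2], [5, 6]), (0, [2], [2, 4]), (0, [1], [3, 5]), (4, [], [6])])]

def kl15 : List ℕ := [57, 119, 120, 125, 126, 133, 144, 221, 223, 267]

def m15_0 : Base := (0, 2, [(0, [0], [3, 4]), (0, [1], [0, 3]), (0, [2], [1, 2]), (4, [], [4])])

def l15_0 : Cov := [(72, 0, 2, [(0, [0], [3, 4]), (0, [1], [0, 3]), (0, [2], [1, 2]), (4, [], [4])]),
  (72, 0, 2, [(0, [0], [3, 4]), (0, [1], [1, 3]), (0, [2], [0, 2]), (4, [], [4])]),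
  (72, 0, 2, [(0, [0], [3, 4]), (0, [1], [2, 3]), (0, [2], [0, 1]), (4, [], [4])]),
  (-72, 0, 2, [(0, [0], [3, 4]), (0, [2], [0, 3]), (0, [1], [1, 2]), (4, [], [4])]),
  (-72, 0, 2, [(0, [0], [3, 4]), (0, [2], [1, 3]), (0, [1], [0, 2]), (4, [], [4])]),
  (-72, 0, 2, [(0, [0], [3, 4]), (0, [2], [2, 3]), (0, [1], [0, 1]), (4, [], [4])]),
  (-72, 0, 2, [(0, [1], [3, 4]), (0, [0], [0, 3]), (0, [2], [1, 2]), (4, [], [4])]),
  (-72, 0, 2, [(0, [1], [3, 4]), (0, [0], [1, 3]), (0, [2], [0, 2]), (4, [], [4])]),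
  (-72, 0, 2, [(0, [1], [3, 4]), (0, [0], [2, 3]), (0, [2], [0, 1]), (4, [], [4])]),
  (72, 0, 2, [(0, [1], [3, 4]), (0, [2], [0, 3]), (0, [0], [1, 2]), (4, [], [4])]),
  (72, 0, 2, [(0, [1], [3, 4]), (0, [2], [1, 3]), (0, [0], [0, 2]), (4, [], [4])]),
  (72, 0, 2, [(0, [1], [3, 4]), (0, [2], [2, 3]), (0, [0], [0, 1]), (4, [], [4])]),
  (72, 0, 2, [(0, [2], [3, 4]), (0, [0], [0, 3]), (0, [1], [1, 2]), (4, [], [4])]),
  (72, 0, 2, [(0, [2], [3, 4]), (0, [0], [1, 3]), (0, [1], [0, 2]), (4, [], [4])]),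
  (72, 0, 2, [(0, [2], [3, 4]), (0, [0], [2, 3]), (0, [1], [0, 1]), (4, [], [4])]),
  (-72, 0, 2, [(0, [2], [3, 4]), (0, [1], [0, 3]), (0, [0], [1, 2]), (4, [], [4])]),
  (-72, 0, 2, [(0, [2], [3, 4]), (0, [1], [1, 3]), (0, [0], [0, 2]), (4, [], [4])]),
  (-72, 0, 2, [(0, [2], [3, 4]), (0, [1], [2, 3]), (0, [0], [0, 1]), (4, [], [4])])]

def z15_0 : Cov := []

def w15_0 : List (List Wit) := [[(0, 0, 0, 16, 16), (0, 0, 0, 16, 16), (1, 0, 0, 16, 16), (1, 0, 0, 16, 16), (2, 0, 0, 16, 16), (2, 0, 0, 16, 16)],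
  [(3, 0, 0, 16, 16), (3, 0, 0, 16, 16), (4, 0, 0, 16, 16), (4, 0, 0, 16, 16), (5, 0, 0, 16, 16), (5, 0, 0, 16, 16)],
  [(6, 0, 0, 16, 16), (6, 0, 0, 16, 16), (7, 0, 0, 16, 16), (7, 0, 0, 16, 16), (8, 0, 0, 16, 16), (8, 0, 0, 16, 16)],
  [(9, 0, 0, 16, 16), (9, 0, 0, 16, 16), (10, 0, 0, 16, 16), (10, 0, 0, 16, 16), (11, 0, 0, 16, 16), (11, 0, 0, 16, 16)],
  [(12, 0, 0, 16, 16), (12, 0, 0, 16, 16), (13, 0, 0, 16, 16), (13, 0, 0, 16, 16), (14, 0, 0, 16, 16), (14, 0, 0, 16, 16)],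
  [(15, 0, 0, 16, 16), (15, 0, 0, 16, 16), (16, 0, 0, 16, 16), (16, 0, 0, 16, 16), (17, 0, 0, 16, 16), (17, 0, 0, 16, 16)]]

theorem tr15 : trK keys lk15 kl15 = true := by
  decide +kernel

theorem x15_0 : expB 3 3 dg3 dg1 m15_0 (l15_0 ++ z15_0) w15_0 = true := by
  decide +kernel

theorem t15_0_0 : chkS lk15 3 3 [(1, m15_0)] l15_0
  [(2, 33, 258, 106111236, 105923361), (7, 18, 18, 70668306, 70668306), (7, 18, 18, 70668546, 70668321), (9, 18, 18, 69619971, 70649121), (6, 513, 513, 106107456, 105988656), (6, 513, 513, 106107936, 106053936), (1, 33, 258, 88285446, 6636321), (8, 33, 258, 87318546, 56905746), (8, 33, 258, 87318786, 56905761), (0, 258, 33, 52696656, 34891056), (4, 528, 528, 105972291, 105972291), (4, 528, 528, 105972771, 106037571), (0, 528, 528, 68363856, 35013456), (4, 33, 258, 17191476, 70259301), (4, 33, 258, 17191716, 70263141), (5, 33, 258,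 52842756, 70280481), (3, 528, 528, 88146531, 23396931), (3, 528, 528, 88147491, 40173891)]
  [(0, 144), (1, -72), (2, 72), (3, -144), (4, 288), (5, -72), (6, -144), (7, 144), (8, -144), (9, -72)] = true := by
  decide +kernel

section

variable {κ ι : Type*} [Fintype κ] [Fintype ι] [Inhabited κ] [Inhabited ι]

noncomputable def F15_0 (E : Env κ ι) : (Fin 3 → κ) → (Fin 3 → ι) → ℝ := op2 (P3 κ) (P1 ι) (fB E 3 3 m15_0)

def r15_0_0 : List (ℕ × ℤ) := [(0, 144), (1, -72), (2, 72), (3, -144), (4, 288), (5, -72), (6, -144), (7, 144), (8, -144), (9, -72)]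

theorem h15_0_0 (E : Env κ ι) : ip (F15_0 E) (F15_0 E) = dotS (ek E lk15) r15_0_0 :=
  op_entryZ E lk15 3 3 _ _ _ _ (pg3 κ) (pg1 ι) m15_0 m15_0 l15_0 z15_0 w15_0 x15_0 (by decide) _ (chkS_sound E lk15 3 3 _ _ _ _ t15_0_0)

theorem row15_0 (E : Env κ ι) : RowG (ek E lk15) (F15_0 E) [F15_0 E] [r15_0_0] :=
  rowG_cons _ _ _ _ _ _ (h15_0_0 E) (rowG_nil _ _)

def tab15 : List (List (List (ℕ × ℤ))) := [[r15_0_0]]

theorem tri15 (E : Env κ ι) : TriG (ek E lk15) [F15_0 E] tab15 := by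
  refine triG_cons _ _ _ _ _ (row15_0 E) ?_
  exact triG_nil _

end

def lk16 : List Key := [
  (3, 7, [(0, [0], [0, 1]), (0, [0], [0, 1]), (0, [1], [2, 3]), (0, [2], [2, 4]), (0, [2], [5, 6]), (0, [1], [5, 6]), (4, [], [4]), (4, [], [3])]),
  (3, 7, [(0, [0], [0, 1]), (0, [1], [0, 2]), (0, [0], [2, 3]), (0, [2], [1, 4]), (0, [1], [5, 6]), (0, [2], [5, 6]), (4, [], [3]), (4, [], [4])]),
  (3, 7, [(0, [0], [0, 1]), (0, [1], [0, 2]), (0, [0], [3, 4]), (0, [1], [3, 4]), (0, [2], [1, 5]), (0, [2], [5, 6]), (4, [], [2]), (4, [], [6])]),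
  (3, 7, [(0, [0], [0, 1]), (0, [0], [0, 2]), (0, [1], [1, 2]), (4, [], [3]), (0, [2], [4, 5]), (0, [2], [4, 6]), (0, [1], [3, 6]), (4, [], [5])]),
  (3, 7, [(0, [0], [0, 1]), (0, [0], [0, 2]), (0, [1], [1, 2]), (4, [], [3]), (0, [2], [4, 5]), (0, [2], [3, 6]), (0, [1], [4, 6]), (4, [], [5])]),
  (3, 7, [(0, [0], [0, 1]), (0, [0], [0, 2]), (0, [1], [1, 2]), (4, [], [3]), (0, [2], [4, 5]), (0, [2], [3, 6]), (0, [1], [4, 5]), (4, [], [6])]),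
  (3, 7, [(0, [0], [0, 1]), (0, [0], [0, 2]), (0, [1], [3, 2]), (4, [], [1]), (0, [2], [4, 5]), (0, [2], [4, 6]), (0, [1], [3, 6]), (4, [], [5])]),
  (3, 7, [(0, [0], [0, 1]), (0, [0], [0, 2]), (0, [1], [3, 2]), (4, [], [1]), (0, [2], [4, 5]), (0, [2], [3, 6]), (0, [1], [4, 6]), (4, [], [5])]),
  (3, 7, [(0, [0], [0, 1]), (0, [0], [0, 2]), (0, [1], [3, 2]), (4, [], [1]), (0, [2], [4, 5]), (0, [2], [3, 4]), (0, [1], [5, 6]), (4, [], [6])]),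
  (3, 7, [(0, [0], [0, 1]), (0, [0], [0, 1]), (0, [1], [2, 3]), (4, [], [3]), (0, [2], [4, 5]), (0, [2], [2, 6]), (0, [1], [4, 6]), (4, [], [5])]),
  (3, 7, [(0, [0], [0, 1]), (0, [0], [0, 1]), (0, [1], [2, 3]), (4, [], [3]), (0, [2], [4, 5]), (0, [2], [2, 4]), (0, [1], [5, 6]), (4, [], [6])]),
  (3, 7, [(0, [0], [0, 1]), (0, [0], [2, 3]), (0, [1], [0, 3]), (4, [], [1]), (0, [2], [4, 5]), (0, [2], [2, 6]), (0, [1], [4, 6]), (4, [], [5])]),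
  (3, 7, [(0, [0], [0, 1]), (0, [0], [2, 3]), (0, [1], [0, 3]), (4, [], [1]), (0, [2], [4, 5]), (0, [2], [2, 4]), (0, [1], [5, 6]), (4, [], [6])]),
  (3, 7, [(0, [0], [0, 1]), (0, [0], [2, 3]), (0, [1], [0, 1]), (4, [], [3]), (0, [2], [4, 5]), (0, [2], [2, 6]), (0, [1], [4, 5]), (4, [], [6])]),
  (3, 7, [(0, [0], [0, 1]), (0, [0], [2, 3]), (0, [1], [0, 1]), (4, [], [3]), (0, [2], [4, 5]), (0, [2], [2, 4]), (0, [1], [5, 6]), (4, [], [6])]),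
  (3, 7, [(0, [0], [0, 1]), (0, [0], [2, 0]), (0, [1], [1, 3]), (4, [], [3]), (0, [2], [4, 5]), (0, [2], [2, 4]), (0, [1], [5, 6]), (4, [], [6])]),
  (3, 7, [(0, [0], [0, 1]), (0, [0], [0, 1]), (0, [1], [2, 3]), (4, [], [4]), (0, [2], [5, 6]), (0, [2], [2, 3]), (0, [1], [5, 6]), (4, [], [4])]),
  (3, 7, [(0, [0], [0, 1]), (0, [0], [2, 0]), (0, [1], [3, 1]), (4, [], [4]), (0, [2], [5, 6]), (0, [2], [3, 5]), (0, [1], [2, 6]), (4, [], [4])]),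
  (3, 7, [(0, [0], [0, 1]), (0, [0], [2, 0]), (0, [1], [3, 1]), (4, [], [4]), (0, [2], [5, 6]), (0, [2], [4, 5]), (0, [1], [2, 3]), (4, [], [6])]),
  (3, 7, [(0, [0], [0, 1]), (0, [0], [2, 0]), (0, [1], [3, 1]), (4, [], [4]), (0, [2], [5, 6]), (0, [2], [2, 3]), (0, [1], [5, 6]), (4, [], [4])]),
  (3, 7, [(0, [0], [0, 1]), (0, [0], [2, 0]), (0, [1], [3, 1]), (4, [], [4]), (0, [2], [5, 6]), (0, [2], [2, 3]), (0, [1], [4, 5]), (4, [], [6])]),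
  (3, 7, [(0, [0], [0, 1]), (0, [0], [2, 0]), (0, [1], [3, 1]), (4, [], [4]), (0, [2], [5, 6]), (0, [2], [3, 4]), (0, [1], [2, 5]), (4, [], [6])]),
  (3, 7, [(0, [0], [0, 1]), (0, [0], [2, 0]), (0, [1], [3, 1]), (4, [], [4]), (0, [2], [2, 5]), (0, [2], [3, 6]), (0, [1], [5, 6]), (4, [], [4])]),
  (3, 7, [(0, [0], [0, 1]), (0, [0], [2, 0]), (0, [1], [3, 1]), (4, [], [4]), (0, [2], [3, 5]), (0, [2], [2, 6]), (0, [1], [4, 6]), (4, [], [5])]),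
  (3, 7, [(0, [0], [0, 1]), (0, [0], [2, 0]), (0, [1], [3, 1]), (4, [], [4]), (0, [2], [4, 5]), (0, [2], [2, 6]), (0, [1], [3, 6]), (4, [], [5])]),
  (3, 7, [(0, [0], [0, 1]), (0, [0], [2, 0]), (0, [1], [3, 1]), (4, [], [4]), (0, [2], [4, 5]), (0, [2], [3, 6]), (0, [1], [2, 6]), (4, [], [5])]),
  (3, 7, [(0, [0], [0, 1]), (0, [0], [2, 0]), (0, [1], [3, 4]), (4, [], [1]), (0, [2], [5, 6]), (0, [2], [3, 4]), (0, [1], [5, 6]), (4, [], [2])]),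
  (3, 7, [(0, [0], [0, 1]), (0, [0], [2, 0]), (0, [1], [3, 4]), (4, [], [1]), (0, [2], [3, 5]), (0, [2], [4, 6]), (0, [1], [5, 6]), (4, [], [2])]),
  (3, 7, [(0, [0], [0, 1]), (0, [0], [2, 3]), (0, [1], [0, 1]), (4, [], [4]), (0, [2], [5, 6]), (0, [2], [2, 3]), (0, [1], [5, 6]), (4, [], [4])]),
  (3, 7, [(0, [0], [0, 1]), (0, [0], [2, 3]), (0, [1], [0, 1]), (4, [], [4]), (0, [2], [5, 6]), (0, [2], [2, 4]), (0, [1], [3, 5]), (4, [], [6])]),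
  (3, 7, [(0, [0], [0, 1]), (0, [0], [2, 3]), (0, [1], [0, 1]), (4, [], [4]), (0, [2], [2, 5]), (0, [2], [3, 6]), (0, [1], [5, 6]), (4, [], [4])]),
  (3, 7, [(0, [0], [0, 1]), (0, [0], [2, 3]), (0, [1], [0, 1]), (4, [], [4]), (0, [2], [4, 5]), (0, [2], [2, 6]), (0, [1], [3, 6]), (4, [], [5])]),
  (3, 7, [(0, [0], [0, 1]), (0, [0], [2, 3]), (0, [1], [4, 0]), (4, [], [1]), (0, [2], [5, 6]), (0, [2], [2, 4]), (0, [1], [3, 5]), (4, [], [6])]),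
  (3, 7, [(0, [0], [0, 1]), (0, [0], [2, 3]), (0, [1], [4, 0]), (4, [], [1]), (0, [2], [2, 5]), (0, [2], [3, 6]), (0, [1], [5, 6]), (4, [], [4])]),
  (3, 7, [(0, [0], [0, 1]), (0, [0], [2, 3]), (0, [1], [4, 0]), (4, [], [1]), (0, [2], [2, 5]), (0, [2], [4, 6]), (0, [1], [5, 6]), (4, [], [3])]),
  (3, 7, [(0, [0], [0, 1]), (0, [0], [2, 3]), (0, [1], [4, 0]), (4, [], [1]), (0, [2], [2, 5]), (0, [2], [4, 6]), (0, [1], [3, 6]), (4, [], [5])]),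
  (3, 7, [(0, [0], [0, 1]), (0, [0], [2, 3]), (0, [1], [4, 0]), (4, [], [1]), (0, [2], [4, 5]), (0, [2], [2, 6]), (0, [1], [3, 6]), (4, [], [5])]),
  (3, 7, [(0, [0], [0, 1]), (0, [0], [2, 3]), (0, [1], [1, 3]), (4, [], [4]), (0, [2], [0, 5]), (0, [2], [2, 6]), (0, [1], [5, 6]), (4, [], [4])]),
  (3, 7, [(0, [0], [0, 1]), (0, [0], [2, 3]), (0, [1], [1, 3]), (4, [], [4]), (0, [2], [4, 5]), (0, [2], [0, 6]), (0, [1], [2, 6]), (4, [], [5])]),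
  (3, 7, [(0, [0], [0, 1]), (0, [0], [2, 3]), (0, [1], [4, 1]), (4, [], [5]), (0, [2], [0, 6]), (0, [2], [2, 4]), (0, [1], [3, 6]), (4, [], [5])])]

def kl16 : List ℕ := [14, 57, 58, 95, 97, 98, 109, 111, 112, 119, 120, 125, 126, 132, 133, 144, 205, 217, 218, 219, 220, 221, 222, 223, 224, 225, 252, 253, 266, 267, 268, 269, 284, 285, 286, 287, 288, 302, 303, 429]

def m16_0 : Base := (0, 2, [(0, [0], [3, 4]), (0, [1], [3, 4]), (0, [2], [0, 1]), (4, [], [2])])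

def l16_0 : Cov := [(72, 0, 2, [(0, [0], [3, 4]), (0, [1], [3, 4]), (0, [2], [0, 1]), (4, [], [2])]),
  (-72, 0, 2, [(0, [0], [3, 4]), (0, [1], [3, 4]), (0, [2], [1, 2]), (4, [], [0])]),
  (72, 0, 2, [(0, [0], [3, 4]), (0, [2], [3, 4]), (0, [1], [0, 1]), (4, [], [2])]),
  (-72, 0, 2, [(0, [0], [3, 4]), (0, [2], [3, 4]), (0, [1], [1, 2]), (4, [], [0])]),
  (72, 0, 2, [(0, [1], [3, 4]), (0, [2], [3, 4]), (0, [0], [0, 1]), (4, [], [2])]),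
  (-72, 0, 2, [(0, [1], [3, 4]), (0, [2], [3, 4]), (0, [0], [1, 2]), (4, [], [0])])]

def z16_0 : Cov := [(0, 0, 2, [(0, [0], [3, 4]), (0, [1], [3, 4]), (0, [2], [0, 2]), (4, [], [1])]),
  (0, 0, 2, [(0, [0], [3, 4]), (0, [2], [3, 4]), (0, [1], [0, 2]), (4, [], [1])]),
  (0, 0, 2, [(0, [1], [3, 4]), (0, [2], [3, 4]), (0, [0], [0, 2]), (4, [], [1])])]

def w16_0 : List (List Wit) := [[(0, 0, 0, 16, 16), (6, 0, 0, 16, 16), (0, 0, 0, 16, 16), (1, 0, 0, 16, 16), (6, 0, 0, 16, 16), (1, 0, 0, 16, 16)],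
  [(2, 0, 0, 16, 16), (7, 0, 0, 16, 16), (2, 0, 0, 16, 16), (3, 0, 0, 16, 16), (7, 0, 0, 16, 16), (3, 0, 0, 16, 16)],
  [(0, 0, 0, 16, 16), (6, 0, 0, 16, 16), (0, 0, 0, 16, 16), (1, 0, 0, 16, 16), (6, 0, 0, 16, 16), (1, 0, 0, 16, 16)],
  [(4, 0, 0, 16, 16), (8, 0, 0, 16, 16), (4, 0, 0, 16, 16), (5, 0, 0, 16, 16), (8, 0, 0, 16, 16), (5, 0, 0, 16, 16)],
  [(2, 0, 0, 16, 16), (7, 0, 0, 16, 16), (2, 0, 0, 16, 16), (3, 0, 0, 16, 16), (7, 0, 0, 16, 16), (3, 0, 0, 16, 16)],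
  [(4, 0, 0, 16, 16), (8, 0, 0, 16, 16), (4, 0, 0, 16, 16), (5, 0, 0, 16, 16), (8, 0, 0, 16, 16), (5, 0, 0, 16, 16)]]

def m16_1 : Base := (0, 2, [(0, [0], [3, 4]), (0, [1], [0, 3]), (0, [2], [1, 4]), (4, [], [2])])

def l16_1 : Cov := [(36, 0, 2, [(0, [0], [3, 4]), (0, [1], [0, 3]), (0, [2], [1, 4]), (4, [], [2])]),
  (36, 0, 2, [(0, [0], [3, 4]), (0, [1], [1, 3]), (0, [2], [0, 4]), (4, [], [2])]),
  (-36, 0, 2, [(0, [0], [3, 4]), (0, [1], [1, 3]), (0, [2], [2, 4]), (4, [], [0])]),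
  (-36, 0, 2, [(0, [0], [3, 4]), (0, [1], [2, 3]), (0, [2], [1, 4]), (4, [], [0])]),
  (36, 0, 2, [(0, [1], [3, 4]), (0, [0], [0, 3]), (0, [2], [1, 4]), (4, [], [2])]),
  (36, 0, 2, [(0, [1], [3, 4]), (0, [0], [1, 3]), (0, [2], [0, 4]), (4, [], [2])]),
  (-36, 0, 2, [(0, [1], [3, 4]), (0, [0], [1, 3]), (0, [2], [2, 4]), (4, [], [0])]),
  (-36, 0, 2, [(0, [1], [3, 4]), (0, [0], [2, 3]), (0, [2], [1, 4]), (4, [], [0])]),
  (36, 0, 2, [(0, [2], [3, 4]), (0, [0], [0, 3]), (0, [1], [1, 4]), (4, [], [2])]),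
  (36, 0, 2, [(0, [2], [3, 4]), (0, [0], [1, 3]), (0, [1], [0, 4]), (4, [], [2])]),
  (-36, 0, 2, [(0, [2], [3, 4]), (0, [0], [1, 3]), (0, [1], [2, 4]), (4, [], [0])]),
  (-36, 0, 2, [(0, [2], [3, 4]), (0, [0], [2, 3]), (0, [1], [1, 4]), (4, [], [0])])]

def z16_1 : Cov := [(0, 0, 2, [(0, [0], [3, 4]), (0, [1], [0, 3]), (0, [2], [2, 4]), (4, [], [1])]),
  (0, 0, 2, [(0, [0], [3, 4]), (0, [1], [2, 3]), (0, [2], [0, 4]), (4, [], [1])]),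
  (0, 0, 2, [(0, [1], [3, 4]), (0, [0], [0, 3]), (0, [2], [2, 4]), (4, [], [1])]),
  (0, 0, 2, [(0, [1], [3, 4]), (0, [0], [2, 3]), (0, [2], [0, 4]), (4, [], [1])]),
  (0, 0, 2, [(0, [2], [3, 4]), (0, [0], [0, 3]), (0, [1], [2, 4]), (4, [], [1])]),
  (0, 0, 2, [(0, [2], [3, 4]), (0, [0], [2, 3]), (0, [1], [0, 4]), (4, [], [1])])]

def w16_1 : List (List Wit) := [[(0, 0, 0, 16, 16), (12, 0, 0, 16, 16), (1, 0, 0, 16, 16), (2, 0, 0, 16, 16), (13, 0, 0, 16, 16), (3, 0, 0, 16, 16)],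
  [(1, 0, 0, 1, 1), (13, 0, 0, 1, 1), (0, 0, 0, 1, 1), (3, 0, 0, 1, 1), (12, 0, 0, 1, 1), (2, 0, 0, 1, 1)],
  [(4, 0, 0, 16, 16), (14, 0, 0, 16, 16), (5, 0, 0, 16, 16), (6, 0, 0, 16, 16), (15, 0, 0, 16, 16), (7, 0, 0, 16, 16)],
  [(5, 0, 0, 1, 1), (15, 0, 0, 1, 1), (4, 0, 0, 1, 1), (7, 0, 0, 1, 1), (14, 0, 0, 1, 1), (6, 0, 0, 1, 1)],
  [(8, 0, 0, 16, 16), (16, 0, 0, 16, 16), (9, 0, 0, 16, 16), (10, 0, 0, 16, 16), (17, 0, 0, 16, 16), (11, 0, 0, 16, 16)],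
  [(9, 0, 0, 1, 1), (17, 0, 0, 1, 1), (8, 0, 0, 1, 1), (11, 0, 0, 1, 1), (16, 0, 0, 1, 1), (10, 0, 0, 1, 1)]]

def m16_2 : Base := (0, 2, [(0, [0], [3, 4]), (0, [1], [0, 3]), (0, [2], [1, 2]), (4, [], [4])])

def l16_2 : Cov := [(36, 0, 2, [(0, [0], [3, 4]), (0, [1], [0, 3]), (0, [2], [1, 2]), (4, [], [4])]),
  (-36, 0, 2, [(0, [0], [3, 4]), (0, [1], [2, 3]), (0, [2], [0, 1]), (4, [], [4])]),
  (36, 0, 2, [(0, [0], [3, 4]), (0, [2], [0, 3]), (0, [1], [1, 2]), (4, [], [4])]),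
  (-36, 0, 2, [(0, [0], [3, 4]), (0, [2], [2, 3]), (0, [1], [0, 1]), (4, [], [4])]),
  (36, 0, 2, [(0, [1], [3, 4]), (0, [0], [0, 3]), (0, [2], [1, 2]), (4, [], [4])]),
  (-36, 0, 2, [(0, [1], [3, 4]), (0, [0], [2, 3]), (0, [2], [0, 1]), (4, [], [4])]),
  (36, 0, 2, [(0, [1], [3, 4]), (0, [2], [0, 3]), (0, [0], [1, 2]), (4, [], [4])]),
  (-36, 0, 2, [(0, [1], [3, 4]), (0, [2], [2, 3]), (0, [0], [0, 1]), (4, [], [4])]),
  (36, 0, 2, [(0, [2], [3, 4]), (0, [0], [0, 3]), (0, [1], [1, 2]), (4, [], [4])]),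
  (-36, 0, 2, [(0, [2], [3, 4]), (0, [0], [2, 3]), (0, [1], [0, 1]), (4, [], [4])]),
  (36, 0, 2, [(0, [2], [3, 4]), (0, [1], [0, 3]), (0, [0], [1, 2]), (4, [], [4])]),
  (-36, 0, 2, [(0, [2], [3, 4]), (0, [1], [2, 3]), (0, [0], [0, 1]), (4, [], [4])])]

def z16_2 : Cov := [(0, 0, 2, [(0, [0], [3, 4]), (0, [1], [1, 3]), (0, [2], [0, 2]), (4, [], [4])]),
  (0, 0, 2, [(0, [0], [3, 4]), (0, [2], [1, 3]), (0, [1], [0, 2]), (4, [], [4])]),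
  (0, 0, 2, [(0, [1], [3, 4]), (0, [0], [1, 3]), (0, [2], [0, 2]), (4, [], [4])]),
  (0, 0, 2, [(0, [1], [3, 4]), (0, [2], [1, 3]), (0, [0], [0, 2]), (4, [], [4])]),
  (0, 0, 2, [(0, [2], [3, 4]), (0, [0], [1, 3]), (0, [1], [0, 2]), (4, [], [4])]),
  (0, 0, 2, [(0, [2], [3, 4]), (0, [1], [1, 3]), (0, [0], [0, 2]), (4, [], [4])])]

def w16_2 : List (List Wit) := [[(0, 0, 0, 16, 16), (0, 0, 0, 16, 16), (12, 0, 0, 16, 16), (12, 0, 0, 16, 16), (1, 0, 0, 16, 16), (1, 0, 0, 16, 16)],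
  [(2, 0, 0, 16, 16), (2, 0, 0, 16, 16), (13, 0, 0, 16, 16), (13, 0, 0, 16, 16), (3, 0, 0, 16, 16), (3, 0, 0, 16, 16)],
  [(4, 0, 0, 16, 16), (4, 0, 0, 16, 16), (14, 0, 0, 16, 16), (14, 0, 0, 16, 16), (5, 0, 0, 16, 16), (5, 0, 0, 16, 16)],
  [(6, 0, 0, 16, 16), (6, 0, 0, 16, 16), (15, 0, 0, 16, 16), (15, 0, 0, 16, 16), (7, 0, 0, 16, 16), (7, 0, 0, 16, 16)],
  [(8, 0, 0, 16, 16), (8, 0, 0, 16, 16), (16, 0, 0, 16, 16), (16, 0, 0, 16, 16), (9, 0, 0, 16, 16), (9, 0, 0, 16, 16)],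
  [(10, 0, 0, 16, 16), (10, 0, 0, 16, 16), (17, 0, 0, 16, 16), (17, 0, 0, 16, 16), (11, 0, 0, 16, 16), (11, 0, 0, 16, 16)]]

def m16_3 : Base := (0, 2, [(0, [0], [0, 3]), (0, [1], [1, 4]), (0, [2], [2, 4]), (4, [], [3])])

def l16_3 : Cov := [(36, 0, 2, [(0, [0], [0, 3]), (0, [1], [1, 4]), (0, [2], [2, 4]), (4, [], [3])]),
  (36, 0, 2, [(0, [0], [0, 3]), (0, [1], [2, 4]), (0, [2], [1, 4]), (4, [], [3])]),
  (-36, 0, 2, [(0, [0], [2, 3]), (0, [1], [0, 4]), (0, [2], [1, 4]), (4, [], [3])]),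
  (-36, 0, 2, [(0, [0], [2, 3]), (0, [1], [1, 4]), (0, [2], [0, 4]), (4, [], [3])]),
  (36, 0, 2, [(0, [1], [0, 3]), (0, [0], [1, 4]), (0, [2], [2, 4]), (4, [], [3])]),
  (36, 0, 2, [(0, [1], [0, 3]), (0, [0], [2, 4]), (0, [2], [1, 4]), (4, [], [3])]),
  (-36, 0, 2, [(0, [1], [2, 3]), (0, [0], [0, 4]), (0, [2], [1, 4]), (4, [], [3])]),
  (-36, 0, 2, [(0, [1], [2, 3]), (0, [0], [1, 4]), (0, [2], [0, 4]), (4, [], [3])]),
  (36, 0, 2, [(0, [2], [0, 3]), (0, [0], [1, 4]), (0, [1], [2, 4]), (4, [], [3])]),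
  (36, 0, 2, [(0, [2], [0, 3]), (0, [0], [2, 4]), (0, [1], [1, 4]), (4, [], [3])]),
  (-36, 0, 2, [(0, [2], [2, 3]), (0, [0], [0, 4]), (0, [1], [1, 4]), (4, [], [3])]),
  (-36, 0, 2, [(0, [2], [2, 3]), (0, [0], [1, 4]), (0, [1], [0, 4]), (4, [], [3])])]

def z16_3 : Cov := [(0, 0, 2, [(0, [0], [1, 3]), (0, [1], [0, 4]), (0, [2], [2, 4]), (4, [], [3])]),
  (0, 0, 2, [(0, [0], [1, 3]), (0, [1], [2, 4]), (0, [2], [0, 4]), (4, [], [3])]),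
  (0, 0, 2, [(0, [1], [1, 3]), (0, [0], [0, 4]), (0, [2], [2, 4]), (4, [], [3])]),
  (0, 0, 2, [(0, [1], [1, 3]), (0, [0], [2, 4]), (0, [2], [0, 4]), (4, [], [3])]),
  (0, 0, 2, [(0, [2], [1, 3]), (0, [0], [0, 4]), (0, [1], [2, 4]), (4, [], [3])]),
  (0, 0, 2, [(0, [2], [1, 3]), (0, [0], [2, 4]), (0, [1], [0, 4]), (4, [], [3])])]

def w16_3 : List (List Wit) := [[(0, 0, 0, 16, 16), (1, 0, 0, 16, 16), (12, 0, 0, 16, 16), (13, 0, 0, 16, 16), (2, 0, 0, 16, 16), (3, 0, 0, 16, 16)],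
  [(1, 0, 0, 16, 16), (0, 0, 0, 16, 16), (13, 0, 0, 16, 16), (12, 0, 0, 16, 16), (3, 0, 0, 16, 16), (2, 0, 0, 16, 16)],
  [(4, 0, 0, 16, 16), (5, 0, 0, 16, 16), (14, 0, 0, 16, 16), (15, 0, 0, 16, 16), (6, 0, 0, 16, 16), (7, 0, 0, 16, 16)],
  [(5, 0, 0, 16, 16), (4, 0, 0, 16, 16), (15, 0, 0, 16, 16), (14, 0, 0, 16, 16), (7, 0, 0, 16, 16), (6, 0, 0, 16, 16)],
  [(8, 0, 0, 16, 16), (9, 0, 0, 16, 16), (16, 0, 0, 16, 16), (17, 0, 0, 16, 16), (10, 0, 0, 16, 16), (11, 0, 0, 16, 16)],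
  [(9, 0, 0, 16, 16), (8, 0, 0, 16, 16), (17, 0, 0, 16, 16), (16, 0, 0, 16, 16), (11, 0, 0, 16, 16), (10, 0, 0, 16, 16)]]

theorem tr16 : trK keys lk16 kl16 = true := by
  decide +kernel

theorem x16_0 : expB 3 3 dg1 dg2 m16_0 (l16_0 ++ z16_0) w16_0 = true := by
  decide +kernel

theorem x16_1 : expB 3 3 dg1 dg2 m16_1 (l16_1 ++ z16_1) w16_1 = true := by
  decide +kernel

theorem x16_2 : expB 3 3 dg1 dg2 m16_2 (l16_2 ++ z16_2) w16_2 = true := by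
  decide +kernel

theorem x16_3 : expB 3 3 dg1 dg2 m16_3 (l16_3 ++ z16_3) w16_3 = true := by
  decide +kernel

theorem t16_0_0 : chkS lk16 3 3 [(1, m16_0)] l16_0
  [(16, 33, 258, 106112016, 106054416), (26, 33, 258, 106181121, 106181121), (28, 528, 528, 52495461, 16934211), (13, 513, 513, 88146726, 6627651), (28, 528, 528, 105972786, 106041411), (13, 528, 528, 88146726, 6627651)]
  [(13, -144), (16, 72), (26, -72), (28, 144)] = true := by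
  decide +kernel

theorem t16_0_1 : chkS lk16 3 3 [(1, m16_0)] l16_1
  [(19, 18, 18, 37114881, 70407681), (19, 18, 18, 37114896, 70407696), (29, 528, 528, 36766806, 1201731), (2, 528, 528, 17052246, 1323621), (19, 33, 258, 37114881, 70407681), (19, 33, 258, 37114896, 70407696), (29, 528, 528, 87098916, 39866691), (2, 513, 513, 17052246, 1323621), (30, 528, 528, 103875666, 101863491), (30, 528, 528, 103875621, 100815171), (1, 33, 258, 17191971, 70386021), (1, 18, 18, 1463331, 70386006)]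
  [(1, -72), (2, -72), (19, 144), (29, -72), (30, 72)] = true := by
  decide +kernel

theorem t16_0_2 : chkS lk16 3 3 [(1, m16_0)] l16_2
  [(2, 513, 513, 33830481, 34878981), (0, 33, 258, 52843536, 70411536), (14, 528, 528, 52495956, 34628931), (13, 528, 528, 52495956, 34628931), (2, 528, 528, 33830481, 34878981), (0, 18, 18, 52843536, 70411536), (14, 528, 528, 105972516, 105914691), (13, 513, 513, 52495956, 34628931), (1, 33, 258, 52843536, 70411536), (13, 528, 528, 102826836, 101721411), (1, 18, 18, 52843536, 70411536), (13, 513, 513, 102826836, 101721411)]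
  [(0, -72), (1, 72), (2, 72), (13, -144), (14, 72)] = true := by
  decide +kernel

theorem t16_0_3 : chkS lk16 3 3 [(1, m16_0)] l16_3
  [(1, 18, 18, 38163201, 70592001), (14, 528, 528, 87098946, 39931971), (5, 18, 18, 37045761, 37967361), (5, 18, 18, 37045776, 37967376), (1, 33, 258, 38163201, 70592001), (14, 528, 528, 39912261, 83961411), (5, 33, 258, 37045761, 37967361), (5, 33, 258, 37045776, 37967376), (2, 528, 528, 6566421, 84161046), (2, 513, 513, 6566421, 84161046), (31, 528, 528, 55641186, 22175811), (31, 528, 528, 55641126, 5398851)]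
  [(1, 72), (2, 72), (5, -144), (14, 72), (31, -72)] = true := by
  decide +kernel

theorem t16_1_1 : chkS lk16 3 3 [(1, m16_1)] l16_1
  [(17, 513, 513, 102962256, 101860656), (39, 288, 288, 52495686, 2188611), (32, 513, 513, 87295521, 40128771), (21, 33, 258, 38876676, 38811201), (22, 33, 258, 38876166, 5387841), (37, 288, 288, 102827061, 100799811), (35, 513, 513, 36963681, 19158531), (23, 33, 258, 39924741, 84031041), (37, 528, 528, 102765651, 101844276), (22, 513, 513, 38999136, 22169136), (34, 513, 513, 39060321, 22291971), (35, 288, 288, 67314021, 17187621)]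
  [(17, 36), (21, -36), (22, 72), (23, -36), (32, -36), (34, -36), (35, -72), (37, 72), (39, 36)] = true := by
  decide +kernel

theorem t16_1_2 : chkS lk16 3 3 [(1, m16_1)] l16_2
  [(8, 33, 258, 106049796, 105919521), (20, 33, 258, 72431106, 39202881), (32, 288, 288, 16983636, 34620261), (20, 513, 513, 72554016, 39207216), (7, 33, 258, 88224006, 6632481), (20, 33, 258, 105985026, 106049601), (11, 258, 33, 17179971, 69272421), (33, 258, 33, 17183826, 68300901), (35, 33, 258, 16999716, 52445541), (20, 513, 513, 106107936, 106053936), (12, 288, 288, 106111236, 105923361), (33, 18, 18, 16999461, 50479461)]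
  [(7, 36), (8, 36), (11, 36), (12, 36), (20, -144), (32, 36), (33, -72), (35, 36)] = true := by
  decide +kernel

theorem t16_1_3 : chkS lk16 3 3 [(1, m16_1)] l16_3
  [(11, 528, 528, 68302176, 19280976), (12, 528, 528, 85079616, 39924816), (24, 258, 33, 22422576, 72487776), (38, 258, 33, 55968801, 72507651), (7, 513, 513, 68363616, 19284816), (8, 513, 513, 85141056, 39928656), (25, 33, 258, 38876166, 5387841), (38, 288, 288, 38863926, 5379651), (35, 513, 513, 5648706, 72429606), (32, 18, 18, 85083696, 40047696), (38, 528, 528, 38802531, 22152756), (25, 513, 513, 38999136, 22169136)]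
  [(7, 36), (8, 36), (11, 36), (12, 36), (24, -36), (25, -72), (32, 36), (35, 36), (38, -108)] = true := by
  decide +kernel

theorem t16_2_2 : chkS lk16 3 3 [(1, m16_2)] l16_2
  [(10, 33, 258, 106111236, 105923361), (21, 18, 18, 70668546, 70668321), (29, 18, 18, 69619971, 70649121), (15, 513, 513, 106107936, 106053936), (9, 33, 258, 88285446, 6636321), (23, 33, 258, 87318786, 56905761), (1, 258, 33, 52696656, 34891056), (12, 528, 528, 105972771, 106037571), (1, 528, 528, 68363856, 35013456), (12, 33, 258, 17191716, 70263141), (14, 33, 258, 52842756, 70280481), (11, 528, 528, 88147491, 40173891)]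
  [(1, 72), (9, 36), (10, 36), (11, -36), (12, -72), (14, 36), (15, -36), (21, -36), (23, -36), (29, 36)] = true := by
  decide +kernel

theorem t16_2_3 : chkS lk16 3 3 [(1, m16_2)] l16_3
  [(4, 18, 18, 39018516, 55592466), (4, 18, 18, 39018756, 55592481), (15, 513, 513, 40047936, 86066736), (34, 528, 528, 103875156, 101732931), (3, 33, 258, 39018516, 55592466), (3, 33, 258, 39018756, 55592481), (12, 528, 528, 39912771, 86050371), (35, 258, 33, 102047811, 104923986), (36, 528, 528, 55641636, 38822211), (36, 528, 528, 55640676, 22045251), (7, 18, 18, 51724326, 4415826), (8, 33, 258, 51793956, 70279506)]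
  [(3, 72), (4, 72), (7, -36), (8, -36), (12, -36), (15, -36), (34, -36), (35, -36), (36, 72)] = true := by
  decide +kernel

theorem t16_3_3 : chkS lk16 3 3 [(1, m16_3)] l16_3
  [(18, 258, 33, 39928581, 84092481), (27, 528, 528, 86251056, 40113456), (34, 528, 528, 70586976, 21385776), (21, 258, 33, 37839621, 50669121), (20, 18, 18, 37838901, 50665026), (33, 528, 528, 54858336, 21324336), (7, 288, 288, 39195696, 72488496), (11, 288, 288, 55972896, 72507696), (33, 288, 288, 54859296, 38101296), (20, 258, 33, 37839621, 50669121), (6, 528, 528, 39195696, 72488496), (7, 18, 18, 101863476, 103814226)]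
  [(6, -36), (7, -72), (11, -36), (18, 36), (20, 72), (21, -36), (27, 36), (33, 72), (34, -36)] = true := by
  decide +kernel

section

variable {κ ι : Type*} [Fintype κ] [Fintype ι] [Inhabited κ] [Inhabited ι]

noncomputable def F16_0 (E : Env κ ι) : (Fin 3 → κ) → (Fin 3 → ι) → ℝ := op2 (P1 κ) (P2 ι) (fB E 3 3 m16_0)

noncomputable def F16_1 (E : Env κ ι) : (Fin 3 → κ) → (Fin 3 → ι) → ℝ := op2 (P1 κ) (P2 ι) (fB E 3 3 m16_1)

noncomputable def F16_2 (E : Env κ ι) : (Fin 3 → κ) → (Fin 3 → ι) → ℝ := op2 (P1 κ) (P2 ι) (fB E 3 3 m16_2)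

noncomputable def F16_3 (E : Env κ ι) : (Fin 3 → κ) → (Fin 3 → ι) → ℝ := op2 (P1 κ) (P2 ι) (fB E 3 3 m16_3)

def r16_0_0 : List (ℕ × ℤ) := [(13, -144), (16, 72), (26, -72), (28, 144)]

theorem h16_0_0 (E : Env κ ι) : ip (F16_0 E) (F16_0 E) = dotS (ek E lk16) r16_0_0 :=
  op_entryZ E lk16 3 3 _ _ _ _ (pg1 κ) (pg2 ι) m16_0 m16_0 l16_0 z16_0 w16_0 x16_0 (by decide) _ (chkS_sound E lk16 3 3 _ _ _ _ t16_0_0)

def r16_0_1 : List (ℕ × ℤ) := [(1, -72), (2, -72), (19, 144), (29, -72), (30, 72)]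

theorem h16_0_1 (E : Env κ ι) : ip (F16_0 E) (F16_1 E) = dotS (ek E lk16) r16_0_1 :=
  op_entryZ E lk16 3 3 _ _ _ _ (pg1 κ) (pg2 ι) m16_0 m16_1 l16_1 z16_1 w16_1 x16_1 (by decide) _ (chkS_sound E lk16 3 3 _ _ _ _ t16_0_1)

def r16_0_2 : List (ℕ × ℤ) := [(0, -72), (1, 72), (2, 72), (13, -144), (14, 72)]

theorem h16_0_2 (E : Env κ ι) : ip (F16_0 E) (F16_2 E) = dotS (ek E lk16) r16_0_2 :=
  op_entryZ E lk16 3 3 _ _ _ _ (pg1 κ) (pg2 ι) m16_0 m16_2 l16_2 z16_2 w16_2 x16_2 (by decide) _ (chkS_sound E lk16 3 3 _ _ _ _ t16_0_2)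

def r16_0_3 : List (ℕ × ℤ) := [(1, 72), (2, 72), (5, -144), (14, 72), (31, -72)]

theorem h16_0_3 (E : Env κ ι) : ip (F16_0 E) (F16_3 E) = dotS (ek E lk16) r16_0_3 :=
  op_entryZ E lk16 3 3 _ _ _ _ (pg1 κ) (pg2 ι) m16_0 m16_3 l16_3 z16_3 w16_3 x16_3 (by decide) _ (chkS_sound E lk16 3 3 _ _ _ _ t16_0_3)

def r16_1_1 : List (ℕ × ℤ) := [(17, 36), (21, -36), (22, 72), (23, -36), (32, -36), (34, -36), (35, -72), (37, 72), (39, 36)]

theorem h16_1_1 (E : Env κ ι) : ip (F16_1 E) (F16_1 E) = dotS (ek E lk16) r16_1_1 :=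
  op_entryZ E lk16 3 3 _ _ _ _ (pg1 κ) (pg2 ι) m16_1 m16_1 l16_1 z16_1 w16_1 x16_1 (by decide) _ (chkS_sound E lk16 3 3 _ _ _ _ t16_1_1)

def r16_1_2 : List (ℕ × ℤ) := [(7, 36), (8, 36), (11, 36), (12, 36), (20, -144), (32, 36), (33, -72), (35, 36)]

theorem h16_1_2 (E : Env κ ι) : ip (F16_1 E) (F16_2 E) = dotS (ek E lk16) r16_1_2 :=
  op_entryZ E lk16 3 3 _ _ _ _ (pg1 κ) (pg2 ι) m16_1 m16_2 l16_2 z16_2 w16_2 x16_2 (by decide) _ (chkS_sound E lk16 3 3 _ _ _ _ t16_1_2)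

def r16_1_3 : List (ℕ × ℤ) := [(7, 36), (8, 36), (11, 36), (12, 36), (24, -36), (25, -72), (32, 36), (35, 36), (38, -108)]

theorem h16_1_3 (E : Env κ ι) : ip (F16_1 E) (F16_3 E) = dotS (ek E lk16) r16_1_3 :=
  op_entryZ E lk16 3 3 _ _ _ _ (pg1 κ) (pg2 ι) m16_1 m16_3 l16_3 z16_3 w16_3 x16_3 (by decide) _ (chkS_sound E lk16 3 3 _ _ _ _ t16_1_3)

def r16_2_2 : List (ℕ × ℤ) := [(1, 72), (9, 36), (10, 36), (11, -36), (12, -72), (14, 36), (15, -36), (21, -36), (23, -36), (29, 36)]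

theorem h16_2_2 (E : Env κ ι) : ip (F16_2 E) (F16_2 E) = dotS (ek E lk16) r16_2_2 :=
  op_entryZ E lk16 3 3 _ _ _ _ (pg1 κ) (pg2 ι) m16_2 m16_2 l16_2 z16_2 w16_2 x16_2 (by decide) _ (chkS_sound E lk16 3 3 _ _ _ _ t16_2_2)

def r16_2_3 : List (ℕ × ℤ) := [(3, 72), (4, 72), (7, -36), (8, -36), (12, -36), (15, -36), (34, -36), (35, -36), (36, 72)]

theorem h16_2_3 (E : Env κ ι) : ip (F16_2 E) (F16_3 E) = dotS (ek E lk16) r16_2_3 :=
  op_entryZ E lk16 3 3 _ _ _ _ (pg1 κ) (pg2 ι) m16_2 m16_3 l16_3 z16_3 w16_3 x16_3 (by decide) _ (chkS_sound E lk16 3 3 _ _ _ _ t16_2_3)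

def r16_3_3 : List (ℕ × ℤ) := [(6, -36), (7, -72), (11, -36), (18, 36), (20, 72), (21, -36), (27, 36), (33, 72), (34, -36)]

theorem h16_3_3 (E : Env κ ι) : ip (F16_3 E) (F16_3 E) = dotS (ek E lk16) r16_3_3 :=
  op_entryZ E lk16 3 3 _ _ _ _ (pg1 κ) (pg2 ι) m16_3 m16_3 l16_3 z16_3 w16_3 x16_3 (by decide) _ (chkS_sound E lk16 3 3 _ _ _ _ t16_3_3)

theorem row16_0 (E : Env κ ι) : RowG (ek E lk16) (F16_0 E) [F16_0 E, F16_1 E, F16_2 E, F16_3 E] [r16_0_0, r16_0_1, r16_0_2, r16_0_3] :=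
  rowG_cons _ _ _ _ _ _ (h16_0_0 E) (rowG_cons _ _ _ _ _ _ (h16_0_1 E) (rowG_cons _ _ _ _ _ _ (h16_0_2 E) (rowG_cons _ _ _ _ _ _ (h16_0_3 E) (rowG_nil _ _))))

theorem row16_1 (E : Env κ ι) : RowG (ek E lk16) (F16_1 E) [F16_1 E, F16_2 E, F16_3 E] [r16_1_1, r16_1_2, r16_1_3] :=
  rowG_cons _ _ _ _ _ _ (h16_1_1 E) (rowG_cons _ _ _ _ _ _ (h16_1_2 E) (rowG_cons _ _ _ _ _ _ (h16_1_3 E) (rowG_nil _ _)))

theorem row16_2 (E : Env κ ι) : RowG (ek E lk16) (F16_2 E) [F16_2 E, F16_3 E] [r16_2_2, r16_2_3] :=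
  rowG_cons _ _ _ _ _ _ (h16_2_2 E) (rowG_cons _ _ _ _ _ _ (h16_2_3 E) (rowG_nil _ _))

theorem row16_3 (E : Env κ ι) : RowG (ek E lk16) (F16_3 E) [F16_3 E] [r16_3_3] :=
  rowG_cons _ _ _ _ _ _ (h16_3_3 E) (rowG_nil _ _)

def tab16 : List (List (List (ℕ × ℤ))) := [[r16_0_0, r16_0_1, r16_0_2, r16_0_3], [r16_1_1, r16_1_2, r16_1_3], [r16_2_2, r16_2_3], [r16_3_3]]

theorem tri16 (E : Env κ ι) : TriG (ek E lk16) [F16_0 E, F16_1 E, F16_2 E, F16_3 E] tab16 := by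
  refine triG_cons _ _ _ _ _ (row16_0 E) ?_
  refine triG_cons _ _ _ _ _ (row16_1 E) ?_
  refine triG_cons _ _ _ _ _ (row16_2 E) ?_
  refine triG_cons _ _ _ _ _ (row16_3 E) ?_
  exact triG_nil _

end

def lk17 : List Key := [
  (3, 7, [(0, [0], [0, 1]), (0, [0], [0, 1]), (0, [1], [2, 3]), (0, [2], [2, 4]), (0, [2], [5, 6]), (0, [1], [5, 6]), (4, [], [4]), (4, [], [3])]),
  (3, 7, [(0, [0], [0, 1]), (0, [1], [0, 2]), (0, [0], [2, 3]), (0, [2], [1, 4]), (0, [1], [5, 6]), (0, [2], [5, 6]), (4, [], [3]), (4, [], [4])]),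
  (3, 7, [(0, [0], [0, 1]), (0, [1], [0, 2]), (0, [0], [3, 4]), (0, [1], [3, 4]), (0, [2], [1, 5]), (0, [2], [5, 6]), (4, [], [2]), (4, [], [6])]),
  (3, 7, [(0, [0], [0, 1]), (0, [0], [0, 2]), (0, [1], [1, 2]), (4, [], [3]), (0, [2], [4, 5]), (0, [2], [4, 6]), (0, [1], [3, 6]), (4, [], [5])]),
  (3, 7, [(0, [0], [0, 1]), (0, [0], [0, 2]), (0, [1], [1, 2]), (4, [], [3]), (0, [2], [4, 5]), (0, [2], [3, 6]), (0, [1], [4, 6]), (4, [], [5])]),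
  (3, 7, [(0, [0], [0, 1]), (0, [0], [0, 2]), (0, [1], [1, 2]), (4, [], [3]), (0, [2], [4, 5]), (0, [2], [3, 6]), (0, [1], [4, 5]), (4, [], [6])]),
  (3, 7, [(0, [0], [0, 1]), (0, [0], [0, 2]), (0, [1], [3, 2]), (4, [], [1]), (0, [2], [4, 5]), (0, [2], [4, 6]), (0, [1], [3, 6]), (4, [], [5])]),
  (3, 7, [(0, [0], [0, 1]), (0, [0], [0, 2]), (0, [1], [3, 2]), (4, [], [1]), (0, [2], [4, 5]), (0, [2], [3, 6]), (0, [1], [4, 6]), (4, [], [5])]),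
  (3, 7, [(0, [0], [0, 1]), (0, [0], [0, 2]), (0, [1], [3, 2]), (4, [], [1]), (0, [2], [4, 5]), (0, [2], [3, 4]), (0, [1], [5, 6]), (4, [], [6])]),
  (3, 7, [(0, [0], [0, 1]), (0, [0], [0, 1]), (0, [1], [2, 3]), (4, [], [3]), (0, [2], [4, 5]), (0, [2], [2, 6]), (0, [1], [4, 6]), (4, [], [5])]),
  (3, 7, [(0, [0], [0, 1]), (0, [0], [0, 1]), (0, [1], [2, 3]), (4, [], [3]), (0, [2], [4, 5]), (0, [2], [2, 4]), (0, [1], [5, 6]), (4, [], [6])]),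
  (3, 7, [(0, [0], [0, 1]), (0, [0], [2, 3]), (0, [1], [0, 3]), (4, [], [1]), (0, [2], [4, 5]), (0, [2], [2, 6]), (0, [1], [4, 6]), (4, [], [5])]),
  (3, 7, [(0, [0], [0, 1]), (0, [0], [2, 3]), (0, [1], [0, 3]), (4, [], [1]), (0, [2], [4, 5]), (0, [2], [2, 4]), (0, [1], [5, 6]), (4, [], [6])]),
  (3, 7, [(0, [0], [0, 1]), (0, [0], [2, 3]), (0, [1], [0, 1]), (4, [], [3]), (0, [2], [4, 5]), (0, [2], [2, 6]), (0, [1], [4, 5]), (4, [], [6])]),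
  (3, 7, [(0, [0], [0, 1]), (0, [0], [2, 3]), (0, [1], [0, 1]), (4, [], [3]), (0, [2], [4, 5]), (0, [2], [2, 4]), (0, [1], [5, 6]), (4, [], [6])]),
  (3, 7, [(0, [0], [0, 1]), (0, [0], [2, 0]), (0, [1], [1, 3]), (4, [], [3]), (0, [2], [4, 5]), (0, [2], [2, 4]), (0, [1], [5, 6]), (4, [], [6])]),
  (3, 7, [(0, [0], [0, 1]), (0, [0], [0, 1]), (0, [1], [2, 3]), (4, [], [4]), (0, [2], [5, 6]), (0, [2], [2, 3]), (0, [1], [5, 6]), (4, [], [4])]),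
  (3, 7, [(0, [0], [0, 1]), (0, [0], [2, 0]), (0, [1], [3, 1]), (4, [], [4]), (0, [2], [5, 6]), (0, [2], [3, 5]), (0, [1], [2, 6]), (4, [], [4])]),
  (3, 7, [(0, [0], [0, 1]), (0, [0], [2, 0]), (0, [1], [3, 1]), (4, [], [4]), (0, [2], [5, 6]), (0, [2], [4, 5]), (0, [1], [2, 3]), (4, [], [6])]),
  (3, 7, [(0, [0], [0, 1]), (0, [0], [2, 0]), (0, [1], [3, 1]), (4, [], [4]), (0, [2], [5, 6]), (0, [2], [2, 3]), (0, [1], [5, 6]), (4, [], [4])]),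
  (3, 7, [(0, [0], [0, 1]), (0, [0], [2, 0]), (0, [1], [3, 1]), (4, [], [4]), (0, [2], [5, 6]), (0, [2], [2, 3]), (0, [1], [4, 5]), (4, [], [6])]),
  (3, 7, [(0, [0], [0, 1]), (0, [0], [2, 0]), (0, [1], [3, 1]), (4, [], [4]), (0, [2], [5, 6]), (0, [2], [3, 4]), (0, [1], [2, 5]), (4, [], [6])]),
  (3, 7, [(0, [0], [0, 1]), (0, [0], [2, 0]), (0, [1], [3, 1]), (4, [], [4]), (0, [2], [2, 5]), (0, [2], [3, 6]), (0, [1], [5, 6]), (4, [], [4])]),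
  (3, 7, [(0, [0], [0, 1]), (0, [0], [2, 0]), (0, [1], [3, 1]), (4, [], [4]), (0, [2], [3, 5]), (0, [2], [2, 6]), (0, [1], [4, 6]), (4, [], [5])]),
  (3, 7, [(0, [0], [0, 1]), (0, [0], [2, 0]), (0, [1], [3, 1]), (4, [], [4]), (0, [2], [4, 5]), (0, [2], [2, 6]), (0, [1], [3, 6]), (4, [], [5])]),
  (3, 7, [(0, [0], [0, 1]), (0, [0], [2, 0]), (0, [1], [3, 1]), (4, [], [4]), (0, [2], [4, 5]), (0, [2], [3, 6]), (0, [1], [2, 6]), (4, [], [5])]),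
  (3, 7, [(0, [0], [0, 1]), (0, [0], [2, 0]), (0, [1], [3, 4]), (4, [], [1]), (0, [2], [5, 6]), (0, [2], [3, 4]), (0, [1], [5, 6]), (4, [], [2])]),
  (3, 7, [(0, [0], [0, 1]), (0, [0], [2, 0]), (0, [1], [3, 4]), (4, [], [1]), (0, [2], [3, 5]), (0, [2], [4, 6]), (0, [1], [5, 6]), (4, [], [2])]),
  (3, 7, [(0, [0], [0, 1]), (0, [0], [2, 3]), (0, [1], [0, 1]), (4, [], [4]), (0, [2], [5, 6]), (0, [2], [2, 3]), (0, [1], [5, 6]), (4, [], [4])]),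
  (3, 7, [(0, [0], [0, 1]), (0, [0], [2, 3]), (0, [1], [0, 1]), (4, [], [4]), (0, [2], [5, 6]), (0, [2], [2, 4]), (0, [1], [3, 5]), (4, [], [6])]),
  (3, 7, [(0, [0], [0, 1]), (0, [0], [2, 3]), (0, [1], [0, 1]), (4, [], [4]), (0, [2], [2, 5]), (0, [2], [3, 6]), (0, [1], [5, 6]), (4, [], [4])]),
  (3, 7, [(0, [0], [0, 1]), (0, [0], [2, 3]), (0, [1], [0, 1]), (4, [], [4]), (0, [2], [4, 5]), (0, [2], [2, 6]), (0, [1], [3, 6]), (4, [], [5])]),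
  (3, 7, [(0, [0], [0, 1]), (0, [0], [2, 3]), (0, [1], [4, 0]), (4, [], [1]), (0, [2], [5, 6]), (0, [2], [2, 4]), (0, [1], [3, 5]), (4, [], [6])]),
  (3, 7, [(0, [0], [0, 1]), (0, [0], [2, 3]), (0, [1], [4, 0]), (4, [], [1]), (0, [2], [2, 5]), (0, [2], [3, 6]), (0, [1], [5, 6]), (4, [], [4])]),
  (3, 7, [(0, [0], [0, 1]), (0, [0], [2, 3]), (0, [1], [4, 0]), (4, [], [1]), (0, [2], [2, 5]), (0, [2], [4, 6]), (0, [1], [5, 6]), (4, [], [3])]),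
  (3, 7, [(0, [0], [0, 1]), (0, [0], [2, 3]), (0, [1], [4, 0]), (4, [], [1]), (0, [2], [2, 5]), (0, [2], [4, 6]), (0, [1], [3, 6]), (4, [], [5])]),
  (3, 7, [(0, [0], [0, 1]), (0, [0], [2, 3]), (0, [1], [4, 0]), (4, [], [1]), (0, [2], [4, 5]), (0, [2], [2, 6]), (0, [1], [3, 6]), (4, [], [5])]),
  (3, 7, [(0, [0], [0, 1]), (0, [0], [2, 3]), (0, [1], [1, 3]), (4, [], [4]), (0, [2], [0, 5]), (0, [2], [2, 6]), (0, [1], [5, 6]), (4, [], [4])]),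
  (3, 7, [(0, [0], [0, 1]), (0, [0], [2, 3]), (0, [1], [1, 3]), (4, [], [4]), (0, [2], [4, 5]), (0, [2], [0, 6]), (0, [1], [2, 6]), (4, [], [5])]),
  (3, 7, [(0, [0], [0, 1]), (0, [0], [2, 3]), (0, [1], [4, 1]), (4, [], [5]), (0, [2], [0, 6]), (0, [2], [2, 4]), (0, [1], [3, 6]), (4, [], [5])])]

def kl17 : List ℕ := [14, 57, 58, 95, 97, 98, 109, 111, 112, 119, 120, 125, 126, 132, 133, 144, 205, 217, 218, 219, 220, 221, 222, 223, 224, 225, 252, 253, 266, 267, 268, 269, 284, 285, 286, 287, 288, 302, 303, 429]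

def m17_0 : Base := (0, 2, [(0, [0], [3, 4]), (0, [1], [3, 4]), (0, [2], [0, 1]), (4, [], [2])])

def l17_0 : Cov := [(36, 0, 2, [(0, [0], [3, 4]), (0, [1], [3, 4]), (0, [2], [0, 1]), (4, [], [2])]),
  (-36, 0, 2, [(0, [0], [3, 4]), (0, [1], [3, 4]), (0, [2], [1, 2]), (4, [], [0])]),
  (-36, 0, 2, [(0, [1], [3, 4]), (0, [2], [3, 4]), (0, [0], [0, 1]), (4, [], [2])]),
  (36, 0, 2, [(0, [1], [3, 4]), (0, [2], [3, 4]), (0, [0], [1, 2]), (4, [], [0])])]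

def z17_0 : Cov := [(0, 0, 2, [(0, [0], [3, 4]), (0, [1], [3, 4]), (0, [2], [0, 2]), (4, [], [1])]),
  (0, 0, 2, [(0, [0], [3, 4]), (0, [2], [3, 4]), (0, [1], [0, 1]), (4, [], [2])]),
  (0, 0, 2, [(0, [0], [3, 4]), (0, [2], [3, 4]), (0, [1], [0, 2]), (4, [], [1])]),
  (0, 0, 2, [(0, [0], [3, 4]), (0, [2], [3, 4]), (0, [1], [1, 2]), (4, [], [0])]),
  (0, 0, 2, [(0, [1], [3, 4]), (0, [2], [3, 4]), (0, [0], [0, 2]), (4, [], [1])])]

def w17_0 : List (List Wit) := [[(0, 0, 0, 16, 16), (4, 0, 0, 16, 16), (0, 0, 0, 16, 16), (1, 0, 0, 16, 16), (4, 0, 0, 16, 16), (1, 0, 0, 16, 16)],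
  [(5, 0, 0, 16, 16), (6, 0, 0, 16, 16), (5, 0, 0, 16, 16), (7, 0, 0, 16, 16), (6, 0, 0, 16, 16), (7, 0, 0, 16, 16)],
  [(0, 0, 0, 16, 16), (4, 0, 0, 16, 16), (0, 0, 0, 16, 16), (1, 0, 0, 16, 16), (4, 0, 0, 16, 16), (1, 0, 0, 16, 16)],
  [(2, 0, 0, 16, 16), (8, 0, 0, 16, 16), (2, 0, 0, 16, 16), (3, 0, 0, 16, 16), (8, 0, 0, 16, 16), (3, 0, 0, 16, 16)],
  [(5, 0, 0, 16, 16), (6, 0, 0, 16, 16), (5, 0, 0, 16, 16), (7, 0, 0, 16, 16), (6, 0, 0, 16, 16), (7, 0, 0, 16, 16)],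
  [(2, 0, 0, 16, 16), (8, 0, 0, 16, 16), (2, 0, 0, 16, 16), (3, 0, 0, 16, 16), (8, 0, 0, 16, 16), (3, 0, 0, 16, 16)]]

def m17_1 : Base := (0, 2, [(0, [0], [3, 4]), (0, [1], [0, 3]), (0, [2], [1, 4]), (4, [], [2])])

def l17_1 : Cov := [(20, 0, 2, [(0, [0], [3, 4]), (0, [1], [0, 3]), (0, [2], [1, 4]), (4, [], [2])]),
  (4, 0, 2, [(0, [0], [3, 4]), (0, [1], [0, 3]), (0, [2], [2, 4]), (4, [], [1])]),
  (16, 0, 2, [(0, [0], [3, 4]), (0, [1], [1, 3]), (0, [2], [0, 4]), (4, [], [2])]),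
  (-16, 0, 2, [(0, [0], [3, 4]), (0, [1], [1, 3]), (0, [2], [2, 4]), (4, [], [0])]),
  (-4, 0, 2, [(0, [0], [3, 4]), (0, [1], [2, 3]), (0, [2], [0, 4]), (4, [], [1])]),
  (-20, 0, 2, [(0, [0], [3, 4]), (0, [1], [2, 3]), (0, [2], [1, 4]), (4, [], [0])]),
  (4, 0, 2, [(0, [1], [3, 4]), (0, [0], [0, 3]), (0, [2], [1, 4]), (4, [], [2])]),
  (8, 0, 2, [(0, [1], [3, 4]), (0, [0], [0, 3]), (0, [2], [2, 4]), (4, [], [1])]),
  (-4, 0, 2, [(0, [1], [3, 4]), (0, [0], [1, 3]), (0, [2], [0, 4]), (4, [], [2])]),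
  (4, 0, 2, [(0, [1], [3, 4]), (0, [0], [1, 3]), (0, [2], [2, 4]), (4, [], [0])]),
  (-8, 0, 2, [(0, [1], [3, 4]), (0, [0], [2, 3]), (0, [2], [0, 4]), (4, [], [1])]),
  (-4, 0, 2, [(0, [1], [3, 4]), (0, [0], [2, 3]), (0, [2], [1, 4]), (4, [], [0])]),
  (-16, 0, 2, [(0, [2], [3, 4]), (0, [0], [0, 3]), (0, [1], [1, 4]), (4, [], [2])]),
  (4, 0, 2, [(0, [2], [3, 4]), (0, [0], [0, 3]), (0, [1], [2, 4]), (4, [], [1])]),
  (-20, 0, 2, [(0, [2], [3, 4]), (0, [0], [1, 3]), (0, [1], [0, 4]), (4, [], [2])]),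
  (20, 0, 2, [(0, [2], [3, 4]), (0, [0], [1, 3]), (0, [1], [2, 4]), (4, [], [0])]),
  (-4, 0, 2, [(0, [2], [3, 4]), (0, [0], [2, 3]), (0, [1], [0, 4]), (4, [], [1])]),
  (16, 0, 2, [(0, [2], [3, 4]), (0, [0], [2, 3]), (0, [1], [1, 4]), (4, [], [0])])]

def z17_1 : Cov := []

def w17_1 : List (List Wit) := [[(0, 0, 0, 16, 16), (1, 0, 0, 16, 16), (2, 0, 0, 16, 16), (3, 0, 0, 16, 16), (4, 0, 0, 16, 16), (5, 0, 0, 16, 16)],
  [(2, 0, 0, 1, 1), (4, 0, 0, 1, 1), (0, 0, 0, 1, 1), (5, 0, 0, 1, 1), (1, 0, 0, 1, 1), (3, 0, 0, 1, 1)],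
  [(6, 0, 0, 16, 16), (7, 0, 0, 16, 16), (8, 0, 0, 16, 16), (9, 0, 0, 16, 16), (10, 0, 0, 16, 16), (11, 0, 0, 16, 16)],
  [(8, 0, 0, 1, 1), (10, 0, 0, 1, 1), (6, 0, 0, 1, 1), (11, 0, 0, 1, 1), (7, 0, 0, 1, 1), (9, 0, 0, 1, 1)],
  [(12, 0, 0, 16, 16), (13, 0, 0, 16, 16), (14, 0, 0, 16, 16), (15, 0, 0, 16, 16), (16, 0, 0, 16, 16), (17, 0, 0, 16, 16)],
  [(14, 0, 0, 1, 1), (16, 0, 0, 1, 1), (12, 0, 0, 1, 1), (17, 0, 0, 1, 1), (13, 0, 0, 1, 1), (15, 0, 0, 1, 1)]]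

def m17_2 : Base := (0, 2, [(0, [0], [3, 4]), (0, [1], [0, 3]), (0, [2], [1, 2]), (4, [], [4])])

def l17_2 : Cov := [(24, 0, 2, [(0, [0], [3, 4]), (0, [1], [0, 3]), (0, [2], [1, 2]), (4, [], [4])]),
  (-24, 0, 2, [(0, [0], [3, 4]), (0, [1], [2, 3]), (0, [2], [0, 1]), (4, [], [4])]),
  (12, 0, 2, [(0, [0], [3, 4]), (0, [2], [0, 3]), (0, [1], [1, 2]), (4, [], [4])]),
  (-12, 0, 2, [(0, [0], [3, 4]), (0, [2], [2, 3]), (0, [1], [0, 1]), (4, [], [4])]),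
  (12, 0, 2, [(0, [1], [3, 4]), (0, [0], [0, 3]), (0, [2], [1, 2]), (4, [], [4])]),
  (-12, 0, 2, [(0, [1], [3, 4]), (0, [0], [2, 3]), (0, [2], [0, 1]), (4, [], [4])]),
  (-12, 0, 2, [(0, [1], [3, 4]), (0, [2], [0, 3]), (0, [0], [1, 2]), (4, [], [4])]),
  (12, 0, 2, [(0, [1], [3, 4]), (0, [2], [2, 3]), (0, [0], [0, 1]), (4, [], [4])]),
  (-12, 0, 2, [(0, [2], [3, 4]), (0, [0], [0, 3]), (0, [1], [1, 2]), (4, [], [4])]),
  (12, 0, 2, [(0, [2], [3, 4]), (0, [0], [2, 3]), (0, [1], [0, 1]), (4, [], [4])]),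
  (-24, 0, 2, [(0, [2], [3, 4]), (0, [1], [0, 3]), (0, [0], [1, 2]), (4, [], [4])]),
  (24, 0, 2, [(0, [2], [3, 4]), (0, [1], [2, 3]), (0, [0], [0, 1]), (4, [], [4])])]

def z17_2 : Cov := [(0, 0, 2, [(0, [0], [3, 4]), (0, [1], [1, 3]), (0, [2], [0, 2]), (4, [], [4])]),
  (0, 0, 2, [(0, [0], [3, 4]), (0, [2], [1, 3]), (0, [1], [0, 2]), (4, [], [4])]),
  (0, 0, 2, [(0, [1], [3, 4]), (0, [0], [1, 3]), (0, [2], [0, 2]), (4, [], [4])]),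
  (0, 0, 2, [(0, [1], [3, 4]), (0, [2], [1, 3]), (0, [0], [0, 2]), (4, [], [4])]),
  (0, 0, 2, [(0, [2], [3, 4]), (0, [0], [1, 3]), (0, [1], [0, 2]), (4, [], [4])]),
  (0, 0, 2, [(0, [2], [3, 4]), (0, [1], [1, 3]), (0, [0], [0, 2]), (4, [], [4])])]

def w17_2 : List (List Wit) := [[(0, 0, 0, 16, 16), (0, 0, 0, 16, 16), (12, 0, 0, 16, 16), (12, 0, 0, 16, 16), (1, 0, 0, 16, 16), (1, 0, 0, 16, 16)],
  [(2, 0, 0, 16, 16), (2, 0, 0, 16, 16), (13, 0, 0, 16, 16), (13, 0, 0, 16, 16), (3, 0, 0, 16, 16), (3, 0, 0, 16, 16)],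
  [(4, 0, 0, 16, 16), (4, 0, 0, 16, 16), (14, 0, 0, 16, 16), (14, 0, 0, 16, 16), (5, 0, 0, 16, 16), (5, 0, 0, 16, 16)],
  [(6, 0, 0, 16, 16), (6, 0, 0, 16, 16), (15, 0, 0, 16, 16), (15, 0, 0, 16, 16), (7, 0, 0, 16, 16), (7, 0, 0, 16, 16)],
  [(8, 0, 0, 16, 16), (8, 0, 0, 16, 16), (16, 0, 0, 16, 16), (16, 0, 0, 16, 16), (9, 0, 0, 16, 16), (9, 0, 0, 16, 16)],
  [(10, 0, 0, 16, 16), (10, 0, 0, 16, 16), (17, 0, 0, 16, 16), (17, 0, 0, 16, 16), (11, 0, 0, 16, 16), (11, 0, 0, 16, 16)]]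

def m17_3 : Base := (0, 2, [(0, [0], [3, 4]), (0, [1], [0, 3]), (0, [2], [2, 4]), (4, [], [1])])

def l17_3 : Cov := [(8, 0, 2, [(0, [0], [3, 4]), (0, [1], [0, 3]), (0, [2], [2, 4]), (4, [], [1])]),
  (4, 0, 2, [(0, [0], [3, 4]), (0, [1], [0, 3]), (0, [2], [1, 4]), (4, [], [2])]),
  (4, 0, 2, [(0, [0], [3, 4]), (0, [1], [1, 3]), (0, [2], [2, 4]), (4, [], [0])]),
  (-4, 0, 2, [(0, [0], [3, 4]), (0, [1], [1, 3]), (0, [2], [0, 4]), (4, [], [2])]),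
  (-4, 0, 2, [(0, [0], [3, 4]), (0, [1], [2, 3]), (0, [2], [1, 4]), (4, [], [0])]),
  (-8, 0, 2, [(0, [0], [3, 4]), (0, [1], [2, 3]), (0, [2], [0, 4]), (4, [], [1])]),
  (16, 0, 2, [(0, [1], [3, 4]), (0, [0], [0, 3]), (0, [2], [2, 4]), (4, [], [1])]),
  (8, 0, 2, [(0, [1], [3, 4]), (0, [0], [0, 3]), (0, [2], [1, 4]), (4, [], [2])]),
  (8, 0, 2, [(0, [1], [3, 4]), (0, [0], [1, 3]), (0, [2], [2, 4]), (4, [], [0])]),
  (-8, 0, 2, [(0, [1], [3, 4]), (0, [0], [1, 3]), (0, [2], [0, 4]), (4, [], [2])]),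
  (-8, 0, 2, [(0, [1], [3, 4]), (0, [0], [2, 3]), (0, [2], [1, 4]), (4, [], [0])]),
  (-16, 0, 2, [(0, [1], [3, 4]), (0, [0], [2, 3]), (0, [2], [0, 4]), (4, [], [1])]),
  (8, 0, 2, [(0, [2], [3, 4]), (0, [0], [0, 3]), (0, [1], [2, 4]), (4, [], [1])]),
  (4, 0, 2, [(0, [2], [3, 4]), (0, [0], [0, 3]), (0, [1], [1, 4]), (4, [], [2])]),
  (4, 0, 2, [(0, [2], [3, 4]), (0, [0], [1, 3]), (0, [1], [2, 4]), (4, [], [0])]),
  (-4, 0, 2, [(0, [2], [3, 4]), (0, [0], [1, 3]), (0, [1], [0, 4]), (4, [], [2])]),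
  (-4, 0, 2, [(0, [2], [3, 4]), (0, [0], [2, 3]), (0, [1], [1, 4]), (4, [], [0])]),
  (-8, 0, 2, [(0, [2], [3, 4]), (0, [0], [2, 3]), (0, [1], [0, 4]), (4, [], [1])])]

def z17_3 : Cov := []

def w17_3 : List (List Wit) := [[(0, 0, 0, 16, 16), (1, 0, 0, 16, 16), (2, 0, 0, 16, 16), (3, 0, 0, 16, 16), (4, 0, 0, 16, 16), (5, 0, 0, 16, 16)],
  [(5, 0, 0, 1, 1), (3, 0, 0, 1, 1), (4, 0, 0, 1, 1), (1, 0, 0, 1, 1), (2, 0, 0, 1, 1), (0, 0, 0, 1, 1)],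
  [(6, 0, 0, 16, 16), (7, 0, 0, 16, 16), (8, 0, 0, 16, 16), (9, 0, 0, 16, 16), (10, 0, 0, 16, 16), (11, 0, 0, 16, 16)],
  [(11, 0, 0, 1, 1), (9, 0, 0, 1, 1), (10, 0, 0, 1, 1), (7, 0, 0, 1, 1), (8, 0, 0, 1, 1), (6, 0, 0, 1, 1)],
  [(12, 0, 0, 16, 16), (13, 0, 0, 16, 16), (14, 0, 0, 16, 16), (15, 0, 0, 16, 16), (16, 0, 0, 16, 16), (17, 0, 0, 16, 16)],
  [(17, 0, 0, 1, 1), (15, 0, 0, 1, 1), (16, 0, 0, 1, 1), (13, 0, 0, 1, 1), (14, 0, 0, 1, 1), (12, 0, 0, 1, 1)]]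

def m17_4 : Base := (0, 2, [(0, [0], [3, 4]), (0, [1], [0, 1]), (0, [2], [2, 3]), (4, [], [4])])

def l17_4 : Cov := [(24, 0, 2, [(0, [0], [3, 4]), (0, [1], [0, 1]), (0, [2], [2, 3]), (4, [], [4])]),
  (-24, 0, 2, [(0, [0], [3, 4]), (0, [1], [1, 2]), (0, [2], [0, 3]), (4, [], [4])]),
  (12, 0, 2, [(0, [0], [3, 4]), (0, [2], [0, 1]), (0, [1], [2, 3]), (4, [], [4])]),
  (-12, 0, 2, [(0, [0], [3, 4]), (0, [2], [1, 2]), (0, [1], [0, 3]), (4, [], [4])]),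
  (12, 0, 2, [(0, [1], [3, 4]), (0, [0], [0, 1]), (0, [2], [2, 3]), (4, [], [4])]),
  (-12, 0, 2, [(0, [1], [3, 4]), (0, [0], [1, 2]), (0, [2], [0, 3]), (4, [], [4])]),
  (-12, 0, 2, [(0, [1], [3, 4]), (0, [2], [0, 1]), (0, [0], [2, 3]), (4, [], [4])]),
  (12, 0, 2, [(0, [1], [3, 4]), (0, [2], [1, 2]), (0, [0], [0, 3]), (4, [], [4])]),
  (-12, 0, 2, [(0, [2], [3, 4]), (0, [0], [0, 1]), (0, [1], [2, 3]), (4, [], [4])]),
  (12, 0, 2, [(0, [2], [3, 4]), (0, [0], [1, 2]), (0, [1], [0, 3]), (4, [], [4])]),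
  (-24, 0, 2, [(0, [2], [3, 4]), (0, [1], [0, 1]), (0, [0], [2, 3]), (4, [], [4])]),
  (24, 0, 2, [(0, [2], [3, 4]), (0, [1], [1, 2]), (0, [0], [0, 3]), (4, [], [4])])]

def z17_4 : Cov := [(0, 0, 2, [(0, [0], [3, 4]), (0, [1], [0, 2]), (0, [2], [1, 3]), (4, [], [4])]),
  (0, 0, 2, [(0, [0], [3, 4]), (0, [2], [0, 2]), (0, [1], [1, 3]), (4, [], [4])]),
  (0, 0, 2, [(0, [1], [3, 4]), (0, [0], [0, 2]), (0, [2], [1, 3]), (4, [], [4])]),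
  (0, 0, 2, [(0, [1], [3, 4]), (0, [2], [0, 2]), (0, [0], [1, 3]), (4, [], [4])]),
  (0, 0, 2, [(0, [2], [3, 4]), (0, [0], [0, 2]), (0, [1], [1, 3]), (4, [], [4])]),
  (0, 0, 2, [(0, [2], [3, 4]), (0, [1], [0, 2]), (0, [0], [1, 3]), (4, [], [4])])]

def w17_4 : List (List Wit) := [[(0, 0, 0, 16, 16), (12, 0, 0, 16, 16), (0, 0, 0, 16, 16), (1, 0, 0, 16, 16), (12, 0, 0, 16, 16), (1, 0, 0, 16, 16)],
  [(2, 0, 0, 16, 16), (13, 0, 0, 16, 16), (2, 0, 0, 16, 16), (3, 0, 0, 16, 16), (13, 0, 0, 16, 16), (3, 0, 0, 16, 16)],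
  [(4, 0, 0, 16, 16), (14, 0, 0, 16, 16), (4, 0, 0, 16, 16), (5, 0, 0, 16, 16), (14, 0, 0, 16, 16), (5, 0, 0, 16, 16)],
  [(6, 0, 0, 16, 16), (15, 0, 0, 16, 16), (6, 0, 0, 16, 16), (7, 0, 0, 16, 16), (15, 0, 0, 16, 16), (7, 0, 0, 16, 16)],
  [(8, 0, 0, 16, 16), (16, 0, 0, 16, 16), (8, 0, 0, 16, 16), (9, 0, 0, 16, 16), (16, 0, 0, 16, 16), (9, 0, 0, 16, 16)],
  [(10, 0, 0, 16, 16), (17, 0, 0, 16, 16), (10, 0, 0, 16, 16), (11, 0, 0, 16, 16), (17, 0, 0, 16, 16), (11, 0, 0, 16, 16)]]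

def m17_5 : Base := (0, 2, [(0, [0], [0, 3]), (0, [1], [1, 4]), (0, [2], [2, 4]), (4, [], [3])])

def l17_5 : Cov := [(20, 0, 2, [(0, [0], [0, 3]), (0, [1], [1, 4]), (0, [2], [2, 4]), (4, [], [3])]),
  (16, 0, 2, [(0, [0], [0, 3]), (0, [1], [2, 4]), (0, [2], [1, 4]), (4, [], [3])]),
  (4, 0, 2, [(0, [0], [1, 3]), (0, [1], [0, 4]), (0, [2], [2, 4]), (4, [], [3])]),
  (-4, 0, 2, [(0, [0], [1, 3]), (0, [1], [2, 4]), (0, [2], [0, 4]), (4, [], [3])]),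
  (-16, 0, 2, [(0, [0], [2, 3]), (0, [1], [0, 4]), (0, [2], [1, 4]), (4, [], [3])]),
  (-20, 0, 2, [(0, [0], [2, 3]), (0, [1], [1, 4]), (0, [2], [0, 4]), (4, [], [3])]),
  (4, 0, 2, [(0, [1], [0, 3]), (0, [0], [1, 4]), (0, [2], [2, 4]), (4, [], [3])]),
  (-4, 0, 2, [(0, [1], [0, 3]), (0, [0], [2, 4]), (0, [2], [1, 4]), (4, [], [3])]),
  (8, 0, 2, [(0, [1], [1, 3]), (0, [0], [0, 4]), (0, [2], [2, 4]), (4, [], [3])]),
  (-8, 0, 2, [(0, [1], [1, 3]), (0, [0], [2, 4]), (0, [2], [0, 4]), (4, [], [3])]),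
  (4, 0, 2, [(0, [1], [2, 3]), (0, [0], [0, 4]), (0, [2], [1, 4]), (4, [], [3])]),
  (-4, 0, 2, [(0, [1], [2, 3]), (0, [0], [1, 4]), (0, [2], [0, 4]), (4, [], [3])]),
  (-16, 0, 2, [(0, [2], [0, 3]), (0, [0], [1, 4]), (0, [1], [2, 4]), (4, [], [3])]),
  (-20, 0, 2, [(0, [2], [0, 3]), (0, [0], [2, 4]), (0, [1], [1, 4]), (4, [], [3])]),
  (4, 0, 2, [(0, [2], [1, 3]), (0, [0], [0, 4]), (0, [1], [2, 4]), (4, [], [3])]),
  (-4, 0, 2, [(0, [2], [1, 3]), (0, [0], [2, 4]), (0, [1], [0, 4]), (4, [], [3])]),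
  (20, 0, 2, [(0, [2], [2, 3]), (0, [0], [0, 4]), (0, [1], [1, 4]), (4, [], [3])]),
  (16, 0, 2, [(0, [2], [2, 3]), (0, [0], [1, 4]), (0, [1], [0, 4]), (4, [], [3])])]

def z17_5 : Cov := []

def w17_5 : List (List Wit) := [[(0, 0, 0, 16, 16), (1, 0, 0, 16, 16), (2, 0, 0, 16, 16), (3, 0, 0, 16, 16), (4, 0, 0, 16, 16), (5, 0, 0, 16, 16)],
  [(1, 0, 0, 16, 16), (0, 0, 0, 16, 16), (3, 0, 0, 16, 16), (2, 0, 0, 16, 16), (5, 0, 0, 16, 16), (4, 0, 0, 16, 16)],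
  [(6, 0, 0, 16, 16), (7, 0, 0, 16, 16), (8, 0, 0, 16, 16), (9, 0, 0, 16, 16), (10, 0, 0, 16, 16), (11, 0, 0, 16, 16)],
  [(7, 0, 0, 16, 16), (6, 0, 0, 16, 16), (9, 0, 0, 16, 16), (8, 0, 0, 16, 16), (11, 0, 0, 16, 16), (10, 0, 0, 16, 16)],
  [(12, 0, 0, 16, 16), (13, 0, 0, 16, 16), (14, 0, 0, 16, 16), (15, 0, 0, 16, 16), (16, 0, 0, 16, 16), (17, 0, 0, 16, 16)],
  [(13, 0, 0, 16, 16), (12, 0, 0, 16, 16), (15, 0, 0, 16, 16), (14, 0, 0, 16, 16), (17, 0, 0, 16, 16), (16, 0, 0, 16, 16)]]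

def m17_6 : Base := (0, 2, [(0, [0], [0, 3]), (0, [1], [1, 4]), (0, [2], [2, 3]), (4, [], [4])])

def l17_6 : Cov := [(32, 0, 2, [(0, [0], [0, 3]), (0, [1], [1, 4]), (0, [2], [2, 3]), (4, [], [4])]),
  (16, 0, 2, [(0, [0], [0, 3]), (0, [1], [2, 4]), (0, [2], [1, 3]), (4, [], [4])]),
  (16, 0, 2, [(0, [0], [1, 3]), (0, [1], [0, 4]), (0, [2], [2, 3]), (4, [], [4])]),
  (-16, 0, 2, [(0, [0], [1, 3]), (0, [1], [2, 4]), (0, [2], [0, 3]), (4, [], [4])]),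
  (-16, 0, 2, [(0, [0], [2, 3]), (0, [1], [0, 4]), (0, [2], [1, 3]), (4, [], [4])]),
  (-32, 0, 2, [(0, [0], [2, 3]), (0, [1], [1, 4]), (0, [2], [0, 3]), (4, [], [4])]),
  (16, 0, 2, [(0, [0], [0, 3]), (0, [2], [1, 4]), (0, [1], [2, 3]), (4, [], [4])]),
  (8, 0, 2, [(0, [0], [0, 3]), (0, [2], [2, 4]), (0, [1], [1, 3]), (4, [], [4])]),
  (8, 0, 2, [(0, [0], [1, 3]), (0, [2], [0, 4]), (0, [1], [2, 3]), (4, [], [4])]),
  (-8, 0, 2, [(0, [0], [1, 3]), (0, [2], [2, 4]), (0, [1], [0, 3]), (4, [], [4])]),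
  (-8, 0, 2, [(0, [0], [2, 3]), (0, [2], [0, 4]), (0, [1], [1, 3]), (4, [], [4])]),
  (-16, 0, 2, [(0, [0], [2, 3]), (0, [2], [1, 4]), (0, [1], [0, 3]), (4, [], [4])]),
  (16, 0, 2, [(0, [1], [0, 3]), (0, [0], [1, 4]), (0, [2], [2, 3]), (4, [], [4])]),
  (8, 0, 2, [(0, [1], [0, 3]), (0, [0], [2, 4]), (0, [2], [1, 3]), (4, [], [4])]),
  (8, 0, 2, [(0, [1], [1, 3]), (0, [0], [0, 4]), (0, [2], [2, 3]), (4, [], [4])]),
  (-8, 0, 2, [(0, [1], [1, 3]), (0, [0], [2, 4]), (0, [2], [0, 3]), (4, [], [4])]),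
  (-8, 0, 2, [(0, [1], [2, 3]), (0, [0], [0, 4]), (0, [2], [1, 3]), (4, [], [4])]),
  (-16, 0, 2, [(0, [1], [2, 3]), (0, [0], [1, 4]), (0, [2], [0, 3]), (4, [], [4])])]

def z17_6 : Cov := []

def w17_6 : List (List Wit) := [[(0, 0, 0, 16, 16), (1, 0, 0, 16, 16), (2, 0, 0, 16, 16), (3, 0, 0, 16, 16), (4, 0, 0, 16, 16), (5, 0, 0, 16, 16)],
  [(6, 0, 0, 16, 16), (7, 0, 0, 16, 16), (8, 0, 0, 16, 16), (9, 0, 0, 16, 16), (10, 0, 0, 16, 16), (11, 0, 0, 16, 16)],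
  [(12, 0, 0, 16, 16), (13, 0, 0, 16, 16), (14, 0, 0, 16, 16), (15, 0, 0, 16, 16), (16, 0, 0, 16, 16), (17, 0, 0, 16, 16)],
  [(11, 0, 0, 16, 16), (9, 0, 0, 16, 16), (10, 0, 0, 16, 16), (7, 0, 0, 16, 16), (8, 0, 0, 16, 16), (6, 0, 0, 16, 16)],
  [(17, 0, 0, 16, 16), (15, 0, 0, 16, 16), (16, 0, 0, 16, 16), (13, 0, 0, 16, 16), (14, 0, 0, 16, 16), (12, 0, 0, 16, 16)],
  [(5, 0, 0, 16, 16), (3, 0, 0, 16, 16), (4, 0, 0, 16, 16), (1, 0, 0, 16, 16), (2, 0, 0, 16, 16), (0, 0, 0, 16, 16)]]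

theorem tr17 : trK keys lk17 kl17 = true := by
  decide +kernel

theorem x17_0 : expB 3 3 dg2 dg2 m17_0 (l17_0 ++ z17_0) w17_0 = true := by
  decide +kernel

theorem x17_1 : expB 3 3 dg2 dg2 m17_1 (l17_1 ++ z17_1) w17_1 = true := by
  decide +kernel

theorem x17_2 : expB 3 3 dg2 dg2 m17_2 (l17_2 ++ z17_2) w17_2 = true := by
  decide +kernel

theorem x17_3 : expB 3 3 dg2 dg2 m17_3 (l17_3 ++ z17_3) w17_3 = true := by
  decide +kernel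

theorem x17_4 : expB 3 3 dg2 dg2 m17_4 (l17_4 ++ z17_4) w17_4 = true := by
  decide +kernel

theorem x17_5 : expB 3 3 dg2 dg2 m17_5 (l17_5 ++ z17_5) w17_5 = true := by
  decide +kernel

theorem x17_6 : expB 3 3 dg2 dg2 m17_6 (l17_6 ++ z17_6) w17_6 = true := by
  decide +kernel

theorem t17_0_0 : chkS lk17 3 3 [(1, m17_0)] l17_0
  [(16, 33, 258, 106112016, 106054416), (26, 33, 258, 106181121, 106181121), (28, 528, 528, 105972786, 106041411), (13, 528, 528, 88146726, 6627651)]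
  [(13, 36), (16, 36), (26, -36), (28, -36)] = true := by
  decide +kernel

theorem t17_0_1 : chkS lk17 3 3 [(1, m17_0)] l17_1
  [(19, 18, 18, 37114881, 70407681), (29, 528, 528, 36766821, 16930371), (19, 18, 18, 37114896, 70407696), (29, 528, 528, 36766806, 1201731), (2, 528, 528, 17052261, 17052261), (2, 528, 528, 17052246, 1323621), (19, 33, 258, 37114881, 70407681), (29, 528, 528, 87098946, 39931971), (19, 33, 258, 37114896, 70407696), (29, 528, 528, 87098916, 39866691), (2, 513, 513, 17052261, 17052261), (2, 513, 513, 17052246, 1323621), (30, 528, 528, 103875666, 101863491), (1, 33, 258, 17191986, 70389861), (30, 528, 528, 103875621, 100815171), (1, 33, 258, 17191971, 70386021), (1, 18, 18, 1463346, 70389846), (1, 18, 18, 1463331, 70386006)]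
  [(1, 36), (2, -36), (19, 36), (30, -36)] = true := by
  decide +kernel

theorem t17_0_2 : chkS lk17 3 3 [(1, m17_0)] l17_2
  [(2, 513, 513, 33830481, 34878981), (0, 33, 258, 52843536, 70411536), (14, 528, 528, 52495956, 34628931), (13, 528, 528, 52495956, 34628931), (2, 528, 528, 33830481, 34878981), (0, 18, 18, 52843536, 70411536), (14, 528, 528, 105972516, 105914691), (13, 513, 513, 52495956, 34628931), (1, 33, 258, 52843536, 70411536), (13, 528, 528, 102826836, 101721411), (1, 18, 18, 52843536, 70411536), (13, 513, 513, 102826836, 101721411)]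
  [(0, -36), (1, -36), (2, 36), (13, 36), (14, 0)] = true := by
  decide +kernel

theorem t17_0_3 : chkS lk17 3 3 [(1, m17_0)] l17_3
  [(29, 528, 528, 36766821, 16930371), (19, 18, 18, 37114881, 70407681), (29, 528, 528, 36766806, 1201731), (19, 18, 18, 37114896, 70407696), (2, 528, 528, 17052246, 1323621), (2, 528, 528, 17052261, 17052261), (29, 528, 528, 87098946, 39931971), (19, 33, 258, 37114881, 70407681), (29, 528, 528, 87098916, 39866691), (19, 33, 258, 37114896, 70407696), (2, 513, 513, 17052246, 1323621), (2, 513, 513, 17052261, 17052261), (1, 33, 258, 17191986, 70389861), (30, 528, 528, 103875666, 101863491), (1, 33, 258, 17191971, 70386021), (30, 528, 528, 103875621, 100815171), (1, 18, 18, 1463331, 70386006), (1, 18, 18, 1463346, 70389846)]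
  [(2, -36), (29, 36), (30, 0)] = true := by
  decide +kernel

theorem t17_0_4 : chkS lk17 3 3 [(1, m17_0)] l17_4
  [(13, 528, 528, 52495956, 34628931), (14, 528, 528, 52495956, 34628931), (0, 33, 258, 52843536, 70411536), (2, 513, 513, 33830481, 34878981), (13, 513, 513, 52495956, 34628931), (14, 528, 528, 105972516, 105914691), (0, 18, 18, 52843536, 70411536), (2, 528, 528, 33830481, 34878981), (13, 513, 513, 102826836, 101721411), (1, 18, 18, 52843536, 70411536), (13, 528, 528, 102826836, 101721411), (1, 33, 258, 52843536, 70411536)]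
  [(1, 36), (14, -36)] = true := by
  decide +kernel

theorem t17_0_5 : chkS lk17 3 3 [(1, m17_0)] l17_5
  [(1, 18, 18, 38163201, 70592001), (14, 528, 528, 87098946, 39931971), (1, 18, 18, 38163216, 70592016), (14, 528, 528, 87098916, 39866691), (5, 18, 18, 37045761, 37967361), (5, 18, 18, 37045776, 37967376), (1, 33, 258, 38163201, 70592001), (14, 528, 528, 39912261, 83961411), (1, 33, 258, 38163216, 70592016), (14, 528, 528, 39912276, 84944451), (5, 33, 258, 37045761, 37967361), (5, 33, 258, 37045776, 37967376), (2, 528, 528, 6566421, 84161046), (2, 513, 513, 6566421, 84161046), (2, 528, 528, 6566481, 85209606), (2, 513, 513, 6566481, 85209606), (31, 528, 528, 55641186, 22175811), (31, 528, 528, 55641126, 5398851)]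
  [(1, 36), (2, -36), (5, -36), (31, 36)] = true := by
  decide +kernel

theorem t17_0_6 : chkS lk17 3 3 [(1, m17_0)] l17_6
  [(1, 33, 258, 69620496, 70657296), (5, 33, 258, 52774401, 37971201), (1, 33, 258, 69620481, 70657281), (5, 33, 258, 52774416, 37971216), (14, 528, 528, 102826821, 100738371), (14, 528, 528, 102826836, 101721411), (2, 528, 528, 100938321, 101986821), (31, 528, 528, 87098466, 23220291), (2, 528, 528, 100938261, 100938261), (31, 528, 528, 87098406, 6443331), (2, 513, 513, 100938261, 100938261), (2, 513, 513, 100938321, 101986821), (1, 18, 18, 69620496, 70657296), (5, 18, 18, 52774401, 37971201), (1, 18, 18, 69620481, 70657281), (5, 18, 18, 52774416, 37971216), (14, 528, 528, 55641666, 38887491), (14, 528, 528, 55641636, 38822211)]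
  [(1, 72), (14, -72), (31, 0)] = true := by
  decide +kernel

theorem t17_1_1 : chkS lk17 3 3 [(1, m17_1)] l17_1
  [(17, 513, 513, 102962256, 101860656), (21, 513, 513, 86185536, 39929136), (39, 288, 288, 52495686, 2188611), (32, 513, 513, 87295521, 40128771), (32, 33, 258, 55592466, 39018516), (21, 33, 258, 38876676, 38811201), (22, 33, 258, 38876166, 5387841), (34, 33, 258, 38814486, 5449236), (37, 288, 288, 102827061, 100799811), (35, 513, 513, 36963681, 19158531), (35, 528, 528, 67252566, 1455141), (23, 33, 258, 39924741, 84031041), (37, 528, 528, 102765651, 101844276), (35, 33, 258, 36717846, 2315796), (22, 513, 513, 38999136, 22169136), (34, 513, 513, 39060321, 22291971), (23, 513, 513, 40047696, 85083696), (35, 288, 288, 67314021, 17187621)]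
  [(17, 20), (21, -16), (22, -16), (23, -8), (32, -20), (34, 28), (35, 16), (37, -20), (39, 16)] = true := by
  decide +kernel

theorem t17_1_2 : chkS lk17 3 3 [(1, m17_1)] l17_2
  [(8, 33, 258, 106049796, 105919521), (20, 33, 258, 72431106, 39202881), (32, 288, 288, 16983636, 34620261), (20, 513, 513, 72554016, 39207216), (7, 33, 258, 88224006, 6632481), (20, 33, 258, 105985026, 106049601), (11, 258, 33, 17179971, 69272421), (33, 258, 33, 17183826, 68300901), (35, 33, 258, 16999716, 52445541), (20, 513, 513, 106107936, 106053936), (12, 288, 288, 106111236, 105923361), (33, 18, 18, 16999461, 50479461)]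
  [(7, 12), (8, 24), (11, -12), (12, -24), (20, -36), (32, 12), (33, 36), (35, -12)] = true := by
  decide +kernel

theorem t17_1_3 : chkS lk17 3 3 [(1, m17_1)] l17_3
  [(21, 513, 513, 86185536, 39929136), (17, 513, 513, 102962256, 101860656), (32, 513, 513, 87295521, 40128771), (39, 288, 288, 52495686, 2188611), (21, 33, 258, 38876676, 38811201), (32, 33, 258, 55592466, 39018516), (34, 33, 258, 38814486, 5449236), (22, 33, 258, 38876166, 5387841), (35, 513, 513, 36963681, 19158531), (37, 288, 288, 102827061, 100799811), (23, 33, 258, 39924741, 84031041), (35, 528, 528, 67252566, 1455141), (35, 33, 258, 36717846, 2315796), (37, 528, 528, 102765651, 101844276), (34, 513, 513, 39060321, 22291971), (22, 513, 513, 38999136, 22169136), (35, 288, 288, 67314021, 17187621), (23, 513, 513, 40047696, 85083696)]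
  [(17, 4), (21, 4), (22, 4), (23, -16), (32, -4), (34, 20), (35, -4), (37, -4), (39, -4)] = true := by
  decide +kernel

theorem t17_1_4 : chkS lk17 3 3 [(1, m17_1)] l17_4
  [(20, 513, 513, 72554016, 39207216), (32, 288, 288, 16983636, 34620261), (20, 33, 258, 72431106, 39202881), (8, 33, 258, 106049796, 105919521), (33, 258, 33, 17183826, 68300901), (11, 258, 33, 17179971, 69272421), (20, 33, 258, 105985026, 106049601), (7, 33, 258, 88224006, 6632481), (33, 18, 18, 16999461, 50479461), (12, 288, 288, 106111236, 105923361), (20, 513, 513, 106107936, 106053936), (35, 33, 258, 16999716, 52445541)]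
  [(7, 12), (8, -12), (11, -12), (12, 12), (32, -24), (35, 24)] = true := by
  decide +kernel

theorem t17_1_5 : chkS lk17 3 3 [(1, m17_1)] l17_5
  [(11, 528, 528, 68302176, 19280976), (12, 528, 528, 85079616, 39924816), (12, 288, 288, 85140996, 39863121), (11, 288, 288, 68363526, 2507601), (24, 258, 33, 22422576, 72487776), (38, 258, 33, 55968801, 72507651), (7, 513, 513, 68363616, 19284816), (8, 513, 513, 85141056, 39928656), (35, 33, 258, 5464356, 55591206), (32, 258, 33, 85206531, 40108881), (25, 33, 258, 38876166, 5387841), (38, 288, 288, 38863926, 5379651), (35, 513, 513, 5648706, 72429606), (32, 18, 18, 85083696, 40047696), (7, 33, 258, 68302086, 2503761), (8, 33, 258, 85079556, 39859281), (38, 528, 528, 38802531, 22152756), (25, 513, 513, 38999136, 22169136)]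
  [(7, 8), (8, -8), (11, 16), (12, 20), (24, -16), (25, 20), (32, -28), (35, -8), (38, -4)] = true := by
  decide +kernel

theorem t17_1_6 : chkS lk17 3 3 [(1, m17_1)] l17_6
  [(35, 33, 258, 84107556, 56639781), (25, 33, 258, 86062086, 6436161), (7, 513, 513, 21177696, 19219296), (38, 288, 288, 86049846, 6427971), (8, 513, 513, 22226496, 38880096), (32, 288, 288, 100868436, 101729061), (7, 33, 258, 21116166, 2438241), (38, 528, 528, 85988451, 23201076), (35, 513, 513, 84291906, 73478181), (25, 513, 513, 86185056, 23217456), (32, 528, 528, 100806981, 100742181), (8, 33, 258, 22164996, 38810721), (12, 288, 288, 22226436, 38814561), (24, 258, 33, 85337136, 73536336), (11, 528, 528, 21116256, 19215456), (38, 258, 33, 87426081, 73552131), (12, 528, 528, 22165056, 38876256), (11, 258, 33, 84287811, 73466661)]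
  [(7, 32), (8, -32), (11, -8), (12, 8), (24, 8), (25, 8), (32, -40), (35, 40), (38, -16)] = true := by
  decide +kernel

theorem t17_2_2 : chkS lk17 3 3 [(1, m17_2)] l17_2
  [(10, 33, 258, 106111236, 105923361), (21, 18, 18, 70668546, 70668321), (29, 18, 18, 69619971, 70649121), (15, 513, 513, 106107936, 106053936), (9, 33, 258, 88285446, 6636321), (23, 33, 258, 87318786, 56905761), (1, 258, 33, 52696656, 34891056), (12, 528, 528, 105972771, 106037571), (1, 528, 528, 68363856, 35013456), (12, 33, 258, 17191716, 70263141), (14, 33, 258, 52842756, 70280481), (11, 528, 528, 88147491, 40173891)]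
  [(1, -24), (9, 12), (10, 24), (11, 24), (12, 24), (14, -24), (15, -12), (21, -24), (23, -12), (29, 12)] = true := by
  decide +kernel

theorem t17_2_3 : chkS lk17 3 3 [(1, m17_2)] l17_3
  [(8, 33, 258, 37113876, 70276626), (8, 33, 258, 37114116, 70276641), (20, 18, 18, 37113876, 70276626), (32, 528, 528, 36767316, 34625091), (20, 18, 18, 37114116, 70276641), (32, 528, 528, 36767076, 18896451), (7, 18, 18, 37044246, 4412946), (7, 18, 18, 37044486, 4412961), (20, 33, 258, 36982806, 3429906), (35, 528, 528, 103875876, 102781251), (20, 33, 258, 36983046, 3429921), (35, 528, 528, 103875156, 101732931), (11, 528, 528, 102827091, 101844291), (11, 528, 528, 102827331, 102827331), (33, 528, 528, 103875876, 102781251), (12, 33, 258, 37114116, 70276641), (33, 528, 528, 103875156, 101732931), (12, 33, 258, 37113876, 70276626)]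
  [(7, 24), (8, 12), (11, 12), (12, -12), (32, -12), (35, -24)] = true := by
  decide +kernel

theorem t17_2_4 : chkS lk17 3 3 [(1, m17_2)] l17_4
  [(15, 513, 513, 106107936, 106053936), (29, 18, 18, 69619971, 70649121), (21, 18, 18, 70668546, 70668321), (10, 33, 258, 106111236, 105923361), (12, 528, 528, 105972771, 106037571), (1, 258, 33, 52696656, 34891056), (23, 33, 258, 87318786, 56905761), (9, 33, 258, 88285446, 6636321), (11, 528, 528, 88147491, 40173891), (14, 33, 258, 52842756, 70280481), (12, 33, 258, 17191716, 70263141), (1, 528, 528, 68363856, 35013456)]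
  [(1, 12), (9, 12), (10, -12), (11, -12), (12, -12), (14, 12), (15, 24), (21, 12), (23, -12), (29, -24)] = true := by
  decide +kernel

theorem t17_2_5 : chkS lk17 3 3 [(1, m17_2)] l17_5
  [(4, 18, 18, 39018516, 55592466), (4, 18, 18, 39018756, 55592481), (15, 513, 513, 40047696, 85083696), (34, 528, 528, 103875876, 102781251), (15, 513, 513, 40047936, 86066736), (34, 528, 528, 103875156, 101732931), (3, 33, 258, 39018516, 55592466), (3, 33, 258, 39018756, 55592481), (12, 528, 528, 39912531, 85067331), (35, 258, 33, 102048771, 104989521), (12, 528, 528, 39912771, 86050371), (35, 258, 33, 102047811, 104923986), (36, 528, 528, 55641636, 38822211), (36, 528, 528, 55640676, 22045251), (7, 18, 18, 51724806, 4416081), (8, 33, 258, 51794436, 70279761), (7, 18, 18, 51724326, 4415826), (8, 33, 258, 51793956, 70279506)]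
  [(4, 36), (7, 24), (8, 12), (12, 12), (15, -12), (34, -24), (35, -12), (36, -36)] = true := by
  decide +kernel

theorem t17_2_6 : chkS lk17 3 3 [(1, m17_2)] l17_6
  [(12, 528, 528, 102827091, 101844291), (12, 528, 528, 102827331, 102827331), (3, 33, 258, 86204436, 56640786), (35, 258, 33, 23404611, 88146786), (3, 33, 258, 86204676, 56640801), (35, 258, 33, 23405571, 88212321), (7, 18, 18, 20267526, 4412001), (7, 18, 18, 20267046, 4411746), (36, 528, 528, 87098916, 39866691), (8, 33, 258, 20336676, 70275426), (36, 528, 528, 87097956, 23089731), (8, 33, 258, 20337156, 70275681), (15, 513, 513, 102962256, 101860656), (15, 513, 513, 102962496, 102843696), (4, 18, 18, 86204436, 56640786), (34, 528, 528, 56689236, 84959811), (4, 18, 18, 86204676, 56640801), (34, 528, 528, 56689956, 86008131)]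
  [(7, 24), (8, -24), (12, 48), (15, 24), (34, -24), (35, -48), (36, 0)] = true := by
  decide +kernel

theorem t17_3_3 : chkS lk17 3 3 [(1, m17_3)] l17_3
  [(17, 513, 513, 102962496, 102843696), (21, 513, 513, 86185056, 23217456), (21, 33, 258, 38875236, 22033986), (32, 33, 258, 55591266, 22241316), (32, 513, 513, 87294561, 23351811), (39, 288, 288, 52495446, 1205571), (22, 33, 258, 38875206, 5322306), (34, 33, 258, 38814006, 5445156), (23, 33, 258, 39923781, 83965506), (35, 528, 528, 67253526, 2503701), (35, 513, 513, 36963921, 34887171), (37, 288, 288, 102826821, 100738371), (37, 528, 528, 102765891, 102827316), (35, 33, 258, 36716886, 1267236), (35, 288, 288, 67315221, 33964821), (23, 513, 513, 40047936, 86066736), (34, 513, 513, 39061041, 39065091), (22, 513, 513, 38999616, 38880816)]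
  [(17, 8), (21, 8), (22, 8), (23, 4), (32, -8), (34, 4), (35, -8), (37, -8), (39, -8)] = true := by
  decide +kernel

theorem t17_3_4 : chkS lk17 3 3 [(1, m17_3)] l17_4
  [(8, 513, 513, 106112016, 106054416), (32, 288, 288, 16983396, 18891621), (32, 528, 528, 16921701, 16921701), (8, 33, 258, 106049556, 105919506), (12, 528, 528, 106050576, 106050576), (11, 258, 33, 17179731, 68289381), (35, 513, 513, 17183826, 68300901), (7, 33, 258, 88223766, 6632466), (11, 18, 18, 16933716, 51389541), (12, 288, 288, 106110996, 105923346), (7, 513, 513, 88286736, 40190736), (35, 33, 258, 16998996, 51397221)]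
  [(7, -12), (8, 12), (11, -24), (12, 24), (32, -12), (35, 12)] = true := by
  decide +kernel

theorem t17_3_5 : chkS lk17 3 3 [(1, m17_3)] l17_5
  [(12, 528, 528, 85079136, 23213136), (11, 528, 528, 68302416, 35009616), (24, 258, 33, 22422336, 72426336), (38, 258, 33, 55968321, 72442371), (12, 288, 288, 85139556, 23085906), (11, 288, 288, 68362326, 1459026), (8, 513, 513, 85140576, 23216976), (7, 513, 513, 68363856, 35013456), (25, 33, 258, 38875206, 5322306), (38, 288, 288, 38863686, 5318211), (35, 33, 258, 5464596, 55591446), (32, 258, 33, 85205091, 23331666), (32, 18, 18, 85082976, 23274576), (35, 513, 513, 5649426, 72495126), (38, 528, 528, 38803011, 38864436), (25, 513, 513, 38999616, 38880816), (7, 33, 258, 68300886, 1455186), (8, 33, 258, 85078116, 23082066)]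
  [(7, 16), (8, 20), (11, -4), (12, 4), (24, 4), (25, 4), (32, -20), (35, -16), (38, -8)] = true := by
  decide +kernel

theorem t17_3_6 : chkS lk17 3 3 [(1, m17_3)] l17_6
  [(25, 33, 258, 86061126, 6370626), (35, 33, 258, 84107796, 56640021), (8, 513, 513, 22226016, 22168416), (32, 288, 288, 100869396, 102777621), (7, 513, 513, 21177936, 34947936), (38, 288, 288, 86049606, 6366531), (38, 528, 528, 85988931, 39912756), (7, 33, 258, 21114966, 1389666), (32, 528, 528, 100807701, 100807701), (8, 33, 258, 22163556, 22033506), (35, 513, 513, 84292626, 73543701), (25, 513, 513, 86185536, 39929136), (24, 258, 33, 85336896, 73474896), (12, 288, 288, 22224996, 22037346), (12, 528, 528, 22164576, 22164576), (11, 258, 33, 84288531, 73532181), (11, 528, 528, 21116496, 34944096), (38, 258, 33, 87425601, 73486851)]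
  [(7, -8), (8, 8), (11, -16), (12, 16), (24, 16), (25, 16), (32, -8), (35, 8), (38, -32)] = true := by
  decide +kernel

theorem t17_4_4 : chkS lk17 3 3 [(1, m17_4)] l17_4
  [(10, 513, 513, 106112016, 106054416), (21, 258, 33, 70668801, 70668801), (29, 258, 33, 69620496, 70657296), (15, 33, 258, 106106916, 105922866), (14, 513, 513, 52843536, 70411536), (11, 288, 288, 88146726, 6627651), (1, 288, 288, 68362341, 17187666), (12, 513, 513, 17191971, 70386021), (1, 18, 18, 52695141, 17065266), (12, 288, 288, 105972516, 105914691), (9, 513, 513, 88286736, 40190736), (23, 513, 513, 87319041, 56906241)]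
  [(1, -24), (9, -24), (10, 24), (11, -12), (12, 24), (14, 12), (15, -12), (21, -24), (23, 24), (29, 12)] = true := by
  decide +kernel

theorem t17_4_5 : chkS lk17 3 3 [(1, m17_4)] l17_5
  [(15, 513, 513, 37114881, 70407681), (34, 288, 288, 103875666, 101863491), (15, 513, 513, 37114896, 70407696), (34, 288, 288, 103875621, 100815171), (4, 258, 33, 39019536, 55723536), (4, 258, 33, 39019521, 55723521), (8, 513, 513, 51794976, 70410576), (7, 258, 33, 51725856, 37970256), (8, 513, 513, 51794946, 70410321), (7, 258, 33, 51725826, 37970001), (36, 288, 288, 55641186, 22175811), (36, 288, 288, 55641126, 5398851), (35, 18, 18, 102048576, 104932176), (12, 288, 288, 39912261, 83961411), (35, 18, 18, 102048516, 104866641), (12, 288, 288, 39912276, 84944451), (3, 513, 513, 39019521, 55723521), (3, 513, 513, 39019536, 55723536)]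
  [(3, 36), (4, -36), (7, -12), (8, 12), (12, -24), (15, 24), (34, 12), (35, -12), (36, 0)] = true := by
  decide +kernel

theorem t17_4_6 : chkS lk17 3 3 [(1, m17_4)] l17_6
  [(8, 513, 513, 20337666, 70406241), (36, 288, 288, 87098466, 23220291), (8, 513, 513, 20337696, 70406496), (36, 288, 288, 87098406, 6443331), (7, 258, 33, 20268576, 37966176), (7, 258, 33, 20268546, 37965921), (35, 18, 18, 23405316, 88089441), (3, 513, 513, 86205441, 56771841), (35, 18, 18, 23405376, 88154976), (3, 513, 513, 86205456, 56771856), (12, 288, 288, 102826821, 100738371), (12, 288, 288, 102826836, 101721411), (15, 513, 513, 52843536, 70411536), (4, 258, 33, 86205456, 56771856), (15, 513, 513, 52843521, 70411521), (4, 258, 33, 86205441, 56771841), (34, 288, 288, 56689746, 85090371), (34, 288, 288, 56689701, 84042051)]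
  [(7, -48), (8, 48), (12, -24), (15, 24), (34, -24), (35, 24), (36, 0)] = true := by
  decide +kernel

theorem t17_5_5 : chkS lk17 3 3 [(1, m17_5)] l17_5
  [(18, 258, 33, 39928581, 84092481), (27, 528, 528, 86251056, 40113456), (21, 18, 18, 37838901, 50665026), (34, 288, 288, 70587936, 38162736), (34, 528, 528, 70586976, 21385776), (21, 258, 33, 37839621, 50669121), (20, 18, 18, 37838901, 50665026), (33, 528, 528, 54858336, 21324336), (6, 288, 288, 39195456, 72427056), (7, 258, 33, 101864196, 103818321), (7, 288, 288, 39195696, 72488496), (11, 288, 288, 55972896, 72507696), (33, 288, 288, 54859296, 38101296), (20, 258, 33, 37839621, 50669121), (7, 528, 528, 39195456, 72427056), (11, 528, 528, 55972416, 72442416), (6, 528, 528, 39195696, 72488496), (7, 18, 18, 101863476, 103814226)]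
  [(6, 28), (7, 16), (11, -8), (18, 20), (20, -16), (21, -16), (27, 16), (33, -20), (34, -20)] = true := by
  decide +kernel

theorem t17_5_6 : chkS lk17 3 3 [(1, m17_5)] l17_6
  [(6, 288, 288, 86381376, 73475376), (7, 288, 288, 86381616, 73536816), (20, 18, 18, 69296181, 50730306), (11, 288, 288, 87430176, 73552176), (33, 528, 528, 70586976, 21385776), (7, 258, 33, 23220996, 87041121), (7, 528, 528, 86381376, 73475376), (6, 528, 528, 86381616, 73536816), (33, 288, 288, 70587936, 38162736), (7, 18, 18, 23220276, 87037026), (20, 258, 33, 69296901, 50734401), (11, 528, 528, 87429696, 73486896), (21, 18, 18, 69296181, 50730306), (34, 528, 528, 54858336, 21324336), (18, 258, 33, 102843141, 100869441), (21, 258, 33, 69296901, 50734401), (27, 528, 528, 39065136, 39065136), (34, 288, 288, 54859296, 38101296)]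
  [(6, 40), (7, -8), (11, -32), (18, 8), (20, 8), (21, 8), (27, -8), (33, -8), (34, -8)] = true := by
  decide +kernel

theorem t17_6_6 : chkS lk17 3 3 [(1, m17_6)] l17_6
  [(18, 288, 288, 103027536, 101983536), (21, 288, 288, 69604176, 68560176), (21, 33, 258, 69603411, 68551986), (34, 513, 513, 54612486, 3498561), (34, 258, 33, 54613506, 37052481), (27, 513, 513, 38880771, 38995521), (20, 288, 288, 69604176, 68560176), (6, 513, 513, 86074371, 56755521), (11, 513, 513, 87122436, 56644161), (7, 33, 258, 23404611, 88146786), (7, 513, 513, 86074116, 56632641), (33, 258, 33, 70342146, 37113921), (20, 33, 258, 69603411, 68551986), (11, 258, 33, 87122946, 56774721), (6, 258, 33, 86074116, 56632641), (7, 258, 33, 86074371, 56755521), (7, 288, 288, 23405376, 88154976), (33, 513, 513, 70341126, 3560001)]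
  [(6, 16), (7, -32), (11, 16), (18, 32), (20, 32), (21, 32), (27, -32), (33, -32), (34, -32)] = true := by
  decide +kernel

section

variable {κ ι : Type*} [Fintype κ] [Fintype ι] [Inhabited κ] [Inhabited ι]

noncomputable def F17_0 (E : Env κ ι) : (Fin 3 → κ) → (Fin 3 → ι) → ℝ := op2 (P2 κ) (P2 ι) (fB E 3 3 m17_0)

noncomputable def F17_1 (E : Env κ ι) : (Fin 3 → κ) → (Fin 3 → ι) → ℝ := op2 (P2 κ) (P2 ι) (fB E 3 3 m17_1)

noncomputable def F17_2 (E : Env κ ι) : (Fin 3 → κ) → (Fin 3 → ι) → ℝ := op2 (P2 κ) (P2 ι) (fB E 3 3 m17_2)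

noncomputable def F17_3 (E : Env κ ι) : (Fin 3 → κ) → (Fin 3 → ι) → ℝ := op2 (P2 κ) (P2 ι) (fB E 3 3 m17_3)

noncomputable def F17_4 (E : Env κ ι) : (Fin 3 → κ) → (Fin 3 → ι) → ℝ := op2 (P2 κ) (P2 ι) (fB E 3 3 m17_4)

noncomputable def F17_5 (E : Env κ ι) : (Fin 3 → κ) → (Fin 3 → ι) → ℝ := op2 (P2 κ) (P2 ι) (fB E 3 3 m17_5)

noncomputable def F17_6 (E : Env κ ι) : (Fin 3 → κ) → (Fin 3 → ι) → ℝ := op2 (P2 κ) (P2 ι) (fB E 3 3 m17_6)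

def r17_0_0 : List (ℕ × ℤ) := [(13, 36), (16, 36), (26, -36), (28, -36)]

theorem h17_0_0 (E : Env κ ι) : ip (F17_0 E) (F17_0 E) = dotS (ek E lk17) r17_0_0 :=
  op_entryZ E lk17 3 3 _ _ _ _ (pg2 κ) (pg2 ι) m17_0 m17_0 l17_0 z17_0 w17_0 x17_0 (by decide) _ (chkS_sound E lk17 3 3 _ _ _ _ t17_0_0)

def r17_0_1 : List (ℕ × ℤ) := [(1, 36), (2, -36), (19, 36), (30, -36)]

theorem h17_0_1 (E : Env κ ι) : ip (F17_0 E) (F17_1 E) = dotS (ek E lk17) r17_0_1 :=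
  op_entryZ E lk17 3 3 _ _ _ _ (pg2 κ) (pg2 ι) m17_0 m17_1 l17_1 z17_1 w17_1 x17_1 (by decide) _ (chkS_sound E lk17 3 3 _ _ _ _ t17_0_1)

def r17_0_2 : List (ℕ × ℤ) := [(0, -36), (1, -36), (2, 36), (13, 36), (14, 0)]

theorem h17_0_2 (E : Env κ ι) : ip (F17_0 E) (F17_2 E) = dotS (ek E lk17) r17_0_2 :=
  op_entryZ E lk17 3 3 _ _ _ _ (pg2 κ) (pg2 ι) m17_0 m17_2 l17_2 z17_2 w17_2 x17_2 (by decide) _ (chkS_sound E lk17 3 3 _ _ _ _ t17_0_2)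

def r17_0_3 : List (ℕ × ℤ) := [(2, -36), (29, 36), (30, 0)]

theorem h17_0_3 (E : Env κ ι) : ip (F17_0 E) (F17_3 E) = dotS (ek E lk17) r17_0_3 :=
  op_entryZ E lk17 3 3 _ _ _ _ (pg2 κ) (pg2 ι) m17_0 m17_3 l17_3 z17_3 w17_3 x17_3 (by decide) _ (chkS_sound E lk17 3 3 _ _ _ _ t17_0_3)

def r17_0_4 : List (ℕ × ℤ) := [(1, 36), (14, -36)]

theorem h17_0_4 (E : Env κ ι) : ip (F17_0 E) (F17_4 E) = dotS (ek E lk17) r17_0_4 :=
  op_entryZ E lk17 3 3 _ _ _ _ (pg2 κ) (pg2 ι) m17_0 m17_4 l17_4 z17_4 w17_4 x17_4 (by decide) _ (chkS_sound E lk17 3 3 _ _ _ _ t17_0_4)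

def r17_0_5 : List (ℕ × ℤ) := [(1, 36), (2, -36), (5, -36), (31, 36)]

theorem h17_0_5 (E : Env κ ι) : ip (F17_0 E) (F17_5 E) = dotS (ek E lk17) r17_0_5 :=
  op_entryZ E lk17 3 3 _ _ _ _ (pg2 κ) (pg2 ι) m17_0 m17_5 l17_5 z17_5 w17_5 x17_5 (by decide) _ (chkS_sound E lk17 3 3 _ _ _ _ t17_0_5)

def r17_0_6 : List (ℕ × ℤ) := [(1, 72), (14, -72), (31, 0)]

theorem h17_0_6 (E : Env κ ι) : ip (F17_0 E) (F17_6 E) = dotS (ek E lk17) r17_0_6 :=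
  op_entryZ E lk17 3 3 _ _ _ _ (pg2 κ) (pg2 ι) m17_0 m17_6 l17_6 z17_6 w17_6 x17_6 (by decide) _ (chkS_sound E lk17 3 3 _ _ _ _ t17_0_6)

def r17_1_1 : List (ℕ × ℤ) := [(17, 20), (21, -16), (22, -16), (23, -8), (32, -20), (34, 28), (35, 16), (37, -20), (39, 16)]

theorem h17_1_1 (E : Env κ ι) : ip (F17_1 E) (F17_1 E) = dotS (ek E lk17) r17_1_1 :=
  op_entryZ E lk17 3 3 _ _ _ _ (pg2 κ) (pg2 ι) m17_1 m17_1 l17_1 z17_1 w17_1 x17_1 (by decide) _ (chkS_sound E lk17 3 3 _ _ _ _ t17_1_1)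

def r17_1_2 : List (ℕ × ℤ) := [(7, 12), (8, 24), (11, -12), (12, -24), (20, -36), (32, 12), (33, 36), (35, -12)]

theorem h17_1_2 (E : Env κ ι) : ip (F17_1 E) (F17_2 E) = dotS (ek E lk17) r17_1_2 :=
  op_entryZ E lk17 3 3 _ _ _ _ (pg2 κ) (pg2 ι) m17_1 m17_2 l17_2 z17_2 w17_2 x17_2 (by decide) _ (chkS_sound E lk17 3 3 _ _ _ _ t17_1_2)

def r17_1_3 : List (ℕ × ℤ) := [(17, 4), (21, 4), (22, 4), (23, -16), (32, -4), (34, 20), (35, -4), (37, -4), (39, -4)]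

theorem h17_1_3 (E : Env κ ι) : ip (F17_1 E) (F17_3 E) = dotS (ek E lk17) r17_1_3 :=
  op_entryZ E lk17 3 3 _ _ _ _ (pg2 κ) (pg2 ι) m17_1 m17_3 l17_3 z17_3 w17_3 x17_3 (by decide) _ (chkS_sound E lk17 3 3 _ _ _ _ t17_1_3)

def r17_1_4 : List (ℕ × ℤ) := [(7, 12), (8, -12), (11, -12), (12, 12), (32, -24), (35, 24)]

theorem h17_1_4 (E : Env κ ι) : ip (F17_1 E) (F17_4 E) = dotS (ek E lk17) r17_1_4 :=
  op_entryZ E lk17 3 3 _ _ _ _ (pg2 κ) (pg2 ι) m17_1 m17_4 l17_4 z17_4 w17_4 x17_4 (by decide) _ (chkS_sound E lk17 3 3 _ _ _ _ t17_1_4)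

def r17_1_5 : List (ℕ × ℤ) := [(7, 8), (8, -8), (11, 16), (12, 20), (24, -16), (25, 20), (32, -28), (35, -8), (38, -4)]

theorem h17_1_5 (E : Env κ ι) : ip (F17_1 E) (F17_5 E) = dotS (ek E lk17) r17_1_5 :=
  op_entryZ E lk17 3 3 _ _ _ _ (pg2 κ) (pg2 ι) m17_1 m17_5 l17_5 z17_5 w17_5 x17_5 (by decide) _ (chkS_sound E lk17 3 3 _ _ _ _ t17_1_5)

def r17_1_6 : List (ℕ × ℤ) := [(7, 32), (8, -32), (11, -8), (12, 8), (24, 8), (25, 8), (32, -40), (35, 40), (38, -16)]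

theorem h17_1_6 (E : Env κ ι) : ip (F17_1 E) (F17_6 E) = dotS (ek E lk17) r17_1_6 :=
  op_entryZ E lk17 3 3 _ _ _ _ (pg2 κ) (pg2 ι) m17_1 m17_6 l17_6 z17_6 w17_6 x17_6 (by decide) _ (chkS_sound E lk17 3 3 _ _ _ _ t17_1_6)

def r17_2_2 : List (ℕ × ℤ) := [(1, -24), (9, 12), (10, 24), (11, 24), (12, 24), (14, -24), (15, -12), (21, -24), (23, -12), (29, 12)]

theorem h17_2_2 (E : Env κ ι) : ip (F17_2 E) (F17_2 E) = dotS (ek E lk17) r17_2_2 :=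
  op_entryZ E lk17 3 3 _ _ _ _ (pg2 κ) (pg2 ι) m17_2 m17_2 l17_2 z17_2 w17_2 x17_2 (by decide) _ (chkS_sound E lk17 3 3 _ _ _ _ t17_2_2)

def r17_2_3 : List (ℕ × ℤ) := [(7, 24), (8, 12), (11, 12), (12, -12), (32, -12), (35, -24)]

theorem h17_2_3 (E : Env κ ι) : ip (F17_2 E) (F17_3 E) = dotS (ek E lk17) r17_2_3 :=
  op_entryZ E lk17 3 3 _ _ _ _ (pg2 κ) (pg2 ι) m17_2 m17_3 l17_3 z17_3 w17_3 x17_3 (by decide) _ (chkS_sound E lk17 3 3 _ _ _ _ t17_2_3)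

def r17_2_4 : List (ℕ × ℤ) := [(1, 12), (9, 12), (10, -12), (11, -12), (12, -12), (14, 12), (15, 24), (21, 12), (23, -12), (29, -24)]

theorem h17_2_4 (E : Env κ ι) : ip (F17_2 E) (F17_4 E) = dotS (ek E lk17) r17_2_4 :=
  op_entryZ E lk17 3 3 _ _ _ _ (pg2 κ) (pg2 ι) m17_2 m17_4 l17_4 z17_4 w17_4 x17_4 (by decide) _ (chkS_sound E lk17 3 3 _ _ _ _ t17_2_4)

def r17_2_5 : List (ℕ × ℤ) := [(4, 36), (7, 24), (8, 12), (12, 12), (15, -12), (34, -24), (35, -12), (36, -36)]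

theorem h17_2_5 (E : Env κ ι) : ip (F17_2 E) (F17_5 E) = dotS (ek E lk17) r17_2_5 :=
  op_entryZ E lk17 3 3 _ _ _ _ (pg2 κ) (pg2 ι) m17_2 m17_5 l17_5 z17_5 w17_5 x17_5 (by decide) _ (chkS_sound E lk17 3 3 _ _ _ _ t17_2_5)

def r17_2_6 : List (ℕ × ℤ) := [(7, 24), (8, -24), (12, 48), (15, 24), (34, -24), (35, -48), (36, 0)]

theorem h17_2_6 (E : Env κ ι) : ip (F17_2 E) (F17_6 E) = dotS (ek E lk17) r17_2_6 :=
  op_entryZ E lk17 3 3 _ _ _ _ (pg2 κ) (pg2 ι) m17_2 m17_6 l17_6 z17_6 w17_6 x17_6 (by decide) _ (chkS_sound E lk17 3 3 _ _ _ _ t17_2_6)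

def r17_3_3 : List (ℕ × ℤ) := [(17, 8), (21, 8), (22, 8), (23, 4), (32, -8), (34, 4), (35, -8), (37, -8), (39, -8)]

theorem h17_3_3 (E : Env κ ι) : ip (F17_3 E) (F17_3 E) = dotS (ek E lk17) r17_3_3 :=
  op_entryZ E lk17 3 3 _ _ _ _ (pg2 κ) (pg2 ι) m17_3 m17_3 l17_3 z17_3 w17_3 x17_3 (by decide) _ (chkS_sound E lk17 3 3 _ _ _ _ t17_3_3)

def r17_3_4 : List (ℕ × ℤ) := [(7, -12), (8, 12), (11, -24), (12, 24), (32, -12), (35, 12)]

theorem h17_3_4 (E : Env κ ι) : ip (F17_3 E) (F17_4 E) = dotS (ek E lk17) r17_3_4 :=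
  op_entryZ E lk17 3 3 _ _ _ _ (pg2 κ) (pg2 ι) m17_3 m17_4 l17_4 z17_4 w17_4 x17_4 (by decide) _ (chkS_sound E lk17 3 3 _ _ _ _ t17_3_4)

def r17_3_5 : List (ℕ × ℤ) := [(7, 16), (8, 20), (11, -4), (12, 4), (24, 4), (25, 4), (32, -20), (35, -16), (38, -8)]

theorem h17_3_5 (E : Env κ ι) : ip (F17_3 E) (F17_5 E) = dotS (ek E lk17) r17_3_5 :=
  op_entryZ E lk17 3 3 _ _ _ _ (pg2 κ) (pg2 ι) m17_3 m17_5 l17_5 z17_5 w17_5 x17_5 (by decide) _ (chkS_sound E lk17 3 3 _ _ _ _ t17_3_5)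

def r17_3_6 : List (ℕ × ℤ) := [(7, -8), (8, 8), (11, -16), (12, 16), (24, 16), (25, 16), (32, -8), (35, 8), (38, -32)]

theorem h17_3_6 (E : Env κ ι) : ip (F17_3 E) (F17_6 E) = dotS (ek E lk17) r17_3_6 :=
  op_entryZ E lk17 3 3 _ _ _ _ (pg2 κ) (pg2 ι) m17_3 m17_6 l17_6 z17_6 w17_6 x17_6 (by decide) _ (chkS_sound E lk17 3 3 _ _ _ _ t17_3_6)

def r17_4_4 : List (ℕ × ℤ) := [(1, -24), (9, -24), (10, 24), (11, -12), (12, 24), (14, 12), (15, -12), (21, -24), (23, 24), (29, 12)]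

theorem h17_4_4 (E : Env κ ι) : ip (F17_4 E) (F17_4 E) = dotS (ek E lk17) r17_4_4 :=
  op_entryZ E lk17 3 3 _ _ _ _ (pg2 κ) (pg2 ι) m17_4 m17_4 l17_4 z17_4 w17_4 x17_4 (by decide) _ (chkS_sound E lk17 3 3 _ _ _ _ t17_4_4)

def r17_4_5 : List (ℕ × ℤ) := [(3, 36), (4, -36), (7, -12), (8, 12), (12, -24), (15, 24), (34, 12), (35, -12), (36, 0)]

theorem h17_4_5 (E : Env κ ι) : ip (F17_4 E) (F17_5 E) = dotS (ek E lk17) r17_4_5 :=
  op_entryZ E lk17 3 3 _ _ _ _ (pg2 κ) (pg2 ι) m17_4 m17_5 l17_5 z17_5 w17_5 x17_5 (by decide) _ (chkS_sound E lk17 3 3 _ _ _ _ t17_4_5)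

def r17_4_6 : List (ℕ × ℤ) := [(7, -48), (8, 48), (12, -24), (15, 24), (34, -24), (35, 24), (36, 0)]

theorem h17_4_6 (E : Env κ ι) : ip (F17_4 E) (F17_6 E) = dotS (ek E lk17) r17_4_6 :=
  op_entryZ E lk17 3 3 _ _ _ _ (pg2 κ) (pg2 ι) m17_4 m17_6 l17_6 z17_6 w17_6 x17_6 (by decide) _ (chkS_sound E lk17 3 3 _ _ _ _ t17_4_6)

def r17_5_5 : List (ℕ × ℤ) := [(6, 28), (7, 16), (11, -8), (18, 20), (20, -16), (21, -16), (27, 16), (33, -20), (34, -20)]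

theorem h17_5_5 (E : Env κ ι) : ip (F17_5 E) (F17_5 E) = dotS (ek E lk17) r17_5_5 :=
  op_entryZ E lk17 3 3 _ _ _ _ (pg2 κ) (pg2 ι) m17_5 m17_5 l17_5 z17_5 w17_5 x17_5 (by decide) _ (chkS_sound E lk17 3 3 _ _ _ _ t17_5_5)

def r17_5_6 : List (ℕ × ℤ) := [(6, 40), (7, -8), (11, -32), (18, 8), (20, 8), (21, 8), (27, -8), (33, -8), (34, -8)]

theorem h17_5_6 (E : Env κ ι) : ip (F17_5 E) (F17_6 E) = dotS (ek E lk17) r17_5_6 :=
  op_entryZ E lk17 3 3 _ _ _ _ (pg2 κ) (pg2 ι) m17_5 m17_6 l17_6 z17_6 w17_6 x17_6 (by decide) _ (chkS_sound E lk17 3 3 _ _ _ _ t17_5_6)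

def r17_6_6 : List (ℕ × ℤ) := [(6, 16), (7, -32), (11, 16), (18, 32), (20, 32), (21, 32), (27, -32), (33, -32), (34, -32)]

theorem h17_6_6 (E : Env κ ι) : ip (F17_6 E) (F17_6 E) = dotS (ek E lk17) r17_6_6 :=
  op_entryZ E lk17 3 3 _ _ _ _ (pg2 κ) (pg2 ι) m17_6 m17_6 l17_6 z17_6 w17_6 x17_6 (by decide) _ (chkS_sound E lk17 3 3 _ _ _ _ t17_6_6)

theorem row17_0 (E : Env κ ι) : RowG (ek E lk17) (F17_0 E) [F17_0 E, F17_1 E, F17_2 E, F17_3 E, F17_4 E, F17_5 E, F17_6 E] [r17_0_0, r17_0_1, r17_0_2, r17_0_3, r17_0_4, r17_0_5, r17_0_6] :=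
  rowG_cons _ _ _ _ _ _ (h17_0_0 E) (rowG_cons _ _ _ _ _ _ (h17_0_1 E) (rowG_cons _ _ _ _ _ _ (h17_0_2 E) (rowG_cons _ _ _ _ _ _ (h17_0_3 E) (rowG_cons _ _ _ _ _ _ (h17_0_4 E) (rowG_cons _ _ _ _ _ _ (h17_0_5 E) (rowG_cons _ _ _ _ _ _ (h17_0_6 E) (rowG_nil _ _)))))))

theorem row17_1 (E : Env κ ι) : RowG (ek E lk17) (F17_1 E) [F17_1 E, F17_2 E, F17_3 E, F17_4 E, F17_5 E, F17_6 E] [r17_1_1, r17_1_2, r17_1_3, r17_1_4, r17_1_5, r17_1_6] :=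
  rowG_cons _ _ _ _ _ _ (h17_1_1 E) (rowG_cons _ _ _ _ _ _ (h17_1_2 E) (rowG_cons _ _ _ _ _ _ (h17_1_3 E) (rowG_cons _ _ _ _ _ _ (h17_1_4 E) (rowG_cons _ _ _ _ _ _ (h17_1_5 E) (rowG_cons _ _ _ _ _ _ (h17_1_6 E) (rowG_nil _ _))))))

theorem row17_2 (E : Env κ ι) : RowG (ek E lk17) (F17_2 E) [F17_2 E, F17_3 E, F17_4 E, F17_5 E, F17_6 E] [r17_2_2, r17_2_3, r17_2_4, r17_2_5, r17_2_6] :=
  rowG_cons _ _ _ _ _ _ (h17_2_2 E) (rowG_cons _ _ _ _ _ _ (h17_2_3 E) (rowG_cons _ _ _ _ _ _ (h17_2_4 E) (rowG_cons _ _ _ _ _ _ (h17_2_5 E) (rowG_cons _ _ _ _ _ _ (h17_2_6 E) (rowG_nil _ _)))))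

theorem row17_3 (E : Env κ ι) : RowG (ek E lk17) (F17_3 E) [F17_3 E, F17_4 E, F17_5 E, F17_6 E] [r17_3_3, r17_3_4, r17_3_5, r17_3_6] :=
  rowG_cons _ _ _ _ _ _ (h17_3_3 E) (rowG_cons _ _ _ _ _ _ (h17_3_4 E) (rowG_cons _ _ _ _ _ _ (h17_3_5 E) (rowG_cons _ _ _ _ _ _ (h17_3_6 E) (rowG_nil _ _))))

theorem row17_4 (E : Env κ ι) : RowG (ek E lk17) (F17_4 E) [F17_4 E, F17_5 E, F17_6 E] [r17_4_4, r17_4_5, r17_4_6] :=
  rowG_cons _ _ _ _ _ _ (h17_4_4 E) (rowG_cons _ _ _ _ _ _ (h17_4_5 E) (rowG_cons _ _ _ _ _ _ (h17_4_6 E) (rowG_nil _ _)))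

theorem row17_5 (E : Env κ ι) : RowG (ek E lk17) (F17_5 E) [F17_5 E, F17_6 E] [r17_5_5, r17_5_6] :=
  rowG_cons _ _ _ _ _ _ (h17_5_5 E) (rowG_cons _ _ _ _ _ _ (h17_5_6 E) (rowG_nil _ _))

theorem row17_6 (E : Env κ ι) : RowG (ek E lk17) (F17_6 E) [F17_6 E] [r17_6_6] :=
  rowG_cons _ _ _ _ _ _ (h17_6_6 E) (rowG_nil _ _)

def tab17 : List (List (List (ℕ × ℤ))) := [[r17_0_0, r17_0_1, r17_0_2, r17_0_3, r17_0_4, r17_0_5, r17_0_6], [r17_1_1, r17_1_2, r17_1_3, r17_1_4, r17_1_5, r17_1_6], [r17_2_2, r17_2_3, r17_2_4, r17_2_5, r17_2_6], [r17_3_3, r17_3_4, r17_3_5, r17_3_6], [r17_4_4, r17_4_5, r17_4_6], [r17_5_5, r17_5_6], [r17_6_6]]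

theorem tri17 (E : Env κ ι) : TriG (ek E lk17) [F17_0 E, F17_1 E, F17_2 E, F17_3 E, F17_4 E, F17_5 E, F17_6 E] tab17 := by
  refine triG_cons _ _ _ _ _ (row17_0 E) ?_
  refine triG_cons _ _ _ _ _ (row17_1 E) ?_
  refine triG_cons _ _ _ _ _ (row17_2 E) ?_
  refine triG_cons _ _ _ _ _ (row17_3 E) ?_
  refine triG_cons _ _ _ _ _ (row17_4 E) ?_
  refine triG_cons _ _ _ _ _ (row17_5 E) ?_
  refine triG_cons _ _ _ _ _ (row17_6 E) ?_
  exact triG_nil _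

end

def lk18 : List Key := [
  (3, 7, [(0, [0], [0, 1]), (0, [1], [0, 2]), (0, [0], [2, 3]), (0, [2], [1, 4]), (0, [1], [5, 6]), (0, [2], [5, 6]), (4, [], [3]), (4, [], [4])]),
  (3, 7, [(0, [0], [0, 1]), (0, [0], [0, 2]), (0, [1], [1, 2]), (4, [], [3]), (0, [2], [4, 5]), (0, [2], [4, 6]), (0, [1], [3, 6]), (4, [], [5])]),
  (3, 7, [(0, [0], [0, 1]), (0, [0], [0, 2]), (0, [1], [1, 2]), (4, [], [3]), (0, [2], [4, 5]), (0, [2], [3, 6]), (0, [1], [4, 6]), (4, [], [5])]),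
  (3, 7, [(0, [0], [0, 1]), (0, [0], [0, 2]), (0, [1], [3, 2]), (4, [], [1]), (0, [2], [4, 5]), (0, [2], [4, 6]), (0, [1], [3, 6]), (4, [], [5])]),
  (3, 7, [(0, [0], [0, 1]), (0, [0], [0, 2]), (0, [1], [3, 2]), (4, [], [1]), (0, [2], [4, 5]), (0, [2], [3, 6]), (0, [1], [4, 6]), (4, [], [5])]),
  (3, 7, [(0, [0], [0, 1]), (0, [0], [0, 2]), (0, [1], [3, 2]), (4, [], [1]), (0, [2], [4, 5]), (0, [2], [3, 4]), (0, [1], [5, 6]), (4, [], [6])]),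
  (3, 7, [(0, [0], [0, 1]), (0, [0], [0, 1]), (0, [1], [2, 3]), (4, [], [3]), (0, [2], [4, 5]), (0, [2], [2, 6]), (0, [1], [4, 6]), (4, [], [5])]),
  (3, 7, [(0, [0], [0, 1]), (0, [0], [0, 1]), (0, [1], [2, 3]), (4, [], [3]), (0, [2], [4, 5]), (0, [2], [2, 4]), (0, [1], [5, 6]), (4, [], [6])]),
  (3, 7, [(0, [0], [0, 1]), (0, [0], [2, 3]), (0, [1], [0, 3]), (4, [], [1]), (0, [2], [4, 5]), (0, [2], [2, 6]), (0, [1], [4, 6]), (4, [], [5])]),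
  (3, 7, [(0, [0], [0, 1]), (0, [0], [2, 3]), (0, [1], [0, 3]), (4, [], [1]), (0, [2], [4, 5]), (0, [2], [2, 4]), (0, [1], [5, 6]), (4, [], [6])]),
  (3, 7, [(0, [0], [0, 1]), (0, [0], [2, 3]), (0, [1], [0, 1]), (4, [], [3]), (0, [2], [4, 5]), (0, [2], [2, 4]), (0, [1], [5, 6]), (4, [], [6])]),
  (3, 7, [(0, [0], [0, 1]), (0, [0], [2, 0]), (0, [1], [1, 3]), (4, [], [3]), (0, [2], [4, 5]), (0, [2], [2, 4]), (0, [1], [5, 6]), (4, [], [6])]),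
  (3, 7, [(0, [0], [0, 1]), (0, [0], [2, 0]), (0, [1], [3, 1]), (4, [], [4]), (0, [2], [5, 6]), (0, [2], [3, 5]), (0, [1], [2, 6]), (4, [], [4])]),
  (3, 7, [(0, [0], [0, 1]), (0, [0], [2, 0]), (0, [1], [3, 1]), (4, [], [4]), (0, [2], [5, 6]), (0, [2], [4, 5]), (0, [1], [2, 3]), (4, [], [6])]),
  (3, 7, [(0, [0], [0, 1]), (0, [0], [2, 0]), (0, [1], [3, 1]), (4, [], [4]), (0, [2], [5, 6]), (0, [2], [2, 3]), (0, [1], [4, 5]), (4, [], [6])]),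
  (3, 7, [(0, [0], [0, 1]), (0, [0], [2, 0]), (0, [1], [3, 1]), (4, [], [4]), (0, [2], [5, 6]), (0, [2], [3, 4]), (0, [1], [2, 5]), (4, [], [6])]),
  (3, 7, [(0, [0], [0, 1]), (0, [0], [2, 0]), (0, [1], [3, 1]), (4, [], [4]), (0, [2], [2, 5]), (0, [2], [3, 6]), (0, [1], [5, 6]), (4, [], [4])]),
  (3, 7, [(0, [0], [0, 1]), (0, [0], [2, 0]), (0, [1], [3, 1]), (4, [], [4]), (0, [2], [3, 5]), (0, [2], [2, 6]), (0, [1], [4, 6]), (4, [], [5])]),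
  (3, 7, [(0, [0], [0, 1]), (0, [0], [2, 0]), (0, [1], [3, 1]), (4, [], [4]), (0, [2], [4, 5]), (0, [2], [2, 6]), (0, [1], [3, 6]), (4, [], [5])]),
  (3, 7, [(0, [0], [0, 1]), (0, [0], [2, 0]), (0, [1], [3, 1]), (4, [], [4]), (0, [2], [4, 5]), (0, [2], [3, 6]), (0, [1], [2, 6]), (4, [], [5])]),
  (3, 7, [(0, [0], [0, 1]), (0, [0], [2, 0]), (0, [1], [3, 4]), (4, [], [1]), (0, [2], [3, 5]), (0, [2], [4, 6]), (0, [1], [5, 6]), (4, [], [2])]),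
  (3, 7, [(0, [0], [0, 1]), (0, [0], [2, 3]), (0, [1], [0, 1]), (4, [], [4]), (0, [2], [5, 6]), (0, [2], [2, 4]), (0, [1], [3, 5]), (4, [], [6])]),
  (3, 7, [(0, [0], [0, 1]), (0, [0], [2, 3]), (0, [1], [4, 0]), (4, [], [1]), (0, [2], [5, 6]), (0, [2], [2, 4]), (0, [1], [3, 5]), (4, [], [6])]),
  (3, 7, [(0, [0], [0, 1]), (0, [0], [2, 3]), (0, [1], [4, 0]), (4, [], [1]), (0, [2], [2, 5]), (0, [2], [3, 6]), (0, [1], [5, 6]), (4, [], [4])]),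
  (3, 7, [(0, [0], [0, 1]), (0, [0], [2, 3]), (0, [1], [4, 0]), (4, [], [1]), (0, [2], [2, 5]), (0, [2], [4, 6]), (0, [1], [5, 6]), (4, [], [3])]),
  (3, 7, [(0, [0], [0, 1]), (0, [0], [2, 3]), (0, [1], [4, 0]), (4, [], [1]), (0, [2], [2, 5]), (0, [2], [4, 6]), (0, [1], [3, 6]), (4, [], [5])]),
  (3, 7, [(0, [0], [0, 1]), (0, [0], [2, 3]), (0, [1], [4, 0]), (4, [], [1]), (0, [2], [4, 5]), (0, [2], [2, 6]), (0, [1], [3, 6]), (4, [], [5])]),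
  (3, 7, [(0, [0], [0, 1]), (0, [0], [2, 3]), (0, [1], [1, 3]), (4, [], [4]), (0, [2], [0, 5]), (0, [2], [2, 6]), (0, [1], [5, 6]), (4, [], [4])]),
  (3, 7, [(0, [0], [0, 1]), (0, [0], [2, 3]), (0, [1], [1, 3]), (4, [], [4]), (0, [2], [4, 5]), (0, [2], [0, 6]), (0, [1], [2, 6]), (4, [], [5])]),
  (3, 7, [(0, [0], [0, 1]), (0, [0], [2, 3]), (0, [1], [4, 1]), (4, [], [5]), (0, [2], [0, 6]), (0, [2], [2, 4]), (0, [1], [3, 6]), (4, [], [5])])]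

def kl18 : List ℕ := [57, 95, 97, 109, 111, 112, 119, 120, 125, 126, 133, 144, 217, 218, 220, 221, 222, 223, 224, 225, 253, 267, 284, 285, 286, 287, 288, 302, 303, 429]

def m18_0 : Base := (0, 2, [(0, [0], [3, 4]), (0, [1], [0, 3]), (0, [2], [1, 4]), (4, [], [2])])

def l18_0 : Cov := [(12, 0, 2, [(0, [0], [3, 4]), (0, [1], [0, 3]), (0, [2], [1, 4]), (4, [], [2])]),
  (24, 0, 2, [(0, [0], [3, 4]), (0, [1], [0, 3]), (0, [2], [2, 4]), (4, [], [1])]),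
  (-12, 0, 2, [(0, [0], [3, 4]), (0, [1], [1, 3]), (0, [2], [0, 4]), (4, [], [2])]),
  (12, 0, 2, [(0, [0], [3, 4]), (0, [1], [1, 3]), (0, [2], [2, 4]), (4, [], [0])]),
  (-24, 0, 2, [(0, [0], [3, 4]), (0, [1], [2, 3]), (0, [2], [0, 4]), (4, [], [1])]),
  (-12, 0, 2, [(0, [0], [3, 4]), (0, [1], [2, 3]), (0, [2], [1, 4]), (4, [], [0])]),
  (-12, 0, 2, [(0, [1], [3, 4]), (0, [0], [0, 3]), (0, [2], [1, 4]), (4, [], [2])]),
  (-24, 0, 2, [(0, [1], [3, 4]), (0, [0], [0, 3]), (0, [2], [2, 4]), (4, [], [1])]),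
  (12, 0, 2, [(0, [1], [3, 4]), (0, [0], [1, 3]), (0, [2], [0, 4]), (4, [], [2])]),
  (-12, 0, 2, [(0, [1], [3, 4]), (0, [0], [1, 3]), (0, [2], [2, 4]), (4, [], [0])]),
  (24, 0, 2, [(0, [1], [3, 4]), (0, [0], [2, 3]), (0, [2], [0, 4]), (4, [], [1])]),
  (12, 0, 2, [(0, [1], [3, 4]), (0, [0], [2, 3]), (0, [2], [1, 4]), (4, [], [0])]),
  (12, 0, 2, [(0, [2], [3, 4]), (0, [0], [0, 3]), (0, [1], [1, 4]), (4, [], [2])]),
  (24, 0, 2, [(0, [2], [3, 4]), (0, [0], [0, 3]), (0, [1], [2, 4]), (4, [], [1])]),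
  (-12, 0, 2, [(0, [2], [3, 4]), (0, [0], [1, 3]), (0, [1], [0, 4]), (4, [], [2])]),
  (12, 0, 2, [(0, [2], [3, 4]), (0, [0], [1, 3]), (0, [1], [2, 4]), (4, [], [0])]),
  (-24, 0, 2, [(0, [2], [3, 4]), (0, [0], [2, 3]), (0, [1], [0, 4]), (4, [], [1])]),
  (-12, 0, 2, [(0, [2], [3, 4]), (0, [0], [2, 3]), (0, [1], [1, 4]), (4, [], [0])])]

def z18_0 : Cov := []

def w18_0 : List (List Wit) := [[(0, 0, 0, 16, 16), (1, 0, 0, 16, 16), (2, 0, 0, 16, 16), (3, 0, 0, 16, 16), (4, 0, 0, 16, 16), (5, 0, 0, 16, 16)],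
  [(2, 0, 0, 1, 1), (4, 0, 0, 1, 1), (0, 0, 0, 1, 1), (5, 0, 0, 1, 1), (1, 0, 0, 1, 1), (3, 0, 0, 1, 1)],
  [(6, 0, 0, 16, 16), (7, 0, 0, 16, 16), (8, 0, 0, 16, 16), (9, 0, 0, 16, 16), (10, 0, 0, 16, 16), (11, 0, 0, 16, 16)],
  [(8, 0, 0, 1, 1), (10, 0, 0, 1, 1), (6, 0, 0, 1, 1), (11, 0, 0, 1, 1), (7, 0, 0, 1, 1), (9, 0, 0, 1, 1)],
  [(12, 0, 0, 16, 16), (13, 0, 0, 16, 16), (14, 0, 0, 16, 16), (15, 0, 0, 16, 16), (16, 0, 0, 16, 16), (17, 0, 0, 16, 16)],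
  [(14, 0, 0, 1, 1), (16, 0, 0, 1, 1), (12, 0, 0, 1, 1), (17, 0, 0, 1, 1), (13, 0, 0, 1, 1), (15, 0, 0, 1, 1)]]

def m18_1 : Base := (0, 2, [(0, [0], [3, 4]), (0, [1], [0, 3]), (0, [2], [1, 2]), (4, [], [4])])

def l18_1 : Cov := [(36, 0, 2, [(0, [0], [3, 4]), (0, [1], [0, 3]), (0, [2], [1, 2]), (4, [], [4])]),
  (-36, 0, 2, [(0, [0], [3, 4]), (0, [1], [2, 3]), (0, [2], [0, 1]), (4, [], [4])]),
  (-36, 0, 2, [(0, [0], [3, 4]), (0, [2], [0, 3]), (0, [1], [1, 2]), (4, [], [4])]),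
  (36, 0, 2, [(0, [0], [3, 4]), (0, [2], [2, 3]), (0, [1], [0, 1]), (4, [], [4])]),
  (-36, 0, 2, [(0, [1], [3, 4]), (0, [0], [0, 3]), (0, [2], [1, 2]), (4, [], [4])]),
  (36, 0, 2, [(0, [1], [3, 4]), (0, [0], [2, 3]), (0, [2], [0, 1]), (4, [], [4])]),
  (36, 0, 2, [(0, [1], [3, 4]), (0, [2], [0, 3]), (0, [0], [1, 2]), (4, [], [4])]),
  (-36, 0, 2, [(0, [1], [3, 4]), (0, [2], [2, 3]), (0, [0], [0, 1]), (4, [], [4])]),
  (36, 0, 2, [(0, [2], [3, 4]), (0, [0], [0, 3]), (0, [1], [1, 2]), (4, [], [4])]),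
  (-36, 0, 2, [(0, [2], [3, 4]), (0, [0], [2, 3]), (0, [1], [0, 1]), (4, [], [4])]),
  (-36, 0, 2, [(0, [2], [3, 4]), (0, [1], [0, 3]), (0, [0], [1, 2]), (4, [], [4])]),
  (36, 0, 2, [(0, [2], [3, 4]), (0, [1], [2, 3]), (0, [0], [0, 1]), (4, [], [4])])]

def z18_1 : Cov := [(0, 0, 2, [(0, [0], [3, 4]), (0, [1], [1, 3]), (0, [2], [0, 2]), (4, [], [4])]),
  (0, 0, 2, [(0, [0], [3, 4]), (0, [2], [1, 3]), (0, [1], [0, 2]), (4, [], [4])]),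
  (0, 0, 2, [(0, [1], [3, 4]), (0, [0], [1, 3]), (0, [2], [0, 2]), (4, [], [4])]),
  (0, 0, 2, [(0, [1], [3, 4]), (0, [2], [1, 3]), (0, [0], [0, 2]), (4, [], [4])]),
  (0, 0, 2, [(0, [2], [3, 4]), (0, [0], [1, 3]), (0, [1], [0, 2]), (4, [], [4])]),
  (0, 0, 2, [(0, [2], [3, 4]), (0, [1], [1, 3]), (0, [0], [0, 2]), (4, [], [4])])]

def w18_1 : List (List Wit) := [[(0, 0, 0, 16, 16), (0, 0, 0, 16, 16), (12, 0, 0, 16, 16), (12, 0, 0, 16, 16), (1, 0, 0, 16, 16), (1, 0, 0, 16, 16)],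
  [(2, 0, 0, 16, 16), (2, 0, 0, 16, 16), (13, 0, 0, 16, 16), (13, 0, 0, 16, 16), (3, 0, 0, 16, 16), (3, 0, 0, 16, 16)],
  [(4, 0, 0, 16, 16), (4, 0, 0, 16, 16), (14, 0, 0, 16, 16), (14, 0, 0, 16, 16), (5, 0, 0, 16, 16), (5, 0, 0, 16, 16)],
  [(6, 0, 0, 16, 16), (6, 0, 0, 16, 16), (15, 0, 0, 16, 16), (15, 0, 0, 16, 16), (7, 0, 0, 16, 16), (7, 0, 0, 16, 16)],
  [(8, 0, 0, 16, 16), (8, 0, 0, 16, 16), (16, 0, 0, 16, 16), (16, 0, 0, 16, 16), (9, 0, 0, 16, 16), (9, 0, 0, 16, 16)],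
  [(10, 0, 0, 16, 16), (10, 0, 0, 16, 16), (17, 0, 0, 16, 16), (17, 0, 0, 16, 16), (11, 0, 0, 16, 16), (11, 0, 0, 16, 16)]]

def m18_2 : Base := (0, 2, [(0, [0], [0, 3]), (0, [1], [1, 4]), (0, [2], [2, 4]), (4, [], [3])])

def l18_2 : Cov := [(12, 0, 2, [(0, [0], [0, 3]), (0, [1], [1, 4]), (0, [2], [2, 4]), (4, [], [3])]),
  (-12, 0, 2, [(0, [0], [0, 3]), (0, [1], [2, 4]), (0, [2], [1, 4]), (4, [], [3])]),
  (24, 0, 2, [(0, [0], [1, 3]), (0, [1], [0, 4]), (0, [2], [2, 4]), (4, [], [3])]),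
  (-24, 0, 2, [(0, [0], [1, 3]), (0, [1], [2, 4]), (0, [2], [0, 4]), (4, [], [3])]),
  (12, 0, 2, [(0, [0], [2, 3]), (0, [1], [0, 4]), (0, [2], [1, 4]), (4, [], [3])]),
  (-12, 0, 2, [(0, [0], [2, 3]), (0, [1], [1, 4]), (0, [2], [0, 4]), (4, [], [3])]),
  (-12, 0, 2, [(0, [1], [0, 3]), (0, [0], [1, 4]), (0, [2], [2, 4]), (4, [], [3])]),
  (12, 0, 2, [(0, [1], [0, 3]), (0, [0], [2, 4]), (0, [2], [1, 4]), (4, [], [3])]),
  (-24, 0, 2, [(0, [1], [1, 3]), (0, [0], [0, 4]), (0, [2], [2, 4]), (4, [], [3])]),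
  (24, 0, 2, [(0, [1], [1, 3]), (0, [0], [2, 4]), (0, [2], [0, 4]), (4, [], [3])]),
  (-12, 0, 2, [(0, [1], [2, 3]), (0, [0], [0, 4]), (0, [2], [1, 4]), (4, [], [3])]),
  (12, 0, 2, [(0, [1], [2, 3]), (0, [0], [1, 4]), (0, [2], [0, 4]), (4, [], [3])]),
  (12, 0, 2, [(0, [2], [0, 3]), (0, [0], [1, 4]), (0, [1], [2, 4]), (4, [], [3])]),
  (-12, 0, 2, [(0, [2], [0, 3]), (0, [0], [2, 4]), (0, [1], [1, 4]), (4, [], [3])]),
  (24, 0, 2, [(0, [2], [1, 3]), (0, [0], [0, 4]), (0, [1], [2, 4]), (4, [], [3])]),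
  (-24, 0, 2, [(0, [2], [1, 3]), (0, [0], [2, 4]), (0, [1], [0, 4]), (4, [], [3])]),
  (12, 0, 2, [(0, [2], [2, 3]), (0, [0], [0, 4]), (0, [1], [1, 4]), (4, [], [3])]),
  (-12, 0, 2, [(0, [2], [2, 3]), (0, [0], [1, 4]), (0, [1], [0, 4]), (4, [], [3])])]

def z18_2 : Cov := []

def w18_2 : List (List Wit) := [[(0, 0, 0, 16, 16), (1, 0, 0, 16, 16), (2, 0, 0, 16, 16), (3, 0, 0, 16, 16), (4, 0, 0, 16, 16), (5, 0, 0, 16, 16)],
  [(1, 0, 0, 16, 16), (0, 0, 0, 16, 16), (3, 0, 0, 16, 16), (2, 0, 0, 16, 16), (5, 0, 0, 16, 16), (4, 0, 0, 16, 16)],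
  [(6, 0, 0, 16, 16), (7, 0, 0, 16, 16), (8, 0, 0, 16, 16), (9, 0, 0, 16, 16), (10, 0, 0, 16, 16), (11, 0, 0, 16, 16)],
  [(7, 0, 0, 16, 16), (6, 0, 0, 16, 16), (9, 0, 0, 16, 16), (8, 0, 0, 16, 16), (11, 0, 0, 16, 16), (10, 0, 0, 16, 16)],
  [(12, 0, 0, 16, 16), (13, 0, 0, 16, 16), (14, 0, 0, 16, 16), (15, 0, 0, 16, 16), (16, 0, 0, 16, 16), (17, 0, 0, 16, 16)],
  [(13, 0, 0, 16, 16), (12, 0, 0, 16, 16), (15, 0, 0, 16, 16), (14, 0, 0, 16, 16), (17, 0, 0, 16, 16), (16, 0, 0, 16, 16)]]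

theorem tr18 : trK keys lk18 kl18 = true := by
  decide +kernel

theorem x18_0 : expB 3 3 dg3 dg2 m18_0 (l18_0 ++ z18_0) w18_0 = true := by
  decide +kernel

theorem x18_1 : expB 3 3 dg3 dg2 m18_1 (l18_1 ++ z18_1) w18_1 = true := by
  decide +kernel

theorem x18_2 : expB 3 3 dg3 dg2 m18_2 (l18_2 ++ z18_2) w18_2 = true := by
  decide +kernel

theorem t18_0_0 : chkS lk18 3 3 [(1, m18_0)] l18_0
  [(12, 513, 513, 102962256, 101860656), (15, 513, 513, 86185536, 39929136), (29, 288, 288, 52495686, 2188611), (22, 513, 513, 87295521, 40128771), (22, 33, 258, 55592466, 39018516), (15, 33, 258, 38876676, 38811201), (16, 33, 258, 38876166, 5387841), (24, 33, 258, 38814486, 5449236), (27, 288, 288, 102827061, 100799811), (25, 513, 513, 36963681, 19158531), (25, 528, 528, 67252566, 1455141), (17, 33, 258, 39924741, 84031041), (27, 528, 528, 102765651, 101844276), (25, 33,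 258, 36717846, 2315796), (16, 513, 513, 38999136, 22169136), (24, 513, 513, 39060321, 22291971), (17, 513, 513, 40047696, 85083696), (25, 288, 288, 67314021, 17187621)]
  [(12, 12), (15, 12), (16, -24), (17, -12), (22, -12), (24, -12), (25, 24), (27, 24), (29, -12)] = true := by
  decide +kernel

theorem t18_0_1 : chkS lk18 3 3 [(1, m18_0)] l18_1
  [(5, 33, 258, 106049796, 105919521), (14, 33, 258, 72431106, 39202881), (22, 288, 288, 16983636, 34620261), (14, 513, 513, 72554016, 39207216), (4, 33, 258, 88224006, 6632481), (14, 33, 258, 105985026, 106049601), (8, 258, 33, 17179971, 69272421), (23, 258, 33, 17183826, 68300901), (25, 33, 258, 16999716, 52445541), (14, 513, 513, 106107936, 106053936), (9, 288, 288, 106111236, 105923361), (23, 18, 18, 16999461, 50479461)]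
  [(4, -36), (5, 36), (8, 36), (9, -36), (22, -36), (25, 36)] = true := by
  decide +kernel

theorem t18_0_2 : chkS lk18 3 3 [(1, m18_0)] l18_2
  [(8, 528, 528, 68302176, 19280976), (9, 528, 528, 85079616, 39924816), (9, 288, 288, 85140996, 39863121), (8, 288, 288, 68363526, 2507601), (18, 258, 33, 22422576, 72487776), (28, 258, 33, 55968801, 72507651), (4, 513, 513, 68363616, 19284816), (5, 513, 513, 85141056, 39928656), (25, 33, 258, 5464356, 55591206), (22, 258, 33, 85206531, 40108881), (19, 33, 258, 38876166, 5387841), (28, 288, 288, 38863926, 5379651), (25, 513, 513, 5648706, 72429606), (22, 18, 18, 85083696, 40047696), (4, 33, 258, 68302086, 2503761), (5, 33, 258, 85079556, 39859281), (28, 528, 528, 38802531, 22152756), (19, 513, 513, 38999136, 22169136)]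
  [(4, 12), (5, -12), (8, -12), (9, 12), (18, 12), (19, -24), (22, 12), (25, -12), (28, 12)] = true := by
  decide +kernel

theorem t18_1_1 : chkS lk18 3 3 [(1, m18_1)] l18_1
  [(7, 33, 258, 106111236, 105923361), (15, 18, 18, 70668546, 70668321), (21, 18, 18, 69619971, 70649121), (11, 513, 513, 106107936, 106053936), (6, 33, 258, 88285446, 6636321), (17, 33, 258, 87318786, 56905761), (0, 258, 33, 52696656, 34891056), (9, 528, 528, 105972771, 106037571), (0, 528, 528, 68363856, 35013456), (9, 33, 258, 17191716, 70263141), (10, 33, 258, 52842756, 70280481), (8, 528, 528, 88147491, 40173891)]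
  [(0, 72), (6, -36), (7, 36), (8, 36), (9, -72), (10, -36), (11, 36), (15, -36), (17, 36), (21, -36)] = true := by
  decide +kernel

theorem t18_1_2 : chkS lk18 3 3 [(1, m18_1)] l18_2
  [(2, 18, 18, 39018516, 55592466), (2, 18, 18, 39018756, 55592481), (11, 513, 513, 40047696, 85083696), (24, 528, 528, 103875876, 102781251), (11, 513, 513, 40047936, 86066736), (24, 528, 528, 103875156, 101732931), (1, 33, 258, 39018516, 55592466), (1, 33, 258, 39018756, 55592481), (9, 528, 528, 39912531, 85067331), (25, 258, 33, 102048771, 104989521), (9, 528, 528, 39912771, 86050371), (25, 258, 33, 102047811, 104923986), (26, 528, 528, 55641636, 38822211), (26, 528, 528, 55640676, 22045251), (4, 18, 18, 51724806, 4416081), (5, 33, 258, 51794436, 70279761), (4, 18, 18, 51724326, 4415826), (5, 33, 258, 51793956, 70279506)]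
  [(4, 36), (5, -36), (9, -36), (11, 36), (24, -36), (25, 36), (26, 0)] = true := by
  decide +kernel

theorem t18_2_2 : chkS lk18 3 3 [(1, m18_2)] l18_2
  [(13, 258, 33, 39928581, 84092481), (20, 528, 528, 86251056, 40113456), (15, 18, 18, 37838901, 50665026), (24, 288, 288, 70587936, 38162736), (24, 528, 528, 70586976, 21385776), (15, 258, 33, 37839621, 50669121), (14, 18, 18, 37838901, 50665026), (23, 528, 528, 54858336, 21324336), (3, 288, 288, 39195456, 72427056), (4, 258, 33, 101864196, 103818321), (4, 288, 288, 39195696, 72488496), (8, 288, 288, 55972896, 72507696), (23, 288, 288, 54859296, 38101296), (14, 258, 33, 37839621, 50669121), (4, 528, 528, 39195456, 72427056), (8, 528, 528, 55972416, 72442416), (3, 528, 528, 39195696, 72488496), (4, 18, 18, 101863476, 103814226)]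
  [(3, -12), (4, 24), (8, -12), (13, 12), (14, -24), (15, 12), (20, -12), (23, 24), (24, -12)] = true := by
  decide +kernel

section

variable {κ ι : Type*} [Fintype κ] [Fintype ι] [Inhabited κ] [Inhabited ι]

noncomputable def F18_0 (E : Env κ ι) : (Fin 3 → κ) → (Fin 3 → ι) → ℝ := op2 (P3 κ) (P2 ι) (fB E 3 3 m18_0)

noncomputable def F18_1 (E : Env κ ι) : (Fin 3 → κ) → (Fin 3 → ι) → ℝ := op2 (P3 κ) (P2 ι) (fB E 3 3 m18_1)

noncomputable def F18_2 (E : Env κ ι) : (Fin 3 → κ) → (Fin 3 → ι) → ℝ := op2 (P3 κ) (P2 ι) (fB E 3 3 m18_2)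

def r18_0_0 : List (ℕ × ℤ) := [(12, 12), (15, 12), (16, -24), (17, -12), (22, -12), (24, -12), (25, 24), (27, 24), (29, -12)]

theorem h18_0_0 (E : Env κ ι) : ip (F18_0 E) (F18_0 E) = dotS (ek E lk18) r18_0_0 :=
  op_entryZ E lk18 3 3 _ _ _ _ (pg3 κ) (pg2 ι) m18_0 m18_0 l18_0 z18_0 w18_0 x18_0 (by decide) _ (chkS_sound E lk18 3 3 _ _ _ _ t18_0_0)

def r18_0_1 : List (ℕ × ℤ) := [(4, -36), (5, 36), (8, 36), (9, -36), (22, -36), (25, 36)]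

theorem h18_0_1 (E : Env κ ι) : ip (F18_0 E) (F18_1 E) = dotS (ek E lk18) r18_0_1 :=
  op_entryZ E lk18 3 3 _ _ _ _ (pg3 κ) (pg2 ι) m18_0 m18_1 l18_1 z18_1 w18_1 x18_1 (by decide) _ (chkS_sound E lk18 3 3 _ _ _ _ t18_0_1)

def r18_0_2 : List (ℕ × ℤ) := [(4, 12), (5, -12), (8, -12), (9, 12), (18, 12), (19, -24), (22, 12), (25, -12), (28, 12)]

theorem h18_0_2 (E : Env κ ι) : ip (F18_0 E) (F18_2 E) = dotS (ek E lk18) r18_0_2 :=
  op_entryZ E lk18 3 3 _ _ _ _ (pg3 κ) (pg2 ι) m18_0 m18_2 l18_2 z18_2 w18_2 x18_2 (by decide) _ (chkS_sound E lk18 3 3 _ _ _ _ t18_0_2)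

def r18_1_1 : List (ℕ × ℤ) := [(0, 72), (6, -36), (7, 36), (8, 36), (9, -72), (10, -36), (11, 36), (15, -36), (17, 36), (21, -36)]

theorem h18_1_1 (E : Env κ ι) : ip (F18_1 E) (F18_1 E) = dotS (ek E lk18) r18_1_1 :=
  op_entryZ E lk18 3 3 _ _ _ _ (pg3 κ) (pg2 ι) m18_1 m18_1 l18_1 z18_1 w18_1 x18_1 (by decide) _ (chkS_sound E lk18 3 3 _ _ _ _ t18_1_1)

def r18_1_2 : List (ℕ × ℤ) := [(4, 36), (5, -36), (9, -36), (11, 36), (24, -36), (25, 36), (26, 0)]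

theorem h18_1_2 (E : Env κ ι) : ip (F18_1 E) (F18_2 E) = dotS (ek E lk18) r18_1_2 :=
  op_entryZ E lk18 3 3 _ _ _ _ (pg3 κ) (pg2 ι) m18_1 m18_2 l18_2 z18_2 w18_2 x18_2 (by decide) _ (chkS_sound E lk18 3 3 _ _ _ _ t18_1_2)

def r18_2_2 : List (ℕ × ℤ) := [(3, -12), (4, 24), (8, -12), (13, 12), (14, -24), (15, 12), (20, -12), (23, 24), (24, -12)]

theorem h18_2_2 (E : Env κ ι) : ip (F18_2 E) (F18_2 E) = dotS (ek E lk18) r18_2_2 :=
  op_entryZ E lk18 3 3 _ _ _ _ (pg3 κ) (pg2 ι) m18_2 m18_2 l18_2 z18_2 w18_2 x18_2 (by decide) _ (chkS_sound E lk18 3 3 _ _ _ _ t18_2_2)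

theorem row18_0 (E : Env κ ι) : RowG (ek E lk18) (F18_0 E) [F18_0 E, F18_1 E, F18_2 E] [r18_0_0, r18_0_1, r18_0_2] :=
  rowG_cons _ _ _ _ _ _ (h18_0_0 E) (rowG_cons _ _ _ _ _ _ (h18_0_1 E) (rowG_cons _ _ _ _ _ _ (h18_0_2 E) (rowG_nil _ _)))

theorem row18_1 (E : Env κ ι) : RowG (ek E lk18) (F18_1 E) [F18_1 E, F18_2 E] [r18_1_1, r18_1_2] :=
  rowG_cons _ _ _ _ _ _ (h18_1_1 E) (rowG_cons _ _ _ _ _ _ (h18_1_2 E) (rowG_nil _ _))

theorem row18_2 (E : Env κ ι) : RowG (ek E lk18) (F18_2 E) [F18_2 E] [r18_2_2] :=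
  rowG_cons _ _ _ _ _ _ (h18_2_2 E) (rowG_nil _ _)

def tab18 : List (List (List (ℕ × ℤ))) := [[r18_0_0, r18_0_1, r18_0_2], [r18_1_1, r18_1_2], [r18_2_2]]

theorem tri18 (E : Env κ ι) : TriG (ek E lk18) [F18_0 E, F18_1 E, F18_2 E] tab18 := by
  refine triG_cons _ _ _ _ _ (row18_0 E) ?_
  refine triG_cons _ _ _ _ _ (row18_1 E) ?_
  refine triG_cons _ _ _ _ _ (row18_2 E) ?_
  exact triG_nil _

end

end YMBG
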