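import Pool.Agent.YM.BG.Ga0

set_option linter.unusedVariables false
set_option maxRecDepth 100000

open YMEng

namespace YMBG

def lk19 : List Key := [
  (3, 7, [(0, [0], [0, 1]), (0, [0], [0, 2]), (0, [1], [3, 2]), (4, [], [1]), (0, [2], [4, 5]), (0, [2], [4, 6]), (0, [1], [3, 6]), (4, [], [5])]),
  (3, 7, [(0, [0], [0, 1]), (0, [0], [0, 2]), (0, [1], [3, 2]), (4, [], [1]), (0, [2], [4, 5]), (0, [2], [3, 6]), (0, [1], [4, 6]), (4, [], [5])]),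
  (3, 7, [(0, [0], [0, 1]), (0, [0], [0, 2]), (0, [1], [3, 2]), (4, [], [1]), (0, [2], [4, 5]), (0, [2], [3, 4]), (0, [1], [5, 6]), (4, [], [6])]),
  (3, 7, [(0, [0], [0, 1]), (0, [0], [2, 3]), (0, [1], [0, 3]), (4, [], [1]), (0, [2], [4, 5]), (0, [2], [2, 6]), (0, [1], [4, 6]), (4, [], [5])]),
  (3, 7, [(0, [0], [0, 1]), (0, [0], [2, 3]), (0, [1], [0, 3]), (4, [], [1]), (0, [2], [4, 5]), (0, [2], [2, 4]), (0, [1], [5, 6]), (4, [], [6])]),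
  (3, 7, [(0, [0], [0, 1]), (0, [0], [2, 0]), (0, [1], [3, 1]), (4, [], [4]), (0, [2], [5, 6]), (0, [2], [3, 5]), (0, [1], [2, 6]), (4, [], [4])]),
  (3, 7, [(0, [0], [0, 1]), (0, [0], [2, 0]), (0, [1], [3, 1]), (4, [], [4]), (0, [2], [5, 6]), (0, [2], [4, 5]), (0, [1], [2, 3]), (4, [], [6])]),
  (3, 7, [(0, [0], [0, 1]), (0, [0], [2, 0]), (0, [1], [3, 1]), (4, [], [4]), (0, [2], [5, 6]), (0, [2], [2, 3]), (0, [1], [4, 5]), (4, [], [6])]),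
  (3, 7, [(0, [0], [0, 1]), (0, [0], [2, 0]), (0, [1], [3, 1]), (4, [], [4]), (0, [2], [5, 6]), (0, [2], [3, 4]), (0, [1], [2, 5]), (4, [], [6])]),
  (3, 7, [(0, [0], [0, 1]), (0, [0], [2, 0]), (0, [1], [3, 1]), (4, [], [4]), (0, [2], [2, 5]), (0, [2], [3, 6]), (0, [1], [5, 6]), (4, [], [4])]),
  (3, 7, [(0, [0], [0, 1]), (0, [0], [2, 0]), (0, [1], [3, 1]), (4, [], [4]), (0, [2], [3, 5]), (0, [2], [2, 6]), (0, [1], [4, 6]), (4, [], [5])]),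
  (3, 7, [(0, [0], [0, 1]), (0, [0], [2, 0]), (0, [1], [3, 1]), (4, [], [4]), (0, [2], [4, 5]), (0, [2], [2, 6]), (0, [1], [3, 6]), (4, [], [5])]),
  (3, 7, [(0, [0], [0, 1]), (0, [0], [2, 0]), (0, [1], [3, 1]), (4, [], [4]), (0, [2], [4, 5]), (0, [2], [3, 6]), (0, [1], [2, 6]), (4, [], [5])]),
  (3, 7, [(0, [0], [0, 1]), (0, [0], [2, 0]), (0, [1], [3, 4]), (4, [], [1]), (0, [2], [3, 5]), (0, [2], [4, 6]), (0, [1], [5, 6]), (4, [], [2])]),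
  (3, 7, [(0, [0], [0, 1]), (0, [0], [2, 3]), (0, [1], [4, 0]), (4, [], [1]), (0, [2], [5, 6]), (0, [2], [2, 4]), (0, [1], [3, 5]), (4, [], [6])]),
  (3, 7, [(0, [0], [0, 1]), (0, [0], [2, 3]), (0, [1], [4, 0]), (4, [], [1]), (0, [2], [2, 5]), (0, [2], [3, 6]), (0, [1], [5, 6]), (4, [], [4])]),
  (3, 7, [(0, [0], [0, 1]), (0, [0], [2, 3]), (0, [1], [4, 0]), (4, [], [1]), (0, [2], [2, 5]), (0, [2], [4, 6]), (0, [1], [5, 6]), (4, [], [3])]),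
  (3, 7, [(0, [0], [0, 1]), (0, [0], [2, 3]), (0, [1], [4, 0]), (4, [], [1]), (0, [2], [2, 5]), (0, [2], [4, 6]), (0, [1], [3, 6]), (4, [], [5])]),
  (3, 7, [(0, [0], [0, 1]), (0, [0], [2, 3]), (0, [1], [1, 3]), (4, [], [4]), (0, [2], [0, 5]), (0, [2], [2, 6]), (0, [1], [5, 6]), (4, [], [4])]),
  (3, 7, [(0, [0], [0, 1]), (0, [0], [2, 3]), (0, [1], [1, 3]), (4, [], [4]), (0, [2], [4, 5]), (0, [2], [0, 6]), (0, [1], [2, 6]), (4, [], [5])]),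
  (3, 7, [(0, [0], [0, 1]), (0, [0], [2, 3]), (0, [1], [4, 1]), (4, [], [5]), (0, [2], [0, 6]), (0, [2], [2, 4]), (0, [1], [3, 6]), (4, [], [5])])]

def kl19 : List ℕ := [109, 111, 112, 125, 126, 217, 218, 220, 221, 222, 223, 224, 225, 253, 284, 285, 286, 287, 302, 303, 429]

def m19_0 : Base := (0, 2, [(0, [0], [3, 4]), (0, [1], [0, 3]), (0, [2], [1, 4]), (4, [], [2])])

def l19_0 : Cov := [(12, 0, 2, [(0, [0], [3, 4]), (0, [1], [0, 3]), (0, [2], [1, 4]), (4, [], [2])]),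
  (-12, 0, 2, [(0, [0], [3, 4]), (0, [1], [0, 3]), (0, [2], [2, 4]), (4, [], [1])]),
  (-12, 0, 2, [(0, [0], [3, 4]), (0, [1], [1, 3]), (0, [2], [0, 4]), (4, [], [2])]),
  (12, 0, 2, [(0, [0], [3, 4]), (0, [1], [1, 3]), (0, [2], [2, 4]), (4, [], [0])]),
  (12, 0, 2, [(0, [0], [3, 4]), (0, [1], [2, 3]), (0, [2], [0, 4]), (4, [], [1])]),
  (-12, 0, 2, [(0, [0], [3, 4]), (0, [1], [2, 3]), (0, [2], [1, 4]), (4, [], [0])]),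
  (24, 0, 2, [(0, [1], [3, 4]), (0, [0], [0, 3]), (0, [2], [1, 4]), (4, [], [2])]),
  (-24, 0, 2, [(0, [1], [3, 4]), (0, [0], [0, 3]), (0, [2], [2, 4]), (4, [], [1])]),
  (-24, 0, 2, [(0, [1], [3, 4]), (0, [0], [1, 3]), (0, [2], [0, 4]), (4, [], [2])]),
  (24, 0, 2, [(0, [1], [3, 4]), (0, [0], [1, 3]), (0, [2], [2, 4]), (4, [], [0])]),
  (24, 0, 2, [(0, [1], [3, 4]), (0, [0], [2, 3]), (0, [2], [0, 4]), (4, [], [1])]),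
  (-24, 0, 2, [(0, [1], [3, 4]), (0, [0], [2, 3]), (0, [2], [1, 4]), (4, [], [0])]),
  (12, 0, 2, [(0, [2], [3, 4]), (0, [0], [0, 3]), (0, [1], [1, 4]), (4, [], [2])]),
  (-12, 0, 2, [(0, [2], [3, 4]), (0, [0], [0, 3]), (0, [1], [2, 4]), (4, [], [1])]),
  (-12, 0, 2, [(0, [2], [3, 4]), (0, [0], [1, 3]), (0, [1], [0, 4]), (4, [], [2])]),
  (12, 0, 2, [(0, [2], [3, 4]), (0, [0], [1, 3]), (0, [1], [2, 4]), (4, [], [0])]),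
  (12, 0, 2, [(0, [2], [3, 4]), (0, [0], [2, 3]), (0, [1], [0, 4]), (4, [], [1])]),
  (-12, 0, 2, [(0, [2], [3, 4]), (0, [0], [2, 3]), (0, [1], [1, 4]), (4, [], [0])])]

def z19_0 : Cov := []

def w19_0 : List (List Wit) := [[(0, 0, 0, 16, 16), (1, 0, 0, 16, 16), (2, 0, 0, 16, 16), (3, 0, 0, 16, 16), (4, 0, 0, 16, 16), (5, 0, 0, 16, 16)],
  [(2, 0, 0, 1, 1), (4, 0, 0, 1, 1), (0, 0, 0, 1, 1), (5, 0, 0, 1, 1), (1, 0, 0, 1, 1), (3, 0, 0, 1, 1)],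
  [(6, 0, 0, 16, 16), (7, 0, 0, 16, 16), (8, 0, 0, 16, 16), (9, 0, 0, 16, 16), (10, 0, 0, 16, 16), (11, 0, 0, 16, 16)],
  [(8, 0, 0, 1, 1), (10, 0, 0, 1, 1), (6, 0, 0, 1, 1), (11, 0, 0, 1, 1), (7, 0, 0, 1, 1), (9, 0, 0, 1, 1)],
  [(12, 0, 0, 16, 16), (13, 0, 0, 16, 16), (14, 0, 0, 16, 16), (15, 0, 0, 16, 16), (16, 0, 0, 16, 16), (17, 0, 0, 16, 16)],
  [(14, 0, 0, 1, 1), (16, 0, 0, 1, 1), (12, 0, 0, 1, 1), (17, 0, 0, 1, 1), (13, 0, 0, 1, 1), (15, 0, 0, 1, 1)]]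

def m19_1 : Base := (0, 2, [(0, [0], [0, 3]), (0, [1], [1, 4]), (0, [2], [2, 4]), (4, [], [3])])

def l19_1 : Cov := [(12, 0, 2, [(0, [0], [0, 3]), (0, [1], [1, 4]), (0, [2], [2, 4]), (4, [], [3])]),
  (-12, 0, 2, [(0, [0], [0, 3]), (0, [1], [2, 4]), (0, [2], [1, 4]), (4, [], [3])]),
  (-12, 0, 2, [(0, [0], [1, 3]), (0, [1], [0, 4]), (0, [2], [2, 4]), (4, [], [3])]),
  (12, 0, 2, [(0, [0], [1, 3]), (0, [1], [2, 4]), (0, [2], [0, 4]), (4, [], [3])]),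
  (12, 0, 2, [(0, [0], [2, 3]), (0, [1], [0, 4]), (0, [2], [1, 4]), (4, [], [3])]),
  (-12, 0, 2, [(0, [0], [2, 3]), (0, [1], [1, 4]), (0, [2], [0, 4]), (4, [], [3])]),
  (24, 0, 2, [(0, [1], [0, 3]), (0, [0], [1, 4]), (0, [2], [2, 4]), (4, [], [3])]),
  (-24, 0, 2, [(0, [1], [0, 3]), (0, [0], [2, 4]), (0, [2], [1, 4]), (4, [], [3])]),
  (-24, 0, 2, [(0, [1], [1, 3]), (0, [0], [0, 4]), (0, [2], [2, 4]), (4, [], [3])]),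
  (24, 0, 2, [(0, [1], [1, 3]), (0, [0], [2, 4]), (0, [2], [0, 4]), (4, [], [3])]),
  (24, 0, 2, [(0, [1], [2, 3]), (0, [0], [0, 4]), (0, [2], [1, 4]), (4, [], [3])]),
  (-24, 0, 2, [(0, [1], [2, 3]), (0, [0], [1, 4]), (0, [2], [0, 4]), (4, [], [3])]),
  (12, 0, 2, [(0, [2], [0, 3]), (0, [0], [1, 4]), (0, [1], [2, 4]), (4, [], [3])]),
  (-12, 0, 2, [(0, [2], [0, 3]), (0, [0], [2, 4]), (0, [1], [1, 4]), (4, [], [3])]),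
  (-12, 0, 2, [(0, [2], [1, 3]), (0, [0], [0, 4]), (0, [1], [2, 4]), (4, [], [3])]),
  (12, 0, 2, [(0, [2], [1, 3]), (0, [0], [2, 4]), (0, [1], [0, 4]), (4, [], [3])]),
  (12, 0, 2, [(0, [2], [2, 3]), (0, [0], [0, 4]), (0, [1], [1, 4]), (4, [], [3])]),
  (-12, 0, 2, [(0, [2], [2, 3]), (0, [0], [1, 4]), (0, [1], [0, 4]), (4, [], [3])])]

def z19_1 : Cov := []

def w19_1 : List (List Wit) := [[(0, 0, 0, 16, 16), (1, 0, 0, 16, 16), (2, 0, 0, 16, 16), (3, 0, 0, 16, 16), (4, 0, 0, 16, 16), (5, 0, 0, 16, 16)],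
  [(1, 0, 0, 16, 16), (0, 0, 0, 16, 16), (3, 0, 0, 16, 16), (2, 0, 0, 16, 16), (5, 0, 0, 16, 16), (4, 0, 0, 16, 16)],
  [(6, 0, 0, 16, 16), (7, 0, 0, 16, 16), (8, 0, 0, 16, 16), (9, 0, 0, 16, 16), (10, 0, 0, 16, 16), (11, 0, 0, 16, 16)],
  [(7, 0, 0, 16, 16), (6, 0, 0, 16, 16), (9, 0, 0, 16, 16), (8, 0, 0, 16, 16), (11, 0, 0, 16, 16), (10, 0, 0, 16, 16)],
  [(12, 0, 0, 16, 16), (13, 0, 0, 16, 16), (14, 0, 0, 16, 16), (15, 0, 0, 16, 16), (16, 0, 0, 16, 16), (17, 0, 0, 16, 16)],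
  [(13, 0, 0, 16, 16), (12, 0, 0, 16, 16), (15, 0, 0, 16, 16), (14, 0, 0, 16, 16), (17, 0, 0, 16, 16), (16, 0, 0, 16, 16)]]

theorem tr19 : trK keys lk19 kl19 = true := by
  decide +kernel

theorem x19_0 : expB 3 3 dg2 dg3 m19_0 (l19_0 ++ z19_0) w19_0 = true := by
  decide +kernel

theorem x19_1 : expB 3 3 dg2 dg3 m19_1 (l19_1 ++ z19_1) w19_1 = true := by
  decide +kernel

theorem t19_0_0 : chkS lk19 3 3 [(1, m19_0)] l19_0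
  [(5, 513, 513, 102962256, 101860656), (8, 513, 513, 86185536, 39929136), (20, 288, 288, 52495686, 2188611), (14, 513, 513, 87295521, 40128771), (14, 33, 258, 55592466, 39018516), (8, 33, 258, 38876676, 38811201), (9, 33, 258, 38876166, 5387841), (16, 33, 258, 38814486, 5449236), (18, 288, 288, 102827061, 100799811), (17, 513, 513, 36963681, 19158531), (17, 528, 528, 67252566, 1455141), (10, 33, 258, 39924741, 84031041), (18, 528, 528, 102765651, 101844276), (17, 33, 258, 36717846, 2315796), (9, 513, 513, 38999136, 22169136), (16, 513, 513, 39060321, 22291971), (10, 513, 513, 40047696, 85083696), (17, 288, 288, 67314021, 17187621)]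
  [(5, 12), (8, -24), (9, 12), (10, -12), (14, 24), (16, -12), (17, 24), (18, -12), (20, -12)] = true := by
  decide +kernel

theorem t19_0_1 : chkS lk19 3 3 [(1, m19_0)] l19_1
  [(3, 528, 528, 68302176, 19280976), (4, 528, 528, 85079616, 39924816), (4, 288, 288, 85140996, 39863121), (3, 288, 288, 68363526, 2507601), (11, 258, 33, 22422576, 72487776), (19, 258, 33, 55968801, 72507651), (1, 513, 513, 68363616, 19284816), (2, 513, 513, 85141056, 39928656), (17, 33, 258, 5464356, 55591206), (14, 258, 33, 85206531, 40108881), (12, 33, 258, 38876166, 5387841), (19, 288, 288, 38863926, 5379651), (17, 513, 513, 5648706, 72429606), (14, 18, 18, 85083696, 40047696), (1, 33, 258, 68302086, 2503761), (2, 33, 258, 85079556, 39859281), (19, 528, 528, 38802531, 22152756), (12, 513, 513, 38999136, 22169136)]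
  [(1, 12), (2, -12), (3, 24), (4, -24), (11, 12), (12, 12), (14, 12), (17, -12), (19, -24)] = true := by
  decide +kernel

theorem t19_1_1 : chkS lk19 3 3 [(1, m19_1)] l19_1
  [(6, 258, 33, 39928581, 84092481), (13, 528, 528, 86251056, 40113456), (8, 18, 18, 37838901, 50665026), (16, 288, 288, 70587936, 38162736), (16, 528, 528, 70586976, 21385776), (8, 258, 33, 37839621, 50669121), (7, 18, 18, 37838901, 50665026), (15, 528, 528, 54858336, 21324336), (0, 288, 288, 39195456, 72427056), (1, 258, 33, 101864196, 103818321), (1, 288, 288, 39195696, 72488496), (3, 288, 288, 55972896, 72507696), (15, 288, 288, 54859296, 38101296), (7, 258, 33, 37839621, 50669121), (1, 528, 528, 39195456, 72427056), (3, 528, 528, 55972416, 72442416), (0, 528, 528, 39195696, 72488496), (1, 18, 18, 101863476, 103814226)]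
  [(0, -12), (1, 24), (3, -12), (6, 12), (7, 12), (8, -24), (13, -12), (15, -12), (16, 24)] = true := by
  decide +kernel

section

variable {κ ι : Type*} [Fintype κ] [Fintype ι] [Inhabited κ] [Inhabited ι]

noncomputable def F19_0 (E : Env κ ι) : (Fin 3 → κ) → (Fin 3 → ι) → ℝ := op2 (P2 κ) (P3 ι) (fB E 3 3 m19_0)

noncomputable def F19_1 (E : Env κ ι) : (Fin 3 → κ) → (Fin 3 → ι) → ℝ := op2 (P2 κ) (P3 ι) (fB E 3 3 m19_1)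

def r19_0_0 : List (ℕ × ℤ) := [(5, 12), (8, -24), (9, 12), (10, -12), (14, 24), (16, -12), (17, 24), (18, -12), (20, -12)]

theorem h19_0_0 (E : Env κ ι) : ip (F19_0 E) (F19_0 E) = dotS (ek E lk19) r19_0_0 :=
  op_entryZ E lk19 3 3 _ _ _ _ (pg2 κ) (pg3 ι) m19_0 m19_0 l19_0 z19_0 w19_0 x19_0 (by decide) _ (chkS_sound E lk19 3 3 _ _ _ _ t19_0_0)

def r19_0_1 : List (ℕ × ℤ) := [(1, 12), (2, -12), (3, 24), (4, -24), (11, 12), (12, 12), (14, 12), (17, -12), (19, -24)]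

theorem h19_0_1 (E : Env κ ι) : ip (F19_0 E) (F19_1 E) = dotS (ek E lk19) r19_0_1 :=
  op_entryZ E lk19 3 3 _ _ _ _ (pg2 κ) (pg3 ι) m19_0 m19_1 l19_1 z19_1 w19_1 x19_1 (by decide) _ (chkS_sound E lk19 3 3 _ _ _ _ t19_0_1)

def r19_1_1 : List (ℕ × ℤ) := [(0, -12), (1, 24), (3, -12), (6, 12), (7, 12), (8, -24), (13, -12), (15, -12), (16, 24)]

theorem h19_1_1 (E : Env κ ι) : ip (F19_1 E) (F19_1 E) = dotS (ek E lk19) r19_1_1 :=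
  op_entryZ E lk19 3 3 _ _ _ _ (pg2 κ) (pg3 ι) m19_1 m19_1 l19_1 z19_1 w19_1 x19_1 (by decide) _ (chkS_sound E lk19 3 3 _ _ _ _ t19_1_1)

theorem row19_0 (E : Env κ ι) : RowG (ek E lk19) (F19_0 E) [F19_0 E, F19_1 E] [r19_0_0, r19_0_1] :=
  rowG_cons _ _ _ _ _ _ (h19_0_0 E) (rowG_cons _ _ _ _ _ _ (h19_0_1 E) (rowG_nil _ _))

theorem row19_1 (E : Env κ ι) : RowG (ek E lk19) (F19_1 E) [F19_1 E] [r19_1_1] :=
  rowG_cons _ _ _ _ _ _ (h19_1_1 E) (rowG_nil _ _)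

def tab19 : List (List (List (ℕ × ℤ))) := [[r19_0_0, r19_0_1], [r19_1_1]]

theorem tri19 (E : Env κ ι) : TriG (ek E lk19) [F19_0 E, F19_1 E] tab19 := by
  refine triG_cons _ _ _ _ _ (row19_0 E) ?_
  refine triG_cons _ _ _ _ _ (row19_1 E) ?_
  exact triG_nil _

end

def lk20 : List Key := [
  (3, 7, [(0, [0], [0, 1]), (0, [0], [0, 2]), (0, [1], [3, 2]), (4, [], [1]), (0, [2], [4, 5]), (0, [2], [4, 6]), (0, [1], [3, 6]), (4, [], [5])]),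
  (3, 7, [(0, [0], [0, 1]), (0, [0], [0, 2]), (0, [1], [3, 2]), (4, [], [1]), (0, [2], [4, 5]), (0, [2], [3, 6]), (0, [1], [4, 6]), (4, [], [5])]),
  (3, 7, [(0, [0], [0, 1]), (0, [0], [0, 2]), (0, [1], [3, 2]), (4, [], [1]), (0, [2], [4, 5]), (0, [2], [3, 4]), (0, [1], [5, 6]), (4, [], [6])]),
  (3, 7, [(0, [0], [0, 1]), (0, [0], [2, 3]), (0, [1], [0, 3]), (4, [], [1]), (0, [2], [4, 5]), (0, [2], [2, 6]), (0, [1], [4, 6]), (4, [], [5])]),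
  (3, 7, [(0, [0], [0, 1]), (0, [0], [2, 3]), (0, [1], [0, 3]), (4, [], [1]), (0, [2], [4, 5]), (0, [2], [2, 4]), (0, [1], [5, 6]), (4, [], [6])]),
  (3, 7, [(0, [0], [0, 1]), (0, [0], [2, 0]), (0, [1], [3, 1]), (4, [], [4]), (0, [2], [5, 6]), (0, [2], [3, 5]), (0, [1], [2, 6]), (4, [], [4])]),
  (3, 7, [(0, [0], [0, 1]), (0, [0], [2, 0]), (0, [1], [3, 1]), (4, [], [4]), (0, [2], [5, 6]), (0, [2], [4, 5]), (0, [1], [2, 3]), (4, [], [6])]),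
  (3, 7, [(0, [0], [0, 1]), (0, [0], [2, 0]), (0, [1], [3, 1]), (4, [], [4]), (0, [2], [5, 6]), (0, [2], [2, 3]), (0, [1], [4, 5]), (4, [], [6])]),
  (3, 7, [(0, [0], [0, 1]), (0, [0], [2, 0]), (0, [1], [3, 1]), (4, [], [4]), (0, [2], [5, 6]), (0, [2], [3, 4]), (0, [1], [2, 5]), (4, [], [6])]),
  (3, 7, [(0, [0], [0, 1]), (0, [0], [2, 0]), (0, [1], [3, 1]), (4, [], [4]), (0, [2], [2, 5]), (0, [2], [3, 6]), (0, [1], [5, 6]), (4, [], [4])]),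
  (3, 7, [(0, [0], [0, 1]), (0, [0], [2, 0]), (0, [1], [3, 1]), (4, [], [4]), (0, [2], [3, 5]), (0, [2], [2, 6]), (0, [1], [4, 6]), (4, [], [5])]),
  (3, 7, [(0, [0], [0, 1]), (0, [0], [2, 0]), (0, [1], [3, 1]), (4, [], [4]), (0, [2], [4, 5]), (0, [2], [2, 6]), (0, [1], [3, 6]), (4, [], [5])]),
  (3, 7, [(0, [0], [0, 1]), (0, [0], [2, 0]), (0, [1], [3, 1]), (4, [], [4]), (0, [2], [4, 5]), (0, [2], [3, 6]), (0, [1], [2, 6]), (4, [], [5])]),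
  (3, 7, [(0, [0], [0, 1]), (0, [0], [2, 0]), (0, [1], [3, 4]), (4, [], [1]), (0, [2], [3, 5]), (0, [2], [4, 6]), (0, [1], [5, 6]), (4, [], [2])]),
  (3, 7, [(0, [0], [0, 1]), (0, [0], [2, 3]), (0, [1], [4, 0]), (4, [], [1]), (0, [2], [5, 6]), (0, [2], [2, 4]), (0, [1], [3, 5]), (4, [], [6])]),
  (3, 7, [(0, [0], [0, 1]), (0, [0], [2, 3]), (0, [1], [4, 0]), (4, [], [1]), (0, [2], [2, 5]), (0, [2], [3, 6]), (0, [1], [5, 6]), (4, [], [4])]),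
  (3, 7, [(0, [0], [0, 1]), (0, [0], [2, 3]), (0, [1], [4, 0]), (4, [], [1]), (0, [2], [2, 5]), (0, [2], [4, 6]), (0, [1], [5, 6]), (4, [], [3])]),
  (3, 7, [(0, [0], [0, 1]), (0, [0], [2, 3]), (0, [1], [4, 0]), (4, [], [1]), (0, [2], [2, 5]), (0, [2], [4, 6]), (0, [1], [3, 6]), (4, [], [5])]),
  (3, 7, [(0, [0], [0, 1]), (0, [0], [2, 3]), (0, [1], [1, 3]), (4, [], [4]), (0, [2], [0, 5]), (0, [2], [2, 6]), (0, [1], [5, 6]), (4, [], [4])]),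
  (3, 7, [(0, [0], [0, 1]), (0, [0], [2, 3]), (0, [1], [1, 3]), (4, [], [4]), (0, [2], [4, 5]), (0, [2], [0, 6]), (0, [1], [2, 6]), (4, [], [5])]),
  (3, 7, [(0, [0], [0, 1]), (0, [0], [2, 3]), (0, [1], [4, 1]), (4, [], [5]), (0, [2], [0, 6]), (0, [2], [2, 4]), (0, [1], [3, 6]), (4, [], [5])])]

def kl20 : List ℕ := [109, 111, 112, 125, 126, 217, 218, 220, 221, 222, 223, 224, 225, 253, 284, 285, 286, 287, 302, 303, 429]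

def m20_0 : Base := (0, 2, [(0, [0], [3, 4]), (0, [1], [0, 3]), (0, [2], [1, 4]), (4, [], [2])])

def l20_0 : Cov := [(72, 0, 2, [(0, [0], [3, 4]), (0, [1], [0, 3]), (0, [2], [1, 4]), (4, [], [2])]),
  (-72, 0, 2, [(0, [0], [3, 4]), (0, [1], [0, 3]), (0, [2], [2, 4]), (4, [], [1])]),
  (-72, 0, 2, [(0, [0], [3, 4]), (0, [1], [1, 3]), (0, [2], [0, 4]), (4, [], [2])]),
  (72, 0, 2, [(0, [0], [3, 4]), (0, [1], [1, 3]), (0, [2], [2, 4]), (4, [], [0])]),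
  (72, 0, 2, [(0, [0], [3, 4]), (0, [1], [2, 3]), (0, [2], [0, 4]), (4, [], [1])]),
  (-72, 0, 2, [(0, [0], [3, 4]), (0, [1], [2, 3]), (0, [2], [1, 4]), (4, [], [0])]),
  (-72, 0, 2, [(0, [1], [3, 4]), (0, [0], [0, 3]), (0, [2], [1, 4]), (4, [], [2])]),
  (72, 0, 2, [(0, [1], [3, 4]), (0, [0], [0, 3]), (0, [2], [2, 4]), (4, [], [1])]),
  (72, 0, 2, [(0, [1], [3, 4]), (0, [0], [1, 3]), (0, [2], [0, 4]), (4, [], [2])]),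
  (-72, 0, 2, [(0, [1], [3, 4]), (0, [0], [1, 3]), (0, [2], [2, 4]), (4, [], [0])]),
  (-72, 0, 2, [(0, [1], [3, 4]), (0, [0], [2, 3]), (0, [2], [0, 4]), (4, [], [1])]),
  (72, 0, 2, [(0, [1], [3, 4]), (0, [0], [2, 3]), (0, [2], [1, 4]), (4, [], [0])]),
  (72, 0, 2, [(0, [2], [3, 4]), (0, [0], [0, 3]), (0, [1], [1, 4]), (4, [], [2])]),
  (-72, 0, 2, [(0, [2], [3, 4]), (0, [0], [0, 3]), (0, [1], [2, 4]), (4, [], [1])]),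
  (-72, 0, 2, [(0, [2], [3, 4]), (0, [0], [1, 3]), (0, [1], [0, 4]), (4, [], [2])]),
  (72, 0, 2, [(0, [2], [3, 4]), (0, [0], [1, 3]), (0, [1], [2, 4]), (4, [], [0])]),
  (72, 0, 2, [(0, [2], [3, 4]), (0, [0], [2, 3]), (0, [1], [0, 4]), (4, [], [1])]),
  (-72, 0, 2, [(0, [2], [3, 4]), (0, [0], [2, 3]), (0, [1], [1, 4]), (4, [], [0])])]

def z20_0 : Cov := []

def w20_0 : List (List Wit) := [[(0, 0, 0, 16, 16), (1, 0, 0, 16, 16), (2, 0, 0, 16, 16), (3, 0, 0, 16, 16), (4, 0, 0, 16, 16), (5, 0, 0, 16, 16)],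
  [(2, 0, 0, 1, 1), (4, 0, 0, 1, 1), (0, 0, 0, 1, 1), (5, 0, 0, 1, 1), (1, 0, 0, 1, 1), (3, 0, 0, 1, 1)],
  [(6, 0, 0, 16, 16), (7, 0, 0, 16, 16), (8, 0, 0, 16, 16), (9, 0, 0, 16, 16), (10, 0, 0, 16, 16), (11, 0, 0, 16, 16)],
  [(8, 0, 0, 1, 1), (10, 0, 0, 1, 1), (6, 0, 0, 1, 1), (11, 0, 0, 1, 1), (7, 0, 0, 1, 1), (9, 0, 0, 1, 1)],
  [(12, 0, 0, 16, 16), (13, 0, 0, 16, 16), (14, 0, 0, 16, 16), (15, 0, 0, 16, 16), (16, 0, 0, 16, 16), (17, 0, 0, 16, 16)],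
  [(14, 0, 0, 1, 1), (16, 0, 0, 1, 1), (12, 0, 0, 1, 1), (17, 0, 0, 1, 1), (13, 0, 0, 1, 1), (15, 0, 0, 1, 1)]]

def m20_1 : Base := (0, 2, [(0, [0], [0, 3]), (0, [1], [1, 4]), (0, [2], [2, 4]), (4, [], [3])])

def l20_1 : Cov := [(72, 0, 2, [(0, [0], [0, 3]), (0, [1], [1, 4]), (0, [2], [2, 4]), (4, [], [3])]),
  (-72, 0, 2, [(0, [0], [0, 3]), (0, [1], [2, 4]), (0, [2], [1, 4]), (4, [], [3])]),
  (-72, 0, 2, [(0, [0], [1, 3]), (0, [1], [0, 4]), (0, [2], [2, 4]), (4, [], [3])]),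
  (72, 0, 2, [(0, [0], [1, 3]), (0, [1], [2, 4]), (0, [2], [0, 4]), (4, [], [3])]),
  (72, 0, 2, [(0, [0], [2, 3]), (0, [1], [0, 4]), (0, [2], [1, 4]), (4, [], [3])]),
  (-72, 0, 2, [(0, [0], [2, 3]), (0, [1], [1, 4]), (0, [2], [0, 4]), (4, [], [3])]),
  (-72, 0, 2, [(0, [1], [0, 3]), (0, [0], [1, 4]), (0, [2], [2, 4]), (4, [], [3])]),
  (72, 0, 2, [(0, [1], [0, 3]), (0, [0], [2, 4]), (0, [2], [1, 4]), (4, [], [3])]),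
  (72, 0, 2, [(0, [1], [1, 3]), (0, [0], [0, 4]), (0, [2], [2, 4]), (4, [], [3])]),
  (-72, 0, 2, [(0, [1], [1, 3]), (0, [0], [2, 4]), (0, [2], [0, 4]), (4, [], [3])]),
  (-72, 0, 2, [(0, [1], [2, 3]), (0, [0], [0, 4]), (0, [2], [1, 4]), (4, [], [3])]),
  (72, 0, 2, [(0, [1], [2, 3]), (0, [0], [1, 4]), (0, [2], [0, 4]), (4, [], [3])]),
  (72, 0, 2, [(0, [2], [0, 3]), (0, [0], [1, 4]), (0, [1], [2, 4]), (4, [], [3])]),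
  (-72, 0, 2, [(0, [2], [0, 3]), (0, [0], [2, 4]), (0, [1], [1, 4]), (4, [], [3])]),
  (-72, 0, 2, [(0, [2], [1, 3]), (0, [0], [0, 4]), (0, [1], [2, 4]), (4, [], [3])]),
  (72, 0, 2, [(0, [2], [1, 3]), (0, [0], [2, 4]), (0, [1], [0, 4]), (4, [], [3])]),
  (72, 0, 2, [(0, [2], [2, 3]), (0, [0], [0, 4]), (0, [1], [1, 4]), (4, [], [3])]),
  (-72, 0, 2, [(0, [2], [2, 3]), (0, [0], [1, 4]), (0, [1], [0, 4]), (4, [], [3])])]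

def z20_1 : Cov := []

def w20_1 : List (List Wit) := [[(0, 0, 0, 16, 16), (1, 0, 0, 16, 16), (2, 0, 0, 16, 16), (3, 0, 0, 16, 16), (4, 0, 0, 16, 16), (5, 0, 0, 16, 16)],
  [(1, 0, 0, 16, 16), (0, 0, 0, 16, 16), (3, 0, 0, 16, 16), (2, 0, 0, 16, 16), (5, 0, 0, 16, 16), (4, 0, 0, 16, 16)],
  [(6, 0, 0, 16, 16), (7, 0, 0, 16, 16), (8, 0, 0, 16, 16), (9, 0, 0, 16, 16), (10, 0, 0, 16, 16), (11, 0, 0, 16, 16)],
  [(7, 0, 0, 16, 16), (6, 0, 0, 16, 16), (9, 0, 0, 16, 16), (8, 0, 0, 16, 16), (11, 0, 0, 16, 16), (10, 0, 0, 16, 16)],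
  [(12, 0, 0, 16, 16), (13, 0, 0, 16, 16), (14, 0, 0, 16, 16), (15, 0, 0, 16, 16), (16, 0, 0, 16, 16), (17, 0, 0, 16, 16)],
  [(13, 0, 0, 16, 16), (12, 0, 0, 16, 16), (15, 0, 0, 16, 16), (14, 0, 0, 16, 16), (17, 0, 0, 16, 16), (16, 0, 0, 16, 16)]]

theorem tr20 : trK keys lk20 kl20 = true := by
  decide +kernel

theorem x20_0 : expB 3 3 dg3 dg3 m20_0 (l20_0 ++ z20_0) w20_0 = true := by
  decide +kernel

theorem x20_1 : expB 3 3 dg3 dg3 m20_1 (l20_1 ++ z20_1) w20_1 = true := by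
  decide +kernel

theorem t20_0_0 : chkS lk20 3 3 [(1, m20_0)] l20_0
  [(5, 513, 513, 102962256, 101860656), (8, 513, 513, 86185536, 39929136), (20, 288, 288, 52495686, 2188611), (14, 513, 513, 87295521, 40128771), (14, 33, 258, 55592466, 39018516), (8, 33, 258, 38876676, 38811201), (9, 33, 258, 38876166, 5387841), (16, 33, 258, 38814486, 5449236), (18, 288, 288, 102827061, 100799811), (17, 513, 513, 36963681, 19158531), (17, 528, 528, 67252566, 1455141), (10, 33, 258, 39924741, 84031041), (18, 528, 528, 102765651, 101844276), (17, 33, 258, 36717846, 2315796), (9, 513, 513, 38999136, 22169136), (16, 513, 513, 39060321, 22291971), (10, 513, 513, 40047696, 85083696), (17, 288, 288, 67314021, 17187621)]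
  [(5, 72), (8, -144), (9, -144), (10, 144), (14, 144), (16, 144), (17, -288), (18, 144), (20, -72)] = true := by
  decide +kernel

theorem t20_0_1 : chkS lk20 3 3 [(1, m20_0)] l20_1
  [(3, 528, 528, 68302176, 19280976), (4, 528, 528, 85079616, 39924816), (4, 288, 288, 85140996, 39863121), (3, 288, 288, 68363526, 2507601), (11, 258, 33, 22422576, 72487776), (19, 258, 33, 55968801, 72507651), (1, 513, 513, 68363616, 19284816), (2, 513, 513, 85141056, 39928656), (17, 33, 258, 5464356, 55591206), (14, 258, 33, 85206531, 40108881), (12, 33, 258, 38876166, 5387841), (19, 288, 288, 38863926, 5379651), (17, 513, 513, 5648706, 72429606), (14, 18, 18, 85083696, 40047696), (1, 33, 258, 68302086, 2503761), (2, 33, 258, 85079556, 39859281), (19, 528, 528, 38802531, 22152756), (12, 513, 513, 38999136, 22169136)]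
  [(1, -144), (2, 144), (3, 144), (4, -144), (11, 72), (12, -144), (14, -144), (17, 144), (19, 72)] = true := by
  decide +kernel

theorem t20_1_1 : chkS lk20 3 3 [(1, m20_1)] l20_1
  [(6, 258, 33, 39928581, 84092481), (13, 528, 528, 86251056, 40113456), (8, 18, 18, 37838901, 50665026), (16, 288, 288, 70587936, 38162736), (16, 528, 528, 70586976, 21385776), (8, 258, 33, 37839621, 50669121), (7, 18, 18, 37838901, 50665026), (15, 528, 528, 54858336, 21324336), (0, 288, 288, 39195456, 72427056), (1, 258, 33, 101864196, 103818321), (1, 288, 288, 39195696, 72488496), (3, 288, 288, 55972896, 72507696), (15, 288, 288, 54859296, 38101296), (7, 258, 33, 37839621, 50669121), (1, 528, 528, 39195456, 72427056), (3, 528, 528, 55972416, 72442416), (0, 528, 528, 39195696, 72488496), (1, 18, 18, 101863476, 103814226)]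
  [(0, 144), (1, -288), (3, 144), (6, 72), (7, -144), (8, -144), (13, -72), (15, 144), (16, 144)] = true := by
  decide +kernel

section

variable {κ ι : Type*} [Fintype κ] [Fintype ι] [Inhabited κ] [Inhabited ι]

noncomputable def F20_0 (E : Env κ ι) : (Fin 3 → κ) → (Fin 3 → ι) → ℝ := op2 (P3 κ) (P3 ι) (fB E 3 3 m20_0)

noncomputable def F20_1 (E : Env κ ι) : (Fin 3 → κ) → (Fin 3 → ι) → ℝ := op2 (P3 κ) (P3 ι) (fB E 3 3 m20_1)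

def r20_0_0 : List (ℕ × ℤ) := [(5, 72), (8, -144), (9, -144), (10, 144), (14, 144), (16, 144), (17, -288), (18, 144), (20, -72)]

theorem h20_0_0 (E : Env κ ι) : ip (F20_0 E) (F20_0 E) = dotS (ek E lk20) r20_0_0 :=
  op_entryZ E lk20 3 3 _ _ _ _ (pg3 κ) (pg3 ι) m20_0 m20_0 l20_0 z20_0 w20_0 x20_0 (by decide) _ (chkS_sound E lk20 3 3 _ _ _ _ t20_0_0)

def r20_0_1 : List (ℕ × ℤ) := [(1, -144), (2, 144), (3, 144), (4, -144), (11, 72), (12, -144), (14, -144), (17, 144), (19, 72)]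

theorem h20_0_1 (E : Env κ ι) : ip (F20_0 E) (F20_1 E) = dotS (ek E lk20) r20_0_1 :=
  op_entryZ E lk20 3 3 _ _ _ _ (pg3 κ) (pg3 ι) m20_0 m20_1 l20_1 z20_1 w20_1 x20_1 (by decide) _ (chkS_sound E lk20 3 3 _ _ _ _ t20_0_1)

def r20_1_1 : List (ℕ × ℤ) := [(0, 144), (1, -288), (3, 144), (6, 72), (7, -144), (8, -144), (13, -72), (15, 144), (16, 144)]

theorem h20_1_1 (E : Env κ ι) : ip (F20_1 E) (F20_1 E) = dotS (ek E lk20) r20_1_1 :=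
  op_entryZ E lk20 3 3 _ _ _ _ (pg3 κ) (pg3 ι) m20_1 m20_1 l20_1 z20_1 w20_1 x20_1 (by decide) _ (chkS_sound E lk20 3 3 _ _ _ _ t20_1_1)

theorem row20_0 (E : Env κ ι) : RowG (ek E lk20) (F20_0 E) [F20_0 E, F20_1 E] [r20_0_0, r20_0_1] :=
  rowG_cons _ _ _ _ _ _ (h20_0_0 E) (rowG_cons _ _ _ _ _ _ (h20_0_1 E) (rowG_nil _ _))

theorem row20_1 (E : Env κ ι) : RowG (ek E lk20) (F20_1 E) [F20_1 E] [r20_1_1] :=
  rowG_cons _ _ _ _ _ _ (h20_1_1 E) (rowG_nil _ _)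

def tab20 : List (List (List (ℕ × ℤ))) := [[r20_0_0, r20_0_1], [r20_1_1]]

theorem tri20 (E : Env κ ι) : TriG (ek E lk20) [F20_0 E, F20_1 E] tab20 := by
  refine triG_cons _ _ _ _ _ (row20_0 E) ?_
  refine triG_cons _ _ _ _ _ (row20_1 E) ?_
  exact triG_nil _

end

def lk21 : List Key := [
  (3, 7, [(0, [0], [0, 1]), (0, [0], [0, 1]), (0, [1], [2, 3]), (0, [1], [2, 3]), (0, [2], [4, 5]), (0, [2], [4, 6]), (4, [], [6]), (4, [], [5])]),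
  (3, 7, [(0, [0], [0, 1]), (0, [0], [0, 1]), (0, [1], [2, 3]), (0, [2], [2, 4]), (0, [2], [5, 6]), (0, [1], [5, 6]), (4, [], [4]), (4, [], [3])]),
  (3, 7, [(0, [0], [0, 1]), (0, [1], [0, 2]), (0, [0], [2, 3]), (0, [2], [1, 4]), (0, [1], [5, 6]), (0, [2], [5, 6]), (4, [], [3]), (4, [], [4])]),
  (3, 7, [(0, [0], [0, 1]), (0, [1], [0, 2]), (0, [0], [3, 4]), (0, [1], [3, 4]), (0, [2], [1, 5]), (0, [2], [5, 6]), (4, [], [2]), (4, [], [6])]),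
  (3, 7, [(0, [0], [0, 1]), (0, [0], [0, 2]), (0, [1], [1, 2]), (4, [], [3]), (0, [2], [4, 5]), (0, [2], [4, 6]), (0, [1], [5, 6]), (4, [], [3])]),
  (3, 7, [(0, [0], [0, 1]), (0, [0], [0, 2]), (0, [1], [1, 2]), (4, [], [3]), (0, [2], [4, 5]), (0, [2], [4, 6]), (0, [1], [3, 6]), (4, [], [5])]),
  (3, 7, [(0, [0], [0, 1]), (0, [0], [0, 2]), (0, [1], [1, 2]), (4, [], [3]), (0, [2], [4, 5]), (0, [2], [4, 5]), (0, [1], [3, 6]), (4, [], [6])]),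
  (3, 7, [(0, [0], [0, 1]), (0, [0], [0, 2]), (0, [1], [1, 2]), (4, [], [3]), (0, [2], [4, 5]), (0, [2], [3, 6]), (0, [1], [4, 6]), (4, [], [5])]),
  (3, 7, [(0, [0], [0, 1]), (0, [0], [0, 2]), (0, [1], [1, 2]), (4, [], [3]), (0, [2], [4, 5]), (0, [2], [3, 6]), (0, [1], [4, 5]), (4, [], [6])]),
  (3, 7, [(0, [0], [0, 1]), (0, [0], [0, 2]), (0, [1], [3, 2]), (4, [], [1]), (0, [2], [4, 5]), (0, [2], [4, 6]), (0, [1], [3, 6]), (4, [], [5])]),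
  (3, 7, [(0, [0], [0, 1]), (0, [0], [0, 2]), (0, [1], [3, 2]), (4, [], [1]), (0, [2], [4, 5]), (0, [2], [4, 5]), (0, [1], [3, 6]), (4, [], [6])]),
  (3, 7, [(0, [0], [0, 1]), (0, [0], [0, 2]), (0, [1], [3, 2]), (4, [], [1]), (0, [2], [4, 5]), (0, [2], [3, 6]), (0, [1], [4, 6]), (4, [], [5])]),
  (3, 7, [(0, [0], [0, 1]), (0, [0], [0, 2]), (0, [1], [3, 2]), (4, [], [1]), (0, [2], [4, 5]), (0, [2], [3, 4]), (0, [1], [5, 6]), (4, [], [6])]),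
  (3, 7, [(0, [0], [0, 1]), (0, [0], [0, 1]), (0, [1], [2, 3]), (4, [], [3]), (0, [2], [4, 5]), (0, [2], [2, 6]), (0, [1], [4, 6]), (4, [], [5])]),
  (3, 7, [(0, [0], [0, 1]), (0, [0], [0, 1]), (0, [1], [2, 3]), (4, [], [3]), (0, [2], [4, 5]), (0, [2], [2, 4]), (0, [1], [5, 6]), (4, [], [6])]),
  (3, 7, [(0, [0], [0, 1]), (0, [0], [2, 3]), (0, [1], [0, 3]), (4, [], [1]), (0, [2], [4, 5]), (0, [2], [2, 6]), (0, [1], [4, 6]), (4, [], [5])]),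
  (3, 7, [(0, [0], [0, 1]), (0, [0], [2, 3]), (0, [1], [0, 3]), (4, [], [1]), (0, [2], [4, 5]), (0, [2], [2, 4]), (0, [1], [5, 6]), (4, [], [6])]),
  (3, 7, [(0, [0], [0, 1]), (0, [0], [2, 3]), (0, [1], [0, 1]), (4, [], [3]), (0, [2], [4, 5]), (0, [2], [2, 6]), (0, [1], [4, 5]), (4, [], [6])]),
  (3, 7, [(0, [0], [0, 1]), (0, [0], [2, 3]), (0, [1], [0, 1]), (4, [], [3]), (0, [2], [4, 5]), (0, [2], [2, 4]), (0, [1], [5, 6]), (4, [], [6])]),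
  (3, 7, [(0, [0], [0, 1]), (0, [0], [2, 0]), (0, [1], [1, 3]), (4, [], [3]), (0, [2], [4, 5]), (0, [2], [2, 4]), (0, [1], [5, 6]), (4, [], [6])]),
  (3, 7, [(0, [0], [0, 1]), (0, [0], [0, 1]), (0, [1], [2, 3]), (4, [], [4]), (0, [2], [5, 6]), (0, [2], [2, 5]), (0, [1], [3, 6]), (4, [], [4])]),
  (3, 7, [(0, [0], [0, 1]), (0, [0], [0, 1]), (0, [1], [2, 3]), (4, [], [4]), (0, [2], [2, 5]), (0, [2], [3, 6]), (0, [1], [5, 6]), (4, [], [4])]),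
  (3, 7, [(0, [0], [0, 1]), (0, [0], [2, 0]), (0, [1], [3, 1]), (4, [], [4]), (0, [2], [5, 6]), (0, [2], [2, 5]), (0, [1], [3, 6]), (4, [], [4])]),
  (3, 7, [(0, [0], [0, 1]), (0, [0], [2, 0]), (0, [1], [3, 1]), (4, [], [4]), (0, [2], [5, 6]), (0, [2], [3, 5]), (0, [1], [2, 6]), (4, [], [4])]),
  (3, 7, [(0, [0], [0, 1]), (0, [0], [2, 0]), (0, [1], [3, 1]), (4, [], [4]), (0, [2], [5, 6]), (0, [2], [4, 5]), (0, [1], [2, 3]), (4, [], [6])]),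
  (3, 7, [(0, [0], [0, 1]), (0, [0], [2, 0]), (0, [1], [3, 1]), (4, [], [4]), (0, [2], [5, 6]), (0, [2], [2, 3]), (0, [1], [5, 6]), (4, [], [4])]),
  (3, 7, [(0, [0], [0, 1]), (0, [0], [2, 0]), (0, [1], [3, 1]), (4, [], [4]), (0, [2], [5, 6]), (0, [2], [2, 3]), (0, [1], [4, 5]), (4, [], [6])]),
  (3, 7, [(0, [0], [0, 1]), (0, [0], [2, 0]), (0, [1], [3, 1]), (4, [], [4]), (0, [2], [5, 6]), (0, [2], [3, 4]), (0, [1], [2, 5]), (4, [], [6])]),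
  (3, 7, [(0, [0], [0, 1]), (0, [0], [2, 0]), (0, [1], [3, 1]), (4, [], [4]), (0, [2], [2, 5]), (0, [2], [3, 6]), (0, [1], [5, 6]), (4, [], [4])]),
  (3, 7, [(0, [0], [0, 1]), (0, [0], [2, 0]), (0, [1], [3, 1]), (4, [], [4]), (0, [2], [3, 5]), (0, [2], [2, 6]), (0, [1], [4, 6]), (4, [], [5])]),
  (3, 7, [(0, [0], [0, 1]), (0, [0], [2, 0]), (0, [1], [3, 1]), (4, [], [4]), (0, [2], [4, 5]), (0, [2], [2, 6]), (0, [1], [3, 6]), (4, [], [5])]),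
  (3, 7, [(0, [0], [0, 1]), (0, [0], [2, 0]), (0, [1], [3, 1]), (4, [], [4]), (0, [2], [4, 5]), (0, [2], [3, 6]), (0, [1], [2, 6]), (4, [], [5])]),
  (3, 7, [(0, [0], [0, 1]), (0, [0], [2, 0]), (0, [1], [3, 4]), (4, [], [1]), (0, [2], [5, 6]), (0, [2], [3, 4]), (0, [1], [5, 6]), (4, [], [2])]),
  (3, 7, [(0, [0], [0, 1]), (0, [0], [2, 0]), (0, [1], [3, 4]), (4, [], [1]), (0, [2], [3, 5]), (0, [2], [4, 6]), (0, [1], [5, 6]), (4, [], [2])]),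
  (3, 7, [(0, [0], [0, 1]), (0, [0], [2, 3]), (0, [1], [0, 1]), (4, [], [4]), (0, [2], [5, 6]), (0, [2], [2, 4]), (0, [1], [3, 5]), (4, [], [6])]),
  (3, 7, [(0, [0], [0, 1]), (0, [0], [2, 3]), (0, [1], [0, 1]), (4, [], [4]), (0, [2], [2, 5]), (0, [2], [3, 6]), (0, [1], [5, 6]), (4, [], [4])]),
  (3, 7, [(0, [0], [0, 1]), (0, [0], [2, 3]), (0, [1], [0, 1]), (4, [], [4]), (0, [2], [4, 5]), (0, [2], [2, 6]), (0, [1], [3, 6]), (4, [], [5])]),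
  (3, 7, [(0, [0], [0, 1]), (0, [0], [2, 3]), (0, [1], [4, 0]), (4, [], [1]), (0, [2], [5, 6]), (0, [2], [2, 4]), (0, [1], [3, 5]), (4, [], [6])]),
  (3, 7, [(0, [0], [0, 1]), (0, [0], [2, 3]), (0, [1], [4, 0]), (4, [], [1]), (0, [2], [2, 5]), (0, [2], [3, 6]), (0, [1], [5, 6]), (4, [], [4])]),
  (3, 7, [(0, [0], [0, 1]), (0, [0], [2, 3]), (0, [1], [4, 0]), (4, [], [1]), (0, [2], [2, 5]), (0, [2], [4, 6]), (0, [1], [5, 6]), (4, [], [3])]),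
  (3, 7, [(0, [0], [0, 1]), (0, [0], [2, 3]), (0, [1], [4, 0]), (4, [], [1]), (0, [2], [2, 5]), (0, [2], [4, 6]), (0, [1], [3, 6]), (4, [], [5])]),
  (3, 7, [(0, [0], [0, 1]), (0, [0], [2, 3]), (0, [1], [4, 0]), (4, [], [1]), (0, [2], [4, 5]), (0, [2], [2, 6]), (0, [1], [3, 6]), (4, [], [5])]),
  (3, 7, [(0, [0], [0, 1]), (0, [0], [2, 3]), (0, [1], [1, 3]), (4, [], [4]), (0, [2], [0, 5]), (0, [2], [2, 6]), (0, [1], [5, 6]), (4, [], [4])]),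
  (3, 7, [(0, [0], [0, 1]), (0, [0], [2, 3]), (0, [1], [1, 3]), (4, [], [4]), (0, [2], [4, 5]), (0, [2], [0, 6]), (0, [1], [2, 6]), (4, [], [5])]),
  (3, 7, [(0, [0], [0, 1]), (0, [0], [2, 3]), (0, [1], [4, 1]), (4, [], [5]), (0, [2], [2, 6]), (0, [2], [0, 4]), (0, [1], [3, 6]), (4, [], [5])])]

def kl21 : List ℕ := [13, 14, 57, 58, 94, 95, 96, 97, 98, 109, 110, 111, 112, 119, 120, 125, 126, 132, 133, 144, 204, 206, 216, 217, 218, 219, 220, 221, 222, 223, 224, 225, 252, 253, 267, 268, 269, 284, 285, 286, 287, 288, 302, 303, 430]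

def m21_0 : Base := (0, 1, [(0, [0], [0, 5]), (0, [1], [1, 5]), (0, [2], [2, 3]), (4, [], [4])])

def l21_0 : Cov := [(2880, 0, 1, [(0, [0], [0, 5]), (0, [1], [1, 5]), (0, [2], [2, 3]), (4, [], [4])]),
  (2880, 0, 1, [(0, [0], [0, 5]), (0, [1], [1, 5]), (0, [2], [2, 4]), (4, [], [3])]),
  (2880, 0, 1, [(0, [0], [0, 5]), (0, [1], [1, 5]), (0, [2], [3, 4]), (4, [], [2])]),
  (2880, 0, 1, [(0, [0], [0, 5]), (0, [1], [2, 5]), (0, [2], [1, 3]), (4, [], [4])]),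
  (2880, 0, 1, [(0, [0], [0, 5]), (0, [1], [2, 5]), (0, [2], [1, 4]), (4, [], [3])]),
  (2880, 0, 1, [(0, [0], [0, 5]), (0, [1], [2, 5]), (0, [2], [3, 4]), (4, [], [1])]),
  (2880, 0, 1, [(0, [0], [0, 5]), (0, [1], [3, 5]), (0, [2], [1, 2]), (4, [], [4])]),
  (2880, 0, 1, [(0, [0], [0, 5]), (0, [1], [3, 5]), (0, [2], [1, 4]), (4, [], [2])]),
  (2880, 0, 1, [(0, [0], [0, 5]), (0, [1], [3, 5]), (0, [2], [2, 4]), (4, [], [1])]),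
  (2880, 0, 1, [(0, [0], [0, 5]), (0, [1], [4, 5]), (0, [2], [1, 2]), (4, [], [3])]),
  (2880, 0, 1, [(0, [0], [0, 5]), (0, [1], [4, 5]), (0, [2], [1, 3]), (4, [], [2])]),
  (2880, 0, 1, [(0, [0], [0, 5]), (0, [1], [4, 5]), (0, [2], [2, 3]), (4, [], [1])]),
  (2880, 0, 1, [(0, [0], [1, 5]), (0, [1], [0, 5]), (0, [2], [2, 3]), (4, [], [4])]),
  (2880, 0, 1, [(0, [0], [1, 5]), (0, [1], [0, 5]), (0, [2], [2, 4]), (4, [], [3])]),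
  (2880, 0, 1, [(0, [0], [1, 5]), (0, [1], [0, 5]), (0, [2], [3, 4]), (4, [], [2])]),
  (2880, 0, 1, [(0, [0], [1, 5]), (0, [1], [2, 5]), (0, [2], [0, 3]), (4, [], [4])]),
  (2880, 0, 1, [(0, [0], [1, 5]), (0, [1], [2, 5]), (0, [2], [0, 4]), (4, [], [3])]),
  (2880, 0, 1, [(0, [0], [1, 5]), (0, [1], [2, 5]), (0, [2], [3, 4]), (4, [], [0])]),
  (2880, 0, 1, [(0, [0], [1, 5]), (0, [1], [3, 5]), (0, [2], [0, 2]), (4, [], [4])]),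
  (2880, 0, 1, [(0, [0], [1, 5]), (0, [1], [3, 5]), (0, [2], [0, 4]), (4, [], [2])]),
  (2880, 0, 1, [(0, [0], [1, 5]), (0, [1], [3, 5]), (0, [2], [2, 4]), (4, [], [0])]),
  (2880, 0, 1, [(0, [0], [1, 5]), (0, [1], [4, 5]), (0, [2], [0, 2]), (4, [], [3])]),
  (2880, 0, 1, [(0, [0], [1, 5]), (0, [1], [4, 5]), (0, [2], [0, 3]), (4, [], [2])]),
  (2880, 0, 1, [(0, [0], [1, 5]), (0, [1], [4, 5]), (0, [2], [2, 3]), (4, [], [0])]),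
  (2880, 0, 1, [(0, [0], [2, 5]), (0, [1], [0, 5]), (0, [2], [1, 3]), (4, [], [4])]),
  (2880, 0, 1, [(0, [0], [2, 5]), (0, [1], [0, 5]), (0, [2], [1, 4]), (4, [], [3])]),
  (2880, 0, 1, [(0, [0], [2, 5]), (0, [1], [0, 5]), (0, [2], [3, 4]), (4, [], [1])]),
  (2880, 0, 1, [(0, [0], [2, 5]), (0, [1], [1, 5]), (0, [2], [0, 3]), (4, [], [4])]),
  (2880, 0, 1, [(0, [0], [2, 5]), (0, [1], [1, 5]), (0, [2], [0, 4]), (4, [], [3])]),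
  (2880, 0, 1, [(0, [0], [2, 5]), (0, [1], [1, 5]), (0, [2], [3, 4]), (4, [], [0])]),
  (2880, 0, 1, [(0, [0], [2, 5]), (0, [1], [3, 5]), (0, [2], [0, 1]), (4, [], [4])]),
  (2880, 0, 1, [(0, [0], [2, 5]), (0, [1], [3, 5]), (0, [2], [0, 4]), (4, [], [1])]),
  (2880, 0, 1, [(0, [0], [2, 5]), (0, [1], [3, 5]), (0, [2], [1, 4]), (4, [], [0])]),
  (2880, 0, 1, [(0, [0], [2, 5]), (0, [1], [4, 5]), (0, [2], [0, 1]), (4, [], [3])]),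
  (2880, 0, 1, [(0, [0], [2, 5]), (0, [1], [4, 5]), (0, [2], [0, 3]), (4, [], [1])]),
  (2880, 0, 1, [(0, [0], [2, 5]), (0, [1], [4, 5]), (0, [2], [1, 3]), (4, [], [0])]),
  (2880, 0, 1, [(0, [0], [3, 5]), (0, [1], [0, 5]), (0, [2], [1, 2]), (4, [], [4])]),
  (2880, 0, 1, [(0, [0], [3, 5]), (0, [1], [0, 5]), (0, [2], [1, 4]), (4, [], [2])]),
  (2880, 0, 1, [(0, [0], [3, 5]), (0, [1], [0, 5]), (0, [2], [2, 4]), (4, [], [1])]),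
  (2880, 0, 1, [(0, [0], [3, 5]), (0, [1], [1, 5]), (0, [2], [0, 2]), (4, [], [4])]),
  (2880, 0, 1, [(0, [0], [3, 5]), (0, [1], [1, 5]), (0, [2], [0, 4]), (4, [], [2])]),
  (2880, 0, 1, [(0, [0], [3, 5]), (0, [1], [1, 5]), (0, [2], [2, 4]), (4, [], [0])]),
  (2880, 0, 1, [(0, [0], [3, 5]), (0, [1], [2, 5]), (0, [2], [0, 1]), (4, [], [4])]),
  (2880, 0, 1, [(0, [0], [3, 5]), (0, [1], [2, 5]), (0, [2], [0, 4]), (4, [], [1])]),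
  (2880, 0, 1, [(0, [0], [3, 5]), (0, [1], [2, 5]), (0, [2], [1, 4]), (4, [], [0])]),
  (2880, 0, 1, [(0, [0], [3, 5]), (0, [1], [4, 5]), (0, [2], [0, 1]), (4, [], [2])]),
  (2880, 0, 1, [(0, [0], [3, 5]), (0, [1], [4, 5]), (0, [2], [0, 2]), (4, [], [1])]),
  (2880, 0, 1, [(0, [0], [3, 5]), (0, [1], [4, 5]), (0, [2], [1, 2]), (4, [], [0])]),
  (2880, 0, 1, [(0, [0], [4, 5]), (0, [1], [0, 5]), (0, [2], [1, 2]), (4, [], [3])]),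
  (2880, 0, 1, [(0, [0], [4, 5]), (0, [1], [0, 5]), (0, [2], [1, 3]), (4, [], [2])]),
  (2880, 0, 1, [(0, [0], [4, 5]), (0, [1], [0, 5]), (0, [2], [2, 3]), (4, [], [1])]),
  (2880, 0, 1, [(0, [0], [4, 5]), (0, [1], [1, 5]), (0, [2], [0, 2]), (4, [], [3])]),
  (2880, 0, 1, [(0, [0], [4, 5]), (0, [1], [1, 5]), (0, [2], [0, 3]), (4, [], [2])]),
  (2880, 0, 1, [(0, [0], [4, 5]), (0, [1], [1, 5]), (0, [2], [2, 3]), (4, [], [0])]),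
  (2880, 0, 1, [(0, [0], [4, 5]), (0, [1], [2, 5]), (0, [2], [0, 1]), (4, [], [3])]),
  (2880, 0, 1, [(0, [0], [4, 5]), (0, [1], [2, 5]), (0, [2], [0, 3]), (4, [], [1])]),
  (2880, 0, 1, [(0, [0], [4, 5]), (0, [1], [2, 5]), (0, [2], [1, 3]), (4, [], [0])]),
  (2880, 0, 1, [(0, [0], [4, 5]), (0, [1], [3, 5]), (0, [2], [0, 1]), (4, [], [2])]),
  (2880, 0, 1, [(0, [0], [4, 5]), (0, [1], [3, 5]), (0, [2], [0, 2]), (4, [], [1])]),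
  (2880, 0, 1, [(0, [0], [4, 5]), (0, [1], [3, 5]), (0, [2], [1, 2]), (4, [], [0])]),
  (2880, 0, 1, [(0, [0], [0, 5]), (0, [2], [1, 5]), (0, [1], [2, 3]), (4, [], [4])]),
  (2880, 0, 1, [(0, [0], [0, 5]), (0, [2], [1, 5]), (0, [1], [2, 4]), (4, [], [3])]),
  (2880, 0, 1, [(0, [0], [0, 5]), (0, [2], [1, 5]), (0, [1], [3, 4]), (4, [], [2])]),
  (2880, 0, 1, [(0, [0], [0, 5]), (0, [2], [2, 5]), (0, [1], [1, 3]), (4, [], [4])]),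
  (2880, 0, 1, [(0, [0], [0, 5]), (0, [2], [2, 5]), (0, [1], [1, 4]), (4, [], [3])]),
  (2880, 0, 1, [(0, [0], [0, 5]), (0, [2], [2, 5]), (0, [1], [3, 4]), (4, [], [1])]),
  (2880, 0, 1, [(0, [0], [0, 5]), (0, [2], [3, 5]), (0, [1], [1, 2]), (4, [], [4])]),
  (2880, 0, 1, [(0, [0], [0, 5]), (0, [2], [3, 5]), (0, [1], [1, 4]), (4, [], [2])]),
  (2880, 0, 1, [(0, [0], [0, 5]), (0, [2], [3, 5]), (0, [1], [2, 4]), (4, [], [1])]),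
  (2880, 0, 1, [(0, [0], [0, 5]), (0, [2], [4, 5]), (0, [1], [1, 2]), (4, [], [3])]),
  (2880, 0, 1, [(0, [0], [0, 5]), (0, [2], [4, 5]), (0, [1], [1, 3]), (4, [], [2])]),
  (2880, 0, 1, [(0, [0], [0, 5]), (0, [2], [4, 5]), (0, [1], [2, 3]), (4, [], [1])]),
  (2880, 0, 1, [(0, [0], [1, 5]), (0, [2], [0, 5]), (0, [1], [2, 3]), (4, [], [4])]),
  (2880, 0, 1, [(0, [0], [1, 5]), (0, [2], [0, 5]), (0, [1], [2, 4]), (4, [], [3])]),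
  (2880, 0, 1, [(0, [0], [1, 5]), (0, [2], [0, 5]), (0, [1], [3, 4]), (4, [], [2])]),
  (2880, 0, 1, [(0, [0], [1, 5]), (0, [2], [2, 5]), (0, [1], [0, 3]), (4, [], [4])]),
  (2880, 0, 1, [(0, [0], [1, 5]), (0, [2], [2, 5]), (0, [1], [0, 4]), (4, [], [3])]),
  (2880, 0, 1, [(0, [0], [1, 5]), (0, [2], [2, 5]), (0, [1], [3, 4]), (4, [], [0])]),
  (2880, 0, 1, [(0, [0], [1, 5]), (0, [2], [3, 5]), (0, [1], [0, 2]), (4, [], [4])]),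
  (2880, 0, 1, [(0, [0], [1, 5]), (0, [2], [3, 5]), (0, [1], [0, 4]), (4, [], [2])]),
  (2880, 0, 1, [(0, [0], [1, 5]), (0, [2], [3, 5]), (0, [1], [2, 4]), (4, [], [0])]),
  (2880, 0, 1, [(0, [0], [1, 5]), (0, [2], [4, 5]), (0, [1], [0, 2]), (4, [], [3])]),
  (2880, 0, 1, [(0, [0], [1, 5]), (0, [2], [4, 5]), (0, [1], [0, 3]), (4, [], [2])]),
  (2880, 0, 1, [(0, [0], [1, 5]), (0, [2], [4, 5]), (0, [1], [2, 3]), (4, [], [0])]),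
  (2880, 0, 1, [(0, [0], [2, 5]), (0, [2], [0, 5]), (0, [1], [1, 3]), (4, [], [4])]),
  (2880, 0, 1, [(0, [0], [2, 5]), (0, [2], [0, 5]), (0, [1], [1, 4]), (4, [], [3])]),
  (2880, 0, 1, [(0, [0], [2, 5]), (0, [2], [0, 5]), (0, [1], [3, 4]), (4, [], [1])]),
  (2880, 0, 1, [(0, [0], [2, 5]), (0, [2], [1, 5]), (0, [1], [0, 3]), (4, [], [4])]),
  (2880, 0, 1, [(0, [0], [2, 5]), (0, [2], [1, 5]), (0, [1], [0, 4]), (4, [], [3])]),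
  (2880, 0, 1, [(0, [0], [2, 5]), (0, [2], [1, 5]), (0, [1], [3, 4]), (4, [], [0])]),
  (2880, 0, 1, [(0, [0], [2, 5]), (0, [2], [3, 5]), (0, [1], [0, 1]), (4, [], [4])]),
  (2880, 0, 1, [(0, [0], [2, 5]), (0, [2], [3, 5]), (0, [1], [0, 4]), (4, [], [1])]),
  (2880, 0, 1, [(0, [0], [2, 5]), (0, [2], [3, 5]), (0, [1], [1, 4]), (4, [], [0])]),
  (2880, 0, 1, [(0, [0], [2, 5]), (0, [2], [4, 5]), (0, [1], [0, 1]), (4, [], [3])]),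
  (2880, 0, 1, [(0, [0], [2, 5]), (0, [2], [4, 5]), (0, [1], [0, 3]), (4, [], [1])]),
  (2880, 0, 1, [(0, [0], [2, 5]), (0, [2], [4, 5]), (0, [1], [1, 3]), (4, [], [0])]),
  (2880, 0, 1, [(0, [0], [3, 5]), (0, [2], [0, 5]), (0, [1], [1, 2]), (4, [], [4])]),
  (2880, 0, 1, [(0, [0], [3, 5]), (0, [2], [0, 5]), (0, [1], [1, 4]), (4, [], [2])]),
  (2880, 0, 1, [(0, [0], [3, 5]), (0, [2], [0, 5]), (0, [1], [2, 4]), (4, [], [1])]),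
  (2880, 0, 1, [(0, [0], [3, 5]), (0, [2], [1, 5]), (0, [1], [0, 2]), (4, [], [4])]),
  (2880, 0, 1, [(0, [0], [3, 5]), (0, [2], [1, 5]), (0, [1], [0, 4]), (4, [], [2])]),
  (2880, 0, 1, [(0, [0], [3, 5]), (0, [2], [1, 5]), (0, [1], [2, 4]), (4, [], [0])]),
  (2880, 0, 1, [(0, [0], [3, 5]), (0, [2], [2, 5]), (0, [1], [0, 1]), (4, [], [4])]),
  (2880, 0, 1, [(0, [0], [3, 5]), (0, [2], [2, 5]), (0, [1], [0, 4]), (4, [], [1])]),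
  (2880, 0, 1, [(0, [0], [3, 5]), (0, [2], [2, 5]), (0, [1], [1, 4]), (4, [], [0])]),
  (2880, 0, 1, [(0, [0], [3, 5]), (0, [2], [4, 5]), (0, [1], [0, 1]), (4, [], [2])]),
  (2880, 0, 1, [(0, [0], [3, 5]), (0, [2], [4, 5]), (0, [1], [0, 2]), (4, [], [1])]),
  (2880, 0, 1, [(0, [0], [3, 5]), (0, [2], [4, 5]), (0, [1], [1, 2]), (4, [], [0])]),
  (2880, 0, 1, [(0, [0], [4, 5]), (0, [2], [0, 5]), (0, [1], [1, 2]), (4, [], [3])]),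
  (2880, 0, 1, [(0, [0], [4, 5]), (0, [2], [0, 5]), (0, [1], [1, 3]), (4, [], [2])]),
  (2880, 0, 1, [(0, [0], [4, 5]), (0, [2], [0, 5]), (0, [1], [2, 3]), (4, [], [1])]),
  (2880, 0, 1, [(0, [0], [4, 5]), (0, [2], [1, 5]), (0, [1], [0, 2]), (4, [], [3])]),
  (2880, 0, 1, [(0, [0], [4, 5]), (0, [2], [1, 5]), (0, [1], [0, 3]), (4, [], [2])]),
  (2880, 0, 1, [(0, [0], [4, 5]), (0, [2], [1, 5]), (0, [1], [2, 3]), (4, [], [0])]),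
  (2880, 0, 1, [(0, [0], [4, 5]), (0, [2], [2, 5]), (0, [1], [0, 1]), (4, [], [3])]),
  (2880, 0, 1, [(0, [0], [4, 5]), (0, [2], [2, 5]), (0, [1], [0, 3]), (4, [], [1])]),
  (2880, 0, 1, [(0, [0], [4, 5]), (0, [2], [2, 5]), (0, [1], [1, 3]), (4, [], [0])]),
  (2880, 0, 1, [(0, [0], [4, 5]), (0, [2], [3, 5]), (0, [1], [0, 1]), (4, [], [2])]),
  (2880, 0, 1, [(0, [0], [4, 5]), (0, [2], [3, 5]), (0, [1], [0, 2]), (4, [], [1])]),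
  (2880, 0, 1, [(0, [0], [4, 5]), (0, [2], [3, 5]), (0, [1], [1, 2]), (4, [], [0])]),
  (2880, 0, 1, [(0, [1], [0, 5]), (0, [2], [1, 5]), (0, [0], [2, 3]), (4, [], [4])]),
  (2880, 0, 1, [(0, [1], [0, 5]), (0, [2], [1, 5]), (0, [0], [2, 4]), (4, [], [3])]),
  (2880, 0, 1, [(0, [1], [0, 5]), (0, [2], [1, 5]), (0, [0], [3, 4]), (4, [], [2])]),
  (2880, 0, 1, [(0, [1], [0, 5]), (0, [2], [2, 5]), (0, [0], [1, 3]), (4, [], [4])]),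
  (2880, 0, 1, [(0, [1], [0, 5]), (0, [2], [2, 5]), (0, [0], [1, 4]), (4, [], [3])]),
  (2880, 0, 1, [(0, [1], [0, 5]), (0, [2], [2, 5]), (0, [0], [3, 4]), (4, [], [1])]),
  (2880, 0, 1, [(0, [1], [0, 5]), (0, [2], [3, 5]), (0, [0], [1, 2]), (4, [], [4])]),
  (2880, 0, 1, [(0, [1], [0, 5]), (0, [2], [3, 5]), (0, [0], [1, 4]), (4, [], [2])]),
  (2880, 0, 1, [(0, [1], [0, 5]), (0, [2], [3, 5]), (0, [0], [2, 4]), (4, [], [1])]),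
  (2880, 0, 1, [(0, [1], [0, 5]), (0, [2], [4, 5]), (0, [0], [1, 2]), (4, [], [3])]),
  (2880, 0, 1, [(0, [1], [0, 5]), (0, [2], [4, 5]), (0, [0], [1, 3]), (4, [], [2])]),
  (2880, 0, 1, [(0, [1], [0, 5]), (0, [2], [4, 5]), (0, [0], [2, 3]), (4, [], [1])]),
  (2880, 0, 1, [(0, [1], [1, 5]), (0, [2], [0, 5]), (0, [0], [2, 3]), (4, [], [4])]),
  (2880, 0, 1, [(0, [1], [1, 5]), (0, [2], [0, 5]), (0, [0], [2, 4]), (4, [], [3])]),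
  (2880, 0, 1, [(0, [1], [1, 5]), (0, [2], [0, 5]), (0, [0], [3, 4]), (4, [], [2])]),
  (2880, 0, 1, [(0, [1], [1, 5]), (0, [2], [2, 5]), (0, [0], [0, 3]), (4, [], [4])]),
  (2880, 0, 1, [(0, [1], [1, 5]), (0, [2], [2, 5]), (0, [0], [0, 4]), (4, [], [3])]),
  (2880, 0, 1, [(0, [1], [1, 5]), (0, [2], [2, 5]), (0, [0], [3, 4]), (4, [], [0])]),
  (2880, 0, 1, [(0, [1], [1, 5]), (0, [2], [3, 5]), (0, [0], [0, 2]), (4, [], [4])]),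
  (2880, 0, 1, [(0, [1], [1, 5]), (0, [2], [3, 5]), (0, [0], [0, 4]), (4, [], [2])]),
  (2880, 0, 1, [(0, [1], [1, 5]), (0, [2], [3, 5]), (0, [0], [2, 4]), (4, [], [0])]),
  (2880, 0, 1, [(0, [1], [1, 5]), (0, [2], [4, 5]), (0, [0], [0, 2]), (4, [], [3])]),
  (2880, 0, 1, [(0, [1], [1, 5]), (0, [2], [4, 5]), (0, [0], [0, 3]), (4, [], [2])]),
  (2880, 0, 1, [(0, [1], [1, 5]), (0, [2], [4, 5]), (0, [0], [2, 3]), (4, [], [0])]),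
  (2880, 0, 1, [(0, [1], [2, 5]), (0, [2], [0, 5]), (0, [0], [1, 3]), (4, [], [4])]),
  (2880, 0, 1, [(0, [1], [2, 5]), (0, [2], [0, 5]), (0, [0], [1, 4]), (4, [], [3])]),
  (2880, 0, 1, [(0, [1], [2, 5]), (0, [2], [0, 5]), (0, [0], [3, 4]), (4, [], [1])]),
  (2880, 0, 1, [(0, [1], [2, 5]), (0, [2], [1, 5]), (0, [0], [0, 3]), (4, [], [4])]),
  (2880, 0, 1, [(0, [1], [2, 5]), (0, [2], [1, 5]), (0, [0], [0, 4]), (4, [], [3])]),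
  (2880, 0, 1, [(0, [1], [2, 5]), (0, [2], [1, 5]), (0, [0], [3, 4]), (4, [], [0])]),
  (2880, 0, 1, [(0, [1], [2, 5]), (0, [2], [3, 5]), (0, [0], [0, 1]), (4, [], [4])]),
  (2880, 0, 1, [(0, [1], [2, 5]), (0, [2], [3, 5]), (0, [0], [0, 4]), (4, [], [1])]),
  (2880, 0, 1, [(0, [1], [2, 5]), (0, [2], [3, 5]), (0, [0], [1, 4]), (4, [], [0])]),
  (2880, 0, 1, [(0, [1], [2, 5]), (0, [2], [4, 5]), (0, [0], [0, 1]), (4, [], [3])]),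
  (2880, 0, 1, [(0, [1], [2, 5]), (0, [2], [4, 5]), (0, [0], [0, 3]), (4, [], [1])]),
  (2880, 0, 1, [(0, [1], [2, 5]), (0, [2], [4, 5]), (0, [0], [1, 3]), (4, [], [0])]),
  (2880, 0, 1, [(0, [1], [3, 5]), (0, [2], [0, 5]), (0, [0], [1, 2]), (4, [], [4])]),
  (2880, 0, 1, [(0, [1], [3, 5]), (0, [2], [0, 5]), (0, [0], [1, 4]), (4, [], [2])]),
  (2880, 0, 1, [(0, [1], [3, 5]), (0, [2], [0, 5]), (0, [0], [2, 4]), (4, [], [1])]),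
  (2880, 0, 1, [(0, [1], [3, 5]), (0, [2], [1, 5]), (0, [0], [0, 2]), (4, [], [4])]),
  (2880, 0, 1, [(0, [1], [3, 5]), (0, [2], [1, 5]), (0, [0], [0, 4]), (4, [], [2])]),
  (2880, 0, 1, [(0, [1], [3, 5]), (0, [2], [1, 5]), (0, [0], [2, 4]), (4, [], [0])]),
  (2880, 0, 1, [(0, [1], [3, 5]), (0, [2], [2, 5]), (0, [0], [0, 1]), (4, [], [4])]),
  (2880, 0, 1, [(0, [1], [3, 5]), (0, [2], [2, 5]), (0, [0], [0, 4]), (4, [], [1])]),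
  (2880, 0, 1, [(0, [1], [3, 5]), (0, [2], [2, 5]), (0, [0], [1, 4]), (4, [], [0])]),
  (2880, 0, 1, [(0, [1], [3, 5]), (0, [2], [4, 5]), (0, [0], [0, 1]), (4, [], [2])]),
  (2880, 0, 1, [(0, [1], [3, 5]), (0, [2], [4, 5]), (0, [0], [0, 2]), (4, [], [1])]),
  (2880, 0, 1, [(0, [1], [3, 5]), (0, [2], [4, 5]), (0, [0], [1, 2]), (4, [], [0])]),
  (2880, 0, 1, [(0, [1], [4, 5]), (0, [2], [0, 5]), (0, [0], [1, 2]), (4, [], [3])]),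
  (2880, 0, 1, [(0, [1], [4, 5]), (0, [2], [0, 5]), (0, [0], [1, 3]), (4, [], [2])]),
  (2880, 0, 1, [(0, [1], [4, 5]), (0, [2], [0, 5]), (0, [0], [2, 3]), (4, [], [1])]),
  (2880, 0, 1, [(0, [1], [4, 5]), (0, [2], [1, 5]), (0, [0], [0, 2]), (4, [], [3])]),
  (2880, 0, 1, [(0, [1], [4, 5]), (0, [2], [1, 5]), (0, [0], [0, 3]), (4, [], [2])]),
  (2880, 0, 1, [(0, [1], [4, 5]), (0, [2], [1, 5]), (0, [0], [2, 3]), (4, [], [0])]),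
  (2880, 0, 1, [(0, [1], [4, 5]), (0, [2], [2, 5]), (0, [0], [0, 1]), (4, [], [3])]),
  (2880, 0, 1, [(0, [1], [4, 5]), (0, [2], [2, 5]), (0, [0], [0, 3]), (4, [], [1])]),
  (2880, 0, 1, [(0, [1], [4, 5]), (0, [2], [2, 5]), (0, [0], [1, 3]), (4, [], [0])]),
  (2880, 0, 1, [(0, [1], [4, 5]), (0, [2], [3, 5]), (0, [0], [0, 1]), (4, [], [2])]),
  (2880, 0, 1, [(0, [1], [4, 5]), (0, [2], [3, 5]), (0, [0], [0, 2]), (4, [], [1])]),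
  (2880, 0, 1, [(0, [1], [4, 5]), (0, [2], [3, 5]), (0, [0], [1, 2]), (4, [], [0])])]

def z21_0 : Cov := []

def w21_0 : List (List Wit) := [[(0, 0, 0, 0, 0), (1, 0, 0, 0, 0), (0, 0, 0, 0, 0), (2, 0, 0, 0, 0), (1, 0, 0, 0, 0), (2, 0, 0, 0, 0), (3, 0, 0, 0, 0), (4, 0, 0, 0, 0), (3, 0, 0, 0, 0), (5, 0, 0, 0, 0), (4, 0, 0, 0, 0), (5, 0, 0, 0, 0), (6, 0, 0, 0, 0), (7, 0, 0, 0, 0), (6, 0, 0, 0, 0), (8, 0, 0, 0, 0), (7, 0, 0, 0, 0), (8, 0, 0, 0, 0), (9, 0, 0, 0, 0), (10, 0, 0, 0, 0), (9, 0, 0, 0, 0), (11, 0, 0, 0, 0), (10, 0, 0, 0, 0), (11, 0, 0, 0, 0), (12, 0, 0, 0, 0), (13, 0, 0, 0, 0), (12, 0, 0, 0, 0), (14, 0, 0, 0, 0), (13, 0, 0, 0, 0), (14, 0, 0, 0, 0), (15, 0, 0, 0, 0), (16, 0, 0, 0, 0), (15, 0, 0, 0, 0), (17, 0, 0, 0, 0), (16, 0, 0, 0, 0), (17, 0, 0, 0, 0), (18, 0, 0, 0, 0), (19, 0, 0, 0, 0), (18, 0, 0, 0, 0), (20, 0, 0, 0,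 0), (19, 0, 0, 0, 0), (20, 0, 0, 0, 0), (21, 0, 0, 0, 0), (22, 0, 0, 0, 0), (21, 0, 0, 0, 0), (23, 0, 0, 0, 0), (22, 0, 0, 0, 0), (23, 0, 0, 0, 0), (24, 0, 0, 0, 0), (25, 0, 0, 0, 0), (24, 0, 0, 0, 0), (26, 0, 0, 0, 0), (25, 0, 0, 0, 0), (26, 0, 0, 0, 0), (27, 0, 0, 0, 0), (28, 0, 0, 0, 0), (27, 0, 0, 0, 0), (29, 0, 0, 0, 0), (28, 0, 0, 0, 0), (29, 0, 0, 0, 0), (30, 0, 0, 0, 0), (31, 0, 0, 0, 0), (30, 0, 0, 0, 0), (32, 0, 0, 0, 0), (31, 0, 0, 0, 0), (32, 0, 0, 0, 0), (33, 0, 0, 0, 0), (34, 0, 0, 0, 0), (33, 0, 0, 0, 0), (35, 0, 0, 0, 0), (34, 0, 0, 0, 0), (35, 0, 0, 0, 0), (36, 0, 0, 0, 0), (37, 0, 0, 0, 0), (36, 0, 0, 0, 0), (38, 0, 0, 0, 0), (37, 0, 0, 0, 0), (38, 0, 0, 0, 0), (39, 0, 0, 0, 0), (40, 0, 0, 0, 0), (39, 0, 0, 0, 0), (41, 0, 0, 0, 0), (40, 0, 0, 0, 0), (41, 0, 0, 0, 0), (42, 0, 0, 0, 0), (43, 0, 0, 0, 0), (42,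 0, 0, 0, 0), (44, 0, 0, 0, 0), (43, 0, 0, 0, 0), (44, 0, 0, 0, 0), (45, 0, 0, 0, 0), (46, 0, 0, 0, 0), (45, 0, 0, 0, 0), (47, 0, 0, 0, 0), (46, 0, 0, 0, 0), (47, 0, 0, 0, 0), (48, 0, 0, 0, 0), (49, 0, 0, 0, 0), (48, 0, 0, 0, 0), (50, 0, 0, 0, 0), (49, 0, 0, 0, 0), (50, 0, 0, 0, 0), (51, 0, 0, 0, 0), (52, 0, 0, 0, 0), (51, 0, 0, 0, 0), (53, 0, 0, 0, 0), (52, 0, 0, 0, 0), (53, 0, 0, 0, 0), (54, 0, 0, 0, 0), (55, 0, 0, 0, 0), (54, 0, 0, 0, 0), (56, 0, 0, 0, 0), (55, 0, 0, 0, 0), (56, 0, 0, 0, 0), (57, 0, 0, 0, 0), (58, 0, 0, 0, 0), (57, 0, 0, 0, 0), (59, 0, 0, 0, 0), (58, 0, 0, 0, 0), (59, 0, 0, 0, 0)],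
  [(60, 0, 0, 0, 0), (61, 0, 0, 0, 0), (60, 0, 0, 0, 0), (62, 0, 0, 0, 0), (61, 0, 0, 0, 0), (62, 0, 0, 0, 0), (63, 0, 0, 0, 0), (64, 0, 0, 0, 0), (63, 0, 0, 0, 0), (65, 0, 0, 0, 0), (64, 0, 0, 0, 0), (65, 0, 0, 0, 0), (66, 0, 0, 0, 0), (67, 0, 0, 0, 0), (66, 0, 0, 0, 0), (68, 0, 0, 0, 0), (67, 0, 0, 0, 0), (68, 0, 0, 0, 0), (69, 0, 0, 0, 0), (70, 0, 0, 0, 0), (69, 0, 0, 0, 0), (71, 0, 0, 0, 0), (70, 0, 0, 0, 0), (71, 0, 0, 0, 0), (72, 0, 0, 0, 0), (73, 0, 0, 0, 0), (72, 0, 0, 0, 0), (74, 0, 0, 0, 0), (73, 0, 0, 0, 0), (74, 0, 0, 0, 0), (75, 0, 0, 0, 0), (76, 0, 0, 0, 0), (75, 0, 0, 0, 0), (77, 0, 0, 0, 0), (76, 0, 0, 0, 0), (77, 0, 0, 0, 0), (78, 0, 0, 0, 0), (79, 0, 0, 0, 0), (78, 0, 0, 0, 0), (80, 0, 0, 0, 0), (79, 0, 0, 0, 0), (80, 0, 0, 0, 0), (81, 0, 0, 0, 0), (82, 0, 0, 0, 0), (81, 0, 0, 0, 0), (83, 0, 0, 0, 0), (82, 0,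 0, 0, 0), (83, 0, 0, 0, 0), (84, 0, 0, 0, 0), (85, 0, 0, 0, 0), (84, 0, 0, 0, 0), (86, 0, 0, 0, 0), (85, 0, 0, 0, 0), (86, 0, 0, 0, 0), (87, 0, 0, 0, 0), (88, 0, 0, 0, 0), (87, 0, 0, 0, 0), (89, 0, 0, 0, 0), (88, 0, 0, 0, 0), (89, 0, 0, 0, 0), (90, 0, 0, 0, 0), (91, 0, 0, 0, 0), (90, 0, 0, 0, 0), (92, 0, 0, 0, 0), (91, 0, 0, 0, 0), (92, 0, 0, 0, 0), (93, 0, 0, 0, 0), (94, 0, 0, 0, 0), (93, 0, 0, 0, 0), (95, 0, 0, 0, 0), (94, 0, 0, 0, 0), (95, 0, 0, 0, 0), (96, 0, 0, 0, 0), (97, 0, 0, 0, 0), (96, 0, 0, 0, 0), (98, 0, 0, 0, 0), (97, 0, 0, 0, 0), (98, 0, 0, 0, 0), (99, 0, 0, 0, 0), (100, 0, 0, 0, 0), (99, 0, 0, 0, 0), (101, 0, 0, 0, 0), (100, 0, 0, 0, 0), (101, 0, 0, 0, 0), (102, 0, 0, 0, 0), (103, 0, 0, 0, 0), (102, 0, 0, 0, 0), (104, 0, 0, 0, 0), (103, 0, 0, 0, 0), (104, 0, 0, 0, 0), (105, 0, 0, 0, 0), (106, 0, 0, 0, 0), (105,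 0, 0, 0, 0), (107, 0, 0, 0, 0), (106, 0, 0, 0, 0), (107, 0, 0, 0, 0), (108, 0, 0, 0, 0), (109, 0, 0, 0, 0), (108, 0, 0, 0, 0), (110, 0, 0, 0, 0), (109, 0, 0, 0, 0), (110, 0, 0, 0, 0), (111, 0, 0, 0, 0), (112, 0, 0, 0, 0), (111, 0, 0, 0, 0), (113, 0, 0, 0, 0), (112, 0, 0, 0, 0), (113, 0, 0, 0, 0), (114, 0, 0, 0, 0), (115, 0, 0, 0, 0), (114, 0, 0, 0, 0), (116, 0, 0, 0, 0), (115, 0, 0, 0, 0), (116, 0, 0, 0, 0), (117, 0, 0, 0, 0), (118, 0, 0, 0, 0), (117, 0, 0, 0, 0), (119, 0, 0, 0, 0), (118, 0, 0, 0, 0), (119, 0, 0, 0, 0)],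
  [(12, 0, 0, 0, 0), (13, 0, 0, 0, 0), (12, 0, 0, 0, 0), (14, 0, 0, 0, 0), (13, 0, 0, 0, 0), (14, 0, 0, 0, 0), (24, 0, 0, 0, 0), (25, 0, 0, 0, 0), (24, 0, 0, 0, 0), (26, 0, 0, 0, 0), (25, 0, 0, 0, 0), (26, 0, 0, 0, 0), (36, 0, 0, 0, 0), (37, 0, 0, 0, 0), (36, 0, 0, 0, 0), (38, 0, 0, 0, 0), (37, 0, 0, 0, 0), (38, 0, 0, 0, 0), (48, 0, 0, 0, 0), (49, 0, 0, 0, 0), (48, 0, 0, 0, 0), (50, 0, 0, 0, 0), (49, 0, 0, 0, 0), (50, 0, 0, 0, 0), (0, 0, 0, 0, 0), (1, 0, 0, 0, 0), (0, 0, 0, 0, 0), (2, 0, 0, 0, 0), (1, 0, 0, 0, 0), (2, 0, 0, 0, 0), (27, 0, 0, 0, 0), (28, 0, 0, 0, 0), (27, 0, 0, 0, 0), (29, 0, 0, 0, 0), (28, 0, 0, 0, 0), (29, 0, 0, 0, 0), (39, 0, 0, 0, 0), (40, 0, 0, 0, 0), (39, 0, 0, 0, 0), (41, 0, 0, 0, 0), (40, 0, 0, 0, 0), (41, 0, 0, 0, 0), (51, 0, 0, 0, 0), (52, 0, 0, 0, 0), (51, 0, 0, 0, 0), (53, 0, 0, 0, 0), (52, 0, 0, 0,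 0), (53, 0, 0, 0, 0), (3, 0, 0, 0, 0), (4, 0, 0, 0, 0), (3, 0, 0, 0, 0), (5, 0, 0, 0, 0), (4, 0, 0, 0, 0), (5, 0, 0, 0, 0), (15, 0, 0, 0, 0), (16, 0, 0, 0, 0), (15, 0, 0, 0, 0), (17, 0, 0, 0, 0), (16, 0, 0, 0, 0), (17, 0, 0, 0, 0), (42, 0, 0, 0, 0), (43, 0, 0, 0, 0), (42, 0, 0, 0, 0), (44, 0, 0, 0, 0), (43, 0, 0, 0, 0), (44, 0, 0, 0, 0), (54, 0, 0, 0, 0), (55, 0, 0, 0, 0), (54, 0, 0, 0, 0), (56, 0, 0, 0, 0), (55, 0, 0, 0, 0), (56, 0, 0, 0, 0), (6, 0, 0, 0, 0), (7, 0, 0, 0, 0), (6, 0, 0, 0, 0), (8, 0, 0, 0, 0), (7, 0, 0, 0, 0), (8, 0, 0, 0, 0), (18, 0, 0, 0, 0), (19, 0, 0, 0, 0), (18, 0, 0, 0, 0), (20, 0, 0, 0, 0), (19, 0, 0, 0, 0), (20, 0, 0, 0, 0), (30, 0, 0, 0, 0), (31, 0, 0, 0, 0), (30, 0, 0, 0, 0), (32, 0, 0, 0, 0), (31, 0, 0, 0, 0), (32, 0, 0, 0, 0), (57, 0, 0, 0, 0), (58, 0, 0, 0, 0), (57, 0, 0, 0, 0), (59, 0, 0, 0, 0),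 (58, 0, 0, 0, 0), (59, 0, 0, 0, 0), (9, 0, 0, 0, 0), (10, 0, 0, 0, 0), (9, 0, 0, 0, 0), (11, 0, 0, 0, 0), (10, 0, 0, 0, 0), (11, 0, 0, 0, 0), (21, 0, 0, 0, 0), (22, 0, 0, 0, 0), (21, 0, 0, 0, 0), (23, 0, 0, 0, 0), (22, 0, 0, 0, 0), (23, 0, 0, 0, 0), (33, 0, 0, 0, 0), (34, 0, 0, 0, 0), (33, 0, 0, 0, 0), (35, 0, 0, 0, 0), (34, 0, 0, 0, 0), (35, 0, 0, 0, 0), (45, 0, 0, 0, 0), (46, 0, 0, 0, 0), (45, 0, 0, 0, 0), (47, 0, 0, 0, 0), (46, 0, 0, 0, 0), (47, 0, 0, 0, 0)],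
  [(120, 0, 0, 0, 0), (121, 0, 0, 0, 0), (120, 0, 0, 0, 0), (122, 0, 0, 0, 0), (121, 0, 0, 0, 0), (122, 0, 0, 0, 0), (123, 0, 0, 0, 0), (124, 0, 0, 0, 0), (123, 0, 0, 0, 0), (125, 0, 0, 0, 0), (124, 0, 0, 0, 0), (125, 0, 0, 0, 0), (126, 0, 0, 0, 0), (127, 0, 0, 0, 0), (126, 0, 0, 0, 0), (128, 0, 0, 0, 0), (127, 0, 0, 0, 0), (128, 0, 0, 0, 0), (129, 0, 0, 0, 0), (130, 0, 0, 0, 0), (129, 0, 0, 0, 0), (131, 0, 0, 0, 0), (130, 0, 0, 0, 0), (131, 0, 0, 0, 0), (132, 0, 0, 0, 0), (133, 0, 0, 0, 0), (132, 0, 0, 0, 0), (134, 0, 0, 0, 0), (133, 0, 0, 0, 0), (134, 0, 0, 0, 0), (135, 0, 0, 0, 0), (136, 0, 0, 0, 0), (135, 0, 0, 0, 0), (137, 0, 0, 0, 0), (136, 0, 0, 0, 0), (137, 0, 0, 0, 0), (138, 0, 0, 0, 0), (139, 0, 0, 0, 0), (138, 0, 0, 0, 0), (140, 0, 0, 0, 0), (139, 0, 0, 0, 0), (140, 0, 0, 0, 0), (141, 0, 0, 0, 0), (142, 0, 0, 0, 0),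 (141, 0, 0, 0, 0), (143, 0, 0, 0, 0), (142, 0, 0, 0, 0), (143, 0, 0, 0, 0), (144, 0, 0, 0, 0), (145, 0, 0, 0, 0), (144, 0, 0, 0, 0), (146, 0, 0, 0, 0), (145, 0, 0, 0, 0), (146, 0, 0, 0, 0), (147, 0, 0, 0, 0), (148, 0, 0, 0, 0), (147, 0, 0, 0, 0), (149, 0, 0, 0, 0), (148, 0, 0, 0, 0), (149, 0, 0, 0, 0), (150, 0, 0, 0, 0), (151, 0, 0, 0, 0), (150, 0, 0, 0, 0), (152, 0, 0, 0, 0), (151, 0, 0, 0, 0), (152, 0, 0, 0, 0), (153, 0, 0, 0, 0), (154, 0, 0, 0, 0), (153, 0, 0, 0, 0), (155, 0, 0, 0, 0), (154, 0, 0, 0, 0), (155, 0, 0, 0, 0), (156, 0, 0, 0, 0), (157, 0, 0, 0, 0), (156, 0, 0, 0, 0), (158, 0, 0, 0, 0), (157, 0, 0, 0, 0), (158, 0, 0, 0, 0), (159, 0, 0, 0, 0), (160, 0, 0, 0, 0), (159, 0, 0, 0, 0), (161, 0, 0, 0, 0), (160, 0, 0, 0, 0), (161, 0, 0, 0, 0), (162, 0, 0, 0, 0), (163, 0, 0, 0, 0), (162, 0, 0, 0, 0), (164, 0, 0, 0, 0), (163,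 0, 0, 0, 0), (164, 0, 0, 0, 0), (165, 0, 0, 0, 0), (166, 0, 0, 0, 0), (165, 0, 0, 0, 0), (167, 0, 0, 0, 0), (166, 0, 0, 0, 0), (167, 0, 0, 0, 0), (168, 0, 0, 0, 0), (169, 0, 0, 0, 0), (168, 0, 0, 0, 0), (170, 0, 0, 0, 0), (169, 0, 0, 0, 0), (170, 0, 0, 0, 0), (171, 0, 0, 0, 0), (172, 0, 0, 0, 0), (171, 0, 0, 0, 0), (173, 0, 0, 0, 0), (172, 0, 0, 0, 0), (173, 0, 0, 0, 0), (174, 0, 0, 0, 0), (175, 0, 0, 0, 0), (174, 0, 0, 0, 0), (176, 0, 0, 0, 0), (175, 0, 0, 0, 0), (176, 0, 0, 0, 0), (177, 0, 0, 0, 0), (178, 0, 0, 0, 0), (177, 0, 0, 0, 0), (179, 0, 0, 0, 0), (178, 0, 0, 0, 0), (179, 0, 0, 0, 0)],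
  [(72, 0, 0, 0, 0), (73, 0, 0, 0, 0), (72, 0, 0, 0, 0), (74, 0, 0, 0, 0), (73, 0, 0, 0, 0), (74, 0, 0, 0, 0), (84, 0, 0, 0, 0), (85, 0, 0, 0, 0), (84, 0, 0, 0, 0), (86, 0, 0, 0, 0), (85, 0, 0, 0, 0), (86, 0, 0, 0, 0), (96, 0, 0, 0, 0), (97, 0, 0, 0, 0), (96, 0, 0, 0, 0), (98, 0, 0, 0, 0), (97, 0, 0, 0, 0), (98, 0, 0, 0, 0), (108, 0, 0, 0, 0), (109, 0, 0, 0, 0), (108, 0, 0, 0, 0), (110, 0, 0, 0, 0), (109, 0, 0, 0, 0), (110, 0, 0, 0, 0), (60, 0, 0, 0, 0), (61, 0, 0, 0, 0), (60, 0, 0, 0, 0), (62, 0, 0, 0, 0), (61, 0, 0, 0, 0), (62, 0, 0, 0, 0), (87, 0, 0, 0, 0), (88, 0, 0, 0, 0), (87, 0, 0, 0, 0), (89, 0, 0, 0, 0), (88, 0, 0, 0, 0), (89, 0, 0, 0, 0), (99, 0, 0, 0, 0), (100, 0, 0, 0, 0), (99, 0, 0, 0, 0), (101, 0, 0, 0, 0), (100, 0, 0, 0, 0), (101, 0, 0, 0, 0), (111, 0, 0, 0, 0), (112, 0, 0, 0, 0), (111, 0, 0, 0, 0), (113, 0, 0,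 0, 0), (112, 0, 0, 0, 0), (113, 0, 0, 0, 0), (63, 0, 0, 0, 0), (64, 0, 0, 0, 0), (63, 0, 0, 0, 0), (65, 0, 0, 0, 0), (64, 0, 0, 0, 0), (65, 0, 0, 0, 0), (75, 0, 0, 0, 0), (76, 0, 0, 0, 0), (75, 0, 0, 0, 0), (77, 0, 0, 0, 0), (76, 0, 0, 0, 0), (77, 0, 0, 0, 0), (102, 0, 0, 0, 0), (103, 0, 0, 0, 0), (102, 0, 0, 0, 0), (104, 0, 0, 0, 0), (103, 0, 0, 0, 0), (104, 0, 0, 0, 0), (114, 0, 0, 0, 0), (115, 0, 0, 0, 0), (114, 0, 0, 0, 0), (116, 0, 0, 0, 0), (115, 0, 0, 0, 0), (116, 0, 0, 0, 0), (66, 0, 0, 0, 0), (67, 0, 0, 0, 0), (66, 0, 0, 0, 0), (68, 0, 0, 0, 0), (67, 0, 0, 0, 0), (68, 0, 0, 0, 0), (78, 0, 0, 0, 0), (79, 0, 0, 0, 0), (78, 0, 0, 0, 0), (80, 0, 0, 0, 0), (79, 0, 0, 0, 0), (80, 0, 0, 0, 0), (90, 0, 0, 0, 0), (91, 0, 0, 0, 0), (90, 0, 0, 0, 0), (92, 0, 0, 0, 0), (91, 0, 0, 0, 0), (92, 0, 0, 0, 0), (117, 0, 0, 0, 0), (118,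 0, 0, 0, 0), (117, 0, 0, 0, 0), (119, 0, 0, 0, 0), (118, 0, 0, 0, 0), (119, 0, 0, 0, 0), (69, 0, 0, 0, 0), (70, 0, 0, 0, 0), (69, 0, 0, 0, 0), (71, 0, 0, 0, 0), (70, 0, 0, 0, 0), (71, 0, 0, 0, 0), (81, 0, 0, 0, 0), (82, 0, 0, 0, 0), (81, 0, 0, 0, 0), (83, 0, 0, 0, 0), (82, 0, 0, 0, 0), (83, 0, 0, 0, 0), (93, 0, 0, 0, 0), (94, 0, 0, 0, 0), (93, 0, 0, 0, 0), (95, 0, 0, 0, 0), (94, 0, 0, 0, 0), (95, 0, 0, 0, 0), (105, 0, 0, 0, 0), (106, 0, 0, 0, 0), (105, 0, 0, 0, 0), (107, 0, 0, 0, 0), (106, 0, 0, 0, 0), (107, 0, 0, 0, 0)],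
  [(132, 0, 0, 0, 0), (133, 0, 0, 0, 0), (132, 0, 0, 0, 0), (134, 0, 0, 0, 0), (133, 0, 0, 0, 0), (134, 0, 0, 0, 0), (144, 0, 0, 0, 0), (145, 0, 0, 0, 0), (144, 0, 0, 0, 0), (146, 0, 0, 0, 0), (145, 0, 0, 0, 0), (146, 0, 0, 0, 0), (156, 0, 0, 0, 0), (157, 0, 0, 0, 0), (156, 0, 0, 0, 0), (158, 0, 0, 0, 0), (157, 0, 0, 0, 0), (158, 0, 0, 0, 0), (168, 0, 0, 0, 0), (169, 0, 0, 0, 0), (168, 0, 0, 0, 0), (170, 0, 0, 0, 0), (169, 0, 0, 0, 0), (170, 0, 0, 0, 0), (120, 0, 0, 0, 0), (121, 0, 0, 0, 0), (120, 0, 0, 0, 0), (122, 0, 0, 0, 0), (121, 0, 0, 0, 0), (122, 0, 0, 0, 0), (147, 0, 0, 0, 0), (148, 0, 0, 0, 0), (147, 0, 0, 0, 0), (149, 0, 0, 0, 0), (148, 0, 0, 0, 0), (149, 0, 0, 0, 0), (159, 0, 0, 0, 0), (160, 0, 0, 0, 0), (159, 0, 0, 0, 0), (161, 0, 0, 0, 0), (160, 0, 0, 0, 0), (161, 0, 0, 0, 0), (171, 0, 0, 0, 0), (172, 0, 0, 0, 0),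 (171, 0, 0, 0, 0), (173, 0, 0, 0, 0), (172, 0, 0, 0, 0), (173, 0, 0, 0, 0), (123, 0, 0, 0, 0), (124, 0, 0, 0, 0), (123, 0, 0, 0, 0), (125, 0, 0, 0, 0), (124, 0, 0, 0, 0), (125, 0, 0, 0, 0), (135, 0, 0, 0, 0), (136, 0, 0, 0, 0), (135, 0, 0, 0, 0), (137, 0, 0, 0, 0), (136, 0, 0, 0, 0), (137, 0, 0, 0, 0), (162, 0, 0, 0, 0), (163, 0, 0, 0, 0), (162, 0, 0, 0, 0), (164, 0, 0, 0, 0), (163, 0, 0, 0, 0), (164, 0, 0, 0, 0), (174, 0, 0, 0, 0), (175, 0, 0, 0, 0), (174, 0, 0, 0, 0), (176, 0, 0, 0, 0), (175, 0, 0, 0, 0), (176, 0, 0, 0, 0), (126, 0, 0, 0, 0), (127, 0, 0, 0, 0), (126, 0, 0, 0, 0), (128, 0, 0, 0, 0), (127, 0, 0, 0, 0), (128, 0, 0, 0, 0), (138, 0, 0, 0, 0), (139, 0, 0, 0, 0), (138, 0, 0, 0, 0), (140, 0, 0, 0, 0), (139, 0, 0, 0, 0), (140, 0, 0, 0, 0), (150, 0, 0, 0, 0), (151, 0, 0, 0, 0), (150, 0, 0, 0, 0), (152, 0, 0, 0, 0), (151,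 0, 0, 0, 0), (152, 0, 0, 0, 0), (177, 0, 0, 0, 0), (178, 0, 0, 0, 0), (177, 0, 0, 0, 0), (179, 0, 0, 0, 0), (178, 0, 0, 0, 0), (179, 0, 0, 0, 0), (129, 0, 0, 0, 0), (130, 0, 0, 0, 0), (129, 0, 0, 0, 0), (131, 0, 0, 0, 0), (130, 0, 0, 0, 0), (131, 0, 0, 0, 0), (141, 0, 0, 0, 0), (142, 0, 0, 0, 0), (141, 0, 0, 0, 0), (143, 0, 0, 0, 0), (142, 0, 0, 0, 0), (143, 0, 0, 0, 0), (153, 0, 0, 0, 0), (154, 0, 0, 0, 0), (153, 0, 0, 0, 0), (155, 0, 0, 0, 0), (154, 0, 0, 0, 0), (155, 0, 0, 0, 0), (165, 0, 0, 0, 0), (166, 0, 0, 0, 0), (165, 0, 0, 0, 0), (167, 0, 0, 0, 0), (166, 0, 0, 0, 0), (167, 0, 0, 0, 0)]]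

def m21_1 : Base := (0, 1, [(0, [0], [0, 5]), (0, [1], [1, 2]), (0, [2], [3, 4]), (4, [], [5])])

def l21_1 : Cov := [(5760, 0, 1, [(0, [0], [0, 5]), (0, [1], [1, 2]), (0, [2], [3, 4]), (4, [], [5])]),
  (5760, 0, 1, [(0, [0], [0, 5]), (0, [1], [1, 3]), (0, [2], [2, 4]), (4, [], [5])]),
  (5760, 0, 1, [(0, [0], [0, 5]), (0, [1], [1, 4]), (0, [2], [2, 3]), (4, [], [5])]),
  (5760, 0, 1, [(0, [0], [0, 5]), (0, [1], [2, 3]), (0, [2], [1, 4]), (4, [], [5])]),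
  (5760, 0, 1, [(0, [0], [0, 5]), (0, [1], [2, 4]), (0, [2], [1, 3]), (4, [], [5])]),
  (5760, 0, 1, [(0, [0], [0, 5]), (0, [1], [3, 4]), (0, [2], [1, 2]), (4, [], [5])]),
  (5760, 0, 1, [(0, [0], [1, 5]), (0, [1], [0, 2]), (0, [2], [3, 4]), (4, [], [5])]),
  (5760, 0, 1, [(0, [0], [1, 5]), (0, [1], [0, 3]), (0, [2], [2, 4]), (4, [], [5])]),
  (5760, 0, 1, [(0, [0], [1, 5]), (0, [1], [0, 4]), (0, [2], [2, 3]), (4, [], [5])]),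
  (5760, 0, 1, [(0, [0], [1, 5]), (0, [1], [2, 3]), (0, [2], [0, 4]), (4, [], [5])]),
  (5760, 0, 1, [(0, [0], [1, 5]), (0, [1], [2, 4]), (0, [2], [0, 3]), (4, [], [5])]),
  (5760, 0, 1, [(0, [0], [1, 5]), (0, [1], [3, 4]), (0, [2], [0, 2]), (4, [], [5])]),
  (5760, 0, 1, [(0, [0], [2, 5]), (0, [1], [0, 1]), (0, [2], [3, 4]), (4, [], [5])]),
  (5760, 0, 1, [(0, [0], [2, 5]), (0, [1], [0, 3]), (0, [2], [1, 4]), (4, [], [5])]),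
  (5760, 0, 1, [(0, [0], [2, 5]), (0, [1], [0, 4]), (0, [2], [1, 3]), (4, [], [5])]),
  (5760, 0, 1, [(0, [0], [2, 5]), (0, [1], [1, 3]), (0, [2], [0, 4]), (4, [], [5])]),
  (5760, 0, 1, [(0, [0], [2, 5]), (0, [1], [1, 4]), (0, [2], [0, 3]), (4, [], [5])]),
  (5760, 0, 1, [(0, [0], [2, 5]), (0, [1], [3, 4]), (0, [2], [0, 1]), (4, [], [5])]),
  (5760, 0, 1, [(0, [0], [3, 5]), (0, [1], [0, 1]), (0, [2], [2, 4]), (4, [], [5])]),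
  (5760, 0, 1, [(0, [0], [3, 5]), (0, [1], [0, 2]), (0, [2], [1, 4]), (4, [], [5])]),
  (5760, 0, 1, [(0, [0], [3, 5]), (0, [1], [0, 4]), (0, [2], [1, 2]), (4, [], [5])]),
  (5760, 0, 1, [(0, [0], [3, 5]), (0, [1], [1, 2]), (0, [2], [0, 4]), (4, [], [5])]),
  (5760, 0, 1, [(0, [0], [3, 5]), (0, [1], [1, 4]), (0, [2], [0, 2]), (4, [], [5])]),
  (5760, 0, 1, [(0, [0], [3, 5]), (0, [1], [2, 4]), (0, [2], [0, 1]), (4, [], [5])]),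
  (5760, 0, 1, [(0, [0], [4, 5]), (0, [1], [0, 1]), (0, [2], [2, 3]), (4, [], [5])]),
  (5760, 0, 1, [(0, [0], [4, 5]), (0, [1], [0, 2]), (0, [2], [1, 3]), (4, [], [5])]),
  (5760, 0, 1, [(0, [0], [4, 5]), (0, [1], [0, 3]), (0, [2], [1, 2]), (4, [], [5])]),
  (5760, 0, 1, [(0, [0], [4, 5]), (0, [1], [1, 2]), (0, [2], [0, 3]), (4, [], [5])]),
  (5760, 0, 1, [(0, [0], [4, 5]), (0, [1], [1, 3]), (0, [2], [0, 2]), (4, [], [5])]),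
  (5760, 0, 1, [(0, [0], [4, 5]), (0, [1], [2, 3]), (0, [2], [0, 1]), (4, [], [5])]),
  (5760, 0, 1, [(0, [1], [0, 5]), (0, [0], [1, 2]), (0, [2], [3, 4]), (4, [], [5])]),
  (5760, 0, 1, [(0, [1], [0, 5]), (0, [0], [1, 3]), (0, [2], [2, 4]), (4, [], [5])]),
  (5760, 0, 1, [(0, [1], [0, 5]), (0, [0], [1, 4]), (0, [2], [2, 3]), (4, [], [5])]),
  (5760, 0, 1, [(0, [1], [0, 5]), (0, [0], [2, 3]), (0, [2], [1, 4]), (4, [], [5])]),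
  (5760, 0, 1, [(0, [1], [0, 5]), (0, [0], [2, 4]), (0, [2], [1, 3]), (4, [], [5])]),
  (5760, 0, 1, [(0, [1], [0, 5]), (0, [0], [3, 4]), (0, [2], [1, 2]), (4, [], [5])]),
  (5760, 0, 1, [(0, [1], [1, 5]), (0, [0], [0, 2]), (0, [2], [3, 4]), (4, [], [5])]),
  (5760, 0, 1, [(0, [1], [1, 5]), (0, [0], [0, 3]), (0, [2], [2, 4]), (4, [], [5])]),
  (5760, 0, 1, [(0, [1], [1, 5]), (0, [0], [0, 4]), (0, [2], [2, 3]), (4, [], [5])]),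
  (5760, 0, 1, [(0, [1], [1, 5]), (0, [0], [2, 3]), (0, [2], [0, 4]), (4, [], [5])]),
  (5760, 0, 1, [(0, [1], [1, 5]), (0, [0], [2, 4]), (0, [2], [0, 3]), (4, [], [5])]),
  (5760, 0, 1, [(0, [1], [1, 5]), (0, [0], [3, 4]), (0, [2], [0, 2]), (4, [], [5])]),
  (5760, 0, 1, [(0, [1], [2, 5]), (0, [0], [0, 1]), (0, [2], [3, 4]), (4, [], [5])]),
  (5760, 0, 1, [(0, [1], [2, 5]), (0, [0], [0, 3]), (0, [2], [1, 4]), (4, [], [5])]),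
  (5760, 0, 1, [(0, [1], [2, 5]), (0, [0], [0, 4]), (0, [2], [1, 3]), (4, [], [5])]),
  (5760, 0, 1, [(0, [1], [2, 5]), (0, [0], [1, 3]), (0, [2], [0, 4]), (4, [], [5])]),
  (5760, 0, 1, [(0, [1], [2, 5]), (0, [0], [1, 4]), (0, [2], [0, 3]), (4, [], [5])]),
  (5760, 0, 1, [(0, [1], [2, 5]), (0, [0], [3, 4]), (0, [2], [0, 1]), (4, [], [5])]),
  (5760, 0, 1, [(0, [1], [3, 5]), (0, [0], [0, 1]), (0, [2], [2, 4]), (4, [], [5])]),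
  (5760, 0, 1, [(0, [1], [3, 5]), (0, [0], [0, 2]), (0, [2], [1, 4]), (4, [], [5])]),
  (5760, 0, 1, [(0, [1], [3, 5]), (0, [0], [0, 4]), (0, [2], [1, 2]), (4, [], [5])]),
  (5760, 0, 1, [(0, [1], [3, 5]), (0, [0], [1, 2]), (0, [2], [0, 4]), (4, [], [5])]),
  (5760, 0, 1, [(0, [1], [3, 5]), (0, [0], [1, 4]), (0, [2], [0, 2]), (4, [], [5])]),
  (5760, 0, 1, [(0, [1], [3, 5]), (0, [0], [2, 4]), (0, [2], [0, 1]), (4, [], [5])]),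
  (5760, 0, 1, [(0, [1], [4, 5]), (0, [0], [0, 1]), (0, [2], [2, 3]), (4, [], [5])]),
  (5760, 0, 1, [(0, [1], [4, 5]), (0, [0], [0, 2]), (0, [2], [1, 3]), (4, [], [5])]),
  (5760, 0, 1, [(0, [1], [4, 5]), (0, [0], [0, 3]), (0, [2], [1, 2]), (4, [], [5])]),
  (5760, 0, 1, [(0, [1], [4, 5]), (0, [0], [1, 2]), (0, [2], [0, 3]), (4, [], [5])]),
  (5760, 0, 1, [(0, [1], [4, 5]), (0, [0], [1, 3]), (0, [2], [0, 2]), (4, [], [5])]),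
  (5760, 0, 1, [(0, [1], [4, 5]), (0, [0], [2, 3]), (0, [2], [0, 1]), (4, [], [5])]),
  (5760, 0, 1, [(0, [2], [0, 5]), (0, [0], [1, 2]), (0, [1], [3, 4]), (4, [], [5])]),
  (5760, 0, 1, [(0, [2], [0, 5]), (0, [0], [1, 3]), (0, [1], [2, 4]), (4, [], [5])]),
  (5760, 0, 1, [(0, [2], [0, 5]), (0, [0], [1, 4]), (0, [1], [2, 3]), (4, [], [5])]),
  (5760, 0, 1, [(0, [2], [0, 5]), (0, [0], [2, 3]), (0, [1], [1, 4]), (4, [], [5])]),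
  (5760, 0, 1, [(0, [2], [0, 5]), (0, [0], [2, 4]), (0, [1], [1, 3]), (4, [], [5])]),
  (5760, 0, 1, [(0, [2], [0, 5]), (0, [0], [3, 4]), (0, [1], [1, 2]), (4, [], [5])]),
  (5760, 0, 1, [(0, [2], [1, 5]), (0, [0], [0, 2]), (0, [1], [3, 4]), (4, [], [5])]),
  (5760, 0, 1, [(0, [2], [1, 5]), (0, [0], [0, 3]), (0, [1], [2, 4]), (4, [], [5])]),
  (5760, 0, 1, [(0, [2], [1, 5]), (0, [0], [0, 4]), (0, [1], [2, 3]), (4, [], [5])]),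
  (5760, 0, 1, [(0, [2], [1, 5]), (0, [0], [2, 3]), (0, [1], [0, 4]), (4, [], [5])]),
  (5760, 0, 1, [(0, [2], [1, 5]), (0, [0], [2, 4]), (0, [1], [0, 3]), (4, [], [5])]),
  (5760, 0, 1, [(0, [2], [1, 5]), (0, [0], [3, 4]), (0, [1], [0, 2]), (4, [], [5])]),
  (5760, 0, 1, [(0, [2], [2, 5]), (0, [0], [0, 1]), (0, [1], [3, 4]), (4, [], [5])]),
  (5760, 0, 1, [(0, [2], [2, 5]), (0, [0], [0, 3]), (0, [1], [1, 4]), (4, [], [5])]),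
  (5760, 0, 1, [(0, [2], [2, 5]), (0, [0], [0, 4]), (0, [1], [1, 3]), (4, [], [5])]),
  (5760, 0, 1, [(0, [2], [2, 5]), (0, [0], [1, 3]), (0, [1], [0, 4]), (4, [], [5])]),
  (5760, 0, 1, [(0, [2], [2, 5]), (0, [0], [1, 4]), (0, [1], [0, 3]), (4, [], [5])]),
  (5760, 0, 1, [(0, [2], [2, 5]), (0, [0], [3, 4]), (0, [1], [0, 1]), (4, [], [5])]),
  (5760, 0, 1, [(0, [2], [3, 5]), (0, [0], [0, 1]), (0, [1], [2, 4]), (4, [], [5])]),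
  (5760, 0, 1, [(0, [2], [3, 5]), (0, [0], [0, 2]), (0, [1], [1, 4]), (4, [], [5])]),
  (5760, 0, 1, [(0, [2], [3, 5]), (0, [0], [0, 4]), (0, [1], [1, 2]), (4, [], [5])]),
  (5760, 0, 1, [(0, [2], [3, 5]), (0, [0], [1, 2]), (0, [1], [0, 4]), (4, [], [5])]),
  (5760, 0, 1, [(0, [2], [3, 5]), (0, [0], [1, 4]), (0, [1], [0, 2]), (4, [], [5])]),
  (5760, 0, 1, [(0, [2], [3, 5]), (0, [0], [2, 4]), (0, [1], [0, 1]), (4, [], [5])]),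
  (5760, 0, 1, [(0, [2], [4, 5]), (0, [0], [0, 1]), (0, [1], [2, 3]), (4, [], [5])]),
  (5760, 0, 1, [(0, [2], [4, 5]), (0, [0], [0, 2]), (0, [1], [1, 3]), (4, [], [5])]),
  (5760, 0, 1, [(0, [2], [4, 5]), (0, [0], [0, 3]), (0, [1], [1, 2]), (4, [], [5])]),
  (5760, 0, 1, [(0, [2], [4, 5]), (0, [0], [1, 2]), (0, [1], [0, 3]), (4, [], [5])]),
  (5760, 0, 1, [(0, [2], [4, 5]), (0, [0], [1, 3]), (0, [1], [0, 2]), (4, [], [5])]),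
  (5760, 0, 1, [(0, [2], [4, 5]), (0, [0], [2, 3]), (0, [1], [0, 1]), (4, [], [5])])]

def z21_1 : Cov := []

def w21_1 : List (List Wit) := [[(0, 0, 0, 0, 0), (0, 0, 0, 0, 0), (1, 0, 0, 0, 0), (1, 0, 0, 0, 0), (2, 0, 0, 0, 0), (2, 0, 0, 0, 0), (0, 0, 0, 0, 0), (0, 0, 0, 0, 0), (3, 0, 0, 0, 0), (3, 0, 0, 0, 0), (4, 0, 0, 0, 0), (4, 0, 0, 0, 0), (1, 0, 0, 0, 0), (1, 0, 0, 0, 0), (3, 0, 0, 0, 0), (3, 0, 0, 0, 0), (5, 0, 0, 0, 0), (5, 0, 0, 0, 0), (2, 0, 0, 0, 0), (2, 0, 0, 0, 0), (4, 0, 0, 0, 0), (4, 0, 0, 0, 0), (5, 0, 0, 0, 0), (5, 0, 0, 0, 0), (6, 0, 0, 0, 0), (6, 0, 0, 0, 0), (7, 0, 0, 0, 0), (7, 0, 0, 0, 0), (8, 0, 0, 0, 0), (8, 0, 0, 0, 0), (6, 0, 0, 0, 0), (6, 0, 0, 0, 0), (9, 0, 0, 0, 0), (9, 0, 0, 0, 0), (10, 0, 0, 0, 0), (10, 0, 0, 0, 0), (7, 0, 0, 0, 0), (7, 0, 0, 0, 0), (9, 0, 0, 0, 0), (9, 0, 0, 0, 0), (11, 0, 0, 0,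 0), (11, 0, 0, 0, 0), (8, 0, 0, 0, 0), (8, 0, 0, 0, 0), (10, 0, 0, 0, 0), (10, 0, 0, 0, 0), (11, 0, 0, 0, 0), (11, 0, 0, 0, 0), (12, 0, 0, 0, 0), (12, 0, 0, 0, 0), (13, 0, 0, 0, 0), (13, 0, 0, 0, 0), (14, 0, 0, 0, 0), (14, 0, 0, 0, 0), (12, 0, 0, 0, 0), (12, 0, 0, 0, 0), (15, 0, 0, 0, 0), (15, 0, 0, 0, 0), (16, 0, 0, 0, 0), (16, 0, 0, 0, 0), (13, 0, 0, 0, 0), (13, 0, 0, 0, 0), (15, 0, 0, 0, 0), (15, 0, 0, 0, 0), (17, 0, 0, 0, 0), (17, 0, 0, 0, 0), (14, 0, 0, 0, 0), (14, 0, 0, 0, 0), (16, 0, 0, 0, 0), (16, 0, 0, 0, 0), (17, 0, 0, 0, 0), (17, 0, 0, 0, 0), (18, 0, 0, 0, 0), (18, 0, 0, 0, 0), (19, 0, 0, 0, 0), (19, 0, 0, 0, 0), (20, 0, 0, 0, 0), (20, 0, 0, 0, 0), (18, 0, 0, 0, 0), (18, 0, 0, 0, 0), (21, 0, 0, 0, 0), (21, 0, 0, 0, 0), (22, 0, 0, 0, 0), (22, 0, 0, 0, 0), (19, 0, 0, 0, 0), (19, 0, 0, 0, 0), (21, 0, 0, 0, 0), (21, 0,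 0, 0, 0), (23, 0, 0, 0, 0), (23, 0, 0, 0, 0), (20, 0, 0, 0, 0), (20, 0, 0, 0, 0), (22, 0, 0, 0, 0), (22, 0, 0, 0, 0), (23, 0, 0, 0, 0), (23, 0, 0, 0, 0), (24, 0, 0, 0, 0), (24, 0, 0, 0, 0), (25, 0, 0, 0, 0), (25, 0, 0, 0, 0), (26, 0, 0, 0, 0), (26, 0, 0, 0, 0), (24, 0, 0, 0, 0), (24, 0, 0, 0, 0), (27, 0, 0, 0, 0), (27, 0, 0, 0, 0), (28, 0, 0, 0, 0), (28, 0, 0, 0, 0), (25, 0, 0, 0, 0), (25, 0, 0, 0, 0), (27, 0, 0, 0, 0), (27, 0, 0, 0, 0), (29, 0, 0, 0, 0), (29, 0, 0, 0, 0), (26, 0, 0, 0, 0), (26, 0, 0, 0, 0), (28, 0, 0, 0, 0), (28, 0, 0, 0, 0), (29, 0, 0, 0, 0), (29, 0, 0, 0, 0)],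
  [(5, 0, 0, 0, 0), (5, 0, 0, 0, 0), (4, 0, 0, 0, 0), (4, 0, 0, 0, 0), (3, 0, 0, 0, 0), (3, 0, 0, 0, 0), (5, 0, 0, 0, 0), (5, 0, 0, 0, 0), (2, 0, 0, 0, 0), (2, 0, 0, 0, 0), (1, 0, 0, 0, 0), (1, 0, 0, 0, 0), (4, 0, 0, 0, 0), (4, 0, 0, 0, 0), (2, 0, 0, 0, 0), (2, 0, 0, 0, 0), (0, 0, 0, 0, 0), (0, 0, 0, 0, 0), (3, 0, 0, 0, 0), (3, 0, 0, 0, 0), (1, 0, 0, 0, 0), (1, 0, 0, 0, 0), (0, 0, 0, 0, 0), (0, 0, 0, 0, 0), (11, 0, 0, 0, 0), (11, 0, 0, 0, 0), (10, 0, 0, 0, 0), (10, 0, 0, 0, 0), (9, 0, 0, 0, 0), (9, 0, 0, 0, 0), (11, 0, 0, 0, 0), (11, 0, 0, 0, 0), (8, 0, 0, 0, 0), (8, 0, 0, 0, 0), (7, 0, 0, 0, 0), (7, 0, 0, 0, 0), (10, 0, 0, 0, 0), (10, 0, 0, 0, 0), (8, 0, 0, 0, 0), (8, 0, 0, 0, 0), (6, 0, 0, 0, 0), (6, 0, 0, 0, 0), (9, 0, 0, 0, 0), (9, 0, 0, 0, 0), (7, 0, 0, 0, 0), (7, 0, 0, 0, 0), (6, 0, 0, 0, 0), (6, 0, 0, 0, 0), (17, 0, 0,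 0, 0), (17, 0, 0, 0, 0), (16, 0, 0, 0, 0), (16, 0, 0, 0, 0), (15, 0, 0, 0, 0), (15, 0, 0, 0, 0), (17, 0, 0, 0, 0), (17, 0, 0, 0, 0), (14, 0, 0, 0, 0), (14, 0, 0, 0, 0), (13, 0, 0, 0, 0), (13, 0, 0, 0, 0), (16, 0, 0, 0, 0), (16, 0, 0, 0, 0), (14, 0, 0, 0, 0), (14, 0, 0, 0, 0), (12, 0, 0, 0, 0), (12, 0, 0, 0, 0), (15, 0, 0, 0, 0), (15, 0, 0, 0, 0), (13, 0, 0, 0, 0), (13, 0, 0, 0, 0), (12, 0, 0, 0, 0), (12, 0, 0, 0, 0), (23, 0, 0, 0, 0), (23, 0, 0, 0, 0), (22, 0, 0, 0, 0), (22, 0, 0, 0, 0), (21, 0, 0, 0, 0), (21, 0, 0, 0, 0), (23, 0, 0, 0, 0), (23, 0, 0, 0, 0), (20, 0, 0, 0, 0), (20, 0, 0, 0, 0), (19, 0, 0, 0, 0), (19, 0, 0, 0, 0), (22, 0, 0, 0, 0), (22, 0, 0, 0, 0), (20, 0, 0, 0, 0), (20, 0, 0, 0, 0), (18, 0, 0, 0, 0), (18, 0, 0, 0, 0), (21, 0, 0, 0, 0), (21, 0, 0, 0, 0), (19, 0, 0, 0, 0), (19, 0, 0, 0, 0), (18, 0, 0, 0, 0), (18,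 0, 0, 0, 0), (29, 0, 0, 0, 0), (29, 0, 0, 0, 0), (28, 0, 0, 0, 0), (28, 0, 0, 0, 0), (27, 0, 0, 0, 0), (27, 0, 0, 0, 0), (29, 0, 0, 0, 0), (29, 0, 0, 0, 0), (26, 0, 0, 0, 0), (26, 0, 0, 0, 0), (25, 0, 0, 0, 0), (25, 0, 0, 0, 0), (28, 0, 0, 0, 0), (28, 0, 0, 0, 0), (26, 0, 0, 0, 0), (26, 0, 0, 0, 0), (24, 0, 0, 0, 0), (24, 0, 0, 0, 0), (27, 0, 0, 0, 0), (27, 0, 0, 0, 0), (25, 0, 0, 0, 0), (25, 0, 0, 0, 0), (24, 0, 0, 0, 0), (24, 0, 0, 0, 0)],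
  [(30, 0, 0, 0, 0), (30, 0, 0, 0, 0), (31, 0, 0, 0, 0), (31, 0, 0, 0, 0), (32, 0, 0, 0, 0), (32, 0, 0, 0, 0), (30, 0, 0, 0, 0), (30, 0, 0, 0, 0), (33, 0, 0, 0, 0), (33, 0, 0, 0, 0), (34, 0, 0, 0, 0), (34, 0, 0, 0, 0), (31, 0, 0, 0, 0), (31, 0, 0, 0, 0), (33, 0, 0, 0, 0), (33, 0, 0, 0, 0), (35, 0, 0, 0, 0), (35, 0, 0, 0, 0), (32, 0, 0, 0, 0), (32, 0, 0, 0, 0), (34, 0, 0, 0, 0), (34, 0, 0, 0, 0), (35, 0, 0, 0, 0), (35, 0, 0, 0, 0), (36, 0, 0, 0, 0), (36, 0, 0, 0, 0), (37, 0, 0, 0, 0), (37, 0, 0, 0, 0), (38, 0, 0, 0, 0), (38, 0, 0, 0, 0), (36, 0, 0, 0, 0), (36, 0, 0, 0, 0), (39, 0, 0, 0, 0), (39, 0, 0, 0, 0), (40, 0, 0, 0, 0), (40, 0, 0, 0, 0), (37, 0, 0, 0, 0), (37, 0, 0, 0, 0), (39, 0, 0, 0, 0), (39, 0, 0, 0, 0), (41, 0, 0, 0, 0), (41, 0, 0, 0, 0), (38, 0, 0, 0, 0), (38, 0, 0, 0, 0), (40, 0, 0, 0, 0), (40, 0, 0, 0, 0), (41, 0,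 0, 0, 0), (41, 0, 0, 0, 0), (42, 0, 0, 0, 0), (42, 0, 0, 0, 0), (43, 0, 0, 0, 0), (43, 0, 0, 0, 0), (44, 0, 0, 0, 0), (44, 0, 0, 0, 0), (42, 0, 0, 0, 0), (42, 0, 0, 0, 0), (45, 0, 0, 0, 0), (45, 0, 0, 0, 0), (46, 0, 0, 0, 0), (46, 0, 0, 0, 0), (43, 0, 0, 0, 0), (43, 0, 0, 0, 0), (45, 0, 0, 0, 0), (45, 0, 0, 0, 0), (47, 0, 0, 0, 0), (47, 0, 0, 0, 0), (44, 0, 0, 0, 0), (44, 0, 0, 0, 0), (46, 0, 0, 0, 0), (46, 0, 0, 0, 0), (47, 0, 0, 0, 0), (47, 0, 0, 0, 0), (48, 0, 0, 0, 0), (48, 0, 0, 0, 0), (49, 0, 0, 0, 0), (49, 0, 0, 0, 0), (50, 0, 0, 0, 0), (50, 0, 0, 0, 0), (48, 0, 0, 0, 0), (48, 0, 0, 0, 0), (51, 0, 0, 0, 0), (51, 0, 0, 0, 0), (52, 0, 0, 0, 0), (52, 0, 0, 0, 0), (49, 0, 0, 0, 0), (49, 0, 0, 0, 0), (51, 0, 0, 0, 0), (51, 0, 0, 0, 0), (53, 0, 0, 0, 0), (53, 0, 0, 0, 0), (50, 0, 0, 0, 0), (50, 0, 0, 0, 0), (52, 0, 0, 0, 0),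 (52, 0, 0, 0, 0), (53, 0, 0, 0, 0), (53, 0, 0, 0, 0), (54, 0, 0, 0, 0), (54, 0, 0, 0, 0), (55, 0, 0, 0, 0), (55, 0, 0, 0, 0), (56, 0, 0, 0, 0), (56, 0, 0, 0, 0), (54, 0, 0, 0, 0), (54, 0, 0, 0, 0), (57, 0, 0, 0, 0), (57, 0, 0, 0, 0), (58, 0, 0, 0, 0), (58, 0, 0, 0, 0), (55, 0, 0, 0, 0), (55, 0, 0, 0, 0), (57, 0, 0, 0, 0), (57, 0, 0, 0, 0), (59, 0, 0, 0, 0), (59, 0, 0, 0, 0), (56, 0, 0, 0, 0), (56, 0, 0, 0, 0), (58, 0, 0, 0, 0), (58, 0, 0, 0, 0), (59, 0, 0, 0, 0), (59, 0, 0, 0, 0)],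
  [(35, 0, 0, 0, 0), (35, 0, 0, 0, 0), (34, 0, 0, 0, 0), (34, 0, 0, 0, 0), (33, 0, 0, 0, 0), (33, 0, 0, 0, 0), (35, 0, 0, 0, 0), (35, 0, 0, 0, 0), (32, 0, 0, 0, 0), (32, 0, 0, 0, 0), (31, 0, 0, 0, 0), (31, 0, 0, 0, 0), (34, 0, 0, 0, 0), (34, 0, 0, 0, 0), (32, 0, 0, 0, 0), (32, 0, 0, 0, 0), (30, 0, 0, 0, 0), (30, 0, 0, 0, 0), (33, 0, 0, 0, 0), (33, 0, 0, 0, 0), (31, 0, 0, 0, 0), (31, 0, 0, 0, 0), (30, 0, 0, 0, 0), (30, 0, 0, 0, 0), (41, 0, 0, 0, 0), (41, 0, 0, 0, 0), (40, 0, 0, 0, 0), (40, 0, 0, 0, 0), (39, 0, 0, 0, 0), (39, 0, 0, 0, 0), (41, 0, 0, 0, 0), (41, 0, 0, 0, 0), (38, 0, 0, 0, 0), (38, 0, 0, 0, 0), (37, 0, 0, 0, 0), (37, 0, 0, 0, 0), (40, 0, 0, 0, 0), (40, 0, 0, 0, 0), (38, 0, 0, 0, 0), (38, 0, 0, 0, 0), (36, 0, 0, 0, 0), (36, 0, 0, 0, 0), (39, 0, 0, 0, 0), (39, 0, 0, 0, 0), (37, 0, 0, 0, 0), (37, 0, 0, 0, 0), (36, 0,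 0, 0, 0), (36, 0, 0, 0, 0), (47, 0, 0, 0, 0), (47, 0, 0, 0, 0), (46, 0, 0, 0, 0), (46, 0, 0, 0, 0), (45, 0, 0, 0, 0), (45, 0, 0, 0, 0), (47, 0, 0, 0, 0), (47, 0, 0, 0, 0), (44, 0, 0, 0, 0), (44, 0, 0, 0, 0), (43, 0, 0, 0, 0), (43, 0, 0, 0, 0), (46, 0, 0, 0, 0), (46, 0, 0, 0, 0), (44, 0, 0, 0, 0), (44, 0, 0, 0, 0), (42, 0, 0, 0, 0), (42, 0, 0, 0, 0), (45, 0, 0, 0, 0), (45, 0, 0, 0, 0), (43, 0, 0, 0, 0), (43, 0, 0, 0, 0), (42, 0, 0, 0, 0), (42, 0, 0, 0, 0), (53, 0, 0, 0, 0), (53, 0, 0, 0, 0), (52, 0, 0, 0, 0), (52, 0, 0, 0, 0), (51, 0, 0, 0, 0), (51, 0, 0, 0, 0), (53, 0, 0, 0, 0), (53, 0, 0, 0, 0), (50, 0, 0, 0, 0), (50, 0, 0, 0, 0), (49, 0, 0, 0, 0), (49, 0, 0, 0, 0), (52, 0, 0, 0, 0), (52, 0, 0, 0, 0), (50, 0, 0, 0, 0), (50, 0, 0, 0, 0), (48, 0, 0, 0, 0), (48, 0, 0, 0, 0), (51, 0, 0, 0, 0), (51, 0, 0, 0, 0), (49, 0, 0, 0, 0),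 (49, 0, 0, 0, 0), (48, 0, 0, 0, 0), (48, 0, 0, 0, 0), (59, 0, 0, 0, 0), (59, 0, 0, 0, 0), (58, 0, 0, 0, 0), (58, 0, 0, 0, 0), (57, 0, 0, 0, 0), (57, 0, 0, 0, 0), (59, 0, 0, 0, 0), (59, 0, 0, 0, 0), (56, 0, 0, 0, 0), (56, 0, 0, 0, 0), (55, 0, 0, 0, 0), (55, 0, 0, 0, 0), (58, 0, 0, 0, 0), (58, 0, 0, 0, 0), (56, 0, 0, 0, 0), (56, 0, 0, 0, 0), (54, 0, 0, 0, 0), (54, 0, 0, 0, 0), (57, 0, 0, 0, 0), (57, 0, 0, 0, 0), (55, 0, 0, 0, 0), (55, 0, 0, 0, 0), (54, 0, 0, 0, 0), (54, 0, 0, 0, 0)],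
  [(60, 0, 0, 0, 0), (60, 0, 0, 0, 0), (61, 0, 0, 0, 0), (61, 0, 0, 0, 0), (62, 0, 0, 0, 0), (62, 0, 0, 0, 0), (60, 0, 0, 0, 0), (60, 0, 0, 0, 0), (63, 0, 0, 0, 0), (63, 0, 0, 0, 0), (64, 0, 0, 0, 0), (64, 0, 0, 0, 0), (61, 0, 0, 0, 0), (61, 0, 0, 0, 0), (63, 0, 0, 0, 0), (63, 0, 0, 0, 0), (65, 0, 0, 0, 0), (65, 0, 0, 0, 0), (62, 0, 0, 0, 0), (62, 0, 0, 0, 0), (64, 0, 0, 0, 0), (64, 0, 0, 0, 0), (65, 0, 0, 0, 0), (65, 0, 0, 0, 0), (66, 0, 0, 0, 0), (66, 0, 0, 0, 0), (67, 0, 0, 0, 0), (67, 0, 0, 0, 0), (68, 0, 0, 0, 0), (68, 0, 0, 0, 0), (66, 0, 0, 0, 0), (66, 0, 0, 0, 0), (69, 0, 0, 0, 0), (69, 0, 0, 0, 0), (70, 0, 0, 0, 0), (70, 0, 0, 0, 0), (67, 0, 0, 0, 0), (67, 0, 0, 0, 0), (69, 0, 0, 0, 0), (69, 0, 0, 0, 0), (71, 0, 0, 0, 0), (71, 0, 0, 0, 0), (68, 0, 0, 0, 0), (68, 0, 0, 0, 0), (70, 0, 0, 0, 0), (70, 0, 0, 0, 0), (71, 0,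 0, 0, 0), (71, 0, 0, 0, 0), (72, 0, 0, 0, 0), (72, 0, 0, 0, 0), (73, 0, 0, 0, 0), (73, 0, 0, 0, 0), (74, 0, 0, 0, 0), (74, 0, 0, 0, 0), (72, 0, 0, 0, 0), (72, 0, 0, 0, 0), (75, 0, 0, 0, 0), (75, 0, 0, 0, 0), (76, 0, 0, 0, 0), (76, 0, 0, 0, 0), (73, 0, 0, 0, 0), (73, 0, 0, 0, 0), (75, 0, 0, 0, 0), (75, 0, 0, 0, 0), (77, 0, 0, 0, 0), (77, 0, 0, 0, 0), (74, 0, 0, 0, 0), (74, 0, 0, 0, 0), (76, 0, 0, 0, 0), (76, 0, 0, 0, 0), (77, 0, 0, 0, 0), (77, 0, 0, 0, 0), (78, 0, 0, 0, 0), (78, 0, 0, 0, 0), (79, 0, 0, 0, 0), (79, 0, 0, 0, 0), (80, 0, 0, 0, 0), (80, 0, 0, 0, 0), (78, 0, 0, 0, 0), (78, 0, 0, 0, 0), (81, 0, 0, 0, 0), (81, 0, 0, 0, 0), (82, 0, 0, 0, 0), (82, 0, 0, 0, 0), (79, 0, 0, 0, 0), (79, 0, 0, 0, 0), (81, 0, 0, 0, 0), (81, 0, 0, 0, 0), (83, 0, 0, 0, 0), (83, 0, 0, 0, 0), (80, 0, 0, 0, 0), (80, 0, 0, 0, 0), (82, 0, 0, 0, 0),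 (82, 0, 0, 0, 0), (83, 0, 0, 0, 0), (83, 0, 0, 0, 0), (84, 0, 0, 0, 0), (84, 0, 0, 0, 0), (85, 0, 0, 0, 0), (85, 0, 0, 0, 0), (86, 0, 0, 0, 0), (86, 0, 0, 0, 0), (84, 0, 0, 0, 0), (84, 0, 0, 0, 0), (87, 0, 0, 0, 0), (87, 0, 0, 0, 0), (88, 0, 0, 0, 0), (88, 0, 0, 0, 0), (85, 0, 0, 0, 0), (85, 0, 0, 0, 0), (87, 0, 0, 0, 0), (87, 0, 0, 0, 0), (89, 0, 0, 0, 0), (89, 0, 0, 0, 0), (86, 0, 0, 0, 0), (86, 0, 0, 0, 0), (88, 0, 0, 0, 0), (88, 0, 0, 0, 0), (89, 0, 0, 0, 0), (89, 0, 0, 0, 0)],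
  [(65, 0, 0, 0, 0), (65, 0, 0, 0, 0), (64, 0, 0, 0, 0), (64, 0, 0, 0, 0), (63, 0, 0, 0, 0), (63, 0, 0, 0, 0), (65, 0, 0, 0, 0), (65, 0, 0, 0, 0), (62, 0, 0, 0, 0), (62, 0, 0, 0, 0), (61, 0, 0, 0, 0), (61, 0, 0, 0, 0), (64, 0, 0, 0, 0), (64, 0, 0, 0, 0), (62, 0, 0, 0, 0), (62, 0, 0, 0, 0), (60, 0, 0, 0, 0), (60, 0, 0, 0, 0), (63, 0, 0, 0, 0), (63, 0, 0, 0, 0), (61, 0, 0, 0, 0), (61, 0, 0, 0, 0), (60, 0, 0, 0, 0), (60, 0, 0, 0, 0), (71, 0, 0, 0, 0), (71, 0, 0, 0, 0), (70, 0, 0, 0, 0), (70, 0, 0, 0, 0), (69, 0, 0, 0, 0), (69, 0, 0, 0, 0), (71, 0, 0, 0, 0), (71, 0, 0, 0, 0), (68, 0, 0, 0, 0), (68, 0, 0, 0, 0), (67, 0, 0, 0, 0), (67, 0, 0, 0, 0), (70, 0, 0, 0, 0), (70, 0, 0, 0, 0), (68, 0, 0, 0, 0), (68, 0, 0, 0, 0), (66, 0, 0, 0, 0), (66, 0, 0, 0, 0), (69, 0, 0, 0, 0), (69, 0, 0, 0, 0), (67, 0, 0, 0, 0), (67, 0, 0, 0, 0), (66, 0,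 0, 0, 0), (66, 0, 0, 0, 0), (77, 0, 0, 0, 0), (77, 0, 0, 0, 0), (76, 0, 0, 0, 0), (76, 0, 0, 0, 0), (75, 0, 0, 0, 0), (75, 0, 0, 0, 0), (77, 0, 0, 0, 0), (77, 0, 0, 0, 0), (74, 0, 0, 0, 0), (74, 0, 0, 0, 0), (73, 0, 0, 0, 0), (73, 0, 0, 0, 0), (76, 0, 0, 0, 0), (76, 0, 0, 0, 0), (74, 0, 0, 0, 0), (74, 0, 0, 0, 0), (72, 0, 0, 0, 0), (72, 0, 0, 0, 0), (75, 0, 0, 0, 0), (75, 0, 0, 0, 0), (73, 0, 0, 0, 0), (73, 0, 0, 0, 0), (72, 0, 0, 0, 0), (72, 0, 0, 0, 0), (83, 0, 0, 0, 0), (83, 0, 0, 0, 0), (82, 0, 0, 0, 0), (82, 0, 0, 0, 0), (81, 0, 0, 0, 0), (81, 0, 0, 0, 0), (83, 0, 0, 0, 0), (83, 0, 0, 0, 0), (80, 0, 0, 0, 0), (80, 0, 0, 0, 0), (79, 0, 0, 0, 0), (79, 0, 0, 0, 0), (82, 0, 0, 0, 0), (82, 0, 0, 0, 0), (80, 0, 0, 0, 0), (80, 0, 0, 0, 0), (78, 0, 0, 0, 0), (78, 0, 0, 0, 0), (81, 0, 0, 0, 0), (81, 0, 0, 0, 0), (79, 0, 0, 0, 0),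 (79, 0, 0, 0, 0), (78, 0, 0, 0, 0), (78, 0, 0, 0, 0), (89, 0, 0, 0, 0), (89, 0, 0, 0, 0), (88, 0, 0, 0, 0), (88, 0, 0, 0, 0), (87, 0, 0, 0, 0), (87, 0, 0, 0, 0), (89, 0, 0, 0, 0), (89, 0, 0, 0, 0), (86, 0, 0, 0, 0), (86, 0, 0, 0, 0), (85, 0, 0, 0, 0), (85, 0, 0, 0, 0), (88, 0, 0, 0, 0), (88, 0, 0, 0, 0), (86, 0, 0, 0, 0), (86, 0, 0, 0, 0), (84, 0, 0, 0, 0), (84, 0, 0, 0, 0), (87, 0, 0, 0, 0), (87, 0, 0, 0, 0), (85, 0, 0, 0, 0), (85, 0, 0, 0, 0), (84, 0, 0, 0, 0), (84, 0, 0, 0, 0)]]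

theorem tr21 : trK keys lk21 kl21 = true := by
  decide +kernel

theorem x21_0 : expB 3 5 dg1 dg4 m21_0 (l21_0 ++ z21_0) w21_0 = true := by
  decide +kernel

theorem x21_1 : expB 3 5 dg1 dg4 m21_1 (l21_1 ++ z21_1) w21_1 = true := by
  decide +kernel

theorem t21_0_0 : chkS lk21 3 5 [(1, m21_0)] l21_0
  [(20, 33, 258, 103026771, 101975346), (24, 528, 528, 34891056, 52696656), (24, 528, 528, 34887216, 36968016), (23, 528, 528, 34887216, 36968016), (27, 528, 528, 34891056, 52696656), (12, 18, 18, 55640676, 22045251), (23, 528, 528, 34891056, 52696656), (27, 528, 528, 34887216, 36968016), (12, 18, 18, 55648356, 22045506), (12, 18, 18, 87429156, 73421106), (12, 18, 18, 87425316, 73421091), (14, 18, 18, 86380596, 73405746), (21, 33, 258, 87298146, 23351346), (33, 33, 258, 88215651, 23397426), (33, 33, 258, 88211811, 23397411), (28,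 18, 18, 55837026, 22306851), (39, 18, 18, 72552546, 22429746), (11, 18, 18, 54592101, 17130051), (28, 18, 18, 55840866, 22306866), (39, 18, 18, 72548706, 22429731), (11, 18, 18, 54599781, 17130306), (11, 33, 258, 70586466, 21385266), (11, 33, 258, 70582626, 21385251), (13, 33, 258, 69537891, 21366066), (28, 33, 258, 55836966, 5529891), (39, 33, 258, 72552486, 5652786), (11, 33, 258, 54592086, 1401411), (23, 513, 513, 34887171, 36963921), (27, 513, 513, 34891011, 52692561), (12, 33, 258, 55640646, 5333571), (44, 528, 528, 51733056, 54616656), (41, 513, 513, 50669076, 37774101), (41, 528, 528, 50684481, 54616581), (41, 33, 258, 73732131, 88473906), (27, 33, 258, 55837026, 22306851), (29, 33, 258, 56951076, 88105251), (28, 33, 258, 55840806, 5529906), (39, 33, 258, 72548646, 5652771), (11, 33, 258, 54599766, 1401666), (23, 513,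 513, 34891011, 52692561), (27, 513, 513, 34887171, 36963921), (12, 33, 258, 55648326, 5333826), (44, 528, 528, 51717696, 37839696), (41, 513, 513, 50684436, 54551061), (41, 528, 528, 50669121, 37839621), (41, 33, 258, 73728291, 88473891), (27, 33, 258, 55840866, 22306866), (29, 33, 258, 56954916, 88105266), (11, 18, 18, 70586406, 4608306), (11, 18, 18, 70582566, 4608291), (13, 18, 18, 69537846, 4592946), (12, 33, 258, 87429186, 73486386), (12, 33, 258, 87425346, 73486371), (14, 33, 258, 86380611, 73467186), (41, 18, 18, 73732146, 88477746), (29, 18, 18, 56951106, 88170531), (27, 18, 18, 55836966, 5529891), (41, 18, 18, 73728306, 88477731), (29, 18, 18, 56954946, 88170546), (27, 18, 18, 55840806, 5529906), (25, 528, 528, 34891056, 52696656), (26, 528, 528, 34891056, 52696656), (26, 528, 528, 34887216, 36968016), (22, 528, 528,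 34891056, 52696656), (9, 33, 258, 40177731, 88147506), (19, 528, 528, 35017776, 70391376), (22, 528, 528, 34887216, 36968016), (9, 33, 258, 40173891, 88147491), (19, 528, 528, 35013936, 69408336), (19, 288, 288, 19096896, 52512096), (19, 288, 288, 19093056, 36783456), (18, 18, 18, 38998116, 22038066), (35, 18, 18, 55840866, 22306866), (38, 18, 18, 55840866, 22306866), (38, 18, 18, 55837026, 22306851), (28, 18, 18, 40112211, 85198386), (11, 33, 258, 40177716, 88086066), (16, 528, 528, 33969201, 70391301), (28, 18, 18, 40108371, 85198371), (11, 33, 258, 40173876, 88086051), (16, 528, 528, 33965361, 69408261), (39, 18, 18, 40046676, 84952626), (39, 18, 18, 40042836, 84952611), (2, 528, 528, 19162371, 52692321), (28, 513, 513, 101983491, 103023441), (11, 513, 513, 102847491, 103941441), (39, 513, 513, 100869396, 102777621), (42,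 513, 513, 85206531, 40108881), (15, 33, 258, 56954916, 88105266), (40, 258, 33, 102827061, 100799811), (4, 513, 513, 101926146, 102973521), (7, 33, 258, 40173876, 88086051), (5, 33, 258, 40173891, 88147491), (7, 513, 513, 101929986, 103956561), (15, 513, 513, 67446291, 38142741), (16, 33, 258, 5317446, 5317446), (28, 513, 513, 101995011, 104071761), (11, 513, 513, 102843651, 102958401), (39, 513, 513, 100880916, 103825941), (42, 513, 513, 85221891, 56885841), (15, 33, 258, 56951076, 88105251), (40, 258, 33, 102842421, 100865346), (4, 513, 513, 101929986, 103956561), (7, 33, 258, 40177716, 88086066), (5, 33, 258, 40177731, 88147506), (7, 513, 513, 101926146, 102973521), (15, 513, 513, 67461651, 54919701), (16, 33, 258, 5321286, 5321286), (16, 288, 288, 2188611, 52495686), (16, 288, 288, 2184771, 36767046), (2, 288, 288, 34825536,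 52512336), (40, 18, 18, 40177716, 88086066), (40, 18, 18, 40173876, 88086051), (34, 18, 18, 39063606, 5510706), (5, 513, 513, 101929986, 103956561), (16, 513, 513, 84288531, 73532181), (19, 513, 513, 85337091, 73532241), (5, 513, 513, 101926146, 102973521), (16, 513, 513, 84296211, 73597461), (19, 513, 513, 85344771, 73597521), (35, 33, 258, 55840806, 5529906), (38, 33, 258, 55840806, 5529906), (38, 33, 258, 55836966, 5529891), (28, 33, 258, 40112181, 84153906), (11, 18, 18, 40177731, 88147506), (16, 513, 513, 33969171, 70387221), (28, 33, 258, 40108341, 84153891), (11, 18, 18, 40173891, 88147491), (16, 513, 513, 33965331, 69404181), (39, 33, 258, 40046661, 83969586), (39, 33, 258, 40042821, 83969571), (2, 513, 513, 19162416, 52696416), (25, 513, 513, 34891011, 52692561), (26, 513, 513, 34891011, 52692561), (26, 513, 513, 34887171,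 36963921), (22, 528, 528, 101983536, 103027536), (9, 18, 18, 40177716, 88086066), (19, 513, 513, 35017731, 70387281), (22, 528, 528, 101995056, 104075856), (9, 18, 18, 40173876, 88086051), (19, 513, 513, 35013891, 69404241), (19, 258, 33, 19096836, 52446561), (19, 258, 33, 19092996, 36717921), (18, 33, 258, 38998086, 5326386), (42, 528, 528, 85206576, 40112976), (15, 18, 18, 56954946, 88170546), (40, 288, 288, 102827091, 101844291), (28, 528, 528, 101983536, 103027536), (11, 528, 528, 102847536, 103945536), (39, 528, 528, 100869441, 102843141), (4, 528, 528, 101926176, 102973776), (5, 18, 18, 40173876, 88086051), (7, 18, 18, 40173891, 88147491), (7, 528, 528, 101930016, 103956816), (16, 18, 18, 5317476, 22029126), (15, 528, 528, 67446321, 38146821), (42, 528, 528, 85221936, 56889936), (15, 18, 18, 56951106, 88170531), (40, 288,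 288, 102842451, 101909826), (28, 528, 528, 101995056, 104075856), (11, 528, 528, 102843696, 102962496), (39, 528, 528, 100880961, 103891461), (4, 528, 528, 101930016, 103956816), (5, 18, 18, 40177716, 88086066), (7, 18, 18, 40177731, 88147506), (7, 528, 528, 101926176, 102973776), (16, 18, 18, 5321316, 22032966), (15, 528, 528, 67461681, 54923781), (40, 33, 258, 40177731, 88147506), (40, 33, 258, 40173891, 88147491), (34, 33, 258, 39063651, 22283826), (16, 258, 33, 2188596, 52434246), (16, 258, 33, 2184756, 36705606), (2, 258, 33, 34825476, 52446801), (5, 528, 528, 101930016, 103956816), (19, 528, 528, 85337136, 73536336), (16, 528, 528, 84288561, 73536261), (5, 528, 528, 101926176, 102973776), (19, 528, 528, 85344816, 73601616), (16, 528, 528, 84296241, 73601541)]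
  [(2, 11520), (4, 11520), (5, 23040), (7, 23040), (9, 11520), (11, 46080), (12, 23040), (13, 5760), (14, 5760), (15, 23040), (16, 46080), (18, 5760), (19, 34560), (20, 2880), (21, 2880), (22, 11520), (23, 11520), (24, 5760), (25, 5760), (26, 11520), (27, 23040), (28, 34560), (29, 11520), (33, 5760), (34, 5760), (35, 5760), (38, 11520), (39, 34560), (40, 23040), (41, 23040), (42, 11520), (44, 5760)] = true := by
  decide +kernel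

theorem t21_0_1 : chkS lk21 3 5 [(1, m21_0)] l21_1
  [(9, 528, 528, 19220016, 37950816), (9, 528, 528, 19227696, 54662496), (10, 528, 528, 19289136, 70391136), (3, 258, 33, 101860101, 100869201), (12, 528, 528, 19285296, 69408096), (12, 528, 528, 19289136, 70391136), (11, 18, 18, 90243651, 90243651), (11, 18, 18, 90251331, 90243906), (13, 33, 258, 56954916, 88105266), (2, 528, 528, 50619681, 52715781), (16, 528, 528, 20333826, 69423201), (16, 528, 528, 20337666, 70406241), (5, 513, 513, 51725826, 37970001), (40, 18, 18, 88158726, 6632001), (16, 513, 513, 103892256, 102977856), (29, 513, 513, 68494851, 38142801), (12, 513, 513, 102843651, 102958401), (41, 288, 288, 19218531, 21169506), (5, 513, 513, 51733506, 54681681), (40, 18, 18, 88154886, 6628161), (16, 513, 513, 103896096, 103960896), (29, 513, 513, 68510211, 54919761),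 (12, 513, 513, 102847491, 103941441), (41, 288, 288, 19203171, 21103971), (6, 513, 513, 51794946, 70410321), (31, 18, 18, 90439971, 90439971), (31, 18, 18, 90443811, 90439986), (30, 18, 18, 90439986, 90443811), (30, 18, 18, 90443826, 90443826), (36, 18, 18, 90443826, 90443826), (11, 33, 258, 90243636, 90182211), (11, 33, 258, 90251316, 90182466), (13, 18, 18, 56954946, 88170546), (2, 513, 513, 50619666, 52715541), (16, 513, 513, 20333856, 69423456), (16, 513, 513, 20337696, 70406496), (9, 513, 513, 19219971, 37946721), (9, 513, 513, 19227651, 54658401), (10, 513, 513, 19289091, 70387041), (3, 288, 288, 101860176, 101917776), (12, 513, 513, 19285251, 69404001), (12, 513, 513, 19289091, 70387041), (5, 528, 528, 51725856, 37970256), (29, 528, 528, 68494896, 38146896), (12, 528, 528, 102843696, 102962496), (40, 33, 258, 88158816,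 23409216), (16, 528, 528, 103892226, 102977601), (41, 258, 33, 19218486, 4396386), (5, 528, 528, 51733536, 54681936), (29, 528, 528, 68510256, 54923856), (12, 528, 528, 102847536, 103945536), (40, 33, 258, 88154976, 23405376), (16, 528, 528, 103896066, 103960641), (41, 258, 33, 19203126, 4330851), (6, 528, 528, 51794976, 70410576), (30, 33, 258, 90439971, 90439971), (30, 33, 258, 90443811, 90439986), (31, 33, 258, 90439986, 90443811), (31, 33, 258, 90443826, 90443826), (36, 33, 258, 90443811, 90439986), (40, 33, 258, 21308256, 21308256), (40, 33, 258, 21312096, 21312096), (2, 528, 528, 67331361, 52838661), (3, 288, 288, 35013456, 68363856), (29, 513, 513, 85206531, 40108881), (29, 513, 513, 85221891, 56885841), (29, 528, 528, 85221936, 56889936), (29, 528, 528, 85206576, 40112976), (3, 258, 33, 35013381, 67315281), (2, 513, 513,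 67331346, 52838421), (40, 18, 18, 21312006, 4534881), (40, 18, 18, 21308166, 4531041), (5, 528, 528, 85156896, 56770896), (9, 33, 258, 23404611, 88146786), (9, 18, 18, 23404596, 88085346), (11, 33, 258, 23404596, 88085346), (11, 18, 18, 23404611, 88146786), (5, 513, 513, 85156866, 56770641), (5, 528, 528, 85149216, 40059216), (9, 33, 258, 23396931, 88146531), (9, 18, 18, 23396916, 88085091), (11, 33, 258, 23396916, 88085091), (11, 18, 18, 23396931, 88146531), (5, 513, 513, 85149186, 40058961), (8, 528, 528, 51794976, 70410576), (30, 528, 528, 85221936, 56889936), (30, 528, 528, 85206576, 40112976), (43, 528, 528, 87318546, 56905746), (43, 528, 528, 87295506, 40128531), (8, 513, 513, 51794946, 70410321)]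
  [(2, 23040), (3, 23040), (5, 46080), (6, 11520), (8, 11520), (9, 46080), (10, 11520), (11, 46080), (12, 46080), (13, 11520), (16, 46080), (29, 46080), (30, 34560), (31, 23040), (36, 11520), (40, 46080), (41, 23040), (43, 11520)] = true := by
  decide +kernel

theorem t21_1_1 : chkS lk21 3 5 [(1, m21_1)] l21_1
  [(0, 258, 33, 106111236, 105923361), (24, 258, 33, 105062661, 101008161), (24, 258, 33, 105001221, 101004321), (24, 258, 33, 105062421, 101008146), (24, 258, 33, 105000981, 101004306), (32, 528, 528, 35017776, 70391376), (14, 33, 258, 103875666, 101863491), (27, 18, 18, 104862291, 102040116), (27, 18, 18, 104923731, 102040131), (19, 513, 513, 56893461, 84173586), (19, 513, 513, 56770581, 84108306), (34, 18, 18, 104923986, 102047811), (14, 33, 258, 103875906, 102846531), (27, 18, 18, 104863011, 103088436), (27, 18, 18,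 104924451, 103088451), (19, 513, 513, 56893701, 84173601), (19, 513, 513, 56770821, 84108321), (34, 18, 18, 104924466, 103092291), (19, 33, 258, 56627781, 83976756), (19, 33, 258, 56628261, 84042036), (34, 258, 33, 105074946, 104153121), (14, 513, 513, 104091906, 104091681), (27, 258, 33, 105009411, 104137761), (27, 258, 33, 105009171, 104137746), (19, 33, 258, 56689221, 83976771), (19, 33, 258, 56689701, 84042051), (34, 258, 33, 105197826, 105197601), (14, 513, 513, 104153346, 105074721), (27, 258, 33, 105193731, 105186081), (27, 258, 33, 105193491, 105186066), (1, 33, 258, 70321746, 35016771), (26, 33, 258, 104862261, 100995636), (26, 33, 258, 104923701, 100995651), (26, 33, 258, 104862501, 100999476), (26, 33, 258, 104923941, 100999491), (17, 258, 33, 56967426, 88301601), (10, 528, 528, 102056496, 105058896), (9, 288, 288,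 85141056, 39928656), (9, 288, 288, 85079616, 39924816), (12, 513, 513, 23343621, 84161121), (12, 513, 513, 23282181, 84099681), (3, 33, 258, 103035216, 101987616), (10, 528, 528, 102056736, 105062736), (9, 288, 288, 85140576, 23216976), (9, 288, 288, 85079136, 23213136), (12, 513, 513, 23343141, 84160866), (12, 513, 513, 23281701, 84099426), (3, 33, 258, 103036176, 103036176), (12, 528, 528, 101995296, 104079696), (12, 528, 528, 101995056, 104075856), (3, 18, 18, 39912501, 84022851), (18, 513, 513, 56893701, 84173601), (37, 288, 288, 101930016, 103956816), (37, 288, 288, 101929536, 103891536), (12, 528, 528, 102056736, 105062736), (12, 528, 528, 102056496, 105058896), (3, 18, 18, 39851061, 84022836), (18, 513, 513, 56770821, 84108321), (37, 288, 288, 102052896, 105001296), (37, 288, 288, 102052416, 104936016), (17, 18, 18, 56689986,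 86073411), (26, 513, 513, 105000981, 101004306), (26, 513, 513, 105062421, 101008146), (26, 513, 513, 105001221, 101004321), (26, 513, 513, 105062661, 101008161), (1, 513, 513, 70668546, 70668321), (3, 258, 33, 40120581, 84162081), (12, 288, 288, 101917776, 101860176), (12, 288, 288, 101856336, 101856336), (37, 528, 528, 101983056, 101983056), (37, 528, 528, 101860176, 101917776), (18, 33, 258, 56689701, 84042051), (3, 258, 33, 40120341, 84162066), (12, 288, 288, 101918016, 102843216), (12, 288, 288, 101856576, 102839376), (37, 528, 528, 101983536, 103027536), (37, 528, 528, 101860656, 102962256), (18, 33, 258, 56689221, 83976771), (9, 528, 528, 85345056, 73605456), (9, 528, 528, 85344816, 73601616), (10, 288, 288, 101856576, 102839376), (3, 513, 513, 102847536, 103945536), (12, 33, 258, 23200821, 84022371), (12, 33, 258, 23200581,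 83960931), (9, 528, 528, 85222176, 56893776), (9, 528, 528, 85221936, 56889936), (10, 288, 288, 101918016, 102843216), (3, 513, 513, 103093296, 104994096), (12, 33, 258, 23077941, 84022116), (12, 33, 258, 23077701, 83960676)]
  [(0, 5760), (1, 11520), (3, 46080), (9, 46080), (10, 23040), (12, 92160), (14, 23040), (17, 11520), (18, 23040), (19, 46080), (24, 23040), (26, 46080), (27, 46080), (32, 5760), (34, 23040), (37, 46080)] = true := by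
  decide +kernel

section

variable {κ ι : Type*} [Fintype κ] [Fintype ι] [Inhabited κ] [Inhabited ι]

noncomputable def F21_0 (E : Env κ ι) : (Fin 3 → κ) → (Fin 5 → ι) → ℝ := op2 (P1 κ) (P4 ι) (fB E 3 5 m21_0)

noncomputable def F21_1 (E : Env κ ι) : (Fin 3 → κ) → (Fin 5 → ι) → ℝ := op2 (P1 κ) (P4 ι) (fB E 3 5 m21_1)

def r21_0_0 : List (ℕ × ℤ) := [(2, 11520), (4, 11520), (5, 23040), (7, 23040), (9, 11520), (11, 46080), (12, 23040), (13, 5760), (14, 5760), (15, 23040), (16, 46080), (18, 5760), (19, 34560), (20, 2880), (21, 2880), (22, 11520), (23, 11520), (24, 5760), (25, 5760), (26, 11520), (27, 23040), (28, 34560), (29, 11520), (33, 5760), (34, 5760), (35, 5760), (38, 11520), (39, 34560), (40, 23040), (41, 23040), (42, 11520), (44, 5760)]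

theorem h21_0_0 (E : Env κ ι) : ip (F21_0 E) (F21_0 E) = dotS (ek E lk21) r21_0_0 :=
  op_entryZ E lk21 3 5 _ _ _ _ (pg1 κ) (pg4 ι) m21_0 m21_0 l21_0 z21_0 w21_0 x21_0 (by decide) _ (chkS_sound E lk21 3 5 _ _ _ _ t21_0_0)

def r21_0_1 : List (ℕ × ℤ) := [(2, 23040), (3, 23040), (5, 46080), (6, 11520), (8, 11520), (9, 46080), (10, 11520), (11, 46080), (12, 46080), (13, 11520), (16, 46080), (29, 46080), (30, 34560), (31, 23040), (36, 11520), (40, 46080), (41, 23040), (43, 11520)]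

theorem h21_0_1 (E : Env κ ι) : ip (F21_0 E) (F21_1 E) = dotS (ek E lk21) r21_0_1 :=
  op_entryZ E lk21 3 5 _ _ _ _ (pg1 κ) (pg4 ι) m21_0 m21_1 l21_1 z21_1 w21_1 x21_1 (by decide) _ (chkS_sound E lk21 3 5 _ _ _ _ t21_0_1)

def r21_1_1 : List (ℕ × ℤ) := [(0, 5760), (1, 11520), (3, 46080), (9, 46080), (10, 23040), (12, 92160), (14, 23040), (17, 11520), (18, 23040), (19, 46080), (24, 23040), (26, 46080), (27, 46080), (32, 5760), (34, 23040), (37, 46080)]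

theorem h21_1_1 (E : Env κ ι) : ip (F21_1 E) (F21_1 E) = dotS (ek E lk21) r21_1_1 :=
  op_entryZ E lk21 3 5 _ _ _ _ (pg1 κ) (pg4 ι) m21_1 m21_1 l21_1 z21_1 w21_1 x21_1 (by decide) _ (chkS_sound E lk21 3 5 _ _ _ _ t21_1_1)

theorem row21_0 (E : Env κ ι) : RowG (ek E lk21) (F21_0 E) [F21_0 E, F21_1 E] [r21_0_0, r21_0_1] :=
  rowG_cons _ _ _ _ _ _ (h21_0_0 E) (rowG_cons _ _ _ _ _ _ (h21_0_1 E) (rowG_nil _ _))

theorem row21_1 (E : Env κ ι) : RowG (ek E lk21) (F21_1 E) [F21_1 E] [r21_1_1] :=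
  rowG_cons _ _ _ _ _ _ (h21_1_1 E) (rowG_nil _ _)

def tab21 : List (List (List (ℕ × ℤ))) := [[r21_0_0, r21_0_1], [r21_1_1]]

theorem tri21 (E : Env κ ι) : TriG (ek E lk21) [F21_0 E, F21_1 E] tab21 := by
  refine triG_cons _ _ _ _ _ (row21_0 E) ?_
  refine triG_cons _ _ _ _ _ (row21_1 E) ?_
  exact triG_nil _

end

def lk22 : List Key := [
  (3, 7, [(0, [0], [0, 1]), (0, [0], [0, 1]), (0, [1], [2, 3]), (0, [1], [2, 3]), (0, [2], [4, 5]), (0, [2], [4, 6]), (4, [], [6]), (4, [], [5])]),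
  (3, 7, [(0, [0], [0, 1]), (0, [0], [0, 1]), (0, [1], [2, 3]), (0, [2], [2, 4]), (0, [2], [5, 6]), (0, [1], [5, 6]), (4, [], [4]), (4, [], [3])]),
  (3, 7, [(0, [0], [0, 1]), (0, [1], [0, 2]), (0, [0], [2, 3]), (0, [2], [1, 4]), (0, [1], [5, 6]), (0, [2], [5, 6]), (4, [], [3]), (4, [], [4])]),
  (3, 7, [(0, [0], [0, 1]), (0, [1], [0, 2]), (0, [0], [3, 4]), (0, [1], [3, 4]), (0, [2], [1, 5]), (0, [2], [5, 6]), (4, [], [2]), (4, [], [6])]),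
  (3, 7, [(0, [0], [0, 1]), (0, [0], [0, 2]), (0, [1], [1, 2]), (4, [], [3]), (0, [2], [4, 5]), (0, [2], [4, 6]), (0, [1], [5, 6]), (4, [], [3])]),
  (3, 7, [(0, [0], [0, 1]), (0, [0], [0, 2]), (0, [1], [1, 2]), (4, [], [3]), (0, [2], [4, 5]), (0, [2], [4, 6]), (0, [1], [3, 6]), (4, [], [5])]),
  (3, 7, [(0, [0], [0, 1]), (0, [0], [0, 2]), (0, [1], [1, 2]), (4, [], [3]), (0, [2], [4, 5]), (0, [2], [4, 5]), (0, [1], [3, 6]), (4, [], [6])]),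
  (3, 7, [(0, [0], [0, 1]), (0, [0], [0, 2]), (0, [1], [1, 2]), (4, [], [3]), (0, [2], [4, 5]), (0, [2], [3, 6]), (0, [1], [4, 6]), (4, [], [5])]),
  (3, 7, [(0, [0], [0, 1]), (0, [0], [0, 2]), (0, [1], [1, 2]), (4, [], [3]), (0, [2], [4, 5]), (0, [2], [3, 6]), (0, [1], [4, 5]), (4, [], [6])]),
  (3, 7, [(0, [0], [0, 1]), (0, [0], [0, 2]), (0, [1], [3, 2]), (4, [], [1]), (0, [2], [4, 5]), (0, [2], [4, 6]), (0, [1], [3, 6]), (4, [], [5])]),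
  (3, 7, [(0, [0], [0, 1]), (0, [0], [0, 2]), (0, [1], [3, 2]), (4, [], [1]), (0, [2], [4, 5]), (0, [2], [4, 5]), (0, [1], [3, 6]), (4, [], [6])]),
  (3, 7, [(0, [0], [0, 1]), (0, [0], [0, 2]), (0, [1], [3, 2]), (4, [], [1]), (0, [2], [4, 5]), (0, [2], [3, 6]), (0, [1], [4, 6]), (4, [], [5])]),
  (3, 7, [(0, [0], [0, 1]), (0, [0], [0, 2]), (0, [1], [3, 2]), (4, [], [1]), (0, [2], [4, 5]), (0, [2], [3, 4]), (0, [1], [5, 6]), (4, [], [6])]),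
  (3, 7, [(0, [0], [0, 1]), (0, [0], [0, 1]), (0, [1], [2, 3]), (4, [], [3]), (0, [2], [4, 5]), (0, [2], [2, 6]), (0, [1], [4, 6]), (4, [], [5])]),
  (3, 7, [(0, [0], [0, 1]), (0, [0], [0, 1]), (0, [1], [2, 3]), (4, [], [3]), (0, [2], [4, 5]), (0, [2], [2, 4]), (0, [1], [5, 6]), (4, [], [6])]),
  (3, 7, [(0, [0], [0, 1]), (0, [0], [2, 3]), (0, [1], [0, 3]), (4, [], [1]), (0, [2], [4, 5]), (0, [2], [2, 6]), (0, [1], [4, 6]), (4, [], [5])]),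
  (3, 7, [(0, [0], [0, 1]), (0, [0], [2, 3]), (0, [1], [0, 3]), (4, [], [1]), (0, [2], [4, 5]), (0, [2], [2, 4]), (0, [1], [5, 6]), (4, [], [6])]),
  (3, 7, [(0, [0], [0, 1]), (0, [0], [2, 3]), (0, [1], [0, 1]), (4, [], [3]), (0, [2], [4, 5]), (0, [2], [2, 6]), (0, [1], [4, 5]), (4, [], [6])]),
  (3, 7, [(0, [0], [0, 1]), (0, [0], [2, 3]), (0, [1], [0, 1]), (4, [], [3]), (0, [2], [4, 5]), (0, [2], [2, 4]), (0, [1], [5, 6]), (4, [], [6])]),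
  (3, 7, [(0, [0], [0, 1]), (0, [0], [2, 0]), (0, [1], [1, 3]), (4, [], [3]), (0, [2], [4, 5]), (0, [2], [2, 4]), (0, [1], [5, 6]), (4, [], [6])]),
  (3, 7, [(0, [0], [0, 1]), (0, [0], [0, 1]), (0, [1], [2, 3]), (4, [], [4]), (0, [2], [5, 6]), (0, [2], [2, 5]), (0, [1], [3, 6]), (4, [], [4])]),
  (3, 7, [(0, [0], [0, 1]), (0, [0], [0, 1]), (0, [1], [2, 3]), (4, [], [4]), (0, [2], [2, 5]), (0, [2], [3, 6]), (0, [1], [5, 6]), (4, [], [4])]),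
  (3, 7, [(0, [0], [0, 1]), (0, [0], [2, 0]), (0, [1], [3, 1]), (4, [], [4]), (0, [2], [5, 6]), (0, [2], [2, 5]), (0, [1], [3, 6]), (4, [], [4])]),
  (3, 7, [(0, [0], [0, 1]), (0, [0], [2, 0]), (0, [1], [3, 1]), (4, [], [4]), (0, [2], [5, 6]), (0, [2], [3, 5]), (0, [1], [2, 6]), (4, [], [4])]),
  (3, 7, [(0, [0], [0, 1]), (0, [0], [2, 0]), (0, [1], [3, 1]), (4, [], [4]), (0, [2], [5, 6]), (0, [2], [4, 5]), (0, [1], [2, 3]), (4, [], [6])]),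
  (3, 7, [(0, [0], [0, 1]), (0, [0], [2, 0]), (0, [1], [3, 1]), (4, [], [4]), (0, [2], [5, 6]), (0, [2], [2, 3]), (0, [1], [5, 6]), (4, [], [4])]),
  (3, 7, [(0, [0], [0, 1]), (0, [0], [2, 0]), (0, [1], [3, 1]), (4, [], [4]), (0, [2], [5, 6]), (0, [2], [2, 3]), (0, [1], [4, 5]), (4, [], [6])]),
  (3, 7, [(0, [0], [0, 1]), (0, [0], [2, 0]), (0, [1], [3, 1]), (4, [], [4]), (0, [2], [5, 6]), (0, [2], [3, 4]), (0, [1], [2, 5]), (4, [], [6])]),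
  (3, 7, [(0, [0], [0, 1]), (0, [0], [2, 0]), (0, [1], [3, 1]), (4, [], [4]), (0, [2], [2, 5]), (0, [2], [3, 6]), (0, [1], [5, 6]), (4, [], [4])]),
  (3, 7, [(0, [0], [0, 1]), (0, [0], [2, 0]), (0, [1], [3, 1]), (4, [], [4]), (0, [2], [3, 5]), (0, [2], [2, 6]), (0, [1], [4, 6]), (4, [], [5])]),
  (3, 7, [(0, [0], [0, 1]), (0, [0], [2, 0]), (0, [1], [3, 1]), (4, [], [4]), (0, [2], [4, 5]), (0, [2], [2, 6]), (0, [1], [3, 6]), (4, [], [5])]),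
  (3, 7, [(0, [0], [0, 1]), (0, [0], [2, 0]), (0, [1], [3, 1]), (4, [], [4]), (0, [2], [4, 5]), (0, [2], [3, 6]), (0, [1], [2, 6]), (4, [], [5])]),
  (3, 7, [(0, [0], [0, 1]), (0, [0], [2, 0]), (0, [1], [3, 4]), (4, [], [1]), (0, [2], [5, 6]), (0, [2], [3, 4]), (0, [1], [5, 6]), (4, [], [2])]),
  (3, 7, [(0, [0], [0, 1]), (0, [0], [2, 0]), (0, [1], [3, 4]), (4, [], [1]), (0, [2], [3, 5]), (0, [2], [4, 6]), (0, [1], [5, 6]), (4, [], [2])]),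
  (3, 7, [(0, [0], [0, 1]), (0, [0], [2, 3]), (0, [1], [0, 1]), (4, [], [4]), (0, [2], [5, 6]), (0, [2], [2, 4]), (0, [1], [3, 5]), (4, [], [6])]),
  (3, 7, [(0, [0], [0, 1]), (0, [0], [2, 3]), (0, [1], [0, 1]), (4, [], [4]), (0, [2], [2, 5]), (0, [2], [3, 6]), (0, [1], [5, 6]), (4, [], [4])]),
  (3, 7, [(0, [0], [0, 1]), (0, [0], [2, 3]), (0, [1], [0, 1]), (4, [], [4]), (0, [2], [4, 5]), (0, [2], [2, 6]), (0, [1], [3, 6]), (4, [], [5])]),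
  (3, 7, [(0, [0], [0, 1]), (0, [0], [2, 3]), (0, [1], [4, 0]), (4, [], [1]), (0, [2], [5, 6]), (0, [2], [2, 4]), (0, [1], [3, 5]), (4, [], [6])]),
  (3, 7, [(0, [0], [0, 1]), (0, [0], [2, 3]), (0, [1], [4, 0]), (4, [], [1]), (0, [2], [2, 5]), (0, [2], [3, 6]), (0, [1], [5, 6]), (4, [], [4])]),
  (3, 7, [(0, [0], [0, 1]), (0, [0], [2, 3]), (0, [1], [4, 0]), (4, [], [1]), (0, [2], [2, 5]), (0, [2], [4, 6]), (0, [1], [5, 6]), (4, [], [3])]),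
  (3, 7, [(0, [0], [0, 1]), (0, [0], [2, 3]), (0, [1], [4, 0]), (4, [], [1]), (0, [2], [2, 5]), (0, [2], [4, 6]), (0, [1], [3, 6]), (4, [], [5])]),
  (3, 7, [(0, [0], [0, 1]), (0, [0], [2, 3]), (0, [1], [4, 0]), (4, [], [1]), (0, [2], [4, 5]), (0, [2], [2, 6]), (0, [1], [3, 6]), (4, [], [5])]),
  (3, 7, [(0, [0], [0, 1]), (0, [0], [2, 3]), (0, [1], [1, 3]), (4, [], [4]), (0, [2], [0, 5]), (0, [2], [2, 6]), (0, [1], [5, 6]), (4, [], [4])]),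
  (3, 7, [(0, [0], [0, 1]), (0, [0], [2, 3]), (0, [1], [1, 3]), (4, [], [4]), (0, [2], [4, 5]), (0, [2], [0, 6]), (0, [1], [2, 6]), (4, [], [5])]),
  (3, 7, [(0, [0], [0, 1]), (0, [0], [2, 3]), (0, [1], [4, 1]), (4, [], [5]), (0, [2], [2, 6]), (0, [2], [0, 4]), (0, [1], [3, 6]), (4, [], [5])])]

def kl22 : List ℕ := [13, 14, 57, 58, 94, 95, 96, 97, 98, 109, 110, 111, 112, 119, 120, 125, 126, 132, 133, 144, 204, 206, 216, 217, 218, 219, 220, 221, 222, 223, 224, 225, 252, 253, 267, 268, 269, 284, 285, 286, 287, 288, 302, 303, 430]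

def m22_0 : Base := (0, 1, [(0, [0], [0, 5]), (0, [1], [1, 5]), (0, [2], [2, 3]), (4, [], [4])])

def l22_0 : Cov := [(1440, 0, 1, [(0, [0], [0, 5]), (0, [1], [1, 5]), (0, [2], [2, 3]), (4, [], [4])]),
  (1440, 0, 1, [(0, [0], [0, 5]), (0, [1], [1, 5]), (0, [2], [2, 4]), (4, [], [3])]),
  (1440, 0, 1, [(0, [0], [0, 5]), (0, [1], [1, 5]), (0, [2], [3, 4]), (4, [], [2])]),
  (1440, 0, 1, [(0, [0], [0, 5]), (0, [1], [2, 5]), (0, [2], [1, 3]), (4, [], [4])]),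
  (1440, 0, 1, [(0, [0], [0, 5]), (0, [1], [2, 5]), (0, [2], [1, 4]), (4, [], [3])]),
  (1440, 0, 1, [(0, [0], [0, 5]), (0, [1], [2, 5]), (0, [2], [3, 4]), (4, [], [1])]),
  (1440, 0, 1, [(0, [0], [0, 5]), (0, [1], [3, 5]), (0, [2], [1, 2]), (4, [], [4])]),
  (1440, 0, 1, [(0, [0], [0, 5]), (0, [1], [3, 5]), (0, [2], [1, 4]), (4, [], [2])]),
  (1440, 0, 1, [(0, [0], [0, 5]), (0, [1], [3, 5]), (0, [2], [2, 4]), (4, [], [1])]),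
  (1440, 0, 1, [(0, [0], [0, 5]), (0, [1], [4, 5]), (0, [2], [1, 2]), (4, [], [3])]),
  (1440, 0, 1, [(0, [0], [0, 5]), (0, [1], [4, 5]), (0, [2], [1, 3]), (4, [], [2])]),
  (1440, 0, 1, [(0, [0], [0, 5]), (0, [1], [4, 5]), (0, [2], [2, 3]), (4, [], [1])]),
  (1440, 0, 1, [(0, [0], [1, 5]), (0, [1], [0, 5]), (0, [2], [2, 3]), (4, [], [4])]),
  (1440, 0, 1, [(0, [0], [1, 5]), (0, [1], [0, 5]), (0, [2], [2, 4]), (4, [], [3])]),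
  (1440, 0, 1, [(0, [0], [1, 5]), (0, [1], [0, 5]), (0, [2], [3, 4]), (4, [], [2])]),
  (1440, 0, 1, [(0, [0], [1, 5]), (0, [1], [2, 5]), (0, [2], [0, 3]), (4, [], [4])]),
  (1440, 0, 1, [(0, [0], [1, 5]), (0, [1], [2, 5]), (0, [2], [0, 4]), (4, [], [3])]),
  (1440, 0, 1, [(0, [0], [1, 5]), (0, [1], [2, 5]), (0, [2], [3, 4]), (4, [], [0])]),
  (1440, 0, 1, [(0, [0], [1, 5]), (0, [1], [3, 5]), (0, [2], [0, 2]), (4, [], [4])]),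
  (1440, 0, 1, [(0, [0], [1, 5]), (0, [1], [3, 5]), (0, [2], [0, 4]), (4, [], [2])]),
  (1440, 0, 1, [(0, [0], [1, 5]), (0, [1], [3, 5]), (0, [2], [2, 4]), (4, [], [0])]),
  (1440, 0, 1, [(0, [0], [1, 5]), (0, [1], [4, 5]), (0, [2], [0, 2]), (4, [], [3])]),
  (1440, 0, 1, [(0, [0], [1, 5]), (0, [1], [4, 5]), (0, [2], [0, 3]), (4, [], [2])]),
  (1440, 0, 1, [(0, [0], [1, 5]), (0, [1], [4, 5]), (0, [2], [2, 3]), (4, [], [0])]),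
  (1440, 0, 1, [(0, [0], [2, 5]), (0, [1], [0, 5]), (0, [2], [1, 3]), (4, [], [4])]),
  (1440, 0, 1, [(0, [0], [2, 5]), (0, [1], [0, 5]), (0, [2], [1, 4]), (4, [], [3])]),
  (1440, 0, 1, [(0, [0], [2, 5]), (0, [1], [0, 5]), (0, [2], [3, 4]), (4, [], [1])]),
  (1440, 0, 1, [(0, [0], [2, 5]), (0, [1], [1, 5]), (0, [2], [0, 3]), (4, [], [4])]),
  (1440, 0, 1, [(0, [0], [2, 5]), (0, [1], [1, 5]), (0, [2], [0, 4]), (4, [], [3])]),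
  (1440, 0, 1, [(0, [0], [2, 5]), (0, [1], [1, 5]), (0, [2], [3, 4]), (4, [], [0])]),
  (1440, 0, 1, [(0, [0], [2, 5]), (0, [1], [3, 5]), (0, [2], [0, 1]), (4, [], [4])]),
  (1440, 0, 1, [(0, [0], [2, 5]), (0, [1], [3, 5]), (0, [2], [0, 4]), (4, [], [1])]),
  (1440, 0, 1, [(0, [0], [2, 5]), (0, [1], [3, 5]), (0, [2], [1, 4]), (4, [], [0])]),
  (1440, 0, 1, [(0, [0], [2, 5]), (0, [1], [4, 5]), (0, [2], [0, 1]), (4, [], [3])]),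
  (1440, 0, 1, [(0, [0], [2, 5]), (0, [1], [4, 5]), (0, [2], [0, 3]), (4, [], [1])]),
  (1440, 0, 1, [(0, [0], [2, 5]), (0, [1], [4, 5]), (0, [2], [1, 3]), (4, [], [0])]),
  (1440, 0, 1, [(0, [0], [3, 5]), (0, [1], [0, 5]), (0, [2], [1, 2]), (4, [], [4])]),
  (1440, 0, 1, [(0, [0], [3, 5]), (0, [1], [0, 5]), (0, [2], [1, 4]), (4, [], [2])]),
  (1440, 0, 1, [(0, [0], [3, 5]), (0, [1], [0, 5]), (0, [2], [2, 4]), (4, [], [1])]),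
  (1440, 0, 1, [(0, [0], [3, 5]), (0, [1], [1, 5]), (0, [2], [0, 2]), (4, [], [4])]),
  (1440, 0, 1, [(0, [0], [3, 5]), (0, [1], [1, 5]), (0, [2], [0, 4]), (4, [], [2])]),
  (1440, 0, 1, [(0, [0], [3, 5]), (0, [1], [1, 5]), (0, [2], [2, 4]), (4, [], [0])]),
  (1440, 0, 1, [(0, [0], [3, 5]), (0, [1], [2, 5]), (0, [2], [0, 1]), (4, [], [4])]),
  (1440, 0, 1, [(0, [0], [3, 5]), (0, [1], [2, 5]), (0, [2], [0, 4]), (4, [], [1])]),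
  (1440, 0, 1, [(0, [0], [3, 5]), (0, [1], [2, 5]), (0, [2], [1, 4]), (4, [], [0])]),
  (1440, 0, 1, [(0, [0], [3, 5]), (0, [1], [4, 5]), (0, [2], [0, 1]), (4, [], [2])]),
  (1440, 0, 1, [(0, [0], [3, 5]), (0, [1], [4, 5]), (0, [2], [0, 2]), (4, [], [1])]),
  (1440, 0, 1, [(0, [0], [3, 5]), (0, [1], [4, 5]), (0, [2], [1, 2]), (4, [], [0])]),
  (1440, 0, 1, [(0, [0], [4, 5]), (0, [1], [0, 5]), (0, [2], [1, 2]), (4, [], [3])]),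
  (1440, 0, 1, [(0, [0], [4, 5]), (0, [1], [0, 5]), (0, [2], [1, 3]), (4, [], [2])]),
  (1440, 0, 1, [(0, [0], [4, 5]), (0, [1], [0, 5]), (0, [2], [2, 3]), (4, [], [1])]),
  (1440, 0, 1, [(0, [0], [4, 5]), (0, [1], [1, 5]), (0, [2], [0, 2]), (4, [], [3])]),
  (1440, 0, 1, [(0, [0], [4, 5]), (0, [1], [1, 5]), (0, [2], [0, 3]), (4, [], [2])]),
  (1440, 0, 1, [(0, [0], [4, 5]), (0, [1], [1, 5]), (0, [2], [2, 3]), (4, [], [0])]),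
  (1440, 0, 1, [(0, [0], [4, 5]), (0, [1], [2, 5]), (0, [2], [0, 1]), (4, [], [3])]),
  (1440, 0, 1, [(0, [0], [4, 5]), (0, [1], [2, 5]), (0, [2], [0, 3]), (4, [], [1])]),
  (1440, 0, 1, [(0, [0], [4, 5]), (0, [1], [2, 5]), (0, [2], [1, 3]), (4, [], [0])]),
  (1440, 0, 1, [(0, [0], [4, 5]), (0, [1], [3, 5]), (0, [2], [0, 1]), (4, [], [2])]),
  (1440, 0, 1, [(0, [0], [4, 5]), (0, [1], [3, 5]), (0, [2], [0, 2]), (4, [], [1])]),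
  (1440, 0, 1, [(0, [0], [4, 5]), (0, [1], [3, 5]), (0, [2], [1, 2]), (4, [], [0])]),
  (-1440, 0, 1, [(0, [1], [0, 5]), (0, [2], [1, 5]), (0, [0], [2, 3]), (4, [], [4])]),
  (-1440, 0, 1, [(0, [1], [0, 5]), (0, [2], [1, 5]), (0, [0], [2, 4]), (4, [], [3])]),
  (-1440, 0, 1, [(0, [1], [0, 5]), (0, [2], [1, 5]), (0, [0], [3, 4]), (4, [], [2])]),
  (-1440, 0, 1, [(0, [1], [0, 5]), (0, [2], [2, 5]), (0, [0], [1, 3]), (4, [], [4])]),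
  (-1440, 0, 1, [(0, [1], [0, 5]), (0, [2], [2, 5]), (0, [0], [1, 4]), (4, [], [3])]),
  (-1440, 0, 1, [(0, [1], [0, 5]), (0, [2], [2, 5]), (0, [0], [3, 4]), (4, [], [1])]),
  (-1440, 0, 1, [(0, [1], [0, 5]), (0, [2], [3, 5]), (0, [0], [1, 2]), (4, [], [4])]),
  (-1440, 0, 1, [(0, [1], [0, 5]), (0, [2], [3, 5]), (0, [0], [1, 4]), (4, [], [2])]),
  (-1440, 0, 1, [(0, [1], [0, 5]), (0, [2], [3, 5]), (0, [0], [2, 4]), (4, [], [1])]),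
  (-1440, 0, 1, [(0, [1], [0, 5]), (0, [2], [4, 5]), (0, [0], [1, 2]), (4, [], [3])]),
  (-1440, 0, 1, [(0, [1], [0, 5]), (0, [2], [4, 5]), (0, [0], [1, 3]), (4, [], [2])]),
  (-1440, 0, 1, [(0, [1], [0, 5]), (0, [2], [4, 5]), (0, [0], [2, 3]), (4, [], [1])]),
  (-1440, 0, 1, [(0, [1], [1, 5]), (0, [2], [0, 5]), (0, [0], [2, 3]), (4, [], [4])]),
  (-1440, 0, 1, [(0, [1], [1, 5]), (0, [2], [0, 5]), (0, [0], [2, 4]), (4, [], [3])]),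
  (-1440, 0, 1, [(0, [1], [1, 5]), (0, [2], [0, 5]), (0, [0], [3, 4]), (4, [], [2])]),
  (-1440, 0, 1, [(0, [1], [1, 5]), (0, [2], [2, 5]), (0, [0], [0, 3]), (4, [], [4])]),
  (-1440, 0, 1, [(0, [1], [1, 5]), (0, [2], [2, 5]), (0, [0], [0, 4]), (4, [], [3])]),
  (-1440, 0, 1, [(0, [1], [1, 5]), (0, [2], [2, 5]), (0, [0], [3, 4]), (4, [], [0])]),
  (-1440, 0, 1, [(0, [1], [1, 5]), (0, [2], [3, 5]), (0, [0], [0, 2]), (4, [], [4])]),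
  (-1440, 0, 1, [(0, [1], [1, 5]), (0, [2], [3, 5]), (0, [0], [0, 4]), (4, [], [2])]),
  (-1440, 0, 1, [(0, [1], [1, 5]), (0, [2], [3, 5]), (0, [0], [2, 4]), (4, [], [0])]),
  (-1440, 0, 1, [(0, [1], [1, 5]), (0, [2], [4, 5]), (0, [0], [0, 2]), (4, [], [3])]),
  (-1440, 0, 1, [(0, [1], [1, 5]), (0, [2], [4, 5]), (0, [0], [0, 3]), (4, [], [2])]),
  (-1440, 0, 1, [(0, [1], [1, 5]), (0, [2], [4, 5]), (0, [0], [2, 3]), (4, [], [0])]),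
  (-1440, 0, 1, [(0, [1], [2, 5]), (0, [2], [0, 5]), (0, [0], [1, 3]), (4, [], [4])]),
  (-1440, 0, 1, [(0, [1], [2, 5]), (0, [2], [0, 5]), (0, [0], [1, 4]), (4, [], [3])]),
  (-1440, 0, 1, [(0, [1], [2, 5]), (0, [2], [0, 5]), (0, [0], [3, 4]), (4, [], [1])]),
  (-1440, 0, 1, [(0, [1], [2, 5]), (0, [2], [1, 5]), (0, [0], [0, 3]), (4, [], [4])]),
  (-1440, 0, 1, [(0, [1], [2, 5]), (0, [2], [1, 5]), (0, [0], [0, 4]), (4, [], [3])]),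
  (-1440, 0, 1, [(0, [1], [2, 5]), (0, [2], [1, 5]), (0, [0], [3, 4]), (4, [], [0])]),
  (-1440, 0, 1, [(0, [1], [2, 5]), (0, [2], [3, 5]), (0, [0], [0, 1]), (4, [], [4])]),
  (-1440, 0, 1, [(0, [1], [2, 5]), (0, [2], [3, 5]), (0, [0], [0, 4]), (4, [], [1])]),
  (-1440, 0, 1, [(0, [1], [2, 5]), (0, [2], [3, 5]), (0, [0], [1, 4]), (4, [], [0])]),
  (-1440, 0, 1, [(0, [1], [2, 5]), (0, [2], [4, 5]), (0, [0], [0, 1]), (4, [], [3])]),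
  (-1440, 0, 1, [(0, [1], [2, 5]), (0, [2], [4, 5]), (0, [0], [0, 3]), (4, [], [1])]),
  (-1440, 0, 1, [(0, [1], [2, 5]), (0, [2], [4, 5]), (0, [0], [1, 3]), (4, [], [0])]),
  (-1440, 0, 1, [(0, [1], [3, 5]), (0, [2], [0, 5]), (0, [0], [1, 2]), (4, [], [4])]),
  (-1440, 0, 1, [(0, [1], [3, 5]), (0, [2], [0, 5]), (0, [0], [1, 4]), (4, [], [2])]),
  (-1440, 0, 1, [(0, [1], [3, 5]), (0, [2], [0, 5]), (0, [0], [2, 4]), (4, [], [1])]),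
  (-1440, 0, 1, [(0, [1], [3, 5]), (0, [2], [1, 5]), (0, [0], [0, 2]), (4, [], [4])]),
  (-1440, 0, 1, [(0, [1], [3, 5]), (0, [2], [1, 5]), (0, [0], [0, 4]), (4, [], [2])]),
  (-1440, 0, 1, [(0, [1], [3, 5]), (0, [2], [1, 5]), (0, [0], [2, 4]), (4, [], [0])]),
  (-1440, 0, 1, [(0, [1], [3, 5]), (0, [2], [2, 5]), (0, [0], [0, 1]), (4, [], [4])]),
  (-1440, 0, 1, [(0, [1], [3, 5]), (0, [2], [2, 5]), (0, [0], [0, 4]), (4, [], [1])]),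
  (-1440, 0, 1, [(0, [1], [3, 5]), (0, [2], [2, 5]), (0, [0], [1, 4]), (4, [], [0])]),
  (-1440, 0, 1, [(0, [1], [3, 5]), (0, [2], [4, 5]), (0, [0], [0, 1]), (4, [], [2])]),
  (-1440, 0, 1, [(0, [1], [3, 5]), (0, [2], [4, 5]), (0, [0], [0, 2]), (4, [], [1])]),
  (-1440, 0, 1, [(0, [1], [3, 5]), (0, [2], [4, 5]), (0, [0], [1, 2]), (4, [], [0])]),
  (-1440, 0, 1, [(0, [1], [4, 5]), (0, [2], [0, 5]), (0, [0], [1, 2]), (4, [], [3])]),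
  (-1440, 0, 1, [(0, [1], [4, 5]), (0, [2], [0, 5]), (0, [0], [1, 3]), (4, [], [2])]),
  (-1440, 0, 1, [(0, [1], [4, 5]), (0, [2], [0, 5]), (0, [0], [2, 3]), (4, [], [1])]),
  (-1440, 0, 1, [(0, [1], [4, 5]), (0, [2], [1, 5]), (0, [0], [0, 2]), (4, [], [3])]),
  (-1440, 0, 1, [(0, [1], [4, 5]), (0, [2], [1, 5]), (0, [0], [0, 3]), (4, [], [2])]),
  (-1440, 0, 1, [(0, [1], [4, 5]), (0, [2], [1, 5]), (0, [0], [2, 3]), (4, [], [0])]),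
  (-1440, 0, 1, [(0, [1], [4, 5]), (0, [2], [2, 5]), (0, [0], [0, 1]), (4, [], [3])]),
  (-1440, 0, 1, [(0, [1], [4, 5]), (0, [2], [2, 5]), (0, [0], [0, 3]), (4, [], [1])]),
  (-1440, 0, 1, [(0, [1], [4, 5]), (0, [2], [2, 5]), (0, [0], [1, 3]), (4, [], [0])]),
  (-1440, 0, 1, [(0, [1], [4, 5]), (0, [2], [3, 5]), (0, [0], [0, 1]), (4, [], [2])]),
  (-1440, 0, 1, [(0, [1], [4, 5]), (0, [2], [3, 5]), (0, [0], [0, 2]), (4, [], [1])]),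
  (-1440, 0, 1, [(0, [1], [4, 5]), (0, [2], [3, 5]), (0, [0], [1, 2]), (4, [], [0])])]

def z22_0 : Cov := [(0, 0, 1, [(0, [0], [0, 5]), (0, [2], [1, 5]), (0, [1], [2, 3]), (4, [], [4])]),
  (0, 0, 1, [(0, [0], [0, 5]), (0, [2], [1, 5]), (0, [1], [2, 4]), (4, [], [3])]),
  (0, 0, 1, [(0, [0], [0, 5]), (0, [2], [1, 5]), (0, [1], [3, 4]), (4, [], [2])]),
  (0, 0, 1, [(0, [0], [0, 5]), (0, [2], [2, 5]), (0, [1], [1, 3]), (4, [], [4])]),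
  (0, 0, 1, [(0, [0], [0, 5]), (0, [2], [2, 5]), (0, [1], [1, 4]), (4, [], [3])]),
  (0, 0, 1, [(0, [0], [0, 5]), (0, [2], [2, 5]), (0, [1], [3, 4]), (4, [], [1])]),
  (0, 0, 1, [(0, [0], [0, 5]), (0, [2], [3, 5]), (0, [1], [1, 2]), (4, [], [4])]),
  (0, 0, 1, [(0, [0], [0, 5]), (0, [2], [3, 5]), (0, [1], [1, 4]), (4, [], [2])]),
  (0, 0, 1, [(0, [0], [0, 5]), (0, [2], [3, 5]), (0, [1], [2, 4]), (4, [], [1])]),
  (0, 0, 1, [(0, [0], [0, 5]), (0, [2], [4, 5]), (0, [1], [1, 2]), (4, [], [3])]),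
  (0, 0, 1, [(0, [0], [0, 5]), (0, [2], [4, 5]), (0, [1], [1, 3]), (4, [], [2])]),
  (0, 0, 1, [(0, [0], [0, 5]), (0, [2], [4, 5]), (0, [1], [2, 3]), (4, [], [1])]),
  (0, 0, 1, [(0, [0], [1, 5]), (0, [2], [0, 5]), (0, [1], [2, 3]), (4, [], [4])]),
  (0, 0, 1, [(0, [0], [1, 5]), (0, [2], [0, 5]), (0, [1], [2, 4]), (4, [], [3])]),
  (0, 0, 1, [(0, [0], [1, 5]), (0, [2], [0, 5]), (0, [1], [3, 4]), (4, [], [2])]),
  (0, 0, 1, [(0, [0], [1, 5]), (0, [2], [2, 5]), (0, [1], [0, 3]), (4, [], [4])]),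
  (0, 0, 1, [(0, [0], [1, 5]), (0, [2], [2, 5]), (0, [1], [0, 4]), (4, [], [3])]),
  (0, 0, 1, [(0, [0], [1, 5]), (0, [2], [2, 5]), (0, [1], [3, 4]), (4, [], [0])]),
  (0, 0, 1, [(0, [0], [1, 5]), (0, [2], [3, 5]), (0, [1], [0, 2]), (4, [], [4])]),
  (0, 0, 1, [(0, [0], [1, 5]), (0, [2], [3, 5]), (0, [1], [0, 4]), (4, [], [2])]),
  (0, 0, 1, [(0, [0], [1, 5]), (0, [2], [3, 5]), (0, [1], [2, 4]), (4, [], [0])]),
  (0, 0, 1, [(0, [0], [1, 5]), (0, [2], [4, 5]), (0, [1], [0, 2]), (4, [], [3])]),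
  (0, 0, 1, [(0, [0], [1, 5]), (0, [2], [4, 5]), (0, [1], [0, 3]), (4, [], [2])]),
  (0, 0, 1, [(0, [0], [1, 5]), (0, [2], [4, 5]), (0, [1], [2, 3]), (4, [], [0])]),
  (0, 0, 1, [(0, [0], [2, 5]), (0, [2], [0, 5]), (0, [1], [1, 3]), (4, [], [4])]),
  (0, 0, 1, [(0, [0], [2, 5]), (0, [2], [0, 5]), (0, [1], [1, 4]), (4, [], [3])]),
  (0, 0, 1, [(0, [0], [2, 5]), (0, [2], [0, 5]), (0, [1], [3, 4]), (4, [], [1])]),
  (0, 0, 1, [(0, [0], [2, 5]), (0, [2], [1, 5]), (0, [1], [0, 3]), (4, [], [4])]),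
  (0, 0, 1, [(0, [0], [2, 5]), (0, [2], [1, 5]), (0, [1], [0, 4]), (4, [], [3])]),
  (0, 0, 1, [(0, [0], [2, 5]), (0, [2], [1, 5]), (0, [1], [3, 4]), (4, [], [0])]),
  (0, 0, 1, [(0, [0], [2, 5]), (0, [2], [3, 5]), (0, [1], [0, 1]), (4, [], [4])]),
  (0, 0, 1, [(0, [0], [2, 5]), (0, [2], [3, 5]), (0, [1], [0, 4]), (4, [], [1])]),
  (0, 0, 1, [(0, [0], [2, 5]), (0, [2], [3, 5]), (0, [1], [1, 4]), (4, [], [0])]),
  (0, 0, 1, [(0, [0], [2, 5]), (0, [2], [4, 5]), (0, [1], [0, 1]), (4, [], [3])]),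
  (0, 0, 1, [(0, [0], [2, 5]), (0, [2], [4, 5]), (0, [1], [0, 3]), (4, [], [1])]),
  (0, 0, 1, [(0, [0], [2, 5]), (0, [2], [4, 5]), (0, [1], [1, 3]), (4, [], [0])]),
  (0, 0, 1, [(0, [0], [3, 5]), (0, [2], [0, 5]), (0, [1], [1, 2]), (4, [], [4])]),
  (0, 0, 1, [(0, [0], [3, 5]), (0, [2], [0, 5]), (0, [1], [1, 4]), (4, [], [2])]),
  (0, 0, 1, [(0, [0], [3, 5]), (0, [2], [0, 5]), (0, [1], [2, 4]), (4, [], [1])]),
  (0, 0, 1, [(0, [0], [3, 5]), (0, [2], [1, 5]), (0, [1], [0, 2]), (4, [], [4])]),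
  (0, 0, 1, [(0, [0], [3, 5]), (0, [2], [1, 5]), (0, [1], [0, 4]), (4, [], [2])]),
  (0, 0, 1, [(0, [0], [3, 5]), (0, [2], [1, 5]), (0, [1], [2, 4]), (4, [], [0])]),
  (0, 0, 1, [(0, [0], [3, 5]), (0, [2], [2, 5]), (0, [1], [0, 1]), (4, [], [4])]),
  (0, 0, 1, [(0, [0], [3, 5]), (0, [2], [2, 5]), (0, [1], [0, 4]), (4, [], [1])]),
  (0, 0, 1, [(0, [0], [3, 5]), (0, [2], [2, 5]), (0, [1], [1, 4]), (4, [], [0])]),
  (0, 0, 1, [(0, [0], [3, 5]), (0, [2], [4, 5]), (0, [1], [0, 1]), (4, [], [2])]),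
  (0, 0, 1, [(0, [0], [3, 5]), (0, [2], [4, 5]), (0, [1], [0, 2]), (4, [], [1])]),
  (0, 0, 1, [(0, [0], [3, 5]), (0, [2], [4, 5]), (0, [1], [1, 2]), (4, [], [0])]),
  (0, 0, 1, [(0, [0], [4, 5]), (0, [2], [0, 5]), (0, [1], [1, 2]), (4, [], [3])]),
  (0, 0, 1, [(0, [0], [4, 5]), (0, [2], [0, 5]), (0, [1], [1, 3]), (4, [], [2])]),
  (0, 0, 1, [(0, [0], [4, 5]), (0, [2], [0, 5]), (0, [1], [2, 3]), (4, [], [1])]),
  (0, 0, 1, [(0, [0], [4, 5]), (0, [2], [1, 5]), (0, [1], [0, 2]), (4, [], [3])]),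
  (0, 0, 1, [(0, [0], [4, 5]), (0, [2], [1, 5]), (0, [1], [0, 3]), (4, [], [2])]),
  (0, 0, 1, [(0, [0], [4, 5]), (0, [2], [1, 5]), (0, [1], [2, 3]), (4, [], [0])]),
  (0, 0, 1, [(0, [0], [4, 5]), (0, [2], [2, 5]), (0, [1], [0, 1]), (4, [], [3])]),
  (0, 0, 1, [(0, [0], [4, 5]), (0, [2], [2, 5]), (0, [1], [0, 3]), (4, [], [1])]),
  (0, 0, 1, [(0, [0], [4, 5]), (0, [2], [2, 5]), (0, [1], [1, 3]), (4, [], [0])]),
  (0, 0, 1, [(0, [0], [4, 5]), (0, [2], [3, 5]), (0, [1], [0, 1]), (4, [], [2])]),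
  (0, 0, 1, [(0, [0], [4, 5]), (0, [2], [3, 5]), (0, [1], [0, 2]), (4, [], [1])]),
  (0, 0, 1, [(0, [0], [4, 5]), (0, [2], [3, 5]), (0, [1], [1, 2]), (4, [], [0])])]

def w22_0 : List (List Wit) := [[(0, 0, 0, 0, 0), (1, 0, 0, 0, 0), (0, 0, 0, 0, 0), (2, 0, 0, 0, 0), (1, 0, 0, 0, 0), (2, 0, 0, 0, 0), (3, 0, 0, 0, 0), (4, 0, 0, 0, 0), (3, 0, 0, 0, 0), (5, 0, 0, 0, 0), (4, 0, 0, 0, 0), (5, 0, 0, 0, 0), (6, 0, 0, 0, 0), (7, 0, 0, 0, 0), (6, 0, 0, 0, 0), (8, 0, 0, 0, 0), (7, 0, 0, 0, 0), (8, 0, 0, 0, 0), (9, 0, 0, 0, 0), (10, 0, 0, 0, 0), (9, 0, 0, 0, 0), (11, 0, 0, 0, 0), (10, 0, 0, 0, 0), (11, 0, 0, 0, 0), (12, 0, 0, 0, 0), (13, 0, 0, 0, 0), (12, 0, 0, 0, 0), (14, 0, 0, 0, 0), (13, 0, 0, 0, 0), (14, 0, 0, 0, 0), (15, 0, 0, 0, 0), (16, 0, 0, 0, 0), (15, 0, 0, 0, 0), (17, 0, 0, 0, 0), (16, 0, 0, 0, 0), (17, 0, 0, 0, 0), (18, 0, 0,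 0, 0), (19, 0, 0, 0, 0), (18, 0, 0, 0, 0), (20, 0, 0, 0, 0), (19, 0, 0, 0, 0), (20, 0, 0, 0, 0), (21, 0, 0, 0, 0), (22, 0, 0, 0, 0), (21, 0, 0, 0, 0), (23, 0, 0, 0, 0), (22, 0, 0, 0, 0), (23, 0, 0, 0, 0), (24, 0, 0, 0, 0), (25, 0, 0, 0, 0), (24, 0, 0, 0, 0), (26, 0, 0, 0, 0), (25, 0, 0, 0, 0), (26, 0, 0, 0, 0), (27, 0, 0, 0, 0), (28, 0, 0, 0, 0), (27, 0, 0, 0, 0), (29, 0, 0, 0, 0), (28, 0, 0, 0, 0), (29, 0, 0, 0, 0), (30, 0, 0, 0, 0), (31, 0, 0, 0, 0), (30, 0, 0, 0, 0), (32, 0, 0, 0, 0), (31, 0, 0, 0, 0), (32, 0, 0, 0, 0), (33, 0, 0, 0, 0), (34, 0, 0, 0, 0), (33, 0, 0, 0, 0), (35, 0, 0, 0, 0), (34, 0, 0, 0, 0), (35, 0, 0, 0, 0), (36, 0, 0, 0, 0), (37, 0, 0, 0, 0), (36, 0, 0, 0, 0), (38, 0, 0, 0, 0), (37, 0, 0, 0, 0), (38, 0, 0, 0, 0), (39, 0, 0, 0, 0), (40, 0, 0, 0, 0), (39, 0, 0, 0, 0), (41, 0, 0, 0, 0), (40, 0, 0, 0, 0), (41,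 0, 0, 0, 0), (42, 0, 0, 0, 0), (43, 0, 0, 0, 0), (42, 0, 0, 0, 0), (44, 0, 0, 0, 0), (43, 0, 0, 0, 0), (44, 0, 0, 0, 0), (45, 0, 0, 0, 0), (46, 0, 0, 0, 0), (45, 0, 0, 0, 0), (47, 0, 0, 0, 0), (46, 0, 0, 0, 0), (47, 0, 0, 0, 0), (48, 0, 0, 0, 0), (49, 0, 0, 0, 0), (48, 0, 0, 0, 0), (50, 0, 0, 0, 0), (49, 0, 0, 0, 0), (50, 0, 0, 0, 0), (51, 0, 0, 0, 0), (52, 0, 0, 0, 0), (51, 0, 0, 0, 0), (53, 0, 0, 0, 0), (52, 0, 0, 0, 0), (53, 0, 0, 0, 0), (54, 0, 0, 0, 0), (55, 0, 0, 0, 0), (54, 0, 0, 0, 0), (56, 0, 0, 0, 0), (55, 0, 0, 0, 0), (56, 0, 0, 0, 0), (57, 0, 0, 0, 0), (58, 0, 0, 0, 0), (57, 0, 0, 0, 0), (59, 0, 0, 0, 0), (58, 0, 0, 0, 0), (59, 0, 0, 0, 0)],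
  [(120, 0, 0, 0, 0), (121, 0, 0, 0, 0), (120, 0, 0, 0, 0), (122, 0, 0, 0, 0), (121, 0, 0, 0, 0), (122, 0, 0, 0, 0), (123, 0, 0, 0, 0), (124, 0, 0, 0, 0), (123, 0, 0, 0, 0), (125, 0, 0, 0, 0), (124, 0, 0, 0, 0), (125, 0, 0, 0, 0), (126, 0, 0, 0, 0), (127, 0, 0, 0, 0), (126, 0, 0, 0, 0), (128, 0, 0, 0, 0), (127, 0, 0, 0, 0), (128, 0, 0, 0, 0), (129, 0, 0, 0, 0), (130, 0, 0, 0, 0), (129, 0, 0, 0, 0), (131, 0, 0, 0, 0), (130, 0, 0, 0, 0), (131, 0, 0, 0, 0), (132, 0, 0, 0, 0), (133, 0, 0, 0, 0), (132, 0, 0, 0, 0), (134, 0, 0, 0, 0), (133, 0, 0, 0, 0), (134, 0, 0, 0, 0), (135, 0, 0, 0, 0), (136, 0, 0, 0, 0), (135, 0, 0, 0, 0), (137, 0, 0, 0, 0), (136, 0, 0, 0, 0), (137, 0, 0, 0, 0), (138, 0, 0, 0, 0), (139, 0, 0, 0, 0), (138, 0, 0, 0, 0), (140, 0, 0, 0, 0), (139, 0, 0, 0, 0), (140, 0, 0, 0, 0), (141, 0, 0, 0, 0), (142, 0, 0, 0, 0),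 (141, 0, 0, 0, 0), (143, 0, 0, 0, 0), (142, 0, 0, 0, 0), (143, 0, 0, 0, 0), (144, 0, 0, 0, 0), (145, 0, 0, 0, 0), (144, 0, 0, 0, 0), (146, 0, 0, 0, 0), (145, 0, 0, 0, 0), (146, 0, 0, 0, 0), (147, 0, 0, 0, 0), (148, 0, 0, 0, 0), (147, 0, 0, 0, 0), (149, 0, 0, 0, 0), (148, 0, 0, 0, 0), (149, 0, 0, 0, 0), (150, 0, 0, 0, 0), (151, 0, 0, 0, 0), (150, 0, 0, 0, 0), (152, 0, 0, 0, 0), (151, 0, 0, 0, 0), (152, 0, 0, 0, 0), (153, 0, 0, 0, 0), (154, 0, 0, 0, 0), (153, 0, 0, 0, 0), (155, 0, 0, 0, 0), (154, 0, 0, 0, 0), (155, 0, 0, 0, 0), (156, 0, 0, 0, 0), (157, 0, 0, 0, 0), (156, 0, 0, 0, 0), (158, 0, 0, 0, 0), (157, 0, 0, 0, 0), (158, 0, 0, 0, 0), (159, 0, 0, 0, 0), (160, 0, 0, 0, 0), (159, 0, 0, 0, 0), (161, 0, 0, 0, 0), (160, 0, 0, 0, 0), (161, 0, 0, 0, 0), (162, 0, 0, 0, 0), (163, 0, 0, 0, 0), (162, 0, 0, 0, 0), (164, 0, 0, 0, 0), (163,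 0, 0, 0, 0), (164, 0, 0, 0, 0), (165, 0, 0, 0, 0), (166, 0, 0, 0, 0), (165, 0, 0, 0, 0), (167, 0, 0, 0, 0), (166, 0, 0, 0, 0), (167, 0, 0, 0, 0), (168, 0, 0, 0, 0), (169, 0, 0, 0, 0), (168, 0, 0, 0, 0), (170, 0, 0, 0, 0), (169, 0, 0, 0, 0), (170, 0, 0, 0, 0), (171, 0, 0, 0, 0), (172, 0, 0, 0, 0), (171, 0, 0, 0, 0), (173, 0, 0, 0, 0), (172, 0, 0, 0, 0), (173, 0, 0, 0, 0), (174, 0, 0, 0, 0), (175, 0, 0, 0, 0), (174, 0, 0, 0, 0), (176, 0, 0, 0, 0), (175, 0, 0, 0, 0), (176, 0, 0, 0, 0), (177, 0, 0, 0, 0), (178, 0, 0, 0, 0), (177, 0, 0, 0, 0), (179, 0, 0, 0, 0), (178, 0, 0, 0, 0), (179, 0, 0, 0, 0)],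
  [(12, 0, 0, 0, 0), (13, 0, 0, 0, 0), (12, 0, 0, 0, 0), (14, 0, 0, 0, 0), (13, 0, 0, 0, 0), (14, 0, 0, 0, 0), (24, 0, 0, 0, 0), (25, 0, 0, 0, 0), (24, 0, 0, 0, 0), (26, 0, 0, 0, 0), (25, 0, 0, 0, 0), (26, 0, 0, 0, 0), (36, 0, 0, 0, 0), (37, 0, 0, 0, 0), (36, 0, 0, 0, 0), (38, 0, 0, 0, 0), (37, 0, 0, 0, 0), (38, 0, 0, 0, 0), (48, 0, 0, 0, 0), (49, 0, 0, 0, 0), (48, 0, 0, 0, 0), (50, 0, 0, 0, 0), (49, 0, 0, 0, 0), (50, 0, 0, 0, 0), (0, 0, 0, 0, 0), (1, 0, 0, 0, 0), (0, 0, 0, 0, 0), (2, 0, 0, 0, 0), (1, 0, 0, 0, 0), (2, 0, 0, 0, 0), (27, 0, 0, 0, 0), (28, 0, 0, 0, 0), (27, 0, 0, 0, 0), (29, 0, 0, 0, 0), (28, 0, 0, 0, 0), (29, 0, 0, 0, 0), (39, 0, 0, 0, 0), (40, 0, 0, 0, 0), (39, 0, 0, 0, 0), (41, 0, 0, 0, 0), (40, 0, 0, 0, 0), (41, 0, 0, 0, 0), (51, 0, 0, 0, 0), (52, 0, 0, 0, 0), (51, 0, 0, 0, 0), (53, 0, 0, 0, 0), (52, 0, 0, 0,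 0), (53, 0, 0, 0, 0), (3, 0, 0, 0, 0), (4, 0, 0, 0, 0), (3, 0, 0, 0, 0), (5, 0, 0, 0, 0), (4, 0, 0, 0, 0), (5, 0, 0, 0, 0), (15, 0, 0, 0, 0), (16, 0, 0, 0, 0), (15, 0, 0, 0, 0), (17, 0, 0, 0, 0), (16, 0, 0, 0, 0), (17, 0, 0, 0, 0), (42, 0, 0, 0, 0), (43, 0, 0, 0, 0), (42, 0, 0, 0, 0), (44, 0, 0, 0, 0), (43, 0, 0, 0, 0), (44, 0, 0, 0, 0), (54, 0, 0, 0, 0), (55, 0, 0, 0, 0), (54, 0, 0, 0, 0), (56, 0, 0, 0, 0), (55, 0, 0, 0, 0), (56, 0, 0, 0, 0), (6, 0, 0, 0, 0), (7, 0, 0, 0, 0), (6, 0, 0, 0, 0), (8, 0, 0, 0, 0), (7, 0, 0, 0, 0), (8, 0, 0, 0, 0), (18, 0, 0, 0, 0), (19, 0, 0, 0, 0), (18, 0, 0, 0, 0), (20, 0, 0, 0, 0), (19, 0, 0, 0, 0), (20, 0, 0, 0, 0), (30, 0, 0, 0, 0), (31, 0, 0, 0, 0), (30, 0, 0, 0, 0), (32, 0, 0, 0, 0), (31, 0, 0, 0, 0), (32, 0, 0, 0, 0), (57, 0, 0, 0, 0), (58, 0, 0, 0, 0), (57, 0, 0, 0, 0), (59, 0, 0, 0, 0),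 (58, 0, 0, 0, 0), (59, 0, 0, 0, 0), (9, 0, 0, 0, 0), (10, 0, 0, 0, 0), (9, 0, 0, 0, 0), (11, 0, 0, 0, 0), (10, 0, 0, 0, 0), (11, 0, 0, 0, 0), (21, 0, 0, 0, 0), (22, 0, 0, 0, 0), (21, 0, 0, 0, 0), (23, 0, 0, 0, 0), (22, 0, 0, 0, 0), (23, 0, 0, 0, 0), (33, 0, 0, 0, 0), (34, 0, 0, 0, 0), (33, 0, 0, 0, 0), (35, 0, 0, 0, 0), (34, 0, 0, 0, 0), (35, 0, 0, 0, 0), (45, 0, 0, 0, 0), (46, 0, 0, 0, 0), (45, 0, 0, 0, 0), (47, 0, 0, 0, 0), (46, 0, 0, 0, 0), (47, 0, 0, 0, 0)],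
  [(60, 0, 0, 0, 0), (61, 0, 0, 0, 0), (60, 0, 0, 0, 0), (62, 0, 0, 0, 0), (61, 0, 0, 0, 0), (62, 0, 0, 0, 0), (63, 0, 0, 0, 0), (64, 0, 0, 0, 0), (63, 0, 0, 0, 0), (65, 0, 0, 0, 0), (64, 0, 0, 0, 0), (65, 0, 0, 0, 0), (66, 0, 0, 0, 0), (67, 0, 0, 0, 0), (66, 0, 0, 0, 0), (68, 0, 0, 0, 0), (67, 0, 0, 0, 0), (68, 0, 0, 0, 0), (69, 0, 0, 0, 0), (70, 0, 0, 0, 0), (69, 0, 0, 0, 0), (71, 0, 0, 0, 0), (70, 0, 0, 0, 0), (71, 0, 0, 0, 0), (72, 0, 0, 0, 0), (73, 0, 0, 0, 0), (72, 0, 0, 0, 0), (74, 0, 0, 0, 0), (73, 0, 0, 0, 0), (74, 0, 0, 0, 0), (75, 0, 0, 0, 0), (76, 0, 0, 0, 0), (75, 0, 0, 0, 0), (77, 0, 0, 0, 0), (76, 0, 0, 0, 0), (77, 0, 0, 0, 0), (78, 0, 0, 0, 0), (79, 0, 0, 0, 0), (78, 0, 0, 0, 0), (80, 0, 0, 0, 0), (79, 0, 0, 0, 0), (80, 0, 0, 0, 0), (81, 0, 0, 0, 0), (82, 0, 0, 0, 0), (81, 0, 0, 0, 0), (83, 0, 0, 0, 0), (82, 0,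 0, 0, 0), (83, 0, 0, 0, 0), (84, 0, 0, 0, 0), (85, 0, 0, 0, 0), (84, 0, 0, 0, 0), (86, 0, 0, 0, 0), (85, 0, 0, 0, 0), (86, 0, 0, 0, 0), (87, 0, 0, 0, 0), (88, 0, 0, 0, 0), (87, 0, 0, 0, 0), (89, 0, 0, 0, 0), (88, 0, 0, 0, 0), (89, 0, 0, 0, 0), (90, 0, 0, 0, 0), (91, 0, 0, 0, 0), (90, 0, 0, 0, 0), (92, 0, 0, 0, 0), (91, 0, 0, 0, 0), (92, 0, 0, 0, 0), (93, 0, 0, 0, 0), (94, 0, 0, 0, 0), (93, 0, 0, 0, 0), (95, 0, 0, 0, 0), (94, 0, 0, 0, 0), (95, 0, 0, 0, 0), (96, 0, 0, 0, 0), (97, 0, 0, 0, 0), (96, 0, 0, 0, 0), (98, 0, 0, 0, 0), (97, 0, 0, 0, 0), (98, 0, 0, 0, 0), (99, 0, 0, 0, 0), (100, 0, 0, 0, 0), (99, 0, 0, 0, 0), (101, 0, 0, 0, 0), (100, 0, 0, 0, 0), (101, 0, 0, 0, 0), (102, 0, 0, 0, 0), (103, 0, 0, 0, 0), (102, 0, 0, 0, 0), (104, 0, 0, 0, 0), (103, 0, 0, 0, 0), (104, 0, 0, 0, 0), (105, 0, 0, 0, 0), (106, 0, 0, 0, 0), (105,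 0, 0, 0, 0), (107, 0, 0, 0, 0), (106, 0, 0, 0, 0), (107, 0, 0, 0, 0), (108, 0, 0, 0, 0), (109, 0, 0, 0, 0), (108, 0, 0, 0, 0), (110, 0, 0, 0, 0), (109, 0, 0, 0, 0), (110, 0, 0, 0, 0), (111, 0, 0, 0, 0), (112, 0, 0, 0, 0), (111, 0, 0, 0, 0), (113, 0, 0, 0, 0), (112, 0, 0, 0, 0), (113, 0, 0, 0, 0), (114, 0, 0, 0, 0), (115, 0, 0, 0, 0), (114, 0, 0, 0, 0), (116, 0, 0, 0, 0), (115, 0, 0, 0, 0), (116, 0, 0, 0, 0), (117, 0, 0, 0, 0), (118, 0, 0, 0, 0), (117, 0, 0, 0, 0), (119, 0, 0, 0, 0), (118, 0, 0, 0, 0), (119, 0, 0, 0, 0)],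
  [(132, 0, 0, 0, 0), (133, 0, 0, 0, 0), (132, 0, 0, 0, 0), (134, 0, 0, 0, 0), (133, 0, 0, 0, 0), (134, 0, 0, 0, 0), (144, 0, 0, 0, 0), (145, 0, 0, 0, 0), (144, 0, 0, 0, 0), (146, 0, 0, 0, 0), (145, 0, 0, 0, 0), (146, 0, 0, 0, 0), (156, 0, 0, 0, 0), (157, 0, 0, 0, 0), (156, 0, 0, 0, 0), (158, 0, 0, 0, 0), (157, 0, 0, 0, 0), (158, 0, 0, 0, 0), (168, 0, 0, 0, 0), (169, 0, 0, 0, 0), (168, 0, 0, 0, 0), (170, 0, 0, 0, 0), (169, 0, 0, 0, 0), (170, 0, 0, 0, 0), (120, 0, 0, 0, 0), (121, 0, 0, 0, 0), (120, 0, 0, 0, 0), (122, 0, 0, 0, 0), (121, 0, 0, 0, 0), (122, 0, 0, 0, 0), (147, 0, 0, 0, 0), (148, 0, 0, 0, 0), (147, 0, 0, 0, 0), (149, 0, 0, 0, 0), (148, 0, 0, 0, 0), (149, 0, 0, 0, 0), (159, 0, 0, 0, 0), (160, 0, 0, 0, 0), (159, 0, 0, 0, 0), (161, 0, 0, 0, 0), (160, 0, 0, 0, 0), (161, 0, 0, 0, 0), (171, 0, 0, 0, 0), (172, 0, 0, 0, 0),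 (171, 0, 0, 0, 0), (173, 0, 0, 0, 0), (172, 0, 0, 0, 0), (173, 0, 0, 0, 0), (123, 0, 0, 0, 0), (124, 0, 0, 0, 0), (123, 0, 0, 0, 0), (125, 0, 0, 0, 0), (124, 0, 0, 0, 0), (125, 0, 0, 0, 0), (135, 0, 0, 0, 0), (136, 0, 0, 0, 0), (135, 0, 0, 0, 0), (137, 0, 0, 0, 0), (136, 0, 0, 0, 0), (137, 0, 0, 0, 0), (162, 0, 0, 0, 0), (163, 0, 0, 0, 0), (162, 0, 0, 0, 0), (164, 0, 0, 0, 0), (163, 0, 0, 0, 0), (164, 0, 0, 0, 0), (174, 0, 0, 0, 0), (175, 0, 0, 0, 0), (174, 0, 0, 0, 0), (176, 0, 0, 0, 0), (175, 0, 0, 0, 0), (176, 0, 0, 0, 0), (126, 0, 0, 0, 0), (127, 0, 0, 0, 0), (126, 0, 0, 0, 0), (128, 0, 0, 0, 0), (127, 0, 0, 0, 0), (128, 0, 0, 0, 0), (138, 0, 0, 0, 0), (139, 0, 0, 0, 0), (138, 0, 0, 0, 0), (140, 0, 0, 0, 0), (139, 0, 0, 0, 0), (140, 0, 0, 0, 0), (150, 0, 0, 0, 0), (151, 0, 0, 0, 0), (150, 0, 0, 0, 0), (152, 0, 0, 0, 0), (151,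 0, 0, 0, 0), (152, 0, 0, 0, 0), (177, 0, 0, 0, 0), (178, 0, 0, 0, 0), (177, 0, 0, 0, 0), (179, 0, 0, 0, 0), (178, 0, 0, 0, 0), (179, 0, 0, 0, 0), (129, 0, 0, 0, 0), (130, 0, 0, 0, 0), (129, 0, 0, 0, 0), (131, 0, 0, 0, 0), (130, 0, 0, 0, 0), (131, 0, 0, 0, 0), (141, 0, 0, 0, 0), (142, 0, 0, 0, 0), (141, 0, 0, 0, 0), (143, 0, 0, 0, 0), (142, 0, 0, 0, 0), (143, 0, 0, 0, 0), (153, 0, 0, 0, 0), (154, 0, 0, 0, 0), (153, 0, 0, 0, 0), (155, 0, 0, 0, 0), (154, 0, 0, 0, 0), (155, 0, 0, 0, 0), (165, 0, 0, 0, 0), (166, 0, 0, 0, 0), (165, 0, 0, 0, 0), (167, 0, 0, 0, 0), (166, 0, 0, 0, 0), (167, 0, 0, 0, 0)],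
  [(72, 0, 0, 0, 0), (73, 0, 0, 0, 0), (72, 0, 0, 0, 0), (74, 0, 0, 0, 0), (73, 0, 0, 0, 0), (74, 0, 0, 0, 0), (84, 0, 0, 0, 0), (85, 0, 0, 0, 0), (84, 0, 0, 0, 0), (86, 0, 0, 0, 0), (85, 0, 0, 0, 0), (86, 0, 0, 0, 0), (96, 0, 0, 0, 0), (97, 0, 0, 0, 0), (96, 0, 0, 0, 0), (98, 0, 0, 0, 0), (97, 0, 0, 0, 0), (98, 0, 0, 0, 0), (108, 0, 0, 0, 0), (109, 0, 0, 0, 0), (108, 0, 0, 0, 0), (110, 0, 0, 0, 0), (109, 0, 0, 0, 0), (110, 0, 0, 0, 0), (60, 0, 0, 0, 0), (61, 0, 0, 0, 0), (60, 0, 0, 0, 0), (62, 0, 0, 0, 0), (61, 0, 0, 0, 0), (62, 0, 0, 0, 0), (87, 0, 0, 0, 0), (88, 0, 0, 0, 0), (87, 0, 0, 0, 0), (89, 0, 0, 0, 0), (88, 0, 0, 0, 0), (89, 0, 0, 0, 0), (99, 0, 0, 0, 0), (100, 0, 0, 0, 0), (99, 0, 0, 0, 0), (101, 0, 0, 0, 0), (100, 0, 0, 0, 0), (101, 0, 0, 0, 0), (111, 0, 0, 0, 0), (112, 0, 0, 0, 0), (111, 0, 0, 0, 0), (113, 0, 0,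 0, 0), (112, 0, 0, 0, 0), (113, 0, 0, 0, 0), (63, 0, 0, 0, 0), (64, 0, 0, 0, 0), (63, 0, 0, 0, 0), (65, 0, 0, 0, 0), (64, 0, 0, 0, 0), (65, 0, 0, 0, 0), (75, 0, 0, 0, 0), (76, 0, 0, 0, 0), (75, 0, 0, 0, 0), (77, 0, 0, 0, 0), (76, 0, 0, 0, 0), (77, 0, 0, 0, 0), (102, 0, 0, 0, 0), (103, 0, 0, 0, 0), (102, 0, 0, 0, 0), (104, 0, 0, 0, 0), (103, 0, 0, 0, 0), (104, 0, 0, 0, 0), (114, 0, 0, 0, 0), (115, 0, 0, 0, 0), (114, 0, 0, 0, 0), (116, 0, 0, 0, 0), (115, 0, 0, 0, 0), (116, 0, 0, 0, 0), (66, 0, 0, 0, 0), (67, 0, 0, 0, 0), (66, 0, 0, 0, 0), (68, 0, 0, 0, 0), (67, 0, 0, 0, 0), (68, 0, 0, 0, 0), (78, 0, 0, 0, 0), (79, 0, 0, 0, 0), (78, 0, 0, 0, 0), (80, 0, 0, 0, 0), (79, 0, 0, 0, 0), (80, 0, 0, 0, 0), (90, 0, 0, 0, 0), (91, 0, 0, 0, 0), (90, 0, 0, 0, 0), (92, 0, 0, 0, 0), (91, 0, 0, 0, 0), (92, 0, 0, 0, 0), (117, 0, 0, 0, 0), (118,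 0, 0, 0, 0), (117, 0, 0, 0, 0), (119, 0, 0, 0, 0), (118, 0, 0, 0, 0), (119, 0, 0, 0, 0), (69, 0, 0, 0, 0), (70, 0, 0, 0, 0), (69, 0, 0, 0, 0), (71, 0, 0, 0, 0), (70, 0, 0, 0, 0), (71, 0, 0, 0, 0), (81, 0, 0, 0, 0), (82, 0, 0, 0, 0), (81, 0, 0, 0, 0), (83, 0, 0, 0, 0), (82, 0, 0, 0, 0), (83, 0, 0, 0, 0), (93, 0, 0, 0, 0), (94, 0, 0, 0, 0), (93, 0, 0, 0, 0), (95, 0, 0, 0, 0), (94, 0, 0, 0, 0), (95, 0, 0, 0, 0), (105, 0, 0, 0, 0), (106, 0, 0, 0, 0), (105, 0, 0, 0, 0), (107, 0, 0, 0, 0), (106, 0, 0, 0, 0), (107, 0, 0, 0, 0)]]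

def m22_1 : Base := (0, 1, [(0, [0], [0, 5]), (0, [1], [1, 2]), (0, [2], [3, 4]), (4, [], [5])])

def l22_1 : Cov := [(2880, 0, 1, [(0, [0], [0, 5]), (0, [1], [1, 2]), (0, [2], [3, 4]), (4, [], [5])]),
  (2880, 0, 1, [(0, [0], [0, 5]), (0, [1], [1, 3]), (0, [2], [2, 4]), (4, [], [5])]),
  (2880, 0, 1, [(0, [0], [0, 5]), (0, [1], [1, 4]), (0, [2], [2, 3]), (4, [], [5])]),
  (2880, 0, 1, [(0, [0], [0, 5]), (0, [1], [2, 3]), (0, [2], [1, 4]), (4, [], [5])]),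
  (2880, 0, 1, [(0, [0], [0, 5]), (0, [1], [2, 4]), (0, [2], [1, 3]), (4, [], [5])]),
  (2880, 0, 1, [(0, [0], [0, 5]), (0, [1], [3, 4]), (0, [2], [1, 2]), (4, [], [5])]),
  (2880, 0, 1, [(0, [0], [1, 5]), (0, [1], [0, 2]), (0, [2], [3, 4]), (4, [], [5])]),
  (2880, 0, 1, [(0, [0], [1, 5]), (0, [1], [0, 3]), (0, [2], [2, 4]), (4, [], [5])]),
  (2880, 0, 1, [(0, [0], [1, 5]), (0, [1], [0, 4]), (0, [2], [2, 3]), (4, [], [5])]),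
  (2880, 0, 1, [(0, [0], [1, 5]), (0, [1], [2, 3]), (0, [2], [0, 4]), (4, [], [5])]),
  (2880, 0, 1, [(0, [0], [1, 5]), (0, [1], [2, 4]), (0, [2], [0, 3]), (4, [], [5])]),
  (2880, 0, 1, [(0, [0], [1, 5]), (0, [1], [3, 4]), (0, [2], [0, 2]), (4, [], [5])]),
  (2880, 0, 1, [(0, [0], [2, 5]), (0, [1], [0, 1]), (0, [2], [3, 4]), (4, [], [5])]),
  (2880, 0, 1, [(0, [0], [2, 5]), (0, [1], [0, 3]), (0, [2], [1, 4]), (4, [], [5])]),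
  (2880, 0, 1, [(0, [0], [2, 5]), (0, [1], [0, 4]), (0, [2], [1, 3]), (4, [], [5])]),
  (2880, 0, 1, [(0, [0], [2, 5]), (0, [1], [1, 3]), (0, [2], [0, 4]), (4, [], [5])]),
  (2880, 0, 1, [(0, [0], [2, 5]), (0, [1], [1, 4]), (0, [2], [0, 3]), (4, [], [5])]),
  (2880, 0, 1, [(0, [0], [2, 5]), (0, [1], [3, 4]), (0, [2], [0, 1]), (4, [], [5])]),
  (2880, 0, 1, [(0, [0], [3, 5]), (0, [1], [0, 1]), (0, [2], [2, 4]), (4, [], [5])]),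
  (2880, 0, 1, [(0, [0], [3, 5]), (0, [1], [0, 2]), (0, [2], [1, 4]), (4, [], [5])]),
  (2880, 0, 1, [(0, [0], [3, 5]), (0, [1], [0, 4]), (0, [2], [1, 2]), (4, [], [5])]),
  (2880, 0, 1, [(0, [0], [3, 5]), (0, [1], [1, 2]), (0, [2], [0, 4]), (4, [], [5])]),
  (2880, 0, 1, [(0, [0], [3, 5]), (0, [1], [1, 4]), (0, [2], [0, 2]), (4, [], [5])]),
  (2880, 0, 1, [(0, [0], [3, 5]), (0, [1], [2, 4]), (0, [2], [0, 1]), (4, [], [5])]),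
  (2880, 0, 1, [(0, [0], [4, 5]), (0, [1], [0, 1]), (0, [2], [2, 3]), (4, [], [5])]),
  (2880, 0, 1, [(0, [0], [4, 5]), (0, [1], [0, 2]), (0, [2], [1, 3]), (4, [], [5])]),
  (2880, 0, 1, [(0, [0], [4, 5]), (0, [1], [0, 3]), (0, [2], [1, 2]), (4, [], [5])]),
  (2880, 0, 1, [(0, [0], [4, 5]), (0, [1], [1, 2]), (0, [2], [0, 3]), (4, [], [5])]),
  (2880, 0, 1, [(0, [0], [4, 5]), (0, [1], [1, 3]), (0, [2], [0, 2]), (4, [], [5])]),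
  (2880, 0, 1, [(0, [0], [4, 5]), (0, [1], [2, 3]), (0, [2], [0, 1]), (4, [], [5])]),
  (-2880, 0, 1, [(0, [2], [0, 5]), (0, [0], [1, 2]), (0, [1], [3, 4]), (4, [], [5])]),
  (-2880, 0, 1, [(0, [2], [0, 5]), (0, [0], [1, 3]), (0, [1], [2, 4]), (4, [], [5])]),
  (-2880, 0, 1, [(0, [2], [0, 5]), (0, [0], [1, 4]), (0, [1], [2, 3]), (4, [], [5])]),
  (-2880, 0, 1, [(0, [2], [0, 5]), (0, [0], [2, 3]), (0, [1], [1, 4]), (4, [], [5])]),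
  (-2880, 0, 1, [(0, [2], [0, 5]), (0, [0], [2, 4]), (0, [1], [1, 3]), (4, [], [5])]),
  (-2880, 0, 1, [(0, [2], [0, 5]), (0, [0], [3, 4]), (0, [1], [1, 2]), (4, [], [5])]),
  (-2880, 0, 1, [(0, [2], [1, 5]), (0, [0], [0, 2]), (0, [1], [3, 4]), (4, [], [5])]),
  (-2880, 0, 1, [(0, [2], [1, 5]), (0, [0], [0, 3]), (0, [1], [2, 4]), (4, [], [5])]),
  (-2880, 0, 1, [(0, [2], [1, 5]), (0, [0], [0, 4]), (0, [1], [2, 3]), (4, [], [5])]),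
  (-2880, 0, 1, [(0, [2], [1, 5]), (0, [0], [2, 3]), (0, [1], [0, 4]), (4, [], [5])]),
  (-2880, 0, 1, [(0, [2], [1, 5]), (0, [0], [2, 4]), (0, [1], [0, 3]), (4, [], [5])]),
  (-2880, 0, 1, [(0, [2], [1, 5]), (0, [0], [3, 4]), (0, [1], [0, 2]), (4, [], [5])]),
  (-2880, 0, 1, [(0, [2], [2, 5]), (0, [0], [0, 1]), (0, [1], [3, 4]), (4, [], [5])]),
  (-2880, 0, 1, [(0, [2], [2, 5]), (0, [0], [0, 3]), (0, [1], [1, 4]), (4, [], [5])]),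
  (-2880, 0, 1, [(0, [2], [2, 5]), (0, [0], [0, 4]), (0, [1], [1, 3]), (4, [], [5])]),
  (-2880, 0, 1, [(0, [2], [2, 5]), (0, [0], [1, 3]), (0, [1], [0, 4]), (4, [], [5])]),
  (-2880, 0, 1, [(0, [2], [2, 5]), (0, [0], [1, 4]), (0, [1], [0, 3]), (4, [], [5])]),
  (-2880, 0, 1, [(0, [2], [2, 5]), (0, [0], [3, 4]), (0, [1], [0, 1]), (4, [], [5])]),
  (-2880, 0, 1, [(0, [2], [3, 5]), (0, [0], [0, 1]), (0, [1], [2, 4]), (4, [], [5])]),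
  (-2880, 0, 1, [(0, [2], [3, 5]), (0, [0], [0, 2]), (0, [1], [1, 4]), (4, [], [5])]),
  (-2880, 0, 1, [(0, [2], [3, 5]), (0, [0], [0, 4]), (0, [1], [1, 2]), (4, [], [5])]),
  (-2880, 0, 1, [(0, [2], [3, 5]), (0, [0], [1, 2]), (0, [1], [0, 4]), (4, [], [5])]),
  (-2880, 0, 1, [(0, [2], [3, 5]), (0, [0], [1, 4]), (0, [1], [0, 2]), (4, [], [5])]),
  (-2880, 0, 1, [(0, [2], [3, 5]), (0, [0], [2, 4]), (0, [1], [0, 1]), (4, [], [5])]),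
  (-2880, 0, 1, [(0, [2], [4, 5]), (0, [0], [0, 1]), (0, [1], [2, 3]), (4, [], [5])]),
  (-2880, 0, 1, [(0, [2], [4, 5]), (0, [0], [0, 2]), (0, [1], [1, 3]), (4, [], [5])]),
  (-2880, 0, 1, [(0, [2], [4, 5]), (0, [0], [0, 3]), (0, [1], [1, 2]), (4, [], [5])]),
  (-2880, 0, 1, [(0, [2], [4, 5]), (0, [0], [1, 2]), (0, [1], [0, 3]), (4, [], [5])]),
  (-2880, 0, 1, [(0, [2], [4, 5]), (0, [0], [1, 3]), (0, [1], [0, 2]), (4, [], [5])]),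
  (-2880, 0, 1, [(0, [2], [4, 5]), (0, [0], [2, 3]), (0, [1], [0, 1]), (4, [], [5])])]

def z22_1 : Cov := [(0, 0, 1, [(0, [1], [0, 5]), (0, [0], [1, 2]), (0, [2], [3, 4]), (4, [], [5])]),
  (0, 0, 1, [(0, [1], [0, 5]), (0, [0], [1, 3]), (0, [2], [2, 4]), (4, [], [5])]),
  (0, 0, 1, [(0, [1], [0, 5]), (0, [0], [1, 4]), (0, [2], [2, 3]), (4, [], [5])]),
  (0, 0, 1, [(0, [1], [0, 5]), (0, [0], [2, 3]), (0, [2], [1, 4]), (4, [], [5])]),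
  (0, 0, 1, [(0, [1], [0, 5]), (0, [0], [2, 4]), (0, [2], [1, 3]), (4, [], [5])]),
  (0, 0, 1, [(0, [1], [0, 5]), (0, [0], [3, 4]), (0, [2], [1, 2]), (4, [], [5])]),
  (0, 0, 1, [(0, [1], [1, 5]), (0, [0], [0, 2]), (0, [2], [3, 4]), (4, [], [5])]),
  (0, 0, 1, [(0, [1], [1, 5]), (0, [0], [0, 3]), (0, [2], [2, 4]), (4, [], [5])]),
  (0, 0, 1, [(0, [1], [1, 5]), (0, [0], [0, 4]), (0, [2], [2, 3]), (4, [], [5])]),
  (0, 0, 1, [(0, [1], [1, 5]), (0, [0], [2, 3]), (0, [2], [0, 4]), (4, [], [5])]),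
  (0, 0, 1, [(0, [1], [1, 5]), (0, [0], [2, 4]), (0, [2], [0, 3]), (4, [], [5])]),
  (0, 0, 1, [(0, [1], [1, 5]), (0, [0], [3, 4]), (0, [2], [0, 2]), (4, [], [5])]),
  (0, 0, 1, [(0, [1], [2, 5]), (0, [0], [0, 1]), (0, [2], [3, 4]), (4, [], [5])]),
  (0, 0, 1, [(0, [1], [2, 5]), (0, [0], [0, 3]), (0, [2], [1, 4]), (4, [], [5])]),
  (0, 0, 1, [(0, [1], [2, 5]), (0, [0], [0, 4]), (0, [2], [1, 3]), (4, [], [5])]),
  (0, 0, 1, [(0, [1], [2, 5]), (0, [0], [1, 3]), (0, [2], [0, 4]), (4, [], [5])]),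
  (0, 0, 1, [(0, [1], [2, 5]), (0, [0], [1, 4]), (0, [2], [0, 3]), (4, [], [5])]),
  (0, 0, 1, [(0, [1], [2, 5]), (0, [0], [3, 4]), (0, [2], [0, 1]), (4, [], [5])]),
  (0, 0, 1, [(0, [1], [3, 5]), (0, [0], [0, 1]), (0, [2], [2, 4]), (4, [], [5])]),
  (0, 0, 1, [(0, [1], [3, 5]), (0, [0], [0, 2]), (0, [2], [1, 4]), (4, [], [5])]),
  (0, 0, 1, [(0, [1], [3, 5]), (0, [0], [0, 4]), (0, [2], [1, 2]), (4, [], [5])]),
  (0, 0, 1, [(0, [1], [3, 5]), (0, [0], [1, 2]), (0, [2], [0, 4]), (4, [], [5])]),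
  (0, 0, 1, [(0, [1], [3, 5]), (0, [0], [1, 4]), (0, [2], [0, 2]), (4, [], [5])]),
  (0, 0, 1, [(0, [1], [3, 5]), (0, [0], [2, 4]), (0, [2], [0, 1]), (4, [], [5])]),
  (0, 0, 1, [(0, [1], [4, 5]), (0, [0], [0, 1]), (0, [2], [2, 3]), (4, [], [5])]),
  (0, 0, 1, [(0, [1], [4, 5]), (0, [0], [0, 2]), (0, [2], [1, 3]), (4, [], [5])]),
  (0, 0, 1, [(0, [1], [4, 5]), (0, [0], [0, 3]), (0, [2], [1, 2]), (4, [], [5])]),
  (0, 0, 1, [(0, [1], [4, 5]), (0, [0], [1, 2]), (0, [2], [0, 3]), (4, [], [5])]),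
  (0, 0, 1, [(0, [1], [4, 5]), (0, [0], [1, 3]), (0, [2], [0, 2]), (4, [], [5])]),
  (0, 0, 1, [(0, [1], [4, 5]), (0, [0], [2, 3]), (0, [2], [0, 1]), (4, [], [5])])]

def w22_1 : List (List Wit) := [[(0, 0, 0, 0, 0), (0, 0, 0, 0, 0), (1, 0, 0, 0, 0), (1, 0, 0, 0, 0), (2, 0, 0, 0, 0), (2, 0, 0, 0, 0), (0, 0, 0, 0, 0), (0, 0, 0, 0, 0), (3, 0, 0, 0, 0), (3, 0, 0, 0, 0), (4, 0, 0, 0, 0), (4, 0, 0, 0, 0), (1, 0, 0, 0, 0), (1, 0, 0, 0, 0), (3, 0, 0, 0, 0), (3, 0, 0, 0, 0), (5, 0, 0, 0, 0), (5, 0, 0, 0, 0), (2, 0, 0, 0, 0), (2, 0, 0, 0, 0), (4, 0, 0, 0, 0), (4, 0, 0, 0, 0), (5, 0, 0, 0, 0), (5, 0, 0, 0, 0), (6, 0, 0, 0, 0), (6, 0, 0, 0, 0), (7, 0, 0, 0, 0), (7, 0, 0, 0, 0), (8, 0, 0, 0, 0), (8, 0, 0, 0, 0), (6, 0, 0, 0, 0), (6, 0, 0, 0, 0), (9, 0, 0, 0, 0), (9, 0, 0, 0, 0), (10, 0, 0, 0, 0), (10, 0, 0, 0, 0), (7, 0, 0, 0, 0), (7, 0,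 0, 0, 0), (9, 0, 0, 0, 0), (9, 0, 0, 0, 0), (11, 0, 0, 0, 0), (11, 0, 0, 0, 0), (8, 0, 0, 0, 0), (8, 0, 0, 0, 0), (10, 0, 0, 0, 0), (10, 0, 0, 0, 0), (11, 0, 0, 0, 0), (11, 0, 0, 0, 0), (12, 0, 0, 0, 0), (12, 0, 0, 0, 0), (13, 0, 0, 0, 0), (13, 0, 0, 0, 0), (14, 0, 0, 0, 0), (14, 0, 0, 0, 0), (12, 0, 0, 0, 0), (12, 0, 0, 0, 0), (15, 0, 0, 0, 0), (15, 0, 0, 0, 0), (16, 0, 0, 0, 0), (16, 0, 0, 0, 0), (13, 0, 0, 0, 0), (13, 0, 0, 0, 0), (15, 0, 0, 0, 0), (15, 0, 0, 0, 0), (17, 0, 0, 0, 0), (17, 0, 0, 0, 0), (14, 0, 0, 0, 0), (14, 0, 0, 0, 0), (16, 0, 0, 0, 0), (16, 0, 0, 0, 0), (17, 0, 0, 0, 0), (17, 0, 0, 0, 0), (18, 0, 0, 0, 0), (18, 0, 0, 0, 0), (19, 0, 0, 0, 0), (19, 0, 0, 0, 0), (20, 0, 0, 0, 0), (20, 0, 0, 0, 0), (18, 0, 0, 0, 0), (18, 0, 0, 0, 0), (21, 0, 0, 0, 0), (21, 0, 0, 0, 0), (22, 0, 0, 0, 0), (22, 0, 0, 0, 0), (19,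 0, 0, 0, 0), (19, 0, 0, 0, 0), (21, 0, 0, 0, 0), (21, 0, 0, 0, 0), (23, 0, 0, 0, 0), (23, 0, 0, 0, 0), (20, 0, 0, 0, 0), (20, 0, 0, 0, 0), (22, 0, 0, 0, 0), (22, 0, 0, 0, 0), (23, 0, 0, 0, 0), (23, 0, 0, 0, 0), (24, 0, 0, 0, 0), (24, 0, 0, 0, 0), (25, 0, 0, 0, 0), (25, 0, 0, 0, 0), (26, 0, 0, 0, 0), (26, 0, 0, 0, 0), (24, 0, 0, 0, 0), (24, 0, 0, 0, 0), (27, 0, 0, 0, 0), (27, 0, 0, 0, 0), (28, 0, 0, 0, 0), (28, 0, 0, 0, 0), (25, 0, 0, 0, 0), (25, 0, 0, 0, 0), (27, 0, 0, 0, 0), (27, 0, 0, 0, 0), (29, 0, 0, 0, 0), (29, 0, 0, 0, 0), (26, 0, 0, 0, 0), (26, 0, 0, 0, 0), (28, 0, 0, 0, 0), (28, 0, 0, 0, 0), (29, 0, 0, 0, 0), (29, 0, 0, 0, 0)],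
  [(5, 0, 0, 0, 0), (5, 0, 0, 0, 0), (4, 0, 0, 0, 0), (4, 0, 0, 0, 0), (3, 0, 0, 0, 0), (3, 0, 0, 0, 0), (5, 0, 0, 0, 0), (5, 0, 0, 0, 0), (2, 0, 0, 0, 0), (2, 0, 0, 0, 0), (1, 0, 0, 0, 0), (1, 0, 0, 0, 0), (4, 0, 0, 0, 0), (4, 0, 0, 0, 0), (2, 0, 0, 0, 0), (2, 0, 0, 0, 0), (0, 0, 0, 0, 0), (0, 0, 0, 0, 0), (3, 0, 0, 0, 0), (3, 0, 0, 0, 0), (1, 0, 0, 0, 0), (1, 0, 0, 0, 0), (0, 0, 0, 0, 0), (0, 0, 0, 0, 0), (11, 0, 0, 0, 0), (11, 0, 0, 0, 0), (10, 0, 0, 0, 0), (10, 0, 0, 0, 0), (9, 0, 0, 0, 0), (9, 0, 0, 0, 0), (11, 0, 0, 0, 0), (11, 0, 0, 0, 0), (8, 0, 0, 0, 0), (8, 0, 0, 0, 0), (7, 0, 0, 0, 0), (7, 0, 0, 0, 0), (10, 0, 0, 0, 0), (10, 0, 0, 0, 0), (8, 0, 0, 0, 0), (8, 0, 0, 0, 0), (6, 0, 0, 0, 0), (6, 0, 0, 0, 0), (9, 0, 0, 0, 0), (9, 0, 0, 0, 0), (7, 0, 0, 0, 0), (7, 0, 0, 0, 0), (6, 0, 0, 0, 0), (6, 0, 0, 0, 0), (17, 0, 0,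 0, 0), (17, 0, 0, 0, 0), (16, 0, 0, 0, 0), (16, 0, 0, 0, 0), (15, 0, 0, 0, 0), (15, 0, 0, 0, 0), (17, 0, 0, 0, 0), (17, 0, 0, 0, 0), (14, 0, 0, 0, 0), (14, 0, 0, 0, 0), (13, 0, 0, 0, 0), (13, 0, 0, 0, 0), (16, 0, 0, 0, 0), (16, 0, 0, 0, 0), (14, 0, 0, 0, 0), (14, 0, 0, 0, 0), (12, 0, 0, 0, 0), (12, 0, 0, 0, 0), (15, 0, 0, 0, 0), (15, 0, 0, 0, 0), (13, 0, 0, 0, 0), (13, 0, 0, 0, 0), (12, 0, 0, 0, 0), (12, 0, 0, 0, 0), (23, 0, 0, 0, 0), (23, 0, 0, 0, 0), (22, 0, 0, 0, 0), (22, 0, 0, 0, 0), (21, 0, 0, 0, 0), (21, 0, 0, 0, 0), (23, 0, 0, 0, 0), (23, 0, 0, 0, 0), (20, 0, 0, 0, 0), (20, 0, 0, 0, 0), (19, 0, 0, 0, 0), (19, 0, 0, 0, 0), (22, 0, 0, 0, 0), (22, 0, 0, 0, 0), (20, 0, 0, 0, 0), (20, 0, 0, 0, 0), (18, 0, 0, 0, 0), (18, 0, 0, 0, 0), (21, 0, 0, 0, 0), (21, 0, 0, 0, 0), (19, 0, 0, 0, 0), (19, 0, 0, 0, 0), (18, 0, 0, 0, 0), (18,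 0, 0, 0, 0), (29, 0, 0, 0, 0), (29, 0, 0, 0, 0), (28, 0, 0, 0, 0), (28, 0, 0, 0, 0), (27, 0, 0, 0, 0), (27, 0, 0, 0, 0), (29, 0, 0, 0, 0), (29, 0, 0, 0, 0), (26, 0, 0, 0, 0), (26, 0, 0, 0, 0), (25, 0, 0, 0, 0), (25, 0, 0, 0, 0), (28, 0, 0, 0, 0), (28, 0, 0, 0, 0), (26, 0, 0, 0, 0), (26, 0, 0, 0, 0), (24, 0, 0, 0, 0), (24, 0, 0, 0, 0), (27, 0, 0, 0, 0), (27, 0, 0, 0, 0), (25, 0, 0, 0, 0), (25, 0, 0, 0, 0), (24, 0, 0, 0, 0), (24, 0, 0, 0, 0)],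
  [(60, 0, 0, 0, 0), (60, 0, 0, 0, 0), (61, 0, 0, 0, 0), (61, 0, 0, 0, 0), (62, 0, 0, 0, 0), (62, 0, 0, 0, 0), (60, 0, 0, 0, 0), (60, 0, 0, 0, 0), (63, 0, 0, 0, 0), (63, 0, 0, 0, 0), (64, 0, 0, 0, 0), (64, 0, 0, 0, 0), (61, 0, 0, 0, 0), (61, 0, 0, 0, 0), (63, 0, 0, 0, 0), (63, 0, 0, 0, 0), (65, 0, 0, 0, 0), (65, 0, 0, 0, 0), (62, 0, 0, 0, 0), (62, 0, 0, 0, 0), (64, 0, 0, 0, 0), (64, 0, 0, 0, 0), (65, 0, 0, 0, 0), (65, 0, 0, 0, 0), (66, 0, 0, 0, 0), (66, 0, 0, 0, 0), (67, 0, 0, 0, 0), (67, 0, 0, 0, 0), (68, 0, 0, 0, 0), (68, 0, 0, 0, 0), (66, 0, 0, 0, 0), (66, 0, 0, 0, 0), (69, 0, 0, 0, 0), (69, 0, 0, 0, 0), (70, 0, 0, 0, 0), (70, 0, 0, 0, 0), (67, 0, 0, 0, 0), (67, 0, 0, 0, 0), (69, 0, 0, 0, 0), (69, 0, 0, 0, 0), (71, 0, 0, 0, 0), (71, 0, 0, 0, 0), (68, 0, 0, 0, 0), (68, 0, 0, 0, 0), (70, 0, 0, 0, 0), (70, 0, 0, 0, 0), (71, 0,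 0, 0, 0), (71, 0, 0, 0, 0), (72, 0, 0, 0, 0), (72, 0, 0, 0, 0), (73, 0, 0, 0, 0), (73, 0, 0, 0, 0), (74, 0, 0, 0, 0), (74, 0, 0, 0, 0), (72, 0, 0, 0, 0), (72, 0, 0, 0, 0), (75, 0, 0, 0, 0), (75, 0, 0, 0, 0), (76, 0, 0, 0, 0), (76, 0, 0, 0, 0), (73, 0, 0, 0, 0), (73, 0, 0, 0, 0), (75, 0, 0, 0, 0), (75, 0, 0, 0, 0), (77, 0, 0, 0, 0), (77, 0, 0, 0, 0), (74, 0, 0, 0, 0), (74, 0, 0, 0, 0), (76, 0, 0, 0, 0), (76, 0, 0, 0, 0), (77, 0, 0, 0, 0), (77, 0, 0, 0, 0), (78, 0, 0, 0, 0), (78, 0, 0, 0, 0), (79, 0, 0, 0, 0), (79, 0, 0, 0, 0), (80, 0, 0, 0, 0), (80, 0, 0, 0, 0), (78, 0, 0, 0, 0), (78, 0, 0, 0, 0), (81, 0, 0, 0, 0), (81, 0, 0, 0, 0), (82, 0, 0, 0, 0), (82, 0, 0, 0, 0), (79, 0, 0, 0, 0), (79, 0, 0, 0, 0), (81, 0, 0, 0, 0), (81, 0, 0, 0, 0), (83, 0, 0, 0, 0), (83, 0, 0, 0, 0), (80, 0, 0, 0, 0), (80, 0, 0, 0, 0), (82, 0, 0, 0, 0),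 (82, 0, 0, 0, 0), (83, 0, 0, 0, 0), (83, 0, 0, 0, 0), (84, 0, 0, 0, 0), (84, 0, 0, 0, 0), (85, 0, 0, 0, 0), (85, 0, 0, 0, 0), (86, 0, 0, 0, 0), (86, 0, 0, 0, 0), (84, 0, 0, 0, 0), (84, 0, 0, 0, 0), (87, 0, 0, 0, 0), (87, 0, 0, 0, 0), (88, 0, 0, 0, 0), (88, 0, 0, 0, 0), (85, 0, 0, 0, 0), (85, 0, 0, 0, 0), (87, 0, 0, 0, 0), (87, 0, 0, 0, 0), (89, 0, 0, 0, 0), (89, 0, 0, 0, 0), (86, 0, 0, 0, 0), (86, 0, 0, 0, 0), (88, 0, 0, 0, 0), (88, 0, 0, 0, 0), (89, 0, 0, 0, 0), (89, 0, 0, 0, 0)],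
  [(65, 0, 0, 0, 0), (65, 0, 0, 0, 0), (64, 0, 0, 0, 0), (64, 0, 0, 0, 0), (63, 0, 0, 0, 0), (63, 0, 0, 0, 0), (65, 0, 0, 0, 0), (65, 0, 0, 0, 0), (62, 0, 0, 0, 0), (62, 0, 0, 0, 0), (61, 0, 0, 0, 0), (61, 0, 0, 0, 0), (64, 0, 0, 0, 0), (64, 0, 0, 0, 0), (62, 0, 0, 0, 0), (62, 0, 0, 0, 0), (60, 0, 0, 0, 0), (60, 0, 0, 0, 0), (63, 0, 0, 0, 0), (63, 0, 0, 0, 0), (61, 0, 0, 0, 0), (61, 0, 0, 0, 0), (60, 0, 0, 0, 0), (60, 0, 0, 0, 0), (71, 0, 0, 0, 0), (71, 0, 0, 0, 0), (70, 0, 0, 0, 0), (70, 0, 0, 0, 0), (69, 0, 0, 0, 0), (69, 0, 0, 0, 0), (71, 0, 0, 0, 0), (71, 0, 0, 0, 0), (68, 0, 0, 0, 0), (68, 0, 0, 0, 0), (67, 0, 0, 0, 0), (67, 0, 0, 0, 0), (70, 0, 0, 0, 0), (70, 0, 0, 0, 0), (68, 0, 0, 0, 0), (68, 0, 0, 0, 0), (66, 0, 0, 0, 0), (66, 0, 0, 0, 0), (69, 0, 0, 0, 0), (69, 0, 0, 0, 0), (67, 0, 0, 0, 0), (67, 0, 0, 0, 0), (66, 0,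 0, 0, 0), (66, 0, 0, 0, 0), (77, 0, 0, 0, 0), (77, 0, 0, 0, 0), (76, 0, 0, 0, 0), (76, 0, 0, 0, 0), (75, 0, 0, 0, 0), (75, 0, 0, 0, 0), (77, 0, 0, 0, 0), (77, 0, 0, 0, 0), (74, 0, 0, 0, 0), (74, 0, 0, 0, 0), (73, 0, 0, 0, 0), (73, 0, 0, 0, 0), (76, 0, 0, 0, 0), (76, 0, 0, 0, 0), (74, 0, 0, 0, 0), (74, 0, 0, 0, 0), (72, 0, 0, 0, 0), (72, 0, 0, 0, 0), (75, 0, 0, 0, 0), (75, 0, 0, 0, 0), (73, 0, 0, 0, 0), (73, 0, 0, 0, 0), (72, 0, 0, 0, 0), (72, 0, 0, 0, 0), (83, 0, 0, 0, 0), (83, 0, 0, 0, 0), (82, 0, 0, 0, 0), (82, 0, 0, 0, 0), (81, 0, 0, 0, 0), (81, 0, 0, 0, 0), (83, 0, 0, 0, 0), (83, 0, 0, 0, 0), (80, 0, 0, 0, 0), (80, 0, 0, 0, 0), (79, 0, 0, 0, 0), (79, 0, 0, 0, 0), (82, 0, 0, 0, 0), (82, 0, 0, 0, 0), (80, 0, 0, 0, 0), (80, 0, 0, 0, 0), (78, 0, 0, 0, 0), (78, 0, 0, 0, 0), (81, 0, 0, 0, 0), (81, 0, 0, 0, 0), (79, 0, 0, 0, 0),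 (79, 0, 0, 0, 0), (78, 0, 0, 0, 0), (78, 0, 0, 0, 0), (89, 0, 0, 0, 0), (89, 0, 0, 0, 0), (88, 0, 0, 0, 0), (88, 0, 0, 0, 0), (87, 0, 0, 0, 0), (87, 0, 0, 0, 0), (89, 0, 0, 0, 0), (89, 0, 0, 0, 0), (86, 0, 0, 0, 0), (86, 0, 0, 0, 0), (85, 0, 0, 0, 0), (85, 0, 0, 0, 0), (88, 0, 0, 0, 0), (88, 0, 0, 0, 0), (86, 0, 0, 0, 0), (86, 0, 0, 0, 0), (84, 0, 0, 0, 0), (84, 0, 0, 0, 0), (87, 0, 0, 0, 0), (87, 0, 0, 0, 0), (85, 0, 0, 0, 0), (85, 0, 0, 0, 0), (84, 0, 0, 0, 0), (84, 0, 0, 0, 0)],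
  [(30, 0, 0, 0, 0), (30, 0, 0, 0, 0), (31, 0, 0, 0, 0), (31, 0, 0, 0, 0), (32, 0, 0, 0, 0), (32, 0, 0, 0, 0), (30, 0, 0, 0, 0), (30, 0, 0, 0, 0), (33, 0, 0, 0, 0), (33, 0, 0, 0, 0), (34, 0, 0, 0, 0), (34, 0, 0, 0, 0), (31, 0, 0, 0, 0), (31, 0, 0, 0, 0), (33, 0, 0, 0, 0), (33, 0, 0, 0, 0), (35, 0, 0, 0, 0), (35, 0, 0, 0, 0), (32, 0, 0, 0, 0), (32, 0, 0, 0, 0), (34, 0, 0, 0, 0), (34, 0, 0, 0, 0), (35, 0, 0, 0, 0), (35, 0, 0, 0, 0), (36, 0, 0, 0, 0), (36, 0, 0, 0, 0), (37, 0, 0, 0, 0), (37, 0, 0, 0, 0), (38, 0, 0, 0, 0), (38, 0, 0, 0, 0), (36, 0, 0, 0, 0), (36, 0, 0, 0, 0), (39, 0, 0, 0, 0), (39, 0, 0, 0, 0), (40, 0, 0, 0, 0), (40, 0, 0, 0, 0), (37, 0, 0, 0, 0), (37, 0, 0, 0, 0), (39, 0, 0, 0, 0), (39, 0, 0, 0, 0), (41, 0, 0, 0, 0), (41, 0, 0, 0, 0), (38, 0, 0, 0, 0), (38, 0, 0, 0, 0), (40, 0, 0, 0, 0), (40, 0, 0, 0, 0), (41, 0,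 0, 0, 0), (41, 0, 0, 0, 0), (42, 0, 0, 0, 0), (42, 0, 0, 0, 0), (43, 0, 0, 0, 0), (43, 0, 0, 0, 0), (44, 0, 0, 0, 0), (44, 0, 0, 0, 0), (42, 0, 0, 0, 0), (42, 0, 0, 0, 0), (45, 0, 0, 0, 0), (45, 0, 0, 0, 0), (46, 0, 0, 0, 0), (46, 0, 0, 0, 0), (43, 0, 0, 0, 0), (43, 0, 0, 0, 0), (45, 0, 0, 0, 0), (45, 0, 0, 0, 0), (47, 0, 0, 0, 0), (47, 0, 0, 0, 0), (44, 0, 0, 0, 0), (44, 0, 0, 0, 0), (46, 0, 0, 0, 0), (46, 0, 0, 0, 0), (47, 0, 0, 0, 0), (47, 0, 0, 0, 0), (48, 0, 0, 0, 0), (48, 0, 0, 0, 0), (49, 0, 0, 0, 0), (49, 0, 0, 0, 0), (50, 0, 0, 0, 0), (50, 0, 0, 0, 0), (48, 0, 0, 0, 0), (48, 0, 0, 0, 0), (51, 0, 0, 0, 0), (51, 0, 0, 0, 0), (52, 0, 0, 0, 0), (52, 0, 0, 0, 0), (49, 0, 0, 0, 0), (49, 0, 0, 0, 0), (51, 0, 0, 0, 0), (51, 0, 0, 0, 0), (53, 0, 0, 0, 0), (53, 0, 0, 0, 0), (50, 0, 0, 0, 0), (50, 0, 0, 0, 0), (52, 0, 0, 0, 0),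 (52, 0, 0, 0, 0), (53, 0, 0, 0, 0), (53, 0, 0, 0, 0), (54, 0, 0, 0, 0), (54, 0, 0, 0, 0), (55, 0, 0, 0, 0), (55, 0, 0, 0, 0), (56, 0, 0, 0, 0), (56, 0, 0, 0, 0), (54, 0, 0, 0, 0), (54, 0, 0, 0, 0), (57, 0, 0, 0, 0), (57, 0, 0, 0, 0), (58, 0, 0, 0, 0), (58, 0, 0, 0, 0), (55, 0, 0, 0, 0), (55, 0, 0, 0, 0), (57, 0, 0, 0, 0), (57, 0, 0, 0, 0), (59, 0, 0, 0, 0), (59, 0, 0, 0, 0), (56, 0, 0, 0, 0), (56, 0, 0, 0, 0), (58, 0, 0, 0, 0), (58, 0, 0, 0, 0), (59, 0, 0, 0, 0), (59, 0, 0, 0, 0)],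
  [(35, 0, 0, 0, 0), (35, 0, 0, 0, 0), (34, 0, 0, 0, 0), (34, 0, 0, 0, 0), (33, 0, 0, 0, 0), (33, 0, 0, 0, 0), (35, 0, 0, 0, 0), (35, 0, 0, 0, 0), (32, 0, 0, 0, 0), (32, 0, 0, 0, 0), (31, 0, 0, 0, 0), (31, 0, 0, 0, 0), (34, 0, 0, 0, 0), (34, 0, 0, 0, 0), (32, 0, 0, 0, 0), (32, 0, 0, 0, 0), (30, 0, 0, 0, 0), (30, 0, 0, 0, 0), (33, 0, 0, 0, 0), (33, 0, 0, 0, 0), (31, 0, 0, 0, 0), (31, 0, 0, 0, 0), (30, 0, 0, 0, 0), (30, 0, 0, 0, 0), (41, 0, 0, 0, 0), (41, 0, 0, 0, 0), (40, 0, 0, 0, 0), (40, 0, 0, 0, 0), (39, 0, 0, 0, 0), (39, 0, 0, 0, 0), (41, 0, 0, 0, 0), (41, 0, 0, 0, 0), (38, 0, 0, 0, 0), (38, 0, 0, 0, 0), (37, 0, 0, 0, 0), (37, 0, 0, 0, 0), (40, 0, 0, 0, 0), (40, 0, 0, 0, 0), (38, 0, 0, 0, 0), (38, 0, 0, 0, 0), (36, 0, 0, 0, 0), (36, 0, 0, 0, 0), (39, 0, 0, 0, 0), (39, 0, 0, 0, 0), (37, 0, 0, 0, 0), (37, 0, 0, 0, 0), (36, 0,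 0, 0, 0), (36, 0, 0, 0, 0), (47, 0, 0, 0, 0), (47, 0, 0, 0, 0), (46, 0, 0, 0, 0), (46, 0, 0, 0, 0), (45, 0, 0, 0, 0), (45, 0, 0, 0, 0), (47, 0, 0, 0, 0), (47, 0, 0, 0, 0), (44, 0, 0, 0, 0), (44, 0, 0, 0, 0), (43, 0, 0, 0, 0), (43, 0, 0, 0, 0), (46, 0, 0, 0, 0), (46, 0, 0, 0, 0), (44, 0, 0, 0, 0), (44, 0, 0, 0, 0), (42, 0, 0, 0, 0), (42, 0, 0, 0, 0), (45, 0, 0, 0, 0), (45, 0, 0, 0, 0), (43, 0, 0, 0, 0), (43, 0, 0, 0, 0), (42, 0, 0, 0, 0), (42, 0, 0, 0, 0), (53, 0, 0, 0, 0), (53, 0, 0, 0, 0), (52, 0, 0, 0, 0), (52, 0, 0, 0, 0), (51, 0, 0, 0, 0), (51, 0, 0, 0, 0), (53, 0, 0, 0, 0), (53, 0, 0, 0, 0), (50, 0, 0, 0, 0), (50, 0, 0, 0, 0), (49, 0, 0, 0, 0), (49, 0, 0, 0, 0), (52, 0, 0, 0, 0), (52, 0, 0, 0, 0), (50, 0, 0, 0, 0), (50, 0, 0, 0, 0), (48, 0, 0, 0, 0), (48, 0, 0, 0, 0), (51, 0, 0, 0, 0), (51, 0, 0, 0, 0), (49, 0, 0, 0, 0),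 (49, 0, 0, 0, 0), (48, 0, 0, 0, 0), (48, 0, 0, 0, 0), (59, 0, 0, 0, 0), (59, 0, 0, 0, 0), (58, 0, 0, 0, 0), (58, 0, 0, 0, 0), (57, 0, 0, 0, 0), (57, 0, 0, 0, 0), (59, 0, 0, 0, 0), (59, 0, 0, 0, 0), (56, 0, 0, 0, 0), (56, 0, 0, 0, 0), (55, 0, 0, 0, 0), (55, 0, 0, 0, 0), (58, 0, 0, 0, 0), (58, 0, 0, 0, 0), (56, 0, 0, 0, 0), (56, 0, 0, 0, 0), (54, 0, 0, 0, 0), (54, 0, 0, 0, 0), (57, 0, 0, 0, 0), (57, 0, 0, 0, 0), (55, 0, 0, 0, 0), (55, 0, 0, 0, 0), (54, 0, 0, 0, 0), (54, 0, 0, 0, 0)]]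

theorem tr22 : trK keys lk22 kl22 = true := by
  decide +kernel

theorem x22_0 : expB 3 5 dg2 dg4 m22_0 (l22_0 ++ z22_0) w22_0 = true := by
  decide +kernel

theorem x22_1 : expB 3 5 dg2 dg4 m22_1 (l22_1 ++ z22_1) w22_1 = true := by
  decide +kernel

theorem t22_0_0 : chkS lk22 3 5 [(1, m22_0)] l22_0
  [(20, 33, 258, 103026771, 101975346), (24, 528, 528, 34891056, 52696656), (24, 528, 528, 34887216, 36968016), (23, 528, 528, 34887216, 36968016), (27, 528, 528, 34891056, 52696656), (12, 18, 18, 55640676, 22045251), (23, 528, 528, 34891056, 52696656), (27, 528, 528, 34887216, 36968016), (12, 18, 18, 55648356, 22045506), (12, 18, 18, 87429156, 73421106), (12, 18, 18, 87425316, 73421091), (14, 18, 18, 86380596, 73405746), (21, 33, 258, 87298146, 23351346), (33, 33, 258, 88215651, 23397426), (33, 33, 258, 88211811, 23397411), (28,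 18, 18, 55837026, 22306851), (39, 18, 18, 72552546, 22429746), (11, 18, 18, 54592101, 17130051), (28, 18, 18, 55840866, 22306866), (39, 18, 18, 72548706, 22429731), (11, 18, 18, 54599781, 17130306), (11, 33, 258, 70586466, 21385266), (11, 33, 258, 70582626, 21385251), (13, 33, 258, 69537891, 21366066), (28, 33, 258, 55836966, 5529891), (39, 33, 258, 72552486, 5652786), (11, 33, 258, 54592086, 1401411), (23, 513, 513, 34887171, 36963921), (27, 513, 513, 34891011, 52692561), (12, 33, 258, 55640646, 5333571), (44, 528, 528, 51733056, 54616656), (41, 513, 513, 50669076, 37774101), (41, 528, 528, 50684481, 54616581), (41, 33, 258, 73732131, 88473906), (27, 33, 258, 55837026, 22306851), (29, 33, 258, 56951076, 88105251), (28, 33, 258, 55840806, 5529906), (39, 33, 258, 72548646, 5652771), (11, 33, 258, 54599766, 1401666), (23, 513,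 513, 34891011, 52692561), (27, 513, 513, 34887171, 36963921), (12, 33, 258, 55648326, 5333826), (44, 528, 528, 51717696, 37839696), (41, 513, 513, 50684436, 54551061), (41, 528, 528, 50669121, 37839621), (41, 33, 258, 73728291, 88473891), (27, 33, 258, 55840866, 22306866), (29, 33, 258, 56954916, 88105266), (11, 18, 18, 70586406, 4608306), (11, 18, 18, 70582566, 4608291), (13, 18, 18, 69537846, 4592946), (12, 33, 258, 87429186, 73486386), (12, 33, 258, 87425346, 73486371), (14, 33, 258, 86380611, 73467186), (41, 18, 18, 73732146, 88477746), (29, 18, 18, 56951106, 88170531), (27, 18, 18, 55836966, 5529891), (41, 18, 18, 73728306, 88477731), (29, 18, 18, 56954946, 88170546), (27, 18, 18, 55840806, 5529906), (35, 33, 258, 55840806, 5529906), (38, 33, 258, 55840806, 5529906), (38, 33, 258, 55836966, 5529891), (28, 33, 258, 40112181,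 84153906), (11, 18, 18, 40177731, 88147506), (16, 513, 513, 33969171, 70387221), (28, 33, 258, 40108341, 84153891), (11, 18, 18, 40173891, 88147491), (16, 513, 513, 33965331, 69404181), (39, 33, 258, 40046661, 83969586), (39, 33, 258, 40042821, 83969571), (2, 513, 513, 19162416, 52696416), (25, 513, 513, 34891011, 52692561), (26, 513, 513, 34891011, 52692561), (26, 513, 513, 34887171, 36963921), (22, 528, 528, 101983536, 103027536), (9, 18, 18, 40177716, 88086066), (19, 513, 513, 35017731, 70387281), (22, 528, 528, 101995056, 104075856), (9, 18, 18, 40173876, 88086051), (19, 513, 513, 35013891, 69404241), (19, 258, 33, 19096836, 52446561), (19, 258, 33, 19092996, 36717921), (18, 33, 258, 38998086, 5326386), (42, 528, 528, 85206576, 40112976), (15, 18, 18, 56954946, 88170546), (40, 288, 288, 102827091, 101844291), (28, 528, 528,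 101983536, 103027536), (11, 528, 528, 102847536, 103945536), (39, 528, 528, 100869441, 102843141), (4, 528, 528, 101926176, 102973776), (5, 18, 18, 40173876, 88086051), (7, 18, 18, 40173891, 88147491), (7, 528, 528, 101930016, 103956816), (16, 18, 18, 5317476, 22029126), (15, 528, 528, 67446321, 38146821), (42, 528, 528, 85221936, 56889936), (15, 18, 18, 56951106, 88170531), (40, 288, 288, 102842451, 101909826), (28, 528, 528, 101995056, 104075856), (11, 528, 528, 102843696, 102962496), (39, 528, 528, 100880961, 103891461), (4, 528, 528, 101930016, 103956816), (5, 18, 18, 40177716, 88086066), (7, 18, 18, 40177731, 88147506), (7, 528, 528, 101926176, 102973776), (16, 18, 18, 5321316, 22032966), (15, 528, 528, 67461681, 54923781), (40, 33, 258, 40177731, 88147506), (40, 33, 258, 40173891, 88147491), (34, 33, 258, 39063651, 22283826),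 (16, 258, 33, 2188596, 52434246), (16, 258, 33, 2184756, 36705606), (2, 258, 33, 34825476, 52446801), (5, 528, 528, 101930016, 103956816), (19, 528, 528, 85337136, 73536336), (16, 528, 528, 84288561, 73536261), (5, 528, 528, 101926176, 102973776), (19, 528, 528, 85344816, 73601616), (16, 528, 528, 84296241, 73601541)]
  [(2, -2880), (4, -2880), (5, -5760), (7, -5760), (9, -2880), (11, 5760), (12, 11520), (13, 2880), (14, 2880), (15, -5760), (16, -11520), (18, -1440), (19, -8640), (20, 1440), (21, 1440), (22, -2880), (23, 5760), (24, 2880), (25, -1440), (26, -2880), (27, 11520), (29, 5760), (33, 2880), (34, -1440), (35, -1440), (38, -2880), (40, -5760), (41, 11520), (42, -2880), (44, 2880)] = true := by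
  decide +kernel

theorem t22_0_1 : chkS lk22 3 5 [(1, m22_0)] l22_1
  [(9, 528, 528, 19220016, 37950816), (9, 528, 528, 19227696, 54662496), (10, 528, 528, 19289136, 70391136), (3, 258, 33, 101860101, 100869201), (12, 528, 528, 19285296, 69408096), (12, 528, 528, 19289136, 70391136), (11, 18, 18, 90243651, 90243651), (11, 18, 18, 90251331, 90243906), (13, 33, 258, 56954916, 88105266), (2, 528, 528, 50619681, 52715781), (16, 528, 528, 20333826, 69423201), (16, 528, 528, 20337666, 70406241), (5, 513, 513, 51725826, 37970001), (40, 18, 18, 88158726, 6632001), (16, 513, 513, 103892256, 102977856), (29, 513, 513, 68494851, 38142801), (12, 513, 513, 102843651, 102958401), (41, 288, 288, 19218531, 21169506), (5, 513, 513, 51733506, 54681681), (40, 18, 18, 88154886, 6628161), (16, 513, 513, 103896096, 103960896), (29, 513, 513, 68510211,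 54919761), (12, 513, 513, 102847491, 103941441), (41, 288, 288, 19203171, 21103971), (6, 513, 513, 51794946, 70410321), (31, 18, 18, 90439971, 90439971), (31, 18, 18, 90443811, 90439986), (30, 18, 18, 90439986, 90443811), (30, 18, 18, 90443826, 90443826), (36, 18, 18, 90443826, 90443826), (40, 33, 258, 21308256, 21308256), (40, 33, 258, 21312096, 21312096), (2, 528, 528, 67331361, 52838661), (3, 288, 288, 35013456, 68363856), (29, 513, 513, 85206531, 40108881), (29, 513, 513, 85221891, 56885841), (29, 528, 528, 85221936, 56889936), (29, 528, 528, 85206576, 40112976), (3, 258, 33, 35013381, 67315281), (2, 513, 513, 67331346, 52838421), (40, 18, 18, 21312006, 4534881), (40, 18, 18, 21308166, 4531041), (5, 528, 528, 85156896, 56770896), (9, 33, 258, 23404611, 88146786), (9, 18, 18, 23404596, 88085346), (11, 33, 258, 23404596, 88085346),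 (11, 18, 18, 23404611, 88146786), (5, 513, 513, 85156866, 56770641), (5, 528, 528, 85149216, 40059216), (9, 33, 258, 23396931, 88146531), (9, 18, 18, 23396916, 88085091), (11, 33, 258, 23396916, 88085091), (11, 18, 18, 23396931, 88146531), (5, 513, 513, 85149186, 40058961), (8, 528, 528, 51794976, 70410576), (30, 528, 528, 85221936, 56889936), (30, 528, 528, 85206576, 40112976), (43, 528, 528, 87318546, 56905746), (43, 528, 528, 87295506, 40128531), (8, 513, 513, 51794946, 70410321)]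
  [(2, -2880), (3, -2880), (5, -5760), (6, 2880), (8, -5760), (9, -5760), (10, 2880), (11, -5760), (12, 11520), (13, 2880), (16, 11520), (29, -5760), (31, 5760), (36, 2880), (40, -5760), (41, 5760), (43, -5760)] = true := by
  decide +kernel

theorem t22_1_1 : chkS lk22 3 5 [(1, m22_1)] l22_1
  [(0, 258, 33, 106111236, 105923361), (24, 258, 33, 105062661, 101008161), (24, 258, 33, 105001221, 101004321), (24, 258, 33, 105062421, 101008146), (24, 258, 33, 105000981, 101004306), (32, 528, 528, 35017776, 70391376), (14, 33, 258, 103875666, 101863491), (27, 18, 18, 104862291, 102040116), (27, 18, 18, 104923731, 102040131), (19, 513, 513, 56893461, 84173586), (19, 513, 513, 56770581, 84108306), (34, 18, 18, 104923986, 102047811), (14, 33, 258, 103875906, 102846531), (27, 18, 18, 104863011, 103088436), (27, 18, 18, 104924451, 103088451),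 (19, 513, 513, 56893701, 84173601), (19, 513, 513, 56770821, 84108321), (34, 18, 18, 104924466, 103092291), (19, 33, 258, 56627781, 83976756), (19, 33, 258, 56628261, 84042036), (34, 258, 33, 105074946, 104153121), (14, 513, 513, 104091906, 104091681), (27, 258, 33, 105009411, 104137761), (27, 258, 33, 105009171, 104137746), (19, 33, 258, 56689221, 83976771), (19, 33, 258, 56689701, 84042051), (34, 258, 33, 105197826, 105197601), (14, 513, 513, 104153346, 105074721), (27, 258, 33, 105193731, 105186081), (27, 258, 33, 105193491, 105186066), (17, 18, 18, 56689986, 86073411), (26, 513, 513, 105000981, 101004306), (26, 513, 513, 105062421, 101008146), (26, 513, 513, 105001221, 101004321), (26, 513, 513, 105062661, 101008161), (1, 513, 513, 70668546, 70668321), (3, 258, 33, 40120581, 84162081), (12, 288, 288, 101917776, 101860176),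 (12, 288, 288, 101856336, 101856336), (37, 528, 528, 101983056, 101983056), (37, 528, 528, 101860176, 101917776), (18, 33, 258, 56689701, 84042051), (3, 258, 33, 40120341, 84162066), (12, 288, 288, 101918016, 102843216), (12, 288, 288, 101856576, 102839376), (37, 528, 528, 101983536, 103027536), (37, 528, 528, 101860656, 102962256), (18, 33, 258, 56689221, 83976771), (9, 528, 528, 85345056, 73605456), (9, 528, 528, 85344816, 73601616), (10, 288, 288, 101856576, 102839376), (3, 513, 513, 102847536, 103945536), (12, 33, 258, 23200821, 84022371), (12, 33, 258, 23200581, 83960931), (9, 528, 528, 85222176, 56893776), (9, 528, 528, 85221936, 56889936), (10, 288, 288, 101918016, 102843216), (3, 513, 513, 103093296, 104994096), (12, 33, 258, 23077941, 84022116), (12, 33, 258, 23077701, 83960676)]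
  [(0, 2880), (1, -2880), (3, -11520), (9, -11520), (10, -5760), (12, -23040), (14, 11520), (17, -2880), (18, -5760), (19, 23040), (24, 11520), (26, -11520), (27, 23040), (32, 2880), (34, 11520), (37, -11520)] = true := by
  decide +kernel

section

variable {κ ι : Type*} [Fintype κ] [Fintype ι] [Inhabited κ] [Inhabited ι]

noncomputable def F22_0 (E : Env κ ι) : (Fin 3 → κ) → (Fin 5 → ι) → ℝ := op2 (P2 κ) (P4 ι) (fB E 3 5 m22_0)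

noncomputable def F22_1 (E : Env κ ι) : (Fin 3 → κ) → (Fin 5 → ι) → ℝ := op2 (P2 κ) (P4 ι) (fB E 3 5 m22_1)

def r22_0_0 : List (ℕ × ℤ) := [(2, -2880), (4, -2880), (5, -5760), (7, -5760), (9, -2880), (11, 5760), (12, 11520), (13, 2880), (14, 2880), (15, -5760), (16, -11520), (18, -1440), (19, -8640), (20, 1440), (21, 1440), (22, -2880), (23, 5760), (24, 2880), (25, -1440), (26, -2880), (27, 11520), (29, 5760), (33, 2880), (34, -1440), (35, -1440), (38, -2880), (40, -5760), (41, 11520), (42, -2880), (44, 2880)]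

theorem h22_0_0 (E : Env κ ι) : ip (F22_0 E) (F22_0 E) = dotS (ek E lk22) r22_0_0 :=
  op_entryZ E lk22 3 5 _ _ _ _ (pg2 κ) (pg4 ι) m22_0 m22_0 l22_0 z22_0 w22_0 x22_0 (by decide) _ (chkS_sound E lk22 3 5 _ _ _ _ t22_0_0)

def r22_0_1 : List (ℕ × ℤ) := [(2, -2880), (3, -2880), (5, -5760), (6, 2880), (8, -5760), (9, -5760), (10, 2880), (11, -5760), (12, 11520), (13, 2880), (16, 11520), (29, -5760), (31, 5760), (36, 2880), (40, -5760), (41, 5760), (43, -5760)]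

theorem h22_0_1 (E : Env κ ι) : ip (F22_0 E) (F22_1 E) = dotS (ek E lk22) r22_0_1 :=
  op_entryZ E lk22 3 5 _ _ _ _ (pg2 κ) (pg4 ι) m22_0 m22_1 l22_1 z22_1 w22_1 x22_1 (by decide) _ (chkS_sound E lk22 3 5 _ _ _ _ t22_0_1)

def r22_1_1 : List (ℕ × ℤ) := [(0, 2880), (1, -2880), (3, -11520), (9, -11520), (10, -5760), (12, -23040), (14, 11520), (17, -2880), (18, -5760), (19, 23040), (24, 11520), (26, -11520), (27, 23040), (32, 2880), (34, 11520), (37, -11520)]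

theorem h22_1_1 (E : Env κ ι) : ip (F22_1 E) (F22_1 E) = dotS (ek E lk22) r22_1_1 :=
  op_entryZ E lk22 3 5 _ _ _ _ (pg2 κ) (pg4 ι) m22_1 m22_1 l22_1 z22_1 w22_1 x22_1 (by decide) _ (chkS_sound E lk22 3 5 _ _ _ _ t22_1_1)

theorem row22_0 (E : Env κ ι) : RowG (ek E lk22) (F22_0 E) [F22_0 E, F22_1 E] [r22_0_0, r22_0_1] :=
  rowG_cons _ _ _ _ _ _ (h22_0_0 E) (rowG_cons _ _ _ _ _ _ (h22_0_1 E) (rowG_nil _ _))

theorem row22_1 (E : Env κ ι) : RowG (ek E lk22) (F22_1 E) [F22_1 E] [r22_1_1] :=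
  rowG_cons _ _ _ _ _ _ (h22_1_1 E) (rowG_nil _ _)

def tab22 : List (List (List (ℕ × ℤ))) := [[r22_0_0, r22_0_1], [r22_1_1]]

theorem tri22 (E : Env κ ι) : TriG (ek E lk22) [F22_0 E, F22_1 E] tab22 := by
  refine triG_cons _ _ _ _ _ (row22_0 E) ?_
  refine triG_cons _ _ _ _ _ (row22_1 E) ?_
  exact triG_nil _

end

def lk23 : List Key := [
  (3, 7, [(0, [0], [0, 1]), (0, [0], [0, 1]), (0, [1], [2, 3]), (0, [1], [2, 3]), (0, [2], [4, 5]), (0, [2], [4, 6]), (4, [], [6]), (4, [], [5])]),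
  (3, 7, [(0, [0], [0, 1]), (0, [0], [0, 1]), (0, [1], [2, 3]), (0, [2], [2, 4]), (0, [2], [5, 6]), (0, [1], [5, 6]), (4, [], [4]), (4, [], [3])]),
  (3, 7, [(0, [0], [0, 1]), (0, [1], [0, 2]), (0, [0], [2, 3]), (0, [2], [1, 4]), (0, [1], [5, 6]), (0, [2], [5, 6]), (4, [], [3]), (4, [], [4])]),
  (3, 7, [(0, [0], [0, 1]), (0, [1], [0, 2]), (0, [0], [3, 4]), (0, [1], [3, 4]), (0, [2], [1, 5]), (0, [2], [5, 6]), (4, [], [2]), (4, [], [6])]),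
  (3, 7, [(0, [0], [0, 1]), (0, [0], [0, 2]), (0, [1], [1, 2]), (4, [], [3]), (0, [2], [4, 5]), (0, [2], [4, 6]), (0, [1], [5, 6]), (4, [], [3])]),
  (3, 7, [(0, [0], [0, 1]), (0, [0], [0, 2]), (0, [1], [1, 2]), (4, [], [3]), (0, [2], [4, 5]), (0, [2], [4, 6]), (0, [1], [3, 6]), (4, [], [5])]),
  (3, 7, [(0, [0], [0, 1]), (0, [0], [0, 2]), (0, [1], [1, 2]), (4, [], [3]), (0, [2], [4, 5]), (0, [2], [4, 5]), (0, [1], [3, 6]), (4, [], [6])]),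
  (3, 7, [(0, [0], [0, 1]), (0, [0], [0, 2]), (0, [1], [1, 2]), (4, [], [3]), (0, [2], [4, 5]), (0, [2], [3, 6]), (0, [1], [4, 6]), (4, [], [5])]),
  (3, 7, [(0, [0], [0, 1]), (0, [0], [0, 2]), (0, [1], [1, 2]), (4, [], [3]), (0, [2], [4, 5]), (0, [2], [3, 6]), (0, [1], [4, 5]), (4, [], [6])]),
  (3, 7, [(0, [0], [0, 1]), (0, [0], [0, 2]), (0, [1], [3, 2]), (4, [], [1]), (0, [2], [4, 5]), (0, [2], [4, 6]), (0, [1], [3, 6]), (4, [], [5])]),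
  (3, 7, [(0, [0], [0, 1]), (0, [0], [0, 2]), (0, [1], [3, 2]), (4, [], [1]), (0, [2], [4, 5]), (0, [2], [4, 5]), (0, [1], [3, 6]), (4, [], [6])]),
  (3, 7, [(0, [0], [0, 1]), (0, [0], [0, 2]), (0, [1], [3, 2]), (4, [], [1]), (0, [2], [4, 5]), (0, [2], [3, 6]), (0, [1], [4, 6]), (4, [], [5])]),
  (3, 7, [(0, [0], [0, 1]), (0, [0], [0, 2]), (0, [1], [3, 2]), (4, [], [1]), (0, [2], [4, 5]), (0, [2], [3, 4]), (0, [1], [5, 6]), (4, [], [6])]),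
  (3, 7, [(0, [0], [0, 1]), (0, [0], [0, 1]), (0, [1], [2, 3]), (4, [], [3]), (0, [2], [4, 5]), (0, [2], [2, 6]), (0, [1], [4, 6]), (4, [], [5])]),
  (3, 7, [(0, [0], [0, 1]), (0, [0], [0, 1]), (0, [1], [2, 3]), (4, [], [3]), (0, [2], [4, 5]), (0, [2], [2, 4]), (0, [1], [5, 6]), (4, [], [6])]),
  (3, 7, [(0, [0], [0, 1]), (0, [0], [2, 3]), (0, [1], [0, 3]), (4, [], [1]), (0, [2], [4, 5]), (0, [2], [2, 6]), (0, [1], [4, 6]), (4, [], [5])]),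
  (3, 7, [(0, [0], [0, 1]), (0, [0], [2, 3]), (0, [1], [0, 3]), (4, [], [1]), (0, [2], [4, 5]), (0, [2], [2, 4]), (0, [1], [5, 6]), (4, [], [6])]),
  (3, 7, [(0, [0], [0, 1]), (0, [0], [2, 3]), (0, [1], [0, 1]), (4, [], [3]), (0, [2], [4, 5]), (0, [2], [2, 6]), (0, [1], [4, 5]), (4, [], [6])]),
  (3, 7, [(0, [0], [0, 1]), (0, [0], [2, 3]), (0, [1], [0, 1]), (4, [], [3]), (0, [2], [4, 5]), (0, [2], [2, 4]), (0, [1], [5, 6]), (4, [], [6])]),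
  (3, 7, [(0, [0], [0, 1]), (0, [0], [2, 0]), (0, [1], [1, 3]), (4, [], [3]), (0, [2], [4, 5]), (0, [2], [2, 4]), (0, [1], [5, 6]), (4, [], [6])]),
  (3, 7, [(0, [0], [0, 1]), (0, [0], [0, 1]), (0, [1], [2, 3]), (4, [], [4]), (0, [2], [5, 6]), (0, [2], [2, 5]), (0, [1], [3, 6]), (4, [], [4])]),
  (3, 7, [(0, [0], [0, 1]), (0, [0], [0, 1]), (0, [1], [2, 3]), (4, [], [4]), (0, [2], [2, 5]), (0, [2], [3, 6]), (0, [1], [5, 6]), (4, [], [4])]),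
  (3, 7, [(0, [0], [0, 1]), (0, [0], [2, 0]), (0, [1], [3, 1]), (4, [], [4]), (0, [2], [5, 6]), (0, [2], [2, 5]), (0, [1], [3, 6]), (4, [], [4])]),
  (3, 7, [(0, [0], [0, 1]), (0, [0], [2, 0]), (0, [1], [3, 1]), (4, [], [4]), (0, [2], [5, 6]), (0, [2], [3, 5]), (0, [1], [2, 6]), (4, [], [4])]),
  (3, 7, [(0, [0], [0, 1]), (0, [0], [2, 0]), (0, [1], [3, 1]), (4, [], [4]), (0, [2], [5, 6]), (0, [2], [4, 5]), (0, [1], [2, 3]), (4, [], [6])]),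
  (3, 7, [(0, [0], [0, 1]), (0, [0], [2, 0]), (0, [1], [3, 1]), (4, [], [4]), (0, [2], [5, 6]), (0, [2], [2, 3]), (0, [1], [5, 6]), (4, [], [4])]),
  (3, 7, [(0, [0], [0, 1]), (0, [0], [2, 0]), (0, [1], [3, 1]), (4, [], [4]), (0, [2], [5, 6]), (0, [2], [2, 3]), (0, [1], [4, 5]), (4, [], [6])]),
  (3, 7, [(0, [0], [0, 1]), (0, [0], [2, 0]), (0, [1], [3, 1]), (4, [], [4]), (0, [2], [5, 6]), (0, [2], [3, 4]), (0, [1], [2, 5]), (4, [], [6])]),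
  (3, 7, [(0, [0], [0, 1]), (0, [0], [2, 0]), (0, [1], [3, 1]), (4, [], [4]), (0, [2], [2, 5]), (0, [2], [3, 6]), (0, [1], [5, 6]), (4, [], [4])]),
  (3, 7, [(0, [0], [0, 1]), (0, [0], [2, 0]), (0, [1], [3, 1]), (4, [], [4]), (0, [2], [3, 5]), (0, [2], [2, 6]), (0, [1], [4, 6]), (4, [], [5])]),
  (3, 7, [(0, [0], [0, 1]), (0, [0], [2, 0]), (0, [1], [3, 1]), (4, [], [4]), (0, [2], [4, 5]), (0, [2], [2, 6]), (0, [1], [3, 6]), (4, [], [5])]),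
  (3, 7, [(0, [0], [0, 1]), (0, [0], [2, 0]), (0, [1], [3, 1]), (4, [], [4]), (0, [2], [4, 5]), (0, [2], [3, 6]), (0, [1], [2, 6]), (4, [], [5])]),
  (3, 7, [(0, [0], [0, 1]), (0, [0], [2, 0]), (0, [1], [3, 4]), (4, [], [1]), (0, [2], [5, 6]), (0, [2], [3, 4]), (0, [1], [5, 6]), (4, [], [2])]),
  (3, 7, [(0, [0], [0, 1]), (0, [0], [2, 0]), (0, [1], [3, 4]), (4, [], [1]), (0, [2], [3, 5]), (0, [2], [4, 6]), (0, [1], [5, 6]), (4, [], [2])]),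
  (3, 7, [(0, [0], [0, 1]), (0, [0], [2, 3]), (0, [1], [0, 1]), (4, [], [4]), (0, [2], [5, 6]), (0, [2], [2, 4]), (0, [1], [3, 5]), (4, [], [6])]),
  (3, 7, [(0, [0], [0, 1]), (0, [0], [2, 3]), (0, [1], [0, 1]), (4, [], [4]), (0, [2], [2, 5]), (0, [2], [3, 6]), (0, [1], [5, 6]), (4, [], [4])]),
  (3, 7, [(0, [0], [0, 1]), (0, [0], [2, 3]), (0, [1], [0, 1]), (4, [], [4]), (0, [2], [4, 5]), (0, [2], [2, 6]), (0, [1], [3, 6]), (4, [], [5])]),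
  (3, 7, [(0, [0], [0, 1]), (0, [0], [2, 3]), (0, [1], [4, 0]), (4, [], [1]), (0, [2], [5, 6]), (0, [2], [2, 4]), (0, [1], [3, 5]), (4, [], [6])]),
  (3, 7, [(0, [0], [0, 1]), (0, [0], [2, 3]), (0, [1], [4, 0]), (4, [], [1]), (0, [2], [2, 5]), (0, [2], [3, 6]), (0, [1], [5, 6]), (4, [], [4])]),
  (3, 7, [(0, [0], [0, 1]), (0, [0], [2, 3]), (0, [1], [4, 0]), (4, [], [1]), (0, [2], [2, 5]), (0, [2], [4, 6]), (0, [1], [5, 6]), (4, [], [3])]),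
  (3, 7, [(0, [0], [0, 1]), (0, [0], [2, 3]), (0, [1], [4, 0]), (4, [], [1]), (0, [2], [2, 5]), (0, [2], [4, 6]), (0, [1], [3, 6]), (4, [], [5])]),
  (3, 7, [(0, [0], [0, 1]), (0, [0], [2, 3]), (0, [1], [4, 0]), (4, [], [1]), (0, [2], [4, 5]), (0, [2], [2, 6]), (0, [1], [3, 6]), (4, [], [5])]),
  (3, 7, [(0, [0], [0, 1]), (0, [0], [2, 3]), (0, [1], [1, 3]), (4, [], [4]), (0, [2], [0, 5]), (0, [2], [2, 6]), (0, [1], [5, 6]), (4, [], [4])]),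
  (3, 7, [(0, [0], [0, 1]), (0, [0], [2, 3]), (0, [1], [1, 3]), (4, [], [4]), (0, [2], [4, 5]), (0, [2], [0, 6]), (0, [1], [2, 6]), (4, [], [5])]),
  (3, 7, [(0, [0], [0, 1]), (0, [0], [2, 3]), (0, [1], [4, 1]), (4, [], [5]), (0, [2], [2, 6]), (0, [2], [0, 4]), (0, [1], [3, 6]), (4, [], [5])])]

def kl23 : List ℕ := [13, 14, 57, 58, 94, 95, 96, 97, 98, 109, 110, 111, 112, 119, 120, 125, 126, 132, 133, 144, 204, 206, 216, 217, 218, 219, 220, 221, 222, 223, 224, 225, 252, 253, 267, 268, 269, 284, 285, 286, 287, 288, 302, 303, 430]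

def m23_0 : Base := (0, 1, [(0, [0], [0, 5]), (0, [1], [1, 5]), (0, [2], [2, 3]), (4, [], [4])])

def l23_0 : Cov := [(864, 0, 1, [(0, [0], [0, 5]), (0, [1], [1, 5]), (0, [2], [2, 3]), (4, [], [4])]),
  (288, 0, 1, [(0, [0], [0, 5]), (0, [1], [1, 5]), (0, [2], [2, 4]), (4, [], [3])]),
  (288, 0, 1, [(0, [0], [0, 5]), (0, [1], [1, 5]), (0, [2], [3, 4]), (4, [], [2])]),
  (864, 0, 1, [(0, [0], [0, 5]), (0, [1], [2, 5]), (0, [2], [1, 3]), (4, [], [4])]),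
  (288, 0, 1, [(0, [0], [0, 5]), (0, [1], [2, 5]), (0, [2], [1, 4]), (4, [], [3])]),
  (288, 0, 1, [(0, [0], [0, 5]), (0, [1], [2, 5]), (0, [2], [3, 4]), (4, [], [1])]),
  (864, 0, 1, [(0, [0], [0, 5]), (0, [1], [3, 5]), (0, [2], [1, 2]), (4, [], [4])]),
  (288, 0, 1, [(0, [0], [0, 5]), (0, [1], [3, 5]), (0, [2], [1, 4]), (4, [], [2])]),
  (288, 0, 1, [(0, [0], [0, 5]), (0, [1], [3, 5]), (0, [2], [2, 4]), (4, [], [1])]),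
  (864, 0, 1, [(0, [0], [1, 5]), (0, [1], [0, 5]), (0, [2], [2, 3]), (4, [], [4])]),
  (576, 0, 1, [(0, [0], [1, 5]), (0, [1], [2, 5]), (0, [2], [0, 3]), (4, [], [4])]),
  (-576, 0, 1, [(0, [0], [1, 5]), (0, [1], [2, 5]), (0, [2], [3, 4]), (4, [], [0])]),
  (576, 0, 1, [(0, [0], [1, 5]), (0, [1], [3, 5]), (0, [2], [0, 2]), (4, [], [4])]),
  (-576, 0, 1, [(0, [0], [1, 5]), (0, [1], [3, 5]), (0, [2], [2, 4]), (4, [], [0])]),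
  (-864, 0, 1, [(0, [0], [1, 5]), (0, [1], [4, 5]), (0, [2], [2, 3]), (4, [], [0])]),
  (864, 0, 1, [(0, [0], [2, 5]), (0, [1], [0, 5]), (0, [2], [1, 3]), (4, [], [4])]),
  (576, 0, 1, [(0, [0], [2, 5]), (0, [1], [1, 5]), (0, [2], [0, 3]), (4, [], [4])]),
  (-576, 0, 1, [(0, [0], [2, 5]), (0, [1], [1, 5]), (0, [2], [3, 4]), (4, [], [0])]),
  (576, 0, 1, [(0, [0], [2, 5]), (0, [1], [3, 5]), (0, [2], [0, 1]), (4, [], [4])]),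
  (-576, 0, 1, [(0, [0], [2, 5]), (0, [1], [3, 5]), (0, [2], [1, 4]), (4, [], [0])]),
  (-864, 0, 1, [(0, [0], [2, 5]), (0, [1], [4, 5]), (0, [2], [1, 3]), (4, [], [0])]),
  (864, 0, 1, [(0, [0], [3, 5]), (0, [1], [0, 5]), (0, [2], [1, 2]), (4, [], [4])]),
  (576, 0, 1, [(0, [0], [3, 5]), (0, [1], [1, 5]), (0, [2], [0, 2]), (4, [], [4])]),
  (-576, 0, 1, [(0, [0], [3, 5]), (0, [1], [1, 5]), (0, [2], [2, 4]), (4, [], [0])]),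
  (576, 0, 1, [(0, [0], [3, 5]), (0, [1], [2, 5]), (0, [2], [0, 1]), (4, [], [4])]),
  (-576, 0, 1, [(0, [0], [3, 5]), (0, [1], [2, 5]), (0, [2], [1, 4]), (4, [], [0])]),
  (-864, 0, 1, [(0, [0], [3, 5]), (0, [1], [4, 5]), (0, [2], [1, 2]), (4, [], [0])]),
  (-288, 0, 1, [(0, [0], [4, 5]), (0, [1], [1, 5]), (0, [2], [0, 2]), (4, [], [3])]),
  (-288, 0, 1, [(0, [0], [4, 5]), (0, [1], [1, 5]), (0, [2], [0, 3]), (4, [], [2])]),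
  (-864, 0, 1, [(0, [0], [4, 5]), (0, [1], [1, 5]), (0, [2], [2, 3]), (4, [], [0])]),
  (-288, 0, 1, [(0, [0], [4, 5]), (0, [1], [2, 5]), (0, [2], [0, 1]), (4, [], [3])]),
  (-288, 0, 1, [(0, [0], [4, 5]), (0, [1], [2, 5]), (0, [2], [0, 3]), (4, [], [1])]),
  (-864, 0, 1, [(0, [0], [4, 5]), (0, [1], [2, 5]), (0, [2], [1, 3]), (4, [], [0])]),
  (-288, 0, 1, [(0, [0], [4, 5]), (0, [1], [3, 5]), (0, [2], [0, 1]), (4, [], [2])]),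
  (-288, 0, 1, [(0, [0], [4, 5]), (0, [1], [3, 5]), (0, [2], [0, 2]), (4, [], [1])]),
  (-864, 0, 1, [(0, [0], [4, 5]), (0, [1], [3, 5]), (0, [2], [1, 2]), (4, [], [0])]),
  (864, 0, 1, [(0, [0], [0, 5]), (0, [2], [1, 5]), (0, [1], [2, 3]), (4, [], [4])]),
  (288, 0, 1, [(0, [0], [0, 5]), (0, [2], [1, 5]), (0, [1], [2, 4]), (4, [], [3])]),
  (288, 0, 1, [(0, [0], [0, 5]), (0, [2], [1, 5]), (0, [1], [3, 4]), (4, [], [2])]),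
  (864, 0, 1, [(0, [0], [0, 5]), (0, [2], [2, 5]), (0, [1], [1, 3]), (4, [], [4])]),
  (288, 0, 1, [(0, [0], [0, 5]), (0, [2], [2, 5]), (0, [1], [1, 4]), (4, [], [3])]),
  (288, 0, 1, [(0, [0], [0, 5]), (0, [2], [2, 5]), (0, [1], [3, 4]), (4, [], [1])]),
  (864, 0, 1, [(0, [0], [0, 5]), (0, [2], [3, 5]), (0, [1], [1, 2]), (4, [], [4])]),
  (288, 0, 1, [(0, [0], [0, 5]), (0, [2], [3, 5]), (0, [1], [1, 4]), (4, [], [2])]),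
  (288, 0, 1, [(0, [0], [0, 5]), (0, [2], [3, 5]), (0, [1], [2, 4]), (4, [], [1])]),
  (864, 0, 1, [(0, [0], [1, 5]), (0, [2], [0, 5]), (0, [1], [2, 3]), (4, [], [4])]),
  (576, 0, 1, [(0, [0], [1, 5]), (0, [2], [2, 5]), (0, [1], [0, 3]), (4, [], [4])]),
  (-576, 0, 1, [(0, [0], [1, 5]), (0, [2], [2, 5]), (0, [1], [3, 4]), (4, [], [0])]),
  (576, 0, 1, [(0, [0], [1, 5]), (0, [2], [3, 5]), (0, [1], [0, 2]), (4, [], [4])]),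
  (-576, 0, 1, [(0, [0], [1, 5]), (0, [2], [3, 5]), (0, [1], [2, 4]), (4, [], [0])]),
  (-864, 0, 1, [(0, [0], [1, 5]), (0, [2], [4, 5]), (0, [1], [2, 3]), (4, [], [0])]),
  (864, 0, 1, [(0, [0], [2, 5]), (0, [2], [0, 5]), (0, [1], [1, 3]), (4, [], [4])]),
  (576, 0, 1, [(0, [0], [2, 5]), (0, [2], [1, 5]), (0, [1], [0, 3]), (4, [], [4])]),
  (-576, 0, 1, [(0, [0], [2, 5]), (0, [2], [1, 5]), (0, [1], [3, 4]), (4, [], [0])]),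
  (576, 0, 1, [(0, [0], [2, 5]), (0, [2], [3, 5]), (0, [1], [0, 1]), (4, [], [4])]),
  (-576, 0, 1, [(0, [0], [2, 5]), (0, [2], [3, 5]), (0, [1], [1, 4]), (4, [], [0])]),
  (-864, 0, 1, [(0, [0], [2, 5]), (0, [2], [4, 5]), (0, [1], [1, 3]), (4, [], [0])]),
  (864, 0, 1, [(0, [0], [3, 5]), (0, [2], [0, 5]), (0, [1], [1, 2]), (4, [], [4])]),
  (576, 0, 1, [(0, [0], [3, 5]), (0, [2], [1, 5]), (0, [1], [0, 2]), (4, [], [4])]),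
  (-576, 0, 1, [(0, [0], [3, 5]), (0, [2], [1, 5]), (0, [1], [2, 4]), (4, [], [0])]),
  (576, 0, 1, [(0, [0], [3, 5]), (0, [2], [2, 5]), (0, [1], [0, 1]), (4, [], [4])]),
  (-576, 0, 1, [(0, [0], [3, 5]), (0, [2], [2, 5]), (0, [1], [1, 4]), (4, [], [0])]),
  (-864, 0, 1, [(0, [0], [3, 5]), (0, [2], [4, 5]), (0, [1], [1, 2]), (4, [], [0])]),
  (-288, 0, 1, [(0, [0], [4, 5]), (0, [2], [1, 5]), (0, [1], [0, 2]), (4, [], [3])]),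
  (-288, 0, 1, [(0, [0], [4, 5]), (0, [2], [1, 5]), (0, [1], [0, 3]), (4, [], [2])]),
  (-864, 0, 1, [(0, [0], [4, 5]), (0, [2], [1, 5]), (0, [1], [2, 3]), (4, [], [0])]),
  (-288, 0, 1, [(0, [0], [4, 5]), (0, [2], [2, 5]), (0, [1], [0, 1]), (4, [], [3])]),
  (-288, 0, 1, [(0, [0], [4, 5]), (0, [2], [2, 5]), (0, [1], [0, 3]), (4, [], [1])]),
  (-864, 0, 1, [(0, [0], [4, 5]), (0, [2], [2, 5]), (0, [1], [1, 3]), (4, [], [0])]),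
  (-288, 0, 1, [(0, [0], [4, 5]), (0, [2], [3, 5]), (0, [1], [0, 1]), (4, [], [2])]),
  (-288, 0, 1, [(0, [0], [4, 5]), (0, [2], [3, 5]), (0, [1], [0, 2]), (4, [], [1])]),
  (-864, 0, 1, [(0, [0], [4, 5]), (0, [2], [3, 5]), (0, [1], [1, 2]), (4, [], [0])]),
  (288, 0, 1, [(0, [1], [0, 5]), (0, [0], [1, 5]), (0, [2], [2, 4]), (4, [], [3])]),
  (288, 0, 1, [(0, [1], [0, 5]), (0, [0], [1, 5]), (0, [2], [3, 4]), (4, [], [2])]),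
  (288, 0, 1, [(0, [1], [0, 5]), (0, [0], [2, 5]), (0, [2], [1, 4]), (4, [], [3])]),
  (288, 0, 1, [(0, [1], [0, 5]), (0, [0], [2, 5]), (0, [2], [3, 4]), (4, [], [1])]),
  (288, 0, 1, [(0, [1], [0, 5]), (0, [0], [3, 5]), (0, [2], [1, 4]), (4, [], [2])]),
  (288, 0, 1, [(0, [1], [0, 5]), (0, [0], [3, 5]), (0, [2], [2, 4]), (4, [], [1])]),
  (-288, 0, 1, [(0, [1], [4, 5]), (0, [0], [1, 5]), (0, [2], [0, 2]), (4, [], [3])]),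
  (-288, 0, 1, [(0, [1], [4, 5]), (0, [0], [1, 5]), (0, [2], [0, 3]), (4, [], [2])]),
  (-288, 0, 1, [(0, [1], [4, 5]), (0, [0], [2, 5]), (0, [2], [0, 1]), (4, [], [3])]),
  (-288, 0, 1, [(0, [1], [4, 5]), (0, [0], [2, 5]), (0, [2], [0, 3]), (4, [], [1])]),
  (-288, 0, 1, [(0, [1], [4, 5]), (0, [0], [3, 5]), (0, [2], [0, 1]), (4, [], [2])]),
  (-288, 0, 1, [(0, [1], [4, 5]), (0, [0], [3, 5]), (0, [2], [0, 2]), (4, [], [1])]),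
  (864, 0, 1, [(0, [1], [0, 5]), (0, [2], [1, 5]), (0, [0], [2, 3]), (4, [], [4])]),
  (288, 0, 1, [(0, [1], [0, 5]), (0, [2], [1, 5]), (0, [0], [2, 4]), (4, [], [3])]),
  (288, 0, 1, [(0, [1], [0, 5]), (0, [2], [1, 5]), (0, [0], [3, 4]), (4, [], [2])]),
  (864, 0, 1, [(0, [1], [0, 5]), (0, [2], [2, 5]), (0, [0], [1, 3]), (4, [], [4])]),
  (288, 0, 1, [(0, [1], [0, 5]), (0, [2], [2, 5]), (0, [0], [1, 4]), (4, [], [3])]),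
  (288, 0, 1, [(0, [1], [0, 5]), (0, [2], [2, 5]), (0, [0], [3, 4]), (4, [], [1])]),
  (864, 0, 1, [(0, [1], [0, 5]), (0, [2], [3, 5]), (0, [0], [1, 2]), (4, [], [4])]),
  (288, 0, 1, [(0, [1], [0, 5]), (0, [2], [3, 5]), (0, [0], [1, 4]), (4, [], [2])]),
  (288, 0, 1, [(0, [1], [0, 5]), (0, [2], [3, 5]), (0, [0], [2, 4]), (4, [], [1])]),
  (864, 0, 1, [(0, [1], [1, 5]), (0, [2], [0, 5]), (0, [0], [2, 3]), (4, [], [4])]),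
  (576, 0, 1, [(0, [1], [1, 5]), (0, [2], [2, 5]), (0, [0], [0, 3]), (4, [], [4])]),
  (-576, 0, 1, [(0, [1], [1, 5]), (0, [2], [2, 5]), (0, [0], [3, 4]), (4, [], [0])]),
  (576, 0, 1, [(0, [1], [1, 5]), (0, [2], [3, 5]), (0, [0], [0, 2]), (4, [], [4])]),
  (-576, 0, 1, [(0, [1], [1, 5]), (0, [2], [3, 5]), (0, [0], [2, 4]), (4, [], [0])]),
  (-864, 0, 1, [(0, [1], [1, 5]), (0, [2], [4, 5]), (0, [0], [2, 3]), (4, [], [0])]),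
  (864, 0, 1, [(0, [1], [2, 5]), (0, [2], [0, 5]), (0, [0], [1, 3]), (4, [], [4])]),
  (576, 0, 1, [(0, [1], [2, 5]), (0, [2], [1, 5]), (0, [0], [0, 3]), (4, [], [4])]),
  (-576, 0, 1, [(0, [1], [2, 5]), (0, [2], [1, 5]), (0, [0], [3, 4]), (4, [], [0])]),
  (576, 0, 1, [(0, [1], [2, 5]), (0, [2], [3, 5]), (0, [0], [0, 1]), (4, [], [4])]),
  (-576, 0, 1, [(0, [1], [2, 5]), (0, [2], [3, 5]), (0, [0], [1, 4]), (4, [], [0])]),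
  (-864, 0, 1, [(0, [1], [2, 5]), (0, [2], [4, 5]), (0, [0], [1, 3]), (4, [], [0])]),
  (864, 0, 1, [(0, [1], [3, 5]), (0, [2], [0, 5]), (0, [0], [1, 2]), (4, [], [4])]),
  (576, 0, 1, [(0, [1], [3, 5]), (0, [2], [1, 5]), (0, [0], [0, 2]), (4, [], [4])]),
  (-576, 0, 1, [(0, [1], [3, 5]), (0, [2], [1, 5]), (0, [0], [2, 4]), (4, [], [0])]),
  (576, 0, 1, [(0, [1], [3, 5]), (0, [2], [2, 5]), (0, [0], [0, 1]), (4, [], [4])]),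
  (-576, 0, 1, [(0, [1], [3, 5]), (0, [2], [2, 5]), (0, [0], [1, 4]), (4, [], [0])]),
  (-864, 0, 1, [(0, [1], [3, 5]), (0, [2], [4, 5]), (0, [0], [1, 2]), (4, [], [0])]),
  (-288, 0, 1, [(0, [1], [4, 5]), (0, [2], [1, 5]), (0, [0], [0, 2]), (4, [], [3])]),
  (-288, 0, 1, [(0, [1], [4, 5]), (0, [2], [1, 5]), (0, [0], [0, 3]), (4, [], [2])]),
  (-864, 0, 1, [(0, [1], [4, 5]), (0, [2], [1, 5]), (0, [0], [2, 3]), (4, [], [0])]),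
  (-288, 0, 1, [(0, [1], [4, 5]), (0, [2], [2, 5]), (0, [0], [0, 1]), (4, [], [3])]),
  (-288, 0, 1, [(0, [1], [4, 5]), (0, [2], [2, 5]), (0, [0], [0, 3]), (4, [], [1])]),
  (-864, 0, 1, [(0, [1], [4, 5]), (0, [2], [2, 5]), (0, [0], [1, 3]), (4, [], [0])]),
  (-288, 0, 1, [(0, [1], [4, 5]), (0, [2], [3, 5]), (0, [0], [0, 1]), (4, [], [2])]),
  (-288, 0, 1, [(0, [1], [4, 5]), (0, [2], [3, 5]), (0, [0], [0, 2]), (4, [], [1])]),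
  (-864, 0, 1, [(0, [1], [4, 5]), (0, [2], [3, 5]), (0, [0], [1, 2]), (4, [], [0])]),
  (288, 0, 1, [(0, [2], [0, 5]), (0, [0], [1, 5]), (0, [1], [2, 4]), (4, [], [3])]),
  (288, 0, 1, [(0, [2], [0, 5]), (0, [0], [1, 5]), (0, [1], [3, 4]), (4, [], [2])]),
  (288, 0, 1, [(0, [2], [0, 5]), (0, [0], [2, 5]), (0, [1], [1, 4]), (4, [], [3])]),
  (288, 0, 1, [(0, [2], [0, 5]), (0, [0], [2, 5]), (0, [1], [3, 4]), (4, [], [1])]),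
  (288, 0, 1, [(0, [2], [0, 5]), (0, [0], [3, 5]), (0, [1], [1, 4]), (4, [], [2])]),
  (288, 0, 1, [(0, [2], [0, 5]), (0, [0], [3, 5]), (0, [1], [2, 4]), (4, [], [1])]),
  (-288, 0, 1, [(0, [2], [4, 5]), (0, [0], [1, 5]), (0, [1], [0, 2]), (4, [], [3])]),
  (-288, 0, 1, [(0, [2], [4, 5]), (0, [0], [1, 5]), (0, [1], [0, 3]), (4, [], [2])]),
  (-288, 0, 1, [(0, [2], [4, 5]), (0, [0], [2, 5]), (0, [1], [0, 1]), (4, [], [3])]),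
  (-288, 0, 1, [(0, [2], [4, 5]), (0, [0], [2, 5]), (0, [1], [0, 3]), (4, [], [1])]),
  (-288, 0, 1, [(0, [2], [4, 5]), (0, [0], [3, 5]), (0, [1], [0, 1]), (4, [], [2])]),
  (-288, 0, 1, [(0, [2], [4, 5]), (0, [0], [3, 5]), (0, [1], [0, 2]), (4, [], [1])]),
  (288, 0, 1, [(0, [2], [0, 5]), (0, [1], [1, 5]), (0, [0], [2, 4]), (4, [], [3])]),
  (288, 0, 1, [(0, [2], [0, 5]), (0, [1], [1, 5]), (0, [0], [3, 4]), (4, [], [2])]),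
  (288, 0, 1, [(0, [2], [0, 5]), (0, [1], [2, 5]), (0, [0], [1, 4]), (4, [], [3])]),
  (288, 0, 1, [(0, [2], [0, 5]), (0, [1], [2, 5]), (0, [0], [3, 4]), (4, [], [1])]),
  (288, 0, 1, [(0, [2], [0, 5]), (0, [1], [3, 5]), (0, [0], [1, 4]), (4, [], [2])]),
  (288, 0, 1, [(0, [2], [0, 5]), (0, [1], [3, 5]), (0, [0], [2, 4]), (4, [], [1])]),
  (-288, 0, 1, [(0, [2], [4, 5]), (0, [1], [1, 5]), (0, [0], [0, 2]), (4, [], [3])]),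
  (-288, 0, 1, [(0, [2], [4, 5]), (0, [1], [1, 5]), (0, [0], [0, 3]), (4, [], [2])]),
  (-288, 0, 1, [(0, [2], [4, 5]), (0, [1], [2, 5]), (0, [0], [0, 1]), (4, [], [3])]),
  (-288, 0, 1, [(0, [2], [4, 5]), (0, [1], [2, 5]), (0, [0], [0, 3]), (4, [], [1])]),
  (-288, 0, 1, [(0, [2], [4, 5]), (0, [1], [3, 5]), (0, [0], [0, 1]), (4, [], [2])]),
  (-288, 0, 1, [(0, [2], [4, 5]), (0, [1], [3, 5]), (0, [0], [0, 2]), (4, [], [1])])]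

def z23_0 : Cov := [(0, 0, 1, [(0, [0], [0, 5]), (0, [1], [4, 5]), (0, [2], [1, 2]), (4, [], [3])]),
  (0, 0, 1, [(0, [0], [0, 5]), (0, [1], [4, 5]), (0, [2], [1, 3]), (4, [], [2])]),
  (0, 0, 1, [(0, [0], [0, 5]), (0, [1], [4, 5]), (0, [2], [2, 3]), (4, [], [1])]),
  (0, 0, 1, [(0, [0], [4, 5]), (0, [1], [0, 5]), (0, [2], [1, 2]), (4, [], [3])]),
  (0, 0, 1, [(0, [0], [4, 5]), (0, [1], [0, 5]), (0, [2], [1, 3]), (4, [], [2])]),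
  (0, 0, 1, [(0, [0], [4, 5]), (0, [1], [0, 5]), (0, [2], [2, 3]), (4, [], [1])]),
  (0, 0, 1, [(0, [0], [0, 5]), (0, [2], [4, 5]), (0, [1], [1, 2]), (4, [], [3])]),
  (0, 0, 1, [(0, [0], [0, 5]), (0, [2], [4, 5]), (0, [1], [1, 3]), (4, [], [2])]),
  (0, 0, 1, [(0, [0], [0, 5]), (0, [2], [4, 5]), (0, [1], [2, 3]), (4, [], [1])]),
  (0, 0, 1, [(0, [0], [4, 5]), (0, [2], [0, 5]), (0, [1], [1, 2]), (4, [], [3])]),
  (0, 0, 1, [(0, [0], [4, 5]), (0, [2], [0, 5]), (0, [1], [1, 3]), (4, [], [2])]),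
  (0, 0, 1, [(0, [0], [4, 5]), (0, [2], [0, 5]), (0, [1], [2, 3]), (4, [], [1])]),
  (0, 0, 1, [(0, [1], [0, 5]), (0, [2], [4, 5]), (0, [0], [1, 2]), (4, [], [3])]),
  (0, 0, 1, [(0, [1], [0, 5]), (0, [2], [4, 5]), (0, [0], [1, 3]), (4, [], [2])]),
  (0, 0, 1, [(0, [1], [0, 5]), (0, [2], [4, 5]), (0, [0], [2, 3]), (4, [], [1])]),
  (0, 0, 1, [(0, [1], [4, 5]), (0, [2], [0, 5]), (0, [0], [1, 2]), (4, [], [3])]),
  (0, 0, 1, [(0, [1], [4, 5]), (0, [2], [0, 5]), (0, [0], [1, 3]), (4, [], [2])]),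
  (0, 0, 1, [(0, [1], [4, 5]), (0, [2], [0, 5]), (0, [0], [2, 3]), (4, [], [1])])]

def w23_0 : List (List Wit) := [[(0, 0, 0, 0, 0), (1, 0, 0, 0, 0), (0, 0, 0, 0, 0), (2, 0, 0, 0, 0), (1, 0, 0, 0, 0), (2, 0, 0, 0, 0), (3, 0, 0, 0, 0), (4, 0, 0, 0, 0), (3, 0, 0, 0, 0), (5, 0, 0, 0, 0), (4, 0, 0, 0, 0), (5, 0, 0, 0, 0), (6, 0, 0, 0, 0), (7, 0, 0, 0, 0), (6, 0, 0, 0, 0), (8, 0, 0, 0, 0), (7, 0, 0, 0, 0), (8, 0, 0, 0, 0), (144, 0, 0, 0, 0), (145, 0, 0, 0, 0), (144, 0, 0, 0, 0), (146, 0, 0, 0, 0), (145, 0, 0, 0, 0), (146, 0, 0, 0, 0), (9, 0, 0, 0, 0), (9, 0, 0, 0, 0), (10, 0, 0, 0, 0), (10, 0, 0, 0, 0), (11, 0, 0, 0, 0), (11, 0, 0, 0, 0), (12, 0, 0, 0, 0), (12, 0, 0, 0, 0), (13, 0, 0, 0, 0), (13, 0, 0, 0, 0), (14, 0, 0, 0, 0), (14, 0, 0, 0, 0), (15, 0, 0, 0, 0), (15, 0, 0, 0, 0), (16, 0, 0, 0, 0), (16, 0, 0, 0, 0), (17, 0, 0, 0,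 0), (17, 0, 0, 0, 0), (18, 0, 0, 0, 0), (18, 0, 0, 0, 0), (19, 0, 0, 0, 0), (19, 0, 0, 0, 0), (20, 0, 0, 0, 0), (20, 0, 0, 0, 0), (21, 0, 0, 0, 0), (21, 0, 0, 0, 0), (22, 0, 0, 0, 0), (22, 0, 0, 0, 0), (23, 0, 0, 0, 0), (23, 0, 0, 0, 0), (24, 0, 0, 0, 0), (24, 0, 0, 0, 0), (25, 0, 0, 0, 0), (25, 0, 0, 0, 0), (26, 0, 0, 0, 0), (26, 0, 0, 0, 0), (147, 0, 0, 0, 0), (148, 0, 0, 0, 0), (147, 0, 0, 0, 0), (149, 0, 0, 0, 0), (148, 0, 0, 0, 0), (149, 0, 0, 0, 0), (27, 0, 0, 0, 0), (28, 0, 0, 0, 0), (27, 0, 0, 0, 0), (29, 0, 0, 0, 0), (28, 0, 0, 0, 0), (29, 0, 0, 0, 0), (30, 0, 0, 0, 0), (31, 0, 0, 0, 0), (30, 0, 0, 0, 0), (32, 0, 0, 0, 0), (31, 0, 0, 0, 0), (32, 0, 0, 0, 0), (33, 0, 0, 0, 0), (34, 0, 0, 0, 0), (33, 0, 0, 0, 0), (35, 0, 0, 0, 0), (34, 0, 0, 0, 0), (35, 0, 0, 0, 0)],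
  [(36, 0, 0, 0, 0), (37, 0, 0, 0, 0), (36, 0, 0, 0, 0), (38, 0, 0, 0, 0), (37, 0, 0, 0, 0), (38, 0, 0, 0, 0), (39, 0, 0, 0, 0), (40, 0, 0, 0, 0), (39, 0, 0, 0, 0), (41, 0, 0, 0, 0), (40, 0, 0, 0, 0), (41, 0, 0, 0, 0), (42, 0, 0, 0, 0), (43, 0, 0, 0, 0), (42, 0, 0, 0, 0), (44, 0, 0, 0, 0), (43, 0, 0, 0, 0), (44, 0, 0, 0, 0), (150, 0, 0, 0, 0), (151, 0, 0, 0, 0), (150, 0, 0, 0, 0), (152, 0, 0, 0, 0), (151, 0, 0, 0, 0), (152, 0, 0, 0, 0), (45, 0, 0, 0, 0), (45, 0, 0, 0, 0), (46, 0, 0, 0, 0), (46, 0, 0, 0, 0), (47, 0, 0, 0, 0), (47, 0, 0, 0, 0), (48, 0, 0, 0, 0), (48, 0, 0, 0, 0), (49, 0, 0, 0, 0), (49, 0, 0, 0, 0), (50, 0, 0, 0, 0), (50, 0, 0, 0, 0), (51, 0, 0, 0, 0), (51, 0, 0, 0, 0), (52, 0, 0, 0, 0), (52, 0, 0, 0, 0), (53, 0, 0, 0, 0), (53, 0, 0, 0, 0), (54, 0, 0, 0, 0), (54, 0, 0, 0, 0), (55, 0, 0, 0, 0), (55, 0, 0, 0, 0),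 (56, 0, 0, 0, 0), (56, 0, 0, 0, 0), (57, 0, 0, 0, 0), (57, 0, 0, 0, 0), (58, 0, 0, 0, 0), (58, 0, 0, 0, 0), (59, 0, 0, 0, 0), (59, 0, 0, 0, 0), (60, 0, 0, 0, 0), (60, 0, 0, 0, 0), (61, 0, 0, 0, 0), (61, 0, 0, 0, 0), (62, 0, 0, 0, 0), (62, 0, 0, 0, 0), (153, 0, 0, 0, 0), (154, 0, 0, 0, 0), (153, 0, 0, 0, 0), (155, 0, 0, 0, 0), (154, 0, 0, 0, 0), (155, 0, 0, 0, 0), (63, 0, 0, 0, 0), (64, 0, 0, 0, 0), (63, 0, 0, 0, 0), (65, 0, 0, 0, 0), (64, 0, 0, 0, 0), (65, 0, 0, 0, 0), (66, 0, 0, 0, 0), (67, 0, 0, 0, 0), (66, 0, 0, 0, 0), (68, 0, 0, 0, 0), (67, 0, 0, 0, 0), (68, 0, 0, 0, 0), (69, 0, 0, 0, 0), (70, 0, 0, 0, 0), (69, 0, 0, 0, 0), (71, 0, 0, 0, 0), (70, 0, 0, 0, 0), (71, 0, 0, 0, 0)],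
  [(9, 0, 0, 0, 0), (72, 0, 0, 0, 0), (9, 0, 0, 0, 0), (73, 0, 0, 0, 0), (72, 0, 0, 0, 0), (73, 0, 0, 0, 0), (15, 0, 0, 0, 0), (74, 0, 0, 0, 0), (15, 0, 0, 0, 0), (75, 0, 0, 0, 0), (74, 0, 0, 0, 0), (75, 0, 0, 0, 0), (21, 0, 0, 0, 0), (76, 0, 0, 0, 0), (21, 0, 0, 0, 0), (77, 0, 0, 0, 0), (76, 0, 0, 0, 0), (77, 0, 0, 0, 0), (147, 0, 0, 0, 0), (148, 0, 0, 0, 0), (147, 0, 0, 0, 0), (149, 0, 0, 0, 0), (148, 0, 0, 0, 0), (149, 0, 0, 0, 0), (0, 0, 0, 0, 0), (0, 0, 0, 0, 0), (16, 0, 0, 0, 0), (16, 0, 0, 0, 0), (17, 0, 0, 0, 0), (17, 0, 0, 0, 0), (22, 0, 0, 0, 0), (22, 0, 0, 0, 0), (23, 0, 0, 0, 0), (23, 0, 0, 0, 0), (29, 0, 0, 0, 0), (29, 0, 0, 0, 0), (3, 0, 0, 0, 0), (3, 0, 0, 0, 0), (10, 0, 0, 0, 0), (10, 0, 0, 0, 0), (11, 0, 0, 0, 0), (11, 0, 0, 0, 0), (24, 0, 0, 0, 0), (24, 0, 0, 0, 0), (25, 0, 0, 0, 0), (25, 0, 0, 0, 0), (32, 0,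 0, 0, 0), (32, 0, 0, 0, 0), (6, 0, 0, 0, 0), (6, 0, 0, 0, 0), (12, 0, 0, 0, 0), (12, 0, 0, 0, 0), (13, 0, 0, 0, 0), (13, 0, 0, 0, 0), (18, 0, 0, 0, 0), (18, 0, 0, 0, 0), (19, 0, 0, 0, 0), (19, 0, 0, 0, 0), (35, 0, 0, 0, 0), (35, 0, 0, 0, 0), (144, 0, 0, 0, 0), (145, 0, 0, 0, 0), (144, 0, 0, 0, 0), (146, 0, 0, 0, 0), (145, 0, 0, 0, 0), (146, 0, 0, 0, 0), (78, 0, 0, 0, 0), (79, 0, 0, 0, 0), (78, 0, 0, 0, 0), (14, 0, 0, 0, 0), (79, 0, 0, 0, 0), (14, 0, 0, 0, 0), (80, 0, 0, 0, 0), (81, 0, 0, 0, 0), (80, 0, 0, 0, 0), (20, 0, 0, 0, 0), (81, 0, 0, 0, 0), (20, 0, 0, 0, 0), (82, 0, 0, 0, 0), (83, 0, 0, 0, 0), (82, 0, 0, 0, 0), (26, 0, 0, 0, 0), (83, 0, 0, 0, 0), (26, 0, 0, 0, 0)],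
  [(84, 0, 0, 0, 0), (85, 0, 0, 0, 0), (84, 0, 0, 0, 0), (86, 0, 0, 0, 0), (85, 0, 0, 0, 0), (86, 0, 0, 0, 0), (87, 0, 0, 0, 0), (88, 0, 0, 0, 0), (87, 0, 0, 0, 0), (89, 0, 0, 0, 0), (88, 0, 0, 0, 0), (89, 0, 0, 0, 0), (90, 0, 0, 0, 0), (91, 0, 0, 0, 0), (90, 0, 0, 0, 0), (92, 0, 0, 0, 0), (91, 0, 0, 0, 0), (92, 0, 0, 0, 0), (156, 0, 0, 0, 0), (157, 0, 0, 0, 0), (156, 0, 0, 0, 0), (158, 0, 0, 0, 0), (157, 0, 0, 0, 0), (158, 0, 0, 0, 0), (93, 0, 0, 0, 0), (93, 0, 0, 0, 0), (94, 0, 0, 0, 0), (94, 0, 0, 0, 0), (95, 0, 0, 0, 0), (95, 0, 0, 0, 0), (96, 0, 0, 0, 0), (96, 0, 0, 0, 0), (97, 0, 0, 0, 0), (97, 0, 0, 0, 0), (98, 0, 0, 0, 0), (98, 0, 0, 0, 0), (99, 0, 0, 0, 0), (99, 0, 0, 0, 0), (100, 0, 0, 0, 0), (100, 0, 0, 0, 0), (101, 0, 0, 0, 0), (101, 0, 0, 0, 0), (102, 0, 0, 0, 0), (102, 0, 0, 0, 0), (103, 0, 0, 0, 0), (103, 0, 0,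 0, 0), (104, 0, 0, 0, 0), (104, 0, 0, 0, 0), (105, 0, 0, 0, 0), (105, 0, 0, 0, 0), (106, 0, 0, 0, 0), (106, 0, 0, 0, 0), (107, 0, 0, 0, 0), (107, 0, 0, 0, 0), (108, 0, 0, 0, 0), (108, 0, 0, 0, 0), (109, 0, 0, 0, 0), (109, 0, 0, 0, 0), (110, 0, 0, 0, 0), (110, 0, 0, 0, 0), (159, 0, 0, 0, 0), (160, 0, 0, 0, 0), (159, 0, 0, 0, 0), (161, 0, 0, 0, 0), (160, 0, 0, 0, 0), (161, 0, 0, 0, 0), (111, 0, 0, 0, 0), (112, 0, 0, 0, 0), (111, 0, 0, 0, 0), (113, 0, 0, 0, 0), (112, 0, 0, 0, 0), (113, 0, 0, 0, 0), (114, 0, 0, 0, 0), (115, 0, 0, 0, 0), (114, 0, 0, 0, 0), (116, 0, 0, 0, 0), (115, 0, 0, 0, 0), (116, 0, 0, 0, 0), (117, 0, 0, 0, 0), (118, 0, 0, 0, 0), (117, 0, 0, 0, 0), (119, 0, 0, 0, 0), (118, 0, 0, 0, 0), (119, 0, 0, 0, 0)],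
  [(45, 0, 0, 0, 0), (120, 0, 0, 0, 0), (45, 0, 0, 0, 0), (121, 0, 0, 0, 0), (120, 0, 0, 0, 0), (121, 0, 0, 0, 0), (51, 0, 0, 0, 0), (122, 0, 0, 0, 0), (51, 0, 0, 0, 0), (123, 0, 0, 0, 0), (122, 0, 0, 0, 0), (123, 0, 0, 0, 0), (57, 0, 0, 0, 0), (124, 0, 0, 0, 0), (57, 0, 0, 0, 0), (125, 0, 0, 0, 0), (124, 0, 0, 0, 0), (125, 0, 0, 0, 0), (153, 0, 0, 0, 0), (154, 0, 0, 0, 0), (153, 0, 0, 0, 0), (155, 0, 0, 0, 0), (154, 0, 0, 0, 0), (155, 0, 0, 0, 0), (36, 0, 0, 0, 0), (36, 0, 0, 0, 0), (52, 0, 0, 0, 0), (52, 0, 0, 0, 0), (53, 0, 0, 0, 0), (53, 0, 0, 0, 0), (58, 0, 0, 0, 0), (58, 0, 0, 0, 0), (59, 0, 0, 0, 0), (59, 0, 0, 0, 0), (65, 0, 0, 0, 0), (65, 0, 0, 0, 0), (39, 0, 0, 0, 0), (39, 0, 0, 0, 0), (46, 0, 0, 0, 0), (46, 0, 0, 0, 0), (47, 0, 0, 0, 0), (47, 0, 0, 0, 0), (60, 0, 0, 0, 0), (60, 0, 0, 0, 0), (61, 0, 0, 0, 0), (61, 0,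 0, 0, 0), (68, 0, 0, 0, 0), (68, 0, 0, 0, 0), (42, 0, 0, 0, 0), (42, 0, 0, 0, 0), (48, 0, 0, 0, 0), (48, 0, 0, 0, 0), (49, 0, 0, 0, 0), (49, 0, 0, 0, 0), (54, 0, 0, 0, 0), (54, 0, 0, 0, 0), (55, 0, 0, 0, 0), (55, 0, 0, 0, 0), (71, 0, 0, 0, 0), (71, 0, 0, 0, 0), (150, 0, 0, 0, 0), (151, 0, 0, 0, 0), (150, 0, 0, 0, 0), (152, 0, 0, 0, 0), (151, 0, 0, 0, 0), (152, 0, 0, 0, 0), (126, 0, 0, 0, 0), (127, 0, 0, 0, 0), (126, 0, 0, 0, 0), (50, 0, 0, 0, 0), (127, 0, 0, 0, 0), (50, 0, 0, 0, 0), (128, 0, 0, 0, 0), (129, 0, 0, 0, 0), (128, 0, 0, 0, 0), (56, 0, 0, 0, 0), (129, 0, 0, 0, 0), (56, 0, 0, 0, 0), (130, 0, 0, 0, 0), (131, 0, 0, 0, 0), (130, 0, 0, 0, 0), (62, 0, 0, 0, 0), (131, 0, 0, 0, 0), (62, 0, 0, 0, 0)],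
  [(93, 0, 0, 0, 0), (132, 0, 0, 0, 0), (93, 0, 0, 0, 0), (133, 0, 0, 0, 0), (132, 0, 0, 0, 0), (133, 0, 0, 0, 0), (99, 0, 0, 0, 0), (134, 0, 0, 0, 0), (99, 0, 0, 0, 0), (135, 0, 0, 0, 0), (134, 0, 0, 0, 0), (135, 0, 0, 0, 0), (105, 0, 0, 0, 0), (136, 0, 0, 0, 0), (105, 0, 0, 0, 0), (137, 0, 0, 0, 0), (136, 0, 0, 0, 0), (137, 0, 0, 0, 0), (159, 0, 0, 0, 0), (160, 0, 0, 0, 0), (159, 0, 0, 0, 0), (161, 0, 0, 0, 0), (160, 0, 0, 0, 0), (161, 0, 0, 0, 0), (84, 0, 0, 0, 0), (84, 0, 0, 0, 0), (100, 0, 0, 0, 0), (100, 0, 0, 0, 0), (101, 0, 0, 0, 0), (101, 0, 0, 0, 0), (106, 0, 0, 0, 0), (106, 0, 0, 0, 0), (107, 0, 0, 0, 0), (107, 0, 0, 0, 0), (113, 0, 0, 0, 0), (113, 0, 0, 0, 0), (87, 0, 0, 0, 0), (87, 0, 0, 0, 0), (94, 0, 0, 0, 0), (94, 0, 0, 0, 0), (95, 0, 0, 0, 0), (95, 0, 0, 0, 0), (108, 0, 0, 0, 0), (108, 0, 0, 0, 0), (109, 0, 0,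 0, 0), (109, 0, 0, 0, 0), (116, 0, 0, 0, 0), (116, 0, 0, 0, 0), (90, 0, 0, 0, 0), (90, 0, 0, 0, 0), (96, 0, 0, 0, 0), (96, 0, 0, 0, 0), (97, 0, 0, 0, 0), (97, 0, 0, 0, 0), (102, 0, 0, 0, 0), (102, 0, 0, 0, 0), (103, 0, 0, 0, 0), (103, 0, 0, 0, 0), (119, 0, 0, 0, 0), (119, 0, 0, 0, 0), (156, 0, 0, 0, 0), (157, 0, 0, 0, 0), (156, 0, 0, 0, 0), (158, 0, 0, 0, 0), (157, 0, 0, 0, 0), (158, 0, 0, 0, 0), (138, 0, 0, 0, 0), (139, 0, 0, 0, 0), (138, 0, 0, 0, 0), (98, 0, 0, 0, 0), (139, 0, 0, 0, 0), (98, 0, 0, 0, 0), (140, 0, 0, 0, 0), (141, 0, 0, 0, 0), (140, 0, 0, 0, 0), (104, 0, 0, 0, 0), (141, 0, 0, 0, 0), (104, 0, 0, 0, 0), (142, 0, 0, 0, 0), (143, 0, 0, 0, 0), (142, 0, 0, 0, 0), (110, 0, 0, 0, 0), (143, 0, 0, 0, 0), (110, 0, 0, 0, 0)]]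

def m23_1 : Base := (0, 1, [(0, [0], [0, 5]), (0, [1], [1, 5]), (0, [2], [2, 4]), (4, [], [3])])

def l23_1 : Cov := [(576, 0, 1, [(0, [0], [0, 5]), (0, [1], [1, 5]), (0, [2], [2, 4]), (4, [], [3])]),
  (288, 0, 1, [(0, [0], [0, 5]), (0, [1], [1, 5]), (0, [2], [2, 3]), (4, [], [4])]),
  (576, 0, 1, [(0, [0], [0, 5]), (0, [1], [1, 5]), (0, [2], [3, 4]), (4, [], [2])]),
  (576, 0, 1, [(0, [0], [0, 5]), (0, [1], [2, 5]), (0, [2], [1, 4]), (4, [], [3])]),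
  (288, 0, 1, [(0, [0], [0, 5]), (0, [1], [2, 5]), (0, [2], [1, 3]), (4, [], [4])]),
  (576, 0, 1, [(0, [0], [0, 5]), (0, [1], [2, 5]), (0, [2], [3, 4]), (4, [], [1])]),
  (576, 0, 1, [(0, [0], [0, 5]), (0, [1], [3, 5]), (0, [2], [1, 4]), (4, [], [2])]),
  (288, 0, 1, [(0, [0], [0, 5]), (0, [1], [3, 5]), (0, [2], [1, 2]), (4, [], [4])]),
  (576, 0, 1, [(0, [0], [0, 5]), (0, [1], [3, 5]), (0, [2], [2, 4]), (4, [], [1])]),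
  (576, 0, 1, [(0, [0], [1, 5]), (0, [1], [0, 5]), (0, [2], [2, 4]), (4, [], [3])]),
  (576, 0, 1, [(0, [0], [1, 5]), (0, [1], [0, 5]), (0, [2], [3, 4]), (4, [], [2])]),
  (288, 0, 1, [(0, [0], [1, 5]), (0, [1], [2, 5]), (0, [2], [3, 4]), (4, [], [0])]),
  (-288, 0, 1, [(0, [0], [1, 5]), (0, [1], [2, 5]), (0, [2], [3, 0]), (4, [], [4])]),
  (288, 0, 1, [(0, [0], [1, 5]), (0, [1], [3, 5]), (0, [2], [2, 4]), (4, [], [0])]),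
  (-288, 0, 1, [(0, [0], [1, 5]), (0, [1], [3, 5]), (0, [2], [2, 0]), (4, [], [4])]),
  (-576, 0, 1, [(0, [0], [1, 5]), (0, [1], [4, 5]), (0, [2], [2, 0]), (4, [], [3])]),
  (-576, 0, 1, [(0, [0], [1, 5]), (0, [1], [4, 5]), (0, [2], [3, 0]), (4, [], [2])]),
  (576, 0, 1, [(0, [0], [2, 5]), (0, [1], [0, 5]), (0, [2], [1, 4]), (4, [], [3])]),
  (576, 0, 1, [(0, [0], [2, 5]), (0, [1], [0, 5]), (0, [2], [3, 4]), (4, [], [1])]),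
  (288, 0, 1, [(0, [0], [2, 5]), (0, [1], [1, 5]), (0, [2], [3, 4]), (4, [], [0])]),
  (-288, 0, 1, [(0, [0], [2, 5]), (0, [1], [1, 5]), (0, [2], [3, 0]), (4, [], [4])]),
  (288, 0, 1, [(0, [0], [2, 5]), (0, [1], [3, 5]), (0, [2], [1, 4]), (4, [], [0])]),
  (-288, 0, 1, [(0, [0], [2, 5]), (0, [1], [3, 5]), (0, [2], [1, 0]), (4, [], [4])]),
  (-576, 0, 1, [(0, [0], [2, 5]), (0, [1], [4, 5]), (0, [2], [1, 0]), (4, [], [3])]),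
  (-576, 0, 1, [(0, [0], [2, 5]), (0, [1], [4, 5]), (0, [2], [3, 0]), (4, [], [1])]),
  (576, 0, 1, [(0, [0], [3, 5]), (0, [1], [0, 5]), (0, [2], [1, 4]), (4, [], [2])]),
  (576, 0, 1, [(0, [0], [3, 5]), (0, [1], [0, 5]), (0, [2], [2, 4]), (4, [], [1])]),
  (288, 0, 1, [(0, [0], [3, 5]), (0, [1], [1, 5]), (0, [2], [2, 4]), (4, [], [0])]),
  (-288, 0, 1, [(0, [0], [3, 5]), (0, [1], [1, 5]), (0, [2], [2, 0]), (4, [], [4])]),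
  (288, 0, 1, [(0, [0], [3, 5]), (0, [1], [2, 5]), (0, [2], [1, 4]), (4, [], [0])]),
  (-288, 0, 1, [(0, [0], [3, 5]), (0, [1], [2, 5]), (0, [2], [1, 0]), (4, [], [4])]),
  (-576, 0, 1, [(0, [0], [3, 5]), (0, [1], [4, 5]), (0, [2], [1, 0]), (4, [], [2])]),
  (-576, 0, 1, [(0, [0], [3, 5]), (0, [1], [4, 5]), (0, [2], [2, 0]), (4, [], [1])]),
  (-576, 0, 1, [(0, [0], [4, 5]), (0, [1], [1, 5]), (0, [2], [0, 3]), (4, [], [2])]),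
  (-576, 0, 1, [(0, [0], [4, 5]), (0, [1], [1, 5]), (0, [2], [0, 2]), (4, [], [3])]),
  (-288, 0, 1, [(0, [0], [4, 5]), (0, [1], [1, 5]), (0, [2], [2, 3]), (4, [], [0])]),
  (-576, 0, 1, [(0, [0], [4, 5]), (0, [1], [2, 5]), (0, [2], [0, 3]), (4, [], [1])]),
  (-576, 0, 1, [(0, [0], [4, 5]), (0, [1], [2, 5]), (0, [2], [0, 1]), (4, [], [3])]),
  (-288, 0, 1, [(0, [0], [4, 5]), (0, [1], [2, 5]), (0, [2], [1, 3]), (4, [], [0])]),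
  (-576, 0, 1, [(0, [0], [4, 5]), (0, [1], [3, 5]), (0, [2], [0, 2]), (4, [], [1])]),
  (-576, 0, 1, [(0, [0], [4, 5]), (0, [1], [3, 5]), (0, [2], [0, 1]), (4, [], [2])]),
  (-288, 0, 1, [(0, [0], [4, 5]), (0, [1], [3, 5]), (0, [2], [1, 2]), (4, [], [0])]),
  (576, 0, 1, [(0, [0], [0, 5]), (0, [2], [1, 5]), (0, [1], [2, 4]), (4, [], [3])]),
  (288, 0, 1, [(0, [0], [0, 5]), (0, [2], [1, 5]), (0, [1], [2, 3]), (4, [], [4])]),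
  (576, 0, 1, [(0, [0], [0, 5]), (0, [2], [1, 5]), (0, [1], [3, 4]), (4, [], [2])]),
  (576, 0, 1, [(0, [0], [0, 5]), (0, [2], [2, 5]), (0, [1], [1, 4]), (4, [], [3])]),
  (288, 0, 1, [(0, [0], [0, 5]), (0, [2], [2, 5]), (0, [1], [1, 3]), (4, [], [4])]),
  (576, 0, 1, [(0, [0], [0, 5]), (0, [2], [2, 5]), (0, [1], [3, 4]), (4, [], [1])]),
  (576, 0, 1, [(0, [0], [0, 5]), (0, [2], [3, 5]), (0, [1], [1, 4]), (4, [], [2])]),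
  (288, 0, 1, [(0, [0], [0, 5]), (0, [2], [3, 5]), (0, [1], [1, 2]), (4, [], [4])]),
  (576, 0, 1, [(0, [0], [0, 5]), (0, [2], [3, 5]), (0, [1], [2, 4]), (4, [], [1])]),
  (576, 0, 1, [(0, [0], [1, 5]), (0, [2], [0, 5]), (0, [1], [2, 4]), (4, [], [3])]),
  (576, 0, 1, [(0, [0], [1, 5]), (0, [2], [0, 5]), (0, [1], [3, 4]), (4, [], [2])]),
  (288, 0, 1, [(0, [0], [1, 5]), (0, [2], [2, 5]), (0, [1], [3, 4]), (4, [], [0])]),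
  (-288, 0, 1, [(0, [0], [1, 5]), (0, [2], [2, 5]), (0, [1], [3, 0]), (4, [], [4])]),
  (288, 0, 1, [(0, [0], [1, 5]), (0, [2], [3, 5]), (0, [1], [2, 4]), (4, [], [0])]),
  (-288, 0, 1, [(0, [0], [1, 5]), (0, [2], [3, 5]), (0, [1], [2, 0]), (4, [], [4])]),
  (-576, 0, 1, [(0, [0], [1, 5]), (0, [2], [4, 5]), (0, [1], [2, 0]), (4, [], [3])]),
  (-576, 0, 1, [(0, [0], [1, 5]), (0, [2], [4, 5]), (0, [1], [3, 0]), (4, [], [2])]),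
  (576, 0, 1, [(0, [0], [2, 5]), (0, [2], [0, 5]), (0, [1], [1, 4]), (4, [], [3])]),
  (576, 0, 1, [(0, [0], [2, 5]), (0, [2], [0, 5]), (0, [1], [3, 4]), (4, [], [1])]),
  (288, 0, 1, [(0, [0], [2, 5]), (0, [2], [1, 5]), (0, [1], [3, 4]), (4, [], [0])]),
  (-288, 0, 1, [(0, [0], [2, 5]), (0, [2], [1, 5]), (0, [1], [3, 0]), (4, [], [4])]),
  (288, 0, 1, [(0, [0], [2, 5]), (0, [2], [3, 5]), (0, [1], [1, 4]), (4, [], [0])]),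
  (-288, 0, 1, [(0, [0], [2, 5]), (0, [2], [3, 5]), (0, [1], [1, 0]), (4, [], [4])]),
  (-576, 0, 1, [(0, [0], [2, 5]), (0, [2], [4, 5]), (0, [1], [1, 0]), (4, [], [3])]),
  (-576, 0, 1, [(0, [0], [2, 5]), (0, [2], [4, 5]), (0, [1], [3, 0]), (4, [], [1])]),
  (576, 0, 1, [(0, [0], [3, 5]), (0, [2], [0, 5]), (0, [1], [1, 4]), (4, [], [2])]),
  (576, 0, 1, [(0, [0], [3, 5]), (0, [2], [0, 5]), (0, [1], [2, 4]), (4, [], [1])]),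
  (288, 0, 1, [(0, [0], [3, 5]), (0, [2], [1, 5]), (0, [1], [2, 4]), (4, [], [0])]),
  (-288, 0, 1, [(0, [0], [3, 5]), (0, [2], [1, 5]), (0, [1], [2, 0]), (4, [], [4])]),
  (288, 0, 1, [(0, [0], [3, 5]), (0, [2], [2, 5]), (0, [1], [1, 4]), (4, [], [0])]),
  (-288, 0, 1, [(0, [0], [3, 5]), (0, [2], [2, 5]), (0, [1], [1, 0]), (4, [], [4])]),
  (-576, 0, 1, [(0, [0], [3, 5]), (0, [2], [4, 5]), (0, [1], [1, 0]), (4, [], [2])]),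
  (-576, 0, 1, [(0, [0], [3, 5]), (0, [2], [4, 5]), (0, [1], [2, 0]), (4, [], [1])]),
  (-576, 0, 1, [(0, [0], [4, 5]), (0, [2], [1, 5]), (0, [1], [0, 3]), (4, [], [2])]),
  (-576, 0, 1, [(0, [0], [4, 5]), (0, [2], [1, 5]), (0, [1], [0, 2]), (4, [], [3])]),
  (-288, 0, 1, [(0, [0], [4, 5]), (0, [2], [1, 5]), (0, [1], [2, 3]), (4, [], [0])]),
  (-576, 0, 1, [(0, [0], [4, 5]), (0, [2], [2, 5]), (0, [1], [0, 3]), (4, [], [1])]),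
  (-576, 0, 1, [(0, [0], [4, 5]), (0, [2], [2, 5]), (0, [1], [0, 1]), (4, [], [3])]),
  (-288, 0, 1, [(0, [0], [4, 5]), (0, [2], [2, 5]), (0, [1], [1, 3]), (4, [], [0])]),
  (-576, 0, 1, [(0, [0], [4, 5]), (0, [2], [3, 5]), (0, [1], [0, 2]), (4, [], [1])]),
  (-576, 0, 1, [(0, [0], [4, 5]), (0, [2], [3, 5]), (0, [1], [0, 1]), (4, [], [2])]),
  (-288, 0, 1, [(0, [0], [4, 5]), (0, [2], [3, 5]), (0, [1], [1, 2]), (4, [], [0])]),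
  (288, 0, 1, [(0, [1], [0, 5]), (0, [0], [1, 5]), (0, [2], [2, 3]), (4, [], [4])]),
  (288, 0, 1, [(0, [1], [0, 5]), (0, [0], [2, 5]), (0, [2], [1, 3]), (4, [], [4])]),
  (288, 0, 1, [(0, [1], [0, 5]), (0, [0], [3, 5]), (0, [2], [1, 2]), (4, [], [4])]),
  (-288, 0, 1, [(0, [1], [4, 5]), (0, [0], [1, 5]), (0, [2], [2, 3]), (4, [], [0])]),
  (-288, 0, 1, [(0, [1], [4, 5]), (0, [0], [2, 5]), (0, [2], [1, 3]), (4, [], [0])]),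
  (-288, 0, 1, [(0, [1], [4, 5]), (0, [0], [3, 5]), (0, [2], [1, 2]), (4, [], [0])]),
  (576, 0, 1, [(0, [1], [0, 5]), (0, [2], [1, 5]), (0, [0], [2, 4]), (4, [], [3])]),
  (288, 0, 1, [(0, [1], [0, 5]), (0, [2], [1, 5]), (0, [0], [2, 3]), (4, [], [4])]),
  (576, 0, 1, [(0, [1], [0, 5]), (0, [2], [1, 5]), (0, [0], [3, 4]), (4, [], [2])]),
  (576, 0, 1, [(0, [1], [0, 5]), (0, [2], [2, 5]), (0, [0], [1, 4]), (4, [], [3])]),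
  (288, 0, 1, [(0, [1], [0, 5]), (0, [2], [2, 5]), (0, [0], [1, 3]), (4, [], [4])]),
  (576, 0, 1, [(0, [1], [0, 5]), (0, [2], [2, 5]), (0, [0], [3, 4]), (4, [], [1])]),
  (576, 0, 1, [(0, [1], [0, 5]), (0, [2], [3, 5]), (0, [0], [1, 4]), (4, [], [2])]),
  (288, 0, 1, [(0, [1], [0, 5]), (0, [2], [3, 5]), (0, [0], [1, 2]), (4, [], [4])]),
  (576, 0, 1, [(0, [1], [0, 5]), (0, [2], [3, 5]), (0, [0], [2, 4]), (4, [], [1])]),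
  (576, 0, 1, [(0, [1], [1, 5]), (0, [2], [0, 5]), (0, [0], [2, 4]), (4, [], [3])]),
  (576, 0, 1, [(0, [1], [1, 5]), (0, [2], [0, 5]), (0, [0], [3, 4]), (4, [], [2])]),
  (288, 0, 1, [(0, [1], [1, 5]), (0, [2], [2, 5]), (0, [0], [3, 4]), (4, [], [0])]),
  (-288, 0, 1, [(0, [1], [1, 5]), (0, [2], [2, 5]), (0, [0], [3, 0]), (4, [], [4])]),
  (288, 0, 1, [(0, [1], [1, 5]), (0, [2], [3, 5]), (0, [0], [2, 4]), (4, [], [0])]),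
  (-288, 0, 1, [(0, [1], [1, 5]), (0, [2], [3, 5]), (0, [0], [2, 0]), (4, [], [4])]),
  (-576, 0, 1, [(0, [1], [1, 5]), (0, [2], [4, 5]), (0, [0], [2, 0]), (4, [], [3])]),
  (-576, 0, 1, [(0, [1], [1, 5]), (0, [2], [4, 5]), (0, [0], [3, 0]), (4, [], [2])]),
  (576, 0, 1, [(0, [1], [2, 5]), (0, [2], [0, 5]), (0, [0], [1, 4]), (4, [], [3])]),
  (576, 0, 1, [(0, [1], [2, 5]), (0, [2], [0, 5]), (0, [0], [3, 4]), (4, [], [1])]),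
  (288, 0, 1, [(0, [1], [2, 5]), (0, [2], [1, 5]), (0, [0], [3, 4]), (4, [], [0])]),
  (-288, 0, 1, [(0, [1], [2, 5]), (0, [2], [1, 5]), (0, [0], [3, 0]), (4, [], [4])]),
  (288, 0, 1, [(0, [1], [2, 5]), (0, [2], [3, 5]), (0, [0], [1, 4]), (4, [], [0])]),
  (-288, 0, 1, [(0, [1], [2, 5]), (0, [2], [3, 5]), (0, [0], [1, 0]), (4, [], [4])]),
  (-576, 0, 1, [(0, [1], [2, 5]), (0, [2], [4, 5]), (0, [0], [1, 0]), (4, [], [3])]),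
  (-576, 0, 1, [(0, [1], [2, 5]), (0, [2], [4, 5]), (0, [0], [3, 0]), (4, [], [1])]),
  (576, 0, 1, [(0, [1], [3, 5]), (0, [2], [0, 5]), (0, [0], [1, 4]), (4, [], [2])]),
  (576, 0, 1, [(0, [1], [3, 5]), (0, [2], [0, 5]), (0, [0], [2, 4]), (4, [], [1])]),
  (288, 0, 1, [(0, [1], [3, 5]), (0, [2], [1, 5]), (0, [0], [2, 4]), (4, [], [0])]),
  (-288, 0, 1, [(0, [1], [3, 5]), (0, [2], [1, 5]), (0, [0], [2, 0]), (4, [], [4])]),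
  (288, 0, 1, [(0, [1], [3, 5]), (0, [2], [2, 5]), (0, [0], [1, 4]), (4, [], [0])]),
  (-288, 0, 1, [(0, [1], [3, 5]), (0, [2], [2, 5]), (0, [0], [1, 0]), (4, [], [4])]),
  (-576, 0, 1, [(0, [1], [3, 5]), (0, [2], [4, 5]), (0, [0], [1, 0]), (4, [], [2])]),
  (-576, 0, 1, [(0, [1], [3, 5]), (0, [2], [4, 5]), (0, [0], [2, 0]), (4, [], [1])]),
  (-576, 0, 1, [(0, [1], [4, 5]), (0, [2], [1, 5]), (0, [0], [0, 3]), (4, [], [2])]),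
  (-576, 0, 1, [(0, [1], [4, 5]), (0, [2], [1, 5]), (0, [0], [0, 2]), (4, [], [3])]),
  (-288, 0, 1, [(0, [1], [4, 5]), (0, [2], [1, 5]), (0, [0], [2, 3]), (4, [], [0])]),
  (-576, 0, 1, [(0, [1], [4, 5]), (0, [2], [2, 5]), (0, [0], [0, 3]), (4, [], [1])]),
  (-576, 0, 1, [(0, [1], [4, 5]), (0, [2], [2, 5]), (0, [0], [0, 1]), (4, [], [3])]),
  (-288, 0, 1, [(0, [1], [4, 5]), (0, [2], [2, 5]), (0, [0], [1, 3]), (4, [], [0])]),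
  (-576, 0, 1, [(0, [1], [4, 5]), (0, [2], [3, 5]), (0, [0], [0, 2]), (4, [], [1])]),
  (-576, 0, 1, [(0, [1], [4, 5]), (0, [2], [3, 5]), (0, [0], [0, 1]), (4, [], [2])]),
  (-288, 0, 1, [(0, [1], [4, 5]), (0, [2], [3, 5]), (0, [0], [1, 2]), (4, [], [0])]),
  (288, 0, 1, [(0, [2], [0, 5]), (0, [0], [1, 5]), (0, [1], [2, 3]), (4, [], [4])]),
  (288, 0, 1, [(0, [2], [0, 5]), (0, [0], [2, 5]), (0, [1], [1, 3]), (4, [], [4])]),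
  (288, 0, 1, [(0, [2], [0, 5]), (0, [0], [3, 5]), (0, [1], [1, 2]), (4, [], [4])]),
  (-288, 0, 1, [(0, [2], [4, 5]), (0, [0], [1, 5]), (0, [1], [2, 3]), (4, [], [0])]),
  (-288, 0, 1, [(0, [2], [4, 5]), (0, [0], [2, 5]), (0, [1], [1, 3]), (4, [], [0])]),
  (-288, 0, 1, [(0, [2], [4, 5]), (0, [0], [3, 5]), (0, [1], [1, 2]), (4, [], [0])]),
  (288, 0, 1, [(0, [2], [0, 5]), (0, [1], [1, 5]), (0, [0], [2, 3]), (4, [], [4])]),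
  (288, 0, 1, [(0, [2], [0, 5]), (0, [1], [2, 5]), (0, [0], [1, 3]), (4, [], [4])]),
  (288, 0, 1, [(0, [2], [0, 5]), (0, [1], [3, 5]), (0, [0], [1, 2]), (4, [], [4])]),
  (-288, 0, 1, [(0, [2], [4, 5]), (0, [1], [1, 5]), (0, [0], [2, 3]), (4, [], [0])]),
  (-288, 0, 1, [(0, [2], [4, 5]), (0, [1], [2, 5]), (0, [0], [1, 3]), (4, [], [0])]),
  (-288, 0, 1, [(0, [2], [4, 5]), (0, [1], [3, 5]), (0, [0], [1, 2]), (4, [], [0])])]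

def z23_1 : Cov := [(0, 0, 1, [(0, [0], [0, 5]), (0, [1], [4, 5]), (0, [2], [1, 3]), (4, [], [2])]),
  (0, 0, 1, [(0, [0], [0, 5]), (0, [1], [4, 5]), (0, [2], [1, 2]), (4, [], [3])]),
  (0, 0, 1, [(0, [0], [0, 5]), (0, [1], [4, 5]), (0, [2], [2, 3]), (4, [], [1])]),
  (0, 0, 1, [(0, [0], [1, 5]), (0, [1], [2, 5]), (0, [2], [0, 4]), (4, [], [3])]),
  (0, 0, 1, [(0, [0], [1, 5]), (0, [1], [3, 5]), (0, [2], [0, 4]), (4, [], [2])]),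
  (0, 0, 1, [(0, [0], [2, 5]), (0, [1], [1, 5]), (0, [2], [0, 4]), (4, [], [3])]),
  (0, 0, 1, [(0, [0], [2, 5]), (0, [1], [3, 5]), (0, [2], [0, 4]), (4, [], [1])]),
  (0, 0, 1, [(0, [0], [3, 5]), (0, [1], [1, 5]), (0, [2], [0, 4]), (4, [], [2])]),
  (0, 0, 1, [(0, [0], [3, 5]), (0, [1], [2, 5]), (0, [2], [0, 4]), (4, [], [1])]),
  (0, 0, 1, [(0, [0], [4, 5]), (0, [1], [0, 5]), (0, [2], [1, 3]), (4, [], [2])]),
  (0, 0, 1, [(0, [0], [4, 5]), (0, [1], [0, 5]), (0, [2], [1, 2]), (4, [], [3])]),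
  (0, 0, 1, [(0, [0], [4, 5]), (0, [1], [0, 5]), (0, [2], [2, 3]), (4, [], [1])]),
  (0, 0, 1, [(0, [0], [0, 5]), (0, [2], [4, 5]), (0, [1], [1, 3]), (4, [], [2])]),
  (0, 0, 1, [(0, [0], [0, 5]), (0, [2], [4, 5]), (0, [1], [1, 2]), (4, [], [3])]),
  (0, 0, 1, [(0, [0], [0, 5]), (0, [2], [4, 5]), (0, [1], [2, 3]), (4, [], [1])]),
  (0, 0, 1, [(0, [0], [1, 5]), (0, [2], [2, 5]), (0, [1], [0, 4]), (4, [], [3])]),
  (0, 0, 1, [(0, [0], [1, 5]), (0, [2], [3, 5]), (0, [1], [0, 4]), (4, [], [2])]),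
  (0, 0, 1, [(0, [0], [2, 5]), (0, [2], [1, 5]), (0, [1], [0, 4]), (4, [], [3])]),
  (0, 0, 1, [(0, [0], [2, 5]), (0, [2], [3, 5]), (0, [1], [0, 4]), (4, [], [1])]),
  (0, 0, 1, [(0, [0], [3, 5]), (0, [2], [1, 5]), (0, [1], [0, 4]), (4, [], [2])]),
  (0, 0, 1, [(0, [0], [3, 5]), (0, [2], [2, 5]), (0, [1], [0, 4]), (4, [], [1])]),
  (0, 0, 1, [(0, [0], [4, 5]), (0, [2], [0, 5]), (0, [1], [1, 3]), (4, [], [2])]),
  (0, 0, 1, [(0, [0], [4, 5]), (0, [2], [0, 5]), (0, [1], [1, 2]), (4, [], [3])]),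
  (0, 0, 1, [(0, [0], [4, 5]), (0, [2], [0, 5]), (0, [1], [2, 3]), (4, [], [1])]),
  (0, 0, 1, [(0, [1], [0, 5]), (0, [2], [4, 5]), (0, [0], [1, 3]), (4, [], [2])]),
  (0, 0, 1, [(0, [1], [0, 5]), (0, [2], [4, 5]), (0, [0], [1, 2]), (4, [], [3])]),
  (0, 0, 1, [(0, [1], [0, 5]), (0, [2], [4, 5]), (0, [0], [2, 3]), (4, [], [1])]),
  (0, 0, 1, [(0, [1], [1, 5]), (0, [2], [2, 5]), (0, [0], [0, 4]), (4, [], [3])]),
  (0, 0, 1, [(0, [1], [1, 5]), (0, [2], [3, 5]), (0, [0], [0, 4]), (4, [], [2])]),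
  (0, 0, 1, [(0, [1], [2, 5]), (0, [2], [1, 5]), (0, [0], [0, 4]), (4, [], [3])]),
  (0, 0, 1, [(0, [1], [2, 5]), (0, [2], [3, 5]), (0, [0], [0, 4]), (4, [], [1])]),
  (0, 0, 1, [(0, [1], [3, 5]), (0, [2], [1, 5]), (0, [0], [0, 4]), (4, [], [2])]),
  (0, 0, 1, [(0, [1], [3, 5]), (0, [2], [2, 5]), (0, [0], [0, 4]), (4, [], [1])]),
  (0, 0, 1, [(0, [1], [4, 5]), (0, [2], [0, 5]), (0, [0], [1, 3]), (4, [], [2])]),
  (0, 0, 1, [(0, [1], [4, 5]), (0, [2], [0, 5]), (0, [0], [1, 2]), (4, [], [3])]),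
  (0, 0, 1, [(0, [1], [4, 5]), (0, [2], [0, 5]), (0, [0], [2, 3]), (4, [], [1])])]

def w23_1 : List (List Wit) := [[(0, 0, 0, 0, 0), (1, 0, 0, 0, 0), (2, 0, 0, 0, 0), (1, 0, 0, 0, 0), (2, 0, 0, 0, 0), (0, 0, 0, 0, 0), (3, 0, 0, 0, 0), (4, 0, 0, 0, 0), (5, 0, 0, 0, 0), (4, 0, 0, 0, 0), (5, 0, 0, 0, 0), (3, 0, 0, 0, 0), (6, 0, 0, 0, 0), (7, 0, 0, 0, 0), (8, 0, 0, 0, 0), (7, 0, 0, 0, 0), (8, 0, 0, 0, 0), (6, 0, 0, 0, 0), (144, 0, 0, 0, 0), (145, 0, 0, 0, 0), (146, 0, 0, 0, 0), (145, 0, 0, 0, 0), (146, 0, 0, 0, 0), (144, 0, 0, 0, 0), (9, 0, 0, 0, 0), (10, 0, 0, 0, 0), (147, 0, 0, 0, 0), (11, 0, 0, 0, 0), (12, 0, 0, 0, 0), (147, 0, 0, 0, 0), (148, 0, 0, 0, 0), (13, 0, 0, 0, 0), (14, 0, 0, 0, 0), (148, 0, 0, 0, 0), (15, 0, 0, 0, 0), (16, 0, 0, 0, 0), (17, 0, 0, 0, 0), (18, 0, 0, 0, 0), (149, 0, 0, 0, 0), (19, 0, 0, 0, 0), (20, 0,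 0, 0, 0), (149, 0, 0, 0, 0), (150, 0, 0, 0, 0), (21, 0, 0, 0, 0), (22, 0, 0, 0, 0), (150, 0, 0, 0, 0), (23, 0, 0, 0, 0), (24, 0, 0, 0, 0), (25, 0, 0, 0, 0), (26, 0, 0, 0, 0), (151, 0, 0, 0, 0), (27, 0, 0, 0, 0), (28, 0, 0, 0, 0), (151, 0, 0, 0, 0), (152, 0, 0, 0, 0), (29, 0, 0, 0, 0), (30, 0, 0, 0, 0), (152, 0, 0, 0, 0), (31, 0, 0, 0, 0), (32, 0, 0, 0, 0), (153, 0, 0, 0, 0), (154, 0, 0, 0, 0), (155, 0, 0, 0, 0), (154, 0, 0, 0, 0), (155, 0, 0, 0, 0), (153, 0, 0, 0, 0), (33, 0, 0, 0, 0), (34, 0, 0, 0, 0), (35, 0, 0, 0, 0), (34, 0, 0, 0, 0), (35, 0, 0, 0, 0), (33, 0, 0, 0, 0), (36, 0, 0, 0, 0), (37, 0, 0, 0, 0), (38, 0, 0, 0, 0), (37, 0, 0, 0, 0), (38, 0, 0, 0, 0), (36, 0, 0, 0, 0), (39, 0, 0, 0, 0), (40, 0, 0, 0, 0), (41, 0, 0, 0, 0), (40, 0, 0, 0, 0), (41, 0, 0, 0, 0), (39, 0, 0, 0, 0)],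
  [(42, 0, 0, 0, 0), (43, 0, 0, 0, 0), (44, 0, 0, 0, 0), (43, 0, 0, 0, 0), (44, 0, 0, 0, 0), (42, 0, 0, 0, 0), (45, 0, 0, 0, 0), (46, 0, 0, 0, 0), (47, 0, 0, 0, 0), (46, 0, 0, 0, 0), (47, 0, 0, 0, 0), (45, 0, 0, 0, 0), (48, 0, 0, 0, 0), (49, 0, 0, 0, 0), (50, 0, 0, 0, 0), (49, 0, 0, 0, 0), (50, 0, 0, 0, 0), (48, 0, 0, 0, 0), (156, 0, 0, 0, 0), (157, 0, 0, 0, 0), (158, 0, 0, 0, 0), (157, 0, 0, 0, 0), (158, 0, 0, 0, 0), (156, 0, 0, 0, 0), (51, 0, 0, 0, 0), (52, 0, 0, 0, 0), (159, 0, 0, 0, 0), (53, 0, 0, 0, 0), (54, 0, 0, 0, 0), (159, 0, 0, 0, 0), (160, 0, 0, 0, 0), (55, 0, 0, 0, 0), (56, 0, 0, 0, 0), (160, 0, 0, 0, 0), (57, 0, 0, 0, 0), (58, 0, 0, 0, 0), (59, 0, 0, 0, 0), (60, 0, 0, 0, 0), (161, 0, 0, 0, 0), (61, 0, 0, 0, 0), (62, 0, 0, 0, 0), (161, 0, 0, 0, 0), (162, 0, 0, 0, 0), (63, 0, 0, 0, 0), (64, 0, 0, 0, 0), (162, 0, 0,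 0, 0), (65, 0, 0, 0, 0), (66, 0, 0, 0, 0), (67, 0, 0, 0, 0), (68, 0, 0, 0, 0), (163, 0, 0, 0, 0), (69, 0, 0, 0, 0), (70, 0, 0, 0, 0), (163, 0, 0, 0, 0), (164, 0, 0, 0, 0), (71, 0, 0, 0, 0), (72, 0, 0, 0, 0), (164, 0, 0, 0, 0), (73, 0, 0, 0, 0), (74, 0, 0, 0, 0), (165, 0, 0, 0, 0), (166, 0, 0, 0, 0), (167, 0, 0, 0, 0), (166, 0, 0, 0, 0), (167, 0, 0, 0, 0), (165, 0, 0, 0, 0), (75, 0, 0, 0, 0), (76, 0, 0, 0, 0), (77, 0, 0, 0, 0), (76, 0, 0, 0, 0), (77, 0, 0, 0, 0), (75, 0, 0, 0, 0), (78, 0, 0, 0, 0), (79, 0, 0, 0, 0), (80, 0, 0, 0, 0), (79, 0, 0, 0, 0), (80, 0, 0, 0, 0), (78, 0, 0, 0, 0), (81, 0, 0, 0, 0), (82, 0, 0, 0, 0), (83, 0, 0, 0, 0), (82, 0, 0, 0, 0), (83, 0, 0, 0, 0), (81, 0, 0, 0, 0)],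
  [(9, 0, 0, 0, 0), (84, 0, 0, 0, 0), (10, 0, 0, 0, 0), (84, 0, 0, 0, 0), (10, 0, 0, 0, 0), (9, 0, 0, 0, 0), (17, 0, 0, 0, 0), (85, 0, 0, 0, 0), (18, 0, 0, 0, 0), (85, 0, 0, 0, 0), (18, 0, 0, 0, 0), (17, 0, 0, 0, 0), (25, 0, 0, 0, 0), (86, 0, 0, 0, 0), (26, 0, 0, 0, 0), (86, 0, 0, 0, 0), (26, 0, 0, 0, 0), (25, 0, 0, 0, 0), (153, 0, 0, 0, 0), (154, 0, 0, 0, 0), (155, 0, 0, 0, 0), (154, 0, 0, 0, 0), (155, 0, 0, 0, 0), (153, 0, 0, 0, 0), (0, 0, 0, 0, 0), (2, 0, 0, 0, 0), (149, 0, 0, 0, 0), (19, 0, 0, 0, 0), (20, 0, 0, 0, 0), (149, 0, 0, 0, 0), (151, 0, 0, 0, 0), (27, 0, 0, 0, 0), (28, 0, 0, 0, 0), (151, 0, 0, 0, 0), (34, 0, 0, 0, 0), (33, 0, 0, 0, 0), (3, 0, 0, 0, 0), (5, 0, 0, 0, 0), (147, 0, 0, 0, 0), (11, 0, 0, 0, 0), (12, 0, 0, 0, 0), (147, 0, 0, 0, 0), (152, 0, 0, 0, 0), (29, 0, 0, 0, 0), (30, 0, 0, 0, 0), (152, 0, 0, 0, 0),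 (37, 0, 0, 0, 0), (36, 0, 0, 0, 0), (6, 0, 0, 0, 0), (8, 0, 0, 0, 0), (148, 0, 0, 0, 0), (13, 0, 0, 0, 0), (14, 0, 0, 0, 0), (148, 0, 0, 0, 0), (150, 0, 0, 0, 0), (21, 0, 0, 0, 0), (22, 0, 0, 0, 0), (150, 0, 0, 0, 0), (40, 0, 0, 0, 0), (39, 0, 0, 0, 0), (144, 0, 0, 0, 0), (145, 0, 0, 0, 0), (146, 0, 0, 0, 0), (145, 0, 0, 0, 0), (146, 0, 0, 0, 0), (144, 0, 0, 0, 0), (16, 0, 0, 0, 0), (15, 0, 0, 0, 0), (87, 0, 0, 0, 0), (15, 0, 0, 0, 0), (87, 0, 0, 0, 0), (16, 0, 0, 0, 0), (24, 0, 0, 0, 0), (23, 0, 0, 0, 0), (88, 0, 0, 0, 0), (23, 0, 0, 0, 0), (88, 0, 0, 0, 0), (24, 0, 0, 0, 0), (32, 0, 0, 0, 0), (31, 0, 0, 0, 0), (89, 0, 0, 0, 0), (31, 0, 0, 0, 0), (89, 0, 0, 0, 0), (32, 0, 0, 0, 0)],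
  [(90, 0, 0, 0, 0), (91, 0, 0, 0, 0), (92, 0, 0, 0, 0), (91, 0, 0, 0, 0), (92, 0, 0, 0, 0), (90, 0, 0, 0, 0), (93, 0, 0, 0, 0), (94, 0, 0, 0, 0), (95, 0, 0, 0, 0), (94, 0, 0, 0, 0), (95, 0, 0, 0, 0), (93, 0, 0, 0, 0), (96, 0, 0, 0, 0), (97, 0, 0, 0, 0), (98, 0, 0, 0, 0), (97, 0, 0, 0, 0), (98, 0, 0, 0, 0), (96, 0, 0, 0, 0), (168, 0, 0, 0, 0), (169, 0, 0, 0, 0), (170, 0, 0, 0, 0), (169, 0, 0, 0, 0), (170, 0, 0, 0, 0), (168, 0, 0, 0, 0), (99, 0, 0, 0, 0), (100, 0, 0, 0, 0), (171, 0, 0, 0, 0), (101, 0, 0, 0, 0), (102, 0, 0, 0, 0), (171, 0, 0, 0, 0), (172, 0, 0, 0, 0), (103, 0, 0, 0, 0), (104, 0, 0, 0, 0), (172, 0, 0, 0, 0), (105, 0, 0, 0, 0), (106, 0, 0, 0, 0), (107, 0, 0, 0, 0), (108, 0, 0, 0, 0), (173, 0, 0, 0, 0), (109, 0, 0, 0, 0), (110, 0, 0, 0, 0), (173, 0, 0, 0, 0), (174, 0, 0, 0, 0), (111, 0, 0, 0, 0), (112, 0, 0, 0, 0),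 (174, 0, 0, 0, 0), (113, 0, 0, 0, 0), (114, 0, 0, 0, 0), (115, 0, 0, 0, 0), (116, 0, 0, 0, 0), (175, 0, 0, 0, 0), (117, 0, 0, 0, 0), (118, 0, 0, 0, 0), (175, 0, 0, 0, 0), (176, 0, 0, 0, 0), (119, 0, 0, 0, 0), (120, 0, 0, 0, 0), (176, 0, 0, 0, 0), (121, 0, 0, 0, 0), (122, 0, 0, 0, 0), (177, 0, 0, 0, 0), (178, 0, 0, 0, 0), (179, 0, 0, 0, 0), (178, 0, 0, 0, 0), (179, 0, 0, 0, 0), (177, 0, 0, 0, 0), (123, 0, 0, 0, 0), (124, 0, 0, 0, 0), (125, 0, 0, 0, 0), (124, 0, 0, 0, 0), (125, 0, 0, 0, 0), (123, 0, 0, 0, 0), (126, 0, 0, 0, 0), (127, 0, 0, 0, 0), (128, 0, 0, 0, 0), (127, 0, 0, 0, 0), (128, 0, 0, 0, 0), (126, 0, 0, 0, 0), (129, 0, 0, 0, 0), (130, 0, 0, 0, 0), (131, 0, 0, 0, 0), (130, 0, 0, 0, 0), (131, 0, 0, 0, 0), (129, 0, 0, 0, 0)],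
  [(51, 0, 0, 0, 0), (132, 0, 0, 0, 0), (52, 0, 0, 0, 0), (132, 0, 0, 0, 0), (52, 0, 0, 0, 0), (51, 0, 0, 0, 0), (59, 0, 0, 0, 0), (133, 0, 0, 0, 0), (60, 0, 0, 0, 0), (133, 0, 0, 0, 0), (60, 0, 0, 0, 0), (59, 0, 0, 0, 0), (67, 0, 0, 0, 0), (134, 0, 0, 0, 0), (68, 0, 0, 0, 0), (134, 0, 0, 0, 0), (68, 0, 0, 0, 0), (67, 0, 0, 0, 0), (165, 0, 0, 0, 0), (166, 0, 0, 0, 0), (167, 0, 0, 0, 0), (166, 0, 0, 0, 0), (167, 0, 0, 0, 0), (165, 0, 0, 0, 0), (42, 0, 0, 0, 0), (44, 0, 0, 0, 0), (161, 0, 0, 0, 0), (61, 0, 0, 0, 0), (62, 0, 0, 0, 0), (161, 0, 0, 0, 0), (163, 0, 0, 0, 0), (69, 0, 0, 0, 0), (70, 0, 0, 0, 0), (163, 0, 0, 0, 0), (76, 0, 0, 0, 0), (75, 0, 0, 0, 0), (45, 0, 0, 0, 0), (47, 0, 0, 0, 0), (159, 0, 0, 0, 0), (53, 0, 0, 0, 0), (54, 0, 0, 0, 0), (159, 0, 0, 0, 0), (164, 0, 0, 0, 0), (71, 0, 0, 0, 0), (72, 0, 0, 0, 0), (164,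 0, 0, 0, 0), (79, 0, 0, 0, 0), (78, 0, 0, 0, 0), (48, 0, 0, 0, 0), (50, 0, 0, 0, 0), (160, 0, 0, 0, 0), (55, 0, 0, 0, 0), (56, 0, 0, 0, 0), (160, 0, 0, 0, 0), (162, 0, 0, 0, 0), (63, 0, 0, 0, 0), (64, 0, 0, 0, 0), (162, 0, 0, 0, 0), (82, 0, 0, 0, 0), (81, 0, 0, 0, 0), (156, 0, 0, 0, 0), (157, 0, 0, 0, 0), (158, 0, 0, 0, 0), (157, 0, 0, 0, 0), (158, 0, 0, 0, 0), (156, 0, 0, 0, 0), (58, 0, 0, 0, 0), (57, 0, 0, 0, 0), (135, 0, 0, 0, 0), (57, 0, 0, 0, 0), (135, 0, 0, 0, 0), (58, 0, 0, 0, 0), (66, 0, 0, 0, 0), (65, 0, 0, 0, 0), (136, 0, 0, 0, 0), (65, 0, 0, 0, 0), (136, 0, 0, 0, 0), (66, 0, 0, 0, 0), (74, 0, 0, 0, 0), (73, 0, 0, 0, 0), (137, 0, 0, 0, 0), (73, 0, 0, 0, 0), (137, 0, 0, 0, 0), (74, 0, 0, 0, 0)],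
  [(99, 0, 0, 0, 0), (138, 0, 0, 0, 0), (100, 0, 0, 0, 0), (138, 0, 0, 0, 0), (100, 0, 0, 0, 0), (99, 0, 0, 0, 0), (107, 0, 0, 0, 0), (139, 0, 0, 0, 0), (108, 0, 0, 0, 0), (139, 0, 0, 0, 0), (108, 0, 0, 0, 0), (107, 0, 0, 0, 0), (115, 0, 0, 0, 0), (140, 0, 0, 0, 0), (116, 0, 0, 0, 0), (140, 0, 0, 0, 0), (116, 0, 0, 0, 0), (115, 0, 0, 0, 0), (177, 0, 0, 0, 0), (178, 0, 0, 0, 0), (179, 0, 0, 0, 0), (178, 0, 0, 0, 0), (179, 0, 0, 0, 0), (177, 0, 0, 0, 0), (90, 0, 0, 0, 0), (92, 0, 0, 0, 0), (173, 0, 0, 0, 0), (109, 0, 0, 0, 0), (110, 0, 0, 0, 0), (173, 0, 0, 0, 0), (175, 0, 0, 0, 0), (117, 0, 0, 0, 0), (118, 0, 0, 0, 0), (175, 0, 0, 0, 0), (124, 0, 0, 0, 0), (123, 0, 0, 0, 0), (93, 0, 0, 0, 0), (95, 0, 0, 0, 0), (171, 0, 0, 0, 0), (101, 0, 0, 0, 0), (102, 0, 0, 0, 0), (171, 0, 0, 0, 0), (176, 0, 0, 0, 0), (119, 0, 0, 0, 0), (120,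 0, 0, 0, 0), (176, 0, 0, 0, 0), (127, 0, 0, 0, 0), (126, 0, 0, 0, 0), (96, 0, 0, 0, 0), (98, 0, 0, 0, 0), (172, 0, 0, 0, 0), (103, 0, 0, 0, 0), (104, 0, 0, 0, 0), (172, 0, 0, 0, 0), (174, 0, 0, 0, 0), (111, 0, 0, 0, 0), (112, 0, 0, 0, 0), (174, 0, 0, 0, 0), (130, 0, 0, 0, 0), (129, 0, 0, 0, 0), (168, 0, 0, 0, 0), (169, 0, 0, 0, 0), (170, 0, 0, 0, 0), (169, 0, 0, 0, 0), (170, 0, 0, 0, 0), (168, 0, 0, 0, 0), (106, 0, 0, 0, 0), (105, 0, 0, 0, 0), (141, 0, 0, 0, 0), (105, 0, 0, 0, 0), (141, 0, 0, 0, 0), (106, 0, 0, 0, 0), (114, 0, 0, 0, 0), (113, 0, 0, 0, 0), (142, 0, 0, 0, 0), (113, 0, 0, 0, 0), (142, 0, 0, 0, 0), (114, 0, 0, 0, 0), (122, 0, 0, 0, 0), (121, 0, 0, 0, 0), (143, 0, 0, 0, 0), (121, 0, 0, 0, 0), (143, 0, 0, 0, 0), (122, 0, 0, 0, 0)]]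

def m23_2 : Base := (0, 1, [(0, [0], [0, 5]), (0, [1], [1, 2]), (0, [2], [3, 4]), (4, [], [5])])

def l23_2 : Cov := [(1440, 0, 1, [(0, [0], [0, 5]), (0, [1], [1, 2]), (0, [2], [3, 4]), (4, [], [5])]),
  (1440, 0, 1, [(0, [0], [0, 5]), (0, [1], [1, 3]), (0, [2], [2, 4]), (4, [], [5])]),
  (1440, 0, 1, [(0, [0], [0, 5]), (0, [1], [1, 4]), (0, [2], [2, 3]), (4, [], [5])]),
  (1440, 0, 1, [(0, [0], [0, 5]), (0, [1], [2, 3]), (0, [2], [1, 4]), (4, [], [5])]),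
  (1440, 0, 1, [(0, [0], [0, 5]), (0, [1], [2, 4]), (0, [2], [1, 3]), (4, [], [5])]),
  (1440, 0, 1, [(0, [0], [0, 5]), (0, [1], [3, 4]), (0, [2], [1, 2]), (4, [], [5])]),
  (-1440, 0, 1, [(0, [0], [4, 5]), (0, [1], [0, 1]), (0, [2], [2, 3]), (4, [], [5])]),
  (-1440, 0, 1, [(0, [0], [4, 5]), (0, [1], [0, 2]), (0, [2], [1, 3]), (4, [], [5])]),
  (-1440, 0, 1, [(0, [0], [4, 5]), (0, [1], [0, 3]), (0, [2], [1, 2]), (4, [], [5])]),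
  (-1440, 0, 1, [(0, [0], [4, 5]), (0, [1], [1, 2]), (0, [2], [0, 3]), (4, [], [5])]),
  (-1440, 0, 1, [(0, [0], [4, 5]), (0, [1], [1, 3]), (0, [2], [0, 2]), (4, [], [5])]),
  (-1440, 0, 1, [(0, [0], [4, 5]), (0, [1], [2, 3]), (0, [2], [0, 1]), (4, [], [5])]),
  (1440, 0, 1, [(0, [1], [0, 5]), (0, [0], [1, 2]), (0, [2], [3, 4]), (4, [], [5])]),
  (1440, 0, 1, [(0, [1], [0, 5]), (0, [0], [1, 3]), (0, [2], [2, 4]), (4, [], [5])]),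
  (1440, 0, 1, [(0, [1], [0, 5]), (0, [0], [1, 4]), (0, [2], [2, 3]), (4, [], [5])]),
  (1440, 0, 1, [(0, [1], [0, 5]), (0, [0], [2, 3]), (0, [2], [1, 4]), (4, [], [5])]),
  (1440, 0, 1, [(0, [1], [0, 5]), (0, [0], [2, 4]), (0, [2], [1, 3]), (4, [], [5])]),
  (1440, 0, 1, [(0, [1], [0, 5]), (0, [0], [3, 4]), (0, [2], [1, 2]), (4, [], [5])]),
  (-1440, 0, 1, [(0, [1], [4, 5]), (0, [0], [0, 1]), (0, [2], [2, 3]), (4, [], [5])]),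
  (-1440, 0, 1, [(0, [1], [4, 5]), (0, [0], [0, 2]), (0, [2], [1, 3]), (4, [], [5])]),
  (-1440, 0, 1, [(0, [1], [4, 5]), (0, [0], [0, 3]), (0, [2], [1, 2]), (4, [], [5])]),
  (-1440, 0, 1, [(0, [1], [4, 5]), (0, [0], [1, 2]), (0, [2], [0, 3]), (4, [], [5])]),
  (-1440, 0, 1, [(0, [1], [4, 5]), (0, [0], [1, 3]), (0, [2], [0, 2]), (4, [], [5])]),
  (-1440, 0, 1, [(0, [1], [4, 5]), (0, [0], [2, 3]), (0, [2], [0, 1]), (4, [], [5])]),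
  (1440, 0, 1, [(0, [2], [0, 5]), (0, [0], [1, 2]), (0, [1], [3, 4]), (4, [], [5])]),
  (1440, 0, 1, [(0, [2], [0, 5]), (0, [0], [1, 3]), (0, [1], [2, 4]), (4, [], [5])]),
  (1440, 0, 1, [(0, [2], [0, 5]), (0, [0], [1, 4]), (0, [1], [2, 3]), (4, [], [5])]),
  (1440, 0, 1, [(0, [2], [0, 5]), (0, [0], [2, 3]), (0, [1], [1, 4]), (4, [], [5])]),
  (1440, 0, 1, [(0, [2], [0, 5]), (0, [0], [2, 4]), (0, [1], [1, 3]), (4, [], [5])]),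
  (1440, 0, 1, [(0, [2], [0, 5]), (0, [0], [3, 4]), (0, [1], [1, 2]), (4, [], [5])]),
  (-1440, 0, 1, [(0, [2], [4, 5]), (0, [0], [0, 1]), (0, [1], [2, 3]), (4, [], [5])]),
  (-1440, 0, 1, [(0, [2], [4, 5]), (0, [0], [0, 2]), (0, [1], [1, 3]), (4, [], [5])]),
  (-1440, 0, 1, [(0, [2], [4, 5]), (0, [0], [0, 3]), (0, [1], [1, 2]), (4, [], [5])]),
  (-1440, 0, 1, [(0, [2], [4, 5]), (0, [0], [1, 2]), (0, [1], [0, 3]), (4, [], [5])]),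
  (-1440, 0, 1, [(0, [2], [4, 5]), (0, [0], [1, 3]), (0, [1], [0, 2]), (4, [], [5])]),
  (-1440, 0, 1, [(0, [2], [4, 5]), (0, [0], [2, 3]), (0, [1], [0, 1]), (4, [], [5])])]

def z23_2 : Cov := [(0, 0, 1, [(0, [0], [1, 5]), (0, [1], [0, 2]), (0, [2], [3, 4]), (4, [], [5])]),
  (0, 0, 1, [(0, [0], [1, 5]), (0, [1], [0, 3]), (0, [2], [2, 4]), (4, [], [5])]),
  (0, 0, 1, [(0, [0], [1, 5]), (0, [1], [2, 3]), (0, [2], [0, 4]), (4, [], [5])]),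
  (0, 0, 1, [(0, [0], [1, 5]), (0, [1], [2, 4]), (0, [2], [3, 0]), (4, [], [5])]),
  (0, 0, 1, [(0, [0], [1, 5]), (0, [1], [3, 4]), (0, [2], [2, 0]), (4, [], [5])]),
  (0, 0, 1, [(0, [0], [2, 5]), (0, [1], [0, 1]), (0, [2], [3, 4]), (4, [], [5])]),
  (0, 0, 1, [(0, [0], [2, 5]), (0, [1], [0, 3]), (0, [2], [1, 4]), (4, [], [5])]),
  (0, 0, 1, [(0, [0], [2, 5]), (0, [1], [1, 3]), (0, [2], [0, 4]), (4, [], [5])]),
  (0, 0, 1, [(0, [0], [2, 5]), (0, [1], [1, 4]), (0, [2], [3, 0]), (4, [], [5])]),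
  (0, 0, 1, [(0, [0], [2, 5]), (0, [1], [3, 4]), (0, [2], [1, 0]), (4, [], [5])]),
  (0, 0, 1, [(0, [0], [3, 5]), (0, [1], [0, 1]), (0, [2], [2, 4]), (4, [], [5])]),
  (0, 0, 1, [(0, [0], [3, 5]), (0, [1], [0, 2]), (0, [2], [1, 4]), (4, [], [5])]),
  (0, 0, 1, [(0, [0], [3, 5]), (0, [1], [1, 2]), (0, [2], [0, 4]), (4, [], [5])]),
  (0, 0, 1, [(0, [0], [3, 5]), (0, [1], [1, 4]), (0, [2], [2, 0]), (4, [], [5])]),
  (0, 0, 1, [(0, [0], [3, 5]), (0, [1], [2, 4]), (0, [2], [1, 0]), (4, [], [5])]),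
  (0, 0, 1, [(0, [0], [1, 5]), (0, [2], [2, 3]), (0, [1], [0, 4]), (4, [], [5])]),
  (0, 0, 1, [(0, [0], [2, 5]), (0, [2], [1, 3]), (0, [1], [0, 4]), (4, [], [5])]),
  (0, 0, 1, [(0, [0], [3, 5]), (0, [2], [1, 2]), (0, [1], [0, 4]), (4, [], [5])]),
  (0, 0, 1, [(0, [1], [1, 5]), (0, [0], [0, 2]), (0, [2], [3, 4]), (4, [], [5])]),
  (0, 0, 1, [(0, [1], [1, 5]), (0, [0], [0, 3]), (0, [2], [2, 4]), (4, [], [5])]),
  (0, 0, 1, [(0, [1], [1, 5]), (0, [0], [2, 3]), (0, [2], [0, 4]), (4, [], [5])]),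
  (0, 0, 1, [(0, [1], [1, 5]), (0, [0], [2, 4]), (0, [2], [3, 0]), (4, [], [5])]),
  (0, 0, 1, [(0, [1], [1, 5]), (0, [0], [3, 4]), (0, [2], [2, 0]), (4, [], [5])]),
  (0, 0, 1, [(0, [1], [2, 5]), (0, [0], [0, 1]), (0, [2], [3, 4]), (4, [], [5])]),
  (0, 0, 1, [(0, [1], [2, 5]), (0, [0], [0, 3]), (0, [2], [1, 4]), (4, [], [5])]),
  (0, 0, 1, [(0, [1], [2, 5]), (0, [0], [1, 3]), (0, [2], [0, 4]), (4, [], [5])]),
  (0, 0, 1, [(0, [1], [2, 5]), (0, [0], [1, 4]), (0, [2], [3, 0]), (4, [], [5])]),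
  (0, 0, 1, [(0, [1], [2, 5]), (0, [0], [3, 4]), (0, [2], [1, 0]), (4, [], [5])]),
  (0, 0, 1, [(0, [1], [3, 5]), (0, [0], [0, 1]), (0, [2], [2, 4]), (4, [], [5])]),
  (0, 0, 1, [(0, [1], [3, 5]), (0, [0], [0, 2]), (0, [2], [1, 4]), (4, [], [5])]),
  (0, 0, 1, [(0, [1], [3, 5]), (0, [0], [1, 2]), (0, [2], [0, 4]), (4, [], [5])]),
  (0, 0, 1, [(0, [1], [3, 5]), (0, [0], [1, 4]), (0, [2], [2, 0]), (4, [], [5])]),
  (0, 0, 1, [(0, [1], [3, 5]), (0, [0], [2, 4]), (0, [2], [1, 0]), (4, [], [5])]),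
  (0, 0, 1, [(0, [1], [1, 5]), (0, [2], [2, 3]), (0, [0], [0, 4]), (4, [], [5])]),
  (0, 0, 1, [(0, [1], [2, 5]), (0, [2], [1, 3]), (0, [0], [0, 4]), (4, [], [5])]),
  (0, 0, 1, [(0, [1], [3, 5]), (0, [2], [1, 2]), (0, [0], [0, 4]), (4, [], [5])]),
  (0, 0, 1, [(0, [2], [1, 5]), (0, [0], [0, 2]), (0, [1], [3, 4]), (4, [], [5])]),
  (0, 0, 1, [(0, [2], [1, 5]), (0, [0], [0, 3]), (0, [1], [2, 4]), (4, [], [5])]),
  (0, 0, 1, [(0, [2], [1, 5]), (0, [0], [2, 3]), (0, [1], [0, 4]), (4, [], [5])]),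
  (0, 0, 1, [(0, [2], [1, 5]), (0, [0], [2, 4]), (0, [1], [3, 0]), (4, [], [5])]),
  (0, 0, 1, [(0, [2], [1, 5]), (0, [0], [3, 4]), (0, [1], [2, 0]), (4, [], [5])]),
  (0, 0, 1, [(0, [2], [2, 5]), (0, [0], [0, 1]), (0, [1], [3, 4]), (4, [], [5])]),
  (0, 0, 1, [(0, [2], [2, 5]), (0, [0], [0, 3]), (0, [1], [1, 4]), (4, [], [5])]),
  (0, 0, 1, [(0, [2], [2, 5]), (0, [0], [1, 3]), (0, [1], [0, 4]), (4, [], [5])]),
  (0, 0, 1, [(0, [2], [2, 5]), (0, [0], [1, 4]), (0, [1], [3, 0]), (4, [], [5])]),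
  (0, 0, 1, [(0, [2], [2, 5]), (0, [0], [3, 4]), (0, [1], [1, 0]), (4, [], [5])]),
  (0, 0, 1, [(0, [2], [3, 5]), (0, [0], [0, 1]), (0, [1], [2, 4]), (4, [], [5])]),
  (0, 0, 1, [(0, [2], [3, 5]), (0, [0], [0, 2]), (0, [1], [1, 4]), (4, [], [5])]),
  (0, 0, 1, [(0, [2], [3, 5]), (0, [0], [1, 2]), (0, [1], [0, 4]), (4, [], [5])]),
  (0, 0, 1, [(0, [2], [3, 5]), (0, [0], [1, 4]), (0, [1], [2, 0]), (4, [], [5])]),
  (0, 0, 1, [(0, [2], [3, 5]), (0, [0], [2, 4]), (0, [1], [1, 0]), (4, [], [5])]),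
  (0, 0, 1, [(0, [2], [1, 5]), (0, [1], [2, 3]), (0, [0], [0, 4]), (4, [], [5])]),
  (0, 0, 1, [(0, [2], [2, 5]), (0, [1], [1, 3]), (0, [0], [0, 4]), (4, [], [5])]),
  (0, 0, 1, [(0, [2], [3, 5]), (0, [1], [1, 2]), (0, [0], [0, 4]), (4, [], [5])])]

def w23_2 : List (List Wit) := [[(0, 0, 0, 0, 0), (0, 0, 0, 0, 0), (1, 0, 0, 0, 0), (1, 0, 0, 0, 0), (2, 0, 0, 0, 0), (2, 0, 0, 0, 0), (0, 0, 0, 0, 0), (0, 0, 0, 0, 0), (3, 0, 0, 0, 0), (3, 0, 0, 0, 0), (4, 0, 0, 0, 0), (4, 0, 0, 0, 0), (1, 0, 0, 0, 0), (1, 0, 0, 0, 0), (3, 0, 0, 0, 0), (3, 0, 0, 0, 0), (5, 0, 0, 0, 0), (5, 0, 0, 0, 0), (2, 0, 0, 0, 0), (2, 0, 0, 0, 0), (4, 0, 0, 0, 0), (4, 0, 0, 0, 0), (5, 0, 0, 0, 0), (5, 0, 0, 0, 0), (36, 0, 0, 0, 0), (37, 0, 0, 0, 0), (36, 0, 0, 0, 0), (38, 0, 0, 0, 0), (38, 0, 0, 0, 0), (39, 0, 0, 0, 0), (37, 0, 0, 0, 0), (38, 0, 0, 0, 0), (38,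 0, 0, 0, 0), (40, 0, 0, 0, 0), (39, 0, 0, 0, 0), (40, 0, 0, 0, 0), (41, 0, 0, 0, 0), (42, 0, 0, 0, 0), (41, 0, 0, 0, 0), (43, 0, 0, 0, 0), (43, 0, 0, 0, 0), (44, 0, 0, 0, 0), (42, 0, 0, 0, 0), (43, 0, 0, 0, 0), (43, 0, 0, 0, 0), (45, 0, 0, 0, 0), (44, 0, 0, 0, 0), (45, 0, 0, 0, 0), (46, 0, 0, 0, 0), (47, 0, 0, 0, 0), (46, 0, 0, 0, 0), (48, 0, 0, 0, 0), (48, 0, 0, 0, 0), (49, 0, 0, 0, 0), (47, 0, 0, 0, 0), (48, 0, 0, 0, 0), (48, 0, 0, 0, 0), (50, 0, 0, 0, 0), (49, 0, 0, 0, 0), (50, 0, 0, 0, 0), (6, 0, 0, 0, 0), (6, 0, 0, 0, 0), (7, 0, 0, 0, 0), (7, 0, 0, 0, 0), (8, 0, 0, 0, 0), (8, 0, 0, 0, 0), (6, 0, 0, 0, 0), (6, 0, 0, 0, 0), (9, 0, 0, 0, 0), (9, 0, 0, 0, 0), (10, 0, 0, 0, 0), (10, 0, 0, 0, 0), (7, 0, 0, 0, 0), (7, 0, 0, 0, 0), (9, 0, 0, 0, 0), (9, 0, 0, 0, 0), (11, 0, 0, 0, 0), (11, 0, 0, 0, 0), (8, 0, 0, 0, 0), (8, 0, 0, 0,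 0), (10, 0, 0, 0, 0), (10, 0, 0, 0, 0), (11, 0, 0, 0, 0), (11, 0, 0, 0, 0)],
  [(5, 0, 0, 0, 0), (5, 0, 0, 0, 0), (4, 0, 0, 0, 0), (4, 0, 0, 0, 0), (3, 0, 0, 0, 0), (3, 0, 0, 0, 0), (5, 0, 0, 0, 0), (5, 0, 0, 0, 0), (2, 0, 0, 0, 0), (2, 0, 0, 0, 0), (1, 0, 0, 0, 0), (1, 0, 0, 0, 0), (4, 0, 0, 0, 0), (4, 0, 0, 0, 0), (2, 0, 0, 0, 0), (2, 0, 0, 0, 0), (0, 0, 0, 0, 0), (0, 0, 0, 0, 0), (3, 0, 0, 0, 0), (3, 0, 0, 0, 0), (1, 0, 0, 0, 0), (1, 0, 0, 0, 0), (0, 0, 0, 0, 0), (0, 0, 0, 0, 0), (40, 0, 0, 0, 0), (39, 0, 0, 0, 0), (40, 0, 0, 0, 0), (51, 0, 0, 0, 0), (51, 0, 0, 0, 0), (37, 0, 0, 0, 0), (39, 0, 0, 0, 0), (51, 0, 0, 0, 0), (51, 0, 0, 0, 0), (36, 0, 0, 0, 0), (37, 0, 0, 0, 0), (36, 0, 0, 0, 0), (45, 0, 0, 0, 0), (44, 0, 0, 0, 0), (45, 0, 0, 0, 0), (52, 0, 0, 0, 0), (52, 0, 0, 0, 0), (42, 0, 0, 0, 0), (44, 0, 0, 0, 0), (52, 0,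 0, 0, 0), (52, 0, 0, 0, 0), (41, 0, 0, 0, 0), (42, 0, 0, 0, 0), (41, 0, 0, 0, 0), (50, 0, 0, 0, 0), (49, 0, 0, 0, 0), (50, 0, 0, 0, 0), (53, 0, 0, 0, 0), (53, 0, 0, 0, 0), (47, 0, 0, 0, 0), (49, 0, 0, 0, 0), (53, 0, 0, 0, 0), (53, 0, 0, 0, 0), (46, 0, 0, 0, 0), (47, 0, 0, 0, 0), (46, 0, 0, 0, 0), (11, 0, 0, 0, 0), (11, 0, 0, 0, 0), (10, 0, 0, 0, 0), (10, 0, 0, 0, 0), (9, 0, 0, 0, 0), (9, 0, 0, 0, 0), (11, 0, 0, 0, 0), (11, 0, 0, 0, 0), (8, 0, 0, 0, 0), (8, 0, 0, 0, 0), (7, 0, 0, 0, 0), (7, 0, 0, 0, 0), (10, 0, 0, 0, 0), (10, 0, 0, 0, 0), (8, 0, 0, 0, 0), (8, 0, 0, 0, 0), (6, 0, 0, 0, 0), (6, 0, 0, 0, 0), (9, 0, 0, 0, 0), (9, 0, 0, 0, 0), (7, 0, 0, 0, 0), (7, 0, 0, 0, 0), (6, 0, 0, 0, 0), (6, 0, 0, 0, 0)],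
  [(12, 0, 0, 0, 0), (12, 0, 0, 0, 0), (13, 0, 0, 0, 0), (13, 0, 0, 0, 0), (14, 0, 0, 0, 0), (14, 0, 0, 0, 0), (12, 0, 0, 0, 0), (12, 0, 0, 0, 0), (15, 0, 0, 0, 0), (15, 0, 0, 0, 0), (16, 0, 0, 0, 0), (16, 0, 0, 0, 0), (13, 0, 0, 0, 0), (13, 0, 0, 0, 0), (15, 0, 0, 0, 0), (15, 0, 0, 0, 0), (17, 0, 0, 0, 0), (17, 0, 0, 0, 0), (14, 0, 0, 0, 0), (14, 0, 0, 0, 0), (16, 0, 0, 0, 0), (16, 0, 0, 0, 0), (17, 0, 0, 0, 0), (17, 0, 0, 0, 0), (54, 0, 0, 0, 0), (55, 0, 0, 0, 0), (54, 0, 0, 0, 0), (56, 0, 0, 0, 0), (56, 0, 0, 0, 0), (57, 0, 0, 0, 0), (55, 0, 0, 0, 0), (56, 0, 0, 0, 0), (56, 0, 0, 0, 0), (58, 0, 0, 0, 0), (57, 0, 0, 0, 0), (58, 0, 0, 0, 0), (59, 0, 0, 0, 0), (60, 0, 0, 0, 0), (59, 0, 0, 0, 0), (61, 0, 0, 0, 0), (61, 0, 0, 0, 0), (62, 0, 0, 0, 0), (60, 0, 0, 0, 0), (61, 0, 0, 0, 0), (61, 0, 0, 0, 0), (63, 0, 0, 0, 0), (62, 0,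 0, 0, 0), (63, 0, 0, 0, 0), (64, 0, 0, 0, 0), (65, 0, 0, 0, 0), (64, 0, 0, 0, 0), (66, 0, 0, 0, 0), (66, 0, 0, 0, 0), (67, 0, 0, 0, 0), (65, 0, 0, 0, 0), (66, 0, 0, 0, 0), (66, 0, 0, 0, 0), (68, 0, 0, 0, 0), (67, 0, 0, 0, 0), (68, 0, 0, 0, 0), (18, 0, 0, 0, 0), (18, 0, 0, 0, 0), (19, 0, 0, 0, 0), (19, 0, 0, 0, 0), (20, 0, 0, 0, 0), (20, 0, 0, 0, 0), (18, 0, 0, 0, 0), (18, 0, 0, 0, 0), (21, 0, 0, 0, 0), (21, 0, 0, 0, 0), (22, 0, 0, 0, 0), (22, 0, 0, 0, 0), (19, 0, 0, 0, 0), (19, 0, 0, 0, 0), (21, 0, 0, 0, 0), (21, 0, 0, 0, 0), (23, 0, 0, 0, 0), (23, 0, 0, 0, 0), (20, 0, 0, 0, 0), (20, 0, 0, 0, 0), (22, 0, 0, 0, 0), (22, 0, 0, 0, 0), (23, 0, 0, 0, 0), (23, 0, 0, 0, 0)],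
  [(17, 0, 0, 0, 0), (17, 0, 0, 0, 0), (16, 0, 0, 0, 0), (16, 0, 0, 0, 0), (15, 0, 0, 0, 0), (15, 0, 0, 0, 0), (17, 0, 0, 0, 0), (17, 0, 0, 0, 0), (14, 0, 0, 0, 0), (14, 0, 0, 0, 0), (13, 0, 0, 0, 0), (13, 0, 0, 0, 0), (16, 0, 0, 0, 0), (16, 0, 0, 0, 0), (14, 0, 0, 0, 0), (14, 0, 0, 0, 0), (12, 0, 0, 0, 0), (12, 0, 0, 0, 0), (15, 0, 0, 0, 0), (15, 0, 0, 0, 0), (13, 0, 0, 0, 0), (13, 0, 0, 0, 0), (12, 0, 0, 0, 0), (12, 0, 0, 0, 0), (58, 0, 0, 0, 0), (57, 0, 0, 0, 0), (58, 0, 0, 0, 0), (69, 0, 0, 0, 0), (69, 0, 0, 0, 0), (55, 0, 0, 0, 0), (57, 0, 0, 0, 0), (69, 0, 0, 0, 0), (69, 0, 0, 0, 0), (54, 0, 0, 0, 0), (55, 0, 0, 0, 0), (54, 0, 0, 0, 0), (63, 0, 0, 0, 0), (62, 0, 0, 0, 0), (63, 0, 0, 0, 0), (70, 0, 0, 0, 0), (70, 0, 0, 0, 0), (60, 0, 0, 0, 0), (62, 0, 0, 0, 0), (70, 0, 0, 0, 0), (70, 0, 0, 0, 0), (59, 0, 0, 0, 0), (60, 0,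 0, 0, 0), (59, 0, 0, 0, 0), (68, 0, 0, 0, 0), (67, 0, 0, 0, 0), (68, 0, 0, 0, 0), (71, 0, 0, 0, 0), (71, 0, 0, 0, 0), (65, 0, 0, 0, 0), (67, 0, 0, 0, 0), (71, 0, 0, 0, 0), (71, 0, 0, 0, 0), (64, 0, 0, 0, 0), (65, 0, 0, 0, 0), (64, 0, 0, 0, 0), (23, 0, 0, 0, 0), (23, 0, 0, 0, 0), (22, 0, 0, 0, 0), (22, 0, 0, 0, 0), (21, 0, 0, 0, 0), (21, 0, 0, 0, 0), (23, 0, 0, 0, 0), (23, 0, 0, 0, 0), (20, 0, 0, 0, 0), (20, 0, 0, 0, 0), (19, 0, 0, 0, 0), (19, 0, 0, 0, 0), (22, 0, 0, 0, 0), (22, 0, 0, 0, 0), (20, 0, 0, 0, 0), (20, 0, 0, 0, 0), (18, 0, 0, 0, 0), (18, 0, 0, 0, 0), (21, 0, 0, 0, 0), (21, 0, 0, 0, 0), (19, 0, 0, 0, 0), (19, 0, 0, 0, 0), (18, 0, 0, 0, 0), (18, 0, 0, 0, 0)],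
  [(24, 0, 0, 0, 0), (24, 0, 0, 0, 0), (25, 0, 0, 0, 0), (25, 0, 0, 0, 0), (26, 0, 0, 0, 0), (26, 0, 0, 0, 0), (24, 0, 0, 0, 0), (24, 0, 0, 0, 0), (27, 0, 0, 0, 0), (27, 0, 0, 0, 0), (28, 0, 0, 0, 0), (28, 0, 0, 0, 0), (25, 0, 0, 0, 0), (25, 0, 0, 0, 0), (27, 0, 0, 0, 0), (27, 0, 0, 0, 0), (29, 0, 0, 0, 0), (29, 0, 0, 0, 0), (26, 0, 0, 0, 0), (26, 0, 0, 0, 0), (28, 0, 0, 0, 0), (28, 0, 0, 0, 0), (29, 0, 0, 0, 0), (29, 0, 0, 0, 0), (72, 0, 0, 0, 0), (73, 0, 0, 0, 0), (72, 0, 0, 0, 0), (74, 0, 0, 0, 0), (74, 0, 0, 0, 0), (75, 0, 0, 0, 0), (73, 0, 0, 0, 0), (74, 0, 0, 0, 0), (74, 0, 0, 0, 0), (76, 0, 0, 0, 0), (75, 0, 0, 0, 0), (76, 0, 0, 0, 0), (77, 0, 0, 0, 0), (78, 0, 0, 0, 0), (77, 0, 0, 0, 0), (79, 0, 0, 0, 0), (79, 0, 0, 0, 0), (80, 0, 0, 0, 0), (78, 0, 0, 0, 0), (79, 0, 0, 0, 0), (79, 0, 0, 0, 0), (81, 0, 0, 0, 0), (80, 0,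 0, 0, 0), (81, 0, 0, 0, 0), (82, 0, 0, 0, 0), (83, 0, 0, 0, 0), (82, 0, 0, 0, 0), (84, 0, 0, 0, 0), (84, 0, 0, 0, 0), (85, 0, 0, 0, 0), (83, 0, 0, 0, 0), (84, 0, 0, 0, 0), (84, 0, 0, 0, 0), (86, 0, 0, 0, 0), (85, 0, 0, 0, 0), (86, 0, 0, 0, 0), (30, 0, 0, 0, 0), (30, 0, 0, 0, 0), (31, 0, 0, 0, 0), (31, 0, 0, 0, 0), (32, 0, 0, 0, 0), (32, 0, 0, 0, 0), (30, 0, 0, 0, 0), (30, 0, 0, 0, 0), (33, 0, 0, 0, 0), (33, 0, 0, 0, 0), (34, 0, 0, 0, 0), (34, 0, 0, 0, 0), (31, 0, 0, 0, 0), (31, 0, 0, 0, 0), (33, 0, 0, 0, 0), (33, 0, 0, 0, 0), (35, 0, 0, 0, 0), (35, 0, 0, 0, 0), (32, 0, 0, 0, 0), (32, 0, 0, 0, 0), (34, 0, 0, 0, 0), (34, 0, 0, 0, 0), (35, 0, 0, 0, 0), (35, 0, 0, 0, 0)],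
  [(29, 0, 0, 0, 0), (29, 0, 0, 0, 0), (28, 0, 0, 0, 0), (28, 0, 0, 0, 0), (27, 0, 0, 0, 0), (27, 0, 0, 0, 0), (29, 0, 0, 0, 0), (29, 0, 0, 0, 0), (26, 0, 0, 0, 0), (26, 0, 0, 0, 0), (25, 0, 0, 0, 0), (25, 0, 0, 0, 0), (28, 0, 0, 0, 0), (28, 0, 0, 0, 0), (26, 0, 0, 0, 0), (26, 0, 0, 0, 0), (24, 0, 0, 0, 0), (24, 0, 0, 0, 0), (27, 0, 0, 0, 0), (27, 0, 0, 0, 0), (25, 0, 0, 0, 0), (25, 0, 0, 0, 0), (24, 0, 0, 0, 0), (24, 0, 0, 0, 0), (76, 0, 0, 0, 0), (75, 0, 0, 0, 0), (76, 0, 0, 0, 0), (87, 0, 0, 0, 0), (87, 0, 0, 0, 0), (73, 0, 0, 0, 0), (75, 0, 0, 0, 0), (87, 0, 0, 0, 0), (87, 0, 0, 0, 0), (72, 0, 0, 0, 0), (73, 0, 0, 0, 0), (72, 0, 0, 0, 0), (81, 0, 0, 0, 0), (80, 0, 0, 0, 0), (81, 0, 0, 0, 0), (88, 0, 0, 0, 0), (88, 0, 0, 0, 0), (78, 0, 0, 0, 0), (80, 0, 0, 0, 0), (88, 0, 0, 0, 0), (88, 0, 0, 0, 0), (77, 0, 0, 0, 0), (78, 0,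 0, 0, 0), (77, 0, 0, 0, 0), (86, 0, 0, 0, 0), (85, 0, 0, 0, 0), (86, 0, 0, 0, 0), (89, 0, 0, 0, 0), (89, 0, 0, 0, 0), (83, 0, 0, 0, 0), (85, 0, 0, 0, 0), (89, 0, 0, 0, 0), (89, 0, 0, 0, 0), (82, 0, 0, 0, 0), (83, 0, 0, 0, 0), (82, 0, 0, 0, 0), (35, 0, 0, 0, 0), (35, 0, 0, 0, 0), (34, 0, 0, 0, 0), (34, 0, 0, 0, 0), (33, 0, 0, 0, 0), (33, 0, 0, 0, 0), (35, 0, 0, 0, 0), (35, 0, 0, 0, 0), (32, 0, 0, 0, 0), (32, 0, 0, 0, 0), (31, 0, 0, 0, 0), (31, 0, 0, 0, 0), (34, 0, 0, 0, 0), (34, 0, 0, 0, 0), (32, 0, 0, 0, 0), (32, 0, 0, 0, 0), (30, 0, 0, 0, 0), (30, 0, 0, 0, 0), (33, 0, 0, 0, 0), (33, 0, 0, 0, 0), (31, 0, 0, 0, 0), (31, 0, 0, 0, 0), (30, 0, 0, 0, 0), (30, 0, 0, 0, 0)]]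

theorem tr23 : trK keys lk23 kl23 = true := by
  decide +kernel

theorem x23_0 : expB 3 5 dg1 dg5 m23_0 (l23_0 ++ z23_0) w23_0 = true := by
  decide +kernel

theorem x23_1 : expB 3 5 dg1 dg5 m23_1 (l23_1 ++ z23_1) w23_1 = true := by
  decide +kernel

theorem x23_2 : expB 3 5 dg1 dg5 m23_2 (l23_2 ++ z23_2) w23_2 = true := by
  decide +kernel

theorem t23_0_0 : chkS lk23 3 5 [(1, m23_0)] l23_0
  [(20, 33, 258, 103026771, 101975346), (24, 528, 528, 34891056, 52696656), (24, 528, 528, 34887216, 36968016), (23, 528, 528, 34887216, 36968016), (27, 528, 528, 34891056, 52696656), (12, 18, 18, 55640676, 22045251), (23, 528, 528, 34891056, 52696656), (27, 528, 528, 34887216, 36968016), (12, 18, 18, 55648356, 22045506), (21, 33, 258, 87298146, 23351346), (28, 18, 18, 55837026, 22306851), (11, 18, 18, 54592101, 17130051), (28, 18, 18, 55840866,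 22306866), (11, 18, 18, 54599781, 17130306), (13, 33, 258, 69537891, 21366066), (28, 33, 258, 55836966, 5529891), (23, 513, 513, 34887171, 36963921), (12, 33, 258, 55640646, 5333571), (44, 528, 528, 51733056, 54616656), (41, 528, 528, 50684481, 54616581), (29, 33, 258, 56951076, 88105251), (28, 33, 258, 55840806, 5529906), (23, 513, 513, 34891011, 52692561), (12, 33, 258, 55648326, 5333826), (44, 528, 528, 51717696, 37839696), (41, 528, 528, 50669121, 37839621), (29, 33, 258, 56954916, 88105266), (12, 33, 258, 87429186, 73486386), (12, 33, 258, 87425346, 73486371), (14, 33, 258, 86380611, 73467186), (41, 18, 18, 73732146, 88477746), (29, 18, 18, 56951106, 88170531), (27, 18, 18, 55836966, 5529891), (41, 18, 18, 73728306, 88477731), (29, 18, 18, 56954946, 88170546), (27, 18, 18, 55840806, 5529906), (25, 528, 528, 34891056, 52696656),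 (26, 528, 528, 34891056, 52696656), (26, 528, 528, 34887216, 36968016), (22, 528, 528, 34891056, 52696656), (9, 33, 258, 40177731, 88147506), (19, 528, 528, 35017776, 70391376), (22, 528, 528, 34887216, 36968016), (9, 33, 258, 40173891, 88147491), (19, 528, 528, 35013936, 69408336), (35, 18, 18, 55840866, 22306866), (28, 18, 18, 40112211, 85198386), (16, 528, 528, 33969201, 70391301), (28, 18, 18, 40108371, 85198371), (16, 528, 528, 33965361, 69408261), (2, 528, 528, 19162371, 52692321), (28, 513, 513, 101983491, 103023441), (42, 513, 513, 85206531, 40108881), (40, 258, 33, 102827061, 100799811), (4, 513, 513, 101926146, 102973521), (5, 33, 258, 40173891, 88147491), (16, 33, 258, 5317446, 5317446), (28, 513, 513, 101995011, 104071761), (42, 513, 513, 85221891, 56885841), (40, 258, 33, 102842421, 100865346), (4, 513, 513, 101929986,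 103956561), (5, 33, 258, 40177731, 88147506), (16, 33, 258, 5321286, 5321286), (40, 18, 18, 40177716, 88086066), (40, 18, 18, 40173876, 88086051), (34, 18, 18, 39063606, 5510706), (5, 513, 513, 101929986, 103956561), (16, 513, 513, 84288531, 73532181), (19, 513, 513, 85337091, 73532241), (5, 513, 513, 101926146, 102973521), (16, 513, 513, 84296211, 73597461), (19, 513, 513, 85344771, 73597521), (33, 33, 258, 88215651, 23397426), (33, 33, 258, 88211811, 23397411), (39, 33, 258, 72552486, 5652786), (11, 33, 258, 54592086, 1401411), (39, 33, 258, 72548646, 5652771), (11, 33, 258, 54599766, 1401666), (11, 33, 258, 70586466, 21385266), (11, 33, 258, 70582626, 21385251), (41, 33, 258, 73732131, 88473906), (27, 33, 258, 55837026, 22306851), (41, 33, 258, 73728291, 88473891), (27, 33, 258, 55840866, 22306866), (35, 33, 258, 55840806,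 5529906), (38, 33, 258, 55840806, 5529906), (38, 33, 258, 55836966, 5529891), (28, 33, 258, 40112181, 84153906), (11, 18, 18, 40177731, 88147506), (16, 513, 513, 33969171, 70387221), (28, 33, 258, 40108341, 84153891), (11, 18, 18, 40173891, 88147491), (16, 513, 513, 33965331, 69404181), (25, 513, 513, 34891011, 52692561), (22, 528, 528, 101983536, 103027536), (19, 513, 513, 35017731, 70387281), (22, 528, 528, 101995056, 104075856), (19, 513, 513, 35013891, 69404241), (18, 33, 258, 38998086, 5326386), (42, 528, 528, 85206576, 40112976), (28, 528, 528, 101983536, 103027536), (39, 528, 528, 100869441, 102843141), (4, 528, 528, 101926176, 102973776), (7, 18, 18, 40173891, 88147491), (15, 528, 528, 67446321, 38146821), (42, 528, 528, 85221936, 56889936), (28, 528, 528, 101995056, 104075856), (39, 528, 528, 100880961, 103891461), (4,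 528, 528, 101930016, 103956816), (7, 18, 18, 40177731, 88147506), (15, 528, 528, 67461681, 54923781), (16, 258, 33, 2188596, 52434246), (16, 258, 33, 2184756, 36705606), (2, 258, 33, 34825476, 52446801), (5, 528, 528, 101930016, 103956816), (19, 528, 528, 85337136, 73536336), (16, 528, 528, 84288561, 73536261), (5, 528, 528, 101926176, 102973776), (19, 528, 528, 85344816, 73601616), (16, 528, 528, 84296241, 73601541), (38, 18, 18, 55840866, 22306866), (38, 18, 18, 55837026, 22306851), (11, 513, 513, 102847491, 103941441), (39, 513, 513, 100869396, 102777621), (11, 513, 513, 102843651, 102958401), (39, 513, 513, 100880916, 103825941), (39, 18, 18, 40046676, 84952626), (39, 18, 18, 40042836, 84952611), (7, 513, 513, 101929986, 103956561), (15, 513, 513, 67446291, 38142741), (7, 513, 513, 101926146, 102973521), (15, 513, 513, 67461651,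 54919701), (26, 513, 513, 34891011, 52692561), (26, 513, 513, 34887171, 36963921), (15, 18, 18, 56954946, 88170546), (40, 288, 288, 102827091, 101844291), (15, 18, 18, 56951106, 88170531), (40, 288, 288, 102842451, 101909826), (19, 258, 33, 19096836, 52446561), (19, 258, 33, 19092996, 36717921), (7, 528, 528, 101930016, 103956816), (16, 18, 18, 5317476, 22029126), (7, 528, 528, 101926176, 102973776), (16, 18, 18, 5321316, 22032966)]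
  [(2, -1728), (4, 2304), (5, -2304), (7, -2304), (9, 576), (12, -1152), (13, -864), (14, -864), (15, -1728), (16, -5760), (18, -864), (19, -3456), (20, 864), (21, 864), (22, 2880), (23, 2880), (24, 576), (25, 1728), (26, 1152), (27, -1728), (28, 8640), (29, -2304), (33, 576), (34, -864), (35, 1728), (38, 1152), (39, -576), (40, -1152), (41, -2304), (42, 2880), (44, 1152)] = true := by
  decide +kernel

theorem t23_0_1 : chkS lk23 3 5 [(1, m23_0)] l23_1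
  [(24, 528, 528, 34891056, 52696656), (20, 33, 258, 103026771, 101975346), (24, 528, 528, 34887216, 36968016), (27, 528, 528, 34891056, 52696656), (23, 528, 528, 34887216, 36968016), (12, 18, 18, 55640676, 22045251), (27, 528, 528, 34887216, 36968016), (23, 528, 528, 34891056, 52696656), (12, 18, 18, 55648356, 22045506), (33, 33, 258, 88215651, 23397426), (33, 33, 258, 88211811, 23397411), (11, 18, 18, 54592101, 17130051), (28, 18, 18, 55837026, 22306851), (11, 18, 18, 54599781, 17130306), (28, 18, 18, 55840866, 22306866), (11, 33, 258, 70586466, 21385266), (11, 33, 258, 70582626, 21385251), (39, 33, 258, 72552486, 5652786), (11, 33, 258, 54592086, 1401411), (12, 33, 258, 55640646, 5333571), (23, 513, 513, 34887171, 36963921), (41, 528, 528, 50684481, 54616581), (44, 528, 528, 51733056, 54616656), (41, 33, 258, 73732131, 88473906),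 (27, 33, 258, 55837026, 22306851), (39, 33, 258, 72548646, 5652771), (11, 33, 258, 54599766, 1401666), (12, 33, 258, 55648326, 5333826), (23, 513, 513, 34891011, 52692561), (41, 528, 528, 50669121, 37839621), (44, 528, 528, 51717696, 37839696), (41, 33, 258, 73728291, 88473891), (27, 33, 258, 55840866, 22306866), (12, 33, 258, 87425346, 73486371), (12, 33, 258, 87429186, 73486386), (14, 33, 258, 86380611, 73467186), (29, 18, 18, 56951106, 88170531), (41, 18, 18, 73732146, 88477746), (27, 18, 18, 55836966, 5529891), (29, 18, 18, 56954946, 88170546), (41, 18, 18, 73728306, 88477731), (27, 18, 18, 55840806, 5529906), (26, 528, 528, 34891056, 52696656), (25, 528, 528, 34891056, 52696656), (26, 528, 528, 34887216, 36968016), (9, 33, 258, 40177731, 88147506), (22, 528, 528, 34891056, 52696656), (19, 528, 528, 35017776, 70391376), (9,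 33, 258, 40173891, 88147491), (22, 528, 528, 34887216, 36968016), (19, 528, 528, 35013936, 69408336), (38, 18, 18, 55840866, 22306866), (38, 18, 18, 55837026, 22306851), (16, 528, 528, 33969201, 70391301), (28, 18, 18, 40112211, 85198386), (16, 528, 528, 33965361, 69408261), (28, 18, 18, 40108371, 85198371), (39, 18, 18, 40046676, 84952626), (39, 18, 18, 40042836, 84952611), (11, 513, 513, 102847491, 103941441), (39, 513, 513, 100869396, 102777621), (40, 258, 33, 102827061, 100799811), (42, 513, 513, 85206531, 40108881), (5, 33, 258, 40173891, 88147491), (4, 513, 513, 101926146, 102973521), (7, 513, 513, 101929986, 103956561), (15, 513, 513, 67446291, 38142741), (11, 513, 513, 102843651, 102958401), (39, 513, 513, 100880916, 103825941), (40, 258, 33, 102842421, 100865346), (42, 513, 513, 85221891, 56885841), (5, 33, 258, 40177731,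 88147506), (4, 513, 513, 101929986, 103956561), (7, 513, 513, 101926146, 102973521), (15, 513, 513, 67461651, 54919701), (40, 18, 18, 40173876, 88086051), (40, 18, 18, 40177716, 88086066), (34, 18, 18, 39063606, 5510706), (16, 513, 513, 84288531, 73532181), (5, 513, 513, 101929986, 103956561), (19, 513, 513, 85337091, 73532241), (16, 513, 513, 84296211, 73597461), (5, 513, 513, 101926146, 102973521), (19, 513, 513, 85344771, 73597521), (21, 33, 258, 87298146, 23351346), (28, 33, 258, 55836966, 5529891), (28, 33, 258, 55840806, 5529906), (13, 33, 258, 69537891, 21366066), (29, 33, 258, 56951076, 88105251), (29, 33, 258, 56954916, 88105266), (38, 33, 258, 55840806, 5529906), (35, 33, 258, 55840806, 5529906), (38, 33, 258, 55836966, 5529891), (11, 18, 18, 40177731, 88147506), (28, 33, 258, 40112181, 84153906), (16, 513, 513, 33969171,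 70387221), (11, 18, 18, 40173891, 88147491), (28, 33, 258, 40108341, 84153891), (16, 513, 513, 33965331, 69404181), (26, 513, 513, 34891011, 52692561), (26, 513, 513, 34887171, 36963921), (19, 513, 513, 35017731, 70387281), (22, 528, 528, 101983536, 103027536), (19, 513, 513, 35013891, 69404241), (22, 528, 528, 101995056, 104075856), (19, 258, 33, 19096836, 52446561), (19, 258, 33, 19092996, 36717921), (15, 18, 18, 56954946, 88170546), (40, 288, 288, 102827091, 101844291), (39, 528, 528, 100869441, 102843141), (28, 528, 528, 101983536, 103027536), (7, 18, 18, 40173891, 88147491), (4, 528, 528, 101926176, 102973776), (7, 528, 528, 101930016, 103956816), (16, 18, 18, 5317476, 22029126), (15, 18, 18, 56951106, 88170531), (40, 288, 288, 102842451, 101909826), (39, 528, 528, 100880961, 103891461), (28, 528, 528, 101995056, 104075856),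 (7, 18, 18, 40177731, 88147506), (4, 528, 528, 101930016, 103956816), (7, 528, 528, 101926176, 102973776), (16, 18, 18, 5321316, 22032966), (16, 258, 33, 2184756, 36705606), (16, 258, 33, 2188596, 52434246), (2, 258, 33, 34825476, 52446801), (19, 528, 528, 85337136, 73536336), (5, 528, 528, 101930016, 103956816), (16, 528, 528, 84288561, 73536261), (19, 528, 528, 85344816, 73601616), (5, 528, 528, 101926176, 102973776), (16, 528, 528, 84296241, 73601541), (35, 18, 18, 55840866, 22306866), (28, 513, 513, 101983491, 103023441), (28, 513, 513, 101995011, 104071761), (2, 528, 528, 19162371, 52692321), (16, 33, 258, 5317446, 5317446), (16, 33, 258, 5321286, 5321286), (25, 513, 513, 34891011, 52692561), (42, 528, 528, 85206576, 40112976), (42, 528, 528, 85221936, 56889936), (18, 33, 258, 38998086, 5326386), (15, 528, 528, 67446321,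 38146821), (15, 528, 528, 67461681, 54923781)]
  [(2, -576), (4, -1152), (5, -1728), (7, -1728), (9, 1152), (11, 2880), (12, 576), (13, -288), (14, -288), (15, -576), (16, -2880), (18, -288), (19, -1152), (20, 288), (21, 288), (24, 1152), (25, 576), (26, 2304), (27, -576), (29, -1728), (33, 1152), (34, -288), (35, 576), (38, 2304), (39, 1728), (40, 576), (41, -1728), (44, -576)] = true := by
  decide +kernel

theorem t23_0_2 : chkS lk23 3 5 [(1, m23_0)] l23_2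
  [(9, 528, 528, 19220016, 37950816), (9, 528, 528, 19227696, 54662496), (10, 528, 528, 19289136, 70391136), (3, 258, 33, 101860101, 100869201), (12, 528, 528, 19285296, 69408096), (12, 528, 528, 19289136, 70391136), (6, 513, 513, 51794946, 70410321), (31, 18, 18, 90439971, 90439971), (31, 18, 18, 90443811, 90439986), (30, 18, 18, 90439986, 90443811), (30, 18, 18, 90443826, 90443826), (36, 18, 18, 90443826, 90443826), (11, 33, 258, 90243636, 90182211), (11, 33, 258, 90251316, 90182466), (13, 18, 18, 56954946, 88170546), (2, 513, 513, 50619666, 52715541), (16, 513, 513, 20333856, 69423456), (16, 513, 513, 20337696, 70406496), (6, 528, 528, 51794976, 70410576), (30, 33, 258, 90439971, 90439971), (30, 33, 258, 90443811, 90439986), (31, 33, 258, 90439986, 90443811), (31, 33, 258, 90443826, 90443826), (36, 33, 258, 90443811, 90439986),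 (40, 33, 258, 21308256, 21308256), (40, 33, 258, 21312096, 21312096), (2, 528, 528, 67331361, 52838661), (3, 288, 288, 35013456, 68363856), (29, 513, 513, 85206531, 40108881), (29, 513, 513, 85221891, 56885841), (8, 528, 528, 51794976, 70410576), (30, 528, 528, 85221936, 56889936), (30, 528, 528, 85206576, 40112976), (43, 528, 528, 87318546, 56905746), (43, 528, 528, 87295506, 40128531), (8, 513, 513, 51794946, 70410321)]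
  [(2, 2880), (3, 2880), (6, -2880), (8, -2880), (9, 2880), (10, 1440), (11, 2880), (12, 2880), (13, 1440), (16, 2880), (29, 2880), (30, -8640), (31, -5760), (36, -2880), (40, 2880), (43, -2880)] = true := by
  decide +kernel

theorem t23_1_1 : chkS lk23 3 5 [(1, m23_1)] l23_1
  [(20, 33, 258, 102842451, 101909826), (24, 528, 528, 35013936, 69408336), (24, 528, 528, 34948656, 37951056), (23, 528, 528, 34948656, 37951056), (27, 528, 528, 35013936, 69408336), (12, 18, 18, 55579236, 22045236), (12, 18, 18, 87056676, 56643876), (12, 18, 18, 87121956, 56643906), (14, 18, 18, 86073396, 56628546), (21, 33, 258, 87113826, 23285826), (33, 33, 258, 88088931, 23397156), (11, 18, 18, 54530661, 17130036), (39, 18, 18, 72429666, 22425666), (13, 33, 258, 69292131, 20317506), (11, 33, 258, 70340706, 20336706), (28, 18, 18, 55656546, 22241346),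 (39, 18, 18, 72364386, 22425636), (28, 33, 258, 55591206, 5464356), (11, 33, 258, 54530646, 1401396), (12, 33, 258, 55579206, 5333556), (27, 513, 513, 35013891, 69404241), (29, 33, 258, 56643876, 87056676), (41, 33, 258, 73486371, 87425346), (44, 528, 528, 51794496, 70345296), (41, 513, 513, 50484756, 36725781), (11, 18, 18, 70275366, 3559716), (13, 18, 18, 69292086, 3544386), (14, 33, 258, 86073411, 56689986), (12, 33, 258, 87121986, 56709186), (27, 18, 18, 55591206, 5464356), (41, 18, 18, 73486386, 87429186), (41, 18, 18, 73421106, 87429156), (29, 18, 18, 56709186, 87121986), (27, 513, 513, 34948611, 37946961), (23, 513, 513, 35013891, 69404241), (12, 33, 258, 55709766, 5334066), (41, 513, 513, 50745876, 70279701), (44, 528, 528, 51533376, 36791376), (41, 528, 528, 50484801, 36791301), (27, 33, 258, 55656546, 22241346), (41,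 33, 258, 73421091, 87425316), (29, 33, 258, 56709156, 87056706), (25, 528, 528, 35013936, 69408336), (26, 528, 528, 35013936, 69408336), (26, 528, 528, 34948656, 37951056), (22, 528, 528, 35013936, 69408336), (9, 33, 258, 39931971, 87098946), (19, 528, 528, 34956336, 54662736), (19, 288, 288, 19215936, 37827936), (19, 288, 288, 19281216, 69285216), (18, 18, 18, 38875236, 22033986), (35, 18, 18, 55656546, 22241346), (38, 18, 18, 55591266, 22241316), (16, 528, 528, 33907761, 54662661), (11, 33, 258, 39931956, 87037506), (2, 528, 528, 19285251, 69404001), (39, 18, 18, 39923796, 84948546), (28, 18, 18, 39862611, 85132836), (11, 33, 258, 39866676, 87037476), (28, 513, 513, 101860611, 102958161), (39, 513, 513, 100807956, 102773781), (40, 258, 33, 102765621, 100799796), (15, 33, 258, 56709156, 87056706), (16, 33, 258, 5378886, 5317686),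 (7, 513, 513, 102052866, 105001041), (4, 513, 513, 101987586, 103034961), (7, 33, 258, 39866676, 87037476), (16, 288, 288, 2430531, 37815606), (2, 288, 288, 35009856, 69285456), (34, 18, 18, 38879286, 5445186), (40, 18, 18, 39931956, 87037506), (19, 513, 513, 85091331, 56755281), (5, 513, 513, 102052866, 105001041), (5, 513, 513, 101987586, 103034961), (16, 513, 513, 84173331, 56885781), (15, 33, 258, 56643876, 87056676), (42, 513, 513, 85344771, 73597521), (40, 258, 33, 103026741, 100930866), (7, 33, 258, 39931956, 87037506), (4, 513, 513, 102052866, 105001041), (5, 33, 258, 39931971, 87098946), (15, 513, 513, 67523091, 70648341), (7, 513, 513, 101987586, 103034961), (16, 33, 258, 5444166, 5325366), (33, 33, 258, 88154211, 23397186), (39, 33, 258, 72429606, 5648706), (11, 18, 18, 70340646, 3559746), (11, 18, 18, 54661221, 17130546),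 (41, 528, 528, 50745921, 70345221), (27, 18, 18, 55656486, 5464386), (35, 33, 258, 55656486, 5464386), (38, 33, 258, 55656486, 5464386), (38, 33, 258, 55591206, 5464356), (28, 33, 258, 39927861, 84088386), (11, 18, 18, 39931971, 87098946), (16, 513, 513, 33907731, 54658581), (39, 33, 258, 39858501, 83965476), (39, 33, 258, 39923781, 83965506), (2, 513, 513, 19285296, 69408096), (25, 513, 513, 35013891, 69404241), (26, 513, 513, 34948611, 37946961), (19, 513, 513, 34956291, 54658641), (9, 18, 18, 39931956, 87037506), (18, 33, 258, 38875206, 5322306), (19, 258, 33, 19281156, 69219681), (22, 528, 528, 102056496, 105058896), (9, 18, 18, 39866676, 87037476), (42, 528, 528, 85083696, 40047696), (40, 288, 288, 102765651, 101844276), (39, 528, 528, 100808001, 102839301), (11, 528, 528, 103093296, 104994096), (15, 528, 528, 67262001,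 37098501), (7, 528, 528, 102052896, 105001296), (4, 528, 528, 101987616, 103035216), (5, 18, 18, 39866676, 87037476), (40, 33, 258, 39866691, 87098916), (34, 33, 258, 38879331, 22218306), (2, 258, 33, 35009796, 69219921), (16, 258, 33, 2495796, 69211446), (16, 528, 528, 84042801, 56759301), (5, 528, 528, 102052896, 105001296), (5, 528, 528, 101987616, 103035216), (19, 528, 528, 85221936, 56889936), (11, 528, 528, 103028016, 103028016), (28, 528, 528, 102056496, 105058896), (39, 528, 528, 101003841, 104935941), (5, 18, 18, 39931956, 87037506), (4, 528, 528, 102052896, 105001296), (7, 18, 18, 39931971, 87098946), (16, 18, 18, 5444196, 22037046), (7, 528, 528, 101987616, 103035216), (15, 528, 528, 67523121, 70652421), (38, 18, 18, 55656546, 22241346), (11, 513, 513, 103093251, 104990001), (16, 288, 288, 2495811, 69272886), (16,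 528, 528, 33842481, 52696581), (5, 33, 258, 39866691, 87098916), (19, 513, 513, 85221891, 56885841), (26, 513, 513, 35013891, 69404241), (15, 18, 18, 56709186, 87121986), (40, 33, 258, 39931971, 87098946), (19, 513, 513, 34891011, 52692561), (7, 18, 18, 39866691, 87098916), (16, 528, 528, 84173361, 56889861)]
  [(2, 1728), (4, -2304), (5, -3456), (7, -3456), (9, -576), (12, 1152), (13, 864), (14, 864), (15, -1152), (18, 864), (19, 576), (20, 576), (21, 576), (24, 864), (25, 1152), (26, 1728), (27, -1152), (29, -576), (33, 864), (34, 864), (35, 1152), (38, 1728), (39, 576), (40, 1152), (41, -3456), (44, -1152)] = true := by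
  decide +kernel

theorem t23_1_2 : chkS lk23 3 5 [(1, m23_1)] l23_2
  [(9, 528, 528, 19158576, 36967776), (10, 528, 528, 19227696, 54662496), (9, 528, 528, 19289136, 70391136), (12, 528, 528, 19162416, 52696416), (3, 258, 33, 101982981, 100934481), (12, 528, 528, 19227696, 54662496), (5, 513, 513, 51794946, 70410321), (40, 18, 18, 88216326, 6628401), (16, 513, 513, 104141856, 105009456), (29, 513, 513, 68571651, 70648401), (12, 513, 513, 103093251, 104990001), (41, 288, 288, 18895971, 20055396), (11, 33, 258, 90182196, 90182196), (13, 18, 18, 56709186, 87121986), (11, 33, 258, 90312756, 90182706), (16, 513, 513, 20210976, 52711776), (2, 513, 513, 50742546, 69427221), (16, 513, 513, 20276256, 54677856), (5, 528, 528, 51794976, 70410576), (29, 528, 528, 68571696, 70652496), (12, 528, 528, 103093296, 104994096), (40, 33, 258, 88216416,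 23405616), (16, 528, 528, 104141826, 105009201), (41, 258, 33, 18895926, 3282276), (40, 33, 258, 21123936, 20259936), (2, 528, 528, 67515681, 69611781), (40, 33, 258, 21189216, 20267616), (29, 513, 513, 85083651, 40043601), (3, 288, 288, 34890576, 51652176), (29, 513, 513, 85344771, 73597521), (5, 528, 528, 85210656, 40120656), (9, 33, 258, 23089731, 87097956), (9, 18, 18, 23089716, 87036516), (11, 33, 258, 23089716, 87036516), (11, 18, 18, 23089731, 87097956), (5, 513, 513, 85210626, 40120401)]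
  [(2, 2880), (3, 2880), (5, -5760), (10, 1440), (13, 1440), (41, -2880)] = true := by
  decide +kernel

theorem t23_2_2 : chkS lk23 3 5 [(1, m23_2)] l23_2
  [(0, 258, 33, 106111236, 105923361), (24, 258, 33, 105062661, 101008161), (24, 258, 33, 105001221, 101004321), (24, 258, 33, 105062421, 101008146), (24, 258, 33, 105000981, 101004306), (32, 528, 528, 35017776, 70391376), (19, 33, 258, 56689221, 83976771), (19, 33, 258, 56689701, 84042051), (34, 258, 33, 105197826, 105197601), (14, 513, 513, 104153346, 105074721), (27, 258, 33, 105193731, 105186081), (27, 258, 33, 105193491, 105186066), (1, 33, 258, 70321746, 35016771), (26, 33, 258, 104862261, 100995636), (26, 33, 258, 104923701, 100995651), (26, 33, 258, 104862501, 100999476), (26, 33, 258, 104923941, 100999491), (17, 258, 33, 56967426, 88301601), (12, 528, 528, 102056736,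 105062736), (12, 528, 528, 102056496, 105058896), (3, 18, 18, 39851061, 84022836), (18, 513, 513, 56770821, 84108321), (37, 288, 288, 102052896, 105001296), (37, 288, 288, 102052416, 104936016), (17, 18, 18, 56689986, 86073411), (26, 513, 513, 105000981, 101004306), (26, 513, 513, 105062421, 101008146), (26, 513, 513, 105001221, 101004321), (26, 513, 513, 105062661, 101008161), (1, 513, 513, 70668546, 70668321), (9, 528, 528, 85222176, 56893776), (9, 528, 528, 85221936, 56889936), (10, 288, 288, 101918016, 102843216), (3, 513, 513, 103093296, 104994096), (12, 33, 258, 23077941, 84022116), (12, 33, 258, 23077701, 83960676)]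
  [(0, 1440), (1, 2880), (3, -2880), (9, -2880), (10, -1440), (12, -5760), (14, -1440), (17, 2880), (18, -1440), (19, -2880), (24, 5760), (26, 11520), (27, -2880), (32, 1440), (34, -1440), (37, -2880)] = true := by
  decide +kernel

section

variable {κ ι : Type*} [Fintype κ] [Fintype ι] [Inhabited κ] [Inhabited ι]

noncomputable def F23_0 (E : Env κ ι) : (Fin 3 → κ) → (Fin 5 → ι) → ℝ := op2 (P1 κ) (P5 ι) (fB E 3 5 m23_0)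

noncomputable def F23_1 (E : Env κ ι) : (Fin 3 → κ) → (Fin 5 → ι) → ℝ := op2 (P1 κ) (P5 ι) (fB E 3 5 m23_1)

noncomputable def F23_2 (E : Env κ ι) : (Fin 3 → κ) → (Fin 5 → ι) → ℝ := op2 (P1 κ) (P5 ι) (fB E 3 5 m23_2)

def r23_0_0 : List (ℕ × ℤ) := [(2, -1728), (4, 2304), (5, -2304), (7, -2304), (9, 576), (12, -1152), (13, -864), (14, -864), (15, -1728), (16, -5760), (18, -864), (19, -3456), (20, 864), (21, 864), (22, 2880), (23, 2880), (24, 576), (25, 1728), (26, 1152), (27, -1728), (28, 8640), (29, -2304), (33, 576), (34, -864), (35, 1728), (38, 1152), (39, -576), (40, -1152), (41, -2304), (42, 2880), (44, 1152)]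

theorem h23_0_0 (E : Env κ ι) : ip (F23_0 E) (F23_0 E) = dotS (ek E lk23) r23_0_0 :=
  op_entryZ E lk23 3 5 _ _ _ _ (pg1 κ) (pg5 ι) m23_0 m23_0 l23_0 z23_0 w23_0 x23_0 (by decide) _ (chkS_sound E lk23 3 5 _ _ _ _ t23_0_0)

def r23_0_1 : List (ℕ × ℤ) := [(2, -576), (4, -1152), (5, -1728), (7, -1728), (9, 1152), (11, 2880), (12, 576), (13, -288), (14, -288), (15, -576), (16, -2880), (18, -288), (19, -1152), (20, 288), (21, 288), (24, 1152), (25, 576), (26, 2304), (27, -576), (29, -1728), (33, 1152), (34, -288), (35, 576), (38, 2304), (39, 1728), (40, 576), (41, -1728), (44, -576)]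

theorem h23_0_1 (E : Env κ ι) : ip (F23_0 E) (F23_1 E) = dotS (ek E lk23) r23_0_1 :=
  op_entryZ E lk23 3 5 _ _ _ _ (pg1 κ) (pg5 ι) m23_0 m23_1 l23_1 z23_1 w23_1 x23_1 (by decide) _ (chkS_sound E lk23 3 5 _ _ _ _ t23_0_1)

def r23_0_2 : List (ℕ × ℤ) := [(2, 2880), (3, 2880), (6, -2880), (8, -2880), (9, 2880), (10, 1440), (11, 2880), (12, 2880), (13, 1440), (16, 2880), (29, 2880), (30, -8640), (31, -5760), (36, -2880), (40, 2880), (43, -2880)]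

theorem h23_0_2 (E : Env κ ι) : ip (F23_0 E) (F23_2 E) = dotS (ek E lk23) r23_0_2 :=
  op_entryZ E lk23 3 5 _ _ _ _ (pg1 κ) (pg5 ι) m23_0 m23_2 l23_2 z23_2 w23_2 x23_2 (by decide) _ (chkS_sound E lk23 3 5 _ _ _ _ t23_0_2)

def r23_1_1 : List (ℕ × ℤ) := [(2, 1728), (4, -2304), (5, -3456), (7, -3456), (9, -576), (12, 1152), (13, 864), (14, 864), (15, -1152), (18, 864), (19, 576), (20, 576), (21, 576), (24, 864), (25, 1152), (26, 1728), (27, -1152), (29, -576), (33, 864), (34, 864), (35, 1152), (38, 1728), (39, 576), (40, 1152), (41, -3456), (44, -1152)]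

theorem h23_1_1 (E : Env κ ι) : ip (F23_1 E) (F23_1 E) = dotS (ek E lk23) r23_1_1 :=
  op_entryZ E lk23 3 5 _ _ _ _ (pg1 κ) (pg5 ι) m23_1 m23_1 l23_1 z23_1 w23_1 x23_1 (by decide) _ (chkS_sound E lk23 3 5 _ _ _ _ t23_1_1)

def r23_1_2 : List (ℕ × ℤ) := [(2, 2880), (3, 2880), (5, -5760), (10, 1440), (13, 1440), (41, -2880)]

theorem h23_1_2 (E : Env κ ι) : ip (F23_1 E) (F23_2 E) = dotS (ek E lk23) r23_1_2 :=
  op_entryZ E lk23 3 5 _ _ _ _ (pg1 κ) (pg5 ι) m23_1 m23_2 l23_2 z23_2 w23_2 x23_2 (by decide) _ (chkS_sound E lk23 3 5 _ _ _ _ t23_1_2)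

def r23_2_2 : List (ℕ × ℤ) := [(0, 1440), (1, 2880), (3, -2880), (9, -2880), (10, -1440), (12, -5760), (14, -1440), (17, 2880), (18, -1440), (19, -2880), (24, 5760), (26, 11520), (27, -2880), (32, 1440), (34, -1440), (37, -2880)]

theorem h23_2_2 (E : Env κ ι) : ip (F23_2 E) (F23_2 E) = dotS (ek E lk23) r23_2_2 :=
  op_entryZ E lk23 3 5 _ _ _ _ (pg1 κ) (pg5 ι) m23_2 m23_2 l23_2 z23_2 w23_2 x23_2 (by decide) _ (chkS_sound E lk23 3 5 _ _ _ _ t23_2_2)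

theorem row23_0 (E : Env κ ι) : RowG (ek E lk23) (F23_0 E) [F23_0 E, F23_1 E, F23_2 E] [r23_0_0, r23_0_1, r23_0_2] :=
  rowG_cons _ _ _ _ _ _ (h23_0_0 E) (rowG_cons _ _ _ _ _ _ (h23_0_1 E) (rowG_cons _ _ _ _ _ _ (h23_0_2 E) (rowG_nil _ _)))

theorem row23_1 (E : Env κ ι) : RowG (ek E lk23) (F23_1 E) [F23_1 E, F23_2 E] [r23_1_1, r23_1_2] :=
  rowG_cons _ _ _ _ _ _ (h23_1_1 E) (rowG_cons _ _ _ _ _ _ (h23_1_2 E) (rowG_nil _ _))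

theorem row23_2 (E : Env κ ι) : RowG (ek E lk23) (F23_2 E) [F23_2 E] [r23_2_2] :=
  rowG_cons _ _ _ _ _ _ (h23_2_2 E) (rowG_nil _ _)

def tab23 : List (List (List (ℕ × ℤ))) := [[r23_0_0, r23_0_1, r23_0_2], [r23_1_1, r23_1_2], [r23_2_2]]

theorem tri23 (E : Env κ ι) : TriG (ek E lk23) [F23_0 E, F23_1 E, F23_2 E] tab23 := by
  refine triG_cons _ _ _ _ _ (row23_0 E) ?_
  refine triG_cons _ _ _ _ _ (row23_1 E) ?_
  refine triG_cons _ _ _ _ _ (row23_2 E) ?_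
  exact triG_nil _

end

end YMBG
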