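import Pool.Agent.YM.BG.Ga0

set_option linter.unusedVariables false
set_option maxRecDepth 100000

open YMEng

namespace YMBG

def lk24 : List Key := [
  (3, 7, [(0, [0], [0, 1]), (0, [0], [0, 1]), (0, [1], [2, 3]), (0, [1], [2, 3]), (0, [2], [4, 5]), (0, [2], [4, 6]), (4, [], [6]), (4, [], [5])]),
  (3, 7, [(0, [0], [0, 1]), (0, [0], [0, 1]), (0, [1], [2, 3]), (0, [2], [2, 4]), (0, [2], [5, 6]), (0, [1], [5, 6]), (4, [], [4]), (4, [], [3])]),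
  (3, 7, [(0, [0], [0, 1]), (0, [1], [0, 2]), (0, [0], [2, 3]), (0, [2], [1, 4]), (0, [1], [5, 6]), (0, [2], [5, 6]), (4, [], [3]), (4, [], [4])]),
  (3, 7, [(0, [0], [0, 1]), (0, [1], [0, 2]), (0, [0], [3, 4]), (0, [1], [3, 4]), (0, [2], [1, 5]), (0, [2], [5, 6]), (4, [], [2]), (4, [], [6])]),
  (3, 7, [(0, [0], [0, 1]), (0, [0], [0, 2]), (0, [1], [1, 2]), (4, [], [3]), (0, [2], [4, 5]), (0, [2], [4, 6]), (0, [1], [5, 6]), (4, [], [3])]),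
  (3, 7, [(0, [0], [0, 1]), (0, [0], [0, 2]), (0, [1], [1, 2]), (4, [], [3]), (0, [2], [4, 5]), (0, [2], [4, 6]), (0, [1], [3, 6]), (4, [], [5])]),
  (3, 7, [(0, [0], [0, 1]), (0, [0], [0, 2]), (0, [1], [1, 2]), (4, [], [3]), (0, [2], [4, 5]), (0, [2], [4, 5]), (0, [1], [3, 6]), (4, [], [6])]),
  (3, 7, [(0, [0], [0, 1]), (0, [0], [0, 2]), (0, [1], [1, 2]), (4, [], [3]), (0, [2], [4, 5]), (0, [2], [3, 6]), (0, [1], [4, 6]), (4, [], [5])]),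
  (3, 7, [(0, [0], [0, 1]), (0, [0], [0, 2]), (0, [1], [1, 2]), (4, [], [3]), (0, [2], [4, 5]), (0, [2], [3, 6]), (0, [1], [4, 5]), (4, [], [6])]),
  (3, 7, [(0, [0], [0, 1]), (0, [0], [0, 2]), (0, [1], [3, 2]), (4, [], [1]), (0, [2], [4, 5]), (0, [2], [4, 6]), (0, [1], [3, 6]), (4, [], [5])]),
  (3, 7, [(0, [0], [0, 1]), (0, [0], [0, 2]), (0, [1], [3, 2]), (4, [], [1]), (0, [2], [4, 5]), (0, [2], [4, 5]), (0, [1], [3, 6]), (4, [], [6])]),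
  (3, 7, [(0, [0], [0, 1]), (0, [0], [0, 2]), (0, [1], [3, 2]), (4, [], [1]), (0, [2], [4, 5]), (0, [2], [3, 6]), (0, [1], [4, 6]), (4, [], [5])]),
  (3, 7, [(0, [0], [0, 1]), (0, [0], [0, 2]), (0, [1], [3, 2]), (4, [], [1]), (0, [2], [4, 5]), (0, [2], [3, 4]), (0, [1], [5, 6]), (4, [], [6])]),
  (3, 7, [(0, [0], [0, 1]), (0, [0], [0, 1]), (0, [1], [2, 3]), (4, [], [3]), (0, [2], [4, 5]), (0, [2], [2, 6]), (0, [1], [4, 6]), (4, [], [5])]),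
  (3, 7, [(0, [0], [0, 1]), (0, [0], [0, 1]), (0, [1], [2, 3]), (4, [], [3]), (0, [2], [4, 5]), (0, [2], [2, 4]), (0, [1], [5, 6]), (4, [], [6])]),
  (3, 7, [(0, [0], [0, 1]), (0, [0], [2, 3]), (0, [1], [0, 3]), (4, [], [1]), (0, [2], [4, 5]), (0, [2], [2, 6]), (0, [1], [4, 6]), (4, [], [5])]),
  (3, 7, [(0, [0], [0, 1]), (0, [0], [2, 3]), (0, [1], [0, 3]), (4, [], [1]), (0, [2], [4, 5]), (0, [2], [2, 4]), (0, [1], [5, 6]), (4, [], [6])]),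
  (3, 7, [(0, [0], [0, 1]), (0, [0], [2, 3]), (0, [1], [0, 1]), (4, [], [3]), (0, [2], [4, 5]), (0, [2], [2, 6]), (0, [1], [4, 5]), (4, [], [6])]),
  (3, 7, [(0, [0], [0, 1]), (0, [0], [2, 3]), (0, [1], [0, 1]), (4, [], [3]), (0, [2], [4, 5]), (0, [2], [2, 4]), (0, [1], [5, 6]), (4, [], [6])]),
  (3, 7, [(0, [0], [0, 1]), (0, [0], [2, 0]), (0, [1], [1, 3]), (4, [], [3]), (0, [2], [4, 5]), (0, [2], [2, 4]), (0, [1], [5, 6]), (4, [], [6])]),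
  (3, 7, [(0, [0], [0, 1]), (0, [0], [0, 1]), (0, [1], [2, 3]), (4, [], [4]), (0, [2], [5, 6]), (0, [2], [2, 5]), (0, [1], [3, 6]), (4, [], [4])]),
  (3, 7, [(0, [0], [0, 1]), (0, [0], [0, 1]), (0, [1], [2, 3]), (4, [], [4]), (0, [2], [2, 5]), (0, [2], [3, 6]), (0, [1], [5, 6]), (4, [], [4])]),
  (3, 7, [(0, [0], [0, 1]), (0, [0], [2, 0]), (0, [1], [3, 1]), (4, [], [4]), (0, [2], [5, 6]), (0, [2], [2, 5]), (0, [1], [3, 6]), (4, [], [4])]),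
  (3, 7, [(0, [0], [0, 1]), (0, [0], [2, 0]), (0, [1], [3, 1]), (4, [], [4]), (0, [2], [5, 6]), (0, [2], [3, 5]), (0, [1], [2, 6]), (4, [], [4])]),
  (3, 7, [(0, [0], [0, 1]), (0, [0], [2, 0]), (0, [1], [3, 1]), (4, [], [4]), (0, [2], [5, 6]), (0, [2], [4, 5]), (0, [1], [2, 3]), (4, [], [6])]),
  (3, 7, [(0, [0], [0, 1]), (0, [0], [2, 0]), (0, [1], [3, 1]), (4, [], [4]), (0, [2], [5, 6]), (0, [2], [2, 3]), (0, [1], [5, 6]), (4, [], [4])]),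
  (3, 7, [(0, [0], [0, 1]), (0, [0], [2, 0]), (0, [1], [3, 1]), (4, [], [4]), (0, [2], [5, 6]), (0, [2], [2, 3]), (0, [1], [4, 5]), (4, [], [6])]),
  (3, 7, [(0, [0], [0, 1]), (0, [0], [2, 0]), (0, [1], [3, 1]), (4, [], [4]), (0, [2], [5, 6]), (0, [2], [3, 4]), (0, [1], [2, 5]), (4, [], [6])]),
  (3, 7, [(0, [0], [0, 1]), (0, [0], [2, 0]), (0, [1], [3, 1]), (4, [], [4]), (0, [2], [2, 5]), (0, [2], [3, 6]), (0, [1], [5, 6]), (4, [], [4])]),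
  (3, 7, [(0, [0], [0, 1]), (0, [0], [2, 0]), (0, [1], [3, 1]), (4, [], [4]), (0, [2], [3, 5]), (0, [2], [2, 6]), (0, [1], [4, 6]), (4, [], [5])]),
  (3, 7, [(0, [0], [0, 1]), (0, [0], [2, 0]), (0, [1], [3, 1]), (4, [], [4]), (0, [2], [4, 5]), (0, [2], [2, 6]), (0, [1], [3, 6]), (4, [], [5])]),
  (3, 7, [(0, [0], [0, 1]), (0, [0], [2, 0]), (0, [1], [3, 1]), (4, [], [4]), (0, [2], [4, 5]), (0, [2], [3, 6]), (0, [1], [2, 6]), (4, [], [5])]),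
  (3, 7, [(0, [0], [0, 1]), (0, [0], [2, 0]), (0, [1], [3, 4]), (4, [], [1]), (0, [2], [5, 6]), (0, [2], [3, 4]), (0, [1], [5, 6]), (4, [], [2])]),
  (3, 7, [(0, [0], [0, 1]), (0, [0], [2, 0]), (0, [1], [3, 4]), (4, [], [1]), (0, [2], [3, 5]), (0, [2], [4, 6]), (0, [1], [5, 6]), (4, [], [2])]),
  (3, 7, [(0, [0], [0, 1]), (0, [0], [2, 3]), (0, [1], [0, 1]), (4, [], [4]), (0, [2], [5, 6]), (0, [2], [2, 4]), (0, [1], [3, 5]), (4, [], [6])]),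
  (3, 7, [(0, [0], [0, 1]), (0, [0], [2, 3]), (0, [1], [0, 1]), (4, [], [4]), (0, [2], [2, 5]), (0, [2], [3, 6]), (0, [1], [5, 6]), (4, [], [4])]),
  (3, 7, [(0, [0], [0, 1]), (0, [0], [2, 3]), (0, [1], [0, 1]), (4, [], [4]), (0, [2], [4, 5]), (0, [2], [2, 6]), (0, [1], [3, 6]), (4, [], [5])]),
  (3, 7, [(0, [0], [0, 1]), (0, [0], [2, 3]), (0, [1], [4, 0]), (4, [], [1]), (0, [2], [5, 6]), (0, [2], [2, 4]), (0, [1], [3, 5]), (4, [], [6])]),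
  (3, 7, [(0, [0], [0, 1]), (0, [0], [2, 3]), (0, [1], [4, 0]), (4, [], [1]), (0, [2], [2, 5]), (0, [2], [3, 6]), (0, [1], [5, 6]), (4, [], [4])]),
  (3, 7, [(0, [0], [0, 1]), (0, [0], [2, 3]), (0, [1], [4, 0]), (4, [], [1]), (0, [2], [2, 5]), (0, [2], [4, 6]), (0, [1], [5, 6]), (4, [], [3])]),
  (3, 7, [(0, [0], [0, 1]), (0, [0], [2, 3]), (0, [1], [4, 0]), (4, [], [1]), (0, [2], [2, 5]), (0, [2], [4, 6]), (0, [1], [3, 6]), (4, [], [5])]),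
  (3, 7, [(0, [0], [0, 1]), (0, [0], [2, 3]), (0, [1], [4, 0]), (4, [], [1]), (0, [2], [4, 5]), (0, [2], [2, 6]), (0, [1], [3, 6]), (4, [], [5])]),
  (3, 7, [(0, [0], [0, 1]), (0, [0], [2, 3]), (0, [1], [1, 3]), (4, [], [4]), (0, [2], [0, 5]), (0, [2], [2, 6]), (0, [1], [5, 6]), (4, [], [4])]),
  (3, 7, [(0, [0], [0, 1]), (0, [0], [2, 3]), (0, [1], [1, 3]), (4, [], [4]), (0, [2], [4, 5]), (0, [2], [0, 6]), (0, [1], [2, 6]), (4, [], [5])]),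
  (3, 7, [(0, [0], [0, 1]), (0, [0], [2, 3]), (0, [1], [4, 1]), (4, [], [5]), (0, [2], [2, 6]), (0, [2], [0, 4]), (0, [1], [3, 6]), (4, [], [5])])]

def kl24 : List ℕ := [13, 14, 57, 58, 94, 95, 96, 97, 98, 109, 110, 111, 112, 119, 120, 125, 126, 132, 133, 144, 204, 206, 216, 217, 218, 219, 220, 221, 222, 223, 224, 225, 252, 253, 267, 268, 269, 284, 285, 286, 287, 288, 302, 303, 430]

def m24_0 : Base := (0, 1, [(0, [0], [0, 5]), (0, [1], [1, 5]), (0, [2], [2, 3]), (4, [], [4])])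

def l24_0 : Cov := [(480, 0, 1, [(0, [0], [0, 5]), (0, [1], [1, 5]), (0, [2], [2, 3]), (4, [], [4])]),
  (192, 0, 1, [(0, [0], [0, 5]), (0, [1], [1, 5]), (0, [2], [2, 4]), (4, [], [3])]),
  (192, 0, 1, [(0, [0], [0, 5]), (0, [1], [1, 5]), (0, [2], [3, 4]), (4, [], [2])]),
  (480, 0, 1, [(0, [0], [0, 5]), (0, [1], [2, 5]), (0, [2], [1, 3]), (4, [], [4])]),
  (192, 0, 1, [(0, [0], [0, 5]), (0, [1], [2, 5]), (0, [2], [1, 4]), (4, [], [3])]),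
  (192, 0, 1, [(0, [0], [0, 5]), (0, [1], [2, 5]), (0, [2], [3, 4]), (4, [], [1])]),
  (480, 0, 1, [(0, [0], [0, 5]), (0, [1], [3, 5]), (0, [2], [1, 2]), (4, [], [4])]),
  (192, 0, 1, [(0, [0], [0, 5]), (0, [1], [3, 5]), (0, [2], [1, 4]), (4, [], [2])]),
  (192, 0, 1, [(0, [0], [0, 5]), (0, [1], [3, 5]), (0, [2], [2, 4]), (4, [], [1])]),
  (96, 0, 1, [(0, [0], [0, 5]), (0, [1], [4, 5]), (0, [2], [1, 2]), (4, [], [3])]),
  (96, 0, 1, [(0, [0], [0, 5]), (0, [1], [4, 5]), (0, [2], [1, 3]), (4, [], [2])]),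
  (96, 0, 1, [(0, [0], [0, 5]), (0, [1], [4, 5]), (0, [2], [2, 3]), (4, [], [1])]),
  (384, 0, 1, [(0, [0], [1, 5]), (0, [1], [0, 5]), (0, [2], [2, 3]), (4, [], [4])]),
  (288, 0, 1, [(0, [0], [1, 5]), (0, [1], [2, 5]), (0, [2], [0, 3]), (4, [], [4])]),
  (-288, 0, 1, [(0, [0], [1, 5]), (0, [1], [2, 5]), (0, [2], [3, 4]), (4, [], [0])]),
  (288, 0, 1, [(0, [0], [1, 5]), (0, [1], [3, 5]), (0, [2], [0, 2]), (4, [], [4])]),
  (-288, 0, 1, [(0, [0], [1, 5]), (0, [1], [3, 5]), (0, [2], [2, 4]), (4, [], [0])]),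
  (-384, 0, 1, [(0, [0], [1, 5]), (0, [1], [4, 5]), (0, [2], [2, 3]), (4, [], [0])]),
  (384, 0, 1, [(0, [0], [2, 5]), (0, [1], [0, 5]), (0, [2], [1, 3]), (4, [], [4])]),
  (288, 0, 1, [(0, [0], [2, 5]), (0, [1], [1, 5]), (0, [2], [0, 3]), (4, [], [4])]),
  (-288, 0, 1, [(0, [0], [2, 5]), (0, [1], [1, 5]), (0, [2], [3, 4]), (4, [], [0])]),
  (288, 0, 1, [(0, [0], [2, 5]), (0, [1], [3, 5]), (0, [2], [0, 1]), (4, [], [4])]),
  (-288, 0, 1, [(0, [0], [2, 5]), (0, [1], [3, 5]), (0, [2], [1, 4]), (4, [], [0])]),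
  (-384, 0, 1, [(0, [0], [2, 5]), (0, [1], [4, 5]), (0, [2], [1, 3]), (4, [], [0])]),
  (384, 0, 1, [(0, [0], [3, 5]), (0, [1], [0, 5]), (0, [2], [1, 2]), (4, [], [4])]),
  (288, 0, 1, [(0, [0], [3, 5]), (0, [1], [1, 5]), (0, [2], [0, 2]), (4, [], [4])]),
  (-288, 0, 1, [(0, [0], [3, 5]), (0, [1], [1, 5]), (0, [2], [2, 4]), (4, [], [0])]),
  (288, 0, 1, [(0, [0], [3, 5]), (0, [1], [2, 5]), (0, [2], [0, 1]), (4, [], [4])]),
  (-288, 0, 1, [(0, [0], [3, 5]), (0, [1], [2, 5]), (0, [2], [1, 4]), (4, [], [0])]),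
  (-384, 0, 1, [(0, [0], [3, 5]), (0, [1], [4, 5]), (0, [2], [1, 2]), (4, [], [0])]),
  (-96, 0, 1, [(0, [0], [4, 5]), (0, [1], [0, 5]), (0, [2], [1, 2]), (4, [], [3])]),
  (-96, 0, 1, [(0, [0], [4, 5]), (0, [1], [0, 5]), (0, [2], [1, 3]), (4, [], [2])]),
  (-96, 0, 1, [(0, [0], [4, 5]), (0, [1], [0, 5]), (0, [2], [2, 3]), (4, [], [1])]),
  (-192, 0, 1, [(0, [0], [4, 5]), (0, [1], [1, 5]), (0, [2], [0, 2]), (4, [], [3])]),
  (-192, 0, 1, [(0, [0], [4, 5]), (0, [1], [1, 5]), (0, [2], [0, 3]), (4, [], [2])]),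
  (-480, 0, 1, [(0, [0], [4, 5]), (0, [1], [1, 5]), (0, [2], [2, 3]), (4, [], [0])]),
  (-192, 0, 1, [(0, [0], [4, 5]), (0, [1], [2, 5]), (0, [2], [0, 1]), (4, [], [3])]),
  (-192, 0, 1, [(0, [0], [4, 5]), (0, [1], [2, 5]), (0, [2], [0, 3]), (4, [], [1])]),
  (-480, 0, 1, [(0, [0], [4, 5]), (0, [1], [2, 5]), (0, [2], [1, 3]), (4, [], [0])]),
  (-192, 0, 1, [(0, [0], [4, 5]), (0, [1], [3, 5]), (0, [2], [0, 1]), (4, [], [2])]),
  (-192, 0, 1, [(0, [0], [4, 5]), (0, [1], [3, 5]), (0, [2], [0, 2]), (4, [], [1])]),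
  (-480, 0, 1, [(0, [0], [4, 5]), (0, [1], [3, 5]), (0, [2], [1, 2]), (4, [], [0])]),
  (96, 0, 1, [(0, [0], [0, 5]), (0, [2], [1, 5]), (0, [1], [2, 3]), (4, [], [4])]),
  (96, 0, 1, [(0, [0], [0, 5]), (0, [2], [1, 5]), (0, [1], [2, 4]), (4, [], [3])]),
  (96, 0, 1, [(0, [0], [0, 5]), (0, [2], [1, 5]), (0, [1], [3, 4]), (4, [], [2])]),
  (96, 0, 1, [(0, [0], [0, 5]), (0, [2], [2, 5]), (0, [1], [1, 3]), (4, [], [4])]),
  (96, 0, 1, [(0, [0], [0, 5]), (0, [2], [2, 5]), (0, [1], [1, 4]), (4, [], [3])]),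
  (96, 0, 1, [(0, [0], [0, 5]), (0, [2], [2, 5]), (0, [1], [3, 4]), (4, [], [1])]),
  (96, 0, 1, [(0, [0], [0, 5]), (0, [2], [3, 5]), (0, [1], [1, 2]), (4, [], [4])]),
  (96, 0, 1, [(0, [0], [0, 5]), (0, [2], [3, 5]), (0, [1], [1, 4]), (4, [], [2])]),
  (96, 0, 1, [(0, [0], [0, 5]), (0, [2], [3, 5]), (0, [1], [2, 4]), (4, [], [1])]),
  (192, 0, 1, [(0, [0], [0, 5]), (0, [2], [4, 5]), (0, [1], [1, 2]), (4, [], [3])]),
  (192, 0, 1, [(0, [0], [0, 5]), (0, [2], [4, 5]), (0, [1], [1, 3]), (4, [], [2])]),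
  (192, 0, 1, [(0, [0], [0, 5]), (0, [2], [4, 5]), (0, [1], [2, 3]), (4, [], [1])]),
  (-96, 0, 1, [(0, [0], [1, 5]), (0, [2], [0, 5]), (0, [1], [2, 3]), (4, [], [4])]),
  (96, 0, 1, [(0, [0], [1, 5]), (0, [2], [4, 5]), (0, [1], [2, 3]), (4, [], [0])]),
  (-96, 0, 1, [(0, [0], [2, 5]), (0, [2], [0, 5]), (0, [1], [1, 3]), (4, [], [4])]),
  (96, 0, 1, [(0, [0], [2, 5]), (0, [2], [4, 5]), (0, [1], [1, 3]), (4, [], [0])]),
  (-96, 0, 1, [(0, [0], [3, 5]), (0, [2], [0, 5]), (0, [1], [1, 2]), (4, [], [4])]),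
  (96, 0, 1, [(0, [0], [3, 5]), (0, [2], [4, 5]), (0, [1], [1, 2]), (4, [], [0])]),
  (-192, 0, 1, [(0, [0], [4, 5]), (0, [2], [0, 5]), (0, [1], [1, 2]), (4, [], [3])]),
  (-192, 0, 1, [(0, [0], [4, 5]), (0, [2], [0, 5]), (0, [1], [1, 3]), (4, [], [2])]),
  (-192, 0, 1, [(0, [0], [4, 5]), (0, [2], [0, 5]), (0, [1], [2, 3]), (4, [], [1])]),
  (-96, 0, 1, [(0, [0], [4, 5]), (0, [2], [1, 5]), (0, [1], [0, 2]), (4, [], [3])]),
  (-96, 0, 1, [(0, [0], [4, 5]), (0, [2], [1, 5]), (0, [1], [0, 3]), (4, [], [2])]),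
  (-96, 0, 1, [(0, [0], [4, 5]), (0, [2], [1, 5]), (0, [1], [2, 3]), (4, [], [0])]),
  (-96, 0, 1, [(0, [0], [4, 5]), (0, [2], [2, 5]), (0, [1], [0, 1]), (4, [], [3])]),
  (-96, 0, 1, [(0, [0], [4, 5]), (0, [2], [2, 5]), (0, [1], [0, 3]), (4, [], [1])]),
  (-96, 0, 1, [(0, [0], [4, 5]), (0, [2], [2, 5]), (0, [1], [1, 3]), (4, [], [0])]),
  (-96, 0, 1, [(0, [0], [4, 5]), (0, [2], [3, 5]), (0, [1], [0, 1]), (4, [], [2])]),
  (-96, 0, 1, [(0, [0], [4, 5]), (0, [2], [3, 5]), (0, [1], [0, 2]), (4, [], [1])]),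
  (-96, 0, 1, [(0, [0], [4, 5]), (0, [2], [3, 5]), (0, [1], [1, 2]), (4, [], [0])]),
  (96, 0, 1, [(0, [1], [0, 5]), (0, [0], [1, 5]), (0, [2], [2, 4]), (4, [], [3])]),
  (96, 0, 1, [(0, [1], [0, 5]), (0, [0], [1, 5]), (0, [2], [3, 4]), (4, [], [2])]),
  (96, 0, 1, [(0, [1], [0, 5]), (0, [0], [2, 5]), (0, [2], [1, 4]), (4, [], [3])]),
  (96, 0, 1, [(0, [1], [0, 5]), (0, [0], [2, 5]), (0, [2], [3, 4]), (4, [], [1])]),
  (96, 0, 1, [(0, [1], [0, 5]), (0, [0], [3, 5]), (0, [2], [1, 4]), (4, [], [2])]),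
  (96, 0, 1, [(0, [1], [0, 5]), (0, [0], [3, 5]), (0, [2], [2, 4]), (4, [], [1])]),
  (-96, 0, 1, [(0, [1], [4, 5]), (0, [0], [1, 5]), (0, [2], [0, 2]), (4, [], [3])]),
  (-96, 0, 1, [(0, [1], [4, 5]), (0, [0], [1, 5]), (0, [2], [0, 3]), (4, [], [2])]),
  (-96, 0, 1, [(0, [1], [4, 5]), (0, [0], [2, 5]), (0, [2], [0, 1]), (4, [], [3])]),
  (-96, 0, 1, [(0, [1], [4, 5]), (0, [0], [2, 5]), (0, [2], [0, 3]), (4, [], [1])]),
  (-96, 0, 1, [(0, [1], [4, 5]), (0, [0], [3, 5]), (0, [2], [0, 1]), (4, [], [2])]),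
  (-96, 0, 1, [(0, [1], [4, 5]), (0, [0], [3, 5]), (0, [2], [0, 2]), (4, [], [1])]),
  (-384, 0, 1, [(0, [1], [0, 5]), (0, [2], [1, 5]), (0, [0], [2, 3]), (4, [], [4])]),
  (-96, 0, 1, [(0, [1], [0, 5]), (0, [2], [1, 5]), (0, [0], [2, 4]), (4, [], [3])]),
  (-96, 0, 1, [(0, [1], [0, 5]), (0, [2], [1, 5]), (0, [0], [3, 4]), (4, [], [2])]),
  (-384, 0, 1, [(0, [1], [0, 5]), (0, [2], [2, 5]), (0, [0], [1, 3]), (4, [], [4])]),
  (-96, 0, 1, [(0, [1], [0, 5]), (0, [2], [2, 5]), (0, [0], [1, 4]), (4, [], [3])]),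
  (-96, 0, 1, [(0, [1], [0, 5]), (0, [2], [2, 5]), (0, [0], [3, 4]), (4, [], [1])]),
  (-384, 0, 1, [(0, [1], [0, 5]), (0, [2], [3, 5]), (0, [0], [1, 2]), (4, [], [4])]),
  (-96, 0, 1, [(0, [1], [0, 5]), (0, [2], [3, 5]), (0, [0], [1, 4]), (4, [], [2])]),
  (-96, 0, 1, [(0, [1], [0, 5]), (0, [2], [3, 5]), (0, [0], [2, 4]), (4, [], [1])]),
  (96, 0, 1, [(0, [1], [0, 5]), (0, [2], [4, 5]), (0, [0], [1, 2]), (4, [], [3])]),
  (96, 0, 1, [(0, [1], [0, 5]), (0, [2], [4, 5]), (0, [0], [1, 3]), (4, [], [2])]),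
  (96, 0, 1, [(0, [1], [0, 5]), (0, [2], [4, 5]), (0, [0], [2, 3]), (4, [], [1])]),
  (-480, 0, 1, [(0, [1], [1, 5]), (0, [2], [0, 5]), (0, [0], [2, 3]), (4, [], [4])]),
  (-288, 0, 1, [(0, [1], [1, 5]), (0, [2], [2, 5]), (0, [0], [0, 3]), (4, [], [4])]),
  (288, 0, 1, [(0, [1], [1, 5]), (0, [2], [2, 5]), (0, [0], [3, 4]), (4, [], [0])]),
  (-288, 0, 1, [(0, [1], [1, 5]), (0, [2], [3, 5]), (0, [0], [0, 2]), (4, [], [4])]),
  (288, 0, 1, [(0, [1], [1, 5]), (0, [2], [3, 5]), (0, [0], [2, 4]), (4, [], [0])]),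
  (480, 0, 1, [(0, [1], [1, 5]), (0, [2], [4, 5]), (0, [0], [2, 3]), (4, [], [0])]),
  (-480, 0, 1, [(0, [1], [2, 5]), (0, [2], [0, 5]), (0, [0], [1, 3]), (4, [], [4])]),
  (-288, 0, 1, [(0, [1], [2, 5]), (0, [2], [1, 5]), (0, [0], [0, 3]), (4, [], [4])]),
  (288, 0, 1, [(0, [1], [2, 5]), (0, [2], [1, 5]), (0, [0], [3, 4]), (4, [], [0])]),
  (-288, 0, 1, [(0, [1], [2, 5]), (0, [2], [3, 5]), (0, [0], [0, 1]), (4, [], [4])]),
  (288, 0, 1, [(0, [1], [2, 5]), (0, [2], [3, 5]), (0, [0], [1, 4]), (4, [], [0])]),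
  (480, 0, 1, [(0, [1], [2, 5]), (0, [2], [4, 5]), (0, [0], [1, 3]), (4, [], [0])]),
  (-480, 0, 1, [(0, [1], [3, 5]), (0, [2], [0, 5]), (0, [0], [1, 2]), (4, [], [4])]),
  (-288, 0, 1, [(0, [1], [3, 5]), (0, [2], [1, 5]), (0, [0], [0, 2]), (4, [], [4])]),
  (288, 0, 1, [(0, [1], [3, 5]), (0, [2], [1, 5]), (0, [0], [2, 4]), (4, [], [0])]),
  (-288, 0, 1, [(0, [1], [3, 5]), (0, [2], [2, 5]), (0, [0], [0, 1]), (4, [], [4])]),
  (288, 0, 1, [(0, [1], [3, 5]), (0, [2], [2, 5]), (0, [0], [1, 4]), (4, [], [0])]),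
  (480, 0, 1, [(0, [1], [3, 5]), (0, [2], [4, 5]), (0, [0], [1, 2]), (4, [], [0])]),
  (-96, 0, 1, [(0, [1], [4, 5]), (0, [2], [0, 5]), (0, [0], [1, 2]), (4, [], [3])]),
  (-96, 0, 1, [(0, [1], [4, 5]), (0, [2], [0, 5]), (0, [0], [1, 3]), (4, [], [2])]),
  (-96, 0, 1, [(0, [1], [4, 5]), (0, [2], [0, 5]), (0, [0], [2, 3]), (4, [], [1])]),
  (96, 0, 1, [(0, [1], [4, 5]), (0, [2], [1, 5]), (0, [0], [0, 2]), (4, [], [3])]),
  (96, 0, 1, [(0, [1], [4, 5]), (0, [2], [1, 5]), (0, [0], [0, 3]), (4, [], [2])]),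
  (384, 0, 1, [(0, [1], [4, 5]), (0, [2], [1, 5]), (0, [0], [2, 3]), (4, [], [0])]),
  (96, 0, 1, [(0, [1], [4, 5]), (0, [2], [2, 5]), (0, [0], [0, 1]), (4, [], [3])]),
  (96, 0, 1, [(0, [1], [4, 5]), (0, [2], [2, 5]), (0, [0], [0, 3]), (4, [], [1])]),
  (384, 0, 1, [(0, [1], [4, 5]), (0, [2], [2, 5]), (0, [0], [1, 3]), (4, [], [0])]),
  (96, 0, 1, [(0, [1], [4, 5]), (0, [2], [3, 5]), (0, [0], [0, 1]), (4, [], [2])]),
  (96, 0, 1, [(0, [1], [4, 5]), (0, [2], [3, 5]), (0, [0], [0, 2]), (4, [], [1])]),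
  (384, 0, 1, [(0, [1], [4, 5]), (0, [2], [3, 5]), (0, [0], [1, 2]), (4, [], [0])]),
  (-96, 0, 1, [(0, [2], [0, 5]), (0, [0], [1, 5]), (0, [1], [2, 4]), (4, [], [3])]),
  (-96, 0, 1, [(0, [2], [0, 5]), (0, [0], [1, 5]), (0, [1], [3, 4]), (4, [], [2])]),
  (-96, 0, 1, [(0, [2], [0, 5]), (0, [0], [2, 5]), (0, [1], [1, 4]), (4, [], [3])]),
  (-96, 0, 1, [(0, [2], [0, 5]), (0, [0], [2, 5]), (0, [1], [3, 4]), (4, [], [1])]),
  (-96, 0, 1, [(0, [2], [0, 5]), (0, [0], [3, 5]), (0, [1], [1, 4]), (4, [], [2])]),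
  (-96, 0, 1, [(0, [2], [0, 5]), (0, [0], [3, 5]), (0, [1], [2, 4]), (4, [], [1])]),
  (96, 0, 1, [(0, [2], [4, 5]), (0, [0], [1, 5]), (0, [1], [0, 2]), (4, [], [3])]),
  (96, 0, 1, [(0, [2], [4, 5]), (0, [0], [1, 5]), (0, [1], [0, 3]), (4, [], [2])]),
  (96, 0, 1, [(0, [2], [4, 5]), (0, [0], [2, 5]), (0, [1], [0, 1]), (4, [], [3])]),
  (96, 0, 1, [(0, [2], [4, 5]), (0, [0], [2, 5]), (0, [1], [0, 3]), (4, [], [1])]),
  (96, 0, 1, [(0, [2], [4, 5]), (0, [0], [3, 5]), (0, [1], [0, 1]), (4, [], [2])]),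
  (96, 0, 1, [(0, [2], [4, 5]), (0, [0], [3, 5]), (0, [1], [0, 2]), (4, [], [1])]),
  (-192, 0, 1, [(0, [2], [0, 5]), (0, [1], [1, 5]), (0, [0], [2, 4]), (4, [], [3])]),
  (-192, 0, 1, [(0, [2], [0, 5]), (0, [1], [1, 5]), (0, [0], [3, 4]), (4, [], [2])]),
  (-192, 0, 1, [(0, [2], [0, 5]), (0, [1], [2, 5]), (0, [0], [1, 4]), (4, [], [3])]),
  (-192, 0, 1, [(0, [2], [0, 5]), (0, [1], [2, 5]), (0, [0], [3, 4]), (4, [], [1])]),
  (-192, 0, 1, [(0, [2], [0, 5]), (0, [1], [3, 5]), (0, [0], [1, 4]), (4, [], [2])]),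
  (-192, 0, 1, [(0, [2], [0, 5]), (0, [1], [3, 5]), (0, [0], [2, 4]), (4, [], [1])]),
  (192, 0, 1, [(0, [2], [4, 5]), (0, [1], [1, 5]), (0, [0], [0, 2]), (4, [], [3])]),
  (192, 0, 1, [(0, [2], [4, 5]), (0, [1], [1, 5]), (0, [0], [0, 3]), (4, [], [2])]),
  (192, 0, 1, [(0, [2], [4, 5]), (0, [1], [2, 5]), (0, [0], [0, 1]), (4, [], [3])]),
  (192, 0, 1, [(0, [2], [4, 5]), (0, [1], [2, 5]), (0, [0], [0, 3]), (4, [], [1])]),
  (192, 0, 1, [(0, [2], [4, 5]), (0, [1], [3, 5]), (0, [0], [0, 1]), (4, [], [2])]),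
  (192, 0, 1, [(0, [2], [4, 5]), (0, [1], [3, 5]), (0, [0], [0, 2]), (4, [], [1])])]

def z24_0 : Cov := [(0, 0, 1, [(0, [0], [1, 5]), (0, [2], [2, 5]), (0, [1], [0, 3]), (4, [], [4])]),
  (0, 0, 1, [(0, [0], [1, 5]), (0, [2], [2, 5]), (0, [1], [3, 4]), (4, [], [0])]),
  (0, 0, 1, [(0, [0], [1, 5]), (0, [2], [3, 5]), (0, [1], [0, 2]), (4, [], [4])]),
  (0, 0, 1, [(0, [0], [1, 5]), (0, [2], [3, 5]), (0, [1], [2, 4]), (4, [], [0])]),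
  (0, 0, 1, [(0, [0], [2, 5]), (0, [2], [1, 5]), (0, [1], [0, 3]), (4, [], [4])]),
  (0, 0, 1, [(0, [0], [2, 5]), (0, [2], [1, 5]), (0, [1], [3, 4]), (4, [], [0])]),
  (0, 0, 1, [(0, [0], [2, 5]), (0, [2], [3, 5]), (0, [1], [0, 1]), (4, [], [4])]),
  (0, 0, 1, [(0, [0], [2, 5]), (0, [2], [3, 5]), (0, [1], [1, 4]), (4, [], [0])]),
  (0, 0, 1, [(0, [0], [3, 5]), (0, [2], [1, 5]), (0, [1], [0, 2]), (4, [], [4])]),
  (0, 0, 1, [(0, [0], [3, 5]), (0, [2], [1, 5]), (0, [1], [2, 4]), (4, [], [0])]),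
  (0, 0, 1, [(0, [0], [3, 5]), (0, [2], [2, 5]), (0, [1], [0, 1]), (4, [], [4])]),
  (0, 0, 1, [(0, [0], [3, 5]), (0, [2], [2, 5]), (0, [1], [1, 4]), (4, [], [0])])]

def w24_0 : List (List Wit) := [[(0, 0, 0, 0, 0), (1, 0, 0, 0, 0), (0, 0, 0, 0, 0), (2, 0, 0, 0, 0), (1, 0, 0, 0, 0), (2, 0, 0, 0, 0), (3, 0, 0, 0, 0), (4, 0, 0, 0, 0), (3, 0, 0, 0, 0), (5, 0, 0, 0, 0), (4, 0, 0, 0, 0), (5, 0, 0, 0, 0), (6, 0, 0, 0, 0), (7, 0, 0, 0, 0), (6, 0, 0, 0, 0), (8, 0, 0, 0, 0), (7, 0, 0, 0, 0), (8, 0, 0, 0, 0), (9, 0, 0, 0, 0), (10, 0, 0, 0, 0), (9, 0, 0, 0, 0), (11, 0, 0, 0, 0), (10, 0, 0, 0, 0), (11, 0, 0, 0, 0), (12, 0, 0, 0, 0), (12, 0, 0, 0, 0), (13, 0, 0, 0, 0), (13, 0, 0, 0, 0), (14, 0, 0, 0, 0), (14, 0, 0, 0, 0), (15, 0, 0, 0, 0), (15, 0, 0, 0, 0), (16, 0, 0, 0, 0), (16, 0, 0, 0, 0), (17, 0, 0, 0, 0), (17, 0, 0, 0, 0), (18, 0, 0, 0, 0), (18, 0, 0, 0, 0),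 (19, 0, 0, 0, 0), (19, 0, 0, 0, 0), (20, 0, 0, 0, 0), (20, 0, 0, 0, 0), (21, 0, 0, 0, 0), (21, 0, 0, 0, 0), (22, 0, 0, 0, 0), (22, 0, 0, 0, 0), (23, 0, 0, 0, 0), (23, 0, 0, 0, 0), (24, 0, 0, 0, 0), (24, 0, 0, 0, 0), (25, 0, 0, 0, 0), (25, 0, 0, 0, 0), (26, 0, 0, 0, 0), (26, 0, 0, 0, 0), (27, 0, 0, 0, 0), (27, 0, 0, 0, 0), (28, 0, 0, 0, 0), (28, 0, 0, 0, 0), (29, 0, 0, 0, 0), (29, 0, 0, 0, 0), (30, 0, 0, 0, 0), (31, 0, 0, 0, 0), (30, 0, 0, 0, 0), (32, 0, 0, 0, 0), (31, 0, 0, 0, 0), (32, 0, 0, 0, 0), (33, 0, 0, 0, 0), (34, 0, 0, 0, 0), (33, 0, 0, 0, 0), (35, 0, 0, 0, 0), (34, 0, 0, 0, 0), (35, 0, 0, 0, 0), (36, 0, 0, 0, 0), (37, 0, 0, 0, 0), (36, 0, 0, 0, 0), (38, 0, 0, 0, 0), (37, 0, 0, 0, 0), (38, 0, 0, 0, 0), (39, 0, 0, 0, 0), (40, 0, 0, 0, 0), (39, 0, 0, 0, 0), (41, 0, 0, 0, 0), (40, 0, 0, 0, 0), (41, 0, 0, 0, 0)],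
  [(42, 0, 0, 0, 0), (43, 0, 0, 0, 0), (42, 0, 0, 0, 0), (44, 0, 0, 0, 0), (43, 0, 0, 0, 0), (44, 0, 0, 0, 0), (45, 0, 0, 0, 0), (46, 0, 0, 0, 0), (45, 0, 0, 0, 0), (47, 0, 0, 0, 0), (46, 0, 0, 0, 0), (47, 0, 0, 0, 0), (48, 0, 0, 0, 0), (49, 0, 0, 0, 0), (48, 0, 0, 0, 0), (50, 0, 0, 0, 0), (49, 0, 0, 0, 0), (50, 0, 0, 0, 0), (51, 0, 0, 0, 0), (52, 0, 0, 0, 0), (51, 0, 0, 0, 0), (53, 0, 0, 0, 0), (52, 0, 0, 0, 0), (53, 0, 0, 0, 0), (54, 0, 0, 0, 0), (54, 0, 0, 0, 0), (150, 0, 0, 0, 0), (150, 0, 0, 0, 0), (151, 0, 0, 0, 0), (151, 0, 0, 0, 0), (152, 0, 0, 0, 0), (152, 0, 0, 0, 0), (153, 0, 0, 0, 0), (153, 0, 0, 0, 0), (55, 0, 0, 0, 0), (55, 0, 0, 0, 0), (56, 0, 0, 0, 0), (56, 0, 0, 0, 0), (154, 0, 0, 0, 0), (154, 0, 0, 0, 0), (155, 0, 0, 0, 0), (155, 0, 0, 0, 0), (156, 0, 0, 0, 0), (156, 0, 0, 0, 0), (157, 0, 0, 0, 0), (157, 0, 0, 0, 0), (57, 0, 0, 0, 0),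 (57, 0, 0, 0, 0), (58, 0, 0, 0, 0), (58, 0, 0, 0, 0), (158, 0, 0, 0, 0), (158, 0, 0, 0, 0), (159, 0, 0, 0, 0), (159, 0, 0, 0, 0), (160, 0, 0, 0, 0), (160, 0, 0, 0, 0), (161, 0, 0, 0, 0), (161, 0, 0, 0, 0), (59, 0, 0, 0, 0), (59, 0, 0, 0, 0), (60, 0, 0, 0, 0), (61, 0, 0, 0, 0), (60, 0, 0, 0, 0), (62, 0, 0, 0, 0), (61, 0, 0, 0, 0), (62, 0, 0, 0, 0), (63, 0, 0, 0, 0), (64, 0, 0, 0, 0), (63, 0, 0, 0, 0), (65, 0, 0, 0, 0), (64, 0, 0, 0, 0), (65, 0, 0, 0, 0), (66, 0, 0, 0, 0), (67, 0, 0, 0, 0), (66, 0, 0, 0, 0), (68, 0, 0, 0, 0), (67, 0, 0, 0, 0), (68, 0, 0, 0, 0), (69, 0, 0, 0, 0), (70, 0, 0, 0, 0), (69, 0, 0, 0, 0), (71, 0, 0, 0, 0), (70, 0, 0, 0, 0), (71, 0, 0, 0, 0)],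
  [(12, 0, 0, 0, 0), (72, 0, 0, 0, 0), (12, 0, 0, 0, 0), (73, 0, 0, 0, 0), (72, 0, 0, 0, 0), (73, 0, 0, 0, 0), (18, 0, 0, 0, 0), (74, 0, 0, 0, 0), (18, 0, 0, 0, 0), (75, 0, 0, 0, 0), (74, 0, 0, 0, 0), (75, 0, 0, 0, 0), (24, 0, 0, 0, 0), (76, 0, 0, 0, 0), (24, 0, 0, 0, 0), (77, 0, 0, 0, 0), (76, 0, 0, 0, 0), (77, 0, 0, 0, 0), (30, 0, 0, 0, 0), (31, 0, 0, 0, 0), (30, 0, 0, 0, 0), (32, 0, 0, 0, 0), (31, 0, 0, 0, 0), (32, 0, 0, 0, 0), (0, 0, 0, 0, 0), (0, 0, 0, 0, 0), (19, 0, 0, 0, 0), (19, 0, 0, 0, 0), (20, 0, 0, 0, 0), (20, 0, 0, 0, 0), (25, 0, 0, 0, 0), (25, 0, 0, 0, 0), (26, 0, 0, 0, 0), (26, 0, 0, 0, 0), (35, 0, 0, 0, 0), (35, 0, 0, 0, 0), (3, 0, 0, 0, 0), (3, 0, 0, 0, 0), (13, 0, 0, 0, 0), (13, 0, 0, 0, 0), (14, 0, 0, 0, 0), (14, 0, 0, 0, 0), (27, 0, 0, 0, 0), (27, 0, 0, 0, 0), (28, 0, 0, 0, 0), (28, 0, 0, 0, 0), (38, 0, 0, 0, 0), (38, 0, 0, 0, 0),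 (6, 0, 0, 0, 0), (6, 0, 0, 0, 0), (15, 0, 0, 0, 0), (15, 0, 0, 0, 0), (16, 0, 0, 0, 0), (16, 0, 0, 0, 0), (21, 0, 0, 0, 0), (21, 0, 0, 0, 0), (22, 0, 0, 0, 0), (22, 0, 0, 0, 0), (41, 0, 0, 0, 0), (41, 0, 0, 0, 0), (9, 0, 0, 0, 0), (10, 0, 0, 0, 0), (9, 0, 0, 0, 0), (11, 0, 0, 0, 0), (10, 0, 0, 0, 0), (11, 0, 0, 0, 0), (78, 0, 0, 0, 0), (79, 0, 0, 0, 0), (78, 0, 0, 0, 0), (17, 0, 0, 0, 0), (79, 0, 0, 0, 0), (17, 0, 0, 0, 0), (80, 0, 0, 0, 0), (81, 0, 0, 0, 0), (80, 0, 0, 0, 0), (23, 0, 0, 0, 0), (81, 0, 0, 0, 0), (23, 0, 0, 0, 0), (82, 0, 0, 0, 0), (83, 0, 0, 0, 0), (82, 0, 0, 0, 0), (29, 0, 0, 0, 0), (83, 0, 0, 0, 0), (29, 0, 0, 0, 0)],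
  [(84, 0, 0, 0, 0), (85, 0, 0, 0, 0), (84, 0, 0, 0, 0), (86, 0, 0, 0, 0), (85, 0, 0, 0, 0), (86, 0, 0, 0, 0), (87, 0, 0, 0, 0), (88, 0, 0, 0, 0), (87, 0, 0, 0, 0), (89, 0, 0, 0, 0), (88, 0, 0, 0, 0), (89, 0, 0, 0, 0), (90, 0, 0, 0, 0), (91, 0, 0, 0, 0), (90, 0, 0, 0, 0), (92, 0, 0, 0, 0), (91, 0, 0, 0, 0), (92, 0, 0, 0, 0), (93, 0, 0, 0, 0), (94, 0, 0, 0, 0), (93, 0, 0, 0, 0), (95, 0, 0, 0, 0), (94, 0, 0, 0, 0), (95, 0, 0, 0, 0), (96, 0, 0, 0, 0), (96, 0, 0, 0, 0), (97, 0, 0, 0, 0), (97, 0, 0, 0, 0), (98, 0, 0, 0, 0), (98, 0, 0, 0, 0), (99, 0, 0, 0, 0), (99, 0, 0, 0, 0), (100, 0, 0, 0, 0), (100, 0, 0, 0, 0), (101, 0, 0, 0, 0), (101, 0, 0, 0, 0), (102, 0, 0, 0, 0), (102, 0, 0, 0, 0), (103, 0, 0, 0, 0), (103, 0, 0, 0, 0), (104, 0, 0, 0, 0), (104, 0, 0, 0, 0), (105, 0, 0, 0, 0), (105, 0, 0, 0, 0), (106, 0, 0, 0, 0), (106, 0, 0, 0, 0), (107, 0, 0, 0, 0),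 (107, 0, 0, 0, 0), (108, 0, 0, 0, 0), (108, 0, 0, 0, 0), (109, 0, 0, 0, 0), (109, 0, 0, 0, 0), (110, 0, 0, 0, 0), (110, 0, 0, 0, 0), (111, 0, 0, 0, 0), (111, 0, 0, 0, 0), (112, 0, 0, 0, 0), (112, 0, 0, 0, 0), (113, 0, 0, 0, 0), (113, 0, 0, 0, 0), (114, 0, 0, 0, 0), (115, 0, 0, 0, 0), (114, 0, 0, 0, 0), (116, 0, 0, 0, 0), (115, 0, 0, 0, 0), (116, 0, 0, 0, 0), (117, 0, 0, 0, 0), (118, 0, 0, 0, 0), (117, 0, 0, 0, 0), (119, 0, 0, 0, 0), (118, 0, 0, 0, 0), (119, 0, 0, 0, 0), (120, 0, 0, 0, 0), (121, 0, 0, 0, 0), (120, 0, 0, 0, 0), (122, 0, 0, 0, 0), (121, 0, 0, 0, 0), (122, 0, 0, 0, 0), (123, 0, 0, 0, 0), (124, 0, 0, 0, 0), (123, 0, 0, 0, 0), (125, 0, 0, 0, 0), (124, 0, 0, 0, 0), (125, 0, 0, 0, 0)],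
  [(54, 0, 0, 0, 0), (126, 0, 0, 0, 0), (54, 0, 0, 0, 0), (127, 0, 0, 0, 0), (126, 0, 0, 0, 0), (127, 0, 0, 0, 0), (56, 0, 0, 0, 0), (128, 0, 0, 0, 0), (56, 0, 0, 0, 0), (129, 0, 0, 0, 0), (128, 0, 0, 0, 0), (129, 0, 0, 0, 0), (58, 0, 0, 0, 0), (130, 0, 0, 0, 0), (58, 0, 0, 0, 0), (131, 0, 0, 0, 0), (130, 0, 0, 0, 0), (131, 0, 0, 0, 0), (60, 0, 0, 0, 0), (61, 0, 0, 0, 0), (60, 0, 0, 0, 0), (62, 0, 0, 0, 0), (61, 0, 0, 0, 0), (62, 0, 0, 0, 0), (42, 0, 0, 0, 0), (42, 0, 0, 0, 0), (154, 0, 0, 0, 0), (154, 0, 0, 0, 0), (155, 0, 0, 0, 0), (155, 0, 0, 0, 0), (158, 0, 0, 0, 0), (158, 0, 0, 0, 0), (159, 0, 0, 0, 0), (159, 0, 0, 0, 0), (65, 0, 0, 0, 0), (65, 0, 0, 0, 0), (45, 0, 0, 0, 0), (45, 0, 0, 0, 0), (150, 0, 0, 0, 0), (150, 0, 0, 0, 0), (151, 0, 0, 0, 0), (151, 0, 0, 0, 0), (160, 0, 0, 0, 0), (160, 0, 0, 0, 0), (161, 0, 0, 0, 0), (161, 0, 0, 0, 0), (68,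 0, 0, 0, 0), (68, 0, 0, 0, 0), (48, 0, 0, 0, 0), (48, 0, 0, 0, 0), (152, 0, 0, 0, 0), (152, 0, 0, 0, 0), (153, 0, 0, 0, 0), (153, 0, 0, 0, 0), (156, 0, 0, 0, 0), (156, 0, 0, 0, 0), (157, 0, 0, 0, 0), (157, 0, 0, 0, 0), (71, 0, 0, 0, 0), (71, 0, 0, 0, 0), (51, 0, 0, 0, 0), (52, 0, 0, 0, 0), (51, 0, 0, 0, 0), (53, 0, 0, 0, 0), (52, 0, 0, 0, 0), (53, 0, 0, 0, 0), (132, 0, 0, 0, 0), (133, 0, 0, 0, 0), (132, 0, 0, 0, 0), (55, 0, 0, 0, 0), (133, 0, 0, 0, 0), (55, 0, 0, 0, 0), (134, 0, 0, 0, 0), (135, 0, 0, 0, 0), (134, 0, 0, 0, 0), (57, 0, 0, 0, 0), (135, 0, 0, 0, 0), (57, 0, 0, 0, 0), (136, 0, 0, 0, 0), (137, 0, 0, 0, 0), (136, 0, 0, 0, 0), (59, 0, 0, 0, 0), (137, 0, 0, 0, 0), (59, 0, 0, 0, 0)],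
  [(96, 0, 0, 0, 0), (138, 0, 0, 0, 0), (96, 0, 0, 0, 0), (139, 0, 0, 0, 0), (138, 0, 0, 0, 0), (139, 0, 0, 0, 0), (102, 0, 0, 0, 0), (140, 0, 0, 0, 0), (102, 0, 0, 0, 0), (141, 0, 0, 0, 0), (140, 0, 0, 0, 0), (141, 0, 0, 0, 0), (108, 0, 0, 0, 0), (142, 0, 0, 0, 0), (108, 0, 0, 0, 0), (143, 0, 0, 0, 0), (142, 0, 0, 0, 0), (143, 0, 0, 0, 0), (114, 0, 0, 0, 0), (115, 0, 0, 0, 0), (114, 0, 0, 0, 0), (116, 0, 0, 0, 0), (115, 0, 0, 0, 0), (116, 0, 0, 0, 0), (84, 0, 0, 0, 0), (84, 0, 0, 0, 0), (103, 0, 0, 0, 0), (103, 0, 0, 0, 0), (104, 0, 0, 0, 0), (104, 0, 0, 0, 0), (109, 0, 0, 0, 0), (109, 0, 0, 0, 0), (110, 0, 0, 0, 0), (110, 0, 0, 0, 0), (119, 0, 0, 0, 0), (119, 0, 0, 0, 0), (87, 0, 0, 0, 0), (87, 0, 0, 0, 0), (97, 0, 0, 0, 0), (97, 0, 0, 0, 0), (98, 0, 0, 0, 0), (98, 0, 0, 0, 0), (111, 0, 0, 0, 0), (111, 0, 0, 0, 0), (112, 0, 0, 0, 0), (112, 0, 0, 0,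 0), (122, 0, 0, 0, 0), (122, 0, 0, 0, 0), (90, 0, 0, 0, 0), (90, 0, 0, 0, 0), (99, 0, 0, 0, 0), (99, 0, 0, 0, 0), (100, 0, 0, 0, 0), (100, 0, 0, 0, 0), (105, 0, 0, 0, 0), (105, 0, 0, 0, 0), (106, 0, 0, 0, 0), (106, 0, 0, 0, 0), (125, 0, 0, 0, 0), (125, 0, 0, 0, 0), (93, 0, 0, 0, 0), (94, 0, 0, 0, 0), (93, 0, 0, 0, 0), (95, 0, 0, 0, 0), (94, 0, 0, 0, 0), (95, 0, 0, 0, 0), (144, 0, 0, 0, 0), (145, 0, 0, 0, 0), (144, 0, 0, 0, 0), (101, 0, 0, 0, 0), (145, 0, 0, 0, 0), (101, 0, 0, 0, 0), (146, 0, 0, 0, 0), (147, 0, 0, 0, 0), (146, 0, 0, 0, 0), (107, 0, 0, 0, 0), (147, 0, 0, 0, 0), (107, 0, 0, 0, 0), (148, 0, 0, 0, 0), (149, 0, 0, 0, 0), (148, 0, 0, 0, 0), (113, 0, 0, 0, 0), (149, 0, 0, 0, 0), (113, 0, 0, 0, 0)]]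

def m24_1 : Base := (0, 1, [(0, [0], [0, 5]), (0, [1], [1, 5]), (0, [2], [2, 4]), (4, [], [3])])

def l24_1 : Cov := [(336, 0, 1, [(0, [0], [0, 5]), (0, [1], [1, 5]), (0, [2], [2, 4]), (4, [], [3])]),
  (192, 0, 1, [(0, [0], [0, 5]), (0, [1], [1, 5]), (0, [2], [2, 3]), (4, [], [4])]),
  (336, 0, 1, [(0, [0], [0, 5]), (0, [1], [1, 5]), (0, [2], [3, 4]), (4, [], [2])]),
  (336, 0, 1, [(0, [0], [0, 5]), (0, [1], [2, 5]), (0, [2], [1, 4]), (4, [], [3])]),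
  (192, 0, 1, [(0, [0], [0, 5]), (0, [1], [2, 5]), (0, [2], [1, 3]), (4, [], [4])]),
  (336, 0, 1, [(0, [0], [0, 5]), (0, [1], [2, 5]), (0, [2], [3, 4]), (4, [], [1])]),
  (336, 0, 1, [(0, [0], [0, 5]), (0, [1], [3, 5]), (0, [2], [1, 4]), (4, [], [2])]),
  (192, 0, 1, [(0, [0], [0, 5]), (0, [1], [3, 5]), (0, [2], [1, 2]), (4, [], [4])]),
  (336, 0, 1, [(0, [0], [0, 5]), (0, [1], [3, 5]), (0, [2], [2, 4]), (4, [], [1])]),
  (96, 0, 1, [(0, [0], [0, 5]), (0, [1], [4, 5]), (0, [2], [1, 3]), (4, [], [2])]),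
  (96, 0, 1, [(0, [0], [0, 5]), (0, [1], [4, 5]), (0, [2], [1, 2]), (4, [], [3])]),
  (96, 0, 1, [(0, [0], [0, 5]), (0, [1], [4, 5]), (0, [2], [2, 3]), (4, [], [1])]),
  (240, 0, 1, [(0, [0], [1, 5]), (0, [1], [0, 5]), (0, [2], [2, 4]), (4, [], [3])]),
  (240, 0, 1, [(0, [0], [1, 5]), (0, [1], [0, 5]), (0, [2], [3, 4]), (4, [], [2])]),
  (144, 0, 1, [(0, [0], [1, 5]), (0, [1], [2, 5]), (0, [2], [3, 4]), (4, [], [0])]),
  (-144, 0, 1, [(0, [0], [1, 5]), (0, [1], [2, 5]), (0, [2], [3, 0]), (4, [], [4])]),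
  (144, 0, 1, [(0, [0], [1, 5]), (0, [1], [3, 5]), (0, [2], [2, 4]), (4, [], [0])]),
  (-144, 0, 1, [(0, [0], [1, 5]), (0, [1], [3, 5]), (0, [2], [2, 0]), (4, [], [4])]),
  (-240, 0, 1, [(0, [0], [1, 5]), (0, [1], [4, 5]), (0, [2], [2, 0]), (4, [], [3])]),
  (-240, 0, 1, [(0, [0], [1, 5]), (0, [1], [4, 5]), (0, [2], [3, 0]), (4, [], [2])]),
  (240, 0, 1, [(0, [0], [2, 5]), (0, [1], [0, 5]), (0, [2], [1, 4]), (4, [], [3])]),
  (240, 0, 1, [(0, [0], [2, 5]), (0, [1], [0, 5]), (0, [2], [3, 4]), (4, [], [1])]),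
  (144, 0, 1, [(0, [0], [2, 5]), (0, [1], [1, 5]), (0, [2], [3, 4]), (4, [], [0])]),
  (-144, 0, 1, [(0, [0], [2, 5]), (0, [1], [1, 5]), (0, [2], [3, 0]), (4, [], [4])]),
  (144, 0, 1, [(0, [0], [2, 5]), (0, [1], [3, 5]), (0, [2], [1, 4]), (4, [], [0])]),
  (-144, 0, 1, [(0, [0], [2, 5]), (0, [1], [3, 5]), (0, [2], [1, 0]), (4, [], [4])]),
  (-240, 0, 1, [(0, [0], [2, 5]), (0, [1], [4, 5]), (0, [2], [1, 0]), (4, [], [3])]),
  (-240, 0, 1, [(0, [0], [2, 5]), (0, [1], [4, 5]), (0, [2], [3, 0]), (4, [], [1])]),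
  (240, 0, 1, [(0, [0], [3, 5]), (0, [1], [0, 5]), (0, [2], [1, 4]), (4, [], [2])]),
  (240, 0, 1, [(0, [0], [3, 5]), (0, [1], [0, 5]), (0, [2], [2, 4]), (4, [], [1])]),
  (144, 0, 1, [(0, [0], [3, 5]), (0, [1], [1, 5]), (0, [2], [2, 4]), (4, [], [0])]),
  (-144, 0, 1, [(0, [0], [3, 5]), (0, [1], [1, 5]), (0, [2], [2, 0]), (4, [], [4])]),
  (144, 0, 1, [(0, [0], [3, 5]), (0, [1], [2, 5]), (0, [2], [1, 4]), (4, [], [0])]),
  (-144, 0, 1, [(0, [0], [3, 5]), (0, [1], [2, 5]), (0, [2], [1, 0]), (4, [], [4])]),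
  (-240, 0, 1, [(0, [0], [3, 5]), (0, [1], [4, 5]), (0, [2], [1, 0]), (4, [], [2])]),
  (-240, 0, 1, [(0, [0], [3, 5]), (0, [1], [4, 5]), (0, [2], [2, 0]), (4, [], [1])]),
  (-96, 0, 1, [(0, [0], [4, 5]), (0, [1], [0, 5]), (0, [2], [1, 3]), (4, [], [2])]),
  (-96, 0, 1, [(0, [0], [4, 5]), (0, [1], [0, 5]), (0, [2], [1, 2]), (4, [], [3])]),
  (-96, 0, 1, [(0, [0], [4, 5]), (0, [1], [0, 5]), (0, [2], [2, 3]), (4, [], [1])]),
  (-336, 0, 1, [(0, [0], [4, 5]), (0, [1], [1, 5]), (0, [2], [0, 3]), (4, [], [2])]),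
  (-336, 0, 1, [(0, [0], [4, 5]), (0, [1], [1, 5]), (0, [2], [0, 2]), (4, [], [3])]),
  (-192, 0, 1, [(0, [0], [4, 5]), (0, [1], [1, 5]), (0, [2], [2, 3]), (4, [], [0])]),
  (-336, 0, 1, [(0, [0], [4, 5]), (0, [1], [2, 5]), (0, [2], [0, 3]), (4, [], [1])]),
  (-336, 0, 1, [(0, [0], [4, 5]), (0, [1], [2, 5]), (0, [2], [0, 1]), (4, [], [3])]),
  (-192, 0, 1, [(0, [0], [4, 5]), (0, [1], [2, 5]), (0, [2], [1, 3]), (4, [], [0])]),
  (-336, 0, 1, [(0, [0], [4, 5]), (0, [1], [3, 5]), (0, [2], [0, 2]), (4, [], [1])]),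
  (-336, 0, 1, [(0, [0], [4, 5]), (0, [1], [3, 5]), (0, [2], [0, 1]), (4, [], [2])]),
  (-192, 0, 1, [(0, [0], [4, 5]), (0, [1], [3, 5]), (0, [2], [1, 2]), (4, [], [0])]),
  (96, 0, 1, [(0, [0], [0, 5]), (0, [2], [1, 5]), (0, [1], [2, 4]), (4, [], [3])]),
  (96, 0, 1, [(0, [0], [0, 5]), (0, [2], [1, 5]), (0, [1], [2, 3]), (4, [], [4])]),
  (96, 0, 1, [(0, [0], [0, 5]), (0, [2], [1, 5]), (0, [1], [3, 4]), (4, [], [2])]),
  (96, 0, 1, [(0, [0], [0, 5]), (0, [2], [2, 5]), (0, [1], [1, 4]), (4, [], [3])]),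
  (96, 0, 1, [(0, [0], [0, 5]), (0, [2], [2, 5]), (0, [1], [1, 3]), (4, [], [4])]),
  (96, 0, 1, [(0, [0], [0, 5]), (0, [2], [2, 5]), (0, [1], [3, 4]), (4, [], [1])]),
  (96, 0, 1, [(0, [0], [0, 5]), (0, [2], [3, 5]), (0, [1], [1, 4]), (4, [], [2])]),
  (96, 0, 1, [(0, [0], [0, 5]), (0, [2], [3, 5]), (0, [1], [1, 2]), (4, [], [4])]),
  (96, 0, 1, [(0, [0], [0, 5]), (0, [2], [3, 5]), (0, [1], [2, 4]), (4, [], [1])]),
  (192, 0, 1, [(0, [0], [0, 5]), (0, [2], [4, 5]), (0, [1], [1, 3]), (4, [], [2])]),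
  (192, 0, 1, [(0, [0], [0, 5]), (0, [2], [4, 5]), (0, [1], [1, 2]), (4, [], [3])]),
  (192, 0, 1, [(0, [0], [0, 5]), (0, [2], [4, 5]), (0, [1], [2, 3]), (4, [], [1])]),
  (-96, 0, 1, [(0, [0], [1, 5]), (0, [2], [0, 5]), (0, [1], [2, 4]), (4, [], [3])]),
  (-96, 0, 1, [(0, [0], [1, 5]), (0, [2], [0, 5]), (0, [1], [3, 4]), (4, [], [2])]),
  (96, 0, 1, [(0, [0], [1, 5]), (0, [2], [4, 5]), (0, [1], [2, 0]), (4, [], [3])]),
  (96, 0, 1, [(0, [0], [1, 5]), (0, [2], [4, 5]), (0, [1], [3, 0]), (4, [], [2])]),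
  (-96, 0, 1, [(0, [0], [2, 5]), (0, [2], [0, 5]), (0, [1], [1, 4]), (4, [], [3])]),
  (-96, 0, 1, [(0, [0], [2, 5]), (0, [2], [0, 5]), (0, [1], [3, 4]), (4, [], [1])]),
  (96, 0, 1, [(0, [0], [2, 5]), (0, [2], [4, 5]), (0, [1], [1, 0]), (4, [], [3])]),
  (96, 0, 1, [(0, [0], [2, 5]), (0, [2], [4, 5]), (0, [1], [3, 0]), (4, [], [1])]),
  (-96, 0, 1, [(0, [0], [3, 5]), (0, [2], [0, 5]), (0, [1], [1, 4]), (4, [], [2])]),
  (-96, 0, 1, [(0, [0], [3, 5]), (0, [2], [0, 5]), (0, [1], [2, 4]), (4, [], [1])]),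
  (96, 0, 1, [(0, [0], [3, 5]), (0, [2], [4, 5]), (0, [1], [1, 0]), (4, [], [2])]),
  (96, 0, 1, [(0, [0], [3, 5]), (0, [2], [4, 5]), (0, [1], [2, 0]), (4, [], [1])]),
  (-192, 0, 1, [(0, [0], [4, 5]), (0, [2], [0, 5]), (0, [1], [1, 3]), (4, [], [2])]),
  (-192, 0, 1, [(0, [0], [4, 5]), (0, [2], [0, 5]), (0, [1], [1, 2]), (4, [], [3])]),
  (-192, 0, 1, [(0, [0], [4, 5]), (0, [2], [0, 5]), (0, [1], [2, 3]), (4, [], [1])]),
  (-96, 0, 1, [(0, [0], [4, 5]), (0, [2], [1, 5]), (0, [1], [0, 3]), (4, [], [2])]),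
  (-96, 0, 1, [(0, [0], [4, 5]), (0, [2], [1, 5]), (0, [1], [0, 2]), (4, [], [3])]),
  (-96, 0, 1, [(0, [0], [4, 5]), (0, [2], [1, 5]), (0, [1], [2, 3]), (4, [], [0])]),
  (-96, 0, 1, [(0, [0], [4, 5]), (0, [2], [2, 5]), (0, [1], [0, 3]), (4, [], [1])]),
  (-96, 0, 1, [(0, [0], [4, 5]), (0, [2], [2, 5]), (0, [1], [0, 1]), (4, [], [3])]),
  (-96, 0, 1, [(0, [0], [4, 5]), (0, [2], [2, 5]), (0, [1], [1, 3]), (4, [], [0])]),
  (-96, 0, 1, [(0, [0], [4, 5]), (0, [2], [3, 5]), (0, [1], [0, 2]), (4, [], [1])]),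
  (-96, 0, 1, [(0, [0], [4, 5]), (0, [2], [3, 5]), (0, [1], [0, 1]), (4, [], [2])]),
  (-96, 0, 1, [(0, [0], [4, 5]), (0, [2], [3, 5]), (0, [1], [1, 2]), (4, [], [0])]),
  (96, 0, 1, [(0, [1], [0, 5]), (0, [0], [1, 5]), (0, [2], [2, 3]), (4, [], [4])]),
  (96, 0, 1, [(0, [1], [0, 5]), (0, [0], [2, 5]), (0, [2], [1, 3]), (4, [], [4])]),
  (96, 0, 1, [(0, [1], [0, 5]), (0, [0], [3, 5]), (0, [2], [1, 2]), (4, [], [4])]),
  (-96, 0, 1, [(0, [1], [4, 5]), (0, [0], [1, 5]), (0, [2], [2, 3]), (4, [], [0])]),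
  (-96, 0, 1, [(0, [1], [4, 5]), (0, [0], [2, 5]), (0, [2], [1, 3]), (4, [], [0])]),
  (-96, 0, 1, [(0, [1], [4, 5]), (0, [0], [3, 5]), (0, [2], [1, 2]), (4, [], [0])]),
  (-240, 0, 1, [(0, [1], [0, 5]), (0, [2], [1, 5]), (0, [0], [2, 4]), (4, [], [3])]),
  (-96, 0, 1, [(0, [1], [0, 5]), (0, [2], [1, 5]), (0, [0], [2, 3]), (4, [], [4])]),
  (-240, 0, 1, [(0, [1], [0, 5]), (0, [2], [1, 5]), (0, [0], [3, 4]), (4, [], [2])]),
  (-240, 0, 1, [(0, [1], [0, 5]), (0, [2], [2, 5]), (0, [0], [1, 4]), (4, [], [3])]),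
  (-96, 0, 1, [(0, [1], [0, 5]), (0, [2], [2, 5]), (0, [0], [1, 3]), (4, [], [4])]),
  (-240, 0, 1, [(0, [1], [0, 5]), (0, [2], [2, 5]), (0, [0], [3, 4]), (4, [], [1])]),
  (-240, 0, 1, [(0, [1], [0, 5]), (0, [2], [3, 5]), (0, [0], [1, 4]), (4, [], [2])]),
  (-96, 0, 1, [(0, [1], [0, 5]), (0, [2], [3, 5]), (0, [0], [1, 2]), (4, [], [4])]),
  (-240, 0, 1, [(0, [1], [0, 5]), (0, [2], [3, 5]), (0, [0], [2, 4]), (4, [], [1])]),
  (96, 0, 1, [(0, [1], [0, 5]), (0, [2], [4, 5]), (0, [0], [1, 3]), (4, [], [2])]),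
  (96, 0, 1, [(0, [1], [0, 5]), (0, [2], [4, 5]), (0, [0], [1, 2]), (4, [], [3])]),
  (96, 0, 1, [(0, [1], [0, 5]), (0, [2], [4, 5]), (0, [0], [2, 3]), (4, [], [1])]),
  (-336, 0, 1, [(0, [1], [1, 5]), (0, [2], [0, 5]), (0, [0], [2, 4]), (4, [], [3])]),
  (-336, 0, 1, [(0, [1], [1, 5]), (0, [2], [0, 5]), (0, [0], [3, 4]), (4, [], [2])]),
  (-144, 0, 1, [(0, [1], [1, 5]), (0, [2], [2, 5]), (0, [0], [3, 4]), (4, [], [0])]),
  (144, 0, 1, [(0, [1], [1, 5]), (0, [2], [2, 5]), (0, [0], [3, 0]), (4, [], [4])]),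
  (-144, 0, 1, [(0, [1], [1, 5]), (0, [2], [3, 5]), (0, [0], [2, 4]), (4, [], [0])]),
  (144, 0, 1, [(0, [1], [1, 5]), (0, [2], [3, 5]), (0, [0], [2, 0]), (4, [], [4])]),
  (336, 0, 1, [(0, [1], [1, 5]), (0, [2], [4, 5]), (0, [0], [2, 0]), (4, [], [3])]),
  (336, 0, 1, [(0, [1], [1, 5]), (0, [2], [4, 5]), (0, [0], [3, 0]), (4, [], [2])]),
  (-336, 0, 1, [(0, [1], [2, 5]), (0, [2], [0, 5]), (0, [0], [1, 4]), (4, [], [3])]),
  (-336, 0, 1, [(0, [1], [2, 5]), (0, [2], [0, 5]), (0, [0], [3, 4]), (4, [], [1])]),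
  (-144, 0, 1, [(0, [1], [2, 5]), (0, [2], [1, 5]), (0, [0], [3, 4]), (4, [], [0])]),
  (144, 0, 1, [(0, [1], [2, 5]), (0, [2], [1, 5]), (0, [0], [3, 0]), (4, [], [4])]),
  (-144, 0, 1, [(0, [1], [2, 5]), (0, [2], [3, 5]), (0, [0], [1, 4]), (4, [], [0])]),
  (144, 0, 1, [(0, [1], [2, 5]), (0, [2], [3, 5]), (0, [0], [1, 0]), (4, [], [4])]),
  (336, 0, 1, [(0, [1], [2, 5]), (0, [2], [4, 5]), (0, [0], [1, 0]), (4, [], [3])]),
  (336, 0, 1, [(0, [1], [2, 5]), (0, [2], [4, 5]), (0, [0], [3, 0]), (4, [], [1])]),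
  (-336, 0, 1, [(0, [1], [3, 5]), (0, [2], [0, 5]), (0, [0], [1, 4]), (4, [], [2])]),
  (-336, 0, 1, [(0, [1], [3, 5]), (0, [2], [0, 5]), (0, [0], [2, 4]), (4, [], [1])]),
  (-144, 0, 1, [(0, [1], [3, 5]), (0, [2], [1, 5]), (0, [0], [2, 4]), (4, [], [0])]),
  (144, 0, 1, [(0, [1], [3, 5]), (0, [2], [1, 5]), (0, [0], [2, 0]), (4, [], [4])]),
  (-144, 0, 1, [(0, [1], [3, 5]), (0, [2], [2, 5]), (0, [0], [1, 4]), (4, [], [0])]),
  (144, 0, 1, [(0, [1], [3, 5]), (0, [2], [2, 5]), (0, [0], [1, 0]), (4, [], [4])]),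
  (336, 0, 1, [(0, [1], [3, 5]), (0, [2], [4, 5]), (0, [0], [1, 0]), (4, [], [2])]),
  (336, 0, 1, [(0, [1], [3, 5]), (0, [2], [4, 5]), (0, [0], [2, 0]), (4, [], [1])]),
  (-96, 0, 1, [(0, [1], [4, 5]), (0, [2], [0, 5]), (0, [0], [1, 3]), (4, [], [2])]),
  (-96, 0, 1, [(0, [1], [4, 5]), (0, [2], [0, 5]), (0, [0], [1, 2]), (4, [], [3])]),
  (-96, 0, 1, [(0, [1], [4, 5]), (0, [2], [0, 5]), (0, [0], [2, 3]), (4, [], [1])]),
  (240, 0, 1, [(0, [1], [4, 5]), (0, [2], [1, 5]), (0, [0], [0, 3]), (4, [], [2])]),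
  (240, 0, 1, [(0, [1], [4, 5]), (0, [2], [1, 5]), (0, [0], [0, 2]), (4, [], [3])]),
  (96, 0, 1, [(0, [1], [4, 5]), (0, [2], [1, 5]), (0, [0], [2, 3]), (4, [], [0])]),
  (240, 0, 1, [(0, [1], [4, 5]), (0, [2], [2, 5]), (0, [0], [0, 3]), (4, [], [1])]),
  (240, 0, 1, [(0, [1], [4, 5]), (0, [2], [2, 5]), (0, [0], [0, 1]), (4, [], [3])]),
  (96, 0, 1, [(0, [1], [4, 5]), (0, [2], [2, 5]), (0, [0], [1, 3]), (4, [], [0])]),
  (240, 0, 1, [(0, [1], [4, 5]), (0, [2], [3, 5]), (0, [0], [0, 2]), (4, [], [1])]),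
  (240, 0, 1, [(0, [1], [4, 5]), (0, [2], [3, 5]), (0, [0], [0, 1]), (4, [], [2])]),
  (96, 0, 1, [(0, [1], [4, 5]), (0, [2], [3, 5]), (0, [0], [1, 2]), (4, [], [0])]),
  (-96, 0, 1, [(0, [2], [0, 5]), (0, [0], [1, 5]), (0, [1], [2, 3]), (4, [], [4])]),
  (-96, 0, 1, [(0, [2], [0, 5]), (0, [0], [2, 5]), (0, [1], [1, 3]), (4, [], [4])]),
  (-96, 0, 1, [(0, [2], [0, 5]), (0, [0], [3, 5]), (0, [1], [1, 2]), (4, [], [4])]),
  (96, 0, 1, [(0, [2], [4, 5]), (0, [0], [1, 5]), (0, [1], [2, 3]), (4, [], [0])]),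
  (96, 0, 1, [(0, [2], [4, 5]), (0, [0], [2, 5]), (0, [1], [1, 3]), (4, [], [0])]),
  (96, 0, 1, [(0, [2], [4, 5]), (0, [0], [3, 5]), (0, [1], [1, 2]), (4, [], [0])]),
  (-192, 0, 1, [(0, [2], [0, 5]), (0, [1], [1, 5]), (0, [0], [2, 3]), (4, [], [4])]),
  (-192, 0, 1, [(0, [2], [0, 5]), (0, [1], [2, 5]), (0, [0], [1, 3]), (4, [], [4])]),
  (-192, 0, 1, [(0, [2], [0, 5]), (0, [1], [3, 5]), (0, [0], [1, 2]), (4, [], [4])]),
  (192, 0, 1, [(0, [2], [4, 5]), (0, [1], [1, 5]), (0, [0], [2, 3]), (4, [], [0])]),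
  (192, 0, 1, [(0, [2], [4, 5]), (0, [1], [2, 5]), (0, [0], [1, 3]), (4, [], [0])]),
  (192, 0, 1, [(0, [2], [4, 5]), (0, [1], [3, 5]), (0, [0], [1, 2]), (4, [], [0])])]

def z24_1 : Cov := [(0, 0, 1, [(0, [0], [1, 5]), (0, [1], [2, 5]), (0, [2], [0, 4]), (4, [], [3])]),
  (0, 0, 1, [(0, [0], [1, 5]), (0, [1], [3, 5]), (0, [2], [0, 4]), (4, [], [2])]),
  (0, 0, 1, [(0, [0], [2, 5]), (0, [1], [1, 5]), (0, [2], [0, 4]), (4, [], [3])]),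
  (0, 0, 1, [(0, [0], [2, 5]), (0, [1], [3, 5]), (0, [2], [0, 4]), (4, [], [1])]),
  (0, 0, 1, [(0, [0], [3, 5]), (0, [1], [1, 5]), (0, [2], [0, 4]), (4, [], [2])]),
  (0, 0, 1, [(0, [0], [3, 5]), (0, [1], [2, 5]), (0, [2], [0, 4]), (4, [], [1])]),
  (0, 0, 1, [(0, [0], [1, 5]), (0, [2], [2, 5]), (0, [1], [0, 4]), (4, [], [3])]),
  (0, 0, 1, [(0, [0], [1, 5]), (0, [2], [2, 5]), (0, [1], [3, 4]), (4, [], [0])]),
  (0, 0, 1, [(0, [0], [1, 5]), (0, [2], [2, 5]), (0, [1], [3, 0]), (4, [], [4])]),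
  (0, 0, 1, [(0, [0], [1, 5]), (0, [2], [3, 5]), (0, [1], [0, 4]), (4, [], [2])]),
  (0, 0, 1, [(0, [0], [1, 5]), (0, [2], [3, 5]), (0, [1], [2, 4]), (4, [], [0])]),
  (0, 0, 1, [(0, [0], [1, 5]), (0, [2], [3, 5]), (0, [1], [2, 0]), (4, [], [4])]),
  (0, 0, 1, [(0, [0], [2, 5]), (0, [2], [1, 5]), (0, [1], [0, 4]), (4, [], [3])]),
  (0, 0, 1, [(0, [0], [2, 5]), (0, [2], [1, 5]), (0, [1], [3, 4]), (4, [], [0])]),
  (0, 0, 1, [(0, [0], [2, 5]), (0, [2], [1, 5]), (0, [1], [3, 0]), (4, [], [4])]),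
  (0, 0, 1, [(0, [0], [2, 5]), (0, [2], [3, 5]), (0, [1], [0, 4]), (4, [], [1])]),
  (0, 0, 1, [(0, [0], [2, 5]), (0, [2], [3, 5]), (0, [1], [1, 4]), (4, [], [0])]),
  (0, 0, 1, [(0, [0], [2, 5]), (0, [2], [3, 5]), (0, [1], [1, 0]), (4, [], [4])]),
  (0, 0, 1, [(0, [0], [3, 5]), (0, [2], [1, 5]), (0, [1], [0, 4]), (4, [], [2])]),
  (0, 0, 1, [(0, [0], [3, 5]), (0, [2], [1, 5]), (0, [1], [2, 4]), (4, [], [0])]),
  (0, 0, 1, [(0, [0], [3, 5]), (0, [2], [1, 5]), (0, [1], [2, 0]), (4, [], [4])]),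
  (0, 0, 1, [(0, [0], [3, 5]), (0, [2], [2, 5]), (0, [1], [0, 4]), (4, [], [1])]),
  (0, 0, 1, [(0, [0], [3, 5]), (0, [2], [2, 5]), (0, [1], [1, 4]), (4, [], [0])]),
  (0, 0, 1, [(0, [0], [3, 5]), (0, [2], [2, 5]), (0, [1], [1, 0]), (4, [], [4])]),
  (0, 0, 1, [(0, [1], [1, 5]), (0, [2], [2, 5]), (0, [0], [0, 4]), (4, [], [3])]),
  (0, 0, 1, [(0, [1], [1, 5]), (0, [2], [3, 5]), (0, [0], [0, 4]), (4, [], [2])]),
  (0, 0, 1, [(0, [1], [2, 5]), (0, [2], [1, 5]), (0, [0], [0, 4]), (4, [], [3])]),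
  (0, 0, 1, [(0, [1], [2, 5]), (0, [2], [3, 5]), (0, [0], [0, 4]), (4, [], [1])]),
  (0, 0, 1, [(0, [1], [3, 5]), (0, [2], [1, 5]), (0, [0], [0, 4]), (4, [], [2])]),
  (0, 0, 1, [(0, [1], [3, 5]), (0, [2], [2, 5]), (0, [0], [0, 4]), (4, [], [1])])]

def w24_1 : List (List Wit) := [[(0, 0, 0, 0, 0), (1, 0, 0, 0, 0), (2, 0, 0, 0, 0), (1, 0, 0, 0, 0), (2, 0, 0, 0, 0), (0, 0, 0, 0, 0), (3, 0, 0, 0, 0), (4, 0, 0, 0, 0), (5, 0, 0, 0, 0), (4, 0, 0, 0, 0), (5, 0, 0, 0, 0), (3, 0, 0, 0, 0), (6, 0, 0, 0, 0), (7, 0, 0, 0, 0), (8, 0, 0, 0, 0), (7, 0, 0, 0, 0), (8, 0, 0, 0, 0), (6, 0, 0, 0, 0), (9, 0, 0, 0, 0), (10, 0, 0, 0, 0), (11, 0, 0, 0, 0), (10, 0, 0, 0, 0), (11, 0, 0, 0, 0), (9, 0, 0, 0, 0), (12, 0, 0, 0, 0), (13, 0, 0, 0, 0), (150, 0, 0, 0, 0), (14, 0, 0, 0, 0), (15, 0, 0, 0, 0), (150, 0, 0, 0, 0), (151, 0, 0, 0, 0), (16, 0, 0, 0, 0), (17, 0, 0, 0, 0), (151,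 0, 0, 0, 0), (18, 0, 0, 0, 0), (19, 0, 0, 0, 0), (20, 0, 0, 0, 0), (21, 0, 0, 0, 0), (152, 0, 0, 0, 0), (22, 0, 0, 0, 0), (23, 0, 0, 0, 0), (152, 0, 0, 0, 0), (153, 0, 0, 0, 0), (24, 0, 0, 0, 0), (25, 0, 0, 0, 0), (153, 0, 0, 0, 0), (26, 0, 0, 0, 0), (27, 0, 0, 0, 0), (28, 0, 0, 0, 0), (29, 0, 0, 0, 0), (154, 0, 0, 0, 0), (30, 0, 0, 0, 0), (31, 0, 0, 0, 0), (154, 0, 0, 0, 0), (155, 0, 0, 0, 0), (32, 0, 0, 0, 0), (33, 0, 0, 0, 0), (155, 0, 0, 0, 0), (34, 0, 0, 0, 0), (35, 0, 0, 0, 0), (36, 0, 0, 0, 0), (37, 0, 0, 0, 0), (38, 0, 0, 0, 0), (37, 0, 0, 0, 0), (38, 0, 0, 0, 0), (36, 0, 0, 0, 0), (39, 0, 0, 0, 0), (40, 0, 0, 0, 0), (41, 0, 0, 0, 0), (40, 0, 0, 0, 0), (41, 0, 0, 0, 0), (39, 0, 0, 0, 0), (42, 0, 0, 0, 0), (43, 0, 0, 0, 0), (44, 0, 0, 0, 0), (43, 0, 0, 0, 0), (44, 0, 0, 0, 0), (42, 0, 0, 0, 0), (45, 0, 0, 0, 0), (46, 0, 0, 0, 0), (47, 0, 0, 0,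 0), (46, 0, 0, 0, 0), (47, 0, 0, 0, 0), (45, 0, 0, 0, 0)],
  [(48, 0, 0, 0, 0), (49, 0, 0, 0, 0), (50, 0, 0, 0, 0), (49, 0, 0, 0, 0), (50, 0, 0, 0, 0), (48, 0, 0, 0, 0), (51, 0, 0, 0, 0), (52, 0, 0, 0, 0), (53, 0, 0, 0, 0), (52, 0, 0, 0, 0), (53, 0, 0, 0, 0), (51, 0, 0, 0, 0), (54, 0, 0, 0, 0), (55, 0, 0, 0, 0), (56, 0, 0, 0, 0), (55, 0, 0, 0, 0), (56, 0, 0, 0, 0), (54, 0, 0, 0, 0), (57, 0, 0, 0, 0), (58, 0, 0, 0, 0), (59, 0, 0, 0, 0), (58, 0, 0, 0, 0), (59, 0, 0, 0, 0), (57, 0, 0, 0, 0), (60, 0, 0, 0, 0), (61, 0, 0, 0, 0), (156, 0, 0, 0, 0), (157, 0, 0, 0, 0), (158, 0, 0, 0, 0), (156, 0, 0, 0, 0), (159, 0, 0, 0, 0), (160, 0, 0, 0, 0), (161, 0, 0, 0, 0), (159, 0, 0, 0, 0), (62, 0, 0, 0, 0), (63, 0, 0, 0, 0), (64, 0, 0, 0, 0), (65, 0, 0, 0, 0), (162, 0, 0, 0, 0), (163, 0, 0, 0, 0), (164, 0, 0, 0, 0), (162, 0, 0, 0, 0), (165, 0, 0, 0, 0), (166, 0, 0, 0,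 0), (167, 0, 0, 0, 0), (165, 0, 0, 0, 0), (66, 0, 0, 0, 0), (67, 0, 0, 0, 0), (68, 0, 0, 0, 0), (69, 0, 0, 0, 0), (168, 0, 0, 0, 0), (169, 0, 0, 0, 0), (170, 0, 0, 0, 0), (168, 0, 0, 0, 0), (171, 0, 0, 0, 0), (172, 0, 0, 0, 0), (173, 0, 0, 0, 0), (171, 0, 0, 0, 0), (70, 0, 0, 0, 0), (71, 0, 0, 0, 0), (72, 0, 0, 0, 0), (73, 0, 0, 0, 0), (74, 0, 0, 0, 0), (73, 0, 0, 0, 0), (74, 0, 0, 0, 0), (72, 0, 0, 0, 0), (75, 0, 0, 0, 0), (76, 0, 0, 0, 0), (77, 0, 0, 0, 0), (76, 0, 0, 0, 0), (77, 0, 0, 0, 0), (75, 0, 0, 0, 0), (78, 0, 0, 0, 0), (79, 0, 0, 0, 0), (80, 0, 0, 0, 0), (79, 0, 0, 0, 0), (80, 0, 0, 0, 0), (78, 0, 0, 0, 0), (81, 0, 0, 0, 0), (82, 0, 0, 0, 0), (83, 0, 0, 0, 0), (82, 0, 0, 0, 0), (83, 0, 0, 0, 0), (81, 0, 0, 0, 0)],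
  [(12, 0, 0, 0, 0), (84, 0, 0, 0, 0), (13, 0, 0, 0, 0), (84, 0, 0, 0, 0), (13, 0, 0, 0, 0), (12, 0, 0, 0, 0), (20, 0, 0, 0, 0), (85, 0, 0, 0, 0), (21, 0, 0, 0, 0), (85, 0, 0, 0, 0), (21, 0, 0, 0, 0), (20, 0, 0, 0, 0), (28, 0, 0, 0, 0), (86, 0, 0, 0, 0), (29, 0, 0, 0, 0), (86, 0, 0, 0, 0), (29, 0, 0, 0, 0), (28, 0, 0, 0, 0), (36, 0, 0, 0, 0), (37, 0, 0, 0, 0), (38, 0, 0, 0, 0), (37, 0, 0, 0, 0), (38, 0, 0, 0, 0), (36, 0, 0, 0, 0), (0, 0, 0, 0, 0), (2, 0, 0, 0, 0), (152, 0, 0, 0, 0), (22, 0, 0, 0, 0), (23, 0, 0, 0, 0), (152, 0, 0, 0, 0), (154, 0, 0, 0, 0), (30, 0, 0, 0, 0), (31, 0, 0, 0, 0), (154, 0, 0, 0, 0), (40, 0, 0, 0, 0), (39, 0, 0, 0, 0), (3, 0, 0, 0, 0), (5, 0, 0, 0, 0), (150, 0, 0, 0, 0), (14, 0, 0, 0, 0), (15, 0, 0, 0, 0), (150, 0, 0, 0, 0), (155, 0, 0, 0, 0), (32, 0, 0, 0, 0), (33, 0, 0, 0, 0), (155, 0, 0, 0, 0), (43, 0, 0, 0, 0), (42, 0, 0,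 0, 0), (6, 0, 0, 0, 0), (8, 0, 0, 0, 0), (151, 0, 0, 0, 0), (16, 0, 0, 0, 0), (17, 0, 0, 0, 0), (151, 0, 0, 0, 0), (153, 0, 0, 0, 0), (24, 0, 0, 0, 0), (25, 0, 0, 0, 0), (153, 0, 0, 0, 0), (46, 0, 0, 0, 0), (45, 0, 0, 0, 0), (9, 0, 0, 0, 0), (10, 0, 0, 0, 0), (11, 0, 0, 0, 0), (10, 0, 0, 0, 0), (11, 0, 0, 0, 0), (9, 0, 0, 0, 0), (19, 0, 0, 0, 0), (18, 0, 0, 0, 0), (87, 0, 0, 0, 0), (18, 0, 0, 0, 0), (87, 0, 0, 0, 0), (19, 0, 0, 0, 0), (27, 0, 0, 0, 0), (26, 0, 0, 0, 0), (88, 0, 0, 0, 0), (26, 0, 0, 0, 0), (88, 0, 0, 0, 0), (27, 0, 0, 0, 0), (35, 0, 0, 0, 0), (34, 0, 0, 0, 0), (89, 0, 0, 0, 0), (34, 0, 0, 0, 0), (89, 0, 0, 0, 0), (35, 0, 0, 0, 0)],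
  [(90, 0, 0, 0, 0), (91, 0, 0, 0, 0), (92, 0, 0, 0, 0), (91, 0, 0, 0, 0), (92, 0, 0, 0, 0), (90, 0, 0, 0, 0), (93, 0, 0, 0, 0), (94, 0, 0, 0, 0), (95, 0, 0, 0, 0), (94, 0, 0, 0, 0), (95, 0, 0, 0, 0), (93, 0, 0, 0, 0), (96, 0, 0, 0, 0), (97, 0, 0, 0, 0), (98, 0, 0, 0, 0), (97, 0, 0, 0, 0), (98, 0, 0, 0, 0), (96, 0, 0, 0, 0), (99, 0, 0, 0, 0), (100, 0, 0, 0, 0), (101, 0, 0, 0, 0), (100, 0, 0, 0, 0), (101, 0, 0, 0, 0), (99, 0, 0, 0, 0), (102, 0, 0, 0, 0), (103, 0, 0, 0, 0), (174, 0, 0, 0, 0), (104, 0, 0, 0, 0), (105, 0, 0, 0, 0), (174, 0, 0, 0, 0), (175, 0, 0, 0, 0), (106, 0, 0, 0, 0), (107, 0, 0, 0, 0), (175, 0, 0, 0, 0), (108, 0, 0, 0, 0), (109, 0, 0, 0, 0), (110, 0, 0, 0, 0), (111, 0, 0, 0, 0), (176, 0, 0, 0, 0), (112, 0, 0, 0, 0), (113, 0, 0, 0, 0), (176, 0, 0, 0, 0), (177, 0, 0, 0, 0), (114, 0, 0, 0, 0), (115, 0, 0, 0, 0), (177, 0, 0, 0, 0), (116,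 0, 0, 0, 0), (117, 0, 0, 0, 0), (118, 0, 0, 0, 0), (119, 0, 0, 0, 0), (178, 0, 0, 0, 0), (120, 0, 0, 0, 0), (121, 0, 0, 0, 0), (178, 0, 0, 0, 0), (179, 0, 0, 0, 0), (122, 0, 0, 0, 0), (123, 0, 0, 0, 0), (179, 0, 0, 0, 0), (124, 0, 0, 0, 0), (125, 0, 0, 0, 0), (126, 0, 0, 0, 0), (127, 0, 0, 0, 0), (128, 0, 0, 0, 0), (127, 0, 0, 0, 0), (128, 0, 0, 0, 0), (126, 0, 0, 0, 0), (129, 0, 0, 0, 0), (130, 0, 0, 0, 0), (131, 0, 0, 0, 0), (130, 0, 0, 0, 0), (131, 0, 0, 0, 0), (129, 0, 0, 0, 0), (132, 0, 0, 0, 0), (133, 0, 0, 0, 0), (134, 0, 0, 0, 0), (133, 0, 0, 0, 0), (134, 0, 0, 0, 0), (132, 0, 0, 0, 0), (135, 0, 0, 0, 0), (136, 0, 0, 0, 0), (137, 0, 0, 0, 0), (136, 0, 0, 0, 0), (137, 0, 0, 0, 0), (135, 0, 0, 0, 0)],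
  [(60, 0, 0, 0, 0), (138, 0, 0, 0, 0), (61, 0, 0, 0, 0), (138, 0, 0, 0, 0), (61, 0, 0, 0, 0), (60, 0, 0, 0, 0), (64, 0, 0, 0, 0), (139, 0, 0, 0, 0), (65, 0, 0, 0, 0), (139, 0, 0, 0, 0), (65, 0, 0, 0, 0), (64, 0, 0, 0, 0), (68, 0, 0, 0, 0), (140, 0, 0, 0, 0), (69, 0, 0, 0, 0), (140, 0, 0, 0, 0), (69, 0, 0, 0, 0), (68, 0, 0, 0, 0), (72, 0, 0, 0, 0), (73, 0, 0, 0, 0), (74, 0, 0, 0, 0), (73, 0, 0, 0, 0), (74, 0, 0, 0, 0), (72, 0, 0, 0, 0), (48, 0, 0, 0, 0), (50, 0, 0, 0, 0), (162, 0, 0, 0, 0), (163, 0, 0, 0, 0), (164, 0, 0, 0, 0), (162, 0, 0, 0, 0), (168, 0, 0, 0, 0), (169, 0, 0, 0, 0), (170, 0, 0, 0, 0), (168, 0, 0, 0, 0), (76, 0, 0, 0, 0), (75, 0, 0, 0, 0), (51, 0, 0, 0, 0), (53, 0, 0, 0, 0), (156, 0, 0, 0, 0), (157, 0, 0, 0, 0), (158, 0, 0, 0, 0), (156, 0, 0, 0, 0), (171, 0, 0, 0, 0), (172, 0, 0, 0, 0), (173, 0, 0, 0, 0), (171, 0, 0, 0, 0), (79, 0, 0,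 0, 0), (78, 0, 0, 0, 0), (54, 0, 0, 0, 0), (56, 0, 0, 0, 0), (159, 0, 0, 0, 0), (160, 0, 0, 0, 0), (161, 0, 0, 0, 0), (159, 0, 0, 0, 0), (165, 0, 0, 0, 0), (166, 0, 0, 0, 0), (167, 0, 0, 0, 0), (165, 0, 0, 0, 0), (82, 0, 0, 0, 0), (81, 0, 0, 0, 0), (57, 0, 0, 0, 0), (58, 0, 0, 0, 0), (59, 0, 0, 0, 0), (58, 0, 0, 0, 0), (59, 0, 0, 0, 0), (57, 0, 0, 0, 0), (63, 0, 0, 0, 0), (62, 0, 0, 0, 0), (141, 0, 0, 0, 0), (62, 0, 0, 0, 0), (141, 0, 0, 0, 0), (63, 0, 0, 0, 0), (67, 0, 0, 0, 0), (66, 0, 0, 0, 0), (142, 0, 0, 0, 0), (66, 0, 0, 0, 0), (142, 0, 0, 0, 0), (67, 0, 0, 0, 0), (71, 0, 0, 0, 0), (70, 0, 0, 0, 0), (143, 0, 0, 0, 0), (70, 0, 0, 0, 0), (143, 0, 0, 0, 0), (71, 0, 0, 0, 0)],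
  [(102, 0, 0, 0, 0), (144, 0, 0, 0, 0), (103, 0, 0, 0, 0), (144, 0, 0, 0, 0), (103, 0, 0, 0, 0), (102, 0, 0, 0, 0), (110, 0, 0, 0, 0), (145, 0, 0, 0, 0), (111, 0, 0, 0, 0), (145, 0, 0, 0, 0), (111, 0, 0, 0, 0), (110, 0, 0, 0, 0), (118, 0, 0, 0, 0), (146, 0, 0, 0, 0), (119, 0, 0, 0, 0), (146, 0, 0, 0, 0), (119, 0, 0, 0, 0), (118, 0, 0, 0, 0), (126, 0, 0, 0, 0), (127, 0, 0, 0, 0), (128, 0, 0, 0, 0), (127, 0, 0, 0, 0), (128, 0, 0, 0, 0), (126, 0, 0, 0, 0), (90, 0, 0, 0, 0), (92, 0, 0, 0, 0), (176, 0, 0, 0, 0), (112, 0, 0, 0, 0), (113, 0, 0, 0, 0), (176, 0, 0, 0, 0), (178, 0, 0, 0, 0), (120, 0, 0, 0, 0), (121, 0, 0, 0, 0), (178, 0, 0, 0, 0), (130, 0, 0, 0, 0), (129, 0, 0, 0, 0), (93, 0, 0, 0, 0), (95, 0, 0, 0, 0), (174, 0, 0, 0, 0), (104, 0, 0, 0, 0), (105, 0, 0, 0, 0), (174, 0, 0, 0, 0), (179, 0, 0, 0, 0), (122, 0, 0, 0, 0), (123, 0, 0, 0, 0), (179, 0,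 0, 0, 0), (133, 0, 0, 0, 0), (132, 0, 0, 0, 0), (96, 0, 0, 0, 0), (98, 0, 0, 0, 0), (175, 0, 0, 0, 0), (106, 0, 0, 0, 0), (107, 0, 0, 0, 0), (175, 0, 0, 0, 0), (177, 0, 0, 0, 0), (114, 0, 0, 0, 0), (115, 0, 0, 0, 0), (177, 0, 0, 0, 0), (136, 0, 0, 0, 0), (135, 0, 0, 0, 0), (99, 0, 0, 0, 0), (100, 0, 0, 0, 0), (101, 0, 0, 0, 0), (100, 0, 0, 0, 0), (101, 0, 0, 0, 0), (99, 0, 0, 0, 0), (109, 0, 0, 0, 0), (108, 0, 0, 0, 0), (147, 0, 0, 0, 0), (108, 0, 0, 0, 0), (147, 0, 0, 0, 0), (109, 0, 0, 0, 0), (117, 0, 0, 0, 0), (116, 0, 0, 0, 0), (148, 0, 0, 0, 0), (116, 0, 0, 0, 0), (148, 0, 0, 0, 0), (117, 0, 0, 0, 0), (125, 0, 0, 0, 0), (124, 0, 0, 0, 0), (149, 0, 0, 0, 0), (124, 0, 0, 0, 0), (149, 0, 0, 0, 0), (125, 0, 0, 0, 0)]]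

def m24_2 : Base := (0, 1, [(0, [0], [0, 5]), (0, [1], [1, 2]), (0, [2], [3, 5]), (4, [], [4])])

def l24_2 : Cov := [(192, 0, 1, [(0, [0], [0, 5]), (0, [1], [1, 2]), (0, [2], [3, 5]), (4, [], [4])]),
  (384, 0, 1, [(0, [0], [0, 5]), (0, [1], [1, 2]), (0, [2], [4, 5]), (4, [], [3])]),
  (192, 0, 1, [(0, [0], [0, 5]), (0, [1], [1, 3]), (0, [2], [2, 5]), (4, [], [4])]),
  (384, 0, 1, [(0, [0], [0, 5]), (0, [1], [1, 3]), (0, [2], [4, 5]), (4, [], [2])]),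
  (192, 0, 1, [(0, [0], [0, 5]), (0, [1], [1, 4]), (0, [2], [2, 5]), (4, [], [3])]),
  (192, 0, 1, [(0, [0], [0, 5]), (0, [1], [1, 4]), (0, [2], [3, 5]), (4, [], [2])]),
  (192, 0, 1, [(0, [0], [0, 5]), (0, [1], [2, 3]), (0, [2], [1, 5]), (4, [], [4])]),
  (384, 0, 1, [(0, [0], [0, 5]), (0, [1], [2, 3]), (0, [2], [4, 5]), (4, [], [1])]),
  (192, 0, 1, [(0, [0], [0, 5]), (0, [1], [2, 4]), (0, [2], [1, 5]), (4, [], [3])]),
  (192, 0, 1, [(0, [0], [0, 5]), (0, [1], [2, 4]), (0, [2], [3, 5]), (4, [], [1])]),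
  (192, 0, 1, [(0, [0], [0, 5]), (0, [1], [3, 4]), (0, [2], [1, 5]), (4, [], [2])]),
  (192, 0, 1, [(0, [0], [0, 5]), (0, [1], [3, 4]), (0, [2], [2, 5]), (4, [], [1])]),
  (-192, 0, 1, [(0, [0], [1, 5]), (0, [1], [2, 3]), (0, [2], [0, 5]), (4, [], [4])]),
  (192, 0, 1, [(0, [0], [1, 5]), (0, [1], [2, 3]), (0, [2], [4, 5]), (4, [], [0])]),
  (-192, 0, 1, [(0, [0], [2, 5]), (0, [1], [1, 3]), (0, [2], [0, 5]), (4, [], [4])]),
  (192, 0, 1, [(0, [0], [2, 5]), (0, [1], [1, 3]), (0, [2], [4, 5]), (4, [], [0])]),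
  (-192, 0, 1, [(0, [0], [3, 5]), (0, [1], [1, 2]), (0, [2], [0, 5]), (4, [], [4])]),
  (192, 0, 1, [(0, [0], [3, 5]), (0, [1], [1, 2]), (0, [2], [4, 5]), (4, [], [0])]),
  (-192, 0, 1, [(0, [0], [4, 5]), (0, [1], [0, 1]), (0, [2], [2, 5]), (4, [], [3])]),
  (-192, 0, 1, [(0, [0], [4, 5]), (0, [1], [0, 1]), (0, [2], [3, 5]), (4, [], [2])]),
  (-192, 0, 1, [(0, [0], [4, 5]), (0, [1], [0, 2]), (0, [2], [1, 5]), (4, [], [3])]),
  (-192, 0, 1, [(0, [0], [4, 5]), (0, [1], [0, 2]), (0, [2], [3, 5]), (4, [], [1])]),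
  (-192, 0, 1, [(0, [0], [4, 5]), (0, [1], [0, 3]), (0, [2], [1, 5]), (4, [], [2])]),
  (-192, 0, 1, [(0, [0], [4, 5]), (0, [1], [0, 3]), (0, [2], [2, 5]), (4, [], [1])]),
  (-384, 0, 1, [(0, [0], [4, 5]), (0, [1], [1, 2]), (0, [2], [0, 5]), (4, [], [3])]),
  (-192, 0, 1, [(0, [0], [4, 5]), (0, [1], [1, 2]), (0, [2], [3, 5]), (4, [], [0])]),
  (-384, 0, 1, [(0, [0], [4, 5]), (0, [1], [1, 3]), (0, [2], [0, 5]), (4, [], [2])]),
  (-192, 0, 1, [(0, [0], [4, 5]), (0, [1], [1, 3]), (0, [2], [2, 5]), (4, [], [0])]),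
  (-384, 0, 1, [(0, [0], [4, 5]), (0, [1], [2, 3]), (0, [2], [0, 5]), (4, [], [1])]),
  (-192, 0, 1, [(0, [0], [4, 5]), (0, [1], [2, 3]), (0, [2], [1, 5]), (4, [], [0])]),
  (96, 0, 1, [(0, [0], [0, 5]), (0, [2], [1, 2]), (0, [1], [3, 5]), (4, [], [4])]),
  (192, 0, 1, [(0, [0], [0, 5]), (0, [2], [1, 2]), (0, [1], [4, 5]), (4, [], [3])]),
  (96, 0, 1, [(0, [0], [0, 5]), (0, [2], [1, 3]), (0, [1], [2, 5]), (4, [], [4])]),
  (192, 0, 1, [(0, [0], [0, 5]), (0, [2], [1, 3]), (0, [1], [4, 5]), (4, [], [2])]),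
  (96, 0, 1, [(0, [0], [0, 5]), (0, [2], [1, 4]), (0, [1], [2, 5]), (4, [], [3])]),
  (96, 0, 1, [(0, [0], [0, 5]), (0, [2], [1, 4]), (0, [1], [3, 5]), (4, [], [2])]),
  (96, 0, 1, [(0, [0], [0, 5]), (0, [2], [2, 3]), (0, [1], [1, 5]), (4, [], [4])]),
  (192, 0, 1, [(0, [0], [0, 5]), (0, [2], [2, 3]), (0, [1], [4, 5]), (4, [], [1])]),
  (96, 0, 1, [(0, [0], [0, 5]), (0, [2], [2, 4]), (0, [1], [1, 5]), (4, [], [3])]),
  (96, 0, 1, [(0, [0], [0, 5]), (0, [2], [2, 4]), (0, [1], [3, 5]), (4, [], [1])]),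
  (96, 0, 1, [(0, [0], [0, 5]), (0, [2], [3, 4]), (0, [1], [1, 5]), (4, [], [2])]),
  (96, 0, 1, [(0, [0], [0, 5]), (0, [2], [3, 4]), (0, [1], [2, 5]), (4, [], [1])]),
  (-96, 0, 1, [(0, [0], [1, 5]), (0, [2], [2, 3]), (0, [1], [0, 5]), (4, [], [4])]),
  (96, 0, 1, [(0, [0], [1, 5]), (0, [2], [2, 3]), (0, [1], [4, 5]), (4, [], [0])]),
  (-96, 0, 1, [(0, [0], [2, 5]), (0, [2], [1, 3]), (0, [1], [0, 5]), (4, [], [4])]),
  (96, 0, 1, [(0, [0], [2, 5]), (0, [2], [1, 3]), (0, [1], [4, 5]), (4, [], [0])]),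
  (-96, 0, 1, [(0, [0], [3, 5]), (0, [2], [1, 2]), (0, [1], [0, 5]), (4, [], [4])]),
  (96, 0, 1, [(0, [0], [3, 5]), (0, [2], [1, 2]), (0, [1], [4, 5]), (4, [], [0])]),
  (-96, 0, 1, [(0, [0], [4, 5]), (0, [2], [0, 1]), (0, [1], [2, 5]), (4, [], [3])]),
  (-96, 0, 1, [(0, [0], [4, 5]), (0, [2], [0, 1]), (0, [1], [3, 5]), (4, [], [2])]),
  (-96, 0, 1, [(0, [0], [4, 5]), (0, [2], [0, 2]), (0, [1], [1, 5]), (4, [], [3])]),
  (-96, 0, 1, [(0, [0], [4, 5]), (0, [2], [0, 2]), (0, [1], [3, 5]), (4, [], [1])]),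
  (-96, 0, 1, [(0, [0], [4, 5]), (0, [2], [0, 3]), (0, [1], [1, 5]), (4, [], [2])]),
  (-96, 0, 1, [(0, [0], [4, 5]), (0, [2], [0, 3]), (0, [1], [2, 5]), (4, [], [1])]),
  (-192, 0, 1, [(0, [0], [4, 5]), (0, [2], [1, 2]), (0, [1], [0, 5]), (4, [], [3])]),
  (-96, 0, 1, [(0, [0], [4, 5]), (0, [2], [1, 2]), (0, [1], [3, 5]), (4, [], [0])]),
  (-192, 0, 1, [(0, [0], [4, 5]), (0, [2], [1, 3]), (0, [1], [0, 5]), (4, [], [2])]),
  (-96, 0, 1, [(0, [0], [4, 5]), (0, [2], [1, 3]), (0, [1], [2, 5]), (4, [], [0])]),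
  (-192, 0, 1, [(0, [0], [4, 5]), (0, [2], [2, 3]), (0, [1], [0, 5]), (4, [], [1])]),
  (-96, 0, 1, [(0, [0], [4, 5]), (0, [2], [2, 3]), (0, [1], [1, 5]), (4, [], [0])]),
  (96, 0, 1, [(0, [1], [0, 5]), (0, [0], [1, 2]), (0, [2], [3, 5]), (4, [], [4])]),
  (192, 0, 1, [(0, [1], [0, 5]), (0, [0], [1, 2]), (0, [2], [4, 5]), (4, [], [3])]),
  (96, 0, 1, [(0, [1], [0, 5]), (0, [0], [1, 3]), (0, [2], [2, 5]), (4, [], [4])]),
  (192, 0, 1, [(0, [1], [0, 5]), (0, [0], [1, 3]), (0, [2], [4, 5]), (4, [], [2])]),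
  (96, 0, 1, [(0, [1], [0, 5]), (0, [0], [1, 4]), (0, [2], [2, 5]), (4, [], [3])]),
  (96, 0, 1, [(0, [1], [0, 5]), (0, [0], [1, 4]), (0, [2], [3, 5]), (4, [], [2])]),
  (96, 0, 1, [(0, [1], [0, 5]), (0, [0], [2, 3]), (0, [2], [1, 5]), (4, [], [4])]),
  (192, 0, 1, [(0, [1], [0, 5]), (0, [0], [2, 3]), (0, [2], [4, 5]), (4, [], [1])]),
  (96, 0, 1, [(0, [1], [0, 5]), (0, [0], [2, 4]), (0, [2], [1, 5]), (4, [], [3])]),
  (96, 0, 1, [(0, [1], [0, 5]), (0, [0], [2, 4]), (0, [2], [3, 5]), (4, [], [1])]),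
  (96, 0, 1, [(0, [1], [0, 5]), (0, [0], [3, 4]), (0, [2], [1, 5]), (4, [], [2])]),
  (96, 0, 1, [(0, [1], [0, 5]), (0, [0], [3, 4]), (0, [2], [2, 5]), (4, [], [1])]),
  (-96, 0, 1, [(0, [1], [1, 5]), (0, [0], [2, 3]), (0, [2], [0, 5]), (4, [], [4])]),
  (96, 0, 1, [(0, [1], [1, 5]), (0, [0], [2, 3]), (0, [2], [4, 5]), (4, [], [0])]),
  (-96, 0, 1, [(0, [1], [2, 5]), (0, [0], [1, 3]), (0, [2], [0, 5]), (4, [], [4])]),
  (96, 0, 1, [(0, [1], [2, 5]), (0, [0], [1, 3]), (0, [2], [4, 5]), (4, [], [0])]),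
  (-96, 0, 1, [(0, [1], [3, 5]), (0, [0], [1, 2]), (0, [2], [0, 5]), (4, [], [4])]),
  (96, 0, 1, [(0, [1], [3, 5]), (0, [0], [1, 2]), (0, [2], [4, 5]), (4, [], [0])]),
  (-96, 0, 1, [(0, [1], [4, 5]), (0, [0], [0, 1]), (0, [2], [2, 5]), (4, [], [3])]),
  (-96, 0, 1, [(0, [1], [4, 5]), (0, [0], [0, 1]), (0, [2], [3, 5]), (4, [], [2])]),
  (-96, 0, 1, [(0, [1], [4, 5]), (0, [0], [0, 2]), (0, [2], [1, 5]), (4, [], [3])]),
  (-96, 0, 1, [(0, [1], [4, 5]), (0, [0], [0, 2]), (0, [2], [3, 5]), (4, [], [1])]),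
  (-96, 0, 1, [(0, [1], [4, 5]), (0, [0], [0, 3]), (0, [2], [1, 5]), (4, [], [2])]),
  (-96, 0, 1, [(0, [1], [4, 5]), (0, [0], [0, 3]), (0, [2], [2, 5]), (4, [], [1])]),
  (-192, 0, 1, [(0, [1], [4, 5]), (0, [0], [1, 2]), (0, [2], [0, 5]), (4, [], [3])]),
  (-96, 0, 1, [(0, [1], [4, 5]), (0, [0], [1, 2]), (0, [2], [3, 5]), (4, [], [0])]),
  (-192, 0, 1, [(0, [1], [4, 5]), (0, [0], [1, 3]), (0, [2], [0, 5]), (4, [], [2])]),
  (-96, 0, 1, [(0, [1], [4, 5]), (0, [0], [1, 3]), (0, [2], [2, 5]), (4, [], [0])]),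
  (-192, 0, 1, [(0, [1], [4, 5]), (0, [0], [2, 3]), (0, [2], [0, 5]), (4, [], [1])]),
  (-96, 0, 1, [(0, [1], [4, 5]), (0, [0], [2, 3]), (0, [2], [1, 5]), (4, [], [0])]),
  (-96, 0, 1, [(0, [1], [0, 5]), (0, [2], [1, 4]), (0, [0], [2, 5]), (4, [], [3])]),
  (-96, 0, 1, [(0, [1], [0, 5]), (0, [2], [1, 4]), (0, [0], [3, 5]), (4, [], [2])]),
  (-96, 0, 1, [(0, [1], [0, 5]), (0, [2], [2, 4]), (0, [0], [1, 5]), (4, [], [3])]),
  (-96, 0, 1, [(0, [1], [0, 5]), (0, [2], [2, 4]), (0, [0], [3, 5]), (4, [], [1])]),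
  (-96, 0, 1, [(0, [1], [0, 5]), (0, [2], [3, 4]), (0, [0], [1, 5]), (4, [], [2])]),
  (-96, 0, 1, [(0, [1], [0, 5]), (0, [2], [3, 4]), (0, [0], [2, 5]), (4, [], [1])]),
  (96, 0, 1, [(0, [1], [4, 5]), (0, [2], [0, 1]), (0, [0], [2, 5]), (4, [], [3])]),
  (96, 0, 1, [(0, [1], [4, 5]), (0, [2], [0, 1]), (0, [0], [3, 5]), (4, [], [2])]),
  (96, 0, 1, [(0, [1], [4, 5]), (0, [2], [0, 2]), (0, [0], [1, 5]), (4, [], [3])]),
  (96, 0, 1, [(0, [1], [4, 5]), (0, [2], [0, 2]), (0, [0], [3, 5]), (4, [], [1])]),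
  (96, 0, 1, [(0, [1], [4, 5]), (0, [2], [0, 3]), (0, [0], [1, 5]), (4, [], [2])]),
  (96, 0, 1, [(0, [1], [4, 5]), (0, [2], [0, 3]), (0, [0], [2, 5]), (4, [], [1])]),
  (-96, 0, 1, [(0, [2], [0, 5]), (0, [0], [1, 4]), (0, [1], [2, 5]), (4, [], [3])]),
  (-96, 0, 1, [(0, [2], [0, 5]), (0, [0], [1, 4]), (0, [1], [3, 5]), (4, [], [2])]),
  (-96, 0, 1, [(0, [2], [0, 5]), (0, [0], [2, 4]), (0, [1], [1, 5]), (4, [], [3])]),
  (-96, 0, 1, [(0, [2], [0, 5]), (0, [0], [2, 4]), (0, [1], [3, 5]), (4, [], [1])]),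
  (-96, 0, 1, [(0, [2], [0, 5]), (0, [0], [3, 4]), (0, [1], [1, 5]), (4, [], [2])]),
  (-96, 0, 1, [(0, [2], [0, 5]), (0, [0], [3, 4]), (0, [1], [2, 5]), (4, [], [1])]),
  (96, 0, 1, [(0, [2], [4, 5]), (0, [0], [0, 1]), (0, [1], [2, 5]), (4, [], [3])]),
  (96, 0, 1, [(0, [2], [4, 5]), (0, [0], [0, 1]), (0, [1], [3, 5]), (4, [], [2])]),
  (96, 0, 1, [(0, [2], [4, 5]), (0, [0], [0, 2]), (0, [1], [1, 5]), (4, [], [3])]),
  (96, 0, 1, [(0, [2], [4, 5]), (0, [0], [0, 2]), (0, [1], [3, 5]), (4, [], [1])]),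
  (96, 0, 1, [(0, [2], [4, 5]), (0, [0], [0, 3]), (0, [1], [1, 5]), (4, [], [2])]),
  (96, 0, 1, [(0, [2], [4, 5]), (0, [0], [0, 3]), (0, [1], [2, 5]), (4, [], [1])]),
  (-192, 0, 1, [(0, [2], [0, 5]), (0, [1], [1, 4]), (0, [0], [2, 5]), (4, [], [3])]),
  (-192, 0, 1, [(0, [2], [0, 5]), (0, [1], [1, 4]), (0, [0], [3, 5]), (4, [], [2])]),
  (-192, 0, 1, [(0, [2], [0, 5]), (0, [1], [2, 4]), (0, [0], [1, 5]), (4, [], [3])]),
  (-192, 0, 1, [(0, [2], [0, 5]), (0, [1], [2, 4]), (0, [0], [3, 5]), (4, [], [1])]),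
  (-192, 0, 1, [(0, [2], [0, 5]), (0, [1], [3, 4]), (0, [0], [1, 5]), (4, [], [2])]),
  (-192, 0, 1, [(0, [2], [0, 5]), (0, [1], [3, 4]), (0, [0], [2, 5]), (4, [], [1])]),
  (192, 0, 1, [(0, [2], [4, 5]), (0, [1], [0, 1]), (0, [0], [2, 5]), (4, [], [3])]),
  (192, 0, 1, [(0, [2], [4, 5]), (0, [1], [0, 1]), (0, [0], [3, 5]), (4, [], [2])]),
  (192, 0, 1, [(0, [2], [4, 5]), (0, [1], [0, 2]), (0, [0], [1, 5]), (4, [], [3])]),
  (192, 0, 1, [(0, [2], [4, 5]), (0, [1], [0, 2]), (0, [0], [3, 5]), (4, [], [1])]),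
  (192, 0, 1, [(0, [2], [4, 5]), (0, [1], [0, 3]), (0, [0], [1, 5]), (4, [], [2])]),
  (192, 0, 1, [(0, [2], [4, 5]), (0, [1], [0, 3]), (0, [0], [2, 5]), (4, [], [1])])]

def z24_2 : Cov := [(0, 0, 1, [(0, [0], [1, 5]), (0, [1], [0, 2]), (0, [2], [3, 5]), (4, [], [4])]),
  (0, 0, 1, [(0, [0], [1, 5]), (0, [1], [0, 3]), (0, [2], [2, 5]), (4, [], [4])]),
  (0, 0, 1, [(0, [0], [1, 5]), (0, [1], [2, 4]), (0, [2], [3, 5]), (4, [], [0])]),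
  (0, 0, 1, [(0, [0], [1, 5]), (0, [1], [3, 4]), (0, [2], [2, 5]), (4, [], [0])]),
  (0, 0, 1, [(0, [0], [2, 5]), (0, [1], [0, 1]), (0, [2], [3, 5]), (4, [], [4])]),
  (0, 0, 1, [(0, [0], [2, 5]), (0, [1], [0, 3]), (0, [2], [1, 5]), (4, [], [4])]),
  (0, 0, 1, [(0, [0], [2, 5]), (0, [1], [1, 4]), (0, [2], [3, 5]), (4, [], [0])]),
  (0, 0, 1, [(0, [0], [2, 5]), (0, [1], [3, 4]), (0, [2], [1, 5]), (4, [], [0])]),
  (0, 0, 1, [(0, [0], [3, 5]), (0, [1], [0, 1]), (0, [2], [2, 5]), (4, [], [4])]),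
  (0, 0, 1, [(0, [0], [3, 5]), (0, [1], [0, 2]), (0, [2], [1, 5]), (4, [], [4])]),
  (0, 0, 1, [(0, [0], [3, 5]), (0, [1], [1, 4]), (0, [2], [2, 5]), (4, [], [0])]),
  (0, 0, 1, [(0, [0], [3, 5]), (0, [1], [2, 4]), (0, [2], [1, 5]), (4, [], [0])]),
  (0, 0, 1, [(0, [0], [1, 5]), (0, [2], [0, 2]), (0, [1], [3, 5]), (4, [], [4])]),
  (0, 0, 1, [(0, [0], [1, 5]), (0, [2], [0, 3]), (0, [1], [2, 5]), (4, [], [4])]),
  (0, 0, 1, [(0, [0], [1, 5]), (0, [2], [2, 4]), (0, [1], [3, 5]), (4, [], [0])]),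
  (0, 0, 1, [(0, [0], [1, 5]), (0, [2], [3, 4]), (0, [1], [2, 5]), (4, [], [0])]),
  (0, 0, 1, [(0, [0], [2, 5]), (0, [2], [0, 1]), (0, [1], [3, 5]), (4, [], [4])]),
  (0, 0, 1, [(0, [0], [2, 5]), (0, [2], [0, 3]), (0, [1], [1, 5]), (4, [], [4])]),
  (0, 0, 1, [(0, [0], [2, 5]), (0, [2], [1, 4]), (0, [1], [3, 5]), (4, [], [0])]),
  (0, 0, 1, [(0, [0], [2, 5]), (0, [2], [3, 4]), (0, [1], [1, 5]), (4, [], [0])]),
  (0, 0, 1, [(0, [0], [3, 5]), (0, [2], [0, 1]), (0, [1], [2, 5]), (4, [], [4])]),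
  (0, 0, 1, [(0, [0], [3, 5]), (0, [2], [0, 2]), (0, [1], [1, 5]), (4, [], [4])]),
  (0, 0, 1, [(0, [0], [3, 5]), (0, [2], [1, 4]), (0, [1], [2, 5]), (4, [], [0])]),
  (0, 0, 1, [(0, [0], [3, 5]), (0, [2], [2, 4]), (0, [1], [1, 5]), (4, [], [0])]),
  (0, 0, 1, [(0, [1], [1, 5]), (0, [0], [0, 2]), (0, [2], [3, 5]), (4, [], [4])]),
  (0, 0, 1, [(0, [1], [1, 5]), (0, [0], [0, 3]), (0, [2], [2, 5]), (4, [], [4])]),
  (0, 0, 1, [(0, [1], [1, 5]), (0, [0], [2, 4]), (0, [2], [3, 5]), (4, [], [0])]),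
  (0, 0, 1, [(0, [1], [1, 5]), (0, [0], [3, 4]), (0, [2], [2, 5]), (4, [], [0])]),
  (0, 0, 1, [(0, [1], [2, 5]), (0, [0], [0, 1]), (0, [2], [3, 5]), (4, [], [4])]),
  (0, 0, 1, [(0, [1], [2, 5]), (0, [0], [0, 3]), (0, [2], [1, 5]), (4, [], [4])]),
  (0, 0, 1, [(0, [1], [2, 5]), (0, [0], [1, 4]), (0, [2], [3, 5]), (4, [], [0])]),
  (0, 0, 1, [(0, [1], [2, 5]), (0, [0], [3, 4]), (0, [2], [1, 5]), (4, [], [0])]),
  (0, 0, 1, [(0, [1], [3, 5]), (0, [0], [0, 1]), (0, [2], [2, 5]), (4, [], [4])]),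
  (0, 0, 1, [(0, [1], [3, 5]), (0, [0], [0, 2]), (0, [2], [1, 5]), (4, [], [4])]),
  (0, 0, 1, [(0, [1], [3, 5]), (0, [0], [1, 4]), (0, [2], [2, 5]), (4, [], [0])]),
  (0, 0, 1, [(0, [1], [3, 5]), (0, [0], [2, 4]), (0, [2], [1, 5]), (4, [], [0])])]

def w24_2 : List (List Wit) := [[(0, 0, 0, 0, 0), (1, 0, 0, 0, 0), (2, 0, 0, 0, 0), (3, 0, 0, 0, 0), (4, 0, 0, 0, 0), (5, 0, 0, 0, 0), (0, 0, 0, 0, 0), (1, 0, 0, 0, 0), (6, 0, 0, 0, 0), (7, 0, 0, 0, 0), (8, 0, 0, 0, 0), (9, 0, 0, 0, 0), (2, 0, 0, 0, 0), (3, 0, 0, 0, 0), (6, 0, 0, 0, 0), (7, 0, 0, 0, 0), (10, 0, 0, 0, 0), (11, 0, 0, 0, 0), (4, 0, 0, 0, 0), (5, 0, 0, 0, 0), (8, 0, 0, 0, 0), (9, 0, 0, 0, 0), (10, 0, 0, 0, 0), (11, 0, 0, 0, 0), (126, 0, 0, 0, 0), (127, 0, 0, 0, 0), (126, 0, 0, 0, 0), (12, 0, 0, 0, 0), (13, 0, 0, 0, 0), (128, 0, 0, 0, 0), (127, 0, 0, 0, 0), (12, 0, 0, 0, 0), (13, 0, 0, 0, 0), (129,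 0, 0, 0, 0), (128, 0, 0, 0, 0), (129, 0, 0, 0, 0), (130, 0, 0, 0, 0), (131, 0, 0, 0, 0), (130, 0, 0, 0, 0), (14, 0, 0, 0, 0), (15, 0, 0, 0, 0), (132, 0, 0, 0, 0), (131, 0, 0, 0, 0), (14, 0, 0, 0, 0), (15, 0, 0, 0, 0), (133, 0, 0, 0, 0), (132, 0, 0, 0, 0), (133, 0, 0, 0, 0), (134, 0, 0, 0, 0), (135, 0, 0, 0, 0), (134, 0, 0, 0, 0), (16, 0, 0, 0, 0), (17, 0, 0, 0, 0), (136, 0, 0, 0, 0), (135, 0, 0, 0, 0), (16, 0, 0, 0, 0), (17, 0, 0, 0, 0), (137, 0, 0, 0, 0), (136, 0, 0, 0, 0), (137, 0, 0, 0, 0), (18, 0, 0, 0, 0), (19, 0, 0, 0, 0), (20, 0, 0, 0, 0), (21, 0, 0, 0, 0), (22, 0, 0, 0, 0), (23, 0, 0, 0, 0), (18, 0, 0, 0, 0), (19, 0, 0, 0, 0), (24, 0, 0, 0, 0), (25, 0, 0, 0, 0), (26, 0, 0, 0, 0), (27, 0, 0, 0, 0), (20, 0, 0, 0, 0), (21, 0, 0, 0, 0), (24, 0, 0, 0, 0), (25, 0, 0, 0, 0), (28, 0, 0, 0, 0), (29, 0, 0, 0, 0), (22, 0, 0, 0, 0), (23, 0, 0, 0, 0), (26,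 0, 0, 0, 0), (27, 0, 0, 0, 0), (28, 0, 0, 0, 0), (29, 0, 0, 0, 0)],
  [(30, 0, 0, 0, 0), (31, 0, 0, 0, 0), (32, 0, 0, 0, 0), (33, 0, 0, 0, 0), (34, 0, 0, 0, 0), (35, 0, 0, 0, 0), (30, 0, 0, 0, 0), (31, 0, 0, 0, 0), (36, 0, 0, 0, 0), (37, 0, 0, 0, 0), (38, 0, 0, 0, 0), (39, 0, 0, 0, 0), (32, 0, 0, 0, 0), (33, 0, 0, 0, 0), (36, 0, 0, 0, 0), (37, 0, 0, 0, 0), (40, 0, 0, 0, 0), (41, 0, 0, 0, 0), (34, 0, 0, 0, 0), (35, 0, 0, 0, 0), (38, 0, 0, 0, 0), (39, 0, 0, 0, 0), (40, 0, 0, 0, 0), (41, 0, 0, 0, 0), (138, 0, 0, 0, 0), (139, 0, 0, 0, 0), (138, 0, 0, 0, 0), (42, 0, 0, 0, 0), (43, 0, 0, 0, 0), (140, 0, 0, 0, 0), (139, 0, 0, 0, 0), (42, 0, 0, 0, 0), (43, 0, 0, 0, 0), (141, 0, 0, 0, 0), (140, 0, 0, 0, 0), (141, 0, 0, 0, 0), (142, 0, 0, 0, 0), (143, 0, 0, 0, 0), (142, 0, 0, 0, 0), (44, 0, 0, 0, 0), (45, 0, 0, 0, 0), (144, 0, 0, 0, 0), (143, 0, 0, 0, 0), (44,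 0, 0, 0, 0), (45, 0, 0, 0, 0), (145, 0, 0, 0, 0), (144, 0, 0, 0, 0), (145, 0, 0, 0, 0), (146, 0, 0, 0, 0), (147, 0, 0, 0, 0), (146, 0, 0, 0, 0), (46, 0, 0, 0, 0), (47, 0, 0, 0, 0), (148, 0, 0, 0, 0), (147, 0, 0, 0, 0), (46, 0, 0, 0, 0), (47, 0, 0, 0, 0), (149, 0, 0, 0, 0), (148, 0, 0, 0, 0), (149, 0, 0, 0, 0), (48, 0, 0, 0, 0), (49, 0, 0, 0, 0), (50, 0, 0, 0, 0), (51, 0, 0, 0, 0), (52, 0, 0, 0, 0), (53, 0, 0, 0, 0), (48, 0, 0, 0, 0), (49, 0, 0, 0, 0), (54, 0, 0, 0, 0), (55, 0, 0, 0, 0), (56, 0, 0, 0, 0), (57, 0, 0, 0, 0), (50, 0, 0, 0, 0), (51, 0, 0, 0, 0), (54, 0, 0, 0, 0), (55, 0, 0, 0, 0), (58, 0, 0, 0, 0), (59, 0, 0, 0, 0), (52, 0, 0, 0, 0), (53, 0, 0, 0, 0), (56, 0, 0, 0, 0), (57, 0, 0, 0, 0), (58, 0, 0, 0, 0), (59, 0, 0, 0, 0)],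
  [(60, 0, 0, 0, 0), (61, 0, 0, 0, 0), (62, 0, 0, 0, 0), (63, 0, 0, 0, 0), (64, 0, 0, 0, 0), (65, 0, 0, 0, 0), (60, 0, 0, 0, 0), (61, 0, 0, 0, 0), (66, 0, 0, 0, 0), (67, 0, 0, 0, 0), (68, 0, 0, 0, 0), (69, 0, 0, 0, 0), (62, 0, 0, 0, 0), (63, 0, 0, 0, 0), (66, 0, 0, 0, 0), (67, 0, 0, 0, 0), (70, 0, 0, 0, 0), (71, 0, 0, 0, 0), (64, 0, 0, 0, 0), (65, 0, 0, 0, 0), (68, 0, 0, 0, 0), (69, 0, 0, 0, 0), (70, 0, 0, 0, 0), (71, 0, 0, 0, 0), (150, 0, 0, 0, 0), (151, 0, 0, 0, 0), (150, 0, 0, 0, 0), (72, 0, 0, 0, 0), (73, 0, 0, 0, 0), (152, 0, 0, 0, 0), (151, 0, 0, 0, 0), (72, 0, 0, 0, 0), (73, 0, 0, 0, 0), (153, 0, 0, 0, 0), (152, 0, 0, 0, 0), (153, 0, 0, 0, 0), (154, 0, 0, 0, 0), (155, 0, 0, 0, 0), (154, 0, 0, 0, 0), (74, 0, 0, 0, 0), (75, 0, 0, 0, 0), (156, 0, 0, 0, 0), (155, 0, 0, 0, 0), (74, 0, 0, 0, 0), (75, 0, 0, 0, 0), (157, 0, 0, 0, 0), (156, 0, 0, 0, 0),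 (157, 0, 0, 0, 0), (158, 0, 0, 0, 0), (159, 0, 0, 0, 0), (158, 0, 0, 0, 0), (76, 0, 0, 0, 0), (77, 0, 0, 0, 0), (160, 0, 0, 0, 0), (159, 0, 0, 0, 0), (76, 0, 0, 0, 0), (77, 0, 0, 0, 0), (161, 0, 0, 0, 0), (160, 0, 0, 0, 0), (161, 0, 0, 0, 0), (78, 0, 0, 0, 0), (79, 0, 0, 0, 0), (80, 0, 0, 0, 0), (81, 0, 0, 0, 0), (82, 0, 0, 0, 0), (83, 0, 0, 0, 0), (78, 0, 0, 0, 0), (79, 0, 0, 0, 0), (84, 0, 0, 0, 0), (85, 0, 0, 0, 0), (86, 0, 0, 0, 0), (87, 0, 0, 0, 0), (80, 0, 0, 0, 0), (81, 0, 0, 0, 0), (84, 0, 0, 0, 0), (85, 0, 0, 0, 0), (88, 0, 0, 0, 0), (89, 0, 0, 0, 0), (82, 0, 0, 0, 0), (83, 0, 0, 0, 0), (86, 0, 0, 0, 0), (87, 0, 0, 0, 0), (88, 0, 0, 0, 0), (89, 0, 0, 0, 0)],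
  [(46, 0, 0, 0, 0), (54, 0, 0, 0, 0), (44, 0, 0, 0, 0), (56, 0, 0, 0, 0), (90, 0, 0, 0, 0), (91, 0, 0, 0, 0), (46, 0, 0, 0, 0), (54, 0, 0, 0, 0), (42, 0, 0, 0, 0), (58, 0, 0, 0, 0), (92, 0, 0, 0, 0), (93, 0, 0, 0, 0), (44, 0, 0, 0, 0), (56, 0, 0, 0, 0), (42, 0, 0, 0, 0), (58, 0, 0, 0, 0), (94, 0, 0, 0, 0), (95, 0, 0, 0, 0), (90, 0, 0, 0, 0), (91, 0, 0, 0, 0), (92, 0, 0, 0, 0), (93, 0, 0, 0, 0), (94, 0, 0, 0, 0), (95, 0, 0, 0, 0), (147, 0, 0, 0, 0), (143, 0, 0, 0, 0), (147, 0, 0, 0, 0), (36, 0, 0, 0, 0), (59, 0, 0, 0, 0), (149, 0, 0, 0, 0), (143, 0, 0, 0, 0), (36, 0, 0, 0, 0), (59, 0, 0, 0, 0), (145, 0, 0, 0, 0), (149, 0, 0, 0, 0), (145, 0, 0, 0, 0), (146, 0, 0, 0, 0), (139, 0, 0, 0, 0), (146, 0, 0, 0, 0), (32, 0, 0, 0, 0), (57, 0, 0, 0, 0), (148, 0, 0, 0, 0), (139, 0, 0, 0, 0), (32, 0, 0, 0, 0), (57, 0, 0, 0, 0), (141, 0, 0, 0, 0), (148, 0, 0, 0, 0),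 (141, 0, 0, 0, 0), (142, 0, 0, 0, 0), (138, 0, 0, 0, 0), (142, 0, 0, 0, 0), (30, 0, 0, 0, 0), (55, 0, 0, 0, 0), (144, 0, 0, 0, 0), (138, 0, 0, 0, 0), (30, 0, 0, 0, 0), (55, 0, 0, 0, 0), (140, 0, 0, 0, 0), (144, 0, 0, 0, 0), (140, 0, 0, 0, 0), (96, 0, 0, 0, 0), (97, 0, 0, 0, 0), (98, 0, 0, 0, 0), (99, 0, 0, 0, 0), (100, 0, 0, 0, 0), (101, 0, 0, 0, 0), (96, 0, 0, 0, 0), (97, 0, 0, 0, 0), (31, 0, 0, 0, 0), (47, 0, 0, 0, 0), (33, 0, 0, 0, 0), (45, 0, 0, 0, 0), (98, 0, 0, 0, 0), (99, 0, 0, 0, 0), (31, 0, 0, 0, 0), (47, 0, 0, 0, 0), (37, 0, 0, 0, 0), (43, 0, 0, 0, 0), (100, 0, 0, 0, 0), (101, 0, 0, 0, 0), (33, 0, 0, 0, 0), (45, 0, 0, 0, 0), (37, 0, 0, 0, 0), (43, 0, 0, 0, 0)],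
  [(76, 0, 0, 0, 0), (84, 0, 0, 0, 0), (74, 0, 0, 0, 0), (86, 0, 0, 0, 0), (102, 0, 0, 0, 0), (103, 0, 0, 0, 0), (76, 0, 0, 0, 0), (84, 0, 0, 0, 0), (72, 0, 0, 0, 0), (88, 0, 0, 0, 0), (104, 0, 0, 0, 0), (105, 0, 0, 0, 0), (74, 0, 0, 0, 0), (86, 0, 0, 0, 0), (72, 0, 0, 0, 0), (88, 0, 0, 0, 0), (106, 0, 0, 0, 0), (107, 0, 0, 0, 0), (102, 0, 0, 0, 0), (103, 0, 0, 0, 0), (104, 0, 0, 0, 0), (105, 0, 0, 0, 0), (106, 0, 0, 0, 0), (107, 0, 0, 0, 0), (159, 0, 0, 0, 0), (155, 0, 0, 0, 0), (159, 0, 0, 0, 0), (66, 0, 0, 0, 0), (89, 0, 0, 0, 0), (161, 0, 0, 0, 0), (155, 0, 0, 0, 0), (66, 0, 0, 0, 0), (89, 0, 0, 0, 0), (157, 0, 0, 0, 0), (161, 0, 0, 0, 0), (157, 0, 0, 0, 0), (158, 0, 0, 0, 0), (151, 0, 0, 0, 0), (158, 0, 0, 0, 0), (62, 0, 0, 0, 0), (87, 0, 0, 0, 0), (160, 0, 0, 0, 0), (151, 0, 0, 0, 0), (62, 0, 0, 0, 0), (87, 0, 0, 0, 0), (153, 0, 0, 0, 0), (160,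 0, 0, 0, 0), (153, 0, 0, 0, 0), (154, 0, 0, 0, 0), (150, 0, 0, 0, 0), (154, 0, 0, 0, 0), (60, 0, 0, 0, 0), (85, 0, 0, 0, 0), (156, 0, 0, 0, 0), (150, 0, 0, 0, 0), (60, 0, 0, 0, 0), (85, 0, 0, 0, 0), (152, 0, 0, 0, 0), (156, 0, 0, 0, 0), (152, 0, 0, 0, 0), (108, 0, 0, 0, 0), (109, 0, 0, 0, 0), (110, 0, 0, 0, 0), (111, 0, 0, 0, 0), (112, 0, 0, 0, 0), (113, 0, 0, 0, 0), (108, 0, 0, 0, 0), (109, 0, 0, 0, 0), (61, 0, 0, 0, 0), (77, 0, 0, 0, 0), (63, 0, 0, 0, 0), (75, 0, 0, 0, 0), (110, 0, 0, 0, 0), (111, 0, 0, 0, 0), (61, 0, 0, 0, 0), (77, 0, 0, 0, 0), (67, 0, 0, 0, 0), (73, 0, 0, 0, 0), (112, 0, 0, 0, 0), (113, 0, 0, 0, 0), (63, 0, 0, 0, 0), (75, 0, 0, 0, 0), (67, 0, 0, 0, 0), (73, 0, 0, 0, 0)],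
  [(16, 0, 0, 0, 0), (24, 0, 0, 0, 0), (14, 0, 0, 0, 0), (26, 0, 0, 0, 0), (114, 0, 0, 0, 0), (115, 0, 0, 0, 0), (16, 0, 0, 0, 0), (24, 0, 0, 0, 0), (12, 0, 0, 0, 0), (28, 0, 0, 0, 0), (116, 0, 0, 0, 0), (117, 0, 0, 0, 0), (14, 0, 0, 0, 0), (26, 0, 0, 0, 0), (12, 0, 0, 0, 0), (28, 0, 0, 0, 0), (118, 0, 0, 0, 0), (119, 0, 0, 0, 0), (114, 0, 0, 0, 0), (115, 0, 0, 0, 0), (116, 0, 0, 0, 0), (117, 0, 0, 0, 0), (118, 0, 0, 0, 0), (119, 0, 0, 0, 0), (135, 0, 0, 0, 0), (131, 0, 0, 0, 0), (135, 0, 0, 0, 0), (6, 0, 0, 0, 0), (29, 0, 0, 0, 0), (137, 0, 0, 0, 0), (131, 0, 0, 0, 0), (6, 0, 0, 0, 0), (29, 0, 0, 0, 0), (133, 0, 0, 0, 0), (137, 0, 0, 0, 0), (133, 0, 0, 0, 0), (134, 0, 0, 0, 0), (127, 0, 0, 0, 0), (134, 0, 0, 0, 0), (2, 0, 0, 0, 0), (27, 0, 0, 0, 0), (136, 0, 0, 0, 0), (127, 0, 0, 0, 0), (2, 0, 0, 0, 0), (27, 0, 0, 0, 0), (129, 0, 0, 0, 0), (136, 0, 0,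 0, 0), (129, 0, 0, 0, 0), (130, 0, 0, 0, 0), (126, 0, 0, 0, 0), (130, 0, 0, 0, 0), (0, 0, 0, 0, 0), (25, 0, 0, 0, 0), (132, 0, 0, 0, 0), (126, 0, 0, 0, 0), (0, 0, 0, 0, 0), (25, 0, 0, 0, 0), (128, 0, 0, 0, 0), (132, 0, 0, 0, 0), (128, 0, 0, 0, 0), (120, 0, 0, 0, 0), (121, 0, 0, 0, 0), (122, 0, 0, 0, 0), (123, 0, 0, 0, 0), (124, 0, 0, 0, 0), (125, 0, 0, 0, 0), (120, 0, 0, 0, 0), (121, 0, 0, 0, 0), (1, 0, 0, 0, 0), (17, 0, 0, 0, 0), (3, 0, 0, 0, 0), (15, 0, 0, 0, 0), (122, 0, 0, 0, 0), (123, 0, 0, 0, 0), (1, 0, 0, 0, 0), (17, 0, 0, 0, 0), (7, 0, 0, 0, 0), (13, 0, 0, 0, 0), (124, 0, 0, 0, 0), (125, 0, 0, 0, 0), (3, 0, 0, 0, 0), (15, 0, 0, 0, 0), (7, 0, 0, 0, 0), (13, 0, 0, 0, 0)]]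

def m24_3 : Base := (0, 1, [(0, [0], [0, 5]), (0, [1], [1, 2]), (0, [2], [3, 4]), (4, [], [5])])

def l24_3 : Cov := [(768, 0, 1, [(0, [0], [0, 5]), (0, [1], [1, 2]), (0, [2], [3, 4]), (4, [], [5])]),
  (768, 0, 1, [(0, [0], [0, 5]), (0, [1], [1, 3]), (0, [2], [2, 4]), (4, [], [5])]),
  (672, 0, 1, [(0, [0], [0, 5]), (0, [1], [1, 4]), (0, [2], [2, 3]), (4, [], [5])]),
  (768, 0, 1, [(0, [0], [0, 5]), (0, [1], [2, 3]), (0, [2], [1, 4]), (4, [], [5])]),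
  (672, 0, 1, [(0, [0], [0, 5]), (0, [1], [2, 4]), (0, [2], [1, 3]), (4, [], [5])]),
  (672, 0, 1, [(0, [0], [0, 5]), (0, [1], [3, 4]), (0, [2], [1, 2]), (4, [], [5])]),
  (96, 0, 1, [(0, [0], [1, 5]), (0, [1], [0, 2]), (0, [2], [3, 4]), (4, [], [5])]),
  (96, 0, 1, [(0, [0], [1, 5]), (0, [1], [0, 3]), (0, [2], [2, 4]), (4, [], [5])]),
  (-96, 0, 1, [(0, [0], [1, 5]), (0, [1], [2, 4]), (0, [2], [3, 0]), (4, [], [5])]),
  (-96, 0, 1, [(0, [0], [1, 5]), (0, [1], [3, 4]), (0, [2], [2, 0]), (4, [], [5])]),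
  (96, 0, 1, [(0, [0], [2, 5]), (0, [1], [0, 1]), (0, [2], [3, 4]), (4, [], [5])]),
  (96, 0, 1, [(0, [0], [2, 5]), (0, [1], [0, 3]), (0, [2], [1, 4]), (4, [], [5])]),
  (-96, 0, 1, [(0, [0], [2, 5]), (0, [1], [1, 4]), (0, [2], [3, 0]), (4, [], [5])]),
  (-96, 0, 1, [(0, [0], [2, 5]), (0, [1], [3, 4]), (0, [2], [1, 0]), (4, [], [5])]),
  (96, 0, 1, [(0, [0], [3, 5]), (0, [1], [0, 1]), (0, [2], [2, 4]), (4, [], [5])]),
  (96, 0, 1, [(0, [0], [3, 5]), (0, [1], [0, 2]), (0, [2], [1, 4]), (4, [], [5])]),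
  (-96, 0, 1, [(0, [0], [3, 5]), (0, [1], [1, 4]), (0, [2], [2, 0]), (4, [], [5])]),
  (-96, 0, 1, [(0, [0], [3, 5]), (0, [1], [2, 4]), (0, [2], [1, 0]), (4, [], [5])]),
  (-672, 0, 1, [(0, [0], [4, 5]), (0, [1], [0, 1]), (0, [2], [2, 3]), (4, [], [5])]),
  (-672, 0, 1, [(0, [0], [4, 5]), (0, [1], [0, 2]), (0, [2], [1, 3]), (4, [], [5])]),
  (-672, 0, 1, [(0, [0], [4, 5]), (0, [1], [0, 3]), (0, [2], [1, 2]), (4, [], [5])]),
  (-768, 0, 1, [(0, [0], [4, 5]), (0, [1], [1, 2]), (0, [2], [0, 3]), (4, [], [5])]),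
  (-768, 0, 1, [(0, [0], [4, 5]), (0, [1], [1, 3]), (0, [2], [0, 2]), (4, [], [5])]),
  (-768, 0, 1, [(0, [0], [4, 5]), (0, [1], [2, 3]), (0, [2], [0, 1]), (4, [], [5])]),
  (96, 0, 1, [(0, [1], [0, 5]), (0, [0], [1, 2]), (0, [2], [3, 4]), (4, [], [5])]),
  (96, 0, 1, [(0, [1], [0, 5]), (0, [0], [1, 3]), (0, [2], [2, 4]), (4, [], [5])]),
  (-96, 0, 1, [(0, [1], [0, 5]), (0, [0], [1, 4]), (0, [2], [2, 3]), (4, [], [5])]),
  (96, 0, 1, [(0, [1], [0, 5]), (0, [0], [2, 3]), (0, [2], [1, 4]), (4, [], [5])]),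
  (-96, 0, 1, [(0, [1], [0, 5]), (0, [0], [2, 4]), (0, [2], [1, 3]), (4, [], [5])]),
  (-96, 0, 1, [(0, [1], [0, 5]), (0, [0], [3, 4]), (0, [2], [1, 2]), (4, [], [5])]),
  (192, 0, 1, [(0, [1], [1, 5]), (0, [0], [0, 2]), (0, [2], [3, 4]), (4, [], [5])]),
  (192, 0, 1, [(0, [1], [1, 5]), (0, [0], [0, 3]), (0, [2], [2, 4]), (4, [], [5])]),
  (-192, 0, 1, [(0, [1], [1, 5]), (0, [0], [2, 4]), (0, [2], [3, 0]), (4, [], [5])]),
  (-192, 0, 1, [(0, [1], [1, 5]), (0, [0], [3, 4]), (0, [2], [2, 0]), (4, [], [5])]),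
  (192, 0, 1, [(0, [1], [2, 5]), (0, [0], [0, 1]), (0, [2], [3, 4]), (4, [], [5])]),
  (192, 0, 1, [(0, [1], [2, 5]), (0, [0], [0, 3]), (0, [2], [1, 4]), (4, [], [5])]),
  (-192, 0, 1, [(0, [1], [2, 5]), (0, [0], [1, 4]), (0, [2], [3, 0]), (4, [], [5])]),
  (-192, 0, 1, [(0, [1], [2, 5]), (0, [0], [3, 4]), (0, [2], [1, 0]), (4, [], [5])]),
  (192, 0, 1, [(0, [1], [3, 5]), (0, [0], [0, 1]), (0, [2], [2, 4]), (4, [], [5])]),
  (192, 0, 1, [(0, [1], [3, 5]), (0, [0], [0, 2]), (0, [2], [1, 4]), (4, [], [5])]),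
  (-192, 0, 1, [(0, [1], [3, 5]), (0, [0], [1, 4]), (0, [2], [2, 0]), (4, [], [5])]),
  (-192, 0, 1, [(0, [1], [3, 5]), (0, [0], [2, 4]), (0, [2], [1, 0]), (4, [], [5])]),
  (96, 0, 1, [(0, [1], [4, 5]), (0, [0], [0, 1]), (0, [2], [2, 3]), (4, [], [5])]),
  (96, 0, 1, [(0, [1], [4, 5]), (0, [0], [0, 2]), (0, [2], [1, 3]), (4, [], [5])]),
  (96, 0, 1, [(0, [1], [4, 5]), (0, [0], [0, 3]), (0, [2], [1, 2]), (4, [], [5])]),
  (-96, 0, 1, [(0, [1], [4, 5]), (0, [0], [1, 2]), (0, [2], [0, 3]), (4, [], [5])]),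
  (-96, 0, 1, [(0, [1], [4, 5]), (0, [0], [1, 3]), (0, [2], [0, 2]), (4, [], [5])]),
  (-96, 0, 1, [(0, [1], [4, 5]), (0, [0], [2, 3]), (0, [2], [0, 1]), (4, [], [5])]),
  (-672, 0, 1, [(0, [2], [0, 5]), (0, [0], [1, 2]), (0, [1], [3, 4]), (4, [], [5])]),
  (-672, 0, 1, [(0, [2], [0, 5]), (0, [0], [1, 3]), (0, [1], [2, 4]), (4, [], [5])]),
  (-768, 0, 1, [(0, [2], [0, 5]), (0, [0], [1, 4]), (0, [1], [2, 3]), (4, [], [5])]),
  (-672, 0, 1, [(0, [2], [0, 5]), (0, [0], [2, 3]), (0, [1], [1, 4]), (4, [], [5])]),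
  (-768, 0, 1, [(0, [2], [0, 5]), (0, [0], [2, 4]), (0, [1], [1, 3]), (4, [], [5])]),
  (-768, 0, 1, [(0, [2], [0, 5]), (0, [0], [3, 4]), (0, [1], [1, 2]), (4, [], [5])]),
  (96, 0, 1, [(0, [2], [1, 5]), (0, [0], [0, 2]), (0, [1], [3, 4]), (4, [], [5])]),
  (96, 0, 1, [(0, [2], [1, 5]), (0, [0], [0, 3]), (0, [1], [2, 4]), (4, [], [5])]),
  (-96, 0, 1, [(0, [2], [1, 5]), (0, [0], [2, 4]), (0, [1], [3, 0]), (4, [], [5])]),
  (-96, 0, 1, [(0, [2], [1, 5]), (0, [0], [3, 4]), (0, [1], [2, 0]), (4, [], [5])]),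
  (96, 0, 1, [(0, [2], [2, 5]), (0, [0], [0, 1]), (0, [1], [3, 4]), (4, [], [5])]),
  (96, 0, 1, [(0, [2], [2, 5]), (0, [0], [0, 3]), (0, [1], [1, 4]), (4, [], [5])]),
  (-96, 0, 1, [(0, [2], [2, 5]), (0, [0], [1, 4]), (0, [1], [3, 0]), (4, [], [5])]),
  (-96, 0, 1, [(0, [2], [2, 5]), (0, [0], [3, 4]), (0, [1], [1, 0]), (4, [], [5])]),
  (96, 0, 1, [(0, [2], [3, 5]), (0, [0], [0, 1]), (0, [1], [2, 4]), (4, [], [5])]),
  (96, 0, 1, [(0, [2], [3, 5]), (0, [0], [0, 2]), (0, [1], [1, 4]), (4, [], [5])]),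
  (-96, 0, 1, [(0, [2], [3, 5]), (0, [0], [1, 4]), (0, [1], [2, 0]), (4, [], [5])]),
  (-96, 0, 1, [(0, [2], [3, 5]), (0, [0], [2, 4]), (0, [1], [1, 0]), (4, [], [5])]),
  (768, 0, 1, [(0, [2], [4, 5]), (0, [0], [0, 1]), (0, [1], [2, 3]), (4, [], [5])]),
  (768, 0, 1, [(0, [2], [4, 5]), (0, [0], [0, 2]), (0, [1], [1, 3]), (4, [], [5])]),
  (768, 0, 1, [(0, [2], [4, 5]), (0, [0], [0, 3]), (0, [1], [1, 2]), (4, [], [5])]),
  (672, 0, 1, [(0, [2], [4, 5]), (0, [0], [1, 2]), (0, [1], [0, 3]), (4, [], [5])]),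
  (672, 0, 1, [(0, [2], [4, 5]), (0, [0], [1, 3]), (0, [1], [0, 2]), (4, [], [5])]),
  (672, 0, 1, [(0, [2], [4, 5]), (0, [0], [2, 3]), (0, [1], [0, 1]), (4, [], [5])])]

def z24_3 : Cov := [(0, 0, 1, [(0, [0], [1, 5]), (0, [1], [2, 3]), (0, [2], [0, 4]), (4, [], [5])]),
  (0, 0, 1, [(0, [0], [2, 5]), (0, [1], [1, 3]), (0, [2], [0, 4]), (4, [], [5])]),
  (0, 0, 1, [(0, [0], [3, 5]), (0, [1], [1, 2]), (0, [2], [0, 4]), (4, [], [5])]),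
  (0, 0, 1, [(0, [0], [1, 5]), (0, [2], [2, 3]), (0, [1], [0, 4]), (4, [], [5])]),
  (0, 0, 1, [(0, [0], [2, 5]), (0, [2], [1, 3]), (0, [1], [0, 4]), (4, [], [5])]),
  (0, 0, 1, [(0, [0], [3, 5]), (0, [2], [1, 2]), (0, [1], [0, 4]), (4, [], [5])]),
  (0, 0, 1, [(0, [1], [1, 5]), (0, [0], [2, 3]), (0, [2], [0, 4]), (4, [], [5])]),
  (0, 0, 1, [(0, [1], [2, 5]), (0, [0], [1, 3]), (0, [2], [0, 4]), (4, [], [5])]),
  (0, 0, 1, [(0, [1], [3, 5]), (0, [0], [1, 2]), (0, [2], [0, 4]), (4, [], [5])]),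
  (0, 0, 1, [(0, [1], [1, 5]), (0, [2], [2, 3]), (0, [0], [0, 4]), (4, [], [5])]),
  (0, 0, 1, [(0, [1], [2, 5]), (0, [2], [1, 3]), (0, [0], [0, 4]), (4, [], [5])]),
  (0, 0, 1, [(0, [1], [3, 5]), (0, [2], [1, 2]), (0, [0], [0, 4]), (4, [], [5])]),
  (0, 0, 1, [(0, [2], [1, 5]), (0, [0], [2, 3]), (0, [1], [0, 4]), (4, [], [5])]),
  (0, 0, 1, [(0, [2], [2, 5]), (0, [0], [1, 3]), (0, [1], [0, 4]), (4, [], [5])]),
  (0, 0, 1, [(0, [2], [3, 5]), (0, [0], [1, 2]), (0, [1], [0, 4]), (4, [], [5])]),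
  (0, 0, 1, [(0, [2], [1, 5]), (0, [1], [2, 3]), (0, [0], [0, 4]), (4, [], [5])]),
  (0, 0, 1, [(0, [2], [2, 5]), (0, [1], [1, 3]), (0, [0], [0, 4]), (4, [], [5])]),
  (0, 0, 1, [(0, [2], [3, 5]), (0, [1], [1, 2]), (0, [0], [0, 4]), (4, [], [5])])]

def w24_3 : List (List Wit) := [[(0, 0, 0, 0, 0), (0, 0, 0, 0, 0), (1, 0, 0, 0, 0), (1, 0, 0, 0, 0), (2, 0, 0, 0, 0), (2, 0, 0, 0, 0), (0, 0, 0, 0, 0), (0, 0, 0, 0, 0), (3, 0, 0, 0, 0), (3, 0, 0, 0, 0), (4, 0, 0, 0, 0), (4, 0, 0, 0, 0), (1, 0, 0, 0, 0), (1, 0, 0, 0, 0), (3, 0, 0, 0, 0), (3, 0, 0, 0, 0), (5, 0, 0, 0, 0), (5, 0, 0, 0, 0), (2, 0, 0, 0, 0), (2, 0, 0, 0, 0), (4, 0, 0, 0, 0), (4, 0, 0, 0, 0), (5, 0, 0, 0, 0), (5, 0, 0, 0, 0), (6, 0, 0, 0, 0), (7, 0, 0, 0, 0), (6, 0, 0, 0, 0), (72, 0, 0, 0, 0), (72, 0, 0, 0, 0), (8, 0, 0, 0, 0), (7, 0, 0, 0, 0), (72, 0, 0, 0, 0), (72, 0, 0, 0, 0), (9, 0, 0, 0, 0),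 (8, 0, 0, 0, 0), (9, 0, 0, 0, 0), (10, 0, 0, 0, 0), (11, 0, 0, 0, 0), (10, 0, 0, 0, 0), (73, 0, 0, 0, 0), (73, 0, 0, 0, 0), (12, 0, 0, 0, 0), (11, 0, 0, 0, 0), (73, 0, 0, 0, 0), (73, 0, 0, 0, 0), (13, 0, 0, 0, 0), (12, 0, 0, 0, 0), (13, 0, 0, 0, 0), (14, 0, 0, 0, 0), (15, 0, 0, 0, 0), (14, 0, 0, 0, 0), (74, 0, 0, 0, 0), (74, 0, 0, 0, 0), (16, 0, 0, 0, 0), (15, 0, 0, 0, 0), (74, 0, 0, 0, 0), (74, 0, 0, 0, 0), (17, 0, 0, 0, 0), (16, 0, 0, 0, 0), (17, 0, 0, 0, 0), (18, 0, 0, 0, 0), (18, 0, 0, 0, 0), (19, 0, 0, 0, 0), (19, 0, 0, 0, 0), (20, 0, 0, 0, 0), (20, 0, 0, 0, 0), (18, 0, 0, 0, 0), (18, 0, 0, 0, 0), (21, 0, 0, 0, 0), (21, 0, 0, 0, 0), (22, 0, 0, 0, 0), (22, 0, 0, 0, 0), (19, 0, 0, 0, 0), (19, 0, 0, 0, 0), (21, 0, 0, 0, 0), (21, 0, 0, 0, 0), (23, 0, 0, 0, 0), (23, 0, 0, 0, 0), (20, 0, 0, 0, 0), (20, 0, 0, 0, 0), (22, 0, 0, 0, 0), (22, 0, 0, 0, 0), (23,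 0, 0, 0, 0), (23, 0, 0, 0, 0)],
  [(5, 0, 0, 0, 0), (5, 0, 0, 0, 0), (4, 0, 0, 0, 0), (4, 0, 0, 0, 0), (3, 0, 0, 0, 0), (3, 0, 0, 0, 0), (5, 0, 0, 0, 0), (5, 0, 0, 0, 0), (2, 0, 0, 0, 0), (2, 0, 0, 0, 0), (1, 0, 0, 0, 0), (1, 0, 0, 0, 0), (4, 0, 0, 0, 0), (4, 0, 0, 0, 0), (2, 0, 0, 0, 0), (2, 0, 0, 0, 0), (0, 0, 0, 0, 0), (0, 0, 0, 0, 0), (3, 0, 0, 0, 0), (3, 0, 0, 0, 0), (1, 0, 0, 0, 0), (1, 0, 0, 0, 0), (0, 0, 0, 0, 0), (0, 0, 0, 0, 0), (9, 0, 0, 0, 0), (8, 0, 0, 0, 0), (9, 0, 0, 0, 0), (75, 0, 0, 0, 0), (75, 0, 0, 0, 0), (7, 0, 0, 0, 0), (8, 0, 0, 0, 0), (75, 0, 0, 0, 0), (75, 0, 0, 0, 0), (6, 0, 0, 0, 0), (7, 0, 0, 0, 0), (6, 0, 0, 0, 0), (13, 0, 0, 0, 0), (12, 0, 0, 0, 0), (13, 0, 0, 0, 0), (76, 0, 0, 0, 0), (76, 0, 0, 0, 0), (11, 0, 0, 0, 0), (12, 0, 0, 0, 0), (76, 0, 0, 0, 0), (76, 0, 0, 0, 0), (10, 0, 0, 0, 0), (11, 0, 0, 0, 0), (10, 0, 0, 0,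 0), (17, 0, 0, 0, 0), (16, 0, 0, 0, 0), (17, 0, 0, 0, 0), (77, 0, 0, 0, 0), (77, 0, 0, 0, 0), (15, 0, 0, 0, 0), (16, 0, 0, 0, 0), (77, 0, 0, 0, 0), (77, 0, 0, 0, 0), (14, 0, 0, 0, 0), (15, 0, 0, 0, 0), (14, 0, 0, 0, 0), (23, 0, 0, 0, 0), (23, 0, 0, 0, 0), (22, 0, 0, 0, 0), (22, 0, 0, 0, 0), (21, 0, 0, 0, 0), (21, 0, 0, 0, 0), (23, 0, 0, 0, 0), (23, 0, 0, 0, 0), (20, 0, 0, 0, 0), (20, 0, 0, 0, 0), (19, 0, 0, 0, 0), (19, 0, 0, 0, 0), (22, 0, 0, 0, 0), (22, 0, 0, 0, 0), (20, 0, 0, 0, 0), (20, 0, 0, 0, 0), (18, 0, 0, 0, 0), (18, 0, 0, 0, 0), (21, 0, 0, 0, 0), (21, 0, 0, 0, 0), (19, 0, 0, 0, 0), (19, 0, 0, 0, 0), (18, 0, 0, 0, 0), (18, 0, 0, 0, 0)],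
  [(24, 0, 0, 0, 0), (24, 0, 0, 0, 0), (25, 0, 0, 0, 0), (25, 0, 0, 0, 0), (26, 0, 0, 0, 0), (26, 0, 0, 0, 0), (24, 0, 0, 0, 0), (24, 0, 0, 0, 0), (27, 0, 0, 0, 0), (27, 0, 0, 0, 0), (28, 0, 0, 0, 0), (28, 0, 0, 0, 0), (25, 0, 0, 0, 0), (25, 0, 0, 0, 0), (27, 0, 0, 0, 0), (27, 0, 0, 0, 0), (29, 0, 0, 0, 0), (29, 0, 0, 0, 0), (26, 0, 0, 0, 0), (26, 0, 0, 0, 0), (28, 0, 0, 0, 0), (28, 0, 0, 0, 0), (29, 0, 0, 0, 0), (29, 0, 0, 0, 0), (30, 0, 0, 0, 0), (31, 0, 0, 0, 0), (30, 0, 0, 0, 0), (78, 0, 0, 0, 0), (78, 0, 0, 0, 0), (32, 0, 0, 0, 0), (31, 0, 0, 0, 0), (78, 0, 0, 0, 0), (78, 0, 0, 0, 0), (33, 0, 0, 0, 0), (32, 0, 0, 0, 0), (33, 0, 0, 0, 0), (34, 0, 0, 0, 0), (35, 0, 0, 0, 0), (34, 0, 0, 0, 0), (79, 0, 0, 0, 0), (79, 0, 0, 0, 0), (36, 0, 0, 0, 0), (35, 0, 0, 0, 0), (79, 0, 0, 0, 0), (79, 0, 0, 0, 0), (37, 0, 0, 0, 0), (36, 0, 0, 0, 0), (37, 0, 0, 0,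 0), (38, 0, 0, 0, 0), (39, 0, 0, 0, 0), (38, 0, 0, 0, 0), (80, 0, 0, 0, 0), (80, 0, 0, 0, 0), (40, 0, 0, 0, 0), (39, 0, 0, 0, 0), (80, 0, 0, 0, 0), (80, 0, 0, 0, 0), (41, 0, 0, 0, 0), (40, 0, 0, 0, 0), (41, 0, 0, 0, 0), (42, 0, 0, 0, 0), (42, 0, 0, 0, 0), (43, 0, 0, 0, 0), (43, 0, 0, 0, 0), (44, 0, 0, 0, 0), (44, 0, 0, 0, 0), (42, 0, 0, 0, 0), (42, 0, 0, 0, 0), (45, 0, 0, 0, 0), (45, 0, 0, 0, 0), (46, 0, 0, 0, 0), (46, 0, 0, 0, 0), (43, 0, 0, 0, 0), (43, 0, 0, 0, 0), (45, 0, 0, 0, 0), (45, 0, 0, 0, 0), (47, 0, 0, 0, 0), (47, 0, 0, 0, 0), (44, 0, 0, 0, 0), (44, 0, 0, 0, 0), (46, 0, 0, 0, 0), (46, 0, 0, 0, 0), (47, 0, 0, 0, 0), (47, 0, 0, 0, 0)],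
  [(29, 0, 0, 0, 0), (29, 0, 0, 0, 0), (28, 0, 0, 0, 0), (28, 0, 0, 0, 0), (27, 0, 0, 0, 0), (27, 0, 0, 0, 0), (29, 0, 0, 0, 0), (29, 0, 0, 0, 0), (26, 0, 0, 0, 0), (26, 0, 0, 0, 0), (25, 0, 0, 0, 0), (25, 0, 0, 0, 0), (28, 0, 0, 0, 0), (28, 0, 0, 0, 0), (26, 0, 0, 0, 0), (26, 0, 0, 0, 0), (24, 0, 0, 0, 0), (24, 0, 0, 0, 0), (27, 0, 0, 0, 0), (27, 0, 0, 0, 0), (25, 0, 0, 0, 0), (25, 0, 0, 0, 0), (24, 0, 0, 0, 0), (24, 0, 0, 0, 0), (33, 0, 0, 0, 0), (32, 0, 0, 0, 0), (33, 0, 0, 0, 0), (81, 0, 0, 0, 0), (81, 0, 0, 0, 0), (31, 0, 0, 0, 0), (32, 0, 0, 0, 0), (81, 0, 0, 0, 0), (81, 0, 0, 0, 0), (30, 0, 0, 0, 0), (31, 0, 0, 0, 0), (30, 0, 0, 0, 0), (37, 0, 0, 0, 0), (36, 0, 0, 0, 0), (37, 0, 0, 0, 0), (82, 0, 0, 0, 0), (82, 0, 0, 0, 0), (35, 0, 0, 0, 0), (36, 0, 0, 0, 0), (82, 0, 0, 0, 0), (82, 0, 0, 0, 0), (34, 0, 0, 0, 0), (35, 0, 0, 0, 0), (34, 0, 0, 0,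 0), (41, 0, 0, 0, 0), (40, 0, 0, 0, 0), (41, 0, 0, 0, 0), (83, 0, 0, 0, 0), (83, 0, 0, 0, 0), (39, 0, 0, 0, 0), (40, 0, 0, 0, 0), (83, 0, 0, 0, 0), (83, 0, 0, 0, 0), (38, 0, 0, 0, 0), (39, 0, 0, 0, 0), (38, 0, 0, 0, 0), (47, 0, 0, 0, 0), (47, 0, 0, 0, 0), (46, 0, 0, 0, 0), (46, 0, 0, 0, 0), (45, 0, 0, 0, 0), (45, 0, 0, 0, 0), (47, 0, 0, 0, 0), (47, 0, 0, 0, 0), (44, 0, 0, 0, 0), (44, 0, 0, 0, 0), (43, 0, 0, 0, 0), (43, 0, 0, 0, 0), (46, 0, 0, 0, 0), (46, 0, 0, 0, 0), (44, 0, 0, 0, 0), (44, 0, 0, 0, 0), (42, 0, 0, 0, 0), (42, 0, 0, 0, 0), (45, 0, 0, 0, 0), (45, 0, 0, 0, 0), (43, 0, 0, 0, 0), (43, 0, 0, 0, 0), (42, 0, 0, 0, 0), (42, 0, 0, 0, 0)],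
  [(48, 0, 0, 0, 0), (48, 0, 0, 0, 0), (49, 0, 0, 0, 0), (49, 0, 0, 0, 0), (50, 0, 0, 0, 0), (50, 0, 0, 0, 0), (48, 0, 0, 0, 0), (48, 0, 0, 0, 0), (51, 0, 0, 0, 0), (51, 0, 0, 0, 0), (52, 0, 0, 0, 0), (52, 0, 0, 0, 0), (49, 0, 0, 0, 0), (49, 0, 0, 0, 0), (51, 0, 0, 0, 0), (51, 0, 0, 0, 0), (53, 0, 0, 0, 0), (53, 0, 0, 0, 0), (50, 0, 0, 0, 0), (50, 0, 0, 0, 0), (52, 0, 0, 0, 0), (52, 0, 0, 0, 0), (53, 0, 0, 0, 0), (53, 0, 0, 0, 0), (54, 0, 0, 0, 0), (55, 0, 0, 0, 0), (54, 0, 0, 0, 0), (84, 0, 0, 0, 0), (84, 0, 0, 0, 0), (56, 0, 0, 0, 0), (55, 0, 0, 0, 0), (84, 0, 0, 0, 0), (84, 0, 0, 0, 0), (57, 0, 0, 0, 0), (56, 0, 0, 0, 0), (57, 0, 0, 0, 0), (58, 0, 0, 0, 0), (59, 0, 0, 0, 0), (58, 0, 0, 0, 0), (85, 0, 0, 0, 0), (85, 0, 0, 0, 0), (60, 0, 0, 0, 0), (59, 0, 0, 0, 0), (85, 0, 0, 0, 0), (85, 0, 0, 0, 0), (61, 0, 0, 0, 0), (60, 0, 0, 0, 0), (61, 0, 0, 0,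 0), (62, 0, 0, 0, 0), (63, 0, 0, 0, 0), (62, 0, 0, 0, 0), (86, 0, 0, 0, 0), (86, 0, 0, 0, 0), (64, 0, 0, 0, 0), (63, 0, 0, 0, 0), (86, 0, 0, 0, 0), (86, 0, 0, 0, 0), (65, 0, 0, 0, 0), (64, 0, 0, 0, 0), (65, 0, 0, 0, 0), (66, 0, 0, 0, 0), (66, 0, 0, 0, 0), (67, 0, 0, 0, 0), (67, 0, 0, 0, 0), (68, 0, 0, 0, 0), (68, 0, 0, 0, 0), (66, 0, 0, 0, 0), (66, 0, 0, 0, 0), (69, 0, 0, 0, 0), (69, 0, 0, 0, 0), (70, 0, 0, 0, 0), (70, 0, 0, 0, 0), (67, 0, 0, 0, 0), (67, 0, 0, 0, 0), (69, 0, 0, 0, 0), (69, 0, 0, 0, 0), (71, 0, 0, 0, 0), (71, 0, 0, 0, 0), (68, 0, 0, 0, 0), (68, 0, 0, 0, 0), (70, 0, 0, 0, 0), (70, 0, 0, 0, 0), (71, 0, 0, 0, 0), (71, 0, 0, 0, 0)],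
  [(53, 0, 0, 0, 0), (53, 0, 0, 0, 0), (52, 0, 0, 0, 0), (52, 0, 0, 0, 0), (51, 0, 0, 0, 0), (51, 0, 0, 0, 0), (53, 0, 0, 0, 0), (53, 0, 0, 0, 0), (50, 0, 0, 0, 0), (50, 0, 0, 0, 0), (49, 0, 0, 0, 0), (49, 0, 0, 0, 0), (52, 0, 0, 0, 0), (52, 0, 0, 0, 0), (50, 0, 0, 0, 0), (50, 0, 0, 0, 0), (48, 0, 0, 0, 0), (48, 0, 0, 0, 0), (51, 0, 0, 0, 0), (51, 0, 0, 0, 0), (49, 0, 0, 0, 0), (49, 0, 0, 0, 0), (48, 0, 0, 0, 0), (48, 0, 0, 0, 0), (57, 0, 0, 0, 0), (56, 0, 0, 0, 0), (57, 0, 0, 0, 0), (87, 0, 0, 0, 0), (87, 0, 0, 0, 0), (55, 0, 0, 0, 0), (56, 0, 0, 0, 0), (87, 0, 0, 0, 0), (87, 0, 0, 0, 0), (54, 0, 0, 0, 0), (55, 0, 0, 0, 0), (54, 0, 0, 0, 0), (61, 0, 0, 0, 0), (60, 0, 0, 0, 0), (61, 0, 0, 0, 0), (88, 0, 0, 0, 0), (88, 0, 0, 0, 0), (59, 0, 0, 0, 0), (60, 0, 0, 0, 0), (88, 0, 0, 0, 0), (88, 0, 0, 0, 0), (58, 0, 0, 0, 0), (59, 0, 0, 0, 0), (58, 0, 0, 0,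 0), (65, 0, 0, 0, 0), (64, 0, 0, 0, 0), (65, 0, 0, 0, 0), (89, 0, 0, 0, 0), (89, 0, 0, 0, 0), (63, 0, 0, 0, 0), (64, 0, 0, 0, 0), (89, 0, 0, 0, 0), (89, 0, 0, 0, 0), (62, 0, 0, 0, 0), (63, 0, 0, 0, 0), (62, 0, 0, 0, 0), (71, 0, 0, 0, 0), (71, 0, 0, 0, 0), (70, 0, 0, 0, 0), (70, 0, 0, 0, 0), (69, 0, 0, 0, 0), (69, 0, 0, 0, 0), (71, 0, 0, 0, 0), (71, 0, 0, 0, 0), (68, 0, 0, 0, 0), (68, 0, 0, 0, 0), (67, 0, 0, 0, 0), (67, 0, 0, 0, 0), (70, 0, 0, 0, 0), (70, 0, 0, 0, 0), (68, 0, 0, 0, 0), (68, 0, 0, 0, 0), (66, 0, 0, 0, 0), (66, 0, 0, 0, 0), (69, 0, 0, 0, 0), (69, 0, 0, 0, 0), (67, 0, 0, 0, 0), (67, 0, 0, 0, 0), (66, 0, 0, 0, 0), (66, 0, 0, 0, 0)]]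

def m24_4 : Base := (0, 1, [(0, [0], [0, 5]), (0, [1], [1, 4]), (0, [2], [2, 3]), (4, [], [5])])

def l24_4 : Cov := [(768, 0, 1, [(0, [0], [0, 5]), (0, [1], [1, 4]), (0, [2], [2, 3]), (4, [], [5])]),
  (672, 0, 1, [(0, [0], [0, 5]), (0, [1], [1, 3]), (0, [2], [2, 4]), (4, [], [5])]),
  (672, 0, 1, [(0, [0], [0, 5]), (0, [1], [1, 2]), (0, [2], [3, 4]), (4, [], [5])]),
  (768, 0, 1, [(0, [0], [0, 5]), (0, [1], [2, 4]), (0, [2], [1, 3]), (4, [], [5])]),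
  (672, 0, 1, [(0, [0], [0, 5]), (0, [1], [2, 3]), (0, [2], [1, 4]), (4, [], [5])]),
  (768, 0, 1, [(0, [0], [0, 5]), (0, [1], [3, 4]), (0, [2], [1, 2]), (4, [], [5])]),
  (96, 0, 1, [(0, [0], [1, 5]), (0, [1], [2, 4]), (0, [2], [0, 3]), (4, [], [5])]),
  (-96, 0, 1, [(0, [0], [1, 5]), (0, [1], [2, 0]), (0, [2], [3, 4]), (4, [], [5])]),
  (96, 0, 1, [(0, [0], [1, 5]), (0, [1], [3, 4]), (0, [2], [0, 2]), (4, [], [5])]),
  (-96, 0, 1, [(0, [0], [1, 5]), (0, [1], [3, 0]), (0, [2], [2, 4]), (4, [], [5])]),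
  (96, 0, 1, [(0, [0], [2, 5]), (0, [1], [1, 4]), (0, [2], [0, 3]), (4, [], [5])]),
  (-96, 0, 1, [(0, [0], [2, 5]), (0, [1], [1, 0]), (0, [2], [3, 4]), (4, [], [5])]),
  (96, 0, 1, [(0, [0], [2, 5]), (0, [1], [3, 4]), (0, [2], [0, 1]), (4, [], [5])]),
  (-96, 0, 1, [(0, [0], [2, 5]), (0, [1], [3, 0]), (0, [2], [1, 4]), (4, [], [5])]),
  (96, 0, 1, [(0, [0], [3, 5]), (0, [1], [1, 4]), (0, [2], [0, 2]), (4, [], [5])]),
  (-96, 0, 1, [(0, [0], [3, 5]), (0, [1], [1, 0]), (0, [2], [2, 4]), (4, [], [5])]),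
  (96, 0, 1, [(0, [0], [3, 5]), (0, [1], [2, 4]), (0, [2], [0, 1]), (4, [], [5])]),
  (-96, 0, 1, [(0, [0], [3, 5]), (0, [1], [2, 0]), (0, [2], [1, 4]), (4, [], [5])]),
  (-768, 0, 1, [(0, [0], [4, 5]), (0, [1], [0, 3]), (0, [2], [1, 2]), (4, [], [5])]),
  (-768, 0, 1, [(0, [0], [4, 5]), (0, [1], [0, 2]), (0, [2], [1, 3]), (4, [], [5])]),
  (-768, 0, 1, [(0, [0], [4, 5]), (0, [1], [0, 1]), (0, [2], [2, 3]), (4, [], [5])]),
  (-672, 0, 1, [(0, [0], [4, 5]), (0, [1], [1, 3]), (0, [2], [0, 2]), (4, [], [5])]),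
  (-672, 0, 1, [(0, [0], [4, 5]), (0, [1], [1, 2]), (0, [2], [0, 3]), (4, [], [5])]),
  (-672, 0, 1, [(0, [0], [4, 5]), (0, [1], [2, 3]), (0, [2], [0, 1]), (4, [], [5])]),
  (96, 0, 1, [(0, [1], [0, 5]), (0, [0], [1, 4]), (0, [2], [2, 3]), (4, [], [5])]),
  (-96, 0, 1, [(0, [1], [0, 5]), (0, [0], [1, 3]), (0, [2], [2, 4]), (4, [], [5])]),
  (-96, 0, 1, [(0, [1], [0, 5]), (0, [0], [1, 2]), (0, [2], [3, 4]), (4, [], [5])]),
  (96, 0, 1, [(0, [1], [0, 5]), (0, [0], [2, 4]), (0, [2], [1, 3]), (4, [], [5])]),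
  (-96, 0, 1, [(0, [1], [0, 5]), (0, [0], [2, 3]), (0, [2], [1, 4]), (4, [], [5])]),
  (96, 0, 1, [(0, [1], [0, 5]), (0, [0], [3, 4]), (0, [2], [1, 2]), (4, [], [5])]),
  (192, 0, 1, [(0, [1], [1, 5]), (0, [0], [2, 4]), (0, [2], [0, 3]), (4, [], [5])]),
  (-192, 0, 1, [(0, [1], [1, 5]), (0, [0], [2, 0]), (0, [2], [3, 4]), (4, [], [5])]),
  (192, 0, 1, [(0, [1], [1, 5]), (0, [0], [3, 4]), (0, [2], [0, 2]), (4, [], [5])]),
  (-192, 0, 1, [(0, [1], [1, 5]), (0, [0], [3, 0]), (0, [2], [2, 4]), (4, [], [5])]),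
  (192, 0, 1, [(0, [1], [2, 5]), (0, [0], [1, 4]), (0, [2], [0, 3]), (4, [], [5])]),
  (-192, 0, 1, [(0, [1], [2, 5]), (0, [0], [1, 0]), (0, [2], [3, 4]), (4, [], [5])]),
  (192, 0, 1, [(0, [1], [2, 5]), (0, [0], [3, 4]), (0, [2], [0, 1]), (4, [], [5])]),
  (-192, 0, 1, [(0, [1], [2, 5]), (0, [0], [3, 0]), (0, [2], [1, 4]), (4, [], [5])]),
  (192, 0, 1, [(0, [1], [3, 5]), (0, [0], [1, 4]), (0, [2], [0, 2]), (4, [], [5])]),
  (-192, 0, 1, [(0, [1], [3, 5]), (0, [0], [1, 0]), (0, [2], [2, 4]), (4, [], [5])]),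
  (192, 0, 1, [(0, [1], [3, 5]), (0, [0], [2, 4]), (0, [2], [0, 1]), (4, [], [5])]),
  (-192, 0, 1, [(0, [1], [3, 5]), (0, [0], [2, 0]), (0, [2], [1, 4]), (4, [], [5])]),
  (-96, 0, 1, [(0, [1], [4, 5]), (0, [0], [0, 3]), (0, [2], [1, 2]), (4, [], [5])]),
  (-96, 0, 1, [(0, [1], [4, 5]), (0, [0], [0, 2]), (0, [2], [1, 3]), (4, [], [5])]),
  (-96, 0, 1, [(0, [1], [4, 5]), (0, [0], [0, 1]), (0, [2], [2, 3]), (4, [], [5])]),
  (96, 0, 1, [(0, [1], [4, 5]), (0, [0], [1, 3]), (0, [2], [0, 2]), (4, [], [5])]),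
  (96, 0, 1, [(0, [1], [4, 5]), (0, [0], [1, 2]), (0, [2], [0, 3]), (4, [], [5])]),
  (96, 0, 1, [(0, [1], [4, 5]), (0, [0], [2, 3]), (0, [2], [0, 1]), (4, [], [5])]),
  (-672, 0, 1, [(0, [2], [0, 5]), (0, [0], [1, 4]), (0, [1], [2, 3]), (4, [], [5])]),
  (-768, 0, 1, [(0, [2], [0, 5]), (0, [0], [1, 3]), (0, [1], [2, 4]), (4, [], [5])]),
  (-768, 0, 1, [(0, [2], [0, 5]), (0, [0], [1, 2]), (0, [1], [3, 4]), (4, [], [5])]),
  (-672, 0, 1, [(0, [2], [0, 5]), (0, [0], [2, 4]), (0, [1], [1, 3]), (4, [], [5])]),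
  (-768, 0, 1, [(0, [2], [0, 5]), (0, [0], [2, 3]), (0, [1], [1, 4]), (4, [], [5])]),
  (-672, 0, 1, [(0, [2], [0, 5]), (0, [0], [3, 4]), (0, [1], [1, 2]), (4, [], [5])]),
  (96, 0, 1, [(0, [2], [1, 5]), (0, [0], [2, 4]), (0, [1], [0, 3]), (4, [], [5])]),
  (-96, 0, 1, [(0, [2], [1, 5]), (0, [0], [2, 0]), (0, [1], [3, 4]), (4, [], [5])]),
  (96, 0, 1, [(0, [2], [1, 5]), (0, [0], [3, 4]), (0, [1], [0, 2]), (4, [], [5])]),
  (-96, 0, 1, [(0, [2], [1, 5]), (0, [0], [3, 0]), (0, [1], [2, 4]), (4, [], [5])]),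
  (96, 0, 1, [(0, [2], [2, 5]), (0, [0], [1, 4]), (0, [1], [0, 3]), (4, [], [5])]),
  (-96, 0, 1, [(0, [2], [2, 5]), (0, [0], [1, 0]), (0, [1], [3, 4]), (4, [], [5])]),
  (96, 0, 1, [(0, [2], [2, 5]), (0, [0], [3, 4]), (0, [1], [0, 1]), (4, [], [5])]),
  (-96, 0, 1, [(0, [2], [2, 5]), (0, [0], [3, 0]), (0, [1], [1, 4]), (4, [], [5])]),
  (96, 0, 1, [(0, [2], [3, 5]), (0, [0], [1, 4]), (0, [1], [0, 2]), (4, [], [5])]),
  (-96, 0, 1, [(0, [2], [3, 5]), (0, [0], [1, 0]), (0, [1], [2, 4]), (4, [], [5])]),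
  (96, 0, 1, [(0, [2], [3, 5]), (0, [0], [2, 4]), (0, [1], [0, 1]), (4, [], [5])]),
  (-96, 0, 1, [(0, [2], [3, 5]), (0, [0], [2, 0]), (0, [1], [1, 4]), (4, [], [5])]),
  (672, 0, 1, [(0, [2], [4, 5]), (0, [0], [0, 3]), (0, [1], [1, 2]), (4, [], [5])]),
  (672, 0, 1, [(0, [2], [4, 5]), (0, [0], [0, 2]), (0, [1], [1, 3]), (4, [], [5])]),
  (672, 0, 1, [(0, [2], [4, 5]), (0, [0], [0, 1]), (0, [1], [2, 3]), (4, [], [5])]),
  (768, 0, 1, [(0, [2], [4, 5]), (0, [0], [1, 3]), (0, [1], [0, 2]), (4, [], [5])]),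
  (768, 0, 1, [(0, [2], [4, 5]), (0, [0], [1, 2]), (0, [1], [0, 3]), (4, [], [5])]),
  (768, 0, 1, [(0, [2], [4, 5]), (0, [0], [2, 3]), (0, [1], [0, 1]), (4, [], [5])])]

def z24_4 : Cov := [(0, 0, 1, [(0, [0], [1, 5]), (0, [1], [0, 4]), (0, [2], [2, 3]), (4, [], [5])]),
  (0, 0, 1, [(0, [0], [2, 5]), (0, [1], [0, 4]), (0, [2], [1, 3]), (4, [], [5])]),
  (0, 0, 1, [(0, [0], [3, 5]), (0, [1], [0, 4]), (0, [2], [1, 2]), (4, [], [5])]),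
  (0, 0, 1, [(0, [0], [1, 5]), (0, [2], [0, 4]), (0, [1], [2, 3]), (4, [], [5])]),
  (0, 0, 1, [(0, [0], [2, 5]), (0, [2], [0, 4]), (0, [1], [1, 3]), (4, [], [5])]),
  (0, 0, 1, [(0, [0], [3, 5]), (0, [2], [0, 4]), (0, [1], [1, 2]), (4, [], [5])]),
  (0, 0, 1, [(0, [1], [1, 5]), (0, [0], [0, 4]), (0, [2], [2, 3]), (4, [], [5])]),
  (0, 0, 1, [(0, [1], [2, 5]), (0, [0], [0, 4]), (0, [2], [1, 3]), (4, [], [5])]),
  (0, 0, 1, [(0, [1], [3, 5]), (0, [0], [0, 4]), (0, [2], [1, 2]), (4, [], [5])]),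
  (0, 0, 1, [(0, [1], [1, 5]), (0, [2], [0, 4]), (0, [0], [2, 3]), (4, [], [5])]),
  (0, 0, 1, [(0, [1], [2, 5]), (0, [2], [0, 4]), (0, [0], [1, 3]), (4, [], [5])]),
  (0, 0, 1, [(0, [1], [3, 5]), (0, [2], [0, 4]), (0, [0], [1, 2]), (4, [], [5])]),
  (0, 0, 1, [(0, [2], [1, 5]), (0, [0], [0, 4]), (0, [1], [2, 3]), (4, [], [5])]),
  (0, 0, 1, [(0, [2], [2, 5]), (0, [0], [0, 4]), (0, [1], [1, 3]), (4, [], [5])]),
  (0, 0, 1, [(0, [2], [3, 5]), (0, [0], [0, 4]), (0, [1], [1, 2]), (4, [], [5])]),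
  (0, 0, 1, [(0, [2], [1, 5]), (0, [1], [0, 4]), (0, [0], [2, 3]), (4, [], [5])]),
  (0, 0, 1, [(0, [2], [2, 5]), (0, [1], [0, 4]), (0, [0], [1, 3]), (4, [], [5])]),
  (0, 0, 1, [(0, [2], [3, 5]), (0, [1], [0, 4]), (0, [0], [1, 2]), (4, [], [5])])]

def w24_4 : List (List Wit) := [[(0, 0, 0, 0, 0), (1, 0, 0, 0, 0), (0, 0, 0, 0, 0), (2, 0, 0, 0, 0), (1, 0, 0, 0, 0), (2, 0, 0, 0, 0), (3, 0, 0, 0, 0), (4, 0, 0, 0, 0), (3, 0, 0, 0, 0), (2, 0, 0, 0, 0), (4, 0, 0, 0, 0), (2, 0, 0, 0, 0), (5, 0, 0, 0, 0), (4, 0, 0, 0, 0), (5, 0, 0, 0, 0), (1, 0, 0, 0, 0), (4, 0, 0, 0, 0), (1, 0, 0, 0, 0), (5, 0, 0, 0, 0), (3, 0, 0, 0, 0), (5, 0, 0, 0, 0), (0, 0, 0, 0, 0), (3, 0, 0, 0, 0), (0, 0, 0, 0, 0), (72, 0, 0, 0, 0), (72, 0, 0, 0, 0), (6, 0, 0, 0, 0), (6, 0, 0, 0, 0), (7, 0, 0, 0, 0), (7, 0, 0, 0, 0), (8, 0, 0, 0, 0), (8, 0, 0, 0, 0), (9, 0, 0, 0, 0), (9, 0, 0, 0, 0),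 (72, 0, 0, 0, 0), (72, 0, 0, 0, 0), (73, 0, 0, 0, 0), (73, 0, 0, 0, 0), (10, 0, 0, 0, 0), (10, 0, 0, 0, 0), (11, 0, 0, 0, 0), (11, 0, 0, 0, 0), (12, 0, 0, 0, 0), (12, 0, 0, 0, 0), (13, 0, 0, 0, 0), (13, 0, 0, 0, 0), (73, 0, 0, 0, 0), (73, 0, 0, 0, 0), (74, 0, 0, 0, 0), (74, 0, 0, 0, 0), (14, 0, 0, 0, 0), (14, 0, 0, 0, 0), (15, 0, 0, 0, 0), (15, 0, 0, 0, 0), (16, 0, 0, 0, 0), (16, 0, 0, 0, 0), (17, 0, 0, 0, 0), (17, 0, 0, 0, 0), (74, 0, 0, 0, 0), (74, 0, 0, 0, 0), (18, 0, 0, 0, 0), (19, 0, 0, 0, 0), (18, 0, 0, 0, 0), (20, 0, 0, 0, 0), (19, 0, 0, 0, 0), (20, 0, 0, 0, 0), (21, 0, 0, 0, 0), (22, 0, 0, 0, 0), (21, 0, 0, 0, 0), (20, 0, 0, 0, 0), (22, 0, 0, 0, 0), (20, 0, 0, 0, 0), (23, 0, 0, 0, 0), (22, 0, 0, 0, 0), (23, 0, 0, 0, 0), (19, 0, 0, 0, 0), (22, 0, 0, 0, 0), (19, 0, 0, 0, 0), (23, 0, 0, 0, 0), (21, 0, 0, 0, 0), (23, 0, 0, 0, 0), (18, 0, 0, 0, 0),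 (21, 0, 0, 0, 0), (18, 0, 0, 0, 0)],
  [(4, 0, 0, 0, 0), (3, 0, 0, 0, 0), (4, 0, 0, 0, 0), (5, 0, 0, 0, 0), (3, 0, 0, 0, 0), (5, 0, 0, 0, 0), (1, 0, 0, 0, 0), (0, 0, 0, 0, 0), (1, 0, 0, 0, 0), (5, 0, 0, 0, 0), (0, 0, 0, 0, 0), (5, 0, 0, 0, 0), (2, 0, 0, 0, 0), (0, 0, 0, 0, 0), (2, 0, 0, 0, 0), (3, 0, 0, 0, 0), (0, 0, 0, 0, 0), (3, 0, 0, 0, 0), (2, 0, 0, 0, 0), (1, 0, 0, 0, 0), (2, 0, 0, 0, 0), (4, 0, 0, 0, 0), (1, 0, 0, 0, 0), (4, 0, 0, 0, 0), (75, 0, 0, 0, 0), (75, 0, 0, 0, 0), (9, 0, 0, 0, 0), (9, 0, 0, 0, 0), (8, 0, 0, 0, 0), (8, 0, 0, 0, 0), (7, 0, 0, 0, 0), (7, 0, 0, 0, 0), (6, 0, 0, 0, 0), (6, 0, 0, 0, 0), (75, 0, 0, 0, 0), (75, 0, 0, 0, 0), (76, 0, 0, 0, 0), (76, 0, 0, 0, 0), (13, 0, 0, 0, 0), (13, 0, 0, 0, 0), (12, 0, 0, 0, 0), (12, 0, 0, 0, 0), (11, 0, 0, 0, 0), (11, 0, 0, 0, 0), (10, 0, 0, 0, 0), (10, 0, 0, 0, 0), (76, 0, 0, 0, 0), (76, 0, 0,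 0, 0), (77, 0, 0, 0, 0), (77, 0, 0, 0, 0), (17, 0, 0, 0, 0), (17, 0, 0, 0, 0), (16, 0, 0, 0, 0), (16, 0, 0, 0, 0), (15, 0, 0, 0, 0), (15, 0, 0, 0, 0), (14, 0, 0, 0, 0), (14, 0, 0, 0, 0), (77, 0, 0, 0, 0), (77, 0, 0, 0, 0), (22, 0, 0, 0, 0), (21, 0, 0, 0, 0), (22, 0, 0, 0, 0), (23, 0, 0, 0, 0), (21, 0, 0, 0, 0), (23, 0, 0, 0, 0), (19, 0, 0, 0, 0), (18, 0, 0, 0, 0), (19, 0, 0, 0, 0), (23, 0, 0, 0, 0), (18, 0, 0, 0, 0), (23, 0, 0, 0, 0), (20, 0, 0, 0, 0), (18, 0, 0, 0, 0), (20, 0, 0, 0, 0), (21, 0, 0, 0, 0), (18, 0, 0, 0, 0), (21, 0, 0, 0, 0), (20, 0, 0, 0, 0), (19, 0, 0, 0, 0), (20, 0, 0, 0, 0), (22, 0, 0, 0, 0), (19, 0, 0, 0, 0), (22, 0, 0, 0, 0)],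
  [(24, 0, 0, 0, 0), (25, 0, 0, 0, 0), (24, 0, 0, 0, 0), (26, 0, 0, 0, 0), (25, 0, 0, 0, 0), (26, 0, 0, 0, 0), (27, 0, 0, 0, 0), (28, 0, 0, 0, 0), (27, 0, 0, 0, 0), (26, 0, 0, 0, 0), (28, 0, 0, 0, 0), (26, 0, 0, 0, 0), (29, 0, 0, 0, 0), (28, 0, 0, 0, 0), (29, 0, 0, 0, 0), (25, 0, 0, 0, 0), (28, 0, 0, 0, 0), (25, 0, 0, 0, 0), (29, 0, 0, 0, 0), (27, 0, 0, 0, 0), (29, 0, 0, 0, 0), (24, 0, 0, 0, 0), (27, 0, 0, 0, 0), (24, 0, 0, 0, 0), (78, 0, 0, 0, 0), (78, 0, 0, 0, 0), (30, 0, 0, 0, 0), (30, 0, 0, 0, 0), (31, 0, 0, 0, 0), (31, 0, 0, 0, 0), (32, 0, 0, 0, 0), (32, 0, 0, 0, 0), (33, 0, 0, 0, 0), (33, 0, 0, 0, 0), (78, 0, 0, 0, 0), (78, 0, 0, 0, 0), (79, 0, 0, 0, 0), (79, 0, 0, 0, 0), (34, 0, 0, 0, 0), (34, 0, 0, 0, 0), (35, 0, 0, 0, 0), (35, 0, 0, 0, 0), (36, 0, 0, 0, 0), (36, 0, 0, 0, 0), (37, 0, 0, 0, 0), (37, 0, 0, 0, 0), (79, 0, 0, 0, 0), (79, 0, 0, 0,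 0), (80, 0, 0, 0, 0), (80, 0, 0, 0, 0), (38, 0, 0, 0, 0), (38, 0, 0, 0, 0), (39, 0, 0, 0, 0), (39, 0, 0, 0, 0), (40, 0, 0, 0, 0), (40, 0, 0, 0, 0), (41, 0, 0, 0, 0), (41, 0, 0, 0, 0), (80, 0, 0, 0, 0), (80, 0, 0, 0, 0), (42, 0, 0, 0, 0), (43, 0, 0, 0, 0), (42, 0, 0, 0, 0), (44, 0, 0, 0, 0), (43, 0, 0, 0, 0), (44, 0, 0, 0, 0), (45, 0, 0, 0, 0), (46, 0, 0, 0, 0), (45, 0, 0, 0, 0), (44, 0, 0, 0, 0), (46, 0, 0, 0, 0), (44, 0, 0, 0, 0), (47, 0, 0, 0, 0), (46, 0, 0, 0, 0), (47, 0, 0, 0, 0), (43, 0, 0, 0, 0), (46, 0, 0, 0, 0), (43, 0, 0, 0, 0), (47, 0, 0, 0, 0), (45, 0, 0, 0, 0), (47, 0, 0, 0, 0), (42, 0, 0, 0, 0), (45, 0, 0, 0, 0), (42, 0, 0, 0, 0)],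
  [(28, 0, 0, 0, 0), (27, 0, 0, 0, 0), (28, 0, 0, 0, 0), (29, 0, 0, 0, 0), (27, 0, 0, 0, 0), (29, 0, 0, 0, 0), (25, 0, 0, 0, 0), (24, 0, 0, 0, 0), (25, 0, 0, 0, 0), (29, 0, 0, 0, 0), (24, 0, 0, 0, 0), (29, 0, 0, 0, 0), (26, 0, 0, 0, 0), (24, 0, 0, 0, 0), (26, 0, 0, 0, 0), (27, 0, 0, 0, 0), (24, 0, 0, 0, 0), (27, 0, 0, 0, 0), (26, 0, 0, 0, 0), (25, 0, 0, 0, 0), (26, 0, 0, 0, 0), (28, 0, 0, 0, 0), (25, 0, 0, 0, 0), (28, 0, 0, 0, 0), (81, 0, 0, 0, 0), (81, 0, 0, 0, 0), (33, 0, 0, 0, 0), (33, 0, 0, 0, 0), (32, 0, 0, 0, 0), (32, 0, 0, 0, 0), (31, 0, 0, 0, 0), (31, 0, 0, 0, 0), (30, 0, 0, 0, 0), (30, 0, 0, 0, 0), (81, 0, 0, 0, 0), (81, 0, 0, 0, 0), (82, 0, 0, 0, 0), (82, 0, 0, 0, 0), (37, 0, 0, 0, 0), (37, 0, 0, 0, 0), (36, 0, 0, 0, 0), (36, 0, 0, 0, 0), (35, 0, 0, 0, 0), (35, 0, 0, 0, 0), (34, 0, 0, 0, 0), (34, 0, 0, 0, 0), (82, 0, 0, 0, 0), (82, 0, 0, 0,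 0), (83, 0, 0, 0, 0), (83, 0, 0, 0, 0), (41, 0, 0, 0, 0), (41, 0, 0, 0, 0), (40, 0, 0, 0, 0), (40, 0, 0, 0, 0), (39, 0, 0, 0, 0), (39, 0, 0, 0, 0), (38, 0, 0, 0, 0), (38, 0, 0, 0, 0), (83, 0, 0, 0, 0), (83, 0, 0, 0, 0), (46, 0, 0, 0, 0), (45, 0, 0, 0, 0), (46, 0, 0, 0, 0), (47, 0, 0, 0, 0), (45, 0, 0, 0, 0), (47, 0, 0, 0, 0), (43, 0, 0, 0, 0), (42, 0, 0, 0, 0), (43, 0, 0, 0, 0), (47, 0, 0, 0, 0), (42, 0, 0, 0, 0), (47, 0, 0, 0, 0), (44, 0, 0, 0, 0), (42, 0, 0, 0, 0), (44, 0, 0, 0, 0), (45, 0, 0, 0, 0), (42, 0, 0, 0, 0), (45, 0, 0, 0, 0), (44, 0, 0, 0, 0), (43, 0, 0, 0, 0), (44, 0, 0, 0, 0), (46, 0, 0, 0, 0), (43, 0, 0, 0, 0), (46, 0, 0, 0, 0)],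
  [(48, 0, 0, 0, 0), (49, 0, 0, 0, 0), (48, 0, 0, 0, 0), (50, 0, 0, 0, 0), (49, 0, 0, 0, 0), (50, 0, 0, 0, 0), (51, 0, 0, 0, 0), (52, 0, 0, 0, 0), (51, 0, 0, 0, 0), (50, 0, 0, 0, 0), (52, 0, 0, 0, 0), (50, 0, 0, 0, 0), (53, 0, 0, 0, 0), (52, 0, 0, 0, 0), (53, 0, 0, 0, 0), (49, 0, 0, 0, 0), (52, 0, 0, 0, 0), (49, 0, 0, 0, 0), (53, 0, 0, 0, 0), (51, 0, 0, 0, 0), (53, 0, 0, 0, 0), (48, 0, 0, 0, 0), (51, 0, 0, 0, 0), (48, 0, 0, 0, 0), (84, 0, 0, 0, 0), (84, 0, 0, 0, 0), (54, 0, 0, 0, 0), (54, 0, 0, 0, 0), (55, 0, 0, 0, 0), (55, 0, 0, 0, 0), (56, 0, 0, 0, 0), (56, 0, 0, 0, 0), (57, 0, 0, 0, 0), (57, 0, 0, 0, 0), (84, 0, 0, 0, 0), (84, 0, 0, 0, 0), (85, 0, 0, 0, 0), (85, 0, 0, 0, 0), (58, 0, 0, 0, 0), (58, 0, 0, 0, 0), (59, 0, 0, 0, 0), (59, 0, 0, 0, 0), (60, 0, 0, 0, 0), (60, 0, 0, 0, 0), (61, 0, 0, 0, 0), (61, 0, 0, 0, 0), (85, 0, 0, 0, 0), (85, 0, 0, 0,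 0), (86, 0, 0, 0, 0), (86, 0, 0, 0, 0), (62, 0, 0, 0, 0), (62, 0, 0, 0, 0), (63, 0, 0, 0, 0), (63, 0, 0, 0, 0), (64, 0, 0, 0, 0), (64, 0, 0, 0, 0), (65, 0, 0, 0, 0), (65, 0, 0, 0, 0), (86, 0, 0, 0, 0), (86, 0, 0, 0, 0), (66, 0, 0, 0, 0), (67, 0, 0, 0, 0), (66, 0, 0, 0, 0), (68, 0, 0, 0, 0), (67, 0, 0, 0, 0), (68, 0, 0, 0, 0), (69, 0, 0, 0, 0), (70, 0, 0, 0, 0), (69, 0, 0, 0, 0), (68, 0, 0, 0, 0), (70, 0, 0, 0, 0), (68, 0, 0, 0, 0), (71, 0, 0, 0, 0), (70, 0, 0, 0, 0), (71, 0, 0, 0, 0), (67, 0, 0, 0, 0), (70, 0, 0, 0, 0), (67, 0, 0, 0, 0), (71, 0, 0, 0, 0), (69, 0, 0, 0, 0), (71, 0, 0, 0, 0), (66, 0, 0, 0, 0), (69, 0, 0, 0, 0), (66, 0, 0, 0, 0)],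
  [(52, 0, 0, 0, 0), (51, 0, 0, 0, 0), (52, 0, 0, 0, 0), (53, 0, 0, 0, 0), (51, 0, 0, 0, 0), (53, 0, 0, 0, 0), (49, 0, 0, 0, 0), (48, 0, 0, 0, 0), (49, 0, 0, 0, 0), (53, 0, 0, 0, 0), (48, 0, 0, 0, 0), (53, 0, 0, 0, 0), (50, 0, 0, 0, 0), (48, 0, 0, 0, 0), (50, 0, 0, 0, 0), (51, 0, 0, 0, 0), (48, 0, 0, 0, 0), (51, 0, 0, 0, 0), (50, 0, 0, 0, 0), (49, 0, 0, 0, 0), (50, 0, 0, 0, 0), (52, 0, 0, 0, 0), (49, 0, 0, 0, 0), (52, 0, 0, 0, 0), (87, 0, 0, 0, 0), (87, 0, 0, 0, 0), (57, 0, 0, 0, 0), (57, 0, 0, 0, 0), (56, 0, 0, 0, 0), (56, 0, 0, 0, 0), (55, 0, 0, 0, 0), (55, 0, 0, 0, 0), (54, 0, 0, 0, 0), (54, 0, 0, 0, 0), (87, 0, 0, 0, 0), (87, 0, 0, 0, 0), (88, 0, 0, 0, 0), (88, 0, 0, 0, 0), (61, 0, 0, 0, 0), (61, 0, 0, 0, 0), (60, 0, 0, 0, 0), (60, 0, 0, 0, 0), (59, 0, 0, 0, 0), (59, 0, 0, 0, 0), (58, 0, 0, 0, 0), (58, 0, 0, 0, 0), (88, 0, 0, 0, 0), (88, 0, 0, 0,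 0), (89, 0, 0, 0, 0), (89, 0, 0, 0, 0), (65, 0, 0, 0, 0), (65, 0, 0, 0, 0), (64, 0, 0, 0, 0), (64, 0, 0, 0, 0), (63, 0, 0, 0, 0), (63, 0, 0, 0, 0), (62, 0, 0, 0, 0), (62, 0, 0, 0, 0), (89, 0, 0, 0, 0), (89, 0, 0, 0, 0), (70, 0, 0, 0, 0), (69, 0, 0, 0, 0), (70, 0, 0, 0, 0), (71, 0, 0, 0, 0), (69, 0, 0, 0, 0), (71, 0, 0, 0, 0), (67, 0, 0, 0, 0), (66, 0, 0, 0, 0), (67, 0, 0, 0, 0), (71, 0, 0, 0, 0), (66, 0, 0, 0, 0), (71, 0, 0, 0, 0), (68, 0, 0, 0, 0), (66, 0, 0, 0, 0), (68, 0, 0, 0, 0), (69, 0, 0, 0, 0), (66, 0, 0, 0, 0), (69, 0, 0, 0, 0), (68, 0, 0, 0, 0), (67, 0, 0, 0, 0), (68, 0, 0, 0, 0), (70, 0, 0, 0, 0), (67, 0, 0, 0, 0), (70, 0, 0, 0, 0)]]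

theorem tr24 : trK keys lk24 kl24 = true := by
  decide +kernel

theorem x24_0 : expB 3 5 dg2 dg5 m24_0 (l24_0 ++ z24_0) w24_0 = true := by
  decide +kernel

theorem x24_1 : expB 3 5 dg2 dg5 m24_1 (l24_1 ++ z24_1) w24_1 = true := by
  decide +kernel

theorem x24_2 : expB 3 5 dg2 dg5 m24_2 (l24_2 ++ z24_2) w24_2 = true := by
  decide +kernel

theorem x24_3 : expB 3 5 dg2 dg5 m24_3 (l24_3 ++ z24_3) w24_3 = true := by
  decide +kernel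

theorem x24_4 : expB 3 5 dg2 dg5 m24_4 (l24_4 ++ z24_4) w24_4 = true := by
  decide +kernel

theorem t24_0_0 : chkS lk24 3 5 [(1, m24_0)] l24_0
  [(20, 33, 258, 103026771, 101975346), (24, 528, 528, 34891056, 52696656), (24, 528, 528, 34887216, 36968016), (23, 528, 528, 34887216, 36968016), (27, 528, 528, 34891056, 52696656), (12, 18, 18, 55640676, 22045251), (23, 528, 528, 34891056, 52696656), (27, 528, 528, 34887216, 36968016), (12, 18, 18, 55648356, 22045506), (12, 18, 18, 87429156, 73421106), (12, 18, 18, 87425316, 73421091), (14, 18, 18, 86380596, 73405746), (21, 33, 258, 87298146, 23351346), (28, 18, 18, 55837026, 22306851), (11, 18, 18, 54592101, 17130051), (28, 18, 18, 55840866, 22306866), (11, 18, 18, 54599781, 17130306), (13, 33, 258, 69537891, 21366066), (28, 33, 258, 55836966, 5529891), (23, 513, 513, 34887171, 36963921), (12, 33, 258, 55640646,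 5333571), (44, 528, 528, 51733056, 54616656), (41, 528, 528, 50684481, 54616581), (29, 33, 258, 56951076, 88105251), (28, 33, 258, 55840806, 5529906), (23, 513, 513, 34891011, 52692561), (12, 33, 258, 55648326, 5333826), (44, 528, 528, 51717696, 37839696), (41, 528, 528, 50669121, 37839621), (29, 33, 258, 56954916, 88105266), (11, 18, 18, 70586406, 4608306), (11, 18, 18, 70582566, 4608291), (13, 18, 18, 69537846, 4592946), (12, 33, 258, 87429186, 73486386), (12, 33, 258, 87425346, 73486371), (14, 33, 258, 86380611, 73467186), (41, 18, 18, 73732146, 88477746), (29, 18, 18, 56951106, 88170531), (27, 18, 18, 55836966, 5529891), (41, 18, 18, 73728306, 88477731), (29, 18, 18, 56954946, 88170546), (27, 18, 18, 55840806, 5529906), (25, 528, 528, 34891056, 52696656), (26, 528, 528, 34891056, 52696656), (26, 528, 528, 34887216, 36968016), (22, 528, 528, 34891056,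 52696656), (9, 33, 258, 40177731, 88147506), (19, 528, 528, 35017776, 70391376), (22, 528, 528, 34887216, 36968016), (9, 33, 258, 40173891, 88147491), (19, 528, 528, 35013936, 69408336), (19, 288, 288, 19096896, 52512096), (19, 288, 288, 19093056, 36783456), (18, 18, 18, 38998116, 22038066), (35, 18, 18, 55840866, 22306866), (2, 528, 528, 19162371, 52692321), (28, 513, 513, 101983491, 103023441), (16, 33, 258, 5317446, 5317446), (28, 513, 513, 101995011, 104071761), (16, 33, 258, 5321286, 5321286), (16, 288, 288, 2188611, 52495686), (16, 288, 288, 2184771, 36767046), (2, 288, 288, 34825536, 52512336), (40, 18, 18, 40177716, 88086066), (40, 18, 18, 40173876, 88086051), (34, 18, 18, 39063606, 5510706), (5, 513, 513, 101929986, 103956561), (16, 513, 513, 84288531, 73532181), (19, 513, 513, 85337091, 73532241), (5, 513, 513, 101926146, 102973521), (16, 513,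 513, 84296211, 73597461), (19, 513, 513, 85344771, 73597521), (33, 33, 258, 88215651, 23397426), (33, 33, 258, 88211811, 23397411), (39, 33, 258, 72552486, 5652786), (11, 33, 258, 54592086, 1401411), (39, 33, 258, 72548646, 5652771), (11, 33, 258, 54599766, 1401666), (11, 33, 258, 70586466, 21385266), (11, 33, 258, 70582626, 21385251), (41, 33, 258, 73732131, 88473906), (27, 33, 258, 55837026, 22306851), (41, 33, 258, 73728291, 88473891), (27, 33, 258, 55840866, 22306866), (35, 33, 258, 55840806, 5529906), (38, 33, 258, 55840806, 5529906), (38, 33, 258, 55836966, 5529891), (28, 33, 258, 40112181, 84153906), (11, 18, 18, 40177731, 88147506), (16, 513, 513, 33969171, 70387221), (28, 33, 258, 40108341, 84153891), (11, 18, 18, 40173891, 88147491), (16, 513, 513, 33965331, 69404181), (39, 33, 258, 40046661, 83969586), (39, 33, 258, 40042821, 83969571), (2,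 513, 513, 19162416, 52696416), (25, 513, 513, 34891011, 52692561), (22, 528, 528, 101983536, 103027536), (19, 513, 513, 35017731, 70387281), (22, 528, 528, 101995056, 104075856), (19, 513, 513, 35013891, 69404241), (18, 33, 258, 38998086, 5326386), (42, 528, 528, 85206576, 40112976), (28, 528, 528, 101983536, 103027536), (39, 528, 528, 100869441, 102843141), (4, 528, 528, 101926176, 102973776), (7, 18, 18, 40173891, 88147491), (15, 528, 528, 67446321, 38146821), (42, 528, 528, 85221936, 56889936), (28, 528, 528, 101995056, 104075856), (39, 528, 528, 100880961, 103891461), (4, 528, 528, 101930016, 103956816), (7, 18, 18, 40177731, 88147506), (15, 528, 528, 67461681, 54923781), (40, 33, 258, 40177731, 88147506), (40, 33, 258, 40173891, 88147491), (34, 33, 258, 39063651, 22283826), (16, 258, 33, 2188596, 52434246), (16, 258, 33, 2184756, 36705606), (2, 258,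 33, 34825476, 52446801), (5, 528, 528, 101930016, 103956816), (19, 528, 528, 85337136, 73536336), (16, 528, 528, 84288561, 73536261), (5, 528, 528, 101926176, 102973776), (19, 528, 528, 85344816, 73601616), (16, 528, 528, 84296241, 73601541), (38, 18, 18, 55840866, 22306866), (38, 18, 18, 55837026, 22306851), (11, 513, 513, 102847491, 103941441), (39, 513, 513, 100869396, 102777621), (11, 513, 513, 102843651, 102958401), (39, 513, 513, 100880916, 103825941), (39, 18, 18, 40046676, 84952626), (39, 18, 18, 40042836, 84952611), (7, 513, 513, 101929986, 103956561), (15, 513, 513, 67446291, 38142741), (7, 513, 513, 101926146, 102973521), (15, 513, 513, 67461651, 54919701), (26, 513, 513, 34891011, 52692561), (26, 513, 513, 34887171, 36963921), (15, 18, 18, 56954946, 88170546), (40, 288, 288, 102827091, 101844291), (15, 18, 18, 56951106, 88170531), (40, 288,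 288, 102842451, 101909826), (19, 258, 33, 19096836, 52446561), (19, 258, 33, 19092996, 36717921), (7, 528, 528, 101930016, 103956816), (16, 18, 18, 5317476, 22029126), (7, 528, 528, 101926176, 102973776), (16, 18, 18, 5321316, 22032966)]
  [(2, 384), (4, -576), (7, 1152), (9, 192), (11, -1152), (12, -384), (13, -480), (14, -384), (15, 768), (16, 768), (18, 672), (19, 1536), (20, 480), (21, 384), (22, -384), (23, 1536), (24, 384), (25, -384), (26, -192), (27, -768), (28, -192), (29, -1152), (33, 192), (34, -192), (35, -480), (38, -384), (39, 960), (40, -768), (41, -1152), (42, -960), (44, 576)] = true := by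
  decide +kernel

theorem t24_0_1 : chkS lk24 3 5 [(1, m24_0)] l24_1
  [(24, 528, 528, 34891056, 52696656), (20, 33, 258, 103026771, 101975346), (24, 528, 528, 34887216, 36968016), (27, 528, 528, 34891056, 52696656), (23, 528, 528, 34887216, 36968016), (12, 18, 18, 55640676, 22045251), (27, 528, 528, 34887216, 36968016), (23, 528, 528, 34891056, 52696656), (12, 18, 18, 55648356, 22045506), (12, 18, 18, 87425316, 73421091), (12, 18, 18, 87429156, 73421106), (14, 18, 18, 86380596, 73405746), (33, 33, 258, 88215651, 23397426), (33, 33, 258, 88211811, 23397411), (11, 18, 18, 54592101, 17130051), (28, 18, 18, 55837026, 22306851), (11, 18, 18, 54599781, 17130306), (28, 18, 18, 55840866, 22306866), (11, 33, 258, 70586466, 21385266), (11, 33, 258, 70582626, 21385251), (39, 33, 258, 72552486, 5652786), (11, 33, 258, 54592086, 1401411), (12, 33, 258, 55640646,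 5333571), (23, 513, 513, 34887171, 36963921), (41, 528, 528, 50684481, 54616581), (44, 528, 528, 51733056, 54616656), (41, 33, 258, 73732131, 88473906), (27, 33, 258, 55837026, 22306851), (39, 33, 258, 72548646, 5652771), (11, 33, 258, 54599766, 1401666), (12, 33, 258, 55648326, 5333826), (23, 513, 513, 34891011, 52692561), (41, 528, 528, 50669121, 37839621), (44, 528, 528, 51717696, 37839696), (41, 33, 258, 73728291, 88473891), (27, 33, 258, 55840866, 22306866), (11, 18, 18, 70582566, 4608291), (11, 18, 18, 70586406, 4608306), (13, 18, 18, 69537846, 4592946), (12, 33, 258, 87425346, 73486371), (12, 33, 258, 87429186, 73486386), (14, 33, 258, 86380611, 73467186), (29, 18, 18, 56951106, 88170531), (41, 18, 18, 73732146, 88477746), (27, 18, 18, 55836966, 5529891), (29, 18, 18, 56954946, 88170546), (41, 18, 18, 73728306, 88477731), (27, 18, 18, 55840806,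 5529906), (26, 528, 528, 34891056, 52696656), (25, 528, 528, 34891056, 52696656), (26, 528, 528, 34887216, 36968016), (9, 33, 258, 40177731, 88147506), (22, 528, 528, 34891056, 52696656), (19, 528, 528, 35017776, 70391376), (9, 33, 258, 40173891, 88147491), (22, 528, 528, 34887216, 36968016), (19, 528, 528, 35013936, 69408336), (19, 288, 288, 19093056, 36783456), (19, 288, 288, 19096896, 52512096), (18, 18, 18, 38998116, 22038066), (38, 18, 18, 55840866, 22306866), (38, 18, 18, 55837026, 22306851), (39, 18, 18, 40046676, 84952626), (39, 18, 18, 40042836, 84952611), (11, 513, 513, 102847491, 103941441), (39, 513, 513, 100869396, 102777621), (7, 513, 513, 101929986, 103956561), (15, 513, 513, 67446291, 38142741), (11, 513, 513, 102843651, 102958401), (39, 513, 513, 100880916, 103825941), (7, 513, 513, 101926146, 102973521), (15, 513, 513, 67461651, 54919701),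 (16, 288, 288, 2184771, 36767046), (16, 288, 288, 2188611, 52495686), (2, 288, 288, 34825536, 52512336), (40, 18, 18, 40173876, 88086051), (40, 18, 18, 40177716, 88086066), (34, 18, 18, 39063606, 5510706), (16, 513, 513, 84288531, 73532181), (5, 513, 513, 101929986, 103956561), (19, 513, 513, 85337091, 73532241), (16, 513, 513, 84296211, 73597461), (5, 513, 513, 101926146, 102973521), (19, 513, 513, 85344771, 73597521), (21, 33, 258, 87298146, 23351346), (28, 33, 258, 55836966, 5529891), (28, 33, 258, 55840806, 5529906), (13, 33, 258, 69537891, 21366066), (29, 33, 258, 56951076, 88105251), (29, 33, 258, 56954916, 88105266), (38, 33, 258, 55840806, 5529906), (35, 33, 258, 55840806, 5529906), (38, 33, 258, 55836966, 5529891), (11, 18, 18, 40177731, 88147506), (28, 33, 258, 40112181, 84153906), (16, 513, 513, 33969171, 70387221), (11, 18, 18, 40173891, 88147491),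 (28, 33, 258, 40108341, 84153891), (16, 513, 513, 33965331, 69404181), (39, 33, 258, 40042821, 83969571), (39, 33, 258, 40046661, 83969586), (2, 513, 513, 19162416, 52696416), (26, 513, 513, 34891011, 52692561), (26, 513, 513, 34887171, 36963921), (19, 513, 513, 35017731, 70387281), (22, 528, 528, 101983536, 103027536), (19, 513, 513, 35013891, 69404241), (22, 528, 528, 101995056, 104075856), (19, 258, 33, 19096836, 52446561), (19, 258, 33, 19092996, 36717921), (15, 18, 18, 56954946, 88170546), (40, 288, 288, 102827091, 101844291), (39, 528, 528, 100869441, 102843141), (28, 528, 528, 101983536, 103027536), (7, 18, 18, 40173891, 88147491), (4, 528, 528, 101926176, 102973776), (7, 528, 528, 101930016, 103956816), (16, 18, 18, 5317476, 22029126), (15, 18, 18, 56951106, 88170531), (40, 288, 288, 102842451, 101909826), (39, 528, 528, 100880961, 103891461),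 (28, 528, 528, 101995056, 104075856), (7, 18, 18, 40177731, 88147506), (4, 528, 528, 101930016, 103956816), (7, 528, 528, 101926176, 102973776), (16, 18, 18, 5321316, 22032966), (40, 33, 258, 40173891, 88147491), (40, 33, 258, 40177731, 88147506), (34, 33, 258, 39063651, 22283826), (16, 258, 33, 2184756, 36705606), (16, 258, 33, 2188596, 52434246), (2, 258, 33, 34825476, 52446801), (19, 528, 528, 85337136, 73536336), (5, 528, 528, 101930016, 103956816), (16, 528, 528, 84288561, 73536261), (19, 528, 528, 85344816, 73601616), (5, 528, 528, 101926176, 102973776), (16, 528, 528, 84296241, 73601541), (35, 18, 18, 55840866, 22306866), (28, 513, 513, 101983491, 103023441), (28, 513, 513, 101995011, 104071761), (2, 528, 528, 19162371, 52692321), (16, 33, 258, 5317446, 5317446), (16, 33, 258, 5321286, 5321286), (25, 513, 513, 34891011, 52692561), (42, 528, 528,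 85206576, 40112976), (42, 528, 528, 85221936, 56889936), (18, 33, 258, 38998086, 5326386), (15, 528, 528, 67446321, 38146821), (15, 528, 528, 67461681, 54923781)]
  [(2, 96), (4, 288), (5, 288), (7, 576), (9, 192), (11, -576), (12, 480), (13, -192), (14, -96), (15, -96), (16, 480), (18, 384), (19, 1248), (20, 192), (21, 96), (22, 480), (23, 96), (24, 672), (25, -96), (26, -480), (27, -192), (28, -192), (29, -864), (33, 480), (34, -192), (35, -192), (38, -672), (39, 384), (40, -1056), (41, -864), (42, -384), (44, -288)] = true := by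
  decide +kernel

theorem t24_0_2 : chkS lk24 3 5 [(1, m24_0)] l24_2
  [(22, 528, 528, 34887216, 36968016), (19, 288, 288, 19096896, 52512096), (22, 528, 528, 34891056, 52696656), (19, 288, 288, 19093056, 36783456), (9, 33, 258, 40177731, 88147506), (9, 33, 258, 40173891, 88147491), (25, 528, 528, 34891056, 52696656), (18, 18, 18, 38998116, 22038066), (26, 528, 528, 34891056, 52696656), (19, 528, 528, 35013936, 69408336), (26, 528, 528, 34887216, 36968016), (19, 528, 528, 35017776, 70391376), (35, 18, 18, 55840866, 22306866), (2, 528, 528, 19162371, 52692321), (28, 513, 513, 101983491, 103023441), (16, 33, 258, 5317446, 5317446), (28, 513, 513, 101995011, 104071761), (16, 33, 258, 5321286, 5321286), (5, 513, 513, 101929986, 103956561), (5, 513, 513, 101926146, 102973521), (40, 18, 18, 40177716, 88086066), (16, 513, 513, 84296211, 73597461), (40, 18, 18,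 40173876, 88086051), (16, 513, 513, 84288531, 73532181), (16, 288, 288, 2188611, 52495686), (19, 513, 513, 85344771, 73597521), (16, 288, 288, 2184771, 36767046), (19, 513, 513, 85337091, 73532241), (2, 288, 288, 34825536, 52512336), (34, 18, 18, 39063606, 5510706), (23, 528, 528, 34891056, 52696656), (12, 18, 18, 87429156, 73421106), (23, 528, 528, 34887216, 36968016), (12, 18, 18, 87425316, 73421091), (27, 528, 528, 34891056, 52696656), (27, 528, 528, 34887216, 36968016), (20, 33, 258, 103026771, 101975346), (14, 18, 18, 86380596, 73405746), (24, 528, 528, 34891056, 52696656), (12, 18, 18, 55648356, 22045506), (24, 528, 528, 34887216, 36968016), (12, 18, 18, 55640676, 22045251), (21, 33, 258, 87298146, 23351346), (13, 33, 258, 69537891, 21366066), (28, 33, 258, 55836966, 5529891), (29, 33, 258, 56951076, 88105251), (28, 33, 258, 55840806, 5529906),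 (29, 33, 258, 56954916, 88105266), (41, 18, 18, 73732146, 88477746), (41, 18, 18, 73728306, 88477731), (12, 33, 258, 87429186, 73486386), (29, 18, 18, 56954946, 88170546), (12, 33, 258, 87425346, 73486371), (29, 18, 18, 56951106, 88170531), (11, 18, 18, 70586406, 4608306), (27, 18, 18, 55840806, 5529906), (11, 18, 18, 70582566, 4608291), (27, 18, 18, 55836966, 5529891), (13, 18, 18, 69537846, 4592946), (14, 33, 258, 86380611, 73467186), (28, 33, 258, 40108341, 84153891), (39, 33, 258, 40046661, 83969586), (28, 33, 258, 40112181, 84153906), (39, 33, 258, 40042821, 83969571), (11, 18, 18, 40177731, 88147506), (11, 18, 18, 40173891, 88147491), (35, 33, 258, 55840806, 5529906), (2, 513, 513, 19162416, 52696416), (38, 33, 258, 55840806, 5529906), (16, 513, 513, 33965331, 69404181), (38, 33, 258, 55836966, 5529891), (16, 513, 513, 33969171, 70387221), (25,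 513, 513, 34891011, 52692561), (18, 33, 258, 38998086, 5326386), (42, 528, 528, 85206576, 40112976), (15, 528, 528, 67446321, 38146821), (42, 528, 528, 85221936, 56889936), (15, 528, 528, 67461681, 54923781), (5, 528, 528, 101930016, 103956816), (5, 528, 528, 101926176, 102973776), (16, 258, 33, 2188596, 52434246), (19, 528, 528, 85344816, 73601616), (16, 258, 33, 2184756, 36705606), (19, 528, 528, 85337136, 73536336), (40, 33, 258, 40177731, 88147506), (16, 528, 528, 84296241, 73601541), (40, 33, 258, 40173891, 88147491), (16, 528, 528, 84288561, 73536261), (34, 33, 258, 39063651, 22283826), (2, 258, 33, 34825476, 52446801), (39, 33, 258, 72552486, 5652786), (39, 33, 258, 72548646, 5652771), (33, 33, 258, 88215651, 23397426), (11, 33, 258, 54599766, 1401666), (33, 33, 258, 88211811, 23397411), (11, 33, 258, 54592086, 1401411), (41, 33, 258, 73732131,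 88473906), (41, 33, 258, 73728291, 88473891), (11, 33, 258, 70586466, 21385266), (27, 33, 258, 55840866, 22306866), (11, 33, 258, 70582626, 21385251), (27, 33, 258, 55837026, 22306851), (15, 18, 18, 56954946, 88170546), (15, 18, 18, 56951106, 88170531), (26, 513, 513, 34891011, 52692561), (40, 288, 288, 102842451, 101909826), (26, 513, 513, 34887171, 36963921), (40, 288, 288, 102827091, 101844291), (7, 528, 528, 101930016, 103956816), (7, 528, 528, 101926176, 102973776), (19, 288, 288, 86389056, 73479456), (16, 18, 18, 5321316, 22032966), (19, 288, 288, 86381376, 73475376), (16, 18, 18, 5317476, 22029126), (11, 513, 513, 102847491, 103941441), (11, 513, 513, 102843651, 102958401), (38, 18, 18, 55840866, 22306866), (39, 513, 513, 100880916, 103825941), (38, 18, 18, 55837026, 22306851), (39, 513, 513, 100869396, 102777621), (7, 513, 513, 101929986, 103956561),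 (7, 513, 513, 101926146, 102973521), (39, 18, 18, 40046676, 84952626), (15, 513, 513, 67461651, 54919701), (39, 18, 18, 40042836, 84952611), (15, 513, 513, 67446291, 38142741)]
  [(2, -96), (5, -576), (7, 576), (9, 384), (11, -576), (12, 384), (13, -96), (14, 96), (15, 384), (16, -768), (18, 480), (19, 768), (20, 96), (21, -96), (22, 384), (23, 192), (24, 192), (25, 96), (26, 192), (27, 192), (28, -384), (33, -192), (34, -384), (35, -96), (38, -192), (39, 192), (40, -960), (42, -192)] = true := by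
  decide +kernel

theorem t24_0_3 : chkS lk24 3 5 [(1, m24_0)] l24_3
  [(9, 528, 528, 19220016, 37950816), (9, 528, 528, 19227696, 54662496), (10, 528, 528, 19289136, 70391136), (3, 258, 33, 101860101, 100869201), (12, 528, 528, 19285296, 69408096), (12, 528, 528, 19289136, 70391136), (11, 18, 18, 90243651, 90243651), (11, 18, 18, 90251331, 90243906), (16, 528, 528, 20333826, 69423201), (16, 528, 528, 20337666, 70406241), (5, 513, 513, 51725826, 37970001), (40, 18, 18, 88158726, 6632001), (12, 513, 513, 102843651, 102958401), (41, 288, 288, 19218531, 21169506), (5, 513, 513, 51733506, 54681681), (40, 18, 18, 88154886, 6628161), (12, 513, 513, 102847491, 103941441), (41, 288, 288, 19203171, 21103971), (6, 513, 513, 51794946, 70410321), (31, 18, 18, 90439971, 90439971), (31, 18, 18, 90443811, 90439986), (30, 18, 18, 90439986, 90443811), (30, 18, 18, 90443826,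 90443826), (36, 18, 18, 90443826, 90443826), (11, 33, 258, 90243636, 90182211), (11, 33, 258, 90251316, 90182466), (13, 18, 18, 56954946, 88170546), (2, 513, 513, 50619666, 52715541), (16, 513, 513, 20333856, 69423456), (16, 513, 513, 20337696, 70406496), (9, 513, 513, 19219971, 37946721), (9, 513, 513, 19227651, 54658401), (12, 513, 513, 19285251, 69404001), (12, 513, 513, 19289091, 70387041), (5, 528, 528, 51725856, 37970256), (29, 528, 528, 68494896, 38146896), (16, 528, 528, 103892226, 102977601), (41, 258, 33, 19218486, 4396386), (5, 528, 528, 51733536, 54681936), (29, 528, 528, 68510256, 54923856), (16, 528, 528, 103896066, 103960641), (41, 258, 33, 19203126, 4330851), (6, 528, 528, 51794976, 70410576), (30, 33, 258, 90439971, 90439971), (30, 33, 258, 90443811, 90439986), (31, 33, 258, 90439986, 90443811), (31, 33, 258, 90443826, 90443826), (36,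 33, 258, 90443811, 90439986), (40, 33, 258, 21308256, 21308256), (40, 33, 258, 21312096, 21312096), (2, 528, 528, 67331361, 52838661), (3, 288, 288, 35013456, 68363856), (29, 513, 513, 85206531, 40108881), (29, 513, 513, 85221891, 56885841), (29, 528, 528, 85221936, 56889936), (29, 528, 528, 85206576, 40112976), (40, 18, 18, 21312006, 4534881), (40, 18, 18, 21308166, 4531041), (5, 528, 528, 85156896, 56770896), (9, 33, 258, 23404611, 88146786), (11, 18, 18, 23404611, 88146786), (5, 513, 513, 85156866, 56770641), (5, 528, 528, 85149216, 40059216), (9, 33, 258, 23396931, 88146531), (11, 18, 18, 23396931, 88146531), (5, 513, 513, 85149186, 40058961), (8, 528, 528, 51794976, 70410576), (30, 528, 528, 85221936, 56889936), (30, 528, 528, 85206576, 40112976), (43, 528, 528, 87318546, 56905746), (43, 528, 528, 87295506, 40128531), (8, 513, 513, 51794946, 70410321)]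
  [(2, -672), (3, 96), (5, 576), (6, -576), (8, 1440), (9, 2112), (10, 672), (11, 192), (12, 768), (13, -96), (16, -768), (29, -960), (30, 192), (31, -1536), (36, -864), (40, -1344), (41, -576), (43, 1344)] = true := by
  decide +kernel

theorem t24_0_4 : chkS lk24 3 5 [(1, m24_0)] l24_4
  [(10, 528, 528, 19289136, 70391136), (9, 528, 528, 19227696, 54662496), (9, 528, 528, 19220016, 37950816), (12, 528, 528, 19285296, 69408096), (3, 258, 33, 101860101, 100869201), (12, 528, 528, 19289136, 70391136), (16, 528, 528, 20333826, 69423201), (11, 18, 18, 90243651, 90243651), (16, 528, 528, 20337666, 70406241), (11, 18, 18, 90251331, 90243906), (12, 513, 513, 102843651, 102958401), (5, 513, 513, 51725826, 37970001), (41, 288, 288, 19218531, 21169506), (40, 18, 18, 88158726, 6632001), (12, 513, 513, 102847491, 103941441), (5, 513, 513, 51733506, 54681681), (41,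 288, 288, 19203171, 21103971), (40, 18, 18, 88154886, 6628161), (31, 18, 18, 90443811, 90439986), (31, 18, 18, 90439971, 90439971), (6, 513, 513, 51794946, 70410321), (30, 18, 18, 90443826, 90443826), (30, 18, 18, 90439986, 90443811), (36, 18, 18, 90443826, 90443826), (13, 18, 18, 56954946, 88170546), (11, 33, 258, 90251316, 90182466), (11, 33, 258, 90243636, 90182211), (16, 513, 513, 20333856, 69423456), (2, 513, 513, 50619666, 52715541), (16, 513, 513, 20337696, 70406496), (12, 513, 513, 19285251, 69404001), (9, 513, 513, 19219971, 37946721), (12, 513, 513, 19289091, 70387041), (9, 513, 513, 19227651, 54658401), (16, 528, 528, 103892226, 102977601), (5, 528, 528, 51725856, 37970256), (41, 258, 33, 19218486, 4396386), (29, 528, 528, 68494896, 38146896), (16, 528, 528, 103896066, 103960641), (5, 528, 528, 51733536, 54681936), (41, 258, 33, 19203126, 4330851),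 (29, 528, 528, 68510256, 54923856), (30, 33, 258, 90443811, 90439986), (30, 33, 258, 90439971, 90439971), (6, 528, 528, 51794976, 70410576), (31, 33, 258, 90443826, 90443826), (31, 33, 258, 90439986, 90443811), (36, 33, 258, 90443811, 90439986), (2, 528, 528, 67331361, 52838661), (40, 33, 258, 21312096, 21312096), (40, 33, 258, 21308256, 21308256), (29, 513, 513, 85206531, 40108881), (3, 288, 288, 35013456, 68363856), (29, 513, 513, 85221891, 56885841), (40, 18, 18, 21312006, 4534881), (29, 528, 528, 85221936, 56889936), (40, 18, 18, 21308166, 4531041), (29, 528, 528, 85206576, 40112976), (11, 18, 18, 23404611, 88146786), (5, 528, 528, 85156896, 56770896), (5, 513, 513, 85156866, 56770641), (9, 33, 258, 23404611, 88146786), (11, 18, 18, 23396931, 88146531), (5, 528, 528, 85149216, 40059216), (5, 513, 513, 85149186, 40058961), (9, 33, 258, 23396931, 88146531),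 (30, 528, 528, 85206576, 40112976), (30, 528, 528, 85221936, 56889936), (8, 528, 528, 51794976, 70410576), (43, 528, 528, 87295506, 40128531), (43, 528, 528, 87318546, 56905746), (8, 513, 513, 51794946, 70410321)]
  [(2, -768), (3, -96), (5, -576), (6, -864), (8, 1440), (9, 768), (10, 768), (11, -192), (12, 2112), (13, 96), (16, 768), (29, -1920), (30, -192), (31, -1344), (36, -576), (40, -1536), (41, 576), (43, 1536)] = true := by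
  decide +kernel

theorem t24_1_1 : chkS lk24 3 5 [(1, m24_1)] l24_1
  [(20, 33, 258, 102842451, 101909826), (24, 528, 528, 35013936, 69408336), (24, 528, 528, 34948656, 37951056), (23, 528, 528, 34948656, 37951056), (27, 528, 528, 35013936, 69408336), (12, 18, 18, 55579236, 22045236), (12, 18, 18, 87056676, 56643876), (12, 18, 18, 87121956, 56643906), (14, 18, 18, 86073396, 56628546), (27, 528, 528, 34948656, 37951056), (23, 528, 528, 35013936, 69408336), (12, 18, 18, 55709796, 22045746), (21, 33, 258, 87113826, 23285826), (33, 33, 258, 88088931, 23397156), (11, 18, 18, 54530661, 17130036), (39, 18, 18, 72429666, 22425666), (13, 33, 258, 69292131, 20317506), (11, 33, 258, 70340706, 20336706), (28, 18, 18, 55656546, 22241346), (39, 18, 18, 72364386, 22425636), (28, 33, 258, 55591206, 5464356), (11, 33, 258, 54530646, 1401396), (12, 33, 258, 55579206,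 5333556), (27, 513, 513, 35013891, 69404241), (29, 33, 258, 56643876, 87056676), (41, 33, 258, 73486371, 87425346), (44, 528, 528, 51794496, 70345296), (41, 513, 513, 50484756, 36725781), (11, 18, 18, 70275366, 3559716), (13, 18, 18, 69292086, 3544386), (14, 33, 258, 86073411, 56689986), (12, 33, 258, 87121986, 56709186), (27, 18, 18, 55591206, 5464356), (41, 18, 18, 73486386, 87429186), (41, 18, 18, 73421106, 87429156), (29, 18, 18, 56709186, 87121986), (39, 33, 258, 72364326, 5648676), (28, 33, 258, 55656486, 5464386), (11, 33, 258, 54661206, 1401906), (27, 513, 513, 34948611, 37946961), (23, 513, 513, 35013891, 69404241), (12, 33, 258, 55709766, 5334066), (41, 513, 513, 50745876, 70279701), (44, 528, 528, 51533376, 36791376), (41, 528, 528, 50484801, 36791301), (27, 33, 258, 55656546, 22241346), (41, 33, 258, 73421091, 87425316), (29, 33, 258, 56709156,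 87056706), (25, 528, 528, 35013936, 69408336), (26, 528, 528, 35013936, 69408336), (26, 528, 528, 34948656, 37951056), (22, 528, 528, 35013936, 69408336), (9, 33, 258, 39931971, 87098946), (19, 528, 528, 34956336, 54662736), (19, 288, 288, 19215936, 37827936), (19, 288, 288, 19281216, 69285216), (18, 18, 18, 38875236, 22033986), (9, 33, 258, 39866691, 87098916), (22, 528, 528, 34948656, 37951056), (19, 528, 528, 34891056, 52696656), (35, 18, 18, 55656546, 22241346), (38, 18, 18, 55591266, 22241316), (28, 18, 18, 39862611, 85132836), (11, 33, 258, 39866676, 87037476), (28, 513, 513, 101860611, 102958161), (39, 513, 513, 100807956, 102773781), (4, 513, 513, 101987586, 103034961), (7, 33, 258, 39866676, 87037476), (16, 288, 288, 2430531, 37815606), (2, 288, 288, 35009856, 69285456), (5, 513, 513, 101987586, 103034961), (16, 513, 513, 84173331, 56885781),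 (11, 513, 513, 103027971, 103023921), (28, 513, 513, 102056451, 105054801), (39, 513, 513, 101003796, 104870421), (15, 33, 258, 56643876, 87056676), (42, 513, 513, 85344771, 73597521), (40, 258, 33, 103026741, 100930866), (7, 33, 258, 39931956, 87037506), (4, 513, 513, 102052866, 105001041), (5, 33, 258, 39931971, 87098946), (15, 513, 513, 67523091, 70648341), (7, 513, 513, 101987586, 103034961), (16, 33, 258, 5444166, 5325366), (33, 33, 258, 88154211, 23397186), (39, 33, 258, 72429606, 5648706), (11, 18, 18, 70340646, 3559746), (11, 18, 18, 54661221, 17130546), (41, 528, 528, 50745921, 70345221), (27, 18, 18, 55656486, 5464386), (35, 33, 258, 55656486, 5464386), (38, 33, 258, 55656486, 5464386), (38, 33, 258, 55591206, 5464356), (28, 33, 258, 39927861, 84088386), (11, 18, 18, 39931971, 87098946), (16, 513, 513, 33907731, 54658581), (39, 33, 258, 39858501,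 83965476), (39, 33, 258, 39923781, 83965506), (2, 513, 513, 19285296, 69408096), (11, 18, 18, 39866691, 87098916), (28, 33, 258, 39862581, 84088356), (16, 513, 513, 33842451, 52692501), (25, 513, 513, 35013891, 69404241), (26, 513, 513, 34948611, 37946961), (19, 513, 513, 34956291, 54658641), (9, 18, 18, 39931956, 87037506), (18, 33, 258, 38875206, 5322306), (19, 258, 33, 19281156, 69219681), (22, 528, 528, 102056496, 105058896), (9, 18, 18, 39866676, 87037476), (42, 528, 528, 85083696, 40047696), (40, 288, 288, 102765651, 101844276), (39, 528, 528, 100808001, 102839301), (11, 528, 528, 103093296, 104994096), (15, 528, 528, 67262001, 37098501), (7, 528, 528, 102052896, 105001296), (4, 528, 528, 101987616, 103035216), (5, 18, 18, 39866676, 87037476), (40, 33, 258, 39866691, 87098916), (34, 33, 258, 38879331, 22218306), (2, 258, 33, 35009796, 69219921),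 (16, 258, 33, 2495796, 69211446), (16, 528, 528, 84042801, 56759301), (5, 528, 528, 102052896, 105001296), (5, 528, 528, 101987616, 103035216), (19, 528, 528, 85221936, 56889936), (15, 18, 18, 56643906, 87121956), (42, 528, 528, 85344816, 73601616), (40, 288, 288, 103026771, 101975346), (11, 528, 528, 103028016, 103028016), (28, 528, 528, 102056496, 105058896), (39, 528, 528, 101003841, 104935941), (5, 18, 18, 39931956, 87037506), (4, 528, 528, 102052896, 105001296), (7, 18, 18, 39931971, 87098946), (16, 18, 18, 5444196, 22037046), (7, 528, 528, 101987616, 103035216), (15, 528, 528, 67523121, 70652421), (38, 18, 18, 55656546, 22241346), (11, 513, 513, 103093251, 104990001), (16, 288, 288, 2495811, 69272886), (16, 528, 528, 33842481, 52696581), (5, 33, 258, 39866691, 87098916), (19, 513, 513, 85221891, 56885841), (26, 513, 513, 35013891, 69404241), (15,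 18, 18, 56709186, 87121986), (40, 33, 258, 39931971, 87098946), (19, 513, 513, 34891011, 52692561), (7, 18, 18, 39866691, 87098916), (16, 528, 528, 84173361, 56889861)]
  [(2, -480), (4, 576), (5, 1152), (7, 576), (9, 768), (11, 576), (12, 768), (13, 384), (14, 480), (15, -528), (16, 192), (18, -48), (19, 1104), (20, 336), (21, 240), (22, 624), (23, 96), (24, 528), (25, -240), (26, -336), (27, -480), (28, -192), (29, -288), (33, 336), (34, -336), (35, -336), (38, -528), (39, -1056), (40, -1056), (41, -1728), (42, -528), (44, -576)] = true := by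
  decide +kernel

theorem t24_1_2 : chkS lk24 3 5 [(1, m24_1)] l24_2
  [(19, 288, 288, 19281216, 69285216), (22, 528, 528, 34948656, 37951056), (9, 33, 258, 39931971, 87098946), (9, 33, 258, 39866691, 87098916), (22, 528, 528, 35013936, 69408336), (19, 288, 288, 19215936, 37827936), (26, 528, 528, 35013936, 69408336), (19, 528, 528, 34891056, 52696656), (25, 528, 528, 35013936, 69408336), (18, 18, 18, 38875236, 22033986), (26, 528, 528, 34948656, 37951056), (19, 528, 528, 34956336, 54662736), (38, 18, 18, 55656546, 22241346), (16, 528, 528, 33842481, 52696581), (11, 513, 513, 103093251, 104990001), (5, 33, 258, 39866691, 87098916), (16, 288, 288, 2495811, 69272886), (19, 513, 513, 85221891, 56885841), (4, 513, 513, 102052866, 105001041), (7, 513, 513, 101987586, 103034961), (42, 513, 513, 85344771, 73597521), (15, 513, 513, 67523091, 70648341), (15, 33,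 258, 56643876, 87056676), (7, 33, 258, 39931956, 87037506), (28, 513, 513, 102056451, 105054801), (16, 33, 258, 5444166, 5325366), (11, 513, 513, 103027971, 103023921), (5, 33, 258, 39931971, 87098946), (39, 513, 513, 101003796, 104870421), (40, 258, 33, 103026741, 100930866), (12, 18, 18, 87121956, 56643906), (23, 528, 528, 35013936, 69408336), (27, 528, 528, 35013936, 69408336), (27, 528, 528, 34948656, 37951056), (23, 528, 528, 34948656, 37951056), (12, 18, 18, 87056676, 56643876), (24, 528, 528, 35013936, 69408336), (12, 18, 18, 55709796, 22045746), (20, 33, 258, 102842451, 101909826), (14, 18, 18, 86073396, 56628546), (24, 528, 528, 34948656, 37951056), (12, 18, 18, 55579236, 22045236), (33, 33, 258, 88154211, 23397186), (11, 18, 18, 54661221, 17130546), (39, 33, 258, 72429606, 5648706), (41, 528, 528, 50745921, 70345221), (11, 18, 18, 70340646,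 3559746), (27, 18, 18, 55656486, 5464386), (44, 528, 528, 51533376, 36791376), (41, 33, 258, 73421091, 87425316), (23, 513, 513, 35013891, 69404241), (27, 33, 258, 55656546, 22241346), (27, 513, 513, 34948611, 37946961), (41, 513, 513, 50745876, 70279701), (28, 33, 258, 55656486, 5464386), (29, 33, 258, 56709156, 87056706), (39, 33, 258, 72364326, 5648676), (41, 528, 528, 50484801, 36791301), (11, 33, 258, 54661206, 1401906), (12, 33, 258, 55709766, 5334066), (39, 33, 258, 39923781, 83965506), (28, 33, 258, 39862581, 84088356), (11, 18, 18, 39931971, 87098946), (11, 18, 18, 39866691, 87098916), (28, 33, 258, 39927861, 84088386), (39, 33, 258, 39858501, 83965476), (38, 33, 258, 55656486, 5464386), (16, 513, 513, 33842451, 52692501), (35, 33, 258, 55656486, 5464386), (2, 513, 513, 19285296, 69408096), (38, 33, 258, 55591206, 5464356), (16, 513, 513, 33907731,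 54658581), (26, 513, 513, 35013891, 69404241), (19, 513, 513, 34891011, 52692561), (15, 18, 18, 56709186, 87121986), (7, 18, 18, 39866691, 87098916), (40, 33, 258, 39931971, 87098946), (16, 528, 528, 84173361, 56889861), (4, 528, 528, 102052896, 105001296), (7, 528, 528, 101987616, 103035216), (28, 528, 528, 102056496, 105058896), (16, 18, 18, 5444196, 22037046), (11, 528, 528, 103028016, 103028016), (5, 18, 18, 39931956, 87037506), (42, 528, 528, 85344816, 73601616), (15, 528, 528, 67523121, 70652421), (15, 18, 18, 56643906, 87121956), (7, 18, 18, 39931971, 87098946), (40, 288, 288, 103026771, 101975346), (39, 528, 528, 101003841, 104935941), (28, 33, 258, 55591206, 5464356), (11, 18, 18, 70275366, 3559716), (21, 33, 258, 87113826, 23285826), (13, 18, 18, 69292086, 3544386), (33, 33, 258, 88088931, 23397156), (11, 33, 258, 54530646, 1401396), (44, 528,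 528, 51794496, 70345296), (41, 18, 18, 73421106, 87429156), (28, 18, 18, 55656546, 22241346), (29, 18, 18, 56709186, 87121986), (39, 18, 18, 72364386, 22425636), (41, 513, 513, 50484756, 36725781), (42, 528, 528, 85083696, 40047696), (40, 33, 258, 39866691, 87098916), (25, 513, 513, 35013891, 69404241), (34, 33, 258, 38879331, 22218306), (26, 513, 513, 34948611, 37946961), (40, 288, 288, 102765651, 101844276), (4, 528, 528, 101987616, 103035216), (5, 528, 528, 101987616, 103035216), (22, 528, 528, 102056496, 105058896), (19, 528, 528, 85221936, 56889936), (9, 18, 18, 39866676, 87037476), (5, 18, 18, 39866676, 87037476), (28, 513, 513, 101860611, 102958161), (16, 288, 288, 2430531, 37815606), (35, 18, 18, 55656546, 22241346), (2, 288, 288, 35009856, 69285456), (38, 18, 18, 55591266, 22241316), (39, 513, 513, 100807956, 102773781), (4, 513, 513, 101987586,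 103034961), (5, 513, 513, 101987586, 103034961), (28, 18, 18, 39862611, 85132836), (16, 513, 513, 84173331, 56885781), (11, 33, 258, 39866676, 87037476), (7, 33, 258, 39866676, 87037476)]
  [(2, -96), (5, 288), (7, -288), (9, 672), (11, -576), (12, 384), (13, -96), (14, 96), (15, -768), (16, 96), (18, 192), (19, 1344), (20, 96), (21, -96), (22, 672), (23, 192), (24, 192), (25, 96), (26, 192), (27, 192), (28, -384), (33, -192), (34, -96), (35, -96), (38, -192), (39, -672), (40, -672), (42, -480), (44, 0)] = true := by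
  decide +kernel

theorem t24_1_3 : chkS lk24 3 5 [(1, m24_1)] l24_3
  [(9, 528, 528, 19158576, 36967776), (10, 528, 528, 19227696, 54662496), (9, 528, 528, 19289136, 70391136), (12, 528, 528, 19162416, 52696416), (3, 258, 33, 101982981, 100934481), (12, 528, 528, 19227696, 54662496), (11, 18, 18, 90182211, 90243636), (13, 33, 258, 56709156, 87056706), (2, 528, 528, 50742561, 69427461), (16, 528, 528, 20276226, 54677601), (5, 513, 513, 51664386, 36986961), (16, 513, 513, 104076576, 103043376), (29, 513, 513, 68310531, 37094481), (41, 288, 288, 19157091, 20186466), (6, 513, 513, 51733506, 54681681), (31, 18, 18, 90194211, 90374436), (30, 18, 18, 90259506, 90378306), (36, 18, 18, 90259506, 90378306), (5, 513, 513, 51794946, 70410321), (40, 18, 18, 88216326, 6628401), (16, 513, 513, 104141856, 105009456), (29, 513, 513, 68571651, 70648401), (12, 513, 513,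 103093251, 104990001), (41, 288, 288, 18895971, 20055396), (11, 33, 258, 90182196, 90182196), (13, 18, 18, 56709186, 87121986), (11, 33, 258, 90312756, 90182706), (16, 513, 513, 20210976, 52711776), (2, 513, 513, 50742546, 69427221), (16, 513, 513, 20276256, 54677856), (9, 513, 513, 19158531, 36963681), (10, 513, 513, 19227651, 54658401), (3, 288, 288, 101983056, 101983056), (12, 513, 513, 19227651, 54658401), (5, 528, 528, 51664416, 36987216), (12, 528, 528, 103028016, 103028016), (40, 33, 258, 88281696, 23413296), (41, 258, 33, 19157046, 3413346), (6, 528, 528, 51733536, 54681936), (30, 33, 258, 90194211, 90374436), (31, 33, 258, 90259506, 90378306), (36, 33, 258, 90259491, 90374466), (5, 528, 528, 51794976, 70410576), (29, 528, 528, 68571696, 70652496), (12, 528, 528, 103093296, 104994096), (40, 33, 258, 88216416, 23405616), (16, 528, 528, 104141826,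 105009201), (41, 258, 33, 18895926, 3282276), (40, 33, 258, 21123936, 20259936), (2, 528, 528, 67515681, 69611781), (40, 33, 258, 21189216, 20267616), (29, 513, 513, 85083651, 40043601), (3, 288, 288, 34890576, 51652176), (29, 513, 513, 85344771, 73597521), (29, 528, 528, 85344816, 73601616), (3, 258, 33, 34890501, 50603601), (2, 513, 513, 67515666, 69611541), (40, 18, 18, 21123846, 3482721), (5, 528, 528, 85341216, 73544016), (9, 18, 18, 23220276, 87037026), (11, 33, 258, 23220276, 87037026), (5, 513, 513, 85341186, 73543761), (8, 528, 528, 51733536, 54681936), (30, 528, 528, 85344816, 73601616), (43, 528, 528, 87049746, 40062996), (8, 513, 513, 51733506, 54681681), (5, 528, 528, 85210656, 40120656), (9, 33, 258, 23089731, 87097956), (9, 18, 18, 23089716, 87036516), (11, 33, 258, 23089716, 87036516), (11, 18, 18, 23089731, 87097956), (5, 513, 513, 85210626,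 40120401)]
  [(2, -960), (3, -192), (5, 1152), (6, 288), (9, 3264), (10, 960), (11, 1344), (12, 768), (13, 192), (16, -768), (29, -2112), (30, 192), (31, -96), (36, -288), (40, -2496), (41, -1152), (43, -96)] = true := by
  decide +kernel

theorem t24_1_4 : chkS lk24 3 5 [(1, m24_1)] l24_4
  [(9, 528, 528, 19289136, 70391136), (10, 528, 528, 19227696, 54662496), (9, 528, 528, 19158576, 36967776), (3, 258, 33, 101982981, 100934481), (12, 528, 528, 19162416, 52696416), (12, 528, 528, 19227696, 54662496), (2, 528, 528, 50742561, 69427461), (11, 18, 18, 90182211, 90243636), (16, 528, 528, 20276226, 54677601), (13, 33, 258, 56709156, 87056706), (29, 513, 513, 68310531, 37094481), (5, 513, 513, 51664386, 36986961), (41, 288, 288, 19157091, 20186466), (16, 513, 513, 104076576, 103043376), (30, 18, 18, 90259506, 90378306), (6, 513, 513, 51733506, 54681681), (36,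 18, 18, 90259506, 90378306), (31, 18, 18, 90194211, 90374436), (16, 513, 513, 104141856, 105009456), (40, 18, 18, 88216326, 6628401), (5, 513, 513, 51794946, 70410321), (12, 513, 513, 103093251, 104990001), (29, 513, 513, 68571651, 70648401), (41, 288, 288, 18895971, 20055396), (11, 33, 258, 90312756, 90182706), (13, 18, 18, 56709186, 87121986), (11, 33, 258, 90182196, 90182196), (2, 513, 513, 50742546, 69427221), (16, 513, 513, 20210976, 52711776), (16, 513, 513, 20276256, 54677856), (3, 288, 288, 101983056, 101983056), (9, 513, 513, 19158531, 36963681), (12, 513, 513, 19227651, 54658401), (10, 513, 513, 19227651, 54658401), (40, 33, 258, 88281696, 23413296), (5, 528, 528, 51664416, 36987216), (41, 258, 33, 19157046, 3413346), (12, 528, 528, 103028016, 103028016), (31, 33, 258, 90259506, 90378306), (6, 528, 528, 51733536, 54681936), (36, 33, 258, 90259491,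 90374466), (30, 33, 258, 90194211, 90374436), (12, 528, 528, 103093296, 104994096), (29, 528, 528, 68571696, 70652496), (5, 528, 528, 51794976, 70410576), (16, 528, 528, 104141826, 105009201), (40, 33, 258, 88216416, 23405616), (41, 258, 33, 18895926, 3282276), (40, 33, 258, 21189216, 20267616), (2, 528, 528, 67515681, 69611781), (40, 33, 258, 21123936, 20259936), (3, 288, 288, 34890576, 51652176), (29, 513, 513, 85083651, 40043601), (29, 513, 513, 85344771, 73597521), (2, 513, 513, 67515666, 69611541), (29, 528, 528, 85344816, 73601616), (40, 18, 18, 21123846, 3482721), (3, 258, 33, 34890501, 50603601), (11, 33, 258, 23220276, 87037026), (5, 528, 528, 85341216, 73544016), (5, 513, 513, 85341186, 73543761), (9, 18, 18, 23220276, 87037026), (43, 528, 528, 87049746, 40062996), (8, 528, 528, 51733536, 54681936), (8, 513, 513, 51733506, 54681681), (30, 528,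 528, 85344816, 73601616), (9, 18, 18, 23089716, 87036516), (9, 33, 258, 23089731, 87097956), (5, 528, 528, 85210656, 40120656), (11, 18, 18, 23089731, 87097956), (11, 33, 258, 23089716, 87036516), (5, 513, 513, 85210626, 40120401)]
  [(2, -480), (3, 192), (5, 288), (6, -288), (9, 2496), (10, 480), (11, 1536), (12, 672), (13, -192), (16, -672), (29, -2208), (30, -192), (31, 96), (36, 288), (40, -1824), (41, -288), (43, 96)] = true := by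
  decide +kernel

theorem t24_2_2 : chkS lk24 3 5 [(1, m24_2)] l24_2
  [(20, 513, 513, 103043331, 104072481), (14, 258, 33, 86388996, 73413921), (23, 288, 288, 34879056, 34879056), (12, 258, 33, 87433476, 73421601), (12, 258, 33, 55665156, 55599681), (24, 288, 288, 34879056, 34879056), (23, 288, 288, 34878816, 19150416), (12, 258, 33, 87433236, 73421586), (12, 258, 33, 55664676, 55599426), (24, 288, 288, 34878816, 19150416), (27, 288, 288, 34879056, 34879056), (27, 288, 288, 34878816, 19150416), (28, 513, 513, 55844886, 5530386), (29, 513, 513, 56958996, 88105746), (28, 513, 513, 55845126, 5530401), (29, 513, 513, 56959236, 88105761), (21, 513, 513, 87318786, 56905761), (13, 513, 513, 69558531, 54920481), (29, 258, 33, 56967426, 88301601), (12, 513, 513, 87441666, 73617441), (29, 258, 33, 56967186, 88301586), (12, 513, 513, 87441426, 73617426), (41, 258,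 33, 73740546, 88485921), (41, 258, 33, 73740306, 88485906), (13, 258, 33, 69546246, 4601121), (14, 513, 513, 86393091, 73598241), (11, 258, 33, 70590726, 4608801), (27, 258, 33, 55845126, 5530401), (11, 258, 33, 70590486, 4608786), (27, 258, 33, 55844886, 5530386), (25, 288, 288, 34879056, 34879056), (18, 258, 33, 39018756, 55592481), (22, 288, 288, 34878816, 19150416), (19, 528, 528, 19088976, 34817376), (19, 288, 288, 35009616, 68302416), (26, 288, 288, 34879056, 34879056), (22, 288, 288, 34879056, 34879056), (19, 528, 528, 19088736, 19088736), (19, 288, 288, 35009856, 69285456), (26, 288, 288, 34878816, 19150416), (9, 513, 513, 40190211, 88278561), (9, 513, 513, 40189971, 88278546), (28, 33, 258, 101974611, 101974611), (16, 513, 513, 5325366, 5444166), (28, 33, 258, 101975331, 103022931), (16, 513, 513, 5325606, 5448006), (35, 258, 33, 55861506, 55861281),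 (2, 288, 288, 19138131, 34866531), (16, 33, 258, 84284451, 73531701), (40, 258, 33, 40186116, 88094241), (16, 33, 258, 84283971, 73466421), (40, 258, 33, 40185876, 88094226), (5, 33, 258, 101909826, 102842451), (5, 33, 258, 101909586, 101859411), (2, 528, 528, 34817616, 34817616), (34, 258, 33, 39072006, 5518881), (16, 528, 528, 2180691, 34800966), (19, 33, 258, 85328931, 73531731), (16, 528, 528, 2180451, 19072326), (19, 33, 258, 85328451, 73466451), (25, 33, 258, 34866771, 34866771), (34, 513, 513, 39084291, 55838241), (42, 288, 288, 85210656, 40120656), (40, 513, 513, 40190211, 88278561), (40, 528, 528, 102847491, 103941441), (26, 33, 258, 34866771, 34866771), (42, 288, 288, 85209696, 23343696), (40, 513, 513, 40189971, 88278546), (40, 528, 528, 102846531, 103875906), (26, 33, 258, 34866531, 19138131), (15, 258, 33, 56967426, 88301601), (15, 258, 33,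 56967186, 88301586), (28, 513, 513, 40120581, 84162081), (16, 288, 288, 84292161, 73478661), (28, 513, 513, 40120341, 84162066), (16, 288, 288, 84292641, 73543941), (35, 513, 513, 55845126, 5530401), (2, 18, 18, 34801236, 34621011), (16, 258, 33, 5333796, 55583046), (19, 528, 528, 86393616, 73606416), (16, 258, 33, 5333556, 55579206), (19, 528, 528, 86393136, 73602336), (7, 288, 288, 101918016, 102843216), (7, 288, 288, 101917776, 101860176), (2, 33, 258, 19150416, 34878816), (18, 513, 513, 39010566, 5457441), (39, 513, 513, 40059141, 84100641), (15, 288, 288, 67450401, 38154501), (39, 513, 513, 40058901, 84100626), (15, 288, 288, 67449441, 21377541), (39, 33, 258, 100865316, 102777141), (38, 258, 33, 55861506, 55861281), (39, 33, 258, 100864596, 101728821), (38, 258, 33, 55861266, 55861266), (11, 33, 258, 102827331, 102827331), (11, 33, 258, 102827091,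 101844291), (15, 33, 258, 67442211, 38142261), (39, 258, 33, 40063236, 87049761), (15, 33, 258, 67441251, 21365301), (39, 258, 33, 40062996, 87049746), (7, 33, 258, 101909826, 102842451), (7, 33, 258, 101909586, 101859411), (16, 33, 258, 33952851, 68290101), (38, 513, 513, 55845126, 5530401), (16, 33, 258, 33953091, 69273141), (38, 513, 513, 55844886, 5530386), (11, 258, 33, 40190211, 88278561), (11, 258, 33, 40189971, 88278546), (19, 288, 288, 85341216, 73544016), (16, 18, 18, 2176596, 34616646), (19, 288, 288, 85340736, 73478736), (16, 18, 18, 2176356, 18888006), (5, 288, 288, 101918016, 102843216), (5, 288, 288, 101917776, 101860176), (11, 513, 513, 54612486, 3498561), (33, 513, 513, 88236291, 56951841), (11, 513, 513, 54612006, 3498306), (33, 513, 513, 88236051, 56951826), (39, 513, 513, 72556806, 5653281), (39, 513, 513, 72556566, 5653266), (27,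 513, 513, 55861506, 55861281), (11, 513, 513, 70607106, 54939681), (27, 513, 513, 55861266, 55861266), (11, 513, 513, 70606866, 54939666), (41, 513, 513, 73736451, 88474401), (41, 513, 513, 73736211, 88474386)]
  [(2, -192), (9, 192), (11, -1152), (12, 768), (13, -192), (14, 192), (15, 192), (16, -384), (18, 96), (19, 384), (20, 192), (21, -192), (22, 192), (23, 384), (24, 384), (25, 192), (26, 384), (27, 384), (28, -768), (33, -384), (34, 96), (35, -192), (38, -384), (39, -768), (40, 384), (42, 192)] = true := by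
  decide +kernel

theorem t24_2_3 : chkS lk24 3 5 [(1, m24_2)] l24_3
  [(10, 288, 288, 19281216, 69285216), (12, 288, 288, 19281216, 69285216), (9, 288, 288, 19215936, 37827936), (12, 288, 288, 19280976, 68302176), (9, 288, 288, 19215456, 21116256), (3, 18, 18, 101844021, 100799571), (12, 33, 258, 102827091, 101844291), (41, 528, 528, 19227651, 54658401), (5, 33, 258, 51709026, 21127251), (40, 258, 33, 88146726, 6627651), (12, 33, 258, 102827331, 102827331), (41, 528, 528, 19226691, 54592866), (5, 33, 258, 51709506, 37838931), (40, 258, 33, 88146486, 6623811), (16, 288, 288, 20317506, 69292131), (16, 288, 288, 20317266, 68309091), (11, 258, 33, 90259971, 90374721), (11, 258, 33, 90259491, 90374466), (30, 258, 33, 90452226, 90452001), (30, 258, 33, 90451986, 90451986), (36, 258, 33, 90452226, 90452001), (6, 33, 258, 51774786, 69296211), (31, 258, 33, 90448131,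 90440481), (31, 258, 33, 90447891, 90440466), (3, 528, 528, 35017776, 70391376), (40, 513, 513, 21324336, 54858336), (29, 33, 258, 85197411, 23331411), (40, 513, 513, 21324576, 54862176), (29, 33, 258, 85198371, 40108371), (2, 288, 288, 67315281, 35013381), (9, 513, 513, 23413251, 88277601), (5, 288, 288, 85141056, 39928656), (5, 33, 258, 85132866, 39927891), (11, 258, 33, 23413251, 88277601), (9, 513, 513, 23412771, 88277346), (5, 288, 288, 85140576, 23216976), (5, 33, 258, 85132386, 23216211), (11, 258, 33, 23412771, 88277346), (29, 288, 288, 85210656, 40120656), (29, 288, 288, 85209696, 23343696), (40, 258, 33, 21300006, 4530531), (40, 258, 33, 21299766, 4526691), (30, 288, 288, 85210656, 40120656), (30, 288, 288, 85209696, 23343696), (8, 288, 288, 51782976, 69296976), (8, 33, 258, 51774786, 69296211), (43, 288, 288, 87299586, 40128561), (43, 288,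 288, 87298146, 23351346), (2, 33, 258, 50599506, 34889781), (11, 513, 513, 90255396, 90190146), (16, 33, 258, 20325456, 68309856), (11, 513, 513, 90255876, 90190401), (16, 33, 258, 20325696, 69292896), (13, 258, 33, 56967426, 88301601), (29, 288, 288, 68498016, 21377616), (5, 288, 288, 51717216, 21128016), (41, 18, 18, 19215366, 4339041), (16, 288, 288, 103875666, 101863491), (29, 288, 288, 68498976, 38154576), (5, 288, 288, 51717696, 37839696), (41, 18, 18, 19214406, 4273506), (16, 288, 288, 103875906, 102846531), (9, 33, 258, 19203171, 21103971), (9, 33, 258, 19203651, 37815651), (12, 33, 258, 19268691, 68289891), (12, 33, 258, 19268931, 69272931), (30, 513, 513, 90447891, 90440466), (30, 513, 513, 90448131, 90440481), (6, 288, 288, 51782976, 69296976), (36, 513, 513, 90448131, 90440481), (31, 513, 513, 90451986, 90451986), (31, 513, 513, 90452226,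 90452001)]
  [(2, -768), (3, 768), (9, 1920), (10, 768), (11, -1920), (12, 1536), (13, -768), (16, -1536), (29, 384), (30, 384), (31, -192), (40, -384), (43, -192)] = true := by
  decide +kernel

theorem t24_2_4 : chkS lk24 3 5 [(1, m24_2)] l24_4
  [(9, 288, 288, 19215936, 37827936), (12, 288, 288, 19281216, 69285216), (10, 288, 288, 19281216, 69285216), (9, 288, 288, 19215456, 21116256), (12, 288, 288, 19280976, 68302176), (3, 18, 18, 101844021, 100799571), (5, 33, 258, 51709026, 21127251), (12, 33, 258, 102827091, 101844291), (40, 258, 33, 88146726, 6627651), (41, 528, 528, 19227651, 54658401), (5, 33, 258, 51709506, 37838931), (12, 33, 258, 102827331, 102827331), (40, 258, 33, 88146486, 6623811), (41, 528, 528, 19226691, 54592866), (11, 258, 33, 90259971, 90374721), (16, 288, 288, 20317506, 69292131), (11, 258, 33, 90259491, 90374466), (16, 288, 288,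 20317266, 68309091), (36, 258, 33, 90452226, 90452001), (30, 258, 33, 90451986, 90451986), (30, 258, 33, 90452226, 90452001), (31, 258, 33, 90448131, 90440481), (6, 33, 258, 51774786, 69296211), (31, 258, 33, 90447891, 90440466), (29, 33, 258, 85197411, 23331411), (40, 513, 513, 21324336, 54858336), (3, 528, 528, 35017776, 70391376), (29, 33, 258, 85198371, 40108371), (40, 513, 513, 21324576, 54862176), (2, 288, 288, 67315281, 35013381), (5, 33, 258, 85132866, 39927891), (9, 513, 513, 23413251, 88277601), (11, 258, 33, 23413251, 88277601), (5, 288, 288, 85141056, 39928656), (5, 33, 258, 85132386, 23216211), (9, 513, 513, 23412771, 88277346), (11, 258, 33, 23412771, 88277346), (5, 288, 288, 85140576, 23216976), (40, 258, 33, 21300006, 4530531), (29, 288, 288, 85210656, 40120656), (40, 258, 33, 21299766, 4526691), (29, 288, 288, 85209696, 23343696), (8,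 288, 288, 51782976, 69296976), (30, 288, 288, 85209696, 23343696), (30, 288, 288, 85210656, 40120656), (43, 288, 288, 87299586, 40128561), (8, 33, 258, 51774786, 69296211), (43, 288, 288, 87298146, 23351346), (16, 33, 258, 20325456, 68309856), (11, 513, 513, 90255396, 90190146), (2, 33, 258, 50599506, 34889781), (16, 33, 258, 20325696, 69292896), (11, 513, 513, 90255876, 90190401), (13, 258, 33, 56967426, 88301601), (41, 18, 18, 19215366, 4339041), (29, 288, 288, 68498016, 21377616), (16, 288, 288, 103875666, 101863491), (5, 288, 288, 51717216, 21128016), (41, 18, 18, 19214406, 4273506), (29, 288, 288, 68498976, 38154576), (16, 288, 288, 103875906, 102846531), (5, 288, 288, 51717696, 37839696), (12, 33, 258, 19268691, 68289891), (9, 33, 258, 19203171, 21103971), (12, 33, 258, 19268931, 69272931), (9, 33, 258, 19203651, 37815651), (6, 288, 288, 51782976,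 69296976), (30, 513, 513, 90448131, 90440481), (30, 513, 513, 90447891, 90440466), (31, 513, 513, 90451986, 90451986), (36, 513, 513, 90448131, 90440481), (31, 513, 513, 90452226, 90452001)]
  [(2, -672), (3, 672), (9, 960), (10, 672), (11, -960), (12, 1344), (13, -672), (16, -1344), (29, -384), (30, -384), (31, 192), (40, 384), (43, 192)] = true := by
  decide +kernel

theorem t24_3_3 : chkS lk24 3 5 [(1, m24_3)] l24_3
  [(0, 258, 33, 106111236, 105923361), (24, 258, 33, 105062661, 101008161), (24, 258, 33, 105001221, 101004321), (24, 258, 33, 105062421, 101008146), (24, 258, 33, 105000981, 101004306), (32, 528, 528, 35017776, 70391376), (14, 33, 258, 103875666, 101863491), (27, 18, 18, 104862291, 102040116), (19, 513, 513, 56770581, 84108306), (34, 18, 18, 104923986, 102047811), (14, 33, 258, 103875906, 102846531), (27, 18, 18, 104863011, 103088436),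 (19, 513, 513, 56770821, 84108321), (34, 18, 18, 104924466, 103092291), (19, 33, 258, 56627781, 83976756), (19, 33, 258, 56628261, 84042036), (27, 258, 33, 105009411, 104137761), (27, 258, 33, 105009171, 104137746), (19, 33, 258, 56689221, 83976771), (19, 33, 258, 56689701, 84042051), (34, 258, 33, 105197826, 105197601), (14, 513, 513, 104153346, 105074721), (27, 258, 33, 105193731, 105186081), (27, 258, 33, 105193491, 105186066), (1, 33, 258, 70321746, 35016771), (26, 33, 258, 104862261, 100995636), (26, 33, 258, 104923701, 100995651), (26, 33, 258, 104862501, 100999476), (26, 33, 258, 104923941, 100999491), (17, 258, 33, 56967426, 88301601), (10, 528, 528, 102056496, 105058896), (9, 288, 288, 85141056, 39928656), (12, 513, 513, 23282181, 84099681), (3, 33, 258, 103035216, 101987616), (10, 528, 528, 102056736, 105062736), (9, 288, 288, 85140576, 23216976),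 (12, 513, 513, 23281701, 84099426), (3, 33, 258, 103036176, 103036176), (12, 528, 528, 101995296, 104079696), (12, 528, 528, 101995056, 104075856), (37, 288, 288, 101930016, 103956816), (37, 288, 288, 101929536, 103891536), (12, 528, 528, 102056736, 105062736), (12, 528, 528, 102056496, 105058896), (3, 18, 18, 39851061, 84022836), (18, 513, 513, 56770821, 84108321), (37, 288, 288, 102052896, 105001296), (37, 288, 288, 102052416, 104936016), (17, 18, 18, 56689986, 86073411), (26, 513, 513, 105000981, 101004306), (26, 513, 513, 105062421, 101008146), (26, 513, 513, 105001221, 101004321), (26, 513, 513, 105062661, 101008161), (1, 513, 513, 70668546, 70668321), (3, 258, 33, 40120581, 84162081), (12, 288, 288, 101917776, 101860176), (37, 528, 528, 101860176, 101917776), (18, 33, 258, 56689701, 84042051), (3, 258, 33, 40120341, 84162066), (12, 288, 288, 101918016,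 102843216), (37, 528, 528, 101860656, 102962256), (18, 33, 258, 56689221, 83976771), (9, 528, 528, 85345056, 73605456), (9, 528, 528, 85344816, 73601616), (12, 33, 258, 23200821, 84022371), (12, 33, 258, 23200581, 83960931), (9, 528, 528, 85222176, 56893776), (9, 528, 528, 85221936, 56889936), (10, 288, 288, 101918016, 102843216), (3, 513, 513, 103093296, 104994096), (12, 33, 258, 23077941, 84022116), (12, 33, 258, 23077701, 83960676)]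
  [(0, 768), (1, -672), (3, 576), (9, 2112), (10, 1152), (12, 1536), (14, -576), (17, -768), (18, -288), (19, -1344), (24, 2880), (26, -2880), (27, -1536), (32, 672), (34, -864), (37, -768)] = true := by
  decide +kernel

theorem t24_3_4 : chkS lk24 3 5 [(1, m24_3)] l24_4
  [(24, 258, 33, 105001221, 101004321), (24, 258, 33, 105062661, 101008161), (0, 258, 33, 106111236, 105923361), (24, 258, 33, 105000981, 101004306), (24, 258, 33, 105062421, 101008146), (32, 528, 528, 35017776, 70391376), (19, 513, 513, 56770581, 84108306), (14, 33, 258, 103875666, 101863491), (34, 18, 18, 104923986, 102047811), (27, 18, 18, 104862291, 102040116), (19, 513, 513, 56770821, 84108321), (14, 33, 258, 103875906, 102846531), (34, 18, 18, 104924466, 103092291), (27, 18, 18, 104863011, 103088436), (27, 258, 33, 105009411, 104137761), (19, 33, 258, 56627781, 83976756), (27,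 258, 33, 105009171, 104137746), (19, 33, 258, 56628261, 84042036), (34, 258, 33, 105197826, 105197601), (19, 33, 258, 56689701, 84042051), (19, 33, 258, 56689221, 83976771), (27, 258, 33, 105193731, 105186081), (14, 513, 513, 104153346, 105074721), (27, 258, 33, 105193491, 105186066), (26, 33, 258, 104923701, 100995651), (26, 33, 258, 104862261, 100995636), (1, 33, 258, 70321746, 35016771), (26, 33, 258, 104923941, 100999491), (26, 33, 258, 104862501, 100999476), (17, 258, 33, 56967426, 88301601), (12, 513, 513, 23282181, 84099681), (10, 528, 528, 102056496, 105058896), (3, 33, 258, 103035216, 101987616), (9, 288, 288, 85141056, 39928656), (12, 513, 513, 23281701, 84099426), (10, 528, 528, 102056736, 105062736), (3, 33, 258, 103036176, 103036176), (9, 288, 288, 85140576, 23216976), (37, 288, 288, 101930016, 103956816), (12, 528, 528, 101995296, 104079696),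 (37, 288, 288, 101929536, 103891536), (12, 528, 528, 101995056, 104075856), (3, 18, 18, 39851061, 84022836), (12, 528, 528, 102056496, 105058896), (12, 528, 528, 102056736, 105062736), (37, 288, 288, 102052896, 105001296), (18, 513, 513, 56770821, 84108321), (37, 288, 288, 102052416, 104936016), (26, 513, 513, 105062421, 101008146), (26, 513, 513, 105000981, 101004306), (17, 18, 18, 56689986, 86073411), (26, 513, 513, 105062661, 101008161), (26, 513, 513, 105001221, 101004321), (1, 513, 513, 70668546, 70668321), (37, 528, 528, 101860176, 101917776), (3, 258, 33, 40120581, 84162081), (18, 33, 258, 56689701, 84042051), (12, 288, 288, 101917776, 101860176), (37, 528, 528, 101860656, 102962256), (3, 258, 33, 40120341, 84162066), (18, 33, 258, 56689221, 83976771), (12, 288, 288, 101918016, 102843216), (12, 33, 258, 23200821, 84022371), (9, 528, 528, 85345056,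 73605456), (12, 33, 258, 23200581, 83960931), (9, 528, 528, 85344816, 73601616), (10, 288, 288, 101918016, 102843216), (9, 528, 528, 85221936, 56889936), (9, 528, 528, 85222176, 56893776), (12, 33, 258, 23077941, 84022116), (3, 513, 513, 103093296, 104994096), (12, 33, 258, 23077701, 83960676)]
  [(0, 672), (1, -768), (3, 864), (9, 768), (10, 288), (12, 1344), (14, -864), (17, -672), (18, 288), (19, -1536), (24, 2880), (26, -2880), (27, -1344), (32, 768), (34, -576), (37, 768)] = true := by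
  decide +kernel

theorem t24_4_4 : chkS lk24 3 5 [(1, m24_4)] l24_4
  [(0, 258, 33, 105984516, 105919041), (24, 258, 33, 104932101, 101000001), (24, 258, 33, 104935941, 101003841), (24, 258, 33, 104870421, 101003796), (32, 528, 528, 34891056, 52696656), (24, 258, 33, 104866581, 100999956), (19, 513, 513, 56640021, 84107796), (27, 18, 18, 104989011, 102040611), (19, 513, 513, 56632341, 84042516), (27, 18, 18, 104992851, 102040626), (14, 513, 513, 103892226, 102977601), (19, 33, 258, 56754501, 83977251), (27, 258, 33, 104867091, 103088916), (34, 258, 33, 104936706, 103100481), (14, 513, 513, 103896066, 103960641), (19, 33, 258, 56758341, 83977266), (27, 258, 33, 104878611, 104137236), (34, 258, 33, 104944386, 104144961), (27, 18, 18, 105189411, 105185586), (27, 18, 18, 105185571, 105185571), (14, 33, 258, 104140866, 104943666), (19, 513, 513, 56697861,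 84042561), (19, 513, 513, 56705541, 84107841), (34, 18, 18, 105189426, 105189426), (1, 33, 258, 70651986, 68571186), (26, 33, 258, 104992821, 100996146), (26, 33, 258, 104988981, 100996131), (26, 33, 258, 105054501, 101007651), (17, 258, 33, 56710146, 87187521), (26, 33, 258, 105058341, 101007666), (12, 513, 513, 23216901, 84092001), (9, 288, 288, 85340736, 73478736), (12, 513, 513, 23213061, 84030561), (9, 288, 288, 85336896, 73474896), (18, 513, 513, 56705541, 84107841), (12, 528, 528, 101926176, 102973776), (37, 288, 288, 101856576, 102839376), (3, 18, 18, 40112181, 84153906), (18, 513, 513, 56697861, 84042561), (12, 528, 528, 101930016, 103956816), (37, 288, 288, 101864256, 103883856), (3, 18, 18, 40108341, 84153891), (9, 288, 288, 85205856, 23339856), (9, 288, 288, 85209696, 23343696), (10, 528, 528, 101930016, 103956816), (12, 513, 513, 23082021,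 84029796), (12, 513, 513, 23085861, 84091236), (3, 33, 258, 103105296, 105063696), (17, 18, 18, 56954946, 88170546), (26, 513, 513, 104870421, 101003796), (26, 513, 513, 104866581, 100999956), (26, 513, 513, 104932101, 101000001), (1, 513, 513, 70345986, 52842561), (26, 513, 513, 104935941, 101003841), (37, 528, 528, 101925456, 101925456), (12, 288, 288, 101986896, 101986896), (37, 528, 528, 101917776, 101860176), (12, 288, 288, 101983056, 101983056), (3, 513, 513, 103028016, 103028016), (9, 528, 528, 85156896, 56770896), (12, 33, 258, 23273541, 83968866), (10, 288, 288, 102048576, 104932176), (3, 513, 513, 103043376, 104076576), (9, 528, 528, 85149216, 40059216), (12, 33, 258, 23265861, 83968611), (10, 288, 288, 102052416, 104936016), (12, 288, 288, 102048576, 104932176), (12, 288, 288, 102052416, 104936016), (3, 258, 33, 39863061, 84092436), (37, 528,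 528, 102048816, 104993616), (37, 528, 528, 102056496, 105058896), (18, 33, 258, 56758341, 83977266)]
  [(0, 768), (1, -672), (3, 576), (9, -768), (10, -288), (12, 1536), (14, -576), (17, -768), (18, 1152), (19, -1344), (24, 2880), (26, -2880), (27, -1536), (32, 672), (34, -864), (37, 2112)] = true := by
  decide +kernel

section

variable {κ ι : Type*} [Fintype κ] [Fintype ι] [Inhabited κ] [Inhabited ι]

noncomputable def F24_0 (E : Env κ ι) : (Fin 3 → κ) → (Fin 5 → ι) → ℝ := op2 (P2 κ) (P5 ι) (fB E 3 5 m24_0)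

noncomputable def F24_1 (E : Env κ ι) : (Fin 3 → κ) → (Fin 5 → ι) → ℝ := op2 (P2 κ) (P5 ι) (fB E 3 5 m24_1)

noncomputable def F24_2 (E : Env κ ι) : (Fin 3 → κ) → (Fin 5 → ι) → ℝ := op2 (P2 κ) (P5 ι) (fB E 3 5 m24_2)

noncomputable def F24_3 (E : Env κ ι) : (Fin 3 → κ) → (Fin 5 → ι) → ℝ := op2 (P2 κ) (P5 ι) (fB E 3 5 m24_3)

noncomputable def F24_4 (E : Env κ ι) : (Fin 3 → κ) → (Fin 5 → ι) → ℝ := op2 (P2 κ) (P5 ι) (fB E 3 5 m24_4)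

def r24_0_0 : List (ℕ × ℤ) := [(2, 384), (4, -576), (7, 1152), (9, 192), (11, -1152), (12, -384), (13, -480), (14, -384), (15, 768), (16, 768), (18, 672), (19, 1536), (20, 480), (21, 384), (22, -384), (23, 1536), (24, 384), (25, -384), (26, -192), (27, -768), (28, -192), (29, -1152), (33, 192), (34, -192), (35, -480), (38, -384), (39, 960), (40, -768), (41, -1152), (42, -960), (44, 576)]

theorem h24_0_0 (E : Env κ ι) : ip (F24_0 E) (F24_0 E) = dotS (ek E lk24) r24_0_0 :=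
  op_entryZ E lk24 3 5 _ _ _ _ (pg2 κ) (pg5 ι) m24_0 m24_0 l24_0 z24_0 w24_0 x24_0 (by decide) _ (chkS_sound E lk24 3 5 _ _ _ _ t24_0_0)

def r24_0_1 : List (ℕ × ℤ) := [(2, 96), (4, 288), (5, 288), (7, 576), (9, 192), (11, -576), (12, 480), (13, -192), (14, -96), (15, -96), (16, 480), (18, 384), (19, 1248), (20, 192), (21, 96), (22, 480), (23, 96), (24, 672), (25, -96), (26, -480), (27, -192), (28, -192), (29, -864), (33, 480), (34, -192), (35, -192), (38, -672), (39, 384), (40, -1056), (41, -864), (42, -384), (44, -288)]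

theorem h24_0_1 (E : Env κ ι) : ip (F24_0 E) (F24_1 E) = dotS (ek E lk24) r24_0_1 :=
  op_entryZ E lk24 3 5 _ _ _ _ (pg2 κ) (pg5 ι) m24_0 m24_1 l24_1 z24_1 w24_1 x24_1 (by decide) _ (chkS_sound E lk24 3 5 _ _ _ _ t24_0_1)

def r24_0_2 : List (ℕ × ℤ) := [(2, -96), (5, -576), (7, 576), (9, 384), (11, -576), (12, 384), (13, -96), (14, 96), (15, 384), (16, -768), (18, 480), (19, 768), (20, 96), (21, -96), (22, 384), (23, 192), (24, 192), (25, 96), (26, 192), (27, 192), (28, -384), (33, -192), (34, -384), (35, -96), (38, -192), (39, 192), (40, -960), (42, -192)]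

theorem h24_0_2 (E : Env κ ι) : ip (F24_0 E) (F24_2 E) = dotS (ek E lk24) r24_0_2 :=
  op_entryZ E lk24 3 5 _ _ _ _ (pg2 κ) (pg5 ι) m24_0 m24_2 l24_2 z24_2 w24_2 x24_2 (by decide) _ (chkS_sound E lk24 3 5 _ _ _ _ t24_0_2)

def r24_0_3 : List (ℕ × ℤ) := [(2, -672), (3, 96), (5, 576), (6, -576), (8, 1440), (9, 2112), (10, 672), (11, 192), (12, 768), (13, -96), (16, -768), (29, -960), (30, 192), (31, -1536), (36, -864), (40, -1344), (41, -576), (43, 1344)]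

theorem h24_0_3 (E : Env κ ι) : ip (F24_0 E) (F24_3 E) = dotS (ek E lk24) r24_0_3 :=
  op_entryZ E lk24 3 5 _ _ _ _ (pg2 κ) (pg5 ι) m24_0 m24_3 l24_3 z24_3 w24_3 x24_3 (by decide) _ (chkS_sound E lk24 3 5 _ _ _ _ t24_0_3)

def r24_0_4 : List (ℕ × ℤ) := [(2, -768), (3, -96), (5, -576), (6, -864), (8, 1440), (9, 768), (10, 768), (11, -192), (12, 2112), (13, 96), (16, 768), (29, -1920), (30, -192), (31, -1344), (36, -576), (40, -1536), (41, 576), (43, 1536)]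

theorem h24_0_4 (E : Env κ ι) : ip (F24_0 E) (F24_4 E) = dotS (ek E lk24) r24_0_4 :=
  op_entryZ E lk24 3 5 _ _ _ _ (pg2 κ) (pg5 ι) m24_0 m24_4 l24_4 z24_4 w24_4 x24_4 (by decide) _ (chkS_sound E lk24 3 5 _ _ _ _ t24_0_4)

def r24_1_1 : List (ℕ × ℤ) := [(2, -480), (4, 576), (5, 1152), (7, 576), (9, 768), (11, 576), (12, 768), (13, 384), (14, 480), (15, -528), (16, 192), (18, -48), (19, 1104), (20, 336), (21, 240), (22, 624), (23, 96), (24, 528), (25, -240), (26, -336), (27, -480), (28, -192), (29, -288), (33, 336), (34, -336), (35, -336), (38, -528), (39, -1056), (40, -1056), (41, -1728), (42, -528), (44, -576)]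

theorem h24_1_1 (E : Env κ ι) : ip (F24_1 E) (F24_1 E) = dotS (ek E lk24) r24_1_1 :=
  op_entryZ E lk24 3 5 _ _ _ _ (pg2 κ) (pg5 ι) m24_1 m24_1 l24_1 z24_1 w24_1 x24_1 (by decide) _ (chkS_sound E lk24 3 5 _ _ _ _ t24_1_1)

def r24_1_2 : List (ℕ × ℤ) := [(2, -96), (5, 288), (7, -288), (9, 672), (11, -576), (12, 384), (13, -96), (14, 96), (15, -768), (16, 96), (18, 192), (19, 1344), (20, 96), (21, -96), (22, 672), (23, 192), (24, 192), (25, 96), (26, 192), (27, 192), (28, -384), (33, -192), (34, -96), (35, -96), (38, -192), (39, -672), (40, -672), (42, -480), (44, 0)]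

theorem h24_1_2 (E : Env κ ι) : ip (F24_1 E) (F24_2 E) = dotS (ek E lk24) r24_1_2 :=
  op_entryZ E lk24 3 5 _ _ _ _ (pg2 κ) (pg5 ι) m24_1 m24_2 l24_2 z24_2 w24_2 x24_2 (by decide) _ (chkS_sound E lk24 3 5 _ _ _ _ t24_1_2)

def r24_1_3 : List (ℕ × ℤ) := [(2, -960), (3, -192), (5, 1152), (6, 288), (9, 3264), (10, 960), (11, 1344), (12, 768), (13, 192), (16, -768), (29, -2112), (30, 192), (31, -96), (36, -288), (40, -2496), (41, -1152), (43, -96)]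

theorem h24_1_3 (E : Env κ ι) : ip (F24_1 E) (F24_3 E) = dotS (ek E lk24) r24_1_3 :=
  op_entryZ E lk24 3 5 _ _ _ _ (pg2 κ) (pg5 ι) m24_1 m24_3 l24_3 z24_3 w24_3 x24_3 (by decide) _ (chkS_sound E lk24 3 5 _ _ _ _ t24_1_3)

def r24_1_4 : List (ℕ × ℤ) := [(2, -480), (3, 192), (5, 288), (6, -288), (9, 2496), (10, 480), (11, 1536), (12, 672), (13, -192), (16, -672), (29, -2208), (30, -192), (31, 96), (36, 288), (40, -1824), (41, -288), (43, 96)]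

theorem h24_1_4 (E : Env κ ι) : ip (F24_1 E) (F24_4 E) = dotS (ek E lk24) r24_1_4 :=
  op_entryZ E lk24 3 5 _ _ _ _ (pg2 κ) (pg5 ι) m24_1 m24_4 l24_4 z24_4 w24_4 x24_4 (by decide) _ (chkS_sound E lk24 3 5 _ _ _ _ t24_1_4)

def r24_2_2 : List (ℕ × ℤ) := [(2, -192), (9, 192), (11, -1152), (12, 768), (13, -192), (14, 192), (15, 192), (16, -384), (18, 96), (19, 384), (20, 192), (21, -192), (22, 192), (23, 384), (24, 384), (25, 192), (26, 384), (27, 384), (28, -768), (33, -384), (34, 96), (35, -192), (38, -384), (39, -768), (40, 384), (42, 192)]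

theorem h24_2_2 (E : Env κ ι) : ip (F24_2 E) (F24_2 E) = dotS (ek E lk24) r24_2_2 :=
  op_entryZ E lk24 3 5 _ _ _ _ (pg2 κ) (pg5 ι) m24_2 m24_2 l24_2 z24_2 w24_2 x24_2 (by decide) _ (chkS_sound E lk24 3 5 _ _ _ _ t24_2_2)

def r24_2_3 : List (ℕ × ℤ) := [(2, -768), (3, 768), (9, 1920), (10, 768), (11, -1920), (12, 1536), (13, -768), (16, -1536), (29, 384), (30, 384), (31, -192), (40, -384), (43, -192)]

theorem h24_2_3 (E : Env κ ι) : ip (F24_2 E) (F24_3 E) = dotS (ek E lk24) r24_2_3 :=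
  op_entryZ E lk24 3 5 _ _ _ _ (pg2 κ) (pg5 ι) m24_2 m24_3 l24_3 z24_3 w24_3 x24_3 (by decide) _ (chkS_sound E lk24 3 5 _ _ _ _ t24_2_3)

def r24_2_4 : List (ℕ × ℤ) := [(2, -672), (3, 672), (9, 960), (10, 672), (11, -960), (12, 1344), (13, -672), (16, -1344), (29, -384), (30, -384), (31, 192), (40, 384), (43, 192)]

theorem h24_2_4 (E : Env κ ι) : ip (F24_2 E) (F24_4 E) = dotS (ek E lk24) r24_2_4 :=
  op_entryZ E lk24 3 5 _ _ _ _ (pg2 κ) (pg5 ι) m24_2 m24_4 l24_4 z24_4 w24_4 x24_4 (by decide) _ (chkS_sound E lk24 3 5 _ _ _ _ t24_2_4)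

def r24_3_3 : List (ℕ × ℤ) := [(0, 768), (1, -672), (3, 576), (9, 2112), (10, 1152), (12, 1536), (14, -576), (17, -768), (18, -288), (19, -1344), (24, 2880), (26, -2880), (27, -1536), (32, 672), (34, -864), (37, -768)]

theorem h24_3_3 (E : Env κ ι) : ip (F24_3 E) (F24_3 E) = dotS (ek E lk24) r24_3_3 :=
  op_entryZ E lk24 3 5 _ _ _ _ (pg2 κ) (pg5 ι) m24_3 m24_3 l24_3 z24_3 w24_3 x24_3 (by decide) _ (chkS_sound E lk24 3 5 _ _ _ _ t24_3_3)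

def r24_3_4 : List (ℕ × ℤ) := [(0, 672), (1, -768), (3, 864), (9, 768), (10, 288), (12, 1344), (14, -864), (17, -672), (18, 288), (19, -1536), (24, 2880), (26, -2880), (27, -1344), (32, 768), (34, -576), (37, 768)]

theorem h24_3_4 (E : Env κ ι) : ip (F24_3 E) (F24_4 E) = dotS (ek E lk24) r24_3_4 :=
  op_entryZ E lk24 3 5 _ _ _ _ (pg2 κ) (pg5 ι) m24_3 m24_4 l24_4 z24_4 w24_4 x24_4 (by decide) _ (chkS_sound E lk24 3 5 _ _ _ _ t24_3_4)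

def r24_4_4 : List (ℕ × ℤ) := [(0, 768), (1, -672), (3, 576), (9, -768), (10, -288), (12, 1536), (14, -576), (17, -768), (18, 1152), (19, -1344), (24, 2880), (26, -2880), (27, -1536), (32, 672), (34, -864), (37, 2112)]

theorem h24_4_4 (E : Env κ ι) : ip (F24_4 E) (F24_4 E) = dotS (ek E lk24) r24_4_4 :=
  op_entryZ E lk24 3 5 _ _ _ _ (pg2 κ) (pg5 ι) m24_4 m24_4 l24_4 z24_4 w24_4 x24_4 (by decide) _ (chkS_sound E lk24 3 5 _ _ _ _ t24_4_4)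

theorem row24_0 (E : Env κ ι) : RowG (ek E lk24) (F24_0 E) [F24_0 E, F24_1 E, F24_2 E, F24_3 E, F24_4 E] [r24_0_0, r24_0_1, r24_0_2, r24_0_3, r24_0_4] :=
  rowG_cons _ _ _ _ _ _ (h24_0_0 E) (rowG_cons _ _ _ _ _ _ (h24_0_1 E) (rowG_cons _ _ _ _ _ _ (h24_0_2 E) (rowG_cons _ _ _ _ _ _ (h24_0_3 E) (rowG_cons _ _ _ _ _ _ (h24_0_4 E) (rowG_nil _ _)))))

theorem row24_1 (E : Env κ ι) : RowG (ek E lk24) (F24_1 E) [F24_1 E, F24_2 E, F24_3 E, F24_4 E] [r24_1_1, r24_1_2, r24_1_3, r24_1_4] :=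
  rowG_cons _ _ _ _ _ _ (h24_1_1 E) (rowG_cons _ _ _ _ _ _ (h24_1_2 E) (rowG_cons _ _ _ _ _ _ (h24_1_3 E) (rowG_cons _ _ _ _ _ _ (h24_1_4 E) (rowG_nil _ _))))

theorem row24_2 (E : Env κ ι) : RowG (ek E lk24) (F24_2 E) [F24_2 E, F24_3 E, F24_4 E] [r24_2_2, r24_2_3, r24_2_4] :=
  rowG_cons _ _ _ _ _ _ (h24_2_2 E) (rowG_cons _ _ _ _ _ _ (h24_2_3 E) (rowG_cons _ _ _ _ _ _ (h24_2_4 E) (rowG_nil _ _)))

theorem row24_3 (E : Env κ ι) : RowG (ek E lk24) (F24_3 E) [F24_3 E, F24_4 E] [r24_3_3, r24_3_4] :=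
  rowG_cons _ _ _ _ _ _ (h24_3_3 E) (rowG_cons _ _ _ _ _ _ (h24_3_4 E) (rowG_nil _ _))

theorem row24_4 (E : Env κ ι) : RowG (ek E lk24) (F24_4 E) [F24_4 E] [r24_4_4] :=
  rowG_cons _ _ _ _ _ _ (h24_4_4 E) (rowG_nil _ _)

def tab24 : List (List (List (ℕ × ℤ))) := [[r24_0_0, r24_0_1, r24_0_2, r24_0_3, r24_0_4], [r24_1_1, r24_1_2, r24_1_3, r24_1_4], [r24_2_2, r24_2_3, r24_2_4], [r24_3_3, r24_3_4], [r24_4_4]]

theorem tri24 (E : Env κ ι) : TriG (ek E lk24) [F24_0 E, F24_1 E, F24_2 E, F24_3 E, F24_4 E] tab24 := by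
  refine triG_cons _ _ _ _ _ (row24_0 E) ?_
  refine triG_cons _ _ _ _ _ (row24_1 E) ?_
  refine triG_cons _ _ _ _ _ (row24_2 E) ?_
  refine triG_cons _ _ _ _ _ (row24_3 E) ?_
  refine triG_cons _ _ _ _ _ (row24_4 E) ?_
  exact triG_nil _

end

def lk25 : List Key := [
  (3, 7, [(0, [0], [0, 1]), (0, [0], [0, 1]), (0, [1], [2, 3]), (0, [1], [2, 3]), (0, [2], [4, 5]), (0, [2], [4, 6]), (4, [], [6]), (4, [], [5])]),
  (3, 7, [(0, [0], [0, 1]), (0, [0], [0, 1]), (0, [1], [2, 3]), (0, [2], [2, 4]), (0, [2], [5, 6]), (0, [1], [5, 6]), (4, [], [4]), (4, [], [3])]),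
  (3, 7, [(0, [0], [0, 1]), (0, [1], [0, 2]), (0, [0], [2, 3]), (0, [2], [1, 4]), (0, [1], [5, 6]), (0, [2], [5, 6]), (4, [], [3]), (4, [], [4])]),
  (3, 7, [(0, [0], [0, 1]), (0, [1], [0, 2]), (0, [0], [3, 4]), (0, [1], [3, 4]), (0, [2], [1, 5]), (0, [2], [5, 6]), (4, [], [2]), (4, [], [6])]),
  (3, 7, [(0, [0], [0, 1]), (0, [0], [0, 2]), (0, [1], [1, 2]), (4, [], [3]), (0, [2], [4, 5]), (0, [2], [4, 6]), (0, [1], [3, 6]), (4, [], [5])]),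
  (3, 7, [(0, [0], [0, 1]), (0, [0], [0, 2]), (0, [1], [1, 2]), (4, [], [3]), (0, [2], [4, 5]), (0, [2], [4, 5]), (0, [1], [3, 6]), (4, [], [6])]),
  (3, 7, [(0, [0], [0, 1]), (0, [0], [0, 2]), (0, [1], [1, 2]), (4, [], [3]), (0, [2], [4, 5]), (0, [2], [3, 6]), (0, [1], [4, 6]), (4, [], [5])]),
  (3, 7, [(0, [0], [0, 1]), (0, [0], [0, 2]), (0, [1], [1, 2]), (4, [], [3]), (0, [2], [4, 5]), (0, [2], [3, 6]), (0, [1], [4, 5]), (4, [], [6])]),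
  (3, 7, [(0, [0], [0, 1]), (0, [0], [0, 2]), (0, [1], [3, 2]), (4, [], [1]), (0, [2], [4, 5]), (0, [2], [4, 6]), (0, [1], [3, 6]), (4, [], [5])]),
  (3, 7, [(0, [0], [0, 1]), (0, [0], [0, 2]), (0, [1], [3, 2]), (4, [], [1]), (0, [2], [4, 5]), (0, [2], [4, 5]), (0, [1], [3, 6]), (4, [], [6])]),
  (3, 7, [(0, [0], [0, 1]), (0, [0], [0, 2]), (0, [1], [3, 2]), (4, [], [1]), (0, [2], [4, 5]), (0, [2], [3, 6]), (0, [1], [4, 6]), (4, [], [5])]),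
  (3, 7, [(0, [0], [0, 1]), (0, [0], [0, 2]), (0, [1], [3, 2]), (4, [], [1]), (0, [2], [4, 5]), (0, [2], [3, 4]), (0, [1], [5, 6]), (4, [], [6])]),
  (3, 7, [(0, [0], [0, 1]), (0, [0], [0, 1]), (0, [1], [2, 3]), (4, [], [3]), (0, [2], [4, 5]), (0, [2], [2, 6]), (0, [1], [4, 6]), (4, [], [5])]),
  (3, 7, [(0, [0], [0, 1]), (0, [0], [0, 1]), (0, [1], [2, 3]), (4, [], [3]), (0, [2], [4, 5]), (0, [2], [2, 4]), (0, [1], [5, 6]), (4, [], [6])]),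
  (3, 7, [(0, [0], [0, 1]), (0, [0], [2, 3]), (0, [1], [0, 3]), (4, [], [1]), (0, [2], [4, 5]), (0, [2], [2, 6]), (0, [1], [4, 6]), (4, [], [5])]),
  (3, 7, [(0, [0], [0, 1]), (0, [0], [2, 3]), (0, [1], [0, 3]), (4, [], [1]), (0, [2], [4, 5]), (0, [2], [2, 4]), (0, [1], [5, 6]), (4, [], [6])]),
  (3, 7, [(0, [0], [0, 1]), (0, [0], [2, 3]), (0, [1], [0, 1]), (4, [], [3]), (0, [2], [4, 5]), (0, [2], [2, 6]), (0, [1], [4, 5]), (4, [], [6])]),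
  (3, 7, [(0, [0], [0, 1]), (0, [0], [2, 3]), (0, [1], [0, 1]), (4, [], [3]), (0, [2], [4, 5]), (0, [2], [2, 4]), (0, [1], [5, 6]), (4, [], [6])]),
  (3, 7, [(0, [0], [0, 1]), (0, [0], [2, 0]), (0, [1], [1, 3]), (4, [], [3]), (0, [2], [4, 5]), (0, [2], [2, 4]), (0, [1], [5, 6]), (4, [], [6])]),
  (3, 7, [(0, [0], [0, 1]), (0, [0], [0, 1]), (0, [1], [2, 3]), (4, [], [4]), (0, [2], [5, 6]), (0, [2], [2, 5]), (0, [1], [3, 6]), (4, [], [4])]),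
  (3, 7, [(0, [0], [0, 1]), (0, [0], [0, 1]), (0, [1], [2, 3]), (4, [], [4]), (0, [2], [2, 5]), (0, [2], [3, 6]), (0, [1], [5, 6]), (4, [], [4])]),
  (3, 7, [(0, [0], [0, 1]), (0, [0], [2, 0]), (0, [1], [3, 1]), (4, [], [4]), (0, [2], [5, 6]), (0, [2], [2, 5]), (0, [1], [3, 6]), (4, [], [4])]),
  (3, 7, [(0, [0], [0, 1]), (0, [0], [2, 0]), (0, [1], [3, 1]), (4, [], [4]), (0, [2], [5, 6]), (0, [2], [3, 5]), (0, [1], [2, 6]), (4, [], [4])]),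
  (3, 7, [(0, [0], [0, 1]), (0, [0], [2, 0]), (0, [1], [3, 1]), (4, [], [4]), (0, [2], [5, 6]), (0, [2], [4, 5]), (0, [1], [2, 3]), (4, [], [6])]),
  (3, 7, [(0, [0], [0, 1]), (0, [0], [2, 0]), (0, [1], [3, 1]), (4, [], [4]), (0, [2], [5, 6]), (0, [2], [2, 3]), (0, [1], [5, 6]), (4, [], [4])]),
  (3, 7, [(0, [0], [0, 1]), (0, [0], [2, 0]), (0, [1], [3, 1]), (4, [], [4]), (0, [2], [5, 6]), (0, [2], [2, 3]), (0, [1], [4, 5]), (4, [], [6])]),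
  (3, 7, [(0, [0], [0, 1]), (0, [0], [2, 0]), (0, [1], [3, 1]), (4, [], [4]), (0, [2], [5, 6]), (0, [2], [3, 4]), (0, [1], [2, 5]), (4, [], [6])]),
  (3, 7, [(0, [0], [0, 1]), (0, [0], [2, 0]), (0, [1], [3, 1]), (4, [], [4]), (0, [2], [2, 5]), (0, [2], [3, 6]), (0, [1], [5, 6]), (4, [], [4])]),
  (3, 7, [(0, [0], [0, 1]), (0, [0], [2, 0]), (0, [1], [3, 1]), (4, [], [4]), (0, [2], [3, 5]), (0, [2], [2, 6]), (0, [1], [4, 6]), (4, [], [5])]),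
  (3, 7, [(0, [0], [0, 1]), (0, [0], [2, 0]), (0, [1], [3, 1]), (4, [], [4]), (0, [2], [4, 5]), (0, [2], [2, 6]), (0, [1], [3, 6]), (4, [], [5])]),
  (3, 7, [(0, [0], [0, 1]), (0, [0], [2, 0]), (0, [1], [3, 1]), (4, [], [4]), (0, [2], [4, 5]), (0, [2], [3, 6]), (0, [1], [2, 6]), (4, [], [5])]),
  (3, 7, [(0, [0], [0, 1]), (0, [0], [2, 0]), (0, [1], [3, 4]), (4, [], [1]), (0, [2], [5, 6]), (0, [2], [3, 4]), (0, [1], [5, 6]), (4, [], [2])]),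
  (3, 7, [(0, [0], [0, 1]), (0, [0], [2, 0]), (0, [1], [3, 4]), (4, [], [1]), (0, [2], [3, 5]), (0, [2], [4, 6]), (0, [1], [5, 6]), (4, [], [2])]),
  (3, 7, [(0, [0], [0, 1]), (0, [0], [2, 3]), (0, [1], [0, 1]), (4, [], [4]), (0, [2], [5, 6]), (0, [2], [2, 4]), (0, [1], [3, 5]), (4, [], [6])]),
  (3, 7, [(0, [0], [0, 1]), (0, [0], [2, 3]), (0, [1], [0, 1]), (4, [], [4]), (0, [2], [2, 5]), (0, [2], [3, 6]), (0, [1], [5, 6]), (4, [], [4])]),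
  (3, 7, [(0, [0], [0, 1]), (0, [0], [2, 3]), (0, [1], [0, 1]), (4, [], [4]), (0, [2], [4, 5]), (0, [2], [2, 6]), (0, [1], [3, 6]), (4, [], [5])]),
  (3, 7, [(0, [0], [0, 1]), (0, [0], [2, 3]), (0, [1], [4, 0]), (4, [], [1]), (0, [2], [5, 6]), (0, [2], [2, 4]), (0, [1], [3, 5]), (4, [], [6])]),
  (3, 7, [(0, [0], [0, 1]), (0, [0], [2, 3]), (0, [1], [4, 0]), (4, [], [1]), (0, [2], [2, 5]), (0, [2], [3, 6]), (0, [1], [5, 6]), (4, [], [4])]),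
  (3, 7, [(0, [0], [0, 1]), (0, [0], [2, 3]), (0, [1], [4, 0]), (4, [], [1]), (0, [2], [2, 5]), (0, [2], [4, 6]), (0, [1], [5, 6]), (4, [], [3])]),
  (3, 7, [(0, [0], [0, 1]), (0, [0], [2, 3]), (0, [1], [4, 0]), (4, [], [1]), (0, [2], [2, 5]), (0, [2], [4, 6]), (0, [1], [3, 6]), (4, [], [5])]),
  (3, 7, [(0, [0], [0, 1]), (0, [0], [2, 3]), (0, [1], [4, 0]), (4, [], [1]), (0, [2], [4, 5]), (0, [2], [2, 6]), (0, [1], [3, 6]), (4, [], [5])]),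
  (3, 7, [(0, [0], [0, 1]), (0, [0], [2, 3]), (0, [1], [1, 3]), (4, [], [4]), (0, [2], [0, 5]), (0, [2], [2, 6]), (0, [1], [5, 6]), (4, [], [4])]),
  (3, 7, [(0, [0], [0, 1]), (0, [0], [2, 3]), (0, [1], [1, 3]), (4, [], [4]), (0, [2], [4, 5]), (0, [2], [0, 6]), (0, [1], [2, 6]), (4, [], [5])])]

def kl25 : List ℕ := [13, 14, 57, 58, 95, 96, 97, 98, 109, 110, 111, 112, 119, 120, 125, 126, 132, 133, 144, 204, 206, 216, 217, 218, 219, 220, 221, 222, 223, 224, 225, 252, 253, 267, 268, 269, 284, 285, 286, 287, 288, 302, 303]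

def m25_0 : Base := (0, 1, [(0, [0], [0, 5]), (0, [1], [1, 5]), (0, [2], [2, 3]), (4, [], [4])])

def l25_0 : Cov := [(288, 0, 1, [(0, [0], [0, 5]), (0, [1], [1, 5]), (0, [2], [2, 3]), (4, [], [4])]),
  (288, 0, 1, [(0, [0], [0, 5]), (0, [1], [1, 5]), (0, [2], [2, 4]), (4, [], [3])]),
  (288, 0, 1, [(0, [0], [0, 5]), (0, [1], [1, 5]), (0, [2], [3, 4]), (4, [], [2])]),
  (288, 0, 1, [(0, [0], [0, 5]), (0, [1], [2, 5]), (0, [2], [1, 3]), (4, [], [4])]),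
  (288, 0, 1, [(0, [0], [0, 5]), (0, [1], [2, 5]), (0, [2], [1, 4]), (4, [], [3])]),
  (288, 0, 1, [(0, [0], [0, 5]), (0, [1], [2, 5]), (0, [2], [3, 4]), (4, [], [1])]),
  (288, 0, 1, [(0, [0], [0, 5]), (0, [1], [3, 5]), (0, [2], [1, 2]), (4, [], [4])]),
  (288, 0, 1, [(0, [0], [0, 5]), (0, [1], [3, 5]), (0, [2], [1, 4]), (4, [], [2])]),
  (288, 0, 1, [(0, [0], [0, 5]), (0, [1], [3, 5]), (0, [2], [2, 4]), (4, [], [1])]),
  (576, 0, 1, [(0, [0], [0, 5]), (0, [1], [4, 5]), (0, [2], [1, 2]), (4, [], [3])]),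
  (576, 0, 1, [(0, [0], [0, 5]), (0, [1], [4, 5]), (0, [2], [1, 3]), (4, [], [2])]),
  (576, 0, 1, [(0, [0], [0, 5]), (0, [1], [4, 5]), (0, [2], [2, 3]), (4, [], [1])]),
  (-288, 0, 1, [(0, [0], [1, 5]), (0, [1], [0, 5]), (0, [2], [2, 3]), (4, [], [4])]),
  (288, 0, 1, [(0, [0], [1, 5]), (0, [1], [4, 5]), (0, [2], [2, 3]), (4, [], [0])]),
  (-288, 0, 1, [(0, [0], [2, 5]), (0, [1], [0, 5]), (0, [2], [1, 3]), (4, [], [4])]),
  (288, 0, 1, [(0, [0], [2, 5]), (0, [1], [4, 5]), (0, [2], [1, 3]), (4, [], [0])]),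
  (-288, 0, 1, [(0, [0], [3, 5]), (0, [1], [0, 5]), (0, [2], [1, 2]), (4, [], [4])]),
  (288, 0, 1, [(0, [0], [3, 5]), (0, [1], [4, 5]), (0, [2], [1, 2]), (4, [], [0])]),
  (-576, 0, 1, [(0, [0], [4, 5]), (0, [1], [0, 5]), (0, [2], [1, 2]), (4, [], [3])]),
  (-576, 0, 1, [(0, [0], [4, 5]), (0, [1], [0, 5]), (0, [2], [1, 3]), (4, [], [2])]),
  (-576, 0, 1, [(0, [0], [4, 5]), (0, [1], [0, 5]), (0, [2], [2, 3]), (4, [], [1])]),
  (-288, 0, 1, [(0, [0], [4, 5]), (0, [1], [1, 5]), (0, [2], [0, 2]), (4, [], [3])]),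
  (-288, 0, 1, [(0, [0], [4, 5]), (0, [1], [1, 5]), (0, [2], [0, 3]), (4, [], [2])]),
  (-288, 0, 1, [(0, [0], [4, 5]), (0, [1], [1, 5]), (0, [2], [2, 3]), (4, [], [0])]),
  (-288, 0, 1, [(0, [0], [4, 5]), (0, [1], [2, 5]), (0, [2], [0, 1]), (4, [], [3])]),
  (-288, 0, 1, [(0, [0], [4, 5]), (0, [1], [2, 5]), (0, [2], [0, 3]), (4, [], [1])]),
  (-288, 0, 1, [(0, [0], [4, 5]), (0, [1], [2, 5]), (0, [2], [1, 3]), (4, [], [0])]),
  (-288, 0, 1, [(0, [0], [4, 5]), (0, [1], [3, 5]), (0, [2], [0, 1]), (4, [], [2])]),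
  (-288, 0, 1, [(0, [0], [4, 5]), (0, [1], [3, 5]), (0, [2], [0, 2]), (4, [], [1])]),
  (-288, 0, 1, [(0, [0], [4, 5]), (0, [1], [3, 5]), (0, [2], [1, 2]), (4, [], [0])]),
  (-288, 0, 1, [(0, [0], [0, 5]), (0, [2], [1, 5]), (0, [1], [2, 3]), (4, [], [4])]),
  (-288, 0, 1, [(0, [0], [0, 5]), (0, [2], [1, 5]), (0, [1], [2, 4]), (4, [], [3])]),
  (-288, 0, 1, [(0, [0], [0, 5]), (0, [2], [1, 5]), (0, [1], [3, 4]), (4, [], [2])]),
  (-288, 0, 1, [(0, [0], [0, 5]), (0, [2], [2, 5]), (0, [1], [1, 3]), (4, [], [4])]),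
  (-288, 0, 1, [(0, [0], [0, 5]), (0, [2], [2, 5]), (0, [1], [1, 4]), (4, [], [3])]),
  (-288, 0, 1, [(0, [0], [0, 5]), (0, [2], [2, 5]), (0, [1], [3, 4]), (4, [], [1])]),
  (-288, 0, 1, [(0, [0], [0, 5]), (0, [2], [3, 5]), (0, [1], [1, 2]), (4, [], [4])]),
  (-288, 0, 1, [(0, [0], [0, 5]), (0, [2], [3, 5]), (0, [1], [1, 4]), (4, [], [2])]),
  (-288, 0, 1, [(0, [0], [0, 5]), (0, [2], [3, 5]), (0, [1], [2, 4]), (4, [], [1])]),
  (-576, 0, 1, [(0, [0], [0, 5]), (0, [2], [4, 5]), (0, [1], [1, 2]), (4, [], [3])]),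
  (-576, 0, 1, [(0, [0], [0, 5]), (0, [2], [4, 5]), (0, [1], [1, 3]), (4, [], [2])]),
  (-576, 0, 1, [(0, [0], [0, 5]), (0, [2], [4, 5]), (0, [1], [2, 3]), (4, [], [1])]),
  (288, 0, 1, [(0, [0], [1, 5]), (0, [2], [0, 5]), (0, [1], [2, 3]), (4, [], [4])]),
  (-288, 0, 1, [(0, [0], [1, 5]), (0, [2], [4, 5]), (0, [1], [2, 3]), (4, [], [0])]),
  (288, 0, 1, [(0, [0], [2, 5]), (0, [2], [0, 5]), (0, [1], [1, 3]), (4, [], [4])]),
  (-288, 0, 1, [(0, [0], [2, 5]), (0, [2], [4, 5]), (0, [1], [1, 3]), (4, [], [0])]),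
  (288, 0, 1, [(0, [0], [3, 5]), (0, [2], [0, 5]), (0, [1], [1, 2]), (4, [], [4])]),
  (-288, 0, 1, [(0, [0], [3, 5]), (0, [2], [4, 5]), (0, [1], [1, 2]), (4, [], [0])]),
  (576, 0, 1, [(0, [0], [4, 5]), (0, [2], [0, 5]), (0, [1], [1, 2]), (4, [], [3])]),
  (576, 0, 1, [(0, [0], [4, 5]), (0, [2], [0, 5]), (0, [1], [1, 3]), (4, [], [2])]),
  (576, 0, 1, [(0, [0], [4, 5]), (0, [2], [0, 5]), (0, [1], [2, 3]), (4, [], [1])]),
  (288, 0, 1, [(0, [0], [4, 5]), (0, [2], [1, 5]), (0, [1], [0, 2]), (4, [], [3])]),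
  (288, 0, 1, [(0, [0], [4, 5]), (0, [2], [1, 5]), (0, [1], [0, 3]), (4, [], [2])]),
  (288, 0, 1, [(0, [0], [4, 5]), (0, [2], [1, 5]), (0, [1], [2, 3]), (4, [], [0])]),
  (288, 0, 1, [(0, [0], [4, 5]), (0, [2], [2, 5]), (0, [1], [0, 1]), (4, [], [3])]),
  (288, 0, 1, [(0, [0], [4, 5]), (0, [2], [2, 5]), (0, [1], [0, 3]), (4, [], [1])]),
  (288, 0, 1, [(0, [0], [4, 5]), (0, [2], [2, 5]), (0, [1], [1, 3]), (4, [], [0])]),
  (288, 0, 1, [(0, [0], [4, 5]), (0, [2], [3, 5]), (0, [1], [0, 1]), (4, [], [2])]),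
  (288, 0, 1, [(0, [0], [4, 5]), (0, [2], [3, 5]), (0, [1], [0, 2]), (4, [], [1])]),
  (288, 0, 1, [(0, [0], [4, 5]), (0, [2], [3, 5]), (0, [1], [1, 2]), (4, [], [0])]),
  (-288, 0, 1, [(0, [1], [0, 5]), (0, [0], [1, 5]), (0, [2], [2, 4]), (4, [], [3])]),
  (-288, 0, 1, [(0, [1], [0, 5]), (0, [0], [1, 5]), (0, [2], [3, 4]), (4, [], [2])]),
  (-288, 0, 1, [(0, [1], [0, 5]), (0, [0], [2, 5]), (0, [2], [1, 4]), (4, [], [3])]),
  (-288, 0, 1, [(0, [1], [0, 5]), (0, [0], [2, 5]), (0, [2], [3, 4]), (4, [], [1])]),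
  (-288, 0, 1, [(0, [1], [0, 5]), (0, [0], [3, 5]), (0, [2], [1, 4]), (4, [], [2])]),
  (-288, 0, 1, [(0, [1], [0, 5]), (0, [0], [3, 5]), (0, [2], [2, 4]), (4, [], [1])]),
  (288, 0, 1, [(0, [1], [4, 5]), (0, [0], [1, 5]), (0, [2], [0, 2]), (4, [], [3])]),
  (288, 0, 1, [(0, [1], [4, 5]), (0, [0], [1, 5]), (0, [2], [0, 3]), (4, [], [2])]),
  (288, 0, 1, [(0, [1], [4, 5]), (0, [0], [2, 5]), (0, [2], [0, 1]), (4, [], [3])]),
  (288, 0, 1, [(0, [1], [4, 5]), (0, [0], [2, 5]), (0, [2], [0, 3]), (4, [], [1])]),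
  (288, 0, 1, [(0, [1], [4, 5]), (0, [0], [3, 5]), (0, [2], [0, 1]), (4, [], [2])]),
  (288, 0, 1, [(0, [1], [4, 5]), (0, [0], [3, 5]), (0, [2], [0, 2]), (4, [], [1])]),
  (288, 0, 1, [(0, [1], [0, 5]), (0, [2], [1, 5]), (0, [0], [2, 3]), (4, [], [4])]),
  (288, 0, 1, [(0, [1], [0, 5]), (0, [2], [1, 5]), (0, [0], [2, 4]), (4, [], [3])]),
  (288, 0, 1, [(0, [1], [0, 5]), (0, [2], [1, 5]), (0, [0], [3, 4]), (4, [], [2])]),
  (288, 0, 1, [(0, [1], [0, 5]), (0, [2], [2, 5]), (0, [0], [1, 3]), (4, [], [4])]),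
  (288, 0, 1, [(0, [1], [0, 5]), (0, [2], [2, 5]), (0, [0], [1, 4]), (4, [], [3])]),
  (288, 0, 1, [(0, [1], [0, 5]), (0, [2], [2, 5]), (0, [0], [3, 4]), (4, [], [1])]),
  (288, 0, 1, [(0, [1], [0, 5]), (0, [2], [3, 5]), (0, [0], [1, 2]), (4, [], [4])]),
  (288, 0, 1, [(0, [1], [0, 5]), (0, [2], [3, 5]), (0, [0], [1, 4]), (4, [], [2])]),
  (288, 0, 1, [(0, [1], [0, 5]), (0, [2], [3, 5]), (0, [0], [2, 4]), (4, [], [1])]),
  (576, 0, 1, [(0, [1], [0, 5]), (0, [2], [4, 5]), (0, [0], [1, 2]), (4, [], [3])]),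
  (576, 0, 1, [(0, [1], [0, 5]), (0, [2], [4, 5]), (0, [0], [1, 3]), (4, [], [2])]),
  (576, 0, 1, [(0, [1], [0, 5]), (0, [2], [4, 5]), (0, [0], [2, 3]), (4, [], [1])]),
  (-288, 0, 1, [(0, [1], [1, 5]), (0, [2], [0, 5]), (0, [0], [2, 3]), (4, [], [4])]),
  (288, 0, 1, [(0, [1], [1, 5]), (0, [2], [4, 5]), (0, [0], [2, 3]), (4, [], [0])]),
  (-288, 0, 1, [(0, [1], [2, 5]), (0, [2], [0, 5]), (0, [0], [1, 3]), (4, [], [4])]),
  (288, 0, 1, [(0, [1], [2, 5]), (0, [2], [4, 5]), (0, [0], [1, 3]), (4, [], [0])]),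
  (-288, 0, 1, [(0, [1], [3, 5]), (0, [2], [0, 5]), (0, [0], [1, 2]), (4, [], [4])]),
  (288, 0, 1, [(0, [1], [3, 5]), (0, [2], [4, 5]), (0, [0], [1, 2]), (4, [], [0])]),
  (-576, 0, 1, [(0, [1], [4, 5]), (0, [2], [0, 5]), (0, [0], [1, 2]), (4, [], [3])]),
  (-576, 0, 1, [(0, [1], [4, 5]), (0, [2], [0, 5]), (0, [0], [1, 3]), (4, [], [2])]),
  (-576, 0, 1, [(0, [1], [4, 5]), (0, [2], [0, 5]), (0, [0], [2, 3]), (4, [], [1])]),
  (-288, 0, 1, [(0, [1], [4, 5]), (0, [2], [1, 5]), (0, [0], [0, 2]), (4, [], [3])]),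
  (-288, 0, 1, [(0, [1], [4, 5]), (0, [2], [1, 5]), (0, [0], [0, 3]), (4, [], [2])]),
  (-288, 0, 1, [(0, [1], [4, 5]), (0, [2], [1, 5]), (0, [0], [2, 3]), (4, [], [0])]),
  (-288, 0, 1, [(0, [1], [4, 5]), (0, [2], [2, 5]), (0, [0], [0, 1]), (4, [], [3])]),
  (-288, 0, 1, [(0, [1], [4, 5]), (0, [2], [2, 5]), (0, [0], [0, 3]), (4, [], [1])]),
  (-288, 0, 1, [(0, [1], [4, 5]), (0, [2], [2, 5]), (0, [0], [1, 3]), (4, [], [0])]),
  (-288, 0, 1, [(0, [1], [4, 5]), (0, [2], [3, 5]), (0, [0], [0, 1]), (4, [], [2])]),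
  (-288, 0, 1, [(0, [1], [4, 5]), (0, [2], [3, 5]), (0, [0], [0, 2]), (4, [], [1])]),
  (-288, 0, 1, [(0, [1], [4, 5]), (0, [2], [3, 5]), (0, [0], [1, 2]), (4, [], [0])]),
  (288, 0, 1, [(0, [2], [0, 5]), (0, [0], [1, 5]), (0, [1], [2, 4]), (4, [], [3])]),
  (288, 0, 1, [(0, [2], [0, 5]), (0, [0], [1, 5]), (0, [1], [3, 4]), (4, [], [2])]),
  (288, 0, 1, [(0, [2], [0, 5]), (0, [0], [2, 5]), (0, [1], [1, 4]), (4, [], [3])]),
  (288, 0, 1, [(0, [2], [0, 5]), (0, [0], [2, 5]), (0, [1], [3, 4]), (4, [], [1])]),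
  (288, 0, 1, [(0, [2], [0, 5]), (0, [0], [3, 5]), (0, [1], [1, 4]), (4, [], [2])]),
  (288, 0, 1, [(0, [2], [0, 5]), (0, [0], [3, 5]), (0, [1], [2, 4]), (4, [], [1])]),
  (-288, 0, 1, [(0, [2], [4, 5]), (0, [0], [1, 5]), (0, [1], [0, 2]), (4, [], [3])]),
  (-288, 0, 1, [(0, [2], [4, 5]), (0, [0], [1, 5]), (0, [1], [0, 3]), (4, [], [2])]),
  (-288, 0, 1, [(0, [2], [4, 5]), (0, [0], [2, 5]), (0, [1], [0, 1]), (4, [], [3])]),
  (-288, 0, 1, [(0, [2], [4, 5]), (0, [0], [2, 5]), (0, [1], [0, 3]), (4, [], [1])]),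
  (-288, 0, 1, [(0, [2], [4, 5]), (0, [0], [3, 5]), (0, [1], [0, 1]), (4, [], [2])]),
  (-288, 0, 1, [(0, [2], [4, 5]), (0, [0], [3, 5]), (0, [1], [0, 2]), (4, [], [1])]),
  (-288, 0, 1, [(0, [2], [0, 5]), (0, [1], [1, 5]), (0, [0], [2, 4]), (4, [], [3])]),
  (-288, 0, 1, [(0, [2], [0, 5]), (0, [1], [1, 5]), (0, [0], [3, 4]), (4, [], [2])]),
  (-288, 0, 1, [(0, [2], [0, 5]), (0, [1], [2, 5]), (0, [0], [1, 4]), (4, [], [3])]),
  (-288, 0, 1, [(0, [2], [0, 5]), (0, [1], [2, 5]), (0, [0], [3, 4]), (4, [], [1])]),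
  (-288, 0, 1, [(0, [2], [0, 5]), (0, [1], [3, 5]), (0, [0], [1, 4]), (4, [], [2])]),
  (-288, 0, 1, [(0, [2], [0, 5]), (0, [1], [3, 5]), (0, [0], [2, 4]), (4, [], [1])]),
  (288, 0, 1, [(0, [2], [4, 5]), (0, [1], [1, 5]), (0, [0], [0, 2]), (4, [], [3])]),
  (288, 0, 1, [(0, [2], [4, 5]), (0, [1], [1, 5]), (0, [0], [0, 3]), (4, [], [2])]),
  (288, 0, 1, [(0, [2], [4, 5]), (0, [1], [2, 5]), (0, [0], [0, 1]), (4, [], [3])]),
  (288, 0, 1, [(0, [2], [4, 5]), (0, [1], [2, 5]), (0, [0], [0, 3]), (4, [], [1])]),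
  (288, 0, 1, [(0, [2], [4, 5]), (0, [1], [3, 5]), (0, [0], [0, 1]), (4, [], [2])]),
  (288, 0, 1, [(0, [2], [4, 5]), (0, [1], [3, 5]), (0, [0], [0, 2]), (4, [], [1])])]

def z25_0 : Cov := [(0, 0, 1, [(0, [0], [1, 5]), (0, [1], [2, 5]), (0, [2], [0, 3]), (4, [], [4])]),
  (0, 0, 1, [(0, [0], [1, 5]), (0, [1], [2, 5]), (0, [2], [3, 4]), (4, [], [0])]),
  (0, 0, 1, [(0, [0], [1, 5]), (0, [1], [3, 5]), (0, [2], [0, 2]), (4, [], [4])]),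
  (0, 0, 1, [(0, [0], [1, 5]), (0, [1], [3, 5]), (0, [2], [2, 4]), (4, [], [0])]),
  (0, 0, 1, [(0, [0], [2, 5]), (0, [1], [1, 5]), (0, [2], [0, 3]), (4, [], [4])]),
  (0, 0, 1, [(0, [0], [2, 5]), (0, [1], [1, 5]), (0, [2], [3, 4]), (4, [], [0])]),
  (0, 0, 1, [(0, [0], [2, 5]), (0, [1], [3, 5]), (0, [2], [0, 1]), (4, [], [4])]),
  (0, 0, 1, [(0, [0], [2, 5]), (0, [1], [3, 5]), (0, [2], [1, 4]), (4, [], [0])]),
  (0, 0, 1, [(0, [0], [3, 5]), (0, [1], [1, 5]), (0, [2], [0, 2]), (4, [], [4])]),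
  (0, 0, 1, [(0, [0], [3, 5]), (0, [1], [1, 5]), (0, [2], [2, 4]), (4, [], [0])]),
  (0, 0, 1, [(0, [0], [3, 5]), (0, [1], [2, 5]), (0, [2], [0, 1]), (4, [], [4])]),
  (0, 0, 1, [(0, [0], [3, 5]), (0, [1], [2, 5]), (0, [2], [1, 4]), (4, [], [0])]),
  (0, 0, 1, [(0, [0], [1, 5]), (0, [2], [2, 5]), (0, [1], [0, 3]), (4, [], [4])]),
  (0, 0, 1, [(0, [0], [1, 5]), (0, [2], [2, 5]), (0, [1], [3, 4]), (4, [], [0])]),
  (0, 0, 1, [(0, [0], [1, 5]), (0, [2], [3, 5]), (0, [1], [0, 2]), (4, [], [4])]),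
  (0, 0, 1, [(0, [0], [1, 5]), (0, [2], [3, 5]), (0, [1], [2, 4]), (4, [], [0])]),
  (0, 0, 1, [(0, [0], [2, 5]), (0, [2], [1, 5]), (0, [1], [0, 3]), (4, [], [4])]),
  (0, 0, 1, [(0, [0], [2, 5]), (0, [2], [1, 5]), (0, [1], [3, 4]), (4, [], [0])]),
  (0, 0, 1, [(0, [0], [2, 5]), (0, [2], [3, 5]), (0, [1], [0, 1]), (4, [], [4])]),
  (0, 0, 1, [(0, [0], [2, 5]), (0, [2], [3, 5]), (0, [1], [1, 4]), (4, [], [0])]),
  (0, 0, 1, [(0, [0], [3, 5]), (0, [2], [1, 5]), (0, [1], [0, 2]), (4, [], [4])]),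
  (0, 0, 1, [(0, [0], [3, 5]), (0, [2], [1, 5]), (0, [1], [2, 4]), (4, [], [0])]),
  (0, 0, 1, [(0, [0], [3, 5]), (0, [2], [2, 5]), (0, [1], [0, 1]), (4, [], [4])]),
  (0, 0, 1, [(0, [0], [3, 5]), (0, [2], [2, 5]), (0, [1], [1, 4]), (4, [], [0])]),
  (0, 0, 1, [(0, [1], [1, 5]), (0, [2], [2, 5]), (0, [0], [0, 3]), (4, [], [4])]),
  (0, 0, 1, [(0, [1], [1, 5]), (0, [2], [2, 5]), (0, [0], [3, 4]), (4, [], [0])]),
  (0, 0, 1, [(0, [1], [1, 5]), (0, [2], [3, 5]), (0, [0], [0, 2]), (4, [], [4])]),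
  (0, 0, 1, [(0, [1], [1, 5]), (0, [2], [3, 5]), (0, [0], [2, 4]), (4, [], [0])]),
  (0, 0, 1, [(0, [1], [2, 5]), (0, [2], [1, 5]), (0, [0], [0, 3]), (4, [], [4])]),
  (0, 0, 1, [(0, [1], [2, 5]), (0, [2], [1, 5]), (0, [0], [3, 4]), (4, [], [0])]),
  (0, 0, 1, [(0, [1], [2, 5]), (0, [2], [3, 5]), (0, [0], [0, 1]), (4, [], [4])]),
  (0, 0, 1, [(0, [1], [2, 5]), (0, [2], [3, 5]), (0, [0], [1, 4]), (4, [], [0])]),
  (0, 0, 1, [(0, [1], [3, 5]), (0, [2], [1, 5]), (0, [0], [0, 2]), (4, [], [4])]),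
  (0, 0, 1, [(0, [1], [3, 5]), (0, [2], [1, 5]), (0, [0], [2, 4]), (4, [], [0])]),
  (0, 0, 1, [(0, [1], [3, 5]), (0, [2], [2, 5]), (0, [0], [0, 1]), (4, [], [4])]),
  (0, 0, 1, [(0, [1], [3, 5]), (0, [2], [2, 5]), (0, [0], [1, 4]), (4, [], [0])])]

def w25_0 : List (List Wit) := [[(0, 0, 0, 0, 0), (1, 0, 0, 0, 0), (0, 0, 0, 0, 0), (2, 0, 0, 0, 0), (1, 0, 0, 0, 0), (2, 0, 0, 0, 0), (3, 0, 0, 0, 0), (4, 0, 0, 0, 0), (3, 0, 0, 0, 0), (5, 0, 0, 0, 0), (4, 0, 0, 0, 0), (5, 0, 0, 0, 0), (6, 0, 0, 0, 0), (7, 0, 0, 0, 0), (6, 0, 0, 0, 0), (8, 0, 0, 0, 0), (7, 0, 0, 0, 0), (8, 0, 0, 0, 0), (9, 0, 0, 0, 0), (10, 0, 0, 0, 0), (9, 0, 0, 0, 0), (11, 0, 0, 0, 0), (10, 0, 0, 0, 0), (11, 0, 0, 0, 0), (12, 0, 0, 0, 0), (12, 0, 0, 0, 0), (126, 0, 0, 0, 0), (126, 0, 0, 0, 0), (127, 0, 0, 0, 0), (127, 0, 0, 0, 0), (128, 0, 0, 0, 0), (128, 0, 0, 0, 0), (129, 0, 0, 0, 0),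 (129, 0, 0, 0, 0), (13, 0, 0, 0, 0), (13, 0, 0, 0, 0), (14, 0, 0, 0, 0), (14, 0, 0, 0, 0), (130, 0, 0, 0, 0), (130, 0, 0, 0, 0), (131, 0, 0, 0, 0), (131, 0, 0, 0, 0), (132, 0, 0, 0, 0), (132, 0, 0, 0, 0), (133, 0, 0, 0, 0), (133, 0, 0, 0, 0), (15, 0, 0, 0, 0), (15, 0, 0, 0, 0), (16, 0, 0, 0, 0), (16, 0, 0, 0, 0), (134, 0, 0, 0, 0), (134, 0, 0, 0, 0), (135, 0, 0, 0, 0), (135, 0, 0, 0, 0), (136, 0, 0, 0, 0), (136, 0, 0, 0, 0), (137, 0, 0, 0, 0), (137, 0, 0, 0, 0), (17, 0, 0, 0, 0), (17, 0, 0, 0, 0), (18, 0, 0, 0, 0), (19, 0, 0, 0, 0), (18, 0, 0, 0, 0), (20, 0, 0, 0, 0), (19, 0, 0, 0, 0), (20, 0, 0, 0, 0), (21, 0, 0, 0, 0), (22, 0, 0, 0, 0), (21, 0, 0, 0, 0), (23, 0, 0, 0, 0), (22, 0, 0, 0, 0), (23, 0, 0, 0, 0), (24, 0, 0, 0, 0), (25, 0, 0, 0, 0), (24, 0, 0, 0, 0), (26, 0, 0, 0, 0), (25, 0, 0, 0, 0), (26, 0, 0, 0, 0), (27, 0, 0, 0, 0), (28, 0, 0, 0, 0),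 (27, 0, 0, 0, 0), (29, 0, 0, 0, 0), (28, 0, 0, 0, 0), (29, 0, 0, 0, 0)],
  [(30, 0, 0, 0, 0), (31, 0, 0, 0, 0), (30, 0, 0, 0, 0), (32, 0, 0, 0, 0), (31, 0, 0, 0, 0), (32, 0, 0, 0, 0), (33, 0, 0, 0, 0), (34, 0, 0, 0, 0), (33, 0, 0, 0, 0), (35, 0, 0, 0, 0), (34, 0, 0, 0, 0), (35, 0, 0, 0, 0), (36, 0, 0, 0, 0), (37, 0, 0, 0, 0), (36, 0, 0, 0, 0), (38, 0, 0, 0, 0), (37, 0, 0, 0, 0), (38, 0, 0, 0, 0), (39, 0, 0, 0, 0), (40, 0, 0, 0, 0), (39, 0, 0, 0, 0), (41, 0, 0, 0, 0), (40, 0, 0, 0, 0), (41, 0, 0, 0, 0), (42, 0, 0, 0, 0), (42, 0, 0, 0, 0), (138, 0, 0, 0, 0), (138, 0, 0, 0, 0), (139, 0, 0, 0, 0), (139, 0, 0, 0, 0), (140, 0, 0, 0, 0), (140, 0, 0, 0, 0), (141, 0, 0, 0, 0), (141, 0, 0, 0, 0), (43, 0, 0, 0, 0), (43, 0, 0, 0, 0), (44, 0, 0, 0, 0), (44, 0, 0, 0, 0), (142, 0, 0, 0, 0), (142, 0, 0, 0, 0), (143, 0, 0, 0, 0), (143, 0, 0, 0, 0), (144, 0, 0, 0, 0),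 (144, 0, 0, 0, 0), (145, 0, 0, 0, 0), (145, 0, 0, 0, 0), (45, 0, 0, 0, 0), (45, 0, 0, 0, 0), (46, 0, 0, 0, 0), (46, 0, 0, 0, 0), (146, 0, 0, 0, 0), (146, 0, 0, 0, 0), (147, 0, 0, 0, 0), (147, 0, 0, 0, 0), (148, 0, 0, 0, 0), (148, 0, 0, 0, 0), (149, 0, 0, 0, 0), (149, 0, 0, 0, 0), (47, 0, 0, 0, 0), (47, 0, 0, 0, 0), (48, 0, 0, 0, 0), (49, 0, 0, 0, 0), (48, 0, 0, 0, 0), (50, 0, 0, 0, 0), (49, 0, 0, 0, 0), (50, 0, 0, 0, 0), (51, 0, 0, 0, 0), (52, 0, 0, 0, 0), (51, 0, 0, 0, 0), (53, 0, 0, 0, 0), (52, 0, 0, 0, 0), (53, 0, 0, 0, 0), (54, 0, 0, 0, 0), (55, 0, 0, 0, 0), (54, 0, 0, 0, 0), (56, 0, 0, 0, 0), (55, 0, 0, 0, 0), (56, 0, 0, 0, 0), (57, 0, 0, 0, 0), (58, 0, 0, 0, 0), (57, 0, 0, 0, 0), (59, 0, 0, 0, 0), (58, 0, 0, 0, 0), (59, 0, 0, 0, 0)],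
  [(12, 0, 0, 0, 0), (60, 0, 0, 0, 0), (12, 0, 0, 0, 0), (61, 0, 0, 0, 0), (60, 0, 0, 0, 0), (61, 0, 0, 0, 0), (14, 0, 0, 0, 0), (62, 0, 0, 0, 0), (14, 0, 0, 0, 0), (63, 0, 0, 0, 0), (62, 0, 0, 0, 0), (63, 0, 0, 0, 0), (16, 0, 0, 0, 0), (64, 0, 0, 0, 0), (16, 0, 0, 0, 0), (65, 0, 0, 0, 0), (64, 0, 0, 0, 0), (65, 0, 0, 0, 0), (18, 0, 0, 0, 0), (19, 0, 0, 0, 0), (18, 0, 0, 0, 0), (20, 0, 0, 0, 0), (19, 0, 0, 0, 0), (20, 0, 0, 0, 0), (0, 0, 0, 0, 0), (0, 0, 0, 0, 0), (130, 0, 0, 0, 0), (130, 0, 0, 0, 0), (131, 0, 0, 0, 0), (131, 0, 0, 0, 0), (134, 0, 0, 0, 0), (134, 0, 0, 0, 0), (135, 0, 0, 0, 0), (135, 0, 0, 0, 0), (23, 0, 0, 0, 0), (23, 0, 0, 0, 0), (3, 0, 0, 0, 0), (3, 0, 0, 0, 0), (126, 0, 0, 0, 0), (126, 0, 0, 0, 0), (127, 0, 0, 0, 0), (127, 0, 0, 0, 0), (136, 0, 0, 0, 0), (136, 0, 0, 0, 0), (137, 0, 0, 0, 0), (137, 0, 0, 0, 0), (26, 0, 0, 0, 0), (26,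 0, 0, 0, 0), (6, 0, 0, 0, 0), (6, 0, 0, 0, 0), (128, 0, 0, 0, 0), (128, 0, 0, 0, 0), (129, 0, 0, 0, 0), (129, 0, 0, 0, 0), (132, 0, 0, 0, 0), (132, 0, 0, 0, 0), (133, 0, 0, 0, 0), (133, 0, 0, 0, 0), (29, 0, 0, 0, 0), (29, 0, 0, 0, 0), (9, 0, 0, 0, 0), (10, 0, 0, 0, 0), (9, 0, 0, 0, 0), (11, 0, 0, 0, 0), (10, 0, 0, 0, 0), (11, 0, 0, 0, 0), (66, 0, 0, 0, 0), (67, 0, 0, 0, 0), (66, 0, 0, 0, 0), (13, 0, 0, 0, 0), (67, 0, 0, 0, 0), (13, 0, 0, 0, 0), (68, 0, 0, 0, 0), (69, 0, 0, 0, 0), (68, 0, 0, 0, 0), (15, 0, 0, 0, 0), (69, 0, 0, 0, 0), (15, 0, 0, 0, 0), (70, 0, 0, 0, 0), (71, 0, 0, 0, 0), (70, 0, 0, 0, 0), (17, 0, 0, 0, 0), (71, 0, 0, 0, 0), (17, 0, 0, 0, 0)],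
  [(72, 0, 0, 0, 0), (73, 0, 0, 0, 0), (72, 0, 0, 0, 0), (74, 0, 0, 0, 0), (73, 0, 0, 0, 0), (74, 0, 0, 0, 0), (75, 0, 0, 0, 0), (76, 0, 0, 0, 0), (75, 0, 0, 0, 0), (77, 0, 0, 0, 0), (76, 0, 0, 0, 0), (77, 0, 0, 0, 0), (78, 0, 0, 0, 0), (79, 0, 0, 0, 0), (78, 0, 0, 0, 0), (80, 0, 0, 0, 0), (79, 0, 0, 0, 0), (80, 0, 0, 0, 0), (81, 0, 0, 0, 0), (82, 0, 0, 0, 0), (81, 0, 0, 0, 0), (83, 0, 0, 0, 0), (82, 0, 0, 0, 0), (83, 0, 0, 0, 0), (84, 0, 0, 0, 0), (84, 0, 0, 0, 0), (150, 0, 0, 0, 0), (150, 0, 0, 0, 0), (151, 0, 0, 0, 0), (151, 0, 0, 0, 0), (152, 0, 0, 0, 0), (152, 0, 0, 0, 0), (153, 0, 0, 0, 0), (153, 0, 0, 0, 0), (85, 0, 0, 0, 0), (85, 0, 0, 0, 0), (86, 0, 0, 0, 0), (86, 0, 0, 0, 0), (154, 0, 0, 0, 0), (154, 0, 0, 0, 0), (155, 0, 0, 0, 0), (155, 0, 0, 0, 0), (156, 0, 0, 0, 0), (156, 0, 0, 0, 0), (157, 0, 0, 0, 0), (157, 0, 0, 0, 0), (87, 0, 0, 0, 0),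 (87, 0, 0, 0, 0), (88, 0, 0, 0, 0), (88, 0, 0, 0, 0), (158, 0, 0, 0, 0), (158, 0, 0, 0, 0), (159, 0, 0, 0, 0), (159, 0, 0, 0, 0), (160, 0, 0, 0, 0), (160, 0, 0, 0, 0), (161, 0, 0, 0, 0), (161, 0, 0, 0, 0), (89, 0, 0, 0, 0), (89, 0, 0, 0, 0), (90, 0, 0, 0, 0), (91, 0, 0, 0, 0), (90, 0, 0, 0, 0), (92, 0, 0, 0, 0), (91, 0, 0, 0, 0), (92, 0, 0, 0, 0), (93, 0, 0, 0, 0), (94, 0, 0, 0, 0), (93, 0, 0, 0, 0), (95, 0, 0, 0, 0), (94, 0, 0, 0, 0), (95, 0, 0, 0, 0), (96, 0, 0, 0, 0), (97, 0, 0, 0, 0), (96, 0, 0, 0, 0), (98, 0, 0, 0, 0), (97, 0, 0, 0, 0), (98, 0, 0, 0, 0), (99, 0, 0, 0, 0), (100, 0, 0, 0, 0), (99, 0, 0, 0, 0), (101, 0, 0, 0, 0), (100, 0, 0, 0, 0), (101, 0, 0, 0, 0)],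
  [(42, 0, 0, 0, 0), (102, 0, 0, 0, 0), (42, 0, 0, 0, 0), (103, 0, 0, 0, 0), (102, 0, 0, 0, 0), (103, 0, 0, 0, 0), (44, 0, 0, 0, 0), (104, 0, 0, 0, 0), (44, 0, 0, 0, 0), (105, 0, 0, 0, 0), (104, 0, 0, 0, 0), (105, 0, 0, 0, 0), (46, 0, 0, 0, 0), (106, 0, 0, 0, 0), (46, 0, 0, 0, 0), (107, 0, 0, 0, 0), (106, 0, 0, 0, 0), (107, 0, 0, 0, 0), (48, 0, 0, 0, 0), (49, 0, 0, 0, 0), (48, 0, 0, 0, 0), (50, 0, 0, 0, 0), (49, 0, 0, 0, 0), (50, 0, 0, 0, 0), (30, 0, 0, 0, 0), (30, 0, 0, 0, 0), (142, 0, 0, 0, 0), (142, 0, 0, 0, 0), (143, 0, 0, 0, 0), (143, 0, 0, 0, 0), (146, 0, 0, 0, 0), (146, 0, 0, 0, 0), (147, 0, 0, 0, 0), (147, 0, 0, 0, 0), (53, 0, 0, 0, 0), (53, 0, 0, 0, 0), (33, 0, 0, 0, 0), (33, 0, 0, 0, 0), (138, 0, 0, 0, 0), (138, 0, 0, 0, 0), (139, 0, 0, 0, 0), (139, 0, 0, 0, 0), (148, 0, 0, 0, 0), (148, 0, 0, 0, 0), (149, 0, 0, 0, 0), (149, 0, 0, 0, 0), (56,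 0, 0, 0, 0), (56, 0, 0, 0, 0), (36, 0, 0, 0, 0), (36, 0, 0, 0, 0), (140, 0, 0, 0, 0), (140, 0, 0, 0, 0), (141, 0, 0, 0, 0), (141, 0, 0, 0, 0), (144, 0, 0, 0, 0), (144, 0, 0, 0, 0), (145, 0, 0, 0, 0), (145, 0, 0, 0, 0), (59, 0, 0, 0, 0), (59, 0, 0, 0, 0), (39, 0, 0, 0, 0), (40, 0, 0, 0, 0), (39, 0, 0, 0, 0), (41, 0, 0, 0, 0), (40, 0, 0, 0, 0), (41, 0, 0, 0, 0), (108, 0, 0, 0, 0), (109, 0, 0, 0, 0), (108, 0, 0, 0, 0), (43, 0, 0, 0, 0), (109, 0, 0, 0, 0), (43, 0, 0, 0, 0), (110, 0, 0, 0, 0), (111, 0, 0, 0, 0), (110, 0, 0, 0, 0), (45, 0, 0, 0, 0), (111, 0, 0, 0, 0), (45, 0, 0, 0, 0), (112, 0, 0, 0, 0), (113, 0, 0, 0, 0), (112, 0, 0, 0, 0), (47, 0, 0, 0, 0), (113, 0, 0, 0, 0), (47, 0, 0, 0, 0)],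
  [(84, 0, 0, 0, 0), (114, 0, 0, 0, 0), (84, 0, 0, 0, 0), (115, 0, 0, 0, 0), (114, 0, 0, 0, 0), (115, 0, 0, 0, 0), (86, 0, 0, 0, 0), (116, 0, 0, 0, 0), (86, 0, 0, 0, 0), (117, 0, 0, 0, 0), (116, 0, 0, 0, 0), (117, 0, 0, 0, 0), (88, 0, 0, 0, 0), (118, 0, 0, 0, 0), (88, 0, 0, 0, 0), (119, 0, 0, 0, 0), (118, 0, 0, 0, 0), (119, 0, 0, 0, 0), (90, 0, 0, 0, 0), (91, 0, 0, 0, 0), (90, 0, 0, 0, 0), (92, 0, 0, 0, 0), (91, 0, 0, 0, 0), (92, 0, 0, 0, 0), (72, 0, 0, 0, 0), (72, 0, 0, 0, 0), (154, 0, 0, 0, 0), (154, 0, 0, 0, 0), (155, 0, 0, 0, 0), (155, 0, 0, 0, 0), (158, 0, 0, 0, 0), (158, 0, 0, 0, 0), (159, 0, 0, 0, 0), (159, 0, 0, 0, 0), (95, 0, 0, 0, 0), (95, 0, 0, 0, 0), (75, 0, 0, 0, 0), (75, 0, 0, 0, 0), (150, 0, 0, 0, 0), (150, 0, 0, 0, 0), (151, 0, 0, 0, 0), (151, 0, 0, 0, 0), (160, 0, 0, 0, 0), (160, 0, 0, 0, 0), (161, 0, 0, 0, 0), (161, 0, 0, 0, 0), (98,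 0, 0, 0, 0), (98, 0, 0, 0, 0), (78, 0, 0, 0, 0), (78, 0, 0, 0, 0), (152, 0, 0, 0, 0), (152, 0, 0, 0, 0), (153, 0, 0, 0, 0), (153, 0, 0, 0, 0), (156, 0, 0, 0, 0), (156, 0, 0, 0, 0), (157, 0, 0, 0, 0), (157, 0, 0, 0, 0), (101, 0, 0, 0, 0), (101, 0, 0, 0, 0), (81, 0, 0, 0, 0), (82, 0, 0, 0, 0), (81, 0, 0, 0, 0), (83, 0, 0, 0, 0), (82, 0, 0, 0, 0), (83, 0, 0, 0, 0), (120, 0, 0, 0, 0), (121, 0, 0, 0, 0), (120, 0, 0, 0, 0), (85, 0, 0, 0, 0), (121, 0, 0, 0, 0), (85, 0, 0, 0, 0), (122, 0, 0, 0, 0), (123, 0, 0, 0, 0), (122, 0, 0, 0, 0), (87, 0, 0, 0, 0), (123, 0, 0, 0, 0), (87, 0, 0, 0, 0), (124, 0, 0, 0, 0), (125, 0, 0, 0, 0), (124, 0, 0, 0, 0), (89, 0, 0, 0, 0), (125, 0, 0, 0, 0), (89, 0, 0, 0, 0)]]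

def m25_1 : Base := (0, 1, [(0, [0], [0, 5]), (0, [1], [1, 2]), (0, [2], [3, 4]), (4, [], [5])])

def l25_1 : Cov := [(288, 0, 1, [(0, [0], [0, 5]), (0, [1], [1, 2]), (0, [2], [3, 4]), (4, [], [5])]),
  (288, 0, 1, [(0, [0], [0, 5]), (0, [1], [1, 3]), (0, [2], [2, 4]), (4, [], [5])]),
  (-288, 0, 1, [(0, [0], [0, 5]), (0, [1], [1, 4]), (0, [2], [2, 3]), (4, [], [5])]),
  (288, 0, 1, [(0, [0], [0, 5]), (0, [1], [2, 3]), (0, [2], [1, 4]), (4, [], [5])]),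
  (-288, 0, 1, [(0, [0], [0, 5]), (0, [1], [2, 4]), (0, [2], [1, 3]), (4, [], [5])]),
  (-288, 0, 1, [(0, [0], [0, 5]), (0, [1], [3, 4]), (0, [2], [1, 2]), (4, [], [5])]),
  (576, 0, 1, [(0, [0], [1, 5]), (0, [1], [0, 2]), (0, [2], [3, 4]), (4, [], [5])]),
  (576, 0, 1, [(0, [0], [1, 5]), (0, [1], [0, 3]), (0, [2], [2, 4]), (4, [], [5])]),
  (-576, 0, 1, [(0, [0], [1, 5]), (0, [1], [2, 4]), (0, [2], [3, 0]), (4, [], [5])]),
  (-576, 0, 1, [(0, [0], [1, 5]), (0, [1], [3, 4]), (0, [2], [2, 0]), (4, [], [5])]),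
  (576, 0, 1, [(0, [0], [2, 5]), (0, [1], [0, 1]), (0, [2], [3, 4]), (4, [], [5])]),
  (576, 0, 1, [(0, [0], [2, 5]), (0, [1], [0, 3]), (0, [2], [1, 4]), (4, [], [5])]),
  (-576, 0, 1, [(0, [0], [2, 5]), (0, [1], [1, 4]), (0, [2], [3, 0]), (4, [], [5])]),
  (-576, 0, 1, [(0, [0], [2, 5]), (0, [1], [3, 4]), (0, [2], [1, 0]), (4, [], [5])]),
  (576, 0, 1, [(0, [0], [3, 5]), (0, [1], [0, 1]), (0, [2], [2, 4]), (4, [], [5])]),
  (576, 0, 1, [(0, [0], [3, 5]), (0, [1], [0, 2]), (0, [2], [1, 4]), (4, [], [5])]),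
  (-576, 0, 1, [(0, [0], [3, 5]), (0, [1], [1, 4]), (0, [2], [2, 0]), (4, [], [5])]),
  (-576, 0, 1, [(0, [0], [3, 5]), (0, [1], [2, 4]), (0, [2], [1, 0]), (4, [], [5])]),
  (288, 0, 1, [(0, [0], [4, 5]), (0, [1], [0, 1]), (0, [2], [2, 3]), (4, [], [5])]),
  (288, 0, 1, [(0, [0], [4, 5]), (0, [1], [0, 2]), (0, [2], [1, 3]), (4, [], [5])]),
  (288, 0, 1, [(0, [0], [4, 5]), (0, [1], [0, 3]), (0, [2], [1, 2]), (4, [], [5])]),
  (-288, 0, 1, [(0, [0], [4, 5]), (0, [1], [1, 2]), (0, [2], [0, 3]), (4, [], [5])]),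
  (-288, 0, 1, [(0, [0], [4, 5]), (0, [1], [1, 3]), (0, [2], [0, 2]), (4, [], [5])]),
  (-288, 0, 1, [(0, [0], [4, 5]), (0, [1], [2, 3]), (0, [2], [0, 1]), (4, [], [5])]),
  (-288, 0, 1, [(0, [1], [0, 5]), (0, [0], [1, 2]), (0, [2], [3, 4]), (4, [], [5])]),
  (-288, 0, 1, [(0, [1], [0, 5]), (0, [0], [1, 3]), (0, [2], [2, 4]), (4, [], [5])]),
  (288, 0, 1, [(0, [1], [0, 5]), (0, [0], [1, 4]), (0, [2], [2, 3]), (4, [], [5])]),
  (-288, 0, 1, [(0, [1], [0, 5]), (0, [0], [2, 3]), (0, [2], [1, 4]), (4, [], [5])]),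
  (288, 0, 1, [(0, [1], [0, 5]), (0, [0], [2, 4]), (0, [2], [1, 3]), (4, [], [5])]),
  (288, 0, 1, [(0, [1], [0, 5]), (0, [0], [3, 4]), (0, [2], [1, 2]), (4, [], [5])]),
  (-576, 0, 1, [(0, [1], [1, 5]), (0, [0], [0, 2]), (0, [2], [3, 4]), (4, [], [5])]),
  (-576, 0, 1, [(0, [1], [1, 5]), (0, [0], [0, 3]), (0, [2], [2, 4]), (4, [], [5])]),
  (576, 0, 1, [(0, [1], [1, 5]), (0, [0], [2, 4]), (0, [2], [3, 0]), (4, [], [5])]),
  (576, 0, 1, [(0, [1], [1, 5]), (0, [0], [3, 4]), (0, [2], [2, 0]), (4, [], [5])]),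
  (-576, 0, 1, [(0, [1], [2, 5]), (0, [0], [0, 1]), (0, [2], [3, 4]), (4, [], [5])]),
  (-576, 0, 1, [(0, [1], [2, 5]), (0, [0], [0, 3]), (0, [2], [1, 4]), (4, [], [5])]),
  (576, 0, 1, [(0, [1], [2, 5]), (0, [0], [1, 4]), (0, [2], [3, 0]), (4, [], [5])]),
  (576, 0, 1, [(0, [1], [2, 5]), (0, [0], [3, 4]), (0, [2], [1, 0]), (4, [], [5])]),
  (-576, 0, 1, [(0, [1], [3, 5]), (0, [0], [0, 1]), (0, [2], [2, 4]), (4, [], [5])]),
  (-576, 0, 1, [(0, [1], [3, 5]), (0, [0], [0, 2]), (0, [2], [1, 4]), (4, [], [5])]),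
  (576, 0, 1, [(0, [1], [3, 5]), (0, [0], [1, 4]), (0, [2], [2, 0]), (4, [], [5])]),
  (576, 0, 1, [(0, [1], [3, 5]), (0, [0], [2, 4]), (0, [2], [1, 0]), (4, [], [5])]),
  (-288, 0, 1, [(0, [1], [4, 5]), (0, [0], [0, 1]), (0, [2], [2, 3]), (4, [], [5])]),
  (-288, 0, 1, [(0, [1], [4, 5]), (0, [0], [0, 2]), (0, [2], [1, 3]), (4, [], [5])]),
  (-288, 0, 1, [(0, [1], [4, 5]), (0, [0], [0, 3]), (0, [2], [1, 2]), (4, [], [5])]),
  (288, 0, 1, [(0, [1], [4, 5]), (0, [0], [1, 2]), (0, [2], [0, 3]), (4, [], [5])]),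
  (288, 0, 1, [(0, [1], [4, 5]), (0, [0], [1, 3]), (0, [2], [0, 2]), (4, [], [5])]),
  (288, 0, 1, [(0, [1], [4, 5]), (0, [0], [2, 3]), (0, [2], [0, 1]), (4, [], [5])]),
  (288, 0, 1, [(0, [2], [0, 5]), (0, [0], [1, 2]), (0, [1], [3, 4]), (4, [], [5])]),
  (288, 0, 1, [(0, [2], [0, 5]), (0, [0], [1, 3]), (0, [1], [2, 4]), (4, [], [5])]),
  (-288, 0, 1, [(0, [2], [0, 5]), (0, [0], [1, 4]), (0, [1], [2, 3]), (4, [], [5])]),
  (288, 0, 1, [(0, [2], [0, 5]), (0, [0], [2, 3]), (0, [1], [1, 4]), (4, [], [5])]),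
  (-288, 0, 1, [(0, [2], [0, 5]), (0, [0], [2, 4]), (0, [1], [1, 3]), (4, [], [5])]),
  (-288, 0, 1, [(0, [2], [0, 5]), (0, [0], [3, 4]), (0, [1], [1, 2]), (4, [], [5])]),
  (576, 0, 1, [(0, [2], [1, 5]), (0, [0], [0, 2]), (0, [1], [3, 4]), (4, [], [5])]),
  (576, 0, 1, [(0, [2], [1, 5]), (0, [0], [0, 3]), (0, [1], [2, 4]), (4, [], [5])]),
  (-576, 0, 1, [(0, [2], [1, 5]), (0, [0], [2, 4]), (0, [1], [3, 0]), (4, [], [5])]),
  (-576, 0, 1, [(0, [2], [1, 5]), (0, [0], [3, 4]), (0, [1], [2, 0]), (4, [], [5])]),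
  (576, 0, 1, [(0, [2], [2, 5]), (0, [0], [0, 1]), (0, [1], [3, 4]), (4, [], [5])]),
  (576, 0, 1, [(0, [2], [2, 5]), (0, [0], [0, 3]), (0, [1], [1, 4]), (4, [], [5])]),
  (-576, 0, 1, [(0, [2], [2, 5]), (0, [0], [1, 4]), (0, [1], [3, 0]), (4, [], [5])]),
  (-576, 0, 1, [(0, [2], [2, 5]), (0, [0], [3, 4]), (0, [1], [1, 0]), (4, [], [5])]),
  (576, 0, 1, [(0, [2], [3, 5]), (0, [0], [0, 1]), (0, [1], [2, 4]), (4, [], [5])]),
  (576, 0, 1, [(0, [2], [3, 5]), (0, [0], [0, 2]), (0, [1], [1, 4]), (4, [], [5])]),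
  (-576, 0, 1, [(0, [2], [3, 5]), (0, [0], [1, 4]), (0, [1], [2, 0]), (4, [], [5])]),
  (-576, 0, 1, [(0, [2], [3, 5]), (0, [0], [2, 4]), (0, [1], [1, 0]), (4, [], [5])]),
  (288, 0, 1, [(0, [2], [4, 5]), (0, [0], [0, 1]), (0, [1], [2, 3]), (4, [], [5])]),
  (288, 0, 1, [(0, [2], [4, 5]), (0, [0], [0, 2]), (0, [1], [1, 3]), (4, [], [5])]),
  (288, 0, 1, [(0, [2], [4, 5]), (0, [0], [0, 3]), (0, [1], [1, 2]), (4, [], [5])]),
  (-288, 0, 1, [(0, [2], [4, 5]), (0, [0], [1, 2]), (0, [1], [0, 3]), (4, [], [5])]),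
  (-288, 0, 1, [(0, [2], [4, 5]), (0, [0], [1, 3]), (0, [1], [0, 2]), (4, [], [5])]),
  (-288, 0, 1, [(0, [2], [4, 5]), (0, [0], [2, 3]), (0, [1], [0, 1]), (4, [], [5])])]

def z25_1 : Cov := [(0, 0, 1, [(0, [0], [1, 5]), (0, [1], [2, 3]), (0, [2], [0, 4]), (4, [], [5])]),
  (0, 0, 1, [(0, [0], [2, 5]), (0, [1], [1, 3]), (0, [2], [0, 4]), (4, [], [5])]),
  (0, 0, 1, [(0, [0], [3, 5]), (0, [1], [1, 2]), (0, [2], [0, 4]), (4, [], [5])]),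
  (0, 0, 1, [(0, [0], [1, 5]), (0, [2], [2, 3]), (0, [1], [0, 4]), (4, [], [5])]),
  (0, 0, 1, [(0, [0], [2, 5]), (0, [2], [1, 3]), (0, [1], [0, 4]), (4, [], [5])]),
  (0, 0, 1, [(0, [0], [3, 5]), (0, [2], [1, 2]), (0, [1], [0, 4]), (4, [], [5])]),
  (0, 0, 1, [(0, [1], [1, 5]), (0, [0], [2, 3]), (0, [2], [0, 4]), (4, [], [5])]),
  (0, 0, 1, [(0, [1], [2, 5]), (0, [0], [1, 3]), (0, [2], [0, 4]), (4, [], [5])]),
  (0, 0, 1, [(0, [1], [3, 5]), (0, [0], [1, 2]), (0, [2], [0, 4]), (4, [], [5])]),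
  (0, 0, 1, [(0, [1], [1, 5]), (0, [2], [2, 3]), (0, [0], [0, 4]), (4, [], [5])]),
  (0, 0, 1, [(0, [1], [2, 5]), (0, [2], [1, 3]), (0, [0], [0, 4]), (4, [], [5])]),
  (0, 0, 1, [(0, [1], [3, 5]), (0, [2], [1, 2]), (0, [0], [0, 4]), (4, [], [5])]),
  (0, 0, 1, [(0, [2], [1, 5]), (0, [0], [2, 3]), (0, [1], [0, 4]), (4, [], [5])]),
  (0, 0, 1, [(0, [2], [2, 5]), (0, [0], [1, 3]), (0, [1], [0, 4]), (4, [], [5])]),
  (0, 0, 1, [(0, [2], [3, 5]), (0, [0], [1, 2]), (0, [1], [0, 4]), (4, [], [5])]),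
  (0, 0, 1, [(0, [2], [1, 5]), (0, [1], [2, 3]), (0, [0], [0, 4]), (4, [], [5])]),
  (0, 0, 1, [(0, [2], [2, 5]), (0, [1], [1, 3]), (0, [0], [0, 4]), (4, [], [5])]),
  (0, 0, 1, [(0, [2], [3, 5]), (0, [1], [1, 2]), (0, [0], [0, 4]), (4, [], [5])])]

def w25_1 : List (List Wit) := [[(0, 0, 0, 0, 0), (0, 0, 0, 0, 0), (1, 0, 0, 0, 0), (1, 0, 0, 0, 0), (2, 0, 0, 0, 0), (2, 0, 0, 0, 0), (0, 0, 0, 0, 0), (0, 0, 0, 0, 0), (3, 0, 0, 0, 0), (3, 0, 0, 0, 0), (4, 0, 0, 0, 0), (4, 0, 0, 0, 0), (1, 0, 0, 0, 0), (1, 0, 0, 0, 0), (3, 0, 0, 0, 0), (3, 0, 0, 0, 0), (5, 0, 0, 0, 0), (5, 0, 0, 0, 0), (2, 0, 0, 0, 0), (2, 0, 0, 0, 0), (4, 0, 0, 0, 0), (4, 0, 0, 0, 0), (5, 0, 0, 0, 0), (5, 0, 0, 0, 0), (6, 0, 0, 0, 0), (7, 0, 0, 0, 0), (6, 0, 0, 0, 0), (72, 0, 0, 0, 0), (72, 0, 0, 0, 0), (8, 0, 0, 0, 0), (7, 0, 0, 0, 0), (72, 0, 0, 0, 0), (72, 0, 0, 0, 0), (9, 0, 0, 0, 0),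 (8, 0, 0, 0, 0), (9, 0, 0, 0, 0), (10, 0, 0, 0, 0), (11, 0, 0, 0, 0), (10, 0, 0, 0, 0), (73, 0, 0, 0, 0), (73, 0, 0, 0, 0), (12, 0, 0, 0, 0), (11, 0, 0, 0, 0), (73, 0, 0, 0, 0), (73, 0, 0, 0, 0), (13, 0, 0, 0, 0), (12, 0, 0, 0, 0), (13, 0, 0, 0, 0), (14, 0, 0, 0, 0), (15, 0, 0, 0, 0), (14, 0, 0, 0, 0), (74, 0, 0, 0, 0), (74, 0, 0, 0, 0), (16, 0, 0, 0, 0), (15, 0, 0, 0, 0), (74, 0, 0, 0, 0), (74, 0, 0, 0, 0), (17, 0, 0, 0, 0), (16, 0, 0, 0, 0), (17, 0, 0, 0, 0), (18, 0, 0, 0, 0), (18, 0, 0, 0, 0), (19, 0, 0, 0, 0), (19, 0, 0, 0, 0), (20, 0, 0, 0, 0), (20, 0, 0, 0, 0), (18, 0, 0, 0, 0), (18, 0, 0, 0, 0), (21, 0, 0, 0, 0), (21, 0, 0, 0, 0), (22, 0, 0, 0, 0), (22, 0, 0, 0, 0), (19, 0, 0, 0, 0), (19, 0, 0, 0, 0), (21, 0, 0, 0, 0), (21, 0, 0, 0, 0), (23, 0, 0, 0, 0), (23, 0, 0, 0, 0), (20, 0, 0, 0, 0), (20, 0, 0, 0, 0), (22, 0, 0, 0, 0), (22, 0, 0, 0, 0), (23,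 0, 0, 0, 0), (23, 0, 0, 0, 0)],
  [(5, 0, 0, 0, 0), (5, 0, 0, 0, 0), (4, 0, 0, 0, 0), (4, 0, 0, 0, 0), (3, 0, 0, 0, 0), (3, 0, 0, 0, 0), (5, 0, 0, 0, 0), (5, 0, 0, 0, 0), (2, 0, 0, 0, 0), (2, 0, 0, 0, 0), (1, 0, 0, 0, 0), (1, 0, 0, 0, 0), (4, 0, 0, 0, 0), (4, 0, 0, 0, 0), (2, 0, 0, 0, 0), (2, 0, 0, 0, 0), (0, 0, 0, 0, 0), (0, 0, 0, 0, 0), (3, 0, 0, 0, 0), (3, 0, 0, 0, 0), (1, 0, 0, 0, 0), (1, 0, 0, 0, 0), (0, 0, 0, 0, 0), (0, 0, 0, 0, 0), (9, 0, 0, 0, 0), (8, 0, 0, 0, 0), (9, 0, 0, 0, 0), (75, 0, 0, 0, 0), (75, 0, 0, 0, 0), (7, 0, 0, 0, 0), (8, 0, 0, 0, 0), (75, 0, 0, 0, 0), (75, 0, 0, 0, 0), (6, 0, 0, 0, 0), (7, 0, 0, 0, 0), (6, 0, 0, 0, 0), (13, 0, 0, 0, 0), (12, 0, 0, 0, 0), (13, 0, 0, 0, 0), (76, 0, 0, 0, 0), (76, 0, 0, 0, 0), (11, 0, 0, 0, 0), (12, 0, 0, 0, 0), (76, 0, 0, 0, 0), (76, 0, 0, 0, 0), (10, 0, 0, 0, 0), (11, 0, 0, 0, 0), (10, 0, 0, 0,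 0), (17, 0, 0, 0, 0), (16, 0, 0, 0, 0), (17, 0, 0, 0, 0), (77, 0, 0, 0, 0), (77, 0, 0, 0, 0), (15, 0, 0, 0, 0), (16, 0, 0, 0, 0), (77, 0, 0, 0, 0), (77, 0, 0, 0, 0), (14, 0, 0, 0, 0), (15, 0, 0, 0, 0), (14, 0, 0, 0, 0), (23, 0, 0, 0, 0), (23, 0, 0, 0, 0), (22, 0, 0, 0, 0), (22, 0, 0, 0, 0), (21, 0, 0, 0, 0), (21, 0, 0, 0, 0), (23, 0, 0, 0, 0), (23, 0, 0, 0, 0), (20, 0, 0, 0, 0), (20, 0, 0, 0, 0), (19, 0, 0, 0, 0), (19, 0, 0, 0, 0), (22, 0, 0, 0, 0), (22, 0, 0, 0, 0), (20, 0, 0, 0, 0), (20, 0, 0, 0, 0), (18, 0, 0, 0, 0), (18, 0, 0, 0, 0), (21, 0, 0, 0, 0), (21, 0, 0, 0, 0), (19, 0, 0, 0, 0), (19, 0, 0, 0, 0), (18, 0, 0, 0, 0), (18, 0, 0, 0, 0)],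
  [(24, 0, 0, 0, 0), (24, 0, 0, 0, 0), (25, 0, 0, 0, 0), (25, 0, 0, 0, 0), (26, 0, 0, 0, 0), (26, 0, 0, 0, 0), (24, 0, 0, 0, 0), (24, 0, 0, 0, 0), (27, 0, 0, 0, 0), (27, 0, 0, 0, 0), (28, 0, 0, 0, 0), (28, 0, 0, 0, 0), (25, 0, 0, 0, 0), (25, 0, 0, 0, 0), (27, 0, 0, 0, 0), (27, 0, 0, 0, 0), (29, 0, 0, 0, 0), (29, 0, 0, 0, 0), (26, 0, 0, 0, 0), (26, 0, 0, 0, 0), (28, 0, 0, 0, 0), (28, 0, 0, 0, 0), (29, 0, 0, 0, 0), (29, 0, 0, 0, 0), (30, 0, 0, 0, 0), (31, 0, 0, 0, 0), (30, 0, 0, 0, 0), (78, 0, 0, 0, 0), (78, 0, 0, 0, 0), (32, 0, 0, 0, 0), (31, 0, 0, 0, 0), (78, 0, 0, 0, 0), (78, 0, 0, 0, 0), (33, 0, 0, 0, 0), (32, 0, 0, 0, 0), (33, 0, 0, 0, 0), (34, 0, 0, 0, 0), (35, 0, 0, 0, 0), (34, 0, 0, 0, 0), (79, 0, 0, 0, 0), (79, 0, 0, 0, 0), (36, 0, 0, 0, 0), (35, 0, 0, 0, 0), (79, 0, 0, 0, 0), (79, 0, 0, 0, 0), (37, 0, 0, 0, 0), (36, 0, 0, 0, 0), (37, 0, 0, 0,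 0), (38, 0, 0, 0, 0), (39, 0, 0, 0, 0), (38, 0, 0, 0, 0), (80, 0, 0, 0, 0), (80, 0, 0, 0, 0), (40, 0, 0, 0, 0), (39, 0, 0, 0, 0), (80, 0, 0, 0, 0), (80, 0, 0, 0, 0), (41, 0, 0, 0, 0), (40, 0, 0, 0, 0), (41, 0, 0, 0, 0), (42, 0, 0, 0, 0), (42, 0, 0, 0, 0), (43, 0, 0, 0, 0), (43, 0, 0, 0, 0), (44, 0, 0, 0, 0), (44, 0, 0, 0, 0), (42, 0, 0, 0, 0), (42, 0, 0, 0, 0), (45, 0, 0, 0, 0), (45, 0, 0, 0, 0), (46, 0, 0, 0, 0), (46, 0, 0, 0, 0), (43, 0, 0, 0, 0), (43, 0, 0, 0, 0), (45, 0, 0, 0, 0), (45, 0, 0, 0, 0), (47, 0, 0, 0, 0), (47, 0, 0, 0, 0), (44, 0, 0, 0, 0), (44, 0, 0, 0, 0), (46, 0, 0, 0, 0), (46, 0, 0, 0, 0), (47, 0, 0, 0, 0), (47, 0, 0, 0, 0)],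
  [(29, 0, 0, 0, 0), (29, 0, 0, 0, 0), (28, 0, 0, 0, 0), (28, 0, 0, 0, 0), (27, 0, 0, 0, 0), (27, 0, 0, 0, 0), (29, 0, 0, 0, 0), (29, 0, 0, 0, 0), (26, 0, 0, 0, 0), (26, 0, 0, 0, 0), (25, 0, 0, 0, 0), (25, 0, 0, 0, 0), (28, 0, 0, 0, 0), (28, 0, 0, 0, 0), (26, 0, 0, 0, 0), (26, 0, 0, 0, 0), (24, 0, 0, 0, 0), (24, 0, 0, 0, 0), (27, 0, 0, 0, 0), (27, 0, 0, 0, 0), (25, 0, 0, 0, 0), (25, 0, 0, 0, 0), (24, 0, 0, 0, 0), (24, 0, 0, 0, 0), (33, 0, 0, 0, 0), (32, 0, 0, 0, 0), (33, 0, 0, 0, 0), (81, 0, 0, 0, 0), (81, 0, 0, 0, 0), (31, 0, 0, 0, 0), (32, 0, 0, 0, 0), (81, 0, 0, 0, 0), (81, 0, 0, 0, 0), (30, 0, 0, 0, 0), (31, 0, 0, 0, 0), (30, 0, 0, 0, 0), (37, 0, 0, 0, 0), (36, 0, 0, 0, 0), (37, 0, 0, 0, 0), (82, 0, 0, 0, 0), (82, 0, 0, 0, 0), (35, 0, 0, 0, 0), (36, 0, 0, 0, 0), (82, 0, 0, 0, 0), (82, 0, 0, 0, 0), (34, 0, 0, 0, 0), (35, 0, 0, 0, 0), (34, 0, 0, 0,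 0), (41, 0, 0, 0, 0), (40, 0, 0, 0, 0), (41, 0, 0, 0, 0), (83, 0, 0, 0, 0), (83, 0, 0, 0, 0), (39, 0, 0, 0, 0), (40, 0, 0, 0, 0), (83, 0, 0, 0, 0), (83, 0, 0, 0, 0), (38, 0, 0, 0, 0), (39, 0, 0, 0, 0), (38, 0, 0, 0, 0), (47, 0, 0, 0, 0), (47, 0, 0, 0, 0), (46, 0, 0, 0, 0), (46, 0, 0, 0, 0), (45, 0, 0, 0, 0), (45, 0, 0, 0, 0), (47, 0, 0, 0, 0), (47, 0, 0, 0, 0), (44, 0, 0, 0, 0), (44, 0, 0, 0, 0), (43, 0, 0, 0, 0), (43, 0, 0, 0, 0), (46, 0, 0, 0, 0), (46, 0, 0, 0, 0), (44, 0, 0, 0, 0), (44, 0, 0, 0, 0), (42, 0, 0, 0, 0), (42, 0, 0, 0, 0), (45, 0, 0, 0, 0), (45, 0, 0, 0, 0), (43, 0, 0, 0, 0), (43, 0, 0, 0, 0), (42, 0, 0, 0, 0), (42, 0, 0, 0, 0)],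
  [(48, 0, 0, 0, 0), (48, 0, 0, 0, 0), (49, 0, 0, 0, 0), (49, 0, 0, 0, 0), (50, 0, 0, 0, 0), (50, 0, 0, 0, 0), (48, 0, 0, 0, 0), (48, 0, 0, 0, 0), (51, 0, 0, 0, 0), (51, 0, 0, 0, 0), (52, 0, 0, 0, 0), (52, 0, 0, 0, 0), (49, 0, 0, 0, 0), (49, 0, 0, 0, 0), (51, 0, 0, 0, 0), (51, 0, 0, 0, 0), (53, 0, 0, 0, 0), (53, 0, 0, 0, 0), (50, 0, 0, 0, 0), (50, 0, 0, 0, 0), (52, 0, 0, 0, 0), (52, 0, 0, 0, 0), (53, 0, 0, 0, 0), (53, 0, 0, 0, 0), (54, 0, 0, 0, 0), (55, 0, 0, 0, 0), (54, 0, 0, 0, 0), (84, 0, 0, 0, 0), (84, 0, 0, 0, 0), (56, 0, 0, 0, 0), (55, 0, 0, 0, 0), (84, 0, 0, 0, 0), (84, 0, 0, 0, 0), (57, 0, 0, 0, 0), (56, 0, 0, 0, 0), (57, 0, 0, 0, 0), (58, 0, 0, 0, 0), (59, 0, 0, 0, 0), (58, 0, 0, 0, 0), (85, 0, 0, 0, 0), (85, 0, 0, 0, 0), (60, 0, 0, 0, 0), (59, 0, 0, 0, 0), (85, 0, 0, 0, 0), (85, 0, 0, 0, 0), (61, 0, 0, 0, 0), (60, 0, 0, 0, 0), (61, 0, 0, 0,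 0), (62, 0, 0, 0, 0), (63, 0, 0, 0, 0), (62, 0, 0, 0, 0), (86, 0, 0, 0, 0), (86, 0, 0, 0, 0), (64, 0, 0, 0, 0), (63, 0, 0, 0, 0), (86, 0, 0, 0, 0), (86, 0, 0, 0, 0), (65, 0, 0, 0, 0), (64, 0, 0, 0, 0), (65, 0, 0, 0, 0), (66, 0, 0, 0, 0), (66, 0, 0, 0, 0), (67, 0, 0, 0, 0), (67, 0, 0, 0, 0), (68, 0, 0, 0, 0), (68, 0, 0, 0, 0), (66, 0, 0, 0, 0), (66, 0, 0, 0, 0), (69, 0, 0, 0, 0), (69, 0, 0, 0, 0), (70, 0, 0, 0, 0), (70, 0, 0, 0, 0), (67, 0, 0, 0, 0), (67, 0, 0, 0, 0), (69, 0, 0, 0, 0), (69, 0, 0, 0, 0), (71, 0, 0, 0, 0), (71, 0, 0, 0, 0), (68, 0, 0, 0, 0), (68, 0, 0, 0, 0), (70, 0, 0, 0, 0), (70, 0, 0, 0, 0), (71, 0, 0, 0, 0), (71, 0, 0, 0, 0)],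
  [(53, 0, 0, 0, 0), (53, 0, 0, 0, 0), (52, 0, 0, 0, 0), (52, 0, 0, 0, 0), (51, 0, 0, 0, 0), (51, 0, 0, 0, 0), (53, 0, 0, 0, 0), (53, 0, 0, 0, 0), (50, 0, 0, 0, 0), (50, 0, 0, 0, 0), (49, 0, 0, 0, 0), (49, 0, 0, 0, 0), (52, 0, 0, 0, 0), (52, 0, 0, 0, 0), (50, 0, 0, 0, 0), (50, 0, 0, 0, 0), (48, 0, 0, 0, 0), (48, 0, 0, 0, 0), (51, 0, 0, 0, 0), (51, 0, 0, 0, 0), (49, 0, 0, 0, 0), (49, 0, 0, 0, 0), (48, 0, 0, 0, 0), (48, 0, 0, 0, 0), (57, 0, 0, 0, 0), (56, 0, 0, 0, 0), (57, 0, 0, 0, 0), (87, 0, 0, 0, 0), (87, 0, 0, 0, 0), (55, 0, 0, 0, 0), (56, 0, 0, 0, 0), (87, 0, 0, 0, 0), (87, 0, 0, 0, 0), (54, 0, 0, 0, 0), (55, 0, 0, 0, 0), (54, 0, 0, 0, 0), (61, 0, 0, 0, 0), (60, 0, 0, 0, 0), (61, 0, 0, 0, 0), (88, 0, 0, 0, 0), (88, 0, 0, 0, 0), (59, 0, 0, 0, 0), (60, 0, 0, 0, 0), (88, 0, 0, 0, 0), (88, 0, 0, 0, 0), (58, 0, 0, 0, 0), (59, 0, 0, 0, 0), (58, 0, 0, 0,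 0), (65, 0, 0, 0, 0), (64, 0, 0, 0, 0), (65, 0, 0, 0, 0), (89, 0, 0, 0, 0), (89, 0, 0, 0, 0), (63, 0, 0, 0, 0), (64, 0, 0, 0, 0), (89, 0, 0, 0, 0), (89, 0, 0, 0, 0), (62, 0, 0, 0, 0), (63, 0, 0, 0, 0), (62, 0, 0, 0, 0), (71, 0, 0, 0, 0), (71, 0, 0, 0, 0), (70, 0, 0, 0, 0), (70, 0, 0, 0, 0), (69, 0, 0, 0, 0), (69, 0, 0, 0, 0), (71, 0, 0, 0, 0), (71, 0, 0, 0, 0), (68, 0, 0, 0, 0), (68, 0, 0, 0, 0), (67, 0, 0, 0, 0), (67, 0, 0, 0, 0), (70, 0, 0, 0, 0), (70, 0, 0, 0, 0), (68, 0, 0, 0, 0), (68, 0, 0, 0, 0), (66, 0, 0, 0, 0), (66, 0, 0, 0, 0), (69, 0, 0, 0, 0), (69, 0, 0, 0, 0), (67, 0, 0, 0, 0), (67, 0, 0, 0, 0), (66, 0, 0, 0, 0), (66, 0, 0, 0, 0)]]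

theorem tr25 : trK keys lk25 kl25 = true := by
  decide +kernel

theorem x25_0 : expB 3 5 dg3 dg5 m25_0 (l25_0 ++ z25_0) w25_0 = true := by
  decide +kernel

theorem x25_1 : expB 3 5 dg3 dg5 m25_1 (l25_1 ++ z25_1) w25_1 = true := by
  decide +kernel

theorem t25_0_0 : chkS lk25 3 5 [(1, m25_0)] l25_0
  [(19, 33, 258, 103026771, 101975346), (23, 528, 528, 34891056, 52696656), (23, 528, 528, 34887216, 36968016), (22, 528, 528, 34887216, 36968016), (26, 528, 528, 34891056, 52696656), (11, 18, 18, 55640676, 22045251), (22, 528, 528, 34891056, 52696656), (26, 528, 528, 34887216, 36968016), (11, 18, 18, 55648356, 22045506), (11, 18, 18, 87429156, 73421106), (11, 18, 18, 87425316, 73421091), (13, 18, 18, 86380596, 73405746), (20, 33, 258, 87298146, 23351346), (12, 33, 258, 69537891, 21366066), (27, 33, 258, 55836966, 5529891), (28, 33, 258, 56951076, 88105251),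 (27, 33, 258, 55840806, 5529906), (28, 33, 258, 56954916, 88105266), (10, 18, 18, 70586406, 4608306), (10, 18, 18, 70582566, 4608291), (12, 18, 18, 69537846, 4592946), (11, 33, 258, 87429186, 73486386), (11, 33, 258, 87425346, 73486371), (13, 33, 258, 86380611, 73467186), (40, 18, 18, 73732146, 88477746), (28, 18, 18, 56951106, 88170531), (26, 18, 18, 55836966, 5529891), (40, 18, 18, 73728306, 88477731), (28, 18, 18, 56954946, 88170546), (26, 18, 18, 55840806, 5529906), (24, 528, 528, 34891056, 52696656), (25, 528, 528, 34891056, 52696656), (25, 528, 528, 34887216, 36968016), (21, 528, 528, 34891056, 52696656), (8, 33, 258, 40177731, 88147506), (18, 528, 528, 35017776, 70391376), (21, 528, 528, 34887216, 36968016), (8, 33, 258, 40173891, 88147491), (18, 528, 528, 35013936, 69408336), (18, 288, 288, 19096896, 52512096), (18, 288, 288, 19093056, 36783456),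 (17, 18, 18, 38998116, 22038066), (34, 18, 18, 55840866, 22306866), (2, 528, 528, 19162371, 52692321), (27, 513, 513, 101983491, 103023441), (15, 33, 258, 5317446, 5317446), (27, 513, 513, 101995011, 104071761), (15, 33, 258, 5321286, 5321286), (15, 288, 288, 2188611, 52495686), (15, 288, 288, 2184771, 36767046), (2, 288, 288, 34825536, 52512336), (39, 18, 18, 40177716, 88086066), (39, 18, 18, 40173876, 88086051), (33, 18, 18, 39063606, 5510706), (4, 513, 513, 101929986, 103956561), (15, 513, 513, 84288531, 73532181), (18, 513, 513, 85337091, 73532241), (4, 513, 513, 101926146, 102973521), (15, 513, 513, 84296211, 73597461), (18, 513, 513, 85344771, 73597521), (32, 33, 258, 88215651, 23397426), (32, 33, 258, 88211811, 23397411), (38, 33, 258, 72552486, 5652786), (10, 33, 258, 54592086, 1401411), (38, 33, 258, 72548646, 5652771), (10, 33, 258, 54599766,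 1401666), (10, 33, 258, 70586466, 21385266), (10, 33, 258, 70582626, 21385251), (40, 33, 258, 73732131, 88473906), (26, 33, 258, 55837026, 22306851), (40, 33, 258, 73728291, 88473891), (26, 33, 258, 55840866, 22306866), (34, 33, 258, 55840806, 5529906), (37, 33, 258, 55840806, 5529906), (37, 33, 258, 55836966, 5529891), (27, 33, 258, 40112181, 84153906), (10, 18, 18, 40177731, 88147506), (15, 513, 513, 33969171, 70387221), (27, 33, 258, 40108341, 84153891), (10, 18, 18, 40173891, 88147491), (15, 513, 513, 33965331, 69404181), (38, 33, 258, 40046661, 83969586), (38, 33, 258, 40042821, 83969571), (2, 513, 513, 19162416, 52696416), (24, 513, 513, 34891011, 52692561), (17, 33, 258, 38998086, 5326386), (41, 528, 528, 85206576, 40112976), (14, 528, 528, 67446321, 38146821), (41, 528, 528, 85221936, 56889936), (14, 528, 528, 67461681, 54923781), (39, 33, 258,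 40177731, 88147506), (39, 33, 258, 40173891, 88147491), (33, 33, 258, 39063651, 22283826), (15, 258, 33, 2188596, 52434246), (15, 258, 33, 2184756, 36705606), (2, 258, 33, 34825476, 52446801), (4, 528, 528, 101930016, 103956816), (18, 528, 528, 85337136, 73536336), (15, 528, 528, 84288561, 73536261), (4, 528, 528, 101926176, 102973776), (18, 528, 528, 85344816, 73601616), (15, 528, 528, 84296241, 73601541), (37, 18, 18, 55840866, 22306866), (37, 18, 18, 55837026, 22306851), (10, 513, 513, 102847491, 103941441), (38, 513, 513, 100869396, 102777621), (10, 513, 513, 102843651, 102958401), (38, 513, 513, 100880916, 103825941), (38, 18, 18, 40046676, 84952626), (38, 18, 18, 40042836, 84952611), (6, 513, 513, 101929986, 103956561), (14, 513, 513, 67446291, 38142741), (6, 513, 513, 101926146, 102973521), (14, 513, 513, 67461651, 54919701), (25, 513, 513, 34891011,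 52692561), (25, 513, 513, 34887171, 36963921), (14, 18, 18, 56954946, 88170546), (39, 288, 288, 102827091, 101844291), (14, 18, 18, 56951106, 88170531), (39, 288, 288, 102842451, 101909826), (18, 258, 33, 19096836, 52446561), (18, 258, 33, 19092996, 36717921), (6, 528, 528, 101930016, 103956816), (15, 18, 18, 5317476, 22029126), (6, 528, 528, 101926176, 102973776), (15, 18, 18, 5321316, 22032966)]
  [(2, 576), (8, -576), (11, 1152), (12, -288), (13, 288), (14, -576), (15, 1152), (17, -288), (18, -1152), (19, 288), (20, -288), (21, -576), (22, 576), (23, 576), (24, -576), (25, -1152), (26, 576), (27, 576), (32, -576), (33, -288), (34, 576), (37, 1152), (38, 576), (39, -1152), (41, -576)] = true := by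
  decide +kernel

theorem t25_0_1 : chkS lk25 3 5 [(1, m25_0)] l25_1
  [(8, 528, 528, 19220016, 37950816), (8, 528, 528, 19227696, 54662496), (9, 528, 528, 19289136, 70391136), (3, 258, 33, 101860101, 100869201), (11, 528, 528, 19285296, 69408096), (11, 528, 528, 19289136, 70391136), (10, 18, 18, 90243651, 90243651), (10, 18, 18, 90251331, 90243906), (15, 528, 528, 20333826, 69423201), (15, 528, 528, 20337666, 70406241), (4, 513, 513, 51725826, 37970001), (39, 18, 18, 88158726, 6632001), (11, 513, 513, 102843651, 102958401), (40, 288, 288, 19218531, 21169506), (4, 513, 513, 51733506, 54681681), (39, 18, 18, 88154886, 6628161), (11, 513, 513, 102847491, 103941441), (40, 288, 288, 19203171, 21103971), (5, 513, 513, 51794946, 70410321), (30, 18, 18, 90439971, 90439971), (30, 18, 18, 90443811, 90439986), (29, 18, 18, 90439986, 90443811), (29, 18, 18, 90443826,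 90443826), (35, 18, 18, 90443826, 90443826), (10, 33, 258, 90243636, 90182211), (10, 33, 258, 90251316, 90182466), (12, 18, 18, 56954946, 88170546), (2, 513, 513, 50619666, 52715541), (15, 513, 513, 20333856, 69423456), (15, 513, 513, 20337696, 70406496), (8, 513, 513, 19219971, 37946721), (8, 513, 513, 19227651, 54658401), (11, 513, 513, 19285251, 69404001), (11, 513, 513, 19289091, 70387041), (4, 528, 528, 51725856, 37970256), (28, 528, 528, 68494896, 38146896), (15, 528, 528, 103892226, 102977601), (40, 258, 33, 19218486, 4396386), (4, 528, 528, 51733536, 54681936), (28, 528, 528, 68510256, 54923856), (15, 528, 528, 103896066, 103960641), (40, 258, 33, 19203126, 4330851), (5, 528, 528, 51794976, 70410576), (29, 33, 258, 90439971, 90439971), (29, 33, 258, 90443811, 90439986), (30, 33, 258, 90439986, 90443811), (30, 33, 258, 90443826, 90443826), (35,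 33, 258, 90443811, 90439986), (39, 33, 258, 21308256, 21308256), (39, 33, 258, 21312096, 21312096), (2, 528, 528, 67331361, 52838661), (3, 288, 288, 35013456, 68363856), (28, 513, 513, 85206531, 40108881), (28, 513, 513, 85221891, 56885841), (28, 528, 528, 85221936, 56889936), (28, 528, 528, 85206576, 40112976), (39, 18, 18, 21312006, 4534881), (39, 18, 18, 21308166, 4531041), (4, 528, 528, 85156896, 56770896), (8, 33, 258, 23404611, 88146786), (10, 18, 18, 23404611, 88146786), (4, 513, 513, 85156866, 56770641), (4, 528, 528, 85149216, 40059216), (8, 33, 258, 23396931, 88146531), (10, 18, 18, 23396931, 88146531), (4, 513, 513, 85149186, 40058961), (7, 528, 528, 51794976, 70410576), (29, 528, 528, 85221936, 56889936), (29, 528, 528, 85206576, 40112976), (42, 528, 528, 87318546, 56905746), (42, 528, 528, 87295506, 40128531), (7, 513, 513, 51794946, 70410321)]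
  [(2, -576), (3, 576), (8, 576), (9, -288), (10, -576), (11, -576), (12, 288), (15, 576), (28, -576), (29, -576), (30, 1152), (39, 576), (42, -576)] = true := by
  decide +kernel

theorem t25_1_1 : chkS lk25 3 5 [(1, m25_1)] l25_1
  [(0, 258, 33, 106111236, 105923361), (23, 258, 33, 105062661, 101008161), (23, 258, 33, 105001221, 101004321), (23, 258, 33, 105062421, 101008146), (23, 258, 33, 105000981, 101004306), (31, 528, 528, 35017776, 70391376), (13, 33, 258, 103875666, 101863491), (26, 18, 18, 104862291, 102040116), (18, 513, 513, 56770581, 84108306), (33, 18, 18, 104923986, 102047811), (13, 33, 258, 103875906, 102846531), (26, 18, 18, 104863011, 103088436), (18, 513, 513, 56770821, 84108321), (33, 18, 18, 104924466, 103092291), (18, 33, 258, 56627781, 83976756), (18, 33, 258, 56628261, 84042036), (26, 258, 33, 105009411, 104137761), (26, 258, 33,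 105009171, 104137746), (18, 33, 258, 56689221, 83976771), (18, 33, 258, 56689701, 84042051), (33, 258, 33, 105197826, 105197601), (13, 513, 513, 104153346, 105074721), (26, 258, 33, 105193731, 105186081), (26, 258, 33, 105193491, 105186066), (1, 33, 258, 70321746, 35016771), (25, 33, 258, 104862261, 100995636), (25, 33, 258, 104923701, 100995651), (25, 33, 258, 104862501, 100999476), (25, 33, 258, 104923941, 100999491), (16, 258, 33, 56967426, 88301601), (9, 528, 528, 102056496, 105058896), (8, 288, 288, 85141056, 39928656), (11, 513, 513, 23282181, 84099681), (3, 33, 258, 103035216, 101987616), (9, 528, 528, 102056736, 105062736), (8, 288, 288, 85140576, 23216976), (11, 513, 513, 23281701, 84099426), (3, 33, 258, 103036176, 103036176), (11, 528, 528, 101995296, 104079696), (11, 528, 528, 101995056, 104075856), (36, 288, 288, 101930016, 103956816), (36,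 288, 288, 101929536, 103891536), (11, 528, 528, 102056736, 105062736), (11, 528, 528, 102056496, 105058896), (3, 18, 18, 39851061, 84022836), (17, 513, 513, 56770821, 84108321), (36, 288, 288, 102052896, 105001296), (36, 288, 288, 102052416, 104936016), (16, 18, 18, 56689986, 86073411), (25, 513, 513, 105000981, 101004306), (25, 513, 513, 105062421, 101008146), (25, 513, 513, 105001221, 101004321), (25, 513, 513, 105062661, 101008161), (1, 513, 513, 70668546, 70668321), (3, 258, 33, 40120581, 84162081), (11, 288, 288, 101917776, 101860176), (36, 528, 528, 101860176, 101917776), (17, 33, 258, 56689701, 84042051), (3, 258, 33, 40120341, 84162066), (11, 288, 288, 101918016, 102843216), (36, 528, 528, 101860656, 102962256), (17, 33, 258, 56689221, 83976771), (8, 528, 528, 85345056, 73605456), (8, 528, 528, 85344816, 73601616), (11, 33, 258, 23200821, 84022371),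 (11, 33, 258, 23200581, 83960931), (8, 528, 528, 85222176, 56893776), (8, 528, 528, 85221936, 56889936), (9, 288, 288, 101918016, 102843216), (3, 513, 513, 103093296, 104994096), (11, 33, 258, 23077941, 84022116), (11, 33, 258, 23077701, 83960676)]
  [(0, 288), (1, -576), (3, 1728), (8, 576), (9, -864), (11, -1152), (13, 864), (16, 576), (17, -864), (18, 576), (26, -576), (31, -288), (33, -864), (36, 576)] = true := by
  decide +kernel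

section

variable {κ ι : Type*} [Fintype κ] [Fintype ι] [Inhabited κ] [Inhabited ι]

noncomputable def F25_0 (E : Env κ ι) : (Fin 3 → κ) → (Fin 5 → ι) → ℝ := op2 (P3 κ) (P5 ι) (fB E 3 5 m25_0)

noncomputable def F25_1 (E : Env κ ι) : (Fin 3 → κ) → (Fin 5 → ι) → ℝ := op2 (P3 κ) (P5 ι) (fB E 3 5 m25_1)

def r25_0_0 : List (ℕ × ℤ) := [(2, 576), (8, -576), (11, 1152), (12, -288), (13, 288), (14, -576), (15, 1152), (17, -288), (18, -1152), (19, 288), (20, -288), (21, -576), (22, 576), (23, 576), (24, -576), (25, -1152), (26, 576), (27, 576), (32, -576), (33, -288), (34, 576), (37, 1152), (38, 576), (39, -1152), (41, -576)]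

theorem h25_0_0 (E : Env κ ι) : ip (F25_0 E) (F25_0 E) = dotS (ek E lk25) r25_0_0 :=
  op_entryZ E lk25 3 5 _ _ _ _ (pg3 κ) (pg5 ι) m25_0 m25_0 l25_0 z25_0 w25_0 x25_0 (by decide) _ (chkS_sound E lk25 3 5 _ _ _ _ t25_0_0)

def r25_0_1 : List (ℕ × ℤ) := [(2, -576), (3, 576), (8, 576), (9, -288), (10, -576), (11, -576), (12, 288), (15, 576), (28, -576), (29, -576), (30, 1152), (39, 576), (42, -576)]

theorem h25_0_1 (E : Env κ ι) : ip (F25_0 E) (F25_1 E) = dotS (ek E lk25) r25_0_1 :=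
  op_entryZ E lk25 3 5 _ _ _ _ (pg3 κ) (pg5 ι) m25_0 m25_1 l25_1 z25_1 w25_1 x25_1 (by decide) _ (chkS_sound E lk25 3 5 _ _ _ _ t25_0_1)

def r25_1_1 : List (ℕ × ℤ) := [(0, 288), (1, -576), (3, 1728), (8, 576), (9, -864), (11, -1152), (13, 864), (16, 576), (17, -864), (18, 576), (26, -576), (31, -288), (33, -864), (36, 576)]

theorem h25_1_1 (E : Env κ ι) : ip (F25_1 E) (F25_1 E) = dotS (ek E lk25) r25_1_1 :=
  op_entryZ E lk25 3 5 _ _ _ _ (pg3 κ) (pg5 ι) m25_1 m25_1 l25_1 z25_1 w25_1 x25_1 (by decide) _ (chkS_sound E lk25 3 5 _ _ _ _ t25_1_1)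

theorem row25_0 (E : Env κ ι) : RowG (ek E lk25) (F25_0 E) [F25_0 E, F25_1 E] [r25_0_0, r25_0_1] :=
  rowG_cons _ _ _ _ _ _ (h25_0_0 E) (rowG_cons _ _ _ _ _ _ (h25_0_1 E) (rowG_nil _ _))

theorem row25_1 (E : Env κ ι) : RowG (ek E lk25) (F25_1 E) [F25_1 E] [r25_1_1] :=
  rowG_cons _ _ _ _ _ _ (h25_1_1 E) (rowG_nil _ _)

def tab25 : List (List (List (ℕ × ℤ))) := [[r25_0_0, r25_0_1], [r25_1_1]]

theorem tri25 (E : Env κ ι) : TriG (ek E lk25) [F25_0 E, F25_1 E] tab25 := by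
  refine triG_cons _ _ _ _ _ (row25_0 E) ?_
  refine triG_cons _ _ _ _ _ (row25_1 E) ?_
  exact triG_nil _

end

end YMBG
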