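import Pool.Agent.YM.BG.Ga0

set_option linter.unusedVariables false
set_option maxRecDepth 100000

open YMEng

namespace YMBG

def lk26 : List Key := [
  (3, 7, [(0, [0], [0, 1]), (0, [0], [0, 1]), (0, [1], [2, 3]), (0, [1], [2, 3]), (0, [2], [4, 5]), (0, [2], [4, 6]), (4, [], [6]), (4, [], [5])]),
  (3, 7, [(0, [0], [0, 1]), (0, [0], [0, 1]), (0, [1], [2, 3]), (0, [2], [2, 4]), (0, [2], [5, 6]), (0, [1], [5, 6]), (4, [], [4]), (4, [], [3])]),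
  (3, 7, [(0, [0], [0, 1]), (0, [1], [0, 2]), (0, [0], [2, 3]), (0, [2], [1, 4]), (0, [1], [5, 6]), (0, [2], [5, 6]), (4, [], [3]), (4, [], [4])]),
  (3, 7, [(0, [0], [0, 1]), (0, [1], [0, 2]), (0, [0], [3, 4]), (0, [1], [3, 4]), (0, [2], [1, 5]), (0, [2], [5, 6]), (4, [], [2]), (4, [], [6])]),
  (3, 7, [(0, [0], [0, 1]), (0, [0], [0, 2]), (0, [1], [1, 2]), (4, [], [3]), (0, [2], [4, 5]), (0, [2], [4, 6]), (0, [1], [5, 6]), (4, [], [3])]),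
  (3, 7, [(0, [0], [0, 1]), (0, [0], [0, 2]), (0, [1], [1, 2]), (4, [], [3]), (0, [2], [4, 5]), (0, [2], [4, 6]), (0, [1], [3, 6]), (4, [], [5])]),
  (3, 7, [(0, [0], [0, 1]), (0, [0], [0, 2]), (0, [1], [1, 2]), (4, [], [3]), (0, [2], [4, 5]), (0, [2], [4, 5]), (0, [1], [3, 6]), (4, [], [6])]),
  (3, 7, [(0, [0], [0, 1]), (0, [0], [0, 2]), (0, [1], [1, 2]), (4, [], [3]), (0, [2], [4, 5]), (0, [2], [3, 6]), (0, [1], [4, 6]), (4, [], [5])]),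
  (3, 7, [(0, [0], [0, 1]), (0, [0], [0, 2]), (0, [1], [1, 2]), (4, [], [3]), (0, [2], [4, 5]), (0, [2], [3, 6]), (0, [1], [4, 5]), (4, [], [6])]),
  (3, 7, [(0, [0], [0, 1]), (0, [0], [0, 2]), (0, [1], [3, 2]), (4, [], [1]), (0, [2], [4, 5]), (0, [2], [4, 6]), (0, [1], [3, 6]), (4, [], [5])]),
  (3, 7, [(0, [0], [0, 1]), (0, [0], [0, 2]), (0, [1], [3, 2]), (4, [], [1]), (0, [2], [4, 5]), (0, [2], [4, 5]), (0, [1], [3, 6]), (4, [], [6])]),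
  (3, 7, [(0, [0], [0, 1]), (0, [0], [0, 2]), (0, [1], [3, 2]), (4, [], [1]), (0, [2], [4, 5]), (0, [2], [3, 6]), (0, [1], [4, 6]), (4, [], [5])]),
  (3, 7, [(0, [0], [0, 1]), (0, [0], [0, 2]), (0, [1], [3, 2]), (4, [], [1]), (0, [2], [4, 5]), (0, [2], [3, 4]), (0, [1], [5, 6]), (4, [], [6])]),
  (3, 7, [(0, [0], [0, 1]), (0, [0], [0, 1]), (0, [1], [2, 3]), (4, [], [3]), (0, [2], [4, 5]), (0, [2], [2, 6]), (0, [1], [4, 6]), (4, [], [5])]),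
  (3, 7, [(0, [0], [0, 1]), (0, [0], [0, 1]), (0, [1], [2, 3]), (4, [], [3]), (0, [2], [4, 5]), (0, [2], [2, 4]), (0, [1], [5, 6]), (4, [], [6])]),
  (3, 7, [(0, [0], [0, 1]), (0, [0], [2, 3]), (0, [1], [0, 3]), (4, [], [1]), (0, [2], [4, 5]), (0, [2], [2, 6]), (0, [1], [4, 6]), (4, [], [5])]),
  (3, 7, [(0, [0], [0, 1]), (0, [0], [2, 3]), (0, [1], [0, 3]), (4, [], [1]), (0, [2], [4, 5]), (0, [2], [2, 4]), (0, [1], [5, 6]), (4, [], [6])]),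
  (3, 7, [(0, [0], [0, 1]), (0, [0], [2, 3]), (0, [1], [0, 1]), (4, [], [3]), (0, [2], [4, 5]), (0, [2], [2, 6]), (0, [1], [4, 5]), (4, [], [6])]),
  (3, 7, [(0, [0], [0, 1]), (0, [0], [2, 3]), (0, [1], [0, 1]), (4, [], [3]), (0, [2], [4, 5]), (0, [2], [2, 4]), (0, [1], [5, 6]), (4, [], [6])]),
  (3, 7, [(0, [0], [0, 1]), (0, [0], [2, 0]), (0, [1], [1, 3]), (4, [], [3]), (0, [2], [4, 5]), (0, [2], [2, 4]), (0, [1], [5, 6]), (4, [], [6])]),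
  (3, 7, [(0, [0], [0, 1]), (0, [0], [0, 1]), (0, [1], [2, 3]), (4, [], [4]), (0, [2], [5, 6]), (0, [2], [2, 5]), (0, [1], [3, 6]), (4, [], [4])]),
  (3, 7, [(0, [0], [0, 1]), (0, [0], [0, 1]), (0, [1], [2, 3]), (4, [], [4]), (0, [2], [2, 5]), (0, [2], [3, 6]), (0, [1], [5, 6]), (4, [], [4])]),
  (3, 7, [(0, [0], [0, 1]), (0, [0], [2, 0]), (0, [1], [3, 1]), (4, [], [4]), (0, [2], [5, 6]), (0, [2], [2, 5]), (0, [1], [3, 6]), (4, [], [4])]),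
  (3, 7, [(0, [0], [0, 1]), (0, [0], [2, 0]), (0, [1], [3, 1]), (4, [], [4]), (0, [2], [5, 6]), (0, [2], [3, 5]), (0, [1], [2, 6]), (4, [], [4])]),
  (3, 7, [(0, [0], [0, 1]), (0, [0], [2, 0]), (0, [1], [3, 1]), (4, [], [4]), (0, [2], [5, 6]), (0, [2], [4, 5]), (0, [1], [2, 3]), (4, [], [6])]),
  (3, 7, [(0, [0], [0, 1]), (0, [0], [2, 0]), (0, [1], [3, 1]), (4, [], [4]), (0, [2], [5, 6]), (0, [2], [2, 3]), (0, [1], [5, 6]), (4, [], [4])]),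
  (3, 7, [(0, [0], [0, 1]), (0, [0], [2, 0]), (0, [1], [3, 1]), (4, [], [4]), (0, [2], [5, 6]), (0, [2], [2, 3]), (0, [1], [4, 5]), (4, [], [6])]),
  (3, 7, [(0, [0], [0, 1]), (0, [0], [2, 0]), (0, [1], [3, 1]), (4, [], [4]), (0, [2], [5, 6]), (0, [2], [3, 4]), (0, [1], [2, 5]), (4, [], [6])]),
  (3, 7, [(0, [0], [0, 1]), (0, [0], [2, 0]), (0, [1], [3, 1]), (4, [], [4]), (0, [2], [2, 5]), (0, [2], [3, 6]), (0, [1], [5, 6]), (4, [], [4])]),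
  (3, 7, [(0, [0], [0, 1]), (0, [0], [2, 0]), (0, [1], [3, 1]), (4, [], [4]), (0, [2], [3, 5]), (0, [2], [2, 6]), (0, [1], [4, 6]), (4, [], [5])]),
  (3, 7, [(0, [0], [0, 1]), (0, [0], [2, 0]), (0, [1], [3, 1]), (4, [], [4]), (0, [2], [4, 5]), (0, [2], [2, 6]), (0, [1], [3, 6]), (4, [], [5])]),
  (3, 7, [(0, [0], [0, 1]), (0, [0], [2, 0]), (0, [1], [3, 1]), (4, [], [4]), (0, [2], [4, 5]), (0, [2], [3, 6]), (0, [1], [2, 6]), (4, [], [5])]),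
  (3, 7, [(0, [0], [0, 1]), (0, [0], [2, 0]), (0, [1], [3, 4]), (4, [], [1]), (0, [2], [5, 6]), (0, [2], [3, 4]), (0, [1], [5, 6]), (4, [], [2])]),
  (3, 7, [(0, [0], [0, 1]), (0, [0], [2, 0]), (0, [1], [3, 4]), (4, [], [1]), (0, [2], [3, 5]), (0, [2], [4, 6]), (0, [1], [5, 6]), (4, [], [2])]),
  (3, 7, [(0, [0], [0, 1]), (0, [0], [2, 3]), (0, [1], [0, 1]), (4, [], [4]), (0, [2], [5, 6]), (0, [2], [2, 4]), (0, [1], [3, 5]), (4, [], [6])]),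
  (3, 7, [(0, [0], [0, 1]), (0, [0], [2, 3]), (0, [1], [0, 1]), (4, [], [4]), (0, [2], [2, 5]), (0, [2], [3, 6]), (0, [1], [5, 6]), (4, [], [4])]),
  (3, 7, [(0, [0], [0, 1]), (0, [0], [2, 3]), (0, [1], [0, 1]), (4, [], [4]), (0, [2], [4, 5]), (0, [2], [2, 6]), (0, [1], [3, 6]), (4, [], [5])]),
  (3, 7, [(0, [0], [0, 1]), (0, [0], [2, 3]), (0, [1], [4, 0]), (4, [], [1]), (0, [2], [5, 6]), (0, [2], [2, 4]), (0, [1], [3, 5]), (4, [], [6])]),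
  (3, 7, [(0, [0], [0, 1]), (0, [0], [2, 3]), (0, [1], [4, 0]), (4, [], [1]), (0, [2], [2, 5]), (0, [2], [3, 6]), (0, [1], [5, 6]), (4, [], [4])]),
  (3, 7, [(0, [0], [0, 1]), (0, [0], [2, 3]), (0, [1], [4, 0]), (4, [], [1]), (0, [2], [2, 5]), (0, [2], [4, 6]), (0, [1], [5, 6]), (4, [], [3])]),
  (3, 7, [(0, [0], [0, 1]), (0, [0], [2, 3]), (0, [1], [4, 0]), (4, [], [1]), (0, [2], [2, 5]), (0, [2], [4, 6]), (0, [1], [3, 6]), (4, [], [5])]),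
  (3, 7, [(0, [0], [0, 1]), (0, [0], [2, 3]), (0, [1], [4, 0]), (4, [], [1]), (0, [2], [4, 5]), (0, [2], [2, 6]), (0, [1], [3, 6]), (4, [], [5])]),
  (3, 7, [(0, [0], [0, 1]), (0, [0], [2, 3]), (0, [1], [1, 3]), (4, [], [4]), (0, [2], [0, 5]), (0, [2], [2, 6]), (0, [1], [5, 6]), (4, [], [4])]),
  (3, 7, [(0, [0], [0, 1]), (0, [0], [2, 3]), (0, [1], [1, 3]), (4, [], [4]), (0, [2], [4, 5]), (0, [2], [0, 6]), (0, [1], [2, 6]), (4, [], [5])]),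
  (3, 7, [(0, [0], [0, 1]), (0, [0], [2, 3]), (0, [1], [4, 1]), (4, [], [5]), (0, [2], [2, 6]), (0, [2], [0, 4]), (0, [1], [3, 6]), (4, [], [5])])]

def kl26 : List ℕ := [13, 14, 57, 58, 94, 95, 96, 97, 98, 109, 110, 111, 112, 119, 120, 125, 126, 132, 133, 144, 204, 206, 216, 217, 218, 219, 220, 221, 222, 223, 224, 225, 252, 253, 267, 268, 269, 284, 285, 286, 287, 288, 302, 303, 430]

def m26_0 : Base := (0, 1, [(0, [0], [0, 5]), (0, [1], [1, 5]), (0, [2], [2, 3]), (4, [], [4])])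

def l26_0 : Cov := [(648, 0, 1, [(0, [0], [0, 5]), (0, [1], [1, 5]), (0, [2], [2, 3]), (4, [], [4])]),
  (648, 0, 1, [(0, [0], [0, 5]), (0, [1], [1, 5]), (0, [2], [2, 4]), (4, [], [3])]),
  (432, 0, 1, [(0, [0], [0, 5]), (0, [1], [1, 5]), (0, [2], [3, 4]), (4, [], [2])]),
  (216, 0, 1, [(0, [0], [0, 5]), (0, [1], [2, 5]), (0, [2], [1, 3]), (4, [], [4])]),
  (-216, 0, 1, [(0, [0], [0, 5]), (0, [1], [2, 5]), (0, [2], [3, 4]), (4, [], [1])]),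
  (-648, 0, 1, [(0, [0], [0, 5]), (0, [1], [4, 5]), (0, [2], [1, 2]), (4, [], [3])]),
  (-432, 0, 1, [(0, [0], [0, 5]), (0, [1], [4, 5]), (0, [2], [1, 3]), (4, [], [2])]),
  (-648, 0, 1, [(0, [0], [0, 5]), (0, [1], [4, 5]), (0, [2], [2, 3]), (4, [], [1])]),
  (648, 0, 1, [(0, [0], [1, 5]), (0, [1], [0, 5]), (0, [2], [2, 3]), (4, [], [4])]),
  (648, 0, 1, [(0, [0], [1, 5]), (0, [1], [0, 5]), (0, [2], [2, 4]), (4, [], [3])]),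
  (432, 0, 1, [(0, [0], [1, 5]), (0, [1], [0, 5]), (0, [2], [3, 4]), (4, [], [2])]),
  (216, 0, 1, [(0, [0], [1, 5]), (0, [1], [2, 5]), (0, [2], [0, 4]), (4, [], [3])]),
  (-216, 0, 1, [(0, [0], [1, 5]), (0, [1], [2, 5]), (0, [2], [3, 4]), (4, [], [0])]),
  (-648, 0, 1, [(0, [0], [1, 5]), (0, [1], [3, 5]), (0, [2], [0, 2]), (4, [], [4])]),
  (-432, 0, 1, [(0, [0], [1, 5]), (0, [1], [3, 5]), (0, [2], [0, 4]), (4, [], [2])]),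
  (-648, 0, 1, [(0, [0], [1, 5]), (0, [1], [3, 5]), (0, [2], [2, 4]), (4, [], [0])]),
  (216, 0, 1, [(0, [0], [2, 5]), (0, [1], [0, 5]), (0, [2], [1, 3]), (4, [], [4])]),
  (-216, 0, 1, [(0, [0], [2, 5]), (0, [1], [0, 5]), (0, [2], [3, 4]), (4, [], [1])]),
  (216, 0, 1, [(0, [0], [2, 5]), (0, [1], [1, 5]), (0, [2], [0, 4]), (4, [], [3])]),
  (-216, 0, 1, [(0, [0], [2, 5]), (0, [1], [1, 5]), (0, [2], [3, 4]), (4, [], [0])]),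
  (-216, 0, 1, [(0, [0], [2, 5]), (0, [1], [3, 5]), (0, [2], [0, 1]), (4, [], [4])]),
  (216, 0, 1, [(0, [0], [2, 5]), (0, [1], [3, 5]), (0, [2], [0, 4]), (4, [], [1])]),
  (-216, 0, 1, [(0, [0], [2, 5]), (0, [1], [4, 5]), (0, [2], [0, 1]), (4, [], [3])]),
  (216, 0, 1, [(0, [0], [2, 5]), (0, [1], [4, 5]), (0, [2], [1, 3]), (4, [], [0])]),
  (-648, 0, 1, [(0, [0], [3, 5]), (0, [1], [1, 5]), (0, [2], [0, 2]), (4, [], [4])]),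
  (-432, 0, 1, [(0, [0], [3, 5]), (0, [1], [1, 5]), (0, [2], [0, 4]), (4, [], [2])]),
  (-648, 0, 1, [(0, [0], [3, 5]), (0, [1], [1, 5]), (0, [2], [2, 4]), (4, [], [0])]),
  (-216, 0, 1, [(0, [0], [3, 5]), (0, [1], [2, 5]), (0, [2], [0, 1]), (4, [], [4])]),
  (216, 0, 1, [(0, [0], [3, 5]), (0, [1], [2, 5]), (0, [2], [0, 4]), (4, [], [1])]),
  (432, 0, 1, [(0, [0], [3, 5]), (0, [1], [4, 5]), (0, [2], [0, 1]), (4, [], [2])]),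
  (648, 0, 1, [(0, [0], [3, 5]), (0, [1], [4, 5]), (0, [2], [0, 2]), (4, [], [1])]),
  (648, 0, 1, [(0, [0], [3, 5]), (0, [1], [4, 5]), (0, [2], [1, 2]), (4, [], [0])]),
  (-648, 0, 1, [(0, [0], [4, 5]), (0, [1], [0, 5]), (0, [2], [1, 2]), (4, [], [3])]),
  (-432, 0, 1, [(0, [0], [4, 5]), (0, [1], [0, 5]), (0, [2], [1, 3]), (4, [], [2])]),
  (-648, 0, 1, [(0, [0], [4, 5]), (0, [1], [0, 5]), (0, [2], [2, 3]), (4, [], [1])]),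
  (-216, 0, 1, [(0, [0], [4, 5]), (0, [1], [2, 5]), (0, [2], [0, 1]), (4, [], [3])]),
  (216, 0, 1, [(0, [0], [4, 5]), (0, [1], [2, 5]), (0, [2], [1, 3]), (4, [], [0])]),
  (432, 0, 1, [(0, [0], [4, 5]), (0, [1], [3, 5]), (0, [2], [0, 1]), (4, [], [2])]),
  (648, 0, 1, [(0, [0], [4, 5]), (0, [1], [3, 5]), (0, [2], [0, 2]), (4, [], [1])]),
  (648, 0, 1, [(0, [0], [4, 5]), (0, [1], [3, 5]), (0, [2], [1, 2]), (4, [], [0])]),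
  (648, 0, 1, [(0, [0], [0, 5]), (0, [2], [1, 5]), (0, [1], [2, 3]), (4, [], [4])]),
  (648, 0, 1, [(0, [0], [0, 5]), (0, [2], [1, 5]), (0, [1], [2, 4]), (4, [], [3])]),
  (432, 0, 1, [(0, [0], [0, 5]), (0, [2], [1, 5]), (0, [1], [3, 4]), (4, [], [2])]),
  (216, 0, 1, [(0, [0], [0, 5]), (0, [2], [2, 5]), (0, [1], [1, 3]), (4, [], [4])]),
  (-216, 0, 1, [(0, [0], [0, 5]), (0, [2], [2, 5]), (0, [1], [3, 4]), (4, [], [1])]),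
  (-648, 0, 1, [(0, [0], [0, 5]), (0, [2], [4, 5]), (0, [1], [1, 2]), (4, [], [3])]),
  (-432, 0, 1, [(0, [0], [0, 5]), (0, [2], [4, 5]), (0, [1], [1, 3]), (4, [], [2])]),
  (-648, 0, 1, [(0, [0], [0, 5]), (0, [2], [4, 5]), (0, [1], [2, 3]), (4, [], [1])]),
  (648, 0, 1, [(0, [0], [1, 5]), (0, [2], [0, 5]), (0, [1], [2, 3]), (4, [], [4])]),
  (648, 0, 1, [(0, [0], [1, 5]), (0, [2], [0, 5]), (0, [1], [2, 4]), (4, [], [3])]),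
  (432, 0, 1, [(0, [0], [1, 5]), (0, [2], [0, 5]), (0, [1], [3, 4]), (4, [], [2])]),
  (216, 0, 1, [(0, [0], [1, 5]), (0, [2], [2, 5]), (0, [1], [0, 4]), (4, [], [3])]),
  (-216, 0, 1, [(0, [0], [1, 5]), (0, [2], [2, 5]), (0, [1], [3, 4]), (4, [], [0])]),
  (-648, 0, 1, [(0, [0], [1, 5]), (0, [2], [3, 5]), (0, [1], [0, 2]), (4, [], [4])]),
  (-432, 0, 1, [(0, [0], [1, 5]), (0, [2], [3, 5]), (0, [1], [0, 4]), (4, [], [2])]),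
  (-648, 0, 1, [(0, [0], [1, 5]), (0, [2], [3, 5]), (0, [1], [2, 4]), (4, [], [0])]),
  (216, 0, 1, [(0, [0], [2, 5]), (0, [2], [0, 5]), (0, [1], [1, 3]), (4, [], [4])]),
  (-216, 0, 1, [(0, [0], [2, 5]), (0, [2], [0, 5]), (0, [1], [3, 4]), (4, [], [1])]),
  (216, 0, 1, [(0, [0], [2, 5]), (0, [2], [1, 5]), (0, [1], [0, 4]), (4, [], [3])]),
  (-216, 0, 1, [(0, [0], [2, 5]), (0, [2], [1, 5]), (0, [1], [3, 4]), (4, [], [0])]),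
  (-216, 0, 1, [(0, [0], [2, 5]), (0, [2], [3, 5]), (0, [1], [0, 1]), (4, [], [4])]),
  (216, 0, 1, [(0, [0], [2, 5]), (0, [2], [3, 5]), (0, [1], [0, 4]), (4, [], [1])]),
  (-216, 0, 1, [(0, [0], [2, 5]), (0, [2], [4, 5]), (0, [1], [0, 1]), (4, [], [3])]),
  (216, 0, 1, [(0, [0], [2, 5]), (0, [2], [4, 5]), (0, [1], [1, 3]), (4, [], [0])]),
  (-648, 0, 1, [(0, [0], [3, 5]), (0, [2], [1, 5]), (0, [1], [0, 2]), (4, [], [4])]),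
  (-432, 0, 1, [(0, [0], [3, 5]), (0, [2], [1, 5]), (0, [1], [0, 4]), (4, [], [2])]),
  (-648, 0, 1, [(0, [0], [3, 5]), (0, [2], [1, 5]), (0, [1], [2, 4]), (4, [], [0])]),
  (-216, 0, 1, [(0, [0], [3, 5]), (0, [2], [2, 5]), (0, [1], [0, 1]), (4, [], [4])]),
  (216, 0, 1, [(0, [0], [3, 5]), (0, [2], [2, 5]), (0, [1], [0, 4]), (4, [], [1])]),
  (432, 0, 1, [(0, [0], [3, 5]), (0, [2], [4, 5]), (0, [1], [0, 1]), (4, [], [2])]),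
  (648, 0, 1, [(0, [0], [3, 5]), (0, [2], [4, 5]), (0, [1], [0, 2]), (4, [], [1])]),
  (648, 0, 1, [(0, [0], [3, 5]), (0, [2], [4, 5]), (0, [1], [1, 2]), (4, [], [0])]),
  (-648, 0, 1, [(0, [0], [4, 5]), (0, [2], [0, 5]), (0, [1], [1, 2]), (4, [], [3])]),
  (-432, 0, 1, [(0, [0], [4, 5]), (0, [2], [0, 5]), (0, [1], [1, 3]), (4, [], [2])]),
  (-648, 0, 1, [(0, [0], [4, 5]), (0, [2], [0, 5]), (0, [1], [2, 3]), (4, [], [1])]),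
  (-216, 0, 1, [(0, [0], [4, 5]), (0, [2], [2, 5]), (0, [1], [0, 1]), (4, [], [3])]),
  (216, 0, 1, [(0, [0], [4, 5]), (0, [2], [2, 5]), (0, [1], [1, 3]), (4, [], [0])]),
  (432, 0, 1, [(0, [0], [4, 5]), (0, [2], [3, 5]), (0, [1], [0, 1]), (4, [], [2])]),
  (648, 0, 1, [(0, [0], [4, 5]), (0, [2], [3, 5]), (0, [1], [0, 2]), (4, [], [1])]),
  (648, 0, 1, [(0, [0], [4, 5]), (0, [2], [3, 5]), (0, [1], [1, 2]), (4, [], [0])]),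
  (648, 0, 1, [(0, [1], [0, 5]), (0, [2], [1, 5]), (0, [0], [2, 3]), (4, [], [4])]),
  (648, 0, 1, [(0, [1], [0, 5]), (0, [2], [1, 5]), (0, [0], [2, 4]), (4, [], [3])]),
  (432, 0, 1, [(0, [1], [0, 5]), (0, [2], [1, 5]), (0, [0], [3, 4]), (4, [], [2])]),
  (216, 0, 1, [(0, [1], [0, 5]), (0, [2], [2, 5]), (0, [0], [1, 3]), (4, [], [4])]),
  (-216, 0, 1, [(0, [1], [0, 5]), (0, [2], [2, 5]), (0, [0], [3, 4]), (4, [], [1])]),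
  (-648, 0, 1, [(0, [1], [0, 5]), (0, [2], [4, 5]), (0, [0], [1, 2]), (4, [], [3])]),
  (-432, 0, 1, [(0, [1], [0, 5]), (0, [2], [4, 5]), (0, [0], [1, 3]), (4, [], [2])]),
  (-648, 0, 1, [(0, [1], [0, 5]), (0, [2], [4, 5]), (0, [0], [2, 3]), (4, [], [1])]),
  (648, 0, 1, [(0, [1], [1, 5]), (0, [2], [0, 5]), (0, [0], [2, 3]), (4, [], [4])]),
  (648, 0, 1, [(0, [1], [1, 5]), (0, [2], [0, 5]), (0, [0], [2, 4]), (4, [], [3])]),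
  (432, 0, 1, [(0, [1], [1, 5]), (0, [2], [0, 5]), (0, [0], [3, 4]), (4, [], [2])]),
  (216, 0, 1, [(0, [1], [1, 5]), (0, [2], [2, 5]), (0, [0], [0, 4]), (4, [], [3])]),
  (-216, 0, 1, [(0, [1], [1, 5]), (0, [2], [2, 5]), (0, [0], [3, 4]), (4, [], [0])]),
  (-648, 0, 1, [(0, [1], [1, 5]), (0, [2], [3, 5]), (0, [0], [0, 2]), (4, [], [4])]),
  (-432, 0, 1, [(0, [1], [1, 5]), (0, [2], [3, 5]), (0, [0], [0, 4]), (4, [], [2])]),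
  (-648, 0, 1, [(0, [1], [1, 5]), (0, [2], [3, 5]), (0, [0], [2, 4]), (4, [], [0])]),
  (216, 0, 1, [(0, [1], [2, 5]), (0, [2], [0, 5]), (0, [0], [1, 3]), (4, [], [4])]),
  (-216, 0, 1, [(0, [1], [2, 5]), (0, [2], [0, 5]), (0, [0], [3, 4]), (4, [], [1])]),
  (216, 0, 1, [(0, [1], [2, 5]), (0, [2], [1, 5]), (0, [0], [0, 4]), (4, [], [3])]),
  (-216, 0, 1, [(0, [1], [2, 5]), (0, [2], [1, 5]), (0, [0], [3, 4]), (4, [], [0])]),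
  (-216, 0, 1, [(0, [1], [2, 5]), (0, [2], [3, 5]), (0, [0], [0, 1]), (4, [], [4])]),
  (216, 0, 1, [(0, [1], [2, 5]), (0, [2], [3, 5]), (0, [0], [0, 4]), (4, [], [1])]),
  (-216, 0, 1, [(0, [1], [2, 5]), (0, [2], [4, 5]), (0, [0], [0, 1]), (4, [], [3])]),
  (216, 0, 1, [(0, [1], [2, 5]), (0, [2], [4, 5]), (0, [0], [1, 3]), (4, [], [0])]),
  (-648, 0, 1, [(0, [1], [3, 5]), (0, [2], [1, 5]), (0, [0], [0, 2]), (4, [], [4])]),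
  (-432, 0, 1, [(0, [1], [3, 5]), (0, [2], [1, 5]), (0, [0], [0, 4]), (4, [], [2])]),
  (-648, 0, 1, [(0, [1], [3, 5]), (0, [2], [1, 5]), (0, [0], [2, 4]), (4, [], [0])]),
  (-216, 0, 1, [(0, [1], [3, 5]), (0, [2], [2, 5]), (0, [0], [0, 1]), (4, [], [4])]),
  (216, 0, 1, [(0, [1], [3, 5]), (0, [2], [2, 5]), (0, [0], [0, 4]), (4, [], [1])]),
  (432, 0, 1, [(0, [1], [3, 5]), (0, [2], [4, 5]), (0, [0], [0, 1]), (4, [], [2])]),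
  (648, 0, 1, [(0, [1], [3, 5]), (0, [2], [4, 5]), (0, [0], [0, 2]), (4, [], [1])]),
  (648, 0, 1, [(0, [1], [3, 5]), (0, [2], [4, 5]), (0, [0], [1, 2]), (4, [], [0])]),
  (-648, 0, 1, [(0, [1], [4, 5]), (0, [2], [0, 5]), (0, [0], [1, 2]), (4, [], [3])]),
  (-432, 0, 1, [(0, [1], [4, 5]), (0, [2], [0, 5]), (0, [0], [1, 3]), (4, [], [2])]),
  (-648, 0, 1, [(0, [1], [4, 5]), (0, [2], [0, 5]), (0, [0], [2, 3]), (4, [], [1])]),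
  (-216, 0, 1, [(0, [1], [4, 5]), (0, [2], [2, 5]), (0, [0], [0, 1]), (4, [], [3])]),
  (216, 0, 1, [(0, [1], [4, 5]), (0, [2], [2, 5]), (0, [0], [1, 3]), (4, [], [0])]),
  (432, 0, 1, [(0, [1], [4, 5]), (0, [2], [3, 5]), (0, [0], [0, 1]), (4, [], [2])]),
  (648, 0, 1, [(0, [1], [4, 5]), (0, [2], [3, 5]), (0, [0], [0, 2]), (4, [], [1])]),
  (648, 0, 1, [(0, [1], [4, 5]), (0, [2], [3, 5]), (0, [0], [1, 2]), (4, [], [0])])]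

def z26_0 : Cov := [(0, 0, 1, [(0, [0], [0, 5]), (0, [1], [2, 5]), (0, [2], [1, 4]), (4, [], [3])]),
  (0, 0, 1, [(0, [0], [0, 5]), (0, [1], [3, 5]), (0, [2], [1, 2]), (4, [], [4])]),
  (0, 0, 1, [(0, [0], [0, 5]), (0, [1], [3, 5]), (0, [2], [1, 4]), (4, [], [2])]),
  (0, 0, 1, [(0, [0], [0, 5]), (0, [1], [3, 5]), (0, [2], [2, 4]), (4, [], [1])]),
  (0, 0, 1, [(0, [0], [1, 5]), (0, [1], [2, 5]), (0, [2], [0, 3]), (4, [], [4])]),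
  (0, 0, 1, [(0, [0], [1, 5]), (0, [1], [4, 5]), (0, [2], [0, 2]), (4, [], [3])]),
  (0, 0, 1, [(0, [0], [1, 5]), (0, [1], [4, 5]), (0, [2], [0, 3]), (4, [], [2])]),
  (0, 0, 1, [(0, [0], [1, 5]), (0, [1], [4, 5]), (0, [2], [2, 3]), (4, [], [0])]),
  (0, 0, 1, [(0, [0], [2, 5]), (0, [1], [0, 5]), (0, [2], [1, 4]), (4, [], [3])]),
  (0, 0, 1, [(0, [0], [2, 5]), (0, [1], [1, 5]), (0, [2], [0, 3]), (4, [], [4])]),
  (0, 0, 1, [(0, [0], [2, 5]), (0, [1], [3, 5]), (0, [2], [1, 4]), (4, [], [0])]),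
  (0, 0, 1, [(0, [0], [2, 5]), (0, [1], [4, 5]), (0, [2], [0, 3]), (4, [], [1])]),
  (0, 0, 1, [(0, [0], [3, 5]), (0, [1], [0, 5]), (0, [2], [1, 2]), (4, [], [4])]),
  (0, 0, 1, [(0, [0], [3, 5]), (0, [1], [0, 5]), (0, [2], [1, 4]), (4, [], [2])]),
  (0, 0, 1, [(0, [0], [3, 5]), (0, [1], [0, 5]), (0, [2], [2, 4]), (4, [], [1])]),
  (0, 0, 1, [(0, [0], [3, 5]), (0, [1], [2, 5]), (0, [2], [1, 4]), (4, [], [0])]),
  (0, 0, 1, [(0, [0], [4, 5]), (0, [1], [1, 5]), (0, [2], [0, 2]), (4, [], [3])]),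
  (0, 0, 1, [(0, [0], [4, 5]), (0, [1], [1, 5]), (0, [2], [0, 3]), (4, [], [2])]),
  (0, 0, 1, [(0, [0], [4, 5]), (0, [1], [1, 5]), (0, [2], [2, 3]), (4, [], [0])]),
  (0, 0, 1, [(0, [0], [4, 5]), (0, [1], [2, 5]), (0, [2], [0, 3]), (4, [], [1])]),
  (0, 0, 1, [(0, [0], [0, 5]), (0, [2], [2, 5]), (0, [1], [1, 4]), (4, [], [3])]),
  (0, 0, 1, [(0, [0], [0, 5]), (0, [2], [3, 5]), (0, [1], [1, 2]), (4, [], [4])]),
  (0, 0, 1, [(0, [0], [0, 5]), (0, [2], [3, 5]), (0, [1], [1, 4]), (4, [], [2])]),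
  (0, 0, 1, [(0, [0], [0, 5]), (0, [2], [3, 5]), (0, [1], [2, 4]), (4, [], [1])]),
  (0, 0, 1, [(0, [0], [1, 5]), (0, [2], [2, 5]), (0, [1], [0, 3]), (4, [], [4])]),
  (0, 0, 1, [(0, [0], [1, 5]), (0, [2], [4, 5]), (0, [1], [0, 2]), (4, [], [3])]),
  (0, 0, 1, [(0, [0], [1, 5]), (0, [2], [4, 5]), (0, [1], [0, 3]), (4, [], [2])]),
  (0, 0, 1, [(0, [0], [1, 5]), (0, [2], [4, 5]), (0, [1], [2, 3]), (4, [], [0])]),
  (0, 0, 1, [(0, [0], [2, 5]), (0, [2], [0, 5]), (0, [1], [1, 4]), (4, [], [3])]),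
  (0, 0, 1, [(0, [0], [2, 5]), (0, [2], [1, 5]), (0, [1], [0, 3]), (4, [], [4])]),
  (0, 0, 1, [(0, [0], [2, 5]), (0, [2], [3, 5]), (0, [1], [1, 4]), (4, [], [0])]),
  (0, 0, 1, [(0, [0], [2, 5]), (0, [2], [4, 5]), (0, [1], [0, 3]), (4, [], [1])]),
  (0, 0, 1, [(0, [0], [3, 5]), (0, [2], [0, 5]), (0, [1], [1, 2]), (4, [], [4])]),
  (0, 0, 1, [(0, [0], [3, 5]), (0, [2], [0, 5]), (0, [1], [1, 4]), (4, [], [2])]),
  (0, 0, 1, [(0, [0], [3, 5]), (0, [2], [0, 5]), (0, [1], [2, 4]), (4, [], [1])]),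
  (0, 0, 1, [(0, [0], [3, 5]), (0, [2], [2, 5]), (0, [1], [1, 4]), (4, [], [0])]),
  (0, 0, 1, [(0, [0], [4, 5]), (0, [2], [1, 5]), (0, [1], [0, 2]), (4, [], [3])]),
  (0, 0, 1, [(0, [0], [4, 5]), (0, [2], [1, 5]), (0, [1], [0, 3]), (4, [], [2])]),
  (0, 0, 1, [(0, [0], [4, 5]), (0, [2], [1, 5]), (0, [1], [2, 3]), (4, [], [0])]),
  (0, 0, 1, [(0, [0], [4, 5]), (0, [2], [2, 5]), (0, [1], [0, 3]), (4, [], [1])]),
  (0, 0, 1, [(0, [1], [0, 5]), (0, [2], [2, 5]), (0, [0], [1, 4]), (4, [], [3])]),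
  (0, 0, 1, [(0, [1], [0, 5]), (0, [2], [3, 5]), (0, [0], [1, 2]), (4, [], [4])]),
  (0, 0, 1, [(0, [1], [0, 5]), (0, [2], [3, 5]), (0, [0], [1, 4]), (4, [], [2])]),
  (0, 0, 1, [(0, [1], [0, 5]), (0, [2], [3, 5]), (0, [0], [2, 4]), (4, [], [1])]),
  (0, 0, 1, [(0, [1], [1, 5]), (0, [2], [2, 5]), (0, [0], [0, 3]), (4, [], [4])]),
  (0, 0, 1, [(0, [1], [1, 5]), (0, [2], [4, 5]), (0, [0], [0, 2]), (4, [], [3])]),
  (0, 0, 1, [(0, [1], [1, 5]), (0, [2], [4, 5]), (0, [0], [0, 3]), (4, [], [2])]),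
  (0, 0, 1, [(0, [1], [1, 5]), (0, [2], [4, 5]), (0, [0], [2, 3]), (4, [], [0])]),
  (0, 0, 1, [(0, [1], [2, 5]), (0, [2], [0, 5]), (0, [0], [1, 4]), (4, [], [3])]),
  (0, 0, 1, [(0, [1], [2, 5]), (0, [2], [1, 5]), (0, [0], [0, 3]), (4, [], [4])]),
  (0, 0, 1, [(0, [1], [2, 5]), (0, [2], [3, 5]), (0, [0], [1, 4]), (4, [], [0])]),
  (0, 0, 1, [(0, [1], [2, 5]), (0, [2], [4, 5]), (0, [0], [0, 3]), (4, [], [1])]),
  (0, 0, 1, [(0, [1], [3, 5]), (0, [2], [0, 5]), (0, [0], [1, 2]), (4, [], [4])]),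
  (0, 0, 1, [(0, [1], [3, 5]), (0, [2], [0, 5]), (0, [0], [1, 4]), (4, [], [2])]),
  (0, 0, 1, [(0, [1], [3, 5]), (0, [2], [0, 5]), (0, [0], [2, 4]), (4, [], [1])]),
  (0, 0, 1, [(0, [1], [3, 5]), (0, [2], [2, 5]), (0, [0], [1, 4]), (4, [], [0])]),
  (0, 0, 1, [(0, [1], [4, 5]), (0, [2], [1, 5]), (0, [0], [0, 2]), (4, [], [3])]),
  (0, 0, 1, [(0, [1], [4, 5]), (0, [2], [1, 5]), (0, [0], [0, 3]), (4, [], [2])]),
  (0, 0, 1, [(0, [1], [4, 5]), (0, [2], [1, 5]), (0, [0], [2, 3]), (4, [], [0])]),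
  (0, 0, 1, [(0, [1], [4, 5]), (0, [2], [2, 5]), (0, [0], [0, 3]), (4, [], [1])])]

def w26_0 : List (List Wit) := [[(0, 0, 0, 0, 0), (1, 0, 0, 0, 0), (0, 0, 0, 0, 0), (2, 0, 0, 0, 0), (1, 0, 0, 0, 0), (2, 0, 0, 0, 0), (3, 0, 0, 0, 0), (120, 0, 0, 0, 0), (3, 0, 0, 0, 0), (4, 0, 0, 0, 0), (120, 0, 0, 0, 0), (4, 0, 0, 0, 0), (121, 0, 0, 0, 0), (122, 0, 0, 0, 0), (121, 0, 0, 0, 0), (123, 0, 0, 0, 0), (122, 0, 0, 0, 0), (123, 0, 0, 0, 0), (5, 0, 0, 0, 0), (6, 0, 0, 0, 0), (5, 0, 0, 0, 0), (7, 0, 0, 0, 0), (6, 0, 0, 0, 0), (7, 0, 0, 0, 0), (8, 0, 0, 0, 0), (9, 0, 0, 0, 0), (8, 0, 0, 0, 0), (10, 0, 0, 0, 0), (9, 0, 0, 0, 0), (10, 0, 0, 0, 0), (124, 0, 0, 0, 0), (11, 0, 0, 0, 0), (124, 0, 0, 0, 0), (12, 0, 0, 0, 0), (11, 0, 0, 0, 0), (12, 0, 0, 0, 0), (13, 0, 0, 0, 0), (14, 0, 0, 0, 0), (13, 0, 0, 0, 0), (15, 0, 0, 0, 0), (14, 0,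 0, 0, 0), (15, 0, 0, 0, 0), (125, 0, 0, 0, 0), (126, 0, 0, 0, 0), (125, 0, 0, 0, 0), (127, 0, 0, 0, 0), (126, 0, 0, 0, 0), (127, 0, 0, 0, 0), (16, 0, 0, 0, 0), (128, 0, 0, 0, 0), (16, 0, 0, 0, 0), (17, 0, 0, 0, 0), (128, 0, 0, 0, 0), (17, 0, 0, 0, 0), (129, 0, 0, 0, 0), (18, 0, 0, 0, 0), (129, 0, 0, 0, 0), (19, 0, 0, 0, 0), (18, 0, 0, 0, 0), (19, 0, 0, 0, 0), (20, 0, 0, 0, 0), (21, 0, 0, 0, 0), (20, 0, 0, 0, 0), (130, 0, 0, 0, 0), (21, 0, 0, 0, 0), (130, 0, 0, 0, 0), (22, 0, 0, 0, 0), (131, 0, 0, 0, 0), (22, 0, 0, 0, 0), (23, 0, 0, 0, 0), (131, 0, 0, 0, 0), (23, 0, 0, 0, 0), (132, 0, 0, 0, 0), (133, 0, 0, 0, 0), (132, 0, 0, 0, 0), (134, 0, 0, 0, 0), (133, 0, 0, 0, 0), (134, 0, 0, 0, 0), (24, 0, 0, 0, 0), (25, 0, 0, 0, 0), (24, 0, 0, 0, 0), (26, 0, 0, 0, 0), (25, 0, 0, 0, 0), (26, 0, 0, 0, 0), (27, 0, 0, 0, 0), (28, 0, 0, 0,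 0), (27, 0, 0, 0, 0), (135, 0, 0, 0, 0), (28, 0, 0, 0, 0), (135, 0, 0, 0, 0), (29, 0, 0, 0, 0), (30, 0, 0, 0, 0), (29, 0, 0, 0, 0), (31, 0, 0, 0, 0), (30, 0, 0, 0, 0), (31, 0, 0, 0, 0), (32, 0, 0, 0, 0), (33, 0, 0, 0, 0), (32, 0, 0, 0, 0), (34, 0, 0, 0, 0), (33, 0, 0, 0, 0), (34, 0, 0, 0, 0), (136, 0, 0, 0, 0), (137, 0, 0, 0, 0), (136, 0, 0, 0, 0), (138, 0, 0, 0, 0), (137, 0, 0, 0, 0), (138, 0, 0, 0, 0), (35, 0, 0, 0, 0), (139, 0, 0, 0, 0), (35, 0, 0, 0, 0), (36, 0, 0, 0, 0), (139, 0, 0, 0, 0), (36, 0, 0, 0, 0), (37, 0, 0, 0, 0), (38, 0, 0, 0, 0), (37, 0, 0, 0, 0), (39, 0, 0, 0, 0), (38, 0, 0, 0, 0), (39, 0, 0, 0, 0)],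
  [(40, 0, 0, 0, 0), (41, 0, 0, 0, 0), (40, 0, 0, 0, 0), (42, 0, 0, 0, 0), (41, 0, 0, 0, 0), (42, 0, 0, 0, 0), (43, 0, 0, 0, 0), (140, 0, 0, 0, 0), (43, 0, 0, 0, 0), (44, 0, 0, 0, 0), (140, 0, 0, 0, 0), (44, 0, 0, 0, 0), (141, 0, 0, 0, 0), (142, 0, 0, 0, 0), (141, 0, 0, 0, 0), (143, 0, 0, 0, 0), (142, 0, 0, 0, 0), (143, 0, 0, 0, 0), (45, 0, 0, 0, 0), (46, 0, 0, 0, 0), (45, 0, 0, 0, 0), (47, 0, 0, 0, 0), (46, 0, 0, 0, 0), (47, 0, 0, 0, 0), (48, 0, 0, 0, 0), (49, 0, 0, 0, 0), (48, 0, 0, 0, 0), (50, 0, 0, 0, 0), (49, 0, 0, 0, 0), (50, 0, 0, 0, 0), (144, 0, 0, 0, 0), (51, 0, 0, 0, 0), (144, 0, 0, 0, 0), (52, 0, 0, 0, 0), (51, 0, 0, 0, 0), (52, 0, 0, 0, 0), (53, 0, 0, 0, 0), (54, 0, 0, 0, 0), (53, 0, 0, 0, 0), (55, 0, 0, 0, 0), (54, 0, 0, 0, 0), (55, 0, 0, 0, 0), (145, 0, 0, 0, 0), (146, 0, 0, 0, 0), (145, 0, 0, 0, 0), (147, 0,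 0, 0, 0), (146, 0, 0, 0, 0), (147, 0, 0, 0, 0), (56, 0, 0, 0, 0), (148, 0, 0, 0, 0), (56, 0, 0, 0, 0), (57, 0, 0, 0, 0), (148, 0, 0, 0, 0), (57, 0, 0, 0, 0), (149, 0, 0, 0, 0), (58, 0, 0, 0, 0), (149, 0, 0, 0, 0), (59, 0, 0, 0, 0), (58, 0, 0, 0, 0), (59, 0, 0, 0, 0), (60, 0, 0, 0, 0), (61, 0, 0, 0, 0), (60, 0, 0, 0, 0), (150, 0, 0, 0, 0), (61, 0, 0, 0, 0), (150, 0, 0, 0, 0), (62, 0, 0, 0, 0), (151, 0, 0, 0, 0), (62, 0, 0, 0, 0), (63, 0, 0, 0, 0), (151, 0, 0, 0, 0), (63, 0, 0, 0, 0), (152, 0, 0, 0, 0), (153, 0, 0, 0, 0), (152, 0, 0, 0, 0), (154, 0, 0, 0, 0), (153, 0, 0, 0, 0), (154, 0, 0, 0, 0), (64, 0, 0, 0, 0), (65, 0, 0, 0, 0), (64, 0, 0, 0, 0), (66, 0, 0, 0, 0), (65, 0, 0, 0, 0), (66, 0, 0, 0, 0), (67, 0, 0, 0, 0), (68, 0, 0, 0, 0), (67, 0, 0, 0, 0), (155, 0, 0, 0, 0), (68, 0, 0, 0, 0), (155, 0, 0, 0, 0), (69, 0, 0, 0,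 0), (70, 0, 0, 0, 0), (69, 0, 0, 0, 0), (71, 0, 0, 0, 0), (70, 0, 0, 0, 0), (71, 0, 0, 0, 0), (72, 0, 0, 0, 0), (73, 0, 0, 0, 0), (72, 0, 0, 0, 0), (74, 0, 0, 0, 0), (73, 0, 0, 0, 0), (74, 0, 0, 0, 0), (156, 0, 0, 0, 0), (157, 0, 0, 0, 0), (156, 0, 0, 0, 0), (158, 0, 0, 0, 0), (157, 0, 0, 0, 0), (158, 0, 0, 0, 0), (75, 0, 0, 0, 0), (159, 0, 0, 0, 0), (75, 0, 0, 0, 0), (76, 0, 0, 0, 0), (159, 0, 0, 0, 0), (76, 0, 0, 0, 0), (77, 0, 0, 0, 0), (78, 0, 0, 0, 0), (77, 0, 0, 0, 0), (79, 0, 0, 0, 0), (78, 0, 0, 0, 0), (79, 0, 0, 0, 0)],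
  [(8, 0, 0, 0, 0), (9, 0, 0, 0, 0), (8, 0, 0, 0, 0), (10, 0, 0, 0, 0), (9, 0, 0, 0, 0), (10, 0, 0, 0, 0), (16, 0, 0, 0, 0), (128, 0, 0, 0, 0), (16, 0, 0, 0, 0), (17, 0, 0, 0, 0), (128, 0, 0, 0, 0), (17, 0, 0, 0, 0), (132, 0, 0, 0, 0), (133, 0, 0, 0, 0), (132, 0, 0, 0, 0), (134, 0, 0, 0, 0), (133, 0, 0, 0, 0), (134, 0, 0, 0, 0), (32, 0, 0, 0, 0), (33, 0, 0, 0, 0), (32, 0, 0, 0, 0), (34, 0, 0, 0, 0), (33, 0, 0, 0, 0), (34, 0, 0, 0, 0), (0, 0, 0, 0, 0), (1, 0, 0, 0, 0), (0, 0, 0, 0, 0), (2, 0, 0, 0, 0), (1, 0, 0, 0, 0), (2, 0, 0, 0, 0), (129, 0, 0, 0, 0), (18, 0, 0, 0, 0), (129, 0, 0, 0, 0), (19, 0, 0, 0, 0), (18, 0, 0, 0, 0), (19, 0, 0, 0, 0), (24, 0, 0, 0, 0), (25, 0, 0, 0, 0), (24, 0, 0, 0, 0), (26, 0, 0, 0, 0), (25, 0, 0, 0, 0), (26, 0, 0, 0, 0), (136, 0, 0, 0, 0), (137, 0, 0, 0, 0), (136, 0, 0, 0, 0), (138, 0, 0, 0, 0),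 (137, 0, 0, 0, 0), (138, 0, 0, 0, 0), (3, 0, 0, 0, 0), (120, 0, 0, 0, 0), (3, 0, 0, 0, 0), (4, 0, 0, 0, 0), (120, 0, 0, 0, 0), (4, 0, 0, 0, 0), (124, 0, 0, 0, 0), (11, 0, 0, 0, 0), (124, 0, 0, 0, 0), (12, 0, 0, 0, 0), (11, 0, 0, 0, 0), (12, 0, 0, 0, 0), (27, 0, 0, 0, 0), (28, 0, 0, 0, 0), (27, 0, 0, 0, 0), (135, 0, 0, 0, 0), (28, 0, 0, 0, 0), (135, 0, 0, 0, 0), (35, 0, 0, 0, 0), (139, 0, 0, 0, 0), (35, 0, 0, 0, 0), (36, 0, 0, 0, 0), (139, 0, 0, 0, 0), (36, 0, 0, 0, 0), (121, 0, 0, 0, 0), (122, 0, 0, 0, 0), (121, 0, 0, 0, 0), (123, 0, 0, 0, 0), (122, 0, 0, 0, 0), (123, 0, 0, 0, 0), (13, 0, 0, 0, 0), (14, 0, 0, 0, 0), (13, 0, 0, 0, 0), (15, 0, 0, 0, 0), (14, 0, 0, 0, 0), (15, 0, 0, 0, 0), (20, 0, 0, 0, 0), (21, 0, 0, 0, 0), (20, 0, 0, 0, 0), (130, 0, 0, 0, 0), (21, 0, 0, 0, 0), (130, 0, 0, 0, 0), (37, 0, 0, 0, 0), (38, 0, 0,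 0, 0), (37, 0, 0, 0, 0), (39, 0, 0, 0, 0), (38, 0, 0, 0, 0), (39, 0, 0, 0, 0), (5, 0, 0, 0, 0), (6, 0, 0, 0, 0), (5, 0, 0, 0, 0), (7, 0, 0, 0, 0), (6, 0, 0, 0, 0), (7, 0, 0, 0, 0), (125, 0, 0, 0, 0), (126, 0, 0, 0, 0), (125, 0, 0, 0, 0), (127, 0, 0, 0, 0), (126, 0, 0, 0, 0), (127, 0, 0, 0, 0), (22, 0, 0, 0, 0), (131, 0, 0, 0, 0), (22, 0, 0, 0, 0), (23, 0, 0, 0, 0), (131, 0, 0, 0, 0), (23, 0, 0, 0, 0), (29, 0, 0, 0, 0), (30, 0, 0, 0, 0), (29, 0, 0, 0, 0), (31, 0, 0, 0, 0), (30, 0, 0, 0, 0), (31, 0, 0, 0, 0)],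
  [(80, 0, 0, 0, 0), (81, 0, 0, 0, 0), (80, 0, 0, 0, 0), (82, 0, 0, 0, 0), (81, 0, 0, 0, 0), (82, 0, 0, 0, 0), (83, 0, 0, 0, 0), (160, 0, 0, 0, 0), (83, 0, 0, 0, 0), (84, 0, 0, 0, 0), (160, 0, 0, 0, 0), (84, 0, 0, 0, 0), (161, 0, 0, 0, 0), (162, 0, 0, 0, 0), (161, 0, 0, 0, 0), (163, 0, 0, 0, 0), (162, 0, 0, 0, 0), (163, 0, 0, 0, 0), (85, 0, 0, 0, 0), (86, 0, 0, 0, 0), (85, 0, 0, 0, 0), (87, 0, 0, 0, 0), (86, 0, 0, 0, 0), (87, 0, 0, 0, 0), (88, 0, 0, 0, 0), (89, 0, 0, 0, 0), (88, 0, 0, 0, 0), (90, 0, 0, 0, 0), (89, 0, 0, 0, 0), (90, 0, 0, 0, 0), (164, 0, 0, 0, 0), (91, 0, 0, 0, 0), (164, 0, 0, 0, 0), (92, 0, 0, 0, 0), (91, 0, 0, 0, 0), (92, 0, 0, 0, 0), (93, 0, 0, 0, 0), (94, 0, 0, 0, 0), (93, 0, 0, 0, 0), (95, 0, 0, 0, 0), (94, 0, 0, 0, 0), (95, 0, 0, 0, 0), (165, 0, 0, 0, 0), (166, 0, 0, 0, 0), (165, 0, 0, 0, 0), (167, 0,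 0, 0, 0), (166, 0, 0, 0, 0), (167, 0, 0, 0, 0), (96, 0, 0, 0, 0), (168, 0, 0, 0, 0), (96, 0, 0, 0, 0), (97, 0, 0, 0, 0), (168, 0, 0, 0, 0), (97, 0, 0, 0, 0), (169, 0, 0, 0, 0), (98, 0, 0, 0, 0), (169, 0, 0, 0, 0), (99, 0, 0, 0, 0), (98, 0, 0, 0, 0), (99, 0, 0, 0, 0), (100, 0, 0, 0, 0), (101, 0, 0, 0, 0), (100, 0, 0, 0, 0), (170, 0, 0, 0, 0), (101, 0, 0, 0, 0), (170, 0, 0, 0, 0), (102, 0, 0, 0, 0), (171, 0, 0, 0, 0), (102, 0, 0, 0, 0), (103, 0, 0, 0, 0), (171, 0, 0, 0, 0), (103, 0, 0, 0, 0), (172, 0, 0, 0, 0), (173, 0, 0, 0, 0), (172, 0, 0, 0, 0), (174, 0, 0, 0, 0), (173, 0, 0, 0, 0), (174, 0, 0, 0, 0), (104, 0, 0, 0, 0), (105, 0, 0, 0, 0), (104, 0, 0, 0, 0), (106, 0, 0, 0, 0), (105, 0, 0, 0, 0), (106, 0, 0, 0, 0), (107, 0, 0, 0, 0), (108, 0, 0, 0, 0), (107, 0, 0, 0, 0), (175, 0, 0, 0, 0), (108, 0, 0, 0, 0), (175, 0, 0, 0,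 0), (109, 0, 0, 0, 0), (110, 0, 0, 0, 0), (109, 0, 0, 0, 0), (111, 0, 0, 0, 0), (110, 0, 0, 0, 0), (111, 0, 0, 0, 0), (112, 0, 0, 0, 0), (113, 0, 0, 0, 0), (112, 0, 0, 0, 0), (114, 0, 0, 0, 0), (113, 0, 0, 0, 0), (114, 0, 0, 0, 0), (176, 0, 0, 0, 0), (177, 0, 0, 0, 0), (176, 0, 0, 0, 0), (178, 0, 0, 0, 0), (177, 0, 0, 0, 0), (178, 0, 0, 0, 0), (115, 0, 0, 0, 0), (179, 0, 0, 0, 0), (115, 0, 0, 0, 0), (116, 0, 0, 0, 0), (179, 0, 0, 0, 0), (116, 0, 0, 0, 0), (117, 0, 0, 0, 0), (118, 0, 0, 0, 0), (117, 0, 0, 0, 0), (119, 0, 0, 0, 0), (118, 0, 0, 0, 0), (119, 0, 0, 0, 0)],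
  [(48, 0, 0, 0, 0), (49, 0, 0, 0, 0), (48, 0, 0, 0, 0), (50, 0, 0, 0, 0), (49, 0, 0, 0, 0), (50, 0, 0, 0, 0), (56, 0, 0, 0, 0), (148, 0, 0, 0, 0), (56, 0, 0, 0, 0), (57, 0, 0, 0, 0), (148, 0, 0, 0, 0), (57, 0, 0, 0, 0), (152, 0, 0, 0, 0), (153, 0, 0, 0, 0), (152, 0, 0, 0, 0), (154, 0, 0, 0, 0), (153, 0, 0, 0, 0), (154, 0, 0, 0, 0), (72, 0, 0, 0, 0), (73, 0, 0, 0, 0), (72, 0, 0, 0, 0), (74, 0, 0, 0, 0), (73, 0, 0, 0, 0), (74, 0, 0, 0, 0), (40, 0, 0, 0, 0), (41, 0, 0, 0, 0), (40, 0, 0, 0, 0), (42, 0, 0, 0, 0), (41, 0, 0, 0, 0), (42, 0, 0, 0, 0), (149, 0, 0, 0, 0), (58, 0, 0, 0, 0), (149, 0, 0, 0, 0), (59, 0, 0, 0, 0), (58, 0, 0, 0, 0), (59, 0, 0, 0, 0), (64, 0, 0, 0, 0), (65, 0, 0, 0, 0), (64, 0, 0, 0, 0), (66, 0, 0, 0, 0), (65, 0, 0, 0, 0), (66, 0, 0, 0, 0), (156, 0, 0, 0, 0), (157, 0, 0, 0, 0), (156, 0, 0, 0, 0), (158, 0,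 0, 0, 0), (157, 0, 0, 0, 0), (158, 0, 0, 0, 0), (43, 0, 0, 0, 0), (140, 0, 0, 0, 0), (43, 0, 0, 0, 0), (44, 0, 0, 0, 0), (140, 0, 0, 0, 0), (44, 0, 0, 0, 0), (144, 0, 0, 0, 0), (51, 0, 0, 0, 0), (144, 0, 0, 0, 0), (52, 0, 0, 0, 0), (51, 0, 0, 0, 0), (52, 0, 0, 0, 0), (67, 0, 0, 0, 0), (68, 0, 0, 0, 0), (67, 0, 0, 0, 0), (155, 0, 0, 0, 0), (68, 0, 0, 0, 0), (155, 0, 0, 0, 0), (75, 0, 0, 0, 0), (159, 0, 0, 0, 0), (75, 0, 0, 0, 0), (76, 0, 0, 0, 0), (159, 0, 0, 0, 0), (76, 0, 0, 0, 0), (141, 0, 0, 0, 0), (142, 0, 0, 0, 0), (141, 0, 0, 0, 0), (143, 0, 0, 0, 0), (142, 0, 0, 0, 0), (143, 0, 0, 0, 0), (53, 0, 0, 0, 0), (54, 0, 0, 0, 0), (53, 0, 0, 0, 0), (55, 0, 0, 0, 0), (54, 0, 0, 0, 0), (55, 0, 0, 0, 0), (60, 0, 0, 0, 0), (61, 0, 0, 0, 0), (60, 0, 0, 0, 0), (150, 0, 0, 0, 0), (61, 0, 0, 0, 0), (150, 0, 0, 0, 0), (77, 0, 0, 0,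 0), (78, 0, 0, 0, 0), (77, 0, 0, 0, 0), (79, 0, 0, 0, 0), (78, 0, 0, 0, 0), (79, 0, 0, 0, 0), (45, 0, 0, 0, 0), (46, 0, 0, 0, 0), (45, 0, 0, 0, 0), (47, 0, 0, 0, 0), (46, 0, 0, 0, 0), (47, 0, 0, 0, 0), (145, 0, 0, 0, 0), (146, 0, 0, 0, 0), (145, 0, 0, 0, 0), (147, 0, 0, 0, 0), (146, 0, 0, 0, 0), (147, 0, 0, 0, 0), (62, 0, 0, 0, 0), (151, 0, 0, 0, 0), (62, 0, 0, 0, 0), (63, 0, 0, 0, 0), (151, 0, 0, 0, 0), (63, 0, 0, 0, 0), (69, 0, 0, 0, 0), (70, 0, 0, 0, 0), (69, 0, 0, 0, 0), (71, 0, 0, 0, 0), (70, 0, 0, 0, 0), (71, 0, 0, 0, 0)],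
  [(88, 0, 0, 0, 0), (89, 0, 0, 0, 0), (88, 0, 0, 0, 0), (90, 0, 0, 0, 0), (89, 0, 0, 0, 0), (90, 0, 0, 0, 0), (96, 0, 0, 0, 0), (168, 0, 0, 0, 0), (96, 0, 0, 0, 0), (97, 0, 0, 0, 0), (168, 0, 0, 0, 0), (97, 0, 0, 0, 0), (172, 0, 0, 0, 0), (173, 0, 0, 0, 0), (172, 0, 0, 0, 0), (174, 0, 0, 0, 0), (173, 0, 0, 0, 0), (174, 0, 0, 0, 0), (112, 0, 0, 0, 0), (113, 0, 0, 0, 0), (112, 0, 0, 0, 0), (114, 0, 0, 0, 0), (113, 0, 0, 0, 0), (114, 0, 0, 0, 0), (80, 0, 0, 0, 0), (81, 0, 0, 0, 0), (80, 0, 0, 0, 0), (82, 0, 0, 0, 0), (81, 0, 0, 0, 0), (82, 0, 0, 0, 0), (169, 0, 0, 0, 0), (98, 0, 0, 0, 0), (169, 0, 0, 0, 0), (99, 0, 0, 0, 0), (98, 0, 0, 0, 0), (99, 0, 0, 0, 0), (104, 0, 0, 0, 0), (105, 0, 0, 0, 0), (104, 0, 0, 0, 0), (106, 0, 0, 0, 0), (105, 0, 0, 0, 0), (106, 0, 0, 0, 0), (176, 0, 0, 0, 0), (177, 0, 0, 0, 0), (176, 0, 0, 0,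 0), (178, 0, 0, 0, 0), (177, 0, 0, 0, 0), (178, 0, 0, 0, 0), (83, 0, 0, 0, 0), (160, 0, 0, 0, 0), (83, 0, 0, 0, 0), (84, 0, 0, 0, 0), (160, 0, 0, 0, 0), (84, 0, 0, 0, 0), (164, 0, 0, 0, 0), (91, 0, 0, 0, 0), (164, 0, 0, 0, 0), (92, 0, 0, 0, 0), (91, 0, 0, 0, 0), (92, 0, 0, 0, 0), (107, 0, 0, 0, 0), (108, 0, 0, 0, 0), (107, 0, 0, 0, 0), (175, 0, 0, 0, 0), (108, 0, 0, 0, 0), (175, 0, 0, 0, 0), (115, 0, 0, 0, 0), (179, 0, 0, 0, 0), (115, 0, 0, 0, 0), (116, 0, 0, 0, 0), (179, 0, 0, 0, 0), (116, 0, 0, 0, 0), (161, 0, 0, 0, 0), (162, 0, 0, 0, 0), (161, 0, 0, 0, 0), (163, 0, 0, 0, 0), (162, 0, 0, 0, 0), (163, 0, 0, 0, 0), (93, 0, 0, 0, 0), (94, 0, 0, 0, 0), (93, 0, 0, 0, 0), (95, 0, 0, 0, 0), (94, 0, 0, 0, 0), (95, 0, 0, 0, 0), (100, 0, 0, 0, 0), (101, 0, 0, 0, 0), (100, 0, 0, 0, 0), (170, 0, 0, 0, 0), (101, 0, 0, 0, 0), (170, 0,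 0, 0, 0), (117, 0, 0, 0, 0), (118, 0, 0, 0, 0), (117, 0, 0, 0, 0), (119, 0, 0, 0, 0), (118, 0, 0, 0, 0), (119, 0, 0, 0, 0), (85, 0, 0, 0, 0), (86, 0, 0, 0, 0), (85, 0, 0, 0, 0), (87, 0, 0, 0, 0), (86, 0, 0, 0, 0), (87, 0, 0, 0, 0), (165, 0, 0, 0, 0), (166, 0, 0, 0, 0), (165, 0, 0, 0, 0), (167, 0, 0, 0, 0), (166, 0, 0, 0, 0), (167, 0, 0, 0, 0), (102, 0, 0, 0, 0), (171, 0, 0, 0, 0), (102, 0, 0, 0, 0), (103, 0, 0, 0, 0), (171, 0, 0, 0, 0), (103, 0, 0, 0, 0), (109, 0, 0, 0, 0), (110, 0, 0, 0, 0), (109, 0, 0, 0, 0), (111, 0, 0, 0, 0), (110, 0, 0, 0, 0), (111, 0, 0, 0, 0)]]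

def m26_1 : Base := (0, 1, [(0, [0], [0, 5]), (0, [1], [1, 5]), (0, [2], [3, 4]), (4, [], [2])])

def l26_1 : Cov := [(864, 0, 1, [(0, [0], [0, 5]), (0, [1], [1, 5]), (0, [2], [3, 4]), (4, [], [2])]),
  (432, 0, 1, [(0, [0], [0, 5]), (0, [1], [1, 5]), (0, [2], [2, 4]), (4, [], [3])]),
  (432, 0, 1, [(0, [0], [0, 5]), (0, [1], [1, 5]), (0, [2], [2, 3]), (4, [], [4])]),
  (432, 0, 1, [(0, [0], [0, 5]), (0, [1], [2, 5]), (0, [2], [3, 4]), (4, [], [1])]),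
  (-432, 0, 1, [(0, [0], [0, 5]), (0, [1], [2, 5]), (0, [2], [1, 3]), (4, [], [4])]),
  (-432, 0, 1, [(0, [0], [0, 5]), (0, [1], [4, 5]), (0, [2], [2, 3]), (4, [], [1])]),
  (-864, 0, 1, [(0, [0], [0, 5]), (0, [1], [4, 5]), (0, [2], [1, 3]), (4, [], [2])]),
  (-432, 0, 1, [(0, [0], [0, 5]), (0, [1], [4, 5]), (0, [2], [1, 2]), (4, [], [3])]),
  (864, 0, 1, [(0, [0], [1, 5]), (0, [1], [0, 5]), (0, [2], [3, 4]), (4, [], [2])]),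
  (432, 0, 1, [(0, [0], [1, 5]), (0, [1], [0, 5]), (0, [2], [2, 4]), (4, [], [3])]),
  (432, 0, 1, [(0, [0], [1, 5]), (0, [1], [0, 5]), (0, [2], [2, 3]), (4, [], [4])]),
  (432, 0, 1, [(0, [0], [1, 5]), (0, [1], [2, 5]), (0, [2], [3, 4]), (4, [], [0])]),
  (-432, 0, 1, [(0, [0], [1, 5]), (0, [1], [2, 5]), (0, [2], [0, 4]), (4, [], [3])]),
  (-432, 0, 1, [(0, [0], [1, 5]), (0, [1], [3, 5]), (0, [2], [2, 4]), (4, [], [0])]),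
  (-864, 0, 1, [(0, [0], [1, 5]), (0, [1], [3, 5]), (0, [2], [0, 4]), (4, [], [2])]),
  (-432, 0, 1, [(0, [0], [1, 5]), (0, [1], [3, 5]), (0, [2], [0, 2]), (4, [], [4])]),
  (432, 0, 1, [(0, [0], [2, 5]), (0, [1], [0, 5]), (0, [2], [3, 4]), (4, [], [1])]),
  (-432, 0, 1, [(0, [0], [2, 5]), (0, [1], [0, 5]), (0, [2], [1, 3]), (4, [], [4])]),
  (432, 0, 1, [(0, [0], [2, 5]), (0, [1], [1, 5]), (0, [2], [3, 4]), (4, [], [0])]),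
  (-432, 0, 1, [(0, [0], [2, 5]), (0, [1], [1, 5]), (0, [2], [0, 4]), (4, [], [3])]),
  (-432, 0, 1, [(0, [0], [2, 5]), (0, [1], [3, 5]), (0, [2], [0, 4]), (4, [], [1])]),
  (432, 0, 1, [(0, [0], [2, 5]), (0, [1], [3, 5]), (0, [2], [0, 1]), (4, [], [4])]),
  (-432, 0, 1, [(0, [0], [2, 5]), (0, [1], [4, 5]), (0, [2], [1, 3]), (4, [], [0])]),
  (432, 0, 1, [(0, [0], [2, 5]), (0, [1], [4, 5]), (0, [2], [0, 1]), (4, [], [3])]),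
  (-432, 0, 1, [(0, [0], [3, 5]), (0, [1], [1, 5]), (0, [2], [2, 4]), (4, [], [0])]),
  (-864, 0, 1, [(0, [0], [3, 5]), (0, [1], [1, 5]), (0, [2], [0, 4]), (4, [], [2])]),
  (-432, 0, 1, [(0, [0], [3, 5]), (0, [1], [1, 5]), (0, [2], [0, 2]), (4, [], [4])]),
  (-432, 0, 1, [(0, [0], [3, 5]), (0, [1], [2, 5]), (0, [2], [0, 4]), (4, [], [1])]),
  (432, 0, 1, [(0, [0], [3, 5]), (0, [1], [2, 5]), (0, [2], [0, 1]), (4, [], [4])]),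
  (432, 0, 1, [(0, [0], [3, 5]), (0, [1], [4, 5]), (0, [2], [1, 2]), (4, [], [0])]),
  (432, 0, 1, [(0, [0], [3, 5]), (0, [1], [4, 5]), (0, [2], [0, 2]), (4, [], [1])]),
  (864, 0, 1, [(0, [0], [3, 5]), (0, [1], [4, 5]), (0, [2], [0, 1]), (4, [], [2])]),
  (-432, 0, 1, [(0, [0], [4, 5]), (0, [1], [0, 5]), (0, [2], [2, 3]), (4, [], [1])]),
  (-864, 0, 1, [(0, [0], [4, 5]), (0, [1], [0, 5]), (0, [2], [1, 3]), (4, [], [2])]),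
  (-432, 0, 1, [(0, [0], [4, 5]), (0, [1], [0, 5]), (0, [2], [1, 2]), (4, [], [3])]),
  (-432, 0, 1, [(0, [0], [4, 5]), (0, [1], [2, 5]), (0, [2], [1, 3]), (4, [], [0])]),
  (432, 0, 1, [(0, [0], [4, 5]), (0, [1], [2, 5]), (0, [2], [0, 1]), (4, [], [3])]),
  (432, 0, 1, [(0, [0], [4, 5]), (0, [1], [3, 5]), (0, [2], [1, 2]), (4, [], [0])]),
  (432, 0, 1, [(0, [0], [4, 5]), (0, [1], [3, 5]), (0, [2], [0, 2]), (4, [], [1])]),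
  (864, 0, 1, [(0, [0], [4, 5]), (0, [1], [3, 5]), (0, [2], [0, 1]), (4, [], [2])]),
  (864, 0, 1, [(0, [0], [0, 5]), (0, [2], [1, 5]), (0, [1], [3, 4]), (4, [], [2])]),
  (432, 0, 1, [(0, [0], [0, 5]), (0, [2], [1, 5]), (0, [1], [2, 4]), (4, [], [3])]),
  (432, 0, 1, [(0, [0], [0, 5]), (0, [2], [1, 5]), (0, [1], [2, 3]), (4, [], [4])]),
  (432, 0, 1, [(0, [0], [0, 5]), (0, [2], [2, 5]), (0, [1], [3, 4]), (4, [], [1])]),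
  (-432, 0, 1, [(0, [0], [0, 5]), (0, [2], [2, 5]), (0, [1], [1, 3]), (4, [], [4])]),
  (-432, 0, 1, [(0, [0], [0, 5]), (0, [2], [4, 5]), (0, [1], [2, 3]), (4, [], [1])]),
  (-864, 0, 1, [(0, [0], [0, 5]), (0, [2], [4, 5]), (0, [1], [1, 3]), (4, [], [2])]),
  (-432, 0, 1, [(0, [0], [0, 5]), (0, [2], [4, 5]), (0, [1], [1, 2]), (4, [], [3])]),
  (864, 0, 1, [(0, [0], [1, 5]), (0, [2], [0, 5]), (0, [1], [3, 4]), (4, [], [2])]),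
  (432, 0, 1, [(0, [0], [1, 5]), (0, [2], [0, 5]), (0, [1], [2, 4]), (4, [], [3])]),
  (432, 0, 1, [(0, [0], [1, 5]), (0, [2], [0, 5]), (0, [1], [2, 3]), (4, [], [4])]),
  (432, 0, 1, [(0, [0], [1, 5]), (0, [2], [2, 5]), (0, [1], [3, 4]), (4, [], [0])]),
  (-432, 0, 1, [(0, [0], [1, 5]), (0, [2], [2, 5]), (0, [1], [0, 4]), (4, [], [3])]),
  (-432, 0, 1, [(0, [0], [1, 5]), (0, [2], [3, 5]), (0, [1], [2, 4]), (4, [], [0])]),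
  (-864, 0, 1, [(0, [0], [1, 5]), (0, [2], [3, 5]), (0, [1], [0, 4]), (4, [], [2])]),
  (-432, 0, 1, [(0, [0], [1, 5]), (0, [2], [3, 5]), (0, [1], [0, 2]), (4, [], [4])]),
  (432, 0, 1, [(0, [0], [2, 5]), (0, [2], [0, 5]), (0, [1], [3, 4]), (4, [], [1])]),
  (-432, 0, 1, [(0, [0], [2, 5]), (0, [2], [0, 5]), (0, [1], [1, 3]), (4, [], [4])]),
  (432, 0, 1, [(0, [0], [2, 5]), (0, [2], [1, 5]), (0, [1], [3, 4]), (4, [], [0])]),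
  (-432, 0, 1, [(0, [0], [2, 5]), (0, [2], [1, 5]), (0, [1], [0, 4]), (4, [], [3])]),
  (-432, 0, 1, [(0, [0], [2, 5]), (0, [2], [3, 5]), (0, [1], [0, 4]), (4, [], [1])]),
  (432, 0, 1, [(0, [0], [2, 5]), (0, [2], [3, 5]), (0, [1], [0, 1]), (4, [], [4])]),
  (-432, 0, 1, [(0, [0], [2, 5]), (0, [2], [4, 5]), (0, [1], [1, 3]), (4, [], [0])]),
  (432, 0, 1, [(0, [0], [2, 5]), (0, [2], [4, 5]), (0, [1], [0, 1]), (4, [], [3])]),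
  (-432, 0, 1, [(0, [0], [3, 5]), (0, [2], [1, 5]), (0, [1], [2, 4]), (4, [], [0])]),
  (-864, 0, 1, [(0, [0], [3, 5]), (0, [2], [1, 5]), (0, [1], [0, 4]), (4, [], [2])]),
  (-432, 0, 1, [(0, [0], [3, 5]), (0, [2], [1, 5]), (0, [1], [0, 2]), (4, [], [4])]),
  (-432, 0, 1, [(0, [0], [3, 5]), (0, [2], [2, 5]), (0, [1], [0, 4]), (4, [], [1])]),
  (432, 0, 1, [(0, [0], [3, 5]), (0, [2], [2, 5]), (0, [1], [0, 1]), (4, [], [4])]),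
  (432, 0, 1, [(0, [0], [3, 5]), (0, [2], [4, 5]), (0, [1], [1, 2]), (4, [], [0])]),
  (432, 0, 1, [(0, [0], [3, 5]), (0, [2], [4, 5]), (0, [1], [0, 2]), (4, [], [1])]),
  (864, 0, 1, [(0, [0], [3, 5]), (0, [2], [4, 5]), (0, [1], [0, 1]), (4, [], [2])]),
  (-432, 0, 1, [(0, [0], [4, 5]), (0, [2], [0, 5]), (0, [1], [2, 3]), (4, [], [1])]),
  (-864, 0, 1, [(0, [0], [4, 5]), (0, [2], [0, 5]), (0, [1], [1, 3]), (4, [], [2])]),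
  (-432, 0, 1, [(0, [0], [4, 5]), (0, [2], [0, 5]), (0, [1], [1, 2]), (4, [], [3])]),
  (-432, 0, 1, [(0, [0], [4, 5]), (0, [2], [2, 5]), (0, [1], [1, 3]), (4, [], [0])]),
  (432, 0, 1, [(0, [0], [4, 5]), (0, [2], [2, 5]), (0, [1], [0, 1]), (4, [], [3])]),
  (432, 0, 1, [(0, [0], [4, 5]), (0, [2], [3, 5]), (0, [1], [1, 2]), (4, [], [0])]),
  (432, 0, 1, [(0, [0], [4, 5]), (0, [2], [3, 5]), (0, [1], [0, 2]), (4, [], [1])]),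
  (864, 0, 1, [(0, [0], [4, 5]), (0, [2], [3, 5]), (0, [1], [0, 1]), (4, [], [2])]),
  (864, 0, 1, [(0, [1], [0, 5]), (0, [2], [1, 5]), (0, [0], [3, 4]), (4, [], [2])]),
  (432, 0, 1, [(0, [1], [0, 5]), (0, [2], [1, 5]), (0, [0], [2, 4]), (4, [], [3])]),
  (432, 0, 1, [(0, [1], [0, 5]), (0, [2], [1, 5]), (0, [0], [2, 3]), (4, [], [4])]),
  (432, 0, 1, [(0, [1], [0, 5]), (0, [2], [2, 5]), (0, [0], [3, 4]), (4, [], [1])]),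
  (-432, 0, 1, [(0, [1], [0, 5]), (0, [2], [2, 5]), (0, [0], [1, 3]), (4, [], [4])]),
  (-432, 0, 1, [(0, [1], [0, 5]), (0, [2], [4, 5]), (0, [0], [2, 3]), (4, [], [1])]),
  (-864, 0, 1, [(0, [1], [0, 5]), (0, [2], [4, 5]), (0, [0], [1, 3]), (4, [], [2])]),
  (-432, 0, 1, [(0, [1], [0, 5]), (0, [2], [4, 5]), (0, [0], [1, 2]), (4, [], [3])]),
  (864, 0, 1, [(0, [1], [1, 5]), (0, [2], [0, 5]), (0, [0], [3, 4]), (4, [], [2])]),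
  (432, 0, 1, [(0, [1], [1, 5]), (0, [2], [0, 5]), (0, [0], [2, 4]), (4, [], [3])]),
  (432, 0, 1, [(0, [1], [1, 5]), (0, [2], [0, 5]), (0, [0], [2, 3]), (4, [], [4])]),
  (432, 0, 1, [(0, [1], [1, 5]), (0, [2], [2, 5]), (0, [0], [3, 4]), (4, [], [0])]),
  (-432, 0, 1, [(0, [1], [1, 5]), (0, [2], [2, 5]), (0, [0], [0, 4]), (4, [], [3])]),
  (-432, 0, 1, [(0, [1], [1, 5]), (0, [2], [3, 5]), (0, [0], [2, 4]), (4, [], [0])]),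
  (-864, 0, 1, [(0, [1], [1, 5]), (0, [2], [3, 5]), (0, [0], [0, 4]), (4, [], [2])]),
  (-432, 0, 1, [(0, [1], [1, 5]), (0, [2], [3, 5]), (0, [0], [0, 2]), (4, [], [4])]),
  (432, 0, 1, [(0, [1], [2, 5]), (0, [2], [0, 5]), (0, [0], [3, 4]), (4, [], [1])]),
  (-432, 0, 1, [(0, [1], [2, 5]), (0, [2], [0, 5]), (0, [0], [1, 3]), (4, [], [4])]),
  (432, 0, 1, [(0, [1], [2, 5]), (0, [2], [1, 5]), (0, [0], [3, 4]), (4, [], [0])]),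
  (-432, 0, 1, [(0, [1], [2, 5]), (0, [2], [1, 5]), (0, [0], [0, 4]), (4, [], [3])]),
  (-432, 0, 1, [(0, [1], [2, 5]), (0, [2], [3, 5]), (0, [0], [0, 4]), (4, [], [1])]),
  (432, 0, 1, [(0, [1], [2, 5]), (0, [2], [3, 5]), (0, [0], [0, 1]), (4, [], [4])]),
  (-432, 0, 1, [(0, [1], [2, 5]), (0, [2], [4, 5]), (0, [0], [1, 3]), (4, [], [0])]),
  (432, 0, 1, [(0, [1], [2, 5]), (0, [2], [4, 5]), (0, [0], [0, 1]), (4, [], [3])]),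
  (-432, 0, 1, [(0, [1], [3, 5]), (0, [2], [1, 5]), (0, [0], [2, 4]), (4, [], [0])]),
  (-864, 0, 1, [(0, [1], [3, 5]), (0, [2], [1, 5]), (0, [0], [0, 4]), (4, [], [2])]),
  (-432, 0, 1, [(0, [1], [3, 5]), (0, [2], [1, 5]), (0, [0], [0, 2]), (4, [], [4])]),
  (-432, 0, 1, [(0, [1], [3, 5]), (0, [2], [2, 5]), (0, [0], [0, 4]), (4, [], [1])]),
  (432, 0, 1, [(0, [1], [3, 5]), (0, [2], [2, 5]), (0, [0], [0, 1]), (4, [], [4])]),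
  (432, 0, 1, [(0, [1], [3, 5]), (0, [2], [4, 5]), (0, [0], [1, 2]), (4, [], [0])]),
  (432, 0, 1, [(0, [1], [3, 5]), (0, [2], [4, 5]), (0, [0], [0, 2]), (4, [], [1])]),
  (864, 0, 1, [(0, [1], [3, 5]), (0, [2], [4, 5]), (0, [0], [0, 1]), (4, [], [2])]),
  (-432, 0, 1, [(0, [1], [4, 5]), (0, [2], [0, 5]), (0, [0], [2, 3]), (4, [], [1])]),
  (-864, 0, 1, [(0, [1], [4, 5]), (0, [2], [0, 5]), (0, [0], [1, 3]), (4, [], [2])]),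
  (-432, 0, 1, [(0, [1], [4, 5]), (0, [2], [0, 5]), (0, [0], [1, 2]), (4, [], [3])]),
  (-432, 0, 1, [(0, [1], [4, 5]), (0, [2], [2, 5]), (0, [0], [1, 3]), (4, [], [0])]),
  (432, 0, 1, [(0, [1], [4, 5]), (0, [2], [2, 5]), (0, [0], [0, 1]), (4, [], [3])]),
  (432, 0, 1, [(0, [1], [4, 5]), (0, [2], [3, 5]), (0, [0], [1, 2]), (4, [], [0])]),
  (432, 0, 1, [(0, [1], [4, 5]), (0, [2], [3, 5]), (0, [0], [0, 2]), (4, [], [1])]),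
  (864, 0, 1, [(0, [1], [4, 5]), (0, [2], [3, 5]), (0, [0], [0, 1]), (4, [], [2])])]

def z26_1 : Cov := [(0, 0, 1, [(0, [0], [0, 5]), (0, [1], [2, 5]), (0, [2], [1, 4]), (4, [], [3])]),
  (0, 0, 1, [(0, [0], [0, 5]), (0, [1], [3, 5]), (0, [2], [2, 4]), (4, [], [1])]),
  (0, 0, 1, [(0, [0], [0, 5]), (0, [1], [3, 5]), (0, [2], [1, 4]), (4, [], [2])]),
  (0, 0, 1, [(0, [0], [0, 5]), (0, [1], [3, 5]), (0, [2], [1, 2]), (4, [], [4])]),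
  (0, 0, 1, [(0, [0], [1, 5]), (0, [1], [2, 5]), (0, [2], [0, 3]), (4, [], [4])]),
  (0, 0, 1, [(0, [0], [1, 5]), (0, [1], [4, 5]), (0, [2], [2, 3]), (4, [], [0])]),
  (0, 0, 1, [(0, [0], [1, 5]), (0, [1], [4, 5]), (0, [2], [0, 3]), (4, [], [2])]),
  (0, 0, 1, [(0, [0], [1, 5]), (0, [1], [4, 5]), (0, [2], [0, 2]), (4, [], [3])]),
  (0, 0, 1, [(0, [0], [2, 5]), (0, [1], [0, 5]), (0, [2], [1, 4]), (4, [], [3])]),
  (0, 0, 1, [(0, [0], [2, 5]), (0, [1], [1, 5]), (0, [2], [0, 3]), (4, [], [4])]),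
  (0, 0, 1, [(0, [0], [2, 5]), (0, [1], [3, 5]), (0, [2], [1, 4]), (4, [], [0])]),
  (0, 0, 1, [(0, [0], [2, 5]), (0, [1], [4, 5]), (0, [2], [0, 3]), (4, [], [1])]),
  (0, 0, 1, [(0, [0], [3, 5]), (0, [1], [0, 5]), (0, [2], [2, 4]), (4, [], [1])]),
  (0, 0, 1, [(0, [0], [3, 5]), (0, [1], [0, 5]), (0, [2], [1, 4]), (4, [], [2])]),
  (0, 0, 1, [(0, [0], [3, 5]), (0, [1], [0, 5]), (0, [2], [1, 2]), (4, [], [4])]),
  (0, 0, 1, [(0, [0], [3, 5]), (0, [1], [2, 5]), (0, [2], [1, 4]), (4, [], [0])]),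
  (0, 0, 1, [(0, [0], [4, 5]), (0, [1], [1, 5]), (0, [2], [2, 3]), (4, [], [0])]),
  (0, 0, 1, [(0, [0], [4, 5]), (0, [1], [1, 5]), (0, [2], [0, 3]), (4, [], [2])]),
  (0, 0, 1, [(0, [0], [4, 5]), (0, [1], [1, 5]), (0, [2], [0, 2]), (4, [], [3])]),
  (0, 0, 1, [(0, [0], [4, 5]), (0, [1], [2, 5]), (0, [2], [0, 3]), (4, [], [1])]),
  (0, 0, 1, [(0, [0], [0, 5]), (0, [2], [2, 5]), (0, [1], [1, 4]), (4, [], [3])]),
  (0, 0, 1, [(0, [0], [0, 5]), (0, [2], [3, 5]), (0, [1], [2, 4]), (4, [], [1])]),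
  (0, 0, 1, [(0, [0], [0, 5]), (0, [2], [3, 5]), (0, [1], [1, 4]), (4, [], [2])]),
  (0, 0, 1, [(0, [0], [0, 5]), (0, [2], [3, 5]), (0, [1], [1, 2]), (4, [], [4])]),
  (0, 0, 1, [(0, [0], [1, 5]), (0, [2], [2, 5]), (0, [1], [0, 3]), (4, [], [4])]),
  (0, 0, 1, [(0, [0], [1, 5]), (0, [2], [4, 5]), (0, [1], [2, 3]), (4, [], [0])]),
  (0, 0, 1, [(0, [0], [1, 5]), (0, [2], [4, 5]), (0, [1], [0, 3]), (4, [], [2])]),
  (0, 0, 1, [(0, [0], [1, 5]), (0, [2], [4, 5]), (0, [1], [0, 2]), (4, [], [3])]),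
  (0, 0, 1, [(0, [0], [2, 5]), (0, [2], [0, 5]), (0, [1], [1, 4]), (4, [], [3])]),
  (0, 0, 1, [(0, [0], [2, 5]), (0, [2], [1, 5]), (0, [1], [0, 3]), (4, [], [4])]),
  (0, 0, 1, [(0, [0], [2, 5]), (0, [2], [3, 5]), (0, [1], [1, 4]), (4, [], [0])]),
  (0, 0, 1, [(0, [0], [2, 5]), (0, [2], [4, 5]), (0, [1], [0, 3]), (4, [], [1])]),
  (0, 0, 1, [(0, [0], [3, 5]), (0, [2], [0, 5]), (0, [1], [2, 4]), (4, [], [1])]),
  (0, 0, 1, [(0, [0], [3, 5]), (0, [2], [0, 5]), (0, [1], [1, 4]), (4, [], [2])]),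
  (0, 0, 1, [(0, [0], [3, 5]), (0, [2], [0, 5]), (0, [1], [1, 2]), (4, [], [4])]),
  (0, 0, 1, [(0, [0], [3, 5]), (0, [2], [2, 5]), (0, [1], [1, 4]), (4, [], [0])]),
  (0, 0, 1, [(0, [0], [4, 5]), (0, [2], [1, 5]), (0, [1], [2, 3]), (4, [], [0])]),
  (0, 0, 1, [(0, [0], [4, 5]), (0, [2], [1, 5]), (0, [1], [0, 3]), (4, [], [2])]),
  (0, 0, 1, [(0, [0], [4, 5]), (0, [2], [1, 5]), (0, [1], [0, 2]), (4, [], [3])]),
  (0, 0, 1, [(0, [0], [4, 5]), (0, [2], [2, 5]), (0, [1], [0, 3]), (4, [], [1])]),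
  (0, 0, 1, [(0, [1], [0, 5]), (0, [2], [2, 5]), (0, [0], [1, 4]), (4, [], [3])]),
  (0, 0, 1, [(0, [1], [0, 5]), (0, [2], [3, 5]), (0, [0], [2, 4]), (4, [], [1])]),
  (0, 0, 1, [(0, [1], [0, 5]), (0, [2], [3, 5]), (0, [0], [1, 4]), (4, [], [2])]),
  (0, 0, 1, [(0, [1], [0, 5]), (0, [2], [3, 5]), (0, [0], [1, 2]), (4, [], [4])]),
  (0, 0, 1, [(0, [1], [1, 5]), (0, [2], [2, 5]), (0, [0], [0, 3]), (4, [], [4])]),
  (0, 0, 1, [(0, [1], [1, 5]), (0, [2], [4, 5]), (0, [0], [2, 3]), (4, [], [0])]),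
  (0, 0, 1, [(0, [1], [1, 5]), (0, [2], [4, 5]), (0, [0], [0, 3]), (4, [], [2])]),
  (0, 0, 1, [(0, [1], [1, 5]), (0, [2], [4, 5]), (0, [0], [0, 2]), (4, [], [3])]),
  (0, 0, 1, [(0, [1], [2, 5]), (0, [2], [0, 5]), (0, [0], [1, 4]), (4, [], [3])]),
  (0, 0, 1, [(0, [1], [2, 5]), (0, [2], [1, 5]), (0, [0], [0, 3]), (4, [], [4])]),
  (0, 0, 1, [(0, [1], [2, 5]), (0, [2], [3, 5]), (0, [0], [1, 4]), (4, [], [0])]),
  (0, 0, 1, [(0, [1], [2, 5]), (0, [2], [4, 5]), (0, [0], [0, 3]), (4, [], [1])]),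
  (0, 0, 1, [(0, [1], [3, 5]), (0, [2], [0, 5]), (0, [0], [2, 4]), (4, [], [1])]),
  (0, 0, 1, [(0, [1], [3, 5]), (0, [2], [0, 5]), (0, [0], [1, 4]), (4, [], [2])]),
  (0, 0, 1, [(0, [1], [3, 5]), (0, [2], [0, 5]), (0, [0], [1, 2]), (4, [], [4])]),
  (0, 0, 1, [(0, [1], [3, 5]), (0, [2], [2, 5]), (0, [0], [1, 4]), (4, [], [0])]),
  (0, 0, 1, [(0, [1], [4, 5]), (0, [2], [1, 5]), (0, [0], [2, 3]), (4, [], [0])]),
  (0, 0, 1, [(0, [1], [4, 5]), (0, [2], [1, 5]), (0, [0], [0, 3]), (4, [], [2])]),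
  (0, 0, 1, [(0, [1], [4, 5]), (0, [2], [1, 5]), (0, [0], [0, 2]), (4, [], [3])]),
  (0, 0, 1, [(0, [1], [4, 5]), (0, [2], [2, 5]), (0, [0], [0, 3]), (4, [], [1])])]

def w26_1 : List (List Wit) := [[(0, 0, 0, 0, 0), (0, 0, 0, 0, 0), (1, 0, 0, 0, 0), (1, 0, 0, 0, 0), (2, 0, 0, 0, 0), (2, 0, 0, 0, 0), (3, 0, 0, 0, 0), (3, 0, 0, 0, 0), (120, 0, 0, 0, 0), (120, 0, 0, 0, 0), (4, 0, 0, 0, 0), (4, 0, 0, 0, 0), (121, 0, 0, 0, 0), (121, 0, 0, 0, 0), (122, 0, 0, 0, 0), (122, 0, 0, 0, 0), (123, 0, 0, 0, 0), (123, 0, 0, 0, 0), (5, 0, 0, 0, 0), (5, 0, 0, 0, 0), (6, 0, 0, 0, 0), (6, 0, 0, 0, 0), (7, 0, 0, 0, 0), (7, 0, 0, 0, 0), (8, 0, 0, 0, 0), (8, 0, 0, 0, 0), (9, 0, 0, 0, 0), (9, 0, 0, 0, 0), (10, 0, 0, 0, 0), (10, 0, 0, 0, 0), (11, 0, 0, 0, 0), (11, 0, 0, 0, 0), (12, 0, 0, 0, 0), (12, 0, 0, 0, 0), (124, 0, 0, 0, 0), (124, 0, 0, 0,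 0), (13, 0, 0, 0, 0), (13, 0, 0, 0, 0), (14, 0, 0, 0, 0), (14, 0, 0, 0, 0), (15, 0, 0, 0, 0), (15, 0, 0, 0, 0), (125, 0, 0, 0, 0), (125, 0, 0, 0, 0), (126, 0, 0, 0, 0), (126, 0, 0, 0, 0), (127, 0, 0, 0, 0), (127, 0, 0, 0, 0), (16, 0, 0, 0, 0), (16, 0, 0, 0, 0), (128, 0, 0, 0, 0), (128, 0, 0, 0, 0), (17, 0, 0, 0, 0), (17, 0, 0, 0, 0), (18, 0, 0, 0, 0), (18, 0, 0, 0, 0), (19, 0, 0, 0, 0), (19, 0, 0, 0, 0), (129, 0, 0, 0, 0), (129, 0, 0, 0, 0), (130, 0, 0, 0, 0), (130, 0, 0, 0, 0), (20, 0, 0, 0, 0), (20, 0, 0, 0, 0), (21, 0, 0, 0, 0), (21, 0, 0, 0, 0), (22, 0, 0, 0, 0), (22, 0, 0, 0, 0), (131, 0, 0, 0, 0), (131, 0, 0, 0, 0), (23, 0, 0, 0, 0), (23, 0, 0, 0, 0), (132, 0, 0, 0, 0), (132, 0, 0, 0, 0), (133, 0, 0, 0, 0), (133, 0, 0, 0, 0), (134, 0, 0, 0, 0), (134, 0, 0, 0, 0), (24, 0, 0, 0, 0), (24, 0, 0, 0, 0), (25, 0, 0, 0, 0),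 (25, 0, 0, 0, 0), (26, 0, 0, 0, 0), (26, 0, 0, 0, 0), (135, 0, 0, 0, 0), (135, 0, 0, 0, 0), (27, 0, 0, 0, 0), (27, 0, 0, 0, 0), (28, 0, 0, 0, 0), (28, 0, 0, 0, 0), (29, 0, 0, 0, 0), (29, 0, 0, 0, 0), (30, 0, 0, 0, 0), (30, 0, 0, 0, 0), (31, 0, 0, 0, 0), (31, 0, 0, 0, 0), (32, 0, 0, 0, 0), (32, 0, 0, 0, 0), (33, 0, 0, 0, 0), (33, 0, 0, 0, 0), (34, 0, 0, 0, 0), (34, 0, 0, 0, 0), (136, 0, 0, 0, 0), (136, 0, 0, 0, 0), (137, 0, 0, 0, 0), (137, 0, 0, 0, 0), (138, 0, 0, 0, 0), (138, 0, 0, 0, 0), (35, 0, 0, 0, 0), (35, 0, 0, 0, 0), (139, 0, 0, 0, 0), (139, 0, 0, 0, 0), (36, 0, 0, 0, 0), (36, 0, 0, 0, 0), (37, 0, 0, 0, 0), (37, 0, 0, 0, 0), (38, 0, 0, 0, 0), (38, 0, 0, 0, 0), (39, 0, 0, 0, 0), (39, 0, 0, 0, 0)],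
  [(40, 0, 0, 0, 0), (40, 0, 0, 0, 0), (41, 0, 0, 0, 0), (41, 0, 0, 0, 0), (42, 0, 0, 0, 0), (42, 0, 0, 0, 0), (43, 0, 0, 0, 0), (43, 0, 0, 0, 0), (140, 0, 0, 0, 0), (140, 0, 0, 0, 0), (44, 0, 0, 0, 0), (44, 0, 0, 0, 0), (141, 0, 0, 0, 0), (141, 0, 0, 0, 0), (142, 0, 0, 0, 0), (142, 0, 0, 0, 0), (143, 0, 0, 0, 0), (143, 0, 0, 0, 0), (45, 0, 0, 0, 0), (45, 0, 0, 0, 0), (46, 0, 0, 0, 0), (46, 0, 0, 0, 0), (47, 0, 0, 0, 0), (47, 0, 0, 0, 0), (48, 0, 0, 0, 0), (48, 0, 0, 0, 0), (49, 0, 0, 0, 0), (49, 0, 0, 0, 0), (50, 0, 0, 0, 0), (50, 0, 0, 0, 0), (51, 0, 0, 0, 0), (51, 0, 0, 0, 0), (52, 0, 0, 0, 0), (52, 0, 0, 0, 0), (144, 0, 0, 0, 0), (144, 0, 0, 0, 0), (53, 0, 0, 0, 0), (53, 0, 0, 0, 0), (54, 0, 0, 0, 0), (54, 0, 0, 0, 0), (55, 0, 0, 0, 0), (55, 0, 0, 0, 0), (145, 0, 0, 0, 0), (145, 0, 0, 0, 0), (146, 0, 0, 0, 0), (146, 0,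 0, 0, 0), (147, 0, 0, 0, 0), (147, 0, 0, 0, 0), (56, 0, 0, 0, 0), (56, 0, 0, 0, 0), (148, 0, 0, 0, 0), (148, 0, 0, 0, 0), (57, 0, 0, 0, 0), (57, 0, 0, 0, 0), (58, 0, 0, 0, 0), (58, 0, 0, 0, 0), (59, 0, 0, 0, 0), (59, 0, 0, 0, 0), (149, 0, 0, 0, 0), (149, 0, 0, 0, 0), (150, 0, 0, 0, 0), (150, 0, 0, 0, 0), (60, 0, 0, 0, 0), (60, 0, 0, 0, 0), (61, 0, 0, 0, 0), (61, 0, 0, 0, 0), (62, 0, 0, 0, 0), (62, 0, 0, 0, 0), (151, 0, 0, 0, 0), (151, 0, 0, 0, 0), (63, 0, 0, 0, 0), (63, 0, 0, 0, 0), (152, 0, 0, 0, 0), (152, 0, 0, 0, 0), (153, 0, 0, 0, 0), (153, 0, 0, 0, 0), (154, 0, 0, 0, 0), (154, 0, 0, 0, 0), (64, 0, 0, 0, 0), (64, 0, 0, 0, 0), (65, 0, 0, 0, 0), (65, 0, 0, 0, 0), (66, 0, 0, 0, 0), (66, 0, 0, 0, 0), (155, 0, 0, 0, 0), (155, 0, 0, 0, 0), (67, 0, 0, 0, 0), (67, 0, 0, 0, 0), (68, 0, 0, 0, 0), (68, 0, 0, 0, 0), (69, 0, 0, 0,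 0), (69, 0, 0, 0, 0), (70, 0, 0, 0, 0), (70, 0, 0, 0, 0), (71, 0, 0, 0, 0), (71, 0, 0, 0, 0), (72, 0, 0, 0, 0), (72, 0, 0, 0, 0), (73, 0, 0, 0, 0), (73, 0, 0, 0, 0), (74, 0, 0, 0, 0), (74, 0, 0, 0, 0), (156, 0, 0, 0, 0), (156, 0, 0, 0, 0), (157, 0, 0, 0, 0), (157, 0, 0, 0, 0), (158, 0, 0, 0, 0), (158, 0, 0, 0, 0), (75, 0, 0, 0, 0), (75, 0, 0, 0, 0), (159, 0, 0, 0, 0), (159, 0, 0, 0, 0), (76, 0, 0, 0, 0), (76, 0, 0, 0, 0), (77, 0, 0, 0, 0), (77, 0, 0, 0, 0), (78, 0, 0, 0, 0), (78, 0, 0, 0, 0), (79, 0, 0, 0, 0), (79, 0, 0, 0, 0)],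
  [(8, 0, 0, 0, 0), (8, 0, 0, 0, 0), (9, 0, 0, 0, 0), (9, 0, 0, 0, 0), (10, 0, 0, 0, 0), (10, 0, 0, 0, 0), (16, 0, 0, 0, 0), (16, 0, 0, 0, 0), (128, 0, 0, 0, 0), (128, 0, 0, 0, 0), (17, 0, 0, 0, 0), (17, 0, 0, 0, 0), (132, 0, 0, 0, 0), (132, 0, 0, 0, 0), (133, 0, 0, 0, 0), (133, 0, 0, 0, 0), (134, 0, 0, 0, 0), (134, 0, 0, 0, 0), (32, 0, 0, 0, 0), (32, 0, 0, 0, 0), (33, 0, 0, 0, 0), (33, 0, 0, 0, 0), (34, 0, 0, 0, 0), (34, 0, 0, 0, 0), (0, 0, 0, 0, 0), (0, 0, 0, 0, 0), (1, 0, 0, 0, 0), (1, 0, 0, 0, 0), (2, 0, 0, 0, 0), (2, 0, 0, 0, 0), (18, 0, 0, 0, 0), (18, 0, 0, 0, 0), (19, 0, 0, 0, 0), (19, 0, 0, 0, 0), (129, 0, 0, 0, 0), (129, 0, 0, 0, 0), (24, 0, 0, 0, 0), (24, 0, 0, 0, 0), (25, 0, 0, 0, 0), (25, 0, 0, 0, 0), (26, 0, 0, 0, 0), (26, 0, 0, 0, 0), (136, 0, 0, 0, 0), (136, 0, 0, 0, 0), (137, 0, 0, 0, 0), (137, 0, 0, 0, 0),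 (138, 0, 0, 0, 0), (138, 0, 0, 0, 0), (3, 0, 0, 0, 0), (3, 0, 0, 0, 0), (120, 0, 0, 0, 0), (120, 0, 0, 0, 0), (4, 0, 0, 0, 0), (4, 0, 0, 0, 0), (11, 0, 0, 0, 0), (11, 0, 0, 0, 0), (12, 0, 0, 0, 0), (12, 0, 0, 0, 0), (124, 0, 0, 0, 0), (124, 0, 0, 0, 0), (135, 0, 0, 0, 0), (135, 0, 0, 0, 0), (27, 0, 0, 0, 0), (27, 0, 0, 0, 0), (28, 0, 0, 0, 0), (28, 0, 0, 0, 0), (35, 0, 0, 0, 0), (35, 0, 0, 0, 0), (139, 0, 0, 0, 0), (139, 0, 0, 0, 0), (36, 0, 0, 0, 0), (36, 0, 0, 0, 0), (121, 0, 0, 0, 0), (121, 0, 0, 0, 0), (122, 0, 0, 0, 0), (122, 0, 0, 0, 0), (123, 0, 0, 0, 0), (123, 0, 0, 0, 0), (13, 0, 0, 0, 0), (13, 0, 0, 0, 0), (14, 0, 0, 0, 0), (14, 0, 0, 0, 0), (15, 0, 0, 0, 0), (15, 0, 0, 0, 0), (130, 0, 0, 0, 0), (130, 0, 0, 0, 0), (20, 0, 0, 0, 0), (20, 0, 0, 0, 0), (21, 0, 0, 0, 0), (21, 0, 0, 0, 0), (37, 0, 0, 0, 0), (37, 0, 0,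 0, 0), (38, 0, 0, 0, 0), (38, 0, 0, 0, 0), (39, 0, 0, 0, 0), (39, 0, 0, 0, 0), (5, 0, 0, 0, 0), (5, 0, 0, 0, 0), (6, 0, 0, 0, 0), (6, 0, 0, 0, 0), (7, 0, 0, 0, 0), (7, 0, 0, 0, 0), (125, 0, 0, 0, 0), (125, 0, 0, 0, 0), (126, 0, 0, 0, 0), (126, 0, 0, 0, 0), (127, 0, 0, 0, 0), (127, 0, 0, 0, 0), (22, 0, 0, 0, 0), (22, 0, 0, 0, 0), (131, 0, 0, 0, 0), (131, 0, 0, 0, 0), (23, 0, 0, 0, 0), (23, 0, 0, 0, 0), (29, 0, 0, 0, 0), (29, 0, 0, 0, 0), (30, 0, 0, 0, 0), (30, 0, 0, 0, 0), (31, 0, 0, 0, 0), (31, 0, 0, 0, 0)],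
  [(80, 0, 0, 0, 0), (80, 0, 0, 0, 0), (81, 0, 0, 0, 0), (81, 0, 0, 0, 0), (82, 0, 0, 0, 0), (82, 0, 0, 0, 0), (83, 0, 0, 0, 0), (83, 0, 0, 0, 0), (160, 0, 0, 0, 0), (160, 0, 0, 0, 0), (84, 0, 0, 0, 0), (84, 0, 0, 0, 0), (161, 0, 0, 0, 0), (161, 0, 0, 0, 0), (162, 0, 0, 0, 0), (162, 0, 0, 0, 0), (163, 0, 0, 0, 0), (163, 0, 0, 0, 0), (85, 0, 0, 0, 0), (85, 0, 0, 0, 0), (86, 0, 0, 0, 0), (86, 0, 0, 0, 0), (87, 0, 0, 0, 0), (87, 0, 0, 0, 0), (88, 0, 0, 0, 0), (88, 0, 0, 0, 0), (89, 0, 0, 0, 0), (89, 0, 0, 0, 0), (90, 0, 0, 0, 0), (90, 0, 0, 0, 0), (91, 0, 0, 0, 0), (91, 0, 0, 0, 0), (92, 0, 0, 0, 0), (92, 0, 0, 0, 0), (164, 0, 0, 0, 0), (164, 0, 0, 0, 0), (93, 0, 0, 0, 0), (93, 0, 0, 0, 0), (94, 0, 0, 0, 0), (94, 0, 0, 0, 0), (95, 0, 0, 0, 0), (95, 0, 0, 0, 0), (165, 0, 0, 0, 0), (165, 0, 0, 0, 0), (166, 0, 0, 0, 0), (166, 0,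 0, 0, 0), (167, 0, 0, 0, 0), (167, 0, 0, 0, 0), (96, 0, 0, 0, 0), (96, 0, 0, 0, 0), (168, 0, 0, 0, 0), (168, 0, 0, 0, 0), (97, 0, 0, 0, 0), (97, 0, 0, 0, 0), (98, 0, 0, 0, 0), (98, 0, 0, 0, 0), (99, 0, 0, 0, 0), (99, 0, 0, 0, 0), (169, 0, 0, 0, 0), (169, 0, 0, 0, 0), (170, 0, 0, 0, 0), (170, 0, 0, 0, 0), (100, 0, 0, 0, 0), (100, 0, 0, 0, 0), (101, 0, 0, 0, 0), (101, 0, 0, 0, 0), (102, 0, 0, 0, 0), (102, 0, 0, 0, 0), (171, 0, 0, 0, 0), (171, 0, 0, 0, 0), (103, 0, 0, 0, 0), (103, 0, 0, 0, 0), (172, 0, 0, 0, 0), (172, 0, 0, 0, 0), (173, 0, 0, 0, 0), (173, 0, 0, 0, 0), (174, 0, 0, 0, 0), (174, 0, 0, 0, 0), (104, 0, 0, 0, 0), (104, 0, 0, 0, 0), (105, 0, 0, 0, 0), (105, 0, 0, 0, 0), (106, 0, 0, 0, 0), (106, 0, 0, 0, 0), (175, 0, 0, 0, 0), (175, 0, 0, 0, 0), (107, 0, 0, 0, 0), (107, 0, 0, 0, 0), (108, 0, 0, 0, 0), (108, 0, 0, 0,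 0), (109, 0, 0, 0, 0), (109, 0, 0, 0, 0), (110, 0, 0, 0, 0), (110, 0, 0, 0, 0), (111, 0, 0, 0, 0), (111, 0, 0, 0, 0), (112, 0, 0, 0, 0), (112, 0, 0, 0, 0), (113, 0, 0, 0, 0), (113, 0, 0, 0, 0), (114, 0, 0, 0, 0), (114, 0, 0, 0, 0), (176, 0, 0, 0, 0), (176, 0, 0, 0, 0), (177, 0, 0, 0, 0), (177, 0, 0, 0, 0), (178, 0, 0, 0, 0), (178, 0, 0, 0, 0), (115, 0, 0, 0, 0), (115, 0, 0, 0, 0), (179, 0, 0, 0, 0), (179, 0, 0, 0, 0), (116, 0, 0, 0, 0), (116, 0, 0, 0, 0), (117, 0, 0, 0, 0), (117, 0, 0, 0, 0), (118, 0, 0, 0, 0), (118, 0, 0, 0, 0), (119, 0, 0, 0, 0), (119, 0, 0, 0, 0)],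
  [(48, 0, 0, 0, 0), (48, 0, 0, 0, 0), (49, 0, 0, 0, 0), (49, 0, 0, 0, 0), (50, 0, 0, 0, 0), (50, 0, 0, 0, 0), (56, 0, 0, 0, 0), (56, 0, 0, 0, 0), (148, 0, 0, 0, 0), (148, 0, 0, 0, 0), (57, 0, 0, 0, 0), (57, 0, 0, 0, 0), (152, 0, 0, 0, 0), (152, 0, 0, 0, 0), (153, 0, 0, 0, 0), (153, 0, 0, 0, 0), (154, 0, 0, 0, 0), (154, 0, 0, 0, 0), (72, 0, 0, 0, 0), (72, 0, 0, 0, 0), (73, 0, 0, 0, 0), (73, 0, 0, 0, 0), (74, 0, 0, 0, 0), (74, 0, 0, 0, 0), (40, 0, 0, 0, 0), (40, 0, 0, 0, 0), (41, 0, 0, 0, 0), (41, 0, 0, 0, 0), (42, 0, 0, 0, 0), (42, 0, 0, 0, 0), (58, 0, 0, 0, 0), (58, 0, 0, 0, 0), (59, 0, 0, 0, 0), (59, 0, 0, 0, 0), (149, 0, 0, 0, 0), (149, 0, 0, 0, 0), (64, 0, 0, 0, 0), (64, 0, 0, 0, 0), (65, 0, 0, 0, 0), (65, 0, 0, 0, 0), (66, 0, 0, 0, 0), (66, 0, 0, 0, 0), (156, 0, 0, 0, 0), (156, 0, 0, 0, 0), (157, 0, 0, 0, 0), (157, 0,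 0, 0, 0), (158, 0, 0, 0, 0), (158, 0, 0, 0, 0), (43, 0, 0, 0, 0), (43, 0, 0, 0, 0), (140, 0, 0, 0, 0), (140, 0, 0, 0, 0), (44, 0, 0, 0, 0), (44, 0, 0, 0, 0), (51, 0, 0, 0, 0), (51, 0, 0, 0, 0), (52, 0, 0, 0, 0), (52, 0, 0, 0, 0), (144, 0, 0, 0, 0), (144, 0, 0, 0, 0), (155, 0, 0, 0, 0), (155, 0, 0, 0, 0), (67, 0, 0, 0, 0), (67, 0, 0, 0, 0), (68, 0, 0, 0, 0), (68, 0, 0, 0, 0), (75, 0, 0, 0, 0), (75, 0, 0, 0, 0), (159, 0, 0, 0, 0), (159, 0, 0, 0, 0), (76, 0, 0, 0, 0), (76, 0, 0, 0, 0), (141, 0, 0, 0, 0), (141, 0, 0, 0, 0), (142, 0, 0, 0, 0), (142, 0, 0, 0, 0), (143, 0, 0, 0, 0), (143, 0, 0, 0, 0), (53, 0, 0, 0, 0), (53, 0, 0, 0, 0), (54, 0, 0, 0, 0), (54, 0, 0, 0, 0), (55, 0, 0, 0, 0), (55, 0, 0, 0, 0), (150, 0, 0, 0, 0), (150, 0, 0, 0, 0), (60, 0, 0, 0, 0), (60, 0, 0, 0, 0), (61, 0, 0, 0, 0), (61, 0, 0, 0, 0), (77, 0, 0, 0,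 0), (77, 0, 0, 0, 0), (78, 0, 0, 0, 0), (78, 0, 0, 0, 0), (79, 0, 0, 0, 0), (79, 0, 0, 0, 0), (45, 0, 0, 0, 0), (45, 0, 0, 0, 0), (46, 0, 0, 0, 0), (46, 0, 0, 0, 0), (47, 0, 0, 0, 0), (47, 0, 0, 0, 0), (145, 0, 0, 0, 0), (145, 0, 0, 0, 0), (146, 0, 0, 0, 0), (146, 0, 0, 0, 0), (147, 0, 0, 0, 0), (147, 0, 0, 0, 0), (62, 0, 0, 0, 0), (62, 0, 0, 0, 0), (151, 0, 0, 0, 0), (151, 0, 0, 0, 0), (63, 0, 0, 0, 0), (63, 0, 0, 0, 0), (69, 0, 0, 0, 0), (69, 0, 0, 0, 0), (70, 0, 0, 0, 0), (70, 0, 0, 0, 0), (71, 0, 0, 0, 0), (71, 0, 0, 0, 0)],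
  [(88, 0, 0, 0, 0), (88, 0, 0, 0, 0), (89, 0, 0, 0, 0), (89, 0, 0, 0, 0), (90, 0, 0, 0, 0), (90, 0, 0, 0, 0), (96, 0, 0, 0, 0), (96, 0, 0, 0, 0), (168, 0, 0, 0, 0), (168, 0, 0, 0, 0), (97, 0, 0, 0, 0), (97, 0, 0, 0, 0), (172, 0, 0, 0, 0), (172, 0, 0, 0, 0), (173, 0, 0, 0, 0), (173, 0, 0, 0, 0), (174, 0, 0, 0, 0), (174, 0, 0, 0, 0), (112, 0, 0, 0, 0), (112, 0, 0, 0, 0), (113, 0, 0, 0, 0), (113, 0, 0, 0, 0), (114, 0, 0, 0, 0), (114, 0, 0, 0, 0), (80, 0, 0, 0, 0), (80, 0, 0, 0, 0), (81, 0, 0, 0, 0), (81, 0, 0, 0, 0), (82, 0, 0, 0, 0), (82, 0, 0, 0, 0), (98, 0, 0, 0, 0), (98, 0, 0, 0, 0), (99, 0, 0, 0, 0), (99, 0, 0, 0, 0), (169, 0, 0, 0, 0), (169, 0, 0, 0, 0), (104, 0, 0, 0, 0), (104, 0, 0, 0, 0), (105, 0, 0, 0, 0), (105, 0, 0, 0, 0), (106, 0, 0, 0, 0), (106, 0, 0, 0, 0), (176, 0, 0, 0, 0), (176, 0, 0, 0, 0), (177, 0, 0, 0,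 0), (177, 0, 0, 0, 0), (178, 0, 0, 0, 0), (178, 0, 0, 0, 0), (83, 0, 0, 0, 0), (83, 0, 0, 0, 0), (160, 0, 0, 0, 0), (160, 0, 0, 0, 0), (84, 0, 0, 0, 0), (84, 0, 0, 0, 0), (91, 0, 0, 0, 0), (91, 0, 0, 0, 0), (92, 0, 0, 0, 0), (92, 0, 0, 0, 0), (164, 0, 0, 0, 0), (164, 0, 0, 0, 0), (175, 0, 0, 0, 0), (175, 0, 0, 0, 0), (107, 0, 0, 0, 0), (107, 0, 0, 0, 0), (108, 0, 0, 0, 0), (108, 0, 0, 0, 0), (115, 0, 0, 0, 0), (115, 0, 0, 0, 0), (179, 0, 0, 0, 0), (179, 0, 0, 0, 0), (116, 0, 0, 0, 0), (116, 0, 0, 0, 0), (161, 0, 0, 0, 0), (161, 0, 0, 0, 0), (162, 0, 0, 0, 0), (162, 0, 0, 0, 0), (163, 0, 0, 0, 0), (163, 0, 0, 0, 0), (93, 0, 0, 0, 0), (93, 0, 0, 0, 0), (94, 0, 0, 0, 0), (94, 0, 0, 0, 0), (95, 0, 0, 0, 0), (95, 0, 0, 0, 0), (170, 0, 0, 0, 0), (170, 0, 0, 0, 0), (100, 0, 0, 0, 0), (100, 0, 0, 0, 0), (101, 0, 0, 0, 0), (101, 0,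 0, 0, 0), (117, 0, 0, 0, 0), (117, 0, 0, 0, 0), (118, 0, 0, 0, 0), (118, 0, 0, 0, 0), (119, 0, 0, 0, 0), (119, 0, 0, 0, 0), (85, 0, 0, 0, 0), (85, 0, 0, 0, 0), (86, 0, 0, 0, 0), (86, 0, 0, 0, 0), (87, 0, 0, 0, 0), (87, 0, 0, 0, 0), (165, 0, 0, 0, 0), (165, 0, 0, 0, 0), (166, 0, 0, 0, 0), (166, 0, 0, 0, 0), (167, 0, 0, 0, 0), (167, 0, 0, 0, 0), (102, 0, 0, 0, 0), (102, 0, 0, 0, 0), (171, 0, 0, 0, 0), (171, 0, 0, 0, 0), (103, 0, 0, 0, 0), (103, 0, 0, 0, 0), (109, 0, 0, 0, 0), (109, 0, 0, 0, 0), (110, 0, 0, 0, 0), (110, 0, 0, 0, 0), (111, 0, 0, 0, 0), (111, 0, 0, 0, 0)]]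

def m26_2 : Base := (0, 1, [(0, [0], [0, 5]), (0, [1], [1, 2]), (0, [2], [3, 4]), (4, [], [5])])

def l26_2 : Cov := [(432, 0, 1, [(0, [0], [0, 5]), (0, [1], [1, 2]), (0, [2], [3, 4]), (4, [], [5])]),
  (-432, 0, 1, [(0, [0], [0, 5]), (0, [1], [1, 3]), (0, [2], [2, 4]), (4, [], [5])]),
  (-432, 0, 1, [(0, [0], [0, 5]), (0, [1], [2, 4]), (0, [2], [1, 3]), (4, [], [5])]),
  (432, 0, 1, [(0, [0], [0, 5]), (0, [1], [3, 4]), (0, [2], [1, 2]), (4, [], [5])]),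
  (432, 0, 1, [(0, [0], [1, 5]), (0, [1], [0, 2]), (0, [2], [3, 4]), (4, [], [5])]),
  (-432, 0, 1, [(0, [0], [1, 5]), (0, [1], [0, 4]), (0, [2], [2, 3]), (4, [], [5])]),
  (-432, 0, 1, [(0, [0], [1, 5]), (0, [1], [2, 3]), (0, [2], [0, 4]), (4, [], [5])]),
  (432, 0, 1, [(0, [0], [1, 5]), (0, [1], [3, 4]), (0, [2], [0, 2]), (4, [], [5])]),
  (864, 0, 1, [(0, [0], [2, 5]), (0, [1], [0, 1]), (0, [2], [3, 4]), (4, [], [5])]),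
  (-864, 0, 1, [(0, [0], [2, 5]), (0, [1], [0, 4]), (0, [2], [1, 3]), (4, [], [5])]),
  (-864, 0, 1, [(0, [0], [2, 5]), (0, [1], [1, 3]), (0, [2], [0, 4]), (4, [], [5])]),
  (864, 0, 1, [(0, [0], [2, 5]), (0, [1], [3, 4]), (0, [2], [0, 1]), (4, [], [5])]),
  (432, 0, 1, [(0, [0], [3, 5]), (0, [1], [0, 1]), (0, [2], [2, 4]), (4, [], [5])]),
  (-432, 0, 1, [(0, [0], [3, 5]), (0, [1], [0, 4]), (0, [2], [1, 2]), (4, [], [5])]),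
  (-432, 0, 1, [(0, [0], [3, 5]), (0, [1], [1, 2]), (0, [2], [0, 4]), (4, [], [5])]),
  (432, 0, 1, [(0, [0], [3, 5]), (0, [1], [2, 4]), (0, [2], [0, 1]), (4, [], [5])]),
  (432, 0, 1, [(0, [0], [4, 5]), (0, [1], [0, 1]), (0, [2], [2, 3]), (4, [], [5])]),
  (-432, 0, 1, [(0, [0], [4, 5]), (0, [1], [0, 2]), (0, [2], [1, 3]), (4, [], [5])]),
  (-432, 0, 1, [(0, [0], [4, 5]), (0, [1], [1, 3]), (0, [2], [0, 2]), (4, [], [5])]),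
  (432, 0, 1, [(0, [0], [4, 5]), (0, [1], [2, 3]), (0, [2], [0, 1]), (4, [], [5])]),
  (432, 0, 1, [(0, [1], [0, 5]), (0, [0], [1, 2]), (0, [2], [3, 4]), (4, [], [5])]),
  (-432, 0, 1, [(0, [1], [0, 5]), (0, [0], [1, 3]), (0, [2], [2, 4]), (4, [], [5])]),
  (-432, 0, 1, [(0, [1], [0, 5]), (0, [0], [2, 4]), (0, [2], [1, 3]), (4, [], [5])]),
  (432, 0, 1, [(0, [1], [0, 5]), (0, [0], [3, 4]), (0, [2], [1, 2]), (4, [], [5])]),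
  (432, 0, 1, [(0, [1], [1, 5]), (0, [0], [0, 2]), (0, [2], [3, 4]), (4, [], [5])]),
  (-432, 0, 1, [(0, [1], [1, 5]), (0, [0], [0, 4]), (0, [2], [2, 3]), (4, [], [5])]),
  (-432, 0, 1, [(0, [1], [1, 5]), (0, [0], [2, 3]), (0, [2], [0, 4]), (4, [], [5])]),
  (432, 0, 1, [(0, [1], [1, 5]), (0, [0], [3, 4]), (0, [2], [0, 2]), (4, [], [5])]),
  (864, 0, 1, [(0, [1], [2, 5]), (0, [0], [0, 1]), (0, [2], [3, 4]), (4, [], [5])]),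
  (-864, 0, 1, [(0, [1], [2, 5]), (0, [0], [0, 4]), (0, [2], [1, 3]), (4, [], [5])]),
  (-864, 0, 1, [(0, [1], [2, 5]), (0, [0], [1, 3]), (0, [2], [0, 4]), (4, [], [5])]),
  (864, 0, 1, [(0, [1], [2, 5]), (0, [0], [3, 4]), (0, [2], [0, 1]), (4, [], [5])]),
  (432, 0, 1, [(0, [1], [3, 5]), (0, [0], [0, 1]), (0, [2], [2, 4]), (4, [], [5])]),
  (-432, 0, 1, [(0, [1], [3, 5]), (0, [0], [0, 4]), (0, [2], [1, 2]), (4, [], [5])]),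
  (-432, 0, 1, [(0, [1], [3, 5]), (0, [0], [1, 2]), (0, [2], [0, 4]), (4, [], [5])]),
  (432, 0, 1, [(0, [1], [3, 5]), (0, [0], [2, 4]), (0, [2], [0, 1]), (4, [], [5])]),
  (432, 0, 1, [(0, [1], [4, 5]), (0, [0], [0, 1]), (0, [2], [2, 3]), (4, [], [5])]),
  (-432, 0, 1, [(0, [1], [4, 5]), (0, [0], [0, 2]), (0, [2], [1, 3]), (4, [], [5])]),
  (-432, 0, 1, [(0, [1], [4, 5]), (0, [0], [1, 3]), (0, [2], [0, 2]), (4, [], [5])]),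
  (432, 0, 1, [(0, [1], [4, 5]), (0, [0], [2, 3]), (0, [2], [0, 1]), (4, [], [5])]),
  (432, 0, 1, [(0, [2], [0, 5]), (0, [0], [1, 2]), (0, [1], [3, 4]), (4, [], [5])]),
  (-432, 0, 1, [(0, [2], [0, 5]), (0, [0], [1, 3]), (0, [1], [2, 4]), (4, [], [5])]),
  (-432, 0, 1, [(0, [2], [0, 5]), (0, [0], [2, 4]), (0, [1], [1, 3]), (4, [], [5])]),
  (432, 0, 1, [(0, [2], [0, 5]), (0, [0], [3, 4]), (0, [1], [1, 2]), (4, [], [5])]),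
  (432, 0, 1, [(0, [2], [1, 5]), (0, [0], [0, 2]), (0, [1], [3, 4]), (4, [], [5])]),
  (-432, 0, 1, [(0, [2], [1, 5]), (0, [0], [0, 4]), (0, [1], [2, 3]), (4, [], [5])]),
  (-432, 0, 1, [(0, [2], [1, 5]), (0, [0], [2, 3]), (0, [1], [0, 4]), (4, [], [5])]),
  (432, 0, 1, [(0, [2], [1, 5]), (0, [0], [3, 4]), (0, [1], [0, 2]), (4, [], [5])]),
  (864, 0, 1, [(0, [2], [2, 5]), (0, [0], [0, 1]), (0, [1], [3, 4]), (4, [], [5])]),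
  (-864, 0, 1, [(0, [2], [2, 5]), (0, [0], [0, 4]), (0, [1], [1, 3]), (4, [], [5])]),
  (-864, 0, 1, [(0, [2], [2, 5]), (0, [0], [1, 3]), (0, [1], [0, 4]), (4, [], [5])]),
  (864, 0, 1, [(0, [2], [2, 5]), (0, [0], [3, 4]), (0, [1], [0, 1]), (4, [], [5])]),
  (432, 0, 1, [(0, [2], [3, 5]), (0, [0], [0, 1]), (0, [1], [2, 4]), (4, [], [5])]),
  (-432, 0, 1, [(0, [2], [3, 5]), (0, [0], [0, 4]), (0, [1], [1, 2]), (4, [], [5])]),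
  (-432, 0, 1, [(0, [2], [3, 5]), (0, [0], [1, 2]), (0, [1], [0, 4]), (4, [], [5])]),
  (432, 0, 1, [(0, [2], [3, 5]), (0, [0], [2, 4]), (0, [1], [0, 1]), (4, [], [5])]),
  (432, 0, 1, [(0, [2], [4, 5]), (0, [0], [0, 1]), (0, [1], [2, 3]), (4, [], [5])]),
  (-432, 0, 1, [(0, [2], [4, 5]), (0, [0], [0, 2]), (0, [1], [1, 3]), (4, [], [5])]),
  (-432, 0, 1, [(0, [2], [4, 5]), (0, [0], [1, 3]), (0, [1], [0, 2]), (4, [], [5])]),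
  (432, 0, 1, [(0, [2], [4, 5]), (0, [0], [2, 3]), (0, [1], [0, 1]), (4, [], [5])])]

def z26_2 : Cov := [(0, 0, 1, [(0, [0], [0, 5]), (0, [1], [1, 4]), (0, [2], [2, 3]), (4, [], [5])]),
  (0, 0, 1, [(0, [0], [0, 5]), (0, [1], [2, 3]), (0, [2], [1, 4]), (4, [], [5])]),
  (0, 0, 1, [(0, [0], [1, 5]), (0, [1], [0, 3]), (0, [2], [2, 4]), (4, [], [5])]),
  (0, 0, 1, [(0, [0], [1, 5]), (0, [1], [2, 4]), (0, [2], [0, 3]), (4, [], [5])]),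
  (0, 0, 1, [(0, [0], [2, 5]), (0, [1], [0, 3]), (0, [2], [1, 4]), (4, [], [5])]),
  (0, 0, 1, [(0, [0], [2, 5]), (0, [1], [1, 4]), (0, [2], [0, 3]), (4, [], [5])]),
  (0, 0, 1, [(0, [0], [3, 5]), (0, [1], [0, 2]), (0, [2], [1, 4]), (4, [], [5])]),
  (0, 0, 1, [(0, [0], [3, 5]), (0, [1], [1, 4]), (0, [2], [0, 2]), (4, [], [5])]),
  (0, 0, 1, [(0, [0], [4, 5]), (0, [1], [0, 3]), (0, [2], [1, 2]), (4, [], [5])]),
  (0, 0, 1, [(0, [0], [4, 5]), (0, [1], [1, 2]), (0, [2], [0, 3]), (4, [], [5])]),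
  (0, 0, 1, [(0, [1], [0, 5]), (0, [0], [1, 4]), (0, [2], [2, 3]), (4, [], [5])]),
  (0, 0, 1, [(0, [1], [0, 5]), (0, [0], [2, 3]), (0, [2], [1, 4]), (4, [], [5])]),
  (0, 0, 1, [(0, [1], [1, 5]), (0, [0], [0, 3]), (0, [2], [2, 4]), (4, [], [5])]),
  (0, 0, 1, [(0, [1], [1, 5]), (0, [0], [2, 4]), (0, [2], [0, 3]), (4, [], [5])]),
  (0, 0, 1, [(0, [1], [2, 5]), (0, [0], [0, 3]), (0, [2], [1, 4]), (4, [], [5])]),
  (0, 0, 1, [(0, [1], [2, 5]), (0, [0], [1, 4]), (0, [2], [0, 3]), (4, [], [5])]),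
  (0, 0, 1, [(0, [1], [3, 5]), (0, [0], [0, 2]), (0, [2], [1, 4]), (4, [], [5])]),
  (0, 0, 1, [(0, [1], [3, 5]), (0, [0], [1, 4]), (0, [2], [0, 2]), (4, [], [5])]),
  (0, 0, 1, [(0, [1], [4, 5]), (0, [0], [0, 3]), (0, [2], [1, 2]), (4, [], [5])]),
  (0, 0, 1, [(0, [1], [4, 5]), (0, [0], [1, 2]), (0, [2], [0, 3]), (4, [], [5])]),
  (0, 0, 1, [(0, [2], [0, 5]), (0, [0], [1, 4]), (0, [1], [2, 3]), (4, [], [5])]),
  (0, 0, 1, [(0, [2], [0, 5]), (0, [0], [2, 3]), (0, [1], [1, 4]), (4, [], [5])]),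
  (0, 0, 1, [(0, [2], [1, 5]), (0, [0], [0, 3]), (0, [1], [2, 4]), (4, [], [5])]),
  (0, 0, 1, [(0, [2], [1, 5]), (0, [0], [2, 4]), (0, [1], [0, 3]), (4, [], [5])]),
  (0, 0, 1, [(0, [2], [2, 5]), (0, [0], [0, 3]), (0, [1], [1, 4]), (4, [], [5])]),
  (0, 0, 1, [(0, [2], [2, 5]), (0, [0], [1, 4]), (0, [1], [0, 3]), (4, [], [5])]),
  (0, 0, 1, [(0, [2], [3, 5]), (0, [0], [0, 2]), (0, [1], [1, 4]), (4, [], [5])]),
  (0, 0, 1, [(0, [2], [3, 5]), (0, [0], [1, 4]), (0, [1], [0, 2]), (4, [], [5])]),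
  (0, 0, 1, [(0, [2], [4, 5]), (0, [0], [0, 3]), (0, [1], [1, 2]), (4, [], [5])]),
  (0, 0, 1, [(0, [2], [4, 5]), (0, [0], [1, 2]), (0, [1], [0, 3]), (4, [], [5])])]

def w26_2 : List (List Wit) := [[(0, 0, 0, 0, 0), (0, 0, 0, 0, 0), (1, 0, 0, 0, 0), (1, 0, 0, 0, 0), (60, 0, 0, 0, 0), (60, 0, 0, 0, 0), (0, 0, 0, 0, 0), (0, 0, 0, 0, 0), (61, 0, 0, 0, 0), (61, 0, 0, 0, 0), (2, 0, 0, 0, 0), (2, 0, 0, 0, 0), (1, 0, 0, 0, 0), (1, 0, 0, 0, 0), (61, 0, 0, 0, 0), (61, 0, 0, 0, 0), (3, 0, 0, 0, 0), (3, 0, 0, 0, 0), (60, 0, 0, 0, 0), (60, 0, 0, 0, 0), (2, 0, 0, 0, 0), (2, 0, 0, 0, 0), (3, 0, 0, 0, 0), (3, 0, 0, 0, 0), (4, 0, 0, 0, 0), (4, 0, 0, 0, 0), (62, 0, 0, 0, 0), (62, 0, 0, 0, 0), (5, 0, 0, 0, 0), (5, 0, 0, 0, 0), (4, 0, 0, 0, 0), (4, 0, 0, 0, 0), (6, 0, 0, 0, 0), (6, 0, 0, 0, 0), (63, 0, 0, 0, 0), (63, 0, 0, 0, 0), (62, 0, 0,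 0, 0), (62, 0, 0, 0, 0), (6, 0, 0, 0, 0), (6, 0, 0, 0, 0), (7, 0, 0, 0, 0), (7, 0, 0, 0, 0), (5, 0, 0, 0, 0), (5, 0, 0, 0, 0), (63, 0, 0, 0, 0), (63, 0, 0, 0, 0), (7, 0, 0, 0, 0), (7, 0, 0, 0, 0), (8, 0, 0, 0, 0), (8, 0, 0, 0, 0), (64, 0, 0, 0, 0), (64, 0, 0, 0, 0), (9, 0, 0, 0, 0), (9, 0, 0, 0, 0), (8, 0, 0, 0, 0), (8, 0, 0, 0, 0), (10, 0, 0, 0, 0), (10, 0, 0, 0, 0), (65, 0, 0, 0, 0), (65, 0, 0, 0, 0), (64, 0, 0, 0, 0), (64, 0, 0, 0, 0), (10, 0, 0, 0, 0), (10, 0, 0, 0, 0), (11, 0, 0, 0, 0), (11, 0, 0, 0, 0), (9, 0, 0, 0, 0), (9, 0, 0, 0, 0), (65, 0, 0, 0, 0), (65, 0, 0, 0, 0), (11, 0, 0, 0, 0), (11, 0, 0, 0, 0), (12, 0, 0, 0, 0), (12, 0, 0, 0, 0), (66, 0, 0, 0, 0), (66, 0, 0, 0, 0), (13, 0, 0, 0, 0), (13, 0, 0, 0, 0), (12, 0, 0, 0, 0), (12, 0, 0, 0, 0), (14, 0, 0, 0, 0), (14, 0, 0, 0, 0), (67, 0, 0, 0, 0), (67, 0, 0, 0, 0),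 (66, 0, 0, 0, 0), (66, 0, 0, 0, 0), (14, 0, 0, 0, 0), (14, 0, 0, 0, 0), (15, 0, 0, 0, 0), (15, 0, 0, 0, 0), (13, 0, 0, 0, 0), (13, 0, 0, 0, 0), (67, 0, 0, 0, 0), (67, 0, 0, 0, 0), (15, 0, 0, 0, 0), (15, 0, 0, 0, 0), (16, 0, 0, 0, 0), (16, 0, 0, 0, 0), (17, 0, 0, 0, 0), (17, 0, 0, 0, 0), (68, 0, 0, 0, 0), (68, 0, 0, 0, 0), (16, 0, 0, 0, 0), (16, 0, 0, 0, 0), (69, 0, 0, 0, 0), (69, 0, 0, 0, 0), (18, 0, 0, 0, 0), (18, 0, 0, 0, 0), (17, 0, 0, 0, 0), (17, 0, 0, 0, 0), (69, 0, 0, 0, 0), (69, 0, 0, 0, 0), (19, 0, 0, 0, 0), (19, 0, 0, 0, 0), (68, 0, 0, 0, 0), (68, 0, 0, 0, 0), (18, 0, 0, 0, 0), (18, 0, 0, 0, 0), (19, 0, 0, 0, 0), (19, 0, 0, 0, 0)],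
  [(3, 0, 0, 0, 0), (3, 0, 0, 0, 0), (2, 0, 0, 0, 0), (2, 0, 0, 0, 0), (61, 0, 0, 0, 0), (61, 0, 0, 0, 0), (3, 0, 0, 0, 0), (3, 0, 0, 0, 0), (60, 0, 0, 0, 0), (60, 0, 0, 0, 0), (1, 0, 0, 0, 0), (1, 0, 0, 0, 0), (2, 0, 0, 0, 0), (2, 0, 0, 0, 0), (60, 0, 0, 0, 0), (60, 0, 0, 0, 0), (0, 0, 0, 0, 0), (0, 0, 0, 0, 0), (61, 0, 0, 0, 0), (61, 0, 0, 0, 0), (1, 0, 0, 0, 0), (1, 0, 0, 0, 0), (0, 0, 0, 0, 0), (0, 0, 0, 0, 0), (7, 0, 0, 0, 0), (7, 0, 0, 0, 0), (63, 0, 0, 0, 0), (63, 0, 0, 0, 0), (6, 0, 0, 0, 0), (6, 0, 0, 0, 0), (7, 0, 0, 0, 0), (7, 0, 0, 0, 0), (5, 0, 0, 0, 0), (5, 0, 0, 0, 0), (62, 0, 0, 0, 0), (62, 0, 0, 0, 0), (63, 0, 0, 0, 0), (63, 0, 0, 0, 0), (5, 0, 0, 0, 0), (5, 0, 0, 0, 0), (4, 0, 0, 0, 0), (4, 0, 0, 0, 0), (6, 0, 0, 0, 0), (6, 0, 0, 0, 0), (62, 0, 0, 0, 0), (62, 0, 0, 0, 0), (4, 0, 0, 0, 0), (4, 0, 0, 0, 0),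 (11, 0, 0, 0, 0), (11, 0, 0, 0, 0), (65, 0, 0, 0, 0), (65, 0, 0, 0, 0), (10, 0, 0, 0, 0), (10, 0, 0, 0, 0), (11, 0, 0, 0, 0), (11, 0, 0, 0, 0), (9, 0, 0, 0, 0), (9, 0, 0, 0, 0), (64, 0, 0, 0, 0), (64, 0, 0, 0, 0), (65, 0, 0, 0, 0), (65, 0, 0, 0, 0), (9, 0, 0, 0, 0), (9, 0, 0, 0, 0), (8, 0, 0, 0, 0), (8, 0, 0, 0, 0), (10, 0, 0, 0, 0), (10, 0, 0, 0, 0), (64, 0, 0, 0, 0), (64, 0, 0, 0, 0), (8, 0, 0, 0, 0), (8, 0, 0, 0, 0), (15, 0, 0, 0, 0), (15, 0, 0, 0, 0), (67, 0, 0, 0, 0), (67, 0, 0, 0, 0), (14, 0, 0, 0, 0), (14, 0, 0, 0, 0), (15, 0, 0, 0, 0), (15, 0, 0, 0, 0), (13, 0, 0, 0, 0), (13, 0, 0, 0, 0), (66, 0, 0, 0, 0), (66, 0, 0, 0, 0), (67, 0, 0, 0, 0), (67, 0, 0, 0, 0), (13, 0, 0, 0, 0), (13, 0, 0, 0, 0), (12, 0, 0, 0, 0), (12, 0, 0, 0, 0), (14, 0, 0, 0, 0), (14, 0, 0, 0, 0), (66, 0, 0, 0, 0), (66, 0, 0, 0, 0), (12, 0, 0, 0,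 0), (12, 0, 0, 0, 0), (19, 0, 0, 0, 0), (19, 0, 0, 0, 0), (18, 0, 0, 0, 0), (18, 0, 0, 0, 0), (69, 0, 0, 0, 0), (69, 0, 0, 0, 0), (19, 0, 0, 0, 0), (19, 0, 0, 0, 0), (68, 0, 0, 0, 0), (68, 0, 0, 0, 0), (17, 0, 0, 0, 0), (17, 0, 0, 0, 0), (18, 0, 0, 0, 0), (18, 0, 0, 0, 0), (68, 0, 0, 0, 0), (68, 0, 0, 0, 0), (16, 0, 0, 0, 0), (16, 0, 0, 0, 0), (69, 0, 0, 0, 0), (69, 0, 0, 0, 0), (17, 0, 0, 0, 0), (17, 0, 0, 0, 0), (16, 0, 0, 0, 0), (16, 0, 0, 0, 0)],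
  [(20, 0, 0, 0, 0), (20, 0, 0, 0, 0), (21, 0, 0, 0, 0), (21, 0, 0, 0, 0), (70, 0, 0, 0, 0), (70, 0, 0, 0, 0), (20, 0, 0, 0, 0), (20, 0, 0, 0, 0), (71, 0, 0, 0, 0), (71, 0, 0, 0, 0), (22, 0, 0, 0, 0), (22, 0, 0, 0, 0), (21, 0, 0, 0, 0), (21, 0, 0, 0, 0), (71, 0, 0, 0, 0), (71, 0, 0, 0, 0), (23, 0, 0, 0, 0), (23, 0, 0, 0, 0), (70, 0, 0, 0, 0), (70, 0, 0, 0, 0), (22, 0, 0, 0, 0), (22, 0, 0, 0, 0), (23, 0, 0, 0, 0), (23, 0, 0, 0, 0), (24, 0, 0, 0, 0), (24, 0, 0, 0, 0), (72, 0, 0, 0, 0), (72, 0, 0, 0, 0), (25, 0, 0, 0, 0), (25, 0, 0, 0, 0), (24, 0, 0, 0, 0), (24, 0, 0, 0, 0), (26, 0, 0, 0, 0), (26, 0, 0, 0, 0), (73, 0, 0, 0, 0), (73, 0, 0, 0, 0), (72, 0, 0, 0, 0), (72, 0, 0, 0, 0), (26, 0, 0, 0, 0), (26, 0, 0, 0, 0), (27, 0, 0, 0, 0), (27, 0, 0, 0, 0), (25, 0, 0, 0, 0), (25, 0, 0, 0, 0), (73, 0, 0, 0, 0), (73, 0, 0, 0, 0), (27,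 0, 0, 0, 0), (27, 0, 0, 0, 0), (28, 0, 0, 0, 0), (28, 0, 0, 0, 0), (74, 0, 0, 0, 0), (74, 0, 0, 0, 0), (29, 0, 0, 0, 0), (29, 0, 0, 0, 0), (28, 0, 0, 0, 0), (28, 0, 0, 0, 0), (30, 0, 0, 0, 0), (30, 0, 0, 0, 0), (75, 0, 0, 0, 0), (75, 0, 0, 0, 0), (74, 0, 0, 0, 0), (74, 0, 0, 0, 0), (30, 0, 0, 0, 0), (30, 0, 0, 0, 0), (31, 0, 0, 0, 0), (31, 0, 0, 0, 0), (29, 0, 0, 0, 0), (29, 0, 0, 0, 0), (75, 0, 0, 0, 0), (75, 0, 0, 0, 0), (31, 0, 0, 0, 0), (31, 0, 0, 0, 0), (32, 0, 0, 0, 0), (32, 0, 0, 0, 0), (76, 0, 0, 0, 0), (76, 0, 0, 0, 0), (33, 0, 0, 0, 0), (33, 0, 0, 0, 0), (32, 0, 0, 0, 0), (32, 0, 0, 0, 0), (34, 0, 0, 0, 0), (34, 0, 0, 0, 0), (77, 0, 0, 0, 0), (77, 0, 0, 0, 0), (76, 0, 0, 0, 0), (76, 0, 0, 0, 0), (34, 0, 0, 0, 0), (34, 0, 0, 0, 0), (35, 0, 0, 0, 0), (35, 0, 0, 0, 0), (33, 0, 0, 0, 0), (33, 0, 0, 0, 0), (77, 0, 0,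 0, 0), (77, 0, 0, 0, 0), (35, 0, 0, 0, 0), (35, 0, 0, 0, 0), (36, 0, 0, 0, 0), (36, 0, 0, 0, 0), (37, 0, 0, 0, 0), (37, 0, 0, 0, 0), (78, 0, 0, 0, 0), (78, 0, 0, 0, 0), (36, 0, 0, 0, 0), (36, 0, 0, 0, 0), (79, 0, 0, 0, 0), (79, 0, 0, 0, 0), (38, 0, 0, 0, 0), (38, 0, 0, 0, 0), (37, 0, 0, 0, 0), (37, 0, 0, 0, 0), (79, 0, 0, 0, 0), (79, 0, 0, 0, 0), (39, 0, 0, 0, 0), (39, 0, 0, 0, 0), (78, 0, 0, 0, 0), (78, 0, 0, 0, 0), (38, 0, 0, 0, 0), (38, 0, 0, 0, 0), (39, 0, 0, 0, 0), (39, 0, 0, 0, 0)],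
  [(23, 0, 0, 0, 0), (23, 0, 0, 0, 0), (22, 0, 0, 0, 0), (22, 0, 0, 0, 0), (71, 0, 0, 0, 0), (71, 0, 0, 0, 0), (23, 0, 0, 0, 0), (23, 0, 0, 0, 0), (70, 0, 0, 0, 0), (70, 0, 0, 0, 0), (21, 0, 0, 0, 0), (21, 0, 0, 0, 0), (22, 0, 0, 0, 0), (22, 0, 0, 0, 0), (70, 0, 0, 0, 0), (70, 0, 0, 0, 0), (20, 0, 0, 0, 0), (20, 0, 0, 0, 0), (71, 0, 0, 0, 0), (71, 0, 0, 0, 0), (21, 0, 0, 0, 0), (21, 0, 0, 0, 0), (20, 0, 0, 0, 0), (20, 0, 0, 0, 0), (27, 0, 0, 0, 0), (27, 0, 0, 0, 0), (73, 0, 0, 0, 0), (73, 0, 0, 0, 0), (26, 0, 0, 0, 0), (26, 0, 0, 0, 0), (27, 0, 0, 0, 0), (27, 0, 0, 0, 0), (25, 0, 0, 0, 0), (25, 0, 0, 0, 0), (72, 0, 0, 0, 0), (72, 0, 0, 0, 0), (73, 0, 0, 0, 0), (73, 0, 0, 0, 0), (25, 0, 0, 0, 0), (25, 0, 0, 0, 0), (24, 0, 0, 0, 0), (24, 0, 0, 0, 0), (26, 0, 0, 0, 0), (26, 0, 0, 0, 0), (72, 0, 0, 0, 0), (72, 0, 0, 0, 0), (24,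 0, 0, 0, 0), (24, 0, 0, 0, 0), (31, 0, 0, 0, 0), (31, 0, 0, 0, 0), (75, 0, 0, 0, 0), (75, 0, 0, 0, 0), (30, 0, 0, 0, 0), (30, 0, 0, 0, 0), (31, 0, 0, 0, 0), (31, 0, 0, 0, 0), (29, 0, 0, 0, 0), (29, 0, 0, 0, 0), (74, 0, 0, 0, 0), (74, 0, 0, 0, 0), (75, 0, 0, 0, 0), (75, 0, 0, 0, 0), (29, 0, 0, 0, 0), (29, 0, 0, 0, 0), (28, 0, 0, 0, 0), (28, 0, 0, 0, 0), (30, 0, 0, 0, 0), (30, 0, 0, 0, 0), (74, 0, 0, 0, 0), (74, 0, 0, 0, 0), (28, 0, 0, 0, 0), (28, 0, 0, 0, 0), (35, 0, 0, 0, 0), (35, 0, 0, 0, 0), (77, 0, 0, 0, 0), (77, 0, 0, 0, 0), (34, 0, 0, 0, 0), (34, 0, 0, 0, 0), (35, 0, 0, 0, 0), (35, 0, 0, 0, 0), (33, 0, 0, 0, 0), (33, 0, 0, 0, 0), (76, 0, 0, 0, 0), (76, 0, 0, 0, 0), (77, 0, 0, 0, 0), (77, 0, 0, 0, 0), (33, 0, 0, 0, 0), (33, 0, 0, 0, 0), (32, 0, 0, 0, 0), (32, 0, 0, 0, 0), (34, 0, 0, 0, 0), (34, 0, 0, 0, 0), (76, 0, 0,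 0, 0), (76, 0, 0, 0, 0), (32, 0, 0, 0, 0), (32, 0, 0, 0, 0), (39, 0, 0, 0, 0), (39, 0, 0, 0, 0), (38, 0, 0, 0, 0), (38, 0, 0, 0, 0), (79, 0, 0, 0, 0), (79, 0, 0, 0, 0), (39, 0, 0, 0, 0), (39, 0, 0, 0, 0), (78, 0, 0, 0, 0), (78, 0, 0, 0, 0), (37, 0, 0, 0, 0), (37, 0, 0, 0, 0), (38, 0, 0, 0, 0), (38, 0, 0, 0, 0), (78, 0, 0, 0, 0), (78, 0, 0, 0, 0), (36, 0, 0, 0, 0), (36, 0, 0, 0, 0), (79, 0, 0, 0, 0), (79, 0, 0, 0, 0), (37, 0, 0, 0, 0), (37, 0, 0, 0, 0), (36, 0, 0, 0, 0), (36, 0, 0, 0, 0)],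
  [(40, 0, 0, 0, 0), (40, 0, 0, 0, 0), (41, 0, 0, 0, 0), (41, 0, 0, 0, 0), (80, 0, 0, 0, 0), (80, 0, 0, 0, 0), (40, 0, 0, 0, 0), (40, 0, 0, 0, 0), (81, 0, 0, 0, 0), (81, 0, 0, 0, 0), (42, 0, 0, 0, 0), (42, 0, 0, 0, 0), (41, 0, 0, 0, 0), (41, 0, 0, 0, 0), (81, 0, 0, 0, 0), (81, 0, 0, 0, 0), (43, 0, 0, 0, 0), (43, 0, 0, 0, 0), (80, 0, 0, 0, 0), (80, 0, 0, 0, 0), (42, 0, 0, 0, 0), (42, 0, 0, 0, 0), (43, 0, 0, 0, 0), (43, 0, 0, 0, 0), (44, 0, 0, 0, 0), (44, 0, 0, 0, 0), (82, 0, 0, 0, 0), (82, 0, 0, 0, 0), (45, 0, 0, 0, 0), (45, 0, 0, 0, 0), (44, 0, 0, 0, 0), (44, 0, 0, 0, 0), (46, 0, 0, 0, 0), (46, 0, 0, 0, 0), (83, 0, 0, 0, 0), (83, 0, 0, 0, 0), (82, 0, 0, 0, 0), (82, 0, 0, 0, 0), (46, 0, 0, 0, 0), (46, 0, 0, 0, 0), (47, 0, 0, 0, 0), (47, 0, 0, 0, 0), (45, 0, 0, 0, 0), (45, 0, 0, 0, 0), (83, 0, 0, 0, 0), (83, 0, 0, 0, 0), (47,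 0, 0, 0, 0), (47, 0, 0, 0, 0), (48, 0, 0, 0, 0), (48, 0, 0, 0, 0), (84, 0, 0, 0, 0), (84, 0, 0, 0, 0), (49, 0, 0, 0, 0), (49, 0, 0, 0, 0), (48, 0, 0, 0, 0), (48, 0, 0, 0, 0), (50, 0, 0, 0, 0), (50, 0, 0, 0, 0), (85, 0, 0, 0, 0), (85, 0, 0, 0, 0), (84, 0, 0, 0, 0), (84, 0, 0, 0, 0), (50, 0, 0, 0, 0), (50, 0, 0, 0, 0), (51, 0, 0, 0, 0), (51, 0, 0, 0, 0), (49, 0, 0, 0, 0), (49, 0, 0, 0, 0), (85, 0, 0, 0, 0), (85, 0, 0, 0, 0), (51, 0, 0, 0, 0), (51, 0, 0, 0, 0), (52, 0, 0, 0, 0), (52, 0, 0, 0, 0), (86, 0, 0, 0, 0), (86, 0, 0, 0, 0), (53, 0, 0, 0, 0), (53, 0, 0, 0, 0), (52, 0, 0, 0, 0), (52, 0, 0, 0, 0), (54, 0, 0, 0, 0), (54, 0, 0, 0, 0), (87, 0, 0, 0, 0), (87, 0, 0, 0, 0), (86, 0, 0, 0, 0), (86, 0, 0, 0, 0), (54, 0, 0, 0, 0), (54, 0, 0, 0, 0), (55, 0, 0, 0, 0), (55, 0, 0, 0, 0), (53, 0, 0, 0, 0), (53, 0, 0, 0, 0), (87, 0, 0,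 0, 0), (87, 0, 0, 0, 0), (55, 0, 0, 0, 0), (55, 0, 0, 0, 0), (56, 0, 0, 0, 0), (56, 0, 0, 0, 0), (57, 0, 0, 0, 0), (57, 0, 0, 0, 0), (88, 0, 0, 0, 0), (88, 0, 0, 0, 0), (56, 0, 0, 0, 0), (56, 0, 0, 0, 0), (89, 0, 0, 0, 0), (89, 0, 0, 0, 0), (58, 0, 0, 0, 0), (58, 0, 0, 0, 0), (57, 0, 0, 0, 0), (57, 0, 0, 0, 0), (89, 0, 0, 0, 0), (89, 0, 0, 0, 0), (59, 0, 0, 0, 0), (59, 0, 0, 0, 0), (88, 0, 0, 0, 0), (88, 0, 0, 0, 0), (58, 0, 0, 0, 0), (58, 0, 0, 0, 0), (59, 0, 0, 0, 0), (59, 0, 0, 0, 0)],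
  [(43, 0, 0, 0, 0), (43, 0, 0, 0, 0), (42, 0, 0, 0, 0), (42, 0, 0, 0, 0), (81, 0, 0, 0, 0), (81, 0, 0, 0, 0), (43, 0, 0, 0, 0), (43, 0, 0, 0, 0), (80, 0, 0, 0, 0), (80, 0, 0, 0, 0), (41, 0, 0, 0, 0), (41, 0, 0, 0, 0), (42, 0, 0, 0, 0), (42, 0, 0, 0, 0), (80, 0, 0, 0, 0), (80, 0, 0, 0, 0), (40, 0, 0, 0, 0), (40, 0, 0, 0, 0), (81, 0, 0, 0, 0), (81, 0, 0, 0, 0), (41, 0, 0, 0, 0), (41, 0, 0, 0, 0), (40, 0, 0, 0, 0), (40, 0, 0, 0, 0), (47, 0, 0, 0, 0), (47, 0, 0, 0, 0), (83, 0, 0, 0, 0), (83, 0, 0, 0, 0), (46, 0, 0, 0, 0), (46, 0, 0, 0, 0), (47, 0, 0, 0, 0), (47, 0, 0, 0, 0), (45, 0, 0, 0, 0), (45, 0, 0, 0, 0), (82, 0, 0, 0, 0), (82, 0, 0, 0, 0), (83, 0, 0, 0, 0), (83, 0, 0, 0, 0), (45, 0, 0, 0, 0), (45, 0, 0, 0, 0), (44, 0, 0, 0, 0), (44, 0, 0, 0, 0), (46, 0, 0, 0, 0), (46, 0, 0, 0, 0), (82, 0, 0, 0, 0), (82, 0, 0, 0, 0), (44,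 0, 0, 0, 0), (44, 0, 0, 0, 0), (51, 0, 0, 0, 0), (51, 0, 0, 0, 0), (85, 0, 0, 0, 0), (85, 0, 0, 0, 0), (50, 0, 0, 0, 0), (50, 0, 0, 0, 0), (51, 0, 0, 0, 0), (51, 0, 0, 0, 0), (49, 0, 0, 0, 0), (49, 0, 0, 0, 0), (84, 0, 0, 0, 0), (84, 0, 0, 0, 0), (85, 0, 0, 0, 0), (85, 0, 0, 0, 0), (49, 0, 0, 0, 0), (49, 0, 0, 0, 0), (48, 0, 0, 0, 0), (48, 0, 0, 0, 0), (50, 0, 0, 0, 0), (50, 0, 0, 0, 0), (84, 0, 0, 0, 0), (84, 0, 0, 0, 0), (48, 0, 0, 0, 0), (48, 0, 0, 0, 0), (55, 0, 0, 0, 0), (55, 0, 0, 0, 0), (87, 0, 0, 0, 0), (87, 0, 0, 0, 0), (54, 0, 0, 0, 0), (54, 0, 0, 0, 0), (55, 0, 0, 0, 0), (55, 0, 0, 0, 0), (53, 0, 0, 0, 0), (53, 0, 0, 0, 0), (86, 0, 0, 0, 0), (86, 0, 0, 0, 0), (87, 0, 0, 0, 0), (87, 0, 0, 0, 0), (53, 0, 0, 0, 0), (53, 0, 0, 0, 0), (52, 0, 0, 0, 0), (52, 0, 0, 0, 0), (54, 0, 0, 0, 0), (54, 0, 0, 0, 0), (86, 0, 0,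 0, 0), (86, 0, 0, 0, 0), (52, 0, 0, 0, 0), (52, 0, 0, 0, 0), (59, 0, 0, 0, 0), (59, 0, 0, 0, 0), (58, 0, 0, 0, 0), (58, 0, 0, 0, 0), (89, 0, 0, 0, 0), (89, 0, 0, 0, 0), (59, 0, 0, 0, 0), (59, 0, 0, 0, 0), (88, 0, 0, 0, 0), (88, 0, 0, 0, 0), (57, 0, 0, 0, 0), (57, 0, 0, 0, 0), (58, 0, 0, 0, 0), (58, 0, 0, 0, 0), (88, 0, 0, 0, 0), (88, 0, 0, 0, 0), (56, 0, 0, 0, 0), (56, 0, 0, 0, 0), (89, 0, 0, 0, 0), (89, 0, 0, 0, 0), (57, 0, 0, 0, 0), (57, 0, 0, 0, 0), (56, 0, 0, 0, 0), (56, 0, 0, 0, 0)]]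

theorem tr26 : trK keys lk26 kl26 = true := by
  decide +kernel

theorem x26_0 : expB 3 5 dg1 dg6 m26_0 (l26_0 ++ z26_0) w26_0 = true := by
  decide +kernel

theorem x26_1 : expB 3 5 dg1 dg6 m26_1 (l26_1 ++ z26_1) w26_1 = true := by
  decide +kernel

theorem x26_2 : expB 3 5 dg1 dg6 m26_2 (l26_2 ++ z26_2) w26_2 = true := by
  decide +kernel

theorem t26_0_0 : chkS lk26 3 5 [(1, m26_0)] l26_0
  [(20, 33, 258, 103026771, 101975346), (24, 528, 528, 34891056, 52696656), (24, 528, 528, 34887216, 36968016), (23, 528, 528, 34887216, 36968016), (12, 18, 18, 55640676, 22045251), (12, 18, 18, 87429156, 73421106), (12, 18, 18, 87425316, 73421091), (14, 18, 18, 86380596, 73405746), (21, 33, 258, 87298146, 23351346), (33, 33, 258, 88215651, 23397426), (33, 33, 258, 88211811, 23397411), (39, 18, 18, 72552546, 22429746), (11, 18, 18, 54592101,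 17130051), (28, 18, 18, 55840866, 22306866), (39, 18, 18, 72548706, 22429731), (11, 18, 18, 54599781, 17130306), (28, 33, 258, 55836966, 5529891), (11, 33, 258, 54592086, 1401411), (27, 513, 513, 34891011, 52692561), (12, 33, 258, 55640646, 5333571), (44, 528, 528, 51733056, 54616656), (41, 513, 513, 50669076, 37774101), (41, 33, 258, 73732131, 88473906), (29, 33, 258, 56951076, 88105251), (23, 513, 513, 34891011, 52692561), (27, 513, 513, 34887171, 36963921), (12, 33, 258, 55648326, 5333826), (44, 528, 528, 51717696, 37839696), (41, 513, 513, 50684436, 54551061), (41, 33, 258, 73728291, 88473891), (27, 33, 258, 55840866, 22306866), (29, 33, 258, 56954916, 88105266), (11, 18, 18, 70586406, 4608306), (11, 18, 18, 70582566, 4608291), (13, 18, 18, 69537846, 4592946), (41, 18, 18, 73732146, 88477746), (27, 18, 18, 55836966, 5529891),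 (41, 18, 18, 73728306, 88477731), (29, 18, 18, 56954946, 88170546), (27, 18, 18, 55840806, 5529906), (25, 528, 528, 34891056, 52696656), (26, 528, 528, 34891056, 52696656), (26, 528, 528, 34887216, 36968016), (22, 528, 528, 34891056, 52696656), (19, 528, 528, 35017776, 70391376), (19, 288, 288, 19096896, 52512096), (19, 288, 288, 19093056, 36783456), (18, 18, 18, 38998116, 22038066), (35, 18, 18, 55840866, 22306866), (38, 18, 18, 55840866, 22306866), (38, 18, 18, 55837026, 22306851), (11, 33, 258, 40177716, 88086066), (16, 528, 528, 33969201, 70391301), (28, 18, 18, 40108371, 85198371), (11, 33, 258, 40173876, 88086051), (16, 528, 528, 33965361, 69408261), (28, 513, 513, 101983491, 103023441), (39, 513, 513, 100869396, 102777621), (15, 33, 258, 56954916, 88105266), (40, 258, 33, 102827061, 100799811), (4, 513, 513, 101926146,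 102973521), (7, 33, 258, 40173876, 88086051), (7, 513, 513, 101929986, 103956561), (16, 33, 258, 5317446, 5317446), (42, 513, 513, 85221891, 56885841), (15, 33, 258, 56951076, 88105251), (40, 258, 33, 102842421, 100865346), (4, 513, 513, 101929986, 103956561), (7, 33, 258, 40177716, 88086066), (7, 513, 513, 101926146, 102973521), (15, 513, 513, 67461651, 54919701), (16, 33, 258, 5321286, 5321286), (16, 288, 288, 2188611, 52495686), (16, 288, 288, 2184771, 36767046), (2, 288, 288, 34825536, 52512336), (5, 513, 513, 101929986, 103956561), (19, 513, 513, 85337091, 73532241), (5, 513, 513, 101926146, 102973521), (16, 513, 513, 84296211, 73597461), (19, 513, 513, 85344771, 73597521), (35, 33, 258, 55840806, 5529906), (38, 33, 258, 55840806, 5529906), (38, 33, 258, 55836966, 5529891), (28, 33, 258, 40112181, 84153906), (16, 513,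 513, 33969171, 70387221), (39, 33, 258, 40046661, 83969586), (39, 33, 258, 40042821, 83969571), (2, 513, 513, 19162416, 52696416), (25, 513, 513, 34891011, 52692561), (26, 513, 513, 34891011, 52692561), (26, 513, 513, 34887171, 36963921), (9, 18, 18, 40177716, 88086066), (19, 513, 513, 35017731, 70387281), (22, 528, 528, 101995056, 104075856), (9, 18, 18, 40173876, 88086051), (19, 513, 513, 35013891, 69404241), (42, 528, 528, 85206576, 40112976), (40, 288, 288, 102827091, 101844291), (11, 528, 528, 102847536, 103945536), (39, 528, 528, 100869441, 102843141), (4, 528, 528, 101926176, 102973776), (5, 18, 18, 40173876, 88086051), (7, 528, 528, 101930016, 103956816), (15, 528, 528, 67446321, 38146821), (28, 528, 528, 101995056, 104075856), (11, 528, 528, 102843696, 102962496), (39, 528, 528, 100880961, 103891461), (4, 528, 528,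 101930016, 103956816), (5, 18, 18, 40177716, 88086066), (7, 528, 528, 101926176, 102973776), (16, 18, 18, 5321316, 22032966), (15, 528, 528, 67461681, 54923781), (40, 33, 258, 40177731, 88147506), (40, 33, 258, 40173891, 88147491), (34, 33, 258, 39063651, 22283826), (5, 528, 528, 101930016, 103956816), (16, 528, 528, 84288561, 73536261), (5, 528, 528, 101926176, 102973776), (19, 528, 528, 85344816, 73601616), (16, 528, 528, 84296241, 73601541)]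
  [(2, -1296), (4, -864), (5, 864), (7, 864), (9, -216), (11, -2592), (12, -2160), (13, -648), (14, -648), (15, 1296), (16, 864), (18, -648), (19, -648), (20, 648), (21, 648), (22, -432), (23, -432), (24, 1080), (25, 1296), (26, 2160), (27, 1296), (28, -1296), (29, 1512), (33, 1080), (34, -648), (35, 1296), (38, 2160), (39, -2376), (40, -2160), (41, 864), (42, -432), (44, -432)] = true := by
  decide +kernel

theorem t26_0_1 : chkS lk26 3 5 [(1, m26_0)] l26_1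
  [(24, 528, 528, 34887216, 36968016), (24, 528, 528, 34891056, 52696656), (20, 33, 258, 103026771, 101975346), (12, 18, 18, 55640676, 22045251), (23, 528, 528, 34887216, 36968016), (14, 18, 18, 86380596, 73405746), (12, 18, 18, 87425316, 73421091), (12, 18, 18, 87429156, 73421106), (33, 33, 258, 88211811, 23397411), (33, 33, 258, 88215651, 23397426), (21, 33, 258, 87298146, 23351346), (11, 18, 18, 54592101, 17130051), (39, 18, 18, 72552546, 22429746), (11, 18, 18, 54599781, 17130306), (39, 18, 18, 72548706, 22429731), (28, 18, 18, 55840866, 22306866), (11, 33, 258, 54592086, 1401411), (28, 33, 258, 55836966, 5529891), (12, 33, 258, 55640646, 5333571), (27, 513, 513, 34891011, 52692561), (41, 513, 513, 50669076, 37774101), (44, 528, 528, 51733056, 54616656), (29, 33, 258, 56951076, 88105251), (41, 33, 258, 73732131, 88473906),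 (12, 33, 258, 55648326, 5333826), (27, 513, 513, 34887171, 36963921), (23, 513, 513, 34891011, 52692561), (41, 513, 513, 50684436, 54551061), (44, 528, 528, 51717696, 37839696), (29, 33, 258, 56954916, 88105266), (27, 33, 258, 55840866, 22306866), (41, 33, 258, 73728291, 88473891), (13, 18, 18, 69537846, 4592946), (11, 18, 18, 70582566, 4608291), (11, 18, 18, 70586406, 4608306), (27, 18, 18, 55836966, 5529891), (41, 18, 18, 73732146, 88477746), (27, 18, 18, 55840806, 5529906), (29, 18, 18, 56954946, 88170546), (41, 18, 18, 73728306, 88477731), (26, 528, 528, 34887216, 36968016), (26, 528, 528, 34891056, 52696656), (25, 528, 528, 34891056, 52696656), (19, 528, 528, 35017776, 70391376), (22, 528, 528, 34891056, 52696656), (18, 18, 18, 38998116, 22038066), (19, 288, 288, 19093056, 36783456), (19, 288, 288, 19096896, 52512096),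 (38, 18, 18, 55837026, 22306851), (38, 18, 18, 55840866, 22306866), (35, 18, 18, 55840866, 22306866), (16, 528, 528, 33969201, 70391301), (11, 33, 258, 40177716, 88086066), (16, 528, 528, 33965361, 69408261), (11, 33, 258, 40173876, 88086051), (28, 18, 18, 40108371, 85198371), (39, 513, 513, 100869396, 102777621), (28, 513, 513, 101983491, 103023441), (40, 258, 33, 102827061, 100799811), (15, 33, 258, 56954916, 88105266), (7, 33, 258, 40173876, 88086051), (4, 513, 513, 101926146, 102973521), (16, 33, 258, 5317446, 5317446), (7, 513, 513, 101929986, 103956561), (40, 258, 33, 102842421, 100865346), (15, 33, 258, 56951076, 88105251), (42, 513, 513, 85221891, 56885841), (7, 33, 258, 40177716, 88086066), (4, 513, 513, 101929986, 103956561), (16, 33, 258, 5321286, 5321286), (15, 513, 513, 67461651, 54919701), (7, 513, 513, 101926146,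 102973521), (2, 288, 288, 34825536, 52512336), (16, 288, 288, 2184771, 36767046), (16, 288, 288, 2188611, 52495686), (19, 513, 513, 85337091, 73532241), (5, 513, 513, 101929986, 103956561), (19, 513, 513, 85344771, 73597521), (16, 513, 513, 84296211, 73597461), (5, 513, 513, 101926146, 102973521), (38, 33, 258, 55836966, 5529891), (38, 33, 258, 55840806, 5529906), (35, 33, 258, 55840806, 5529906), (16, 513, 513, 33969171, 70387221), (28, 33, 258, 40112181, 84153906), (2, 513, 513, 19162416, 52696416), (39, 33, 258, 40042821, 83969571), (39, 33, 258, 40046661, 83969586), (26, 513, 513, 34887171, 36963921), (26, 513, 513, 34891011, 52692561), (25, 513, 513, 34891011, 52692561), (19, 513, 513, 35017731, 70387281), (9, 18, 18, 40177716, 88086066), (19, 513, 513, 35013891, 69404241), (9, 18, 18, 40173876, 88086051), (22, 528, 528,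 101995056, 104075856), (40, 288, 288, 102827091, 101844291), (42, 528, 528, 85206576, 40112976), (39, 528, 528, 100869441, 102843141), (11, 528, 528, 102847536, 103945536), (5, 18, 18, 40173876, 88086051), (4, 528, 528, 101926176, 102973776), (15, 528, 528, 67446321, 38146821), (7, 528, 528, 101930016, 103956816), (39, 528, 528, 100880961, 103891461), (11, 528, 528, 102843696, 102962496), (28, 528, 528, 101995056, 104075856), (5, 18, 18, 40177716, 88086066), (4, 528, 528, 101930016, 103956816), (15, 528, 528, 67461681, 54923781), (16, 18, 18, 5321316, 22032966), (7, 528, 528, 101926176, 102973776), (34, 33, 258, 39063651, 22283826), (40, 33, 258, 40173891, 88147491), (40, 33, 258, 40177731, 88147506), (16, 528, 528, 84288561, 73536261), (5, 528, 528, 101930016, 103956816), (16, 528, 528, 84296241, 73601541), (19, 528, 528,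 85344816, 73601616), (5, 528, 528, 101926176, 102973776)]
  [(2, -864), (4, 1728), (5, 1728), (7, 1728), (9, -1296), (11, -3456), (12, -864), (13, -432), (14, -432), (15, -864), (18, -432), (19, -432), (20, 432), (21, 432), (22, -864), (23, -864), (24, 1296), (25, 864), (26, 2592), (27, -864), (28, -2592), (29, 432), (33, 1296), (34, -432), (35, 864), (38, 2592), (39, -2160), (40, -864), (41, 1728), (42, -864), (44, 864)] = true := by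
  decide +kernel

theorem t26_0_2 : chkS lk26 3 5 [(1, m26_0)] l26_2
  [(9, 528, 528, 19220016, 37950816), (9, 528, 528, 19227696, 54662496), (12, 528, 528, 19285296, 69408096), (12, 528, 528, 19289136, 70391136), (11, 18, 18, 90243651, 90243651), (13, 33, 258, 56954916, 88105266), (2, 528, 528, 50619681, 52715781), (16, 528, 528, 20337666, 70406241), (5, 513, 513, 51725826, 37970001), (16, 513, 513, 103892256, 102977856), (29, 513, 513, 68494851, 38142801), (41, 288, 288, 19218531, 21169506), (5, 513, 513, 51733506, 54681681), (16, 513, 513, 103896096, 103960896), (29, 513, 513, 68510211, 54919761), (41, 288, 288, 19203171, 21103971), (6, 513, 513, 51794946, 70410321), (31, 18, 18, 90439971, 90439971), (30, 18, 18, 90443826, 90443826), (36, 18, 18, 90443826, 90443826), (11, 33, 258, 90243636, 90182211), (11, 33, 258, 90251316,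 90182466), (16, 513, 513, 20333856, 69423456), (16, 513, 513, 20337696, 70406496), (9, 513, 513, 19219971, 37946721), (10, 513, 513, 19289091, 70387041), (3, 288, 288, 101860176, 101917776), (12, 513, 513, 19289091, 70387041), (5, 528, 528, 51725856, 37970256), (12, 528, 528, 102843696, 102962496), (40, 33, 258, 88158816, 23409216), (41, 258, 33, 19218486, 4396386), (5, 528, 528, 51733536, 54681936), (12, 528, 528, 102847536, 103945536), (40, 33, 258, 88154976, 23405376), (41, 258, 33, 19203126, 4330851), (6, 528, 528, 51794976, 70410576), (30, 33, 258, 90439971, 90439971), (31, 33, 258, 90443826, 90443826), (36, 33, 258, 90443811, 90439986), (40, 33, 258, 21308256, 21308256), (40, 33, 258, 21312096, 21312096), (29, 513, 513, 85206531, 40108881), (29, 513, 513, 85221891, 56885841), (29, 528, 528, 85221936, 56889936), (3, 258,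 33, 35013381, 67315281), (2, 513, 513, 67331346, 52838421), (40, 18, 18, 21308166, 4531041), (5, 528, 528, 85156896, 56770896), (9, 18, 18, 23404596, 88085346), (11, 33, 258, 23404596, 88085346), (5, 513, 513, 85156866, 56770641), (5, 528, 528, 85149216, 40059216), (9, 18, 18, 23396916, 88085091), (11, 33, 258, 23396916, 88085091), (5, 513, 513, 85149186, 40058961), (8, 528, 528, 51794976, 70410576), (30, 528, 528, 85221936, 56889936), (43, 528, 528, 87295506, 40128531), (8, 513, 513, 51794946, 70410321)]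
  [(2, -864), (3, -864), (5, 5184), (6, 864), (8, 864), (9, -864), (10, -432), (11, -864), (12, -864), (13, -432), (16, -864), (29, -864), (30, -1296), (31, -864), (36, 864), (40, -864), (41, 2592), (43, -432)] = true := by
  decide +kernel

theorem t26_1_1 : chkS lk26 3 5 [(1, m26_1)] l26_1
  [(20, 33, 258, 102827091, 101844291), (24, 528, 528, 34956336, 54662736), (24, 528, 528, 35017776, 70391376), (14, 18, 18, 86050356, 39851331), (12, 18, 18, 87098916, 39866691), (12, 18, 18, 55705956, 22045731), (23, 528, 528, 35017776, 70391376), (27, 528, 528, 34956336, 54662736), (21, 33, 258, 87098466, 23220291), (33, 33, 258, 88085091, 23396916), (33, 33, 258, 88146531, 23396931), (13, 33, 258, 69272931, 19268931), (11, 33, 258, 70260066, 19288116), (11, 18, 18, 54534501, 17130276), (28, 18, 18, 55579746, 22175796), (39, 18, 18,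 72418146, 22421571), (13, 18, 18, 69272886, 2495811), (11, 18, 18, 70321446, 2511171), (14, 33, 258, 86050371, 39912771), (12, 33, 258, 87037506, 39931956), (29, 18, 18, 56628546, 86073396), (41, 18, 18, 73467186, 86380611), (27, 18, 18, 55641126, 5398851), (41, 18, 18, 73405746, 86380596), (12, 33, 258, 55583046, 5333796), (23, 513, 513, 34956291, 54658641), (27, 513, 513, 35017731, 70387281), (27, 33, 258, 55579746, 22175796), (41, 33, 258, 73467171, 86376771), (41, 528, 528, 50734401, 69296901), (41, 513, 513, 50488596, 52454421), (44, 528, 528, 51782976, 69296976), (11, 33, 258, 54657366, 1401891), (28, 33, 258, 55641126, 5398851), (39, 33, 258, 72356646, 5644596), (29, 33, 258, 56689956, 86008131), (41, 33, 258, 73405731, 86376756), (41, 528, 528, 50488641, 52519941), (41, 513, 513, 50734356, 69231381), (44, 528, 528,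 51537216, 52520016), (25, 528, 528, 35017776, 70391376), (26, 528, 528, 34956336, 54662736), (26, 528, 528, 35017776, 70391376), (18, 18, 18, 38863716, 22029891), (19, 288, 288, 19288896, 70329696), (19, 528, 528, 34887216, 36968016), (22, 528, 528, 34956336, 54662736), (9, 33, 258, 39851331, 86050356), (35, 18, 18, 55641186, 22175811), (38, 18, 18, 55579746, 22175796), (38, 18, 18, 55641186, 22175811), (2, 528, 528, 19289091, 70387041), (39, 18, 18, 39850836, 84944436), (16, 528, 528, 33900081, 37950981), (28, 18, 18, 39912531, 85067331), (11, 33, 258, 39912756, 85988931), (2, 288, 288, 35017536, 70329936), (16, 288, 288, 2511171, 70321446), (34, 18, 18, 38863926, 5379651), (40, 18, 18, 39851316, 85988916), (16, 513, 513, 84035091, 40043541), (5, 513, 513, 102056706, 105062481), (19, 513, 513, 85206531, 40108881), (5, 513,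 513, 101995266, 104079441), (40, 258, 33, 102777141, 100865316), (42, 513, 513, 85091331, 56755281), (15, 33, 258, 56689956, 86008131), (15, 513, 513, 67265811, 52823061), (7, 513, 513, 102056706, 105062481), (5, 33, 258, 39851331, 86050356), (7, 33, 258, 39851316, 85988916), (4, 513, 513, 101995266, 104079441), (39, 513, 513, 100999956, 104866581), (28, 513, 513, 102048771, 104989521), (11, 513, 513, 103043331, 104072481), (16, 33, 258, 5448006, 5325606), (7, 513, 513, 101995266, 104079441), (5, 33, 258, 39912771, 86050371), (7, 33, 258, 39912756, 85988931), (4, 513, 513, 102056706, 105062481), (35, 33, 258, 55641126, 5398851), (38, 33, 258, 55579686, 5398836), (38, 33, 258, 55641126, 5398851), (2, 513, 513, 19289136, 70391136), (39, 33, 258, 39912261, 83961411), (16, 513, 513, 33838611, 36963861), (28, 33, 258, 39851061,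 84022836), (11, 18, 18, 39851331, 86050356), (25, 513, 513, 35017731, 70387281), (26, 513, 513, 34956291, 54658641), (26, 513, 513, 35017731, 70387281), (18, 33, 258, 38863686, 5318211), (19, 258, 33, 19227396, 54535521), (19, 513, 513, 34948611, 37946961), (22, 528, 528, 101864496, 103945296), (9, 18, 18, 39912756, 85988931), (34, 33, 258, 38863971, 22152771), (40, 33, 258, 39912771, 86050371), (2, 258, 33, 35017476, 70264401), (16, 258, 33, 2449716, 54531366), (19, 528, 528, 85083696, 40047696), (5, 528, 528, 102056736, 105062736), (16, 528, 528, 84158001, 40112901), (5, 528, 528, 101995296, 104079696), (39, 528, 528, 100815681, 103883781), (28, 528, 528, 101864496, 103945296), (11, 528, 528, 103104816, 105059616), (16, 18, 18, 5386596, 22033446), (7, 528, 528, 102056736, 105062736), (7, 18, 18, 39851331, 86050356), (5,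 18, 18, 39851316, 85988916), (4, 528, 528, 101995296, 104079696), (40, 288, 288, 103022931, 101975331), (42, 528, 528, 85337136, 73536336), (15, 18, 18, 56628546, 86073396), (15, 528, 528, 67511601, 69604101), (7, 528, 528, 101995296, 104079696), (7, 18, 18, 39912771, 86050371), (5, 18, 18, 39912756, 85988931), (4, 528, 528, 102056736, 105062736)]
  [(2, 1728), (4, 3456), (5, 3456), (7, 3456), (9, -864), (11, -3456), (12, -1728), (13, 864), (14, 864), (15, -1728), (16, -3456), (18, 864), (19, -2592), (20, 864), (21, 864), (22, -1728), (23, -1728), (24, 864), (25, 1728), (26, 1728), (27, -1728), (28, -5184), (29, -864), (33, 864), (34, 864), (35, 1728), (38, 1728), (39, -2592), (40, -1728), (41, 3456), (42, -1728), (44, 1728)] = true := by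
  decide +kernel

theorem t26_1_2 : chkS lk26 3 5 [(1, m26_1)] l26_2
  [(10, 528, 528, 19220016, 37950816), (9, 528, 528, 19162416, 52696416), (12, 528, 528, 19220016, 37950816), (3, 258, 33, 101986821, 100938321), (13, 33, 258, 56689956, 86008131), (11, 18, 18, 90308931, 90244131), (16, 528, 528, 20207106, 36982881), (2, 528, 528, 50746401, 70410501), (6, 513, 513, 51725826, 37970001), (31, 18, 18, 90244131, 90308931), (30, 18, 18, 90182706, 90312756), (36, 18, 18, 90244146, 90312771), (5, 513, 513, 51668226, 52715601), (40, 18, 18, 88285446, 6636321), (12, 513, 513, 103043331, 104072481), (41, 288, 288, 19137891, 19137891), (5, 513, 513, 51791106, 69427281), (16, 513, 513, 104153376, 105074976), (29, 513, 513, 68560131, 69600081), (41, 288, 288, 18892131, 19072356), (13, 18, 18, 56689986, 86073411), (11, 33, 258, 90186036,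 90182436), (16, 513, 513, 20268576, 37966176), (2, 513, 513, 50746386, 70410261), (10, 513, 513, 19219971, 37946721), (9, 513, 513, 19285251, 69404001), (12, 513, 513, 19158531, 36963681), (3, 288, 288, 101986896, 101986896), (6, 528, 528, 51725856, 37970256), (30, 33, 258, 90244131, 90308931), (31, 33, 258, 90182706, 90312756), (36, 33, 258, 90244131, 90308931), (5, 528, 528, 51668256, 52715856), (29, 528, 528, 68314416, 52827216), (16, 528, 528, 104091906, 104091681), (41, 258, 33, 19137846, 2364771), (5, 528, 528, 51791136, 69427536), (12, 528, 528, 103104816, 105059616), (40, 33, 258, 88224096, 23409696), (41, 258, 33, 18892086, 2299236), (2, 528, 528, 67523361, 70656261), (40, 33, 258, 21116256, 19215456), (29, 513, 513, 85337091, 73532241), (3, 288, 288, 34879056, 34879056), (3, 258, 33, 34878981, 33830481), (29, 528,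 528, 85091376, 56759376), (40, 18, 18, 21177606, 2442081), (2, 513, 513, 67523346, 70656021), (8, 528, 528, 51725856, 37970256), (30, 528, 528, 85091376, 56759376), (43, 528, 528, 87426066, 73551891), (8, 513, 513, 51725826, 37970001), (5, 528, 528, 85345056, 73605456), (9, 33, 258, 23201091, 86049891), (11, 18, 18, 23201091, 86049891), (5, 513, 513, 85345026, 73605201), (5, 528, 528, 85222176, 56893776), (9, 18, 18, 23078196, 85988196), (11, 33, 258, 23078196, 85988196), (5, 513, 513, 85222146, 56893521)]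
  [(2, 1728), (3, 1728), (5, 3456), (6, 1728), (8, 1728), (9, -1728), (10, 864), (11, -1728), (12, -1728), (13, 864), (16, -1728), (29, -1728), (30, -2592), (31, -1728), (36, 1728), (40, -1728), (41, 1728), (43, -864)] = true := by
  decide +kernel

theorem t26_2_2 : chkS lk26 3 5 [(1, m26_2)] l26_2
  [(0, 258, 33, 106111236, 105923361), (24, 258, 33, 105062661, 101008161), (24, 258, 33, 105000981, 101004306), (32, 528, 528, 35017776, 70391376), (14, 33, 258, 103875666, 101863491), (27, 18, 18, 104923731, 102040131), (19, 513, 513, 56893461, 84173586), (34, 18, 18, 104923986, 102047811), (14, 33, 258, 103875906, 102846531), (27, 18, 18, 104924451, 103088451), (19, 513, 513, 56893701, 84173601), (34, 18, 18, 104924466, 103092291), (19, 33, 258, 56627781, 83976756), (34, 258, 33, 105074946, 104153121), (14, 513, 513, 104091906,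 104091681), (27, 258, 33, 105009171, 104137746), (19, 33, 258, 56689221, 83976771), (19, 33, 258, 56689701, 84042051), (27, 258, 33, 105193731, 105186081), (27, 258, 33, 105193491, 105186066), (1, 33, 258, 70321746, 35016771), (26, 33, 258, 104862261, 100995636), (26, 33, 258, 104923941, 100999491), (17, 258, 33, 56967426, 88301601), (10, 528, 528, 102056496, 105058896), (9, 288, 288, 85079616, 39924816), (12, 513, 513, 23343621, 84161121), (3, 33, 258, 103035216, 101987616), (10, 528, 528, 102056736, 105062736), (9, 288, 288, 85079136, 23213136), (12, 513, 513, 23343141, 84160866), (3, 33, 258, 103036176, 103036176), (12, 528, 528, 101995296, 104079696), (3, 18, 18, 39912501, 84022851), (18, 513, 513, 56893701, 84173601), (37, 288, 288, 101929536, 103891536), (12, 528, 528, 102056736, 105062736), (12, 528, 528, 102056496,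 105058896), (37, 288, 288, 102052896, 105001296), (37, 288, 288, 102052416, 104936016), (17, 18, 18, 56689986, 86073411), (26, 513, 513, 105000981, 101004306), (26, 513, 513, 105062661, 101008161), (1, 513, 513, 70668546, 70668321), (3, 258, 33, 40120581, 84162081), (12, 288, 288, 101856336, 101856336), (37, 528, 528, 101983056, 101983056), (18, 33, 258, 56689701, 84042051), (3, 258, 33, 40120341, 84162066), (12, 288, 288, 101856576, 102839376), (37, 528, 528, 101983536, 103027536), (18, 33, 258, 56689221, 83976771), (9, 528, 528, 85345056, 73605456), (10, 288, 288, 101856576, 102839376), (3, 513, 513, 102847536, 103945536), (12, 33, 258, 23200581, 83960931), (9, 528, 528, 85222176, 56893776), (9, 528, 528, 85221936, 56889936), (12, 33, 258, 23077941, 84022116), (12, 33, 258, 23077701, 83960676)]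
  [(0, 432), (1, 864), (3, 1728), (9, -864), (10, 864), (12, -1728), (14, 864), (17, 864), (18, 864), (19, -864), (24, -864), (26, -1728), (27, -864), (32, 432), (34, 864), (37, -864)] = true := by
  decide +kernel

section

variable {κ ι : Type*} [Fintype κ] [Fintype ι] [Inhabited κ] [Inhabited ι]

noncomputable def F26_0 (E : Env κ ι) : (Fin 3 → κ) → (Fin 5 → ι) → ℝ := op2 (P1 κ) (P6 ι) (fB E 3 5 m26_0)

noncomputable def F26_1 (E : Env κ ι) : (Fin 3 → κ) → (Fin 5 → ι) → ℝ := op2 (P1 κ) (P6 ι) (fB E 3 5 m26_1)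

noncomputable def F26_2 (E : Env κ ι) : (Fin 3 → κ) → (Fin 5 → ι) → ℝ := op2 (P1 κ) (P6 ι) (fB E 3 5 m26_2)

def r26_0_0 : List (ℕ × ℤ) := [(2, -1296), (4, -864), (5, 864), (7, 864), (9, -216), (11, -2592), (12, -2160), (13, -648), (14, -648), (15, 1296), (16, 864), (18, -648), (19, -648), (20, 648), (21, 648), (22, -432), (23, -432), (24, 1080), (25, 1296), (26, 2160), (27, 1296), (28, -1296), (29, 1512), (33, 1080), (34, -648), (35, 1296), (38, 2160), (39, -2376), (40, -2160), (41, 864), (42, -432), (44, -432)]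

theorem h26_0_0 (E : Env κ ι) : ip (F26_0 E) (F26_0 E) = dotS (ek E lk26) r26_0_0 :=
  op_entryZ E lk26 3 5 _ _ _ _ (pg1 κ) (pg6 ι) m26_0 m26_0 l26_0 z26_0 w26_0 x26_0 (by decide) _ (chkS_sound E lk26 3 5 _ _ _ _ t26_0_0)

def r26_0_1 : List (ℕ × ℤ) := [(2, -864), (4, 1728), (5, 1728), (7, 1728), (9, -1296), (11, -3456), (12, -864), (13, -432), (14, -432), (15, -864), (18, -432), (19, -432), (20, 432), (21, 432), (22, -864), (23, -864), (24, 1296), (25, 864), (26, 2592), (27, -864), (28, -2592), (29, 432), (33, 1296), (34, -432), (35, 864), (38, 2592), (39, -2160), (40, -864), (41, 1728), (42, -864), (44, 864)]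

theorem h26_0_1 (E : Env κ ι) : ip (F26_0 E) (F26_1 E) = dotS (ek E lk26) r26_0_1 :=
  op_entryZ E lk26 3 5 _ _ _ _ (pg1 κ) (pg6 ι) m26_0 m26_1 l26_1 z26_1 w26_1 x26_1 (by decide) _ (chkS_sound E lk26 3 5 _ _ _ _ t26_0_1)

def r26_0_2 : List (ℕ × ℤ) := [(2, -864), (3, -864), (5, 5184), (6, 864), (8, 864), (9, -864), (10, -432), (11, -864), (12, -864), (13, -432), (16, -864), (29, -864), (30, -1296), (31, -864), (36, 864), (40, -864), (41, 2592), (43, -432)]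

theorem h26_0_2 (E : Env κ ι) : ip (F26_0 E) (F26_2 E) = dotS (ek E lk26) r26_0_2 :=
  op_entryZ E lk26 3 5 _ _ _ _ (pg1 κ) (pg6 ι) m26_0 m26_2 l26_2 z26_2 w26_2 x26_2 (by decide) _ (chkS_sound E lk26 3 5 _ _ _ _ t26_0_2)

def r26_1_1 : List (ℕ × ℤ) := [(2, 1728), (4, 3456), (5, 3456), (7, 3456), (9, -864), (11, -3456), (12, -1728), (13, 864), (14, 864), (15, -1728), (16, -3456), (18, 864), (19, -2592), (20, 864), (21, 864), (22, -1728), (23, -1728), (24, 864), (25, 1728), (26, 1728), (27, -1728), (28, -5184), (29, -864), (33, 864), (34, 864), (35, 1728), (38, 1728), (39, -2592), (40, -1728), (41, 3456), (42, -1728), (44, 1728)]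

theorem h26_1_1 (E : Env κ ι) : ip (F26_1 E) (F26_1 E) = dotS (ek E lk26) r26_1_1 :=
  op_entryZ E lk26 3 5 _ _ _ _ (pg1 κ) (pg6 ι) m26_1 m26_1 l26_1 z26_1 w26_1 x26_1 (by decide) _ (chkS_sound E lk26 3 5 _ _ _ _ t26_1_1)

def r26_1_2 : List (ℕ × ℤ) := [(2, 1728), (3, 1728), (5, 3456), (6, 1728), (8, 1728), (9, -1728), (10, 864), (11, -1728), (12, -1728), (13, 864), (16, -1728), (29, -1728), (30, -2592), (31, -1728), (36, 1728), (40, -1728), (41, 1728), (43, -864)]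

theorem h26_1_2 (E : Env κ ι) : ip (F26_1 E) (F26_2 E) = dotS (ek E lk26) r26_1_2 :=
  op_entryZ E lk26 3 5 _ _ _ _ (pg1 κ) (pg6 ι) m26_1 m26_2 l26_2 z26_2 w26_2 x26_2 (by decide) _ (chkS_sound E lk26 3 5 _ _ _ _ t26_1_2)

def r26_2_2 : List (ℕ × ℤ) := [(0, 432), (1, 864), (3, 1728), (9, -864), (10, 864), (12, -1728), (14, 864), (17, 864), (18, 864), (19, -864), (24, -864), (26, -1728), (27, -864), (32, 432), (34, 864), (37, -864)]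

theorem h26_2_2 (E : Env κ ι) : ip (F26_2 E) (F26_2 E) = dotS (ek E lk26) r26_2_2 :=
  op_entryZ E lk26 3 5 _ _ _ _ (pg1 κ) (pg6 ι) m26_2 m26_2 l26_2 z26_2 w26_2 x26_2 (by decide) _ (chkS_sound E lk26 3 5 _ _ _ _ t26_2_2)

theorem row26_0 (E : Env κ ι) : RowG (ek E lk26) (F26_0 E) [F26_0 E, F26_1 E, F26_2 E] [r26_0_0, r26_0_1, r26_0_2] :=
  rowG_cons _ _ _ _ _ _ (h26_0_0 E) (rowG_cons _ _ _ _ _ _ (h26_0_1 E) (rowG_cons _ _ _ _ _ _ (h26_0_2 E) (rowG_nil _ _)))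

theorem row26_1 (E : Env κ ι) : RowG (ek E lk26) (F26_1 E) [F26_1 E, F26_2 E] [r26_1_1, r26_1_2] :=
  rowG_cons _ _ _ _ _ _ (h26_1_1 E) (rowG_cons _ _ _ _ _ _ (h26_1_2 E) (rowG_nil _ _))

theorem row26_2 (E : Env κ ι) : RowG (ek E lk26) (F26_2 E) [F26_2 E] [r26_2_2] :=
  rowG_cons _ _ _ _ _ _ (h26_2_2 E) (rowG_nil _ _)

def tab26 : List (List (List (ℕ × ℤ))) := [[r26_0_0, r26_0_1, r26_0_2], [r26_1_1, r26_1_2], [r26_2_2]]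

theorem tri26 (E : Env κ ι) : TriG (ek E lk26) [F26_0 E, F26_1 E, F26_2 E] tab26 := by
  refine triG_cons _ _ _ _ _ (row26_0 E) ?_
  refine triG_cons _ _ _ _ _ (row26_1 E) ?_
  refine triG_cons _ _ _ _ _ (row26_2 E) ?_
  exact triG_nil _

end

end YMBG
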