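import Pool.Agent.YM.BG.Ga0

set_option linter.unusedVariables false
set_option maxRecDepth 100000

open YMEng

namespace YMBG

def lk27 : List Key := [
  (3, 7, [(0, [0], [0, 1]), (0, [0], [0, 1]), (0, [1], [2, 3]), (0, [1], [2, 3]), (0, [2], [4, 5]), (0, [2], [4, 6]), (4, [], [6]), (4, [], [5])]),
  (3, 7, [(0, [0], [0, 1]), (0, [0], [0, 1]), (0, [1], [2, 3]), (0, [2], [2, 4]), (0, [2], [5, 6]), (0, [1], [5, 6]), (4, [], [4]), (4, [], [3])]),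
  (3, 7, [(0, [0], [0, 1]), (0, [1], [0, 2]), (0, [0], [2, 3]), (0, [2], [1, 4]), (0, [1], [5, 6]), (0, [2], [5, 6]), (4, [], [3]), (4, [], [4])]),
  (3, 7, [(0, [0], [0, 1]), (0, [1], [0, 2]), (0, [0], [3, 4]), (0, [1], [3, 4]), (0, [2], [1, 5]), (0, [2], [5, 6]), (4, [], [2]), (4, [], [6])]),
  (3, 7, [(0, [0], [0, 1]), (0, [0], [0, 2]), (0, [1], [1, 2]), (4, [], [3]), (0, [2], [4, 5]), (0, [2], [4, 6]), (0, [1], [5, 6]), (4, [], [3])]),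
  (3, 7, [(0, [0], [0, 1]), (0, [0], [0, 2]), (0, [1], [1, 2]), (4, [], [3]), (0, [2], [4, 5]), (0, [2], [4, 6]), (0, [1], [3, 6]), (4, [], [5])]),
  (3, 7, [(0, [0], [0, 1]), (0, [0], [0, 2]), (0, [1], [1, 2]), (4, [], [3]), (0, [2], [4, 5]), (0, [2], [4, 5]), (0, [1], [3, 6]), (4, [], [6])]),
  (3, 7, [(0, [0], [0, 1]), (0, [0], [0, 2]), (0, [1], [1, 2]), (4, [], [3]), (0, [2], [4, 5]), (0, [2], [3, 6]), (0, [1], [4, 6]), (4, [], [5])]),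
  (3, 7, [(0, [0], [0, 1]), (0, [0], [0, 2]), (0, [1], [1, 2]), (4, [], [3]), (0, [2], [4, 5]), (0, [2], [3, 6]), (0, [1], [4, 5]), (4, [], [6])]),
  (3, 7, [(0, [0], [0, 1]), (0, [0], [0, 2]), (0, [1], [3, 2]), (4, [], [1]), (0, [2], [4, 5]), (0, [2], [4, 6]), (0, [1], [3, 6]), (4, [], [5])]),
  (3, 7, [(0, [0], [0, 1]), (0, [0], [0, 2]), (0, [1], [3, 2]), (4, [], [1]), (0, [2], [4, 5]), (0, [2], [4, 5]), (0, [1], [3, 6]), (4, [], [6])]),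
  (3, 7, [(0, [0], [0, 1]), (0, [0], [0, 2]), (0, [1], [3, 2]), (4, [], [1]), (0, [2], [4, 5]), (0, [2], [3, 6]), (0, [1], [4, 6]), (4, [], [5])]),
  (3, 7, [(0, [0], [0, 1]), (0, [0], [0, 2]), (0, [1], [3, 2]), (4, [], [1]), (0, [2], [4, 5]), (0, [2], [3, 4]), (0, [1], [5, 6]), (4, [], [6])]),
  (3, 7, [(0, [0], [0, 1]), (0, [0], [0, 1]), (0, [1], [2, 3]), (4, [], [3]), (0, [2], [4, 5]), (0, [2], [2, 6]), (0, [1], [4, 6]), (4, [], [5])]),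
  (3, 7, [(0, [0], [0, 1]), (0, [0], [0, 1]), (0, [1], [2, 3]), (4, [], [3]), (0, [2], [4, 5]), (0, [2], [2, 4]), (0, [1], [5, 6]), (4, [], [6])]),
  (3, 7, [(0, [0], [0, 1]), (0, [0], [2, 3]), (0, [1], [0, 3]), (4, [], [1]), (0, [2], [4, 5]), (0, [2], [2, 6]), (0, [1], [4, 6]), (4, [], [5])]),
  (3, 7, [(0, [0], [0, 1]), (0, [0], [2, 3]), (0, [1], [0, 3]), (4, [], [1]), (0, [2], [4, 5]), (0, [2], [2, 4]), (0, [1], [5, 6]), (4, [], [6])]),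
  (3, 7, [(0, [0], [0, 1]), (0, [0], [2, 3]), (0, [1], [0, 1]), (4, [], [3]), (0, [2], [4, 5]), (0, [2], [2, 6]), (0, [1], [4, 5]), (4, [], [6])]),
  (3, 7, [(0, [0], [0, 1]), (0, [0], [2, 3]), (0, [1], [0, 1]), (4, [], [3]), (0, [2], [4, 5]), (0, [2], [2, 4]), (0, [1], [5, 6]), (4, [], [6])]),
  (3, 7, [(0, [0], [0, 1]), (0, [0], [2, 0]), (0, [1], [1, 3]), (4, [], [3]), (0, [2], [4, 5]), (0, [2], [2, 4]), (0, [1], [5, 6]), (4, [], [6])]),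
  (3, 7, [(0, [0], [0, 1]), (0, [0], [0, 1]), (0, [1], [2, 3]), (4, [], [4]), (0, [2], [5, 6]), (0, [2], [2, 5]), (0, [1], [3, 6]), (4, [], [4])]),
  (3, 7, [(0, [0], [0, 1]), (0, [0], [0, 1]), (0, [1], [2, 3]), (4, [], [4]), (0, [2], [2, 5]), (0, [2], [3, 6]), (0, [1], [5, 6]), (4, [], [4])]),
  (3, 7, [(0, [0], [0, 1]), (0, [0], [2, 0]), (0, [1], [3, 1]), (4, [], [4]), (0, [2], [5, 6]), (0, [2], [2, 5]), (0, [1], [3, 6]), (4, [], [4])]),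
  (3, 7, [(0, [0], [0, 1]), (0, [0], [2, 0]), (0, [1], [3, 1]), (4, [], [4]), (0, [2], [5, 6]), (0, [2], [3, 5]), (0, [1], [2, 6]), (4, [], [4])]),
  (3, 7, [(0, [0], [0, 1]), (0, [0], [2, 0]), (0, [1], [3, 1]), (4, [], [4]), (0, [2], [5, 6]), (0, [2], [4, 5]), (0, [1], [2, 3]), (4, [], [6])]),
  (3, 7, [(0, [0], [0, 1]), (0, [0], [2, 0]), (0, [1], [3, 1]), (4, [], [4]), (0, [2], [5, 6]), (0, [2], [2, 3]), (0, [1], [5, 6]), (4, [], [4])]),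
  (3, 7, [(0, [0], [0, 1]), (0, [0], [2, 0]), (0, [1], [3, 1]), (4, [], [4]), (0, [2], [5, 6]), (0, [2], [2, 3]), (0, [1], [4, 5]), (4, [], [6])]),
  (3, 7, [(0, [0], [0, 1]), (0, [0], [2, 0]), (0, [1], [3, 1]), (4, [], [4]), (0, [2], [5, 6]), (0, [2], [3, 4]), (0, [1], [2, 5]), (4, [], [6])]),
  (3, 7, [(0, [0], [0, 1]), (0, [0], [2, 0]), (0, [1], [3, 1]), (4, [], [4]), (0, [2], [2, 5]), (0, [2], [3, 6]), (0, [1], [5, 6]), (4, [], [4])]),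
  (3, 7, [(0, [0], [0, 1]), (0, [0], [2, 0]), (0, [1], [3, 1]), (4, [], [4]), (0, [2], [3, 5]), (0, [2], [2, 6]), (0, [1], [4, 6]), (4, [], [5])]),
  (3, 7, [(0, [0], [0, 1]), (0, [0], [2, 0]), (0, [1], [3, 1]), (4, [], [4]), (0, [2], [4, 5]), (0, [2], [2, 6]), (0, [1], [3, 6]), (4, [], [5])]),
  (3, 7, [(0, [0], [0, 1]), (0, [0], [2, 0]), (0, [1], [3, 1]), (4, [], [4]), (0, [2], [4, 5]), (0, [2], [3, 6]), (0, [1], [2, 6]), (4, [], [5])]),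
  (3, 7, [(0, [0], [0, 1]), (0, [0], [2, 0]), (0, [1], [3, 4]), (4, [], [1]), (0, [2], [5, 6]), (0, [2], [3, 4]), (0, [1], [5, 6]), (4, [], [2])]),
  (3, 7, [(0, [0], [0, 1]), (0, [0], [2, 0]), (0, [1], [3, 4]), (4, [], [1]), (0, [2], [3, 5]), (0, [2], [4, 6]), (0, [1], [5, 6]), (4, [], [2])]),
  (3, 7, [(0, [0], [0, 1]), (0, [0], [2, 3]), (0, [1], [0, 1]), (4, [], [4]), (0, [2], [5, 6]), (0, [2], [2, 4]), (0, [1], [3, 5]), (4, [], [6])]),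
  (3, 7, [(0, [0], [0, 1]), (0, [0], [2, 3]), (0, [1], [0, 1]), (4, [], [4]), (0, [2], [2, 5]), (0, [2], [3, 6]), (0, [1], [5, 6]), (4, [], [4])]),
  (3, 7, [(0, [0], [0, 1]), (0, [0], [2, 3]), (0, [1], [0, 1]), (4, [], [4]), (0, [2], [4, 5]), (0, [2], [2, 6]), (0, [1], [3, 6]), (4, [], [5])]),
  (3, 7, [(0, [0], [0, 1]), (0, [0], [2, 3]), (0, [1], [4, 0]), (4, [], [1]), (0, [2], [5, 6]), (0, [2], [2, 4]), (0, [1], [3, 5]), (4, [], [6])]),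
  (3, 7, [(0, [0], [0, 1]), (0, [0], [2, 3]), (0, [1], [4, 0]), (4, [], [1]), (0, [2], [2, 5]), (0, [2], [3, 6]), (0, [1], [5, 6]), (4, [], [4])]),
  (3, 7, [(0, [0], [0, 1]), (0, [0], [2, 3]), (0, [1], [4, 0]), (4, [], [1]), (0, [2], [2, 5]), (0, [2], [4, 6]), (0, [1], [5, 6]), (4, [], [3])]),
  (3, 7, [(0, [0], [0, 1]), (0, [0], [2, 3]), (0, [1], [4, 0]), (4, [], [1]), (0, [2], [2, 5]), (0, [2], [4, 6]), (0, [1], [3, 6]), (4, [], [5])]),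
  (3, 7, [(0, [0], [0, 1]), (0, [0], [2, 3]), (0, [1], [4, 0]), (4, [], [1]), (0, [2], [4, 5]), (0, [2], [2, 6]), (0, [1], [3, 6]), (4, [], [5])]),
  (3, 7, [(0, [0], [0, 1]), (0, [0], [2, 3]), (0, [1], [1, 3]), (4, [], [4]), (0, [2], [0, 5]), (0, [2], [2, 6]), (0, [1], [5, 6]), (4, [], [4])]),
  (3, 7, [(0, [0], [0, 1]), (0, [0], [2, 3]), (0, [1], [1, 3]), (4, [], [4]), (0, [2], [4, 5]), (0, [2], [0, 6]), (0, [1], [2, 6]), (4, [], [5])]),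
  (3, 7, [(0, [0], [0, 1]), (0, [0], [2, 3]), (0, [1], [4, 1]), (4, [], [5]), (0, [2], [2, 6]), (0, [2], [0, 4]), (0, [1], [3, 6]), (4, [], [5])])]

def kl27 : List ℕ := [13, 14, 57, 58, 94, 95, 96, 97, 98, 109, 110, 111, 112, 119, 120, 125, 126, 132, 133, 144, 204, 206, 216, 217, 218, 219, 220, 221, 222, 223, 224, 225, 252, 253, 267, 268, 269, 284, 285, 286, 287, 288, 302, 303, 430]

def m27_0 : Base := (0, 1, [(0, [0], [0, 5]), (0, [1], [1, 5]), (0, [2], [2, 3]), (4, [], [4])])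

def l27_0 : Cov := [(360, 0, 1, [(0, [0], [0, 5]), (0, [1], [1, 5]), (0, [2], [2, 3]), (4, [], [4])]),
  (288, 0, 1, [(0, [0], [0, 5]), (0, [1], [1, 5]), (0, [2], [2, 4]), (4, [], [3])]),
  (216, 0, 1, [(0, [0], [0, 5]), (0, [1], [1, 5]), (0, [2], [3, 4]), (4, [], [2])]),
  (144, 0, 1, [(0, [0], [0, 5]), (0, [1], [2, 5]), (0, [2], [1, 3]), (4, [], [4])]),
  (-144, 0, 1, [(0, [0], [0, 5]), (0, [1], [2, 5]), (0, [2], [3, 4]), (4, [], [1])]),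
  (72, 0, 1, [(0, [0], [0, 5]), (0, [1], [3, 5]), (0, [2], [1, 2]), (4, [], [4])]),
  (-72, 0, 1, [(0, [0], [0, 5]), (0, [1], [3, 5]), (0, [2], [2, 4]), (4, [], [1])]),
  (-288, 0, 1, [(0, [0], [0, 5]), (0, [1], [4, 5]), (0, [2], [1, 2]), (4, [], [3])]),
  (-216, 0, 1, [(0, [0], [0, 5]), (0, [1], [4, 5]), (0, [2], [1, 3]), (4, [], [2])]),
  (-360, 0, 1, [(0, [0], [0, 5]), (0, [1], [4, 5]), (0, [2], [2, 3]), (4, [], [1])]),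
  (288, 0, 1, [(0, [0], [1, 5]), (0, [1], [0, 5]), (0, [2], [2, 3]), (4, [], [4])]),
  (360, 0, 1, [(0, [0], [1, 5]), (0, [1], [0, 5]), (0, [2], [2, 4]), (4, [], [3])]),
  (216, 0, 1, [(0, [0], [1, 5]), (0, [1], [0, 5]), (0, [2], [3, 4]), (4, [], [2])]),
  (144, 0, 1, [(0, [0], [1, 5]), (0, [1], [2, 5]), (0, [2], [0, 4]), (4, [], [3])]),
  (-144, 0, 1, [(0, [0], [1, 5]), (0, [1], [2, 5]), (0, [2], [3, 4]), (4, [], [0])]),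
  (-288, 0, 1, [(0, [0], [1, 5]), (0, [1], [3, 5]), (0, [2], [0, 2]), (4, [], [4])]),
  (-216, 0, 1, [(0, [0], [1, 5]), (0, [1], [3, 5]), (0, [2], [0, 4]), (4, [], [2])]),
  (-360, 0, 1, [(0, [0], [1, 5]), (0, [1], [3, 5]), (0, [2], [2, 4]), (4, [], [0])]),
  (72, 0, 1, [(0, [0], [1, 5]), (0, [1], [4, 5]), (0, [2], [0, 2]), (4, [], [3])]),
  (-72, 0, 1, [(0, [0], [1, 5]), (0, [1], [4, 5]), (0, [2], [2, 3]), (4, [], [0])]),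
  (72, 0, 1, [(0, [0], [2, 5]), (0, [1], [0, 5]), (0, [2], [1, 3]), (4, [], [4])]),
  (-72, 0, 1, [(0, [0], [2, 5]), (0, [1], [0, 5]), (0, [2], [3, 4]), (4, [], [1])]),
  (72, 0, 1, [(0, [0], [2, 5]), (0, [1], [1, 5]), (0, [2], [0, 4]), (4, [], [3])]),
  (-72, 0, 1, [(0, [0], [2, 5]), (0, [1], [1, 5]), (0, [2], [3, 4]), (4, [], [0])]),
  (-72, 0, 1, [(0, [0], [2, 5]), (0, [1], [3, 5]), (0, [2], [0, 1]), (4, [], [4])]),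
  (72, 0, 1, [(0, [0], [2, 5]), (0, [1], [3, 5]), (0, [2], [0, 4]), (4, [], [1])]),
  (-72, 0, 1, [(0, [0], [2, 5]), (0, [1], [4, 5]), (0, [2], [0, 1]), (4, [], [3])]),
  (72, 0, 1, [(0, [0], [2, 5]), (0, [1], [4, 5]), (0, [2], [1, 3]), (4, [], [0])]),
  (-72, 0, 1, [(0, [0], [3, 5]), (0, [1], [0, 5]), (0, [2], [1, 2]), (4, [], [4])]),
  (72, 0, 1, [(0, [0], [3, 5]), (0, [1], [0, 5]), (0, [2], [2, 4]), (4, [], [1])]),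
  (-360, 0, 1, [(0, [0], [3, 5]), (0, [1], [1, 5]), (0, [2], [0, 2]), (4, [], [4])]),
  (-216, 0, 1, [(0, [0], [3, 5]), (0, [1], [1, 5]), (0, [2], [0, 4]), (4, [], [2])]),
  (-288, 0, 1, [(0, [0], [3, 5]), (0, [1], [1, 5]), (0, [2], [2, 4]), (4, [], [0])]),
  (-144, 0, 1, [(0, [0], [3, 5]), (0, [1], [2, 5]), (0, [2], [0, 1]), (4, [], [4])]),
  (144, 0, 1, [(0, [0], [3, 5]), (0, [1], [2, 5]), (0, [2], [0, 4]), (4, [], [1])]),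
  (216, 0, 1, [(0, [0], [3, 5]), (0, [1], [4, 5]), (0, [2], [0, 1]), (4, [], [2])]),
  (360, 0, 1, [(0, [0], [3, 5]), (0, [1], [4, 5]), (0, [2], [0, 2]), (4, [], [1])]),
  (288, 0, 1, [(0, [0], [3, 5]), (0, [1], [4, 5]), (0, [2], [1, 2]), (4, [], [0])]),
  (-360, 0, 1, [(0, [0], [4, 5]), (0, [1], [0, 5]), (0, [2], [1, 2]), (4, [], [3])]),
  (-216, 0, 1, [(0, [0], [4, 5]), (0, [1], [0, 5]), (0, [2], [1, 3]), (4, [], [2])]),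
  (-288, 0, 1, [(0, [0], [4, 5]), (0, [1], [0, 5]), (0, [2], [2, 3]), (4, [], [1])]),
  (-72, 0, 1, [(0, [0], [4, 5]), (0, [1], [1, 5]), (0, [2], [0, 2]), (4, [], [3])]),
  (72, 0, 1, [(0, [0], [4, 5]), (0, [1], [1, 5]), (0, [2], [2, 3]), (4, [], [0])]),
  (-144, 0, 1, [(0, [0], [4, 5]), (0, [1], [2, 5]), (0, [2], [0, 1]), (4, [], [3])]),
  (144, 0, 1, [(0, [0], [4, 5]), (0, [1], [2, 5]), (0, [2], [1, 3]), (4, [], [0])]),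
  (216, 0, 1, [(0, [0], [4, 5]), (0, [1], [3, 5]), (0, [2], [0, 1]), (4, [], [2])]),
  (288, 0, 1, [(0, [0], [4, 5]), (0, [1], [3, 5]), (0, [2], [0, 2]), (4, [], [1])]),
  (360, 0, 1, [(0, [0], [4, 5]), (0, [1], [3, 5]), (0, [2], [1, 2]), (4, [], [0])]),
  (72, 0, 1, [(0, [0], [0, 5]), (0, [2], [1, 5]), (0, [1], [2, 3]), (4, [], [4])]),
  (-72, 0, 1, [(0, [0], [0, 5]), (0, [2], [1, 5]), (0, [1], [2, 4]), (4, [], [3])]),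
  (72, 0, 1, [(0, [0], [0, 5]), (0, [2], [2, 5]), (0, [1], [1, 3]), (4, [], [4])]),
  (-72, 0, 1, [(0, [0], [0, 5]), (0, [2], [2, 5]), (0, [1], [3, 4]), (4, [], [1])]),
  (144, 0, 1, [(0, [0], [0, 5]), (0, [2], [3, 5]), (0, [1], [1, 2]), (4, [], [4])]),
  (-144, 0, 1, [(0, [0], [0, 5]), (0, [2], [3, 5]), (0, [1], [2, 4]), (4, [], [1])]),
  (72, 0, 1, [(0, [0], [0, 5]), (0, [2], [4, 5]), (0, [1], [1, 2]), (4, [], [3])]),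
  (-72, 0, 1, [(0, [0], [0, 5]), (0, [2], [4, 5]), (0, [1], [2, 3]), (4, [], [1])]),
  (-72, 0, 1, [(0, [0], [1, 5]), (0, [2], [0, 5]), (0, [1], [2, 3]), (4, [], [4])]),
  (72, 0, 1, [(0, [0], [1, 5]), (0, [2], [0, 5]), (0, [1], [2, 4]), (4, [], [3])]),
  (72, 0, 1, [(0, [0], [1, 5]), (0, [2], [2, 5]), (0, [1], [0, 4]), (4, [], [3])]),
  (-72, 0, 1, [(0, [0], [1, 5]), (0, [2], [2, 5]), (0, [1], [3, 4]), (4, [], [0])]),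
  (72, 0, 1, [(0, [0], [1, 5]), (0, [2], [3, 5]), (0, [1], [0, 2]), (4, [], [4])]),
  (-72, 0, 1, [(0, [0], [1, 5]), (0, [2], [3, 5]), (0, [1], [2, 4]), (4, [], [0])]),
  (144, 0, 1, [(0, [0], [1, 5]), (0, [2], [4, 5]), (0, [1], [0, 2]), (4, [], [3])]),
  (-144, 0, 1, [(0, [0], [1, 5]), (0, [2], [4, 5]), (0, [1], [2, 3]), (4, [], [0])]),
  (-72, 0, 1, [(0, [0], [2, 5]), (0, [2], [0, 5]), (0, [1], [1, 3]), (4, [], [4])]),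
  (72, 0, 1, [(0, [0], [2, 5]), (0, [2], [0, 5]), (0, [1], [3, 4]), (4, [], [1])]),
  (-72, 0, 1, [(0, [0], [2, 5]), (0, [2], [1, 5]), (0, [1], [0, 4]), (4, [], [3])]),
  (72, 0, 1, [(0, [0], [2, 5]), (0, [2], [1, 5]), (0, [1], [3, 4]), (4, [], [0])]),
  (72, 0, 1, [(0, [0], [2, 5]), (0, [2], [3, 5]), (0, [1], [0, 1]), (4, [], [4])]),
  (-72, 0, 1, [(0, [0], [2, 5]), (0, [2], [3, 5]), (0, [1], [0, 4]), (4, [], [1])]),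
  (72, 0, 1, [(0, [0], [2, 5]), (0, [2], [4, 5]), (0, [1], [0, 1]), (4, [], [3])]),
  (-72, 0, 1, [(0, [0], [2, 5]), (0, [2], [4, 5]), (0, [1], [1, 3]), (4, [], [0])]),
  (-144, 0, 1, [(0, [0], [3, 5]), (0, [2], [0, 5]), (0, [1], [1, 2]), (4, [], [4])]),
  (144, 0, 1, [(0, [0], [3, 5]), (0, [2], [0, 5]), (0, [1], [2, 4]), (4, [], [1])]),
  (-72, 0, 1, [(0, [0], [3, 5]), (0, [2], [1, 5]), (0, [1], [0, 2]), (4, [], [4])]),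
  (72, 0, 1, [(0, [0], [3, 5]), (0, [2], [1, 5]), (0, [1], [2, 4]), (4, [], [0])]),
  (-72, 0, 1, [(0, [0], [3, 5]), (0, [2], [2, 5]), (0, [1], [0, 1]), (4, [], [4])]),
  (72, 0, 1, [(0, [0], [3, 5]), (0, [2], [2, 5]), (0, [1], [0, 4]), (4, [], [1])]),
  (72, 0, 1, [(0, [0], [3, 5]), (0, [2], [4, 5]), (0, [1], [0, 2]), (4, [], [1])]),
  (-72, 0, 1, [(0, [0], [3, 5]), (0, [2], [4, 5]), (0, [1], [1, 2]), (4, [], [0])]),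
  (-72, 0, 1, [(0, [0], [4, 5]), (0, [2], [0, 5]), (0, [1], [1, 2]), (4, [], [3])]),
  (72, 0, 1, [(0, [0], [4, 5]), (0, [2], [0, 5]), (0, [1], [2, 3]), (4, [], [1])]),
  (-144, 0, 1, [(0, [0], [4, 5]), (0, [2], [1, 5]), (0, [1], [0, 2]), (4, [], [3])]),
  (144, 0, 1, [(0, [0], [4, 5]), (0, [2], [1, 5]), (0, [1], [2, 3]), (4, [], [0])]),
  (-72, 0, 1, [(0, [0], [4, 5]), (0, [2], [2, 5]), (0, [1], [0, 1]), (4, [], [3])]),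
  (72, 0, 1, [(0, [0], [4, 5]), (0, [2], [2, 5]), (0, [1], [1, 3]), (4, [], [0])]),
  (-72, 0, 1, [(0, [0], [4, 5]), (0, [2], [3, 5]), (0, [1], [0, 2]), (4, [], [1])]),
  (72, 0, 1, [(0, [0], [4, 5]), (0, [2], [3, 5]), (0, [1], [1, 2]), (4, [], [0])]),
  (-288, 0, 1, [(0, [1], [0, 5]), (0, [2], [1, 5]), (0, [0], [2, 3]), (4, [], [4])]),
  (-360, 0, 1, [(0, [1], [0, 5]), (0, [2], [1, 5]), (0, [0], [2, 4]), (4, [], [3])]),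
  (-216, 0, 1, [(0, [1], [0, 5]), (0, [2], [1, 5]), (0, [0], [3, 4]), (4, [], [2])]),
  (-72, 0, 1, [(0, [1], [0, 5]), (0, [2], [2, 5]), (0, [0], [1, 3]), (4, [], [4])]),
  (72, 0, 1, [(0, [1], [0, 5]), (0, [2], [2, 5]), (0, [0], [3, 4]), (4, [], [1])]),
  (72, 0, 1, [(0, [1], [0, 5]), (0, [2], [3, 5]), (0, [0], [1, 2]), (4, [], [4])]),
  (-72, 0, 1, [(0, [1], [0, 5]), (0, [2], [3, 5]), (0, [0], [2, 4]), (4, [], [1])]),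
  (360, 0, 1, [(0, [1], [0, 5]), (0, [2], [4, 5]), (0, [0], [1, 2]), (4, [], [3])]),
  (216, 0, 1, [(0, [1], [0, 5]), (0, [2], [4, 5]), (0, [0], [1, 3]), (4, [], [2])]),
  (288, 0, 1, [(0, [1], [0, 5]), (0, [2], [4, 5]), (0, [0], [2, 3]), (4, [], [1])]),
  (-360, 0, 1, [(0, [1], [1, 5]), (0, [2], [0, 5]), (0, [0], [2, 3]), (4, [], [4])]),
  (-288, 0, 1, [(0, [1], [1, 5]), (0, [2], [0, 5]), (0, [0], [2, 4]), (4, [], [3])]),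
  (-216, 0, 1, [(0, [1], [1, 5]), (0, [2], [0, 5]), (0, [0], [3, 4]), (4, [], [2])]),
  (-72, 0, 1, [(0, [1], [1, 5]), (0, [2], [2, 5]), (0, [0], [0, 4]), (4, [], [3])]),
  (72, 0, 1, [(0, [1], [1, 5]), (0, [2], [2, 5]), (0, [0], [3, 4]), (4, [], [0])]),
  (360, 0, 1, [(0, [1], [1, 5]), (0, [2], [3, 5]), (0, [0], [0, 2]), (4, [], [4])]),
  (216, 0, 1, [(0, [1], [1, 5]), (0, [2], [3, 5]), (0, [0], [0, 4]), (4, [], [2])]),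
  (288, 0, 1, [(0, [1], [1, 5]), (0, [2], [3, 5]), (0, [0], [2, 4]), (4, [], [0])]),
  (72, 0, 1, [(0, [1], [1, 5]), (0, [2], [4, 5]), (0, [0], [0, 2]), (4, [], [3])]),
  (-72, 0, 1, [(0, [1], [1, 5]), (0, [2], [4, 5]), (0, [0], [2, 3]), (4, [], [0])]),
  (-144, 0, 1, [(0, [1], [2, 5]), (0, [2], [0, 5]), (0, [0], [1, 3]), (4, [], [4])]),
  (144, 0, 1, [(0, [1], [2, 5]), (0, [2], [0, 5]), (0, [0], [3, 4]), (4, [], [1])]),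
  (-144, 0, 1, [(0, [1], [2, 5]), (0, [2], [1, 5]), (0, [0], [0, 4]), (4, [], [3])]),
  (144, 0, 1, [(0, [1], [2, 5]), (0, [2], [1, 5]), (0, [0], [3, 4]), (4, [], [0])]),
  (144, 0, 1, [(0, [1], [2, 5]), (0, [2], [3, 5]), (0, [0], [0, 1]), (4, [], [4])]),
  (-144, 0, 1, [(0, [1], [2, 5]), (0, [2], [3, 5]), (0, [0], [0, 4]), (4, [], [1])]),
  (144, 0, 1, [(0, [1], [2, 5]), (0, [2], [4, 5]), (0, [0], [0, 1]), (4, [], [3])]),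
  (-144, 0, 1, [(0, [1], [2, 5]), (0, [2], [4, 5]), (0, [0], [1, 3]), (4, [], [0])]),
  (-72, 0, 1, [(0, [1], [3, 5]), (0, [2], [0, 5]), (0, [0], [1, 2]), (4, [], [4])]),
  (72, 0, 1, [(0, [1], [3, 5]), (0, [2], [0, 5]), (0, [0], [2, 4]), (4, [], [1])]),
  (288, 0, 1, [(0, [1], [3, 5]), (0, [2], [1, 5]), (0, [0], [0, 2]), (4, [], [4])]),
  (216, 0, 1, [(0, [1], [3, 5]), (0, [2], [1, 5]), (0, [0], [0, 4]), (4, [], [2])]),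
  (360, 0, 1, [(0, [1], [3, 5]), (0, [2], [1, 5]), (0, [0], [2, 4]), (4, [], [0])]),
  (72, 0, 1, [(0, [1], [3, 5]), (0, [2], [2, 5]), (0, [0], [0, 1]), (4, [], [4])]),
  (-72, 0, 1, [(0, [1], [3, 5]), (0, [2], [2, 5]), (0, [0], [0, 4]), (4, [], [1])]),
  (-216, 0, 1, [(0, [1], [3, 5]), (0, [2], [4, 5]), (0, [0], [0, 1]), (4, [], [2])]),
  (-288, 0, 1, [(0, [1], [3, 5]), (0, [2], [4, 5]), (0, [0], [0, 2]), (4, [], [1])]),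
  (-360, 0, 1, [(0, [1], [3, 5]), (0, [2], [4, 5]), (0, [0], [1, 2]), (4, [], [0])]),
  (288, 0, 1, [(0, [1], [4, 5]), (0, [2], [0, 5]), (0, [0], [1, 2]), (4, [], [3])]),
  (216, 0, 1, [(0, [1], [4, 5]), (0, [2], [0, 5]), (0, [0], [1, 3]), (4, [], [2])]),
  (360, 0, 1, [(0, [1], [4, 5]), (0, [2], [0, 5]), (0, [0], [2, 3]), (4, [], [1])]),
  (-72, 0, 1, [(0, [1], [4, 5]), (0, [2], [1, 5]), (0, [0], [0, 2]), (4, [], [3])]),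
  (72, 0, 1, [(0, [1], [4, 5]), (0, [2], [1, 5]), (0, [0], [2, 3]), (4, [], [0])]),
  (72, 0, 1, [(0, [1], [4, 5]), (0, [2], [2, 5]), (0, [0], [0, 1]), (4, [], [3])]),
  (-72, 0, 1, [(0, [1], [4, 5]), (0, [2], [2, 5]), (0, [0], [1, 3]), (4, [], [0])]),
  (-216, 0, 1, [(0, [1], [4, 5]), (0, [2], [3, 5]), (0, [0], [0, 1]), (4, [], [2])]),
  (-360, 0, 1, [(0, [1], [4, 5]), (0, [2], [3, 5]), (0, [0], [0, 2]), (4, [], [1])]),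
  (-288, 0, 1, [(0, [1], [4, 5]), (0, [2], [3, 5]), (0, [0], [1, 2]), (4, [], [0])])]

def z27_0 : Cov := [(0, 0, 1, [(0, [0], [0, 5]), (0, [1], [2, 5]), (0, [2], [1, 4]), (4, [], [3])]),
  (0, 0, 1, [(0, [0], [0, 5]), (0, [1], [3, 5]), (0, [2], [1, 4]), (4, [], [2])]),
  (0, 0, 1, [(0, [0], [1, 5]), (0, [1], [2, 5]), (0, [2], [0, 3]), (4, [], [4])]),
  (0, 0, 1, [(0, [0], [1, 5]), (0, [1], [4, 5]), (0, [2], [0, 3]), (4, [], [2])]),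
  (0, 0, 1, [(0, [0], [2, 5]), (0, [1], [0, 5]), (0, [2], [1, 4]), (4, [], [3])]),
  (0, 0, 1, [(0, [0], [2, 5]), (0, [1], [1, 5]), (0, [2], [0, 3]), (4, [], [4])]),
  (0, 0, 1, [(0, [0], [2, 5]), (0, [1], [3, 5]), (0, [2], [1, 4]), (4, [], [0])]),
  (0, 0, 1, [(0, [0], [2, 5]), (0, [1], [4, 5]), (0, [2], [0, 3]), (4, [], [1])]),
  (0, 0, 1, [(0, [0], [3, 5]), (0, [1], [0, 5]), (0, [2], [1, 4]), (4, [], [2])]),
  (0, 0, 1, [(0, [0], [3, 5]), (0, [1], [2, 5]), (0, [2], [1, 4]), (4, [], [0])]),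
  (0, 0, 1, [(0, [0], [4, 5]), (0, [1], [1, 5]), (0, [2], [0, 3]), (4, [], [2])]),
  (0, 0, 1, [(0, [0], [4, 5]), (0, [1], [2, 5]), (0, [2], [0, 3]), (4, [], [1])]),
  (0, 0, 1, [(0, [0], [0, 5]), (0, [2], [1, 5]), (0, [1], [3, 4]), (4, [], [2])]),
  (0, 0, 1, [(0, [0], [0, 5]), (0, [2], [2, 5]), (0, [1], [1, 4]), (4, [], [3])]),
  (0, 0, 1, [(0, [0], [0, 5]), (0, [2], [3, 5]), (0, [1], [1, 4]), (4, [], [2])]),
  (0, 0, 1, [(0, [0], [0, 5]), (0, [2], [4, 5]), (0, [1], [1, 3]), (4, [], [2])]),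
  (0, 0, 1, [(0, [0], [1, 5]), (0, [2], [0, 5]), (0, [1], [3, 4]), (4, [], [2])]),
  (0, 0, 1, [(0, [0], [1, 5]), (0, [2], [2, 5]), (0, [1], [0, 3]), (4, [], [4])]),
  (0, 0, 1, [(0, [0], [1, 5]), (0, [2], [3, 5]), (0, [1], [0, 4]), (4, [], [2])]),
  (0, 0, 1, [(0, [0], [1, 5]), (0, [2], [4, 5]), (0, [1], [0, 3]), (4, [], [2])]),
  (0, 0, 1, [(0, [0], [2, 5]), (0, [2], [0, 5]), (0, [1], [1, 4]), (4, [], [3])]),
  (0, 0, 1, [(0, [0], [2, 5]), (0, [2], [1, 5]), (0, [1], [0, 3]), (4, [], [4])]),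
  (0, 0, 1, [(0, [0], [2, 5]), (0, [2], [3, 5]), (0, [1], [1, 4]), (4, [], [0])]),
  (0, 0, 1, [(0, [0], [2, 5]), (0, [2], [4, 5]), (0, [1], [0, 3]), (4, [], [1])]),
  (0, 0, 1, [(0, [0], [3, 5]), (0, [2], [0, 5]), (0, [1], [1, 4]), (4, [], [2])]),
  (0, 0, 1, [(0, [0], [3, 5]), (0, [2], [1, 5]), (0, [1], [0, 4]), (4, [], [2])]),
  (0, 0, 1, [(0, [0], [3, 5]), (0, [2], [2, 5]), (0, [1], [1, 4]), (4, [], [0])]),
  (0, 0, 1, [(0, [0], [3, 5]), (0, [2], [4, 5]), (0, [1], [0, 1]), (4, [], [2])]),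
  (0, 0, 1, [(0, [0], [4, 5]), (0, [2], [0, 5]), (0, [1], [1, 3]), (4, [], [2])]),
  (0, 0, 1, [(0, [0], [4, 5]), (0, [2], [1, 5]), (0, [1], [0, 3]), (4, [], [2])]),
  (0, 0, 1, [(0, [0], [4, 5]), (0, [2], [2, 5]), (0, [1], [0, 3]), (4, [], [1])]),
  (0, 0, 1, [(0, [0], [4, 5]), (0, [2], [3, 5]), (0, [1], [0, 1]), (4, [], [2])]),
  (0, 0, 1, [(0, [1], [0, 5]), (0, [2], [2, 5]), (0, [0], [1, 4]), (4, [], [3])]),
  (0, 0, 1, [(0, [1], [0, 5]), (0, [2], [3, 5]), (0, [0], [1, 4]), (4, [], [2])]),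
  (0, 0, 1, [(0, [1], [1, 5]), (0, [2], [2, 5]), (0, [0], [0, 3]), (4, [], [4])]),
  (0, 0, 1, [(0, [1], [1, 5]), (0, [2], [4, 5]), (0, [0], [0, 3]), (4, [], [2])]),
  (0, 0, 1, [(0, [1], [2, 5]), (0, [2], [0, 5]), (0, [0], [1, 4]), (4, [], [3])]),
  (0, 0, 1, [(0, [1], [2, 5]), (0, [2], [1, 5]), (0, [0], [0, 3]), (4, [], [4])]),
  (0, 0, 1, [(0, [1], [2, 5]), (0, [2], [3, 5]), (0, [0], [1, 4]), (4, [], [0])]),
  (0, 0, 1, [(0, [1], [2, 5]), (0, [2], [4, 5]), (0, [0], [0, 3]), (4, [], [1])]),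
  (0, 0, 1, [(0, [1], [3, 5]), (0, [2], [0, 5]), (0, [0], [1, 4]), (4, [], [2])]),
  (0, 0, 1, [(0, [1], [3, 5]), (0, [2], [2, 5]), (0, [0], [1, 4]), (4, [], [0])]),
  (0, 0, 1, [(0, [1], [4, 5]), (0, [2], [1, 5]), (0, [0], [0, 3]), (4, [], [2])]),
  (0, 0, 1, [(0, [1], [4, 5]), (0, [2], [2, 5]), (0, [0], [0, 3]), (4, [], [1])])]

def w27_0 : List (List Wit) := [[(0, 0, 0, 0, 0), (1, 0, 0, 0, 0), (0, 0, 0, 0, 0), (2, 0, 0, 0, 0), (1, 0, 0, 0, 0), (2, 0, 0, 0, 0), (3, 0, 0, 0, 0), (136, 0, 0, 0, 0), (3, 0, 0, 0, 0), (4, 0, 0, 0, 0), (136, 0, 0, 0, 0), (4, 0, 0, 0, 0), (5, 0, 0, 0, 0), (137, 0, 0, 0, 0), (5, 0, 0, 0, 0), (6, 0, 0, 0, 0), (137, 0, 0, 0, 0), (6, 0, 0, 0, 0), (7, 0, 0, 0, 0), (8, 0, 0, 0, 0), (7, 0, 0, 0, 0), (9, 0, 0, 0, 0), (8, 0, 0, 0, 0), (9, 0, 0, 0, 0), (10, 0, 0, 0, 0), (11, 0, 0, 0, 0), (10, 0, 0, 0, 0),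 (12, 0, 0, 0, 0), (11, 0, 0, 0, 0), (12, 0, 0, 0, 0), (138, 0, 0, 0, 0), (13, 0, 0, 0, 0), (138, 0, 0, 0, 0), (14, 0, 0, 0, 0), (13, 0, 0, 0, 0), (14, 0, 0, 0, 0), (15, 0, 0, 0, 0), (16, 0, 0, 0, 0), (15, 0, 0, 0, 0), (17, 0, 0, 0, 0), (16, 0, 0, 0, 0), (17, 0, 0, 0, 0), (18, 0, 0, 0, 0), (139, 0, 0, 0, 0), (18, 0, 0, 0, 0), (19, 0, 0, 0, 0), (139, 0, 0, 0, 0), (19, 0, 0, 0, 0), (20, 0, 0, 0, 0), (140, 0, 0, 0, 0), (20, 0, 0, 0, 0), (21, 0, 0, 0, 0), (140, 0, 0, 0, 0), (21, 0, 0, 0, 0), (141, 0, 0, 0, 0), (22, 0, 0, 0, 0), (141, 0, 0, 0, 0), (23, 0, 0, 0, 0), (22, 0, 0, 0, 0), (23, 0, 0, 0, 0), (24, 0, 0, 0, 0), (25, 0, 0, 0, 0), (24, 0, 0, 0, 0), (142, 0, 0, 0, 0), (25, 0, 0, 0, 0), (142, 0, 0, 0, 0), (26, 0, 0, 0, 0), (143, 0, 0, 0, 0), (26, 0, 0, 0, 0), (27, 0, 0, 0, 0), (143, 0, 0, 0, 0), (27, 0, 0, 0, 0), (28, 0, 0, 0,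 0), (144, 0, 0, 0, 0), (28, 0, 0, 0, 0), (29, 0, 0, 0, 0), (144, 0, 0, 0, 0), (29, 0, 0, 0, 0), (30, 0, 0, 0, 0), (31, 0, 0, 0, 0), (30, 0, 0, 0, 0), (32, 0, 0, 0, 0), (31, 0, 0, 0, 0), (32, 0, 0, 0, 0), (33, 0, 0, 0, 0), (34, 0, 0, 0, 0), (33, 0, 0, 0, 0), (145, 0, 0, 0, 0), (34, 0, 0, 0, 0), (145, 0, 0, 0, 0), (35, 0, 0, 0, 0), (36, 0, 0, 0, 0), (35, 0, 0, 0, 0), (37, 0, 0, 0, 0), (36, 0, 0, 0, 0), (37, 0, 0, 0, 0), (38, 0, 0, 0, 0), (39, 0, 0, 0, 0), (38, 0, 0, 0, 0), (40, 0, 0, 0, 0), (39, 0, 0, 0, 0), (40, 0, 0, 0, 0), (41, 0, 0, 0, 0), (146, 0, 0, 0, 0), (41, 0, 0, 0, 0), (42, 0, 0, 0, 0), (146, 0, 0, 0, 0), (42, 0, 0, 0, 0), (43, 0, 0, 0, 0), (147, 0, 0, 0, 0), (43, 0, 0, 0, 0), (44, 0, 0, 0, 0), (147, 0, 0, 0, 0), (44, 0, 0, 0, 0), (45, 0, 0, 0, 0), (46, 0, 0, 0, 0), (45, 0, 0, 0, 0), (47, 0, 0, 0, 0), (46, 0, 0, 0,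 0), (47, 0, 0, 0, 0)],
  [(48, 0, 0, 0, 0), (49, 0, 0, 0, 0), (48, 0, 0, 0, 0), (148, 0, 0, 0, 0), (49, 0, 0, 0, 0), (148, 0, 0, 0, 0), (50, 0, 0, 0, 0), (149, 0, 0, 0, 0), (50, 0, 0, 0, 0), (51, 0, 0, 0, 0), (149, 0, 0, 0, 0), (51, 0, 0, 0, 0), (52, 0, 0, 0, 0), (150, 0, 0, 0, 0), (52, 0, 0, 0, 0), (53, 0, 0, 0, 0), (150, 0, 0, 0, 0), (53, 0, 0, 0, 0), (54, 0, 0, 0, 0), (151, 0, 0, 0, 0), (54, 0, 0, 0, 0), (55, 0, 0, 0, 0), (151, 0, 0, 0, 0), (55, 0, 0, 0, 0), (56, 0, 0, 0, 0), (57, 0, 0, 0, 0), (56, 0, 0, 0, 0), (152, 0, 0, 0, 0), (57, 0, 0, 0, 0), (152, 0, 0, 0, 0), (153, 0, 0, 0, 0), (58, 0, 0, 0, 0), (153, 0, 0, 0, 0), (59, 0, 0, 0, 0), (58, 0, 0, 0, 0), (59, 0, 0, 0, 0), (60, 0, 0, 0, 0), (154, 0, 0, 0, 0), (60, 0, 0, 0, 0), (61, 0, 0, 0, 0), (154, 0, 0, 0, 0), (61, 0, 0, 0, 0), (62, 0, 0, 0, 0), (155, 0, 0, 0, 0), (62,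 0, 0, 0, 0), (63, 0, 0, 0, 0), (155, 0, 0, 0, 0), (63, 0, 0, 0, 0), (64, 0, 0, 0, 0), (156, 0, 0, 0, 0), (64, 0, 0, 0, 0), (65, 0, 0, 0, 0), (156, 0, 0, 0, 0), (65, 0, 0, 0, 0), (157, 0, 0, 0, 0), (66, 0, 0, 0, 0), (157, 0, 0, 0, 0), (67, 0, 0, 0, 0), (66, 0, 0, 0, 0), (67, 0, 0, 0, 0), (68, 0, 0, 0, 0), (69, 0, 0, 0, 0), (68, 0, 0, 0, 0), (158, 0, 0, 0, 0), (69, 0, 0, 0, 0), (158, 0, 0, 0, 0), (70, 0, 0, 0, 0), (159, 0, 0, 0, 0), (70, 0, 0, 0, 0), (71, 0, 0, 0, 0), (159, 0, 0, 0, 0), (71, 0, 0, 0, 0), (72, 0, 0, 0, 0), (160, 0, 0, 0, 0), (72, 0, 0, 0, 0), (73, 0, 0, 0, 0), (160, 0, 0, 0, 0), (73, 0, 0, 0, 0), (74, 0, 0, 0, 0), (161, 0, 0, 0, 0), (74, 0, 0, 0, 0), (75, 0, 0, 0, 0), (161, 0, 0, 0, 0), (75, 0, 0, 0, 0), (76, 0, 0, 0, 0), (77, 0, 0, 0, 0), (76, 0, 0, 0, 0), (162, 0, 0, 0, 0), (77, 0, 0, 0, 0), (162, 0, 0, 0, 0),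 (163, 0, 0, 0, 0), (78, 0, 0, 0, 0), (163, 0, 0, 0, 0), (79, 0, 0, 0, 0), (78, 0, 0, 0, 0), (79, 0, 0, 0, 0), (80, 0, 0, 0, 0), (164, 0, 0, 0, 0), (80, 0, 0, 0, 0), (81, 0, 0, 0, 0), (164, 0, 0, 0, 0), (81, 0, 0, 0, 0), (82, 0, 0, 0, 0), (165, 0, 0, 0, 0), (82, 0, 0, 0, 0), (83, 0, 0, 0, 0), (165, 0, 0, 0, 0), (83, 0, 0, 0, 0), (84, 0, 0, 0, 0), (166, 0, 0, 0, 0), (84, 0, 0, 0, 0), (85, 0, 0, 0, 0), (166, 0, 0, 0, 0), (85, 0, 0, 0, 0), (167, 0, 0, 0, 0), (86, 0, 0, 0, 0), (167, 0, 0, 0, 0), (87, 0, 0, 0, 0), (86, 0, 0, 0, 0), (87, 0, 0, 0, 0)],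
  [(10, 0, 0, 0, 0), (11, 0, 0, 0, 0), (10, 0, 0, 0, 0), (12, 0, 0, 0, 0), (11, 0, 0, 0, 0), (12, 0, 0, 0, 0), (20, 0, 0, 0, 0), (140, 0, 0, 0, 0), (20, 0, 0, 0, 0), (21, 0, 0, 0, 0), (140, 0, 0, 0, 0), (21, 0, 0, 0, 0), (28, 0, 0, 0, 0), (144, 0, 0, 0, 0), (28, 0, 0, 0, 0), (29, 0, 0, 0, 0), (144, 0, 0, 0, 0), (29, 0, 0, 0, 0), (38, 0, 0, 0, 0), (39, 0, 0, 0, 0), (38, 0, 0, 0, 0), (40, 0, 0, 0, 0), (39, 0, 0, 0, 0), (40, 0, 0, 0, 0), (0, 0, 0, 0, 0), (1, 0, 0, 0, 0), (0, 0, 0, 0, 0), (2, 0, 0, 0, 0), (1, 0, 0, 0, 0), (2, 0, 0, 0, 0), (141, 0, 0, 0, 0), (22, 0, 0, 0, 0), (141, 0, 0, 0, 0), (23, 0, 0, 0, 0), (22, 0, 0, 0, 0), (23, 0, 0, 0, 0), (30, 0, 0, 0, 0), (31, 0, 0, 0, 0), (30, 0, 0, 0, 0), (32, 0, 0, 0, 0), (31, 0, 0, 0, 0), (32, 0, 0, 0, 0), (41, 0, 0, 0, 0), (146, 0, 0, 0, 0), (41, 0, 0, 0, 0), (42, 0, 0, 0, 0), (146,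 0, 0, 0, 0), (42, 0, 0, 0, 0), (3, 0, 0, 0, 0), (136, 0, 0, 0, 0), (3, 0, 0, 0, 0), (4, 0, 0, 0, 0), (136, 0, 0, 0, 0), (4, 0, 0, 0, 0), (138, 0, 0, 0, 0), (13, 0, 0, 0, 0), (138, 0, 0, 0, 0), (14, 0, 0, 0, 0), (13, 0, 0, 0, 0), (14, 0, 0, 0, 0), (33, 0, 0, 0, 0), (34, 0, 0, 0, 0), (33, 0, 0, 0, 0), (145, 0, 0, 0, 0), (34, 0, 0, 0, 0), (145, 0, 0, 0, 0), (43, 0, 0, 0, 0), (147, 0, 0, 0, 0), (43, 0, 0, 0, 0), (44, 0, 0, 0, 0), (147, 0, 0, 0, 0), (44, 0, 0, 0, 0), (5, 0, 0, 0, 0), (137, 0, 0, 0, 0), (5, 0, 0, 0, 0), (6, 0, 0, 0, 0), (137, 0, 0, 0, 0), (6, 0, 0, 0, 0), (15, 0, 0, 0, 0), (16, 0, 0, 0, 0), (15, 0, 0, 0, 0), (17, 0, 0, 0, 0), (16, 0, 0, 0, 0), (17, 0, 0, 0, 0), (24, 0, 0, 0, 0), (25, 0, 0, 0, 0), (24, 0, 0, 0, 0), (142, 0, 0, 0, 0), (25, 0, 0, 0, 0), (142, 0, 0, 0, 0), (45, 0, 0, 0, 0), (46, 0, 0, 0, 0), (45, 0, 0,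 0, 0), (47, 0, 0, 0, 0), (46, 0, 0, 0, 0), (47, 0, 0, 0, 0), (7, 0, 0, 0, 0), (8, 0, 0, 0, 0), (7, 0, 0, 0, 0), (9, 0, 0, 0, 0), (8, 0, 0, 0, 0), (9, 0, 0, 0, 0), (18, 0, 0, 0, 0), (139, 0, 0, 0, 0), (18, 0, 0, 0, 0), (19, 0, 0, 0, 0), (139, 0, 0, 0, 0), (19, 0, 0, 0, 0), (26, 0, 0, 0, 0), (143, 0, 0, 0, 0), (26, 0, 0, 0, 0), (27, 0, 0, 0, 0), (143, 0, 0, 0, 0), (27, 0, 0, 0, 0), (35, 0, 0, 0, 0), (36, 0, 0, 0, 0), (35, 0, 0, 0, 0), (37, 0, 0, 0, 0), (36, 0, 0, 0, 0), (37, 0, 0, 0, 0)],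
  [(88, 0, 0, 0, 0), (89, 0, 0, 0, 0), (88, 0, 0, 0, 0), (90, 0, 0, 0, 0), (89, 0, 0, 0, 0), (90, 0, 0, 0, 0), (91, 0, 0, 0, 0), (168, 0, 0, 0, 0), (91, 0, 0, 0, 0), (92, 0, 0, 0, 0), (168, 0, 0, 0, 0), (92, 0, 0, 0, 0), (93, 0, 0, 0, 0), (169, 0, 0, 0, 0), (93, 0, 0, 0, 0), (94, 0, 0, 0, 0), (169, 0, 0, 0, 0), (94, 0, 0, 0, 0), (95, 0, 0, 0, 0), (96, 0, 0, 0, 0), (95, 0, 0, 0, 0), (97, 0, 0, 0, 0), (96, 0, 0, 0, 0), (97, 0, 0, 0, 0), (98, 0, 0, 0, 0), (99, 0, 0, 0, 0), (98, 0, 0, 0, 0), (100, 0, 0, 0, 0), (99, 0, 0, 0, 0), (100, 0, 0, 0, 0), (170, 0, 0, 0, 0), (101, 0, 0, 0, 0), (170, 0, 0, 0, 0), (102, 0, 0, 0, 0), (101, 0, 0, 0, 0), (102, 0, 0, 0, 0), (103, 0, 0, 0, 0), (104, 0, 0, 0, 0), (103, 0, 0, 0, 0), (105, 0, 0, 0, 0), (104, 0, 0, 0, 0), (105, 0, 0, 0, 0), (106, 0, 0, 0, 0), (171, 0, 0, 0, 0), (106, 0, 0, 0, 0), (107,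 0, 0, 0, 0), (171, 0, 0, 0, 0), (107, 0, 0, 0, 0), (108, 0, 0, 0, 0), (172, 0, 0, 0, 0), (108, 0, 0, 0, 0), (109, 0, 0, 0, 0), (172, 0, 0, 0, 0), (109, 0, 0, 0, 0), (173, 0, 0, 0, 0), (110, 0, 0, 0, 0), (173, 0, 0, 0, 0), (111, 0, 0, 0, 0), (110, 0, 0, 0, 0), (111, 0, 0, 0, 0), (112, 0, 0, 0, 0), (113, 0, 0, 0, 0), (112, 0, 0, 0, 0), (174, 0, 0, 0, 0), (113, 0, 0, 0, 0), (174, 0, 0, 0, 0), (114, 0, 0, 0, 0), (175, 0, 0, 0, 0), (114, 0, 0, 0, 0), (115, 0, 0, 0, 0), (175, 0, 0, 0, 0), (115, 0, 0, 0, 0), (116, 0, 0, 0, 0), (176, 0, 0, 0, 0), (116, 0, 0, 0, 0), (117, 0, 0, 0, 0), (176, 0, 0, 0, 0), (117, 0, 0, 0, 0), (118, 0, 0, 0, 0), (119, 0, 0, 0, 0), (118, 0, 0, 0, 0), (120, 0, 0, 0, 0), (119, 0, 0, 0, 0), (120, 0, 0, 0, 0), (121, 0, 0, 0, 0), (122, 0, 0, 0, 0), (121, 0, 0, 0, 0), (177, 0, 0, 0, 0), (122, 0, 0, 0, 0), (177,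 0, 0, 0, 0), (123, 0, 0, 0, 0), (124, 0, 0, 0, 0), (123, 0, 0, 0, 0), (125, 0, 0, 0, 0), (124, 0, 0, 0, 0), (125, 0, 0, 0, 0), (126, 0, 0, 0, 0), (127, 0, 0, 0, 0), (126, 0, 0, 0, 0), (128, 0, 0, 0, 0), (127, 0, 0, 0, 0), (128, 0, 0, 0, 0), (129, 0, 0, 0, 0), (178, 0, 0, 0, 0), (129, 0, 0, 0, 0), (130, 0, 0, 0, 0), (178, 0, 0, 0, 0), (130, 0, 0, 0, 0), (131, 0, 0, 0, 0), (179, 0, 0, 0, 0), (131, 0, 0, 0, 0), (132, 0, 0, 0, 0), (179, 0, 0, 0, 0), (132, 0, 0, 0, 0), (133, 0, 0, 0, 0), (134, 0, 0, 0, 0), (133, 0, 0, 0, 0), (135, 0, 0, 0, 0), (134, 0, 0, 0, 0), (135, 0, 0, 0, 0)],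
  [(56, 0, 0, 0, 0), (57, 0, 0, 0, 0), (56, 0, 0, 0, 0), (152, 0, 0, 0, 0), (57, 0, 0, 0, 0), (152, 0, 0, 0, 0), (64, 0, 0, 0, 0), (156, 0, 0, 0, 0), (64, 0, 0, 0, 0), (65, 0, 0, 0, 0), (156, 0, 0, 0, 0), (65, 0, 0, 0, 0), (72, 0, 0, 0, 0), (160, 0, 0, 0, 0), (72, 0, 0, 0, 0), (73, 0, 0, 0, 0), (160, 0, 0, 0, 0), (73, 0, 0, 0, 0), (80, 0, 0, 0, 0), (164, 0, 0, 0, 0), (80, 0, 0, 0, 0), (81, 0, 0, 0, 0), (164, 0, 0, 0, 0), (81, 0, 0, 0, 0), (48, 0, 0, 0, 0), (49, 0, 0, 0, 0), (48, 0, 0, 0, 0), (148, 0, 0, 0, 0), (49, 0, 0, 0, 0), (148, 0, 0, 0, 0), (157, 0, 0, 0, 0), (66, 0, 0, 0, 0), (157, 0, 0, 0, 0), (67, 0, 0, 0, 0), (66, 0, 0, 0, 0), (67, 0, 0, 0, 0), (74, 0, 0, 0, 0), (161, 0, 0, 0, 0), (74, 0, 0, 0, 0), (75, 0, 0, 0, 0), (161, 0, 0, 0, 0), (75, 0, 0, 0, 0), (82, 0, 0, 0, 0), (165, 0, 0, 0, 0), (82, 0, 0, 0, 0), (83, 0,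 0, 0, 0), (165, 0, 0, 0, 0), (83, 0, 0, 0, 0), (50, 0, 0, 0, 0), (149, 0, 0, 0, 0), (50, 0, 0, 0, 0), (51, 0, 0, 0, 0), (149, 0, 0, 0, 0), (51, 0, 0, 0, 0), (153, 0, 0, 0, 0), (58, 0, 0, 0, 0), (153, 0, 0, 0, 0), (59, 0, 0, 0, 0), (58, 0, 0, 0, 0), (59, 0, 0, 0, 0), (76, 0, 0, 0, 0), (77, 0, 0, 0, 0), (76, 0, 0, 0, 0), (162, 0, 0, 0, 0), (77, 0, 0, 0, 0), (162, 0, 0, 0, 0), (84, 0, 0, 0, 0), (166, 0, 0, 0, 0), (84, 0, 0, 0, 0), (85, 0, 0, 0, 0), (166, 0, 0, 0, 0), (85, 0, 0, 0, 0), (52, 0, 0, 0, 0), (150, 0, 0, 0, 0), (52, 0, 0, 0, 0), (53, 0, 0, 0, 0), (150, 0, 0, 0, 0), (53, 0, 0, 0, 0), (60, 0, 0, 0, 0), (154, 0, 0, 0, 0), (60, 0, 0, 0, 0), (61, 0, 0, 0, 0), (154, 0, 0, 0, 0), (61, 0, 0, 0, 0), (68, 0, 0, 0, 0), (69, 0, 0, 0, 0), (68, 0, 0, 0, 0), (158, 0, 0, 0, 0), (69, 0, 0, 0, 0), (158, 0, 0, 0, 0), (167, 0, 0, 0, 0),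 (86, 0, 0, 0, 0), (167, 0, 0, 0, 0), (87, 0, 0, 0, 0), (86, 0, 0, 0, 0), (87, 0, 0, 0, 0), (54, 0, 0, 0, 0), (151, 0, 0, 0, 0), (54, 0, 0, 0, 0), (55, 0, 0, 0, 0), (151, 0, 0, 0, 0), (55, 0, 0, 0, 0), (62, 0, 0, 0, 0), (155, 0, 0, 0, 0), (62, 0, 0, 0, 0), (63, 0, 0, 0, 0), (155, 0, 0, 0, 0), (63, 0, 0, 0, 0), (70, 0, 0, 0, 0), (159, 0, 0, 0, 0), (70, 0, 0, 0, 0), (71, 0, 0, 0, 0), (159, 0, 0, 0, 0), (71, 0, 0, 0, 0), (163, 0, 0, 0, 0), (78, 0, 0, 0, 0), (163, 0, 0, 0, 0), (79, 0, 0, 0, 0), (78, 0, 0, 0, 0), (79, 0, 0, 0, 0)],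
  [(98, 0, 0, 0, 0), (99, 0, 0, 0, 0), (98, 0, 0, 0, 0), (100, 0, 0, 0, 0), (99, 0, 0, 0, 0), (100, 0, 0, 0, 0), (108, 0, 0, 0, 0), (172, 0, 0, 0, 0), (108, 0, 0, 0, 0), (109, 0, 0, 0, 0), (172, 0, 0, 0, 0), (109, 0, 0, 0, 0), (116, 0, 0, 0, 0), (176, 0, 0, 0, 0), (116, 0, 0, 0, 0), (117, 0, 0, 0, 0), (176, 0, 0, 0, 0), (117, 0, 0, 0, 0), (126, 0, 0, 0, 0), (127, 0, 0, 0, 0), (126, 0, 0, 0, 0), (128, 0, 0, 0, 0), (127, 0, 0, 0, 0), (128, 0, 0, 0, 0), (88, 0, 0, 0, 0), (89, 0, 0, 0, 0), (88, 0, 0, 0, 0), (90, 0, 0, 0, 0), (89, 0, 0, 0, 0), (90, 0, 0, 0, 0), (173, 0, 0, 0, 0), (110, 0, 0, 0, 0), (173, 0, 0, 0, 0), (111, 0, 0, 0, 0), (110, 0, 0, 0, 0), (111, 0, 0, 0, 0), (118, 0, 0, 0, 0), (119, 0, 0, 0, 0), (118, 0, 0, 0, 0), (120, 0, 0, 0, 0), (119, 0, 0, 0, 0), (120, 0, 0, 0, 0), (129, 0, 0, 0, 0), (178, 0, 0, 0, 0), (129, 0,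 0, 0, 0), (130, 0, 0, 0, 0), (178, 0, 0, 0, 0), (130, 0, 0, 0, 0), (91, 0, 0, 0, 0), (168, 0, 0, 0, 0), (91, 0, 0, 0, 0), (92, 0, 0, 0, 0), (168, 0, 0, 0, 0), (92, 0, 0, 0, 0), (170, 0, 0, 0, 0), (101, 0, 0, 0, 0), (170, 0, 0, 0, 0), (102, 0, 0, 0, 0), (101, 0, 0, 0, 0), (102, 0, 0, 0, 0), (121, 0, 0, 0, 0), (122, 0, 0, 0, 0), (121, 0, 0, 0, 0), (177, 0, 0, 0, 0), (122, 0, 0, 0, 0), (177, 0, 0, 0, 0), (131, 0, 0, 0, 0), (179, 0, 0, 0, 0), (131, 0, 0, 0, 0), (132, 0, 0, 0, 0), (179, 0, 0, 0, 0), (132, 0, 0, 0, 0), (93, 0, 0, 0, 0), (169, 0, 0, 0, 0), (93, 0, 0, 0, 0), (94, 0, 0, 0, 0), (169, 0, 0, 0, 0), (94, 0, 0, 0, 0), (103, 0, 0, 0, 0), (104, 0, 0, 0, 0), (103, 0, 0, 0, 0), (105, 0, 0, 0, 0), (104, 0, 0, 0, 0), (105, 0, 0, 0, 0), (112, 0, 0, 0, 0), (113, 0, 0, 0, 0), (112, 0, 0, 0, 0), (174, 0, 0, 0, 0), (113, 0, 0, 0, 0),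 (174, 0, 0, 0, 0), (133, 0, 0, 0, 0), (134, 0, 0, 0, 0), (133, 0, 0, 0, 0), (135, 0, 0, 0, 0), (134, 0, 0, 0, 0), (135, 0, 0, 0, 0), (95, 0, 0, 0, 0), (96, 0, 0, 0, 0), (95, 0, 0, 0, 0), (97, 0, 0, 0, 0), (96, 0, 0, 0, 0), (97, 0, 0, 0, 0), (106, 0, 0, 0, 0), (171, 0, 0, 0, 0), (106, 0, 0, 0, 0), (107, 0, 0, 0, 0), (171, 0, 0, 0, 0), (107, 0, 0, 0, 0), (114, 0, 0, 0, 0), (175, 0, 0, 0, 0), (114, 0, 0, 0, 0), (115, 0, 0, 0, 0), (175, 0, 0, 0, 0), (115, 0, 0, 0, 0), (123, 0, 0, 0, 0), (124, 0, 0, 0, 0), (123, 0, 0, 0, 0), (125, 0, 0, 0, 0), (124, 0, 0, 0, 0), (125, 0, 0, 0, 0)]]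

def m27_1 : Base := (0, 1, [(0, [0], [0, 5]), (0, [1], [1, 5]), (0, [2], [2, 4]), (4, [], [3])])

def l27_1 : Cov := [(360, 0, 1, [(0, [0], [0, 5]), (0, [1], [1, 5]), (0, [2], [2, 4]), (4, [], [3])]),
  (288, 0, 1, [(0, [0], [0, 5]), (0, [1], [1, 5]), (0, [2], [2, 3]), (4, [], [4])]),
  (216, 0, 1, [(0, [0], [0, 5]), (0, [1], [1, 5]), (0, [2], [3, 4]), (4, [], [2])]),
  (72, 0, 1, [(0, [0], [0, 5]), (0, [1], [2, 5]), (0, [2], [1, 3]), (4, [], [4])]),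
  (-72, 0, 1, [(0, [0], [0, 5]), (0, [1], [2, 5]), (0, [2], [3, 4]), (4, [], [1])]),
  (-72, 0, 1, [(0, [0], [0, 5]), (0, [1], [3, 5]), (0, [2], [1, 2]), (4, [], [4])]),
  (72, 0, 1, [(0, [0], [0, 5]), (0, [1], [3, 5]), (0, [2], [2, 4]), (4, [], [1])]),
  (-216, 0, 1, [(0, [0], [0, 5]), (0, [1], [4, 5]), (0, [2], [1, 3]), (4, [], [2])]),
  (-360, 0, 1, [(0, [0], [0, 5]), (0, [1], [4, 5]), (0, [2], [1, 2]), (4, [], [3])]),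
  (-288, 0, 1, [(0, [0], [0, 5]), (0, [1], [4, 5]), (0, [2], [2, 3]), (4, [], [1])]),
  (288, 0, 1, [(0, [0], [1, 5]), (0, [1], [0, 5]), (0, [2], [2, 4]), (4, [], [3])]),
  (360, 0, 1, [(0, [0], [1, 5]), (0, [1], [0, 5]), (0, [2], [2, 3]), (4, [], [4])]),
  (216, 0, 1, [(0, [0], [1, 5]), (0, [1], [0, 5]), (0, [2], [3, 4]), (4, [], [2])]),
  (72, 0, 1, [(0, [0], [1, 5]), (0, [1], [2, 5]), (0, [2], [0, 4]), (4, [], [3])]),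
  (-72, 0, 1, [(0, [0], [1, 5]), (0, [1], [2, 5]), (0, [2], [3, 4]), (4, [], [0])]),
  (-216, 0, 1, [(0, [0], [1, 5]), (0, [1], [3, 5]), (0, [2], [0, 4]), (4, [], [2])]),
  (-360, 0, 1, [(0, [0], [1, 5]), (0, [1], [3, 5]), (0, [2], [0, 2]), (4, [], [4])]),
  (-288, 0, 1, [(0, [0], [1, 5]), (0, [1], [3, 5]), (0, [2], [2, 4]), (4, [], [0])]),
  (-72, 0, 1, [(0, [0], [1, 5]), (0, [1], [4, 5]), (0, [2], [0, 2]), (4, [], [3])]),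
  (72, 0, 1, [(0, [0], [1, 5]), (0, [1], [4, 5]), (0, [2], [2, 3]), (4, [], [0])]),
  (144, 0, 1, [(0, [0], [2, 5]), (0, [1], [0, 5]), (0, [2], [1, 3]), (4, [], [4])]),
  (-144, 0, 1, [(0, [0], [2, 5]), (0, [1], [0, 5]), (0, [2], [3, 4]), (4, [], [1])]),
  (144, 0, 1, [(0, [0], [2, 5]), (0, [1], [1, 5]), (0, [2], [0, 4]), (4, [], [3])]),
  (-144, 0, 1, [(0, [0], [2, 5]), (0, [1], [1, 5]), (0, [2], [3, 4]), (4, [], [0])]),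
  (144, 0, 1, [(0, [0], [2, 5]), (0, [1], [3, 5]), (0, [2], [0, 4]), (4, [], [1])]),
  (-144, 0, 1, [(0, [0], [2, 5]), (0, [1], [3, 5]), (0, [2], [0, 1]), (4, [], [4])]),
  (-144, 0, 1, [(0, [0], [2, 5]), (0, [1], [4, 5]), (0, [2], [0, 1]), (4, [], [3])]),
  (144, 0, 1, [(0, [0], [2, 5]), (0, [1], [4, 5]), (0, [2], [1, 3]), (4, [], [0])]),
  (72, 0, 1, [(0, [0], [3, 5]), (0, [1], [0, 5]), (0, [2], [1, 2]), (4, [], [4])]),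
  (-72, 0, 1, [(0, [0], [3, 5]), (0, [1], [0, 5]), (0, [2], [2, 4]), (4, [], [1])]),
  (-216, 0, 1, [(0, [0], [3, 5]), (0, [1], [1, 5]), (0, [2], [0, 4]), (4, [], [2])]),
  (-288, 0, 1, [(0, [0], [3, 5]), (0, [1], [1, 5]), (0, [2], [0, 2]), (4, [], [4])]),
  (-360, 0, 1, [(0, [0], [3, 5]), (0, [1], [1, 5]), (0, [2], [2, 4]), (4, [], [0])]),
  (72, 0, 1, [(0, [0], [3, 5]), (0, [1], [2, 5]), (0, [2], [0, 4]), (4, [], [1])]),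
  (-72, 0, 1, [(0, [0], [3, 5]), (0, [1], [2, 5]), (0, [2], [0, 1]), (4, [], [4])]),
  (288, 0, 1, [(0, [0], [3, 5]), (0, [1], [4, 5]), (0, [2], [0, 2]), (4, [], [1])]),
  (216, 0, 1, [(0, [0], [3, 5]), (0, [1], [4, 5]), (0, [2], [0, 1]), (4, [], [2])]),
  (360, 0, 1, [(0, [0], [3, 5]), (0, [1], [4, 5]), (0, [2], [1, 2]), (4, [], [0])]),
  (-216, 0, 1, [(0, [0], [4, 5]), (0, [1], [0, 5]), (0, [2], [1, 3]), (4, [], [2])]),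
  (-288, 0, 1, [(0, [0], [4, 5]), (0, [1], [0, 5]), (0, [2], [1, 2]), (4, [], [3])]),
  (-360, 0, 1, [(0, [0], [4, 5]), (0, [1], [0, 5]), (0, [2], [2, 3]), (4, [], [1])]),
  (72, 0, 1, [(0, [0], [4, 5]), (0, [1], [1, 5]), (0, [2], [0, 2]), (4, [], [3])]),
  (-72, 0, 1, [(0, [0], [4, 5]), (0, [1], [1, 5]), (0, [2], [2, 3]), (4, [], [0])]),
  (-72, 0, 1, [(0, [0], [4, 5]), (0, [1], [2, 5]), (0, [2], [0, 1]), (4, [], [3])]),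
  (72, 0, 1, [(0, [0], [4, 5]), (0, [1], [2, 5]), (0, [2], [1, 3]), (4, [], [0])]),
  (360, 0, 1, [(0, [0], [4, 5]), (0, [1], [3, 5]), (0, [2], [0, 2]), (4, [], [1])]),
  (216, 0, 1, [(0, [0], [4, 5]), (0, [1], [3, 5]), (0, [2], [0, 1]), (4, [], [2])]),
  (288, 0, 1, [(0, [0], [4, 5]), (0, [1], [3, 5]), (0, [2], [1, 2]), (4, [], [0])]),
  (72, 0, 1, [(0, [0], [0, 5]), (0, [2], [1, 5]), (0, [1], [2, 4]), (4, [], [3])]),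
  (-72, 0, 1, [(0, [0], [0, 5]), (0, [2], [1, 5]), (0, [1], [2, 3]), (4, [], [4])]),
  (-72, 0, 1, [(0, [0], [0, 5]), (0, [2], [2, 5]), (0, [1], [1, 3]), (4, [], [4])]),
  (72, 0, 1, [(0, [0], [0, 5]), (0, [2], [2, 5]), (0, [1], [3, 4]), (4, [], [1])]),
  (-144, 0, 1, [(0, [0], [0, 5]), (0, [2], [3, 5]), (0, [1], [1, 2]), (4, [], [4])]),
  (144, 0, 1, [(0, [0], [0, 5]), (0, [2], [3, 5]), (0, [1], [2, 4]), (4, [], [1])]),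
  (-72, 0, 1, [(0, [0], [0, 5]), (0, [2], [4, 5]), (0, [1], [1, 2]), (4, [], [3])]),
  (72, 0, 1, [(0, [0], [0, 5]), (0, [2], [4, 5]), (0, [1], [2, 3]), (4, [], [1])]),
  (-72, 0, 1, [(0, [0], [1, 5]), (0, [2], [0, 5]), (0, [1], [2, 4]), (4, [], [3])]),
  (72, 0, 1, [(0, [0], [1, 5]), (0, [2], [0, 5]), (0, [1], [2, 3]), (4, [], [4])]),
  (-72, 0, 1, [(0, [0], [1, 5]), (0, [2], [2, 5]), (0, [1], [0, 4]), (4, [], [3])]),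
  (72, 0, 1, [(0, [0], [1, 5]), (0, [2], [2, 5]), (0, [1], [3, 4]), (4, [], [0])]),
  (-72, 0, 1, [(0, [0], [1, 5]), (0, [2], [3, 5]), (0, [1], [0, 2]), (4, [], [4])]),
  (72, 0, 1, [(0, [0], [1, 5]), (0, [2], [3, 5]), (0, [1], [2, 4]), (4, [], [0])]),
  (-144, 0, 1, [(0, [0], [1, 5]), (0, [2], [4, 5]), (0, [1], [0, 2]), (4, [], [3])]),
  (144, 0, 1, [(0, [0], [1, 5]), (0, [2], [4, 5]), (0, [1], [2, 3]), (4, [], [0])]),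
  (72, 0, 1, [(0, [0], [2, 5]), (0, [2], [0, 5]), (0, [1], [1, 3]), (4, [], [4])]),
  (-72, 0, 1, [(0, [0], [2, 5]), (0, [2], [0, 5]), (0, [1], [3, 4]), (4, [], [1])]),
  (72, 0, 1, [(0, [0], [2, 5]), (0, [2], [1, 5]), (0, [1], [0, 4]), (4, [], [3])]),
  (-72, 0, 1, [(0, [0], [2, 5]), (0, [2], [1, 5]), (0, [1], [3, 4]), (4, [], [0])]),
  (72, 0, 1, [(0, [0], [2, 5]), (0, [2], [3, 5]), (0, [1], [0, 4]), (4, [], [1])]),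
  (-72, 0, 1, [(0, [0], [2, 5]), (0, [2], [3, 5]), (0, [1], [0, 1]), (4, [], [4])]),
  (-72, 0, 1, [(0, [0], [2, 5]), (0, [2], [4, 5]), (0, [1], [0, 1]), (4, [], [3])]),
  (72, 0, 1, [(0, [0], [2, 5]), (0, [2], [4, 5]), (0, [1], [1, 3]), (4, [], [0])]),
  (144, 0, 1, [(0, [0], [3, 5]), (0, [2], [0, 5]), (0, [1], [1, 2]), (4, [], [4])]),
  (-144, 0, 1, [(0, [0], [3, 5]), (0, [2], [0, 5]), (0, [1], [2, 4]), (4, [], [1])]),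
  (72, 0, 1, [(0, [0], [3, 5]), (0, [2], [1, 5]), (0, [1], [0, 2]), (4, [], [4])]),
  (-72, 0, 1, [(0, [0], [3, 5]), (0, [2], [1, 5]), (0, [1], [2, 4]), (4, [], [0])]),
  (-72, 0, 1, [(0, [0], [3, 5]), (0, [2], [2, 5]), (0, [1], [0, 4]), (4, [], [1])]),
  (72, 0, 1, [(0, [0], [3, 5]), (0, [2], [2, 5]), (0, [1], [0, 1]), (4, [], [4])]),
  (-72, 0, 1, [(0, [0], [3, 5]), (0, [2], [4, 5]), (0, [1], [0, 2]), (4, [], [1])]),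
  (72, 0, 1, [(0, [0], [3, 5]), (0, [2], [4, 5]), (0, [1], [1, 2]), (4, [], [0])]),
  (72, 0, 1, [(0, [0], [4, 5]), (0, [2], [0, 5]), (0, [1], [1, 2]), (4, [], [3])]),
  (-72, 0, 1, [(0, [0], [4, 5]), (0, [2], [0, 5]), (0, [1], [2, 3]), (4, [], [1])]),
  (144, 0, 1, [(0, [0], [4, 5]), (0, [2], [1, 5]), (0, [1], [0, 2]), (4, [], [3])]),
  (-144, 0, 1, [(0, [0], [4, 5]), (0, [2], [1, 5]), (0, [1], [2, 3]), (4, [], [0])]),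
  (72, 0, 1, [(0, [0], [4, 5]), (0, [2], [2, 5]), (0, [1], [0, 1]), (4, [], [3])]),
  (-72, 0, 1, [(0, [0], [4, 5]), (0, [2], [2, 5]), (0, [1], [1, 3]), (4, [], [0])]),
  (72, 0, 1, [(0, [0], [4, 5]), (0, [2], [3, 5]), (0, [1], [0, 2]), (4, [], [1])]),
  (-72, 0, 1, [(0, [0], [4, 5]), (0, [2], [3, 5]), (0, [1], [1, 2]), (4, [], [0])]),
  (-288, 0, 1, [(0, [1], [0, 5]), (0, [2], [1, 5]), (0, [0], [2, 4]), (4, [], [3])]),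
  (-360, 0, 1, [(0, [1], [0, 5]), (0, [2], [1, 5]), (0, [0], [2, 3]), (4, [], [4])]),
  (-216, 0, 1, [(0, [1], [0, 5]), (0, [2], [1, 5]), (0, [0], [3, 4]), (4, [], [2])]),
  (-144, 0, 1, [(0, [1], [0, 5]), (0, [2], [2, 5]), (0, [0], [1, 3]), (4, [], [4])]),
  (144, 0, 1, [(0, [1], [0, 5]), (0, [2], [2, 5]), (0, [0], [3, 4]), (4, [], [1])]),
  (-72, 0, 1, [(0, [1], [0, 5]), (0, [2], [3, 5]), (0, [0], [1, 2]), (4, [], [4])]),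
  (72, 0, 1, [(0, [1], [0, 5]), (0, [2], [3, 5]), (0, [0], [2, 4]), (4, [], [1])]),
  (216, 0, 1, [(0, [1], [0, 5]), (0, [2], [4, 5]), (0, [0], [1, 3]), (4, [], [2])]),
  (288, 0, 1, [(0, [1], [0, 5]), (0, [2], [4, 5]), (0, [0], [1, 2]), (4, [], [3])]),
  (360, 0, 1, [(0, [1], [0, 5]), (0, [2], [4, 5]), (0, [0], [2, 3]), (4, [], [1])]),
  (-360, 0, 1, [(0, [1], [1, 5]), (0, [2], [0, 5]), (0, [0], [2, 4]), (4, [], [3])]),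
  (-288, 0, 1, [(0, [1], [1, 5]), (0, [2], [0, 5]), (0, [0], [2, 3]), (4, [], [4])]),
  (-216, 0, 1, [(0, [1], [1, 5]), (0, [2], [0, 5]), (0, [0], [3, 4]), (4, [], [2])]),
  (-144, 0, 1, [(0, [1], [1, 5]), (0, [2], [2, 5]), (0, [0], [0, 4]), (4, [], [3])]),
  (144, 0, 1, [(0, [1], [1, 5]), (0, [2], [2, 5]), (0, [0], [3, 4]), (4, [], [0])]),
  (216, 0, 1, [(0, [1], [1, 5]), (0, [2], [3, 5]), (0, [0], [0, 4]), (4, [], [2])]),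
  (288, 0, 1, [(0, [1], [1, 5]), (0, [2], [3, 5]), (0, [0], [0, 2]), (4, [], [4])]),
  (360, 0, 1, [(0, [1], [1, 5]), (0, [2], [3, 5]), (0, [0], [2, 4]), (4, [], [0])]),
  (-72, 0, 1, [(0, [1], [1, 5]), (0, [2], [4, 5]), (0, [0], [0, 2]), (4, [], [3])]),
  (72, 0, 1, [(0, [1], [1, 5]), (0, [2], [4, 5]), (0, [0], [2, 3]), (4, [], [0])]),
  (-72, 0, 1, [(0, [1], [2, 5]), (0, [2], [0, 5]), (0, [0], [1, 3]), (4, [], [4])]),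
  (72, 0, 1, [(0, [1], [2, 5]), (0, [2], [0, 5]), (0, [0], [3, 4]), (4, [], [1])]),
  (-72, 0, 1, [(0, [1], [2, 5]), (0, [2], [1, 5]), (0, [0], [0, 4]), (4, [], [3])]),
  (72, 0, 1, [(0, [1], [2, 5]), (0, [2], [1, 5]), (0, [0], [3, 4]), (4, [], [0])]),
  (-72, 0, 1, [(0, [1], [2, 5]), (0, [2], [3, 5]), (0, [0], [0, 4]), (4, [], [1])]),
  (72, 0, 1, [(0, [1], [2, 5]), (0, [2], [3, 5]), (0, [0], [0, 1]), (4, [], [4])]),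
  (72, 0, 1, [(0, [1], [2, 5]), (0, [2], [4, 5]), (0, [0], [0, 1]), (4, [], [3])]),
  (-72, 0, 1, [(0, [1], [2, 5]), (0, [2], [4, 5]), (0, [0], [1, 3]), (4, [], [0])]),
  (72, 0, 1, [(0, [1], [3, 5]), (0, [2], [0, 5]), (0, [0], [1, 2]), (4, [], [4])]),
  (-72, 0, 1, [(0, [1], [3, 5]), (0, [2], [0, 5]), (0, [0], [2, 4]), (4, [], [1])]),
  (216, 0, 1, [(0, [1], [3, 5]), (0, [2], [1, 5]), (0, [0], [0, 4]), (4, [], [2])]),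
  (360, 0, 1, [(0, [1], [3, 5]), (0, [2], [1, 5]), (0, [0], [0, 2]), (4, [], [4])]),
  (288, 0, 1, [(0, [1], [3, 5]), (0, [2], [1, 5]), (0, [0], [2, 4]), (4, [], [0])]),
  (-144, 0, 1, [(0, [1], [3, 5]), (0, [2], [2, 5]), (0, [0], [0, 4]), (4, [], [1])]),
  (144, 0, 1, [(0, [1], [3, 5]), (0, [2], [2, 5]), (0, [0], [0, 1]), (4, [], [4])]),
  (-360, 0, 1, [(0, [1], [3, 5]), (0, [2], [4, 5]), (0, [0], [0, 2]), (4, [], [1])]),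
  (-216, 0, 1, [(0, [1], [3, 5]), (0, [2], [4, 5]), (0, [0], [0, 1]), (4, [], [2])]),
  (-288, 0, 1, [(0, [1], [3, 5]), (0, [2], [4, 5]), (0, [0], [1, 2]), (4, [], [0])]),
  (216, 0, 1, [(0, [1], [4, 5]), (0, [2], [0, 5]), (0, [0], [1, 3]), (4, [], [2])]),
  (360, 0, 1, [(0, [1], [4, 5]), (0, [2], [0, 5]), (0, [0], [1, 2]), (4, [], [3])]),
  (288, 0, 1, [(0, [1], [4, 5]), (0, [2], [0, 5]), (0, [0], [2, 3]), (4, [], [1])]),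
  (72, 0, 1, [(0, [1], [4, 5]), (0, [2], [1, 5]), (0, [0], [0, 2]), (4, [], [3])]),
  (-72, 0, 1, [(0, [1], [4, 5]), (0, [2], [1, 5]), (0, [0], [2, 3]), (4, [], [0])]),
  (144, 0, 1, [(0, [1], [4, 5]), (0, [2], [2, 5]), (0, [0], [0, 1]), (4, [], [3])]),
  (-144, 0, 1, [(0, [1], [4, 5]), (0, [2], [2, 5]), (0, [0], [1, 3]), (4, [], [0])]),
  (-288, 0, 1, [(0, [1], [4, 5]), (0, [2], [3, 5]), (0, [0], [0, 2]), (4, [], [1])]),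
  (-216, 0, 1, [(0, [1], [4, 5]), (0, [2], [3, 5]), (0, [0], [0, 1]), (4, [], [2])]),
  (-360, 0, 1, [(0, [1], [4, 5]), (0, [2], [3, 5]), (0, [0], [1, 2]), (4, [], [0])])]

def z27_1 : Cov := [(0, 0, 1, [(0, [0], [0, 5]), (0, [1], [2, 5]), (0, [2], [1, 4]), (4, [], [3])]),
  (0, 0, 1, [(0, [0], [0, 5]), (0, [1], [3, 5]), (0, [2], [1, 4]), (4, [], [2])]),
  (0, 0, 1, [(0, [0], [1, 5]), (0, [1], [2, 5]), (0, [2], [0, 3]), (4, [], [4])]),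
  (0, 0, 1, [(0, [0], [1, 5]), (0, [1], [4, 5]), (0, [2], [0, 3]), (4, [], [2])]),
  (0, 0, 1, [(0, [0], [2, 5]), (0, [1], [0, 5]), (0, [2], [1, 4]), (4, [], [3])]),
  (0, 0, 1, [(0, [0], [2, 5]), (0, [1], [1, 5]), (0, [2], [0, 3]), (4, [], [4])]),
  (0, 0, 1, [(0, [0], [2, 5]), (0, [1], [3, 5]), (0, [2], [1, 4]), (4, [], [0])]),
  (0, 0, 1, [(0, [0], [2, 5]), (0, [1], [4, 5]), (0, [2], [0, 3]), (4, [], [1])]),
  (0, 0, 1, [(0, [0], [3, 5]), (0, [1], [0, 5]), (0, [2], [1, 4]), (4, [], [2])]),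
  (0, 0, 1, [(0, [0], [3, 5]), (0, [1], [2, 5]), (0, [2], [1, 4]), (4, [], [0])]),
  (0, 0, 1, [(0, [0], [4, 5]), (0, [1], [1, 5]), (0, [2], [0, 3]), (4, [], [2])]),
  (0, 0, 1, [(0, [0], [4, 5]), (0, [1], [2, 5]), (0, [2], [0, 3]), (4, [], [1])]),
  (0, 0, 1, [(0, [0], [0, 5]), (0, [2], [1, 5]), (0, [1], [3, 4]), (4, [], [2])]),
  (0, 0, 1, [(0, [0], [0, 5]), (0, [2], [2, 5]), (0, [1], [1, 4]), (4, [], [3])]),
  (0, 0, 1, [(0, [0], [0, 5]), (0, [2], [3, 5]), (0, [1], [1, 4]), (4, [], [2])]),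
  (0, 0, 1, [(0, [0], [0, 5]), (0, [2], [4, 5]), (0, [1], [1, 3]), (4, [], [2])]),
  (0, 0, 1, [(0, [0], [1, 5]), (0, [2], [0, 5]), (0, [1], [3, 4]), (4, [], [2])]),
  (0, 0, 1, [(0, [0], [1, 5]), (0, [2], [2, 5]), (0, [1], [0, 3]), (4, [], [4])]),
  (0, 0, 1, [(0, [0], [1, 5]), (0, [2], [3, 5]), (0, [1], [0, 4]), (4, [], [2])]),
  (0, 0, 1, [(0, [0], [1, 5]), (0, [2], [4, 5]), (0, [1], [0, 3]), (4, [], [2])]),
  (0, 0, 1, [(0, [0], [2, 5]), (0, [2], [0, 5]), (0, [1], [1, 4]), (4, [], [3])]),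
  (0, 0, 1, [(0, [0], [2, 5]), (0, [2], [1, 5]), (0, [1], [0, 3]), (4, [], [4])]),
  (0, 0, 1, [(0, [0], [2, 5]), (0, [2], [3, 5]), (0, [1], [1, 4]), (4, [], [0])]),
  (0, 0, 1, [(0, [0], [2, 5]), (0, [2], [4, 5]), (0, [1], [0, 3]), (4, [], [1])]),
  (0, 0, 1, [(0, [0], [3, 5]), (0, [2], [0, 5]), (0, [1], [1, 4]), (4, [], [2])]),
  (0, 0, 1, [(0, [0], [3, 5]), (0, [2], [1, 5]), (0, [1], [0, 4]), (4, [], [2])]),
  (0, 0, 1, [(0, [0], [3, 5]), (0, [2], [2, 5]), (0, [1], [1, 4]), (4, [], [0])]),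
  (0, 0, 1, [(0, [0], [3, 5]), (0, [2], [4, 5]), (0, [1], [0, 1]), (4, [], [2])]),
  (0, 0, 1, [(0, [0], [4, 5]), (0, [2], [0, 5]), (0, [1], [1, 3]), (4, [], [2])]),
  (0, 0, 1, [(0, [0], [4, 5]), (0, [2], [1, 5]), (0, [1], [0, 3]), (4, [], [2])]),
  (0, 0, 1, [(0, [0], [4, 5]), (0, [2], [2, 5]), (0, [1], [0, 3]), (4, [], [1])]),
  (0, 0, 1, [(0, [0], [4, 5]), (0, [2], [3, 5]), (0, [1], [0, 1]), (4, [], [2])]),
  (0, 0, 1, [(0, [1], [0, 5]), (0, [2], [2, 5]), (0, [0], [1, 4]), (4, [], [3])]),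
  (0, 0, 1, [(0, [1], [0, 5]), (0, [2], [3, 5]), (0, [0], [1, 4]), (4, [], [2])]),
  (0, 0, 1, [(0, [1], [1, 5]), (0, [2], [2, 5]), (0, [0], [0, 3]), (4, [], [4])]),
  (0, 0, 1, [(0, [1], [1, 5]), (0, [2], [4, 5]), (0, [0], [0, 3]), (4, [], [2])]),
  (0, 0, 1, [(0, [1], [2, 5]), (0, [2], [0, 5]), (0, [0], [1, 4]), (4, [], [3])]),
  (0, 0, 1, [(0, [1], [2, 5]), (0, [2], [1, 5]), (0, [0], [0, 3]), (4, [], [4])]),
  (0, 0, 1, [(0, [1], [2, 5]), (0, [2], [3, 5]), (0, [0], [1, 4]), (4, [], [0])]),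
  (0, 0, 1, [(0, [1], [2, 5]), (0, [2], [4, 5]), (0, [0], [0, 3]), (4, [], [1])]),
  (0, 0, 1, [(0, [1], [3, 5]), (0, [2], [0, 5]), (0, [0], [1, 4]), (4, [], [2])]),
  (0, 0, 1, [(0, [1], [3, 5]), (0, [2], [2, 5]), (0, [0], [1, 4]), (4, [], [0])]),
  (0, 0, 1, [(0, [1], [4, 5]), (0, [2], [1, 5]), (0, [0], [0, 3]), (4, [], [2])]),
  (0, 0, 1, [(0, [1], [4, 5]), (0, [2], [2, 5]), (0, [0], [0, 3]), (4, [], [1])])]

def w27_1 : List (List Wit) := [[(0, 0, 0, 0, 0), (1, 0, 0, 0, 0), (2, 0, 0, 0, 0), (1, 0, 0, 0, 0), (2, 0, 0, 0, 0), (0, 0, 0, 0, 0), (136, 0, 0, 0, 0), (3, 0, 0, 0, 0), (4, 0, 0, 0, 0), (3, 0, 0, 0, 0), (4, 0, 0, 0, 0), (136, 0, 0, 0, 0), (137, 0, 0, 0, 0), (5, 0, 0, 0, 0), (6, 0, 0, 0, 0), (5, 0, 0, 0, 0), (6, 0, 0, 0, 0), (137, 0, 0, 0, 0), (7, 0, 0, 0, 0), (8, 0, 0, 0, 0), (9, 0, 0, 0, 0), (8, 0, 0, 0, 0), (9, 0,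 0, 0, 0), (7, 0, 0, 0, 0), (10, 0, 0, 0, 0), (11, 0, 0, 0, 0), (12, 0, 0, 0, 0), (11, 0, 0, 0, 0), (12, 0, 0, 0, 0), (10, 0, 0, 0, 0), (13, 0, 0, 0, 0), (138, 0, 0, 0, 0), (14, 0, 0, 0, 0), (138, 0, 0, 0, 0), (14, 0, 0, 0, 0), (13, 0, 0, 0, 0), (15, 0, 0, 0, 0), (16, 0, 0, 0, 0), (17, 0, 0, 0, 0), (16, 0, 0, 0, 0), (17, 0, 0, 0, 0), (15, 0, 0, 0, 0), (139, 0, 0, 0, 0), (18, 0, 0, 0, 0), (19, 0, 0, 0, 0), (18, 0, 0, 0, 0), (19, 0, 0, 0, 0), (139, 0, 0, 0, 0), (140, 0, 0, 0, 0), (20, 0, 0, 0, 0), (21, 0, 0, 0, 0), (20, 0, 0, 0, 0), (21, 0, 0, 0, 0), (140, 0, 0, 0, 0), (22, 0, 0, 0, 0), (141, 0, 0, 0, 0), (23, 0, 0, 0, 0), (141, 0, 0, 0, 0), (23, 0, 0, 0, 0), (22, 0, 0, 0, 0), (24, 0, 0, 0, 0), (25, 0, 0, 0, 0), (142, 0, 0, 0, 0), (25, 0, 0, 0, 0), (142, 0, 0, 0, 0), (24, 0, 0, 0, 0), (143, 0, 0, 0, 0), (26, 0, 0, 0, 0), (27, 0,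 0, 0, 0), (26, 0, 0, 0, 0), (27, 0, 0, 0, 0), (143, 0, 0, 0, 0), (144, 0, 0, 0, 0), (28, 0, 0, 0, 0), (29, 0, 0, 0, 0), (28, 0, 0, 0, 0), (29, 0, 0, 0, 0), (144, 0, 0, 0, 0), (30, 0, 0, 0, 0), (31, 0, 0, 0, 0), (32, 0, 0, 0, 0), (31, 0, 0, 0, 0), (32, 0, 0, 0, 0), (30, 0, 0, 0, 0), (33, 0, 0, 0, 0), (34, 0, 0, 0, 0), (145, 0, 0, 0, 0), (34, 0, 0, 0, 0), (145, 0, 0, 0, 0), (33, 0, 0, 0, 0), (35, 0, 0, 0, 0), (36, 0, 0, 0, 0), (37, 0, 0, 0, 0), (36, 0, 0, 0, 0), (37, 0, 0, 0, 0), (35, 0, 0, 0, 0), (38, 0, 0, 0, 0), (39, 0, 0, 0, 0), (40, 0, 0, 0, 0), (39, 0, 0, 0, 0), (40, 0, 0, 0, 0), (38, 0, 0, 0, 0), (146, 0, 0, 0, 0), (41, 0, 0, 0, 0), (42, 0, 0, 0, 0), (41, 0, 0, 0, 0), (42, 0, 0, 0, 0), (146, 0, 0, 0, 0), (147, 0, 0, 0, 0), (43, 0, 0, 0, 0), (44, 0, 0, 0, 0), (43, 0, 0, 0, 0), (44, 0, 0, 0, 0), (147, 0, 0, 0, 0), (45, 0,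 0, 0, 0), (46, 0, 0, 0, 0), (47, 0, 0, 0, 0), (46, 0, 0, 0, 0), (47, 0, 0, 0, 0), (45, 0, 0, 0, 0)],
  [(48, 0, 0, 0, 0), (49, 0, 0, 0, 0), (148, 0, 0, 0, 0), (49, 0, 0, 0, 0), (148, 0, 0, 0, 0), (48, 0, 0, 0, 0), (149, 0, 0, 0, 0), (50, 0, 0, 0, 0), (51, 0, 0, 0, 0), (50, 0, 0, 0, 0), (51, 0, 0, 0, 0), (149, 0, 0, 0, 0), (150, 0, 0, 0, 0), (52, 0, 0, 0, 0), (53, 0, 0, 0, 0), (52, 0, 0, 0, 0), (53, 0, 0, 0, 0), (150, 0, 0, 0, 0), (151, 0, 0, 0, 0), (54, 0, 0, 0, 0), (55, 0, 0, 0, 0), (54, 0, 0, 0, 0), (55, 0, 0, 0, 0), (151, 0, 0, 0, 0), (56, 0, 0, 0, 0), (57, 0, 0, 0, 0), (152, 0, 0, 0, 0), (57, 0, 0, 0, 0), (152, 0, 0, 0, 0), (56, 0, 0, 0, 0), (58, 0, 0, 0, 0), (153, 0, 0, 0, 0), (59, 0, 0, 0, 0), (153, 0, 0, 0, 0), (59, 0, 0, 0, 0), (58, 0, 0, 0, 0), (154, 0, 0, 0, 0), (60, 0, 0, 0, 0), (61, 0, 0, 0, 0), (60, 0, 0, 0, 0),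 (61, 0, 0, 0, 0), (154, 0, 0, 0, 0), (155, 0, 0, 0, 0), (62, 0, 0, 0, 0), (63, 0, 0, 0, 0), (62, 0, 0, 0, 0), (63, 0, 0, 0, 0), (155, 0, 0, 0, 0), (156, 0, 0, 0, 0), (64, 0, 0, 0, 0), (65, 0, 0, 0, 0), (64, 0, 0, 0, 0), (65, 0, 0, 0, 0), (156, 0, 0, 0, 0), (66, 0, 0, 0, 0), (157, 0, 0, 0, 0), (67, 0, 0, 0, 0), (157, 0, 0, 0, 0), (67, 0, 0, 0, 0), (66, 0, 0, 0, 0), (68, 0, 0, 0, 0), (69, 0, 0, 0, 0), (158, 0, 0, 0, 0), (69, 0, 0, 0, 0), (158, 0, 0, 0, 0), (68, 0, 0, 0, 0), (159, 0, 0, 0, 0), (70, 0, 0, 0, 0), (71, 0, 0, 0, 0), (70, 0, 0, 0, 0), (71, 0, 0, 0, 0), (159, 0, 0, 0, 0), (160, 0, 0, 0, 0), (72, 0, 0, 0, 0), (73, 0, 0, 0, 0), (72, 0, 0, 0, 0), (73, 0, 0, 0, 0), (160, 0, 0, 0, 0), (161, 0, 0, 0, 0), (74, 0, 0, 0, 0), (75, 0, 0, 0, 0), (74, 0, 0, 0, 0), (75, 0, 0, 0, 0), (161, 0, 0, 0, 0), (76, 0, 0, 0, 0), (77, 0, 0,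 0, 0), (162, 0, 0, 0, 0), (77, 0, 0, 0, 0), (162, 0, 0, 0, 0), (76, 0, 0, 0, 0), (78, 0, 0, 0, 0), (163, 0, 0, 0, 0), (79, 0, 0, 0, 0), (163, 0, 0, 0, 0), (79, 0, 0, 0, 0), (78, 0, 0, 0, 0), (164, 0, 0, 0, 0), (80, 0, 0, 0, 0), (81, 0, 0, 0, 0), (80, 0, 0, 0, 0), (81, 0, 0, 0, 0), (164, 0, 0, 0, 0), (165, 0, 0, 0, 0), (82, 0, 0, 0, 0), (83, 0, 0, 0, 0), (82, 0, 0, 0, 0), (83, 0, 0, 0, 0), (165, 0, 0, 0, 0), (166, 0, 0, 0, 0), (84, 0, 0, 0, 0), (85, 0, 0, 0, 0), (84, 0, 0, 0, 0), (85, 0, 0, 0, 0), (166, 0, 0, 0, 0), (86, 0, 0, 0, 0), (167, 0, 0, 0, 0), (87, 0, 0, 0, 0), (167, 0, 0, 0, 0), (87, 0, 0, 0, 0), (86, 0, 0, 0, 0)],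
  [(10, 0, 0, 0, 0), (11, 0, 0, 0, 0), (12, 0, 0, 0, 0), (11, 0, 0, 0, 0), (12, 0, 0, 0, 0), (10, 0, 0, 0, 0), (140, 0, 0, 0, 0), (20, 0, 0, 0, 0), (21, 0, 0, 0, 0), (20, 0, 0, 0, 0), (21, 0, 0, 0, 0), (140, 0, 0, 0, 0), (144, 0, 0, 0, 0), (28, 0, 0, 0, 0), (29, 0, 0, 0, 0), (28, 0, 0, 0, 0), (29, 0, 0, 0, 0), (144, 0, 0, 0, 0), (38, 0, 0, 0, 0), (39, 0, 0, 0, 0), (40, 0, 0, 0, 0), (39, 0, 0, 0, 0), (40, 0, 0, 0, 0), (38, 0, 0, 0, 0), (0, 0, 0, 0, 0), (1, 0, 0, 0, 0), (2, 0, 0, 0, 0), (1, 0, 0, 0, 0), (2, 0, 0, 0, 0), (0, 0, 0, 0, 0), (22, 0, 0, 0, 0), (141, 0, 0, 0, 0), (23, 0, 0, 0, 0), (141, 0, 0, 0, 0), (23, 0, 0, 0, 0), (22, 0, 0, 0, 0), (30, 0, 0, 0, 0), (31, 0, 0, 0, 0), (32, 0, 0, 0, 0), (31, 0, 0, 0, 0), (32, 0, 0, 0, 0), (30, 0, 0, 0, 0), (146, 0, 0, 0, 0), (41, 0, 0, 0, 0), (42, 0, 0, 0, 0), (41, 0, 0, 0, 0), (42,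 0, 0, 0, 0), (146, 0, 0, 0, 0), (136, 0, 0, 0, 0), (3, 0, 0, 0, 0), (4, 0, 0, 0, 0), (3, 0, 0, 0, 0), (4, 0, 0, 0, 0), (136, 0, 0, 0, 0), (13, 0, 0, 0, 0), (138, 0, 0, 0, 0), (14, 0, 0, 0, 0), (138, 0, 0, 0, 0), (14, 0, 0, 0, 0), (13, 0, 0, 0, 0), (33, 0, 0, 0, 0), (34, 0, 0, 0, 0), (145, 0, 0, 0, 0), (34, 0, 0, 0, 0), (145, 0, 0, 0, 0), (33, 0, 0, 0, 0), (147, 0, 0, 0, 0), (43, 0, 0, 0, 0), (44, 0, 0, 0, 0), (43, 0, 0, 0, 0), (44, 0, 0, 0, 0), (147, 0, 0, 0, 0), (137, 0, 0, 0, 0), (5, 0, 0, 0, 0), (6, 0, 0, 0, 0), (5, 0, 0, 0, 0), (6, 0, 0, 0, 0), (137, 0, 0, 0, 0), (15, 0, 0, 0, 0), (16, 0, 0, 0, 0), (17, 0, 0, 0, 0), (16, 0, 0, 0, 0), (17, 0, 0, 0, 0), (15, 0, 0, 0, 0), (24, 0, 0, 0, 0), (25, 0, 0, 0, 0), (142, 0, 0, 0, 0), (25, 0, 0, 0, 0), (142, 0, 0, 0, 0), (24, 0, 0, 0, 0), (45, 0, 0, 0, 0), (46, 0, 0, 0, 0), (47, 0,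 0, 0, 0), (46, 0, 0, 0, 0), (47, 0, 0, 0, 0), (45, 0, 0, 0, 0), (7, 0, 0, 0, 0), (8, 0, 0, 0, 0), (9, 0, 0, 0, 0), (8, 0, 0, 0, 0), (9, 0, 0, 0, 0), (7, 0, 0, 0, 0), (139, 0, 0, 0, 0), (18, 0, 0, 0, 0), (19, 0, 0, 0, 0), (18, 0, 0, 0, 0), (19, 0, 0, 0, 0), (139, 0, 0, 0, 0), (143, 0, 0, 0, 0), (26, 0, 0, 0, 0), (27, 0, 0, 0, 0), (26, 0, 0, 0, 0), (27, 0, 0, 0, 0), (143, 0, 0, 0, 0), (35, 0, 0, 0, 0), (36, 0, 0, 0, 0), (37, 0, 0, 0, 0), (36, 0, 0, 0, 0), (37, 0, 0, 0, 0), (35, 0, 0, 0, 0)],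
  [(88, 0, 0, 0, 0), (89, 0, 0, 0, 0), (90, 0, 0, 0, 0), (89, 0, 0, 0, 0), (90, 0, 0, 0, 0), (88, 0, 0, 0, 0), (168, 0, 0, 0, 0), (91, 0, 0, 0, 0), (92, 0, 0, 0, 0), (91, 0, 0, 0, 0), (92, 0, 0, 0, 0), (168, 0, 0, 0, 0), (169, 0, 0, 0, 0), (93, 0, 0, 0, 0), (94, 0, 0, 0, 0), (93, 0, 0, 0, 0), (94, 0, 0, 0, 0), (169, 0, 0, 0, 0), (95, 0, 0, 0, 0), (96, 0, 0, 0, 0), (97, 0, 0, 0, 0), (96, 0, 0, 0, 0), (97, 0, 0, 0, 0), (95, 0, 0, 0, 0), (98, 0, 0, 0, 0), (99, 0, 0, 0, 0), (100, 0, 0, 0, 0), (99, 0, 0, 0, 0), (100, 0, 0, 0, 0), (98, 0, 0, 0, 0), (101, 0, 0, 0, 0), (170, 0, 0, 0, 0), (102, 0, 0, 0, 0), (170, 0, 0, 0, 0), (102, 0, 0, 0, 0), (101, 0, 0, 0, 0), (103, 0, 0, 0, 0), (104, 0, 0, 0, 0), (105, 0, 0, 0, 0), (104, 0, 0, 0, 0), (105, 0, 0, 0, 0), (103, 0, 0, 0, 0), (171, 0, 0, 0, 0), (106, 0, 0, 0, 0), (107, 0, 0, 0, 0), (106,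 0, 0, 0, 0), (107, 0, 0, 0, 0), (171, 0, 0, 0, 0), (172, 0, 0, 0, 0), (108, 0, 0, 0, 0), (109, 0, 0, 0, 0), (108, 0, 0, 0, 0), (109, 0, 0, 0, 0), (172, 0, 0, 0, 0), (110, 0, 0, 0, 0), (173, 0, 0, 0, 0), (111, 0, 0, 0, 0), (173, 0, 0, 0, 0), (111, 0, 0, 0, 0), (110, 0, 0, 0, 0), (112, 0, 0, 0, 0), (113, 0, 0, 0, 0), (174, 0, 0, 0, 0), (113, 0, 0, 0, 0), (174, 0, 0, 0, 0), (112, 0, 0, 0, 0), (175, 0, 0, 0, 0), (114, 0, 0, 0, 0), (115, 0, 0, 0, 0), (114, 0, 0, 0, 0), (115, 0, 0, 0, 0), (175, 0, 0, 0, 0), (176, 0, 0, 0, 0), (116, 0, 0, 0, 0), (117, 0, 0, 0, 0), (116, 0, 0, 0, 0), (117, 0, 0, 0, 0), (176, 0, 0, 0, 0), (118, 0, 0, 0, 0), (119, 0, 0, 0, 0), (120, 0, 0, 0, 0), (119, 0, 0, 0, 0), (120, 0, 0, 0, 0), (118, 0, 0, 0, 0), (121, 0, 0, 0, 0), (122, 0, 0, 0, 0), (177, 0, 0, 0, 0), (122, 0, 0, 0, 0), (177, 0, 0, 0, 0), (121,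 0, 0, 0, 0), (123, 0, 0, 0, 0), (124, 0, 0, 0, 0), (125, 0, 0, 0, 0), (124, 0, 0, 0, 0), (125, 0, 0, 0, 0), (123, 0, 0, 0, 0), (126, 0, 0, 0, 0), (127, 0, 0, 0, 0), (128, 0, 0, 0, 0), (127, 0, 0, 0, 0), (128, 0, 0, 0, 0), (126, 0, 0, 0, 0), (178, 0, 0, 0, 0), (129, 0, 0, 0, 0), (130, 0, 0, 0, 0), (129, 0, 0, 0, 0), (130, 0, 0, 0, 0), (178, 0, 0, 0, 0), (179, 0, 0, 0, 0), (131, 0, 0, 0, 0), (132, 0, 0, 0, 0), (131, 0, 0, 0, 0), (132, 0, 0, 0, 0), (179, 0, 0, 0, 0), (133, 0, 0, 0, 0), (134, 0, 0, 0, 0), (135, 0, 0, 0, 0), (134, 0, 0, 0, 0), (135, 0, 0, 0, 0), (133, 0, 0, 0, 0)],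
  [(56, 0, 0, 0, 0), (57, 0, 0, 0, 0), (152, 0, 0, 0, 0), (57, 0, 0, 0, 0), (152, 0, 0, 0, 0), (56, 0, 0, 0, 0), (156, 0, 0, 0, 0), (64, 0, 0, 0, 0), (65, 0, 0, 0, 0), (64, 0, 0, 0, 0), (65, 0, 0, 0, 0), (156, 0, 0, 0, 0), (160, 0, 0, 0, 0), (72, 0, 0, 0, 0), (73, 0, 0, 0, 0), (72, 0, 0, 0, 0), (73, 0, 0, 0, 0), (160, 0, 0, 0, 0), (164, 0, 0, 0, 0), (80, 0, 0, 0, 0), (81, 0, 0, 0, 0), (80, 0, 0, 0, 0), (81, 0, 0, 0, 0), (164, 0, 0, 0, 0), (48, 0, 0, 0, 0), (49, 0, 0, 0, 0), (148, 0, 0, 0, 0), (49, 0, 0, 0, 0), (148, 0, 0, 0, 0), (48, 0, 0, 0, 0), (66, 0, 0, 0, 0), (157, 0, 0, 0, 0), (67, 0, 0, 0, 0), (157, 0, 0, 0, 0), (67, 0, 0, 0, 0), (66, 0, 0, 0, 0), (161, 0, 0, 0, 0), (74, 0, 0, 0, 0), (75, 0, 0, 0, 0), (74, 0, 0, 0, 0), (75, 0, 0, 0, 0), (161, 0, 0, 0, 0), (165, 0, 0, 0, 0), (82, 0, 0, 0, 0), (83, 0, 0, 0, 0), (82, 0,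 0, 0, 0), (83, 0, 0, 0, 0), (165, 0, 0, 0, 0), (149, 0, 0, 0, 0), (50, 0, 0, 0, 0), (51, 0, 0, 0, 0), (50, 0, 0, 0, 0), (51, 0, 0, 0, 0), (149, 0, 0, 0, 0), (58, 0, 0, 0, 0), (153, 0, 0, 0, 0), (59, 0, 0, 0, 0), (153, 0, 0, 0, 0), (59, 0, 0, 0, 0), (58, 0, 0, 0, 0), (76, 0, 0, 0, 0), (77, 0, 0, 0, 0), (162, 0, 0, 0, 0), (77, 0, 0, 0, 0), (162, 0, 0, 0, 0), (76, 0, 0, 0, 0), (166, 0, 0, 0, 0), (84, 0, 0, 0, 0), (85, 0, 0, 0, 0), (84, 0, 0, 0, 0), (85, 0, 0, 0, 0), (166, 0, 0, 0, 0), (150, 0, 0, 0, 0), (52, 0, 0, 0, 0), (53, 0, 0, 0, 0), (52, 0, 0, 0, 0), (53, 0, 0, 0, 0), (150, 0, 0, 0, 0), (154, 0, 0, 0, 0), (60, 0, 0, 0, 0), (61, 0, 0, 0, 0), (60, 0, 0, 0, 0), (61, 0, 0, 0, 0), (154, 0, 0, 0, 0), (68, 0, 0, 0, 0), (69, 0, 0, 0, 0), (158, 0, 0, 0, 0), (69, 0, 0, 0, 0), (158, 0, 0, 0, 0), (68, 0, 0, 0, 0), (86, 0, 0, 0, 0), (167,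 0, 0, 0, 0), (87, 0, 0, 0, 0), (167, 0, 0, 0, 0), (87, 0, 0, 0, 0), (86, 0, 0, 0, 0), (151, 0, 0, 0, 0), (54, 0, 0, 0, 0), (55, 0, 0, 0, 0), (54, 0, 0, 0, 0), (55, 0, 0, 0, 0), (151, 0, 0, 0, 0), (155, 0, 0, 0, 0), (62, 0, 0, 0, 0), (63, 0, 0, 0, 0), (62, 0, 0, 0, 0), (63, 0, 0, 0, 0), (155, 0, 0, 0, 0), (159, 0, 0, 0, 0), (70, 0, 0, 0, 0), (71, 0, 0, 0, 0), (70, 0, 0, 0, 0), (71, 0, 0, 0, 0), (159, 0, 0, 0, 0), (78, 0, 0, 0, 0), (163, 0, 0, 0, 0), (79, 0, 0, 0, 0), (163, 0, 0, 0, 0), (79, 0, 0, 0, 0), (78, 0, 0, 0, 0)],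
  [(98, 0, 0, 0, 0), (99, 0, 0, 0, 0), (100, 0, 0, 0, 0), (99, 0, 0, 0, 0), (100, 0, 0, 0, 0), (98, 0, 0, 0, 0), (172, 0, 0, 0, 0), (108, 0, 0, 0, 0), (109, 0, 0, 0, 0), (108, 0, 0, 0, 0), (109, 0, 0, 0, 0), (172, 0, 0, 0, 0), (176, 0, 0, 0, 0), (116, 0, 0, 0, 0), (117, 0, 0, 0, 0), (116, 0, 0, 0, 0), (117, 0, 0, 0, 0), (176, 0, 0, 0, 0), (126, 0, 0, 0, 0), (127, 0, 0, 0, 0), (128, 0, 0, 0, 0), (127, 0, 0, 0, 0), (128, 0, 0, 0, 0), (126, 0, 0, 0, 0), (88, 0, 0, 0, 0), (89, 0, 0, 0, 0), (90, 0, 0, 0, 0), (89, 0, 0, 0, 0), (90, 0, 0, 0, 0), (88, 0, 0, 0, 0), (110, 0, 0, 0, 0), (173, 0, 0, 0, 0), (111, 0, 0, 0, 0), (173, 0, 0, 0, 0), (111, 0, 0, 0, 0), (110, 0, 0, 0, 0), (118, 0, 0, 0, 0), (119, 0, 0, 0, 0), (120, 0, 0, 0, 0), (119, 0, 0, 0, 0), (120, 0, 0, 0, 0), (118, 0, 0, 0, 0), (178, 0, 0, 0, 0), (129, 0, 0, 0, 0), (130, 0,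 0, 0, 0), (129, 0, 0, 0, 0), (130, 0, 0, 0, 0), (178, 0, 0, 0, 0), (168, 0, 0, 0, 0), (91, 0, 0, 0, 0), (92, 0, 0, 0, 0), (91, 0, 0, 0, 0), (92, 0, 0, 0, 0), (168, 0, 0, 0, 0), (101, 0, 0, 0, 0), (170, 0, 0, 0, 0), (102, 0, 0, 0, 0), (170, 0, 0, 0, 0), (102, 0, 0, 0, 0), (101, 0, 0, 0, 0), (121, 0, 0, 0, 0), (122, 0, 0, 0, 0), (177, 0, 0, 0, 0), (122, 0, 0, 0, 0), (177, 0, 0, 0, 0), (121, 0, 0, 0, 0), (179, 0, 0, 0, 0), (131, 0, 0, 0, 0), (132, 0, 0, 0, 0), (131, 0, 0, 0, 0), (132, 0, 0, 0, 0), (179, 0, 0, 0, 0), (169, 0, 0, 0, 0), (93, 0, 0, 0, 0), (94, 0, 0, 0, 0), (93, 0, 0, 0, 0), (94, 0, 0, 0, 0), (169, 0, 0, 0, 0), (103, 0, 0, 0, 0), (104, 0, 0, 0, 0), (105, 0, 0, 0, 0), (104, 0, 0, 0, 0), (105, 0, 0, 0, 0), (103, 0, 0, 0, 0), (112, 0, 0, 0, 0), (113, 0, 0, 0, 0), (174, 0, 0, 0, 0), (113, 0, 0, 0, 0), (174, 0, 0, 0, 0),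 (112, 0, 0, 0, 0), (133, 0, 0, 0, 0), (134, 0, 0, 0, 0), (135, 0, 0, 0, 0), (134, 0, 0, 0, 0), (135, 0, 0, 0, 0), (133, 0, 0, 0, 0), (95, 0, 0, 0, 0), (96, 0, 0, 0, 0), (97, 0, 0, 0, 0), (96, 0, 0, 0, 0), (97, 0, 0, 0, 0), (95, 0, 0, 0, 0), (171, 0, 0, 0, 0), (106, 0, 0, 0, 0), (107, 0, 0, 0, 0), (106, 0, 0, 0, 0), (107, 0, 0, 0, 0), (171, 0, 0, 0, 0), (175, 0, 0, 0, 0), (114, 0, 0, 0, 0), (115, 0, 0, 0, 0), (114, 0, 0, 0, 0), (115, 0, 0, 0, 0), (175, 0, 0, 0, 0), (123, 0, 0, 0, 0), (124, 0, 0, 0, 0), (125, 0, 0, 0, 0), (124, 0, 0, 0, 0), (125, 0, 0, 0, 0), (123, 0, 0, 0, 0)]]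

def m27_2 : Base := (0, 1, [(0, [0], [0, 5]), (0, [1], [1, 5]), (0, [2], [3, 4]), (4, [], [2])])

def l27_2 : Cov := [(432, 0, 1, [(0, [0], [0, 5]), (0, [1], [1, 5]), (0, [2], [3, 4]), (4, [], [2])]),
  (216, 0, 1, [(0, [0], [0, 5]), (0, [1], [1, 5]), (0, [2], [2, 4]), (4, [], [3])]),
  (216, 0, 1, [(0, [0], [0, 5]), (0, [1], [1, 5]), (0, [2], [2, 3]), (4, [], [4])]),
  (216, 0, 1, [(0, [0], [0, 5]), (0, [1], [2, 5]), (0, [2], [3, 4]), (4, [], [1])]),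
  (-216, 0, 1, [(0, [0], [0, 5]), (0, [1], [2, 5]), (0, [2], [1, 3]), (4, [], [4])]),
  (-216, 0, 1, [(0, [0], [0, 5]), (0, [1], [4, 5]), (0, [2], [2, 3]), (4, [], [1])]),
  (-432, 0, 1, [(0, [0], [0, 5]), (0, [1], [4, 5]), (0, [2], [1, 3]), (4, [], [2])]),
  (-216, 0, 1, [(0, [0], [0, 5]), (0, [1], [4, 5]), (0, [2], [1, 2]), (4, [], [3])]),
  (432, 0, 1, [(0, [0], [1, 5]), (0, [1], [0, 5]), (0, [2], [3, 4]), (4, [], [2])]),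
  (216, 0, 1, [(0, [0], [1, 5]), (0, [1], [0, 5]), (0, [2], [2, 4]), (4, [], [3])]),
  (216, 0, 1, [(0, [0], [1, 5]), (0, [1], [0, 5]), (0, [2], [2, 3]), (4, [], [4])]),
  (216, 0, 1, [(0, [0], [1, 5]), (0, [1], [2, 5]), (0, [2], [3, 4]), (4, [], [0])]),
  (-216, 0, 1, [(0, [0], [1, 5]), (0, [1], [2, 5]), (0, [2], [0, 4]), (4, [], [3])]),
  (-216, 0, 1, [(0, [0], [1, 5]), (0, [1], [3, 5]), (0, [2], [2, 4]), (4, [], [0])]),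
  (-432, 0, 1, [(0, [0], [1, 5]), (0, [1], [3, 5]), (0, [2], [0, 4]), (4, [], [2])]),
  (-216, 0, 1, [(0, [0], [1, 5]), (0, [1], [3, 5]), (0, [2], [0, 2]), (4, [], [4])]),
  (216, 0, 1, [(0, [0], [2, 5]), (0, [1], [0, 5]), (0, [2], [3, 4]), (4, [], [1])]),
  (-216, 0, 1, [(0, [0], [2, 5]), (0, [1], [0, 5]), (0, [2], [1, 3]), (4, [], [4])]),
  (216, 0, 1, [(0, [0], [2, 5]), (0, [1], [1, 5]), (0, [2], [3, 4]), (4, [], [0])]),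
  (-216, 0, 1, [(0, [0], [2, 5]), (0, [1], [1, 5]), (0, [2], [0, 4]), (4, [], [3])]),
  (-216, 0, 1, [(0, [0], [2, 5]), (0, [1], [3, 5]), (0, [2], [0, 4]), (4, [], [1])]),
  (216, 0, 1, [(0, [0], [2, 5]), (0, [1], [3, 5]), (0, [2], [0, 1]), (4, [], [4])]),
  (-216, 0, 1, [(0, [0], [2, 5]), (0, [1], [4, 5]), (0, [2], [1, 3]), (4, [], [0])]),
  (216, 0, 1, [(0, [0], [2, 5]), (0, [1], [4, 5]), (0, [2], [0, 1]), (4, [], [3])]),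
  (-216, 0, 1, [(0, [0], [3, 5]), (0, [1], [1, 5]), (0, [2], [2, 4]), (4, [], [0])]),
  (-432, 0, 1, [(0, [0], [3, 5]), (0, [1], [1, 5]), (0, [2], [0, 4]), (4, [], [2])]),
  (-216, 0, 1, [(0, [0], [3, 5]), (0, [1], [1, 5]), (0, [2], [0, 2]), (4, [], [4])]),
  (-216, 0, 1, [(0, [0], [3, 5]), (0, [1], [2, 5]), (0, [2], [0, 4]), (4, [], [1])]),
  (216, 0, 1, [(0, [0], [3, 5]), (0, [1], [2, 5]), (0, [2], [0, 1]), (4, [], [4])]),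
  (216, 0, 1, [(0, [0], [3, 5]), (0, [1], [4, 5]), (0, [2], [1, 2]), (4, [], [0])]),
  (216, 0, 1, [(0, [0], [3, 5]), (0, [1], [4, 5]), (0, [2], [0, 2]), (4, [], [1])]),
  (432, 0, 1, [(0, [0], [3, 5]), (0, [1], [4, 5]), (0, [2], [0, 1]), (4, [], [2])]),
  (-216, 0, 1, [(0, [0], [4, 5]), (0, [1], [0, 5]), (0, [2], [2, 3]), (4, [], [1])]),
  (-432, 0, 1, [(0, [0], [4, 5]), (0, [1], [0, 5]), (0, [2], [1, 3]), (4, [], [2])]),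
  (-216, 0, 1, [(0, [0], [4, 5]), (0, [1], [0, 5]), (0, [2], [1, 2]), (4, [], [3])]),
  (-216, 0, 1, [(0, [0], [4, 5]), (0, [1], [2, 5]), (0, [2], [1, 3]), (4, [], [0])]),
  (216, 0, 1, [(0, [0], [4, 5]), (0, [1], [2, 5]), (0, [2], [0, 1]), (4, [], [3])]),
  (216, 0, 1, [(0, [0], [4, 5]), (0, [1], [3, 5]), (0, [2], [1, 2]), (4, [], [0])]),
  (216, 0, 1, [(0, [0], [4, 5]), (0, [1], [3, 5]), (0, [2], [0, 2]), (4, [], [1])]),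
  (432, 0, 1, [(0, [0], [4, 5]), (0, [1], [3, 5]), (0, [2], [0, 1]), (4, [], [2])]),
  (-432, 0, 1, [(0, [1], [0, 5]), (0, [2], [1, 5]), (0, [0], [3, 4]), (4, [], [2])]),
  (-216, 0, 1, [(0, [1], [0, 5]), (0, [2], [1, 5]), (0, [0], [2, 4]), (4, [], [3])]),
  (-216, 0, 1, [(0, [1], [0, 5]), (0, [2], [1, 5]), (0, [0], [2, 3]), (4, [], [4])]),
  (-216, 0, 1, [(0, [1], [0, 5]), (0, [2], [2, 5]), (0, [0], [3, 4]), (4, [], [1])]),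
  (216, 0, 1, [(0, [1], [0, 5]), (0, [2], [2, 5]), (0, [0], [1, 3]), (4, [], [4])]),
  (216, 0, 1, [(0, [1], [0, 5]), (0, [2], [4, 5]), (0, [0], [2, 3]), (4, [], [1])]),
  (432, 0, 1, [(0, [1], [0, 5]), (0, [2], [4, 5]), (0, [0], [1, 3]), (4, [], [2])]),
  (216, 0, 1, [(0, [1], [0, 5]), (0, [2], [4, 5]), (0, [0], [1, 2]), (4, [], [3])]),
  (-432, 0, 1, [(0, [1], [1, 5]), (0, [2], [0, 5]), (0, [0], [3, 4]), (4, [], [2])]),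
  (-216, 0, 1, [(0, [1], [1, 5]), (0, [2], [0, 5]), (0, [0], [2, 4]), (4, [], [3])]),
  (-216, 0, 1, [(0, [1], [1, 5]), (0, [2], [0, 5]), (0, [0], [2, 3]), (4, [], [4])]),
  (-216, 0, 1, [(0, [1], [1, 5]), (0, [2], [2, 5]), (0, [0], [3, 4]), (4, [], [0])]),
  (216, 0, 1, [(0, [1], [1, 5]), (0, [2], [2, 5]), (0, [0], [0, 4]), (4, [], [3])]),
  (216, 0, 1, [(0, [1], [1, 5]), (0, [2], [3, 5]), (0, [0], [2, 4]), (4, [], [0])]),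
  (432, 0, 1, [(0, [1], [1, 5]), (0, [2], [3, 5]), (0, [0], [0, 4]), (4, [], [2])]),
  (216, 0, 1, [(0, [1], [1, 5]), (0, [2], [3, 5]), (0, [0], [0, 2]), (4, [], [4])]),
  (-216, 0, 1, [(0, [1], [2, 5]), (0, [2], [0, 5]), (0, [0], [3, 4]), (4, [], [1])]),
  (216, 0, 1, [(0, [1], [2, 5]), (0, [2], [0, 5]), (0, [0], [1, 3]), (4, [], [4])]),
  (-216, 0, 1, [(0, [1], [2, 5]), (0, [2], [1, 5]), (0, [0], [3, 4]), (4, [], [0])]),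
  (216, 0, 1, [(0, [1], [2, 5]), (0, [2], [1, 5]), (0, [0], [0, 4]), (4, [], [3])]),
  (216, 0, 1, [(0, [1], [2, 5]), (0, [2], [3, 5]), (0, [0], [0, 4]), (4, [], [1])]),
  (-216, 0, 1, [(0, [1], [2, 5]), (0, [2], [3, 5]), (0, [0], [0, 1]), (4, [], [4])]),
  (216, 0, 1, [(0, [1], [2, 5]), (0, [2], [4, 5]), (0, [0], [1, 3]), (4, [], [0])]),
  (-216, 0, 1, [(0, [1], [2, 5]), (0, [2], [4, 5]), (0, [0], [0, 1]), (4, [], [3])]),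
  (216, 0, 1, [(0, [1], [3, 5]), (0, [2], [1, 5]), (0, [0], [2, 4]), (4, [], [0])]),
  (432, 0, 1, [(0, [1], [3, 5]), (0, [2], [1, 5]), (0, [0], [0, 4]), (4, [], [2])]),
  (216, 0, 1, [(0, [1], [3, 5]), (0, [2], [1, 5]), (0, [0], [0, 2]), (4, [], [4])]),
  (216, 0, 1, [(0, [1], [3, 5]), (0, [2], [2, 5]), (0, [0], [0, 4]), (4, [], [1])]),
  (-216, 0, 1, [(0, [1], [3, 5]), (0, [2], [2, 5]), (0, [0], [0, 1]), (4, [], [4])]),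
  (-216, 0, 1, [(0, [1], [3, 5]), (0, [2], [4, 5]), (0, [0], [1, 2]), (4, [], [0])]),
  (-216, 0, 1, [(0, [1], [3, 5]), (0, [2], [4, 5]), (0, [0], [0, 2]), (4, [], [1])]),
  (-432, 0, 1, [(0, [1], [3, 5]), (0, [2], [4, 5]), (0, [0], [0, 1]), (4, [], [2])]),
  (216, 0, 1, [(0, [1], [4, 5]), (0, [2], [0, 5]), (0, [0], [2, 3]), (4, [], [1])]),
  (432, 0, 1, [(0, [1], [4, 5]), (0, [2], [0, 5]), (0, [0], [1, 3]), (4, [], [2])]),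
  (216, 0, 1, [(0, [1], [4, 5]), (0, [2], [0, 5]), (0, [0], [1, 2]), (4, [], [3])]),
  (216, 0, 1, [(0, [1], [4, 5]), (0, [2], [2, 5]), (0, [0], [1, 3]), (4, [], [0])]),
  (-216, 0, 1, [(0, [1], [4, 5]), (0, [2], [2, 5]), (0, [0], [0, 1]), (4, [], [3])]),
  (-216, 0, 1, [(0, [1], [4, 5]), (0, [2], [3, 5]), (0, [0], [1, 2]), (4, [], [0])]),
  (-216, 0, 1, [(0, [1], [4, 5]), (0, [2], [3, 5]), (0, [0], [0, 2]), (4, [], [1])]),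
  (-432, 0, 1, [(0, [1], [4, 5]), (0, [2], [3, 5]), (0, [0], [0, 1]), (4, [], [2])])]

def z27_2 : Cov := [(0, 0, 1, [(0, [0], [0, 5]), (0, [1], [2, 5]), (0, [2], [1, 4]), (4, [], [3])]),
  (0, 0, 1, [(0, [0], [0, 5]), (0, [1], [3, 5]), (0, [2], [2, 4]), (4, [], [1])]),
  (0, 0, 1, [(0, [0], [0, 5]), (0, [1], [3, 5]), (0, [2], [1, 4]), (4, [], [2])]),
  (0, 0, 1, [(0, [0], [0, 5]), (0, [1], [3, 5]), (0, [2], [1, 2]), (4, [], [4])]),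
  (0, 0, 1, [(0, [0], [1, 5]), (0, [1], [2, 5]), (0, [2], [0, 3]), (4, [], [4])]),
  (0, 0, 1, [(0, [0], [1, 5]), (0, [1], [4, 5]), (0, [2], [2, 3]), (4, [], [0])]),
  (0, 0, 1, [(0, [0], [1, 5]), (0, [1], [4, 5]), (0, [2], [0, 3]), (4, [], [2])]),
  (0, 0, 1, [(0, [0], [1, 5]), (0, [1], [4, 5]), (0, [2], [0, 2]), (4, [], [3])]),
  (0, 0, 1, [(0, [0], [2, 5]), (0, [1], [0, 5]), (0, [2], [1, 4]), (4, [], [3])]),
  (0, 0, 1, [(0, [0], [2, 5]), (0, [1], [1, 5]), (0, [2], [0, 3]), (4, [], [4])]),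
  (0, 0, 1, [(0, [0], [2, 5]), (0, [1], [3, 5]), (0, [2], [1, 4]), (4, [], [0])]),
  (0, 0, 1, [(0, [0], [2, 5]), (0, [1], [4, 5]), (0, [2], [0, 3]), (4, [], [1])]),
  (0, 0, 1, [(0, [0], [3, 5]), (0, [1], [0, 5]), (0, [2], [2, 4]), (4, [], [1])]),
  (0, 0, 1, [(0, [0], [3, 5]), (0, [1], [0, 5]), (0, [2], [1, 4]), (4, [], [2])]),
  (0, 0, 1, [(0, [0], [3, 5]), (0, [1], [0, 5]), (0, [2], [1, 2]), (4, [], [4])]),
  (0, 0, 1, [(0, [0], [3, 5]), (0, [1], [2, 5]), (0, [2], [1, 4]), (4, [], [0])]),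
  (0, 0, 1, [(0, [0], [4, 5]), (0, [1], [1, 5]), (0, [2], [2, 3]), (4, [], [0])]),
  (0, 0, 1, [(0, [0], [4, 5]), (0, [1], [1, 5]), (0, [2], [0, 3]), (4, [], [2])]),
  (0, 0, 1, [(0, [0], [4, 5]), (0, [1], [1, 5]), (0, [2], [0, 2]), (4, [], [3])]),
  (0, 0, 1, [(0, [0], [4, 5]), (0, [1], [2, 5]), (0, [2], [0, 3]), (4, [], [1])]),
  (0, 0, 1, [(0, [0], [0, 5]), (0, [2], [1, 5]), (0, [1], [3, 4]), (4, [], [2])]),
  (0, 0, 1, [(0, [0], [0, 5]), (0, [2], [1, 5]), (0, [1], [2, 4]), (4, [], [3])]),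
  (0, 0, 1, [(0, [0], [0, 5]), (0, [2], [1, 5]), (0, [1], [2, 3]), (4, [], [4])]),
  (0, 0, 1, [(0, [0], [0, 5]), (0, [2], [2, 5]), (0, [1], [3, 4]), (4, [], [1])]),
  (0, 0, 1, [(0, [0], [0, 5]), (0, [2], [2, 5]), (0, [1], [1, 4]), (4, [], [3])]),
  (0, 0, 1, [(0, [0], [0, 5]), (0, [2], [2, 5]), (0, [1], [1, 3]), (4, [], [4])]),
  (0, 0, 1, [(0, [0], [0, 5]), (0, [2], [3, 5]), (0, [1], [2, 4]), (4, [], [1])]),
  (0, 0, 1, [(0, [0], [0, 5]), (0, [2], [3, 5]), (0, [1], [1, 4]), (4, [], [2])]),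
  (0, 0, 1, [(0, [0], [0, 5]), (0, [2], [3, 5]), (0, [1], [1, 2]), (4, [], [4])]),
  (0, 0, 1, [(0, [0], [0, 5]), (0, [2], [4, 5]), (0, [1], [2, 3]), (4, [], [1])]),
  (0, 0, 1, [(0, [0], [0, 5]), (0, [2], [4, 5]), (0, [1], [1, 3]), (4, [], [2])]),
  (0, 0, 1, [(0, [0], [0, 5]), (0, [2], [4, 5]), (0, [1], [1, 2]), (4, [], [3])]),
  (0, 0, 1, [(0, [0], [1, 5]), (0, [2], [0, 5]), (0, [1], [3, 4]), (4, [], [2])]),
  (0, 0, 1, [(0, [0], [1, 5]), (0, [2], [0, 5]), (0, [1], [2, 4]), (4, [], [3])]),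
  (0, 0, 1, [(0, [0], [1, 5]), (0, [2], [0, 5]), (0, [1], [2, 3]), (4, [], [4])]),
  (0, 0, 1, [(0, [0], [1, 5]), (0, [2], [2, 5]), (0, [1], [3, 4]), (4, [], [0])]),
  (0, 0, 1, [(0, [0], [1, 5]), (0, [2], [2, 5]), (0, [1], [0, 4]), (4, [], [3])]),
  (0, 0, 1, [(0, [0], [1, 5]), (0, [2], [2, 5]), (0, [1], [0, 3]), (4, [], [4])]),
  (0, 0, 1, [(0, [0], [1, 5]), (0, [2], [3, 5]), (0, [1], [2, 4]), (4, [], [0])]),
  (0, 0, 1, [(0, [0], [1, 5]), (0, [2], [3, 5]), (0, [1], [0, 4]), (4, [], [2])]),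
  (0, 0, 1, [(0, [0], [1, 5]), (0, [2], [3, 5]), (0, [1], [0, 2]), (4, [], [4])]),
  (0, 0, 1, [(0, [0], [1, 5]), (0, [2], [4, 5]), (0, [1], [2, 3]), (4, [], [0])]),
  (0, 0, 1, [(0, [0], [1, 5]), (0, [2], [4, 5]), (0, [1], [0, 3]), (4, [], [2])]),
  (0, 0, 1, [(0, [0], [1, 5]), (0, [2], [4, 5]), (0, [1], [0, 2]), (4, [], [3])]),
  (0, 0, 1, [(0, [0], [2, 5]), (0, [2], [0, 5]), (0, [1], [3, 4]), (4, [], [1])]),
  (0, 0, 1, [(0, [0], [2, 5]), (0, [2], [0, 5]), (0, [1], [1, 4]), (4, [], [3])]),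
  (0, 0, 1, [(0, [0], [2, 5]), (0, [2], [0, 5]), (0, [1], [1, 3]), (4, [], [4])]),
  (0, 0, 1, [(0, [0], [2, 5]), (0, [2], [1, 5]), (0, [1], [3, 4]), (4, [], [0])]),
  (0, 0, 1, [(0, [0], [2, 5]), (0, [2], [1, 5]), (0, [1], [0, 4]), (4, [], [3])]),
  (0, 0, 1, [(0, [0], [2, 5]), (0, [2], [1, 5]), (0, [1], [0, 3]), (4, [], [4])]),
  (0, 0, 1, [(0, [0], [2, 5]), (0, [2], [3, 5]), (0, [1], [1, 4]), (4, [], [0])]),
  (0, 0, 1, [(0, [0], [2, 5]), (0, [2], [3, 5]), (0, [1], [0, 4]), (4, [], [1])]),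
  (0, 0, 1, [(0, [0], [2, 5]), (0, [2], [3, 5]), (0, [1], [0, 1]), (4, [], [4])]),
  (0, 0, 1, [(0, [0], [2, 5]), (0, [2], [4, 5]), (0, [1], [1, 3]), (4, [], [0])]),
  (0, 0, 1, [(0, [0], [2, 5]), (0, [2], [4, 5]), (0, [1], [0, 3]), (4, [], [1])]),
  (0, 0, 1, [(0, [0], [2, 5]), (0, [2], [4, 5]), (0, [1], [0, 1]), (4, [], [3])]),
  (0, 0, 1, [(0, [0], [3, 5]), (0, [2], [0, 5]), (0, [1], [2, 4]), (4, [], [1])]),
  (0, 0, 1, [(0, [0], [3, 5]), (0, [2], [0, 5]), (0, [1], [1, 4]), (4, [], [2])]),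
  (0, 0, 1, [(0, [0], [3, 5]), (0, [2], [0, 5]), (0, [1], [1, 2]), (4, [], [4])]),
  (0, 0, 1, [(0, [0], [3, 5]), (0, [2], [1, 5]), (0, [1], [2, 4]), (4, [], [0])]),
  (0, 0, 1, [(0, [0], [3, 5]), (0, [2], [1, 5]), (0, [1], [0, 4]), (4, [], [2])]),
  (0, 0, 1, [(0, [0], [3, 5]), (0, [2], [1, 5]), (0, [1], [0, 2]), (4, [], [4])]),
  (0, 0, 1, [(0, [0], [3, 5]), (0, [2], [2, 5]), (0, [1], [1, 4]), (4, [], [0])]),
  (0, 0, 1, [(0, [0], [3, 5]), (0, [2], [2, 5]), (0, [1], [0, 4]), (4, [], [1])]),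
  (0, 0, 1, [(0, [0], [3, 5]), (0, [2], [2, 5]), (0, [1], [0, 1]), (4, [], [4])]),
  (0, 0, 1, [(0, [0], [3, 5]), (0, [2], [4, 5]), (0, [1], [1, 2]), (4, [], [0])]),
  (0, 0, 1, [(0, [0], [3, 5]), (0, [2], [4, 5]), (0, [1], [0, 2]), (4, [], [1])]),
  (0, 0, 1, [(0, [0], [3, 5]), (0, [2], [4, 5]), (0, [1], [0, 1]), (4, [], [2])]),
  (0, 0, 1, [(0, [0], [4, 5]), (0, [2], [0, 5]), (0, [1], [2, 3]), (4, [], [1])]),
  (0, 0, 1, [(0, [0], [4, 5]), (0, [2], [0, 5]), (0, [1], [1, 3]), (4, [], [2])]),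
  (0, 0, 1, [(0, [0], [4, 5]), (0, [2], [0, 5]), (0, [1], [1, 2]), (4, [], [3])]),
  (0, 0, 1, [(0, [0], [4, 5]), (0, [2], [1, 5]), (0, [1], [2, 3]), (4, [], [0])]),
  (0, 0, 1, [(0, [0], [4, 5]), (0, [2], [1, 5]), (0, [1], [0, 3]), (4, [], [2])]),
  (0, 0, 1, [(0, [0], [4, 5]), (0, [2], [1, 5]), (0, [1], [0, 2]), (4, [], [3])]),
  (0, 0, 1, [(0, [0], [4, 5]), (0, [2], [2, 5]), (0, [1], [1, 3]), (4, [], [0])]),
  (0, 0, 1, [(0, [0], [4, 5]), (0, [2], [2, 5]), (0, [1], [0, 3]), (4, [], [1])]),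
  (0, 0, 1, [(0, [0], [4, 5]), (0, [2], [2, 5]), (0, [1], [0, 1]), (4, [], [3])]),
  (0, 0, 1, [(0, [0], [4, 5]), (0, [2], [3, 5]), (0, [1], [1, 2]), (4, [], [0])]),
  (0, 0, 1, [(0, [0], [4, 5]), (0, [2], [3, 5]), (0, [1], [0, 2]), (4, [], [1])]),
  (0, 0, 1, [(0, [0], [4, 5]), (0, [2], [3, 5]), (0, [1], [0, 1]), (4, [], [2])]),
  (0, 0, 1, [(0, [1], [0, 5]), (0, [2], [2, 5]), (0, [0], [1, 4]), (4, [], [3])]),
  (0, 0, 1, [(0, [1], [0, 5]), (0, [2], [3, 5]), (0, [0], [2, 4]), (4, [], [1])]),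
  (0, 0, 1, [(0, [1], [0, 5]), (0, [2], [3, 5]), (0, [0], [1, 4]), (4, [], [2])]),
  (0, 0, 1, [(0, [1], [0, 5]), (0, [2], [3, 5]), (0, [0], [1, 2]), (4, [], [4])]),
  (0, 0, 1, [(0, [1], [1, 5]), (0, [2], [2, 5]), (0, [0], [0, 3]), (4, [], [4])]),
  (0, 0, 1, [(0, [1], [1, 5]), (0, [2], [4, 5]), (0, [0], [2, 3]), (4, [], [0])]),
  (0, 0, 1, [(0, [1], [1, 5]), (0, [2], [4, 5]), (0, [0], [0, 3]), (4, [], [2])]),
  (0, 0, 1, [(0, [1], [1, 5]), (0, [2], [4, 5]), (0, [0], [0, 2]), (4, [], [3])]),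
  (0, 0, 1, [(0, [1], [2, 5]), (0, [2], [0, 5]), (0, [0], [1, 4]), (4, [], [3])]),
  (0, 0, 1, [(0, [1], [2, 5]), (0, [2], [1, 5]), (0, [0], [0, 3]), (4, [], [4])]),
  (0, 0, 1, [(0, [1], [2, 5]), (0, [2], [3, 5]), (0, [0], [1, 4]), (4, [], [0])]),
  (0, 0, 1, [(0, [1], [2, 5]), (0, [2], [4, 5]), (0, [0], [0, 3]), (4, [], [1])]),
  (0, 0, 1, [(0, [1], [3, 5]), (0, [2], [0, 5]), (0, [0], [2, 4]), (4, [], [1])]),
  (0, 0, 1, [(0, [1], [3, 5]), (0, [2], [0, 5]), (0, [0], [1, 4]), (4, [], [2])]),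
  (0, 0, 1, [(0, [1], [3, 5]), (0, [2], [0, 5]), (0, [0], [1, 2]), (4, [], [4])]),
  (0, 0, 1, [(0, [1], [3, 5]), (0, [2], [2, 5]), (0, [0], [1, 4]), (4, [], [0])]),
  (0, 0, 1, [(0, [1], [4, 5]), (0, [2], [1, 5]), (0, [0], [2, 3]), (4, [], [0])]),
  (0, 0, 1, [(0, [1], [4, 5]), (0, [2], [1, 5]), (0, [0], [0, 3]), (4, [], [2])]),
  (0, 0, 1, [(0, [1], [4, 5]), (0, [2], [1, 5]), (0, [0], [0, 2]), (4, [], [3])]),
  (0, 0, 1, [(0, [1], [4, 5]), (0, [2], [2, 5]), (0, [0], [0, 3]), (4, [], [1])])]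

def w27_2 : List (List Wit) := [[(0, 0, 0, 0, 0), (0, 0, 0, 0, 0), (1, 0, 0, 0, 0), (1, 0, 0, 0, 0), (2, 0, 0, 0, 0), (2, 0, 0, 0, 0), (3, 0, 0, 0, 0), (3, 0, 0, 0, 0), (80, 0, 0, 0, 0), (80, 0, 0, 0, 0), (4, 0, 0, 0, 0), (4, 0, 0, 0, 0), (81, 0, 0, 0, 0), (81, 0, 0, 0, 0), (82, 0, 0, 0, 0), (82, 0, 0, 0, 0), (83, 0, 0, 0, 0), (83, 0, 0, 0, 0), (5, 0, 0, 0, 0), (5, 0, 0, 0, 0), (6, 0, 0, 0, 0), (6, 0, 0, 0, 0), (7, 0, 0, 0, 0), (7, 0, 0, 0, 0), (8, 0, 0, 0, 0), (8, 0, 0, 0, 0), (9, 0, 0, 0, 0), (9, 0, 0, 0, 0), (10, 0, 0, 0, 0), (10, 0, 0, 0, 0), (11, 0, 0, 0, 0), (11, 0, 0, 0, 0), (12, 0, 0, 0, 0), (12, 0, 0, 0, 0), (84, 0, 0, 0, 0), (84, 0, 0, 0, 0), (13, 0, 0, 0, 0), (13, 0, 0, 0, 0), (14, 0, 0, 0, 0), (14, 0, 0, 0, 0), (15, 0, 0, 0, 0), (15, 0, 0, 0, 0), (85, 0, 0, 0, 0), (85, 0, 0, 0, 0), (86, 0, 0, 0, 0), (86, 0, 0, 0,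 0), (87, 0, 0, 0, 0), (87, 0, 0, 0, 0), (16, 0, 0, 0, 0), (16, 0, 0, 0, 0), (88, 0, 0, 0, 0), (88, 0, 0, 0, 0), (17, 0, 0, 0, 0), (17, 0, 0, 0, 0), (18, 0, 0, 0, 0), (18, 0, 0, 0, 0), (19, 0, 0, 0, 0), (19, 0, 0, 0, 0), (89, 0, 0, 0, 0), (89, 0, 0, 0, 0), (90, 0, 0, 0, 0), (90, 0, 0, 0, 0), (20, 0, 0, 0, 0), (20, 0, 0, 0, 0), (21, 0, 0, 0, 0), (21, 0, 0, 0, 0), (22, 0, 0, 0, 0), (22, 0, 0, 0, 0), (91, 0, 0, 0, 0), (91, 0, 0, 0, 0), (23, 0, 0, 0, 0), (23, 0, 0, 0, 0), (92, 0, 0, 0, 0), (92, 0, 0, 0, 0), (93, 0, 0, 0, 0), (93, 0, 0, 0, 0), (94, 0, 0, 0, 0), (94, 0, 0, 0, 0), (24, 0, 0, 0, 0), (24, 0, 0, 0, 0), (25, 0, 0, 0, 0), (25, 0, 0, 0, 0), (26, 0, 0, 0, 0), (26, 0, 0, 0, 0), (95, 0, 0, 0, 0), (95, 0, 0, 0, 0), (27, 0, 0, 0, 0), (27, 0, 0, 0, 0), (28, 0, 0, 0, 0), (28, 0, 0, 0, 0), (29, 0, 0, 0, 0), (29, 0, 0, 0, 0), (30,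 0, 0, 0, 0), (30, 0, 0, 0, 0), (31, 0, 0, 0, 0), (31, 0, 0, 0, 0), (32, 0, 0, 0, 0), (32, 0, 0, 0, 0), (33, 0, 0, 0, 0), (33, 0, 0, 0, 0), (34, 0, 0, 0, 0), (34, 0, 0, 0, 0), (96, 0, 0, 0, 0), (96, 0, 0, 0, 0), (97, 0, 0, 0, 0), (97, 0, 0, 0, 0), (98, 0, 0, 0, 0), (98, 0, 0, 0, 0), (35, 0, 0, 0, 0), (35, 0, 0, 0, 0), (99, 0, 0, 0, 0), (99, 0, 0, 0, 0), (36, 0, 0, 0, 0), (36, 0, 0, 0, 0), (37, 0, 0, 0, 0), (37, 0, 0, 0, 0), (38, 0, 0, 0, 0), (38, 0, 0, 0, 0), (39, 0, 0, 0, 0), (39, 0, 0, 0, 0)],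
  [(100, 0, 0, 0, 0), (100, 0, 0, 0, 0), (101, 0, 0, 0, 0), (101, 0, 0, 0, 0), (102, 0, 0, 0, 0), (102, 0, 0, 0, 0), (103, 0, 0, 0, 0), (103, 0, 0, 0, 0), (104, 0, 0, 0, 0), (104, 0, 0, 0, 0), (105, 0, 0, 0, 0), (105, 0, 0, 0, 0), (106, 0, 0, 0, 0), (106, 0, 0, 0, 0), (107, 0, 0, 0, 0), (107, 0, 0, 0, 0), (108, 0, 0, 0, 0), (108, 0, 0, 0, 0), (109, 0, 0, 0, 0), (109, 0, 0, 0, 0), (110, 0, 0, 0, 0), (110, 0, 0, 0, 0), (111, 0, 0, 0, 0), (111, 0, 0, 0, 0), (112, 0, 0, 0, 0), (112, 0, 0, 0, 0), (113, 0, 0, 0, 0), (113, 0, 0, 0, 0), (114, 0, 0, 0, 0), (114, 0, 0, 0, 0), (115, 0, 0, 0, 0), (115, 0, 0, 0, 0), (116, 0, 0, 0, 0), (116, 0, 0, 0, 0), (117, 0, 0, 0, 0), (117, 0, 0, 0, 0), (118, 0, 0, 0, 0), (118, 0, 0, 0, 0), (119, 0, 0, 0, 0), (119, 0, 0, 0, 0), (120, 0, 0, 0, 0), (120, 0, 0, 0, 0), (121, 0, 0, 0, 0), (121, 0, 0, 0, 0),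 (122, 0, 0, 0, 0), (122, 0, 0, 0, 0), (123, 0, 0, 0, 0), (123, 0, 0, 0, 0), (124, 0, 0, 0, 0), (124, 0, 0, 0, 0), (125, 0, 0, 0, 0), (125, 0, 0, 0, 0), (126, 0, 0, 0, 0), (126, 0, 0, 0, 0), (127, 0, 0, 0, 0), (127, 0, 0, 0, 0), (128, 0, 0, 0, 0), (128, 0, 0, 0, 0), (129, 0, 0, 0, 0), (129, 0, 0, 0, 0), (130, 0, 0, 0, 0), (130, 0, 0, 0, 0), (131, 0, 0, 0, 0), (131, 0, 0, 0, 0), (132, 0, 0, 0, 0), (132, 0, 0, 0, 0), (133, 0, 0, 0, 0), (133, 0, 0, 0, 0), (134, 0, 0, 0, 0), (134, 0, 0, 0, 0), (135, 0, 0, 0, 0), (135, 0, 0, 0, 0), (136, 0, 0, 0, 0), (136, 0, 0, 0, 0), (137, 0, 0, 0, 0), (137, 0, 0, 0, 0), (138, 0, 0, 0, 0), (138, 0, 0, 0, 0), (139, 0, 0, 0, 0), (139, 0, 0, 0, 0), (140, 0, 0, 0, 0), (140, 0, 0, 0, 0), (141, 0, 0, 0, 0), (141, 0, 0, 0, 0), (142, 0, 0, 0, 0), (142, 0, 0, 0, 0), (143, 0, 0, 0, 0), (143, 0, 0, 0, 0),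 (144, 0, 0, 0, 0), (144, 0, 0, 0, 0), (145, 0, 0, 0, 0), (145, 0, 0, 0, 0), (146, 0, 0, 0, 0), (146, 0, 0, 0, 0), (147, 0, 0, 0, 0), (147, 0, 0, 0, 0), (148, 0, 0, 0, 0), (148, 0, 0, 0, 0), (149, 0, 0, 0, 0), (149, 0, 0, 0, 0), (150, 0, 0, 0, 0), (150, 0, 0, 0, 0), (151, 0, 0, 0, 0), (151, 0, 0, 0, 0), (152, 0, 0, 0, 0), (152, 0, 0, 0, 0), (153, 0, 0, 0, 0), (153, 0, 0, 0, 0), (154, 0, 0, 0, 0), (154, 0, 0, 0, 0), (155, 0, 0, 0, 0), (155, 0, 0, 0, 0), (156, 0, 0, 0, 0), (156, 0, 0, 0, 0), (157, 0, 0, 0, 0), (157, 0, 0, 0, 0), (158, 0, 0, 0, 0), (158, 0, 0, 0, 0), (159, 0, 0, 0, 0), (159, 0, 0, 0, 0)],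
  [(8, 0, 0, 0, 0), (8, 0, 0, 0, 0), (9, 0, 0, 0, 0), (9, 0, 0, 0, 0), (10, 0, 0, 0, 0), (10, 0, 0, 0, 0), (16, 0, 0, 0, 0), (16, 0, 0, 0, 0), (88, 0, 0, 0, 0), (88, 0, 0, 0, 0), (17, 0, 0, 0, 0), (17, 0, 0, 0, 0), (92, 0, 0, 0, 0), (92, 0, 0, 0, 0), (93, 0, 0, 0, 0), (93, 0, 0, 0, 0), (94, 0, 0, 0, 0), (94, 0, 0, 0, 0), (32, 0, 0, 0, 0), (32, 0, 0, 0, 0), (33, 0, 0, 0, 0), (33, 0, 0, 0, 0), (34, 0, 0, 0, 0), (34, 0, 0, 0, 0), (0, 0, 0, 0, 0), (0, 0, 0, 0, 0), (1, 0, 0, 0, 0), (1, 0, 0, 0, 0), (2, 0, 0, 0, 0), (2, 0, 0, 0, 0), (18, 0, 0, 0, 0), (18, 0, 0, 0, 0), (19, 0, 0, 0, 0), (19, 0, 0, 0, 0), (89, 0, 0, 0, 0), (89, 0, 0, 0, 0), (24, 0, 0, 0, 0), (24, 0, 0, 0, 0), (25, 0, 0, 0, 0), (25, 0, 0, 0, 0), (26, 0, 0, 0, 0), (26, 0, 0, 0, 0), (96, 0, 0, 0, 0), (96, 0, 0, 0, 0), (97, 0, 0, 0, 0), (97, 0, 0, 0, 0), (98, 0, 0, 0, 0),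 (98, 0, 0, 0, 0), (3, 0, 0, 0, 0), (3, 0, 0, 0, 0), (80, 0, 0, 0, 0), (80, 0, 0, 0, 0), (4, 0, 0, 0, 0), (4, 0, 0, 0, 0), (11, 0, 0, 0, 0), (11, 0, 0, 0, 0), (12, 0, 0, 0, 0), (12, 0, 0, 0, 0), (84, 0, 0, 0, 0), (84, 0, 0, 0, 0), (95, 0, 0, 0, 0), (95, 0, 0, 0, 0), (27, 0, 0, 0, 0), (27, 0, 0, 0, 0), (28, 0, 0, 0, 0), (28, 0, 0, 0, 0), (35, 0, 0, 0, 0), (35, 0, 0, 0, 0), (99, 0, 0, 0, 0), (99, 0, 0, 0, 0), (36, 0, 0, 0, 0), (36, 0, 0, 0, 0), (81, 0, 0, 0, 0), (81, 0, 0, 0, 0), (82, 0, 0, 0, 0), (82, 0, 0, 0, 0), (83, 0, 0, 0, 0), (83, 0, 0, 0, 0), (13, 0, 0, 0, 0), (13, 0, 0, 0, 0), (14, 0, 0, 0, 0), (14, 0, 0, 0, 0), (15, 0, 0, 0, 0), (15, 0, 0, 0, 0), (90, 0, 0, 0, 0), (90, 0, 0, 0, 0), (20, 0, 0, 0, 0), (20, 0, 0, 0, 0), (21, 0, 0, 0, 0), (21, 0, 0, 0, 0), (37, 0, 0, 0, 0), (37, 0, 0, 0, 0), (38, 0, 0, 0, 0), (38, 0, 0, 0,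 0), (39, 0, 0, 0, 0), (39, 0, 0, 0, 0), (5, 0, 0, 0, 0), (5, 0, 0, 0, 0), (6, 0, 0, 0, 0), (6, 0, 0, 0, 0), (7, 0, 0, 0, 0), (7, 0, 0, 0, 0), (85, 0, 0, 0, 0), (85, 0, 0, 0, 0), (86, 0, 0, 0, 0), (86, 0, 0, 0, 0), (87, 0, 0, 0, 0), (87, 0, 0, 0, 0), (22, 0, 0, 0, 0), (22, 0, 0, 0, 0), (91, 0, 0, 0, 0), (91, 0, 0, 0, 0), (23, 0, 0, 0, 0), (23, 0, 0, 0, 0), (29, 0, 0, 0, 0), (29, 0, 0, 0, 0), (30, 0, 0, 0, 0), (30, 0, 0, 0, 0), (31, 0, 0, 0, 0), (31, 0, 0, 0, 0)],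
  [(40, 0, 0, 0, 0), (40, 0, 0, 0, 0), (41, 0, 0, 0, 0), (41, 0, 0, 0, 0), (42, 0, 0, 0, 0), (42, 0, 0, 0, 0), (43, 0, 0, 0, 0), (43, 0, 0, 0, 0), (160, 0, 0, 0, 0), (160, 0, 0, 0, 0), (44, 0, 0, 0, 0), (44, 0, 0, 0, 0), (161, 0, 0, 0, 0), (161, 0, 0, 0, 0), (162, 0, 0, 0, 0), (162, 0, 0, 0, 0), (163, 0, 0, 0, 0), (163, 0, 0, 0, 0), (45, 0, 0, 0, 0), (45, 0, 0, 0, 0), (46, 0, 0, 0, 0), (46, 0, 0, 0, 0), (47, 0, 0, 0, 0), (47, 0, 0, 0, 0), (48, 0, 0, 0, 0), (48, 0, 0, 0, 0), (49, 0, 0, 0, 0), (49, 0, 0, 0, 0), (50, 0, 0, 0, 0), (50, 0, 0, 0, 0), (51, 0, 0, 0, 0), (51, 0, 0, 0, 0), (52, 0, 0, 0, 0), (52, 0, 0, 0, 0), (164, 0, 0, 0, 0), (164, 0, 0, 0, 0), (53, 0, 0, 0, 0), (53, 0, 0, 0, 0), (54, 0, 0, 0, 0), (54, 0, 0, 0, 0), (55, 0, 0, 0, 0), (55, 0, 0, 0, 0), (165, 0, 0, 0, 0), (165, 0, 0, 0, 0), (166, 0, 0, 0, 0), (166, 0, 0,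 0, 0), (167, 0, 0, 0, 0), (167, 0, 0, 0, 0), (56, 0, 0, 0, 0), (56, 0, 0, 0, 0), (168, 0, 0, 0, 0), (168, 0, 0, 0, 0), (57, 0, 0, 0, 0), (57, 0, 0, 0, 0), (58, 0, 0, 0, 0), (58, 0, 0, 0, 0), (59, 0, 0, 0, 0), (59, 0, 0, 0, 0), (169, 0, 0, 0, 0), (169, 0, 0, 0, 0), (170, 0, 0, 0, 0), (170, 0, 0, 0, 0), (60, 0, 0, 0, 0), (60, 0, 0, 0, 0), (61, 0, 0, 0, 0), (61, 0, 0, 0, 0), (62, 0, 0, 0, 0), (62, 0, 0, 0, 0), (171, 0, 0, 0, 0), (171, 0, 0, 0, 0), (63, 0, 0, 0, 0), (63, 0, 0, 0, 0), (172, 0, 0, 0, 0), (172, 0, 0, 0, 0), (173, 0, 0, 0, 0), (173, 0, 0, 0, 0), (174, 0, 0, 0, 0), (174, 0, 0, 0, 0), (64, 0, 0, 0, 0), (64, 0, 0, 0, 0), (65, 0, 0, 0, 0), (65, 0, 0, 0, 0), (66, 0, 0, 0, 0), (66, 0, 0, 0, 0), (175, 0, 0, 0, 0), (175, 0, 0, 0, 0), (67, 0, 0, 0, 0), (67, 0, 0, 0, 0), (68, 0, 0, 0, 0), (68, 0, 0, 0, 0), (69, 0, 0, 0, 0), (69,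 0, 0, 0, 0), (70, 0, 0, 0, 0), (70, 0, 0, 0, 0), (71, 0, 0, 0, 0), (71, 0, 0, 0, 0), (72, 0, 0, 0, 0), (72, 0, 0, 0, 0), (73, 0, 0, 0, 0), (73, 0, 0, 0, 0), (74, 0, 0, 0, 0), (74, 0, 0, 0, 0), (176, 0, 0, 0, 0), (176, 0, 0, 0, 0), (177, 0, 0, 0, 0), (177, 0, 0, 0, 0), (178, 0, 0, 0, 0), (178, 0, 0, 0, 0), (75, 0, 0, 0, 0), (75, 0, 0, 0, 0), (179, 0, 0, 0, 0), (179, 0, 0, 0, 0), (76, 0, 0, 0, 0), (76, 0, 0, 0, 0), (77, 0, 0, 0, 0), (77, 0, 0, 0, 0), (78, 0, 0, 0, 0), (78, 0, 0, 0, 0), (79, 0, 0, 0, 0), (79, 0, 0, 0, 0)],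
  [(112, 0, 0, 0, 0), (112, 0, 0, 0, 0), (113, 0, 0, 0, 0), (113, 0, 0, 0, 0), (114, 0, 0, 0, 0), (114, 0, 0, 0, 0), (124, 0, 0, 0, 0), (124, 0, 0, 0, 0), (125, 0, 0, 0, 0), (125, 0, 0, 0, 0), (126, 0, 0, 0, 0), (126, 0, 0, 0, 0), (136, 0, 0, 0, 0), (136, 0, 0, 0, 0), (137, 0, 0, 0, 0), (137, 0, 0, 0, 0), (138, 0, 0, 0, 0), (138, 0, 0, 0, 0), (148, 0, 0, 0, 0), (148, 0, 0, 0, 0), (149, 0, 0, 0, 0), (149, 0, 0, 0, 0), (150, 0, 0, 0, 0), (150, 0, 0, 0, 0), (100, 0, 0, 0, 0), (100, 0, 0, 0, 0), (101, 0, 0, 0, 0), (101, 0, 0, 0, 0), (102, 0, 0, 0, 0), (102, 0, 0, 0, 0), (127, 0, 0, 0, 0), (127, 0, 0, 0, 0), (128, 0, 0, 0, 0), (128, 0, 0, 0, 0), (129, 0, 0, 0, 0), (129, 0, 0, 0, 0), (139, 0, 0, 0, 0), (139, 0, 0, 0, 0), (140, 0, 0, 0, 0), (140, 0, 0, 0, 0), (141, 0, 0, 0, 0), (141, 0, 0, 0, 0), (151, 0, 0, 0, 0), (151, 0, 0, 0, 0),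 (152, 0, 0, 0, 0), (152, 0, 0, 0, 0), (153, 0, 0, 0, 0), (153, 0, 0, 0, 0), (103, 0, 0, 0, 0), (103, 0, 0, 0, 0), (104, 0, 0, 0, 0), (104, 0, 0, 0, 0), (105, 0, 0, 0, 0), (105, 0, 0, 0, 0), (115, 0, 0, 0, 0), (115, 0, 0, 0, 0), (116, 0, 0, 0, 0), (116, 0, 0, 0, 0), (117, 0, 0, 0, 0), (117, 0, 0, 0, 0), (142, 0, 0, 0, 0), (142, 0, 0, 0, 0), (143, 0, 0, 0, 0), (143, 0, 0, 0, 0), (144, 0, 0, 0, 0), (144, 0, 0, 0, 0), (154, 0, 0, 0, 0), (154, 0, 0, 0, 0), (155, 0, 0, 0, 0), (155, 0, 0, 0, 0), (156, 0, 0, 0, 0), (156, 0, 0, 0, 0), (106, 0, 0, 0, 0), (106, 0, 0, 0, 0), (107, 0, 0, 0, 0), (107, 0, 0, 0, 0), (108, 0, 0, 0, 0), (108, 0, 0, 0, 0), (118, 0, 0, 0, 0), (118, 0, 0, 0, 0), (119, 0, 0, 0, 0), (119, 0, 0, 0, 0), (120, 0, 0, 0, 0), (120, 0, 0, 0, 0), (130, 0, 0, 0, 0), (130, 0, 0, 0, 0), (131, 0, 0, 0, 0), (131, 0, 0, 0, 0),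 (132, 0, 0, 0, 0), (132, 0, 0, 0, 0), (157, 0, 0, 0, 0), (157, 0, 0, 0, 0), (158, 0, 0, 0, 0), (158, 0, 0, 0, 0), (159, 0, 0, 0, 0), (159, 0, 0, 0, 0), (109, 0, 0, 0, 0), (109, 0, 0, 0, 0), (110, 0, 0, 0, 0), (110, 0, 0, 0, 0), (111, 0, 0, 0, 0), (111, 0, 0, 0, 0), (121, 0, 0, 0, 0), (121, 0, 0, 0, 0), (122, 0, 0, 0, 0), (122, 0, 0, 0, 0), (123, 0, 0, 0, 0), (123, 0, 0, 0, 0), (133, 0, 0, 0, 0), (133, 0, 0, 0, 0), (134, 0, 0, 0, 0), (134, 0, 0, 0, 0), (135, 0, 0, 0, 0), (135, 0, 0, 0, 0), (145, 0, 0, 0, 0), (145, 0, 0, 0, 0), (146, 0, 0, 0, 0), (146, 0, 0, 0, 0), (147, 0, 0, 0, 0), (147, 0, 0, 0, 0)],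
  [(48, 0, 0, 0, 0), (48, 0, 0, 0, 0), (49, 0, 0, 0, 0), (49, 0, 0, 0, 0), (50, 0, 0, 0, 0), (50, 0, 0, 0, 0), (56, 0, 0, 0, 0), (56, 0, 0, 0, 0), (168, 0, 0, 0, 0), (168, 0, 0, 0, 0), (57, 0, 0, 0, 0), (57, 0, 0, 0, 0), (172, 0, 0, 0, 0), (172, 0, 0, 0, 0), (173, 0, 0, 0, 0), (173, 0, 0, 0, 0), (174, 0, 0, 0, 0), (174, 0, 0, 0, 0), (72, 0, 0, 0, 0), (72, 0, 0, 0, 0), (73, 0, 0, 0, 0), (73, 0, 0, 0, 0), (74, 0, 0, 0, 0), (74, 0, 0, 0, 0), (40, 0, 0, 0, 0), (40, 0, 0, 0, 0), (41, 0, 0, 0, 0), (41, 0, 0, 0, 0), (42, 0, 0, 0, 0), (42, 0, 0, 0, 0), (58, 0, 0, 0, 0), (58, 0, 0, 0, 0), (59, 0, 0, 0, 0), (59, 0, 0, 0, 0), (169, 0, 0, 0, 0), (169, 0, 0, 0, 0), (64, 0, 0, 0, 0), (64, 0, 0, 0, 0), (65, 0, 0, 0, 0), (65, 0, 0, 0, 0), (66, 0, 0, 0, 0), (66, 0, 0, 0, 0), (176, 0, 0, 0, 0), (176, 0, 0, 0, 0), (177, 0, 0, 0, 0), (177, 0, 0,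 0, 0), (178, 0, 0, 0, 0), (178, 0, 0, 0, 0), (43, 0, 0, 0, 0), (43, 0, 0, 0, 0), (160, 0, 0, 0, 0), (160, 0, 0, 0, 0), (44, 0, 0, 0, 0), (44, 0, 0, 0, 0), (51, 0, 0, 0, 0), (51, 0, 0, 0, 0), (52, 0, 0, 0, 0), (52, 0, 0, 0, 0), (164, 0, 0, 0, 0), (164, 0, 0, 0, 0), (175, 0, 0, 0, 0), (175, 0, 0, 0, 0), (67, 0, 0, 0, 0), (67, 0, 0, 0, 0), (68, 0, 0, 0, 0), (68, 0, 0, 0, 0), (75, 0, 0, 0, 0), (75, 0, 0, 0, 0), (179, 0, 0, 0, 0), (179, 0, 0, 0, 0), (76, 0, 0, 0, 0), (76, 0, 0, 0, 0), (161, 0, 0, 0, 0), (161, 0, 0, 0, 0), (162, 0, 0, 0, 0), (162, 0, 0, 0, 0), (163, 0, 0, 0, 0), (163, 0, 0, 0, 0), (53, 0, 0, 0, 0), (53, 0, 0, 0, 0), (54, 0, 0, 0, 0), (54, 0, 0, 0, 0), (55, 0, 0, 0, 0), (55, 0, 0, 0, 0), (170, 0, 0, 0, 0), (170, 0, 0, 0, 0), (60, 0, 0, 0, 0), (60, 0, 0, 0, 0), (61, 0, 0, 0, 0), (61, 0, 0, 0, 0), (77, 0, 0, 0, 0), (77,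 0, 0, 0, 0), (78, 0, 0, 0, 0), (78, 0, 0, 0, 0), (79, 0, 0, 0, 0), (79, 0, 0, 0, 0), (45, 0, 0, 0, 0), (45, 0, 0, 0, 0), (46, 0, 0, 0, 0), (46, 0, 0, 0, 0), (47, 0, 0, 0, 0), (47, 0, 0, 0, 0), (165, 0, 0, 0, 0), (165, 0, 0, 0, 0), (166, 0, 0, 0, 0), (166, 0, 0, 0, 0), (167, 0, 0, 0, 0), (167, 0, 0, 0, 0), (62, 0, 0, 0, 0), (62, 0, 0, 0, 0), (171, 0, 0, 0, 0), (171, 0, 0, 0, 0), (63, 0, 0, 0, 0), (63, 0, 0, 0, 0), (69, 0, 0, 0, 0), (69, 0, 0, 0, 0), (70, 0, 0, 0, 0), (70, 0, 0, 0, 0), (71, 0, 0, 0, 0), (71, 0, 0, 0, 0)]]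

def m27_3 : Base := (0, 1, [(0, [0], [0, 5]), (0, [1], [1, 2]), (0, [2], [3, 4]), (4, [], [5])])

def l27_3 : Cov := [(360, 0, 1, [(0, [0], [0, 5]), (0, [1], [1, 2]), (0, [2], [3, 4]), (4, [], [5])]),
  (-72, 0, 1, [(0, [0], [0, 5]), (0, [1], [1, 3]), (0, [2], [2, 4]), (4, [], [5])]),
  (-360, 0, 1, [(0, [0], [0, 5]), (0, [1], [2, 4]), (0, [2], [1, 3]), (4, [], [5])]),
  (72, 0, 1, [(0, [0], [0, 5]), (0, [1], [3, 4]), (0, [2], [1, 2]), (4, [], [5])]),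
  (360, 0, 1, [(0, [0], [1, 5]), (0, [1], [0, 2]), (0, [2], [3, 4]), (4, [], [5])]),
  (-72, 0, 1, [(0, [0], [1, 5]), (0, [1], [0, 4]), (0, [2], [2, 3]), (4, [], [5])]),
  (-360, 0, 1, [(0, [0], [1, 5]), (0, [1], [2, 3]), (0, [2], [0, 4]), (4, [], [5])]),
  (72, 0, 1, [(0, [0], [1, 5]), (0, [1], [3, 4]), (0, [2], [0, 2]), (4, [], [5])]),
  (432, 0, 1, [(0, [0], [2, 5]), (0, [1], [0, 1]), (0, [2], [3, 4]), (4, [], [5])]),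
  (-432, 0, 1, [(0, [0], [2, 5]), (0, [1], [0, 4]), (0, [2], [1, 3]), (4, [], [5])]),
  (-432, 0, 1, [(0, [0], [2, 5]), (0, [1], [1, 3]), (0, [2], [0, 4]), (4, [], [5])]),
  (432, 0, 1, [(0, [0], [2, 5]), (0, [1], [3, 4]), (0, [2], [0, 1]), (4, [], [5])]),
  (72, 0, 1, [(0, [0], [3, 5]), (0, [1], [0, 1]), (0, [2], [2, 4]), (4, [], [5])]),
  (-72, 0, 1, [(0, [0], [3, 5]), (0, [1], [0, 4]), (0, [2], [1, 2]), (4, [], [5])]),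
  (-360, 0, 1, [(0, [0], [3, 5]), (0, [1], [1, 2]), (0, [2], [0, 4]), (4, [], [5])]),
  (360, 0, 1, [(0, [0], [3, 5]), (0, [1], [2, 4]), (0, [2], [0, 1]), (4, [], [5])]),
  (72, 0, 1, [(0, [0], [4, 5]), (0, [1], [0, 1]), (0, [2], [2, 3]), (4, [], [5])]),
  (-360, 0, 1, [(0, [0], [4, 5]), (0, [1], [0, 2]), (0, [2], [1, 3]), (4, [], [5])]),
  (-72, 0, 1, [(0, [0], [4, 5]), (0, [1], [1, 3]), (0, [2], [0, 2]), (4, [], [5])]),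
  (360, 0, 1, [(0, [0], [4, 5]), (0, [1], [2, 3]), (0, [2], [0, 1]), (4, [], [5])]),
  (288, 0, 1, [(0, [1], [0, 5]), (0, [0], [1, 2]), (0, [2], [3, 4]), (4, [], [5])]),
  (288, 0, 1, [(0, [1], [0, 5]), (0, [0], [1, 3]), (0, [2], [2, 4]), (4, [], [5])]),
  (-288, 0, 1, [(0, [1], [0, 5]), (0, [0], [2, 4]), (0, [2], [1, 3]), (4, [], [5])]),
  (-288, 0, 1, [(0, [1], [0, 5]), (0, [0], [3, 4]), (0, [2], [1, 2]), (4, [], [5])]),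
  (288, 0, 1, [(0, [1], [1, 5]), (0, [0], [0, 2]), (0, [2], [3, 4]), (4, [], [5])]),
  (288, 0, 1, [(0, [1], [1, 5]), (0, [0], [0, 4]), (0, [2], [2, 3]), (4, [], [5])]),
  (-288, 0, 1, [(0, [1], [1, 5]), (0, [0], [2, 3]), (0, [2], [0, 4]), (4, [], [5])]),
  (-288, 0, 1, [(0, [1], [1, 5]), (0, [0], [3, 4]), (0, [2], [0, 2]), (4, [], [5])]),
  (-288, 0, 1, [(0, [1], [3, 5]), (0, [0], [0, 1]), (0, [2], [2, 4]), (4, [], [5])]),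
  (288, 0, 1, [(0, [1], [3, 5]), (0, [0], [0, 4]), (0, [2], [1, 2]), (4, [], [5])]),
  (-288, 0, 1, [(0, [1], [3, 5]), (0, [0], [1, 2]), (0, [2], [0, 4]), (4, [], [5])]),
  (288, 0, 1, [(0, [1], [3, 5]), (0, [0], [2, 4]), (0, [2], [0, 1]), (4, [], [5])]),
  (-288, 0, 1, [(0, [1], [4, 5]), (0, [0], [0, 1]), (0, [2], [2, 3]), (4, [], [5])]),
  (-288, 0, 1, [(0, [1], [4, 5]), (0, [0], [0, 2]), (0, [2], [1, 3]), (4, [], [5])]),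
  (288, 0, 1, [(0, [1], [4, 5]), (0, [0], [1, 3]), (0, [2], [0, 2]), (4, [], [5])]),
  (288, 0, 1, [(0, [1], [4, 5]), (0, [0], [2, 3]), (0, [2], [0, 1]), (4, [], [5])]),
  (-72, 0, 1, [(0, [2], [0, 5]), (0, [0], [1, 2]), (0, [1], [3, 4]), (4, [], [5])]),
  (360, 0, 1, [(0, [2], [0, 5]), (0, [0], [1, 3]), (0, [1], [2, 4]), (4, [], [5])]),
  (72, 0, 1, [(0, [2], [0, 5]), (0, [0], [2, 4]), (0, [1], [1, 3]), (4, [], [5])]),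
  (-360, 0, 1, [(0, [2], [0, 5]), (0, [0], [3, 4]), (0, [1], [1, 2]), (4, [], [5])]),
  (-72, 0, 1, [(0, [2], [1, 5]), (0, [0], [0, 2]), (0, [1], [3, 4]), (4, [], [5])]),
  (360, 0, 1, [(0, [2], [1, 5]), (0, [0], [0, 4]), (0, [1], [2, 3]), (4, [], [5])]),
  (72, 0, 1, [(0, [2], [1, 5]), (0, [0], [2, 3]), (0, [1], [0, 4]), (4, [], [5])]),
  (-360, 0, 1, [(0, [2], [1, 5]), (0, [0], [3, 4]), (0, [1], [0, 2]), (4, [], [5])]),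
  (-432, 0, 1, [(0, [2], [2, 5]), (0, [0], [0, 1]), (0, [1], [3, 4]), (4, [], [5])]),
  (432, 0, 1, [(0, [2], [2, 5]), (0, [0], [0, 4]), (0, [1], [1, 3]), (4, [], [5])]),
  (432, 0, 1, [(0, [2], [2, 5]), (0, [0], [1, 3]), (0, [1], [0, 4]), (4, [], [5])]),
  (-432, 0, 1, [(0, [2], [2, 5]), (0, [0], [3, 4]), (0, [1], [0, 1]), (4, [], [5])]),
  (-360, 0, 1, [(0, [2], [3, 5]), (0, [0], [0, 1]), (0, [1], [2, 4]), (4, [], [5])]),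
  (360, 0, 1, [(0, [2], [3, 5]), (0, [0], [0, 4]), (0, [1], [1, 2]), (4, [], [5])]),
  (72, 0, 1, [(0, [2], [3, 5]), (0, [0], [1, 2]), (0, [1], [0, 4]), (4, [], [5])]),
  (-72, 0, 1, [(0, [2], [3, 5]), (0, [0], [2, 4]), (0, [1], [0, 1]), (4, [], [5])]),
  (-360, 0, 1, [(0, [2], [4, 5]), (0, [0], [0, 1]), (0, [1], [2, 3]), (4, [], [5])]),
  (72, 0, 1, [(0, [2], [4, 5]), (0, [0], [0, 2]), (0, [1], [1, 3]), (4, [], [5])]),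
  (360, 0, 1, [(0, [2], [4, 5]), (0, [0], [1, 3]), (0, [1], [0, 2]), (4, [], [5])]),
  (-72, 0, 1, [(0, [2], [4, 5]), (0, [0], [2, 3]), (0, [1], [0, 1]), (4, [], [5])])]

def z27_3 : Cov := [(0, 0, 1, [(0, [0], [0, 5]), (0, [1], [1, 4]), (0, [2], [2, 3]), (4, [], [5])]),
  (0, 0, 1, [(0, [0], [0, 5]), (0, [1], [2, 3]), (0, [2], [1, 4]), (4, [], [5])]),
  (0, 0, 1, [(0, [0], [1, 5]), (0, [1], [0, 3]), (0, [2], [2, 4]), (4, [], [5])]),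
  (0, 0, 1, [(0, [0], [1, 5]), (0, [1], [2, 4]), (0, [2], [0, 3]), (4, [], [5])]),
  (0, 0, 1, [(0, [0], [2, 5]), (0, [1], [0, 3]), (0, [2], [1, 4]), (4, [], [5])]),
  (0, 0, 1, [(0, [0], [2, 5]), (0, [1], [1, 4]), (0, [2], [0, 3]), (4, [], [5])]),
  (0, 0, 1, [(0, [0], [3, 5]), (0, [1], [0, 2]), (0, [2], [1, 4]), (4, [], [5])]),
  (0, 0, 1, [(0, [0], [3, 5]), (0, [1], [1, 4]), (0, [2], [0, 2]), (4, [], [5])]),
  (0, 0, 1, [(0, [0], [4, 5]), (0, [1], [0, 3]), (0, [2], [1, 2]), (4, [], [5])]),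
  (0, 0, 1, [(0, [0], [4, 5]), (0, [1], [1, 2]), (0, [2], [0, 3]), (4, [], [5])]),
  (0, 0, 1, [(0, [1], [0, 5]), (0, [0], [1, 4]), (0, [2], [2, 3]), (4, [], [5])]),
  (0, 0, 1, [(0, [1], [0, 5]), (0, [0], [2, 3]), (0, [2], [1, 4]), (4, [], [5])]),
  (0, 0, 1, [(0, [1], [1, 5]), (0, [0], [0, 3]), (0, [2], [2, 4]), (4, [], [5])]),
  (0, 0, 1, [(0, [1], [1, 5]), (0, [0], [2, 4]), (0, [2], [0, 3]), (4, [], [5])]),
  (0, 0, 1, [(0, [1], [2, 5]), (0, [0], [0, 1]), (0, [2], [3, 4]), (4, [], [5])]),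
  (0, 0, 1, [(0, [1], [2, 5]), (0, [0], [0, 3]), (0, [2], [1, 4]), (4, [], [5])]),
  (0, 0, 1, [(0, [1], [2, 5]), (0, [0], [0, 4]), (0, [2], [1, 3]), (4, [], [5])]),
  (0, 0, 1, [(0, [1], [2, 5]), (0, [0], [1, 3]), (0, [2], [0, 4]), (4, [], [5])]),
  (0, 0, 1, [(0, [1], [2, 5]), (0, [0], [1, 4]), (0, [2], [0, 3]), (4, [], [5])]),
  (0, 0, 1, [(0, [1], [2, 5]), (0, [0], [3, 4]), (0, [2], [0, 1]), (4, [], [5])]),
  (0, 0, 1, [(0, [1], [3, 5]), (0, [0], [0, 2]), (0, [2], [1, 4]), (4, [], [5])]),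
  (0, 0, 1, [(0, [1], [3, 5]), (0, [0], [1, 4]), (0, [2], [0, 2]), (4, [], [5])]),
  (0, 0, 1, [(0, [1], [4, 5]), (0, [0], [0, 3]), (0, [2], [1, 2]), (4, [], [5])]),
  (0, 0, 1, [(0, [1], [4, 5]), (0, [0], [1, 2]), (0, [2], [0, 3]), (4, [], [5])]),
  (0, 0, 1, [(0, [2], [0, 5]), (0, [0], [1, 4]), (0, [1], [2, 3]), (4, [], [5])]),
  (0, 0, 1, [(0, [2], [0, 5]), (0, [0], [2, 3]), (0, [1], [1, 4]), (4, [], [5])]),
  (0, 0, 1, [(0, [2], [1, 5]), (0, [0], [0, 3]), (0, [1], [2, 4]), (4, [], [5])]),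
  (0, 0, 1, [(0, [2], [1, 5]), (0, [0], [2, 4]), (0, [1], [0, 3]), (4, [], [5])]),
  (0, 0, 1, [(0, [2], [2, 5]), (0, [0], [0, 3]), (0, [1], [1, 4]), (4, [], [5])]),
  (0, 0, 1, [(0, [2], [2, 5]), (0, [0], [1, 4]), (0, [1], [0, 3]), (4, [], [5])]),
  (0, 0, 1, [(0, [2], [3, 5]), (0, [0], [0, 2]), (0, [1], [1, 4]), (4, [], [5])]),
  (0, 0, 1, [(0, [2], [3, 5]), (0, [0], [1, 4]), (0, [1], [0, 2]), (4, [], [5])]),
  (0, 0, 1, [(0, [2], [4, 5]), (0, [0], [0, 3]), (0, [1], [1, 2]), (4, [], [5])]),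
  (0, 0, 1, [(0, [2], [4, 5]), (0, [0], [1, 2]), (0, [1], [0, 3]), (4, [], [5])])]

def w27_3 : List (List Wit) := [[(0, 0, 0, 0, 0), (0, 0, 0, 0, 0), (1, 0, 0, 0, 0), (1, 0, 0, 0, 0), (56, 0, 0, 0, 0), (56, 0, 0, 0, 0), (0, 0, 0, 0, 0), (0, 0, 0, 0, 0), (57, 0, 0, 0, 0), (57, 0, 0, 0, 0), (2, 0, 0, 0, 0), (2, 0, 0, 0, 0), (1, 0, 0, 0, 0), (1, 0, 0, 0, 0), (57, 0, 0, 0, 0), (57, 0, 0, 0, 0), (3, 0, 0, 0, 0), (3, 0, 0, 0, 0), (56, 0, 0, 0, 0), (56, 0, 0, 0, 0), (2, 0, 0, 0, 0), (2, 0, 0, 0, 0), (3, 0, 0, 0, 0), (3, 0, 0, 0, 0), (4, 0, 0, 0, 0), (4, 0, 0, 0, 0), (58, 0, 0, 0, 0), (58, 0, 0, 0, 0), (5, 0, 0, 0, 0), (5, 0, 0, 0, 0), (4, 0, 0, 0, 0), (4, 0, 0, 0, 0), (6, 0, 0, 0, 0), (6, 0, 0, 0, 0), (59, 0, 0, 0, 0), (59, 0, 0, 0, 0), (58, 0, 0, 0, 0), (58, 0, 0, 0, 0), (6, 0, 0, 0, 0), (6, 0, 0, 0, 0), (7, 0, 0, 0, 0), (7, 0, 0,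 0, 0), (5, 0, 0, 0, 0), (5, 0, 0, 0, 0), (59, 0, 0, 0, 0), (59, 0, 0, 0, 0), (7, 0, 0, 0, 0), (7, 0, 0, 0, 0), (8, 0, 0, 0, 0), (8, 0, 0, 0, 0), (60, 0, 0, 0, 0), (60, 0, 0, 0, 0), (9, 0, 0, 0, 0), (9, 0, 0, 0, 0), (8, 0, 0, 0, 0), (8, 0, 0, 0, 0), (10, 0, 0, 0, 0), (10, 0, 0, 0, 0), (61, 0, 0, 0, 0), (61, 0, 0, 0, 0), (60, 0, 0, 0, 0), (60, 0, 0, 0, 0), (10, 0, 0, 0, 0), (10, 0, 0, 0, 0), (11, 0, 0, 0, 0), (11, 0, 0, 0, 0), (9, 0, 0, 0, 0), (9, 0, 0, 0, 0), (61, 0, 0, 0, 0), (61, 0, 0, 0, 0), (11, 0, 0, 0, 0), (11, 0, 0, 0, 0), (12, 0, 0, 0, 0), (12, 0, 0, 0, 0), (62, 0, 0, 0, 0), (62, 0, 0, 0, 0), (13, 0, 0, 0, 0), (13, 0, 0, 0, 0), (12, 0, 0, 0, 0), (12, 0, 0, 0, 0), (14, 0, 0, 0, 0), (14, 0, 0, 0, 0), (63, 0, 0, 0, 0), (63, 0, 0, 0, 0), (62, 0, 0, 0, 0), (62, 0, 0, 0, 0), (14, 0, 0, 0, 0), (14, 0, 0, 0, 0), (15, 0, 0, 0,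 0), (15, 0, 0, 0, 0), (13, 0, 0, 0, 0), (13, 0, 0, 0, 0), (63, 0, 0, 0, 0), (63, 0, 0, 0, 0), (15, 0, 0, 0, 0), (15, 0, 0, 0, 0), (16, 0, 0, 0, 0), (16, 0, 0, 0, 0), (17, 0, 0, 0, 0), (17, 0, 0, 0, 0), (64, 0, 0, 0, 0), (64, 0, 0, 0, 0), (16, 0, 0, 0, 0), (16, 0, 0, 0, 0), (65, 0, 0, 0, 0), (65, 0, 0, 0, 0), (18, 0, 0, 0, 0), (18, 0, 0, 0, 0), (17, 0, 0, 0, 0), (17, 0, 0, 0, 0), (65, 0, 0, 0, 0), (65, 0, 0, 0, 0), (19, 0, 0, 0, 0), (19, 0, 0, 0, 0), (64, 0, 0, 0, 0), (64, 0, 0, 0, 0), (18, 0, 0, 0, 0), (18, 0, 0, 0, 0), (19, 0, 0, 0, 0), (19, 0, 0, 0, 0)],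
  [(3, 0, 0, 0, 0), (3, 0, 0, 0, 0), (2, 0, 0, 0, 0), (2, 0, 0, 0, 0), (57, 0, 0, 0, 0), (57, 0, 0, 0, 0), (3, 0, 0, 0, 0), (3, 0, 0, 0, 0), (56, 0, 0, 0, 0), (56, 0, 0, 0, 0), (1, 0, 0, 0, 0), (1, 0, 0, 0, 0), (2, 0, 0, 0, 0), (2, 0, 0, 0, 0), (56, 0, 0, 0, 0), (56, 0, 0, 0, 0), (0, 0, 0, 0, 0), (0, 0, 0, 0, 0), (57, 0, 0, 0, 0), (57, 0, 0, 0, 0), (1, 0, 0, 0, 0), (1, 0, 0, 0, 0), (0, 0, 0, 0, 0), (0, 0, 0, 0, 0), (7, 0, 0, 0, 0), (7, 0, 0, 0, 0), (59, 0, 0, 0, 0), (59, 0, 0, 0, 0), (6, 0, 0, 0, 0), (6, 0, 0, 0, 0), (7, 0, 0, 0, 0), (7, 0, 0, 0, 0), (5, 0, 0, 0, 0), (5, 0, 0, 0, 0), (58, 0, 0, 0, 0), (58, 0, 0, 0, 0), (59, 0, 0, 0, 0), (59, 0, 0, 0, 0), (5, 0, 0, 0, 0), (5, 0, 0, 0, 0), (4, 0, 0, 0, 0), (4, 0, 0, 0, 0), (6, 0, 0, 0, 0), (6, 0, 0, 0, 0), (58, 0, 0, 0, 0), (58, 0, 0, 0, 0), (4, 0, 0, 0, 0), (4, 0, 0, 0, 0), (11,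 0, 0, 0, 0), (11, 0, 0, 0, 0), (61, 0, 0, 0, 0), (61, 0, 0, 0, 0), (10, 0, 0, 0, 0), (10, 0, 0, 0, 0), (11, 0, 0, 0, 0), (11, 0, 0, 0, 0), (9, 0, 0, 0, 0), (9, 0, 0, 0, 0), (60, 0, 0, 0, 0), (60, 0, 0, 0, 0), (61, 0, 0, 0, 0), (61, 0, 0, 0, 0), (9, 0, 0, 0, 0), (9, 0, 0, 0, 0), (8, 0, 0, 0, 0), (8, 0, 0, 0, 0), (10, 0, 0, 0, 0), (10, 0, 0, 0, 0), (60, 0, 0, 0, 0), (60, 0, 0, 0, 0), (8, 0, 0, 0, 0), (8, 0, 0, 0, 0), (15, 0, 0, 0, 0), (15, 0, 0, 0, 0), (63, 0, 0, 0, 0), (63, 0, 0, 0, 0), (14, 0, 0, 0, 0), (14, 0, 0, 0, 0), (15, 0, 0, 0, 0), (15, 0, 0, 0, 0), (13, 0, 0, 0, 0), (13, 0, 0, 0, 0), (62, 0, 0, 0, 0), (62, 0, 0, 0, 0), (63, 0, 0, 0, 0), (63, 0, 0, 0, 0), (13, 0, 0, 0, 0), (13, 0, 0, 0, 0), (12, 0, 0, 0, 0), (12, 0, 0, 0, 0), (14, 0, 0, 0, 0), (14, 0, 0, 0, 0), (62, 0, 0, 0, 0), (62, 0, 0, 0, 0), (12, 0, 0, 0, 0), (12,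 0, 0, 0, 0), (19, 0, 0, 0, 0), (19, 0, 0, 0, 0), (18, 0, 0, 0, 0), (18, 0, 0, 0, 0), (65, 0, 0, 0, 0), (65, 0, 0, 0, 0), (19, 0, 0, 0, 0), (19, 0, 0, 0, 0), (64, 0, 0, 0, 0), (64, 0, 0, 0, 0), (17, 0, 0, 0, 0), (17, 0, 0, 0, 0), (18, 0, 0, 0, 0), (18, 0, 0, 0, 0), (64, 0, 0, 0, 0), (64, 0, 0, 0, 0), (16, 0, 0, 0, 0), (16, 0, 0, 0, 0), (65, 0, 0, 0, 0), (65, 0, 0, 0, 0), (17, 0, 0, 0, 0), (17, 0, 0, 0, 0), (16, 0, 0, 0, 0), (16, 0, 0, 0, 0)],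
  [(20, 0, 0, 0, 0), (20, 0, 0, 0, 0), (21, 0, 0, 0, 0), (21, 0, 0, 0, 0), (66, 0, 0, 0, 0), (66, 0, 0, 0, 0), (20, 0, 0, 0, 0), (20, 0, 0, 0, 0), (67, 0, 0, 0, 0), (67, 0, 0, 0, 0), (22, 0, 0, 0, 0), (22, 0, 0, 0, 0), (21, 0, 0, 0, 0), (21, 0, 0, 0, 0), (67, 0, 0, 0, 0), (67, 0, 0, 0, 0), (23, 0, 0, 0, 0), (23, 0, 0, 0, 0), (66, 0, 0, 0, 0), (66, 0, 0, 0, 0), (22, 0, 0, 0, 0), (22, 0, 0, 0, 0), (23, 0, 0, 0, 0), (23, 0, 0, 0, 0), (24, 0, 0, 0, 0), (24, 0, 0, 0, 0), (68, 0, 0, 0, 0), (68, 0, 0, 0, 0), (25, 0, 0, 0, 0), (25, 0, 0, 0, 0), (24, 0, 0, 0, 0), (24, 0, 0, 0, 0), (26, 0, 0, 0, 0), (26, 0, 0, 0, 0), (69, 0, 0, 0, 0), (69, 0, 0, 0, 0), (68, 0, 0, 0, 0), (68, 0, 0, 0, 0), (26, 0, 0, 0, 0), (26, 0, 0, 0, 0), (27, 0, 0, 0, 0), (27, 0, 0, 0, 0), (25, 0, 0, 0, 0), (25, 0, 0, 0, 0), (69, 0, 0, 0, 0), (69, 0, 0, 0, 0), (27,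 0, 0, 0, 0), (27, 0, 0, 0, 0), (70, 0, 0, 0, 0), (70, 0, 0, 0, 0), (71, 0, 0, 0, 0), (71, 0, 0, 0, 0), (72, 0, 0, 0, 0), (72, 0, 0, 0, 0), (70, 0, 0, 0, 0), (70, 0, 0, 0, 0), (73, 0, 0, 0, 0), (73, 0, 0, 0, 0), (74, 0, 0, 0, 0), (74, 0, 0, 0, 0), (71, 0, 0, 0, 0), (71, 0, 0, 0, 0), (73, 0, 0, 0, 0), (73, 0, 0, 0, 0), (75, 0, 0, 0, 0), (75, 0, 0, 0, 0), (72, 0, 0, 0, 0), (72, 0, 0, 0, 0), (74, 0, 0, 0, 0), (74, 0, 0, 0, 0), (75, 0, 0, 0, 0), (75, 0, 0, 0, 0), (28, 0, 0, 0, 0), (28, 0, 0, 0, 0), (76, 0, 0, 0, 0), (76, 0, 0, 0, 0), (29, 0, 0, 0, 0), (29, 0, 0, 0, 0), (28, 0, 0, 0, 0), (28, 0, 0, 0, 0), (30, 0, 0, 0, 0), (30, 0, 0, 0, 0), (77, 0, 0, 0, 0), (77, 0, 0, 0, 0), (76, 0, 0, 0, 0), (76, 0, 0, 0, 0), (30, 0, 0, 0, 0), (30, 0, 0, 0, 0), (31, 0, 0, 0, 0), (31, 0, 0, 0, 0), (29, 0, 0, 0, 0), (29, 0, 0, 0, 0), (77, 0, 0, 0,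 0), (77, 0, 0, 0, 0), (31, 0, 0, 0, 0), (31, 0, 0, 0, 0), (32, 0, 0, 0, 0), (32, 0, 0, 0, 0), (33, 0, 0, 0, 0), (33, 0, 0, 0, 0), (78, 0, 0, 0, 0), (78, 0, 0, 0, 0), (32, 0, 0, 0, 0), (32, 0, 0, 0, 0), (79, 0, 0, 0, 0), (79, 0, 0, 0, 0), (34, 0, 0, 0, 0), (34, 0, 0, 0, 0), (33, 0, 0, 0, 0), (33, 0, 0, 0, 0), (79, 0, 0, 0, 0), (79, 0, 0, 0, 0), (35, 0, 0, 0, 0), (35, 0, 0, 0, 0), (78, 0, 0, 0, 0), (78, 0, 0, 0, 0), (34, 0, 0, 0, 0), (34, 0, 0, 0, 0), (35, 0, 0, 0, 0), (35, 0, 0, 0, 0)],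
  [(23, 0, 0, 0, 0), (23, 0, 0, 0, 0), (22, 0, 0, 0, 0), (22, 0, 0, 0, 0), (67, 0, 0, 0, 0), (67, 0, 0, 0, 0), (23, 0, 0, 0, 0), (23, 0, 0, 0, 0), (66, 0, 0, 0, 0), (66, 0, 0, 0, 0), (21, 0, 0, 0, 0), (21, 0, 0, 0, 0), (22, 0, 0, 0, 0), (22, 0, 0, 0, 0), (66, 0, 0, 0, 0), (66, 0, 0, 0, 0), (20, 0, 0, 0, 0), (20, 0, 0, 0, 0), (67, 0, 0, 0, 0), (67, 0, 0, 0, 0), (21, 0, 0, 0, 0), (21, 0, 0, 0, 0), (20, 0, 0, 0, 0), (20, 0, 0, 0, 0), (27, 0, 0, 0, 0), (27, 0, 0, 0, 0), (69, 0, 0, 0, 0), (69, 0, 0, 0, 0), (26, 0, 0, 0, 0), (26, 0, 0, 0, 0), (27, 0, 0, 0, 0), (27, 0, 0, 0, 0), (25, 0, 0, 0, 0), (25, 0, 0, 0, 0), (68, 0, 0, 0, 0), (68, 0, 0, 0, 0), (69, 0, 0, 0, 0), (69, 0, 0, 0, 0), (25, 0, 0, 0, 0), (25, 0, 0, 0, 0), (24, 0, 0, 0, 0), (24, 0, 0, 0, 0), (26, 0, 0, 0, 0), (26, 0, 0, 0, 0), (68, 0, 0, 0, 0), (68, 0, 0, 0, 0), (24,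 0, 0, 0, 0), (24, 0, 0, 0, 0), (75, 0, 0, 0, 0), (75, 0, 0, 0, 0), (74, 0, 0, 0, 0), (74, 0, 0, 0, 0), (73, 0, 0, 0, 0), (73, 0, 0, 0, 0), (75, 0, 0, 0, 0), (75, 0, 0, 0, 0), (72, 0, 0, 0, 0), (72, 0, 0, 0, 0), (71, 0, 0, 0, 0), (71, 0, 0, 0, 0), (74, 0, 0, 0, 0), (74, 0, 0, 0, 0), (72, 0, 0, 0, 0), (72, 0, 0, 0, 0), (70, 0, 0, 0, 0), (70, 0, 0, 0, 0), (73, 0, 0, 0, 0), (73, 0, 0, 0, 0), (71, 0, 0, 0, 0), (71, 0, 0, 0, 0), (70, 0, 0, 0, 0), (70, 0, 0, 0, 0), (31, 0, 0, 0, 0), (31, 0, 0, 0, 0), (77, 0, 0, 0, 0), (77, 0, 0, 0, 0), (30, 0, 0, 0, 0), (30, 0, 0, 0, 0), (31, 0, 0, 0, 0), (31, 0, 0, 0, 0), (29, 0, 0, 0, 0), (29, 0, 0, 0, 0), (76, 0, 0, 0, 0), (76, 0, 0, 0, 0), (77, 0, 0, 0, 0), (77, 0, 0, 0, 0), (29, 0, 0, 0, 0), (29, 0, 0, 0, 0), (28, 0, 0, 0, 0), (28, 0, 0, 0, 0), (30, 0, 0, 0, 0), (30, 0, 0, 0, 0), (76, 0, 0, 0,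 0), (76, 0, 0, 0, 0), (28, 0, 0, 0, 0), (28, 0, 0, 0, 0), (35, 0, 0, 0, 0), (35, 0, 0, 0, 0), (34, 0, 0, 0, 0), (34, 0, 0, 0, 0), (79, 0, 0, 0, 0), (79, 0, 0, 0, 0), (35, 0, 0, 0, 0), (35, 0, 0, 0, 0), (78, 0, 0, 0, 0), (78, 0, 0, 0, 0), (33, 0, 0, 0, 0), (33, 0, 0, 0, 0), (34, 0, 0, 0, 0), (34, 0, 0, 0, 0), (78, 0, 0, 0, 0), (78, 0, 0, 0, 0), (32, 0, 0, 0, 0), (32, 0, 0, 0, 0), (79, 0, 0, 0, 0), (79, 0, 0, 0, 0), (33, 0, 0, 0, 0), (33, 0, 0, 0, 0), (32, 0, 0, 0, 0), (32, 0, 0, 0, 0)],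
  [(36, 0, 0, 0, 0), (36, 0, 0, 0, 0), (37, 0, 0, 0, 0), (37, 0, 0, 0, 0), (80, 0, 0, 0, 0), (80, 0, 0, 0, 0), (36, 0, 0, 0, 0), (36, 0, 0, 0, 0), (81, 0, 0, 0, 0), (81, 0, 0, 0, 0), (38, 0, 0, 0, 0), (38, 0, 0, 0, 0), (37, 0, 0, 0, 0), (37, 0, 0, 0, 0), (81, 0, 0, 0, 0), (81, 0, 0, 0, 0), (39, 0, 0, 0, 0), (39, 0, 0, 0, 0), (80, 0, 0, 0, 0), (80, 0, 0, 0, 0), (38, 0, 0, 0, 0), (38, 0, 0, 0, 0), (39, 0, 0, 0, 0), (39, 0, 0, 0, 0), (40, 0, 0, 0, 0), (40, 0, 0, 0, 0), (82, 0, 0, 0, 0), (82, 0, 0, 0, 0), (41, 0, 0, 0, 0), (41, 0, 0, 0, 0), (40, 0, 0, 0, 0), (40, 0, 0, 0, 0), (42, 0, 0, 0, 0), (42, 0, 0, 0, 0), (83, 0, 0, 0, 0), (83, 0, 0, 0, 0), (82, 0, 0, 0, 0), (82, 0, 0, 0, 0), (42, 0, 0, 0, 0), (42, 0, 0, 0, 0), (43, 0, 0, 0, 0), (43, 0, 0, 0, 0), (41, 0, 0, 0, 0), (41, 0, 0, 0, 0), (83, 0, 0, 0, 0), (83, 0, 0, 0, 0), (43,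 0, 0, 0, 0), (43, 0, 0, 0, 0), (44, 0, 0, 0, 0), (44, 0, 0, 0, 0), (84, 0, 0, 0, 0), (84, 0, 0, 0, 0), (45, 0, 0, 0, 0), (45, 0, 0, 0, 0), (44, 0, 0, 0, 0), (44, 0, 0, 0, 0), (46, 0, 0, 0, 0), (46, 0, 0, 0, 0), (85, 0, 0, 0, 0), (85, 0, 0, 0, 0), (84, 0, 0, 0, 0), (84, 0, 0, 0, 0), (46, 0, 0, 0, 0), (46, 0, 0, 0, 0), (47, 0, 0, 0, 0), (47, 0, 0, 0, 0), (45, 0, 0, 0, 0), (45, 0, 0, 0, 0), (85, 0, 0, 0, 0), (85, 0, 0, 0, 0), (47, 0, 0, 0, 0), (47, 0, 0, 0, 0), (48, 0, 0, 0, 0), (48, 0, 0, 0, 0), (86, 0, 0, 0, 0), (86, 0, 0, 0, 0), (49, 0, 0, 0, 0), (49, 0, 0, 0, 0), (48, 0, 0, 0, 0), (48, 0, 0, 0, 0), (50, 0, 0, 0, 0), (50, 0, 0, 0, 0), (87, 0, 0, 0, 0), (87, 0, 0, 0, 0), (86, 0, 0, 0, 0), (86, 0, 0, 0, 0), (50, 0, 0, 0, 0), (50, 0, 0, 0, 0), (51, 0, 0, 0, 0), (51, 0, 0, 0, 0), (49, 0, 0, 0, 0), (49, 0, 0, 0, 0), (87, 0, 0, 0,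 0), (87, 0, 0, 0, 0), (51, 0, 0, 0, 0), (51, 0, 0, 0, 0), (52, 0, 0, 0, 0), (52, 0, 0, 0, 0), (53, 0, 0, 0, 0), (53, 0, 0, 0, 0), (88, 0, 0, 0, 0), (88, 0, 0, 0, 0), (52, 0, 0, 0, 0), (52, 0, 0, 0, 0), (89, 0, 0, 0, 0), (89, 0, 0, 0, 0), (54, 0, 0, 0, 0), (54, 0, 0, 0, 0), (53, 0, 0, 0, 0), (53, 0, 0, 0, 0), (89, 0, 0, 0, 0), (89, 0, 0, 0, 0), (55, 0, 0, 0, 0), (55, 0, 0, 0, 0), (88, 0, 0, 0, 0), (88, 0, 0, 0, 0), (54, 0, 0, 0, 0), (54, 0, 0, 0, 0), (55, 0, 0, 0, 0), (55, 0, 0, 0, 0)],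
  [(39, 0, 0, 0, 0), (39, 0, 0, 0, 0), (38, 0, 0, 0, 0), (38, 0, 0, 0, 0), (81, 0, 0, 0, 0), (81, 0, 0, 0, 0), (39, 0, 0, 0, 0), (39, 0, 0, 0, 0), (80, 0, 0, 0, 0), (80, 0, 0, 0, 0), (37, 0, 0, 0, 0), (37, 0, 0, 0, 0), (38, 0, 0, 0, 0), (38, 0, 0, 0, 0), (80, 0, 0, 0, 0), (80, 0, 0, 0, 0), (36, 0, 0, 0, 0), (36, 0, 0, 0, 0), (81, 0, 0, 0, 0), (81, 0, 0, 0, 0), (37, 0, 0, 0, 0), (37, 0, 0, 0, 0), (36, 0, 0, 0, 0), (36, 0, 0, 0, 0), (43, 0, 0, 0, 0), (43, 0, 0, 0, 0), (83, 0, 0, 0, 0), (83, 0, 0, 0, 0), (42, 0, 0, 0, 0), (42, 0, 0, 0, 0), (43, 0, 0, 0, 0), (43, 0, 0, 0, 0), (41, 0, 0, 0, 0), (41, 0, 0, 0, 0), (82, 0, 0, 0, 0), (82, 0, 0, 0, 0), (83, 0, 0, 0, 0), (83, 0, 0, 0, 0), (41, 0, 0, 0, 0), (41, 0, 0, 0, 0), (40, 0, 0, 0, 0), (40, 0, 0, 0, 0), (42, 0, 0, 0, 0), (42, 0, 0, 0, 0), (82, 0, 0, 0, 0), (82, 0, 0, 0, 0), (40,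 0, 0, 0, 0), (40, 0, 0, 0, 0), (47, 0, 0, 0, 0), (47, 0, 0, 0, 0), (85, 0, 0, 0, 0), (85, 0, 0, 0, 0), (46, 0, 0, 0, 0), (46, 0, 0, 0, 0), (47, 0, 0, 0, 0), (47, 0, 0, 0, 0), (45, 0, 0, 0, 0), (45, 0, 0, 0, 0), (84, 0, 0, 0, 0), (84, 0, 0, 0, 0), (85, 0, 0, 0, 0), (85, 0, 0, 0, 0), (45, 0, 0, 0, 0), (45, 0, 0, 0, 0), (44, 0, 0, 0, 0), (44, 0, 0, 0, 0), (46, 0, 0, 0, 0), (46, 0, 0, 0, 0), (84, 0, 0, 0, 0), (84, 0, 0, 0, 0), (44, 0, 0, 0, 0), (44, 0, 0, 0, 0), (51, 0, 0, 0, 0), (51, 0, 0, 0, 0), (87, 0, 0, 0, 0), (87, 0, 0, 0, 0), (50, 0, 0, 0, 0), (50, 0, 0, 0, 0), (51, 0, 0, 0, 0), (51, 0, 0, 0, 0), (49, 0, 0, 0, 0), (49, 0, 0, 0, 0), (86, 0, 0, 0, 0), (86, 0, 0, 0, 0), (87, 0, 0, 0, 0), (87, 0, 0, 0, 0), (49, 0, 0, 0, 0), (49, 0, 0, 0, 0), (48, 0, 0, 0, 0), (48, 0, 0, 0, 0), (50, 0, 0, 0, 0), (50, 0, 0, 0, 0), (86, 0, 0, 0,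 0), (86, 0, 0, 0, 0), (48, 0, 0, 0, 0), (48, 0, 0, 0, 0), (55, 0, 0, 0, 0), (55, 0, 0, 0, 0), (54, 0, 0, 0, 0), (54, 0, 0, 0, 0), (89, 0, 0, 0, 0), (89, 0, 0, 0, 0), (55, 0, 0, 0, 0), (55, 0, 0, 0, 0), (88, 0, 0, 0, 0), (88, 0, 0, 0, 0), (53, 0, 0, 0, 0), (53, 0, 0, 0, 0), (54, 0, 0, 0, 0), (54, 0, 0, 0, 0), (88, 0, 0, 0, 0), (88, 0, 0, 0, 0), (52, 0, 0, 0, 0), (52, 0, 0, 0, 0), (89, 0, 0, 0, 0), (89, 0, 0, 0, 0), (53, 0, 0, 0, 0), (53, 0, 0, 0, 0), (52, 0, 0, 0, 0), (52, 0, 0, 0, 0)]]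

def m27_4 : Base := (0, 1, [(0, [0], [0, 5]), (0, [1], [1, 3]), (0, [2], [2, 4]), (4, [], [5])])

def l27_4 : Cov := [(360, 0, 1, [(0, [0], [0, 5]), (0, [1], [1, 3]), (0, [2], [2, 4]), (4, [], [5])]),
  (-72, 0, 1, [(0, [0], [0, 5]), (0, [1], [1, 2]), (0, [2], [3, 4]), (4, [], [5])]),
  (72, 0, 1, [(0, [0], [0, 5]), (0, [1], [2, 4]), (0, [2], [1, 3]), (4, [], [5])]),
  (-360, 0, 1, [(0, [0], [0, 5]), (0, [1], [3, 4]), (0, [2], [1, 2]), (4, [], [5])]),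
  (360, 0, 1, [(0, [0], [1, 5]), (0, [1], [0, 4]), (0, [2], [2, 3]), (4, [], [5])]),
  (-72, 0, 1, [(0, [0], [1, 5]), (0, [1], [0, 2]), (0, [2], [3, 4]), (4, [], [5])]),
  (72, 0, 1, [(0, [0], [1, 5]), (0, [1], [2, 3]), (0, [2], [0, 4]), (4, [], [5])]),
  (-360, 0, 1, [(0, [0], [1, 5]), (0, [1], [3, 4]), (0, [2], [0, 2]), (4, [], [5])]),
  (432, 0, 1, [(0, [0], [2, 5]), (0, [1], [0, 4]), (0, [2], [1, 3]), (4, [], [5])]),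
  (-432, 0, 1, [(0, [0], [2, 5]), (0, [1], [0, 1]), (0, [2], [3, 4]), (4, [], [5])]),
  (432, 0, 1, [(0, [0], [2, 5]), (0, [1], [1, 3]), (0, [2], [0, 4]), (4, [], [5])]),
  (-432, 0, 1, [(0, [0], [2, 5]), (0, [1], [3, 4]), (0, [2], [0, 1]), (4, [], [5])]),
  (360, 0, 1, [(0, [0], [3, 5]), (0, [1], [0, 4]), (0, [2], [1, 2]), (4, [], [5])]),
  (-360, 0, 1, [(0, [0], [3, 5]), (0, [1], [0, 1]), (0, [2], [2, 4]), (4, [], [5])]),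
  (72, 0, 1, [(0, [0], [3, 5]), (0, [1], [1, 2]), (0, [2], [0, 4]), (4, [], [5])]),
  (-72, 0, 1, [(0, [0], [3, 5]), (0, [1], [2, 4]), (0, [2], [0, 1]), (4, [], [5])]),
  (72, 0, 1, [(0, [0], [4, 5]), (0, [1], [0, 2]), (0, [2], [1, 3]), (4, [], [5])]),
  (-360, 0, 1, [(0, [0], [4, 5]), (0, [1], [0, 1]), (0, [2], [2, 3]), (4, [], [5])]),
  (360, 0, 1, [(0, [0], [4, 5]), (0, [1], [1, 3]), (0, [2], [0, 2]), (4, [], [5])]),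
  (-72, 0, 1, [(0, [0], [4, 5]), (0, [1], [2, 3]), (0, [2], [0, 1]), (4, [], [5])]),
  (288, 0, 1, [(0, [1], [0, 5]), (0, [0], [1, 3]), (0, [2], [2, 4]), (4, [], [5])]),
  (288, 0, 1, [(0, [1], [0, 5]), (0, [0], [1, 2]), (0, [2], [3, 4]), (4, [], [5])]),
  (-288, 0, 1, [(0, [1], [0, 5]), (0, [0], [2, 4]), (0, [2], [1, 3]), (4, [], [5])]),
  (-288, 0, 1, [(0, [1], [0, 5]), (0, [0], [3, 4]), (0, [2], [1, 2]), (4, [], [5])]),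
  (288, 0, 1, [(0, [1], [1, 5]), (0, [0], [0, 4]), (0, [2], [2, 3]), (4, [], [5])]),
  (288, 0, 1, [(0, [1], [1, 5]), (0, [0], [0, 2]), (0, [2], [3, 4]), (4, [], [5])]),
  (-288, 0, 1, [(0, [1], [1, 5]), (0, [0], [2, 3]), (0, [2], [0, 4]), (4, [], [5])]),
  (-288, 0, 1, [(0, [1], [1, 5]), (0, [0], [3, 4]), (0, [2], [0, 2]), (4, [], [5])]),
  (288, 0, 1, [(0, [1], [3, 5]), (0, [0], [0, 4]), (0, [2], [1, 2]), (4, [], [5])]),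
  (-288, 0, 1, [(0, [1], [3, 5]), (0, [0], [0, 1]), (0, [2], [2, 4]), (4, [], [5])]),
  (-288, 0, 1, [(0, [1], [3, 5]), (0, [0], [1, 2]), (0, [2], [0, 4]), (4, [], [5])]),
  (288, 0, 1, [(0, [1], [3, 5]), (0, [0], [2, 4]), (0, [2], [0, 1]), (4, [], [5])]),
  (-288, 0, 1, [(0, [1], [4, 5]), (0, [0], [0, 2]), (0, [2], [1, 3]), (4, [], [5])]),
  (-288, 0, 1, [(0, [1], [4, 5]), (0, [0], [0, 1]), (0, [2], [2, 3]), (4, [], [5])]),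
  (288, 0, 1, [(0, [1], [4, 5]), (0, [0], [1, 3]), (0, [2], [0, 2]), (4, [], [5])]),
  (288, 0, 1, [(0, [1], [4, 5]), (0, [0], [2, 3]), (0, [2], [0, 1]), (4, [], [5])]),
  (-72, 0, 1, [(0, [2], [0, 5]), (0, [0], [1, 3]), (0, [1], [2, 4]), (4, [], [5])]),
  (360, 0, 1, [(0, [2], [0, 5]), (0, [0], [1, 2]), (0, [1], [3, 4]), (4, [], [5])]),
  (-360, 0, 1, [(0, [2], [0, 5]), (0, [0], [2, 4]), (0, [1], [1, 3]), (4, [], [5])]),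
  (72, 0, 1, [(0, [2], [0, 5]), (0, [0], [3, 4]), (0, [1], [1, 2]), (4, [], [5])]),
  (-72, 0, 1, [(0, [2], [1, 5]), (0, [0], [0, 4]), (0, [1], [2, 3]), (4, [], [5])]),
  (360, 0, 1, [(0, [2], [1, 5]), (0, [0], [0, 2]), (0, [1], [3, 4]), (4, [], [5])]),
  (-360, 0, 1, [(0, [2], [1, 5]), (0, [0], [2, 3]), (0, [1], [0, 4]), (4, [], [5])]),
  (72, 0, 1, [(0, [2], [1, 5]), (0, [0], [3, 4]), (0, [1], [0, 2]), (4, [], [5])]),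
  (-432, 0, 1, [(0, [2], [2, 5]), (0, [0], [0, 4]), (0, [1], [1, 3]), (4, [], [5])]),
  (432, 0, 1, [(0, [2], [2, 5]), (0, [0], [0, 1]), (0, [1], [3, 4]), (4, [], [5])]),
  (-432, 0, 1, [(0, [2], [2, 5]), (0, [0], [1, 3]), (0, [1], [0, 4]), (4, [], [5])]),
  (432, 0, 1, [(0, [2], [2, 5]), (0, [0], [3, 4]), (0, [1], [0, 1]), (4, [], [5])]),
  (-72, 0, 1, [(0, [2], [3, 5]), (0, [0], [0, 4]), (0, [1], [1, 2]), (4, [], [5])]),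
  (72, 0, 1, [(0, [2], [3, 5]), (0, [0], [0, 1]), (0, [1], [2, 4]), (4, [], [5])]),
  (-360, 0, 1, [(0, [2], [3, 5]), (0, [0], [1, 2]), (0, [1], [0, 4]), (4, [], [5])]),
  (360, 0, 1, [(0, [2], [3, 5]), (0, [0], [2, 4]), (0, [1], [0, 1]), (4, [], [5])]),
  (-360, 0, 1, [(0, [2], [4, 5]), (0, [0], [0, 2]), (0, [1], [1, 3]), (4, [], [5])]),
  (72, 0, 1, [(0, [2], [4, 5]), (0, [0], [0, 1]), (0, [1], [2, 3]), (4, [], [5])]),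
  (-72, 0, 1, [(0, [2], [4, 5]), (0, [0], [1, 3]), (0, [1], [0, 2]), (4, [], [5])]),
  (360, 0, 1, [(0, [2], [4, 5]), (0, [0], [2, 3]), (0, [1], [0, 1]), (4, [], [5])])]

def z27_4 : Cov := [(0, 0, 1, [(0, [0], [0, 5]), (0, [1], [1, 4]), (0, [2], [2, 3]), (4, [], [5])]),
  (0, 0, 1, [(0, [0], [0, 5]), (0, [1], [2, 3]), (0, [2], [1, 4]), (4, [], [5])]),
  (0, 0, 1, [(0, [0], [1, 5]), (0, [1], [0, 3]), (0, [2], [2, 4]), (4, [], [5])]),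
  (0, 0, 1, [(0, [0], [1, 5]), (0, [1], [2, 4]), (0, [2], [0, 3]), (4, [], [5])]),
  (0, 0, 1, [(0, [0], [2, 5]), (0, [1], [0, 3]), (0, [2], [1, 4]), (4, [], [5])]),
  (0, 0, 1, [(0, [0], [2, 5]), (0, [1], [1, 4]), (0, [2], [0, 3]), (4, [], [5])]),
  (0, 0, 1, [(0, [0], [3, 5]), (0, [1], [0, 2]), (0, [2], [1, 4]), (4, [], [5])]),
  (0, 0, 1, [(0, [0], [3, 5]), (0, [1], [1, 4]), (0, [2], [0, 2]), (4, [], [5])]),
  (0, 0, 1, [(0, [0], [4, 5]), (0, [1], [0, 3]), (0, [2], [1, 2]), (4, [], [5])]),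
  (0, 0, 1, [(0, [0], [4, 5]), (0, [1], [1, 2]), (0, [2], [0, 3]), (4, [], [5])]),
  (0, 0, 1, [(0, [1], [0, 5]), (0, [0], [1, 4]), (0, [2], [2, 3]), (4, [], [5])]),
  (0, 0, 1, [(0, [1], [0, 5]), (0, [0], [2, 3]), (0, [2], [1, 4]), (4, [], [5])]),
  (0, 0, 1, [(0, [1], [1, 5]), (0, [0], [0, 3]), (0, [2], [2, 4]), (4, [], [5])]),
  (0, 0, 1, [(0, [1], [1, 5]), (0, [0], [2, 4]), (0, [2], [0, 3]), (4, [], [5])]),
  (0, 0, 1, [(0, [1], [2, 5]), (0, [0], [0, 3]), (0, [2], [1, 4]), (4, [], [5])]),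
  (0, 0, 1, [(0, [1], [2, 5]), (0, [0], [0, 4]), (0, [2], [1, 3]), (4, [], [5])]),
  (0, 0, 1, [(0, [1], [2, 5]), (0, [0], [0, 1]), (0, [2], [3, 4]), (4, [], [5])]),
  (0, 0, 1, [(0, [1], [2, 5]), (0, [0], [1, 3]), (0, [2], [0, 4]), (4, [], [5])]),
  (0, 0, 1, [(0, [1], [2, 5]), (0, [0], [1, 4]), (0, [2], [0, 3]), (4, [], [5])]),
  (0, 0, 1, [(0, [1], [2, 5]), (0, [0], [3, 4]), (0, [2], [0, 1]), (4, [], [5])]),
  (0, 0, 1, [(0, [1], [3, 5]), (0, [0], [0, 2]), (0, [2], [1, 4]), (4, [], [5])]),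
  (0, 0, 1, [(0, [1], [3, 5]), (0, [0], [1, 4]), (0, [2], [0, 2]), (4, [], [5])]),
  (0, 0, 1, [(0, [1], [4, 5]), (0, [0], [0, 3]), (0, [2], [1, 2]), (4, [], [5])]),
  (0, 0, 1, [(0, [1], [4, 5]), (0, [0], [1, 2]), (0, [2], [0, 3]), (4, [], [5])]),
  (0, 0, 1, [(0, [2], [0, 5]), (0, [0], [1, 4]), (0, [1], [2, 3]), (4, [], [5])]),
  (0, 0, 1, [(0, [2], [0, 5]), (0, [0], [2, 3]), (0, [1], [1, 4]), (4, [], [5])]),
  (0, 0, 1, [(0, [2], [1, 5]), (0, [0], [0, 3]), (0, [1], [2, 4]), (4, [], [5])]),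
  (0, 0, 1, [(0, [2], [1, 5]), (0, [0], [2, 4]), (0, [1], [0, 3]), (4, [], [5])]),
  (0, 0, 1, [(0, [2], [2, 5]), (0, [0], [0, 3]), (0, [1], [1, 4]), (4, [], [5])]),
  (0, 0, 1, [(0, [2], [2, 5]), (0, [0], [1, 4]), (0, [1], [0, 3]), (4, [], [5])]),
  (0, 0, 1, [(0, [2], [3, 5]), (0, [0], [0, 2]), (0, [1], [1, 4]), (4, [], [5])]),
  (0, 0, 1, [(0, [2], [3, 5]), (0, [0], [1, 4]), (0, [1], [0, 2]), (4, [], [5])]),
  (0, 0, 1, [(0, [2], [4, 5]), (0, [0], [0, 3]), (0, [1], [1, 2]), (4, [], [5])]),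
  (0, 0, 1, [(0, [2], [4, 5]), (0, [0], [1, 2]), (0, [1], [0, 3]), (4, [], [5])])]

def w27_4 : List (List Wit) := [[(0, 0, 0, 0, 0), (56, 0, 0, 0, 0), (1, 0, 0, 0, 0), (56, 0, 0, 0, 0), (1, 0, 0, 0, 0), (0, 0, 0, 0, 0), (57, 0, 0, 0, 0), (2, 0, 0, 0, 0), (1, 0, 0, 0, 0), (2, 0, 0, 0, 0), (1, 0, 0, 0, 0), (57, 0, 0, 0, 0), (57, 0, 0, 0, 0), (3, 0, 0, 0, 0), (0, 0, 0, 0, 0), (3, 0, 0, 0, 0), (0, 0, 0, 0, 0), (57, 0, 0, 0, 0), (2, 0, 0, 0, 0), (3, 0, 0, 0, 0), (56, 0, 0, 0, 0), (3, 0, 0, 0, 0), (56, 0, 0, 0, 0), (2, 0, 0, 0, 0), (58, 0, 0, 0, 0), (4, 0, 0, 0, 0), (5, 0, 0, 0, 0), (4, 0, 0, 0, 0), (5, 0, 0, 0, 0), (58, 0, 0, 0, 0), (6, 0, 0, 0, 0), (59, 0, 0, 0, 0), (5, 0, 0, 0, 0), (59, 0, 0, 0, 0), (5, 0, 0, 0, 0), (6, 0, 0, 0, 0), (6, 0, 0, 0, 0), (7, 0, 0, 0, 0), (58, 0, 0, 0, 0), (7, 0, 0, 0, 0), (58, 0, 0, 0, 0), (6, 0, 0,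 0, 0), (59, 0, 0, 0, 0), (7, 0, 0, 0, 0), (4, 0, 0, 0, 0), (7, 0, 0, 0, 0), (4, 0, 0, 0, 0), (59, 0, 0, 0, 0), (60, 0, 0, 0, 0), (8, 0, 0, 0, 0), (9, 0, 0, 0, 0), (8, 0, 0, 0, 0), (9, 0, 0, 0, 0), (60, 0, 0, 0, 0), (10, 0, 0, 0, 0), (61, 0, 0, 0, 0), (9, 0, 0, 0, 0), (61, 0, 0, 0, 0), (9, 0, 0, 0, 0), (10, 0, 0, 0, 0), (10, 0, 0, 0, 0), (11, 0, 0, 0, 0), (60, 0, 0, 0, 0), (11, 0, 0, 0, 0), (60, 0, 0, 0, 0), (10, 0, 0, 0, 0), (61, 0, 0, 0, 0), (11, 0, 0, 0, 0), (8, 0, 0, 0, 0), (11, 0, 0, 0, 0), (8, 0, 0, 0, 0), (61, 0, 0, 0, 0), (62, 0, 0, 0, 0), (12, 0, 0, 0, 0), (13, 0, 0, 0, 0), (12, 0, 0, 0, 0), (13, 0, 0, 0, 0), (62, 0, 0, 0, 0), (14, 0, 0, 0, 0), (63, 0, 0, 0, 0), (13, 0, 0, 0, 0), (63, 0, 0, 0, 0), (13, 0, 0, 0, 0), (14, 0, 0, 0, 0), (14, 0, 0, 0, 0), (15, 0, 0, 0, 0), (62, 0, 0, 0, 0), (15, 0, 0, 0, 0), (62, 0, 0, 0,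 0), (14, 0, 0, 0, 0), (63, 0, 0, 0, 0), (15, 0, 0, 0, 0), (12, 0, 0, 0, 0), (15, 0, 0, 0, 0), (12, 0, 0, 0, 0), (63, 0, 0, 0, 0), (16, 0, 0, 0, 0), (64, 0, 0, 0, 0), (17, 0, 0, 0, 0), (64, 0, 0, 0, 0), (17, 0, 0, 0, 0), (16, 0, 0, 0, 0), (65, 0, 0, 0, 0), (18, 0, 0, 0, 0), (17, 0, 0, 0, 0), (18, 0, 0, 0, 0), (17, 0, 0, 0, 0), (65, 0, 0, 0, 0), (65, 0, 0, 0, 0), (19, 0, 0, 0, 0), (16, 0, 0, 0, 0), (19, 0, 0, 0, 0), (16, 0, 0, 0, 0), (65, 0, 0, 0, 0), (18, 0, 0, 0, 0), (19, 0, 0, 0, 0), (64, 0, 0, 0, 0), (19, 0, 0, 0, 0), (64, 0, 0, 0, 0), (18, 0, 0, 0, 0)],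
  [(2, 0, 0, 0, 0), (57, 0, 0, 0, 0), (3, 0, 0, 0, 0), (57, 0, 0, 0, 0), (3, 0, 0, 0, 0), (2, 0, 0, 0, 0), (56, 0, 0, 0, 0), (0, 0, 0, 0, 0), (3, 0, 0, 0, 0), (0, 0, 0, 0, 0), (3, 0, 0, 0, 0), (56, 0, 0, 0, 0), (56, 0, 0, 0, 0), (1, 0, 0, 0, 0), (2, 0, 0, 0, 0), (1, 0, 0, 0, 0), (2, 0, 0, 0, 0), (56, 0, 0, 0, 0), (0, 0, 0, 0, 0), (1, 0, 0, 0, 0), (57, 0, 0, 0, 0), (1, 0, 0, 0, 0), (57, 0, 0, 0, 0), (0, 0, 0, 0, 0), (59, 0, 0, 0, 0), (6, 0, 0, 0, 0), (7, 0, 0, 0, 0), (6, 0, 0, 0, 0), (7, 0, 0, 0, 0), (59, 0, 0, 0, 0), (4, 0, 0, 0, 0), (58, 0, 0, 0, 0), (7, 0, 0, 0, 0), (58, 0, 0, 0, 0), (7, 0, 0, 0, 0), (4, 0, 0, 0, 0), (4, 0, 0, 0, 0), (5, 0, 0, 0, 0), (59, 0, 0, 0, 0), (5, 0, 0, 0, 0), (59, 0, 0, 0, 0), (4, 0, 0, 0, 0), (58, 0, 0, 0, 0), (5, 0, 0, 0, 0), (6, 0, 0, 0, 0), (5, 0, 0, 0, 0), (6, 0, 0, 0, 0), (58, 0, 0, 0, 0), (61,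 0, 0, 0, 0), (10, 0, 0, 0, 0), (11, 0, 0, 0, 0), (10, 0, 0, 0, 0), (11, 0, 0, 0, 0), (61, 0, 0, 0, 0), (8, 0, 0, 0, 0), (60, 0, 0, 0, 0), (11, 0, 0, 0, 0), (60, 0, 0, 0, 0), (11, 0, 0, 0, 0), (8, 0, 0, 0, 0), (8, 0, 0, 0, 0), (9, 0, 0, 0, 0), (61, 0, 0, 0, 0), (9, 0, 0, 0, 0), (61, 0, 0, 0, 0), (8, 0, 0, 0, 0), (60, 0, 0, 0, 0), (9, 0, 0, 0, 0), (10, 0, 0, 0, 0), (9, 0, 0, 0, 0), (10, 0, 0, 0, 0), (60, 0, 0, 0, 0), (63, 0, 0, 0, 0), (14, 0, 0, 0, 0), (15, 0, 0, 0, 0), (14, 0, 0, 0, 0), (15, 0, 0, 0, 0), (63, 0, 0, 0, 0), (12, 0, 0, 0, 0), (62, 0, 0, 0, 0), (15, 0, 0, 0, 0), (62, 0, 0, 0, 0), (15, 0, 0, 0, 0), (12, 0, 0, 0, 0), (12, 0, 0, 0, 0), (13, 0, 0, 0, 0), (63, 0, 0, 0, 0), (13, 0, 0, 0, 0), (63, 0, 0, 0, 0), (12, 0, 0, 0, 0), (62, 0, 0, 0, 0), (13, 0, 0, 0, 0), (14, 0, 0, 0, 0), (13, 0, 0, 0, 0), (14, 0, 0, 0, 0), (62,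 0, 0, 0, 0), (18, 0, 0, 0, 0), (65, 0, 0, 0, 0), (19, 0, 0, 0, 0), (65, 0, 0, 0, 0), (19, 0, 0, 0, 0), (18, 0, 0, 0, 0), (64, 0, 0, 0, 0), (16, 0, 0, 0, 0), (19, 0, 0, 0, 0), (16, 0, 0, 0, 0), (19, 0, 0, 0, 0), (64, 0, 0, 0, 0), (64, 0, 0, 0, 0), (17, 0, 0, 0, 0), (18, 0, 0, 0, 0), (17, 0, 0, 0, 0), (18, 0, 0, 0, 0), (64, 0, 0, 0, 0), (16, 0, 0, 0, 0), (17, 0, 0, 0, 0), (65, 0, 0, 0, 0), (17, 0, 0, 0, 0), (65, 0, 0, 0, 0), (16, 0, 0, 0, 0)],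
  [(20, 0, 0, 0, 0), (66, 0, 0, 0, 0), (21, 0, 0, 0, 0), (66, 0, 0, 0, 0), (21, 0, 0, 0, 0), (20, 0, 0, 0, 0), (67, 0, 0, 0, 0), (22, 0, 0, 0, 0), (21, 0, 0, 0, 0), (22, 0, 0, 0, 0), (21, 0, 0, 0, 0), (67, 0, 0, 0, 0), (67, 0, 0, 0, 0), (23, 0, 0, 0, 0), (20, 0, 0, 0, 0), (23, 0, 0, 0, 0), (20, 0, 0, 0, 0), (67, 0, 0, 0, 0), (22, 0, 0, 0, 0), (23, 0, 0, 0, 0), (66, 0, 0, 0, 0), (23, 0, 0, 0, 0), (66, 0, 0, 0, 0), (22, 0, 0, 0, 0), (68, 0, 0, 0, 0), (24, 0, 0, 0, 0), (25, 0, 0, 0, 0), (24, 0, 0, 0, 0), (25, 0, 0, 0, 0), (68, 0, 0, 0, 0), (26, 0, 0, 0, 0), (69, 0, 0, 0, 0), (25, 0, 0, 0, 0), (69, 0, 0, 0, 0), (25, 0, 0, 0, 0), (26, 0, 0, 0, 0), (26, 0, 0, 0, 0), (27, 0, 0, 0, 0), (68, 0, 0, 0, 0), (27, 0, 0, 0, 0), (68, 0, 0, 0, 0), (26, 0, 0, 0, 0), (69, 0, 0, 0, 0), (27, 0, 0, 0, 0), (24, 0, 0, 0, 0), (27, 0, 0, 0, 0), (24,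 0, 0, 0, 0), (69, 0, 0, 0, 0), (70, 0, 0, 0, 0), (71, 0, 0, 0, 0), (72, 0, 0, 0, 0), (71, 0, 0, 0, 0), (72, 0, 0, 0, 0), (70, 0, 0, 0, 0), (73, 0, 0, 0, 0), (74, 0, 0, 0, 0), (72, 0, 0, 0, 0), (74, 0, 0, 0, 0), (72, 0, 0, 0, 0), (73, 0, 0, 0, 0), (73, 0, 0, 0, 0), (75, 0, 0, 0, 0), (70, 0, 0, 0, 0), (75, 0, 0, 0, 0), (70, 0, 0, 0, 0), (73, 0, 0, 0, 0), (74, 0, 0, 0, 0), (75, 0, 0, 0, 0), (71, 0, 0, 0, 0), (75, 0, 0, 0, 0), (71, 0, 0, 0, 0), (74, 0, 0, 0, 0), (76, 0, 0, 0, 0), (28, 0, 0, 0, 0), (29, 0, 0, 0, 0), (28, 0, 0, 0, 0), (29, 0, 0, 0, 0), (76, 0, 0, 0, 0), (30, 0, 0, 0, 0), (77, 0, 0, 0, 0), (29, 0, 0, 0, 0), (77, 0, 0, 0, 0), (29, 0, 0, 0, 0), (30, 0, 0, 0, 0), (30, 0, 0, 0, 0), (31, 0, 0, 0, 0), (76, 0, 0, 0, 0), (31, 0, 0, 0, 0), (76, 0, 0, 0, 0), (30, 0, 0, 0, 0), (77, 0, 0, 0, 0), (31, 0, 0, 0, 0), (28, 0, 0, 0,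 0), (31, 0, 0, 0, 0), (28, 0, 0, 0, 0), (77, 0, 0, 0, 0), (32, 0, 0, 0, 0), (78, 0, 0, 0, 0), (33, 0, 0, 0, 0), (78, 0, 0, 0, 0), (33, 0, 0, 0, 0), (32, 0, 0, 0, 0), (79, 0, 0, 0, 0), (34, 0, 0, 0, 0), (33, 0, 0, 0, 0), (34, 0, 0, 0, 0), (33, 0, 0, 0, 0), (79, 0, 0, 0, 0), (79, 0, 0, 0, 0), (35, 0, 0, 0, 0), (32, 0, 0, 0, 0), (35, 0, 0, 0, 0), (32, 0, 0, 0, 0), (79, 0, 0, 0, 0), (34, 0, 0, 0, 0), (35, 0, 0, 0, 0), (78, 0, 0, 0, 0), (35, 0, 0, 0, 0), (78, 0, 0, 0, 0), (34, 0, 0, 0, 0)],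
  [(22, 0, 0, 0, 0), (67, 0, 0, 0, 0), (23, 0, 0, 0, 0), (67, 0, 0, 0, 0), (23, 0, 0, 0, 0), (22, 0, 0, 0, 0), (66, 0, 0, 0, 0), (20, 0, 0, 0, 0), (23, 0, 0, 0, 0), (20, 0, 0, 0, 0), (23, 0, 0, 0, 0), (66, 0, 0, 0, 0), (66, 0, 0, 0, 0), (21, 0, 0, 0, 0), (22, 0, 0, 0, 0), (21, 0, 0, 0, 0), (22, 0, 0, 0, 0), (66, 0, 0, 0, 0), (20, 0, 0, 0, 0), (21, 0, 0, 0, 0), (67, 0, 0, 0, 0), (21, 0, 0, 0, 0), (67, 0, 0, 0, 0), (20, 0, 0, 0, 0), (69, 0, 0, 0, 0), (26, 0, 0, 0, 0), (27, 0, 0, 0, 0), (26, 0, 0, 0, 0), (27, 0, 0, 0, 0), (69, 0, 0, 0, 0), (24, 0, 0, 0, 0), (68, 0, 0, 0, 0), (27, 0, 0, 0, 0), (68, 0, 0, 0, 0), (27, 0, 0, 0, 0), (24, 0, 0, 0, 0), (24, 0, 0, 0, 0), (25, 0, 0, 0, 0), (69, 0, 0, 0, 0), (25, 0, 0, 0, 0), (69, 0, 0, 0, 0), (24, 0, 0, 0, 0), (68, 0, 0, 0, 0), (25, 0, 0, 0, 0), (26, 0, 0, 0, 0), (25, 0, 0, 0, 0), (26,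 0, 0, 0, 0), (68, 0, 0, 0, 0), (74, 0, 0, 0, 0), (73, 0, 0, 0, 0), (75, 0, 0, 0, 0), (73, 0, 0, 0, 0), (75, 0, 0, 0, 0), (74, 0, 0, 0, 0), (71, 0, 0, 0, 0), (70, 0, 0, 0, 0), (75, 0, 0, 0, 0), (70, 0, 0, 0, 0), (75, 0, 0, 0, 0), (71, 0, 0, 0, 0), (71, 0, 0, 0, 0), (72, 0, 0, 0, 0), (74, 0, 0, 0, 0), (72, 0, 0, 0, 0), (74, 0, 0, 0, 0), (71, 0, 0, 0, 0), (70, 0, 0, 0, 0), (72, 0, 0, 0, 0), (73, 0, 0, 0, 0), (72, 0, 0, 0, 0), (73, 0, 0, 0, 0), (70, 0, 0, 0, 0), (77, 0, 0, 0, 0), (30, 0, 0, 0, 0), (31, 0, 0, 0, 0), (30, 0, 0, 0, 0), (31, 0, 0, 0, 0), (77, 0, 0, 0, 0), (28, 0, 0, 0, 0), (76, 0, 0, 0, 0), (31, 0, 0, 0, 0), (76, 0, 0, 0, 0), (31, 0, 0, 0, 0), (28, 0, 0, 0, 0), (28, 0, 0, 0, 0), (29, 0, 0, 0, 0), (77, 0, 0, 0, 0), (29, 0, 0, 0, 0), (77, 0, 0, 0, 0), (28, 0, 0, 0, 0), (76, 0, 0, 0, 0), (29, 0, 0, 0, 0), (30, 0, 0, 0,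 0), (29, 0, 0, 0, 0), (30, 0, 0, 0, 0), (76, 0, 0, 0, 0), (34, 0, 0, 0, 0), (79, 0, 0, 0, 0), (35, 0, 0, 0, 0), (79, 0, 0, 0, 0), (35, 0, 0, 0, 0), (34, 0, 0, 0, 0), (78, 0, 0, 0, 0), (32, 0, 0, 0, 0), (35, 0, 0, 0, 0), (32, 0, 0, 0, 0), (35, 0, 0, 0, 0), (78, 0, 0, 0, 0), (78, 0, 0, 0, 0), (33, 0, 0, 0, 0), (34, 0, 0, 0, 0), (33, 0, 0, 0, 0), (34, 0, 0, 0, 0), (78, 0, 0, 0, 0), (32, 0, 0, 0, 0), (33, 0, 0, 0, 0), (79, 0, 0, 0, 0), (33, 0, 0, 0, 0), (79, 0, 0, 0, 0), (32, 0, 0, 0, 0)],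
  [(36, 0, 0, 0, 0), (80, 0, 0, 0, 0), (37, 0, 0, 0, 0), (80, 0, 0, 0, 0), (37, 0, 0, 0, 0), (36, 0, 0, 0, 0), (81, 0, 0, 0, 0), (38, 0, 0, 0, 0), (37, 0, 0, 0, 0), (38, 0, 0, 0, 0), (37, 0, 0, 0, 0), (81, 0, 0, 0, 0), (81, 0, 0, 0, 0), (39, 0, 0, 0, 0), (36, 0, 0, 0, 0), (39, 0, 0, 0, 0), (36, 0, 0, 0, 0), (81, 0, 0, 0, 0), (38, 0, 0, 0, 0), (39, 0, 0, 0, 0), (80, 0, 0, 0, 0), (39, 0, 0, 0, 0), (80, 0, 0, 0, 0), (38, 0, 0, 0, 0), (82, 0, 0, 0, 0), (40, 0, 0, 0, 0), (41, 0, 0, 0, 0), (40, 0, 0, 0, 0), (41, 0, 0, 0, 0), (82, 0, 0, 0, 0), (42, 0, 0, 0, 0), (83, 0, 0, 0, 0), (41, 0, 0, 0, 0), (83, 0, 0, 0, 0), (41, 0, 0, 0, 0), (42, 0, 0, 0, 0), (42, 0, 0, 0, 0), (43, 0, 0, 0, 0), (82, 0, 0, 0, 0), (43, 0, 0, 0, 0), (82, 0, 0, 0, 0), (42, 0, 0, 0, 0), (83, 0, 0, 0, 0), (43, 0, 0, 0, 0), (40, 0, 0, 0, 0), (43, 0, 0, 0, 0), (40,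 0, 0, 0, 0), (83, 0, 0, 0, 0), (84, 0, 0, 0, 0), (44, 0, 0, 0, 0), (45, 0, 0, 0, 0), (44, 0, 0, 0, 0), (45, 0, 0, 0, 0), (84, 0, 0, 0, 0), (46, 0, 0, 0, 0), (85, 0, 0, 0, 0), (45, 0, 0, 0, 0), (85, 0, 0, 0, 0), (45, 0, 0, 0, 0), (46, 0, 0, 0, 0), (46, 0, 0, 0, 0), (47, 0, 0, 0, 0), (84, 0, 0, 0, 0), (47, 0, 0, 0, 0), (84, 0, 0, 0, 0), (46, 0, 0, 0, 0), (85, 0, 0, 0, 0), (47, 0, 0, 0, 0), (44, 0, 0, 0, 0), (47, 0, 0, 0, 0), (44, 0, 0, 0, 0), (85, 0, 0, 0, 0), (86, 0, 0, 0, 0), (48, 0, 0, 0, 0), (49, 0, 0, 0, 0), (48, 0, 0, 0, 0), (49, 0, 0, 0, 0), (86, 0, 0, 0, 0), (50, 0, 0, 0, 0), (87, 0, 0, 0, 0), (49, 0, 0, 0, 0), (87, 0, 0, 0, 0), (49, 0, 0, 0, 0), (50, 0, 0, 0, 0), (50, 0, 0, 0, 0), (51, 0, 0, 0, 0), (86, 0, 0, 0, 0), (51, 0, 0, 0, 0), (86, 0, 0, 0, 0), (50, 0, 0, 0, 0), (87, 0, 0, 0, 0), (51, 0, 0, 0, 0), (48, 0, 0, 0,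 0), (51, 0, 0, 0, 0), (48, 0, 0, 0, 0), (87, 0, 0, 0, 0), (52, 0, 0, 0, 0), (88, 0, 0, 0, 0), (53, 0, 0, 0, 0), (88, 0, 0, 0, 0), (53, 0, 0, 0, 0), (52, 0, 0, 0, 0), (89, 0, 0, 0, 0), (54, 0, 0, 0, 0), (53, 0, 0, 0, 0), (54, 0, 0, 0, 0), (53, 0, 0, 0, 0), (89, 0, 0, 0, 0), (89, 0, 0, 0, 0), (55, 0, 0, 0, 0), (52, 0, 0, 0, 0), (55, 0, 0, 0, 0), (52, 0, 0, 0, 0), (89, 0, 0, 0, 0), (54, 0, 0, 0, 0), (55, 0, 0, 0, 0), (88, 0, 0, 0, 0), (55, 0, 0, 0, 0), (88, 0, 0, 0, 0), (54, 0, 0, 0, 0)],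
  [(38, 0, 0, 0, 0), (81, 0, 0, 0, 0), (39, 0, 0, 0, 0), (81, 0, 0, 0, 0), (39, 0, 0, 0, 0), (38, 0, 0, 0, 0), (80, 0, 0, 0, 0), (36, 0, 0, 0, 0), (39, 0, 0, 0, 0), (36, 0, 0, 0, 0), (39, 0, 0, 0, 0), (80, 0, 0, 0, 0), (80, 0, 0, 0, 0), (37, 0, 0, 0, 0), (38, 0, 0, 0, 0), (37, 0, 0, 0, 0), (38, 0, 0, 0, 0), (80, 0, 0, 0, 0), (36, 0, 0, 0, 0), (37, 0, 0, 0, 0), (81, 0, 0, 0, 0), (37, 0, 0, 0, 0), (81, 0, 0, 0, 0), (36, 0, 0, 0, 0), (83, 0, 0, 0, 0), (42, 0, 0, 0, 0), (43, 0, 0, 0, 0), (42, 0, 0, 0, 0), (43, 0, 0, 0, 0), (83, 0, 0, 0, 0), (40, 0, 0, 0, 0), (82, 0, 0, 0, 0), (43, 0, 0, 0, 0), (82, 0, 0, 0, 0), (43, 0, 0, 0, 0), (40, 0, 0, 0, 0), (40, 0, 0, 0, 0), (41, 0, 0, 0, 0), (83, 0, 0, 0, 0), (41, 0, 0, 0, 0), (83, 0, 0, 0, 0), (40, 0, 0, 0, 0), (82, 0, 0, 0, 0), (41, 0, 0, 0, 0), (42, 0, 0, 0, 0), (41, 0, 0, 0, 0), (42,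 0, 0, 0, 0), (82, 0, 0, 0, 0), (85, 0, 0, 0, 0), (46, 0, 0, 0, 0), (47, 0, 0, 0, 0), (46, 0, 0, 0, 0), (47, 0, 0, 0, 0), (85, 0, 0, 0, 0), (44, 0, 0, 0, 0), (84, 0, 0, 0, 0), (47, 0, 0, 0, 0), (84, 0, 0, 0, 0), (47, 0, 0, 0, 0), (44, 0, 0, 0, 0), (44, 0, 0, 0, 0), (45, 0, 0, 0, 0), (85, 0, 0, 0, 0), (45, 0, 0, 0, 0), (85, 0, 0, 0, 0), (44, 0, 0, 0, 0), (84, 0, 0, 0, 0), (45, 0, 0, 0, 0), (46, 0, 0, 0, 0), (45, 0, 0, 0, 0), (46, 0, 0, 0, 0), (84, 0, 0, 0, 0), (87, 0, 0, 0, 0), (50, 0, 0, 0, 0), (51, 0, 0, 0, 0), (50, 0, 0, 0, 0), (51, 0, 0, 0, 0), (87, 0, 0, 0, 0), (48, 0, 0, 0, 0), (86, 0, 0, 0, 0), (51, 0, 0, 0, 0), (86, 0, 0, 0, 0), (51, 0, 0, 0, 0), (48, 0, 0, 0, 0), (48, 0, 0, 0, 0), (49, 0, 0, 0, 0), (87, 0, 0, 0, 0), (49, 0, 0, 0, 0), (87, 0, 0, 0, 0), (48, 0, 0, 0, 0), (86, 0, 0, 0, 0), (49, 0, 0, 0, 0), (50, 0, 0, 0,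 0), (49, 0, 0, 0, 0), (50, 0, 0, 0, 0), (86, 0, 0, 0, 0), (54, 0, 0, 0, 0), (89, 0, 0, 0, 0), (55, 0, 0, 0, 0), (89, 0, 0, 0, 0), (55, 0, 0, 0, 0), (54, 0, 0, 0, 0), (88, 0, 0, 0, 0), (52, 0, 0, 0, 0), (55, 0, 0, 0, 0), (52, 0, 0, 0, 0), (55, 0, 0, 0, 0), (88, 0, 0, 0, 0), (88, 0, 0, 0, 0), (53, 0, 0, 0, 0), (54, 0, 0, 0, 0), (53, 0, 0, 0, 0), (54, 0, 0, 0, 0), (88, 0, 0, 0, 0), (52, 0, 0, 0, 0), (53, 0, 0, 0, 0), (89, 0, 0, 0, 0), (53, 0, 0, 0, 0), (89, 0, 0, 0, 0), (52, 0, 0, 0, 0)]]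

theorem tr27 : trK keys lk27 kl27 = true := by
  decide +kernel

theorem x27_0 : expB 3 5 dg2 dg6 m27_0 (l27_0 ++ z27_0) w27_0 = true := by
  decide +kernel

theorem x27_1 : expB 3 5 dg2 dg6 m27_1 (l27_1 ++ z27_1) w27_1 = true := by
  decide +kernel

theorem x27_2 : expB 3 5 dg2 dg6 m27_2 (l27_2 ++ z27_2) w27_2 = true := by
  decide +kernel

theorem x27_3 : expB 3 5 dg2 dg6 m27_3 (l27_3 ++ z27_3) w27_3 = true := by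
  decide +kernel

theorem x27_4 : expB 3 5 dg2 dg6 m27_4 (l27_4 ++ z27_4) w27_4 = true := by
  decide +kernel

theorem t27_0_0 : chkS lk27 3 5 [(1, m27_0)] l27_0
  [(20, 33, 258, 103026771, 101975346), (24, 528, 528, 34891056, 52696656), (24, 528, 528, 34887216, 36968016), (23, 528, 528, 34887216, 36968016), (12, 18, 18, 55640676, 22045251), (23, 528, 528, 34891056, 52696656), (12, 18, 18, 55648356, 22045506), (12, 18, 18, 87429156, 73421106), (12, 18, 18, 87425316, 73421091), (14, 18, 18, 86380596, 73405746), (21, 33, 258, 87298146, 23351346), (33, 33, 258, 88215651, 23397426), (33, 33, 258, 88211811, 23397411), (39, 18, 18, 72552546, 22429746), (11, 18, 18, 54592101, 17130051), (28, 18, 18, 55840866, 22306866), (39, 18, 18, 72548706, 22429731), (11, 18, 18, 54599781, 17130306), (11, 33, 258, 70586466, 21385266), (13, 33, 258,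 69537891, 21366066), (28, 33, 258, 55836966, 5529891), (11, 33, 258, 54592086, 1401411), (27, 513, 513, 34891011, 52692561), (12, 33, 258, 55640646, 5333571), (44, 528, 528, 51733056, 54616656), (41, 513, 513, 50669076, 37774101), (41, 33, 258, 73732131, 88473906), (29, 33, 258, 56951076, 88105251), (28, 33, 258, 55840806, 5529906), (11, 33, 258, 54599766, 1401666), (23, 513, 513, 34891011, 52692561), (27, 513, 513, 34887171, 36963921), (12, 33, 258, 55648326, 5333826), (44, 528, 528, 51717696, 37839696), (41, 513, 513, 50684436, 54551061), (41, 33, 258, 73728291, 88473891), (27, 33, 258, 55840866, 22306866), (29, 33, 258, 56954916, 88105266), (11, 18, 18, 70586406, 4608306), (11, 18, 18, 70582566, 4608291), (13, 18, 18, 69537846, 4592946), (12, 33, 258, 87429186, 73486386), (14, 33, 258, 86380611, 73467186), (41, 18, 18, 73732146,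 88477746), (27, 18, 18, 55836966, 5529891), (41, 18, 18, 73728306, 88477731), (29, 18, 18, 56954946, 88170546), (27, 18, 18, 55840806, 5529906), (25, 528, 528, 34891056, 52696656), (26, 528, 528, 34891056, 52696656), (22, 528, 528, 34891056, 52696656), (19, 528, 528, 35017776, 70391376), (22, 528, 528, 34887216, 36968016), (19, 528, 528, 35013936, 69408336), (19, 288, 288, 19096896, 52512096), (18, 18, 18, 38998116, 22038066), (35, 18, 18, 55840866, 22306866), (38, 18, 18, 55840866, 22306866), (11, 33, 258, 40177716, 88086066), (16, 528, 528, 33969201, 70391301), (28, 18, 18, 40108371, 85198371), (16, 528, 528, 33965361, 69408261), (39, 18, 18, 40046676, 84952626), (2, 528, 528, 19162371, 52692321), (28, 513, 513, 101983491, 103023441), (39, 513, 513, 100869396, 102777621), (15, 33, 258, 56954916, 88105266), (40, 258, 33, 102827061,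 100799811), (4, 513, 513, 101926146, 102973521), (7, 33, 258, 40173876, 88086051), (7, 513, 513, 101929986, 103956561), (16, 33, 258, 5317446, 5317446), (28, 513, 513, 101995011, 104071761), (39, 513, 513, 100880916, 103825941), (42, 513, 513, 85221891, 56885841), (40, 258, 33, 102842421, 100865346), (4, 513, 513, 101929986, 103956561), (7, 33, 258, 40177716, 88086066), (15, 513, 513, 67461651, 54919701), (16, 33, 258, 5321286, 5321286), (16, 288, 288, 2188611, 52495686), (2, 288, 288, 34825536, 52512336), (40, 18, 18, 40177716, 88086066), (34, 18, 18, 39063606, 5510706), (5, 513, 513, 101929986, 103956561), (19, 513, 513, 85337091, 73532241), (16, 513, 513, 84296211, 73597461), (19, 513, 513, 85344771, 73597521), (35, 33, 258, 55840806, 5529906), (38, 33, 258, 55840806, 5529906), (38, 33, 258, 55836966, 5529891), (28, 33, 258,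 40112181, 84153906), (16, 513, 513, 33969171, 70387221), (28, 33, 258, 40108341, 84153891), (16, 513, 513, 33965331, 69404181), (39, 33, 258, 40046661, 83969586), (39, 33, 258, 40042821, 83969571), (2, 513, 513, 19162416, 52696416), (25, 513, 513, 34891011, 52692561), (26, 513, 513, 34891011, 52692561), (26, 513, 513, 34887171, 36963921), (9, 18, 18, 40177716, 88086066), (19, 513, 513, 35017731, 70387281), (22, 528, 528, 101995056, 104075856), (9, 18, 18, 40173876, 88086051), (19, 513, 513, 35013891, 69404241), (19, 258, 33, 19096836, 52446561), (18, 33, 258, 38998086, 5326386), (42, 528, 528, 85206576, 40112976), (40, 288, 288, 102827091, 101844291), (11, 528, 528, 102847536, 103945536), (39, 528, 528, 100869441, 102843141), (4, 528, 528, 101926176, 102973776), (5, 18, 18, 40173876, 88086051), (7, 528, 528, 101930016, 103956816),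 (15, 528, 528, 67446321, 38146821), (42, 528, 528, 85221936, 56889936), (40, 288, 288, 102842451, 101909826), (28, 528, 528, 101995056, 104075856), (11, 528, 528, 102843696, 102962496), (39, 528, 528, 100880961, 103891461), (4, 528, 528, 101930016, 103956816), (5, 18, 18, 40177716, 88086066), (7, 528, 528, 101926176, 102973776), (16, 18, 18, 5321316, 22032966), (15, 528, 528, 67461681, 54923781), (40, 33, 258, 40177731, 88147506), (40, 33, 258, 40173891, 88147491), (34, 33, 258, 39063651, 22283826), (16, 258, 33, 2188596, 52434246), (2, 258, 33, 34825476, 52446801), (5, 528, 528, 101930016, 103956816), (16, 528, 528, 84288561, 73536261), (5, 528, 528, 101926176, 102973776), (19, 528, 528, 85344816, 73601616), (16, 528, 528, 84296241, 73601541)]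
  [(2, 288), (4, 216), (5, -432), (9, 144), (11, -864), (12, -1152), (13, -360), (14, -288), (15, -504), (16, -1152), (18, -144), (19, 72), (20, 360), (21, 288), (22, 576), (23, -144), (24, 504), (25, -288), (26, -576), (27, 720), (28, -144), (29, 648), (33, 576), (34, 504), (35, -360), (38, -504), (39, 1368), (40, 720), (41, 432), (42, -288), (44, -216)] = true := by
  decide +kernel

theorem t27_0_1 : chkS lk27 3 5 [(1, m27_0)] l27_1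
  [(24, 528, 528, 34891056, 52696656), (20, 33, 258, 103026771, 101975346), (24, 528, 528, 34887216, 36968016), (23, 528, 528, 34887216, 36968016), (12, 18, 18, 55640676, 22045251), (23, 528, 528, 34891056, 52696656), (12, 18, 18, 55648356, 22045506), (12, 18, 18, 87425316, 73421091), (12, 18, 18, 87429156, 73421106), (14, 18, 18, 86380596, 73405746), (33, 33, 258, 88215651, 23397426), (21, 33, 258, 87298146, 23351346), (33, 33, 258, 88211811, 23397411), (39, 18, 18, 72552546, 22429746), (11, 18, 18, 54592101, 17130051), (39, 18, 18, 72548706, 22429731), (28, 18, 18, 55840866, 22306866), (11, 18, 18, 54599781, 17130306), (11, 33, 258, 70586466, 21385266), (13, 33, 258, 69537891, 21366066), (28, 33, 258, 55836966, 5529891), (11, 33, 258, 54592086, 1401411), (27, 513, 513, 34891011, 52692561), (12, 33, 258, 55640646, 5333571),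 (41, 513, 513, 50669076, 37774101), (44, 528, 528, 51733056, 54616656), (41, 33, 258, 73732131, 88473906), (29, 33, 258, 56951076, 88105251), (28, 33, 258, 55840806, 5529906), (11, 33, 258, 54599766, 1401666), (27, 513, 513, 34887171, 36963921), (23, 513, 513, 34891011, 52692561), (12, 33, 258, 55648326, 5333826), (41, 513, 513, 50684436, 54551061), (44, 528, 528, 51717696, 37839696), (27, 33, 258, 55840866, 22306866), (41, 33, 258, 73728291, 88473891), (29, 33, 258, 56954916, 88105266), (11, 18, 18, 70582566, 4608291), (11, 18, 18, 70586406, 4608306), (13, 18, 18, 69537846, 4592946), (12, 33, 258, 87429186, 73486386), (14, 33, 258, 86380611, 73467186), (41, 18, 18, 73732146, 88477746), (27, 18, 18, 55836966, 5529891), (29, 18, 18, 56954946, 88170546), (41, 18, 18, 73728306, 88477731), (27, 18, 18, 55840806, 5529906), (26, 528,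 528, 34891056, 52696656), (25, 528, 528, 34891056, 52696656), (22, 528, 528, 34891056, 52696656), (19, 528, 528, 35017776, 70391376), (22, 528, 528, 34887216, 36968016), (19, 528, 528, 35013936, 69408336), (19, 288, 288, 19096896, 52512096), (18, 18, 18, 38998116, 22038066), (38, 18, 18, 55840866, 22306866), (35, 18, 18, 55840866, 22306866), (11, 33, 258, 40177716, 88086066), (16, 528, 528, 33969201, 70391301), (28, 18, 18, 40108371, 85198371), (16, 528, 528, 33965361, 69408261), (39, 18, 18, 40046676, 84952626), (2, 528, 528, 19162371, 52692321), (28, 513, 513, 101983491, 103023441), (39, 513, 513, 100869396, 102777621), (15, 33, 258, 56954916, 88105266), (40, 258, 33, 102827061, 100799811), (7, 33, 258, 40173876, 88086051), (4, 513, 513, 101926146, 102973521), (7, 513, 513, 101929986, 103956561), (16, 33, 258, 5317446, 5317446),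 (28, 513, 513, 101995011, 104071761), (39, 513, 513, 100880916, 103825941), (42, 513, 513, 85221891, 56885841), (40, 258, 33, 102842421, 100865346), (7, 33, 258, 40177716, 88086066), (4, 513, 513, 101929986, 103956561), (15, 513, 513, 67461651, 54919701), (16, 33, 258, 5321286, 5321286), (16, 288, 288, 2188611, 52495686), (2, 288, 288, 34825536, 52512336), (40, 18, 18, 40177716, 88086066), (34, 18, 18, 39063606, 5510706), (5, 513, 513, 101929986, 103956561), (19, 513, 513, 85337091, 73532241), (16, 513, 513, 84296211, 73597461), (19, 513, 513, 85344771, 73597521), (38, 33, 258, 55840806, 5529906), (35, 33, 258, 55840806, 5529906), (38, 33, 258, 55836966, 5529891), (28, 33, 258, 40112181, 84153906), (16, 513, 513, 33969171, 70387221), (28, 33, 258, 40108341, 84153891), (16, 513, 513, 33965331, 69404181), (39, 33, 258, 40042821,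 83969571), (39, 33, 258, 40046661, 83969586), (2, 513, 513, 19162416, 52696416), (26, 513, 513, 34891011, 52692561), (25, 513, 513, 34891011, 52692561), (26, 513, 513, 34887171, 36963921), (9, 18, 18, 40177716, 88086066), (19, 513, 513, 35017731, 70387281), (9, 18, 18, 40173876, 88086051), (22, 528, 528, 101995056, 104075856), (19, 513, 513, 35013891, 69404241), (19, 258, 33, 19096836, 52446561), (18, 33, 258, 38998086, 5326386), (42, 528, 528, 85206576, 40112976), (40, 288, 288, 102827091, 101844291), (11, 528, 528, 102847536, 103945536), (39, 528, 528, 100869441, 102843141), (5, 18, 18, 40173876, 88086051), (4, 528, 528, 101926176, 102973776), (7, 528, 528, 101930016, 103956816), (15, 528, 528, 67446321, 38146821), (42, 528, 528, 85221936, 56889936), (40, 288, 288, 102842451, 101909826), (11, 528, 528, 102843696, 102962496),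 (28, 528, 528, 101995056, 104075856), (39, 528, 528, 100880961, 103891461), (5, 18, 18, 40177716, 88086066), (4, 528, 528, 101930016, 103956816), (16, 18, 18, 5321316, 22032966), (7, 528, 528, 101926176, 102973776), (15, 528, 528, 67461681, 54923781), (40, 33, 258, 40173891, 88147491), (40, 33, 258, 40177731, 88147506), (34, 33, 258, 39063651, 22283826), (16, 258, 33, 2188596, 52434246), (2, 258, 33, 34825476, 52446801), (5, 528, 528, 101930016, 103956816), (16, 528, 528, 84288561, 73536261), (19, 528, 528, 85344816, 73601616), (5, 528, 528, 101926176, 102973776), (16, 528, 528, 84296241, 73601541)]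
  [(2, 360), (4, 216), (5, -216), (7, -216), (9, 72), (11, -1080), (12, -1008), (13, -288), (14, -360), (15, -360), (16, -144), (18, 144), (19, 144), (20, 288), (21, 360), (22, 72), (23, -288), (24, 576), (25, -360), (26, -504), (27, 576), (28, 144), (29, 864), (33, 504), (34, 144), (35, -288), (38, -576), (39, 360), (40, 576), (41, 432), (42, 72), (44, -216)] = true := by
  decide +kernel

theorem t27_0_2 : chkS lk27 3 5 [(1, m27_0)] l27_2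
  [(24, 528, 528, 34887216, 36968016), (24, 528, 528, 34891056, 52696656), (20, 33, 258, 103026771, 101975346), (12, 18, 18, 55640676, 22045251), (23, 528, 528, 34887216, 36968016), (14, 18, 18, 86380596, 73405746), (12, 18, 18, 87425316, 73421091), (12, 18, 18, 87429156, 73421106), (33, 33, 258, 88211811, 23397411), (33, 33, 258, 88215651, 23397426), (21, 33, 258, 87298146, 23351346), (11, 18, 18, 54592101, 17130051), (39, 18, 18, 72552546, 22429746), (11, 18, 18, 54599781, 17130306), (39, 18, 18, 72548706, 22429731), (28, 18, 18, 55840866, 22306866), (11, 33, 258, 54592086, 1401411), (28, 33, 258, 55836966, 5529891), (12, 33, 258, 55640646, 5333571), (27, 513, 513, 34891011, 52692561), (41, 513, 513, 50669076, 37774101), (44, 528, 528, 51733056, 54616656), (29, 33, 258, 56951076, 88105251), (41, 33, 258, 73732131, 88473906),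 (12, 33, 258, 55648326, 5333826), (27, 513, 513, 34887171, 36963921), (23, 513, 513, 34891011, 52692561), (41, 513, 513, 50684436, 54551061), (44, 528, 528, 51717696, 37839696), (29, 33, 258, 56954916, 88105266), (27, 33, 258, 55840866, 22306866), (41, 33, 258, 73728291, 88473891), (13, 18, 18, 69537846, 4592946), (11, 18, 18, 70582566, 4608291), (11, 18, 18, 70586406, 4608306), (27, 18, 18, 55836966, 5529891), (41, 18, 18, 73732146, 88477746), (27, 18, 18, 55840806, 5529906), (29, 18, 18, 56954946, 88170546), (41, 18, 18, 73728306, 88477731), (38, 33, 258, 55836966, 5529891), (38, 33, 258, 55840806, 5529906), (35, 33, 258, 55840806, 5529906), (16, 513, 513, 33969171, 70387221), (28, 33, 258, 40112181, 84153906), (2, 513, 513, 19162416, 52696416), (39, 33, 258, 40042821, 83969571), (39, 33, 258, 40046661, 83969586), (26, 513,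 513, 34887171, 36963921), (26, 513, 513, 34891011, 52692561), (25, 513, 513, 34891011, 52692561), (19, 513, 513, 35017731, 70387281), (9, 18, 18, 40177716, 88086066), (19, 513, 513, 35013891, 69404241), (9, 18, 18, 40173876, 88086051), (22, 528, 528, 101995056, 104075856), (40, 288, 288, 102827091, 101844291), (42, 528, 528, 85206576, 40112976), (39, 528, 528, 100869441, 102843141), (11, 528, 528, 102847536, 103945536), (5, 18, 18, 40173876, 88086051), (4, 528, 528, 101926176, 102973776), (15, 528, 528, 67446321, 38146821), (7, 528, 528, 101930016, 103956816), (39, 528, 528, 100880961, 103891461), (11, 528, 528, 102843696, 102962496), (28, 528, 528, 101995056, 104075856), (5, 18, 18, 40177716, 88086066), (4, 528, 528, 101930016, 103956816), (15, 528, 528, 67461681, 54923781), (16, 18, 18, 5321316, 22032966), (7, 528, 528, 101926176,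 102973776), (34, 33, 258, 39063651, 22283826), (40, 33, 258, 40173891, 88147491), (40, 33, 258, 40177731, 88147506), (16, 528, 528, 84288561, 73536261), (5, 528, 528, 101930016, 103956816), (16, 528, 528, 84296241, 73601541), (19, 528, 528, 85344816, 73601616), (5, 528, 528, 101926176, 102973776)]
  [(2, 216), (4, -432), (5, -216), (7, -648), (9, 648), (11, 216), (12, -432), (13, -216), (14, -216), (16, -432), (19, -216), (20, 216), (21, 216), (22, 216), (23, -432), (24, 648), (25, -216), (26, -648), (27, -432), (29, 216), (33, 648), (34, 216), (35, -216), (38, -648), (40, 432), (41, 864), (42, 216), (44, 432)] = true := by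
  decide +kernel

theorem t27_0_3 : chkS lk27 3 5 [(1, m27_0)] l27_3
  [(9, 528, 528, 19220016, 37950816), (9, 528, 528, 19227696, 54662496), (12, 528, 528, 19285296, 69408096), (12, 528, 528, 19289136, 70391136), (11, 18, 18, 90243651, 90243651), (13, 33, 258, 56954916, 88105266), (2, 528, 528, 50619681, 52715781), (16, 528, 528, 20337666, 70406241), (5, 513, 513, 51725826, 37970001), (16, 513, 513, 103892256, 102977856), (29, 513, 513, 68494851, 38142801), (41, 288, 288, 19218531, 21169506), (5, 513, 513, 51733506, 54681681), (16, 513, 513, 103896096, 103960896), (29, 513, 513, 68510211, 54919761), (41, 288, 288, 19203171, 21103971), (6, 513, 513, 51794946, 70410321), (31, 18, 18, 90439971, 90439971), (30, 18, 18, 90443826, 90443826), (36, 18, 18, 90443826, 90443826), (11, 33, 258, 90243636, 90182211), (11, 33, 258, 90251316,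 90182466), (16, 513, 513, 20333856, 69423456), (16, 513, 513, 20337696, 70406496), (9, 513, 513, 19219971, 37946721), (10, 513, 513, 19289091, 70387041), (3, 288, 288, 101860176, 101917776), (12, 513, 513, 19289091, 70387041), (5, 528, 528, 51733536, 54681936), (12, 528, 528, 102847536, 103945536), (40, 33, 258, 88154976, 23405376), (41, 258, 33, 19203126, 4330851), (6, 528, 528, 51794976, 70410576), (30, 33, 258, 90439971, 90439971), (31, 33, 258, 90443826, 90443826), (36, 33, 258, 90443811, 90439986), (40, 33, 258, 21308256, 21308256), (40, 33, 258, 21312096, 21312096), (29, 513, 513, 85206531, 40108881), (29, 513, 513, 85221891, 56885841), (29, 528, 528, 85221936, 56889936), (3, 258, 33, 35013381, 67315281), (2, 513, 513, 67331346, 52838421), (40, 18, 18, 21308166, 4531041), (5, 528, 528, 85156896, 56770896), (9, 18, 18,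 23404596, 88085346), (11, 33, 258, 23404596, 88085346), (5, 513, 513, 85156866, 56770641), (5, 528, 528, 85149216, 40059216), (9, 18, 18, 23396916, 88085091), (11, 33, 258, 23396916, 88085091), (5, 513, 513, 85149186, 40058961), (8, 528, 528, 51794976, 70410576), (30, 528, 528, 85221936, 56889936), (43, 528, 528, 87295506, 40128531), (8, 513, 513, 51794946, 70410321)]
  [(2, -288), (3, 72), (5, -1080), (6, -216), (8, -432), (9, 1368), (10, 288), (11, 1440), (12, -288), (13, -72), (16, -1008), (29, -1152), (30, -288), (31, -72), (36, 648), (40, -360), (41, 1080), (43, 360)] = true := by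
  decide +kernel

theorem t27_0_4 : chkS lk27 3 5 [(1, m27_0)] l27_4
  [(9, 528, 528, 19227696, 54662496), (9, 528, 528, 19220016, 37950816), (12, 528, 528, 19285296, 69408096), (12, 528, 528, 19289136, 70391136), (13, 33, 258, 56954916, 88105266), (11, 18, 18, 90243651, 90243651), (2, 528, 528, 50619681, 52715781), (16, 528, 528, 20337666, 70406241), (16, 513, 513, 103892256, 102977856), (5, 513, 513, 51725826, 37970001), (29, 513, 513, 68494851, 38142801), (41, 288, 288, 19218531, 21169506), (16, 513, 513, 103896096, 103960896), (5, 513, 513, 51733506, 54681681), (29, 513, 513, 68510211, 54919761), (41, 288, 288, 19203171, 21103971), (31, 18, 18, 90439971, 90439971), (6, 513, 513, 51794946, 70410321), (30, 18, 18, 90443826, 90443826), (36, 18, 18, 90443826, 90443826), (11, 33, 258, 90251316, 90182466), (11, 33, 258, 90243636,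 90182211), (16, 513, 513, 20333856, 69423456), (16, 513, 513, 20337696, 70406496), (10, 513, 513, 19289091, 70387041), (9, 513, 513, 19219971, 37946721), (3, 288, 288, 101860176, 101917776), (12, 513, 513, 19289091, 70387041), (12, 528, 528, 102847536, 103945536), (5, 528, 528, 51733536, 54681936), (40, 33, 258, 88154976, 23405376), (41, 258, 33, 19203126, 4330851), (30, 33, 258, 90439971, 90439971), (6, 528, 528, 51794976, 70410576), (31, 33, 258, 90443826, 90443826), (36, 33, 258, 90443811, 90439986), (40, 33, 258, 21312096, 21312096), (40, 33, 258, 21308256, 21308256), (29, 513, 513, 85206531, 40108881), (29, 513, 513, 85221891, 56885841), (3, 258, 33, 35013381, 67315281), (29, 528, 528, 85221936, 56889936), (2, 513, 513, 67331346, 52838421), (40, 18, 18, 21308166, 4531041), (9, 18, 18, 23404596, 88085346), (5, 528, 528,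 85156896, 56770896), (11, 33, 258, 23404596, 88085346), (5, 513, 513, 85156866, 56770641), (9, 18, 18, 23396916, 88085091), (5, 528, 528, 85149216, 40059216), (11, 33, 258, 23396916, 88085091), (5, 513, 513, 85149186, 40058961), (30, 528, 528, 85221936, 56889936), (8, 528, 528, 51794976, 70410576), (43, 528, 528, 87295506, 40128531), (8, 513, 513, 51794946, 70410321)]
  [(2, -288), (3, -360), (5, 216), (6, -648), (8, 432), (9, 72), (10, 288), (11, -288), (12, -288), (13, 360), (16, -144), (29, 576), (30, -288), (31, 360), (36, 216), (40, 72), (41, -216), (43, -72)] = true := by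
  decide +kernel

theorem t27_1_1 : chkS lk27 3 5 [(1, m27_1)] l27_1
  [(20, 33, 258, 102842451, 101909826), (24, 528, 528, 35013936, 69408336), (24, 528, 528, 34948656, 37951056), (27, 528, 528, 35013936, 69408336), (12, 18, 18, 55579236, 22045236), (12, 18, 18, 87121956, 56643906), (14, 18, 18, 86073396, 56628546), (27, 528, 528, 34948656, 37951056), (23, 528, 528, 35013936, 69408336), (12, 18, 18, 55709796, 22045746), (21, 33, 258, 87113826, 23285826), (33, 33, 258, 88154211, 23397186), (33, 33, 258, 88088931, 23397156), (28, 18, 18, 55591266, 22241316), (11, 18, 18, 54530661, 17130036), (11, 33, 258, 70275426, 20336676), (11, 33, 258, 70340706, 20336706), (13, 33, 258, 69292131, 20317506), (28, 18, 18, 55656546, 22241346), (11, 18, 18, 54661221, 17130546), (39, 33, 258, 72429606, 5648706), (11, 33, 258, 54530646, 1401396),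 (23, 513, 513, 34948611, 37946961), (12, 33, 258, 55579206, 5333556), (27, 33, 258, 55591266, 22241316), (41, 33, 258, 73486371, 87425346), (44, 528, 528, 51794496, 70345296), (41, 528, 528, 50745921, 70345221), (11, 18, 18, 70340646, 3559746), (13, 18, 18, 69292086, 3544386), (12, 33, 258, 87056706, 56709156), (12, 33, 258, 87121986, 56709186), (14, 33, 258, 86073411, 56689986), (29, 18, 18, 56643906, 87121956), (41, 18, 18, 73486386, 87429186), (29, 18, 18, 56709186, 87121986), (41, 18, 18, 73421106, 87429156), (27, 18, 18, 55656486, 5464386), (39, 33, 258, 72364326, 5648676), (28, 33, 258, 55656486, 5464386), (11, 33, 258, 54661206, 1401906), (23, 513, 513, 35013891, 69404241), (12, 33, 258, 55709766, 5334066), (44, 528, 528, 51533376, 36791376), (41, 528, 528, 50484801, 36791301), (27, 33, 258, 55656546, 22241346), (41,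 33, 258, 73421091, 87425316), (29, 33, 258, 56709156, 87056706), (25, 528, 528, 35013936, 69408336), (26, 528, 528, 35013936, 69408336), (9, 33, 258, 39931971, 87098946), (19, 528, 528, 34956336, 54662736), (19, 288, 288, 19281216, 69285216), (18, 18, 18, 38875236, 22033986), (22, 528, 528, 34948656, 37951056), (19, 528, 528, 34891056, 52696656), (35, 18, 18, 55656546, 22241346), (38, 18, 18, 55656546, 22241346), (28, 18, 18, 39927891, 85132866), (16, 528, 528, 33907761, 54662661), (39, 18, 18, 39923796, 84948546), (2, 528, 528, 19285251, 69404001), (28, 18, 18, 39862611, 85132836), (16, 528, 528, 33842481, 52696581), (11, 513, 513, 103093251, 104990001), (39, 513, 513, 100807956, 102773781), (42, 513, 513, 85083651, 40043601), (40, 258, 33, 102765621, 100799796), (15, 513, 513, 67261971, 37094421), (7, 513, 513, 102052866,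 105001041), (4, 513, 513, 101987586, 103034961), (5, 33, 258, 39866691, 87098916), (16, 288, 288, 2495811, 69272886), (2, 288, 288, 35009856, 69285456), (40, 18, 18, 39931956, 87037506), (34, 18, 18, 38879286, 5445186), (16, 513, 513, 84042771, 56755221), (5, 513, 513, 102052866, 105001041), (16, 513, 513, 84173331, 56885781), (19, 513, 513, 85221891, 56885841), (28, 513, 513, 102056451, 105054801), (39, 513, 513, 101003796, 104870421), (42, 513, 513, 85344771, 73597521), (40, 258, 33, 103026741, 100930866), (4, 513, 513, 102052866, 105001041), (5, 33, 258, 39931971, 87098946), (15, 513, 513, 67523091, 70648341), (16, 33, 258, 5444166, 5325366), (35, 33, 258, 55656486, 5464386), (38, 33, 258, 55656486, 5464386), (38, 33, 258, 55591206, 5464356), (11, 18, 18, 39931971, 87098946), (16, 513, 513, 33907731, 54658581), (39, 33, 258,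 39923781, 83965506), (2, 513, 513, 19285296, 69408096), (11, 18, 18, 39866691, 87098916), (28, 33, 258, 39862581, 84088356), (16, 513, 513, 33842451, 52692501), (25, 513, 513, 35013891, 69404241), (26, 513, 513, 35013891, 69404241), (26, 513, 513, 34948611, 37946961), (22, 528, 528, 101860656, 102962256), (19, 513, 513, 34956291, 54658641), (19, 258, 33, 19215876, 37762401), (19, 258, 33, 19281156, 69219681), (18, 33, 258, 38875206, 5322306), (22, 528, 528, 102056496, 105058896), (19, 513, 513, 34891011, 52692561), (15, 18, 18, 56709186, 87121986), (40, 288, 288, 102765651, 101844276), (28, 528, 528, 101860656, 102962256), (39, 528, 528, 100808001, 102839301), (16, 18, 18, 5378916, 22029366), (7, 528, 528, 102052896, 105001296), (4, 528, 528, 101987616, 103035216), (7, 18, 18, 39866691, 87098916), (40, 33, 258, 39931971, 87098946),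 (34, 33, 258, 38879331, 22218306), (16, 258, 33, 2430516, 37754166), (16, 258, 33, 2495796, 69211446), (2, 258, 33, 35009796, 69219921), (19, 528, 528, 85091376, 56759376), (5, 528, 528, 102052896, 105001296), (19, 528, 528, 85221936, 56889936), (5, 528, 528, 101987616, 103035216), (16, 528, 528, 84173361, 56889861), (15, 18, 18, 56643906, 87121956), (42, 528, 528, 85344816, 73601616), (40, 288, 288, 103026771, 101975346), (28, 528, 528, 102056496, 105058896), (39, 528, 528, 101003841, 104935941), (4, 528, 528, 102052896, 105001296), (7, 18, 18, 39931971, 87098946), (16, 18, 18, 5444196, 22037046), (7, 528, 528, 101987616, 103035216), (15, 528, 528, 67523121, 70652421)]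
  [(2, 288), (4, 216), (7, -432), (9, -72), (11, -864), (12, -1152), (13, -360), (14, -288), (15, -72), (16, 576), (18, 504), (19, 288), (20, 360), (21, 288), (22, -288), (23, -144), (24, 504), (25, -288), (26, -576), (27, 720), (28, -144), (29, 648), (33, 576), (34, -144), (35, -360), (38, -504), (39, -360), (40, 288), (41, 432), (42, 576), (44, -216)] = true := by
  decide +kernel

theorem t27_1_2 : chkS lk27 3 5 [(1, m27_1)] l27_2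
  [(24, 528, 528, 34948656, 37951056), (20, 33, 258, 102842451, 101909826), (24, 528, 528, 35013936, 69408336), (12, 18, 18, 55579236, 22045236), (27, 528, 528, 35013936, 69408336), (12, 18, 18, 55709796, 22045746), (27, 528, 528, 34948656, 37951056), (23, 528, 528, 35013936, 69408336), (33, 33, 258, 88088931, 23397156), (21, 33, 258, 87113826, 23285826), (33, 33, 258, 88154211, 23397186), (11, 18, 18, 54530661, 17130036), (28, 18, 18, 55591266, 22241316), (13, 33, 258, 69292131, 20317506), (11, 33, 258, 70275426, 20336676), (11, 33, 258, 70340706, 20336706), (11, 33, 258, 54530646, 1401396), (39, 33, 258, 72429606, 5648706), (12, 33, 258, 55579206, 5333556), (23, 513, 513, 34948611, 37946961), (27, 33, 258, 55591266, 22241316), (41, 33, 258, 73486371, 87425346), (41, 528, 528, 50745921, 70345221), (44, 528, 528, 51794496, 70345296),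 (14, 33, 258, 86073411, 56689986), (12, 33, 258, 87056706, 56709156), (12, 33, 258, 87121986, 56709186), (29, 18, 18, 56643906, 87121956), (41, 18, 18, 73486386, 87429186), (27, 18, 18, 55656486, 5464386), (29, 18, 18, 56709186, 87121986), (41, 18, 18, 73421106, 87429156), (11, 33, 258, 54661206, 1401906), (39, 33, 258, 72364326, 5648676), (28, 33, 258, 55656486, 5464386), (41, 528, 528, 50484801, 36791301), (44, 528, 528, 51533376, 36791376), (29, 33, 258, 56709156, 87056706), (27, 33, 258, 55656546, 22241346), (41, 33, 258, 73421091, 87425316), (38, 33, 258, 55591206, 5464356), (35, 33, 258, 55656486, 5464386), (38, 33, 258, 55656486, 5464386), (16, 513, 513, 33907731, 54658581), (11, 18, 18, 39931971, 87098946), (16, 513, 513, 33842451, 52692501), (11, 18, 18, 39866691, 87098916), (28, 33, 258, 39862581, 84088356), (26, 513,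 513, 34948611, 37946961), (25, 513, 513, 35013891, 69404241), (26, 513, 513, 35013891, 69404241), (19, 513, 513, 34956291, 54658641), (22, 528, 528, 101860656, 102962256), (18, 33, 258, 38875206, 5322306), (19, 258, 33, 19215876, 37762401), (19, 258, 33, 19281156, 69219681), (40, 288, 288, 102765651, 101844276), (15, 18, 18, 56709186, 87121986), (39, 528, 528, 100808001, 102839301), (28, 528, 528, 101860656, 102962256), (16, 18, 18, 5378916, 22029366), (7, 528, 528, 102052896, 105001296), (7, 18, 18, 39866691, 87098916), (4, 528, 528, 101987616, 103035216), (2, 258, 33, 35009796, 69219921), (16, 258, 33, 2430516, 37754166), (16, 258, 33, 2495796, 69211446), (19, 528, 528, 85091376, 56759376), (5, 528, 528, 102052896, 105001296), (16, 528, 528, 84173361, 56889861), (19, 528, 528, 85221936, 56889936), (5, 528, 528, 101987616,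 103035216), (40, 288, 288, 103026771, 101975346), (15, 18, 18, 56643906, 87121956), (42, 528, 528, 85344816, 73601616), (7, 18, 18, 39931971, 87098946), (4, 528, 528, 102052896, 105001296), (15, 528, 528, 67523121, 70652421), (16, 18, 18, 5444196, 22037046), (7, 528, 528, 101987616, 103035216)]
  [(2, 216), (4, -432), (5, -648), (7, -216), (11, 216), (12, -432), (13, -216), (14, -216), (15, 432), (16, 432), (18, 216), (19, 432), (20, 216), (21, 216), (22, 216), (23, -432), (24, 648), (25, -216), (26, -648), (27, -432), (29, 216), (33, 648), (35, -216), (38, -648), (39, -864), (41, 864), (42, 216), (44, 432)] = true := by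
  decide +kernel

theorem t27_1_3 : chkS lk27 3 5 [(1, m27_1)] l27_3
  [(9, 528, 528, 19158576, 36967776), (10, 528, 528, 19227696, 54662496), (3, 258, 33, 101982981, 100934481), (12, 528, 528, 19227696, 54662496), (11, 18, 18, 90182211, 90243636), (11, 18, 18, 90312771, 90244146), (16, 528, 528, 20210946, 52711521), (16, 528, 528, 20276226, 54677601), (5, 513, 513, 51664386, 36986961), (40, 18, 18, 88281606, 6636081), (12, 513, 513, 103027971, 103023921), (41, 288, 288, 19157091, 20186466), (6, 513, 513, 51733506, 54681681), (31, 18, 18, 90259491, 90374466), (30, 18, 18, 90194226, 90378276), (36, 18, 18, 90259506, 90378306), (5, 513, 513, 51794946, 70410321), (40, 18, 18, 88216326, 6628401), (12, 513, 513, 103093251, 104990001), (41, 288, 288, 18895971, 20055396), (11, 33, 258, 90182196, 90182196), (13, 18, 18, 56709186, 87121986),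 (2, 513, 513, 50742546, 69427221), (16, 513, 513, 20276256, 54677856), (9, 513, 513, 19158531, 36963681), (9, 513, 513, 19289091, 70387041), (12, 513, 513, 19162371, 52692321), (12, 513, 513, 19227651, 54658401), (6, 528, 528, 51733536, 54681936), (30, 33, 258, 90259491, 90374466), (31, 33, 258, 90194226, 90378276), (36, 33, 258, 90259491, 90374466), (5, 528, 528, 51794976, 70410576), (29, 528, 528, 68571696, 70652496), (16, 528, 528, 104141826, 105009201), (41, 258, 33, 18895926, 3282276), (40, 33, 258, 21123936, 20259936), (2, 528, 528, 67515681, 69611781), (3, 288, 288, 34890576, 51652176), (29, 513, 513, 85344771, 73597521), (29, 528, 528, 85344816, 73601616), (29, 528, 528, 85083696, 40047696), (40, 18, 18, 21189126, 3490401), (40, 18, 18, 21123846, 3482721), (5, 528, 528, 85341216, 73544016), (9, 33, 258, 23220291, 87098466),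 (11, 18, 18, 23220291, 87098466), (5, 513, 513, 85341186, 73543761), (8, 528, 528, 51733536, 54681936), (30, 528, 528, 85083696, 40047696), (43, 528, 528, 87441426, 73617426), (8, 513, 513, 51733506, 54681681), (5, 528, 528, 85210656, 40120656), (9, 33, 258, 23089731, 87097956), (11, 18, 18, 23089731, 87097956), (5, 513, 513, 85210626, 40120401)]
  [(2, 72), (3, -288), (5, -1080), (6, -216), (8, -432), (9, 1440), (10, -72), (11, 1368), (12, -1008), (13, 288), (16, -288), (29, -360), (30, 288), (31, -360), (36, 648), (40, -1152), (41, 1080), (43, 72)] = true := by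
  decide +kernel

theorem t27_1_4 : chkS lk27 3 5 [(1, m27_1)] l27_4
  [(10, 528, 528, 19227696, 54662496), (9, 528, 528, 19158576, 36967776), (3, 258, 33, 101982981, 100934481), (12, 528, 528, 19227696, 54662496), (11, 18, 18, 90312771, 90244146), (11, 18, 18, 90182211, 90243636), (16, 528, 528, 20210946, 52711521), (16, 528, 528, 20276226, 54677601), (40, 18, 18, 88281606, 6636081), (5, 513, 513, 51664386, 36986961), (12, 513, 513, 103027971, 103023921), (41, 288, 288, 19157091, 20186466), (31, 18, 18, 90259491, 90374466), (6, 513, 513, 51733506, 54681681), (30, 18, 18, 90194226, 90378276), (36, 18, 18, 90259506, 90378306), (40, 18, 18, 88216326, 6628401), (5, 513, 513, 51794946, 70410321), (12, 513, 513, 103093251, 104990001), (41, 288, 288, 18895971, 20055396), (13, 18, 18, 56709186, 87121986), (11, 33, 258, 90182196, 90182196),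 (2, 513, 513, 50742546, 69427221), (16, 513, 513, 20276256, 54677856), (9, 513, 513, 19289091, 70387041), (9, 513, 513, 19158531, 36963681), (12, 513, 513, 19162371, 52692321), (12, 513, 513, 19227651, 54658401), (30, 33, 258, 90259491, 90374466), (6, 528, 528, 51733536, 54681936), (31, 33, 258, 90194226, 90378276), (36, 33, 258, 90259491, 90374466), (29, 528, 528, 68571696, 70652496), (5, 528, 528, 51794976, 70410576), (16, 528, 528, 104141826, 105009201), (41, 258, 33, 18895926, 3282276), (2, 528, 528, 67515681, 69611781), (40, 33, 258, 21123936, 20259936), (3, 288, 288, 34890576, 51652176), (29, 513, 513, 85344771, 73597521), (29, 528, 528, 85083696, 40047696), (29, 528, 528, 85344816, 73601616), (40, 18, 18, 21189126, 3490401), (40, 18, 18, 21123846, 3482721), (9, 33, 258, 23220291, 87098466), (5, 528, 528, 85341216, 73544016),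 (11, 18, 18, 23220291, 87098466), (5, 513, 513, 85341186, 73543761), (30, 528, 528, 85083696, 40047696), (8, 528, 528, 51733536, 54681936), (43, 528, 528, 87441426, 73617426), (8, 513, 513, 51733506, 54681681), (9, 33, 258, 23089731, 87097956), (5, 528, 528, 85210656, 40120656), (11, 18, 18, 23089731, 87097956), (5, 513, 513, 85210626, 40120401)]
  [(2, -360), (3, -288), (5, 216), (6, -648), (8, 432), (9, -288), (10, 360), (11, 72), (12, -144), (13, 288), (16, -288), (29, 72), (30, 288), (31, 72), (36, 216), (40, 576), (41, -216), (43, -360)] = true := by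
  decide +kernel

theorem t27_2_2 : chkS lk27 3 5 [(1, m27_2)] l27_2
  [(20, 33, 258, 102827091, 101844291), (24, 528, 528, 34956336, 54662736), (24, 528, 528, 35017776, 70391376), (14, 18, 18, 86050356, 39851331), (12, 18, 18, 87098916, 39866691), (12, 18, 18, 55705956, 22045731), (23, 528, 528, 35017776, 70391376), (27, 528, 528, 34956336, 54662736), (21, 33, 258, 87098466, 23220291), (33, 33, 258, 88085091, 23396916), (33, 33, 258, 88146531, 23396931), (13, 33, 258, 69272931, 19268931), (11, 33, 258, 70260066, 19288116), (11, 18, 18, 54534501, 17130276), (28, 18, 18, 55579746, 22175796), (39, 18, 18, 72418146, 22421571), (13, 18, 18, 69272886, 2495811), (11, 18, 18, 70321446, 2511171), (14, 33, 258, 86050371, 39912771), (12, 33, 258, 87037506, 39931956), (29, 18, 18, 56628546, 86073396), (41, 18, 18, 73467186, 86380611),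 (27, 18, 18, 55641126, 5398851), (41, 18, 18, 73405746, 86380596), (12, 33, 258, 55583046, 5333796), (23, 513, 513, 34956291, 54658641), (27, 513, 513, 35017731, 70387281), (27, 33, 258, 55579746, 22175796), (41, 33, 258, 73467171, 86376771), (41, 528, 528, 50734401, 69296901), (41, 513, 513, 50488596, 52454421), (44, 528, 528, 51782976, 69296976), (11, 33, 258, 54657366, 1401891), (28, 33, 258, 55641126, 5398851), (39, 33, 258, 72356646, 5644596), (29, 33, 258, 56689956, 86008131), (41, 33, 258, 73405731, 86376756), (41, 528, 528, 50488641, 52519941), (41, 513, 513, 50734356, 69231381), (44, 528, 528, 51537216, 52520016), (35, 33, 258, 55641126, 5398851), (38, 33, 258, 55579686, 5398836), (38, 33, 258, 55641126, 5398851), (2, 513, 513, 19289136, 70391136), (39, 33, 258, 39912261, 83961411), (16, 513, 513, 33838611, 36963861),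 (28, 33, 258, 39851061, 84022836), (11, 18, 18, 39851331, 86050356), (25, 513, 513, 35017731, 70387281), (26, 513, 513, 34956291, 54658641), (26, 513, 513, 35017731, 70387281), (18, 33, 258, 38863686, 5318211), (19, 258, 33, 19227396, 54535521), (19, 513, 513, 34948611, 37946961), (22, 528, 528, 101864496, 103945296), (9, 18, 18, 39912756, 85988931), (34, 33, 258, 38863971, 22152771), (40, 33, 258, 39912771, 86050371), (2, 258, 33, 35017476, 70264401), (16, 258, 33, 2449716, 54531366), (19, 528, 528, 85083696, 40047696), (5, 528, 528, 102056736, 105062736), (16, 528, 528, 84158001, 40112901), (5, 528, 528, 101995296, 104079696), (39, 528, 528, 100815681, 103883781), (28, 528, 528, 101864496, 103945296), (11, 528, 528, 103104816, 105059616), (16, 18, 18, 5386596, 22033446), (7, 528, 528, 102056736, 105062736), (7, 18, 18, 39851331,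 86050356), (5, 18, 18, 39851316, 85988916), (4, 528, 528, 101995296, 104079696), (40, 288, 288, 103022931, 101975331), (42, 528, 528, 85337136, 73536336), (15, 18, 18, 56628546, 86073396), (15, 528, 528, 67511601, 69604101), (7, 528, 528, 101995296, 104079696), (7, 18, 18, 39912771, 86050371), (5, 18, 18, 39912756, 85988931), (4, 528, 528, 102056736, 105062736)]
  [(2, -432), (4, -864), (5, -864), (7, -864), (9, 216), (11, -432), (12, -864), (13, 432), (14, 432), (15, 432), (16, 864), (18, -216), (19, 648), (20, 432), (21, 432), (22, 432), (23, -864), (24, 432), (25, -432), (26, -432), (27, -864), (29, -432), (33, 432), (34, -216), (35, -432), (38, -432), (40, 432), (41, 1728), (42, 432), (44, 864)] = true := by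
  decide +kernel

theorem t27_2_3 : chkS lk27 3 5 [(1, m27_2)] l27_3
  [(10, 528, 528, 19220016, 37950816), (9, 528, 528, 19162416, 52696416), (12, 528, 528, 19220016, 37950816), (3, 258, 33, 101986821, 100938321), (13, 33, 258, 56689956, 86008131), (11, 18, 18, 90308931, 90244131), (16, 528, 528, 20207106, 36982881), (2, 528, 528, 50746401, 70410501), (6, 513, 513, 51725826, 37970001), (31, 18, 18, 90244131, 90308931), (30, 18, 18, 90182706, 90312756), (36, 18, 18, 90244146, 90312771), (5, 513, 513, 51668226, 52715601), (40, 18, 18, 88285446, 6636321), (12, 513, 513, 103043331, 104072481), (41, 288, 288, 19137891, 19137891), (5, 513, 513, 51791106, 69427281), (16, 513, 513, 104153376, 105074976), (29, 513, 513, 68560131, 69600081), (41, 288, 288, 18892131, 19072356), (13, 18, 18, 56689986, 86073411), (11, 33, 258, 90186036,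 90182436), (16, 513, 513, 20268576, 37966176), (2, 513, 513, 50746386, 70410261), (10, 513, 513, 19219971, 37946721), (9, 513, 513, 19285251, 69404001), (12, 513, 513, 19158531, 36963681), (3, 288, 288, 101986896, 101986896), (5, 528, 528, 51668256, 52715856), (29, 528, 528, 68314416, 52827216), (16, 528, 528, 104091906, 104091681), (41, 258, 33, 19137846, 2364771), (5, 528, 528, 51791136, 69427536), (12, 528, 528, 103104816, 105059616), (40, 33, 258, 88224096, 23409696), (41, 258, 33, 18892086, 2299236), (2, 528, 528, 67523361, 70656261), (40, 33, 258, 21116256, 19215456), (29, 513, 513, 85337091, 73532241), (3, 288, 288, 34879056, 34879056), (3, 258, 33, 34878981, 33830481), (29, 528, 528, 85091376, 56759376), (40, 18, 18, 21177606, 2442081), (2, 513, 513, 67523346, 70656021), (8, 528, 528, 51725856, 37970256), (30, 528, 528,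 85091376, 56759376), (43, 528, 528, 87426066, 73551891), (8, 513, 513, 51725826, 37970001), (5, 528, 528, 85345056, 73605456), (9, 33, 258, 23201091, 86049891), (11, 18, 18, 23201091, 86049891), (5, 513, 513, 85345026, 73605201), (5, 528, 528, 85222176, 56893776), (9, 18, 18, 23078196, 85988196), (11, 33, 258, 23078196, 85988196), (5, 513, 513, 85222146, 56893521)]
  [(2, -648), (3, -648), (5, -1296), (6, 432), (8, -864), (9, 648), (10, 648), (11, 648), (12, -1296), (13, 648), (16, -1296), (29, 648), (31, -432), (36, 432), (40, 648), (41, 1296), (43, 432)] = true := by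
  decide +kernel

theorem t27_2_4 : chkS lk27 3 5 [(1, m27_2)] l27_4
  [(9, 528, 528, 19162416, 52696416), (10, 528, 528, 19220016, 37950816), (12, 528, 528, 19220016, 37950816), (3, 258, 33, 101986821, 100938321), (11, 18, 18, 90308931, 90244131), (13, 33, 258, 56689956, 86008131), (16, 528, 528, 20207106, 36982881), (2, 528, 528, 50746401, 70410501), (31, 18, 18, 90244131, 90308931), (6, 513, 513, 51725826, 37970001), (30, 18, 18, 90182706, 90312756), (36, 18, 18, 90244146, 90312771), (40, 18, 18, 88285446, 6636321), (5, 513, 513, 51668226, 52715601), (12, 513, 513, 103043331, 104072481), (41, 288, 288, 19137891, 19137891), (16, 513, 513, 104153376, 105074976), (5, 513, 513, 51791106, 69427281), (29, 513, 513, 68560131, 69600081), (41, 288, 288, 18892131, 19072356), (11, 33, 258, 90186036, 90182436), (13, 18, 18, 56689986,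 86073411), (16, 513, 513, 20268576, 37966176), (2, 513, 513, 50746386, 70410261), (9, 513, 513, 19285251, 69404001), (10, 513, 513, 19219971, 37946721), (12, 513, 513, 19158531, 36963681), (3, 288, 288, 101986896, 101986896), (29, 528, 528, 68314416, 52827216), (5, 528, 528, 51668256, 52715856), (16, 528, 528, 104091906, 104091681), (41, 258, 33, 19137846, 2364771), (12, 528, 528, 103104816, 105059616), (5, 528, 528, 51791136, 69427536), (40, 33, 258, 88224096, 23409696), (41, 258, 33, 18892086, 2299236), (40, 33, 258, 21116256, 19215456), (2, 528, 528, 67523361, 70656261), (29, 513, 513, 85337091, 73532241), (3, 288, 288, 34879056, 34879056), (29, 528, 528, 85091376, 56759376), (3, 258, 33, 34878981, 33830481), (40, 18, 18, 21177606, 2442081), (2, 513, 513, 67523346, 70656021), (30, 528, 528, 85091376, 56759376), (8, 528, 528,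 51725856, 37970256), (43, 528, 528, 87426066, 73551891), (8, 513, 513, 51725826, 37970001), (9, 33, 258, 23201091, 86049891), (5, 528, 528, 85345056, 73605456), (11, 18, 18, 23201091, 86049891), (5, 513, 513, 85345026, 73605201), (9, 18, 18, 23078196, 85988196), (5, 528, 528, 85222176, 56893776), (11, 33, 258, 23078196, 85988196), (5, 513, 513, 85222146, 56893521)]
  [(2, -216), (3, -216), (5, -432), (6, -432), (8, 864), (9, 216), (10, 216), (11, 216), (12, -432), (13, 216), (16, -432), (29, 216), (31, 432), (36, -432), (40, 216), (41, 432), (43, -432)] = true := by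
  decide +kernel

theorem t27_3_3 : chkS lk27 3 5 [(1, m27_3)] l27_3
  [(0, 258, 33, 106111236, 105923361), (24, 258, 33, 105062661, 101008161), (24, 258, 33, 105000981, 101004306), (32, 528, 528, 35017776, 70391376), (14, 33, 258, 103875666, 101863491), (27, 18, 18, 104923731, 102040131), (19, 513, 513, 56893461, 84173586), (34, 18, 18, 104923986, 102047811), (14, 33, 258, 103875906, 102846531), (27, 18, 18, 104924451, 103088451), (19, 513, 513, 56893701, 84173601), (34, 18, 18, 104924466, 103092291), (19, 33, 258, 56627781, 83976756), (34, 258, 33, 105074946, 104153121), (14, 513, 513, 104091906, 104091681), (27, 258, 33, 105009171, 104137746), (19, 33, 258, 56689221, 83976771), (19, 33, 258, 56689701, 84042051), (27, 258, 33, 105193731, 105186081), (27, 258, 33, 105193491, 105186066), (1, 33, 258, 70321746, 35016771), (26,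 33, 258, 104862261, 100995636), (26, 33, 258, 104923941, 100999491), (17, 258, 33, 56967426, 88301601), (10, 528, 528, 102056496, 105058896), (9, 288, 288, 85079616, 39924816), (12, 513, 513, 23343621, 84161121), (3, 33, 258, 103035216, 101987616), (12, 528, 528, 101995296, 104079696), (3, 18, 18, 39912501, 84022851), (18, 513, 513, 56893701, 84173601), (37, 288, 288, 101929536, 103891536), (12, 528, 528, 102056736, 105062736), (12, 528, 528, 102056496, 105058896), (37, 288, 288, 102052896, 105001296), (37, 288, 288, 102052416, 104936016), (17, 18, 18, 56689986, 86073411), (26, 513, 513, 105000981, 101004306), (26, 513, 513, 105062661, 101008161), (1, 513, 513, 70668546, 70668321), (3, 258, 33, 40120581, 84162081), (12, 288, 288, 101856336, 101856336), (37, 528, 528, 101983056, 101983056), (18, 33, 258, 56689701, 84042051),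 (3, 258, 33, 40120341, 84162066), (12, 288, 288, 101856576, 102839376), (37, 528, 528, 101983536, 103027536), (18, 33, 258, 56689221, 83976771), (9, 528, 528, 85345056, 73605456), (10, 288, 288, 101856576, 102839376), (3, 513, 513, 102847536, 103945536), (12, 33, 258, 23200581, 83960931), (9, 528, 528, 85222176, 56893776), (9, 528, 528, 85221936, 56889936), (12, 33, 258, 23077941, 84022116), (12, 33, 258, 23077701, 83960676)]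
  [(0, 360), (1, -72), (3, -432), (9, -360), (10, 648), (12, -144), (14, 432), (17, -360), (18, -1080), (19, -1008), (24, -432), (26, 432), (27, 144), (32, 72), (34, 432), (37, 1368)] = true := by
  decide +kernel

theorem t27_3_4 : chkS lk27 3 5 [(1, m27_3)] l27_4
  [(24, 258, 33, 105062661, 101008161), (0, 258, 33, 106111236, 105923361), (24, 258, 33, 105000981, 101004306), (32, 528, 528, 35017776, 70391376), (27, 18, 18, 104923731, 102040131), (14, 33, 258, 103875666, 101863491), (19, 513, 513, 56893461, 84173586), (34, 18, 18, 104923986, 102047811), (27, 18, 18, 104924451, 103088451), (14, 33, 258, 103875906, 102846531), (19, 513, 513, 56893701, 84173601), (34, 18, 18, 104924466, 103092291), (34, 258, 33, 105074946, 104153121), (19, 33, 258, 56627781, 83976756), (14, 513, 513, 104091906, 104091681), (27, 258, 33, 105009171,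 104137746), (19, 33, 258, 56689701, 84042051), (19, 33, 258, 56689221, 83976771), (27, 258, 33, 105193731, 105186081), (27, 258, 33, 105193491, 105186066), (26, 33, 258, 104862261, 100995636), (1, 33, 258, 70321746, 35016771), (26, 33, 258, 104923941, 100999491), (17, 258, 33, 56967426, 88301601), (9, 288, 288, 85079616, 39924816), (10, 528, 528, 102056496, 105058896), (12, 513, 513, 23343621, 84161121), (3, 33, 258, 103035216, 101987616), (3, 18, 18, 39912501, 84022851), (12, 528, 528, 101995296, 104079696), (18, 513, 513, 56893701, 84173601), (37, 288, 288, 101929536, 103891536), (12, 528, 528, 102056496, 105058896), (12, 528, 528, 102056736, 105062736), (37, 288, 288, 102052896, 105001296), (37, 288, 288, 102052416, 104936016), (26, 513, 513, 105000981, 101004306), (17, 18, 18, 56689986, 86073411), (26, 513, 513, 105062661,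 101008161), (1, 513, 513, 70668546, 70668321), (12, 288, 288, 101856336, 101856336), (3, 258, 33, 40120581, 84162081), (37, 528, 528, 101983056, 101983056), (18, 33, 258, 56689701, 84042051), (12, 288, 288, 101856576, 102839376), (3, 258, 33, 40120341, 84162066), (37, 528, 528, 101983536, 103027536), (18, 33, 258, 56689221, 83976771), (10, 288, 288, 101856576, 102839376), (9, 528, 528, 85345056, 73605456), (3, 513, 513, 102847536, 103945536), (12, 33, 258, 23200581, 83960931), (9, 528, 528, 85221936, 56889936), (9, 528, 528, 85222176, 56893776), (12, 33, 258, 23077941, 84022116), (12, 33, 258, 23077701, 83960676)]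
  [(0, -72), (1, 360), (3, 432), (9, 72), (10, 216), (12, -1008), (14, -432), (17, 72), (18, 216), (19, -144), (24, 432), (26, -432), (27, 1008), (32, -360), (34, -432), (37, 72)] = true := by
  decide +kernel

theorem t27_4_4 : chkS lk27 3 5 [(1, m27_4)] l27_4
  [(0, 258, 33, 106107396, 105923121), (24, 258, 33, 105058821, 101007921), (32, 528, 528, 35013936, 69408336), (24, 258, 33, 104989461, 101000211), (27, 18, 18, 104931411, 102040386), (27, 18, 18, 104866131, 102040356), (19, 513, 513, 56885781, 84173331), (19, 513, 513, 56755221, 84042771), (34, 258, 33, 105059586, 103104561), (19, 33, 258, 56631621, 83976996), (14, 513, 513, 104076546, 103043121), (27, 258, 33, 104989971, 103089171), (27, 18, 18, 104943651, 104137026), (14, 33, 258, 103895106, 103895106), (19, 513, 513, 56889861, 84173361), (34, 18, 18, 104943666, 104140866),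 (34, 258, 33, 105190146, 105193521), (19, 33, 258, 56696901, 83977026), (14, 513, 513, 104141826, 105009201), (27, 258, 33, 105185811, 105185811), (1, 33, 258, 70344786, 51793986), (26, 33, 258, 104866101, 100995876), (17, 258, 33, 56955906, 88236081), (26, 33, 258, 104935461, 101003586), (9, 288, 288, 85091136, 56697936), (9, 288, 288, 85156416, 56705616), (12, 513, 513, 23339781, 84157281), (12, 513, 513, 23274501, 84034401), (9, 288, 288, 85082976, 23274576), (10, 528, 528, 102052896, 105001296), (12, 513, 513, 23331621, 84156771), (3, 33, 258, 103043856, 104080656), (3, 18, 18, 39862581, 84088356), (12, 528, 528, 102052896, 105001296), (18, 513, 513, 56759301, 84042801), (37, 288, 288, 102048576, 104932176), (17, 18, 18, 56709186, 87121986), (26, 513, 513, 104989461, 101000211), (1, 513, 513, 70653186, 69619761), (26, 513,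 513, 105058821, 101007921), (12, 288, 288, 101860176, 101917776), (12, 288, 288, 101925456, 101925456), (37, 528, 528, 101986896, 101986896), (37, 528, 528, 101856336, 101856336), (10, 288, 288, 101864256, 103883856), (9, 528, 528, 85341216, 73544016), (3, 513, 513, 102843696, 102962496), (12, 33, 258, 23212101, 83965026), (12, 288, 288, 101864256, 103883856), (3, 258, 33, 40108821, 84157971), (37, 528, 528, 101995056, 104075856), (18, 33, 258, 56696901, 83977026), (10, 288, 288, 101929536, 103891536), (9, 528, 528, 85210656, 40120656), (3, 513, 513, 103104816, 105059616), (12, 33, 258, 23081541, 83964516)]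
  [(0, 360), (1, -72), (3, -432), (9, 1368), (10, -1080), (12, -144), (14, 432), (17, -360), (18, 648), (19, -1008), (24, -432), (26, 432), (27, 144), (32, 72), (34, 432), (37, -360)] = true := by
  decide +kernel

section

variable {κ ι : Type*} [Fintype κ] [Fintype ι] [Inhabited κ] [Inhabited ι]

noncomputable def F27_0 (E : Env κ ι) : (Fin 3 → κ) → (Fin 5 → ι) → ℝ := op2 (P2 κ) (P6 ι) (fB E 3 5 m27_0)

noncomputable def F27_1 (E : Env κ ι) : (Fin 3 → κ) → (Fin 5 → ι) → ℝ := op2 (P2 κ) (P6 ι) (fB E 3 5 m27_1)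

noncomputable def F27_2 (E : Env κ ι) : (Fin 3 → κ) → (Fin 5 → ι) → ℝ := op2 (P2 κ) (P6 ι) (fB E 3 5 m27_2)

noncomputable def F27_3 (E : Env κ ι) : (Fin 3 → κ) → (Fin 5 → ι) → ℝ := op2 (P2 κ) (P6 ι) (fB E 3 5 m27_3)

noncomputable def F27_4 (E : Env κ ι) : (Fin 3 → κ) → (Fin 5 → ι) → ℝ := op2 (P2 κ) (P6 ι) (fB E 3 5 m27_4)

def r27_0_0 : List (ℕ × ℤ) := [(2, 288), (4, 216), (5, -432), (9, 144), (11, -864), (12, -1152), (13, -360), (14, -288), (15, -504), (16, -1152), (18, -144), (19, 72), (20, 360), (21, 288), (22, 576), (23, -144), (24, 504), (25, -288), (26, -576), (27, 720), (28, -144), (29, 648), (33, 576), (34, 504), (35, -360), (38, -504), (39, 1368), (40, 720), (41, 432), (42, -288), (44, -216)]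

theorem h27_0_0 (E : Env κ ι) : ip (F27_0 E) (F27_0 E) = dotS (ek E lk27) r27_0_0 :=
  op_entryZ E lk27 3 5 _ _ _ _ (pg2 κ) (pg6 ι) m27_0 m27_0 l27_0 z27_0 w27_0 x27_0 (by decide) _ (chkS_sound E lk27 3 5 _ _ _ _ t27_0_0)

def r27_0_1 : List (ℕ × ℤ) := [(2, 360), (4, 216), (5, -216), (7, -216), (9, 72), (11, -1080), (12, -1008), (13, -288), (14, -360), (15, -360), (16, -144), (18, 144), (19, 144), (20, 288), (21, 360), (22, 72), (23, -288), (24, 576), (25, -360), (26, -504), (27, 576), (28, 144), (29, 864), (33, 504), (34, 144), (35, -288), (38, -576), (39, 360), (40, 576), (41, 432), (42, 72), (44, -216)]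

theorem h27_0_1 (E : Env κ ι) : ip (F27_0 E) (F27_1 E) = dotS (ek E lk27) r27_0_1 :=
  op_entryZ E lk27 3 5 _ _ _ _ (pg2 κ) (pg6 ι) m27_0 m27_1 l27_1 z27_1 w27_1 x27_1 (by decide) _ (chkS_sound E lk27 3 5 _ _ _ _ t27_0_1)

def r27_0_2 : List (ℕ × ℤ) := [(2, 216), (4, -432), (5, -216), (7, -648), (9, 648), (11, 216), (12, -432), (13, -216), (14, -216), (16, -432), (19, -216), (20, 216), (21, 216), (22, 216), (23, -432), (24, 648), (25, -216), (26, -648), (27, -432), (29, 216), (33, 648), (34, 216), (35, -216), (38, -648), (40, 432), (41, 864), (42, 216), (44, 432)]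

theorem h27_0_2 (E : Env κ ι) : ip (F27_0 E) (F27_2 E) = dotS (ek E lk27) r27_0_2 :=
  op_entryZ E lk27 3 5 _ _ _ _ (pg2 κ) (pg6 ι) m27_0 m27_2 l27_2 z27_2 w27_2 x27_2 (by decide) _ (chkS_sound E lk27 3 5 _ _ _ _ t27_0_2)

def r27_0_3 : List (ℕ × ℤ) := [(2, -288), (3, 72), (5, -1080), (6, -216), (8, -432), (9, 1368), (10, 288), (11, 1440), (12, -288), (13, -72), (16, -1008), (29, -1152), (30, -288), (31, -72), (36, 648), (40, -360), (41, 1080), (43, 360)]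

theorem h27_0_3 (E : Env κ ι) : ip (F27_0 E) (F27_3 E) = dotS (ek E lk27) r27_0_3 :=
  op_entryZ E lk27 3 5 _ _ _ _ (pg2 κ) (pg6 ι) m27_0 m27_3 l27_3 z27_3 w27_3 x27_3 (by decide) _ (chkS_sound E lk27 3 5 _ _ _ _ t27_0_3)

def r27_0_4 : List (ℕ × ℤ) := [(2, -288), (3, -360), (5, 216), (6, -648), (8, 432), (9, 72), (10, 288), (11, -288), (12, -288), (13, 360), (16, -144), (29, 576), (30, -288), (31, 360), (36, 216), (40, 72), (41, -216), (43, -72)]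

theorem h27_0_4 (E : Env κ ι) : ip (F27_0 E) (F27_4 E) = dotS (ek E lk27) r27_0_4 :=
  op_entryZ E lk27 3 5 _ _ _ _ (pg2 κ) (pg6 ι) m27_0 m27_4 l27_4 z27_4 w27_4 x27_4 (by decide) _ (chkS_sound E lk27 3 5 _ _ _ _ t27_0_4)

def r27_1_1 : List (ℕ × ℤ) := [(2, 288), (4, 216), (7, -432), (9, -72), (11, -864), (12, -1152), (13, -360), (14, -288), (15, -72), (16, 576), (18, 504), (19, 288), (20, 360), (21, 288), (22, -288), (23, -144), (24, 504), (25, -288), (26, -576), (27, 720), (28, -144), (29, 648), (33, 576), (34, -144), (35, -360), (38, -504), (39, -360), (40, 288), (41, 432), (42, 576), (44, -216)]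

theorem h27_1_1 (E : Env κ ι) : ip (F27_1 E) (F27_1 E) = dotS (ek E lk27) r27_1_1 :=
  op_entryZ E lk27 3 5 _ _ _ _ (pg2 κ) (pg6 ι) m27_1 m27_1 l27_1 z27_1 w27_1 x27_1 (by decide) _ (chkS_sound E lk27 3 5 _ _ _ _ t27_1_1)

def r27_1_2 : List (ℕ × ℤ) := [(2, 216), (4, -432), (5, -648), (7, -216), (11, 216), (12, -432), (13, -216), (14, -216), (15, 432), (16, 432), (18, 216), (19, 432), (20, 216), (21, 216), (22, 216), (23, -432), (24, 648), (25, -216), (26, -648), (27, -432), (29, 216), (33, 648), (35, -216), (38, -648), (39, -864), (41, 864), (42, 216), (44, 432)]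

theorem h27_1_2 (E : Env κ ι) : ip (F27_1 E) (F27_2 E) = dotS (ek E lk27) r27_1_2 :=
  op_entryZ E lk27 3 5 _ _ _ _ (pg2 κ) (pg6 ι) m27_1 m27_2 l27_2 z27_2 w27_2 x27_2 (by decide) _ (chkS_sound E lk27 3 5 _ _ _ _ t27_1_2)

def r27_1_3 : List (ℕ × ℤ) := [(2, 72), (3, -288), (5, -1080), (6, -216), (8, -432), (9, 1440), (10, -72), (11, 1368), (12, -1008), (13, 288), (16, -288), (29, -360), (30, 288), (31, -360), (36, 648), (40, -1152), (41, 1080), (43, 72)]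

theorem h27_1_3 (E : Env κ ι) : ip (F27_1 E) (F27_3 E) = dotS (ek E lk27) r27_1_3 :=
  op_entryZ E lk27 3 5 _ _ _ _ (pg2 κ) (pg6 ι) m27_1 m27_3 l27_3 z27_3 w27_3 x27_3 (by decide) _ (chkS_sound E lk27 3 5 _ _ _ _ t27_1_3)

def r27_1_4 : List (ℕ × ℤ) := [(2, -360), (3, -288), (5, 216), (6, -648), (8, 432), (9, -288), (10, 360), (11, 72), (12, -144), (13, 288), (16, -288), (29, 72), (30, 288), (31, 72), (36, 216), (40, 576), (41, -216), (43, -360)]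

theorem h27_1_4 (E : Env κ ι) : ip (F27_1 E) (F27_4 E) = dotS (ek E lk27) r27_1_4 :=
  op_entryZ E lk27 3 5 _ _ _ _ (pg2 κ) (pg6 ι) m27_1 m27_4 l27_4 z27_4 w27_4 x27_4 (by decide) _ (chkS_sound E lk27 3 5 _ _ _ _ t27_1_4)

def r27_2_2 : List (ℕ × ℤ) := [(2, -432), (4, -864), (5, -864), (7, -864), (9, 216), (11, -432), (12, -864), (13, 432), (14, 432), (15, 432), (16, 864), (18, -216), (19, 648), (20, 432), (21, 432), (22, 432), (23, -864), (24, 432), (25, -432), (26, -432), (27, -864), (29, -432), (33, 432), (34, -216), (35, -432), (38, -432), (40, 432), (41, 1728), (42, 432), (44, 864)]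

theorem h27_2_2 (E : Env κ ι) : ip (F27_2 E) (F27_2 E) = dotS (ek E lk27) r27_2_2 :=
  op_entryZ E lk27 3 5 _ _ _ _ (pg2 κ) (pg6 ι) m27_2 m27_2 l27_2 z27_2 w27_2 x27_2 (by decide) _ (chkS_sound E lk27 3 5 _ _ _ _ t27_2_2)

def r27_2_3 : List (ℕ × ℤ) := [(2, -648), (3, -648), (5, -1296), (6, 432), (8, -864), (9, 648), (10, 648), (11, 648), (12, -1296), (13, 648), (16, -1296), (29, 648), (31, -432), (36, 432), (40, 648), (41, 1296), (43, 432)]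

theorem h27_2_3 (E : Env κ ι) : ip (F27_2 E) (F27_3 E) = dotS (ek E lk27) r27_2_3 :=
  op_entryZ E lk27 3 5 _ _ _ _ (pg2 κ) (pg6 ι) m27_2 m27_3 l27_3 z27_3 w27_3 x27_3 (by decide) _ (chkS_sound E lk27 3 5 _ _ _ _ t27_2_3)

def r27_2_4 : List (ℕ × ℤ) := [(2, -216), (3, -216), (5, -432), (6, -432), (8, 864), (9, 216), (10, 216), (11, 216), (12, -432), (13, 216), (16, -432), (29, 216), (31, 432), (36, -432), (40, 216), (41, 432), (43, -432)]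

theorem h27_2_4 (E : Env κ ι) : ip (F27_2 E) (F27_4 E) = dotS (ek E lk27) r27_2_4 :=
  op_entryZ E lk27 3 5 _ _ _ _ (pg2 κ) (pg6 ι) m27_2 m27_4 l27_4 z27_4 w27_4 x27_4 (by decide) _ (chkS_sound E lk27 3 5 _ _ _ _ t27_2_4)

def r27_3_3 : List (ℕ × ℤ) := [(0, 360), (1, -72), (3, -432), (9, -360), (10, 648), (12, -144), (14, 432), (17, -360), (18, -1080), (19, -1008), (24, -432), (26, 432), (27, 144), (32, 72), (34, 432), (37, 1368)]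

theorem h27_3_3 (E : Env κ ι) : ip (F27_3 E) (F27_3 E) = dotS (ek E lk27) r27_3_3 :=
  op_entryZ E lk27 3 5 _ _ _ _ (pg2 κ) (pg6 ι) m27_3 m27_3 l27_3 z27_3 w27_3 x27_3 (by decide) _ (chkS_sound E lk27 3 5 _ _ _ _ t27_3_3)

def r27_3_4 : List (ℕ × ℤ) := [(0, -72), (1, 360), (3, 432), (9, 72), (10, 216), (12, -1008), (14, -432), (17, 72), (18, 216), (19, -144), (24, 432), (26, -432), (27, 1008), (32, -360), (34, -432), (37, 72)]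

theorem h27_3_4 (E : Env κ ι) : ip (F27_3 E) (F27_4 E) = dotS (ek E lk27) r27_3_4 :=
  op_entryZ E lk27 3 5 _ _ _ _ (pg2 κ) (pg6 ι) m27_3 m27_4 l27_4 z27_4 w27_4 x27_4 (by decide) _ (chkS_sound E lk27 3 5 _ _ _ _ t27_3_4)

def r27_4_4 : List (ℕ × ℤ) := [(0, 360), (1, -72), (3, -432), (9, 1368), (10, -1080), (12, -144), (14, 432), (17, -360), (18, 648), (19, -1008), (24, -432), (26, 432), (27, 144), (32, 72), (34, 432), (37, -360)]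

theorem h27_4_4 (E : Env κ ι) : ip (F27_4 E) (F27_4 E) = dotS (ek E lk27) r27_4_4 :=
  op_entryZ E lk27 3 5 _ _ _ _ (pg2 κ) (pg6 ι) m27_4 m27_4 l27_4 z27_4 w27_4 x27_4 (by decide) _ (chkS_sound E lk27 3 5 _ _ _ _ t27_4_4)

theorem row27_0 (E : Env κ ι) : RowG (ek E lk27) (F27_0 E) [F27_0 E, F27_1 E, F27_2 E, F27_3 E, F27_4 E] [r27_0_0, r27_0_1, r27_0_2, r27_0_3, r27_0_4] :=
  rowG_cons _ _ _ _ _ _ (h27_0_0 E) (rowG_cons _ _ _ _ _ _ (h27_0_1 E) (rowG_cons _ _ _ _ _ _ (h27_0_2 E) (rowG_cons _ _ _ _ _ _ (h27_0_3 E) (rowG_cons _ _ _ _ _ _ (h27_0_4 E) (rowG_nil _ _)))))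

theorem row27_1 (E : Env κ ι) : RowG (ek E lk27) (F27_1 E) [F27_1 E, F27_2 E, F27_3 E, F27_4 E] [r27_1_1, r27_1_2, r27_1_3, r27_1_4] :=
  rowG_cons _ _ _ _ _ _ (h27_1_1 E) (rowG_cons _ _ _ _ _ _ (h27_1_2 E) (rowG_cons _ _ _ _ _ _ (h27_1_3 E) (rowG_cons _ _ _ _ _ _ (h27_1_4 E) (rowG_nil _ _))))

theorem row27_2 (E : Env κ ι) : RowG (ek E lk27) (F27_2 E) [F27_2 E, F27_3 E, F27_4 E] [r27_2_2, r27_2_3, r27_2_4] :=
  rowG_cons _ _ _ _ _ _ (h27_2_2 E) (rowG_cons _ _ _ _ _ _ (h27_2_3 E) (rowG_cons _ _ _ _ _ _ (h27_2_4 E) (rowG_nil _ _)))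

theorem row27_3 (E : Env κ ι) : RowG (ek E lk27) (F27_3 E) [F27_3 E, F27_4 E] [r27_3_3, r27_3_4] :=
  rowG_cons _ _ _ _ _ _ (h27_3_3 E) (rowG_cons _ _ _ _ _ _ (h27_3_4 E) (rowG_nil _ _))

theorem row27_4 (E : Env κ ι) : RowG (ek E lk27) (F27_4 E) [F27_4 E] [r27_4_4] :=
  rowG_cons _ _ _ _ _ _ (h27_4_4 E) (rowG_nil _ _)

def tab27 : List (List (List (ℕ × ℤ))) := [[r27_0_0, r27_0_1, r27_0_2, r27_0_3, r27_0_4], [r27_1_1, r27_1_2, r27_1_3, r27_1_4], [r27_2_2, r27_2_3, r27_2_4], [r27_3_3, r27_3_4], [r27_4_4]]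

theorem tri27 (E : Env κ ι) : TriG (ek E lk27) [F27_0 E, F27_1 E, F27_2 E, F27_3 E, F27_4 E] tab27 := by
  refine triG_cons _ _ _ _ _ (row27_0 E) ?_
  refine triG_cons _ _ _ _ _ (row27_1 E) ?_
  refine triG_cons _ _ _ _ _ (row27_2 E) ?_
  refine triG_cons _ _ _ _ _ (row27_3 E) ?_
  refine triG_cons _ _ _ _ _ (row27_4 E) ?_
  exact triG_nil _

end

def lk28 : List Key := [
  (3, 7, [(0, [0], [0, 1]), (0, [0], [0, 1]), (0, [1], [2, 3]), (0, [1], [2, 3]), (0, [2], [4, 5]), (0, [2], [4, 6]), (4, [], [6]), (4, [], [5])]),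
  (3, 7, [(0, [0], [0, 1]), (0, [0], [0, 1]), (0, [1], [2, 3]), (0, [2], [2, 4]), (0, [2], [5, 6]), (0, [1], [5, 6]), (4, [], [4]), (4, [], [3])]),
  (3, 7, [(0, [0], [0, 1]), (0, [1], [0, 2]), (0, [0], [2, 3]), (0, [2], [1, 4]), (0, [1], [5, 6]), (0, [2], [5, 6]), (4, [], [3]), (4, [], [4])]),
  (3, 7, [(0, [0], [0, 1]), (0, [1], [0, 2]), (0, [0], [3, 4]), (0, [1], [3, 4]), (0, [2], [1, 5]), (0, [2], [5, 6]), (4, [], [2]), (4, [], [6])]),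
  (3, 7, [(0, [0], [0, 1]), (0, [0], [0, 2]), (0, [1], [1, 2]), (4, [], [3]), (0, [2], [4, 5]), (0, [2], [4, 6]), (0, [1], [5, 6]), (4, [], [3])]),
  (3, 7, [(0, [0], [0, 1]), (0, [0], [0, 2]), (0, [1], [1, 2]), (4, [], [3]), (0, [2], [4, 5]), (0, [2], [4, 6]), (0, [1], [3, 6]), (4, [], [5])]),
  (3, 7, [(0, [0], [0, 1]), (0, [0], [0, 2]), (0, [1], [1, 2]), (4, [], [3]), (0, [2], [4, 5]), (0, [2], [4, 5]), (0, [1], [3, 6]), (4, [], [6])]),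
  (3, 7, [(0, [0], [0, 1]), (0, [0], [0, 2]), (0, [1], [1, 2]), (4, [], [3]), (0, [2], [4, 5]), (0, [2], [3, 6]), (0, [1], [4, 6]), (4, [], [5])]),
  (3, 7, [(0, [0], [0, 1]), (0, [0], [0, 2]), (0, [1], [1, 2]), (4, [], [3]), (0, [2], [4, 5]), (0, [2], [3, 6]), (0, [1], [4, 5]), (4, [], [6])]),
  (3, 7, [(0, [0], [0, 1]), (0, [0], [0, 2]), (0, [1], [3, 2]), (4, [], [1]), (0, [2], [4, 5]), (0, [2], [4, 6]), (0, [1], [3, 6]), (4, [], [5])]),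
  (3, 7, [(0, [0], [0, 1]), (0, [0], [0, 2]), (0, [1], [3, 2]), (4, [], [1]), (0, [2], [4, 5]), (0, [2], [4, 5]), (0, [1], [3, 6]), (4, [], [6])]),
  (3, 7, [(0, [0], [0, 1]), (0, [0], [0, 2]), (0, [1], [3, 2]), (4, [], [1]), (0, [2], [4, 5]), (0, [2], [3, 6]), (0, [1], [4, 6]), (4, [], [5])]),
  (3, 7, [(0, [0], [0, 1]), (0, [0], [0, 2]), (0, [1], [3, 2]), (4, [], [1]), (0, [2], [4, 5]), (0, [2], [3, 4]), (0, [1], [5, 6]), (4, [], [6])]),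
  (3, 7, [(0, [0], [0, 1]), (0, [0], [0, 1]), (0, [1], [2, 3]), (4, [], [3]), (0, [2], [4, 5]), (0, [2], [2, 6]), (0, [1], [4, 6]), (4, [], [5])]),
  (3, 7, [(0, [0], [0, 1]), (0, [0], [0, 1]), (0, [1], [2, 3]), (4, [], [3]), (0, [2], [4, 5]), (0, [2], [2, 4]), (0, [1], [5, 6]), (4, [], [6])]),
  (3, 7, [(0, [0], [0, 1]), (0, [0], [2, 3]), (0, [1], [0, 3]), (4, [], [1]), (0, [2], [4, 5]), (0, [2], [2, 6]), (0, [1], [4, 6]), (4, [], [5])]),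
  (3, 7, [(0, [0], [0, 1]), (0, [0], [2, 3]), (0, [1], [0, 3]), (4, [], [1]), (0, [2], [4, 5]), (0, [2], [2, 4]), (0, [1], [5, 6]), (4, [], [6])]),
  (3, 7, [(0, [0], [0, 1]), (0, [0], [2, 3]), (0, [1], [0, 1]), (4, [], [3]), (0, [2], [4, 5]), (0, [2], [2, 6]), (0, [1], [4, 5]), (4, [], [6])]),
  (3, 7, [(0, [0], [0, 1]), (0, [0], [2, 3]), (0, [1], [0, 1]), (4, [], [3]), (0, [2], [4, 5]), (0, [2], [2, 4]), (0, [1], [5, 6]), (4, [], [6])]),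
  (3, 7, [(0, [0], [0, 1]), (0, [0], [2, 0]), (0, [1], [1, 3]), (4, [], [3]), (0, [2], [4, 5]), (0, [2], [2, 4]), (0, [1], [5, 6]), (4, [], [6])]),
  (3, 7, [(0, [0], [0, 1]), (0, [0], [0, 1]), (0, [1], [2, 3]), (4, [], [4]), (0, [2], [5, 6]), (0, [2], [2, 5]), (0, [1], [3, 6]), (4, [], [4])]),
  (3, 7, [(0, [0], [0, 1]), (0, [0], [0, 1]), (0, [1], [2, 3]), (4, [], [4]), (0, [2], [2, 5]), (0, [2], [3, 6]), (0, [1], [5, 6]), (4, [], [4])]),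
  (3, 7, [(0, [0], [0, 1]), (0, [0], [2, 0]), (0, [1], [3, 1]), (4, [], [4]), (0, [2], [5, 6]), (0, [2], [2, 5]), (0, [1], [3, 6]), (4, [], [4])]),
  (3, 7, [(0, [0], [0, 1]), (0, [0], [2, 0]), (0, [1], [3, 1]), (4, [], [4]), (0, [2], [5, 6]), (0, [2], [3, 5]), (0, [1], [2, 6]), (4, [], [4])]),
  (3, 7, [(0, [0], [0, 1]), (0, [0], [2, 0]), (0, [1], [3, 1]), (4, [], [4]), (0, [2], [5, 6]), (0, [2], [4, 5]), (0, [1], [2, 3]), (4, [], [6])]),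
  (3, 7, [(0, [0], [0, 1]), (0, [0], [2, 0]), (0, [1], [3, 1]), (4, [], [4]), (0, [2], [5, 6]), (0, [2], [2, 3]), (0, [1], [5, 6]), (4, [], [4])]),
  (3, 7, [(0, [0], [0, 1]), (0, [0], [2, 0]), (0, [1], [3, 1]), (4, [], [4]), (0, [2], [5, 6]), (0, [2], [2, 3]), (0, [1], [4, 5]), (4, [], [6])]),
  (3, 7, [(0, [0], [0, 1]), (0, [0], [2, 0]), (0, [1], [3, 1]), (4, [], [4]), (0, [2], [5, 6]), (0, [2], [3, 4]), (0, [1], [2, 5]), (4, [], [6])]),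
  (3, 7, [(0, [0], [0, 1]), (0, [0], [2, 0]), (0, [1], [3, 1]), (4, [], [4]), (0, [2], [2, 5]), (0, [2], [3, 6]), (0, [1], [5, 6]), (4, [], [4])]),
  (3, 7, [(0, [0], [0, 1]), (0, [0], [2, 0]), (0, [1], [3, 1]), (4, [], [4]), (0, [2], [3, 5]), (0, [2], [2, 6]), (0, [1], [4, 6]), (4, [], [5])]),
  (3, 7, [(0, [0], [0, 1]), (0, [0], [2, 0]), (0, [1], [3, 1]), (4, [], [4]), (0, [2], [4, 5]), (0, [2], [2, 6]), (0, [1], [3, 6]), (4, [], [5])]),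
  (3, 7, [(0, [0], [0, 1]), (0, [0], [2, 0]), (0, [1], [3, 1]), (4, [], [4]), (0, [2], [4, 5]), (0, [2], [3, 6]), (0, [1], [2, 6]), (4, [], [5])]),
  (3, 7, [(0, [0], [0, 1]), (0, [0], [2, 0]), (0, [1], [3, 4]), (4, [], [1]), (0, [2], [5, 6]), (0, [2], [3, 4]), (0, [1], [5, 6]), (4, [], [2])]),
  (3, 7, [(0, [0], [0, 1]), (0, [0], [2, 0]), (0, [1], [3, 4]), (4, [], [1]), (0, [2], [3, 5]), (0, [2], [4, 6]), (0, [1], [5, 6]), (4, [], [2])]),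
  (3, 7, [(0, [0], [0, 1]), (0, [0], [2, 3]), (0, [1], [0, 1]), (4, [], [4]), (0, [2], [5, 6]), (0, [2], [2, 4]), (0, [1], [3, 5]), (4, [], [6])]),
  (3, 7, [(0, [0], [0, 1]), (0, [0], [2, 3]), (0, [1], [0, 1]), (4, [], [4]), (0, [2], [2, 5]), (0, [2], [3, 6]), (0, [1], [5, 6]), (4, [], [4])]),
  (3, 7, [(0, [0], [0, 1]), (0, [0], [2, 3]), (0, [1], [0, 1]), (4, [], [4]), (0, [2], [4, 5]), (0, [2], [2, 6]), (0, [1], [3, 6]), (4, [], [5])]),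
  (3, 7, [(0, [0], [0, 1]), (0, [0], [2, 3]), (0, [1], [4, 0]), (4, [], [1]), (0, [2], [5, 6]), (0, [2], [2, 4]), (0, [1], [3, 5]), (4, [], [6])]),
  (3, 7, [(0, [0], [0, 1]), (0, [0], [2, 3]), (0, [1], [4, 0]), (4, [], [1]), (0, [2], [2, 5]), (0, [2], [3, 6]), (0, [1], [5, 6]), (4, [], [4])]),
  (3, 7, [(0, [0], [0, 1]), (0, [0], [2, 3]), (0, [1], [4, 0]), (4, [], [1]), (0, [2], [2, 5]), (0, [2], [4, 6]), (0, [1], [5, 6]), (4, [], [3])]),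
  (3, 7, [(0, [0], [0, 1]), (0, [0], [2, 3]), (0, [1], [4, 0]), (4, [], [1]), (0, [2], [2, 5]), (0, [2], [4, 6]), (0, [1], [3, 6]), (4, [], [5])]),
  (3, 7, [(0, [0], [0, 1]), (0, [0], [2, 3]), (0, [1], [4, 0]), (4, [], [1]), (0, [2], [4, 5]), (0, [2], [2, 6]), (0, [1], [3, 6]), (4, [], [5])]),
  (3, 7, [(0, [0], [0, 1]), (0, [0], [2, 3]), (0, [1], [1, 3]), (4, [], [4]), (0, [2], [0, 5]), (0, [2], [2, 6]), (0, [1], [5, 6]), (4, [], [4])]),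
  (3, 7, [(0, [0], [0, 1]), (0, [0], [2, 3]), (0, [1], [1, 3]), (4, [], [4]), (0, [2], [4, 5]), (0, [2], [0, 6]), (0, [1], [2, 6]), (4, [], [5])]),
  (3, 7, [(0, [0], [0, 1]), (0, [0], [2, 3]), (0, [1], [4, 1]), (4, [], [5]), (0, [2], [2, 6]), (0, [2], [0, 4]), (0, [1], [3, 6]), (4, [], [5])])]

def kl28 : List ℕ := [13, 14, 57, 58, 94, 95, 96, 97, 98, 109, 110, 111, 112, 119, 120, 125, 126, 132, 133, 144, 204, 206, 216, 217, 218, 219, 220, 221, 222, 223, 224, 225, 252, 253, 267, 268, 269, 284, 285, 286, 287, 288, 302, 303, 430]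

def m28_0 : Base := (0, 1, [(0, [0], [0, 5]), (0, [1], [1, 5]), (0, [2], [2, 3]), (4, [], [4])])

def l28_0 : Cov := [(216, 0, 1, [(0, [0], [0, 5]), (0, [1], [1, 5]), (0, [2], [2, 3]), (4, [], [4])]),
  (-216, 0, 1, [(0, [0], [0, 5]), (0, [1], [1, 5]), (0, [2], [2, 4]), (4, [], [3])]),
  (216, 0, 1, [(0, [0], [0, 5]), (0, [1], [2, 5]), (0, [2], [1, 3]), (4, [], [4])]),
  (-216, 0, 1, [(0, [0], [0, 5]), (0, [1], [2, 5]), (0, [2], [3, 4]), (4, [], [1])]),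
  (432, 0, 1, [(0, [0], [0, 5]), (0, [1], [3, 5]), (0, [2], [1, 2]), (4, [], [4])]),
  (-432, 0, 1, [(0, [0], [0, 5]), (0, [1], [3, 5]), (0, [2], [2, 4]), (4, [], [1])]),
  (216, 0, 1, [(0, [0], [0, 5]), (0, [1], [4, 5]), (0, [2], [1, 2]), (4, [], [3])]),
  (-216, 0, 1, [(0, [0], [0, 5]), (0, [1], [4, 5]), (0, [2], [2, 3]), (4, [], [1])]),
  (-216, 0, 1, [(0, [0], [1, 5]), (0, [1], [0, 5]), (0, [2], [2, 3]), (4, [], [4])]),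
  (216, 0, 1, [(0, [0], [1, 5]), (0, [1], [0, 5]), (0, [2], [2, 4]), (4, [], [3])]),
  (216, 0, 1, [(0, [0], [1, 5]), (0, [1], [2, 5]), (0, [2], [0, 4]), (4, [], [3])]),
  (-216, 0, 1, [(0, [0], [1, 5]), (0, [1], [2, 5]), (0, [2], [3, 4]), (4, [], [0])]),
  (216, 0, 1, [(0, [0], [1, 5]), (0, [1], [3, 5]), (0, [2], [0, 2]), (4, [], [4])]),
  (-216, 0, 1, [(0, [0], [1, 5]), (0, [1], [3, 5]), (0, [2], [2, 4]), (4, [], [0])]),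
  (432, 0, 1, [(0, [0], [1, 5]), (0, [1], [4, 5]), (0, [2], [0, 2]), (4, [], [3])]),
  (-432, 0, 1, [(0, [0], [1, 5]), (0, [1], [4, 5]), (0, [2], [2, 3]), (4, [], [0])]),
  (-216, 0, 1, [(0, [0], [2, 5]), (0, [1], [0, 5]), (0, [2], [1, 3]), (4, [], [4])]),
  (216, 0, 1, [(0, [0], [2, 5]), (0, [1], [0, 5]), (0, [2], [3, 4]), (4, [], [1])]),
  (-216, 0, 1, [(0, [0], [2, 5]), (0, [1], [1, 5]), (0, [2], [0, 4]), (4, [], [3])]),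
  (216, 0, 1, [(0, [0], [2, 5]), (0, [1], [1, 5]), (0, [2], [3, 4]), (4, [], [0])]),
  (216, 0, 1, [(0, [0], [2, 5]), (0, [1], [3, 5]), (0, [2], [0, 1]), (4, [], [4])]),
  (-216, 0, 1, [(0, [0], [2, 5]), (0, [1], [3, 5]), (0, [2], [0, 4]), (4, [], [1])]),
  (216, 0, 1, [(0, [0], [2, 5]), (0, [1], [4, 5]), (0, [2], [0, 1]), (4, [], [3])]),
  (-216, 0, 1, [(0, [0], [2, 5]), (0, [1], [4, 5]), (0, [2], [1, 3]), (4, [], [0])]),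
  (-432, 0, 1, [(0, [0], [3, 5]), (0, [1], [0, 5]), (0, [2], [1, 2]), (4, [], [4])]),
  (432, 0, 1, [(0, [0], [3, 5]), (0, [1], [0, 5]), (0, [2], [2, 4]), (4, [], [1])]),
  (-216, 0, 1, [(0, [0], [3, 5]), (0, [1], [1, 5]), (0, [2], [0, 2]), (4, [], [4])]),
  (216, 0, 1, [(0, [0], [3, 5]), (0, [1], [1, 5]), (0, [2], [2, 4]), (4, [], [0])]),
  (-216, 0, 1, [(0, [0], [3, 5]), (0, [1], [2, 5]), (0, [2], [0, 1]), (4, [], [4])]),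
  (216, 0, 1, [(0, [0], [3, 5]), (0, [1], [2, 5]), (0, [2], [0, 4]), (4, [], [1])]),
  (216, 0, 1, [(0, [0], [3, 5]), (0, [1], [4, 5]), (0, [2], [0, 2]), (4, [], [1])]),
  (-216, 0, 1, [(0, [0], [3, 5]), (0, [1], [4, 5]), (0, [2], [1, 2]), (4, [], [0])]),
  (-216, 0, 1, [(0, [0], [4, 5]), (0, [1], [0, 5]), (0, [2], [1, 2]), (4, [], [3])]),
  (216, 0, 1, [(0, [0], [4, 5]), (0, [1], [0, 5]), (0, [2], [2, 3]), (4, [], [1])]),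
  (-432, 0, 1, [(0, [0], [4, 5]), (0, [1], [1, 5]), (0, [2], [0, 2]), (4, [], [3])]),
  (432, 0, 1, [(0, [0], [4, 5]), (0, [1], [1, 5]), (0, [2], [2, 3]), (4, [], [0])]),
  (-216, 0, 1, [(0, [0], [4, 5]), (0, [1], [2, 5]), (0, [2], [0, 1]), (4, [], [3])]),
  (216, 0, 1, [(0, [0], [4, 5]), (0, [1], [2, 5]), (0, [2], [1, 3]), (4, [], [0])]),
  (-216, 0, 1, [(0, [0], [4, 5]), (0, [1], [3, 5]), (0, [2], [0, 2]), (4, [], [1])]),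
  (216, 0, 1, [(0, [0], [4, 5]), (0, [1], [3, 5]), (0, [2], [1, 2]), (4, [], [0])]),
  (-216, 0, 1, [(0, [0], [0, 5]), (0, [2], [1, 5]), (0, [1], [2, 3]), (4, [], [4])]),
  (216, 0, 1, [(0, [0], [0, 5]), (0, [2], [1, 5]), (0, [1], [2, 4]), (4, [], [3])]),
  (-216, 0, 1, [(0, [0], [0, 5]), (0, [2], [2, 5]), (0, [1], [1, 3]), (4, [], [4])]),
  (216, 0, 1, [(0, [0], [0, 5]), (0, [2], [2, 5]), (0, [1], [3, 4]), (4, [], [1])]),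
  (-432, 0, 1, [(0, [0], [0, 5]), (0, [2], [3, 5]), (0, [1], [1, 2]), (4, [], [4])]),
  (432, 0, 1, [(0, [0], [0, 5]), (0, [2], [3, 5]), (0, [1], [2, 4]), (4, [], [1])]),
  (-216, 0, 1, [(0, [0], [0, 5]), (0, [2], [4, 5]), (0, [1], [1, 2]), (4, [], [3])]),
  (216, 0, 1, [(0, [0], [0, 5]), (0, [2], [4, 5]), (0, [1], [2, 3]), (4, [], [1])]),
  (216, 0, 1, [(0, [0], [1, 5]), (0, [2], [0, 5]), (0, [1], [2, 3]), (4, [], [4])]),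
  (-216, 0, 1, [(0, [0], [1, 5]), (0, [2], [0, 5]), (0, [1], [2, 4]), (4, [], [3])]),
  (-216, 0, 1, [(0, [0], [1, 5]), (0, [2], [2, 5]), (0, [1], [0, 4]), (4, [], [3])]),
  (216, 0, 1, [(0, [0], [1, 5]), (0, [2], [2, 5]), (0, [1], [3, 4]), (4, [], [0])]),
  (-216, 0, 1, [(0, [0], [1, 5]), (0, [2], [3, 5]), (0, [1], [0, 2]), (4, [], [4])]),
  (216, 0, 1, [(0, [0], [1, 5]), (0, [2], [3, 5]), (0, [1], [2, 4]), (4, [], [0])]),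
  (-432, 0, 1, [(0, [0], [1, 5]), (0, [2], [4, 5]), (0, [1], [0, 2]), (4, [], [3])]),
  (432, 0, 1, [(0, [0], [1, 5]), (0, [2], [4, 5]), (0, [1], [2, 3]), (4, [], [0])]),
  (216, 0, 1, [(0, [0], [2, 5]), (0, [2], [0, 5]), (0, [1], [1, 3]), (4, [], [4])]),
  (-216, 0, 1, [(0, [0], [2, 5]), (0, [2], [0, 5]), (0, [1], [3, 4]), (4, [], [1])]),
  (216, 0, 1, [(0, [0], [2, 5]), (0, [2], [1, 5]), (0, [1], [0, 4]), (4, [], [3])]),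
  (-216, 0, 1, [(0, [0], [2, 5]), (0, [2], [1, 5]), (0, [1], [3, 4]), (4, [], [0])]),
  (-216, 0, 1, [(0, [0], [2, 5]), (0, [2], [3, 5]), (0, [1], [0, 1]), (4, [], [4])]),
  (216, 0, 1, [(0, [0], [2, 5]), (0, [2], [3, 5]), (0, [1], [0, 4]), (4, [], [1])]),
  (-216, 0, 1, [(0, [0], [2, 5]), (0, [2], [4, 5]), (0, [1], [0, 1]), (4, [], [3])]),
  (216, 0, 1, [(0, [0], [2, 5]), (0, [2], [4, 5]), (0, [1], [1, 3]), (4, [], [0])]),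
  (432, 0, 1, [(0, [0], [3, 5]), (0, [2], [0, 5]), (0, [1], [1, 2]), (4, [], [4])]),
  (-432, 0, 1, [(0, [0], [3, 5]), (0, [2], [0, 5]), (0, [1], [2, 4]), (4, [], [1])]),
  (216, 0, 1, [(0, [0], [3, 5]), (0, [2], [1, 5]), (0, [1], [0, 2]), (4, [], [4])]),
  (-216, 0, 1, [(0, [0], [3, 5]), (0, [2], [1, 5]), (0, [1], [2, 4]), (4, [], [0])]),
  (216, 0, 1, [(0, [0], [3, 5]), (0, [2], [2, 5]), (0, [1], [0, 1]), (4, [], [4])]),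
  (-216, 0, 1, [(0, [0], [3, 5]), (0, [2], [2, 5]), (0, [1], [0, 4]), (4, [], [1])]),
  (-216, 0, 1, [(0, [0], [3, 5]), (0, [2], [4, 5]), (0, [1], [0, 2]), (4, [], [1])]),
  (216, 0, 1, [(0, [0], [3, 5]), (0, [2], [4, 5]), (0, [1], [1, 2]), (4, [], [0])]),
  (216, 0, 1, [(0, [0], [4, 5]), (0, [2], [0, 5]), (0, [1], [1, 2]), (4, [], [3])]),
  (-216, 0, 1, [(0, [0], [4, 5]), (0, [2], [0, 5]), (0, [1], [2, 3]), (4, [], [1])]),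
  (432, 0, 1, [(0, [0], [4, 5]), (0, [2], [1, 5]), (0, [1], [0, 2]), (4, [], [3])]),
  (-432, 0, 1, [(0, [0], [4, 5]), (0, [2], [1, 5]), (0, [1], [2, 3]), (4, [], [0])]),
  (216, 0, 1, [(0, [0], [4, 5]), (0, [2], [2, 5]), (0, [1], [0, 1]), (4, [], [3])]),
  (-216, 0, 1, [(0, [0], [4, 5]), (0, [2], [2, 5]), (0, [1], [1, 3]), (4, [], [0])]),
  (216, 0, 1, [(0, [0], [4, 5]), (0, [2], [3, 5]), (0, [1], [0, 2]), (4, [], [1])]),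
  (-216, 0, 1, [(0, [0], [4, 5]), (0, [2], [3, 5]), (0, [1], [1, 2]), (4, [], [0])]),
  (216, 0, 1, [(0, [1], [0, 5]), (0, [2], [1, 5]), (0, [0], [2, 3]), (4, [], [4])]),
  (-216, 0, 1, [(0, [1], [0, 5]), (0, [2], [1, 5]), (0, [0], [2, 4]), (4, [], [3])]),
  (216, 0, 1, [(0, [1], [0, 5]), (0, [2], [2, 5]), (0, [0], [1, 3]), (4, [], [4])]),
  (-216, 0, 1, [(0, [1], [0, 5]), (0, [2], [2, 5]), (0, [0], [3, 4]), (4, [], [1])]),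
  (432, 0, 1, [(0, [1], [0, 5]), (0, [2], [3, 5]), (0, [0], [1, 2]), (4, [], [4])]),
  (-432, 0, 1, [(0, [1], [0, 5]), (0, [2], [3, 5]), (0, [0], [2, 4]), (4, [], [1])]),
  (216, 0, 1, [(0, [1], [0, 5]), (0, [2], [4, 5]), (0, [0], [1, 2]), (4, [], [3])]),
  (-216, 0, 1, [(0, [1], [0, 5]), (0, [2], [4, 5]), (0, [0], [2, 3]), (4, [], [1])]),
  (-216, 0, 1, [(0, [1], [1, 5]), (0, [2], [0, 5]), (0, [0], [2, 3]), (4, [], [4])]),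
  (216, 0, 1, [(0, [1], [1, 5]), (0, [2], [0, 5]), (0, [0], [2, 4]), (4, [], [3])]),
  (216, 0, 1, [(0, [1], [1, 5]), (0, [2], [2, 5]), (0, [0], [0, 4]), (4, [], [3])]),
  (-216, 0, 1, [(0, [1], [1, 5]), (0, [2], [2, 5]), (0, [0], [3, 4]), (4, [], [0])]),
  (216, 0, 1, [(0, [1], [1, 5]), (0, [2], [3, 5]), (0, [0], [0, 2]), (4, [], [4])]),
  (-216, 0, 1, [(0, [1], [1, 5]), (0, [2], [3, 5]), (0, [0], [2, 4]), (4, [], [0])]),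
  (432, 0, 1, [(0, [1], [1, 5]), (0, [2], [4, 5]), (0, [0], [0, 2]), (4, [], [3])]),
  (-432, 0, 1, [(0, [1], [1, 5]), (0, [2], [4, 5]), (0, [0], [2, 3]), (4, [], [0])]),
  (-216, 0, 1, [(0, [1], [2, 5]), (0, [2], [0, 5]), (0, [0], [1, 3]), (4, [], [4])]),
  (216, 0, 1, [(0, [1], [2, 5]), (0, [2], [0, 5]), (0, [0], [3, 4]), (4, [], [1])]),
  (-216, 0, 1, [(0, [1], [2, 5]), (0, [2], [1, 5]), (0, [0], [0, 4]), (4, [], [3])]),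
  (216, 0, 1, [(0, [1], [2, 5]), (0, [2], [1, 5]), (0, [0], [3, 4]), (4, [], [0])]),
  (216, 0, 1, [(0, [1], [2, 5]), (0, [2], [3, 5]), (0, [0], [0, 1]), (4, [], [4])]),
  (-216, 0, 1, [(0, [1], [2, 5]), (0, [2], [3, 5]), (0, [0], [0, 4]), (4, [], [1])]),
  (216, 0, 1, [(0, [1], [2, 5]), (0, [2], [4, 5]), (0, [0], [0, 1]), (4, [], [3])]),
  (-216, 0, 1, [(0, [1], [2, 5]), (0, [2], [4, 5]), (0, [0], [1, 3]), (4, [], [0])]),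
  (-432, 0, 1, [(0, [1], [3, 5]), (0, [2], [0, 5]), (0, [0], [1, 2]), (4, [], [4])]),
  (432, 0, 1, [(0, [1], [3, 5]), (0, [2], [0, 5]), (0, [0], [2, 4]), (4, [], [1])]),
  (-216, 0, 1, [(0, [1], [3, 5]), (0, [2], [1, 5]), (0, [0], [0, 2]), (4, [], [4])]),
  (216, 0, 1, [(0, [1], [3, 5]), (0, [2], [1, 5]), (0, [0], [2, 4]), (4, [], [0])]),
  (-216, 0, 1, [(0, [1], [3, 5]), (0, [2], [2, 5]), (0, [0], [0, 1]), (4, [], [4])]),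
  (216, 0, 1, [(0, [1], [3, 5]), (0, [2], [2, 5]), (0, [0], [0, 4]), (4, [], [1])]),
  (216, 0, 1, [(0, [1], [3, 5]), (0, [2], [4, 5]), (0, [0], [0, 2]), (4, [], [1])]),
  (-216, 0, 1, [(0, [1], [3, 5]), (0, [2], [4, 5]), (0, [0], [1, 2]), (4, [], [0])]),
  (-216, 0, 1, [(0, [1], [4, 5]), (0, [2], [0, 5]), (0, [0], [1, 2]), (4, [], [3])]),
  (216, 0, 1, [(0, [1], [4, 5]), (0, [2], [0, 5]), (0, [0], [2, 3]), (4, [], [1])]),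
  (-432, 0, 1, [(0, [1], [4, 5]), (0, [2], [1, 5]), (0, [0], [0, 2]), (4, [], [3])]),
  (432, 0, 1, [(0, [1], [4, 5]), (0, [2], [1, 5]), (0, [0], [2, 3]), (4, [], [0])]),
  (-216, 0, 1, [(0, [1], [4, 5]), (0, [2], [2, 5]), (0, [0], [0, 1]), (4, [], [3])]),
  (216, 0, 1, [(0, [1], [4, 5]), (0, [2], [2, 5]), (0, [0], [1, 3]), (4, [], [0])]),
  (-216, 0, 1, [(0, [1], [4, 5]), (0, [2], [3, 5]), (0, [0], [0, 2]), (4, [], [1])]),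
  (216, 0, 1, [(0, [1], [4, 5]), (0, [2], [3, 5]), (0, [0], [1, 2]), (4, [], [0])])]

def z28_0 : Cov := [(0, 0, 1, [(0, [0], [0, 5]), (0, [1], [1, 5]), (0, [2], [3, 4]), (4, [], [2])]),
  (0, 0, 1, [(0, [0], [0, 5]), (0, [1], [2, 5]), (0, [2], [1, 4]), (4, [], [3])]),
  (0, 0, 1, [(0, [0], [0, 5]), (0, [1], [3, 5]), (0, [2], [1, 4]), (4, [], [2])]),
  (0, 0, 1, [(0, [0], [0, 5]), (0, [1], [4, 5]), (0, [2], [1, 3]), (4, [], [2])]),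
  (0, 0, 1, [(0, [0], [1, 5]), (0, [1], [0, 5]), (0, [2], [3, 4]), (4, [], [2])]),
  (0, 0, 1, [(0, [0], [1, 5]), (0, [1], [2, 5]), (0, [2], [0, 3]), (4, [], [4])]),
  (0, 0, 1, [(0, [0], [1, 5]), (0, [1], [3, 5]), (0, [2], [0, 4]), (4, [], [2])]),
  (0, 0, 1, [(0, [0], [1, 5]), (0, [1], [4, 5]), (0, [2], [0, 3]), (4, [], [2])]),
  (0, 0, 1, [(0, [0], [2, 5]), (0, [1], [0, 5]), (0, [2], [1, 4]), (4, [], [3])]),
  (0, 0, 1, [(0, [0], [2, 5]), (0, [1], [1, 5]), (0, [2], [0, 3]), (4, [], [4])]),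
  (0, 0, 1, [(0, [0], [2, 5]), (0, [1], [3, 5]), (0, [2], [1, 4]), (4, [], [0])]),
  (0, 0, 1, [(0, [0], [2, 5]), (0, [1], [4, 5]), (0, [2], [0, 3]), (4, [], [1])]),
  (0, 0, 1, [(0, [0], [3, 5]), (0, [1], [0, 5]), (0, [2], [1, 4]), (4, [], [2])]),
  (0, 0, 1, [(0, [0], [3, 5]), (0, [1], [1, 5]), (0, [2], [0, 4]), (4, [], [2])]),
  (0, 0, 1, [(0, [0], [3, 5]), (0, [1], [2, 5]), (0, [2], [1, 4]), (4, [], [0])]),
  (0, 0, 1, [(0, [0], [3, 5]), (0, [1], [4, 5]), (0, [2], [0, 1]), (4, [], [2])]),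
  (0, 0, 1, [(0, [0], [4, 5]), (0, [1], [0, 5]), (0, [2], [1, 3]), (4, [], [2])]),
  (0, 0, 1, [(0, [0], [4, 5]), (0, [1], [1, 5]), (0, [2], [0, 3]), (4, [], [2])]),
  (0, 0, 1, [(0, [0], [4, 5]), (0, [1], [2, 5]), (0, [2], [0, 3]), (4, [], [1])]),
  (0, 0, 1, [(0, [0], [4, 5]), (0, [1], [3, 5]), (0, [2], [0, 1]), (4, [], [2])]),
  (0, 0, 1, [(0, [0], [0, 5]), (0, [2], [1, 5]), (0, [1], [3, 4]), (4, [], [2])]),
  (0, 0, 1, [(0, [0], [0, 5]), (0, [2], [2, 5]), (0, [1], [1, 4]), (4, [], [3])]),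
  (0, 0, 1, [(0, [0], [0, 5]), (0, [2], [3, 5]), (0, [1], [1, 4]), (4, [], [2])]),
  (0, 0, 1, [(0, [0], [0, 5]), (0, [2], [4, 5]), (0, [1], [1, 3]), (4, [], [2])]),
  (0, 0, 1, [(0, [0], [1, 5]), (0, [2], [0, 5]), (0, [1], [3, 4]), (4, [], [2])]),
  (0, 0, 1, [(0, [0], [1, 5]), (0, [2], [2, 5]), (0, [1], [0, 3]), (4, [], [4])]),
  (0, 0, 1, [(0, [0], [1, 5]), (0, [2], [3, 5]), (0, [1], [0, 4]), (4, [], [2])]),
  (0, 0, 1, [(0, [0], [1, 5]), (0, [2], [4, 5]), (0, [1], [0, 3]), (4, [], [2])]),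
  (0, 0, 1, [(0, [0], [2, 5]), (0, [2], [0, 5]), (0, [1], [1, 4]), (4, [], [3])]),
  (0, 0, 1, [(0, [0], [2, 5]), (0, [2], [1, 5]), (0, [1], [0, 3]), (4, [], [4])]),
  (0, 0, 1, [(0, [0], [2, 5]), (0, [2], [3, 5]), (0, [1], [1, 4]), (4, [], [0])]),
  (0, 0, 1, [(0, [0], [2, 5]), (0, [2], [4, 5]), (0, [1], [0, 3]), (4, [], [1])]),
  (0, 0, 1, [(0, [0], [3, 5]), (0, [2], [0, 5]), (0, [1], [1, 4]), (4, [], [2])]),
  (0, 0, 1, [(0, [0], [3, 5]), (0, [2], [1, 5]), (0, [1], [0, 4]), (4, [], [2])]),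
  (0, 0, 1, [(0, [0], [3, 5]), (0, [2], [2, 5]), (0, [1], [1, 4]), (4, [], [0])]),
  (0, 0, 1, [(0, [0], [3, 5]), (0, [2], [4, 5]), (0, [1], [0, 1]), (4, [], [2])]),
  (0, 0, 1, [(0, [0], [4, 5]), (0, [2], [0, 5]), (0, [1], [1, 3]), (4, [], [2])]),
  (0, 0, 1, [(0, [0], [4, 5]), (0, [2], [1, 5]), (0, [1], [0, 3]), (4, [], [2])]),
  (0, 0, 1, [(0, [0], [4, 5]), (0, [2], [2, 5]), (0, [1], [0, 3]), (4, [], [1])]),
  (0, 0, 1, [(0, [0], [4, 5]), (0, [2], [3, 5]), (0, [1], [0, 1]), (4, [], [2])]),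
  (0, 0, 1, [(0, [1], [0, 5]), (0, [2], [1, 5]), (0, [0], [3, 4]), (4, [], [2])]),
  (0, 0, 1, [(0, [1], [0, 5]), (0, [2], [2, 5]), (0, [0], [1, 4]), (4, [], [3])]),
  (0, 0, 1, [(0, [1], [0, 5]), (0, [2], [3, 5]), (0, [0], [1, 4]), (4, [], [2])]),
  (0, 0, 1, [(0, [1], [0, 5]), (0, [2], [4, 5]), (0, [0], [1, 3]), (4, [], [2])]),
  (0, 0, 1, [(0, [1], [1, 5]), (0, [2], [0, 5]), (0, [0], [3, 4]), (4, [], [2])]),
  (0, 0, 1, [(0, [1], [1, 5]), (0, [2], [2, 5]), (0, [0], [0, 3]), (4, [], [4])]),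
  (0, 0, 1, [(0, [1], [1, 5]), (0, [2], [3, 5]), (0, [0], [0, 4]), (4, [], [2])]),
  (0, 0, 1, [(0, [1], [1, 5]), (0, [2], [4, 5]), (0, [0], [0, 3]), (4, [], [2])]),
  (0, 0, 1, [(0, [1], [2, 5]), (0, [2], [0, 5]), (0, [0], [1, 4]), (4, [], [3])]),
  (0, 0, 1, [(0, [1], [2, 5]), (0, [2], [1, 5]), (0, [0], [0, 3]), (4, [], [4])]),
  (0, 0, 1, [(0, [1], [2, 5]), (0, [2], [3, 5]), (0, [0], [1, 4]), (4, [], [0])]),
  (0, 0, 1, [(0, [1], [2, 5]), (0, [2], [4, 5]), (0, [0], [0, 3]), (4, [], [1])]),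
  (0, 0, 1, [(0, [1], [3, 5]), (0, [2], [0, 5]), (0, [0], [1, 4]), (4, [], [2])]),
  (0, 0, 1, [(0, [1], [3, 5]), (0, [2], [1, 5]), (0, [0], [0, 4]), (4, [], [2])]),
  (0, 0, 1, [(0, [1], [3, 5]), (0, [2], [2, 5]), (0, [0], [1, 4]), (4, [], [0])]),
  (0, 0, 1, [(0, [1], [3, 5]), (0, [2], [4, 5]), (0, [0], [0, 1]), (4, [], [2])]),
  (0, 0, 1, [(0, [1], [4, 5]), (0, [2], [0, 5]), (0, [0], [1, 3]), (4, [], [2])]),
  (0, 0, 1, [(0, [1], [4, 5]), (0, [2], [1, 5]), (0, [0], [0, 3]), (4, [], [2])]),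
  (0, 0, 1, [(0, [1], [4, 5]), (0, [2], [2, 5]), (0, [0], [0, 3]), (4, [], [1])]),
  (0, 0, 1, [(0, [1], [4, 5]), (0, [2], [3, 5]), (0, [0], [0, 1]), (4, [], [2])])]

def w28_0 : List (List Wit) := [[(0, 0, 0, 0, 0), (1, 0, 0, 0, 0), (0, 0, 0, 0, 0), (120, 0, 0, 0, 0), (1, 0, 0, 0, 0), (120, 0, 0, 0, 0), (2, 0, 0, 0, 0), (121, 0, 0, 0, 0), (2, 0, 0, 0, 0), (3, 0, 0, 0, 0), (121, 0, 0, 0, 0), (3, 0, 0, 0, 0), (4, 0, 0, 0, 0), (122, 0, 0, 0, 0), (4, 0, 0, 0, 0), (5, 0, 0, 0, 0), (122, 0, 0, 0, 0), (5, 0, 0, 0, 0), (6, 0, 0, 0, 0), (123, 0, 0, 0, 0), (6, 0, 0, 0, 0), (7, 0, 0, 0, 0), (123, 0, 0, 0, 0), (7, 0, 0, 0, 0), (8, 0, 0, 0, 0), (9, 0, 0, 0, 0), (8, 0, 0, 0, 0), (124, 0, 0, 0, 0), (9, 0, 0, 0, 0), (124, 0, 0, 0, 0), (125, 0, 0, 0, 0), (10, 0, 0, 0, 0), (125, 0, 0, 0, 0), (11, 0, 0, 0, 0), (10, 0, 0, 0, 0), (11, 0, 0, 0,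 0), (12, 0, 0, 0, 0), (126, 0, 0, 0, 0), (12, 0, 0, 0, 0), (13, 0, 0, 0, 0), (126, 0, 0, 0, 0), (13, 0, 0, 0, 0), (14, 0, 0, 0, 0), (127, 0, 0, 0, 0), (14, 0, 0, 0, 0), (15, 0, 0, 0, 0), (127, 0, 0, 0, 0), (15, 0, 0, 0, 0), (16, 0, 0, 0, 0), (128, 0, 0, 0, 0), (16, 0, 0, 0, 0), (17, 0, 0, 0, 0), (128, 0, 0, 0, 0), (17, 0, 0, 0, 0), (129, 0, 0, 0, 0), (18, 0, 0, 0, 0), (129, 0, 0, 0, 0), (19, 0, 0, 0, 0), (18, 0, 0, 0, 0), (19, 0, 0, 0, 0), (20, 0, 0, 0, 0), (21, 0, 0, 0, 0), (20, 0, 0, 0, 0), (130, 0, 0, 0, 0), (21, 0, 0, 0, 0), (130, 0, 0, 0, 0), (22, 0, 0, 0, 0), (131, 0, 0, 0, 0), (22, 0, 0, 0, 0), (23, 0, 0, 0, 0), (131, 0, 0, 0, 0), (23, 0, 0, 0, 0), (24, 0, 0, 0, 0), (132, 0, 0, 0, 0), (24, 0, 0, 0, 0), (25, 0, 0, 0, 0), (132, 0, 0, 0, 0), (25, 0, 0, 0, 0), (26, 0, 0, 0, 0), (133, 0, 0, 0, 0), (26, 0, 0, 0, 0), (27, 0,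 0, 0, 0), (133, 0, 0, 0, 0), (27, 0, 0, 0, 0), (28, 0, 0, 0, 0), (29, 0, 0, 0, 0), (28, 0, 0, 0, 0), (134, 0, 0, 0, 0), (29, 0, 0, 0, 0), (134, 0, 0, 0, 0), (135, 0, 0, 0, 0), (30, 0, 0, 0, 0), (135, 0, 0, 0, 0), (31, 0, 0, 0, 0), (30, 0, 0, 0, 0), (31, 0, 0, 0, 0), (32, 0, 0, 0, 0), (136, 0, 0, 0, 0), (32, 0, 0, 0, 0), (33, 0, 0, 0, 0), (136, 0, 0, 0, 0), (33, 0, 0, 0, 0), (34, 0, 0, 0, 0), (137, 0, 0, 0, 0), (34, 0, 0, 0, 0), (35, 0, 0, 0, 0), (137, 0, 0, 0, 0), (35, 0, 0, 0, 0), (36, 0, 0, 0, 0), (138, 0, 0, 0, 0), (36, 0, 0, 0, 0), (37, 0, 0, 0, 0), (138, 0, 0, 0, 0), (37, 0, 0, 0, 0), (139, 0, 0, 0, 0), (38, 0, 0, 0, 0), (139, 0, 0, 0, 0), (39, 0, 0, 0, 0), (38, 0, 0, 0, 0), (39, 0, 0, 0, 0)],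
  [(40, 0, 0, 0, 0), (41, 0, 0, 0, 0), (40, 0, 0, 0, 0), (140, 0, 0, 0, 0), (41, 0, 0, 0, 0), (140, 0, 0, 0, 0), (42, 0, 0, 0, 0), (141, 0, 0, 0, 0), (42, 0, 0, 0, 0), (43, 0, 0, 0, 0), (141, 0, 0, 0, 0), (43, 0, 0, 0, 0), (44, 0, 0, 0, 0), (142, 0, 0, 0, 0), (44, 0, 0, 0, 0), (45, 0, 0, 0, 0), (142, 0, 0, 0, 0), (45, 0, 0, 0, 0), (46, 0, 0, 0, 0), (143, 0, 0, 0, 0), (46, 0, 0, 0, 0), (47, 0, 0, 0, 0), (143, 0, 0, 0, 0), (47, 0, 0, 0, 0), (48, 0, 0, 0, 0), (49, 0, 0, 0, 0), (48, 0, 0, 0, 0), (144, 0, 0, 0, 0), (49, 0, 0, 0, 0), (144, 0, 0, 0, 0), (145, 0, 0, 0, 0), (50, 0, 0, 0, 0), (145, 0, 0, 0, 0), (51, 0, 0, 0, 0), (50, 0, 0, 0, 0), (51, 0, 0, 0, 0), (52, 0, 0, 0, 0), (146, 0, 0, 0, 0), (52, 0, 0, 0, 0), (53, 0, 0, 0, 0), (146, 0, 0, 0, 0), (53, 0, 0, 0, 0), (54, 0, 0, 0, 0), (147, 0, 0, 0, 0), (54, 0, 0, 0, 0), (55, 0,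 0, 0, 0), (147, 0, 0, 0, 0), (55, 0, 0, 0, 0), (56, 0, 0, 0, 0), (148, 0, 0, 0, 0), (56, 0, 0, 0, 0), (57, 0, 0, 0, 0), (148, 0, 0, 0, 0), (57, 0, 0, 0, 0), (149, 0, 0, 0, 0), (58, 0, 0, 0, 0), (149, 0, 0, 0, 0), (59, 0, 0, 0, 0), (58, 0, 0, 0, 0), (59, 0, 0, 0, 0), (60, 0, 0, 0, 0), (61, 0, 0, 0, 0), (60, 0, 0, 0, 0), (150, 0, 0, 0, 0), (61, 0, 0, 0, 0), (150, 0, 0, 0, 0), (62, 0, 0, 0, 0), (151, 0, 0, 0, 0), (62, 0, 0, 0, 0), (63, 0, 0, 0, 0), (151, 0, 0, 0, 0), (63, 0, 0, 0, 0), (64, 0, 0, 0, 0), (152, 0, 0, 0, 0), (64, 0, 0, 0, 0), (65, 0, 0, 0, 0), (152, 0, 0, 0, 0), (65, 0, 0, 0, 0), (66, 0, 0, 0, 0), (153, 0, 0, 0, 0), (66, 0, 0, 0, 0), (67, 0, 0, 0, 0), (153, 0, 0, 0, 0), (67, 0, 0, 0, 0), (68, 0, 0, 0, 0), (69, 0, 0, 0, 0), (68, 0, 0, 0, 0), (154, 0, 0, 0, 0), (69, 0, 0, 0, 0), (154, 0, 0, 0, 0), (155, 0, 0, 0, 0),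 (70, 0, 0, 0, 0), (155, 0, 0, 0, 0), (71, 0, 0, 0, 0), (70, 0, 0, 0, 0), (71, 0, 0, 0, 0), (72, 0, 0, 0, 0), (156, 0, 0, 0, 0), (72, 0, 0, 0, 0), (73, 0, 0, 0, 0), (156, 0, 0, 0, 0), (73, 0, 0, 0, 0), (74, 0, 0, 0, 0), (157, 0, 0, 0, 0), (74, 0, 0, 0, 0), (75, 0, 0, 0, 0), (157, 0, 0, 0, 0), (75, 0, 0, 0, 0), (76, 0, 0, 0, 0), (158, 0, 0, 0, 0), (76, 0, 0, 0, 0), (77, 0, 0, 0, 0), (158, 0, 0, 0, 0), (77, 0, 0, 0, 0), (159, 0, 0, 0, 0), (78, 0, 0, 0, 0), (159, 0, 0, 0, 0), (79, 0, 0, 0, 0), (78, 0, 0, 0, 0), (79, 0, 0, 0, 0)],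
  [(8, 0, 0, 0, 0), (9, 0, 0, 0, 0), (8, 0, 0, 0, 0), (124, 0, 0, 0, 0), (9, 0, 0, 0, 0), (124, 0, 0, 0, 0), (16, 0, 0, 0, 0), (128, 0, 0, 0, 0), (16, 0, 0, 0, 0), (17, 0, 0, 0, 0), (128, 0, 0, 0, 0), (17, 0, 0, 0, 0), (24, 0, 0, 0, 0), (132, 0, 0, 0, 0), (24, 0, 0, 0, 0), (25, 0, 0, 0, 0), (132, 0, 0, 0, 0), (25, 0, 0, 0, 0), (32, 0, 0, 0, 0), (136, 0, 0, 0, 0), (32, 0, 0, 0, 0), (33, 0, 0, 0, 0), (136, 0, 0, 0, 0), (33, 0, 0, 0, 0), (0, 0, 0, 0, 0), (1, 0, 0, 0, 0), (0, 0, 0, 0, 0), (120, 0, 0, 0, 0), (1, 0, 0, 0, 0), (120, 0, 0, 0, 0), (129, 0, 0, 0, 0), (18, 0, 0, 0, 0), (129, 0, 0, 0, 0), (19, 0, 0, 0, 0), (18, 0, 0, 0, 0), (19, 0, 0, 0, 0), (26, 0, 0, 0, 0), (133, 0, 0, 0, 0), (26, 0, 0, 0, 0), (27, 0, 0, 0, 0), (133, 0, 0, 0, 0), (27, 0, 0, 0, 0), (34, 0, 0, 0, 0), (137, 0, 0, 0, 0), (34, 0, 0, 0, 0), (35, 0, 0, 0, 0),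 (137, 0, 0, 0, 0), (35, 0, 0, 0, 0), (2, 0, 0, 0, 0), (121, 0, 0, 0, 0), (2, 0, 0, 0, 0), (3, 0, 0, 0, 0), (121, 0, 0, 0, 0), (3, 0, 0, 0, 0), (125, 0, 0, 0, 0), (10, 0, 0, 0, 0), (125, 0, 0, 0, 0), (11, 0, 0, 0, 0), (10, 0, 0, 0, 0), (11, 0, 0, 0, 0), (28, 0, 0, 0, 0), (29, 0, 0, 0, 0), (28, 0, 0, 0, 0), (134, 0, 0, 0, 0), (29, 0, 0, 0, 0), (134, 0, 0, 0, 0), (36, 0, 0, 0, 0), (138, 0, 0, 0, 0), (36, 0, 0, 0, 0), (37, 0, 0, 0, 0), (138, 0, 0, 0, 0), (37, 0, 0, 0, 0), (4, 0, 0, 0, 0), (122, 0, 0, 0, 0), (4, 0, 0, 0, 0), (5, 0, 0, 0, 0), (122, 0, 0, 0, 0), (5, 0, 0, 0, 0), (12, 0, 0, 0, 0), (126, 0, 0, 0, 0), (12, 0, 0, 0, 0), (13, 0, 0, 0, 0), (126, 0, 0, 0, 0), (13, 0, 0, 0, 0), (20, 0, 0, 0, 0), (21, 0, 0, 0, 0), (20, 0, 0, 0, 0), (130, 0, 0, 0, 0), (21, 0, 0, 0, 0), (130, 0, 0, 0, 0), (139, 0, 0, 0, 0), (38, 0, 0, 0, 0),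 (139, 0, 0, 0, 0), (39, 0, 0, 0, 0), (38, 0, 0, 0, 0), (39, 0, 0, 0, 0), (6, 0, 0, 0, 0), (123, 0, 0, 0, 0), (6, 0, 0, 0, 0), (7, 0, 0, 0, 0), (123, 0, 0, 0, 0), (7, 0, 0, 0, 0), (14, 0, 0, 0, 0), (127, 0, 0, 0, 0), (14, 0, 0, 0, 0), (15, 0, 0, 0, 0), (127, 0, 0, 0, 0), (15, 0, 0, 0, 0), (22, 0, 0, 0, 0), (131, 0, 0, 0, 0), (22, 0, 0, 0, 0), (23, 0, 0, 0, 0), (131, 0, 0, 0, 0), (23, 0, 0, 0, 0), (135, 0, 0, 0, 0), (30, 0, 0, 0, 0), (135, 0, 0, 0, 0), (31, 0, 0, 0, 0), (30, 0, 0, 0, 0), (31, 0, 0, 0, 0)],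
  [(80, 0, 0, 0, 0), (81, 0, 0, 0, 0), (80, 0, 0, 0, 0), (160, 0, 0, 0, 0), (81, 0, 0, 0, 0), (160, 0, 0, 0, 0), (82, 0, 0, 0, 0), (161, 0, 0, 0, 0), (82, 0, 0, 0, 0), (83, 0, 0, 0, 0), (161, 0, 0, 0, 0), (83, 0, 0, 0, 0), (84, 0, 0, 0, 0), (162, 0, 0, 0, 0), (84, 0, 0, 0, 0), (85, 0, 0, 0, 0), (162, 0, 0, 0, 0), (85, 0, 0, 0, 0), (86, 0, 0, 0, 0), (163, 0, 0, 0, 0), (86, 0, 0, 0, 0), (87, 0, 0, 0, 0), (163, 0, 0, 0, 0), (87, 0, 0, 0, 0), (88, 0, 0, 0, 0), (89, 0, 0, 0, 0), (88, 0, 0, 0, 0), (164, 0, 0, 0, 0), (89, 0, 0, 0, 0), (164, 0, 0, 0, 0), (165, 0, 0, 0, 0), (90, 0, 0, 0, 0), (165, 0, 0, 0, 0), (91, 0, 0, 0, 0), (90, 0, 0, 0, 0), (91, 0, 0, 0, 0), (92, 0, 0, 0, 0), (166, 0, 0, 0, 0), (92, 0, 0, 0, 0), (93, 0, 0, 0, 0), (166, 0, 0, 0, 0), (93, 0, 0, 0, 0), (94, 0, 0, 0, 0), (167, 0, 0, 0, 0), (94, 0, 0, 0, 0), (95, 0,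 0, 0, 0), (167, 0, 0, 0, 0), (95, 0, 0, 0, 0), (96, 0, 0, 0, 0), (168, 0, 0, 0, 0), (96, 0, 0, 0, 0), (97, 0, 0, 0, 0), (168, 0, 0, 0, 0), (97, 0, 0, 0, 0), (169, 0, 0, 0, 0), (98, 0, 0, 0, 0), (169, 0, 0, 0, 0), (99, 0, 0, 0, 0), (98, 0, 0, 0, 0), (99, 0, 0, 0, 0), (100, 0, 0, 0, 0), (101, 0, 0, 0, 0), (100, 0, 0, 0, 0), (170, 0, 0, 0, 0), (101, 0, 0, 0, 0), (170, 0, 0, 0, 0), (102, 0, 0, 0, 0), (171, 0, 0, 0, 0), (102, 0, 0, 0, 0), (103, 0, 0, 0, 0), (171, 0, 0, 0, 0), (103, 0, 0, 0, 0), (104, 0, 0, 0, 0), (172, 0, 0, 0, 0), (104, 0, 0, 0, 0), (105, 0, 0, 0, 0), (172, 0, 0, 0, 0), (105, 0, 0, 0, 0), (106, 0, 0, 0, 0), (173, 0, 0, 0, 0), (106, 0, 0, 0, 0), (107, 0, 0, 0, 0), (173, 0, 0, 0, 0), (107, 0, 0, 0, 0), (108, 0, 0, 0, 0), (109, 0, 0, 0, 0), (108, 0, 0, 0, 0), (174, 0, 0, 0, 0), (109, 0, 0, 0, 0), (174, 0, 0, 0, 0),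 (175, 0, 0, 0, 0), (110, 0, 0, 0, 0), (175, 0, 0, 0, 0), (111, 0, 0, 0, 0), (110, 0, 0, 0, 0), (111, 0, 0, 0, 0), (112, 0, 0, 0, 0), (176, 0, 0, 0, 0), (112, 0, 0, 0, 0), (113, 0, 0, 0, 0), (176, 0, 0, 0, 0), (113, 0, 0, 0, 0), (114, 0, 0, 0, 0), (177, 0, 0, 0, 0), (114, 0, 0, 0, 0), (115, 0, 0, 0, 0), (177, 0, 0, 0, 0), (115, 0, 0, 0, 0), (116, 0, 0, 0, 0), (178, 0, 0, 0, 0), (116, 0, 0, 0, 0), (117, 0, 0, 0, 0), (178, 0, 0, 0, 0), (117, 0, 0, 0, 0), (179, 0, 0, 0, 0), (118, 0, 0, 0, 0), (179, 0, 0, 0, 0), (119, 0, 0, 0, 0), (118, 0, 0, 0, 0), (119, 0, 0, 0, 0)],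
  [(48, 0, 0, 0, 0), (49, 0, 0, 0, 0), (48, 0, 0, 0, 0), (144, 0, 0, 0, 0), (49, 0, 0, 0, 0), (144, 0, 0, 0, 0), (56, 0, 0, 0, 0), (148, 0, 0, 0, 0), (56, 0, 0, 0, 0), (57, 0, 0, 0, 0), (148, 0, 0, 0, 0), (57, 0, 0, 0, 0), (64, 0, 0, 0, 0), (152, 0, 0, 0, 0), (64, 0, 0, 0, 0), (65, 0, 0, 0, 0), (152, 0, 0, 0, 0), (65, 0, 0, 0, 0), (72, 0, 0, 0, 0), (156, 0, 0, 0, 0), (72, 0, 0, 0, 0), (73, 0, 0, 0, 0), (156, 0, 0, 0, 0), (73, 0, 0, 0, 0), (40, 0, 0, 0, 0), (41, 0, 0, 0, 0), (40, 0, 0, 0, 0), (140, 0, 0, 0, 0), (41, 0, 0, 0, 0), (140, 0, 0, 0, 0), (149, 0, 0, 0, 0), (58, 0, 0, 0, 0), (149, 0, 0, 0, 0), (59, 0, 0, 0, 0), (58, 0, 0, 0, 0), (59, 0, 0, 0, 0), (66, 0, 0, 0, 0), (153, 0, 0, 0, 0), (66, 0, 0, 0, 0), (67, 0, 0, 0, 0), (153, 0, 0, 0, 0), (67, 0, 0, 0, 0), (74, 0, 0, 0, 0), (157, 0, 0, 0, 0), (74, 0, 0, 0, 0), (75, 0,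 0, 0, 0), (157, 0, 0, 0, 0), (75, 0, 0, 0, 0), (42, 0, 0, 0, 0), (141, 0, 0, 0, 0), (42, 0, 0, 0, 0), (43, 0, 0, 0, 0), (141, 0, 0, 0, 0), (43, 0, 0, 0, 0), (145, 0, 0, 0, 0), (50, 0, 0, 0, 0), (145, 0, 0, 0, 0), (51, 0, 0, 0, 0), (50, 0, 0, 0, 0), (51, 0, 0, 0, 0), (68, 0, 0, 0, 0), (69, 0, 0, 0, 0), (68, 0, 0, 0, 0), (154, 0, 0, 0, 0), (69, 0, 0, 0, 0), (154, 0, 0, 0, 0), (76, 0, 0, 0, 0), (158, 0, 0, 0, 0), (76, 0, 0, 0, 0), (77, 0, 0, 0, 0), (158, 0, 0, 0, 0), (77, 0, 0, 0, 0), (44, 0, 0, 0, 0), (142, 0, 0, 0, 0), (44, 0, 0, 0, 0), (45, 0, 0, 0, 0), (142, 0, 0, 0, 0), (45, 0, 0, 0, 0), (52, 0, 0, 0, 0), (146, 0, 0, 0, 0), (52, 0, 0, 0, 0), (53, 0, 0, 0, 0), (146, 0, 0, 0, 0), (53, 0, 0, 0, 0), (60, 0, 0, 0, 0), (61, 0, 0, 0, 0), (60, 0, 0, 0, 0), (150, 0, 0, 0, 0), (61, 0, 0, 0, 0), (150, 0, 0, 0, 0), (159, 0, 0, 0, 0),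 (78, 0, 0, 0, 0), (159, 0, 0, 0, 0), (79, 0, 0, 0, 0), (78, 0, 0, 0, 0), (79, 0, 0, 0, 0), (46, 0, 0, 0, 0), (143, 0, 0, 0, 0), (46, 0, 0, 0, 0), (47, 0, 0, 0, 0), (143, 0, 0, 0, 0), (47, 0, 0, 0, 0), (54, 0, 0, 0, 0), (147, 0, 0, 0, 0), (54, 0, 0, 0, 0), (55, 0, 0, 0, 0), (147, 0, 0, 0, 0), (55, 0, 0, 0, 0), (62, 0, 0, 0, 0), (151, 0, 0, 0, 0), (62, 0, 0, 0, 0), (63, 0, 0, 0, 0), (151, 0, 0, 0, 0), (63, 0, 0, 0, 0), (155, 0, 0, 0, 0), (70, 0, 0, 0, 0), (155, 0, 0, 0, 0), (71, 0, 0, 0, 0), (70, 0, 0, 0, 0), (71, 0, 0, 0, 0)],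
  [(88, 0, 0, 0, 0), (89, 0, 0, 0, 0), (88, 0, 0, 0, 0), (164, 0, 0, 0, 0), (89, 0, 0, 0, 0), (164, 0, 0, 0, 0), (96, 0, 0, 0, 0), (168, 0, 0, 0, 0), (96, 0, 0, 0, 0), (97, 0, 0, 0, 0), (168, 0, 0, 0, 0), (97, 0, 0, 0, 0), (104, 0, 0, 0, 0), (172, 0, 0, 0, 0), (104, 0, 0, 0, 0), (105, 0, 0, 0, 0), (172, 0, 0, 0, 0), (105, 0, 0, 0, 0), (112, 0, 0, 0, 0), (176, 0, 0, 0, 0), (112, 0, 0, 0, 0), (113, 0, 0, 0, 0), (176, 0, 0, 0, 0), (113, 0, 0, 0, 0), (80, 0, 0, 0, 0), (81, 0, 0, 0, 0), (80, 0, 0, 0, 0), (160, 0, 0, 0, 0), (81, 0, 0, 0, 0), (160, 0, 0, 0, 0), (169, 0, 0, 0, 0), (98, 0, 0, 0, 0), (169, 0, 0, 0, 0), (99, 0, 0, 0, 0), (98, 0, 0, 0, 0), (99, 0, 0, 0, 0), (106, 0, 0, 0, 0), (173, 0, 0, 0, 0), (106, 0, 0, 0, 0), (107, 0, 0, 0, 0), (173, 0, 0, 0, 0), (107, 0, 0, 0, 0), (114, 0, 0, 0, 0), (177, 0, 0, 0, 0), (114, 0, 0, 0,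 0), (115, 0, 0, 0, 0), (177, 0, 0, 0, 0), (115, 0, 0, 0, 0), (82, 0, 0, 0, 0), (161, 0, 0, 0, 0), (82, 0, 0, 0, 0), (83, 0, 0, 0, 0), (161, 0, 0, 0, 0), (83, 0, 0, 0, 0), (165, 0, 0, 0, 0), (90, 0, 0, 0, 0), (165, 0, 0, 0, 0), (91, 0, 0, 0, 0), (90, 0, 0, 0, 0), (91, 0, 0, 0, 0), (108, 0, 0, 0, 0), (109, 0, 0, 0, 0), (108, 0, 0, 0, 0), (174, 0, 0, 0, 0), (109, 0, 0, 0, 0), (174, 0, 0, 0, 0), (116, 0, 0, 0, 0), (178, 0, 0, 0, 0), (116, 0, 0, 0, 0), (117, 0, 0, 0, 0), (178, 0, 0, 0, 0), (117, 0, 0, 0, 0), (84, 0, 0, 0, 0), (162, 0, 0, 0, 0), (84, 0, 0, 0, 0), (85, 0, 0, 0, 0), (162, 0, 0, 0, 0), (85, 0, 0, 0, 0), (92, 0, 0, 0, 0), (166, 0, 0, 0, 0), (92, 0, 0, 0, 0), (93, 0, 0, 0, 0), (166, 0, 0, 0, 0), (93, 0, 0, 0, 0), (100, 0, 0, 0, 0), (101, 0, 0, 0, 0), (100, 0, 0, 0, 0), (170, 0, 0, 0, 0), (101, 0, 0, 0, 0), (170, 0, 0,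 0, 0), (179, 0, 0, 0, 0), (118, 0, 0, 0, 0), (179, 0, 0, 0, 0), (119, 0, 0, 0, 0), (118, 0, 0, 0, 0), (119, 0, 0, 0, 0), (86, 0, 0, 0, 0), (163, 0, 0, 0, 0), (86, 0, 0, 0, 0), (87, 0, 0, 0, 0), (163, 0, 0, 0, 0), (87, 0, 0, 0, 0), (94, 0, 0, 0, 0), (167, 0, 0, 0, 0), (94, 0, 0, 0, 0), (95, 0, 0, 0, 0), (167, 0, 0, 0, 0), (95, 0, 0, 0, 0), (102, 0, 0, 0, 0), (171, 0, 0, 0, 0), (102, 0, 0, 0, 0), (103, 0, 0, 0, 0), (171, 0, 0, 0, 0), (103, 0, 0, 0, 0), (175, 0, 0, 0, 0), (110, 0, 0, 0, 0), (175, 0, 0, 0, 0), (111, 0, 0, 0, 0), (110, 0, 0, 0, 0), (111, 0, 0, 0, 0)]]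

def m28_1 : Base := (0, 1, [(0, [0], [0, 5]), (0, [1], [1, 2]), (0, [2], [3, 4]), (4, [], [5])])

def l28_1 : Cov := [(864, 0, 1, [(0, [0], [0, 5]), (0, [1], [1, 2]), (0, [2], [3, 4]), (4, [], [5])]),
  (864, 0, 1, [(0, [0], [0, 5]), (0, [1], [1, 3]), (0, [2], [2, 4]), (4, [], [5])]),
  (-864, 0, 1, [(0, [0], [0, 5]), (0, [1], [2, 4]), (0, [2], [1, 3]), (4, [], [5])]),
  (-864, 0, 1, [(0, [0], [0, 5]), (0, [1], [3, 4]), (0, [2], [1, 2]), (4, [], [5])]),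
  (864, 0, 1, [(0, [0], [1, 5]), (0, [1], [0, 2]), (0, [2], [3, 4]), (4, [], [5])]),
  (864, 0, 1, [(0, [0], [1, 5]), (0, [1], [0, 4]), (0, [2], [2, 3]), (4, [], [5])]),
  (-864, 0, 1, [(0, [0], [1, 5]), (0, [1], [2, 3]), (0, [2], [0, 4]), (4, [], [5])]),
  (-864, 0, 1, [(0, [0], [1, 5]), (0, [1], [3, 4]), (0, [2], [0, 2]), (4, [], [5])]),
  (-864, 0, 1, [(0, [0], [3, 5]), (0, [1], [0, 1]), (0, [2], [2, 4]), (4, [], [5])]),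
  (864, 0, 1, [(0, [0], [3, 5]), (0, [1], [0, 4]), (0, [2], [1, 2]), (4, [], [5])]),
  (-864, 0, 1, [(0, [0], [3, 5]), (0, [1], [1, 2]), (0, [2], [0, 4]), (4, [], [5])]),
  (864, 0, 1, [(0, [0], [3, 5]), (0, [1], [2, 4]), (0, [2], [0, 1]), (4, [], [5])]),
  (-864, 0, 1, [(0, [0], [4, 5]), (0, [1], [0, 1]), (0, [2], [2, 3]), (4, [], [5])]),
  (-864, 0, 1, [(0, [0], [4, 5]), (0, [1], [0, 2]), (0, [2], [1, 3]), (4, [], [5])]),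
  (864, 0, 1, [(0, [0], [4, 5]), (0, [1], [1, 3]), (0, [2], [0, 2]), (4, [], [5])]),
  (864, 0, 1, [(0, [0], [4, 5]), (0, [1], [2, 3]), (0, [2], [0, 1]), (4, [], [5])]),
  (-864, 0, 1, [(0, [1], [0, 5]), (0, [0], [1, 2]), (0, [2], [3, 4]), (4, [], [5])]),
  (-864, 0, 1, [(0, [1], [0, 5]), (0, [0], [1, 3]), (0, [2], [2, 4]), (4, [], [5])]),
  (864, 0, 1, [(0, [1], [0, 5]), (0, [0], [2, 4]), (0, [2], [1, 3]), (4, [], [5])]),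
  (864, 0, 1, [(0, [1], [0, 5]), (0, [0], [3, 4]), (0, [2], [1, 2]), (4, [], [5])]),
  (-864, 0, 1, [(0, [1], [1, 5]), (0, [0], [0, 2]), (0, [2], [3, 4]), (4, [], [5])]),
  (-864, 0, 1, [(0, [1], [1, 5]), (0, [0], [0, 4]), (0, [2], [2, 3]), (4, [], [5])]),
  (864, 0, 1, [(0, [1], [1, 5]), (0, [0], [2, 3]), (0, [2], [0, 4]), (4, [], [5])]),
  (864, 0, 1, [(0, [1], [1, 5]), (0, [0], [3, 4]), (0, [2], [0, 2]), (4, [], [5])]),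
  (864, 0, 1, [(0, [1], [3, 5]), (0, [0], [0, 1]), (0, [2], [2, 4]), (4, [], [5])]),
  (-864, 0, 1, [(0, [1], [3, 5]), (0, [0], [0, 4]), (0, [2], [1, 2]), (4, [], [5])]),
  (864, 0, 1, [(0, [1], [3, 5]), (0, [0], [1, 2]), (0, [2], [0, 4]), (4, [], [5])]),
  (-864, 0, 1, [(0, [1], [3, 5]), (0, [0], [2, 4]), (0, [2], [0, 1]), (4, [], [5])]),
  (864, 0, 1, [(0, [1], [4, 5]), (0, [0], [0, 1]), (0, [2], [2, 3]), (4, [], [5])]),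
  (864, 0, 1, [(0, [1], [4, 5]), (0, [0], [0, 2]), (0, [2], [1, 3]), (4, [], [5])]),
  (-864, 0, 1, [(0, [1], [4, 5]), (0, [0], [1, 3]), (0, [2], [0, 2]), (4, [], [5])]),
  (-864, 0, 1, [(0, [1], [4, 5]), (0, [0], [2, 3]), (0, [2], [0, 1]), (4, [], [5])]),
  (864, 0, 1, [(0, [2], [0, 5]), (0, [0], [1, 2]), (0, [1], [3, 4]), (4, [], [5])]),
  (864, 0, 1, [(0, [2], [0, 5]), (0, [0], [1, 3]), (0, [1], [2, 4]), (4, [], [5])]),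
  (-864, 0, 1, [(0, [2], [0, 5]), (0, [0], [2, 4]), (0, [1], [1, 3]), (4, [], [5])]),
  (-864, 0, 1, [(0, [2], [0, 5]), (0, [0], [3, 4]), (0, [1], [1, 2]), (4, [], [5])]),
  (864, 0, 1, [(0, [2], [1, 5]), (0, [0], [0, 2]), (0, [1], [3, 4]), (4, [], [5])]),
  (864, 0, 1, [(0, [2], [1, 5]), (0, [0], [0, 4]), (0, [1], [2, 3]), (4, [], [5])]),
  (-864, 0, 1, [(0, [2], [1, 5]), (0, [0], [2, 3]), (0, [1], [0, 4]), (4, [], [5])]),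
  (-864, 0, 1, [(0, [2], [1, 5]), (0, [0], [3, 4]), (0, [1], [0, 2]), (4, [], [5])]),
  (-864, 0, 1, [(0, [2], [3, 5]), (0, [0], [0, 1]), (0, [1], [2, 4]), (4, [], [5])]),
  (864, 0, 1, [(0, [2], [3, 5]), (0, [0], [0, 4]), (0, [1], [1, 2]), (4, [], [5])]),
  (-864, 0, 1, [(0, [2], [3, 5]), (0, [0], [1, 2]), (0, [1], [0, 4]), (4, [], [5])]),
  (864, 0, 1, [(0, [2], [3, 5]), (0, [0], [2, 4]), (0, [1], [0, 1]), (4, [], [5])]),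
  (-864, 0, 1, [(0, [2], [4, 5]), (0, [0], [0, 1]), (0, [1], [2, 3]), (4, [], [5])]),
  (-864, 0, 1, [(0, [2], [4, 5]), (0, [0], [0, 2]), (0, [1], [1, 3]), (4, [], [5])]),
  (864, 0, 1, [(0, [2], [4, 5]), (0, [0], [1, 3]), (0, [1], [0, 2]), (4, [], [5])]),
  (864, 0, 1, [(0, [2], [4, 5]), (0, [0], [2, 3]), (0, [1], [0, 1]), (4, [], [5])])]

def z28_1 : Cov := [(0, 0, 1, [(0, [0], [0, 5]), (0, [1], [1, 4]), (0, [2], [2, 3]), (4, [], [5])]),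
  (0, 0, 1, [(0, [0], [0, 5]), (0, [1], [2, 3]), (0, [2], [1, 4]), (4, [], [5])]),
  (0, 0, 1, [(0, [0], [1, 5]), (0, [1], [0, 3]), (0, [2], [2, 4]), (4, [], [5])]),
  (0, 0, 1, [(0, [0], [1, 5]), (0, [1], [2, 4]), (0, [2], [0, 3]), (4, [], [5])]),
  (0, 0, 1, [(0, [0], [2, 5]), (0, [1], [0, 1]), (0, [2], [3, 4]), (4, [], [5])]),
  (0, 0, 1, [(0, [0], [2, 5]), (0, [1], [0, 3]), (0, [2], [1, 4]), (4, [], [5])]),
  (0, 0, 1, [(0, [0], [2, 5]), (0, [1], [0, 4]), (0, [2], [1, 3]), (4, [], [5])]),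
  (0, 0, 1, [(0, [0], [2, 5]), (0, [1], [1, 3]), (0, [2], [0, 4]), (4, [], [5])]),
  (0, 0, 1, [(0, [0], [2, 5]), (0, [1], [1, 4]), (0, [2], [0, 3]), (4, [], [5])]),
  (0, 0, 1, [(0, [0], [2, 5]), (0, [1], [3, 4]), (0, [2], [0, 1]), (4, [], [5])]),
  (0, 0, 1, [(0, [0], [3, 5]), (0, [1], [0, 2]), (0, [2], [1, 4]), (4, [], [5])]),
  (0, 0, 1, [(0, [0], [3, 5]), (0, [1], [1, 4]), (0, [2], [0, 2]), (4, [], [5])]),
  (0, 0, 1, [(0, [0], [4, 5]), (0, [1], [0, 3]), (0, [2], [1, 2]), (4, [], [5])]),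
  (0, 0, 1, [(0, [0], [4, 5]), (0, [1], [1, 2]), (0, [2], [0, 3]), (4, [], [5])]),
  (0, 0, 1, [(0, [1], [0, 5]), (0, [0], [1, 4]), (0, [2], [2, 3]), (4, [], [5])]),
  (0, 0, 1, [(0, [1], [0, 5]), (0, [0], [2, 3]), (0, [2], [1, 4]), (4, [], [5])]),
  (0, 0, 1, [(0, [1], [1, 5]), (0, [0], [0, 3]), (0, [2], [2, 4]), (4, [], [5])]),
  (0, 0, 1, [(0, [1], [1, 5]), (0, [0], [2, 4]), (0, [2], [0, 3]), (4, [], [5])]),
  (0, 0, 1, [(0, [1], [2, 5]), (0, [0], [0, 1]), (0, [2], [3, 4]), (4, [], [5])]),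
  (0, 0, 1, [(0, [1], [2, 5]), (0, [0], [0, 3]), (0, [2], [1, 4]), (4, [], [5])]),
  (0, 0, 1, [(0, [1], [2, 5]), (0, [0], [0, 4]), (0, [2], [1, 3]), (4, [], [5])]),
  (0, 0, 1, [(0, [1], [2, 5]), (0, [0], [1, 3]), (0, [2], [0, 4]), (4, [], [5])]),
  (0, 0, 1, [(0, [1], [2, 5]), (0, [0], [1, 4]), (0, [2], [0, 3]), (4, [], [5])]),
  (0, 0, 1, [(0, [1], [2, 5]), (0, [0], [3, 4]), (0, [2], [0, 1]), (4, [], [5])]),
  (0, 0, 1, [(0, [1], [3, 5]), (0, [0], [0, 2]), (0, [2], [1, 4]), (4, [], [5])]),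
  (0, 0, 1, [(0, [1], [3, 5]), (0, [0], [1, 4]), (0, [2], [0, 2]), (4, [], [5])]),
  (0, 0, 1, [(0, [1], [4, 5]), (0, [0], [0, 3]), (0, [2], [1, 2]), (4, [], [5])]),
  (0, 0, 1, [(0, [1], [4, 5]), (0, [0], [1, 2]), (0, [2], [0, 3]), (4, [], [5])]),
  (0, 0, 1, [(0, [2], [0, 5]), (0, [0], [1, 4]), (0, [1], [2, 3]), (4, [], [5])]),
  (0, 0, 1, [(0, [2], [0, 5]), (0, [0], [2, 3]), (0, [1], [1, 4]), (4, [], [5])]),
  (0, 0, 1, [(0, [2], [1, 5]), (0, [0], [0, 3]), (0, [1], [2, 4]), (4, [], [5])]),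
  (0, 0, 1, [(0, [2], [1, 5]), (0, [0], [2, 4]), (0, [1], [0, 3]), (4, [], [5])]),
  (0, 0, 1, [(0, [2], [2, 5]), (0, [0], [0, 1]), (0, [1], [3, 4]), (4, [], [5])]),
  (0, 0, 1, [(0, [2], [2, 5]), (0, [0], [0, 3]), (0, [1], [1, 4]), (4, [], [5])]),
  (0, 0, 1, [(0, [2], [2, 5]), (0, [0], [0, 4]), (0, [1], [1, 3]), (4, [], [5])]),
  (0, 0, 1, [(0, [2], [2, 5]), (0, [0], [1, 3]), (0, [1], [0, 4]), (4, [], [5])]),
  (0, 0, 1, [(0, [2], [2, 5]), (0, [0], [1, 4]), (0, [1], [0, 3]), (4, [], [5])]),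
  (0, 0, 1, [(0, [2], [2, 5]), (0, [0], [3, 4]), (0, [1], [0, 1]), (4, [], [5])]),
  (0, 0, 1, [(0, [2], [3, 5]), (0, [0], [0, 2]), (0, [1], [1, 4]), (4, [], [5])]),
  (0, 0, 1, [(0, [2], [3, 5]), (0, [0], [1, 4]), (0, [1], [0, 2]), (4, [], [5])]),
  (0, 0, 1, [(0, [2], [4, 5]), (0, [0], [0, 3]), (0, [1], [1, 2]), (4, [], [5])]),
  (0, 0, 1, [(0, [2], [4, 5]), (0, [0], [1, 2]), (0, [1], [0, 3]), (4, [], [5])])]

def w28_1 : List (List Wit) := [[(0, 0, 0, 0, 0), (0, 0, 0, 0, 0), (1, 0, 0, 0, 0), (1, 0, 0, 0, 0), (48, 0, 0, 0, 0), (48, 0, 0, 0, 0), (0, 0, 0, 0, 0), (0, 0, 0, 0, 0), (49, 0, 0, 0, 0), (49, 0, 0, 0, 0), (2, 0, 0, 0, 0), (2, 0, 0, 0, 0), (1, 0, 0, 0, 0), (1, 0, 0, 0, 0), (49, 0, 0, 0, 0), (49, 0, 0, 0, 0), (3, 0, 0, 0, 0), (3, 0, 0, 0, 0), (48, 0, 0, 0, 0), (48, 0, 0, 0, 0), (2, 0, 0, 0, 0), (2, 0, 0, 0, 0), (3, 0,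 0, 0, 0), (3, 0, 0, 0, 0), (4, 0, 0, 0, 0), (4, 0, 0, 0, 0), (50, 0, 0, 0, 0), (50, 0, 0, 0, 0), (5, 0, 0, 0, 0), (5, 0, 0, 0, 0), (4, 0, 0, 0, 0), (4, 0, 0, 0, 0), (6, 0, 0, 0, 0), (6, 0, 0, 0, 0), (51, 0, 0, 0, 0), (51, 0, 0, 0, 0), (50, 0, 0, 0, 0), (50, 0, 0, 0, 0), (6, 0, 0, 0, 0), (6, 0, 0, 0, 0), (7, 0, 0, 0, 0), (7, 0, 0, 0, 0), (5, 0, 0, 0, 0), (5, 0, 0, 0, 0), (51, 0, 0, 0, 0), (51, 0, 0, 0, 0), (7, 0, 0, 0, 0), (7, 0, 0, 0, 0), (52, 0, 0, 0, 0), (52, 0, 0, 0, 0), (53, 0, 0, 0, 0), (53, 0, 0, 0, 0), (54, 0, 0, 0, 0), (54, 0, 0, 0, 0), (52, 0, 0, 0, 0), (52, 0, 0, 0, 0), (55, 0, 0, 0, 0), (55, 0, 0, 0, 0), (56, 0, 0, 0, 0), (56, 0, 0, 0, 0), (53, 0, 0, 0, 0), (53, 0, 0, 0, 0), (55, 0, 0, 0, 0), (55, 0, 0, 0, 0), (57, 0, 0, 0, 0), (57, 0, 0, 0, 0), (54, 0, 0, 0, 0), (54, 0, 0, 0, 0), (56, 0, 0, 0, 0), (56, 0, 0, 0, 0),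 (57, 0, 0, 0, 0), (57, 0, 0, 0, 0), (8, 0, 0, 0, 0), (8, 0, 0, 0, 0), (58, 0, 0, 0, 0), (58, 0, 0, 0, 0), (9, 0, 0, 0, 0), (9, 0, 0, 0, 0), (8, 0, 0, 0, 0), (8, 0, 0, 0, 0), (10, 0, 0, 0, 0), (10, 0, 0, 0, 0), (59, 0, 0, 0, 0), (59, 0, 0, 0, 0), (58, 0, 0, 0, 0), (58, 0, 0, 0, 0), (10, 0, 0, 0, 0), (10, 0, 0, 0, 0), (11, 0, 0, 0, 0), (11, 0, 0, 0, 0), (9, 0, 0, 0, 0), (9, 0, 0, 0, 0), (59, 0, 0, 0, 0), (59, 0, 0, 0, 0), (11, 0, 0, 0, 0), (11, 0, 0, 0, 0), (12, 0, 0, 0, 0), (12, 0, 0, 0, 0), (13, 0, 0, 0, 0), (13, 0, 0, 0, 0), (60, 0, 0, 0, 0), (60, 0, 0, 0, 0), (12, 0, 0, 0, 0), (12, 0, 0, 0, 0), (61, 0, 0, 0, 0), (61, 0, 0, 0, 0), (14, 0, 0, 0, 0), (14, 0, 0, 0, 0), (13, 0, 0, 0, 0), (13, 0, 0, 0, 0), (61, 0, 0, 0, 0), (61, 0, 0, 0, 0), (15, 0, 0, 0, 0), (15, 0, 0, 0, 0), (60, 0, 0, 0, 0), (60, 0, 0, 0, 0), (14, 0, 0, 0, 0),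 (14, 0, 0, 0, 0), (15, 0, 0, 0, 0), (15, 0, 0, 0, 0)],
  [(3, 0, 0, 0, 0), (3, 0, 0, 0, 0), (2, 0, 0, 0, 0), (2, 0, 0, 0, 0), (49, 0, 0, 0, 0), (49, 0, 0, 0, 0), (3, 0, 0, 0, 0), (3, 0, 0, 0, 0), (48, 0, 0, 0, 0), (48, 0, 0, 0, 0), (1, 0, 0, 0, 0), (1, 0, 0, 0, 0), (2, 0, 0, 0, 0), (2, 0, 0, 0, 0), (48, 0, 0, 0, 0), (48, 0, 0, 0, 0), (0, 0, 0, 0, 0), (0, 0, 0, 0, 0), (49, 0, 0, 0, 0), (49, 0, 0, 0, 0), (1, 0, 0, 0, 0), (1, 0, 0, 0, 0), (0, 0, 0, 0, 0), (0, 0, 0, 0, 0), (7, 0, 0, 0, 0), (7, 0, 0, 0, 0), (51, 0, 0, 0, 0), (51, 0, 0, 0, 0), (6, 0, 0, 0, 0), (6, 0, 0, 0, 0), (7, 0, 0, 0, 0), (7, 0, 0, 0, 0), (5, 0, 0, 0, 0), (5, 0, 0, 0, 0), (50, 0, 0, 0, 0), (50, 0, 0, 0, 0), (51, 0, 0, 0, 0), (51, 0, 0, 0, 0), (5, 0, 0, 0, 0), (5, 0, 0, 0, 0), (4, 0, 0, 0, 0), (4, 0, 0, 0, 0), (6, 0, 0, 0, 0), (6, 0, 0, 0, 0), (50, 0, 0, 0, 0),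 (50, 0, 0, 0, 0), (4, 0, 0, 0, 0), (4, 0, 0, 0, 0), (57, 0, 0, 0, 0), (57, 0, 0, 0, 0), (56, 0, 0, 0, 0), (56, 0, 0, 0, 0), (55, 0, 0, 0, 0), (55, 0, 0, 0, 0), (57, 0, 0, 0, 0), (57, 0, 0, 0, 0), (54, 0, 0, 0, 0), (54, 0, 0, 0, 0), (53, 0, 0, 0, 0), (53, 0, 0, 0, 0), (56, 0, 0, 0, 0), (56, 0, 0, 0, 0), (54, 0, 0, 0, 0), (54, 0, 0, 0, 0), (52, 0, 0, 0, 0), (52, 0, 0, 0, 0), (55, 0, 0, 0, 0), (55, 0, 0, 0, 0), (53, 0, 0, 0, 0), (53, 0, 0, 0, 0), (52, 0, 0, 0, 0), (52, 0, 0, 0, 0), (11, 0, 0, 0, 0), (11, 0, 0, 0, 0), (59, 0, 0, 0, 0), (59, 0, 0, 0, 0), (10, 0, 0, 0, 0), (10, 0, 0, 0, 0), (11, 0, 0, 0, 0), (11, 0, 0, 0, 0), (9, 0, 0, 0, 0), (9, 0, 0, 0, 0), (58, 0, 0, 0, 0), (58, 0, 0, 0, 0), (59, 0, 0, 0, 0), (59, 0, 0, 0, 0), (9, 0, 0, 0, 0), (9, 0, 0, 0, 0), (8, 0, 0, 0, 0), (8, 0, 0, 0, 0), (10, 0, 0, 0, 0), (10, 0, 0, 0, 0),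 (58, 0, 0, 0, 0), (58, 0, 0, 0, 0), (8, 0, 0, 0, 0), (8, 0, 0, 0, 0), (15, 0, 0, 0, 0), (15, 0, 0, 0, 0), (14, 0, 0, 0, 0), (14, 0, 0, 0, 0), (61, 0, 0, 0, 0), (61, 0, 0, 0, 0), (15, 0, 0, 0, 0), (15, 0, 0, 0, 0), (60, 0, 0, 0, 0), (60, 0, 0, 0, 0), (13, 0, 0, 0, 0), (13, 0, 0, 0, 0), (14, 0, 0, 0, 0), (14, 0, 0, 0, 0), (60, 0, 0, 0, 0), (60, 0, 0, 0, 0), (12, 0, 0, 0, 0), (12, 0, 0, 0, 0), (61, 0, 0, 0, 0), (61, 0, 0, 0, 0), (13, 0, 0, 0, 0), (13, 0, 0, 0, 0), (12, 0, 0, 0, 0), (12, 0, 0, 0, 0)],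
  [(16, 0, 0, 0, 0), (16, 0, 0, 0, 0), (17, 0, 0, 0, 0), (17, 0, 0, 0, 0), (62, 0, 0, 0, 0), (62, 0, 0, 0, 0), (16, 0, 0, 0, 0), (16, 0, 0, 0, 0), (63, 0, 0, 0, 0), (63, 0, 0, 0, 0), (18, 0, 0, 0, 0), (18, 0, 0, 0, 0), (17, 0, 0, 0, 0), (17, 0, 0, 0, 0), (63, 0, 0, 0, 0), (63, 0, 0, 0, 0), (19, 0, 0, 0, 0), (19, 0, 0, 0, 0), (62, 0, 0, 0, 0), (62, 0, 0, 0, 0), (18, 0, 0, 0, 0), (18, 0, 0, 0, 0), (19, 0, 0, 0, 0), (19, 0, 0, 0, 0), (20, 0, 0, 0, 0), (20, 0, 0, 0, 0), (64, 0, 0, 0, 0), (64, 0, 0, 0, 0), (21, 0, 0, 0, 0), (21, 0, 0, 0, 0), (20, 0, 0, 0, 0), (20, 0, 0, 0, 0), (22, 0, 0, 0, 0), (22, 0, 0, 0, 0), (65, 0, 0, 0, 0), (65, 0, 0, 0, 0), (64, 0, 0, 0, 0), (64, 0, 0, 0, 0), (22, 0, 0, 0, 0), (22, 0, 0, 0, 0), (23, 0, 0, 0, 0), (23, 0, 0, 0, 0), (21, 0, 0, 0, 0), (21, 0, 0, 0, 0), (65, 0, 0, 0, 0), (65, 0, 0, 0, 0), (23,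 0, 0, 0, 0), (23, 0, 0, 0, 0), (66, 0, 0, 0, 0), (66, 0, 0, 0, 0), (67, 0, 0, 0, 0), (67, 0, 0, 0, 0), (68, 0, 0, 0, 0), (68, 0, 0, 0, 0), (66, 0, 0, 0, 0), (66, 0, 0, 0, 0), (69, 0, 0, 0, 0), (69, 0, 0, 0, 0), (70, 0, 0, 0, 0), (70, 0, 0, 0, 0), (67, 0, 0, 0, 0), (67, 0, 0, 0, 0), (69, 0, 0, 0, 0), (69, 0, 0, 0, 0), (71, 0, 0, 0, 0), (71, 0, 0, 0, 0), (68, 0, 0, 0, 0), (68, 0, 0, 0, 0), (70, 0, 0, 0, 0), (70, 0, 0, 0, 0), (71, 0, 0, 0, 0), (71, 0, 0, 0, 0), (24, 0, 0, 0, 0), (24, 0, 0, 0, 0), (72, 0, 0, 0, 0), (72, 0, 0, 0, 0), (25, 0, 0, 0, 0), (25, 0, 0, 0, 0), (24, 0, 0, 0, 0), (24, 0, 0, 0, 0), (26, 0, 0, 0, 0), (26, 0, 0, 0, 0), (73, 0, 0, 0, 0), (73, 0, 0, 0, 0), (72, 0, 0, 0, 0), (72, 0, 0, 0, 0), (26, 0, 0, 0, 0), (26, 0, 0, 0, 0), (27, 0, 0, 0, 0), (27, 0, 0, 0, 0), (25, 0, 0, 0, 0), (25, 0, 0, 0, 0), (73, 0, 0, 0,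 0), (73, 0, 0, 0, 0), (27, 0, 0, 0, 0), (27, 0, 0, 0, 0), (28, 0, 0, 0, 0), (28, 0, 0, 0, 0), (29, 0, 0, 0, 0), (29, 0, 0, 0, 0), (74, 0, 0, 0, 0), (74, 0, 0, 0, 0), (28, 0, 0, 0, 0), (28, 0, 0, 0, 0), (75, 0, 0, 0, 0), (75, 0, 0, 0, 0), (30, 0, 0, 0, 0), (30, 0, 0, 0, 0), (29, 0, 0, 0, 0), (29, 0, 0, 0, 0), (75, 0, 0, 0, 0), (75, 0, 0, 0, 0), (31, 0, 0, 0, 0), (31, 0, 0, 0, 0), (74, 0, 0, 0, 0), (74, 0, 0, 0, 0), (30, 0, 0, 0, 0), (30, 0, 0, 0, 0), (31, 0, 0, 0, 0), (31, 0, 0, 0, 0)],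
  [(19, 0, 0, 0, 0), (19, 0, 0, 0, 0), (18, 0, 0, 0, 0), (18, 0, 0, 0, 0), (63, 0, 0, 0, 0), (63, 0, 0, 0, 0), (19, 0, 0, 0, 0), (19, 0, 0, 0, 0), (62, 0, 0, 0, 0), (62, 0, 0, 0, 0), (17, 0, 0, 0, 0), (17, 0, 0, 0, 0), (18, 0, 0, 0, 0), (18, 0, 0, 0, 0), (62, 0, 0, 0, 0), (62, 0, 0, 0, 0), (16, 0, 0, 0, 0), (16, 0, 0, 0, 0), (63, 0, 0, 0, 0), (63, 0, 0, 0, 0), (17, 0, 0, 0, 0), (17, 0, 0, 0, 0), (16, 0, 0, 0, 0), (16, 0, 0, 0, 0), (23, 0, 0, 0, 0), (23, 0, 0, 0, 0), (65, 0, 0, 0, 0), (65, 0, 0, 0, 0), (22, 0, 0, 0, 0), (22, 0, 0, 0, 0), (23, 0, 0, 0, 0), (23, 0, 0, 0, 0), (21, 0, 0, 0, 0), (21, 0, 0, 0, 0), (64, 0, 0, 0, 0), (64, 0, 0, 0, 0), (65, 0, 0, 0, 0), (65, 0, 0, 0, 0), (21, 0, 0, 0, 0), (21, 0, 0, 0, 0), (20, 0, 0, 0, 0), (20, 0, 0, 0, 0), (22, 0, 0, 0, 0), (22, 0, 0, 0, 0), (64, 0, 0, 0, 0), (64, 0, 0, 0, 0), (20,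 0, 0, 0, 0), (20, 0, 0, 0, 0), (71, 0, 0, 0, 0), (71, 0, 0, 0, 0), (70, 0, 0, 0, 0), (70, 0, 0, 0, 0), (69, 0, 0, 0, 0), (69, 0, 0, 0, 0), (71, 0, 0, 0, 0), (71, 0, 0, 0, 0), (68, 0, 0, 0, 0), (68, 0, 0, 0, 0), (67, 0, 0, 0, 0), (67, 0, 0, 0, 0), (70, 0, 0, 0, 0), (70, 0, 0, 0, 0), (68, 0, 0, 0, 0), (68, 0, 0, 0, 0), (66, 0, 0, 0, 0), (66, 0, 0, 0, 0), (69, 0, 0, 0, 0), (69, 0, 0, 0, 0), (67, 0, 0, 0, 0), (67, 0, 0, 0, 0), (66, 0, 0, 0, 0), (66, 0, 0, 0, 0), (27, 0, 0, 0, 0), (27, 0, 0, 0, 0), (73, 0, 0, 0, 0), (73, 0, 0, 0, 0), (26, 0, 0, 0, 0), (26, 0, 0, 0, 0), (27, 0, 0, 0, 0), (27, 0, 0, 0, 0), (25, 0, 0, 0, 0), (25, 0, 0, 0, 0), (72, 0, 0, 0, 0), (72, 0, 0, 0, 0), (73, 0, 0, 0, 0), (73, 0, 0, 0, 0), (25, 0, 0, 0, 0), (25, 0, 0, 0, 0), (24, 0, 0, 0, 0), (24, 0, 0, 0, 0), (26, 0, 0, 0, 0), (26, 0, 0, 0, 0), (72, 0, 0, 0,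 0), (72, 0, 0, 0, 0), (24, 0, 0, 0, 0), (24, 0, 0, 0, 0), (31, 0, 0, 0, 0), (31, 0, 0, 0, 0), (30, 0, 0, 0, 0), (30, 0, 0, 0, 0), (75, 0, 0, 0, 0), (75, 0, 0, 0, 0), (31, 0, 0, 0, 0), (31, 0, 0, 0, 0), (74, 0, 0, 0, 0), (74, 0, 0, 0, 0), (29, 0, 0, 0, 0), (29, 0, 0, 0, 0), (30, 0, 0, 0, 0), (30, 0, 0, 0, 0), (74, 0, 0, 0, 0), (74, 0, 0, 0, 0), (28, 0, 0, 0, 0), (28, 0, 0, 0, 0), (75, 0, 0, 0, 0), (75, 0, 0, 0, 0), (29, 0, 0, 0, 0), (29, 0, 0, 0, 0), (28, 0, 0, 0, 0), (28, 0, 0, 0, 0)],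
  [(32, 0, 0, 0, 0), (32, 0, 0, 0, 0), (33, 0, 0, 0, 0), (33, 0, 0, 0, 0), (76, 0, 0, 0, 0), (76, 0, 0, 0, 0), (32, 0, 0, 0, 0), (32, 0, 0, 0, 0), (77, 0, 0, 0, 0), (77, 0, 0, 0, 0), (34, 0, 0, 0, 0), (34, 0, 0, 0, 0), (33, 0, 0, 0, 0), (33, 0, 0, 0, 0), (77, 0, 0, 0, 0), (77, 0, 0, 0, 0), (35, 0, 0, 0, 0), (35, 0, 0, 0, 0), (76, 0, 0, 0, 0), (76, 0, 0, 0, 0), (34, 0, 0, 0, 0), (34, 0, 0, 0, 0), (35, 0, 0, 0, 0), (35, 0, 0, 0, 0), (36, 0, 0, 0, 0), (36, 0, 0, 0, 0), (78, 0, 0, 0, 0), (78, 0, 0, 0, 0), (37, 0, 0, 0, 0), (37, 0, 0, 0, 0), (36, 0, 0, 0, 0), (36, 0, 0, 0, 0), (38, 0, 0, 0, 0), (38, 0, 0, 0, 0), (79, 0, 0, 0, 0), (79, 0, 0, 0, 0), (78, 0, 0, 0, 0), (78, 0, 0, 0, 0), (38, 0, 0, 0, 0), (38, 0, 0, 0, 0), (39, 0, 0, 0, 0), (39, 0, 0, 0, 0), (37, 0, 0, 0, 0), (37, 0, 0, 0, 0), (79, 0, 0, 0, 0), (79, 0, 0, 0, 0), (39,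 0, 0, 0, 0), (39, 0, 0, 0, 0), (80, 0, 0, 0, 0), (80, 0, 0, 0, 0), (81, 0, 0, 0, 0), (81, 0, 0, 0, 0), (82, 0, 0, 0, 0), (82, 0, 0, 0, 0), (80, 0, 0, 0, 0), (80, 0, 0, 0, 0), (83, 0, 0, 0, 0), (83, 0, 0, 0, 0), (84, 0, 0, 0, 0), (84, 0, 0, 0, 0), (81, 0, 0, 0, 0), (81, 0, 0, 0, 0), (83, 0, 0, 0, 0), (83, 0, 0, 0, 0), (85, 0, 0, 0, 0), (85, 0, 0, 0, 0), (82, 0, 0, 0, 0), (82, 0, 0, 0, 0), (84, 0, 0, 0, 0), (84, 0, 0, 0, 0), (85, 0, 0, 0, 0), (85, 0, 0, 0, 0), (40, 0, 0, 0, 0), (40, 0, 0, 0, 0), (86, 0, 0, 0, 0), (86, 0, 0, 0, 0), (41, 0, 0, 0, 0), (41, 0, 0, 0, 0), (40, 0, 0, 0, 0), (40, 0, 0, 0, 0), (42, 0, 0, 0, 0), (42, 0, 0, 0, 0), (87, 0, 0, 0, 0), (87, 0, 0, 0, 0), (86, 0, 0, 0, 0), (86, 0, 0, 0, 0), (42, 0, 0, 0, 0), (42, 0, 0, 0, 0), (43, 0, 0, 0, 0), (43, 0, 0, 0, 0), (41, 0, 0, 0, 0), (41, 0, 0, 0, 0), (87, 0, 0, 0,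 0), (87, 0, 0, 0, 0), (43, 0, 0, 0, 0), (43, 0, 0, 0, 0), (44, 0, 0, 0, 0), (44, 0, 0, 0, 0), (45, 0, 0, 0, 0), (45, 0, 0, 0, 0), (88, 0, 0, 0, 0), (88, 0, 0, 0, 0), (44, 0, 0, 0, 0), (44, 0, 0, 0, 0), (89, 0, 0, 0, 0), (89, 0, 0, 0, 0), (46, 0, 0, 0, 0), (46, 0, 0, 0, 0), (45, 0, 0, 0, 0), (45, 0, 0, 0, 0), (89, 0, 0, 0, 0), (89, 0, 0, 0, 0), (47, 0, 0, 0, 0), (47, 0, 0, 0, 0), (88, 0, 0, 0, 0), (88, 0, 0, 0, 0), (46, 0, 0, 0, 0), (46, 0, 0, 0, 0), (47, 0, 0, 0, 0), (47, 0, 0, 0, 0)],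
  [(35, 0, 0, 0, 0), (35, 0, 0, 0, 0), (34, 0, 0, 0, 0), (34, 0, 0, 0, 0), (77, 0, 0, 0, 0), (77, 0, 0, 0, 0), (35, 0, 0, 0, 0), (35, 0, 0, 0, 0), (76, 0, 0, 0, 0), (76, 0, 0, 0, 0), (33, 0, 0, 0, 0), (33, 0, 0, 0, 0), (34, 0, 0, 0, 0), (34, 0, 0, 0, 0), (76, 0, 0, 0, 0), (76, 0, 0, 0, 0), (32, 0, 0, 0, 0), (32, 0, 0, 0, 0), (77, 0, 0, 0, 0), (77, 0, 0, 0, 0), (33, 0, 0, 0, 0), (33, 0, 0, 0, 0), (32, 0, 0, 0, 0), (32, 0, 0, 0, 0), (39, 0, 0, 0, 0), (39, 0, 0, 0, 0), (79, 0, 0, 0, 0), (79, 0, 0, 0, 0), (38, 0, 0, 0, 0), (38, 0, 0, 0, 0), (39, 0, 0, 0, 0), (39, 0, 0, 0, 0), (37, 0, 0, 0, 0), (37, 0, 0, 0, 0), (78, 0, 0, 0, 0), (78, 0, 0, 0, 0), (79, 0, 0, 0, 0), (79, 0, 0, 0, 0), (37, 0, 0, 0, 0), (37, 0, 0, 0, 0), (36, 0, 0, 0, 0), (36, 0, 0, 0, 0), (38, 0, 0, 0, 0), (38, 0, 0, 0, 0), (78, 0, 0, 0, 0), (78, 0, 0, 0, 0), (36,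 0, 0, 0, 0), (36, 0, 0, 0, 0), (85, 0, 0, 0, 0), (85, 0, 0, 0, 0), (84, 0, 0, 0, 0), (84, 0, 0, 0, 0), (83, 0, 0, 0, 0), (83, 0, 0, 0, 0), (85, 0, 0, 0, 0), (85, 0, 0, 0, 0), (82, 0, 0, 0, 0), (82, 0, 0, 0, 0), (81, 0, 0, 0, 0), (81, 0, 0, 0, 0), (84, 0, 0, 0, 0), (84, 0, 0, 0, 0), (82, 0, 0, 0, 0), (82, 0, 0, 0, 0), (80, 0, 0, 0, 0), (80, 0, 0, 0, 0), (83, 0, 0, 0, 0), (83, 0, 0, 0, 0), (81, 0, 0, 0, 0), (81, 0, 0, 0, 0), (80, 0, 0, 0, 0), (80, 0, 0, 0, 0), (43, 0, 0, 0, 0), (43, 0, 0, 0, 0), (87, 0, 0, 0, 0), (87, 0, 0, 0, 0), (42, 0, 0, 0, 0), (42, 0, 0, 0, 0), (43, 0, 0, 0, 0), (43, 0, 0, 0, 0), (41, 0, 0, 0, 0), (41, 0, 0, 0, 0), (86, 0, 0, 0, 0), (86, 0, 0, 0, 0), (87, 0, 0, 0, 0), (87, 0, 0, 0, 0), (41, 0, 0, 0, 0), (41, 0, 0, 0, 0), (40, 0, 0, 0, 0), (40, 0, 0, 0, 0), (42, 0, 0, 0, 0), (42, 0, 0, 0, 0), (86, 0, 0, 0,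 0), (86, 0, 0, 0, 0), (40, 0, 0, 0, 0), (40, 0, 0, 0, 0), (47, 0, 0, 0, 0), (47, 0, 0, 0, 0), (46, 0, 0, 0, 0), (46, 0, 0, 0, 0), (89, 0, 0, 0, 0), (89, 0, 0, 0, 0), (47, 0, 0, 0, 0), (47, 0, 0, 0, 0), (88, 0, 0, 0, 0), (88, 0, 0, 0, 0), (45, 0, 0, 0, 0), (45, 0, 0, 0, 0), (46, 0, 0, 0, 0), (46, 0, 0, 0, 0), (88, 0, 0, 0, 0), (88, 0, 0, 0, 0), (44, 0, 0, 0, 0), (44, 0, 0, 0, 0), (89, 0, 0, 0, 0), (89, 0, 0, 0, 0), (45, 0, 0, 0, 0), (45, 0, 0, 0, 0), (44, 0, 0, 0, 0), (44, 0, 0, 0, 0)]]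

theorem tr28 : trK keys lk28 kl28 = true := by
  decide +kernel

theorem x28_0 : expB 3 5 dg3 dg6 m28_0 (l28_0 ++ z28_0) w28_0 = true := by
  decide +kernel

theorem x28_1 : expB 3 5 dg3 dg6 m28_1 (l28_1 ++ z28_1) w28_1 = true := by
  decide +kernel

theorem t28_0_0 : chkS lk28 3 5 [(1, m28_0)] l28_0
  [(20, 33, 258, 103026771, 101975346), (24, 528, 528, 34891056, 52696656), (23, 528, 528, 34887216, 36968016), (12, 18, 18, 55640676, 22045251), (23, 528, 528, 34891056, 52696656), (12, 18, 18, 55648356, 22045506), (12, 18, 18, 87429156, 73421106), (14, 18, 18, 86380596, 73405746), (21, 33, 258, 87298146, 23351346), (33, 33, 258, 88215651, 23397426), (39, 18, 18, 72552546, 22429746), (11, 18, 18, 54592101, 17130051), (28, 18, 18, 55840866, 22306866), (11, 18, 18, 54599781, 17130306), (11, 33, 258, 70586466, 21385266), (13, 33,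 258, 69537891, 21366066), (28, 33, 258, 55836966, 5529891), (11, 33, 258, 54592086, 1401411), (27, 513, 513, 34891011, 52692561), (12, 33, 258, 55640646, 5333571), (44, 528, 528, 51733056, 54616656), (41, 513, 513, 50669076, 37774101), (41, 33, 258, 73732131, 88473906), (29, 33, 258, 56951076, 88105251), (28, 33, 258, 55840806, 5529906), (11, 33, 258, 54599766, 1401666), (23, 513, 513, 34891011, 52692561), (12, 33, 258, 55648326, 5333826), (44, 528, 528, 51717696, 37839696), (41, 513, 513, 50684436, 54551061), (27, 33, 258, 55840866, 22306866), (29, 33, 258, 56954916, 88105266), (11, 18, 18, 70586406, 4608306), (13, 18, 18, 69537846, 4592946), (12, 33, 258, 87429186, 73486386), (14, 33, 258, 86380611, 73467186), (41, 18, 18, 73732146, 88477746), (27, 18, 18, 55836966, 5529891), (29, 18, 18, 56954946, 88170546), (27, 18, 18,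 55840806, 5529906), (25, 528, 528, 34891056, 52696656), (26, 528, 528, 34891056, 52696656), (22, 528, 528, 34891056, 52696656), (19, 528, 528, 35017776, 70391376), (22, 528, 528, 34887216, 36968016), (19, 528, 528, 35013936, 69408336), (19, 288, 288, 19096896, 52512096), (18, 18, 18, 38998116, 22038066), (35, 18, 18, 55840866, 22306866), (38, 18, 18, 55840866, 22306866), (11, 33, 258, 40177716, 88086066), (16, 528, 528, 33969201, 70391301), (28, 18, 18, 40108371, 85198371), (16, 528, 528, 33965361, 69408261), (39, 18, 18, 40046676, 84952626), (2, 528, 528, 19162371, 52692321), (28, 513, 513, 101983491, 103023441), (39, 513, 513, 100869396, 102777621), (15, 33, 258, 56954916, 88105266), (40, 258, 33, 102827061, 100799811), (4, 513, 513, 101926146, 102973521), (7, 33, 258, 40173876, 88086051), (7, 513, 513, 101929986, 103956561),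 (16, 33, 258, 5317446, 5317446), (28, 513, 513, 101995011, 104071761), (39, 513, 513, 100880916, 103825941), (42, 513, 513, 85221891, 56885841), (40, 258, 33, 102842421, 100865346), (4, 513, 513, 101929986, 103956561), (7, 33, 258, 40177716, 88086066), (15, 513, 513, 67461651, 54919701), (16, 33, 258, 5321286, 5321286), (16, 288, 288, 2188611, 52495686), (2, 288, 288, 34825536, 52512336), (40, 18, 18, 40177716, 88086066), (34, 18, 18, 39063606, 5510706), (5, 513, 513, 101929986, 103956561), (19, 513, 513, 85337091, 73532241), (16, 513, 513, 84296211, 73597461), (19, 513, 513, 85344771, 73597521), (35, 33, 258, 55840806, 5529906), (38, 33, 258, 55840806, 5529906), (28, 33, 258, 40112181, 84153906), (16, 513, 513, 33969171, 70387221), (28, 33, 258, 40108341, 84153891), (16, 513, 513, 33965331, 69404181), (39, 33, 258, 40046661,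 83969586), (2, 513, 513, 19162416, 52696416), (25, 513, 513, 34891011, 52692561), (26, 513, 513, 34891011, 52692561), (9, 18, 18, 40177716, 88086066), (19, 513, 513, 35017731, 70387281), (22, 528, 528, 101995056, 104075856), (19, 513, 513, 35013891, 69404241), (19, 258, 33, 19096836, 52446561), (18, 33, 258, 38998086, 5326386), (42, 528, 528, 85206576, 40112976), (40, 288, 288, 102827091, 101844291), (11, 528, 528, 102847536, 103945536), (39, 528, 528, 100869441, 102843141), (4, 528, 528, 101926176, 102973776), (5, 18, 18, 40173876, 88086051), (7, 528, 528, 101930016, 103956816), (15, 528, 528, 67446321, 38146821), (42, 528, 528, 85221936, 56889936), (40, 288, 288, 102842451, 101909826), (28, 528, 528, 101995056, 104075856), (39, 528, 528, 100880961, 103891461), (4, 528, 528, 101930016, 103956816), (5, 18, 18, 40177716, 88086066),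 (16, 18, 18, 5321316, 22032966), (15, 528, 528, 67461681, 54923781), (40, 33, 258, 40177731, 88147506), (34, 33, 258, 39063651, 22283826), (16, 258, 33, 2188596, 52434246), (2, 258, 33, 34825476, 52446801), (5, 528, 528, 101930016, 103956816), (16, 528, 528, 84288561, 73536261), (19, 528, 528, 85344816, 73601616), (16, 528, 528, 84296241, 73601541)]
  [(2, 432), (9, 216), (12, -432), (13, -216), (14, 216), (15, -432), (16, 864), (18, -216), (19, -216), (20, 216), (21, -216), (22, -432), (23, 432), (24, -216), (25, -432), (26, 432), (27, 432), (28, 432), (29, -648), (33, 216), (34, -216), (35, 432), (38, -432), (39, -216), (40, 432), (42, -432), (44, 0)] = true := by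
  decide +kernel

theorem t28_0_1 : chkS lk28 3 5 [(1, m28_0)] l28_1
  [(9, 528, 528, 19220016, 37950816), (9, 528, 528, 19227696, 54662496), (12, 528, 528, 19285296, 69408096), (12, 528, 528, 19289136, 70391136), (11, 18, 18, 90243651, 90243651), (13, 33, 258, 56954916, 88105266), (2, 528, 528, 50619681, 52715781), (16, 528, 528, 20337666, 70406241), (5, 513, 513, 51733506, 54681681), (16, 513, 513, 103896096, 103960896), (29, 513, 513, 68510211, 54919761), (41, 288, 288, 19203171, 21103971), (6, 513, 513, 51794946, 70410321), (31, 18, 18, 90439971, 90439971), (30, 18, 18, 90443826, 90443826), (36, 18, 18, 90443826, 90443826), (11, 33, 258, 90243636, 90182211), (11, 33, 258, 90251316, 90182466), (16, 513, 513, 20333856, 69423456), (16, 513, 513, 20337696, 70406496), (9, 513, 513, 19219971, 37946721), (10, 513, 513, 19289091,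 70387041), (3, 288, 288, 101860176, 101917776), (12, 513, 513, 19289091, 70387041), (5, 528, 528, 51733536, 54681936), (12, 528, 528, 102847536, 103945536), (40, 33, 258, 88154976, 23405376), (41, 258, 33, 19203126, 4330851), (6, 528, 528, 51794976, 70410576), (30, 33, 258, 90439971, 90439971), (31, 33, 258, 90443826, 90443826), (36, 33, 258, 90443811, 90439986), (40, 33, 258, 21308256, 21308256), (40, 33, 258, 21312096, 21312096), (29, 513, 513, 85206531, 40108881), (29, 513, 513, 85221891, 56885841), (29, 528, 528, 85221936, 56889936), (3, 258, 33, 35013381, 67315281), (2, 513, 513, 67331346, 52838421), (40, 18, 18, 21308166, 4531041), (5, 528, 528, 85149216, 40059216), (9, 18, 18, 23396916, 88085091), (11, 33, 258, 23396916, 88085091), (5, 513, 513, 85149186, 40058961), (8, 528, 528, 51794976, 70410576), (30, 528, 528, 85221936,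 56889936), (43, 528, 528, 87295506, 40128531), (8, 513, 513, 51794946, 70410321)]
  [(2, -1728), (3, 1728), (9, 1728), (10, -864), (11, -1728), (12, -1728), (13, 864), (16, 1728), (29, -1728), (30, 864), (31, -1728), (40, 1728), (43, 864)] = true := by
  decide +kernel

theorem t28_1_1 : chkS lk28 3 5 [(1, m28_1)] l28_1
  [(0, 258, 33, 106111236, 105923361), (24, 258, 33, 105062661, 101008161), (24, 258, 33, 105000981, 101004306), (32, 528, 528, 35017776, 70391376), (14, 33, 258, 103875666, 101863491), (27, 18, 18, 104923731, 102040131), (19, 513, 513, 56893461, 84173586), (34, 18, 18, 104923986, 102047811), (19, 33, 258, 56627781, 83976756), (34, 258, 33, 105074946, 104153121), (14, 513, 513, 104091906, 104091681), (27, 258, 33, 105009171, 104137746), (19, 33, 258, 56689221, 83976771), (19, 33, 258, 56689701, 84042051), (27,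 258, 33, 105193731, 105186081), (27, 258, 33, 105193491, 105186066), (1, 33, 258, 70321746, 35016771), (26, 33, 258, 104862261, 100995636), (26, 33, 258, 104923941, 100999491), (17, 258, 33, 56967426, 88301601), (10, 528, 528, 102056496, 105058896), (9, 288, 288, 85079616, 39924816), (12, 513, 513, 23343621, 84161121), (3, 33, 258, 103035216, 101987616), (12, 528, 528, 101995296, 104079696), (3, 18, 18, 39912501, 84022851), (18, 513, 513, 56893701, 84173601), (37, 288, 288, 101929536, 103891536), (12, 528, 528, 102056736, 105062736), (12, 528, 528, 102056496, 105058896), (37, 288, 288, 102052896, 105001296), (37, 288, 288, 102052416, 104936016), (17, 18, 18, 56689986, 86073411), (26, 513, 513, 105000981, 101004306), (26, 513, 513, 105062661, 101008161), (1, 513, 513, 70668546, 70668321), (3, 258, 33, 40120581, 84162081), (12,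 288, 288, 101856336, 101856336), (37, 528, 528, 101983056, 101983056), (18, 33, 258, 56689701, 84042051), (9, 528, 528, 85345056, 73605456), (10, 288, 288, 101856576, 102839376), (3, 513, 513, 102847536, 103945536), (12, 33, 258, 23200581, 83960931), (9, 528, 528, 85222176, 56893776), (9, 528, 528, 85221936, 56889936), (12, 33, 258, 23077941, 84022116), (12, 33, 258, 23077701, 83960676)]
  [(0, 864), (1, -1728), (9, -3456), (12, 6912), (17, 1728), (19, -3456), (27, 3456), (32, -864), (37, -3456)] = true := by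
  decide +kernel

section

variable {κ ι : Type*} [Fintype κ] [Fintype ι] [Inhabited κ] [Inhabited ι]

noncomputable def F28_0 (E : Env κ ι) : (Fin 3 → κ) → (Fin 5 → ι) → ℝ := op2 (P3 κ) (P6 ι) (fB E 3 5 m28_0)

noncomputable def F28_1 (E : Env κ ι) : (Fin 3 → κ) → (Fin 5 → ι) → ℝ := op2 (P3 κ) (P6 ι) (fB E 3 5 m28_1)

def r28_0_0 : List (ℕ × ℤ) := [(2, 432), (9, 216), (12, -432), (13, -216), (14, 216), (15, -432), (16, 864), (18, -216), (19, -216), (20, 216), (21, -216), (22, -432), (23, 432), (24, -216), (25, -432), (26, 432), (27, 432), (28, 432), (29, -648), (33, 216), (34, -216), (35, 432), (38, -432), (39, -216), (40, 432), (42, -432), (44, 0)]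

theorem h28_0_0 (E : Env κ ι) : ip (F28_0 E) (F28_0 E) = dotS (ek E lk28) r28_0_0 :=
  op_entryZ E lk28 3 5 _ _ _ _ (pg3 κ) (pg6 ι) m28_0 m28_0 l28_0 z28_0 w28_0 x28_0 (by decide) _ (chkS_sound E lk28 3 5 _ _ _ _ t28_0_0)

def r28_0_1 : List (ℕ × ℤ) := [(2, -1728), (3, 1728), (9, 1728), (10, -864), (11, -1728), (12, -1728), (13, 864), (16, 1728), (29, -1728), (30, 864), (31, -1728), (40, 1728), (43, 864)]

theorem h28_0_1 (E : Env κ ι) : ip (F28_0 E) (F28_1 E) = dotS (ek E lk28) r28_0_1 :=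
  op_entryZ E lk28 3 5 _ _ _ _ (pg3 κ) (pg6 ι) m28_0 m28_1 l28_1 z28_1 w28_1 x28_1 (by decide) _ (chkS_sound E lk28 3 5 _ _ _ _ t28_0_1)

def r28_1_1 : List (ℕ × ℤ) := [(0, 864), (1, -1728), (9, -3456), (12, 6912), (17, 1728), (19, -3456), (27, 3456), (32, -864), (37, -3456)]

theorem h28_1_1 (E : Env κ ι) : ip (F28_1 E) (F28_1 E) = dotS (ek E lk28) r28_1_1 :=
  op_entryZ E lk28 3 5 _ _ _ _ (pg3 κ) (pg6 ι) m28_1 m28_1 l28_1 z28_1 w28_1 x28_1 (by decide) _ (chkS_sound E lk28 3 5 _ _ _ _ t28_1_1)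

theorem row28_0 (E : Env κ ι) : RowG (ek E lk28) (F28_0 E) [F28_0 E, F28_1 E] [r28_0_0, r28_0_1] :=
  rowG_cons _ _ _ _ _ _ (h28_0_0 E) (rowG_cons _ _ _ _ _ _ (h28_0_1 E) (rowG_nil _ _))

theorem row28_1 (E : Env κ ι) : RowG (ek E lk28) (F28_1 E) [F28_1 E] [r28_1_1] :=
  rowG_cons _ _ _ _ _ _ (h28_1_1 E) (rowG_nil _ _)

def tab28 : List (List (List (ℕ × ℤ))) := [[r28_0_0, r28_0_1], [r28_1_1]]

theorem tri28 (E : Env κ ι) : TriG (ek E lk28) [F28_0 E, F28_1 E] tab28 := by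
  refine triG_cons _ _ _ _ _ (row28_0 E) ?_
  refine triG_cons _ _ _ _ _ (row28_1 E) ?_
  exact triG_nil _

end

end YMBG
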