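import Pool.Agent.YM.BG.Ga0

set_option linter.unusedVariables false
set_option maxRecDepth 100000

open YMEng

namespace YMBG

def lk29 : List Key := [
  (3, 7, [(0, [0], [0, 1]), (0, [1], [0, 2]), (0, [0], [2, 3]), (0, [2], [1, 4]), (0, [1], [5, 6]), (0, [2], [5, 6]), (4, [], [3]), (4, [], [4])]),
  (3, 7, [(0, [0], [0, 1]), (0, [0], [0, 2]), (0, [1], [1, 2]), (4, [], [3]), (0, [2], [4, 5]), (0, [2], [4, 6]), (0, [1], [5, 6]), (4, [], [3])]),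
  (3, 7, [(0, [0], [0, 1]), (0, [0], [0, 2]), (0, [1], [1, 2]), (4, [], [3]), (0, [2], [4, 5]), (0, [2], [4, 6]), (0, [1], [3, 6]), (4, [], [5])]),
  (3, 7, [(0, [0], [0, 1]), (0, [0], [0, 2]), (0, [1], [1, 2]), (4, [], [3]), (0, [2], [4, 5]), (0, [2], [3, 6]), (0, [1], [4, 6]), (4, [], [5])]),
  (3, 7, [(0, [0], [0, 1]), (0, [0], [0, 2]), (0, [1], [3, 2]), (4, [], [1]), (0, [2], [4, 5]), (0, [2], [4, 6]), (0, [1], [3, 6]), (4, [], [5])]),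
  (3, 7, [(0, [0], [0, 1]), (0, [0], [0, 2]), (0, [1], [3, 2]), (4, [], [1]), (0, [2], [4, 5]), (0, [2], [3, 6]), (0, [1], [4, 6]), (4, [], [5])]),
  (3, 7, [(0, [0], [0, 1]), (0, [0], [0, 2]), (0, [1], [3, 2]), (4, [], [1]), (0, [2], [4, 5]), (0, [2], [3, 4]), (0, [1], [5, 6]), (4, [], [6])]),
  (3, 7, [(0, [0], [0, 1]), (0, [0], [0, 1]), (0, [1], [2, 3]), (4, [], [3]), (0, [2], [4, 5]), (0, [2], [2, 6]), (0, [1], [4, 6]), (4, [], [5])]),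
  (3, 7, [(0, [0], [0, 1]), (0, [0], [0, 1]), (0, [1], [2, 3]), (4, [], [3]), (0, [2], [4, 5]), (0, [2], [2, 4]), (0, [1], [5, 6]), (4, [], [6])]),
  (3, 7, [(0, [0], [0, 1]), (0, [0], [2, 3]), (0, [1], [0, 3]), (4, [], [1]), (0, [2], [4, 5]), (0, [2], [2, 6]), (0, [1], [4, 6]), (4, [], [5])]),
  (3, 7, [(0, [0], [0, 1]), (0, [0], [2, 3]), (0, [1], [0, 3]), (4, [], [1]), (0, [2], [4, 5]), (0, [2], [2, 4]), (0, [1], [5, 6]), (4, [], [6])]),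
  (3, 7, [(0, [0], [0, 1]), (0, [0], [2, 3]), (0, [1], [0, 1]), (4, [], [3]), (0, [2], [4, 5]), (0, [2], [2, 4]), (0, [1], [5, 6]), (4, [], [6])]),
  (3, 7, [(0, [0], [0, 1]), (0, [0], [2, 0]), (0, [1], [1, 3]), (4, [], [3]), (0, [2], [4, 5]), (0, [2], [2, 4]), (0, [1], [5, 6]), (4, [], [6])]),
  (3, 7, [(0, [0], [0, 1]), (0, [0], [0, 1]), (0, [1], [2, 3]), (4, [], [4]), (0, [2], [5, 6]), (0, [2], [2, 5]), (0, [1], [3, 6]), (4, [], [4])]),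
  (3, 7, [(0, [0], [0, 1]), (0, [0], [0, 1]), (0, [1], [2, 3]), (4, [], [4]), (0, [2], [2, 5]), (0, [2], [3, 6]), (0, [1], [5, 6]), (4, [], [4])]),
  (3, 7, [(0, [0], [0, 1]), (0, [0], [2, 0]), (0, [1], [3, 1]), (4, [], [4]), (0, [2], [5, 6]), (0, [2], [2, 5]), (0, [1], [3, 6]), (4, [], [4])]),
  (3, 7, [(0, [0], [0, 1]), (0, [0], [2, 0]), (0, [1], [3, 1]), (4, [], [4]), (0, [2], [5, 6]), (0, [2], [3, 5]), (0, [1], [2, 6]), (4, [], [4])]),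
  (3, 7, [(0, [0], [0, 1]), (0, [0], [2, 0]), (0, [1], [3, 1]), (4, [], [4]), (0, [2], [5, 6]), (0, [2], [4, 5]), (0, [1], [2, 3]), (4, [], [6])]),
  (3, 7, [(0, [0], [0, 1]), (0, [0], [2, 0]), (0, [1], [3, 1]), (4, [], [4]), (0, [2], [5, 6]), (0, [2], [2, 3]), (0, [1], [5, 6]), (4, [], [4])]),
  (3, 7, [(0, [0], [0, 1]), (0, [0], [2, 0]), (0, [1], [3, 1]), (4, [], [4]), (0, [2], [5, 6]), (0, [2], [2, 3]), (0, [1], [4, 5]), (4, [], [6])]),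
  (3, 7, [(0, [0], [0, 1]), (0, [0], [2, 0]), (0, [1], [3, 1]), (4, [], [4]), (0, [2], [5, 6]), (0, [2], [3, 4]), (0, [1], [2, 5]), (4, [], [6])]),
  (3, 7, [(0, [0], [0, 1]), (0, [0], [2, 0]), (0, [1], [3, 1]), (4, [], [4]), (0, [2], [2, 5]), (0, [2], [3, 6]), (0, [1], [5, 6]), (4, [], [4])]),
  (3, 7, [(0, [0], [0, 1]), (0, [0], [2, 0]), (0, [1], [3, 1]), (4, [], [4]), (0, [2], [3, 5]), (0, [2], [2, 6]), (0, [1], [4, 6]), (4, [], [5])]),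
  (3, 7, [(0, [0], [0, 1]), (0, [0], [2, 0]), (0, [1], [3, 4]), (4, [], [1]), (0, [2], [3, 5]), (0, [2], [4, 6]), (0, [1], [5, 6]), (4, [], [2])]),
  (3, 7, [(0, [0], [0, 1]), (0, [0], [2, 3]), (0, [1], [0, 1]), (4, [], [4]), (0, [2], [5, 6]), (0, [2], [2, 4]), (0, [1], [3, 5]), (4, [], [6])]),
  (3, 7, [(0, [0], [0, 1]), (0, [0], [2, 3]), (0, [1], [0, 1]), (4, [], [4]), (0, [2], [2, 5]), (0, [2], [3, 6]), (0, [1], [5, 6]), (4, [], [4])]),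
  (3, 7, [(0, [0], [0, 1]), (0, [0], [2, 3]), (0, [1], [4, 0]), (4, [], [1]), (0, [2], [2, 5]), (0, [2], [3, 6]), (0, [1], [5, 6]), (4, [], [4])]),
  (3, 7, [(0, [0], [0, 1]), (0, [0], [2, 3]), (0, [1], [4, 0]), (4, [], [1]), (0, [2], [2, 5]), (0, [2], [4, 6]), (0, [1], [5, 6]), (4, [], [3])]),
  (3, 7, [(0, [0], [0, 1]), (0, [0], [2, 3]), (0, [1], [4, 0]), (4, [], [1]), (0, [2], [2, 5]), (0, [2], [4, 6]), (0, [1], [3, 6]), (4, [], [5])]),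
  (3, 7, [(0, [0], [0, 1]), (0, [0], [2, 3]), (0, [1], [4, 0]), (4, [], [1]), (0, [2], [4, 5]), (0, [2], [2, 6]), (0, [1], [3, 6]), (4, [], [5])]),
  (3, 7, [(0, [0], [0, 1]), (0, [0], [2, 3]), (0, [1], [1, 3]), (4, [], [4]), (0, [2], [0, 5]), (0, [2], [2, 6]), (0, [1], [5, 6]), (4, [], [4])]),
  (3, 7, [(0, [0], [0, 1]), (0, [0], [2, 3]), (0, [1], [4, 1]), (4, [], [5]), (0, [2], [2, 6]), (0, [2], [0, 4]), (0, [1], [3, 6]), (4, [], [5])])]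

def kl29 : List ℕ := [57, 94, 95, 97, 109, 111, 112, 119, 120, 125, 126, 133, 144, 204, 206, 216, 217, 218, 219, 220, 221, 222, 223, 253, 267, 268, 285, 286, 287, 288, 302, 430]

def m29_0 : Base := (0, 1, [(0, [0], [0, 5]), (0, [1], [1, 5]), (0, [2], [2, 3]), (4, [], [4])])

def l29_0 : Cov := [(360, 0, 1, [(0, [0], [0, 5]), (0, [1], [1, 5]), (0, [2], [2, 3]), (4, [], [4])]),
  (-360, 0, 1, [(0, [0], [0, 5]), (0, [1], [1, 5]), (0, [2], [2, 4]), (4, [], [3])]),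
  (360, 0, 1, [(0, [0], [0, 5]), (0, [1], [2, 5]), (0, [2], [1, 3]), (4, [], [4])]),
  (-360, 0, 1, [(0, [0], [0, 5]), (0, [1], [2, 5]), (0, [2], [1, 4]), (4, [], [3])]),
  (360, 0, 1, [(0, [0], [1, 5]), (0, [1], [0, 5]), (0, [2], [2, 3]), (4, [], [4])]),
  (-360, 0, 1, [(0, [0], [1, 5]), (0, [1], [0, 5]), (0, [2], [2, 4]), (4, [], [3])]),
  (-360, 0, 1, [(0, [0], [1, 5]), (0, [1], [3, 5]), (0, [2], [2, 0]), (4, [], [4])]),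
  (360, 0, 1, [(0, [0], [1, 5]), (0, [1], [3, 5]), (0, [2], [2, 4]), (4, [], [0])]),
  (360, 0, 1, [(0, [0], [1, 5]), (0, [1], [4, 5]), (0, [2], [2, 0]), (4, [], [3])]),
  (-360, 0, 1, [(0, [0], [1, 5]), (0, [1], [4, 5]), (0, [2], [2, 3]), (4, [], [0])]),
  (360, 0, 1, [(0, [0], [2, 5]), (0, [1], [0, 5]), (0, [2], [1, 3]), (4, [], [4])]),
  (-360, 0, 1, [(0, [0], [2, 5]), (0, [1], [0, 5]), (0, [2], [1, 4]), (4, [], [3])]),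
  (-360, 0, 1, [(0, [0], [2, 5]), (0, [1], [3, 5]), (0, [2], [1, 0]), (4, [], [4])]),
  (360, 0, 1, [(0, [0], [2, 5]), (0, [1], [3, 5]), (0, [2], [1, 4]), (4, [], [0])]),
  (360, 0, 1, [(0, [0], [2, 5]), (0, [1], [4, 5]), (0, [2], [1, 0]), (4, [], [3])]),
  (-360, 0, 1, [(0, [0], [2, 5]), (0, [1], [4, 5]), (0, [2], [1, 3]), (4, [], [0])]),
  (-360, 0, 1, [(0, [0], [3, 5]), (0, [1], [1, 5]), (0, [2], [0, 2]), (4, [], [4])]),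
  (360, 0, 1, [(0, [0], [3, 5]), (0, [1], [1, 5]), (0, [2], [2, 4]), (4, [], [0])]),
  (-360, 0, 1, [(0, [0], [3, 5]), (0, [1], [2, 5]), (0, [2], [0, 1]), (4, [], [4])]),
  (360, 0, 1, [(0, [0], [3, 5]), (0, [1], [2, 5]), (0, [2], [1, 4]), (4, [], [0])]),
  (360, 0, 1, [(0, [0], [4, 5]), (0, [1], [1, 5]), (0, [2], [0, 2]), (4, [], [3])]),
  (-360, 0, 1, [(0, [0], [4, 5]), (0, [1], [1, 5]), (0, [2], [2, 3]), (4, [], [0])]),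
  (360, 0, 1, [(0, [0], [4, 5]), (0, [1], [2, 5]), (0, [2], [0, 1]), (4, [], [3])]),
  (-360, 0, 1, [(0, [0], [4, 5]), (0, [1], [2, 5]), (0, [2], [1, 3]), (4, [], [0])]),
  (360, 0, 1, [(0, [0], [0, 5]), (0, [2], [1, 5]), (0, [1], [2, 3]), (4, [], [4])]),
  (-360, 0, 1, [(0, [0], [0, 5]), (0, [2], [1, 5]), (0, [1], [2, 4]), (4, [], [3])]),
  (360, 0, 1, [(0, [0], [0, 5]), (0, [2], [2, 5]), (0, [1], [1, 3]), (4, [], [4])]),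
  (-360, 0, 1, [(0, [0], [0, 5]), (0, [2], [2, 5]), (0, [1], [1, 4]), (4, [], [3])]),
  (360, 0, 1, [(0, [0], [1, 5]), (0, [2], [0, 5]), (0, [1], [2, 3]), (4, [], [4])]),
  (-360, 0, 1, [(0, [0], [1, 5]), (0, [2], [0, 5]), (0, [1], [2, 4]), (4, [], [3])]),
  (-360, 0, 1, [(0, [0], [1, 5]), (0, [2], [3, 5]), (0, [1], [2, 0]), (4, [], [4])]),
  (360, 0, 1, [(0, [0], [1, 5]), (0, [2], [3, 5]), (0, [1], [2, 4]), (4, [], [0])]),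
  (360, 0, 1, [(0, [0], [1, 5]), (0, [2], [4, 5]), (0, [1], [2, 0]), (4, [], [3])]),
  (-360, 0, 1, [(0, [0], [1, 5]), (0, [2], [4, 5]), (0, [1], [2, 3]), (4, [], [0])]),
  (360, 0, 1, [(0, [0], [2, 5]), (0, [2], [0, 5]), (0, [1], [1, 3]), (4, [], [4])]),
  (-360, 0, 1, [(0, [0], [2, 5]), (0, [2], [0, 5]), (0, [1], [1, 4]), (4, [], [3])]),
  (-360, 0, 1, [(0, [0], [2, 5]), (0, [2], [3, 5]), (0, [1], [1, 0]), (4, [], [4])]),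
  (360, 0, 1, [(0, [0], [2, 5]), (0, [2], [3, 5]), (0, [1], [1, 4]), (4, [], [0])]),
  (360, 0, 1, [(0, [0], [2, 5]), (0, [2], [4, 5]), (0, [1], [1, 0]), (4, [], [3])]),
  (-360, 0, 1, [(0, [0], [2, 5]), (0, [2], [4, 5]), (0, [1], [1, 3]), (4, [], [0])]),
  (-360, 0, 1, [(0, [0], [3, 5]), (0, [2], [1, 5]), (0, [1], [0, 2]), (4, [], [4])]),
  (360, 0, 1, [(0, [0], [3, 5]), (0, [2], [1, 5]), (0, [1], [2, 4]), (4, [], [0])]),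
  (-360, 0, 1, [(0, [0], [3, 5]), (0, [2], [2, 5]), (0, [1], [0, 1]), (4, [], [4])]),
  (360, 0, 1, [(0, [0], [3, 5]), (0, [2], [2, 5]), (0, [1], [1, 4]), (4, [], [0])]),
  (360, 0, 1, [(0, [0], [4, 5]), (0, [2], [1, 5]), (0, [1], [0, 2]), (4, [], [3])]),
  (-360, 0, 1, [(0, [0], [4, 5]), (0, [2], [1, 5]), (0, [1], [2, 3]), (4, [], [0])]),
  (360, 0, 1, [(0, [0], [4, 5]), (0, [2], [2, 5]), (0, [1], [0, 1]), (4, [], [3])]),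
  (-360, 0, 1, [(0, [0], [4, 5]), (0, [2], [2, 5]), (0, [1], [1, 3]), (4, [], [0])]),
  (360, 0, 1, [(0, [1], [0, 5]), (0, [2], [1, 5]), (0, [0], [2, 3]), (4, [], [4])]),
  (-360, 0, 1, [(0, [1], [0, 5]), (0, [2], [1, 5]), (0, [0], [2, 4]), (4, [], [3])]),
  (360, 0, 1, [(0, [1], [0, 5]), (0, [2], [2, 5]), (0, [0], [1, 3]), (4, [], [4])]),
  (-360, 0, 1, [(0, [1], [0, 5]), (0, [2], [2, 5]), (0, [0], [1, 4]), (4, [], [3])]),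
  (360, 0, 1, [(0, [1], [1, 5]), (0, [2], [0, 5]), (0, [0], [2, 3]), (4, [], [4])]),
  (-360, 0, 1, [(0, [1], [1, 5]), (0, [2], [0, 5]), (0, [0], [2, 4]), (4, [], [3])]),
  (-360, 0, 1, [(0, [1], [1, 5]), (0, [2], [3, 5]), (0, [0], [2, 0]), (4, [], [4])]),
  (360, 0, 1, [(0, [1], [1, 5]), (0, [2], [3, 5]), (0, [0], [2, 4]), (4, [], [0])]),
  (360, 0, 1, [(0, [1], [1, 5]), (0, [2], [4, 5]), (0, [0], [2, 0]), (4, [], [3])]),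
  (-360, 0, 1, [(0, [1], [1, 5]), (0, [2], [4, 5]), (0, [0], [2, 3]), (4, [], [0])]),
  (360, 0, 1, [(0, [1], [2, 5]), (0, [2], [0, 5]), (0, [0], [1, 3]), (4, [], [4])]),
  (-360, 0, 1, [(0, [1], [2, 5]), (0, [2], [0, 5]), (0, [0], [1, 4]), (4, [], [3])]),
  (-360, 0, 1, [(0, [1], [2, 5]), (0, [2], [3, 5]), (0, [0], [1, 0]), (4, [], [4])]),
  (360, 0, 1, [(0, [1], [2, 5]), (0, [2], [3, 5]), (0, [0], [1, 4]), (4, [], [0])]),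
  (360, 0, 1, [(0, [1], [2, 5]), (0, [2], [4, 5]), (0, [0], [1, 0]), (4, [], [3])]),
  (-360, 0, 1, [(0, [1], [2, 5]), (0, [2], [4, 5]), (0, [0], [1, 3]), (4, [], [0])]),
  (-360, 0, 1, [(0, [1], [3, 5]), (0, [2], [1, 5]), (0, [0], [0, 2]), (4, [], [4])]),
  (360, 0, 1, [(0, [1], [3, 5]), (0, [2], [1, 5]), (0, [0], [2, 4]), (4, [], [0])]),
  (-360, 0, 1, [(0, [1], [3, 5]), (0, [2], [2, 5]), (0, [0], [0, 1]), (4, [], [4])]),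
  (360, 0, 1, [(0, [1], [3, 5]), (0, [2], [2, 5]), (0, [0], [1, 4]), (4, [], [0])]),
  (360, 0, 1, [(0, [1], [4, 5]), (0, [2], [1, 5]), (0, [0], [0, 2]), (4, [], [3])]),
  (-360, 0, 1, [(0, [1], [4, 5]), (0, [2], [1, 5]), (0, [0], [2, 3]), (4, [], [0])]),
  (360, 0, 1, [(0, [1], [4, 5]), (0, [2], [2, 5]), (0, [0], [0, 1]), (4, [], [3])]),
  (-360, 0, 1, [(0, [1], [4, 5]), (0, [2], [2, 5]), (0, [0], [1, 3]), (4, [], [0])])]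

def z29_0 : Cov := [(0, 0, 1, [(0, [0], [0, 5]), (0, [1], [1, 5]), (0, [2], [3, 4]), (4, [], [2])]),
  (0, 0, 1, [(0, [0], [0, 5]), (0, [1], [2, 5]), (0, [2], [3, 4]), (4, [], [1])]),
  (0, 0, 1, [(0, [0], [0, 5]), (0, [1], [3, 5]), (0, [2], [1, 2]), (4, [], [4])]),
  (0, 0, 1, [(0, [0], [0, 5]), (0, [1], [3, 5]), (0, [2], [1, 4]), (4, [], [2])]),
  (0, 0, 1, [(0, [0], [0, 5]), (0, [1], [3, 5]), (0, [2], [2, 4]), (4, [], [1])]),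
  (0, 0, 1, [(0, [0], [0, 5]), (0, [1], [4, 5]), (0, [2], [1, 2]), (4, [], [3])]),
  (0, 0, 1, [(0, [0], [0, 5]), (0, [1], [4, 5]), (0, [2], [1, 3]), (4, [], [2])]),
  (0, 0, 1, [(0, [0], [0, 5]), (0, [1], [4, 5]), (0, [2], [2, 3]), (4, [], [1])]),
  (0, 0, 1, [(0, [0], [1, 5]), (0, [1], [2, 5]), (0, [2], [0, 3]), (4, [], [4])]),
  (0, 0, 1, [(0, [0], [1, 5]), (0, [1], [2, 5]), (0, [2], [0, 4]), (4, [], [3])]),
  (0, 0, 1, [(0, [0], [1, 5]), (0, [1], [2, 5]), (0, [2], [3, 4]), (4, [], [0])]),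
  (0, 0, 1, [(0, [0], [2, 5]), (0, [1], [1, 5]), (0, [2], [0, 3]), (4, [], [4])]),
  (0, 0, 1, [(0, [0], [2, 5]), (0, [1], [1, 5]), (0, [2], [0, 4]), (4, [], [3])]),
  (0, 0, 1, [(0, [0], [2, 5]), (0, [1], [1, 5]), (0, [2], [3, 4]), (4, [], [0])]),
  (0, 0, 1, [(0, [0], [3, 5]), (0, [1], [0, 5]), (0, [2], [1, 2]), (4, [], [4])]),
  (0, 0, 1, [(0, [0], [3, 5]), (0, [1], [0, 5]), (0, [2], [1, 4]), (4, [], [2])]),
  (0, 0, 1, [(0, [0], [3, 5]), (0, [1], [0, 5]), (0, [2], [2, 4]), (4, [], [1])]),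
  (0, 0, 1, [(0, [0], [3, 5]), (0, [1], [1, 5]), (0, [2], [0, 4]), (4, [], [2])]),
  (0, 0, 1, [(0, [0], [3, 5]), (0, [1], [2, 5]), (0, [2], [0, 4]), (4, [], [1])]),
  (0, 0, 1, [(0, [0], [3, 5]), (0, [1], [4, 5]), (0, [2], [1, 0]), (4, [], [2])]),
  (0, 0, 1, [(0, [0], [3, 5]), (0, [1], [4, 5]), (0, [2], [1, 2]), (4, [], [0])]),
  (0, 0, 1, [(0, [0], [3, 5]), (0, [1], [4, 5]), (0, [2], [2, 0]), (4, [], [1])]),
  (0, 0, 1, [(0, [0], [4, 5]), (0, [1], [0, 5]), (0, [2], [1, 2]), (4, [], [3])]),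
  (0, 0, 1, [(0, [0], [4, 5]), (0, [1], [0, 5]), (0, [2], [1, 3]), (4, [], [2])]),
  (0, 0, 1, [(0, [0], [4, 5]), (0, [1], [0, 5]), (0, [2], [2, 3]), (4, [], [1])]),
  (0, 0, 1, [(0, [0], [4, 5]), (0, [1], [1, 5]), (0, [2], [0, 3]), (4, [], [2])]),
  (0, 0, 1, [(0, [0], [4, 5]), (0, [1], [2, 5]), (0, [2], [0, 3]), (4, [], [1])]),
  (0, 0, 1, [(0, [0], [4, 5]), (0, [1], [3, 5]), (0, [2], [1, 0]), (4, [], [2])]),
  (0, 0, 1, [(0, [0], [4, 5]), (0, [1], [3, 5]), (0, [2], [1, 2]), (4, [], [0])]),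
  (0, 0, 1, [(0, [0], [4, 5]), (0, [1], [3, 5]), (0, [2], [2, 0]), (4, [], [1])]),
  (0, 0, 1, [(0, [0], [0, 5]), (0, [2], [1, 5]), (0, [1], [3, 4]), (4, [], [2])]),
  (0, 0, 1, [(0, [0], [0, 5]), (0, [2], [2, 5]), (0, [1], [3, 4]), (4, [], [1])]),
  (0, 0, 1, [(0, [0], [0, 5]), (0, [2], [3, 5]), (0, [1], [1, 2]), (4, [], [4])]),
  (0, 0, 1, [(0, [0], [0, 5]), (0, [2], [3, 5]), (0, [1], [1, 4]), (4, [], [2])]),
  (0, 0, 1, [(0, [0], [0, 5]), (0, [2], [3, 5]), (0, [1], [2, 4]), (4, [], [1])]),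
  (0, 0, 1, [(0, [0], [0, 5]), (0, [2], [4, 5]), (0, [1], [1, 2]), (4, [], [3])]),
  (0, 0, 1, [(0, [0], [0, 5]), (0, [2], [4, 5]), (0, [1], [1, 3]), (4, [], [2])]),
  (0, 0, 1, [(0, [0], [0, 5]), (0, [2], [4, 5]), (0, [1], [2, 3]), (4, [], [1])]),
  (0, 0, 1, [(0, [0], [1, 5]), (0, [2], [2, 5]), (0, [1], [0, 3]), (4, [], [4])]),
  (0, 0, 1, [(0, [0], [1, 5]), (0, [2], [2, 5]), (0, [1], [0, 4]), (4, [], [3])]),
  (0, 0, 1, [(0, [0], [1, 5]), (0, [2], [2, 5]), (0, [1], [3, 4]), (4, [], [0])]),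
  (0, 0, 1, [(0, [0], [2, 5]), (0, [2], [1, 5]), (0, [1], [0, 3]), (4, [], [4])]),
  (0, 0, 1, [(0, [0], [2, 5]), (0, [2], [1, 5]), (0, [1], [0, 4]), (4, [], [3])]),
  (0, 0, 1, [(0, [0], [2, 5]), (0, [2], [1, 5]), (0, [1], [3, 4]), (4, [], [0])]),
  (0, 0, 1, [(0, [0], [3, 5]), (0, [2], [0, 5]), (0, [1], [1, 2]), (4, [], [4])]),
  (0, 0, 1, [(0, [0], [3, 5]), (0, [2], [0, 5]), (0, [1], [1, 4]), (4, [], [2])]),
  (0, 0, 1, [(0, [0], [3, 5]), (0, [2], [0, 5]), (0, [1], [2, 4]), (4, [], [1])]),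
  (0, 0, 1, [(0, [0], [3, 5]), (0, [2], [1, 5]), (0, [1], [0, 4]), (4, [], [2])]),
  (0, 0, 1, [(0, [0], [3, 5]), (0, [2], [2, 5]), (0, [1], [0, 4]), (4, [], [1])]),
  (0, 0, 1, [(0, [0], [3, 5]), (0, [2], [4, 5]), (0, [1], [1, 0]), (4, [], [2])]),
  (0, 0, 1, [(0, [0], [3, 5]), (0, [2], [4, 5]), (0, [1], [1, 2]), (4, [], [0])]),
  (0, 0, 1, [(0, [0], [3, 5]), (0, [2], [4, 5]), (0, [1], [2, 0]), (4, [], [1])]),
  (0, 0, 1, [(0, [0], [4, 5]), (0, [2], [0, 5]), (0, [1], [1, 2]), (4, [], [3])]),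
  (0, 0, 1, [(0, [0], [4, 5]), (0, [2], [0, 5]), (0, [1], [1, 3]), (4, [], [2])]),
  (0, 0, 1, [(0, [0], [4, 5]), (0, [2], [0, 5]), (0, [1], [2, 3]), (4, [], [1])]),
  (0, 0, 1, [(0, [0], [4, 5]), (0, [2], [1, 5]), (0, [1], [0, 3]), (4, [], [2])]),
  (0, 0, 1, [(0, [0], [4, 5]), (0, [2], [2, 5]), (0, [1], [0, 3]), (4, [], [1])]),
  (0, 0, 1, [(0, [0], [4, 5]), (0, [2], [3, 5]), (0, [1], [1, 0]), (4, [], [2])]),
  (0, 0, 1, [(0, [0], [4, 5]), (0, [2], [3, 5]), (0, [1], [1, 2]), (4, [], [0])]),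
  (0, 0, 1, [(0, [0], [4, 5]), (0, [2], [3, 5]), (0, [1], [2, 0]), (4, [], [1])]),
  (0, 0, 1, [(0, [1], [0, 5]), (0, [0], [1, 5]), (0, [2], [3, 4]), (4, [], [2])]),
  (0, 0, 1, [(0, [1], [0, 5]), (0, [0], [2, 5]), (0, [2], [3, 4]), (4, [], [1])]),
  (0, 0, 1, [(0, [1], [3, 5]), (0, [0], [1, 5]), (0, [2], [0, 4]), (4, [], [2])]),
  (0, 0, 1, [(0, [1], [3, 5]), (0, [0], [2, 5]), (0, [2], [0, 4]), (4, [], [1])]),
  (0, 0, 1, [(0, [1], [4, 5]), (0, [0], [1, 5]), (0, [2], [0, 3]), (4, [], [2])]),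
  (0, 0, 1, [(0, [1], [4, 5]), (0, [0], [2, 5]), (0, [2], [0, 3]), (4, [], [1])]),
  (0, 0, 1, [(0, [1], [0, 5]), (0, [2], [1, 5]), (0, [0], [3, 4]), (4, [], [2])]),
  (0, 0, 1, [(0, [1], [0, 5]), (0, [2], [2, 5]), (0, [0], [3, 4]), (4, [], [1])]),
  (0, 0, 1, [(0, [1], [0, 5]), (0, [2], [3, 5]), (0, [0], [1, 2]), (4, [], [4])]),
  (0, 0, 1, [(0, [1], [0, 5]), (0, [2], [3, 5]), (0, [0], [1, 4]), (4, [], [2])]),
  (0, 0, 1, [(0, [1], [0, 5]), (0, [2], [3, 5]), (0, [0], [2, 4]), (4, [], [1])]),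
  (0, 0, 1, [(0, [1], [0, 5]), (0, [2], [4, 5]), (0, [0], [1, 2]), (4, [], [3])]),
  (0, 0, 1, [(0, [1], [0, 5]), (0, [2], [4, 5]), (0, [0], [1, 3]), (4, [], [2])]),
  (0, 0, 1, [(0, [1], [0, 5]), (0, [2], [4, 5]), (0, [0], [2, 3]), (4, [], [1])]),
  (0, 0, 1, [(0, [1], [1, 5]), (0, [2], [2, 5]), (0, [0], [0, 3]), (4, [], [4])]),
  (0, 0, 1, [(0, [1], [1, 5]), (0, [2], [2, 5]), (0, [0], [0, 4]), (4, [], [3])]),
  (0, 0, 1, [(0, [1], [1, 5]), (0, [2], [2, 5]), (0, [0], [3, 4]), (4, [], [0])]),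
  (0, 0, 1, [(0, [1], [2, 5]), (0, [2], [1, 5]), (0, [0], [0, 3]), (4, [], [4])]),
  (0, 0, 1, [(0, [1], [2, 5]), (0, [2], [1, 5]), (0, [0], [0, 4]), (4, [], [3])]),
  (0, 0, 1, [(0, [1], [2, 5]), (0, [2], [1, 5]), (0, [0], [3, 4]), (4, [], [0])]),
  (0, 0, 1, [(0, [1], [3, 5]), (0, [2], [0, 5]), (0, [0], [1, 2]), (4, [], [4])]),
  (0, 0, 1, [(0, [1], [3, 5]), (0, [2], [0, 5]), (0, [0], [1, 4]), (4, [], [2])]),
  (0, 0, 1, [(0, [1], [3, 5]), (0, [2], [0, 5]), (0, [0], [2, 4]), (4, [], [1])]),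
  (0, 0, 1, [(0, [1], [3, 5]), (0, [2], [1, 5]), (0, [0], [0, 4]), (4, [], [2])]),
  (0, 0, 1, [(0, [1], [3, 5]), (0, [2], [2, 5]), (0, [0], [0, 4]), (4, [], [1])]),
  (0, 0, 1, [(0, [1], [3, 5]), (0, [2], [4, 5]), (0, [0], [1, 0]), (4, [], [2])]),
  (0, 0, 1, [(0, [1], [3, 5]), (0, [2], [4, 5]), (0, [0], [1, 2]), (4, [], [0])]),
  (0, 0, 1, [(0, [1], [3, 5]), (0, [2], [4, 5]), (0, [0], [2, 0]), (4, [], [1])]),
  (0, 0, 1, [(0, [1], [4, 5]), (0, [2], [0, 5]), (0, [0], [1, 2]), (4, [], [3])]),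
  (0, 0, 1, [(0, [1], [4, 5]), (0, [2], [0, 5]), (0, [0], [1, 3]), (4, [], [2])]),
  (0, 0, 1, [(0, [1], [4, 5]), (0, [2], [0, 5]), (0, [0], [2, 3]), (4, [], [1])]),
  (0, 0, 1, [(0, [1], [4, 5]), (0, [2], [1, 5]), (0, [0], [0, 3]), (4, [], [2])]),
  (0, 0, 1, [(0, [1], [4, 5]), (0, [2], [2, 5]), (0, [0], [0, 3]), (4, [], [1])]),
  (0, 0, 1, [(0, [1], [4, 5]), (0, [2], [3, 5]), (0, [0], [1, 0]), (4, [], [2])]),
  (0, 0, 1, [(0, [1], [4, 5]), (0, [2], [3, 5]), (0, [0], [1, 2]), (4, [], [0])]),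
  (0, 0, 1, [(0, [1], [4, 5]), (0, [2], [3, 5]), (0, [0], [2, 0]), (4, [], [1])]),
  (0, 0, 1, [(0, [2], [0, 5]), (0, [0], [1, 5]), (0, [1], [3, 4]), (4, [], [2])]),
  (0, 0, 1, [(0, [2], [0, 5]), (0, [0], [2, 5]), (0, [1], [3, 4]), (4, [], [1])]),
  (0, 0, 1, [(0, [2], [3, 5]), (0, [0], [1, 5]), (0, [1], [0, 4]), (4, [], [2])]),
  (0, 0, 1, [(0, [2], [3, 5]), (0, [0], [2, 5]), (0, [1], [0, 4]), (4, [], [1])]),
  (0, 0, 1, [(0, [2], [4, 5]), (0, [0], [1, 5]), (0, [1], [0, 3]), (4, [], [2])]),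
  (0, 0, 1, [(0, [2], [4, 5]), (0, [0], [2, 5]), (0, [1], [0, 3]), (4, [], [1])]),
  (0, 0, 1, [(0, [2], [0, 5]), (0, [1], [1, 5]), (0, [0], [3, 4]), (4, [], [2])]),
  (0, 0, 1, [(0, [2], [0, 5]), (0, [1], [2, 5]), (0, [0], [3, 4]), (4, [], [1])]),
  (0, 0, 1, [(0, [2], [3, 5]), (0, [1], [1, 5]), (0, [0], [0, 4]), (4, [], [2])]),
  (0, 0, 1, [(0, [2], [3, 5]), (0, [1], [2, 5]), (0, [0], [0, 4]), (4, [], [1])]),
  (0, 0, 1, [(0, [2], [4, 5]), (0, [1], [1, 5]), (0, [0], [0, 3]), (4, [], [2])]),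
  (0, 0, 1, [(0, [2], [4, 5]), (0, [1], [2, 5]), (0, [0], [0, 3]), (4, [], [1])])]

def w29_0 : List (List Wit) := [[(0, 0, 0, 0, 0), (1, 0, 0, 0, 0), (0, 0, 0, 0, 0), (72, 0, 0, 0, 0), (1, 0, 0, 0, 0), (72, 0, 0, 0, 0), (2, 0, 0, 0, 0), (3, 0, 0, 0, 0), (2, 0, 0, 0, 0), (73, 0, 0, 0, 0), (3, 0, 0, 0, 0), (73, 0, 0, 0, 0), (74, 0, 0, 0, 0), (75, 0, 0, 0, 0), (74, 0, 0, 0, 0), (76, 0, 0, 0, 0), (77, 0, 0, 0, 0), (78, 0, 0, 0, 0), (77, 0, 0, 0, 0), (79, 0, 0, 0, 0), (4, 0, 0, 0, 0), (5, 0, 0, 0, 0), (80, 0, 0, 0, 0), (81, 0, 0, 0, 0), (80, 0, 0, 0, 0), (82, 0, 0, 0, 0), (81, 0, 0, 0, 0), (82, 0, 0, 0, 0), (6, 0, 0, 0, 0), (7, 0, 0, 0, 0), (8, 0, 0, 0, 0), (9, 0, 0, 0, 0), (10, 0, 0, 0, 0), (11, 0, 0, 0, 0), (83, 0, 0, 0, 0), (84, 0, 0, 0, 0), (83, 0, 0, 0, 0), (85, 0, 0, 0, 0), (84, 0, 0, 0, 0), (85, 0, 0, 0, 0), (12, 0, 0, 0, 0), (13, 0,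 0, 0, 0), (14, 0, 0, 0, 0), (15, 0, 0, 0, 0), (86, 0, 0, 0, 0), (87, 0, 0, 0, 0), (86, 0, 0, 0, 0), (88, 0, 0, 0, 0), (16, 0, 0, 0, 0), (89, 0, 0, 0, 0), (16, 0, 0, 0, 0), (17, 0, 0, 0, 0), (89, 0, 0, 0, 0), (17, 0, 0, 0, 0), (18, 0, 0, 0, 0), (90, 0, 0, 0, 0), (18, 0, 0, 0, 0), (19, 0, 0, 0, 0), (90, 0, 0, 0, 0), (19, 0, 0, 0, 0), (91, 0, 0, 0, 0), (92, 0, 0, 0, 0), (93, 0, 0, 0, 0), (92, 0, 0, 0, 0), (94, 0, 0, 0, 0), (95, 0, 0, 0, 0), (94, 0, 0, 0, 0), (96, 0, 0, 0, 0), (20, 0, 0, 0, 0), (97, 0, 0, 0, 0), (20, 0, 0, 0, 0), (21, 0, 0, 0, 0), (97, 0, 0, 0, 0), (21, 0, 0, 0, 0), (22, 0, 0, 0, 0), (98, 0, 0, 0, 0), (22, 0, 0, 0, 0), (23, 0, 0, 0, 0), (98, 0, 0, 0, 0), (23, 0, 0, 0, 0), (99, 0, 0, 0, 0), (100, 0, 0, 0, 0), (101, 0, 0, 0, 0), (100, 0, 0, 0, 0)],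
  [(24, 0, 0, 0, 0), (25, 0, 0, 0, 0), (24, 0, 0, 0, 0), (102, 0, 0, 0, 0), (25, 0, 0, 0, 0), (102, 0, 0, 0, 0), (26, 0, 0, 0, 0), (27, 0, 0, 0, 0), (26, 0, 0, 0, 0), (103, 0, 0, 0, 0), (27, 0, 0, 0, 0), (103, 0, 0, 0, 0), (104, 0, 0, 0, 0), (105, 0, 0, 0, 0), (104, 0, 0, 0, 0), (106, 0, 0, 0, 0), (107, 0, 0, 0, 0), (108, 0, 0, 0, 0), (107, 0, 0, 0, 0), (109, 0, 0, 0, 0), (28, 0, 0, 0, 0), (29, 0, 0, 0, 0), (110, 0, 0, 0, 0), (111, 0, 0, 0, 0), (110, 0, 0, 0, 0), (112, 0, 0, 0, 0), (111, 0, 0, 0, 0), (112, 0, 0, 0, 0), (30, 0, 0, 0, 0), (31, 0, 0, 0, 0), (32, 0, 0, 0, 0), (33, 0, 0, 0, 0), (34, 0, 0, 0, 0), (35, 0, 0, 0, 0), (113, 0, 0, 0, 0), (114, 0, 0, 0, 0), (113, 0, 0, 0, 0), (115, 0, 0, 0, 0), (114, 0, 0, 0, 0), (115, 0, 0, 0, 0), (36, 0, 0, 0, 0), (37, 0, 0, 0, 0), (38, 0, 0, 0, 0), (39, 0, 0, 0, 0), (116, 0, 0, 0, 0), (117, 0,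 0, 0, 0), (116, 0, 0, 0, 0), (118, 0, 0, 0, 0), (40, 0, 0, 0, 0), (119, 0, 0, 0, 0), (40, 0, 0, 0, 0), (41, 0, 0, 0, 0), (119, 0, 0, 0, 0), (41, 0, 0, 0, 0), (42, 0, 0, 0, 0), (120, 0, 0, 0, 0), (42, 0, 0, 0, 0), (43, 0, 0, 0, 0), (120, 0, 0, 0, 0), (43, 0, 0, 0, 0), (121, 0, 0, 0, 0), (122, 0, 0, 0, 0), (123, 0, 0, 0, 0), (122, 0, 0, 0, 0), (124, 0, 0, 0, 0), (125, 0, 0, 0, 0), (124, 0, 0, 0, 0), (126, 0, 0, 0, 0), (44, 0, 0, 0, 0), (127, 0, 0, 0, 0), (44, 0, 0, 0, 0), (45, 0, 0, 0, 0), (127, 0, 0, 0, 0), (45, 0, 0, 0, 0), (46, 0, 0, 0, 0), (128, 0, 0, 0, 0), (46, 0, 0, 0, 0), (47, 0, 0, 0, 0), (128, 0, 0, 0, 0), (47, 0, 0, 0, 0), (129, 0, 0, 0, 0), (130, 0, 0, 0, 0), (131, 0, 0, 0, 0), (130, 0, 0, 0, 0)],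
  [(4, 0, 0, 0, 0), (5, 0, 0, 0, 0), (4, 0, 0, 0, 0), (132, 0, 0, 0, 0), (5, 0, 0, 0, 0), (132, 0, 0, 0, 0), (10, 0, 0, 0, 0), (11, 0, 0, 0, 0), (10, 0, 0, 0, 0), (133, 0, 0, 0, 0), (11, 0, 0, 0, 0), (133, 0, 0, 0, 0), (86, 0, 0, 0, 0), (87, 0, 0, 0, 0), (86, 0, 0, 0, 0), (88, 0, 0, 0, 0), (94, 0, 0, 0, 0), (95, 0, 0, 0, 0), (94, 0, 0, 0, 0), (96, 0, 0, 0, 0), (0, 0, 0, 0, 0), (1, 0, 0, 0, 0), (83, 0, 0, 0, 0), (84, 0, 0, 0, 0), (83, 0, 0, 0, 0), (85, 0, 0, 0, 0), (84, 0, 0, 0, 0), (85, 0, 0, 0, 0), (16, 0, 0, 0, 0), (17, 0, 0, 0, 0), (20, 0, 0, 0, 0), (21, 0, 0, 0, 0), (2, 0, 0, 0, 0), (3, 0, 0, 0, 0), (80, 0, 0, 0, 0), (81, 0, 0, 0, 0), (80, 0, 0, 0, 0), (82, 0, 0, 0, 0), (81, 0, 0, 0, 0), (82, 0, 0, 0, 0), (18, 0, 0, 0, 0), (19, 0, 0, 0, 0), (22, 0, 0, 0, 0), (23, 0, 0, 0, 0), (74, 0, 0, 0, 0), (75, 0, 0, 0, 0), (74, 0, 0, 0, 0), (76,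 0, 0, 0, 0), (6, 0, 0, 0, 0), (134, 0, 0, 0, 0), (6, 0, 0, 0, 0), (7, 0, 0, 0, 0), (134, 0, 0, 0, 0), (7, 0, 0, 0, 0), (12, 0, 0, 0, 0), (135, 0, 0, 0, 0), (12, 0, 0, 0, 0), (13, 0, 0, 0, 0), (135, 0, 0, 0, 0), (13, 0, 0, 0, 0), (99, 0, 0, 0, 0), (100, 0, 0, 0, 0), (101, 0, 0, 0, 0), (100, 0, 0, 0, 0), (77, 0, 0, 0, 0), (78, 0, 0, 0, 0), (77, 0, 0, 0, 0), (79, 0, 0, 0, 0), (8, 0, 0, 0, 0), (136, 0, 0, 0, 0), (8, 0, 0, 0, 0), (9, 0, 0, 0, 0), (136, 0, 0, 0, 0), (9, 0, 0, 0, 0), (14, 0, 0, 0, 0), (137, 0, 0, 0, 0), (14, 0, 0, 0, 0), (15, 0, 0, 0, 0), (137, 0, 0, 0, 0), (15, 0, 0, 0, 0), (91, 0, 0, 0, 0), (92, 0, 0, 0, 0), (93, 0, 0, 0, 0), (92, 0, 0, 0, 0)],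
  [(48, 0, 0, 0, 0), (49, 0, 0, 0, 0), (48, 0, 0, 0, 0), (138, 0, 0, 0, 0), (49, 0, 0, 0, 0), (138, 0, 0, 0, 0), (50, 0, 0, 0, 0), (51, 0, 0, 0, 0), (50, 0, 0, 0, 0), (139, 0, 0, 0, 0), (51, 0, 0, 0, 0), (139, 0, 0, 0, 0), (140, 0, 0, 0, 0), (141, 0, 0, 0, 0), (140, 0, 0, 0, 0), (142, 0, 0, 0, 0), (143, 0, 0, 0, 0), (144, 0, 0, 0, 0), (143, 0, 0, 0, 0), (145, 0, 0, 0, 0), (52, 0, 0, 0, 0), (53, 0, 0, 0, 0), (146, 0, 0, 0, 0), (147, 0, 0, 0, 0), (146, 0, 0, 0, 0), (148, 0, 0, 0, 0), (147, 0, 0, 0, 0), (148, 0, 0, 0, 0), (54, 0, 0, 0, 0), (55, 0, 0, 0, 0), (56, 0, 0, 0, 0), (57, 0, 0, 0, 0), (58, 0, 0, 0, 0), (59, 0, 0, 0, 0), (149, 0, 0, 0, 0), (150, 0, 0, 0, 0), (149, 0, 0, 0, 0), (151, 0, 0, 0, 0), (150, 0, 0, 0, 0), (151, 0, 0, 0, 0), (60, 0, 0, 0, 0), (61, 0, 0, 0, 0), (62, 0, 0, 0, 0), (63, 0, 0, 0, 0), (152, 0, 0, 0, 0), (153, 0,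 0, 0, 0), (152, 0, 0, 0, 0), (154, 0, 0, 0, 0), (64, 0, 0, 0, 0), (155, 0, 0, 0, 0), (64, 0, 0, 0, 0), (65, 0, 0, 0, 0), (155, 0, 0, 0, 0), (65, 0, 0, 0, 0), (66, 0, 0, 0, 0), (156, 0, 0, 0, 0), (66, 0, 0, 0, 0), (67, 0, 0, 0, 0), (156, 0, 0, 0, 0), (67, 0, 0, 0, 0), (157, 0, 0, 0, 0), (158, 0, 0, 0, 0), (159, 0, 0, 0, 0), (158, 0, 0, 0, 0), (160, 0, 0, 0, 0), (161, 0, 0, 0, 0), (160, 0, 0, 0, 0), (162, 0, 0, 0, 0), (68, 0, 0, 0, 0), (163, 0, 0, 0, 0), (68, 0, 0, 0, 0), (69, 0, 0, 0, 0), (163, 0, 0, 0, 0), (69, 0, 0, 0, 0), (70, 0, 0, 0, 0), (164, 0, 0, 0, 0), (70, 0, 0, 0, 0), (71, 0, 0, 0, 0), (164, 0, 0, 0, 0), (71, 0, 0, 0, 0), (165, 0, 0, 0, 0), (166, 0, 0, 0, 0), (167, 0, 0, 0, 0), (166, 0, 0, 0, 0)],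
  [(28, 0, 0, 0, 0), (29, 0, 0, 0, 0), (28, 0, 0, 0, 0), (168, 0, 0, 0, 0), (29, 0, 0, 0, 0), (168, 0, 0, 0, 0), (34, 0, 0, 0, 0), (35, 0, 0, 0, 0), (34, 0, 0, 0, 0), (169, 0, 0, 0, 0), (35, 0, 0, 0, 0), (169, 0, 0, 0, 0), (116, 0, 0, 0, 0), (117, 0, 0, 0, 0), (116, 0, 0, 0, 0), (118, 0, 0, 0, 0), (124, 0, 0, 0, 0), (125, 0, 0, 0, 0), (124, 0, 0, 0, 0), (126, 0, 0, 0, 0), (24, 0, 0, 0, 0), (25, 0, 0, 0, 0), (113, 0, 0, 0, 0), (114, 0, 0, 0, 0), (113, 0, 0, 0, 0), (115, 0, 0, 0, 0), (114, 0, 0, 0, 0), (115, 0, 0, 0, 0), (40, 0, 0, 0, 0), (41, 0, 0, 0, 0), (44, 0, 0, 0, 0), (45, 0, 0, 0, 0), (26, 0, 0, 0, 0), (27, 0, 0, 0, 0), (110, 0, 0, 0, 0), (111, 0, 0, 0, 0), (110, 0, 0, 0, 0), (112, 0, 0, 0, 0), (111, 0, 0, 0, 0), (112, 0, 0, 0, 0), (42, 0, 0, 0, 0), (43, 0, 0, 0, 0), (46, 0, 0, 0, 0), (47, 0, 0, 0, 0), (104, 0, 0, 0, 0), (105, 0,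 0, 0, 0), (104, 0, 0, 0, 0), (106, 0, 0, 0, 0), (30, 0, 0, 0, 0), (170, 0, 0, 0, 0), (30, 0, 0, 0, 0), (31, 0, 0, 0, 0), (170, 0, 0, 0, 0), (31, 0, 0, 0, 0), (36, 0, 0, 0, 0), (171, 0, 0, 0, 0), (36, 0, 0, 0, 0), (37, 0, 0, 0, 0), (171, 0, 0, 0, 0), (37, 0, 0, 0, 0), (129, 0, 0, 0, 0), (130, 0, 0, 0, 0), (131, 0, 0, 0, 0), (130, 0, 0, 0, 0), (107, 0, 0, 0, 0), (108, 0, 0, 0, 0), (107, 0, 0, 0, 0), (109, 0, 0, 0, 0), (32, 0, 0, 0, 0), (172, 0, 0, 0, 0), (32, 0, 0, 0, 0), (33, 0, 0, 0, 0), (172, 0, 0, 0, 0), (33, 0, 0, 0, 0), (38, 0, 0, 0, 0), (173, 0, 0, 0, 0), (38, 0, 0, 0, 0), (39, 0, 0, 0, 0), (173, 0, 0, 0, 0), (39, 0, 0, 0, 0), (121, 0, 0, 0, 0), (122, 0, 0, 0, 0), (123, 0, 0, 0, 0), (122, 0, 0, 0, 0)],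
  [(52, 0, 0, 0, 0), (53, 0, 0, 0, 0), (52, 0, 0, 0, 0), (174, 0, 0, 0, 0), (53, 0, 0, 0, 0), (174, 0, 0, 0, 0), (58, 0, 0, 0, 0), (59, 0, 0, 0, 0), (58, 0, 0, 0, 0), (175, 0, 0, 0, 0), (59, 0, 0, 0, 0), (175, 0, 0, 0, 0), (152, 0, 0, 0, 0), (153, 0, 0, 0, 0), (152, 0, 0, 0, 0), (154, 0, 0, 0, 0), (160, 0, 0, 0, 0), (161, 0, 0, 0, 0), (160, 0, 0, 0, 0), (162, 0, 0, 0, 0), (48, 0, 0, 0, 0), (49, 0, 0, 0, 0), (149, 0, 0, 0, 0), (150, 0, 0, 0, 0), (149, 0, 0, 0, 0), (151, 0, 0, 0, 0), (150, 0, 0, 0, 0), (151, 0, 0, 0, 0), (64, 0, 0, 0, 0), (65, 0, 0, 0, 0), (68, 0, 0, 0, 0), (69, 0, 0, 0, 0), (50, 0, 0, 0, 0), (51, 0, 0, 0, 0), (146, 0, 0, 0, 0), (147, 0, 0, 0, 0), (146, 0, 0, 0, 0), (148, 0, 0, 0, 0), (147, 0, 0, 0, 0), (148, 0, 0, 0, 0), (66, 0, 0, 0, 0), (67, 0, 0, 0, 0), (70, 0, 0, 0, 0), (71, 0, 0, 0, 0), (140, 0, 0, 0, 0), (141, 0,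 0, 0, 0), (140, 0, 0, 0, 0), (142, 0, 0, 0, 0), (54, 0, 0, 0, 0), (176, 0, 0, 0, 0), (54, 0, 0, 0, 0), (55, 0, 0, 0, 0), (176, 0, 0, 0, 0), (55, 0, 0, 0, 0), (60, 0, 0, 0, 0), (177, 0, 0, 0, 0), (60, 0, 0, 0, 0), (61, 0, 0, 0, 0), (177, 0, 0, 0, 0), (61, 0, 0, 0, 0), (165, 0, 0, 0, 0), (166, 0, 0, 0, 0), (167, 0, 0, 0, 0), (166, 0, 0, 0, 0), (143, 0, 0, 0, 0), (144, 0, 0, 0, 0), (143, 0, 0, 0, 0), (145, 0, 0, 0, 0), (56, 0, 0, 0, 0), (178, 0, 0, 0, 0), (56, 0, 0, 0, 0), (57, 0, 0, 0, 0), (178, 0, 0, 0, 0), (57, 0, 0, 0, 0), (62, 0, 0, 0, 0), (179, 0, 0, 0, 0), (62, 0, 0, 0, 0), (63, 0, 0, 0, 0), (179, 0, 0, 0, 0), (63, 0, 0, 0, 0), (157, 0, 0, 0, 0), (158, 0, 0, 0, 0), (159, 0, 0, 0, 0), (158, 0, 0, 0, 0)]]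

theorem tr29 : trK keys lk29 kl29 = true := by
  decide +kernel

theorem x29_0 : expB 3 5 dg1 dg7 m29_0 (l29_0 ++ z29_0) w29_0 = true := by
  decide +kernel

theorem t29_0_0 : chkS lk29 3 5 [(1, m29_0)] l29_0
  [(13, 33, 258, 103026771, 101975346), (17, 528, 528, 34891056, 52696656), (16, 528, 528, 34887216, 36968016), (20, 528, 528, 34891056, 52696656), (14, 33, 258, 87298146, 23351346), (23, 33, 258, 88215651, 23397426), (21, 18, 18, 55840866, 22306866), (5, 18, 18, 54599781, 17130306), (5, 33, 258, 70586466, 21385266), (7, 33, 258, 69537891, 21366066), (21, 33, 258, 55836966, 5529891), (27, 33, 258, 72552486, 5652786), (31, 528, 528, 51733056, 54616656), (29, 528, 528, 50684481, 54616581), (29, 33, 258, 73732131, 88473906), (22, 33, 258, 56951076, 88105251), (16, 513, 513, 34891011, 52692561), (6, 33, 258, 55648326, 5333826), (31,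 528, 528, 51717696, 37839696), (29, 528, 528, 50669121, 37839621), (6, 33, 258, 87429186, 73486386), (8, 33, 258, 86380611, 73467186), (29, 18, 18, 73732146, 88477746), (20, 18, 18, 55836966, 5529891), (18, 528, 528, 34891056, 52696656), (19, 528, 528, 34891056, 52696656), (15, 528, 528, 34891056, 52696656), (4, 33, 258, 40177731, 88147506), (25, 18, 18, 55840866, 22306866), (26, 18, 18, 55840866, 22306866), (21, 18, 18, 40108371, 85198371), (10, 528, 528, 33965361, 69408261), (27, 18, 18, 40046676, 84952626), (0, 528, 528, 19162371, 52692321), (21, 513, 513, 101983491, 103023441), (5, 513, 513, 102847491, 103941441), (1, 513, 513, 101926146, 102973521), (2, 33, 258, 40173891, 88147491), (3, 513, 513, 101929986, 103956561), (10, 33, 258, 5317446, 5317446), (30, 513, 513, 85221891, 56885841), (28, 258, 33, 102842421, 100865346), (1, 513,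 513, 101929986, 103956561), (2, 33, 258, 40177731, 88147506), (28, 18, 18, 40177716, 88086066), (24, 18, 18, 39063606, 5510706), (2, 513, 513, 101929986, 103956561), (12, 513, 513, 85337091, 73532241), (25, 33, 258, 55840806, 5529906), (26, 33, 258, 55840806, 5529906), (21, 33, 258, 40112181, 84153906), (5, 18, 18, 40177731, 88147506), (18, 513, 513, 34891011, 52692561), (19, 513, 513, 34891011, 52692561), (15, 528, 528, 101995056, 104075856), (12, 513, 513, 35013891, 69404241), (12, 258, 33, 19096836, 52446561), (11, 33, 258, 38998086, 5326386), (30, 528, 528, 85206576, 40112976), (9, 18, 18, 56954946, 88170546), (1, 528, 528, 101926176, 102973776), (3, 18, 18, 40173891, 88147491), (3, 528, 528, 101930016, 103956816), (9, 528, 528, 67446321, 38146821), (21, 528, 528, 101995056, 104075856), (27, 528, 528, 100880961, 103891461), (1, 528,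 528, 101930016, 103956816), (3, 18, 18, 40177731, 88147506), (10, 258, 33, 2188596, 52434246), (0, 258, 33, 34825476, 52446801), (2, 528, 528, 101930016, 103956816), (10, 528, 528, 84288561, 73536261)]
  [(0, -720), (1, -1440), (2, 1440), (3, 1440), (4, -360), (6, 720), (7, -360), (8, -360), (9, -720), (11, -360), (12, 360), (13, 360), (14, 360), (17, -360), (18, 720), (19, -720), (20, -720), (22, -360), (23, -360), (24, -360), (25, 720), (26, -720), (27, 360), (28, 720), (29, 1440), (31, -720)] = true := by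
  decide +kernel

section

variable {κ ι : Type*} [Fintype κ] [Fintype ι] [Inhabited κ] [Inhabited ι]

noncomputable def F29_0 (E : Env κ ι) : (Fin 3 → κ) → (Fin 5 → ι) → ℝ := op2 (P1 κ) (P7 ι) (fB E 3 5 m29_0)

def r29_0_0 : List (ℕ × ℤ) := [(0, -720), (1, -1440), (2, 1440), (3, 1440), (4, -360), (6, 720), (7, -360), (8, -360), (9, -720), (11, -360), (12, 360), (13, 360), (14, 360), (17, -360), (18, 720), (19, -720), (20, -720), (22, -360), (23, -360), (24, -360), (25, 720), (26, -720), (27, 360), (28, 720), (29, 1440), (31, -720)]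

theorem h29_0_0 (E : Env κ ι) : ip (F29_0 E) (F29_0 E) = dotS (ek E lk29) r29_0_0 :=
  op_entryZ E lk29 3 5 _ _ _ _ (pg1 κ) (pg7 ι) m29_0 m29_0 l29_0 z29_0 w29_0 x29_0 (by decide) _ (chkS_sound E lk29 3 5 _ _ _ _ t29_0_0)

theorem row29_0 (E : Env κ ι) : RowG (ek E lk29) (F29_0 E) [F29_0 E] [r29_0_0] :=
  rowG_cons _ _ _ _ _ _ (h29_0_0 E) (rowG_nil _ _)

def tab29 : List (List (List (ℕ × ℤ))) := [[r29_0_0]]

theorem tri29 (E : Env κ ι) : TriG (ek E lk29) [F29_0 E] tab29 := by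
  refine triG_cons _ _ _ _ _ (row29_0 E) ?_
  exact triG_nil _

end

def lk30 : List Key := [
  (3, 7, [(0, [0], [0, 1]), (0, [0], [0, 1]), (0, [1], [2, 3]), (0, [1], [2, 3]), (0, [2], [4, 5]), (0, [2], [4, 6]), (4, [], [6]), (4, [], [5])]),
  (3, 7, [(0, [0], [0, 1]), (0, [0], [0, 1]), (0, [1], [2, 3]), (0, [2], [2, 4]), (0, [2], [5, 6]), (0, [1], [5, 6]), (4, [], [4]), (4, [], [3])]),
  (3, 7, [(0, [0], [0, 1]), (0, [1], [0, 2]), (0, [0], [2, 3]), (0, [2], [1, 4]), (0, [1], [5, 6]), (0, [2], [5, 6]), (4, [], [3]), (4, [], [4])]),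
  (3, 7, [(0, [0], [0, 1]), (0, [1], [0, 2]), (0, [0], [3, 4]), (0, [1], [3, 4]), (0, [2], [1, 5]), (0, [2], [5, 6]), (4, [], [2]), (4, [], [6])]),
  (3, 7, [(0, [0], [0, 1]), (0, [0], [0, 2]), (0, [1], [1, 2]), (4, [], [3]), (0, [2], [4, 5]), (0, [2], [4, 6]), (0, [1], [5, 6]), (4, [], [3])]),
  (3, 7, [(0, [0], [0, 1]), (0, [0], [0, 2]), (0, [1], [1, 2]), (4, [], [3]), (0, [2], [4, 5]), (0, [2], [4, 6]), (0, [1], [3, 6]), (4, [], [5])]),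
  (3, 7, [(0, [0], [0, 1]), (0, [0], [0, 2]), (0, [1], [1, 2]), (4, [], [3]), (0, [2], [4, 5]), (0, [2], [4, 5]), (0, [1], [3, 6]), (4, [], [6])]),
  (3, 7, [(0, [0], [0, 1]), (0, [0], [0, 2]), (0, [1], [1, 2]), (4, [], [3]), (0, [2], [4, 5]), (0, [2], [3, 6]), (0, [1], [4, 6]), (4, [], [5])]),
  (3, 7, [(0, [0], [0, 1]), (0, [0], [0, 2]), (0, [1], [1, 2]), (4, [], [3]), (0, [2], [4, 5]), (0, [2], [3, 6]), (0, [1], [4, 5]), (4, [], [6])]),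
  (3, 7, [(0, [0], [0, 1]), (0, [0], [0, 2]), (0, [1], [3, 2]), (4, [], [1]), (0, [2], [4, 5]), (0, [2], [4, 6]), (0, [1], [3, 6]), (4, [], [5])]),
  (3, 7, [(0, [0], [0, 1]), (0, [0], [0, 2]), (0, [1], [3, 2]), (4, [], [1]), (0, [2], [4, 5]), (0, [2], [4, 5]), (0, [1], [3, 6]), (4, [], [6])]),
  (3, 7, [(0, [0], [0, 1]), (0, [0], [0, 2]), (0, [1], [3, 2]), (4, [], [1]), (0, [2], [4, 5]), (0, [2], [3, 6]), (0, [1], [4, 6]), (4, [], [5])]),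
  (3, 7, [(0, [0], [0, 1]), (0, [0], [0, 2]), (0, [1], [3, 2]), (4, [], [1]), (0, [2], [4, 5]), (0, [2], [3, 4]), (0, [1], [5, 6]), (4, [], [6])]),
  (3, 7, [(0, [0], [0, 1]), (0, [0], [0, 1]), (0, [1], [2, 3]), (4, [], [3]), (0, [2], [4, 5]), (0, [2], [2, 6]), (0, [1], [4, 6]), (4, [], [5])]),
  (3, 7, [(0, [0], [0, 1]), (0, [0], [0, 1]), (0, [1], [2, 3]), (4, [], [3]), (0, [2], [4, 5]), (0, [2], [2, 4]), (0, [1], [5, 6]), (4, [], [6])]),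
  (3, 7, [(0, [0], [0, 1]), (0, [0], [2, 3]), (0, [1], [0, 3]), (4, [], [1]), (0, [2], [4, 5]), (0, [2], [2, 6]), (0, [1], [4, 6]), (4, [], [5])]),
  (3, 7, [(0, [0], [0, 1]), (0, [0], [2, 3]), (0, [1], [0, 3]), (4, [], [1]), (0, [2], [4, 5]), (0, [2], [2, 4]), (0, [1], [5, 6]), (4, [], [6])]),
  (3, 7, [(0, [0], [0, 1]), (0, [0], [2, 3]), (0, [1], [0, 1]), (4, [], [3]), (0, [2], [4, 5]), (0, [2], [2, 6]), (0, [1], [4, 5]), (4, [], [6])]),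
  (3, 7, [(0, [0], [0, 1]), (0, [0], [2, 3]), (0, [1], [0, 1]), (4, [], [3]), (0, [2], [4, 5]), (0, [2], [2, 4]), (0, [1], [5, 6]), (4, [], [6])]),
  (3, 7, [(0, [0], [0, 1]), (0, [0], [2, 0]), (0, [1], [1, 3]), (4, [], [3]), (0, [2], [4, 5]), (0, [2], [2, 4]), (0, [1], [5, 6]), (4, [], [6])]),
  (3, 7, [(0, [0], [0, 1]), (0, [0], [0, 1]), (0, [1], [2, 3]), (4, [], [4]), (0, [2], [5, 6]), (0, [2], [2, 5]), (0, [1], [3, 6]), (4, [], [4])]),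
  (3, 7, [(0, [0], [0, 1]), (0, [0], [0, 1]), (0, [1], [2, 3]), (4, [], [4]), (0, [2], [2, 5]), (0, [2], [3, 6]), (0, [1], [5, 6]), (4, [], [4])]),
  (3, 7, [(0, [0], [0, 1]), (0, [0], [2, 0]), (0, [1], [3, 1]), (4, [], [4]), (0, [2], [5, 6]), (0, [2], [2, 5]), (0, [1], [3, 6]), (4, [], [4])]),
  (3, 7, [(0, [0], [0, 1]), (0, [0], [2, 0]), (0, [1], [3, 1]), (4, [], [4]), (0, [2], [5, 6]), (0, [2], [3, 5]), (0, [1], [2, 6]), (4, [], [4])]),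
  (3, 7, [(0, [0], [0, 1]), (0, [0], [2, 0]), (0, [1], [3, 1]), (4, [], [4]), (0, [2], [5, 6]), (0, [2], [4, 5]), (0, [1], [2, 3]), (4, [], [6])]),
  (3, 7, [(0, [0], [0, 1]), (0, [0], [2, 0]), (0, [1], [3, 1]), (4, [], [4]), (0, [2], [5, 6]), (0, [2], [2, 3]), (0, [1], [5, 6]), (4, [], [4])]),
  (3, 7, [(0, [0], [0, 1]), (0, [0], [2, 0]), (0, [1], [3, 1]), (4, [], [4]), (0, [2], [5, 6]), (0, [2], [2, 3]), (0, [1], [4, 5]), (4, [], [6])]),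
  (3, 7, [(0, [0], [0, 1]), (0, [0], [2, 0]), (0, [1], [3, 1]), (4, [], [4]), (0, [2], [5, 6]), (0, [2], [3, 4]), (0, [1], [2, 5]), (4, [], [6])]),
  (3, 7, [(0, [0], [0, 1]), (0, [0], [2, 0]), (0, [1], [3, 1]), (4, [], [4]), (0, [2], [2, 5]), (0, [2], [3, 6]), (0, [1], [5, 6]), (4, [], [4])]),
  (3, 7, [(0, [0], [0, 1]), (0, [0], [2, 0]), (0, [1], [3, 1]), (4, [], [4]), (0, [2], [3, 5]), (0, [2], [2, 6]), (0, [1], [4, 6]), (4, [], [5])]),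
  (3, 7, [(0, [0], [0, 1]), (0, [0], [2, 0]), (0, [1], [3, 1]), (4, [], [4]), (0, [2], [4, 5]), (0, [2], [2, 6]), (0, [1], [3, 6]), (4, [], [5])]),
  (3, 7, [(0, [0], [0, 1]), (0, [0], [2, 0]), (0, [1], [3, 1]), (4, [], [4]), (0, [2], [4, 5]), (0, [2], [3, 6]), (0, [1], [2, 6]), (4, [], [5])]),
  (3, 7, [(0, [0], [0, 1]), (0, [0], [2, 0]), (0, [1], [3, 4]), (4, [], [1]), (0, [2], [5, 6]), (0, [2], [3, 4]), (0, [1], [5, 6]), (4, [], [2])]),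
  (3, 7, [(0, [0], [0, 1]), (0, [0], [2, 0]), (0, [1], [3, 4]), (4, [], [1]), (0, [2], [3, 5]), (0, [2], [4, 6]), (0, [1], [5, 6]), (4, [], [2])]),
  (3, 7, [(0, [0], [0, 1]), (0, [0], [2, 3]), (0, [1], [0, 1]), (4, [], [4]), (0, [2], [5, 6]), (0, [2], [2, 4]), (0, [1], [3, 5]), (4, [], [6])]),
  (3, 7, [(0, [0], [0, 1]), (0, [0], [2, 3]), (0, [1], [0, 1]), (4, [], [4]), (0, [2], [2, 5]), (0, [2], [3, 6]), (0, [1], [5, 6]), (4, [], [4])]),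
  (3, 7, [(0, [0], [0, 1]), (0, [0], [2, 3]), (0, [1], [0, 1]), (4, [], [4]), (0, [2], [4, 5]), (0, [2], [2, 6]), (0, [1], [3, 6]), (4, [], [5])]),
  (3, 7, [(0, [0], [0, 1]), (0, [0], [2, 3]), (0, [1], [4, 0]), (4, [], [1]), (0, [2], [5, 6]), (0, [2], [2, 4]), (0, [1], [3, 5]), (4, [], [6])]),
  (3, 7, [(0, [0], [0, 1]), (0, [0], [2, 3]), (0, [1], [4, 0]), (4, [], [1]), (0, [2], [2, 5]), (0, [2], [3, 6]), (0, [1], [5, 6]), (4, [], [4])]),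
  (3, 7, [(0, [0], [0, 1]), (0, [0], [2, 3]), (0, [1], [4, 0]), (4, [], [1]), (0, [2], [2, 5]), (0, [2], [4, 6]), (0, [1], [5, 6]), (4, [], [3])]),
  (3, 7, [(0, [0], [0, 1]), (0, [0], [2, 3]), (0, [1], [4, 0]), (4, [], [1]), (0, [2], [2, 5]), (0, [2], [4, 6]), (0, [1], [3, 6]), (4, [], [5])]),
  (3, 7, [(0, [0], [0, 1]), (0, [0], [2, 3]), (0, [1], [4, 0]), (4, [], [1]), (0, [2], [4, 5]), (0, [2], [2, 6]), (0, [1], [3, 6]), (4, [], [5])]),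
  (3, 7, [(0, [0], [0, 1]), (0, [0], [2, 3]), (0, [1], [1, 3]), (4, [], [4]), (0, [2], [0, 5]), (0, [2], [2, 6]), (0, [1], [5, 6]), (4, [], [4])]),
  (3, 7, [(0, [0], [0, 1]), (0, [0], [2, 3]), (0, [1], [1, 3]), (4, [], [4]), (0, [2], [4, 5]), (0, [2], [0, 6]), (0, [1], [2, 6]), (4, [], [5])]),
  (3, 7, [(0, [0], [0, 1]), (0, [0], [2, 3]), (0, [1], [4, 1]), (4, [], [5]), (0, [2], [2, 6]), (0, [2], [0, 4]), (0, [1], [3, 6]), (4, [], [5])])]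

def kl30 : List ℕ := [13, 14, 57, 58, 94, 95, 96, 97, 98, 109, 110, 111, 112, 119, 120, 125, 126, 132, 133, 144, 204, 206, 216, 217, 218, 219, 220, 221, 222, 223, 224, 225, 252, 253, 267, 268, 269, 284, 285, 286, 287, 288, 302, 303, 430]

def m30_0 : Base := (0, 1, [(0, [0], [0, 5]), (0, [1], [1, 5]), (0, [2], [2, 3]), (4, [], [4])])

def l30_0 : Cov := [(216, 0, 1, [(0, [0], [0, 5]), (0, [1], [1, 5]), (0, [2], [2, 3]), (4, [], [4])]),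
  (-216, 0, 1, [(0, [0], [0, 5]), (0, [1], [1, 5]), (0, [2], [2, 4]), (4, [], [3])]),
  (216, 0, 1, [(0, [0], [0, 5]), (0, [1], [2, 5]), (0, [2], [1, 3]), (4, [], [4])]),
  (-216, 0, 1, [(0, [0], [0, 5]), (0, [1], [2, 5]), (0, [2], [1, 4]), (4, [], [3])]),
  (48, 0, 1, [(0, [0], [0, 5]), (0, [1], [3, 5]), (0, [2], [1, 2]), (4, [], [4])]),
  (-24, 0, 1, [(0, [0], [0, 5]), (0, [1], [3, 5]), (0, [2], [1, 4]), (4, [], [2])]),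
  (-24, 0, 1, [(0, [0], [0, 5]), (0, [1], [3, 5]), (0, [2], [2, 4]), (4, [], [1])]),
  (-48, 0, 1, [(0, [0], [0, 5]), (0, [1], [4, 5]), (0, [2], [1, 2]), (4, [], [3])]),
  (24, 0, 1, [(0, [0], [0, 5]), (0, [1], [4, 5]), (0, [2], [1, 3]), (4, [], [2])]),
  (24, 0, 1, [(0, [0], [0, 5]), (0, [1], [4, 5]), (0, [2], [2, 3]), (4, [], [1])]),
  (144, 0, 1, [(0, [0], [1, 5]), (0, [1], [0, 5]), (0, [2], [2, 3]), (4, [], [4])]),
  (-144, 0, 1, [(0, [0], [1, 5]), (0, [1], [0, 5]), (0, [2], [2, 4]), (4, [], [3])]),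
  (-144, 0, 1, [(0, [0], [1, 5]), (0, [1], [3, 5]), (0, [2], [2, 0]), (4, [], [4])]),
  (144, 0, 1, [(0, [0], [1, 5]), (0, [1], [3, 5]), (0, [2], [2, 4]), (4, [], [0])]),
  (144, 0, 1, [(0, [0], [1, 5]), (0, [1], [4, 5]), (0, [2], [2, 0]), (4, [], [3])]),
  (-144, 0, 1, [(0, [0], [1, 5]), (0, [1], [4, 5]), (0, [2], [2, 3]), (4, [], [0])]),
  (144, 0, 1, [(0, [0], [2, 5]), (0, [1], [0, 5]), (0, [2], [1, 3]), (4, [], [4])]),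
  (-144, 0, 1, [(0, [0], [2, 5]), (0, [1], [0, 5]), (0, [2], [1, 4]), (4, [], [3])]),
  (-144, 0, 1, [(0, [0], [2, 5]), (0, [1], [3, 5]), (0, [2], [1, 0]), (4, [], [4])]),
  (144, 0, 1, [(0, [0], [2, 5]), (0, [1], [3, 5]), (0, [2], [1, 4]), (4, [], [0])]),
  (144, 0, 1, [(0, [0], [2, 5]), (0, [1], [4, 5]), (0, [2], [1, 0]), (4, [], [3])]),
  (-144, 0, 1, [(0, [0], [2, 5]), (0, [1], [4, 5]), (0, [2], [1, 3]), (4, [], [0])]),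
  (-48, 0, 1, [(0, [0], [3, 5]), (0, [1], [0, 5]), (0, [2], [1, 2]), (4, [], [4])]),
  (24, 0, 1, [(0, [0], [3, 5]), (0, [1], [0, 5]), (0, [2], [1, 4]), (4, [], [2])]),
  (24, 0, 1, [(0, [0], [3, 5]), (0, [1], [0, 5]), (0, [2], [2, 4]), (4, [], [1])]),
  (-216, 0, 1, [(0, [0], [3, 5]), (0, [1], [1, 5]), (0, [2], [0, 2]), (4, [], [4])]),
  (216, 0, 1, [(0, [0], [3, 5]), (0, [1], [1, 5]), (0, [2], [2, 4]), (4, [], [0])]),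
  (-216, 0, 1, [(0, [0], [3, 5]), (0, [1], [2, 5]), (0, [2], [0, 1]), (4, [], [4])]),
  (216, 0, 1, [(0, [0], [3, 5]), (0, [1], [2, 5]), (0, [2], [1, 4]), (4, [], [0])]),
  (-24, 0, 1, [(0, [0], [3, 5]), (0, [1], [4, 5]), (0, [2], [1, 0]), (4, [], [2])]),
  (48, 0, 1, [(0, [0], [3, 5]), (0, [1], [4, 5]), (0, [2], [1, 2]), (4, [], [0])]),
  (-24, 0, 1, [(0, [0], [3, 5]), (0, [1], [4, 5]), (0, [2], [2, 0]), (4, [], [1])]),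
  (48, 0, 1, [(0, [0], [4, 5]), (0, [1], [0, 5]), (0, [2], [1, 2]), (4, [], [3])]),
  (-24, 0, 1, [(0, [0], [4, 5]), (0, [1], [0, 5]), (0, [2], [1, 3]), (4, [], [2])]),
  (-24, 0, 1, [(0, [0], [4, 5]), (0, [1], [0, 5]), (0, [2], [2, 3]), (4, [], [1])]),
  (216, 0, 1, [(0, [0], [4, 5]), (0, [1], [1, 5]), (0, [2], [0, 2]), (4, [], [3])]),
  (-216, 0, 1, [(0, [0], [4, 5]), (0, [1], [1, 5]), (0, [2], [2, 3]), (4, [], [0])]),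
  (216, 0, 1, [(0, [0], [4, 5]), (0, [1], [2, 5]), (0, [2], [0, 1]), (4, [], [3])]),
  (-216, 0, 1, [(0, [0], [4, 5]), (0, [1], [2, 5]), (0, [2], [1, 3]), (4, [], [0])]),
  (24, 0, 1, [(0, [0], [4, 5]), (0, [1], [3, 5]), (0, [2], [1, 0]), (4, [], [2])]),
  (-48, 0, 1, [(0, [0], [4, 5]), (0, [1], [3, 5]), (0, [2], [1, 2]), (4, [], [0])]),
  (24, 0, 1, [(0, [0], [4, 5]), (0, [1], [3, 5]), (0, [2], [2, 0]), (4, [], [1])]),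
  (72, 0, 1, [(0, [0], [0, 5]), (0, [2], [1, 5]), (0, [1], [2, 3]), (4, [], [4])]),
  (-72, 0, 1, [(0, [0], [0, 5]), (0, [2], [1, 5]), (0, [1], [2, 4]), (4, [], [3])]),
  (72, 0, 1, [(0, [0], [0, 5]), (0, [2], [2, 5]), (0, [1], [1, 3]), (4, [], [4])]),
  (-72, 0, 1, [(0, [0], [0, 5]), (0, [2], [2, 5]), (0, [1], [1, 4]), (4, [], [3])]),
  (96, 0, 1, [(0, [0], [0, 5]), (0, [2], [3, 5]), (0, [1], [1, 2]), (4, [], [4])]),
  (-48, 0, 1, [(0, [0], [0, 5]), (0, [2], [3, 5]), (0, [1], [1, 4]), (4, [], [2])]),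
  (-48, 0, 1, [(0, [0], [0, 5]), (0, [2], [3, 5]), (0, [1], [2, 4]), (4, [], [1])]),
  (-96, 0, 1, [(0, [0], [0, 5]), (0, [2], [4, 5]), (0, [1], [1, 2]), (4, [], [3])]),
  (48, 0, 1, [(0, [0], [0, 5]), (0, [2], [4, 5]), (0, [1], [1, 3]), (4, [], [2])]),
  (48, 0, 1, [(0, [0], [0, 5]), (0, [2], [4, 5]), (0, [1], [2, 3]), (4, [], [1])]),
  (-72, 0, 1, [(0, [0], [1, 5]), (0, [2], [0, 5]), (0, [1], [2, 3]), (4, [], [4])]),
  (72, 0, 1, [(0, [0], [1, 5]), (0, [2], [0, 5]), (0, [1], [2, 4]), (4, [], [3])]),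
  (72, 0, 1, [(0, [0], [1, 5]), (0, [2], [3, 5]), (0, [1], [2, 0]), (4, [], [4])]),
  (-72, 0, 1, [(0, [0], [1, 5]), (0, [2], [3, 5]), (0, [1], [2, 4]), (4, [], [0])]),
  (-72, 0, 1, [(0, [0], [1, 5]), (0, [2], [4, 5]), (0, [1], [2, 0]), (4, [], [3])]),
  (72, 0, 1, [(0, [0], [1, 5]), (0, [2], [4, 5]), (0, [1], [2, 3]), (4, [], [0])]),
  (-72, 0, 1, [(0, [0], [2, 5]), (0, [2], [0, 5]), (0, [1], [1, 3]), (4, [], [4])]),
  (72, 0, 1, [(0, [0], [2, 5]), (0, [2], [0, 5]), (0, [1], [1, 4]), (4, [], [3])]),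
  (72, 0, 1, [(0, [0], [2, 5]), (0, [2], [3, 5]), (0, [1], [1, 0]), (4, [], [4])]),
  (-72, 0, 1, [(0, [0], [2, 5]), (0, [2], [3, 5]), (0, [1], [1, 4]), (4, [], [0])]),
  (-72, 0, 1, [(0, [0], [2, 5]), (0, [2], [4, 5]), (0, [1], [1, 0]), (4, [], [3])]),
  (72, 0, 1, [(0, [0], [2, 5]), (0, [2], [4, 5]), (0, [1], [1, 3]), (4, [], [0])]),
  (-96, 0, 1, [(0, [0], [3, 5]), (0, [2], [0, 5]), (0, [1], [1, 2]), (4, [], [4])]),
  (48, 0, 1, [(0, [0], [3, 5]), (0, [2], [0, 5]), (0, [1], [1, 4]), (4, [], [2])]),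
  (48, 0, 1, [(0, [0], [3, 5]), (0, [2], [0, 5]), (0, [1], [2, 4]), (4, [], [1])]),
  (-72, 0, 1, [(0, [0], [3, 5]), (0, [2], [1, 5]), (0, [1], [0, 2]), (4, [], [4])]),
  (72, 0, 1, [(0, [0], [3, 5]), (0, [2], [1, 5]), (0, [1], [2, 4]), (4, [], [0])]),
  (-72, 0, 1, [(0, [0], [3, 5]), (0, [2], [2, 5]), (0, [1], [0, 1]), (4, [], [4])]),
  (72, 0, 1, [(0, [0], [3, 5]), (0, [2], [2, 5]), (0, [1], [1, 4]), (4, [], [0])]),
  (-48, 0, 1, [(0, [0], [3, 5]), (0, [2], [4, 5]), (0, [1], [1, 0]), (4, [], [2])]),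
  (96, 0, 1, [(0, [0], [3, 5]), (0, [2], [4, 5]), (0, [1], [1, 2]), (4, [], [0])]),
  (-48, 0, 1, [(0, [0], [3, 5]), (0, [2], [4, 5]), (0, [1], [2, 0]), (4, [], [1])]),
  (96, 0, 1, [(0, [0], [4, 5]), (0, [2], [0, 5]), (0, [1], [1, 2]), (4, [], [3])]),
  (-48, 0, 1, [(0, [0], [4, 5]), (0, [2], [0, 5]), (0, [1], [1, 3]), (4, [], [2])]),
  (-48, 0, 1, [(0, [0], [4, 5]), (0, [2], [0, 5]), (0, [1], [2, 3]), (4, [], [1])]),
  (72, 0, 1, [(0, [0], [4, 5]), (0, [2], [1, 5]), (0, [1], [0, 2]), (4, [], [3])]),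
  (-72, 0, 1, [(0, [0], [4, 5]), (0, [2], [1, 5]), (0, [1], [2, 3]), (4, [], [0])]),
  (72, 0, 1, [(0, [0], [4, 5]), (0, [2], [2, 5]), (0, [1], [0, 1]), (4, [], [3])]),
  (-72, 0, 1, [(0, [0], [4, 5]), (0, [2], [2, 5]), (0, [1], [1, 3]), (4, [], [0])]),
  (48, 0, 1, [(0, [0], [4, 5]), (0, [2], [3, 5]), (0, [1], [1, 0]), (4, [], [2])]),
  (-96, 0, 1, [(0, [0], [4, 5]), (0, [2], [3, 5]), (0, [1], [1, 2]), (4, [], [0])]),
  (48, 0, 1, [(0, [0], [4, 5]), (0, [2], [3, 5]), (0, [1], [2, 0]), (4, [], [1])]),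
  (-144, 0, 1, [(0, [1], [0, 5]), (0, [2], [1, 5]), (0, [0], [2, 3]), (4, [], [4])]),
  (144, 0, 1, [(0, [1], [0, 5]), (0, [2], [1, 5]), (0, [0], [2, 4]), (4, [], [3])]),
  (-144, 0, 1, [(0, [1], [0, 5]), (0, [2], [2, 5]), (0, [0], [1, 3]), (4, [], [4])]),
  (144, 0, 1, [(0, [1], [0, 5]), (0, [2], [2, 5]), (0, [0], [1, 4]), (4, [], [3])]),
  (48, 0, 1, [(0, [1], [0, 5]), (0, [2], [3, 5]), (0, [0], [1, 2]), (4, [], [4])]),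
  (-24, 0, 1, [(0, [1], [0, 5]), (0, [2], [3, 5]), (0, [0], [1, 4]), (4, [], [2])]),
  (-24, 0, 1, [(0, [1], [0, 5]), (0, [2], [3, 5]), (0, [0], [2, 4]), (4, [], [1])]),
  (-48, 0, 1, [(0, [1], [0, 5]), (0, [2], [4, 5]), (0, [0], [1, 2]), (4, [], [3])]),
  (24, 0, 1, [(0, [1], [0, 5]), (0, [2], [4, 5]), (0, [0], [1, 3]), (4, [], [2])]),
  (24, 0, 1, [(0, [1], [0, 5]), (0, [2], [4, 5]), (0, [0], [2, 3]), (4, [], [1])]),
  (-216, 0, 1, [(0, [1], [1, 5]), (0, [2], [0, 5]), (0, [0], [2, 3]), (4, [], [4])]),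
  (216, 0, 1, [(0, [1], [1, 5]), (0, [2], [0, 5]), (0, [0], [2, 4]), (4, [], [3])]),
  (216, 0, 1, [(0, [1], [1, 5]), (0, [2], [3, 5]), (0, [0], [2, 0]), (4, [], [4])]),
  (-216, 0, 1, [(0, [1], [1, 5]), (0, [2], [3, 5]), (0, [0], [2, 4]), (4, [], [0])]),
  (-216, 0, 1, [(0, [1], [1, 5]), (0, [2], [4, 5]), (0, [0], [2, 0]), (4, [], [3])]),
  (216, 0, 1, [(0, [1], [1, 5]), (0, [2], [4, 5]), (0, [0], [2, 3]), (4, [], [0])]),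
  (-216, 0, 1, [(0, [1], [2, 5]), (0, [2], [0, 5]), (0, [0], [1, 3]), (4, [], [4])]),
  (216, 0, 1, [(0, [1], [2, 5]), (0, [2], [0, 5]), (0, [0], [1, 4]), (4, [], [3])]),
  (216, 0, 1, [(0, [1], [2, 5]), (0, [2], [3, 5]), (0, [0], [1, 0]), (4, [], [4])]),
  (-216, 0, 1, [(0, [1], [2, 5]), (0, [2], [3, 5]), (0, [0], [1, 4]), (4, [], [0])]),
  (-216, 0, 1, [(0, [1], [2, 5]), (0, [2], [4, 5]), (0, [0], [1, 0]), (4, [], [3])]),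
  (216, 0, 1, [(0, [1], [2, 5]), (0, [2], [4, 5]), (0, [0], [1, 3]), (4, [], [0])]),
  (-48, 0, 1, [(0, [1], [3, 5]), (0, [2], [0, 5]), (0, [0], [1, 2]), (4, [], [4])]),
  (24, 0, 1, [(0, [1], [3, 5]), (0, [2], [0, 5]), (0, [0], [1, 4]), (4, [], [2])]),
  (24, 0, 1, [(0, [1], [3, 5]), (0, [2], [0, 5]), (0, [0], [2, 4]), (4, [], [1])]),
  (144, 0, 1, [(0, [1], [3, 5]), (0, [2], [1, 5]), (0, [0], [0, 2]), (4, [], [4])]),
  (-144, 0, 1, [(0, [1], [3, 5]), (0, [2], [1, 5]), (0, [0], [2, 4]), (4, [], [0])]),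
  (144, 0, 1, [(0, [1], [3, 5]), (0, [2], [2, 5]), (0, [0], [0, 1]), (4, [], [4])]),
  (-144, 0, 1, [(0, [1], [3, 5]), (0, [2], [2, 5]), (0, [0], [1, 4]), (4, [], [0])]),
  (-24, 0, 1, [(0, [1], [3, 5]), (0, [2], [4, 5]), (0, [0], [1, 0]), (4, [], [2])]),
  (48, 0, 1, [(0, [1], [3, 5]), (0, [2], [4, 5]), (0, [0], [1, 2]), (4, [], [0])]),
  (-24, 0, 1, [(0, [1], [3, 5]), (0, [2], [4, 5]), (0, [0], [2, 0]), (4, [], [1])]),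
  (48, 0, 1, [(0, [1], [4, 5]), (0, [2], [0, 5]), (0, [0], [1, 2]), (4, [], [3])]),
  (-24, 0, 1, [(0, [1], [4, 5]), (0, [2], [0, 5]), (0, [0], [1, 3]), (4, [], [2])]),
  (-24, 0, 1, [(0, [1], [4, 5]), (0, [2], [0, 5]), (0, [0], [2, 3]), (4, [], [1])]),
  (-144, 0, 1, [(0, [1], [4, 5]), (0, [2], [1, 5]), (0, [0], [0, 2]), (4, [], [3])]),
  (144, 0, 1, [(0, [1], [4, 5]), (0, [2], [1, 5]), (0, [0], [2, 3]), (4, [], [0])]),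
  (-144, 0, 1, [(0, [1], [4, 5]), (0, [2], [2, 5]), (0, [0], [0, 1]), (4, [], [3])]),
  (144, 0, 1, [(0, [1], [4, 5]), (0, [2], [2, 5]), (0, [0], [1, 3]), (4, [], [0])]),
  (24, 0, 1, [(0, [1], [4, 5]), (0, [2], [3, 5]), (0, [0], [1, 0]), (4, [], [2])]),
  (-48, 0, 1, [(0, [1], [4, 5]), (0, [2], [3, 5]), (0, [0], [1, 2]), (4, [], [0])]),
  (24, 0, 1, [(0, [1], [4, 5]), (0, [2], [3, 5]), (0, [0], [2, 0]), (4, [], [1])])]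

def z30_0 : Cov := [(0, 0, 1, [(0, [0], [0, 5]), (0, [1], [1, 5]), (0, [2], [3, 4]), (4, [], [2])]),
  (0, 0, 1, [(0, [0], [0, 5]), (0, [1], [2, 5]), (0, [2], [3, 4]), (4, [], [1])]),
  (0, 0, 1, [(0, [0], [1, 5]), (0, [1], [2, 5]), (0, [2], [0, 3]), (4, [], [4])]),
  (0, 0, 1, [(0, [0], [1, 5]), (0, [1], [2, 5]), (0, [2], [0, 4]), (4, [], [3])]),
  (0, 0, 1, [(0, [0], [1, 5]), (0, [1], [2, 5]), (0, [2], [3, 4]), (4, [], [0])]),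
  (0, 0, 1, [(0, [0], [2, 5]), (0, [1], [1, 5]), (0, [2], [0, 3]), (4, [], [4])]),
  (0, 0, 1, [(0, [0], [2, 5]), (0, [1], [1, 5]), (0, [2], [0, 4]), (4, [], [3])]),
  (0, 0, 1, [(0, [0], [2, 5]), (0, [1], [1, 5]), (0, [2], [3, 4]), (4, [], [0])]),
  (0, 0, 1, [(0, [0], [3, 5]), (0, [1], [1, 5]), (0, [2], [0, 4]), (4, [], [2])]),
  (0, 0, 1, [(0, [0], [3, 5]), (0, [1], [2, 5]), (0, [2], [0, 4]), (4, [], [1])]),
  (0, 0, 1, [(0, [0], [4, 5]), (0, [1], [1, 5]), (0, [2], [0, 3]), (4, [], [2])]),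
  (0, 0, 1, [(0, [0], [4, 5]), (0, [1], [2, 5]), (0, [2], [0, 3]), (4, [], [1])]),
  (0, 0, 1, [(0, [0], [0, 5]), (0, [2], [1, 5]), (0, [1], [3, 4]), (4, [], [2])]),
  (0, 0, 1, [(0, [0], [0, 5]), (0, [2], [2, 5]), (0, [1], [3, 4]), (4, [], [1])]),
  (0, 0, 1, [(0, [0], [1, 5]), (0, [2], [2, 5]), (0, [1], [0, 3]), (4, [], [4])]),
  (0, 0, 1, [(0, [0], [1, 5]), (0, [2], [2, 5]), (0, [1], [0, 4]), (4, [], [3])]),
  (0, 0, 1, [(0, [0], [1, 5]), (0, [2], [2, 5]), (0, [1], [3, 4]), (4, [], [0])]),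
  (0, 0, 1, [(0, [0], [2, 5]), (0, [2], [1, 5]), (0, [1], [0, 3]), (4, [], [4])]),
  (0, 0, 1, [(0, [0], [2, 5]), (0, [2], [1, 5]), (0, [1], [0, 4]), (4, [], [3])]),
  (0, 0, 1, [(0, [0], [2, 5]), (0, [2], [1, 5]), (0, [1], [3, 4]), (4, [], [0])]),
  (0, 0, 1, [(0, [0], [3, 5]), (0, [2], [1, 5]), (0, [1], [0, 4]), (4, [], [2])]),
  (0, 0, 1, [(0, [0], [3, 5]), (0, [2], [2, 5]), (0, [1], [0, 4]), (4, [], [1])]),
  (0, 0, 1, [(0, [0], [4, 5]), (0, [2], [1, 5]), (0, [1], [0, 3]), (4, [], [2])]),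
  (0, 0, 1, [(0, [0], [4, 5]), (0, [2], [2, 5]), (0, [1], [0, 3]), (4, [], [1])]),
  (0, 0, 1, [(0, [1], [0, 5]), (0, [0], [1, 5]), (0, [2], [3, 4]), (4, [], [2])]),
  (0, 0, 1, [(0, [1], [0, 5]), (0, [0], [2, 5]), (0, [2], [3, 4]), (4, [], [1])]),
  (0, 0, 1, [(0, [1], [3, 5]), (0, [0], [1, 5]), (0, [2], [0, 4]), (4, [], [2])]),
  (0, 0, 1, [(0, [1], [3, 5]), (0, [0], [2, 5]), (0, [2], [0, 4]), (4, [], [1])]),
  (0, 0, 1, [(0, [1], [4, 5]), (0, [0], [1, 5]), (0, [2], [0, 3]), (4, [], [2])]),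
  (0, 0, 1, [(0, [1], [4, 5]), (0, [0], [2, 5]), (0, [2], [0, 3]), (4, [], [1])]),
  (0, 0, 1, [(0, [1], [0, 5]), (0, [2], [1, 5]), (0, [0], [3, 4]), (4, [], [2])]),
  (0, 0, 1, [(0, [1], [0, 5]), (0, [2], [2, 5]), (0, [0], [3, 4]), (4, [], [1])]),
  (0, 0, 1, [(0, [1], [1, 5]), (0, [2], [2, 5]), (0, [0], [0, 3]), (4, [], [4])]),
  (0, 0, 1, [(0, [1], [1, 5]), (0, [2], [2, 5]), (0, [0], [0, 4]), (4, [], [3])]),
  (0, 0, 1, [(0, [1], [1, 5]), (0, [2], [2, 5]), (0, [0], [3, 4]), (4, [], [0])]),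
  (0, 0, 1, [(0, [1], [2, 5]), (0, [2], [1, 5]), (0, [0], [0, 3]), (4, [], [4])]),
  (0, 0, 1, [(0, [1], [2, 5]), (0, [2], [1, 5]), (0, [0], [0, 4]), (4, [], [3])]),
  (0, 0, 1, [(0, [1], [2, 5]), (0, [2], [1, 5]), (0, [0], [3, 4]), (4, [], [0])]),
  (0, 0, 1, [(0, [1], [3, 5]), (0, [2], [1, 5]), (0, [0], [0, 4]), (4, [], [2])]),
  (0, 0, 1, [(0, [1], [3, 5]), (0, [2], [2, 5]), (0, [0], [0, 4]), (4, [], [1])]),
  (0, 0, 1, [(0, [1], [4, 5]), (0, [2], [1, 5]), (0, [0], [0, 3]), (4, [], [2])]),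
  (0, 0, 1, [(0, [1], [4, 5]), (0, [2], [2, 5]), (0, [0], [0, 3]), (4, [], [1])]),
  (0, 0, 1, [(0, [2], [0, 5]), (0, [0], [1, 5]), (0, [1], [3, 4]), (4, [], [2])]),
  (0, 0, 1, [(0, [2], [0, 5]), (0, [0], [2, 5]), (0, [1], [3, 4]), (4, [], [1])]),
  (0, 0, 1, [(0, [2], [3, 5]), (0, [0], [1, 5]), (0, [1], [0, 4]), (4, [], [2])]),
  (0, 0, 1, [(0, [2], [3, 5]), (0, [0], [2, 5]), (0, [1], [0, 4]), (4, [], [1])]),
  (0, 0, 1, [(0, [2], [4, 5]), (0, [0], [1, 5]), (0, [1], [0, 3]), (4, [], [2])]),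
  (0, 0, 1, [(0, [2], [4, 5]), (0, [0], [2, 5]), (0, [1], [0, 3]), (4, [], [1])]),
  (0, 0, 1, [(0, [2], [0, 5]), (0, [1], [1, 5]), (0, [0], [3, 4]), (4, [], [2])]),
  (0, 0, 1, [(0, [2], [0, 5]), (0, [1], [2, 5]), (0, [0], [3, 4]), (4, [], [1])]),
  (0, 0, 1, [(0, [2], [3, 5]), (0, [1], [1, 5]), (0, [0], [0, 4]), (4, [], [2])]),
  (0, 0, 1, [(0, [2], [3, 5]), (0, [1], [2, 5]), (0, [0], [0, 4]), (4, [], [1])]),
  (0, 0, 1, [(0, [2], [4, 5]), (0, [1], [1, 5]), (0, [0], [0, 3]), (4, [], [2])]),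
  (0, 0, 1, [(0, [2], [4, 5]), (0, [1], [2, 5]), (0, [0], [0, 3]), (4, [], [1])])]

def w30_0 : List (List Wit) := [[(0, 0, 0, 0, 0), (1, 0, 0, 0, 0), (0, 0, 0, 0, 0), (126, 0, 0, 0, 0), (1, 0, 0, 0, 0), (126, 0, 0, 0, 0), (2, 0, 0, 0, 0), (3, 0, 0, 0, 0), (2, 0, 0, 0, 0), (127, 0, 0, 0, 0), (3, 0, 0, 0, 0), (127, 0, 0, 0, 0), (4, 0, 0, 0, 0), (5, 0, 0, 0, 0), (4, 0, 0, 0, 0), (6, 0, 0, 0, 0), (7, 0, 0, 0, 0), (8, 0, 0, 0, 0), (7, 0, 0, 0, 0), (9, 0, 0, 0, 0), (10, 0, 0, 0, 0), (11, 0, 0, 0, 0), (128, 0, 0, 0, 0), (129, 0, 0, 0, 0), (128, 0, 0, 0, 0), (130, 0, 0, 0, 0), (129, 0, 0, 0, 0), (130, 0, 0, 0, 0), (12, 0, 0, 0, 0), (13, 0, 0, 0, 0), (14, 0, 0, 0, 0), (15, 0, 0, 0, 0), (16, 0, 0, 0, 0), (17, 0, 0, 0, 0), (131, 0, 0, 0, 0), (132, 0, 0, 0, 0), (131, 0, 0, 0, 0), (133, 0, 0, 0, 0), (132, 0, 0, 0, 0), (133, 0, 0, 0, 0), (18, 0, 0,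 0, 0), (19, 0, 0, 0, 0), (20, 0, 0, 0, 0), (21, 0, 0, 0, 0), (22, 0, 0, 0, 0), (23, 0, 0, 0, 0), (22, 0, 0, 0, 0), (24, 0, 0, 0, 0), (25, 0, 0, 0, 0), (134, 0, 0, 0, 0), (25, 0, 0, 0, 0), (26, 0, 0, 0, 0), (134, 0, 0, 0, 0), (26, 0, 0, 0, 0), (27, 0, 0, 0, 0), (135, 0, 0, 0, 0), (27, 0, 0, 0, 0), (28, 0, 0, 0, 0), (135, 0, 0, 0, 0), (28, 0, 0, 0, 0), (29, 0, 0, 0, 0), (30, 0, 0, 0, 0), (31, 0, 0, 0, 0), (30, 0, 0, 0, 0), (32, 0, 0, 0, 0), (33, 0, 0, 0, 0), (32, 0, 0, 0, 0), (34, 0, 0, 0, 0), (35, 0, 0, 0, 0), (136, 0, 0, 0, 0), (35, 0, 0, 0, 0), (36, 0, 0, 0, 0), (136, 0, 0, 0, 0), (36, 0, 0, 0, 0), (37, 0, 0, 0, 0), (137, 0, 0, 0, 0), (37, 0, 0, 0, 0), (38, 0, 0, 0, 0), (137, 0, 0, 0, 0), (38, 0, 0, 0, 0), (39, 0, 0, 0, 0), (40, 0, 0, 0, 0), (41, 0, 0, 0, 0), (40, 0, 0, 0, 0)],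
  [(42, 0, 0, 0, 0), (43, 0, 0, 0, 0), (42, 0, 0, 0, 0), (138, 0, 0, 0, 0), (43, 0, 0, 0, 0), (138, 0, 0, 0, 0), (44, 0, 0, 0, 0), (45, 0, 0, 0, 0), (44, 0, 0, 0, 0), (139, 0, 0, 0, 0), (45, 0, 0, 0, 0), (139, 0, 0, 0, 0), (46, 0, 0, 0, 0), (47, 0, 0, 0, 0), (46, 0, 0, 0, 0), (48, 0, 0, 0, 0), (49, 0, 0, 0, 0), (50, 0, 0, 0, 0), (49, 0, 0, 0, 0), (51, 0, 0, 0, 0), (52, 0, 0, 0, 0), (53, 0, 0, 0, 0), (140, 0, 0, 0, 0), (141, 0, 0, 0, 0), (140, 0, 0, 0, 0), (142, 0, 0, 0, 0), (141, 0, 0, 0, 0), (142, 0, 0, 0, 0), (54, 0, 0, 0, 0), (55, 0, 0, 0, 0), (56, 0, 0, 0, 0), (57, 0, 0, 0, 0), (58, 0, 0, 0, 0), (59, 0, 0, 0, 0), (143, 0, 0, 0, 0), (144, 0, 0, 0, 0), (143, 0, 0, 0, 0), (145, 0, 0, 0, 0), (144, 0, 0, 0, 0), (145, 0, 0, 0, 0), (60, 0, 0, 0, 0), (61, 0, 0, 0, 0), (62, 0, 0, 0, 0), (63, 0, 0, 0, 0), (64, 0, 0, 0, 0), (65, 0, 0, 0, 0),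 (64, 0, 0, 0, 0), (66, 0, 0, 0, 0), (67, 0, 0, 0, 0), (146, 0, 0, 0, 0), (67, 0, 0, 0, 0), (68, 0, 0, 0, 0), (146, 0, 0, 0, 0), (68, 0, 0, 0, 0), (69, 0, 0, 0, 0), (147, 0, 0, 0, 0), (69, 0, 0, 0, 0), (70, 0, 0, 0, 0), (147, 0, 0, 0, 0), (70, 0, 0, 0, 0), (71, 0, 0, 0, 0), (72, 0, 0, 0, 0), (73, 0, 0, 0, 0), (72, 0, 0, 0, 0), (74, 0, 0, 0, 0), (75, 0, 0, 0, 0), (74, 0, 0, 0, 0), (76, 0, 0, 0, 0), (77, 0, 0, 0, 0), (148, 0, 0, 0, 0), (77, 0, 0, 0, 0), (78, 0, 0, 0, 0), (148, 0, 0, 0, 0), (78, 0, 0, 0, 0), (79, 0, 0, 0, 0), (149, 0, 0, 0, 0), (79, 0, 0, 0, 0), (80, 0, 0, 0, 0), (149, 0, 0, 0, 0), (80, 0, 0, 0, 0), (81, 0, 0, 0, 0), (82, 0, 0, 0, 0), (83, 0, 0, 0, 0), (82, 0, 0, 0, 0)],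
  [(10, 0, 0, 0, 0), (11, 0, 0, 0, 0), (10, 0, 0, 0, 0), (150, 0, 0, 0, 0), (11, 0, 0, 0, 0), (150, 0, 0, 0, 0), (16, 0, 0, 0, 0), (17, 0, 0, 0, 0), (16, 0, 0, 0, 0), (151, 0, 0, 0, 0), (17, 0, 0, 0, 0), (151, 0, 0, 0, 0), (22, 0, 0, 0, 0), (23, 0, 0, 0, 0), (22, 0, 0, 0, 0), (24, 0, 0, 0, 0), (32, 0, 0, 0, 0), (33, 0, 0, 0, 0), (32, 0, 0, 0, 0), (34, 0, 0, 0, 0), (0, 0, 0, 0, 0), (1, 0, 0, 0, 0), (131, 0, 0, 0, 0), (132, 0, 0, 0, 0), (131, 0, 0, 0, 0), (133, 0, 0, 0, 0), (132, 0, 0, 0, 0), (133, 0, 0, 0, 0), (25, 0, 0, 0, 0), (26, 0, 0, 0, 0), (35, 0, 0, 0, 0), (36, 0, 0, 0, 0), (2, 0, 0, 0, 0), (3, 0, 0, 0, 0), (128, 0, 0, 0, 0), (129, 0, 0, 0, 0), (128, 0, 0, 0, 0), (130, 0, 0, 0, 0), (129, 0, 0, 0, 0), (130, 0, 0, 0, 0), (27, 0, 0, 0, 0), (28, 0, 0, 0, 0), (37, 0, 0, 0, 0), (38, 0, 0, 0, 0), (4, 0, 0, 0, 0), (5, 0, 0, 0, 0), (4, 0,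 0, 0, 0), (6, 0, 0, 0, 0), (12, 0, 0, 0, 0), (152, 0, 0, 0, 0), (12, 0, 0, 0, 0), (13, 0, 0, 0, 0), (152, 0, 0, 0, 0), (13, 0, 0, 0, 0), (18, 0, 0, 0, 0), (153, 0, 0, 0, 0), (18, 0, 0, 0, 0), (19, 0, 0, 0, 0), (153, 0, 0, 0, 0), (19, 0, 0, 0, 0), (39, 0, 0, 0, 0), (40, 0, 0, 0, 0), (41, 0, 0, 0, 0), (40, 0, 0, 0, 0), (7, 0, 0, 0, 0), (8, 0, 0, 0, 0), (7, 0, 0, 0, 0), (9, 0, 0, 0, 0), (14, 0, 0, 0, 0), (154, 0, 0, 0, 0), (14, 0, 0, 0, 0), (15, 0, 0, 0, 0), (154, 0, 0, 0, 0), (15, 0, 0, 0, 0), (20, 0, 0, 0, 0), (155, 0, 0, 0, 0), (20, 0, 0, 0, 0), (21, 0, 0, 0, 0), (155, 0, 0, 0, 0), (21, 0, 0, 0, 0), (29, 0, 0, 0, 0), (30, 0, 0, 0, 0), (31, 0, 0, 0, 0), (30, 0, 0, 0, 0)],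
  [(84, 0, 0, 0, 0), (85, 0, 0, 0, 0), (84, 0, 0, 0, 0), (156, 0, 0, 0, 0), (85, 0, 0, 0, 0), (156, 0, 0, 0, 0), (86, 0, 0, 0, 0), (87, 0, 0, 0, 0), (86, 0, 0, 0, 0), (157, 0, 0, 0, 0), (87, 0, 0, 0, 0), (157, 0, 0, 0, 0), (88, 0, 0, 0, 0), (89, 0, 0, 0, 0), (88, 0, 0, 0, 0), (90, 0, 0, 0, 0), (91, 0, 0, 0, 0), (92, 0, 0, 0, 0), (91, 0, 0, 0, 0), (93, 0, 0, 0, 0), (94, 0, 0, 0, 0), (95, 0, 0, 0, 0), (158, 0, 0, 0, 0), (159, 0, 0, 0, 0), (158, 0, 0, 0, 0), (160, 0, 0, 0, 0), (159, 0, 0, 0, 0), (160, 0, 0, 0, 0), (96, 0, 0, 0, 0), (97, 0, 0, 0, 0), (98, 0, 0, 0, 0), (99, 0, 0, 0, 0), (100, 0, 0, 0, 0), (101, 0, 0, 0, 0), (161, 0, 0, 0, 0), (162, 0, 0, 0, 0), (161, 0, 0, 0, 0), (163, 0, 0, 0, 0), (162, 0, 0, 0, 0), (163, 0, 0, 0, 0), (102, 0, 0, 0, 0), (103, 0, 0, 0, 0), (104, 0, 0, 0, 0), (105, 0, 0, 0, 0), (106, 0, 0, 0, 0), (107, 0, 0,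 0, 0), (106, 0, 0, 0, 0), (108, 0, 0, 0, 0), (109, 0, 0, 0, 0), (164, 0, 0, 0, 0), (109, 0, 0, 0, 0), (110, 0, 0, 0, 0), (164, 0, 0, 0, 0), (110, 0, 0, 0, 0), (111, 0, 0, 0, 0), (165, 0, 0, 0, 0), (111, 0, 0, 0, 0), (112, 0, 0, 0, 0), (165, 0, 0, 0, 0), (112, 0, 0, 0, 0), (113, 0, 0, 0, 0), (114, 0, 0, 0, 0), (115, 0, 0, 0, 0), (114, 0, 0, 0, 0), (116, 0, 0, 0, 0), (117, 0, 0, 0, 0), (116, 0, 0, 0, 0), (118, 0, 0, 0, 0), (119, 0, 0, 0, 0), (166, 0, 0, 0, 0), (119, 0, 0, 0, 0), (120, 0, 0, 0, 0), (166, 0, 0, 0, 0), (120, 0, 0, 0, 0), (121, 0, 0, 0, 0), (167, 0, 0, 0, 0), (121, 0, 0, 0, 0), (122, 0, 0, 0, 0), (167, 0, 0, 0, 0), (122, 0, 0, 0, 0), (123, 0, 0, 0, 0), (124, 0, 0, 0, 0), (125, 0, 0, 0, 0), (124, 0, 0, 0, 0)],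
  [(52, 0, 0, 0, 0), (53, 0, 0, 0, 0), (52, 0, 0, 0, 0), (168, 0, 0, 0, 0), (53, 0, 0, 0, 0), (168, 0, 0, 0, 0), (58, 0, 0, 0, 0), (59, 0, 0, 0, 0), (58, 0, 0, 0, 0), (169, 0, 0, 0, 0), (59, 0, 0, 0, 0), (169, 0, 0, 0, 0), (64, 0, 0, 0, 0), (65, 0, 0, 0, 0), (64, 0, 0, 0, 0), (66, 0, 0, 0, 0), (74, 0, 0, 0, 0), (75, 0, 0, 0, 0), (74, 0, 0, 0, 0), (76, 0, 0, 0, 0), (42, 0, 0, 0, 0), (43, 0, 0, 0, 0), (143, 0, 0, 0, 0), (144, 0, 0, 0, 0), (143, 0, 0, 0, 0), (145, 0, 0, 0, 0), (144, 0, 0, 0, 0), (145, 0, 0, 0, 0), (67, 0, 0, 0, 0), (68, 0, 0, 0, 0), (77, 0, 0, 0, 0), (78, 0, 0, 0, 0), (44, 0, 0, 0, 0), (45, 0, 0, 0, 0), (140, 0, 0, 0, 0), (141, 0, 0, 0, 0), (140, 0, 0, 0, 0), (142, 0, 0, 0, 0), (141, 0, 0, 0, 0), (142, 0, 0, 0, 0), (69, 0, 0, 0, 0), (70, 0, 0, 0, 0), (79, 0, 0, 0, 0), (80, 0, 0, 0, 0), (46, 0, 0, 0, 0), (47, 0, 0, 0, 0),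 (46, 0, 0, 0, 0), (48, 0, 0, 0, 0), (54, 0, 0, 0, 0), (170, 0, 0, 0, 0), (54, 0, 0, 0, 0), (55, 0, 0, 0, 0), (170, 0, 0, 0, 0), (55, 0, 0, 0, 0), (60, 0, 0, 0, 0), (171, 0, 0, 0, 0), (60, 0, 0, 0, 0), (61, 0, 0, 0, 0), (171, 0, 0, 0, 0), (61, 0, 0, 0, 0), (81, 0, 0, 0, 0), (82, 0, 0, 0, 0), (83, 0, 0, 0, 0), (82, 0, 0, 0, 0), (49, 0, 0, 0, 0), (50, 0, 0, 0, 0), (49, 0, 0, 0, 0), (51, 0, 0, 0, 0), (56, 0, 0, 0, 0), (172, 0, 0, 0, 0), (56, 0, 0, 0, 0), (57, 0, 0, 0, 0), (172, 0, 0, 0, 0), (57, 0, 0, 0, 0), (62, 0, 0, 0, 0), (173, 0, 0, 0, 0), (62, 0, 0, 0, 0), (63, 0, 0, 0, 0), (173, 0, 0, 0, 0), (63, 0, 0, 0, 0), (71, 0, 0, 0, 0), (72, 0, 0, 0, 0), (73, 0, 0, 0, 0), (72, 0, 0, 0, 0)],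
  [(94, 0, 0, 0, 0), (95, 0, 0, 0, 0), (94, 0, 0, 0, 0), (174, 0, 0, 0, 0), (95, 0, 0, 0, 0), (174, 0, 0, 0, 0), (100, 0, 0, 0, 0), (101, 0, 0, 0, 0), (100, 0, 0, 0, 0), (175, 0, 0, 0, 0), (101, 0, 0, 0, 0), (175, 0, 0, 0, 0), (106, 0, 0, 0, 0), (107, 0, 0, 0, 0), (106, 0, 0, 0, 0), (108, 0, 0, 0, 0), (116, 0, 0, 0, 0), (117, 0, 0, 0, 0), (116, 0, 0, 0, 0), (118, 0, 0, 0, 0), (84, 0, 0, 0, 0), (85, 0, 0, 0, 0), (161, 0, 0, 0, 0), (162, 0, 0, 0, 0), (161, 0, 0, 0, 0), (163, 0, 0, 0, 0), (162, 0, 0, 0, 0), (163, 0, 0, 0, 0), (109, 0, 0, 0, 0), (110, 0, 0, 0, 0), (119, 0, 0, 0, 0), (120, 0, 0, 0, 0), (86, 0, 0, 0, 0), (87, 0, 0, 0, 0), (158, 0, 0, 0, 0), (159, 0, 0, 0, 0), (158, 0, 0, 0, 0), (160, 0, 0, 0, 0), (159, 0, 0, 0, 0), (160, 0, 0, 0, 0), (111, 0, 0, 0, 0), (112, 0, 0, 0, 0), (121, 0, 0, 0, 0), (122, 0, 0, 0, 0), (88, 0, 0, 0, 0),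 (89, 0, 0, 0, 0), (88, 0, 0, 0, 0), (90, 0, 0, 0, 0), (96, 0, 0, 0, 0), (176, 0, 0, 0, 0), (96, 0, 0, 0, 0), (97, 0, 0, 0, 0), (176, 0, 0, 0, 0), (97, 0, 0, 0, 0), (102, 0, 0, 0, 0), (177, 0, 0, 0, 0), (102, 0, 0, 0, 0), (103, 0, 0, 0, 0), (177, 0, 0, 0, 0), (103, 0, 0, 0, 0), (123, 0, 0, 0, 0), (124, 0, 0, 0, 0), (125, 0, 0, 0, 0), (124, 0, 0, 0, 0), (91, 0, 0, 0, 0), (92, 0, 0, 0, 0), (91, 0, 0, 0, 0), (93, 0, 0, 0, 0), (98, 0, 0, 0, 0), (178, 0, 0, 0, 0), (98, 0, 0, 0, 0), (99, 0, 0, 0, 0), (178, 0, 0, 0, 0), (99, 0, 0, 0, 0), (104, 0, 0, 0, 0), (179, 0, 0, 0, 0), (104, 0, 0, 0, 0), (105, 0, 0, 0, 0), (179, 0, 0, 0, 0), (105, 0, 0, 0, 0), (113, 0, 0, 0, 0), (114, 0, 0, 0, 0), (115, 0, 0, 0, 0), (114, 0, 0, 0, 0)]]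

def m30_1 : Base := (0, 1, [(0, [0], [0, 5]), (0, [1], [1, 2]), (0, [2], [3, 5]), (4, [], [4])])

def l30_1 : Cov := [(576, 0, 1, [(0, [0], [0, 5]), (0, [1], [1, 2]), (0, [2], [3, 5]), (4, [], [4])]),
  (-576, 0, 1, [(0, [0], [0, 5]), (0, [1], [1, 2]), (0, [2], [4, 5]), (4, [], [3])]),
  (192, 0, 1, [(0, [0], [0, 5]), (0, [1], [1, 3]), (0, [2], [2, 5]), (4, [], [4])]),
  (-192, 0, 1, [(0, [0], [0, 5]), (0, [1], [1, 3]), (0, [2], [4, 5]), (4, [], [2])]),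
  (-192, 0, 1, [(0, [0], [0, 5]), (0, [1], [1, 4]), (0, [2], [2, 5]), (4, [], [3])]),
  (192, 0, 1, [(0, [0], [0, 5]), (0, [1], [1, 4]), (0, [2], [3, 5]), (4, [], [2])]),
  (192, 0, 1, [(0, [0], [0, 5]), (0, [1], [2, 3]), (0, [2], [1, 5]), (4, [], [4])]),
  (-192, 0, 1, [(0, [0], [0, 5]), (0, [1], [2, 3]), (0, [2], [4, 5]), (4, [], [1])]),
  (-192, 0, 1, [(0, [0], [0, 5]), (0, [1], [2, 4]), (0, [2], [1, 5]), (4, [], [3])]),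
  (192, 0, 1, [(0, [0], [0, 5]), (0, [1], [2, 4]), (0, [2], [3, 5]), (4, [], [1])]),
  (192, 0, 1, [(0, [0], [1, 5]), (0, [1], [0, 2]), (0, [2], [3, 5]), (4, [], [4])]),
  (-192, 0, 1, [(0, [0], [1, 5]), (0, [1], [0, 2]), (0, [2], [4, 5]), (4, [], [3])]),
  (-192, 0, 1, [(0, [0], [1, 5]), (0, [1], [2, 3]), (0, [2], [0, 5]), (4, [], [4])]),
  (192, 0, 1, [(0, [0], [1, 5]), (0, [1], [2, 3]), (0, [2], [4, 5]), (4, [], [0])]),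
  (192, 0, 1, [(0, [0], [1, 5]), (0, [1], [2, 4]), (0, [2], [0, 5]), (4, [], [3])]),
  (-192, 0, 1, [(0, [0], [1, 5]), (0, [1], [2, 4]), (0, [2], [3, 5]), (4, [], [0])]),
  (192, 0, 1, [(0, [0], [2, 5]), (0, [1], [0, 1]), (0, [2], [3, 5]), (4, [], [4])]),
  (-192, 0, 1, [(0, [0], [2, 5]), (0, [1], [0, 1]), (0, [2], [4, 5]), (4, [], [3])]),
  (-192, 0, 1, [(0, [0], [2, 5]), (0, [1], [1, 3]), (0, [2], [0, 5]), (4, [], [4])]),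
  (192, 0, 1, [(0, [0], [2, 5]), (0, [1], [1, 3]), (0, [2], [4, 5]), (4, [], [0])]),
  (192, 0, 1, [(0, [0], [2, 5]), (0, [1], [1, 4]), (0, [2], [0, 5]), (4, [], [3])]),
  (-192, 0, 1, [(0, [0], [2, 5]), (0, [1], [1, 4]), (0, [2], [3, 5]), (4, [], [0])]),
  (-192, 0, 1, [(0, [0], [3, 5]), (0, [1], [0, 1]), (0, [2], [2, 5]), (4, [], [4])]),
  (192, 0, 1, [(0, [0], [3, 5]), (0, [1], [0, 1]), (0, [2], [4, 5]), (4, [], [2])]),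
  (-192, 0, 1, [(0, [0], [3, 5]), (0, [1], [0, 2]), (0, [2], [1, 5]), (4, [], [4])]),
  (192, 0, 1, [(0, [0], [3, 5]), (0, [1], [0, 2]), (0, [2], [4, 5]), (4, [], [1])]),
  (-576, 0, 1, [(0, [0], [3, 5]), (0, [1], [1, 2]), (0, [2], [0, 5]), (4, [], [4])]),
  (576, 0, 1, [(0, [0], [3, 5]), (0, [1], [1, 2]), (0, [2], [4, 5]), (4, [], [0])]),
  (-192, 0, 1, [(0, [0], [3, 5]), (0, [1], [1, 4]), (0, [2], [0, 5]), (4, [], [2])]),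
  (192, 0, 1, [(0, [0], [3, 5]), (0, [1], [1, 4]), (0, [2], [2, 5]), (4, [], [0])]),
  (-192, 0, 1, [(0, [0], [3, 5]), (0, [1], [2, 4]), (0, [2], [0, 5]), (4, [], [1])]),
  (192, 0, 1, [(0, [0], [3, 5]), (0, [1], [2, 4]), (0, [2], [1, 5]), (4, [], [0])]),
  (192, 0, 1, [(0, [0], [4, 5]), (0, [1], [0, 1]), (0, [2], [2, 5]), (4, [], [3])]),
  (-192, 0, 1, [(0, [0], [4, 5]), (0, [1], [0, 1]), (0, [2], [3, 5]), (4, [], [2])]),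
  (192, 0, 1, [(0, [0], [4, 5]), (0, [1], [0, 2]), (0, [2], [1, 5]), (4, [], [3])]),
  (-192, 0, 1, [(0, [0], [4, 5]), (0, [1], [0, 2]), (0, [2], [3, 5]), (4, [], [1])]),
  (576, 0, 1, [(0, [0], [4, 5]), (0, [1], [1, 2]), (0, [2], [0, 5]), (4, [], [3])]),
  (-576, 0, 1, [(0, [0], [4, 5]), (0, [1], [1, 2]), (0, [2], [3, 5]), (4, [], [0])]),
  (192, 0, 1, [(0, [0], [4, 5]), (0, [1], [1, 3]), (0, [2], [0, 5]), (4, [], [2])]),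
  (-192, 0, 1, [(0, [0], [4, 5]), (0, [1], [1, 3]), (0, [2], [2, 5]), (4, [], [0])]),
  (192, 0, 1, [(0, [0], [4, 5]), (0, [1], [2, 3]), (0, [2], [0, 5]), (4, [], [1])]),
  (-192, 0, 1, [(0, [0], [4, 5]), (0, [1], [2, 3]), (0, [2], [1, 5]), (4, [], [0])]),
  (288, 0, 1, [(0, [0], [0, 5]), (0, [2], [1, 2]), (0, [1], [3, 5]), (4, [], [4])]),
  (-288, 0, 1, [(0, [0], [0, 5]), (0, [2], [1, 2]), (0, [1], [4, 5]), (4, [], [3])]),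
  (96, 0, 1, [(0, [0], [0, 5]), (0, [2], [1, 3]), (0, [1], [2, 5]), (4, [], [4])]),
  (-96, 0, 1, [(0, [0], [0, 5]), (0, [2], [1, 3]), (0, [1], [4, 5]), (4, [], [2])]),
  (-96, 0, 1, [(0, [0], [0, 5]), (0, [2], [1, 4]), (0, [1], [2, 5]), (4, [], [3])]),
  (96, 0, 1, [(0, [0], [0, 5]), (0, [2], [1, 4]), (0, [1], [3, 5]), (4, [], [2])]),
  (96, 0, 1, [(0, [0], [0, 5]), (0, [2], [2, 3]), (0, [1], [1, 5]), (4, [], [4])]),
  (-96, 0, 1, [(0, [0], [0, 5]), (0, [2], [2, 3]), (0, [1], [4, 5]), (4, [], [1])]),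
  (-96, 0, 1, [(0, [0], [0, 5]), (0, [2], [2, 4]), (0, [1], [1, 5]), (4, [], [3])]),
  (96, 0, 1, [(0, [0], [0, 5]), (0, [2], [2, 4]), (0, [1], [3, 5]), (4, [], [1])]),
  (96, 0, 1, [(0, [0], [1, 5]), (0, [2], [0, 2]), (0, [1], [3, 5]), (4, [], [4])]),
  (-96, 0, 1, [(0, [0], [1, 5]), (0, [2], [0, 2]), (0, [1], [4, 5]), (4, [], [3])]),
  (-96, 0, 1, [(0, [0], [1, 5]), (0, [2], [2, 3]), (0, [1], [0, 5]), (4, [], [4])]),
  (96, 0, 1, [(0, [0], [1, 5]), (0, [2], [2, 3]), (0, [1], [4, 5]), (4, [], [0])]),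
  (96, 0, 1, [(0, [0], [1, 5]), (0, [2], [2, 4]), (0, [1], [0, 5]), (4, [], [3])]),
  (-96, 0, 1, [(0, [0], [1, 5]), (0, [2], [2, 4]), (0, [1], [3, 5]), (4, [], [0])]),
  (96, 0, 1, [(0, [0], [2, 5]), (0, [2], [0, 1]), (0, [1], [3, 5]), (4, [], [4])]),
  (-96, 0, 1, [(0, [0], [2, 5]), (0, [2], [0, 1]), (0, [1], [4, 5]), (4, [], [3])]),
  (-96, 0, 1, [(0, [0], [2, 5]), (0, [2], [1, 3]), (0, [1], [0, 5]), (4, [], [4])]),
  (96, 0, 1, [(0, [0], [2, 5]), (0, [2], [1, 3]), (0, [1], [4, 5]), (4, [], [0])]),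
  (96, 0, 1, [(0, [0], [2, 5]), (0, [2], [1, 4]), (0, [1], [0, 5]), (4, [], [3])]),
  (-96, 0, 1, [(0, [0], [2, 5]), (0, [2], [1, 4]), (0, [1], [3, 5]), (4, [], [0])]),
  (-96, 0, 1, [(0, [0], [3, 5]), (0, [2], [0, 1]), (0, [1], [2, 5]), (4, [], [4])]),
  (96, 0, 1, [(0, [0], [3, 5]), (0, [2], [0, 1]), (0, [1], [4, 5]), (4, [], [2])]),
  (-96, 0, 1, [(0, [0], [3, 5]), (0, [2], [0, 2]), (0, [1], [1, 5]), (4, [], [4])]),
  (96, 0, 1, [(0, [0], [3, 5]), (0, [2], [0, 2]), (0, [1], [4, 5]), (4, [], [1])]),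
  (-288, 0, 1, [(0, [0], [3, 5]), (0, [2], [1, 2]), (0, [1], [0, 5]), (4, [], [4])]),
  (288, 0, 1, [(0, [0], [3, 5]), (0, [2], [1, 2]), (0, [1], [4, 5]), (4, [], [0])]),
  (-96, 0, 1, [(0, [0], [3, 5]), (0, [2], [1, 4]), (0, [1], [0, 5]), (4, [], [2])]),
  (96, 0, 1, [(0, [0], [3, 5]), (0, [2], [1, 4]), (0, [1], [2, 5]), (4, [], [0])]),
  (-96, 0, 1, [(0, [0], [3, 5]), (0, [2], [2, 4]), (0, [1], [0, 5]), (4, [], [1])]),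
  (96, 0, 1, [(0, [0], [3, 5]), (0, [2], [2, 4]), (0, [1], [1, 5]), (4, [], [0])]),
  (96, 0, 1, [(0, [0], [4, 5]), (0, [2], [0, 1]), (0, [1], [2, 5]), (4, [], [3])]),
  (-96, 0, 1, [(0, [0], [4, 5]), (0, [2], [0, 1]), (0, [1], [3, 5]), (4, [], [2])]),
  (96, 0, 1, [(0, [0], [4, 5]), (0, [2], [0, 2]), (0, [1], [1, 5]), (4, [], [3])]),
  (-96, 0, 1, [(0, [0], [4, 5]), (0, [2], [0, 2]), (0, [1], [3, 5]), (4, [], [1])]),
  (288, 0, 1, [(0, [0], [4, 5]), (0, [2], [1, 2]), (0, [1], [0, 5]), (4, [], [3])]),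
  (-288, 0, 1, [(0, [0], [4, 5]), (0, [2], [1, 2]), (0, [1], [3, 5]), (4, [], [0])]),
  (96, 0, 1, [(0, [0], [4, 5]), (0, [2], [1, 3]), (0, [1], [0, 5]), (4, [], [2])]),
  (-96, 0, 1, [(0, [0], [4, 5]), (0, [2], [1, 3]), (0, [1], [2, 5]), (4, [], [0])]),
  (96, 0, 1, [(0, [0], [4, 5]), (0, [2], [2, 3]), (0, [1], [0, 5]), (4, [], [1])]),
  (-96, 0, 1, [(0, [0], [4, 5]), (0, [2], [2, 3]), (0, [1], [1, 5]), (4, [], [0])]),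
  (288, 0, 1, [(0, [1], [0, 5]), (0, [0], [1, 2]), (0, [2], [3, 5]), (4, [], [4])]),
  (-288, 0, 1, [(0, [1], [0, 5]), (0, [0], [1, 2]), (0, [2], [4, 5]), (4, [], [3])]),
  (96, 0, 1, [(0, [1], [0, 5]), (0, [0], [1, 3]), (0, [2], [2, 5]), (4, [], [4])]),
  (-96, 0, 1, [(0, [1], [0, 5]), (0, [0], [1, 3]), (0, [2], [4, 5]), (4, [], [2])]),
  (-96, 0, 1, [(0, [1], [0, 5]), (0, [0], [1, 4]), (0, [2], [2, 5]), (4, [], [3])]),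
  (96, 0, 1, [(0, [1], [0, 5]), (0, [0], [1, 4]), (0, [2], [3, 5]), (4, [], [2])]),
  (96, 0, 1, [(0, [1], [0, 5]), (0, [0], [2, 3]), (0, [2], [1, 5]), (4, [], [4])]),
  (-96, 0, 1, [(0, [1], [0, 5]), (0, [0], [2, 3]), (0, [2], [4, 5]), (4, [], [1])]),
  (-96, 0, 1, [(0, [1], [0, 5]), (0, [0], [2, 4]), (0, [2], [1, 5]), (4, [], [3])]),
  (96, 0, 1, [(0, [1], [0, 5]), (0, [0], [2, 4]), (0, [2], [3, 5]), (4, [], [1])]),
  (96, 0, 1, [(0, [1], [1, 5]), (0, [0], [0, 2]), (0, [2], [3, 5]), (4, [], [4])]),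
  (-96, 0, 1, [(0, [1], [1, 5]), (0, [0], [0, 2]), (0, [2], [4, 5]), (4, [], [3])]),
  (-96, 0, 1, [(0, [1], [1, 5]), (0, [0], [2, 3]), (0, [2], [0, 5]), (4, [], [4])]),
  (96, 0, 1, [(0, [1], [1, 5]), (0, [0], [2, 3]), (0, [2], [4, 5]), (4, [], [0])]),
  (96, 0, 1, [(0, [1], [1, 5]), (0, [0], [2, 4]), (0, [2], [0, 5]), (4, [], [3])]),
  (-96, 0, 1, [(0, [1], [1, 5]), (0, [0], [2, 4]), (0, [2], [3, 5]), (4, [], [0])]),
  (96, 0, 1, [(0, [1], [2, 5]), (0, [0], [0, 1]), (0, [2], [3, 5]), (4, [], [4])]),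
  (-96, 0, 1, [(0, [1], [2, 5]), (0, [0], [0, 1]), (0, [2], [4, 5]), (4, [], [3])]),
  (-96, 0, 1, [(0, [1], [2, 5]), (0, [0], [1, 3]), (0, [2], [0, 5]), (4, [], [4])]),
  (96, 0, 1, [(0, [1], [2, 5]), (0, [0], [1, 3]), (0, [2], [4, 5]), (4, [], [0])]),
  (96, 0, 1, [(0, [1], [2, 5]), (0, [0], [1, 4]), (0, [2], [0, 5]), (4, [], [3])]),
  (-96, 0, 1, [(0, [1], [2, 5]), (0, [0], [1, 4]), (0, [2], [3, 5]), (4, [], [0])]),
  (-96, 0, 1, [(0, [1], [3, 5]), (0, [0], [0, 1]), (0, [2], [2, 5]), (4, [], [4])]),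
  (96, 0, 1, [(0, [1], [3, 5]), (0, [0], [0, 1]), (0, [2], [4, 5]), (4, [], [2])]),
  (-96, 0, 1, [(0, [1], [3, 5]), (0, [0], [0, 2]), (0, [2], [1, 5]), (4, [], [4])]),
  (96, 0, 1, [(0, [1], [3, 5]), (0, [0], [0, 2]), (0, [2], [4, 5]), (4, [], [1])]),
  (-288, 0, 1, [(0, [1], [3, 5]), (0, [0], [1, 2]), (0, [2], [0, 5]), (4, [], [4])]),
  (288, 0, 1, [(0, [1], [3, 5]), (0, [0], [1, 2]), (0, [2], [4, 5]), (4, [], [0])]),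
  (-96, 0, 1, [(0, [1], [3, 5]), (0, [0], [1, 4]), (0, [2], [0, 5]), (4, [], [2])]),
  (96, 0, 1, [(0, [1], [3, 5]), (0, [0], [1, 4]), (0, [2], [2, 5]), (4, [], [0])]),
  (-96, 0, 1, [(0, [1], [3, 5]), (0, [0], [2, 4]), (0, [2], [0, 5]), (4, [], [1])]),
  (96, 0, 1, [(0, [1], [3, 5]), (0, [0], [2, 4]), (0, [2], [1, 5]), (4, [], [0])]),
  (96, 0, 1, [(0, [1], [4, 5]), (0, [0], [0, 1]), (0, [2], [2, 5]), (4, [], [3])]),
  (-96, 0, 1, [(0, [1], [4, 5]), (0, [0], [0, 1]), (0, [2], [3, 5]), (4, [], [2])]),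
  (96, 0, 1, [(0, [1], [4, 5]), (0, [0], [0, 2]), (0, [2], [1, 5]), (4, [], [3])]),
  (-96, 0, 1, [(0, [1], [4, 5]), (0, [0], [0, 2]), (0, [2], [3, 5]), (4, [], [1])]),
  (288, 0, 1, [(0, [1], [4, 5]), (0, [0], [1, 2]), (0, [2], [0, 5]), (4, [], [3])]),
  (-288, 0, 1, [(0, [1], [4, 5]), (0, [0], [1, 2]), (0, [2], [3, 5]), (4, [], [0])]),
  (96, 0, 1, [(0, [1], [4, 5]), (0, [0], [1, 3]), (0, [2], [0, 5]), (4, [], [2])]),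
  (-96, 0, 1, [(0, [1], [4, 5]), (0, [0], [1, 3]), (0, [2], [2, 5]), (4, [], [0])]),
  (96, 0, 1, [(0, [1], [4, 5]), (0, [0], [2, 3]), (0, [2], [0, 5]), (4, [], [1])]),
  (-96, 0, 1, [(0, [1], [4, 5]), (0, [0], [2, 3]), (0, [2], [1, 5]), (4, [], [0])])]

def z30_1 : Cov := []

def w30_1 : List (List Wit) := [[(0, 0, 0, 0, 0), (1, 0, 0, 0, 0), (2, 0, 0, 0, 0), (3, 0, 0, 0, 0), (4, 0, 0, 0, 0), (5, 0, 0, 0, 0), (0, 0, 0, 0, 0), (1, 0, 0, 0, 0), (6, 0, 0, 0, 0), (7, 0, 0, 0, 0), (8, 0, 0, 0, 0), (9, 0, 0, 0, 0), (2, 0, 0, 0, 0), (3, 0, 0, 0, 0), (6, 0, 0, 0, 0), (7, 0, 0, 0, 0), (4, 0, 0, 0, 0), (5, 0, 0, 0, 0), (8, 0, 0, 0, 0), (9, 0, 0, 0, 0), (10, 0, 0, 0, 0), (11, 0, 0, 0, 0), (10, 0, 0, 0, 0), (11, 0, 0, 0, 0), (12, 0, 0, 0, 0), (13, 0, 0, 0, 0), (14, 0, 0, 0, 0), (15, 0, 0, 0, 0), (12, 0, 0, 0, 0), (13, 0, 0, 0, 0), (14, 0, 0, 0, 0),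 (15, 0, 0, 0, 0), (16, 0, 0, 0, 0), (17, 0, 0, 0, 0), (16, 0, 0, 0, 0), (17, 0, 0, 0, 0), (18, 0, 0, 0, 0), (19, 0, 0, 0, 0), (20, 0, 0, 0, 0), (21, 0, 0, 0, 0), (18, 0, 0, 0, 0), (19, 0, 0, 0, 0), (20, 0, 0, 0, 0), (21, 0, 0, 0, 0), (22, 0, 0, 0, 0), (23, 0, 0, 0, 0), (24, 0, 0, 0, 0), (25, 0, 0, 0, 0), (22, 0, 0, 0, 0), (23, 0, 0, 0, 0), (26, 0, 0, 0, 0), (27, 0, 0, 0, 0), (28, 0, 0, 0, 0), (29, 0, 0, 0, 0), (24, 0, 0, 0, 0), (25, 0, 0, 0, 0), (26, 0, 0, 0, 0), (27, 0, 0, 0, 0), (30, 0, 0, 0, 0), (31, 0, 0, 0, 0), (28, 0, 0, 0, 0), (29, 0, 0, 0, 0), (30, 0, 0, 0, 0), (31, 0, 0, 0, 0), (32, 0, 0, 0, 0), (33, 0, 0, 0, 0), (34, 0, 0, 0, 0), (35, 0, 0, 0, 0), (32, 0, 0, 0, 0), (33, 0, 0, 0, 0), (36, 0, 0, 0, 0), (37, 0, 0, 0, 0), (38, 0, 0, 0, 0), (39, 0, 0, 0, 0), (34, 0, 0, 0, 0), (35, 0, 0, 0, 0), (36, 0, 0, 0, 0), (37, 0, 0, 0, 0), (40,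 0, 0, 0, 0), (41, 0, 0, 0, 0), (38, 0, 0, 0, 0), (39, 0, 0, 0, 0), (40, 0, 0, 0, 0), (41, 0, 0, 0, 0)],
  [(42, 0, 0, 0, 0), (43, 0, 0, 0, 0), (44, 0, 0, 0, 0), (45, 0, 0, 0, 0), (46, 0, 0, 0, 0), (47, 0, 0, 0, 0), (42, 0, 0, 0, 0), (43, 0, 0, 0, 0), (48, 0, 0, 0, 0), (49, 0, 0, 0, 0), (50, 0, 0, 0, 0), (51, 0, 0, 0, 0), (44, 0, 0, 0, 0), (45, 0, 0, 0, 0), (48, 0, 0, 0, 0), (49, 0, 0, 0, 0), (46, 0, 0, 0, 0), (47, 0, 0, 0, 0), (50, 0, 0, 0, 0), (51, 0, 0, 0, 0), (52, 0, 0, 0, 0), (53, 0, 0, 0, 0), (52, 0, 0, 0, 0), (53, 0, 0, 0, 0), (54, 0, 0, 0, 0), (55, 0, 0, 0, 0), (56, 0, 0, 0, 0), (57, 0, 0, 0, 0), (54, 0, 0, 0, 0), (55, 0, 0, 0, 0), (56, 0, 0, 0, 0), (57, 0, 0, 0, 0), (58, 0, 0, 0, 0), (59, 0, 0, 0, 0), (58, 0, 0, 0, 0), (59, 0, 0, 0, 0), (60, 0, 0, 0, 0), (61, 0, 0, 0, 0), (62, 0, 0, 0, 0), (63, 0, 0, 0, 0), (60, 0, 0, 0, 0), (61,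 0, 0, 0, 0), (62, 0, 0, 0, 0), (63, 0, 0, 0, 0), (64, 0, 0, 0, 0), (65, 0, 0, 0, 0), (66, 0, 0, 0, 0), (67, 0, 0, 0, 0), (64, 0, 0, 0, 0), (65, 0, 0, 0, 0), (68, 0, 0, 0, 0), (69, 0, 0, 0, 0), (70, 0, 0, 0, 0), (71, 0, 0, 0, 0), (66, 0, 0, 0, 0), (67, 0, 0, 0, 0), (68, 0, 0, 0, 0), (69, 0, 0, 0, 0), (72, 0, 0, 0, 0), (73, 0, 0, 0, 0), (70, 0, 0, 0, 0), (71, 0, 0, 0, 0), (72, 0, 0, 0, 0), (73, 0, 0, 0, 0), (74, 0, 0, 0, 0), (75, 0, 0, 0, 0), (76, 0, 0, 0, 0), (77, 0, 0, 0, 0), (74, 0, 0, 0, 0), (75, 0, 0, 0, 0), (78, 0, 0, 0, 0), (79, 0, 0, 0, 0), (80, 0, 0, 0, 0), (81, 0, 0, 0, 0), (76, 0, 0, 0, 0), (77, 0, 0, 0, 0), (78, 0, 0, 0, 0), (79, 0, 0, 0, 0), (82, 0, 0, 0, 0), (83, 0, 0, 0, 0), (80, 0, 0, 0, 0), (81, 0, 0, 0, 0), (82, 0, 0, 0, 0), (83, 0, 0, 0, 0)],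
  [(84, 0, 0, 0, 0), (85, 0, 0, 0, 0), (86, 0, 0, 0, 0), (87, 0, 0, 0, 0), (88, 0, 0, 0, 0), (89, 0, 0, 0, 0), (84, 0, 0, 0, 0), (85, 0, 0, 0, 0), (90, 0, 0, 0, 0), (91, 0, 0, 0, 0), (92, 0, 0, 0, 0), (93, 0, 0, 0, 0), (86, 0, 0, 0, 0), (87, 0, 0, 0, 0), (90, 0, 0, 0, 0), (91, 0, 0, 0, 0), (88, 0, 0, 0, 0), (89, 0, 0, 0, 0), (92, 0, 0, 0, 0), (93, 0, 0, 0, 0), (94, 0, 0, 0, 0), (95, 0, 0, 0, 0), (94, 0, 0, 0, 0), (95, 0, 0, 0, 0), (96, 0, 0, 0, 0), (97, 0, 0, 0, 0), (98, 0, 0, 0, 0), (99, 0, 0, 0, 0), (96, 0, 0, 0, 0), (97, 0, 0, 0, 0), (98, 0, 0, 0, 0), (99, 0, 0, 0, 0), (100, 0, 0, 0, 0), (101, 0, 0, 0, 0), (100, 0, 0, 0, 0), (101, 0, 0, 0, 0), (102, 0, 0, 0, 0), (103, 0, 0, 0, 0), (104, 0, 0, 0, 0), (105, 0, 0, 0, 0), (102, 0, 0, 0, 0), (103, 0, 0, 0, 0), (104, 0, 0, 0, 0), (105, 0, 0, 0, 0), (106, 0, 0, 0, 0), (107, 0, 0, 0, 0), (108,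 0, 0, 0, 0), (109, 0, 0, 0, 0), (106, 0, 0, 0, 0), (107, 0, 0, 0, 0), (110, 0, 0, 0, 0), (111, 0, 0, 0, 0), (112, 0, 0, 0, 0), (113, 0, 0, 0, 0), (108, 0, 0, 0, 0), (109, 0, 0, 0, 0), (110, 0, 0, 0, 0), (111, 0, 0, 0, 0), (114, 0, 0, 0, 0), (115, 0, 0, 0, 0), (112, 0, 0, 0, 0), (113, 0, 0, 0, 0), (114, 0, 0, 0, 0), (115, 0, 0, 0, 0), (116, 0, 0, 0, 0), (117, 0, 0, 0, 0), (118, 0, 0, 0, 0), (119, 0, 0, 0, 0), (116, 0, 0, 0, 0), (117, 0, 0, 0, 0), (120, 0, 0, 0, 0), (121, 0, 0, 0, 0), (122, 0, 0, 0, 0), (123, 0, 0, 0, 0), (118, 0, 0, 0, 0), (119, 0, 0, 0, 0), (120, 0, 0, 0, 0), (121, 0, 0, 0, 0), (124, 0, 0, 0, 0), (125, 0, 0, 0, 0), (122, 0, 0, 0, 0), (123, 0, 0, 0, 0), (124, 0, 0, 0, 0), (125, 0, 0, 0, 0)],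
  [(68, 0, 0, 0, 0), (78, 0, 0, 0, 0), (60, 0, 0, 0, 0), (80, 0, 0, 0, 0), (62, 0, 0, 0, 0), (70, 0, 0, 0, 0), (68, 0, 0, 0, 0), (78, 0, 0, 0, 0), (54, 0, 0, 0, 0), (82, 0, 0, 0, 0), (56, 0, 0, 0, 0), (72, 0, 0, 0, 0), (60, 0, 0, 0, 0), (80, 0, 0, 0, 0), (54, 0, 0, 0, 0), (82, 0, 0, 0, 0), (62, 0, 0, 0, 0), (70, 0, 0, 0, 0), (56, 0, 0, 0, 0), (72, 0, 0, 0, 0), (66, 0, 0, 0, 0), (76, 0, 0, 0, 0), (66, 0, 0, 0, 0), (76, 0, 0, 0, 0), (48, 0, 0, 0, 0), (83, 0, 0, 0, 0), (50, 0, 0, 0, 0), (73, 0, 0, 0, 0), (48, 0, 0, 0, 0), (83, 0, 0, 0, 0), (50, 0, 0, 0, 0), (73, 0, 0, 0, 0), (64, 0, 0, 0, 0), (74, 0, 0, 0, 0), (64, 0, 0, 0, 0), (74, 0, 0, 0, 0), (44, 0, 0, 0, 0), (81, 0, 0, 0, 0), (46, 0, 0, 0, 0), (71, 0, 0, 0, 0), (44, 0, 0, 0, 0), (81, 0, 0, 0, 0), (46, 0, 0, 0, 0), (71, 0, 0, 0, 0), (58, 0, 0, 0, 0), (75, 0, 0, 0, 0), (52, 0, 0, 0, 0),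 (77, 0, 0, 0, 0), (58, 0, 0, 0, 0), (75, 0, 0, 0, 0), (42, 0, 0, 0, 0), (79, 0, 0, 0, 0), (47, 0, 0, 0, 0), (63, 0, 0, 0, 0), (52, 0, 0, 0, 0), (77, 0, 0, 0, 0), (42, 0, 0, 0, 0), (79, 0, 0, 0, 0), (51, 0, 0, 0, 0), (57, 0, 0, 0, 0), (47, 0, 0, 0, 0), (63, 0, 0, 0, 0), (51, 0, 0, 0, 0), (57, 0, 0, 0, 0), (59, 0, 0, 0, 0), (65, 0, 0, 0, 0), (53, 0, 0, 0, 0), (67, 0, 0, 0, 0), (59, 0, 0, 0, 0), (65, 0, 0, 0, 0), (43, 0, 0, 0, 0), (69, 0, 0, 0, 0), (45, 0, 0, 0, 0), (61, 0, 0, 0, 0), (53, 0, 0, 0, 0), (67, 0, 0, 0, 0), (43, 0, 0, 0, 0), (69, 0, 0, 0, 0), (49, 0, 0, 0, 0), (55, 0, 0, 0, 0), (45, 0, 0, 0, 0), (61, 0, 0, 0, 0), (49, 0, 0, 0, 0), (55, 0, 0, 0, 0)],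
  [(110, 0, 0, 0, 0), (120, 0, 0, 0, 0), (102, 0, 0, 0, 0), (122, 0, 0, 0, 0), (104, 0, 0, 0, 0), (112, 0, 0, 0, 0), (110, 0, 0, 0, 0), (120, 0, 0, 0, 0), (96, 0, 0, 0, 0), (124, 0, 0, 0, 0), (98, 0, 0, 0, 0), (114, 0, 0, 0, 0), (102, 0, 0, 0, 0), (122, 0, 0, 0, 0), (96, 0, 0, 0, 0), (124, 0, 0, 0, 0), (104, 0, 0, 0, 0), (112, 0, 0, 0, 0), (98, 0, 0, 0, 0), (114, 0, 0, 0, 0), (108, 0, 0, 0, 0), (118, 0, 0, 0, 0), (108, 0, 0, 0, 0), (118, 0, 0, 0, 0), (90, 0, 0, 0, 0), (125, 0, 0, 0, 0), (92, 0, 0, 0, 0), (115, 0, 0, 0, 0), (90, 0, 0, 0, 0), (125, 0, 0, 0, 0), (92, 0, 0, 0, 0), (115, 0, 0, 0, 0), (106, 0, 0, 0, 0), (116, 0, 0, 0, 0), (106, 0, 0, 0, 0), (116, 0, 0, 0, 0), (86, 0, 0, 0, 0), (123, 0, 0, 0, 0), (88, 0, 0, 0, 0), (113, 0, 0, 0, 0), (86, 0, 0, 0, 0), (123, 0, 0, 0, 0), (88, 0, 0, 0, 0), (113, 0, 0, 0, 0), (100, 0, 0, 0, 0), (117,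 0, 0, 0, 0), (94, 0, 0, 0, 0), (119, 0, 0, 0, 0), (100, 0, 0, 0, 0), (117, 0, 0, 0, 0), (84, 0, 0, 0, 0), (121, 0, 0, 0, 0), (89, 0, 0, 0, 0), (105, 0, 0, 0, 0), (94, 0, 0, 0, 0), (119, 0, 0, 0, 0), (84, 0, 0, 0, 0), (121, 0, 0, 0, 0), (93, 0, 0, 0, 0), (99, 0, 0, 0, 0), (89, 0, 0, 0, 0), (105, 0, 0, 0, 0), (93, 0, 0, 0, 0), (99, 0, 0, 0, 0), (101, 0, 0, 0, 0), (107, 0, 0, 0, 0), (95, 0, 0, 0, 0), (109, 0, 0, 0, 0), (101, 0, 0, 0, 0), (107, 0, 0, 0, 0), (85, 0, 0, 0, 0), (111, 0, 0, 0, 0), (87, 0, 0, 0, 0), (103, 0, 0, 0, 0), (95, 0, 0, 0, 0), (109, 0, 0, 0, 0), (85, 0, 0, 0, 0), (111, 0, 0, 0, 0), (91, 0, 0, 0, 0), (97, 0, 0, 0, 0), (87, 0, 0, 0, 0), (103, 0, 0, 0, 0), (91, 0, 0, 0, 0), (97, 0, 0, 0, 0)],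
  [(26, 0, 0, 0, 0), (36, 0, 0, 0, 0), (18, 0, 0, 0, 0), (38, 0, 0, 0, 0), (20, 0, 0, 0, 0), (28, 0, 0, 0, 0), (26, 0, 0, 0, 0), (36, 0, 0, 0, 0), (12, 0, 0, 0, 0), (40, 0, 0, 0, 0), (14, 0, 0, 0, 0), (30, 0, 0, 0, 0), (18, 0, 0, 0, 0), (38, 0, 0, 0, 0), (12, 0, 0, 0, 0), (40, 0, 0, 0, 0), (20, 0, 0, 0, 0), (28, 0, 0, 0, 0), (14, 0, 0, 0, 0), (30, 0, 0, 0, 0), (24, 0, 0, 0, 0), (34, 0, 0, 0, 0), (24, 0, 0, 0, 0), (34, 0, 0, 0, 0), (6, 0, 0, 0, 0), (41, 0, 0, 0, 0), (8, 0, 0, 0, 0), (31, 0, 0, 0, 0), (6, 0, 0, 0, 0), (41, 0, 0, 0, 0), (8, 0, 0, 0, 0), (31, 0, 0, 0, 0), (22, 0, 0, 0, 0), (32, 0, 0, 0, 0), (22, 0, 0, 0, 0), (32, 0, 0, 0, 0), (2, 0, 0, 0, 0), (39, 0, 0, 0, 0), (4, 0, 0, 0, 0), (29, 0, 0, 0, 0), (2, 0, 0, 0, 0), (39, 0, 0, 0, 0), (4, 0, 0, 0, 0), (29, 0, 0, 0, 0), (16, 0, 0, 0, 0), (33, 0, 0, 0, 0), (10, 0, 0, 0, 0), (35, 0,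 0, 0, 0), (16, 0, 0, 0, 0), (33, 0, 0, 0, 0), (0, 0, 0, 0, 0), (37, 0, 0, 0, 0), (5, 0, 0, 0, 0), (21, 0, 0, 0, 0), (10, 0, 0, 0, 0), (35, 0, 0, 0, 0), (0, 0, 0, 0, 0), (37, 0, 0, 0, 0), (9, 0, 0, 0, 0), (15, 0, 0, 0, 0), (5, 0, 0, 0, 0), (21, 0, 0, 0, 0), (9, 0, 0, 0, 0), (15, 0, 0, 0, 0), (17, 0, 0, 0, 0), (23, 0, 0, 0, 0), (11, 0, 0, 0, 0), (25, 0, 0, 0, 0), (17, 0, 0, 0, 0), (23, 0, 0, 0, 0), (1, 0, 0, 0, 0), (27, 0, 0, 0, 0), (3, 0, 0, 0, 0), (19, 0, 0, 0, 0), (11, 0, 0, 0, 0), (25, 0, 0, 0, 0), (1, 0, 0, 0, 0), (27, 0, 0, 0, 0), (7, 0, 0, 0, 0), (13, 0, 0, 0, 0), (3, 0, 0, 0, 0), (19, 0, 0, 0, 0), (7, 0, 0, 0, 0), (13, 0, 0, 0, 0)]]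

def m30_2 : Base := (0, 1, [(0, [0], [0, 5]), (0, [1], [1, 3]), (0, [2], [2, 5]), (4, [], [4])])

def l30_2 : Cov := [(144, 0, 1, [(0, [0], [0, 5]), (0, [1], [1, 3]), (0, [2], [2, 5]), (4, [], [4])]),
  (-144, 0, 1, [(0, [0], [0, 5]), (0, [1], [1, 4]), (0, [2], [2, 5]), (4, [], [3])]),
  (192, 0, 1, [(0, [0], [0, 5]), (0, [1], [1, 2]), (0, [2], [3, 5]), (4, [], [4])]),
  (-96, 0, 1, [(0, [0], [0, 5]), (0, [1], [1, 4]), (0, [2], [3, 5]), (4, [], [2])]),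
  (-192, 0, 1, [(0, [0], [0, 5]), (0, [1], [1, 2]), (0, [2], [4, 5]), (4, [], [3])]),
  (96, 0, 1, [(0, [0], [0, 5]), (0, [1], [1, 3]), (0, [2], [4, 5]), (4, [], [2])]),
  (144, 0, 1, [(0, [0], [0, 5]), (0, [1], [2, 3]), (0, [2], [1, 5]), (4, [], [4])]),
  (-144, 0, 1, [(0, [0], [0, 5]), (0, [1], [2, 4]), (0, [2], [1, 5]), (4, [], [3])]),
  (-96, 0, 1, [(0, [0], [0, 5]), (0, [1], [2, 4]), (0, [2], [3, 5]), (4, [], [1])]),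
  (96, 0, 1, [(0, [0], [0, 5]), (0, [1], [2, 3]), (0, [2], [4, 5]), (4, [], [1])]),
  (-144, 0, 1, [(0, [0], [1, 5]), (0, [1], [2, 3]), (0, [2], [0, 5]), (4, [], [4])]),
  (144, 0, 1, [(0, [0], [1, 5]), (0, [1], [2, 4]), (0, [2], [0, 5]), (4, [], [3])]),
  (144, 0, 1, [(0, [0], [1, 5]), (0, [1], [2, 0]), (0, [2], [3, 5]), (4, [], [4])]),
  (-144, 0, 1, [(0, [0], [1, 5]), (0, [1], [2, 4]), (0, [2], [3, 5]), (4, [], [0])]),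
  (-144, 0, 1, [(0, [0], [1, 5]), (0, [1], [2, 0]), (0, [2], [4, 5]), (4, [], [3])]),
  (144, 0, 1, [(0, [0], [1, 5]), (0, [1], [2, 3]), (0, [2], [4, 5]), (4, [], [0])]),
  (-144, 0, 1, [(0, [0], [2, 5]), (0, [1], [1, 3]), (0, [2], [0, 5]), (4, [], [4])]),
  (144, 0, 1, [(0, [0], [2, 5]), (0, [1], [1, 4]), (0, [2], [0, 5]), (4, [], [3])]),
  (144, 0, 1, [(0, [0], [2, 5]), (0, [1], [1, 0]), (0, [2], [3, 5]), (4, [], [4])]),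
  (-144, 0, 1, [(0, [0], [2, 5]), (0, [1], [1, 4]), (0, [2], [3, 5]), (4, [], [0])]),
  (-144, 0, 1, [(0, [0], [2, 5]), (0, [1], [1, 0]), (0, [2], [4, 5]), (4, [], [3])]),
  (144, 0, 1, [(0, [0], [2, 5]), (0, [1], [1, 3]), (0, [2], [4, 5]), (4, [], [0])]),
  (-144, 0, 1, [(0, [0], [3, 5]), (0, [1], [0, 2]), (0, [2], [1, 5]), (4, [], [4])]),
  (-144, 0, 1, [(0, [0], [3, 5]), (0, [1], [0, 1]), (0, [2], [2, 5]), (4, [], [4])]),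
  (-192, 0, 1, [(0, [0], [3, 5]), (0, [1], [1, 2]), (0, [2], [0, 5]), (4, [], [4])]),
  (96, 0, 1, [(0, [0], [3, 5]), (0, [1], [1, 4]), (0, [2], [0, 5]), (4, [], [2])]),
  (144, 0, 1, [(0, [0], [3, 5]), (0, [1], [1, 4]), (0, [2], [2, 5]), (4, [], [0])]),
  (-96, 0, 1, [(0, [0], [3, 5]), (0, [1], [1, 0]), (0, [2], [4, 5]), (4, [], [2])]),
  (192, 0, 1, [(0, [0], [3, 5]), (0, [1], [1, 2]), (0, [2], [4, 5]), (4, [], [0])]),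
  (96, 0, 1, [(0, [0], [3, 5]), (0, [1], [2, 4]), (0, [2], [0, 5]), (4, [], [1])]),
  (144, 0, 1, [(0, [0], [3, 5]), (0, [1], [2, 4]), (0, [2], [1, 5]), (4, [], [0])]),
  (-96, 0, 1, [(0, [0], [3, 5]), (0, [1], [2, 0]), (0, [2], [4, 5]), (4, [], [1])]),
  (144, 0, 1, [(0, [0], [4, 5]), (0, [1], [0, 2]), (0, [2], [1, 5]), (4, [], [3])]),
  (144, 0, 1, [(0, [0], [4, 5]), (0, [1], [0, 1]), (0, [2], [2, 5]), (4, [], [3])]),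
  (192, 0, 1, [(0, [0], [4, 5]), (0, [1], [1, 2]), (0, [2], [0, 5]), (4, [], [3])]),
  (-96, 0, 1, [(0, [0], [4, 5]), (0, [1], [1, 3]), (0, [2], [0, 5]), (4, [], [2])]),
  (-144, 0, 1, [(0, [0], [4, 5]), (0, [1], [1, 3]), (0, [2], [2, 5]), (4, [], [0])]),
  (96, 0, 1, [(0, [0], [4, 5]), (0, [1], [1, 0]), (0, [2], [3, 5]), (4, [], [2])]),
  (-192, 0, 1, [(0, [0], [4, 5]), (0, [1], [1, 2]), (0, [2], [3, 5]), (4, [], [0])]),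
  (-96, 0, 1, [(0, [0], [4, 5]), (0, [1], [2, 3]), (0, [2], [0, 5]), (4, [], [1])]),
  (-144, 0, 1, [(0, [0], [4, 5]), (0, [1], [2, 3]), (0, [2], [1, 5]), (4, [], [0])]),
  (96, 0, 1, [(0, [0], [4, 5]), (0, [1], [2, 0]), (0, [2], [3, 5]), (4, [], [1])]),
  (72, 0, 1, [(0, [0], [0, 5]), (0, [2], [1, 3]), (0, [1], [2, 5]), (4, [], [4])]),
  (-72, 0, 1, [(0, [0], [0, 5]), (0, [2], [1, 4]), (0, [1], [2, 5]), (4, [], [3])]),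
  (96, 0, 1, [(0, [0], [0, 5]), (0, [2], [1, 2]), (0, [1], [3, 5]), (4, [], [4])]),
  (-48, 0, 1, [(0, [0], [0, 5]), (0, [2], [1, 4]), (0, [1], [3, 5]), (4, [], [2])]),
  (-96, 0, 1, [(0, [0], [0, 5]), (0, [2], [1, 2]), (0, [1], [4, 5]), (4, [], [3])]),
  (48, 0, 1, [(0, [0], [0, 5]), (0, [2], [1, 3]), (0, [1], [4, 5]), (4, [], [2])]),
  (72, 0, 1, [(0, [0], [0, 5]), (0, [2], [2, 3]), (0, [1], [1, 5]), (4, [], [4])]),
  (-72, 0, 1, [(0, [0], [0, 5]), (0, [2], [2, 4]), (0, [1], [1, 5]), (4, [], [3])]),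
  (-48, 0, 1, [(0, [0], [0, 5]), (0, [2], [2, 4]), (0, [1], [3, 5]), (4, [], [1])]),
  (48, 0, 1, [(0, [0], [0, 5]), (0, [2], [2, 3]), (0, [1], [4, 5]), (4, [], [1])]),
  (-72, 0, 1, [(0, [0], [1, 5]), (0, [2], [2, 3]), (0, [1], [0, 5]), (4, [], [4])]),
  (72, 0, 1, [(0, [0], [1, 5]), (0, [2], [2, 4]), (0, [1], [0, 5]), (4, [], [3])]),
  (72, 0, 1, [(0, [0], [1, 5]), (0, [2], [2, 0]), (0, [1], [3, 5]), (4, [], [4])]),
  (-72, 0, 1, [(0, [0], [1, 5]), (0, [2], [2, 4]), (0, [1], [3, 5]), (4, [], [0])]),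
  (-72, 0, 1, [(0, [0], [1, 5]), (0, [2], [2, 0]), (0, [1], [4, 5]), (4, [], [3])]),
  (72, 0, 1, [(0, [0], [1, 5]), (0, [2], [2, 3]), (0, [1], [4, 5]), (4, [], [0])]),
  (-72, 0, 1, [(0, [0], [2, 5]), (0, [2], [1, 3]), (0, [1], [0, 5]), (4, [], [4])]),
  (72, 0, 1, [(0, [0], [2, 5]), (0, [2], [1, 4]), (0, [1], [0, 5]), (4, [], [3])]),
  (72, 0, 1, [(0, [0], [2, 5]), (0, [2], [1, 0]), (0, [1], [3, 5]), (4, [], [4])]),
  (-72, 0, 1, [(0, [0], [2, 5]), (0, [2], [1, 4]), (0, [1], [3, 5]), (4, [], [0])]),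
  (-72, 0, 1, [(0, [0], [2, 5]), (0, [2], [1, 0]), (0, [1], [4, 5]), (4, [], [3])]),
  (72, 0, 1, [(0, [0], [2, 5]), (0, [2], [1, 3]), (0, [1], [4, 5]), (4, [], [0])]),
  (-72, 0, 1, [(0, [0], [3, 5]), (0, [2], [0, 2]), (0, [1], [1, 5]), (4, [], [4])]),
  (-72, 0, 1, [(0, [0], [3, 5]), (0, [2], [0, 1]), (0, [1], [2, 5]), (4, [], [4])]),
  (-96, 0, 1, [(0, [0], [3, 5]), (0, [2], [1, 2]), (0, [1], [0, 5]), (4, [], [4])]),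
  (48, 0, 1, [(0, [0], [3, 5]), (0, [2], [1, 4]), (0, [1], [0, 5]), (4, [], [2])]),
  (72, 0, 1, [(0, [0], [3, 5]), (0, [2], [1, 4]), (0, [1], [2, 5]), (4, [], [0])]),
  (-48, 0, 1, [(0, [0], [3, 5]), (0, [2], [1, 0]), (0, [1], [4, 5]), (4, [], [2])]),
  (96, 0, 1, [(0, [0], [3, 5]), (0, [2], [1, 2]), (0, [1], [4, 5]), (4, [], [0])]),
  (48, 0, 1, [(0, [0], [3, 5]), (0, [2], [2, 4]), (0, [1], [0, 5]), (4, [], [1])]),
  (72, 0, 1, [(0, [0], [3, 5]), (0, [2], [2, 4]), (0, [1], [1, 5]), (4, [], [0])]),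
  (-48, 0, 1, [(0, [0], [3, 5]), (0, [2], [2, 0]), (0, [1], [4, 5]), (4, [], [1])]),
  (72, 0, 1, [(0, [0], [4, 5]), (0, [2], [0, 2]), (0, [1], [1, 5]), (4, [], [3])]),
  (72, 0, 1, [(0, [0], [4, 5]), (0, [2], [0, 1]), (0, [1], [2, 5]), (4, [], [3])]),
  (96, 0, 1, [(0, [0], [4, 5]), (0, [2], [1, 2]), (0, [1], [0, 5]), (4, [], [3])]),
  (-48, 0, 1, [(0, [0], [4, 5]), (0, [2], [1, 3]), (0, [1], [0, 5]), (4, [], [2])]),
  (-72, 0, 1, [(0, [0], [4, 5]), (0, [2], [1, 3]), (0, [1], [2, 5]), (4, [], [0])]),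
  (48, 0, 1, [(0, [0], [4, 5]), (0, [2], [1, 0]), (0, [1], [3, 5]), (4, [], [2])]),
  (-96, 0, 1, [(0, [0], [4, 5]), (0, [2], [1, 2]), (0, [1], [3, 5]), (4, [], [0])]),
  (-48, 0, 1, [(0, [0], [4, 5]), (0, [2], [2, 3]), (0, [1], [0, 5]), (4, [], [1])]),
  (-72, 0, 1, [(0, [0], [4, 5]), (0, [2], [2, 3]), (0, [1], [1, 5]), (4, [], [0])]),
  (48, 0, 1, [(0, [0], [4, 5]), (0, [2], [2, 0]), (0, [1], [3, 5]), (4, [], [1])]),
  (72, 0, 1, [(0, [1], [0, 5]), (0, [0], [1, 3]), (0, [2], [2, 5]), (4, [], [4])]),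
  (-72, 0, 1, [(0, [1], [0, 5]), (0, [0], [1, 4]), (0, [2], [2, 5]), (4, [], [3])]),
  (96, 0, 1, [(0, [1], [0, 5]), (0, [0], [1, 2]), (0, [2], [3, 5]), (4, [], [4])]),
  (-48, 0, 1, [(0, [1], [0, 5]), (0, [0], [1, 4]), (0, [2], [3, 5]), (4, [], [2])]),
  (-96, 0, 1, [(0, [1], [0, 5]), (0, [0], [1, 2]), (0, [2], [4, 5]), (4, [], [3])]),
  (48, 0, 1, [(0, [1], [0, 5]), (0, [0], [1, 3]), (0, [2], [4, 5]), (4, [], [2])]),
  (72, 0, 1, [(0, [1], [0, 5]), (0, [0], [2, 3]), (0, [2], [1, 5]), (4, [], [4])]),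
  (-72, 0, 1, [(0, [1], [0, 5]), (0, [0], [2, 4]), (0, [2], [1, 5]), (4, [], [3])]),
  (-48, 0, 1, [(0, [1], [0, 5]), (0, [0], [2, 4]), (0, [2], [3, 5]), (4, [], [1])]),
  (48, 0, 1, [(0, [1], [0, 5]), (0, [0], [2, 3]), (0, [2], [4, 5]), (4, [], [1])]),
  (-72, 0, 1, [(0, [1], [1, 5]), (0, [0], [2, 3]), (0, [2], [0, 5]), (4, [], [4])]),
  (72, 0, 1, [(0, [1], [1, 5]), (0, [0], [2, 4]), (0, [2], [0, 5]), (4, [], [3])]),
  (72, 0, 1, [(0, [1], [1, 5]), (0, [0], [2, 0]), (0, [2], [3, 5]), (4, [], [4])]),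
  (-72, 0, 1, [(0, [1], [1, 5]), (0, [0], [2, 4]), (0, [2], [3, 5]), (4, [], [0])]),
  (-72, 0, 1, [(0, [1], [1, 5]), (0, [0], [2, 0]), (0, [2], [4, 5]), (4, [], [3])]),
  (72, 0, 1, [(0, [1], [1, 5]), (0, [0], [2, 3]), (0, [2], [4, 5]), (4, [], [0])]),
  (-72, 0, 1, [(0, [1], [2, 5]), (0, [0], [1, 3]), (0, [2], [0, 5]), (4, [], [4])]),
  (72, 0, 1, [(0, [1], [2, 5]), (0, [0], [1, 4]), (0, [2], [0, 5]), (4, [], [3])]),
  (72, 0, 1, [(0, [1], [2, 5]), (0, [0], [1, 0]), (0, [2], [3, 5]), (4, [], [4])]),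
  (-72, 0, 1, [(0, [1], [2, 5]), (0, [0], [1, 4]), (0, [2], [3, 5]), (4, [], [0])]),
  (-72, 0, 1, [(0, [1], [2, 5]), (0, [0], [1, 0]), (0, [2], [4, 5]), (4, [], [3])]),
  (72, 0, 1, [(0, [1], [2, 5]), (0, [0], [1, 3]), (0, [2], [4, 5]), (4, [], [0])]),
  (-72, 0, 1, [(0, [1], [3, 5]), (0, [0], [0, 2]), (0, [2], [1, 5]), (4, [], [4])]),
  (-72, 0, 1, [(0, [1], [3, 5]), (0, [0], [0, 1]), (0, [2], [2, 5]), (4, [], [4])]),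
  (-96, 0, 1, [(0, [1], [3, 5]), (0, [0], [1, 2]), (0, [2], [0, 5]), (4, [], [4])]),
  (48, 0, 1, [(0, [1], [3, 5]), (0, [0], [1, 4]), (0, [2], [0, 5]), (4, [], [2])]),
  (72, 0, 1, [(0, [1], [3, 5]), (0, [0], [1, 4]), (0, [2], [2, 5]), (4, [], [0])]),
  (-48, 0, 1, [(0, [1], [3, 5]), (0, [0], [1, 0]), (0, [2], [4, 5]), (4, [], [2])]),
  (96, 0, 1, [(0, [1], [3, 5]), (0, [0], [1, 2]), (0, [2], [4, 5]), (4, [], [0])]),
  (48, 0, 1, [(0, [1], [3, 5]), (0, [0], [2, 4]), (0, [2], [0, 5]), (4, [], [1])]),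
  (72, 0, 1, [(0, [1], [3, 5]), (0, [0], [2, 4]), (0, [2], [1, 5]), (4, [], [0])]),
  (-48, 0, 1, [(0, [1], [3, 5]), (0, [0], [2, 0]), (0, [2], [4, 5]), (4, [], [1])]),
  (72, 0, 1, [(0, [1], [4, 5]), (0, [0], [0, 2]), (0, [2], [1, 5]), (4, [], [3])]),
  (72, 0, 1, [(0, [1], [4, 5]), (0, [0], [0, 1]), (0, [2], [2, 5]), (4, [], [3])]),
  (96, 0, 1, [(0, [1], [4, 5]), (0, [0], [1, 2]), (0, [2], [0, 5]), (4, [], [3])]),
  (-48, 0, 1, [(0, [1], [4, 5]), (0, [0], [1, 3]), (0, [2], [0, 5]), (4, [], [2])]),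
  (-72, 0, 1, [(0, [1], [4, 5]), (0, [0], [1, 3]), (0, [2], [2, 5]), (4, [], [0])]),
  (48, 0, 1, [(0, [1], [4, 5]), (0, [0], [1, 0]), (0, [2], [3, 5]), (4, [], [2])]),
  (-96, 0, 1, [(0, [1], [4, 5]), (0, [0], [1, 2]), (0, [2], [3, 5]), (4, [], [0])]),
  (-48, 0, 1, [(0, [1], [4, 5]), (0, [0], [2, 3]), (0, [2], [0, 5]), (4, [], [1])]),
  (-72, 0, 1, [(0, [1], [4, 5]), (0, [0], [2, 3]), (0, [2], [1, 5]), (4, [], [0])]),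
  (48, 0, 1, [(0, [1], [4, 5]), (0, [0], [2, 0]), (0, [2], [3, 5]), (4, [], [1])])]

def z30_2 : Cov := [(0, 0, 1, [(0, [0], [0, 5]), (0, [1], [3, 4]), (0, [2], [1, 5]), (4, [], [2])]),
  (0, 0, 1, [(0, [0], [0, 5]), (0, [1], [3, 4]), (0, [2], [2, 5]), (4, [], [1])]),
  (0, 0, 1, [(0, [0], [1, 5]), (0, [1], [0, 3]), (0, [2], [2, 5]), (4, [], [4])]),
  (0, 0, 1, [(0, [0], [1, 5]), (0, [1], [0, 4]), (0, [2], [2, 5]), (4, [], [3])]),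
  (0, 0, 1, [(0, [0], [1, 5]), (0, [1], [3, 4]), (0, [2], [2, 5]), (4, [], [0])]),
  (0, 0, 1, [(0, [0], [2, 5]), (0, [1], [0, 3]), (0, [2], [1, 5]), (4, [], [4])]),
  (0, 0, 1, [(0, [0], [2, 5]), (0, [1], [0, 4]), (0, [2], [1, 5]), (4, [], [3])]),
  (0, 0, 1, [(0, [0], [2, 5]), (0, [1], [3, 4]), (0, [2], [1, 5]), (4, [], [0])]),
  (0, 0, 1, [(0, [0], [3, 5]), (0, [1], [0, 4]), (0, [2], [1, 5]), (4, [], [2])]),
  (0, 0, 1, [(0, [0], [3, 5]), (0, [1], [0, 4]), (0, [2], [2, 5]), (4, [], [1])]),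
  (0, 0, 1, [(0, [0], [4, 5]), (0, [1], [0, 3]), (0, [2], [1, 5]), (4, [], [2])]),
  (0, 0, 1, [(0, [0], [4, 5]), (0, [1], [0, 3]), (0, [2], [2, 5]), (4, [], [1])]),
  (0, 0, 1, [(0, [0], [0, 5]), (0, [2], [3, 4]), (0, [1], [1, 5]), (4, [], [2])]),
  (0, 0, 1, [(0, [0], [0, 5]), (0, [2], [3, 4]), (0, [1], [2, 5]), (4, [], [1])]),
  (0, 0, 1, [(0, [0], [1, 5]), (0, [2], [0, 3]), (0, [1], [2, 5]), (4, [], [4])]),
  (0, 0, 1, [(0, [0], [1, 5]), (0, [2], [0, 4]), (0, [1], [2, 5]), (4, [], [3])]),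
  (0, 0, 1, [(0, [0], [1, 5]), (0, [2], [3, 4]), (0, [1], [2, 5]), (4, [], [0])]),
  (0, 0, 1, [(0, [0], [2, 5]), (0, [2], [0, 3]), (0, [1], [1, 5]), (4, [], [4])]),
  (0, 0, 1, [(0, [0], [2, 5]), (0, [2], [0, 4]), (0, [1], [1, 5]), (4, [], [3])]),
  (0, 0, 1, [(0, [0], [2, 5]), (0, [2], [3, 4]), (0, [1], [1, 5]), (4, [], [0])]),
  (0, 0, 1, [(0, [0], [3, 5]), (0, [2], [0, 4]), (0, [1], [1, 5]), (4, [], [2])]),
  (0, 0, 1, [(0, [0], [3, 5]), (0, [2], [0, 4]), (0, [1], [2, 5]), (4, [], [1])]),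
  (0, 0, 1, [(0, [0], [4, 5]), (0, [2], [0, 3]), (0, [1], [1, 5]), (4, [], [2])]),
  (0, 0, 1, [(0, [0], [4, 5]), (0, [2], [0, 3]), (0, [1], [2, 5]), (4, [], [1])]),
  (0, 0, 1, [(0, [1], [0, 5]), (0, [0], [3, 4]), (0, [2], [1, 5]), (4, [], [2])]),
  (0, 0, 1, [(0, [1], [0, 5]), (0, [0], [3, 4]), (0, [2], [2, 5]), (4, [], [1])]),
  (0, 0, 1, [(0, [1], [1, 5]), (0, [0], [0, 3]), (0, [2], [2, 5]), (4, [], [4])]),
  (0, 0, 1, [(0, [1], [1, 5]), (0, [0], [0, 4]), (0, [2], [2, 5]), (4, [], [3])]),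
  (0, 0, 1, [(0, [1], [1, 5]), (0, [0], [3, 4]), (0, [2], [2, 5]), (4, [], [0])]),
  (0, 0, 1, [(0, [1], [2, 5]), (0, [0], [0, 3]), (0, [2], [1, 5]), (4, [], [4])]),
  (0, 0, 1, [(0, [1], [2, 5]), (0, [0], [0, 4]), (0, [2], [1, 5]), (4, [], [3])]),
  (0, 0, 1, [(0, [1], [2, 5]), (0, [0], [3, 4]), (0, [2], [1, 5]), (4, [], [0])]),
  (0, 0, 1, [(0, [1], [3, 5]), (0, [0], [0, 4]), (0, [2], [1, 5]), (4, [], [2])]),
  (0, 0, 1, [(0, [1], [3, 5]), (0, [0], [0, 4]), (0, [2], [2, 5]), (4, [], [1])]),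
  (0, 0, 1, [(0, [1], [4, 5]), (0, [0], [0, 3]), (0, [2], [1, 5]), (4, [], [2])]),
  (0, 0, 1, [(0, [1], [4, 5]), (0, [0], [0, 3]), (0, [2], [2, 5]), (4, [], [1])]),
  (0, 0, 1, [(0, [1], [0, 5]), (0, [2], [3, 4]), (0, [0], [1, 5]), (4, [], [2])]),
  (0, 0, 1, [(0, [1], [0, 5]), (0, [2], [3, 4]), (0, [0], [2, 5]), (4, [], [1])]),
  (0, 0, 1, [(0, [1], [3, 5]), (0, [2], [0, 4]), (0, [0], [1, 5]), (4, [], [2])]),
  (0, 0, 1, [(0, [1], [3, 5]), (0, [2], [0, 4]), (0, [0], [2, 5]), (4, [], [1])]),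
  (0, 0, 1, [(0, [1], [4, 5]), (0, [2], [0, 3]), (0, [0], [1, 5]), (4, [], [2])]),
  (0, 0, 1, [(0, [1], [4, 5]), (0, [2], [0, 3]), (0, [0], [2, 5]), (4, [], [1])]),
  (0, 0, 1, [(0, [2], [0, 5]), (0, [0], [3, 4]), (0, [1], [1, 5]), (4, [], [2])]),
  (0, 0, 1, [(0, [2], [0, 5]), (0, [0], [3, 4]), (0, [1], [2, 5]), (4, [], [1])]),
  (0, 0, 1, [(0, [2], [3, 5]), (0, [0], [0, 4]), (0, [1], [1, 5]), (4, [], [2])]),
  (0, 0, 1, [(0, [2], [3, 5]), (0, [0], [0, 4]), (0, [1], [2, 5]), (4, [], [1])]),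
  (0, 0, 1, [(0, [2], [4, 5]), (0, [0], [0, 3]), (0, [1], [1, 5]), (4, [], [2])]),
  (0, 0, 1, [(0, [2], [4, 5]), (0, [0], [0, 3]), (0, [1], [2, 5]), (4, [], [1])]),
  (0, 0, 1, [(0, [2], [0, 5]), (0, [1], [3, 4]), (0, [0], [1, 5]), (4, [], [2])]),
  (0, 0, 1, [(0, [2], [0, 5]), (0, [1], [3, 4]), (0, [0], [2, 5]), (4, [], [1])]),
  (0, 0, 1, [(0, [2], [3, 5]), (0, [1], [0, 4]), (0, [0], [1, 5]), (4, [], [2])]),
  (0, 0, 1, [(0, [2], [3, 5]), (0, [1], [0, 4]), (0, [0], [2, 5]), (4, [], [1])]),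
  (0, 0, 1, [(0, [2], [4, 5]), (0, [1], [0, 3]), (0, [0], [1, 5]), (4, [], [2])]),
  (0, 0, 1, [(0, [2], [4, 5]), (0, [1], [0, 3]), (0, [0], [2, 5]), (4, [], [1])])]

def w30_2 : List (List Wit) := [[(0, 0, 0, 0, 0), (1, 0, 0, 0, 0), (2, 0, 0, 0, 0), (3, 0, 0, 0, 0), (4, 0, 0, 0, 0), (5, 0, 0, 0, 0), (6, 0, 0, 0, 0), (7, 0, 0, 0, 0), (2, 0, 0, 0, 0), (8, 0, 0, 0, 0), (4, 0, 0, 0, 0), (9, 0, 0, 0, 0), (6, 0, 0, 0, 0), (126, 0, 0, 0, 0), (0, 0, 0, 0, 0), (127, 0, 0, 0, 0), (7, 0, 0, 0, 0), (126, 0, 0, 0, 0), (1, 0, 0, 0, 0), (127, 0, 0, 0, 0), (128, 0, 0, 0, 0), (129, 0, 0, 0, 0), (10, 0, 0, 0, 0), (11, 0, 0, 0, 0), (12, 0, 0, 0, 0), (13, 0, 0, 0, 0), (14, 0, 0, 0, 0), (15, 0, 0, 0, 0), (128, 0, 0, 0, 0), (130, 0, 0, 0, 0), (129, 0, 0, 0, 0), (130, 0, 0, 0, 0), (131, 0, 0, 0, 0), (132, 0, 0, 0, 0), (16, 0, 0, 0, 0), (17, 0, 0, 0, 0), (18,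 0, 0, 0, 0), (19, 0, 0, 0, 0), (20, 0, 0, 0, 0), (21, 0, 0, 0, 0), (131, 0, 0, 0, 0), (133, 0, 0, 0, 0), (132, 0, 0, 0, 0), (133, 0, 0, 0, 0), (22, 0, 0, 0, 0), (134, 0, 0, 0, 0), (23, 0, 0, 0, 0), (135, 0, 0, 0, 0), (24, 0, 0, 0, 0), (25, 0, 0, 0, 0), (23, 0, 0, 0, 0), (26, 0, 0, 0, 0), (27, 0, 0, 0, 0), (28, 0, 0, 0, 0), (24, 0, 0, 0, 0), (29, 0, 0, 0, 0), (22, 0, 0, 0, 0), (30, 0, 0, 0, 0), (31, 0, 0, 0, 0), (28, 0, 0, 0, 0), (134, 0, 0, 0, 0), (30, 0, 0, 0, 0), (135, 0, 0, 0, 0), (26, 0, 0, 0, 0), (32, 0, 0, 0, 0), (136, 0, 0, 0, 0), (33, 0, 0, 0, 0), (137, 0, 0, 0, 0), (34, 0, 0, 0, 0), (35, 0, 0, 0, 0), (33, 0, 0, 0, 0), (36, 0, 0, 0, 0), (37, 0, 0, 0, 0), (38, 0, 0, 0, 0), (34, 0, 0, 0, 0), (39, 0, 0, 0, 0), (32, 0, 0, 0, 0), (40, 0, 0, 0, 0), (41, 0, 0, 0, 0), (38, 0, 0, 0, 0), (136, 0, 0, 0, 0), (40, 0, 0, 0, 0), (137, 0, 0, 0,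 0), (36, 0, 0, 0, 0)],
  [(42, 0, 0, 0, 0), (43, 0, 0, 0, 0), (44, 0, 0, 0, 0), (45, 0, 0, 0, 0), (46, 0, 0, 0, 0), (47, 0, 0, 0, 0), (48, 0, 0, 0, 0), (49, 0, 0, 0, 0), (44, 0, 0, 0, 0), (50, 0, 0, 0, 0), (46, 0, 0, 0, 0), (51, 0, 0, 0, 0), (48, 0, 0, 0, 0), (138, 0, 0, 0, 0), (42, 0, 0, 0, 0), (139, 0, 0, 0, 0), (49, 0, 0, 0, 0), (138, 0, 0, 0, 0), (43, 0, 0, 0, 0), (139, 0, 0, 0, 0), (140, 0, 0, 0, 0), (141, 0, 0, 0, 0), (52, 0, 0, 0, 0), (53, 0, 0, 0, 0), (54, 0, 0, 0, 0), (55, 0, 0, 0, 0), (56, 0, 0, 0, 0), (57, 0, 0, 0, 0), (140, 0, 0, 0, 0), (142, 0, 0, 0, 0), (141, 0, 0, 0, 0), (142, 0, 0, 0, 0), (143, 0, 0, 0, 0), (144, 0, 0, 0, 0), (58, 0, 0, 0, 0), (59, 0, 0, 0, 0), (60, 0, 0, 0, 0), (61, 0, 0, 0, 0), (62, 0, 0, 0, 0), (63, 0, 0, 0, 0), (143, 0, 0, 0, 0), (145, 0, 0, 0, 0), (144, 0, 0, 0, 0), (145, 0, 0, 0, 0), (64, 0, 0, 0,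 0), (146, 0, 0, 0, 0), (65, 0, 0, 0, 0), (147, 0, 0, 0, 0), (66, 0, 0, 0, 0), (67, 0, 0, 0, 0), (65, 0, 0, 0, 0), (68, 0, 0, 0, 0), (69, 0, 0, 0, 0), (70, 0, 0, 0, 0), (66, 0, 0, 0, 0), (71, 0, 0, 0, 0), (64, 0, 0, 0, 0), (72, 0, 0, 0, 0), (73, 0, 0, 0, 0), (70, 0, 0, 0, 0), (146, 0, 0, 0, 0), (72, 0, 0, 0, 0), (147, 0, 0, 0, 0), (68, 0, 0, 0, 0), (74, 0, 0, 0, 0), (148, 0, 0, 0, 0), (75, 0, 0, 0, 0), (149, 0, 0, 0, 0), (76, 0, 0, 0, 0), (77, 0, 0, 0, 0), (75, 0, 0, 0, 0), (78, 0, 0, 0, 0), (79, 0, 0, 0, 0), (80, 0, 0, 0, 0), (76, 0, 0, 0, 0), (81, 0, 0, 0, 0), (74, 0, 0, 0, 0), (82, 0, 0, 0, 0), (83, 0, 0, 0, 0), (80, 0, 0, 0, 0), (148, 0, 0, 0, 0), (82, 0, 0, 0, 0), (149, 0, 0, 0, 0), (78, 0, 0, 0, 0)],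
  [(84, 0, 0, 0, 0), (85, 0, 0, 0, 0), (86, 0, 0, 0, 0), (87, 0, 0, 0, 0), (88, 0, 0, 0, 0), (89, 0, 0, 0, 0), (90, 0, 0, 0, 0), (91, 0, 0, 0, 0), (86, 0, 0, 0, 0), (92, 0, 0, 0, 0), (88, 0, 0, 0, 0), (93, 0, 0, 0, 0), (90, 0, 0, 0, 0), (150, 0, 0, 0, 0), (84, 0, 0, 0, 0), (151, 0, 0, 0, 0), (91, 0, 0, 0, 0), (150, 0, 0, 0, 0), (85, 0, 0, 0, 0), (151, 0, 0, 0, 0), (152, 0, 0, 0, 0), (153, 0, 0, 0, 0), (94, 0, 0, 0, 0), (95, 0, 0, 0, 0), (96, 0, 0, 0, 0), (97, 0, 0, 0, 0), (98, 0, 0, 0, 0), (99, 0, 0, 0, 0), (152, 0, 0, 0, 0), (154, 0, 0, 0, 0), (153, 0, 0, 0, 0), (154, 0, 0, 0, 0), (155, 0, 0, 0, 0), (156, 0, 0, 0, 0), (100, 0, 0, 0, 0), (101, 0, 0, 0, 0), (102, 0, 0, 0, 0), (103, 0, 0, 0, 0), (104, 0, 0, 0, 0), (105, 0, 0, 0, 0), (155, 0, 0, 0, 0), (157, 0, 0, 0, 0), (156, 0, 0, 0, 0), (157, 0, 0, 0, 0), (106, 0, 0, 0, 0), (158, 0, 0,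 0, 0), (107, 0, 0, 0, 0), (159, 0, 0, 0, 0), (108, 0, 0, 0, 0), (109, 0, 0, 0, 0), (107, 0, 0, 0, 0), (110, 0, 0, 0, 0), (111, 0, 0, 0, 0), (112, 0, 0, 0, 0), (108, 0, 0, 0, 0), (113, 0, 0, 0, 0), (106, 0, 0, 0, 0), (114, 0, 0, 0, 0), (115, 0, 0, 0, 0), (112, 0, 0, 0, 0), (158, 0, 0, 0, 0), (114, 0, 0, 0, 0), (159, 0, 0, 0, 0), (110, 0, 0, 0, 0), (116, 0, 0, 0, 0), (160, 0, 0, 0, 0), (117, 0, 0, 0, 0), (161, 0, 0, 0, 0), (118, 0, 0, 0, 0), (119, 0, 0, 0, 0), (117, 0, 0, 0, 0), (120, 0, 0, 0, 0), (121, 0, 0, 0, 0), (122, 0, 0, 0, 0), (118, 0, 0, 0, 0), (123, 0, 0, 0, 0), (116, 0, 0, 0, 0), (124, 0, 0, 0, 0), (125, 0, 0, 0, 0), (122, 0, 0, 0, 0), (160, 0, 0, 0, 0), (124, 0, 0, 0, 0), (161, 0, 0, 0, 0), (120, 0, 0, 0, 0)],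
  [(58, 0, 0, 0, 0), (59, 0, 0, 0, 0), (66, 0, 0, 0, 0), (67, 0, 0, 0, 0), (76, 0, 0, 0, 0), (77, 0, 0, 0, 0), (52, 0, 0, 0, 0), (53, 0, 0, 0, 0), (66, 0, 0, 0, 0), (71, 0, 0, 0, 0), (76, 0, 0, 0, 0), (81, 0, 0, 0, 0), (52, 0, 0, 0, 0), (162, 0, 0, 0, 0), (58, 0, 0, 0, 0), (163, 0, 0, 0, 0), (53, 0, 0, 0, 0), (162, 0, 0, 0, 0), (59, 0, 0, 0, 0), (163, 0, 0, 0, 0), (143, 0, 0, 0, 0), (144, 0, 0, 0, 0), (48, 0, 0, 0, 0), (49, 0, 0, 0, 0), (64, 0, 0, 0, 0), (72, 0, 0, 0, 0), (74, 0, 0, 0, 0), (82, 0, 0, 0, 0), (143, 0, 0, 0, 0), (145, 0, 0, 0, 0), (144, 0, 0, 0, 0), (145, 0, 0, 0, 0), (140, 0, 0, 0, 0), (141, 0, 0, 0, 0), (42, 0, 0, 0, 0), (43, 0, 0, 0, 0), (65, 0, 0, 0, 0), (68, 0, 0, 0, 0), (75, 0, 0, 0, 0), (78, 0, 0, 0, 0), (140, 0, 0, 0, 0), (142, 0, 0, 0, 0), (141, 0, 0, 0, 0), (142, 0, 0, 0, 0), (54, 0, 0, 0, 0), (164, 0, 0, 0, 0),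 (60, 0, 0, 0, 0), (165, 0, 0, 0, 0), (44, 0, 0, 0, 0), (45, 0, 0, 0, 0), (60, 0, 0, 0, 0), (61, 0, 0, 0, 0), (79, 0, 0, 0, 0), (80, 0, 0, 0, 0), (44, 0, 0, 0, 0), (50, 0, 0, 0, 0), (54, 0, 0, 0, 0), (55, 0, 0, 0, 0), (83, 0, 0, 0, 0), (80, 0, 0, 0, 0), (164, 0, 0, 0, 0), (55, 0, 0, 0, 0), (165, 0, 0, 0, 0), (61, 0, 0, 0, 0), (56, 0, 0, 0, 0), (166, 0, 0, 0, 0), (62, 0, 0, 0, 0), (167, 0, 0, 0, 0), (46, 0, 0, 0, 0), (47, 0, 0, 0, 0), (62, 0, 0, 0, 0), (63, 0, 0, 0, 0), (69, 0, 0, 0, 0), (70, 0, 0, 0, 0), (46, 0, 0, 0, 0), (51, 0, 0, 0, 0), (56, 0, 0, 0, 0), (57, 0, 0, 0, 0), (73, 0, 0, 0, 0), (70, 0, 0, 0, 0), (166, 0, 0, 0, 0), (57, 0, 0, 0, 0), (167, 0, 0, 0, 0), (63, 0, 0, 0, 0)],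
  [(100, 0, 0, 0, 0), (101, 0, 0, 0, 0), (108, 0, 0, 0, 0), (109, 0, 0, 0, 0), (118, 0, 0, 0, 0), (119, 0, 0, 0, 0), (94, 0, 0, 0, 0), (95, 0, 0, 0, 0), (108, 0, 0, 0, 0), (113, 0, 0, 0, 0), (118, 0, 0, 0, 0), (123, 0, 0, 0, 0), (94, 0, 0, 0, 0), (168, 0, 0, 0, 0), (100, 0, 0, 0, 0), (169, 0, 0, 0, 0), (95, 0, 0, 0, 0), (168, 0, 0, 0, 0), (101, 0, 0, 0, 0), (169, 0, 0, 0, 0), (155, 0, 0, 0, 0), (156, 0, 0, 0, 0), (90, 0, 0, 0, 0), (91, 0, 0, 0, 0), (106, 0, 0, 0, 0), (114, 0, 0, 0, 0), (116, 0, 0, 0, 0), (124, 0, 0, 0, 0), (155, 0, 0, 0, 0), (157, 0, 0, 0, 0), (156, 0, 0, 0, 0), (157, 0, 0, 0, 0), (152, 0, 0, 0, 0), (153, 0, 0, 0, 0), (84, 0, 0, 0, 0), (85, 0, 0, 0, 0), (107, 0, 0, 0, 0), (110, 0, 0, 0, 0), (117, 0, 0, 0, 0), (120, 0, 0, 0, 0), (152, 0, 0, 0, 0), (154, 0, 0, 0, 0), (153, 0, 0, 0, 0), (154, 0, 0, 0, 0), (96, 0, 0, 0, 0),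 (170, 0, 0, 0, 0), (102, 0, 0, 0, 0), (171, 0, 0, 0, 0), (86, 0, 0, 0, 0), (87, 0, 0, 0, 0), (102, 0, 0, 0, 0), (103, 0, 0, 0, 0), (121, 0, 0, 0, 0), (122, 0, 0, 0, 0), (86, 0, 0, 0, 0), (92, 0, 0, 0, 0), (96, 0, 0, 0, 0), (97, 0, 0, 0, 0), (125, 0, 0, 0, 0), (122, 0, 0, 0, 0), (170, 0, 0, 0, 0), (97, 0, 0, 0, 0), (171, 0, 0, 0, 0), (103, 0, 0, 0, 0), (98, 0, 0, 0, 0), (172, 0, 0, 0, 0), (104, 0, 0, 0, 0), (173, 0, 0, 0, 0), (88, 0, 0, 0, 0), (89, 0, 0, 0, 0), (104, 0, 0, 0, 0), (105, 0, 0, 0, 0), (111, 0, 0, 0, 0), (112, 0, 0, 0, 0), (88, 0, 0, 0, 0), (93, 0, 0, 0, 0), (98, 0, 0, 0, 0), (99, 0, 0, 0, 0), (115, 0, 0, 0, 0), (112, 0, 0, 0, 0), (172, 0, 0, 0, 0), (99, 0, 0, 0, 0), (173, 0, 0, 0, 0), (105, 0, 0, 0, 0)],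
  [(16, 0, 0, 0, 0), (17, 0, 0, 0, 0), (24, 0, 0, 0, 0), (25, 0, 0, 0, 0), (34, 0, 0, 0, 0), (35, 0, 0, 0, 0), (10, 0, 0, 0, 0), (11, 0, 0, 0, 0), (24, 0, 0, 0, 0), (29, 0, 0, 0, 0), (34, 0, 0, 0, 0), (39, 0, 0, 0, 0), (10, 0, 0, 0, 0), (174, 0, 0, 0, 0), (16, 0, 0, 0, 0), (175, 0, 0, 0, 0), (11, 0, 0, 0, 0), (174, 0, 0, 0, 0), (17, 0, 0, 0, 0), (175, 0, 0, 0, 0), (131, 0, 0, 0, 0), (132, 0, 0, 0, 0), (6, 0, 0, 0, 0), (7, 0, 0, 0, 0), (22, 0, 0, 0, 0), (30, 0, 0, 0, 0), (32, 0, 0, 0, 0), (40, 0, 0, 0, 0), (131, 0, 0, 0, 0), (133, 0, 0, 0, 0), (132, 0, 0, 0, 0), (133, 0, 0, 0, 0), (128, 0, 0, 0, 0), (129, 0, 0, 0, 0), (0, 0, 0, 0, 0), (1, 0, 0, 0, 0), (23, 0, 0, 0, 0), (26, 0, 0, 0, 0), (33, 0, 0, 0, 0), (36, 0, 0, 0, 0), (128, 0, 0, 0, 0), (130, 0, 0, 0, 0), (129, 0, 0, 0, 0), (130, 0, 0, 0, 0), (12, 0, 0, 0, 0), (176, 0, 0, 0, 0), (18,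 0, 0, 0, 0), (177, 0, 0, 0, 0), (2, 0, 0, 0, 0), (3, 0, 0, 0, 0), (18, 0, 0, 0, 0), (19, 0, 0, 0, 0), (37, 0, 0, 0, 0), (38, 0, 0, 0, 0), (2, 0, 0, 0, 0), (8, 0, 0, 0, 0), (12, 0, 0, 0, 0), (13, 0, 0, 0, 0), (41, 0, 0, 0, 0), (38, 0, 0, 0, 0), (176, 0, 0, 0, 0), (13, 0, 0, 0, 0), (177, 0, 0, 0, 0), (19, 0, 0, 0, 0), (14, 0, 0, 0, 0), (178, 0, 0, 0, 0), (20, 0, 0, 0, 0), (179, 0, 0, 0, 0), (4, 0, 0, 0, 0), (5, 0, 0, 0, 0), (20, 0, 0, 0, 0), (21, 0, 0, 0, 0), (27, 0, 0, 0, 0), (28, 0, 0, 0, 0), (4, 0, 0, 0, 0), (9, 0, 0, 0, 0), (14, 0, 0, 0, 0), (15, 0, 0, 0, 0), (31, 0, 0, 0, 0), (28, 0, 0, 0, 0), (178, 0, 0, 0, 0), (15, 0, 0, 0, 0), (179, 0, 0, 0, 0), (21, 0, 0, 0, 0)]]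

def m30_3 : Base := (0, 1, [(0, [0], [0, 5]), (0, [1], [1, 3]), (0, [2], [2, 4]), (4, [], [5])])

def l30_3 : Cov := [(120, 0, 1, [(0, [0], [0, 5]), (0, [1], [1, 3]), (0, [2], [2, 4]), (4, [], [5])]),
  (-120, 0, 1, [(0, [0], [0, 5]), (0, [1], [1, 4]), (0, [2], [2, 3]), (4, [], [5])]),
  (120, 0, 1, [(0, [0], [0, 5]), (0, [1], [2, 3]), (0, [2], [1, 4]), (4, [], [5])]),
  (-120, 0, 1, [(0, [0], [0, 5]), (0, [1], [2, 4]), (0, [2], [1, 3]), (4, [], [5])]),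
  (-120, 0, 1, [(0, [0], [3, 5]), (0, [1], [0, 2]), (0, [2], [1, 4]), (4, [], [5])]),
  (-120, 0, 1, [(0, [0], [3, 5]), (0, [1], [0, 1]), (0, [2], [2, 4]), (4, [], [5])]),
  (120, 0, 1, [(0, [0], [3, 5]), (0, [1], [1, 4]), (0, [2], [0, 2]), (4, [], [5])]),
  (120, 0, 1, [(0, [0], [3, 5]), (0, [1], [2, 4]), (0, [2], [0, 1]), (4, [], [5])]),
  (120, 0, 1, [(0, [0], [4, 5]), (0, [1], [0, 2]), (0, [2], [1, 3]), (4, [], [5])]),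
  (120, 0, 1, [(0, [0], [4, 5]), (0, [1], [0, 1]), (0, [2], [2, 3]), (4, [], [5])]),
  (-120, 0, 1, [(0, [0], [4, 5]), (0, [1], [1, 3]), (0, [2], [0, 2]), (4, [], [5])]),
  (-120, 0, 1, [(0, [0], [4, 5]), (0, [1], [2, 3]), (0, [2], [0, 1]), (4, [], [5])]),
  (240, 0, 1, [(0, [1], [0, 5]), (0, [0], [1, 3]), (0, [2], [2, 4]), (4, [], [5])]),
  (-240, 0, 1, [(0, [1], [0, 5]), (0, [0], [1, 4]), (0, [2], [2, 3]), (4, [], [5])]),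
  (240, 0, 1, [(0, [1], [0, 5]), (0, [0], [2, 3]), (0, [2], [1, 4]), (4, [], [5])]),
  (-240, 0, 1, [(0, [1], [0, 5]), (0, [0], [2, 4]), (0, [2], [1, 3]), (4, [], [5])]),
  (-240, 0, 1, [(0, [1], [3, 5]), (0, [0], [0, 2]), (0, [2], [1, 4]), (4, [], [5])]),
  (-240, 0, 1, [(0, [1], [3, 5]), (0, [0], [0, 1]), (0, [2], [2, 4]), (4, [], [5])]),
  (240, 0, 1, [(0, [1], [3, 5]), (0, [0], [1, 4]), (0, [2], [0, 2]), (4, [], [5])]),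
  (240, 0, 1, [(0, [1], [3, 5]), (0, [0], [2, 4]), (0, [2], [0, 1]), (4, [], [5])]),
  (240, 0, 1, [(0, [1], [4, 5]), (0, [0], [0, 2]), (0, [2], [1, 3]), (4, [], [5])]),
  (240, 0, 1, [(0, [1], [4, 5]), (0, [0], [0, 1]), (0, [2], [2, 3]), (4, [], [5])]),
  (-240, 0, 1, [(0, [1], [4, 5]), (0, [0], [1, 3]), (0, [2], [0, 2]), (4, [], [5])]),
  (-240, 0, 1, [(0, [1], [4, 5]), (0, [0], [2, 3]), (0, [2], [0, 1]), (4, [], [5])]),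
  (120, 0, 1, [(0, [2], [0, 5]), (0, [0], [1, 3]), (0, [1], [2, 4]), (4, [], [5])]),
  (-120, 0, 1, [(0, [2], [0, 5]), (0, [0], [1, 4]), (0, [1], [2, 3]), (4, [], [5])]),
  (120, 0, 1, [(0, [2], [0, 5]), (0, [0], [2, 3]), (0, [1], [1, 4]), (4, [], [5])]),
  (-120, 0, 1, [(0, [2], [0, 5]), (0, [0], [2, 4]), (0, [1], [1, 3]), (4, [], [5])]),
  (-120, 0, 1, [(0, [2], [3, 5]), (0, [0], [0, 2]), (0, [1], [1, 4]), (4, [], [5])]),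
  (-120, 0, 1, [(0, [2], [3, 5]), (0, [0], [0, 1]), (0, [1], [2, 4]), (4, [], [5])]),
  (120, 0, 1, [(0, [2], [3, 5]), (0, [0], [1, 4]), (0, [1], [0, 2]), (4, [], [5])]),
  (120, 0, 1, [(0, [2], [3, 5]), (0, [0], [2, 4]), (0, [1], [0, 1]), (4, [], [5])]),
  (120, 0, 1, [(0, [2], [4, 5]), (0, [0], [0, 2]), (0, [1], [1, 3]), (4, [], [5])]),
  (120, 0, 1, [(0, [2], [4, 5]), (0, [0], [0, 1]), (0, [1], [2, 3]), (4, [], [5])]),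
  (-120, 0, 1, [(0, [2], [4, 5]), (0, [0], [1, 3]), (0, [1], [0, 2]), (4, [], [5])]),
  (-120, 0, 1, [(0, [2], [4, 5]), (0, [0], [2, 3]), (0, [1], [0, 1]), (4, [], [5])])]

def z30_3 : Cov := [(0, 0, 1, [(0, [0], [0, 5]), (0, [1], [1, 2]), (0, [2], [3, 4]), (4, [], [5])]),
  (0, 0, 1, [(0, [0], [0, 5]), (0, [1], [3, 4]), (0, [2], [1, 2]), (4, [], [5])]),
  (0, 0, 1, [(0, [0], [1, 5]), (0, [1], [0, 3]), (0, [2], [2, 4]), (4, [], [5])]),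
  (0, 0, 1, [(0, [0], [1, 5]), (0, [1], [0, 4]), (0, [2], [2, 3]), (4, [], [5])]),
  (0, 0, 1, [(0, [0], [1, 5]), (0, [1], [2, 3]), (0, [2], [0, 4]), (4, [], [5])]),
  (0, 0, 1, [(0, [0], [1, 5]), (0, [1], [2, 4]), (0, [2], [0, 3]), (4, [], [5])]),
  (0, 0, 1, [(0, [0], [1, 5]), (0, [1], [2, 0]), (0, [2], [3, 4]), (4, [], [5])]),
  (0, 0, 1, [(0, [0], [1, 5]), (0, [1], [3, 4]), (0, [2], [2, 0]), (4, [], [5])]),
  (0, 0, 1, [(0, [0], [2, 5]), (0, [1], [0, 3]), (0, [2], [1, 4]), (4, [], [5])]),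
  (0, 0, 1, [(0, [0], [2, 5]), (0, [1], [0, 4]), (0, [2], [1, 3]), (4, [], [5])]),
  (0, 0, 1, [(0, [0], [2, 5]), (0, [1], [1, 3]), (0, [2], [0, 4]), (4, [], [5])]),
  (0, 0, 1, [(0, [0], [2, 5]), (0, [1], [1, 4]), (0, [2], [0, 3]), (4, [], [5])]),
  (0, 0, 1, [(0, [0], [2, 5]), (0, [1], [1, 0]), (0, [2], [3, 4]), (4, [], [5])]),
  (0, 0, 1, [(0, [0], [2, 5]), (0, [1], [3, 4]), (0, [2], [1, 0]), (4, [], [5])]),
  (0, 0, 1, [(0, [0], [3, 5]), (0, [1], [0, 4]), (0, [2], [1, 2]), (4, [], [5])]),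
  (0, 0, 1, [(0, [0], [3, 5]), (0, [1], [1, 2]), (0, [2], [0, 4]), (4, [], [5])]),
  (0, 0, 1, [(0, [0], [4, 5]), (0, [1], [0, 3]), (0, [2], [1, 2]), (4, [], [5])]),
  (0, 0, 1, [(0, [0], [4, 5]), (0, [1], [1, 2]), (0, [2], [0, 3]), (4, [], [5])]),
  (0, 0, 1, [(0, [1], [0, 5]), (0, [0], [1, 2]), (0, [2], [3, 4]), (4, [], [5])]),
  (0, 0, 1, [(0, [1], [0, 5]), (0, [0], [3, 4]), (0, [2], [1, 2]), (4, [], [5])]),
  (0, 0, 1, [(0, [1], [1, 5]), (0, [0], [0, 3]), (0, [2], [2, 4]), (4, [], [5])]),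
  (0, 0, 1, [(0, [1], [1, 5]), (0, [0], [0, 4]), (0, [2], [2, 3]), (4, [], [5])]),
  (0, 0, 1, [(0, [1], [1, 5]), (0, [0], [2, 3]), (0, [2], [0, 4]), (4, [], [5])]),
  (0, 0, 1, [(0, [1], [1, 5]), (0, [0], [2, 4]), (0, [2], [0, 3]), (4, [], [5])]),
  (0, 0, 1, [(0, [1], [1, 5]), (0, [0], [2, 0]), (0, [2], [3, 4]), (4, [], [5])]),
  (0, 0, 1, [(0, [1], [1, 5]), (0, [0], [3, 4]), (0, [2], [2, 0]), (4, [], [5])]),
  (0, 0, 1, [(0, [1], [2, 5]), (0, [0], [0, 3]), (0, [2], [1, 4]), (4, [], [5])]),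
  (0, 0, 1, [(0, [1], [2, 5]), (0, [0], [0, 4]), (0, [2], [1, 3]), (4, [], [5])]),
  (0, 0, 1, [(0, [1], [2, 5]), (0, [0], [1, 3]), (0, [2], [0, 4]), (4, [], [5])]),
  (0, 0, 1, [(0, [1], [2, 5]), (0, [0], [1, 4]), (0, [2], [0, 3]), (4, [], [5])]),
  (0, 0, 1, [(0, [1], [2, 5]), (0, [0], [1, 0]), (0, [2], [3, 4]), (4, [], [5])]),
  (0, 0, 1, [(0, [1], [2, 5]), (0, [0], [3, 4]), (0, [2], [1, 0]), (4, [], [5])]),
  (0, 0, 1, [(0, [1], [3, 5]), (0, [0], [0, 4]), (0, [2], [1, 2]), (4, [], [5])]),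
  (0, 0, 1, [(0, [1], [3, 5]), (0, [0], [1, 2]), (0, [2], [0, 4]), (4, [], [5])]),
  (0, 0, 1, [(0, [1], [4, 5]), (0, [0], [0, 3]), (0, [2], [1, 2]), (4, [], [5])]),
  (0, 0, 1, [(0, [1], [4, 5]), (0, [0], [1, 2]), (0, [2], [0, 3]), (4, [], [5])]),
  (0, 0, 1, [(0, [2], [0, 5]), (0, [0], [1, 2]), (0, [1], [3, 4]), (4, [], [5])]),
  (0, 0, 1, [(0, [2], [0, 5]), (0, [0], [3, 4]), (0, [1], [1, 2]), (4, [], [5])]),
  (0, 0, 1, [(0, [2], [1, 5]), (0, [0], [0, 3]), (0, [1], [2, 4]), (4, [], [5])]),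
  (0, 0, 1, [(0, [2], [1, 5]), (0, [0], [0, 4]), (0, [1], [2, 3]), (4, [], [5])]),
  (0, 0, 1, [(0, [2], [1, 5]), (0, [0], [2, 3]), (0, [1], [0, 4]), (4, [], [5])]),
  (0, 0, 1, [(0, [2], [1, 5]), (0, [0], [2, 4]), (0, [1], [0, 3]), (4, [], [5])]),
  (0, 0, 1, [(0, [2], [1, 5]), (0, [0], [2, 0]), (0, [1], [3, 4]), (4, [], [5])]),
  (0, 0, 1, [(0, [2], [1, 5]), (0, [0], [3, 4]), (0, [1], [2, 0]), (4, [], [5])]),
  (0, 0, 1, [(0, [2], [2, 5]), (0, [0], [0, 3]), (0, [1], [1, 4]), (4, [], [5])]),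
  (0, 0, 1, [(0, [2], [2, 5]), (0, [0], [0, 4]), (0, [1], [1, 3]), (4, [], [5])]),
  (0, 0, 1, [(0, [2], [2, 5]), (0, [0], [1, 3]), (0, [1], [0, 4]), (4, [], [5])]),
  (0, 0, 1, [(0, [2], [2, 5]), (0, [0], [1, 4]), (0, [1], [0, 3]), (4, [], [5])]),
  (0, 0, 1, [(0, [2], [2, 5]), (0, [0], [1, 0]), (0, [1], [3, 4]), (4, [], [5])]),
  (0, 0, 1, [(0, [2], [2, 5]), (0, [0], [3, 4]), (0, [1], [1, 0]), (4, [], [5])]),
  (0, 0, 1, [(0, [2], [3, 5]), (0, [0], [0, 4]), (0, [1], [1, 2]), (4, [], [5])]),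
  (0, 0, 1, [(0, [2], [3, 5]), (0, [0], [1, 2]), (0, [1], [0, 4]), (4, [], [5])]),
  (0, 0, 1, [(0, [2], [4, 5]), (0, [0], [0, 3]), (0, [1], [1, 2]), (4, [], [5])]),
  (0, 0, 1, [(0, [2], [4, 5]), (0, [0], [1, 2]), (0, [1], [0, 3]), (4, [], [5])])]

def w30_3 : List (List Wit) := [[(0, 0, 0, 0, 0), (1, 0, 0, 0, 0), (36, 0, 0, 0, 0), (1, 0, 0, 0, 0), (36, 0, 0, 0, 0), (0, 0, 0, 0, 0), (2, 0, 0, 0, 0), (3, 0, 0, 0, 0), (36, 0, 0, 0, 0), (3, 0, 0, 0, 0), (36, 0, 0, 0, 0), (2, 0, 0, 0, 0), (2, 0, 0, 0, 0), (37, 0, 0, 0, 0), (0, 0, 0, 0, 0), (37, 0, 0, 0, 0), (3, 0, 0, 0, 0), (37, 0, 0, 0, 0), (1, 0, 0, 0, 0), (37, 0, 0, 0, 0), (38, 0, 0, 0, 0), (39, 0, 0, 0, 0), (40, 0, 0, 0, 0), (41, 0, 0, 0, 0), (42, 0, 0, 0, 0), (41, 0, 0, 0, 0), (42, 0, 0, 0, 0), (40, 0, 0, 0, 0), (38, 0, 0, 0, 0), (43, 0, 0, 0, 0), (39, 0, 0, 0, 0), (43, 0, 0, 0, 0),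 (44, 0, 0, 0, 0), (45, 0, 0, 0, 0), (46, 0, 0, 0, 0), (47, 0, 0, 0, 0), (48, 0, 0, 0, 0), (47, 0, 0, 0, 0), (48, 0, 0, 0, 0), (46, 0, 0, 0, 0), (44, 0, 0, 0, 0), (49, 0, 0, 0, 0), (45, 0, 0, 0, 0), (49, 0, 0, 0, 0), (4, 0, 0, 0, 0), (50, 0, 0, 0, 0), (5, 0, 0, 0, 0), (50, 0, 0, 0, 0), (51, 0, 0, 0, 0), (6, 0, 0, 0, 0), (5, 0, 0, 0, 0), (6, 0, 0, 0, 0), (5, 0, 0, 0, 0), (51, 0, 0, 0, 0), (51, 0, 0, 0, 0), (7, 0, 0, 0, 0), (4, 0, 0, 0, 0), (7, 0, 0, 0, 0), (4, 0, 0, 0, 0), (51, 0, 0, 0, 0), (50, 0, 0, 0, 0), (7, 0, 0, 0, 0), (50, 0, 0, 0, 0), (6, 0, 0, 0, 0), (8, 0, 0, 0, 0), (52, 0, 0, 0, 0), (9, 0, 0, 0, 0), (52, 0, 0, 0, 0), (53, 0, 0, 0, 0), (10, 0, 0, 0, 0), (9, 0, 0, 0, 0), (10, 0, 0, 0, 0), (9, 0, 0, 0, 0), (53, 0, 0, 0, 0), (53, 0, 0, 0, 0), (11, 0, 0, 0, 0), (8, 0, 0, 0, 0), (11, 0, 0, 0, 0), (8, 0, 0, 0, 0), (53, 0, 0, 0, 0), (52,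 0, 0, 0, 0), (11, 0, 0, 0, 0), (52, 0, 0, 0, 0), (10, 0, 0, 0, 0)],
  [(3, 0, 0, 0, 0), (2, 0, 0, 0, 0), (37, 0, 0, 0, 0), (2, 0, 0, 0, 0), (37, 0, 0, 0, 0), (3, 0, 0, 0, 0), (1, 0, 0, 0, 0), (0, 0, 0, 0, 0), (37, 0, 0, 0, 0), (0, 0, 0, 0, 0), (37, 0, 0, 0, 0), (1, 0, 0, 0, 0), (1, 0, 0, 0, 0), (36, 0, 0, 0, 0), (3, 0, 0, 0, 0), (36, 0, 0, 0, 0), (0, 0, 0, 0, 0), (36, 0, 0, 0, 0), (2, 0, 0, 0, 0), (36, 0, 0, 0, 0), (41, 0, 0, 0, 0), (40, 0, 0, 0, 0), (39, 0, 0, 0, 0), (38, 0, 0, 0, 0), (43, 0, 0, 0, 0), (38, 0, 0, 0, 0), (43, 0, 0, 0, 0), (39, 0, 0, 0, 0), (41, 0, 0, 0, 0), (42, 0, 0, 0, 0), (40, 0, 0, 0, 0), (42, 0, 0, 0, 0), (47, 0, 0, 0, 0), (46, 0, 0, 0, 0), (45, 0, 0, 0, 0), (44, 0, 0, 0, 0), (49, 0, 0, 0, 0), (44, 0, 0, 0, 0), (49, 0, 0, 0, 0), (45, 0, 0, 0, 0), (47, 0, 0, 0, 0), (48, 0, 0, 0, 0), (46, 0, 0, 0, 0), (48, 0, 0, 0,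 0), (6, 0, 0, 0, 0), (51, 0, 0, 0, 0), (7, 0, 0, 0, 0), (51, 0, 0, 0, 0), (50, 0, 0, 0, 0), (4, 0, 0, 0, 0), (7, 0, 0, 0, 0), (4, 0, 0, 0, 0), (7, 0, 0, 0, 0), (50, 0, 0, 0, 0), (50, 0, 0, 0, 0), (5, 0, 0, 0, 0), (6, 0, 0, 0, 0), (5, 0, 0, 0, 0), (6, 0, 0, 0, 0), (50, 0, 0, 0, 0), (51, 0, 0, 0, 0), (5, 0, 0, 0, 0), (51, 0, 0, 0, 0), (4, 0, 0, 0, 0), (10, 0, 0, 0, 0), (53, 0, 0, 0, 0), (11, 0, 0, 0, 0), (53, 0, 0, 0, 0), (52, 0, 0, 0, 0), (8, 0, 0, 0, 0), (11, 0, 0, 0, 0), (8, 0, 0, 0, 0), (11, 0, 0, 0, 0), (52, 0, 0, 0, 0), (52, 0, 0, 0, 0), (9, 0, 0, 0, 0), (10, 0, 0, 0, 0), (9, 0, 0, 0, 0), (10, 0, 0, 0, 0), (52, 0, 0, 0, 0), (53, 0, 0, 0, 0), (9, 0, 0, 0, 0), (53, 0, 0, 0, 0), (8, 0, 0, 0, 0)],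
  [(12, 0, 0, 0, 0), (13, 0, 0, 0, 0), (54, 0, 0, 0, 0), (13, 0, 0, 0, 0), (54, 0, 0, 0, 0), (12, 0, 0, 0, 0), (14, 0, 0, 0, 0), (15, 0, 0, 0, 0), (54, 0, 0, 0, 0), (15, 0, 0, 0, 0), (54, 0, 0, 0, 0), (14, 0, 0, 0, 0), (14, 0, 0, 0, 0), (55, 0, 0, 0, 0), (12, 0, 0, 0, 0), (55, 0, 0, 0, 0), (15, 0, 0, 0, 0), (55, 0, 0, 0, 0), (13, 0, 0, 0, 0), (55, 0, 0, 0, 0), (56, 0, 0, 0, 0), (57, 0, 0, 0, 0), (58, 0, 0, 0, 0), (59, 0, 0, 0, 0), (60, 0, 0, 0, 0), (59, 0, 0, 0, 0), (60, 0, 0, 0, 0), (58, 0, 0, 0, 0), (56, 0, 0, 0, 0), (61, 0, 0, 0, 0), (57, 0, 0, 0, 0), (61, 0, 0, 0, 0), (62, 0, 0, 0, 0), (63, 0, 0, 0, 0), (64, 0, 0, 0, 0), (65, 0, 0, 0, 0), (66, 0, 0, 0, 0), (65, 0, 0, 0, 0), (66, 0, 0, 0, 0), (64, 0, 0, 0, 0), (62, 0, 0, 0, 0), (67, 0, 0, 0, 0), (63, 0, 0, 0, 0), (67, 0, 0, 0, 0), (16, 0, 0, 0, 0), (68, 0, 0, 0, 0), (17, 0, 0, 0, 0),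 (68, 0, 0, 0, 0), (69, 0, 0, 0, 0), (18, 0, 0, 0, 0), (17, 0, 0, 0, 0), (18, 0, 0, 0, 0), (17, 0, 0, 0, 0), (69, 0, 0, 0, 0), (69, 0, 0, 0, 0), (19, 0, 0, 0, 0), (16, 0, 0, 0, 0), (19, 0, 0, 0, 0), (16, 0, 0, 0, 0), (69, 0, 0, 0, 0), (68, 0, 0, 0, 0), (19, 0, 0, 0, 0), (68, 0, 0, 0, 0), (18, 0, 0, 0, 0), (20, 0, 0, 0, 0), (70, 0, 0, 0, 0), (21, 0, 0, 0, 0), (70, 0, 0, 0, 0), (71, 0, 0, 0, 0), (22, 0, 0, 0, 0), (21, 0, 0, 0, 0), (22, 0, 0, 0, 0), (21, 0, 0, 0, 0), (71, 0, 0, 0, 0), (71, 0, 0, 0, 0), (23, 0, 0, 0, 0), (20, 0, 0, 0, 0), (23, 0, 0, 0, 0), (20, 0, 0, 0, 0), (71, 0, 0, 0, 0), (70, 0, 0, 0, 0), (23, 0, 0, 0, 0), (70, 0, 0, 0, 0), (22, 0, 0, 0, 0)],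
  [(15, 0, 0, 0, 0), (14, 0, 0, 0, 0), (55, 0, 0, 0, 0), (14, 0, 0, 0, 0), (55, 0, 0, 0, 0), (15, 0, 0, 0, 0), (13, 0, 0, 0, 0), (12, 0, 0, 0, 0), (55, 0, 0, 0, 0), (12, 0, 0, 0, 0), (55, 0, 0, 0, 0), (13, 0, 0, 0, 0), (13, 0, 0, 0, 0), (54, 0, 0, 0, 0), (15, 0, 0, 0, 0), (54, 0, 0, 0, 0), (12, 0, 0, 0, 0), (54, 0, 0, 0, 0), (14, 0, 0, 0, 0), (54, 0, 0, 0, 0), (59, 0, 0, 0, 0), (58, 0, 0, 0, 0), (57, 0, 0, 0, 0), (56, 0, 0, 0, 0), (61, 0, 0, 0, 0), (56, 0, 0, 0, 0), (61, 0, 0, 0, 0), (57, 0, 0, 0, 0), (59, 0, 0, 0, 0), (60, 0, 0, 0, 0), (58, 0, 0, 0, 0), (60, 0, 0, 0, 0), (65, 0, 0, 0, 0), (64, 0, 0, 0, 0), (63, 0, 0, 0, 0), (62, 0, 0, 0, 0), (67, 0, 0, 0, 0), (62, 0, 0, 0, 0), (67, 0, 0, 0, 0), (63, 0, 0, 0, 0), (65, 0, 0, 0, 0), (66, 0, 0, 0, 0), (64, 0, 0, 0, 0), (66, 0, 0, 0, 0), (18, 0, 0, 0, 0), (69, 0, 0, 0, 0), (19, 0, 0, 0, 0),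 (69, 0, 0, 0, 0), (68, 0, 0, 0, 0), (16, 0, 0, 0, 0), (19, 0, 0, 0, 0), (16, 0, 0, 0, 0), (19, 0, 0, 0, 0), (68, 0, 0, 0, 0), (68, 0, 0, 0, 0), (17, 0, 0, 0, 0), (18, 0, 0, 0, 0), (17, 0, 0, 0, 0), (18, 0, 0, 0, 0), (68, 0, 0, 0, 0), (69, 0, 0, 0, 0), (17, 0, 0, 0, 0), (69, 0, 0, 0, 0), (16, 0, 0, 0, 0), (22, 0, 0, 0, 0), (71, 0, 0, 0, 0), (23, 0, 0, 0, 0), (71, 0, 0, 0, 0), (70, 0, 0, 0, 0), (20, 0, 0, 0, 0), (23, 0, 0, 0, 0), (20, 0, 0, 0, 0), (23, 0, 0, 0, 0), (70, 0, 0, 0, 0), (70, 0, 0, 0, 0), (21, 0, 0, 0, 0), (22, 0, 0, 0, 0), (21, 0, 0, 0, 0), (22, 0, 0, 0, 0), (70, 0, 0, 0, 0), (71, 0, 0, 0, 0), (21, 0, 0, 0, 0), (71, 0, 0, 0, 0), (20, 0, 0, 0, 0)],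
  [(24, 0, 0, 0, 0), (25, 0, 0, 0, 0), (72, 0, 0, 0, 0), (25, 0, 0, 0, 0), (72, 0, 0, 0, 0), (24, 0, 0, 0, 0), (26, 0, 0, 0, 0), (27, 0, 0, 0, 0), (72, 0, 0, 0, 0), (27, 0, 0, 0, 0), (72, 0, 0, 0, 0), (26, 0, 0, 0, 0), (26, 0, 0, 0, 0), (73, 0, 0, 0, 0), (24, 0, 0, 0, 0), (73, 0, 0, 0, 0), (27, 0, 0, 0, 0), (73, 0, 0, 0, 0), (25, 0, 0, 0, 0), (73, 0, 0, 0, 0), (74, 0, 0, 0, 0), (75, 0, 0, 0, 0), (76, 0, 0, 0, 0), (77, 0, 0, 0, 0), (78, 0, 0, 0, 0), (77, 0, 0, 0, 0), (78, 0, 0, 0, 0), (76, 0, 0, 0, 0), (74, 0, 0, 0, 0), (79, 0, 0, 0, 0), (75, 0, 0, 0, 0), (79, 0, 0, 0, 0), (80, 0, 0, 0, 0), (81, 0, 0, 0, 0), (82, 0, 0, 0, 0), (83, 0, 0, 0, 0), (84, 0, 0, 0, 0), (83, 0, 0, 0, 0), (84, 0, 0, 0, 0), (82, 0, 0, 0, 0), (80, 0, 0, 0, 0), (85, 0, 0, 0, 0), (81, 0, 0, 0, 0), (85, 0, 0, 0, 0), (28, 0, 0, 0, 0), (86, 0, 0, 0, 0), (29, 0, 0, 0, 0),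 (86, 0, 0, 0, 0), (87, 0, 0, 0, 0), (30, 0, 0, 0, 0), (29, 0, 0, 0, 0), (30, 0, 0, 0, 0), (29, 0, 0, 0, 0), (87, 0, 0, 0, 0), (87, 0, 0, 0, 0), (31, 0, 0, 0, 0), (28, 0, 0, 0, 0), (31, 0, 0, 0, 0), (28, 0, 0, 0, 0), (87, 0, 0, 0, 0), (86, 0, 0, 0, 0), (31, 0, 0, 0, 0), (86, 0, 0, 0, 0), (30, 0, 0, 0, 0), (32, 0, 0, 0, 0), (88, 0, 0, 0, 0), (33, 0, 0, 0, 0), (88, 0, 0, 0, 0), (89, 0, 0, 0, 0), (34, 0, 0, 0, 0), (33, 0, 0, 0, 0), (34, 0, 0, 0, 0), (33, 0, 0, 0, 0), (89, 0, 0, 0, 0), (89, 0, 0, 0, 0), (35, 0, 0, 0, 0), (32, 0, 0, 0, 0), (35, 0, 0, 0, 0), (32, 0, 0, 0, 0), (89, 0, 0, 0, 0), (88, 0, 0, 0, 0), (35, 0, 0, 0, 0), (88, 0, 0, 0, 0), (34, 0, 0, 0, 0)],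
  [(27, 0, 0, 0, 0), (26, 0, 0, 0, 0), (73, 0, 0, 0, 0), (26, 0, 0, 0, 0), (73, 0, 0, 0, 0), (27, 0, 0, 0, 0), (25, 0, 0, 0, 0), (24, 0, 0, 0, 0), (73, 0, 0, 0, 0), (24, 0, 0, 0, 0), (73, 0, 0, 0, 0), (25, 0, 0, 0, 0), (25, 0, 0, 0, 0), (72, 0, 0, 0, 0), (27, 0, 0, 0, 0), (72, 0, 0, 0, 0), (24, 0, 0, 0, 0), (72, 0, 0, 0, 0), (26, 0, 0, 0, 0), (72, 0, 0, 0, 0), (77, 0, 0, 0, 0), (76, 0, 0, 0, 0), (75, 0, 0, 0, 0), (74, 0, 0, 0, 0), (79, 0, 0, 0, 0), (74, 0, 0, 0, 0), (79, 0, 0, 0, 0), (75, 0, 0, 0, 0), (77, 0, 0, 0, 0), (78, 0, 0, 0, 0), (76, 0, 0, 0, 0), (78, 0, 0, 0, 0), (83, 0, 0, 0, 0), (82, 0, 0, 0, 0), (81, 0, 0, 0, 0), (80, 0, 0, 0, 0), (85, 0, 0, 0, 0), (80, 0, 0, 0, 0), (85, 0, 0, 0, 0), (81, 0, 0, 0, 0), (83, 0, 0, 0, 0), (84, 0, 0, 0, 0), (82, 0, 0, 0, 0), (84, 0, 0, 0, 0), (30, 0, 0, 0, 0), (87, 0, 0, 0, 0), (31, 0, 0, 0, 0),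 (87, 0, 0, 0, 0), (86, 0, 0, 0, 0), (28, 0, 0, 0, 0), (31, 0, 0, 0, 0), (28, 0, 0, 0, 0), (31, 0, 0, 0, 0), (86, 0, 0, 0, 0), (86, 0, 0, 0, 0), (29, 0, 0, 0, 0), (30, 0, 0, 0, 0), (29, 0, 0, 0, 0), (30, 0, 0, 0, 0), (86, 0, 0, 0, 0), (87, 0, 0, 0, 0), (29, 0, 0, 0, 0), (87, 0, 0, 0, 0), (28, 0, 0, 0, 0), (34, 0, 0, 0, 0), (89, 0, 0, 0, 0), (35, 0, 0, 0, 0), (89, 0, 0, 0, 0), (88, 0, 0, 0, 0), (32, 0, 0, 0, 0), (35, 0, 0, 0, 0), (32, 0, 0, 0, 0), (35, 0, 0, 0, 0), (88, 0, 0, 0, 0), (88, 0, 0, 0, 0), (33, 0, 0, 0, 0), (34, 0, 0, 0, 0), (33, 0, 0, 0, 0), (34, 0, 0, 0, 0), (88, 0, 0, 0, 0), (89, 0, 0, 0, 0), (33, 0, 0, 0, 0), (89, 0, 0, 0, 0), (32, 0, 0, 0, 0)]]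

theorem tr30 : trK keys lk30 kl30 = true := by
  decide +kernel

theorem x30_0 : expB 3 5 dg2 dg7 m30_0 (l30_0 ++ z30_0) w30_0 = true := by
  decide +kernel

theorem x30_1 : expB 3 5 dg2 dg7 m30_1 (l30_1 ++ z30_1) w30_1 = true := by
  decide +kernel

theorem x30_2 : expB 3 5 dg2 dg7 m30_2 (l30_2 ++ z30_2) w30_2 = true := by
  decide +kernel

theorem x30_3 : expB 3 5 dg2 dg7 m30_3 (l30_3 ++ z30_3) w30_3 = true := by
  decide +kernel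

theorem t30_0_0 : chkS lk30 3 5 [(1, m30_0)] l30_0
  [(20, 33, 258, 103026771, 101975346), (24, 528, 528, 34891056, 52696656), (23, 528, 528, 34887216, 36968016), (27, 528, 528, 34891056, 52696656), (23, 528, 528, 34891056, 52696656), (27, 528, 528, 34887216, 36968016), (12, 18, 18, 55648356, 22045506), (12, 18, 18, 87429156, 73421106), (12, 18, 18, 87425316, 73421091), (14, 18, 18, 86380596, 73405746), (21, 33, 258, 87298146, 23351346), (33, 33, 258, 88215651, 23397426), (28, 18, 18, 55840866, 22306866), (11, 18, 18, 54599781, 17130306), (11, 33, 258, 70586466, 21385266), (13, 33, 258, 69537891, 21366066), (28, 33, 258, 55836966, 5529891), (39, 33, 258, 72552486, 5652786), (44, 528, 528, 51733056, 54616656), (41, 528, 528, 50684481, 54616581), (41, 33, 258, 73732131, 88473906), (29, 33, 258, 56951076, 88105251), (28, 33, 258, 55840806,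 5529906), (39, 33, 258, 72548646, 5652771), (11, 33, 258, 54599766, 1401666), (23, 513, 513, 34891011, 52692561), (12, 33, 258, 55648326, 5333826), (44, 528, 528, 51717696, 37839696), (41, 528, 528, 50669121, 37839621), (41, 33, 258, 73728291, 88473891), (29, 33, 258, 56954916, 88105266), (27, 33, 258, 55840866, 22306866), (11, 18, 18, 70586406, 4608306), (11, 18, 18, 70582566, 4608291), (13, 18, 18, 69537846, 4592946), (12, 33, 258, 87429186, 73486386), (14, 33, 258, 86380611, 73467186), (41, 18, 18, 73732146, 88477746), (27, 18, 18, 55836966, 5529891), (41, 18, 18, 73728306, 88477731), (27, 18, 18, 55840806, 5529906), (29, 18, 18, 56954946, 88170546), (25, 528, 528, 34891056, 52696656), (26, 528, 528, 34891056, 52696656), (22, 528, 528, 34891056, 52696656), (9, 33, 258, 40177731, 88147506), (22, 528, 528, 34887216, 36968016), (9, 33,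 258, 40173891, 88147491), (19, 528, 528, 35013936, 69408336), (19, 288, 288, 19096896, 52512096), (19, 288, 288, 19093056, 36783456), (18, 18, 18, 38998116, 22038066), (35, 18, 18, 55840866, 22306866), (38, 18, 18, 55840866, 22306866), (28, 18, 18, 40108371, 85198371), (16, 528, 528, 33965361, 69408261), (39, 18, 18, 40046676, 84952626), (2, 528, 528, 19162371, 52692321), (28, 513, 513, 101983491, 103023441), (11, 513, 513, 102847491, 103941441), (4, 513, 513, 101926146, 102973521), (5, 33, 258, 40173891, 88147491), (7, 513, 513, 101929986, 103956561), (16, 33, 258, 5317446, 5317446), (28, 513, 513, 101995011, 104071761), (11, 513, 513, 102843651, 102958401), (39, 513, 513, 100880916, 103825941), (42, 513, 513, 85221891, 56885841), (40, 258, 33, 102842421, 100865346), (4, 513, 513, 101929986, 103956561), (5, 33, 258, 40177731, 88147506),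 (7, 513, 513, 101926146, 102973521), (16, 33, 258, 5321286, 5321286), (15, 513, 513, 67461651, 54919701), (16, 288, 288, 2188611, 52495686), (16, 288, 288, 2184771, 36767046), (2, 288, 288, 34825536, 52512336), (40, 18, 18, 40177716, 88086066), (34, 18, 18, 39063606, 5510706), (5, 513, 513, 101929986, 103956561), (19, 513, 513, 85337091, 73532241), (5, 513, 513, 101926146, 102973521), (19, 513, 513, 85344771, 73597521), (16, 513, 513, 84296211, 73597461), (35, 33, 258, 55840806, 5529906), (38, 33, 258, 55840806, 5529906), (28, 33, 258, 40112181, 84153906), (11, 18, 18, 40177731, 88147506), (28, 33, 258, 40108341, 84153891), (11, 18, 18, 40173891, 88147491), (16, 513, 513, 33965331, 69404181), (39, 33, 258, 40046661, 83969586), (39, 33, 258, 40042821, 83969571), (2, 513, 513, 19162416, 52696416), (25, 513, 513, 34891011, 52692561), (26,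 513, 513, 34891011, 52692561), (22, 528, 528, 101995056, 104075856), (19, 513, 513, 35013891, 69404241), (19, 258, 33, 19096836, 52446561), (18, 33, 258, 38998086, 5326386), (42, 528, 528, 85206576, 40112976), (15, 18, 18, 56954946, 88170546), (4, 528, 528, 101926176, 102973776), (7, 18, 18, 40173891, 88147491), (7, 528, 528, 101930016, 103956816), (15, 528, 528, 67446321, 38146821), (42, 528, 528, 85221936, 56889936), (15, 18, 18, 56951106, 88170531), (40, 288, 288, 102842451, 101909826), (28, 528, 528, 101995056, 104075856), (39, 528, 528, 100880961, 103891461), (4, 528, 528, 101930016, 103956816), (7, 18, 18, 40177731, 88147506), (7, 528, 528, 101926176, 102973776), (15, 528, 528, 67461681, 54923781), (16, 18, 18, 5321316, 22032966), (40, 33, 258, 40177731, 88147506), (40, 33, 258, 40173891, 88147491), (34, 33, 258, 39063651, 22283826),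 (16, 258, 33, 2188596, 52434246), (2, 258, 33, 34825476, 52446801), (5, 528, 528, 101930016, 103956816), (16, 528, 528, 84288561, 73536261), (5, 528, 528, 101926176, 102973776), (16, 528, 528, 84296241, 73601541), (19, 528, 528, 85344816, 73601616)]
  [(2, 192), (4, 360), (7, -720), (9, -120), (11, 576), (12, 384), (13, -168), (14, -192), (15, 456), (16, 96), (18, 264), (19, -672), (20, 216), (21, 144), (22, 384), (23, 48), (24, -216), (25, -144), (26, 144), (27, -528), (28, -96), (29, -72), (33, -144), (34, -96), (35, -216), (38, 216), (39, -312), (40, 192), (41, 720), (42, -336), (44, -360)] = true := by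
  decide +kernel

theorem t30_0_1 : chkS lk30 3 5 [(1, m30_0)] l30_1
  [(22, 528, 528, 34887216, 36968016), (19, 288, 288, 19096896, 52512096), (22, 528, 528, 34891056, 52696656), (19, 288, 288, 19093056, 36783456), (9, 33, 258, 40177731, 88147506), (9, 33, 258, 40173891, 88147491), (25, 528, 528, 34891056, 52696656), (18, 18, 18, 38998116, 22038066), (26, 528, 528, 34891056, 52696656), (19, 528, 528, 35013936, 69408336), (28, 18, 18, 40108371, 85198371), (39, 18, 18, 40046676, 84952626), (35, 18, 18, 55840866, 22306866), (2, 528, 528, 19162371, 52692321), (38, 18, 18, 55840866, 22306866), (16, 528, 528, 33965361, 69408261), (4, 513, 513, 101926146, 102973521), (7, 513, 513, 101929986, 103956561), (28, 513, 513, 101983491, 103023441), (16, 33, 258, 5317446, 5317446), (11, 513, 513, 102847491, 103941441), (5, 33, 258, 40173891, 88147491),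 (4, 513, 513, 101929986, 103956561), (7, 513, 513, 101926146, 102973521), (42, 513, 513, 85221891, 56885841), (15, 513, 513, 67461651, 54919701), (28, 513, 513, 101995011, 104071761), (16, 33, 258, 5321286, 5321286), (11, 513, 513, 102843651, 102958401), (5, 33, 258, 40177731, 88147506), (39, 513, 513, 100880916, 103825941), (40, 258, 33, 102842421, 100865346), (5, 513, 513, 101929986, 103956561), (5, 513, 513, 101926146, 102973521), (40, 18, 18, 40177716, 88086066), (16, 513, 513, 84296211, 73597461), (16, 288, 288, 2188611, 52495686), (19, 513, 513, 85344771, 73597521), (16, 288, 288, 2184771, 36767046), (19, 513, 513, 85337091, 73532241), (2, 288, 288, 34825536, 52512336), (34, 18, 18, 39063606, 5510706), (23, 528, 528, 34891056, 52696656), (12, 18, 18, 87429156, 73421106), (23, 528, 528, 34887216, 36968016), (12, 18, 18, 87425316,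 73421091), (27, 528, 528, 34891056, 52696656), (27, 528, 528, 34887216, 36968016), (20, 33, 258, 103026771, 101975346), (14, 18, 18, 86380596, 73405746), (24, 528, 528, 34891056, 52696656), (12, 18, 18, 55648356, 22045506), (28, 18, 18, 55840866, 22306866), (11, 33, 258, 70586466, 21385266), (21, 33, 258, 87298146, 23351346), (13, 33, 258, 69537891, 21366066), (33, 33, 258, 88215651, 23397426), (11, 18, 18, 54599781, 17130306), (44, 528, 528, 51733056, 54616656), (41, 33, 258, 73732131, 88473906), (28, 33, 258, 55836966, 5529891), (29, 33, 258, 56951076, 88105251), (39, 33, 258, 72552486, 5652786), (41, 528, 528, 50684481, 54616581), (44, 528, 528, 51717696, 37839696), (41, 33, 258, 73728291, 88473891), (23, 513, 513, 34891011, 52692561), (27, 33, 258, 55840866, 22306866), (28, 33, 258, 55840806, 5529906), (29, 33, 258, 56954916, 88105266),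 (39, 33, 258, 72548646, 5652771), (41, 528, 528, 50669121, 37839621), (11, 33, 258, 54599766, 1401666), (12, 33, 258, 55648326, 5333826), (41, 18, 18, 73732146, 88477746), (41, 18, 18, 73728306, 88477731), (12, 33, 258, 87429186, 73486386), (29, 18, 18, 56954946, 88170546), (11, 18, 18, 70586406, 4608306), (27, 18, 18, 55840806, 5529906), (11, 18, 18, 70582566, 4608291), (27, 18, 18, 55836966, 5529891), (13, 18, 18, 69537846, 4592946), (14, 33, 258, 86380611, 73467186), (28, 33, 258, 40108341, 84153891), (39, 33, 258, 40046661, 83969586), (28, 33, 258, 40112181, 84153906), (39, 33, 258, 40042821, 83969571), (11, 18, 18, 40177731, 88147506), (11, 18, 18, 40173891, 88147491), (35, 33, 258, 55840806, 5529906), (2, 513, 513, 19162416, 52696416), (38, 33, 258, 55840806, 5529906), (16, 513, 513, 33965331, 69404181), (22, 528, 528, 101995056,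 104075856), (19, 258, 33, 19096836, 52446561), (25, 513, 513, 34891011, 52692561), (18, 33, 258, 38998086, 5326386), (26, 513, 513, 34891011, 52692561), (19, 513, 513, 35013891, 69404241), (4, 528, 528, 101926176, 102973776), (7, 528, 528, 101930016, 103956816), (42, 528, 528, 85206576, 40112976), (15, 528, 528, 67446321, 38146821), (15, 18, 18, 56954946, 88170546), (7, 18, 18, 40173891, 88147491), (4, 528, 528, 101930016, 103956816), (7, 528, 528, 101926176, 102973776), (28, 528, 528, 101995056, 104075856), (16, 18, 18, 5321316, 22032966), (42, 528, 528, 85221936, 56889936), (15, 528, 528, 67461681, 54923781), (15, 18, 18, 56951106, 88170531), (7, 18, 18, 40177731, 88147506), (40, 288, 288, 102842451, 101909826), (39, 528, 528, 100880961, 103891461), (5, 528, 528, 101930016, 103956816), (5, 528, 528, 101926176, 102973776), (16, 258, 33,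 2188596, 52434246), (19, 528, 528, 85344816, 73601616), (40, 33, 258, 40177731, 88147506), (16, 528, 528, 84296241, 73601541), (40, 33, 258, 40173891, 88147491), (16, 528, 528, 84288561, 73536261), (34, 33, 258, 39063651, 22283826), (2, 258, 33, 34825476, 52446801)]
  [(2, 192), (11, 96), (12, -96), (13, 192), (14, -192), (15, 576), (16, 1056), (18, -96), (19, -1632), (20, 96), (21, -96), (22, 864), (23, 288), (24, -96), (25, 96), (26, -96), (27, -288), (28, -576), (29, 288), (33, 96), (34, -96), (35, -96), (38, 96), (39, -672), (40, 672), (42, -576), (44, 0)] = true := by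
  decide +kernel

theorem t30_0_2 : chkS lk30 3 5 [(1, m30_0)] l30_2
  [(22, 528, 528, 34891056, 52696656), (9, 33, 258, 40177731, 88147506), (22, 528, 528, 34887216, 36968016), (9, 33, 258, 40173891, 88147491), (19, 288, 288, 19096896, 52512096), (19, 288, 288, 19093056, 36783456), (25, 528, 528, 34891056, 52696656), (26, 528, 528, 34891056, 52696656), (19, 528, 528, 35013936, 69408336), (18, 18, 18, 38998116, 22038066), (35, 18, 18, 55840866, 22306866), (38, 18, 18, 55840866, 22306866), (28, 18, 18, 40108371, 85198371), (16, 528, 528, 33965361, 69408261), (39, 18, 18, 40046676, 84952626), (2, 528, 528, 19162371, 52692321), (28, 513, 513, 101983491, 103023441), (11, 513, 513, 102847491, 103941441), (4, 513, 513, 101926146, 102973521), (5, 33, 258, 40173891, 88147491), (7, 513, 513, 101929986, 103956561), (16, 33, 258, 5317446, 5317446),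 (42, 513, 513, 85221891, 56885841), (4, 513, 513, 101929986, 103956561), (28, 513, 513, 101995011, 104071761), (11, 513, 513, 102843651, 102958401), (5, 33, 258, 40177731, 88147506), (7, 513, 513, 101926146, 102973521), (16, 33, 258, 5321286, 5321286), (39, 513, 513, 100880916, 103825941), (40, 258, 33, 102842421, 100865346), (15, 513, 513, 67461651, 54919701), (40, 18, 18, 40177716, 88086066), (5, 513, 513, 101929986, 103956561), (16, 288, 288, 2188611, 52495686), (16, 288, 288, 2184771, 36767046), (19, 513, 513, 85337091, 73532241), (5, 513, 513, 101926146, 102973521), (19, 513, 513, 85344771, 73597521), (2, 288, 288, 34825536, 52512336), (34, 18, 18, 39063606, 5510706), (16, 513, 513, 84296211, 73597461), (23, 528, 528, 34887216, 36968016), (27, 528, 528, 34891056, 52696656), (23, 528, 528, 34891056, 52696656), (27, 528, 528, 34887216,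 36968016), (12, 18, 18, 87429156, 73421106), (12, 18, 18, 87425316, 73421091), (20, 33, 258, 103026771, 101975346), (24, 528, 528, 34891056, 52696656), (12, 18, 18, 55648356, 22045506), (14, 18, 18, 86380596, 73405746), (21, 33, 258, 87298146, 23351346), (33, 33, 258, 88215651, 23397426), (28, 18, 18, 55840866, 22306866), (11, 18, 18, 54599781, 17130306), (11, 33, 258, 70586466, 21385266), (13, 33, 258, 69537891, 21366066), (28, 33, 258, 55836966, 5529891), (39, 33, 258, 72552486, 5652786), (44, 528, 528, 51733056, 54616656), (41, 528, 528, 50684481, 54616581), (41, 33, 258, 73732131, 88473906), (29, 33, 258, 56951076, 88105251), (23, 513, 513, 34891011, 52692561), (44, 528, 528, 51717696, 37839696), (28, 33, 258, 55840806, 5529906), (39, 33, 258, 72548646, 5652771), (41, 528, 528, 50669121, 37839621), (41, 33, 258, 73728291, 88473891),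 (29, 33, 258, 56954916, 88105266), (11, 33, 258, 54599766, 1401666), (12, 33, 258, 55648326, 5333826), (27, 33, 258, 55840866, 22306866), (12, 33, 258, 87429186, 73486386), (41, 18, 18, 73732146, 88477746), (11, 18, 18, 70586406, 4608306), (11, 18, 18, 70582566, 4608291), (27, 18, 18, 55836966, 5529891), (41, 18, 18, 73728306, 88477731), (27, 18, 18, 55840806, 5529906), (13, 18, 18, 69537846, 4592946), (14, 33, 258, 86380611, 73467186), (29, 18, 18, 56954946, 88170546), (28, 33, 258, 40112181, 84153906), (11, 18, 18, 40177731, 88147506), (28, 33, 258, 40108341, 84153891), (11, 18, 18, 40173891, 88147491), (39, 33, 258, 40046661, 83969586), (39, 33, 258, 40042821, 83969571), (35, 33, 258, 55840806, 5529906), (38, 33, 258, 55840806, 5529906), (16, 513, 513, 33965331, 69404181), (2, 513, 513, 19162416, 52696416), (25, 513, 513, 34891011,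 52692561), (26, 513, 513, 34891011, 52692561), (22, 528, 528, 101995056, 104075856), (19, 513, 513, 35013891, 69404241), (19, 258, 33, 19096836, 52446561), (18, 33, 258, 38998086, 5326386), (42, 528, 528, 85206576, 40112976), (15, 18, 18, 56954946, 88170546), (4, 528, 528, 101926176, 102973776), (7, 18, 18, 40173891, 88147491), (7, 528, 528, 101930016, 103956816), (15, 528, 528, 67446321, 38146821), (28, 528, 528, 101995056, 104075856), (4, 528, 528, 101930016, 103956816), (42, 528, 528, 85221936, 56889936), (15, 18, 18, 56951106, 88170531), (7, 18, 18, 40177731, 88147506), (7, 528, 528, 101926176, 102973776), (15, 528, 528, 67461681, 54923781), (40, 288, 288, 102842451, 101909826), (39, 528, 528, 100880961, 103891461), (16, 18, 18, 5321316, 22032966), (16, 258, 33, 2188596, 52434246), (5, 528, 528, 101930016, 103956816), (40, 33, 258,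 40177731, 88147506), (40, 33, 258, 40173891, 88147491), (16, 528, 528, 84288561, 73536261), (5, 528, 528, 101926176, 102973776), (16, 528, 528, 84296241, 73601541), (34, 33, 258, 39063651, 22283826), (2, 258, 33, 34825476, 52446801), (19, 528, 528, 85344816, 73601616)]
  [(2, 24), (5, 360), (7, -360), (9, -240), (11, 72), (12, 48), (13, 24), (14, -24), (15, 192), (16, 192), (18, 168), (19, -624), (20, 72), (21, -72), (22, 408), (23, 96), (24, -72), (25, 72), (26, -72), (27, -336), (28, -192), (29, 216), (33, 72), (34, -192), (35, -72), (38, 72), (39, 96), (40, 384), (42, -312), (44, 0)] = true := by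
  decide +kernel

theorem t30_0_3 : chkS lk30 3 5 [(1, m30_0)] l30_3
  [(9, 528, 528, 19227696, 54662496), (10, 528, 528, 19289136, 70391136), (3, 258, 33, 101860101, 100869201), (12, 528, 528, 19285296, 69408096), (40, 18, 18, 88154886, 6628161), (5, 513, 513, 51733506, 54681681), (12, 513, 513, 102847491, 103941441), (41, 288, 288, 19203171, 21103971), (31, 18, 18, 90439971, 90439971), (6, 513, 513, 51794946, 70410321), (30, 18, 18, 90443826, 90443826), (36, 18, 18, 90443826, 90443826), (11, 33, 258, 90251316, 90182466), (13, 18, 18, 56954946, 88170546), (2, 513, 513, 50619666, 52715541), (16, 513, 513, 20333856, 69423456), (29, 528, 528, 68510256, 54923856), (5, 528, 528, 51733536, 54681936), (16, 528, 528, 103896066, 103960641), (41, 258, 33, 19203126, 4330851), (30, 33, 258, 90439971, 90439971), (6, 528, 528, 51794976, 70410576),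 (31, 33, 258, 90443826, 90443826), (36, 33, 258, 90443811, 90439986), (40, 33, 258, 21312096, 21312096), (2, 528, 528, 67331361, 52838661), (3, 288, 288, 35013456, 68363856), (29, 513, 513, 85206531, 40108881), (9, 33, 258, 23396931, 88146531), (5, 528, 528, 85149216, 40059216), (11, 18, 18, 23396931, 88146531), (5, 513, 513, 85149186, 40058961), (30, 528, 528, 85221936, 56889936), (8, 528, 528, 51794976, 70410576), (43, 528, 528, 87295506, 40128531), (8, 513, 513, 51794946, 70410321)]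
  [(2, 120), (3, 240), (5, -360), (6, 360), (10, -120), (11, 360), (13, -240), (29, -360), (30, 240), (31, -120), (36, -360), (41, 360), (43, -120)] = true := by
  decide +kernel

theorem t30_1_1 : chkS lk30 3 5 [(1, m30_1)] l30_1
  [(20, 513, 513, 103043331, 104072481), (14, 258, 33, 86388996, 73413921), (23, 288, 288, 34879056, 34879056), (12, 258, 33, 87433476, 73421601), (12, 258, 33, 55665156, 55599681), (24, 288, 288, 34879056, 34879056), (23, 288, 288, 34878816, 19150416), (12, 258, 33, 87433236, 73421586), (12, 258, 33, 55664676, 55599426), (24, 288, 288, 34878816, 19150416), (23, 513, 513, 56905746, 87318546), (27, 513, 513, 55861266, 55861266), (28, 513, 513, 55844886, 5530386), (29, 513, 513, 56958996, 88105746), (11, 513, 513, 54612006, 3498306), (12, 513, 513, 55656486, 5464386), (23, 513, 513, 56905986, 87318561), (27, 513,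 513, 55861506, 55861281), (28, 513, 513, 55845126, 5530401), (29, 513, 513, 56959236, 88105761), (11, 513, 513, 54612486, 3498561), (12, 513, 513, 55656966, 5464641), (28, 258, 33, 55861506, 55861281), (11, 513, 513, 70607106, 54939681), (28, 258, 33, 55861266, 55861266), (11, 513, 513, 70606866, 54939666), (21, 513, 513, 87318786, 56905761), (13, 513, 513, 69558531, 54920481), (33, 513, 513, 88236291, 56951841), (11, 258, 33, 54616581, 50684481), (33, 513, 513, 88236051, 56951826), (11, 258, 33, 54616101, 50684226), (29, 258, 33, 56967426, 88301601), (12, 513, 513, 87441666, 73617441), (29, 258, 33, 56967186, 88301586), (12, 513, 513, 87441426, 73617426), (13, 258, 33, 69546246, 4601121), (14, 513, 513, 86393091, 73598241), (11, 258, 33, 70590726, 4608801), (27, 258, 33, 55845126, 5530401), (11, 258, 33, 70590486, 4608786), (27, 258,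 33, 55844886, 5530386), (25, 288, 288, 34879056, 34879056), (18, 258, 33, 39018756, 55592481), (22, 288, 288, 34878816, 19150416), (19, 528, 528, 19088976, 34817376), (19, 288, 288, 35009616, 68302416), (26, 288, 288, 34879056, 34879056), (22, 288, 288, 34879056, 34879056), (19, 528, 528, 19088736, 19088736), (19, 288, 288, 35009856, 69285456), (26, 288, 288, 34878816, 19150416), (42, 513, 513, 56893461, 84173586), (15, 33, 258, 67441251, 21365301), (28, 33, 258, 101974611, 101974611), (16, 513, 513, 5325366, 5444166), (39, 33, 258, 100864596, 101728821), (40, 18, 18, 102838341, 100742466), (42, 513, 513, 56893701, 84173601), (15, 33, 258, 67442211, 38142261), (28, 33, 258, 101975331, 103022931), (16, 513, 513, 5325606, 5448006), (39, 33, 258, 100865316, 102777141), (40, 18, 18, 102839301, 100808001), (28, 258, 33, 40128531, 87295506),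 (39, 258, 33, 40063236, 87049761), (28, 258, 33, 40128771, 87295521), (39, 258, 33, 40062996, 87049746), (35, 258, 33, 55861506, 55861281), (2, 288, 288, 19138131, 34866531), (38, 258, 33, 55861506, 55861281), (16, 288, 288, 33961041, 68302341), (38, 258, 33, 55861266, 55861266), (16, 288, 288, 33961281, 69285381), (16, 33, 258, 84284451, 73531701), (40, 258, 33, 40186116, 88094241), (16, 33, 258, 84283971, 73466421), (40, 258, 33, 40185876, 88094226), (2, 528, 528, 34817616, 34817616), (34, 258, 33, 39072006, 5518881), (16, 528, 528, 2180691, 34800966), (19, 33, 258, 85328931, 73531731), (16, 528, 528, 2180451, 19072326), (19, 33, 258, 85328451, 73466451), (25, 33, 258, 34866771, 34866771), (34, 513, 513, 39084291, 55838241), (42, 288, 288, 85210656, 40120656), (40, 513, 513, 40190211, 88278561), (40, 528, 528, 102847491, 103941441),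 (26, 33, 258, 34866771, 34866771), (42, 288, 288, 85209696, 23343696), (40, 513, 513, 40189971, 88278546), (40, 528, 528, 102846531, 103875906), (26, 33, 258, 34866531, 19138131), (22, 288, 288, 101986896, 101986896), (19, 288, 288, 85340736, 73478736), (28, 513, 513, 40120581, 84162081), (16, 288, 288, 84292161, 73478661), (16, 33, 258, 33953091, 69273141), (19, 513, 513, 39010566, 5457441), (22, 288, 288, 101987616, 103035216), (19, 288, 288, 85341216, 73544016), (28, 513, 513, 40120341, 84162066), (16, 288, 288, 84292641, 73543941), (16, 33, 258, 33952851, 68290101), (19, 513, 513, 39010326, 5457426), (28, 288, 288, 101987616, 103035216), (16, 18, 18, 2176596, 34616646), (28, 288, 288, 101986896, 101986896), (16, 18, 18, 2176356, 18888006), (35, 513, 513, 55845126, 5530401), (2, 18, 18, 34801236, 34621011), (38, 513, 513, 55845126,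 5530401), (39, 288, 288, 100877601, 102973701), (38, 513, 513, 55844886, 5530386), (39, 288, 288, 100876881, 101925381), (16, 258, 33, 5333796, 55583046), (19, 528, 528, 86393616, 73606416), (16, 258, 33, 5333556, 55579206), (19, 528, 528, 86393136, 73602336), (2, 33, 258, 19150416, 34878816), (18, 513, 513, 39010566, 5457441), (39, 513, 513, 40059141, 84100641), (15, 288, 288, 67450401, 38154501), (39, 513, 513, 40058901, 84100626), (15, 288, 288, 67449441, 21377541)]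
  [(2, 1152), (11, 1536), (12, -1536), (13, 1152), (14, -1152), (15, -384), (16, 1536), (18, -576), (19, -1152), (20, 576), (21, -576), (22, 384), (23, 768), (24, 384), (25, 576), (26, 384), (27, -768), (28, -1536), (29, 768), (33, -384), (34, -576), (35, -576), (38, -384), (39, 768), (40, -768), (42, 384)] = true := by
  decide +kernel

theorem t30_1_2 : chkS lk30 3 5 [(1, m30_1)] l30_2
  [(23, 288, 288, 34879056, 34879056), (12, 258, 33, 55665156, 55599681), (20, 513, 513, 103043331, 104072481), (24, 288, 288, 34879056, 34879056), (14, 258, 33, 86388996, 73413921), (12, 258, 33, 87433476, 73421601), (23, 288, 288, 34878816, 19150416), (12, 258, 33, 55664676, 55599426), (24, 288, 288, 34878816, 19150416), (12, 258, 33, 87433236, 73421586), (28, 513, 513, 55844886, 5530386), (11, 513, 513, 54612006, 3498306), (23, 513, 513, 56905746, 87318546),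 (12, 513, 513, 55656486, 5464386), (27, 513, 513, 55861266, 55861266), (29, 513, 513, 56958996, 88105746), (28, 513, 513, 55845126, 5530401), (11, 513, 513, 54612486, 3498561), (23, 513, 513, 56905986, 87318561), (12, 513, 513, 55656966, 5464641), (27, 513, 513, 55861506, 55861281), (29, 513, 513, 56959236, 88105761), (28, 258, 33, 55861266, 55861266), (28, 258, 33, 55861506, 55861281), (21, 513, 513, 87318786, 56905761), (33, 513, 513, 88236291, 56951841), (11, 258, 33, 54616581, 50684481), (11, 513, 513, 70607106, 54939681), (13, 513, 513, 69558531, 54920481), (33, 513, 513, 88236051, 56951826), (11, 258, 33, 54616101, 50684226), (11, 513, 513, 70606866, 54939666), (29, 258, 33, 56967186, 88301586), (29, 258, 33, 56967426, 88301601), (13, 258, 33, 69546246, 4601121), (11, 258, 33, 70590726, 4608801), (27, 258, 33, 55845126, 5530401),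 (12, 513, 513, 87441666, 73617441), (14, 513, 513, 86393091, 73598241), (11, 258, 33, 70590486, 4608786), (27, 258, 33, 55844886, 5530386), (12, 513, 513, 87441426, 73617426), (22, 288, 288, 34878816, 19150416), (19, 288, 288, 35009616, 68302416), (25, 288, 288, 34879056, 34879056), (26, 288, 288, 34879056, 34879056), (18, 258, 33, 39018756, 55592481), (19, 528, 528, 19088976, 34817376), (22, 288, 288, 34879056, 34879056), (19, 288, 288, 35009856, 69285456), (26, 288, 288, 34878816, 19150416), (19, 528, 528, 19088736, 19088736), (28, 33, 258, 101974611, 101974611), (39, 33, 258, 100864596, 101728821), (42, 513, 513, 56893461, 84173586), (40, 18, 18, 102838341, 100742466), (15, 33, 258, 67441251, 21365301), (16, 513, 513, 5325366, 5444166), (28, 33, 258, 101975331, 103022931), (39, 33, 258, 100865316, 102777141), (42, 513, 513, 56893701,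 84173601), (40, 18, 18, 102839301, 100808001), (15, 33, 258, 67442211, 38142261), (16, 513, 513, 5325606, 5448006), (28, 258, 33, 40128771, 87295521), (28, 258, 33, 40128531, 87295506), (35, 258, 33, 55861506, 55861281), (38, 258, 33, 55861506, 55861281), (16, 288, 288, 33961041, 68302341), (39, 258, 33, 40063236, 87049761), (2, 288, 288, 19138131, 34866531), (38, 258, 33, 55861266, 55861266), (16, 288, 288, 33961281, 69285381), (39, 258, 33, 40062996, 87049746), (16, 33, 258, 84283971, 73466421), (16, 33, 258, 84284451, 73531701), (2, 528, 528, 34817616, 34817616), (16, 528, 528, 2180691, 34800966), (19, 33, 258, 85328931, 73531731), (40, 258, 33, 40186116, 88094241), (34, 258, 33, 39072006, 5518881), (16, 528, 528, 2180451, 19072326), (19, 33, 258, 85328451, 73466451), (40, 258, 33, 40185876, 88094226), (42, 288, 288, 85210656, 40120656),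 (40, 528, 528, 102847491, 103941441), (25, 33, 258, 34866771, 34866771), (26, 33, 258, 34866771, 34866771), (34, 513, 513, 39084291, 55838241), (40, 513, 513, 40190211, 88278561), (42, 288, 288, 85209696, 23343696), (40, 528, 528, 102846531, 103875906), (26, 33, 258, 34866531, 19138131), (40, 513, 513, 40189971, 88278546), (28, 513, 513, 40120581, 84162081), (16, 33, 258, 33953091, 69273141), (22, 288, 288, 101986896, 101986896), (19, 513, 513, 39010566, 5457441), (19, 288, 288, 85340736, 73478736), (16, 288, 288, 84292161, 73478661), (28, 513, 513, 40120341, 84162066), (16, 33, 258, 33952851, 68290101), (22, 288, 288, 101987616, 103035216), (19, 513, 513, 39010326, 5457426), (19, 288, 288, 85341216, 73544016), (16, 288, 288, 84292641, 73543941), (28, 288, 288, 101986896, 101986896), (28, 288, 288, 101987616, 103035216), (35, 513, 513,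 55845126, 5530401), (38, 513, 513, 55845126, 5530401), (39, 288, 288, 100877601, 102973701), (16, 18, 18, 2176596, 34616646), (2, 18, 18, 34801236, 34621011), (38, 513, 513, 55844886, 5530386), (39, 288, 288, 100876881, 101925381), (16, 18, 18, 2176356, 18888006), (16, 258, 33, 5333556, 55579206), (16, 258, 33, 5333796, 55583046), (2, 33, 258, 19150416, 34878816), (39, 513, 513, 40059141, 84100641), (15, 288, 288, 67450401, 38154501), (19, 528, 528, 86393616, 73606416), (18, 513, 513, 39010566, 5457441), (39, 513, 513, 40058901, 84100626), (15, 288, 288, 67449441, 21377541), (19, 528, 528, 86393136, 73602336)]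
  [(2, 384), (11, 192), (12, -192), (13, 384), (14, -384), (15, -288), (16, 672), (18, -192), (19, -384), (20, 192), (21, -192), (22, 288), (23, 576), (24, -192), (25, 192), (26, -192), (27, -576), (28, -1152), (29, 576), (33, 192), (34, -192), (35, -192), (38, 192), (39, 96), (40, -96), (42, 288)] = true := by
  decide +kernel

theorem t30_1_3 : chkS lk30 3 5 [(1, m30_1)] l30_3
  [(12, 288, 288, 19281216, 69285216), (9, 288, 288, 19215936, 37827936), (12, 288, 288, 19280976, 68302176), (9, 288, 288, 19215456, 21116256), (16, 288, 288, 20317266, 68309091), (16, 288, 288, 20317506, 69292131), (11, 258, 33, 90259971, 90374721), (11, 258, 33, 90259491, 90374466), (30, 258, 33, 90451986, 90451986), (30, 258, 33, 90452226, 90452001), (31, 258, 33, 90448131, 90440481), (31, 258, 33, 90447891, 90440466), (40, 513, 513, 21324336, 54858336), (29,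 33, 258, 85197411, 23331411), (40, 513, 513, 21324576, 54862176), (29, 33, 258, 85198371, 40108371), (29, 288, 288, 85209696, 23343696), (29, 288, 288, 85210656, 40120656), (40, 258, 33, 21300006, 4530531), (40, 258, 33, 21299766, 4526691), (30, 288, 288, 85209696, 23343696), (30, 288, 288, 85210656, 40120656), (43, 288, 288, 87299586, 40128561), (43, 288, 288, 87298146, 23351346), (11, 513, 513, 90255396, 90190146), (16, 33, 258, 20325456, 68309856), (11, 513, 513, 90255876, 90190401), (16, 33, 258, 20325696, 69292896), (9, 33, 258, 19203651, 37815651), (9, 33, 258, 19203171, 21103971), (12, 33, 258, 19268691, 68289891), (12, 33, 258, 19268931, 69272931), (30, 513, 513, 90448131, 90440481), (30, 513, 513, 90447891, 90440466), (31, 513, 513, 90451986, 90451986), (31, 513, 513, 90452226, 90452001)]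
  [(9, -480), (11, 480), (12, 480), (16, -480), (29, -960), (30, 960), (31, -480), (40, 960), (43, -480)] = true := by
  decide +kernel

theorem t30_2_2 : chkS lk30 3 5 [(1, m30_2)] l30_2
  [(20, 513, 513, 103027971, 103023921), (24, 288, 288, 34890576, 51652176), (23, 288, 288, 34890576, 51652176), (12, 258, 33, 55649796, 38822721), (12, 258, 33, 87429636, 73421361), (14, 258, 33, 86381316, 73409841), (23, 288, 288, 34886496, 20194896), (27, 288, 288, 34890576, 51652176), (27, 288, 288, 34886496, 20194896), (12, 258, 33, 87425556, 73421331), (28, 513, 513, 55837206, 5530131), (39, 513, 513, 72552966, 5653041), (44, 288, 288, 51733536, 54681936), (41, 288, 288, 50684961, 54681861), (41, 513, 513, 73732611, 88474161), (29, 513, 513, 56951316, 88105491), (21, 513, 513, 87299586, 40128561), (33, 513, 513, 88217091, 40174641), (28, 258, 33,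 55842306, 39084081), (11, 258, 33, 54601221, 33907521), (11, 513, 513, 70587906, 38162481), (13, 513, 513, 69539331, 38143281), (44, 288, 288, 51717216, 21128016), (23, 513, 513, 56890626, 86270001), (28, 513, 513, 55841286, 5530161), (11, 513, 513, 54600966, 2450241), (12, 513, 513, 55649286, 5399361), (27, 513, 513, 55842306, 39084081), (29, 513, 513, 56955396, 88105521), (39, 513, 513, 72548886, 5653011), (41, 288, 288, 50668641, 21127941), (41, 513, 513, 73728531, 88474131), (41, 258, 33, 73732866, 88481841), (12, 513, 513, 87430146, 73551921), (11, 258, 33, 70586886, 4608561), (13, 258, 33, 69538566, 4597041), (14, 513, 513, 86381571, 73532721), (29, 258, 33, 56955906, 88236081), (27, 258, 33, 55841286, 5530161), (11, 258, 33, 70582806, 4608531), (27, 258, 33, 55837206, 5530131), (41, 258, 33, 73728786, 88481811), (25, 288, 288, 34890576,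 51652176), (26, 288, 288, 34890576, 51652176), (22, 288, 288, 34886496, 20194896), (19, 288, 288, 35013456, 68363856), (19, 528, 528, 19096656, 51529056), (18, 258, 33, 38999556, 38815281), (22, 288, 288, 34890576, 51652176), (9, 513, 513, 40178691, 88213041), (9, 513, 513, 40174611, 88213011), (19, 528, 528, 19092576, 20071776), (28, 33, 258, 101982291, 101974866), (11, 33, 258, 102846531, 103875906), (4, 513, 513, 40043541, 84035091), (5, 513, 513, 40174611, 88213011), (7, 33, 258, 101929026, 103891026), (16, 513, 513, 5317686, 5378886), (35, 258, 33, 55842306, 39084081), (38, 258, 33, 55842306, 39084081), (28, 258, 33, 40109331, 86246931), (16, 288, 288, 33964881, 68363781), (39, 258, 33, 40047876, 86001201), (2, 288, 288, 19161171, 51643746), (4, 513, 513, 40047621, 84035121), (42, 513, 513, 56889861, 84173361), (28, 33, 258, 101994531,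 104071506), (39, 33, 258, 100880676, 103825701), (40, 18, 18, 102843141, 100869441), (15, 33, 258, 67461411, 54919461), (16, 513, 513, 5321766, 5386566), (11, 33, 258, 102842451, 101909826), (5, 513, 513, 40178691, 88213041), (7, 33, 258, 101924946, 101924946), (5, 33, 258, 101929026, 103891026), (40, 258, 33, 40178436, 88090161), (16, 528, 528, 2188371, 51512646), (2, 528, 528, 34825296, 51529296), (34, 258, 33, 39064326, 5514801), (16, 33, 258, 84295971, 73597221), (19, 33, 258, 85344291, 73597266), (16, 528, 528, 2184291, 20055366), (19, 33, 258, 85336131, 73466706), (5, 33, 258, 101924946, 101924946), (25, 33, 258, 34889811, 51643986), (26, 33, 258, 34889811, 51643986), (42, 288, 288, 85222176, 56893776), (40, 528, 528, 102843651, 102958401), (40, 513, 513, 40178691, 88213041), (34, 513, 513, 39065091, 39061041), (42, 288, 288, 85205856,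 23339856), (15, 258, 33, 56955906, 88236081), (15, 258, 33, 56951826, 88236051), (40, 513, 513, 40174611, 88213011), (28, 513, 513, 40112901, 84158001), (11, 258, 33, 40178691, 88213041), (4, 288, 288, 101929536, 103891536), (7, 258, 33, 40178691, 88213041), (5, 288, 288, 101929536, 103891536), (16, 288, 288, 84288321, 73474821), (35, 513, 513, 55841286, 5530161), (38, 513, 513, 55841286, 5530161), (28, 288, 288, 101995296, 104079696), (39, 288, 288, 100881441, 103956741), (16, 18, 18, 2188116, 51389766), (2, 18, 18, 34824276, 51398226), (4, 288, 288, 101925456, 101925456), (22, 288, 288, 101995296, 104079696), (28, 513, 513, 40108821, 84157971), (16, 33, 258, 33964371, 68355621), (19, 513, 513, 38994966, 5391891), (19, 288, 288, 85345056, 73605456), (16, 288, 288, 84296481, 73605381), (11, 258, 33, 40174611, 88213011), (7, 258, 33, 40174611,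 88213011), (5, 288, 288, 101925456, 101925456), (7, 288, 288, 101929536, 103891536), (19, 528, 528, 86389776, 73544976), (39, 513, 513, 40047621, 84035121), (2, 33, 258, 19161936, 51651936), (18, 513, 513, 38999046, 5391921), (16, 258, 33, 5322276, 38809926), (15, 288, 288, 67461921, 54927621), (39, 513, 513, 40043541, 84035091), (15, 288, 288, 67445601, 21373701), (7, 288, 288, 101925456, 101925456)]
  [(2, 48), (9, -120), (11, 144), (12, 96), (13, 48), (14, -48), (15, -336), (16, 384), (18, -24), (19, -168), (20, 144), (21, -144), (22, 96), (23, 192), (24, -144), (25, 144), (26, -144), (27, -672), (28, -384), (29, 432), (33, 144), (34, -24), (35, -144), (38, 144), (39, 192), (40, 48), (42, 96), (44, 0)] = true := by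
  decide +kernel

theorem t30_2_3 : chkS lk30 3 5 [(1, m30_2)] l30_3
  [(10, 288, 288, 19288896, 70329696), (9, 288, 288, 19227456, 54601056), (12, 288, 288, 19284816, 68363616), (3, 18, 18, 101859381, 100865106), (41, 528, 528, 19203651, 37815651), (12, 33, 258, 102846531, 103875906), (5, 33, 258, 51732546, 54616146), (40, 258, 33, 88154166, 6624066), (36, 258, 33, 90444546, 90447921), (30, 258, 33, 90444546, 90447921), (6, 33, 258, 51793986, 70344786), (31, 258, 33, 90440211, 90440211), (3, 528, 528, 35013936, 69408336), (29, 33, 258, 85205091, 23331666), (40, 513, 513, 21313056, 38089056), (2, 288, 288, 67330641, 51790341), (5, 288, 288, 85148256, 23282256), (9, 513, 513, 23397411, 88211811), (5, 33, 258, 85147746, 23281746), (11, 258, 33, 23397411, 88211811), (8, 288, 288, 51794496, 70345296), (30, 288, 288, 85222176, 56893776), (8,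 33, 258, 51793986, 70344786), (43, 288, 288, 87294306, 23351331), (2, 33, 258, 50618706, 51666981), (16, 33, 258, 20333136, 68375136), (11, 513, 513, 90252036, 90186561), (13, 258, 33, 56955906, 88236081), (5, 288, 288, 51733056, 54616656), (29, 288, 288, 68510496, 54927696), (41, 18, 18, 19202886, 4269411), (16, 288, 288, 103895106, 103895106), (6, 288, 288, 51794496, 70345296), (30, 513, 513, 90440211, 90440211), (36, 513, 513, 90444291, 90440241), (31, 513, 513, 90444546, 90447921)]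
  [(2, -120), (3, 120), (9, -360), (10, 120), (11, 360), (13, -120), (29, -360), (30, 480), (31, -240), (40, 360), (43, -240)] = true := by
  decide +kernel

theorem t30_3_3 : chkS lk30 3 5 [(1, m30_3)] l30_3
  [(0, 258, 33, 106107396, 105923121), (24, 258, 33, 104993541, 101000241), (24, 258, 33, 105054741, 101007891), (32, 528, 528, 35013936, 69408336), (27, 18, 18, 104878371, 104136996), (14, 33, 258, 103895106, 103895106), (19, 513, 513, 56759301, 84042801), (34, 18, 18, 104943666, 104140866), (34, 258, 33, 105190146, 105193521), (19, 33, 258, 56696901, 83977026), (14, 513, 513, 104141826, 105009201), (27, 258, 33, 105185811, 105185811), (1, 33, 258, 70344786, 51793986), (26, 33, 258, 104931381, 100995906), (26, 33, 258, 104870181, 101003556), (17, 258, 33, 56955906, 88236081), (9, 288, 288, 85148256, 23282256), (10, 528, 528, 102052896,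 105001296), (12, 513, 513, 23266341, 84033891), (3, 33, 258, 103043856, 104080656), (3, 18, 18, 39862581, 84088356), (12, 528, 528, 102052896, 105001296), (18, 513, 513, 56759301, 84042801), (37, 288, 288, 102048576, 104932176), (17, 18, 18, 56709186, 87121986), (26, 513, 513, 105054741, 101007891), (26, 513, 513, 104993541, 101000241), (1, 513, 513, 70653186, 69619761), (12, 288, 288, 101929536, 103891536), (3, 258, 33, 40108821, 84157971), (37, 528, 528, 101864496, 103945296), (18, 33, 258, 56696901, 83977026), (10, 288, 288, 101929536, 103891536), (9, 528, 528, 85210656, 40120656), (3, 513, 513, 103104816, 105059616), (12, 33, 258, 23081541, 83964516)]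
  [(0, 120), (1, 120), (3, 240), (9, -120), (10, -120), (12, 240), (14, -240), (17, -120), (18, -120), (19, 240), (27, -240), (32, -120), (34, 240), (37, -120)] = true := by
  decide +kernel

section

variable {κ ι : Type*} [Fintype κ] [Fintype ι] [Inhabited κ] [Inhabited ι]

noncomputable def F30_0 (E : Env κ ι) : (Fin 3 → κ) → (Fin 5 → ι) → ℝ := op2 (P2 κ) (P7 ι) (fB E 3 5 m30_0)

noncomputable def F30_1 (E : Env κ ι) : (Fin 3 → κ) → (Fin 5 → ι) → ℝ := op2 (P2 κ) (P7 ι) (fB E 3 5 m30_1)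

noncomputable def F30_2 (E : Env κ ι) : (Fin 3 → κ) → (Fin 5 → ι) → ℝ := op2 (P2 κ) (P7 ι) (fB E 3 5 m30_2)

noncomputable def F30_3 (E : Env κ ι) : (Fin 3 → κ) → (Fin 5 → ι) → ℝ := op2 (P2 κ) (P7 ι) (fB E 3 5 m30_3)

def r30_0_0 : List (ℕ × ℤ) := [(2, 192), (4, 360), (7, -720), (9, -120), (11, 576), (12, 384), (13, -168), (14, -192), (15, 456), (16, 96), (18, 264), (19, -672), (20, 216), (21, 144), (22, 384), (23, 48), (24, -216), (25, -144), (26, 144), (27, -528), (28, -96), (29, -72), (33, -144), (34, -96), (35, -216), (38, 216), (39, -312), (40, 192), (41, 720), (42, -336), (44, -360)]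

theorem h30_0_0 (E : Env κ ι) : ip (F30_0 E) (F30_0 E) = dotS (ek E lk30) r30_0_0 :=
  op_entryZ E lk30 3 5 _ _ _ _ (pg2 κ) (pg7 ι) m30_0 m30_0 l30_0 z30_0 w30_0 x30_0 (by decide) _ (chkS_sound E lk30 3 5 _ _ _ _ t30_0_0)

def r30_0_1 : List (ℕ × ℤ) := [(2, 192), (11, 96), (12, -96), (13, 192), (14, -192), (15, 576), (16, 1056), (18, -96), (19, -1632), (20, 96), (21, -96), (22, 864), (23, 288), (24, -96), (25, 96), (26, -96), (27, -288), (28, -576), (29, 288), (33, 96), (34, -96), (35, -96), (38, 96), (39, -672), (40, 672), (42, -576), (44, 0)]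

theorem h30_0_1 (E : Env κ ι) : ip (F30_0 E) (F30_1 E) = dotS (ek E lk30) r30_0_1 :=
  op_entryZ E lk30 3 5 _ _ _ _ (pg2 κ) (pg7 ι) m30_0 m30_1 l30_1 z30_1 w30_1 x30_1 (by decide) _ (chkS_sound E lk30 3 5 _ _ _ _ t30_0_1)

def r30_0_2 : List (ℕ × ℤ) := [(2, 24), (5, 360), (7, -360), (9, -240), (11, 72), (12, 48), (13, 24), (14, -24), (15, 192), (16, 192), (18, 168), (19, -624), (20, 72), (21, -72), (22, 408), (23, 96), (24, -72), (25, 72), (26, -72), (27, -336), (28, -192), (29, 216), (33, 72), (34, -192), (35, -72), (38, 72), (39, 96), (40, 384), (42, -312), (44, 0)]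

theorem h30_0_2 (E : Env κ ι) : ip (F30_0 E) (F30_2 E) = dotS (ek E lk30) r30_0_2 :=
  op_entryZ E lk30 3 5 _ _ _ _ (pg2 κ) (pg7 ι) m30_0 m30_2 l30_2 z30_2 w30_2 x30_2 (by decide) _ (chkS_sound E lk30 3 5 _ _ _ _ t30_0_2)

def r30_0_3 : List (ℕ × ℤ) := [(2, 120), (3, 240), (5, -360), (6, 360), (10, -120), (11, 360), (13, -240), (29, -360), (30, 240), (31, -120), (36, -360), (41, 360), (43, -120)]

theorem h30_0_3 (E : Env κ ι) : ip (F30_0 E) (F30_3 E) = dotS (ek E lk30) r30_0_3 :=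
  op_entryZ E lk30 3 5 _ _ _ _ (pg2 κ) (pg7 ι) m30_0 m30_3 l30_3 z30_3 w30_3 x30_3 (by decide) _ (chkS_sound E lk30 3 5 _ _ _ _ t30_0_3)

def r30_1_1 : List (ℕ × ℤ) := [(2, 1152), (11, 1536), (12, -1536), (13, 1152), (14, -1152), (15, -384), (16, 1536), (18, -576), (19, -1152), (20, 576), (21, -576), (22, 384), (23, 768), (24, 384), (25, 576), (26, 384), (27, -768), (28, -1536), (29, 768), (33, -384), (34, -576), (35, -576), (38, -384), (39, 768), (40, -768), (42, 384)]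

theorem h30_1_1 (E : Env κ ι) : ip (F30_1 E) (F30_1 E) = dotS (ek E lk30) r30_1_1 :=
  op_entryZ E lk30 3 5 _ _ _ _ (pg2 κ) (pg7 ι) m30_1 m30_1 l30_1 z30_1 w30_1 x30_1 (by decide) _ (chkS_sound E lk30 3 5 _ _ _ _ t30_1_1)

def r30_1_2 : List (ℕ × ℤ) := [(2, 384), (11, 192), (12, -192), (13, 384), (14, -384), (15, -288), (16, 672), (18, -192), (19, -384), (20, 192), (21, -192), (22, 288), (23, 576), (24, -192), (25, 192), (26, -192), (27, -576), (28, -1152), (29, 576), (33, 192), (34, -192), (35, -192), (38, 192), (39, 96), (40, -96), (42, 288)]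

theorem h30_1_2 (E : Env κ ι) : ip (F30_1 E) (F30_2 E) = dotS (ek E lk30) r30_1_2 :=
  op_entryZ E lk30 3 5 _ _ _ _ (pg2 κ) (pg7 ι) m30_1 m30_2 l30_2 z30_2 w30_2 x30_2 (by decide) _ (chkS_sound E lk30 3 5 _ _ _ _ t30_1_2)

def r30_1_3 : List (ℕ × ℤ) := [(9, -480), (11, 480), (12, 480), (16, -480), (29, -960), (30, 960), (31, -480), (40, 960), (43, -480)]

theorem h30_1_3 (E : Env κ ι) : ip (F30_1 E) (F30_3 E) = dotS (ek E lk30) r30_1_3 :=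
  op_entryZ E lk30 3 5 _ _ _ _ (pg2 κ) (pg7 ι) m30_1 m30_3 l30_3 z30_3 w30_3 x30_3 (by decide) _ (chkS_sound E lk30 3 5 _ _ _ _ t30_1_3)

def r30_2_2 : List (ℕ × ℤ) := [(2, 48), (9, -120), (11, 144), (12, 96), (13, 48), (14, -48), (15, -336), (16, 384), (18, -24), (19, -168), (20, 144), (21, -144), (22, 96), (23, 192), (24, -144), (25, 144), (26, -144), (27, -672), (28, -384), (29, 432), (33, 144), (34, -24), (35, -144), (38, 144), (39, 192), (40, 48), (42, 96), (44, 0)]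

theorem h30_2_2 (E : Env κ ι) : ip (F30_2 E) (F30_2 E) = dotS (ek E lk30) r30_2_2 :=
  op_entryZ E lk30 3 5 _ _ _ _ (pg2 κ) (pg7 ι) m30_2 m30_2 l30_2 z30_2 w30_2 x30_2 (by decide) _ (chkS_sound E lk30 3 5 _ _ _ _ t30_2_2)

def r30_2_3 : List (ℕ × ℤ) := [(2, -120), (3, 120), (9, -360), (10, 120), (11, 360), (13, -120), (29, -360), (30, 480), (31, -240), (40, 360), (43, -240)]

theorem h30_2_3 (E : Env κ ι) : ip (F30_2 E) (F30_3 E) = dotS (ek E lk30) r30_2_3 :=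
  op_entryZ E lk30 3 5 _ _ _ _ (pg2 κ) (pg7 ι) m30_2 m30_3 l30_3 z30_3 w30_3 x30_3 (by decide) _ (chkS_sound E lk30 3 5 _ _ _ _ t30_2_3)

def r30_3_3 : List (ℕ × ℤ) := [(0, 120), (1, 120), (3, 240), (9, -120), (10, -120), (12, 240), (14, -240), (17, -120), (18, -120), (19, 240), (27, -240), (32, -120), (34, 240), (37, -120)]

theorem h30_3_3 (E : Env κ ι) : ip (F30_3 E) (F30_3 E) = dotS (ek E lk30) r30_3_3 :=
  op_entryZ E lk30 3 5 _ _ _ _ (pg2 κ) (pg7 ι) m30_3 m30_3 l30_3 z30_3 w30_3 x30_3 (by decide) _ (chkS_sound E lk30 3 5 _ _ _ _ t30_3_3)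

theorem row30_0 (E : Env κ ι) : RowG (ek E lk30) (F30_0 E) [F30_0 E, F30_1 E, F30_2 E, F30_3 E] [r30_0_0, r30_0_1, r30_0_2, r30_0_3] :=
  rowG_cons _ _ _ _ _ _ (h30_0_0 E) (rowG_cons _ _ _ _ _ _ (h30_0_1 E) (rowG_cons _ _ _ _ _ _ (h30_0_2 E) (rowG_cons _ _ _ _ _ _ (h30_0_3 E) (rowG_nil _ _))))

theorem row30_1 (E : Env κ ι) : RowG (ek E lk30) (F30_1 E) [F30_1 E, F30_2 E, F30_3 E] [r30_1_1, r30_1_2, r30_1_3] :=
  rowG_cons _ _ _ _ _ _ (h30_1_1 E) (rowG_cons _ _ _ _ _ _ (h30_1_2 E) (rowG_cons _ _ _ _ _ _ (h30_1_3 E) (rowG_nil _ _)))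

theorem row30_2 (E : Env κ ι) : RowG (ek E lk30) (F30_2 E) [F30_2 E, F30_3 E] [r30_2_2, r30_2_3] :=
  rowG_cons _ _ _ _ _ _ (h30_2_2 E) (rowG_cons _ _ _ _ _ _ (h30_2_3 E) (rowG_nil _ _))

theorem row30_3 (E : Env κ ι) : RowG (ek E lk30) (F30_3 E) [F30_3 E] [r30_3_3] :=
  rowG_cons _ _ _ _ _ _ (h30_3_3 E) (rowG_nil _ _)

def tab30 : List (List (List (ℕ × ℤ))) := [[r30_0_0, r30_0_1, r30_0_2, r30_0_3], [r30_1_1, r30_1_2, r30_1_3], [r30_2_2, r30_2_3], [r30_3_3]]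

theorem tri30 (E : Env κ ι) : TriG (ek E lk30) [F30_0 E, F30_1 E, F30_2 E, F30_3 E] tab30 := by
  refine triG_cons _ _ _ _ _ (row30_0 E) ?_
  refine triG_cons _ _ _ _ _ (row30_1 E) ?_
  refine triG_cons _ _ _ _ _ (row30_2 E) ?_
  refine triG_cons _ _ _ _ _ (row30_3 E) ?_
  exact triG_nil _

end

def lk31 : List Key := [
  (3, 7, [(0, [0], [0, 1]), (0, [0], [0, 1]), (0, [1], [2, 3]), (0, [1], [2, 3]), (0, [2], [4, 5]), (0, [2], [4, 6]), (4, [], [6]), (4, [], [5])]),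
  (3, 7, [(0, [0], [0, 1]), (0, [0], [0, 1]), (0, [1], [2, 3]), (0, [2], [2, 4]), (0, [2], [5, 6]), (0, [1], [5, 6]), (4, [], [4]), (4, [], [3])]),
  (3, 7, [(0, [0], [0, 1]), (0, [1], [0, 2]), (0, [0], [2, 3]), (0, [2], [1, 4]), (0, [1], [5, 6]), (0, [2], [5, 6]), (4, [], [3]), (4, [], [4])]),
  (3, 7, [(0, [0], [0, 1]), (0, [1], [0, 2]), (0, [0], [3, 4]), (0, [1], [3, 4]), (0, [2], [1, 5]), (0, [2], [5, 6]), (4, [], [2]), (4, [], [6])]),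
  (3, 7, [(0, [0], [0, 1]), (0, [0], [0, 2]), (0, [1], [1, 2]), (4, [], [3]), (0, [2], [4, 5]), (0, [2], [4, 6]), (0, [1], [5, 6]), (4, [], [3])]),
  (3, 7, [(0, [0], [0, 1]), (0, [0], [0, 2]), (0, [1], [1, 2]), (4, [], [3]), (0, [2], [4, 5]), (0, [2], [4, 6]), (0, [1], [3, 6]), (4, [], [5])]),
  (3, 7, [(0, [0], [0, 1]), (0, [0], [0, 2]), (0, [1], [1, 2]), (4, [], [3]), (0, [2], [4, 5]), (0, [2], [4, 5]), (0, [1], [3, 6]), (4, [], [6])]),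
  (3, 7, [(0, [0], [0, 1]), (0, [0], [0, 2]), (0, [1], [1, 2]), (4, [], [3]), (0, [2], [4, 5]), (0, [2], [3, 6]), (0, [1], [4, 6]), (4, [], [5])]),
  (3, 7, [(0, [0], [0, 1]), (0, [0], [0, 2]), (0, [1], [1, 2]), (4, [], [3]), (0, [2], [4, 5]), (0, [2], [3, 6]), (0, [1], [4, 5]), (4, [], [6])]),
  (3, 7, [(0, [0], [0, 1]), (0, [0], [0, 2]), (0, [1], [3, 2]), (4, [], [1]), (0, [2], [4, 5]), (0, [2], [4, 6]), (0, [1], [3, 6]), (4, [], [5])]),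
  (3, 7, [(0, [0], [0, 1]), (0, [0], [0, 2]), (0, [1], [3, 2]), (4, [], [1]), (0, [2], [4, 5]), (0, [2], [4, 5]), (0, [1], [3, 6]), (4, [], [6])]),
  (3, 7, [(0, [0], [0, 1]), (0, [0], [0, 2]), (0, [1], [3, 2]), (4, [], [1]), (0, [2], [4, 5]), (0, [2], [3, 6]), (0, [1], [4, 6]), (4, [], [5])]),
  (3, 7, [(0, [0], [0, 1]), (0, [0], [0, 2]), (0, [1], [3, 2]), (4, [], [1]), (0, [2], [4, 5]), (0, [2], [3, 4]), (0, [1], [5, 6]), (4, [], [6])]),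
  (3, 7, [(0, [0], [0, 1]), (0, [0], [0, 1]), (0, [1], [2, 3]), (4, [], [3]), (0, [2], [4, 5]), (0, [2], [2, 6]), (0, [1], [4, 6]), (4, [], [5])]),
  (3, 7, [(0, [0], [0, 1]), (0, [0], [0, 1]), (0, [1], [2, 3]), (4, [], [3]), (0, [2], [4, 5]), (0, [2], [2, 4]), (0, [1], [5, 6]), (4, [], [6])]),
  (3, 7, [(0, [0], [0, 1]), (0, [0], [2, 3]), (0, [1], [0, 3]), (4, [], [1]), (0, [2], [4, 5]), (0, [2], [2, 6]), (0, [1], [4, 6]), (4, [], [5])]),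
  (3, 7, [(0, [0], [0, 1]), (0, [0], [2, 3]), (0, [1], [0, 3]), (4, [], [1]), (0, [2], [4, 5]), (0, [2], [2, 4]), (0, [1], [5, 6]), (4, [], [6])]),
  (3, 7, [(0, [0], [0, 1]), (0, [0], [2, 3]), (0, [1], [0, 1]), (4, [], [3]), (0, [2], [4, 5]), (0, [2], [2, 6]), (0, [1], [4, 5]), (4, [], [6])]),
  (3, 7, [(0, [0], [0, 1]), (0, [0], [2, 3]), (0, [1], [0, 1]), (4, [], [3]), (0, [2], [4, 5]), (0, [2], [2, 4]), (0, [1], [5, 6]), (4, [], [6])]),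
  (3, 7, [(0, [0], [0, 1]), (0, [0], [2, 0]), (0, [1], [1, 3]), (4, [], [3]), (0, [2], [4, 5]), (0, [2], [2, 4]), (0, [1], [5, 6]), (4, [], [6])]),
  (3, 7, [(0, [0], [0, 1]), (0, [0], [0, 1]), (0, [1], [2, 3]), (4, [], [4]), (0, [2], [5, 6]), (0, [2], [2, 5]), (0, [1], [3, 6]), (4, [], [4])]),
  (3, 7, [(0, [0], [0, 1]), (0, [0], [0, 1]), (0, [1], [2, 3]), (4, [], [4]), (0, [2], [2, 5]), (0, [2], [3, 6]), (0, [1], [5, 6]), (4, [], [4])]),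
  (3, 7, [(0, [0], [0, 1]), (0, [0], [2, 0]), (0, [1], [3, 1]), (4, [], [4]), (0, [2], [5, 6]), (0, [2], [2, 5]), (0, [1], [3, 6]), (4, [], [4])]),
  (3, 7, [(0, [0], [0, 1]), (0, [0], [2, 0]), (0, [1], [3, 1]), (4, [], [4]), (0, [2], [5, 6]), (0, [2], [3, 5]), (0, [1], [2, 6]), (4, [], [4])]),
  (3, 7, [(0, [0], [0, 1]), (0, [0], [2, 0]), (0, [1], [3, 1]), (4, [], [4]), (0, [2], [5, 6]), (0, [2], [4, 5]), (0, [1], [2, 3]), (4, [], [6])]),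
  (3, 7, [(0, [0], [0, 1]), (0, [0], [2, 0]), (0, [1], [3, 1]), (4, [], [4]), (0, [2], [5, 6]), (0, [2], [2, 3]), (0, [1], [5, 6]), (4, [], [4])]),
  (3, 7, [(0, [0], [0, 1]), (0, [0], [2, 0]), (0, [1], [3, 1]), (4, [], [4]), (0, [2], [5, 6]), (0, [2], [2, 3]), (0, [1], [4, 5]), (4, [], [6])]),
  (3, 7, [(0, [0], [0, 1]), (0, [0], [2, 0]), (0, [1], [3, 1]), (4, [], [4]), (0, [2], [5, 6]), (0, [2], [3, 4]), (0, [1], [2, 5]), (4, [], [6])]),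
  (3, 7, [(0, [0], [0, 1]), (0, [0], [2, 0]), (0, [1], [3, 1]), (4, [], [4]), (0, [2], [2, 5]), (0, [2], [3, 6]), (0, [1], [5, 6]), (4, [], [4])]),
  (3, 7, [(0, [0], [0, 1]), (0, [0], [2, 0]), (0, [1], [3, 1]), (4, [], [4]), (0, [2], [3, 5]), (0, [2], [2, 6]), (0, [1], [4, 6]), (4, [], [5])]),
  (3, 7, [(0, [0], [0, 1]), (0, [0], [2, 0]), (0, [1], [3, 1]), (4, [], [4]), (0, [2], [4, 5]), (0, [2], [2, 6]), (0, [1], [3, 6]), (4, [], [5])]),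
  (3, 7, [(0, [0], [0, 1]), (0, [0], [2, 0]), (0, [1], [3, 1]), (4, [], [4]), (0, [2], [4, 5]), (0, [2], [3, 6]), (0, [1], [2, 6]), (4, [], [5])]),
  (3, 7, [(0, [0], [0, 1]), (0, [0], [2, 0]), (0, [1], [3, 4]), (4, [], [1]), (0, [2], [5, 6]), (0, [2], [3, 4]), (0, [1], [5, 6]), (4, [], [2])]),
  (3, 7, [(0, [0], [0, 1]), (0, [0], [2, 0]), (0, [1], [3, 4]), (4, [], [1]), (0, [2], [3, 5]), (0, [2], [4, 6]), (0, [1], [5, 6]), (4, [], [2])]),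
  (3, 7, [(0, [0], [0, 1]), (0, [0], [2, 3]), (0, [1], [0, 1]), (4, [], [4]), (0, [2], [5, 6]), (0, [2], [2, 4]), (0, [1], [3, 5]), (4, [], [6])]),
  (3, 7, [(0, [0], [0, 1]), (0, [0], [2, 3]), (0, [1], [0, 1]), (4, [], [4]), (0, [2], [2, 5]), (0, [2], [3, 6]), (0, [1], [5, 6]), (4, [], [4])]),
  (3, 7, [(0, [0], [0, 1]), (0, [0], [2, 3]), (0, [1], [0, 1]), (4, [], [4]), (0, [2], [4, 5]), (0, [2], [2, 6]), (0, [1], [3, 6]), (4, [], [5])]),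
  (3, 7, [(0, [0], [0, 1]), (0, [0], [2, 3]), (0, [1], [4, 0]), (4, [], [1]), (0, [2], [5, 6]), (0, [2], [2, 4]), (0, [1], [3, 5]), (4, [], [6])]),
  (3, 7, [(0, [0], [0, 1]), (0, [0], [2, 3]), (0, [1], [4, 0]), (4, [], [1]), (0, [2], [2, 5]), (0, [2], [3, 6]), (0, [1], [5, 6]), (4, [], [4])]),
  (3, 7, [(0, [0], [0, 1]), (0, [0], [2, 3]), (0, [1], [4, 0]), (4, [], [1]), (0, [2], [2, 5]), (0, [2], [4, 6]), (0, [1], [5, 6]), (4, [], [3])]),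
  (3, 7, [(0, [0], [0, 1]), (0, [0], [2, 3]), (0, [1], [4, 0]), (4, [], [1]), (0, [2], [2, 5]), (0, [2], [4, 6]), (0, [1], [3, 6]), (4, [], [5])]),
  (3, 7, [(0, [0], [0, 1]), (0, [0], [2, 3]), (0, [1], [4, 0]), (4, [], [1]), (0, [2], [4, 5]), (0, [2], [2, 6]), (0, [1], [3, 6]), (4, [], [5])]),
  (3, 7, [(0, [0], [0, 1]), (0, [0], [2, 3]), (0, [1], [1, 3]), (4, [], [4]), (0, [2], [0, 5]), (0, [2], [2, 6]), (0, [1], [5, 6]), (4, [], [4])]),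
  (3, 7, [(0, [0], [0, 1]), (0, [0], [2, 3]), (0, [1], [1, 3]), (4, [], [4]), (0, [2], [4, 5]), (0, [2], [0, 6]), (0, [1], [2, 6]), (4, [], [5])]),
  (3, 7, [(0, [0], [0, 1]), (0, [0], [2, 3]), (0, [1], [4, 1]), (4, [], [5]), (0, [2], [2, 6]), (0, [2], [0, 4]), (0, [1], [3, 6]), (4, [], [5])])]

def kl31 : List ℕ := [13, 14, 57, 58, 94, 95, 96, 97, 98, 109, 110, 111, 112, 119, 120, 125, 126, 132, 133, 144, 204, 206, 216, 217, 218, 219, 220, 221, 222, 223, 224, 225, 252, 253, 267, 268, 269, 284, 285, 286, 287, 288, 302, 303, 430]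

def m31_0 : Base := (0, 1, [(0, [0], [0, 5]), (0, [1], [1, 5]), (0, [2], [2, 3]), (4, [], [4])])

def l31_0 : Cov := [(216, 0, 1, [(0, [0], [0, 5]), (0, [1], [1, 5]), (0, [2], [2, 3]), (4, [], [4])]),
  (-216, 0, 1, [(0, [0], [0, 5]), (0, [1], [1, 5]), (0, [2], [2, 4]), (4, [], [3])]),
  (216, 0, 1, [(0, [0], [0, 5]), (0, [1], [2, 5]), (0, [2], [1, 3]), (4, [], [4])]),
  (-216, 0, 1, [(0, [0], [0, 5]), (0, [1], [2, 5]), (0, [2], [1, 4]), (4, [], [3])]),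
  (288, 0, 1, [(0, [0], [0, 5]), (0, [1], [3, 5]), (0, [2], [1, 2]), (4, [], [4])]),
  (-144, 0, 1, [(0, [0], [0, 5]), (0, [1], [3, 5]), (0, [2], [1, 4]), (4, [], [2])]),
  (-144, 0, 1, [(0, [0], [0, 5]), (0, [1], [3, 5]), (0, [2], [2, 4]), (4, [], [1])]),
  (-288, 0, 1, [(0, [0], [0, 5]), (0, [1], [4, 5]), (0, [2], [1, 2]), (4, [], [3])]),
  (144, 0, 1, [(0, [0], [0, 5]), (0, [1], [4, 5]), (0, [2], [1, 3]), (4, [], [2])]),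
  (144, 0, 1, [(0, [0], [0, 5]), (0, [1], [4, 5]), (0, [2], [2, 3]), (4, [], [1])]),
  (-216, 0, 1, [(0, [0], [1, 5]), (0, [1], [0, 5]), (0, [2], [2, 3]), (4, [], [4])]),
  (216, 0, 1, [(0, [0], [1, 5]), (0, [1], [0, 5]), (0, [2], [2, 4]), (4, [], [3])]),
  (216, 0, 1, [(0, [0], [1, 5]), (0, [1], [3, 5]), (0, [2], [2, 0]), (4, [], [4])]),
  (-216, 0, 1, [(0, [0], [1, 5]), (0, [1], [3, 5]), (0, [2], [2, 4]), (4, [], [0])]),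
  (-216, 0, 1, [(0, [0], [1, 5]), (0, [1], [4, 5]), (0, [2], [2, 0]), (4, [], [3])]),
  (216, 0, 1, [(0, [0], [1, 5]), (0, [1], [4, 5]), (0, [2], [2, 3]), (4, [], [0])]),
  (-216, 0, 1, [(0, [0], [2, 5]), (0, [1], [0, 5]), (0, [2], [1, 3]), (4, [], [4])]),
  (216, 0, 1, [(0, [0], [2, 5]), (0, [1], [0, 5]), (0, [2], [1, 4]), (4, [], [3])]),
  (216, 0, 1, [(0, [0], [2, 5]), (0, [1], [3, 5]), (0, [2], [1, 0]), (4, [], [4])]),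
  (-216, 0, 1, [(0, [0], [2, 5]), (0, [1], [3, 5]), (0, [2], [1, 4]), (4, [], [0])]),
  (-216, 0, 1, [(0, [0], [2, 5]), (0, [1], [4, 5]), (0, [2], [1, 0]), (4, [], [3])]),
  (216, 0, 1, [(0, [0], [2, 5]), (0, [1], [4, 5]), (0, [2], [1, 3]), (4, [], [0])]),
  (-288, 0, 1, [(0, [0], [3, 5]), (0, [1], [0, 5]), (0, [2], [1, 2]), (4, [], [4])]),
  (144, 0, 1, [(0, [0], [3, 5]), (0, [1], [0, 5]), (0, [2], [1, 4]), (4, [], [2])]),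
  (144, 0, 1, [(0, [0], [3, 5]), (0, [1], [0, 5]), (0, [2], [2, 4]), (4, [], [1])]),
  (-216, 0, 1, [(0, [0], [3, 5]), (0, [1], [1, 5]), (0, [2], [0, 2]), (4, [], [4])]),
  (216, 0, 1, [(0, [0], [3, 5]), (0, [1], [1, 5]), (0, [2], [2, 4]), (4, [], [0])]),
  (-216, 0, 1, [(0, [0], [3, 5]), (0, [1], [2, 5]), (0, [2], [0, 1]), (4, [], [4])]),
  (216, 0, 1, [(0, [0], [3, 5]), (0, [1], [2, 5]), (0, [2], [1, 4]), (4, [], [0])]),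
  (-144, 0, 1, [(0, [0], [3, 5]), (0, [1], [4, 5]), (0, [2], [1, 0]), (4, [], [2])]),
  (288, 0, 1, [(0, [0], [3, 5]), (0, [1], [4, 5]), (0, [2], [1, 2]), (4, [], [0])]),
  (-144, 0, 1, [(0, [0], [3, 5]), (0, [1], [4, 5]), (0, [2], [2, 0]), (4, [], [1])]),
  (288, 0, 1, [(0, [0], [4, 5]), (0, [1], [0, 5]), (0, [2], [1, 2]), (4, [], [3])]),
  (-144, 0, 1, [(0, [0], [4, 5]), (0, [1], [0, 5]), (0, [2], [1, 3]), (4, [], [2])]),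
  (-144, 0, 1, [(0, [0], [4, 5]), (0, [1], [0, 5]), (0, [2], [2, 3]), (4, [], [1])]),
  (216, 0, 1, [(0, [0], [4, 5]), (0, [1], [1, 5]), (0, [2], [0, 2]), (4, [], [3])]),
  (-216, 0, 1, [(0, [0], [4, 5]), (0, [1], [1, 5]), (0, [2], [2, 3]), (4, [], [0])]),
  (216, 0, 1, [(0, [0], [4, 5]), (0, [1], [2, 5]), (0, [2], [0, 1]), (4, [], [3])]),
  (-216, 0, 1, [(0, [0], [4, 5]), (0, [1], [2, 5]), (0, [2], [1, 3]), (4, [], [0])]),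
  (144, 0, 1, [(0, [0], [4, 5]), (0, [1], [3, 5]), (0, [2], [1, 0]), (4, [], [2])]),
  (-288, 0, 1, [(0, [0], [4, 5]), (0, [1], [3, 5]), (0, [2], [1, 2]), (4, [], [0])]),
  (144, 0, 1, [(0, [0], [4, 5]), (0, [1], [3, 5]), (0, [2], [2, 0]), (4, [], [1])]),
  (-216, 0, 1, [(0, [0], [0, 5]), (0, [2], [1, 5]), (0, [1], [2, 3]), (4, [], [4])]),
  (216, 0, 1, [(0, [0], [0, 5]), (0, [2], [1, 5]), (0, [1], [2, 4]), (4, [], [3])]),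
  (-216, 0, 1, [(0, [0], [0, 5]), (0, [2], [2, 5]), (0, [1], [1, 3]), (4, [], [4])]),
  (216, 0, 1, [(0, [0], [0, 5]), (0, [2], [2, 5]), (0, [1], [1, 4]), (4, [], [3])]),
  (-288, 0, 1, [(0, [0], [0, 5]), (0, [2], [3, 5]), (0, [1], [1, 2]), (4, [], [4])]),
  (144, 0, 1, [(0, [0], [0, 5]), (0, [2], [3, 5]), (0, [1], [1, 4]), (4, [], [2])]),
  (144, 0, 1, [(0, [0], [0, 5]), (0, [2], [3, 5]), (0, [1], [2, 4]), (4, [], [1])]),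
  (288, 0, 1, [(0, [0], [0, 5]), (0, [2], [4, 5]), (0, [1], [1, 2]), (4, [], [3])]),
  (-144, 0, 1, [(0, [0], [0, 5]), (0, [2], [4, 5]), (0, [1], [1, 3]), (4, [], [2])]),
  (-144, 0, 1, [(0, [0], [0, 5]), (0, [2], [4, 5]), (0, [1], [2, 3]), (4, [], [1])]),
  (216, 0, 1, [(0, [0], [1, 5]), (0, [2], [0, 5]), (0, [1], [2, 3]), (4, [], [4])]),
  (-216, 0, 1, [(0, [0], [1, 5]), (0, [2], [0, 5]), (0, [1], [2, 4]), (4, [], [3])]),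
  (-216, 0, 1, [(0, [0], [1, 5]), (0, [2], [3, 5]), (0, [1], [2, 0]), (4, [], [4])]),
  (216, 0, 1, [(0, [0], [1, 5]), (0, [2], [3, 5]), (0, [1], [2, 4]), (4, [], [0])]),
  (216, 0, 1, [(0, [0], [1, 5]), (0, [2], [4, 5]), (0, [1], [2, 0]), (4, [], [3])]),
  (-216, 0, 1, [(0, [0], [1, 5]), (0, [2], [4, 5]), (0, [1], [2, 3]), (4, [], [0])]),
  (216, 0, 1, [(0, [0], [2, 5]), (0, [2], [0, 5]), (0, [1], [1, 3]), (4, [], [4])]),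
  (-216, 0, 1, [(0, [0], [2, 5]), (0, [2], [0, 5]), (0, [1], [1, 4]), (4, [], [3])]),
  (-216, 0, 1, [(0, [0], [2, 5]), (0, [2], [3, 5]), (0, [1], [1, 0]), (4, [], [4])]),
  (216, 0, 1, [(0, [0], [2, 5]), (0, [2], [3, 5]), (0, [1], [1, 4]), (4, [], [0])]),
  (216, 0, 1, [(0, [0], [2, 5]), (0, [2], [4, 5]), (0, [1], [1, 0]), (4, [], [3])]),
  (-216, 0, 1, [(0, [0], [2, 5]), (0, [2], [4, 5]), (0, [1], [1, 3]), (4, [], [0])]),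
  (288, 0, 1, [(0, [0], [3, 5]), (0, [2], [0, 5]), (0, [1], [1, 2]), (4, [], [4])]),
  (-144, 0, 1, [(0, [0], [3, 5]), (0, [2], [0, 5]), (0, [1], [1, 4]), (4, [], [2])]),
  (-144, 0, 1, [(0, [0], [3, 5]), (0, [2], [0, 5]), (0, [1], [2, 4]), (4, [], [1])]),
  (216, 0, 1, [(0, [0], [3, 5]), (0, [2], [1, 5]), (0, [1], [0, 2]), (4, [], [4])]),
  (-216, 0, 1, [(0, [0], [3, 5]), (0, [2], [1, 5]), (0, [1], [2, 4]), (4, [], [0])]),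
  (216, 0, 1, [(0, [0], [3, 5]), (0, [2], [2, 5]), (0, [1], [0, 1]), (4, [], [4])]),
  (-216, 0, 1, [(0, [0], [3, 5]), (0, [2], [2, 5]), (0, [1], [1, 4]), (4, [], [0])]),
  (144, 0, 1, [(0, [0], [3, 5]), (0, [2], [4, 5]), (0, [1], [1, 0]), (4, [], [2])]),
  (-288, 0, 1, [(0, [0], [3, 5]), (0, [2], [4, 5]), (0, [1], [1, 2]), (4, [], [0])]),
  (144, 0, 1, [(0, [0], [3, 5]), (0, [2], [4, 5]), (0, [1], [2, 0]), (4, [], [1])]),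
  (-288, 0, 1, [(0, [0], [4, 5]), (0, [2], [0, 5]), (0, [1], [1, 2]), (4, [], [3])]),
  (144, 0, 1, [(0, [0], [4, 5]), (0, [2], [0, 5]), (0, [1], [1, 3]), (4, [], [2])]),
  (144, 0, 1, [(0, [0], [4, 5]), (0, [2], [0, 5]), (0, [1], [2, 3]), (4, [], [1])]),
  (-216, 0, 1, [(0, [0], [4, 5]), (0, [2], [1, 5]), (0, [1], [0, 2]), (4, [], [3])]),
  (216, 0, 1, [(0, [0], [4, 5]), (0, [2], [1, 5]), (0, [1], [2, 3]), (4, [], [0])]),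
  (-216, 0, 1, [(0, [0], [4, 5]), (0, [2], [2, 5]), (0, [1], [0, 1]), (4, [], [3])]),
  (216, 0, 1, [(0, [0], [4, 5]), (0, [2], [2, 5]), (0, [1], [1, 3]), (4, [], [0])]),
  (-144, 0, 1, [(0, [0], [4, 5]), (0, [2], [3, 5]), (0, [1], [1, 0]), (4, [], [2])]),
  (288, 0, 1, [(0, [0], [4, 5]), (0, [2], [3, 5]), (0, [1], [1, 2]), (4, [], [0])]),
  (-144, 0, 1, [(0, [0], [4, 5]), (0, [2], [3, 5]), (0, [1], [2, 0]), (4, [], [1])]),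
  (216, 0, 1, [(0, [1], [0, 5]), (0, [2], [1, 5]), (0, [0], [2, 3]), (4, [], [4])]),
  (-216, 0, 1, [(0, [1], [0, 5]), (0, [2], [1, 5]), (0, [0], [2, 4]), (4, [], [3])]),
  (216, 0, 1, [(0, [1], [0, 5]), (0, [2], [2, 5]), (0, [0], [1, 3]), (4, [], [4])]),
  (-216, 0, 1, [(0, [1], [0, 5]), (0, [2], [2, 5]), (0, [0], [1, 4]), (4, [], [3])]),
  (288, 0, 1, [(0, [1], [0, 5]), (0, [2], [3, 5]), (0, [0], [1, 2]), (4, [], [4])]),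
  (-144, 0, 1, [(0, [1], [0, 5]), (0, [2], [3, 5]), (0, [0], [1, 4]), (4, [], [2])]),
  (-144, 0, 1, [(0, [1], [0, 5]), (0, [2], [3, 5]), (0, [0], [2, 4]), (4, [], [1])]),
  (-288, 0, 1, [(0, [1], [0, 5]), (0, [2], [4, 5]), (0, [0], [1, 2]), (4, [], [3])]),
  (144, 0, 1, [(0, [1], [0, 5]), (0, [2], [4, 5]), (0, [0], [1, 3]), (4, [], [2])]),
  (144, 0, 1, [(0, [1], [0, 5]), (0, [2], [4, 5]), (0, [0], [2, 3]), (4, [], [1])]),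
  (-216, 0, 1, [(0, [1], [1, 5]), (0, [2], [0, 5]), (0, [0], [2, 3]), (4, [], [4])]),
  (216, 0, 1, [(0, [1], [1, 5]), (0, [2], [0, 5]), (0, [0], [2, 4]), (4, [], [3])]),
  (216, 0, 1, [(0, [1], [1, 5]), (0, [2], [3, 5]), (0, [0], [2, 0]), (4, [], [4])]),
  (-216, 0, 1, [(0, [1], [1, 5]), (0, [2], [3, 5]), (0, [0], [2, 4]), (4, [], [0])]),
  (-216, 0, 1, [(0, [1], [1, 5]), (0, [2], [4, 5]), (0, [0], [2, 0]), (4, [], [3])]),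
  (216, 0, 1, [(0, [1], [1, 5]), (0, [2], [4, 5]), (0, [0], [2, 3]), (4, [], [0])]),
  (-216, 0, 1, [(0, [1], [2, 5]), (0, [2], [0, 5]), (0, [0], [1, 3]), (4, [], [4])]),
  (216, 0, 1, [(0, [1], [2, 5]), (0, [2], [0, 5]), (0, [0], [1, 4]), (4, [], [3])]),
  (216, 0, 1, [(0, [1], [2, 5]), (0, [2], [3, 5]), (0, [0], [1, 0]), (4, [], [4])]),
  (-216, 0, 1, [(0, [1], [2, 5]), (0, [2], [3, 5]), (0, [0], [1, 4]), (4, [], [0])]),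
  (-216, 0, 1, [(0, [1], [2, 5]), (0, [2], [4, 5]), (0, [0], [1, 0]), (4, [], [3])]),
  (216, 0, 1, [(0, [1], [2, 5]), (0, [2], [4, 5]), (0, [0], [1, 3]), (4, [], [0])]),
  (-288, 0, 1, [(0, [1], [3, 5]), (0, [2], [0, 5]), (0, [0], [1, 2]), (4, [], [4])]),
  (144, 0, 1, [(0, [1], [3, 5]), (0, [2], [0, 5]), (0, [0], [1, 4]), (4, [], [2])]),
  (144, 0, 1, [(0, [1], [3, 5]), (0, [2], [0, 5]), (0, [0], [2, 4]), (4, [], [1])]),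
  (-216, 0, 1, [(0, [1], [3, 5]), (0, [2], [1, 5]), (0, [0], [0, 2]), (4, [], [4])]),
  (216, 0, 1, [(0, [1], [3, 5]), (0, [2], [1, 5]), (0, [0], [2, 4]), (4, [], [0])]),
  (-216, 0, 1, [(0, [1], [3, 5]), (0, [2], [2, 5]), (0, [0], [0, 1]), (4, [], [4])]),
  (216, 0, 1, [(0, [1], [3, 5]), (0, [2], [2, 5]), (0, [0], [1, 4]), (4, [], [0])]),
  (-144, 0, 1, [(0, [1], [3, 5]), (0, [2], [4, 5]), (0, [0], [1, 0]), (4, [], [2])]),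
  (288, 0, 1, [(0, [1], [3, 5]), (0, [2], [4, 5]), (0, [0], [1, 2]), (4, [], [0])]),
  (-144, 0, 1, [(0, [1], [3, 5]), (0, [2], [4, 5]), (0, [0], [2, 0]), (4, [], [1])]),
  (288, 0, 1, [(0, [1], [4, 5]), (0, [2], [0, 5]), (0, [0], [1, 2]), (4, [], [3])]),
  (-144, 0, 1, [(0, [1], [4, 5]), (0, [2], [0, 5]), (0, [0], [1, 3]), (4, [], [2])]),
  (-144, 0, 1, [(0, [1], [4, 5]), (0, [2], [0, 5]), (0, [0], [2, 3]), (4, [], [1])]),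
  (216, 0, 1, [(0, [1], [4, 5]), (0, [2], [1, 5]), (0, [0], [0, 2]), (4, [], [3])]),
  (-216, 0, 1, [(0, [1], [4, 5]), (0, [2], [1, 5]), (0, [0], [2, 3]), (4, [], [0])]),
  (216, 0, 1, [(0, [1], [4, 5]), (0, [2], [2, 5]), (0, [0], [0, 1]), (4, [], [3])]),
  (-216, 0, 1, [(0, [1], [4, 5]), (0, [2], [2, 5]), (0, [0], [1, 3]), (4, [], [0])]),
  (144, 0, 1, [(0, [1], [4, 5]), (0, [2], [3, 5]), (0, [0], [1, 0]), (4, [], [2])]),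
  (-288, 0, 1, [(0, [1], [4, 5]), (0, [2], [3, 5]), (0, [0], [1, 2]), (4, [], [0])]),
  (144, 0, 1, [(0, [1], [4, 5]), (0, [2], [3, 5]), (0, [0], [2, 0]), (4, [], [1])])]

def z31_0 : Cov := [(0, 0, 1, [(0, [0], [0, 5]), (0, [1], [1, 5]), (0, [2], [3, 4]), (4, [], [2])]),
  (0, 0, 1, [(0, [0], [0, 5]), (0, [1], [2, 5]), (0, [2], [3, 4]), (4, [], [1])]),
  (0, 0, 1, [(0, [0], [1, 5]), (0, [1], [2, 5]), (0, [2], [0, 3]), (4, [], [4])]),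
  (0, 0, 1, [(0, [0], [1, 5]), (0, [1], [2, 5]), (0, [2], [0, 4]), (4, [], [3])]),
  (0, 0, 1, [(0, [0], [1, 5]), (0, [1], [2, 5]), (0, [2], [3, 4]), (4, [], [0])]),
  (0, 0, 1, [(0, [0], [2, 5]), (0, [1], [1, 5]), (0, [2], [0, 3]), (4, [], [4])]),
  (0, 0, 1, [(0, [0], [2, 5]), (0, [1], [1, 5]), (0, [2], [0, 4]), (4, [], [3])]),
  (0, 0, 1, [(0, [0], [2, 5]), (0, [1], [1, 5]), (0, [2], [3, 4]), (4, [], [0])]),
  (0, 0, 1, [(0, [0], [3, 5]), (0, [1], [1, 5]), (0, [2], [0, 4]), (4, [], [2])]),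
  (0, 0, 1, [(0, [0], [3, 5]), (0, [1], [2, 5]), (0, [2], [0, 4]), (4, [], [1])]),
  (0, 0, 1, [(0, [0], [4, 5]), (0, [1], [1, 5]), (0, [2], [0, 3]), (4, [], [2])]),
  (0, 0, 1, [(0, [0], [4, 5]), (0, [1], [2, 5]), (0, [2], [0, 3]), (4, [], [1])]),
  (0, 0, 1, [(0, [0], [0, 5]), (0, [2], [1, 5]), (0, [1], [3, 4]), (4, [], [2])]),
  (0, 0, 1, [(0, [0], [0, 5]), (0, [2], [2, 5]), (0, [1], [3, 4]), (4, [], [1])]),
  (0, 0, 1, [(0, [0], [1, 5]), (0, [2], [2, 5]), (0, [1], [0, 3]), (4, [], [4])]),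
  (0, 0, 1, [(0, [0], [1, 5]), (0, [2], [2, 5]), (0, [1], [0, 4]), (4, [], [3])]),
  (0, 0, 1, [(0, [0], [1, 5]), (0, [2], [2, 5]), (0, [1], [3, 4]), (4, [], [0])]),
  (0, 0, 1, [(0, [0], [2, 5]), (0, [2], [1, 5]), (0, [1], [0, 3]), (4, [], [4])]),
  (0, 0, 1, [(0, [0], [2, 5]), (0, [2], [1, 5]), (0, [1], [0, 4]), (4, [], [3])]),
  (0, 0, 1, [(0, [0], [2, 5]), (0, [2], [1, 5]), (0, [1], [3, 4]), (4, [], [0])]),
  (0, 0, 1, [(0, [0], [3, 5]), (0, [2], [1, 5]), (0, [1], [0, 4]), (4, [], [2])]),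
  (0, 0, 1, [(0, [0], [3, 5]), (0, [2], [2, 5]), (0, [1], [0, 4]), (4, [], [1])]),
  (0, 0, 1, [(0, [0], [4, 5]), (0, [2], [1, 5]), (0, [1], [0, 3]), (4, [], [2])]),
  (0, 0, 1, [(0, [0], [4, 5]), (0, [2], [2, 5]), (0, [1], [0, 3]), (4, [], [1])]),
  (0, 0, 1, [(0, [1], [0, 5]), (0, [0], [1, 5]), (0, [2], [3, 4]), (4, [], [2])]),
  (0, 0, 1, [(0, [1], [0, 5]), (0, [0], [2, 5]), (0, [2], [3, 4]), (4, [], [1])]),
  (0, 0, 1, [(0, [1], [3, 5]), (0, [0], [1, 5]), (0, [2], [0, 4]), (4, [], [2])]),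
  (0, 0, 1, [(0, [1], [3, 5]), (0, [0], [2, 5]), (0, [2], [0, 4]), (4, [], [1])]),
  (0, 0, 1, [(0, [1], [4, 5]), (0, [0], [1, 5]), (0, [2], [0, 3]), (4, [], [2])]),
  (0, 0, 1, [(0, [1], [4, 5]), (0, [0], [2, 5]), (0, [2], [0, 3]), (4, [], [1])]),
  (0, 0, 1, [(0, [1], [0, 5]), (0, [2], [1, 5]), (0, [0], [3, 4]), (4, [], [2])]),
  (0, 0, 1, [(0, [1], [0, 5]), (0, [2], [2, 5]), (0, [0], [3, 4]), (4, [], [1])]),
  (0, 0, 1, [(0, [1], [1, 5]), (0, [2], [2, 5]), (0, [0], [0, 3]), (4, [], [4])]),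
  (0, 0, 1, [(0, [1], [1, 5]), (0, [2], [2, 5]), (0, [0], [0, 4]), (4, [], [3])]),
  (0, 0, 1, [(0, [1], [1, 5]), (0, [2], [2, 5]), (0, [0], [3, 4]), (4, [], [0])]),
  (0, 0, 1, [(0, [1], [2, 5]), (0, [2], [1, 5]), (0, [0], [0, 3]), (4, [], [4])]),
  (0, 0, 1, [(0, [1], [2, 5]), (0, [2], [1, 5]), (0, [0], [0, 4]), (4, [], [3])]),
  (0, 0, 1, [(0, [1], [2, 5]), (0, [2], [1, 5]), (0, [0], [3, 4]), (4, [], [0])]),
  (0, 0, 1, [(0, [1], [3, 5]), (0, [2], [1, 5]), (0, [0], [0, 4]), (4, [], [2])]),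
  (0, 0, 1, [(0, [1], [3, 5]), (0, [2], [2, 5]), (0, [0], [0, 4]), (4, [], [1])]),
  (0, 0, 1, [(0, [1], [4, 5]), (0, [2], [1, 5]), (0, [0], [0, 3]), (4, [], [2])]),
  (0, 0, 1, [(0, [1], [4, 5]), (0, [2], [2, 5]), (0, [0], [0, 3]), (4, [], [1])]),
  (0, 0, 1, [(0, [2], [0, 5]), (0, [0], [1, 5]), (0, [1], [3, 4]), (4, [], [2])]),
  (0, 0, 1, [(0, [2], [0, 5]), (0, [0], [2, 5]), (0, [1], [3, 4]), (4, [], [1])]),
  (0, 0, 1, [(0, [2], [3, 5]), (0, [0], [1, 5]), (0, [1], [0, 4]), (4, [], [2])]),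
  (0, 0, 1, [(0, [2], [3, 5]), (0, [0], [2, 5]), (0, [1], [0, 4]), (4, [], [1])]),
  (0, 0, 1, [(0, [2], [4, 5]), (0, [0], [1, 5]), (0, [1], [0, 3]), (4, [], [2])]),
  (0, 0, 1, [(0, [2], [4, 5]), (0, [0], [2, 5]), (0, [1], [0, 3]), (4, [], [1])]),
  (0, 0, 1, [(0, [2], [0, 5]), (0, [1], [1, 5]), (0, [0], [3, 4]), (4, [], [2])]),
  (0, 0, 1, [(0, [2], [0, 5]), (0, [1], [2, 5]), (0, [0], [3, 4]), (4, [], [1])]),
  (0, 0, 1, [(0, [2], [3, 5]), (0, [1], [1, 5]), (0, [0], [0, 4]), (4, [], [2])]),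
  (0, 0, 1, [(0, [2], [3, 5]), (0, [1], [2, 5]), (0, [0], [0, 4]), (4, [], [1])]),
  (0, 0, 1, [(0, [2], [4, 5]), (0, [1], [1, 5]), (0, [0], [0, 3]), (4, [], [2])]),
  (0, 0, 1, [(0, [2], [4, 5]), (0, [1], [2, 5]), (0, [0], [0, 3]), (4, [], [1])])]

def w31_0 : List (List Wit) := [[(0, 0, 0, 0, 0), (1, 0, 0, 0, 0), (0, 0, 0, 0, 0), (126, 0, 0, 0, 0), (1, 0, 0, 0, 0), (126, 0, 0, 0, 0), (2, 0, 0, 0, 0), (3, 0, 0, 0, 0), (2, 0, 0, 0, 0), (127, 0, 0, 0, 0), (3, 0, 0, 0, 0), (127, 0, 0, 0, 0), (4, 0, 0, 0, 0), (5, 0, 0, 0, 0), (4, 0, 0, 0, 0), (6, 0, 0, 0, 0), (7, 0, 0, 0, 0), (8, 0, 0, 0, 0), (7, 0, 0, 0, 0), (9, 0, 0, 0, 0), (10, 0, 0, 0, 0), (11, 0, 0, 0, 0), (128, 0, 0, 0, 0), (129, 0, 0, 0, 0), (128, 0, 0, 0, 0), (130, 0, 0, 0, 0), (129, 0, 0, 0, 0), (130, 0, 0, 0, 0), (12, 0, 0, 0, 0), (13, 0, 0, 0, 0), (14, 0, 0, 0, 0), (15, 0, 0, 0,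 0), (16, 0, 0, 0, 0), (17, 0, 0, 0, 0), (131, 0, 0, 0, 0), (132, 0, 0, 0, 0), (131, 0, 0, 0, 0), (133, 0, 0, 0, 0), (132, 0, 0, 0, 0), (133, 0, 0, 0, 0), (18, 0, 0, 0, 0), (19, 0, 0, 0, 0), (20, 0, 0, 0, 0), (21, 0, 0, 0, 0), (22, 0, 0, 0, 0), (23, 0, 0, 0, 0), (22, 0, 0, 0, 0), (24, 0, 0, 0, 0), (25, 0, 0, 0, 0), (134, 0, 0, 0, 0), (25, 0, 0, 0, 0), (26, 0, 0, 0, 0), (134, 0, 0, 0, 0), (26, 0, 0, 0, 0), (27, 0, 0, 0, 0), (135, 0, 0, 0, 0), (27, 0, 0, 0, 0), (28, 0, 0, 0, 0), (135, 0, 0, 0, 0), (28, 0, 0, 0, 0), (29, 0, 0, 0, 0), (30, 0, 0, 0, 0), (31, 0, 0, 0, 0), (30, 0, 0, 0, 0), (32, 0, 0, 0, 0), (33, 0, 0, 0, 0), (32, 0, 0, 0, 0), (34, 0, 0, 0, 0), (35, 0, 0, 0, 0), (136, 0, 0, 0, 0), (35, 0, 0, 0, 0), (36, 0, 0, 0, 0), (136, 0, 0, 0, 0), (36, 0, 0, 0, 0), (37, 0, 0, 0, 0), (137, 0, 0, 0, 0), (37, 0, 0, 0, 0), (38, 0, 0, 0, 0), (137,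 0, 0, 0, 0), (38, 0, 0, 0, 0), (39, 0, 0, 0, 0), (40, 0, 0, 0, 0), (41, 0, 0, 0, 0), (40, 0, 0, 0, 0)],
  [(42, 0, 0, 0, 0), (43, 0, 0, 0, 0), (42, 0, 0, 0, 0), (138, 0, 0, 0, 0), (43, 0, 0, 0, 0), (138, 0, 0, 0, 0), (44, 0, 0, 0, 0), (45, 0, 0, 0, 0), (44, 0, 0, 0, 0), (139, 0, 0, 0, 0), (45, 0, 0, 0, 0), (139, 0, 0, 0, 0), (46, 0, 0, 0, 0), (47, 0, 0, 0, 0), (46, 0, 0, 0, 0), (48, 0, 0, 0, 0), (49, 0, 0, 0, 0), (50, 0, 0, 0, 0), (49, 0, 0, 0, 0), (51, 0, 0, 0, 0), (52, 0, 0, 0, 0), (53, 0, 0, 0, 0), (140, 0, 0, 0, 0), (141, 0, 0, 0, 0), (140, 0, 0, 0, 0), (142, 0, 0, 0, 0), (141, 0, 0, 0, 0), (142, 0, 0, 0, 0), (54, 0, 0, 0, 0), (55, 0, 0, 0, 0), (56, 0, 0, 0, 0), (57, 0, 0, 0, 0), (58, 0, 0, 0, 0), (59, 0, 0, 0, 0), (143, 0, 0, 0, 0), (144, 0, 0, 0, 0), (143, 0, 0, 0, 0), (145, 0, 0, 0, 0), (144, 0, 0, 0, 0), (145, 0, 0, 0, 0), (60,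 0, 0, 0, 0), (61, 0, 0, 0, 0), (62, 0, 0, 0, 0), (63, 0, 0, 0, 0), (64, 0, 0, 0, 0), (65, 0, 0, 0, 0), (64, 0, 0, 0, 0), (66, 0, 0, 0, 0), (67, 0, 0, 0, 0), (146, 0, 0, 0, 0), (67, 0, 0, 0, 0), (68, 0, 0, 0, 0), (146, 0, 0, 0, 0), (68, 0, 0, 0, 0), (69, 0, 0, 0, 0), (147, 0, 0, 0, 0), (69, 0, 0, 0, 0), (70, 0, 0, 0, 0), (147, 0, 0, 0, 0), (70, 0, 0, 0, 0), (71, 0, 0, 0, 0), (72, 0, 0, 0, 0), (73, 0, 0, 0, 0), (72, 0, 0, 0, 0), (74, 0, 0, 0, 0), (75, 0, 0, 0, 0), (74, 0, 0, 0, 0), (76, 0, 0, 0, 0), (77, 0, 0, 0, 0), (148, 0, 0, 0, 0), (77, 0, 0, 0, 0), (78, 0, 0, 0, 0), (148, 0, 0, 0, 0), (78, 0, 0, 0, 0), (79, 0, 0, 0, 0), (149, 0, 0, 0, 0), (79, 0, 0, 0, 0), (80, 0, 0, 0, 0), (149, 0, 0, 0, 0), (80, 0, 0, 0, 0), (81, 0, 0, 0, 0), (82, 0, 0, 0, 0), (83, 0, 0, 0, 0), (82, 0, 0, 0, 0)],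
  [(10, 0, 0, 0, 0), (11, 0, 0, 0, 0), (10, 0, 0, 0, 0), (150, 0, 0, 0, 0), (11, 0, 0, 0, 0), (150, 0, 0, 0, 0), (16, 0, 0, 0, 0), (17, 0, 0, 0, 0), (16, 0, 0, 0, 0), (151, 0, 0, 0, 0), (17, 0, 0, 0, 0), (151, 0, 0, 0, 0), (22, 0, 0, 0, 0), (23, 0, 0, 0, 0), (22, 0, 0, 0, 0), (24, 0, 0, 0, 0), (32, 0, 0, 0, 0), (33, 0, 0, 0, 0), (32, 0, 0, 0, 0), (34, 0, 0, 0, 0), (0, 0, 0, 0, 0), (1, 0, 0, 0, 0), (131, 0, 0, 0, 0), (132, 0, 0, 0, 0), (131, 0, 0, 0, 0), (133, 0, 0, 0, 0), (132, 0, 0, 0, 0), (133, 0, 0, 0, 0), (25, 0, 0, 0, 0), (26, 0, 0, 0, 0), (35, 0, 0, 0, 0), (36, 0, 0, 0, 0), (2, 0, 0, 0, 0), (3, 0, 0, 0, 0), (128, 0, 0, 0, 0), (129, 0, 0, 0, 0), (128, 0, 0, 0, 0), (130, 0, 0, 0, 0), (129, 0, 0, 0, 0), (130, 0, 0, 0, 0), (27, 0, 0, 0, 0), (28, 0, 0, 0, 0), (37, 0, 0, 0, 0), (38, 0, 0, 0, 0), (4, 0, 0, 0, 0), (5, 0, 0, 0, 0), (4, 0,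 0, 0, 0), (6, 0, 0, 0, 0), (12, 0, 0, 0, 0), (152, 0, 0, 0, 0), (12, 0, 0, 0, 0), (13, 0, 0, 0, 0), (152, 0, 0, 0, 0), (13, 0, 0, 0, 0), (18, 0, 0, 0, 0), (153, 0, 0, 0, 0), (18, 0, 0, 0, 0), (19, 0, 0, 0, 0), (153, 0, 0, 0, 0), (19, 0, 0, 0, 0), (39, 0, 0, 0, 0), (40, 0, 0, 0, 0), (41, 0, 0, 0, 0), (40, 0, 0, 0, 0), (7, 0, 0, 0, 0), (8, 0, 0, 0, 0), (7, 0, 0, 0, 0), (9, 0, 0, 0, 0), (14, 0, 0, 0, 0), (154, 0, 0, 0, 0), (14, 0, 0, 0, 0), (15, 0, 0, 0, 0), (154, 0, 0, 0, 0), (15, 0, 0, 0, 0), (20, 0, 0, 0, 0), (155, 0, 0, 0, 0), (20, 0, 0, 0, 0), (21, 0, 0, 0, 0), (155, 0, 0, 0, 0), (21, 0, 0, 0, 0), (29, 0, 0, 0, 0), (30, 0, 0, 0, 0), (31, 0, 0, 0, 0), (30, 0, 0, 0, 0)],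
  [(84, 0, 0, 0, 0), (85, 0, 0, 0, 0), (84, 0, 0, 0, 0), (156, 0, 0, 0, 0), (85, 0, 0, 0, 0), (156, 0, 0, 0, 0), (86, 0, 0, 0, 0), (87, 0, 0, 0, 0), (86, 0, 0, 0, 0), (157, 0, 0, 0, 0), (87, 0, 0, 0, 0), (157, 0, 0, 0, 0), (88, 0, 0, 0, 0), (89, 0, 0, 0, 0), (88, 0, 0, 0, 0), (90, 0, 0, 0, 0), (91, 0, 0, 0, 0), (92, 0, 0, 0, 0), (91, 0, 0, 0, 0), (93, 0, 0, 0, 0), (94, 0, 0, 0, 0), (95, 0, 0, 0, 0), (158, 0, 0, 0, 0), (159, 0, 0, 0, 0), (158, 0, 0, 0, 0), (160, 0, 0, 0, 0), (159, 0, 0, 0, 0), (160, 0, 0, 0, 0), (96, 0, 0, 0, 0), (97, 0, 0, 0, 0), (98, 0, 0, 0, 0), (99, 0, 0, 0, 0), (100, 0, 0, 0, 0), (101, 0, 0, 0, 0), (161, 0, 0, 0, 0), (162, 0, 0, 0, 0), (161, 0, 0, 0, 0), (163, 0, 0, 0, 0), (162, 0, 0, 0, 0), (163, 0, 0, 0, 0), (102, 0, 0, 0, 0), (103, 0, 0, 0, 0), (104, 0, 0, 0, 0), (105, 0, 0, 0, 0), (106, 0, 0, 0, 0), (107, 0, 0,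 0, 0), (106, 0, 0, 0, 0), (108, 0, 0, 0, 0), (109, 0, 0, 0, 0), (164, 0, 0, 0, 0), (109, 0, 0, 0, 0), (110, 0, 0, 0, 0), (164, 0, 0, 0, 0), (110, 0, 0, 0, 0), (111, 0, 0, 0, 0), (165, 0, 0, 0, 0), (111, 0, 0, 0, 0), (112, 0, 0, 0, 0), (165, 0, 0, 0, 0), (112, 0, 0, 0, 0), (113, 0, 0, 0, 0), (114, 0, 0, 0, 0), (115, 0, 0, 0, 0), (114, 0, 0, 0, 0), (116, 0, 0, 0, 0), (117, 0, 0, 0, 0), (116, 0, 0, 0, 0), (118, 0, 0, 0, 0), (119, 0, 0, 0, 0), (166, 0, 0, 0, 0), (119, 0, 0, 0, 0), (120, 0, 0, 0, 0), (166, 0, 0, 0, 0), (120, 0, 0, 0, 0), (121, 0, 0, 0, 0), (167, 0, 0, 0, 0), (121, 0, 0, 0, 0), (122, 0, 0, 0, 0), (167, 0, 0, 0, 0), (122, 0, 0, 0, 0), (123, 0, 0, 0, 0), (124, 0, 0, 0, 0), (125, 0, 0, 0, 0), (124, 0, 0, 0, 0)],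
  [(52, 0, 0, 0, 0), (53, 0, 0, 0, 0), (52, 0, 0, 0, 0), (168, 0, 0, 0, 0), (53, 0, 0, 0, 0), (168, 0, 0, 0, 0), (58, 0, 0, 0, 0), (59, 0, 0, 0, 0), (58, 0, 0, 0, 0), (169, 0, 0, 0, 0), (59, 0, 0, 0, 0), (169, 0, 0, 0, 0), (64, 0, 0, 0, 0), (65, 0, 0, 0, 0), (64, 0, 0, 0, 0), (66, 0, 0, 0, 0), (74, 0, 0, 0, 0), (75, 0, 0, 0, 0), (74, 0, 0, 0, 0), (76, 0, 0, 0, 0), (42, 0, 0, 0, 0), (43, 0, 0, 0, 0), (143, 0, 0, 0, 0), (144, 0, 0, 0, 0), (143, 0, 0, 0, 0), (145, 0, 0, 0, 0), (144, 0, 0, 0, 0), (145, 0, 0, 0, 0), (67, 0, 0, 0, 0), (68, 0, 0, 0, 0), (77, 0, 0, 0, 0), (78, 0, 0, 0, 0), (44, 0, 0, 0, 0), (45, 0, 0, 0, 0), (140, 0, 0, 0, 0), (141, 0, 0, 0, 0), (140, 0, 0, 0, 0), (142, 0, 0, 0, 0), (141, 0, 0, 0, 0), (142, 0, 0, 0, 0), (69, 0, 0, 0, 0), (70, 0, 0, 0, 0), (79, 0, 0, 0, 0), (80, 0, 0, 0, 0), (46, 0, 0, 0, 0), (47, 0, 0, 0, 0),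 (46, 0, 0, 0, 0), (48, 0, 0, 0, 0), (54, 0, 0, 0, 0), (170, 0, 0, 0, 0), (54, 0, 0, 0, 0), (55, 0, 0, 0, 0), (170, 0, 0, 0, 0), (55, 0, 0, 0, 0), (60, 0, 0, 0, 0), (171, 0, 0, 0, 0), (60, 0, 0, 0, 0), (61, 0, 0, 0, 0), (171, 0, 0, 0, 0), (61, 0, 0, 0, 0), (81, 0, 0, 0, 0), (82, 0, 0, 0, 0), (83, 0, 0, 0, 0), (82, 0, 0, 0, 0), (49, 0, 0, 0, 0), (50, 0, 0, 0, 0), (49, 0, 0, 0, 0), (51, 0, 0, 0, 0), (56, 0, 0, 0, 0), (172, 0, 0, 0, 0), (56, 0, 0, 0, 0), (57, 0, 0, 0, 0), (172, 0, 0, 0, 0), (57, 0, 0, 0, 0), (62, 0, 0, 0, 0), (173, 0, 0, 0, 0), (62, 0, 0, 0, 0), (63, 0, 0, 0, 0), (173, 0, 0, 0, 0), (63, 0, 0, 0, 0), (71, 0, 0, 0, 0), (72, 0, 0, 0, 0), (73, 0, 0, 0, 0), (72, 0, 0, 0, 0)],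
  [(94, 0, 0, 0, 0), (95, 0, 0, 0, 0), (94, 0, 0, 0, 0), (174, 0, 0, 0, 0), (95, 0, 0, 0, 0), (174, 0, 0, 0, 0), (100, 0, 0, 0, 0), (101, 0, 0, 0, 0), (100, 0, 0, 0, 0), (175, 0, 0, 0, 0), (101, 0, 0, 0, 0), (175, 0, 0, 0, 0), (106, 0, 0, 0, 0), (107, 0, 0, 0, 0), (106, 0, 0, 0, 0), (108, 0, 0, 0, 0), (116, 0, 0, 0, 0), (117, 0, 0, 0, 0), (116, 0, 0, 0, 0), (118, 0, 0, 0, 0), (84, 0, 0, 0, 0), (85, 0, 0, 0, 0), (161, 0, 0, 0, 0), (162, 0, 0, 0, 0), (161, 0, 0, 0, 0), (163, 0, 0, 0, 0), (162, 0, 0, 0, 0), (163, 0, 0, 0, 0), (109, 0, 0, 0, 0), (110, 0, 0, 0, 0), (119, 0, 0, 0, 0), (120, 0, 0, 0, 0), (86, 0, 0, 0, 0), (87, 0, 0, 0, 0), (158, 0, 0, 0, 0), (159, 0, 0, 0, 0), (158, 0, 0, 0, 0), (160, 0, 0, 0, 0), (159, 0, 0, 0, 0), (160, 0, 0, 0, 0), (111, 0, 0, 0, 0), (112, 0, 0, 0, 0), (121, 0, 0, 0, 0), (122, 0, 0, 0, 0), (88, 0, 0, 0, 0),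 (89, 0, 0, 0, 0), (88, 0, 0, 0, 0), (90, 0, 0, 0, 0), (96, 0, 0, 0, 0), (176, 0, 0, 0, 0), (96, 0, 0, 0, 0), (97, 0, 0, 0, 0), (176, 0, 0, 0, 0), (97, 0, 0, 0, 0), (102, 0, 0, 0, 0), (177, 0, 0, 0, 0), (102, 0, 0, 0, 0), (103, 0, 0, 0, 0), (177, 0, 0, 0, 0), (103, 0, 0, 0, 0), (123, 0, 0, 0, 0), (124, 0, 0, 0, 0), (125, 0, 0, 0, 0), (124, 0, 0, 0, 0), (91, 0, 0, 0, 0), (92, 0, 0, 0, 0), (91, 0, 0, 0, 0), (93, 0, 0, 0, 0), (98, 0, 0, 0, 0), (178, 0, 0, 0, 0), (98, 0, 0, 0, 0), (99, 0, 0, 0, 0), (178, 0, 0, 0, 0), (99, 0, 0, 0, 0), (104, 0, 0, 0, 0), (179, 0, 0, 0, 0), (104, 0, 0, 0, 0), (105, 0, 0, 0, 0), (179, 0, 0, 0, 0), (105, 0, 0, 0, 0), (113, 0, 0, 0, 0), (114, 0, 0, 0, 0), (115, 0, 0, 0, 0), (114, 0, 0, 0, 0)]]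

def m31_1 : Base := (0, 1, [(0, [0], [0, 5]), (0, [1], [1, 2]), (0, [2], [3, 5]), (4, [], [4])])

def l31_1 : Cov := [(864, 0, 1, [(0, [0], [0, 5]), (0, [1], [1, 2]), (0, [2], [3, 5]), (4, [], [4])]),
  (-864, 0, 1, [(0, [0], [0, 5]), (0, [1], [1, 2]), (0, [2], [4, 5]), (4, [], [3])]),
  (288, 0, 1, [(0, [0], [0, 5]), (0, [1], [1, 3]), (0, [2], [2, 5]), (4, [], [4])]),
  (-288, 0, 1, [(0, [0], [0, 5]), (0, [1], [1, 3]), (0, [2], [4, 5]), (4, [], [2])]),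
  (-288, 0, 1, [(0, [0], [0, 5]), (0, [1], [1, 4]), (0, [2], [2, 5]), (4, [], [3])]),
  (288, 0, 1, [(0, [0], [0, 5]), (0, [1], [1, 4]), (0, [2], [3, 5]), (4, [], [2])]),
  (288, 0, 1, [(0, [0], [0, 5]), (0, [1], [2, 3]), (0, [2], [1, 5]), (4, [], [4])]),
  (-288, 0, 1, [(0, [0], [0, 5]), (0, [1], [2, 3]), (0, [2], [4, 5]), (4, [], [1])]),
  (-288, 0, 1, [(0, [0], [0, 5]), (0, [1], [2, 4]), (0, [2], [1, 5]), (4, [], [3])]),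
  (288, 0, 1, [(0, [0], [0, 5]), (0, [1], [2, 4]), (0, [2], [3, 5]), (4, [], [1])]),
  (288, 0, 1, [(0, [0], [1, 5]), (0, [1], [0, 2]), (0, [2], [3, 5]), (4, [], [4])]),
  (-288, 0, 1, [(0, [0], [1, 5]), (0, [1], [0, 2]), (0, [2], [4, 5]), (4, [], [3])]),
  (-288, 0, 1, [(0, [0], [1, 5]), (0, [1], [2, 3]), (0, [2], [0, 5]), (4, [], [4])]),
  (288, 0, 1, [(0, [0], [1, 5]), (0, [1], [2, 3]), (0, [2], [4, 5]), (4, [], [0])]),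
  (288, 0, 1, [(0, [0], [1, 5]), (0, [1], [2, 4]), (0, [2], [0, 5]), (4, [], [3])]),
  (-288, 0, 1, [(0, [0], [1, 5]), (0, [1], [2, 4]), (0, [2], [3, 5]), (4, [], [0])]),
  (288, 0, 1, [(0, [0], [2, 5]), (0, [1], [0, 1]), (0, [2], [3, 5]), (4, [], [4])]),
  (-288, 0, 1, [(0, [0], [2, 5]), (0, [1], [0, 1]), (0, [2], [4, 5]), (4, [], [3])]),
  (-288, 0, 1, [(0, [0], [2, 5]), (0, [1], [1, 3]), (0, [2], [0, 5]), (4, [], [4])]),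
  (288, 0, 1, [(0, [0], [2, 5]), (0, [1], [1, 3]), (0, [2], [4, 5]), (4, [], [0])]),
  (288, 0, 1, [(0, [0], [2, 5]), (0, [1], [1, 4]), (0, [2], [0, 5]), (4, [], [3])]),
  (-288, 0, 1, [(0, [0], [2, 5]), (0, [1], [1, 4]), (0, [2], [3, 5]), (4, [], [0])]),
  (-288, 0, 1, [(0, [0], [3, 5]), (0, [1], [0, 1]), (0, [2], [2, 5]), (4, [], [4])]),
  (288, 0, 1, [(0, [0], [3, 5]), (0, [1], [0, 1]), (0, [2], [4, 5]), (4, [], [2])]),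
  (-288, 0, 1, [(0, [0], [3, 5]), (0, [1], [0, 2]), (0, [2], [1, 5]), (4, [], [4])]),
  (288, 0, 1, [(0, [0], [3, 5]), (0, [1], [0, 2]), (0, [2], [4, 5]), (4, [], [1])]),
  (-864, 0, 1, [(0, [0], [3, 5]), (0, [1], [1, 2]), (0, [2], [0, 5]), (4, [], [4])]),
  (864, 0, 1, [(0, [0], [3, 5]), (0, [1], [1, 2]), (0, [2], [4, 5]), (4, [], [0])]),
  (-288, 0, 1, [(0, [0], [3, 5]), (0, [1], [1, 4]), (0, [2], [0, 5]), (4, [], [2])]),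
  (288, 0, 1, [(0, [0], [3, 5]), (0, [1], [1, 4]), (0, [2], [2, 5]), (4, [], [0])]),
  (-288, 0, 1, [(0, [0], [3, 5]), (0, [1], [2, 4]), (0, [2], [0, 5]), (4, [], [1])]),
  (288, 0, 1, [(0, [0], [3, 5]), (0, [1], [2, 4]), (0, [2], [1, 5]), (4, [], [0])]),
  (288, 0, 1, [(0, [0], [4, 5]), (0, [1], [0, 1]), (0, [2], [2, 5]), (4, [], [3])]),
  (-288, 0, 1, [(0, [0], [4, 5]), (0, [1], [0, 1]), (0, [2], [3, 5]), (4, [], [2])]),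
  (288, 0, 1, [(0, [0], [4, 5]), (0, [1], [0, 2]), (0, [2], [1, 5]), (4, [], [3])]),
  (-288, 0, 1, [(0, [0], [4, 5]), (0, [1], [0, 2]), (0, [2], [3, 5]), (4, [], [1])]),
  (864, 0, 1, [(0, [0], [4, 5]), (0, [1], [1, 2]), (0, [2], [0, 5]), (4, [], [3])]),
  (-864, 0, 1, [(0, [0], [4, 5]), (0, [1], [1, 2]), (0, [2], [3, 5]), (4, [], [0])]),
  (288, 0, 1, [(0, [0], [4, 5]), (0, [1], [1, 3]), (0, [2], [0, 5]), (4, [], [2])]),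
  (-288, 0, 1, [(0, [0], [4, 5]), (0, [1], [1, 3]), (0, [2], [2, 5]), (4, [], [0])]),
  (288, 0, 1, [(0, [0], [4, 5]), (0, [1], [2, 3]), (0, [2], [0, 5]), (4, [], [1])]),
  (-288, 0, 1, [(0, [0], [4, 5]), (0, [1], [2, 3]), (0, [2], [1, 5]), (4, [], [0])]),
  (-864, 0, 1, [(0, [0], [0, 5]), (0, [2], [1, 2]), (0, [1], [3, 5]), (4, [], [4])]),
  (864, 0, 1, [(0, [0], [0, 5]), (0, [2], [1, 2]), (0, [1], [4, 5]), (4, [], [3])]),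
  (-288, 0, 1, [(0, [0], [0, 5]), (0, [2], [1, 3]), (0, [1], [2, 5]), (4, [], [4])]),
  (288, 0, 1, [(0, [0], [0, 5]), (0, [2], [1, 3]), (0, [1], [4, 5]), (4, [], [2])]),
  (288, 0, 1, [(0, [0], [0, 5]), (0, [2], [1, 4]), (0, [1], [2, 5]), (4, [], [3])]),
  (-288, 0, 1, [(0, [0], [0, 5]), (0, [2], [1, 4]), (0, [1], [3, 5]), (4, [], [2])]),
  (-288, 0, 1, [(0, [0], [0, 5]), (0, [2], [2, 3]), (0, [1], [1, 5]), (4, [], [4])]),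
  (288, 0, 1, [(0, [0], [0, 5]), (0, [2], [2, 3]), (0, [1], [4, 5]), (4, [], [1])]),
  (288, 0, 1, [(0, [0], [0, 5]), (0, [2], [2, 4]), (0, [1], [1, 5]), (4, [], [3])]),
  (-288, 0, 1, [(0, [0], [0, 5]), (0, [2], [2, 4]), (0, [1], [3, 5]), (4, [], [1])]),
  (-288, 0, 1, [(0, [0], [1, 5]), (0, [2], [0, 2]), (0, [1], [3, 5]), (4, [], [4])]),
  (288, 0, 1, [(0, [0], [1, 5]), (0, [2], [0, 2]), (0, [1], [4, 5]), (4, [], [3])]),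
  (288, 0, 1, [(0, [0], [1, 5]), (0, [2], [2, 3]), (0, [1], [0, 5]), (4, [], [4])]),
  (-288, 0, 1, [(0, [0], [1, 5]), (0, [2], [2, 3]), (0, [1], [4, 5]), (4, [], [0])]),
  (-288, 0, 1, [(0, [0], [1, 5]), (0, [2], [2, 4]), (0, [1], [0, 5]), (4, [], [3])]),
  (288, 0, 1, [(0, [0], [1, 5]), (0, [2], [2, 4]), (0, [1], [3, 5]), (4, [], [0])]),
  (-288, 0, 1, [(0, [0], [2, 5]), (0, [2], [0, 1]), (0, [1], [3, 5]), (4, [], [4])]),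
  (288, 0, 1, [(0, [0], [2, 5]), (0, [2], [0, 1]), (0, [1], [4, 5]), (4, [], [3])]),
  (288, 0, 1, [(0, [0], [2, 5]), (0, [2], [1, 3]), (0, [1], [0, 5]), (4, [], [4])]),
  (-288, 0, 1, [(0, [0], [2, 5]), (0, [2], [1, 3]), (0, [1], [4, 5]), (4, [], [0])]),
  (-288, 0, 1, [(0, [0], [2, 5]), (0, [2], [1, 4]), (0, [1], [0, 5]), (4, [], [3])]),
  (288, 0, 1, [(0, [0], [2, 5]), (0, [2], [1, 4]), (0, [1], [3, 5]), (4, [], [0])]),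
  (288, 0, 1, [(0, [0], [3, 5]), (0, [2], [0, 1]), (0, [1], [2, 5]), (4, [], [4])]),
  (-288, 0, 1, [(0, [0], [3, 5]), (0, [2], [0, 1]), (0, [1], [4, 5]), (4, [], [2])]),
  (288, 0, 1, [(0, [0], [3, 5]), (0, [2], [0, 2]), (0, [1], [1, 5]), (4, [], [4])]),
  (-288, 0, 1, [(0, [0], [3, 5]), (0, [2], [0, 2]), (0, [1], [4, 5]), (4, [], [1])]),
  (864, 0, 1, [(0, [0], [3, 5]), (0, [2], [1, 2]), (0, [1], [0, 5]), (4, [], [4])]),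
  (-864, 0, 1, [(0, [0], [3, 5]), (0, [2], [1, 2]), (0, [1], [4, 5]), (4, [], [0])]),
  (288, 0, 1, [(0, [0], [3, 5]), (0, [2], [1, 4]), (0, [1], [0, 5]), (4, [], [2])]),
  (-288, 0, 1, [(0, [0], [3, 5]), (0, [2], [1, 4]), (0, [1], [2, 5]), (4, [], [0])]),
  (288, 0, 1, [(0, [0], [3, 5]), (0, [2], [2, 4]), (0, [1], [0, 5]), (4, [], [1])]),
  (-288, 0, 1, [(0, [0], [3, 5]), (0, [2], [2, 4]), (0, [1], [1, 5]), (4, [], [0])]),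
  (-288, 0, 1, [(0, [0], [4, 5]), (0, [2], [0, 1]), (0, [1], [2, 5]), (4, [], [3])]),
  (288, 0, 1, [(0, [0], [4, 5]), (0, [2], [0, 1]), (0, [1], [3, 5]), (4, [], [2])]),
  (-288, 0, 1, [(0, [0], [4, 5]), (0, [2], [0, 2]), (0, [1], [1, 5]), (4, [], [3])]),
  (288, 0, 1, [(0, [0], [4, 5]), (0, [2], [0, 2]), (0, [1], [3, 5]), (4, [], [1])]),
  (-864, 0, 1, [(0, [0], [4, 5]), (0, [2], [1, 2]), (0, [1], [0, 5]), (4, [], [3])]),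
  (864, 0, 1, [(0, [0], [4, 5]), (0, [2], [1, 2]), (0, [1], [3, 5]), (4, [], [0])]),
  (-288, 0, 1, [(0, [0], [4, 5]), (0, [2], [1, 3]), (0, [1], [0, 5]), (4, [], [2])]),
  (288, 0, 1, [(0, [0], [4, 5]), (0, [2], [1, 3]), (0, [1], [2, 5]), (4, [], [0])]),
  (-288, 0, 1, [(0, [0], [4, 5]), (0, [2], [2, 3]), (0, [1], [0, 5]), (4, [], [1])]),
  (288, 0, 1, [(0, [0], [4, 5]), (0, [2], [2, 3]), (0, [1], [1, 5]), (4, [], [0])]),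
  (-864, 0, 1, [(0, [1], [0, 5]), (0, [0], [1, 2]), (0, [2], [3, 5]), (4, [], [4])]),
  (864, 0, 1, [(0, [1], [0, 5]), (0, [0], [1, 2]), (0, [2], [4, 5]), (4, [], [3])]),
  (-288, 0, 1, [(0, [1], [0, 5]), (0, [0], [1, 3]), (0, [2], [2, 5]), (4, [], [4])]),
  (288, 0, 1, [(0, [1], [0, 5]), (0, [0], [1, 3]), (0, [2], [4, 5]), (4, [], [2])]),
  (288, 0, 1, [(0, [1], [0, 5]), (0, [0], [1, 4]), (0, [2], [2, 5]), (4, [], [3])]),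
  (-288, 0, 1, [(0, [1], [0, 5]), (0, [0], [1, 4]), (0, [2], [3, 5]), (4, [], [2])]),
  (-288, 0, 1, [(0, [1], [0, 5]), (0, [0], [2, 3]), (0, [2], [1, 5]), (4, [], [4])]),
  (288, 0, 1, [(0, [1], [0, 5]), (0, [0], [2, 3]), (0, [2], [4, 5]), (4, [], [1])]),
  (288, 0, 1, [(0, [1], [0, 5]), (0, [0], [2, 4]), (0, [2], [1, 5]), (4, [], [3])]),
  (-288, 0, 1, [(0, [1], [0, 5]), (0, [0], [2, 4]), (0, [2], [3, 5]), (4, [], [1])]),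
  (-288, 0, 1, [(0, [1], [1, 5]), (0, [0], [0, 2]), (0, [2], [3, 5]), (4, [], [4])]),
  (288, 0, 1, [(0, [1], [1, 5]), (0, [0], [0, 2]), (0, [2], [4, 5]), (4, [], [3])]),
  (288, 0, 1, [(0, [1], [1, 5]), (0, [0], [2, 3]), (0, [2], [0, 5]), (4, [], [4])]),
  (-288, 0, 1, [(0, [1], [1, 5]), (0, [0], [2, 3]), (0, [2], [4, 5]), (4, [], [0])]),
  (-288, 0, 1, [(0, [1], [1, 5]), (0, [0], [2, 4]), (0, [2], [0, 5]), (4, [], [3])]),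
  (288, 0, 1, [(0, [1], [1, 5]), (0, [0], [2, 4]), (0, [2], [3, 5]), (4, [], [0])]),
  (-288, 0, 1, [(0, [1], [2, 5]), (0, [0], [0, 1]), (0, [2], [3, 5]), (4, [], [4])]),
  (288, 0, 1, [(0, [1], [2, 5]), (0, [0], [0, 1]), (0, [2], [4, 5]), (4, [], [3])]),
  (288, 0, 1, [(0, [1], [2, 5]), (0, [0], [1, 3]), (0, [2], [0, 5]), (4, [], [4])]),
  (-288, 0, 1, [(0, [1], [2, 5]), (0, [0], [1, 3]), (0, [2], [4, 5]), (4, [], [0])]),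
  (-288, 0, 1, [(0, [1], [2, 5]), (0, [0], [1, 4]), (0, [2], [0, 5]), (4, [], [3])]),
  (288, 0, 1, [(0, [1], [2, 5]), (0, [0], [1, 4]), (0, [2], [3, 5]), (4, [], [0])]),
  (288, 0, 1, [(0, [1], [3, 5]), (0, [0], [0, 1]), (0, [2], [2, 5]), (4, [], [4])]),
  (-288, 0, 1, [(0, [1], [3, 5]), (0, [0], [0, 1]), (0, [2], [4, 5]), (4, [], [2])]),
  (288, 0, 1, [(0, [1], [3, 5]), (0, [0], [0, 2]), (0, [2], [1, 5]), (4, [], [4])]),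
  (-288, 0, 1, [(0, [1], [3, 5]), (0, [0], [0, 2]), (0, [2], [4, 5]), (4, [], [1])]),
  (864, 0, 1, [(0, [1], [3, 5]), (0, [0], [1, 2]), (0, [2], [0, 5]), (4, [], [4])]),
  (-864, 0, 1, [(0, [1], [3, 5]), (0, [0], [1, 2]), (0, [2], [4, 5]), (4, [], [0])]),
  (288, 0, 1, [(0, [1], [3, 5]), (0, [0], [1, 4]), (0, [2], [0, 5]), (4, [], [2])]),
  (-288, 0, 1, [(0, [1], [3, 5]), (0, [0], [1, 4]), (0, [2], [2, 5]), (4, [], [0])]),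
  (288, 0, 1, [(0, [1], [3, 5]), (0, [0], [2, 4]), (0, [2], [0, 5]), (4, [], [1])]),
  (-288, 0, 1, [(0, [1], [3, 5]), (0, [0], [2, 4]), (0, [2], [1, 5]), (4, [], [0])]),
  (-288, 0, 1, [(0, [1], [4, 5]), (0, [0], [0, 1]), (0, [2], [2, 5]), (4, [], [3])]),
  (288, 0, 1, [(0, [1], [4, 5]), (0, [0], [0, 1]), (0, [2], [3, 5]), (4, [], [2])]),
  (-288, 0, 1, [(0, [1], [4, 5]), (0, [0], [0, 2]), (0, [2], [1, 5]), (4, [], [3])]),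
  (288, 0, 1, [(0, [1], [4, 5]), (0, [0], [0, 2]), (0, [2], [3, 5]), (4, [], [1])]),
  (-864, 0, 1, [(0, [1], [4, 5]), (0, [0], [1, 2]), (0, [2], [0, 5]), (4, [], [3])]),
  (864, 0, 1, [(0, [1], [4, 5]), (0, [0], [1, 2]), (0, [2], [3, 5]), (4, [], [0])]),
  (-288, 0, 1, [(0, [1], [4, 5]), (0, [0], [1, 3]), (0, [2], [0, 5]), (4, [], [2])]),
  (288, 0, 1, [(0, [1], [4, 5]), (0, [0], [1, 3]), (0, [2], [2, 5]), (4, [], [0])]),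
  (-288, 0, 1, [(0, [1], [4, 5]), (0, [0], [2, 3]), (0, [2], [0, 5]), (4, [], [1])]),
  (288, 0, 1, [(0, [1], [4, 5]), (0, [0], [2, 3]), (0, [2], [1, 5]), (4, [], [0])])]

def z31_1 : Cov := []

def w31_1 : List (List Wit) := [[(0, 0, 0, 0, 0), (1, 0, 0, 0, 0), (2, 0, 0, 0, 0), (3, 0, 0, 0, 0), (4, 0, 0, 0, 0), (5, 0, 0, 0, 0), (0, 0, 0, 0, 0), (1, 0, 0, 0, 0), (6, 0, 0, 0, 0), (7, 0, 0, 0, 0), (8, 0, 0, 0, 0), (9, 0, 0, 0, 0), (2, 0, 0, 0, 0), (3, 0, 0, 0, 0), (6, 0, 0, 0, 0), (7, 0, 0, 0, 0), (4, 0, 0, 0, 0), (5, 0, 0, 0, 0), (8, 0, 0, 0, 0), (9, 0, 0, 0, 0), (10, 0, 0, 0, 0), (11, 0, 0, 0, 0), (10, 0, 0, 0, 0), (11, 0, 0, 0, 0), (12, 0, 0, 0, 0), (13, 0, 0, 0, 0), (14, 0, 0, 0, 0), (15, 0, 0, 0, 0), (12, 0, 0, 0, 0), (13, 0, 0, 0, 0), (14, 0, 0, 0, 0), (15, 0, 0, 0, 0), (16, 0, 0, 0, 0), (17, 0, 0, 0, 0), (16, 0, 0, 0, 0), (17, 0, 0,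 0, 0), (18, 0, 0, 0, 0), (19, 0, 0, 0, 0), (20, 0, 0, 0, 0), (21, 0, 0, 0, 0), (18, 0, 0, 0, 0), (19, 0, 0, 0, 0), (20, 0, 0, 0, 0), (21, 0, 0, 0, 0), (22, 0, 0, 0, 0), (23, 0, 0, 0, 0), (24, 0, 0, 0, 0), (25, 0, 0, 0, 0), (22, 0, 0, 0, 0), (23, 0, 0, 0, 0), (26, 0, 0, 0, 0), (27, 0, 0, 0, 0), (28, 0, 0, 0, 0), (29, 0, 0, 0, 0), (24, 0, 0, 0, 0), (25, 0, 0, 0, 0), (26, 0, 0, 0, 0), (27, 0, 0, 0, 0), (30, 0, 0, 0, 0), (31, 0, 0, 0, 0), (28, 0, 0, 0, 0), (29, 0, 0, 0, 0), (30, 0, 0, 0, 0), (31, 0, 0, 0, 0), (32, 0, 0, 0, 0), (33, 0, 0, 0, 0), (34, 0, 0, 0, 0), (35, 0, 0, 0, 0), (32, 0, 0, 0, 0), (33, 0, 0, 0, 0), (36, 0, 0, 0, 0), (37, 0, 0, 0, 0), (38, 0, 0, 0, 0), (39, 0, 0, 0, 0), (34, 0, 0, 0, 0), (35, 0, 0, 0, 0), (36, 0, 0, 0, 0), (37, 0, 0, 0, 0), (40, 0, 0, 0, 0), (41, 0, 0, 0, 0), (38, 0, 0, 0, 0), (39, 0, 0, 0, 0), (40, 0, 0, 0,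 0), (41, 0, 0, 0, 0)],
  [(42, 0, 0, 0, 0), (43, 0, 0, 0, 0), (44, 0, 0, 0, 0), (45, 0, 0, 0, 0), (46, 0, 0, 0, 0), (47, 0, 0, 0, 0), (42, 0, 0, 0, 0), (43, 0, 0, 0, 0), (48, 0, 0, 0, 0), (49, 0, 0, 0, 0), (50, 0, 0, 0, 0), (51, 0, 0, 0, 0), (44, 0, 0, 0, 0), (45, 0, 0, 0, 0), (48, 0, 0, 0, 0), (49, 0, 0, 0, 0), (46, 0, 0, 0, 0), (47, 0, 0, 0, 0), (50, 0, 0, 0, 0), (51, 0, 0, 0, 0), (52, 0, 0, 0, 0), (53, 0, 0, 0, 0), (52, 0, 0, 0, 0), (53, 0, 0, 0, 0), (54, 0, 0, 0, 0), (55, 0, 0, 0, 0), (56, 0, 0, 0, 0), (57, 0, 0, 0, 0), (54, 0, 0, 0, 0), (55, 0, 0, 0, 0), (56, 0, 0, 0, 0), (57, 0, 0, 0, 0), (58, 0, 0, 0, 0), (59, 0, 0, 0, 0), (58, 0, 0, 0, 0), (59, 0, 0, 0, 0), (60, 0, 0, 0, 0), (61, 0, 0, 0, 0), (62, 0, 0, 0, 0), (63, 0, 0, 0, 0), (60, 0, 0, 0, 0), (61, 0, 0, 0, 0), (62, 0, 0, 0, 0), (63, 0, 0, 0, 0), (64, 0, 0, 0, 0), (65, 0, 0,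 0, 0), (66, 0, 0, 0, 0), (67, 0, 0, 0, 0), (64, 0, 0, 0, 0), (65, 0, 0, 0, 0), (68, 0, 0, 0, 0), (69, 0, 0, 0, 0), (70, 0, 0, 0, 0), (71, 0, 0, 0, 0), (66, 0, 0, 0, 0), (67, 0, 0, 0, 0), (68, 0, 0, 0, 0), (69, 0, 0, 0, 0), (72, 0, 0, 0, 0), (73, 0, 0, 0, 0), (70, 0, 0, 0, 0), (71, 0, 0, 0, 0), (72, 0, 0, 0, 0), (73, 0, 0, 0, 0), (74, 0, 0, 0, 0), (75, 0, 0, 0, 0), (76, 0, 0, 0, 0), (77, 0, 0, 0, 0), (74, 0, 0, 0, 0), (75, 0, 0, 0, 0), (78, 0, 0, 0, 0), (79, 0, 0, 0, 0), (80, 0, 0, 0, 0), (81, 0, 0, 0, 0), (76, 0, 0, 0, 0), (77, 0, 0, 0, 0), (78, 0, 0, 0, 0), (79, 0, 0, 0, 0), (82, 0, 0, 0, 0), (83, 0, 0, 0, 0), (80, 0, 0, 0, 0), (81, 0, 0, 0, 0), (82, 0, 0, 0, 0), (83, 0, 0, 0, 0)],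
  [(84, 0, 0, 0, 0), (85, 0, 0, 0, 0), (86, 0, 0, 0, 0), (87, 0, 0, 0, 0), (88, 0, 0, 0, 0), (89, 0, 0, 0, 0), (84, 0, 0, 0, 0), (85, 0, 0, 0, 0), (90, 0, 0, 0, 0), (91, 0, 0, 0, 0), (92, 0, 0, 0, 0), (93, 0, 0, 0, 0), (86, 0, 0, 0, 0), (87, 0, 0, 0, 0), (90, 0, 0, 0, 0), (91, 0, 0, 0, 0), (88, 0, 0, 0, 0), (89, 0, 0, 0, 0), (92, 0, 0, 0, 0), (93, 0, 0, 0, 0), (94, 0, 0, 0, 0), (95, 0, 0, 0, 0), (94, 0, 0, 0, 0), (95, 0, 0, 0, 0), (96, 0, 0, 0, 0), (97, 0, 0, 0, 0), (98, 0, 0, 0, 0), (99, 0, 0, 0, 0), (96, 0, 0, 0, 0), (97, 0, 0, 0, 0), (98, 0, 0, 0, 0), (99, 0, 0, 0, 0), (100, 0, 0, 0, 0), (101, 0, 0, 0, 0), (100, 0, 0, 0, 0), (101, 0, 0, 0, 0), (102, 0, 0, 0, 0), (103, 0, 0, 0, 0), (104, 0, 0, 0, 0), (105, 0, 0, 0, 0), (102, 0, 0, 0, 0), (103, 0, 0, 0, 0), (104, 0, 0, 0, 0), (105, 0, 0, 0, 0), (106, 0, 0, 0, 0), (107, 0, 0, 0, 0), (108,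 0, 0, 0, 0), (109, 0, 0, 0, 0), (106, 0, 0, 0, 0), (107, 0, 0, 0, 0), (110, 0, 0, 0, 0), (111, 0, 0, 0, 0), (112, 0, 0, 0, 0), (113, 0, 0, 0, 0), (108, 0, 0, 0, 0), (109, 0, 0, 0, 0), (110, 0, 0, 0, 0), (111, 0, 0, 0, 0), (114, 0, 0, 0, 0), (115, 0, 0, 0, 0), (112, 0, 0, 0, 0), (113, 0, 0, 0, 0), (114, 0, 0, 0, 0), (115, 0, 0, 0, 0), (116, 0, 0, 0, 0), (117, 0, 0, 0, 0), (118, 0, 0, 0, 0), (119, 0, 0, 0, 0), (116, 0, 0, 0, 0), (117, 0, 0, 0, 0), (120, 0, 0, 0, 0), (121, 0, 0, 0, 0), (122, 0, 0, 0, 0), (123, 0, 0, 0, 0), (118, 0, 0, 0, 0), (119, 0, 0, 0, 0), (120, 0, 0, 0, 0), (121, 0, 0, 0, 0), (124, 0, 0, 0, 0), (125, 0, 0, 0, 0), (122, 0, 0, 0, 0), (123, 0, 0, 0, 0), (124, 0, 0, 0, 0), (125, 0, 0, 0, 0)],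
  [(68, 0, 0, 0, 0), (78, 0, 0, 0, 0), (60, 0, 0, 0, 0), (80, 0, 0, 0, 0), (62, 0, 0, 0, 0), (70, 0, 0, 0, 0), (68, 0, 0, 0, 0), (78, 0, 0, 0, 0), (54, 0, 0, 0, 0), (82, 0, 0, 0, 0), (56, 0, 0, 0, 0), (72, 0, 0, 0, 0), (60, 0, 0, 0, 0), (80, 0, 0, 0, 0), (54, 0, 0, 0, 0), (82, 0, 0, 0, 0), (62, 0, 0, 0, 0), (70, 0, 0, 0, 0), (56, 0, 0, 0, 0), (72, 0, 0, 0, 0), (66, 0, 0, 0, 0), (76, 0, 0, 0, 0), (66, 0, 0, 0, 0), (76, 0, 0, 0, 0), (48, 0, 0, 0, 0), (83, 0, 0, 0, 0), (50, 0, 0, 0, 0), (73, 0, 0, 0, 0), (48, 0, 0, 0, 0), (83, 0, 0, 0, 0), (50, 0, 0, 0, 0), (73, 0, 0, 0, 0), (64, 0, 0, 0, 0), (74, 0, 0, 0, 0), (64, 0, 0, 0, 0), (74, 0, 0, 0, 0), (44, 0, 0, 0, 0), (81, 0, 0, 0, 0), (46, 0, 0, 0, 0), (71, 0, 0, 0, 0), (44, 0, 0, 0, 0), (81, 0, 0, 0, 0), (46, 0, 0, 0, 0), (71, 0, 0, 0, 0), (58, 0, 0, 0, 0), (75, 0, 0, 0, 0), (52, 0, 0, 0, 0),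 (77, 0, 0, 0, 0), (58, 0, 0, 0, 0), (75, 0, 0, 0, 0), (42, 0, 0, 0, 0), (79, 0, 0, 0, 0), (47, 0, 0, 0, 0), (63, 0, 0, 0, 0), (52, 0, 0, 0, 0), (77, 0, 0, 0, 0), (42, 0, 0, 0, 0), (79, 0, 0, 0, 0), (51, 0, 0, 0, 0), (57, 0, 0, 0, 0), (47, 0, 0, 0, 0), (63, 0, 0, 0, 0), (51, 0, 0, 0, 0), (57, 0, 0, 0, 0), (59, 0, 0, 0, 0), (65, 0, 0, 0, 0), (53, 0, 0, 0, 0), (67, 0, 0, 0, 0), (59, 0, 0, 0, 0), (65, 0, 0, 0, 0), (43, 0, 0, 0, 0), (69, 0, 0, 0, 0), (45, 0, 0, 0, 0), (61, 0, 0, 0, 0), (53, 0, 0, 0, 0), (67, 0, 0, 0, 0), (43, 0, 0, 0, 0), (69, 0, 0, 0, 0), (49, 0, 0, 0, 0), (55, 0, 0, 0, 0), (45, 0, 0, 0, 0), (61, 0, 0, 0, 0), (49, 0, 0, 0, 0), (55, 0, 0, 0, 0)],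
  [(110, 0, 0, 0, 0), (120, 0, 0, 0, 0), (102, 0, 0, 0, 0), (122, 0, 0, 0, 0), (104, 0, 0, 0, 0), (112, 0, 0, 0, 0), (110, 0, 0, 0, 0), (120, 0, 0, 0, 0), (96, 0, 0, 0, 0), (124, 0, 0, 0, 0), (98, 0, 0, 0, 0), (114, 0, 0, 0, 0), (102, 0, 0, 0, 0), (122, 0, 0, 0, 0), (96, 0, 0, 0, 0), (124, 0, 0, 0, 0), (104, 0, 0, 0, 0), (112, 0, 0, 0, 0), (98, 0, 0, 0, 0), (114, 0, 0, 0, 0), (108, 0, 0, 0, 0), (118, 0, 0, 0, 0), (108, 0, 0, 0, 0), (118, 0, 0, 0, 0), (90, 0, 0, 0, 0), (125, 0, 0, 0, 0), (92, 0, 0, 0, 0), (115, 0, 0, 0, 0), (90, 0, 0, 0, 0), (125, 0, 0, 0, 0), (92, 0, 0, 0, 0), (115, 0, 0, 0, 0), (106, 0, 0, 0, 0), (116, 0, 0, 0, 0), (106, 0, 0, 0, 0), (116, 0, 0, 0, 0), (86, 0, 0, 0, 0), (123, 0, 0, 0, 0), (88, 0, 0, 0, 0), (113, 0, 0, 0, 0), (86, 0, 0, 0, 0), (123, 0, 0, 0, 0), (88, 0, 0, 0, 0), (113, 0, 0, 0, 0), (100, 0, 0, 0, 0), (117,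 0, 0, 0, 0), (94, 0, 0, 0, 0), (119, 0, 0, 0, 0), (100, 0, 0, 0, 0), (117, 0, 0, 0, 0), (84, 0, 0, 0, 0), (121, 0, 0, 0, 0), (89, 0, 0, 0, 0), (105, 0, 0, 0, 0), (94, 0, 0, 0, 0), (119, 0, 0, 0, 0), (84, 0, 0, 0, 0), (121, 0, 0, 0, 0), (93, 0, 0, 0, 0), (99, 0, 0, 0, 0), (89, 0, 0, 0, 0), (105, 0, 0, 0, 0), (93, 0, 0, 0, 0), (99, 0, 0, 0, 0), (101, 0, 0, 0, 0), (107, 0, 0, 0, 0), (95, 0, 0, 0, 0), (109, 0, 0, 0, 0), (101, 0, 0, 0, 0), (107, 0, 0, 0, 0), (85, 0, 0, 0, 0), (111, 0, 0, 0, 0), (87, 0, 0, 0, 0), (103, 0, 0, 0, 0), (95, 0, 0, 0, 0), (109, 0, 0, 0, 0), (85, 0, 0, 0, 0), (111, 0, 0, 0, 0), (91, 0, 0, 0, 0), (97, 0, 0, 0, 0), (87, 0, 0, 0, 0), (103, 0, 0, 0, 0), (91, 0, 0, 0, 0), (97, 0, 0, 0, 0)],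
  [(26, 0, 0, 0, 0), (36, 0, 0, 0, 0), (18, 0, 0, 0, 0), (38, 0, 0, 0, 0), (20, 0, 0, 0, 0), (28, 0, 0, 0, 0), (26, 0, 0, 0, 0), (36, 0, 0, 0, 0), (12, 0, 0, 0, 0), (40, 0, 0, 0, 0), (14, 0, 0, 0, 0), (30, 0, 0, 0, 0), (18, 0, 0, 0, 0), (38, 0, 0, 0, 0), (12, 0, 0, 0, 0), (40, 0, 0, 0, 0), (20, 0, 0, 0, 0), (28, 0, 0, 0, 0), (14, 0, 0, 0, 0), (30, 0, 0, 0, 0), (24, 0, 0, 0, 0), (34, 0, 0, 0, 0), (24, 0, 0, 0, 0), (34, 0, 0, 0, 0), (6, 0, 0, 0, 0), (41, 0, 0, 0, 0), (8, 0, 0, 0, 0), (31, 0, 0, 0, 0), (6, 0, 0, 0, 0), (41, 0, 0, 0, 0), (8, 0, 0, 0, 0), (31, 0, 0, 0, 0), (22, 0, 0, 0, 0), (32, 0, 0, 0, 0), (22, 0, 0, 0, 0), (32, 0, 0, 0, 0), (2, 0, 0, 0, 0), (39, 0, 0, 0, 0), (4, 0, 0, 0, 0), (29, 0, 0, 0, 0), (2, 0, 0, 0, 0), (39, 0, 0, 0, 0), (4, 0, 0, 0, 0), (29, 0, 0, 0, 0), (16, 0, 0, 0, 0), (33, 0, 0, 0, 0), (10, 0, 0, 0, 0), (35, 0,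 0, 0, 0), (16, 0, 0, 0, 0), (33, 0, 0, 0, 0), (0, 0, 0, 0, 0), (37, 0, 0, 0, 0), (5, 0, 0, 0, 0), (21, 0, 0, 0, 0), (10, 0, 0, 0, 0), (35, 0, 0, 0, 0), (0, 0, 0, 0, 0), (37, 0, 0, 0, 0), (9, 0, 0, 0, 0), (15, 0, 0, 0, 0), (5, 0, 0, 0, 0), (21, 0, 0, 0, 0), (9, 0, 0, 0, 0), (15, 0, 0, 0, 0), (17, 0, 0, 0, 0), (23, 0, 0, 0, 0), (11, 0, 0, 0, 0), (25, 0, 0, 0, 0), (17, 0, 0, 0, 0), (23, 0, 0, 0, 0), (1, 0, 0, 0, 0), (27, 0, 0, 0, 0), (3, 0, 0, 0, 0), (19, 0, 0, 0, 0), (11, 0, 0, 0, 0), (25, 0, 0, 0, 0), (1, 0, 0, 0, 0), (27, 0, 0, 0, 0), (7, 0, 0, 0, 0), (13, 0, 0, 0, 0), (3, 0, 0, 0, 0), (19, 0, 0, 0, 0), (7, 0, 0, 0, 0), (13, 0, 0, 0, 0)]]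

def m31_2 : Base := (0, 1, [(0, [0], [0, 5]), (0, [1], [1, 3]), (0, [2], [2, 4]), (4, [], [5])])

def l31_2 : Cov := [(720, 0, 1, [(0, [0], [0, 5]), (0, [1], [1, 3]), (0, [2], [2, 4]), (4, [], [5])]),
  (-720, 0, 1, [(0, [0], [0, 5]), (0, [1], [1, 4]), (0, [2], [2, 3]), (4, [], [5])]),
  (720, 0, 1, [(0, [0], [0, 5]), (0, [1], [2, 3]), (0, [2], [1, 4]), (4, [], [5])]),
  (-720, 0, 1, [(0, [0], [0, 5]), (0, [1], [2, 4]), (0, [2], [1, 3]), (4, [], [5])]),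
  (-720, 0, 1, [(0, [0], [3, 5]), (0, [1], [0, 2]), (0, [2], [1, 4]), (4, [], [5])]),
  (-720, 0, 1, [(0, [0], [3, 5]), (0, [1], [0, 1]), (0, [2], [2, 4]), (4, [], [5])]),
  (720, 0, 1, [(0, [0], [3, 5]), (0, [1], [1, 4]), (0, [2], [0, 2]), (4, [], [5])]),
  (720, 0, 1, [(0, [0], [3, 5]), (0, [1], [2, 4]), (0, [2], [0, 1]), (4, [], [5])]),
  (720, 0, 1, [(0, [0], [4, 5]), (0, [1], [0, 2]), (0, [2], [1, 3]), (4, [], [5])]),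
  (720, 0, 1, [(0, [0], [4, 5]), (0, [1], [0, 1]), (0, [2], [2, 3]), (4, [], [5])]),
  (-720, 0, 1, [(0, [0], [4, 5]), (0, [1], [1, 3]), (0, [2], [0, 2]), (4, [], [5])]),
  (-720, 0, 1, [(0, [0], [4, 5]), (0, [1], [2, 3]), (0, [2], [0, 1]), (4, [], [5])]),
  (-720, 0, 1, [(0, [1], [0, 5]), (0, [0], [1, 3]), (0, [2], [2, 4]), (4, [], [5])]),
  (720, 0, 1, [(0, [1], [0, 5]), (0, [0], [1, 4]), (0, [2], [2, 3]), (4, [], [5])]),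
  (-720, 0, 1, [(0, [1], [0, 5]), (0, [0], [2, 3]), (0, [2], [1, 4]), (4, [], [5])]),
  (720, 0, 1, [(0, [1], [0, 5]), (0, [0], [2, 4]), (0, [2], [1, 3]), (4, [], [5])]),
  (720, 0, 1, [(0, [1], [3, 5]), (0, [0], [0, 2]), (0, [2], [1, 4]), (4, [], [5])]),
  (720, 0, 1, [(0, [1], [3, 5]), (0, [0], [0, 1]), (0, [2], [2, 4]), (4, [], [5])]),
  (-720, 0, 1, [(0, [1], [3, 5]), (0, [0], [1, 4]), (0, [2], [0, 2]), (4, [], [5])]),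
  (-720, 0, 1, [(0, [1], [3, 5]), (0, [0], [2, 4]), (0, [2], [0, 1]), (4, [], [5])]),
  (-720, 0, 1, [(0, [1], [4, 5]), (0, [0], [0, 2]), (0, [2], [1, 3]), (4, [], [5])]),
  (-720, 0, 1, [(0, [1], [4, 5]), (0, [0], [0, 1]), (0, [2], [2, 3]), (4, [], [5])]),
  (720, 0, 1, [(0, [1], [4, 5]), (0, [0], [1, 3]), (0, [2], [0, 2]), (4, [], [5])]),
  (720, 0, 1, [(0, [1], [4, 5]), (0, [0], [2, 3]), (0, [2], [0, 1]), (4, [], [5])]),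
  (720, 0, 1, [(0, [2], [0, 5]), (0, [0], [1, 3]), (0, [1], [2, 4]), (4, [], [5])]),
  (-720, 0, 1, [(0, [2], [0, 5]), (0, [0], [1, 4]), (0, [1], [2, 3]), (4, [], [5])]),
  (720, 0, 1, [(0, [2], [0, 5]), (0, [0], [2, 3]), (0, [1], [1, 4]), (4, [], [5])]),
  (-720, 0, 1, [(0, [2], [0, 5]), (0, [0], [2, 4]), (0, [1], [1, 3]), (4, [], [5])]),
  (-720, 0, 1, [(0, [2], [3, 5]), (0, [0], [0, 2]), (0, [1], [1, 4]), (4, [], [5])]),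
  (-720, 0, 1, [(0, [2], [3, 5]), (0, [0], [0, 1]), (0, [1], [2, 4]), (4, [], [5])]),
  (720, 0, 1, [(0, [2], [3, 5]), (0, [0], [1, 4]), (0, [1], [0, 2]), (4, [], [5])]),
  (720, 0, 1, [(0, [2], [3, 5]), (0, [0], [2, 4]), (0, [1], [0, 1]), (4, [], [5])]),
  (720, 0, 1, [(0, [2], [4, 5]), (0, [0], [0, 2]), (0, [1], [1, 3]), (4, [], [5])]),
  (720, 0, 1, [(0, [2], [4, 5]), (0, [0], [0, 1]), (0, [1], [2, 3]), (4, [], [5])]),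
  (-720, 0, 1, [(0, [2], [4, 5]), (0, [0], [1, 3]), (0, [1], [0, 2]), (4, [], [5])]),
  (-720, 0, 1, [(0, [2], [4, 5]), (0, [0], [2, 3]), (0, [1], [0, 1]), (4, [], [5])])]

def z31_2 : Cov := [(0, 0, 1, [(0, [0], [0, 5]), (0, [1], [1, 2]), (0, [2], [3, 4]), (4, [], [5])]),
  (0, 0, 1, [(0, [0], [0, 5]), (0, [1], [3, 4]), (0, [2], [1, 2]), (4, [], [5])]),
  (0, 0, 1, [(0, [0], [1, 5]), (0, [1], [0, 3]), (0, [2], [2, 4]), (4, [], [5])]),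
  (0, 0, 1, [(0, [0], [1, 5]), (0, [1], [0, 4]), (0, [2], [2, 3]), (4, [], [5])]),
  (0, 0, 1, [(0, [0], [1, 5]), (0, [1], [2, 3]), (0, [2], [0, 4]), (4, [], [5])]),
  (0, 0, 1, [(0, [0], [1, 5]), (0, [1], [2, 4]), (0, [2], [0, 3]), (4, [], [5])]),
  (0, 0, 1, [(0, [0], [1, 5]), (0, [1], [2, 0]), (0, [2], [3, 4]), (4, [], [5])]),
  (0, 0, 1, [(0, [0], [1, 5]), (0, [1], [3, 4]), (0, [2], [2, 0]), (4, [], [5])]),
  (0, 0, 1, [(0, [0], [2, 5]), (0, [1], [0, 3]), (0, [2], [1, 4]), (4, [], [5])]),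
  (0, 0, 1, [(0, [0], [2, 5]), (0, [1], [0, 4]), (0, [2], [1, 3]), (4, [], [5])]),
  (0, 0, 1, [(0, [0], [2, 5]), (0, [1], [1, 3]), (0, [2], [0, 4]), (4, [], [5])]),
  (0, 0, 1, [(0, [0], [2, 5]), (0, [1], [1, 4]), (0, [2], [0, 3]), (4, [], [5])]),
  (0, 0, 1, [(0, [0], [2, 5]), (0, [1], [1, 0]), (0, [2], [3, 4]), (4, [], [5])]),
  (0, 0, 1, [(0, [0], [2, 5]), (0, [1], [3, 4]), (0, [2], [1, 0]), (4, [], [5])]),
  (0, 0, 1, [(0, [0], [3, 5]), (0, [1], [0, 4]), (0, [2], [1, 2]), (4, [], [5])]),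
  (0, 0, 1, [(0, [0], [3, 5]), (0, [1], [1, 2]), (0, [2], [0, 4]), (4, [], [5])]),
  (0, 0, 1, [(0, [0], [4, 5]), (0, [1], [0, 3]), (0, [2], [1, 2]), (4, [], [5])]),
  (0, 0, 1, [(0, [0], [4, 5]), (0, [1], [1, 2]), (0, [2], [0, 3]), (4, [], [5])]),
  (0, 0, 1, [(0, [1], [0, 5]), (0, [0], [1, 2]), (0, [2], [3, 4]), (4, [], [5])]),
  (0, 0, 1, [(0, [1], [0, 5]), (0, [0], [3, 4]), (0, [2], [1, 2]), (4, [], [5])]),
  (0, 0, 1, [(0, [1], [1, 5]), (0, [0], [0, 3]), (0, [2], [2, 4]), (4, [], [5])]),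
  (0, 0, 1, [(0, [1], [1, 5]), (0, [0], [0, 4]), (0, [2], [2, 3]), (4, [], [5])]),
  (0, 0, 1, [(0, [1], [1, 5]), (0, [0], [2, 3]), (0, [2], [0, 4]), (4, [], [5])]),
  (0, 0, 1, [(0, [1], [1, 5]), (0, [0], [2, 4]), (0, [2], [0, 3]), (4, [], [5])]),
  (0, 0, 1, [(0, [1], [1, 5]), (0, [0], [2, 0]), (0, [2], [3, 4]), (4, [], [5])]),
  (0, 0, 1, [(0, [1], [1, 5]), (0, [0], [3, 4]), (0, [2], [2, 0]), (4, [], [5])]),
  (0, 0, 1, [(0, [1], [2, 5]), (0, [0], [0, 3]), (0, [2], [1, 4]), (4, [], [5])]),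
  (0, 0, 1, [(0, [1], [2, 5]), (0, [0], [0, 4]), (0, [2], [1, 3]), (4, [], [5])]),
  (0, 0, 1, [(0, [1], [2, 5]), (0, [0], [1, 3]), (0, [2], [0, 4]), (4, [], [5])]),
  (0, 0, 1, [(0, [1], [2, 5]), (0, [0], [1, 4]), (0, [2], [0, 3]), (4, [], [5])]),
  (0, 0, 1, [(0, [1], [2, 5]), (0, [0], [1, 0]), (0, [2], [3, 4]), (4, [], [5])]),
  (0, 0, 1, [(0, [1], [2, 5]), (0, [0], [3, 4]), (0, [2], [1, 0]), (4, [], [5])]),
  (0, 0, 1, [(0, [1], [3, 5]), (0, [0], [0, 4]), (0, [2], [1, 2]), (4, [], [5])]),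
  (0, 0, 1, [(0, [1], [3, 5]), (0, [0], [1, 2]), (0, [2], [0, 4]), (4, [], [5])]),
  (0, 0, 1, [(0, [1], [4, 5]), (0, [0], [0, 3]), (0, [2], [1, 2]), (4, [], [5])]),
  (0, 0, 1, [(0, [1], [4, 5]), (0, [0], [1, 2]), (0, [2], [0, 3]), (4, [], [5])]),
  (0, 0, 1, [(0, [2], [0, 5]), (0, [0], [1, 2]), (0, [1], [3, 4]), (4, [], [5])]),
  (0, 0, 1, [(0, [2], [0, 5]), (0, [0], [3, 4]), (0, [1], [1, 2]), (4, [], [5])]),
  (0, 0, 1, [(0, [2], [1, 5]), (0, [0], [0, 3]), (0, [1], [2, 4]), (4, [], [5])]),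
  (0, 0, 1, [(0, [2], [1, 5]), (0, [0], [0, 4]), (0, [1], [2, 3]), (4, [], [5])]),
  (0, 0, 1, [(0, [2], [1, 5]), (0, [0], [2, 3]), (0, [1], [0, 4]), (4, [], [5])]),
  (0, 0, 1, [(0, [2], [1, 5]), (0, [0], [2, 4]), (0, [1], [0, 3]), (4, [], [5])]),
  (0, 0, 1, [(0, [2], [1, 5]), (0, [0], [2, 0]), (0, [1], [3, 4]), (4, [], [5])]),
  (0, 0, 1, [(0, [2], [1, 5]), (0, [0], [3, 4]), (0, [1], [2, 0]), (4, [], [5])]),
  (0, 0, 1, [(0, [2], [2, 5]), (0, [0], [0, 3]), (0, [1], [1, 4]), (4, [], [5])]),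
  (0, 0, 1, [(0, [2], [2, 5]), (0, [0], [0, 4]), (0, [1], [1, 3]), (4, [], [5])]),
  (0, 0, 1, [(0, [2], [2, 5]), (0, [0], [1, 3]), (0, [1], [0, 4]), (4, [], [5])]),
  (0, 0, 1, [(0, [2], [2, 5]), (0, [0], [1, 4]), (0, [1], [0, 3]), (4, [], [5])]),
  (0, 0, 1, [(0, [2], [2, 5]), (0, [0], [1, 0]), (0, [1], [3, 4]), (4, [], [5])]),
  (0, 0, 1, [(0, [2], [2, 5]), (0, [0], [3, 4]), (0, [1], [1, 0]), (4, [], [5])]),
  (0, 0, 1, [(0, [2], [3, 5]), (0, [0], [0, 4]), (0, [1], [1, 2]), (4, [], [5])]),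
  (0, 0, 1, [(0, [2], [3, 5]), (0, [0], [1, 2]), (0, [1], [0, 4]), (4, [], [5])]),
  (0, 0, 1, [(0, [2], [4, 5]), (0, [0], [0, 3]), (0, [1], [1, 2]), (4, [], [5])]),
  (0, 0, 1, [(0, [2], [4, 5]), (0, [0], [1, 2]), (0, [1], [0, 3]), (4, [], [5])])]

def w31_2 : List (List Wit) := [[(0, 0, 0, 0, 0), (1, 0, 0, 0, 0), (36, 0, 0, 0, 0), (1, 0, 0, 0, 0), (36, 0, 0, 0, 0), (0, 0, 0, 0, 0), (2, 0, 0, 0, 0), (3, 0, 0, 0, 0), (36, 0, 0, 0, 0), (3, 0, 0, 0, 0), (36, 0, 0, 0, 0), (2, 0, 0, 0, 0), (2, 0, 0, 0, 0), (37, 0, 0, 0, 0), (0, 0, 0, 0, 0), (37, 0, 0, 0, 0), (3, 0, 0, 0, 0), (37, 0, 0, 0, 0), (1, 0, 0, 0, 0), (37, 0, 0, 0, 0), (38, 0, 0, 0, 0), (39, 0, 0, 0, 0), (40, 0, 0, 0, 0), (41, 0, 0, 0, 0), (42, 0, 0, 0, 0), (41, 0, 0, 0, 0), (42, 0, 0, 0, 0), (40, 0, 0, 0, 0), (38, 0, 0, 0, 0), (43, 0, 0, 0, 0), (39, 0, 0, 0, 0), (43, 0, 0, 0, 0),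 (44, 0, 0, 0, 0), (45, 0, 0, 0, 0), (46, 0, 0, 0, 0), (47, 0, 0, 0, 0), (48, 0, 0, 0, 0), (47, 0, 0, 0, 0), (48, 0, 0, 0, 0), (46, 0, 0, 0, 0), (44, 0, 0, 0, 0), (49, 0, 0, 0, 0), (45, 0, 0, 0, 0), (49, 0, 0, 0, 0), (4, 0, 0, 0, 0), (50, 0, 0, 0, 0), (5, 0, 0, 0, 0), (50, 0, 0, 0, 0), (51, 0, 0, 0, 0), (6, 0, 0, 0, 0), (5, 0, 0, 0, 0), (6, 0, 0, 0, 0), (5, 0, 0, 0, 0), (51, 0, 0, 0, 0), (51, 0, 0, 0, 0), (7, 0, 0, 0, 0), (4, 0, 0, 0, 0), (7, 0, 0, 0, 0), (4, 0, 0, 0, 0), (51, 0, 0, 0, 0), (50, 0, 0, 0, 0), (7, 0, 0, 0, 0), (50, 0, 0, 0, 0), (6, 0, 0, 0, 0), (8, 0, 0, 0, 0), (52, 0, 0, 0, 0), (9, 0, 0, 0, 0), (52, 0, 0, 0, 0), (53, 0, 0, 0, 0), (10, 0, 0, 0, 0), (9, 0, 0, 0, 0), (10, 0, 0, 0, 0), (9, 0, 0, 0, 0), (53, 0, 0, 0, 0), (53, 0, 0, 0, 0), (11, 0, 0, 0, 0), (8, 0, 0, 0, 0), (11, 0, 0, 0, 0), (8, 0, 0, 0, 0), (53, 0, 0, 0, 0), (52,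 0, 0, 0, 0), (11, 0, 0, 0, 0), (52, 0, 0, 0, 0), (10, 0, 0, 0, 0)],
  [(3, 0, 0, 0, 0), (2, 0, 0, 0, 0), (37, 0, 0, 0, 0), (2, 0, 0, 0, 0), (37, 0, 0, 0, 0), (3, 0, 0, 0, 0), (1, 0, 0, 0, 0), (0, 0, 0, 0, 0), (37, 0, 0, 0, 0), (0, 0, 0, 0, 0), (37, 0, 0, 0, 0), (1, 0, 0, 0, 0), (1, 0, 0, 0, 0), (36, 0, 0, 0, 0), (3, 0, 0, 0, 0), (36, 0, 0, 0, 0), (0, 0, 0, 0, 0), (36, 0, 0, 0, 0), (2, 0, 0, 0, 0), (36, 0, 0, 0, 0), (41, 0, 0, 0, 0), (40, 0, 0, 0, 0), (39, 0, 0, 0, 0), (38, 0, 0, 0, 0), (43, 0, 0, 0, 0), (38, 0, 0, 0, 0), (43, 0, 0, 0, 0), (39, 0, 0, 0, 0), (41, 0, 0, 0, 0), (42, 0, 0, 0, 0), (40, 0, 0, 0, 0), (42, 0, 0, 0, 0), (47, 0, 0, 0, 0), (46, 0, 0, 0, 0), (45, 0, 0, 0, 0), (44, 0, 0, 0, 0), (49, 0, 0, 0, 0), (44, 0, 0, 0, 0), (49, 0, 0, 0, 0), (45, 0, 0, 0, 0), (47, 0, 0, 0, 0), (48, 0, 0, 0, 0), (46, 0, 0, 0, 0), (48, 0, 0, 0,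 0), (6, 0, 0, 0, 0), (51, 0, 0, 0, 0), (7, 0, 0, 0, 0), (51, 0, 0, 0, 0), (50, 0, 0, 0, 0), (4, 0, 0, 0, 0), (7, 0, 0, 0, 0), (4, 0, 0, 0, 0), (7, 0, 0, 0, 0), (50, 0, 0, 0, 0), (50, 0, 0, 0, 0), (5, 0, 0, 0, 0), (6, 0, 0, 0, 0), (5, 0, 0, 0, 0), (6, 0, 0, 0, 0), (50, 0, 0, 0, 0), (51, 0, 0, 0, 0), (5, 0, 0, 0, 0), (51, 0, 0, 0, 0), (4, 0, 0, 0, 0), (10, 0, 0, 0, 0), (53, 0, 0, 0, 0), (11, 0, 0, 0, 0), (53, 0, 0, 0, 0), (52, 0, 0, 0, 0), (8, 0, 0, 0, 0), (11, 0, 0, 0, 0), (8, 0, 0, 0, 0), (11, 0, 0, 0, 0), (52, 0, 0, 0, 0), (52, 0, 0, 0, 0), (9, 0, 0, 0, 0), (10, 0, 0, 0, 0), (9, 0, 0, 0, 0), (10, 0, 0, 0, 0), (52, 0, 0, 0, 0), (53, 0, 0, 0, 0), (9, 0, 0, 0, 0), (53, 0, 0, 0, 0), (8, 0, 0, 0, 0)],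
  [(12, 0, 0, 0, 0), (13, 0, 0, 0, 0), (54, 0, 0, 0, 0), (13, 0, 0, 0, 0), (54, 0, 0, 0, 0), (12, 0, 0, 0, 0), (14, 0, 0, 0, 0), (15, 0, 0, 0, 0), (54, 0, 0, 0, 0), (15, 0, 0, 0, 0), (54, 0, 0, 0, 0), (14, 0, 0, 0, 0), (14, 0, 0, 0, 0), (55, 0, 0, 0, 0), (12, 0, 0, 0, 0), (55, 0, 0, 0, 0), (15, 0, 0, 0, 0), (55, 0, 0, 0, 0), (13, 0, 0, 0, 0), (55, 0, 0, 0, 0), (56, 0, 0, 0, 0), (57, 0, 0, 0, 0), (58, 0, 0, 0, 0), (59, 0, 0, 0, 0), (60, 0, 0, 0, 0), (59, 0, 0, 0, 0), (60, 0, 0, 0, 0), (58, 0, 0, 0, 0), (56, 0, 0, 0, 0), (61, 0, 0, 0, 0), (57, 0, 0, 0, 0), (61, 0, 0, 0, 0), (62, 0, 0, 0, 0), (63, 0, 0, 0, 0), (64, 0, 0, 0, 0), (65, 0, 0, 0, 0), (66, 0, 0, 0, 0), (65, 0, 0, 0, 0), (66, 0, 0, 0, 0), (64, 0, 0, 0, 0), (62, 0, 0, 0, 0), (67, 0, 0, 0, 0), (63, 0, 0, 0, 0), (67, 0, 0, 0, 0), (16, 0, 0, 0, 0), (68, 0, 0, 0, 0), (17, 0, 0, 0, 0),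 (68, 0, 0, 0, 0), (69, 0, 0, 0, 0), (18, 0, 0, 0, 0), (17, 0, 0, 0, 0), (18, 0, 0, 0, 0), (17, 0, 0, 0, 0), (69, 0, 0, 0, 0), (69, 0, 0, 0, 0), (19, 0, 0, 0, 0), (16, 0, 0, 0, 0), (19, 0, 0, 0, 0), (16, 0, 0, 0, 0), (69, 0, 0, 0, 0), (68, 0, 0, 0, 0), (19, 0, 0, 0, 0), (68, 0, 0, 0, 0), (18, 0, 0, 0, 0), (20, 0, 0, 0, 0), (70, 0, 0, 0, 0), (21, 0, 0, 0, 0), (70, 0, 0, 0, 0), (71, 0, 0, 0, 0), (22, 0, 0, 0, 0), (21, 0, 0, 0, 0), (22, 0, 0, 0, 0), (21, 0, 0, 0, 0), (71, 0, 0, 0, 0), (71, 0, 0, 0, 0), (23, 0, 0, 0, 0), (20, 0, 0, 0, 0), (23, 0, 0, 0, 0), (20, 0, 0, 0, 0), (71, 0, 0, 0, 0), (70, 0, 0, 0, 0), (23, 0, 0, 0, 0), (70, 0, 0, 0, 0), (22, 0, 0, 0, 0)],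
  [(15, 0, 0, 0, 0), (14, 0, 0, 0, 0), (55, 0, 0, 0, 0), (14, 0, 0, 0, 0), (55, 0, 0, 0, 0), (15, 0, 0, 0, 0), (13, 0, 0, 0, 0), (12, 0, 0, 0, 0), (55, 0, 0, 0, 0), (12, 0, 0, 0, 0), (55, 0, 0, 0, 0), (13, 0, 0, 0, 0), (13, 0, 0, 0, 0), (54, 0, 0, 0, 0), (15, 0, 0, 0, 0), (54, 0, 0, 0, 0), (12, 0, 0, 0, 0), (54, 0, 0, 0, 0), (14, 0, 0, 0, 0), (54, 0, 0, 0, 0), (59, 0, 0, 0, 0), (58, 0, 0, 0, 0), (57, 0, 0, 0, 0), (56, 0, 0, 0, 0), (61, 0, 0, 0, 0), (56, 0, 0, 0, 0), (61, 0, 0, 0, 0), (57, 0, 0, 0, 0), (59, 0, 0, 0, 0), (60, 0, 0, 0, 0), (58, 0, 0, 0, 0), (60, 0, 0, 0, 0), (65, 0, 0, 0, 0), (64, 0, 0, 0, 0), (63, 0, 0, 0, 0), (62, 0, 0, 0, 0), (67, 0, 0, 0, 0), (62, 0, 0, 0, 0), (67, 0, 0, 0, 0), (63, 0, 0, 0, 0), (65, 0, 0, 0, 0), (66, 0, 0, 0, 0), (64, 0, 0, 0, 0), (66, 0, 0, 0, 0), (18, 0, 0, 0, 0), (69, 0, 0, 0, 0), (19, 0, 0, 0, 0),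 (69, 0, 0, 0, 0), (68, 0, 0, 0, 0), (16, 0, 0, 0, 0), (19, 0, 0, 0, 0), (16, 0, 0, 0, 0), (19, 0, 0, 0, 0), (68, 0, 0, 0, 0), (68, 0, 0, 0, 0), (17, 0, 0, 0, 0), (18, 0, 0, 0, 0), (17, 0, 0, 0, 0), (18, 0, 0, 0, 0), (68, 0, 0, 0, 0), (69, 0, 0, 0, 0), (17, 0, 0, 0, 0), (69, 0, 0, 0, 0), (16, 0, 0, 0, 0), (22, 0, 0, 0, 0), (71, 0, 0, 0, 0), (23, 0, 0, 0, 0), (71, 0, 0, 0, 0), (70, 0, 0, 0, 0), (20, 0, 0, 0, 0), (23, 0, 0, 0, 0), (20, 0, 0, 0, 0), (23, 0, 0, 0, 0), (70, 0, 0, 0, 0), (70, 0, 0, 0, 0), (21, 0, 0, 0, 0), (22, 0, 0, 0, 0), (21, 0, 0, 0, 0), (22, 0, 0, 0, 0), (70, 0, 0, 0, 0), (71, 0, 0, 0, 0), (21, 0, 0, 0, 0), (71, 0, 0, 0, 0), (20, 0, 0, 0, 0)],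
  [(24, 0, 0, 0, 0), (25, 0, 0, 0, 0), (72, 0, 0, 0, 0), (25, 0, 0, 0, 0), (72, 0, 0, 0, 0), (24, 0, 0, 0, 0), (26, 0, 0, 0, 0), (27, 0, 0, 0, 0), (72, 0, 0, 0, 0), (27, 0, 0, 0, 0), (72, 0, 0, 0, 0), (26, 0, 0, 0, 0), (26, 0, 0, 0, 0), (73, 0, 0, 0, 0), (24, 0, 0, 0, 0), (73, 0, 0, 0, 0), (27, 0, 0, 0, 0), (73, 0, 0, 0, 0), (25, 0, 0, 0, 0), (73, 0, 0, 0, 0), (74, 0, 0, 0, 0), (75, 0, 0, 0, 0), (76, 0, 0, 0, 0), (77, 0, 0, 0, 0), (78, 0, 0, 0, 0), (77, 0, 0, 0, 0), (78, 0, 0, 0, 0), (76, 0, 0, 0, 0), (74, 0, 0, 0, 0), (79, 0, 0, 0, 0), (75, 0, 0, 0, 0), (79, 0, 0, 0, 0), (80, 0, 0, 0, 0), (81, 0, 0, 0, 0), (82, 0, 0, 0, 0), (83, 0, 0, 0, 0), (84, 0, 0, 0, 0), (83, 0, 0, 0, 0), (84, 0, 0, 0, 0), (82, 0, 0, 0, 0), (80, 0, 0, 0, 0), (85, 0, 0, 0, 0), (81, 0, 0, 0, 0), (85, 0, 0, 0, 0), (28, 0, 0, 0, 0), (86, 0, 0, 0, 0), (29, 0, 0, 0, 0),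 (86, 0, 0, 0, 0), (87, 0, 0, 0, 0), (30, 0, 0, 0, 0), (29, 0, 0, 0, 0), (30, 0, 0, 0, 0), (29, 0, 0, 0, 0), (87, 0, 0, 0, 0), (87, 0, 0, 0, 0), (31, 0, 0, 0, 0), (28, 0, 0, 0, 0), (31, 0, 0, 0, 0), (28, 0, 0, 0, 0), (87, 0, 0, 0, 0), (86, 0, 0, 0, 0), (31, 0, 0, 0, 0), (86, 0, 0, 0, 0), (30, 0, 0, 0, 0), (32, 0, 0, 0, 0), (88, 0, 0, 0, 0), (33, 0, 0, 0, 0), (88, 0, 0, 0, 0), (89, 0, 0, 0, 0), (34, 0, 0, 0, 0), (33, 0, 0, 0, 0), (34, 0, 0, 0, 0), (33, 0, 0, 0, 0), (89, 0, 0, 0, 0), (89, 0, 0, 0, 0), (35, 0, 0, 0, 0), (32, 0, 0, 0, 0), (35, 0, 0, 0, 0), (32, 0, 0, 0, 0), (89, 0, 0, 0, 0), (88, 0, 0, 0, 0), (35, 0, 0, 0, 0), (88, 0, 0, 0, 0), (34, 0, 0, 0, 0)],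
  [(27, 0, 0, 0, 0), (26, 0, 0, 0, 0), (73, 0, 0, 0, 0), (26, 0, 0, 0, 0), (73, 0, 0, 0, 0), (27, 0, 0, 0, 0), (25, 0, 0, 0, 0), (24, 0, 0, 0, 0), (73, 0, 0, 0, 0), (24, 0, 0, 0, 0), (73, 0, 0, 0, 0), (25, 0, 0, 0, 0), (25, 0, 0, 0, 0), (72, 0, 0, 0, 0), (27, 0, 0, 0, 0), (72, 0, 0, 0, 0), (24, 0, 0, 0, 0), (72, 0, 0, 0, 0), (26, 0, 0, 0, 0), (72, 0, 0, 0, 0), (77, 0, 0, 0, 0), (76, 0, 0, 0, 0), (75, 0, 0, 0, 0), (74, 0, 0, 0, 0), (79, 0, 0, 0, 0), (74, 0, 0, 0, 0), (79, 0, 0, 0, 0), (75, 0, 0, 0, 0), (77, 0, 0, 0, 0), (78, 0, 0, 0, 0), (76, 0, 0, 0, 0), (78, 0, 0, 0, 0), (83, 0, 0, 0, 0), (82, 0, 0, 0, 0), (81, 0, 0, 0, 0), (80, 0, 0, 0, 0), (85, 0, 0, 0, 0), (80, 0, 0, 0, 0), (85, 0, 0, 0, 0), (81, 0, 0, 0, 0), (83, 0, 0, 0, 0), (84, 0, 0, 0, 0), (82, 0, 0, 0, 0), (84, 0, 0, 0, 0), (30, 0, 0, 0, 0), (87, 0, 0, 0, 0), (31, 0, 0, 0, 0),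 (87, 0, 0, 0, 0), (86, 0, 0, 0, 0), (28, 0, 0, 0, 0), (31, 0, 0, 0, 0), (28, 0, 0, 0, 0), (31, 0, 0, 0, 0), (86, 0, 0, 0, 0), (86, 0, 0, 0, 0), (29, 0, 0, 0, 0), (30, 0, 0, 0, 0), (29, 0, 0, 0, 0), (30, 0, 0, 0, 0), (86, 0, 0, 0, 0), (87, 0, 0, 0, 0), (29, 0, 0, 0, 0), (87, 0, 0, 0, 0), (28, 0, 0, 0, 0), (34, 0, 0, 0, 0), (89, 0, 0, 0, 0), (35, 0, 0, 0, 0), (89, 0, 0, 0, 0), (88, 0, 0, 0, 0), (32, 0, 0, 0, 0), (35, 0, 0, 0, 0), (32, 0, 0, 0, 0), (35, 0, 0, 0, 0), (88, 0, 0, 0, 0), (88, 0, 0, 0, 0), (33, 0, 0, 0, 0), (34, 0, 0, 0, 0), (33, 0, 0, 0, 0), (34, 0, 0, 0, 0), (88, 0, 0, 0, 0), (89, 0, 0, 0, 0), (33, 0, 0, 0, 0), (89, 0, 0, 0, 0), (32, 0, 0, 0, 0)]]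

theorem tr31 : trK keys lk31 kl31 = true := by
  decide +kernel

theorem x31_0 : expB 3 5 dg3 dg7 m31_0 (l31_0 ++ z31_0) w31_0 = true := by
  decide +kernel

theorem x31_1 : expB 3 5 dg3 dg7 m31_1 (l31_1 ++ z31_1) w31_1 = true := by
  decide +kernel

theorem x31_2 : expB 3 5 dg3 dg7 m31_2 (l31_2 ++ z31_2) w31_2 = true := by
  decide +kernel

theorem t31_0_0 : chkS lk31 3 5 [(1, m31_0)] l31_0
  [(20, 33, 258, 103026771, 101975346), (24, 528, 528, 34891056, 52696656), (23, 528, 528, 34887216, 36968016), (27, 528, 528, 34891056, 52696656), (23, 528, 528, 34891056, 52696656), (27, 528, 528, 34887216, 36968016), (12, 18, 18, 55648356, 22045506), (12, 18, 18, 87429156, 73421106), (12, 18, 18, 87425316, 73421091), (14, 18, 18, 86380596, 73405746), (21, 33, 258, 87298146, 23351346), (33, 33, 258, 88215651, 23397426), (28, 18, 18, 55840866, 22306866),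 (11, 18, 18, 54599781, 17130306), (11, 33, 258, 70586466, 21385266), (13, 33, 258, 69537891, 21366066), (28, 33, 258, 55836966, 5529891), (39, 33, 258, 72552486, 5652786), (44, 528, 528, 51733056, 54616656), (41, 528, 528, 50684481, 54616581), (41, 33, 258, 73732131, 88473906), (29, 33, 258, 56951076, 88105251), (28, 33, 258, 55840806, 5529906), (39, 33, 258, 72548646, 5652771), (11, 33, 258, 54599766, 1401666), (23, 513, 513, 34891011, 52692561), (12, 33, 258, 55648326, 5333826), (44, 528, 528, 51717696, 37839696), (41, 528, 528, 50669121, 37839621), (41, 33, 258, 73728291, 88473891), (29, 33, 258, 56954916, 88105266), (27, 33, 258, 55840866, 22306866), (11, 18, 18, 70586406, 4608306), (11, 18, 18, 70582566, 4608291), (13, 18, 18, 69537846, 4592946), (12, 33, 258, 87429186, 73486386), (14, 33, 258, 86380611, 73467186), (41, 18, 18, 73732146,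 88477746), (27, 18, 18, 55836966, 5529891), (41, 18, 18, 73728306, 88477731), (27, 18, 18, 55840806, 5529906), (29, 18, 18, 56954946, 88170546), (25, 528, 528, 34891056, 52696656), (26, 528, 528, 34891056, 52696656), (22, 528, 528, 34891056, 52696656), (9, 33, 258, 40177731, 88147506), (22, 528, 528, 34887216, 36968016), (9, 33, 258, 40173891, 88147491), (19, 528, 528, 35013936, 69408336), (19, 288, 288, 19096896, 52512096), (19, 288, 288, 19093056, 36783456), (18, 18, 18, 38998116, 22038066), (35, 18, 18, 55840866, 22306866), (38, 18, 18, 55840866, 22306866), (28, 18, 18, 40108371, 85198371), (16, 528, 528, 33965361, 69408261), (39, 18, 18, 40046676, 84952626), (2, 528, 528, 19162371, 52692321), (28, 513, 513, 101983491, 103023441), (11, 513, 513, 102847491, 103941441), (4, 513, 513, 101926146, 102973521), (5, 33, 258, 40173891, 88147491),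 (7, 513, 513, 101929986, 103956561), (16, 33, 258, 5317446, 5317446), (28, 513, 513, 101995011, 104071761), (11, 513, 513, 102843651, 102958401), (39, 513, 513, 100880916, 103825941), (42, 513, 513, 85221891, 56885841), (40, 258, 33, 102842421, 100865346), (4, 513, 513, 101929986, 103956561), (5, 33, 258, 40177731, 88147506), (7, 513, 513, 101926146, 102973521), (16, 33, 258, 5321286, 5321286), (15, 513, 513, 67461651, 54919701), (16, 288, 288, 2188611, 52495686), (16, 288, 288, 2184771, 36767046), (2, 288, 288, 34825536, 52512336), (40, 18, 18, 40177716, 88086066), (34, 18, 18, 39063606, 5510706), (5, 513, 513, 101929986, 103956561), (19, 513, 513, 85337091, 73532241), (5, 513, 513, 101926146, 102973521), (19, 513, 513, 85344771, 73597521), (16, 513, 513, 84296211, 73597461), (35, 33, 258, 55840806, 5529906), (38, 33, 258, 55840806, 5529906),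 (28, 33, 258, 40112181, 84153906), (11, 18, 18, 40177731, 88147506), (28, 33, 258, 40108341, 84153891), (11, 18, 18, 40173891, 88147491), (16, 513, 513, 33965331, 69404181), (39, 33, 258, 40046661, 83969586), (39, 33, 258, 40042821, 83969571), (2, 513, 513, 19162416, 52696416), (25, 513, 513, 34891011, 52692561), (26, 513, 513, 34891011, 52692561), (22, 528, 528, 101995056, 104075856), (19, 513, 513, 35013891, 69404241), (19, 258, 33, 19096836, 52446561), (18, 33, 258, 38998086, 5326386), (42, 528, 528, 85206576, 40112976), (15, 18, 18, 56954946, 88170546), (4, 528, 528, 101926176, 102973776), (7, 18, 18, 40173891, 88147491), (7, 528, 528, 101930016, 103956816), (15, 528, 528, 67446321, 38146821), (42, 528, 528, 85221936, 56889936), (15, 18, 18, 56951106, 88170531), (40, 288, 288, 102842451, 101909826), (28, 528, 528, 101995056, 104075856),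 (39, 528, 528, 100880961, 103891461), (4, 528, 528, 101930016, 103956816), (7, 18, 18, 40177731, 88147506), (7, 528, 528, 101926176, 102973776), (15, 528, 528, 67461681, 54923781), (16, 18, 18, 5321316, 22032966), (40, 33, 258, 40177731, 88147506), (40, 33, 258, 40173891, 88147491), (34, 33, 258, 39063651, 22283826), (16, 258, 33, 2188596, 52434246), (2, 258, 33, 34825476, 52446801), (5, 528, 528, 101930016, 103956816), (16, 528, 528, 84288561, 73536261), (5, 528, 528, 101926176, 102973776), (16, 528, 528, 84296241, 73601541), (19, 528, 528, 85344816, 73601616)]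
  [(2, -144), (9, 360), (11, -864), (12, 144), (13, 72), (14, -72), (15, 1008), (16, -1152), (18, 72), (19, 504), (20, 216), (21, -216), (22, -288), (23, 288), (24, -216), (25, -432), (26, 432), (27, -1008), (28, 288), (29, 648), (33, 216), (34, 72), (35, 432), (38, -432), (39, 504), (40, -144), (42, -288), (44, 0)] = true := by
  decide +kernel

theorem t31_0_1 : chkS lk31 3 5 [(1, m31_0)] l31_1
  [(22, 528, 528, 34887216, 36968016), (19, 288, 288, 19096896, 52512096), (22, 528, 528, 34891056, 52696656), (19, 288, 288, 19093056, 36783456), (9, 33, 258, 40177731, 88147506), (9, 33, 258, 40173891, 88147491), (25, 528, 528, 34891056, 52696656), (18, 18, 18, 38998116, 22038066), (26, 528, 528, 34891056, 52696656), (19, 528, 528, 35013936, 69408336), (28, 18, 18, 40108371, 85198371), (39, 18, 18, 40046676, 84952626), (35, 18, 18, 55840866,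 22306866), (2, 528, 528, 19162371, 52692321), (38, 18, 18, 55840866, 22306866), (16, 528, 528, 33965361, 69408261), (4, 513, 513, 101926146, 102973521), (7, 513, 513, 101929986, 103956561), (28, 513, 513, 101983491, 103023441), (16, 33, 258, 5317446, 5317446), (11, 513, 513, 102847491, 103941441), (5, 33, 258, 40173891, 88147491), (4, 513, 513, 101929986, 103956561), (7, 513, 513, 101926146, 102973521), (42, 513, 513, 85221891, 56885841), (15, 513, 513, 67461651, 54919701), (28, 513, 513, 101995011, 104071761), (16, 33, 258, 5321286, 5321286), (11, 513, 513, 102843651, 102958401), (5, 33, 258, 40177731, 88147506), (39, 513, 513, 100880916, 103825941), (40, 258, 33, 102842421, 100865346), (5, 513, 513, 101929986, 103956561), (5, 513, 513, 101926146, 102973521), (40, 18, 18, 40177716, 88086066), (16, 513, 513, 84296211, 73597461), (16, 288,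 288, 2188611, 52495686), (19, 513, 513, 85344771, 73597521), (16, 288, 288, 2184771, 36767046), (19, 513, 513, 85337091, 73532241), (2, 288, 288, 34825536, 52512336), (34, 18, 18, 39063606, 5510706), (23, 528, 528, 34891056, 52696656), (12, 18, 18, 87429156, 73421106), (23, 528, 528, 34887216, 36968016), (12, 18, 18, 87425316, 73421091), (27, 528, 528, 34891056, 52696656), (27, 528, 528, 34887216, 36968016), (20, 33, 258, 103026771, 101975346), (14, 18, 18, 86380596, 73405746), (24, 528, 528, 34891056, 52696656), (12, 18, 18, 55648356, 22045506), (28, 18, 18, 55840866, 22306866), (11, 33, 258, 70586466, 21385266), (21, 33, 258, 87298146, 23351346), (13, 33, 258, 69537891, 21366066), (33, 33, 258, 88215651, 23397426), (11, 18, 18, 54599781, 17130306), (44, 528, 528, 51733056, 54616656), (41, 33, 258, 73732131, 88473906), (28, 33, 258, 55836966,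 5529891), (29, 33, 258, 56951076, 88105251), (39, 33, 258, 72552486, 5652786), (41, 528, 528, 50684481, 54616581), (44, 528, 528, 51717696, 37839696), (41, 33, 258, 73728291, 88473891), (23, 513, 513, 34891011, 52692561), (27, 33, 258, 55840866, 22306866), (28, 33, 258, 55840806, 5529906), (29, 33, 258, 56954916, 88105266), (39, 33, 258, 72548646, 5652771), (41, 528, 528, 50669121, 37839621), (11, 33, 258, 54599766, 1401666), (12, 33, 258, 55648326, 5333826), (41, 18, 18, 73732146, 88477746), (41, 18, 18, 73728306, 88477731), (12, 33, 258, 87429186, 73486386), (29, 18, 18, 56954946, 88170546), (11, 18, 18, 70586406, 4608306), (27, 18, 18, 55840806, 5529906), (11, 18, 18, 70582566, 4608291), (27, 18, 18, 55836966, 5529891), (13, 18, 18, 69537846, 4592946), (14, 33, 258, 86380611, 73467186), (28, 33, 258, 40108341, 84153891), (39, 33, 258,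 40046661, 83969586), (28, 33, 258, 40112181, 84153906), (39, 33, 258, 40042821, 83969571), (11, 18, 18, 40177731, 88147506), (11, 18, 18, 40173891, 88147491), (35, 33, 258, 55840806, 5529906), (2, 513, 513, 19162416, 52696416), (38, 33, 258, 55840806, 5529906), (16, 513, 513, 33965331, 69404181), (22, 528, 528, 101995056, 104075856), (19, 258, 33, 19096836, 52446561), (25, 513, 513, 34891011, 52692561), (18, 33, 258, 38998086, 5326386), (26, 513, 513, 34891011, 52692561), (19, 513, 513, 35013891, 69404241), (4, 528, 528, 101926176, 102973776), (7, 528, 528, 101930016, 103956816), (42, 528, 528, 85206576, 40112976), (15, 528, 528, 67446321, 38146821), (15, 18, 18, 56954946, 88170546), (7, 18, 18, 40173891, 88147491), (4, 528, 528, 101930016, 103956816), (7, 528, 528, 101926176, 102973776), (28, 528, 528, 101995056, 104075856), (16, 18,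 18, 5321316, 22032966), (42, 528, 528, 85221936, 56889936), (15, 528, 528, 67461681, 54923781), (15, 18, 18, 56951106, 88170531), (7, 18, 18, 40177731, 88147506), (40, 288, 288, 102842451, 101909826), (39, 528, 528, 100880961, 103891461), (5, 528, 528, 101930016, 103956816), (5, 528, 528, 101926176, 102973776), (16, 258, 33, 2188596, 52434246), (19, 528, 528, 85344816, 73601616), (40, 33, 258, 40177731, 88147506), (16, 528, 528, 84296241, 73601541), (40, 33, 258, 40173891, 88147491), (16, 528, 528, 84288561, 73536261), (34, 33, 258, 39063651, 22283826), (2, 258, 33, 34825476, 52446801)]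
  [(2, 1152), (11, -288), (12, 288), (13, -576), (14, 576), (15, -864), (16, 2016), (18, -576), (19, -1152), (20, -288), (21, 288), (22, 864), (23, -864), (24, 288), (25, 576), (26, -576), (27, 864), (28, -864), (29, -864), (33, -288), (34, -576), (35, -576), (38, 576), (39, 288), (40, -288), (42, 864), (44, 0)] = true := by
  decide +kernel

theorem t31_0_2 : chkS lk31 3 5 [(1, m31_0)] l31_2
  [(9, 528, 528, 19227696, 54662496), (10, 528, 528, 19289136, 70391136), (3, 258, 33, 101860101, 100869201), (12, 528, 528, 19285296, 69408096), (40, 18, 18, 88154886, 6628161), (5, 513, 513, 51733506, 54681681), (12, 513, 513, 102847491, 103941441), (41, 288, 288, 19203171, 21103971), (31, 18, 18, 90439971, 90439971), (6, 513, 513, 51794946, 70410321), (30, 18, 18, 90443826, 90443826), (36, 18, 18, 90443826, 90443826), (11, 33, 258, 90251316, 90182466),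 (13, 18, 18, 56954946, 88170546), (2, 513, 513, 50619666, 52715541), (16, 513, 513, 20333856, 69423456), (29, 528, 528, 68510256, 54923856), (5, 528, 528, 51733536, 54681936), (16, 528, 528, 103896066, 103960641), (41, 258, 33, 19203126, 4330851), (30, 33, 258, 90439971, 90439971), (6, 528, 528, 51794976, 70410576), (31, 33, 258, 90443826, 90443826), (36, 33, 258, 90443811, 90439986), (40, 33, 258, 21312096, 21312096), (2, 528, 528, 67331361, 52838661), (3, 288, 288, 35013456, 68363856), (29, 513, 513, 85206531, 40108881), (9, 33, 258, 23396931, 88146531), (5, 528, 528, 85149216, 40059216), (11, 18, 18, 23396931, 88146531), (5, 513, 513, 85149186, 40058961), (30, 528, 528, 85221936, 56889936), (8, 528, 528, 51794976, 70410576), (43, 528, 528, 87295506, 40128531), (8, 513, 513, 51794946, 70410321)]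
  [(2, -1440), (3, 1440), (10, -720), (13, 720), (30, -720), (31, 1440), (43, -720)] = true := by
  decide +kernel

theorem t31_1_1 : chkS lk31 3 5 [(1, m31_1)] l31_1
  [(20, 513, 513, 103043331, 104072481), (14, 258, 33, 86388996, 73413921), (23, 288, 288, 34879056, 34879056), (12, 258, 33, 87433476, 73421601), (12, 258, 33, 55665156, 55599681), (24, 288, 288, 34879056, 34879056), (23, 288, 288, 34878816, 19150416), (12, 258, 33, 87433236, 73421586), (12, 258, 33, 55664676, 55599426), (24, 288, 288, 34878816, 19150416), (23, 513, 513, 56905746, 87318546), (27, 513, 513, 55861266, 55861266), (28, 513, 513, 55844886, 5530386), (29, 513, 513, 56958996, 88105746), (11, 513, 513, 54612006, 3498306), (12, 513, 513, 55656486, 5464386), (23, 513, 513, 56905986, 87318561), (27, 513, 513, 55861506, 55861281), (28, 513, 513, 55845126, 5530401),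 (29, 513, 513, 56959236, 88105761), (11, 513, 513, 54612486, 3498561), (12, 513, 513, 55656966, 5464641), (28, 258, 33, 55861506, 55861281), (11, 513, 513, 70607106, 54939681), (28, 258, 33, 55861266, 55861266), (11, 513, 513, 70606866, 54939666), (21, 513, 513, 87318786, 56905761), (13, 513, 513, 69558531, 54920481), (33, 513, 513, 88236291, 56951841), (11, 258, 33, 54616581, 50684481), (33, 513, 513, 88236051, 56951826), (11, 258, 33, 54616101, 50684226), (29, 258, 33, 56967426, 88301601), (12, 513, 513, 87441666, 73617441), (29, 258, 33, 56967186, 88301586), (12, 513, 513, 87441426, 73617426), (13, 258, 33, 69546246, 4601121), (14, 513, 513, 86393091, 73598241), (11, 258, 33, 70590726, 4608801), (27, 258, 33, 55845126, 5530401), (11, 258, 33, 70590486, 4608786), (27, 258, 33, 55844886, 5530386), (25, 288, 288, 34879056, 34879056), (18,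 258, 33, 39018756, 55592481), (22, 288, 288, 34878816, 19150416), (19, 528, 528, 19088976, 34817376), (19, 288, 288, 35009616, 68302416), (26, 288, 288, 34879056, 34879056), (22, 288, 288, 34879056, 34879056), (19, 528, 528, 19088736, 19088736), (19, 288, 288, 35009856, 69285456), (26, 288, 288, 34878816, 19150416), (42, 513, 513, 56893461, 84173586), (15, 33, 258, 67441251, 21365301), (28, 33, 258, 101974611, 101974611), (16, 513, 513, 5325366, 5444166), (39, 33, 258, 100864596, 101728821), (40, 18, 18, 102838341, 100742466), (42, 513, 513, 56893701, 84173601), (15, 33, 258, 67442211, 38142261), (28, 33, 258, 101975331, 103022931), (16, 513, 513, 5325606, 5448006), (39, 33, 258, 100865316, 102777141), (40, 18, 18, 102839301, 100808001), (28, 258, 33, 40128531, 87295506), (39, 258, 33, 40063236, 87049761), (28, 258, 33, 40128771, 87295521),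 (39, 258, 33, 40062996, 87049746), (35, 258, 33, 55861506, 55861281), (2, 288, 288, 19138131, 34866531), (38, 258, 33, 55861506, 55861281), (16, 288, 288, 33961041, 68302341), (38, 258, 33, 55861266, 55861266), (16, 288, 288, 33961281, 69285381), (16, 33, 258, 84284451, 73531701), (40, 258, 33, 40186116, 88094241), (16, 33, 258, 84283971, 73466421), (40, 258, 33, 40185876, 88094226), (2, 528, 528, 34817616, 34817616), (34, 258, 33, 39072006, 5518881), (16, 528, 528, 2180691, 34800966), (19, 33, 258, 85328931, 73531731), (16, 528, 528, 2180451, 19072326), (19, 33, 258, 85328451, 73466451), (25, 33, 258, 34866771, 34866771), (34, 513, 513, 39084291, 55838241), (42, 288, 288, 85210656, 40120656), (40, 513, 513, 40190211, 88278561), (40, 528, 528, 102847491, 103941441), (26, 33, 258, 34866771, 34866771), (42, 288, 288, 85209696, 23343696),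 (40, 513, 513, 40189971, 88278546), (40, 528, 528, 102846531, 103875906), (26, 33, 258, 34866531, 19138131), (22, 288, 288, 101986896, 101986896), (19, 288, 288, 85340736, 73478736), (28, 513, 513, 40120581, 84162081), (16, 288, 288, 84292161, 73478661), (16, 33, 258, 33953091, 69273141), (19, 513, 513, 39010566, 5457441), (22, 288, 288, 101987616, 103035216), (19, 288, 288, 85341216, 73544016), (28, 513, 513, 40120341, 84162066), (16, 288, 288, 84292641, 73543941), (16, 33, 258, 33952851, 68290101), (19, 513, 513, 39010326, 5457426), (28, 288, 288, 101987616, 103035216), (16, 18, 18, 2176596, 34616646), (28, 288, 288, 101986896, 101986896), (16, 18, 18, 2176356, 18888006), (35, 513, 513, 55845126, 5530401), (2, 18, 18, 34801236, 34621011), (38, 513, 513, 55845126, 5530401), (39, 288, 288, 100877601, 102973701), (38, 513, 513, 55844886,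 5530386), (39, 288, 288, 100876881, 101925381), (16, 258, 33, 5333796, 55583046), (19, 528, 528, 86393616, 73606416), (16, 258, 33, 5333556, 55579206), (19, 528, 528, 86393136, 73602336), (2, 33, 258, 19150416, 34878816), (18, 513, 513, 39010566, 5457441), (39, 513, 513, 40059141, 84100641), (15, 288, 288, 67450401, 38154501), (39, 513, 513, 40058901, 84100626), (15, 288, 288, 67449441, 21377541)]
  [(2, -3456), (11, 2304), (12, -2304), (13, 1728), (14, -1728), (15, 1152), (16, -4608), (18, 1728), (19, 3456), (20, 864), (21, -864), (22, -1152), (23, 1152), (24, 576), (25, -1728), (26, -1152), (27, -1152), (28, 1152), (29, 1152), (33, -576), (34, 1728), (35, 1728), (38, 1152), (39, -2304), (40, 2304), (42, -1152)] = true := by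
  decide +kernel

theorem t31_1_2 : chkS lk31 3 5 [(1, m31_1)] l31_2
  [(12, 288, 288, 19281216, 69285216), (9, 288, 288, 19215936, 37827936), (12, 288, 288, 19280976, 68302176), (9, 288, 288, 19215456, 21116256), (16, 288, 288, 20317266, 68309091), (16, 288, 288, 20317506, 69292131), (11, 258, 33, 90259971, 90374721), (11, 258, 33, 90259491, 90374466), (30, 258, 33, 90451986, 90451986), (30, 258, 33, 90452226, 90452001), (31, 258, 33, 90448131, 90440481), (31, 258, 33, 90447891, 90440466), (40, 513, 513, 21324336, 54858336), (29, 33, 258, 85197411, 23331411), (40, 513, 513, 21324576, 54862176), (29, 33, 258, 85198371, 40108371), (29, 288, 288, 85209696, 23343696), (29, 288, 288, 85210656, 40120656), (40, 258, 33, 21300006, 4530531), (40, 258, 33, 21299766, 4526691), (30, 288, 288, 85209696, 23343696), (30, 288, 288, 85210656, 40120656),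 (43, 288, 288, 87299586, 40128561), (43, 288, 288, 87298146, 23351346), (11, 513, 513, 90255396, 90190146), (16, 33, 258, 20325456, 68309856), (11, 513, 513, 90255876, 90190401), (16, 33, 258, 20325696, 69292896), (9, 33, 258, 19203651, 37815651), (9, 33, 258, 19203171, 21103971), (12, 33, 258, 19268691, 68289891), (12, 33, 258, 19268931, 69272931), (30, 513, 513, 90448131, 90440481), (30, 513, 513, 90447891, 90440466), (31, 513, 513, 90451986, 90451986), (31, 513, 513, 90452226, 90452001)]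
  [(9, -2880), (11, 2880), (12, 2880), (16, -2880), (29, 2880), (30, 1440), (31, -2880), (40, -2880), (43, 1440)] = true := by
  decide +kernel

theorem t31_2_2 : chkS lk31 3 5 [(1, m31_2)] l31_2
  [(0, 258, 33, 106107396, 105923121), (24, 258, 33, 104993541, 101000241), (24, 258, 33, 105054741, 101007891), (32, 528, 528, 35013936, 69408336), (27, 18, 18, 104878371, 104136996), (14, 33, 258, 103895106, 103895106), (19, 513, 513, 56759301, 84042801), (34, 18, 18, 104943666, 104140866), (34, 258, 33, 105190146, 105193521), (19, 33, 258, 56696901, 83977026), (14, 513, 513, 104141826, 105009201), (27, 258, 33, 105185811, 105185811), (1, 33, 258, 70344786, 51793986), (26, 33, 258, 104931381, 100995906), (26, 33, 258, 104870181, 101003556), (17, 258, 33, 56955906, 88236081), (9, 288, 288, 85148256, 23282256), (10, 528, 528, 102052896, 105001296),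 (12, 513, 513, 23266341, 84033891), (3, 33, 258, 103043856, 104080656), (3, 18, 18, 39862581, 84088356), (12, 528, 528, 102052896, 105001296), (18, 513, 513, 56759301, 84042801), (37, 288, 288, 102048576, 104932176), (17, 18, 18, 56709186, 87121986), (26, 513, 513, 105054741, 101007891), (26, 513, 513, 104993541, 101000241), (1, 513, 513, 70653186, 69619761), (12, 288, 288, 101929536, 103891536), (3, 258, 33, 40108821, 84157971), (37, 528, 528, 101864496, 103945296), (18, 33, 258, 56696901, 83977026), (10, 288, 288, 101929536, 103891536), (9, 528, 528, 85210656, 40120656), (3, 513, 513, 103104816, 105059616), (12, 33, 258, 23081541, 83964516)]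
  [(0, 720), (1, -1440), (3, -2880), (9, 1440), (10, 1440), (12, -2880), (14, -1440), (17, 1440), (18, 1440), (19, 1440), (27, -1440), (32, -720), (34, 1440), (37, 1440)] = true := by
  decide +kernel

section

variable {κ ι : Type*} [Fintype κ] [Fintype ι] [Inhabited κ] [Inhabited ι]

noncomputable def F31_0 (E : Env κ ι) : (Fin 3 → κ) → (Fin 5 → ι) → ℝ := op2 (P3 κ) (P7 ι) (fB E 3 5 m31_0)

noncomputable def F31_1 (E : Env κ ι) : (Fin 3 → κ) → (Fin 5 → ι) → ℝ := op2 (P3 κ) (P7 ι) (fB E 3 5 m31_1)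

noncomputable def F31_2 (E : Env κ ι) : (Fin 3 → κ) → (Fin 5 → ι) → ℝ := op2 (P3 κ) (P7 ι) (fB E 3 5 m31_2)

def r31_0_0 : List (ℕ × ℤ) := [(2, -144), (9, 360), (11, -864), (12, 144), (13, 72), (14, -72), (15, 1008), (16, -1152), (18, 72), (19, 504), (20, 216), (21, -216), (22, -288), (23, 288), (24, -216), (25, -432), (26, 432), (27, -1008), (28, 288), (29, 648), (33, 216), (34, 72), (35, 432), (38, -432), (39, 504), (40, -144), (42, -288), (44, 0)]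

theorem h31_0_0 (E : Env κ ι) : ip (F31_0 E) (F31_0 E) = dotS (ek E lk31) r31_0_0 :=
  op_entryZ E lk31 3 5 _ _ _ _ (pg3 κ) (pg7 ι) m31_0 m31_0 l31_0 z31_0 w31_0 x31_0 (by decide) _ (chkS_sound E lk31 3 5 _ _ _ _ t31_0_0)

def r31_0_1 : List (ℕ × ℤ) := [(2, 1152), (11, -288), (12, 288), (13, -576), (14, 576), (15, -864), (16, 2016), (18, -576), (19, -1152), (20, -288), (21, 288), (22, 864), (23, -864), (24, 288), (25, 576), (26, -576), (27, 864), (28, -864), (29, -864), (33, -288), (34, -576), (35, -576), (38, 576), (39, 288), (40, -288), (42, 864), (44, 0)]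

theorem h31_0_1 (E : Env κ ι) : ip (F31_0 E) (F31_1 E) = dotS (ek E lk31) r31_0_1 :=
  op_entryZ E lk31 3 5 _ _ _ _ (pg3 κ) (pg7 ι) m31_0 m31_1 l31_1 z31_1 w31_1 x31_1 (by decide) _ (chkS_sound E lk31 3 5 _ _ _ _ t31_0_1)

def r31_0_2 : List (ℕ × ℤ) := [(2, -1440), (3, 1440), (10, -720), (13, 720), (30, -720), (31, 1440), (43, -720)]

theorem h31_0_2 (E : Env κ ι) : ip (F31_0 E) (F31_2 E) = dotS (ek E lk31) r31_0_2 :=
  op_entryZ E lk31 3 5 _ _ _ _ (pg3 κ) (pg7 ι) m31_0 m31_2 l31_2 z31_2 w31_2 x31_2 (by decide) _ (chkS_sound E lk31 3 5 _ _ _ _ t31_0_2)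

def r31_1_1 : List (ℕ × ℤ) := [(2, -3456), (11, 2304), (12, -2304), (13, 1728), (14, -1728), (15, 1152), (16, -4608), (18, 1728), (19, 3456), (20, 864), (21, -864), (22, -1152), (23, 1152), (24, 576), (25, -1728), (26, -1152), (27, -1152), (28, 1152), (29, 1152), (33, -576), (34, 1728), (35, 1728), (38, 1152), (39, -2304), (40, 2304), (42, -1152)]

theorem h31_1_1 (E : Env κ ι) : ip (F31_1 E) (F31_1 E) = dotS (ek E lk31) r31_1_1 :=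
  op_entryZ E lk31 3 5 _ _ _ _ (pg3 κ) (pg7 ι) m31_1 m31_1 l31_1 z31_1 w31_1 x31_1 (by decide) _ (chkS_sound E lk31 3 5 _ _ _ _ t31_1_1)

def r31_1_2 : List (ℕ × ℤ) := [(9, -2880), (11, 2880), (12, 2880), (16, -2880), (29, 2880), (30, 1440), (31, -2880), (40, -2880), (43, 1440)]

theorem h31_1_2 (E : Env κ ι) : ip (F31_1 E) (F31_2 E) = dotS (ek E lk31) r31_1_2 :=
  op_entryZ E lk31 3 5 _ _ _ _ (pg3 κ) (pg7 ι) m31_1 m31_2 l31_2 z31_2 w31_2 x31_2 (by decide) _ (chkS_sound E lk31 3 5 _ _ _ _ t31_1_2)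

def r31_2_2 : List (ℕ × ℤ) := [(0, 720), (1, -1440), (3, -2880), (9, 1440), (10, 1440), (12, -2880), (14, -1440), (17, 1440), (18, 1440), (19, 1440), (27, -1440), (32, -720), (34, 1440), (37, 1440)]

theorem h31_2_2 (E : Env κ ι) : ip (F31_2 E) (F31_2 E) = dotS (ek E lk31) r31_2_2 :=
  op_entryZ E lk31 3 5 _ _ _ _ (pg3 κ) (pg7 ι) m31_2 m31_2 l31_2 z31_2 w31_2 x31_2 (by decide) _ (chkS_sound E lk31 3 5 _ _ _ _ t31_2_2)

theorem row31_0 (E : Env κ ι) : RowG (ek E lk31) (F31_0 E) [F31_0 E, F31_1 E, F31_2 E] [r31_0_0, r31_0_1, r31_0_2] :=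
  rowG_cons _ _ _ _ _ _ (h31_0_0 E) (rowG_cons _ _ _ _ _ _ (h31_0_1 E) (rowG_cons _ _ _ _ _ _ (h31_0_2 E) (rowG_nil _ _)))

theorem row31_1 (E : Env κ ι) : RowG (ek E lk31) (F31_1 E) [F31_1 E, F31_2 E] [r31_1_1, r31_1_2] :=
  rowG_cons _ _ _ _ _ _ (h31_1_1 E) (rowG_cons _ _ _ _ _ _ (h31_1_2 E) (rowG_nil _ _))

theorem row31_2 (E : Env κ ι) : RowG (ek E lk31) (F31_2 E) [F31_2 E] [r31_2_2] :=
  rowG_cons _ _ _ _ _ _ (h31_2_2 E) (rowG_nil _ _)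

def tab31 : List (List (List (ℕ × ℤ))) := [[r31_0_0, r31_0_1, r31_0_2], [r31_1_1, r31_1_2], [r31_2_2]]

theorem tri31 (E : Env κ ι) : TriG (ek E lk31) [F31_0 E, F31_1 E, F31_2 E] tab31 := by
  refine triG_cons _ _ _ _ _ (row31_0 E) ?_
  refine triG_cons _ _ _ _ _ (row31_1 E) ?_
  refine triG_cons _ _ _ _ _ (row31_2 E) ?_
  exact triG_nil _

end

end YMBG
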