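import Pool.Agent.YM.BG.Ga0
import Pool.Agent.YM.BG.Ga1

set_option linter.unusedVariables false
set_option maxRecDepth 100000

open YMEng

namespace YMBG

def lk32 : List Key := [
  (3, 7, [(0, [0], [0, 1]), (0, [0], [0, 1]), (0, [1], [2, 3]), (0, [1], [2, 3]), (0, [2], [4, 5]), (0, [2], [4, 6]), (4, [], [6]), (4, [], [5])]),
  (3, 7, [(0, [0], [0, 1]), (0, [0], [0, 1]), (0, [1], [2, 3]), (0, [2], [2, 4]), (0, [2], [5, 6]), (0, [1], [5, 6]), (4, [], [4]), (4, [], [3])]),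
  (3, 7, [(0, [0], [0, 1]), (0, [1], [0, 2]), (0, [0], [2, 3]), (0, [2], [1, 4]), (0, [1], [5, 6]), (0, [2], [5, 6]), (4, [], [3]), (4, [], [4])]),
  (3, 7, [(0, [0], [0, 1]), (0, [1], [0, 2]), (0, [0], [3, 4]), (0, [1], [3, 4]), (0, [2], [1, 5]), (0, [2], [5, 6]), (4, [], [2]), (4, [], [6])]),
  (3, 7, [(0, [0], [0, 1]), (0, [0], [0, 2]), (0, [1], [1, 2]), (4, [], [3]), (0, [2], [4, 5]), (0, [2], [4, 6]), (0, [1], [5, 6]), (4, [], [3])]),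
  (3, 7, [(0, [0], [0, 1]), (0, [0], [0, 2]), (0, [1], [1, 2]), (4, [], [3]), (0, [2], [4, 5]), (0, [2], [4, 6]), (0, [1], [3, 6]), (4, [], [5])]),
  (3, 7, [(0, [0], [0, 1]), (0, [0], [0, 2]), (0, [1], [1, 2]), (4, [], [3]), (0, [2], [4, 5]), (0, [2], [4, 5]), (0, [1], [3, 6]), (4, [], [6])]),
  (3, 7, [(0, [0], [0, 1]), (0, [0], [0, 2]), (0, [1], [1, 2]), (4, [], [3]), (0, [2], [4, 5]), (0, [2], [3, 6]), (0, [1], [4, 6]), (4, [], [5])]),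
  (3, 7, [(0, [0], [0, 1]), (0, [0], [0, 2]), (0, [1], [1, 2]), (4, [], [3]), (0, [2], [4, 5]), (0, [2], [3, 6]), (0, [1], [4, 5]), (4, [], [6])]),
  (3, 7, [(0, [0], [0, 1]), (0, [0], [0, 2]), (0, [1], [3, 2]), (4, [], [1]), (0, [2], [4, 5]), (0, [2], [4, 6]), (0, [1], [3, 6]), (4, [], [5])]),
  (3, 7, [(0, [0], [0, 1]), (0, [0], [0, 2]), (0, [1], [3, 2]), (4, [], [1]), (0, [2], [4, 5]), (0, [2], [4, 5]), (0, [1], [3, 6]), (4, [], [6])]),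
  (3, 7, [(0, [0], [0, 1]), (0, [0], [0, 2]), (0, [1], [3, 2]), (4, [], [1]), (0, [2], [4, 5]), (0, [2], [3, 6]), (0, [1], [4, 6]), (4, [], [5])]),
  (3, 7, [(0, [0], [0, 1]), (0, [0], [0, 2]), (0, [1], [3, 2]), (4, [], [1]), (0, [2], [4, 5]), (0, [2], [3, 4]), (0, [1], [5, 6]), (4, [], [6])]),
  (3, 7, [(0, [0], [0, 1]), (0, [0], [0, 1]), (0, [1], [2, 3]), (4, [], [3]), (0, [2], [4, 5]), (0, [2], [2, 6]), (0, [1], [4, 6]), (4, [], [5])]),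
  (3, 7, [(0, [0], [0, 1]), (0, [0], [0, 1]), (0, [1], [2, 3]), (4, [], [3]), (0, [2], [4, 5]), (0, [2], [2, 4]), (0, [1], [5, 6]), (4, [], [6])]),
  (3, 7, [(0, [0], [0, 1]), (0, [0], [2, 3]), (0, [1], [0, 3]), (4, [], [1]), (0, [2], [4, 5]), (0, [2], [2, 6]), (0, [1], [4, 6]), (4, [], [5])]),
  (3, 7, [(0, [0], [0, 1]), (0, [0], [2, 3]), (0, [1], [0, 3]), (4, [], [1]), (0, [2], [4, 5]), (0, [2], [2, 4]), (0, [1], [5, 6]), (4, [], [6])]),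
  (3, 7, [(0, [0], [0, 1]), (0, [0], [2, 3]), (0, [1], [0, 1]), (4, [], [3]), (0, [2], [4, 5]), (0, [2], [2, 6]), (0, [1], [4, 5]), (4, [], [6])]),
  (3, 7, [(0, [0], [0, 1]), (0, [0], [2, 3]), (0, [1], [0, 1]), (4, [], [3]), (0, [2], [4, 5]), (0, [2], [2, 4]), (0, [1], [5, 6]), (4, [], [6])]),
  (3, 7, [(0, [0], [0, 1]), (0, [0], [2, 0]), (0, [1], [1, 3]), (4, [], [3]), (0, [2], [4, 5]), (0, [2], [2, 4]), (0, [1], [5, 6]), (4, [], [6])]),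
  (3, 7, [(0, [0], [0, 1]), (0, [0], [0, 1]), (0, [1], [2, 3]), (4, [], [4]), (0, [2], [5, 6]), (0, [2], [2, 5]), (0, [1], [3, 6]), (4, [], [4])]),
  (3, 7, [(0, [0], [0, 1]), (0, [0], [0, 1]), (0, [1], [2, 3]), (4, [], [4]), (0, [2], [2, 5]), (0, [2], [3, 6]), (0, [1], [5, 6]), (4, [], [4])]),
  (3, 7, [(0, [0], [0, 1]), (0, [0], [2, 0]), (0, [1], [3, 1]), (4, [], [4]), (0, [2], [5, 6]), (0, [2], [2, 5]), (0, [1], [3, 6]), (4, [], [4])]),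
  (3, 7, [(0, [0], [0, 1]), (0, [0], [2, 0]), (0, [1], [3, 1]), (4, [], [4]), (0, [2], [5, 6]), (0, [2], [3, 5]), (0, [1], [2, 6]), (4, [], [4])]),
  (3, 7, [(0, [0], [0, 1]), (0, [0], [2, 0]), (0, [1], [3, 1]), (4, [], [4]), (0, [2], [5, 6]), (0, [2], [4, 5]), (0, [1], [2, 3]), (4, [], [6])]),
  (3, 7, [(0, [0], [0, 1]), (0, [0], [2, 0]), (0, [1], [3, 1]), (4, [], [4]), (0, [2], [5, 6]), (0, [2], [2, 3]), (0, [1], [5, 6]), (4, [], [4])]),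
  (3, 7, [(0, [0], [0, 1]), (0, [0], [2, 0]), (0, [1], [3, 1]), (4, [], [4]), (0, [2], [5, 6]), (0, [2], [2, 3]), (0, [1], [4, 5]), (4, [], [6])]),
  (3, 7, [(0, [0], [0, 1]), (0, [0], [2, 0]), (0, [1], [3, 1]), (4, [], [4]), (0, [2], [5, 6]), (0, [2], [3, 4]), (0, [1], [2, 5]), (4, [], [6])]),
  (3, 7, [(0, [0], [0, 1]), (0, [0], [2, 0]), (0, [1], [3, 1]), (4, [], [4]), (0, [2], [2, 5]), (0, [2], [3, 6]), (0, [1], [5, 6]), (4, [], [4])]),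
  (3, 7, [(0, [0], [0, 1]), (0, [0], [2, 0]), (0, [1], [3, 1]), (4, [], [4]), (0, [2], [3, 5]), (0, [2], [2, 6]), (0, [1], [4, 6]), (4, [], [5])]),
  (3, 7, [(0, [0], [0, 1]), (0, [0], [2, 0]), (0, [1], [3, 1]), (4, [], [4]), (0, [2], [4, 5]), (0, [2], [2, 6]), (0, [1], [3, 6]), (4, [], [5])]),
  (3, 7, [(0, [0], [0, 1]), (0, [0], [2, 0]), (0, [1], [3, 1]), (4, [], [4]), (0, [2], [4, 5]), (0, [2], [3, 6]), (0, [1], [2, 6]), (4, [], [5])]),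
  (3, 7, [(0, [0], [0, 1]), (0, [0], [2, 0]), (0, [1], [3, 4]), (4, [], [1]), (0, [2], [5, 6]), (0, [2], [3, 4]), (0, [1], [5, 6]), (4, [], [2])]),
  (3, 7, [(0, [0], [0, 1]), (0, [0], [2, 0]), (0, [1], [3, 4]), (4, [], [1]), (0, [2], [3, 5]), (0, [2], [4, 6]), (0, [1], [5, 6]), (4, [], [2])]),
  (3, 7, [(0, [0], [0, 1]), (0, [0], [2, 3]), (0, [1], [0, 1]), (4, [], [4]), (0, [2], [5, 6]), (0, [2], [2, 4]), (0, [1], [3, 5]), (4, [], [6])]),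
  (3, 7, [(0, [0], [0, 1]), (0, [0], [2, 3]), (0, [1], [0, 1]), (4, [], [4]), (0, [2], [2, 5]), (0, [2], [3, 6]), (0, [1], [5, 6]), (4, [], [4])]),
  (3, 7, [(0, [0], [0, 1]), (0, [0], [2, 3]), (0, [1], [0, 1]), (4, [], [4]), (0, [2], [4, 5]), (0, [2], [2, 6]), (0, [1], [3, 6]), (4, [], [5])]),
  (3, 7, [(0, [0], [0, 1]), (0, [0], [2, 3]), (0, [1], [4, 0]), (4, [], [1]), (0, [2], [5, 6]), (0, [2], [2, 4]), (0, [1], [3, 5]), (4, [], [6])]),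
  (3, 7, [(0, [0], [0, 1]), (0, [0], [2, 3]), (0, [1], [4, 0]), (4, [], [1]), (0, [2], [2, 5]), (0, [2], [3, 6]), (0, [1], [5, 6]), (4, [], [4])]),
  (3, 7, [(0, [0], [0, 1]), (0, [0], [2, 3]), (0, [1], [4, 0]), (4, [], [1]), (0, [2], [2, 5]), (0, [2], [4, 6]), (0, [1], [5, 6]), (4, [], [3])]),
  (3, 7, [(0, [0], [0, 1]), (0, [0], [2, 3]), (0, [1], [4, 0]), (4, [], [1]), (0, [2], [2, 5]), (0, [2], [4, 6]), (0, [1], [3, 6]), (4, [], [5])]),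
  (3, 7, [(0, [0], [0, 1]), (0, [0], [2, 3]), (0, [1], [4, 0]), (4, [], [1]), (0, [2], [4, 5]), (0, [2], [2, 6]), (0, [1], [3, 6]), (4, [], [5])]),
  (3, 7, [(0, [0], [0, 1]), (0, [0], [2, 3]), (0, [1], [1, 3]), (4, [], [4]), (0, [2], [0, 5]), (0, [2], [2, 6]), (0, [1], [5, 6]), (4, [], [4])]),
  (3, 7, [(0, [0], [0, 1]), (0, [0], [2, 3]), (0, [1], [1, 3]), (4, [], [4]), (0, [2], [4, 5]), (0, [2], [0, 6]), (0, [1], [2, 6]), (4, [], [5])]),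
  (3, 7, [(0, [0], [0, 1]), (0, [0], [2, 3]), (0, [1], [4, 1]), (4, [], [5]), (0, [2], [2, 6]), (0, [2], [0, 4]), (0, [1], [3, 6]), (4, [], [5])])]

def kl32 : List ℕ := [13, 14, 57, 58, 94, 95, 96, 97, 98, 109, 110, 111, 112, 119, 120, 125, 126, 132, 133, 144, 204, 206, 216, 217, 218, 219, 220, 221, 222, 223, 224, 225, 252, 253, 267, 268, 269, 284, 285, 286, 287, 288, 302, 303, 430]

def m32_0 : Base := (0, 1, [(0, [0], [0, 5]), (0, [1], [1, 5]), (0, [2], [2, 3]), (4, [], [4])])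

def l32_0 : Cov := [(576, 0, 1, [(0, [0], [0, 5]), (0, [1], [1, 5]), (0, [2], [2, 3]), (4, [], [4])]),
  (-576, 0, 1, [(0, [0], [0, 5]), (0, [1], [1, 5]), (0, [2], [3, 4]), (4, [], [2])]),
  (-576, 0, 1, [(0, [0], [0, 5]), (0, [1], [3, 5]), (0, [2], [1, 2]), (4, [], [4])]),
  (576, 0, 1, [(0, [0], [0, 5]), (0, [1], [3, 5]), (0, [2], [1, 4]), (4, [], [2])]),
  (576, 0, 1, [(0, [0], [1, 5]), (0, [1], [0, 5]), (0, [2], [2, 3]), (4, [], [4])]),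
  (-576, 0, 1, [(0, [0], [1, 5]), (0, [1], [0, 5]), (0, [2], [3, 4]), (4, [], [2])]),
  (-576, 0, 1, [(0, [0], [1, 5]), (0, [1], [2, 5]), (0, [2], [0, 3]), (4, [], [4])]),
  (576, 0, 1, [(0, [0], [1, 5]), (0, [1], [2, 5]), (0, [2], [3, 4]), (4, [], [0])]),
  (576, 0, 1, [(0, [0], [1, 5]), (0, [1], [4, 5]), (0, [2], [0, 3]), (4, [], [2])]),
  (-576, 0, 1, [(0, [0], [1, 5]), (0, [1], [4, 5]), (0, [2], [2, 3]), (4, [], [0])]),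
  (-576, 0, 1, [(0, [0], [2, 5]), (0, [1], [1, 5]), (0, [2], [0, 3]), (4, [], [4])]),
  (576, 0, 1, [(0, [0], [2, 5]), (0, [1], [1, 5]), (0, [2], [3, 4]), (4, [], [0])]),
  (576, 0, 1, [(0, [0], [2, 5]), (0, [1], [3, 5]), (0, [2], [0, 1]), (4, [], [4])]),
  (-576, 0, 1, [(0, [0], [2, 5]), (0, [1], [3, 5]), (0, [2], [1, 4]), (4, [], [0])]),
  (-576, 0, 1, [(0, [0], [3, 5]), (0, [1], [0, 5]), (0, [2], [1, 2]), (4, [], [4])]),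
  (576, 0, 1, [(0, [0], [3, 5]), (0, [1], [0, 5]), (0, [2], [1, 4]), (4, [], [2])]),
  (576, 0, 1, [(0, [0], [3, 5]), (0, [1], [2, 5]), (0, [2], [0, 1]), (4, [], [4])]),
  (-576, 0, 1, [(0, [0], [3, 5]), (0, [1], [2, 5]), (0, [2], [1, 4]), (4, [], [0])]),
  (-576, 0, 1, [(0, [0], [3, 5]), (0, [1], [4, 5]), (0, [2], [0, 1]), (4, [], [2])]),
  (576, 0, 1, [(0, [0], [3, 5]), (0, [1], [4, 5]), (0, [2], [1, 2]), (4, [], [0])]),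
  (576, 0, 1, [(0, [0], [4, 5]), (0, [1], [1, 5]), (0, [2], [0, 3]), (4, [], [2])]),
  (-576, 0, 1, [(0, [0], [4, 5]), (0, [1], [1, 5]), (0, [2], [2, 3]), (4, [], [0])]),
  (-576, 0, 1, [(0, [0], [4, 5]), (0, [1], [3, 5]), (0, [2], [0, 1]), (4, [], [2])]),
  (576, 0, 1, [(0, [0], [4, 5]), (0, [1], [3, 5]), (0, [2], [1, 2]), (4, [], [0])]),
  (576, 0, 1, [(0, [0], [0, 5]), (0, [2], [1, 5]), (0, [1], [2, 3]), (4, [], [4])]),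
  (-576, 0, 1, [(0, [0], [0, 5]), (0, [2], [1, 5]), (0, [1], [3, 4]), (4, [], [2])]),
  (-576, 0, 1, [(0, [0], [0, 5]), (0, [2], [3, 5]), (0, [1], [1, 2]), (4, [], [4])]),
  (576, 0, 1, [(0, [0], [0, 5]), (0, [2], [3, 5]), (0, [1], [1, 4]), (4, [], [2])]),
  (576, 0, 1, [(0, [0], [1, 5]), (0, [2], [0, 5]), (0, [1], [2, 3]), (4, [], [4])]),
  (-576, 0, 1, [(0, [0], [1, 5]), (0, [2], [0, 5]), (0, [1], [3, 4]), (4, [], [2])]),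
  (-576, 0, 1, [(0, [0], [1, 5]), (0, [2], [2, 5]), (0, [1], [0, 3]), (4, [], [4])]),
  (576, 0, 1, [(0, [0], [1, 5]), (0, [2], [2, 5]), (0, [1], [3, 4]), (4, [], [0])]),
  (576, 0, 1, [(0, [0], [1, 5]), (0, [2], [4, 5]), (0, [1], [0, 3]), (4, [], [2])]),
  (-576, 0, 1, [(0, [0], [1, 5]), (0, [2], [4, 5]), (0, [1], [2, 3]), (4, [], [0])]),
  (-576, 0, 1, [(0, [0], [2, 5]), (0, [2], [1, 5]), (0, [1], [0, 3]), (4, [], [4])]),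
  (576, 0, 1, [(0, [0], [2, 5]), (0, [2], [1, 5]), (0, [1], [3, 4]), (4, [], [0])]),
  (576, 0, 1, [(0, [0], [2, 5]), (0, [2], [3, 5]), (0, [1], [0, 1]), (4, [], [4])]),
  (-576, 0, 1, [(0, [0], [2, 5]), (0, [2], [3, 5]), (0, [1], [1, 4]), (4, [], [0])]),
  (-576, 0, 1, [(0, [0], [3, 5]), (0, [2], [0, 5]), (0, [1], [1, 2]), (4, [], [4])]),
  (576, 0, 1, [(0, [0], [3, 5]), (0, [2], [0, 5]), (0, [1], [1, 4]), (4, [], [2])]),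
  (576, 0, 1, [(0, [0], [3, 5]), (0, [2], [2, 5]), (0, [1], [0, 1]), (4, [], [4])]),
  (-576, 0, 1, [(0, [0], [3, 5]), (0, [2], [2, 5]), (0, [1], [1, 4]), (4, [], [0])]),
  (-576, 0, 1, [(0, [0], [3, 5]), (0, [2], [4, 5]), (0, [1], [0, 1]), (4, [], [2])]),
  (576, 0, 1, [(0, [0], [3, 5]), (0, [2], [4, 5]), (0, [1], [1, 2]), (4, [], [0])]),
  (576, 0, 1, [(0, [0], [4, 5]), (0, [2], [1, 5]), (0, [1], [0, 3]), (4, [], [2])]),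
  (-576, 0, 1, [(0, [0], [4, 5]), (0, [2], [1, 5]), (0, [1], [2, 3]), (4, [], [0])]),
  (-576, 0, 1, [(0, [0], [4, 5]), (0, [2], [3, 5]), (0, [1], [0, 1]), (4, [], [2])]),
  (576, 0, 1, [(0, [0], [4, 5]), (0, [2], [3, 5]), (0, [1], [1, 2]), (4, [], [0])]),
  (576, 0, 1, [(0, [1], [0, 5]), (0, [2], [1, 5]), (0, [0], [2, 3]), (4, [], [4])]),
  (-576, 0, 1, [(0, [1], [0, 5]), (0, [2], [1, 5]), (0, [0], [3, 4]), (4, [], [2])]),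
  (-576, 0, 1, [(0, [1], [0, 5]), (0, [2], [3, 5]), (0, [0], [1, 2]), (4, [], [4])]),
  (576, 0, 1, [(0, [1], [0, 5]), (0, [2], [3, 5]), (0, [0], [1, 4]), (4, [], [2])]),
  (576, 0, 1, [(0, [1], [1, 5]), (0, [2], [0, 5]), (0, [0], [2, 3]), (4, [], [4])]),
  (-576, 0, 1, [(0, [1], [1, 5]), (0, [2], [0, 5]), (0, [0], [3, 4]), (4, [], [2])]),
  (-576, 0, 1, [(0, [1], [1, 5]), (0, [2], [2, 5]), (0, [0], [0, 3]), (4, [], [4])]),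
  (576, 0, 1, [(0, [1], [1, 5]), (0, [2], [2, 5]), (0, [0], [3, 4]), (4, [], [0])]),
  (576, 0, 1, [(0, [1], [1, 5]), (0, [2], [4, 5]), (0, [0], [0, 3]), (4, [], [2])]),
  (-576, 0, 1, [(0, [1], [1, 5]), (0, [2], [4, 5]), (0, [0], [2, 3]), (4, [], [0])]),
  (-576, 0, 1, [(0, [1], [2, 5]), (0, [2], [1, 5]), (0, [0], [0, 3]), (4, [], [4])]),
  (576, 0, 1, [(0, [1], [2, 5]), (0, [2], [1, 5]), (0, [0], [3, 4]), (4, [], [0])]),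
  (576, 0, 1, [(0, [1], [2, 5]), (0, [2], [3, 5]), (0, [0], [0, 1]), (4, [], [4])]),
  (-576, 0, 1, [(0, [1], [2, 5]), (0, [2], [3, 5]), (0, [0], [1, 4]), (4, [], [0])]),
  (-576, 0, 1, [(0, [1], [3, 5]), (0, [2], [0, 5]), (0, [0], [1, 2]), (4, [], [4])]),
  (576, 0, 1, [(0, [1], [3, 5]), (0, [2], [0, 5]), (0, [0], [1, 4]), (4, [], [2])]),
  (576, 0, 1, [(0, [1], [3, 5]), (0, [2], [2, 5]), (0, [0], [0, 1]), (4, [], [4])]),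
  (-576, 0, 1, [(0, [1], [3, 5]), (0, [2], [2, 5]), (0, [0], [1, 4]), (4, [], [0])]),
  (-576, 0, 1, [(0, [1], [3, 5]), (0, [2], [4, 5]), (0, [0], [0, 1]), (4, [], [2])]),
  (576, 0, 1, [(0, [1], [3, 5]), (0, [2], [4, 5]), (0, [0], [1, 2]), (4, [], [0])]),
  (576, 0, 1, [(0, [1], [4, 5]), (0, [2], [1, 5]), (0, [0], [0, 3]), (4, [], [2])]),
  (-576, 0, 1, [(0, [1], [4, 5]), (0, [2], [1, 5]), (0, [0], [2, 3]), (4, [], [0])]),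
  (-576, 0, 1, [(0, [1], [4, 5]), (0, [2], [3, 5]), (0, [0], [0, 1]), (4, [], [2])]),
  (576, 0, 1, [(0, [1], [4, 5]), (0, [2], [3, 5]), (0, [0], [1, 2]), (4, [], [0])])]

def z32_0 : Cov := [(0, 0, 1, [(0, [0], [0, 5]), (0, [1], [1, 5]), (0, [2], [2, 4]), (4, [], [3])]),
  (0, 0, 1, [(0, [0], [0, 5]), (0, [1], [2, 5]), (0, [2], [1, 3]), (4, [], [4])]),
  (0, 0, 1, [(0, [0], [0, 5]), (0, [1], [2, 5]), (0, [2], [1, 4]), (4, [], [3])]),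
  (0, 0, 1, [(0, [0], [0, 5]), (0, [1], [2, 5]), (0, [2], [3, 4]), (4, [], [1])]),
  (0, 0, 1, [(0, [0], [0, 5]), (0, [1], [3, 5]), (0, [2], [2, 4]), (4, [], [1])]),
  (0, 0, 1, [(0, [0], [0, 5]), (0, [1], [4, 5]), (0, [2], [1, 2]), (4, [], [3])]),
  (0, 0, 1, [(0, [0], [0, 5]), (0, [1], [4, 5]), (0, [2], [1, 3]), (4, [], [2])]),
  (0, 0, 1, [(0, [0], [0, 5]), (0, [1], [4, 5]), (0, [2], [2, 3]), (4, [], [1])]),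
  (0, 0, 1, [(0, [0], [1, 5]), (0, [1], [0, 5]), (0, [2], [2, 4]), (4, [], [3])]),
  (0, 0, 1, [(0, [0], [1, 5]), (0, [1], [2, 5]), (0, [2], [0, 4]), (4, [], [3])]),
  (0, 0, 1, [(0, [0], [1, 5]), (0, [1], [3, 5]), (0, [2], [0, 2]), (4, [], [4])]),
  (0, 0, 1, [(0, [0], [1, 5]), (0, [1], [3, 5]), (0, [2], [0, 4]), (4, [], [2])]),
  (0, 0, 1, [(0, [0], [1, 5]), (0, [1], [3, 5]), (0, [2], [2, 4]), (4, [], [0])]),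
  (0, 0, 1, [(0, [0], [1, 5]), (0, [1], [4, 5]), (0, [2], [0, 2]), (4, [], [3])]),
  (0, 0, 1, [(0, [0], [2, 5]), (0, [1], [0, 5]), (0, [2], [1, 3]), (4, [], [4])]),
  (0, 0, 1, [(0, [0], [2, 5]), (0, [1], [0, 5]), (0, [2], [1, 4]), (4, [], [3])]),
  (0, 0, 1, [(0, [0], [2, 5]), (0, [1], [0, 5]), (0, [2], [3, 4]), (4, [], [1])]),
  (0, 0, 1, [(0, [0], [2, 5]), (0, [1], [1, 5]), (0, [2], [0, 4]), (4, [], [3])]),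
  (0, 0, 1, [(0, [0], [2, 5]), (0, [1], [3, 5]), (0, [2], [0, 4]), (4, [], [1])]),
  (0, 0, 1, [(0, [0], [2, 5]), (0, [1], [4, 5]), (0, [2], [0, 1]), (4, [], [3])]),
  (0, 0, 1, [(0, [0], [2, 5]), (0, [1], [4, 5]), (0, [2], [0, 3]), (4, [], [1])]),
  (0, 0, 1, [(0, [0], [2, 5]), (0, [1], [4, 5]), (0, [2], [1, 3]), (4, [], [0])]),
  (0, 0, 1, [(0, [0], [3, 5]), (0, [1], [0, 5]), (0, [2], [2, 4]), (4, [], [1])]),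
  (0, 0, 1, [(0, [0], [3, 5]), (0, [1], [1, 5]), (0, [2], [0, 2]), (4, [], [4])]),
  (0, 0, 1, [(0, [0], [3, 5]), (0, [1], [1, 5]), (0, [2], [0, 4]), (4, [], [2])]),
  (0, 0, 1, [(0, [0], [3, 5]), (0, [1], [1, 5]), (0, [2], [2, 4]), (4, [], [0])]),
  (0, 0, 1, [(0, [0], [3, 5]), (0, [1], [2, 5]), (0, [2], [0, 4]), (4, [], [1])]),
  (0, 0, 1, [(0, [0], [3, 5]), (0, [1], [4, 5]), (0, [2], [0, 2]), (4, [], [1])]),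
  (0, 0, 1, [(0, [0], [4, 5]), (0, [1], [0, 5]), (0, [2], [1, 2]), (4, [], [3])]),
  (0, 0, 1, [(0, [0], [4, 5]), (0, [1], [0, 5]), (0, [2], [1, 3]), (4, [], [2])]),
  (0, 0, 1, [(0, [0], [4, 5]), (0, [1], [0, 5]), (0, [2], [2, 3]), (4, [], [1])]),
  (0, 0, 1, [(0, [0], [4, 5]), (0, [1], [1, 5]), (0, [2], [0, 2]), (4, [], [3])]),
  (0, 0, 1, [(0, [0], [4, 5]), (0, [1], [2, 5]), (0, [2], [0, 1]), (4, [], [3])]),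
  (0, 0, 1, [(0, [0], [4, 5]), (0, [1], [2, 5]), (0, [2], [0, 3]), (4, [], [1])]),
  (0, 0, 1, [(0, [0], [4, 5]), (0, [1], [2, 5]), (0, [2], [1, 3]), (4, [], [0])]),
  (0, 0, 1, [(0, [0], [4, 5]), (0, [1], [3, 5]), (0, [2], [0, 2]), (4, [], [1])]),
  (0, 0, 1, [(0, [0], [0, 5]), (0, [2], [1, 5]), (0, [1], [2, 4]), (4, [], [3])]),
  (0, 0, 1, [(0, [0], [0, 5]), (0, [2], [2, 5]), (0, [1], [1, 3]), (4, [], [4])]),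
  (0, 0, 1, [(0, [0], [0, 5]), (0, [2], [2, 5]), (0, [1], [1, 4]), (4, [], [3])]),
  (0, 0, 1, [(0, [0], [0, 5]), (0, [2], [2, 5]), (0, [1], [3, 4]), (4, [], [1])]),
  (0, 0, 1, [(0, [0], [0, 5]), (0, [2], [3, 5]), (0, [1], [2, 4]), (4, [], [1])]),
  (0, 0, 1, [(0, [0], [0, 5]), (0, [2], [4, 5]), (0, [1], [1, 2]), (4, [], [3])]),
  (0, 0, 1, [(0, [0], [0, 5]), (0, [2], [4, 5]), (0, [1], [1, 3]), (4, [], [2])]),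
  (0, 0, 1, [(0, [0], [0, 5]), (0, [2], [4, 5]), (0, [1], [2, 3]), (4, [], [1])]),
  (0, 0, 1, [(0, [0], [1, 5]), (0, [2], [0, 5]), (0, [1], [2, 4]), (4, [], [3])]),
  (0, 0, 1, [(0, [0], [1, 5]), (0, [2], [2, 5]), (0, [1], [0, 4]), (4, [], [3])]),
  (0, 0, 1, [(0, [0], [1, 5]), (0, [2], [3, 5]), (0, [1], [0, 2]), (4, [], [4])]),
  (0, 0, 1, [(0, [0], [1, 5]), (0, [2], [3, 5]), (0, [1], [0, 4]), (4, [], [2])]),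
  (0, 0, 1, [(0, [0], [1, 5]), (0, [2], [3, 5]), (0, [1], [2, 4]), (4, [], [0])]),
  (0, 0, 1, [(0, [0], [1, 5]), (0, [2], [4, 5]), (0, [1], [0, 2]), (4, [], [3])]),
  (0, 0, 1, [(0, [0], [2, 5]), (0, [2], [0, 5]), (0, [1], [1, 3]), (4, [], [4])]),
  (0, 0, 1, [(0, [0], [2, 5]), (0, [2], [0, 5]), (0, [1], [1, 4]), (4, [], [3])]),
  (0, 0, 1, [(0, [0], [2, 5]), (0, [2], [0, 5]), (0, [1], [3, 4]), (4, [], [1])]),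
  (0, 0, 1, [(0, [0], [2, 5]), (0, [2], [1, 5]), (0, [1], [0, 4]), (4, [], [3])]),
  (0, 0, 1, [(0, [0], [2, 5]), (0, [2], [3, 5]), (0, [1], [0, 4]), (4, [], [1])]),
  (0, 0, 1, [(0, [0], [2, 5]), (0, [2], [4, 5]), (0, [1], [0, 1]), (4, [], [3])]),
  (0, 0, 1, [(0, [0], [2, 5]), (0, [2], [4, 5]), (0, [1], [0, 3]), (4, [], [1])]),
  (0, 0, 1, [(0, [0], [2, 5]), (0, [2], [4, 5]), (0, [1], [1, 3]), (4, [], [0])]),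
  (0, 0, 1, [(0, [0], [3, 5]), (0, [2], [0, 5]), (0, [1], [2, 4]), (4, [], [1])]),
  (0, 0, 1, [(0, [0], [3, 5]), (0, [2], [1, 5]), (0, [1], [0, 2]), (4, [], [4])]),
  (0, 0, 1, [(0, [0], [3, 5]), (0, [2], [1, 5]), (0, [1], [0, 4]), (4, [], [2])]),
  (0, 0, 1, [(0, [0], [3, 5]), (0, [2], [1, 5]), (0, [1], [2, 4]), (4, [], [0])]),
  (0, 0, 1, [(0, [0], [3, 5]), (0, [2], [2, 5]), (0, [1], [0, 4]), (4, [], [1])]),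
  (0, 0, 1, [(0, [0], [3, 5]), (0, [2], [4, 5]), (0, [1], [0, 2]), (4, [], [1])]),
  (0, 0, 1, [(0, [0], [4, 5]), (0, [2], [0, 5]), (0, [1], [1, 2]), (4, [], [3])]),
  (0, 0, 1, [(0, [0], [4, 5]), (0, [2], [0, 5]), (0, [1], [1, 3]), (4, [], [2])]),
  (0, 0, 1, [(0, [0], [4, 5]), (0, [2], [0, 5]), (0, [1], [2, 3]), (4, [], [1])]),
  (0, 0, 1, [(0, [0], [4, 5]), (0, [2], [1, 5]), (0, [1], [0, 2]), (4, [], [3])]),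
  (0, 0, 1, [(0, [0], [4, 5]), (0, [2], [2, 5]), (0, [1], [0, 1]), (4, [], [3])]),
  (0, 0, 1, [(0, [0], [4, 5]), (0, [2], [2, 5]), (0, [1], [0, 3]), (4, [], [1])]),
  (0, 0, 1, [(0, [0], [4, 5]), (0, [2], [2, 5]), (0, [1], [1, 3]), (4, [], [0])]),
  (0, 0, 1, [(0, [0], [4, 5]), (0, [2], [3, 5]), (0, [1], [0, 2]), (4, [], [1])]),
  (0, 0, 1, [(0, [1], [0, 5]), (0, [2], [1, 5]), (0, [0], [2, 4]), (4, [], [3])]),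
  (0, 0, 1, [(0, [1], [0, 5]), (0, [2], [2, 5]), (0, [0], [1, 3]), (4, [], [4])]),
  (0, 0, 1, [(0, [1], [0, 5]), (0, [2], [2, 5]), (0, [0], [1, 4]), (4, [], [3])]),
  (0, 0, 1, [(0, [1], [0, 5]), (0, [2], [2, 5]), (0, [0], [3, 4]), (4, [], [1])]),
  (0, 0, 1, [(0, [1], [0, 5]), (0, [2], [3, 5]), (0, [0], [2, 4]), (4, [], [1])]),
  (0, 0, 1, [(0, [1], [0, 5]), (0, [2], [4, 5]), (0, [0], [1, 2]), (4, [], [3])]),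
  (0, 0, 1, [(0, [1], [0, 5]), (0, [2], [4, 5]), (0, [0], [1, 3]), (4, [], [2])]),
  (0, 0, 1, [(0, [1], [0, 5]), (0, [2], [4, 5]), (0, [0], [2, 3]), (4, [], [1])]),
  (0, 0, 1, [(0, [1], [1, 5]), (0, [2], [0, 5]), (0, [0], [2, 4]), (4, [], [3])]),
  (0, 0, 1, [(0, [1], [1, 5]), (0, [2], [2, 5]), (0, [0], [0, 4]), (4, [], [3])]),
  (0, 0, 1, [(0, [1], [1, 5]), (0, [2], [3, 5]), (0, [0], [0, 2]), (4, [], [4])]),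
  (0, 0, 1, [(0, [1], [1, 5]), (0, [2], [3, 5]), (0, [0], [0, 4]), (4, [], [2])]),
  (0, 0, 1, [(0, [1], [1, 5]), (0, [2], [3, 5]), (0, [0], [2, 4]), (4, [], [0])]),
  (0, 0, 1, [(0, [1], [1, 5]), (0, [2], [4, 5]), (0, [0], [0, 2]), (4, [], [3])]),
  (0, 0, 1, [(0, [1], [2, 5]), (0, [2], [0, 5]), (0, [0], [1, 3]), (4, [], [4])]),
  (0, 0, 1, [(0, [1], [2, 5]), (0, [2], [0, 5]), (0, [0], [1, 4]), (4, [], [3])]),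
  (0, 0, 1, [(0, [1], [2, 5]), (0, [2], [0, 5]), (0, [0], [3, 4]), (4, [], [1])]),
  (0, 0, 1, [(0, [1], [2, 5]), (0, [2], [1, 5]), (0, [0], [0, 4]), (4, [], [3])]),
  (0, 0, 1, [(0, [1], [2, 5]), (0, [2], [3, 5]), (0, [0], [0, 4]), (4, [], [1])]),
  (0, 0, 1, [(0, [1], [2, 5]), (0, [2], [4, 5]), (0, [0], [0, 1]), (4, [], [3])]),
  (0, 0, 1, [(0, [1], [2, 5]), (0, [2], [4, 5]), (0, [0], [0, 3]), (4, [], [1])]),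
  (0, 0, 1, [(0, [1], [2, 5]), (0, [2], [4, 5]), (0, [0], [1, 3]), (4, [], [0])]),
  (0, 0, 1, [(0, [1], [3, 5]), (0, [2], [0, 5]), (0, [0], [2, 4]), (4, [], [1])]),
  (0, 0, 1, [(0, [1], [3, 5]), (0, [2], [1, 5]), (0, [0], [0, 2]), (4, [], [4])]),
  (0, 0, 1, [(0, [1], [3, 5]), (0, [2], [1, 5]), (0, [0], [0, 4]), (4, [], [2])]),
  (0, 0, 1, [(0, [1], [3, 5]), (0, [2], [1, 5]), (0, [0], [2, 4]), (4, [], [0])]),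
  (0, 0, 1, [(0, [1], [3, 5]), (0, [2], [2, 5]), (0, [0], [0, 4]), (4, [], [1])]),
  (0, 0, 1, [(0, [1], [3, 5]), (0, [2], [4, 5]), (0, [0], [0, 2]), (4, [], [1])]),
  (0, 0, 1, [(0, [1], [4, 5]), (0, [2], [0, 5]), (0, [0], [1, 2]), (4, [], [3])]),
  (0, 0, 1, [(0, [1], [4, 5]), (0, [2], [0, 5]), (0, [0], [1, 3]), (4, [], [2])]),
  (0, 0, 1, [(0, [1], [4, 5]), (0, [2], [0, 5]), (0, [0], [2, 3]), (4, [], [1])]),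
  (0, 0, 1, [(0, [1], [4, 5]), (0, [2], [1, 5]), (0, [0], [0, 2]), (4, [], [3])]),
  (0, 0, 1, [(0, [1], [4, 5]), (0, [2], [2, 5]), (0, [0], [0, 1]), (4, [], [3])]),
  (0, 0, 1, [(0, [1], [4, 5]), (0, [2], [2, 5]), (0, [0], [0, 3]), (4, [], [1])]),
  (0, 0, 1, [(0, [1], [4, 5]), (0, [2], [2, 5]), (0, [0], [1, 3]), (4, [], [0])]),
  (0, 0, 1, [(0, [1], [4, 5]), (0, [2], [3, 5]), (0, [0], [0, 2]), (4, [], [1])])]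

def w32_0 : List (List Wit) := [[(0, 0, 0, 0, 0), (72, 0, 0, 0, 0), (0, 0, 0, 0, 0), (1, 0, 0, 0, 0), (72, 0, 0, 0, 0), (1, 0, 0, 0, 0), (73, 0, 0, 0, 0), (74, 0, 0, 0, 0), (73, 0, 0, 0, 0), (75, 0, 0, 0, 0), (74, 0, 0, 0, 0), (75, 0, 0, 0, 0), (2, 0, 0, 0, 0), (3, 0, 0, 0, 0), (2, 0, 0, 0, 0), (76, 0, 0, 0, 0), (3, 0, 0, 0, 0), (76, 0, 0, 0, 0), (77, 0, 0, 0, 0), (78, 0, 0, 0, 0), (77, 0, 0, 0, 0), (79, 0, 0, 0, 0), (78, 0, 0, 0, 0), (79, 0, 0, 0, 0), (4, 0, 0, 0, 0), (80, 0, 0, 0, 0), (4, 0, 0, 0, 0), (5, 0, 0, 0, 0), (80, 0, 0, 0, 0), (5, 0, 0, 0, 0), (6, 0, 0, 0, 0), (81, 0, 0, 0, 0), (6, 0, 0, 0, 0), (7, 0, 0, 0, 0), (81, 0, 0, 0, 0), (7, 0, 0, 0, 0), (82, 0, 0, 0, 0), (83, 0, 0, 0, 0), (82, 0, 0, 0, 0), (84, 0, 0, 0, 0), (83, 0, 0, 0, 0), (84, 0, 0, 0, 0), (85, 0, 0, 0, 0), (8, 0, 0, 0, 0), (85, 0, 0, 0, 0),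 (9, 0, 0, 0, 0), (8, 0, 0, 0, 0), (9, 0, 0, 0, 0), (86, 0, 0, 0, 0), (87, 0, 0, 0, 0), (86, 0, 0, 0, 0), (88, 0, 0, 0, 0), (87, 0, 0, 0, 0), (88, 0, 0, 0, 0), (10, 0, 0, 0, 0), (89, 0, 0, 0, 0), (10, 0, 0, 0, 0), (11, 0, 0, 0, 0), (89, 0, 0, 0, 0), (11, 0, 0, 0, 0), (12, 0, 0, 0, 0), (90, 0, 0, 0, 0), (12, 0, 0, 0, 0), (13, 0, 0, 0, 0), (90, 0, 0, 0, 0), (13, 0, 0, 0, 0), (91, 0, 0, 0, 0), (92, 0, 0, 0, 0), (91, 0, 0, 0, 0), (93, 0, 0, 0, 0), (92, 0, 0, 0, 0), (93, 0, 0, 0, 0), (14, 0, 0, 0, 0), (15, 0, 0, 0, 0), (14, 0, 0, 0, 0), (94, 0, 0, 0, 0), (15, 0, 0, 0, 0), (94, 0, 0, 0, 0), (95, 0, 0, 0, 0), (96, 0, 0, 0, 0), (95, 0, 0, 0, 0), (97, 0, 0, 0, 0), (96, 0, 0, 0, 0), (97, 0, 0, 0, 0), (16, 0, 0, 0, 0), (98, 0, 0, 0, 0), (16, 0, 0, 0, 0), (17, 0, 0, 0, 0), (98, 0, 0, 0, 0), (17, 0, 0, 0, 0), (18, 0, 0, 0, 0),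 (99, 0, 0, 0, 0), (18, 0, 0, 0, 0), (19, 0, 0, 0, 0), (99, 0, 0, 0, 0), (19, 0, 0, 0, 0), (100, 0, 0, 0, 0), (101, 0, 0, 0, 0), (100, 0, 0, 0, 0), (102, 0, 0, 0, 0), (101, 0, 0, 0, 0), (102, 0, 0, 0, 0), (103, 0, 0, 0, 0), (20, 0, 0, 0, 0), (103, 0, 0, 0, 0), (21, 0, 0, 0, 0), (20, 0, 0, 0, 0), (21, 0, 0, 0, 0), (104, 0, 0, 0, 0), (105, 0, 0, 0, 0), (104, 0, 0, 0, 0), (106, 0, 0, 0, 0), (105, 0, 0, 0, 0), (106, 0, 0, 0, 0), (22, 0, 0, 0, 0), (107, 0, 0, 0, 0), (22, 0, 0, 0, 0), (23, 0, 0, 0, 0), (107, 0, 0, 0, 0), (23, 0, 0, 0, 0)],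
  [(24, 0, 0, 0, 0), (108, 0, 0, 0, 0), (24, 0, 0, 0, 0), (25, 0, 0, 0, 0), (108, 0, 0, 0, 0), (25, 0, 0, 0, 0), (109, 0, 0, 0, 0), (110, 0, 0, 0, 0), (109, 0, 0, 0, 0), (111, 0, 0, 0, 0), (110, 0, 0, 0, 0), (111, 0, 0, 0, 0), (26, 0, 0, 0, 0), (27, 0, 0, 0, 0), (26, 0, 0, 0, 0), (112, 0, 0, 0, 0), (27, 0, 0, 0, 0), (112, 0, 0, 0, 0), (113, 0, 0, 0, 0), (114, 0, 0, 0, 0), (113, 0, 0, 0, 0), (115, 0, 0, 0, 0), (114, 0, 0, 0, 0), (115, 0, 0, 0, 0), (28, 0, 0, 0, 0), (116, 0, 0, 0, 0), (28, 0, 0, 0, 0), (29, 0, 0, 0, 0), (116, 0, 0, 0, 0), (29, 0, 0, 0, 0), (30, 0, 0, 0, 0), (117, 0, 0, 0, 0), (30, 0, 0, 0, 0), (31, 0, 0, 0, 0), (117, 0, 0, 0, 0), (31, 0, 0, 0, 0), (118, 0, 0, 0, 0), (119, 0, 0, 0, 0), (118, 0, 0, 0, 0), (120, 0, 0, 0, 0), (119, 0, 0, 0, 0), (120, 0, 0, 0, 0), (121, 0, 0, 0, 0), (32, 0, 0, 0, 0), (121,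 0, 0, 0, 0), (33, 0, 0, 0, 0), (32, 0, 0, 0, 0), (33, 0, 0, 0, 0), (122, 0, 0, 0, 0), (123, 0, 0, 0, 0), (122, 0, 0, 0, 0), (124, 0, 0, 0, 0), (123, 0, 0, 0, 0), (124, 0, 0, 0, 0), (34, 0, 0, 0, 0), (125, 0, 0, 0, 0), (34, 0, 0, 0, 0), (35, 0, 0, 0, 0), (125, 0, 0, 0, 0), (35, 0, 0, 0, 0), (36, 0, 0, 0, 0), (126, 0, 0, 0, 0), (36, 0, 0, 0, 0), (37, 0, 0, 0, 0), (126, 0, 0, 0, 0), (37, 0, 0, 0, 0), (127, 0, 0, 0, 0), (128, 0, 0, 0, 0), (127, 0, 0, 0, 0), (129, 0, 0, 0, 0), (128, 0, 0, 0, 0), (129, 0, 0, 0, 0), (38, 0, 0, 0, 0), (39, 0, 0, 0, 0), (38, 0, 0, 0, 0), (130, 0, 0, 0, 0), (39, 0, 0, 0, 0), (130, 0, 0, 0, 0), (131, 0, 0, 0, 0), (132, 0, 0, 0, 0), (131, 0, 0, 0, 0), (133, 0, 0, 0, 0), (132, 0, 0, 0, 0), (133, 0, 0, 0, 0), (40, 0, 0, 0, 0), (134, 0, 0, 0, 0), (40, 0, 0, 0, 0), (41, 0, 0, 0, 0), (134, 0, 0, 0,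 0), (41, 0, 0, 0, 0), (42, 0, 0, 0, 0), (135, 0, 0, 0, 0), (42, 0, 0, 0, 0), (43, 0, 0, 0, 0), (135, 0, 0, 0, 0), (43, 0, 0, 0, 0), (136, 0, 0, 0, 0), (137, 0, 0, 0, 0), (136, 0, 0, 0, 0), (138, 0, 0, 0, 0), (137, 0, 0, 0, 0), (138, 0, 0, 0, 0), (139, 0, 0, 0, 0), (44, 0, 0, 0, 0), (139, 0, 0, 0, 0), (45, 0, 0, 0, 0), (44, 0, 0, 0, 0), (45, 0, 0, 0, 0), (140, 0, 0, 0, 0), (141, 0, 0, 0, 0), (140, 0, 0, 0, 0), (142, 0, 0, 0, 0), (141, 0, 0, 0, 0), (142, 0, 0, 0, 0), (46, 0, 0, 0, 0), (143, 0, 0, 0, 0), (46, 0, 0, 0, 0), (47, 0, 0, 0, 0), (143, 0, 0, 0, 0), (47, 0, 0, 0, 0)],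
  [(4, 0, 0, 0, 0), (80, 0, 0, 0, 0), (4, 0, 0, 0, 0), (5, 0, 0, 0, 0), (80, 0, 0, 0, 0), (5, 0, 0, 0, 0), (86, 0, 0, 0, 0), (87, 0, 0, 0, 0), (86, 0, 0, 0, 0), (88, 0, 0, 0, 0), (87, 0, 0, 0, 0), (88, 0, 0, 0, 0), (14, 0, 0, 0, 0), (15, 0, 0, 0, 0), (14, 0, 0, 0, 0), (94, 0, 0, 0, 0), (15, 0, 0, 0, 0), (94, 0, 0, 0, 0), (100, 0, 0, 0, 0), (101, 0, 0, 0, 0), (100, 0, 0, 0, 0), (102, 0, 0, 0, 0), (101, 0, 0, 0, 0), (102, 0, 0, 0, 0), (0, 0, 0, 0, 0), (72, 0, 0, 0, 0), (0, 0, 0, 0, 0), (1, 0, 0, 0, 0), (72, 0, 0, 0, 0), (1, 0, 0, 0, 0), (10, 0, 0, 0, 0), (89, 0, 0, 0, 0), (10, 0, 0, 0, 0), (11, 0, 0, 0, 0), (89, 0, 0, 0, 0), (11, 0, 0, 0, 0), (95, 0, 0, 0, 0), (96, 0, 0, 0, 0), (95, 0, 0, 0, 0), (97, 0, 0, 0, 0), (96, 0, 0, 0, 0), (97, 0, 0, 0, 0), (103, 0, 0, 0, 0), (20, 0, 0, 0, 0), (103, 0, 0, 0, 0), (21, 0, 0, 0,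 0), (20, 0, 0, 0, 0), (21, 0, 0, 0, 0), (73, 0, 0, 0, 0), (74, 0, 0, 0, 0), (73, 0, 0, 0, 0), (75, 0, 0, 0, 0), (74, 0, 0, 0, 0), (75, 0, 0, 0, 0), (6, 0, 0, 0, 0), (81, 0, 0, 0, 0), (6, 0, 0, 0, 0), (7, 0, 0, 0, 0), (81, 0, 0, 0, 0), (7, 0, 0, 0, 0), (16, 0, 0, 0, 0), (98, 0, 0, 0, 0), (16, 0, 0, 0, 0), (17, 0, 0, 0, 0), (98, 0, 0, 0, 0), (17, 0, 0, 0, 0), (104, 0, 0, 0, 0), (105, 0, 0, 0, 0), (104, 0, 0, 0, 0), (106, 0, 0, 0, 0), (105, 0, 0, 0, 0), (106, 0, 0, 0, 0), (2, 0, 0, 0, 0), (3, 0, 0, 0, 0), (2, 0, 0, 0, 0), (76, 0, 0, 0, 0), (3, 0, 0, 0, 0), (76, 0, 0, 0, 0), (82, 0, 0, 0, 0), (83, 0, 0, 0, 0), (82, 0, 0, 0, 0), (84, 0, 0, 0, 0), (83, 0, 0, 0, 0), (84, 0, 0, 0, 0), (12, 0, 0, 0, 0), (90, 0, 0, 0, 0), (12, 0, 0, 0, 0), (13, 0, 0, 0, 0), (90, 0, 0, 0, 0), (13, 0, 0, 0, 0), (22, 0, 0, 0, 0), (107, 0, 0, 0,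 0), (22, 0, 0, 0, 0), (23, 0, 0, 0, 0), (107, 0, 0, 0, 0), (23, 0, 0, 0, 0), (77, 0, 0, 0, 0), (78, 0, 0, 0, 0), (77, 0, 0, 0, 0), (79, 0, 0, 0, 0), (78, 0, 0, 0, 0), (79, 0, 0, 0, 0), (85, 0, 0, 0, 0), (8, 0, 0, 0, 0), (85, 0, 0, 0, 0), (9, 0, 0, 0, 0), (8, 0, 0, 0, 0), (9, 0, 0, 0, 0), (91, 0, 0, 0, 0), (92, 0, 0, 0, 0), (91, 0, 0, 0, 0), (93, 0, 0, 0, 0), (92, 0, 0, 0, 0), (93, 0, 0, 0, 0), (18, 0, 0, 0, 0), (99, 0, 0, 0, 0), (18, 0, 0, 0, 0), (19, 0, 0, 0, 0), (99, 0, 0, 0, 0), (19, 0, 0, 0, 0)],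
  [(48, 0, 0, 0, 0), (144, 0, 0, 0, 0), (48, 0, 0, 0, 0), (49, 0, 0, 0, 0), (144, 0, 0, 0, 0), (49, 0, 0, 0, 0), (145, 0, 0, 0, 0), (146, 0, 0, 0, 0), (145, 0, 0, 0, 0), (147, 0, 0, 0, 0), (146, 0, 0, 0, 0), (147, 0, 0, 0, 0), (50, 0, 0, 0, 0), (51, 0, 0, 0, 0), (50, 0, 0, 0, 0), (148, 0, 0, 0, 0), (51, 0, 0, 0, 0), (148, 0, 0, 0, 0), (149, 0, 0, 0, 0), (150, 0, 0, 0, 0), (149, 0, 0, 0, 0), (151, 0, 0, 0, 0), (150, 0, 0, 0, 0), (151, 0, 0, 0, 0), (52, 0, 0, 0, 0), (152, 0, 0, 0, 0), (52, 0, 0, 0, 0), (53, 0, 0, 0, 0), (152, 0, 0, 0, 0), (53, 0, 0, 0, 0), (54, 0, 0, 0, 0), (153, 0, 0, 0, 0), (54, 0, 0, 0, 0), (55, 0, 0, 0, 0), (153, 0, 0, 0, 0), (55, 0, 0, 0, 0), (154, 0, 0, 0, 0), (155, 0, 0, 0, 0), (154, 0, 0, 0, 0), (156, 0, 0, 0, 0), (155, 0, 0, 0, 0), (156, 0, 0, 0, 0), (157, 0, 0, 0, 0), (56, 0, 0, 0, 0), (157,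 0, 0, 0, 0), (57, 0, 0, 0, 0), (56, 0, 0, 0, 0), (57, 0, 0, 0, 0), (158, 0, 0, 0, 0), (159, 0, 0, 0, 0), (158, 0, 0, 0, 0), (160, 0, 0, 0, 0), (159, 0, 0, 0, 0), (160, 0, 0, 0, 0), (58, 0, 0, 0, 0), (161, 0, 0, 0, 0), (58, 0, 0, 0, 0), (59, 0, 0, 0, 0), (161, 0, 0, 0, 0), (59, 0, 0, 0, 0), (60, 0, 0, 0, 0), (162, 0, 0, 0, 0), (60, 0, 0, 0, 0), (61, 0, 0, 0, 0), (162, 0, 0, 0, 0), (61, 0, 0, 0, 0), (163, 0, 0, 0, 0), (164, 0, 0, 0, 0), (163, 0, 0, 0, 0), (165, 0, 0, 0, 0), (164, 0, 0, 0, 0), (165, 0, 0, 0, 0), (62, 0, 0, 0, 0), (63, 0, 0, 0, 0), (62, 0, 0, 0, 0), (166, 0, 0, 0, 0), (63, 0, 0, 0, 0), (166, 0, 0, 0, 0), (167, 0, 0, 0, 0), (168, 0, 0, 0, 0), (167, 0, 0, 0, 0), (169, 0, 0, 0, 0), (168, 0, 0, 0, 0), (169, 0, 0, 0, 0), (64, 0, 0, 0, 0), (170, 0, 0, 0, 0), (64, 0, 0, 0, 0), (65, 0, 0, 0, 0), (170, 0, 0, 0,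 0), (65, 0, 0, 0, 0), (66, 0, 0, 0, 0), (171, 0, 0, 0, 0), (66, 0, 0, 0, 0), (67, 0, 0, 0, 0), (171, 0, 0, 0, 0), (67, 0, 0, 0, 0), (172, 0, 0, 0, 0), (173, 0, 0, 0, 0), (172, 0, 0, 0, 0), (174, 0, 0, 0, 0), (173, 0, 0, 0, 0), (174, 0, 0, 0, 0), (175, 0, 0, 0, 0), (68, 0, 0, 0, 0), (175, 0, 0, 0, 0), (69, 0, 0, 0, 0), (68, 0, 0, 0, 0), (69, 0, 0, 0, 0), (176, 0, 0, 0, 0), (177, 0, 0, 0, 0), (176, 0, 0, 0, 0), (178, 0, 0, 0, 0), (177, 0, 0, 0, 0), (178, 0, 0, 0, 0), (70, 0, 0, 0, 0), (179, 0, 0, 0, 0), (70, 0, 0, 0, 0), (71, 0, 0, 0, 0), (179, 0, 0, 0, 0), (71, 0, 0, 0, 0)],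
  [(28, 0, 0, 0, 0), (116, 0, 0, 0, 0), (28, 0, 0, 0, 0), (29, 0, 0, 0, 0), (116, 0, 0, 0, 0), (29, 0, 0, 0, 0), (122, 0, 0, 0, 0), (123, 0, 0, 0, 0), (122, 0, 0, 0, 0), (124, 0, 0, 0, 0), (123, 0, 0, 0, 0), (124, 0, 0, 0, 0), (38, 0, 0, 0, 0), (39, 0, 0, 0, 0), (38, 0, 0, 0, 0), (130, 0, 0, 0, 0), (39, 0, 0, 0, 0), (130, 0, 0, 0, 0), (136, 0, 0, 0, 0), (137, 0, 0, 0, 0), (136, 0, 0, 0, 0), (138, 0, 0, 0, 0), (137, 0, 0, 0, 0), (138, 0, 0, 0, 0), (24, 0, 0, 0, 0), (108, 0, 0, 0, 0), (24, 0, 0, 0, 0), (25, 0, 0, 0, 0), (108, 0, 0, 0, 0), (25, 0, 0, 0, 0), (34, 0, 0, 0, 0), (125, 0, 0, 0, 0), (34, 0, 0, 0, 0), (35, 0, 0, 0, 0), (125, 0, 0, 0, 0), (35, 0, 0, 0, 0), (131, 0, 0, 0, 0), (132, 0, 0, 0, 0), (131, 0, 0, 0, 0), (133, 0, 0, 0, 0), (132, 0, 0, 0, 0), (133, 0, 0, 0, 0), (139, 0, 0, 0, 0), (44, 0, 0, 0, 0), (139,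 0, 0, 0, 0), (45, 0, 0, 0, 0), (44, 0, 0, 0, 0), (45, 0, 0, 0, 0), (109, 0, 0, 0, 0), (110, 0, 0, 0, 0), (109, 0, 0, 0, 0), (111, 0, 0, 0, 0), (110, 0, 0, 0, 0), (111, 0, 0, 0, 0), (30, 0, 0, 0, 0), (117, 0, 0, 0, 0), (30, 0, 0, 0, 0), (31, 0, 0, 0, 0), (117, 0, 0, 0, 0), (31, 0, 0, 0, 0), (40, 0, 0, 0, 0), (134, 0, 0, 0, 0), (40, 0, 0, 0, 0), (41, 0, 0, 0, 0), (134, 0, 0, 0, 0), (41, 0, 0, 0, 0), (140, 0, 0, 0, 0), (141, 0, 0, 0, 0), (140, 0, 0, 0, 0), (142, 0, 0, 0, 0), (141, 0, 0, 0, 0), (142, 0, 0, 0, 0), (26, 0, 0, 0, 0), (27, 0, 0, 0, 0), (26, 0, 0, 0, 0), (112, 0, 0, 0, 0), (27, 0, 0, 0, 0), (112, 0, 0, 0, 0), (118, 0, 0, 0, 0), (119, 0, 0, 0, 0), (118, 0, 0, 0, 0), (120, 0, 0, 0, 0), (119, 0, 0, 0, 0), (120, 0, 0, 0, 0), (36, 0, 0, 0, 0), (126, 0, 0, 0, 0), (36, 0, 0, 0, 0), (37, 0, 0, 0, 0), (126, 0, 0, 0,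 0), (37, 0, 0, 0, 0), (46, 0, 0, 0, 0), (143, 0, 0, 0, 0), (46, 0, 0, 0, 0), (47, 0, 0, 0, 0), (143, 0, 0, 0, 0), (47, 0, 0, 0, 0), (113, 0, 0, 0, 0), (114, 0, 0, 0, 0), (113, 0, 0, 0, 0), (115, 0, 0, 0, 0), (114, 0, 0, 0, 0), (115, 0, 0, 0, 0), (121, 0, 0, 0, 0), (32, 0, 0, 0, 0), (121, 0, 0, 0, 0), (33, 0, 0, 0, 0), (32, 0, 0, 0, 0), (33, 0, 0, 0, 0), (127, 0, 0, 0, 0), (128, 0, 0, 0, 0), (127, 0, 0, 0, 0), (129, 0, 0, 0, 0), (128, 0, 0, 0, 0), (129, 0, 0, 0, 0), (42, 0, 0, 0, 0), (135, 0, 0, 0, 0), (42, 0, 0, 0, 0), (43, 0, 0, 0, 0), (135, 0, 0, 0, 0), (43, 0, 0, 0, 0)],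
  [(52, 0, 0, 0, 0), (152, 0, 0, 0, 0), (52, 0, 0, 0, 0), (53, 0, 0, 0, 0), (152, 0, 0, 0, 0), (53, 0, 0, 0, 0), (158, 0, 0, 0, 0), (159, 0, 0, 0, 0), (158, 0, 0, 0, 0), (160, 0, 0, 0, 0), (159, 0, 0, 0, 0), (160, 0, 0, 0, 0), (62, 0, 0, 0, 0), (63, 0, 0, 0, 0), (62, 0, 0, 0, 0), (166, 0, 0, 0, 0), (63, 0, 0, 0, 0), (166, 0, 0, 0, 0), (172, 0, 0, 0, 0), (173, 0, 0, 0, 0), (172, 0, 0, 0, 0), (174, 0, 0, 0, 0), (173, 0, 0, 0, 0), (174, 0, 0, 0, 0), (48, 0, 0, 0, 0), (144, 0, 0, 0, 0), (48, 0, 0, 0, 0), (49, 0, 0, 0, 0), (144, 0, 0, 0, 0), (49, 0, 0, 0, 0), (58, 0, 0, 0, 0), (161, 0, 0, 0, 0), (58, 0, 0, 0, 0), (59, 0, 0, 0, 0), (161, 0, 0, 0, 0), (59, 0, 0, 0, 0), (167, 0, 0, 0, 0), (168, 0, 0, 0, 0), (167, 0, 0, 0, 0), (169, 0, 0, 0, 0), (168, 0, 0, 0, 0), (169, 0, 0, 0, 0), (175, 0, 0, 0, 0), (68, 0, 0, 0, 0), (175,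 0, 0, 0, 0), (69, 0, 0, 0, 0), (68, 0, 0, 0, 0), (69, 0, 0, 0, 0), (145, 0, 0, 0, 0), (146, 0, 0, 0, 0), (145, 0, 0, 0, 0), (147, 0, 0, 0, 0), (146, 0, 0, 0, 0), (147, 0, 0, 0, 0), (54, 0, 0, 0, 0), (153, 0, 0, 0, 0), (54, 0, 0, 0, 0), (55, 0, 0, 0, 0), (153, 0, 0, 0, 0), (55, 0, 0, 0, 0), (64, 0, 0, 0, 0), (170, 0, 0, 0, 0), (64, 0, 0, 0, 0), (65, 0, 0, 0, 0), (170, 0, 0, 0, 0), (65, 0, 0, 0, 0), (176, 0, 0, 0, 0), (177, 0, 0, 0, 0), (176, 0, 0, 0, 0), (178, 0, 0, 0, 0), (177, 0, 0, 0, 0), (178, 0, 0, 0, 0), (50, 0, 0, 0, 0), (51, 0, 0, 0, 0), (50, 0, 0, 0, 0), (148, 0, 0, 0, 0), (51, 0, 0, 0, 0), (148, 0, 0, 0, 0), (154, 0, 0, 0, 0), (155, 0, 0, 0, 0), (154, 0, 0, 0, 0), (156, 0, 0, 0, 0), (155, 0, 0, 0, 0), (156, 0, 0, 0, 0), (60, 0, 0, 0, 0), (162, 0, 0, 0, 0), (60, 0, 0, 0, 0), (61, 0, 0, 0, 0), (162, 0, 0, 0,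 0), (61, 0, 0, 0, 0), (70, 0, 0, 0, 0), (179, 0, 0, 0, 0), (70, 0, 0, 0, 0), (71, 0, 0, 0, 0), (179, 0, 0, 0, 0), (71, 0, 0, 0, 0), (149, 0, 0, 0, 0), (150, 0, 0, 0, 0), (149, 0, 0, 0, 0), (151, 0, 0, 0, 0), (150, 0, 0, 0, 0), (151, 0, 0, 0, 0), (157, 0, 0, 0, 0), (56, 0, 0, 0, 0), (157, 0, 0, 0, 0), (57, 0, 0, 0, 0), (56, 0, 0, 0, 0), (57, 0, 0, 0, 0), (163, 0, 0, 0, 0), (164, 0, 0, 0, 0), (163, 0, 0, 0, 0), (165, 0, 0, 0, 0), (164, 0, 0, 0, 0), (165, 0, 0, 0, 0), (66, 0, 0, 0, 0), (171, 0, 0, 0, 0), (66, 0, 0, 0, 0), (67, 0, 0, 0, 0), (171, 0, 0, 0, 0), (67, 0, 0, 0, 0)]]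

def m32_1 : Base := (0, 1, [(0, [0], [0, 5]), (0, [1], [1, 2]), (0, [2], [3, 4]), (4, [], [5])])

def l32_1 : Cov := [(1152, 0, 1, [(0, [0], [0, 5]), (0, [1], [1, 2]), (0, [2], [3, 4]), (4, [], [5])]),
  (-1152, 0, 1, [(0, [0], [0, 5]), (0, [1], [1, 4]), (0, [2], [2, 3]), (4, [], [5])]),
  (-1152, 0, 1, [(0, [0], [0, 5]), (0, [1], [2, 3]), (0, [2], [1, 4]), (4, [], [5])]),
  (1152, 0, 1, [(0, [0], [0, 5]), (0, [1], [3, 4]), (0, [2], [1, 2]), (4, [], [5])]),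
  (-1152, 0, 1, [(0, [0], [2, 5]), (0, [1], [0, 1]), (0, [2], [3, 4]), (4, [], [5])]),
  (1152, 0, 1, [(0, [0], [2, 5]), (0, [1], [0, 3]), (0, [2], [1, 4]), (4, [], [5])]),
  (1152, 0, 1, [(0, [0], [2, 5]), (0, [1], [1, 4]), (0, [2], [0, 3]), (4, [], [5])]),
  (-1152, 0, 1, [(0, [0], [2, 5]), (0, [1], [3, 4]), (0, [2], [0, 1]), (4, [], [5])]),
  (1152, 0, 1, [(0, [0], [4, 5]), (0, [1], [0, 1]), (0, [2], [2, 3]), (4, [], [5])]),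
  (-1152, 0, 1, [(0, [0], [4, 5]), (0, [1], [0, 3]), (0, [2], [1, 2]), (4, [], [5])]),
  (-1152, 0, 1, [(0, [0], [4, 5]), (0, [1], [1, 2]), (0, [2], [0, 3]), (4, [], [5])]),
  (1152, 0, 1, [(0, [0], [4, 5]), (0, [1], [2, 3]), (0, [2], [0, 1]), (4, [], [5])]),
  (1152, 0, 1, [(0, [1], [0, 5]), (0, [0], [1, 2]), (0, [2], [3, 4]), (4, [], [5])]),
  (-1152, 0, 1, [(0, [1], [0, 5]), (0, [0], [1, 4]), (0, [2], [2, 3]), (4, [], [5])]),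
  (-1152, 0, 1, [(0, [1], [0, 5]), (0, [0], [2, 3]), (0, [2], [1, 4]), (4, [], [5])]),
  (1152, 0, 1, [(0, [1], [0, 5]), (0, [0], [3, 4]), (0, [2], [1, 2]), (4, [], [5])]),
  (-1152, 0, 1, [(0, [1], [2, 5]), (0, [0], [0, 1]), (0, [2], [3, 4]), (4, [], [5])]),
  (1152, 0, 1, [(0, [1], [2, 5]), (0, [0], [0, 3]), (0, [2], [1, 4]), (4, [], [5])]),
  (1152, 0, 1, [(0, [1], [2, 5]), (0, [0], [1, 4]), (0, [2], [0, 3]), (4, [], [5])]),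
  (-1152, 0, 1, [(0, [1], [2, 5]), (0, [0], [3, 4]), (0, [2], [0, 1]), (4, [], [5])]),
  (1152, 0, 1, [(0, [1], [4, 5]), (0, [0], [0, 1]), (0, [2], [2, 3]), (4, [], [5])]),
  (-1152, 0, 1, [(0, [1], [4, 5]), (0, [0], [0, 3]), (0, [2], [1, 2]), (4, [], [5])]),
  (-1152, 0, 1, [(0, [1], [4, 5]), (0, [0], [1, 2]), (0, [2], [0, 3]), (4, [], [5])]),
  (1152, 0, 1, [(0, [1], [4, 5]), (0, [0], [2, 3]), (0, [2], [0, 1]), (4, [], [5])]),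
  (1152, 0, 1, [(0, [2], [0, 5]), (0, [0], [1, 2]), (0, [1], [3, 4]), (4, [], [5])]),
  (-1152, 0, 1, [(0, [2], [0, 5]), (0, [0], [1, 4]), (0, [1], [2, 3]), (4, [], [5])]),
  (-1152, 0, 1, [(0, [2], [0, 5]), (0, [0], [2, 3]), (0, [1], [1, 4]), (4, [], [5])]),
  (1152, 0, 1, [(0, [2], [0, 5]), (0, [0], [3, 4]), (0, [1], [1, 2]), (4, [], [5])]),
  (-1152, 0, 1, [(0, [2], [2, 5]), (0, [0], [0, 1]), (0, [1], [3, 4]), (4, [], [5])]),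
  (1152, 0, 1, [(0, [2], [2, 5]), (0, [0], [0, 3]), (0, [1], [1, 4]), (4, [], [5])]),
  (1152, 0, 1, [(0, [2], [2, 5]), (0, [0], [1, 4]), (0, [1], [0, 3]), (4, [], [5])]),
  (-1152, 0, 1, [(0, [2], [2, 5]), (0, [0], [3, 4]), (0, [1], [0, 1]), (4, [], [5])]),
  (1152, 0, 1, [(0, [2], [4, 5]), (0, [0], [0, 1]), (0, [1], [2, 3]), (4, [], [5])]),
  (-1152, 0, 1, [(0, [2], [4, 5]), (0, [0], [0, 3]), (0, [1], [1, 2]), (4, [], [5])]),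
  (-1152, 0, 1, [(0, [2], [4, 5]), (0, [0], [1, 2]), (0, [1], [0, 3]), (4, [], [5])]),
  (1152, 0, 1, [(0, [2], [4, 5]), (0, [0], [2, 3]), (0, [1], [0, 1]), (4, [], [5])])]

def z32_1 : Cov := [(0, 0, 1, [(0, [0], [0, 5]), (0, [1], [1, 3]), (0, [2], [2, 4]), (4, [], [5])]),
  (0, 0, 1, [(0, [0], [0, 5]), (0, [1], [2, 4]), (0, [2], [1, 3]), (4, [], [5])]),
  (0, 0, 1, [(0, [0], [1, 5]), (0, [1], [0, 2]), (0, [2], [3, 4]), (4, [], [5])]),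
  (0, 0, 1, [(0, [0], [1, 5]), (0, [1], [0, 3]), (0, [2], [2, 4]), (4, [], [5])]),
  (0, 0, 1, [(0, [0], [1, 5]), (0, [1], [0, 4]), (0, [2], [2, 3]), (4, [], [5])]),
  (0, 0, 1, [(0, [0], [1, 5]), (0, [1], [2, 3]), (0, [2], [0, 4]), (4, [], [5])]),
  (0, 0, 1, [(0, [0], [1, 5]), (0, [1], [2, 4]), (0, [2], [0, 3]), (4, [], [5])]),
  (0, 0, 1, [(0, [0], [1, 5]), (0, [1], [3, 4]), (0, [2], [0, 2]), (4, [], [5])]),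
  (0, 0, 1, [(0, [0], [2, 5]), (0, [1], [0, 4]), (0, [2], [1, 3]), (4, [], [5])]),
  (0, 0, 1, [(0, [0], [2, 5]), (0, [1], [1, 3]), (0, [2], [0, 4]), (4, [], [5])]),
  (0, 0, 1, [(0, [0], [3, 5]), (0, [1], [0, 1]), (0, [2], [2, 4]), (4, [], [5])]),
  (0, 0, 1, [(0, [0], [3, 5]), (0, [1], [0, 2]), (0, [2], [1, 4]), (4, [], [5])]),
  (0, 0, 1, [(0, [0], [3, 5]), (0, [1], [0, 4]), (0, [2], [1, 2]), (4, [], [5])]),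
  (0, 0, 1, [(0, [0], [3, 5]), (0, [1], [1, 2]), (0, [2], [0, 4]), (4, [], [5])]),
  (0, 0, 1, [(0, [0], [3, 5]), (0, [1], [1, 4]), (0, [2], [0, 2]), (4, [], [5])]),
  (0, 0, 1, [(0, [0], [3, 5]), (0, [1], [2, 4]), (0, [2], [0, 1]), (4, [], [5])]),
  (0, 0, 1, [(0, [0], [4, 5]), (0, [1], [0, 2]), (0, [2], [1, 3]), (4, [], [5])]),
  (0, 0, 1, [(0, [0], [4, 5]), (0, [1], [1, 3]), (0, [2], [0, 2]), (4, [], [5])]),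
  (0, 0, 1, [(0, [1], [0, 5]), (0, [0], [1, 3]), (0, [2], [2, 4]), (4, [], [5])]),
  (0, 0, 1, [(0, [1], [0, 5]), (0, [0], [2, 4]), (0, [2], [1, 3]), (4, [], [5])]),
  (0, 0, 1, [(0, [1], [1, 5]), (0, [0], [0, 2]), (0, [2], [3, 4]), (4, [], [5])]),
  (0, 0, 1, [(0, [1], [1, 5]), (0, [0], [0, 3]), (0, [2], [2, 4]), (4, [], [5])]),
  (0, 0, 1, [(0, [1], [1, 5]), (0, [0], [0, 4]), (0, [2], [2, 3]), (4, [], [5])]),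
  (0, 0, 1, [(0, [1], [1, 5]), (0, [0], [2, 3]), (0, [2], [0, 4]), (4, [], [5])]),
  (0, 0, 1, [(0, [1], [1, 5]), (0, [0], [2, 4]), (0, [2], [0, 3]), (4, [], [5])]),
  (0, 0, 1, [(0, [1], [1, 5]), (0, [0], [3, 4]), (0, [2], [0, 2]), (4, [], [5])]),
  (0, 0, 1, [(0, [1], [2, 5]), (0, [0], [0, 4]), (0, [2], [1, 3]), (4, [], [5])]),
  (0, 0, 1, [(0, [1], [2, 5]), (0, [0], [1, 3]), (0, [2], [0, 4]), (4, [], [5])]),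
  (0, 0, 1, [(0, [1], [3, 5]), (0, [0], [0, 1]), (0, [2], [2, 4]), (4, [], [5])]),
  (0, 0, 1, [(0, [1], [3, 5]), (0, [0], [0, 2]), (0, [2], [1, 4]), (4, [], [5])]),
  (0, 0, 1, [(0, [1], [3, 5]), (0, [0], [0, 4]), (0, [2], [1, 2]), (4, [], [5])]),
  (0, 0, 1, [(0, [1], [3, 5]), (0, [0], [1, 2]), (0, [2], [0, 4]), (4, [], [5])]),
  (0, 0, 1, [(0, [1], [3, 5]), (0, [0], [1, 4]), (0, [2], [0, 2]), (4, [], [5])]),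
  (0, 0, 1, [(0, [1], [3, 5]), (0, [0], [2, 4]), (0, [2], [0, 1]), (4, [], [5])]),
  (0, 0, 1, [(0, [1], [4, 5]), (0, [0], [0, 2]), (0, [2], [1, 3]), (4, [], [5])]),
  (0, 0, 1, [(0, [1], [4, 5]), (0, [0], [1, 3]), (0, [2], [0, 2]), (4, [], [5])]),
  (0, 0, 1, [(0, [2], [0, 5]), (0, [0], [1, 3]), (0, [1], [2, 4]), (4, [], [5])]),
  (0, 0, 1, [(0, [2], [0, 5]), (0, [0], [2, 4]), (0, [1], [1, 3]), (4, [], [5])]),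
  (0, 0, 1, [(0, [2], [1, 5]), (0, [0], [0, 2]), (0, [1], [3, 4]), (4, [], [5])]),
  (0, 0, 1, [(0, [2], [1, 5]), (0, [0], [0, 3]), (0, [1], [2, 4]), (4, [], [5])]),
  (0, 0, 1, [(0, [2], [1, 5]), (0, [0], [0, 4]), (0, [1], [2, 3]), (4, [], [5])]),
  (0, 0, 1, [(0, [2], [1, 5]), (0, [0], [2, 3]), (0, [1], [0, 4]), (4, [], [5])]),
  (0, 0, 1, [(0, [2], [1, 5]), (0, [0], [2, 4]), (0, [1], [0, 3]), (4, [], [5])]),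
  (0, 0, 1, [(0, [2], [1, 5]), (0, [0], [3, 4]), (0, [1], [0, 2]), (4, [], [5])]),
  (0, 0, 1, [(0, [2], [2, 5]), (0, [0], [0, 4]), (0, [1], [1, 3]), (4, [], [5])]),
  (0, 0, 1, [(0, [2], [2, 5]), (0, [0], [1, 3]), (0, [1], [0, 4]), (4, [], [5])]),
  (0, 0, 1, [(0, [2], [3, 5]), (0, [0], [0, 1]), (0, [1], [2, 4]), (4, [], [5])]),
  (0, 0, 1, [(0, [2], [3, 5]), (0, [0], [0, 2]), (0, [1], [1, 4]), (4, [], [5])]),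
  (0, 0, 1, [(0, [2], [3, 5]), (0, [0], [0, 4]), (0, [1], [1, 2]), (4, [], [5])]),
  (0, 0, 1, [(0, [2], [3, 5]), (0, [0], [1, 2]), (0, [1], [0, 4]), (4, [], [5])]),
  (0, 0, 1, [(0, [2], [3, 5]), (0, [0], [1, 4]), (0, [1], [0, 2]), (4, [], [5])]),
  (0, 0, 1, [(0, [2], [3, 5]), (0, [0], [2, 4]), (0, [1], [0, 1]), (4, [], [5])]),
  (0, 0, 1, [(0, [2], [4, 5]), (0, [0], [0, 2]), (0, [1], [1, 3]), (4, [], [5])]),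
  (0, 0, 1, [(0, [2], [4, 5]), (0, [0], [1, 3]), (0, [1], [0, 2]), (4, [], [5])])]

def w32_1 : List (List Wit) := [[(0, 0, 0, 0, 0), (0, 0, 0, 0, 0), (36, 0, 0, 0, 0), (36, 0, 0, 0, 0), (1, 0, 0, 0, 0), (1, 0, 0, 0, 0), (0, 0, 0, 0, 0), (0, 0, 0, 0, 0), (2, 0, 0, 0, 0), (2, 0, 0, 0, 0), (37, 0, 0, 0, 0), (37, 0, 0, 0, 0), (36, 0, 0, 0, 0), (36, 0, 0, 0, 0), (2, 0, 0, 0, 0), (2, 0, 0, 0, 0), (3, 0, 0, 0, 0), (3, 0, 0, 0, 0), (1, 0, 0, 0, 0), (1, 0, 0, 0, 0), (37, 0, 0, 0, 0), (37, 0, 0, 0, 0), (3, 0, 0, 0, 0), (3, 0, 0, 0, 0), (38, 0, 0, 0, 0), (38, 0, 0, 0, 0), (39, 0, 0, 0, 0), (39, 0, 0, 0, 0), (40, 0, 0, 0, 0), (40, 0, 0, 0, 0), (38, 0, 0, 0, 0), (38, 0, 0, 0, 0), (41, 0, 0, 0, 0), (41, 0, 0, 0, 0), (42, 0, 0, 0, 0), (42, 0, 0, 0, 0), (39, 0, 0, 0, 0), (39, 0, 0, 0, 0), (41, 0, 0, 0, 0), (41, 0, 0, 0, 0), (43,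 0, 0, 0, 0), (43, 0, 0, 0, 0), (40, 0, 0, 0, 0), (40, 0, 0, 0, 0), (42, 0, 0, 0, 0), (42, 0, 0, 0, 0), (43, 0, 0, 0, 0), (43, 0, 0, 0, 0), (4, 0, 0, 0, 0), (4, 0, 0, 0, 0), (5, 0, 0, 0, 0), (5, 0, 0, 0, 0), (44, 0, 0, 0, 0), (44, 0, 0, 0, 0), (4, 0, 0, 0, 0), (4, 0, 0, 0, 0), (45, 0, 0, 0, 0), (45, 0, 0, 0, 0), (6, 0, 0, 0, 0), (6, 0, 0, 0, 0), (5, 0, 0, 0, 0), (5, 0, 0, 0, 0), (45, 0, 0, 0, 0), (45, 0, 0, 0, 0), (7, 0, 0, 0, 0), (7, 0, 0, 0, 0), (44, 0, 0, 0, 0), (44, 0, 0, 0, 0), (6, 0, 0, 0, 0), (6, 0, 0, 0, 0), (7, 0, 0, 0, 0), (7, 0, 0, 0, 0), (46, 0, 0, 0, 0), (46, 0, 0, 0, 0), (47, 0, 0, 0, 0), (47, 0, 0, 0, 0), (48, 0, 0, 0, 0), (48, 0, 0, 0, 0), (46, 0, 0, 0, 0), (46, 0, 0, 0, 0), (49, 0, 0, 0, 0), (49, 0, 0, 0, 0), (50, 0, 0, 0, 0), (50, 0, 0, 0, 0), (47, 0, 0, 0, 0), (47, 0, 0, 0, 0), (49, 0, 0, 0, 0),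 (49, 0, 0, 0, 0), (51, 0, 0, 0, 0), (51, 0, 0, 0, 0), (48, 0, 0, 0, 0), (48, 0, 0, 0, 0), (50, 0, 0, 0, 0), (50, 0, 0, 0, 0), (51, 0, 0, 0, 0), (51, 0, 0, 0, 0), (8, 0, 0, 0, 0), (8, 0, 0, 0, 0), (52, 0, 0, 0, 0), (52, 0, 0, 0, 0), (9, 0, 0, 0, 0), (9, 0, 0, 0, 0), (8, 0, 0, 0, 0), (8, 0, 0, 0, 0), (10, 0, 0, 0, 0), (10, 0, 0, 0, 0), (53, 0, 0, 0, 0), (53, 0, 0, 0, 0), (52, 0, 0, 0, 0), (52, 0, 0, 0, 0), (10, 0, 0, 0, 0), (10, 0, 0, 0, 0), (11, 0, 0, 0, 0), (11, 0, 0, 0, 0), (9, 0, 0, 0, 0), (9, 0, 0, 0, 0), (53, 0, 0, 0, 0), (53, 0, 0, 0, 0), (11, 0, 0, 0, 0), (11, 0, 0, 0, 0)],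
  [(3, 0, 0, 0, 0), (3, 0, 0, 0, 0), (37, 0, 0, 0, 0), (37, 0, 0, 0, 0), (2, 0, 0, 0, 0), (2, 0, 0, 0, 0), (3, 0, 0, 0, 0), (3, 0, 0, 0, 0), (1, 0, 0, 0, 0), (1, 0, 0, 0, 0), (36, 0, 0, 0, 0), (36, 0, 0, 0, 0), (37, 0, 0, 0, 0), (37, 0, 0, 0, 0), (1, 0, 0, 0, 0), (1, 0, 0, 0, 0), (0, 0, 0, 0, 0), (0, 0, 0, 0, 0), (2, 0, 0, 0, 0), (2, 0, 0, 0, 0), (36, 0, 0, 0, 0), (36, 0, 0, 0, 0), (0, 0, 0, 0, 0), (0, 0, 0, 0, 0), (43, 0, 0, 0, 0), (43, 0, 0, 0, 0), (42, 0, 0, 0, 0), (42, 0, 0, 0, 0), (41, 0, 0, 0, 0), (41, 0, 0, 0, 0), (43, 0, 0, 0, 0), (43, 0, 0, 0, 0), (40, 0, 0, 0, 0), (40, 0, 0, 0, 0), (39, 0, 0, 0, 0), (39, 0, 0, 0, 0), (42, 0, 0, 0, 0), (42, 0, 0, 0, 0), (40, 0, 0, 0, 0), (40, 0, 0, 0, 0), (38, 0, 0, 0, 0), (38, 0, 0, 0, 0), (41, 0, 0, 0, 0), (41, 0, 0, 0, 0), (39, 0, 0, 0, 0), (39, 0, 0, 0, 0), (38, 0, 0,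 0, 0), (38, 0, 0, 0, 0), (7, 0, 0, 0, 0), (7, 0, 0, 0, 0), (6, 0, 0, 0, 0), (6, 0, 0, 0, 0), (45, 0, 0, 0, 0), (45, 0, 0, 0, 0), (7, 0, 0, 0, 0), (7, 0, 0, 0, 0), (44, 0, 0, 0, 0), (44, 0, 0, 0, 0), (5, 0, 0, 0, 0), (5, 0, 0, 0, 0), (6, 0, 0, 0, 0), (6, 0, 0, 0, 0), (44, 0, 0, 0, 0), (44, 0, 0, 0, 0), (4, 0, 0, 0, 0), (4, 0, 0, 0, 0), (45, 0, 0, 0, 0), (45, 0, 0, 0, 0), (5, 0, 0, 0, 0), (5, 0, 0, 0, 0), (4, 0, 0, 0, 0), (4, 0, 0, 0, 0), (51, 0, 0, 0, 0), (51, 0, 0, 0, 0), (50, 0, 0, 0, 0), (50, 0, 0, 0, 0), (49, 0, 0, 0, 0), (49, 0, 0, 0, 0), (51, 0, 0, 0, 0), (51, 0, 0, 0, 0), (48, 0, 0, 0, 0), (48, 0, 0, 0, 0), (47, 0, 0, 0, 0), (47, 0, 0, 0, 0), (50, 0, 0, 0, 0), (50, 0, 0, 0, 0), (48, 0, 0, 0, 0), (48, 0, 0, 0, 0), (46, 0, 0, 0, 0), (46, 0, 0, 0, 0), (49, 0, 0, 0, 0), (49, 0, 0, 0, 0), (47, 0, 0, 0, 0), (47, 0,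 0, 0, 0), (46, 0, 0, 0, 0), (46, 0, 0, 0, 0), (11, 0, 0, 0, 0), (11, 0, 0, 0, 0), (53, 0, 0, 0, 0), (53, 0, 0, 0, 0), (10, 0, 0, 0, 0), (10, 0, 0, 0, 0), (11, 0, 0, 0, 0), (11, 0, 0, 0, 0), (9, 0, 0, 0, 0), (9, 0, 0, 0, 0), (52, 0, 0, 0, 0), (52, 0, 0, 0, 0), (53, 0, 0, 0, 0), (53, 0, 0, 0, 0), (9, 0, 0, 0, 0), (9, 0, 0, 0, 0), (8, 0, 0, 0, 0), (8, 0, 0, 0, 0), (10, 0, 0, 0, 0), (10, 0, 0, 0, 0), (52, 0, 0, 0, 0), (52, 0, 0, 0, 0), (8, 0, 0, 0, 0), (8, 0, 0, 0, 0)],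
  [(12, 0, 0, 0, 0), (12, 0, 0, 0, 0), (54, 0, 0, 0, 0), (54, 0, 0, 0, 0), (13, 0, 0, 0, 0), (13, 0, 0, 0, 0), (12, 0, 0, 0, 0), (12, 0, 0, 0, 0), (14, 0, 0, 0, 0), (14, 0, 0, 0, 0), (55, 0, 0, 0, 0), (55, 0, 0, 0, 0), (54, 0, 0, 0, 0), (54, 0, 0, 0, 0), (14, 0, 0, 0, 0), (14, 0, 0, 0, 0), (15, 0, 0, 0, 0), (15, 0, 0, 0, 0), (13, 0, 0, 0, 0), (13, 0, 0, 0, 0), (55, 0, 0, 0, 0), (55, 0, 0, 0, 0), (15, 0, 0, 0, 0), (15, 0, 0, 0, 0), (56, 0, 0, 0, 0), (56, 0, 0, 0, 0), (57, 0, 0, 0, 0), (57, 0, 0, 0, 0), (58, 0, 0, 0, 0), (58, 0, 0, 0, 0), (56, 0, 0, 0, 0), (56, 0, 0, 0, 0), (59, 0, 0, 0, 0), (59, 0, 0, 0, 0), (60, 0, 0, 0, 0), (60, 0, 0, 0, 0), (57, 0, 0, 0, 0), (57, 0, 0, 0, 0), (59, 0, 0, 0, 0), (59, 0, 0, 0, 0), (61, 0, 0, 0, 0), (61, 0, 0, 0, 0), (58, 0, 0, 0, 0), (58, 0, 0, 0, 0), (60, 0, 0, 0, 0), (60, 0, 0, 0,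 0), (61, 0, 0, 0, 0), (61, 0, 0, 0, 0), (16, 0, 0, 0, 0), (16, 0, 0, 0, 0), (17, 0, 0, 0, 0), (17, 0, 0, 0, 0), (62, 0, 0, 0, 0), (62, 0, 0, 0, 0), (16, 0, 0, 0, 0), (16, 0, 0, 0, 0), (63, 0, 0, 0, 0), (63, 0, 0, 0, 0), (18, 0, 0, 0, 0), (18, 0, 0, 0, 0), (17, 0, 0, 0, 0), (17, 0, 0, 0, 0), (63, 0, 0, 0, 0), (63, 0, 0, 0, 0), (19, 0, 0, 0, 0), (19, 0, 0, 0, 0), (62, 0, 0, 0, 0), (62, 0, 0, 0, 0), (18, 0, 0, 0, 0), (18, 0, 0, 0, 0), (19, 0, 0, 0, 0), (19, 0, 0, 0, 0), (64, 0, 0, 0, 0), (64, 0, 0, 0, 0), (65, 0, 0, 0, 0), (65, 0, 0, 0, 0), (66, 0, 0, 0, 0), (66, 0, 0, 0, 0), (64, 0, 0, 0, 0), (64, 0, 0, 0, 0), (67, 0, 0, 0, 0), (67, 0, 0, 0, 0), (68, 0, 0, 0, 0), (68, 0, 0, 0, 0), (65, 0, 0, 0, 0), (65, 0, 0, 0, 0), (67, 0, 0, 0, 0), (67, 0, 0, 0, 0), (69, 0, 0, 0, 0), (69, 0, 0, 0, 0), (66, 0, 0, 0, 0), (66, 0, 0,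 0, 0), (68, 0, 0, 0, 0), (68, 0, 0, 0, 0), (69, 0, 0, 0, 0), (69, 0, 0, 0, 0), (20, 0, 0, 0, 0), (20, 0, 0, 0, 0), (70, 0, 0, 0, 0), (70, 0, 0, 0, 0), (21, 0, 0, 0, 0), (21, 0, 0, 0, 0), (20, 0, 0, 0, 0), (20, 0, 0, 0, 0), (22, 0, 0, 0, 0), (22, 0, 0, 0, 0), (71, 0, 0, 0, 0), (71, 0, 0, 0, 0), (70, 0, 0, 0, 0), (70, 0, 0, 0, 0), (22, 0, 0, 0, 0), (22, 0, 0, 0, 0), (23, 0, 0, 0, 0), (23, 0, 0, 0, 0), (21, 0, 0, 0, 0), (21, 0, 0, 0, 0), (71, 0, 0, 0, 0), (71, 0, 0, 0, 0), (23, 0, 0, 0, 0), (23, 0, 0, 0, 0)],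
  [(15, 0, 0, 0, 0), (15, 0, 0, 0, 0), (55, 0, 0, 0, 0), (55, 0, 0, 0, 0), (14, 0, 0, 0, 0), (14, 0, 0, 0, 0), (15, 0, 0, 0, 0), (15, 0, 0, 0, 0), (13, 0, 0, 0, 0), (13, 0, 0, 0, 0), (54, 0, 0, 0, 0), (54, 0, 0, 0, 0), (55, 0, 0, 0, 0), (55, 0, 0, 0, 0), (13, 0, 0, 0, 0), (13, 0, 0, 0, 0), (12, 0, 0, 0, 0), (12, 0, 0, 0, 0), (14, 0, 0, 0, 0), (14, 0, 0, 0, 0), (54, 0, 0, 0, 0), (54, 0, 0, 0, 0), (12, 0, 0, 0, 0), (12, 0, 0, 0, 0), (61, 0, 0, 0, 0), (61, 0, 0, 0, 0), (60, 0, 0, 0, 0), (60, 0, 0, 0, 0), (59, 0, 0, 0, 0), (59, 0, 0, 0, 0), (61, 0, 0, 0, 0), (61, 0, 0, 0, 0), (58, 0, 0, 0, 0), (58, 0, 0, 0, 0), (57, 0, 0, 0, 0), (57, 0, 0, 0, 0), (60, 0, 0, 0, 0), (60, 0, 0, 0, 0), (58, 0, 0, 0, 0), (58, 0, 0, 0, 0), (56, 0, 0, 0, 0), (56, 0, 0, 0, 0), (59, 0, 0, 0, 0), (59, 0, 0, 0, 0), (57, 0, 0, 0, 0), (57, 0, 0, 0,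 0), (56, 0, 0, 0, 0), (56, 0, 0, 0, 0), (19, 0, 0, 0, 0), (19, 0, 0, 0, 0), (18, 0, 0, 0, 0), (18, 0, 0, 0, 0), (63, 0, 0, 0, 0), (63, 0, 0, 0, 0), (19, 0, 0, 0, 0), (19, 0, 0, 0, 0), (62, 0, 0, 0, 0), (62, 0, 0, 0, 0), (17, 0, 0, 0, 0), (17, 0, 0, 0, 0), (18, 0, 0, 0, 0), (18, 0, 0, 0, 0), (62, 0, 0, 0, 0), (62, 0, 0, 0, 0), (16, 0, 0, 0, 0), (16, 0, 0, 0, 0), (63, 0, 0, 0, 0), (63, 0, 0, 0, 0), (17, 0, 0, 0, 0), (17, 0, 0, 0, 0), (16, 0, 0, 0, 0), (16, 0, 0, 0, 0), (69, 0, 0, 0, 0), (69, 0, 0, 0, 0), (68, 0, 0, 0, 0), (68, 0, 0, 0, 0), (67, 0, 0, 0, 0), (67, 0, 0, 0, 0), (69, 0, 0, 0, 0), (69, 0, 0, 0, 0), (66, 0, 0, 0, 0), (66, 0, 0, 0, 0), (65, 0, 0, 0, 0), (65, 0, 0, 0, 0), (68, 0, 0, 0, 0), (68, 0, 0, 0, 0), (66, 0, 0, 0, 0), (66, 0, 0, 0, 0), (64, 0, 0, 0, 0), (64, 0, 0, 0, 0), (67, 0, 0, 0, 0), (67, 0, 0,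 0, 0), (65, 0, 0, 0, 0), (65, 0, 0, 0, 0), (64, 0, 0, 0, 0), (64, 0, 0, 0, 0), (23, 0, 0, 0, 0), (23, 0, 0, 0, 0), (71, 0, 0, 0, 0), (71, 0, 0, 0, 0), (22, 0, 0, 0, 0), (22, 0, 0, 0, 0), (23, 0, 0, 0, 0), (23, 0, 0, 0, 0), (21, 0, 0, 0, 0), (21, 0, 0, 0, 0), (70, 0, 0, 0, 0), (70, 0, 0, 0, 0), (71, 0, 0, 0, 0), (71, 0, 0, 0, 0), (21, 0, 0, 0, 0), (21, 0, 0, 0, 0), (20, 0, 0, 0, 0), (20, 0, 0, 0, 0), (22, 0, 0, 0, 0), (22, 0, 0, 0, 0), (70, 0, 0, 0, 0), (70, 0, 0, 0, 0), (20, 0, 0, 0, 0), (20, 0, 0, 0, 0)],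
  [(24, 0, 0, 0, 0), (24, 0, 0, 0, 0), (72, 0, 0, 0, 0), (72, 0, 0, 0, 0), (25, 0, 0, 0, 0), (25, 0, 0, 0, 0), (24, 0, 0, 0, 0), (24, 0, 0, 0, 0), (26, 0, 0, 0, 0), (26, 0, 0, 0, 0), (73, 0, 0, 0, 0), (73, 0, 0, 0, 0), (72, 0, 0, 0, 0), (72, 0, 0, 0, 0), (26, 0, 0, 0, 0), (26, 0, 0, 0, 0), (27, 0, 0, 0, 0), (27, 0, 0, 0, 0), (25, 0, 0, 0, 0), (25, 0, 0, 0, 0), (73, 0, 0, 0, 0), (73, 0, 0, 0, 0), (27, 0, 0, 0, 0), (27, 0, 0, 0, 0), (74, 0, 0, 0, 0), (74, 0, 0, 0, 0), (75, 0, 0, 0, 0), (75, 0, 0, 0, 0), (76, 0, 0, 0, 0), (76, 0, 0, 0, 0), (74, 0, 0, 0, 0), (74, 0, 0, 0, 0), (77, 0, 0, 0, 0), (77, 0, 0, 0, 0), (78, 0, 0, 0, 0), (78, 0, 0, 0, 0), (75, 0, 0, 0, 0), (75, 0, 0, 0, 0), (77, 0, 0, 0, 0), (77, 0, 0, 0, 0), (79, 0, 0, 0, 0), (79, 0, 0, 0, 0), (76, 0, 0, 0, 0), (76, 0, 0, 0, 0), (78, 0, 0, 0, 0), (78, 0, 0, 0,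 0), (79, 0, 0, 0, 0), (79, 0, 0, 0, 0), (28, 0, 0, 0, 0), (28, 0, 0, 0, 0), (29, 0, 0, 0, 0), (29, 0, 0, 0, 0), (80, 0, 0, 0, 0), (80, 0, 0, 0, 0), (28, 0, 0, 0, 0), (28, 0, 0, 0, 0), (81, 0, 0, 0, 0), (81, 0, 0, 0, 0), (30, 0, 0, 0, 0), (30, 0, 0, 0, 0), (29, 0, 0, 0, 0), (29, 0, 0, 0, 0), (81, 0, 0, 0, 0), (81, 0, 0, 0, 0), (31, 0, 0, 0, 0), (31, 0, 0, 0, 0), (80, 0, 0, 0, 0), (80, 0, 0, 0, 0), (30, 0, 0, 0, 0), (30, 0, 0, 0, 0), (31, 0, 0, 0, 0), (31, 0, 0, 0, 0), (82, 0, 0, 0, 0), (82, 0, 0, 0, 0), (83, 0, 0, 0, 0), (83, 0, 0, 0, 0), (84, 0, 0, 0, 0), (84, 0, 0, 0, 0), (82, 0, 0, 0, 0), (82, 0, 0, 0, 0), (85, 0, 0, 0, 0), (85, 0, 0, 0, 0), (86, 0, 0, 0, 0), (86, 0, 0, 0, 0), (83, 0, 0, 0, 0), (83, 0, 0, 0, 0), (85, 0, 0, 0, 0), (85, 0, 0, 0, 0), (87, 0, 0, 0, 0), (87, 0, 0, 0, 0), (84, 0, 0, 0, 0), (84, 0, 0,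 0, 0), (86, 0, 0, 0, 0), (86, 0, 0, 0, 0), (87, 0, 0, 0, 0), (87, 0, 0, 0, 0), (32, 0, 0, 0, 0), (32, 0, 0, 0, 0), (88, 0, 0, 0, 0), (88, 0, 0, 0, 0), (33, 0, 0, 0, 0), (33, 0, 0, 0, 0), (32, 0, 0, 0, 0), (32, 0, 0, 0, 0), (34, 0, 0, 0, 0), (34, 0, 0, 0, 0), (89, 0, 0, 0, 0), (89, 0, 0, 0, 0), (88, 0, 0, 0, 0), (88, 0, 0, 0, 0), (34, 0, 0, 0, 0), (34, 0, 0, 0, 0), (35, 0, 0, 0, 0), (35, 0, 0, 0, 0), (33, 0, 0, 0, 0), (33, 0, 0, 0, 0), (89, 0, 0, 0, 0), (89, 0, 0, 0, 0), (35, 0, 0, 0, 0), (35, 0, 0, 0, 0)],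
  [(27, 0, 0, 0, 0), (27, 0, 0, 0, 0), (73, 0, 0, 0, 0), (73, 0, 0, 0, 0), (26, 0, 0, 0, 0), (26, 0, 0, 0, 0), (27, 0, 0, 0, 0), (27, 0, 0, 0, 0), (25, 0, 0, 0, 0), (25, 0, 0, 0, 0), (72, 0, 0, 0, 0), (72, 0, 0, 0, 0), (73, 0, 0, 0, 0), (73, 0, 0, 0, 0), (25, 0, 0, 0, 0), (25, 0, 0, 0, 0), (24, 0, 0, 0, 0), (24, 0, 0, 0, 0), (26, 0, 0, 0, 0), (26, 0, 0, 0, 0), (72, 0, 0, 0, 0), (72, 0, 0, 0, 0), (24, 0, 0, 0, 0), (24, 0, 0, 0, 0), (79, 0, 0, 0, 0), (79, 0, 0, 0, 0), (78, 0, 0, 0, 0), (78, 0, 0, 0, 0), (77, 0, 0, 0, 0), (77, 0, 0, 0, 0), (79, 0, 0, 0, 0), (79, 0, 0, 0, 0), (76, 0, 0, 0, 0), (76, 0, 0, 0, 0), (75, 0, 0, 0, 0), (75, 0, 0, 0, 0), (78, 0, 0, 0, 0), (78, 0, 0, 0, 0), (76, 0, 0, 0, 0), (76, 0, 0, 0, 0), (74, 0, 0, 0, 0), (74, 0, 0, 0, 0), (77, 0, 0, 0, 0), (77, 0, 0, 0, 0), (75, 0, 0, 0, 0), (75, 0, 0, 0,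 0), (74, 0, 0, 0, 0), (74, 0, 0, 0, 0), (31, 0, 0, 0, 0), (31, 0, 0, 0, 0), (30, 0, 0, 0, 0), (30, 0, 0, 0, 0), (81, 0, 0, 0, 0), (81, 0, 0, 0, 0), (31, 0, 0, 0, 0), (31, 0, 0, 0, 0), (80, 0, 0, 0, 0), (80, 0, 0, 0, 0), (29, 0, 0, 0, 0), (29, 0, 0, 0, 0), (30, 0, 0, 0, 0), (30, 0, 0, 0, 0), (80, 0, 0, 0, 0), (80, 0, 0, 0, 0), (28, 0, 0, 0, 0), (28, 0, 0, 0, 0), (81, 0, 0, 0, 0), (81, 0, 0, 0, 0), (29, 0, 0, 0, 0), (29, 0, 0, 0, 0), (28, 0, 0, 0, 0), (28, 0, 0, 0, 0), (87, 0, 0, 0, 0), (87, 0, 0, 0, 0), (86, 0, 0, 0, 0), (86, 0, 0, 0, 0), (85, 0, 0, 0, 0), (85, 0, 0, 0, 0), (87, 0, 0, 0, 0), (87, 0, 0, 0, 0), (84, 0, 0, 0, 0), (84, 0, 0, 0, 0), (83, 0, 0, 0, 0), (83, 0, 0, 0, 0), (86, 0, 0, 0, 0), (86, 0, 0, 0, 0), (84, 0, 0, 0, 0), (84, 0, 0, 0, 0), (82, 0, 0, 0, 0), (82, 0, 0, 0, 0), (85, 0, 0, 0, 0), (85, 0, 0,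 0, 0), (83, 0, 0, 0, 0), (83, 0, 0, 0, 0), (82, 0, 0, 0, 0), (82, 0, 0, 0, 0), (35, 0, 0, 0, 0), (35, 0, 0, 0, 0), (89, 0, 0, 0, 0), (89, 0, 0, 0, 0), (34, 0, 0, 0, 0), (34, 0, 0, 0, 0), (35, 0, 0, 0, 0), (35, 0, 0, 0, 0), (33, 0, 0, 0, 0), (33, 0, 0, 0, 0), (88, 0, 0, 0, 0), (88, 0, 0, 0, 0), (89, 0, 0, 0, 0), (89, 0, 0, 0, 0), (33, 0, 0, 0, 0), (33, 0, 0, 0, 0), (32, 0, 0, 0, 0), (32, 0, 0, 0, 0), (34, 0, 0, 0, 0), (34, 0, 0, 0, 0), (88, 0, 0, 0, 0), (88, 0, 0, 0, 0), (32, 0, 0, 0, 0), (32, 0, 0, 0, 0)]]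

theorem tr32 : trK keys lk32 kl32 = true := by
  decide +kernel

theorem x32_0 : expB 3 5 dg1 dg8 m32_0 (l32_0 ++ z32_0) w32_0 = true := by
  decide +kernel

theorem x32_1 : expB 3 5 dg1 dg8 m32_1 (l32_1 ++ z32_1) w32_1 = true := by
  decide +kernel

theorem t32_0_0 : chkS lk32 3 5 [(1, m32_0)] l32_0
  [(20, 33, 258, 103026771, 101975346), (24, 528, 528, 34887216, 36968016), (23, 528, 528, 34891056, 52696656), (27, 528, 528, 34887216, 36968016), (21, 33, 258, 87298146, 23351346), (33, 33, 258, 88211811, 23397411), (28, 18, 18, 55837026, 22306851), (11, 18, 18, 54592101, 17130051), (11, 33, 258, 70582626, 21385251), (13, 33, 258, 69537891, 21366066), (23, 513, 513, 34887171, 36963921), (12, 33, 258, 55640646, 5333571), (44, 528, 528, 51733056, 54616656), (41, 528, 528, 50684481, 54616581), (28, 33, 258, 55840806,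 5529906), (39, 33, 258, 72548646, 5652771), (44, 528, 528, 51717696, 37839696), (41, 528, 528, 50669121, 37839621), (41, 33, 258, 73728291, 88473891), (29, 33, 258, 56954916, 88105266), (12, 33, 258, 87425346, 73486371), (14, 33, 258, 86380611, 73467186), (41, 18, 18, 73728306, 88477731), (27, 18, 18, 55840806, 5529906), (25, 528, 528, 34891056, 52696656), (26, 528, 528, 34887216, 36968016), (22, 528, 528, 34887216, 36968016), (9, 33, 258, 40173891, 88147491), (35, 18, 18, 55840866, 22306866), (38, 18, 18, 55837026, 22306851), (28, 18, 18, 40112211, 85198386), (16, 528, 528, 33969201, 70391301), (39, 18, 18, 40042836, 84952611), (2, 528, 528, 19162371, 52692321), (42, 513, 513, 85206531, 40108881), (40, 258, 33, 102827061, 100799811), (4, 513, 513, 101926146, 102973521), (5, 33, 258, 40173891, 88147491), (28, 513,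 513, 101995011, 104071761), (11, 513, 513, 102843651, 102958401), (4, 513, 513, 101929986, 103956561), (5, 33, 258, 40177731, 88147506), (7, 513, 513, 101926146, 102973521), (16, 33, 258, 5321286, 5321286), (40, 18, 18, 40173876, 88086051), (34, 18, 18, 39063606, 5510706), (5, 513, 513, 101926146, 102973521), (19, 513, 513, 85344771, 73597521), (35, 33, 258, 55840806, 5529906), (38, 33, 258, 55836966, 5529891), (28, 33, 258, 40108341, 84153891), (11, 18, 18, 40173891, 88147491), (25, 513, 513, 34891011, 52692561), (26, 513, 513, 34887171, 36963921), (22, 528, 528, 101983536, 103027536), (19, 513, 513, 35017731, 70387281), (19, 258, 33, 19092996, 36717921), (18, 33, 258, 38998086, 5326386), (28, 528, 528, 101983536, 103027536), (39, 528, 528, 100869441, 102843141), (4, 528, 528, 101926176, 102973776), (7, 18, 18, 40173891,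 88147491), (42, 528, 528, 85221936, 56889936), (15, 18, 18, 56951106, 88170531), (4, 528, 528, 101930016, 103956816), (7, 18, 18, 40177731, 88147506), (7, 528, 528, 101926176, 102973776), (15, 528, 528, 67461681, 54923781), (16, 258, 33, 2184756, 36705606), (2, 258, 33, 34825476, 52446801), (5, 528, 528, 101926176, 102973776), (16, 528, 528, 84296241, 73601541)]
  [(2, -1152), (4, 2304), (5, -2304), (7, -2304), (9, 576), (11, 2304), (12, 1152), (13, -576), (14, -576), (15, 1152), (16, 2304), (18, -576), (19, 1728), (20, 576), (21, 576), (22, -1152), (23, -1152), (24, -576), (25, 1152), (26, -1152), (27, 1152), (28, -3456), (29, 576), (33, -576), (34, -576), (35, 1152), (38, -1152), (39, 1728), (40, 1152), (41, -2304), (42, -1152), (44, 1152)] = true := by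
  decide +kernel

theorem t32_0_1 : chkS lk32 3 5 [(1, m32_0)] l32_1
  [(9, 528, 528, 19220016, 37950816), (10, 528, 528, 19289136, 70391136), (3, 258, 33, 101860101, 100869201), (12, 528, 528, 19289136, 70391136), (5, 513, 513, 51725826, 37970001), (40, 18, 18, 88158726, 6632001), (12, 513, 513, 102843651, 102958401), (41, 288, 288, 19218531, 21169506), (6, 513, 513, 51794946, 70410321), (31, 18, 18, 90443811, 90439986), (30, 18, 18, 90439986, 90443811), (36, 18, 18, 90443826, 90443826), (11, 33, 258, 90243636, 90182211), (13, 18, 18, 56954946, 88170546), (2, 513, 513, 50619666, 52715541), (16, 513, 513, 20337696, 70406496), (5, 528, 528, 51725856, 37970256), (29, 528, 528, 68494896, 38146896), (16, 528, 528, 103892226, 102977601), (41, 258, 33, 19218486, 4396386), (6, 528, 528, 51794976, 70410576), (30, 33, 258,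 90443811, 90439986), (31, 33, 258, 90439986, 90443811), (36, 33, 258, 90443811, 90439986), (40, 33, 258, 21308256, 21308256), (2, 528, 528, 67331361, 52838661), (3, 288, 288, 35013456, 68363856), (29, 513, 513, 85221891, 56885841), (5, 528, 528, 85156896, 56770896), (9, 33, 258, 23404611, 88146786), (11, 18, 18, 23404611, 88146786), (5, 513, 513, 85156866, 56770641), (8, 528, 528, 51794976, 70410576), (30, 528, 528, 85206576, 40112976), (43, 528, 528, 87318546, 56905746), (8, 513, 513, 51794946, 70410321)]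
  [(2, -2304), (3, -2304), (5, -4608), (6, 2304), (8, 2304), (9, 2304), (10, -1152), (11, 2304), (12, 2304), (13, -1152), (16, 2304), (29, 2304), (30, -3456), (31, -2304), (36, 2304), (40, 2304), (41, -2304), (43, -1152)] = true := by
  decide +kernel

theorem t32_1_1 : chkS lk32 3 5 [(1, m32_1)] l32_1
  [(0, 258, 33, 106111236, 105923361), (24, 258, 33, 105001221, 101004321), (24, 258, 33, 105062421, 101008146), (32, 528, 528, 35017776, 70391376), (14, 33, 258, 103875906, 102846531), (27, 18, 18, 104863011, 103088436), (19, 513, 513, 56770821, 84108321), (34, 18, 18, 104924466, 103092291), (19, 33, 258, 56689221, 83976771), (34, 258, 33, 105197826, 105197601), (14, 513, 513, 104153346, 105074721), (27, 258, 33, 105193491, 105186066), (1, 33, 258, 70321746, 35016771), (26, 33, 258, 104923701, 100995651), (26, 33,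 258, 104862501, 100999476), (17, 258, 33, 56967426, 88301601), (10, 528, 528, 102056736, 105062736), (9, 288, 288, 85140576, 23216976), (12, 513, 513, 23281701, 84099426), (3, 33, 258, 103036176, 103036176), (12, 528, 528, 102056736, 105062736), (3, 18, 18, 39851061, 84022836), (18, 513, 513, 56770821, 84108321), (37, 288, 288, 102052416, 104936016), (17, 18, 18, 56689986, 86073411), (26, 513, 513, 105062421, 101008146), (26, 513, 513, 105001221, 101004321), (1, 513, 513, 70668546, 70668321), (3, 258, 33, 40120341, 84162066), (12, 288, 288, 101918016, 102843216), (37, 528, 528, 101860656, 102962256), (18, 33, 258, 56689221, 83976771), (9, 528, 528, 85222176, 56893776), (10, 288, 288, 101918016, 102843216), (3, 513, 513, 103093296, 104994096), (12, 33, 258, 23077701, 83960676)]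
  [(0, 1152), (1, 2304), (3, -4608), (9, 2304), (10, -2304), (12, 4608), (14, -2304), (17, 2304), (18, -2304), (19, 2304), (24, -2304), (26, -4608), (27, 2304), (32, 1152), (34, -2304), (37, 2304)] = true := by
  decide +kernel

section

variable {κ ι : Type*} [Fintype κ] [Fintype ι] [Inhabited κ] [Inhabited ι]

noncomputable def F32_0 (E : Env κ ι) : (Fin 3 → κ) → (Fin 5 → ι) → ℝ := op2 (P1 κ) (P8 ι) (fB E 3 5 m32_0)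

noncomputable def F32_1 (E : Env κ ι) : (Fin 3 → κ) → (Fin 5 → ι) → ℝ := op2 (P1 κ) (P8 ι) (fB E 3 5 m32_1)

def r32_0_0 : List (ℕ × ℤ) := [(2, -1152), (4, 2304), (5, -2304), (7, -2304), (9, 576), (11, 2304), (12, 1152), (13, -576), (14, -576), (15, 1152), (16, 2304), (18, -576), (19, 1728), (20, 576), (21, 576), (22, -1152), (23, -1152), (24, -576), (25, 1152), (26, -1152), (27, 1152), (28, -3456), (29, 576), (33, -576), (34, -576), (35, 1152), (38, -1152), (39, 1728), (40, 1152), (41, -2304), (42, -1152), (44, 1152)]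

theorem h32_0_0 (E : Env κ ι) : ip (F32_0 E) (F32_0 E) = dotS (ek E lk32) r32_0_0 :=
  op_entryZ E lk32 3 5 _ _ _ _ (pg1 κ) (pg8 ι) m32_0 m32_0 l32_0 z32_0 w32_0 x32_0 (by decide) _ (chkS_sound E lk32 3 5 _ _ _ _ t32_0_0)

def r32_0_1 : List (ℕ × ℤ) := [(2, -2304), (3, -2304), (5, -4608), (6, 2304), (8, 2304), (9, 2304), (10, -1152), (11, 2304), (12, 2304), (13, -1152), (16, 2304), (29, 2304), (30, -3456), (31, -2304), (36, 2304), (40, 2304), (41, -2304), (43, -1152)]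

theorem h32_0_1 (E : Env κ ι) : ip (F32_0 E) (F32_1 E) = dotS (ek E lk32) r32_0_1 :=
  op_entryZ E lk32 3 5 _ _ _ _ (pg1 κ) (pg8 ι) m32_0 m32_1 l32_1 z32_1 w32_1 x32_1 (by decide) _ (chkS_sound E lk32 3 5 _ _ _ _ t32_0_1)

def r32_1_1 : List (ℕ × ℤ) := [(0, 1152), (1, 2304), (3, -4608), (9, 2304), (10, -2304), (12, 4608), (14, -2304), (17, 2304), (18, -2304), (19, 2304), (24, -2304), (26, -4608), (27, 2304), (32, 1152), (34, -2304), (37, 2304)]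

theorem h32_1_1 (E : Env κ ι) : ip (F32_1 E) (F32_1 E) = dotS (ek E lk32) r32_1_1 :=
  op_entryZ E lk32 3 5 _ _ _ _ (pg1 κ) (pg8 ι) m32_1 m32_1 l32_1 z32_1 w32_1 x32_1 (by decide) _ (chkS_sound E lk32 3 5 _ _ _ _ t32_1_1)

theorem row32_0 (E : Env κ ι) : RowG (ek E lk32) (F32_0 E) [F32_0 E, F32_1 E] [r32_0_0, r32_0_1] :=
  rowG_cons _ _ _ _ _ _ (h32_0_0 E) (rowG_cons _ _ _ _ _ _ (h32_0_1 E) (rowG_nil _ _))

theorem row32_1 (E : Env κ ι) : RowG (ek E lk32) (F32_1 E) [F32_1 E] [r32_1_1] :=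
  rowG_cons _ _ _ _ _ _ (h32_1_1 E) (rowG_nil _ _)

def tab32 : List (List (List (ℕ × ℤ))) := [[r32_0_0, r32_0_1], [r32_1_1]]

theorem tri32 (E : Env κ ι) : TriG (ek E lk32) [F32_0 E, F32_1 E] tab32 := by
  refine triG_cons _ _ _ _ _ (row32_0 E) ?_
  refine triG_cons _ _ _ _ _ (row32_1 E) ?_
  exact triG_nil _

end

def lk33 : List Key := [
  (3, 7, [(0, [0], [0, 1]), (0, [0], [0, 1]), (0, [1], [2, 3]), (0, [1], [2, 3]), (0, [2], [4, 5]), (0, [2], [4, 6]), (4, [], [6]), (4, [], [5])]),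
  (3, 7, [(0, [0], [0, 1]), (0, [0], [0, 1]), (0, [1], [2, 3]), (0, [2], [2, 4]), (0, [2], [5, 6]), (0, [1], [5, 6]), (4, [], [4]), (4, [], [3])]),
  (3, 7, [(0, [0], [0, 1]), (0, [1], [0, 2]), (0, [0], [2, 3]), (0, [2], [1, 4]), (0, [1], [5, 6]), (0, [2], [5, 6]), (4, [], [3]), (4, [], [4])]),
  (3, 7, [(0, [0], [0, 1]), (0, [1], [0, 2]), (0, [0], [3, 4]), (0, [1], [3, 4]), (0, [2], [1, 5]), (0, [2], [5, 6]), (4, [], [2]), (4, [], [6])]),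
  (3, 7, [(0, [0], [0, 1]), (0, [0], [0, 2]), (0, [1], [1, 2]), (4, [], [3]), (0, [2], [4, 5]), (0, [2], [4, 6]), (0, [1], [5, 6]), (4, [], [3])]),
  (3, 7, [(0, [0], [0, 1]), (0, [0], [0, 2]), (0, [1], [1, 2]), (4, [], [3]), (0, [2], [4, 5]), (0, [2], [4, 6]), (0, [1], [3, 6]), (4, [], [5])]),
  (3, 7, [(0, [0], [0, 1]), (0, [0], [0, 2]), (0, [1], [1, 2]), (4, [], [3]), (0, [2], [4, 5]), (0, [2], [4, 5]), (0, [1], [3, 6]), (4, [], [6])]),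
  (3, 7, [(0, [0], [0, 1]), (0, [0], [0, 2]), (0, [1], [1, 2]), (4, [], [3]), (0, [2], [4, 5]), (0, [2], [3, 6]), (0, [1], [4, 6]), (4, [], [5])]),
  (3, 7, [(0, [0], [0, 1]), (0, [0], [0, 2]), (0, [1], [1, 2]), (4, [], [3]), (0, [2], [4, 5]), (0, [2], [3, 6]), (0, [1], [4, 5]), (4, [], [6])]),
  (3, 7, [(0, [0], [0, 1]), (0, [0], [0, 2]), (0, [1], [3, 2]), (4, [], [1]), (0, [2], [4, 5]), (0, [2], [4, 6]), (0, [1], [3, 6]), (4, [], [5])]),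
  (3, 7, [(0, [0], [0, 1]), (0, [0], [0, 2]), (0, [1], [3, 2]), (4, [], [1]), (0, [2], [4, 5]), (0, [2], [4, 5]), (0, [1], [3, 6]), (4, [], [6])]),
  (3, 7, [(0, [0], [0, 1]), (0, [0], [0, 2]), (0, [1], [3, 2]), (4, [], [1]), (0, [2], [4, 5]), (0, [2], [3, 6]), (0, [1], [4, 6]), (4, [], [5])]),
  (3, 7, [(0, [0], [0, 1]), (0, [0], [0, 2]), (0, [1], [3, 2]), (4, [], [1]), (0, [2], [4, 5]), (0, [2], [3, 4]), (0, [1], [5, 6]), (4, [], [6])]),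
  (3, 7, [(0, [0], [0, 1]), (0, [0], [0, 1]), (0, [1], [2, 3]), (4, [], [3]), (0, [2], [4, 5]), (0, [2], [2, 6]), (0, [1], [4, 6]), (4, [], [5])]),
  (3, 7, [(0, [0], [0, 1]), (0, [0], [0, 1]), (0, [1], [2, 3]), (4, [], [3]), (0, [2], [4, 5]), (0, [2], [2, 4]), (0, [1], [5, 6]), (4, [], [6])]),
  (3, 7, [(0, [0], [0, 1]), (0, [0], [2, 3]), (0, [1], [0, 3]), (4, [], [1]), (0, [2], [4, 5]), (0, [2], [2, 6]), (0, [1], [4, 6]), (4, [], [5])]),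
  (3, 7, [(0, [0], [0, 1]), (0, [0], [2, 3]), (0, [1], [0, 3]), (4, [], [1]), (0, [2], [4, 5]), (0, [2], [2, 4]), (0, [1], [5, 6]), (4, [], [6])]),
  (3, 7, [(0, [0], [0, 1]), (0, [0], [2, 3]), (0, [1], [0, 1]), (4, [], [3]), (0, [2], [4, 5]), (0, [2], [2, 6]), (0, [1], [4, 5]), (4, [], [6])]),
  (3, 7, [(0, [0], [0, 1]), (0, [0], [2, 3]), (0, [1], [0, 1]), (4, [], [3]), (0, [2], [4, 5]), (0, [2], [2, 4]), (0, [1], [5, 6]), (4, [], [6])]),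
  (3, 7, [(0, [0], [0, 1]), (0, [0], [2, 0]), (0, [1], [1, 3]), (4, [], [3]), (0, [2], [4, 5]), (0, [2], [2, 4]), (0, [1], [5, 6]), (4, [], [6])]),
  (3, 7, [(0, [0], [0, 1]), (0, [0], [0, 1]), (0, [1], [2, 3]), (4, [], [4]), (0, [2], [5, 6]), (0, [2], [2, 5]), (0, [1], [3, 6]), (4, [], [4])]),
  (3, 7, [(0, [0], [0, 1]), (0, [0], [0, 1]), (0, [1], [2, 3]), (4, [], [4]), (0, [2], [2, 5]), (0, [2], [3, 6]), (0, [1], [5, 6]), (4, [], [4])]),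
  (3, 7, [(0, [0], [0, 1]), (0, [0], [2, 0]), (0, [1], [3, 1]), (4, [], [4]), (0, [2], [5, 6]), (0, [2], [2, 5]), (0, [1], [3, 6]), (4, [], [4])]),
  (3, 7, [(0, [0], [0, 1]), (0, [0], [2, 0]), (0, [1], [3, 1]), (4, [], [4]), (0, [2], [5, 6]), (0, [2], [3, 5]), (0, [1], [2, 6]), (4, [], [4])]),
  (3, 7, [(0, [0], [0, 1]), (0, [0], [2, 0]), (0, [1], [3, 1]), (4, [], [4]), (0, [2], [5, 6]), (0, [2], [4, 5]), (0, [1], [2, 3]), (4, [], [6])]),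
  (3, 7, [(0, [0], [0, 1]), (0, [0], [2, 0]), (0, [1], [3, 1]), (4, [], [4]), (0, [2], [5, 6]), (0, [2], [2, 3]), (0, [1], [5, 6]), (4, [], [4])]),
  (3, 7, [(0, [0], [0, 1]), (0, [0], [2, 0]), (0, [1], [3, 1]), (4, [], [4]), (0, [2], [5, 6]), (0, [2], [2, 3]), (0, [1], [4, 5]), (4, [], [6])]),
  (3, 7, [(0, [0], [0, 1]), (0, [0], [2, 0]), (0, [1], [3, 1]), (4, [], [4]), (0, [2], [5, 6]), (0, [2], [3, 4]), (0, [1], [2, 5]), (4, [], [6])]),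
  (3, 7, [(0, [0], [0, 1]), (0, [0], [2, 0]), (0, [1], [3, 1]), (4, [], [4]), (0, [2], [2, 5]), (0, [2], [3, 6]), (0, [1], [5, 6]), (4, [], [4])]),
  (3, 7, [(0, [0], [0, 1]), (0, [0], [2, 0]), (0, [1], [3, 1]), (4, [], [4]), (0, [2], [3, 5]), (0, [2], [2, 6]), (0, [1], [4, 6]), (4, [], [5])]),
  (3, 7, [(0, [0], [0, 1]), (0, [0], [2, 0]), (0, [1], [3, 1]), (4, [], [4]), (0, [2], [4, 5]), (0, [2], [2, 6]), (0, [1], [3, 6]), (4, [], [5])]),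
  (3, 7, [(0, [0], [0, 1]), (0, [0], [2, 0]), (0, [1], [3, 1]), (4, [], [4]), (0, [2], [4, 5]), (0, [2], [3, 6]), (0, [1], [2, 6]), (4, [], [5])]),
  (3, 7, [(0, [0], [0, 1]), (0, [0], [2, 0]), (0, [1], [3, 4]), (4, [], [1]), (0, [2], [5, 6]), (0, [2], [3, 4]), (0, [1], [5, 6]), (4, [], [2])]),
  (3, 7, [(0, [0], [0, 1]), (0, [0], [2, 0]), (0, [1], [3, 4]), (4, [], [1]), (0, [2], [3, 5]), (0, [2], [4, 6]), (0, [1], [5, 6]), (4, [], [2])]),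
  (3, 7, [(0, [0], [0, 1]), (0, [0], [2, 3]), (0, [1], [0, 1]), (4, [], [4]), (0, [2], [5, 6]), (0, [2], [2, 4]), (0, [1], [3, 5]), (4, [], [6])]),
  (3, 7, [(0, [0], [0, 1]), (0, [0], [2, 3]), (0, [1], [0, 1]), (4, [], [4]), (0, [2], [2, 5]), (0, [2], [3, 6]), (0, [1], [5, 6]), (4, [], [4])]),
  (3, 7, [(0, [0], [0, 1]), (0, [0], [2, 3]), (0, [1], [0, 1]), (4, [], [4]), (0, [2], [4, 5]), (0, [2], [2, 6]), (0, [1], [3, 6]), (4, [], [5])]),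
  (3, 7, [(0, [0], [0, 1]), (0, [0], [2, 3]), (0, [1], [4, 0]), (4, [], [1]), (0, [2], [5, 6]), (0, [2], [2, 4]), (0, [1], [3, 5]), (4, [], [6])]),
  (3, 7, [(0, [0], [0, 1]), (0, [0], [2, 3]), (0, [1], [4, 0]), (4, [], [1]), (0, [2], [2, 5]), (0, [2], [3, 6]), (0, [1], [5, 6]), (4, [], [4])]),
  (3, 7, [(0, [0], [0, 1]), (0, [0], [2, 3]), (0, [1], [4, 0]), (4, [], [1]), (0, [2], [2, 5]), (0, [2], [4, 6]), (0, [1], [5, 6]), (4, [], [3])]),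
  (3, 7, [(0, [0], [0, 1]), (0, [0], [2, 3]), (0, [1], [4, 0]), (4, [], [1]), (0, [2], [2, 5]), (0, [2], [4, 6]), (0, [1], [3, 6]), (4, [], [5])]),
  (3, 7, [(0, [0], [0, 1]), (0, [0], [2, 3]), (0, [1], [4, 0]), (4, [], [1]), (0, [2], [4, 5]), (0, [2], [2, 6]), (0, [1], [3, 6]), (4, [], [5])]),
  (3, 7, [(0, [0], [0, 1]), (0, [0], [2, 3]), (0, [1], [1, 3]), (4, [], [4]), (0, [2], [0, 5]), (0, [2], [2, 6]), (0, [1], [5, 6]), (4, [], [4])]),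
  (3, 7, [(0, [0], [0, 1]), (0, [0], [2, 3]), (0, [1], [1, 3]), (4, [], [4]), (0, [2], [4, 5]), (0, [2], [0, 6]), (0, [1], [2, 6]), (4, [], [5])]),
  (3, 7, [(0, [0], [0, 1]), (0, [0], [2, 3]), (0, [1], [4, 1]), (4, [], [5]), (0, [2], [2, 6]), (0, [2], [0, 4]), (0, [1], [3, 6]), (4, [], [5])])]

def kl33 : List ℕ := [13, 14, 57, 58, 94, 95, 96, 97, 98, 109, 110, 111, 112, 119, 120, 125, 126, 132, 133, 144, 204, 206, 216, 217, 218, 219, 220, 221, 222, 223, 224, 225, 252, 253, 267, 268, 269, 284, 285, 286, 287, 288, 302, 303, 430]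

def m33_0 : Base := (0, 1, [(0, [0], [0, 5]), (0, [1], [1, 5]), (0, [2], [2, 3]), (4, [], [4])])

def l33_0 : Cov := [(320, 0, 1, [(0, [0], [0, 5]), (0, [1], [1, 5]), (0, [2], [2, 3]), (4, [], [4])]),
  (-320, 0, 1, [(0, [0], [0, 5]), (0, [1], [1, 5]), (0, [2], [3, 4]), (4, [], [2])]),
  (64, 0, 1, [(0, [0], [0, 5]), (0, [1], [2, 5]), (0, [2], [1, 4]), (4, [], [3])]),
  (-64, 0, 1, [(0, [0], [0, 5]), (0, [1], [2, 5]), (0, [2], [3, 4]), (4, [], [1])]),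
  (-320, 0, 1, [(0, [0], [0, 5]), (0, [1], [3, 5]), (0, [2], [1, 2]), (4, [], [4])]),
  (320, 0, 1, [(0, [0], [0, 5]), (0, [1], [3, 5]), (0, [2], [1, 4]), (4, [], [2])]),
  (-64, 0, 1, [(0, [0], [0, 5]), (0, [1], [4, 5]), (0, [2], [1, 2]), (4, [], [3])]),
  (64, 0, 1, [(0, [0], [0, 5]), (0, [1], [4, 5]), (0, [2], [2, 3]), (4, [], [1])]),
  (256, 0, 1, [(0, [0], [1, 5]), (0, [1], [0, 5]), (0, [2], [2, 3]), (4, [], [4])]),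
  (-256, 0, 1, [(0, [0], [1, 5]), (0, [1], [0, 5]), (0, [2], [3, 4]), (4, [], [2])]),
  (-256, 0, 1, [(0, [0], [1, 5]), (0, [1], [2, 5]), (0, [2], [0, 3]), (4, [], [4])]),
  (256, 0, 1, [(0, [0], [1, 5]), (0, [1], [2, 5]), (0, [2], [3, 4]), (4, [], [0])]),
  (256, 0, 1, [(0, [0], [1, 5]), (0, [1], [4, 5]), (0, [2], [0, 3]), (4, [], [2])]),
  (-256, 0, 1, [(0, [0], [1, 5]), (0, [1], [4, 5]), (0, [2], [2, 3]), (4, [], [0])]),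
  (-64, 0, 1, [(0, [0], [2, 5]), (0, [1], [0, 5]), (0, [2], [1, 4]), (4, [], [3])]),
  (64, 0, 1, [(0, [0], [2, 5]), (0, [1], [0, 5]), (0, [2], [3, 4]), (4, [], [1])]),
  (-320, 0, 1, [(0, [0], [2, 5]), (0, [1], [1, 5]), (0, [2], [0, 3]), (4, [], [4])]),
  (320, 0, 1, [(0, [0], [2, 5]), (0, [1], [1, 5]), (0, [2], [3, 4]), (4, [], [0])]),
  (320, 0, 1, [(0, [0], [2, 5]), (0, [1], [3, 5]), (0, [2], [0, 1]), (4, [], [4])]),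
  (-320, 0, 1, [(0, [0], [2, 5]), (0, [1], [3, 5]), (0, [2], [1, 4]), (4, [], [0])]),
  (64, 0, 1, [(0, [0], [2, 5]), (0, [1], [4, 5]), (0, [2], [0, 1]), (4, [], [3])]),
  (-64, 0, 1, [(0, [0], [2, 5]), (0, [1], [4, 5]), (0, [2], [0, 3]), (4, [], [1])]),
  (-256, 0, 1, [(0, [0], [3, 5]), (0, [1], [0, 5]), (0, [2], [1, 2]), (4, [], [4])]),
  (256, 0, 1, [(0, [0], [3, 5]), (0, [1], [0, 5]), (0, [2], [1, 4]), (4, [], [2])]),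
  (256, 0, 1, [(0, [0], [3, 5]), (0, [1], [2, 5]), (0, [2], [0, 1]), (4, [], [4])]),
  (-256, 0, 1, [(0, [0], [3, 5]), (0, [1], [2, 5]), (0, [2], [1, 4]), (4, [], [0])]),
  (-256, 0, 1, [(0, [0], [3, 5]), (0, [1], [4, 5]), (0, [2], [0, 1]), (4, [], [2])]),
  (256, 0, 1, [(0, [0], [3, 5]), (0, [1], [4, 5]), (0, [2], [1, 2]), (4, [], [0])]),
  (64, 0, 1, [(0, [0], [4, 5]), (0, [1], [0, 5]), (0, [2], [1, 2]), (4, [], [3])]),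
  (-64, 0, 1, [(0, [0], [4, 5]), (0, [1], [0, 5]), (0, [2], [2, 3]), (4, [], [1])]),
  (320, 0, 1, [(0, [0], [4, 5]), (0, [1], [1, 5]), (0, [2], [0, 3]), (4, [], [2])]),
  (-320, 0, 1, [(0, [0], [4, 5]), (0, [1], [1, 5]), (0, [2], [2, 3]), (4, [], [0])]),
  (-64, 0, 1, [(0, [0], [4, 5]), (0, [1], [2, 5]), (0, [2], [0, 1]), (4, [], [3])]),
  (64, 0, 1, [(0, [0], [4, 5]), (0, [1], [2, 5]), (0, [2], [0, 3]), (4, [], [1])]),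
  (-320, 0, 1, [(0, [0], [4, 5]), (0, [1], [3, 5]), (0, [2], [0, 1]), (4, [], [2])]),
  (320, 0, 1, [(0, [0], [4, 5]), (0, [1], [3, 5]), (0, [2], [1, 2]), (4, [], [0])]),
  (64, 0, 1, [(0, [0], [0, 5]), (0, [2], [1, 5]), (0, [1], [2, 3]), (4, [], [4])]),
  (-64, 0, 1, [(0, [0], [0, 5]), (0, [2], [1, 5]), (0, [1], [3, 4]), (4, [], [2])]),
  (128, 0, 1, [(0, [0], [0, 5]), (0, [2], [2, 5]), (0, [1], [1, 4]), (4, [], [3])]),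
  (-128, 0, 1, [(0, [0], [0, 5]), (0, [2], [2, 5]), (0, [1], [3, 4]), (4, [], [1])]),
  (-64, 0, 1, [(0, [0], [0, 5]), (0, [2], [3, 5]), (0, [1], [1, 2]), (4, [], [4])]),
  (64, 0, 1, [(0, [0], [0, 5]), (0, [2], [3, 5]), (0, [1], [1, 4]), (4, [], [2])]),
  (-128, 0, 1, [(0, [0], [0, 5]), (0, [2], [4, 5]), (0, [1], [1, 2]), (4, [], [3])]),
  (128, 0, 1, [(0, [0], [0, 5]), (0, [2], [4, 5]), (0, [1], [2, 3]), (4, [], [1])]),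
  (-64, 0, 1, [(0, [0], [1, 5]), (0, [2], [0, 5]), (0, [1], [2, 3]), (4, [], [4])]),
  (64, 0, 1, [(0, [0], [1, 5]), (0, [2], [0, 5]), (0, [1], [3, 4]), (4, [], [2])]),
  (64, 0, 1, [(0, [0], [1, 5]), (0, [2], [2, 5]), (0, [1], [0, 3]), (4, [], [4])]),
  (-64, 0, 1, [(0, [0], [1, 5]), (0, [2], [2, 5]), (0, [1], [3, 4]), (4, [], [0])]),
  (-64, 0, 1, [(0, [0], [1, 5]), (0, [2], [4, 5]), (0, [1], [0, 3]), (4, [], [2])]),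
  (64, 0, 1, [(0, [0], [1, 5]), (0, [2], [4, 5]), (0, [1], [2, 3]), (4, [], [0])]),
  (-128, 0, 1, [(0, [0], [2, 5]), (0, [2], [0, 5]), (0, [1], [1, 4]), (4, [], [3])]),
  (128, 0, 1, [(0, [0], [2, 5]), (0, [2], [0, 5]), (0, [1], [3, 4]), (4, [], [1])]),
  (-64, 0, 1, [(0, [0], [2, 5]), (0, [2], [1, 5]), (0, [1], [0, 3]), (4, [], [4])]),
  (64, 0, 1, [(0, [0], [2, 5]), (0, [2], [1, 5]), (0, [1], [3, 4]), (4, [], [0])]),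
  (64, 0, 1, [(0, [0], [2, 5]), (0, [2], [3, 5]), (0, [1], [0, 1]), (4, [], [4])]),
  (-64, 0, 1, [(0, [0], [2, 5]), (0, [2], [3, 5]), (0, [1], [1, 4]), (4, [], [0])]),
  (128, 0, 1, [(0, [0], [2, 5]), (0, [2], [4, 5]), (0, [1], [0, 1]), (4, [], [3])]),
  (-128, 0, 1, [(0, [0], [2, 5]), (0, [2], [4, 5]), (0, [1], [0, 3]), (4, [], [1])]),
  (64, 0, 1, [(0, [0], [3, 5]), (0, [2], [0, 5]), (0, [1], [1, 2]), (4, [], [4])]),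
  (-64, 0, 1, [(0, [0], [3, 5]), (0, [2], [0, 5]), (0, [1], [1, 4]), (4, [], [2])]),
  (-64, 0, 1, [(0, [0], [3, 5]), (0, [2], [2, 5]), (0, [1], [0, 1]), (4, [], [4])]),
  (64, 0, 1, [(0, [0], [3, 5]), (0, [2], [2, 5]), (0, [1], [1, 4]), (4, [], [0])]),
  (64, 0, 1, [(0, [0], [3, 5]), (0, [2], [4, 5]), (0, [1], [0, 1]), (4, [], [2])]),
  (-64, 0, 1, [(0, [0], [3, 5]), (0, [2], [4, 5]), (0, [1], [1, 2]), (4, [], [0])]),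
  (128, 0, 1, [(0, [0], [4, 5]), (0, [2], [0, 5]), (0, [1], [1, 2]), (4, [], [3])]),
  (-128, 0, 1, [(0, [0], [4, 5]), (0, [2], [0, 5]), (0, [1], [2, 3]), (4, [], [1])]),
  (64, 0, 1, [(0, [0], [4, 5]), (0, [2], [1, 5]), (0, [1], [0, 3]), (4, [], [2])]),
  (-64, 0, 1, [(0, [0], [4, 5]), (0, [2], [1, 5]), (0, [1], [2, 3]), (4, [], [0])]),
  (-128, 0, 1, [(0, [0], [4, 5]), (0, [2], [2, 5]), (0, [1], [0, 1]), (4, [], [3])]),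
  (128, 0, 1, [(0, [0], [4, 5]), (0, [2], [2, 5]), (0, [1], [0, 3]), (4, [], [1])]),
  (-64, 0, 1, [(0, [0], [4, 5]), (0, [2], [3, 5]), (0, [1], [0, 1]), (4, [], [2])]),
  (64, 0, 1, [(0, [0], [4, 5]), (0, [2], [3, 5]), (0, [1], [1, 2]), (4, [], [0])]),
  (-256, 0, 1, [(0, [1], [0, 5]), (0, [2], [1, 5]), (0, [0], [2, 3]), (4, [], [4])]),
  (256, 0, 1, [(0, [1], [0, 5]), (0, [2], [1, 5]), (0, [0], [3, 4]), (4, [], [2])]),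
  (64, 0, 1, [(0, [1], [0, 5]), (0, [2], [2, 5]), (0, [0], [1, 4]), (4, [], [3])]),
  (-64, 0, 1, [(0, [1], [0, 5]), (0, [2], [2, 5]), (0, [0], [3, 4]), (4, [], [1])]),
  (256, 0, 1, [(0, [1], [0, 5]), (0, [2], [3, 5]), (0, [0], [1, 2]), (4, [], [4])]),
  (-256, 0, 1, [(0, [1], [0, 5]), (0, [2], [3, 5]), (0, [0], [1, 4]), (4, [], [2])]),
  (-64, 0, 1, [(0, [1], [0, 5]), (0, [2], [4, 5]), (0, [0], [1, 2]), (4, [], [3])]),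
  (64, 0, 1, [(0, [1], [0, 5]), (0, [2], [4, 5]), (0, [0], [2, 3]), (4, [], [1])]),
  (-320, 0, 1, [(0, [1], [1, 5]), (0, [2], [0, 5]), (0, [0], [2, 3]), (4, [], [4])]),
  (320, 0, 1, [(0, [1], [1, 5]), (0, [2], [0, 5]), (0, [0], [3, 4]), (4, [], [2])]),
  (320, 0, 1, [(0, [1], [1, 5]), (0, [2], [2, 5]), (0, [0], [0, 3]), (4, [], [4])]),
  (-320, 0, 1, [(0, [1], [1, 5]), (0, [2], [2, 5]), (0, [0], [3, 4]), (4, [], [0])]),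
  (-320, 0, 1, [(0, [1], [1, 5]), (0, [2], [4, 5]), (0, [0], [0, 3]), (4, [], [2])]),
  (320, 0, 1, [(0, [1], [1, 5]), (0, [2], [4, 5]), (0, [0], [2, 3]), (4, [], [0])]),
  (-64, 0, 1, [(0, [1], [2, 5]), (0, [2], [0, 5]), (0, [0], [1, 4]), (4, [], [3])]),
  (64, 0, 1, [(0, [1], [2, 5]), (0, [2], [0, 5]), (0, [0], [3, 4]), (4, [], [1])]),
  (256, 0, 1, [(0, [1], [2, 5]), (0, [2], [1, 5]), (0, [0], [0, 3]), (4, [], [4])]),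
  (-256, 0, 1, [(0, [1], [2, 5]), (0, [2], [1, 5]), (0, [0], [3, 4]), (4, [], [0])]),
  (-256, 0, 1, [(0, [1], [2, 5]), (0, [2], [3, 5]), (0, [0], [0, 1]), (4, [], [4])]),
  (256, 0, 1, [(0, [1], [2, 5]), (0, [2], [3, 5]), (0, [0], [1, 4]), (4, [], [0])]),
  (64, 0, 1, [(0, [1], [2, 5]), (0, [2], [4, 5]), (0, [0], [0, 1]), (4, [], [3])]),
  (-64, 0, 1, [(0, [1], [2, 5]), (0, [2], [4, 5]), (0, [0], [0, 3]), (4, [], [1])]),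
  (320, 0, 1, [(0, [1], [3, 5]), (0, [2], [0, 5]), (0, [0], [1, 2]), (4, [], [4])]),
  (-320, 0, 1, [(0, [1], [3, 5]), (0, [2], [0, 5]), (0, [0], [1, 4]), (4, [], [2])]),
  (-320, 0, 1, [(0, [1], [3, 5]), (0, [2], [2, 5]), (0, [0], [0, 1]), (4, [], [4])]),
  (320, 0, 1, [(0, [1], [3, 5]), (0, [2], [2, 5]), (0, [0], [1, 4]), (4, [], [0])]),
  (320, 0, 1, [(0, [1], [3, 5]), (0, [2], [4, 5]), (0, [0], [0, 1]), (4, [], [2])]),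
  (-320, 0, 1, [(0, [1], [3, 5]), (0, [2], [4, 5]), (0, [0], [1, 2]), (4, [], [0])]),
  (64, 0, 1, [(0, [1], [4, 5]), (0, [2], [0, 5]), (0, [0], [1, 2]), (4, [], [3])]),
  (-64, 0, 1, [(0, [1], [4, 5]), (0, [2], [0, 5]), (0, [0], [2, 3]), (4, [], [1])]),
  (-256, 0, 1, [(0, [1], [4, 5]), (0, [2], [1, 5]), (0, [0], [0, 3]), (4, [], [2])]),
  (256, 0, 1, [(0, [1], [4, 5]), (0, [2], [1, 5]), (0, [0], [2, 3]), (4, [], [0])]),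
  (-64, 0, 1, [(0, [1], [4, 5]), (0, [2], [2, 5]), (0, [0], [0, 1]), (4, [], [3])]),
  (64, 0, 1, [(0, [1], [4, 5]), (0, [2], [2, 5]), (0, [0], [0, 3]), (4, [], [1])]),
  (256, 0, 1, [(0, [1], [4, 5]), (0, [2], [3, 5]), (0, [0], [0, 1]), (4, [], [2])]),
  (-256, 0, 1, [(0, [1], [4, 5]), (0, [2], [3, 5]), (0, [0], [1, 2]), (4, [], [0])])]

def z33_0 : Cov := [(0, 0, 1, [(0, [0], [0, 5]), (0, [1], [1, 5]), (0, [2], [2, 4]), (4, [], [3])]),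
  (0, 0, 1, [(0, [0], [0, 5]), (0, [1], [2, 5]), (0, [2], [1, 3]), (4, [], [4])]),
  (0, 0, 1, [(0, [0], [0, 5]), (0, [1], [3, 5]), (0, [2], [2, 4]), (4, [], [1])]),
  (0, 0, 1, [(0, [0], [0, 5]), (0, [1], [4, 5]), (0, [2], [1, 3]), (4, [], [2])]),
  (0, 0, 1, [(0, [0], [1, 5]), (0, [1], [0, 5]), (0, [2], [2, 4]), (4, [], [3])]),
  (0, 0, 1, [(0, [0], [1, 5]), (0, [1], [2, 5]), (0, [2], [0, 4]), (4, [], [3])]),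
  (0, 0, 1, [(0, [0], [1, 5]), (0, [1], [3, 5]), (0, [2], [0, 2]), (4, [], [4])]),
  (0, 0, 1, [(0, [0], [1, 5]), (0, [1], [3, 5]), (0, [2], [0, 4]), (4, [], [2])]),
  (0, 0, 1, [(0, [0], [1, 5]), (0, [1], [3, 5]), (0, [2], [2, 4]), (4, [], [0])]),
  (0, 0, 1, [(0, [0], [1, 5]), (0, [1], [4, 5]), (0, [2], [0, 2]), (4, [], [3])]),
  (0, 0, 1, [(0, [0], [2, 5]), (0, [1], [0, 5]), (0, [2], [1, 3]), (4, [], [4])]),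
  (0, 0, 1, [(0, [0], [2, 5]), (0, [1], [1, 5]), (0, [2], [0, 4]), (4, [], [3])]),
  (0, 0, 1, [(0, [0], [2, 5]), (0, [1], [3, 5]), (0, [2], [0, 4]), (4, [], [1])]),
  (0, 0, 1, [(0, [0], [2, 5]), (0, [1], [4, 5]), (0, [2], [1, 3]), (4, [], [0])]),
  (0, 0, 1, [(0, [0], [3, 5]), (0, [1], [0, 5]), (0, [2], [2, 4]), (4, [], [1])]),
  (0, 0, 1, [(0, [0], [3, 5]), (0, [1], [1, 5]), (0, [2], [0, 2]), (4, [], [4])]),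
  (0, 0, 1, [(0, [0], [3, 5]), (0, [1], [1, 5]), (0, [2], [0, 4]), (4, [], [2])]),
  (0, 0, 1, [(0, [0], [3, 5]), (0, [1], [1, 5]), (0, [2], [2, 4]), (4, [], [0])]),
  (0, 0, 1, [(0, [0], [3, 5]), (0, [1], [2, 5]), (0, [2], [0, 4]), (4, [], [1])]),
  (0, 0, 1, [(0, [0], [3, 5]), (0, [1], [4, 5]), (0, [2], [0, 2]), (4, [], [1])]),
  (0, 0, 1, [(0, [0], [4, 5]), (0, [1], [0, 5]), (0, [2], [1, 3]), (4, [], [2])]),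
  (0, 0, 1, [(0, [0], [4, 5]), (0, [1], [1, 5]), (0, [2], [0, 2]), (4, [], [3])]),
  (0, 0, 1, [(0, [0], [4, 5]), (0, [1], [2, 5]), (0, [2], [1, 3]), (4, [], [0])]),
  (0, 0, 1, [(0, [0], [4, 5]), (0, [1], [3, 5]), (0, [2], [0, 2]), (4, [], [1])]),
  (0, 0, 1, [(0, [0], [0, 5]), (0, [2], [1, 5]), (0, [1], [2, 4]), (4, [], [3])]),
  (0, 0, 1, [(0, [0], [0, 5]), (0, [2], [2, 5]), (0, [1], [1, 3]), (4, [], [4])]),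
  (0, 0, 1, [(0, [0], [0, 5]), (0, [2], [3, 5]), (0, [1], [2, 4]), (4, [], [1])]),
  (0, 0, 1, [(0, [0], [0, 5]), (0, [2], [4, 5]), (0, [1], [1, 3]), (4, [], [2])]),
  (0, 0, 1, [(0, [0], [1, 5]), (0, [2], [0, 5]), (0, [1], [2, 4]), (4, [], [3])]),
  (0, 0, 1, [(0, [0], [1, 5]), (0, [2], [2, 5]), (0, [1], [0, 4]), (4, [], [3])]),
  (0, 0, 1, [(0, [0], [1, 5]), (0, [2], [3, 5]), (0, [1], [0, 2]), (4, [], [4])]),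
  (0, 0, 1, [(0, [0], [1, 5]), (0, [2], [3, 5]), (0, [1], [0, 4]), (4, [], [2])]),
  (0, 0, 1, [(0, [0], [1, 5]), (0, [2], [3, 5]), (0, [1], [2, 4]), (4, [], [0])]),
  (0, 0, 1, [(0, [0], [1, 5]), (0, [2], [4, 5]), (0, [1], [0, 2]), (4, [], [3])]),
  (0, 0, 1, [(0, [0], [2, 5]), (0, [2], [0, 5]), (0, [1], [1, 3]), (4, [], [4])]),
  (0, 0, 1, [(0, [0], [2, 5]), (0, [2], [1, 5]), (0, [1], [0, 4]), (4, [], [3])]),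
  (0, 0, 1, [(0, [0], [2, 5]), (0, [2], [3, 5]), (0, [1], [0, 4]), (4, [], [1])]),
  (0, 0, 1, [(0, [0], [2, 5]), (0, [2], [4, 5]), (0, [1], [1, 3]), (4, [], [0])]),
  (0, 0, 1, [(0, [0], [3, 5]), (0, [2], [0, 5]), (0, [1], [2, 4]), (4, [], [1])]),
  (0, 0, 1, [(0, [0], [3, 5]), (0, [2], [1, 5]), (0, [1], [0, 2]), (4, [], [4])]),
  (0, 0, 1, [(0, [0], [3, 5]), (0, [2], [1, 5]), (0, [1], [0, 4]), (4, [], [2])]),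
  (0, 0, 1, [(0, [0], [3, 5]), (0, [2], [1, 5]), (0, [1], [2, 4]), (4, [], [0])]),
  (0, 0, 1, [(0, [0], [3, 5]), (0, [2], [2, 5]), (0, [1], [0, 4]), (4, [], [1])]),
  (0, 0, 1, [(0, [0], [3, 5]), (0, [2], [4, 5]), (0, [1], [0, 2]), (4, [], [1])]),
  (0, 0, 1, [(0, [0], [4, 5]), (0, [2], [0, 5]), (0, [1], [1, 3]), (4, [], [2])]),
  (0, 0, 1, [(0, [0], [4, 5]), (0, [2], [1, 5]), (0, [1], [0, 2]), (4, [], [3])]),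
  (0, 0, 1, [(0, [0], [4, 5]), (0, [2], [2, 5]), (0, [1], [1, 3]), (4, [], [0])]),
  (0, 0, 1, [(0, [0], [4, 5]), (0, [2], [3, 5]), (0, [1], [0, 2]), (4, [], [1])]),
  (0, 0, 1, [(0, [1], [0, 5]), (0, [2], [1, 5]), (0, [0], [2, 4]), (4, [], [3])]),
  (0, 0, 1, [(0, [1], [0, 5]), (0, [2], [2, 5]), (0, [0], [1, 3]), (4, [], [4])]),
  (0, 0, 1, [(0, [1], [0, 5]), (0, [2], [3, 5]), (0, [0], [2, 4]), (4, [], [1])]),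
  (0, 0, 1, [(0, [1], [0, 5]), (0, [2], [4, 5]), (0, [0], [1, 3]), (4, [], [2])]),
  (0, 0, 1, [(0, [1], [1, 5]), (0, [2], [0, 5]), (0, [0], [2, 4]), (4, [], [3])]),
  (0, 0, 1, [(0, [1], [1, 5]), (0, [2], [2, 5]), (0, [0], [0, 4]), (4, [], [3])]),
  (0, 0, 1, [(0, [1], [1, 5]), (0, [2], [3, 5]), (0, [0], [0, 2]), (4, [], [4])]),
  (0, 0, 1, [(0, [1], [1, 5]), (0, [2], [3, 5]), (0, [0], [0, 4]), (4, [], [2])]),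
  (0, 0, 1, [(0, [1], [1, 5]), (0, [2], [3, 5]), (0, [0], [2, 4]), (4, [], [0])]),
  (0, 0, 1, [(0, [1], [1, 5]), (0, [2], [4, 5]), (0, [0], [0, 2]), (4, [], [3])]),
  (0, 0, 1, [(0, [1], [2, 5]), (0, [2], [0, 5]), (0, [0], [1, 3]), (4, [], [4])]),
  (0, 0, 1, [(0, [1], [2, 5]), (0, [2], [1, 5]), (0, [0], [0, 4]), (4, [], [3])]),
  (0, 0, 1, [(0, [1], [2, 5]), (0, [2], [3, 5]), (0, [0], [0, 4]), (4, [], [1])]),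
  (0, 0, 1, [(0, [1], [2, 5]), (0, [2], [4, 5]), (0, [0], [1, 3]), (4, [], [0])]),
  (0, 0, 1, [(0, [1], [3, 5]), (0, [2], [0, 5]), (0, [0], [2, 4]), (4, [], [1])]),
  (0, 0, 1, [(0, [1], [3, 5]), (0, [2], [1, 5]), (0, [0], [0, 2]), (4, [], [4])]),
  (0, 0, 1, [(0, [1], [3, 5]), (0, [2], [1, 5]), (0, [0], [0, 4]), (4, [], [2])]),
  (0, 0, 1, [(0, [1], [3, 5]), (0, [2], [1, 5]), (0, [0], [2, 4]), (4, [], [0])]),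
  (0, 0, 1, [(0, [1], [3, 5]), (0, [2], [2, 5]), (0, [0], [0, 4]), (4, [], [1])]),
  (0, 0, 1, [(0, [1], [3, 5]), (0, [2], [4, 5]), (0, [0], [0, 2]), (4, [], [1])]),
  (0, 0, 1, [(0, [1], [4, 5]), (0, [2], [0, 5]), (0, [0], [1, 3]), (4, [], [2])]),
  (0, 0, 1, [(0, [1], [4, 5]), (0, [2], [1, 5]), (0, [0], [0, 2]), (4, [], [3])]),
  (0, 0, 1, [(0, [1], [4, 5]), (0, [2], [2, 5]), (0, [0], [1, 3]), (4, [], [0])]),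
  (0, 0, 1, [(0, [1], [4, 5]), (0, [2], [3, 5]), (0, [0], [0, 2]), (4, [], [1])])]

def w33_0 : List (List Wit) := [[(0, 0, 0, 0, 0), (108, 0, 0, 0, 0), (0, 0, 0, 0, 0), (1, 0, 0, 0, 0), (108, 0, 0, 0, 0), (1, 0, 0, 0, 0), (109, 0, 0, 0, 0), (2, 0, 0, 0, 0), (109, 0, 0, 0, 0), (3, 0, 0, 0, 0), (2, 0, 0, 0, 0), (3, 0, 0, 0, 0), (4, 0, 0, 0, 0), (5, 0, 0, 0, 0), (4, 0, 0, 0, 0), (110, 0, 0, 0, 0), (5, 0, 0, 0, 0), (110, 0, 0, 0, 0), (6, 0, 0, 0, 0), (111, 0, 0, 0, 0), (6, 0, 0, 0, 0), (7, 0, 0, 0, 0), (111, 0, 0, 0, 0), (7, 0, 0, 0, 0), (8, 0, 0, 0, 0), (112, 0, 0, 0, 0), (8, 0, 0, 0, 0), (9, 0, 0, 0, 0), (112, 0, 0, 0, 0), (9, 0, 0, 0, 0), (10, 0, 0, 0, 0), (113, 0, 0, 0, 0), (10, 0, 0, 0, 0), (11, 0, 0, 0, 0), (113, 0, 0, 0, 0), (11, 0, 0, 0, 0), (114, 0, 0, 0, 0), (115, 0, 0, 0, 0), (114, 0, 0, 0, 0), (116, 0, 0,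 0, 0), (115, 0, 0, 0, 0), (116, 0, 0, 0, 0), (117, 0, 0, 0, 0), (12, 0, 0, 0, 0), (117, 0, 0, 0, 0), (13, 0, 0, 0, 0), (12, 0, 0, 0, 0), (13, 0, 0, 0, 0), (118, 0, 0, 0, 0), (14, 0, 0, 0, 0), (118, 0, 0, 0, 0), (15, 0, 0, 0, 0), (14, 0, 0, 0, 0), (15, 0, 0, 0, 0), (16, 0, 0, 0, 0), (119, 0, 0, 0, 0), (16, 0, 0, 0, 0), (17, 0, 0, 0, 0), (119, 0, 0, 0, 0), (17, 0, 0, 0, 0), (18, 0, 0, 0, 0), (120, 0, 0, 0, 0), (18, 0, 0, 0, 0), (19, 0, 0, 0, 0), (120, 0, 0, 0, 0), (19, 0, 0, 0, 0), (20, 0, 0, 0, 0), (21, 0, 0, 0, 0), (20, 0, 0, 0, 0), (121, 0, 0, 0, 0), (21, 0, 0, 0, 0), (121, 0, 0, 0, 0), (22, 0, 0, 0, 0), (23, 0, 0, 0, 0), (22, 0, 0, 0, 0), (122, 0, 0, 0, 0), (23, 0, 0, 0, 0), (122, 0, 0, 0, 0), (123, 0, 0, 0, 0), (124, 0, 0, 0, 0), (123, 0, 0, 0, 0), (125, 0, 0, 0, 0), (124, 0, 0, 0, 0), (125, 0, 0, 0, 0), (24, 0,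 0, 0, 0), (126, 0, 0, 0, 0), (24, 0, 0, 0, 0), (25, 0, 0, 0, 0), (126, 0, 0, 0, 0), (25, 0, 0, 0, 0), (26, 0, 0, 0, 0), (127, 0, 0, 0, 0), (26, 0, 0, 0, 0), (27, 0, 0, 0, 0), (127, 0, 0, 0, 0), (27, 0, 0, 0, 0), (28, 0, 0, 0, 0), (128, 0, 0, 0, 0), (28, 0, 0, 0, 0), (29, 0, 0, 0, 0), (128, 0, 0, 0, 0), (29, 0, 0, 0, 0), (129, 0, 0, 0, 0), (30, 0, 0, 0, 0), (129, 0, 0, 0, 0), (31, 0, 0, 0, 0), (30, 0, 0, 0, 0), (31, 0, 0, 0, 0), (32, 0, 0, 0, 0), (33, 0, 0, 0, 0), (32, 0, 0, 0, 0), (130, 0, 0, 0, 0), (33, 0, 0, 0, 0), (130, 0, 0, 0, 0), (34, 0, 0, 0, 0), (131, 0, 0, 0, 0), (34, 0, 0, 0, 0), (35, 0, 0, 0, 0), (131, 0, 0, 0, 0), (35, 0, 0, 0, 0)],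
  [(36, 0, 0, 0, 0), (132, 0, 0, 0, 0), (36, 0, 0, 0, 0), (37, 0, 0, 0, 0), (132, 0, 0, 0, 0), (37, 0, 0, 0, 0), (133, 0, 0, 0, 0), (38, 0, 0, 0, 0), (133, 0, 0, 0, 0), (39, 0, 0, 0, 0), (38, 0, 0, 0, 0), (39, 0, 0, 0, 0), (40, 0, 0, 0, 0), (41, 0, 0, 0, 0), (40, 0, 0, 0, 0), (134, 0, 0, 0, 0), (41, 0, 0, 0, 0), (134, 0, 0, 0, 0), (42, 0, 0, 0, 0), (135, 0, 0, 0, 0), (42, 0, 0, 0, 0), (43, 0, 0, 0, 0), (135, 0, 0, 0, 0), (43, 0, 0, 0, 0), (44, 0, 0, 0, 0), (136, 0, 0, 0, 0), (44, 0, 0, 0, 0), (45, 0, 0, 0, 0), (136, 0, 0, 0, 0), (45, 0, 0, 0, 0), (46, 0, 0, 0, 0), (137, 0, 0, 0, 0), (46, 0, 0, 0, 0), (47, 0, 0, 0, 0), (137, 0, 0, 0, 0), (47, 0, 0, 0, 0), (138, 0, 0, 0, 0), (139, 0, 0, 0, 0), (138, 0, 0, 0, 0), (140, 0, 0, 0, 0), (139, 0, 0, 0, 0), (140, 0, 0, 0, 0), (141, 0, 0, 0, 0), (48, 0, 0, 0, 0), (141, 0, 0,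 0, 0), (49, 0, 0, 0, 0), (48, 0, 0, 0, 0), (49, 0, 0, 0, 0), (142, 0, 0, 0, 0), (50, 0, 0, 0, 0), (142, 0, 0, 0, 0), (51, 0, 0, 0, 0), (50, 0, 0, 0, 0), (51, 0, 0, 0, 0), (52, 0, 0, 0, 0), (143, 0, 0, 0, 0), (52, 0, 0, 0, 0), (53, 0, 0, 0, 0), (143, 0, 0, 0, 0), (53, 0, 0, 0, 0), (54, 0, 0, 0, 0), (144, 0, 0, 0, 0), (54, 0, 0, 0, 0), (55, 0, 0, 0, 0), (144, 0, 0, 0, 0), (55, 0, 0, 0, 0), (56, 0, 0, 0, 0), (57, 0, 0, 0, 0), (56, 0, 0, 0, 0), (145, 0, 0, 0, 0), (57, 0, 0, 0, 0), (145, 0, 0, 0, 0), (58, 0, 0, 0, 0), (59, 0, 0, 0, 0), (58, 0, 0, 0, 0), (146, 0, 0, 0, 0), (59, 0, 0, 0, 0), (146, 0, 0, 0, 0), (147, 0, 0, 0, 0), (148, 0, 0, 0, 0), (147, 0, 0, 0, 0), (149, 0, 0, 0, 0), (148, 0, 0, 0, 0), (149, 0, 0, 0, 0), (60, 0, 0, 0, 0), (150, 0, 0, 0, 0), (60, 0, 0, 0, 0), (61, 0, 0, 0, 0), (150, 0, 0, 0, 0), (61, 0,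 0, 0, 0), (62, 0, 0, 0, 0), (151, 0, 0, 0, 0), (62, 0, 0, 0, 0), (63, 0, 0, 0, 0), (151, 0, 0, 0, 0), (63, 0, 0, 0, 0), (64, 0, 0, 0, 0), (152, 0, 0, 0, 0), (64, 0, 0, 0, 0), (65, 0, 0, 0, 0), (152, 0, 0, 0, 0), (65, 0, 0, 0, 0), (153, 0, 0, 0, 0), (66, 0, 0, 0, 0), (153, 0, 0, 0, 0), (67, 0, 0, 0, 0), (66, 0, 0, 0, 0), (67, 0, 0, 0, 0), (68, 0, 0, 0, 0), (69, 0, 0, 0, 0), (68, 0, 0, 0, 0), (154, 0, 0, 0, 0), (69, 0, 0, 0, 0), (154, 0, 0, 0, 0), (70, 0, 0, 0, 0), (155, 0, 0, 0, 0), (70, 0, 0, 0, 0), (71, 0, 0, 0, 0), (155, 0, 0, 0, 0), (71, 0, 0, 0, 0)],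
  [(8, 0, 0, 0, 0), (112, 0, 0, 0, 0), (8, 0, 0, 0, 0), (9, 0, 0, 0, 0), (112, 0, 0, 0, 0), (9, 0, 0, 0, 0), (118, 0, 0, 0, 0), (14, 0, 0, 0, 0), (118, 0, 0, 0, 0), (15, 0, 0, 0, 0), (14, 0, 0, 0, 0), (15, 0, 0, 0, 0), (22, 0, 0, 0, 0), (23, 0, 0, 0, 0), (22, 0, 0, 0, 0), (122, 0, 0, 0, 0), (23, 0, 0, 0, 0), (122, 0, 0, 0, 0), (28, 0, 0, 0, 0), (128, 0, 0, 0, 0), (28, 0, 0, 0, 0), (29, 0, 0, 0, 0), (128, 0, 0, 0, 0), (29, 0, 0, 0, 0), (0, 0, 0, 0, 0), (108, 0, 0, 0, 0), (0, 0, 0, 0, 0), (1, 0, 0, 0, 0), (108, 0, 0, 0, 0), (1, 0, 0, 0, 0), (16, 0, 0, 0, 0), (119, 0, 0, 0, 0), (16, 0, 0, 0, 0), (17, 0, 0, 0, 0), (119, 0, 0, 0, 0), (17, 0, 0, 0, 0), (123, 0, 0, 0, 0), (124, 0, 0, 0, 0), (123, 0, 0, 0, 0), (125, 0, 0, 0, 0), (124, 0, 0, 0, 0), (125, 0, 0, 0, 0), (129, 0, 0, 0, 0), (30, 0, 0, 0, 0), (129, 0, 0, 0, 0),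 (31, 0, 0, 0, 0), (30, 0, 0, 0, 0), (31, 0, 0, 0, 0), (109, 0, 0, 0, 0), (2, 0, 0, 0, 0), (109, 0, 0, 0, 0), (3, 0, 0, 0, 0), (2, 0, 0, 0, 0), (3, 0, 0, 0, 0), (10, 0, 0, 0, 0), (113, 0, 0, 0, 0), (10, 0, 0, 0, 0), (11, 0, 0, 0, 0), (113, 0, 0, 0, 0), (11, 0, 0, 0, 0), (24, 0, 0, 0, 0), (126, 0, 0, 0, 0), (24, 0, 0, 0, 0), (25, 0, 0, 0, 0), (126, 0, 0, 0, 0), (25, 0, 0, 0, 0), (32, 0, 0, 0, 0), (33, 0, 0, 0, 0), (32, 0, 0, 0, 0), (130, 0, 0, 0, 0), (33, 0, 0, 0, 0), (130, 0, 0, 0, 0), (4, 0, 0, 0, 0), (5, 0, 0, 0, 0), (4, 0, 0, 0, 0), (110, 0, 0, 0, 0), (5, 0, 0, 0, 0), (110, 0, 0, 0, 0), (114, 0, 0, 0, 0), (115, 0, 0, 0, 0), (114, 0, 0, 0, 0), (116, 0, 0, 0, 0), (115, 0, 0, 0, 0), (116, 0, 0, 0, 0), (18, 0, 0, 0, 0), (120, 0, 0, 0, 0), (18, 0, 0, 0, 0), (19, 0, 0, 0, 0), (120, 0, 0, 0, 0), (19, 0, 0, 0, 0), (34,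 0, 0, 0, 0), (131, 0, 0, 0, 0), (34, 0, 0, 0, 0), (35, 0, 0, 0, 0), (131, 0, 0, 0, 0), (35, 0, 0, 0, 0), (6, 0, 0, 0, 0), (111, 0, 0, 0, 0), (6, 0, 0, 0, 0), (7, 0, 0, 0, 0), (111, 0, 0, 0, 0), (7, 0, 0, 0, 0), (117, 0, 0, 0, 0), (12, 0, 0, 0, 0), (117, 0, 0, 0, 0), (13, 0, 0, 0, 0), (12, 0, 0, 0, 0), (13, 0, 0, 0, 0), (20, 0, 0, 0, 0), (21, 0, 0, 0, 0), (20, 0, 0, 0, 0), (121, 0, 0, 0, 0), (21, 0, 0, 0, 0), (121, 0, 0, 0, 0), (26, 0, 0, 0, 0), (127, 0, 0, 0, 0), (26, 0, 0, 0, 0), (27, 0, 0, 0, 0), (127, 0, 0, 0, 0), (27, 0, 0, 0, 0)],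
  [(72, 0, 0, 0, 0), (156, 0, 0, 0, 0), (72, 0, 0, 0, 0), (73, 0, 0, 0, 0), (156, 0, 0, 0, 0), (73, 0, 0, 0, 0), (157, 0, 0, 0, 0), (74, 0, 0, 0, 0), (157, 0, 0, 0, 0), (75, 0, 0, 0, 0), (74, 0, 0, 0, 0), (75, 0, 0, 0, 0), (76, 0, 0, 0, 0), (77, 0, 0, 0, 0), (76, 0, 0, 0, 0), (158, 0, 0, 0, 0), (77, 0, 0, 0, 0), (158, 0, 0, 0, 0), (78, 0, 0, 0, 0), (159, 0, 0, 0, 0), (78, 0, 0, 0, 0), (79, 0, 0, 0, 0), (159, 0, 0, 0, 0), (79, 0, 0, 0, 0), (80, 0, 0, 0, 0), (160, 0, 0, 0, 0), (80, 0, 0, 0, 0), (81, 0, 0, 0, 0), (160, 0, 0, 0, 0), (81, 0, 0, 0, 0), (82, 0, 0, 0, 0), (161, 0, 0, 0, 0), (82, 0, 0, 0, 0), (83, 0, 0, 0, 0), (161, 0, 0, 0, 0), (83, 0, 0, 0, 0), (162, 0, 0, 0, 0), (163, 0, 0, 0, 0), (162, 0, 0, 0, 0), (164, 0, 0, 0, 0), (163, 0, 0, 0, 0), (164, 0, 0, 0, 0), (165, 0, 0, 0, 0), (84, 0, 0, 0, 0), (165, 0, 0,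 0, 0), (85, 0, 0, 0, 0), (84, 0, 0, 0, 0), (85, 0, 0, 0, 0), (166, 0, 0, 0, 0), (86, 0, 0, 0, 0), (166, 0, 0, 0, 0), (87, 0, 0, 0, 0), (86, 0, 0, 0, 0), (87, 0, 0, 0, 0), (88, 0, 0, 0, 0), (167, 0, 0, 0, 0), (88, 0, 0, 0, 0), (89, 0, 0, 0, 0), (167, 0, 0, 0, 0), (89, 0, 0, 0, 0), (90, 0, 0, 0, 0), (168, 0, 0, 0, 0), (90, 0, 0, 0, 0), (91, 0, 0, 0, 0), (168, 0, 0, 0, 0), (91, 0, 0, 0, 0), (92, 0, 0, 0, 0), (93, 0, 0, 0, 0), (92, 0, 0, 0, 0), (169, 0, 0, 0, 0), (93, 0, 0, 0, 0), (169, 0, 0, 0, 0), (94, 0, 0, 0, 0), (95, 0, 0, 0, 0), (94, 0, 0, 0, 0), (170, 0, 0, 0, 0), (95, 0, 0, 0, 0), (170, 0, 0, 0, 0), (171, 0, 0, 0, 0), (172, 0, 0, 0, 0), (171, 0, 0, 0, 0), (173, 0, 0, 0, 0), (172, 0, 0, 0, 0), (173, 0, 0, 0, 0), (96, 0, 0, 0, 0), (174, 0, 0, 0, 0), (96, 0, 0, 0, 0), (97, 0, 0, 0, 0), (174, 0, 0, 0, 0), (97, 0,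 0, 0, 0), (98, 0, 0, 0, 0), (175, 0, 0, 0, 0), (98, 0, 0, 0, 0), (99, 0, 0, 0, 0), (175, 0, 0, 0, 0), (99, 0, 0, 0, 0), (100, 0, 0, 0, 0), (176, 0, 0, 0, 0), (100, 0, 0, 0, 0), (101, 0, 0, 0, 0), (176, 0, 0, 0, 0), (101, 0, 0, 0, 0), (177, 0, 0, 0, 0), (102, 0, 0, 0, 0), (177, 0, 0, 0, 0), (103, 0, 0, 0, 0), (102, 0, 0, 0, 0), (103, 0, 0, 0, 0), (104, 0, 0, 0, 0), (105, 0, 0, 0, 0), (104, 0, 0, 0, 0), (178, 0, 0, 0, 0), (105, 0, 0, 0, 0), (178, 0, 0, 0, 0), (106, 0, 0, 0, 0), (179, 0, 0, 0, 0), (106, 0, 0, 0, 0), (107, 0, 0, 0, 0), (179, 0, 0, 0, 0), (107, 0, 0, 0, 0)],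
  [(44, 0, 0, 0, 0), (136, 0, 0, 0, 0), (44, 0, 0, 0, 0), (45, 0, 0, 0, 0), (136, 0, 0, 0, 0), (45, 0, 0, 0, 0), (142, 0, 0, 0, 0), (50, 0, 0, 0, 0), (142, 0, 0, 0, 0), (51, 0, 0, 0, 0), (50, 0, 0, 0, 0), (51, 0, 0, 0, 0), (58, 0, 0, 0, 0), (59, 0, 0, 0, 0), (58, 0, 0, 0, 0), (146, 0, 0, 0, 0), (59, 0, 0, 0, 0), (146, 0, 0, 0, 0), (64, 0, 0, 0, 0), (152, 0, 0, 0, 0), (64, 0, 0, 0, 0), (65, 0, 0, 0, 0), (152, 0, 0, 0, 0), (65, 0, 0, 0, 0), (36, 0, 0, 0, 0), (132, 0, 0, 0, 0), (36, 0, 0, 0, 0), (37, 0, 0, 0, 0), (132, 0, 0, 0, 0), (37, 0, 0, 0, 0), (52, 0, 0, 0, 0), (143, 0, 0, 0, 0), (52, 0, 0, 0, 0), (53, 0, 0, 0, 0), (143, 0, 0, 0, 0), (53, 0, 0, 0, 0), (147, 0, 0, 0, 0), (148, 0, 0, 0, 0), (147, 0, 0, 0, 0), (149, 0, 0, 0, 0), (148, 0, 0, 0, 0), (149, 0, 0, 0, 0), (153, 0, 0, 0, 0), (66, 0, 0, 0, 0), (153, 0, 0,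 0, 0), (67, 0, 0, 0, 0), (66, 0, 0, 0, 0), (67, 0, 0, 0, 0), (133, 0, 0, 0, 0), (38, 0, 0, 0, 0), (133, 0, 0, 0, 0), (39, 0, 0, 0, 0), (38, 0, 0, 0, 0), (39, 0, 0, 0, 0), (46, 0, 0, 0, 0), (137, 0, 0, 0, 0), (46, 0, 0, 0, 0), (47, 0, 0, 0, 0), (137, 0, 0, 0, 0), (47, 0, 0, 0, 0), (60, 0, 0, 0, 0), (150, 0, 0, 0, 0), (60, 0, 0, 0, 0), (61, 0, 0, 0, 0), (150, 0, 0, 0, 0), (61, 0, 0, 0, 0), (68, 0, 0, 0, 0), (69, 0, 0, 0, 0), (68, 0, 0, 0, 0), (154, 0, 0, 0, 0), (69, 0, 0, 0, 0), (154, 0, 0, 0, 0), (40, 0, 0, 0, 0), (41, 0, 0, 0, 0), (40, 0, 0, 0, 0), (134, 0, 0, 0, 0), (41, 0, 0, 0, 0), (134, 0, 0, 0, 0), (138, 0, 0, 0, 0), (139, 0, 0, 0, 0), (138, 0, 0, 0, 0), (140, 0, 0, 0, 0), (139, 0, 0, 0, 0), (140, 0, 0, 0, 0), (54, 0, 0, 0, 0), (144, 0, 0, 0, 0), (54, 0, 0, 0, 0), (55, 0, 0, 0, 0), (144, 0, 0, 0, 0), (55, 0,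 0, 0, 0), (70, 0, 0, 0, 0), (155, 0, 0, 0, 0), (70, 0, 0, 0, 0), (71, 0, 0, 0, 0), (155, 0, 0, 0, 0), (71, 0, 0, 0, 0), (42, 0, 0, 0, 0), (135, 0, 0, 0, 0), (42, 0, 0, 0, 0), (43, 0, 0, 0, 0), (135, 0, 0, 0, 0), (43, 0, 0, 0, 0), (141, 0, 0, 0, 0), (48, 0, 0, 0, 0), (141, 0, 0, 0, 0), (49, 0, 0, 0, 0), (48, 0, 0, 0, 0), (49, 0, 0, 0, 0), (56, 0, 0, 0, 0), (57, 0, 0, 0, 0), (56, 0, 0, 0, 0), (145, 0, 0, 0, 0), (57, 0, 0, 0, 0), (145, 0, 0, 0, 0), (62, 0, 0, 0, 0), (151, 0, 0, 0, 0), (62, 0, 0, 0, 0), (63, 0, 0, 0, 0), (151, 0, 0, 0, 0), (63, 0, 0, 0, 0)],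
  [(80, 0, 0, 0, 0), (160, 0, 0, 0, 0), (80, 0, 0, 0, 0), (81, 0, 0, 0, 0), (160, 0, 0, 0, 0), (81, 0, 0, 0, 0), (166, 0, 0, 0, 0), (86, 0, 0, 0, 0), (166, 0, 0, 0, 0), (87, 0, 0, 0, 0), (86, 0, 0, 0, 0), (87, 0, 0, 0, 0), (94, 0, 0, 0, 0), (95, 0, 0, 0, 0), (94, 0, 0, 0, 0), (170, 0, 0, 0, 0), (95, 0, 0, 0, 0), (170, 0, 0, 0, 0), (100, 0, 0, 0, 0), (176, 0, 0, 0, 0), (100, 0, 0, 0, 0), (101, 0, 0, 0, 0), (176, 0, 0, 0, 0), (101, 0, 0, 0, 0), (72, 0, 0, 0, 0), (156, 0, 0, 0, 0), (72, 0, 0, 0, 0), (73, 0, 0, 0, 0), (156, 0, 0, 0, 0), (73, 0, 0, 0, 0), (88, 0, 0, 0, 0), (167, 0, 0, 0, 0), (88, 0, 0, 0, 0), (89, 0, 0, 0, 0), (167, 0, 0, 0, 0), (89, 0, 0, 0, 0), (171, 0, 0, 0, 0), (172, 0, 0, 0, 0), (171, 0, 0, 0, 0), (173, 0, 0, 0, 0), (172, 0, 0, 0, 0), (173, 0, 0, 0, 0), (177, 0, 0, 0, 0), (102, 0, 0, 0, 0), (177,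 0, 0, 0, 0), (103, 0, 0, 0, 0), (102, 0, 0, 0, 0), (103, 0, 0, 0, 0), (157, 0, 0, 0, 0), (74, 0, 0, 0, 0), (157, 0, 0, 0, 0), (75, 0, 0, 0, 0), (74, 0, 0, 0, 0), (75, 0, 0, 0, 0), (82, 0, 0, 0, 0), (161, 0, 0, 0, 0), (82, 0, 0, 0, 0), (83, 0, 0, 0, 0), (161, 0, 0, 0, 0), (83, 0, 0, 0, 0), (96, 0, 0, 0, 0), (174, 0, 0, 0, 0), (96, 0, 0, 0, 0), (97, 0, 0, 0, 0), (174, 0, 0, 0, 0), (97, 0, 0, 0, 0), (104, 0, 0, 0, 0), (105, 0, 0, 0, 0), (104, 0, 0, 0, 0), (178, 0, 0, 0, 0), (105, 0, 0, 0, 0), (178, 0, 0, 0, 0), (76, 0, 0, 0, 0), (77, 0, 0, 0, 0), (76, 0, 0, 0, 0), (158, 0, 0, 0, 0), (77, 0, 0, 0, 0), (158, 0, 0, 0, 0), (162, 0, 0, 0, 0), (163, 0, 0, 0, 0), (162, 0, 0, 0, 0), (164, 0, 0, 0, 0), (163, 0, 0, 0, 0), (164, 0, 0, 0, 0), (90, 0, 0, 0, 0), (168, 0, 0, 0, 0), (90, 0, 0, 0, 0), (91, 0, 0, 0, 0), (168, 0, 0, 0,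 0), (91, 0, 0, 0, 0), (106, 0, 0, 0, 0), (179, 0, 0, 0, 0), (106, 0, 0, 0, 0), (107, 0, 0, 0, 0), (179, 0, 0, 0, 0), (107, 0, 0, 0, 0), (78, 0, 0, 0, 0), (159, 0, 0, 0, 0), (78, 0, 0, 0, 0), (79, 0, 0, 0, 0), (159, 0, 0, 0, 0), (79, 0, 0, 0, 0), (165, 0, 0, 0, 0), (84, 0, 0, 0, 0), (165, 0, 0, 0, 0), (85, 0, 0, 0, 0), (84, 0, 0, 0, 0), (85, 0, 0, 0, 0), (92, 0, 0, 0, 0), (93, 0, 0, 0, 0), (92, 0, 0, 0, 0), (169, 0, 0, 0, 0), (93, 0, 0, 0, 0), (169, 0, 0, 0, 0), (98, 0, 0, 0, 0), (175, 0, 0, 0, 0), (98, 0, 0, 0, 0), (99, 0, 0, 0, 0), (175, 0, 0, 0, 0), (99, 0, 0, 0, 0)]]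

def m33_1 : Base := (0, 1, [(0, [0], [0, 5]), (0, [1], [1, 2]), (0, [2], [3, 5]), (4, [], [4])])

def l33_1 : Cov := [(128, 0, 1, [(0, [0], [0, 5]), (0, [1], [1, 2]), (0, [2], [3, 5]), (4, [], [4])]),
  (256, 0, 1, [(0, [0], [0, 5]), (0, [1], [1, 2]), (0, [2], [4, 5]), (4, [], [3])]),
  (-256, 0, 1, [(0, [0], [0, 5]), (0, [1], [1, 4]), (0, [2], [2, 5]), (4, [], [3])]),
  (-128, 0, 1, [(0, [0], [0, 5]), (0, [1], [1, 4]), (0, [2], [3, 5]), (4, [], [2])]),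
  (-128, 0, 1, [(0, [0], [0, 5]), (0, [1], [2, 3]), (0, [2], [1, 5]), (4, [], [4])]),
  (-256, 0, 1, [(0, [0], [0, 5]), (0, [1], [2, 3]), (0, [2], [4, 5]), (4, [], [1])]),
  (128, 0, 1, [(0, [0], [0, 5]), (0, [1], [3, 4]), (0, [2], [1, 5]), (4, [], [2])]),
  (256, 0, 1, [(0, [0], [0, 5]), (0, [1], [3, 4]), (0, [2], [2, 5]), (4, [], [1])]),
  (-128, 0, 1, [(0, [0], [1, 5]), (0, [1], [0, 3]), (0, [2], [2, 5]), (4, [], [4])]),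
  (128, 0, 1, [(0, [0], [1, 5]), (0, [1], [0, 3]), (0, [2], [4, 5]), (4, [], [2])]),
  (128, 0, 1, [(0, [0], [1, 5]), (0, [1], [2, 3]), (0, [2], [0, 5]), (4, [], [4])]),
  (-128, 0, 1, [(0, [0], [1, 5]), (0, [1], [2, 3]), (0, [2], [4, 5]), (4, [], [0])]),
  (-128, 0, 1, [(0, [0], [1, 5]), (0, [1], [3, 4]), (0, [2], [0, 5]), (4, [], [2])]),
  (128, 0, 1, [(0, [0], [1, 5]), (0, [1], [3, 4]), (0, [2], [2, 5]), (4, [], [0])]),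
  (-128, 0, 1, [(0, [0], [2, 5]), (0, [1], [0, 1]), (0, [2], [3, 5]), (4, [], [4])]),
  (-256, 0, 1, [(0, [0], [2, 5]), (0, [1], [0, 1]), (0, [2], [4, 5]), (4, [], [3])]),
  (128, 0, 1, [(0, [0], [2, 5]), (0, [1], [0, 3]), (0, [2], [1, 5]), (4, [], [4])]),
  (256, 0, 1, [(0, [0], [2, 5]), (0, [1], [0, 3]), (0, [2], [4, 5]), (4, [], [1])]),
  (256, 0, 1, [(0, [0], [2, 5]), (0, [1], [1, 4]), (0, [2], [0, 5]), (4, [], [3])]),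
  (128, 0, 1, [(0, [0], [2, 5]), (0, [1], [1, 4]), (0, [2], [3, 5]), (4, [], [0])]),
  (-256, 0, 1, [(0, [0], [2, 5]), (0, [1], [3, 4]), (0, [2], [0, 5]), (4, [], [1])]),
  (-128, 0, 1, [(0, [0], [2, 5]), (0, [1], [3, 4]), (0, [2], [1, 5]), (4, [], [0])]),
  (128, 0, 1, [(0, [0], [3, 5]), (0, [1], [0, 1]), (0, [2], [2, 5]), (4, [], [4])]),
  (-128, 0, 1, [(0, [0], [3, 5]), (0, [1], [0, 1]), (0, [2], [4, 5]), (4, [], [2])]),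
  (-128, 0, 1, [(0, [0], [3, 5]), (0, [1], [1, 2]), (0, [2], [0, 5]), (4, [], [4])]),
  (128, 0, 1, [(0, [0], [3, 5]), (0, [1], [1, 2]), (0, [2], [4, 5]), (4, [], [0])]),
  (128, 0, 1, [(0, [0], [3, 5]), (0, [1], [1, 4]), (0, [2], [0, 5]), (4, [], [2])]),
  (-128, 0, 1, [(0, [0], [3, 5]), (0, [1], [1, 4]), (0, [2], [2, 5]), (4, [], [0])]),
  (256, 0, 1, [(0, [0], [4, 5]), (0, [1], [0, 1]), (0, [2], [2, 5]), (4, [], [3])]),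
  (128, 0, 1, [(0, [0], [4, 5]), (0, [1], [0, 1]), (0, [2], [3, 5]), (4, [], [2])]),
  (-128, 0, 1, [(0, [0], [4, 5]), (0, [1], [0, 3]), (0, [2], [1, 5]), (4, [], [2])]),
  (-256, 0, 1, [(0, [0], [4, 5]), (0, [1], [0, 3]), (0, [2], [2, 5]), (4, [], [1])]),
  (-256, 0, 1, [(0, [0], [4, 5]), (0, [1], [1, 2]), (0, [2], [0, 5]), (4, [], [3])]),
  (-128, 0, 1, [(0, [0], [4, 5]), (0, [1], [1, 2]), (0, [2], [3, 5]), (4, [], [0])]),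
  (256, 0, 1, [(0, [0], [4, 5]), (0, [1], [2, 3]), (0, [2], [0, 5]), (4, [], [1])]),
  (128, 0, 1, [(0, [0], [4, 5]), (0, [1], [2, 3]), (0, [2], [1, 5]), (4, [], [0])]),
  (64, 0, 1, [(0, [0], [0, 5]), (0, [2], [1, 2]), (0, [1], [3, 5]), (4, [], [4])]),
  (128, 0, 1, [(0, [0], [0, 5]), (0, [2], [1, 2]), (0, [1], [4, 5]), (4, [], [3])]),
  (-128, 0, 1, [(0, [0], [0, 5]), (0, [2], [1, 4]), (0, [1], [2, 5]), (4, [], [3])]),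
  (-64, 0, 1, [(0, [0], [0, 5]), (0, [2], [1, 4]), (0, [1], [3, 5]), (4, [], [2])]),
  (-64, 0, 1, [(0, [0], [0, 5]), (0, [2], [2, 3]), (0, [1], [1, 5]), (4, [], [4])]),
  (-128, 0, 1, [(0, [0], [0, 5]), (0, [2], [2, 3]), (0, [1], [4, 5]), (4, [], [1])]),
  (64, 0, 1, [(0, [0], [0, 5]), (0, [2], [3, 4]), (0, [1], [1, 5]), (4, [], [2])]),
  (128, 0, 1, [(0, [0], [0, 5]), (0, [2], [3, 4]), (0, [1], [2, 5]), (4, [], [1])]),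
  (-64, 0, 1, [(0, [0], [1, 5]), (0, [2], [0, 3]), (0, [1], [2, 5]), (4, [], [4])]),
  (64, 0, 1, [(0, [0], [1, 5]), (0, [2], [0, 3]), (0, [1], [4, 5]), (4, [], [2])]),
  (64, 0, 1, [(0, [0], [1, 5]), (0, [2], [2, 3]), (0, [1], [0, 5]), (4, [], [4])]),
  (-64, 0, 1, [(0, [0], [1, 5]), (0, [2], [2, 3]), (0, [1], [4, 5]), (4, [], [0])]),
  (-64, 0, 1, [(0, [0], [1, 5]), (0, [2], [3, 4]), (0, [1], [0, 5]), (4, [], [2])]),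
  (64, 0, 1, [(0, [0], [1, 5]), (0, [2], [3, 4]), (0, [1], [2, 5]), (4, [], [0])]),
  (-64, 0, 1, [(0, [0], [2, 5]), (0, [2], [0, 1]), (0, [1], [3, 5]), (4, [], [4])]),
  (-128, 0, 1, [(0, [0], [2, 5]), (0, [2], [0, 1]), (0, [1], [4, 5]), (4, [], [3])]),
  (64, 0, 1, [(0, [0], [2, 5]), (0, [2], [0, 3]), (0, [1], [1, 5]), (4, [], [4])]),
  (128, 0, 1, [(0, [0], [2, 5]), (0, [2], [0, 3]), (0, [1], [4, 5]), (4, [], [1])]),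
  (128, 0, 1, [(0, [0], [2, 5]), (0, [2], [1, 4]), (0, [1], [0, 5]), (4, [], [3])]),
  (64, 0, 1, [(0, [0], [2, 5]), (0, [2], [1, 4]), (0, [1], [3, 5]), (4, [], [0])]),
  (-128, 0, 1, [(0, [0], [2, 5]), (0, [2], [3, 4]), (0, [1], [0, 5]), (4, [], [1])]),
  (-64, 0, 1, [(0, [0], [2, 5]), (0, [2], [3, 4]), (0, [1], [1, 5]), (4, [], [0])]),
  (64, 0, 1, [(0, [0], [3, 5]), (0, [2], [0, 1]), (0, [1], [2, 5]), (4, [], [4])]),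
  (-64, 0, 1, [(0, [0], [3, 5]), (0, [2], [0, 1]), (0, [1], [4, 5]), (4, [], [2])]),
  (-64, 0, 1, [(0, [0], [3, 5]), (0, [2], [1, 2]), (0, [1], [0, 5]), (4, [], [4])]),
  (64, 0, 1, [(0, [0], [3, 5]), (0, [2], [1, 2]), (0, [1], [4, 5]), (4, [], [0])]),
  (64, 0, 1, [(0, [0], [3, 5]), (0, [2], [1, 4]), (0, [1], [0, 5]), (4, [], [2])]),
  (-64, 0, 1, [(0, [0], [3, 5]), (0, [2], [1, 4]), (0, [1], [2, 5]), (4, [], [0])]),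
  (128, 0, 1, [(0, [0], [4, 5]), (0, [2], [0, 1]), (0, [1], [2, 5]), (4, [], [3])]),
  (64, 0, 1, [(0, [0], [4, 5]), (0, [2], [0, 1]), (0, [1], [3, 5]), (4, [], [2])]),
  (-64, 0, 1, [(0, [0], [4, 5]), (0, [2], [0, 3]), (0, [1], [1, 5]), (4, [], [2])]),
  (-128, 0, 1, [(0, [0], [4, 5]), (0, [2], [0, 3]), (0, [1], [2, 5]), (4, [], [1])]),
  (-128, 0, 1, [(0, [0], [4, 5]), (0, [2], [1, 2]), (0, [1], [0, 5]), (4, [], [3])]),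
  (-64, 0, 1, [(0, [0], [4, 5]), (0, [2], [1, 2]), (0, [1], [3, 5]), (4, [], [0])]),
  (128, 0, 1, [(0, [0], [4, 5]), (0, [2], [2, 3]), (0, [1], [0, 5]), (4, [], [1])]),
  (64, 0, 1, [(0, [0], [4, 5]), (0, [2], [2, 3]), (0, [1], [1, 5]), (4, [], [0])]),
  (64, 0, 1, [(0, [1], [0, 5]), (0, [0], [1, 2]), (0, [2], [3, 5]), (4, [], [4])]),
  (128, 0, 1, [(0, [1], [0, 5]), (0, [0], [1, 2]), (0, [2], [4, 5]), (4, [], [3])]),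
  (-128, 0, 1, [(0, [1], [0, 5]), (0, [0], [1, 4]), (0, [2], [2, 5]), (4, [], [3])]),
  (-64, 0, 1, [(0, [1], [0, 5]), (0, [0], [1, 4]), (0, [2], [3, 5]), (4, [], [2])]),
  (-64, 0, 1, [(0, [1], [0, 5]), (0, [0], [2, 3]), (0, [2], [1, 5]), (4, [], [4])]),
  (-128, 0, 1, [(0, [1], [0, 5]), (0, [0], [2, 3]), (0, [2], [4, 5]), (4, [], [1])]),
  (64, 0, 1, [(0, [1], [0, 5]), (0, [0], [3, 4]), (0, [2], [1, 5]), (4, [], [2])]),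
  (128, 0, 1, [(0, [1], [0, 5]), (0, [0], [3, 4]), (0, [2], [2, 5]), (4, [], [1])]),
  (-64, 0, 1, [(0, [1], [1, 5]), (0, [0], [0, 3]), (0, [2], [2, 5]), (4, [], [4])]),
  (64, 0, 1, [(0, [1], [1, 5]), (0, [0], [0, 3]), (0, [2], [4, 5]), (4, [], [2])]),
  (64, 0, 1, [(0, [1], [1, 5]), (0, [0], [2, 3]), (0, [2], [0, 5]), (4, [], [4])]),
  (-64, 0, 1, [(0, [1], [1, 5]), (0, [0], [2, 3]), (0, [2], [4, 5]), (4, [], [0])]),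
  (-64, 0, 1, [(0, [1], [1, 5]), (0, [0], [3, 4]), (0, [2], [0, 5]), (4, [], [2])]),
  (64, 0, 1, [(0, [1], [1, 5]), (0, [0], [3, 4]), (0, [2], [2, 5]), (4, [], [0])]),
  (-64, 0, 1, [(0, [1], [2, 5]), (0, [0], [0, 1]), (0, [2], [3, 5]), (4, [], [4])]),
  (-128, 0, 1, [(0, [1], [2, 5]), (0, [0], [0, 1]), (0, [2], [4, 5]), (4, [], [3])]),
  (64, 0, 1, [(0, [1], [2, 5]), (0, [0], [0, 3]), (0, [2], [1, 5]), (4, [], [4])]),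
  (128, 0, 1, [(0, [1], [2, 5]), (0, [0], [0, 3]), (0, [2], [4, 5]), (4, [], [1])]),
  (128, 0, 1, [(0, [1], [2, 5]), (0, [0], [1, 4]), (0, [2], [0, 5]), (4, [], [3])]),
  (64, 0, 1, [(0, [1], [2, 5]), (0, [0], [1, 4]), (0, [2], [3, 5]), (4, [], [0])]),
  (-128, 0, 1, [(0, [1], [2, 5]), (0, [0], [3, 4]), (0, [2], [0, 5]), (4, [], [1])]),
  (-64, 0, 1, [(0, [1], [2, 5]), (0, [0], [3, 4]), (0, [2], [1, 5]), (4, [], [0])]),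
  (64, 0, 1, [(0, [1], [3, 5]), (0, [0], [0, 1]), (0, [2], [2, 5]), (4, [], [4])]),
  (-64, 0, 1, [(0, [1], [3, 5]), (0, [0], [0, 1]), (0, [2], [4, 5]), (4, [], [2])]),
  (-64, 0, 1, [(0, [1], [3, 5]), (0, [0], [1, 2]), (0, [2], [0, 5]), (4, [], [4])]),
  (64, 0, 1, [(0, [1], [3, 5]), (0, [0], [1, 2]), (0, [2], [4, 5]), (4, [], [0])]),
  (64, 0, 1, [(0, [1], [3, 5]), (0, [0], [1, 4]), (0, [2], [0, 5]), (4, [], [2])]),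
  (-64, 0, 1, [(0, [1], [3, 5]), (0, [0], [1, 4]), (0, [2], [2, 5]), (4, [], [0])]),
  (128, 0, 1, [(0, [1], [4, 5]), (0, [0], [0, 1]), (0, [2], [2, 5]), (4, [], [3])]),
  (64, 0, 1, [(0, [1], [4, 5]), (0, [0], [0, 1]), (0, [2], [3, 5]), (4, [], [2])]),
  (-64, 0, 1, [(0, [1], [4, 5]), (0, [0], [0, 3]), (0, [2], [1, 5]), (4, [], [2])]),
  (-128, 0, 1, [(0, [1], [4, 5]), (0, [0], [0, 3]), (0, [2], [2, 5]), (4, [], [1])]),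
  (-128, 0, 1, [(0, [1], [4, 5]), (0, [0], [1, 2]), (0, [2], [0, 5]), (4, [], [3])]),
  (-64, 0, 1, [(0, [1], [4, 5]), (0, [0], [1, 2]), (0, [2], [3, 5]), (4, [], [0])]),
  (128, 0, 1, [(0, [1], [4, 5]), (0, [0], [2, 3]), (0, [2], [0, 5]), (4, [], [1])]),
  (64, 0, 1, [(0, [1], [4, 5]), (0, [0], [2, 3]), (0, [2], [1, 5]), (4, [], [0])])]

def z33_1 : Cov := [(0, 0, 1, [(0, [0], [0, 5]), (0, [1], [1, 3]), (0, [2], [2, 5]), (4, [], [4])]),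
  (0, 0, 1, [(0, [0], [0, 5]), (0, [1], [1, 3]), (0, [2], [4, 5]), (4, [], [2])]),
  (0, 0, 1, [(0, [0], [0, 5]), (0, [1], [2, 4]), (0, [2], [1, 5]), (4, [], [3])]),
  (0, 0, 1, [(0, [0], [0, 5]), (0, [1], [2, 4]), (0, [2], [3, 5]), (4, [], [1])]),
  (0, 0, 1, [(0, [0], [1, 5]), (0, [1], [0, 2]), (0, [2], [3, 5]), (4, [], [4])]),
  (0, 0, 1, [(0, [0], [1, 5]), (0, [1], [0, 2]), (0, [2], [4, 5]), (4, [], [3])]),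
  (0, 0, 1, [(0, [0], [1, 5]), (0, [1], [0, 4]), (0, [2], [2, 5]), (4, [], [3])]),
  (0, 0, 1, [(0, [0], [1, 5]), (0, [1], [0, 4]), (0, [2], [3, 5]), (4, [], [2])]),
  (0, 0, 1, [(0, [0], [1, 5]), (0, [1], [2, 4]), (0, [2], [0, 5]), (4, [], [3])]),
  (0, 0, 1, [(0, [0], [1, 5]), (0, [1], [2, 4]), (0, [2], [3, 5]), (4, [], [0])]),
  (0, 0, 1, [(0, [0], [2, 5]), (0, [1], [0, 4]), (0, [2], [1, 5]), (4, [], [3])]),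
  (0, 0, 1, [(0, [0], [2, 5]), (0, [1], [0, 4]), (0, [2], [3, 5]), (4, [], [1])]),
  (0, 0, 1, [(0, [0], [2, 5]), (0, [1], [1, 3]), (0, [2], [0, 5]), (4, [], [4])]),
  (0, 0, 1, [(0, [0], [2, 5]), (0, [1], [1, 3]), (0, [2], [4, 5]), (4, [], [0])]),
  (0, 0, 1, [(0, [0], [3, 5]), (0, [1], [0, 2]), (0, [2], [1, 5]), (4, [], [4])]),
  (0, 0, 1, [(0, [0], [3, 5]), (0, [1], [0, 2]), (0, [2], [4, 5]), (4, [], [1])]),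
  (0, 0, 1, [(0, [0], [3, 5]), (0, [1], [0, 4]), (0, [2], [1, 5]), (4, [], [2])]),
  (0, 0, 1, [(0, [0], [3, 5]), (0, [1], [0, 4]), (0, [2], [2, 5]), (4, [], [1])]),
  (0, 0, 1, [(0, [0], [3, 5]), (0, [1], [2, 4]), (0, [2], [0, 5]), (4, [], [1])]),
  (0, 0, 1, [(0, [0], [3, 5]), (0, [1], [2, 4]), (0, [2], [1, 5]), (4, [], [0])]),
  (0, 0, 1, [(0, [0], [4, 5]), (0, [1], [0, 2]), (0, [2], [1, 5]), (4, [], [3])]),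
  (0, 0, 1, [(0, [0], [4, 5]), (0, [1], [0, 2]), (0, [2], [3, 5]), (4, [], [1])]),
  (0, 0, 1, [(0, [0], [4, 5]), (0, [1], [1, 3]), (0, [2], [0, 5]), (4, [], [2])]),
  (0, 0, 1, [(0, [0], [4, 5]), (0, [1], [1, 3]), (0, [2], [2, 5]), (4, [], [0])]),
  (0, 0, 1, [(0, [0], [0, 5]), (0, [2], [1, 3]), (0, [1], [2, 5]), (4, [], [4])]),
  (0, 0, 1, [(0, [0], [0, 5]), (0, [2], [1, 3]), (0, [1], [4, 5]), (4, [], [2])]),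
  (0, 0, 1, [(0, [0], [0, 5]), (0, [2], [2, 4]), (0, [1], [1, 5]), (4, [], [3])]),
  (0, 0, 1, [(0, [0], [0, 5]), (0, [2], [2, 4]), (0, [1], [3, 5]), (4, [], [1])]),
  (0, 0, 1, [(0, [0], [1, 5]), (0, [2], [0, 2]), (0, [1], [3, 5]), (4, [], [4])]),
  (0, 0, 1, [(0, [0], [1, 5]), (0, [2], [0, 2]), (0, [1], [4, 5]), (4, [], [3])]),
  (0, 0, 1, [(0, [0], [1, 5]), (0, [2], [0, 4]), (0, [1], [2, 5]), (4, [], [3])]),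
  (0, 0, 1, [(0, [0], [1, 5]), (0, [2], [0, 4]), (0, [1], [3, 5]), (4, [], [2])]),
  (0, 0, 1, [(0, [0], [1, 5]), (0, [2], [2, 4]), (0, [1], [0, 5]), (4, [], [3])]),
  (0, 0, 1, [(0, [0], [1, 5]), (0, [2], [2, 4]), (0, [1], [3, 5]), (4, [], [0])]),
  (0, 0, 1, [(0, [0], [2, 5]), (0, [2], [0, 4]), (0, [1], [1, 5]), (4, [], [3])]),
  (0, 0, 1, [(0, [0], [2, 5]), (0, [2], [0, 4]), (0, [1], [3, 5]), (4, [], [1])]),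
  (0, 0, 1, [(0, [0], [2, 5]), (0, [2], [1, 3]), (0, [1], [0, 5]), (4, [], [4])]),
  (0, 0, 1, [(0, [0], [2, 5]), (0, [2], [1, 3]), (0, [1], [4, 5]), (4, [], [0])]),
  (0, 0, 1, [(0, [0], [3, 5]), (0, [2], [0, 2]), (0, [1], [1, 5]), (4, [], [4])]),
  (0, 0, 1, [(0, [0], [3, 5]), (0, [2], [0, 2]), (0, [1], [4, 5]), (4, [], [1])]),
  (0, 0, 1, [(0, [0], [3, 5]), (0, [2], [0, 4]), (0, [1], [1, 5]), (4, [], [2])]),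
  (0, 0, 1, [(0, [0], [3, 5]), (0, [2], [0, 4]), (0, [1], [2, 5]), (4, [], [1])]),
  (0, 0, 1, [(0, [0], [3, 5]), (0, [2], [2, 4]), (0, [1], [0, 5]), (4, [], [1])]),
  (0, 0, 1, [(0, [0], [3, 5]), (0, [2], [2, 4]), (0, [1], [1, 5]), (4, [], [0])]),
  (0, 0, 1, [(0, [0], [4, 5]), (0, [2], [0, 2]), (0, [1], [1, 5]), (4, [], [3])]),
  (0, 0, 1, [(0, [0], [4, 5]), (0, [2], [0, 2]), (0, [1], [3, 5]), (4, [], [1])]),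
  (0, 0, 1, [(0, [0], [4, 5]), (0, [2], [1, 3]), (0, [1], [0, 5]), (4, [], [2])]),
  (0, 0, 1, [(0, [0], [4, 5]), (0, [2], [1, 3]), (0, [1], [2, 5]), (4, [], [0])]),
  (0, 0, 1, [(0, [1], [0, 5]), (0, [0], [1, 3]), (0, [2], [2, 5]), (4, [], [4])]),
  (0, 0, 1, [(0, [1], [0, 5]), (0, [0], [1, 3]), (0, [2], [4, 5]), (4, [], [2])]),
  (0, 0, 1, [(0, [1], [0, 5]), (0, [0], [2, 4]), (0, [2], [1, 5]), (4, [], [3])]),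
  (0, 0, 1, [(0, [1], [0, 5]), (0, [0], [2, 4]), (0, [2], [3, 5]), (4, [], [1])]),
  (0, 0, 1, [(0, [1], [1, 5]), (0, [0], [0, 2]), (0, [2], [3, 5]), (4, [], [4])]),
  (0, 0, 1, [(0, [1], [1, 5]), (0, [0], [0, 2]), (0, [2], [4, 5]), (4, [], [3])]),
  (0, 0, 1, [(0, [1], [1, 5]), (0, [0], [0, 4]), (0, [2], [2, 5]), (4, [], [3])]),
  (0, 0, 1, [(0, [1], [1, 5]), (0, [0], [0, 4]), (0, [2], [3, 5]), (4, [], [2])]),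
  (0, 0, 1, [(0, [1], [1, 5]), (0, [0], [2, 4]), (0, [2], [0, 5]), (4, [], [3])]),
  (0, 0, 1, [(0, [1], [1, 5]), (0, [0], [2, 4]), (0, [2], [3, 5]), (4, [], [0])]),
  (0, 0, 1, [(0, [1], [2, 5]), (0, [0], [0, 4]), (0, [2], [1, 5]), (4, [], [3])]),
  (0, 0, 1, [(0, [1], [2, 5]), (0, [0], [0, 4]), (0, [2], [3, 5]), (4, [], [1])]),
  (0, 0, 1, [(0, [1], [2, 5]), (0, [0], [1, 3]), (0, [2], [0, 5]), (4, [], [4])]),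
  (0, 0, 1, [(0, [1], [2, 5]), (0, [0], [1, 3]), (0, [2], [4, 5]), (4, [], [0])]),
  (0, 0, 1, [(0, [1], [3, 5]), (0, [0], [0, 2]), (0, [2], [1, 5]), (4, [], [4])]),
  (0, 0, 1, [(0, [1], [3, 5]), (0, [0], [0, 2]), (0, [2], [4, 5]), (4, [], [1])]),
  (0, 0, 1, [(0, [1], [3, 5]), (0, [0], [0, 4]), (0, [2], [1, 5]), (4, [], [2])]),
  (0, 0, 1, [(0, [1], [3, 5]), (0, [0], [0, 4]), (0, [2], [2, 5]), (4, [], [1])]),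
  (0, 0, 1, [(0, [1], [3, 5]), (0, [0], [2, 4]), (0, [2], [0, 5]), (4, [], [1])]),
  (0, 0, 1, [(0, [1], [3, 5]), (0, [0], [2, 4]), (0, [2], [1, 5]), (4, [], [0])]),
  (0, 0, 1, [(0, [1], [4, 5]), (0, [0], [0, 2]), (0, [2], [1, 5]), (4, [], [3])]),
  (0, 0, 1, [(0, [1], [4, 5]), (0, [0], [0, 2]), (0, [2], [3, 5]), (4, [], [1])]),
  (0, 0, 1, [(0, [1], [4, 5]), (0, [0], [1, 3]), (0, [2], [0, 5]), (4, [], [2])]),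
  (0, 0, 1, [(0, [1], [4, 5]), (0, [0], [1, 3]), (0, [2], [2, 5]), (4, [], [0])])]

def w33_1 : List (List Wit) := [[(0, 0, 0, 0, 0), (1, 0, 0, 0, 0), (108, 0, 0, 0, 0), (109, 0, 0, 0, 0), (2, 0, 0, 0, 0), (3, 0, 0, 0, 0), (0, 0, 0, 0, 0), (1, 0, 0, 0, 0), (4, 0, 0, 0, 0), (5, 0, 0, 0, 0), (110, 0, 0, 0, 0), (111, 0, 0, 0, 0), (108, 0, 0, 0, 0), (109, 0, 0, 0, 0), (4, 0, 0, 0, 0), (5, 0, 0, 0, 0), (6, 0, 0, 0, 0), (7, 0, 0, 0, 0), (2, 0, 0, 0, 0), (3, 0, 0, 0, 0), (110, 0, 0, 0, 0), (111, 0, 0, 0, 0), (6, 0, 0, 0, 0), (7, 0, 0, 0, 0), (112, 0, 0, 0, 0), (113, 0, 0, 0, 0), (8, 0, 0, 0, 0), (9, 0, 0, 0, 0), (114, 0, 0, 0, 0), (115, 0, 0, 0, 0), (112, 0, 0, 0, 0), (113, 0, 0, 0, 0), (10, 0, 0, 0, 0), (11, 0, 0, 0, 0), (116, 0, 0, 0, 0), (117, 0, 0, 0, 0), (8, 0, 0, 0, 0), (9, 0, 0, 0, 0), (10, 0, 0, 0, 0), (11, 0, 0,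 0, 0), (12, 0, 0, 0, 0), (13, 0, 0, 0, 0), (114, 0, 0, 0, 0), (115, 0, 0, 0, 0), (116, 0, 0, 0, 0), (117, 0, 0, 0, 0), (12, 0, 0, 0, 0), (13, 0, 0, 0, 0), (14, 0, 0, 0, 0), (15, 0, 0, 0, 0), (16, 0, 0, 0, 0), (17, 0, 0, 0, 0), (118, 0, 0, 0, 0), (119, 0, 0, 0, 0), (14, 0, 0, 0, 0), (15, 0, 0, 0, 0), (120, 0, 0, 0, 0), (121, 0, 0, 0, 0), (18, 0, 0, 0, 0), (19, 0, 0, 0, 0), (16, 0, 0, 0, 0), (17, 0, 0, 0, 0), (120, 0, 0, 0, 0), (121, 0, 0, 0, 0), (20, 0, 0, 0, 0), (21, 0, 0, 0, 0), (118, 0, 0, 0, 0), (119, 0, 0, 0, 0), (18, 0, 0, 0, 0), (19, 0, 0, 0, 0), (20, 0, 0, 0, 0), (21, 0, 0, 0, 0), (22, 0, 0, 0, 0), (23, 0, 0, 0, 0), (122, 0, 0, 0, 0), (123, 0, 0, 0, 0), (124, 0, 0, 0, 0), (125, 0, 0, 0, 0), (22, 0, 0, 0, 0), (23, 0, 0, 0, 0), (24, 0, 0, 0, 0), (25, 0, 0, 0, 0), (26, 0, 0, 0, 0), (27, 0, 0, 0, 0), (122, 0, 0,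 0, 0), (123, 0, 0, 0, 0), (24, 0, 0, 0, 0), (25, 0, 0, 0, 0), (126, 0, 0, 0, 0), (127, 0, 0, 0, 0), (124, 0, 0, 0, 0), (125, 0, 0, 0, 0), (26, 0, 0, 0, 0), (27, 0, 0, 0, 0), (126, 0, 0, 0, 0), (127, 0, 0, 0, 0), (28, 0, 0, 0, 0), (29, 0, 0, 0, 0), (128, 0, 0, 0, 0), (129, 0, 0, 0, 0), (30, 0, 0, 0, 0), (31, 0, 0, 0, 0), (28, 0, 0, 0, 0), (29, 0, 0, 0, 0), (32, 0, 0, 0, 0), (33, 0, 0, 0, 0), (130, 0, 0, 0, 0), (131, 0, 0, 0, 0), (128, 0, 0, 0, 0), (129, 0, 0, 0, 0), (32, 0, 0, 0, 0), (33, 0, 0, 0, 0), (34, 0, 0, 0, 0), (35, 0, 0, 0, 0), (30, 0, 0, 0, 0), (31, 0, 0, 0, 0), (130, 0, 0, 0, 0), (131, 0, 0, 0, 0), (34, 0, 0, 0, 0), (35, 0, 0, 0, 0)],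
  [(36, 0, 0, 0, 0), (37, 0, 0, 0, 0), (132, 0, 0, 0, 0), (133, 0, 0, 0, 0), (38, 0, 0, 0, 0), (39, 0, 0, 0, 0), (36, 0, 0, 0, 0), (37, 0, 0, 0, 0), (40, 0, 0, 0, 0), (41, 0, 0, 0, 0), (134, 0, 0, 0, 0), (135, 0, 0, 0, 0), (132, 0, 0, 0, 0), (133, 0, 0, 0, 0), (40, 0, 0, 0, 0), (41, 0, 0, 0, 0), (42, 0, 0, 0, 0), (43, 0, 0, 0, 0), (38, 0, 0, 0, 0), (39, 0, 0, 0, 0), (134, 0, 0, 0, 0), (135, 0, 0, 0, 0), (42, 0, 0, 0, 0), (43, 0, 0, 0, 0), (136, 0, 0, 0, 0), (137, 0, 0, 0, 0), (44, 0, 0, 0, 0), (45, 0, 0, 0, 0), (138, 0, 0, 0, 0), (139, 0, 0, 0, 0), (136, 0, 0, 0, 0), (137, 0, 0, 0, 0), (46, 0, 0, 0, 0), (47, 0, 0, 0, 0), (140, 0, 0, 0, 0), (141, 0, 0, 0, 0), (44, 0, 0, 0, 0), (45, 0, 0, 0, 0), (46, 0, 0, 0, 0), (47, 0, 0, 0, 0), (48, 0, 0, 0, 0), (49, 0, 0, 0, 0), (138, 0, 0, 0, 0), (139, 0, 0, 0, 0), (140, 0, 0,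 0, 0), (141, 0, 0, 0, 0), (48, 0, 0, 0, 0), (49, 0, 0, 0, 0), (50, 0, 0, 0, 0), (51, 0, 0, 0, 0), (52, 0, 0, 0, 0), (53, 0, 0, 0, 0), (142, 0, 0, 0, 0), (143, 0, 0, 0, 0), (50, 0, 0, 0, 0), (51, 0, 0, 0, 0), (144, 0, 0, 0, 0), (145, 0, 0, 0, 0), (54, 0, 0, 0, 0), (55, 0, 0, 0, 0), (52, 0, 0, 0, 0), (53, 0, 0, 0, 0), (144, 0, 0, 0, 0), (145, 0, 0, 0, 0), (56, 0, 0, 0, 0), (57, 0, 0, 0, 0), (142, 0, 0, 0, 0), (143, 0, 0, 0, 0), (54, 0, 0, 0, 0), (55, 0, 0, 0, 0), (56, 0, 0, 0, 0), (57, 0, 0, 0, 0), (58, 0, 0, 0, 0), (59, 0, 0, 0, 0), (146, 0, 0, 0, 0), (147, 0, 0, 0, 0), (148, 0, 0, 0, 0), (149, 0, 0, 0, 0), (58, 0, 0, 0, 0), (59, 0, 0, 0, 0), (60, 0, 0, 0, 0), (61, 0, 0, 0, 0), (62, 0, 0, 0, 0), (63, 0, 0, 0, 0), (146, 0, 0, 0, 0), (147, 0, 0, 0, 0), (60, 0, 0, 0, 0), (61, 0, 0, 0, 0), (150, 0, 0, 0, 0), (151, 0, 0,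 0, 0), (148, 0, 0, 0, 0), (149, 0, 0, 0, 0), (62, 0, 0, 0, 0), (63, 0, 0, 0, 0), (150, 0, 0, 0, 0), (151, 0, 0, 0, 0), (64, 0, 0, 0, 0), (65, 0, 0, 0, 0), (152, 0, 0, 0, 0), (153, 0, 0, 0, 0), (66, 0, 0, 0, 0), (67, 0, 0, 0, 0), (64, 0, 0, 0, 0), (65, 0, 0, 0, 0), (68, 0, 0, 0, 0), (69, 0, 0, 0, 0), (154, 0, 0, 0, 0), (155, 0, 0, 0, 0), (152, 0, 0, 0, 0), (153, 0, 0, 0, 0), (68, 0, 0, 0, 0), (69, 0, 0, 0, 0), (70, 0, 0, 0, 0), (71, 0, 0, 0, 0), (66, 0, 0, 0, 0), (67, 0, 0, 0, 0), (154, 0, 0, 0, 0), (155, 0, 0, 0, 0), (70, 0, 0, 0, 0), (71, 0, 0, 0, 0)],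
  [(72, 0, 0, 0, 0), (73, 0, 0, 0, 0), (156, 0, 0, 0, 0), (157, 0, 0, 0, 0), (74, 0, 0, 0, 0), (75, 0, 0, 0, 0), (72, 0, 0, 0, 0), (73, 0, 0, 0, 0), (76, 0, 0, 0, 0), (77, 0, 0, 0, 0), (158, 0, 0, 0, 0), (159, 0, 0, 0, 0), (156, 0, 0, 0, 0), (157, 0, 0, 0, 0), (76, 0, 0, 0, 0), (77, 0, 0, 0, 0), (78, 0, 0, 0, 0), (79, 0, 0, 0, 0), (74, 0, 0, 0, 0), (75, 0, 0, 0, 0), (158, 0, 0, 0, 0), (159, 0, 0, 0, 0), (78, 0, 0, 0, 0), (79, 0, 0, 0, 0), (160, 0, 0, 0, 0), (161, 0, 0, 0, 0), (80, 0, 0, 0, 0), (81, 0, 0, 0, 0), (162, 0, 0, 0, 0), (163, 0, 0, 0, 0), (160, 0, 0, 0, 0), (161, 0, 0, 0, 0), (82, 0, 0, 0, 0), (83, 0, 0, 0, 0), (164, 0, 0, 0, 0), (165, 0, 0, 0, 0), (80, 0, 0, 0, 0), (81, 0, 0, 0, 0), (82, 0, 0, 0, 0), (83, 0, 0, 0, 0), (84, 0, 0, 0, 0), (85, 0, 0, 0, 0), (162, 0, 0, 0, 0), (163, 0, 0, 0, 0), (164, 0, 0,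 0, 0), (165, 0, 0, 0, 0), (84, 0, 0, 0, 0), (85, 0, 0, 0, 0), (86, 0, 0, 0, 0), (87, 0, 0, 0, 0), (88, 0, 0, 0, 0), (89, 0, 0, 0, 0), (166, 0, 0, 0, 0), (167, 0, 0, 0, 0), (86, 0, 0, 0, 0), (87, 0, 0, 0, 0), (168, 0, 0, 0, 0), (169, 0, 0, 0, 0), (90, 0, 0, 0, 0), (91, 0, 0, 0, 0), (88, 0, 0, 0, 0), (89, 0, 0, 0, 0), (168, 0, 0, 0, 0), (169, 0, 0, 0, 0), (92, 0, 0, 0, 0), (93, 0, 0, 0, 0), (166, 0, 0, 0, 0), (167, 0, 0, 0, 0), (90, 0, 0, 0, 0), (91, 0, 0, 0, 0), (92, 0, 0, 0, 0), (93, 0, 0, 0, 0), (94, 0, 0, 0, 0), (95, 0, 0, 0, 0), (170, 0, 0, 0, 0), (171, 0, 0, 0, 0), (172, 0, 0, 0, 0), (173, 0, 0, 0, 0), (94, 0, 0, 0, 0), (95, 0, 0, 0, 0), (96, 0, 0, 0, 0), (97, 0, 0, 0, 0), (98, 0, 0, 0, 0), (99, 0, 0, 0, 0), (170, 0, 0, 0, 0), (171, 0, 0, 0, 0), (96, 0, 0, 0, 0), (97, 0, 0, 0, 0), (174, 0, 0, 0, 0), (175, 0, 0,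 0, 0), (172, 0, 0, 0, 0), (173, 0, 0, 0, 0), (98, 0, 0, 0, 0), (99, 0, 0, 0, 0), (174, 0, 0, 0, 0), (175, 0, 0, 0, 0), (100, 0, 0, 0, 0), (101, 0, 0, 0, 0), (176, 0, 0, 0, 0), (177, 0, 0, 0, 0), (102, 0, 0, 0, 0), (103, 0, 0, 0, 0), (100, 0, 0, 0, 0), (101, 0, 0, 0, 0), (104, 0, 0, 0, 0), (105, 0, 0, 0, 0), (178, 0, 0, 0, 0), (179, 0, 0, 0, 0), (176, 0, 0, 0, 0), (177, 0, 0, 0, 0), (104, 0, 0, 0, 0), (105, 0, 0, 0, 0), (106, 0, 0, 0, 0), (107, 0, 0, 0, 0), (102, 0, 0, 0, 0), (103, 0, 0, 0, 0), (178, 0, 0, 0, 0), (179, 0, 0, 0, 0), (106, 0, 0, 0, 0), (107, 0, 0, 0, 0)],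
  [(60, 0, 0, 0, 0), (68, 0, 0, 0, 0), (144, 0, 0, 0, 0), (154, 0, 0, 0, 0), (54, 0, 0, 0, 0), (62, 0, 0, 0, 0), (60, 0, 0, 0, 0), (68, 0, 0, 0, 0), (46, 0, 0, 0, 0), (70, 0, 0, 0, 0), (140, 0, 0, 0, 0), (150, 0, 0, 0, 0), (144, 0, 0, 0, 0), (154, 0, 0, 0, 0), (46, 0, 0, 0, 0), (70, 0, 0, 0, 0), (48, 0, 0, 0, 0), (56, 0, 0, 0, 0), (54, 0, 0, 0, 0), (62, 0, 0, 0, 0), (140, 0, 0, 0, 0), (150, 0, 0, 0, 0), (48, 0, 0, 0, 0), (56, 0, 0, 0, 0), (146, 0, 0, 0, 0), (152, 0, 0, 0, 0), (52, 0, 0, 0, 0), (66, 0, 0, 0, 0), (142, 0, 0, 0, 0), (148, 0, 0, 0, 0), (146, 0, 0, 0, 0), (152, 0, 0, 0, 0), (40, 0, 0, 0, 0), (71, 0, 0, 0, 0), (134, 0, 0, 0, 0), (151, 0, 0, 0, 0), (52, 0, 0, 0, 0), (66, 0, 0, 0, 0), (40, 0, 0, 0, 0), (71, 0, 0, 0, 0), (42, 0, 0, 0, 0), (57, 0, 0, 0, 0), (142, 0, 0, 0, 0), (148, 0, 0, 0, 0), (134, 0, 0,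 0, 0), (151, 0, 0, 0, 0), (42, 0, 0, 0, 0), (57, 0, 0, 0, 0), (58, 0, 0, 0, 0), (64, 0, 0, 0, 0), (44, 0, 0, 0, 0), (67, 0, 0, 0, 0), (138, 0, 0, 0, 0), (149, 0, 0, 0, 0), (58, 0, 0, 0, 0), (64, 0, 0, 0, 0), (132, 0, 0, 0, 0), (155, 0, 0, 0, 0), (38, 0, 0, 0, 0), (63, 0, 0, 0, 0), (44, 0, 0, 0, 0), (67, 0, 0, 0, 0), (132, 0, 0, 0, 0), (155, 0, 0, 0, 0), (43, 0, 0, 0, 0), (49, 0, 0, 0, 0), (138, 0, 0, 0, 0), (149, 0, 0, 0, 0), (38, 0, 0, 0, 0), (63, 0, 0, 0, 0), (43, 0, 0, 0, 0), (49, 0, 0, 0, 0), (50, 0, 0, 0, 0), (65, 0, 0, 0, 0), (136, 0, 0, 0, 0), (153, 0, 0, 0, 0), (139, 0, 0, 0, 0), (143, 0, 0, 0, 0), (50, 0, 0, 0, 0), (65, 0, 0, 0, 0), (36, 0, 0, 0, 0), (69, 0, 0, 0, 0), (39, 0, 0, 0, 0), (55, 0, 0, 0, 0), (136, 0, 0, 0, 0), (153, 0, 0, 0, 0), (36, 0, 0, 0, 0), (69, 0, 0, 0, 0), (135, 0, 0, 0, 0), (141, 0, 0,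 0, 0), (139, 0, 0, 0, 0), (143, 0, 0, 0, 0), (39, 0, 0, 0, 0), (55, 0, 0, 0, 0), (135, 0, 0, 0, 0), (141, 0, 0, 0, 0), (51, 0, 0, 0, 0), (59, 0, 0, 0, 0), (137, 0, 0, 0, 0), (147, 0, 0, 0, 0), (45, 0, 0, 0, 0), (53, 0, 0, 0, 0), (51, 0, 0, 0, 0), (59, 0, 0, 0, 0), (37, 0, 0, 0, 0), (61, 0, 0, 0, 0), (133, 0, 0, 0, 0), (145, 0, 0, 0, 0), (137, 0, 0, 0, 0), (147, 0, 0, 0, 0), (37, 0, 0, 0, 0), (61, 0, 0, 0, 0), (41, 0, 0, 0, 0), (47, 0, 0, 0, 0), (45, 0, 0, 0, 0), (53, 0, 0, 0, 0), (133, 0, 0, 0, 0), (145, 0, 0, 0, 0), (41, 0, 0, 0, 0), (47, 0, 0, 0, 0)],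
  [(96, 0, 0, 0, 0), (104, 0, 0, 0, 0), (168, 0, 0, 0, 0), (178, 0, 0, 0, 0), (90, 0, 0, 0, 0), (98, 0, 0, 0, 0), (96, 0, 0, 0, 0), (104, 0, 0, 0, 0), (82, 0, 0, 0, 0), (106, 0, 0, 0, 0), (164, 0, 0, 0, 0), (174, 0, 0, 0, 0), (168, 0, 0, 0, 0), (178, 0, 0, 0, 0), (82, 0, 0, 0, 0), (106, 0, 0, 0, 0), (84, 0, 0, 0, 0), (92, 0, 0, 0, 0), (90, 0, 0, 0, 0), (98, 0, 0, 0, 0), (164, 0, 0, 0, 0), (174, 0, 0, 0, 0), (84, 0, 0, 0, 0), (92, 0, 0, 0, 0), (170, 0, 0, 0, 0), (176, 0, 0, 0, 0), (88, 0, 0, 0, 0), (102, 0, 0, 0, 0), (166, 0, 0, 0, 0), (172, 0, 0, 0, 0), (170, 0, 0, 0, 0), (176, 0, 0, 0, 0), (76, 0, 0, 0, 0), (107, 0, 0, 0, 0), (158, 0, 0, 0, 0), (175, 0, 0, 0, 0), (88, 0, 0, 0, 0), (102, 0, 0, 0, 0), (76, 0, 0, 0, 0), (107, 0, 0, 0, 0), (78, 0, 0, 0, 0), (93, 0, 0, 0, 0), (166, 0, 0, 0, 0), (172, 0, 0, 0, 0), (158,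 0, 0, 0, 0), (175, 0, 0, 0, 0), (78, 0, 0, 0, 0), (93, 0, 0, 0, 0), (94, 0, 0, 0, 0), (100, 0, 0, 0, 0), (80, 0, 0, 0, 0), (103, 0, 0, 0, 0), (162, 0, 0, 0, 0), (173, 0, 0, 0, 0), (94, 0, 0, 0, 0), (100, 0, 0, 0, 0), (156, 0, 0, 0, 0), (179, 0, 0, 0, 0), (74, 0, 0, 0, 0), (99, 0, 0, 0, 0), (80, 0, 0, 0, 0), (103, 0, 0, 0, 0), (156, 0, 0, 0, 0), (179, 0, 0, 0, 0), (79, 0, 0, 0, 0), (85, 0, 0, 0, 0), (162, 0, 0, 0, 0), (173, 0, 0, 0, 0), (74, 0, 0, 0, 0), (99, 0, 0, 0, 0), (79, 0, 0, 0, 0), (85, 0, 0, 0, 0), (86, 0, 0, 0, 0), (101, 0, 0, 0, 0), (160, 0, 0, 0, 0), (177, 0, 0, 0, 0), (163, 0, 0, 0, 0), (167, 0, 0, 0, 0), (86, 0, 0, 0, 0), (101, 0, 0, 0, 0), (72, 0, 0, 0, 0), (105, 0, 0, 0, 0), (75, 0, 0, 0, 0), (91, 0, 0, 0, 0), (160, 0, 0, 0, 0), (177, 0, 0, 0, 0), (72, 0, 0, 0, 0), (105, 0, 0, 0, 0), (159, 0, 0, 0,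 0), (165, 0, 0, 0, 0), (163, 0, 0, 0, 0), (167, 0, 0, 0, 0), (75, 0, 0, 0, 0), (91, 0, 0, 0, 0), (159, 0, 0, 0, 0), (165, 0, 0, 0, 0), (87, 0, 0, 0, 0), (95, 0, 0, 0, 0), (161, 0, 0, 0, 0), (171, 0, 0, 0, 0), (81, 0, 0, 0, 0), (89, 0, 0, 0, 0), (87, 0, 0, 0, 0), (95, 0, 0, 0, 0), (73, 0, 0, 0, 0), (97, 0, 0, 0, 0), (157, 0, 0, 0, 0), (169, 0, 0, 0, 0), (161, 0, 0, 0, 0), (171, 0, 0, 0, 0), (73, 0, 0, 0, 0), (97, 0, 0, 0, 0), (77, 0, 0, 0, 0), (83, 0, 0, 0, 0), (81, 0, 0, 0, 0), (89, 0, 0, 0, 0), (157, 0, 0, 0, 0), (169, 0, 0, 0, 0), (77, 0, 0, 0, 0), (83, 0, 0, 0, 0)],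
  [(24, 0, 0, 0, 0), (32, 0, 0, 0, 0), (120, 0, 0, 0, 0), (130, 0, 0, 0, 0), (18, 0, 0, 0, 0), (26, 0, 0, 0, 0), (24, 0, 0, 0, 0), (32, 0, 0, 0, 0), (10, 0, 0, 0, 0), (34, 0, 0, 0, 0), (116, 0, 0, 0, 0), (126, 0, 0, 0, 0), (120, 0, 0, 0, 0), (130, 0, 0, 0, 0), (10, 0, 0, 0, 0), (34, 0, 0, 0, 0), (12, 0, 0, 0, 0), (20, 0, 0, 0, 0), (18, 0, 0, 0, 0), (26, 0, 0, 0, 0), (116, 0, 0, 0, 0), (126, 0, 0, 0, 0), (12, 0, 0, 0, 0), (20, 0, 0, 0, 0), (122, 0, 0, 0, 0), (128, 0, 0, 0, 0), (16, 0, 0, 0, 0), (30, 0, 0, 0, 0), (118, 0, 0, 0, 0), (124, 0, 0, 0, 0), (122, 0, 0, 0, 0), (128, 0, 0, 0, 0), (4, 0, 0, 0, 0), (35, 0, 0, 0, 0), (110, 0, 0, 0, 0), (127, 0, 0, 0, 0), (16, 0, 0, 0, 0), (30, 0, 0, 0, 0), (4, 0, 0, 0, 0), (35, 0, 0, 0, 0), (6, 0, 0, 0, 0), (21, 0, 0, 0, 0), (118, 0, 0, 0, 0), (124, 0, 0, 0, 0), (110, 0, 0, 0,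 0), (127, 0, 0, 0, 0), (6, 0, 0, 0, 0), (21, 0, 0, 0, 0), (22, 0, 0, 0, 0), (28, 0, 0, 0, 0), (8, 0, 0, 0, 0), (31, 0, 0, 0, 0), (114, 0, 0, 0, 0), (125, 0, 0, 0, 0), (22, 0, 0, 0, 0), (28, 0, 0, 0, 0), (108, 0, 0, 0, 0), (131, 0, 0, 0, 0), (2, 0, 0, 0, 0), (27, 0, 0, 0, 0), (8, 0, 0, 0, 0), (31, 0, 0, 0, 0), (108, 0, 0, 0, 0), (131, 0, 0, 0, 0), (7, 0, 0, 0, 0), (13, 0, 0, 0, 0), (114, 0, 0, 0, 0), (125, 0, 0, 0, 0), (2, 0, 0, 0, 0), (27, 0, 0, 0, 0), (7, 0, 0, 0, 0), (13, 0, 0, 0, 0), (14, 0, 0, 0, 0), (29, 0, 0, 0, 0), (112, 0, 0, 0, 0), (129, 0, 0, 0, 0), (115, 0, 0, 0, 0), (119, 0, 0, 0, 0), (14, 0, 0, 0, 0), (29, 0, 0, 0, 0), (0, 0, 0, 0, 0), (33, 0, 0, 0, 0), (3, 0, 0, 0, 0), (19, 0, 0, 0, 0), (112, 0, 0, 0, 0), (129, 0, 0, 0, 0), (0, 0, 0, 0, 0), (33, 0, 0, 0, 0), (111, 0, 0, 0, 0), (117, 0, 0, 0, 0), (115,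 0, 0, 0, 0), (119, 0, 0, 0, 0), (3, 0, 0, 0, 0), (19, 0, 0, 0, 0), (111, 0, 0, 0, 0), (117, 0, 0, 0, 0), (15, 0, 0, 0, 0), (23, 0, 0, 0, 0), (113, 0, 0, 0, 0), (123, 0, 0, 0, 0), (9, 0, 0, 0, 0), (17, 0, 0, 0, 0), (15, 0, 0, 0, 0), (23, 0, 0, 0, 0), (1, 0, 0, 0, 0), (25, 0, 0, 0, 0), (109, 0, 0, 0, 0), (121, 0, 0, 0, 0), (113, 0, 0, 0, 0), (123, 0, 0, 0, 0), (1, 0, 0, 0, 0), (25, 0, 0, 0, 0), (5, 0, 0, 0, 0), (11, 0, 0, 0, 0), (9, 0, 0, 0, 0), (17, 0, 0, 0, 0), (109, 0, 0, 0, 0), (121, 0, 0, 0, 0), (5, 0, 0, 0, 0), (11, 0, 0, 0, 0)]]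

def m33_2 : Base := (0, 1, [(0, [0], [0, 5]), (0, [1], [1, 2]), (0, [2], [3, 4]), (4, [], [5])])

def l33_2 : Cov := [(576, 0, 1, [(0, [0], [0, 5]), (0, [1], [1, 2]), (0, [2], [3, 4]), (4, [], [5])]),
  (-576, 0, 1, [(0, [0], [0, 5]), (0, [1], [1, 4]), (0, [2], [2, 3]), (4, [], [5])]),
  (-576, 0, 1, [(0, [0], [0, 5]), (0, [1], [2, 3]), (0, [2], [1, 4]), (4, [], [5])]),
  (576, 0, 1, [(0, [0], [0, 5]), (0, [1], [3, 4]), (0, [2], [1, 2]), (4, [], [5])]),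
  (-576, 0, 1, [(0, [0], [2, 5]), (0, [1], [0, 1]), (0, [2], [3, 4]), (4, [], [5])]),
  (576, 0, 1, [(0, [0], [2, 5]), (0, [1], [0, 3]), (0, [2], [1, 4]), (4, [], [5])]),
  (576, 0, 1, [(0, [0], [2, 5]), (0, [1], [1, 4]), (0, [2], [0, 3]), (4, [], [5])]),
  (-576, 0, 1, [(0, [0], [2, 5]), (0, [1], [3, 4]), (0, [2], [0, 1]), (4, [], [5])]),
  (576, 0, 1, [(0, [0], [4, 5]), (0, [1], [0, 1]), (0, [2], [2, 3]), (4, [], [5])]),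
  (-576, 0, 1, [(0, [0], [4, 5]), (0, [1], [0, 3]), (0, [2], [1, 2]), (4, [], [5])]),
  (-576, 0, 1, [(0, [0], [4, 5]), (0, [1], [1, 2]), (0, [2], [0, 3]), (4, [], [5])]),
  (576, 0, 1, [(0, [0], [4, 5]), (0, [1], [2, 3]), (0, [2], [0, 1]), (4, [], [5])]),
  (-576, 0, 1, [(0, [2], [0, 5]), (0, [0], [1, 2]), (0, [1], [3, 4]), (4, [], [5])]),
  (576, 0, 1, [(0, [2], [0, 5]), (0, [0], [1, 4]), (0, [1], [2, 3]), (4, [], [5])]),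
  (576, 0, 1, [(0, [2], [0, 5]), (0, [0], [2, 3]), (0, [1], [1, 4]), (4, [], [5])]),
  (-576, 0, 1, [(0, [2], [0, 5]), (0, [0], [3, 4]), (0, [1], [1, 2]), (4, [], [5])]),
  (576, 0, 1, [(0, [2], [2, 5]), (0, [0], [0, 1]), (0, [1], [3, 4]), (4, [], [5])]),
  (-576, 0, 1, [(0, [2], [2, 5]), (0, [0], [0, 3]), (0, [1], [1, 4]), (4, [], [5])]),
  (-576, 0, 1, [(0, [2], [2, 5]), (0, [0], [1, 4]), (0, [1], [0, 3]), (4, [], [5])]),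
  (576, 0, 1, [(0, [2], [2, 5]), (0, [0], [3, 4]), (0, [1], [0, 1]), (4, [], [5])]),
  (-576, 0, 1, [(0, [2], [4, 5]), (0, [0], [0, 1]), (0, [1], [2, 3]), (4, [], [5])]),
  (576, 0, 1, [(0, [2], [4, 5]), (0, [0], [0, 3]), (0, [1], [1, 2]), (4, [], [5])]),
  (576, 0, 1, [(0, [2], [4, 5]), (0, [0], [1, 2]), (0, [1], [0, 3]), (4, [], [5])]),
  (-576, 0, 1, [(0, [2], [4, 5]), (0, [0], [2, 3]), (0, [1], [0, 1]), (4, [], [5])])]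

def z33_2 : Cov := [(0, 0, 1, [(0, [0], [0, 5]), (0, [1], [1, 3]), (0, [2], [2, 4]), (4, [], [5])]),
  (0, 0, 1, [(0, [0], [0, 5]), (0, [1], [2, 4]), (0, [2], [1, 3]), (4, [], [5])]),
  (0, 0, 1, [(0, [0], [1, 5]), (0, [1], [0, 2]), (0, [2], [3, 4]), (4, [], [5])]),
  (0, 0, 1, [(0, [0], [1, 5]), (0, [1], [0, 3]), (0, [2], [2, 4]), (4, [], [5])]),
  (0, 0, 1, [(0, [0], [1, 5]), (0, [1], [0, 4]), (0, [2], [2, 3]), (4, [], [5])]),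
  (0, 0, 1, [(0, [0], [1, 5]), (0, [1], [2, 3]), (0, [2], [0, 4]), (4, [], [5])]),
  (0, 0, 1, [(0, [0], [1, 5]), (0, [1], [2, 4]), (0, [2], [0, 3]), (4, [], [5])]),
  (0, 0, 1, [(0, [0], [1, 5]), (0, [1], [3, 4]), (0, [2], [0, 2]), (4, [], [5])]),
  (0, 0, 1, [(0, [0], [2, 5]), (0, [1], [0, 4]), (0, [2], [1, 3]), (4, [], [5])]),
  (0, 0, 1, [(0, [0], [2, 5]), (0, [1], [1, 3]), (0, [2], [0, 4]), (4, [], [5])]),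
  (0, 0, 1, [(0, [0], [3, 5]), (0, [1], [0, 1]), (0, [2], [2, 4]), (4, [], [5])]),
  (0, 0, 1, [(0, [0], [3, 5]), (0, [1], [0, 2]), (0, [2], [1, 4]), (4, [], [5])]),
  (0, 0, 1, [(0, [0], [3, 5]), (0, [1], [0, 4]), (0, [2], [1, 2]), (4, [], [5])]),
  (0, 0, 1, [(0, [0], [3, 5]), (0, [1], [1, 2]), (0, [2], [0, 4]), (4, [], [5])]),
  (0, 0, 1, [(0, [0], [3, 5]), (0, [1], [1, 4]), (0, [2], [0, 2]), (4, [], [5])]),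
  (0, 0, 1, [(0, [0], [3, 5]), (0, [1], [2, 4]), (0, [2], [0, 1]), (4, [], [5])]),
  (0, 0, 1, [(0, [0], [4, 5]), (0, [1], [0, 2]), (0, [2], [1, 3]), (4, [], [5])]),
  (0, 0, 1, [(0, [0], [4, 5]), (0, [1], [1, 3]), (0, [2], [0, 2]), (4, [], [5])]),
  (0, 0, 1, [(0, [1], [0, 5]), (0, [0], [1, 2]), (0, [2], [3, 4]), (4, [], [5])]),
  (0, 0, 1, [(0, [1], [0, 5]), (0, [0], [1, 3]), (0, [2], [2, 4]), (4, [], [5])]),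
  (0, 0, 1, [(0, [1], [0, 5]), (0, [0], [1, 4]), (0, [2], [2, 3]), (4, [], [5])]),
  (0, 0, 1, [(0, [1], [0, 5]), (0, [0], [2, 3]), (0, [2], [1, 4]), (4, [], [5])]),
  (0, 0, 1, [(0, [1], [0, 5]), (0, [0], [2, 4]), (0, [2], [1, 3]), (4, [], [5])]),
  (0, 0, 1, [(0, [1], [0, 5]), (0, [0], [3, 4]), (0, [2], [1, 2]), (4, [], [5])]),
  (0, 0, 1, [(0, [1], [1, 5]), (0, [0], [0, 2]), (0, [2], [3, 4]), (4, [], [5])]),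
  (0, 0, 1, [(0, [1], [1, 5]), (0, [0], [0, 3]), (0, [2], [2, 4]), (4, [], [5])]),
  (0, 0, 1, [(0, [1], [1, 5]), (0, [0], [0, 4]), (0, [2], [2, 3]), (4, [], [5])]),
  (0, 0, 1, [(0, [1], [1, 5]), (0, [0], [2, 3]), (0, [2], [0, 4]), (4, [], [5])]),
  (0, 0, 1, [(0, [1], [1, 5]), (0, [0], [2, 4]), (0, [2], [0, 3]), (4, [], [5])]),
  (0, 0, 1, [(0, [1], [1, 5]), (0, [0], [3, 4]), (0, [2], [0, 2]), (4, [], [5])]),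
  (0, 0, 1, [(0, [1], [2, 5]), (0, [0], [0, 1]), (0, [2], [3, 4]), (4, [], [5])]),
  (0, 0, 1, [(0, [1], [2, 5]), (0, [0], [0, 3]), (0, [2], [1, 4]), (4, [], [5])]),
  (0, 0, 1, [(0, [1], [2, 5]), (0, [0], [0, 4]), (0, [2], [1, 3]), (4, [], [5])]),
  (0, 0, 1, [(0, [1], [2, 5]), (0, [0], [1, 3]), (0, [2], [0, 4]), (4, [], [5])]),
  (0, 0, 1, [(0, [1], [2, 5]), (0, [0], [1, 4]), (0, [2], [0, 3]), (4, [], [5])]),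
  (0, 0, 1, [(0, [1], [2, 5]), (0, [0], [3, 4]), (0, [2], [0, 1]), (4, [], [5])]),
  (0, 0, 1, [(0, [1], [3, 5]), (0, [0], [0, 1]), (0, [2], [2, 4]), (4, [], [5])]),
  (0, 0, 1, [(0, [1], [3, 5]), (0, [0], [0, 2]), (0, [2], [1, 4]), (4, [], [5])]),
  (0, 0, 1, [(0, [1], [3, 5]), (0, [0], [0, 4]), (0, [2], [1, 2]), (4, [], [5])]),
  (0, 0, 1, [(0, [1], [3, 5]), (0, [0], [1, 2]), (0, [2], [0, 4]), (4, [], [5])]),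
  (0, 0, 1, [(0, [1], [3, 5]), (0, [0], [1, 4]), (0, [2], [0, 2]), (4, [], [5])]),
  (0, 0, 1, [(0, [1], [3, 5]), (0, [0], [2, 4]), (0, [2], [0, 1]), (4, [], [5])]),
  (0, 0, 1, [(0, [1], [4, 5]), (0, [0], [0, 1]), (0, [2], [2, 3]), (4, [], [5])]),
  (0, 0, 1, [(0, [1], [4, 5]), (0, [0], [0, 2]), (0, [2], [1, 3]), (4, [], [5])]),
  (0, 0, 1, [(0, [1], [4, 5]), (0, [0], [0, 3]), (0, [2], [1, 2]), (4, [], [5])]),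
  (0, 0, 1, [(0, [1], [4, 5]), (0, [0], [1, 2]), (0, [2], [0, 3]), (4, [], [5])]),
  (0, 0, 1, [(0, [1], [4, 5]), (0, [0], [1, 3]), (0, [2], [0, 2]), (4, [], [5])]),
  (0, 0, 1, [(0, [1], [4, 5]), (0, [0], [2, 3]), (0, [2], [0, 1]), (4, [], [5])]),
  (0, 0, 1, [(0, [2], [0, 5]), (0, [0], [1, 3]), (0, [1], [2, 4]), (4, [], [5])]),
  (0, 0, 1, [(0, [2], [0, 5]), (0, [0], [2, 4]), (0, [1], [1, 3]), (4, [], [5])]),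
  (0, 0, 1, [(0, [2], [1, 5]), (0, [0], [0, 2]), (0, [1], [3, 4]), (4, [], [5])]),
  (0, 0, 1, [(0, [2], [1, 5]), (0, [0], [0, 3]), (0, [1], [2, 4]), (4, [], [5])]),
  (0, 0, 1, [(0, [2], [1, 5]), (0, [0], [0, 4]), (0, [1], [2, 3]), (4, [], [5])]),
  (0, 0, 1, [(0, [2], [1, 5]), (0, [0], [2, 3]), (0, [1], [0, 4]), (4, [], [5])]),
  (0, 0, 1, [(0, [2], [1, 5]), (0, [0], [2, 4]), (0, [1], [0, 3]), (4, [], [5])]),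
  (0, 0, 1, [(0, [2], [1, 5]), (0, [0], [3, 4]), (0, [1], [0, 2]), (4, [], [5])]),
  (0, 0, 1, [(0, [2], [2, 5]), (0, [0], [0, 4]), (0, [1], [1, 3]), (4, [], [5])]),
  (0, 0, 1, [(0, [2], [2, 5]), (0, [0], [1, 3]), (0, [1], [0, 4]), (4, [], [5])]),
  (0, 0, 1, [(0, [2], [3, 5]), (0, [0], [0, 1]), (0, [1], [2, 4]), (4, [], [5])]),
  (0, 0, 1, [(0, [2], [3, 5]), (0, [0], [0, 2]), (0, [1], [1, 4]), (4, [], [5])]),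
  (0, 0, 1, [(0, [2], [3, 5]), (0, [0], [0, 4]), (0, [1], [1, 2]), (4, [], [5])]),
  (0, 0, 1, [(0, [2], [3, 5]), (0, [0], [1, 2]), (0, [1], [0, 4]), (4, [], [5])]),
  (0, 0, 1, [(0, [2], [3, 5]), (0, [0], [1, 4]), (0, [1], [0, 2]), (4, [], [5])]),
  (0, 0, 1, [(0, [2], [3, 5]), (0, [0], [2, 4]), (0, [1], [0, 1]), (4, [], [5])]),
  (0, 0, 1, [(0, [2], [4, 5]), (0, [0], [0, 2]), (0, [1], [1, 3]), (4, [], [5])]),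
  (0, 0, 1, [(0, [2], [4, 5]), (0, [0], [1, 3]), (0, [1], [0, 2]), (4, [], [5])])]

def w33_2 : List (List Wit) := [[(0, 0, 0, 0, 0), (0, 0, 0, 0, 0), (24, 0, 0, 0, 0), (24, 0, 0, 0, 0), (1, 0, 0, 0, 0), (1, 0, 0, 0, 0), (0, 0, 0, 0, 0), (0, 0, 0, 0, 0), (2, 0, 0, 0, 0), (2, 0, 0, 0, 0), (25, 0, 0, 0, 0), (25, 0, 0, 0, 0), (24, 0, 0, 0, 0), (24, 0, 0, 0, 0), (2, 0, 0, 0, 0), (2, 0, 0, 0, 0), (3, 0, 0, 0, 0), (3, 0, 0, 0, 0), (1, 0, 0, 0, 0), (1, 0, 0, 0, 0), (25, 0, 0, 0, 0), (25, 0, 0, 0, 0), (3, 0, 0, 0, 0), (3, 0, 0, 0, 0), (26, 0, 0, 0, 0), (26, 0, 0, 0, 0), (27, 0, 0, 0, 0), (27, 0, 0, 0, 0), (28, 0, 0, 0, 0), (28, 0, 0, 0, 0), (26, 0, 0, 0, 0), (26, 0, 0, 0, 0), (29, 0, 0, 0, 0), (29, 0, 0, 0, 0), (30, 0, 0, 0, 0), (30, 0, 0, 0, 0), (27, 0, 0, 0, 0), (27, 0, 0, 0, 0), (29, 0, 0, 0, 0), (29, 0, 0, 0, 0), (31,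 0, 0, 0, 0), (31, 0, 0, 0, 0), (28, 0, 0, 0, 0), (28, 0, 0, 0, 0), (30, 0, 0, 0, 0), (30, 0, 0, 0, 0), (31, 0, 0, 0, 0), (31, 0, 0, 0, 0), (4, 0, 0, 0, 0), (4, 0, 0, 0, 0), (5, 0, 0, 0, 0), (5, 0, 0, 0, 0), (32, 0, 0, 0, 0), (32, 0, 0, 0, 0), (4, 0, 0, 0, 0), (4, 0, 0, 0, 0), (33, 0, 0, 0, 0), (33, 0, 0, 0, 0), (6, 0, 0, 0, 0), (6, 0, 0, 0, 0), (5, 0, 0, 0, 0), (5, 0, 0, 0, 0), (33, 0, 0, 0, 0), (33, 0, 0, 0, 0), (7, 0, 0, 0, 0), (7, 0, 0, 0, 0), (32, 0, 0, 0, 0), (32, 0, 0, 0, 0), (6, 0, 0, 0, 0), (6, 0, 0, 0, 0), (7, 0, 0, 0, 0), (7, 0, 0, 0, 0), (34, 0, 0, 0, 0), (34, 0, 0, 0, 0), (35, 0, 0, 0, 0), (35, 0, 0, 0, 0), (36, 0, 0, 0, 0), (36, 0, 0, 0, 0), (34, 0, 0, 0, 0), (34, 0, 0, 0, 0), (37, 0, 0, 0, 0), (37, 0, 0, 0, 0), (38, 0, 0, 0, 0), (38, 0, 0, 0, 0), (35, 0, 0, 0, 0), (35, 0, 0, 0, 0), (37, 0, 0, 0, 0),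 (37, 0, 0, 0, 0), (39, 0, 0, 0, 0), (39, 0, 0, 0, 0), (36, 0, 0, 0, 0), (36, 0, 0, 0, 0), (38, 0, 0, 0, 0), (38, 0, 0, 0, 0), (39, 0, 0, 0, 0), (39, 0, 0, 0, 0), (8, 0, 0, 0, 0), (8, 0, 0, 0, 0), (40, 0, 0, 0, 0), (40, 0, 0, 0, 0), (9, 0, 0, 0, 0), (9, 0, 0, 0, 0), (8, 0, 0, 0, 0), (8, 0, 0, 0, 0), (10, 0, 0, 0, 0), (10, 0, 0, 0, 0), (41, 0, 0, 0, 0), (41, 0, 0, 0, 0), (40, 0, 0, 0, 0), (40, 0, 0, 0, 0), (10, 0, 0, 0, 0), (10, 0, 0, 0, 0), (11, 0, 0, 0, 0), (11, 0, 0, 0, 0), (9, 0, 0, 0, 0), (9, 0, 0, 0, 0), (41, 0, 0, 0, 0), (41, 0, 0, 0, 0), (11, 0, 0, 0, 0), (11, 0, 0, 0, 0)],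
  [(3, 0, 0, 0, 0), (3, 0, 0, 0, 0), (25, 0, 0, 0, 0), (25, 0, 0, 0, 0), (2, 0, 0, 0, 0), (2, 0, 0, 0, 0), (3, 0, 0, 0, 0), (3, 0, 0, 0, 0), (1, 0, 0, 0, 0), (1, 0, 0, 0, 0), (24, 0, 0, 0, 0), (24, 0, 0, 0, 0), (25, 0, 0, 0, 0), (25, 0, 0, 0, 0), (1, 0, 0, 0, 0), (1, 0, 0, 0, 0), (0, 0, 0, 0, 0), (0, 0, 0, 0, 0), (2, 0, 0, 0, 0), (2, 0, 0, 0, 0), (24, 0, 0, 0, 0), (24, 0, 0, 0, 0), (0, 0, 0, 0, 0), (0, 0, 0, 0, 0), (31, 0, 0, 0, 0), (31, 0, 0, 0, 0), (30, 0, 0, 0, 0), (30, 0, 0, 0, 0), (29, 0, 0, 0, 0), (29, 0, 0, 0, 0), (31, 0, 0, 0, 0), (31, 0, 0, 0, 0), (28, 0, 0, 0, 0), (28, 0, 0, 0, 0), (27, 0, 0, 0, 0), (27, 0, 0, 0, 0), (30, 0, 0, 0, 0), (30, 0, 0, 0, 0), (28, 0, 0, 0, 0), (28, 0, 0, 0, 0), (26, 0, 0, 0, 0), (26, 0, 0, 0, 0), (29, 0, 0, 0, 0), (29, 0, 0, 0, 0), (27, 0, 0, 0, 0), (27, 0, 0, 0, 0), (26, 0, 0,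 0, 0), (26, 0, 0, 0, 0), (7, 0, 0, 0, 0), (7, 0, 0, 0, 0), (6, 0, 0, 0, 0), (6, 0, 0, 0, 0), (33, 0, 0, 0, 0), (33, 0, 0, 0, 0), (7, 0, 0, 0, 0), (7, 0, 0, 0, 0), (32, 0, 0, 0, 0), (32, 0, 0, 0, 0), (5, 0, 0, 0, 0), (5, 0, 0, 0, 0), (6, 0, 0, 0, 0), (6, 0, 0, 0, 0), (32, 0, 0, 0, 0), (32, 0, 0, 0, 0), (4, 0, 0, 0, 0), (4, 0, 0, 0, 0), (33, 0, 0, 0, 0), (33, 0, 0, 0, 0), (5, 0, 0, 0, 0), (5, 0, 0, 0, 0), (4, 0, 0, 0, 0), (4, 0, 0, 0, 0), (39, 0, 0, 0, 0), (39, 0, 0, 0, 0), (38, 0, 0, 0, 0), (38, 0, 0, 0, 0), (37, 0, 0, 0, 0), (37, 0, 0, 0, 0), (39, 0, 0, 0, 0), (39, 0, 0, 0, 0), (36, 0, 0, 0, 0), (36, 0, 0, 0, 0), (35, 0, 0, 0, 0), (35, 0, 0, 0, 0), (38, 0, 0, 0, 0), (38, 0, 0, 0, 0), (36, 0, 0, 0, 0), (36, 0, 0, 0, 0), (34, 0, 0, 0, 0), (34, 0, 0, 0, 0), (37, 0, 0, 0, 0), (37, 0, 0, 0, 0), (35, 0, 0, 0, 0), (35, 0,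 0, 0, 0), (34, 0, 0, 0, 0), (34, 0, 0, 0, 0), (11, 0, 0, 0, 0), (11, 0, 0, 0, 0), (41, 0, 0, 0, 0), (41, 0, 0, 0, 0), (10, 0, 0, 0, 0), (10, 0, 0, 0, 0), (11, 0, 0, 0, 0), (11, 0, 0, 0, 0), (9, 0, 0, 0, 0), (9, 0, 0, 0, 0), (40, 0, 0, 0, 0), (40, 0, 0, 0, 0), (41, 0, 0, 0, 0), (41, 0, 0, 0, 0), (9, 0, 0, 0, 0), (9, 0, 0, 0, 0), (8, 0, 0, 0, 0), (8, 0, 0, 0, 0), (10, 0, 0, 0, 0), (10, 0, 0, 0, 0), (40, 0, 0, 0, 0), (40, 0, 0, 0, 0), (8, 0, 0, 0, 0), (8, 0, 0, 0, 0)],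
  [(42, 0, 0, 0, 0), (42, 0, 0, 0, 0), (43, 0, 0, 0, 0), (43, 0, 0, 0, 0), (44, 0, 0, 0, 0), (44, 0, 0, 0, 0), (42, 0, 0, 0, 0), (42, 0, 0, 0, 0), (45, 0, 0, 0, 0), (45, 0, 0, 0, 0), (46, 0, 0, 0, 0), (46, 0, 0, 0, 0), (43, 0, 0, 0, 0), (43, 0, 0, 0, 0), (45, 0, 0, 0, 0), (45, 0, 0, 0, 0), (47, 0, 0, 0, 0), (47, 0, 0, 0, 0), (44, 0, 0, 0, 0), (44, 0, 0, 0, 0), (46, 0, 0, 0, 0), (46, 0, 0, 0, 0), (47, 0, 0, 0, 0), (47, 0, 0, 0, 0), (48, 0, 0, 0, 0), (48, 0, 0, 0, 0), (49, 0, 0, 0, 0), (49, 0, 0, 0, 0), (50, 0, 0, 0, 0), (50, 0, 0, 0, 0), (48, 0, 0, 0, 0), (48, 0, 0, 0, 0), (51, 0, 0, 0, 0), (51, 0, 0, 0, 0), (52, 0, 0, 0, 0), (52, 0, 0, 0, 0), (49, 0, 0, 0, 0), (49, 0, 0, 0, 0), (51, 0, 0, 0, 0), (51, 0, 0, 0, 0), (53, 0, 0, 0, 0), (53, 0, 0, 0, 0), (50, 0, 0, 0, 0), (50, 0, 0, 0, 0), (52, 0, 0, 0, 0), (52, 0, 0, 0,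 0), (53, 0, 0, 0, 0), (53, 0, 0, 0, 0), (54, 0, 0, 0, 0), (54, 0, 0, 0, 0), (55, 0, 0, 0, 0), (55, 0, 0, 0, 0), (56, 0, 0, 0, 0), (56, 0, 0, 0, 0), (54, 0, 0, 0, 0), (54, 0, 0, 0, 0), (57, 0, 0, 0, 0), (57, 0, 0, 0, 0), (58, 0, 0, 0, 0), (58, 0, 0, 0, 0), (55, 0, 0, 0, 0), (55, 0, 0, 0, 0), (57, 0, 0, 0, 0), (57, 0, 0, 0, 0), (59, 0, 0, 0, 0), (59, 0, 0, 0, 0), (56, 0, 0, 0, 0), (56, 0, 0, 0, 0), (58, 0, 0, 0, 0), (58, 0, 0, 0, 0), (59, 0, 0, 0, 0), (59, 0, 0, 0, 0), (60, 0, 0, 0, 0), (60, 0, 0, 0, 0), (61, 0, 0, 0, 0), (61, 0, 0, 0, 0), (62, 0, 0, 0, 0), (62, 0, 0, 0, 0), (60, 0, 0, 0, 0), (60, 0, 0, 0, 0), (63, 0, 0, 0, 0), (63, 0, 0, 0, 0), (64, 0, 0, 0, 0), (64, 0, 0, 0, 0), (61, 0, 0, 0, 0), (61, 0, 0, 0, 0), (63, 0, 0, 0, 0), (63, 0, 0, 0, 0), (65, 0, 0, 0, 0), (65, 0, 0, 0, 0), (62, 0, 0, 0, 0), (62, 0, 0,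 0, 0), (64, 0, 0, 0, 0), (64, 0, 0, 0, 0), (65, 0, 0, 0, 0), (65, 0, 0, 0, 0), (66, 0, 0, 0, 0), (66, 0, 0, 0, 0), (67, 0, 0, 0, 0), (67, 0, 0, 0, 0), (68, 0, 0, 0, 0), (68, 0, 0, 0, 0), (66, 0, 0, 0, 0), (66, 0, 0, 0, 0), (69, 0, 0, 0, 0), (69, 0, 0, 0, 0), (70, 0, 0, 0, 0), (70, 0, 0, 0, 0), (67, 0, 0, 0, 0), (67, 0, 0, 0, 0), (69, 0, 0, 0, 0), (69, 0, 0, 0, 0), (71, 0, 0, 0, 0), (71, 0, 0, 0, 0), (68, 0, 0, 0, 0), (68, 0, 0, 0, 0), (70, 0, 0, 0, 0), (70, 0, 0, 0, 0), (71, 0, 0, 0, 0), (71, 0, 0, 0, 0)],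
  [(47, 0, 0, 0, 0), (47, 0, 0, 0, 0), (46, 0, 0, 0, 0), (46, 0, 0, 0, 0), (45, 0, 0, 0, 0), (45, 0, 0, 0, 0), (47, 0, 0, 0, 0), (47, 0, 0, 0, 0), (44, 0, 0, 0, 0), (44, 0, 0, 0, 0), (43, 0, 0, 0, 0), (43, 0, 0, 0, 0), (46, 0, 0, 0, 0), (46, 0, 0, 0, 0), (44, 0, 0, 0, 0), (44, 0, 0, 0, 0), (42, 0, 0, 0, 0), (42, 0, 0, 0, 0), (45, 0, 0, 0, 0), (45, 0, 0, 0, 0), (43, 0, 0, 0, 0), (43, 0, 0, 0, 0), (42, 0, 0, 0, 0), (42, 0, 0, 0, 0), (53, 0, 0, 0, 0), (53, 0, 0, 0, 0), (52, 0, 0, 0, 0), (52, 0, 0, 0, 0), (51, 0, 0, 0, 0), (51, 0, 0, 0, 0), (53, 0, 0, 0, 0), (53, 0, 0, 0, 0), (50, 0, 0, 0, 0), (50, 0, 0, 0, 0), (49, 0, 0, 0, 0), (49, 0, 0, 0, 0), (52, 0, 0, 0, 0), (52, 0, 0, 0, 0), (50, 0, 0, 0, 0), (50, 0, 0, 0, 0), (48, 0, 0, 0, 0), (48, 0, 0, 0, 0), (51, 0, 0, 0, 0), (51, 0, 0, 0, 0), (49, 0, 0, 0, 0), (49, 0, 0, 0,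 0), (48, 0, 0, 0, 0), (48, 0, 0, 0, 0), (59, 0, 0, 0, 0), (59, 0, 0, 0, 0), (58, 0, 0, 0, 0), (58, 0, 0, 0, 0), (57, 0, 0, 0, 0), (57, 0, 0, 0, 0), (59, 0, 0, 0, 0), (59, 0, 0, 0, 0), (56, 0, 0, 0, 0), (56, 0, 0, 0, 0), (55, 0, 0, 0, 0), (55, 0, 0, 0, 0), (58, 0, 0, 0, 0), (58, 0, 0, 0, 0), (56, 0, 0, 0, 0), (56, 0, 0, 0, 0), (54, 0, 0, 0, 0), (54, 0, 0, 0, 0), (57, 0, 0, 0, 0), (57, 0, 0, 0, 0), (55, 0, 0, 0, 0), (55, 0, 0, 0, 0), (54, 0, 0, 0, 0), (54, 0, 0, 0, 0), (65, 0, 0, 0, 0), (65, 0, 0, 0, 0), (64, 0, 0, 0, 0), (64, 0, 0, 0, 0), (63, 0, 0, 0, 0), (63, 0, 0, 0, 0), (65, 0, 0, 0, 0), (65, 0, 0, 0, 0), (62, 0, 0, 0, 0), (62, 0, 0, 0, 0), (61, 0, 0, 0, 0), (61, 0, 0, 0, 0), (64, 0, 0, 0, 0), (64, 0, 0, 0, 0), (62, 0, 0, 0, 0), (62, 0, 0, 0, 0), (60, 0, 0, 0, 0), (60, 0, 0, 0, 0), (63, 0, 0, 0, 0), (63, 0, 0,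 0, 0), (61, 0, 0, 0, 0), (61, 0, 0, 0, 0), (60, 0, 0, 0, 0), (60, 0, 0, 0, 0), (71, 0, 0, 0, 0), (71, 0, 0, 0, 0), (70, 0, 0, 0, 0), (70, 0, 0, 0, 0), (69, 0, 0, 0, 0), (69, 0, 0, 0, 0), (71, 0, 0, 0, 0), (71, 0, 0, 0, 0), (68, 0, 0, 0, 0), (68, 0, 0, 0, 0), (67, 0, 0, 0, 0), (67, 0, 0, 0, 0), (70, 0, 0, 0, 0), (70, 0, 0, 0, 0), (68, 0, 0, 0, 0), (68, 0, 0, 0, 0), (66, 0, 0, 0, 0), (66, 0, 0, 0, 0), (69, 0, 0, 0, 0), (69, 0, 0, 0, 0), (67, 0, 0, 0, 0), (67, 0, 0, 0, 0), (66, 0, 0, 0, 0), (66, 0, 0, 0, 0)],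
  [(12, 0, 0, 0, 0), (12, 0, 0, 0, 0), (72, 0, 0, 0, 0), (72, 0, 0, 0, 0), (13, 0, 0, 0, 0), (13, 0, 0, 0, 0), (12, 0, 0, 0, 0), (12, 0, 0, 0, 0), (14, 0, 0, 0, 0), (14, 0, 0, 0, 0), (73, 0, 0, 0, 0), (73, 0, 0, 0, 0), (72, 0, 0, 0, 0), (72, 0, 0, 0, 0), (14, 0, 0, 0, 0), (14, 0, 0, 0, 0), (15, 0, 0, 0, 0), (15, 0, 0, 0, 0), (13, 0, 0, 0, 0), (13, 0, 0, 0, 0), (73, 0, 0, 0, 0), (73, 0, 0, 0, 0), (15, 0, 0, 0, 0), (15, 0, 0, 0, 0), (74, 0, 0, 0, 0), (74, 0, 0, 0, 0), (75, 0, 0, 0, 0), (75, 0, 0, 0, 0), (76, 0, 0, 0, 0), (76, 0, 0, 0, 0), (74, 0, 0, 0, 0), (74, 0, 0, 0, 0), (77, 0, 0, 0, 0), (77, 0, 0, 0, 0), (78, 0, 0, 0, 0), (78, 0, 0, 0, 0), (75, 0, 0, 0, 0), (75, 0, 0, 0, 0), (77, 0, 0, 0, 0), (77, 0, 0, 0, 0), (79, 0, 0, 0, 0), (79, 0, 0, 0, 0), (76, 0, 0, 0, 0), (76, 0, 0, 0, 0), (78, 0, 0, 0, 0), (78, 0, 0, 0,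 0), (79, 0, 0, 0, 0), (79, 0, 0, 0, 0), (16, 0, 0, 0, 0), (16, 0, 0, 0, 0), (17, 0, 0, 0, 0), (17, 0, 0, 0, 0), (80, 0, 0, 0, 0), (80, 0, 0, 0, 0), (16, 0, 0, 0, 0), (16, 0, 0, 0, 0), (81, 0, 0, 0, 0), (81, 0, 0, 0, 0), (18, 0, 0, 0, 0), (18, 0, 0, 0, 0), (17, 0, 0, 0, 0), (17, 0, 0, 0, 0), (81, 0, 0, 0, 0), (81, 0, 0, 0, 0), (19, 0, 0, 0, 0), (19, 0, 0, 0, 0), (80, 0, 0, 0, 0), (80, 0, 0, 0, 0), (18, 0, 0, 0, 0), (18, 0, 0, 0, 0), (19, 0, 0, 0, 0), (19, 0, 0, 0, 0), (82, 0, 0, 0, 0), (82, 0, 0, 0, 0), (83, 0, 0, 0, 0), (83, 0, 0, 0, 0), (84, 0, 0, 0, 0), (84, 0, 0, 0, 0), (82, 0, 0, 0, 0), (82, 0, 0, 0, 0), (85, 0, 0, 0, 0), (85, 0, 0, 0, 0), (86, 0, 0, 0, 0), (86, 0, 0, 0, 0), (83, 0, 0, 0, 0), (83, 0, 0, 0, 0), (85, 0, 0, 0, 0), (85, 0, 0, 0, 0), (87, 0, 0, 0, 0), (87, 0, 0, 0, 0), (84, 0, 0, 0, 0), (84, 0, 0,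 0, 0), (86, 0, 0, 0, 0), (86, 0, 0, 0, 0), (87, 0, 0, 0, 0), (87, 0, 0, 0, 0), (20, 0, 0, 0, 0), (20, 0, 0, 0, 0), (88, 0, 0, 0, 0), (88, 0, 0, 0, 0), (21, 0, 0, 0, 0), (21, 0, 0, 0, 0), (20, 0, 0, 0, 0), (20, 0, 0, 0, 0), (22, 0, 0, 0, 0), (22, 0, 0, 0, 0), (89, 0, 0, 0, 0), (89, 0, 0, 0, 0), (88, 0, 0, 0, 0), (88, 0, 0, 0, 0), (22, 0, 0, 0, 0), (22, 0, 0, 0, 0), (23, 0, 0, 0, 0), (23, 0, 0, 0, 0), (21, 0, 0, 0, 0), (21, 0, 0, 0, 0), (89, 0, 0, 0, 0), (89, 0, 0, 0, 0), (23, 0, 0, 0, 0), (23, 0, 0, 0, 0)],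
  [(15, 0, 0, 0, 0), (15, 0, 0, 0, 0), (73, 0, 0, 0, 0), (73, 0, 0, 0, 0), (14, 0, 0, 0, 0), (14, 0, 0, 0, 0), (15, 0, 0, 0, 0), (15, 0, 0, 0, 0), (13, 0, 0, 0, 0), (13, 0, 0, 0, 0), (72, 0, 0, 0, 0), (72, 0, 0, 0, 0), (73, 0, 0, 0, 0), (73, 0, 0, 0, 0), (13, 0, 0, 0, 0), (13, 0, 0, 0, 0), (12, 0, 0, 0, 0), (12, 0, 0, 0, 0), (14, 0, 0, 0, 0), (14, 0, 0, 0, 0), (72, 0, 0, 0, 0), (72, 0, 0, 0, 0), (12, 0, 0, 0, 0), (12, 0, 0, 0, 0), (79, 0, 0, 0, 0), (79, 0, 0, 0, 0), (78, 0, 0, 0, 0), (78, 0, 0, 0, 0), (77, 0, 0, 0, 0), (77, 0, 0, 0, 0), (79, 0, 0, 0, 0), (79, 0, 0, 0, 0), (76, 0, 0, 0, 0), (76, 0, 0, 0, 0), (75, 0, 0, 0, 0), (75, 0, 0, 0, 0), (78, 0, 0, 0, 0), (78, 0, 0, 0, 0), (76, 0, 0, 0, 0), (76, 0, 0, 0, 0), (74, 0, 0, 0, 0), (74, 0, 0, 0, 0), (77, 0, 0, 0, 0), (77, 0, 0, 0, 0), (75, 0, 0, 0, 0), (75, 0, 0, 0,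 0), (74, 0, 0, 0, 0), (74, 0, 0, 0, 0), (19, 0, 0, 0, 0), (19, 0, 0, 0, 0), (18, 0, 0, 0, 0), (18, 0, 0, 0, 0), (81, 0, 0, 0, 0), (81, 0, 0, 0, 0), (19, 0, 0, 0, 0), (19, 0, 0, 0, 0), (80, 0, 0, 0, 0), (80, 0, 0, 0, 0), (17, 0, 0, 0, 0), (17, 0, 0, 0, 0), (18, 0, 0, 0, 0), (18, 0, 0, 0, 0), (80, 0, 0, 0, 0), (80, 0, 0, 0, 0), (16, 0, 0, 0, 0), (16, 0, 0, 0, 0), (81, 0, 0, 0, 0), (81, 0, 0, 0, 0), (17, 0, 0, 0, 0), (17, 0, 0, 0, 0), (16, 0, 0, 0, 0), (16, 0, 0, 0, 0), (87, 0, 0, 0, 0), (87, 0, 0, 0, 0), (86, 0, 0, 0, 0), (86, 0, 0, 0, 0), (85, 0, 0, 0, 0), (85, 0, 0, 0, 0), (87, 0, 0, 0, 0), (87, 0, 0, 0, 0), (84, 0, 0, 0, 0), (84, 0, 0, 0, 0), (83, 0, 0, 0, 0), (83, 0, 0, 0, 0), (86, 0, 0, 0, 0), (86, 0, 0, 0, 0), (84, 0, 0, 0, 0), (84, 0, 0, 0, 0), (82, 0, 0, 0, 0), (82, 0, 0, 0, 0), (85, 0, 0, 0, 0), (85, 0, 0,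 0, 0), (83, 0, 0, 0, 0), (83, 0, 0, 0, 0), (82, 0, 0, 0, 0), (82, 0, 0, 0, 0), (23, 0, 0, 0, 0), (23, 0, 0, 0, 0), (89, 0, 0, 0, 0), (89, 0, 0, 0, 0), (22, 0, 0, 0, 0), (22, 0, 0, 0, 0), (23, 0, 0, 0, 0), (23, 0, 0, 0, 0), (21, 0, 0, 0, 0), (21, 0, 0, 0, 0), (88, 0, 0, 0, 0), (88, 0, 0, 0, 0), (89, 0, 0, 0, 0), (89, 0, 0, 0, 0), (21, 0, 0, 0, 0), (21, 0, 0, 0, 0), (20, 0, 0, 0, 0), (20, 0, 0, 0, 0), (22, 0, 0, 0, 0), (22, 0, 0, 0, 0), (88, 0, 0, 0, 0), (88, 0, 0, 0, 0), (20, 0, 0, 0, 0), (20, 0, 0, 0, 0)]]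

theorem tr33 : trK keys lk33 kl33 = true := by
  decide +kernel

theorem x33_0 : expB 3 5 dg2 dg8 m33_0 (l33_0 ++ z33_0) w33_0 = true := by
  decide +kernel

theorem x33_1 : expB 3 5 dg2 dg8 m33_1 (l33_1 ++ z33_1) w33_1 = true := by
  decide +kernel

theorem x33_2 : expB 3 5 dg2 dg8 m33_2 (l33_2 ++ z33_2) w33_2 = true := by
  decide +kernel

theorem t33_0_0 : chkS lk33 3 5 [(1, m33_0)] l33_0
  [(20, 33, 258, 103026771, 101975346), (24, 528, 528, 34887216, 36968016), (27, 528, 528, 34891056, 52696656), (12, 18, 18, 55640676, 22045251), (23, 528, 528, 34891056, 52696656), (27, 528, 528, 34887216, 36968016), (12, 18, 18, 87429156, 73421106), (14, 18, 18, 86380596, 73405746), (21, 33, 258, 87298146, 23351346), (33, 33, 258, 88211811, 23397411), (28, 18, 18, 55837026, 22306851), (11, 18, 18, 54592101, 17130051), (11,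 33, 258, 70582626, 21385251), (13, 33, 258, 69537891, 21366066), (39, 33, 258, 72552486, 5652786), (11, 33, 258, 54592086, 1401411), (23, 513, 513, 34887171, 36963921), (12, 33, 258, 55640646, 5333571), (44, 528, 528, 51733056, 54616656), (41, 528, 528, 50684481, 54616581), (41, 33, 258, 73732131, 88473906), (27, 33, 258, 55837026, 22306851), (28, 33, 258, 55840806, 5529906), (39, 33, 258, 72548646, 5652771), (44, 528, 528, 51717696, 37839696), (41, 528, 528, 50669121, 37839621), (41, 33, 258, 73728291, 88473891), (29, 33, 258, 56954916, 88105266), (11, 18, 18, 70586406, 4608306), (13, 18, 18, 69537846, 4592946), (12, 33, 258, 87425346, 73486371), (14, 33, 258, 86380611, 73467186), (41, 18, 18, 73732146, 88477746), (29, 18, 18, 56951106, 88170531), (41, 18, 18, 73728306, 88477731), (27, 18, 18, 55840806, 5529906),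 (25, 528, 528, 34891056, 52696656), (26, 528, 528, 34887216, 36968016), (9, 33, 258, 40177731, 88147506), (19, 528, 528, 35017776, 70391376), (22, 528, 528, 34887216, 36968016), (9, 33, 258, 40173891, 88147491), (19, 288, 288, 19096896, 52512096), (18, 18, 18, 38998116, 22038066), (35, 18, 18, 55840866, 22306866), (38, 18, 18, 55837026, 22306851), (28, 18, 18, 40112211, 85198386), (16, 528, 528, 33969201, 70391301), (39, 18, 18, 40042836, 84952611), (2, 528, 528, 19162371, 52692321), (11, 513, 513, 102847491, 103941441), (39, 513, 513, 100869396, 102777621), (42, 513, 513, 85206531, 40108881), (40, 258, 33, 102827061, 100799811), (4, 513, 513, 101926146, 102973521), (5, 33, 258, 40173891, 88147491), (7, 513, 513, 101929986, 103956561), (15, 513, 513, 67446291, 38142741), (28, 513, 513, 101995011, 104071761), (11,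 513, 513, 102843651, 102958401), (4, 513, 513, 101929986, 103956561), (5, 33, 258, 40177731, 88147506), (7, 513, 513, 101926146, 102973521), (16, 33, 258, 5321286, 5321286), (16, 288, 288, 2188611, 52495686), (2, 288, 288, 34825536, 52512336), (40, 18, 18, 40173876, 88086051), (34, 18, 18, 39063606, 5510706), (5, 513, 513, 101929986, 103956561), (16, 513, 513, 84288531, 73532181), (5, 513, 513, 101926146, 102973521), (19, 513, 513, 85344771, 73597521), (35, 33, 258, 55840806, 5529906), (38, 33, 258, 55836966, 5529891), (11, 18, 18, 40177731, 88147506), (16, 513, 513, 33969171, 70387221), (28, 33, 258, 40108341, 84153891), (11, 18, 18, 40173891, 88147491), (39, 33, 258, 40046661, 83969586), (2, 513, 513, 19162416, 52696416), (25, 513, 513, 34891011, 52692561), (26, 513, 513, 34887171, 36963921), (22, 528, 528, 101983536,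 103027536), (19, 513, 513, 35017731, 70387281), (19, 258, 33, 19092996, 36717921), (18, 33, 258, 38998086, 5326386), (15, 18, 18, 56954946, 88170546), (40, 288, 288, 102827091, 101844291), (28, 528, 528, 101983536, 103027536), (39, 528, 528, 100869441, 102843141), (4, 528, 528, 101926176, 102973776), (7, 18, 18, 40173891, 88147491), (7, 528, 528, 101930016, 103956816), (16, 18, 18, 5317476, 22029126), (42, 528, 528, 85221936, 56889936), (15, 18, 18, 56951106, 88170531), (4, 528, 528, 101930016, 103956816), (7, 18, 18, 40177731, 88147506), (7, 528, 528, 101926176, 102973776), (15, 528, 528, 67461681, 54923781), (40, 33, 258, 40177731, 88147506), (34, 33, 258, 39063651, 22283826), (16, 258, 33, 2184756, 36705606), (2, 258, 33, 34825476, 52446801), (5, 528, 528, 101930016, 103956816), (19, 528, 528, 85337136, 73536336),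 (5, 528, 528, 101926176, 102973776), (16, 528, 528, 84296241, 73601541)]
  [(2, 256), (4, -576), (7, 1152), (9, 192), (11, 256), (12, 512), (13, -320), (14, -256), (15, -832), (16, -512), (18, 448), (19, -768), (20, 320), (21, 256), (22, 256), (23, -640), (24, -320), (25, -256), (26, 256), (27, 640), (28, 128), (29, 320), (33, -256), (34, -128), (35, -320), (38, 320), (39, -64), (40, 256), (41, -1152), (42, 256), (44, 576)] = true := by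
  decide +kernel

theorem t33_0_1 : chkS lk33 3 5 [(1, m33_0)] l33_1
  [(22, 528, 528, 34887216, 36968016), (19, 288, 288, 19096896, 52512096), (9, 33, 258, 40177731, 88147506), (9, 33, 258, 40173891, 88147491), (25, 528, 528, 34891056, 52696656), (18, 18, 18, 38998116, 22038066), (26, 528, 528, 34887216, 36968016), (19, 528, 528, 35017776, 70391376), (28, 18, 18, 40112211, 85198386), (39, 18, 18, 40042836, 84952611), (35, 18, 18, 55840866, 22306866), (2, 528, 528, 19162371, 52692321), (38, 18, 18, 55837026, 22306851), (16, 528, 528, 33969201, 70391301), (4, 513, 513, 101926146, 102973521), (7, 513, 513, 101929986, 103956561), (42, 513, 513, 85206531, 40108881), (15, 513, 513, 67446291, 38142741), (11, 513, 513, 102847491, 103941441), (5, 33, 258, 40173891, 88147491), (39, 513, 513, 100869396, 102777621), (40, 258,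 33, 102827061, 100799811), (4, 513, 513, 101929986, 103956561), (7, 513, 513, 101926146, 102973521), (28, 513, 513, 101995011, 104071761), (16, 33, 258, 5321286, 5321286), (11, 513, 513, 102843651, 102958401), (5, 33, 258, 40177731, 88147506), (5, 513, 513, 101929986, 103956561), (5, 513, 513, 101926146, 102973521), (40, 18, 18, 40173876, 88086051), (16, 513, 513, 84288531, 73532181), (16, 288, 288, 2188611, 52495686), (19, 513, 513, 85344771, 73597521), (2, 288, 288, 34825536, 52512336), (34, 18, 18, 39063606, 5510706), (23, 528, 528, 34891056, 52696656), (12, 18, 18, 87429156, 73421106), (27, 528, 528, 34891056, 52696656), (27, 528, 528, 34887216, 36968016), (20, 33, 258, 103026771, 101975346), (14, 18, 18, 86380596, 73405746), (24, 528, 528, 34887216, 36968016), (12, 18, 18, 55640676, 22045251), (28, 18, 18, 55837026,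 22306851), (11, 33, 258, 70582626, 21385251), (21, 33, 258, 87298146, 23351346), (13, 33, 258, 69537891, 21366066), (33, 33, 258, 88211811, 23397411), (11, 18, 18, 54592101, 17130051), (44, 528, 528, 51733056, 54616656), (41, 33, 258, 73732131, 88473906), (23, 513, 513, 34887171, 36963921), (27, 33, 258, 55837026, 22306851), (39, 33, 258, 72552486, 5652786), (41, 528, 528, 50684481, 54616581), (11, 33, 258, 54592086, 1401411), (12, 33, 258, 55640646, 5333571), (44, 528, 528, 51717696, 37839696), (41, 33, 258, 73728291, 88473891), (28, 33, 258, 55840806, 5529906), (29, 33, 258, 56954916, 88105266), (39, 33, 258, 72548646, 5652771), (41, 528, 528, 50669121, 37839621), (41, 18, 18, 73732146, 88477746), (41, 18, 18, 73728306, 88477731), (12, 33, 258, 87425346, 73486371), (29, 18, 18, 56951106, 88170531), (11, 18, 18,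 70586406, 4608306), (27, 18, 18, 55840806, 5529906), (13, 18, 18, 69537846, 4592946), (14, 33, 258, 86380611, 73467186), (28, 33, 258, 40108341, 84153891), (39, 33, 258, 40046661, 83969586), (11, 18, 18, 40177731, 88147506), (11, 18, 18, 40173891, 88147491), (35, 33, 258, 55840806, 5529906), (2, 513, 513, 19162416, 52696416), (38, 33, 258, 55836966, 5529891), (16, 513, 513, 33969171, 70387221), (22, 528, 528, 101983536, 103027536), (19, 258, 33, 19092996, 36717921), (25, 513, 513, 34891011, 52692561), (18, 33, 258, 38998086, 5326386), (26, 513, 513, 34887171, 36963921), (19, 513, 513, 35017731, 70387281), (4, 528, 528, 101926176, 102973776), (7, 528, 528, 101930016, 103956816), (28, 528, 528, 101983536, 103027536), (16, 18, 18, 5317476, 22029126), (15, 18, 18, 56954946, 88170546), (7, 18, 18, 40173891, 88147491),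 (40, 288, 288, 102827091, 101844291), (39, 528, 528, 100869441, 102843141), (4, 528, 528, 101930016, 103956816), (7, 528, 528, 101926176, 102973776), (42, 528, 528, 85221936, 56889936), (15, 528, 528, 67461681, 54923781), (15, 18, 18, 56951106, 88170531), (7, 18, 18, 40177731, 88147506), (5, 528, 528, 101930016, 103956816), (5, 528, 528, 101926176, 102973776), (16, 258, 33, 2184756, 36705606), (19, 528, 528, 85337136, 73536336), (40, 33, 258, 40177731, 88147506), (16, 528, 528, 84296241, 73601541), (34, 33, 258, 39063651, 22283826), (2, 258, 33, 34825476, 52446801)]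
  [(2, 64), (5, 576), (7, -576), (9, -384), (11, 64), (12, 128), (13, 64), (14, -64), (15, 512), (16, -128), (18, -320), (19, 384), (20, -64), (21, 64), (22, 64), (23, 128), (24, 64), (25, -64), (26, 64), (27, -128), (28, -256), (29, -64), (33, -64), (34, 256), (35, 64), (38, -64), (39, 128), (40, -512), (42, 64), (44, 0)] = true := by
  decide +kernel

theorem t33_0_2 : chkS lk33 3 5 [(1, m33_0)] l33_2
  [(9, 528, 528, 19220016, 37950816), (10, 528, 528, 19289136, 70391136), (3, 258, 33, 101860101, 100869201), (12, 528, 528, 19289136, 70391136), (5, 513, 513, 51725826, 37970001), (40, 18, 18, 88158726, 6632001), (12, 513, 513, 102843651, 102958401), (41, 288, 288, 19218531, 21169506), (6, 513, 513, 51794946, 70410321), (31, 18, 18, 90443811, 90439986), (30, 18, 18, 90439986, 90443811), (36, 18, 18, 90443826, 90443826),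 (40, 33, 258, 21308256, 21308256), (2, 528, 528, 67331361, 52838661), (3, 288, 288, 35013456, 68363856), (29, 513, 513, 85221891, 56885841), (5, 528, 528, 85156896, 56770896), (9, 33, 258, 23404611, 88146786), (11, 18, 18, 23404611, 88146786), (5, 513, 513, 85156866, 56770641), (8, 528, 528, 51794976, 70410576), (30, 528, 528, 85206576, 40112976), (43, 528, 528, 87318546, 56905746), (8, 513, 513, 51794946, 70410321)]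
  [(2, 576), (5, 576), (6, 576), (8, -1152), (10, -576), (11, -576), (12, 1152), (29, -576), (31, -576), (36, 576), (41, -576), (43, 576)] = true := by
  decide +kernel

theorem t33_1_1 : chkS lk33 3 5 [(1, m33_1)] l33_1
  [(20, 513, 513, 103043331, 104072481), (14, 258, 33, 86388996, 73413921), (12, 258, 33, 55665156, 55599681), (24, 288, 288, 34879056, 34879056), (23, 288, 288, 34878816, 19150416), (12, 258, 33, 87433236, 73421586), (27, 288, 288, 34879056, 34879056), (27, 288, 288, 34878816, 19150416), (44, 288, 288, 51725856, 37970256), (41, 513, 513, 73736451, 88474401), (28, 513, 513, 55844886, 5530386), (29, 513, 513, 56958996, 88105746), (39, 513, 513, 72556806, 5653281), (41, 288, 288, 50677281, 37970181), (23, 513, 513, 56905986, 87318561), (27, 513, 513, 55861506, 55861281), (44, 288, 288, 51724896, 21193296),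 (41, 513, 513, 73736211, 88474386), (11, 513, 513, 54612486, 3498561), (12, 513, 513, 55656966, 5464641), (39, 513, 513, 72556566, 5653266), (41, 288, 288, 50676321, 21193221), (28, 258, 33, 55861506, 55861281), (11, 513, 513, 70607106, 54939681), (21, 513, 513, 87318786, 56905761), (13, 513, 513, 69558531, 54920481), (33, 513, 513, 88236291, 56951841), (11, 258, 33, 54616581, 50684481), (29, 258, 33, 56967426, 88301601), (12, 513, 513, 87441666, 73617441), (41, 258, 33, 73740546, 88485921), (41, 258, 33, 73740306, 88485906), (13, 258, 33, 69546246, 4601121), (14, 513, 513, 86393091, 73598241), (11, 258, 33, 70590486, 4608786), (27, 258, 33, 55844886, 5530386), (25, 288, 288, 34879056, 34879056), (18, 258, 33, 39018756, 55592481), (19, 288, 288, 35009616, 68302416), (26, 288, 288, 34879056, 34879056), (22, 288, 288,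 34879056, 34879056), (19, 528, 528, 19088736, 19088736), (9, 513, 513, 40190211, 88278561), (9, 513, 513, 40189971, 88278546), (4, 513, 513, 40058901, 84100626), (7, 33, 258, 101909826, 102842451), (28, 33, 258, 101974611, 101974611), (16, 513, 513, 5325366, 5444166), (11, 33, 258, 102827331, 102827331), (5, 513, 513, 40189971, 88278546), (42, 513, 513, 56893701, 84173601), (15, 33, 258, 67442211, 38142261), (4, 513, 513, 40059141, 84100641), (7, 33, 258, 101909586, 101859411), (39, 33, 258, 100865316, 102777141), (40, 18, 18, 102839301, 100808001), (11, 33, 258, 102827091, 101844291), (5, 513, 513, 40190211, 88278561), (28, 258, 33, 40128531, 87295506), (39, 258, 33, 40063236, 87049761), (35, 258, 33, 55861506, 55861281), (2, 288, 288, 19138131, 34866531), (38, 258, 33, 55861506, 55861281), (16, 288, 288, 33961041,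 68302341), (16, 33, 258, 84284451, 73531701), (40, 258, 33, 40186116, 88094241), (5, 33, 258, 101909826, 102842451), (5, 33, 258, 101909586, 101859411), (2, 528, 528, 34817616, 34817616), (34, 258, 33, 39072006, 5518881), (16, 528, 528, 2180451, 19072326), (19, 33, 258, 85328451, 73466451), (25, 33, 258, 34866771, 34866771), (34, 513, 513, 39084291, 55838241), (40, 528, 528, 102847491, 103941441), (26, 33, 258, 34866771, 34866771), (42, 288, 288, 85209696, 23343696), (40, 513, 513, 40189971, 88278546), (15, 258, 33, 56967426, 88301601), (15, 258, 33, 56967186, 88301586), (4, 288, 288, 101918016, 102843216), (5, 288, 288, 101918016, 102843216), (28, 513, 513, 40120581, 84162081), (16, 288, 288, 84292161, 73478661), (11, 258, 33, 40190211, 88278561), (7, 258, 33, 40190211, 88278561), (22, 288, 288, 101987616, 103035216),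 (19, 288, 288, 85341216, 73544016), (4, 288, 288, 101917776, 101860176), (5, 288, 288, 101917776, 101860176), (16, 33, 258, 33952851, 68290101), (19, 513, 513, 39010326, 5457426), (11, 258, 33, 40189971, 88278546), (7, 258, 33, 40189971, 88278546), (28, 288, 288, 101987616, 103035216), (16, 18, 18, 2176596, 34616646), (35, 513, 513, 55845126, 5530401), (2, 18, 18, 34801236, 34621011), (38, 513, 513, 55845126, 5530401), (39, 288, 288, 100877601, 102973701), (16, 258, 33, 5333796, 55583046), (19, 528, 528, 86393616, 73606416), (7, 288, 288, 101918016, 102843216), (7, 288, 288, 101917776, 101860176), (2, 33, 258, 19150416, 34878816), (18, 513, 513, 39010566, 5457441), (39, 513, 513, 40058901, 84100626), (15, 288, 288, 67449441, 21377541)]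
  [(2, -128), (9, 192), (11, -128), (12, -256), (13, -128), (14, 128), (15, 128), (16, 256), (18, 64), (19, -192), (20, 128), (21, -128), (22, -128), (23, -256), (24, -128), (25, 128), (26, -128), (27, 256), (28, 512), (29, 128), (33, 128), (34, 64), (35, -128), (38, 128), (39, -256), (40, -128), (42, -128), (44, 0)] = true := by
  decide +kernel

theorem t33_1_2 : chkS lk33 3 5 [(1, m33_1)] l33_2
  [(10, 288, 288, 19281216, 69285216), (9, 288, 288, 19215936, 37827936), (12, 288, 288, 19280976, 68302176), (3, 18, 18, 101844021, 100799571), (12, 33, 258, 102827331, 102827331), (41, 528, 528, 19226691, 54592866), (5, 33, 258, 51709506, 37838931), (40, 258, 33, 88146486, 6623811), (30, 258, 33, 90452226, 90452001), (36, 258, 33, 90452226, 90452001), (6, 33, 258, 51774786, 69296211), (31, 258, 33, 90447891, 90440466),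 (2, 33, 258, 50599506, 34889781), (16, 33, 258, 20325456, 68309856), (11, 513, 513, 90255876, 90190401), (13, 258, 33, 56967426, 88301601), (29, 288, 288, 68498976, 38154576), (5, 288, 288, 51717696, 37839696), (41, 18, 18, 19214406, 4273506), (16, 288, 288, 103875906, 102846531), (30, 513, 513, 90447891, 90440466), (6, 288, 288, 51782976, 69296976), (36, 513, 513, 90448131, 90440481), (31, 513, 513, 90452226, 90452001)]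
  [(2, -576), (3, 576), (9, -576), (10, 576), (11, 576), (12, -1152), (13, -576), (16, 1152), (29, 576), (40, -576), (41, 0)] = true := by
  decide +kernel

theorem t33_2_2 : chkS lk33 3 5 [(1, m33_2)] l33_2
  [(0, 258, 33, 106111236, 105923361), (24, 258, 33, 105001221, 101004321), (24, 258, 33, 105062421, 101008146), (32, 528, 528, 35017776, 70391376), (14, 33, 258, 103875906, 102846531), (27, 18, 18, 104863011, 103088436), (19, 513, 513, 56770821, 84108321), (34, 18, 18, 104924466, 103092291), (19, 33, 258, 56689221, 83976771), (34, 258, 33, 105197826, 105197601), (14, 513, 513, 104153346, 105074721), (27, 258, 33, 105193491, 105186066), (17, 18, 18, 56689986, 86073411), (26, 513, 513, 105062421, 101008146), (26, 513, 513, 105001221, 101004321), (1, 513, 513, 70668546, 70668321), (3, 258, 33, 40120341, 84162066),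 (12, 288, 288, 101918016, 102843216), (37, 528, 528, 101860656, 102962256), (18, 33, 258, 56689221, 83976771), (9, 528, 528, 85222176, 56893776), (10, 288, 288, 101918016, 102843216), (3, 513, 513, 103093296, 104994096), (12, 33, 258, 23077701, 83960676)]
  [(0, 576), (1, -576), (3, 1152), (9, -576), (10, 576), (12, -1152), (14, -1152), (17, -576), (18, 576), (19, 1152), (24, -1152), (26, 1152), (27, 1152), (32, 576), (34, -1152), (37, -576)] = true := by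
  decide +kernel

section

variable {κ ι : Type*} [Fintype κ] [Fintype ι] [Inhabited κ] [Inhabited ι]

noncomputable def F33_0 (E : Env κ ι) : (Fin 3 → κ) → (Fin 5 → ι) → ℝ := op2 (P2 κ) (P8 ι) (fB E 3 5 m33_0)

noncomputable def F33_1 (E : Env κ ι) : (Fin 3 → κ) → (Fin 5 → ι) → ℝ := op2 (P2 κ) (P8 ι) (fB E 3 5 m33_1)

noncomputable def F33_2 (E : Env κ ι) : (Fin 3 → κ) → (Fin 5 → ι) → ℝ := op2 (P2 κ) (P8 ι) (fB E 3 5 m33_2)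

def r33_0_0 : List (ℕ × ℤ) := [(2, 256), (4, -576), (7, 1152), (9, 192), (11, 256), (12, 512), (13, -320), (14, -256), (15, -832), (16, -512), (18, 448), (19, -768), (20, 320), (21, 256), (22, 256), (23, -640), (24, -320), (25, -256), (26, 256), (27, 640), (28, 128), (29, 320), (33, -256), (34, -128), (35, -320), (38, 320), (39, -64), (40, 256), (41, -1152), (42, 256), (44, 576)]

theorem h33_0_0 (E : Env κ ι) : ip (F33_0 E) (F33_0 E) = dotS (ek E lk33) r33_0_0 :=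
  op_entryZ E lk33 3 5 _ _ _ _ (pg2 κ) (pg8 ι) m33_0 m33_0 l33_0 z33_0 w33_0 x33_0 (by decide) _ (chkS_sound E lk33 3 5 _ _ _ _ t33_0_0)

def r33_0_1 : List (ℕ × ℤ) := [(2, 64), (5, 576), (7, -576), (9, -384), (11, 64), (12, 128), (13, 64), (14, -64), (15, 512), (16, -128), (18, -320), (19, 384), (20, -64), (21, 64), (22, 64), (23, 128), (24, 64), (25, -64), (26, 64), (27, -128), (28, -256), (29, -64), (33, -64), (34, 256), (35, 64), (38, -64), (39, 128), (40, -512), (42, 64), (44, 0)]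

theorem h33_0_1 (E : Env κ ι) : ip (F33_0 E) (F33_1 E) = dotS (ek E lk33) r33_0_1 :=
  op_entryZ E lk33 3 5 _ _ _ _ (pg2 κ) (pg8 ι) m33_0 m33_1 l33_1 z33_1 w33_1 x33_1 (by decide) _ (chkS_sound E lk33 3 5 _ _ _ _ t33_0_1)

def r33_0_2 : List (ℕ × ℤ) := [(2, 576), (5, 576), (6, 576), (8, -1152), (10, -576), (11, -576), (12, 1152), (29, -576), (31, -576), (36, 576), (41, -576), (43, 576)]

theorem h33_0_2 (E : Env κ ι) : ip (F33_0 E) (F33_2 E) = dotS (ek E lk33) r33_0_2 :=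
  op_entryZ E lk33 3 5 _ _ _ _ (pg2 κ) (pg8 ι) m33_0 m33_2 l33_2 z33_2 w33_2 x33_2 (by decide) _ (chkS_sound E lk33 3 5 _ _ _ _ t33_0_2)

def r33_1_1 : List (ℕ × ℤ) := [(2, -128), (9, 192), (11, -128), (12, -256), (13, -128), (14, 128), (15, 128), (16, 256), (18, 64), (19, -192), (20, 128), (21, -128), (22, -128), (23, -256), (24, -128), (25, 128), (26, -128), (27, 256), (28, 512), (29, 128), (33, 128), (34, 64), (35, -128), (38, 128), (39, -256), (40, -128), (42, -128), (44, 0)]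

theorem h33_1_1 (E : Env κ ι) : ip (F33_1 E) (F33_1 E) = dotS (ek E lk33) r33_1_1 :=
  op_entryZ E lk33 3 5 _ _ _ _ (pg2 κ) (pg8 ι) m33_1 m33_1 l33_1 z33_1 w33_1 x33_1 (by decide) _ (chkS_sound E lk33 3 5 _ _ _ _ t33_1_1)

def r33_1_2 : List (ℕ × ℤ) := [(2, -576), (3, 576), (9, -576), (10, 576), (11, 576), (12, -1152), (13, -576), (16, 1152), (29, 576), (40, -576), (41, 0)]

theorem h33_1_2 (E : Env κ ι) : ip (F33_1 E) (F33_2 E) = dotS (ek E lk33) r33_1_2 :=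
  op_entryZ E lk33 3 5 _ _ _ _ (pg2 κ) (pg8 ι) m33_1 m33_2 l33_2 z33_2 w33_2 x33_2 (by decide) _ (chkS_sound E lk33 3 5 _ _ _ _ t33_1_2)

def r33_2_2 : List (ℕ × ℤ) := [(0, 576), (1, -576), (3, 1152), (9, -576), (10, 576), (12, -1152), (14, -1152), (17, -576), (18, 576), (19, 1152), (24, -1152), (26, 1152), (27, 1152), (32, 576), (34, -1152), (37, -576)]

theorem h33_2_2 (E : Env κ ι) : ip (F33_2 E) (F33_2 E) = dotS (ek E lk33) r33_2_2 :=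
  op_entryZ E lk33 3 5 _ _ _ _ (pg2 κ) (pg8 ι) m33_2 m33_2 l33_2 z33_2 w33_2 x33_2 (by decide) _ (chkS_sound E lk33 3 5 _ _ _ _ t33_2_2)

theorem row33_0 (E : Env κ ι) : RowG (ek E lk33) (F33_0 E) [F33_0 E, F33_1 E, F33_2 E] [r33_0_0, r33_0_1, r33_0_2] :=
  rowG_cons _ _ _ _ _ _ (h33_0_0 E) (rowG_cons _ _ _ _ _ _ (h33_0_1 E) (rowG_cons _ _ _ _ _ _ (h33_0_2 E) (rowG_nil _ _)))

theorem row33_1 (E : Env κ ι) : RowG (ek E lk33) (F33_1 E) [F33_1 E, F33_2 E] [r33_1_1, r33_1_2] :=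
  rowG_cons _ _ _ _ _ _ (h33_1_1 E) (rowG_cons _ _ _ _ _ _ (h33_1_2 E) (rowG_nil _ _))

theorem row33_2 (E : Env κ ι) : RowG (ek E lk33) (F33_2 E) [F33_2 E] [r33_2_2] :=
  rowG_cons _ _ _ _ _ _ (h33_2_2 E) (rowG_nil _ _)

def tab33 : List (List (List (ℕ × ℤ))) := [[r33_0_0, r33_0_1, r33_0_2], [r33_1_1, r33_1_2], [r33_2_2]]

theorem tri33 (E : Env κ ι) : TriG (ek E lk33) [F33_0 E, F33_1 E, F33_2 E] tab33 := by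
  refine triG_cons _ _ _ _ _ (row33_0 E) ?_
  refine triG_cons _ _ _ _ _ (row33_1 E) ?_
  refine triG_cons _ _ _ _ _ (row33_2 E) ?_
  exact triG_nil _

end

def lk34 : List Key := [
  (3, 7, [(0, [0], [0, 1]), (0, [1], [0, 2]), (0, [0], [2, 3]), (0, [2], [1, 4]), (0, [1], [5, 6]), (0, [2], [5, 6]), (4, [], [3]), (4, [], [4])]),
  (3, 7, [(0, [0], [0, 1]), (0, [0], [0, 2]), (0, [1], [1, 2]), (4, [], [3]), (0, [2], [4, 5]), (0, [2], [4, 6]), (0, [1], [5, 6]), (4, [], [3])]),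
  (3, 7, [(0, [0], [0, 1]), (0, [0], [0, 2]), (0, [1], [1, 2]), (4, [], [3]), (0, [2], [4, 5]), (0, [2], [4, 6]), (0, [1], [3, 6]), (4, [], [5])]),
  (3, 7, [(0, [0], [0, 1]), (0, [0], [0, 2]), (0, [1], [1, 2]), (4, [], [3]), (0, [2], [4, 5]), (0, [2], [3, 6]), (0, [1], [4, 6]), (4, [], [5])]),
  (3, 7, [(0, [0], [0, 1]), (0, [0], [0, 2]), (0, [1], [3, 2]), (4, [], [1]), (0, [2], [4, 5]), (0, [2], [4, 6]), (0, [1], [3, 6]), (4, [], [5])]),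
  (3, 7, [(0, [0], [0, 1]), (0, [0], [0, 2]), (0, [1], [3, 2]), (4, [], [1]), (0, [2], [4, 5]), (0, [2], [3, 6]), (0, [1], [4, 6]), (4, [], [5])]),
  (3, 7, [(0, [0], [0, 1]), (0, [0], [0, 2]), (0, [1], [3, 2]), (4, [], [1]), (0, [2], [4, 5]), (0, [2], [3, 4]), (0, [1], [5, 6]), (4, [], [6])]),
  (3, 7, [(0, [0], [0, 1]), (0, [0], [0, 1]), (0, [1], [2, 3]), (4, [], [3]), (0, [2], [4, 5]), (0, [2], [2, 6]), (0, [1], [4, 6]), (4, [], [5])]),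
  (3, 7, [(0, [0], [0, 1]), (0, [0], [0, 1]), (0, [1], [2, 3]), (4, [], [3]), (0, [2], [4, 5]), (0, [2], [2, 4]), (0, [1], [5, 6]), (4, [], [6])]),
  (3, 7, [(0, [0], [0, 1]), (0, [0], [2, 3]), (0, [1], [0, 3]), (4, [], [1]), (0, [2], [4, 5]), (0, [2], [2, 6]), (0, [1], [4, 6]), (4, [], [5])]),
  (3, 7, [(0, [0], [0, 1]), (0, [0], [2, 3]), (0, [1], [0, 3]), (4, [], [1]), (0, [2], [4, 5]), (0, [2], [2, 4]), (0, [1], [5, 6]), (4, [], [6])]),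
  (3, 7, [(0, [0], [0, 1]), (0, [0], [2, 3]), (0, [1], [0, 1]), (4, [], [3]), (0, [2], [4, 5]), (0, [2], [2, 4]), (0, [1], [5, 6]), (4, [], [6])]),
  (3, 7, [(0, [0], [0, 1]), (0, [0], [2, 0]), (0, [1], [1, 3]), (4, [], [3]), (0, [2], [4, 5]), (0, [2], [2, 4]), (0, [1], [5, 6]), (4, [], [6])]),
  (3, 7, [(0, [0], [0, 1]), (0, [0], [0, 1]), (0, [1], [2, 3]), (4, [], [4]), (0, [2], [5, 6]), (0, [2], [2, 5]), (0, [1], [3, 6]), (4, [], [4])]),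
  (3, 7, [(0, [0], [0, 1]), (0, [0], [0, 1]), (0, [1], [2, 3]), (4, [], [4]), (0, [2], [2, 5]), (0, [2], [3, 6]), (0, [1], [5, 6]), (4, [], [4])]),
  (3, 7, [(0, [0], [0, 1]), (0, [0], [2, 0]), (0, [1], [3, 1]), (4, [], [4]), (0, [2], [5, 6]), (0, [2], [2, 5]), (0, [1], [3, 6]), (4, [], [4])]),
  (3, 7, [(0, [0], [0, 1]), (0, [0], [2, 0]), (0, [1], [3, 1]), (4, [], [4]), (0, [2], [5, 6]), (0, [2], [3, 5]), (0, [1], [2, 6]), (4, [], [4])]),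
  (3, 7, [(0, [0], [0, 1]), (0, [0], [2, 0]), (0, [1], [3, 1]), (4, [], [4]), (0, [2], [5, 6]), (0, [2], [4, 5]), (0, [1], [2, 3]), (4, [], [6])]),
  (3, 7, [(0, [0], [0, 1]), (0, [0], [2, 0]), (0, [1], [3, 1]), (4, [], [4]), (0, [2], [5, 6]), (0, [2], [2, 3]), (0, [1], [5, 6]), (4, [], [4])]),
  (3, 7, [(0, [0], [0, 1]), (0, [0], [2, 0]), (0, [1], [3, 1]), (4, [], [4]), (0, [2], [5, 6]), (0, [2], [2, 3]), (0, [1], [4, 5]), (4, [], [6])]),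
  (3, 7, [(0, [0], [0, 1]), (0, [0], [2, 0]), (0, [1], [3, 1]), (4, [], [4]), (0, [2], [5, 6]), (0, [2], [3, 4]), (0, [1], [2, 5]), (4, [], [6])]),
  (3, 7, [(0, [0], [0, 1]), (0, [0], [2, 0]), (0, [1], [3, 1]), (4, [], [4]), (0, [2], [2, 5]), (0, [2], [3, 6]), (0, [1], [5, 6]), (4, [], [4])]),
  (3, 7, [(0, [0], [0, 1]), (0, [0], [2, 0]), (0, [1], [3, 1]), (4, [], [4]), (0, [2], [3, 5]), (0, [2], [2, 6]), (0, [1], [4, 6]), (4, [], [5])]),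
  (3, 7, [(0, [0], [0, 1]), (0, [0], [2, 0]), (0, [1], [3, 4]), (4, [], [1]), (0, [2], [3, 5]), (0, [2], [4, 6]), (0, [1], [5, 6]), (4, [], [2])]),
  (3, 7, [(0, [0], [0, 1]), (0, [0], [2, 3]), (0, [1], [0, 1]), (4, [], [4]), (0, [2], [5, 6]), (0, [2], [2, 4]), (0, [1], [3, 5]), (4, [], [6])]),
  (3, 7, [(0, [0], [0, 1]), (0, [0], [2, 3]), (0, [1], [0, 1]), (4, [], [4]), (0, [2], [2, 5]), (0, [2], [3, 6]), (0, [1], [5, 6]), (4, [], [4])]),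
  (3, 7, [(0, [0], [0, 1]), (0, [0], [2, 3]), (0, [1], [4, 0]), (4, [], [1]), (0, [2], [2, 5]), (0, [2], [3, 6]), (0, [1], [5, 6]), (4, [], [4])]),
  (3, 7, [(0, [0], [0, 1]), (0, [0], [2, 3]), (0, [1], [4, 0]), (4, [], [1]), (0, [2], [2, 5]), (0, [2], [4, 6]), (0, [1], [5, 6]), (4, [], [3])]),
  (3, 7, [(0, [0], [0, 1]), (0, [0], [2, 3]), (0, [1], [4, 0]), (4, [], [1]), (0, [2], [2, 5]), (0, [2], [4, 6]), (0, [1], [3, 6]), (4, [], [5])]),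
  (3, 7, [(0, [0], [0, 1]), (0, [0], [2, 3]), (0, [1], [4, 0]), (4, [], [1]), (0, [2], [4, 5]), (0, [2], [2, 6]), (0, [1], [3, 6]), (4, [], [5])]),
  (3, 7, [(0, [0], [0, 1]), (0, [0], [2, 3]), (0, [1], [1, 3]), (4, [], [4]), (0, [2], [0, 5]), (0, [2], [2, 6]), (0, [1], [5, 6]), (4, [], [4])]),
  (3, 7, [(0, [0], [0, 1]), (0, [0], [2, 3]), (0, [1], [4, 1]), (4, [], [5]), (0, [2], [2, 6]), (0, [2], [0, 4]), (0, [1], [3, 6]), (4, [], [5])])]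

def kl34 : List ℕ := [57, 94, 95, 97, 109, 111, 112, 119, 120, 125, 126, 133, 144, 204, 206, 216, 217, 218, 219, 220, 221, 222, 223, 253, 267, 268, 285, 286, 287, 288, 302, 430]

def m34_0 : Base := (0, 1, [(0, [0], [0, 5]), (0, [1], [1, 5]), (0, [2], [2, 3]), (4, [], [4])])

def l34_0 : Cov := [(192, 0, 1, [(0, [0], [0, 5]), (0, [1], [1, 5]), (0, [2], [2, 3]), (4, [], [4])]),
  (-192, 0, 1, [(0, [0], [0, 5]), (0, [1], [1, 5]), (0, [2], [3, 4]), (4, [], [2])]),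
  (384, 0, 1, [(0, [0], [0, 5]), (0, [1], [2, 5]), (0, [2], [1, 4]), (4, [], [3])]),
  (-384, 0, 1, [(0, [0], [0, 5]), (0, [1], [2, 5]), (0, [2], [3, 4]), (4, [], [1])]),
  (-192, 0, 1, [(0, [0], [0, 5]), (0, [1], [3, 5]), (0, [2], [1, 2]), (4, [], [4])]),
  (192, 0, 1, [(0, [0], [0, 5]), (0, [1], [3, 5]), (0, [2], [1, 4]), (4, [], [2])]),
  (-384, 0, 1, [(0, [0], [0, 5]), (0, [1], [4, 5]), (0, [2], [1, 2]), (4, [], [3])]),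
  (384, 0, 1, [(0, [0], [0, 5]), (0, [1], [4, 5]), (0, [2], [2, 3]), (4, [], [1])]),
  (-192, 0, 1, [(0, [0], [1, 5]), (0, [1], [0, 5]), (0, [2], [2, 3]), (4, [], [4])]),
  (192, 0, 1, [(0, [0], [1, 5]), (0, [1], [0, 5]), (0, [2], [3, 4]), (4, [], [2])]),
  (192, 0, 1, [(0, [0], [1, 5]), (0, [1], [2, 5]), (0, [2], [0, 3]), (4, [], [4])]),
  (-192, 0, 1, [(0, [0], [1, 5]), (0, [1], [2, 5]), (0, [2], [3, 4]), (4, [], [0])]),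
  (-192, 0, 1, [(0, [0], [1, 5]), (0, [1], [4, 5]), (0, [2], [0, 3]), (4, [], [2])]),
  (192, 0, 1, [(0, [0], [1, 5]), (0, [1], [4, 5]), (0, [2], [2, 3]), (4, [], [0])]),
  (-384, 0, 1, [(0, [0], [2, 5]), (0, [1], [0, 5]), (0, [2], [1, 4]), (4, [], [3])]),
  (384, 0, 1, [(0, [0], [2, 5]), (0, [1], [0, 5]), (0, [2], [3, 4]), (4, [], [1])]),
  (-192, 0, 1, [(0, [0], [2, 5]), (0, [1], [1, 5]), (0, [2], [0, 3]), (4, [], [4])]),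
  (192, 0, 1, [(0, [0], [2, 5]), (0, [1], [1, 5]), (0, [2], [3, 4]), (4, [], [0])]),
  (192, 0, 1, [(0, [0], [2, 5]), (0, [1], [3, 5]), (0, [2], [0, 1]), (4, [], [4])]),
  (-192, 0, 1, [(0, [0], [2, 5]), (0, [1], [3, 5]), (0, [2], [1, 4]), (4, [], [0])]),
  (384, 0, 1, [(0, [0], [2, 5]), (0, [1], [4, 5]), (0, [2], [0, 1]), (4, [], [3])]),
  (-384, 0, 1, [(0, [0], [2, 5]), (0, [1], [4, 5]), (0, [2], [0, 3]), (4, [], [1])]),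
  (192, 0, 1, [(0, [0], [3, 5]), (0, [1], [0, 5]), (0, [2], [1, 2]), (4, [], [4])]),
  (-192, 0, 1, [(0, [0], [3, 5]), (0, [1], [0, 5]), (0, [2], [1, 4]), (4, [], [2])]),
  (-192, 0, 1, [(0, [0], [3, 5]), (0, [1], [2, 5]), (0, [2], [0, 1]), (4, [], [4])]),
  (192, 0, 1, [(0, [0], [3, 5]), (0, [1], [2, 5]), (0, [2], [1, 4]), (4, [], [0])]),
  (192, 0, 1, [(0, [0], [3, 5]), (0, [1], [4, 5]), (0, [2], [0, 1]), (4, [], [2])]),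
  (-192, 0, 1, [(0, [0], [3, 5]), (0, [1], [4, 5]), (0, [2], [1, 2]), (4, [], [0])]),
  (384, 0, 1, [(0, [0], [4, 5]), (0, [1], [0, 5]), (0, [2], [1, 2]), (4, [], [3])]),
  (-384, 0, 1, [(0, [0], [4, 5]), (0, [1], [0, 5]), (0, [2], [2, 3]), (4, [], [1])]),
  (192, 0, 1, [(0, [0], [4, 5]), (0, [1], [1, 5]), (0, [2], [0, 3]), (4, [], [2])]),
  (-192, 0, 1, [(0, [0], [4, 5]), (0, [1], [1, 5]), (0, [2], [2, 3]), (4, [], [0])]),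
  (-384, 0, 1, [(0, [0], [4, 5]), (0, [1], [2, 5]), (0, [2], [0, 1]), (4, [], [3])]),
  (384, 0, 1, [(0, [0], [4, 5]), (0, [1], [2, 5]), (0, [2], [0, 3]), (4, [], [1])]),
  (-192, 0, 1, [(0, [0], [4, 5]), (0, [1], [3, 5]), (0, [2], [0, 1]), (4, [], [2])]),
  (192, 0, 1, [(0, [0], [4, 5]), (0, [1], [3, 5]), (0, [2], [1, 2]), (4, [], [0])]),
  (-192, 0, 1, [(0, [0], [0, 5]), (0, [2], [1, 5]), (0, [1], [2, 3]), (4, [], [4])]),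
  (192, 0, 1, [(0, [0], [0, 5]), (0, [2], [1, 5]), (0, [1], [3, 4]), (4, [], [2])]),
  (-384, 0, 1, [(0, [0], [0, 5]), (0, [2], [2, 5]), (0, [1], [1, 4]), (4, [], [3])]),
  (384, 0, 1, [(0, [0], [0, 5]), (0, [2], [2, 5]), (0, [1], [3, 4]), (4, [], [1])]),
  (192, 0, 1, [(0, [0], [0, 5]), (0, [2], [3, 5]), (0, [1], [1, 2]), (4, [], [4])]),
  (-192, 0, 1, [(0, [0], [0, 5]), (0, [2], [3, 5]), (0, [1], [1, 4]), (4, [], [2])]),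
  (384, 0, 1, [(0, [0], [0, 5]), (0, [2], [4, 5]), (0, [1], [1, 2]), (4, [], [3])]),
  (-384, 0, 1, [(0, [0], [0, 5]), (0, [2], [4, 5]), (0, [1], [2, 3]), (4, [], [1])]),
  (192, 0, 1, [(0, [0], [1, 5]), (0, [2], [0, 5]), (0, [1], [2, 3]), (4, [], [4])]),
  (-192, 0, 1, [(0, [0], [1, 5]), (0, [2], [0, 5]), (0, [1], [3, 4]), (4, [], [2])]),
  (-192, 0, 1, [(0, [0], [1, 5]), (0, [2], [2, 5]), (0, [1], [0, 3]), (4, [], [4])]),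
  (192, 0, 1, [(0, [0], [1, 5]), (0, [2], [2, 5]), (0, [1], [3, 4]), (4, [], [0])]),
  (192, 0, 1, [(0, [0], [1, 5]), (0, [2], [4, 5]), (0, [1], [0, 3]), (4, [], [2])]),
  (-192, 0, 1, [(0, [0], [1, 5]), (0, [2], [4, 5]), (0, [1], [2, 3]), (4, [], [0])]),
  (384, 0, 1, [(0, [0], [2, 5]), (0, [2], [0, 5]), (0, [1], [1, 4]), (4, [], [3])]),
  (-384, 0, 1, [(0, [0], [2, 5]), (0, [2], [0, 5]), (0, [1], [3, 4]), (4, [], [1])]),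
  (192, 0, 1, [(0, [0], [2, 5]), (0, [2], [1, 5]), (0, [1], [0, 3]), (4, [], [4])]),
  (-192, 0, 1, [(0, [0], [2, 5]), (0, [2], [1, 5]), (0, [1], [3, 4]), (4, [], [0])]),
  (-192, 0, 1, [(0, [0], [2, 5]), (0, [2], [3, 5]), (0, [1], [0, 1]), (4, [], [4])]),
  (192, 0, 1, [(0, [0], [2, 5]), (0, [2], [3, 5]), (0, [1], [1, 4]), (4, [], [0])]),
  (-384, 0, 1, [(0, [0], [2, 5]), (0, [2], [4, 5]), (0, [1], [0, 1]), (4, [], [3])]),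
  (384, 0, 1, [(0, [0], [2, 5]), (0, [2], [4, 5]), (0, [1], [0, 3]), (4, [], [1])]),
  (-192, 0, 1, [(0, [0], [3, 5]), (0, [2], [0, 5]), (0, [1], [1, 2]), (4, [], [4])]),
  (192, 0, 1, [(0, [0], [3, 5]), (0, [2], [0, 5]), (0, [1], [1, 4]), (4, [], [2])]),
  (192, 0, 1, [(0, [0], [3, 5]), (0, [2], [2, 5]), (0, [1], [0, 1]), (4, [], [4])]),
  (-192, 0, 1, [(0, [0], [3, 5]), (0, [2], [2, 5]), (0, [1], [1, 4]), (4, [], [0])]),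
  (-192, 0, 1, [(0, [0], [3, 5]), (0, [2], [4, 5]), (0, [1], [0, 1]), (4, [], [2])]),
  (192, 0, 1, [(0, [0], [3, 5]), (0, [2], [4, 5]), (0, [1], [1, 2]), (4, [], [0])]),
  (-384, 0, 1, [(0, [0], [4, 5]), (0, [2], [0, 5]), (0, [1], [1, 2]), (4, [], [3])]),
  (384, 0, 1, [(0, [0], [4, 5]), (0, [2], [0, 5]), (0, [1], [2, 3]), (4, [], [1])]),
  (-192, 0, 1, [(0, [0], [4, 5]), (0, [2], [1, 5]), (0, [1], [0, 3]), (4, [], [2])]),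
  (192, 0, 1, [(0, [0], [4, 5]), (0, [2], [1, 5]), (0, [1], [2, 3]), (4, [], [0])]),
  (384, 0, 1, [(0, [0], [4, 5]), (0, [2], [2, 5]), (0, [1], [0, 1]), (4, [], [3])]),
  (-384, 0, 1, [(0, [0], [4, 5]), (0, [2], [2, 5]), (0, [1], [0, 3]), (4, [], [1])]),
  (192, 0, 1, [(0, [0], [4, 5]), (0, [2], [3, 5]), (0, [1], [0, 1]), (4, [], [2])]),
  (-192, 0, 1, [(0, [0], [4, 5]), (0, [2], [3, 5]), (0, [1], [1, 2]), (4, [], [0])]),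
  (192, 0, 1, [(0, [1], [0, 5]), (0, [2], [1, 5]), (0, [0], [2, 3]), (4, [], [4])]),
  (-192, 0, 1, [(0, [1], [0, 5]), (0, [2], [1, 5]), (0, [0], [3, 4]), (4, [], [2])]),
  (384, 0, 1, [(0, [1], [0, 5]), (0, [2], [2, 5]), (0, [0], [1, 4]), (4, [], [3])]),
  (-384, 0, 1, [(0, [1], [0, 5]), (0, [2], [2, 5]), (0, [0], [3, 4]), (4, [], [1])]),
  (-192, 0, 1, [(0, [1], [0, 5]), (0, [2], [3, 5]), (0, [0], [1, 2]), (4, [], [4])]),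
  (192, 0, 1, [(0, [1], [0, 5]), (0, [2], [3, 5]), (0, [0], [1, 4]), (4, [], [2])]),
  (-384, 0, 1, [(0, [1], [0, 5]), (0, [2], [4, 5]), (0, [0], [1, 2]), (4, [], [3])]),
  (384, 0, 1, [(0, [1], [0, 5]), (0, [2], [4, 5]), (0, [0], [2, 3]), (4, [], [1])]),
  (-192, 0, 1, [(0, [1], [1, 5]), (0, [2], [0, 5]), (0, [0], [2, 3]), (4, [], [4])]),
  (192, 0, 1, [(0, [1], [1, 5]), (0, [2], [0, 5]), (0, [0], [3, 4]), (4, [], [2])]),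
  (192, 0, 1, [(0, [1], [1, 5]), (0, [2], [2, 5]), (0, [0], [0, 3]), (4, [], [4])]),
  (-192, 0, 1, [(0, [1], [1, 5]), (0, [2], [2, 5]), (0, [0], [3, 4]), (4, [], [0])]),
  (-192, 0, 1, [(0, [1], [1, 5]), (0, [2], [4, 5]), (0, [0], [0, 3]), (4, [], [2])]),
  (192, 0, 1, [(0, [1], [1, 5]), (0, [2], [4, 5]), (0, [0], [2, 3]), (4, [], [0])]),
  (-384, 0, 1, [(0, [1], [2, 5]), (0, [2], [0, 5]), (0, [0], [1, 4]), (4, [], [3])]),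
  (384, 0, 1, [(0, [1], [2, 5]), (0, [2], [0, 5]), (0, [0], [3, 4]), (4, [], [1])]),
  (-192, 0, 1, [(0, [1], [2, 5]), (0, [2], [1, 5]), (0, [0], [0, 3]), (4, [], [4])]),
  (192, 0, 1, [(0, [1], [2, 5]), (0, [2], [1, 5]), (0, [0], [3, 4]), (4, [], [0])]),
  (192, 0, 1, [(0, [1], [2, 5]), (0, [2], [3, 5]), (0, [0], [0, 1]), (4, [], [4])]),
  (-192, 0, 1, [(0, [1], [2, 5]), (0, [2], [3, 5]), (0, [0], [1, 4]), (4, [], [0])]),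
  (384, 0, 1, [(0, [1], [2, 5]), (0, [2], [4, 5]), (0, [0], [0, 1]), (4, [], [3])]),
  (-384, 0, 1, [(0, [1], [2, 5]), (0, [2], [4, 5]), (0, [0], [0, 3]), (4, [], [1])]),
  (192, 0, 1, [(0, [1], [3, 5]), (0, [2], [0, 5]), (0, [0], [1, 2]), (4, [], [4])]),
  (-192, 0, 1, [(0, [1], [3, 5]), (0, [2], [0, 5]), (0, [0], [1, 4]), (4, [], [2])]),
  (-192, 0, 1, [(0, [1], [3, 5]), (0, [2], [2, 5]), (0, [0], [0, 1]), (4, [], [4])]),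
  (192, 0, 1, [(0, [1], [3, 5]), (0, [2], [2, 5]), (0, [0], [1, 4]), (4, [], [0])]),
  (192, 0, 1, [(0, [1], [3, 5]), (0, [2], [4, 5]), (0, [0], [0, 1]), (4, [], [2])]),
  (-192, 0, 1, [(0, [1], [3, 5]), (0, [2], [4, 5]), (0, [0], [1, 2]), (4, [], [0])]),
  (384, 0, 1, [(0, [1], [4, 5]), (0, [2], [0, 5]), (0, [0], [1, 2]), (4, [], [3])]),
  (-384, 0, 1, [(0, [1], [4, 5]), (0, [2], [0, 5]), (0, [0], [2, 3]), (4, [], [1])]),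
  (192, 0, 1, [(0, [1], [4, 5]), (0, [2], [1, 5]), (0, [0], [0, 3]), (4, [], [2])]),
  (-192, 0, 1, [(0, [1], [4, 5]), (0, [2], [1, 5]), (0, [0], [2, 3]), (4, [], [0])]),
  (-384, 0, 1, [(0, [1], [4, 5]), (0, [2], [2, 5]), (0, [0], [0, 1]), (4, [], [3])]),
  (384, 0, 1, [(0, [1], [4, 5]), (0, [2], [2, 5]), (0, [0], [0, 3]), (4, [], [1])]),
  (-192, 0, 1, [(0, [1], [4, 5]), (0, [2], [3, 5]), (0, [0], [0, 1]), (4, [], [2])]),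
  (192, 0, 1, [(0, [1], [4, 5]), (0, [2], [3, 5]), (0, [0], [1, 2]), (4, [], [0])])]

def z34_0 : Cov := [(0, 0, 1, [(0, [0], [0, 5]), (0, [1], [1, 5]), (0, [2], [2, 4]), (4, [], [3])]),
  (0, 0, 1, [(0, [0], [0, 5]), (0, [1], [2, 5]), (0, [2], [1, 3]), (4, [], [4])]),
  (0, 0, 1, [(0, [0], [0, 5]), (0, [1], [3, 5]), (0, [2], [2, 4]), (4, [], [1])]),
  (0, 0, 1, [(0, [0], [0, 5]), (0, [1], [4, 5]), (0, [2], [1, 3]), (4, [], [2])]),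
  (0, 0, 1, [(0, [0], [1, 5]), (0, [1], [0, 5]), (0, [2], [2, 4]), (4, [], [3])]),
  (0, 0, 1, [(0, [0], [1, 5]), (0, [1], [2, 5]), (0, [2], [0, 4]), (4, [], [3])]),
  (0, 0, 1, [(0, [0], [1, 5]), (0, [1], [3, 5]), (0, [2], [0, 2]), (4, [], [4])]),
  (0, 0, 1, [(0, [0], [1, 5]), (0, [1], [3, 5]), (0, [2], [0, 4]), (4, [], [2])]),
  (0, 0, 1, [(0, [0], [1, 5]), (0, [1], [3, 5]), (0, [2], [2, 4]), (4, [], [0])]),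
  (0, 0, 1, [(0, [0], [1, 5]), (0, [1], [4, 5]), (0, [2], [0, 2]), (4, [], [3])]),
  (0, 0, 1, [(0, [0], [2, 5]), (0, [1], [0, 5]), (0, [2], [1, 3]), (4, [], [4])]),
  (0, 0, 1, [(0, [0], [2, 5]), (0, [1], [1, 5]), (0, [2], [0, 4]), (4, [], [3])]),
  (0, 0, 1, [(0, [0], [2, 5]), (0, [1], [3, 5]), (0, [2], [0, 4]), (4, [], [1])]),
  (0, 0, 1, [(0, [0], [2, 5]), (0, [1], [4, 5]), (0, [2], [1, 3]), (4, [], [0])]),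
  (0, 0, 1, [(0, [0], [3, 5]), (0, [1], [0, 5]), (0, [2], [2, 4]), (4, [], [1])]),
  (0, 0, 1, [(0, [0], [3, 5]), (0, [1], [1, 5]), (0, [2], [0, 2]), (4, [], [4])]),
  (0, 0, 1, [(0, [0], [3, 5]), (0, [1], [1, 5]), (0, [2], [0, 4]), (4, [], [2])]),
  (0, 0, 1, [(0, [0], [3, 5]), (0, [1], [1, 5]), (0, [2], [2, 4]), (4, [], [0])]),
  (0, 0, 1, [(0, [0], [3, 5]), (0, [1], [2, 5]), (0, [2], [0, 4]), (4, [], [1])]),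
  (0, 0, 1, [(0, [0], [3, 5]), (0, [1], [4, 5]), (0, [2], [0, 2]), (4, [], [1])]),
  (0, 0, 1, [(0, [0], [4, 5]), (0, [1], [0, 5]), (0, [2], [1, 3]), (4, [], [2])]),
  (0, 0, 1, [(0, [0], [4, 5]), (0, [1], [1, 5]), (0, [2], [0, 2]), (4, [], [3])]),
  (0, 0, 1, [(0, [0], [4, 5]), (0, [1], [2, 5]), (0, [2], [1, 3]), (4, [], [0])]),
  (0, 0, 1, [(0, [0], [4, 5]), (0, [1], [3, 5]), (0, [2], [0, 2]), (4, [], [1])]),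
  (0, 0, 1, [(0, [0], [0, 5]), (0, [2], [1, 5]), (0, [1], [2, 4]), (4, [], [3])]),
  (0, 0, 1, [(0, [0], [0, 5]), (0, [2], [2, 5]), (0, [1], [1, 3]), (4, [], [4])]),
  (0, 0, 1, [(0, [0], [0, 5]), (0, [2], [3, 5]), (0, [1], [2, 4]), (4, [], [1])]),
  (0, 0, 1, [(0, [0], [0, 5]), (0, [2], [4, 5]), (0, [1], [1, 3]), (4, [], [2])]),
  (0, 0, 1, [(0, [0], [1, 5]), (0, [2], [0, 5]), (0, [1], [2, 4]), (4, [], [3])]),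
  (0, 0, 1, [(0, [0], [1, 5]), (0, [2], [2, 5]), (0, [1], [0, 4]), (4, [], [3])]),
  (0, 0, 1, [(0, [0], [1, 5]), (0, [2], [3, 5]), (0, [1], [0, 2]), (4, [], [4])]),
  (0, 0, 1, [(0, [0], [1, 5]), (0, [2], [3, 5]), (0, [1], [0, 4]), (4, [], [2])]),
  (0, 0, 1, [(0, [0], [1, 5]), (0, [2], [3, 5]), (0, [1], [2, 4]), (4, [], [0])]),
  (0, 0, 1, [(0, [0], [1, 5]), (0, [2], [4, 5]), (0, [1], [0, 2]), (4, [], [3])]),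
  (0, 0, 1, [(0, [0], [2, 5]), (0, [2], [0, 5]), (0, [1], [1, 3]), (4, [], [4])]),
  (0, 0, 1, [(0, [0], [2, 5]), (0, [2], [1, 5]), (0, [1], [0, 4]), (4, [], [3])]),
  (0, 0, 1, [(0, [0], [2, 5]), (0, [2], [3, 5]), (0, [1], [0, 4]), (4, [], [1])]),
  (0, 0, 1, [(0, [0], [2, 5]), (0, [2], [4, 5]), (0, [1], [1, 3]), (4, [], [0])]),
  (0, 0, 1, [(0, [0], [3, 5]), (0, [2], [0, 5]), (0, [1], [2, 4]), (4, [], [1])]),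
  (0, 0, 1, [(0, [0], [3, 5]), (0, [2], [1, 5]), (0, [1], [0, 2]), (4, [], [4])]),
  (0, 0, 1, [(0, [0], [3, 5]), (0, [2], [1, 5]), (0, [1], [0, 4]), (4, [], [2])]),
  (0, 0, 1, [(0, [0], [3, 5]), (0, [2], [1, 5]), (0, [1], [2, 4]), (4, [], [0])]),
  (0, 0, 1, [(0, [0], [3, 5]), (0, [2], [2, 5]), (0, [1], [0, 4]), (4, [], [1])]),
  (0, 0, 1, [(0, [0], [3, 5]), (0, [2], [4, 5]), (0, [1], [0, 2]), (4, [], [1])]),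
  (0, 0, 1, [(0, [0], [4, 5]), (0, [2], [0, 5]), (0, [1], [1, 3]), (4, [], [2])]),
  (0, 0, 1, [(0, [0], [4, 5]), (0, [2], [1, 5]), (0, [1], [0, 2]), (4, [], [3])]),
  (0, 0, 1, [(0, [0], [4, 5]), (0, [2], [2, 5]), (0, [1], [1, 3]), (4, [], [0])]),
  (0, 0, 1, [(0, [0], [4, 5]), (0, [2], [3, 5]), (0, [1], [0, 2]), (4, [], [1])]),
  (0, 0, 1, [(0, [1], [0, 5]), (0, [2], [1, 5]), (0, [0], [2, 4]), (4, [], [3])]),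
  (0, 0, 1, [(0, [1], [0, 5]), (0, [2], [2, 5]), (0, [0], [1, 3]), (4, [], [4])]),
  (0, 0, 1, [(0, [1], [0, 5]), (0, [2], [3, 5]), (0, [0], [2, 4]), (4, [], [1])]),
  (0, 0, 1, [(0, [1], [0, 5]), (0, [2], [4, 5]), (0, [0], [1, 3]), (4, [], [2])]),
  (0, 0, 1, [(0, [1], [1, 5]), (0, [2], [0, 5]), (0, [0], [2, 4]), (4, [], [3])]),
  (0, 0, 1, [(0, [1], [1, 5]), (0, [2], [2, 5]), (0, [0], [0, 4]), (4, [], [3])]),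
  (0, 0, 1, [(0, [1], [1, 5]), (0, [2], [3, 5]), (0, [0], [0, 2]), (4, [], [4])]),
  (0, 0, 1, [(0, [1], [1, 5]), (0, [2], [3, 5]), (0, [0], [0, 4]), (4, [], [2])]),
  (0, 0, 1, [(0, [1], [1, 5]), (0, [2], [3, 5]), (0, [0], [2, 4]), (4, [], [0])]),
  (0, 0, 1, [(0, [1], [1, 5]), (0, [2], [4, 5]), (0, [0], [0, 2]), (4, [], [3])]),
  (0, 0, 1, [(0, [1], [2, 5]), (0, [2], [0, 5]), (0, [0], [1, 3]), (4, [], [4])]),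
  (0, 0, 1, [(0, [1], [2, 5]), (0, [2], [1, 5]), (0, [0], [0, 4]), (4, [], [3])]),
  (0, 0, 1, [(0, [1], [2, 5]), (0, [2], [3, 5]), (0, [0], [0, 4]), (4, [], [1])]),
  (0, 0, 1, [(0, [1], [2, 5]), (0, [2], [4, 5]), (0, [0], [1, 3]), (4, [], [0])]),
  (0, 0, 1, [(0, [1], [3, 5]), (0, [2], [0, 5]), (0, [0], [2, 4]), (4, [], [1])]),
  (0, 0, 1, [(0, [1], [3, 5]), (0, [2], [1, 5]), (0, [0], [0, 2]), (4, [], [4])]),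
  (0, 0, 1, [(0, [1], [3, 5]), (0, [2], [1, 5]), (0, [0], [0, 4]), (4, [], [2])]),
  (0, 0, 1, [(0, [1], [3, 5]), (0, [2], [1, 5]), (0, [0], [2, 4]), (4, [], [0])]),
  (0, 0, 1, [(0, [1], [3, 5]), (0, [2], [2, 5]), (0, [0], [0, 4]), (4, [], [1])]),
  (0, 0, 1, [(0, [1], [3, 5]), (0, [2], [4, 5]), (0, [0], [0, 2]), (4, [], [1])]),
  (0, 0, 1, [(0, [1], [4, 5]), (0, [2], [0, 5]), (0, [0], [1, 3]), (4, [], [2])]),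
  (0, 0, 1, [(0, [1], [4, 5]), (0, [2], [1, 5]), (0, [0], [0, 2]), (4, [], [3])]),
  (0, 0, 1, [(0, [1], [4, 5]), (0, [2], [2, 5]), (0, [0], [1, 3]), (4, [], [0])]),
  (0, 0, 1, [(0, [1], [4, 5]), (0, [2], [3, 5]), (0, [0], [0, 2]), (4, [], [1])])]

def w34_0 : List (List Wit) := [[(0, 0, 0, 0, 0), (108, 0, 0, 0, 0), (0, 0, 0, 0, 0), (1, 0, 0, 0, 0), (108, 0, 0, 0, 0), (1, 0, 0, 0, 0), (109, 0, 0, 0, 0), (2, 0, 0, 0, 0), (109, 0, 0, 0, 0), (3, 0, 0, 0, 0), (2, 0, 0, 0, 0), (3, 0, 0, 0, 0), (4, 0, 0, 0, 0), (5, 0, 0, 0, 0), (4, 0, 0, 0, 0), (110, 0, 0, 0, 0), (5, 0, 0, 0, 0), (110, 0, 0, 0, 0), (6, 0, 0, 0, 0), (111, 0, 0, 0, 0), (6, 0, 0, 0, 0), (7, 0, 0, 0, 0), (111, 0, 0, 0, 0), (7, 0, 0, 0, 0), (8, 0, 0, 0, 0), (112, 0, 0, 0, 0), (8, 0, 0, 0, 0), (9, 0, 0, 0, 0), (112, 0, 0, 0, 0), (9, 0, 0, 0, 0), (10, 0, 0, 0,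 0), (113, 0, 0, 0, 0), (10, 0, 0, 0, 0), (11, 0, 0, 0, 0), (113, 0, 0, 0, 0), (11, 0, 0, 0, 0), (114, 0, 0, 0, 0), (115, 0, 0, 0, 0), (114, 0, 0, 0, 0), (116, 0, 0, 0, 0), (115, 0, 0, 0, 0), (116, 0, 0, 0, 0), (117, 0, 0, 0, 0), (12, 0, 0, 0, 0), (117, 0, 0, 0, 0), (13, 0, 0, 0, 0), (12, 0, 0, 0, 0), (13, 0, 0, 0, 0), (118, 0, 0, 0, 0), (14, 0, 0, 0, 0), (118, 0, 0, 0, 0), (15, 0, 0, 0, 0), (14, 0, 0, 0, 0), (15, 0, 0, 0, 0), (16, 0, 0, 0, 0), (119, 0, 0, 0, 0), (16, 0, 0, 0, 0), (17, 0, 0, 0, 0), (119, 0, 0, 0, 0), (17, 0, 0, 0, 0), (18, 0, 0, 0, 0), (120, 0, 0, 0, 0), (18, 0, 0, 0, 0), (19, 0, 0, 0, 0), (120, 0, 0, 0, 0), (19, 0, 0, 0, 0), (20, 0, 0, 0, 0), (21, 0, 0, 0, 0), (20, 0, 0, 0, 0), (121, 0, 0, 0, 0), (21, 0, 0, 0, 0), (121, 0, 0, 0, 0), (22, 0, 0, 0, 0), (23, 0, 0, 0, 0), (22, 0, 0, 0, 0), (122, 0, 0,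 0, 0), (23, 0, 0, 0, 0), (122, 0, 0, 0, 0), (123, 0, 0, 0, 0), (124, 0, 0, 0, 0), (123, 0, 0, 0, 0), (125, 0, 0, 0, 0), (124, 0, 0, 0, 0), (125, 0, 0, 0, 0), (24, 0, 0, 0, 0), (126, 0, 0, 0, 0), (24, 0, 0, 0, 0), (25, 0, 0, 0, 0), (126, 0, 0, 0, 0), (25, 0, 0, 0, 0), (26, 0, 0, 0, 0), (127, 0, 0, 0, 0), (26, 0, 0, 0, 0), (27, 0, 0, 0, 0), (127, 0, 0, 0, 0), (27, 0, 0, 0, 0), (28, 0, 0, 0, 0), (128, 0, 0, 0, 0), (28, 0, 0, 0, 0), (29, 0, 0, 0, 0), (128, 0, 0, 0, 0), (29, 0, 0, 0, 0), (129, 0, 0, 0, 0), (30, 0, 0, 0, 0), (129, 0, 0, 0, 0), (31, 0, 0, 0, 0), (30, 0, 0, 0, 0), (31, 0, 0, 0, 0), (32, 0, 0, 0, 0), (33, 0, 0, 0, 0), (32, 0, 0, 0, 0), (130, 0, 0, 0, 0), (33, 0, 0, 0, 0), (130, 0, 0, 0, 0), (34, 0, 0, 0, 0), (131, 0, 0, 0, 0), (34, 0, 0, 0, 0), (35, 0, 0, 0, 0), (131, 0, 0, 0, 0), (35, 0, 0, 0, 0)],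
  [(36, 0, 0, 0, 0), (132, 0, 0, 0, 0), (36, 0, 0, 0, 0), (37, 0, 0, 0, 0), (132, 0, 0, 0, 0), (37, 0, 0, 0, 0), (133, 0, 0, 0, 0), (38, 0, 0, 0, 0), (133, 0, 0, 0, 0), (39, 0, 0, 0, 0), (38, 0, 0, 0, 0), (39, 0, 0, 0, 0), (40, 0, 0, 0, 0), (41, 0, 0, 0, 0), (40, 0, 0, 0, 0), (134, 0, 0, 0, 0), (41, 0, 0, 0, 0), (134, 0, 0, 0, 0), (42, 0, 0, 0, 0), (135, 0, 0, 0, 0), (42, 0, 0, 0, 0), (43, 0, 0, 0, 0), (135, 0, 0, 0, 0), (43, 0, 0, 0, 0), (44, 0, 0, 0, 0), (136, 0, 0, 0, 0), (44, 0, 0, 0, 0), (45, 0, 0, 0, 0), (136, 0, 0, 0, 0), (45, 0, 0, 0, 0), (46, 0, 0, 0, 0), (137, 0, 0, 0, 0), (46, 0, 0, 0, 0), (47, 0, 0, 0, 0), (137, 0, 0, 0, 0), (47, 0, 0, 0, 0), (138, 0, 0, 0, 0), (139, 0, 0, 0, 0), (138, 0, 0, 0, 0), (140, 0, 0, 0, 0), (139, 0, 0, 0, 0), (140, 0, 0, 0, 0), (141, 0, 0, 0, 0), (48, 0, 0, 0, 0), (141, 0, 0,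 0, 0), (49, 0, 0, 0, 0), (48, 0, 0, 0, 0), (49, 0, 0, 0, 0), (142, 0, 0, 0, 0), (50, 0, 0, 0, 0), (142, 0, 0, 0, 0), (51, 0, 0, 0, 0), (50, 0, 0, 0, 0), (51, 0, 0, 0, 0), (52, 0, 0, 0, 0), (143, 0, 0, 0, 0), (52, 0, 0, 0, 0), (53, 0, 0, 0, 0), (143, 0, 0, 0, 0), (53, 0, 0, 0, 0), (54, 0, 0, 0, 0), (144, 0, 0, 0, 0), (54, 0, 0, 0, 0), (55, 0, 0, 0, 0), (144, 0, 0, 0, 0), (55, 0, 0, 0, 0), (56, 0, 0, 0, 0), (57, 0, 0, 0, 0), (56, 0, 0, 0, 0), (145, 0, 0, 0, 0), (57, 0, 0, 0, 0), (145, 0, 0, 0, 0), (58, 0, 0, 0, 0), (59, 0, 0, 0, 0), (58, 0, 0, 0, 0), (146, 0, 0, 0, 0), (59, 0, 0, 0, 0), (146, 0, 0, 0, 0), (147, 0, 0, 0, 0), (148, 0, 0, 0, 0), (147, 0, 0, 0, 0), (149, 0, 0, 0, 0), (148, 0, 0, 0, 0), (149, 0, 0, 0, 0), (60, 0, 0, 0, 0), (150, 0, 0, 0, 0), (60, 0, 0, 0, 0), (61, 0, 0, 0, 0), (150, 0, 0, 0, 0), (61, 0,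 0, 0, 0), (62, 0, 0, 0, 0), (151, 0, 0, 0, 0), (62, 0, 0, 0, 0), (63, 0, 0, 0, 0), (151, 0, 0, 0, 0), (63, 0, 0, 0, 0), (64, 0, 0, 0, 0), (152, 0, 0, 0, 0), (64, 0, 0, 0, 0), (65, 0, 0, 0, 0), (152, 0, 0, 0, 0), (65, 0, 0, 0, 0), (153, 0, 0, 0, 0), (66, 0, 0, 0, 0), (153, 0, 0, 0, 0), (67, 0, 0, 0, 0), (66, 0, 0, 0, 0), (67, 0, 0, 0, 0), (68, 0, 0, 0, 0), (69, 0, 0, 0, 0), (68, 0, 0, 0, 0), (154, 0, 0, 0, 0), (69, 0, 0, 0, 0), (154, 0, 0, 0, 0), (70, 0, 0, 0, 0), (155, 0, 0, 0, 0), (70, 0, 0, 0, 0), (71, 0, 0, 0, 0), (155, 0, 0, 0, 0), (71, 0, 0, 0, 0)],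
  [(8, 0, 0, 0, 0), (112, 0, 0, 0, 0), (8, 0, 0, 0, 0), (9, 0, 0, 0, 0), (112, 0, 0, 0, 0), (9, 0, 0, 0, 0), (118, 0, 0, 0, 0), (14, 0, 0, 0, 0), (118, 0, 0, 0, 0), (15, 0, 0, 0, 0), (14, 0, 0, 0, 0), (15, 0, 0, 0, 0), (22, 0, 0, 0, 0), (23, 0, 0, 0, 0), (22, 0, 0, 0, 0), (122, 0, 0, 0, 0), (23, 0, 0, 0, 0), (122, 0, 0, 0, 0), (28, 0, 0, 0, 0), (128, 0, 0, 0, 0), (28, 0, 0, 0, 0), (29, 0, 0, 0, 0), (128, 0, 0, 0, 0), (29, 0, 0, 0, 0), (0, 0, 0, 0, 0), (108, 0, 0, 0, 0), (0, 0, 0, 0, 0), (1, 0, 0, 0, 0), (108, 0, 0, 0, 0), (1, 0, 0, 0, 0), (16, 0, 0, 0, 0), (119, 0, 0, 0, 0), (16, 0, 0, 0, 0), (17, 0, 0, 0, 0), (119, 0, 0, 0, 0), (17, 0, 0, 0, 0), (123, 0, 0, 0, 0), (124, 0, 0, 0, 0), (123, 0, 0, 0, 0), (125, 0, 0, 0, 0), (124, 0, 0, 0, 0), (125, 0, 0, 0, 0), (129, 0, 0, 0, 0), (30, 0, 0, 0, 0), (129, 0, 0, 0, 0),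 (31, 0, 0, 0, 0), (30, 0, 0, 0, 0), (31, 0, 0, 0, 0), (109, 0, 0, 0, 0), (2, 0, 0, 0, 0), (109, 0, 0, 0, 0), (3, 0, 0, 0, 0), (2, 0, 0, 0, 0), (3, 0, 0, 0, 0), (10, 0, 0, 0, 0), (113, 0, 0, 0, 0), (10, 0, 0, 0, 0), (11, 0, 0, 0, 0), (113, 0, 0, 0, 0), (11, 0, 0, 0, 0), (24, 0, 0, 0, 0), (126, 0, 0, 0, 0), (24, 0, 0, 0, 0), (25, 0, 0, 0, 0), (126, 0, 0, 0, 0), (25, 0, 0, 0, 0), (32, 0, 0, 0, 0), (33, 0, 0, 0, 0), (32, 0, 0, 0, 0), (130, 0, 0, 0, 0), (33, 0, 0, 0, 0), (130, 0, 0, 0, 0), (4, 0, 0, 0, 0), (5, 0, 0, 0, 0), (4, 0, 0, 0, 0), (110, 0, 0, 0, 0), (5, 0, 0, 0, 0), (110, 0, 0, 0, 0), (114, 0, 0, 0, 0), (115, 0, 0, 0, 0), (114, 0, 0, 0, 0), (116, 0, 0, 0, 0), (115, 0, 0, 0, 0), (116, 0, 0, 0, 0), (18, 0, 0, 0, 0), (120, 0, 0, 0, 0), (18, 0, 0, 0, 0), (19, 0, 0, 0, 0), (120, 0, 0, 0, 0), (19, 0, 0, 0, 0), (34,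 0, 0, 0, 0), (131, 0, 0, 0, 0), (34, 0, 0, 0, 0), (35, 0, 0, 0, 0), (131, 0, 0, 0, 0), (35, 0, 0, 0, 0), (6, 0, 0, 0, 0), (111, 0, 0, 0, 0), (6, 0, 0, 0, 0), (7, 0, 0, 0, 0), (111, 0, 0, 0, 0), (7, 0, 0, 0, 0), (117, 0, 0, 0, 0), (12, 0, 0, 0, 0), (117, 0, 0, 0, 0), (13, 0, 0, 0, 0), (12, 0, 0, 0, 0), (13, 0, 0, 0, 0), (20, 0, 0, 0, 0), (21, 0, 0, 0, 0), (20, 0, 0, 0, 0), (121, 0, 0, 0, 0), (21, 0, 0, 0, 0), (121, 0, 0, 0, 0), (26, 0, 0, 0, 0), (127, 0, 0, 0, 0), (26, 0, 0, 0, 0), (27, 0, 0, 0, 0), (127, 0, 0, 0, 0), (27, 0, 0, 0, 0)],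
  [(72, 0, 0, 0, 0), (156, 0, 0, 0, 0), (72, 0, 0, 0, 0), (73, 0, 0, 0, 0), (156, 0, 0, 0, 0), (73, 0, 0, 0, 0), (157, 0, 0, 0, 0), (74, 0, 0, 0, 0), (157, 0, 0, 0, 0), (75, 0, 0, 0, 0), (74, 0, 0, 0, 0), (75, 0, 0, 0, 0), (76, 0, 0, 0, 0), (77, 0, 0, 0, 0), (76, 0, 0, 0, 0), (158, 0, 0, 0, 0), (77, 0, 0, 0, 0), (158, 0, 0, 0, 0), (78, 0, 0, 0, 0), (159, 0, 0, 0, 0), (78, 0, 0, 0, 0), (79, 0, 0, 0, 0), (159, 0, 0, 0, 0), (79, 0, 0, 0, 0), (80, 0, 0, 0, 0), (160, 0, 0, 0, 0), (80, 0, 0, 0, 0), (81, 0, 0, 0, 0), (160, 0, 0, 0, 0), (81, 0, 0, 0, 0), (82, 0, 0, 0, 0), (161, 0, 0, 0, 0), (82, 0, 0, 0, 0), (83, 0, 0, 0, 0), (161, 0, 0, 0, 0), (83, 0, 0, 0, 0), (162, 0, 0, 0, 0), (163, 0, 0, 0, 0), (162, 0, 0, 0, 0), (164, 0, 0, 0, 0), (163, 0, 0, 0, 0), (164, 0, 0, 0, 0), (165, 0, 0, 0, 0), (84, 0, 0, 0, 0), (165, 0, 0,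 0, 0), (85, 0, 0, 0, 0), (84, 0, 0, 0, 0), (85, 0, 0, 0, 0), (166, 0, 0, 0, 0), (86, 0, 0, 0, 0), (166, 0, 0, 0, 0), (87, 0, 0, 0, 0), (86, 0, 0, 0, 0), (87, 0, 0, 0, 0), (88, 0, 0, 0, 0), (167, 0, 0, 0, 0), (88, 0, 0, 0, 0), (89, 0, 0, 0, 0), (167, 0, 0, 0, 0), (89, 0, 0, 0, 0), (90, 0, 0, 0, 0), (168, 0, 0, 0, 0), (90, 0, 0, 0, 0), (91, 0, 0, 0, 0), (168, 0, 0, 0, 0), (91, 0, 0, 0, 0), (92, 0, 0, 0, 0), (93, 0, 0, 0, 0), (92, 0, 0, 0, 0), (169, 0, 0, 0, 0), (93, 0, 0, 0, 0), (169, 0, 0, 0, 0), (94, 0, 0, 0, 0), (95, 0, 0, 0, 0), (94, 0, 0, 0, 0), (170, 0, 0, 0, 0), (95, 0, 0, 0, 0), (170, 0, 0, 0, 0), (171, 0, 0, 0, 0), (172, 0, 0, 0, 0), (171, 0, 0, 0, 0), (173, 0, 0, 0, 0), (172, 0, 0, 0, 0), (173, 0, 0, 0, 0), (96, 0, 0, 0, 0), (174, 0, 0, 0, 0), (96, 0, 0, 0, 0), (97, 0, 0, 0, 0), (174, 0, 0, 0, 0), (97, 0,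 0, 0, 0), (98, 0, 0, 0, 0), (175, 0, 0, 0, 0), (98, 0, 0, 0, 0), (99, 0, 0, 0, 0), (175, 0, 0, 0, 0), (99, 0, 0, 0, 0), (100, 0, 0, 0, 0), (176, 0, 0, 0, 0), (100, 0, 0, 0, 0), (101, 0, 0, 0, 0), (176, 0, 0, 0, 0), (101, 0, 0, 0, 0), (177, 0, 0, 0, 0), (102, 0, 0, 0, 0), (177, 0, 0, 0, 0), (103, 0, 0, 0, 0), (102, 0, 0, 0, 0), (103, 0, 0, 0, 0), (104, 0, 0, 0, 0), (105, 0, 0, 0, 0), (104, 0, 0, 0, 0), (178, 0, 0, 0, 0), (105, 0, 0, 0, 0), (178, 0, 0, 0, 0), (106, 0, 0, 0, 0), (179, 0, 0, 0, 0), (106, 0, 0, 0, 0), (107, 0, 0, 0, 0), (179, 0, 0, 0, 0), (107, 0, 0, 0, 0)],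
  [(44, 0, 0, 0, 0), (136, 0, 0, 0, 0), (44, 0, 0, 0, 0), (45, 0, 0, 0, 0), (136, 0, 0, 0, 0), (45, 0, 0, 0, 0), (142, 0, 0, 0, 0), (50, 0, 0, 0, 0), (142, 0, 0, 0, 0), (51, 0, 0, 0, 0), (50, 0, 0, 0, 0), (51, 0, 0, 0, 0), (58, 0, 0, 0, 0), (59, 0, 0, 0, 0), (58, 0, 0, 0, 0), (146, 0, 0, 0, 0), (59, 0, 0, 0, 0), (146, 0, 0, 0, 0), (64, 0, 0, 0, 0), (152, 0, 0, 0, 0), (64, 0, 0, 0, 0), (65, 0, 0, 0, 0), (152, 0, 0, 0, 0), (65, 0, 0, 0, 0), (36, 0, 0, 0, 0), (132, 0, 0, 0, 0), (36, 0, 0, 0, 0), (37, 0, 0, 0, 0), (132, 0, 0, 0, 0), (37, 0, 0, 0, 0), (52, 0, 0, 0, 0), (143, 0, 0, 0, 0), (52, 0, 0, 0, 0), (53, 0, 0, 0, 0), (143, 0, 0, 0, 0), (53, 0, 0, 0, 0), (147, 0, 0, 0, 0), (148, 0, 0, 0, 0), (147, 0, 0, 0, 0), (149, 0, 0, 0, 0), (148, 0, 0, 0, 0), (149, 0, 0, 0, 0), (153, 0, 0, 0, 0), (66, 0, 0, 0, 0), (153, 0, 0,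 0, 0), (67, 0, 0, 0, 0), (66, 0, 0, 0, 0), (67, 0, 0, 0, 0), (133, 0, 0, 0, 0), (38, 0, 0, 0, 0), (133, 0, 0, 0, 0), (39, 0, 0, 0, 0), (38, 0, 0, 0, 0), (39, 0, 0, 0, 0), (46, 0, 0, 0, 0), (137, 0, 0, 0, 0), (46, 0, 0, 0, 0), (47, 0, 0, 0, 0), (137, 0, 0, 0, 0), (47, 0, 0, 0, 0), (60, 0, 0, 0, 0), (150, 0, 0, 0, 0), (60, 0, 0, 0, 0), (61, 0, 0, 0, 0), (150, 0, 0, 0, 0), (61, 0, 0, 0, 0), (68, 0, 0, 0, 0), (69, 0, 0, 0, 0), (68, 0, 0, 0, 0), (154, 0, 0, 0, 0), (69, 0, 0, 0, 0), (154, 0, 0, 0, 0), (40, 0, 0, 0, 0), (41, 0, 0, 0, 0), (40, 0, 0, 0, 0), (134, 0, 0, 0, 0), (41, 0, 0, 0, 0), (134, 0, 0, 0, 0), (138, 0, 0, 0, 0), (139, 0, 0, 0, 0), (138, 0, 0, 0, 0), (140, 0, 0, 0, 0), (139, 0, 0, 0, 0), (140, 0, 0, 0, 0), (54, 0, 0, 0, 0), (144, 0, 0, 0, 0), (54, 0, 0, 0, 0), (55, 0, 0, 0, 0), (144, 0, 0, 0, 0), (55, 0,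 0, 0, 0), (70, 0, 0, 0, 0), (155, 0, 0, 0, 0), (70, 0, 0, 0, 0), (71, 0, 0, 0, 0), (155, 0, 0, 0, 0), (71, 0, 0, 0, 0), (42, 0, 0, 0, 0), (135, 0, 0, 0, 0), (42, 0, 0, 0, 0), (43, 0, 0, 0, 0), (135, 0, 0, 0, 0), (43, 0, 0, 0, 0), (141, 0, 0, 0, 0), (48, 0, 0, 0, 0), (141, 0, 0, 0, 0), (49, 0, 0, 0, 0), (48, 0, 0, 0, 0), (49, 0, 0, 0, 0), (56, 0, 0, 0, 0), (57, 0, 0, 0, 0), (56, 0, 0, 0, 0), (145, 0, 0, 0, 0), (57, 0, 0, 0, 0), (145, 0, 0, 0, 0), (62, 0, 0, 0, 0), (151, 0, 0, 0, 0), (62, 0, 0, 0, 0), (63, 0, 0, 0, 0), (151, 0, 0, 0, 0), (63, 0, 0, 0, 0)],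
  [(80, 0, 0, 0, 0), (160, 0, 0, 0, 0), (80, 0, 0, 0, 0), (81, 0, 0, 0, 0), (160, 0, 0, 0, 0), (81, 0, 0, 0, 0), (166, 0, 0, 0, 0), (86, 0, 0, 0, 0), (166, 0, 0, 0, 0), (87, 0, 0, 0, 0), (86, 0, 0, 0, 0), (87, 0, 0, 0, 0), (94, 0, 0, 0, 0), (95, 0, 0, 0, 0), (94, 0, 0, 0, 0), (170, 0, 0, 0, 0), (95, 0, 0, 0, 0), (170, 0, 0, 0, 0), (100, 0, 0, 0, 0), (176, 0, 0, 0, 0), (100, 0, 0, 0, 0), (101, 0, 0, 0, 0), (176, 0, 0, 0, 0), (101, 0, 0, 0, 0), (72, 0, 0, 0, 0), (156, 0, 0, 0, 0), (72, 0, 0, 0, 0), (73, 0, 0, 0, 0), (156, 0, 0, 0, 0), (73, 0, 0, 0, 0), (88, 0, 0, 0, 0), (167, 0, 0, 0, 0), (88, 0, 0, 0, 0), (89, 0, 0, 0, 0), (167, 0, 0, 0, 0), (89, 0, 0, 0, 0), (171, 0, 0, 0, 0), (172, 0, 0, 0, 0), (171, 0, 0, 0, 0), (173, 0, 0, 0, 0), (172, 0, 0, 0, 0), (173, 0, 0, 0, 0), (177, 0, 0, 0, 0), (102, 0, 0, 0, 0), (177,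 0, 0, 0, 0), (103, 0, 0, 0, 0), (102, 0, 0, 0, 0), (103, 0, 0, 0, 0), (157, 0, 0, 0, 0), (74, 0, 0, 0, 0), (157, 0, 0, 0, 0), (75, 0, 0, 0, 0), (74, 0, 0, 0, 0), (75, 0, 0, 0, 0), (82, 0, 0, 0, 0), (161, 0, 0, 0, 0), (82, 0, 0, 0, 0), (83, 0, 0, 0, 0), (161, 0, 0, 0, 0), (83, 0, 0, 0, 0), (96, 0, 0, 0, 0), (174, 0, 0, 0, 0), (96, 0, 0, 0, 0), (97, 0, 0, 0, 0), (174, 0, 0, 0, 0), (97, 0, 0, 0, 0), (104, 0, 0, 0, 0), (105, 0, 0, 0, 0), (104, 0, 0, 0, 0), (178, 0, 0, 0, 0), (105, 0, 0, 0, 0), (178, 0, 0, 0, 0), (76, 0, 0, 0, 0), (77, 0, 0, 0, 0), (76, 0, 0, 0, 0), (158, 0, 0, 0, 0), (77, 0, 0, 0, 0), (158, 0, 0, 0, 0), (162, 0, 0, 0, 0), (163, 0, 0, 0, 0), (162, 0, 0, 0, 0), (164, 0, 0, 0, 0), (163, 0, 0, 0, 0), (164, 0, 0, 0, 0), (90, 0, 0, 0, 0), (168, 0, 0, 0, 0), (90, 0, 0, 0, 0), (91, 0, 0, 0, 0), (168, 0, 0, 0,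 0), (91, 0, 0, 0, 0), (106, 0, 0, 0, 0), (179, 0, 0, 0, 0), (106, 0, 0, 0, 0), (107, 0, 0, 0, 0), (179, 0, 0, 0, 0), (107, 0, 0, 0, 0), (78, 0, 0, 0, 0), (159, 0, 0, 0, 0), (78, 0, 0, 0, 0), (79, 0, 0, 0, 0), (159, 0, 0, 0, 0), (79, 0, 0, 0, 0), (165, 0, 0, 0, 0), (84, 0, 0, 0, 0), (165, 0, 0, 0, 0), (85, 0, 0, 0, 0), (84, 0, 0, 0, 0), (85, 0, 0, 0, 0), (92, 0, 0, 0, 0), (93, 0, 0, 0, 0), (92, 0, 0, 0, 0), (169, 0, 0, 0, 0), (93, 0, 0, 0, 0), (169, 0, 0, 0, 0), (98, 0, 0, 0, 0), (175, 0, 0, 0, 0), (98, 0, 0, 0, 0), (99, 0, 0, 0, 0), (175, 0, 0, 0, 0), (99, 0, 0, 0, 0)]]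

theorem tr34 : trK keys lk34 kl34 = true := by
  decide +kernel

theorem x34_0 : expB 3 5 dg3 dg8 m34_0 (l34_0 ++ z34_0) w34_0 = true := by
  decide +kernel

theorem t34_0_0 : chkS lk34 3 5 [(1, m34_0)] l34_0
  [(13, 33, 258, 103026771, 101975346), (17, 528, 528, 34887216, 36968016), (20, 528, 528, 34891056, 52696656), (6, 18, 18, 55640676, 22045251), (16, 528, 528, 34891056, 52696656), (20, 528, 528, 34887216, 36968016), (6, 18, 18, 87429156, 73421106), (8, 18, 18, 86380596, 73405746), (14, 33, 258, 87298146, 23351346), (23, 33, 258, 88211811, 23397411), (21, 18, 18, 55837026, 22306851), (5, 18, 18, 54592101, 17130051), (5, 33, 258, 70582626, 21385251), (7, 33, 258, 69537891, 21366066), (27, 33, 258, 72552486, 5652786), (5, 33, 258, 54592086, 1401411), (16, 513, 513, 34887171, 36963921), (6, 33, 258, 55640646, 5333571),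 (31, 528, 528, 51733056, 54616656), (29, 528, 528, 50684481, 54616581), (29, 33, 258, 73732131, 88473906), (20, 33, 258, 55837026, 22306851), (21, 33, 258, 55840806, 5529906), (27, 33, 258, 72548646, 5652771), (31, 528, 528, 51717696, 37839696), (29, 528, 528, 50669121, 37839621), (29, 33, 258, 73728291, 88473891), (22, 33, 258, 56954916, 88105266), (5, 18, 18, 70586406, 4608306), (7, 18, 18, 69537846, 4592946), (6, 33, 258, 87425346, 73486371), (8, 33, 258, 86380611, 73467186), (29, 18, 18, 73732146, 88477746), (22, 18, 18, 56951106, 88170531), (29, 18, 18, 73728306, 88477731), (20, 18, 18, 55840806, 5529906), (18, 528, 528, 34891056, 52696656), (19, 528, 528, 34887216, 36968016), (4, 33, 258, 40177731, 88147506), (12, 528, 528, 35017776, 70391376), (15, 528, 528, 34887216, 36968016), (4, 33, 258, 40173891, 88147491),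 (12, 288, 288, 19096896, 52512096), (11, 18, 18, 38998116, 22038066), (25, 18, 18, 55840866, 22306866), (26, 18, 18, 55837026, 22306851), (21, 18, 18, 40112211, 85198386), (10, 528, 528, 33969201, 70391301), (27, 18, 18, 40042836, 84952611), (0, 528, 528, 19162371, 52692321), (5, 513, 513, 102847491, 103941441), (27, 513, 513, 100869396, 102777621), (30, 513, 513, 85206531, 40108881), (28, 258, 33, 102827061, 100799811), (1, 513, 513, 101926146, 102973521), (2, 33, 258, 40173891, 88147491), (3, 513, 513, 101929986, 103956561), (9, 513, 513, 67446291, 38142741), (21, 513, 513, 101995011, 104071761), (5, 513, 513, 102843651, 102958401), (1, 513, 513, 101929986, 103956561), (2, 33, 258, 40177731, 88147506), (3, 513, 513, 101926146, 102973521), (10, 33, 258, 5321286, 5321286), (10, 288, 288, 2188611, 52495686), (0, 288,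 288, 34825536, 52512336), (28, 18, 18, 40173876, 88086051), (24, 18, 18, 39063606, 5510706), (2, 513, 513, 101929986, 103956561), (10, 513, 513, 84288531, 73532181), (2, 513, 513, 101926146, 102973521), (12, 513, 513, 85344771, 73597521), (25, 33, 258, 55840806, 5529906), (26, 33, 258, 55836966, 5529891), (5, 18, 18, 40177731, 88147506), (10, 513, 513, 33969171, 70387221), (21, 33, 258, 40108341, 84153891), (5, 18, 18, 40173891, 88147491), (27, 33, 258, 40046661, 83969586), (0, 513, 513, 19162416, 52696416), (18, 513, 513, 34891011, 52692561), (19, 513, 513, 34887171, 36963921), (15, 528, 528, 101983536, 103027536), (12, 513, 513, 35017731, 70387281), (12, 258, 33, 19092996, 36717921), (11, 33, 258, 38998086, 5326386), (9, 18, 18, 56954946, 88170546), (28, 288, 288, 102827091, 101844291), (21, 528, 528, 101983536,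 103027536), (27, 528, 528, 100869441, 102843141), (1, 528, 528, 101926176, 102973776), (3, 18, 18, 40173891, 88147491), (3, 528, 528, 101930016, 103956816), (10, 18, 18, 5317476, 22029126), (30, 528, 528, 85221936, 56889936), (9, 18, 18, 56951106, 88170531), (1, 528, 528, 101930016, 103956816), (3, 18, 18, 40177731, 88147506), (3, 528, 528, 101926176, 102973776), (9, 528, 528, 67461681, 54923781), (28, 33, 258, 40177731, 88147506), (24, 33, 258, 39063651, 22283826), (10, 258, 33, 2184756, 36705606), (0, 258, 33, 34825476, 52446801), (2, 528, 528, 101930016, 103956816), (12, 528, 528, 85337136, 73536336), (2, 528, 528, 101926176, 102973776), (10, 528, 528, 84296241, 73601541)]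
  [(0, 384), (4, -576), (5, 1536), (6, -384), (7, -192), (8, 192), (9, -384), (10, -768), (11, -192), (12, 576), (13, 192), (14, -192), (15, 384), (16, -384), (17, -192), (18, -384), (19, 384), (20, 384), (21, -384), (22, 192), (23, 192), (24, -192), (25, 384), (26, -384), (27, -960), (28, 384), (30, 384), (31, 0)] = true := by
  decide +kernel

section

variable {κ ι : Type*} [Fintype κ] [Fintype ι] [Inhabited κ] [Inhabited ι]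

noncomputable def F34_0 (E : Env κ ι) : (Fin 3 → κ) → (Fin 5 → ι) → ℝ := op2 (P3 κ) (P8 ι) (fB E 3 5 m34_0)

def r34_0_0 : List (ℕ × ℤ) := [(0, 384), (4, -576), (5, 1536), (6, -384), (7, -192), (8, 192), (9, -384), (10, -768), (11, -192), (12, 576), (13, 192), (14, -192), (15, 384), (16, -384), (17, -192), (18, -384), (19, 384), (20, 384), (21, -384), (22, 192), (23, 192), (24, -192), (25, 384), (26, -384), (27, -960), (28, 384), (30, 384), (31, 0)]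

theorem h34_0_0 (E : Env κ ι) : ip (F34_0 E) (F34_0 E) = dotS (ek E lk34) r34_0_0 :=
  op_entryZ E lk34 3 5 _ _ _ _ (pg3 κ) (pg8 ι) m34_0 m34_0 l34_0 z34_0 w34_0 x34_0 (by decide) _ (chkS_sound E lk34 3 5 _ _ _ _ t34_0_0)

theorem row34_0 (E : Env κ ι) : RowG (ek E lk34) (F34_0 E) [F34_0 E] [r34_0_0] :=
  rowG_cons _ _ _ _ _ _ (h34_0_0 E) (rowG_nil _ _)

def tab34 : List (List (List (ℕ × ℤ))) := [[r34_0_0]]

theorem tri34 (E : Env κ ι) : TriG (ek E lk34) [F34_0 E] tab34 := by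
  refine triG_cons _ _ _ _ _ (row34_0 E) ?_
  exact triG_nil _

end

def lk35 : List Key := [
  (3, 7, [(0, [0], [0, 1]), (0, [1], [0, 2]), (0, [0], [2, 3]), (0, [2], [1, 4]), (0, [1], [5, 6]), (0, [2], [5, 6]), (4, [], [3]), (4, [], [4])]),
  (3, 7, [(0, [0], [0, 1]), (0, [0], [0, 2]), (0, [1], [3, 2]), (4, [], [1]), (0, [2], [4, 5]), (0, [2], [3, 6]), (0, [1], [4, 6]), (4, [], [5])]),
  (3, 7, [(0, [0], [0, 1]), (0, [0], [0, 2]), (0, [1], [3, 2]), (4, [], [1]), (0, [2], [4, 5]), (0, [2], [3, 4]), (0, [1], [5, 6]), (4, [], [6])]),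
  (3, 7, [(0, [0], [0, 1]), (0, [0], [0, 1]), (0, [1], [2, 3]), (4, [], [3]), (0, [2], [4, 5]), (0, [2], [2, 6]), (0, [1], [4, 6]), (4, [], [5])]),
  (3, 7, [(0, [0], [0, 1]), (0, [0], [0, 1]), (0, [1], [2, 3]), (4, [], [3]), (0, [2], [4, 5]), (0, [2], [2, 4]), (0, [1], [5, 6]), (4, [], [6])]),
  (3, 7, [(0, [0], [0, 1]), (0, [0], [2, 3]), (0, [1], [0, 3]), (4, [], [1]), (0, [2], [4, 5]), (0, [2], [2, 6]), (0, [1], [4, 6]), (4, [], [5])]),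
  (3, 7, [(0, [0], [0, 1]), (0, [0], [2, 3]), (0, [1], [0, 3]), (4, [], [1]), (0, [2], [4, 5]), (0, [2], [2, 4]), (0, [1], [5, 6]), (4, [], [6])]),
  (3, 7, [(0, [0], [0, 1]), (0, [0], [2, 3]), (0, [1], [0, 1]), (4, [], [3]), (0, [2], [4, 5]), (0, [2], [2, 4]), (0, [1], [5, 6]), (4, [], [6])]),
  (3, 7, [(0, [0], [0, 1]), (0, [0], [2, 0]), (0, [1], [1, 3]), (4, [], [3]), (0, [2], [4, 5]), (0, [2], [2, 4]), (0, [1], [5, 6]), (4, [], [6])]),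
  (3, 7, [(0, [0], [0, 1]), (0, [0], [0, 1]), (0, [1], [2, 3]), (4, [], [4]), (0, [2], [5, 6]), (0, [2], [2, 5]), (0, [1], [3, 6]), (4, [], [4])]),
  (3, 7, [(0, [0], [0, 1]), (0, [0], [0, 1]), (0, [1], [2, 3]), (4, [], [4]), (0, [2], [2, 5]), (0, [2], [3, 6]), (0, [1], [5, 6]), (4, [], [4])]),
  (3, 7, [(0, [0], [0, 1]), (0, [0], [2, 0]), (0, [1], [3, 1]), (4, [], [4]), (0, [2], [5, 6]), (0, [2], [2, 5]), (0, [1], [3, 6]), (4, [], [4])]),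
  (3, 7, [(0, [0], [0, 1]), (0, [0], [2, 0]), (0, [1], [3, 1]), (4, [], [4]), (0, [2], [5, 6]), (0, [2], [3, 5]), (0, [1], [2, 6]), (4, [], [4])]),
  (3, 7, [(0, [0], [0, 1]), (0, [0], [2, 0]), (0, [1], [3, 1]), (4, [], [4]), (0, [2], [5, 6]), (0, [2], [4, 5]), (0, [1], [2, 3]), (4, [], [6])]),
  (3, 7, [(0, [0], [0, 1]), (0, [0], [2, 0]), (0, [1], [3, 1]), (4, [], [4]), (0, [2], [5, 6]), (0, [2], [2, 3]), (0, [1], [5, 6]), (4, [], [4])]),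
  (3, 7, [(0, [0], [0, 1]), (0, [0], [2, 0]), (0, [1], [3, 1]), (4, [], [4]), (0, [2], [5, 6]), (0, [2], [2, 3]), (0, [1], [4, 5]), (4, [], [6])]),
  (3, 7, [(0, [0], [0, 1]), (0, [0], [2, 0]), (0, [1], [3, 1]), (4, [], [4]), (0, [2], [5, 6]), (0, [2], [3, 4]), (0, [1], [2, 5]), (4, [], [6])]),
  (3, 7, [(0, [0], [0, 1]), (0, [0], [2, 0]), (0, [1], [3, 1]), (4, [], [4]), (0, [2], [2, 5]), (0, [2], [3, 6]), (0, [1], [5, 6]), (4, [], [4])]),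
  (3, 7, [(0, [0], [0, 1]), (0, [0], [2, 0]), (0, [1], [3, 1]), (4, [], [4]), (0, [2], [3, 5]), (0, [2], [2, 6]), (0, [1], [4, 6]), (4, [], [5])]),
  (3, 7, [(0, [0], [0, 1]), (0, [0], [2, 0]), (0, [1], [3, 4]), (4, [], [1]), (0, [2], [3, 5]), (0, [2], [4, 6]), (0, [1], [5, 6]), (4, [], [2])]),
  (3, 7, [(0, [0], [0, 1]), (0, [0], [2, 3]), (0, [1], [0, 1]), (4, [], [4]), (0, [2], [5, 6]), (0, [2], [2, 4]), (0, [1], [3, 5]), (4, [], [6])]),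
  (3, 7, [(0, [0], [0, 1]), (0, [0], [2, 3]), (0, [1], [0, 1]), (4, [], [4]), (0, [2], [2, 5]), (0, [2], [3, 6]), (0, [1], [5, 6]), (4, [], [4])]),
  (3, 7, [(0, [0], [0, 1]), (0, [0], [2, 3]), (0, [1], [4, 0]), (4, [], [1]), (0, [2], [2, 5]), (0, [2], [3, 6]), (0, [1], [5, 6]), (4, [], [4])]),
  (3, 7, [(0, [0], [0, 1]), (0, [0], [2, 3]), (0, [1], [4, 0]), (4, [], [1]), (0, [2], [2, 5]), (0, [2], [4, 6]), (0, [1], [5, 6]), (4, [], [3])]),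
  (3, 7, [(0, [0], [0, 1]), (0, [0], [2, 3]), (0, [1], [4, 0]), (4, [], [1]), (0, [2], [2, 5]), (0, [2], [4, 6]), (0, [1], [3, 6]), (4, [], [5])]),
  (3, 7, [(0, [0], [0, 1]), (0, [0], [2, 3]), (0, [1], [1, 3]), (4, [], [4]), (0, [2], [0, 5]), (0, [2], [2, 6]), (0, [1], [5, 6]), (4, [], [4])])]

def kl35 : List ℕ := [57, 111, 112, 119, 120, 125, 126, 133, 144, 204, 206, 216, 217, 218, 219, 220, 221, 222, 223, 253, 267, 268, 285, 286, 287, 302]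

def m35_0 : Base := (0, 1, [(0, [0], [0, 5]), (0, [1], [1, 2]), (0, [2], [3, 5]), (4, [], [4])])

def l35_0 : Cov := [(480, 0, 1, [(0, [0], [0, 5]), (0, [1], [1, 2]), (0, [2], [3, 5]), (4, [], [4])]),
  (-480, 0, 1, [(0, [0], [0, 5]), (0, [1], [1, 2]), (0, [2], [4, 5]), (4, [], [3])]),
  (-480, 0, 1, [(0, [0], [0, 5]), (0, [1], [1, 3]), (0, [2], [2, 5]), (4, [], [4])]),
  (480, 0, 1, [(0, [0], [0, 5]), (0, [1], [1, 3]), (0, [2], [4, 5]), (4, [], [2])]),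
  (480, 0, 1, [(0, [0], [0, 5]), (0, [1], [1, 4]), (0, [2], [2, 5]), (4, [], [3])]),
  (-480, 0, 1, [(0, [0], [0, 5]), (0, [1], [1, 4]), (0, [2], [3, 5]), (4, [], [2])]),
  (-480, 0, 1, [(0, [0], [2, 5]), (0, [1], [0, 1]), (0, [2], [3, 5]), (4, [], [4])]),
  (480, 0, 1, [(0, [0], [2, 5]), (0, [1], [0, 1]), (0, [2], [4, 5]), (4, [], [3])]),
  (480, 0, 1, [(0, [0], [2, 5]), (0, [1], [1, 3]), (0, [2], [0, 5]), (4, [], [4])]),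
  (-480, 0, 1, [(0, [0], [2, 5]), (0, [1], [1, 3]), (0, [2], [4, 5]), (4, [], [0])]),
  (-480, 0, 1, [(0, [0], [2, 5]), (0, [1], [1, 4]), (0, [2], [0, 5]), (4, [], [3])]),
  (480, 0, 1, [(0, [0], [2, 5]), (0, [1], [1, 4]), (0, [2], [3, 5]), (4, [], [0])]),
  (480, 0, 1, [(0, [0], [3, 5]), (0, [1], [0, 1]), (0, [2], [2, 5]), (4, [], [4])]),
  (-480, 0, 1, [(0, [0], [3, 5]), (0, [1], [0, 1]), (0, [2], [4, 5]), (4, [], [2])]),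
  (-480, 0, 1, [(0, [0], [3, 5]), (0, [1], [1, 2]), (0, [2], [0, 5]), (4, [], [4])]),
  (480, 0, 1, [(0, [0], [3, 5]), (0, [1], [1, 2]), (0, [2], [4, 5]), (4, [], [0])]),
  (480, 0, 1, [(0, [0], [3, 5]), (0, [1], [1, 4]), (0, [2], [0, 5]), (4, [], [2])]),
  (-480, 0, 1, [(0, [0], [3, 5]), (0, [1], [1, 4]), (0, [2], [2, 5]), (4, [], [0])]),
  (-480, 0, 1, [(0, [0], [4, 5]), (0, [1], [0, 1]), (0, [2], [2, 5]), (4, [], [3])]),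
  (480, 0, 1, [(0, [0], [4, 5]), (0, [1], [0, 1]), (0, [2], [3, 5]), (4, [], [2])]),
  (480, 0, 1, [(0, [0], [4, 5]), (0, [1], [1, 2]), (0, [2], [0, 5]), (4, [], [3])]),
  (-480, 0, 1, [(0, [0], [4, 5]), (0, [1], [1, 2]), (0, [2], [3, 5]), (4, [], [0])]),
  (-480, 0, 1, [(0, [0], [4, 5]), (0, [1], [1, 3]), (0, [2], [0, 5]), (4, [], [2])]),
  (480, 0, 1, [(0, [0], [4, 5]), (0, [1], [1, 3]), (0, [2], [2, 5]), (4, [], [0])]),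
  (240, 0, 1, [(0, [0], [0, 5]), (0, [2], [1, 2]), (0, [1], [3, 5]), (4, [], [4])]),
  (-240, 0, 1, [(0, [0], [0, 5]), (0, [2], [1, 2]), (0, [1], [4, 5]), (4, [], [3])]),
  (-240, 0, 1, [(0, [0], [0, 5]), (0, [2], [1, 3]), (0, [1], [2, 5]), (4, [], [4])]),
  (240, 0, 1, [(0, [0], [0, 5]), (0, [2], [1, 3]), (0, [1], [4, 5]), (4, [], [2])]),
  (240, 0, 1, [(0, [0], [0, 5]), (0, [2], [1, 4]), (0, [1], [2, 5]), (4, [], [3])]),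
  (-240, 0, 1, [(0, [0], [0, 5]), (0, [2], [1, 4]), (0, [1], [3, 5]), (4, [], [2])]),
  (-240, 0, 1, [(0, [0], [2, 5]), (0, [2], [0, 1]), (0, [1], [3, 5]), (4, [], [4])]),
  (240, 0, 1, [(0, [0], [2, 5]), (0, [2], [0, 1]), (0, [1], [4, 5]), (4, [], [3])]),
  (240, 0, 1, [(0, [0], [2, 5]), (0, [2], [1, 3]), (0, [1], [0, 5]), (4, [], [4])]),
  (-240, 0, 1, [(0, [0], [2, 5]), (0, [2], [1, 3]), (0, [1], [4, 5]), (4, [], [0])]),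
  (-240, 0, 1, [(0, [0], [2, 5]), (0, [2], [1, 4]), (0, [1], [0, 5]), (4, [], [3])]),
  (240, 0, 1, [(0, [0], [2, 5]), (0, [2], [1, 4]), (0, [1], [3, 5]), (4, [], [0])]),
  (240, 0, 1, [(0, [0], [3, 5]), (0, [2], [0, 1]), (0, [1], [2, 5]), (4, [], [4])]),
  (-240, 0, 1, [(0, [0], [3, 5]), (0, [2], [0, 1]), (0, [1], [4, 5]), (4, [], [2])]),
  (-240, 0, 1, [(0, [0], [3, 5]), (0, [2], [1, 2]), (0, [1], [0, 5]), (4, [], [4])]),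
  (240, 0, 1, [(0, [0], [3, 5]), (0, [2], [1, 2]), (0, [1], [4, 5]), (4, [], [0])]),
  (240, 0, 1, [(0, [0], [3, 5]), (0, [2], [1, 4]), (0, [1], [0, 5]), (4, [], [2])]),
  (-240, 0, 1, [(0, [0], [3, 5]), (0, [2], [1, 4]), (0, [1], [2, 5]), (4, [], [0])]),
  (-240, 0, 1, [(0, [0], [4, 5]), (0, [2], [0, 1]), (0, [1], [2, 5]), (4, [], [3])]),
  (240, 0, 1, [(0, [0], [4, 5]), (0, [2], [0, 1]), (0, [1], [3, 5]), (4, [], [2])]),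
  (240, 0, 1, [(0, [0], [4, 5]), (0, [2], [1, 2]), (0, [1], [0, 5]), (4, [], [3])]),
  (-240, 0, 1, [(0, [0], [4, 5]), (0, [2], [1, 2]), (0, [1], [3, 5]), (4, [], [0])]),
  (-240, 0, 1, [(0, [0], [4, 5]), (0, [2], [1, 3]), (0, [1], [0, 5]), (4, [], [2])]),
  (240, 0, 1, [(0, [0], [4, 5]), (0, [2], [1, 3]), (0, [1], [2, 5]), (4, [], [0])]),
  (240, 0, 1, [(0, [1], [0, 5]), (0, [0], [1, 2]), (0, [2], [3, 5]), (4, [], [4])]),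
  (-240, 0, 1, [(0, [1], [0, 5]), (0, [0], [1, 2]), (0, [2], [4, 5]), (4, [], [3])]),
  (-240, 0, 1, [(0, [1], [0, 5]), (0, [0], [1, 3]), (0, [2], [2, 5]), (4, [], [4])]),
  (240, 0, 1, [(0, [1], [0, 5]), (0, [0], [1, 3]), (0, [2], [4, 5]), (4, [], [2])]),
  (240, 0, 1, [(0, [1], [0, 5]), (0, [0], [1, 4]), (0, [2], [2, 5]), (4, [], [3])]),
  (-240, 0, 1, [(0, [1], [0, 5]), (0, [0], [1, 4]), (0, [2], [3, 5]), (4, [], [2])]),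
  (-240, 0, 1, [(0, [1], [2, 5]), (0, [0], [0, 1]), (0, [2], [3, 5]), (4, [], [4])]),
  (240, 0, 1, [(0, [1], [2, 5]), (0, [0], [0, 1]), (0, [2], [4, 5]), (4, [], [3])]),
  (240, 0, 1, [(0, [1], [2, 5]), (0, [0], [1, 3]), (0, [2], [0, 5]), (4, [], [4])]),
  (-240, 0, 1, [(0, [1], [2, 5]), (0, [0], [1, 3]), (0, [2], [4, 5]), (4, [], [0])]),
  (-240, 0, 1, [(0, [1], [2, 5]), (0, [0], [1, 4]), (0, [2], [0, 5]), (4, [], [3])]),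
  (240, 0, 1, [(0, [1], [2, 5]), (0, [0], [1, 4]), (0, [2], [3, 5]), (4, [], [0])]),
  (240, 0, 1, [(0, [1], [3, 5]), (0, [0], [0, 1]), (0, [2], [2, 5]), (4, [], [4])]),
  (-240, 0, 1, [(0, [1], [3, 5]), (0, [0], [0, 1]), (0, [2], [4, 5]), (4, [], [2])]),
  (-240, 0, 1, [(0, [1], [3, 5]), (0, [0], [1, 2]), (0, [2], [0, 5]), (4, [], [4])]),
  (240, 0, 1, [(0, [1], [3, 5]), (0, [0], [1, 2]), (0, [2], [4, 5]), (4, [], [0])]),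
  (240, 0, 1, [(0, [1], [3, 5]), (0, [0], [1, 4]), (0, [2], [0, 5]), (4, [], [2])]),
  (-240, 0, 1, [(0, [1], [3, 5]), (0, [0], [1, 4]), (0, [2], [2, 5]), (4, [], [0])]),
  (-240, 0, 1, [(0, [1], [4, 5]), (0, [0], [0, 1]), (0, [2], [2, 5]), (4, [], [3])]),
  (240, 0, 1, [(0, [1], [4, 5]), (0, [0], [0, 1]), (0, [2], [3, 5]), (4, [], [2])]),
  (240, 0, 1, [(0, [1], [4, 5]), (0, [0], [1, 2]), (0, [2], [0, 5]), (4, [], [3])]),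
  (-240, 0, 1, [(0, [1], [4, 5]), (0, [0], [1, 2]), (0, [2], [3, 5]), (4, [], [0])]),
  (-240, 0, 1, [(0, [1], [4, 5]), (0, [0], [1, 3]), (0, [2], [0, 5]), (4, [], [2])]),
  (240, 0, 1, [(0, [1], [4, 5]), (0, [0], [1, 3]), (0, [2], [2, 5]), (4, [], [0])])]

def z35_0 : Cov := [(0, 0, 1, [(0, [0], [0, 5]), (0, [1], [2, 3]), (0, [2], [1, 5]), (4, [], [4])]),
  (0, 0, 1, [(0, [0], [0, 5]), (0, [1], [2, 3]), (0, [2], [4, 5]), (4, [], [1])]),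
  (0, 0, 1, [(0, [0], [0, 5]), (0, [1], [2, 4]), (0, [2], [1, 5]), (4, [], [3])]),
  (0, 0, 1, [(0, [0], [0, 5]), (0, [1], [2, 4]), (0, [2], [3, 5]), (4, [], [1])]),
  (0, 0, 1, [(0, [0], [0, 5]), (0, [1], [3, 4]), (0, [2], [1, 5]), (4, [], [2])]),
  (0, 0, 1, [(0, [0], [0, 5]), (0, [1], [3, 4]), (0, [2], [2, 5]), (4, [], [1])]),
  (0, 0, 1, [(0, [0], [1, 5]), (0, [1], [0, 2]), (0, [2], [3, 5]), (4, [], [4])]),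
  (0, 0, 1, [(0, [0], [1, 5]), (0, [1], [0, 2]), (0, [2], [4, 5]), (4, [], [3])]),
  (0, 0, 1, [(0, [0], [1, 5]), (0, [1], [0, 3]), (0, [2], [2, 5]), (4, [], [4])]),
  (0, 0, 1, [(0, [0], [1, 5]), (0, [1], [0, 3]), (0, [2], [4, 5]), (4, [], [2])]),
  (0, 0, 1, [(0, [0], [1, 5]), (0, [1], [0, 4]), (0, [2], [2, 5]), (4, [], [3])]),
  (0, 0, 1, [(0, [0], [1, 5]), (0, [1], [0, 4]), (0, [2], [3, 5]), (4, [], [2])]),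
  (0, 0, 1, [(0, [0], [1, 5]), (0, [1], [2, 3]), (0, [2], [0, 5]), (4, [], [4])]),
  (0, 0, 1, [(0, [0], [1, 5]), (0, [1], [2, 3]), (0, [2], [4, 5]), (4, [], [0])]),
  (0, 0, 1, [(0, [0], [1, 5]), (0, [1], [2, 4]), (0, [2], [0, 5]), (4, [], [3])]),
  (0, 0, 1, [(0, [0], [1, 5]), (0, [1], [2, 4]), (0, [2], [3, 5]), (4, [], [0])]),
  (0, 0, 1, [(0, [0], [1, 5]), (0, [1], [3, 4]), (0, [2], [0, 5]), (4, [], [2])]),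
  (0, 0, 1, [(0, [0], [1, 5]), (0, [1], [3, 4]), (0, [2], [2, 5]), (4, [], [0])]),
  (0, 0, 1, [(0, [0], [2, 5]), (0, [1], [0, 3]), (0, [2], [1, 5]), (4, [], [4])]),
  (0, 0, 1, [(0, [0], [2, 5]), (0, [1], [0, 3]), (0, [2], [4, 5]), (4, [], [1])]),
  (0, 0, 1, [(0, [0], [2, 5]), (0, [1], [0, 4]), (0, [2], [1, 5]), (4, [], [3])]),
  (0, 0, 1, [(0, [0], [2, 5]), (0, [1], [0, 4]), (0, [2], [3, 5]), (4, [], [1])]),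
  (0, 0, 1, [(0, [0], [2, 5]), (0, [1], [3, 4]), (0, [2], [0, 5]), (4, [], [1])]),
  (0, 0, 1, [(0, [0], [2, 5]), (0, [1], [3, 4]), (0, [2], [1, 5]), (4, [], [0])]),
  (0, 0, 1, [(0, [0], [3, 5]), (0, [1], [0, 2]), (0, [2], [1, 5]), (4, [], [4])]),
  (0, 0, 1, [(0, [0], [3, 5]), (0, [1], [0, 2]), (0, [2], [4, 5]), (4, [], [1])]),
  (0, 0, 1, [(0, [0], [3, 5]), (0, [1], [0, 4]), (0, [2], [1, 5]), (4, [], [2])]),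
  (0, 0, 1, [(0, [0], [3, 5]), (0, [1], [0, 4]), (0, [2], [2, 5]), (4, [], [1])]),
  (0, 0, 1, [(0, [0], [3, 5]), (0, [1], [2, 4]), (0, [2], [0, 5]), (4, [], [1])]),
  (0, 0, 1, [(0, [0], [3, 5]), (0, [1], [2, 4]), (0, [2], [1, 5]), (4, [], [0])]),
  (0, 0, 1, [(0, [0], [4, 5]), (0, [1], [0, 2]), (0, [2], [1, 5]), (4, [], [3])]),
  (0, 0, 1, [(0, [0], [4, 5]), (0, [1], [0, 2]), (0, [2], [3, 5]), (4, [], [1])]),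
  (0, 0, 1, [(0, [0], [4, 5]), (0, [1], [0, 3]), (0, [2], [1, 5]), (4, [], [2])]),
  (0, 0, 1, [(0, [0], [4, 5]), (0, [1], [0, 3]), (0, [2], [2, 5]), (4, [], [1])]),
  (0, 0, 1, [(0, [0], [4, 5]), (0, [1], [2, 3]), (0, [2], [0, 5]), (4, [], [1])]),
  (0, 0, 1, [(0, [0], [4, 5]), (0, [1], [2, 3]), (0, [2], [1, 5]), (4, [], [0])]),
  (0, 0, 1, [(0, [0], [0, 5]), (0, [2], [2, 3]), (0, [1], [1, 5]), (4, [], [4])]),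
  (0, 0, 1, [(0, [0], [0, 5]), (0, [2], [2, 3]), (0, [1], [4, 5]), (4, [], [1])]),
  (0, 0, 1, [(0, [0], [0, 5]), (0, [2], [2, 4]), (0, [1], [1, 5]), (4, [], [3])]),
  (0, 0, 1, [(0, [0], [0, 5]), (0, [2], [2, 4]), (0, [1], [3, 5]), (4, [], [1])]),
  (0, 0, 1, [(0, [0], [0, 5]), (0, [2], [3, 4]), (0, [1], [1, 5]), (4, [], [2])]),
  (0, 0, 1, [(0, [0], [0, 5]), (0, [2], [3, 4]), (0, [1], [2, 5]), (4, [], [1])]),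
  (0, 0, 1, [(0, [0], [1, 5]), (0, [2], [0, 2]), (0, [1], [3, 5]), (4, [], [4])]),
  (0, 0, 1, [(0, [0], [1, 5]), (0, [2], [0, 2]), (0, [1], [4, 5]), (4, [], [3])]),
  (0, 0, 1, [(0, [0], [1, 5]), (0, [2], [0, 3]), (0, [1], [2, 5]), (4, [], [4])]),
  (0, 0, 1, [(0, [0], [1, 5]), (0, [2], [0, 3]), (0, [1], [4, 5]), (4, [], [2])]),
  (0, 0, 1, [(0, [0], [1, 5]), (0, [2], [0, 4]), (0, [1], [2, 5]), (4, [], [3])]),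
  (0, 0, 1, [(0, [0], [1, 5]), (0, [2], [0, 4]), (0, [1], [3, 5]), (4, [], [2])]),
  (0, 0, 1, [(0, [0], [1, 5]), (0, [2], [2, 3]), (0, [1], [0, 5]), (4, [], [4])]),
  (0, 0, 1, [(0, [0], [1, 5]), (0, [2], [2, 3]), (0, [1], [4, 5]), (4, [], [0])]),
  (0, 0, 1, [(0, [0], [1, 5]), (0, [2], [2, 4]), (0, [1], [0, 5]), (4, [], [3])]),
  (0, 0, 1, [(0, [0], [1, 5]), (0, [2], [2, 4]), (0, [1], [3, 5]), (4, [], [0])]),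
  (0, 0, 1, [(0, [0], [1, 5]), (0, [2], [3, 4]), (0, [1], [0, 5]), (4, [], [2])]),
  (0, 0, 1, [(0, [0], [1, 5]), (0, [2], [3, 4]), (0, [1], [2, 5]), (4, [], [0])]),
  (0, 0, 1, [(0, [0], [2, 5]), (0, [2], [0, 3]), (0, [1], [1, 5]), (4, [], [4])]),
  (0, 0, 1, [(0, [0], [2, 5]), (0, [2], [0, 3]), (0, [1], [4, 5]), (4, [], [1])]),
  (0, 0, 1, [(0, [0], [2, 5]), (0, [2], [0, 4]), (0, [1], [1, 5]), (4, [], [3])]),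
  (0, 0, 1, [(0, [0], [2, 5]), (0, [2], [0, 4]), (0, [1], [3, 5]), (4, [], [1])]),
  (0, 0, 1, [(0, [0], [2, 5]), (0, [2], [3, 4]), (0, [1], [0, 5]), (4, [], [1])]),
  (0, 0, 1, [(0, [0], [2, 5]), (0, [2], [3, 4]), (0, [1], [1, 5]), (4, [], [0])]),
  (0, 0, 1, [(0, [0], [3, 5]), (0, [2], [0, 2]), (0, [1], [1, 5]), (4, [], [4])]),
  (0, 0, 1, [(0, [0], [3, 5]), (0, [2], [0, 2]), (0, [1], [4, 5]), (4, [], [1])]),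
  (0, 0, 1, [(0, [0], [3, 5]), (0, [2], [0, 4]), (0, [1], [1, 5]), (4, [], [2])]),
  (0, 0, 1, [(0, [0], [3, 5]), (0, [2], [0, 4]), (0, [1], [2, 5]), (4, [], [1])]),
  (0, 0, 1, [(0, [0], [3, 5]), (0, [2], [2, 4]), (0, [1], [0, 5]), (4, [], [1])]),
  (0, 0, 1, [(0, [0], [3, 5]), (0, [2], [2, 4]), (0, [1], [1, 5]), (4, [], [0])]),
  (0, 0, 1, [(0, [0], [4, 5]), (0, [2], [0, 2]), (0, [1], [1, 5]), (4, [], [3])]),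
  (0, 0, 1, [(0, [0], [4, 5]), (0, [2], [0, 2]), (0, [1], [3, 5]), (4, [], [1])]),
  (0, 0, 1, [(0, [0], [4, 5]), (0, [2], [0, 3]), (0, [1], [1, 5]), (4, [], [2])]),
  (0, 0, 1, [(0, [0], [4, 5]), (0, [2], [0, 3]), (0, [1], [2, 5]), (4, [], [1])]),
  (0, 0, 1, [(0, [0], [4, 5]), (0, [2], [2, 3]), (0, [1], [0, 5]), (4, [], [1])]),
  (0, 0, 1, [(0, [0], [4, 5]), (0, [2], [2, 3]), (0, [1], [1, 5]), (4, [], [0])]),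
  (0, 0, 1, [(0, [1], [0, 5]), (0, [0], [2, 3]), (0, [2], [1, 5]), (4, [], [4])]),
  (0, 0, 1, [(0, [1], [0, 5]), (0, [0], [2, 3]), (0, [2], [4, 5]), (4, [], [1])]),
  (0, 0, 1, [(0, [1], [0, 5]), (0, [0], [2, 4]), (0, [2], [1, 5]), (4, [], [3])]),
  (0, 0, 1, [(0, [1], [0, 5]), (0, [0], [2, 4]), (0, [2], [3, 5]), (4, [], [1])]),
  (0, 0, 1, [(0, [1], [0, 5]), (0, [0], [3, 4]), (0, [2], [1, 5]), (4, [], [2])]),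
  (0, 0, 1, [(0, [1], [0, 5]), (0, [0], [3, 4]), (0, [2], [2, 5]), (4, [], [1])]),
  (0, 0, 1, [(0, [1], [1, 5]), (0, [0], [0, 2]), (0, [2], [3, 5]), (4, [], [4])]),
  (0, 0, 1, [(0, [1], [1, 5]), (0, [0], [0, 2]), (0, [2], [4, 5]), (4, [], [3])]),
  (0, 0, 1, [(0, [1], [1, 5]), (0, [0], [0, 3]), (0, [2], [2, 5]), (4, [], [4])]),
  (0, 0, 1, [(0, [1], [1, 5]), (0, [0], [0, 3]), (0, [2], [4, 5]), (4, [], [2])]),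
  (0, 0, 1, [(0, [1], [1, 5]), (0, [0], [0, 4]), (0, [2], [2, 5]), (4, [], [3])]),
  (0, 0, 1, [(0, [1], [1, 5]), (0, [0], [0, 4]), (0, [2], [3, 5]), (4, [], [2])]),
  (0, 0, 1, [(0, [1], [1, 5]), (0, [0], [2, 3]), (0, [2], [0, 5]), (4, [], [4])]),
  (0, 0, 1, [(0, [1], [1, 5]), (0, [0], [2, 3]), (0, [2], [4, 5]), (4, [], [0])]),
  (0, 0, 1, [(0, [1], [1, 5]), (0, [0], [2, 4]), (0, [2], [0, 5]), (4, [], [3])]),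
  (0, 0, 1, [(0, [1], [1, 5]), (0, [0], [2, 4]), (0, [2], [3, 5]), (4, [], [0])]),
  (0, 0, 1, [(0, [1], [1, 5]), (0, [0], [3, 4]), (0, [2], [0, 5]), (4, [], [2])]),
  (0, 0, 1, [(0, [1], [1, 5]), (0, [0], [3, 4]), (0, [2], [2, 5]), (4, [], [0])]),
  (0, 0, 1, [(0, [1], [2, 5]), (0, [0], [0, 3]), (0, [2], [1, 5]), (4, [], [4])]),
  (0, 0, 1, [(0, [1], [2, 5]), (0, [0], [0, 3]), (0, [2], [4, 5]), (4, [], [1])]),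
  (0, 0, 1, [(0, [1], [2, 5]), (0, [0], [0, 4]), (0, [2], [1, 5]), (4, [], [3])]),
  (0, 0, 1, [(0, [1], [2, 5]), (0, [0], [0, 4]), (0, [2], [3, 5]), (4, [], [1])]),
  (0, 0, 1, [(0, [1], [2, 5]), (0, [0], [3, 4]), (0, [2], [0, 5]), (4, [], [1])]),
  (0, 0, 1, [(0, [1], [2, 5]), (0, [0], [3, 4]), (0, [2], [1, 5]), (4, [], [0])]),
  (0, 0, 1, [(0, [1], [3, 5]), (0, [0], [0, 2]), (0, [2], [1, 5]), (4, [], [4])]),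
  (0, 0, 1, [(0, [1], [3, 5]), (0, [0], [0, 2]), (0, [2], [4, 5]), (4, [], [1])]),
  (0, 0, 1, [(0, [1], [3, 5]), (0, [0], [0, 4]), (0, [2], [1, 5]), (4, [], [2])]),
  (0, 0, 1, [(0, [1], [3, 5]), (0, [0], [0, 4]), (0, [2], [2, 5]), (4, [], [1])]),
  (0, 0, 1, [(0, [1], [3, 5]), (0, [0], [2, 4]), (0, [2], [0, 5]), (4, [], [1])]),
  (0, 0, 1, [(0, [1], [3, 5]), (0, [0], [2, 4]), (0, [2], [1, 5]), (4, [], [0])]),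
  (0, 0, 1, [(0, [1], [4, 5]), (0, [0], [0, 2]), (0, [2], [1, 5]), (4, [], [3])]),
  (0, 0, 1, [(0, [1], [4, 5]), (0, [0], [0, 2]), (0, [2], [3, 5]), (4, [], [1])]),
  (0, 0, 1, [(0, [1], [4, 5]), (0, [0], [0, 3]), (0, [2], [1, 5]), (4, [], [2])]),
  (0, 0, 1, [(0, [1], [4, 5]), (0, [0], [0, 3]), (0, [2], [2, 5]), (4, [], [1])]),
  (0, 0, 1, [(0, [1], [4, 5]), (0, [0], [2, 3]), (0, [2], [0, 5]), (4, [], [1])]),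
  (0, 0, 1, [(0, [1], [4, 5]), (0, [0], [2, 3]), (0, [2], [1, 5]), (4, [], [0])])]

def w35_0 : List (List Wit) := [[(0, 0, 0, 0, 0), (1, 0, 0, 0, 0), (2, 0, 0, 0, 0), (3, 0, 0, 0, 0), (4, 0, 0, 0, 0), (5, 0, 0, 0, 0), (0, 0, 0, 0, 0), (1, 0, 0, 0, 0), (72, 0, 0, 0, 0), (73, 0, 0, 0, 0), (74, 0, 0, 0, 0), (75, 0, 0, 0, 0), (2, 0, 0, 0, 0), (3, 0, 0, 0, 0), (72, 0, 0, 0, 0), (73, 0, 0, 0, 0), (76, 0, 0, 0, 0), (77, 0, 0, 0, 0), (4, 0, 0, 0, 0), (5, 0, 0, 0, 0), (74, 0, 0, 0, 0), (75, 0, 0, 0, 0), (76, 0, 0, 0, 0), (77, 0, 0, 0, 0), (78, 0, 0, 0, 0), (79, 0, 0, 0, 0), (80, 0, 0, 0, 0), (81, 0, 0, 0, 0), (82, 0, 0, 0, 0), (83, 0, 0, 0, 0), (78, 0, 0, 0, 0), (79, 0, 0, 0, 0), (84, 0, 0, 0, 0), (85, 0, 0, 0, 0), (86, 0, 0, 0, 0), (87, 0, 0, 0, 0), (80, 0, 0, 0, 0), (81, 0, 0, 0, 0), (84, 0, 0, 0, 0), (85, 0, 0, 0, 0),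 (88, 0, 0, 0, 0), (89, 0, 0, 0, 0), (82, 0, 0, 0, 0), (83, 0, 0, 0, 0), (86, 0, 0, 0, 0), (87, 0, 0, 0, 0), (88, 0, 0, 0, 0), (89, 0, 0, 0, 0), (6, 0, 0, 0, 0), (7, 0, 0, 0, 0), (90, 0, 0, 0, 0), (91, 0, 0, 0, 0), (92, 0, 0, 0, 0), (93, 0, 0, 0, 0), (6, 0, 0, 0, 0), (7, 0, 0, 0, 0), (8, 0, 0, 0, 0), (9, 0, 0, 0, 0), (10, 0, 0, 0, 0), (11, 0, 0, 0, 0), (90, 0, 0, 0, 0), (91, 0, 0, 0, 0), (8, 0, 0, 0, 0), (9, 0, 0, 0, 0), (94, 0, 0, 0, 0), (95, 0, 0, 0, 0), (92, 0, 0, 0, 0), (93, 0, 0, 0, 0), (10, 0, 0, 0, 0), (11, 0, 0, 0, 0), (94, 0, 0, 0, 0), (95, 0, 0, 0, 0), (12, 0, 0, 0, 0), (13, 0, 0, 0, 0), (96, 0, 0, 0, 0), (97, 0, 0, 0, 0), (98, 0, 0, 0, 0), (99, 0, 0, 0, 0), (12, 0, 0, 0, 0), (13, 0, 0, 0, 0), (14, 0, 0, 0, 0), (15, 0, 0, 0, 0), (16, 0, 0, 0, 0), (17, 0, 0, 0, 0), (96, 0, 0, 0, 0), (97, 0, 0, 0, 0), (14,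 0, 0, 0, 0), (15, 0, 0, 0, 0), (100, 0, 0, 0, 0), (101, 0, 0, 0, 0), (98, 0, 0, 0, 0), (99, 0, 0, 0, 0), (16, 0, 0, 0, 0), (17, 0, 0, 0, 0), (100, 0, 0, 0, 0), (101, 0, 0, 0, 0), (18, 0, 0, 0, 0), (19, 0, 0, 0, 0), (102, 0, 0, 0, 0), (103, 0, 0, 0, 0), (104, 0, 0, 0, 0), (105, 0, 0, 0, 0), (18, 0, 0, 0, 0), (19, 0, 0, 0, 0), (20, 0, 0, 0, 0), (21, 0, 0, 0, 0), (22, 0, 0, 0, 0), (23, 0, 0, 0, 0), (102, 0, 0, 0, 0), (103, 0, 0, 0, 0), (20, 0, 0, 0, 0), (21, 0, 0, 0, 0), (106, 0, 0, 0, 0), (107, 0, 0, 0, 0), (104, 0, 0, 0, 0), (105, 0, 0, 0, 0), (22, 0, 0, 0, 0), (23, 0, 0, 0, 0), (106, 0, 0, 0, 0), (107, 0, 0, 0, 0)],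
  [(24, 0, 0, 0, 0), (25, 0, 0, 0, 0), (26, 0, 0, 0, 0), (27, 0, 0, 0, 0), (28, 0, 0, 0, 0), (29, 0, 0, 0, 0), (24, 0, 0, 0, 0), (25, 0, 0, 0, 0), (108, 0, 0, 0, 0), (109, 0, 0, 0, 0), (110, 0, 0, 0, 0), (111, 0, 0, 0, 0), (26, 0, 0, 0, 0), (27, 0, 0, 0, 0), (108, 0, 0, 0, 0), (109, 0, 0, 0, 0), (112, 0, 0, 0, 0), (113, 0, 0, 0, 0), (28, 0, 0, 0, 0), (29, 0, 0, 0, 0), (110, 0, 0, 0, 0), (111, 0, 0, 0, 0), (112, 0, 0, 0, 0), (113, 0, 0, 0, 0), (114, 0, 0, 0, 0), (115, 0, 0, 0, 0), (116, 0, 0, 0, 0), (117, 0, 0, 0, 0), (118, 0, 0, 0, 0), (119, 0, 0, 0, 0), (114, 0, 0, 0, 0), (115, 0, 0, 0, 0), (120, 0, 0, 0, 0), (121, 0, 0, 0, 0), (122, 0, 0, 0, 0), (123, 0, 0, 0, 0), (116, 0, 0, 0, 0), (117, 0, 0, 0, 0), (120, 0, 0, 0, 0), (121, 0, 0, 0, 0), (124, 0, 0, 0, 0), (125, 0, 0, 0, 0), (118, 0, 0, 0, 0), (119, 0, 0, 0, 0),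 (122, 0, 0, 0, 0), (123, 0, 0, 0, 0), (124, 0, 0, 0, 0), (125, 0, 0, 0, 0), (30, 0, 0, 0, 0), (31, 0, 0, 0, 0), (126, 0, 0, 0, 0), (127, 0, 0, 0, 0), (128, 0, 0, 0, 0), (129, 0, 0, 0, 0), (30, 0, 0, 0, 0), (31, 0, 0, 0, 0), (32, 0, 0, 0, 0), (33, 0, 0, 0, 0), (34, 0, 0, 0, 0), (35, 0, 0, 0, 0), (126, 0, 0, 0, 0), (127, 0, 0, 0, 0), (32, 0, 0, 0, 0), (33, 0, 0, 0, 0), (130, 0, 0, 0, 0), (131, 0, 0, 0, 0), (128, 0, 0, 0, 0), (129, 0, 0, 0, 0), (34, 0, 0, 0, 0), (35, 0, 0, 0, 0), (130, 0, 0, 0, 0), (131, 0, 0, 0, 0), (36, 0, 0, 0, 0), (37, 0, 0, 0, 0), (132, 0, 0, 0, 0), (133, 0, 0, 0, 0), (134, 0, 0, 0, 0), (135, 0, 0, 0, 0), (36, 0, 0, 0, 0), (37, 0, 0, 0, 0), (38, 0, 0, 0, 0), (39, 0, 0, 0, 0), (40, 0, 0, 0, 0), (41, 0, 0, 0, 0), (132, 0, 0, 0, 0), (133, 0, 0, 0, 0), (38, 0, 0, 0, 0), (39, 0, 0, 0, 0), (136, 0, 0,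 0, 0), (137, 0, 0, 0, 0), (134, 0, 0, 0, 0), (135, 0, 0, 0, 0), (40, 0, 0, 0, 0), (41, 0, 0, 0, 0), (136, 0, 0, 0, 0), (137, 0, 0, 0, 0), (42, 0, 0, 0, 0), (43, 0, 0, 0, 0), (138, 0, 0, 0, 0), (139, 0, 0, 0, 0), (140, 0, 0, 0, 0), (141, 0, 0, 0, 0), (42, 0, 0, 0, 0), (43, 0, 0, 0, 0), (44, 0, 0, 0, 0), (45, 0, 0, 0, 0), (46, 0, 0, 0, 0), (47, 0, 0, 0, 0), (138, 0, 0, 0, 0), (139, 0, 0, 0, 0), (44, 0, 0, 0, 0), (45, 0, 0, 0, 0), (142, 0, 0, 0, 0), (143, 0, 0, 0, 0), (140, 0, 0, 0, 0), (141, 0, 0, 0, 0), (46, 0, 0, 0, 0), (47, 0, 0, 0, 0), (142, 0, 0, 0, 0), (143, 0, 0, 0, 0)],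
  [(48, 0, 0, 0, 0), (49, 0, 0, 0, 0), (50, 0, 0, 0, 0), (51, 0, 0, 0, 0), (52, 0, 0, 0, 0), (53, 0, 0, 0, 0), (48, 0, 0, 0, 0), (49, 0, 0, 0, 0), (144, 0, 0, 0, 0), (145, 0, 0, 0, 0), (146, 0, 0, 0, 0), (147, 0, 0, 0, 0), (50, 0, 0, 0, 0), (51, 0, 0, 0, 0), (144, 0, 0, 0, 0), (145, 0, 0, 0, 0), (148, 0, 0, 0, 0), (149, 0, 0, 0, 0), (52, 0, 0, 0, 0), (53, 0, 0, 0, 0), (146, 0, 0, 0, 0), (147, 0, 0, 0, 0), (148, 0, 0, 0, 0), (149, 0, 0, 0, 0), (150, 0, 0, 0, 0), (151, 0, 0, 0, 0), (152, 0, 0, 0, 0), (153, 0, 0, 0, 0), (154, 0, 0, 0, 0), (155, 0, 0, 0, 0), (150, 0, 0, 0, 0), (151, 0, 0, 0, 0), (156, 0, 0, 0, 0), (157, 0, 0, 0, 0), (158, 0, 0, 0, 0), (159, 0, 0, 0, 0), (152, 0, 0, 0, 0), (153, 0, 0, 0, 0), (156, 0, 0, 0, 0), (157, 0, 0, 0, 0), (160, 0, 0, 0, 0), (161, 0, 0, 0, 0), (154, 0, 0, 0, 0), (155, 0, 0, 0, 0),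 (158, 0, 0, 0, 0), (159, 0, 0, 0, 0), (160, 0, 0, 0, 0), (161, 0, 0, 0, 0), (54, 0, 0, 0, 0), (55, 0, 0, 0, 0), (162, 0, 0, 0, 0), (163, 0, 0, 0, 0), (164, 0, 0, 0, 0), (165, 0, 0, 0, 0), (54, 0, 0, 0, 0), (55, 0, 0, 0, 0), (56, 0, 0, 0, 0), (57, 0, 0, 0, 0), (58, 0, 0, 0, 0), (59, 0, 0, 0, 0), (162, 0, 0, 0, 0), (163, 0, 0, 0, 0), (56, 0, 0, 0, 0), (57, 0, 0, 0, 0), (166, 0, 0, 0, 0), (167, 0, 0, 0, 0), (164, 0, 0, 0, 0), (165, 0, 0, 0, 0), (58, 0, 0, 0, 0), (59, 0, 0, 0, 0), (166, 0, 0, 0, 0), (167, 0, 0, 0, 0), (60, 0, 0, 0, 0), (61, 0, 0, 0, 0), (168, 0, 0, 0, 0), (169, 0, 0, 0, 0), (170, 0, 0, 0, 0), (171, 0, 0, 0, 0), (60, 0, 0, 0, 0), (61, 0, 0, 0, 0), (62, 0, 0, 0, 0), (63, 0, 0, 0, 0), (64, 0, 0, 0, 0), (65, 0, 0, 0, 0), (168, 0, 0, 0, 0), (169, 0, 0, 0, 0), (62, 0, 0, 0, 0), (63, 0, 0, 0, 0), (172, 0, 0,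 0, 0), (173, 0, 0, 0, 0), (170, 0, 0, 0, 0), (171, 0, 0, 0, 0), (64, 0, 0, 0, 0), (65, 0, 0, 0, 0), (172, 0, 0, 0, 0), (173, 0, 0, 0, 0), (66, 0, 0, 0, 0), (67, 0, 0, 0, 0), (174, 0, 0, 0, 0), (175, 0, 0, 0, 0), (176, 0, 0, 0, 0), (177, 0, 0, 0, 0), (66, 0, 0, 0, 0), (67, 0, 0, 0, 0), (68, 0, 0, 0, 0), (69, 0, 0, 0, 0), (70, 0, 0, 0, 0), (71, 0, 0, 0, 0), (174, 0, 0, 0, 0), (175, 0, 0, 0, 0), (68, 0, 0, 0, 0), (69, 0, 0, 0, 0), (178, 0, 0, 0, 0), (179, 0, 0, 0, 0), (176, 0, 0, 0, 0), (177, 0, 0, 0, 0), (70, 0, 0, 0, 0), (71, 0, 0, 0, 0), (178, 0, 0, 0, 0), (179, 0, 0, 0, 0)],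
  [(38, 0, 0, 0, 0), (44, 0, 0, 0, 0), (32, 0, 0, 0, 0), (46, 0, 0, 0, 0), (34, 0, 0, 0, 0), (40, 0, 0, 0, 0), (38, 0, 0, 0, 0), (44, 0, 0, 0, 0), (120, 0, 0, 0, 0), (142, 0, 0, 0, 0), (122, 0, 0, 0, 0), (136, 0, 0, 0, 0), (32, 0, 0, 0, 0), (46, 0, 0, 0, 0), (120, 0, 0, 0, 0), (142, 0, 0, 0, 0), (124, 0, 0, 0, 0), (130, 0, 0, 0, 0), (34, 0, 0, 0, 0), (40, 0, 0, 0, 0), (122, 0, 0, 0, 0), (136, 0, 0, 0, 0), (124, 0, 0, 0, 0), (130, 0, 0, 0, 0), (132, 0, 0, 0, 0), (138, 0, 0, 0, 0), (126, 0, 0, 0, 0), (140, 0, 0, 0, 0), (128, 0, 0, 0, 0), (134, 0, 0, 0, 0), (132, 0, 0, 0, 0), (138, 0, 0, 0, 0), (108, 0, 0, 0, 0), (143, 0, 0, 0, 0), (110, 0, 0, 0, 0), (137, 0, 0, 0, 0), (126, 0, 0, 0, 0), (140, 0, 0, 0, 0), (108, 0, 0, 0, 0), (143, 0, 0, 0, 0), (112, 0, 0, 0, 0), (131, 0, 0, 0, 0), (128, 0, 0, 0, 0), (134, 0, 0, 0, 0),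 (110, 0, 0, 0, 0), (137, 0, 0, 0, 0), (112, 0, 0, 0, 0), (131, 0, 0, 0, 0), (36, 0, 0, 0, 0), (42, 0, 0, 0, 0), (116, 0, 0, 0, 0), (141, 0, 0, 0, 0), (118, 0, 0, 0, 0), (135, 0, 0, 0, 0), (36, 0, 0, 0, 0), (42, 0, 0, 0, 0), (26, 0, 0, 0, 0), (47, 0, 0, 0, 0), (28, 0, 0, 0, 0), (41, 0, 0, 0, 0), (116, 0, 0, 0, 0), (141, 0, 0, 0, 0), (26, 0, 0, 0, 0), (47, 0, 0, 0, 0), (113, 0, 0, 0, 0), (125, 0, 0, 0, 0), (118, 0, 0, 0, 0), (135, 0, 0, 0, 0), (28, 0, 0, 0, 0), (41, 0, 0, 0, 0), (113, 0, 0, 0, 0), (125, 0, 0, 0, 0), (30, 0, 0, 0, 0), (43, 0, 0, 0, 0), (114, 0, 0, 0, 0), (139, 0, 0, 0, 0), (119, 0, 0, 0, 0), (129, 0, 0, 0, 0), (30, 0, 0, 0, 0), (43, 0, 0, 0, 0), (24, 0, 0, 0, 0), (45, 0, 0, 0, 0), (29, 0, 0, 0, 0), (35, 0, 0, 0, 0), (114, 0, 0, 0, 0), (139, 0, 0, 0, 0), (24, 0, 0, 0, 0), (45, 0, 0, 0, 0), (111, 0, 0,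 0, 0), (123, 0, 0, 0, 0), (119, 0, 0, 0, 0), (129, 0, 0, 0, 0), (29, 0, 0, 0, 0), (35, 0, 0, 0, 0), (111, 0, 0, 0, 0), (123, 0, 0, 0, 0), (31, 0, 0, 0, 0), (37, 0, 0, 0, 0), (115, 0, 0, 0, 0), (133, 0, 0, 0, 0), (117, 0, 0, 0, 0), (127, 0, 0, 0, 0), (31, 0, 0, 0, 0), (37, 0, 0, 0, 0), (25, 0, 0, 0, 0), (39, 0, 0, 0, 0), (27, 0, 0, 0, 0), (33, 0, 0, 0, 0), (115, 0, 0, 0, 0), (133, 0, 0, 0, 0), (25, 0, 0, 0, 0), (39, 0, 0, 0, 0), (109, 0, 0, 0, 0), (121, 0, 0, 0, 0), (117, 0, 0, 0, 0), (127, 0, 0, 0, 0), (27, 0, 0, 0, 0), (33, 0, 0, 0, 0), (109, 0, 0, 0, 0), (121, 0, 0, 0, 0)],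
  [(62, 0, 0, 0, 0), (68, 0, 0, 0, 0), (56, 0, 0, 0, 0), (70, 0, 0, 0, 0), (58, 0, 0, 0, 0), (64, 0, 0, 0, 0), (62, 0, 0, 0, 0), (68, 0, 0, 0, 0), (156, 0, 0, 0, 0), (178, 0, 0, 0, 0), (158, 0, 0, 0, 0), (172, 0, 0, 0, 0), (56, 0, 0, 0, 0), (70, 0, 0, 0, 0), (156, 0, 0, 0, 0), (178, 0, 0, 0, 0), (160, 0, 0, 0, 0), (166, 0, 0, 0, 0), (58, 0, 0, 0, 0), (64, 0, 0, 0, 0), (158, 0, 0, 0, 0), (172, 0, 0, 0, 0), (160, 0, 0, 0, 0), (166, 0, 0, 0, 0), (168, 0, 0, 0, 0), (174, 0, 0, 0, 0), (162, 0, 0, 0, 0), (176, 0, 0, 0, 0), (164, 0, 0, 0, 0), (170, 0, 0, 0, 0), (168, 0, 0, 0, 0), (174, 0, 0, 0, 0), (144, 0, 0, 0, 0), (179, 0, 0, 0, 0), (146, 0, 0, 0, 0), (173, 0, 0, 0, 0), (162, 0, 0, 0, 0), (176, 0, 0, 0, 0), (144, 0, 0, 0, 0), (179, 0, 0, 0, 0), (148, 0, 0, 0, 0), (167, 0, 0, 0, 0), (164, 0, 0, 0, 0), (170, 0, 0, 0, 0),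 (146, 0, 0, 0, 0), (173, 0, 0, 0, 0), (148, 0, 0, 0, 0), (167, 0, 0, 0, 0), (60, 0, 0, 0, 0), (66, 0, 0, 0, 0), (152, 0, 0, 0, 0), (177, 0, 0, 0, 0), (154, 0, 0, 0, 0), (171, 0, 0, 0, 0), (60, 0, 0, 0, 0), (66, 0, 0, 0, 0), (50, 0, 0, 0, 0), (71, 0, 0, 0, 0), (52, 0, 0, 0, 0), (65, 0, 0, 0, 0), (152, 0, 0, 0, 0), (177, 0, 0, 0, 0), (50, 0, 0, 0, 0), (71, 0, 0, 0, 0), (149, 0, 0, 0, 0), (161, 0, 0, 0, 0), (154, 0, 0, 0, 0), (171, 0, 0, 0, 0), (52, 0, 0, 0, 0), (65, 0, 0, 0, 0), (149, 0, 0, 0, 0), (161, 0, 0, 0, 0), (54, 0, 0, 0, 0), (67, 0, 0, 0, 0), (150, 0, 0, 0, 0), (175, 0, 0, 0, 0), (155, 0, 0, 0, 0), (165, 0, 0, 0, 0), (54, 0, 0, 0, 0), (67, 0, 0, 0, 0), (48, 0, 0, 0, 0), (69, 0, 0, 0, 0), (53, 0, 0, 0, 0), (59, 0, 0, 0, 0), (150, 0, 0, 0, 0), (175, 0, 0, 0, 0), (48, 0, 0, 0, 0), (69, 0, 0, 0, 0), (147, 0, 0,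 0, 0), (159, 0, 0, 0, 0), (155, 0, 0, 0, 0), (165, 0, 0, 0, 0), (53, 0, 0, 0, 0), (59, 0, 0, 0, 0), (147, 0, 0, 0, 0), (159, 0, 0, 0, 0), (55, 0, 0, 0, 0), (61, 0, 0, 0, 0), (151, 0, 0, 0, 0), (169, 0, 0, 0, 0), (153, 0, 0, 0, 0), (163, 0, 0, 0, 0), (55, 0, 0, 0, 0), (61, 0, 0, 0, 0), (49, 0, 0, 0, 0), (63, 0, 0, 0, 0), (51, 0, 0, 0, 0), (57, 0, 0, 0, 0), (151, 0, 0, 0, 0), (169, 0, 0, 0, 0), (49, 0, 0, 0, 0), (63, 0, 0, 0, 0), (145, 0, 0, 0, 0), (157, 0, 0, 0, 0), (153, 0, 0, 0, 0), (163, 0, 0, 0, 0), (51, 0, 0, 0, 0), (57, 0, 0, 0, 0), (145, 0, 0, 0, 0), (157, 0, 0, 0, 0)],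
  [(14, 0, 0, 0, 0), (20, 0, 0, 0, 0), (8, 0, 0, 0, 0), (22, 0, 0, 0, 0), (10, 0, 0, 0, 0), (16, 0, 0, 0, 0), (14, 0, 0, 0, 0), (20, 0, 0, 0, 0), (84, 0, 0, 0, 0), (106, 0, 0, 0, 0), (86, 0, 0, 0, 0), (100, 0, 0, 0, 0), (8, 0, 0, 0, 0), (22, 0, 0, 0, 0), (84, 0, 0, 0, 0), (106, 0, 0, 0, 0), (88, 0, 0, 0, 0), (94, 0, 0, 0, 0), (10, 0, 0, 0, 0), (16, 0, 0, 0, 0), (86, 0, 0, 0, 0), (100, 0, 0, 0, 0), (88, 0, 0, 0, 0), (94, 0, 0, 0, 0), (96, 0, 0, 0, 0), (102, 0, 0, 0, 0), (90, 0, 0, 0, 0), (104, 0, 0, 0, 0), (92, 0, 0, 0, 0), (98, 0, 0, 0, 0), (96, 0, 0, 0, 0), (102, 0, 0, 0, 0), (72, 0, 0, 0, 0), (107, 0, 0, 0, 0), (74, 0, 0, 0, 0), (101, 0, 0, 0, 0), (90, 0, 0, 0, 0), (104, 0, 0, 0, 0), (72, 0, 0, 0, 0), (107, 0, 0, 0, 0), (76, 0, 0, 0, 0), (95, 0, 0, 0, 0), (92, 0, 0, 0, 0), (98, 0, 0, 0, 0), (74, 0, 0, 0, 0), (101,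 0, 0, 0, 0), (76, 0, 0, 0, 0), (95, 0, 0, 0, 0), (12, 0, 0, 0, 0), (18, 0, 0, 0, 0), (80, 0, 0, 0, 0), (105, 0, 0, 0, 0), (82, 0, 0, 0, 0), (99, 0, 0, 0, 0), (12, 0, 0, 0, 0), (18, 0, 0, 0, 0), (2, 0, 0, 0, 0), (23, 0, 0, 0, 0), (4, 0, 0, 0, 0), (17, 0, 0, 0, 0), (80, 0, 0, 0, 0), (105, 0, 0, 0, 0), (2, 0, 0, 0, 0), (23, 0, 0, 0, 0), (77, 0, 0, 0, 0), (89, 0, 0, 0, 0), (82, 0, 0, 0, 0), (99, 0, 0, 0, 0), (4, 0, 0, 0, 0), (17, 0, 0, 0, 0), (77, 0, 0, 0, 0), (89, 0, 0, 0, 0), (6, 0, 0, 0, 0), (19, 0, 0, 0, 0), (78, 0, 0, 0, 0), (103, 0, 0, 0, 0), (83, 0, 0, 0, 0), (93, 0, 0, 0, 0), (6, 0, 0, 0, 0), (19, 0, 0, 0, 0), (0, 0, 0, 0, 0), (21, 0, 0, 0, 0), (5, 0, 0, 0, 0), (11, 0, 0, 0, 0), (78, 0, 0, 0, 0), (103, 0, 0, 0, 0), (0, 0, 0, 0, 0), (21, 0, 0, 0, 0), (75, 0, 0, 0, 0), (87, 0, 0, 0, 0), (83, 0, 0, 0, 0), (93, 0,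 0, 0, 0), (5, 0, 0, 0, 0), (11, 0, 0, 0, 0), (75, 0, 0, 0, 0), (87, 0, 0, 0, 0), (7, 0, 0, 0, 0), (13, 0, 0, 0, 0), (79, 0, 0, 0, 0), (97, 0, 0, 0, 0), (81, 0, 0, 0, 0), (91, 0, 0, 0, 0), (7, 0, 0, 0, 0), (13, 0, 0, 0, 0), (1, 0, 0, 0, 0), (15, 0, 0, 0, 0), (3, 0, 0, 0, 0), (9, 0, 0, 0, 0), (79, 0, 0, 0, 0), (97, 0, 0, 0, 0), (1, 0, 0, 0, 0), (15, 0, 0, 0, 0), (73, 0, 0, 0, 0), (85, 0, 0, 0, 0), (81, 0, 0, 0, 0), (91, 0, 0, 0, 0), (3, 0, 0, 0, 0), (9, 0, 0, 0, 0), (73, 0, 0, 0, 0), (85, 0, 0, 0, 0)]]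

theorem tr35 : trK keys lk35 kl35 = true := by
  decide +kernel

theorem x35_0 : expB 3 5 dg2 dg9 m35_0 (l35_0 ++ z35_0) w35_0 = true := by
  decide +kernel

theorem t35_0_0 : chkS lk35 3 5 [(1, m35_0)] l35_0
  [(9, 513, 513, 103043331, 104072481), (4, 258, 33, 86388996, 73413921), (12, 288, 288, 34879056, 34879056), (2, 258, 33, 87433476, 73421601), (2, 258, 33, 55665156, 55599681), (13, 288, 288, 34879056, 34879056), (12, 513, 513, 56905986, 87318561), (16, 513, 513, 55861506, 55861281), (17, 513, 513, 55845126, 5530401), (18, 513, 513, 56959236, 88105761), (1, 513, 513, 54612486, 3498561), (2, 513, 513, 55656966, 5464641), (17, 258, 33, 55861506, 55861281), (1, 513, 513, 70607106, 54939681), (10, 513, 513, 87318786, 56905761), (3, 513, 513, 69558531, 54920481), (19, 513, 513, 88236291, 56951841), (1, 258, 33,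 54616581, 50684481), (18, 258, 33, 56967426, 88301601), (2, 513, 513, 87441666, 73617441), (3, 258, 33, 69546246, 4601121), (4, 513, 513, 86393091, 73598241), (1, 258, 33, 70590726, 4608801), (16, 258, 33, 55845126, 5530401), (14, 288, 288, 34879056, 34879056), (7, 258, 33, 39018756, 55592481), (11, 288, 288, 34878816, 19150416), (8, 528, 528, 19088976, 34817376), (8, 288, 288, 35009616, 68302416), (15, 288, 288, 34879056, 34879056), (25, 513, 513, 56893701, 84173601), (5, 33, 258, 67442211, 38142261), (17, 33, 258, 101975331, 103022931), (6, 513, 513, 5325606, 5448006), (23, 33, 258, 100865316, 102777141), (24, 18, 18, 102839301, 100808001), (17, 258, 33, 40128531, 87295506), (23, 258, 33, 40063236, 87049761), (21, 258, 33, 55861506, 55861281), (0, 288, 288, 19138131, 34866531), (22, 258, 33, 55861506, 55861281),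 (6, 288, 288, 33961041, 68302341), (6, 33, 258, 84284451, 73531701), (24, 258, 33, 40186116, 88094241), (0, 528, 528, 34817616, 34817616), (20, 258, 33, 39072006, 5518881), (6, 528, 528, 2180691, 34800966), (8, 33, 258, 85328931, 73531731), (14, 33, 258, 34866771, 34866771), (20, 513, 513, 39084291, 55838241), (25, 288, 288, 85210656, 40120656), (24, 513, 513, 40190211, 88278561), (24, 528, 528, 102847491, 103941441), (15, 33, 258, 34866771, 34866771), (11, 288, 288, 101987616, 103035216), (8, 288, 288, 85341216, 73544016), (17, 513, 513, 40120341, 84162066), (6, 288, 288, 84292641, 73543941), (6, 33, 258, 33952851, 68290101), (8, 513, 513, 39010326, 5457426), (17, 288, 288, 101987616, 103035216), (6, 18, 18, 2176596, 34616646), (21, 513, 513, 55845126, 5530401), (0, 18, 18, 34801236, 34621011), (22, 513, 513, 55845126,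 5530401), (23, 288, 288, 100877601, 102973701), (6, 258, 33, 5333796, 55583046), (8, 528, 528, 86393616, 73606416), (0, 33, 258, 19150416, 34878816), (7, 513, 513, 39010566, 5457441), (23, 513, 513, 40059141, 84100641), (5, 288, 288, 67450401, 38154501)]
  [(0, 960), (1, -1920), (2, 1920), (3, 960), (4, -960), (5, 480), (6, -1920), (7, -480), (8, 1440), (9, 480), (10, -480), (11, -480), (12, -960), (13, -480), (14, 480), (15, -480), (16, 960), (17, 1920), (18, -960), (19, 480), (20, -480), (21, -480), (22, 480), (23, -960), (24, 960), (25, -480)] = true := by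
  decide +kernel

section

variable {κ ι : Type*} [Fintype κ] [Fintype ι] [Inhabited κ] [Inhabited ι]

noncomputable def F35_0 (E : Env κ ι) : (Fin 3 → κ) → (Fin 5 → ι) → ℝ := op2 (P2 κ) (P9 ι) (fB E 3 5 m35_0)

def r35_0_0 : List (ℕ × ℤ) := [(0, 960), (1, -1920), (2, 1920), (3, 960), (4, -960), (5, 480), (6, -1920), (7, -480), (8, 1440), (9, 480), (10, -480), (11, -480), (12, -960), (13, -480), (14, 480), (15, -480), (16, 960), (17, 1920), (18, -960), (19, 480), (20, -480), (21, -480), (22, 480), (23, -960), (24, 960), (25, -480)]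

theorem h35_0_0 (E : Env κ ι) : ip (F35_0 E) (F35_0 E) = dotS (ek E lk35) r35_0_0 :=
  op_entryZ E lk35 3 5 _ _ _ _ (pg2 κ) (pg9 ι) m35_0 m35_0 l35_0 z35_0 w35_0 x35_0 (by decide) _ (chkS_sound E lk35 3 5 _ _ _ _ t35_0_0)

theorem row35_0 (E : Env κ ι) : RowG (ek E lk35) (F35_0 E) [F35_0 E] [r35_0_0] :=
  rowG_cons _ _ _ _ _ _ (h35_0_0 E) (rowG_nil _ _)

def tab35 : List (List (List (ℕ × ℤ))) := [[r35_0_0]]

theorem tri35 (E : Env κ ι) : TriG (ek E lk35) [F35_0 E] tab35 := by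
  refine triG_cons _ _ _ _ _ (row35_0 E) ?_
  exact triG_nil _

end

def lk36 : List Key := [
  (3, 7, [(0, [0], [0, 1]), (0, [1], [0, 2]), (0, [0], [2, 3]), (0, [2], [1, 4]), (0, [1], [5, 6]), (0, [2], [5, 6]), (4, [], [3]), (4, [], [4])]),
  (3, 7, [(0, [0], [0, 1]), (0, [0], [0, 2]), (0, [1], [3, 2]), (4, [], [1]), (0, [2], [4, 5]), (0, [2], [3, 6]), (0, [1], [4, 6]), (4, [], [5])]),
  (3, 7, [(0, [0], [0, 1]), (0, [0], [0, 2]), (0, [1], [3, 2]), (4, [], [1]), (0, [2], [4, 5]), (0, [2], [3, 4]), (0, [1], [5, 6]), (4, [], [6])]),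
  (3, 7, [(0, [0], [0, 1]), (0, [0], [0, 1]), (0, [1], [2, 3]), (4, [], [3]), (0, [2], [4, 5]), (0, [2], [2, 6]), (0, [1], [4, 6]), (4, [], [5])]),
  (3, 7, [(0, [0], [0, 1]), (0, [0], [0, 1]), (0, [1], [2, 3]), (4, [], [3]), (0, [2], [4, 5]), (0, [2], [2, 4]), (0, [1], [5, 6]), (4, [], [6])]),
  (3, 7, [(0, [0], [0, 1]), (0, [0], [2, 3]), (0, [1], [0, 3]), (4, [], [1]), (0, [2], [4, 5]), (0, [2], [2, 6]), (0, [1], [4, 6]), (4, [], [5])]),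
  (3, 7, [(0, [0], [0, 1]), (0, [0], [2, 3]), (0, [1], [0, 3]), (4, [], [1]), (0, [2], [4, 5]), (0, [2], [2, 4]), (0, [1], [5, 6]), (4, [], [6])]),
  (3, 7, [(0, [0], [0, 1]), (0, [0], [2, 3]), (0, [1], [0, 1]), (4, [], [3]), (0, [2], [4, 5]), (0, [2], [2, 4]), (0, [1], [5, 6]), (4, [], [6])]),
  (3, 7, [(0, [0], [0, 1]), (0, [0], [2, 0]), (0, [1], [1, 3]), (4, [], [3]), (0, [2], [4, 5]), (0, [2], [2, 4]), (0, [1], [5, 6]), (4, [], [6])]),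
  (3, 7, [(0, [0], [0, 1]), (0, [0], [0, 1]), (0, [1], [2, 3]), (4, [], [4]), (0, [2], [5, 6]), (0, [2], [2, 5]), (0, [1], [3, 6]), (4, [], [4])]),
  (3, 7, [(0, [0], [0, 1]), (0, [0], [0, 1]), (0, [1], [2, 3]), (4, [], [4]), (0, [2], [2, 5]), (0, [2], [3, 6]), (0, [1], [5, 6]), (4, [], [4])]),
  (3, 7, [(0, [0], [0, 1]), (0, [0], [2, 0]), (0, [1], [3, 1]), (4, [], [4]), (0, [2], [5, 6]), (0, [2], [2, 5]), (0, [1], [3, 6]), (4, [], [4])]),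
  (3, 7, [(0, [0], [0, 1]), (0, [0], [2, 0]), (0, [1], [3, 1]), (4, [], [4]), (0, [2], [5, 6]), (0, [2], [3, 5]), (0, [1], [2, 6]), (4, [], [4])]),
  (3, 7, [(0, [0], [0, 1]), (0, [0], [2, 0]), (0, [1], [3, 1]), (4, [], [4]), (0, [2], [5, 6]), (0, [2], [4, 5]), (0, [1], [2, 3]), (4, [], [6])]),
  (3, 7, [(0, [0], [0, 1]), (0, [0], [2, 0]), (0, [1], [3, 1]), (4, [], [4]), (0, [2], [5, 6]), (0, [2], [2, 3]), (0, [1], [5, 6]), (4, [], [4])]),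
  (3, 7, [(0, [0], [0, 1]), (0, [0], [2, 0]), (0, [1], [3, 1]), (4, [], [4]), (0, [2], [5, 6]), (0, [2], [2, 3]), (0, [1], [4, 5]), (4, [], [6])]),
  (3, 7, [(0, [0], [0, 1]), (0, [0], [2, 0]), (0, [1], [3, 1]), (4, [], [4]), (0, [2], [5, 6]), (0, [2], [3, 4]), (0, [1], [2, 5]), (4, [], [6])]),
  (3, 7, [(0, [0], [0, 1]), (0, [0], [2, 0]), (0, [1], [3, 1]), (4, [], [4]), (0, [2], [2, 5]), (0, [2], [3, 6]), (0, [1], [5, 6]), (4, [], [4])]),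
  (3, 7, [(0, [0], [0, 1]), (0, [0], [2, 0]), (0, [1], [3, 1]), (4, [], [4]), (0, [2], [3, 5]), (0, [2], [2, 6]), (0, [1], [4, 6]), (4, [], [5])]),
  (3, 7, [(0, [0], [0, 1]), (0, [0], [2, 0]), (0, [1], [3, 4]), (4, [], [1]), (0, [2], [3, 5]), (0, [2], [4, 6]), (0, [1], [5, 6]), (4, [], [2])]),
  (3, 7, [(0, [0], [0, 1]), (0, [0], [2, 3]), (0, [1], [0, 1]), (4, [], [4]), (0, [2], [5, 6]), (0, [2], [2, 4]), (0, [1], [3, 5]), (4, [], [6])]),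
  (3, 7, [(0, [0], [0, 1]), (0, [0], [2, 3]), (0, [1], [0, 1]), (4, [], [4]), (0, [2], [2, 5]), (0, [2], [3, 6]), (0, [1], [5, 6]), (4, [], [4])]),
  (3, 7, [(0, [0], [0, 1]), (0, [0], [2, 3]), (0, [1], [4, 0]), (4, [], [1]), (0, [2], [2, 5]), (0, [2], [3, 6]), (0, [1], [5, 6]), (4, [], [4])]),
  (3, 7, [(0, [0], [0, 1]), (0, [0], [2, 3]), (0, [1], [4, 0]), (4, [], [1]), (0, [2], [2, 5]), (0, [2], [4, 6]), (0, [1], [5, 6]), (4, [], [3])]),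
  (3, 7, [(0, [0], [0, 1]), (0, [0], [2, 3]), (0, [1], [4, 0]), (4, [], [1]), (0, [2], [2, 5]), (0, [2], [4, 6]), (0, [1], [3, 6]), (4, [], [5])]),
  (3, 7, [(0, [0], [0, 1]), (0, [0], [2, 3]), (0, [1], [1, 3]), (4, [], [4]), (0, [2], [0, 5]), (0, [2], [2, 6]), (0, [1], [5, 6]), (4, [], [4])])]

def kl36 : List ℕ := [57, 111, 112, 119, 120, 125, 126, 133, 144, 204, 206, 216, 217, 218, 219, 220, 221, 222, 223, 253, 267, 268, 285, 286, 287, 302]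

def m36_0 : Base := (0, 1, [(0, [0], [0, 5]), (0, [1], [1, 2]), (0, [2], [3, 5]), (4, [], [4])])

def l36_0 : Cov := [(720, 0, 1, [(0, [0], [0, 5]), (0, [1], [1, 2]), (0, [2], [3, 5]), (4, [], [4])]),
  (-720, 0, 1, [(0, [0], [0, 5]), (0, [1], [1, 2]), (0, [2], [4, 5]), (4, [], [3])]),
  (-720, 0, 1, [(0, [0], [0, 5]), (0, [1], [1, 3]), (0, [2], [2, 5]), (4, [], [4])]),
  (720, 0, 1, [(0, [0], [0, 5]), (0, [1], [1, 3]), (0, [2], [4, 5]), (4, [], [2])]),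
  (720, 0, 1, [(0, [0], [0, 5]), (0, [1], [1, 4]), (0, [2], [2, 5]), (4, [], [3])]),
  (-720, 0, 1, [(0, [0], [0, 5]), (0, [1], [1, 4]), (0, [2], [3, 5]), (4, [], [2])]),
  (-720, 0, 1, [(0, [0], [2, 5]), (0, [1], [0, 1]), (0, [2], [3, 5]), (4, [], [4])]),
  (720, 0, 1, [(0, [0], [2, 5]), (0, [1], [0, 1]), (0, [2], [4, 5]), (4, [], [3])]),
  (720, 0, 1, [(0, [0], [2, 5]), (0, [1], [1, 3]), (0, [2], [0, 5]), (4, [], [4])]),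
  (-720, 0, 1, [(0, [0], [2, 5]), (0, [1], [1, 3]), (0, [2], [4, 5]), (4, [], [0])]),
  (-720, 0, 1, [(0, [0], [2, 5]), (0, [1], [1, 4]), (0, [2], [0, 5]), (4, [], [3])]),
  (720, 0, 1, [(0, [0], [2, 5]), (0, [1], [1, 4]), (0, [2], [3, 5]), (4, [], [0])]),
  (720, 0, 1, [(0, [0], [3, 5]), (0, [1], [0, 1]), (0, [2], [2, 5]), (4, [], [4])]),
  (-720, 0, 1, [(0, [0], [3, 5]), (0, [1], [0, 1]), (0, [2], [4, 5]), (4, [], [2])]),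
  (-720, 0, 1, [(0, [0], [3, 5]), (0, [1], [1, 2]), (0, [2], [0, 5]), (4, [], [4])]),
  (720, 0, 1, [(0, [0], [3, 5]), (0, [1], [1, 2]), (0, [2], [4, 5]), (4, [], [0])]),
  (720, 0, 1, [(0, [0], [3, 5]), (0, [1], [1, 4]), (0, [2], [0, 5]), (4, [], [2])]),
  (-720, 0, 1, [(0, [0], [3, 5]), (0, [1], [1, 4]), (0, [2], [2, 5]), (4, [], [0])]),
  (-720, 0, 1, [(0, [0], [4, 5]), (0, [1], [0, 1]), (0, [2], [2, 5]), (4, [], [3])]),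
  (720, 0, 1, [(0, [0], [4, 5]), (0, [1], [0, 1]), (0, [2], [3, 5]), (4, [], [2])]),
  (720, 0, 1, [(0, [0], [4, 5]), (0, [1], [1, 2]), (0, [2], [0, 5]), (4, [], [3])]),
  (-720, 0, 1, [(0, [0], [4, 5]), (0, [1], [1, 2]), (0, [2], [3, 5]), (4, [], [0])]),
  (-720, 0, 1, [(0, [0], [4, 5]), (0, [1], [1, 3]), (0, [2], [0, 5]), (4, [], [2])]),
  (720, 0, 1, [(0, [0], [4, 5]), (0, [1], [1, 3]), (0, [2], [2, 5]), (4, [], [0])]),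
  (-720, 0, 1, [(0, [0], [0, 5]), (0, [2], [1, 2]), (0, [1], [3, 5]), (4, [], [4])]),
  (720, 0, 1, [(0, [0], [0, 5]), (0, [2], [1, 2]), (0, [1], [4, 5]), (4, [], [3])]),
  (720, 0, 1, [(0, [0], [0, 5]), (0, [2], [1, 3]), (0, [1], [2, 5]), (4, [], [4])]),
  (-720, 0, 1, [(0, [0], [0, 5]), (0, [2], [1, 3]), (0, [1], [4, 5]), (4, [], [2])]),
  (-720, 0, 1, [(0, [0], [0, 5]), (0, [2], [1, 4]), (0, [1], [2, 5]), (4, [], [3])]),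
  (720, 0, 1, [(0, [0], [0, 5]), (0, [2], [1, 4]), (0, [1], [3, 5]), (4, [], [2])]),
  (720, 0, 1, [(0, [0], [2, 5]), (0, [2], [0, 1]), (0, [1], [3, 5]), (4, [], [4])]),
  (-720, 0, 1, [(0, [0], [2, 5]), (0, [2], [0, 1]), (0, [1], [4, 5]), (4, [], [3])]),
  (-720, 0, 1, [(0, [0], [2, 5]), (0, [2], [1, 3]), (0, [1], [0, 5]), (4, [], [4])]),
  (720, 0, 1, [(0, [0], [2, 5]), (0, [2], [1, 3]), (0, [1], [4, 5]), (4, [], [0])]),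
  (720, 0, 1, [(0, [0], [2, 5]), (0, [2], [1, 4]), (0, [1], [0, 5]), (4, [], [3])]),
  (-720, 0, 1, [(0, [0], [2, 5]), (0, [2], [1, 4]), (0, [1], [3, 5]), (4, [], [0])]),
  (-720, 0, 1, [(0, [0], [3, 5]), (0, [2], [0, 1]), (0, [1], [2, 5]), (4, [], [4])]),
  (720, 0, 1, [(0, [0], [3, 5]), (0, [2], [0, 1]), (0, [1], [4, 5]), (4, [], [2])]),
  (720, 0, 1, [(0, [0], [3, 5]), (0, [2], [1, 2]), (0, [1], [0, 5]), (4, [], [4])]),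
  (-720, 0, 1, [(0, [0], [3, 5]), (0, [2], [1, 2]), (0, [1], [4, 5]), (4, [], [0])]),
  (-720, 0, 1, [(0, [0], [3, 5]), (0, [2], [1, 4]), (0, [1], [0, 5]), (4, [], [2])]),
  (720, 0, 1, [(0, [0], [3, 5]), (0, [2], [1, 4]), (0, [1], [2, 5]), (4, [], [0])]),
  (720, 0, 1, [(0, [0], [4, 5]), (0, [2], [0, 1]), (0, [1], [2, 5]), (4, [], [3])]),
  (-720, 0, 1, [(0, [0], [4, 5]), (0, [2], [0, 1]), (0, [1], [3, 5]), (4, [], [2])]),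
  (-720, 0, 1, [(0, [0], [4, 5]), (0, [2], [1, 2]), (0, [1], [0, 5]), (4, [], [3])]),
  (720, 0, 1, [(0, [0], [4, 5]), (0, [2], [1, 2]), (0, [1], [3, 5]), (4, [], [0])]),
  (720, 0, 1, [(0, [0], [4, 5]), (0, [2], [1, 3]), (0, [1], [0, 5]), (4, [], [2])]),
  (-720, 0, 1, [(0, [0], [4, 5]), (0, [2], [1, 3]), (0, [1], [2, 5]), (4, [], [0])]),
  (-720, 0, 1, [(0, [1], [0, 5]), (0, [0], [1, 2]), (0, [2], [3, 5]), (4, [], [4])]),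
  (720, 0, 1, [(0, [1], [0, 5]), (0, [0], [1, 2]), (0, [2], [4, 5]), (4, [], [3])]),
  (720, 0, 1, [(0, [1], [0, 5]), (0, [0], [1, 3]), (0, [2], [2, 5]), (4, [], [4])]),
  (-720, 0, 1, [(0, [1], [0, 5]), (0, [0], [1, 3]), (0, [2], [4, 5]), (4, [], [2])]),
  (-720, 0, 1, [(0, [1], [0, 5]), (0, [0], [1, 4]), (0, [2], [2, 5]), (4, [], [3])]),
  (720, 0, 1, [(0, [1], [0, 5]), (0, [0], [1, 4]), (0, [2], [3, 5]), (4, [], [2])]),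
  (720, 0, 1, [(0, [1], [2, 5]), (0, [0], [0, 1]), (0, [2], [3, 5]), (4, [], [4])]),
  (-720, 0, 1, [(0, [1], [2, 5]), (0, [0], [0, 1]), (0, [2], [4, 5]), (4, [], [3])]),
  (-720, 0, 1, [(0, [1], [2, 5]), (0, [0], [1, 3]), (0, [2], [0, 5]), (4, [], [4])]),
  (720, 0, 1, [(0, [1], [2, 5]), (0, [0], [1, 3]), (0, [2], [4, 5]), (4, [], [0])]),
  (720, 0, 1, [(0, [1], [2, 5]), (0, [0], [1, 4]), (0, [2], [0, 5]), (4, [], [3])]),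
  (-720, 0, 1, [(0, [1], [2, 5]), (0, [0], [1, 4]), (0, [2], [3, 5]), (4, [], [0])]),
  (-720, 0, 1, [(0, [1], [3, 5]), (0, [0], [0, 1]), (0, [2], [2, 5]), (4, [], [4])]),
  (720, 0, 1, [(0, [1], [3, 5]), (0, [0], [0, 1]), (0, [2], [4, 5]), (4, [], [2])]),
  (720, 0, 1, [(0, [1], [3, 5]), (0, [0], [1, 2]), (0, [2], [0, 5]), (4, [], [4])]),
  (-720, 0, 1, [(0, [1], [3, 5]), (0, [0], [1, 2]), (0, [2], [4, 5]), (4, [], [0])]),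
  (-720, 0, 1, [(0, [1], [3, 5]), (0, [0], [1, 4]), (0, [2], [0, 5]), (4, [], [2])]),
  (720, 0, 1, [(0, [1], [3, 5]), (0, [0], [1, 4]), (0, [2], [2, 5]), (4, [], [0])]),
  (720, 0, 1, [(0, [1], [4, 5]), (0, [0], [0, 1]), (0, [2], [2, 5]), (4, [], [3])]),
  (-720, 0, 1, [(0, [1], [4, 5]), (0, [0], [0, 1]), (0, [2], [3, 5]), (4, [], [2])]),
  (-720, 0, 1, [(0, [1], [4, 5]), (0, [0], [1, 2]), (0, [2], [0, 5]), (4, [], [3])]),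
  (720, 0, 1, [(0, [1], [4, 5]), (0, [0], [1, 2]), (0, [2], [3, 5]), (4, [], [0])]),
  (720, 0, 1, [(0, [1], [4, 5]), (0, [0], [1, 3]), (0, [2], [0, 5]), (4, [], [2])]),
  (-720, 0, 1, [(0, [1], [4, 5]), (0, [0], [1, 3]), (0, [2], [2, 5]), (4, [], [0])])]

def z36_0 : Cov := [(0, 0, 1, [(0, [0], [0, 5]), (0, [1], [2, 3]), (0, [2], [1, 5]), (4, [], [4])]),
  (0, 0, 1, [(0, [0], [0, 5]), (0, [1], [2, 3]), (0, [2], [4, 5]), (4, [], [1])]),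
  (0, 0, 1, [(0, [0], [0, 5]), (0, [1], [2, 4]), (0, [2], [1, 5]), (4, [], [3])]),
  (0, 0, 1, [(0, [0], [0, 5]), (0, [1], [2, 4]), (0, [2], [3, 5]), (4, [], [1])]),
  (0, 0, 1, [(0, [0], [0, 5]), (0, [1], [3, 4]), (0, [2], [1, 5]), (4, [], [2])]),
  (0, 0, 1, [(0, [0], [0, 5]), (0, [1], [3, 4]), (0, [2], [2, 5]), (4, [], [1])]),
  (0, 0, 1, [(0, [0], [1, 5]), (0, [1], [0, 2]), (0, [2], [3, 5]), (4, [], [4])]),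
  (0, 0, 1, [(0, [0], [1, 5]), (0, [1], [0, 2]), (0, [2], [4, 5]), (4, [], [3])]),
  (0, 0, 1, [(0, [0], [1, 5]), (0, [1], [0, 3]), (0, [2], [2, 5]), (4, [], [4])]),
  (0, 0, 1, [(0, [0], [1, 5]), (0, [1], [0, 3]), (0, [2], [4, 5]), (4, [], [2])]),
  (0, 0, 1, [(0, [0], [1, 5]), (0, [1], [0, 4]), (0, [2], [2, 5]), (4, [], [3])]),
  (0, 0, 1, [(0, [0], [1, 5]), (0, [1], [0, 4]), (0, [2], [3, 5]), (4, [], [2])]),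
  (0, 0, 1, [(0, [0], [1, 5]), (0, [1], [2, 3]), (0, [2], [0, 5]), (4, [], [4])]),
  (0, 0, 1, [(0, [0], [1, 5]), (0, [1], [2, 3]), (0, [2], [4, 5]), (4, [], [0])]),
  (0, 0, 1, [(0, [0], [1, 5]), (0, [1], [2, 4]), (0, [2], [0, 5]), (4, [], [3])]),
  (0, 0, 1, [(0, [0], [1, 5]), (0, [1], [2, 4]), (0, [2], [3, 5]), (4, [], [0])]),
  (0, 0, 1, [(0, [0], [1, 5]), (0, [1], [3, 4]), (0, [2], [0, 5]), (4, [], [2])]),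
  (0, 0, 1, [(0, [0], [1, 5]), (0, [1], [3, 4]), (0, [2], [2, 5]), (4, [], [0])]),
  (0, 0, 1, [(0, [0], [2, 5]), (0, [1], [0, 3]), (0, [2], [1, 5]), (4, [], [4])]),
  (0, 0, 1, [(0, [0], [2, 5]), (0, [1], [0, 3]), (0, [2], [4, 5]), (4, [], [1])]),
  (0, 0, 1, [(0, [0], [2, 5]), (0, [1], [0, 4]), (0, [2], [1, 5]), (4, [], [3])]),
  (0, 0, 1, [(0, [0], [2, 5]), (0, [1], [0, 4]), (0, [2], [3, 5]), (4, [], [1])]),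
  (0, 0, 1, [(0, [0], [2, 5]), (0, [1], [3, 4]), (0, [2], [0, 5]), (4, [], [1])]),
  (0, 0, 1, [(0, [0], [2, 5]), (0, [1], [3, 4]), (0, [2], [1, 5]), (4, [], [0])]),
  (0, 0, 1, [(0, [0], [3, 5]), (0, [1], [0, 2]), (0, [2], [1, 5]), (4, [], [4])]),
  (0, 0, 1, [(0, [0], [3, 5]), (0, [1], [0, 2]), (0, [2], [4, 5]), (4, [], [1])]),
  (0, 0, 1, [(0, [0], [3, 5]), (0, [1], [0, 4]), (0, [2], [1, 5]), (4, [], [2])]),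
  (0, 0, 1, [(0, [0], [3, 5]), (0, [1], [0, 4]), (0, [2], [2, 5]), (4, [], [1])]),
  (0, 0, 1, [(0, [0], [3, 5]), (0, [1], [2, 4]), (0, [2], [0, 5]), (4, [], [1])]),
  (0, 0, 1, [(0, [0], [3, 5]), (0, [1], [2, 4]), (0, [2], [1, 5]), (4, [], [0])]),
  (0, 0, 1, [(0, [0], [4, 5]), (0, [1], [0, 2]), (0, [2], [1, 5]), (4, [], [3])]),
  (0, 0, 1, [(0, [0], [4, 5]), (0, [1], [0, 2]), (0, [2], [3, 5]), (4, [], [1])]),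
  (0, 0, 1, [(0, [0], [4, 5]), (0, [1], [0, 3]), (0, [2], [1, 5]), (4, [], [2])]),
  (0, 0, 1, [(0, [0], [4, 5]), (0, [1], [0, 3]), (0, [2], [2, 5]), (4, [], [1])]),
  (0, 0, 1, [(0, [0], [4, 5]), (0, [1], [2, 3]), (0, [2], [0, 5]), (4, [], [1])]),
  (0, 0, 1, [(0, [0], [4, 5]), (0, [1], [2, 3]), (0, [2], [1, 5]), (4, [], [0])]),
  (0, 0, 1, [(0, [0], [0, 5]), (0, [2], [2, 3]), (0, [1], [1, 5]), (4, [], [4])]),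
  (0, 0, 1, [(0, [0], [0, 5]), (0, [2], [2, 3]), (0, [1], [4, 5]), (4, [], [1])]),
  (0, 0, 1, [(0, [0], [0, 5]), (0, [2], [2, 4]), (0, [1], [1, 5]), (4, [], [3])]),
  (0, 0, 1, [(0, [0], [0, 5]), (0, [2], [2, 4]), (0, [1], [3, 5]), (4, [], [1])]),
  (0, 0, 1, [(0, [0], [0, 5]), (0, [2], [3, 4]), (0, [1], [1, 5]), (4, [], [2])]),
  (0, 0, 1, [(0, [0], [0, 5]), (0, [2], [3, 4]), (0, [1], [2, 5]), (4, [], [1])]),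
  (0, 0, 1, [(0, [0], [1, 5]), (0, [2], [0, 2]), (0, [1], [3, 5]), (4, [], [4])]),
  (0, 0, 1, [(0, [0], [1, 5]), (0, [2], [0, 2]), (0, [1], [4, 5]), (4, [], [3])]),
  (0, 0, 1, [(0, [0], [1, 5]), (0, [2], [0, 3]), (0, [1], [2, 5]), (4, [], [4])]),
  (0, 0, 1, [(0, [0], [1, 5]), (0, [2], [0, 3]), (0, [1], [4, 5]), (4, [], [2])]),
  (0, 0, 1, [(0, [0], [1, 5]), (0, [2], [0, 4]), (0, [1], [2, 5]), (4, [], [3])]),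
  (0, 0, 1, [(0, [0], [1, 5]), (0, [2], [0, 4]), (0, [1], [3, 5]), (4, [], [2])]),
  (0, 0, 1, [(0, [0], [1, 5]), (0, [2], [2, 3]), (0, [1], [0, 5]), (4, [], [4])]),
  (0, 0, 1, [(0, [0], [1, 5]), (0, [2], [2, 3]), (0, [1], [4, 5]), (4, [], [0])]),
  (0, 0, 1, [(0, [0], [1, 5]), (0, [2], [2, 4]), (0, [1], [0, 5]), (4, [], [3])]),
  (0, 0, 1, [(0, [0], [1, 5]), (0, [2], [2, 4]), (0, [1], [3, 5]), (4, [], [0])]),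
  (0, 0, 1, [(0, [0], [1, 5]), (0, [2], [3, 4]), (0, [1], [0, 5]), (4, [], [2])]),
  (0, 0, 1, [(0, [0], [1, 5]), (0, [2], [3, 4]), (0, [1], [2, 5]), (4, [], [0])]),
  (0, 0, 1, [(0, [0], [2, 5]), (0, [2], [0, 3]), (0, [1], [1, 5]), (4, [], [4])]),
  (0, 0, 1, [(0, [0], [2, 5]), (0, [2], [0, 3]), (0, [1], [4, 5]), (4, [], [1])]),
  (0, 0, 1, [(0, [0], [2, 5]), (0, [2], [0, 4]), (0, [1], [1, 5]), (4, [], [3])]),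
  (0, 0, 1, [(0, [0], [2, 5]), (0, [2], [0, 4]), (0, [1], [3, 5]), (4, [], [1])]),
  (0, 0, 1, [(0, [0], [2, 5]), (0, [2], [3, 4]), (0, [1], [0, 5]), (4, [], [1])]),
  (0, 0, 1, [(0, [0], [2, 5]), (0, [2], [3, 4]), (0, [1], [1, 5]), (4, [], [0])]),
  (0, 0, 1, [(0, [0], [3, 5]), (0, [2], [0, 2]), (0, [1], [1, 5]), (4, [], [4])]),
  (0, 0, 1, [(0, [0], [3, 5]), (0, [2], [0, 2]), (0, [1], [4, 5]), (4, [], [1])]),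
  (0, 0, 1, [(0, [0], [3, 5]), (0, [2], [0, 4]), (0, [1], [1, 5]), (4, [], [2])]),
  (0, 0, 1, [(0, [0], [3, 5]), (0, [2], [0, 4]), (0, [1], [2, 5]), (4, [], [1])]),
  (0, 0, 1, [(0, [0], [3, 5]), (0, [2], [2, 4]), (0, [1], [0, 5]), (4, [], [1])]),
  (0, 0, 1, [(0, [0], [3, 5]), (0, [2], [2, 4]), (0, [1], [1, 5]), (4, [], [0])]),
  (0, 0, 1, [(0, [0], [4, 5]), (0, [2], [0, 2]), (0, [1], [1, 5]), (4, [], [3])]),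
  (0, 0, 1, [(0, [0], [4, 5]), (0, [2], [0, 2]), (0, [1], [3, 5]), (4, [], [1])]),
  (0, 0, 1, [(0, [0], [4, 5]), (0, [2], [0, 3]), (0, [1], [1, 5]), (4, [], [2])]),
  (0, 0, 1, [(0, [0], [4, 5]), (0, [2], [0, 3]), (0, [1], [2, 5]), (4, [], [1])]),
  (0, 0, 1, [(0, [0], [4, 5]), (0, [2], [2, 3]), (0, [1], [0, 5]), (4, [], [1])]),
  (0, 0, 1, [(0, [0], [4, 5]), (0, [2], [2, 3]), (0, [1], [1, 5]), (4, [], [0])]),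
  (0, 0, 1, [(0, [1], [0, 5]), (0, [0], [2, 3]), (0, [2], [1, 5]), (4, [], [4])]),
  (0, 0, 1, [(0, [1], [0, 5]), (0, [0], [2, 3]), (0, [2], [4, 5]), (4, [], [1])]),
  (0, 0, 1, [(0, [1], [0, 5]), (0, [0], [2, 4]), (0, [2], [1, 5]), (4, [], [3])]),
  (0, 0, 1, [(0, [1], [0, 5]), (0, [0], [2, 4]), (0, [2], [3, 5]), (4, [], [1])]),
  (0, 0, 1, [(0, [1], [0, 5]), (0, [0], [3, 4]), (0, [2], [1, 5]), (4, [], [2])]),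
  (0, 0, 1, [(0, [1], [0, 5]), (0, [0], [3, 4]), (0, [2], [2, 5]), (4, [], [1])]),
  (0, 0, 1, [(0, [1], [1, 5]), (0, [0], [0, 2]), (0, [2], [3, 5]), (4, [], [4])]),
  (0, 0, 1, [(0, [1], [1, 5]), (0, [0], [0, 2]), (0, [2], [4, 5]), (4, [], [3])]),
  (0, 0, 1, [(0, [1], [1, 5]), (0, [0], [0, 3]), (0, [2], [2, 5]), (4, [], [4])]),
  (0, 0, 1, [(0, [1], [1, 5]), (0, [0], [0, 3]), (0, [2], [4, 5]), (4, [], [2])]),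
  (0, 0, 1, [(0, [1], [1, 5]), (0, [0], [0, 4]), (0, [2], [2, 5]), (4, [], [3])]),
  (0, 0, 1, [(0, [1], [1, 5]), (0, [0], [0, 4]), (0, [2], [3, 5]), (4, [], [2])]),
  (0, 0, 1, [(0, [1], [1, 5]), (0, [0], [2, 3]), (0, [2], [0, 5]), (4, [], [4])]),
  (0, 0, 1, [(0, [1], [1, 5]), (0, [0], [2, 3]), (0, [2], [4, 5]), (4, [], [0])]),
  (0, 0, 1, [(0, [1], [1, 5]), (0, [0], [2, 4]), (0, [2], [0, 5]), (4, [], [3])]),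
  (0, 0, 1, [(0, [1], [1, 5]), (0, [0], [2, 4]), (0, [2], [3, 5]), (4, [], [0])]),
  (0, 0, 1, [(0, [1], [1, 5]), (0, [0], [3, 4]), (0, [2], [0, 5]), (4, [], [2])]),
  (0, 0, 1, [(0, [1], [1, 5]), (0, [0], [3, 4]), (0, [2], [2, 5]), (4, [], [0])]),
  (0, 0, 1, [(0, [1], [2, 5]), (0, [0], [0, 3]), (0, [2], [1, 5]), (4, [], [4])]),
  (0, 0, 1, [(0, [1], [2, 5]), (0, [0], [0, 3]), (0, [2], [4, 5]), (4, [], [1])]),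
  (0, 0, 1, [(0, [1], [2, 5]), (0, [0], [0, 4]), (0, [2], [1, 5]), (4, [], [3])]),
  (0, 0, 1, [(0, [1], [2, 5]), (0, [0], [0, 4]), (0, [2], [3, 5]), (4, [], [1])]),
  (0, 0, 1, [(0, [1], [2, 5]), (0, [0], [3, 4]), (0, [2], [0, 5]), (4, [], [1])]),
  (0, 0, 1, [(0, [1], [2, 5]), (0, [0], [3, 4]), (0, [2], [1, 5]), (4, [], [0])]),
  (0, 0, 1, [(0, [1], [3, 5]), (0, [0], [0, 2]), (0, [2], [1, 5]), (4, [], [4])]),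
  (0, 0, 1, [(0, [1], [3, 5]), (0, [0], [0, 2]), (0, [2], [4, 5]), (4, [], [1])]),
  (0, 0, 1, [(0, [1], [3, 5]), (0, [0], [0, 4]), (0, [2], [1, 5]), (4, [], [2])]),
  (0, 0, 1, [(0, [1], [3, 5]), (0, [0], [0, 4]), (0, [2], [2, 5]), (4, [], [1])]),
  (0, 0, 1, [(0, [1], [3, 5]), (0, [0], [2, 4]), (0, [2], [0, 5]), (4, [], [1])]),
  (0, 0, 1, [(0, [1], [3, 5]), (0, [0], [2, 4]), (0, [2], [1, 5]), (4, [], [0])]),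
  (0, 0, 1, [(0, [1], [4, 5]), (0, [0], [0, 2]), (0, [2], [1, 5]), (4, [], [3])]),
  (0, 0, 1, [(0, [1], [4, 5]), (0, [0], [0, 2]), (0, [2], [3, 5]), (4, [], [1])]),
  (0, 0, 1, [(0, [1], [4, 5]), (0, [0], [0, 3]), (0, [2], [1, 5]), (4, [], [2])]),
  (0, 0, 1, [(0, [1], [4, 5]), (0, [0], [0, 3]), (0, [2], [2, 5]), (4, [], [1])]),
  (0, 0, 1, [(0, [1], [4, 5]), (0, [0], [2, 3]), (0, [2], [0, 5]), (4, [], [1])]),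
  (0, 0, 1, [(0, [1], [4, 5]), (0, [0], [2, 3]), (0, [2], [1, 5]), (4, [], [0])])]

def w36_0 : List (List Wit) := [[(0, 0, 0, 0, 0), (1, 0, 0, 0, 0), (2, 0, 0, 0, 0), (3, 0, 0, 0, 0), (4, 0, 0, 0, 0), (5, 0, 0, 0, 0), (0, 0, 0, 0, 0), (1, 0, 0, 0, 0), (72, 0, 0, 0, 0), (73, 0, 0, 0, 0), (74, 0, 0, 0, 0), (75, 0, 0, 0, 0), (2, 0, 0, 0, 0), (3, 0, 0, 0, 0), (72, 0, 0, 0, 0), (73, 0, 0, 0, 0), (76, 0, 0, 0, 0), (77, 0, 0, 0, 0), (4, 0, 0, 0, 0), (5, 0, 0, 0, 0), (74, 0, 0, 0, 0), (75, 0, 0, 0, 0), (76, 0, 0, 0, 0), (77, 0, 0, 0, 0), (78, 0, 0, 0, 0), (79, 0, 0, 0, 0), (80, 0, 0, 0, 0), (81, 0, 0, 0, 0), (82, 0, 0, 0, 0), (83, 0, 0, 0, 0), (78, 0, 0, 0, 0), (79, 0, 0, 0, 0), (84, 0, 0, 0, 0), (85, 0, 0, 0, 0), (86, 0, 0, 0, 0), (87, 0, 0, 0, 0), (80, 0, 0, 0, 0), (81, 0, 0, 0, 0), (84, 0, 0, 0, 0), (85, 0, 0, 0, 0),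 (88, 0, 0, 0, 0), (89, 0, 0, 0, 0), (82, 0, 0, 0, 0), (83, 0, 0, 0, 0), (86, 0, 0, 0, 0), (87, 0, 0, 0, 0), (88, 0, 0, 0, 0), (89, 0, 0, 0, 0), (6, 0, 0, 0, 0), (7, 0, 0, 0, 0), (90, 0, 0, 0, 0), (91, 0, 0, 0, 0), (92, 0, 0, 0, 0), (93, 0, 0, 0, 0), (6, 0, 0, 0, 0), (7, 0, 0, 0, 0), (8, 0, 0, 0, 0), (9, 0, 0, 0, 0), (10, 0, 0, 0, 0), (11, 0, 0, 0, 0), (90, 0, 0, 0, 0), (91, 0, 0, 0, 0), (8, 0, 0, 0, 0), (9, 0, 0, 0, 0), (94, 0, 0, 0, 0), (95, 0, 0, 0, 0), (92, 0, 0, 0, 0), (93, 0, 0, 0, 0), (10, 0, 0, 0, 0), (11, 0, 0, 0, 0), (94, 0, 0, 0, 0), (95, 0, 0, 0, 0), (12, 0, 0, 0, 0), (13, 0, 0, 0, 0), (96, 0, 0, 0, 0), (97, 0, 0, 0, 0), (98, 0, 0, 0, 0), (99, 0, 0, 0, 0), (12, 0, 0, 0, 0), (13, 0, 0, 0, 0), (14, 0, 0, 0, 0), (15, 0, 0, 0, 0), (16, 0, 0, 0, 0), (17, 0, 0, 0, 0), (96, 0, 0, 0, 0), (97, 0, 0, 0, 0), (14,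 0, 0, 0, 0), (15, 0, 0, 0, 0), (100, 0, 0, 0, 0), (101, 0, 0, 0, 0), (98, 0, 0, 0, 0), (99, 0, 0, 0, 0), (16, 0, 0, 0, 0), (17, 0, 0, 0, 0), (100, 0, 0, 0, 0), (101, 0, 0, 0, 0), (18, 0, 0, 0, 0), (19, 0, 0, 0, 0), (102, 0, 0, 0, 0), (103, 0, 0, 0, 0), (104, 0, 0, 0, 0), (105, 0, 0, 0, 0), (18, 0, 0, 0, 0), (19, 0, 0, 0, 0), (20, 0, 0, 0, 0), (21, 0, 0, 0, 0), (22, 0, 0, 0, 0), (23, 0, 0, 0, 0), (102, 0, 0, 0, 0), (103, 0, 0, 0, 0), (20, 0, 0, 0, 0), (21, 0, 0, 0, 0), (106, 0, 0, 0, 0), (107, 0, 0, 0, 0), (104, 0, 0, 0, 0), (105, 0, 0, 0, 0), (22, 0, 0, 0, 0), (23, 0, 0, 0, 0), (106, 0, 0, 0, 0), (107, 0, 0, 0, 0)],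
  [(24, 0, 0, 0, 0), (25, 0, 0, 0, 0), (26, 0, 0, 0, 0), (27, 0, 0, 0, 0), (28, 0, 0, 0, 0), (29, 0, 0, 0, 0), (24, 0, 0, 0, 0), (25, 0, 0, 0, 0), (108, 0, 0, 0, 0), (109, 0, 0, 0, 0), (110, 0, 0, 0, 0), (111, 0, 0, 0, 0), (26, 0, 0, 0, 0), (27, 0, 0, 0, 0), (108, 0, 0, 0, 0), (109, 0, 0, 0, 0), (112, 0, 0, 0, 0), (113, 0, 0, 0, 0), (28, 0, 0, 0, 0), (29, 0, 0, 0, 0), (110, 0, 0, 0, 0), (111, 0, 0, 0, 0), (112, 0, 0, 0, 0), (113, 0, 0, 0, 0), (114, 0, 0, 0, 0), (115, 0, 0, 0, 0), (116, 0, 0, 0, 0), (117, 0, 0, 0, 0), (118, 0, 0, 0, 0), (119, 0, 0, 0, 0), (114, 0, 0, 0, 0), (115, 0, 0, 0, 0), (120, 0, 0, 0, 0), (121, 0, 0, 0, 0), (122, 0, 0, 0, 0), (123, 0, 0, 0, 0), (116, 0, 0, 0, 0), (117, 0, 0, 0, 0), (120, 0, 0, 0, 0), (121, 0, 0, 0, 0), (124, 0, 0, 0, 0), (125, 0, 0, 0, 0), (118, 0, 0, 0, 0), (119, 0, 0, 0, 0),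 (122, 0, 0, 0, 0), (123, 0, 0, 0, 0), (124, 0, 0, 0, 0), (125, 0, 0, 0, 0), (30, 0, 0, 0, 0), (31, 0, 0, 0, 0), (126, 0, 0, 0, 0), (127, 0, 0, 0, 0), (128, 0, 0, 0, 0), (129, 0, 0, 0, 0), (30, 0, 0, 0, 0), (31, 0, 0, 0, 0), (32, 0, 0, 0, 0), (33, 0, 0, 0, 0), (34, 0, 0, 0, 0), (35, 0, 0, 0, 0), (126, 0, 0, 0, 0), (127, 0, 0, 0, 0), (32, 0, 0, 0, 0), (33, 0, 0, 0, 0), (130, 0, 0, 0, 0), (131, 0, 0, 0, 0), (128, 0, 0, 0, 0), (129, 0, 0, 0, 0), (34, 0, 0, 0, 0), (35, 0, 0, 0, 0), (130, 0, 0, 0, 0), (131, 0, 0, 0, 0), (36, 0, 0, 0, 0), (37, 0, 0, 0, 0), (132, 0, 0, 0, 0), (133, 0, 0, 0, 0), (134, 0, 0, 0, 0), (135, 0, 0, 0, 0), (36, 0, 0, 0, 0), (37, 0, 0, 0, 0), (38, 0, 0, 0, 0), (39, 0, 0, 0, 0), (40, 0, 0, 0, 0), (41, 0, 0, 0, 0), (132, 0, 0, 0, 0), (133, 0, 0, 0, 0), (38, 0, 0, 0, 0), (39, 0, 0, 0, 0), (136, 0, 0,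 0, 0), (137, 0, 0, 0, 0), (134, 0, 0, 0, 0), (135, 0, 0, 0, 0), (40, 0, 0, 0, 0), (41, 0, 0, 0, 0), (136, 0, 0, 0, 0), (137, 0, 0, 0, 0), (42, 0, 0, 0, 0), (43, 0, 0, 0, 0), (138, 0, 0, 0, 0), (139, 0, 0, 0, 0), (140, 0, 0, 0, 0), (141, 0, 0, 0, 0), (42, 0, 0, 0, 0), (43, 0, 0, 0, 0), (44, 0, 0, 0, 0), (45, 0, 0, 0, 0), (46, 0, 0, 0, 0), (47, 0, 0, 0, 0), (138, 0, 0, 0, 0), (139, 0, 0, 0, 0), (44, 0, 0, 0, 0), (45, 0, 0, 0, 0), (142, 0, 0, 0, 0), (143, 0, 0, 0, 0), (140, 0, 0, 0, 0), (141, 0, 0, 0, 0), (46, 0, 0, 0, 0), (47, 0, 0, 0, 0), (142, 0, 0, 0, 0), (143, 0, 0, 0, 0)],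
  [(48, 0, 0, 0, 0), (49, 0, 0, 0, 0), (50, 0, 0, 0, 0), (51, 0, 0, 0, 0), (52, 0, 0, 0, 0), (53, 0, 0, 0, 0), (48, 0, 0, 0, 0), (49, 0, 0, 0, 0), (144, 0, 0, 0, 0), (145, 0, 0, 0, 0), (146, 0, 0, 0, 0), (147, 0, 0, 0, 0), (50, 0, 0, 0, 0), (51, 0, 0, 0, 0), (144, 0, 0, 0, 0), (145, 0, 0, 0, 0), (148, 0, 0, 0, 0), (149, 0, 0, 0, 0), (52, 0, 0, 0, 0), (53, 0, 0, 0, 0), (146, 0, 0, 0, 0), (147, 0, 0, 0, 0), (148, 0, 0, 0, 0), (149, 0, 0, 0, 0), (150, 0, 0, 0, 0), (151, 0, 0, 0, 0), (152, 0, 0, 0, 0), (153, 0, 0, 0, 0), (154, 0, 0, 0, 0), (155, 0, 0, 0, 0), (150, 0, 0, 0, 0), (151, 0, 0, 0, 0), (156, 0, 0, 0, 0), (157, 0, 0, 0, 0), (158, 0, 0, 0, 0), (159, 0, 0, 0, 0), (152, 0, 0, 0, 0), (153, 0, 0, 0, 0), (156, 0, 0, 0, 0), (157, 0, 0, 0, 0), (160, 0, 0, 0, 0), (161, 0, 0, 0, 0), (154, 0, 0, 0, 0), (155, 0, 0, 0, 0),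 (158, 0, 0, 0, 0), (159, 0, 0, 0, 0), (160, 0, 0, 0, 0), (161, 0, 0, 0, 0), (54, 0, 0, 0, 0), (55, 0, 0, 0, 0), (162, 0, 0, 0, 0), (163, 0, 0, 0, 0), (164, 0, 0, 0, 0), (165, 0, 0, 0, 0), (54, 0, 0, 0, 0), (55, 0, 0, 0, 0), (56, 0, 0, 0, 0), (57, 0, 0, 0, 0), (58, 0, 0, 0, 0), (59, 0, 0, 0, 0), (162, 0, 0, 0, 0), (163, 0, 0, 0, 0), (56, 0, 0, 0, 0), (57, 0, 0, 0, 0), (166, 0, 0, 0, 0), (167, 0, 0, 0, 0), (164, 0, 0, 0, 0), (165, 0, 0, 0, 0), (58, 0, 0, 0, 0), (59, 0, 0, 0, 0), (166, 0, 0, 0, 0), (167, 0, 0, 0, 0), (60, 0, 0, 0, 0), (61, 0, 0, 0, 0), (168, 0, 0, 0, 0), (169, 0, 0, 0, 0), (170, 0, 0, 0, 0), (171, 0, 0, 0, 0), (60, 0, 0, 0, 0), (61, 0, 0, 0, 0), (62, 0, 0, 0, 0), (63, 0, 0, 0, 0), (64, 0, 0, 0, 0), (65, 0, 0, 0, 0), (168, 0, 0, 0, 0), (169, 0, 0, 0, 0), (62, 0, 0, 0, 0), (63, 0, 0, 0, 0), (172, 0, 0,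 0, 0), (173, 0, 0, 0, 0), (170, 0, 0, 0, 0), (171, 0, 0, 0, 0), (64, 0, 0, 0, 0), (65, 0, 0, 0, 0), (172, 0, 0, 0, 0), (173, 0, 0, 0, 0), (66, 0, 0, 0, 0), (67, 0, 0, 0, 0), (174, 0, 0, 0, 0), (175, 0, 0, 0, 0), (176, 0, 0, 0, 0), (177, 0, 0, 0, 0), (66, 0, 0, 0, 0), (67, 0, 0, 0, 0), (68, 0, 0, 0, 0), (69, 0, 0, 0, 0), (70, 0, 0, 0, 0), (71, 0, 0, 0, 0), (174, 0, 0, 0, 0), (175, 0, 0, 0, 0), (68, 0, 0, 0, 0), (69, 0, 0, 0, 0), (178, 0, 0, 0, 0), (179, 0, 0, 0, 0), (176, 0, 0, 0, 0), (177, 0, 0, 0, 0), (70, 0, 0, 0, 0), (71, 0, 0, 0, 0), (178, 0, 0, 0, 0), (179, 0, 0, 0, 0)],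
  [(38, 0, 0, 0, 0), (44, 0, 0, 0, 0), (32, 0, 0, 0, 0), (46, 0, 0, 0, 0), (34, 0, 0, 0, 0), (40, 0, 0, 0, 0), (38, 0, 0, 0, 0), (44, 0, 0, 0, 0), (120, 0, 0, 0, 0), (142, 0, 0, 0, 0), (122, 0, 0, 0, 0), (136, 0, 0, 0, 0), (32, 0, 0, 0, 0), (46, 0, 0, 0, 0), (120, 0, 0, 0, 0), (142, 0, 0, 0, 0), (124, 0, 0, 0, 0), (130, 0, 0, 0, 0), (34, 0, 0, 0, 0), (40, 0, 0, 0, 0), (122, 0, 0, 0, 0), (136, 0, 0, 0, 0), (124, 0, 0, 0, 0), (130, 0, 0, 0, 0), (132, 0, 0, 0, 0), (138, 0, 0, 0, 0), (126, 0, 0, 0, 0), (140, 0, 0, 0, 0), (128, 0, 0, 0, 0), (134, 0, 0, 0, 0), (132, 0, 0, 0, 0), (138, 0, 0, 0, 0), (108, 0, 0, 0, 0), (143, 0, 0, 0, 0), (110, 0, 0, 0, 0), (137, 0, 0, 0, 0), (126, 0, 0, 0, 0), (140, 0, 0, 0, 0), (108, 0, 0, 0, 0), (143, 0, 0, 0, 0), (112, 0, 0, 0, 0), (131, 0, 0, 0, 0), (128, 0, 0, 0, 0), (134, 0, 0, 0, 0),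 (110, 0, 0, 0, 0), (137, 0, 0, 0, 0), (112, 0, 0, 0, 0), (131, 0, 0, 0, 0), (36, 0, 0, 0, 0), (42, 0, 0, 0, 0), (116, 0, 0, 0, 0), (141, 0, 0, 0, 0), (118, 0, 0, 0, 0), (135, 0, 0, 0, 0), (36, 0, 0, 0, 0), (42, 0, 0, 0, 0), (26, 0, 0, 0, 0), (47, 0, 0, 0, 0), (28, 0, 0, 0, 0), (41, 0, 0, 0, 0), (116, 0, 0, 0, 0), (141, 0, 0, 0, 0), (26, 0, 0, 0, 0), (47, 0, 0, 0, 0), (113, 0, 0, 0, 0), (125, 0, 0, 0, 0), (118, 0, 0, 0, 0), (135, 0, 0, 0, 0), (28, 0, 0, 0, 0), (41, 0, 0, 0, 0), (113, 0, 0, 0, 0), (125, 0, 0, 0, 0), (30, 0, 0, 0, 0), (43, 0, 0, 0, 0), (114, 0, 0, 0, 0), (139, 0, 0, 0, 0), (119, 0, 0, 0, 0), (129, 0, 0, 0, 0), (30, 0, 0, 0, 0), (43, 0, 0, 0, 0), (24, 0, 0, 0, 0), (45, 0, 0, 0, 0), (29, 0, 0, 0, 0), (35, 0, 0, 0, 0), (114, 0, 0, 0, 0), (139, 0, 0, 0, 0), (24, 0, 0, 0, 0), (45, 0, 0, 0, 0), (111, 0, 0,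 0, 0), (123, 0, 0, 0, 0), (119, 0, 0, 0, 0), (129, 0, 0, 0, 0), (29, 0, 0, 0, 0), (35, 0, 0, 0, 0), (111, 0, 0, 0, 0), (123, 0, 0, 0, 0), (31, 0, 0, 0, 0), (37, 0, 0, 0, 0), (115, 0, 0, 0, 0), (133, 0, 0, 0, 0), (117, 0, 0, 0, 0), (127, 0, 0, 0, 0), (31, 0, 0, 0, 0), (37, 0, 0, 0, 0), (25, 0, 0, 0, 0), (39, 0, 0, 0, 0), (27, 0, 0, 0, 0), (33, 0, 0, 0, 0), (115, 0, 0, 0, 0), (133, 0, 0, 0, 0), (25, 0, 0, 0, 0), (39, 0, 0, 0, 0), (109, 0, 0, 0, 0), (121, 0, 0, 0, 0), (117, 0, 0, 0, 0), (127, 0, 0, 0, 0), (27, 0, 0, 0, 0), (33, 0, 0, 0, 0), (109, 0, 0, 0, 0), (121, 0, 0, 0, 0)],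
  [(62, 0, 0, 0, 0), (68, 0, 0, 0, 0), (56, 0, 0, 0, 0), (70, 0, 0, 0, 0), (58, 0, 0, 0, 0), (64, 0, 0, 0, 0), (62, 0, 0, 0, 0), (68, 0, 0, 0, 0), (156, 0, 0, 0, 0), (178, 0, 0, 0, 0), (158, 0, 0, 0, 0), (172, 0, 0, 0, 0), (56, 0, 0, 0, 0), (70, 0, 0, 0, 0), (156, 0, 0, 0, 0), (178, 0, 0, 0, 0), (160, 0, 0, 0, 0), (166, 0, 0, 0, 0), (58, 0, 0, 0, 0), (64, 0, 0, 0, 0), (158, 0, 0, 0, 0), (172, 0, 0, 0, 0), (160, 0, 0, 0, 0), (166, 0, 0, 0, 0), (168, 0, 0, 0, 0), (174, 0, 0, 0, 0), (162, 0, 0, 0, 0), (176, 0, 0, 0, 0), (164, 0, 0, 0, 0), (170, 0, 0, 0, 0), (168, 0, 0, 0, 0), (174, 0, 0, 0, 0), (144, 0, 0, 0, 0), (179, 0, 0, 0, 0), (146, 0, 0, 0, 0), (173, 0, 0, 0, 0), (162, 0, 0, 0, 0), (176, 0, 0, 0, 0), (144, 0, 0, 0, 0), (179, 0, 0, 0, 0), (148, 0, 0, 0, 0), (167, 0, 0, 0, 0), (164, 0, 0, 0, 0), (170, 0, 0, 0, 0),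 (146, 0, 0, 0, 0), (173, 0, 0, 0, 0), (148, 0, 0, 0, 0), (167, 0, 0, 0, 0), (60, 0, 0, 0, 0), (66, 0, 0, 0, 0), (152, 0, 0, 0, 0), (177, 0, 0, 0, 0), (154, 0, 0, 0, 0), (171, 0, 0, 0, 0), (60, 0, 0, 0, 0), (66, 0, 0, 0, 0), (50, 0, 0, 0, 0), (71, 0, 0, 0, 0), (52, 0, 0, 0, 0), (65, 0, 0, 0, 0), (152, 0, 0, 0, 0), (177, 0, 0, 0, 0), (50, 0, 0, 0, 0), (71, 0, 0, 0, 0), (149, 0, 0, 0, 0), (161, 0, 0, 0, 0), (154, 0, 0, 0, 0), (171, 0, 0, 0, 0), (52, 0, 0, 0, 0), (65, 0, 0, 0, 0), (149, 0, 0, 0, 0), (161, 0, 0, 0, 0), (54, 0, 0, 0, 0), (67, 0, 0, 0, 0), (150, 0, 0, 0, 0), (175, 0, 0, 0, 0), (155, 0, 0, 0, 0), (165, 0, 0, 0, 0), (54, 0, 0, 0, 0), (67, 0, 0, 0, 0), (48, 0, 0, 0, 0), (69, 0, 0, 0, 0), (53, 0, 0, 0, 0), (59, 0, 0, 0, 0), (150, 0, 0, 0, 0), (175, 0, 0, 0, 0), (48, 0, 0, 0, 0), (69, 0, 0, 0, 0), (147, 0, 0,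 0, 0), (159, 0, 0, 0, 0), (155, 0, 0, 0, 0), (165, 0, 0, 0, 0), (53, 0, 0, 0, 0), (59, 0, 0, 0, 0), (147, 0, 0, 0, 0), (159, 0, 0, 0, 0), (55, 0, 0, 0, 0), (61, 0, 0, 0, 0), (151, 0, 0, 0, 0), (169, 0, 0, 0, 0), (153, 0, 0, 0, 0), (163, 0, 0, 0, 0), (55, 0, 0, 0, 0), (61, 0, 0, 0, 0), (49, 0, 0, 0, 0), (63, 0, 0, 0, 0), (51, 0, 0, 0, 0), (57, 0, 0, 0, 0), (151, 0, 0, 0, 0), (169, 0, 0, 0, 0), (49, 0, 0, 0, 0), (63, 0, 0, 0, 0), (145, 0, 0, 0, 0), (157, 0, 0, 0, 0), (153, 0, 0, 0, 0), (163, 0, 0, 0, 0), (51, 0, 0, 0, 0), (57, 0, 0, 0, 0), (145, 0, 0, 0, 0), (157, 0, 0, 0, 0)],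
  [(14, 0, 0, 0, 0), (20, 0, 0, 0, 0), (8, 0, 0, 0, 0), (22, 0, 0, 0, 0), (10, 0, 0, 0, 0), (16, 0, 0, 0, 0), (14, 0, 0, 0, 0), (20, 0, 0, 0, 0), (84, 0, 0, 0, 0), (106, 0, 0, 0, 0), (86, 0, 0, 0, 0), (100, 0, 0, 0, 0), (8, 0, 0, 0, 0), (22, 0, 0, 0, 0), (84, 0, 0, 0, 0), (106, 0, 0, 0, 0), (88, 0, 0, 0, 0), (94, 0, 0, 0, 0), (10, 0, 0, 0, 0), (16, 0, 0, 0, 0), (86, 0, 0, 0, 0), (100, 0, 0, 0, 0), (88, 0, 0, 0, 0), (94, 0, 0, 0, 0), (96, 0, 0, 0, 0), (102, 0, 0, 0, 0), (90, 0, 0, 0, 0), (104, 0, 0, 0, 0), (92, 0, 0, 0, 0), (98, 0, 0, 0, 0), (96, 0, 0, 0, 0), (102, 0, 0, 0, 0), (72, 0, 0, 0, 0), (107, 0, 0, 0, 0), (74, 0, 0, 0, 0), (101, 0, 0, 0, 0), (90, 0, 0, 0, 0), (104, 0, 0, 0, 0), (72, 0, 0, 0, 0), (107, 0, 0, 0, 0), (76, 0, 0, 0, 0), (95, 0, 0, 0, 0), (92, 0, 0, 0, 0), (98, 0, 0, 0, 0), (74, 0, 0, 0, 0), (101,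 0, 0, 0, 0), (76, 0, 0, 0, 0), (95, 0, 0, 0, 0), (12, 0, 0, 0, 0), (18, 0, 0, 0, 0), (80, 0, 0, 0, 0), (105, 0, 0, 0, 0), (82, 0, 0, 0, 0), (99, 0, 0, 0, 0), (12, 0, 0, 0, 0), (18, 0, 0, 0, 0), (2, 0, 0, 0, 0), (23, 0, 0, 0, 0), (4, 0, 0, 0, 0), (17, 0, 0, 0, 0), (80, 0, 0, 0, 0), (105, 0, 0, 0, 0), (2, 0, 0, 0, 0), (23, 0, 0, 0, 0), (77, 0, 0, 0, 0), (89, 0, 0, 0, 0), (82, 0, 0, 0, 0), (99, 0, 0, 0, 0), (4, 0, 0, 0, 0), (17, 0, 0, 0, 0), (77, 0, 0, 0, 0), (89, 0, 0, 0, 0), (6, 0, 0, 0, 0), (19, 0, 0, 0, 0), (78, 0, 0, 0, 0), (103, 0, 0, 0, 0), (83, 0, 0, 0, 0), (93, 0, 0, 0, 0), (6, 0, 0, 0, 0), (19, 0, 0, 0, 0), (0, 0, 0, 0, 0), (21, 0, 0, 0, 0), (5, 0, 0, 0, 0), (11, 0, 0, 0, 0), (78, 0, 0, 0, 0), (103, 0, 0, 0, 0), (0, 0, 0, 0, 0), (21, 0, 0, 0, 0), (75, 0, 0, 0, 0), (87, 0, 0, 0, 0), (83, 0, 0, 0, 0), (93, 0,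 0, 0, 0), (5, 0, 0, 0, 0), (11, 0, 0, 0, 0), (75, 0, 0, 0, 0), (87, 0, 0, 0, 0), (7, 0, 0, 0, 0), (13, 0, 0, 0, 0), (79, 0, 0, 0, 0), (97, 0, 0, 0, 0), (81, 0, 0, 0, 0), (91, 0, 0, 0, 0), (7, 0, 0, 0, 0), (13, 0, 0, 0, 0), (1, 0, 0, 0, 0), (15, 0, 0, 0, 0), (3, 0, 0, 0, 0), (9, 0, 0, 0, 0), (79, 0, 0, 0, 0), (97, 0, 0, 0, 0), (1, 0, 0, 0, 0), (15, 0, 0, 0, 0), (73, 0, 0, 0, 0), (85, 0, 0, 0, 0), (81, 0, 0, 0, 0), (91, 0, 0, 0, 0), (3, 0, 0, 0, 0), (9, 0, 0, 0, 0), (73, 0, 0, 0, 0), (85, 0, 0, 0, 0)]]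

theorem tr36 : trK keys lk36 kl36 = true := by
  decide +kernel

theorem x36_0 : expB 3 5 dg3 dg9 m36_0 (l36_0 ++ z36_0) w36_0 = true := by
  decide +kernel

theorem t36_0_0 : chkS lk36 3 5 [(1, m36_0)] l36_0
  [(9, 513, 513, 103043331, 104072481), (4, 258, 33, 86388996, 73413921), (12, 288, 288, 34879056, 34879056), (2, 258, 33, 87433476, 73421601), (2, 258, 33, 55665156, 55599681), (13, 288, 288, 34879056, 34879056), (12, 513, 513, 56905986, 87318561), (16, 513, 513, 55861506, 55861281), (17, 513, 513, 55845126, 5530401), (18, 513, 513, 56959236, 88105761), (1, 513, 513, 54612486, 3498561), (2, 513, 513, 55656966, 5464641), (17, 258, 33, 55861506, 55861281), (1, 513, 513, 70607106, 54939681), (10, 513, 513, 87318786, 56905761), (3, 513, 513, 69558531, 54920481), (19, 513, 513, 88236291, 56951841), (1, 258, 33,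 54616581, 50684481), (18, 258, 33, 56967426, 88301601), (2, 513, 513, 87441666, 73617441), (3, 258, 33, 69546246, 4601121), (4, 513, 513, 86393091, 73598241), (1, 258, 33, 70590726, 4608801), (16, 258, 33, 55845126, 5530401), (14, 288, 288, 34879056, 34879056), (7, 258, 33, 39018756, 55592481), (11, 288, 288, 34878816, 19150416), (8, 528, 528, 19088976, 34817376), (8, 288, 288, 35009616, 68302416), (15, 288, 288, 34879056, 34879056), (25, 513, 513, 56893701, 84173601), (5, 33, 258, 67442211, 38142261), (17, 33, 258, 101975331, 103022931), (6, 513, 513, 5325606, 5448006), (23, 33, 258, 100865316, 102777141), (24, 18, 18, 102839301, 100808001), (17, 258, 33, 40128531, 87295506), (23, 258, 33, 40063236, 87049761), (21, 258, 33, 55861506, 55861281), (0, 288, 288, 19138131, 34866531), (22, 258, 33, 55861506, 55861281),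 (6, 288, 288, 33961041, 68302341), (6, 33, 258, 84284451, 73531701), (24, 258, 33, 40186116, 88094241), (0, 528, 528, 34817616, 34817616), (20, 258, 33, 39072006, 5518881), (6, 528, 528, 2180691, 34800966), (8, 33, 258, 85328931, 73531731), (14, 33, 258, 34866771, 34866771), (20, 513, 513, 39084291, 55838241), (25, 288, 288, 85210656, 40120656), (24, 513, 513, 40190211, 88278561), (24, 528, 528, 102847491, 103941441), (15, 33, 258, 34866771, 34866771), (11, 288, 288, 101987616, 103035216), (8, 288, 288, 85341216, 73544016), (17, 513, 513, 40120341, 84162066), (6, 288, 288, 84292641, 73543941), (6, 33, 258, 33952851, 68290101), (8, 513, 513, 39010326, 5457426), (17, 288, 288, 101987616, 103035216), (6, 18, 18, 2176596, 34616646), (21, 513, 513, 55845126, 5530401), (0, 18, 18, 34801236, 34621011), (22, 513, 513, 55845126,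 5530401), (23, 288, 288, 100877601, 102973701), (6, 258, 33, 5333796, 55583046), (8, 528, 528, 86393616, 73606416), (0, 33, 258, 19150416, 34878816), (7, 513, 513, 39010566, 5457441), (23, 513, 513, 40059141, 84100641), (5, 288, 288, 67450401, 38154501)]
  [(0, -2880), (1, -2880), (2, 2880), (3, 1440), (4, -1440), (5, -1440), (6, 5760), (7, 1440), (8, -4320), (9, 720), (10, -720), (11, 1440), (12, -1440), (13, -720), (14, -1440), (15, 1440), (16, 1440), (17, -1440), (18, -1440), (19, 720), (20, 1440), (21, 1440), (22, -1440), (23, 2880), (24, -2880), (25, 1440)] = true := by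
  decide +kernel

section

variable {κ ι : Type*} [Fintype κ] [Fintype ι] [Inhabited κ] [Inhabited ι]

noncomputable def F36_0 (E : Env κ ι) : (Fin 3 → κ) → (Fin 5 → ι) → ℝ := op2 (P3 κ) (P9 ι) (fB E 3 5 m36_0)

def r36_0_0 : List (ℕ × ℤ) := [(0, -2880), (1, -2880), (2, 2880), (3, 1440), (4, -1440), (5, -1440), (6, 5760), (7, 1440), (8, -4320), (9, 720), (10, -720), (11, 1440), (12, -1440), (13, -720), (14, -1440), (15, 1440), (16, 1440), (17, -1440), (18, -1440), (19, 720), (20, 1440), (21, 1440), (22, -1440), (23, 2880), (24, -2880), (25, 1440)]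

theorem h36_0_0 (E : Env κ ι) : ip (F36_0 E) (F36_0 E) = dotS (ek E lk36) r36_0_0 :=
  op_entryZ E lk36 3 5 _ _ _ _ (pg3 κ) (pg9 ι) m36_0 m36_0 l36_0 z36_0 w36_0 x36_0 (by decide) _ (chkS_sound E lk36 3 5 _ _ _ _ t36_0_0)

theorem row36_0 (E : Env κ ι) : RowG (ek E lk36) (F36_0 E) [F36_0 E] [r36_0_0] :=
  rowG_cons _ _ _ _ _ _ (h36_0_0 E) (rowG_nil _ _)

def tab36 : List (List (List (ℕ × ℤ))) := [[r36_0_0]]

theorem tri36 (E : Env κ ι) : TriG (ek E lk36) [F36_0 E] tab36 := by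
  refine triG_cons _ _ _ _ _ (row36_0 E) ?_
  exact triG_nil _

end

def lk37 : List Key := [
  (2, 5, [(0, [0], [0, 1]), (0, [0], [0, 1]), (0, [1], [2, 3]), (0, [1], [2, 4]), (4, [], [4]), (4, [], [3])]),
  (2, 5, [(0, [0], [0, 1]), (0, [1], [2, 3]), (2, [1], [2, 3, 4]), (2, [0], [0, 1, 4])]),
  (2, 6, [(0, [0], [0, 1]), (0, [0], [0, 1]), (0, [1], [2, 3]), (1, [], [4, 5]), (2, [1], [2, 3, 4]), (4, [], [5])]),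
  (2, 7, [(0, [0], [0, 1]), (0, [0], [0, 1]), (0, [1], [2, 3]), (0, [1], [2, 3]), (1, [], [4, 5]), (1, [], [4, 6]), (4, [], [6]), (4, [], [5])]),
  (2, 7, [(0, [0], [0, 1]), (0, [1], [0, 2]), (0, [1], [3, 4]), (0, [0], [5, 6]), (1, [], [5, 6]), (1, [], [3, 4]), (4, [], [2]), (4, [], [1])]),
  (2, 6, [(0, [0], [0, 1]), (0, [0], [2, 3]), (0, [1], [4, 5]), (1, [], [2, 3]), (2, [1], [0, 4, 5]), (4, [], [1])]),
  (2, 7, [(0, [0], [0, 1]), (0, [0], [0, 1]), (0, [1], [2, 3]), (0, [1], [4, 5]), (1, [], [2, 6]), (1, [], [4, 5]), (4, [], [3]), (4, [], [6])]),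
  (2, 5, [(0, [0], [0, 1]), (0, [1], [0, 2]), (0, [1], [2, 3]), (0, [0], [1, 4]), (4, [], [4]), (4, [], [3])]),
  (2, 7, [(0, [0], [0, 1]), (0, [0], [2, 3]), (0, [1], [4, 5]), (0, [1], [4, 6]), (1, [], [0, 5]), (1, [], [2, 3]), (4, [], [1]), (4, [], [6])]),
  (2, 7, [(0, [0], [0, 1]), (0, [1], [0, 2]), (0, [0], [3, 4]), (0, [1], [5, 6]), (1, [], [1, 3]), (1, [], [5, 6]), (4, [], [2]), (4, [], [4])]),
  (2, 5, [(0, [0], [0, 1]), (0, [0], [0, 2]), (0, [1], [3, 4]), (2, [1], [1, 3, 4]), (4, [], [2])]),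
  (2, 5, [(0, [0], [0, 1]), (0, [0], [0, 1]), (0, [1], [2, 3]), (2, [1], [2, 3, 4]), (4, [], [4])]),
  (2, 6, [(0, [0], [0, 1]), (0, [0], [0, 1]), (0, [1], [2, 3]), (0, [1], [2, 4]), (1, [], [3, 5]), (4, [], [4]), (4, [], [5])]),
  (2, 6, [(0, [0], [0, 1]), (0, [0], [0, 1]), (0, [1], [2, 3]), (0, [1], [2, 3]), (1, [], [4, 5]), (4, [], [4]), (4, [], [5])]),
  (2, 6, [(0, [0], [0, 1]), (0, [0], [2, 3]), (0, [1], [0, 4]), (0, [1], [4, 5]), (1, [], [2, 3]), (4, [], [1]), (4, [], [5])]),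
  (2, 6, [(0, [0], [0, 1]), (0, [0], [0, 1]), (0, [1], [2, 3]), (0, [1], [4, 5]), (1, [], [4, 5]), (4, [], [2]), (4, [], [3])]),
  (2, 6, [(0, [0], [0, 1]), (0, [0], [0, 1]), (0, [1], [2, 3]), (0, [1], [4, 5]), (1, [], [2, 4]), (4, [], [5]), (4, [], [3])]),
  (2, 6, [(0, [0], [0, 1]), (0, [0], [2, 3]), (0, [1], [0, 4]), (0, [1], [4, 5]), (1, [], [1, 2]), (4, [], [3]), (4, [], [5])]),
  (2, 5, [(0, [0], [0, 1]), (0, [0], [0, 1]), (0, [1], [2, 3]), (0, [1], [2, 3]), (4, [], [4]), (4, [], [4])]),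
  (2, 6, [(0, [0], [0, 1]), (0, [0], [0, 2]), (0, [1], [3, 2]), (4, [], [1]), (0, [1], [3, 4]), (1, [], [4, 5]), (4, [], [5])]),
  (2, 7, [(0, [0], [0, 1]), (0, [0], [0, 1]), (0, [1], [2, 3]), (4, [], [3]), (0, [1], [4, 5]), (1, [], [4, 6]), (1, [], [2, 5]), (4, [], [6])]),
  (2, 7, [(0, [0], [0, 1]), (0, [0], [0, 1]), (0, [1], [2, 3]), (4, [], [3]), (0, [1], [2, 4]), (1, [], [5, 6]), (1, [], [4, 5]), (4, [], [6])]),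
  (2, 7, [(0, [0], [0, 1]), (0, [0], [2, 0]), (0, [1], [1, 3]), (4, [], [3]), (0, [1], [4, 5]), (1, [], [4, 5]), (1, [], [2, 6]), (4, [], [6])]),
  (2, 7, [(0, [0], [0, 1]), (0, [0], [0, 1]), (0, [1], [2, 3]), (4, [], [4]), (0, [1], [2, 5]), (1, [], [5, 6]), (1, [], [3, 4]), (4, [], [6])]),
  (2, 7, [(0, [0], [0, 1]), (0, [0], [0, 1]), (0, [1], [2, 3]), (4, [], [4]), (0, [1], [2, 5]), (1, [], [4, 6]), (1, [], [3, 5]), (4, [], [6])]),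
  (2, 6, [(0, [0], [0, 1]), (0, [0], [0, 1]), (0, [1], [2, 3]), (4, [], [4]), (0, [1], [2, 5]), (1, [], [3, 5]), (4, [], [4])]),
  (2, 7, [(0, [0], [0, 1]), (0, [0], [2, 0]), (0, [1], [3, 1]), (4, [], [4]), (0, [1], [5, 6]), (1, [], [3, 5]), (1, [], [2, 4]), (4, [], [6])]),
  (2, 7, [(0, [0], [0, 1]), (0, [0], [2, 0]), (0, [1], [3, 1]), (4, [], [4]), (0, [1], [3, 5]), (1, [], [5, 6]), (1, [], [2, 4]), (4, [], [6])]),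
  (2, 7, [(0, [0], [0, 1]), (0, [0], [2, 0]), (0, [1], [3, 4]), (4, [], [1]), (0, [1], [5, 6]), (1, [], [2, 5]), (1, [], [3, 6]), (4, [], [4])]),
  (2, 7, [(0, [0], [0, 1]), (0, [0], [2, 0]), (0, [1], [3, 4]), (4, [], [1]), (0, [1], [3, 5]), (1, [], [5, 6]), (1, [], [2, 6]), (4, [], [4])]),
  (2, 7, [(0, [0], [0, 1]), (0, [0], [2, 0]), (0, [1], [3, 4]), (4, [], [1]), (0, [1], [3, 5]), (1, [], [5, 6]), (1, [], [2, 4]), (4, [], [6])]),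
  (2, 7, [(0, [0], [0, 1]), (0, [0], [2, 0]), (0, [1], [3, 4]), (4, [], [1]), (0, [1], [3, 5]), (1, [], [2, 6]), (1, [], [4, 5]), (4, [], [6])]),
  (2, 6, [(0, [0], [0, 1]), (0, [0], [2, 0]), (0, [1], [3, 4]), (4, [], [1]), (0, [1], [3, 5]), (1, [], [2, 5]), (4, [], [4])]),
  (2, 6, [(0, [0], [0, 1]), (0, [0], [2, 0]), (0, [1], [3, 4]), (4, [], [1]), (0, [1], [3, 5]), (1, [], [4, 5]), (4, [], [2])]),
  (2, 6, [(0, [0], [0, 1]), (0, [0], [2, 0]), (0, [1], [3, 4]), (4, [], [1]), (1, [], [2, 5]), (2, [1], [3, 4, 5])]),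
  (2, 7, [(0, [0], [0, 1]), (0, [0], [2, 3]), (0, [1], [4, 3]), (4, [], [1]), (0, [1], [5, 6]), (1, [], [4, 5]), (1, [], [0, 2]), (4, [], [6])]),
  (2, 7, [(0, [0], [0, 1]), (0, [0], [2, 1]), (0, [1], [3, 4]), (4, [], [4]), (0, [1], [5, 6]), (1, [], [5, 6]), (1, [], [0, 2]), (4, [], [3])]),
  (2, 7, [(0, [0], [0, 1]), (0, [0], [2, 1]), (0, [1], [3, 4]), (4, [], [4]), (0, [1], [5, 6]), (1, [], [3, 5]), (1, [], [0, 2]), (4, [], [6])]),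
  (2, 7, [(0, [0], [0, 1]), (0, [0], [2, 1]), (0, [1], [3, 4]), (4, [], [5]), (0, [1], [3, 6]), (1, [], [4, 6]), (1, [], [0, 2]), (4, [], [5])]),
  (2, 6, [(0, [0], [0, 1]), (0, [0], [2, 1]), (0, [1], [3, 4]), (4, [], [5]), (1, [], [0, 2]), (2, [1], [3, 4, 5])]),
  (2, 6, [(0, [0], [0, 1]), (0, [0], [2, 1]), (0, [1], [3, 4]), (4, [], [5]), (1, [], [0, 5]), (2, [1], [2, 3, 4])]),
  (2, 6, [(0, [0], [0, 1]), (0, [0], [2, 3]), (0, [1], [4, 5]), (4, [], [1]), (1, [], [0, 2]), (2, [1], [3, 4, 5])])]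

def kl37 : List ℕ := [5, 7, 8, 9, 10, 21, 22, 33, 42, 45, 62, 63, 64, 65, 75, 76, 78, 89, 91, 118, 123, 124, 147, 210, 211, 212, 229, 234, 255, 257, 259, 260, 261, 262, 264, 327, 332, 335, 423, 424, 426, 439]

def m37_0 : Base := (1, 3, [(0, [0], [1, 2]), (0, [0], [1, 3]), (1, [], [2, 3]), (4, [], [0])])

def l37_0 : Cov := [(1, 1, 3, [(0, [0], [1, 2]), (0, [0], [1, 3]), (1, [], [2, 3]), (4, [], [0])])]

def z37_0 : Cov := []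

def w37_0 : List (List Wit) := [[(0, 0, 0, 528, 528)]]

def m37_1 : Base := (1, 3, [(0, [0], [1, 2]), (0, [0], [1, 3]), (1, [], [0, 3]), (4, [], [2])])

def l37_1 : Cov := [(1, 1, 3, [(0, [0], [1, 2]), (0, [0], [1, 3]), (1, [], [0, 3]), (4, [], [2])])]

def z37_1 : Cov := []

def w37_1 : List (List Wit) := [[(0, 0, 0, 528, 528)]]

def m37_2 : Base := (1, 3, [(0, [0], [1, 2]), (0, [0], [1, 2]), (1, [], [0, 3]), (4, [], [3])])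

def l37_2 : Cov := [(1, 1, 3, [(0, [0], [1, 2]), (0, [0], [1, 2]), (1, [], [0, 3]), (4, [], [3])])]

def z37_2 : Cov := []

def w37_2 : List (List Wit) := [[(0, 0, 0, 528, 528)]]

def m37_3 : Base := (1, 2, [(0, [0], [1, 2]), (0, [0], [1, 2]), (4, [], [0])])

def l37_3 : Cov := [(1, 1, 2, [(0, [0], [1, 2]), (0, [0], [1, 2]), (4, [], [0])])]

def z37_3 : Cov := []

def w37_3 : List (List Wit) := [[(0, 0, 0, 16, 16)]]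

def m37_4 : Base := (1, 3, [(0, [0], [1, 2]), (0, [0], [0, 3]), (1, [], [1, 3]), (4, [], [2])])

def l37_4 : Cov := [(1, 1, 3, [(0, [0], [1, 2]), (0, [0], [0, 3]), (1, [], [1, 3]), (4, [], [2])])]

def z37_4 : Cov := []

def w37_4 : List (List Wit) := [[(0, 0, 0, 528, 528)]]

def m37_5 : Base := (1, 3, [(0, [0], [1, 2]), (0, [0], [0, 3]), (1, [], [1, 2]), (4, [], [3])])

def l37_5 : Cov := [(1, 1, 3, [(0, [0], [1, 2]), (0, [0], [0, 3]), (1, [], [1, 2]), (4, [], [3])])]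

def z37_5 : Cov := []

def w37_5 : List (List Wit) := [[(0, 0, 0, 528, 528)]]

def m37_6 : Base := (1, 3, [(0, [0], [1, 2]), (0, [0], [0, 1]), (1, [], [2, 3]), (4, [], [3])])

def l37_6 : Cov := [(1, 1, 3, [(0, [0], [1, 2]), (0, [0], [0, 1]), (1, [], [2, 3]), (4, [], [3])])]

def z37_6 : Cov := []

def w37_6 : List (List Wit) := [[(0, 0, 0, 528, 528)]]

def m37_7 : Base := (1, 2, [(0, [0], [1, 2]), (0, [0], [0, 1]), (4, [], [2])])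

def l37_7 : Cov := [(1, 1, 2, [(0, [0], [1, 2]), (0, [0], [0, 1]), (4, [], [2])])]

def z37_7 : Cov := []

def w37_7 : List (List Wit) := [[(0, 0, 0, 16, 16)]]

def m37_8 : Base := (1, 2, [(0, [0], [1, 2]), (2, [0], [0, 1, 2])])

def l37_8 : Cov := [(1, 1, 2, [(0, [0], [1, 2]), (2, [0], [0, 1, 2])])]

def z37_8 : Cov := []

def w37_8 : List (List Wit) := [[(0, 0, 0, 16, 16)]]

theorem tr37 : trK keys lk37 kl37 = true := by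
  decide +kernel

theorem x37_0 : expB 0 1 dg10 dg0 m37_0 (l37_0 ++ z37_0) w37_0 = true := by
  decide +kernel

theorem x37_1 : expB 0 1 dg10 dg0 m37_1 (l37_1 ++ z37_1) w37_1 = true := by
  decide +kernel

theorem x37_2 : expB 0 1 dg10 dg0 m37_2 (l37_2 ++ z37_2) w37_2 = true := by
  decide +kernel

theorem x37_3 : expB 0 1 dg10 dg0 m37_3 (l37_3 ++ z37_3) w37_3 = true := by
  decide +kernel

theorem x37_4 : expB 0 1 dg10 dg0 m37_4 (l37_4 ++ z37_4) w37_4 = true := by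
  decide +kernel

theorem x37_5 : expB 0 1 dg10 dg0 m37_5 (l37_5 ++ z37_5) w37_5 = true := by
  decide +kernel

theorem x37_6 : expB 0 1 dg10 dg0 m37_6 (l37_6 ++ z37_6) w37_6 = true := by
  decide +kernel

theorem x37_7 : expB 0 1 dg10 dg0 m37_7 (l37_7 ++ z37_7) w37_7 = true := by
  decide +kernel

theorem x37_8 : expB 0 1 dg10 dg0 m37_8 (l37_8 ++ z37_8) w37_8 = true := by
  decide +kernel

theorem t37_0_0 : chkS lk37 0 1 [(1, m37_0)] l37_0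
  [(38, 16, 16, 105062421, 101008146)]
  [(38, 1)] = true := by
  decide +kernel

theorem t37_0_1 : chkS lk37 0 1 [(1, m37_0)] l37_1
  [(31, 1, 1, 34624566, 3282516)]
  [(31, 1)] = true := by
  decide +kernel

theorem t37_0_2 : chkS lk37 0 1 [(1, m37_0)] l37_2
  [(24, 1, 1, 101733156, 103817556)]
  [(24, 1)] = true := by
  decide +kernel

theorem t37_0_3 : chkS lk37 0 1 [(1, m37_0)] l37_3
  [(25, 1, 1, 1069860, 3154260)]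
  [(25, 1)] = true := by
  decide +kernel

theorem t37_0_4 : chkS lk37 0 1 [(1, m37_0)] l37_4
  [(37, 16, 16, 88285206, 6636306)]
  [(37, 1)] = true := by
  decide +kernel

theorem t37_0_5 : chkS lk37 0 1 [(1, m37_0)] l37_5
  [(36, 16, 16, 73736211, 88474386)]
  [(36, 1)] = true := by
  decide +kernel

theorem t37_0_6 : chkS lk37 0 1 [(1, m37_0)] l37_6
  [(31, 1, 1, 102782001, 103945476)]
  [(31, 1)] = true := by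
  decide +kernel

theorem t37_0_7 : chkS lk37 0 1 [(1, m37_0)] l37_7
  [(33, 1, 1, 1070130, 3280980)]
  [(33, 1)] = true := by
  decide +kernel

theorem t37_0_8 : chkS lk37 0 1 [(1, m37_0)] l37_8
  [(39, 16, 16, 4399125, 344850)]
  [(39, 1)] = true := by
  decide +kernel

theorem t37_1_1 : chkS lk37 0 1 [(1, m37_1)] l37_1
  [(29, 16, 16, 88285446, 6636321)]
  [(29, 1)] = true := by
  decide +kernel

theorem t37_1_2 : chkS lk37 0 1 [(1, m37_1)] l37_2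
  [(21, 1, 1, 101729061, 100868436)]
  [(21, 1)] = true := by
  decide +kernel

theorem t37_1_3 : chkS lk37 0 1 [(1, m37_1)] l37_3
  [(12, 1, 1, 1061925, 143700)]
  [(12, 1)] = true := by
  decide +kernel

theorem t37_1_4 : chkS lk37 0 1 [(1, m37_1)] l37_4
  [(28, 16, 16, 105062661, 101008161)]
  [(28, 1)] = true := by
  decide +kernel

theorem t37_1_5 : chkS lk37 0 1 [(1, m37_1)] l37_5
  [(8, 1, 1, 20076096, 36787296)]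
  [(8, 1)] = true := by
  decide +kernel

theorem t37_1_6 : chkS lk37 0 1 [(1, m37_1)] l37_6
  [(30, 16, 16, 106111236, 105923361)]
  [(30, 1)] = true := by
  decide +kernel

theorem t37_1_7 : chkS lk37 0 1 [(1, m37_1)] l37_7
  [(32, 16, 16, 4399365, 344865)]
  [(32, 1)] = true := by
  decide +kernel

theorem t37_1_8 : chkS lk37 0 1 [(1, m37_1)] l37_8
  [(34, 16, 16, 3416325, 283425)]
  [(34, 1)] = true := by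
  decide +kernel

theorem t37_2_2 : chkS lk37 0 1 [(1, m37_2)] l37_2
  [(3, 16, 16, 103960836, 103830561)]
  [(3, 1)] = true := by
  decide +kernel

theorem t37_2_3 : chkS lk37 0 1 [(1, m37_2)] l37_3
  [(13, 16, 16, 3297540, 3167265)]
  [(13, 1)] = true := by
  decide +kernel

theorem t37_2_4 : chkS lk37 0 1 [(1, m37_2)] l37_4
  [(20, 16, 16, 87187716, 56644641)]
  [(20, 1)] = true := by
  decide +kernel

theorem t37_2_5 : chkS lk37 0 1 [(1, m37_2)] l37_5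
  [(6, 16, 16, 55861506, 55861281)]
  [(6, 1)] = true := by
  decide +kernel

theorem t37_2_6 : chkS lk37 0 1 [(1, m37_2)] l37_6
  [(23, 16, 16, 70410501, 50746401)]
  [(23, 1)] = true := by
  decide +kernel

theorem t37_2_7 : chkS lk37 0 1 [(1, m37_2)] l37_7
  [(12, 16, 16, 4346115, 3474465)]
  [(12, 1)] = true := by
  decide +kernel

theorem t37_2_8 : chkS lk37 0 1 [(1, m37_2)] l37_8
  [(2, 16, 16, 3297540, 3167265)]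
  [(2, 1)] = true := by
  decide +kernel

theorem t37_3_3 : chkS lk37 0 1 [(1, m37_3)] l37_3
  [(18, 16, 16, 205060, 17185)]
  [(18, 1)] = true := by
  decide +kernel

theorem t37_3_4 : chkS lk37 0 1 [(1, m37_3)] l37_4
  [(16, 16, 16, 4399365, 344865)]
  [(16, 1)] = true := by
  decide +kernel

theorem t37_3_5 : chkS lk37 0 1 [(1, m37_3)] l37_5
  [(15, 16, 16, 3490050, 4411425)]
  [(15, 1)] = true := by
  decide +kernel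

theorem t37_3_6 : chkS lk37 0 1 [(1, m37_3)] l37_6
  [(12, 16, 16, 5447940, 5260065)]
  [(12, 1)] = true := by
  decide +kernel

theorem t37_3_7 : chkS lk37 0 1 [(1, m37_3)] l37_7
  [(0, 16, 16, 205060, 17185)]
  [(0, 1)] = true := by
  decide +kernel

theorem t37_3_8 : chkS lk37 0 1 [(1, m37_3)] l37_8
  [(11, 16, 16, 205060, 17185)]
  [(11, 1)] = true := by
  decide +kernel

theorem t37_4_4 : chkS lk37 0 1 [(1, m37_4)] l37_4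
  [(35, 16, 16, 73736451, 88474401)]
  [(35, 1)] = true := by
  decide +kernel

theorem t37_4_5 : chkS lk37 0 1 [(1, m37_4)] l37_5
  [(9, 16, 16, 40178736, 88217136)]
  [(9, 1)] = true := by
  decide +kernel

theorem t37_4_6 : chkS lk37 0 1 [(1, m37_4)] l37_6
  [(26, 1, 1, 69219921, 35009796)]
  [(26, 1)] = true := by
  decide +kernel

theorem t37_4_7 : chkS lk37 0 1 [(1, m37_4)] l37_7
  [(17, 16, 16, 5509920, 5513520)]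
  [(17, 1)] = true := by
  decide +kernel

theorem t37_4_8 : chkS lk37 0 1 [(1, m37_4)] l37_8
  [(41, 16, 16, 5513475, 5505825)]
  [(41, 1)] = true := by
  decide +kernel

theorem t37_5_5 : chkS lk37 0 1 [(1, m37_5)] l37_5
  [(4, 16, 16, 37951056, 34948656)]
  [(4, 1)] = true := by
  decide +kernel

theorem t37_5_6 : chkS lk37 0 1 [(1, m37_5)] l37_6
  [(22, 1, 1, 102774081, 102839556)]
  [(22, 1)] = true := by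
  decide +kernel

theorem t37_5_7 : chkS lk37 0 1 [(1, m37_5)] l37_7
  [(14, 16, 16, 5509920, 5513520)]
  [(14, 1)] = true := by
  decide +kernel

theorem t37_5_8 : chkS lk37 0 1 [(1, m37_5)] l37_8
  [(5, 16, 16, 5509920, 5513520)]
  [(5, 1)] = true := by
  decide +kernel

theorem t37_6_6 : chkS lk37 0 1 [(1, m37_6)] l37_6
  [(27, 16, 16, 106119681, 106119681)]
  [(27, 1)] = true := by
  decide +kernel

theorem t37_6_7 : chkS lk37 0 1 [(1, m37_6)] l37_7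
  [(19, 1, 1, 1070130, 3280980)]
  [(19, 1)] = true := by
  decide +kernel

theorem t37_6_8 : chkS lk37 0 1 [(1, m37_6)] l37_8
  [(40, 16, 16, 4411410, 3489810)]
  [(40, 1)] = true := by
  decide +kernel

theorem t37_7_7 : chkS lk37 0 1 [(1, m37_7)] l37_7
  [(7, 16, 16, 205840, 148240)]
  [(7, 1)] = true := by
  decide +kernel

theorem t37_7_8 : chkS lk37 0 1 [(1, m37_7)] l37_8
  [(10, 16, 16, 274945, 274945)]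
  [(10, 1)] = true := by
  decide +kernel

theorem t37_8_8 : chkS lk37 0 1 [(1, m37_8)] l37_8
  [(1, 16, 16, 143620, 13345)]
  [(1, 1)] = true := by
  decide +kernel

section

variable {κ ι : Type*} [Fintype κ] [Fintype ι] [Inhabited κ] [Inhabited ι]

noncomputable def F37_0 (E : Env κ ι) : (Fin 0 → κ) → (Fin 1 → ι) → ℝ := op2 (P10 κ) (P0 ι) (fB E 0 1 m37_0)

noncomputable def F37_1 (E : Env κ ι) : (Fin 0 → κ) → (Fin 1 → ι) → ℝ := op2 (P10 κ) (P0 ι) (fB E 0 1 m37_1)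

noncomputable def F37_2 (E : Env κ ι) : (Fin 0 → κ) → (Fin 1 → ι) → ℝ := op2 (P10 κ) (P0 ι) (fB E 0 1 m37_2)

noncomputable def F37_3 (E : Env κ ι) : (Fin 0 → κ) → (Fin 1 → ι) → ℝ := op2 (P10 κ) (P0 ι) (fB E 0 1 m37_3)

noncomputable def F37_4 (E : Env κ ι) : (Fin 0 → κ) → (Fin 1 → ι) → ℝ := op2 (P10 κ) (P0 ι) (fB E 0 1 m37_4)

noncomputable def F37_5 (E : Env κ ι) : (Fin 0 → κ) → (Fin 1 → ι) → ℝ := op2 (P10 κ) (P0 ι) (fB E 0 1 m37_5)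

noncomputable def F37_6 (E : Env κ ι) : (Fin 0 → κ) → (Fin 1 → ι) → ℝ := op2 (P10 κ) (P0 ι) (fB E 0 1 m37_6)

noncomputable def F37_7 (E : Env κ ι) : (Fin 0 → κ) → (Fin 1 → ι) → ℝ := op2 (P10 κ) (P0 ι) (fB E 0 1 m37_7)

noncomputable def F37_8 (E : Env κ ι) : (Fin 0 → κ) → (Fin 1 → ι) → ℝ := op2 (P10 κ) (P0 ι) (fB E 0 1 m37_8)

def r37_0_0 : List (ℕ × ℤ) := [(38, 1)]

theorem h37_0_0 (E : Env κ ι) : ip (F37_0 E) (F37_0 E) = dotS (ek E lk37) r37_0_0 :=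
  op_entryZ E lk37 0 1 _ _ _ _ (pg10 κ) (pg0 ι) m37_0 m37_0 l37_0 z37_0 w37_0 x37_0 (by decide) _ (chkS_sound E lk37 0 1 _ _ _ _ t37_0_0)

def r37_0_1 : List (ℕ × ℤ) := [(31, 1)]

theorem h37_0_1 (E : Env κ ι) : ip (F37_0 E) (F37_1 E) = dotS (ek E lk37) r37_0_1 :=
  op_entryZ E lk37 0 1 _ _ _ _ (pg10 κ) (pg0 ι) m37_0 m37_1 l37_1 z37_1 w37_1 x37_1 (by decide) _ (chkS_sound E lk37 0 1 _ _ _ _ t37_0_1)

def r37_0_2 : List (ℕ × ℤ) := [(24, 1)]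

theorem h37_0_2 (E : Env κ ι) : ip (F37_0 E) (F37_2 E) = dotS (ek E lk37) r37_0_2 :=
  op_entryZ E lk37 0 1 _ _ _ _ (pg10 κ) (pg0 ι) m37_0 m37_2 l37_2 z37_2 w37_2 x37_2 (by decide) _ (chkS_sound E lk37 0 1 _ _ _ _ t37_0_2)

def r37_0_3 : List (ℕ × ℤ) := [(25, 1)]

theorem h37_0_3 (E : Env κ ι) : ip (F37_0 E) (F37_3 E) = dotS (ek E lk37) r37_0_3 :=
  op_entryZ E lk37 0 1 _ _ _ _ (pg10 κ) (pg0 ι) m37_0 m37_3 l37_3 z37_3 w37_3 x37_3 (by decide) _ (chkS_sound E lk37 0 1 _ _ _ _ t37_0_3)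

def r37_0_4 : List (ℕ × ℤ) := [(37, 1)]

theorem h37_0_4 (E : Env κ ι) : ip (F37_0 E) (F37_4 E) = dotS (ek E lk37) r37_0_4 :=
  op_entryZ E lk37 0 1 _ _ _ _ (pg10 κ) (pg0 ι) m37_0 m37_4 l37_4 z37_4 w37_4 x37_4 (by decide) _ (chkS_sound E lk37 0 1 _ _ _ _ t37_0_4)

def r37_0_5 : List (ℕ × ℤ) := [(36, 1)]

theorem h37_0_5 (E : Env κ ι) : ip (F37_0 E) (F37_5 E) = dotS (ek E lk37) r37_0_5 :=
  op_entryZ E lk37 0 1 _ _ _ _ (pg10 κ) (pg0 ι) m37_0 m37_5 l37_5 z37_5 w37_5 x37_5 (by decide) _ (chkS_sound E lk37 0 1 _ _ _ _ t37_0_5)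

def r37_0_6 : List (ℕ × ℤ) := [(31, 1)]

theorem h37_0_6 (E : Env κ ι) : ip (F37_0 E) (F37_6 E) = dotS (ek E lk37) r37_0_6 :=
  op_entryZ E lk37 0 1 _ _ _ _ (pg10 κ) (pg0 ι) m37_0 m37_6 l37_6 z37_6 w37_6 x37_6 (by decide) _ (chkS_sound E lk37 0 1 _ _ _ _ t37_0_6)

def r37_0_7 : List (ℕ × ℤ) := [(33, 1)]

theorem h37_0_7 (E : Env κ ι) : ip (F37_0 E) (F37_7 E) = dotS (ek E lk37) r37_0_7 :=
  op_entryZ E lk37 0 1 _ _ _ _ (pg10 κ) (pg0 ι) m37_0 m37_7 l37_7 z37_7 w37_7 x37_7 (by decide) _ (chkS_sound E lk37 0 1 _ _ _ _ t37_0_7)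

def r37_0_8 : List (ℕ × ℤ) := [(39, 1)]

theorem h37_0_8 (E : Env κ ι) : ip (F37_0 E) (F37_8 E) = dotS (ek E lk37) r37_0_8 :=
  op_entryZ E lk37 0 1 _ _ _ _ (pg10 κ) (pg0 ι) m37_0 m37_8 l37_8 z37_8 w37_8 x37_8 (by decide) _ (chkS_sound E lk37 0 1 _ _ _ _ t37_0_8)

def r37_1_1 : List (ℕ × ℤ) := [(29, 1)]

theorem h37_1_1 (E : Env κ ι) : ip (F37_1 E) (F37_1 E) = dotS (ek E lk37) r37_1_1 :=
  op_entryZ E lk37 0 1 _ _ _ _ (pg10 κ) (pg0 ι) m37_1 m37_1 l37_1 z37_1 w37_1 x37_1 (by decide) _ (chkS_sound E lk37 0 1 _ _ _ _ t37_1_1)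

def r37_1_2 : List (ℕ × ℤ) := [(21, 1)]

theorem h37_1_2 (E : Env κ ι) : ip (F37_1 E) (F37_2 E) = dotS (ek E lk37) r37_1_2 :=
  op_entryZ E lk37 0 1 _ _ _ _ (pg10 κ) (pg0 ι) m37_1 m37_2 l37_2 z37_2 w37_2 x37_2 (by decide) _ (chkS_sound E lk37 0 1 _ _ _ _ t37_1_2)

def r37_1_3 : List (ℕ × ℤ) := [(12, 1)]

theorem h37_1_3 (E : Env κ ι) : ip (F37_1 E) (F37_3 E) = dotS (ek E lk37) r37_1_3 :=
  op_entryZ E lk37 0 1 _ _ _ _ (pg10 κ) (pg0 ι) m37_1 m37_3 l37_3 z37_3 w37_3 x37_3 (by decide) _ (chkS_sound E lk37 0 1 _ _ _ _ t37_1_3)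

def r37_1_4 : List (ℕ × ℤ) := [(28, 1)]

theorem h37_1_4 (E : Env κ ι) : ip (F37_1 E) (F37_4 E) = dotS (ek E lk37) r37_1_4 :=
  op_entryZ E lk37 0 1 _ _ _ _ (pg10 κ) (pg0 ι) m37_1 m37_4 l37_4 z37_4 w37_4 x37_4 (by decide) _ (chkS_sound E lk37 0 1 _ _ _ _ t37_1_4)

def r37_1_5 : List (ℕ × ℤ) := [(8, 1)]

theorem h37_1_5 (E : Env κ ι) : ip (F37_1 E) (F37_5 E) = dotS (ek E lk37) r37_1_5 :=
  op_entryZ E lk37 0 1 _ _ _ _ (pg10 κ) (pg0 ι) m37_1 m37_5 l37_5 z37_5 w37_5 x37_5 (by decide) _ (chkS_sound E lk37 0 1 _ _ _ _ t37_1_5)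

def r37_1_6 : List (ℕ × ℤ) := [(30, 1)]

theorem h37_1_6 (E : Env κ ι) : ip (F37_1 E) (F37_6 E) = dotS (ek E lk37) r37_1_6 :=
  op_entryZ E lk37 0 1 _ _ _ _ (pg10 κ) (pg0 ι) m37_1 m37_6 l37_6 z37_6 w37_6 x37_6 (by decide) _ (chkS_sound E lk37 0 1 _ _ _ _ t37_1_6)

def r37_1_7 : List (ℕ × ℤ) := [(32, 1)]

theorem h37_1_7 (E : Env κ ι) : ip (F37_1 E) (F37_7 E) = dotS (ek E lk37) r37_1_7 :=
  op_entryZ E lk37 0 1 _ _ _ _ (pg10 κ) (pg0 ι) m37_1 m37_7 l37_7 z37_7 w37_7 x37_7 (by decide) _ (chkS_sound E lk37 0 1 _ _ _ _ t37_1_7)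

def r37_1_8 : List (ℕ × ℤ) := [(34, 1)]

theorem h37_1_8 (E : Env κ ι) : ip (F37_1 E) (F37_8 E) = dotS (ek E lk37) r37_1_8 :=
  op_entryZ E lk37 0 1 _ _ _ _ (pg10 κ) (pg0 ι) m37_1 m37_8 l37_8 z37_8 w37_8 x37_8 (by decide) _ (chkS_sound E lk37 0 1 _ _ _ _ t37_1_8)

def r37_2_2 : List (ℕ × ℤ) := [(3, 1)]

theorem h37_2_2 (E : Env κ ι) : ip (F37_2 E) (F37_2 E) = dotS (ek E lk37) r37_2_2 :=
  op_entryZ E lk37 0 1 _ _ _ _ (pg10 κ) (pg0 ι) m37_2 m37_2 l37_2 z37_2 w37_2 x37_2 (by decide) _ (chkS_sound E lk37 0 1 _ _ _ _ t37_2_2)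

def r37_2_3 : List (ℕ × ℤ) := [(13, 1)]

theorem h37_2_3 (E : Env κ ι) : ip (F37_2 E) (F37_3 E) = dotS (ek E lk37) r37_2_3 :=
  op_entryZ E lk37 0 1 _ _ _ _ (pg10 κ) (pg0 ι) m37_2 m37_3 l37_3 z37_3 w37_3 x37_3 (by decide) _ (chkS_sound E lk37 0 1 _ _ _ _ t37_2_3)

def r37_2_4 : List (ℕ × ℤ) := [(20, 1)]

theorem h37_2_4 (E : Env κ ι) : ip (F37_2 E) (F37_4 E) = dotS (ek E lk37) r37_2_4 :=
  op_entryZ E lk37 0 1 _ _ _ _ (pg10 κ) (pg0 ι) m37_2 m37_4 l37_4 z37_4 w37_4 x37_4 (by decide) _ (chkS_sound E lk37 0 1 _ _ _ _ t37_2_4)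

def r37_2_5 : List (ℕ × ℤ) := [(6, 1)]

theorem h37_2_5 (E : Env κ ι) : ip (F37_2 E) (F37_5 E) = dotS (ek E lk37) r37_2_5 :=
  op_entryZ E lk37 0 1 _ _ _ _ (pg10 κ) (pg0 ι) m37_2 m37_5 l37_5 z37_5 w37_5 x37_5 (by decide) _ (chkS_sound E lk37 0 1 _ _ _ _ t37_2_5)

def r37_2_6 : List (ℕ × ℤ) := [(23, 1)]

theorem h37_2_6 (E : Env κ ι) : ip (F37_2 E) (F37_6 E) = dotS (ek E lk37) r37_2_6 :=
  op_entryZ E lk37 0 1 _ _ _ _ (pg10 κ) (pg0 ι) m37_2 m37_6 l37_6 z37_6 w37_6 x37_6 (by decide) _ (chkS_sound E lk37 0 1 _ _ _ _ t37_2_6)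

def r37_2_7 : List (ℕ × ℤ) := [(12, 1)]

theorem h37_2_7 (E : Env κ ι) : ip (F37_2 E) (F37_7 E) = dotS (ek E lk37) r37_2_7 :=
  op_entryZ E lk37 0 1 _ _ _ _ (pg10 κ) (pg0 ι) m37_2 m37_7 l37_7 z37_7 w37_7 x37_7 (by decide) _ (chkS_sound E lk37 0 1 _ _ _ _ t37_2_7)

def r37_2_8 : List (ℕ × ℤ) := [(2, 1)]

theorem h37_2_8 (E : Env κ ι) : ip (F37_2 E) (F37_8 E) = dotS (ek E lk37) r37_2_8 :=
  op_entryZ E lk37 0 1 _ _ _ _ (pg10 κ) (pg0 ι) m37_2 m37_8 l37_8 z37_8 w37_8 x37_8 (by decide) _ (chkS_sound E lk37 0 1 _ _ _ _ t37_2_8)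

def r37_3_3 : List (ℕ × ℤ) := [(18, 1)]

theorem h37_3_3 (E : Env κ ι) : ip (F37_3 E) (F37_3 E) = dotS (ek E lk37) r37_3_3 :=
  op_entryZ E lk37 0 1 _ _ _ _ (pg10 κ) (pg0 ι) m37_3 m37_3 l37_3 z37_3 w37_3 x37_3 (by decide) _ (chkS_sound E lk37 0 1 _ _ _ _ t37_3_3)

def r37_3_4 : List (ℕ × ℤ) := [(16, 1)]

theorem h37_3_4 (E : Env κ ι) : ip (F37_3 E) (F37_4 E) = dotS (ek E lk37) r37_3_4 :=
  op_entryZ E lk37 0 1 _ _ _ _ (pg10 κ) (pg0 ι) m37_3 m37_4 l37_4 z37_4 w37_4 x37_4 (by decide) _ (chkS_sound E lk37 0 1 _ _ _ _ t37_3_4)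

def r37_3_5 : List (ℕ × ℤ) := [(15, 1)]

theorem h37_3_5 (E : Env κ ι) : ip (F37_3 E) (F37_5 E) = dotS (ek E lk37) r37_3_5 :=
  op_entryZ E lk37 0 1 _ _ _ _ (pg10 κ) (pg0 ι) m37_3 m37_5 l37_5 z37_5 w37_5 x37_5 (by decide) _ (chkS_sound E lk37 0 1 _ _ _ _ t37_3_5)

def r37_3_6 : List (ℕ × ℤ) := [(12, 1)]

theorem h37_3_6 (E : Env κ ι) : ip (F37_3 E) (F37_6 E) = dotS (ek E lk37) r37_3_6 :=
  op_entryZ E lk37 0 1 _ _ _ _ (pg10 κ) (pg0 ι) m37_3 m37_6 l37_6 z37_6 w37_6 x37_6 (by decide) _ (chkS_sound E lk37 0 1 _ _ _ _ t37_3_6)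

def r37_3_7 : List (ℕ × ℤ) := [(0, 1)]

theorem h37_3_7 (E : Env κ ι) : ip (F37_3 E) (F37_7 E) = dotS (ek E lk37) r37_3_7 :=
  op_entryZ E lk37 0 1 _ _ _ _ (pg10 κ) (pg0 ι) m37_3 m37_7 l37_7 z37_7 w37_7 x37_7 (by decide) _ (chkS_sound E lk37 0 1 _ _ _ _ t37_3_7)

def r37_3_8 : List (ℕ × ℤ) := [(11, 1)]

theorem h37_3_8 (E : Env κ ι) : ip (F37_3 E) (F37_8 E) = dotS (ek E lk37) r37_3_8 :=
  op_entryZ E lk37 0 1 _ _ _ _ (pg10 κ) (pg0 ι) m37_3 m37_8 l37_8 z37_8 w37_8 x37_8 (by decide) _ (chkS_sound E lk37 0 1 _ _ _ _ t37_3_8)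

def r37_4_4 : List (ℕ × ℤ) := [(35, 1)]

theorem h37_4_4 (E : Env κ ι) : ip (F37_4 E) (F37_4 E) = dotS (ek E lk37) r37_4_4 :=
  op_entryZ E lk37 0 1 _ _ _ _ (pg10 κ) (pg0 ι) m37_4 m37_4 l37_4 z37_4 w37_4 x37_4 (by decide) _ (chkS_sound E lk37 0 1 _ _ _ _ t37_4_4)

def r37_4_5 : List (ℕ × ℤ) := [(9, 1)]

theorem h37_4_5 (E : Env κ ι) : ip (F37_4 E) (F37_5 E) = dotS (ek E lk37) r37_4_5 :=
  op_entryZ E lk37 0 1 _ _ _ _ (pg10 κ) (pg0 ι) m37_4 m37_5 l37_5 z37_5 w37_5 x37_5 (by decide) _ (chkS_sound E lk37 0 1 _ _ _ _ t37_4_5)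

def r37_4_6 : List (ℕ × ℤ) := [(26, 1)]

theorem h37_4_6 (E : Env κ ι) : ip (F37_4 E) (F37_6 E) = dotS (ek E lk37) r37_4_6 :=
  op_entryZ E lk37 0 1 _ _ _ _ (pg10 κ) (pg0 ι) m37_4 m37_6 l37_6 z37_6 w37_6 x37_6 (by decide) _ (chkS_sound E lk37 0 1 _ _ _ _ t37_4_6)

def r37_4_7 : List (ℕ × ℤ) := [(17, 1)]

theorem h37_4_7 (E : Env κ ι) : ip (F37_4 E) (F37_7 E) = dotS (ek E lk37) r37_4_7 :=
  op_entryZ E lk37 0 1 _ _ _ _ (pg10 κ) (pg0 ι) m37_4 m37_7 l37_7 z37_7 w37_7 x37_7 (by decide) _ (chkS_sound E lk37 0 1 _ _ _ _ t37_4_7)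

def r37_4_8 : List (ℕ × ℤ) := [(41, 1)]

theorem h37_4_8 (E : Env κ ι) : ip (F37_4 E) (F37_8 E) = dotS (ek E lk37) r37_4_8 :=
  op_entryZ E lk37 0 1 _ _ _ _ (pg10 κ) (pg0 ι) m37_4 m37_8 l37_8 z37_8 w37_8 x37_8 (by decide) _ (chkS_sound E lk37 0 1 _ _ _ _ t37_4_8)

def r37_5_5 : List (ℕ × ℤ) := [(4, 1)]

theorem h37_5_5 (E : Env κ ι) : ip (F37_5 E) (F37_5 E) = dotS (ek E lk37) r37_5_5 :=
  op_entryZ E lk37 0 1 _ _ _ _ (pg10 κ) (pg0 ι) m37_5 m37_5 l37_5 z37_5 w37_5 x37_5 (by decide) _ (chkS_sound E lk37 0 1 _ _ _ _ t37_5_5)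

def r37_5_6 : List (ℕ × ℤ) := [(22, 1)]

theorem h37_5_6 (E : Env κ ι) : ip (F37_5 E) (F37_6 E) = dotS (ek E lk37) r37_5_6 :=
  op_entryZ E lk37 0 1 _ _ _ _ (pg10 κ) (pg0 ι) m37_5 m37_6 l37_6 z37_6 w37_6 x37_6 (by decide) _ (chkS_sound E lk37 0 1 _ _ _ _ t37_5_6)

def r37_5_7 : List (ℕ × ℤ) := [(14, 1)]

theorem h37_5_7 (E : Env κ ι) : ip (F37_5 E) (F37_7 E) = dotS (ek E lk37) r37_5_7 :=
  op_entryZ E lk37 0 1 _ _ _ _ (pg10 κ) (pg0 ι) m37_5 m37_7 l37_7 z37_7 w37_7 x37_7 (by decide) _ (chkS_sound E lk37 0 1 _ _ _ _ t37_5_7)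

def r37_5_8 : List (ℕ × ℤ) := [(5, 1)]

theorem h37_5_8 (E : Env κ ι) : ip (F37_5 E) (F37_8 E) = dotS (ek E lk37) r37_5_8 :=
  op_entryZ E lk37 0 1 _ _ _ _ (pg10 κ) (pg0 ι) m37_5 m37_8 l37_8 z37_8 w37_8 x37_8 (by decide) _ (chkS_sound E lk37 0 1 _ _ _ _ t37_5_8)

def r37_6_6 : List (ℕ × ℤ) := [(27, 1)]

theorem h37_6_6 (E : Env κ ι) : ip (F37_6 E) (F37_6 E) = dotS (ek E lk37) r37_6_6 :=
  op_entryZ E lk37 0 1 _ _ _ _ (pg10 κ) (pg0 ι) m37_6 m37_6 l37_6 z37_6 w37_6 x37_6 (by decide) _ (chkS_sound E lk37 0 1 _ _ _ _ t37_6_6)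

def r37_6_7 : List (ℕ × ℤ) := [(19, 1)]

theorem h37_6_7 (E : Env κ ι) : ip (F37_6 E) (F37_7 E) = dotS (ek E lk37) r37_6_7 :=
  op_entryZ E lk37 0 1 _ _ _ _ (pg10 κ) (pg0 ι) m37_6 m37_7 l37_7 z37_7 w37_7 x37_7 (by decide) _ (chkS_sound E lk37 0 1 _ _ _ _ t37_6_7)

def r37_6_8 : List (ℕ × ℤ) := [(40, 1)]

theorem h37_6_8 (E : Env κ ι) : ip (F37_6 E) (F37_8 E) = dotS (ek E lk37) r37_6_8 :=
  op_entryZ E lk37 0 1 _ _ _ _ (pg10 κ) (pg0 ι) m37_6 m37_8 l37_8 z37_8 w37_8 x37_8 (by decide) _ (chkS_sound E lk37 0 1 _ _ _ _ t37_6_8)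

def r37_7_7 : List (ℕ × ℤ) := [(7, 1)]

theorem h37_7_7 (E : Env κ ι) : ip (F37_7 E) (F37_7 E) = dotS (ek E lk37) r37_7_7 :=
  op_entryZ E lk37 0 1 _ _ _ _ (pg10 κ) (pg0 ι) m37_7 m37_7 l37_7 z37_7 w37_7 x37_7 (by decide) _ (chkS_sound E lk37 0 1 _ _ _ _ t37_7_7)

def r37_7_8 : List (ℕ × ℤ) := [(10, 1)]

theorem h37_7_8 (E : Env κ ι) : ip (F37_7 E) (F37_8 E) = dotS (ek E lk37) r37_7_8 :=
  op_entryZ E lk37 0 1 _ _ _ _ (pg10 κ) (pg0 ι) m37_7 m37_8 l37_8 z37_8 w37_8 x37_8 (by decide) _ (chkS_sound E lk37 0 1 _ _ _ _ t37_7_8)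

def r37_8_8 : List (ℕ × ℤ) := [(1, 1)]

theorem h37_8_8 (E : Env κ ι) : ip (F37_8 E) (F37_8 E) = dotS (ek E lk37) r37_8_8 :=
  op_entryZ E lk37 0 1 _ _ _ _ (pg10 κ) (pg0 ι) m37_8 m37_8 l37_8 z37_8 w37_8 x37_8 (by decide) _ (chkS_sound E lk37 0 1 _ _ _ _ t37_8_8)

theorem row37_0 (E : Env κ ι) : RowG (ek E lk37) (F37_0 E) [F37_0 E, F37_1 E, F37_2 E, F37_3 E, F37_4 E, F37_5 E, F37_6 E, F37_7 E, F37_8 E] [r37_0_0, r37_0_1, r37_0_2, r37_0_3, r37_0_4, r37_0_5, r37_0_6, r37_0_7, r37_0_8] :=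
  rowG_cons _ _ _ _ _ _ (h37_0_0 E) (rowG_cons _ _ _ _ _ _ (h37_0_1 E) (rowG_cons _ _ _ _ _ _ (h37_0_2 E) (rowG_cons _ _ _ _ _ _ (h37_0_3 E) (rowG_cons _ _ _ _ _ _ (h37_0_4 E) (rowG_cons _ _ _ _ _ _ (h37_0_5 E) (rowG_cons _ _ _ _ _ _ (h37_0_6 E) (rowG_cons _ _ _ _ _ _ (h37_0_7 E) (rowG_cons _ _ _ _ _ _ (h37_0_8 E) (rowG_nil _ _)))))))))

theorem row37_1 (E : Env κ ι) : RowG (ek E lk37) (F37_1 E) [F37_1 E, F37_2 E, F37_3 E, F37_4 E, F37_5 E, F37_6 E, F37_7 E, F37_8 E] [r37_1_1, r37_1_2, r37_1_3, r37_1_4, r37_1_5, r37_1_6, r37_1_7, r37_1_8] :=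
  rowG_cons _ _ _ _ _ _ (h37_1_1 E) (rowG_cons _ _ _ _ _ _ (h37_1_2 E) (rowG_cons _ _ _ _ _ _ (h37_1_3 E) (rowG_cons _ _ _ _ _ _ (h37_1_4 E) (rowG_cons _ _ _ _ _ _ (h37_1_5 E) (rowG_cons _ _ _ _ _ _ (h37_1_6 E) (rowG_cons _ _ _ _ _ _ (h37_1_7 E) (rowG_cons _ _ _ _ _ _ (h37_1_8 E) (rowG_nil _ _))))))))

theorem row37_2 (E : Env κ ι) : RowG (ek E lk37) (F37_2 E) [F37_2 E, F37_3 E, F37_4 E, F37_5 E, F37_6 E, F37_7 E, F37_8 E] [r37_2_2, r37_2_3, r37_2_4, r37_2_5, r37_2_6, r37_2_7, r37_2_8] :=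
  rowG_cons _ _ _ _ _ _ (h37_2_2 E) (rowG_cons _ _ _ _ _ _ (h37_2_3 E) (rowG_cons _ _ _ _ _ _ (h37_2_4 E) (rowG_cons _ _ _ _ _ _ (h37_2_5 E) (rowG_cons _ _ _ _ _ _ (h37_2_6 E) (rowG_cons _ _ _ _ _ _ (h37_2_7 E) (rowG_cons _ _ _ _ _ _ (h37_2_8 E) (rowG_nil _ _)))))))

theorem row37_3 (E : Env κ ι) : RowG (ek E lk37) (F37_3 E) [F37_3 E, F37_4 E, F37_5 E, F37_6 E, F37_7 E, F37_8 E] [r37_3_3, r37_3_4, r37_3_5, r37_3_6, r37_3_7, r37_3_8] :=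
  rowG_cons _ _ _ _ _ _ (h37_3_3 E) (rowG_cons _ _ _ _ _ _ (h37_3_4 E) (rowG_cons _ _ _ _ _ _ (h37_3_5 E) (rowG_cons _ _ _ _ _ _ (h37_3_6 E) (rowG_cons _ _ _ _ _ _ (h37_3_7 E) (rowG_cons _ _ _ _ _ _ (h37_3_8 E) (rowG_nil _ _))))))

theorem row37_4 (E : Env κ ι) : RowG (ek E lk37) (F37_4 E) [F37_4 E, F37_5 E, F37_6 E, F37_7 E, F37_8 E] [r37_4_4, r37_4_5, r37_4_6, r37_4_7, r37_4_8] :=
  rowG_cons _ _ _ _ _ _ (h37_4_4 E) (rowG_cons _ _ _ _ _ _ (h37_4_5 E) (rowG_cons _ _ _ _ _ _ (h37_4_6 E) (rowG_cons _ _ _ _ _ _ (h37_4_7 E) (rowG_cons _ _ _ _ _ _ (h37_4_8 E) (rowG_nil _ _)))))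

theorem row37_5 (E : Env κ ι) : RowG (ek E lk37) (F37_5 E) [F37_5 E, F37_6 E, F37_7 E, F37_8 E] [r37_5_5, r37_5_6, r37_5_7, r37_5_8] :=
  rowG_cons _ _ _ _ _ _ (h37_5_5 E) (rowG_cons _ _ _ _ _ _ (h37_5_6 E) (rowG_cons _ _ _ _ _ _ (h37_5_7 E) (rowG_cons _ _ _ _ _ _ (h37_5_8 E) (rowG_nil _ _))))

theorem row37_6 (E : Env κ ι) : RowG (ek E lk37) (F37_6 E) [F37_6 E, F37_7 E, F37_8 E] [r37_6_6, r37_6_7, r37_6_8] :=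
  rowG_cons _ _ _ _ _ _ (h37_6_6 E) (rowG_cons _ _ _ _ _ _ (h37_6_7 E) (rowG_cons _ _ _ _ _ _ (h37_6_8 E) (rowG_nil _ _)))

theorem row37_7 (E : Env κ ι) : RowG (ek E lk37) (F37_7 E) [F37_7 E, F37_8 E] [r37_7_7, r37_7_8] :=
  rowG_cons _ _ _ _ _ _ (h37_7_7 E) (rowG_cons _ _ _ _ _ _ (h37_7_8 E) (rowG_nil _ _))

theorem row37_8 (E : Env κ ι) : RowG (ek E lk37) (F37_8 E) [F37_8 E] [r37_8_8] :=
  rowG_cons _ _ _ _ _ _ (h37_8_8 E) (rowG_nil _ _)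

def tab37 : List (List (List (ℕ × ℤ))) := [[r37_0_0, r37_0_1, r37_0_2, r37_0_3, r37_0_4, r37_0_5, r37_0_6, r37_0_7, r37_0_8], [r37_1_1, r37_1_2, r37_1_3, r37_1_4, r37_1_5, r37_1_6, r37_1_7, r37_1_8], [r37_2_2, r37_2_3, r37_2_4, r37_2_5, r37_2_6, r37_2_7, r37_2_8], [r37_3_3, r37_3_4, r37_3_5, r37_3_6, r37_3_7, r37_3_8], [r37_4_4, r37_4_5, r37_4_6, r37_4_7, r37_4_8], [r37_5_5, r37_5_6, r37_5_7, r37_5_8], [r37_6_6, r37_6_7, r37_6_8], [r37_7_7, r37_7_8], [r37_8_8]]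

theorem tri37 (E : Env κ ι) : TriG (ek E lk37) [F37_0 E, F37_1 E, F37_2 E, F37_3 E, F37_4 E, F37_5 E, F37_6 E, F37_7 E, F37_8 E] tab37 := by
  refine triG_cons _ _ _ _ _ (row37_0 E) ?_
  refine triG_cons _ _ _ _ _ (row37_1 E) ?_
  refine triG_cons _ _ _ _ _ (row37_2 E) ?_
  refine triG_cons _ _ _ _ _ (row37_3 E) ?_
  refine triG_cons _ _ _ _ _ (row37_4 E) ?_
  refine triG_cons _ _ _ _ _ (row37_5 E) ?_
  refine triG_cons _ _ _ _ _ (row37_6 E) ?_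
  refine triG_cons _ _ _ _ _ (row37_7 E) ?_
  refine triG_cons _ _ _ _ _ (row37_8 E) ?_
  exact triG_nil _

end

def lk38 : List Key := [
  (2, 5, [(0, [0], [0, 1]), (0, [1], [0, 2]), (0, [1], [3, 4]), (0, [0], [3, 4]), (4, [], [2]), (4, [], [1])]),
  (2, 7, [(0, [0], [0, 1]), (0, [0], [0, 1]), (0, [1], [2, 3]), (0, [1], [2, 3]), (1, [], [4, 5]), (1, [], [4, 6]), (4, [], [6]), (4, [], [5])]),
  (2, 7, [(0, [0], [0, 1]), (0, [1], [0, 2]), (0, [1], [3, 4]), (0, [0], [5, 6]), (1, [], [5, 6]), (1, [], [3, 4]), (4, [], [2]), (4, [], [1])]),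
  (2, 7, [(0, [0], [0, 1]), (0, [0], [0, 1]), (0, [1], [2, 3]), (0, [1], [2, 4]), (4, [], [4]), (4, [], [3]), (1, [], [5, 6]), (1, [], [5, 6])]),
  (2, 7, [(0, [0], [0, 1]), (0, [0], [0, 1]), (0, [1], [2, 3]), (0, [1], [4, 5]), (1, [], [2, 6]), (1, [], [4, 5]), (4, [], [3]), (4, [], [6])]),
  (2, 6, [(0, [0], [0, 1]), (0, [0], [0, 1]), (0, [1], [2, 3]), (1, [], [4, 5]), (2, [1], [2, 4, 5]), (4, [], [3])]),
  (2, 5, [(0, [0], [0, 1]), (0, [1], [0, 2]), (0, [1], [2, 3]), (0, [0], [1, 4]), (4, [], [4]), (4, [], [3])]),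
  (2, 5, [(0, [0], [0, 1]), (0, [1], [0, 2]), (0, [0], [2, 3]), (0, [1], [1, 4]), (4, [], [4]), (4, [], [3])]),
  (2, 6, [(0, [0], [0, 1]), (0, [0], [2, 3]), (0, [1], [4, 5]), (1, [], [0, 1]), (2, [1], [2, 3, 4]), (4, [], [5])]),
  (2, 6, [(0, [0], [0, 1]), (0, [0], [2, 3]), (0, [1], [4, 5]), (1, [], [0, 4]), (2, [1], [2, 3, 5]), (4, [], [1])]),
  (2, 7, [(0, [0], [0, 1]), (0, [0], [2, 3]), (0, [1], [4, 5]), (0, [1], [4, 6]), (1, [], [0, 5]), (1, [], [2, 3]), (4, [], [1]), (4, [], [6])]),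
  (2, 7, [(0, [0], [0, 1]), (0, [1], [0, 2]), (0, [0], [3, 4]), (0, [1], [5, 6]), (1, [], [1, 3]), (1, [], [5, 6]), (4, [], [2]), (4, [], [4])]),
  (2, 5, [(0, [0], [0, 1]), (0, [1], [0, 2]), (2, [1], [2, 3, 4]), (2, [0], [1, 3, 4])]),
  (2, 6, [(0, [0], [0, 1]), (0, [0], [2, 3]), (0, [1], [0, 4]), (1, [], [1, 5]), (2, [1], [2, 3, 4]), (4, [], [5])]),
  (2, 6, [(0, [0], [0, 1]), (0, [1], [0, 2]), (0, [0], [1, 3]), (1, [], [4, 5]), (2, [1], [2, 4, 5]), (4, [], [3])]),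
  (2, 7, [(0, [0], [0, 1]), (0, [0], [2, 3]), (0, [1], [0, 4]), (0, [1], [4, 5]), (1, [], [1, 6]), (1, [], [2, 3]), (4, [], [5]), (4, [], [6])]),
  (2, 7, [(0, [0], [0, 1]), (0, [1], [0, 2]), (0, [1], [2, 3]), (0, [0], [1, 4]), (4, [], [4]), (4, [], [3]), (1, [], [5, 6]), (1, [], [5, 6])]),
  (2, 7, [(0, [0], [0, 1]), (0, [1], [0, 2]), (0, [1], [1, 3]), (0, [0], [4, 5]), (1, [], [2, 6]), (1, [], [4, 5]), (4, [], [3]), (4, [], [6])]),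
  (2, 6, [(0, [0], [0, 1]), (0, [0], [0, 1]), (0, [1], [2, 3]), (0, [1], [2, 4]), (1, [], [3, 5]), (4, [], [4]), (4, [], [5])]),
  (2, 6, [(0, [0], [0, 1]), (0, [0], [2, 3]), (0, [1], [0, 4]), (0, [1], [4, 5]), (1, [], [2, 3]), (4, [], [1]), (4, [], [5])]),
  (2, 6, [(0, [0], [0, 1]), (0, [0], [0, 1]), (0, [1], [2, 3]), (0, [1], [4, 5]), (1, [], [4, 5]), (4, [], [2]), (4, [], [3])]),
  (2, 6, [(0, [0], [0, 1]), (0, [0], [0, 1]), (0, [1], [2, 3]), (0, [1], [4, 5]), (1, [], [2, 4]), (4, [], [5]), (4, [], [3])]),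
  (2, 5, [(0, [0], [0, 1]), (0, [0], [2, 3]), (0, [1], [0, 4]), (2, [1], [2, 3, 4]), (4, [], [1])]),
  (2, 6, [(0, [0], [0, 1]), (0, [1], [0, 2]), (0, [1], [1, 3]), (0, [0], [4, 5]), (1, [], [4, 5]), (4, [], [3]), (4, [], [2])]),
  (2, 6, [(0, [0], [0, 1]), (0, [1], [0, 2]), (0, [1], [1, 3]), (0, [0], [4, 5]), (1, [], [2, 4]), (4, [], [3]), (4, [], [5])]),
  (2, 6, [(0, [0], [0, 1]), (0, [0], [2, 3]), (0, [1], [0, 4]), (0, [1], [4, 5]), (1, [], [2, 5]), (4, [], [1]), (4, [], [3])]),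
  (2, 6, [(0, [0], [0, 1]), (0, [1], [2, 3]), (0, [0], [2, 4]), (0, [1], [0, 5]), (1, [], [1, 3]), (4, [], [5]), (4, [], [4])]),
  (2, 6, [(0, [0], [0, 1]), (0, [0], [2, 3]), (0, [1], [2, 4]), (0, [1], [0, 5]), (1, [], [1, 3]), (4, [], [5]), (4, [], [4])]),
  (2, 6, [(0, [0], [0, 1]), (0, [1], [0, 2]), (0, [0], [2, 3]), (0, [1], [1, 4]), (1, [], [3, 5]), (4, [], [4]), (4, [], [5])]),
  (2, 6, [(0, [0], [0, 1]), (0, [0], [2, 3]), (0, [1], [0, 4]), (0, [1], [4, 5]), (1, [], [1, 2]), (4, [], [3]), (4, [], [5])]),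
  (2, 6, [(0, [0], [0, 1]), (0, [0], [2, 3]), (0, [1], [0, 4]), (0, [1], [2, 4]), (1, [], [1, 5]), (4, [], [3]), (4, [], [5])]),
  (2, 5, [(0, [0], [0, 1]), (0, [0], [2, 3]), (0, [1], [2, 4]), (0, [1], [0, 4]), (4, [], [3]), (4, [], [1])]),
  (2, 7, [(0, [0], [0, 1]), (0, [0], [0, 2]), (0, [1], [1, 2]), (4, [], [3]), (0, [1], [4, 5]), (1, [], [4, 6]), (1, [], [3, 6]), (4, [], [5])]),
  (2, 7, [(0, [0], [0, 1]), (0, [0], [0, 2]), (0, [1], [1, 2]), (4, [], [3]), (0, [1], [4, 5]), (1, [], [4, 6]), (1, [], [3, 5]), (4, [], [6])]),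
  (2, 7, [(0, [0], [0, 1]), (0, [0], [0, 2]), (0, [1], [1, 2]), (4, [], [3]), (0, [1], [4, 5]), (1, [], [4, 5]), (1, [], [3, 6]), (4, [], [6])]),
  (2, 6, [(0, [0], [0, 1]), (0, [0], [0, 2]), (0, [1], [1, 2]), (4, [], [3]), (0, [1], [4, 5]), (1, [], [4, 5]), (4, [], [3])]),
  (2, 6, [(0, [0], [0, 1]), (0, [0], [0, 2]), (0, [1], [1, 2]), (4, [], [3]), (0, [1], [4, 5]), (1, [], [3, 4]), (4, [], [5])]),
  (2, 5, [(0, [0], [0, 1]), (0, [0], [0, 2]), (0, [1], [1, 2]), (4, [], [3]), (0, [1], [3, 4]), (4, [], [4])]),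
  (2, 7, [(0, [0], [0, 1]), (0, [0], [0, 2]), (0, [1], [3, 2]), (4, [], [1]), (0, [1], [4, 5]), (1, [], [4, 6]), (1, [], [5, 6]), (4, [], [3])]),
  (2, 7, [(0, [0], [0, 1]), (0, [0], [0, 2]), (0, [1], [3, 2]), (4, [], [1]), (0, [1], [4, 5]), (1, [], [4, 6]), (1, [], [3, 6]), (4, [], [5])]),
  (2, 7, [(0, [0], [0, 1]), (0, [0], [0, 2]), (0, [1], [3, 2]), (4, [], [1]), (0, [1], [4, 5]), (1, [], [4, 6]), (1, [], [3, 5]), (4, [], [6])]),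
  (2, 7, [(0, [0], [0, 1]), (0, [0], [0, 2]), (0, [1], [3, 2]), (4, [], [1]), (0, [1], [3, 4]), (1, [], [5, 6]), (1, [], [4, 5]), (4, [], [6])]),
  (2, 6, [(0, [0], [0, 1]), (0, [0], [0, 2]), (0, [1], [3, 2]), (4, [], [1]), (0, [1], [3, 4]), (1, [], [4, 5]), (4, [], [5])]),
  (2, 7, [(0, [0], [0, 1]), (0, [0], [0, 1]), (0, [1], [2, 3]), (4, [], [3]), (0, [1], [4, 5]), (1, [], [4, 6]), (1, [], [5, 6]), (4, [], [2])]),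
  (2, 7, [(0, [0], [0, 1]), (0, [0], [0, 1]), (0, [1], [2, 3]), (4, [], [3]), (0, [1], [4, 5]), (1, [], [4, 6]), (1, [], [2, 6]), (4, [], [5])]),
  (2, 7, [(0, [0], [0, 1]), (0, [0], [0, 1]), (0, [1], [2, 3]), (4, [], [3]), (0, [1], [4, 5]), (1, [], [4, 6]), (1, [], [2, 5]), (4, [], [6])]),
  (2, 7, [(0, [0], [0, 1]), (0, [0], [0, 1]), (0, [1], [2, 3]), (4, [], [3]), (0, [1], [2, 4]), (1, [], [5, 6]), (1, [], [4, 5]), (4, [], [6])]),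
  (2, 7, [(0, [0], [0, 1]), (0, [0], [2, 3]), (0, [1], [0, 3]), (4, [], [1]), (0, [1], [4, 5]), (1, [], [4, 6]), (1, [], [2, 6]), (4, [], [5])]),
  (2, 7, [(0, [0], [0, 1]), (0, [0], [2, 3]), (0, [1], [0, 3]), (4, [], [1]), (0, [1], [4, 5]), (1, [], [4, 6]), (1, [], [2, 5]), (4, [], [6])]),
  (2, 7, [(0, [0], [0, 1]), (0, [0], [2, 3]), (0, [1], [0, 1]), (4, [], [3]), (0, [1], [4, 5]), (1, [], [4, 6]), (1, [], [2, 6]), (4, [], [5])]),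
  (2, 7, [(0, [0], [0, 1]), (0, [0], [2, 3]), (0, [1], [0, 1]), (4, [], [3]), (0, [1], [4, 5]), (1, [], [4, 6]), (1, [], [2, 5]), (4, [], [6])]),
  (2, 7, [(0, [0], [0, 1]), (0, [0], [2, 3]), (0, [1], [0, 1]), (4, [], [3]), (0, [1], [4, 5]), (1, [], [4, 5]), (1, [], [2, 6]), (4, [], [6])]),
  (2, 6, [(0, [0], [0, 1]), (0, [0], [2, 3]), (0, [1], [0, 1]), (4, [], [3]), (0, [1], [4, 5]), (1, [], [4, 5]), (4, [], [2])]),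
  (2, 6, [(0, [0], [0, 1]), (0, [0], [2, 3]), (0, [1], [0, 1]), (4, [], [3]), (0, [1], [4, 5]), (1, [], [2, 4]), (4, [], [5])]),
  (2, 6, [(0, [0], [0, 1]), (0, [0], [2, 3]), (0, [1], [0, 1]), (4, [], [3]), (0, [1], [2, 4]), (1, [], [4, 5]), (4, [], [5])]),
  (2, 7, [(0, [0], [0, 1]), (0, [0], [2, 0]), (0, [1], [1, 3]), (4, [], [3]), (0, [1], [4, 5]), (1, [], [4, 6]), (1, [], [2, 6]), (4, [], [5])]),
  (2, 7, [(0, [0], [0, 1]), (0, [0], [2, 0]), (0, [1], [1, 3]), (4, [], [3]), (0, [1], [4, 5]), (1, [], [4, 6]), (1, [], [2, 5]), (4, [], [6])]),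
  (2, 7, [(0, [0], [0, 1]), (0, [0], [2, 0]), (0, [1], [1, 3]), (4, [], [3]), (0, [1], [4, 5]), (1, [], [4, 5]), (1, [], [2, 6]), (4, [], [6])]),
  (2, 7, [(0, [0], [0, 1]), (0, [0], [2, 0]), (0, [1], [1, 3]), (4, [], [3]), (0, [1], [2, 4]), (1, [], [5, 6]), (1, [], [4, 5]), (4, [], [6])]),
  (2, 7, [(0, [0], [0, 1]), (0, [0], [0, 1]), (0, [1], [2, 3]), (4, [], [4]), (0, [1], [5, 6]), (1, [], [5, 6]), (1, [], [2, 3]), (4, [], [4])]),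
  (2, 7, [(0, [0], [0, 1]), (0, [0], [0, 1]), (0, [1], [2, 3]), (4, [], [4]), (0, [1], [5, 6]), (1, [], [2, 5]), (1, [], [3, 6]), (4, [], [4])]),
  (2, 7, [(0, [0], [0, 1]), (0, [0], [0, 1]), (0, [1], [2, 3]), (4, [], [4]), (0, [1], [2, 5]), (1, [], [5, 6]), (1, [], [3, 6]), (4, [], [4])]),
  (2, 7, [(0, [0], [0, 1]), (0, [0], [0, 1]), (0, [1], [2, 3]), (4, [], [4]), (0, [1], [2, 5]), (1, [], [5, 6]), (1, [], [3, 4]), (4, [], [6])]),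
  (2, 7, [(0, [0], [0, 1]), (0, [0], [0, 1]), (0, [1], [2, 3]), (4, [], [4]), (0, [1], [2, 5]), (1, [], [4, 6]), (1, [], [3, 5]), (4, [], [6])]),
  (2, 6, [(0, [0], [0, 1]), (0, [0], [0, 1]), (0, [1], [2, 3]), (4, [], [4]), (0, [1], [2, 5]), (1, [], [3, 5]), (4, [], [4])]),
  (2, 7, [(0, [0], [0, 1]), (0, [0], [0, 1]), (0, [1], [2, 3]), (4, [], [4]), (0, [1], [2, 3]), (1, [], [5, 6]), (1, [], [5, 6]), (4, [], [4])]),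
  (2, 6, [(0, [0], [0, 1]), (0, [0], [0, 1]), (0, [1], [2, 3]), (4, [], [4]), (1, [], [2, 5]), (2, [1], [3, 4, 5])]),
  (2, 7, [(0, [0], [0, 1]), (0, [0], [2, 0]), (0, [1], [3, 1]), (4, [], [4]), (0, [1], [5, 6]), (1, [], [5, 6]), (1, [], [2, 3]), (4, [], [4])]),
  (2, 7, [(0, [0], [0, 1]), (0, [0], [2, 0]), (0, [1], [3, 1]), (4, [], [4]), (0, [1], [5, 6]), (1, [], [2, 5]), (1, [], [3, 6]), (4, [], [4])]),
  (2, 7, [(0, [0], [0, 1]), (0, [0], [2, 0]), (0, [1], [3, 1]), (4, [], [4]), (0, [1], [5, 6]), (1, [], [2, 5]), (1, [], [3, 4]), (4, [], [6])]),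
  (2, 7, [(0, [0], [0, 1]), (0, [0], [2, 0]), (0, [1], [3, 1]), (4, [], [4]), (0, [1], [5, 6]), (1, [], [3, 5]), (1, [], [2, 4]), (4, [], [6])]),
  (2, 7, [(0, [0], [0, 1]), (0, [0], [2, 0]), (0, [1], [3, 1]), (4, [], [4]), (0, [1], [5, 6]), (1, [], [4, 5]), (1, [], [2, 3]), (4, [], [6])]),
  (2, 7, [(0, [0], [0, 1]), (0, [0], [2, 0]), (0, [1], [3, 1]), (4, [], [4]), (0, [1], [3, 5]), (1, [], [5, 6]), (1, [], [2, 6]), (4, [], [4])]),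
  (2, 7, [(0, [0], [0, 1]), (0, [0], [2, 0]), (0, [1], [3, 1]), (4, [], [4]), (0, [1], [2, 5]), (1, [], [5, 6]), (1, [], [3, 4]), (4, [], [6])]),
  (2, 7, [(0, [0], [0, 1]), (0, [0], [2, 0]), (0, [1], [3, 1]), (4, [], [4]), (0, [1], [3, 5]), (1, [], [5, 6]), (1, [], [2, 4]), (4, [], [6])]),
  (2, 7, [(0, [0], [0, 1]), (0, [0], [2, 0]), (0, [1], [3, 1]), (4, [], [4]), (0, [1], [4, 5]), (1, [], [2, 6]), (1, [], [3, 6]), (4, [], [5])]),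
  (2, 7, [(0, [0], [0, 1]), (0, [0], [2, 0]), (0, [1], [3, 1]), (4, [], [4]), (0, [1], [2, 5]), (1, [], [4, 6]), (1, [], [3, 5]), (4, [], [6])]),
  (2, 7, [(0, [0], [0, 1]), (0, [0], [2, 0]), (0, [1], [3, 1]), (4, [], [4]), (0, [1], [3, 5]), (1, [], [4, 6]), (1, [], [2, 5]), (4, [], [6])]),
  (2, 6, [(0, [0], [0, 1]), (0, [0], [2, 0]), (0, [1], [3, 1]), (4, [], [4]), (0, [1], [2, 5]), (1, [], [3, 5]), (4, [], [4])]),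
  (2, 6, [(0, [0], [0, 1]), (0, [0], [2, 0]), (0, [1], [3, 1]), (4, [], [4]), (0, [1], [3, 5]), (1, [], [2, 5]), (4, [], [4])]),
  (2, 6, [(0, [0], [0, 1]), (0, [0], [2, 0]), (0, [1], [3, 1]), (4, [], [4]), (0, [1], [4, 5]), (1, [], [2, 3]), (4, [], [5])]),
  (2, 7, [(0, [0], [0, 1]), (0, [0], [2, 0]), (0, [1], [3, 1]), (4, [], [4]), (0, [1], [2, 3]), (1, [], [5, 6]), (1, [], [4, 5]), (4, [], [6])]),
  (2, 6, [(0, [0], [0, 1]), (0, [0], [2, 0]), (0, [1], [3, 1]), (4, [], [4]), (0, [1], [2, 3]), (1, [], [4, 5]), (4, [], [5])]),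
  (2, 5, [(0, [0], [0, 1]), (0, [0], [2, 0]), (0, [1], [3, 1]), (4, [], [4]), (0, [1], [2, 3]), (4, [], [4])]),
  (2, 6, [(0, [0], [0, 1]), (0, [0], [2, 0]), (0, [1], [3, 1]), (4, [], [4]), (1, [], [2, 5]), (2, [1], [3, 4, 5])]),
  (2, 6, [(0, [0], [0, 1]), (0, [0], [2, 0]), (0, [1], [3, 1]), (4, [], [4]), (1, [], [4, 5]), (2, [1], [2, 3, 5])]),
  (2, 5, [(0, [0], [0, 1]), (0, [0], [2, 0]), (0, [1], [3, 1]), (4, [], [4]), (2, [1], [2, 3, 4])]),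
  (2, 7, [(0, [0], [0, 1]), (0, [0], [2, 0]), (0, [1], [3, 4]), (4, [], [1]), (0, [1], [5, 6]), (1, [], [5, 6]), (1, [], [3, 4]), (4, [], [2])]),
  (2, 7, [(0, [0], [0, 1]), (0, [0], [2, 0]), (0, [1], [3, 4]), (4, [], [1]), (0, [1], [5, 6]), (1, [], [2, 5]), (1, [], [3, 6]), (4, [], [4])]),
  (2, 7, [(0, [0], [0, 1]), (0, [0], [2, 0]), (0, [1], [3, 4]), (4, [], [1]), (0, [1], [5, 6]), (1, [], [3, 5]), (1, [], [4, 6]), (4, [], [2])]),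
  (2, 7, [(0, [0], [0, 1]), (0, [0], [2, 0]), (0, [1], [3, 4]), (4, [], [1]), (0, [1], [3, 5]), (1, [], [5, 6]), (1, [], [2, 6]), (4, [], [4])]),
  (2, 7, [(0, [0], [0, 1]), (0, [0], [2, 0]), (0, [1], [3, 4]), (4, [], [1]), (0, [1], [3, 5]), (1, [], [5, 6]), (1, [], [4, 6]), (4, [], [2])]),
  (2, 7, [(0, [0], [0, 1]), (0, [0], [2, 0]), (0, [1], [3, 4]), (4, [], [1]), (0, [1], [3, 5]), (1, [], [5, 6]), (1, [], [2, 4]), (4, [], [6])]),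
  (2, 7, [(0, [0], [0, 1]), (0, [0], [2, 0]), (0, [1], [3, 4]), (4, [], [1]), (0, [1], [3, 5]), (1, [], [2, 6]), (1, [], [4, 5]), (4, [], [6])]),
  (2, 6, [(0, [0], [0, 1]), (0, [0], [2, 0]), (0, [1], [3, 4]), (4, [], [1]), (0, [1], [3, 5]), (1, [], [2, 5]), (4, [], [4])]),
  (2, 6, [(0, [0], [0, 1]), (0, [0], [2, 0]), (0, [1], [3, 4]), (4, [], [1]), (0, [1], [3, 5]), (1, [], [4, 5]), (4, [], [2])]),
  (2, 6, [(0, [0], [0, 1]), (0, [0], [2, 0]), (0, [1], [3, 4]), (4, [], [1]), (1, [], [3, 5]), (2, [1], [2, 4, 5])]),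
  (2, 7, [(0, [0], [0, 1]), (0, [0], [2, 3]), (0, [1], [0, 1]), (4, [], [4]), (0, [1], [5, 6]), (1, [], [5, 6]), (1, [], [2, 3]), (4, [], [4])]),
  (2, 7, [(0, [0], [0, 1]), (0, [0], [2, 3]), (0, [1], [0, 1]), (4, [], [4]), (0, [1], [2, 5]), (1, [], [5, 6]), (1, [], [3, 4]), (4, [], [6])]),
  (2, 7, [(0, [0], [0, 1]), (0, [0], [2, 3]), (0, [1], [4, 0]), (4, [], [1]), (0, [1], [5, 6]), (1, [], [5, 6]), (1, [], [2, 4]), (4, [], [3])]),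
  (2, 7, [(0, [0], [0, 1]), (0, [0], [2, 3]), (0, [1], [4, 0]), (4, [], [1]), (0, [1], [5, 6]), (1, [], [2, 5]), (1, [], [3, 6]), (4, [], [4])]),
  (2, 7, [(0, [0], [0, 1]), (0, [0], [2, 3]), (0, [1], [4, 0]), (4, [], [1]), (0, [1], [5, 6]), (1, [], [2, 5]), (1, [], [4, 6]), (4, [], [3])]),
  (2, 7, [(0, [0], [0, 1]), (0, [0], [2, 3]), (0, [1], [4, 0]), (4, [], [1]), (0, [1], [5, 6]), (1, [], [2, 5]), (1, [], [3, 4]), (4, [], [6])]),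
  (2, 7, [(0, [0], [0, 1]), (0, [0], [2, 3]), (0, [1], [4, 0]), (4, [], [1]), (0, [1], [2, 5]), (1, [], [5, 6]), (1, [], [3, 6]), (4, [], [4])]),
  (2, 7, [(0, [0], [0, 1]), (0, [0], [2, 3]), (0, [1], [4, 0]), (4, [], [1]), (0, [1], [2, 5]), (1, [], [5, 6]), (1, [], [3, 4]), (4, [], [6])]),
  (2, 7, [(0, [0], [0, 1]), (0, [0], [2, 3]), (0, [1], [4, 0]), (4, [], [1]), (0, [1], [2, 5]), (1, [], [3, 6]), (1, [], [4, 6]), (4, [], [5])]),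
  (2, 7, [(0, [0], [0, 1]), (0, [0], [2, 3]), (0, [1], [4, 0]), (4, [], [1]), (0, [1], [2, 5]), (1, [], [3, 6]), (1, [], [4, 5]), (4, [], [6])]),
  (2, 7, [(0, [0], [0, 1]), (0, [0], [2, 3]), (0, [1], [4, 0]), (4, [], [1]), (0, [1], [2, 5]), (1, [], [4, 6]), (1, [], [3, 5]), (4, [], [6])]),
  (2, 6, [(0, [0], [0, 1]), (0, [0], [2, 3]), (0, [1], [4, 0]), (4, [], [1]), (0, [1], [2, 5]), (1, [], [3, 5]), (4, [], [4])]),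
  (2, 6, [(0, [0], [0, 1]), (0, [0], [2, 3]), (0, [1], [4, 0]), (4, [], [1]), (1, [], [2, 5]), (2, [1], [3, 4, 5])]),
  (2, 7, [(0, [0], [0, 1]), (0, [0], [2, 3]), (0, [1], [1, 3]), (4, [], [4]), (0, [1], [5, 6]), (1, [], [5, 6]), (1, [], [0, 2]), (4, [], [4])]),
  (2, 7, [(0, [0], [0, 1]), (0, [0], [2, 3]), (0, [1], [1, 3]), (4, [], [4]), (0, [1], [5, 6]), (1, [], [0, 5]), (1, [], [2, 4]), (4, [], [6])]),
  (2, 7, [(0, [0], [0, 1]), (0, [0], [2, 3]), (0, [1], [1, 3]), (4, [], [4]), (0, [1], [5, 6]), (1, [], [4, 5]), (1, [], [0, 2]), (4, [], [6])]),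
  (2, 7, [(0, [0], [0, 1]), (0, [0], [2, 3]), (0, [1], [1, 3]), (4, [], [4]), (0, [1], [0, 5]), (1, [], [5, 6]), (1, [], [2, 4]), (4, [], [6])]),
  (2, 6, [(0, [0], [0, 1]), (0, [0], [2, 3]), (0, [1], [1, 3]), (4, [], [4]), (0, [1], [4, 5]), (1, [], [0, 2]), (4, [], [5])]),
  (2, 7, [(0, [0], [0, 1]), (0, [0], [2, 3]), (0, [1], [4, 3]), (4, [], [1]), (0, [1], [5, 6]), (1, [], [5, 6]), (1, [], [2, 4]), (4, [], [0])]),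
  (2, 7, [(0, [0], [0, 1]), (0, [0], [2, 3]), (0, [1], [4, 3]), (4, [], [1]), (0, [1], [5, 6]), (1, [], [2, 5]), (1, [], [4, 6]), (4, [], [0])]),
  (2, 7, [(0, [0], [0, 1]), (0, [0], [2, 3]), (0, [1], [4, 3]), (4, [], [1]), (0, [1], [5, 6]), (1, [], [0, 5]), (1, [], [2, 4]), (4, [], [6])]),
  (2, 7, [(0, [0], [0, 1]), (0, [0], [2, 3]), (0, [1], [4, 3]), (4, [], [1]), (0, [1], [5, 6]), (1, [], [2, 5]), (1, [], [0, 4]), (4, [], [6])]),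
  (2, 7, [(0, [0], [0, 1]), (0, [0], [2, 3]), (0, [1], [4, 3]), (4, [], [1]), (0, [1], [5, 6]), (1, [], [4, 5]), (1, [], [0, 2]), (4, [], [6])]),
  (2, 6, [(0, [0], [0, 1]), (0, [0], [2, 3]), (0, [1], [4, 3]), (4, [], [1]), (1, [], [0, 5]), (2, [1], [2, 4, 5])]),
  (2, 6, [(0, [0], [0, 1]), (0, [0], [2, 3]), (0, [1], [4, 3]), (4, [], [1]), (1, [], [2, 5]), (2, [1], [0, 4, 5])]),
  (2, 5, [(0, [0], [0, 1]), (0, [0], [2, 3]), (0, [1], [4, 3]), (4, [], [1]), (2, [1], [0, 2, 4])]),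
  (2, 7, [(0, [0], [0, 1]), (0, [0], [2, 1]), (0, [1], [3, 4]), (4, [], [4]), (0, [1], [5, 6]), (1, [], [0, 5]), (1, [], [2, 6]), (4, [], [3])]),
  (2, 7, [(0, [0], [0, 1]), (0, [0], [2, 1]), (0, [1], [3, 4]), (4, [], [4]), (0, [1], [5, 6]), (1, [], [0, 5]), (1, [], [2, 3]), (4, [], [6])]),
  (2, 6, [(0, [0], [0, 1]), (0, [0], [2, 1]), (0, [1], [3, 4]), (4, [], [4]), (1, [], [0, 5]), (2, [1], [2, 3, 5])]),
  (2, 5, [(0, [0], [0, 1]), (0, [0], [2, 1]), (0, [1], [3, 4]), (4, [], [4]), (2, [1], [0, 2, 3])]),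
  (2, 7, [(0, [0], [0, 1]), (0, [0], [2, 1]), (0, [1], [3, 4]), (4, [], [5]), (0, [1], [3, 6]), (1, [], [0, 6]), (1, [], [2, 4]), (4, [], [5])]),
  (2, 6, [(0, [0], [0, 1]), (0, [0], [2, 1]), (0, [1], [3, 4]), (4, [], [5]), (1, [], [0, 3]), (2, [1], [2, 4, 5])]),
  (2, 6, [(0, [0], [0, 1]), (0, [0], [2, 1]), (0, [1], [3, 4]), (4, [], [5]), (1, [], [3, 5]), (2, [1], [0, 2, 4])]),
  (2, 7, [(0, [0], [0, 1]), (0, [0], [2, 3]), (0, [1], [4, 1]), (4, [], [5]), (0, [1], [2, 6]), (1, [], [4, 6]), (1, [], [0, 3]), (4, [], [5])]),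
  (2, 6, [(0, [0], [0, 1]), (0, [0], [2, 3]), (0, [1], [4, 1]), (4, [], [5]), (1, [], [0, 2]), (2, [1], [3, 4, 5])]),
  (2, 6, [(0, [0], [0, 1]), (0, [0], [2, 3]), (0, [1], [4, 1]), (4, [], [5]), (1, [], [2, 3]), (2, [1], [0, 4, 5])]),
  (2, 6, [(0, [0], [0, 1]), (0, [0], [2, 3]), (0, [1], [4, 1]), (4, [], [5]), (1, [], [2, 5]), (2, [1], [0, 3, 4])]),
  (2, 6, [(0, [0], [0, 1]), (0, [0], [2, 3]), (0, [1], [4, 5]), (4, [], [1]), (1, [], [2, 4]), (2, [1], [0, 3, 5])]),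
  (2, 6, [(0, [0], [0, 1]), (0, [0], [2, 3]), (0, [1], [4, 5]), (4, [], [5]), (1, [], [0, 2]), (2, [1], [1, 3, 4])]),
  (2, 5, [(0, [0], [0, 1]), (2, [0], [2, 3, 1]), (0, [1], [2, 4]), (2, [1], [0, 3, 4])])]

def kl38 : List ℕ := [6, 9, 10, 12, 22, 30, 33, 34, 38, 41, 42, 45, 47, 48, 49, 50, 51, 55, 64, 75, 76, 78, 82, 83, 84, 85, 86, 87, 88, 89, 90, 93, 100, 101, 102, 103, 104, 107, 113, 114, 115, 117, 118, 121, 122, 123, 124, 128, 129, 135, 136, 137, 138, 139, 142, 145, 146, 147, 150, 207, 208, 209, 210, 211, 212, 214, 215, 226, 227, 228, 229, 230, 232, 233, 234, 235, 236, 237, 238, 239, 240, 245, 246, 247, 248, 250, 251, 254, 255, 256, 257, 258, 259, 260, 261, 262, 265, 270, 273, 289, 290, 291, 292, 293, 295, 296, 297, 298, 299, 301, 304, 306, 307, 309, 313, 323, 324, 325, 326, 327, 328, 329, 331, 333, 334, 336,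 338, 422, 425, 428, 433, 434, 436, 438, 440, 441, 447]

def m38_0 : Base := (1, 2, [(0, [0], [3, 4]), (0, [0], [3, 4]), (1, [], [0, 1]), (4, [], [2])])

def l38_0 : Cov := [(12, 1, 2, [(0, [0], [3, 4]), (0, [0], [3, 4]), (1, [], [0, 1]), (4, [], [2])]),
  (12, 1, 2, [(0, [0], [3, 4]), (0, [0], [3, 4]), (1, [], [0, 2]), (4, [], [1])]),
  (12, 1, 2, [(0, [0], [3, 4]), (0, [0], [3, 4]), (1, [], [1, 2]), (4, [], [0])])]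

def z38_0 : Cov := []

def w38_0 : List (List Wit) := [[(0, 0, 0, 16, 16), (1, 0, 0, 16, 16), (0, 0, 0, 16, 16), (2, 0, 0, 16, 16), (1, 0, 0, 16, 16), (2, 0, 0, 16, 16)]]

def m38_1 : Base := (1, 2, [(0, [0], [3, 4]), (0, [0], [0, 3]), (1, [], [1, 4]), (4, [], [2])])

def l38_1 : Cov := [(6, 1, 2, [(0, [0], [3, 4]), (0, [0], [0, 3]), (1, [], [1, 4]), (4, [], [2])]),
  (6, 1, 2, [(0, [0], [3, 4]), (0, [0], [0, 3]), (1, [], [2, 4]), (4, [], [1])]),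
  (6, 1, 2, [(0, [0], [3, 4]), (0, [0], [1, 3]), (1, [], [0, 4]), (4, [], [2])]),
  (6, 1, 2, [(0, [0], [3, 4]), (0, [0], [1, 3]), (1, [], [2, 4]), (4, [], [0])]),
  (6, 1, 2, [(0, [0], [3, 4]), (0, [0], [2, 3]), (1, [], [0, 4]), (4, [], [1])]),
  (6, 1, 2, [(0, [0], [3, 4]), (0, [0], [2, 3]), (1, [], [1, 4]), (4, [], [0])])]

def z38_1 : Cov := []

def w38_1 : List (List Wit) := [[(0, 0, 0, 16, 16), (1, 0, 0, 16, 16), (2, 0, 0, 16, 16), (3, 0, 0, 16, 16), (4, 0, 0, 16, 16), (5, 0, 0, 16, 16)]]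

def m38_2 : Base := (1, 2, [(0, [0], [3, 4]), (0, [0], [0, 3]), (1, [], [1, 2]), (4, [], [4])])

def l38_2 : Cov := [(12, 1, 2, [(0, [0], [3, 4]), (0, [0], [0, 3]), (1, [], [1, 2]), (4, [], [4])]),
  (12, 1, 2, [(0, [0], [3, 4]), (0, [0], [1, 3]), (1, [], [0, 2]), (4, [], [4])]),
  (12, 1, 2, [(0, [0], [3, 4]), (0, [0], [2, 3]), (1, [], [0, 1]), (4, [], [4])])]

def z38_2 : Cov := []

def w38_2 : List (List Wit) := [[(0, 0, 0, 16, 16), (0, 0, 0, 16, 16), (1, 0, 0, 16, 16), (1, 0, 0, 16, 16), (2, 0, 0, 16, 16), (2, 0, 0, 16, 16)]]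

def m38_3 : Base := (1, 2, [(0, [0], [3, 4]), (0, [0], [0, 1]), (1, [], [3, 4]), (4, [], [2])])

def l38_3 : Cov := [(12, 1, 2, [(0, [0], [3, 4]), (0, [0], [0, 1]), (1, [], [3, 4]), (4, [], [2])]),
  (12, 1, 2, [(0, [0], [3, 4]), (0, [0], [0, 2]), (1, [], [3, 4]), (4, [], [1])]),
  (12, 1, 2, [(0, [0], [3, 4]), (0, [0], [1, 2]), (1, [], [3, 4]), (4, [], [0])])]

def z38_3 : Cov := []

def w38_3 : List (List Wit) := [[(0, 0, 0, 16, 16), (1, 0, 0, 16, 16), (0, 0, 0, 16, 16), (2, 0, 0, 16, 16), (1, 0, 0, 16, 16), (2, 0, 0, 16, 16)]]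

def m38_4 : Base := (1, 2, [(0, [0], [3, 4]), (0, [0], [0, 1]), (1, [], [2, 3]), (4, [], [4])])

def l38_4 : Cov := [(12, 1, 2, [(0, [0], [3, 4]), (0, [0], [0, 1]), (1, [], [2, 3]), (4, [], [4])]),
  (12, 1, 2, [(0, [0], [3, 4]), (0, [0], [0, 2]), (1, [], [1, 3]), (4, [], [4])]),
  (12, 1, 2, [(0, [0], [3, 4]), (0, [0], [1, 2]), (1, [], [0, 3]), (4, [], [4])])]

def z38_4 : Cov := []

def w38_4 : List (List Wit) := [[(0, 0, 0, 16, 16), (1, 0, 0, 16, 16), (0, 0, 0, 16, 16), (2, 0, 0, 16, 16), (1, 0, 0, 16, 16), (2, 0, 0, 16, 16)]]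

def m38_5 : Base := (1, 2, [(0, [0], [0, 3]), (0, [0], [1, 4]), (1, [], [3, 4]), (4, [], [2])])

def l38_5 : Cov := [(12, 1, 2, [(0, [0], [0, 3]), (0, [0], [1, 4]), (1, [], [3, 4]), (4, [], [2])]),
  (12, 1, 2, [(0, [0], [0, 3]), (0, [0], [2, 4]), (1, [], [3, 4]), (4, [], [1])]),
  (12, 1, 2, [(0, [0], [1, 3]), (0, [0], [2, 4]), (1, [], [3, 4]), (4, [], [0])])]

def z38_5 : Cov := []

def w38_5 : List (List Wit) := [[(0, 0, 0, 16, 16), (1, 0, 0, 16, 16), (0, 0, 0, 1, 1), (2, 0, 0, 16, 16), (1, 0, 0, 1, 1), (2, 0, 0, 1, 1)]]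

def m38_6 : Base := (1, 2, [(0, [0], [0, 3]), (0, [0], [1, 4]), (1, [], [2, 4]), (4, [], [3])])

def l38_6 : Cov := [(6, 1, 2, [(0, [0], [0, 3]), (0, [0], [1, 4]), (1, [], [2, 4]), (4, [], [3])]),
  (6, 1, 2, [(0, [0], [0, 3]), (0, [0], [2, 4]), (1, [], [1, 4]), (4, [], [3])]),
  (6, 1, 2, [(0, [0], [1, 3]), (0, [0], [0, 4]), (1, [], [2, 4]), (4, [], [3])]),
  (6, 1, 2, [(0, [0], [1, 3]), (0, [0], [2, 4]), (1, [], [0, 4]), (4, [], [3])]),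
  (6, 1, 2, [(0, [0], [2, 3]), (0, [0], [0, 4]), (1, [], [1, 4]), (4, [], [3])]),
  (6, 1, 2, [(0, [0], [2, 3]), (0, [0], [1, 4]), (1, [], [0, 4]), (4, [], [3])])]

def z38_6 : Cov := []

def w38_6 : List (List Wit) := [[(0, 0, 0, 16, 16), (1, 0, 0, 16, 16), (2, 0, 0, 16, 16), (3, 0, 0, 16, 16), (4, 0, 0, 16, 16), (5, 0, 0, 16, 16)]]

def m38_7 : Base := (1, 2, [(0, [0], [0, 3]), (0, [0], [1, 3]), (1, [], [2, 4]), (4, [], [4])])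

def l38_7 : Cov := [(12, 1, 2, [(0, [0], [0, 3]), (0, [0], [1, 3]), (1, [], [2, 4]), (4, [], [4])]),
  (12, 1, 2, [(0, [0], [0, 3]), (0, [0], [2, 3]), (1, [], [1, 4]), (4, [], [4])]),
  (12, 1, 2, [(0, [0], [1, 3]), (0, [0], [2, 3]), (1, [], [0, 4]), (4, [], [4])])]

def z38_7 : Cov := []

def w38_7 : List (List Wit) := [[(0, 0, 0, 16, 16), (1, 0, 0, 16, 16), (0, 0, 0, 16, 16), (2, 0, 0, 16, 16), (1, 0, 0, 16, 16), (2, 0, 0, 16, 16)]]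

def m38_8 : Base := (1, 1, [(0, [0], [0, 3]), (0, [0], [1, 3]), (4, [], [2])])

def l38_8 : Cov := [(12, 1, 1, [(0, [0], [0, 3]), (0, [0], [1, 3]), (4, [], [2])]),
  (12, 1, 1, [(0, [0], [0, 3]), (0, [0], [2, 3]), (4, [], [1])]),
  (12, 1, 1, [(0, [0], [1, 3]), (0, [0], [2, 3]), (4, [], [0])])]

def z38_8 : Cov := []

def w38_8 : List (List Wit) := [[(0, 0, 0, 0, 0), (1, 0, 0, 0, 0), (0, 0, 0, 0, 0), (2, 0, 0, 0, 0), (1, 0, 0, 0, 0), (2, 0, 0, 0, 0)]]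

def m38_9 : Base := (1, 2, [(0, [0], [0, 3]), (0, [0], [1, 2]), (1, [], [3, 4]), (4, [], [4])])

def l38_9 : Cov := [(12, 1, 2, [(0, [0], [0, 3]), (0, [0], [1, 2]), (1, [], [3, 4]), (4, [], [4])]),
  (12, 1, 2, [(0, [0], [1, 3]), (0, [0], [0, 2]), (1, [], [3, 4]), (4, [], [4])]),
  (12, 1, 2, [(0, [0], [2, 3]), (0, [0], [0, 1]), (1, [], [3, 4]), (4, [], [4])])]

def z38_9 : Cov := []

def w38_9 : List (List Wit) := [[(0, 0, 0, 16, 16), (0, 0, 0, 16, 16), (1, 0, 0, 16, 16), (1, 0, 0, 16, 16), (2, 0, 0, 16, 16), (2, 0, 0, 16, 16)]]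

def m38_10 : Base := (1, 1, [(0, [0], [0, 3]), (0, [0], [1, 2]), (4, [], [3])])

def l38_10 : Cov := [(12, 1, 1, [(0, [0], [0, 3]), (0, [0], [1, 2]), (4, [], [3])]),
  (12, 1, 1, [(0, [0], [1, 3]), (0, [0], [0, 2]), (4, [], [3])]),
  (12, 1, 1, [(0, [0], [2, 3]), (0, [0], [0, 1]), (4, [], [3])])]

def z38_10 : Cov := []

def w38_10 : List (List Wit) := [[(0, 0, 0, 0, 0), (0, 0, 0, 0, 0), (1, 0, 0, 0, 0), (1, 0, 0, 0, 0), (2, 0, 0, 0, 0), (2, 0, 0, 0, 0)]]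

def m38_11 : Base := (1, 1, [(0, [0], [0, 3]), (2, [0], [1, 2, 3])])

def l38_11 : Cov := [(12, 1, 1, [(0, [0], [0, 3]), (2, [0], [1, 2, 3])]),
  (12, 1, 1, [(0, [0], [1, 3]), (2, [0], [0, 2, 3])]),
  (12, 1, 1, [(0, [0], [2, 3]), (2, [0], [0, 1, 3])])]

def z38_11 : Cov := []

def w38_11 : List (List Wit) := [[(0, 0, 0, 0, 0), (0, 0, 0, 0, 0), (1, 0, 0, 0, 0), (1, 0, 0, 0, 0), (2, 0, 0, 0, 0), (2, 0, 0, 0, 0)]]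

theorem tr38 : trK keys lk38 kl38 = true := by
  decide +kernel

theorem x38_0 : expB 0 3 dg10 dg1 m38_0 (l38_0 ++ z38_0) w38_0 = true := by
  decide +kernel

theorem x38_1 : expB 0 3 dg10 dg1 m38_1 (l38_1 ++ z38_1) w38_1 = true := by
  decide +kernel

theorem x38_2 : expB 0 3 dg10 dg1 m38_2 (l38_2 ++ z38_2) w38_2 = true := by
  decide +kernel

theorem x38_3 : expB 0 3 dg10 dg1 m38_3 (l38_3 ++ z38_3) w38_3 = true := by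
  decide +kernel

theorem x38_4 : expB 0 3 dg10 dg1 m38_4 (l38_4 ++ z38_4) w38_4 = true := by
  decide +kernel

theorem x38_5 : expB 0 3 dg10 dg1 m38_5 (l38_5 ++ z38_5) w38_5 = true := by
  decide +kernel

theorem x38_6 : expB 0 3 dg10 dg1 m38_6 (l38_6 ++ z38_6) w38_6 = true := by
  decide +kernel

theorem x38_7 : expB 0 3 dg10 dg1 m38_7 (l38_7 ++ z38_7) w38_7 = true := by
  decide +kernel

theorem x38_8 : expB 0 3 dg10 dg1 m38_8 (l38_8 ++ z38_8) w38_8 = true := by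
  decide +kernel

theorem x38_9 : expB 0 3 dg10 dg1 m38_9 (l38_9 ++ z38_9) w38_9 = true := by
  decide +kernel

theorem x38_10 : expB 0 3 dg10 dg1 m38_10 (l38_10 ++ z38_10) w38_10 = true := by
  decide +kernel

theorem x38_11 : expB 0 3 dg10 dg1 m38_11 (l38_11 ++ z38_11) w38_11 = true := by
  decide +kernel

theorem t38_0_0 : chkS lk38 0 3 [(1, m38_0)] l38_0
  [(65, 16, 16, 52495461, 16934211), (1, 16, 16, 52495956, 34628931), (1, 16, 16, 52495941, 33645891)]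
  [(1, 24), (65, 12)] = true := by
  decide +kernel

theorem t38_0_1 : chkS lk38 0 3 [(1, m38_0)] l38_1
  [(61, 16, 16, 52495461, 16934211), (62, 16, 16, 52495461, 16934211), (61, 16, 16, 52495446, 1205571), (62, 16, 16, 52495446, 1205571), (46, 16, 16, 69272421, 17179971), (46, 16, 16, 69272406, 1451331)]
  [(46, 12), (61, 12), (62, 12)] = true := by
  decide +kernel

theorem t38_0_2 : chkS lk38 0 3 [(1, m38_0)] l38_2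
  [(46, 16, 16, 52495956, 34628931), (46, 16, 16, 52495941, 33645891), (3, 16, 16, 52495461, 16934211)]
  [(3, 12), (46, 24)] = true := by
  decide +kernel

theorem t38_0_3 : chkS lk38 0 3 [(1, m38_0)] l38_3
  [(59, 16, 16, 52495461, 16934211), (4, 16, 16, 88146786, 23404611), (4, 16, 16, 88146726, 6627651)]
  [(4, 24), (59, 12)] = true := by
  decide +kernel

theorem t38_0_4 : chkS lk38 0 3 [(1, m38_0)] l38_4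
  [(4, 16, 16, 52495956, 34628931), (44, 16, 16, 52495716, 18900291), (44, 16, 16, 52495686, 2188611)]
  [(4, 12), (44, 24)] = true := by
  decide +kernel

theorem t38_0_5 : chkS lk38 0 3 [(1, m38_0)] l38_5
  [(60, 16, 16, 103875666, 101863491), (45, 16, 16, 38863716, 22029891), (45, 16, 16, 38863686, 5318211)]
  [(45, 24), (60, 12)] = true := by
  decide +kernel

theorem t38_0_6 : chkS lk38 0 3 [(1, m38_0)] l38_6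
  [(45, 16, 16, 70321746, 35016771), (44, 16, 16, 70321506, 19288131), (45, 16, 16, 70321701, 33968451), (44, 16, 16, 70321446, 2511171), (43, 16, 16, 87097956, 23089731), (43, 16, 16, 87097926, 6378051)]
  [(43, 12), (44, 12), (45, 12)] = true := by
  decide +kernel

theorem t38_0_7 : chkS lk38 0 3 [(1, m38_0)] l38_7
  [(63, 16, 16, 102827091, 101844291), (46, 16, 16, 102826836, 101721411), (46, 16, 16, 102826821, 100738371)]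
  [(46, 24), (63, 12)] = true := by
  decide +kernel

theorem t38_0_8 : chkS lk38 0 3 [(1, m38_0)] l38_8
  [(64, 16, 16, 2163795, 1180995), (18, 16, 16, 2163795, 1180995), (18, 16, 16, 2163765, 136515)]
  [(18, 24), (64, 12)] = true := by
  decide +kernel

theorem t38_0_9 : chkS lk38 0 3 [(1, m38_0)] l38_9
  [(45, 16, 16, 104923941, 100999491), (45, 16, 16, 104923986, 102047811), (4, 16, 16, 102826836, 101721411)]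
  [(4, 12), (45, 24)] = true := by
  decide +kernel

theorem t38_0_10 : chkS lk38 0 3 [(1, m38_0)] l38_10
  [(21, 16, 16, 3212610, 2183235), (21, 16, 16, 3212580, 2117955), (20, 16, 16, 3211860, 1069635)]
  [(20, 12), (21, 24)] = true := by
  decide +kernel

theorem t38_0_11 : chkS lk38 0 3 [(1, m38_0)] l38_11
  [(66, 16, 16, 3212370, 1200195), (66, 16, 16, 3212325, 151875), (5, 16, 16, 2163525, 75075)]
  [(5, 12), (66, 24)] = true := by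
  decide +kernel

theorem t38_1_1 : chkS lk38 0 3 [(1, m38_1)] l38_1
  [(72, 16, 16, 87164001, 23221251), (74, 16, 16, 87164481, 39932931), (127, 16, 16, 70260066, 19288116), (92, 16, 16, 87164481, 39932931), (92, 1, 1, 33894756, 20985381), (90, 16, 16, 87164001, 23221251)]
  [(72, 6), (74, 6), (90, 6), (92, 12), (127, 6)] = true := by
  decide +kernel

theorem t38_1_2 : chkS lk38 0 3 [(1, m38_1)] l38_2
  [(41, 1, 1, 17053266, 34877541), (92, 1, 1, 17053221, 33829221), (91, 1, 1, 17052261, 17052261)]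
  [(41, 12), (91, 12), (92, 12)] = true := by
  decide +kernel

theorem t38_1_3 : chkS lk38 0 3 [(1, m38_1)] l38_3
  [(67, 16, 16, 106038321, 106042371), (57, 16, 16, 88212321, 23405571), (10, 1, 1, 52773126, 4416801)]
  [(10, 12), (57, 12), (67, 12)] = true := by
  decide +kernel

theorem t38_1_4 : chkS lk38 0 3 [(1, m38_1)] l38_4
  [(71, 16, 16, 106038321, 106042371), (55, 16, 16, 88212321, 23405571), (124, 16, 16, 70260306, 35016756)]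
  [(55, 12), (71, 12), (124, 12)] = true := by
  decide +kernel

theorem t38_1_5 : chkS lk38 0 3 [(1, m38_1)] l38_5
  [(68, 16, 16, 103941201, 101864451), (70, 16, 16, 87164481, 39932931), (88, 16, 16, 56755281, 85091331)]
  [(68, 12), (70, 12), (88, 12)] = true := by
  decide +kernel

theorem t38_1_6 : chkS lk38 0 3 [(1, m38_1)] l38_6
  [(56, 16, 16, 70387281, 35017731), (55, 16, 16, 70387041, 19289091), (69, 16, 16, 56755281, 85091331), (124, 16, 16, 56628306, 85090356), (75, 16, 16, 55706721, 22176771), (123, 16, 16, 104862546, 102047796)]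
  [(55, 6), (56, 6), (69, 6), (75, 6), (123, 6), (124, 6)] = true := by
  decide +kernel

theorem t38_1_7 : chkS lk38 0 3 [(1, m38_1)] l38_7
  [(77, 16, 16, 103941201, 101864451), (41, 1, 1, 100938066, 101986341), (92, 1, 1, 100938021, 100938021)]
  [(41, 12), (77, 12), (92, 12)] = true := by
  decide +kernel

theorem t38_1_8 : chkS lk38 0 3 [(1, m38_1)] l38_8
  [(79, 16, 16, 3277905, 1201155), (42, 1, 1, 274770, 1323045), (94, 16, 16, 3277905, 1201155)]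
  [(42, 12), (79, 12), (94, 12)] = true := by
  decide +kernel

theorem t38_1_9 : chkS lk38 0 3 [(1, m38_1)] l38_9
  [(69, 16, 16, 70387281, 35017731), (56, 16, 16, 104989521, 102048771), (71, 16, 16, 72484401, 39195651)]
  [(56, 12), (69, 12), (71, 12)] = true := by
  decide +kernel

theorem t38_1_10 : chkS lk38 0 3 [(1, m38_1)] l38_10
  [(25, 1, 1, 1393440, 4399440), (25, 1, 1, 3490080, 4411680), (80, 16, 16, 5375025, 5379075)]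
  [(25, 24), (80, 12)] = true := by
  decide +kernel

theorem t38_1_11 : chkS lk38 0 3 [(1, m38_1)] l38_11
  [(84, 16, 16, 3277905, 1201155), (128, 16, 16, 4199730, 2428980), (125, 16, 16, 3150930, 1200180)]
  [(84, 12), (125, 12), (128, 12)] = true := by
  decide +kernel

theorem t38_2_2 : chkS lk38 0 3 [(1, m38_2)] l38_2
  [(16, 16, 16, 52696656, 34891056), (90, 16, 16, 70321746, 35016771), (90, 16, 16, 70321506, 19288131)]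
  [(16, 12), (90, 24)] = true := by
  decide +kernel

theorem t38_2_3 : chkS lk38 0 3 [(1, m38_2)] l38_3
  [(15, 1, 1, 52774416, 37971216), (15, 1, 1, 52773216, 21194016), (87, 16, 16, 70321746, 35016771)]
  [(15, 24), (87, 12)] = true := by
  decide +kernel

theorem t38_2_4 : chkS lk38 0 3 [(1, m38_2)] l38_4
  [(39, 16, 16, 88147506, 40177731), (39, 16, 16, 88146786, 23404611), (10, 1, 1, 17187621, 67314021)]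
  [(10, 12), (39, 24)] = true := by
  decide +kernel

theorem t38_2_5 : chkS lk38 0 3 [(1, m38_2)] l38_5
  [(40, 16, 16, 87098946, 39931971), (40, 16, 16, 87098466, 23220291), (89, 16, 16, 104924466, 103092291)]
  [(40, 24), (89, 12)] = true := by
  decide +kernel

theorem t38_2_6 : chkS lk38 0 3 [(1, m38_2)] l38_6
  [(38, 16, 16, 87098946, 39931971), (38, 16, 16, 87098466, 23220291), (39, 16, 16, 55641666, 38887491), (88, 16, 16, 88147506, 40177731), (39, 16, 16, 55641186, 22175811), (88, 16, 16, 88146786, 23404611)]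
  [(38, 12), (39, 12), (88, 12)] = true := by
  decide +kernel

theorem t38_2_7 : chkS lk38 0 3 [(1, m38_2)] l38_7
  [(41, 16, 16, 103875906, 102846531), (41, 16, 16, 103875666, 101863491), (93, 16, 16, 103875906, 102846531)]
  [(41, 24), (93, 12)] = true := by
  decide +kernel

theorem t38_2_8 : chkS lk38 0 3 [(1, m38_2)] l38_8
  [(42, 16, 16, 3212610, 2183235), (42, 16, 16, 3212370, 1200195), (95, 16, 16, 3212610, 2183235)]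
  [(42, 24), (95, 12)] = true := by
  decide +kernel

theorem t38_2_9 : chkS lk38 0 3 [(1, m38_2)] l38_9
  [(15, 1, 1, 102056736, 105062736), (40, 16, 16, 104923986, 102047811), (40, 16, 16, 104924466, 103092291)]
  [(15, 12), (40, 24)] = true := by
  decide +kernel

theorem t38_2_10 : chkS lk38 0 3 [(1, m38_2)] l38_10
  [(19, 1, 1, 1393440, 4399440), (29, 1, 1, 3490080, 4411680), (29, 1, 1, 3490320, 4411920)]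
  [(19, 12), (29, 24)] = true := by
  decide +kernel

theorem t38_2_11 : chkS lk38 0 3 [(1, m38_2)] l38_11
  [(14, 16, 16, 2298960, 1197360), (96, 16, 16, 4261170, 2428995), (96, 16, 16, 4260690, 1384515)]
  [(14, 12), (96, 24)] = true := by
  decide +kernel

theorem t38_3_3 : chkS lk38 0 3 [(1, m38_3)] l38_3
  [(97, 16, 16, 106112016, 106054416), (2, 16, 16, 70668816, 70668816), (2, 16, 16, 70668801, 70668801)]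
  [(2, 24), (97, 12)] = true := by
  decide +kernel

theorem t38_3_4 : chkS lk38 0 3 [(1, m38_3)] l38_4
  [(51, 1, 1, 52774416, 37971216), (99, 1, 1, 52842816, 70346016), (99, 1, 1, 52842756, 70280481)]
  [(51, 12), (99, 24)] = true := by
  decide +kernel

theorem t38_3_5 : chkS lk38 0 3 [(1, m38_3)] l38_5
  [(110, 1, 1, 33969201, 70391301), (11, 1, 1, 51794976, 70410576), (11, 1, 1, 51794946, 70410321)]
  [(11, 24), (110, 12)] = true := by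
  decide +kernel

theorem t38_3_6 : chkS lk38 0 3 [(1, m38_3)] l38_6
  [(17, 16, 16, 37045761, 37967361), (99, 1, 1, 35017536, 70329936), (17, 16, 16, 37045776, 37967376), (99, 1, 1, 35017476, 70264401), (115, 1, 1, 35016771, 70321746), (115, 1, 1, 35016756, 70260306)]
  [(17, 12), (99, 12), (115, 12)] = true := by
  decide +kernel

theorem t38_3_7 : chkS lk38 0 3 [(1, m38_3)] l38_7
  [(34, 1, 1, 101008161, 105062661), (15, 16, 16, 105063696, 103105296), (15, 16, 16, 105063681, 103105281)]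
  [(15, 24), (34, 12)] = true := by
  decide +kernel

theorem t38_3_8 : chkS lk38 0 3 [(1, m38_3)] l38_8
  [(35, 1, 1, 344865, 4399365), (19, 16, 16, 4400400, 2442000), (19, 16, 16, 4400385, 2441985)]
  [(19, 24), (35, 12)] = true := by
  decide +kernel

theorem t38_3_9 : chkS lk38 0 3 [(1, m38_3)] l38_9
  [(17, 16, 16, 103105296, 105063696), (17, 16, 16, 103105281, 105063681), (51, 1, 1, 103105296, 105063696)]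
  [(17, 24), (51, 12)] = true := by
  decide +kernel

theorem t38_3_10 : chkS lk38 0 3 [(1, m38_3)] l38_10
  [(23, 16, 16, 2442000, 4400400), (23, 16, 16, 3490320, 4411920), (52, 1, 1, 3490320, 4411920)]
  [(23, 24), (52, 12)] = true := by
  decide +kernel

theorem t38_3_11 : chkS lk38 0 3 [(1, m38_3)] l38_11
  [(132, 16, 16, 4400385, 2441985), (132, 16, 16, 4400400, 2442000), (8, 16, 16, 4261170, 2428995)]
  [(8, 12), (132, 24)] = true := by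
  decide +kernel

theorem t38_4_4 : chkS lk38 0 3 [(1, m38_4)] l38_4
  [(49, 16, 16, 88286736, 40190736), (118, 16, 16, 105972771, 106037571), (118, 16, 16, 105972786, 106041411)]
  [(49, 12), (118, 24)] = true := by
  decide +kernel

theorem t38_4_5 : chkS lk38 0 3 [(1, m38_4)] l38_5
  [(112, 1, 1, 33969201, 70391301), (101, 16, 16, 105063696, 103105296), (101, 16, 16, 105063681, 103105281)]
  [(101, 24), (112, 12)] = true := by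
  decide +kernel

theorem t38_4_6 : chkS lk38 0 3 [(1, m38_4)] l38_6
  [(47, 1, 1, 34948656, 37951056), (102, 1, 1, 51794496, 70345296), (47, 1, 1, 34948611, 37946961), (102, 1, 1, 51794436, 70279761), (117, 16, 16, 73467171, 86376771), (117, 16, 16, 73467186, 86380611)]
  [(47, 12), (102, 12), (117, 12)] = true := by
  decide +kernel

theorem t38_4_7 : chkS lk38 0 3 [(1, m38_4)] l38_7
  [(32, 1, 1, 50677281, 37970181), (69, 1, 1, 67523121, 70652421), (69, 1, 1, 67523091, 70648341)]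
  [(32, 12), (69, 24)] = true := by
  decide +kernel

theorem t38_4_8 : chkS lk38 0 3 [(1, m38_4)] l38_8
  [(36, 1, 1, 344865, 4399365), (25, 16, 16, 4400400, 2442000), (25, 16, 16, 4400385, 2441985)]
  [(25, 24), (36, 12)] = true := by
  decide +kernel

theorem t38_4_9 : chkS lk38 0 3 [(1, m38_4)] l38_9
  [(111, 1, 1, 69619731, 70649106), (111, 1, 1, 69619761, 70653186), (50, 16, 16, 105063696, 103105296)]
  [(50, 12), (111, 24)] = true := by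
  decide +kernel

theorem t38_4_10 : chkS lk38 0 3 [(1, m38_4)] l38_10
  [(24, 16, 16, 3490305, 4411905), (24, 16, 16, 3490320, 4411920), (53, 16, 16, 5448720, 5391120)]
  [(24, 24), (53, 12)] = true := by
  decide +kernel

theorem t38_4_11 : chkS lk38 0 3 [(1, m38_4)] l38_11
  [(120, 16, 16, 4261155, 2425155), (120, 16, 16, 4261170, 2428995), (9, 16, 16, 5309490, 5378115)]
  [(9, 12), (120, 24)] = true := by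
  decide +kernel

theorem t38_5_5 : chkS lk38 0 3 [(1, m38_5)] l38_5
  [(130, 16, 16, 105055521, 103104771), (119, 16, 16, 88090131, 40174356), (119, 16, 16, 88213041, 40178691)]
  [(119, 24), (130, 12)] = true := by
  decide +kernel

theorem t38_5_6 : chkS lk38 0 3 [(1, m38_5)] l38_6
  [(106, 1, 1, 51725856, 37970256), (101, 1, 1, 35013456, 68363856), (106, 1, 1, 51664386, 36986961), (101, 1, 1, 34890501, 50603601), (116, 1, 1, 35012691, 68355666), (116, 1, 1, 34889781, 50599506)]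
  [(101, 12), (106, 12), (116, 12)] = true := by
  decide +kernel

theorem t38_5_7 : chkS lk38 0 3 [(1, m38_5)] l38_7
  [(76, 1, 1, 101004321, 105001221), (40, 1, 1, 101003586, 104935461), (40, 1, 1, 100880676, 103825701)]
  [(40, 24), (76, 12)] = true := by
  decide +kernel

theorem t38_5_8 : chkS lk38 0 3 [(1, m38_5)] l38_8
  [(78, 1, 1, 341025, 4337925), (29, 16, 16, 4330800, 2430000), (29, 16, 16, 4269315, 2425665)]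
  [(29, 24), (78, 12)] = true := by
  decide +kernel

theorem t38_5_9 : chkS lk38 0 3 [(1, m38_5)] l38_9
  [(106, 1, 1, 104091906, 104091681), (106, 1, 1, 104153376, 105074976), (112, 16, 16, 72484401, 39195651)]
  [(106, 24), (112, 12)] = true := by
  decide +kernel

theorem t38_5_10 : chkS lk38 0 3 [(1, m38_5)] l38_10
  [(27, 16, 16, 5444640, 5390640), (27, 16, 16, 4396320, 2441520), (114, 16, 16, 5375025, 5379075)]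
  [(27, 24), (114, 12)] = true := by
  decide +kernel

theorem t38_5_11 : chkS lk38 0 3 [(1, m38_5)] l38_11
  [(131, 16, 16, 4326705, 2429955), (131, 16, 16, 4203795, 2425620), (135, 16, 16, 4326705, 2429955)]
  [(131, 24), (135, 12)] = true := by
  decide +kernel

theorem t38_6_6 : chkS lk38 0 3 [(1, m38_6)] l38_6
  [(103, 16, 16, 88282656, 40190256), (100, 16, 16, 88282656, 40190256), (105, 16, 16, 72554016, 39207216), (102, 1, 1, 34890501, 50603601), (102, 16, 16, 73536816, 86381616), (118, 16, 16, 73536816, 86381616)]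
  [(100, 6), (102, 12), (103, 6), (105, 6), (118, 6)] = true := by
  decide +kernel

theorem t38_6_7 : chkS lk38 0 3 [(1, m38_6)] l38_7
  [(58, 1, 1, 100939041, 103035141), (56, 1, 1, 101003841, 104935941), (71, 1, 1, 67330581, 50741781)]
  [(56, 12), (58, 12), (71, 12)] = true := by
  decide +kernel

theorem t38_6_8 : chkS lk38 0 3 [(1, m38_6)] l38_8
  [(30, 16, 16, 4273410, 2437185), (25, 16, 16, 4330800, 2430000), (80, 1, 1, 217620, 3162645)]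
  [(25, 12), (30, 12), (80, 12)] = true := by
  decide +kernel

theorem t38_6_9 : chkS lk38 0 3 [(1, m38_6)] l38_9
  [(107, 16, 16, 105059616, 103104816), (104, 16, 16, 106107936, 106053936), (48, 16, 16, 104994096, 103093296)]
  [(48, 12), (104, 12), (107, 12)] = true := by
  decide +kernel

theorem t38_6_10 : chkS lk38 0 3 [(1, m38_6)] l38_10
  [(108, 16, 16, 4396320, 2441520), (26, 16, 16, 5325570, 5447745), (24, 1, 1, 5387265, 5387265)]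
  [(24, 12), (26, 12), (108, 12)] = true := by
  decide +kernel

theorem t38_6_11 : chkS lk38 0 3 [(1, m38_6)] l38_11
  [(109, 16, 16, 4330800, 2430000), (121, 16, 16, 4330800, 2430000), (134, 16, 16, 5379120, 5379120)]
  [(109, 12), (121, 12), (134, 12)] = true := by
  decide +kernel

theorem t38_7_7 : chkS lk38 0 3 [(1, m38_7)] l38_7
  [(81, 16, 16, 104072481, 103043331), (74, 16, 16, 70649121, 69619971), (74, 16, 16, 70649106, 69619731)]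
  [(74, 24), (81, 12)] = true := by
  decide +kernel

theorem t38_7_8 : chkS lk38 0 3 [(1, m38_7)] l38_8
  [(82, 16, 16, 3409185, 2380035), (42, 16, 16, 3474450, 4345875), (42, 16, 16, 3474465, 4346115)]
  [(42, 24), (82, 12)] = true := by
  decide +kernel

theorem t38_7_9 : chkS lk38 0 3 [(1, m38_7)] l38_9
  [(73, 16, 16, 70649121, 69619971), (73, 16, 16, 106169121, 106176771), (33, 16, 16, 55968801, 72507651)]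
  [(33, 12), (73, 24)] = true := by
  decide +kernel

theorem t38_7_10 : chkS lk38 0 3 [(1, m38_7)] l38_10
  [(30, 1, 1, 3490050, 4411425), (30, 1, 1, 3490080, 4411680), (36, 16, 16, 5440545, 5390595)]
  [(30, 24), (36, 12)] = true := by
  decide +kernel

theorem t38_7_11 : chkS lk38 0 3 [(1, m38_7)] l38_11
  [(85, 16, 16, 3409185, 2380035), (85, 16, 16, 3409170, 2379795), (129, 16, 16, 4526880, 4530480)]
  [(85, 24), (129, 12)] = true := by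
  decide +kernel

theorem t38_8_8 : chkS lk38 0 3 [(1, m38_8)] l38_8
  [(83, 16, 16, 197665, 147715), (6, 16, 16, 136000, 74800), (6, 16, 16, 135940, 9265)]
  [(6, 24), (83, 12)] = true := by
  decide +kernel

theorem t38_8_9 : chkS lk38 0 3 [(1, m38_8)] l38_9
  [(30, 1, 1, 5325600, 5448000), (30, 1, 1, 5325570, 5447745), (36, 16, 16, 3409185, 2380035)]
  [(30, 24), (36, 12)] = true := by
  decide +kernel

theorem t38_8_10 : chkS lk38 0 3 [(1, m38_8)] l38_10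
  [(31, 1, 1, 82720, 205120), (31, 1, 1, 82690, 204865), (37, 16, 16, 262945, 270595)]
  [(31, 24), (37, 12)] = true := by
  decide +kernel

theorem t38_8_11 : chkS lk38 0 3 [(1, m38_8)] l38_11
  [(86, 16, 16, 197665, 147715), (86, 16, 16, 197650, 147475), (126, 16, 16, 201760, 147760)]
  [(86, 24), (126, 12)] = true := by
  decide +kernel

theorem t38_9_9 : chkS lk38 0 3 [(1, m38_9)] l38_9
  [(98, 16, 16, 106180866, 106180641), (113, 16, 16, 106176771, 106169121), (113, 16, 16, 106176531, 106169106)]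
  [(98, 12), (113, 24)] = true := by
  decide +kernel

theorem t38_9_10 : chkS lk38 0 3 [(1, m38_9)] l38_10
  [(54, 1, 1, 3490050, 4411425), (28, 16, 16, 4534290, 4534290), (28, 16, 16, 4534530, 4534305)]
  [(28, 24), (54, 12)] = true := by
  decide +kernel

theorem t38_9_11 : chkS lk38 0 3 [(1, m38_9)] l38_11
  [(13, 16, 16, 4526880, 4530480), (133, 16, 16, 4530195, 4522770), (133, 16, 16, 4530435, 4522785)]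
  [(13, 12), (133, 24)] = true := by
  decide +kernel

theorem t38_10_10 : chkS lk38 0 3 [(1, m38_10)] l38_10
  [(0, 16, 16, 136240, 136240), (7, 16, 16, 274450, 274450), (7, 16, 16, 274690, 274465)]
  [(0, 12), (7, 24)] = true := by
  decide +kernel

theorem t38_10_11 : chkS lk38 0 3 [(1, m38_10)] l38_11
  [(22, 16, 16, 267040, 270640), (122, 16, 16, 266800, 266800), (122, 16, 16, 267040, 270640)]
  [(22, 12), (122, 24)] = true := by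
  decide +kernel

theorem t38_11_11 : chkS lk38 0 3 [(1, m38_11)] l38_11
  [(12, 16, 16, 136000, 74800), (136, 16, 16, 267040, 270640), (136, 16, 16, 266800, 266800)]
  [(12, 12), (136, 24)] = true := by
  decide +kernel

section

variable {κ ι : Type*} [Fintype κ] [Fintype ι] [Inhabited κ] [Inhabited ι]

noncomputable def F38_0 (E : Env κ ι) : (Fin 0 → κ) → (Fin 3 → ι) → ℝ := op2 (P10 κ) (P1 ι) (fB E 0 3 m38_0)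

noncomputable def F38_1 (E : Env κ ι) : (Fin 0 → κ) → (Fin 3 → ι) → ℝ := op2 (P10 κ) (P1 ι) (fB E 0 3 m38_1)

noncomputable def F38_2 (E : Env κ ι) : (Fin 0 → κ) → (Fin 3 → ι) → ℝ := op2 (P10 κ) (P1 ι) (fB E 0 3 m38_2)

noncomputable def F38_3 (E : Env κ ι) : (Fin 0 → κ) → (Fin 3 → ι) → ℝ := op2 (P10 κ) (P1 ι) (fB E 0 3 m38_3)

noncomputable def F38_4 (E : Env κ ι) : (Fin 0 → κ) → (Fin 3 → ι) → ℝ := op2 (P10 κ) (P1 ι) (fB E 0 3 m38_4)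

noncomputable def F38_5 (E : Env κ ι) : (Fin 0 → κ) → (Fin 3 → ι) → ℝ := op2 (P10 κ) (P1 ι) (fB E 0 3 m38_5)

noncomputable def F38_6 (E : Env κ ι) : (Fin 0 → κ) → (Fin 3 → ι) → ℝ := op2 (P10 κ) (P1 ι) (fB E 0 3 m38_6)

noncomputable def F38_7 (E : Env κ ι) : (Fin 0 → κ) → (Fin 3 → ι) → ℝ := op2 (P10 κ) (P1 ι) (fB E 0 3 m38_7)

noncomputable def F38_8 (E : Env κ ι) : (Fin 0 → κ) → (Fin 3 → ι) → ℝ := op2 (P10 κ) (P1 ι) (fB E 0 3 m38_8)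

noncomputable def F38_9 (E : Env κ ι) : (Fin 0 → κ) → (Fin 3 → ι) → ℝ := op2 (P10 κ) (P1 ι) (fB E 0 3 m38_9)

noncomputable def F38_10 (E : Env κ ι) : (Fin 0 → κ) → (Fin 3 → ι) → ℝ := op2 (P10 κ) (P1 ι) (fB E 0 3 m38_10)

noncomputable def F38_11 (E : Env κ ι) : (Fin 0 → κ) → (Fin 3 → ι) → ℝ := op2 (P10 κ) (P1 ι) (fB E 0 3 m38_11)

def r38_0_0 : List (ℕ × ℤ) := [(1, 24), (65, 12)]

theorem h38_0_0 (E : Env κ ι) : ip (F38_0 E) (F38_0 E) = dotS (ek E lk38) r38_0_0 :=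
  op_entryZ E lk38 0 3 _ _ _ _ (pg10 κ) (pg1 ι) m38_0 m38_0 l38_0 z38_0 w38_0 x38_0 (by decide) _ (chkS_sound E lk38 0 3 _ _ _ _ t38_0_0)

def r38_0_1 : List (ℕ × ℤ) := [(46, 12), (61, 12), (62, 12)]

theorem h38_0_1 (E : Env κ ι) : ip (F38_0 E) (F38_1 E) = dotS (ek E lk38) r38_0_1 :=
  op_entryZ E lk38 0 3 _ _ _ _ (pg10 κ) (pg1 ι) m38_0 m38_1 l38_1 z38_1 w38_1 x38_1 (by decide) _ (chkS_sound E lk38 0 3 _ _ _ _ t38_0_1)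

def r38_0_2 : List (ℕ × ℤ) := [(3, 12), (46, 24)]

theorem h38_0_2 (E : Env κ ι) : ip (F38_0 E) (F38_2 E) = dotS (ek E lk38) r38_0_2 :=
  op_entryZ E lk38 0 3 _ _ _ _ (pg10 κ) (pg1 ι) m38_0 m38_2 l38_2 z38_2 w38_2 x38_2 (by decide) _ (chkS_sound E lk38 0 3 _ _ _ _ t38_0_2)

def r38_0_3 : List (ℕ × ℤ) := [(4, 24), (59, 12)]

theorem h38_0_3 (E : Env κ ι) : ip (F38_0 E) (F38_3 E) = dotS (ek E lk38) r38_0_3 :=
  op_entryZ E lk38 0 3 _ _ _ _ (pg10 κ) (pg1 ι) m38_0 m38_3 l38_3 z38_3 w38_3 x38_3 (by decide) _ (chkS_sound E lk38 0 3 _ _ _ _ t38_0_3)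

def r38_0_4 : List (ℕ × ℤ) := [(4, 12), (44, 24)]

theorem h38_0_4 (E : Env κ ι) : ip (F38_0 E) (F38_4 E) = dotS (ek E lk38) r38_0_4 :=
  op_entryZ E lk38 0 3 _ _ _ _ (pg10 κ) (pg1 ι) m38_0 m38_4 l38_4 z38_4 w38_4 x38_4 (by decide) _ (chkS_sound E lk38 0 3 _ _ _ _ t38_0_4)

def r38_0_5 : List (ℕ × ℤ) := [(45, 24), (60, 12)]

theorem h38_0_5 (E : Env κ ι) : ip (F38_0 E) (F38_5 E) = dotS (ek E lk38) r38_0_5 :=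
  op_entryZ E lk38 0 3 _ _ _ _ (pg10 κ) (pg1 ι) m38_0 m38_5 l38_5 z38_5 w38_5 x38_5 (by decide) _ (chkS_sound E lk38 0 3 _ _ _ _ t38_0_5)

def r38_0_6 : List (ℕ × ℤ) := [(43, 12), (44, 12), (45, 12)]

theorem h38_0_6 (E : Env κ ι) : ip (F38_0 E) (F38_6 E) = dotS (ek E lk38) r38_0_6 :=
  op_entryZ E lk38 0 3 _ _ _ _ (pg10 κ) (pg1 ι) m38_0 m38_6 l38_6 z38_6 w38_6 x38_6 (by decide) _ (chkS_sound E lk38 0 3 _ _ _ _ t38_0_6)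

def r38_0_7 : List (ℕ × ℤ) := [(46, 24), (63, 12)]

theorem h38_0_7 (E : Env κ ι) : ip (F38_0 E) (F38_7 E) = dotS (ek E lk38) r38_0_7 :=
  op_entryZ E lk38 0 3 _ _ _ _ (pg10 κ) (pg1 ι) m38_0 m38_7 l38_7 z38_7 w38_7 x38_7 (by decide) _ (chkS_sound E lk38 0 3 _ _ _ _ t38_0_7)

def r38_0_8 : List (ℕ × ℤ) := [(18, 24), (64, 12)]

theorem h38_0_8 (E : Env κ ι) : ip (F38_0 E) (F38_8 E) = dotS (ek E lk38) r38_0_8 :=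
  op_entryZ E lk38 0 3 _ _ _ _ (pg10 κ) (pg1 ι) m38_0 m38_8 l38_8 z38_8 w38_8 x38_8 (by decide) _ (chkS_sound E lk38 0 3 _ _ _ _ t38_0_8)

def r38_0_9 : List (ℕ × ℤ) := [(4, 12), (45, 24)]

theorem h38_0_9 (E : Env κ ι) : ip (F38_0 E) (F38_9 E) = dotS (ek E lk38) r38_0_9 :=
  op_entryZ E lk38 0 3 _ _ _ _ (pg10 κ) (pg1 ι) m38_0 m38_9 l38_9 z38_9 w38_9 x38_9 (by decide) _ (chkS_sound E lk38 0 3 _ _ _ _ t38_0_9)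

def r38_0_10 : List (ℕ × ℤ) := [(20, 12), (21, 24)]

theorem h38_0_10 (E : Env κ ι) : ip (F38_0 E) (F38_10 E) = dotS (ek E lk38) r38_0_10 :=
  op_entryZ E lk38 0 3 _ _ _ _ (pg10 κ) (pg1 ι) m38_0 m38_10 l38_10 z38_10 w38_10 x38_10 (by decide) _ (chkS_sound E lk38 0 3 _ _ _ _ t38_0_10)

def r38_0_11 : List (ℕ × ℤ) := [(5, 12), (66, 24)]

theorem h38_0_11 (E : Env κ ι) : ip (F38_0 E) (F38_11 E) = dotS (ek E lk38) r38_0_11 :=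
  op_entryZ E lk38 0 3 _ _ _ _ (pg10 κ) (pg1 ι) m38_0 m38_11 l38_11 z38_11 w38_11 x38_11 (by decide) _ (chkS_sound E lk38 0 3 _ _ _ _ t38_0_11)

def r38_1_1 : List (ℕ × ℤ) := [(72, 6), (74, 6), (90, 6), (92, 12), (127, 6)]

theorem h38_1_1 (E : Env κ ι) : ip (F38_1 E) (F38_1 E) = dotS (ek E lk38) r38_1_1 :=
  op_entryZ E lk38 0 3 _ _ _ _ (pg10 κ) (pg1 ι) m38_1 m38_1 l38_1 z38_1 w38_1 x38_1 (by decide) _ (chkS_sound E lk38 0 3 _ _ _ _ t38_1_1)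

def r38_1_2 : List (ℕ × ℤ) := [(41, 12), (91, 12), (92, 12)]

theorem h38_1_2 (E : Env κ ι) : ip (F38_1 E) (F38_2 E) = dotS (ek E lk38) r38_1_2 :=
  op_entryZ E lk38 0 3 _ _ _ _ (pg10 κ) (pg1 ι) m38_1 m38_2 l38_2 z38_2 w38_2 x38_2 (by decide) _ (chkS_sound E lk38 0 3 _ _ _ _ t38_1_2)

def r38_1_3 : List (ℕ × ℤ) := [(10, 12), (57, 12), (67, 12)]

theorem h38_1_3 (E : Env κ ι) : ip (F38_1 E) (F38_3 E) = dotS (ek E lk38) r38_1_3 :=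
  op_entryZ E lk38 0 3 _ _ _ _ (pg10 κ) (pg1 ι) m38_1 m38_3 l38_3 z38_3 w38_3 x38_3 (by decide) _ (chkS_sound E lk38 0 3 _ _ _ _ t38_1_3)

def r38_1_4 : List (ℕ × ℤ) := [(55, 12), (71, 12), (124, 12)]

theorem h38_1_4 (E : Env κ ι) : ip (F38_1 E) (F38_4 E) = dotS (ek E lk38) r38_1_4 :=
  op_entryZ E lk38 0 3 _ _ _ _ (pg10 κ) (pg1 ι) m38_1 m38_4 l38_4 z38_4 w38_4 x38_4 (by decide) _ (chkS_sound E lk38 0 3 _ _ _ _ t38_1_4)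

def r38_1_5 : List (ℕ × ℤ) := [(68, 12), (70, 12), (88, 12)]

theorem h38_1_5 (E : Env κ ι) : ip (F38_1 E) (F38_5 E) = dotS (ek E lk38) r38_1_5 :=
  op_entryZ E lk38 0 3 _ _ _ _ (pg10 κ) (pg1 ι) m38_1 m38_5 l38_5 z38_5 w38_5 x38_5 (by decide) _ (chkS_sound E lk38 0 3 _ _ _ _ t38_1_5)

def r38_1_6 : List (ℕ × ℤ) := [(55, 6), (56, 6), (69, 6), (75, 6), (123, 6), (124, 6)]

theorem h38_1_6 (E : Env κ ι) : ip (F38_1 E) (F38_6 E) = dotS (ek E lk38) r38_1_6 :=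
  op_entryZ E lk38 0 3 _ _ _ _ (pg10 κ) (pg1 ι) m38_1 m38_6 l38_6 z38_6 w38_6 x38_6 (by decide) _ (chkS_sound E lk38 0 3 _ _ _ _ t38_1_6)

def r38_1_7 : List (ℕ × ℤ) := [(41, 12), (77, 12), (92, 12)]

theorem h38_1_7 (E : Env κ ι) : ip (F38_1 E) (F38_7 E) = dotS (ek E lk38) r38_1_7 :=
  op_entryZ E lk38 0 3 _ _ _ _ (pg10 κ) (pg1 ι) m38_1 m38_7 l38_7 z38_7 w38_7 x38_7 (by decide) _ (chkS_sound E lk38 0 3 _ _ _ _ t38_1_7)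

def r38_1_8 : List (ℕ × ℤ) := [(42, 12), (79, 12), (94, 12)]

theorem h38_1_8 (E : Env κ ι) : ip (F38_1 E) (F38_8 E) = dotS (ek E lk38) r38_1_8 :=
  op_entryZ E lk38 0 3 _ _ _ _ (pg10 κ) (pg1 ι) m38_1 m38_8 l38_8 z38_8 w38_8 x38_8 (by decide) _ (chkS_sound E lk38 0 3 _ _ _ _ t38_1_8)

def r38_1_9 : List (ℕ × ℤ) := [(56, 12), (69, 12), (71, 12)]

theorem h38_1_9 (E : Env κ ι) : ip (F38_1 E) (F38_9 E) = dotS (ek E lk38) r38_1_9 :=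
  op_entryZ E lk38 0 3 _ _ _ _ (pg10 κ) (pg1 ι) m38_1 m38_9 l38_9 z38_9 w38_9 x38_9 (by decide) _ (chkS_sound E lk38 0 3 _ _ _ _ t38_1_9)

def r38_1_10 : List (ℕ × ℤ) := [(25, 24), (80, 12)]

theorem h38_1_10 (E : Env κ ι) : ip (F38_1 E) (F38_10 E) = dotS (ek E lk38) r38_1_10 :=
  op_entryZ E lk38 0 3 _ _ _ _ (pg10 κ) (pg1 ι) m38_1 m38_10 l38_10 z38_10 w38_10 x38_10 (by decide) _ (chkS_sound E lk38 0 3 _ _ _ _ t38_1_10)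

def r38_1_11 : List (ℕ × ℤ) := [(84, 12), (125, 12), (128, 12)]

theorem h38_1_11 (E : Env κ ι) : ip (F38_1 E) (F38_11 E) = dotS (ek E lk38) r38_1_11 :=
  op_entryZ E lk38 0 3 _ _ _ _ (pg10 κ) (pg1 ι) m38_1 m38_11 l38_11 z38_11 w38_11 x38_11 (by decide) _ (chkS_sound E lk38 0 3 _ _ _ _ t38_1_11)

def r38_2_2 : List (ℕ × ℤ) := [(16, 12), (90, 24)]

theorem h38_2_2 (E : Env κ ι) : ip (F38_2 E) (F38_2 E) = dotS (ek E lk38) r38_2_2 :=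
  op_entryZ E lk38 0 3 _ _ _ _ (pg10 κ) (pg1 ι) m38_2 m38_2 l38_2 z38_2 w38_2 x38_2 (by decide) _ (chkS_sound E lk38 0 3 _ _ _ _ t38_2_2)

def r38_2_3 : List (ℕ × ℤ) := [(15, 24), (87, 12)]

theorem h38_2_3 (E : Env κ ι) : ip (F38_2 E) (F38_3 E) = dotS (ek E lk38) r38_2_3 :=
  op_entryZ E lk38 0 3 _ _ _ _ (pg10 κ) (pg1 ι) m38_2 m38_3 l38_3 z38_3 w38_3 x38_3 (by decide) _ (chkS_sound E lk38 0 3 _ _ _ _ t38_2_3)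

def r38_2_4 : List (ℕ × ℤ) := [(10, 12), (39, 24)]

theorem h38_2_4 (E : Env κ ι) : ip (F38_2 E) (F38_4 E) = dotS (ek E lk38) r38_2_4 :=
  op_entryZ E lk38 0 3 _ _ _ _ (pg10 κ) (pg1 ι) m38_2 m38_4 l38_4 z38_4 w38_4 x38_4 (by decide) _ (chkS_sound E lk38 0 3 _ _ _ _ t38_2_4)

def r38_2_5 : List (ℕ × ℤ) := [(40, 24), (89, 12)]

theorem h38_2_5 (E : Env κ ι) : ip (F38_2 E) (F38_5 E) = dotS (ek E lk38) r38_2_5 :=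
  op_entryZ E lk38 0 3 _ _ _ _ (pg10 κ) (pg1 ι) m38_2 m38_5 l38_5 z38_5 w38_5 x38_5 (by decide) _ (chkS_sound E lk38 0 3 _ _ _ _ t38_2_5)

def r38_2_6 : List (ℕ × ℤ) := [(38, 12), (39, 12), (88, 12)]

theorem h38_2_6 (E : Env κ ι) : ip (F38_2 E) (F38_6 E) = dotS (ek E lk38) r38_2_6 :=
  op_entryZ E lk38 0 3 _ _ _ _ (pg10 κ) (pg1 ι) m38_2 m38_6 l38_6 z38_6 w38_6 x38_6 (by decide) _ (chkS_sound E lk38 0 3 _ _ _ _ t38_2_6)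

def r38_2_7 : List (ℕ × ℤ) := [(41, 24), (93, 12)]

theorem h38_2_7 (E : Env κ ι) : ip (F38_2 E) (F38_7 E) = dotS (ek E lk38) r38_2_7 :=
  op_entryZ E lk38 0 3 _ _ _ _ (pg10 κ) (pg1 ι) m38_2 m38_7 l38_7 z38_7 w38_7 x38_7 (by decide) _ (chkS_sound E lk38 0 3 _ _ _ _ t38_2_7)

def r38_2_8 : List (ℕ × ℤ) := [(42, 24), (95, 12)]

theorem h38_2_8 (E : Env κ ι) : ip (F38_2 E) (F38_8 E) = dotS (ek E lk38) r38_2_8 :=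
  op_entryZ E lk38 0 3 _ _ _ _ (pg10 κ) (pg1 ι) m38_2 m38_8 l38_8 z38_8 w38_8 x38_8 (by decide) _ (chkS_sound E lk38 0 3 _ _ _ _ t38_2_8)

def r38_2_9 : List (ℕ × ℤ) := [(15, 12), (40, 24)]

theorem h38_2_9 (E : Env κ ι) : ip (F38_2 E) (F38_9 E) = dotS (ek E lk38) r38_2_9 :=
  op_entryZ E lk38 0 3 _ _ _ _ (pg10 κ) (pg1 ι) m38_2 m38_9 l38_9 z38_9 w38_9 x38_9 (by decide) _ (chkS_sound E lk38 0 3 _ _ _ _ t38_2_9)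

def r38_2_10 : List (ℕ × ℤ) := [(19, 12), (29, 24)]

theorem h38_2_10 (E : Env κ ι) : ip (F38_2 E) (F38_10 E) = dotS (ek E lk38) r38_2_10 :=
  op_entryZ E lk38 0 3 _ _ _ _ (pg10 κ) (pg1 ι) m38_2 m38_10 l38_10 z38_10 w38_10 x38_10 (by decide) _ (chkS_sound E lk38 0 3 _ _ _ _ t38_2_10)

def r38_2_11 : List (ℕ × ℤ) := [(14, 12), (96, 24)]

theorem h38_2_11 (E : Env κ ι) : ip (F38_2 E) (F38_11 E) = dotS (ek E lk38) r38_2_11 :=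
  op_entryZ E lk38 0 3 _ _ _ _ (pg10 κ) (pg1 ι) m38_2 m38_11 l38_11 z38_11 w38_11 x38_11 (by decide) _ (chkS_sound E lk38 0 3 _ _ _ _ t38_2_11)

def r38_3_3 : List (ℕ × ℤ) := [(2, 24), (97, 12)]

theorem h38_3_3 (E : Env κ ι) : ip (F38_3 E) (F38_3 E) = dotS (ek E lk38) r38_3_3 :=
  op_entryZ E lk38 0 3 _ _ _ _ (pg10 κ) (pg1 ι) m38_3 m38_3 l38_3 z38_3 w38_3 x38_3 (by decide) _ (chkS_sound E lk38 0 3 _ _ _ _ t38_3_3)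

def r38_3_4 : List (ℕ × ℤ) := [(51, 12), (99, 24)]

theorem h38_3_4 (E : Env κ ι) : ip (F38_3 E) (F38_4 E) = dotS (ek E lk38) r38_3_4 :=
  op_entryZ E lk38 0 3 _ _ _ _ (pg10 κ) (pg1 ι) m38_3 m38_4 l38_4 z38_4 w38_4 x38_4 (by decide) _ (chkS_sound E lk38 0 3 _ _ _ _ t38_3_4)

def r38_3_5 : List (ℕ × ℤ) := [(11, 24), (110, 12)]

theorem h38_3_5 (E : Env κ ι) : ip (F38_3 E) (F38_5 E) = dotS (ek E lk38) r38_3_5 :=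
  op_entryZ E lk38 0 3 _ _ _ _ (pg10 κ) (pg1 ι) m38_3 m38_5 l38_5 z38_5 w38_5 x38_5 (by decide) _ (chkS_sound E lk38 0 3 _ _ _ _ t38_3_5)

def r38_3_6 : List (ℕ × ℤ) := [(17, 12), (99, 12), (115, 12)]

theorem h38_3_6 (E : Env κ ι) : ip (F38_3 E) (F38_6 E) = dotS (ek E lk38) r38_3_6 :=
  op_entryZ E lk38 0 3 _ _ _ _ (pg10 κ) (pg1 ι) m38_3 m38_6 l38_6 z38_6 w38_6 x38_6 (by decide) _ (chkS_sound E lk38 0 3 _ _ _ _ t38_3_6)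

def r38_3_7 : List (ℕ × ℤ) := [(15, 24), (34, 12)]

theorem h38_3_7 (E : Env κ ι) : ip (F38_3 E) (F38_7 E) = dotS (ek E lk38) r38_3_7 :=
  op_entryZ E lk38 0 3 _ _ _ _ (pg10 κ) (pg1 ι) m38_3 m38_7 l38_7 z38_7 w38_7 x38_7 (by decide) _ (chkS_sound E lk38 0 3 _ _ _ _ t38_3_7)

def r38_3_8 : List (ℕ × ℤ) := [(19, 24), (35, 12)]

theorem h38_3_8 (E : Env κ ι) : ip (F38_3 E) (F38_8 E) = dotS (ek E lk38) r38_3_8 :=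
  op_entryZ E lk38 0 3 _ _ _ _ (pg10 κ) (pg1 ι) m38_3 m38_8 l38_8 z38_8 w38_8 x38_8 (by decide) _ (chkS_sound E lk38 0 3 _ _ _ _ t38_3_8)

def r38_3_9 : List (ℕ × ℤ) := [(17, 24), (51, 12)]

theorem h38_3_9 (E : Env κ ι) : ip (F38_3 E) (F38_9 E) = dotS (ek E lk38) r38_3_9 :=
  op_entryZ E lk38 0 3 _ _ _ _ (pg10 κ) (pg1 ι) m38_3 m38_9 l38_9 z38_9 w38_9 x38_9 (by decide) _ (chkS_sound E lk38 0 3 _ _ _ _ t38_3_9)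

def r38_3_10 : List (ℕ × ℤ) := [(23, 24), (52, 12)]

theorem h38_3_10 (E : Env κ ι) : ip (F38_3 E) (F38_10 E) = dotS (ek E lk38) r38_3_10 :=
  op_entryZ E lk38 0 3 _ _ _ _ (pg10 κ) (pg1 ι) m38_3 m38_10 l38_10 z38_10 w38_10 x38_10 (by decide) _ (chkS_sound E lk38 0 3 _ _ _ _ t38_3_10)

def r38_3_11 : List (ℕ × ℤ) := [(8, 12), (132, 24)]

theorem h38_3_11 (E : Env κ ι) : ip (F38_3 E) (F38_11 E) = dotS (ek E lk38) r38_3_11 :=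
  op_entryZ E lk38 0 3 _ _ _ _ (pg10 κ) (pg1 ι) m38_3 m38_11 l38_11 z38_11 w38_11 x38_11 (by decide) _ (chkS_sound E lk38 0 3 _ _ _ _ t38_3_11)

def r38_4_4 : List (ℕ × ℤ) := [(49, 12), (118, 24)]

theorem h38_4_4 (E : Env κ ι) : ip (F38_4 E) (F38_4 E) = dotS (ek E lk38) r38_4_4 :=
  op_entryZ E lk38 0 3 _ _ _ _ (pg10 κ) (pg1 ι) m38_4 m38_4 l38_4 z38_4 w38_4 x38_4 (by decide) _ (chkS_sound E lk38 0 3 _ _ _ _ t38_4_4)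

def r38_4_5 : List (ℕ × ℤ) := [(101, 24), (112, 12)]

theorem h38_4_5 (E : Env κ ι) : ip (F38_4 E) (F38_5 E) = dotS (ek E lk38) r38_4_5 :=
  op_entryZ E lk38 0 3 _ _ _ _ (pg10 κ) (pg1 ι) m38_4 m38_5 l38_5 z38_5 w38_5 x38_5 (by decide) _ (chkS_sound E lk38 0 3 _ _ _ _ t38_4_5)

def r38_4_6 : List (ℕ × ℤ) := [(47, 12), (102, 12), (117, 12)]

theorem h38_4_6 (E : Env κ ι) : ip (F38_4 E) (F38_6 E) = dotS (ek E lk38) r38_4_6 :=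
  op_entryZ E lk38 0 3 _ _ _ _ (pg10 κ) (pg1 ι) m38_4 m38_6 l38_6 z38_6 w38_6 x38_6 (by decide) _ (chkS_sound E lk38 0 3 _ _ _ _ t38_4_6)

def r38_4_7 : List (ℕ × ℤ) := [(32, 12), (69, 24)]

theorem h38_4_7 (E : Env κ ι) : ip (F38_4 E) (F38_7 E) = dotS (ek E lk38) r38_4_7 :=
  op_entryZ E lk38 0 3 _ _ _ _ (pg10 κ) (pg1 ι) m38_4 m38_7 l38_7 z38_7 w38_7 x38_7 (by decide) _ (chkS_sound E lk38 0 3 _ _ _ _ t38_4_7)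

def r38_4_8 : List (ℕ × ℤ) := [(25, 24), (36, 12)]

theorem h38_4_8 (E : Env κ ι) : ip (F38_4 E) (F38_8 E) = dotS (ek E lk38) r38_4_8 :=
  op_entryZ E lk38 0 3 _ _ _ _ (pg10 κ) (pg1 ι) m38_4 m38_8 l38_8 z38_8 w38_8 x38_8 (by decide) _ (chkS_sound E lk38 0 3 _ _ _ _ t38_4_8)

def r38_4_9 : List (ℕ × ℤ) := [(50, 12), (111, 24)]

theorem h38_4_9 (E : Env κ ι) : ip (F38_4 E) (F38_9 E) = dotS (ek E lk38) r38_4_9 :=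
  op_entryZ E lk38 0 3 _ _ _ _ (pg10 κ) (pg1 ι) m38_4 m38_9 l38_9 z38_9 w38_9 x38_9 (by decide) _ (chkS_sound E lk38 0 3 _ _ _ _ t38_4_9)

def r38_4_10 : List (ℕ × ℤ) := [(24, 24), (53, 12)]

theorem h38_4_10 (E : Env κ ι) : ip (F38_4 E) (F38_10 E) = dotS (ek E lk38) r38_4_10 :=
  op_entryZ E lk38 0 3 _ _ _ _ (pg10 κ) (pg1 ι) m38_4 m38_10 l38_10 z38_10 w38_10 x38_10 (by decide) _ (chkS_sound E lk38 0 3 _ _ _ _ t38_4_10)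

def r38_4_11 : List (ℕ × ℤ) := [(9, 12), (120, 24)]

theorem h38_4_11 (E : Env κ ι) : ip (F38_4 E) (F38_11 E) = dotS (ek E lk38) r38_4_11 :=
  op_entryZ E lk38 0 3 _ _ _ _ (pg10 κ) (pg1 ι) m38_4 m38_11 l38_11 z38_11 w38_11 x38_11 (by decide) _ (chkS_sound E lk38 0 3 _ _ _ _ t38_4_11)

def r38_5_5 : List (ℕ × ℤ) := [(119, 24), (130, 12)]

theorem h38_5_5 (E : Env κ ι) : ip (F38_5 E) (F38_5 E) = dotS (ek E lk38) r38_5_5 :=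
  op_entryZ E lk38 0 3 _ _ _ _ (pg10 κ) (pg1 ι) m38_5 m38_5 l38_5 z38_5 w38_5 x38_5 (by decide) _ (chkS_sound E lk38 0 3 _ _ _ _ t38_5_5)

def r38_5_6 : List (ℕ × ℤ) := [(101, 12), (106, 12), (116, 12)]

theorem h38_5_6 (E : Env κ ι) : ip (F38_5 E) (F38_6 E) = dotS (ek E lk38) r38_5_6 :=
  op_entryZ E lk38 0 3 _ _ _ _ (pg10 κ) (pg1 ι) m38_5 m38_6 l38_6 z38_6 w38_6 x38_6 (by decide) _ (chkS_sound E lk38 0 3 _ _ _ _ t38_5_6)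

def r38_5_7 : List (ℕ × ℤ) := [(40, 24), (76, 12)]

theorem h38_5_7 (E : Env κ ι) : ip (F38_5 E) (F38_7 E) = dotS (ek E lk38) r38_5_7 :=
  op_entryZ E lk38 0 3 _ _ _ _ (pg10 κ) (pg1 ι) m38_5 m38_7 l38_7 z38_7 w38_7 x38_7 (by decide) _ (chkS_sound E lk38 0 3 _ _ _ _ t38_5_7)

def r38_5_8 : List (ℕ × ℤ) := [(29, 24), (78, 12)]

theorem h38_5_8 (E : Env κ ι) : ip (F38_5 E) (F38_8 E) = dotS (ek E lk38) r38_5_8 :=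
  op_entryZ E lk38 0 3 _ _ _ _ (pg10 κ) (pg1 ι) m38_5 m38_8 l38_8 z38_8 w38_8 x38_8 (by decide) _ (chkS_sound E lk38 0 3 _ _ _ _ t38_5_8)

def r38_5_9 : List (ℕ × ℤ) := [(106, 24), (112, 12)]

theorem h38_5_9 (E : Env κ ι) : ip (F38_5 E) (F38_9 E) = dotS (ek E lk38) r38_5_9 :=
  op_entryZ E lk38 0 3 _ _ _ _ (pg10 κ) (pg1 ι) m38_5 m38_9 l38_9 z38_9 w38_9 x38_9 (by decide) _ (chkS_sound E lk38 0 3 _ _ _ _ t38_5_9)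

def r38_5_10 : List (ℕ × ℤ) := [(27, 24), (114, 12)]

theorem h38_5_10 (E : Env κ ι) : ip (F38_5 E) (F38_10 E) = dotS (ek E lk38) r38_5_10 :=
  op_entryZ E lk38 0 3 _ _ _ _ (pg10 κ) (pg1 ι) m38_5 m38_10 l38_10 z38_10 w38_10 x38_10 (by decide) _ (chkS_sound E lk38 0 3 _ _ _ _ t38_5_10)

def r38_5_11 : List (ℕ × ℤ) := [(131, 24), (135, 12)]

theorem h38_5_11 (E : Env κ ι) : ip (F38_5 E) (F38_11 E) = dotS (ek E lk38) r38_5_11 :=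
  op_entryZ E lk38 0 3 _ _ _ _ (pg10 κ) (pg1 ι) m38_5 m38_11 l38_11 z38_11 w38_11 x38_11 (by decide) _ (chkS_sound E lk38 0 3 _ _ _ _ t38_5_11)

def r38_6_6 : List (ℕ × ℤ) := [(100, 6), (102, 12), (103, 6), (105, 6), (118, 6)]

theorem h38_6_6 (E : Env κ ι) : ip (F38_6 E) (F38_6 E) = dotS (ek E lk38) r38_6_6 :=
  op_entryZ E lk38 0 3 _ _ _ _ (pg10 κ) (pg1 ι) m38_6 m38_6 l38_6 z38_6 w38_6 x38_6 (by decide) _ (chkS_sound E lk38 0 3 _ _ _ _ t38_6_6)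

def r38_6_7 : List (ℕ × ℤ) := [(56, 12), (58, 12), (71, 12)]

theorem h38_6_7 (E : Env κ ι) : ip (F38_6 E) (F38_7 E) = dotS (ek E lk38) r38_6_7 :=
  op_entryZ E lk38 0 3 _ _ _ _ (pg10 κ) (pg1 ι) m38_6 m38_7 l38_7 z38_7 w38_7 x38_7 (by decide) _ (chkS_sound E lk38 0 3 _ _ _ _ t38_6_7)

def r38_6_8 : List (ℕ × ℤ) := [(25, 12), (30, 12), (80, 12)]

theorem h38_6_8 (E : Env κ ι) : ip (F38_6 E) (F38_8 E) = dotS (ek E lk38) r38_6_8 :=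
  op_entryZ E lk38 0 3 _ _ _ _ (pg10 κ) (pg1 ι) m38_6 m38_8 l38_8 z38_8 w38_8 x38_8 (by decide) _ (chkS_sound E lk38 0 3 _ _ _ _ t38_6_8)

def r38_6_9 : List (ℕ × ℤ) := [(48, 12), (104, 12), (107, 12)]

theorem h38_6_9 (E : Env κ ι) : ip (F38_6 E) (F38_9 E) = dotS (ek E lk38) r38_6_9 :=
  op_entryZ E lk38 0 3 _ _ _ _ (pg10 κ) (pg1 ι) m38_6 m38_9 l38_9 z38_9 w38_9 x38_9 (by decide) _ (chkS_sound E lk38 0 3 _ _ _ _ t38_6_9)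

def r38_6_10 : List (ℕ × ℤ) := [(24, 12), (26, 12), (108, 12)]

theorem h38_6_10 (E : Env κ ι) : ip (F38_6 E) (F38_10 E) = dotS (ek E lk38) r38_6_10 :=
  op_entryZ E lk38 0 3 _ _ _ _ (pg10 κ) (pg1 ι) m38_6 m38_10 l38_10 z38_10 w38_10 x38_10 (by decide) _ (chkS_sound E lk38 0 3 _ _ _ _ t38_6_10)

def r38_6_11 : List (ℕ × ℤ) := [(109, 12), (121, 12), (134, 12)]

theorem h38_6_11 (E : Env κ ι) : ip (F38_6 E) (F38_11 E) = dotS (ek E lk38) r38_6_11 :=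
  op_entryZ E lk38 0 3 _ _ _ _ (pg10 κ) (pg1 ι) m38_6 m38_11 l38_11 z38_11 w38_11 x38_11 (by decide) _ (chkS_sound E lk38 0 3 _ _ _ _ t38_6_11)

def r38_7_7 : List (ℕ × ℤ) := [(74, 24), (81, 12)]

theorem h38_7_7 (E : Env κ ι) : ip (F38_7 E) (F38_7 E) = dotS (ek E lk38) r38_7_7 :=
  op_entryZ E lk38 0 3 _ _ _ _ (pg10 κ) (pg1 ι) m38_7 m38_7 l38_7 z38_7 w38_7 x38_7 (by decide) _ (chkS_sound E lk38 0 3 _ _ _ _ t38_7_7)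

def r38_7_8 : List (ℕ × ℤ) := [(42, 24), (82, 12)]

theorem h38_7_8 (E : Env κ ι) : ip (F38_7 E) (F38_8 E) = dotS (ek E lk38) r38_7_8 :=
  op_entryZ E lk38 0 3 _ _ _ _ (pg10 κ) (pg1 ι) m38_7 m38_8 l38_8 z38_8 w38_8 x38_8 (by decide) _ (chkS_sound E lk38 0 3 _ _ _ _ t38_7_8)

def r38_7_9 : List (ℕ × ℤ) := [(33, 12), (73, 24)]

theorem h38_7_9 (E : Env κ ι) : ip (F38_7 E) (F38_9 E) = dotS (ek E lk38) r38_7_9 :=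
  op_entryZ E lk38 0 3 _ _ _ _ (pg10 κ) (pg1 ι) m38_7 m38_9 l38_9 z38_9 w38_9 x38_9 (by decide) _ (chkS_sound E lk38 0 3 _ _ _ _ t38_7_9)

def r38_7_10 : List (ℕ × ℤ) := [(30, 24), (36, 12)]

theorem h38_7_10 (E : Env κ ι) : ip (F38_7 E) (F38_10 E) = dotS (ek E lk38) r38_7_10 :=
  op_entryZ E lk38 0 3 _ _ _ _ (pg10 κ) (pg1 ι) m38_7 m38_10 l38_10 z38_10 w38_10 x38_10 (by decide) _ (chkS_sound E lk38 0 3 _ _ _ _ t38_7_10)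

def r38_7_11 : List (ℕ × ℤ) := [(85, 24), (129, 12)]

theorem h38_7_11 (E : Env κ ι) : ip (F38_7 E) (F38_11 E) = dotS (ek E lk38) r38_7_11 :=
  op_entryZ E lk38 0 3 _ _ _ _ (pg10 κ) (pg1 ι) m38_7 m38_11 l38_11 z38_11 w38_11 x38_11 (by decide) _ (chkS_sound E lk38 0 3 _ _ _ _ t38_7_11)

def r38_8_8 : List (ℕ × ℤ) := [(6, 24), (83, 12)]

theorem h38_8_8 (E : Env κ ι) : ip (F38_8 E) (F38_8 E) = dotS (ek E lk38) r38_8_8 :=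
  op_entryZ E lk38 0 3 _ _ _ _ (pg10 κ) (pg1 ι) m38_8 m38_8 l38_8 z38_8 w38_8 x38_8 (by decide) _ (chkS_sound E lk38 0 3 _ _ _ _ t38_8_8)

def r38_8_9 : List (ℕ × ℤ) := [(30, 24), (36, 12)]

theorem h38_8_9 (E : Env κ ι) : ip (F38_8 E) (F38_9 E) = dotS (ek E lk38) r38_8_9 :=
  op_entryZ E lk38 0 3 _ _ _ _ (pg10 κ) (pg1 ι) m38_8 m38_9 l38_9 z38_9 w38_9 x38_9 (by decide) _ (chkS_sound E lk38 0 3 _ _ _ _ t38_8_9)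

def r38_8_10 : List (ℕ × ℤ) := [(31, 24), (37, 12)]

theorem h38_8_10 (E : Env κ ι) : ip (F38_8 E) (F38_10 E) = dotS (ek E lk38) r38_8_10 :=
  op_entryZ E lk38 0 3 _ _ _ _ (pg10 κ) (pg1 ι) m38_8 m38_10 l38_10 z38_10 w38_10 x38_10 (by decide) _ (chkS_sound E lk38 0 3 _ _ _ _ t38_8_10)

def r38_8_11 : List (ℕ × ℤ) := [(86, 24), (126, 12)]

theorem h38_8_11 (E : Env κ ι) : ip (F38_8 E) (F38_11 E) = dotS (ek E lk38) r38_8_11 :=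
  op_entryZ E lk38 0 3 _ _ _ _ (pg10 κ) (pg1 ι) m38_8 m38_11 l38_11 z38_11 w38_11 x38_11 (by decide) _ (chkS_sound E lk38 0 3 _ _ _ _ t38_8_11)

def r38_9_9 : List (ℕ × ℤ) := [(98, 12), (113, 24)]

theorem h38_9_9 (E : Env κ ι) : ip (F38_9 E) (F38_9 E) = dotS (ek E lk38) r38_9_9 :=
  op_entryZ E lk38 0 3 _ _ _ _ (pg10 κ) (pg1 ι) m38_9 m38_9 l38_9 z38_9 w38_9 x38_9 (by decide) _ (chkS_sound E lk38 0 3 _ _ _ _ t38_9_9)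

def r38_9_10 : List (ℕ × ℤ) := [(28, 24), (54, 12)]

theorem h38_9_10 (E : Env κ ι) : ip (F38_9 E) (F38_10 E) = dotS (ek E lk38) r38_9_10 :=
  op_entryZ E lk38 0 3 _ _ _ _ (pg10 κ) (pg1 ι) m38_9 m38_10 l38_10 z38_10 w38_10 x38_10 (by decide) _ (chkS_sound E lk38 0 3 _ _ _ _ t38_9_10)

def r38_9_11 : List (ℕ × ℤ) := [(13, 12), (133, 24)]

theorem h38_9_11 (E : Env κ ι) : ip (F38_9 E) (F38_11 E) = dotS (ek E lk38) r38_9_11 :=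
  op_entryZ E lk38 0 3 _ _ _ _ (pg10 κ) (pg1 ι) m38_9 m38_11 l38_11 z38_11 w38_11 x38_11 (by decide) _ (chkS_sound E lk38 0 3 _ _ _ _ t38_9_11)

def r38_10_10 : List (ℕ × ℤ) := [(0, 12), (7, 24)]

theorem h38_10_10 (E : Env κ ι) : ip (F38_10 E) (F38_10 E) = dotS (ek E lk38) r38_10_10 :=
  op_entryZ E lk38 0 3 _ _ _ _ (pg10 κ) (pg1 ι) m38_10 m38_10 l38_10 z38_10 w38_10 x38_10 (by decide) _ (chkS_sound E lk38 0 3 _ _ _ _ t38_10_10)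

def r38_10_11 : List (ℕ × ℤ) := [(22, 12), (122, 24)]

theorem h38_10_11 (E : Env κ ι) : ip (F38_10 E) (F38_11 E) = dotS (ek E lk38) r38_10_11 :=
  op_entryZ E lk38 0 3 _ _ _ _ (pg10 κ) (pg1 ι) m38_10 m38_11 l38_11 z38_11 w38_11 x38_11 (by decide) _ (chkS_sound E lk38 0 3 _ _ _ _ t38_10_11)

def r38_11_11 : List (ℕ × ℤ) := [(12, 12), (136, 24)]

theorem h38_11_11 (E : Env κ ι) : ip (F38_11 E) (F38_11 E) = dotS (ek E lk38) r38_11_11 :=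
  op_entryZ E lk38 0 3 _ _ _ _ (pg10 κ) (pg1 ι) m38_11 m38_11 l38_11 z38_11 w38_11 x38_11 (by decide) _ (chkS_sound E lk38 0 3 _ _ _ _ t38_11_11)

theorem row38_0 (E : Env κ ι) : RowG (ek E lk38) (F38_0 E) [F38_0 E, F38_1 E, F38_2 E, F38_3 E, F38_4 E, F38_5 E, F38_6 E, F38_7 E, F38_8 E, F38_9 E, F38_10 E, F38_11 E] [r38_0_0, r38_0_1, r38_0_2, r38_0_3, r38_0_4, r38_0_5, r38_0_6, r38_0_7, r38_0_8, r38_0_9, r38_0_10, r38_0_11] :=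
  rowG_cons _ _ _ _ _ _ (h38_0_0 E) (rowG_cons _ _ _ _ _ _ (h38_0_1 E) (rowG_cons _ _ _ _ _ _ (h38_0_2 E) (rowG_cons _ _ _ _ _ _ (h38_0_3 E) (rowG_cons _ _ _ _ _ _ (h38_0_4 E) (rowG_cons _ _ _ _ _ _ (h38_0_5 E) (rowG_cons _ _ _ _ _ _ (h38_0_6 E) (rowG_cons _ _ _ _ _ _ (h38_0_7 E) (rowG_cons _ _ _ _ _ _ (h38_0_8 E) (rowG_cons _ _ _ _ _ _ (h38_0_9 E) (rowG_cons _ _ _ _ _ _ (h38_0_10 E) (rowG_cons _ _ _ _ _ _ (h38_0_11 E) (rowG_nil _ _))))))))))))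

theorem row38_1 (E : Env κ ι) : RowG (ek E lk38) (F38_1 E) [F38_1 E, F38_2 E, F38_3 E, F38_4 E, F38_5 E, F38_6 E, F38_7 E, F38_8 E, F38_9 E, F38_10 E, F38_11 E] [r38_1_1, r38_1_2, r38_1_3, r38_1_4, r38_1_5, r38_1_6, r38_1_7, r38_1_8, r38_1_9, r38_1_10, r38_1_11] :=
  rowG_cons _ _ _ _ _ _ (h38_1_1 E) (rowG_cons _ _ _ _ _ _ (h38_1_2 E) (rowG_cons _ _ _ _ _ _ (h38_1_3 E) (rowG_cons _ _ _ _ _ _ (h38_1_4 E) (rowG_cons _ _ _ _ _ _ (h38_1_5 E) (rowG_cons _ _ _ _ _ _ (h38_1_6 E) (rowG_cons _ _ _ _ _ _ (h38_1_7 E) (rowG_cons _ _ _ _ _ _ (h38_1_8 E) (rowG_cons _ _ _ _ _ _ (h38_1_9 E) (rowG_cons _ _ _ _ _ _ (h38_1_10 E) (rowG_cons _ _ _ _ _ _ (h38_1_11 E) (rowG_nil _ _)))))))))))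

theorem row38_2 (E : Env κ ι) : RowG (ek E lk38) (F38_2 E) [F38_2 E, F38_3 E, F38_4 E, F38_5 E, F38_6 E, F38_7 E, F38_8 E, F38_9 E, F38_10 E, F38_11 E] [r38_2_2, r38_2_3, r38_2_4, r38_2_5, r38_2_6, r38_2_7, r38_2_8, r38_2_9, r38_2_10, r38_2_11] :=
  rowG_cons _ _ _ _ _ _ (h38_2_2 E) (rowG_cons _ _ _ _ _ _ (h38_2_3 E) (rowG_cons _ _ _ _ _ _ (h38_2_4 E) (rowG_cons _ _ _ _ _ _ (h38_2_5 E) (rowG_cons _ _ _ _ _ _ (h38_2_6 E) (rowG_cons _ _ _ _ _ _ (h38_2_7 E) (rowG_cons _ _ _ _ _ _ (h38_2_8 E) (rowG_cons _ _ _ _ _ _ (h38_2_9 E) (rowG_cons _ _ _ _ _ _ (h38_2_10 E) (rowG_cons _ _ _ _ _ _ (h38_2_11 E) (rowG_nil _ _))))))))))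

theorem row38_3 (E : Env κ ι) : RowG (ek E lk38) (F38_3 E) [F38_3 E, F38_4 E, F38_5 E, F38_6 E, F38_7 E, F38_8 E, F38_9 E, F38_10 E, F38_11 E] [r38_3_3, r38_3_4, r38_3_5, r38_3_6, r38_3_7, r38_3_8, r38_3_9, r38_3_10, r38_3_11] :=
  rowG_cons _ _ _ _ _ _ (h38_3_3 E) (rowG_cons _ _ _ _ _ _ (h38_3_4 E) (rowG_cons _ _ _ _ _ _ (h38_3_5 E) (rowG_cons _ _ _ _ _ _ (h38_3_6 E) (rowG_cons _ _ _ _ _ _ (h38_3_7 E) (rowG_cons _ _ _ _ _ _ (h38_3_8 E) (rowG_cons _ _ _ _ _ _ (h38_3_9 E) (rowG_cons _ _ _ _ _ _ (h38_3_10 E) (rowG_cons _ _ _ _ _ _ (h38_3_11 E) (rowG_nil _ _)))))))))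

theorem row38_4 (E : Env κ ι) : RowG (ek E lk38) (F38_4 E) [F38_4 E, F38_5 E, F38_6 E, F38_7 E, F38_8 E, F38_9 E, F38_10 E, F38_11 E] [r38_4_4, r38_4_5, r38_4_6, r38_4_7, r38_4_8, r38_4_9, r38_4_10, r38_4_11] :=
  rowG_cons _ _ _ _ _ _ (h38_4_4 E) (rowG_cons _ _ _ _ _ _ (h38_4_5 E) (rowG_cons _ _ _ _ _ _ (h38_4_6 E) (rowG_cons _ _ _ _ _ _ (h38_4_7 E) (rowG_cons _ _ _ _ _ _ (h38_4_8 E) (rowG_cons _ _ _ _ _ _ (h38_4_9 E) (rowG_cons _ _ _ _ _ _ (h38_4_10 E) (rowG_cons _ _ _ _ _ _ (h38_4_11 E) (rowG_nil _ _))))))))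

theorem row38_5 (E : Env κ ι) : RowG (ek E lk38) (F38_5 E) [F38_5 E, F38_6 E, F38_7 E, F38_8 E, F38_9 E, F38_10 E, F38_11 E] [r38_5_5, r38_5_6, r38_5_7, r38_5_8, r38_5_9, r38_5_10, r38_5_11] :=
  rowG_cons _ _ _ _ _ _ (h38_5_5 E) (rowG_cons _ _ _ _ _ _ (h38_5_6 E) (rowG_cons _ _ _ _ _ _ (h38_5_7 E) (rowG_cons _ _ _ _ _ _ (h38_5_8 E) (rowG_cons _ _ _ _ _ _ (h38_5_9 E) (rowG_cons _ _ _ _ _ _ (h38_5_10 E) (rowG_cons _ _ _ _ _ _ (h38_5_11 E) (rowG_nil _ _)))))))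

theorem row38_6 (E : Env κ ι) : RowG (ek E lk38) (F38_6 E) [F38_6 E, F38_7 E, F38_8 E, F38_9 E, F38_10 E, F38_11 E] [r38_6_6, r38_6_7, r38_6_8, r38_6_9, r38_6_10, r38_6_11] :=
  rowG_cons _ _ _ _ _ _ (h38_6_6 E) (rowG_cons _ _ _ _ _ _ (h38_6_7 E) (rowG_cons _ _ _ _ _ _ (h38_6_8 E) (rowG_cons _ _ _ _ _ _ (h38_6_9 E) (rowG_cons _ _ _ _ _ _ (h38_6_10 E) (rowG_cons _ _ _ _ _ _ (h38_6_11 E) (rowG_nil _ _))))))

theorem row38_7 (E : Env κ ι) : RowG (ek E lk38) (F38_7 E) [F38_7 E, F38_8 E, F38_9 E, F38_10 E, F38_11 E] [r38_7_7, r38_7_8, r38_7_9, r38_7_10, r38_7_11] :=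
  rowG_cons _ _ _ _ _ _ (h38_7_7 E) (rowG_cons _ _ _ _ _ _ (h38_7_8 E) (rowG_cons _ _ _ _ _ _ (h38_7_9 E) (rowG_cons _ _ _ _ _ _ (h38_7_10 E) (rowG_cons _ _ _ _ _ _ (h38_7_11 E) (rowG_nil _ _)))))

theorem row38_8 (E : Env κ ι) : RowG (ek E lk38) (F38_8 E) [F38_8 E, F38_9 E, F38_10 E, F38_11 E] [r38_8_8, r38_8_9, r38_8_10, r38_8_11] :=
  rowG_cons _ _ _ _ _ _ (h38_8_8 E) (rowG_cons _ _ _ _ _ _ (h38_8_9 E) (rowG_cons _ _ _ _ _ _ (h38_8_10 E) (rowG_cons _ _ _ _ _ _ (h38_8_11 E) (rowG_nil _ _))))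

theorem row38_9 (E : Env κ ι) : RowG (ek E lk38) (F38_9 E) [F38_9 E, F38_10 E, F38_11 E] [r38_9_9, r38_9_10, r38_9_11] :=
  rowG_cons _ _ _ _ _ _ (h38_9_9 E) (rowG_cons _ _ _ _ _ _ (h38_9_10 E) (rowG_cons _ _ _ _ _ _ (h38_9_11 E) (rowG_nil _ _)))

theorem row38_10 (E : Env κ ι) : RowG (ek E lk38) (F38_10 E) [F38_10 E, F38_11 E] [r38_10_10, r38_10_11] :=
  rowG_cons _ _ _ _ _ _ (h38_10_10 E) (rowG_cons _ _ _ _ _ _ (h38_10_11 E) (rowG_nil _ _))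

theorem row38_11 (E : Env κ ι) : RowG (ek E lk38) (F38_11 E) [F38_11 E] [r38_11_11] :=
  rowG_cons _ _ _ _ _ _ (h38_11_11 E) (rowG_nil _ _)

def tab38 : List (List (List (ℕ × ℤ))) := [[r38_0_0, r38_0_1, r38_0_2, r38_0_3, r38_0_4, r38_0_5, r38_0_6, r38_0_7, r38_0_8, r38_0_9, r38_0_10, r38_0_11], [r38_1_1, r38_1_2, r38_1_3, r38_1_4, r38_1_5, r38_1_6, r38_1_7, r38_1_8, r38_1_9, r38_1_10, r38_1_11], [r38_2_2, r38_2_3, r38_2_4, r38_2_5, r38_2_6, r38_2_7, r38_2_8, r38_2_9, r38_2_10, r38_2_11], [r38_3_3, r38_3_4, r38_3_5, r38_3_6, r38_3_7, r38_3_8, r38_3_9, r38_3_10, r38_3_11], [r38_4_4, r38_4_5, r38_4_6, r38_4_7, r38_4_8, r38_4_9, r38_4_10, r38_4_11], [r38_5_5, r38_5_6, r38_5_7, r38_5_8, r38_5_9, r38_5_10, r38_5_11], [r38_6_6, r38_6_7, r38_6_8, r38_6_9, r38_6_10, r38_6_11], [r38_7_7, r38_7_8, r38_7_9, r38_7_10, r38_7_11],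 [r38_8_8, r38_8_9, r38_8_10, r38_8_11], [r38_9_9, r38_9_10, r38_9_11], [r38_10_10, r38_10_11], [r38_11_11]]

theorem tri38 (E : Env κ ι) : TriG (ek E lk38) [F38_0 E, F38_1 E, F38_2 E, F38_3 E, F38_4 E, F38_5 E, F38_6 E, F38_7 E, F38_8 E, F38_9 E, F38_10 E, F38_11 E] tab38 := by
  refine triG_cons _ _ _ _ _ (row38_0 E) ?_
  refine triG_cons _ _ _ _ _ (row38_1 E) ?_
  refine triG_cons _ _ _ _ _ (row38_2 E) ?_
  refine triG_cons _ _ _ _ _ (row38_3 E) ?_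
  refine triG_cons _ _ _ _ _ (row38_4 E) ?_
  refine triG_cons _ _ _ _ _ (row38_5 E) ?_
  refine triG_cons _ _ _ _ _ (row38_6 E) ?_
  refine triG_cons _ _ _ _ _ (row38_7 E) ?_
  refine triG_cons _ _ _ _ _ (row38_8 E) ?_
  refine triG_cons _ _ _ _ _ (row38_9 E) ?_
  refine triG_cons _ _ _ _ _ (row38_10 E) ?_
  refine triG_cons _ _ _ _ _ (row38_11 E) ?_
  exact triG_nil _

end

end YMBG
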