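import Pool.Agent.YM.BG.Keys

set_option linter.unusedVariables false
set_option maxRecDepth 100000

open YMEng

namespace YMBG

def dg0 : List (ℤ × ℕ) := [(Int.ofNat 1, 0)]

def R0 : GA := [(Int.ofNat 1, 0, 0)]

def C0 : GA := [(Int.ofNat 1, 0, 0)]

def gs0 : List (ℤ × ℕ) := [(1, 0)]

def gp0 : List (List (ℤ × ℕ)) := [[(Int.ofNat 1, 0)]]

def tl0 : List (ℕ × ℕ) := [(0, 0)]

def e0 : List (ℤ × ℕ) := [(Int.ofNat 1, 0)]

def pl0 : List (ℤ × ℕ) := [(Int.ofNat 1, 0)]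

noncomputable def P0 (X : Type*) [Inhabited X] [Fintype X] : ((Fin 1 → X) → ℝ) → (Fin 1 → X) → ℝ :=
  fun f => gaF (b := 1) R0 (gaF C0 f)

theorem gr0 : grpB 1 R0 gs0 gp0 0 tl0 = true := by
  decide +kernel

theorem gy0 : yB 1 R0 C0 e0 pl0 dg0 = true := by
  decide +kernel

theorem pg0 (X : Type*) [Inhabited X] [Fintype X] : IsOp X (P0 X) dg0 :=
  isOp_young R0 C0 gs0 gp0 0 tl0 gr0 e0 pl0 dg0 gy0

def dg1 : List (ℤ × ℕ) := [(Int.ofNat 6, 528), (Int.ofNat 6, 288), (Int.ofNat 6, 513), (Int.ofNat 6, 33), (Int.ofNat 6, 258), (Int.ofNat 6, 18)]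

def R1 : GA := [(Int.ofNat 1, 528, 528), (Int.ofNat 1, 513, 513), (Int.ofNat 1, 288, 288), (Int.ofNat 1, 33, 258), (Int.ofNat 1, 258, 33), (Int.ofNat 1, 18, 18)]

def C1 : GA := [(Int.ofNat 1, 528, 528)]

def gs1 : List (ℤ × ℕ) := [(1, 528), (1, 513), (1, 288)]

def gp1 : List (List (ℤ × ℕ)) := [[(Int.ofNat 1, 528), (Int.ofNat 1, 513), (Int.ofNat 1, 288), (Int.ofNat 1, 33), (Int.ofNat 1, 258), (Int.ofNat 1, 18)],
  [(Int.ofNat 1, 513), (Int.ofNat 1, 528), (Int.ofNat 1, 33), (Int.ofNat 1, 288), (Int.ofNat 1, 18), (Int.ofNat 1, 258)],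
  [(Int.ofNat 1, 288), (Int.ofNat 1, 258), (Int.ofNat 1, 528), (Int.ofNat 1, 18), (Int.ofNat 1, 513), (Int.ofNat 1, 33)]]

def tl1 : List (ℕ × ℕ) := [(0, 0), (1, 0), (2, 1), (2, 1), (1, 1), (1, 1)]

def e1 : List (ℤ × ℕ) := [(Int.ofNat 1, 528), (Int.ofNat 1, 513), (Int.ofNat 1, 288), (Int.ofNat 1, 33), (Int.ofNat 1, 258), (Int.ofNat 1, 18)]

def pl1 : List (ℤ × ℕ) := [(Int.ofNat 6, 528), (Int.ofNat 6, 513), (Int.ofNat 6, 288), (Int.ofNat 6, 33), (Int.ofNat 6, 258), (Int.ofNat 6, 18)]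

noncomputable def P1 (X : Type*) [Inhabited X] [Fintype X] : ((Fin 3 → X) → ℝ) → (Fin 3 → X) → ℝ :=
  fun f => gaF (b := 3) R1 (gaF C1 f)

theorem gr1 : grpB 3 R1 gs1 gp1 528 tl1 = true := by
  decide +kernel

theorem gy1 : yB 3 R1 C1 e1 pl1 dg1 = true := by
  decide +kernel

theorem pg1 (X : Type*) [Inhabited X] [Fintype X] : IsOp X (P1 X) dg1 :=
  isOp_young R1 C1 gs1 gp1 528 tl1 gr1 e1 pl1 dg1 gy1

def dg2 : List (ℤ × ℕ) := [(Int.ofNat 4, 528), (Int.ofNat 2, 288), (Int.ofNat 2, 513), (Int.negSucc 1, 33), (Int.negSucc 1, 258), (Int.negSucc 3, 18)]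

def R2 : GA := [(Int.ofNat 1, 528, 528), (Int.ofNat 1, 513, 513)]

def C2 : GA := [(Int.ofNat 1, 528, 528), (Int.negSucc 0, 18, 18)]

def gs2 : List (ℤ × ℕ) := [(1, 528), (1, 513)]

def gp2 : List (List (ℤ × ℕ)) := [[(Int.ofNat 1, 528), (Int.ofNat 1, 513)],
  [(Int.ofNat 1, 513), (Int.ofNat 1, 528)]]

def tl2 : List (ℕ × ℕ) := [(0, 0), (1, 0)]

def e2 : List (ℤ × ℕ) := [(Int.ofNat 1, 528), (Int.negSucc 0, 18), (Int.ofNat 1, 513), (Int.negSucc 0, 258)]

def pl2 : List (ℤ × ℕ) := [(Int.ofNat 2, 528), (Int.negSucc 1, 18), (Int.ofNat 2, 513), (Int.negSucc 1, 258), (Int.negSucc 1, 18), (Int.ofNat 2, 528), (Int.negSucc 1, 33), (Int.ofNat 2, 288)]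

noncomputable def P2 (X : Type*) [Inhabited X] [Fintype X] : ((Fin 3 → X) → ℝ) → (Fin 3 → X) → ℝ :=
  fun f => gaF (b := 3) R2 (gaF C2 f)

theorem gr2 : grpB 3 R2 gs2 gp2 528 tl2 = true := by
  decide +kernel

theorem gy2 : yB 3 R2 C2 e2 pl2 dg2 = true := by
  decide +kernel

theorem pg2 (X : Type*) [Inhabited X] [Fintype X] : IsOp X (P2 X) dg2 :=
  isOp_young R2 C2 gs2 gp2 528 tl2 gr2 e2 pl2 dg2 gy2

def dg3 : List (ℤ × ℕ) := [(Int.ofNat 6, 528), (Int.negSucc 5, 288), (Int.negSucc 5, 513), (Int.ofNat 6, 33), (Int.ofNat 6, 258), (Int.negSucc 5, 18)]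

def R3 : GA := [(Int.ofNat 1, 528, 528)]

def C3 : GA := [(Int.ofNat 1, 528, 528), (Int.negSucc 0, 288, 288), (Int.negSucc 0, 513, 513), (Int.ofNat 1, 33, 258), (Int.ofNat 1, 258, 33), (Int.negSucc 0, 18, 18)]

def gs3 : List (ℤ × ℕ) := [(1, 528)]

def gp3 : List (List (ℤ × ℕ)) := [[(Int.ofNat 1, 528)]]

def tl3 : List (ℕ × ℕ) := [(0, 0)]

def e3 : List (ℤ × ℕ) := [(Int.ofNat 1, 528), (Int.negSucc 0, 288), (Int.negSucc 0, 513), (Int.ofNat 1, 33), (Int.ofNat 1, 258), (Int.negSucc 0, 18)]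

def pl3 : List (ℤ × ℕ) := [(Int.ofNat 1, 528), (Int.negSucc 0, 288), (Int.negSucc 0, 513), (Int.ofNat 1, 33), (Int.ofNat 1, 258), (Int.negSucc 0, 18), (Int.negSucc 0, 288), (Int.ofNat 1, 528), (Int.ofNat 1, 258), (Int.negSucc 0, 18), (Int.negSucc 0, 513), (Int.ofNat 1, 33), (Int.negSucc 0, 513), (Int.ofNat 1, 33), (Int.ofNat 1, 528), (Int.negSucc 0, 288), (Int.negSucc 0, 18), (Int.ofNat 1, 258), (Int.ofNat 1, 258), (Int.negSucc 0, 18), (Int.negSucc 0, 288), (Int.ofNat 1, 528), (Int.ofNat 1, 33), (Int.negSucc 0, 513), (Int.ofNat 1, 33), (Int.negSucc 0, 513), (Int.negSucc 0, 18), (Int.ofNat 1, 258), (Int.ofNat 1, 528), (Int.negSucc 0, 288), (Int.negSucc 0, 18), (Int.ofNat 1, 258), (Int.ofNat 1, 33), (Int.negSucc 0, 513), (Int.negSucc 0, 288), (Int.ofNat 1, 528)]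

noncomputable def P3 (X : Type*) [Inhabited X] [Fintype X] : ((Fin 3 → X) → ℝ) → (Fin 3 → X) → ℝ :=
  fun f => gaF (b := 3) R3 (gaF C3 f)

theorem gr3 : grpB 3 R3 gs3 gp3 528 tl3 = true := by
  decide +kernel

theorem gy3 : yB 3 R3 C3 e3 pl3 dg3 = true := by
  decide +kernel

theorem pg3 (X : Type*) [Inhabited X] [Fintype X] : IsOp X (P3 X) dg3 :=
  isOp_young R3 C3 gs3 gp3 528 tl3 gr3 e3 pl3 dg3 gy3

def dg4 : List (ℤ × ℕ) := [(Int.ofNat 120, 274960), (Int.ofNat 120, 213520), (Int.ofNat 120, 271120), (Int.ofNat 120, 148240), (Int.ofNat 120, 205840), (Int.ofNat 120, 144400), (Int.ofNat 120, 274720), (Int.ofNat 120, 213280), (Int.ofNat 120, 267040), (Int.ofNat 120, 82720), (Int.ofNat 120, 201760), (Int.ofNat 120, 78880), (Int.ofNat 120, 270640), (Int.ofNat 120, 147760), (Int.ofNat 120, 266800), (Int.ofNat 120, 82480), (Int.ofNat 120, 136240), (Int.ofNat 120, 74800), (Int.ofNat 120, 205120), (Int.ofNat 120, 143680), (Int.ofNat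 120, 201280), (Int.ofNat 120, 78400), (Int.ofNat 120, 136000), (Int.ofNat 120, 74560), (Int.ofNat 120, 274945), (Int.ofNat 120, 213505), (Int.ofNat 120, 271105), (Int.ofNat 120, 148225), (Int.ofNat 120, 205825), (Int.ofNat 120, 144385), (Int.ofNat 120, 274465), (Int.ofNat 120, 213025), (Int.ofNat 120, 262945), (Int.ofNat 120, 17185), (Int.ofNat 120, 197665), (Int.ofNat 120, 13345), (Int.ofNat 120, 270385), (Int.ofNat 120, 147505), (Int.ofNat 120, 262705), (Int.ofNat 120, 16945), (Int.ofNat 120, 132145), (Int.ofNat 120, 9265), (Int.ofNat 120, 204865), (Int.ofNat 120, 143425), (Int.ofNat 120, 197185), (Int.ofNat 120, 12865), (Int.ofNat 120, 131905), (Int.ofNat 120, 9025), (Int.ofNat 120, 274690), (Int.ofNat 120, 213250), (Int.ofNat 120, 267010), (Int.ofNat 120, 82690), (Int.ofNat 120, 201730), (Int.ofNat 120, 78850), (Int.ofNat 120, 274450), (Int.ofNat 120, 213010), (Int.ofNat 120, 262930), (Int.ofNat 120, 17170), (Int.ofNat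 120, 197650), (Int.ofNat 120, 13330), (Int.ofNat 120, 266290), (Int.ofNat 120, 81970), (Int.ofNat 120, 262450), (Int.ofNat 120, 16690), (Int.ofNat 120, 66610), (Int.ofNat 120, 5170), (Int.ofNat 120, 200770), (Int.ofNat 120, 77890), (Int.ofNat 120, 196930), (Int.ofNat 120, 12610), (Int.ofNat 120, 66370), (Int.ofNat 120, 4930), (Int.ofNat 120, 270595), (Int.ofNat 120, 147715), (Int.ofNat 120, 266755), (Int.ofNat 120, 82435), (Int.ofNat 120, 136195), (Int.ofNat 120, 74755), (Int.ofNat 120, 270355), (Int.ofNat 120, 147475), (Int.ofNat 120, 262675), (Int.ofNat 120, 16915), (Int.ofNat 120, 132115), (Int.ofNat 120, 9235), (Int.ofNat 120, 266275), (Int.ofNat 120, 81955), (Int.ofNat 120, 262435), (Int.ofNat 120, 16675), (Int.ofNat 120, 66595), (Int.ofNat 120, 5155), (Int.ofNat 120, 135235), (Int.ofNat 120, 73795), (Int.ofNat 120, 131395), (Int.ofNat 120, 8515), (Int.ofNat 120, 66115), (Int.ofNat 120, 4675), (Int.ofNat 120, 205060),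 (Int.ofNat 120, 143620), (Int.ofNat 120, 201220), (Int.ofNat 120, 78340), (Int.ofNat 120, 135940), (Int.ofNat 120, 74500), (Int.ofNat 120, 204820), (Int.ofNat 120, 143380), (Int.ofNat 120, 197140), (Int.ofNat 120, 12820), (Int.ofNat 120, 131860), (Int.ofNat 120, 8980), (Int.ofNat 120, 200740), (Int.ofNat 120, 77860), (Int.ofNat 120, 196900), (Int.ofNat 120, 12580), (Int.ofNat 120, 66340), (Int.ofNat 120, 4900), (Int.ofNat 120, 135220), (Int.ofNat 120, 73780), (Int.ofNat 120, 131380), (Int.ofNat 120, 8500), (Int.ofNat 120, 66100), (Int.ofNat 120, 4660)]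

def R4 : GA := [(Int.ofNat 1, 274960, 274960), (Int.ofNat 1, 274945, 274945), (Int.ofNat 1, 274720, 274720), (Int.ofNat 1, 271120, 271120), (Int.ofNat 1, 213520, 213520), (Int.ofNat 1, 274465, 274690), (Int.ofNat 1, 271105, 271105), (Int.ofNat 1, 213505, 213505), (Int.ofNat 1, 274690, 274465), (Int.ofNat 1, 267040, 270640), (Int.ofNat 1, 213280, 213280), (Int.ofNat 1, 270640, 267040), (Int.ofNat 1, 148240, 205840), (Int.ofNat 1, 205840, 148240), (Int.ofNat 1, 274450, 274450), (Int.ofNat 1, 262945, 270595), (Int.ofNat 1, 213025, 213250), (Int.ofNat 1, 270385, 267010), (Int.ofNat 1, 148225, 205825), (Int.ofNat 1, 205825, 148225), (Int.ofNat 1, 267010, 270385), (Int.ofNat 1, 213250, 213025), (Int.ofNat 1, 266800, 266800), (Int.ofNat 1, 82720, 205120), (Int.ofNat 1, 201760, 147760), (Int.ofNat 1, 270595, 262945), (Int.ofNat 1, 147760, 201760), (Int.ofNat 1, 144400, 144400), (Int.ofNat 1, 205120, 82720), (Int.ofNat 1, 262930,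 270355), (Int.ofNat 1, 213010, 213010), (Int.ofNat 1, 262705, 266755), (Int.ofNat 1, 17185, 205060), (Int.ofNat 1, 197665, 147715), (Int.ofNat 1, 270355, 262930), (Int.ofNat 1, 147505, 201730), (Int.ofNat 1, 144385, 144385), (Int.ofNat 1, 204865, 82690), (Int.ofNat 1, 266290, 266290), (Int.ofNat 1, 82690, 204865), (Int.ofNat 1, 201730, 147505), (Int.ofNat 1, 266755, 262705), (Int.ofNat 1, 82480, 201280), (Int.ofNat 1, 78880, 143680), (Int.ofNat 1, 201280, 82480), (Int.ofNat 1, 147715, 197665), (Int.ofNat 1, 136240, 136240), (Int.ofNat 1, 143680, 78880), (Int.ofNat 1, 205060, 17185), (Int.ofNat 1, 262450, 266275), (Int.ofNat 1, 17170, 204820), (Int.ofNat 1, 197650, 147475), (Int.ofNat 1, 262675, 262675), (Int.ofNat 1, 16945, 201220), (Int.ofNat 1, 13345, 143620), (Int.ofNat 1, 197185, 82435), (Int.ofNat 1, 147475, 197650), (Int.ofNat 1, 132145, 136195), (Int.ofNat 1, 143425, 78850), (Int.ofNat 1, 204820, 17170), (Int.ofNat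 1, 266275, 262450), (Int.ofNat 1, 81970, 200770), (Int.ofNat 1, 78850, 143425), (Int.ofNat 1, 200770, 81970), (Int.ofNat 1, 82435, 197185), (Int.ofNat 1, 74800, 136000), (Int.ofNat 1, 78400, 78400), (Int.ofNat 1, 201220, 16945), (Int.ofNat 1, 136195, 132145), (Int.ofNat 1, 136000, 74800), (Int.ofNat 1, 143620, 13345), (Int.ofNat 1, 262435, 262435), (Int.ofNat 1, 16690, 200740), (Int.ofNat 1, 13330, 143380), (Int.ofNat 1, 196930, 81955), (Int.ofNat 1, 16915, 197140), (Int.ofNat 1, 9265, 135940), (Int.ofNat 1, 12865, 78340), (Int.ofNat 1, 197140, 16915), (Int.ofNat 1, 132115, 132115), (Int.ofNat 1, 131905, 74755), (Int.ofNat 1, 143380, 13330), (Int.ofNat 1, 81955, 196930), (Int.ofNat 1, 66610, 135235), (Int.ofNat 1, 77890, 77890), (Int.ofNat 1, 200740, 16690), (Int.ofNat 1, 74755, 131905), (Int.ofNat 1, 74560, 74560), (Int.ofNat 1, 78340, 12865), (Int.ofNat 1, 135235, 66610), (Int.ofNat 1, 135940, 9265), (Int.ofNat 1, 16675,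 196900), (Int.ofNat 1, 5170, 135220), (Int.ofNat 1, 12610, 77860), (Int.ofNat 1, 196900, 16675), (Int.ofNat 1, 9235, 131860), (Int.ofNat 1, 9025, 74500), (Int.ofNat 1, 12820, 12820), (Int.ofNat 1, 131395, 66595), (Int.ofNat 1, 131860, 9235), (Int.ofNat 1, 66595, 131395), (Int.ofNat 1, 66370, 73795), (Int.ofNat 1, 77860, 12610), (Int.ofNat 1, 73795, 66370), (Int.ofNat 1, 74500, 9025), (Int.ofNat 1, 135220, 5170), (Int.ofNat 1, 5155, 131380), (Int.ofNat 1, 4930, 73780), (Int.ofNat 1, 12580, 12580), (Int.ofNat 1, 8515, 66340), (Int.ofNat 1, 8980, 8980), (Int.ofNat 1, 131380, 5155), (Int.ofNat 1, 66115, 66115), (Int.ofNat 1, 66340, 8515), (Int.ofNat 1, 73780, 4930), (Int.ofNat 1, 4675, 66100), (Int.ofNat 1, 4900, 8500), (Int.ofNat 1, 8500, 4900), (Int.ofNat 1, 66100, 4675), (Int.ofNat 1, 4660, 4660)]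

def C4 : GA := [(Int.ofNat 1, 274960, 274960)]

def gs4 : List (ℤ × ℕ) := [(1, 274960), (1, 274945), (1, 274720), (1, 271120), (1, 213520)]

def gp4 : List (List (ℤ × ℕ)) := [[(Int.ofNat 1, 274960), (Int.ofNat 1, 274945), (Int.ofNat 1, 274720), (Int.ofNat 1, 271120), (Int.ofNat 1, 213520), (Int.ofNat 1, 274465), (Int.ofNat 1, 271105), (Int.ofNat 1, 213505), (Int.ofNat 1, 274690), (Int.ofNat 1, 267040), (Int.ofNat 1, 213280), (Int.ofNat 1, 270640), (Int.ofNat 1, 148240), (Int.ofNat 1, 205840), (Int.ofNat 1, 274450), (Int.ofNat 1, 262945), (Int.ofNat 1, 213025), (Int.ofNat 1, 270385), (Int.ofNat 1, 148225), (Int.ofNat 1, 205825), (Int.ofNat 1, 267010), (Int.ofNat 1, 213250), (Int.ofNat 1, 266800), (Int.ofNat 1, 82720), (Int.ofNat 1, 201760), (Int.ofNat 1, 270595), (Int.ofNat 1, 147760), (Int.ofNat 1, 144400), (Int.ofNat 1, 205120), (Int.ofNat 1, 262930), (Int.ofNat 1, 213010), (Int.ofNat 1, 262705), (Int.ofNat 1, 17185),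 (Int.ofNat 1, 197665), (Int.ofNat 1, 270355), (Int.ofNat 1, 147505), (Int.ofNat 1, 144385), (Int.ofNat 1, 204865), (Int.ofNat 1, 266290), (Int.ofNat 1, 82690), (Int.ofNat 1, 201730), (Int.ofNat 1, 266755), (Int.ofNat 1, 82480), (Int.ofNat 1, 78880), (Int.ofNat 1, 201280), (Int.ofNat 1, 147715), (Int.ofNat 1, 136240), (Int.ofNat 1, 143680), (Int.ofNat 1, 205060), (Int.ofNat 1, 262450), (Int.ofNat 1, 17170), (Int.ofNat 1, 197650), (Int.ofNat 1, 262675), (Int.ofNat 1, 16945), (Int.ofNat 1, 13345), (Int.ofNat 1, 197185), (Int.ofNat 1, 147475), (Int.ofNat 1, 132145), (Int.ofNat 1, 143425), (Int.ofNat 1, 204820), (Int.ofNat 1, 266275), (Int.ofNat 1, 81970), (Int.ofNat 1, 78850), (Int.ofNat 1, 200770), (Int.ofNat 1, 82435), (Int.ofNat 1, 74800), (Int.ofNat 1, 78400), (Int.ofNat 1, 201220), (Int.ofNat 1, 136195), (Int.ofNat 1, 136000), (Int.ofNat 1, 143620), (Int.ofNat 1, 262435), (Int.ofNat 1, 16690), (Int.ofNat 1, 13330), (Int.ofNat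 1, 196930), (Int.ofNat 1, 16915), (Int.ofNat 1, 9265), (Int.ofNat 1, 12865), (Int.ofNat 1, 197140), (Int.ofNat 1, 132115), (Int.ofNat 1, 131905), (Int.ofNat 1, 143380), (Int.ofNat 1, 81955), (Int.ofNat 1, 66610), (Int.ofNat 1, 77890), (Int.ofNat 1, 200740), (Int.ofNat 1, 74755), (Int.ofNat 1, 74560), (Int.ofNat 1, 78340), (Int.ofNat 1, 135235), (Int.ofNat 1, 135940), (Int.ofNat 1, 16675), (Int.ofNat 1, 5170), (Int.ofNat 1, 12610), (Int.ofNat 1, 196900), (Int.ofNat 1, 9235), (Int.ofNat 1, 9025), (Int.ofNat 1, 12820), (Int.ofNat 1, 131395), (Int.ofNat 1, 131860), (Int.ofNat 1, 66595), (Int.ofNat 1, 66370), (Int.ofNat 1, 77860), (Int.ofNat 1, 73795), (Int.ofNat 1, 74500), (Int.ofNat 1, 135220), (Int.ofNat 1, 5155), (Int.ofNat 1, 4930), (Int.ofNat 1, 12580), (Int.ofNat 1, 8515), (Int.ofNat 1, 8980), (Int.ofNat 1, 131380), (Int.ofNat 1, 66115), (Int.ofNat 1, 66340), (Int.ofNat 1, 73780), (Int.ofNat 1, 4675), (Int.ofNat 1, 4900),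 (Int.ofNat 1, 8500), (Int.ofNat 1, 66100), (Int.ofNat 1, 4660)],
  [(Int.ofNat 1, 274945), (Int.ofNat 1, 274960), (Int.ofNat 1, 274465), (Int.ofNat 1, 271105), (Int.ofNat 1, 213505), (Int.ofNat 1, 274720), (Int.ofNat 1, 271120), (Int.ofNat 1, 213520), (Int.ofNat 1, 274450), (Int.ofNat 1, 262945), (Int.ofNat 1, 213025), (Int.ofNat 1, 270385), (Int.ofNat 1, 148225), (Int.ofNat 1, 205825), (Int.ofNat 1, 274690), (Int.ofNat 1, 267040), (Int.ofNat 1, 213280), (Int.ofNat 1, 270640), (Int.ofNat 1, 148240), (Int.ofNat 1, 205840), (Int.ofNat 1, 262930), (Int.ofNat 1, 213010), (Int.ofNat 1, 262705), (Int.ofNat 1, 17185), (Int.ofNat 1, 197665), (Int.ofNat 1, 270355), (Int.ofNat 1, 147505), (Int.ofNat 1, 144385), (Int.ofNat 1, 204865), (Int.ofNat 1, 267010), (Int.ofNat 1, 213250), (Int.ofNat 1, 266800), (Int.ofNat 1, 82720), (Int.ofNat 1, 201760), (Int.ofNat 1, 270595), (Int.ofNat 1, 147760), (Int.ofNat 1, 144400), (Int.ofNat 1, 205120),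 (Int.ofNat 1, 262450), (Int.ofNat 1, 17170), (Int.ofNat 1, 197650), (Int.ofNat 1, 262675), (Int.ofNat 1, 16945), (Int.ofNat 1, 13345), (Int.ofNat 1, 197185), (Int.ofNat 1, 147475), (Int.ofNat 1, 132145), (Int.ofNat 1, 143425), (Int.ofNat 1, 204820), (Int.ofNat 1, 266290), (Int.ofNat 1, 82690), (Int.ofNat 1, 201730), (Int.ofNat 1, 266755), (Int.ofNat 1, 82480), (Int.ofNat 1, 78880), (Int.ofNat 1, 201280), (Int.ofNat 1, 147715), (Int.ofNat 1, 136240), (Int.ofNat 1, 143680), (Int.ofNat 1, 205060), (Int.ofNat 1, 262435), (Int.ofNat 1, 16690), (Int.ofNat 1, 13330), (Int.ofNat 1, 196930), (Int.ofNat 1, 16915), (Int.ofNat 1, 9265), (Int.ofNat 1, 12865), (Int.ofNat 1, 197140), (Int.ofNat 1, 132115), (Int.ofNat 1, 131905), (Int.ofNat 1, 143380), (Int.ofNat 1, 266275), (Int.ofNat 1, 81970), (Int.ofNat 1, 78850), (Int.ofNat 1, 200770), (Int.ofNat 1, 82435), (Int.ofNat 1, 74800), (Int.ofNat 1, 78400), (Int.ofNat 1, 201220), (Int.ofNat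 1, 136195), (Int.ofNat 1, 136000), (Int.ofNat 1, 143620), (Int.ofNat 1, 16675), (Int.ofNat 1, 5170), (Int.ofNat 1, 12610), (Int.ofNat 1, 196900), (Int.ofNat 1, 9235), (Int.ofNat 1, 9025), (Int.ofNat 1, 12820), (Int.ofNat 1, 131395), (Int.ofNat 1, 131860), (Int.ofNat 1, 81955), (Int.ofNat 1, 66610), (Int.ofNat 1, 77890), (Int.ofNat 1, 200740), (Int.ofNat 1, 74755), (Int.ofNat 1, 74560), (Int.ofNat 1, 78340), (Int.ofNat 1, 135235), (Int.ofNat 1, 135940), (Int.ofNat 1, 5155), (Int.ofNat 1, 4930), (Int.ofNat 1, 12580), (Int.ofNat 1, 8515), (Int.ofNat 1, 8980), (Int.ofNat 1, 131380), (Int.ofNat 1, 66595), (Int.ofNat 1, 66370), (Int.ofNat 1, 77860), (Int.ofNat 1, 73795), (Int.ofNat 1, 74500), (Int.ofNat 1, 135220), (Int.ofNat 1, 4675), (Int.ofNat 1, 4900), (Int.ofNat 1, 8500), (Int.ofNat 1, 66115), (Int.ofNat 1, 66340), (Int.ofNat 1, 73780), (Int.ofNat 1, 4660), (Int.ofNat 1, 66100)],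
  [(Int.ofNat 1, 274720), (Int.ofNat 1, 274690), (Int.ofNat 1, 274960), (Int.ofNat 1, 267040), (Int.ofNat 1, 213280), (Int.ofNat 1, 274450), (Int.ofNat 1, 267010), (Int.ofNat 1, 213250), (Int.ofNat 1, 274945), (Int.ofNat 1, 271120), (Int.ofNat 1, 213520), (Int.ofNat 1, 266800), (Int.ofNat 1, 82720), (Int.ofNat 1, 201760), (Int.ofNat 1, 274465), (Int.ofNat 1, 262930), (Int.ofNat 1, 213010), (Int.ofNat 1, 266290), (Int.ofNat 1, 82690), (Int.ofNat 1, 201730), (Int.ofNat 1, 271105), (Int.ofNat 1, 213505), (Int.ofNat 1, 270640), (Int.ofNat 1, 148240), (Int.ofNat 1, 205840), (Int.ofNat 1, 266755), (Int.ofNat 1, 82480), (Int.ofNat 1, 78880), (Int.ofNat 1, 201280), (Int.ofNat 1, 262945), (Int.ofNat 1, 213025), (Int.ofNat 1, 262450), (Int.ofNat 1, 17170), (Int.ofNat 1, 197650), (Int.ofNat 1, 266275), (Int.ofNat 1, 81970), (Int.ofNat 1, 78850), (Int.ofNat 1, 200770), (Int.ofNat 1, 270385), (Int.ofNat 1, 148225), (Int.ofNat 1, 205825),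 (Int.ofNat 1, 270595), (Int.ofNat 1, 147760), (Int.ofNat 1, 144400), (Int.ofNat 1, 205120), (Int.ofNat 1, 82435), (Int.ofNat 1, 74800), (Int.ofNat 1, 78400), (Int.ofNat 1, 201220), (Int.ofNat 1, 262705), (Int.ofNat 1, 17185), (Int.ofNat 1, 197665), (Int.ofNat 1, 262435), (Int.ofNat 1, 16690), (Int.ofNat 1, 13330), (Int.ofNat 1, 196930), (Int.ofNat 1, 81955), (Int.ofNat 1, 66610), (Int.ofNat 1, 77890), (Int.ofNat 1, 200740), (Int.ofNat 1, 270355), (Int.ofNat 1, 147505), (Int.ofNat 1, 144385), (Int.ofNat 1, 204865), (Int.ofNat 1, 147715), (Int.ofNat 1, 136240), (Int.ofNat 1, 143680), (Int.ofNat 1, 205060), (Int.ofNat 1, 74755), (Int.ofNat 1, 74560), (Int.ofNat 1, 78340), (Int.ofNat 1, 262675), (Int.ofNat 1, 16945), (Int.ofNat 1, 13345), (Int.ofNat 1, 197185), (Int.ofNat 1, 16675), (Int.ofNat 1, 5170), (Int.ofNat 1, 12610), (Int.ofNat 1, 196900), (Int.ofNat 1, 66595), (Int.ofNat 1, 66370), (Int.ofNat 1, 77860), (Int.ofNat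 1, 147475), (Int.ofNat 1, 132145), (Int.ofNat 1, 143425), (Int.ofNat 1, 204820), (Int.ofNat 1, 136195), (Int.ofNat 1, 136000), (Int.ofNat 1, 143620), (Int.ofNat 1, 73795), (Int.ofNat 1, 74500), (Int.ofNat 1, 16915), (Int.ofNat 1, 9265), (Int.ofNat 1, 12865), (Int.ofNat 1, 197140), (Int.ofNat 1, 5155), (Int.ofNat 1, 4930), (Int.ofNat 1, 12580), (Int.ofNat 1, 66115), (Int.ofNat 1, 66340), (Int.ofNat 1, 132115), (Int.ofNat 1, 131905), (Int.ofNat 1, 143380), (Int.ofNat 1, 135235), (Int.ofNat 1, 135940), (Int.ofNat 1, 73780), (Int.ofNat 1, 9235), (Int.ofNat 1, 9025), (Int.ofNat 1, 12820), (Int.ofNat 1, 4675), (Int.ofNat 1, 4900), (Int.ofNat 1, 66100), (Int.ofNat 1, 131395), (Int.ofNat 1, 131860), (Int.ofNat 1, 135220), (Int.ofNat 1, 8515), (Int.ofNat 1, 8980), (Int.ofNat 1, 4660), (Int.ofNat 1, 131380), (Int.ofNat 1, 8500)],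
  [(Int.ofNat 1, 271120), (Int.ofNat 1, 271105), (Int.ofNat 1, 270640), (Int.ofNat 1, 274960), (Int.ofNat 1, 148240), (Int.ofNat 1, 270385), (Int.ofNat 1, 274945), (Int.ofNat 1, 148225), (Int.ofNat 1, 270595), (Int.ofNat 1, 266800), (Int.ofNat 1, 147760), (Int.ofNat 1, 274720), (Int.ofNat 1, 213520), (Int.ofNat 1, 144400), (Int.ofNat 1, 270355), (Int.ofNat 1, 262705), (Int.ofNat 1, 147505), (Int.ofNat 1, 274465), (Int.ofNat 1, 213505), (Int.ofNat 1, 144385), (Int.ofNat 1, 266755), (Int.ofNat 1, 147715), (Int.ofNat 1, 267040), (Int.ofNat 1, 82480), (Int.ofNat 1, 136240), (Int.ofNat 1, 274690), (Int.ofNat 1, 213280), (Int.ofNat 1, 205840), (Int.ofNat 1, 143680), (Int.ofNat 1, 262675), (Int.ofNat 1, 147475), (Int.ofNat 1, 262945), (Int.ofNat 1, 16945), (Int.ofNat 1, 132145), (Int.ofNat 1, 274450), (Int.ofNat 1, 213025), (Int.ofNat 1, 205825), (Int.ofNat 1, 143425), (Int.ofNat 1, 266275), (Int.ofNat 1, 82435), (Int.ofNat 1,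 136195), (Int.ofNat 1, 267010), (Int.ofNat 1, 82720), (Int.ofNat 1, 74800), (Int.ofNat 1, 136000), (Int.ofNat 1, 213250), (Int.ofNat 1, 201760), (Int.ofNat 1, 205120), (Int.ofNat 1, 143620), (Int.ofNat 1, 262435), (Int.ofNat 1, 16915), (Int.ofNat 1, 132115), (Int.ofNat 1, 262930), (Int.ofNat 1, 17185), (Int.ofNat 1, 9265), (Int.ofNat 1, 131905), (Int.ofNat 1, 213010), (Int.ofNat 1, 197665), (Int.ofNat 1, 204865), (Int.ofNat 1, 143380), (Int.ofNat 1, 266290), (Int.ofNat 1, 81955), (Int.ofNat 1, 74755), (Int.ofNat 1, 135235), (Int.ofNat 1, 82690), (Int.ofNat 1, 78880), (Int.ofNat 1, 74560), (Int.ofNat 1, 135940), (Int.ofNat 1, 201730), (Int.ofNat 1, 201280), (Int.ofNat 1, 205060), (Int.ofNat 1, 262450), (Int.ofNat 1, 16675), (Int.ofNat 1, 9235), (Int.ofNat 1, 131395), (Int.ofNat 1, 17170), (Int.ofNat 1, 13345), (Int.ofNat 1, 9025), (Int.ofNat 1, 131860), (Int.ofNat 1, 197650), (Int.ofNat 1, 197185), (Int.ofNat 1, 204820),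 (Int.ofNat 1, 81970), (Int.ofNat 1, 66595), (Int.ofNat 1, 73795), (Int.ofNat 1, 135220), (Int.ofNat 1, 78850), (Int.ofNat 1, 78400), (Int.ofNat 1, 74500), (Int.ofNat 1, 200770), (Int.ofNat 1, 201220), (Int.ofNat 1, 16690), (Int.ofNat 1, 5155), (Int.ofNat 1, 8515), (Int.ofNat 1, 131380), (Int.ofNat 1, 13330), (Int.ofNat 1, 12865), (Int.ofNat 1, 8980), (Int.ofNat 1, 196930), (Int.ofNat 1, 197140), (Int.ofNat 1, 66610), (Int.ofNat 1, 66115), (Int.ofNat 1, 73780), (Int.ofNat 1, 77890), (Int.ofNat 1, 78340), (Int.ofNat 1, 200740), (Int.ofNat 1, 5170), (Int.ofNat 1, 4675), (Int.ofNat 1, 8500), (Int.ofNat 1, 12610), (Int.ofNat 1, 12820), (Int.ofNat 1, 196900), (Int.ofNat 1, 66370), (Int.ofNat 1, 66100), (Int.ofNat 1, 77860), (Int.ofNat 1, 4930), (Int.ofNat 1, 4660), (Int.ofNat 1, 12580), (Int.ofNat 1, 66340), (Int.ofNat 1, 4900)],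
  [(Int.ofNat 1, 213520), (Int.ofNat 1, 213505), (Int.ofNat 1, 213280), (Int.ofNat 1, 205840), (Int.ofNat 1, 274960), (Int.ofNat 1, 213025), (Int.ofNat 1, 205825), (Int.ofNat 1, 274945), (Int.ofNat 1, 213250), (Int.ofNat 1, 201760), (Int.ofNat 1, 274720), (Int.ofNat 1, 205120), (Int.ofNat 1, 144400), (Int.ofNat 1, 271120), (Int.ofNat 1, 213010), (Int.ofNat 1, 197665), (Int.ofNat 1, 274465), (Int.ofNat 1, 204865), (Int.ofNat 1, 144385), (Int.ofNat 1, 271105), (Int.ofNat 1, 201730), (Int.ofNat 1, 274690), (Int.ofNat 1, 201280), (Int.ofNat 1, 78880), (Int.ofNat 1, 267040), (Int.ofNat 1, 205060), (Int.ofNat 1, 143680), (Int.ofNat 1, 148240), (Int.ofNat 1, 270640), (Int.ofNat 1, 197650), (Int.ofNat 1, 274450), (Int.ofNat 1, 197185), (Int.ofNat 1, 13345), (Int.ofNat 1, 262945), (Int.ofNat 1, 204820), (Int.ofNat 1, 143425), (Int.ofNat 1, 148225), (Int.ofNat 1, 270385), (Int.ofNat 1, 200770), (Int.ofNat 1, 78850), (Int.ofNat 1,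 267010), (Int.ofNat 1, 201220), (Int.ofNat 1, 78400), (Int.ofNat 1, 82720), (Int.ofNat 1, 266800), (Int.ofNat 1, 143620), (Int.ofNat 1, 136000), (Int.ofNat 1, 147760), (Int.ofNat 1, 270595), (Int.ofNat 1, 196930), (Int.ofNat 1, 13330), (Int.ofNat 1, 262930), (Int.ofNat 1, 197140), (Int.ofNat 1, 12865), (Int.ofNat 1, 17185), (Int.ofNat 1, 262705), (Int.ofNat 1, 143380), (Int.ofNat 1, 131905), (Int.ofNat 1, 147505), (Int.ofNat 1, 270355), (Int.ofNat 1, 200740), (Int.ofNat 1, 77890), (Int.ofNat 1, 82690), (Int.ofNat 1, 266290), (Int.ofNat 1, 78340), (Int.ofNat 1, 74560), (Int.ofNat 1, 82480), (Int.ofNat 1, 266755), (Int.ofNat 1, 135940), (Int.ofNat 1, 136240), (Int.ofNat 1, 147715), (Int.ofNat 1, 196900), (Int.ofNat 1, 12610), (Int.ofNat 1, 17170), (Int.ofNat 1, 262450), (Int.ofNat 1, 12820), (Int.ofNat 1, 9025), (Int.ofNat 1, 16945), (Int.ofNat 1, 262675), (Int.ofNat 1, 131860), (Int.ofNat 1, 132145), (Int.ofNat 1, 147475),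 (Int.ofNat 1, 77860), (Int.ofNat 1, 66370), (Int.ofNat 1, 81970), (Int.ofNat 1, 266275), (Int.ofNat 1, 74500), (Int.ofNat 1, 74800), (Int.ofNat 1, 82435), (Int.ofNat 1, 135220), (Int.ofNat 1, 136195), (Int.ofNat 1, 12580), (Int.ofNat 1, 4930), (Int.ofNat 1, 16690), (Int.ofNat 1, 262435), (Int.ofNat 1, 8980), (Int.ofNat 1, 9265), (Int.ofNat 1, 16915), (Int.ofNat 1, 131380), (Int.ofNat 1, 132115), (Int.ofNat 1, 66340), (Int.ofNat 1, 66610), (Int.ofNat 1, 81955), (Int.ofNat 1, 73780), (Int.ofNat 1, 74755), (Int.ofNat 1, 135235), (Int.ofNat 1, 4900), (Int.ofNat 1, 5170), (Int.ofNat 1, 16675), (Int.ofNat 1, 8500), (Int.ofNat 1, 9235), (Int.ofNat 1, 131395), (Int.ofNat 1, 66100), (Int.ofNat 1, 66595), (Int.ofNat 1, 73795), (Int.ofNat 1, 4660), (Int.ofNat 1, 5155), (Int.ofNat 1, 8515), (Int.ofNat 1, 66115), (Int.ofNat 1, 4675)]]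

def tl4 : List (ℕ × ℕ) := [(0, 0), (1, 0), (2, 1), (3, 2), (4, 3), (2, 3), (3, 4), (4, 5), (1, 5), (3, 6), (4, 7), (2, 7), (4, 8), (3, 8), (1, 8), (3, 9), (4, 10), (2, 10), (4, 11), (3, 11), (3, 11), (4, 12), (2, 12), (4, 13), (3, 13), (1, 13), (4, 14), (3, 14), (2, 14), (3, 14), (4, 15), (2, 15), (4, 16), (3, 16), (1, 16), (4, 17), (3, 17), (2, 17), (2, 17), (4, 18), (3, 18), (1, 18), (4, 19), (3, 19), (2, 19), (4, 19), (3, 19), (2, 19), (1, 19), (2, 19), (4, 20), (3, 20), (1, 20), (4, 21), (3, 21), (2, 21), (4, 21), (3, 21), (2, 21), (1, 21), (1, 21), (4, 22), (3, 22), (2, 22), (4, 22), (3, 22), (2, 22), (1, 22), (3, 22), (2, 22), (1, 22), (1, 21), (4, 22), (3, 22), (2, 22), (4, 22), (3, 22), (2, 22), (1, 22), (3, 22), (2, 22), (1, 22), (4, 21), (3, 21), (2, 21), (1, 21), (3, 21), (2, 21), (1, 21), (2, 20), (1, 20), (4, 19), (3, 19), (2, 19), (1, 19), (3, 19), (2, 19), (1, 19), (2, 18), (1, 18), (3, 17), (2, 17), (1,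 17), (2, 16), (1, 16), (1, 15), (3, 14), (2, 14), (1, 14), (2, 13), (1, 13), (1, 12), (2, 11), (1, 11), (1, 10), (2, 8), (1, 8), (1, 7), (1, 5), (1, 3)]

def e4 : List (ℤ × ℕ) := [(Int.ofNat 1, 274960), (Int.ofNat 1, 274945), (Int.ofNat 1, 274720), (Int.ofNat 1, 271120), (Int.ofNat 1, 213520), (Int.ofNat 1, 274465), (Int.ofNat 1, 271105), (Int.ofNat 1, 213505), (Int.ofNat 1, 274690), (Int.ofNat 1, 267040), (Int.ofNat 1, 213280), (Int.ofNat 1, 270640), (Int.ofNat 1, 148240), (Int.ofNat 1, 205840), (Int.ofNat 1, 274450), (Int.ofNat 1, 262945), (Int.ofNat 1, 213025), (Int.ofNat 1, 270385), (Int.ofNat 1, 148225), (Int.ofNat 1, 205825), (Int.ofNat 1, 267010), (Int.ofNat 1, 213250), (Int.ofNat 1, 266800), (Int.ofNat 1, 82720), (Int.ofNat 1, 201760), (Int.ofNat 1, 270595), (Int.ofNat 1, 147760), (Int.ofNat 1, 144400), (Int.ofNat 1, 205120), (Int.ofNat 1, 262930), (Int.ofNat 1, 213010), (Int.ofNat 1, 262705), (Int.ofNat 1, 17185),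 (Int.ofNat 1, 197665), (Int.ofNat 1, 270355), (Int.ofNat 1, 147505), (Int.ofNat 1, 144385), (Int.ofNat 1, 204865), (Int.ofNat 1, 266290), (Int.ofNat 1, 82690), (Int.ofNat 1, 201730), (Int.ofNat 1, 266755), (Int.ofNat 1, 82480), (Int.ofNat 1, 78880), (Int.ofNat 1, 201280), (Int.ofNat 1, 147715), (Int.ofNat 1, 136240), (Int.ofNat 1, 143680), (Int.ofNat 1, 205060), (Int.ofNat 1, 262450), (Int.ofNat 1, 17170), (Int.ofNat 1, 197650), (Int.ofNat 1, 262675), (Int.ofNat 1, 16945), (Int.ofNat 1, 13345), (Int.ofNat 1, 197185), (Int.ofNat 1, 147475), (Int.ofNat 1, 132145), (Int.ofNat 1, 143425), (Int.ofNat 1, 204820), (Int.ofNat 1, 266275), (Int.ofNat 1, 81970), (Int.ofNat 1, 78850), (Int.ofNat 1, 200770), (Int.ofNat 1, 82435), (Int.ofNat 1, 74800), (Int.ofNat 1, 78400), (Int.ofNat 1, 201220), (Int.ofNat 1, 136195), (Int.ofNat 1, 136000), (Int.ofNat 1, 143620), (Int.ofNat 1, 262435), (Int.ofNat 1, 16690), (Int.ofNat 1, 13330), (Int.ofNat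 1, 196930), (Int.ofNat 1, 16915), (Int.ofNat 1, 9265), (Int.ofNat 1, 12865), (Int.ofNat 1, 197140), (Int.ofNat 1, 132115), (Int.ofNat 1, 131905), (Int.ofNat 1, 143380), (Int.ofNat 1, 81955), (Int.ofNat 1, 66610), (Int.ofNat 1, 77890), (Int.ofNat 1, 200740), (Int.ofNat 1, 74755), (Int.ofNat 1, 74560), (Int.ofNat 1, 78340), (Int.ofNat 1, 135235), (Int.ofNat 1, 135940), (Int.ofNat 1, 16675), (Int.ofNat 1, 5170), (Int.ofNat 1, 12610), (Int.ofNat 1, 196900), (Int.ofNat 1, 9235), (Int.ofNat 1, 9025), (Int.ofNat 1, 12820), (Int.ofNat 1, 131395), (Int.ofNat 1, 131860), (Int.ofNat 1, 66595), (Int.ofNat 1, 66370), (Int.ofNat 1, 77860), (Int.ofNat 1, 73795), (Int.ofNat 1, 74500), (Int.ofNat 1, 135220), (Int.ofNat 1, 5155), (Int.ofNat 1, 4930), (Int.ofNat 1, 12580), (Int.ofNat 1, 8515), (Int.ofNat 1, 8980), (Int.ofNat 1, 131380), (Int.ofNat 1, 66115), (Int.ofNat 1, 66340), (Int.ofNat 1, 73780), (Int.ofNat 1, 4675), (Int.ofNat 1, 4900),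 (Int.ofNat 1, 8500), (Int.ofNat 1, 66100), (Int.ofNat 1, 4660)]

def pl4 : List (ℤ × ℕ) := [(Int.ofNat 120, 274960), (Int.ofNat 120, 274945), (Int.ofNat 120, 274720), (Int.ofNat 120, 271120), (Int.ofNat 120, 213520), (Int.ofNat 120, 274465), (Int.ofNat 120, 271105), (Int.ofNat 120, 213505), (Int.ofNat 120, 274690), (Int.ofNat 120, 267040), (Int.ofNat 120, 213280), (Int.ofNat 120, 270640), (Int.ofNat 120, 148240), (Int.ofNat 120, 205840), (Int.ofNat 120, 274450), (Int.ofNat 120, 262945), (Int.ofNat 120, 213025), (Int.ofNat 120, 270385), (Int.ofNat 120, 148225), (Int.ofNat 120, 205825), (Int.ofNat 120, 267010), (Int.ofNat 120, 213250), (Int.ofNat 120, 266800), (Int.ofNat 120, 82720), (Int.ofNat 120, 201760), (Int.ofNat 120, 270595), (Int.ofNat 120, 147760), (Int.ofNat 120, 144400), (Int.ofNat 120, 205120), (Int.ofNat 120, 262930), (Int.ofNat 120, 213010), (Int.ofNat 120, 262705), (Int.ofNat 120, 17185), (Int.ofNat 120, 197665),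 (Int.ofNat 120, 270355), (Int.ofNat 120, 147505), (Int.ofNat 120, 144385), (Int.ofNat 120, 204865), (Int.ofNat 120, 266290), (Int.ofNat 120, 82690), (Int.ofNat 120, 201730), (Int.ofNat 120, 266755), (Int.ofNat 120, 82480), (Int.ofNat 120, 78880), (Int.ofNat 120, 201280), (Int.ofNat 120, 147715), (Int.ofNat 120, 136240), (Int.ofNat 120, 143680), (Int.ofNat 120, 205060), (Int.ofNat 120, 262450), (Int.ofNat 120, 17170), (Int.ofNat 120, 197650), (Int.ofNat 120, 262675), (Int.ofNat 120, 16945), (Int.ofNat 120, 13345), (Int.ofNat 120, 197185), (Int.ofNat 120, 147475), (Int.ofNat 120, 132145), (Int.ofNat 120, 143425), (Int.ofNat 120, 204820), (Int.ofNat 120, 266275), (Int.ofNat 120, 81970), (Int.ofNat 120, 78850), (Int.ofNat 120, 200770), (Int.ofNat 120, 82435), (Int.ofNat 120, 74800), (Int.ofNat 120, 78400), (Int.ofNat 120, 201220), (Int.ofNat 120, 136195), (Int.ofNat 120, 136000), (Int.ofNat 120, 143620), (Int.ofNat 120, 262435),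 (Int.ofNat 120, 16690), (Int.ofNat 120, 13330), (Int.ofNat 120, 196930), (Int.ofNat 120, 16915), (Int.ofNat 120, 9265), (Int.ofNat 120, 12865), (Int.ofNat 120, 197140), (Int.ofNat 120, 132115), (Int.ofNat 120, 131905), (Int.ofNat 120, 143380), (Int.ofNat 120, 81955), (Int.ofNat 120, 66610), (Int.ofNat 120, 77890), (Int.ofNat 120, 200740), (Int.ofNat 120, 74755), (Int.ofNat 120, 74560), (Int.ofNat 120, 78340), (Int.ofNat 120, 135235), (Int.ofNat 120, 135940), (Int.ofNat 120, 16675), (Int.ofNat 120, 5170), (Int.ofNat 120, 12610), (Int.ofNat 120, 196900), (Int.ofNat 120, 9235), (Int.ofNat 120, 9025), (Int.ofNat 120, 12820), (Int.ofNat 120, 131395), (Int.ofNat 120, 131860), (Int.ofNat 120, 66595), (Int.ofNat 120, 66370), (Int.ofNat 120, 77860), (Int.ofNat 120, 73795), (Int.ofNat 120, 74500), (Int.ofNat 120, 135220), (Int.ofNat 120, 5155), (Int.ofNat 120, 4930), (Int.ofNat 120, 12580), (Int.ofNat 120, 8515), (Int.ofNat 120,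 8980), (Int.ofNat 120, 131380), (Int.ofNat 120, 66115), (Int.ofNat 120, 66340), (Int.ofNat 120, 73780), (Int.ofNat 120, 4675), (Int.ofNat 120, 4900), (Int.ofNat 120, 8500), (Int.ofNat 120, 66100), (Int.ofNat 120, 4660)]

noncomputable def P4 (X : Type*) [Inhabited X] [Fintype X] : ((Fin 5 → X) → ℝ) → (Fin 5 → X) → ℝ :=
  fun f => gaF (b := 5) R4 (gaF C4 f)

theorem gr4 : grpB 5 R4 gs4 gp4 274960 tl4 = true := by
  decide +kernel

theorem gy4 : yB 5 R4 C4 e4 pl4 dg4 = true := by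
  decide +kernel

theorem pg4 (X : Type*) [Inhabited X] [Fintype X] : IsOp X (P4 X) dg4 :=
  isOp_young R4 C4 gs4 gp4 274960 tl4 gr4 e4 pl4 dg4 gy4

def dg5 : List (ℤ × ℕ) := [(Int.ofNat 48, 274960), (Int.ofNat 24, 213520), (Int.ofNat 48, 271120), (Int.ofNat 24, 148240), (Int.ofNat 24, 205840), (Int.ofNat 24, 144400), (Int.ofNat 48, 274720), (Int.ofNat 24, 213280), (Int.ofNat 48, 267040), (Int.ofNat 24, 82720), (Int.ofNat 24, 201760), (Int.ofNat 24, 78880), (Int.ofNat 48, 270640), (Int.ofNat 24, 147760), (Int.ofNat 48, 266800), (Int.ofNat 24, 82480), (Int.ofNat 24, 136240), (Int.ofNat 24, 74800), (Int.ofNat 24, 205120), (Int.ofNat 24, 143680), (Int.ofNat 24, 201280), (Int.ofNat 24, 78400), (Int.ofNat 24, 136000), (Int.ofNat 24, 74560), (Int.ofNat 24, 274945), (Int.ofNat 24, 271105), (Int.ofNat 24, 274465), (Int.ofNat 24, 262945), (Int.negSucc 23, 17185), (Int.negSucc 23, 13345), (Int.ofNat 24, 270385), (Int.ofNat 24, 262705),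 (Int.negSucc 23, 16945), (Int.negSucc 23, 9265), (Int.negSucc 23, 12865), (Int.negSucc 23, 9025), (Int.ofNat 24, 274690), (Int.ofNat 24, 267010), (Int.ofNat 24, 274450), (Int.ofNat 24, 262930), (Int.negSucc 23, 17170), (Int.negSucc 23, 13330), (Int.ofNat 24, 266290), (Int.ofNat 24, 262450), (Int.negSucc 23, 16690), (Int.negSucc 23, 5170), (Int.negSucc 23, 12610), (Int.negSucc 23, 4930), (Int.ofNat 24, 270595), (Int.ofNat 24, 266755), (Int.ofNat 24, 270355), (Int.ofNat 24, 262675), (Int.negSucc 23, 16915), (Int.negSucc 23, 9235), (Int.ofNat 24, 266275), (Int.ofNat 24, 262435), (Int.negSucc 23, 16675), (Int.negSucc 23, 5155), (Int.negSucc 23, 8515), (Int.negSucc 23, 4675), (Int.negSucc 23, 205060), (Int.negSucc 23, 143620), (Int.negSucc 23, 201220), (Int.negSucc 23, 78340), (Int.negSucc 23, 135940), (Int.negSucc 23, 74500), (Int.negSucc 23, 204820), (Int.negSucc 23, 143380), (Int.negSucc 23, 197140), (Int.negSucc 47, 12820),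 (Int.negSucc 23, 131860), (Int.negSucc 47, 8980), (Int.negSucc 23, 200740), (Int.negSucc 23, 77860), (Int.negSucc 23, 196900), (Int.negSucc 47, 12580), (Int.negSucc 23, 66340), (Int.negSucc 47, 4900), (Int.negSucc 23, 135220), (Int.negSucc 23, 73780), (Int.negSucc 23, 131380), (Int.negSucc 47, 8500), (Int.negSucc 23, 66100), (Int.negSucc 47, 4660)]

def R5 : GA := [(Int.ofNat 1, 274960, 274960), (Int.ofNat 1, 274945, 274945), (Int.ofNat 1, 274720, 274720), (Int.ofNat 1, 271120, 271120), (Int.ofNat 1, 274465, 274690), (Int.ofNat 1, 271105, 271105), (Int.ofNat 1, 274690, 274465), (Int.ofNat 1, 267040, 270640), (Int.ofNat 1, 270640, 267040), (Int.ofNat 1, 274450, 274450), (Int.ofNat 1, 262945, 270595), (Int.ofNat 1, 270385, 267010), (Int.ofNat 1, 267010, 270385), (Int.ofNat 1, 266800, 266800), (Int.ofNat 1, 270595, 262945), (Int.ofNat 1, 262930, 270355), (Int.ofNat 1, 262705, 266755), (Int.ofNat 1, 270355, 262930), (Int.ofNat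 1, 266290, 266290), (Int.ofNat 1, 266755, 262705), (Int.ofNat 1, 262450, 266275), (Int.ofNat 1, 262675, 262675), (Int.ofNat 1, 266275, 262450), (Int.ofNat 1, 262435, 262435)]

def C5 : GA := [(Int.ofNat 1, 274960, 274960), (Int.negSucc 0, 12820, 12820)]

def gs5 : List (ℤ × ℕ) := [(1, 274960), (1, 274945), (1, 274720), (1, 271120)]

def gp5 : List (List (ℤ × ℕ)) := [[(Int.ofNat 1, 274960), (Int.ofNat 1, 274945), (Int.ofNat 1, 274720), (Int.ofNat 1, 271120), (Int.ofNat 1, 274465), (Int.ofNat 1, 271105), (Int.ofNat 1, 274690), (Int.ofNat 1, 267040), (Int.ofNat 1, 270640), (Int.ofNat 1, 274450), (Int.ofNat 1, 262945), (Int.ofNat 1, 270385), (Int.ofNat 1, 267010), (Int.ofNat 1, 266800), (Int.ofNat 1, 270595), (Int.ofNat 1, 262930), (Int.ofNat 1, 262705), (Int.ofNat 1, 270355), (Int.ofNat 1, 266290), (Int.ofNat 1, 266755), (Int.ofNat 1, 262450), (Int.ofNat 1, 262675), (Int.ofNat 1, 266275), (Int.ofNat 1, 262435)],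
  [(Int.ofNat 1, 274945), (Int.ofNat 1, 274960), (Int.ofNat 1, 274465), (Int.ofNat 1, 271105), (Int.ofNat 1, 274720), (Int.ofNat 1, 271120), (Int.ofNat 1, 274450), (Int.ofNat 1, 262945), (Int.ofNat 1, 270385), (Int.ofNat 1, 274690), (Int.ofNat 1, 267040), (Int.ofNat 1, 270640), (Int.ofNat 1, 262930), (Int.ofNat 1, 262705), (Int.ofNat 1, 270355), (Int.ofNat 1, 267010), (Int.ofNat 1, 266800), (Int.ofNat 1, 270595), (Int.ofNat 1, 262450), (Int.ofNat 1, 262675), (Int.ofNat 1, 266290), (Int.ofNat 1, 266755), (Int.ofNat 1, 262435), (Int.ofNat 1, 266275)],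
  [(Int.ofNat 1, 274720), (Int.ofNat 1, 274690), (Int.ofNat 1, 274960), (Int.ofNat 1, 267040), (Int.ofNat 1, 274450), (Int.ofNat 1, 267010), (Int.ofNat 1, 274945), (Int.ofNat 1, 271120), (Int.ofNat 1, 266800), (Int.ofNat 1, 274465), (Int.ofNat 1, 262930), (Int.ofNat 1, 266290), (Int.ofNat 1, 271105), (Int.ofNat 1, 270640), (Int.ofNat 1, 266755), (Int.ofNat 1, 262945), (Int.ofNat 1, 262450), (Int.ofNat 1, 266275), (Int.ofNat 1, 270385), (Int.ofNat 1, 270595), (Int.ofNat 1, 262705), (Int.ofNat 1, 262435), (Int.ofNat 1, 270355), (Int.ofNat 1, 262675)],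
  [(Int.ofNat 1, 271120), (Int.ofNat 1, 271105), (Int.ofNat 1, 270640), (Int.ofNat 1, 274960), (Int.ofNat 1, 270385), (Int.ofNat 1, 274945), (Int.ofNat 1, 270595), (Int.ofNat 1, 266800), (Int.ofNat 1, 274720), (Int.ofNat 1, 270355), (Int.ofNat 1, 262705), (Int.ofNat 1, 274465), (Int.ofNat 1, 266755), (Int.ofNat 1, 267040), (Int.ofNat 1, 274690), (Int.ofNat 1, 262675), (Int.ofNat 1, 262945), (Int.ofNat 1, 274450), (Int.ofNat 1, 266275), (Int.ofNat 1, 267010), (Int.ofNat 1, 262435), (Int.ofNat 1, 262930), (Int.ofNat 1, 266290), (Int.ofNat 1, 262450)]]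

def tl5 : List (ℕ × ℕ) := [(0, 0), (1, 0), (2, 1), (3, 2), (2, 2), (3, 3), (1, 3), (3, 4), (2, 4), (1, 4), (3, 5), (2, 5), (3, 5), (2, 5), (1, 5), (3, 5), (2, 5), (1, 5), (2, 5), (1, 5), (2, 4), (1, 4), (1, 3), (1, 2)]

def e5 : List (ℤ × ℕ) := [(Int.ofNat 1, 274960), (Int.negSucc 0, 12820), (Int.ofNat 1, 274945), (Int.negSucc 0, 78340), (Int.ofNat 1, 274720), (Int.negSucc 0, 12580), (Int.ofNat 1, 271120), (Int.negSucc 0, 8980), (Int.ofNat 1, 274465), (Int.negSucc 0, 77860), (Int.ofNat 1, 271105), (Int.negSucc 0, 74500), (Int.ofNat 1, 274690), (Int.negSucc 0, 143620), (Int.ofNat 1, 267040), (Int.negSucc 0, 4900), (Int.ofNat 1, 270640), (Int.negSucc 0, 8500), (Int.ofNat 1, 274450), (Int.negSucc 0, 143380), (Int.ofNat 1, 262945), (Int.negSucc 0, 66340), (Int.ofNat 1, 270385), (Int.negSucc 0, 73780), (Int.ofNat 1, 267010), (Int.negSucc 0, 135940), (Int.ofNat 1, 266800), (Int.negSucc 0, 4660), (Int.ofNat 1, 270595), (Int.negSucc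 0, 205060), (Int.ofNat 1, 262930), (Int.negSucc 0, 131860), (Int.ofNat 1, 262705), (Int.negSucc 0, 66100), (Int.ofNat 1, 270355), (Int.negSucc 0, 204820), (Int.ofNat 1, 266290), (Int.negSucc 0, 135220), (Int.ofNat 1, 266755), (Int.negSucc 0, 201220), (Int.ofNat 1, 262450), (Int.negSucc 0, 131380), (Int.ofNat 1, 262675), (Int.negSucc 0, 197140), (Int.ofNat 1, 266275), (Int.negSucc 0, 200740), (Int.ofNat 1, 262435), (Int.negSucc 0, 196900)]

def pl5 : List (ℤ × ℕ) := [(Int.ofNat 24, 274960), (Int.negSucc 23, 12820), (Int.ofNat 24, 274945), (Int.negSucc 23, 78340), (Int.ofNat 24, 274720), (Int.negSucc 23, 12580), (Int.ofNat 24, 271120), (Int.negSucc 23, 8980), (Int.ofNat 24, 274465), (Int.negSucc 23, 77860), (Int.ofNat 24, 271105), (Int.negSucc 23, 74500), (Int.ofNat 24, 274690), (Int.negSucc 23, 143620), (Int.ofNat 24, 267040), (Int.negSucc 23, 4900), (Int.ofNat 24, 270640), (Int.negSucc 23, 8500), (Int.ofNat 24, 274450),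 (Int.negSucc 23, 143380), (Int.ofNat 24, 262945), (Int.negSucc 23, 66340), (Int.ofNat 24, 270385), (Int.negSucc 23, 73780), (Int.ofNat 24, 267010), (Int.negSucc 23, 135940), (Int.ofNat 24, 266800), (Int.negSucc 23, 4660), (Int.ofNat 24, 270595), (Int.negSucc 23, 205060), (Int.ofNat 24, 262930), (Int.negSucc 23, 131860), (Int.ofNat 24, 262705), (Int.negSucc 23, 66100), (Int.ofNat 24, 270355), (Int.negSucc 23, 204820), (Int.ofNat 24, 266290), (Int.negSucc 23, 135220), (Int.ofNat 24, 266755), (Int.negSucc 23, 201220), (Int.ofNat 24, 262450), (Int.negSucc 23, 131380), (Int.ofNat 24, 262675), (Int.negSucc 23, 197140), (Int.ofNat 24, 266275), (Int.negSucc 23, 200740), (Int.ofNat 24, 262435), (Int.negSucc 23, 196900), (Int.negSucc 23, 12820), (Int.ofNat 24, 274960), (Int.negSucc 23, 12865), (Int.ofNat 24, 78400), (Int.negSucc 23, 12580), (Int.ofNat 24, 274720), (Int.negSucc 23, 8980), (Int.ofNat 24, 271120), (Int.negSucc 23, 13345),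 (Int.ofNat 24, 78880), (Int.negSucc 23, 9025), (Int.ofNat 24, 74560), (Int.negSucc 23, 12610), (Int.ofNat 24, 143680), (Int.negSucc 23, 4900), (Int.ofNat 24, 267040), (Int.negSucc 23, 8500), (Int.ofNat 24, 270640), (Int.negSucc 23, 13330), (Int.ofNat 24, 144400), (Int.negSucc 23, 17185), (Int.ofNat 24, 82720), (Int.negSucc 23, 9265), (Int.ofNat 24, 74800), (Int.negSucc 23, 4930), (Int.ofNat 24, 136000), (Int.negSucc 23, 4660), (Int.ofNat 24, 266800), (Int.negSucc 23, 8515), (Int.ofNat 24, 205120), (Int.negSucc 23, 17170), (Int.ofNat 24, 148240), (Int.negSucc 23, 16945), (Int.ofNat 24, 82480), (Int.negSucc 23, 9235), (Int.ofNat 24, 205840), (Int.negSucc 23, 5170), (Int.ofNat 24, 136240), (Int.negSucc 23, 4675), (Int.ofNat 24, 201280), (Int.negSucc 23, 16690), (Int.ofNat 24, 147760), (Int.negSucc 23, 16915), (Int.ofNat 24, 213520), (Int.negSucc 23, 5155), (Int.ofNat 24, 201760), (Int.negSucc 23, 16675), (Int.ofNat 24, 213280)]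

noncomputable def P5 (X : Type*) [Inhabited X] [Fintype X] : ((Fin 5 → X) → ℝ) → (Fin 5 → X) → ℝ :=
  fun f => gaF (b := 5) R5 (gaF C5 f)

theorem gr5 : grpB 5 R5 gs5 gp5 274960 tl5 = true := by
  decide +kernel

theorem gy5 : yB 5 R5 C5 e5 pl5 dg5 = true := by
  decide +kernel

theorem pg5 (X : Type*) [Inhabited X] [Fintype X] : IsOp X (P5 X) dg5 :=
  isOp_young R5 C5 gs5 gp5 274960 tl5 gr5 e5 pl5 dg5 gy5

def dg6 : List (ℤ × ℕ) := [(Int.ofNat 48, 274960), (Int.ofNat 24, 213520), (Int.ofNat 24, 271120), (Int.ofNat 12, 148240), (Int.ofNat 12, 205840), (Int.ofNat 24, 144400), (Int.ofNat 24, 274720), (Int.ofNat 12, 213280), (Int.ofNat 12, 267040), (Int.negSucc 11, 82720), (Int.negSucc 11, 201760), (Int.negSucc 23, 78880), (Int.ofNat 12, 270640), (Int.negSucc 11, 147760), (Int.ofNat 24, 266800), (Int.negSucc 23, 82480), (Int.ofNat 12, 136240), (Int.negSucc 11, 74800), (Int.negSucc 11, 205120), (Int.negSucc 23, 143680), (Int.negSucc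 23, 201280), (Int.negSucc 47, 78400), (Int.negSucc 11, 136000), (Int.negSucc 23, 74560), (Int.ofNat 24, 274945), (Int.ofNat 48, 213505), (Int.ofNat 12, 271105), (Int.ofNat 24, 148225), (Int.ofNat 24, 205825), (Int.ofNat 12, 144385), (Int.ofNat 12, 274465), (Int.ofNat 24, 213025), (Int.negSucc 11, 262945), (Int.negSucc 23, 17185), (Int.ofNat 12, 197665), (Int.negSucc 11, 13345), (Int.negSucc 11, 270385), (Int.negSucc 23, 147505), (Int.negSucc 23, 262705), (Int.negSucc 47, 16945), (Int.negSucc 11, 132145), (Int.negSucc 23, 9265), (Int.ofNat 12, 204865), (Int.negSucc 11, 143425), (Int.ofNat 24, 197185), (Int.negSucc 23, 12865), (Int.ofNat 12, 131905), (Int.negSucc 11, 9025), (Int.ofNat 12, 274690), (Int.ofNat 24, 213250), (Int.negSucc 11, 267010), (Int.ofNat 12, 82690), (Int.negSucc 23, 201730), (Int.negSucc 11, 78850), (Int.ofNat 24, 274450), (Int.ofNat 12, 213010), (Int.negSucc 23, 262930), (Int.negSucc 11, 17170), (Int.negSucc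 11, 197650), (Int.ofNat 12, 13330), (Int.ofNat 12, 266290), (Int.negSucc 11, 81970), (Int.negSucc 11, 262450), (Int.negSucc 23, 16690), (Int.ofNat 12, 66610), (Int.ofNat 24, 5170), (Int.negSucc 11, 200770), (Int.negSucc 23, 77890), (Int.ofNat 12, 196930), (Int.negSucc 11, 12610), (Int.ofNat 24, 66370), (Int.ofNat 12, 4930), (Int.negSucc 11, 270595), (Int.ofNat 12, 147715), (Int.negSucc 23, 266755), (Int.ofNat 24, 82435), (Int.negSucc 11, 136195), (Int.ofNat 12, 74755), (Int.negSucc 23, 270355), (Int.negSucc 11, 147475), (Int.negSucc 47, 262675), (Int.negSucc 23, 16915), (Int.negSucc 23, 132115), (Int.negSucc 11, 9235), (Int.negSucc 11, 266275), (Int.ofNat 12, 81955), (Int.negSucc 23, 262435), (Int.negSucc 11, 16675), (Int.ofNat 24, 66595), (Int.ofNat 12, 5155), (Int.ofNat 12, 135235), (Int.ofNat 24, 73795), (Int.ofNat 24, 131395), (Int.ofNat 12, 8515), (Int.ofNat 48, 66115), (Int.ofNat 24, 4675), (Int.negSucc 23, 205060),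 (Int.negSucc 11, 143620), (Int.negSucc 47, 201220), (Int.negSucc 23, 78340), (Int.negSucc 23, 135940), (Int.negSucc 11, 74500), (Int.negSucc 11, 204820), (Int.ofNat 12, 143380), (Int.negSucc 23, 197140), (Int.ofNat 24, 12820), (Int.negSucc 11, 131860), (Int.ofNat 12, 8980), (Int.negSucc 23, 200740), (Int.negSucc 11, 77860), (Int.negSucc 11, 196900), (Int.ofNat 12, 12580), (Int.ofNat 12, 66340), (Int.ofNat 24, 4900), (Int.ofNat 24, 135220), (Int.ofNat 12, 73780), (Int.ofNat 12, 131380), (Int.ofNat 24, 8500), (Int.ofNat 24, 66100), (Int.ofNat 48, 4660)]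

def R6 : GA := [(Int.ofNat 1, 274960, 274960), (Int.ofNat 1, 274945, 274945), (Int.ofNat 1, 274720, 274720), (Int.ofNat 1, 213520, 213520), (Int.ofNat 1, 274465, 274690), (Int.ofNat 1, 213505, 213505), (Int.ofNat 1, 274690, 274465), (Int.ofNat 1, 213280, 213280), (Int.ofNat 1, 274450, 274450), (Int.ofNat 1, 213025, 213250), (Int.ofNat 1, 213250, 213025), (Int.ofNat 1, 213010, 213010)]

def C6 : GA := [(Int.ofNat 1, 274960, 274960), (Int.negSucc 0, 78400, 78400), (Int.negSucc 0, 262675, 262675), (Int.ofNat 1, 66115, 66115)]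

def gs6 : List (ℤ × ℕ) := [(1, 274960), (1, 274945), (1, 274720), (1, 213520)]

def gp6 : List (List (ℤ × ℕ)) := [[(Int.ofNat 1, 274960), (Int.ofNat 1, 274945), (Int.ofNat 1, 274720), (Int.ofNat 1, 213520), (Int.ofNat 1, 274465), (Int.ofNat 1, 213505), (Int.ofNat 1, 274690), (Int.ofNat 1, 213280), (Int.ofNat 1, 274450), (Int.ofNat 1, 213025), (Int.ofNat 1, 213250), (Int.ofNat 1, 213010)],
  [(Int.ofNat 1, 274945), (Int.ofNat 1, 274960), (Int.ofNat 1, 274465), (Int.ofNat 1, 213505), (Int.ofNat 1, 274720), (Int.ofNat 1, 213520), (Int.ofNat 1, 274450), (Int.ofNat 1, 213025), (Int.ofNat 1, 274690), (Int.ofNat 1, 213280), (Int.ofNat 1, 213010), (Int.ofNat 1, 213250)],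
  [(Int.ofNat 1, 274720), (Int.ofNat 1, 274690), (Int.ofNat 1, 274960), (Int.ofNat 1, 213280), (Int.ofNat 1, 274450), (Int.ofNat 1, 213250), (Int.ofNat 1, 274945), (Int.ofNat 1, 213520), (Int.ofNat 1, 274465), (Int.ofNat 1, 213010), (Int.ofNat 1, 213505), (Int.ofNat 1, 213025)],
  [(Int.ofNat 1, 213520), (Int.ofNat 1, 213505), (Int.ofNat 1, 213280), (Int.ofNat 1, 274960), (Int.ofNat 1, 213025), (Int.ofNat 1, 274945), (Int.ofNat 1, 213250), (Int.ofNat 1, 274720), (Int.ofNat 1, 213010), (Int.ofNat 1, 274465), (Int.ofNat 1, 274690), (Int.ofNat 1, 274450)]]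

def tl6 : List (ℕ × ℕ) := [(0, 0), (1, 0), (2, 1), (3, 2), (2, 2), (3, 3), (1, 3), (3, 4), (1, 3), (3, 4), (3, 3), (3, 2)]

def e6 : List (ℤ × ℕ) := [(Int.ofNat 1, 274960), (Int.negSucc 0, 78400), (Int.negSucc 0, 262675), (Int.ofNat 1, 66115), (Int.ofNat 1, 274945), (Int.negSucc 0, 12865), (Int.negSucc 0, 266755), (Int.ofNat 1, 4675), (Int.ofNat 1, 274720), (Int.negSucc 0, 143680), (Int.negSucc 0, 262435), (Int.ofNat 1, 131395), (Int.ofNat 1, 213520), (Int.negSucc 0, 82480), (Int.negSucc 0, 197140), (Int.ofNat 1, 66100), (Int.ofNat 1, 274465), (Int.negSucc 0, 143425), (Int.negSucc 0, 266275), (Int.ofNat 1, 135235), (Int.ofNat 1, 213505), (Int.negSucc 0, 16945), (Int.negSucc 0, 201220), (Int.ofNat 1, 4660), (Int.ofNat 1, 274690), (Int.negSucc 0, 12610), (Int.negSucc 0, 270595), (Int.ofNat 1, 8515), (Int.ofNat 1, 213280), (Int.negSucc 0, 147760), (Int.negSucc 0, 196900), (Int.ofNat 1, 131380), (Int.ofNat 1, 274450), (Int.negSucc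 0, 77890), (Int.negSucc 0, 270355), (Int.ofNat 1, 73795), (Int.ofNat 1, 213025), (Int.negSucc 0, 147505), (Int.negSucc 0, 200740), (Int.ofNat 1, 135220), (Int.ofNat 1, 213250), (Int.negSucc 0, 16690), (Int.negSucc 0, 205060), (Int.ofNat 1, 8500), (Int.ofNat 1, 213010), (Int.negSucc 0, 81970), (Int.negSucc 0, 204820), (Int.ofNat 1, 73780)]

def pl6 : List (ℤ × ℕ) := [(Int.ofNat 12, 274960), (Int.negSucc 11, 78400), (Int.negSucc 11, 262675), (Int.ofNat 12, 66115), (Int.ofNat 12, 274945), (Int.negSucc 11, 12865), (Int.negSucc 11, 266755), (Int.ofNat 12, 4675), (Int.ofNat 12, 274720), (Int.negSucc 11, 143680), (Int.negSucc 11, 262435), (Int.ofNat 12, 131395), (Int.ofNat 12, 213520), (Int.negSucc 11, 82480), (Int.negSucc 11, 197140), (Int.ofNat 12, 66100), (Int.ofNat 12, 274465), (Int.negSucc 11, 143425), (Int.negSucc 11, 266275), (Int.ofNat 12, 135235), (Int.ofNat 12, 213505), (Int.negSucc 11, 16945), (Int.negSucc 11, 201220),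 (Int.ofNat 12, 4660), (Int.ofNat 12, 274690), (Int.negSucc 11, 12610), (Int.negSucc 11, 270595), (Int.ofNat 12, 8515), (Int.ofNat 12, 213280), (Int.negSucc 11, 147760), (Int.negSucc 11, 196900), (Int.ofNat 12, 131380), (Int.ofNat 12, 274450), (Int.negSucc 11, 77890), (Int.negSucc 11, 270355), (Int.ofNat 12, 73795), (Int.ofNat 12, 213025), (Int.negSucc 11, 147505), (Int.negSucc 11, 200740), (Int.ofNat 12, 135220), (Int.ofNat 12, 213250), (Int.negSucc 11, 16690), (Int.negSucc 11, 205060), (Int.ofNat 12, 8500), (Int.ofNat 12, 213010), (Int.negSucc 11, 81970), (Int.negSucc 11, 204820), (Int.ofNat 12, 73780), (Int.negSucc 11, 78400), (Int.ofNat 12, 274960), (Int.ofNat 12, 66115), (Int.negSucc 11, 262675), (Int.negSucc 11, 78340), (Int.ofNat 12, 12820), (Int.ofNat 12, 82435), (Int.negSucc 11, 16915), (Int.negSucc 11, 78880), (Int.ofNat 12, 144400), (Int.ofNat 12, 66595), (Int.negSucc 11, 132115), (Int.negSucc 11, 201280), (Int.ofNat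 12, 266800), (Int.ofNat 12, 197185), (Int.negSucc 11, 262705), (Int.negSucc 11, 77860), (Int.ofNat 12, 143380), (Int.ofNat 12, 81955), (Int.negSucc 11, 147475), (Int.negSucc 11, 201220), (Int.ofNat 12, 4660), (Int.ofNat 12, 213505), (Int.negSucc 11, 16945), (Int.negSucc 11, 78850), (Int.ofNat 12, 13330), (Int.ofNat 12, 74755), (Int.negSucc 11, 9235), (Int.negSucc 11, 201760), (Int.ofNat 12, 136240), (Int.ofNat 12, 197665), (Int.negSucc 11, 132145), (Int.negSucc 11, 77890), (Int.ofNat 12, 274450), (Int.ofNat 12, 73795), (Int.negSucc 11, 270355), (Int.negSucc 11, 200740), (Int.ofNat 12, 135220), (Int.ofNat 12, 213025), (Int.negSucc 11, 147505), (Int.negSucc 11, 201730), (Int.ofNat 12, 5170), (Int.ofNat 12, 205825), (Int.negSucc 11, 9265), (Int.negSucc 11, 200770), (Int.ofNat 12, 266290), (Int.ofNat 12, 204865), (Int.negSucc 11, 270385), (Int.negSucc 11, 262675), (Int.ofNat 12, 66115), (Int.ofNat 12, 274960), (Int.negSucc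 11, 78400), (Int.negSucc 11, 262705), (Int.ofNat 12, 197185), (Int.ofNat 12, 266800), (Int.negSucc 11, 201280), (Int.negSucc 11, 262435), (Int.ofNat 12, 131395), (Int.ofNat 12, 274720), (Int.negSucc 11, 143680), (Int.negSucc 11, 16915), (Int.ofNat 12, 82435), (Int.ofNat 12, 12820), (Int.negSucc 11, 78340), (Int.negSucc 11, 262945), (Int.ofNat 12, 131905), (Int.ofNat 12, 267040), (Int.negSucc 11, 136000), (Int.negSucc 11, 16945), (Int.ofNat 12, 213505), (Int.ofNat 12, 4660), (Int.negSucc 11, 201220), (Int.negSucc 11, 262450), (Int.ofNat 12, 196930), (Int.ofNat 12, 270640), (Int.negSucc 11, 205120), (Int.negSucc 11, 16675), (Int.ofNat 12, 147715), (Int.ofNat 12, 12580), (Int.negSucc 11, 143620), (Int.negSucc 11, 262930), (Int.ofNat 12, 66370), (Int.ofNat 12, 271120), (Int.negSucc 11, 74560), (Int.negSucc 11, 17185), (Int.ofNat 12, 148225), (Int.ofNat 12, 4900), (Int.negSucc 11, 135940), (Int.negSucc 11, 16690), (Int.ofNat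 12, 213250), (Int.ofNat 12, 8500), (Int.negSucc 11, 205060), (Int.negSucc 11, 17170), (Int.ofNat 12, 82690), (Int.ofNat 12, 8980), (Int.negSucc 11, 74500), (Int.ofNat 12, 66115), (Int.negSucc 11, 262675), (Int.negSucc 11, 78400), (Int.ofNat 12, 274960), (Int.ofNat 12, 66100), (Int.negSucc 11, 197140), (Int.negSucc 11, 82480), (Int.ofNat 12, 213520), (Int.ofNat 12, 66595), (Int.negSucc 11, 132115), (Int.negSucc 11, 78880), (Int.ofNat 12, 144400), (Int.ofNat 12, 4675), (Int.negSucc 11, 266755), (Int.negSucc 11, 12865), (Int.ofNat 12, 274945), (Int.ofNat 12, 66340), (Int.negSucc 11, 131860), (Int.negSucc 11, 82720), (Int.ofNat 12, 148240), (Int.ofNat 12, 4660), (Int.negSucc 11, 201220), (Int.negSucc 11, 16945), (Int.ofNat 12, 213505), (Int.ofNat 12, 66610), (Int.negSucc 11, 197650), (Int.negSucc 11, 74800), (Int.ofNat 12, 205840), (Int.ofNat 12, 5155), (Int.negSucc 11, 136195), (Int.negSucc 11, 13345), (Int.ofNat 12, 144385),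 (Int.ofNat 12, 66370), (Int.negSucc 11, 262930), (Int.negSucc 11, 74560), (Int.ofNat 12, 271120), (Int.ofNat 12, 4900), (Int.negSucc 11, 135940), (Int.negSucc 11, 17185), (Int.ofNat 12, 148225), (Int.ofNat 12, 5170), (Int.negSucc 11, 201730), (Int.negSucc 11, 9265), (Int.ofNat 12, 205825), (Int.ofNat 12, 4930), (Int.negSucc 11, 267010), (Int.negSucc 11, 9025), (Int.ofNat 12, 271105)]

noncomputable def P6 (X : Type*) [Inhabited X] [Fintype X] : ((Fin 5 → X) → ℝ) → (Fin 5 → X) → ℝ :=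
  fun f => gaF (b := 5) R6 (gaF C6 f)

theorem gr6 : grpB 5 R6 gs6 gp6 274960 tl6 = true := by
  decide +kernel

theorem gy6 : yB 5 R6 C6 e6 pl6 dg6 = true := by
  decide +kernel

theorem pg6 (X : Type*) [Inhabited X] [Fintype X] : IsOp X (P6 X) dg6 :=
  isOp_young R6 C6 gs6 gp6 274960 tl6 gr6 e6 pl6 dg6 gy6

def dg7 : List (ℤ × ℕ) := [(Int.ofNat 36, 274960), (Int.negSucc 35, 213520), (Int.ofNat 12, 271120), (Int.negSucc 11, 148240), (Int.negSucc 11, 205840), (Int.ofNat 12, 144400), (Int.ofNat 36, 274720), (Int.negSucc 35, 213280), (Int.ofNat 12, 267040), (Int.negSucc 11, 82720), (Int.negSucc 11, 201760), (Int.ofNat 12, 78880), (Int.ofNat 12, 270640), (Int.negSucc 11, 147760), (Int.ofNat 12, 266800), (Int.negSucc 11, 82480), (Int.negSucc 11, 205120), (Int.ofNat 12, 143680), (Int.negSucc 11, 201280), (Int.ofNat 12, 78400), (Int.ofNat 12, 274945), (Int.negSucc 11, 213505), (Int.ofNat 12, 274465), (Int.negSucc 11, 213025),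 (Int.negSucc 11, 262945), (Int.ofNat 12, 17185), (Int.ofNat 12, 197665), (Int.negSucc 11, 13345), (Int.negSucc 11, 262705), (Int.ofNat 12, 16945), (Int.ofNat 12, 197185), (Int.negSucc 11, 12865), (Int.ofNat 12, 274690), (Int.negSucc 11, 213250), (Int.ofNat 12, 274450), (Int.negSucc 11, 213010), (Int.negSucc 11, 262930), (Int.ofNat 12, 17170), (Int.ofNat 12, 197650), (Int.negSucc 11, 13330), (Int.negSucc 11, 262450), (Int.ofNat 12, 16690), (Int.ofNat 12, 196930), (Int.negSucc 11, 12610), (Int.negSucc 11, 270595), (Int.ofNat 12, 147715), (Int.negSucc 11, 266755), (Int.ofNat 12, 82435), (Int.negSucc 11, 270355), (Int.ofNat 12, 147475), (Int.negSucc 35, 262675), (Int.ofNat 36, 16915), (Int.negSucc 11, 132115), (Int.ofNat 12, 9235), (Int.negSucc 11, 266275), (Int.ofNat 12, 81955), (Int.negSucc 35, 262435), (Int.ofNat 36, 16675), (Int.negSucc 11, 66595), (Int.ofNat 12, 5155), (Int.negSucc 11, 131395), (Int.ofNat 12, 8515), (Int.negSucc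 11, 66115), (Int.ofNat 12, 4675), (Int.ofNat 12, 205060), (Int.negSucc 11, 143620), (Int.ofNat 12, 201220), (Int.negSucc 11, 78340), (Int.ofNat 12, 204820), (Int.negSucc 11, 143380), (Int.ofNat 36, 197140), (Int.negSucc 35, 12820), (Int.ofNat 12, 131860), (Int.negSucc 11, 8980), (Int.ofNat 12, 200740), (Int.negSucc 11, 77860), (Int.ofNat 36, 196900), (Int.negSucc 35, 12580), (Int.ofNat 12, 66340), (Int.negSucc 11, 4900), (Int.ofNat 12, 131380), (Int.negSucc 11, 8500), (Int.ofNat 12, 66100), (Int.negSucc 11, 4660)]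

def R7 : GA := [(Int.ofNat 1, 274960, 274960), (Int.ofNat 1, 274945, 274945), (Int.ofNat 1, 274720, 274720), (Int.ofNat 1, 274465, 274690), (Int.ofNat 1, 274690, 274465), (Int.ofNat 1, 274450, 274450)]

def C7 : GA := [(Int.ofNat 1, 274960, 274960), (Int.negSucc 0, 213520, 213520), (Int.negSucc 0, 262675, 262675), (Int.ofNat 1, 16915, 197140), (Int.ofNat 1, 197140, 16915), (Int.negSucc 0, 12820, 12820)]

def gs7 : List (ℤ × ℕ) := [(1, 274960), (1, 274945), (1, 274720)]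

def gp7 : List (List (ℤ × ℕ)) := [[(Int.ofNat 1, 274960), (Int.ofNat 1, 274945), (Int.ofNat 1, 274720), (Int.ofNat 1, 274465), (Int.ofNat 1, 274690), (Int.ofNat 1, 274450)],
  [(Int.ofNat 1, 274945), (Int.ofNat 1, 274960), (Int.ofNat 1, 274465), (Int.ofNat 1, 274720), (Int.ofNat 1, 274450), (Int.ofNat 1, 274690)],
  [(Int.ofNat 1, 274720), (Int.ofNat 1, 274690), (Int.ofNat 1, 274960), (Int.ofNat 1, 274450), (Int.ofNat 1, 274945), (Int.ofNat 1, 274465)]]

def tl7 : List (ℕ × ℕ) := [(0, 0), (1, 0), (2, 1), (2, 1), (1, 1), (1, 1)]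

def e7 : List (ℤ × ℕ) := [(Int.ofNat 1, 274960), (Int.negSucc 0, 213520), (Int.negSucc 0, 262675), (Int.ofNat 1, 16915), (Int.ofNat 1, 197140), (Int.negSucc 0, 12820), (Int.ofNat 1, 274945), (Int.negSucc 0, 213505), (Int.negSucc 0, 266755), (Int.ofNat 1, 82435), (Int.ofNat 1, 201220), (Int.negSucc 0, 78340), (Int.ofNat 1, 274720), (Int.negSucc 0, 213280), (Int.negSucc 0, 262435), (Int.ofNat 1, 16675), (Int.ofNat 1, 196900), (Int.negSucc 0, 12580), (Int.ofNat 1, 274465), (Int.negSucc 0, 213025), (Int.negSucc 0, 266275), (Int.ofNat 1, 81955), (Int.ofNat 1, 200740), (Int.negSucc 0, 77860), (Int.ofNat 1, 274690), (Int.negSucc 0, 213250), (Int.negSucc 0, 270595), (Int.ofNat 1, 147715), (Int.ofNat 1, 205060), (Int.negSucc 0, 143620), (Int.ofNat 1, 274450), (Int.negSucc 0, 213010), (Int.negSucc 0, 270355), (Int.ofNat 1, 147475), (Int.ofNat 1, 204820), (Int.negSucc 0, 143380)]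

def pl7 : List (ℤ × ℕ) := [(Int.ofNat 6, 274960), (Int.negSucc 5, 213520), (Int.negSucc 5, 262675), (Int.ofNat 6, 16915), (Int.ofNat 6, 197140), (Int.negSucc 5, 12820), (Int.ofNat 6, 274945), (Int.negSucc 5, 213505), (Int.negSucc 5, 266755), (Int.ofNat 6, 82435), (Int.ofNat 6, 201220), (Int.negSucc 5, 78340), (Int.ofNat 6, 274720), (Int.negSucc 5, 213280), (Int.negSucc 5, 262435), (Int.ofNat 6, 16675), (Int.ofNat 6, 196900), (Int.negSucc 5, 12580), (Int.ofNat 6, 274465), (Int.negSucc 5, 213025), (Int.negSucc 5, 266275), (Int.ofNat 6, 81955), (Int.ofNat 6, 200740), (Int.negSucc 5, 77860), (Int.ofNat 6, 274690), (Int.negSucc 5, 213250), (Int.negSucc 5, 270595), (Int.ofNat 6, 147715), (Int.ofNat 6, 205060), (Int.negSucc 5, 143620), (Int.ofNat 6, 274450), (Int.negSucc 5, 213010), (Int.negSucc 5, 270355), (Int.ofNat 6, 147475), (Int.ofNat 6, 204820), (Int.negSucc 5, 143380), (Int.negSucc 5, 213520), (Int.ofNat 6, 274960), (Int.ofNat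 6, 197140), (Int.negSucc 5, 12820), (Int.negSucc 5, 262675), (Int.ofNat 6, 16915), (Int.negSucc 5, 213505), (Int.ofNat 6, 274945), (Int.ofNat 6, 201220), (Int.negSucc 5, 78340), (Int.negSucc 5, 266755), (Int.ofNat 6, 82435), (Int.negSucc 5, 213280), (Int.ofNat 6, 274720), (Int.ofNat 6, 196900), (Int.negSucc 5, 12580), (Int.negSucc 5, 262435), (Int.ofNat 6, 16675), (Int.negSucc 5, 213025), (Int.ofNat 6, 274465), (Int.ofNat 6, 200740), (Int.negSucc 5, 77860), (Int.negSucc 5, 266275), (Int.ofNat 6, 81955), (Int.negSucc 5, 213250), (Int.ofNat 6, 274690), (Int.ofNat 6, 205060), (Int.negSucc 5, 143620), (Int.negSucc 5, 270595), (Int.ofNat 6, 147715), (Int.negSucc 5, 213010), (Int.ofNat 6, 274450), (Int.ofNat 6, 204820), (Int.negSucc 5, 143380), (Int.negSucc 5, 270355), (Int.ofNat 6, 147475), (Int.negSucc 5, 262675), (Int.ofNat 6, 16915), (Int.ofNat 6, 274960), (Int.negSucc 5, 213520), (Int.negSucc 5, 12820), (Int.ofNat 6, 197140),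 (Int.negSucc 5, 262705), (Int.ofNat 6, 16945), (Int.ofNat 6, 266800), (Int.negSucc 5, 82480), (Int.negSucc 5, 4660), (Int.ofNat 6, 66100), (Int.negSucc 5, 262435), (Int.ofNat 6, 16675), (Int.ofNat 6, 274720), (Int.negSucc 5, 213280), (Int.negSucc 5, 12580), (Int.ofNat 6, 196900), (Int.negSucc 5, 262945), (Int.ofNat 6, 17185), (Int.ofNat 6, 267040), (Int.negSucc 5, 82720), (Int.negSucc 5, 4900), (Int.ofNat 6, 66340), (Int.negSucc 5, 262450), (Int.ofNat 6, 16690), (Int.ofNat 6, 270640), (Int.negSucc 5, 147760), (Int.negSucc 5, 8500), (Int.ofNat 6, 131380), (Int.negSucc 5, 262930), (Int.ofNat 6, 17170), (Int.ofNat 6, 271120), (Int.negSucc 5, 148240), (Int.negSucc 5, 8980), (Int.ofNat 6, 131860), (Int.ofNat 6, 197140), (Int.negSucc 5, 12820), (Int.negSucc 5, 213520), (Int.ofNat 6, 274960), (Int.ofNat 6, 16915), (Int.negSucc 5, 262675), (Int.ofNat 6, 197185), (Int.negSucc 5, 12865), (Int.negSucc 5, 201280), (Int.ofNat 6, 78400),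 (Int.ofNat 6, 4675), (Int.negSucc 5, 66115), (Int.ofNat 6, 196900), (Int.negSucc 5, 12580), (Int.negSucc 5, 213280), (Int.ofNat 6, 274720), (Int.ofNat 6, 16675), (Int.negSucc 5, 262435), (Int.ofNat 6, 197665), (Int.negSucc 5, 13345), (Int.negSucc 5, 201760), (Int.ofNat 6, 78880), (Int.ofNat 6, 5155), (Int.negSucc 5, 66595), (Int.ofNat 6, 196930), (Int.negSucc 5, 12610), (Int.negSucc 5, 205120), (Int.ofNat 6, 143680), (Int.ofNat 6, 8515), (Int.negSucc 5, 131395), (Int.ofNat 6, 197650), (Int.negSucc 5, 13330), (Int.negSucc 5, 205840), (Int.ofNat 6, 144400), (Int.ofNat 6, 9235), (Int.negSucc 5, 132115), (Int.ofNat 6, 16915), (Int.negSucc 5, 262675), (Int.negSucc 5, 12820), (Int.ofNat 6, 197140), (Int.ofNat 6, 274960), (Int.negSucc 5, 213520), (Int.ofNat 6, 16945), (Int.negSucc 5, 262705), (Int.negSucc 5, 4660), (Int.ofNat 6, 66100), (Int.ofNat 6, 266800), (Int.negSucc 5, 82480), (Int.ofNat 6, 16675), (Int.negSucc 5, 262435),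 (Int.negSucc 5, 12580), (Int.ofNat 6, 196900), (Int.ofNat 6, 274720), (Int.negSucc 5, 213280), (Int.ofNat 6, 17185), (Int.negSucc 5, 262945), (Int.negSucc 5, 4900), (Int.ofNat 6, 66340), (Int.ofNat 6, 267040), (Int.negSucc 5, 82720), (Int.ofNat 6, 16690), (Int.negSucc 5, 262450), (Int.negSucc 5, 8500), (Int.ofNat 6, 131380), (Int.ofNat 6, 270640), (Int.negSucc 5, 147760), (Int.ofNat 6, 17170), (Int.negSucc 5, 262930), (Int.negSucc 5, 8980), (Int.ofNat 6, 131860), (Int.ofNat 6, 271120), (Int.negSucc 5, 148240), (Int.negSucc 5, 12820), (Int.ofNat 6, 197140), (Int.ofNat 6, 16915), (Int.negSucc 5, 262675), (Int.negSucc 5, 213520), (Int.ofNat 6, 274960), (Int.negSucc 5, 12865), (Int.ofNat 6, 197185), (Int.ofNat 6, 4675), (Int.negSucc 5, 66115), (Int.negSucc 5, 201280), (Int.ofNat 6, 78400), (Int.negSucc 5, 12580), (Int.ofNat 6, 196900), (Int.ofNat 6, 16675), (Int.negSucc 5, 262435), (Int.negSucc 5, 213280), (Int.ofNat 6, 274720),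 (Int.negSucc 5, 13345), (Int.ofNat 6, 197665), (Int.ofNat 6, 5155), (Int.negSucc 5, 66595), (Int.negSucc 5, 201760), (Int.ofNat 6, 78880), (Int.negSucc 5, 12610), (Int.ofNat 6, 196930), (Int.ofNat 6, 8515), (Int.negSucc 5, 131395), (Int.negSucc 5, 205120), (Int.ofNat 6, 143680), (Int.negSucc 5, 13330), (Int.ofNat 6, 197650), (Int.ofNat 6, 9235), (Int.negSucc 5, 132115), (Int.negSucc 5, 205840), (Int.ofNat 6, 144400)]

noncomputable def P7 (X : Type*) [Inhabited X] [Fintype X] : ((Fin 5 → X) → ℝ) → (Fin 5 → X) → ℝ :=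
  fun f => gaF (b := 5) R7 (gaF C7 f)

theorem gr7 : grpB 5 R7 gs7 gp7 274960 tl7 = true := by
  decide +kernel

theorem gy7 : yB 5 R7 C7 e7 pl7 dg7 = true := by
  decide +kernel

theorem pg7 (X : Type*) [Inhabited X] [Fintype X] : IsOp X (P7 X) dg7 :=
  isOp_young R7 C7 gs7 gp7 274960 tl7 gr7 e7 pl7 dg7 gy7

def dg8 : List (ℤ × ℕ) := [(Int.ofNat 48, 274960), (Int.ofNat 16, 213520), (Int.ofNat 16, 271120), (Int.negSucc 15, 148240), (Int.negSucc 15, 205840), (Int.negSucc 47, 144400), (Int.ofNat 16, 274720), (Int.ofNat 16, 213280), (Int.negSucc 15, 267040), (Int.negSucc 15, 82720), (Int.ofNat 16, 201760), (Int.negSucc 15, 78880), (Int.negSucc 15, 270640), (Int.ofNat 16, 147760), (Int.negSucc 47, 266800), (Int.negSucc 15, 82480), (Int.ofNat 48, 136240), (Int.ofNat 16, 74800), (Int.negSucc 15, 205120), (Int.negSucc 15, 143680), (Int.negSucc 15, 201280), (Int.ofNat 16, 78400), (Int.ofNat 16, 136000), (Int.ofNat 16, 74560), (Int.ofNat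 16, 274945), (Int.ofNat 16, 213505), (Int.ofNat 16, 271105), (Int.negSucc 15, 148225), (Int.negSucc 15, 205825), (Int.negSucc 15, 144385), (Int.negSucc 15, 274465), (Int.negSucc 15, 213025), (Int.negSucc 15, 262945), (Int.ofNat 16, 17185), (Int.ofNat 16, 197665), (Int.ofNat 16, 13345), (Int.ofNat 16, 270385), (Int.negSucc 15, 147505), (Int.negSucc 15, 262705), (Int.ofNat 16, 16945), (Int.ofNat 16, 132145), (Int.negSucc 15, 9265), (Int.ofNat 16, 204865), (Int.ofNat 16, 143425), (Int.negSucc 15, 197185), (Int.negSucc 15, 12865), (Int.ofNat 16, 131905), (Int.negSucc 15, 9025), (Int.negSucc 15, 274690), (Int.negSucc 15, 213250), (Int.ofNat 16, 267010), (Int.ofNat 16, 82690), (Int.negSucc 15, 201730), (Int.ofNat 16, 78850), (Int.negSucc 47, 274450), (Int.negSucc 15, 213010), (Int.negSucc 15, 262930), (Int.ofNat 16, 17170), (Int.ofNat 16, 197650), (Int.ofNat 48, 13330), (Int.ofNat 48, 266290), (Int.ofNat 16, 81970), (Int.ofNat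 16, 262450), (Int.negSucc 15, 16690), (Int.negSucc 15, 66610), (Int.negSucc 47, 5170), (Int.ofNat 16, 200770), (Int.negSucc 15, 77890), (Int.ofNat 16, 196930), (Int.ofNat 16, 12610), (Int.negSucc 15, 66370), (Int.negSucc 15, 4930), (Int.negSucc 15, 270595), (Int.ofNat 16, 147715), (Int.negSucc 15, 266755), (Int.negSucc 15, 82435), (Int.ofNat 16, 136195), (Int.ofNat 16, 74755), (Int.negSucc 15, 270355), (Int.ofNat 16, 147475), (Int.ofNat 16, 262675), (Int.negSucc 15, 16915), (Int.negSucc 15, 132115), (Int.ofNat 16, 9235), (Int.ofNat 16, 266275), (Int.ofNat 16, 81955), (Int.ofNat 16, 262435), (Int.negSucc 15, 16675), (Int.negSucc 15, 66595), (Int.negSucc 15, 5155), (Int.negSucc 15, 135235), (Int.negSucc 15, 73795), (Int.negSucc 15, 131395), (Int.ofNat 16, 8515), (Int.ofNat 16, 66115), (Int.ofNat 16, 4675), (Int.ofNat 16, 205060), (Int.ofNat 16, 143620), (Int.ofNat 16, 201220), (Int.negSucc 15, 78340), (Int.negSucc 15, 135940),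 (Int.negSucc 15, 74500), (Int.ofNat 16, 204820), (Int.ofNat 48, 143380), (Int.negSucc 15, 197140), (Int.negSucc 47, 12820), (Int.ofNat 16, 131860), (Int.negSucc 15, 8980), (Int.negSucc 15, 200740), (Int.ofNat 16, 77860), (Int.negSucc 15, 196900), (Int.negSucc 15, 12580), (Int.ofNat 16, 66340), (Int.ofNat 16, 4900), (Int.negSucc 47, 135220), (Int.negSucc 15, 73780), (Int.negSucc 15, 131380), (Int.ofNat 16, 8500), (Int.ofNat 16, 66100), (Int.ofNat 48, 4660)]

def R8 : GA := [(Int.ofNat 1, 274960, 274960), (Int.ofNat 1, 274945, 274945), (Int.ofNat 1, 271120, 271120), (Int.ofNat 1, 271105, 271105)]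

def C8 : GA := [(Int.ofNat 1, 274960, 274960), (Int.negSucc 0, 266800, 266800), (Int.negSucc 0, 144400, 144400), (Int.ofNat 1, 136240, 136240), (Int.negSucc 0, 274450, 274450), (Int.ofNat 1, 266290, 266290), (Int.ofNat 1, 13330, 143380), (Int.negSucc 0, 5170, 135220), (Int.ofNat 1, 143380, 13330), (Int.negSucc 0, 135220, 5170), (Int.negSucc 0, 12820, 12820), (Int.ofNat 1, 4660, 4660)]

def gs8 : List (ℤ × ℕ) := [(1, 274960), (1, 274945), (1, 271120)]

def gp8 : List (List (ℤ × ℕ)) := [[(Int.ofNat 1, 274960), (Int.ofNat 1, 274945), (Int.ofNat 1, 271120), (Int.ofNat 1, 271105)],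
  [(Int.ofNat 1, 274945), (Int.ofNat 1, 274960), (Int.ofNat 1, 271105), (Int.ofNat 1, 271120)],
  [(Int.ofNat 1, 271120), (Int.ofNat 1, 271105), (Int.ofNat 1, 274960), (Int.ofNat 1, 274945)]]

def tl8 : List (ℕ × ℕ) := [(0, 0), (1, 0), (2, 1), (2, 1)]

def e8 : List (ℤ × ℕ) := [(Int.ofNat 1, 274960), (Int.negSucc 0, 266800), (Int.negSucc 0, 144400), (Int.ofNat 1, 136240), (Int.negSucc 0, 274450), (Int.ofNat 1, 266290), (Int.ofNat 1, 13330), (Int.negSucc 0, 5170), (Int.ofNat 1, 143380), (Int.negSucc 0, 135220), (Int.negSucc 0, 12820), (Int.ofNat 1, 4660), (Int.ofNat 1, 274945), (Int.negSucc 0, 262705), (Int.negSucc 0, 144385), (Int.ofNat 1, 132145), (Int.negSucc 0, 274690), (Int.ofNat 1, 262450), (Int.ofNat 1, 78850), (Int.negSucc 0, 66610), (Int.ofNat 1, 143620), (Int.negSucc 0, 131380), (Int.negSucc 0, 78340), (Int.ofNat 1, 66100), (Int.ofNat 1, 271120), (Int.negSucc 0, 267040), (Int.negSucc 0, 205840), (Int.ofNat 1, 201760),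 (Int.negSucc 0, 270355), (Int.ofNat 1, 266275), (Int.ofNat 1, 9235), (Int.negSucc 0, 5155), (Int.ofNat 1, 204820), (Int.negSucc 0, 200740), (Int.negSucc 0, 8980), (Int.ofNat 1, 4900), (Int.ofNat 1, 271105), (Int.negSucc 0, 262945), (Int.negSucc 0, 205825), (Int.ofNat 1, 197665), (Int.negSucc 0, 270595), (Int.ofNat 1, 262435), (Int.ofNat 1, 74755), (Int.negSucc 0, 66595), (Int.ofNat 1, 205060), (Int.negSucc 0, 196900), (Int.negSucc 0, 74500), (Int.ofNat 1, 66340)]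

def pl8 : List (ℤ × ℕ) := [(Int.ofNat 4, 274960), (Int.negSucc 3, 266800), (Int.negSucc 3, 144400), (Int.ofNat 4, 136240), (Int.negSucc 3, 274450), (Int.ofNat 4, 266290), (Int.ofNat 4, 13330), (Int.negSucc 3, 5170), (Int.ofNat 4, 143380), (Int.negSucc 3, 135220), (Int.negSucc 3, 12820), (Int.ofNat 4, 4660), (Int.ofNat 4, 274945), (Int.negSucc 3, 262705), (Int.negSucc 3, 144385), (Int.ofNat 4, 132145), (Int.negSucc 3, 274690), (Int.ofNat 4, 262450), (Int.ofNat 4, 78850), (Int.negSucc 3, 66610), (Int.ofNat 4, 143620), (Int.negSucc 3, 131380), (Int.negSucc 3, 78340), (Int.ofNat 4, 66100), (Int.ofNat 4, 271120), (Int.negSucc 3, 267040), (Int.negSucc 3, 205840), (Int.ofNat 4, 201760), (Int.negSucc 3, 270355), (Int.ofNat 4, 266275), (Int.ofNat 4, 9235), (Int.negSucc 3, 5155), (Int.ofNat 4, 204820), (Int.negSucc 3, 200740), (Int.negSucc 3, 8980), (Int.ofNat 4, 4900), (Int.ofNat 4, 271105), (Int.negSucc 3, 262945), (Int.negSucc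 3, 205825), (Int.ofNat 4, 197665), (Int.negSucc 3, 270595), (Int.ofNat 4, 262435), (Int.ofNat 4, 74755), (Int.negSucc 3, 66595), (Int.ofNat 4, 205060), (Int.negSucc 3, 196900), (Int.negSucc 3, 74500), (Int.ofNat 4, 66340), (Int.negSucc 3, 266800), (Int.ofNat 4, 274960), (Int.ofNat 4, 136240), (Int.negSucc 3, 144400), (Int.ofNat 4, 266290), (Int.negSucc 3, 274450), (Int.negSucc 3, 5170), (Int.ofNat 4, 13330), (Int.negSucc 3, 135220), (Int.ofNat 4, 143380), (Int.ofNat 4, 4660), (Int.negSucc 3, 12820), (Int.negSucc 3, 266755), (Int.ofNat 4, 262675), (Int.ofNat 4, 136195), (Int.negSucc 3, 132115), (Int.ofNat 4, 267010), (Int.negSucc 3, 262930), (Int.negSucc 3, 201730), (Int.ofNat 4, 197650), (Int.negSucc 3, 135940), (Int.ofNat 4, 131860), (Int.ofNat 4, 201220), (Int.negSucc 3, 197140), (Int.negSucc 3, 270640), (Int.ofNat 4, 274720), (Int.ofNat 4, 74800), (Int.negSucc 3, 78880), (Int.ofNat 4, 270385), (Int.negSucc 3, 274465),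 (Int.negSucc 3, 9265), (Int.ofNat 4, 13345), (Int.negSucc 3, 73780), (Int.ofNat 4, 77860), (Int.ofNat 4, 8500), (Int.negSucc 3, 12580), (Int.negSucc 3, 270595), (Int.ofNat 4, 262435), (Int.ofNat 4, 74755), (Int.negSucc 3, 66595), (Int.ofNat 4, 271105), (Int.negSucc 3, 262945), (Int.negSucc 3, 205825), (Int.ofNat 4, 197665), (Int.negSucc 3, 74500), (Int.ofNat 4, 66340), (Int.ofNat 4, 205060), (Int.negSucc 3, 196900), (Int.negSucc 3, 144400), (Int.ofNat 4, 136240), (Int.ofNat 4, 274960), (Int.negSucc 3, 266800), (Int.ofNat 4, 143380), (Int.negSucc 3, 135220), (Int.negSucc 3, 12820), (Int.ofNat 4, 4660), (Int.negSucc 3, 274450), (Int.ofNat 4, 266290), (Int.ofNat 4, 13330), (Int.negSucc 3, 5170), (Int.negSucc 3, 144385), (Int.ofNat 4, 132145), (Int.ofNat 4, 274945), (Int.negSucc 3, 262705), (Int.ofNat 4, 143620), (Int.negSucc 3, 131380), (Int.negSucc 3, 78340), (Int.ofNat 4, 66100), (Int.negSucc 3, 274690), (Int.ofNat 4, 262450),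 (Int.ofNat 4, 78850), (Int.negSucc 3, 66610), (Int.negSucc 3, 148240), (Int.ofNat 4, 136000), (Int.ofNat 4, 213520), (Int.negSucc 3, 201280), (Int.ofNat 4, 147475), (Int.negSucc 3, 135235), (Int.negSucc 3, 16915), (Int.ofNat 4, 4675), (Int.negSucc 3, 213010), (Int.ofNat 4, 200770), (Int.ofNat 4, 17170), (Int.negSucc 3, 4930), (Int.negSucc 3, 148225), (Int.ofNat 4, 131905), (Int.ofNat 4, 213505), (Int.negSucc 3, 197185), (Int.ofNat 4, 147715), (Int.negSucc 3, 131395), (Int.negSucc 3, 82435), (Int.ofNat 4, 66115), (Int.negSucc 3, 213250), (Int.ofNat 4, 196930), (Int.ofNat 4, 82690), (Int.negSucc 3, 66370), (Int.ofNat 4, 136240), (Int.negSucc 3, 144400), (Int.negSucc 3, 266800), (Int.ofNat 4, 274960), (Int.negSucc 3, 135220), (Int.ofNat 4, 143380), (Int.ofNat 4, 4660), (Int.negSucc 3, 12820), (Int.ofNat 4, 266290), (Int.negSucc 3, 274450), (Int.negSucc 3, 5170), (Int.ofNat 4, 13330), (Int.ofNat 4, 136195), (Int.negSucc 3,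 132115), (Int.negSucc 3, 266755), (Int.ofNat 4, 262675), (Int.negSucc 3, 135940), (Int.ofNat 4, 131860), (Int.ofNat 4, 201220), (Int.negSucc 3, 197140), (Int.ofNat 4, 267010), (Int.negSucc 3, 262930), (Int.negSucc 3, 201730), (Int.ofNat 4, 197650), (Int.ofNat 4, 147760), (Int.negSucc 3, 143680), (Int.negSucc 3, 82480), (Int.ofNat 4, 78400), (Int.negSucc 3, 147505), (Int.ofNat 4, 143425), (Int.ofNat 4, 16945), (Int.negSucc 3, 12865), (Int.ofNat 4, 81970), (Int.negSucc 3, 77890), (Int.negSucc 3, 16690), (Int.ofNat 4, 12610), (Int.ofNat 4, 147715), (Int.negSucc 3, 131395), (Int.negSucc 3, 82435), (Int.ofNat 4, 66115), (Int.negSucc 3, 148225), (Int.ofNat 4, 131905), (Int.ofNat 4, 213505), (Int.negSucc 3, 197185), (Int.ofNat 4, 82690), (Int.negSucc 3, 66370), (Int.negSucc 3, 213250), (Int.ofNat 4, 196930), (Int.negSucc 3, 274450), (Int.ofNat 4, 266290), (Int.ofNat 4, 13330), (Int.negSucc 3, 5170), (Int.ofNat 4, 274960), (Int.negSucc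 3, 266800), (Int.negSucc 3, 144400), (Int.ofNat 4, 136240), (Int.negSucc 3, 12820), (Int.ofNat 4, 4660), (Int.ofNat 4, 143380), (Int.negSucc 3, 135220), (Int.negSucc 3, 274465), (Int.ofNat 4, 270385), (Int.ofNat 4, 13345), (Int.negSucc 3, 9265), (Int.ofNat 4, 274720), (Int.negSucc 3, 270640), (Int.negSucc 3, 78880), (Int.ofNat 4, 74800), (Int.negSucc 3, 12580), (Int.ofNat 4, 8500), (Int.ofNat 4, 77860), (Int.negSucc 3, 73780), (Int.negSucc 3, 262930), (Int.ofNat 4, 267010), (Int.ofNat 4, 197650), (Int.negSucc 3, 201730), (Int.ofNat 4, 262675), (Int.negSucc 3, 266755), (Int.negSucc 3, 132115), (Int.ofNat 4, 136195), (Int.negSucc 3, 197140), (Int.ofNat 4, 201220), (Int.ofNat 4, 131860), (Int.negSucc 3, 135940), (Int.negSucc 3, 262945), (Int.ofNat 4, 271105), (Int.ofNat 4, 197665), (Int.negSucc 3, 205825), (Int.ofNat 4, 262435), (Int.negSucc 3, 270595), (Int.negSucc 3, 66595), (Int.ofNat 4, 74755), (Int.negSucc 3, 196900),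 (Int.ofNat 4, 205060), (Int.ofNat 4, 66340), (Int.negSucc 3, 74500), (Int.ofNat 4, 266290), (Int.negSucc 3, 274450), (Int.negSucc 3, 5170), (Int.ofNat 4, 13330), (Int.negSucc 3, 266800), (Int.ofNat 4, 274960), (Int.ofNat 4, 136240), (Int.negSucc 3, 144400), (Int.ofNat 4, 4660), (Int.negSucc 3, 12820), (Int.negSucc 3, 135220), (Int.ofNat 4, 143380), (Int.ofNat 4, 266275), (Int.negSucc 3, 270355), (Int.negSucc 3, 5155), (Int.ofNat 4, 9235), (Int.negSucc 3, 267040), (Int.ofNat 4, 271120), (Int.ofNat 4, 201760), (Int.negSucc 3, 205840), (Int.ofNat 4, 4900), (Int.negSucc 3, 8980), (Int.negSucc 3, 200740), (Int.ofNat 4, 204820), (Int.ofNat 4, 262450), (Int.negSucc 3, 274690), (Int.negSucc 3, 66610), (Int.ofNat 4, 78850), (Int.negSucc 3, 262705), (Int.ofNat 4, 274945), (Int.ofNat 4, 132145), (Int.negSucc 3, 144385), (Int.ofNat 4, 66100), (Int.negSucc 3, 78340), (Int.negSucc 3, 131380), (Int.ofNat 4, 143620), (Int.ofNat 4, 262435),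 (Int.negSucc 3, 270595), (Int.negSucc 3, 66595), (Int.ofNat 4, 74755), (Int.negSucc 3, 262945), (Int.ofNat 4, 271105), (Int.ofNat 4, 197665), (Int.negSucc 3, 205825), (Int.ofNat 4, 66340), (Int.negSucc 3, 74500), (Int.negSucc 3, 196900), (Int.ofNat 4, 205060), (Int.ofNat 4, 143380), (Int.negSucc 3, 135220), (Int.negSucc 3, 12820), (Int.ofNat 4, 4660), (Int.negSucc 3, 144400), (Int.ofNat 4, 136240), (Int.ofNat 4, 274960), (Int.negSucc 3, 266800), (Int.ofNat 4, 13330), (Int.negSucc 3, 5170), (Int.negSucc 3, 274450), (Int.ofNat 4, 266290), (Int.ofNat 4, 143425), (Int.negSucc 3, 147505), (Int.negSucc 3, 12865), (Int.ofNat 4, 16945), (Int.negSucc 3, 143680), (Int.ofNat 4, 147760), (Int.ofNat 4, 78400), (Int.negSucc 3, 82480), (Int.ofNat 4, 12610), (Int.negSucc 3, 16690), (Int.negSucc 3, 77890), (Int.ofNat 4, 81970), (Int.ofNat 4, 131860), (Int.negSucc 3, 135940), (Int.negSucc 3, 197140), (Int.ofNat 4, 201220), (Int.negSucc 3,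 132115), (Int.ofNat 4, 136195), (Int.ofNat 4, 262675), (Int.negSucc 3, 266755), (Int.ofNat 4, 197650), (Int.negSucc 3, 201730), (Int.negSucc 3, 262930), (Int.ofNat 4, 267010), (Int.ofNat 4, 131905), (Int.negSucc 3, 148225), (Int.negSucc 3, 197185), (Int.ofNat 4, 213505), (Int.negSucc 3, 131395), (Int.ofNat 4, 147715), (Int.ofNat 4, 66115), (Int.negSucc 3, 82435), (Int.ofNat 4, 196930), (Int.negSucc 3, 213250), (Int.negSucc 3, 66370), (Int.ofNat 4, 82690), (Int.negSucc 3, 135220), (Int.ofNat 4, 143380), (Int.ofNat 4, 4660), (Int.negSucc 3, 12820), (Int.ofNat 4, 136240), (Int.negSucc 3, 144400), (Int.negSucc 3, 266800), (Int.ofNat 4, 274960), (Int.negSucc 3, 5170), (Int.ofNat 4, 13330), (Int.ofNat 4, 266290), (Int.negSucc 3, 274450), (Int.negSucc 3, 135235), (Int.ofNat 4, 147475), (Int.ofNat 4, 4675), (Int.negSucc 3, 16915), (Int.ofNat 4, 136000), (Int.negSucc 3, 148240), (Int.negSucc 3, 201280), (Int.ofNat 4, 213520), (Int.negSucc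 3, 4930), (Int.ofNat 4, 17170), (Int.ofNat 4, 200770), (Int.negSucc 3, 213010), (Int.negSucc 3, 131380), (Int.ofNat 4, 143620), (Int.ofNat 4, 66100), (Int.negSucc 3, 78340), (Int.ofNat 4, 132145), (Int.negSucc 3, 144385), (Int.negSucc 3, 262705), (Int.ofNat 4, 274945), (Int.negSucc 3, 66610), (Int.ofNat 4, 78850), (Int.ofNat 4, 262450), (Int.negSucc 3, 274690), (Int.negSucc 3, 131395), (Int.ofNat 4, 147715), (Int.ofNat 4, 66115), (Int.negSucc 3, 82435), (Int.ofNat 4, 131905), (Int.negSucc 3, 148225), (Int.negSucc 3, 197185), (Int.ofNat 4, 213505), (Int.negSucc 3, 66370), (Int.ofNat 4, 82690), (Int.ofNat 4, 196930), (Int.negSucc 3, 213250), (Int.ofNat 4, 13330), (Int.negSucc 3, 5170), (Int.negSucc 3, 274450), (Int.ofNat 4, 266290), (Int.negSucc 3, 12820), (Int.ofNat 4, 4660), (Int.ofNat 4, 143380), (Int.negSucc 3, 135220), (Int.ofNat 4, 274960), (Int.negSucc 3, 266800), (Int.negSucc 3, 144400), (Int.ofNat 4, 136240), (Int.ofNat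 4, 13345), (Int.negSucc 3, 9265), (Int.negSucc 3, 274465), (Int.ofNat 4, 270385), (Int.negSucc 3, 12580), (Int.ofNat 4, 8500), (Int.ofNat 4, 77860), (Int.negSucc 3, 73780), (Int.ofNat 4, 274720), (Int.negSucc 3, 270640), (Int.negSucc 3, 78880), (Int.ofNat 4, 74800), (Int.ofNat 4, 17170), (Int.negSucc 3, 4930), (Int.negSucc 3, 213010), (Int.ofNat 4, 200770), (Int.negSucc 3, 16915), (Int.ofNat 4, 4675), (Int.ofNat 4, 147475), (Int.negSucc 3, 135235), (Int.ofNat 4, 213520), (Int.negSucc 3, 201280), (Int.negSucc 3, 148240), (Int.ofNat 4, 136000), (Int.ofNat 4, 17185), (Int.negSucc 3, 9025), (Int.negSucc 3, 213025), (Int.ofNat 4, 204865), (Int.negSucc 3, 16675), (Int.ofNat 4, 8515), (Int.ofNat 4, 81955), (Int.negSucc 3, 73795), (Int.ofNat 4, 213280), (Int.negSucc 3, 205120), (Int.negSucc 3, 82720), (Int.ofNat 4, 74560), (Int.negSucc 3, 5170), (Int.ofNat 4, 13330), (Int.ofNat 4, 266290), (Int.negSucc 3, 274450), (Int.ofNat 4,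 4660), (Int.negSucc 3, 12820), (Int.negSucc 3, 135220), (Int.ofNat 4, 143380), (Int.negSucc 3, 266800), (Int.ofNat 4, 274960), (Int.ofNat 4, 136240), (Int.negSucc 3, 144400), (Int.negSucc 3, 5155), (Int.ofNat 4, 9235), (Int.ofNat 4, 266275), (Int.negSucc 3, 270355), (Int.ofNat 4, 4900), (Int.negSucc 3, 8980), (Int.negSucc 3, 200740), (Int.ofNat 4, 204820), (Int.negSucc 3, 267040), (Int.ofNat 4, 271120), (Int.ofNat 4, 201760), (Int.negSucc 3, 205840), (Int.negSucc 3, 16690), (Int.ofNat 4, 12610), (Int.ofNat 4, 81970), (Int.negSucc 3, 77890), (Int.ofNat 4, 16945), (Int.negSucc 3, 12865), (Int.negSucc 3, 147505), (Int.ofNat 4, 143425), (Int.negSucc 3, 82480), (Int.ofNat 4, 78400), (Int.ofNat 4, 147760), (Int.negSucc 3, 143680), (Int.negSucc 3, 16675), (Int.ofNat 4, 8515), (Int.ofNat 4, 81955), (Int.negSucc 3, 73795), (Int.ofNat 4, 17185), (Int.negSucc 3, 9025), (Int.negSucc 3, 213025), (Int.ofNat 4, 204865), (Int.negSucc 3,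 82720), (Int.ofNat 4, 74560), (Int.ofNat 4, 213280), (Int.negSucc 3, 205120), (Int.negSucc 3, 12820), (Int.ofNat 4, 4660), (Int.ofNat 4, 143380), (Int.negSucc 3, 135220), (Int.ofNat 4, 13330), (Int.negSucc 3, 5170), (Int.negSucc 3, 274450), (Int.ofNat 4, 266290), (Int.negSucc 3, 144400), (Int.ofNat 4, 136240), (Int.ofNat 4, 274960), (Int.negSucc 3, 266800), (Int.negSucc 3, 12865), (Int.ofNat 4, 16945), (Int.ofNat 4, 143425), (Int.negSucc 3, 147505), (Int.ofNat 4, 12610), (Int.negSucc 3, 16690), (Int.negSucc 3, 77890), (Int.ofNat 4, 81970), (Int.negSucc 3, 143680), (Int.ofNat 4, 147760), (Int.ofNat 4, 78400), (Int.negSucc 3, 82480), (Int.negSucc 3, 8980), (Int.ofNat 4, 4900), (Int.ofNat 4, 204820), (Int.negSucc 3, 200740), (Int.ofNat 4, 9235), (Int.negSucc 3, 5155), (Int.negSucc 3, 270355), (Int.ofNat 4, 266275), (Int.negSucc 3, 205840), (Int.ofNat 4, 201760), (Int.ofNat 4, 271120), (Int.negSucc 3, 267040), (Int.negSucc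 3, 9025), (Int.ofNat 4, 17185), (Int.ofNat 4, 204865), (Int.negSucc 3, 213025), (Int.ofNat 4, 8515), (Int.negSucc 3, 16675), (Int.negSucc 3, 73795), (Int.ofNat 4, 81955), (Int.negSucc 3, 205120), (Int.ofNat 4, 213280), (Int.ofNat 4, 74560), (Int.negSucc 3, 82720), (Int.ofNat 4, 4660), (Int.negSucc 3, 12820), (Int.negSucc 3, 135220), (Int.ofNat 4, 143380), (Int.negSucc 3, 5170), (Int.ofNat 4, 13330), (Int.ofNat 4, 266290), (Int.negSucc 3, 274450), (Int.ofNat 4, 136240), (Int.negSucc 3, 144400), (Int.negSucc 3, 266800), (Int.ofNat 4, 274960), (Int.ofNat 4, 4675), (Int.negSucc 3, 16915), (Int.negSucc 3, 135235), (Int.ofNat 4, 147475), (Int.negSucc 3, 4930), (Int.ofNat 4, 17170), (Int.ofNat 4, 200770), (Int.negSucc 3, 213010), (Int.ofNat 4, 136000), (Int.negSucc 3, 148240), (Int.negSucc 3, 201280), (Int.ofNat 4, 213520), (Int.ofNat 4, 8500), (Int.negSucc 3, 12580), (Int.negSucc 3, 73780), (Int.ofNat 4, 77860), (Int.negSucc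 3, 9265), (Int.ofNat 4, 13345), (Int.ofNat 4, 270385), (Int.negSucc 3, 274465), (Int.ofNat 4, 74800), (Int.negSucc 3, 78880), (Int.negSucc 3, 270640), (Int.ofNat 4, 274720), (Int.ofNat 4, 8515), (Int.negSucc 3, 16675), (Int.negSucc 3, 73795), (Int.ofNat 4, 81955), (Int.negSucc 3, 9025), (Int.ofNat 4, 17185), (Int.ofNat 4, 204865), (Int.negSucc 3, 213025), (Int.ofNat 4, 74560), (Int.negSucc 3, 82720), (Int.negSucc 3, 205120), (Int.ofNat 4, 213280)]

noncomputable def P8 (X : Type*) [Inhabited X] [Fintype X] : ((Fin 5 → X) → ℝ) → (Fin 5 → X) → ℝ :=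
  fun f => gaF (b := 5) R8 (gaF C8 f)

theorem gr8 : grpB 5 R8 gs8 gp8 274960 tl8 = true := by
  decide +kernel

theorem gy8 : yB 5 R8 C8 e8 pl8 dg8 = true := by
  decide +kernel

theorem pg8 (X : Type*) [Inhabited X] [Fintype X] : IsOp X (P8 X) dg8 :=
  isOp_young R8 C8 gs8 gp8 274960 tl8 gr8 e8 pl8 dg8 gy8

end YMBG
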