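import Pool.Agent.YM.BG.T5_0
import Pool.Agent.YM.BG.T5_1

set_option linter.unusedVariables false
set_option maxRecDepth 100000

open YMEng

namespace YMBG

section

variable {κ ι : Type*} [Fintype κ] [Fintype ι] [Inhabited κ] [Inhabited ι]

noncomputable def F5_0 (E : Env κ ι) : (Fin 1 → κ) → (Fin 5 → ι) → ℝ := op2 (P0 κ) (P5 ι) (fB E 1 5 m5_0)

noncomputable def F5_1 (E : Env κ ι) : (Fin 1 → κ) → (Fin 5 → ι) → ℝ := op2 (P0 κ) (P5 ι) (fB E 1 5 m5_1)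

noncomputable def F5_2 (E : Env κ ι) : (Fin 1 → κ) → (Fin 5 → ι) → ℝ := op2 (P0 κ) (P5 ι) (fB E 1 5 m5_2)

noncomputable def F5_3 (E : Env κ ι) : (Fin 1 → κ) → (Fin 5 → ι) → ℝ := op2 (P0 κ) (P5 ι) (fB E 1 5 m5_3)

noncomputable def F5_4 (E : Env κ ι) : (Fin 1 → κ) → (Fin 5 → ι) → ℝ := op2 (P0 κ) (P5 ι) (fB E 1 5 m5_4)

noncomputable def F5_5 (E : Env κ ι) : (Fin 1 → κ) → (Fin 5 → ι) → ℝ := op2 (P0 κ) (P5 ι) (fB E 1 5 m5_5)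

noncomputable def F5_6 (E : Env κ ι) : (Fin 1 → κ) → (Fin 5 → ι) → ℝ := op2 (P0 κ) (P5 ι) (fB E 1 5 m5_6)

noncomputable def F5_7 (E : Env κ ι) : (Fin 1 → κ) → (Fin 5 → ι) → ℝ := op2 (P0 κ) (P5 ι) (fB E 1 5 m5_7)

noncomputable def F5_8 (E : Env κ ι) : (Fin 1 → κ) → (Fin 5 → ι) → ℝ := op2 (P0 κ) (P5 ι) (fB E 1 5 m5_8)

noncomputable def F5_9 (E : Env κ ι) : (Fin 1 → κ) → (Fin 5 → ι) → ℝ := op2 (P0 κ) (P5 ι) (fB E 1 5 m5_9)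

noncomputable def F5_10 (E : Env κ ι) : (Fin 1 → κ) → (Fin 5 → ι) → ℝ := op2 (P0 κ) (P5 ι) (fB E 1 5 m5_10)

noncomputable def F5_11 (E : Env κ ι) : (Fin 1 → κ) → (Fin 5 → ι) → ℝ := op2 (P0 κ) (P5 ι) (fB E 1 5 m5_11)

noncomputable def F5_12 (E : Env κ ι) : (Fin 1 → κ) → (Fin 5 → ι) → ℝ := op2 (P0 κ) (P5 ι) (fB E 1 5 m5_12)

noncomputable def F5_13 (E : Env κ ι) : (Fin 1 → κ) → (Fin 5 → ι) → ℝ := op2 (P0 κ) (P5 ι) (fB E 1 5 m5_13)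

noncomputable def F5_14 (E : Env κ ι) : (Fin 1 → κ) → (Fin 5 → ι) → ℝ := op2 (P0 κ) (P5 ι) (fB E 1 5 m5_14)

noncomputable def F5_15 (E : Env κ ι) : (Fin 1 → κ) → (Fin 5 → ι) → ℝ := op2 (P0 κ) (P5 ι) (fB E 1 5 m5_15)

noncomputable def F5_16 (E : Env κ ι) : (Fin 1 → κ) → (Fin 5 → ι) → ℝ := op2 (P0 κ) (P5 ι) (fB E 1 5 m5_16)

noncomputable def F5_17 (E : Env κ ι) : (Fin 1 → κ) → (Fin 5 → ι) → ℝ := op2 (P0 κ) (P5 ι) (fB E 1 5 m5_17)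

def r5_0_0 : List (ℕ × ℤ) := [(54, 96), (55, -192), (64, -576), (65, -144), (86, 96), (132, 144), (137, 480), (139, 96)]

theorem h5_0_0 (E : Env κ ι) : ip (F5_0 E) (F5_0 E) = dotS (ek E lk5) r5_0_0 :=
  op_entryZ E lk5 1 5 _ _ _ _ (pg0 κ) (pg5 ι) m5_0 m5_0 l5_0 z5_0 w5_0 x5_0 (by decide) _ (chkS_sound E lk5 1 5 _ _ _ _ t5_0_0)

def r5_0_1 : List (ℕ × ℤ) := [(54, -48), (55, -144), (64, -192), (65, -48), (86, 192), (132, 48), (139, 192)]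

theorem h5_0_1 (E : Env κ ι) : ip (F5_0 E) (F5_1 E) = dotS (ek E lk5) r5_0_1 :=
  op_entryZ E lk5 1 5 _ _ _ _ (pg0 κ) (pg5 ι) m5_0 m5_1 l5_1 z5_1 w5_1 x5_1 (by decide) _ (chkS_sound E lk5 1 5 _ _ _ _ t5_0_1)

def r5_0_2 : List (ℕ × ℤ) := [(30, -144), (54, 96), (55, -192), (66, -192), (67, -192), (138, 288), (140, 144), (141, 96), (142, 96), (143, 192), (144, -192)]

theorem h5_0_2 (E : Env κ ι) : ip (F5_0 E) (F5_2 E) = dotS (ek E lk5) r5_0_2 :=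
  op_entryZ E lk5 1 5 _ _ _ _ (pg0 κ) (pg5 ι) m5_0 m5_2 l5_2 z5_2 w5_2 x5_2 (by decide) _ (chkS_sound E lk5 1 5 _ _ _ _ t5_0_2)

def r5_0_3 : List (ℕ × ℤ) := [(55, 96), (56, -96), (57, -96), (58, -144), (67, 384), (72, 96), (75, 96), (79, 144), (145, -480)]

theorem h5_0_3 (E : Env κ ι) : ip (F5_0 E) (F5_3 E) = dotS (ek E lk5) r5_0_3 :=
  op_entryZ E lk5 1 5 _ _ _ _ (pg0 κ) (pg5 ι) m5_0 m5_3 l5_3 z5_3 w5_3 x5_3 (by decide) _ (chkS_sound E lk5 1 5 _ _ _ _ t5_0_3)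

def r5_0_4 : List (ℕ × ℤ) := [(55, -96), (57, 96), (66, 96), (75, -96), (138, 96), (142, 288), (143, -96), (144, -288)]

theorem h5_0_4 (E : Env κ ι) : ip (F5_0 E) (F5_4 E) = dotS (ek E lk5) r5_0_4 :=
  op_entryZ E lk5 1 5 _ _ _ _ (pg0 κ) (pg5 ι) m5_0 m5_4 l5_4 z5_4 w5_4 x5_4 (by decide) _ (chkS_sound E lk5 1 5 _ _ _ _ t5_0_4)

def r5_0_5 : List (ℕ × ℤ) := [(30, -48), (54, -48), (55, -96), (57, -48), (66, 48), (67, 96), (75, 48), (138, 48), (140, 48), (141, 192), (142, 48), (143, -48), (144, -240)]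

theorem h5_0_5 (E : Env κ ι) : ip (F5_0 E) (F5_5 E) = dotS (ek E lk5) r5_0_5 :=
  op_entryZ E lk5 1 5 _ _ _ _ (pg0 κ) (pg5 ι) m5_0 m5_5 l5_5 z5_5 w5_5 x5_5 (by decide) _ (chkS_sound E lk5 1 5 _ _ _ _ t5_0_5)

def r5_0_6 : List (ℕ × ℤ) := [(55, -96), (56, -144), (57, 96), (58, -96), (67, 96), (72, 144), (75, -96), (79, 96), (86, 480), (145, -480)]

theorem h5_0_6 (E : Env κ ι) : ip (F5_0 E) (F5_6 E) = dotS (ek E lk5) r5_0_6 :=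
  op_entryZ E lk5 1 5 _ _ _ _ (pg0 κ) (pg5 ι) m5_0 m5_6 l5_6 z5_6 w5_6 x5_6 (by decide) _ (chkS_sound E lk5 1 5 _ _ _ _ t5_0_6)

def r5_0_7 : List (ℕ × ℤ) := [(58, 240), (75, -480), (79, -240), (146, 480)]

theorem h5_0_7 (E : Env κ ι) : ip (F5_0 E) (F5_7 E) = dotS (ek E lk5) r5_0_7 :=
  op_entryZ E lk5 1 5 _ _ _ _ (pg0 κ) (pg5 ι) m5_0 m5_7 l5_7 z5_7 w5_7 x5_7 (by decide) _ (chkS_sound E lk5 1 5 _ _ _ _ t5_0_7)

def r5_0_8 : List (ℕ × ℤ) := [(22, -144), (147, 144), (148, 288), (149, 96), (150, 96), (151, 96), (165, -288), (167, -192), (168, -96), (212, -192), (213, -96), (259, 192), (260, 96)]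

theorem h5_0_8 (E : Env κ ι) : ip (F5_0 E) (F5_8 E) = dotS (ek E lk5) r5_0_8 :=
  op_entryZ E lk5 1 5 _ _ _ _ (pg0 κ) (pg5 ι) m5_0 m5_8 l5_8 z5_8 w5_8 x5_8 (by decide) _ (chkS_sound E lk5 1 5 _ _ _ _ t5_0_8)

def r5_0_9 : List (ℕ × ℤ) := [(22, -96), (26, 48), (68, 192), (147, 48), (148, 48), (149, 48), (150, 144), (151, 192), (165, -240), (167, 96), (212, -240), (213, -144), (259, -48), (260, -48)]

theorem h5_0_9 (E : Env κ ι) : ip (F5_0 E) (F5_9 E) = dotS (ek E lk5) r5_0_9 :=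
  op_entryZ E lk5 1 5 _ _ _ _ (pg0 κ) (pg5 ι) m5_0 m5_9 l5_9 z5_9 w5_9 x5_9 (by decide) _ (chkS_sound E lk5 1 5 _ _ _ _ t5_0_9)

def r5_0_10 : List (ℕ × ℤ) := [(87, 480), (88, 240), (210, -240), (211, -480)]

theorem h5_0_10 (E : Env κ ι) : ip (F5_0 E) (F5_10 E) = dotS (ek E lk5) r5_0_10 :=
  op_entryZ E lk5 1 5 _ _ _ _ (pg0 κ) (pg5 ι) m5_0 m5_10 l5_10 z5_10 w5_10 x5_10 (by decide) _ (chkS_sound E lk5 1 5 _ _ _ _ t5_0_10)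

def r5_0_11 : List (ℕ × ℤ) := [(22, -144), (26, 144), (68, 96), (148, 96), (149, 288), (150, 96), (165, -192), (168, 96), (212, -288), (213, -96), (259, -96)]

theorem h5_0_11 (E : Env κ ι) : ip (F5_0 E) (F5_11 E) = dotS (ek E lk5) r5_0_11 :=
  op_entryZ E lk5 1 5 _ _ _ _ (pg0 κ) (pg5 ι) m5_0 m5_11 l5_11 z5_11 w5_11 x5_11 (by decide) _ (chkS_sound E lk5 1 5 _ _ _ _ t5_0_11)

def r5_0_12 : List (ℕ × ℤ) := [(59, 192), (60, 48), (87, -192), (88, -48), (133, 48), (134, -48), (153, 480), (167, -288), (168, -192)]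

theorem h5_0_12 (E : Env κ ι) : ip (F5_0 E) (F5_12 E) = dotS (ek E lk5) r5_0_12 :=
  op_entryZ E lk5 1 5 _ _ _ _ (pg0 κ) (pg5 ι) m5_0 m5_12 l5_12 z5_12 w5_12 x5_12 (by decide) _ (chkS_sound E lk5 1 5 _ _ _ _ t5_0_12)

def r5_0_13 : List (ℕ × ℤ) := [(59, 96), (60, 144), (87, -96), (88, -144), (133, -96), (134, 96), (155, 480), (167, -384), (168, -96)]

theorem h5_0_13 (E : Env κ ι) : ip (F5_0 E) (F5_13 E) = dotS (ek E lk5) r5_0_13 :=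
  op_entryZ E lk5 1 5 _ _ _ _ (pg0 κ) (pg5 ι) m5_0 m5_13 l5_13 z5_13 w5_13 x5_13 (by decide) _ (chkS_sound E lk5 1 5 _ _ _ _ t5_0_13)

def r5_0_14 : List (ℕ × ℤ) := [(31, -96), (41, -144), (47, -96), (61, 144), (62, 96), (135, 96), (157, 480), (169, -384), (170, -96)]

theorem h5_0_14 (E : Env κ ι) : ip (F5_0 E) (F5_14 E) = dotS (ek E lk5) r5_0_14 :=
  op_entryZ E lk5 1 5 _ _ _ _ (pg0 κ) (pg5 ι) m5_0 m5_14 l5_14 z5_14 w5_14 x5_14 (by decide) _ (chkS_sound E lk5 1 5 _ _ _ _ t5_0_14)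

def r5_0_15 : List (ℕ × ℤ) := [(31, 48), (41, -48), (47, -192), (61, 48), (62, 192), (70, 480), (135, -48), (169, -288), (170, -192)]

theorem h5_0_15 (E : Env κ ι) : ip (F5_0 E) (F5_15 E) = dotS (ek E lk5) r5_0_15 :=
  op_entryZ E lk5 1 5 _ _ _ _ (pg0 κ) (pg5 ι) m5_0 m5_15 l5_15 z5_15 w5_15 x5_15 (by decide) _ (chkS_sound E lk5 1 5 _ _ _ _ t5_0_15)

def r5_0_16 : List (ℕ × ℤ) := [(63, 240), (89, -240), (160, 480), (171, -480)]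

theorem h5_0_16 (E : Env κ ι) : ip (F5_0 E) (F5_16 E) = dotS (ek E lk5) r5_0_16 :=
  op_entryZ E lk5 1 5 _ _ _ _ (pg0 κ) (pg5 ι) m5_0 m5_16 l5_16 z5_16 w5_16 x5_16 (by decide) _ (chkS_sound E lk5 1 5 _ _ _ _ t5_0_16)

def r5_0_17 : List (ℕ × ℤ) := [(261, 240), (262, 480), (263, -240), (265, -480)]

theorem h5_0_17 (E : Env κ ι) : ip (F5_0 E) (F5_17 E) = dotS (ek E lk5) r5_0_17 :=
  op_entryZ E lk5 1 5 _ _ _ _ (pg0 κ) (pg5 ι) m5_0 m5_17 l5_17 z5_17 w5_17 x5_17 (by decide) _ (chkS_sound E lk5 1 5 _ _ _ _ t5_0_17)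

def r5_1_1 : List (ℕ × ℤ) := [(54, -96), (55, -288), (64, 96), (65, 144), (86, -96), (132, 96), (139, 144)]

theorem h5_1_1 (E : Env κ ι) : ip (F5_1 E) (F5_1 E) = dotS (ek E lk5) r5_1_1 :=
  op_entryZ E lk5 1 5 _ _ _ _ (pg0 κ) (pg5 ι) m5_1 m5_1 l5_1 z5_1 w5_1 x5_1 (by decide) _ (chkS_sound E lk5 1 5 _ _ _ _ t5_1_1)

def r5_1_2 : List (ℕ × ℤ) := [(30, -48), (54, -48), (55, -144), (66, -384), (67, 96), (138, 96), (140, 48), (141, 192), (142, 192), (143, -96), (144, 96)]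

theorem h5_1_2 (E : Env κ ι) : ip (F5_1 E) (F5_2 E) = dotS (ek E lk5) r5_1_2 :=
  op_entryZ E lk5 1 5 _ _ _ _ (pg0 κ) (pg5 ι) m5_1 m5_2 l5_2 z5_2 w5_2 x5_2 (by decide) _ (chkS_sound E lk5 1 5 _ _ _ _ t5_1_2)

def r5_1_3 : List (ℕ × ℤ) := [(55, -48), (56, 48), (57, -192), (58, -48), (67, 288), (72, 192), (75, -288), (79, 48), (145, 0)]

theorem h5_1_3 (E : Env κ ι) : ip (F5_1 E) (F5_3 E) = dotS (ek E lk5) r5_1_3 :=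
  op_entryZ E lk5 1 5 _ _ _ _ (pg0 κ) (pg5 ι) m5_1 m5_3 l5_3 z5_3 w5_3 x5_3 (by decide) _ (chkS_sound E lk5 1 5 _ _ _ _ t5_1_3)

def r5_1_4 : List (ℕ × ℤ) := [(55, 48), (57, -48), (66, -288), (67, 480), (75, -192), (138, 192), (142, 96), (143, -192), (144, -96)]

theorem h5_1_4 (E : Env κ ι) : ip (F5_1 E) (F5_4 E) = dotS (ek E lk5) r5_1_4 :=
  op_entryZ E lk5 1 5 _ _ _ _ (pg0 κ) (pg5 ι) m5_1 m5_4 l5_4 z5_4 w5_4 x5_4 (by decide) _ (chkS_sound E lk5 1 5 _ _ _ _ t5_1_4)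

def r5_1_5 : List (ℕ × ℤ) := [(30, 144), (54, -96), (55, -192), (57, -96), (66, -144), (67, 192), (75, -144), (138, 96), (140, 96), (141, 144), (142, 96), (143, -96), (144, 0)]

theorem h5_1_5 (E : Env κ ι) : ip (F5_1 E) (F5_5 E) = dotS (ek E lk5) r5_1_5 :=
  op_entryZ E lk5 1 5 _ _ _ _ (pg0 κ) (pg5 ι) m5_1 m5_5 l5_5 z5_5 w5_5 x5_5 (by decide) _ (chkS_sound E lk5 1 5 _ _ _ _ t5_1_5)

def r5_1_6 : List (ℕ × ℤ) := [(55, -192), (56, -48), (57, -48), (58, 48), (67, 192), (72, 48), (75, -192), (79, 192), (145, 0)]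

theorem h5_1_6 (E : Env κ ι) : ip (F5_1 E) (F5_6 E) = dotS (ek E lk5) r5_1_6 :=
  op_entryZ E lk5 1 5 _ _ _ _ (pg0 κ) (pg5 ι) m5_1 m5_6 l5_6 z5_6 w5_6 x5_6 (by decide) _ (chkS_sound E lk5 1 5 _ _ _ _ t5_1_6)

def r5_1_7 : List (ℕ × ℤ) := [(55, 240), (67, 480), (75, -480), (79, -240)]

theorem h5_1_7 (E : Env κ ι) : ip (F5_1 E) (F5_7 E) = dotS (ek E lk5) r5_1_7 :=
  op_entryZ E lk5 1 5 _ _ _ _ (pg0 κ) (pg5 ι) m5_1 m5_7 l5_7 z5_7 w5_7 x5_7 (by decide) _ (chkS_sound E lk5 1 5 _ _ _ _ t5_1_7)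

def r5_1_8 : List (ℕ × ℤ) := [(22, -48), (147, 48), (148, 96), (149, 192), (150, 192), (151, 192), (165, -96), (167, -384), (168, -192), (212, 96), (213, 48), (259, -96), (260, -48)]

theorem h5_1_8 (E : Env κ ι) : ip (F5_1 E) (F5_8 E) = dotS (ek E lk5) r5_1_8 :=
  op_entryZ E lk5 1 5 _ _ _ _ (pg0 κ) (pg5 ι) m5_1 m5_8 l5_8 z5_8 w5_8 x5_8 (by decide) _ (chkS_sound E lk5 1 5 _ _ _ _ t5_1_8)

def r5_1_9 : List (ℕ × ℤ) := [(22, 48), (26, 96), (68, 144), (147, 96), (148, 96), (149, 96), (150, 48), (151, 144), (167, -288), (168, -240), (213, -48), (259, -96), (260, -96)]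

theorem h5_1_9 (E : Env κ ι) : ip (F5_1 E) (F5_9 E) = dotS (ek E lk5) r5_1_9 :=
  op_entryZ E lk5 1 5 _ _ _ _ (pg0 κ) (pg5 ι) m5_1 m5_9 l5_9 z5_9 w5_9 x5_9 (by decide) _ (chkS_sound E lk5 1 5 _ _ _ _ t5_1_9)

def r5_1_10 : List (ℕ × ℤ) := [(87, 480), (88, 240), (167, -480), (168, -240)]

theorem h5_1_10 (E : Env κ ι) : ip (F5_1 E) (F5_10 E) = dotS (ek E lk5) r5_1_10 :=
  op_entryZ E lk5 1 5 _ _ _ _ (pg0 κ) (pg5 ι) m5_1 m5_10 l5_10 z5_10 w5_10 x5_10 (by decide) _ (chkS_sound E lk5 1 5 _ _ _ _ t5_1_10)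

def r5_1_11 : List (ℕ × ℤ) := [(22, -48), (26, 48), (68, 192), (148, 192), (149, 96), (150, 192), (165, 96), (167, -480), (168, -48), (212, -96), (213, 48), (259, -192), (260, 0)]

theorem h5_1_11 (E : Env κ ι) : ip (F5_1 E) (F5_11 E) = dotS (ek E lk5) r5_1_11 :=
  op_entryZ E lk5 1 5 _ _ _ _ (pg0 κ) (pg5 ι) m5_1 m5_11 l5_11 z5_11 w5_11 x5_11 (by decide) _ (chkS_sound E lk5 1 5 _ _ _ _ t5_1_11)

def r5_1_12 : List (ℕ × ℤ) := [(59, 144), (60, 96), (87, 96), (88, 144), (133, -144), (134, -96), (167, -96), (168, -144)]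

theorem h5_1_12 (E : Env κ ι) : ip (F5_1 E) (F5_12 E) = dotS (ek E lk5) r5_1_12 :=
  op_entryZ E lk5 1 5 _ _ _ _ (pg0 κ) (pg5 ι) m5_1 m5_12 l5_12 z5_12 w5_12 x5_12 (by decide) _ (chkS_sound E lk5 1 5 _ _ _ _ t5_1_12)

def r5_1_13 : List (ℕ × ℤ) := [(59, 192), (60, 48), (87, 288), (88, -48), (133, -192), (134, -48), (167, -288), (168, 48)]

theorem h5_1_13 (E : Env κ ι) : ip (F5_1 E) (F5_13 E) = dotS (ek E lk5) r5_1_13 :=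
  op_entryZ E lk5 1 5 _ _ _ _ (pg0 κ) (pg5 ι) m5_1 m5_13 l5_13 z5_13 w5_13 x5_13 (by decide) _ (chkS_sound E lk5 1 5 _ _ _ _ t5_1_13)

def r5_1_14 : List (ℕ × ℤ) := [(31, -192), (41, -48), (47, 288), (61, 48), (62, 192), (135, -48), (169, -288), (170, 48)]

theorem h5_1_14 (E : Env κ ι) : ip (F5_1 E) (F5_14 E) = dotS (ek E lk5) r5_1_14 :=
  op_entryZ E lk5 1 5 _ _ _ _ (pg0 κ) (pg5 ι) m5_1 m5_14 l5_14 z5_14 w5_14 x5_14 (by decide) _ (chkS_sound E lk5 1 5 _ _ _ _ t5_1_14)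

def r5_1_15 : List (ℕ × ℤ) := [(31, -144), (41, 144), (47, 96), (61, 96), (62, 144), (135, -96), (169, -96), (170, -144)]

theorem h5_1_15 (E : Env κ ι) : ip (F5_1 E) (F5_15 E) = dotS (ek E lk5) r5_1_15 :=
  op_entryZ E lk5 1 5 _ _ _ _ (pg0 κ) (pg5 ι) m5_1 m5_15 l5_15 z5_15 w5_15 x5_15 (by decide) _ (chkS_sound E lk5 1 5 _ _ _ _ t5_1_15)

def r5_1_16 : List (ℕ × ℤ) := [(63, 240), (89, 240), (136, -240), (171, -240)]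

theorem h5_1_16 (E : Env κ ι) : ip (F5_1 E) (F5_16 E) = dotS (ek E lk5) r5_1_16 :=
  op_entryZ E lk5 1 5 _ _ _ _ (pg0 κ) (pg5 ι) m5_1 m5_16 l5_16 z5_16 w5_16 x5_16 (by decide) _ (chkS_sound E lk5 1 5 _ _ _ _ t5_1_16)

def r5_1_17 : List (ℕ × ℤ) := [(261, 240), (263, 240), (264, -240), (265, -240)]

theorem h5_1_17 (E : Env κ ι) : ip (F5_1 E) (F5_17 E) = dotS (ek E lk5) r5_1_17 :=
  op_entryZ E lk5 1 5 _ _ _ _ (pg0 κ) (pg5 ι) m5_1 m5_17 l5_17 z5_17 w5_17 x5_17 (by decide) _ (chkS_sound E lk5 1 5 _ _ _ _ t5_1_17)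

def r5_2_2 : List (ℕ × ℤ) := [(29, -96), (75, -192), (79, -96), (140, 96), (141, 96), (143, 96), (172, 48), (173, 48), (179, 96), (182, -384), (183, -192), (193, 192), (266, 192), (267, 96)]

theorem h5_2_2 (E : Env κ ι) : ip (F5_2 E) (F5_2 E) = dotS (ek E lk5) r5_2_2 :=
  op_entryZ E lk5 1 5 _ _ _ _ (pg0 κ) (pg5 ι) m5_2 m5_2 l5_2 z5_2 w5_2 x5_2 (by decide) _ (chkS_sound E lk5 1 5 _ _ _ _ t5_2_2)

def r5_2_3 : List (ℕ × ℤ) := [(30, 144), (57, -96), (58, -144), (66, 96), (142, 192), (146, -192), (172, 96), (174, -96), (179, 288), (181, -192), (182, 96), (183, 96), (194, -288)]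

theorem h5_2_3 (E : Env κ ι) : ip (F5_2 E) (F5_3 E) = dotS (ek E lk5) r5_2_3 :=
  op_entryZ E lk5 1 5 _ _ _ _ (pg0 κ) (pg5 ι) m5_2 m5_3 l5_3 z5_3 w5_3 x5_3 (by decide) _ (chkS_sound E lk5 1 5 _ _ _ _ t5_2_3)

def r5_2_4 : List (ℕ × ℤ) := [(29, -48), (75, -96), (79, -48), (140, 48), (141, 96), (172, 96), (173, -48), (179, 288), (180, -96), (181, 96), (182, -288), (193, -96), (266, 96)]

theorem h5_2_4 (E : Env κ ι) : ip (F5_2 E) (F5_4 E) = dotS (ek E lk5) r5_2_4 :=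
  op_entryZ E lk5 1 5 _ _ _ _ (pg0 κ) (pg5 ι) m5_2 m5_4 l5_4 z5_4 w5_4 x5_4 (by decide) _ (chkS_sound E lk5 1 5 _ _ _ _ t5_2_4)

def r5_2_5 : List (ℕ × ℤ) := [(29, -48), (75, -96), (79, -48), (140, 48), (141, 144), (143, -48), (172, 48), (179, 288), (180, 48), (181, -48), (182, -144), (183, -144), (193, -48), (266, 96), (267, -48)]

theorem h5_2_5 (E : Env κ ι) : ip (F5_2 E) (F5_5 E) = dotS (ek E lk5) r5_2_5 :=
  op_entryZ E lk5 1 5 _ _ _ _ (pg0 κ) (pg5 ι) m5_2 m5_5 l5_5 z5_5 w5_5 x5_5 (by decide) _ (chkS_sound E lk5 1 5 _ _ _ _ t5_2_5)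

def r5_2_6 : List (ℕ × ℤ) := [(30, 96), (57, 96), (58, -96), (66, -96), (142, 288), (146, -288), (172, 144), (174, -144), (179, 192), (181, 192), (182, -96), (183, -96), (194, -192)]

theorem h5_2_6 (E : Env κ ι) : ip (F5_2 E) (F5_6 E) = dotS (ek E lk5) r5_2_6 :=
  op_entryZ E lk5 1 5 _ _ _ _ (pg0 κ) (pg5 ι) m5_2 m5_6 l5_6 z5_6 w5_6 x5_6 (by decide) _ (chkS_sound E lk5 1 5 _ _ _ _ t5_2_6)

def r5_2_7 : List (ℕ × ℤ) := [(29, -240), (74, -480), (174, 240), (194, 480)]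

theorem h5_2_7 (E : Env κ ι) : ip (F5_2 E) (F5_7 E) = dotS (ek E lk5) r5_2_7 :=
  op_entryZ E lk5 1 5 _ _ _ _ (pg0 κ) (pg5 ι) m5_2 m5_7 l5_7 z5_7 w5_7 x5_7 (by decide) _ (chkS_sound E lk5 1 5 _ _ _ _ t5_2_7)

def r5_2_8 : List (ℕ × ℤ) := [(24, -96), (28, 48), (76, 96), (87, -96), (88, -48), (147, 48), (148, 96), (184, -48), (186, -96), (187, -192), (188, -96), (189, -96), (190, -96), (195, 96), (196, 192), (197, 192), (198, 96), (207, -96), (208, -96), (209, -96), (268, 96), (269, 96), (270, 96)]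

theorem h5_2_8 (E : Env κ ι) : ip (F5_2 E) (F5_8 E) = dotS (ek E lk5) r5_2_8 :=
  op_entryZ E lk5 1 5 _ _ _ _ (pg0 κ) (pg5 ι) m5_2 m5_8 l5_8 z5_8 w5_8 x5_8 (by decide) _ (chkS_sound E lk5 1 5 _ _ _ _ t5_2_8)

def r5_2_9 : List (ℕ × ℤ) := [(24, -48), (28, 48), (76, 144), (87, 48), (148, -48), (150, -48), (151, 48), (184, -48), (186, -144), (187, -96), (188, 96), (195, 48), (196, 96), (197, 240), (198, 144), (207, -144), (208, -96), (209, -144), (269, -48), (270, -48)]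

theorem h5_2_9 (E : Env κ ι) : ip (F5_2 E) (F5_9 E) = dotS (ek E lk5) r5_2_9 :=
  op_entryZ E lk5 1 5 _ _ _ _ (pg0 κ) (pg5 ι) m5_2 m5_9 l5_9 z5_9 w5_9 x5_9 (by decide) _ (chkS_sound E lk5 1 5 _ _ _ _ t5_2_9)

def r5_2_10 : List (ℕ × ℤ) := [(28, 240), (76, 480), (205, -240), (206, -480)]

theorem h5_2_10 (E : Env κ ι) : ip (F5_2 E) (F5_10 E) = dotS (ek E lk5) r5_2_10 :=
  op_entryZ E lk5 1 5 _ _ _ _ (pg0 κ) (pg5 ι) m5_2 m5_10 l5_10 z5_10 w5_10 x5_10 (by decide) _ (chkS_sound E lk5 1 5 _ _ _ _ t5_2_10)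

def r5_2_11 : List (ℕ × ℤ) := [(24, -48), (28, 96), (76, 96), (88, 48), (147, -48), (150, 96), (151, -96), (184, -96), (186, -96), (187, -96), (188, -96), (189, 96), (190, 96), (195, 48), (196, 96), (197, 288), (198, 96), (207, -96), (208, -192), (209, -96), (268, -96)]

theorem h5_2_11 (E : Env κ ι) : ip (F5_2 E) (F5_11 E) = dotS (ek E lk5) r5_2_11 :=
  op_entryZ E lk5 1 5 _ _ _ _ (pg0 κ) (pg5 ι) m5_2 m5_11 l5_11 z5_11 w5_11 x5_11 (by decide) _ (chkS_sound E lk5 1 5 _ _ _ _ t5_2_11)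

def r5_2_12 : List (ℕ × ℤ) := [(26, -48), (59, 192), (60, 48), (68, -192), (152, 96), (154, -96), (175, 48), (176, -48), (188, -96), (189, -192), (190, -192), (199, 384), (200, 96)]

theorem h5_2_12 (E : Env κ ι) : ip (F5_2 E) (F5_12 E) = dotS (ek E lk5) r5_2_12 :=
  op_entryZ E lk5 1 5 _ _ _ _ (pg0 κ) (pg5 ι) m5_2 m5_12 l5_12 z5_12 w5_12 x5_12 (by decide) _ (chkS_sound E lk5 1 5 _ _ _ _ t5_2_12)

def r5_2_13 : List (ℕ × ℤ) := [(26, -144), (59, 96), (60, 144), (68, -96), (152, -192), (154, 192), (175, -96), (176, 96), (188, -288), (189, -96), (190, -96), (199, 192), (200, 288)]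

theorem h5_2_13 (E : Env κ ι) : ip (F5_2 E) (F5_13 E) = dotS (ek E lk5) r5_2_13 :=
  op_entryZ E lk5 1 5 _ _ _ _ (pg0 κ) (pg5 ι) m5_2 m5_13 l5_13 z5_13 w5_13 x5_13 (by decide) _ (chkS_sound E lk5 1 5 _ _ _ _ t5_2_13)

def r5_2_14 : List (ℕ × ℤ) := [(41, -144), (48, -288), (49, -96), (50, 192), (51, -96), (52, -192), (61, 144), (62, 96), (85, -96), (156, 192), (177, 96), (191, -96), (201, 288)]

theorem h5_2_14 (E : Env κ ι) : ip (F5_2 E) (F5_14 E) = dotS (ek E lk5) r5_2_14 :=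
  op_entryZ E lk5 1 5 _ _ _ _ (pg0 κ) (pg5 ι) m5_2 m5_14 l5_14 z5_14 w5_14 x5_14 (by decide) _ (chkS_sound E lk5 1 5 _ _ _ _ t5_2_14)

def r5_2_15 : List (ℕ × ℤ) := [(41, -48), (48, -96), (49, -192), (50, 384), (51, -192), (52, 96), (61, 48), (62, 192), (85, 48), (156, -96), (177, -48), (191, -192), (201, 96)]

theorem h5_2_15 (E : Env κ ι) : ip (F5_2 E) (F5_15 E) = dotS (ek E lk5) r5_2_15 :=
  op_entryZ E lk5 1 5 _ _ _ _ (pg0 κ) (pg5 ι) m5_2 m5_15 l5_15 z5_15 w5_15 x5_15 (by decide) _ (chkS_sound E lk5 1 5 _ _ _ _ t5_2_15)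

def r5_2_16 : List (ℕ × ℤ) := [(63, 240), (69, -240), (192, -480), (203, 480)]

theorem h5_2_16 (E : Env κ ι) : ip (F5_2 E) (F5_16 E) = dotS (ek E lk5) r5_2_16 :=
  op_entryZ E lk5 1 5 _ _ _ _ (pg0 κ) (pg5 ι) m5_2 m5_16 l5_16 z5_16 w5_16 x5_16 (by decide) _ (chkS_sound E lk5 1 5 _ _ _ _ t5_2_16)

def r5_2_17 : List (ℕ × ℤ) := [(27, -240), (271, 480), (272, 240), (275, -480)]

theorem h5_2_17 (E : Env κ ι) : ip (F5_2 E) (F5_17 E) = dotS (ek E lk5) r5_2_17 :=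
  op_entryZ E lk5 1 5 _ _ _ _ (pg0 κ) (pg5 ι) m5_2 m5_17 l5_17 z5_17 w5_17 x5_17 (by decide) _ (chkS_sound E lk5 1 5 _ _ _ _ t5_2_17)

def r5_3_3 : List (ℕ × ℤ) := [(3, 144), (29, -192), (71, 96), (74, -384), (75, -192), (78, 96), (79, -144), (141, 480), (144, 96)]

theorem h5_3_3 (E : Env κ ι) : ip (F5_3 E) (F5_3 E) = dotS (ek E lk5) r5_3_3 :=
  op_entryZ E lk5 1 5 _ _ _ _ (pg0 κ) (pg5 ι) m5_3 m5_3 l5_3 z5_3 w5_3 x5_3 (by decide) _ (chkS_sound E lk5 1 5 _ _ _ _ t5_3_3)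

def r5_3_4 : List (ℕ × ℤ) := [(29, -144), (30, 144), (66, 96), (74, -96), (142, 384), (146, 96), (179, 192), (181, -384), (182, -192), (194, -96)]

theorem h5_3_4 (E : Env κ ι) : ip (F5_3 E) (F5_4 E) = dotS (ek E lk5) r5_3_4 :=
  op_entryZ E lk5 1 5 _ _ _ _ (pg0 κ) (pg5 ι) m5_3 m5_4 l5_4 z5_4 w5_4 x5_4 (by decide) _ (chkS_sound E lk5 1 5 _ _ _ _ t5_3_4)

def r5_3_5 : List (ℕ × ℤ) := [(29, -48), (30, 96), (57, -192), (58, -48), (66, -96), (74, -192), (142, 192), (146, 48), (172, 192), (174, 48), (179, 240), (181, -192), (182, 48), (183, -48), (194, -48)]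

theorem h5_3_5 (E : Env κ ι) : ip (F5_3 E) (F5_5 E) = dotS (ek E lk5) r5_3_5 :=
  op_entryZ E lk5 1 5 _ _ _ _ (pg0 κ) (pg5 ι) m5_3 m5_5 l5_5 z5_5 w5_5 x5_5 (by decide) _ (chkS_sound E lk5 1 5 _ _ _ _ t5_3_5)

def r5_3_6 : List (ℕ × ℤ) := [(3, 96), (29, -48), (71, -96), (74, -96), (75, -288), (78, 144), (79, -96), (141, 480), (144, -96)]

theorem h5_3_6 (E : Env κ ι) : ip (F5_3 E) (F5_6 E) = dotS (ek E lk5) r5_3_6 :=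
  op_entryZ E lk5 1 5 _ _ _ _ (pg0 κ) (pg5 ι) m5_3 m5_6 l5_6 z5_6 w5_6 x5_6 (by decide) _ (chkS_sound E lk5 1 5 _ _ _ _ t5_3_6)

def r5_3_7 : List (ℕ × ℤ) := [(30, 240), (66, 480), (78, -240), (180, -480)]

theorem h5_3_7 (E : Env κ ι) : ip (F5_3 E) (F5_7 E) = dotS (ek E lk5) r5_3_7 :=
  op_entryZ E lk5 1 5 _ _ _ _ (pg0 κ) (pg5 ι) m5_3 m5_7 l5_7 z5_7 w5_7 x5_7 (by decide) _ (chkS_sound E lk5 1 5 _ _ _ _ t5_3_7)

def r5_3_8 : List (ℕ × ℤ) := [(24, 144), (184, 96), (186, 192), (187, 288), (205, -96), (206, -192), (207, 96), (208, 96), (209, 96), (210, -144), (211, -288), (212, -192), (213, -96)]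

theorem h5_3_8 (E : Env κ ι) : ip (F5_3 E) (F5_8 E) = dotS (ek E lk5) r5_3_8 :=
  op_entryZ E lk5 1 5 _ _ _ _ (pg0 κ) (pg5 ι) m5_3 m5_8 l5_8 z5_8 w5_8 x5_8 (by decide) _ (chkS_sound E lk5 1 5 _ _ _ _ t5_3_8)

def r5_3_9 : List (ℕ × ℤ) := [(22, -48), (24, 96), (165, -192), (184, 192), (186, 192), (187, 240), (205, 48), (206, 48), (207, -48), (208, 48), (209, -96), (210, -48), (211, -48), (212, -192), (213, -192)]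

theorem h5_3_9 (E : Env κ ι) : ip (F5_3 E) (F5_9 E) = dotS (ek E lk5) r5_3_9 :=
  op_entryZ E lk5 1 5 _ _ _ _ (pg0 κ) (pg5 ι) m5_3 m5_9 l5_9 z5_9 w5_9 x5_9 (by decide) _ (chkS_sound E lk5 1 5 _ _ _ _ t5_3_9)

def r5_3_10 : List (ℕ × ℤ) := [(2, 240), (22, -240), (165, -480), (185, 480)]

theorem h5_3_10 (E : Env κ ι) : ip (F5_3 E) (F5_10 E) = dotS (ek E lk5) r5_3_10 :=
  op_entryZ E lk5 1 5 _ _ _ _ (pg0 κ) (pg5 ι) m5_3 m5_10 l5_10 z5_10 w5_10 x5_10 (by decide) _ (chkS_sound E lk5 1 5 _ _ _ _ t5_3_10)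

def r5_3_11 : List (ℕ × ℤ) := [(22, -144), (24, 144), (165, -96), (186, 384), (187, 192), (206, 96), (208, -192), (209, 96), (211, -96), (212, -384), (213, 0)]

theorem h5_3_11 (E : Env κ ι) : ip (F5_3 E) (F5_11 E) = dotS (ek E lk5) r5_3_11 :=
  op_entryZ E lk5 1 5 _ _ _ _ (pg0 κ) (pg5 ι) m5_3 m5_11 l5_11 z5_11 w5_11 x5_11 (by decide) _ (chkS_sound E lk5 1 5 _ _ _ _ t5_3_11)

def r5_3_12 : List (ℕ × ℤ) := [(11, -48), (28, 192), (73, -192), (76, 288), (80, -48), (81, 48), (87, 192), (88, 48), (149, -192), (150, -288), (151, 0)]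

theorem h5_3_12 (E : Env κ ι) : ip (F5_3 E) (F5_12 E) = dotS (ek E lk5) r5_3_12 :=
  op_entryZ E lk5 1 5 _ _ _ _ (pg0 κ) (pg5 ι) m5_3 m5_12 l5_12 z5_12 w5_12 x5_12 (by decide) _ (chkS_sound E lk5 1 5 _ _ _ _ t5_3_12)

def r5_3_13 : List (ℕ × ℤ) := [(11, -144), (28, 96), (73, -96), (76, 384), (80, 96), (81, -96), (87, 96), (88, 144), (149, -96), (150, 96), (151, -480)]

theorem h5_3_13 (E : Env κ ι) : ip (F5_3 E) (F5_13 E) = dotS (ek E lk5) r5_3_13 :=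
  op_entryZ E lk5 1 5 _ _ _ _ (pg0 κ) (pg5 ι) m5_3 m5_13 l5_13 z5_13 w5_13 x5_13 (by decide) _ (chkS_sound E lk5 1 5 _ _ _ _ t5_3_13)

def r5_3_14 : List (ℕ × ℤ) := [(41, 144), (42, -144), (44, -96), (45, 96), (46, 384), (51, 96), (82, -96), (83, 96), (158, -480)]

theorem h5_3_14 (E : Env κ ι) : ip (F5_3 E) (F5_14 E) = dotS (ek E lk5) r5_3_14 :=
  op_entryZ E lk5 1 5 _ _ _ _ (pg0 κ) (pg5 ι) m5_3 m5_14 l5_14 z5_14 w5_14 x5_14 (by decide) _ (chkS_sound E lk5 1 5 _ _ _ _ t5_3_14)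

def r5_3_15 : List (ℕ × ℤ) := [(41, 48), (42, -48), (44, -192), (45, 192), (46, 288), (51, -288), (82, 48), (83, -48), (158, 0)]

theorem h5_3_15 (E : Env κ ι) : ip (F5_3 E) (F5_15 E) = dotS (ek E lk5) r5_3_15 :=
  op_entryZ E lk5 1 5 _ _ _ _ (pg0 κ) (pg5 ι) m5_3 m5_15 l5_15 z5_15 w5_15 x5_15 (by decide) _ (chkS_sound E lk5 1 5 _ _ _ _ t5_3_15)

def r5_3_16 : List (ℕ × ℤ) := [(16, -240), (77, 480), (89, 240), (161, -480)]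

theorem h5_3_16 (E : Env κ ι) : ip (F5_3 E) (F5_16 E) = dotS (ek E lk5) r5_3_16 :=
  op_entryZ E lk5 1 5 _ _ _ _ (pg0 κ) (pg5 ι) m5_3 m5_16 l5_16 z5_16 w5_16 x5_16 (by decide) _ (chkS_sound E lk5 1 5 _ _ _ _ t5_3_16)

def r5_3_17 : List (ℕ × ℤ) := [(20, -240), (21, 240), (276, 480), (277, -480)]

theorem h5_3_17 (E : Env κ ι) : ip (F5_3 E) (F5_17 E) = dotS (ek E lk5) r5_3_17 :=
  op_entryZ E lk5 1 5 _ _ _ _ (pg0 κ) (pg5 ι) m5_3 m5_17 l5_17 z5_17 w5_17 x5_17 (by decide) _ (chkS_sound E lk5 1 5 _ _ _ _ t5_3_17)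

def r5_4_4 : List (ℕ × ℤ) := [(29, -96), (74, -192), (75, 192), (79, 48), (140, 96), (141, 192), (143, 96), (144, 96), (172, 48), (173, -96), (179, 288), (180, -192), (182, -384), (193, -192), (266, 96)]

theorem h5_4_4 (E : Env κ ι) : ip (F5_4 E) (F5_4 E) = dotS (ek E lk5) r5_4_4 :=
  op_entryZ E lk5 1 5 _ _ _ _ (pg0 κ) (pg5 ι) m5_4 m5_4 l5_4 z5_4 w5_4 x5_4 (by decide) _ (chkS_sound E lk5 1 5 _ _ _ _ t5_4_4)

def r5_4_5 : List (ℕ × ℤ) := [(29, -48), (74, -144), (75, -48), (140, 48), (141, 96), (143, -48), (144, -48), (172, 48), (173, -48), (179, 432), (180, -96), (181, -48), (182, -144), (193, -96), (266, 144)]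

theorem h5_4_5 (E : Env κ ι) : ip (F5_4 E) (F5_5 E) = dotS (ek E lk5) r5_4_5 :=
  op_entryZ E lk5 1 5 _ _ _ _ (pg0 κ) (pg5 ι) m5_4 m5_5 l5_5 z5_5 w5_5 x5_5 (by decide) _ (chkS_sound E lk5 1 5 _ _ _ _ t5_4_5)

def r5_4_6 : List (ℕ × ℤ) := [(29, -96), (30, 96), (66, -96), (74, 96), (142, 96), (146, -96), (179, 288), (181, -96), (182, -288), (194, 96)]

theorem h5_4_6 (E : Env κ ι) : ip (F5_4 E) (F5_6 E) = dotS (ek E lk5) r5_4_6 :=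
  op_entryZ E lk5 1 5 _ _ _ _ (pg0 κ) (pg5 ι) m5_4 m5_6 l5_6 z5_6 w5_6 x5_6 (by decide) _ (chkS_sound E lk5 1 5 _ _ _ _ t5_4_6)

def r5_4_7 : List (ℕ × ℤ) := [(29, -240), (30, 240), (66, 480), (74, -480)]

theorem h5_4_7 (E : Env κ ι) : ip (F5_4 E) (F5_7 E) = dotS (ek E lk5) r5_4_7 :=
  op_entryZ E lk5 1 5 _ _ _ _ (pg0 κ) (pg5 ι) m5_4 m5_7 l5_7 z5_7 w5_7 x5_7 (by decide) _ (chkS_sound E lk5 1 5 _ _ _ _ t5_4_7)

def r5_4_8 : List (ℕ × ℤ) := [(24, -48), (28, 96), (76, 192), (87, -192), (88, -96), (147, -48), (148, -96), (149, -96), (150, -96), (151, -96), (184, 48), (186, 96), (187, -96), (195, 48), (196, 96), (197, 192), (198, 96)]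

theorem h5_4_8 (E : Env κ ι) : ip (F5_4 E) (F5_8 E) = dotS (ek E lk5) r5_4_8 :=
  op_entryZ E lk5 1 5 _ _ _ _ (pg0 κ) (pg5 ι) m5_4 m5_8 l5_8 z5_8 w5_8 x5_8 (by decide) _ (chkS_sound E lk5 1 5 _ _ _ _ t5_4_8)

def r5_4_9 : List (ℕ × ℤ) := [(28, 48), (76, 96), (87, -96), (88, -48), (147, -48), (148, -144), (149, -144), (150, -144), (151, -96), (186, -48), (187, 48), (188, 96), (189, -96), (195, 48), (196, 144), (197, 288), (198, 96), (208, 48), (209, -48), (268, 48), (270, -48)]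

theorem h5_4_9 (E : Env κ ι) : ip (F5_4 E) (F5_9 E) = dotS (ek E lk5) r5_4_9 :=
  op_entryZ E lk5 1 5 _ _ _ _ (pg0 κ) (pg5 ι) m5_4 m5_9 l5_9 z5_9 w5_9 x5_9 (by decide) _ (chkS_sound E lk5 1 5 _ _ _ _ t5_4_9)

def r5_4_10 : List (ℕ × ℤ) := [(26, -240), (28, 240), (68, -480), (76, 480)]

theorem h5_4_10 (E : Env κ ι) : ip (F5_4 E) (F5_10 E) = dotS (ek E lk5) r5_4_10 :=
  op_entryZ E lk5 1 5 _ _ _ _ (pg0 κ) (pg5 ι) m5_4 m5_10 l5_10 z5_10 w5_10 x5_10 (by decide) _ (chkS_sound E lk5 1 5 _ _ _ _ t5_4_10)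

def r5_4_11 : List (ℕ × ℤ) := [(24, 48), (28, 48), (76, 96), (87, -96), (88, -48), (147, -96), (148, -96), (149, -96), (150, -96), (151, -192), (184, -48), (188, -192), (189, 192), (195, 96), (196, 96), (197, 192), (198, 192), (208, -96), (209, 96), (268, -96), (270, 96)]

theorem h5_4_11 (E : Env κ ι) : ip (F5_4 E) (F5_11 E) = dotS (ek E lk5) r5_4_11 :=
  op_entryZ E lk5 1 5 _ _ _ _ (pg0 κ) (pg5 ι) m5_4 m5_11 l5_11 z5_11 w5_11 x5_11 (by decide) _ (chkS_sound E lk5 1 5 _ _ _ _ t5_4_11)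

def r5_4_12 : List (ℕ × ℤ) := [(26, -48), (28, 48), (68, -192), (76, 192), (152, -288), (154, -192), (188, 96), (189, -96), (199, 288), (200, 192)]

theorem h5_4_12 (E : Env κ ι) : ip (F5_4 E) (F5_12 E) = dotS (ek E lk5) r5_4_12 :=
  op_entryZ E lk5 1 5 _ _ _ _ (pg0 κ) (pg5 ι) m5_4 m5_12 l5_12 z5_12 w5_12 x5_12 (by decide) _ (chkS_sound E lk5 1 5 _ _ _ _ t5_4_12)

def r5_4_13 : List (ℕ × ℤ) := [(26, -144), (28, 144), (68, -96), (76, 96), (152, -384), (154, -96), (188, -192), (189, 192), (199, 384), (200, 96)]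

theorem h5_4_13 (E : Env κ ι) : ip (F5_4 E) (F5_13 E) = dotS (ek E lk5) r5_4_13 :=
  op_entryZ E lk5 1 5 _ _ _ _ (pg0 κ) (pg5 ι) m5_4 m5_13 l5_13 z5_13 w5_13 x5_13 (by decide) _ (chkS_sound E lk5 1 5 _ _ _ _ t5_4_13)

def r5_4_14 : List (ℕ × ℤ) := [(41, -144), (45, 144), (46, 96), (48, -192), (49, 192), (50, 384), (51, -96), (52, -384), (156, -96), (201, 96)]

theorem h5_4_14 (E : Env κ ι) : ip (F5_4 E) (F5_14 E) = dotS (ek E lk5) r5_4_14 :=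
  op_entryZ E lk5 1 5 _ _ _ _ (pg0 κ) (pg5 ι) m5_4 m5_14 l5_14 z5_14 w5_14 x5_14 (by decide) _ (chkS_sound E lk5 1 5 _ _ _ _ t5_4_14)

def r5_4_15 : List (ℕ × ℤ) := [(41, -48), (45, 48), (46, 192), (48, 96), (49, -96), (50, 288), (51, -192), (52, -288), (156, -192), (201, 192)]

theorem h5_4_15 (E : Env κ ι) : ip (F5_4 E) (F5_15 E) = dotS (ek E lk5) r5_4_15 :=
  op_entryZ E lk5 1 5 _ _ _ _ (pg0 κ) (pg5 ι) m5_4 m5_15 l5_15 z5_15 w5_15 x5_15 (by decide) _ (chkS_sound E lk5 1 5 _ _ _ _ t5_4_15)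

def r5_4_16 : List (ℕ × ℤ) := [(69, -240), (77, 240), (159, -480), (203, 480)]

theorem h5_4_16 (E : Env κ ι) : ip (F5_4 E) (F5_16 E) = dotS (ek E lk5) r5_4_16 :=
  op_entryZ E lk5 1 5 _ _ _ _ (pg0 κ) (pg5 ι) m5_4 m5_16 l5_16 z5_16 w5_16 x5_16 (by decide) _ (chkS_sound E lk5 1 5 _ _ _ _ t5_4_16)

def r5_4_17 : List (ℕ × ℤ) := [(25, 240), (27, -240), (271, 480), (274, -480)]

theorem h5_4_17 (E : Env κ ι) : ip (F5_4 E) (F5_17 E) = dotS (ek E lk5) r5_4_17 :=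
  op_entryZ E lk5 1 5 _ _ _ _ (pg0 κ) (pg5 ι) m5_4 m5_17 l5_17 z5_17 w5_17 x5_17 (by decide) _ (chkS_sound E lk5 1 5 _ _ _ _ t5_4_17)

def r5_5_5 : List (ℕ × ℤ) := [(29, 48), (74, -48), (75, -48), (79, 24), (140, 72), (141, 120), (143, -72), (144, -96), (172, 72), (173, 24), (179, 360), (180, 24), (181, -72), (182, -96), (183, -288), (193, -48), (266, 120), (267, -96)]

theorem h5_5_5 (E : Env κ ι) : ip (F5_5 E) (F5_5 E) = dotS (ek E lk5) r5_5_5 :=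
  op_entryZ E lk5 1 5 _ _ _ _ (pg0 κ) (pg5 ι) m5_5 m5_5 l5_5 z5_5 w5_5 x5_5 (by decide) _ (chkS_sound E lk5 1 5 _ _ _ _ t5_5_5)

def r5_5_6 : List (ℕ × ℤ) := [(29, 48), (30, 144), (57, -48), (58, 48), (66, -144), (74, -48), (142, 48), (146, -48), (172, 48), (174, -48), (179, 240), (181, -48), (182, -48), (183, -192), (194, 48)]

theorem h5_5_6 (E : Env κ ι) : ip (F5_5 E) (F5_6 E) = dotS (ek E lk5) r5_5_6 :=
  op_entryZ E lk5 1 5 _ _ _ _ (pg0 κ) (pg5 ι) m5_5 m5_6 l5_6 z5_6 w5_6 x5_6 (by decide) _ (chkS_sound E lk5 1 5 _ _ _ _ t5_5_6)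

def r5_5_7 : List (ℕ × ℤ) := [(29, -240), (74, -480), (179, 240), (182, 240), (183, 240)]

theorem h5_5_7 (E : Env κ ι) : ip (F5_5 E) (F5_7 E) = dotS (ek E lk5) r5_5_7 :=
  op_entryZ E lk5 1 5 _ _ _ _ (pg0 κ) (pg5 ι) m5_5 m5_7 l5_7 z5_7 w5_7 x5_7 (by decide) _ (chkS_sound E lk5 1 5 _ _ _ _ t5_5_7)

def r5_5_8 : List (ℕ × ℤ) := [(24, -48), (28, 48), (76, 96), (87, -96), (88, -48), (149, 48), (150, 48), (151, 48), (187, -96), (188, -192), (189, -192), (190, -192), (195, 48), (196, 96), (197, 288), (198, 144), (207, 48), (208, 48), (209, 48), (268, -48), (269, -48), (270, -48)]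

theorem h5_5_8 (E : Env κ ι) : ip (F5_5 E) (F5_8 E) = dotS (ek E lk5) r5_5_8 :=
  op_entryZ E lk5 1 5 _ _ _ _ (pg0 κ) (pg5 ι) m5_5 m5_8 l5_8 z5_8 w5_8 x5_8 (by decide) _ (chkS_sound E lk5 1 5 _ _ _ _ t5_5_8)

def r5_5_9 : List (ℕ × ℤ) := [(24, 24), (28, 72), (76, 120), (87, 24), (88, 24), (147, 24), (148, -24), (149, -48), (150, -24), (151, 24), (184, 24), (186, -24), (187, 24), (188, -96), (189, -192), (190, -240), (195, 72), (196, 120), (197, 216), (198, 120), (207, -48), (208, 24), (209, -24), (268, -24), (269, -96), (270, -72)]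

theorem h5_5_9 (E : Env κ ι) : ip (F5_5 E) (F5_9 E) = dotS (ek E lk5) r5_5_9 :=
  op_entryZ E lk5 1 5 _ _ _ _ (pg0 κ) (pg5 ι) m5_5 m5_9 l5_9 z5_9 w5_9 x5_9 (by decide) _ (chkS_sound E lk5 1 5 _ _ _ _ t5_5_9)

def r5_5_10 : List (ℕ × ℤ) := [(28, 240), (76, 480), (188, -240), (189, -240), (190, -240)]

theorem h5_5_10 (E : Env κ ι) : ip (F5_5 E) (F5_10 E) = dotS (ek E lk5) r5_5_10 :=
  op_entryZ E lk5 1 5 _ _ _ _ (pg0 κ) (pg5 ι) m5_5 m5_10 l5_10 z5_10 w5_10 x5_10 (by decide) _ (chkS_sound E lk5 1 5 _ _ _ _ t5_5_10)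

def r5_5_11 : List (ℕ × ℤ) := [(28, 48), (76, 144), (87, 48), (147, -48), (148, 48), (149, 48), (151, -96), (184, -48), (186, 48), (187, 48), (188, -336), (189, -144), (190, -48), (195, 48), (196, 144), (197, 240), (198, 96), (207, 48), (208, -96), (268, -144), (270, -48)]

theorem h5_5_11 (E : Env κ ι) : ip (F5_5 E) (F5_11 E) = dotS (ek E lk5) r5_5_11 :=
  op_entryZ E lk5 1 5 _ _ _ _ (pg0 κ) (pg5 ι) m5_5 m5_11 l5_11 z5_11 w5_11 x5_11 (by decide) _ (chkS_sound E lk5 1 5 _ _ _ _ t5_5_11)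

def r5_5_12 : List (ℕ × ℤ) := [(26, 48), (28, 96), (59, 144), (60, 96), (68, -48), (76, 144), (152, -144), (154, -96), (175, -144), (176, -96), (189, -96), (190, -144), (199, 144), (200, 96)]

theorem h5_5_12 (E : Env κ ι) : ip (F5_5 E) (F5_12 E) = dotS (ek E lk5) r5_5_12 :=
  op_entryZ E lk5 1 5 _ _ _ _ (pg0 κ) (pg5 ι) m5_5 m5_12 l5_12 z5_12 w5_12 x5_12 (by decide) _ (chkS_sound E lk5 1 5 _ _ _ _ t5_5_12)

def r5_5_13 : List (ℕ × ℤ) := [(26, -96), (28, 48), (59, 192), (60, 48), (68, 96), (76, 192), (152, -192), (154, -48), (175, -192), (176, -48), (188, -240), (189, -48), (190, 48), (199, 192), (200, 48)]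

theorem h5_5_13 (E : Env κ ι) : ip (F5_5 E) (F5_13 E) = dotS (ek E lk5) r5_5_13 :=
  op_entryZ E lk5 1 5 _ _ _ _ (pg0 κ) (pg5 ι) m5_5 m5_13 l5_13 z5_13 w5_13 x5_13 (by decide) _ (chkS_sound E lk5 1 5 _ _ _ _ t5_5_13)

def r5_5_14 : List (ℕ × ℤ) := [(41, -96), (45, 48), (46, 192), (48, -240), (49, -48), (50, 192), (51, 96), (52, -192), (61, 48), (62, 192), (85, -192), (156, -48), (177, -48), (191, 48), (201, 48)]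

theorem h5_5_14 (E : Env κ ι) : ip (F5_5 E) (F5_14 E) = dotS (ek E lk5) r5_5_14 :=
  op_entryZ E lk5 1 5 _ _ _ _ (pg0 κ) (pg5 ι) m5_5 m5_14 l5_14 z5_14 w5_14 x5_14 (by decide) _ (chkS_sound E lk5 1 5 _ _ _ _ t5_5_14)

def r5_5_15 : List (ℕ × ℤ) := [(41, 48), (45, 96), (46, 144), (49, -96), (50, 144), (51, -48), (52, -144), (61, 96), (62, 144), (85, -144), (156, -96), (177, -96), (191, -144), (201, 96)]

theorem h5_5_15 (E : Env κ ι) : ip (F5_5 E) (F5_15 E) = dotS (ek E lk5) r5_5_15 :=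
  op_entryZ E lk5 1 5 _ _ _ _ (pg0 κ) (pg5 ι) m5_5 m5_15 l5_15 z5_15 w5_15 x5_15 (by decide) _ (chkS_sound E lk5 1 5 _ _ _ _ t5_5_15)

def r5_5_16 : List (ℕ × ℤ) := [(63, 240), (77, 240), (159, -240), (178, -240), (192, -240), (203, 240)]

theorem h5_5_16 (E : Env κ ι) : ip (F5_5 E) (F5_16 E) = dotS (ek E lk5) r5_5_16 :=
  op_entryZ E lk5 1 5 _ _ _ _ (pg0 κ) (pg5 ι) m5_5 m5_16 l5_16 z5_16 w5_16 x5_16 (by decide) _ (chkS_sound E lk5 1 5 _ _ _ _ t5_5_16)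

def r5_5_17 : List (ℕ × ℤ) := [(25, 240), (271, 240), (272, 240), (273, -240), (274, -240), (275, -240)]

theorem h5_5_17 (E : Env κ ι) : ip (F5_5 E) (F5_17 E) = dotS (ek E lk5) r5_5_17 :=
  op_entryZ E lk5 1 5 _ _ _ _ (pg0 κ) (pg5 ι) m5_5 m5_17 l5_17 z5_17 w5_17 x5_17 (by decide) _ (chkS_sound E lk5 1 5 _ _ _ _ t5_5_17)

def r5_6_6 : List (ℕ × ℤ) := [(3, 144), (29, -192), (71, -144), (74, 96), (75, -192), (78, 96), (79, 96), (141, 480), (144, -384)]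

theorem h5_6_6 (E : Env κ ι) : ip (F5_6 E) (F5_6 E) = dotS (ek E lk5) r5_6_6 :=
  op_entryZ E lk5 1 5 _ _ _ _ (pg0 κ) (pg5 ι) m5_6 m5_6 l5_6 z5_6 w5_6 x5_6 (by decide) _ (chkS_sound E lk5 1 5 _ _ _ _ t5_6_6)

def r5_6_7 : List (ℕ × ℤ) := [(29, 240), (78, -240), (180, -480), (182, 480)]

theorem h5_6_7 (E : Env κ ι) : ip (F5_6 E) (F5_7 E) = dotS (ek E lk5) r5_6_7 :=
  op_entryZ E lk5 1 5 _ _ _ _ (pg0 κ) (pg5 ι) m5_6 m5_7 l5_7 z5_7 w5_7 x5_7 (by decide) _ (chkS_sound E lk5 1 5 _ _ _ _ t5_6_7)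

def r5_6_8 : List (ℕ × ℤ) := [(24, 96), (184, 144), (186, 288), (187, 192), (205, -144), (206, -288), (207, -96), (208, -96), (209, -96), (210, -96), (211, -192), (212, 192), (213, 96)]

theorem h5_6_8 (E : Env κ ι) : ip (F5_6 E) (F5_8 E) = dotS (ek E lk5) r5_6_8 :=
  op_entryZ E lk5 1 5 _ _ _ _ (pg0 κ) (pg5 ι) m5_6 m5_8 l5_8 z5_8 w5_8 x5_8 (by decide) _ (chkS_sound E lk5 1 5 _ _ _ _ t5_6_8)

def r5_6_9 : List (ℕ × ℤ) := [(22, 48), (24, 144), (165, -48), (184, 48), (186, 48), (187, 240), (205, -48), (206, -48), (207, -192), (208, -48), (209, -144), (210, 48), (211, 48), (212, -48), (213, -48)]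

theorem h5_6_9 (E : Env κ ι) : ip (F5_6 E) (F5_9 E) = dotS (ek E lk5) r5_6_9 :=
  op_entryZ E lk5 1 5 _ _ _ _ (pg0 κ) (pg5 ι) m5_6 m5_9 l5_9 z5_9 w5_9 x5_9 (by decide) _ (chkS_sound E lk5 1 5 _ _ _ _ t5_6_9)

def r5_6_10 : List (ℕ × ℤ) := [(2, 240), (24, -240), (185, 480), (187, -480)]

theorem h5_6_10 (E : Env κ ι) : ip (F5_6 E) (F5_10 E) = dotS (ek E lk5) r5_6_10 :=
  op_entryZ E lk5 1 5 _ _ _ _ (pg0 κ) (pg5 ι) m5_6 m5_10 l5_10 z5_10 w5_10 x5_10 (by decide) _ (chkS_sound E lk5 1 5 _ _ _ _ t5_6_10)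

def r5_6_11 : List (ℕ × ℤ) := [(22, -96), (24, 96), (165, 96), (186, 96), (187, 288), (206, -96), (208, -288), (209, -96), (211, 96), (212, -96)]

theorem h5_6_11 (E : Env κ ι) : ip (F5_6 E) (F5_11 E) = dotS (ek E lk5) r5_6_11 :=
  op_entryZ E lk5 1 5 _ _ _ _ (pg0 κ) (pg5 ι) m5_6 m5_11 l5_11 z5_11 w5_11 x5_11 (by decide) _ (chkS_sound E lk5 1 5 _ _ _ _ t5_6_11)

def r5_6_12 : List (ℕ × ℤ) := [(11, 48), (28, 48), (73, -48), (76, 192), (80, -192), (81, -48), (87, 288), (88, 192), (149, -288), (150, -192), (151, 0)]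

theorem h5_6_12 (E : Env κ ι) : ip (F5_6 E) (F5_12 E) = dotS (ek E lk5) r5_6_12 :=
  op_entryZ E lk5 1 5 _ _ _ _ (pg0 κ) (pg5 ι) m5_6 m5_12 l5_12 z5_12 w5_12 x5_12 (by decide) _ (chkS_sound E lk5 1 5 _ _ _ _ t5_6_12)

def r5_6_13 : List (ℕ × ℤ) := [(11, -96), (28, 144), (73, 96), (76, 96), (80, -96), (81, -144), (87, 384), (88, 96), (149, 96), (150, -96), (151, -480)]

theorem h5_6_13 (E : Env κ ι) : ip (F5_6 E) (F5_13 E) = dotS (ek E lk5) r5_6_13 :=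
  op_entryZ E lk5 1 5 _ _ _ _ (pg0 κ) (pg5 ι) m5_6 m5_13 l5_13 z5_13 w5_13 x5_13 (by decide) _ (chkS_sound E lk5 1 5 _ _ _ _ t5_6_13)

def r5_6_14 : List (ℕ × ℤ) := [(41, 96), (42, -96), (44, 96), (45, 144), (46, 96), (47, 480), (51, -96), (82, -144), (83, -96), (158, -480)]

theorem h5_6_14 (E : Env κ ι) : ip (F5_6 E) (F5_14 E) = dotS (ek E lk5) r5_6_14 :=
  op_entryZ E lk5 1 5 _ _ _ _ (pg0 κ) (pg5 ι) m5_6 m5_14 l5_14 z5_14 w5_14 x5_14 (by decide) _ (chkS_sound E lk5 1 5 _ _ _ _ t5_6_14)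

def r5_6_15 : List (ℕ × ℤ) := [(41, 192), (42, 48), (44, -48), (45, 48), (46, 192), (51, -192), (82, -48), (83, -192), (158, 0)]

theorem h5_6_15 (E : Env κ ι) : ip (F5_6 E) (F5_15 E) = dotS (ek E lk5) r5_6_15 :=
  op_entryZ E lk5 1 5 _ _ _ _ (pg0 κ) (pg5 ι) m5_6 m5_15 l5_15 z5_15 w5_15 x5_15 (by decide) _ (chkS_sound E lk5 1 5 _ _ _ _ t5_6_15)

def r5_6_16 : List (ℕ × ℤ) := [(77, 240), (84, -240), (89, 480), (161, -480)]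

theorem h5_6_16 (E : Env κ ι) : ip (F5_6 E) (F5_16 E) = dotS (ek E lk5) r5_6_16 :=
  op_entryZ E lk5 1 5 _ _ _ _ (pg0 κ) (pg5 ι) m5_6 m5_16 l5_16 z5_16 w5_16 x5_16 (by decide) _ (chkS_sound E lk5 1 5 _ _ _ _ t5_6_16)

def r5_6_17 : List (ℕ × ℤ) := [(10, -240), (21, 480), (276, 240), (277, -480)]

theorem h5_6_17 (E : Env κ ι) : ip (F5_6 E) (F5_17 E) = dotS (ek E lk5) r5_6_17 :=
  op_entryZ E lk5 1 5 _ _ _ _ (pg0 κ) (pg5 ι) m5_6 m5_17 l5_17 z5_17 w5_17 x5_17 (by decide) _ (chkS_sound E lk5 1 5 _ _ _ _ t5_6_17)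

def r5_7_7 : List (ℕ × ℤ) := [(162, 240), (163, 480), (172, -240), (181, -480)]

theorem h5_7_7 (E : Env κ ι) : ip (F5_7 E) (F5_7 E) = dotS (ek E lk5) r5_7_7 :=
  op_entryZ E lk5 1 5 _ _ _ _ (pg0 κ) (pg5 ι) m5_7 m5_7 l5_7 z5_7 w5_7 x5_7 (by decide) _ (chkS_sound E lk5 1 5 _ _ _ _ t5_7_7)

def r5_7_8 : List (ℕ × ℤ) := [(22, -240), (165, -480), (205, 240), (206, 480), (209, 0)]

theorem h5_7_8 (E : Env κ ι) : ip (F5_7 E) (F5_8 E) = dotS (ek E lk5) r5_7_8 :=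
  op_entryZ E lk5 1 5 _ _ _ _ (pg0 κ) (pg5 ι) m5_7 m5_8 l5_8 z5_8 w5_8 x5_8 (by decide) _ (chkS_sound E lk5 1 5 _ _ _ _ t5_7_8)

def r5_7_9 : List (ℕ × ℤ) := [(22, -240), (165, -480), (187, 240), (207, 240), (208, 240), (209, 0)]

theorem h5_7_9 (E : Env κ ι) : ip (F5_7 E) (F5_9 E) = dotS (ek E lk5) r5_7_9 :=
  op_entryZ E lk5 1 5 _ _ _ _ (pg0 κ) (pg5 ι) m5_7 m5_9 l5_9 z5_9 w5_9 x5_9 (by decide) _ (chkS_sound E lk5 1 5 _ _ _ _ t5_7_9)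

def r5_7_10 : List (ℕ × ℤ) := [(164, -240), (166, -480), (184, 240), (186, 480)]

theorem h5_7_10 (E : Env κ ι) : ip (F5_7 E) (F5_10 E) = dotS (ek E lk5) r5_7_10 :=
  op_entryZ E lk5 1 5 _ _ _ _ (pg0 κ) (pg5 ι) m5_7 m5_10 l5_10 z5_10 w5_10 x5_10 (by decide) _ (chkS_sound E lk5 1 5 _ _ _ _ t5_7_10)

def r5_7_11 : List (ℕ × ℤ) := [(22, -240), (24, 240), (165, -480), (209, 480)]

theorem h5_7_11 (E : Env κ ι) : ip (F5_7 E) (F5_11 E) = dotS (ek E lk5) r5_7_11 :=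
  op_entryZ E lk5 1 5 _ _ _ _ (pg0 κ) (pg5 ι) m5_7 m5_11 l5_11 z5_11 w5_11 x5_11 (by decide) _ (chkS_sound E lk5 1 5 _ _ _ _ t5_7_11)

def r5_7_12 : List (ℕ × ℤ) := [(26, -240), (68, -480), (80, 240), (197, 480), (198, 0)]

theorem h5_7_12 (E : Env κ ι) : ip (F5_7 E) (F5_12 E) = dotS (ek E lk5) r5_7_12 :=
  op_entryZ E lk5 1 5 _ _ _ _ (pg0 κ) (pg5 ι) m5_7 m5_12 l5_12 z5_12 w5_12 x5_12 (by decide) _ (chkS_sound E lk5 1 5 _ _ _ _ t5_7_12)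

def r5_7_13 : List (ℕ × ℤ) := [(26, -240), (68, -480), (81, 240), (198, 480)]

theorem h5_7_13 (E : Env κ ι) : ip (F5_7 E) (F5_13 E) = dotS (ek E lk5) r5_7_13 :=
  op_entryZ E lk5 1 5 _ _ _ _ (pg0 κ) (pg5 ι) m5_7 m5_13 l5_13 z5_13 w5_13 x5_13 (by decide) _ (chkS_sound E lk5 1 5 _ _ _ _ t5_7_13)

def r5_7_14 : List (ℕ × ℤ) := [(41, -240), (51, -480), (82, 240), (202, 480)]

theorem h5_7_14 (E : Env κ ι) : ip (F5_7 E) (F5_14 E) = dotS (ek E lk5) r5_7_14 :=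
  op_entryZ E lk5 1 5 _ _ _ _ (pg0 κ) (pg5 ι) m5_7 m5_14 l5_14 z5_14 w5_14 x5_14 (by decide) _ (chkS_sound E lk5 1 5 _ _ _ _ t5_7_14)

def r5_7_15 : List (ℕ × ℤ) := [(41, -240), (46, 480), (51, -480), (83, 240), (202, 0)]

theorem h5_7_15 (E : Env κ ι) : ip (F5_7 E) (F5_15 E) = dotS (ek E lk5) r5_7_15 :=
  op_entryZ E lk5 1 5 _ _ _ _ (pg0 κ) (pg5 ι) m5_7 m5_15 l5_15 z5_15 w5_15 x5_15 (by decide) _ (chkS_sound E lk5 1 5 _ _ _ _ t5_7_15)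

def r5_7_16 : List (ℕ × ℤ) := [(69, -720), (84, 240), (204, 480)]

theorem h5_7_16 (E : Env κ ι) : ip (F5_7 E) (F5_16 E) = dotS (ek E lk5) r5_7_16 :=
  op_entryZ E lk5 1 5 _ _ _ _ (pg0 κ) (pg5 ι) m5_7 m5_16 l5_16 z5_16 w5_16 x5_16 (by decide) _ (chkS_sound E lk5 1 5 _ _ _ _ t5_7_16)

def r5_7_17 : List (ℕ × ℤ) := [(19, 240), (23, -720), (278, 480)]

theorem h5_7_17 (E : Env κ ι) : ip (F5_7 E) (F5_17 E) = dotS (ek E lk5) r5_7_17 :=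
  op_entryZ E lk5 1 5 _ _ _ _ (pg0 κ) (pg5 ι) m5_7 m5_17 l5_17 z5_17 w5_17 x5_17 (by decide) _ (chkS_sound E lk5 1 5 _ _ _ _ t5_7_17)

def r5_8_8 : List (ℕ × ℤ) := [(90, 96), (91, -192), (98, -192), (99, -192), (102, -96), (103, -192), (111, -96), (126, 96), (215, 96), (217, 192), (218, -192), (225, 48), (230, 192), (231, 192), (236, 96), (237, 96), (243, 48)]

theorem h5_8_8 (E : Env κ ι) : ip (F5_8 E) (F5_8 E) = dotS (ek E lk5) r5_8_8 :=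
  op_entryZ E lk5 1 5 _ _ _ _ (pg0 κ) (pg5 ι) m5_8 m5_8 l5_8 z5_8 w5_8 x5_8 (by decide) _ (chkS_sound E lk5 1 5 _ _ _ _ t5_8_8)

def r5_8_9 : List (ℕ × ℤ) := [(90, -48), (91, -96), (92, -48), (98, -96), (99, -144), (102, -48), (103, -96), (107, -48), (111, -48), (112, 48), (126, 144), (215, -48), (217, -48), (218, -48), (226, 48), (230, 96), (231, 240), (236, 48), (237, 144), (243, 48)]

theorem h5_8_9 (E : Env κ ι) : ip (F5_8 E) (F5_9 E) = dotS (ek E lk5) r5_8_9 :=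
  op_entryZ E lk5 1 5 _ _ _ _ (pg0 κ) (pg5 ι) m5_8 m5_9 l5_9 z5_9 w5_9 x5_9 (by decide) _ (chkS_sound E lk5 1 5 _ _ _ _ t5_8_9)

def r5_8_10 : List (ℕ × ℤ) := [(96, -240), (125, 240), (219, -480), (232, 480)]

theorem h5_8_10 (E : Env κ ι) : ip (F5_8 E) (F5_10 E) = dotS (ek E lk5) r5_8_10 :=
  op_entryZ E lk5 1 5 _ _ _ _ (pg0 κ) (pg5 ι) m5_8 m5_10 l5_10 z5_10 w5_10 x5_10 (by decide) _ (chkS_sound E lk5 1 5 _ _ _ _ t5_8_10)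

def r5_8_11 : List (ℕ × ℤ) := [(91, -96), (92, 96), (98, -96), (102, -48), (103, -96), (107, 96), (111, -48), (112, -96), (126, 96), (217, -96), (218, -192), (225, -48), (226, -96), (230, 96), (231, 288), (236, 48), (237, 96), (243, 96)]

theorem h5_8_11 (E : Env κ ι) : ip (F5_8 E) (F5_11 E) = dotS (ek E lk5) r5_8_11 :=
  op_entryZ E lk5 1 5 _ _ _ _ (pg0 κ) (pg5 ι) m5_8 m5_11 l5_11 z5_11 w5_11 x5_11 (by decide) _ (chkS_sound E lk5 1 5 _ _ _ _ t5_8_11)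

def r5_8_12 : List (ℕ × ℤ) := [(91, -192), (93, -48), (99, -96), (103, -192), (108, 48), (111, -48), (112, 96), (126, 384), (218, -192), (220, -96), (233, 96), (248, 48), (249, 192)]

theorem h5_8_12 (E : Env κ ι) : ip (F5_8 E) (F5_12 E) = dotS (ek E lk5) r5_8_12 :=
  op_entryZ E lk5 1 5 _ _ _ _ (pg0 κ) (pg5 ι) m5_8 m5_12 l5_12 z5_12 w5_12 x5_12 (by decide) _ (chkS_sound E lk5 1 5 _ _ _ _ t5_8_12)

def r5_8_13 : List (ℕ × ℤ) := [(91, -96), (93, 96), (99, -288), (103, -96), (108, -96), (111, -144), (112, -192), (126, 192), (218, -96), (220, 192), (233, 288), (248, 144), (249, 96)]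

theorem h5_8_13 (E : Env κ ι) : ip (F5_8 E) (F5_13 E) = dotS (ek E lk5) r5_8_13 :=
  op_entryZ E lk5 1 5 _ _ _ _ (pg0 κ) (pg5 ι) m5_8 m5_13 l5_13 z5_13 w5_13 x5_13 (by decide) _ (chkS_sound E lk5 1 5 _ _ _ _ t5_8_13)

def r5_8_14 : List (ℕ × ℤ) := [(36, -96), (43, -144), (94, 96), (95, -96), (101, -288), (104, -96), (123, -288), (127, 192), (221, 192), (234, 288), (250, 96), (253, 144)]

theorem h5_8_14 (E : Env κ ι) : ip (F5_8 E) (F5_14 E) = dotS (ek E lk5) r5_8_14 :=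
  op_entryZ E lk5 1 5 _ _ _ _ (pg0 κ) (pg5 ι) m5_8 m5_14 l5_14 z5_14 w5_14 x5_14 (by decide) _ (chkS_sound E lk5 1 5 _ _ _ _ t5_8_14)

def r5_8_15 : List (ℕ × ℤ) := [(36, 48), (43, -48), (94, -48), (95, -192), (101, -96), (104, -192), (123, -96), (127, 384), (221, -96), (234, 96), (250, 192), (253, 48)]

theorem h5_8_15 (E : Env κ ι) : ip (F5_8 E) (F5_15 E) = dotS (ek E lk5) r5_8_15 :=
  op_entryZ E lk5 1 5 _ _ _ _ (pg0 κ) (pg5 ι) m5_8 m5_15 l5_15 z5_15 w5_15 x5_15 (by decide) _ (chkS_sound E lk5 1 5 _ _ _ _ t5_8_15)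

def r5_8_16 : List (ℕ × ℤ) := [(228, -240), (229, -480), (279, 240), (280, 480)]

theorem h5_8_16 (E : Env κ ι) : ip (F5_8 E) (F5_16 E) = dotS (ek E lk5) r5_8_16 :=
  op_entryZ E lk5 1 5 _ _ _ _ (pg0 κ) (pg5 ι) m5_8 m5_16 l5_16 z5_16 w5_16 x5_16 (by decide) _ (chkS_sound E lk5 1 5 _ _ _ _ t5_8_16)

def r5_8_17 : List (ℕ × ℤ) := [(97, 240), (128, -240), (227, 480), (251, -480)]

theorem h5_8_17 (E : Env κ ι) : ip (F5_8 E) (F5_17 E) = dotS (ek E lk5) r5_8_17 :=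
  op_entryZ E lk5 1 5 _ _ _ _ (pg0 κ) (pg5 ι) m5_8 m5_17 l5_17 z5_17 w5_17 x5_17 (by decide) _ (chkS_sound E lk5 1 5 _ _ _ _ t5_8_17)

def r5_9_9 : List (ℕ × ℤ) := [(90, -96), (91, -96), (92, -192), (98, 24), (99, -48), (102, 24), (103, -48), (107, -168), (111, 48), (112, -144), (126, 96), (215, -72), (217, -48), (218, 48), (225, 24), (226, 24), (230, 120), (231, 240), (236, 72), (237, 120), (243, 72)]

theorem h5_9_9 (E : Env κ ι) : ip (F5_9 E) (F5_9 E) = dotS (ek E lk5) r5_9_9 :=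
  op_entryZ E lk5 1 5 _ _ _ _ (pg0 κ) (pg5 ι) m5_9 m5_9 l5_9 z5_9 w5_9 x5_9 (by decide) _ (chkS_sound E lk5 1 5 _ _ _ _ t5_9_9)

def r5_9_10 : List (ℕ × ℤ) := [(91, -240), (99, -240), (103, -240), (125, 240), (232, 480)]

theorem h5_9_10 (E : Env κ ι) : ip (F5_9 E) (F5_10 E) = dotS (ek E lk5) r5_9_10 :=
  op_entryZ E lk5 1 5 _ _ _ _ (pg0 κ) (pg5 ι) m5_9 m5_10 l5_10 z5_10 w5_10 x5_10 (by decide) _ (chkS_sound E lk5 1 5 _ _ _ _ t5_9_10)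

def r5_9_11 : List (ℕ × ℤ) := [(91, 48), (92, -48), (98, 48), (103, -48), (107, -96), (111, -48), (112, -240), (126, 144), (215, -48), (217, -96), (218, -48), (225, -48), (226, -96), (230, 144), (231, 240), (236, 48), (237, 96), (243, 48)]

theorem h5_9_11 (E : Env κ ι) : ip (F5_9 E) (F5_11 E) = dotS (ek E lk5) r5_9_11 :=
  op_entryZ E lk5 1 5 _ _ _ _ (pg0 κ) (pg5 ι) m5_9 m5_11 l5_11 z5_11 w5_11 x5_11 (by decide) _ (chkS_sound E lk5 1 5 _ _ _ _ t5_9_11)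

def r5_9_12 : List (ℕ × ℤ) := [(91, -144), (93, -96), (103, -96), (108, -144), (111, 48), (112, -144), (125, 96), (126, 144), (218, -48), (220, -96), (232, 144), (233, 96), (248, 96), (249, 144)]

theorem h5_9_12 (E : Env κ ι) : ip (F5_9 E) (F5_12 E) = dotS (ek E lk5) r5_9_12 :=
  op_entryZ E lk5 1 5 _ _ _ _ (pg0 κ) (pg5 ι) m5_9 m5_12 l5_12 z5_12 w5_12 x5_12 (by decide) _ (chkS_sound E lk5 1 5 _ _ _ _ t5_9_12)

def r5_9_13 : List (ℕ × ℤ) := [(91, 48), (93, -48), (99, -240), (103, -48), (108, -192), (111, -96), (112, -192), (125, 48), (126, 192), (218, 96), (220, -48), (232, 192), (233, 48), (248, 48), (249, 192)]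

theorem h5_9_13 (E : Env κ ι) : ip (F5_9 E) (F5_13 E) = dotS (ek E lk5) r5_9_13 :=
  op_entryZ E lk5 1 5 _ _ _ _ (pg0 κ) (pg5 ι) m5_9 m5_13 l5_13 z5_13 w5_13 x5_13 (by decide) _ (chkS_sound E lk5 1 5 _ _ _ _ t5_9_13)

def r5_9_14 : List (ℕ × ℤ) := [(36, -144), (40, 48), (43, -96), (94, -48), (95, 48), (101, -240), (104, -48), (109, -48), (113, 48), (123, -144), (127, 192), (221, -48), (234, 48), (235, 192), (250, 192), (253, 48)]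

theorem h5_9_14 (E : Env κ ι) : ip (F5_9 E) (F5_14 E) = dotS (ek E lk5) r5_9_14 :=
  op_entryZ E lk5 1 5 _ _ _ _ (pg0 κ) (pg5 ι) m5_9 m5_14 l5_14 z5_14 w5_14 x5_14 (by decide) _ (chkS_sound E lk5 1 5 _ _ _ _ t5_9_14)

def r5_9_15 : List (ℕ × ℤ) := [(36, -48), (40, 96), (43, 48), (94, -96), (95, -144), (104, -96), (109, -96), (113, -144), (123, -48), (127, 144), (221, -96), (234, 96), (235, 144), (250, 144), (253, 96)]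

theorem h5_9_15 (E : Env κ ι) : ip (F5_9 E) (F5_15 E) = dotS (ek E lk5) r5_9_15 :=
  op_entryZ E lk5 1 5 _ _ _ _ (pg0 κ) (pg5 ι) m5_9 m5_15 l5_15 z5_15 w5_15 x5_15 (by decide) _ (chkS_sound E lk5 1 5 _ _ _ _ t5_9_15)

def r5_9_16 : List (ℕ × ℤ) := [(214, -240), (223, -240), (229, -240), (279, 240), (280, 240), (281, 240)]

theorem h5_9_16 (E : Env κ ι) : ip (F5_9 E) (F5_16 E) = dotS (ek E lk5) r5_9_16 :=
  op_entryZ E lk5 1 5 _ _ _ _ (pg0 κ) (pg5 ι) m5_9 m5_16 l5_16 z5_16 w5_16 x5_16 (by decide) _ (chkS_sound E lk5 1 5 _ _ _ _ t5_9_16)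

def r5_9_17 : List (ℕ × ℤ) := [(97, 240), (114, 240), (227, 240), (240, -240), (251, -240), (255, -240)]

theorem h5_9_17 (E : Env κ ι) : ip (F5_9 E) (F5_17 E) = dotS (ek E lk5) r5_9_17 :=
  op_entryZ E lk5 1 5 _ _ _ _ (pg0 κ) (pg5 ι) m5_9 m5_17 l5_17 z5_17 w5_17 x5_17 (by decide) _ (chkS_sound E lk5 1 5 _ _ _ _ t5_9_17)

def r5_10_10 : List (ℕ × ℤ) := [(14, 240), (98, -480), (102, -240), (245, 480)]

theorem h5_10_10 (E : Env κ ι) : ip (F5_10 E) (F5_10 E) = dotS (ek E lk5) r5_10_10 :=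
  op_entryZ E lk5 1 5 _ _ _ _ (pg0 κ) (pg5 ι) m5_10 m5_10 l5_10 z5_10 w5_10 x5_10 (by decide) _ (chkS_sound E lk5 1 5 _ _ _ _ t5_10_10)

def r5_10_11 : List (ℕ × ℤ) := [(111, -240), (125, 240), (218, -480), (232, 480)]

theorem h5_10_11 (E : Env κ ι) : ip (F5_10 E) (F5_11 E) = dotS (ek E lk5) r5_10_11 :=
  op_entryZ E lk5 1 5 _ _ _ _ (pg0 κ) (pg5 ι) m5_10 m5_11 l5_11 z5_11 w5_11 x5_11 (by decide) _ (chkS_sound E lk5 1 5 _ _ _ _ t5_10_11)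

def r5_10_12 : List (ℕ × ℤ) := [(100, -240), (103, -480), (125, 240), (232, 480)]

theorem h5_10_12 (E : Env κ ι) : ip (F5_10 E) (F5_12 E) = dotS (ek E lk5) r5_10_12 :=
  op_entryZ E lk5 1 5 _ _ _ _ (pg0 κ) (pg5 ι) m5_10 m5_12 l5_12 z5_12 w5_12 x5_12 (by decide) _ (chkS_sound E lk5 1 5 _ _ _ _ t5_10_12)

def r5_10_13 : List (ℕ × ℤ) := [(9, -240), (125, 240), (216, -480), (232, 480)]

theorem h5_10_13 (E : Env κ ι) : ip (F5_10 E) (F5_13 E) = dotS (ek E lk5) r5_10_13 :=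
  op_entryZ E lk5 1 5 _ _ _ _ (pg0 κ) (pg5 ι) m5_10 m5_13 l5_13 z5_13 w5_13 x5_13 (by decide) _ (chkS_sound E lk5 1 5 _ _ _ _ t5_10_13)

def r5_10_14 : List (ℕ × ℤ) := [(39, -240), (40, 240), (222, -480), (235, 480)]

theorem h5_10_14 (E : Env κ ι) : ip (F5_10 E) (F5_14 E) = dotS (ek E lk5) r5_10_14 :=
  op_entryZ E lk5 1 5 _ _ _ _ (pg0 κ) (pg5 ι) m5_10 m5_14 l5_14 z5_14 w5_14 x5_14 (by decide) _ (chkS_sound E lk5 1 5 _ _ _ _ t5_10_14)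

def r5_10_15 : List (ℕ × ℤ) := [(36, -240), (40, 240), (104, -480), (235, 480)]

theorem h5_10_15 (E : Env κ ι) : ip (F5_10 E) (F5_15 E) = dotS (ek E lk5) r5_10_15 :=
  op_entryZ E lk5 1 5 _ _ _ _ (pg0 κ) (pg5 ι) m5_10 m5_15 l5_15 z5_15 w5_15 x5_15 (by decide) _ (chkS_sound E lk5 1 5 _ _ _ _ t5_10_15)

def r5_10_16 : List (ℕ × ℤ) := [(6, -240), (224, -480), (281, 720)]

theorem h5_10_16 (E : Env κ ι) : ip (F5_10 E) (F5_16 E) = dotS (ek E lk5) r5_10_16 :=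
  op_entryZ E lk5 1 5 _ _ _ _ (pg0 κ) (pg5 ι) m5_10 m5_16 l5_16 z5_16 w5_16 x5_16 (by decide) _ (chkS_sound E lk5 1 5 _ _ _ _ t5_10_16)

def r5_10_17 : List (ℕ × ℤ) := [(13, -240), (106, 720), (246, -480)]

theorem h5_10_17 (E : Env κ ι) : ip (F5_10 E) (F5_17 E) = dotS (ek E lk5) r5_10_17 :=
  op_entryZ E lk5 1 5 _ _ _ _ (pg0 κ) (pg5 ι) m5_10 m5_17 l5_17 z5_17 w5_17 x5_17 (by decide) _ (chkS_sound E lk5 1 5 _ _ _ _ t5_10_17)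

def r5_11_11 : List (ℕ × ℤ) := [(102, 48), (103, 192), (107, 96), (111, -96), (112, -384), (126, 96), (215, 96), (217, -192), (218, -192), (225, -96), (226, -192), (230, 96), (231, 192), (236, 96), (237, 192), (243, 48)]

theorem h5_11_11 (E : Env κ ι) : ip (F5_11 E) (F5_11 E) = dotS (ek E lk5) r5_11_11 :=
  op_entryZ E lk5 1 5 _ _ _ _ (pg0 κ) (pg5 ι) m5_11 m5_11 l5_11 z5_11 w5_11 x5_11 (by decide) _ (chkS_sound E lk5 1 5 _ _ _ _ t5_11_11)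

def r5_11_12 : List (ℕ × ℤ) := [(99, 96), (103, -96), (111, -48), (112, -288), (125, 48), (126, 288), (218, -192), (220, -192), (232, 192), (233, 192)]

theorem h5_11_12 (E : Env κ ι) : ip (F5_11 E) (F5_12 E) = dotS (ek E lk5) r5_11_12 :=
  op_entryZ E lk5 1 5 _ _ _ _ (pg0 κ) (pg5 ι) m5_11 m5_12 l5_12 z5_12 w5_12 x5_12 (by decide) _ (chkS_sound E lk5 1 5 _ _ _ _ t5_11_12)

def r5_11_13 : List (ℕ × ℤ) := [(99, -192), (103, 192), (111, -144), (112, -384), (125, 144), (126, 384), (218, -96), (220, -96), (232, 96), (233, 96)]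

theorem h5_11_13 (E : Env κ ι) : ip (F5_11 E) (F5_13 E) = dotS (ek E lk5) r5_11_13 :=
  op_entryZ E lk5 1 5 _ _ _ _ (pg0 κ) (pg5 ι) m5_11 m5_13 l5_13 z5_13 w5_13 x5_13 (by decide) _ (chkS_sound E lk5 1 5 _ _ _ _ t5_11_13)

def r5_11_14 : List (ℕ × ℤ) := [(36, -96), (40, 144), (43, -144), (101, -192), (104, 192), (109, 96), (113, -96), (123, -384), (127, 384), (221, -96), (234, 96), (235, 96)]

theorem h5_11_14 (E : Env κ ι) : ip (F5_11 E) (F5_14 E) = dotS (ek E lk5) r5_11_14 :=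
  op_entryZ E lk5 1 5 _ _ _ _ (pg0 κ) (pg5 ι) m5_11 m5_14 l5_14 z5_14 w5_14 x5_14 (by decide) _ (chkS_sound E lk5 1 5 _ _ _ _ t5_11_14)

def r5_11_15 : List (ℕ × ℤ) := [(36, 48), (40, 48), (43, -48), (101, 96), (104, -96), (109, -48), (113, -192), (123, -288), (127, 288), (221, -192), (234, 192), (235, 192)]

theorem h5_11_15 (E : Env κ ι) : ip (F5_11 E) (F5_15 E) = dotS (ek E lk5) r5_11_15 :=
  op_entryZ E lk5 1 5 _ _ _ _ (pg0 κ) (pg5 ι) m5_11 m5_15 l5_15 z5_15 w5_15 x5_15 (by decide) _ (chkS_sound E lk5 1 5 _ _ _ _ t5_11_15)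

def r5_11_16 : List (ℕ × ℤ) := [(223, -480), (228, -240), (280, 480), (281, 240)]

theorem h5_11_16 (E : Env κ ι) : ip (F5_11 E) (F5_16 E) = dotS (ek E lk5) r5_11_16 :=
  op_entryZ E lk5 1 5 _ _ _ _ (pg0 κ) (pg5 ι) m5_11 m5_16 l5_16 z5_16 w5_16 x5_16 (by decide) _ (chkS_sound E lk5 1 5 _ _ _ _ t5_11_16)

def r5_11_17 : List (ℕ × ℤ) := [(114, 240), (128, -240), (227, 480), (240, -480)]

theorem h5_11_17 (E : Env κ ι) : ip (F5_11 E) (F5_17 E) = dotS (ek E lk5) r5_11_17 :=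
  op_entryZ E lk5 1 5 _ _ _ _ (pg0 κ) (pg5 ι) m5_11 m5_17 l5_17 z5_17 w5_17 x5_17 (by decide) _ (chkS_sound E lk5 1 5 _ _ _ _ t5_11_17)

def r5_12_12 : List (ℕ × ℤ) := [(8, 96), (107, -96), (108, -288), (115, -96), (126, -96), (231, 192), (243, 144), (256, 144)]

theorem h5_12_12 (E : Env κ ι) : ip (F5_12 E) (F5_12 E) = dotS (ek E lk5) r5_12_12 :=
  op_entryZ E lk5 1 5 _ _ _ _ (pg0 κ) (pg5 ι) m5_12 m5_12 l5_12 z5_12 w5_12 x5_12 (by decide) _ (chkS_sound E lk5 1 5 _ _ _ _ t5_12_12)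

def r5_12_13 : List (ℕ × ℤ) := [(8, 48), (107, -288), (108, -144), (115, -48), (126, 192), (231, 96), (243, -48), (256, 192)]

theorem h5_12_13 (E : Env κ ι) : ip (F5_12 E) (F5_13 E) = dotS (ek E lk5) r5_12_13 :=
  op_entryZ E lk5 1 5 _ _ _ _ (pg0 κ) (pg5 ι) m5_12 m5_13 l5_13 z5_13 w5_13 x5_13 (by decide) _ (chkS_sound E lk5 1 5 _ _ _ _ t5_12_13)

def r5_12_14 : List (ℕ × ℤ) := [(35, 192), (36, -192), (38, 48), (40, -48), (104, -288), (109, 48), (116, -48), (127, 480), (235, -192), (238, 0)]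

theorem h5_12_14 (E : Env κ ι) : ip (F5_12 E) (F5_14 E) = dotS (ek E lk5) r5_12_14 :=
  op_entryZ E lk5 1 5 _ _ _ _ (pg0 κ) (pg5 ι) m5_12 m5_14 l5_14 z5_14 w5_14 x5_14 (by decide) _ (chkS_sound E lk5 1 5 _ _ _ _ t5_12_14)

def r5_12_15 : List (ℕ × ℤ) := [(35, 144), (36, -144), (38, 96), (40, 144), (104, -96), (109, -144), (116, -96), (235, 96), (238, 0)]

theorem h5_12_15 (E : Env κ ι) : ip (F5_12 E) (F5_15 E) = dotS (ek E lk5) r5_12_15 :=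
  op_entryZ E lk5 1 5 _ _ _ _ (pg0 κ) (pg5 ι) m5_12 m5_15 l5_15 z5_15 w5_15 x5_15 (by decide) _ (chkS_sound E lk5 1 5 _ _ _ _ t5_12_15)

def r5_12_16 : List (ℕ × ℤ) := [(5, 240), (110, -240), (117, -240), (244, 240), (247, 0)]

theorem h5_12_16 (E : Env κ ι) : ip (F5_12 E) (F5_16 E) = dotS (ek E lk5) r5_12_16 :=
  op_entryZ E lk5 1 5 _ _ _ _ (pg0 κ) (pg5 ι) m5_12 m5_16 l5_16 z5_16 w5_16 x5_16 (by decide) _ (chkS_sound E lk5 1 5 _ _ _ _ t5_12_16)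

def r5_12_17 : List (ℕ × ℤ) := [(7, -240), (118, 240), (128, 240), (257, -240)]

theorem h5_12_17 (E : Env κ ι) : ip (F5_12 E) (F5_17 E) = dotS (ek E lk5) r5_12_17 :=
  op_entryZ E lk5 1 5 _ _ _ _ (pg0 κ) (pg5 ι) m5_12 m5_17 l5_17 z5_17 w5_17 x5_17 (by decide) _ (chkS_sound E lk5 1 5 _ _ _ _ t5_12_17)

def r5_13_13 : List (ℕ × ℤ) := [(8, 144), (107, -384), (108, -192), (115, 96), (126, 96), (231, -192), (237, 480), (243, -144), (256, 96)]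

theorem h5_13_13 (E : Env κ ι) : ip (F5_13 E) (F5_13 E) = dotS (ek E lk5) r5_13_13 :=
  op_entryZ E lk5 1 5 _ _ _ _ (pg0 κ) (pg5 ι) m5_13 m5_13 l5_13 z5_13 w5_13 x5_13 (by decide) _ (chkS_sound E lk5 1 5 _ _ _ _ t5_13_13)

def r5_13_14 : List (ℕ × ℤ) := [(35, 96), (36, -96), (38, 144), (40, -144), (104, -384), (109, -96), (116, 96), (235, -96), (238, 480)]

theorem h5_13_14 (E : Env κ ι) : ip (F5_13 E) (F5_14 E) = dotS (ek E lk5) r5_13_14 :=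
  op_entryZ E lk5 1 5 _ _ _ _ (pg0 κ) (pg5 ι) m5_13 m5_14 l5_14 z5_14 w5_14 x5_14 (by decide) _ (chkS_sound E lk5 1 5 _ _ _ _ t5_13_14)

def r5_13_15 : List (ℕ × ℤ) := [(35, 192), (36, 48), (38, 48), (40, -48), (104, -288), (109, -192), (116, -48), (235, 288), (238, 0)]

theorem h5_13_15 (E : Env κ ι) : ip (F5_13 E) (F5_15 E) = dotS (ek E lk5) r5_13_15 :=
  op_entryZ E lk5 1 5 _ _ _ _ (pg0 κ) (pg5 ι) m5_13 m5_15 l5_15 z5_15 w5_15 x5_15 (by decide) _ (chkS_sound E lk5 1 5 _ _ _ _ t5_13_15)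

def r5_13_16 : List (ℕ × ℤ) := [(5, 240), (110, -480), (244, -240), (247, 480)]

theorem h5_13_16 (E : Env κ ι) : ip (F5_13 E) (F5_16 E) = dotS (ek E lk5) r5_13_16 :=
  op_entryZ E lk5 1 5 _ _ _ _ (pg0 κ) (pg5 ι) m5_13 m5_16 l5_16 z5_16 w5_16 x5_16 (by decide) _ (chkS_sound E lk5 1 5 _ _ _ _ t5_13_16)

def r5_13_17 : List (ℕ × ℤ) := [(118, 240), (128, -240), (241, 480), (257, -480)]

theorem h5_13_17 (E : Env κ ι) : ip (F5_13 E) (F5_17 E) = dotS (ek E lk5) r5_13_17 :=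
  op_entryZ E lk5 1 5 _ _ _ _ (pg0 κ) (pg5 ι) m5_13 m5_17 l5_17 z5_17 w5_17 x5_17 (by decide) _ (chkS_sound E lk5 1 5 _ _ _ _ t5_13_17)

def r5_14_14 : List (ℕ × ℤ) := [(0, 96), (1, -144), (17, -192), (18, 144), (53, -192), (105, -384), (119, 96), (129, 96), (239, 480)]

theorem h5_14_14 (E : Env κ ι) : ip (F5_14 E) (F5_14 E) = dotS (ek E lk5) r5_14_14 :=
  op_entryZ E lk5 1 5 _ _ _ _ (pg0 κ) (pg5 ι) m5_14 m5_14 l5_14 z5_14 w5_14 x5_14 (by decide) _ (chkS_sound E lk5 1 5 _ _ _ _ t5_14_14)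

def r5_14_15 : List (ℕ × ℤ) := [(0, 192), (1, -48), (17, -144), (18, 48), (53, 96), (105, -288), (119, -48), (129, 192), (239, 0)]

theorem h5_14_15 (E : Env κ ι) : ip (F5_14 E) (F5_15 E) = dotS (ek E lk5) r5_14_15 :=
  op_entryZ E lk5 1 5 _ _ _ _ (pg0 κ) (pg5 ι) m5_14 m5_15 l5_15 z5_15 w5_15 x5_15 (by decide) _ (chkS_sound E lk5 1 5 _ _ _ _ t5_14_15)

def r5_14_16 : List (ℕ × ℤ) := [(32, -240), (33, 240), (122, -480), (252, 480)]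

theorem h5_14_16 (E : Env κ ι) : ip (F5_14 E) (F5_16 E) = dotS (ek E lk5) r5_14_16 :=
  op_entryZ E lk5 1 5 _ _ _ _ (pg0 κ) (pg5 ι) m5_14 m5_16 l5_16 z5_16 w5_16 x5_16 (by decide) _ (chkS_sound E lk5 1 5 _ _ _ _ t5_14_16)

def r5_14_17 : List (ℕ × ℤ) := [(34, -480), (121, 240), (130, -240), (242, 480)]

theorem h5_14_17 (E : Env κ ι) : ip (F5_14 E) (F5_17 E) = dotS (ek E lk5) r5_14_17 :=
  op_entryZ E lk5 1 5 _ _ _ _ (pg0 κ) (pg5 ι) m5_14 m5_17 l5_17 z5_17 w5_17 x5_17 (by decide) _ (chkS_sound E lk5 1 5 _ _ _ _ t5_14_17)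

def r5_15_15 : List (ℕ × ℤ) := [(0, 144), (1, 144), (17, -288), (18, 96), (53, 192), (105, -96), (119, -96), (129, -96), (239, 0)]

theorem h5_15_15 (E : Env κ ι) : ip (F5_15 E) (F5_15 E) = dotS (ek E lk5) r5_15_15 :=
  op_entryZ E lk5 1 5 _ _ _ _ (pg0 κ) (pg5 ι) m5_15 m5_15 l5_15 z5_15 w5_15 x5_15 (by decide) _ (chkS_sound E lk5 1 5 _ _ _ _ t5_15_15)

def r5_15_16 : List (ℕ × ℤ) := [(32, 240), (33, 240), (120, -240), (122, -240), (252, 0)]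

theorem h5_15_16 (E : Env κ ι) : ip (F5_15 E) (F5_16 E) = dotS (ek E lk5) r5_15_16 :=
  op_entryZ E lk5 1 5 _ _ _ _ (pg0 κ) (pg5 ι) m5_15 m5_16 l5_16 z5_16 w5_16 x5_16 (by decide) _ (chkS_sound E lk5 1 5 _ _ _ _ t5_15_16)

def r5_15_17 : List (ℕ × ℤ) := [(34, -240), (37, -240), (121, 240), (130, 240), (242, 0)]

theorem h5_15_17 (E : Env κ ι) : ip (F5_15 E) (F5_17 E) = dotS (ek E lk5) r5_15_17 :=
  op_entryZ E lk5 1 5 _ _ _ _ (pg0 κ) (pg5 ι) m5_15 m5_17 l5_17 z5_17 w5_17 x5_17 (by decide) _ (chkS_sound E lk5 1 5 _ _ _ _ t5_15_17)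

def r5_16_16 : List (ℕ × ℤ) := [(15, 240), (124, -480), (254, 240)]

theorem h5_16_16 (E : Env κ ι) : ip (F5_16 E) (F5_16 E) = dotS (ek E lk5) r5_16_16 :=
  op_entryZ E lk5 1 5 _ _ _ _ (pg0 κ) (pg5 ι) m5_16 m5_16 l5_16 z5_16 w5_16 x5_16 (by decide) _ (chkS_sound E lk5 1 5 _ _ _ _ t5_16_16)

def r5_16_17 : List (ℕ × ℤ) := [(4, -480), (282, 240), (283, 240)]

theorem h5_16_17 (E : Env κ ι) : ip (F5_16 E) (F5_17 E) = dotS (ek E lk5) r5_16_17 :=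
  op_entryZ E lk5 1 5 _ _ _ _ (pg0 κ) (pg5 ι) m5_16 m5_17 l5_17 z5_17 w5_17 x5_17 (by decide) _ (chkS_sound E lk5 1 5 _ _ _ _ t5_16_17)

def r5_17_17 : List (ℕ × ℤ) := [(12, 240), (131, -480), (258, 240)]

theorem h5_17_17 (E : Env κ ι) : ip (F5_17 E) (F5_17 E) = dotS (ek E lk5) r5_17_17 :=
  op_entryZ E lk5 1 5 _ _ _ _ (pg0 κ) (pg5 ι) m5_17 m5_17 l5_17 z5_17 w5_17 x5_17 (by decide) _ (chkS_sound E lk5 1 5 _ _ _ _ t5_17_17)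

theorem row5_0 (E : Env κ ι) : RowG (ek E lk5) (F5_0 E) [F5_0 E, F5_1 E, F5_2 E, F5_3 E, F5_4 E, F5_5 E, F5_6 E, F5_7 E, F5_8 E, F5_9 E, F5_10 E, F5_11 E, F5_12 E, F5_13 E, F5_14 E, F5_15 E, F5_16 E, F5_17 E] [r5_0_0, r5_0_1, r5_0_2, r5_0_3, r5_0_4, r5_0_5, r5_0_6, r5_0_7, r5_0_8, r5_0_9, r5_0_10, r5_0_11, r5_0_12, r5_0_13, r5_0_14, r5_0_15, r5_0_16, r5_0_17] :=
  rowG_cons _ _ _ _ _ _ (h5_0_0 E) (rowG_cons _ _ _ _ _ _ (h5_0_1 E) (rowG_cons _ _ _ _ _ _ (h5_0_2 E) (rowG_cons _ _ _ _ _ _ (h5_0_3 E) (rowG_cons _ _ _ _ _ _ (h5_0_4 E) (rowG_cons _ _ _ _ _ _ (h5_0_5 E) (rowG_cons _ _ _ _ _ _ (h5_0_6 E) (rowG_cons _ _ _ _ _ _ (h5_0_7 E) (rowG_cons _ _ _ _ _ _ (h5_0_8 E) (rowG_cons _ _ _ _ _ _ (h5_0_9 E) (rowG_cons _ _ _ _ _ _ (h5_0_10 E) (rowG_cons _ _ _ _ _ _ (h5_0_11 E) (rowG_cons _ _ _ _ _ _ (h5_0_12 E) (rowG_cons _ _ _ _ _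 _ (h5_0_13 E) (rowG_cons _ _ _ _ _ _ (h5_0_14 E) (rowG_cons _ _ _ _ _ _ (h5_0_15 E) (rowG_cons _ _ _ _ _ _ (h5_0_16 E) (rowG_cons _ _ _ _ _ _ (h5_0_17 E) (rowG_nil _ _))))))))))))))))))

theorem row5_1 (E : Env κ ι) : RowG (ek E lk5) (F5_1 E) [F5_1 E, F5_2 E, F5_3 E, F5_4 E, F5_5 E, F5_6 E, F5_7 E, F5_8 E, F5_9 E, F5_10 E, F5_11 E, F5_12 E, F5_13 E, F5_14 E, F5_15 E, F5_16 E, F5_17 E] [r5_1_1, r5_1_2, r5_1_3, r5_1_4, r5_1_5, r5_1_6, r5_1_7, r5_1_8, r5_1_9, r5_1_10, r5_1_11, r5_1_12, r5_1_13, r5_1_14, r5_1_15, r5_1_16, r5_1_17] :=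
  rowG_cons _ _ _ _ _ _ (h5_1_1 E) (rowG_cons _ _ _ _ _ _ (h5_1_2 E) (rowG_cons _ _ _ _ _ _ (h5_1_3 E) (rowG_cons _ _ _ _ _ _ (h5_1_4 E) (rowG_cons _ _ _ _ _ _ (h5_1_5 E) (rowG_cons _ _ _ _ _ _ (h5_1_6 E) (rowG_cons _ _ _ _ _ _ (h5_1_7 E) (rowG_cons _ _ _ _ _ _ (h5_1_8 E) (rowG_cons _ _ _ _ _ _ (h5_1_9 E) (rowG_cons _ _ _ _ _ _ (h5_1_10 E) (rowG_cons _ _ _ _ _ _ (h5_1_11 E) (rowG_cons _ _ _ _ _ _ (h5_1_12 E) (rowG_cons _ _ _ _ _ _ (h5_1_13 E) (rowG_cons _ _ _ _ _ _ (h5_1_14 E) (rowG_cons _ _ _ _ _ _ (h5_1_15 E) (rowG_cons _ _ _ _ _ _ (h5_1_16 E) (rowG_cons _ _ _ _ _ _ (h5_1_17 E) (rowG_nil _ _)))))))))))))))))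

theorem row5_2 (E : Env κ ι) : RowG (ek E lk5) (F5_2 E) [F5_2 E, F5_3 E, F5_4 E, F5_5 E, F5_6 E, F5_7 E, F5_8 E, F5_9 E, F5_10 E, F5_11 E, F5_12 E, F5_13 E, F5_14 E, F5_15 E, F5_16 E, F5_17 E] [r5_2_2, r5_2_3, r5_2_4, r5_2_5, r5_2_6, r5_2_7, r5_2_8, r5_2_9, r5_2_10, r5_2_11, r5_2_12, r5_2_13, r5_2_14, r5_2_15, r5_2_16, r5_2_17] :=
  rowG_cons _ _ _ _ _ _ (h5_2_2 E) (rowG_cons _ _ _ _ _ _ (h5_2_3 E) (rowG_cons _ _ _ _ _ _ (h5_2_4 E) (rowG_cons _ _ _ _ _ _ (h5_2_5 E) (rowG_cons _ _ _ _ _ _ (h5_2_6 E) (rowG_cons _ _ _ _ _ _ (h5_2_7 E) (rowG_cons _ _ _ _ _ _ (h5_2_8 E) (rowG_cons _ _ _ _ _ _ (h5_2_9 E) (rowG_cons _ _ _ _ _ _ (h5_2_10 E) (rowG_cons _ _ _ _ _ _ (h5_2_11 E) (rowG_cons _ _ _ _ _ _ (h5_2_12 E) (rowG_cons _ _ _ _ _ _ (h5_2_13 E) (rowG_cons _ _ _ _ _ _ (h5_2_14 E) (rowG_cons _ _ _ _ _ _ (h5_2_15 E) (rowG_cons _ _ _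 _ _ _ (h5_2_16 E) (rowG_cons _ _ _ _ _ _ (h5_2_17 E) (rowG_nil _ _))))))))))))))))

theorem row5_3 (E : Env κ ι) : RowG (ek E lk5) (F5_3 E) [F5_3 E, F5_4 E, F5_5 E, F5_6 E, F5_7 E, F5_8 E, F5_9 E, F5_10 E, F5_11 E, F5_12 E, F5_13 E, F5_14 E, F5_15 E, F5_16 E, F5_17 E] [r5_3_3, r5_3_4, r5_3_5, r5_3_6, r5_3_7, r5_3_8, r5_3_9, r5_3_10, r5_3_11, r5_3_12, r5_3_13, r5_3_14, r5_3_15, r5_3_16, r5_3_17] :=
  rowG_cons _ _ _ _ _ _ (h5_3_3 E) (rowG_cons _ _ _ _ _ _ (h5_3_4 E) (rowG_cons _ _ _ _ _ _ (h5_3_5 E) (rowG_cons _ _ _ _ _ _ (h5_3_6 E) (rowG_cons _ _ _ _ _ _ (h5_3_7 E) (rowG_cons _ _ _ _ _ _ (h5_3_8 E) (rowG_cons _ _ _ _ _ _ (h5_3_9 E) (rowG_cons _ _ _ _ _ _ (h5_3_10 E) (rowG_cons _ _ _ _ _ _ (h5_3_11 E) (rowG_cons _ _ _ _ _ _ (h5_3_12 E) (rowG_cons _ _ _ _ _ _ (h5_3_13 E) (rowG_cons _ _ _ _ _ _ (h5_3_14 E) (rowG_cons _ _ _ _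 _ _ (h5_3_15 E) (rowG_cons _ _ _ _ _ _ (h5_3_16 E) (rowG_cons _ _ _ _ _ _ (h5_3_17 E) (rowG_nil _ _)))))))))))))))

theorem row5_4 (E : Env κ ι) : RowG (ek E lk5) (F5_4 E) [F5_4 E, F5_5 E, F5_6 E, F5_7 E, F5_8 E, F5_9 E, F5_10 E, F5_11 E, F5_12 E, F5_13 E, F5_14 E, F5_15 E, F5_16 E, F5_17 E] [r5_4_4, r5_4_5, r5_4_6, r5_4_7, r5_4_8, r5_4_9, r5_4_10, r5_4_11, r5_4_12, r5_4_13, r5_4_14, r5_4_15, r5_4_16, r5_4_17] :=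
  rowG_cons _ _ _ _ _ _ (h5_4_4 E) (rowG_cons _ _ _ _ _ _ (h5_4_5 E) (rowG_cons _ _ _ _ _ _ (h5_4_6 E) (rowG_cons _ _ _ _ _ _ (h5_4_7 E) (rowG_cons _ _ _ _ _ _ (h5_4_8 E) (rowG_cons _ _ _ _ _ _ (h5_4_9 E) (rowG_cons _ _ _ _ _ _ (h5_4_10 E) (rowG_cons _ _ _ _ _ _ (h5_4_11 E) (rowG_cons _ _ _ _ _ _ (h5_4_12 E) (rowG_cons _ _ _ _ _ _ (h5_4_13 E) (rowG_cons _ _ _ _ _ _ (h5_4_14 E) (rowG_cons _ _ _ _ _ _ (h5_4_15 E) (rowG_cons _ _ _ _ _ _ (h5_4_16 E) (rowG_cons _ _ _ _ _ _ (h5_4_17 E) (rowG_nil _ _))))))))))))))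

theorem row5_5 (E : Env κ ι) : RowG (ek E lk5) (F5_5 E) [F5_5 E, F5_6 E, F5_7 E, F5_8 E, F5_9 E, F5_10 E, F5_11 E, F5_12 E, F5_13 E, F5_14 E, F5_15 E, F5_16 E, F5_17 E] [r5_5_5, r5_5_6, r5_5_7, r5_5_8, r5_5_9, r5_5_10, r5_5_11, r5_5_12, r5_5_13, r5_5_14, r5_5_15, r5_5_16, r5_5_17] :=
  rowG_cons _ _ _ _ _ _ (h5_5_5 E) (rowG_cons _ _ _ _ _ _ (h5_5_6 E) (rowG_cons _ _ _ _ _ _ (h5_5_7 E) (rowG_cons _ _ _ _ _ _ (h5_5_8 E) (rowG_cons _ _ _ _ _ _ (h5_5_9 E) (rowG_cons _ _ _ _ _ _ (h5_5_10 E) (rowG_cons _ _ _ _ _ _ (h5_5_11 E) (rowG_cons _ _ _ _ _ _ (h5_5_12 E) (rowG_cons _ _ _ _ _ _ (h5_5_13 E) (rowG_cons _ _ _ _ _ _ (h5_5_14 E) (rowG_cons _ _ _ _ _ _ (h5_5_15 E) (rowG_cons _ _ _ _ _ _ (h5_5_16 E) (rowG_cons _ _ _ _ _ _ (h5_5_17 E) (rowG_nil _ _)))))))))))))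

theorem row5_6 (E : Env κ ι) : RowG (ek E lk5) (F5_6 E) [F5_6 E, F5_7 E, F5_8 E, F5_9 E, F5_10 E, F5_11 E, F5_12 E, F5_13 E, F5_14 E, F5_15 E, F5_16 E, F5_17 E] [r5_6_6, r5_6_7, r5_6_8, r5_6_9, r5_6_10, r5_6_11, r5_6_12, r5_6_13, r5_6_14, r5_6_15, r5_6_16, r5_6_17] :=
  rowG_cons _ _ _ _ _ _ (h5_6_6 E) (rowG_cons _ _ _ _ _ _ (h5_6_7 E) (rowG_cons _ _ _ _ _ _ (h5_6_8 E) (rowG_cons _ _ _ _ _ _ (h5_6_9 E) (rowG_cons _ _ _ _ _ _ (h5_6_10 E) (rowG_cons _ _ _ _ _ _ (h5_6_11 E) (rowG_cons _ _ _ _ _ _ (h5_6_12 E) (rowG_cons _ _ _ _ _ _ (h5_6_13 E) (rowG_cons _ _ _ _ _ _ (h5_6_14 E) (rowG_cons _ _ _ _ _ _ (h5_6_15 E) (rowG_cons _ _ _ _ _ _ (h5_6_16 E) (rowG_cons _ _ _ _ _ _ (h5_6_17 E) (rowG_nil _ _))))))))))))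

theorem row5_7 (E : Env κ ι) : RowG (ek E lk5) (F5_7 E) [F5_7 E, F5_8 E, F5_9 E, F5_10 E, F5_11 E, F5_12 E, F5_13 E, F5_14 E, F5_15 E, F5_16 E, F5_17 E] [r5_7_7, r5_7_8, r5_7_9, r5_7_10, r5_7_11, r5_7_12, r5_7_13, r5_7_14, r5_7_15, r5_7_16, r5_7_17] :=
  rowG_cons _ _ _ _ _ _ (h5_7_7 E) (rowG_cons _ _ _ _ _ _ (h5_7_8 E) (rowG_cons _ _ _ _ _ _ (h5_7_9 E) (rowG_cons _ _ _ _ _ _ (h5_7_10 E) (rowG_cons _ _ _ _ _ _ (h5_7_11 E) (rowG_cons _ _ _ _ _ _ (h5_7_12 E) (rowG_cons _ _ _ _ _ _ (h5_7_13 E) (rowG_cons _ _ _ _ _ _ (h5_7_14 E) (rowG_cons _ _ _ _ _ _ (h5_7_15 E) (rowG_cons _ _ _ _ _ _ (h5_7_16 E) (rowG_cons _ _ _ _ _ _ (h5_7_17 E) (rowG_nil _ _)))))))))))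

theorem row5_8 (E : Env κ ι) : RowG (ek E lk5) (F5_8 E) [F5_8 E, F5_9 E, F5_10 E, F5_11 E, F5_12 E, F5_13 E, F5_14 E, F5_15 E, F5_16 E, F5_17 E] [r5_8_8, r5_8_9, r5_8_10, r5_8_11, r5_8_12, r5_8_13, r5_8_14, r5_8_15, r5_8_16, r5_8_17] :=
  rowG_cons _ _ _ _ _ _ (h5_8_8 E) (rowG_cons _ _ _ _ _ _ (h5_8_9 E) (rowG_cons _ _ _ _ _ _ (h5_8_10 E) (rowG_cons _ _ _ _ _ _ (h5_8_11 E) (rowG_cons _ _ _ _ _ _ (h5_8_12 E) (rowG_cons _ _ _ _ _ _ (h5_8_13 E) (rowG_cons _ _ _ _ _ _ (h5_8_14 E) (rowG_cons _ _ _ _ _ _ (h5_8_15 E) (rowG_cons _ _ _ _ _ _ (h5_8_16 E) (rowG_cons _ _ _ _ _ _ (h5_8_17 E) (rowG_nil _ _))))))))))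

theorem row5_9 (E : Env κ ι) : RowG (ek E lk5) (F5_9 E) [F5_9 E, F5_10 E, F5_11 E, F5_12 E, F5_13 E, F5_14 E, F5_15 E, F5_16 E, F5_17 E] [r5_9_9, r5_9_10, r5_9_11, r5_9_12, r5_9_13, r5_9_14, r5_9_15, r5_9_16, r5_9_17] :=
  rowG_cons _ _ _ _ _ _ (h5_9_9 E) (rowG_cons _ _ _ _ _ _ (h5_9_10 E) (rowG_cons _ _ _ _ _ _ (h5_9_11 E) (rowG_cons _ _ _ _ _ _ (h5_9_12 E) (rowG_cons _ _ _ _ _ _ (h5_9_13 E) (rowG_cons _ _ _ _ _ _ (h5_9_14 E) (rowG_cons _ _ _ _ _ _ (h5_9_15 E) (rowG_cons _ _ _ _ _ _ (h5_9_16 E) (rowG_cons _ _ _ _ _ _ (h5_9_17 E) (rowG_nil _ _)))))))))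

theorem row5_10 (E : Env κ ι) : RowG (ek E lk5) (F5_10 E) [F5_10 E, F5_11 E, F5_12 E, F5_13 E, F5_14 E, F5_15 E, F5_16 E, F5_17 E] [r5_10_10, r5_10_11, r5_10_12, r5_10_13, r5_10_14, r5_10_15, r5_10_16, r5_10_17] :=
  rowG_cons _ _ _ _ _ _ (h5_10_10 E) (rowG_cons _ _ _ _ _ _ (h5_10_11 E) (rowG_cons _ _ _ _ _ _ (h5_10_12 E) (rowG_cons _ _ _ _ _ _ (h5_10_13 E) (rowG_cons _ _ _ _ _ _ (h5_10_14 E) (rowG_cons _ _ _ _ _ _ (h5_10_15 E) (rowG_cons _ _ _ _ _ _ (h5_10_16 E) (rowG_cons _ _ _ _ _ _ (h5_10_17 E) (rowG_nil _ _))))))))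

theorem row5_11 (E : Env κ ι) : RowG (ek E lk5) (F5_11 E) [F5_11 E, F5_12 E, F5_13 E, F5_14 E, F5_15 E, F5_16 E, F5_17 E] [r5_11_11, r5_11_12, r5_11_13, r5_11_14, r5_11_15, r5_11_16, r5_11_17] :=
  rowG_cons _ _ _ _ _ _ (h5_11_11 E) (rowG_cons _ _ _ _ _ _ (h5_11_12 E) (rowG_cons _ _ _ _ _ _ (h5_11_13 E) (rowG_cons _ _ _ _ _ _ (h5_11_14 E) (rowG_cons _ _ _ _ _ _ (h5_11_15 E) (rowG_cons _ _ _ _ _ _ (h5_11_16 E) (rowG_cons _ _ _ _ _ _ (h5_11_17 E) (rowG_nil _ _)))))))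

theorem row5_12 (E : Env κ ι) : RowG (ek E lk5) (F5_12 E) [F5_12 E, F5_13 E, F5_14 E, F5_15 E, F5_16 E, F5_17 E] [r5_12_12, r5_12_13, r5_12_14, r5_12_15, r5_12_16, r5_12_17] :=
  rowG_cons _ _ _ _ _ _ (h5_12_12 E) (rowG_cons _ _ _ _ _ _ (h5_12_13 E) (rowG_cons _ _ _ _ _ _ (h5_12_14 E) (rowG_cons _ _ _ _ _ _ (h5_12_15 E) (rowG_cons _ _ _ _ _ _ (h5_12_16 E) (rowG_cons _ _ _ _ _ _ (h5_12_17 E) (rowG_nil _ _))))))

theorem row5_13 (E : Env κ ι) : RowG (ek E lk5) (F5_13 E) [F5_13 E, F5_14 E, F5_15 E, F5_16 E, F5_17 E] [r5_13_13, r5_13_14, r5_13_15, r5_13_16, r5_13_17] :=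
  rowG_cons _ _ _ _ _ _ (h5_13_13 E) (rowG_cons _ _ _ _ _ _ (h5_13_14 E) (rowG_cons _ _ _ _ _ _ (h5_13_15 E) (rowG_cons _ _ _ _ _ _ (h5_13_16 E) (rowG_cons _ _ _ _ _ _ (h5_13_17 E) (rowG_nil _ _)))))

theorem row5_14 (E : Env κ ι) : RowG (ek E lk5) (F5_14 E) [F5_14 E, F5_15 E, F5_16 E, F5_17 E] [r5_14_14, r5_14_15, r5_14_16, r5_14_17] :=
  rowG_cons _ _ _ _ _ _ (h5_14_14 E) (rowG_cons _ _ _ _ _ _ (h5_14_15 E) (rowG_cons _ _ _ _ _ _ (h5_14_16 E) (rowG_cons _ _ _ _ _ _ (h5_14_17 E) (rowG_nil _ _))))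

theorem row5_15 (E : Env κ ι) : RowG (ek E lk5) (F5_15 E) [F5_15 E, F5_16 E, F5_17 E] [r5_15_15, r5_15_16, r5_15_17] :=
  rowG_cons _ _ _ _ _ _ (h5_15_15 E) (rowG_cons _ _ _ _ _ _ (h5_15_16 E) (rowG_cons _ _ _ _ _ _ (h5_15_17 E) (rowG_nil _ _)))

theorem row5_16 (E : Env κ ι) : RowG (ek E lk5) (F5_16 E) [F5_16 E, F5_17 E] [r5_16_16, r5_16_17] :=
  rowG_cons _ _ _ _ _ _ (h5_16_16 E) (rowG_cons _ _ _ _ _ _ (h5_16_17 E) (rowG_nil _ _))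

theorem row5_17 (E : Env κ ι) : RowG (ek E lk5) (F5_17 E) [F5_17 E] [r5_17_17] :=
  rowG_cons _ _ _ _ _ _ (h5_17_17 E) (rowG_nil _ _)

def tab5 : List (List (List (ℕ × ℤ))) := [[r5_0_0, r5_0_1, r5_0_2, r5_0_3, r5_0_4, r5_0_5, r5_0_6, r5_0_7, r5_0_8, r5_0_9, r5_0_10, r5_0_11, r5_0_12, r5_0_13, r5_0_14, r5_0_15, r5_0_16, r5_0_17], [r5_1_1, r5_1_2, r5_1_3, r5_1_4, r5_1_5, r5_1_6, r5_1_7, r5_1_8, r5_1_9, r5_1_10, r5_1_11, r5_1_12, r5_1_13, r5_1_14, r5_1_15, r5_1_16, r5_1_17], [r5_2_2, r5_2_3, r5_2_4, r5_2_5, r5_2_6, r5_2_7, r5_2_8, r5_2_9, r5_2_10, r5_2_11, r5_2_12, r5_2_13, r5_2_14, r5_2_15, r5_2_16, r5_2_17], [r5_3_3, r5_3_4, r5_3_5, r5_3_6, r5_3_7, r5_3_8, r5_3_9, r5_3_10, r5_3_11, r5_3_12, r5_3_13, r5_3_14, r5_3_15, r5_3_16, r5_3_17], [r5_4_4, r5_4_5, r5_4_6, r5_4_7, r5_4_8, r5_4_9, r5_4_10, r5_4_11, r5_4_12, r5_4_13, r5_4_14,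 r5_4_15, r5_4_16, r5_4_17], [r5_5_5, r5_5_6, r5_5_7, r5_5_8, r5_5_9, r5_5_10, r5_5_11, r5_5_12, r5_5_13, r5_5_14, r5_5_15, r5_5_16, r5_5_17], [r5_6_6, r5_6_7, r5_6_8, r5_6_9, r5_6_10, r5_6_11, r5_6_12, r5_6_13, r5_6_14, r5_6_15, r5_6_16, r5_6_17], [r5_7_7, r5_7_8, r5_7_9, r5_7_10, r5_7_11, r5_7_12, r5_7_13, r5_7_14, r5_7_15, r5_7_16, r5_7_17], [r5_8_8, r5_8_9, r5_8_10, r5_8_11, r5_8_12, r5_8_13, r5_8_14, r5_8_15, r5_8_16, r5_8_17], [r5_9_9, r5_9_10, r5_9_11, r5_9_12, r5_9_13, r5_9_14, r5_9_15, r5_9_16, r5_9_17], [r5_10_10, r5_10_11, r5_10_12, r5_10_13, r5_10_14, r5_10_15, r5_10_16, r5_10_17], [r5_11_11, r5_11_12, r5_11_13, r5_11_14, r5_11_15, r5_11_16, r5_11_17], [r5_12_12, r5_12_13, r5_12_14, r5_12_15, r5_12_16, r5_12_17], [r5_13_13, r5_13_14, r5_13_15, r5_13_16, r5_13_17], [r5_14_14, r5_14_15, r5_14_16, r5_14_17], [r5_15_15,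 r5_15_16, r5_15_17], [r5_16_16, r5_16_17], [r5_17_17]]

theorem tri5 (E : Env κ ι) : TriG (ek E lk5) [F5_0 E, F5_1 E, F5_2 E, F5_3 E, F5_4 E, F5_5 E, F5_6 E, F5_7 E, F5_8 E, F5_9 E, F5_10 E, F5_11 E, F5_12 E, F5_13 E, F5_14 E, F5_15 E, F5_16 E, F5_17 E] tab5 := by
  refine triG_cons _ _ _ _ _ (row5_0 E) ?_
  refine triG_cons _ _ _ _ _ (row5_1 E) ?_
  refine triG_cons _ _ _ _ _ (row5_2 E) ?_
  refine triG_cons _ _ _ _ _ (row5_3 E) ?_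
  refine triG_cons _ _ _ _ _ (row5_4 E) ?_
  refine triG_cons _ _ _ _ _ (row5_5 E) ?_
  refine triG_cons _ _ _ _ _ (row5_6 E) ?_
  refine triG_cons _ _ _ _ _ (row5_7 E) ?_
  refine triG_cons _ _ _ _ _ (row5_8 E) ?_
  refine triG_cons _ _ _ _ _ (row5_9 E) ?_
  refine triG_cons _ _ _ _ _ (row5_10 E) ?_
  refine triG_cons _ _ _ _ _ (row5_11 E) ?_
  refine triG_cons _ _ _ _ _ (row5_12 E) ?_
  refine triG_cons _ _ _ _ _ (row5_13 E) ?_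
  refine triG_cons _ _ _ _ _ (row5_14 E) ?_
  refine triG_cons _ _ _ _ _ (row5_15 E) ?_
  refine triG_cons _ _ _ _ _ (row5_16 E) ?_
  refine triG_cons _ _ _ _ _ (row5_17 E) ?_
  exact triG_nil _

end

end YMBG
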