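import Pool.Agent.YM.BG.T6_0
import Pool.Agent.YM.BG.T6_1

set_option linter.unusedVariables false
set_option maxRecDepth 100000

open YMEng

namespace YMBG

section

variable {κ ι : Type*} [Fintype κ] [Fintype ι] [Inhabited κ] [Inhabited ι]

noncomputable def F6_0 (E : Env κ ι) : (Fin 1 → κ) → (Fin 5 → ι) → ℝ := op2 (P0 κ) (P6 ι) (fB E 1 5 m6_0)

noncomputable def F6_1 (E : Env κ ι) : (Fin 1 → κ) → (Fin 5 → ι) → ℝ := op2 (P0 κ) (P6 ι) (fB E 1 5 m6_1)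

noncomputable def F6_2 (E : Env κ ι) : (Fin 1 → κ) → (Fin 5 → ι) → ℝ := op2 (P0 κ) (P6 ι) (fB E 1 5 m6_2)

noncomputable def F6_3 (E : Env κ ι) : (Fin 1 → κ) → (Fin 5 → ι) → ℝ := op2 (P0 κ) (P6 ι) (fB E 1 5 m6_3)

noncomputable def F6_4 (E : Env κ ι) : (Fin 1 → κ) → (Fin 5 → ι) → ℝ := op2 (P0 κ) (P6 ι) (fB E 1 5 m6_4)

noncomputable def F6_5 (E : Env κ ι) : (Fin 1 → κ) → (Fin 5 → ι) → ℝ := op2 (P0 κ) (P6 ι) (fB E 1 5 m6_5)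

noncomputable def F6_6 (E : Env κ ι) : (Fin 1 → κ) → (Fin 5 → ι) → ℝ := op2 (P0 κ) (P6 ι) (fB E 1 5 m6_6)

noncomputable def F6_7 (E : Env κ ι) : (Fin 1 → κ) → (Fin 5 → ι) → ℝ := op2 (P0 κ) (P6 ι) (fB E 1 5 m6_7)

noncomputable def F6_8 (E : Env κ ι) : (Fin 1 → κ) → (Fin 5 → ι) → ℝ := op2 (P0 κ) (P6 ι) (fB E 1 5 m6_8)

noncomputable def F6_9 (E : Env κ ι) : (Fin 1 → κ) → (Fin 5 → ι) → ℝ := op2 (P0 κ) (P6 ι) (fB E 1 5 m6_9)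

noncomputable def F6_10 (E : Env κ ι) : (Fin 1 → κ) → (Fin 5 → ι) → ℝ := op2 (P0 κ) (P6 ι) (fB E 1 5 m6_10)

noncomputable def F6_11 (E : Env κ ι) : (Fin 1 → κ) → (Fin 5 → ι) → ℝ := op2 (P0 κ) (P6 ι) (fB E 1 5 m6_11)

noncomputable def F6_12 (E : Env κ ι) : (Fin 1 → κ) → (Fin 5 → ι) → ℝ := op2 (P0 κ) (P6 ι) (fB E 1 5 m6_12)

noncomputable def F6_13 (E : Env κ ι) : (Fin 1 → κ) → (Fin 5 → ι) → ℝ := op2 (P0 κ) (P6 ι) (fB E 1 5 m6_13)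

noncomputable def F6_14 (E : Env κ ι) : (Fin 1 → κ) → (Fin 5 → ι) → ℝ := op2 (P0 κ) (P6 ι) (fB E 1 5 m6_14)

noncomputable def F6_15 (E : Env κ ι) : (Fin 1 → κ) → (Fin 5 → ι) → ℝ := op2 (P0 κ) (P6 ι) (fB E 1 5 m6_15)

noncomputable def F6_16 (E : Env κ ι) : (Fin 1 → κ) → (Fin 5 → ι) → ℝ := op2 (P0 κ) (P6 ι) (fB E 1 5 m6_16)

noncomputable def F6_17 (E : Env κ ι) : (Fin 1 → κ) → (Fin 5 → ι) → ℝ := op2 (P0 κ) (P6 ι) (fB E 1 5 m6_17)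

def r6_0_0 : List (ℕ × ℤ) := [(54, -36), (55, 72), (64, -108), (65, -108), (86, -36), (132, 108), (137, -72), (139, 180)]

theorem h6_0_0 (E : Env κ ι) : ip (F6_0 E) (F6_0 E) = dotS (ek E lk6) r6_0_0 :=
  op_entryZ E lk6 1 5 _ _ _ _ (pg0 κ) (pg6 ι) m6_0 m6_0 l6_0 z6_0 w6_0 x6_0 (by decide) _ (chkS_sound E lk6 1 5 _ _ _ _ t6_0_0)

def r6_0_1 : List (ℕ × ℤ) := [(54, 72), (55, 144), (64, -72), (65, -72), (86, -216), (132, 72), (137, -144), (139, 216)]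

theorem h6_0_1 (E : Env κ ι) : ip (F6_0 E) (F6_1 E) = dotS (ek E lk6) r6_0_1 :=
  op_entryZ E lk6 1 5 _ _ _ _ (pg0 κ) (pg6 ι) m6_0 m6_1 l6_1 z6_1 w6_1 x6_1 (by decide) _ (chkS_sound E lk6 1 5 _ _ _ _ t6_0_1)

def r6_0_2 : List (ℕ × ℤ) := [(55, -36), (57, 36), (66, 144), (67, -108), (75, -36), (138, 144), (142, 108), (143, -144), (144, -108)]

theorem h6_0_2 (E : Env κ ι) : ip (F6_0 E) (F6_2 E) = dotS (ek E lk6) r6_0_2 :=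
  op_entryZ E lk6 1 5 _ _ _ _ (pg0 κ) (pg6 ι) m6_0 m6_2 l6_2 z6_2 w6_2 x6_2 (by decide) _ (chkS_sound E lk6 1 5 _ _ _ _ t6_0_2)

def r6_0_3 : List (ℕ × ℤ) := [(55, 36), (56, -36), (57, 180), (58, 108), (67, 252), (72, 36), (75, -180), (79, -108), (86, -216), (145, -72)]

theorem h6_0_3 (E : Env κ ι) : ip (F6_0 E) (F6_3 E) = dotS (ek E lk6) r6_0_3 :=
  op_entryZ E lk6 1 5 _ _ _ _ (pg0 κ) (pg6 ι) m6_0 m6_3 l6_3 z6_3 w6_3 x6_3 (by decide) _ (chkS_sound E lk6 1 5 _ _ _ _ t6_0_3)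

def r6_0_4 : List (ℕ × ℤ) := [(30, 108), (54, 36), (55, -72), (66, 36), (67, -72), (138, 108), (140, -108), (141, -180), (142, 144), (143, -36), (144, 36)]

theorem h6_0_4 (E : Env κ ι) : ip (F6_0 E) (F6_4 E) = dotS (ek E lk6) r6_0_4 :=
  op_entryZ E lk6 1 5 _ _ _ _ (pg0 κ) (pg6 ι) m6_0 m6_4 l6_4 z6_4 w6_4 x6_4 (by decide) _ (chkS_sound E lk6 1 5 _ _ _ _ t6_0_4)

def r6_0_5 : List (ℕ × ℤ) := [(30, -36), (54, -108), (57, -72), (66, 36), (75, 72), (138, 108), (140, 36), (141, -36), (142, 72), (143, -36), (144, -36)]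

theorem h6_0_5 (E : Env κ ι) : ip (F6_0 E) (F6_5 E) = dotS (ek E lk6) r6_0_5 :=
  op_entryZ E lk6 1 5 _ _ _ _ (pg0 κ) (pg6 ι) m6_0 m6_5 l6_5 z6_5 w6_5 x6_5 (by decide) _ (chkS_sound E lk6 1 5 _ _ _ _ t6_0_5)

def r6_0_6 : List (ℕ × ℤ) := [(55, -180), (56, -108), (57, -36), (58, 36), (67, 180), (72, 108), (75, 36), (79, -36), (86, -72), (145, 72)]

theorem h6_0_6 (E : Env κ ι) : ip (F6_0 E) (F6_6 E) = dotS (ek E lk6) r6_0_6 :=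
  op_entryZ E lk6 1 5 _ _ _ _ (pg0 κ) (pg6 ι) m6_0 m6_6 l6_6 z6_6 w6_6 x6_6 (by decide) _ (chkS_sound E lk6 1 5 _ _ _ _ t6_0_6)

def r6_0_7 : List (ℕ × ℤ) := [(55, 216), (58, 72), (67, -216), (75, 72), (79, -72), (146, -72)]

theorem h6_0_7 (E : Env κ ι) : ip (F6_0 E) (F6_7 E) = dotS (ek E lk6) r6_0_7 :=
  op_entryZ E lk6 1 5 _ _ _ _ (pg0 κ) (pg6 ι) m6_0 m6_7 l6_7 z6_7 w6_7 x6_7 (by decide) _ (chkS_sound E lk6 1 5 _ _ _ _ t6_0_7)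

def r6_0_8 : List (ℕ × ℤ) := [(26, -108), (68, -180), (147, 108), (148, 36), (149, -36), (151, 180), (165, 144), (167, 72), (168, 72), (212, -144), (259, -108), (260, -36)]

theorem h6_0_8 (E : Env κ ι) : ip (F6_0 E) (F6_8 E) = dotS (ek E lk6) r6_0_8 :=
  op_entryZ E lk6 1 5 _ _ _ _ (pg0 κ) (pg6 ι) m6_0 m6_8 l6_8 z6_8 w6_8 x6_8 (by decide) _ (chkS_sound E lk6 1 5 _ _ _ _ t6_0_8)

def r6_0_9 : List (ℕ × ℤ) := [(22, -108), (147, 108), (148, -108), (149, -144), (150, -36), (151, 180), (165, 108), (167, -36), (168, 36), (212, -36), (213, 36), (259, 36), (260, -36)]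

theorem h6_0_9 (E : Env κ ι) : ip (F6_0 E) (F6_9 E) = dotS (ek E lk6) r6_0_9 :=
  op_entryZ E lk6 1 5 _ _ _ _ (pg0 κ) (pg6 ι) m6_0 m6_9 l6_9 z6_9 w6_9 x6_9 (by decide) _ (chkS_sound E lk6 1 5 _ _ _ _ t6_0_9)

def r6_0_10 : List (ℕ × ℤ) := [(22, -36), (26, -36), (68, 36), (147, 72), (148, -72), (149, -108), (150, -108), (151, 216), (165, 36), (167, -36), (168, 36), (212, -108), (213, 108), (259, -72), (260, 72)]

theorem h6_0_10 (E : Env κ ι) : ip (F6_0 E) (F6_10 E) = dotS (ek E lk6) r6_0_10 :=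
  op_entryZ E lk6 1 5 _ _ _ _ (pg0 κ) (pg6 ι) m6_0 m6_10 l6_10 z6_10 w6_10 x6_10 (by decide) _ (chkS_sound E lk6 1 5 _ _ _ _ t6_0_10)

def r6_0_11 : List (ℕ × ℤ) := [(87, 72), (88, -72), (167, -216), (168, 216), (210, 72), (211, -72)]

theorem h6_0_11 (E : Env κ ι) : ip (F6_0 E) (F6_11 E) = dotS (ek E lk6) r6_0_11 :=
  op_entryZ E lk6 1 5 _ _ _ _ (pg0 κ) (pg6 ι) m6_0 m6_11 l6_11 z6_11 w6_11 x6_11 (by decide) _ (chkS_sound E lk6 1 5 _ _ _ _ t6_0_11)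

def r6_0_12 : List (ℕ × ℤ) := [(59, 216), (60, 72), (87, -216), (88, -72), (133, -72), (134, 72), (153, -144), (155, -144), (167, 72), (168, 216)]

theorem h6_0_12 (E : Env κ ι) : ip (F6_0 E) (F6_12 E) = dotS (ek E lk6) r6_0_12 :=
  op_entryZ E lk6 1 5 _ _ _ _ (pg0 κ) (pg6 ι) m6_0 m6_12 l6_12 z6_12 w6_12 x6_12 (by decide) _ (chkS_sound E lk6 1 5 _ _ _ _ t6_0_12)

def r6_0_13 : List (ℕ × ℤ) := [(59, 180), (60, 108), (87, -180), (88, -108), (133, 36), (134, -36), (153, -216), (155, -72), (167, 252), (168, 36)]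

theorem h6_0_13 (E : Env κ ι) : ip (F6_0 E) (F6_13 E) = dotS (ek E lk6) r6_0_13 :=
  op_entryZ E lk6 1 5 _ _ _ _ (pg0 κ) (pg6 ι) m6_0 m6_13 l6_13 z6_13 w6_13 x6_13 (by decide) _ (chkS_sound E lk6 1 5 _ _ _ _ t6_0_13)

def r6_0_14 : List (ℕ × ℤ) := [(31, 36), (41, -108), (47, -180), (61, 108), (62, 180), (70, -216), (135, -36), (157, -72), (169, 252), (170, 36)]

theorem h6_0_14 (E : Env κ ι) : ip (F6_0 E) (F6_14 E) = dotS (ek E lk6) r6_0_14 :=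
  op_entryZ E lk6 1 5 _ _ _ _ (pg0 κ) (pg6 ι) m6_0 m6_14 l6_14 z6_14 w6_14 x6_14 (by decide) _ (chkS_sound E lk6 1 5 _ _ _ _ t6_0_14)

def r6_0_15 : List (ℕ × ℤ) := [(31, -72), (41, -72), (47, -216), (61, 72), (62, 216), (70, -144), (135, 72), (157, -144), (169, 72), (170, 216)]

theorem h6_0_15 (E : Env κ ι) : ip (F6_0 E) (F6_15 E) = dotS (ek E lk6) r6_0_15 :=
  op_entryZ E lk6 1 5 _ _ _ _ (pg0 κ) (pg6 ι) m6_0 m6_15 l6_15 z6_15 w6_15 x6_15 (by decide) _ (chkS_sound E lk6 1 5 _ _ _ _ t6_0_15)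

def r6_0_16 : List (ℕ × ℤ) := [(63, 288), (89, -288), (160, -288), (171, 288)]

theorem h6_0_16 (E : Env κ ι) : ip (F6_0 E) (F6_16 E) = dotS (ek E lk6) r6_0_16 :=
  op_entryZ E lk6 1 5 _ _ _ _ (pg0 κ) (pg6 ι) m6_0 m6_16 l6_16 z6_16 w6_16 x6_16 (by decide) _ (chkS_sound E lk6 1 5 _ _ _ _ t6_0_16)

def r6_0_17 : List (ℕ × ℤ) := [(261, 288), (262, -288), (263, -288), (265, 288)]

theorem h6_0_17 (E : Env κ ι) : ip (F6_0 E) (F6_17 E) = dotS (ek E lk6) r6_0_17 :=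
  op_entryZ E lk6 1 5 _ _ _ _ (pg0 κ) (pg6 ι) m6_0 m6_17 l6_17 z6_17 w6_17 x6_17 (by decide) _ (chkS_sound E lk6 1 5 _ _ _ _ t6_0_17)

def r6_1_1 : List (ℕ × ℤ) := [(54, 144), (55, 288), (64, -432), (65, 144), (86, -144), (132, 144), (137, -288), (139, 144)]

theorem h6_1_1 (E : Env κ ι) : ip (F6_1 E) (F6_1 E) = dotS (ek E lk6) r6_1_1 :=
  op_entryZ E lk6 1 5 _ _ _ _ (pg0 κ) (pg6 ι) m6_1 m6_1 l6_1 z6_1 w6_1 x6_1 (by decide) _ (chkS_sound E lk6 1 5 _ _ _ _ t6_1_1)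

def r6_1_2 : List (ℕ × ℤ) := [(55, 72), (57, -72), (66, 288), (67, -72), (75, -216), (142, 72), (144, -72)]

theorem h6_1_2 (E : Env κ ι) : ip (F6_1 E) (F6_2 E) = dotS (ek E lk6) r6_1_2 :=
  op_entryZ E lk6 1 5 _ _ _ _ (pg0 κ) (pg6 ι) m6_1 m6_2 l6_2 z6_2 w6_2 x6_2 (by decide) _ (chkS_sound E lk6 1 5 _ _ _ _ t6_1_2)

def r6_1_3 : List (ℕ × ℤ) := [(55, -72), (56, 72), (57, 216), (58, 72), (67, 72), (72, 216), (75, 72), (79, -72), (86, -432), (145, -144)]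

theorem h6_1_3 (E : Env κ ι) : ip (F6_1 E) (F6_3 E) = dotS (ek E lk6) r6_1_3 :=
  op_entryZ E lk6 1 5 _ _ _ _ (pg0 κ) (pg6 ι) m6_1 m6_3 l6_3 z6_3 w6_3 x6_3 (by decide) _ (chkS_sound E lk6 1 5 _ _ _ _ t6_1_3)

def r6_1_4 : List (ℕ × ℤ) := [(30, 72), (54, -72), (55, -144), (66, 216), (67, 144), (138, 72), (140, -72), (141, -216), (143, 72), (144, -72)]

theorem h6_1_4 (E : Env κ ι) : ip (F6_1 E) (F6_4 E) = dotS (ek E lk6) r6_1_4 :=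
  op_entryZ E lk6 1 5 _ _ _ _ (pg0 κ) (pg6 ι) m6_1 m6_4 l6_4 z6_4 w6_4 x6_4 (by decide) _ (chkS_sound E lk6 1 5 _ _ _ _ t6_1_4)

def r6_1_5 : List (ℕ × ℤ) := [(30, -216), (54, -72), (57, -144), (66, 216), (75, -144), (138, 72), (140, -72), (141, 72), (142, 144), (143, 72), (144, 72)]

theorem h6_1_5 (E : Env κ ι) : ip (F6_1 E) (F6_5 E) = dotS (ek E lk6) r6_1_5 :=
  op_entryZ E lk6 1 5 _ _ _ _ (pg0 κ) (pg6 ι) m6_1 m6_5 l6_5 z6_5 w6_5 x6_5 (by decide) _ (chkS_sound E lk6 1 5 _ _ _ _ t6_1_5)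

def r6_1_6 : List (ℕ × ℤ) := [(55, -216), (56, -72), (57, 72), (58, -72), (67, 216), (72, 72), (75, 216), (79, -216), (86, -144), (145, 144)]

theorem h6_1_6 (E : Env κ ι) : ip (F6_1 E) (F6_6 E) = dotS (ek E lk6) r6_1_6 :=
  op_entryZ E lk6 1 5 _ _ _ _ (pg0 κ) (pg6 ι) m6_1 m6_6 l6_6 z6_6 w6_6 x6_6 (by decide) _ (chkS_sound E lk6 1 5 _ _ _ _ t6_1_6)

def r6_1_7 : List (ℕ × ℤ) := [(55, 144), (58, 144), (67, -144), (75, -144), (79, 144), (146, -144)]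

theorem h6_1_7 (E : Env κ ι) : ip (F6_1 E) (F6_7 E) = dotS (ek E lk6) r6_1_7 :=
  op_entryZ E lk6 1 5 _ _ _ _ (pg0 κ) (pg6 ι) m6_1 m6_7 l6_7 z6_7 w6_7 x6_7 (by decide) _ (chkS_sound E lk6 1 5 _ _ _ _ t6_1_7)

def r6_1_8 : List (ℕ × ℤ) := [(26, -72), (68, -216), (147, 72), (148, -72), (149, 72), (151, 216), (167, -144), (168, 144), (259, -72), (260, 72)]

theorem h6_1_8 (E : Env κ ι) : ip (F6_1 E) (F6_8 E) = dotS (ek E lk6) r6_1_8 :=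
  op_entryZ E lk6 1 5 _ _ _ _ (pg0 κ) (pg6 ι) m6_1 m6_8 l6_8 z6_8 w6_8 x6_8 (by decide) _ (chkS_sound E lk6 1 5 _ _ _ _ t6_1_8)

def r6_1_9 : List (ℕ × ℤ) := [(22, -72), (147, 72), (148, -72), (150, -216), (151, 216), (165, 72), (167, -216), (168, 216), (212, 72), (213, -72), (259, -72), (260, 72)]

theorem h6_1_9 (E : Env κ ι) : ip (F6_1 E) (F6_9 E) = dotS (ek E lk6) r6_1_9 :=
  op_entryZ E lk6 1 5 _ _ _ _ (pg0 κ) (pg6 ι) m6_1 m6_9 l6_9 z6_9 w6_9 x6_9 (by decide) _ (chkS_sound E lk6 1 5 _ _ _ _ t6_1_9)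

def r6_1_10 : List (ℕ × ℤ) := [(22, 72), (26, 72), (68, -72), (147, 144), (148, -144), (149, -72), (150, -72), (151, 144), (165, -72), (167, -216), (168, 216), (212, -72), (213, 72), (259, -144), (260, 144)]

theorem h6_1_10 (E : Env κ ι) : ip (F6_1 E) (F6_10 E) = dotS (ek E lk6) r6_1_10 :=
  op_entryZ E lk6 1 5 _ _ _ _ (pg0 κ) (pg6 ι) m6_1 m6_10 l6_10 z6_10 w6_10 x6_10 (by decide) _ (chkS_sound E lk6 1 5 _ _ _ _ t6_1_10)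

def r6_1_11 : List (ℕ × ℤ) := [(87, -144), (88, 144), (167, -144), (168, 144), (210, 144), (211, -144)]

theorem h6_1_11 (E : Env κ ι) : ip (F6_1 E) (F6_11 E) = dotS (ek E lk6) r6_1_11 :=
  op_entryZ E lk6 1 5 _ _ _ _ (pg0 κ) (pg6 ι) m6_1 m6_11 l6_11 z6_11 w6_11 x6_11 (by decide) _ (chkS_sound E lk6 1 5 _ _ _ _ t6_1_11)

def r6_1_12 : List (ℕ × ℤ) := [(59, 144), (60, 144), (87, -144), (88, 144), (133, 144), (134, 144), (153, -288), (155, -288), (167, -144), (168, 144)]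

theorem h6_1_12 (E : Env κ ι) : ip (F6_1 E) (F6_12 E) = dotS (ek E lk6) r6_1_12 :=
  op_entryZ E lk6 1 5 _ _ _ _ (pg0 κ) (pg6 ι) m6_1 m6_12 l6_12 z6_12 w6_12 x6_12 (by decide) _ (chkS_sound E lk6 1 5 _ _ _ _ t6_1_12)

def r6_1_13 : List (ℕ × ℤ) := [(59, 216), (60, 72), (87, 72), (88, -72), (133, 216), (134, 72), (153, -432), (155, -144), (167, 72), (168, -72)]

theorem h6_1_13 (E : Env κ ι) : ip (F6_1 E) (F6_13 E) = dotS (ek E lk6) r6_1_13 :=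
  op_entryZ E lk6 1 5 _ _ _ _ (pg0 κ) (pg6 ι) m6_1 m6_13 l6_13 z6_13 w6_13 x6_13 (by decide) _ (chkS_sound E lk6 1 5 _ _ _ _ t6_1_13)

def r6_1_14 : List (ℕ × ℤ) := [(31, 216), (41, -72), (47, 72), (61, 72), (62, 216), (70, -432), (135, 72), (157, -144), (169, 72), (170, -72)]

theorem h6_1_14 (E : Env κ ι) : ip (F6_1 E) (F6_14 E) = dotS (ek E lk6) r6_1_14 :=
  op_entryZ E lk6 1 5 _ _ _ _ (pg0 κ) (pg6 ι) m6_1 m6_14 l6_14 z6_14 w6_14 x6_14 (by decide) _ (chkS_sound E lk6 1 5 _ _ _ _ t6_1_14)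

def r6_1_15 : List (ℕ × ℤ) := [(31, 144), (41, 144), (47, -144), (61, 144), (62, 144), (70, -288), (135, 144), (157, -288), (169, -144), (170, 144)]

theorem h6_1_15 (E : Env κ ι) : ip (F6_1 E) (F6_15 E) = dotS (ek E lk6) r6_1_15 :=
  op_entryZ E lk6 1 5 _ _ _ _ (pg0 κ) (pg6 ι) m6_1 m6_15 l6_15 z6_15 w6_15 x6_15 (by decide) _ (chkS_sound E lk6 1 5 _ _ _ _ t6_1_15)

def r6_1_16 : List (ℕ × ℤ) := [(63, 288), (136, 288), (160, -576)]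

theorem h6_1_16 (E : Env κ ι) : ip (F6_1 E) (F6_16 E) = dotS (ek E lk6) r6_1_16 :=
  op_entryZ E lk6 1 5 _ _ _ _ (pg0 κ) (pg6 ι) m6_1 m6_16 l6_16 z6_16 w6_16 x6_16 (by decide) _ (chkS_sound E lk6 1 5 _ _ _ _ t6_1_16)

def r6_1_17 : List (ℕ × ℤ) := [(261, 288), (262, -576), (264, 288)]

theorem h6_1_17 (E : Env κ ι) : ip (F6_1 E) (F6_17 E) = dotS (ek E lk6) r6_1_17 :=
  op_entryZ E lk6 1 5 _ _ _ _ (pg0 κ) (pg6 ι) m6_1 m6_17 l6_17 z6_17 w6_17 x6_17 (by decide) _ (chkS_sound E lk6 1 5 _ _ _ _ t6_1_17)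

def r6_2_2 : List (ℕ × ℤ) := [(29, -72), (74, 72), (75, -72), (79, 36), (140, 72), (141, -72), (143, 72), (144, -36), (172, 36), (173, -72), (180, 72), (181, 108), (182, -72), (193, -144), (266, 72)]

theorem h6_2_2 (E : Env κ ι) : ip (F6_2 E) (F6_2 E) = dotS (ek E lk6) r6_2_2 :=
  op_entryZ E lk6 1 5 _ _ _ _ (pg0 κ) (pg6 ι) m6_2 m6_2 l6_2 z6_2 w6_2 x6_2 (by decide) _ (chkS_sound E lk6 1 5 _ _ _ _ t6_2_2)

def r6_2_3 : List (ℕ × ℤ) := [(29, -108), (30, 108), (66, 180), (74, -180), (142, -144), (146, -144), (179, 36), (181, 144), (182, -36), (194, 144)]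

theorem h6_2_3 (E : Env κ ι) : ip (F6_2 E) (F6_3 E) = dotS (ek E lk6) r6_2_3 :=
  op_entryZ E lk6 1 5 _ _ _ _ (pg0 κ) (pg6 ι) m6_2 m6_3 l6_3 z6_3 w6_3 x6_3 (by decide) _ (chkS_sound E lk6 1 5 _ _ _ _ t6_2_3)

def r6_2_4 : List (ℕ × ℤ) := [(29, -36), (74, -108), (75, -72), (79, -36), (140, 36), (141, -36), (143, 108), (172, 72), (173, -36), (180, 36), (181, 72), (182, 108), (193, -72), (266, -36)]

theorem h6_2_4 (E : Env κ ι) : ip (F6_2 E) (F6_4 E) = dotS (ek E lk6) r6_2_4 :=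
  op_entryZ E lk6 1 5 _ _ _ _ (pg0 κ) (pg6 ι) m6_2 m6_4 l6_4 z6_4 w6_4 x6_4 (by decide) _ (chkS_sound E lk6 1 5 _ _ _ _ t6_2_4)

def r6_2_5 : List (ℕ × ℤ) := [(29, -36), (74, 36), (75, -72), (79, 36), (140, 36), (141, -36), (143, -36), (144, 72), (173, -36), (180, 36), (182, -36), (193, -72), (266, 108)]

theorem h6_2_5 (E : Env κ ι) : ip (F6_2 E) (F6_5 E) = dotS (ek E lk6) r6_2_5 :=
  op_entryZ E lk6 1 5 _ _ _ _ (pg0 κ) (pg6 ι) m6_2 m6_5 l6_5 z6_5 w6_5 x6_5 (by decide) _ (chkS_sound E lk6 1 5 _ _ _ _ t6_2_5)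

def r6_2_6 : List (ℕ × ℤ) := [(29, -36), (30, 36), (66, -36), (74, 36), (142, 144), (146, -144), (179, 108), (181, -144), (182, -108), (194, 144)]

theorem h6_2_6 (E : Env κ ι) : ip (F6_2 E) (F6_6 E) = dotS (ek E lk6) r6_2_6 :=
  op_entryZ E lk6 1 5 _ _ _ _ (pg0 κ) (pg6 ι) m6_2 m6_6 l6_6 z6_6 w6_6 x6_6 (by decide) _ (chkS_sound E lk6 1 5 _ _ _ _ t6_2_6)

def r6_2_7 : List (ℕ × ℤ) := [(29, 72), (30, -72), (66, 72), (74, -72), (179, -216), (182, 216), (194, 0)]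

theorem h6_2_7 (E : Env κ ι) : ip (F6_2 E) (F6_7 E) = dotS (ek E lk6) r6_2_7 :=
  op_entryZ E lk6 1 5 _ _ _ _ (pg0 κ) (pg6 ι) m6_2 m6_7 l6_7 z6_7 w6_7 x6_7 (by decide) _ (chkS_sound E lk6 1 5 _ _ _ _ t6_2_7)

def r6_2_8 : List (ℕ × ℤ) := [(24, 72), (28, -36), (76, 36), (87, -36), (88, 36), (147, -36), (148, -108), (150, 108), (151, 36), (184, -72), (186, -72), (187, 72), (188, 72), (189, -72), (195, 36), (196, 108), (197, -108), (198, -36), (208, -72), (209, 72), (268, 36), (270, -36)]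

theorem h6_2_8 (E : Env κ ι) : ip (F6_2 E) (F6_8 E) = dotS (ek E lk6) r6_2_8 :=
  op_entryZ E lk6 1 5 _ _ _ _ (pg0 κ) (pg6 ι) m6_2 m6_8 l6_8 z6_8 w6_8 x6_8 (by decide) _ (chkS_sound E lk6 1 5 _ _ _ _ t6_2_8)

def r6_2_9 : List (ℕ × ℤ) := [(24, 36), (28, -72), (76, 72), (87, -72), (88, 72), (147, 36), (148, -36), (149, -36), (150, 72), (151, -36), (184, -36), (186, 36), (187, -36), (188, 108), (189, -108), (195, -36), (196, 36), (197, -36), (198, 36), (208, -108), (209, 108), (268, 108), (270, -108)]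

theorem h6_2_9 (E : Env κ ι) : ip (F6_2 E) (F6_9 E) = dotS (ek E lk6) r6_2_9 :=
  op_entryZ E lk6 1 5 _ _ _ _ (pg0 κ) (pg6 ι) m6_2 m6_9 l6_9 z6_9 w6_9 x6_9 (by decide) _ (chkS_sound E lk6 1 5 _ _ _ _ t6_2_9)

def r6_2_10 : List (ℕ × ℤ) := [(24, 36), (28, -36), (76, 36), (87, -36), (88, 36), (149, -108), (150, 108), (184, -36), (186, 36), (187, -36), (188, 108), (189, -108), (208, -108), (209, 108), (270, 0)]

theorem h6_2_10 (E : Env κ ι) : ip (F6_2 E) (F6_10 E) = dotS (ek E lk6) r6_2_10 :=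
  op_entryZ E lk6 1 5 _ _ _ _ (pg0 κ) (pg6 ι) m6_2 m6_10 l6_10 z6_10 w6_10 x6_10 (by decide) _ (chkS_sound E lk6 1 5 _ _ _ _ t6_2_10)

def r6_2_11 : List (ℕ × ℤ) := [(26, -72), (28, 72), (68, 72), (76, -72), (188, -216), (189, 216), (206, 0)]

theorem h6_2_11 (E : Env κ ι) : ip (F6_2 E) (F6_11 E) = dotS (ek E lk6) r6_2_11 :=
  op_entryZ E lk6 1 5 _ _ _ _ (pg0 κ) (pg6 ι) m6_2 m6_11 l6_11 z6_11 w6_11 x6_11 (by decide) _ (chkS_sound E lk6 1 5 _ _ _ _ t6_2_11)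

def r6_2_12 : List (ℕ × ℤ) := [(26, 72), (28, -72), (68, 216), (76, -216), (152, -288), (188, -72), (189, 72), (199, 288), (200, 0)]

theorem h6_2_12 (E : Env κ ι) : ip (F6_2 E) (F6_12 E) = dotS (ek E lk6) r6_2_12 :=
  op_entryZ E lk6 1 5 _ _ _ _ (pg0 κ) (pg6 ι) m6_2 m6_12 l6_12 z6_12 w6_12 x6_12 (by decide) _ (chkS_sound E lk6 1 5 _ _ _ _ t6_2_12)

def r6_2_13 : List (ℕ × ℤ) := [(26, 108), (28, -108), (68, 180), (76, -180), (152, -144), (154, -144), (188, 36), (189, -36), (199, 144), (200, 144)]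

theorem h6_2_13 (E : Env κ ι) : ip (F6_2 E) (F6_13 E) = dotS (ek E lk6) r6_2_13 :=
  op_entryZ E lk6 1 5 _ _ _ _ (pg0 κ) (pg6 ι) m6_2 m6_13 l6_13 z6_13 w6_13 x6_13 (by decide) _ (chkS_sound E lk6 1 5 _ _ _ _ t6_2_13)

def r6_2_14 : List (ℕ × ℤ) := [(41, 108), (45, -108), (46, -180), (48, 36), (49, -36), (50, 144), (51, 180), (52, -144), (156, -144), (201, 144)]

theorem h6_2_14 (E : Env κ ι) : ip (F6_2 E) (F6_14 E) = dotS (ek E lk6) r6_2_14 :=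
  op_entryZ E lk6 1 5 _ _ _ _ (pg0 κ) (pg6 ι) m6_2 m6_14 l6_14 z6_14 w6_14 x6_14 (by decide) _ (chkS_sound E lk6 1 5 _ _ _ _ t6_2_14)

def r6_2_15 : List (ℕ × ℤ) := [(41, 72), (45, -72), (46, -216), (48, -72), (49, 72), (50, 288), (51, 216), (52, -288), (201, 0)]

theorem h6_2_15 (E : Env κ ι) : ip (F6_2 E) (F6_15 E) = dotS (ek E lk6) r6_2_15 :=
  op_entryZ E lk6 1 5 _ _ _ _ (pg0 κ) (pg6 ι) m6_2 m6_15 l6_15 z6_15 w6_15 x6_15 (by decide) _ (chkS_sound E lk6 1 5 _ _ _ _ t6_2_15)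

def r6_2_16 : List (ℕ × ℤ) := [(69, 288), (77, -288), (159, -288), (203, 288)]

theorem h6_2_16 (E : Env κ ι) : ip (F6_2 E) (F6_16 E) = dotS (ek E lk6) r6_2_16 :=
  op_entryZ E lk6 1 5 _ _ _ _ (pg0 κ) (pg6 ι) m6_2 m6_16 l6_16 z6_16 w6_16 x6_16 (by decide) _ (chkS_sound E lk6 1 5 _ _ _ _ t6_2_16)

def r6_2_17 : List (ℕ × ℤ) := [(25, -288), (27, 288), (271, 288), (274, -288)]

theorem h6_2_17 (E : Env κ ι) : ip (F6_2 E) (F6_17 E) = dotS (ek E lk6) r6_2_17 :=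
  op_entryZ E lk6 1 5 _ _ _ _ (pg0 κ) (pg6 ι) m6_2 m6_17 l6_17 z6_17 w6_17 x6_17 (by decide) _ (chkS_sound E lk6 1 5 _ _ _ _ t6_2_17)

def r6_3_3 : List (ℕ × ℤ) := [(3, 108), (29, 72), (71, 180), (74, 252), (75, -360), (78, -36), (79, -108), (141, -72), (144, -36)]

theorem h6_3_3 (E : Env κ ι) : ip (F6_3 E) (F6_3 E) = dotS (ek E lk6) r6_3_3 :=
  op_entryZ E lk6 1 5 _ _ _ _ (pg0 κ) (pg6 ι) m6_3 m6_3 l6_3 z6_3 w6_3 x6_3 (by decide) _ (chkS_sound E lk6 1 5 _ _ _ _ t6_3_3)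

def r6_3_4 : List (ℕ × ℤ) := [(30, 108), (57, -180), (58, -108), (66, 180), (142, 36), (146, -36), (172, -36), (174, 36), (179, -108), (181, 180), (182, -144), (183, -36), (194, 108)]

theorem h6_3_4 (E : Env κ ι) : ip (F6_3 E) (F6_4 E) = dotS (ek E lk6) r6_3_4 :=
  op_entryZ E lk6 1 5 _ _ _ _ (pg0 κ) (pg6 ι) m6_3 m6_4 l6_4 z6_4 w6_4 x6_4 (by decide) _ (chkS_sound E lk6 1 5 _ _ _ _ t6_3_4)

def r6_3_5 : List (ℕ × ℤ) := [(29, -72), (30, 36), (57, -36), (58, 36), (66, -36), (74, -216), (142, 36), (146, -36), (172, -180), (174, -108), (179, 108), (181, 180), (182, 72), (183, 108), (194, 108)]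

theorem h6_3_5 (E : Env κ ι) : ip (F6_3 E) (F6_5 E) = dotS (ek E lk6) r6_3_5 :=
  op_entryZ E lk6 1 5 _ _ _ _ (pg0 κ) (pg6 ι) m6_3 m6_5 l6_5 z6_5 w6_5 x6_5 (by decide) _ (chkS_sound E lk6 1 5 _ _ _ _ t6_3_5)

def r6_3_6 : List (ℕ × ℤ) := [(3, 36), (29, -72), (71, -36), (74, 180), (75, -216), (78, -108), (79, -36), (141, 72), (144, 180)]

theorem h6_3_6 (E : Env κ ι) : ip (F6_3 E) (F6_6 E) = dotS (ek E lk6) r6_3_6 :=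
  op_entryZ E lk6 1 5 _ _ _ _ (pg0 κ) (pg6 ι) m6_3 m6_6 l6_6 z6_6 w6_6 x6_6 (by decide) _ (chkS_sound E lk6 1 5 _ _ _ _ t6_3_6)

def r6_3_7 : List (ℕ × ℤ) := [(29, 216), (30, -72), (66, 72), (78, 72), (180, -72), (182, -216)]

theorem h6_3_7 (E : Env κ ι) : ip (F6_3 E) (F6_7 E) = dotS (ek E lk6) r6_3_7 :=
  op_entryZ E lk6 1 5 _ _ _ _ (pg0 κ) (pg6 ι) m6_3 m6_7 l6_7 z6_7 w6_7 x6_7 (by decide) _ (chkS_sound E lk6 1 5 _ _ _ _ t6_3_7)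

def r6_3_8 : List (ℕ × ℤ) := [(22, -108), (165, -180), (184, 36), (186, -180), (187, 144), (205, -36), (206, -108), (207, 36), (208, 108), (210, 108), (211, 36), (212, -36), (213, 180)]

theorem h6_3_8 (E : Env κ ι) : ip (F6_3 E) (F6_8 E) = dotS (ek E lk6) r6_3_8 :=
  op_entryZ E lk6 1 5 _ _ _ _ (pg0 κ) (pg6 ι) m6_3 m6_8 l6_8 z6_8 w6_8 x6_8 (by decide) _ (chkS_sound E lk6 1 5 _ _ _ _ t6_3_8)

def r6_3_9 : List (ℕ × ℤ) := [(24, -108), (184, 36), (186, -36), (187, 108), (205, -36), (206, 36), (207, 36), (208, 144), (209, -180), (210, 108), (211, -108), (212, -180), (213, 180)]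

theorem h6_3_9 (E : Env κ ι) : ip (F6_3 E) (F6_9 E) = dotS (ek E lk6) r6_3_9 :=
  op_entryZ E lk6 1 5 _ _ _ _ (pg0 κ) (pg6 ι) m6_3 m6_9 l6_9 z6_9 w6_9 x6_9 (by decide) _ (chkS_sound E lk6 1 5 _ _ _ _ t6_3_9)

def r6_3_10 : List (ℕ × ℤ) := [(22, -36), (24, -36), (165, 36), (184, 216), (186, -216), (187, 36), (205, 72), (206, -72), (207, -72), (208, 36), (209, 36), (210, 72), (211, -72), (212, -216), (213, 216)]

theorem h6_3_10 (E : Env κ ι) : ip (F6_3 E) (F6_10 E) = dotS (ek E lk6) r6_3_10 :=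
  op_entryZ E lk6 1 5 _ _ _ _ (pg0 κ) (pg6 ι) m6_3 m6_10 l6_10 z6_10 w6_10 x6_10 (by decide) _ (chkS_sound E lk6 1 5 _ _ _ _ t6_3_10)

def r6_3_11 : List (ℕ × ℤ) := [(2, 72), (22, -72), (24, 216), (165, 72), (185, -72), (187, -216)]

theorem h6_3_11 (E : Env κ ι) : ip (F6_3 E) (F6_11 E) = dotS (ek E lk6) r6_3_11 :=
  op_entryZ E lk6 1 5 _ _ _ _ (pg0 κ) (pg6 ι) m6_3 m6_11 l6_11 z6_11 w6_11 x6_11 (by decide) _ (chkS_sound E lk6 1 5 _ _ _ _ t6_3_11)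

def r6_3_12 : List (ℕ × ℤ) := [(11, 72), (28, 216), (73, 216), (76, 72), (80, -72), (81, 72), (87, -216), (88, -72), (149, -216), (150, 72), (151, -144)]

theorem h6_3_12 (E : Env κ ι) : ip (F6_3 E) (F6_12 E) = dotS (ek E lk6) r6_3_12 :=
  op_entryZ E lk6 1 5 _ _ _ _ (pg0 κ) (pg6 ι) m6_3 m6_12 l6_12 z6_12 w6_12 x6_12 (by decide) _ (chkS_sound E lk6 1 5 _ _ _ _ t6_3_12)

def r6_3_13 : List (ℕ × ℤ) := [(11, 108), (28, 36), (73, 180), (76, 252), (80, 36), (81, -36), (87, -180), (88, -108), (149, -36), (150, -180), (151, -72)]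

theorem h6_3_13 (E : Env κ ι) : ip (F6_3 E) (F6_13 E) = dotS (ek E lk6) r6_3_13 :=
  op_entryZ E lk6 1 5 _ _ _ _ (pg0 κ) (pg6 ι) m6_3 m6_13 l6_13 z6_13 w6_13 x6_13 (by decide) _ (chkS_sound E lk6 1 5 _ _ _ _ t6_3_13)

def r6_3_14 : List (ℕ × ℤ) := [(41, -108), (42, 108), (44, 180), (45, 36), (46, 252), (47, -216), (51, -180), (82, -36), (83, 36), (158, -72)]

theorem h6_3_14 (E : Env κ ι) : ip (F6_3 E) (F6_14 E) = dotS (ek E lk6) r6_3_14 :=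
  op_entryZ E lk6 1 5 _ _ _ _ (pg0 κ) (pg6 ι) m6_3 m6_14 l6_14 z6_14 w6_14 x6_14 (by decide) _ (chkS_sound E lk6 1 5 _ _ _ _ t6_3_14)

def r6_3_15 : List (ℕ × ℤ) := [(41, -72), (42, 72), (44, 216), (45, 216), (46, 72), (47, -432), (51, 72), (82, 72), (83, -72), (158, -144)]

theorem h6_3_15 (E : Env κ ι) : ip (F6_3 E) (F6_15 E) = dotS (ek E lk6) r6_3_15 :=
  op_entryZ E lk6 1 5 _ _ _ _ (pg0 κ) (pg6 ι) m6_3 m6_15 l6_15 z6_15 w6_15 x6_15 (by decide) _ (chkS_sound E lk6 1 5 _ _ _ _ t6_3_15)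

def r6_3_16 : List (ℕ × ℤ) := [(16, 288), (77, 288), (89, -288), (161, -288)]

theorem h6_3_16 (E : Env κ ι) : ip (F6_3 E) (F6_16 E) = dotS (ek E lk6) r6_3_16 :=
  op_entryZ E lk6 1 5 _ _ _ _ (pg0 κ) (pg6 ι) m6_3 m6_16 l6_16 z6_16 w6_16 x6_16 (by decide) _ (chkS_sound E lk6 1 5 _ _ _ _ t6_3_16)

def r6_3_17 : List (ℕ × ℤ) := [(20, 288), (21, -288), (276, 288), (277, -288)]

theorem h6_3_17 (E : Env κ ι) : ip (F6_3 E) (F6_17 E) = dotS (ek E lk6) r6_3_17 :=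
  op_entryZ E lk6 1 5 _ _ _ _ (pg0 κ) (pg6 ι) m6_3 m6_17 l6_17 z6_17 w6_17 x6_17 (by decide) _ (chkS_sound E lk6 1 5 _ _ _ _ t6_3_17)

def r6_4_4 : List (ℕ × ℤ) := [(29, -72), (74, -216), (75, -144), (79, -72), (140, 72), (141, 72), (143, 72), (172, 36), (173, 36), (179, -36), (180, 108), (181, 108), (182, 144), (183, 72), (193, -72), (266, -72), (267, -36)]

theorem h6_4_4 (E : Env κ ι) : ip (F6_4 E) (F6_4 E) = dotS (ek E lk6) r6_4_4 :=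
  op_entryZ E lk6 1 5 _ _ _ _ (pg0 κ) (pg6 ι) m6_4 m6_4 l6_4 z6_4 w6_4 x6_4 (by decide) _ (chkS_sound E lk6 1 5 _ _ _ _ t6_4_4)

def r6_4_5 : List (ℕ × ℤ) := [(172, 36), (173, -36), (179, -36), (180, 36), (181, -36), (182, -72), (183, 72), (193, -72), (267, 108)]

theorem h6_4_5 (E : Env κ ι) : ip (F6_4 E) (F6_5 E) = dotS (ek E lk6) r6_4_5 :=
  op_entryZ E lk6 1 5 _ _ _ _ (pg0 κ) (pg6 ι) m6_4 m6_5 l6_5 z6_5 w6_5 x6_5 (by decide) _ (chkS_sound E lk6 1 5 _ _ _ _ t6_4_5)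

def r6_4_6 : List (ℕ × ℤ) := [(30, 36), (57, 36), (58, -36), (66, -36), (142, 108), (146, -108), (172, -108), (174, 108), (179, -36), (181, -36), (182, -144), (183, 180), (194, 36)]

theorem h6_4_6 (E : Env κ ι) : ip (F6_4 E) (F6_6 E) = dotS (ek E lk6) r6_4_6 :=
  op_entryZ E lk6 1 5 _ _ _ _ (pg0 κ) (pg6 ι) m6_4 m6_6 l6_6 z6_6 w6_6 x6_6 (by decide) _ (chkS_sound E lk6 1 5 _ _ _ _ t6_4_6)

def r6_4_7 : List (ℕ × ℤ) := [(29, 72), (74, -72), (174, -72), (182, 216), (183, -216), (194, 72)]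

theorem h6_4_7 (E : Env κ ι) : ip (F6_4 E) (F6_7 E) = dotS (ek E lk6) r6_4_7 :=
  op_entryZ E lk6 1 5 _ _ _ _ (pg0 κ) (pg6 ι) m6_4 m6_7 l6_7 z6_7 w6_7 x6_7 (by decide) _ (chkS_sound E lk6 1 5 _ _ _ _ t6_4_7)

def r6_4_8 : List (ℕ × ℤ) := [(24, 36), (28, 36), (76, 108), (87, 72), (88, 72), (147, -72), (148, -72), (150, 72), (151, -72), (184, -36), (186, -108), (187, -36), (189, -72), (190, -72), (195, -36), (196, 36), (197, -36), (198, -108), (208, 36), (209, 108), (268, 72), (269, 36), (270, 36)]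

theorem h6_4_8 (E : Env κ ι) : ip (F6_4 E) (F6_8 E) = dotS (ek E lk6) r6_4_8 :=
  op_entryZ E lk6 1 5 _ _ _ _ (pg0 κ) (pg6 ι) m6_4 m6_8 l6_8 z6_8 w6_8 x6_8 (by decide) _ (chkS_sound E lk6 1 5 _ _ _ _ t6_4_8)

def r6_4_9 : List (ℕ × ℤ) := [(24, 72), (28, -36), (76, 36), (87, -36), (88, 36), (147, -36), (148, 36), (150, 108), (151, -108), (184, 36), (186, -36), (187, -72), (188, 72), (189, -36), (190, -36), (195, -72), (196, 72), (197, 72), (198, -72), (207, -36), (208, -36), (209, 72), (268, 36), (269, 36), (270, -72)]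

theorem h6_4_9 (E : Env κ ι) : ip (F6_4 E) (F6_9 E) = dotS (ek E lk6) r6_4_9 :=
  op_entryZ E lk6 1 5 _ _ _ _ (pg0 κ) (pg6 ι) m6_4 m6_9 l6_9 z6_9 w6_9 x6_9 (by decide) _ (chkS_sound E lk6 1 5 _ _ _ _ t6_4_9)

def r6_4_10 : List (ℕ × ℤ) := [(24, 36), (87, -36), (88, 36), (147, -36), (148, 36), (150, 108), (151, -108), (187, -36), (188, 72), (189, -36), (190, -36), (195, -36), (196, 36), (197, 108), (198, -108), (207, -108), (209, 108), (268, 36), (269, -72), (270, 36)]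

theorem h6_4_10 (E : Env κ ι) : ip (F6_4 E) (F6_10 E) = dotS (ek E lk6) r6_4_10 :=
  op_entryZ E lk6 1 5 _ _ _ _ (pg0 κ) (pg6 ι) m6_4 m6_10 l6_10 z6_10 w6_10 x6_10 (by decide) _ (chkS_sound E lk6 1 5 _ _ _ _ t6_4_10)

def r6_4_11 : List (ℕ × ℤ) := [(28, 72), (76, -72), (189, 216), (190, -216), (205, -72), (206, 72)]

theorem h6_4_11 (E : Env κ ι) : ip (F6_4 E) (F6_11 E) = dotS (ek E lk6) r6_4_11 :=
  op_entryZ E lk6 1 5 _ _ _ _ (pg0 κ) (pg6 ι) m6_4 m6_11 l6_11 z6_11 w6_11 x6_11 (by decide) _ (chkS_sound E lk6 1 5 _ _ _ _ t6_4_11)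

def r6_4_12 : List (ℕ × ℤ) := [(26, 72), (59, -216), (60, -72), (68, 216), (152, -72), (154, 72), (175, 72), (176, -72), (188, -72), (190, -216), (199, 216), (200, 72)]

theorem h6_4_12 (E : Env κ ι) : ip (F6_4 E) (F6_12 E) = dotS (ek E lk6) r6_4_12 :=
  op_entryZ E lk6 1 5 _ _ _ _ (pg0 κ) (pg6 ι) m6_4 m6_12 l6_12 z6_12 w6_12 x6_12 (by decide) _ (chkS_sound E lk6 1 5 _ _ _ _ t6_4_12)

def r6_4_13 : List (ℕ × ℤ) := [(26, 108), (59, -180), (60, -108), (68, 180), (152, 36), (154, -36), (175, -36), (176, 36), (188, -108), (189, -144), (190, -36), (199, 180), (200, 108)]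

theorem h6_4_13 (E : Env κ ι) : ip (F6_4 E) (F6_13 E) = dotS (ek E lk6) r6_4_13 :=
  op_entryZ E lk6 1 5 _ _ _ _ (pg0 κ) (pg6 ι) m6_4 m6_13 l6_13 z6_13 w6_13 x6_13 (by decide) _ (chkS_sound E lk6 1 5 _ _ _ _ t6_4_13)

def r6_4_14 : List (ℕ × ℤ) := [(41, 108), (48, -108), (49, -144), (50, 180), (51, 180), (52, 36), (61, -108), (62, -180), (85, -36), (156, -36), (177, 36), (191, -36), (201, 108)]

theorem h6_4_14 (E : Env κ ι) : ip (F6_4 E) (F6_14 E) = dotS (ek E lk6) r6_4_14 :=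
  op_entryZ E lk6 1 5 _ _ _ _ (pg0 κ) (pg6 ι) m6_4 m6_14 l6_14 z6_14 w6_14 x6_14 (by decide) _ (chkS_sound E lk6 1 5 _ _ _ _ t6_4_14)

def r6_4_15 : List (ℕ × ℤ) := [(41, 72), (48, -72), (50, 216), (51, 216), (52, -72), (61, -72), (62, -216), (85, 72), (156, 72), (177, -72), (191, -216), (201, 72)]

theorem h6_4_15 (E : Env κ ι) : ip (F6_4 E) (F6_15 E) = dotS (ek E lk6) r6_4_15 :=
  op_entryZ E lk6 1 5 _ _ _ _ (pg0 κ) (pg6 ι) m6_4 m6_15 l6_15 z6_15 w6_15 x6_15 (by decide) _ (chkS_sound E lk6 1 5 _ _ _ _ t6_4_15)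

def r6_4_16 : List (ℕ × ℤ) := [(63, -288), (69, 288), (192, -288), (203, 288)]

theorem h6_4_16 (E : Env κ ι) : ip (F6_4 E) (F6_16 E) = dotS (ek E lk6) r6_4_16 :=
  op_entryZ E lk6 1 5 _ _ _ _ (pg0 κ) (pg6 ι) m6_4 m6_16 l6_16 z6_16 w6_16 x6_16 (by decide) _ (chkS_sound E lk6 1 5 _ _ _ _ t6_4_16)

def r6_4_17 : List (ℕ × ℤ) := [(27, 288), (271, 288), (272, -288), (275, -288)]

theorem h6_4_17 (E : Env κ ι) : ip (F6_4 E) (F6_17 E) = dotS (ek E lk6) r6_4_17 :=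
  op_entryZ E lk6 1 5 _ _ _ _ (pg0 κ) (pg6 ι) m6_4 m6_17 l6_17 z6_17 w6_17 x6_17 (by decide) _ (chkS_sound E lk6 1 5 _ _ _ _ t6_4_17)

def r6_5_5 : List (ℕ × ℤ) := [(29, 72), (74, -72), (75, -144), (79, 72), (140, 72), (141, -72), (143, -72), (144, 144), (172, 36), (173, 36), (179, -36), (180, -36), (181, -36), (183, 72), (193, -72), (266, 72), (267, -36)]

theorem h6_5_5 (E : Env κ ι) : ip (F6_5 E) (F6_5 E) = dotS (ek E lk6) r6_5_5 :=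
  op_entryZ E lk6 1 5 _ _ _ _ (pg0 κ) (pg6 ι) m6_5 m6_5 l6_5 z6_5 w6_5 x6_5 (by decide) _ (chkS_sound E lk6 1 5 _ _ _ _ t6_5_5)

def r6_5_6 : List (ℕ × ℤ) := [(29, 72), (30, 108), (57, -108), (58, 108), (66, -108), (74, -72), (142, 108), (146, -108), (172, 36), (174, -36), (179, 36), (181, -36), (182, -72), (183, 36), (194, 36)]

theorem h6_5_6 (E : Env κ ι) : ip (F6_5 E) (F6_6 E) = dotS (ek E lk6) r6_5_6 :=
  op_entryZ E lk6 1 5 _ _ _ _ (pg0 κ) (pg6 ι) m6_5 m6_6 l6_6 z6_6 w6_6 x6_6 (by decide) _ (chkS_sound E lk6 1 5 _ _ _ _ t6_5_6)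

def r6_5_7 : List (ℕ × ℤ) := [(29, -72), (30, -144), (66, 144), (74, 72), (174, -72), (179, -144), (182, 72), (183, 72), (194, 72)]

theorem h6_5_7 (E : Env κ ι) : ip (F6_5 E) (F6_7 E) = dotS (ek E lk6) r6_5_7 :=
  op_entryZ E lk6 1 5 _ _ _ _ (pg0 κ) (pg6 ι) m6_5 m6_7 l6_7 z6_7 w6_7 x6_7 (by decide) _ (chkS_sound E lk6 1 5 _ _ _ _ t6_5_7)

def r6_5_8 : List (ℕ × ℤ) := [(24, 36), (28, -36), (76, 36), (184, -36), (186, 36), (187, 108), (188, 144), (189, 72), (190, -72), (195, 36), (196, 108), (197, -108), (198, -36), (208, -108), (209, -36), (269, -108), (270, -36)]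

theorem h6_5_8 (E : Env κ ι) : ip (F6_5 E) (F6_8 E) = dotS (ek E lk6) r6_5_8 :=
  op_entryZ E lk6 1 5 _ _ _ _ (pg0 κ) (pg6 ι) m6_5 m6_8 l6_8 z6_8 w6_8 x6_8 (by decide) _ (chkS_sound E lk6 1 5 _ _ _ _ t6_5_8)

def r6_5_9 : List (ℕ × ℤ) := [(28, -36), (76, 36), (87, -36), (88, 36), (147, 36), (148, -36), (149, 72), (150, -36), (151, -36), (184, -36), (186, 36), (188, 144), (189, 36), (190, -180), (207, 108), (208, -108), (268, 108), (269, -108)]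

theorem h6_5_9 (E : Env κ ι) : ip (F6_5 E) (F6_9 E) = dotS (ek E lk6) r6_5_9 :=
  op_entryZ E lk6 1 5 _ _ _ _ (pg0 κ) (pg6 ι) m6_5 m6_9 l6_9 z6_9 w6_9 x6_9 (by decide) _ (chkS_sound E lk6 1 5 _ _ _ _ t6_5_9)

def r6_5_10 : List (ℕ × ℤ) := [(24, -36), (28, -72), (76, 72), (87, 36), (88, -36), (147, -36), (148, 36), (149, -72), (150, 36), (151, 36), (184, -72), (186, 72), (187, 36), (188, 144), (189, 36), (190, -180), (195, -36), (196, 36), (197, -36), (198, 36), (207, 36), (208, -72), (209, 36), (268, 36), (269, -72), (270, 36)]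

theorem h6_5_10 (E : Env κ ι) : ip (F6_5 E) (F6_10 E) = dotS (ek E lk6) r6_5_10 :=
  op_entryZ E lk6 1 5 _ _ _ _ (pg0 κ) (pg6 ι) m6_5 m6_10 l6_10 z6_10 w6_10 x6_10 (by decide) _ (chkS_sound E lk6 1 5 _ _ _ _ t6_5_10)

def r6_5_11 : List (ℕ × ℤ) := [(26, -144), (28, -72), (68, 144), (76, 72), (188, -144), (189, 72), (190, 72), (205, -72), (206, 72)]

theorem h6_5_11 (E : Env κ ι) : ip (F6_5 E) (F6_11 E) = dotS (ek E lk6) r6_5_11 :=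
  op_entryZ E lk6 1 5 _ _ _ _ (pg0 κ) (pg6 ι) m6_5 m6_11 l6_11 z6_11 w6_11 x6_11 (by decide) _ (chkS_sound E lk6 1 5 _ _ _ _ t6_5_11)

def r6_5_12 : List (ℕ × ℤ) := [(26, -72), (28, -144), (59, 72), (60, -72), (68, 72), (76, -144), (152, -72), (154, 72), (175, -216), (176, -72), (188, 72), (189, 144), (190, 72), (199, 216), (200, 72)]

theorem h6_5_12 (E : Env κ ι) : ip (F6_5 E) (F6_12 E) = dotS (ek E lk6) r6_5_12 :=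
  op_entryZ E lk6 1 5 _ _ _ _ (pg0 κ) (pg6 ι) m6_5 m6_12 l6_12 z6_12 w6_12 x6_12 (by decide) _ (chkS_sound E lk6 1 5 _ _ _ _ t6_5_12)

def r6_5_13 : List (ℕ × ℤ) := [(26, 36), (28, -72), (59, -36), (60, 36), (68, -36), (76, -216), (152, 36), (154, -36), (175, -180), (176, -108), (188, 108), (189, 72), (190, 108), (199, 180), (200, 108)]

theorem h6_5_13 (E : Env κ ι) : ip (F6_5 E) (F6_13 E) = dotS (ek E lk6) r6_5_13 :=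
  op_entryZ E lk6 1 5 _ _ _ _ (pg0 κ) (pg6 ι) m6_5 m6_13 l6_13 z6_13 w6_13 x6_13 (by decide) _ (chkS_sound E lk6 1 5 _ _ _ _ t6_5_13)

def r6_5_14 : List (ℕ × ℤ) := [(41, 36), (45, -72), (46, -216), (48, 108), (49, 72), (50, 180), (51, -36), (52, 36), (61, 36), (62, -36), (85, -180), (156, -36), (177, -108), (191, 108), (201, 108)]

theorem h6_5_14 (E : Env κ ι) : ip (F6_5 E) (F6_14 E) = dotS (ek E lk6) r6_5_14 :=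
  op_entryZ E lk6 1 5 _ _ _ _ (pg0 κ) (pg6 ι) m6_5 m6_14 l6_14 z6_14 w6_14 x6_14 (by decide) _ (chkS_sound E lk6 1 5 _ _ _ _ t6_5_14)

def r6_5_15 : List (ℕ × ℤ) := [(41, -72), (45, -144), (46, -144), (48, 72), (49, 144), (50, 216), (51, 72), (52, -72), (61, -72), (62, 72), (85, -216), (156, 72), (177, -72), (191, 72), (201, 72)]

theorem h6_5_15 (E : Env κ ι) : ip (F6_5 E) (F6_15 E) = dotS (ek E lk6) r6_5_15 :=
  op_entryZ E lk6 1 5 _ _ _ _ (pg0 κ) (pg6 ι) m6_5 m6_15 l6_15 z6_15 w6_15 x6_15 (by decide) _ (chkS_sound E lk6 1 5 _ _ _ _ t6_5_15)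

def r6_5_16 : List (ℕ × ℤ) := [(77, -288), (178, -288), (192, 288), (203, 288)]

theorem h6_5_16 (E : Env κ ι) : ip (F6_5 E) (F6_16 E) = dotS (ek E lk6) r6_5_16 :=
  op_entryZ E lk6 1 5 _ _ _ _ (pg0 κ) (pg6 ι) m6_5 m6_16 l6_16 z6_16 w6_16 x6_16 (by decide) _ (chkS_sound E lk6 1 5 _ _ _ _ t6_5_16)

def r6_5_17 : List (ℕ × ℤ) := [(25, -288), (271, 288), (273, -288), (275, 288)]

theorem h6_5_17 (E : Env κ ι) : ip (F6_5 E) (F6_17 E) = dotS (ek E lk6) r6_5_17 :=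
  op_entryZ E lk6 1 5 _ _ _ _ (pg0 κ) (pg6 ι) m6_5 m6_17 l6_17 z6_17 w6_17 x6_17 (by decide) _ (chkS_sound E lk6 1 5 _ _ _ _ t6_5_17)

def r6_6_6 : List (ℕ × ℤ) := [(3, 108), (29, 72), (71, -108), (74, -36), (75, -360), (78, -36), (79, 180), (141, -72), (144, 252)]

theorem h6_6_6 (E : Env κ ι) : ip (F6_6 E) (F6_6 E) = dotS (ek E lk6) r6_6_6 :=
  op_entryZ E lk6 1 5 _ _ _ _ (pg0 κ) (pg6 ι) m6_6 m6_6 l6_6 z6_6 w6_6 x6_6 (by decide) _ (chkS_sound E lk6 1 5 _ _ _ _ t6_6_6)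

def r6_6_7 : List (ℕ × ℤ) := [(29, 72), (30, -216), (66, 216), (78, -72), (180, 72), (182, -72)]

theorem h6_6_7 (E : Env κ ι) : ip (F6_6 E) (F6_7 E) = dotS (ek E lk6) r6_6_7 :=
  op_entryZ E lk6 1 5 _ _ _ _ (pg0 κ) (pg6 ι) m6_6 m6_7 l6_7 z6_7 w6_7 x6_7 (by decide) _ (chkS_sound E lk6 1 5 _ _ _ _ t6_6_7)

def r6_6_8 : List (ℕ × ℤ) := [(22, -36), (165, 36), (184, 108), (186, 36), (187, 144), (205, -108), (206, -36), (207, -180), (208, 36), (210, 36), (211, 108), (212, -108), (213, -36)]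

theorem h6_6_8 (E : Env κ ι) : ip (F6_6 E) (F6_8 E) = dotS (ek E lk6) r6_6_8 :=
  op_entryZ E lk6 1 5 _ _ _ _ (pg0 κ) (pg6 ι) m6_6 m6_8 l6_8 z6_8 w6_8 x6_8 (by decide) _ (chkS_sound E lk6 1 5 _ _ _ _ t6_6_8)

def r6_6_9 : List (ℕ × ℤ) := [(24, -36), (184, 108), (186, -108), (187, 36), (205, -108), (206, 108), (207, -180), (208, 144), (209, 36), (210, 36), (211, -36), (212, 36), (213, -36)]

theorem h6_6_9 (E : Env κ ι) : ip (F6_6 E) (F6_9 E) = dotS (ek E lk6) r6_6_9 :=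
  op_entryZ E lk6 1 5 _ _ _ _ (pg0 κ) (pg6 ι) m6_6 m6_9 l6_9 z6_9 w6_9 x6_9 (by decide) _ (chkS_sound E lk6 1 5 _ _ _ _ t6_6_9)

def r6_6_10 : List (ℕ × ℤ) := [(22, -108), (24, -108), (165, 108), (184, 72), (186, -72), (187, 108), (205, -72), (206, 72), (207, -216), (208, 108), (209, 108), (210, -72), (211, 72), (212, -72), (213, 72)]

theorem h6_6_10 (E : Env κ ι) : ip (F6_6 E) (F6_10 E) = dotS (ek E lk6) r6_6_10 :=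
  op_entryZ E lk6 1 5 _ _ _ _ (pg0 κ) (pg6 ι) m6_6 m6_10 l6_10 z6_10 w6_10 x6_10 (by decide) _ (chkS_sound E lk6 1 5 _ _ _ _ t6_6_10)

def r6_6_11 : List (ℕ × ℤ) := [(2, -72), (22, -216), (24, 72), (165, 216), (185, 72), (187, -72)]

theorem h6_6_11 (E : Env κ ι) : ip (F6_6 E) (F6_11 E) = dotS (ek E lk6) r6_6_11 :=
  op_entryZ E lk6 1 5 _ _ _ _ (pg0 κ) (pg6 ι) m6_6 m6_11 l6_11 z6_11 w6_11 x6_11 (by decide) _ (chkS_sound E lk6 1 5 _ _ _ _ t6_6_11)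

def r6_6_12 : List (ℕ × ℤ) := [(11, -72), (28, 72), (73, 72), (76, 216), (80, -216), (81, -72), (87, -72), (88, -216), (149, -72), (150, 216), (151, 144)]

theorem h6_6_12 (E : Env κ ι) : ip (F6_6 E) (F6_12 E) = dotS (ek E lk6) r6_6_12 :=
  op_entryZ E lk6 1 5 _ _ _ _ (pg0 κ) (pg6 ι) m6_6 m6_12 l6_12 z6_12 w6_12 x6_12 (by decide) _ (chkS_sound E lk6 1 5 _ _ _ _ t6_6_12)

def r6_6_13 : List (ℕ × ℤ) := [(11, 36), (28, 108), (73, -36), (76, 180), (80, -180), (81, -108), (87, -252), (88, -36), (149, 180), (150, 36), (151, 72)]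

theorem h6_6_13 (E : Env κ ι) : ip (F6_6 E) (F6_13 E) = dotS (ek E lk6) r6_6_13 :=
  op_entryZ E lk6 1 5 _ _ _ _ (pg0 κ) (pg6 ι) m6_6 m6_13 l6_13 z6_13 w6_13 x6_13 (by decide) _ (chkS_sound E lk6 1 5 _ _ _ _ t6_6_13)

def r6_6_14 : List (ℕ × ℤ) := [(41, -36), (42, 36), (44, -36), (45, 108), (46, 180), (47, -72), (51, 36), (82, -108), (83, -180), (158, 72)]

theorem h6_6_14 (E : Env κ ι) : ip (F6_6 E) (F6_14 E) = dotS (ek E lk6) r6_6_14 :=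
  op_entryZ E lk6 1 5 _ _ _ _ (pg0 κ) (pg6 ι) m6_6 m6_14 l6_14 z6_14 w6_14 x6_14 (by decide) _ (chkS_sound E lk6 1 5 _ _ _ _ t6_6_14)

def r6_6_15 : List (ℕ × ℤ) := [(41, -216), (42, -72), (44, 72), (45, 72), (46, 216), (47, -144), (51, 216), (82, -72), (83, -216), (158, 144)]

theorem h6_6_15 (E : Env κ ι) : ip (F6_6 E) (F6_15 E) = dotS (ek E lk6) r6_6_15 :=
  op_entryZ E lk6 1 5 _ _ _ _ (pg0 κ) (pg6 ι) m6_6 m6_15 l6_15 z6_15 w6_15 x6_15 (by decide) _ (chkS_sound E lk6 1 5 _ _ _ _ t6_6_15)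

def r6_6_16 : List (ℕ × ℤ) := [(77, 288), (84, -288), (89, -288), (161, 288)]

theorem h6_6_16 (E : Env κ ι) : ip (F6_6 E) (F6_16 E) = dotS (ek E lk6) r6_6_16 :=
  op_entryZ E lk6 1 5 _ _ _ _ (pg0 κ) (pg6 ι) m6_6 m6_16 l6_16 z6_16 w6_16 x6_16 (by decide) _ (chkS_sound E lk6 1 5 _ _ _ _ t6_6_16)

def r6_6_17 : List (ℕ × ℤ) := [(10, -288), (21, -288), (276, 288), (277, 288)]

theorem h6_6_17 (E : Env κ ι) : ip (F6_6 E) (F6_17 E) = dotS (ek E lk6) r6_6_17 :=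
  op_entryZ E lk6 1 5 _ _ _ _ (pg0 κ) (pg6 ι) m6_6 m6_17 l6_17 z6_17 w6_17 x6_17 (by decide) _ (chkS_sound E lk6 1 5 _ _ _ _ t6_6_17)

def r6_7_7 : List (ℕ × ℤ) := [(162, 72), (163, -72), (172, 144), (181, -144)]

theorem h6_7_7 (E : Env κ ι) : ip (F6_7 E) (F6_7 E) = dotS (ek E lk6) r6_7_7 :=
  op_entryZ E lk6 1 5 _ _ _ _ (pg0 κ) (pg6 ι) m6_7 m6_7 l6_7 z6_7 w6_7 x6_7 (by decide) _ (chkS_sound E lk6 1 5 _ _ _ _ t6_7_7)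

def r6_7_8 : List (ℕ × ℤ) := [(24, -72), (187, -216), (205, 72), (206, -72), (207, 216), (209, 72)]

theorem h6_7_8 (E : Env κ ι) : ip (F6_7 E) (F6_8 E) = dotS (ek E lk6) r6_7_8 :=
  op_entryZ E lk6 1 5 _ _ _ _ (pg0 κ) (pg6 ι) m6_7 m6_8 l6_8 z6_8 w6_8 x6_8 (by decide) _ (chkS_sound E lk6 1 5 _ _ _ _ t6_7_8)

def r6_7_9 : List (ℕ × ℤ) := [(22, -72), (165, 72), (205, 72), (206, -72), (207, 216), (208, -216), (209, 0)]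

theorem h6_7_9 (E : Env κ ι) : ip (F6_7 E) (F6_9 E) = dotS (ek E lk6) r6_7_9 :=
  op_entryZ E lk6 1 5 _ _ _ _ (pg0 κ) (pg6 ι) m6_7 m6_9 l6_9 z6_9 w6_9 x6_9 (by decide) _ (chkS_sound E lk6 1 5 _ _ _ _ t6_7_9)

def r6_7_10 : List (ℕ × ℤ) := [(22, 72), (24, 72), (165, -72), (187, -72), (205, 144), (206, -144), (207, 144), (208, -72), (209, -72)]

theorem h6_7_10 (E : Env κ ι) : ip (F6_7 E) (F6_10 E) = dotS (ek E lk6) r6_7_10 :=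
  op_entryZ E lk6 1 5 _ _ _ _ (pg0 κ) (pg6 ι) m6_7 m6_10 l6_10 z6_10 w6_10 x6_10 (by decide) _ (chkS_sound E lk6 1 5 _ _ _ _ t6_7_10)

def r6_7_11 : List (ℕ × ℤ) := [(164, 72), (166, -72), (184, 144), (186, -144)]

theorem h6_7_11 (E : Env κ ι) : ip (F6_7 E) (F6_11 E) = dotS (ek E lk6) r6_7_11 :=
  op_entryZ E lk6 1 5 _ _ _ _ (pg0 κ) (pg6 ι) m6_7 m6_11 l6_11 z6_11 w6_11 x6_11 (by decide) _ (chkS_sound E lk6 1 5 _ _ _ _ t6_7_11)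

def r6_7_12 : List (ℕ × ℤ) := [(26, 144), (68, -144), (80, 144), (81, 144), (197, -144), (198, -144)]

theorem h6_7_12 (E : Env κ ι) : ip (F6_7 E) (F6_12 E) = dotS (ek E lk6) r6_7_12 :=
  op_entryZ E lk6 1 5 _ _ _ _ (pg0 κ) (pg6 ι) m6_7 m6_12 l6_12 z6_12 w6_12 x6_12 (by decide) _ (chkS_sound E lk6 1 5 _ _ _ _ t6_7_12)

def r6_7_13 : List (ℕ × ℤ) := [(26, -72), (68, 72), (80, 216), (81, 72), (197, -216), (198, -72)]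

theorem h6_7_13 (E : Env κ ι) : ip (F6_7 E) (F6_13 E) = dotS (ek E lk6) r6_7_13 :=
  op_entryZ E lk6 1 5 _ _ _ _ (pg0 κ) (pg6 ι) m6_7 m6_13 l6_13 z6_13 w6_13 x6_13 (by decide) _ (chkS_sound E lk6 1 5 _ _ _ _ t6_7_13)

def r6_7_14 : List (ℕ × ℤ) := [(41, -72), (46, -216), (51, 72), (82, 72), (83, 216), (202, -72)]

theorem h6_7_14 (E : Env κ ι) : ip (F6_7 E) (F6_14 E) = dotS (ek E lk6) r6_7_14 :=
  op_entryZ E lk6 1 5 _ _ _ _ (pg0 κ) (pg6 ι) m6_7 m6_14 l6_14 z6_14 w6_14 x6_14 (by decide) _ (chkS_sound E lk6 1 5 _ _ _ _ t6_7_14)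

def r6_7_15 : List (ℕ × ℤ) := [(41, 144), (46, -144), (51, -144), (82, 144), (83, 144), (202, -144)]

theorem h6_7_15 (E : Env κ ι) : ip (F6_7 E) (F6_15 E) = dotS (ek E lk6) r6_7_15 :=
  op_entryZ E lk6 1 5 _ _ _ _ (pg0 κ) (pg6 ι) m6_7 m6_15 l6_15 z6_15 w6_15 x6_15 (by decide) _ (chkS_sound E lk6 1 5 _ _ _ _ t6_7_15)

def r6_7_16 : List (ℕ × ℤ) := [(84, 288), (204, -288)]

theorem h6_7_16 (E : Env κ ι) : ip (F6_7 E) (F6_16 E) = dotS (ek E lk6) r6_7_16 :=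
  op_entryZ E lk6 1 5 _ _ _ _ (pg0 κ) (pg6 ι) m6_7 m6_16 l6_16 z6_16 w6_16 x6_16 (by decide) _ (chkS_sound E lk6 1 5 _ _ _ _ t6_7_16)

def r6_7_17 : List (ℕ × ℤ) := [(19, 288), (278, -288)]

theorem h6_7_17 (E : Env κ ι) : ip (F6_7 E) (F6_17 E) = dotS (ek E lk6) r6_7_17 :=
  op_entryZ E lk6 1 5 _ _ _ _ (pg0 κ) (pg6 ι) m6_7 m6_17 l6_17 z6_17 w6_17 x6_17 (by decide) _ (chkS_sound E lk6 1 5 _ _ _ _ t6_7_17)

def r6_8_8 : List (ℕ × ℤ) := [(90, -36), (92, 72), (98, 108), (99, 72), (102, 36), (103, -72), (107, 36), (111, -72), (112, 72), (215, -72), (217, -72), (218, -216), (225, 36), (226, 108), (230, 72), (231, -144), (236, 72), (237, 72), (243, -72)]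

theorem h6_8_8 (E : Env κ ι) : ip (F6_8 E) (F6_8 E) = dotS (ek E lk6) r6_8_8 :=
  op_entryZ E lk6 1 5 _ _ _ _ (pg0 κ) (pg6 ι) m6_8 m6_8 l6_8 z6_8 w6_8 x6_8 (by decide) _ (chkS_sound E lk6 1 5 _ _ _ _ t6_8_8)

def r6_8_9 : List (ℕ × ℤ) := [(90, -36), (91, 36), (92, 36), (98, 36), (99, 180), (102, -36), (103, -72), (107, 36), (111, -36), (112, -144), (215, -36), (218, -108), (225, 72), (226, 72), (230, -36), (231, -72), (236, 36), (237, 108), (243, -36)]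

theorem h6_8_9 (E : Env κ ι) : ip (F6_8 E) (F6_9 E) = dotS (ek E lk6) r6_8_9 :=
  op_entryZ E lk6 1 5 _ _ _ _ (pg0 κ) (pg6 ι) m6_8 m6_9 l6_9 z6_9 w6_9 x6_9 (by decide) _ (chkS_sound E lk6 1 5 _ _ _ _ t6_8_9)

def r6_8_10 : List (ℕ × ℤ) := [(90, 72), (91, 108), (92, 36), (99, 36), (107, -72), (111, -36), (112, -72), (215, -36), (217, -72), (218, -108), (225, 36), (226, 108), (230, -36), (231, -72), (236, 36), (237, 108), (243, -36)]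

theorem h6_8_10 (E : Env κ ι) : ip (F6_8 E) (F6_10 E) = dotS (ek E lk6) r6_8_10 :=
  op_entryZ E lk6 1 5 _ _ _ _ (pg0 κ) (pg6 ι) m6_8 m6_10 l6_10 z6_10 w6_10 x6_10 (by decide) _ (chkS_sound E lk6 1 5 _ _ _ _ t6_8_10)

def r6_8_11 : List (ℕ × ℤ) := [(91, 216), (96, 72), (99, -216), (111, -72), (218, 72), (219, -72), (232, 0)]

theorem h6_8_11 (E : Env κ ι) : ip (F6_8 E) (F6_11 E) = dotS (ek E lk6) r6_8_11 :=
  op_entryZ E lk6 1 5 _ _ _ _ (pg0 κ) (pg6 ι) m6_8 m6_11 l6_11 z6_11 w6_11 x6_11 (by decide) _ (chkS_sound E lk6 1 5 _ _ _ _ t6_8_11)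

def r6_8_12 : List (ℕ × ℤ) := [(91, 216), (93, 72), (103, 72), (108, -72), (112, -216), (125, -72), (126, 72), (220, -72), (232, -216), (233, -72), (248, 72), (249, 216)]

theorem h6_8_12 (E : Env κ ι) : ip (F6_8 E) (F6_12 E) = dotS (ek E lk6) r6_8_12 :=
  op_entryZ E lk6 1 5 _ _ _ _ (pg0 κ) (pg6 ι) m6_8 m6_12 l6_12 z6_12 w6_12 x6_12 (by decide) _ (chkS_sound E lk6 1 5 _ _ _ _ t6_8_12)

def r6_8_13 : List (ℕ × ℤ) := [(91, 36), (93, -36), (99, 144), (103, 108), (108, 36), (112, -180), (125, -108), (126, -36), (220, -108), (232, -180), (233, 36), (248, 108), (249, 180)]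

theorem h6_8_13 (E : Env κ ι) : ip (F6_8 E) (F6_13 E) = dotS (ek E lk6) r6_8_13 :=
  op_entryZ E lk6 1 5 _ _ _ _ (pg0 κ) (pg6 ι) m6_8 m6_13 l6_13 z6_13 w6_13 x6_13 (by decide) _ (chkS_sound E lk6 1 5 _ _ _ _ t6_8_13)

def r6_8_14 : List (ℕ × ℤ) := [(40, -108), (94, -36), (95, 36), (101, 144), (104, 108), (109, 36), (113, -36), (123, -144), (127, -36), (221, -108), (234, 36), (235, -180), (250, 180), (253, 108)]

theorem h6_8_14 (E : Env κ ι) : ip (F6_8 E) (F6_14 E) = dotS (ek E lk6) r6_8_14 :=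
  op_entryZ E lk6 1 5 _ _ _ _ (pg0 κ) (pg6 ι) m6_8 m6_14 l6_14 z6_14 w6_14 x6_14 (by decide) _ (chkS_sound E lk6 1 5 _ _ _ _ t6_8_14)

def r6_8_15 : List (ℕ × ℤ) := [(40, -72), (94, 72), (95, 216), (104, 72), (109, -72), (113, -216), (127, 72), (221, -72), (234, -72), (235, -216), (250, 216), (253, 72)]

theorem h6_8_15 (E : Env κ ι) : ip (F6_8 E) (F6_15 E) = dotS (ek E lk6) r6_8_15 :=
  op_entryZ E lk6 1 5 _ _ _ _ (pg0 κ) (pg6 ι) m6_8 m6_15 l6_15 z6_15 w6_15 x6_15 (by decide) _ (chkS_sound E lk6 1 5 _ _ _ _ t6_8_15)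

def r6_8_16 : List (ℕ × ℤ) := [(223, -288), (229, 288), (279, 288), (281, -288)]

theorem h6_8_16 (E : Env κ ι) : ip (F6_8 E) (F6_16 E) = dotS (ek E lk6) r6_8_16 :=
  op_entryZ E lk6 1 5 _ _ _ _ (pg0 κ) (pg6 ι) m6_8 m6_16 l6_16 z6_16 w6_16 x6_16 (by decide) _ (chkS_sound E lk6 1 5 _ _ _ _ t6_8_16)

def r6_8_17 : List (ℕ × ℤ) := [(97, 288), (114, -288), (240, -288), (251, 288)]

theorem h6_8_17 (E : Env κ ι) : ip (F6_8 E) (F6_17 E) = dotS (ek E lk6) r6_8_17 :=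
  op_entryZ E lk6 1 5 _ _ _ _ (pg0 κ) (pg6 ι) m6_8 m6_17 l6_17 z6_17 w6_17 x6_17 (by decide) _ (chkS_sound E lk6 1 5 _ _ _ _ t6_8_17)

def r6_9_9 : List (ℕ × ℤ) := [(90, -36), (91, 72), (98, 72), (99, 72), (102, -72), (103, -144), (107, 108), (111, -72), (112, -216), (126, -36), (215, 72), (217, -72), (218, 72), (225, 36), (226, 108), (230, -72), (231, -72), (236, 72), (237, 72), (243, 36)]

theorem h6_9_9 (E : Env κ ι) : ip (F6_9 E) (F6_9 E) = dotS (ek E lk6) r6_9_9 :=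
  op_entryZ E lk6 1 5 _ _ _ _ (pg0 κ) (pg6 ι) m6_9 m6_9 l6_9 z6_9 w6_9 x6_9 (by decide) _ (chkS_sound E lk6 1 5 _ _ _ _ t6_9_9)

def r6_9_10 : List (ℕ × ℤ) := [(90, 72), (91, 36), (92, 108), (98, 36), (99, 36), (102, -36), (103, -72), (111, -36), (112, -216), (126, -108), (215, -36), (217, -72), (218, 36), (225, 36), (226, 108), (230, -36), (236, 36), (237, 108)]

theorem h6_9_10 (E : Env κ ι) : ip (F6_9 E) (F6_10 E) = dotS (ek E lk6) r6_9_10 :=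
  op_entryZ E lk6 1 5 _ _ _ _ (pg0 κ) (pg6 ι) m6_9 m6_10 l6_10 z6_10 w6_10 x6_10 (by decide) _ (chkS_sound E lk6 1 5 _ _ _ _ t6_9_10)

def r6_9_11 : List (ℕ × ℤ) := [(91, 216), (96, 72), (103, -216), (125, -72), (219, -72), (232, 72)]

theorem h6_9_11 (E : Env κ ι) : ip (F6_9 E) (F6_11 E) = dotS (ek E lk6) r6_9_11 :=
  op_entryZ E lk6 1 5 _ _ _ _ (pg0 κ) (pg6 ι) m6_9 m6_11 l6_11 z6_11 w6_11 x6_11 (by decide) _ (chkS_sound E lk6 1 5 _ _ _ _ t6_9_11)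

def r6_9_12 : List (ℕ × ℤ) := [(91, 216), (93, 72), (99, 72), (108, -72), (111, -72), (112, 72), (126, -216), (218, -216), (220, -72), (233, -72), (248, 72), (249, 216)]

theorem h6_9_12 (E : Env κ ι) : ip (F6_9 E) (F6_12 E) = dotS (ek E lk6) r6_9_12 :=
  op_entryZ E lk6 1 5 _ _ _ _ (pg0 κ) (pg6 ι) m6_9 m6_12 l6_12 z6_12 w6_12 x6_12 (by decide) _ (chkS_sound E lk6 1 5 _ _ _ _ t6_9_12)

def r6_9_13 : List (ℕ × ℤ) := [(91, 36), (93, -36), (99, 108), (103, 144), (108, 36), (111, -108), (112, -36), (126, -180), (218, -180), (220, 36), (233, -108), (248, 108), (249, 180)]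

theorem h6_9_13 (E : Env κ ι) : ip (F6_9 E) (F6_13 E) = dotS (ek E lk6) r6_9_13 :=
  op_entryZ E lk6 1 5 _ _ _ _ (pg0 κ) (pg6 ι) m6_9 m6_13 l6_13 z6_13 w6_13 x6_13 (by decide) _ (chkS_sound E lk6 1 5 _ _ _ _ t6_9_13)

def r6_9_14 : List (ℕ × ℤ) := [(36, 36), (43, -108), (94, -36), (95, 36), (101, 108), (104, 144), (123, -216), (127, -180), (221, 36), (234, -108), (250, 180), (253, 108)]

theorem h6_9_14 (E : Env κ ι) : ip (F6_9 E) (F6_14 E) = dotS (ek E lk6) r6_9_14 :=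
  op_entryZ E lk6 1 5 _ _ _ _ (pg0 κ) (pg6 ι) m6_9 m6_14 l6_14 z6_14 w6_14 x6_14 (by decide) _ (chkS_sound E lk6 1 5 _ _ _ _ t6_9_14)

def r6_9_15 : List (ℕ × ℤ) := [(36, -72), (43, -72), (94, 72), (95, 216), (101, 72), (123, -144), (127, -216), (221, -72), (234, -72), (250, 216), (253, 72)]

theorem h6_9_15 (E : Env κ ι) : ip (F6_9 E) (F6_15 E) = dotS (ek E lk6) r6_9_15 :=
  op_entryZ E lk6 1 5 _ _ _ _ (pg0 κ) (pg6 ι) m6_9 m6_15 l6_15 z6_15 w6_15 x6_15 (by decide) _ (chkS_sound E lk6 1 5 _ _ _ _ t6_9_15)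

def r6_9_16 : List (ℕ × ℤ) := [(228, -288), (229, 288), (279, 288), (280, -288)]

theorem h6_9_16 (E : Env κ ι) : ip (F6_9 E) (F6_16 E) = dotS (ek E lk6) r6_9_16 :=
  op_entryZ E lk6 1 5 _ _ _ _ (pg0 κ) (pg6 ι) m6_9 m6_16 l6_16 z6_16 w6_16 x6_16 (by decide) _ (chkS_sound E lk6 1 5 _ _ _ _ t6_9_16)

def r6_9_17 : List (ℕ × ℤ) := [(97, 288), (128, -288), (227, -288), (251, 288)]

theorem h6_9_17 (E : Env κ ι) : ip (F6_9 E) (F6_17 E) = dotS (ek E lk6) r6_9_17 :=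
  op_entryZ E lk6 1 5 _ _ _ _ (pg0 κ) (pg6 ι) m6_9 m6_17 l6_17 z6_17 w6_17 x6_17 (by decide) _ (chkS_sound E lk6 1 5 _ _ _ _ t6_9_17)

def r6_10_10 : List (ℕ × ℤ) := [(90, 144), (91, 144), (92, 144), (98, -36), (99, -72), (102, 36), (103, -72), (107, -72), (111, 72), (112, -144), (126, -36), (215, -72), (217, -144), (218, -72), (225, 72), (226, 72), (230, -72), (231, -72), (236, 72), (237, 72), (243, 36)]

theorem h6_10_10 (E : Env κ ι) : ip (F6_10 E) (F6_10 E) = dotS (ek E lk6) r6_10_10 :=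
  op_entryZ E lk6 1 5 _ _ _ _ (pg0 κ) (pg6 ι) m6_10 m6_10 l6_10 z6_10 w6_10 x6_10 (by decide) _ (chkS_sound E lk6 1 5 _ _ _ _ t6_10_10)

def r6_10_11 : List (ℕ × ℤ) := [(91, 144), (96, 144), (99, -72), (103, -72), (111, 72), (125, 72), (218, -72), (219, -144), (232, -72)]

theorem h6_10_11 (E : Env κ ι) : ip (F6_10 E) (F6_11 E) = dotS (ek E lk6) r6_10_11 :=
  op_entryZ E lk6 1 5 _ _ _ _ (pg0 κ) (pg6 ι) m6_10 m6_11 l6_11 z6_11 w6_11 x6_11 (by decide) _ (chkS_sound E lk6 1 5 _ _ _ _ t6_10_11)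

def r6_10_12 : List (ℕ × ℤ) := [(91, 144), (93, 144), (99, -72), (103, -72), (108, 144), (111, 72), (112, -144), (125, 72), (126, -144), (218, -72), (220, -144), (232, -72), (233, -144), (248, 144), (249, 144)]

theorem h6_10_12 (E : Env κ ι) : ip (F6_10 E) (F6_12 E) = dotS (ek E lk6) r6_10_12 :=
  op_entryZ E lk6 1 5 _ _ _ _ (pg0 κ) (pg6 ι) m6_10 m6_12 l6_12 z6_12 w6_12 x6_12 (by decide) _ (chkS_sound E lk6 1 5 _ _ _ _ t6_10_12)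

def r6_10_13 : List (ℕ × ℤ) := [(91, -72), (93, 72), (99, 36), (103, 36), (108, 216), (111, -36), (112, -216), (125, -36), (126, -216), (218, 36), (220, -72), (232, 36), (233, -72), (248, 72), (249, 216)]

theorem h6_10_13 (E : Env κ ι) : ip (F6_10 E) (F6_13 E) = dotS (ek E lk6) r6_10_13 :=
  op_entryZ E lk6 1 5 _ _ _ _ (pg0 κ) (pg6 ι) m6_10 m6_13 l6_13 z6_13 w6_13 x6_13 (by decide) _ (chkS_sound E lk6 1 5 _ _ _ _ t6_10_13)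

def r6_10_14 : List (ℕ × ℤ) := [(36, 108), (40, -36), (43, -36), (94, 72), (95, -72), (101, 36), (104, 36), (109, 108), (113, -108), (123, -72), (127, -216), (221, -72), (234, -72), (235, 36), (250, 216), (253, 72)]

theorem h6_10_14 (E : Env κ ι) : ip (F6_10 E) (F6_14 E) = dotS (ek E lk6) r6_10_14 :=
  op_entryZ E lk6 1 5 _ _ _ _ (pg0 κ) (pg6 ι) m6_10 m6_14 l6_14 z6_14 w6_14 x6_14 (by decide) _ (chkS_sound E lk6 1 5 _ _ _ _ t6_10_14)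

def r6_10_15 : List (ℕ × ℤ) := [(36, 72), (40, 72), (43, 72), (94, 144), (95, 144), (101, -72), (104, -72), (109, 72), (113, -72), (123, -144), (127, -144), (221, -144), (234, -144), (235, -72), (250, 144), (253, 144)]

theorem h6_10_15 (E : Env κ ι) : ip (F6_10 E) (F6_15 E) = dotS (ek E lk6) r6_10_15 :=
  op_entryZ E lk6 1 5 _ _ _ _ (pg0 κ) (pg6 ι) m6_10 m6_15 l6_15 z6_15 w6_15 x6_15 (by decide) _ (chkS_sound E lk6 1 5 _ _ _ _ t6_10_15)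

def r6_10_16 : List (ℕ × ℤ) := [(214, 288), (223, -288), (279, 288), (280, -288)]

theorem h6_10_16 (E : Env κ ι) : ip (F6_10 E) (F6_16 E) = dotS (ek E lk6) r6_10_16 :=
  op_entryZ E lk6 1 5 _ _ _ _ (pg0 κ) (pg6 ι) m6_10 m6_16 l6_16 z6_16 w6_16 x6_16 (by decide) _ (chkS_sound E lk6 1 5 _ _ _ _ t6_10_16)

def r6_10_17 : List (ℕ × ℤ) := [(97, 288), (227, -288), (240, -288), (255, 288)]

theorem h6_10_17 (E : Env κ ι) : ip (F6_10 E) (F6_17 E) = dotS (ek E lk6) r6_10_17 :=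
  op_entryZ E lk6 1 5 _ _ _ _ (pg0 κ) (pg6 ι) m6_10 m6_17 l6_17 z6_17 w6_17 x6_17 (by decide) _ (chkS_sound E lk6 1 5 _ _ _ _ t6_10_17)

def r6_11_11 : List (ℕ × ℤ) := [(14, 72), (98, -144), (102, 144), (245, -72)]

theorem h6_11_11 (E : Env κ ι) : ip (F6_11 E) (F6_11 E) = dotS (ek E lk6) r6_11_11 :=
  op_entryZ E lk6 1 5 _ _ _ _ (pg0 κ) (pg6 ι) m6_11 m6_11 l6_11 z6_11 w6_11 x6_11 (by decide) _ (chkS_sound E lk6 1 5 _ _ _ _ t6_11_11)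

def r6_11_12 : List (ℕ × ℤ) := [(9, 144), (100, 144), (103, -144), (125, 144), (216, -144), (232, -144)]

theorem h6_11_12 (E : Env κ ι) : ip (F6_11 E) (F6_12 E) = dotS (ek E lk6) r6_11_12 :=
  op_entryZ E lk6 1 5 _ _ _ _ (pg0 κ) (pg6 ι) m6_11 m6_12 l6_12 z6_12 w6_12 x6_12 (by decide) _ (chkS_sound E lk6 1 5 _ _ _ _ t6_11_12)

def r6_11_13 : List (ℕ × ℤ) := [(9, 72), (100, 216), (103, -216), (125, -72), (216, -72), (232, 72)]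

theorem h6_11_13 (E : Env κ ι) : ip (F6_11 E) (F6_13 E) = dotS (ek E lk6) r6_11_13 :=
  op_entryZ E lk6 1 5 _ _ _ _ (pg0 κ) (pg6 ι) m6_11 m6_13 l6_13 z6_13 w6_13 x6_13 (by decide) _ (chkS_sound E lk6 1 5 _ _ _ _ t6_11_13)

def r6_11_14 : List (ℕ × ℤ) := [(36, 216), (39, 72), (40, -72), (104, -216), (222, -72), (235, 72)]

theorem h6_11_14 (E : Env κ ι) : ip (F6_11 E) (F6_14 E) = dotS (ek E lk6) r6_11_14 :=
  op_entryZ E lk6 1 5 _ _ _ _ (pg0 κ) (pg6 ι) m6_11 m6_14 l6_14 z6_14 w6_14 x6_14 (by decide) _ (chkS_sound E lk6 1 5 _ _ _ _ t6_11_14)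

def r6_11_15 : List (ℕ × ℤ) := [(36, 144), (39, 144), (40, 144), (104, -144), (222, -144), (235, -144)]

theorem h6_11_15 (E : Env κ ι) : ip (F6_11 E) (F6_15 E) = dotS (ek E lk6) r6_11_15 :=
  op_entryZ E lk6 1 5 _ _ _ _ (pg0 κ) (pg6 ι) m6_11 m6_15 l6_15 z6_15 w6_15 x6_15 (by decide) _ (chkS_sound E lk6 1 5 _ _ _ _ t6_11_15)

def r6_11_16 : List (ℕ × ℤ) := [(6, 288), (224, -288), (281, 0)]

theorem h6_11_16 (E : Env κ ι) : ip (F6_11 E) (F6_16 E) = dotS (ek E lk6) r6_11_16 :=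
  op_entryZ E lk6 1 5 _ _ _ _ (pg0 κ) (pg6 ι) m6_11 m6_16 l6_16 z6_16 w6_16 x6_16 (by decide) _ (chkS_sound E lk6 1 5 _ _ _ _ t6_11_16)

def r6_11_17 : List (ℕ × ℤ) := [(13, 288), (246, -288)]

theorem h6_11_17 (E : Env κ ι) : ip (F6_11 E) (F6_17 E) = dotS (ek E lk6) r6_11_17 :=
  op_entryZ E lk6 1 5 _ _ _ _ (pg0 κ) (pg6 ι) m6_11 m6_17 l6_17 z6_17 w6_17 x6_17 (by decide) _ (chkS_sound E lk6 1 5 _ _ _ _ t6_11_17)

def r6_12_12 : List (ℕ × ℤ) := [(8, 144), (107, -144), (108, 288), (115, 144), (126, -144), (231, -288), (237, -288), (243, 144), (256, 144)]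

theorem h6_12_12 (E : Env κ ι) : ip (F6_12 E) (F6_12 E) = dotS (ek E lk6) r6_12_12 :=
  op_entryZ E lk6 1 5 _ _ _ _ (pg0 κ) (pg6 ι) m6_12 m6_12 l6_12 z6_12 w6_12 x6_12 (by decide) _ (chkS_sound E lk6 1 5 _ _ _ _ t6_12_12)

def r6_12_13 : List (ℕ × ℤ) := [(8, 72), (107, 72), (108, 144), (115, 72), (126, -216), (231, -144), (237, -144), (243, -72), (256, 216)]

theorem h6_12_13 (E : Env κ ι) : ip (F6_12 E) (F6_13 E) = dotS (ek E lk6) r6_12_13 :=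
  op_entryZ E lk6 1 5 _ _ _ _ (pg0 κ) (pg6 ι) m6_12 m6_13 l6_13 z6_13 w6_13 x6_13 (by decide) _ (chkS_sound E lk6 1 5 _ _ _ _ t6_12_13)

def r6_12_14 : List (ℕ × ℤ) := [(35, 216), (36, 216), (38, 72), (40, -72), (104, 72), (109, -72), (116, 72), (127, -144), (235, -216), (238, -144)]

theorem h6_12_14 (E : Env κ ι) : ip (F6_12 E) (F6_14 E) = dotS (ek E lk6) r6_12_14 :=
  op_entryZ E lk6 1 5 _ _ _ _ (pg0 κ) (pg6 ι) m6_12 m6_14 l6_14 z6_14 w6_14 x6_14 (by decide) _ (chkS_sound E lk6 1 5 _ _ _ _ t6_12_14)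

def r6_12_15 : List (ℕ × ℤ) := [(35, 144), (36, 144), (38, 144), (40, 144), (104, -144), (109, 144), (116, 144), (127, -288), (235, -144), (238, -288)]

theorem h6_12_15 (E : Env κ ι) : ip (F6_12 E) (F6_15 E) = dotS (ek E lk6) r6_12_15 :=
  op_entryZ E lk6 1 5 _ _ _ _ (pg0 κ) (pg6 ι) m6_12 m6_15 l6_15 z6_15 w6_15 x6_15 (by decide) _ (chkS_sound E lk6 1 5 _ _ _ _ t6_12_15)

def r6_12_16 : List (ℕ × ℤ) := [(5, 288), (117, 288), (247, -576)]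

theorem h6_12_16 (E : Env κ ι) : ip (F6_12 E) (F6_16 E) = dotS (ek E lk6) r6_12_16 :=
  op_entryZ E lk6 1 5 _ _ _ _ (pg0 κ) (pg6 ι) m6_12 m6_16 l6_16 z6_16 w6_16 x6_16 (by decide) _ (chkS_sound E lk6 1 5 _ _ _ _ t6_12_16)

def r6_12_17 : List (ℕ × ℤ) := [(7, 288), (118, 288), (241, -576)]

theorem h6_12_17 (E : Env κ ι) : ip (F6_12 E) (F6_17 E) = dotS (ek E lk6) r6_12_17 :=
  op_entryZ E lk6 1 5 _ _ _ _ (pg0 κ) (pg6 ι) m6_12 m6_17 l6_17 z6_17 w6_17 x6_17 (by decide) _ (chkS_sound E lk6 1 5 _ _ _ _ t6_12_17)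

def r6_13_13 : List (ℕ × ℤ) := [(8, 108), (107, 252), (108, 72), (115, -36), (126, -36), (231, -360), (237, -72), (243, -108), (256, 180)]

theorem h6_13_13 (E : Env κ ι) : ip (F6_13 E) (F6_13 E) = dotS (ek E lk6) r6_13_13 :=
  op_entryZ E lk6 1 5 _ _ _ _ (pg0 κ) (pg6 ι) m6_13 m6_13 l6_13 z6_13 w6_13 x6_13 (by decide) _ (chkS_sound E lk6 1 5 _ _ _ _ t6_13_13)

def r6_13_14 : List (ℕ × ℤ) := [(35, 180), (36, 36), (38, 108), (40, -108), (104, 252), (109, 36), (116, -36), (127, -216), (235, -180), (238, -72)]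

theorem h6_13_14 (E : Env κ ι) : ip (F6_13 E) (F6_14 E) = dotS (ek E lk6) r6_13_14 :=
  op_entryZ E lk6 1 5 _ _ _ _ (pg0 κ) (pg6 ι) m6_13 m6_14 l6_14 z6_14 w6_14 x6_14 (by decide) _ (chkS_sound E lk6 1 5 _ _ _ _ t6_13_14)

def r6_13_15 : List (ℕ × ℤ) := [(35, 216), (36, -72), (38, 72), (40, -72), (104, 72), (109, 216), (116, 72), (127, -432), (235, 72), (238, -144)]

theorem h6_13_15 (E : Env κ ι) : ip (F6_13 E) (F6_15 E) = dotS (ek E lk6) r6_13_15 :=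
  op_entryZ E lk6 1 5 _ _ _ _ (pg0 κ) (pg6 ι) m6_13 m6_15 l6_15 z6_15 w6_15 x6_15 (by decide) _ (chkS_sound E lk6 1 5 _ _ _ _ t6_13_15)

def r6_13_16 : List (ℕ × ℤ) := [(5, 288), (110, 288), (244, -288), (247, -288)]

theorem h6_13_16 (E : Env κ ι) : ip (F6_13 E) (F6_16 E) = dotS (ek E lk6) r6_13_16 :=
  op_entryZ E lk6 1 5 _ _ _ _ (pg0 κ) (pg6 ι) m6_13 m6_16 l6_16 z6_16 w6_16 x6_16 (by decide) _ (chkS_sound E lk6 1 5 _ _ _ _ t6_13_16)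

def r6_13_17 : List (ℕ × ℤ) := [(118, 288), (128, -288), (241, -288), (257, 288)]

theorem h6_13_17 (E : Env κ ι) : ip (F6_13 E) (F6_17 E) = dotS (ek E lk6) r6_13_17 :=
  op_entryZ E lk6 1 5 _ _ _ _ (pg0 κ) (pg6 ι) m6_13 m6_17 l6_17 z6_17 w6_17 x6_17 (by decide) _ (chkS_sound E lk6 1 5 _ _ _ _ t6_13_17)

def r6_14_14 : List (ℕ × ℤ) := [(0, 180), (1, -108), (17, 72), (18, 108), (53, -360), (105, 252), (119, -36), (129, -36), (239, -72)]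

theorem h6_14_14 (E : Env κ ι) : ip (F6_14 E) (F6_14 E) = dotS (ek E lk6) r6_14_14 :=
  op_entryZ E lk6 1 5 _ _ _ _ (pg0 κ) (pg6 ι) m6_14 m6_14 l6_14 z6_14 w6_14 x6_14 (by decide) _ (chkS_sound E lk6 1 5 _ _ _ _ t6_14_14)

def r6_14_15 : List (ℕ × ℤ) := [(0, 216), (1, -72), (17, 144), (18, 72), (53, -144), (105, 72), (119, 72), (129, -216), (239, -144)]

theorem h6_14_15 (E : Env κ ι) : ip (F6_14 E) (F6_15 E) = dotS (ek E lk6) r6_14_15 :=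
  op_entryZ E lk6 1 5 _ _ _ _ (pg0 κ) (pg6 ι) m6_14 m6_15 l6_15 z6_15 w6_15 x6_15 (by decide) _ (chkS_sound E lk6 1 5 _ _ _ _ t6_14_15)

def r6_14_16 : List (ℕ × ℤ) := [(32, -288), (33, 288), (122, 288), (252, -288)]

theorem h6_14_16 (E : Env κ ι) : ip (F6_14 E) (F6_16 E) = dotS (ek E lk6) r6_14_16 :=
  op_entryZ E lk6 1 5 _ _ _ _ (pg0 κ) (pg6 ι) m6_14 m6_16 l6_16 z6_16 w6_16 x6_16 (by decide) _ (chkS_sound E lk6 1 5 _ _ _ _ t6_14_16)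

def r6_14_17 : List (ℕ × ℤ) := [(34, 288), (121, 288), (130, -288), (242, -288)]

theorem h6_14_17 (E : Env κ ι) : ip (F6_14 E) (F6_17 E) = dotS (ek E lk6) r6_14_17 :=
  op_entryZ E lk6 1 5 _ _ _ _ (pg0 κ) (pg6 ι) m6_14 m6_17 l6_17 z6_17 w6_17 x6_17 (by decide) _ (chkS_sound E lk6 1 5 _ _ _ _ t6_14_17)

def r6_15_15 : List (ℕ × ℤ) := [(0, 144), (1, 144), (17, 288), (18, 144), (53, -288), (105, -144), (119, 144), (129, -144), (239, -288)]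

theorem h6_15_15 (E : Env κ ι) : ip (F6_15 E) (F6_15 E) = dotS (ek E lk6) r6_15_15 :=
  op_entryZ E lk6 1 5 _ _ _ _ (pg0 κ) (pg6 ι) m6_15 m6_15 l6_15 z6_15 w6_15 x6_15 (by decide) _ (chkS_sound E lk6 1 5 _ _ _ _ t6_15_15)

def r6_15_16 : List (ℕ × ℤ) := [(33, 288), (120, 288), (252, -576)]

theorem h6_15_16 (E : Env κ ι) : ip (F6_15 E) (F6_16 E) = dotS (ek E lk6) r6_15_16 :=
  op_entryZ E lk6 1 5 _ _ _ _ (pg0 κ) (pg6 ι) m6_15 m6_16 l6_16 z6_16 w6_16 x6_16 (by decide) _ (chkS_sound E lk6 1 5 _ _ _ _ t6_15_16)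

def r6_15_17 : List (ℕ × ℤ) := [(37, 288), (121, 288), (242, -576)]

theorem h6_15_17 (E : Env κ ι) : ip (F6_15 E) (F6_17 E) = dotS (ek E lk6) r6_15_17 :=
  op_entryZ E lk6 1 5 _ _ _ _ (pg0 κ) (pg6 ι) m6_15 m6_17 l6_17 z6_17 w6_17 x6_17 (by decide) _ (chkS_sound E lk6 1 5 _ _ _ _ t6_15_17)

def r6_16_16 : List (ℕ × ℤ) := [(15, 288), (124, 288), (254, -576)]

theorem h6_16_16 (E : Env κ ι) : ip (F6_16 E) (F6_16 E) = dotS (ek E lk6) r6_16_16 :=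
  op_entryZ E lk6 1 5 _ _ _ _ (pg0 κ) (pg6 ι) m6_16 m6_16 l6_16 z6_16 w6_16 x6_16 (by decide) _ (chkS_sound E lk6 1 5 _ _ _ _ t6_16_16)

def r6_16_17 : List (ℕ × ℤ) := [(4, 288), (282, 288), (283, -576)]

theorem h6_16_17 (E : Env κ ι) : ip (F6_16 E) (F6_17 E) = dotS (ek E lk6) r6_16_17 :=
  op_entryZ E lk6 1 5 _ _ _ _ (pg0 κ) (pg6 ι) m6_16 m6_17 l6_17 z6_17 w6_17 x6_17 (by decide) _ (chkS_sound E lk6 1 5 _ _ _ _ t6_16_17)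

def r6_17_17 : List (ℕ × ℤ) := [(12, 288), (131, 288), (258, -576)]

theorem h6_17_17 (E : Env κ ι) : ip (F6_17 E) (F6_17 E) = dotS (ek E lk6) r6_17_17 :=
  op_entryZ E lk6 1 5 _ _ _ _ (pg0 κ) (pg6 ι) m6_17 m6_17 l6_17 z6_17 w6_17 x6_17 (by decide) _ (chkS_sound E lk6 1 5 _ _ _ _ t6_17_17)

theorem row6_0 (E : Env κ ι) : RowG (ek E lk6) (F6_0 E) [F6_0 E, F6_1 E, F6_2 E, F6_3 E, F6_4 E, F6_5 E, F6_6 E, F6_7 E, F6_8 E, F6_9 E, F6_10 E, F6_11 E, F6_12 E, F6_13 E, F6_14 E, F6_15 E, F6_16 E, F6_17 E] [r6_0_0, r6_0_1, r6_0_2, r6_0_3, r6_0_4, r6_0_5, r6_0_6, r6_0_7, r6_0_8, r6_0_9, r6_0_10, r6_0_11, r6_0_12, r6_0_13, r6_0_14, r6_0_15, r6_0_16, r6_0_17] :=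
  rowG_cons _ _ _ _ _ _ (h6_0_0 E) (rowG_cons _ _ _ _ _ _ (h6_0_1 E) (rowG_cons _ _ _ _ _ _ (h6_0_2 E) (rowG_cons _ _ _ _ _ _ (h6_0_3 E) (rowG_cons _ _ _ _ _ _ (h6_0_4 E) (rowG_cons _ _ _ _ _ _ (h6_0_5 E) (rowG_cons _ _ _ _ _ _ (h6_0_6 E) (rowG_cons _ _ _ _ _ _ (h6_0_7 E) (rowG_cons _ _ _ _ _ _ (h6_0_8 E) (rowG_cons _ _ _ _ _ _ (h6_0_9 E) (rowG_cons _ _ _ _ _ _ (h6_0_10 E) (rowG_cons _ _ _ _ _ _ (h6_0_11 E) (rowG_cons _ _ _ _ _ _ (h6_0_12 E) (rowG_cons _ _ _ _ _ _ (h6_0_13 E) (rowG_cons _ _ _ _ _ _ (h6_0_14 E) (rowG_cons _ _ _ _ _ _ (h6_0_15 E) (rowG_cons _ _ _ _ _ _ (h6_0_16 E) (rowG_cons _ _ _ _ _ _ (h6_0_17 E) (rowG_nil _ _))))))))))))))))))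

theorem row6_1 (E : Env κ ι) : RowG (ek E lk6) (F6_1 E) [F6_1 E, F6_2 E, F6_3 E, F6_4 E, F6_5 E, F6_6 E, F6_7 E, F6_8 E, F6_9 E, F6_10 E, F6_11 E, F6_12 E, F6_13 E, F6_14 E, F6_15 E, F6_16 E, F6_17 E] [r6_1_1, r6_1_2, r6_1_3, r6_1_4, r6_1_5, r6_1_6, r6_1_7, r6_1_8, r6_1_9, r6_1_10, r6_1_11, r6_1_12, r6_1_13, r6_1_14, r6_1_15, r6_1_16, r6_1_17] :=
  rowG_cons _ _ _ _ _ _ (h6_1_1 E) (rowG_cons _ _ _ _ _ _ (h6_1_2 E) (rowG_cons _ _ _ _ _ _ (h6_1_3 E) (rowG_cons _ _ _ _ _ _ (h6_1_4 E) (rowG_cons _ _ _ _ _ _ (h6_1_5 E) (rowG_cons _ _ _ _ _ _ (h6_1_6 E) (rowG_cons _ _ _ _ _ _ (h6_1_7 E) (rowG_cons _ _ _ _ _ _ (h6_1_8 E) (rowG_cons _ _ _ _ _ _ (h6_1_9 E) (rowG_cons _ _ _ _ _ _ (h6_1_10 E) (rowG_cons _ _ _ _ _ _ (h6_1_11 E) (rowG_cons _ _ _ _ _ _ (h6_1_12 E) (rowG_cons _ _ _ _ _ _ (h6_1_13 E) (rowG_cons _ _ _ _ _ _ (h6_1_14 E) (rowG_cons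 _ _ _ _ _ _ (h6_1_15 E) (rowG_cons _ _ _ _ _ _ (h6_1_16 E) (rowG_cons _ _ _ _ _ _ (h6_1_17 E) (rowG_nil _ _)))))))))))))))))

theorem row6_2 (E : Env κ ι) : RowG (ek E lk6) (F6_2 E) [F6_2 E, F6_3 E, F6_4 E, F6_5 E, F6_6 E, F6_7 E, F6_8 E, F6_9 E, F6_10 E, F6_11 E, F6_12 E, F6_13 E, F6_14 E, F6_15 E, F6_16 E, F6_17 E] [r6_2_2, r6_2_3, r6_2_4, r6_2_5, r6_2_6, r6_2_7, r6_2_8, r6_2_9, r6_2_10, r6_2_11, r6_2_12, r6_2_13, r6_2_14, r6_2_15, r6_2_16, r6_2_17] :=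
  rowG_cons _ _ _ _ _ _ (h6_2_2 E) (rowG_cons _ _ _ _ _ _ (h6_2_3 E) (rowG_cons _ _ _ _ _ _ (h6_2_4 E) (rowG_cons _ _ _ _ _ _ (h6_2_5 E) (rowG_cons _ _ _ _ _ _ (h6_2_6 E) (rowG_cons _ _ _ _ _ _ (h6_2_7 E) (rowG_cons _ _ _ _ _ _ (h6_2_8 E) (rowG_cons _ _ _ _ _ _ (h6_2_9 E) (rowG_cons _ _ _ _ _ _ (h6_2_10 E) (rowG_cons _ _ _ _ _ _ (h6_2_11 E) (rowG_cons _ _ _ _ _ _ (h6_2_12 E) (rowG_cons _ _ _ _ _ _ (h6_2_13 E) (rowG_cons _ _ _ _ _ _ (h6_2_14 E) (rowG_cons _ _ _ _ _ _ (h6_2_15 E) (rowG_cons _ _ _ _ _ _ (h6_2_16 E) (rowG_cons _ _ _ _ _ _ (h6_2_17 E) (rowG_nil _ _))))))))))))))))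

theorem row6_3 (E : Env κ ι) : RowG (ek E lk6) (F6_3 E) [F6_3 E, F6_4 E, F6_5 E, F6_6 E, F6_7 E, F6_8 E, F6_9 E, F6_10 E, F6_11 E, F6_12 E, F6_13 E, F6_14 E, F6_15 E, F6_16 E, F6_17 E] [r6_3_3, r6_3_4, r6_3_5, r6_3_6, r6_3_7, r6_3_8, r6_3_9, r6_3_10, r6_3_11, r6_3_12, r6_3_13, r6_3_14, r6_3_15, r6_3_16, r6_3_17] :=
  rowG_cons _ _ _ _ _ _ (h6_3_3 E) (rowG_cons _ _ _ _ _ _ (h6_3_4 E) (rowG_cons _ _ _ _ _ _ (h6_3_5 E) (rowG_cons _ _ _ _ _ _ (h6_3_6 E) (rowG_cons _ _ _ _ _ _ (h6_3_7 E) (rowG_cons _ _ _ _ _ _ (h6_3_8 E) (rowG_cons _ _ _ _ _ _ (h6_3_9 E) (rowG_cons _ _ _ _ _ _ (h6_3_10 E) (rowG_cons _ _ _ _ _ _ (h6_3_11 E) (rowG_cons _ _ _ _ _ _ (h6_3_12 E) (rowG_cons _ _ _ _ _ _ (h6_3_13 E) (rowG_cons _ _ _ _ _ _ (h6_3_14 E) (rowG_cons _ _ _ _ _ _ (h6_3_15 E) (rowG_cons _ _ _ _ _ _ (h6_3_16 E) (rowG_cons _ _ _ _ _ _ (h6_3_17 E)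 (rowG_nil _ _)))))))))))))))

theorem row6_4 (E : Env κ ι) : RowG (ek E lk6) (F6_4 E) [F6_4 E, F6_5 E, F6_6 E, F6_7 E, F6_8 E, F6_9 E, F6_10 E, F6_11 E, F6_12 E, F6_13 E, F6_14 E, F6_15 E, F6_16 E, F6_17 E] [r6_4_4, r6_4_5, r6_4_6, r6_4_7, r6_4_8, r6_4_9, r6_4_10, r6_4_11, r6_4_12, r6_4_13, r6_4_14, r6_4_15, r6_4_16, r6_4_17] :=
  rowG_cons _ _ _ _ _ _ (h6_4_4 E) (rowG_cons _ _ _ _ _ _ (h6_4_5 E) (rowG_cons _ _ _ _ _ _ (h6_4_6 E) (rowG_cons _ _ _ _ _ _ (h6_4_7 E) (rowG_cons _ _ _ _ _ _ (h6_4_8 E) (rowG_cons _ _ _ _ _ _ (h6_4_9 E) (rowG_cons _ _ _ _ _ _ (h6_4_10 E) (rowG_cons _ _ _ _ _ _ (h6_4_11 E) (rowG_cons _ _ _ _ _ _ (h6_4_12 E) (rowG_cons _ _ _ _ _ _ (h6_4_13 E) (rowG_cons _ _ _ _ _ _ (h6_4_14 E) (rowG_cons _ _ _ _ _ _ (h6_4_15 E) (rowG_cons _ _ _ _ _ _ (h6_4_16 E) (rowG_cons _ _ _ _ _ _ (h6_4_17 E) (rowG_nil _ _))))))))))))))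

theorem row6_5 (E : Env κ ι) : RowG (ek E lk6) (F6_5 E) [F6_5 E, F6_6 E, F6_7 E, F6_8 E, F6_9 E, F6_10 E, F6_11 E, F6_12 E, F6_13 E, F6_14 E, F6_15 E, F6_16 E, F6_17 E] [r6_5_5, r6_5_6, r6_5_7, r6_5_8, r6_5_9, r6_5_10, r6_5_11, r6_5_12, r6_5_13, r6_5_14, r6_5_15, r6_5_16, r6_5_17] :=
  rowG_cons _ _ _ _ _ _ (h6_5_5 E) (rowG_cons _ _ _ _ _ _ (h6_5_6 E) (rowG_cons _ _ _ _ _ _ (h6_5_7 E) (rowG_cons _ _ _ _ _ _ (h6_5_8 E) (rowG_cons _ _ _ _ _ _ (h6_5_9 E) (rowG_cons _ _ _ _ _ _ (h6_5_10 E) (rowG_cons _ _ _ _ _ _ (h6_5_11 E) (rowG_cons _ _ _ _ _ _ (h6_5_12 E) (rowG_cons _ _ _ _ _ _ (h6_5_13 E) (rowG_cons _ _ _ _ _ _ (h6_5_14 E) (rowG_cons _ _ _ _ _ _ (h6_5_15 E) (rowG_cons _ _ _ _ _ _ (h6_5_16 E) (rowG_cons _ _ _ _ _ _ (h6_5_17 E) (rowG_nil _ _)))))))))))))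

theorem row6_6 (E : Env κ ι) : RowG (ek E lk6) (F6_6 E) [F6_6 E, F6_7 E, F6_8 E, F6_9 E, F6_10 E, F6_11 E, F6_12 E, F6_13 E, F6_14 E, F6_15 E, F6_16 E, F6_17 E] [r6_6_6, r6_6_7, r6_6_8, r6_6_9, r6_6_10, r6_6_11, r6_6_12, r6_6_13, r6_6_14, r6_6_15, r6_6_16, r6_6_17] :=
  rowG_cons _ _ _ _ _ _ (h6_6_6 E) (rowG_cons _ _ _ _ _ _ (h6_6_7 E) (rowG_cons _ _ _ _ _ _ (h6_6_8 E) (rowG_cons _ _ _ _ _ _ (h6_6_9 E) (rowG_cons _ _ _ _ _ _ (h6_6_10 E) (rowG_cons _ _ _ _ _ _ (h6_6_11 E) (rowG_cons _ _ _ _ _ _ (h6_6_12 E) (rowG_cons _ _ _ _ _ _ (h6_6_13 E) (rowG_cons _ _ _ _ _ _ (h6_6_14 E) (rowG_cons _ _ _ _ _ _ (h6_6_15 E) (rowG_cons _ _ _ _ _ _ (h6_6_16 E) (rowG_cons _ _ _ _ _ _ (h6_6_17 E) (rowG_nil _ _))))))))))))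

theorem row6_7 (E : Env κ ι) : RowG (ek E lk6) (F6_7 E) [F6_7 E, F6_8 E, F6_9 E, F6_10 E, F6_11 E, F6_12 E, F6_13 E, F6_14 E, F6_15 E, F6_16 E, F6_17 E] [r6_7_7, r6_7_8, r6_7_9, r6_7_10, r6_7_11, r6_7_12, r6_7_13, r6_7_14, r6_7_15, r6_7_16, r6_7_17] :=
  rowG_cons _ _ _ _ _ _ (h6_7_7 E) (rowG_cons _ _ _ _ _ _ (h6_7_8 E) (rowG_cons _ _ _ _ _ _ (h6_7_9 E) (rowG_cons _ _ _ _ _ _ (h6_7_10 E) (rowG_cons _ _ _ _ _ _ (h6_7_11 E) (rowG_cons _ _ _ _ _ _ (h6_7_12 E) (rowG_cons _ _ _ _ _ _ (h6_7_13 E) (rowG_cons _ _ _ _ _ _ (h6_7_14 E) (rowG_cons _ _ _ _ _ _ (h6_7_15 E) (rowG_cons _ _ _ _ _ _ (h6_7_16 E) (rowG_cons _ _ _ _ _ _ (h6_7_17 E) (rowG_nil _ _)))))))))))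

theorem row6_8 (E : Env κ ι) : RowG (ek E lk6) (F6_8 E) [F6_8 E, F6_9 E, F6_10 E, F6_11 E, F6_12 E, F6_13 E, F6_14 E, F6_15 E, F6_16 E, F6_17 E] [r6_8_8, r6_8_9, r6_8_10, r6_8_11, r6_8_12, r6_8_13, r6_8_14, r6_8_15, r6_8_16, r6_8_17] :=
  rowG_cons _ _ _ _ _ _ (h6_8_8 E) (rowG_cons _ _ _ _ _ _ (h6_8_9 E) (rowG_cons _ _ _ _ _ _ (h6_8_10 E) (rowG_cons _ _ _ _ _ _ (h6_8_11 E) (rowG_cons _ _ _ _ _ _ (h6_8_12 E) (rowG_cons _ _ _ _ _ _ (h6_8_13 E) (rowG_cons _ _ _ _ _ _ (h6_8_14 E) (rowG_cons _ _ _ _ _ _ (h6_8_15 E) (rowG_cons _ _ _ _ _ _ (h6_8_16 E) (rowG_cons _ _ _ _ _ _ (h6_8_17 E) (rowG_nil _ _))))))))))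

theorem row6_9 (E : Env κ ι) : RowG (ek E lk6) (F6_9 E) [F6_9 E, F6_10 E, F6_11 E, F6_12 E, F6_13 E, F6_14 E, F6_15 E, F6_16 E, F6_17 E] [r6_9_9, r6_9_10, r6_9_11, r6_9_12, r6_9_13, r6_9_14, r6_9_15, r6_9_16, r6_9_17] :=
  rowG_cons _ _ _ _ _ _ (h6_9_9 E) (rowG_cons _ _ _ _ _ _ (h6_9_10 E) (rowG_cons _ _ _ _ _ _ (h6_9_11 E) (rowG_cons _ _ _ _ _ _ (h6_9_12 E) (rowG_cons _ _ _ _ _ _ (h6_9_13 E) (rowG_cons _ _ _ _ _ _ (h6_9_14 E) (rowG_cons _ _ _ _ _ _ (h6_9_15 E) (rowG_cons _ _ _ _ _ _ (h6_9_16 E) (rowG_cons _ _ _ _ _ _ (h6_9_17 E) (rowG_nil _ _)))))))))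

theorem row6_10 (E : Env κ ι) : RowG (ek E lk6) (F6_10 E) [F6_10 E, F6_11 E, F6_12 E, F6_13 E, F6_14 E, F6_15 E, F6_16 E, F6_17 E] [r6_10_10, r6_10_11, r6_10_12, r6_10_13, r6_10_14, r6_10_15, r6_10_16, r6_10_17] :=
  rowG_cons _ _ _ _ _ _ (h6_10_10 E) (rowG_cons _ _ _ _ _ _ (h6_10_11 E) (rowG_cons _ _ _ _ _ _ (h6_10_12 E) (rowG_cons _ _ _ _ _ _ (h6_10_13 E) (rowG_cons _ _ _ _ _ _ (h6_10_14 E) (rowG_cons _ _ _ _ _ _ (h6_10_15 E) (rowG_cons _ _ _ _ _ _ (h6_10_16 E) (rowG_cons _ _ _ _ _ _ (h6_10_17 E) (rowG_nil _ _))))))))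

theorem row6_11 (E : Env κ ι) : RowG (ek E lk6) (F6_11 E) [F6_11 E, F6_12 E, F6_13 E, F6_14 E, F6_15 E, F6_16 E, F6_17 E] [r6_11_11, r6_11_12, r6_11_13, r6_11_14, r6_11_15, r6_11_16, r6_11_17] :=
  rowG_cons _ _ _ _ _ _ (h6_11_11 E) (rowG_cons _ _ _ _ _ _ (h6_11_12 E) (rowG_cons _ _ _ _ _ _ (h6_11_13 E) (rowG_cons _ _ _ _ _ _ (h6_11_14 E) (rowG_cons _ _ _ _ _ _ (h6_11_15 E) (rowG_cons _ _ _ _ _ _ (h6_11_16 E) (rowG_cons _ _ _ _ _ _ (h6_11_17 E) (rowG_nil _ _)))))))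

theorem row6_12 (E : Env κ ι) : RowG (ek E lk6) (F6_12 E) [F6_12 E, F6_13 E, F6_14 E, F6_15 E, F6_16 E, F6_17 E] [r6_12_12, r6_12_13, r6_12_14, r6_12_15, r6_12_16, r6_12_17] :=
  rowG_cons _ _ _ _ _ _ (h6_12_12 E) (rowG_cons _ _ _ _ _ _ (h6_12_13 E) (rowG_cons _ _ _ _ _ _ (h6_12_14 E) (rowG_cons _ _ _ _ _ _ (h6_12_15 E) (rowG_cons _ _ _ _ _ _ (h6_12_16 E) (rowG_cons _ _ _ _ _ _ (h6_12_17 E) (rowG_nil _ _))))))

theorem row6_13 (E : Env κ ι) : RowG (ek E lk6) (F6_13 E) [F6_13 E, F6_14 E, F6_15 E, F6_16 E, F6_17 E] [r6_13_13, r6_13_14, r6_13_15, r6_13_16, r6_13_17] :=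
  rowG_cons _ _ _ _ _ _ (h6_13_13 E) (rowG_cons _ _ _ _ _ _ (h6_13_14 E) (rowG_cons _ _ _ _ _ _ (h6_13_15 E) (rowG_cons _ _ _ _ _ _ (h6_13_16 E) (rowG_cons _ _ _ _ _ _ (h6_13_17 E) (rowG_nil _ _)))))

theorem row6_14 (E : Env κ ι) : RowG (ek E lk6) (F6_14 E) [F6_14 E, F6_15 E, F6_16 E, F6_17 E] [r6_14_14, r6_14_15, r6_14_16, r6_14_17] :=
  rowG_cons _ _ _ _ _ _ (h6_14_14 E) (rowG_cons _ _ _ _ _ _ (h6_14_15 E) (rowG_cons _ _ _ _ _ _ (h6_14_16 E) (rowG_cons _ _ _ _ _ _ (h6_14_17 E) (rowG_nil _ _))))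

theorem row6_15 (E : Env κ ι) : RowG (ek E lk6) (F6_15 E) [F6_15 E, F6_16 E, F6_17 E] [r6_15_15, r6_15_16, r6_15_17] :=
  rowG_cons _ _ _ _ _ _ (h6_15_15 E) (rowG_cons _ _ _ _ _ _ (h6_15_16 E) (rowG_cons _ _ _ _ _ _ (h6_15_17 E) (rowG_nil _ _)))

theorem row6_16 (E : Env κ ι) : RowG (ek E lk6) (F6_16 E) [F6_16 E, F6_17 E] [r6_16_16, r6_16_17] :=
  rowG_cons _ _ _ _ _ _ (h6_16_16 E) (rowG_cons _ _ _ _ _ _ (h6_16_17 E) (rowG_nil _ _))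

theorem row6_17 (E : Env κ ι) : RowG (ek E lk6) (F6_17 E) [F6_17 E] [r6_17_17] :=
  rowG_cons _ _ _ _ _ _ (h6_17_17 E) (rowG_nil _ _)

def tab6 : List (List (List (ℕ × ℤ))) := [[r6_0_0, r6_0_1, r6_0_2, r6_0_3, r6_0_4, r6_0_5, r6_0_6, r6_0_7, r6_0_8, r6_0_9, r6_0_10, r6_0_11, r6_0_12, r6_0_13, r6_0_14, r6_0_15, r6_0_16, r6_0_17], [r6_1_1, r6_1_2, r6_1_3, r6_1_4, r6_1_5, r6_1_6, r6_1_7, r6_1_8, r6_1_9, r6_1_10, r6_1_11, r6_1_12, r6_1_13, r6_1_14, r6_1_15, r6_1_16, r6_1_17], [r6_2_2, r6_2_3, r6_2_4, r6_2_5, r6_2_6, r6_2_7, r6_2_8, r6_2_9, r6_2_10, r6_2_11, r6_2_12, r6_2_13, r6_2_14, r6_2_15, r6_2_16, r6_2_17], [r6_3_3, r6_3_4, r6_3_5, r6_3_6, r6_3_7, r6_3_8, r6_3_9, r6_3_10, r6_3_11, r6_3_12, r6_3_13, r6_3_14, r6_3_15, r6_3_16, r6_3_17], [r6_4_4, r6_4_5, r6_4_6, r6_4_7, r6_4_8, r6_4_9, r6_4_10, r6_4_11, r6_4_12, r6_4_13, r6_4_14,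 r6_4_15, r6_4_16, r6_4_17], [r6_5_5, r6_5_6, r6_5_7, r6_5_8, r6_5_9, r6_5_10, r6_5_11, r6_5_12, r6_5_13, r6_5_14, r6_5_15, r6_5_16, r6_5_17], [r6_6_6, r6_6_7, r6_6_8, r6_6_9, r6_6_10, r6_6_11, r6_6_12, r6_6_13, r6_6_14, r6_6_15, r6_6_16, r6_6_17], [r6_7_7, r6_7_8, r6_7_9, r6_7_10, r6_7_11, r6_7_12, r6_7_13, r6_7_14, r6_7_15, r6_7_16, r6_7_17], [r6_8_8, r6_8_9, r6_8_10, r6_8_11, r6_8_12, r6_8_13, r6_8_14, r6_8_15, r6_8_16, r6_8_17], [r6_9_9, r6_9_10, r6_9_11, r6_9_12, r6_9_13, r6_9_14, r6_9_15, r6_9_16, r6_9_17], [r6_10_10, r6_10_11, r6_10_12, r6_10_13, r6_10_14, r6_10_15, r6_10_16, r6_10_17], [r6_11_11, r6_11_12, r6_11_13, r6_11_14, r6_11_15, r6_11_16, r6_11_17], [r6_12_12, r6_12_13, r6_12_14, r6_12_15, r6_12_16, r6_12_17], [r6_13_13, r6_13_14, r6_13_15, r6_13_16, r6_13_17], [r6_14_14, r6_14_15, r6_14_16, r6_14_17], [r6_15_15,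 r6_15_16, r6_15_17], [r6_16_16, r6_16_17], [r6_17_17]]

theorem tri6 (E : Env κ ι) : TriG (ek E lk6) [F6_0 E, F6_1 E, F6_2 E, F6_3 E, F6_4 E, F6_5 E, F6_6 E, F6_7 E, F6_8 E, F6_9 E, F6_10 E, F6_11 E, F6_12 E, F6_13 E, F6_14 E, F6_15 E, F6_16 E, F6_17 E] tab6 := by
  refine triG_cons _ _ _ _ _ (row6_0 E) ?_
  refine triG_cons _ _ _ _ _ (row6_1 E) ?_
  refine triG_cons _ _ _ _ _ (row6_2 E) ?_
  refine triG_cons _ _ _ _ _ (row6_3 E) ?_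
  refine triG_cons _ _ _ _ _ (row6_4 E) ?_
  refine triG_cons _ _ _ _ _ (row6_5 E) ?_
  refine triG_cons _ _ _ _ _ (row6_6 E) ?_
  refine triG_cons _ _ _ _ _ (row6_7 E) ?_
  refine triG_cons _ _ _ _ _ (row6_8 E) ?_
  refine triG_cons _ _ _ _ _ (row6_9 E) ?_
  refine triG_cons _ _ _ _ _ (row6_10 E) ?_
  refine triG_cons _ _ _ _ _ (row6_11 E) ?_
  refine triG_cons _ _ _ _ _ (row6_12 E) ?_
  refine triG_cons _ _ _ _ _ (row6_13 E) ?_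
  refine triG_cons _ _ _ _ _ (row6_14 E) ?_
  refine triG_cons _ _ _ _ _ (row6_15 E) ?_
  refine triG_cons _ _ _ _ _ (row6_16 E) ?_
  refine triG_cons _ _ _ _ _ (row6_17 E) ?_
  exact triG_nil _

end

end YMBG
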